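import Pool.Agent.Lib.MP_5854e1_co.DecRow

/-!
# Sparse corrections
-/

set_option autoImplicit false
set_option maxRecDepth 100000

namespace Pool.Agent.Lib.MP_5854e1_co.Cz

noncomputable section

noncomputable def tz127 : DT := (.nd (nat_lit 4) (.nd (nat_lit 16) (.nd (nat_lit 5) 
(.nd (nat_lit 6) (.nd (nat_lit 18) (.nd (nat_lit 27) (.nd (nat_lit 21) (.nd (nat_lit 31) 
(.nd (nat_lit 20) (.nd (nat_lit 7) (.nd (nat_lit 9) 
(.lf (nat_lit 12771341) (dlOf (nat_lit 3) (nat_lit 0x10636000430d80004c1000898d800022040038002000600086e0382))) 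
(.lf (nat_lit 192013) (dlOf (nat_lit 1) (nat_lit 0x20028007081)))) 
(.lf (nat_lit 1879236749) (dlOf (nat_lit 2) (nat_lit 0x1502b8004815400440a8002405100120278009813800140000003b0e000200280c0101)))) 
(.nd (nat_lit 22) (.lf (nat_lit 43180045) (dlOf (nat_lit 1) (nat_lit 0x7a00192a0001))) 
(.nd (nat_lit 23) (.lf (nat_lit 22208525) (dlOf (nat_lit 1) (nat_lit 0x120028aa0a01))) 
(.lf (nat_lit 30597133) (dlOf (nat_lit 2) (nat_lit 0xf61400e8a04000400400060008e40782)))))) 
(.nd (nat_lit 10) (.nd (nat_lit 9) (.nd (nat_lit 29) 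
(.lf (nat_lit 2147672077) (dlOf (nat_lit 1) (nat_lit 0x2d0004001800080c0002))) 
(.lf (nat_lit 2684542989) (dlOf (nat_lit 1) (nat_lit 0x200180a0001)))) 
(.lf (nat_lit 2483216909) (dlOf (nat_lit 1) (nat_lit 0x800400180008090d82)))) (.nd (nat_lit 7) 
(.nd (nat_lit 26) 
(.lf (nat_lit 2684548365) (dlOf (nat_lit 1) (nat_lit 0xd0008006c002005000080a9683))) 
(.lf (nat_lit 2214786317) (dlOf (nat_lit 1) (nat_lit 0x400180a9681)))) 
(.lf (nat_lit 6509751949) (dlOf (nat_lit 1) (nat_lit 0x180008147181)))))) (.nd (nat_lit 23) 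
(.nd (nat_lit 31) (.nd (nat_lit 8) 
(.lf (nat_lit 24829965) (dlOf (nat_lit 1) (nat_lit 0x40008003000200100008bc0683))) 
(.lf (nat_lit 36365581) (dlOf (nat_lit 1) (nat_lit 0x20019073001)))) (.nd (nat_lit 26) 
(.lf (nat_lit 3492470797) (dlOf (nat_lit 13) (nat_lit 0x2c87b40013e04033046801b61fa00ab0f680538750012c2c801e215b01000ac00760508036424e00c4123008b0000001f45806e88d0014844402121fa00de0f68054875001302c8012c15b00ec0ac008b0508001424e01da12300500000001f06004d87e803cc3da006216400d20ad8001ec2006707b400e82840007a04003223400310fd000187b400c83a8007e16400510ad8021856000d828400201270003a89001411a001e07e800503da002816400170ad801285600100284001412700130000001cc4802407b4000e40403383da0002e02019c1ed000168100ce0f68000840800287b40000004009c002004600080d0482))) 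
(.lf (nat_lit 2754273293) (dlOf (nat_lit 13) (nat_lit 0x2c87fc0013e04033049801b620f00ab0ff805387a4012c2d0020015d00f10a880760508036425600c4127008b0000001f45806e8930014846e021220f00de0ff805487a401302d001d815d00960a8808b0508001425601da12700500000001f06004d883c03cc3fe006216800d20a88001ec2006707fc00e82840007a04003224c0031107800187fc00c83d2007e16800430ae8028854400d8284002012b0003a890014126001e083c00503fe002816800250ae800b85440100284001412b00130000001cc4802407fc000e40403383fe0002902019c1ff000140100ce0ff8000700800287fc0000004009c002004600080d0482))))) 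
(.nd (nat_lit 7) (.nd (nat_lit 19) 
(.lf (nat_lit 44228621) (dlOf (nat_lit 1) (nat_lit 0x4004000200092e0002))) 
(.lf (nat_lit 27975693) (dlOf (nat_lit 1) (nat_lit 0x20018d50181)))) (.nd (nat_lit 10) 
(.lf (nat_lit 12247181) (dlOf (nat_lit 1) (nat_lit 0x600186c0101))) 
(.lf (nat_lit 49996941) (dlOf (nat_lit 1) (nat_lit 0x200294c2b01))))))) (.nd (nat_lit 29) 
(.nd (nat_lit 7) (.nd (nat_lit 20) (.nd (nat_lit 9) 
(.lf (nat_lit 1275256845) (dlOf (nat_lit 1) (nat_lit 0x2d0004001800080c0002))) 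
(.lf (nat_lit 3422746125) (dlOf (nat_lit 1) (nat_lit 0x200180a9c01)))) (.nd (nat_lit 19) 
(.lf (nat_lit 470999053) (dlOf (nat_lit 1) (nat_lit 0x20018230181))) 
(.lf (nat_lit 471523341) (dlOf (nat_lit 1) (nat_lit 0x260028320101))))) (.nd (nat_lit 8) 
(.lf (nat_lit 3422746253) (dlOf (nat_lit 2) (nat_lit 0xa00bc00000040004004000200180a9e02))) 
(.nd (nat_lit 10) (.lf (nat_lit 473098637) (dlOf (nat_lit 1) (nat_lit 0x80018c94e81))) 
(.lf (nat_lit 1543695757) (dlOf (nat_lit 7) (nat_lit 0x1a803200b60030000d8200700130016806401ac00600720000000c84007d013001500640014006003a0000000584006501300220064023c006005e00000005040016013000f006400bc006004c0000000484002100000001c0801b000800fc00200500008146c83)))))) 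
(.nd (nat_lit 26) (.nd (nat_lit 8) (.nd (nat_lit 9) (.nd (nat_lit 30) 
(.lf (nat_lit 2819285005) (dlOf (nat_lit 2) (nat_lit 0x28118009ae04000400200020008220282))) 
(.lf (nat_lit 3893026829) (dlOf (nat_lit 1) (nat_lit 0x200182f0281)))) 
(.lf (nat_lit 6039986701) (dlOf (nat_lit 1) (nat_lit 0x4004000200080b1482)))) (.nd (nat_lit 9) 
(.lf (nat_lit 4966244621) (dlOf (nat_lit 1) (nat_lit 0x20008090a81))) 
(.lf (nat_lit 2818764557) (dlOf (nat_lit 1) (nat_lit 0x3800200080008127482))))) (.nd (nat_lit 7) 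
(.nd (nat_lit 19) (.lf (nat_lit 5033353229) (dlOf (nat_lit 1) (nat_lit 0x20008090001))) 
(.lf (nat_lit 6376054797) (dlOf (nat_lit 1) (nat_lit 0x130008011000200800008060a03)))) 
(.nd (nat_lit 8) 
(.lf (nat_lit 1006821517) (dlOf (nat_lit 2) (nat_lit 0x1502b8004815400440a8002405100120278009813800140000003b0e000200280c0101))) 
(.lf (nat_lit 5033353613) (dlOf (nat_lit 1) (nat_lit 0x20008091001)))))))) (.nd (nat_lit 22) 
(.nd (nat_lit 26) (.nd (nat_lit 7) (.nd (nat_lit 21) (.nd (nat_lit 30) 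
(.lf (nat_lit 6442901517) (dlOf (nat_lit 1) (nat_lit 0x48000400fa0018210802))) 
(.lf (nat_lit 1074192397) (dlOf (nat_lit 1) (nat_lit 0x280080004002000400080d0483)))) 
(.nd (nat_lit 8) 
(.lf (nat_lit 2547725) (dlOf (nat_lit 2) (nat_lit 0x700000004c080098008002800200240008170383))) 
(.lf (nat_lit 1344726285) (dlOf (nat_lit 1) (nat_lit 0x40018983001))))) (.nd (nat_lit 19) 
(.lf (nat_lit 11985037) (dlOf (nat_lit 2) (nat_lit 0x3d494001aa3c00035180006a8a0003526000076140030004000400086c0102))) 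
(.lf (nat_lit 3072141) (dlOf (nat_lit 2) (nat_lit 0x6c99200c64c7005025e801192a800b4950006a49600120000000ec380008008038c00200180008200103))))) 
(.nd (nat_lit 8) (.nd (nat_lit 27) (.nd (nat_lit 30) 
(.lf (nat_lit 3020349453) (dlOf (nat_lit 1) (nat_lit 0x800400020008280182))) 
(.lf (nat_lit 1946607629) (dlOf (nat_lit 1) (nat_lit 0x280080004002000400080d0483)))) 
(.lf (nat_lit 5838921741) (dlOf (nat_lit 1) (nat_lit 0x48000400fa0018210802)))) (.nd (nat_lit 7) 
(.nd (nat_lit 10) (.lf (nat_lit 471261453) (dlOf (nat_lit 1) (nat_lit 0x34002038c00082e0702))) 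
(.lf (nat_lit 472311053) (dlOf (nat_lit 1) (nat_lit 0x8c00400160008983002)))) 
(.lf (nat_lit 3959873933) (dlOf (nat_lit 2) (nat_lit 0x803e0065a018170780)))))) (.nd (nat_lit 20) 
(.nd (nat_lit 23) (.nd (nat_lit 7) 
(.lf (nat_lit 21946381) (dlOf (nat_lit 3) (nat_lit 0x54ce00029bd80010890000809e0013b0800094ce00049bd80020890002720c000400200040008a80482))) 
(.lf (nat_lit 54976909) (dlOf (nat_lit 2) (nat_lit 0x1a101000801e0010cc1000f0008004c00200200009685d83)))) 
(.nd (nat_lit 21) (.nd (nat_lit 25) 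
(.lf (nat_lit 13557773) (dlOf (nat_lit 2) (nat_lit 0x8a3e000cf0200020018730481))) 
(.lf (nat_lit 47112205) (dlOf (nat_lit 1) (nat_lit 0x2400293a0001)))) 
(.lf (nat_lit 15654925) (dlOf (nat_lit 2) (nat_lit 0x2c9ae005f50200020018810281))))) 
(.nd (nat_lit 21) (.nd (nat_lit 7) 
(.lf (nat_lit 22994957) (dlOf (nat_lit 1) (nat_lit 0x60028b40101))) 
(.lf (nat_lit 56551821) (dlOf (nat_lit 2) (nat_lit 0xc49b0060d819734e80)))) (.nd (nat_lit 9) 
(.lf (nat_lit 8314893) (dlOf (nat_lit 1) (nat_lit 0x400200020008510002))) 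
(.lf (nat_lit 58122765) (dlOf (nat_lit 2) (nat_lit 0xb3b400159d800a6904003000197c7b01)))))))) 
(.nd (nat_lit 19) (.nd (nat_lit 26) (.nd (nat_lit 8) (.nd (nat_lit 9) (.nd (nat_lit 18) 
(.lf (nat_lit 6308421709) (dlOf (nat_lit 1) (nat_lit 0x4004000a0018080502))) 
(.lf (nat_lit 37150797) (dlOf (nat_lit 1) (nat_lit 0x200190b0681)))) (.nd (nat_lit 11) 
(.lf (nat_lit 11723341) (dlOf (nat_lit 1) (nat_lit 0x200186c1181))) (.nd (nat_lit 18) 
(.lf (nat_lit 36891213) (dlOf (nat_lit 1) (nat_lit 0x20009075281))) 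
(.lf (nat_lit 51833421) (dlOf (nat_lit 1) (nat_lit 0x40029515281)))))) (.nd (nat_lit 7) 
(.nd (nat_lit 9) (.lf (nat_lit 41083213) (dlOf (nat_lit 1) (nat_lit 0x100029218901))) 
(.lf (nat_lit 3489856333) (dlOf (nat_lit 1) (nat_lit 0x40020002000800bc82)))) (.nd (nat_lit 9) 
(.nd (nat_lit 11) (.lf (nat_lit 4697809357) (dlOf (nat_lit 1) (nat_lit 0x40028091101))) 
(.lf (nat_lit 1344465357) (dlOf (nat_lit 1) (nat_lit 0xaa0008804e81)))) 
(.lf (nat_lit 57074637) (dlOf (nat_lit 1) (nat_lit 0x20029792881)))))) (.nd (nat_lit 7) 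
(.nd (nat_lit 27) (.nd (nat_lit 11) (.nd (nat_lit 18) 
(.lf (nat_lit 5704441933) (dlOf (nat_lit 1) (nat_lit 0x4004000a0018080502))) 
(.lf (nat_lit 69656653) (dlOf (nat_lit 1) (nat_lit 0x40028b90001)))) 
(.lf (nat_lit 2751658061) (dlOf (nat_lit 2) (nat_lit 0x290a900085c0801d800800dc0020014000800a683)))) 
(.nd (nat_lit 12) (.nd (nat_lit 18) 
(.lf (nat_lit 738385997) (dlOf (nat_lit 1) (nat_lit 0x8008000400200020008090003))) 
(.lf (nat_lit 1007083597) (dlOf (nat_lit 1) (nat_lit 0x400400020008170702)))) 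
(.lf (nat_lit 3154309197) (dlOf (nat_lit 1) (nat_lit 0x11800801d400200400008157d83))))) 
(.nd (nat_lit 28) (.nd (nat_lit 9) (.nd (nat_lit 21) 
(.lf (nat_lit 1812128205) (dlOf (nat_lit 1) (nat_lit 0x20028157101))) 
(.lf (nat_lit 2753749453) (dlOf (nat_lit 1) (nat_lit 0x2000805c8002027a0008090a03)))) 
(.lf (nat_lit 2751653837) (dlOf (nat_lit 2) (nat_lit 0x2624800008018004480)))) (.nd (nat_lit 8) 
(.nd (nat_lit 9) 
(.lf (nat_lit 3556964557) (dlOf (nat_lit 2) (nat_lit 0xc07000a40020002001812a881))) 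
(.lf (nat_lit 3556963021) (dlOf (nat_lit 1) (nat_lit 0x400200020008128c82)))) 
(.lf (nat_lit 4228047309) (dlOf (nat_lit 1) (nat_lit 0x20028017101))))))) (.nd (nat_lit 18) 
(.nd (nat_lit 7) (.nd (nat_lit 22) (.nd (nat_lit 8) 
(.lf (nat_lit 10149965) (dlOf (nat_lit 2) (nat_lit 0x8a3e00ae502000800085b0901))) 
(.lf (nat_lit 5773123917) (dlOf (nat_lit 1) (nat_lit 0x800280a6681)))) (.nd (nat_lit 20) 
(.lf (nat_lit 30072909) (dlOf (nat_lit 2) (nat_lit 0x6643600044018e30180))) 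
(.lf (nat_lit 39510093) (dlOf (nat_lit 1) (nat_lit 0x8800807a0002001c0009190003))))) 
(.nd (nat_lit 8) 
(.lf (nat_lit 1879761101) (dlOf (nat_lit 1) (nat_lit 0x8008042400200c20008370483))) 
(.lf (nat_lit 35316685) (dlOf (nat_lit 1) (nat_lit 0x400400020009012882))))) (.nd (nat_lit 22) 
(.nd (nat_lit 8) (.nd (nat_lit 9) (.nd (nat_lit 21) 
(.lf (nat_lit 6377365581) (dlOf (nat_lit 1) (nat_lit 0x4004000200080d1602))) 
(.lf (nat_lit 20897869) (dlOf (nat_lit 2) (nat_lit 0x9ecc0006322800098f80004f06002a00189f0601)))) 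
(.lf (nat_lit 62843469) (dlOf (nat_lit 1) (nat_lit 0x4002000200099a5282)))) (.nd (nat_lit 7) 
(.lf (nat_lit 3072333) (dlOf (nat_lit 2) (nat_lit 0x31a4b200e02500000c81000e000804b400200280008200603))) 
(.lf (nat_lit 2753487309) (dlOf (nat_lit 1) (nat_lit 0x8008000c00200060008090a03))))) 
(.nd (nat_lit 20) (.nd (nat_lit 9) 
(.lf (nat_lit 21946445) (dlOf (nat_lit 1) (nat_lit 0xb400200160008a80f82))) 
(.lf (nat_lit 32434765) (dlOf (nat_lit 1) (nat_lit 0x20018ef5281)))) (.nd (nat_lit 7) 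
(.lf (nat_lit 25092173) (dlOf (nat_lit 1) (nat_lit 0x1c0028be1501))) 
(.lf (nat_lit 8316365) (dlOf (nat_lit 1) (nat_lit 0x138008000800200260008513603))))))))) 
(.nd (nat_lit 18) (.nd (nat_lit 26) (.nd (nat_lit 19) (.nd (nat_lit 28) (.nd (nat_lit 24) 
(.nd (nat_lit 6) (.nd (nat_lit 7) 
(.lf (nat_lit 1073930285) (dlOf (nat_lit 1) (nat_lit 0x8008000400200020008030c03))) 
(.lf (nat_lit 3355636909) (dlOf (nat_lit 13) (nat_lit 0x82805e0051f0203be03200271810019016801264080f600bc007d404016805e003d70203f402f000de8101e5017800658080fb00bc003240407d005e001890203ee032000260100250178000f0080f100bc00000040054004000400180a9502)))) 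
(.lf (nat_lit 2818765933) (dlOf (nat_lit 1) (nat_lit 0x80080008002000c0008129403)))) 
(.nd (nat_lit 20) (.lf (nat_lit 25354285) (dlOf (nat_lit 1) (nat_lit 0x8008000800200020008c00603))) 
(.nd (nat_lit 22) (.lf (nat_lit 18014253) (dlOf (nat_lit 1) (nat_lit 0x400400360008900b02))) 
(.lf (nat_lit 30597165) (dlOf (nat_lit 1) (nat_lit 0x100028e40e01)))))) (.nd (nat_lit 7) 
(.nd (nat_lit 8) (.nd (nat_lit 20) 
(.lf (nat_lit 2416107565) (dlOf (nat_lit 2) (nat_lit 0x6e00000011018070800))) 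
(.lf (nat_lit 3490897965) (dlOf (nat_lit 1) (nat_lit 0x8008000400200020008030c03)))) 
(.lf (nat_lit 1879236909) (dlOf (nat_lit 1) (nat_lit 0x200280c0501)))) (.nd (nat_lit 8) 
(.lf (nat_lit 805498541) (dlOf (nat_lit 2) (nat_lit 0x1c0000000a02000e0008117281))) 
(.lf (nat_lit 5637334445) (dlOf (nat_lit 1) (nat_lit 0x3e00280d3601)))))) (.nd (nat_lit 6) 
(.nd (nat_lit 20) (.nd (nat_lit 7) (.nd (nat_lit 23) 
(.lf (nat_lit 2809901) (dlOf (nat_lit 1) (nat_lit 0x600281b0d81))) 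
(.lf (nat_lit 11198509) (dlOf (nat_lit 2) (nat_lit 0x1072c000ac04002c002003c0008670682)))) 
(.lf (nat_lit 51044781) (dlOf (nat_lit 1) (nat_lit 0x4004000200094f6e82)))) (.nd (nat_lit 9) 
(.nd (nat_lit 21) (.lf (nat_lit 1343938605) (dlOf (nat_lit 1) (nat_lit 0x40018380e01))) 
(.lf (nat_lit 29024301) (dlOf (nat_lit 2) (nat_lit 0x257300042830000ba08005800200040008db0e02)))) 
(.lf (nat_lit 8058413) (dlOf (nat_lit 1) (nat_lit 0x20028519c01))))) (.nd (nat_lit 20) 
(.nd (nat_lit 7) 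
(.lf (nat_lit 48947309) (dlOf (nat_lit 1) (nat_lit 0x1d8008016c002009e0009452483))) 
(.nd (nat_lit 8) (.lf (nat_lit 1344987373) (dlOf (nat_lit 1) (nat_lit 0x800289a1e81))) 
(.lf (nat_lit 36365293) (dlOf (nat_lit 1) (nat_lit 0x40019072881))))) (.nd (nat_lit 7) 
(.lf (nat_lit 8058733) (dlOf (nat_lit 1) (nat_lit 0x2002851a301))) (.nd (nat_lit 12) 
(.lf (nat_lit 37415405) (dlOf (nat_lit 1) (nat_lit 0x3bc002019600090d4f02))) 
(.lf (nat_lit 8059373) (dlOf (nat_lit 1) (nat_lit 0xe00020026000851b282)))))))) (.nd (nat_lit 7) 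
(.nd (nat_lit 27) (.nd (nat_lit 19) (.nd (nat_lit 6) (.nd (nat_lit 20) 
(.lf (nat_lit 1946345517) (dlOf (nat_lit 1) (nat_lit 0x8008000400200020008030c03))) 
(.lf (nat_lit 2752700461) (dlOf (nat_lit 1) (nat_lit 0x8008000400200020008030c03)))) 
(.lf (nat_lit 5167572589) (dlOf (nat_lit 1) (nat_lit 0x200280d3901)))) (.nd (nat_lit 28) 
(.lf (nat_lit 4362788909) (dlOf (nat_lit 3) (nat_lit 0x36033000190100790198000c4080050008001400200140008100603))) 
(.lf (nat_lit 3557482541) (dlOf (nat_lit 1) (nat_lit 0x400400020008220882))))) (.nd (nat_lit 30) 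
(.nd (nat_lit 6) (.nd (nat_lit 8) 
(.lf (nat_lit 472571949) (dlOf (nat_lit 2) (nat_lit 0xc2145000000189c0280))) 
(.lf (nat_lit 1006821677) (dlOf (nat_lit 1) (nat_lit 0x200280c0501)))) 
(.lf (nat_lit 4496482413) (dlOf (nat_lit 1) (nat_lit 0x8800400300008090b82)))) (.nd (nat_lit 6) 
(.nd (nat_lit 19) (.lf (nat_lit 3691175981) (dlOf (nat_lit 1) (nat_lit 0x40018070881))) 
(.lf (nat_lit 4228571181) (dlOf (nat_lit 3) (nat_lit 0x36032000198100790190000c8080050008001400200140008100603)))) 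
(.lf (nat_lit 1543695725) (dlOf (nat_lit 2) (nat_lit 0x120028000b40800a8008000800200340008146b03)))))) 
(.nd (nat_lit 8) (.nd (nat_lit 9) (.nd (nat_lit 10) (.nd (nat_lit 27) 
(.lf (nat_lit 2483216557) (dlOf (nat_lit 1) (nat_lit 0x2000800ac00200020008090303))) 
(.lf (nat_lit 2348998829) (dlOf (nat_lit 1) (nat_lit 0x2000800ac00200020008090303)))) 
(.lf (nat_lit 2617439405) (dlOf (nat_lit 14) (nat_lit 0x7202d00320148019806000c8006006c0000033c850007015800500a800cc4080040056006802a0032d82002f016800d00ac00b0052005900604bc02f0258017012400a408cc022004e308003402f035101700137c101ca00bc0e5405c070002902df008801344201bb80bc0099404013805800d202a0024c82016801780a880b8053c05802cc02a001f78401bf0160001300803980b000078040850058000000200f400280a9501)))) 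
(.nd (nat_lit 6) (.lf (nat_lit 6241315501) (dlOf (nat_lit 1) (nat_lit 0x200280d5681))) 
(.lf (nat_lit 6643966701) (dlOf (nat_lit 1) (nat_lit 0x4004000200080b2102))))) (.nd (nat_lit 6) 
(.nd (nat_lit 11) 
(.lf (nat_lit 201515437) (dlOf (nat_lit 1) (nat_lit 0x170008002400200040008017183))) 
(.lf (nat_lit 3825396141) (dlOf (nat_lit 1) (nat_lit 0x60008002400200260008144e83)))) 
(.nd (nat_lit 27) (.lf (nat_lit 2483216877) (dlOf (nat_lit 1) (nat_lit 0x9400200220008090d02))) 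
(.lf (nat_lit 2348999149) (dlOf (nat_lit 1) (nat_lit 0x9400200220008090d02)))))))) 
(.nd (nat_lit 28) (.nd (nat_lit 19) (.nd (nat_lit 7) (.nd (nat_lit 20) (.nd (nat_lit 8) 
(.nd (nat_lit 22) 
(.lf (nat_lit 1074192429) (dlOf (nat_lit 1) (nat_lit 0x3180080494002005e00080d0b03))) 
(.lf (nat_lit 13033517) (dlOf (nat_lit 4) (nat_lit 0x1ea4c0001602000d52600002810005a930000100800080080010002001000086f0d83)))) 
(.nd (nat_lit 29) 
(.lf (nat_lit 4362527021) (dlOf (nat_lit 7) (nat_lit 0x1c00000008c0400680000004402006600000021810094000000108080c400c800500000003f04029a032000a0000000d01008e800802f800203b80008090503))) 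
(.lf (nat_lit 1678172461) (dlOf (nat_lit 6) (nat_lit 0x580a400400440001f8200190168013005c000700800e805a0003602003202d0001a8100070290000d00800a00080178002004400081a0503))))) 
(.nd (nat_lit 22) (.nd (nat_lit 6) (.nd (nat_lit 25) 
(.lf (nat_lit 2752962605) (dlOf (nat_lit 1) (nat_lit 0xd8008000400200700008070803))) 
(.lf (nat_lit 35053613) (dlOf (nat_lit 1) (nat_lit 0x1e000400c80008fd0282)))) 
(.lf (nat_lit 45539437) (dlOf (nat_lit 1) (nat_lit 0xc0029331c01)))) (.nd (nat_lit 23) 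
(.lf (nat_lit 56025133) (dlOf (nat_lit 2) (nat_lit 0xab2800010019710280))) 
(.lf (nat_lit 30859309) (dlOf (nat_lit 1) (nat_lit 0x20018e50b01)))))) (.nd (nat_lit 9) 
(.nd (nat_lit 6) (.lf (nat_lit 42394797) (dlOf (nat_lit 1) (nat_lit 0xa0029242c01))) 
(.nd (nat_lit 8) (.lf (nat_lit 34005229) (dlOf (nat_lit 1) (nat_lit 0x100018f91e81))) 
(.lf (nat_lit 537321965) (dlOf (nat_lit 1) (nat_lit 0x80080030002000a0008090d03))))) 
(.nd (nat_lit 6) (.lf (nat_lit 454317) (dlOf (nat_lit 1) (nat_lit 0x20028007281))) 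
(.nd (nat_lit 29) (.lf (nat_lit 1208412909) (dlOf (nat_lit 1) (nat_lit 0x1200280e5a01))) 
(.lf (nat_lit 1745283821) (dlOf (nat_lit 1) (nat_lit 0x200280e5a01))))))) (.nd (nat_lit 21) 
(.nd (nat_lit 8) (.nd (nat_lit 22) (.nd (nat_lit 20) 
(.lf (nat_lit 537845805) (dlOf (nat_lit 1) (nat_lit 0x40028230601))) 
(.lf (nat_lit 52355117) (dlOf (nat_lit 1) (nat_lit 0x18008000800200020009530283)))) 
(.nd (nat_lit 24) (.lf (nat_lit 5169197) (dlOf (nat_lit 1) (nat_lit 0xa0028320681))) 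
(.lf (nat_lit 21946413) (dlOf (nat_lit 3) (nat_lit 0x1e3510001601006f1a88000ac080020008001400200140008a80c03))))) 
(.nd (nat_lit 20) (.lf (nat_lit 26140973) (dlOf (nat_lit 1) (nat_lit 0x20018c10701))) 
(.lf (nat_lit 18800941) (dlOf (nat_lit 1) (nat_lit 0x620018970701))))) (.nd (nat_lit 6) 
(.nd (nat_lit 7) (.nd (nat_lit 9) 
(.lf (nat_lit 11460653) (dlOf (nat_lit 12) (nat_lit 0x3ea3840158d380002a04005e8e10001481002a34e000088080821a7000030040170d38000170202028da000638a80004010000a55004e11b400c08d200cf38a80491a580001e140358e2a0000e0201087150000681001446d00019c54000060800a91b40000102004400186a0801))) 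
(.lf (nat_lit 19853869) (dlOf (nat_lit 1) (nat_lit 0x400289d8981)))) 
(.lf (nat_lit 49211821) (dlOf (nat_lit 1) (nat_lit 0x20009464e81)))) (.nd (nat_lit 7) 
(.nd (nat_lit 8) (.lf (nat_lit 19852397) (dlOf (nat_lit 1) (nat_lit 0x4004000200089d6082))) 
(.lf (nat_lit 19852141) (dlOf (nat_lit 1) (nat_lit 0x4004000200089d5c02)))) 
(.lf (nat_lit 19849965) (dlOf (nat_lit 1) (nat_lit 0x4004000200089d2102))))))) (.nd (nat_lit 26) 
(.nd (nat_lit 7) (.nd (nat_lit 30) (.nd (nat_lit 8) 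
(.lf (nat_lit 2416372781) (dlOf (nat_lit 1) (nat_lit 0x80080004002000200080f6083))) 
(.lf (nat_lit 805757229) (dlOf (nat_lit 6) (nat_lit 0x580a400400440001f8200190168013005c000740800e805a0003802003202d0001b8100070290000d00800a00080178002004400081a0503)))) 
(.nd (nat_lit 20) (.nd (nat_lit 32) 
(.lf (nat_lit 1342627885) (dlOf (nat_lit 4) (nat_lit 0x411e800388c80004452000a1d200040e3800586f400054180040462001022b000311400006018030800000020040004004003200180a0902))) 
(.lf (nat_lit 5637595181) (dlOf (nat_lit 2) (nat_lit 0x17009800094080008008008c00200020008120d03)))) 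
(.lf (nat_lit 3491160109) (dlOf (nat_lit 3) (nat_lit 0x38000000500400640000000c0200020008070901))))) 
(.nd (nat_lit 6) (.nd (nat_lit 27) 
(.lf (nat_lit 3490113965) (dlOf (nat_lit 1) (nat_lit 0x20018004e81))) 
(.lf (nat_lit 1476848045) (dlOf (nat_lit 1) (nat_lit 0x40028284e81)))) 
(.lf (nat_lit 5772338413) (dlOf (nat_lit 1) (nat_lit 0x400200020008092e82))))) (.nd (nat_lit 27) 
(.nd (nat_lit 29) (.nd (nat_lit 6) (.nd (nat_lit 19) 
(.lf (nat_lit 3557220397) (dlOf (nat_lit 11) (nat_lit 0x7303900009c080220184075807e0002604016603f00012810073039009980fc0004808024407e0001d0201b203f0000d010001030004180fc0003208014007e000170200e60720000681012101f800000080e60008030400202b00008170403))) 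
(.lf (nat_lit 1410261037) (dlOf (nat_lit 1) (nat_lit 0x40028230601)))) 
(.lf (nat_lit 1409737197) (dlOf (nat_lit 1) (nat_lit 0x80080030002000a0008090d03)))) 
(.nd (nat_lit 6) (.nd (nat_lit 32) 
(.lf (nat_lit 1946607661) (dlOf (nat_lit 1) (nat_lit 0x3180080494002005e00080d0b03))) 
(.lf (nat_lit 6241574957) (dlOf (nat_lit 2) (nat_lit 0x17009000094080008008008c00200020008120d03)))) 
(.lf (nat_lit 4094094061) (dlOf (nat_lit 2) (nat_lit 0x60f000014018005a00))))) (.nd (nat_lit 8) 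
(.nd (nat_lit 19) (.lf (nat_lit 470212653) (dlOf (nat_lit 1) (nat_lit 0x4002000200080a0802))) 
(.lf (nat_lit 473882669) (dlOf (nat_lit 1) (nat_lit 0xb8008005c002002e0008fc0283)))) 
(.nd (nat_lit 6) 
(.lf (nat_lit 4228309293) (dlOf (nat_lit 7) (nat_lit 0x1c0000000920400680000004702006600000023010094000000114080c400c400500000003f04029a031000a0000000d01008e800802f800203b80008090503))) 
(.lf (nat_lit 472312173) (dlOf (nat_lit 1) (nat_lit 0xaa0008984e81)))))))))) (.nd (nat_lit 19) 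
(.nd (nat_lit 28) (.nd (nat_lit 18) (.nd (nat_lit 26) (.nd (nat_lit 22) (.nd (nat_lit 5) 
(.nd (nat_lit 8) (.nd (nat_lit 27) 
(.lf (nat_lit 537124877) (dlOf (nat_lit 1) (nat_lit 0x4c00400020008020482))) 
(.lf (nat_lit 134471693) (dlOf (nat_lit 10) (nat_lit 0x3009400180460001015000270180df812806ec08c036e02f01be01500026c200318128018408c003a02f005e0150002682016101280250092058404602cb017816500a80012c14015409400b0046004b017802600a80011a10002005e0008c02037004a01d302300d780bc07700540008b08044204a0224023011780bc08b0054009200c00042850282025013681180a2c05e04f602a002800600020c2801c0008006400200120008030483)))) 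
(.nd (nat_lit 6) 
(.lf (nat_lit 9691533) (dlOf (nat_lit 3) (nat_lit 0x839800161bb00040ce0019f018001067000cf60401ac00400ba0008575d82))) 
(.lf (nat_lit 20179789) (dlOf (nat_lit 1) (nat_lit 0x4002000200089d5c02))))) (.nd (nat_lit 6) 
(.nd (nat_lit 7) 
(.lf (nat_lit 44294189) (dlOf (nat_lit 2) (nat_lit 0x35130006a4b80002c1000500080004002000a00092f0c83))) 
(.lf (nat_lit 9691309) (dlOf (nat_lit 1) (nat_lit 0x60018571581)))) (.nd (nat_lit 7) 
(.lf (nat_lit 2818833517) (dlOf (nat_lit 1) (nat_lit 0x40020006000812c082))) 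
(.lf (nat_lit 9691629) (dlOf (nat_lit 1) (nat_lit 0x20008577d01)))))) (.nd (nat_lit 21) 
(.nd (nat_lit 23) (.nd (nat_lit 6) 
(.lf (nat_lit 5496845) (dlOf (nat_lit 1) (nat_lit 0x60028380281))) 
(.lf (nat_lit 4448461) (dlOf (nat_lit 2) (nat_lit 0x11607000150080010008006800200080008290483)))) 
(.nd (nat_lit 5) (.lf (nat_lit 30662669) (dlOf (nat_lit 1) (nat_lit 0x80008e40781))) 
(.lf (nat_lit 30662701) (dlOf (nat_lit 2) (nat_lit 0x12cc20000502000c0008e40e01))))) 
(.nd (nat_lit 6) (.nd (nat_lit 7) 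
(.lf (nat_lit 24371213) (dlOf (nat_lit 1) (nat_lit 0x600008b90681))) 
(.lf (nat_lit 31713677) (dlOf (nat_lit 1) (nat_lit 0x18008000400200020008e94e83)))) 
(.lf (nat_lit 24371277) (dlOf (nat_lit 1) (nat_lit 0x400200020008b90f02)))))) (.nd (nat_lit 7) 
(.nd (nat_lit 27) (.nd (nat_lit 6) 
(.lf (nat_lit 4362330125) (dlOf (nat_lit 2) (nat_lit 0x804d000bd818020480))) (.nd (nat_lit 29) 
(.lf (nat_lit 5436072013) (dlOf (nat_lit 2) (nat_lit 0x5005e003a014002f00880010418015000800a0002002c00080b0603))) 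
(.lf (nat_lit 3825459277) (dlOf (nat_lit 1) (nat_lit 0x40028160901))))) (.nd (nat_lit 8) 
(.nd (nat_lit 29) 
(.lf (nat_lit 201580557) (dlOf (nat_lit 10) (nat_lit 0x3009400180460001015000270180df812806ec08c036e02f01be01500026c200318128018408c003a02f005e0150002682016101280250092058404602cb017816500a80012c14015409400b0046004b017802600a80011a10002005e0008c02037004a01d302300d780bc07700540008b08044204a0224023011780bc08b0054009200c00042850282025013681180a2c05e04f602a002800600020c2801c0008006400200120008030483))) 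
(.lf (nat_lit 1812193293) (dlOf (nat_lit 15) (nat_lit 0x4048000401a000a18200010058004f408006802c00278040064030005c00b00300020004ec18006802c00274040044030006200b003300200078000002721000340160013802001a00b0008c0100c400c0070002c03cc00801780000006c8400aa00c0069002c0398008016c0000006c04000100580035c08007002c0019a040014000000c402001a00b000e004800000100300008075800200280008170483)))) 
(.lf (nat_lit 738454285) (dlOf (nat_lit 1) (nat_lit 0x10008000400200020008095b03))))) 
(.nd (nat_lit 6) (.nd (nat_lit 8) (.nd (nat_lit 9) 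
(.lf (nat_lit 69461165) (dlOf (nat_lit 1) (nat_lit 0x100080004002000400089c2c03))) 
(.lf (nat_lit 4899203757) (dlOf (nat_lit 1) (nat_lit 0x100080008002000400080d5683)))) 
(.nd (nat_lit 5) (.lf (nat_lit 1275324813) (dlOf (nat_lit 1) (nat_lit 0x200080e4e81))) 
(.lf (nat_lit 4899204013) (dlOf (nat_lit 1) (nat_lit 0x4004000200080d5d02))))) (.nd (nat_lit 5) 
(.lf (nat_lit 2885936077) (dlOf (nat_lit 1) (nat_lit 0x40028142881))) (.nd (nat_lit 8) 
(.lf (nat_lit 68411629) (dlOf (nat_lit 1) (nat_lit 0xc0028570601))) 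
(.lf (nat_lit 1677976045) (dlOf (nat_lit 2) (nat_lit 0x9700700000008011800800ac00201100008127d03)))))))) 
(.nd (nat_lit 23) (.nd (nat_lit 6) (.nd (nat_lit 29) (.nd (nat_lit 7) (.nd (nat_lit 20) 
(.lf (nat_lit 6510075917) (dlOf (nat_lit 1) (nat_lit 0x7800181b0181))) 
(.lf (nat_lit 3661837) (dlOf (nat_lit 5) (nat_lit 0x184e0001c266000e0e8005730300060a2000304e0002026600100e8005728400090a2000484e00014266000a0e80057204000a0a2000504e0001426600040e800571848210680)))) 
(.lf (nat_lit 23584909) (dlOf (nat_lit 2) (nat_lit 0x14cf0000ec080008008000c00200040008b80103)))) 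
(.nd (nat_lit 5) (.nd (nat_lit 7) 
(.lf (nat_lit 5906096141) (dlOf (nat_lit 1) (nat_lit 0x7800181b0181))) 
(.lf (nat_lit 537387149) (dlOf (nat_lit 3) (nat_lit 0x1980be002c04b0001b02011402c800000080018008017000200020008090103)))) 
(.nd (nat_lit 26) (.lf (nat_lit 1611128877) (dlOf (nat_lit 2) (nat_lit 0x6e01d000000180f0d00))) 
(.lf (nat_lit 738713645) (dlOf (nat_lit 2) (nat_lit 0x6e01d000000180f0d00)))))) (.nd (nat_lit 8) 
(.nd (nat_lit 7) (.nd (nat_lit 21) 
(.lf (nat_lit 3892830285) (dlOf (nat_lit 25) (nat_lit 0xe002c000758100310160003a40836600b000186040218058000c202009e02c00060810de30160007001c00180081ec4058000bf020700063061f02f82ad016019a00ae0ad2053027202480a9810001f40780d2c037055801b026c80c00e9405a075202b005d013809500941a940320d3201805e20098018003c1a280140cd4009052e00082ba8000001185c00240c60046058066902b832780dc148406c05d402d066400c835e8060004401e0c8a00a061a0048175000413b00000008b1a00ec0180004501014003182f7817c149c0b00cf4057054c02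9812881240034080006603c068d01b82a580d811fc06006e002d03a9015801b809c1adc0320d12018053c00983410028196c0120a0e0010548000000224a8165018c15ac0be0996058067d02b8026814c00a0092013a040001401e032180dc131806c068003002f9016818480ac003c04e0d9401906cc00c028d004c19700140c820090453000828480000011054014c0300008702022e0180004301001200c8001ec0802f80b00001e0401380580000e02026802c0000681003f016000030081dc80b00001604000c0580000902000c02c000028100380160000100806d00b000000040330002005c0008280182))) 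
(.lf (nat_lit 36167757) (dlOf (nat_lit 1) (nat_lit 0x20019030681)))) 
(.lf (nat_lit 1564877) (dlOf (nat_lit 1) (nat_lit 0x4004000200080f5a82)))) (.nd (nat_lit 24) 
(.nd (nat_lit 26) 
(.lf (nat_lit 3221742029) (dlOf (nat_lit 2) (nat_lit 0x1e027000301340000008008c00400220008170a02))) 
(.lf (nat_lit 3959939533) (dlOf (nat_lit 2) (nat_lit 0x1e027000301340000008008c00400220008170a02)))) 
(.lf (nat_lit 50848205) (dlOf (nat_lit 1) (nat_lit 0x4004004200094d7a82)))))) (.nd (nat_lit 21) 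
(.nd (nat_lit 5) (.nd (nat_lit 6) 
(.lf (nat_lit 13099021) (dlOf (nat_lit 1) (nat_lit 0x1c200086f0081))) 
(.lf (nat_lit 8905165) (dlOf (nat_lit 1) (nat_lit 0x20028511101)))) (.nd (nat_lit 20) 
(.lf (nat_lit 13099053) (dlOf (nat_lit 5) (nat_lit 0x24c800001602000c6400000a01000532000001408003190000008040004004001000086f0d82))) 
(.lf (nat_lit 9953325) (dlOf (nat_lit 1) (nat_lit 0xa00085a0d01))))) (.nd (nat_lit 5) 
(.lf (nat_lit 16244749) (dlOf (nat_lit 3) (nat_lit 0x1931800189780007d0400084c6000625e0001f0100028008001800200140008870183))) 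
(.nd (nat_lit 22) 
(.lf (nat_lit 27779117) (dlOf (nat_lit 14) (nat_lit 0x66c70001354800059920005806000edfc00046c7000335480019a80000acda000666480015430002b7f00021bf6000cd8e00026a90004b5440019a800012d3f000366d0003332400419900005414000cdfc00026c7000335480005aa20010d40000169f8003336800119920014cc8000290900036fe000436380021aa4000ccda00016648001442800337f00021b1c0010d5200066a00004b368001d9920004c0c0008dfc00096fd8001b6380005b1a000ed5100076a00004b4fc00199b40020cc8000258900056fd8002b6340015aa40004506000ad8d0001f81000664c8000cc08000b610001193200030040008cec0001201000365c000084080090008001400200380008d20803))) 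
(.nd (nat_lit 25) 
(.lf (nat_lit 15196205) (dlOf (nat_lit 4) (nat_lit 0x568980005f020067c6a007ea2600017410067f21003ef8e2003dc6a00fbe348065f19c03f77e000efbe90001a25807dc9b0000a8240098004016000187c0682))) 
(.lf (nat_lit 48750637) (dlOf (nat_lit 1) (nat_lit 0x140019420281))))))))) (.nd (nat_lit 5) 
(.nd (nat_lit 30) (.nd (nat_lit 32) (.nd (nat_lit 26) (.nd (nat_lit 8) (.nd (nat_lit 31) 
(.lf (nat_lit 939778061) (dlOf (nat_lit 15) (nat_lit 0x4048000401a000a18200010058004f408006802c00278040064030005c00b00300020004ec18006802c00274040044030006200b003300200078000002721000340160013802001a00b0008e0100c400c0070002c03cc00801780000006c8400aa00c0069002c0398008016c0000006c04000100580035c08007002c0019a040014000000c402001a00b000e004800000100300008075800200280008170483))) 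
(.lf (nat_lit 3087261709) (dlOf (nat_lit 1) (nat_lit 0x50008001400200060008160483)))) 
(.lf (nat_lit 268692237) (dlOf (nat_lit 1) (nat_lit 0x20008000c002000400080e5b03)))) 
(.nd (nat_lit 6) (.nd (nat_lit 20) 
(.lf (nat_lit 470016013) (dlOf (nat_lit 1) (nat_lit 0x800400240008020482))) 
(.lf (nat_lit 471064589) (dlOf (nat_lit 1) (nat_lit 0x300080050002003e0008260283)))) 
(.lf (nat_lit 472377933) (dlOf (nat_lit 4) (nat_lit 0x5808d0001781002b04680000c0801382340000404000800400020008985282))))) 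
(.nd (nat_lit 6) (.nd (nat_lit 27) 
(.lf (nat_lit 4563656717) (dlOf (nat_lit 2) (nat_lit 0x17680d0000c064049e01f013300a8007004800000140070004010000080b0002))) 
(.lf (nat_lit 4697874445) (dlOf (nat_lit 2) (nat_lit 0x17680d0000c064049e01f013300a8007004800000140070004010000080b0002)))) 
(.nd (nat_lit 26) (.nd (nat_lit 27) 
(.lf (nat_lit 4563656781) (dlOf (nat_lit 4) (nat_lit 0x470024000330203960120001901015f0090000c40801100080130002000c00080b0603))) 
(.lf (nat_lit 4697874509) (dlOf (nat_lit 4) (nat_lit 0x470024000320203960120001881015f0090000c00801100080130002000c00080b0603)))) 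
(.lf (nat_lit 5301854285) (dlOf (nat_lit 2) (nat_lit 0x5005e003a014002f0088000e818015000800a0002002c00080b0603)))))) 
(.nd (nat_lit 6) (.nd (nat_lit 7) (.nd (nat_lit 10) 
(.lf (nat_lit 1342431245) (dlOf (nat_lit 2) (nat_lit 0x21e1cd000d6018020480))) (.nd (nat_lit 11) 
(.lf (nat_lit 5637399565) (dlOf (nat_lit 1) (nat_lit 0x1f800200d800080d2882))) 
(.lf (nat_lit 6241381389) (dlOf (nat_lit 2) (nat_lit 0x270130000280800380080014002000200080d5f83))))) 
(.nd (nat_lit 8) 
(.lf (nat_lit 1409802381) (dlOf (nat_lit 3) (nat_lit 0x1980be002c04b0001b02011402c800000080018008017000200020008090103))) 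
(.lf (nat_lit 1342693773) (dlOf (nat_lit 1) (nat_lit 0x200180c0781))))) (.nd (nat_lit 7) 
(.nd (nat_lit 9) 
(.lf (nat_lit 3557027917) (dlOf (nat_lit 1) (nat_lit 0x28008001000200080008127d83))) 
(.lf (nat_lit 1881401933) (dlOf (nat_lit 2) (nat_lit 0x40e200000018f05280)))) (.nd (nat_lit 8) 
(.nd (nat_lit 9) (.lf (nat_lit 3557030093) (dlOf (nat_lit 1) (nat_lit 0x2001812a881))) 
(.lf (nat_lit 3557028557) (dlOf (nat_lit 1) (nat_lit 0x8008000400200020008128c83)))) 
(.lf (nat_lit 3624136141) (dlOf (nat_lit 2) (nat_lit 0x8000000be040014002000c0008146d02))))))) 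
(.nd (nat_lit 18) (.nd (nat_lit 7) (.nd (nat_lit 26) (.nd (nat_lit 20) (.nd (nat_lit 27) 
(.lf (nat_lit 1342431277) (dlOf (nat_lit 9) (nat_lit 0x868734000aa04025439a0005302000c1d100020e780f98714000a40c088439a02361c5000280200650e68000dc08003074407c438a000340400481c50001981013f0e68000c808093000803d8002003e0008020583))) 
(.lf (nat_lit 1476649005) (dlOf (nat_lit 1) (nat_lit 0x1c004000e00080d0802)))) 
(.lf (nat_lit 1343479853) (dlOf (nat_lit 2) (nat_lit 0x504e8000480800400080020002002a0008260803)))) 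
(.nd (nat_lit 9) 
(.lf (nat_lit 470016045) (dlOf (nat_lit 9) (nat_lit 0x868734000aa04025439a0005302000c1d100020e780f98714000a40c088439a02361c5000280200650e68000dc08003074407c438a000340400481c50001981013f0e68000c808093000803d8002003e0008020583))) 
(.lf (nat_lit 6241380909) (dlOf (nat_lit 1) (nat_lit 0x200280d5181))))) (.nd (nat_lit 6) 
(.lf (nat_lit 1345579437) (dlOf (nat_lit 1) (nat_lit 0x400400020008d74e82))) (.nd (nat_lit 8) 
(.lf (nat_lit 3557028077) (dlOf (nat_lit 1) (nat_lit 0x360028128081))) 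
(.lf (nat_lit 805560813) (dlOf (nat_lit 6) (nat_lit 0x600e000170100030070000b40800a80380003c04003c01c0001902003c00e0000c018127380)))))) 
(.nd (nat_lit 8) (.nd (nat_lit 6) (.nd (nat_lit 20) 
(.lf (nat_lit 1881661485) (dlOf (nat_lit 6) (nat_lit 0x302b00006c0800201400001604000c0ac00060500004026800028180028158000c0a60010050000702680002420002015800080a6000e0500006026800020200010008001400200020008fb0c83))) 
(.lf (nat_lit 1343741997) (dlOf (nat_lit 2) (nat_lit 0x3703f0001dc080020008001400200400008350803)))) 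
(.nd (nat_lit 27) 
(.lf (nat_lit 4563921645) (dlOf (nat_lit 24) (nat_lit 0x12c033000160100410198027807800b402a0060012000150400030190026007c000500801a4068006801f001500a800d80480004a10002803e000240200840340005018801a007c000402a004e0120001005007901a001700c40003a08014c068006801f0000e02008701a001a007c000340801f0068000201f0000c82008301a007600cc00d803e009e01e0000c04005101a0015007c0002e080144068000150200da0340000a0100280198000400800180cc0001404038c066000090201800330000401004801980001c0805f80cc0000a04032c0660000302001a033000010100c8019800000080890008001400200320008125a03))) 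
(.lf (nat_lit 1476913901) (dlOf (nat_lit 1) (nat_lit 0x200282d5a01))))) (.nd (nat_lit 6) 
(.lf (nat_lit 3490179501) (dlOf (nat_lit 1) (nat_lit 0x400200020008004e82))) (.nd (nat_lit 9) 
(.nd (nat_lit 26) (.lf (nat_lit 1342693869) (dlOf (nat_lit 1) (nat_lit 0x1a00180c0d01))) 
(.lf (nat_lit 470278637) (dlOf (nat_lit 1) (nat_lit 0x1a00180c0d01)))) 
(.lf (nat_lit 1344791533) (dlOf (nat_lit 2) (nat_lit 0x7a09c003d0468019bc100100008002800200320008982883))))))))) 
(.nd (nat_lit 20) (.nd (nat_lit 24) (.nd (nat_lit 21) (.nd (nat_lit 7) (.nd (nat_lit 18) 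
(.nd (nat_lit 8) (.nd (nat_lit 26) 
(.lf (nat_lit 2819350541) (dlOf (nat_lit 1) (nat_lit 0x40018250181))) 
(.lf (nat_lit 3557548045) (dlOf (nat_lit 6) (nat_lit 0x10024800801200058042003002000046040016024800b01200068042003a02000045840025024800b01200060042003c0200004484001a024800c0120004c042001c020000440400020248002180802580080144002000e0008260183)))) 
(.nd (nat_lit 5) 
(.lf (nat_lit 537656141) (dlOf (nat_lit 2) (nat_lit 0x903b0015480800480080024002000e00080fbc83))) 
(.lf (nat_lit 1410070829) (dlOf (nat_lit 1) (nat_lit 0x4004000200080fab82))))) (.nd (nat_lit 5) 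
(.nd (nat_lit 25) (.lf (nat_lit 13623309) (dlOf (nat_lit 1) (nat_lit 0x20028730481))) 
(.lf (nat_lit 47177741) (dlOf (nat_lit 1) (nat_lit 0x800293b0001)))) 
(.lf (nat_lit 13623341) (dlOf (nat_lit 1) (nat_lit 0x22c00200900008730b02))))) (.nd (nat_lit 8) 
(.nd (nat_lit 12) (.lf (nat_lit 537652365) (dlOf (nat_lit 1) (nat_lit 0xc002001000080f6182))) 
(.lf (nat_lit 537656461) (dlOf (nat_lit 1) (nat_lit 0x4004000200080fc202)))) (.nd (nat_lit 6) 
(.nd (nat_lit 26) 
(.lf (nat_lit 537656205) (dlOf (nat_lit 1) (nat_lit 0x80080004002000200080fbc83))) 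
(.lf (nat_lit 4362861453) (dlOf (nat_lit 1) (nat_lit 0x4002000e000811bc82)))) 
(.lf (nat_lit 34335181) (dlOf (nat_lit 1) (nat_lit 0x140018fb4e81)))))) (.nd (nat_lit 31) 
(.nd (nat_lit 6) (.nd (nat_lit 5) 
(.lf (nat_lit 36693005) (dlOf (nat_lit 1) (nat_lit 0x400200020009072882))) (.nd (nat_lit 7) 
(.lf (nat_lit 1345055277) (dlOf (nat_lit 1) (nat_lit 0x4002001c00089e5182))) 
(.lf (nat_lit 49277357) (dlOf (nat_lit 1) (nat_lit 0x20009464e81))))) (.nd (nat_lit 9) 
(.lf (nat_lit 2875469) (dlOf (nat_lit 8) (nat_lit 0x70000000170100370f8801b02bc0004e0800980000002502005e1f1002d0ba001e82bc00e8146000220800260af00010518000841001f8000000400400fc3de008216a00360000000001801180080154002019000081c0d03))) 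
(.nd (nat_lit 18) (.lf (nat_lit 44821069) (dlOf (nat_lit 1) (nat_lit 0x220009325281))) 
(.lf (nat_lit 36694605) (dlOf (nat_lit 1) (nat_lit 0x20019075281)))))) (.nd (nat_lit 26) 
(.nd (nat_lit 5) (.nd (nat_lit 6) 
(.lf (nat_lit 3492536333) (dlOf (nat_lit 12) (nat_lit 0x2e07b404e42b0004e1570003e83003a11a002587b4049c2b0003415700150a10001f02800c87b403c42b00040151001e0a10001ec2002387b403c82b00007a0401181ed01520ac0001055c000ea0c00683da00841580003a02009a0f680b00560000e60801543da00a41580003902001f0f68000c00800407b40005a04004c3da005015800140ab80000018007800800dc002001600080d0483))) 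
(.lf (nat_lit 3492536397) (dlOf (nat_lit 3) (nat_lit 0x17e1eb0002b0100c60f58001500800a80080a5c002004200080d0d03)))) 
(.lf (nat_lit 3492536365) (dlOf (nat_lit 1) (nat_lit 0x200180d0b01)))) (.nd (nat_lit 5) 
(.nd (nat_lit 6) 
(.lf (nat_lit 2754338829) (dlOf (nat_lit 12) (nat_lit 0x2e07fc04e42ba004e15c0003e83003a126002587fc049c2ba003415c00150a10001f02800c87fc03c42ba0040156001e0a10001ec2002387fc03c82ba0007a0401181ff01520ae80010570000ea0c00683fe008415d0003a02009a0ff80b00574000e60801543fe00a415d0003902001f0ff8000ac0800407fc0005004004c3fe005015d00140ae00000018007800800dc002001600080d0483))) 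
(.lf (nat_lit 2754338893) (dlOf (nat_lit 3) (nat_lit 0x17e1fd000278100c60fe8001340800a80080a5c002004200080d0d03)))) 
(.lf (nat_lit 2754338861) (dlOf (nat_lit 1) (nat_lit 0x200180d0b01))))))) (.nd (nat_lit 5) 
(.nd (nat_lit 6) (.nd (nat_lit 8) (.nd (nat_lit 9) (.nd (nat_lit 23) 
(.lf (nat_lit 17817613) (dlOf (nat_lit 1) (nat_lit 0x198008002c00200b600088f0783))) 
(.lf (nat_lit 59760653) (dlOf (nat_lit 1) (nat_lit 0x8008000400200020009830183)))) 
(.lf (nat_lit 19656205) (dlOf (nat_lit 1) (nat_lit 0x2200289d7081)))) (.nd (nat_lit 7) 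
(.lf (nat_lit 51110157) (dlOf (nat_lit 1) (nat_lit 0x40009507401))) 
(.lf (nat_lit 19922317) (dlOf (nat_lit 1) (nat_lit 0x4004000200189dc902))))) (.nd (nat_lit 7) 
(.nd (nat_lit 8) (.nd (nat_lit 21) 
(.lf (nat_lit 59498573) (dlOf (nat_lit 2) (nat_lit 0x2866400142c900010fc40006c0c000c00200020009800682))) 
(.lf (nat_lit 53207117) (dlOf (nat_lit 1) (nat_lit 0x20029570001)))) 
(.lf (nat_lit 17555789) (dlOf (nat_lit 2) (nat_lit 0x5eec4003a8040008002000600088e0782)))) 
(.nd (nat_lit 9) (.lf (nat_lit 19656909) (dlOf (nat_lit 1) (nat_lit 0x4002000200089d8002))) 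
(.lf (nat_lit 19657421) (dlOf (nat_lit 1) (nat_lit 0x200289d8c81)))))) (.nd (nat_lit 7) 
(.nd (nat_lit 6) (.nd (nat_lit 9) (.nd (nat_lit 18) 
(.lf (nat_lit 59498541) (dlOf (nat_lit 1) (nat_lit 0x48008000400200020009800283))) 
(.lf (nat_lit 17817645) (dlOf (nat_lit 8) (nat_lit 0x4b8d000757130023af10001c81800a5c4c000de04006ee260006e0203477140000b810072b8a000044080025c500000a04007f8d202f37140013b898000001801180080004002001000088f0e03)))) 
(.lf (nat_lit 19919405) (dlOf (nat_lit 1) (nat_lit 0x1000289d8981)))) (.nd (nat_lit 9) 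
(.lf (nat_lit 19919213) (dlOf (nat_lit 1) (nat_lit 0x800289d8381))) 
(.lf (nat_lit 19917677) (dlOf (nat_lit 1) (nat_lit 0x200289d5c01))))) (.nd (nat_lit 6) 
(.nd (nat_lit 8) (.lf (nat_lit 19656365) (dlOf (nat_lit 1) (nat_lit 0x10002000a00089d7282))) 
(.nd (nat_lit 9) (.lf (nat_lit 19918253) (dlOf (nat_lit 1) (nat_lit 0x2600289d6d01))) 
(.lf (nat_lit 19655597) (dlOf (nat_lit 1) (nat_lit 0x6000089d5d01))))) (.nd (nat_lit 9) 
(.lf (nat_lit 19655917) (dlOf (nat_lit 1) (nat_lit 0x400089d6501))) 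
(.lf (nat_lit 19915501) (dlOf (nat_lit 1) (nat_lit 0x800803f0002010600089d2103)))))))) 
(.nd (nat_lit 5) (.nd (nat_lit 6) (.nd (nat_lit 21) (.nd (nat_lit 7) (.nd (nat_lit 23) 
(.nd (nat_lit 27) (.lf (nat_lit 68935693) (dlOf (nat_lit 1) (nat_lit 0xa400200660008840002))) 
(.lf (nat_lit 471588877) (dlOf (nat_lit 1) (nat_lit 0x20018340281)))) 
(.lf (nat_lit 10215437) (dlOf (nat_lit 2) (nat_lit 0x38f94001b0040004004000200185c0482)))) 
(.nd (nat_lit 26) 
(.lf (nat_lit 3491487885) (dlOf (nat_lit 2) (nat_lit 0x440460000d8080028008000400200040008090103))) 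
(.lf (nat_lit 2753290381) (dlOf (nat_lit 2) (nat_lit 0x440448000d8080028008000400200040008090103))))) 
(.nd (nat_lit 8) (.nd (nat_lit 10) (.nd (nat_lit 18) 
(.lf (nat_lit 45867021) (dlOf (nat_lit 2) (nat_lit 0x8b5d0033b4080020008000400200140009360003))) 
(.lf (nat_lit 29351949) (dlOf (nat_lit 1) (nat_lit 0x8008000400200020008df0103)))) 
(.lf (nat_lit 54520845) (dlOf (nat_lit 2) (nat_lit 0x1a40800154080008008001000200060009655f83)))) 
(.nd (nat_lit 7) (.lf (nat_lit 8381197) (dlOf (nat_lit 1) (nat_lit 0x40018512101))) 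
(.lf (nat_lit 20706189) (dlOf (nat_lit 1) (nat_lit 0x1180080084002003200089d9003)))))) 
(.nd (nat_lit 22) (.nd (nat_lit 18) (.nd (nat_lit 23) 
(.lf (nat_lit 1346101325) (dlOf (nat_lit 2) (nat_lit 0x18c2c6000e14d0001046000301f00006c10002800200020008e40682))) 
(.lf (nat_lit 45867085) (dlOf (nat_lit 2) (nat_lit 0x1db9f0000480800900080020002003c0009360683)))) 
(.nd (nat_lit 23) (.lf (nat_lit 20963405) (dlOf (nat_lit 1) (nat_lit 0x4004000200189f0602))) 
(.lf (nat_lit 12574797) (dlOf (nat_lit 1) (nat_lit 0x3300080004002008e00086d0f03))))) 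
(.nd (nat_lit 23) (.nd (nat_lit 9) 
(.lf (nat_lit 25157709) (dlOf (nat_lit 1) (nat_lit 0x118008000800202660008be1503))) 
(.lf (nat_lit 41937485) (dlOf (nat_lit 1) (nat_lit 0x20009245281)))) (.nd (nat_lit 18) 
(.lf (nat_lit 33284173) (dlOf (nat_lit 1) (nat_lit 0x20028f50001))) 
(.lf (nat_lit 16769101) (dlOf (nat_lit 2) (nat_lit 0x10e43f000448188e0180))))))) (.nd (nat_lit 18) 
(.nd (nat_lit 6) (.nd (nat_lit 22) (.nd (nat_lit 21) 
(.lf (nat_lit 26992685) (dlOf (nat_lit 2) (nat_lit 0x3ad68001d3d4000a4000005406001a0028ca0681))) 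
(.nd (nat_lit 23) 
(.lf (nat_lit 1346101293) (dlOf (nat_lit 2) (nat_lit 0x2642ce000190200020028e40281))) 
(.lf (nat_lit 45867053) (dlOf (nat_lit 4) (nat_lit 0x1b5c800090080015ae40004604001ad700001902000c0019360281))))) 
(.nd (nat_lit 8) (.lf (nat_lit 22798381) (dlOf (nat_lit 1) (nat_lit 0x400400040008b30682))) 
(.nd (nat_lit 12) 
(.lf (nat_lit 8120621) (dlOf (nat_lit 2) (nat_lit 0xe47000038c080008008000400200020008514b83))) 
(.lf (nat_lit 8124717) (dlOf (nat_lit 1) (nat_lit 0xb8000851ab81)))))) (.nd (nat_lit 7) 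
(.nd (nat_lit 9) 
(.lf (nat_lit 14410093) (dlOf (nat_lit 1) (nat_lit 0x230008004000200180008750a03))) 
(.lf (nat_lit 8124269) (dlOf (nat_lit 1) (nat_lit 0x2001851a301)))) (.nd (nat_lit 10) 
(.lf (nat_lit 8118765) (dlOf (nat_lit 1) (nat_lit 0x6f80080094002020e0008511383))) 
(.lf (nat_lit 8125933) (dlOf (nat_lit 1) (nat_lit 0x2001851cd01)))))) (.nd (nat_lit 21) 
(.nd (nat_lit 7) (.nd (nat_lit 8) 
(.lf (nat_lit 23060525) (dlOf (nat_lit 2) (nat_lit 0x1c0000005602000a0018b50681))) 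
(.lf (nat_lit 44032301) (dlOf (nat_lit 1) (nat_lit 0x1200192b5a01)))) (.nd (nat_lit 22) 
(.lf (nat_lit 60810413) (dlOf (nat_lit 1) (nat_lit 0x2c004000200198c2c02))) 
(.lf (nat_lit 48227501) (dlOf (nat_lit 1) (nat_lit 0x800400040009402c02))))) (.nd (nat_lit 22) 
(.nd (nat_lit 7) (.lf (nat_lit 12574829) (dlOf (nat_lit 1) (nat_lit 0x200186d1501))) 
(.lf (nat_lit 1346363629) (dlOf (nat_lit 1) (nat_lit 0xa60008f60a81)))) (.nd (nat_lit 6) 
(.lf (nat_lit 25157677) (dlOf (nat_lit 1) (nat_lit 0xc0008be0d81))) 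
(.lf (nat_lit 8385133) (dlOf (nat_lit 1) (nat_lit 0xc002000c0008518982))))))))))) (.nd (nat_lit 5) 
(.nd (nat_lit 16) (.nd (nat_lit 19) (.nd (nat_lit 6) (.nd (nat_lit 7) (.nd (nat_lit 18) 
(.nd (nat_lit 26) (.nd (nat_lit 28) (.nd (nat_lit 8) 
(.lf (nat_lit 44228637) (dlOf (nat_lit 3) (nat_lit 0xb497000aa810002a4b8004f4080070008000c002001400092e0083))) 
(.lf (nat_lit 2684548381) (dlOf (nat_lit 1) (nat_lit 0x20004000400180a9702)))) (.nd (nat_lit 20) 
(.nd (nat_lit 27) 
(.lf (nat_lit 2952978461) (dlOf (nat_lit 1) (nat_lit 0xb0008001c00200120008070683))) 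
(.lf (nat_lit 5234679837) (dlOf (nat_lit 1) (nat_lit 0xe00008080081)))) 
(.lf (nat_lit 3490897949) (dlOf (nat_lit 5) (nat_lit 0x241c400140d7000ae82001206b80057008025038800781c000ee0d7000b0628005642003a035c002ae04000c00400080018030902))))) 
(.nd (nat_lit 10) (.nd (nat_lit 20) (.nd (nat_lit 27) 
(.lf (nat_lit 604168221) (dlOf (nat_lit 1) (nat_lit 0x98008003400200160008070683))) 
(.lf (nat_lit 1006821405) (dlOf (nat_lit 1) (nat_lit 0x2200180c0001)))) 
(.lf (nat_lit 2752700445) (dlOf (nat_lit 5) (nat_lit 0x241a800140c9000ac02001206480055c08025035000781a400ee0c9000b05b8005502003a0324002a404000c00400080018030902)))) 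
(.lf (nat_lit 1141042205) (dlOf (nat_lit 1) (nat_lit 0x28008000800200040008096003))))) 
(.nd (nat_lit 20) (.nd (nat_lit 21) (.nd (nat_lit 22) 
(.lf (nat_lit 4362526749) (dlOf (nat_lit 2) (nat_lit 0x40000196d02000c0008090001))) 
(.lf (nat_lit 13033501) (dlOf (nat_lit 3) (nat_lit 0xf5220000a810011a910000500800a80080038002001200086f0583)))) 
(.lf (nat_lit 48685085) (dlOf (nat_lit 2) (nat_lit 0x7f53d0000f8080098008002800200040009420103)))) 
(.nd (nat_lit 22) (.nd (nat_lit 26) 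
(.lf (nat_lit 3491160093) (dlOf (nat_lit 1) (nat_lit 0x18008000400200020008070603))) 
(.lf (nat_lit 2752962589) (dlOf (nat_lit 1) (nat_lit 0x18008000400200020008070603)))) 
(.nd (nat_lit 21) 
(.lf (nat_lit 56025117) (dlOf (nat_lit 2) (nat_lit 0x135a5000fa9e801a935c000a0f800025049710100))) 
(.lf (nat_lit 24567837) (dlOf (nat_lit 1) (nat_lit 0x1000800a400200160008ba0a03))))))) 
(.nd (nat_lit 26) (.nd (nat_lit 23) (.nd (nat_lit 8) (.nd (nat_lit 21) 
(.lf (nat_lit 402842781) (dlOf (nat_lit 1) (nat_lit 0x400400020008092b82))) 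
(.lf (nat_lit 35841181) (dlOf (nat_lit 1) (nat_lit 0x18002000a0009012b82)))) 
(.lf (nat_lit 190877) (dlOf (nat_lit 1) (nat_lit 0xc00400020008004e82)))) (.nd (nat_lit 20) 
(.nd (nat_lit 9) (.lf (nat_lit 8578205) (dlOf (nat_lit 1) (nat_lit 0x3e0018512b81))) 
(.lf (nat_lit 8840861) (dlOf (nat_lit 1) (nat_lit 0x20018513a81)))) (.nd (nat_lit 10) 
(.lf (nat_lit 9625757) (dlOf (nat_lit 1) (nat_lit 0x20018571281))) 
(.lf (nat_lit 49472669) (dlOf (nat_lit 1) (nat_lit 0xa0008004800200240009462b83)))))) 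
(.nd (nat_lit 8) (.nd (nat_lit 12) (.nd (nat_lit 21) 
(.lf (nat_lit 872604829) (dlOf (nat_lit 1) (nat_lit 0x60008000400200020008092b83))) 
(.lf (nat_lit 4095927453) (dlOf (nat_lit 1) (nat_lit 0x20002000200080e2b82)))) 
(.lf (nat_lit 2617439389) (dlOf (nat_lit 1) (nat_lit 0x4002000200080a9502)))) (.nd (nat_lit 9) 
(.nd (nat_lit 10) (.lf (nat_lit 3959873949) (dlOf (nat_lit 2) (nat_lit 0xdc03e0065b018170780))) 
(.lf (nat_lit 3556963741) (dlOf (nat_lit 1) (nat_lit 0x8008004400200100008129903)))) 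
(.lf (nat_lit 3959613341) (dlOf (nat_lit 2) (nat_lit 0x500000002204001000200180008114282))))))) 
(.nd (nat_lit 27) (.nd (nat_lit 7) (.nd (nat_lit 8) (.nd (nat_lit 9) (.nd (nat_lit 18) 
(.lf (nat_lit 5704441949) (dlOf (nat_lit 1) (nat_lit 0x300018080701))) 
(.lf (nat_lit 35053661) (dlOf (nat_lit 2) (nat_lit 0x2b9300013018fd0880)))) 
(.lf (nat_lit 62319197) (dlOf (nat_lit 1) (nat_lit 0x3c004001000099a5302)))) (.nd (nat_lit 11) 
(.nd (nat_lit 18) 
(.lf (nat_lit 4362264925) (dlOf (nat_lit 5) (nat_lit 0x2980b40005c04011405a0002d02001804700011010020016800060080038008000c00200360008014e83))) 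
(.lf (nat_lit 4095140189) (dlOf (nat_lit 1) (nat_lit 0x8008000400200020008067103)))) 
(.lf (nat_lit 3489851741) (dlOf (nat_lit 1) (nat_lit 0x20018004e81))))) (.nd (nat_lit 8) 
(.nd (nat_lit 10) (.nd (nat_lit 20) 
(.lf (nat_lit 1678172381) (dlOf (nat_lit 2) (nat_lit 0xa02d0004a8181a0480))) 
(.lf (nat_lit 11985117) (dlOf (nat_lit 1) (nat_lit 0x200186c0481)))) 
(.lf (nat_lit 5167572189) (dlOf (nat_lit 1) (nat_lit 0x200280d2e01)))) (.nd (nat_lit 9) 
(.lf (nat_lit 57076189) (dlOf (nat_lit 1) (nat_lit 0x400400020009794e82))) 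
(.lf (nat_lit 40297437) (dlOf (nat_lit 1) (nat_lit 0x800291f2881)))))) (.nd (nat_lit 8) 
(.nd (nat_lit 32) (.nd (nat_lit 7) (.nd (nat_lit 10) 
(.lf (nat_lit 1008918621) (dlOf (nat_lit 2) (nat_lit 0x1a83880003804001000400080008fe0882))) 
(.lf (nat_lit 2818767965) (dlOf (nat_lit 4) (nat_lit 0x100d8000a204000806c000500200060360002281812c000)))) 
(.lf (nat_lit 2818765533) (dlOf (nat_lit 1) (nat_lit 0x400200020008128c82)))) (.nd (nat_lit 28) 
(.nd (nat_lit 29) 
(.lf (nat_lit 5503115357) (dlOf (nat_lit 1) (nat_lit 0x8008000400200020008090083))) 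
(.lf (nat_lit 4966244445) (dlOf (nat_lit 1) (nat_lit 0x20028090081)))) 
(.lf (nat_lit 6308421725) (dlOf (nat_lit 1) (nat_lit 0x300018080701))))) (.nd (nat_lit 26) 
(.nd (nat_lit 9) 
(.lf (nat_lit 134406493) (dlOf (nat_lit 1) (nat_lit 0x1880080048002001a0008014e83))) 
(.lf (nat_lit 671278941) (dlOf (nat_lit 3) (nat_lit 0x1500a0000500800100500000a04002800400180008143f82)))) 
(.nd (nat_lit 28) (.lf (nat_lit 201515357) (dlOf (nat_lit 1) (nat_lit 0x20018014e81))) 
(.lf (nat_lit 4228047197) (dlOf (nat_lit 3) (nat_lit 0x600000002d0200040540019025801100fc0001a0c003000400220008014e82)))))))) 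
(.nd (nat_lit 6) (.nd (nat_lit 21) (.nd (nat_lit 27) (.nd (nat_lit 18) (.nd (nat_lit 22) 
(.lf (nat_lit 4362788893) (dlOf (nat_lit 2) (nat_lit 0x17201980068c0801400080008002001a0008100483))) 
(.lf (nat_lit 21684253) (dlOf (nat_lit 1) (nat_lit 0x400400020008a60a82)))) (.nd (nat_lit 7) 
(.nd (nat_lit 26) 
(.lf (nat_lit 537845789) (dlOf (nat_lit 3) (nat_lit 0x7101100025008009802000122040048004000c0008230482))) 
(.lf (nat_lit 1410261021) (dlOf (nat_lit 3) (nat_lit 0x7101100025008009802000122040048004000c0008230482)))) 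
(.lf (nat_lit 69133469) (dlOf (nat_lit 1) (nat_lit 0x500080084002002400088a2b83))))) 
(.nd (nat_lit 26) (.nd (nat_lit 28) 
(.lf (nat_lit 134930461) (dlOf (nat_lit 3) (nat_lit 0xae0278008980800e8000003e40400ec002006e00080e0482))) 
(.lf (nat_lit 5772075037) (dlOf (nat_lit 1) (nat_lit 0x220008013800200660008060a83)))) 
(.nd (nat_lit 28) 
(.lf (nat_lit 202039325) (dlOf (nat_lit 3) (nat_lit 0xae0270008980800e8000003e60400ec002006e00080e0482))) 
(.nd (nat_lit 31) 
(.lf (nat_lit 6376054813) (dlOf (nat_lit 1) (nat_lit 0x220008013800200660008060a83))) 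
(.lf (nat_lit 4228571165) (dlOf (nat_lit 2) (nat_lit 0x1720190006cc0801400080008002001a0008100483))))))) 
(.nd (nat_lit 20) (.nd (nat_lit 23) (.nd (nat_lit 7) (.nd (nat_lit 26) 
(.lf (nat_lit 1344987165) (dlOf (nat_lit 14) (nat_lit 0x482be00055020004160001f03e0001181000c0360000411a000207d000403e0000d82000f01f00006a0400540f80003402002607c0001981001303e0000840800981f0000400400400f80001e02002607c0000d81001303e00004c0800505800034118001c07d002c03e0000442001b046800000040074004002000089a0102))) 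
(.lf (nat_lit 472571933) (dlOf (nat_lit 1) (nat_lit 0xc004000200089c0102)))) 
(.lf (nat_lit 36365469) (dlOf (nat_lit 1) (nat_lit 0x40019072b81)))) (.nd (nat_lit 22) 
(.lf (nat_lit 11198493) (dlOf (nat_lit 2) (nat_lit 0x2072c0044c04002800200060008670482))) 
(.lf (nat_lit 15392797) (dlOf (nat_lit 1) (nat_lit 0x200187e0581))))) (.nd (nat_lit 18) 
(.nd (nat_lit 23) (.nd (nat_lit 7) 
(.lf (nat_lit 473621021) (dlOf (nat_lit 1) (nat_lit 0x7c00400420008f68702))) 
(.lf (nat_lit 37415325) (dlOf (nat_lit 1) (nat_lit 0x1200090d4e81)))) (.nd (nat_lit 22) 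
(.lf (nat_lit 45801501) (dlOf (nat_lit 2) (nat_lit 0x5c4d30001f819360100))) 
(.lf (nat_lit 16441373) (dlOf (nat_lit 1) (nat_lit 0x4004000200188a0482))))) (.nd (nat_lit 8) 
(.nd (nat_lit 9) 
(.lf (nat_lit 473882653) (dlOf (nat_lit 4) (nat_lit 0x2a0a1803f833401640ea00a8073000188401080a18096033405200ea02460730001804005f0a1803884ec018c27200ce0cd008d03a803e01cc0005e18000c00200020008fc0102))) 
(.lf (nat_lit 2755584541) (dlOf (nat_lit 2) (nat_lit 0x1c07e0007302000800181b0d81)))) 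
(.nd (nat_lit 7) 
(.lf (nat_lit 8320285) (dlOf (nat_lit 2) (nat_lit 0x8c258001e00800280080008002000a0008519703))) 
(.lf (nat_lit 8320925) (dlOf (nat_lit 1) (nat_lit 0x2002851a301)))))))) (.nd (nat_lit 18) 
(.nd (nat_lit 8) (.nd (nat_lit 20) (.nd (nat_lit 25) 
(.lf (nat_lit 472571997) (dlOf (nat_lit 4) (nat_lit 0x40bc0000581005d05e00001c0800882f000000040154004002a00089c0882))) 
(.lf (nat_lit 36364381) (dlOf (nat_lit 1) (nat_lit 0x400200180009070082)))) (.nd (nat_lit 21) 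
(.lf (nat_lit 6377103453) (dlOf (nat_lit 2) (nat_lit 0x80900044f8080008008000c002000200080a1983))) 
(.lf (nat_lit 45801565) (dlOf (nat_lit 2) (nat_lit 0x2e07380003804000800200020009360882))))) 
(.nd (nat_lit 7) (.nd (nat_lit 9) 
(.lf (nat_lit 36366685) (dlOf (nat_lit 1) (nat_lit 0x400400020019074e82))) 
(.lf (nat_lit 8058717) (dlOf (nat_lit 1) (nat_lit 0x800800080020002000851a303)))) (.nd (nat_lit 9) 
(.lf (nat_lit 36366813) (dlOf (nat_lit 1) (nat_lit 0x60008000400200020009074e83))) 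
(.lf (nat_lit 36365277) (dlOf (nat_lit 1) (nat_lit 0x20019072881)))))) (.nd (nat_lit 20) 
(.nd (nat_lit 21) (.nd (nat_lit 23) 
(.lf (nat_lit 68083933) (dlOf (nat_lit 1) (nat_lit 0x4002002600083e0582))) 
(.lf (nat_lit 26140893) (dlOf (nat_lit 1) (nat_lit 0x40018c10581)))) (.nd (nat_lit 7) 
(.lf (nat_lit 45017693) (dlOf (nat_lit 1) (nat_lit 0x400200020009325302))) 
(.lf (nat_lit 19854557) (dlOf (nat_lit 1) (nat_lit 0x4004000200089d9502))))) (.nd (nat_lit 8) 
(.nd (nat_lit 10) 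
(.lf (nat_lit 473882717) (dlOf (nat_lit 4) (nat_lit 0x1c4340016e163011f0a60065052c029c284010c13800b2092003f03b0047c1ae016c0d600b7061001c82dc001c13e01ec07b004d039003a00f801fc05200e4028000100000002c98064053002fc1ae0000904007216300c70a6001c852800b424800720ea00c006b801c835400d419400720c2002903d8000005006f80082c2c00206a20008fc0883))) 
(.lf (nat_lit 8322141) (dlOf (nat_lit 1) (nat_lit 0x800800080020004000851c003)))) (.nd (nat_lit 26) 
(.lf (nat_lit 1344201053) (dlOf (nat_lit 1) (nat_lit 0x100018490681))) 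
(.lf (nat_lit 471785821) (dlOf (nat_lit 1) (nat_lit 0x100018490681))))))))) (.nd (nat_lit 18) 
(.nd (nat_lit 6) (.nd (nat_lit 27) (.nd (nat_lit 19) (.nd (nat_lit 7) (.nd (nat_lit 8) 
(.lf (nat_lit 1343479837) (dlOf (nat_lit 1) (nat_lit 0x248008016800200e40008260683))) 
(.lf (nat_lit 9691421) (dlOf (nat_lit 1) (nat_lit 0x1c60008574001)))) (.nd (nat_lit 20) 
(.lf (nat_lit 872670365) (dlOf (nat_lit 1) (nat_lit 0x400200020008092b82))) 
(.lf (nat_lit 49538205) (dlOf (nat_lit 2) (nat_lit 0x9a9ec0032e04001c00200040009462b82))))) 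
(.nd (nat_lit 23) (.nd (nat_lit 7) (.nd (nat_lit 28) 
(.lf (nat_lit 3923997) (dlOf (nat_lit 1) (nat_lit 0x60018250b01))) 
(.lf (nat_lit 1346101277) (dlOf (nat_lit 2) (nat_lit 0x7c2ce000000200100018e40101)))) 
(.lf (nat_lit 537652381) (dlOf (nat_lit 1) (nat_lit 0x4004000200080f6282)))) (.nd (nat_lit 22) 
(.lf (nat_lit 45867037) (dlOf (nat_lit 10) (nat_lit 0x26f784018f87000fd6f1006faef0038c21001d9f1e00dcf1f0002507000fe1c0093dbc404aebbe00b508400ee7c780010c2802f577c00084040302bbe000410201135460001f810040aa30000f808024d7740007a0400b2bbe00875480001d82006db5c0000000804a80080108002004e0009360103))) 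
(.lf (nat_lit 16506909) (dlOf (nat_lit 1) (nat_lit 0x280080014002001200088b0683)))))) 
(.nd (nat_lit 26) (.nd (nat_lit 20) (.nd (nat_lit 28) 
(.lf (nat_lit 134471709) (dlOf (nat_lit 2) (nat_lit 0x2603f000c1818030900))) 
(.lf (nat_lit 939778077) (dlOf (nat_lit 9) (nat_lit 0x170026001c01100568084019403800234080168026006500e0008c41005f0098030c044014e021002900e804e8070004601402ac04c015002200b0010803600700045e1002d004c015c022001170200640130008b408014809800b4044005401d000f40300010130007980805e8008002000200220008170903)))) 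
(.nd (nat_lit 7) 
(.lf (nat_lit 5773189149) (dlOf (nat_lit 2) (nat_lit 0x242780003b02001600180b0101))) 
(.lf (nat_lit 5772666013) (dlOf (nat_lit 1) (nat_lit 0x40018092b81))))) (.nd (nat_lit 28) 
(.nd (nat_lit 29) (.lf (nat_lit 201580573) (dlOf (nat_lit 2) (nat_lit 0x2603f000c1818030900))) 
(.lf (nat_lit 1812193309) (dlOf (nat_lit 9) (nat_lit 0x170026001c0110056808401940380024c080168026006500e0009241005f0098030c044014e021002900e804e8070004901402ac04c015002200b0010803600700048e1002d004c015c0220012302006401300091408014809800b4044005401d000fd0300010130007e00805e8008002000200220008170903)))) 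
(.nd (nat_lit 19) 
(.lf (nat_lit 3691241501) (dlOf (nat_lit 1) (nat_lit 0x8008002c002000c00080d0683))) 
(.lf (nat_lit 6377168925) (dlOf (nat_lit 2) (nat_lit 0x2425e0003b02001600180b0101))))))) 
(.nd (nat_lit 7) (.nd (nat_lit 20) (.nd (nat_lit 8) (.nd (nat_lit 9) 
(.lf (nat_lit 2818833501) (dlOf (nat_lit 9) (nat_lit 0x30088000b80400200d400160690005030800201080014036000540a001206a0007034800381840018084000e01b0002985000302100070088002003600051060010022000280100010110001280800401a800140d200140220002283000e0110000f40801a00080124002000a000812c003))) 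
(.lf (nat_lit 1881401949) (dlOf (nat_lit 11) (nat_lit 0xd838800500f60002804001c0e30001301001f07180007c08020838c0003c0400ac1c60001d0200960e3002003d80006810005838c002c0f60001904000a0e30008071000681ec000060c00241c6000010200220e300010710008036000bc0f6000000803be0028f05301)))) 
(.nd (nat_lit 10) (.nd (nat_lit 26) 
(.lf (nat_lit 805560669) (dlOf (nat_lit 1) (nat_lit 0x20018124e81))) 
(.lf (nat_lit 1677975901) (dlOf (nat_lit 4) (nat_lit 0x680280005c0400300140002d02001400a0000c018124e80)))) 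
(.lf (nat_lit 3489918301) (dlOf (nat_lit 1) (nat_lit 0x400200020008006a82))))) (.nd (nat_lit 8) 
(.nd (nat_lit 26) 
(.lf (nat_lit 1346101341) (dlOf (nat_lit 4) (nat_lit 0x62169002f0b40000741005605a0000380400182d2000180200460028e40881))) 
(.lf (nat_lit 473686109) (dlOf (nat_lit 1) (nat_lit 0x20018fa0081)))) (.nd (nat_lit 9) 
(.nd (nat_lit 19) (.lf (nat_lit 9691485) (dlOf (nat_lit 1) (nat_lit 0x60008002c00200340008574e83))) 
(.lf (nat_lit 14410077) (dlOf (nat_lit 1) (nat_lit 0x70008000800200080008750903)))) 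
(.lf (nat_lit 8124253) (dlOf (nat_lit 1) (nat_lit 0x40040002001851a302)))))) (.nd (nat_lit 10) 
(.nd (nat_lit 26) (.nd (nat_lit 8) 
(.lf (nat_lit 9691357) (dlOf (nat_lit 1) (nat_lit 0x60018571a01))) 
(.lf (nat_lit 36430813) (dlOf (nat_lit 1) (nat_lit 0x240019072881)))) (.nd (nat_lit 11) 
(.lf (nat_lit 5704508381) (dlOf (nat_lit 1) (nat_lit 0x800180d2881))) 
(.lf (nat_lit 738454493) (dlOf (nat_lit 1) (nat_lit 0xc0028095e01))))) (.nd (nat_lit 8) 
(.nd (nat_lit 12) (.lf (nat_lit 3624135901) (dlOf (nat_lit 1) (nat_lit 0x40008146481))) 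
(.lf (nat_lit 537656541) (dlOf (nat_lit 1) (nat_lit 0xe00080fc481)))) (.nd (nat_lit 11) 
(.lf (nat_lit 8648157) (dlOf (nat_lit 2) (nat_lit 0x52a28000fc080010008000800200020008519b03))) 
(.lf (nat_lit 537652701) (dlOf (nat_lit 1) (nat_lit 0xc00180f6d81)))))))) (.nd (nat_lit 26) 
(.nd (nat_lit 19) (.nd (nat_lit 6) (.nd (nat_lit 22) (.nd (nat_lit 25) (.nd (nat_lit 27) 
(.nd (nat_lit 31) (.lf (nat_lit 1879564317) (dlOf (nat_lit 1) (nat_lit 0x400081e0581))) 
(.lf (nat_lit 4027047965) (dlOf (nat_lit 1) (nat_lit 0x80080004002000200081b0003)))) 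
(.lf (nat_lit 134733853) (dlOf (nat_lit 1) (nat_lit 0x200280a0901)))) (.nd (nat_lit 9) 
(.lf (nat_lit 36167709) (dlOf (nat_lit 1) (nat_lit 0x70008004800200020009030103))) 
(.lf (nat_lit 50848285) (dlOf (nat_lit 1) (nat_lit 0x800294d8701))))) (.nd (nat_lit 21) 
(.nd (nat_lit 23) (.lf (nat_lit 21487645) (dlOf (nat_lit 1) (nat_lit 0x400200040008a40082))) 
(.lf (nat_lit 13099037) (dlOf (nat_lit 4) (nat_lit 0x298d80018c360001604001e6360000a01000531b0003186c0000a080004002000200086f0582)))) 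
(.lf (nat_lit 48750621) (dlOf (nat_lit 3) (nat_lit 0x1b33a40007e0400059d20003d0200020029420101))))) 
(.nd (nat_lit 8) (.nd (nat_lit 27) 
(.lf (nat_lit 805822557) (dlOf (nat_lit 8) (nat_lit 0x100980009c0801e004c00048040010026000230200760130001101000602b00008154010c026000210600040560001001003c009800074080068008006c002003400081b1203))) 
(.lf (nat_lit 3892830301) (dlOf (nat_lit 1) (nat_lit 0x800200240008280402)))) (.nd (nat_lit 7) 
(.lf (nat_lit 57140573) (dlOf (nat_lit 1) (nat_lit 0x1c002000c0009793402))) 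
(.lf (nat_lit 1342693853) (dlOf (nat_lit 1) (nat_lit 0x200180c0b81)))))) (.nd (nat_lit 12) 
(.nd (nat_lit 21) (.nd (nat_lit 20) 
(.lf (nat_lit 38789149) (dlOf (nat_lit 1) (nat_lit 0x400200020009150102))) (.nd (nat_lit 22) 
(.lf (nat_lit 52420637) (dlOf (nat_lit 1) (nat_lit 0x400400020009530102))) 
(.lf (nat_lit 23060509) (dlOf (nat_lit 1) (nat_lit 0x1000200020008b50482))))) (.nd (nat_lit 7) 
(.lf (nat_lit 20963357) (dlOf (nat_lit 1) (nat_lit 0x1380080004002002000089f0103))) 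
(.lf (nat_lit 37741725) (dlOf (nat_lit 1) (nat_lit 0x2400190d2b81))))) (.nd (nat_lit 7) 
(.nd (nat_lit 9) 
(.lf (nat_lit 3492804701) (dlOf (nat_lit 3) (nat_lit 0x803d8008540800401ec0040004000c004001600180fa782))) 
(.lf (nat_lit 19919453) (dlOf (nat_lit 1) (nat_lit 0x400289d8981)))) (.nd (nat_lit 6) 
(.lf (nat_lit 19922333) (dlOf (nat_lit 1) (nat_lit 0x280080004002000200089dca83))) 
(.lf (nat_lit 19920093) (dlOf (nat_lit 1) (nat_lit 0x10004000200189d9502))))))) (.nd (nat_lit 28) 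
(.nd (nat_lit 6) (.nd (nat_lit 19) (.nd (nat_lit 27) 
(.lf (nat_lit 4362592285) (dlOf (nat_lit 1) (nat_lit 0x100080024002000400080a0903))) 
(.lf (nat_lit 201842717) (dlOf (nat_lit 1) (nat_lit 0x200280a0901)))) 
(.lf (nat_lit 69197853) (dlOf (nat_lit 1) (nat_lit 0x4002000200088d0602)))) (.nd (nat_lit 7) 
(.nd (nat_lit 10) (.nd (nat_lit 29) 
(.lf (nat_lit 4362592349) (dlOf (nat_lit 1) (nat_lit 0x10004000a00080a1202))) 
(.lf (nat_lit 1678237789) (dlOf (nat_lit 8) (nat_lit 0x10098000440801e004c0001c0400100260000d0200760130000601000602b00008154010c0260000b0600040560000501003c00980001c080068008006c002003400081b1203)))) 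
(.lf (nat_lit 604496989) (dlOf (nat_lit 2) (nat_lit 0x10120003400800200080014002000800082d2903)))) 
(.lf (nat_lit 604496861) (dlOf (nat_lit 1) (nat_lit 0x2200182d2881))))) (.nd (nat_lit 7) 
(.nd (nat_lit 30) (.nd (nat_lit 19) 
(.lf (nat_lit 3154632733) (dlOf (nat_lit 2) (nat_lit 0x900c0013a0080058008007c002000400082e0683))) 
(.lf (nat_lit 473948189) (dlOf (nat_lit 2) (nat_lit 0x20d900123018fd0600)))) (.nd (nat_lit 6) 
(.lf (nat_lit 4228374557) (dlOf (nat_lit 1) (nat_lit 0x100080024002000400080a0903))) 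
(.lf (nat_lit 4228374621) (dlOf (nat_lit 1) (nat_lit 0x10004000a00080a1202))))) (.nd (nat_lit 6) 
(.nd (nat_lit 8) 
(.lf (nat_lit 472378013) (dlOf (nat_lit 4) (nat_lit 0x382c0007609c003a04680010018002858000041380003904000c160000904e0000e0100040008000c002001c0008985583))) 
(.lf (nat_lit 472377757) (dlOf (nat_lit 5) (nat_lit 0x3e04e001f02340182c0800f411a00c1002001609c0060401000304680301c0800e0008002000200180008984e83)))) 
(.lf (nat_lit 470278621) (dlOf (nat_lit 1) (nat_lit 0x200180c0b81))))))))) (.nd (nat_lit 6) 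
(.nd (nat_lit 18) (.nd (nat_lit 16) (.nd (nat_lit 9) (.nd (nat_lit 28) (.nd (nat_lit 8) 
(.nd (nat_lit 10) (.lf (nat_lit 3892506685) (dlOf (nat_lit 2) (nat_lit 0x802c00012818157d00))) 
(.lf (nat_lit 36365373) (dlOf (nat_lit 1) (nat_lit 0x20019072881)))) (.nd (nat_lit 10) 
(.lf (nat_lit 28500285) (dlOf (nat_lit 1) (nat_lit 0x80008da0701))) 
(.lf (nat_lit 20114749) (dlOf (nat_lit 1) (nat_lit 0x200080024002000800089d6903))))) 
(.nd (nat_lit 26) (.nd (nat_lit 7) 
(.lf (nat_lit 1879236669) (dlOf (nat_lit 1) (nat_lit 0xe0002003400080c0002))) 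
(.lf (nat_lit 1879236797) (dlOf (nat_lit 2) (nat_lit 0xa015400064040078004001400080c0382)))) 
(.nd (nat_lit 8) (.lf (nat_lit 1409998909) (dlOf (nat_lit 1) (nat_lit 0x200080c1401))) 
(.lf (nat_lit 1543695677) (dlOf (nat_lit 1) (nat_lit 0x40008004800200460008146903)))))) 
(.nd (nat_lit 10) (.nd (nat_lit 7) (.nd (nat_lit 26) 
(.lf (nat_lit 3491422781) (dlOf (nat_lit 1) (nat_lit 0x8008000400200020008091083))) 
(.lf (nat_lit 2753225277) (dlOf (nat_lit 1) (nat_lit 0x8008000400200020008091083)))) 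
(.nd (nat_lit 19) (.nd (nat_lit 26) 
(.lf (nat_lit 2818765501) (dlOf (nat_lit 1) (nat_lit 0x400200020008128c82))) 
(.lf (nat_lit 3556963005) (dlOf (nat_lit 1) (nat_lit 0x400200020008128c82)))) 
(.lf (nat_lit 8057533) (dlOf (nat_lit 1) (nat_lit 0x400200020008518c82))))) (.nd (nat_lit 8) 
(.nd (nat_lit 19) (.lf (nat_lit 20115005) (dlOf (nat_lit 1) (nat_lit 0x8002000200089d7182))) 
(.lf (nat_lit 716349) (dlOf (nat_lit 1) (nat_lit 0x6000400080018007182)))) (.nd (nat_lit 11) 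
(.lf (nat_lit 2752177981) (dlOf (nat_lit 1) (nat_lit 0x4002000a0008003e02))) 
(.lf (nat_lit 2818764605) (dlOf (nat_lit 1) (nat_lit 0xc0018127581))))))) (.nd (nat_lit 28) 
(.nd (nat_lit 19) (.nd (nat_lit 8) (.nd (nat_lit 26) (.nd (nat_lit 22) 
(.lf (nat_lit 134471741) (dlOf (nat_lit 5) (nat_lit 0x1b0188005100803a80c4022005800dc011000a00000050c20003012c006007a003203300a7018803e00b0022802801100110089000000334400360150002007a0024033008a018803000b001b8022007a010006c0000003304001200080328002000c0008030d03))) 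
(.lf (nat_lit 12836925) (dlOf (nat_lit 1) (nat_lit 0x1c00086e0c01)))) (.nd (nat_lit 29) 
(.lf (nat_lit 201580605) (dlOf (nat_lit 5) (nat_lit 0x1b0188005100803a80c4022005800dc011000a00000050c20003012c006007a003203300a7018803e00b0022802801100110089000000334400360154002007a0024033008a018803000b001b8022007a010006c0000003304001200080328002000c0008030d03))) 
(.lf (nat_lit 1812193341) (dlOf (nat_lit 5) (nat_lit 0x620130001808c016c042001801d000a0088002582800a00980011a04001c04c0002023004a00000021418011000000108040344004004e0018170d02))))) 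
(.nd (nat_lit 10) (.nd (nat_lit 20) 
(.lf (nat_lit 54780221) (dlOf (nat_lit 1) (nat_lit 0x18008000400200020009650b83))) 
(.lf (nat_lit 2752766269) (dlOf (nat_lit 1) (nat_lit 0x20018048501)))) 
(.lf (nat_lit 20180285) (dlOf (nat_lit 1) (nat_lit 0x7400289d6901))))) (.nd (nat_lit 8) 
(.nd (nat_lit 20) (.nd (nat_lit 7) 
(.lf (nat_lit 2875453) (dlOf (nat_lit 2) (nat_lit 0x50f8800405d000082d400100af00050518002602800380080014002000a00081c0b83))) 
(.lf (nat_lit 19655869) (dlOf (nat_lit 1) (nat_lit 0x600189d6301)))) (.nd (nat_lit 24) 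
(.lf (nat_lit 10215485) (dlOf (nat_lit 1) (nat_lit 0x80080004002000200085c0d03))) 
(.lf (nat_lit 26992701) (dlOf (nat_lit 1) (nat_lit 0x180028ca0901))))) (.nd (nat_lit 9) 
(.nd (nat_lit 20) (.lf (nat_lit 69984573) (dlOf (nat_lit 1) (nat_lit 0x60008e57c81))) 
(.lf (nat_lit 20701501) (dlOf (nat_lit 1) (nat_lit 0x8002006800089d0b82)))) 
(.lf (nat_lit 4362861373) (dlOf (nat_lit 1) (nat_lit 0x40040002000811bc82)))))) (.nd (nat_lit 30) 
(.nd (nat_lit 32) (.nd (nat_lit 26) 
(.lf (nat_lit 939778109) (dlOf (nat_lit 5) (nat_lit 0x620130001808c016c042001801d000a0088002582800a00980011a04001c04c0002023004a00000021418011000000108040344004004e0018170d02))) 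
(.lf (nat_lit 470016061) (dlOf (nat_lit 2) (nat_lit 0x250f200007408032800800fc00200020008020703)))) 
(.nd (nat_lit 27) 
(.lf (nat_lit 4563656765) (dlOf (nat_lit 2) (nat_lit 0x100480012c040004002000c00080b0482))) 
(.lf (nat_lit 4697874493) (dlOf (nat_lit 2) (nat_lit 0x100480012c040004002000c00080b0482))))) 
(.nd (nat_lit 11) (.nd (nat_lit 9) 
(.lf (nat_lit 1342431293) (dlOf (nat_lit 2) (nat_lit 0x250f200007008032800800fc00200020008020703))) 
(.lf (nat_lit 5637400125) (dlOf (nat_lit 2) (nat_lit 0x4a013000160180d3780)))) (.nd (nat_lit 8) 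
(.lf (nat_lit 1881401917) (dlOf (nat_lit 2) (nat_lit 0x120718001640802c0008008c00200820008f05203))) 
(.lf (nat_lit 6241381181) (dlOf (nat_lit 1) (nat_lit 0x200080008002000200080d5c03)))))))) 
(.nd (nat_lit 29) (.nd (nat_lit 16) (.nd (nat_lit 19) (.nd (nat_lit 9) (.nd (nat_lit 26) 
(.nd (nat_lit 12) (.nd (nat_lit 20) (.nd (nat_lit 27) 
(.lf (nat_lit 1074192445) (dlOf (nat_lit 1) (nat_lit 0x3400080d0b81))) 
(.lf (nat_lit 134668349) (dlOf (nat_lit 1) (nat_lit 0x3800800a0002002c0008090003)))) 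
(.lf (nat_lit 1499197) (dlOf (nat_lit 1) (nat_lit 0x4002000200080d0882)))) 
(.lf (nat_lit 8843325) (dlOf (nat_lit 1) (nat_lit 0x40028517d01)))) (.nd (nat_lit 7) 
(.lf (nat_lit 3557220413) (dlOf (nat_lit 2) (nat_lit 0x9a03f00011818170480))) 
(.lf (nat_lit 4362526909) (dlOf (nat_lit 3) (nat_lit 0x40190000800800d80cc0001a04003400200040008090382))))) 
(.nd (nat_lit 8) 
(.lf (nat_lit 8840765) (dlOf (nat_lit 2) (nat_lit 0xd62780004c080008008000400200020008513783))) 
(.nd (nat_lit 23) (.lf (nat_lit 452413) (dlOf (nat_lit 1) (nat_lit 0x400200020008003e02))) 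
(.lf (nat_lit 8841021) (dlOf (nat_lit 1) (nat_lit 0x20008000400200020008513e03)))))) 
(.nd (nat_lit 21) (.nd (nat_lit 22) 
(.lf (nat_lit 1410261053) (dlOf (nat_lit 1) (nat_lit 0x2c00200020008230d82))) 
(.lf (nat_lit 21946429) (dlOf (nat_lit 2) (nat_lit 0x2546a20013b0200040008a80d01)))) 
(.nd (nat_lit 7) 
(.lf (nat_lit 473882685) (dlOf (nat_lit 4) (nat_lit 0x1a40f8002470200b407c0012281001e03e0008400801280080010002008c0008fc0603))) 
(.lf (nat_lit 3072189) (dlOf (nat_lit 10) (nat_lit 0x2a6ec019c99200884c8000d263807612fc018497c00b04bd00fa255002612a4010895000124a400e124c00309258010c8d6006c46100c61f680650fa000687ce00503e600101f2801f80f801b8000000322c00204c8000f263800b12fc013497a00584aa00112540027925800147da00023e6002e01f00138000000622c01a09900002f0200044c80001681013e25900008008033a7180015388001c4c9000b263800212c8021494001463e800091eb8016803002fc000000121402124a0009f1fc802a803001a4000000110800a00000000681013925900000008412000816c00020eb60008200383))))))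 
(.nd (nat_lit 8) (.nd (nat_lit 19) (.nd (nat_lit 7) (.nd (nat_lit 20) 
(.lf (nat_lit 44556349) (dlOf (nat_lit 1) (nat_lit 0x18008000400200020009320003))) 
(.lf (nat_lit 1343742013) (dlOf (nat_lit 1) (nat_lit 0x20008001800200180008350a03)))) 
(.lf (nat_lit 41411773) (dlOf (nat_lit 1) (nat_lit 0x20019242c81)))) (.nd (nat_lit 20) 
(.lf (nat_lit 28303421) (dlOf (nat_lit 1) (nat_lit 0x400200020008d80a02))) 
(.lf (nat_lit 25157693) (dlOf (nat_lit 1) (nat_lit 0xd0002003c0008be1402))))) (.nd (nat_lit 7) 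
(.nd (nat_lit 9) 
(.lf (nat_lit 4698137917) (dlOf (nat_lit 4) (nat_lit 0x17e033000018100700198000080805c80cc0000204001400400160008123282))) 
(.nd (nat_lit 23) (.lf (nat_lit 522045) (dlOf (nat_lit 1) (nat_lit 0x2002800a101))) 
(.lf (nat_lit 8910653) (dlOf (nat_lit 1) (nat_lit 0x80040002000851a102))))) (.nd (nat_lit 12) 
(.lf (nat_lit 50848189) (dlOf (nat_lit 1) (nat_lit 0x20002000200094d7a82))) 
(.lf (nat_lit 19919293) (dlOf (nat_lit 1) (nat_lit 0x300080004002000200089d8583))))))) 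
(.nd (nat_lit 26) (.nd (nat_lit 27) (.nd (nat_lit 7) (.nd (nat_lit 8) 
(.lf (nat_lit 537845821) (dlOf (nat_lit 1) (nat_lit 0x2c00200020008230d82))) 
(.lf (nat_lit 805757245) (dlOf (nat_lit 3) (nat_lit 0x10805a0002602000202d000128181a0580)))) 
(.lf (nat_lit 805757117) (dlOf (nat_lit 2) (nat_lit 0x4805400230088000481000400080010002001200081a0383)))) 
(.nd (nat_lit 7) (.nd (nat_lit 16) 
(.lf (nat_lit 2819022909) (dlOf (nat_lit 2) (nat_lit 0x800000028604005800200300008150482))) 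
(.lf (nat_lit 2819088445) (dlOf (nat_lit 1) (nat_lit 0x200281a0901)))) 
(.lf (nat_lit 3892830397) (dlOf (nat_lit 2) (nat_lit 0x1700c802f0060009cc08001800400180008280482))))) 
(.nd (nat_lit 7) (.nd (nat_lit 8) (.nd (nat_lit 27) 
(.lf (nat_lit 1946607677) (dlOf (nat_lit 1) (nat_lit 0x3400080d0b81))) 
(.lf (nat_lit 4228309053) (dlOf (nat_lit 2) (nat_lit 0x203200693818090000)))) (.nd (nat_lit 10) 
(.lf (nat_lit 1678172477) (dlOf (nat_lit 3) (nat_lit 0x10805a0002502000202d000120181a0580))) 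
(.lf (nat_lit 872867133) (dlOf (nat_lit 1) (nat_lit 0x1a00280e3281))))) (.nd (nat_lit 9) 
(.nd (nat_lit 27) 
(.lf (nat_lit 1678172349) (dlOf (nat_lit 5) (nat_lit 0x14044000f01680008010000815000080220001204000e01100008810005008800034080008008025c002004000081a0383))) 
(.lf (nat_lit 4228309181) (dlOf (nat_lit 2) (nat_lit 0x1603200009018090380)))) 
(.lf (nat_lit 6376319677) (dlOf (nat_lit 1) (nat_lit 0x400200020008095782)))))))) (.nd (nat_lit 8) 
(.nd (nat_lit 16) (.nd (nat_lit 10) (.nd (nat_lit 18) (.nd (nat_lit 7) (.nd (nat_lit 9) 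
(.lf (nat_lit 6377103485) (dlOf (nat_lit 1) (nat_lit 0x1600080a2001))) 
(.lf (nat_lit 6241315453) (dlOf (nat_lit 1) (nat_lit 0x4002000200080d5402)))) (.nd (nat_lit 19) 
(.lf (nat_lit 4966244605) (dlOf (nat_lit 1) (nat_lit 0x20008090a81))) 
(.lf (nat_lit 9101565) (dlOf (nat_lit 1) (nat_lit 0x60018524601))))) (.nd (nat_lit 22) 
(.nd (nat_lit 19) (.lf (nat_lit 11985021) (dlOf (nat_lit 1) (nat_lit 0x200186c0081))) 
(.lf (nat_lit 3072125) (dlOf (nat_lit 2) (nat_lit 0x22888008d0080060008005800200380008200083)))) 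
(.nd (nat_lit 7) (.lf (nat_lit 54976637) (dlOf (nat_lit 1) (nat_lit 0x20029680c81))) 
(.lf (nat_lit 57076477) (dlOf (nat_lit 1) (nat_lit 0x20029795a81)))))) (.nd (nat_lit 9) 
(.nd (nat_lit 26) (.nd (nat_lit 27) 
(.lf (nat_lit 2684548221) (dlOf (nat_lit 1) (nat_lit 0xb00080070002008000080a9503))) 
(.lf (nat_lit 3355636861) (dlOf (nat_lit 1) (nat_lit 0x20002000600080a9502)))) (.nd (nat_lit 7) 
(.lf (nat_lit 2617439357) (dlOf (nat_lit 2) (nat_lit 0x101600006c0800100080008002000a00080a9503))) 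
(.lf (nat_lit 2617439485) (dlOf (nat_lit 1) (nat_lit 0x300080020002001600080a9583))))) 
(.nd (nat_lit 18) (.nd (nat_lit 12) 
(.lf (nat_lit 61531773) (dlOf (nat_lit 1) (nat_lit 0x10800200040009923982))) 
(.lf (nat_lit 3422746237) (dlOf (nat_lit 1) (nat_lit 0x2600080a9d81)))) (.nd (nat_lit 20) 
(.lf (nat_lit 70182525) (dlOf (nat_lit 3) (nat_lit 0x2a06e0001500801483a000c01c4004e0bd002705b001381980001414000c004000e0008fa3982))) 
(.lf (nat_lit 43968125) (dlOf (nat_lit 2) (nat_lit 0x3aed800b21ec0005a080008004000c00192a3982))))))) 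
(.nd (nat_lit 9) (.nd (nat_lit 18) (.nd (nat_lit 31) (.nd (nat_lit 7) 
(.lf (nat_lit 9691261) (dlOf (nat_lit 2) (nat_lit 0x150bc0000800800380080038002002c0008570d03))) 
(.nd (nat_lit 19) (.lf (nat_lit 22274301) (dlOf (nat_lit 1) (nat_lit 0x1060028ab7101))) 
(.lf (nat_lit 17555709) (dlOf (nat_lit 1) (nat_lit 0x1c002002000088e0682))))) (.nd (nat_lit 27) 
(.lf (nat_lit 2416173181) (dlOf (nat_lit 1) (nat_lit 0x400400020008090082))) (.nd (nat_lit 28) 
(.lf (nat_lit 3892568189) (dlOf (nat_lit 1) (nat_lit 0x10004000c0008160282))) 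
(.lf (nat_lit 2550390909) (dlOf (nat_lit 1) (nat_lit 0x400400020008090082)))))) (.nd (nat_lit 19) 
(.nd (nat_lit 11) (.nd (nat_lit 26) 
(.lf (nat_lit 537387133) (dlOf (nat_lit 2) (nat_lit 0x1605200107818090080))) 
(.lf (nat_lit 1409802365) (dlOf (nat_lit 2) (nat_lit 0x16052000fd018090080)))) 
(.lf (nat_lit 1946675325) (dlOf (nat_lit 1) (nat_lit 0x80008001000200a200080f4783)))) 
(.nd (nat_lit 7) (.lf (nat_lit 8385661) (dlOf (nat_lit 1) (nat_lit 0x2c002001c0008519502))) 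
(.lf (nat_lit 30400765) (dlOf (nat_lit 1) (nat_lit 0x1c00200200008e30682)))))) (.nd (nat_lit 18) 
(.nd (nat_lit 11) (.nd (nat_lit 10) 
(.lf (nat_lit 8118909) (dlOf (nat_lit 1) (nat_lit 0xa800201a00008511902))) 
(.lf (nat_lit 8644221) (dlOf (nat_lit 2) (nat_lit 0x903cf00000018513980)))) (.nd (nat_lit 19) 
(.lf (nat_lit 5100530301) (dlOf (nat_lit 2) (nat_lit 0x500a800070040004004000400180d5402))) 
(.nd (nat_lit 21) (.lf (nat_lit 6376123005) (dlOf (nat_lit 2) (nat_lit 0x202800000018095400))) 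
(.lf (nat_lit 19655293) (dlOf (nat_lit 4) (nat_lit 0x1149a00027020004a4d00014b0000291200004c0c000949a0001202002200289d5401)))))) 
(.nd (nat_lit 19) (.nd (nat_lit 7) 
(.lf (nat_lit 8906365) (dlOf (nat_lit 1) (nat_lit 0xc00400040008513982))) 
(.lf (nat_lit 57142013) (dlOf (nat_lit 1) (nat_lit 0x180019795a81)))) (.nd (nat_lit 20) 
(.lf (nat_lit 6376385149) (dlOf (nat_lit 1) (nat_lit 0x60008095401))) 
(.lf (nat_lit 1346366077) (dlOf (nat_lit 5) (nat_lit 0xe117000a0894004c41a00181a20002304000d11700088894004c41a003a20800130da000686880008a180018008000a00100021820012117000d0894005841a00241a200140000000e0280038008000400200140008f65403)))))))) 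
(.nd (nat_lit 30) (.nd (nat_lit 10) (.nd (nat_lit 16) (.nd (nat_lit 7) (.nd (nat_lit 18) 
(.lf (nat_lit 939712893) (dlOf (nat_lit 1) (nat_lit 0x520028155a81))) (.nd (nat_lit 27) 
(.lf (nat_lit 4362527101) (dlOf (nat_lit 3) (nat_lit 0x1c06600e8502000403300742018090780))) 
(.lf (nat_lit 201777533) (dlOf (nat_lit 1) (nat_lit 0x60018090781))))) (.nd (nat_lit 26) 
(.lf (nat_lit 939713021) (dlOf (nat_lit 1) (nat_lit 0x2a80080004002008a0008157e03))) 
(.nd (nat_lit 27) 
(.lf (nat_lit 4362265085) (dlOf (nat_lit 5) (nat_lit 0x2180ac000ce0400c80ac008a04900450158001981803380ac000820400cc092005802b0001f828017e00))) 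
(.lf (nat_lit 201515517) (dlOf (nat_lit 1) (nat_lit 0x60028017e01)))))) (.nd (nat_lit 20) 
(.nd (nat_lit 9) (.lf (nat_lit 805560701) (dlOf (nat_lit 2) (nat_lit 0x5600e0028a018125a80))) 
(.lf (nat_lit 54782845) (dlOf (nat_lit 2) (nat_lit 0x192630005c0080008008000c00200020009655c03)))) 
(.nd (nat_lit 19) (.lf (nat_lit 9691517) (dlOf (nat_lit 1) (nat_lit 0x7800800c000200260008575a83))) 
(.lf (nat_lit 8118653) (dlOf (nat_lit 1) (nat_lit 0x1800401660008511002)))))) (.nd (nat_lit 9) 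
(.nd (nat_lit 7) (.nd (nat_lit 16) 
(.lf (nat_lit 8578429) (dlOf (nat_lit 1) (nat_lit 0x60028513581))) 
(.lf (nat_lit 52946301) (dlOf (nat_lit 1) (nat_lit 0x20009573581)))) (.nd (nat_lit 12) 
(.lf (nat_lit 43443709) (dlOf (nat_lit 1) (nat_lit 0x2600292a3681))) 
(.lf (nat_lit 2617439741) (dlOf (nat_lit 7) (nat_lit 0x1c02c0009801000301600038c0800600b0001c2040044058000df02002002f000088100010160000300800480080010002003a00080a9c03))))) 
(.nd (nat_lit 19) (.nd (nat_lit 18) 
(.lf (nat_lit 8583037) (dlOf (nat_lit 1) (nat_lit 0x8800800040020010000851a303))) 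
(.lf (nat_lit 8845181) (dlOf (nat_lit 1) (nat_lit 0x40020002000851a302)))) (.nd (nat_lit 16) 
(.lf (nat_lit 8320893) (dlOf (nat_lit 1) (nat_lit 0x800800080020002000851a303))) 
(.lf (nat_lit 8386429) (dlOf (nat_lit 1) (nat_lit 0x80020002000851a302))))))) (.nd (nat_lit 29) 
(.nd (nat_lit 7) (.nd (nat_lit 16) (.nd (nat_lit 26) 
(.lf (nat_lit 1208150397) (dlOf (nat_lit 1) (nat_lit 0x1b0008011c00200ce0008094e83))) 
(.lf (nat_lit 1543694717) (dlOf (nat_lit 3) (nat_lit 0x1403e010bd02005a02800836018144e80)))) 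
(.nd (nat_lit 10) (.nd (nat_lit 11) 
(.lf (nat_lit 3288588669) (dlOf (nat_lit 1) (nat_lit 0x2400400080008090782))) 
(.lf (nat_lit 3490179453) (dlOf (nat_lit 1) (nat_lit 0x400200020008004e82)))) 
(.lf (nat_lit 3489918333) (dlOf (nat_lit 1) (nat_lit 0x6c00200540008006c02))))) (.nd (nat_lit 9) 
(.lf (nat_lit 3355637245) (dlOf (nat_lit 4) (nat_lit 0x7017800364080030000000e204000c05e0000c02001400180a9c01))) 
(.nd (nat_lit 10) (.lf (nat_lit 3492733949) (dlOf (nat_lit 1) (nat_lit 0x4002000200080f2882))) 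
(.lf (nat_lit 3556962301) (dlOf (nat_lit 1) (nat_lit 0x38008000800200080008127a83)))))) 
(.nd (nat_lit 27) (.nd (nat_lit 16) (.nd (nat_lit 10) 
(.lf (nat_lit 1678172541) (dlOf (nat_lit 3) (nat_lit 0x40ac00e85020002013007420181a0780))) 
(.lf (nat_lit 1880810877) (dlOf (nat_lit 1) (nat_lit 0x20028bb3581)))) (.nd (nat_lit 7) 
(.lf (nat_lit 1677975933) (dlOf (nat_lit 2) (nat_lit 0x5600e00554818125a80))) 
(.lf (nat_lit 1677976061) (dlOf (nat_lit 5) (nat_lit 0x350084032400e018100600bc0000000ce100354084031e00e018700600bf0000000cc100340084030600e000208200d402100c400380007e08031000400740018127e02))))) 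
(.nd (nat_lit 9) (.nd (nat_lit 18) 
(.lf (nat_lit 1812128125) (dlOf (nat_lit 1) (nat_lit 0x520028155a81))) 
(.lf (nat_lit 4228309373) (dlOf (nat_lit 6) (nat_lit 0x40320041981000201900106c0800100c800834040008064003cc020004032001e5018090780)))) 
(.nd (nat_lit 12) (.lf (nat_lit 3959613309) (dlOf (nat_lit 1) (nat_lit 0x400200020008114102))) 
(.lf (nat_lit 3892508541) (dlOf (nat_lit 1) (nat_lit 0x22800800040020048000815a303))))))))))))

end

end Pool.Agent.Lib.MP_5854e1_co.Cz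

namespace Pool.Agent.Lib.MP_5854e1_co.Cz

noncomputable section

noncomputable def tz128 : DT := (.nd (nat_lit 6) (.nd (nat_lit 5) (.nd (nat_lit 15) 
(.nd (nat_lit 18) (.nd (nat_lit 16) (.nd (nat_lit 19) (.nd (nat_lit 26) (.nd (nat_lit 21) 
(.nd (nat_lit 7) (.nd (nat_lit 9) 
(.lf (nat_lit 5772410882) (dlOf (nat_lit 1) (nat_lit 0xa0018090001))) (.nd (nat_lit 10) 
(.lf (nat_lit 8393218) (dlOf (nat_lit 1) (nat_lit 0x400200020008518682))) 
(.lf (nat_lit 3355448834) (dlOf (nat_lit 1) (nat_lit 0x400400020008009c02))))) (.nd (nat_lit 9) 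
(.lf (nat_lit 5905583234) (dlOf (nat_lit 1) (nat_lit 0x40018006101))) 
(.lf (nat_lit 671092354) (dlOf (nat_lit 1) (nat_lit 0x1400200080008007182))))) (.nd (nat_lit 20) 
(.nd (nat_lit 23) 
(.lf (nat_lit 1344274434) (dlOf (nat_lit 1) (nat_lit 0x10008000400200040008560003))) 
(.lf (nat_lit 27262978) (dlOf (nat_lit 1) (nat_lit 0x220018cc0001)))) (.nd (nat_lit 7) 
(.lf (nat_lit 11534338) (dlOf (nat_lit 1) (nat_lit 0x80080004002000200086b0003))) 
(.lf (nat_lit 24117378) (dlOf (nat_lit 1) (nat_lit 0x400200020008b80102)))))) (.nd (nat_lit 8) 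
(.nd (nat_lit 11) 
(.lf (nat_lit 471859202) (dlOf (nat_lit 1) (nat_lit 0x10008000400200040008540003))) 
(.nd (nat_lit 27) (.lf (nat_lit 4362082306) (dlOf (nat_lit 1) (nat_lit 0x140020002000800a602))) 
(.lf (nat_lit 469768194) (dlOf (nat_lit 1) (nat_lit 0x14001800a601))))) (.nd (nat_lit 9) 
(.nd (nat_lit 7) (.lf (nat_lit 3690993922) (dlOf (nat_lit 1) (nat_lit 0xa001800a981))) 
(.lf (nat_lit 2483031426) (dlOf (nat_lit 2) (nat_lit 0xa00a00006604002800400040018006c02)))) 
(.nd (nat_lit 10) (.nd (nat_lit 11) 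
(.lf (nat_lit 3422552834) (dlOf (nat_lit 1) (nat_lit 0x400400020018002102))) 
(.lf (nat_lit 6377442050) (dlOf (nat_lit 1) (nat_lit 0xc00280e5a81)))) 
(.lf (nat_lit 201328386) (dlOf (nat_lit 2) (nat_lit 0x902080011c080040008002c00200020008003b83))))))) 
(.nd (nat_lit 20) (.nd (nat_lit 26) (.nd (nat_lit 21) (.nd (nat_lit 28) 
(.lf (nat_lit 1611137026) (dlOf (nat_lit 1) (nat_lit 0x900080010002001a00080f0003))) 
(.lf (nat_lit 4027056130) (dlOf (nat_lit 1) (nat_lit 0x400081c0001)))) (.nd (nat_lit 7) 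
(.lf (nat_lit 2621442) (dlOf (nat_lit 3) (nat_lit 0xc838001c6002003a1c000e2f018180000))) 
(.lf (nat_lit 44564610) (dlOf (nat_lit 1) (nat_lit 0x60029320301))))) (.nd (nat_lit 27) 
(.nd (nat_lit 30) (.lf (nat_lit 4362600450) (dlOf (nat_lit 1) (nat_lit 0xbc002005200080a0002))) 
(.lf (nat_lit 3288858626) (dlOf (nat_lit 1) (nat_lit 0x400081c0001)))) (.nd (nat_lit 28) 
(.lf (nat_lit 738721794) (dlOf (nat_lit 1) (nat_lit 0x900080010002001a00080f0003))) 
(.lf (nat_lit 4228382722) (dlOf (nat_lit 1) (nat_lit 0xbc002005200080a0002)))))) (.nd (nat_lit 22) 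
(.nd (nat_lit 9) (.lf (nat_lit 18350082) (dlOf (nat_lit 1) (nat_lit 0x800400020018920002))) 
(.lf (nat_lit 1345847810) (dlOf (nat_lit 4) (nat_lit 0x6422a001e114000b002001808a80038c08001045c00000040130004000c0018e07b02)))) 
(.nd (nat_lit 10) (.nd (nat_lit 24) 
(.lf (nat_lit 5767170) (dlOf (nat_lit 1) (nat_lit 0x8004000600083d0002))) 
(.lf (nat_lit 22544386) (dlOf (nat_lit 1) (nat_lit 0x3c0018af0001)))) 
(.lf (nat_lit 56099842) (dlOf (nat_lit 1) (nat_lit 0x800200020009732882))))))) (.nd (nat_lit 7) 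
(.nd (nat_lit 19) (.nd (nat_lit 27) (.nd (nat_lit 22) (.nd (nat_lit 8) (.nd (nat_lit 28) 
(.lf (nat_lit 3825270786) (dlOf (nat_lit 3) (nat_lit 0x280360012017000800000691018001005c034840400a4002000e00080b0002))) 
(.lf (nat_lit 872480770) (dlOf (nat_lit 1) (nat_lit 0x20028090001)))) 
(.lf (nat_lit 16843010) (dlOf (nat_lit 1) (nat_lit 0x200288e0701)))) (.nd (nat_lit 20) 
(.lf (nat_lit 12648450) (dlOf (nat_lit 1) (nat_lit 0x600186d0001))) 
(.lf (nat_lit 22085634) (dlOf (nat_lit 1) (nat_lit 0x400200020008a90002))))) (.nd (nat_lit 8) 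
(.nd (nat_lit 9) (.lf (nat_lit 4697686018) (dlOf (nat_lit 1) (nat_lit 0x3800200100008090002))) 
(.lf (nat_lit 6308300290) (dlOf (nat_lit 1) (nat_lit 0x40028053681)))) (.nd (nat_lit 9) 
(.lf (nat_lit 2617316610) (dlOf (nat_lit 1) (nat_lit 0x800280a9581))) 
(.lf (nat_lit 6039868162) (dlOf (nat_lit 1) (nat_lit 0x120028008f81)))))) (.nd (nat_lit 20) 
(.nd (nat_lit 26) (.nd (nat_lit 9) 
(.lf (nat_lit 4784130) (dlOf (nat_lit 1) (nat_lit 0x2f0004013000082b0002))) 
(.lf (nat_lit 61408770) (dlOf (nat_lit 1) (nat_lit 0x2d800400300009923682)))) (.nd (nat_lit 27) 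
(.nd (nat_lit 28) (.lf (nat_lit 4362665986) (dlOf (nat_lit 1) (nat_lit 0x200280d0001))) 
(.lf (nat_lit 3557359618) (dlOf (nat_lit 1) (nat_lit 0x80002000c00081c0002)))) 
(.lf (nat_lit 4228448258) (dlOf (nat_lit 1) (nat_lit 0x200280d0001))))) (.nd (nat_lit 21) 
(.nd (nat_lit 9) (.nd (nat_lit 23) 
(.lf (nat_lit 471400450) (dlOf (nat_lit 1) (nat_lit 0x2400082f0001))) 
(.lf (nat_lit 10027010) (dlOf (nat_lit 6) (nat_lit 0x110e9800285e001d4a0800403a600ea402000a1d30074b0100090eb00010728000c2f000e310600121d600040e5000285e001c600c0010004009400185a0002)))) 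
(.lf (nat_lit 1880687106) (dlOf (nat_lit 1) (nat_lit 0x400400020008b37b02)))) (.nd (nat_lit 22) 
(.nd (nat_lit 26) 
(.lf (nat_lit 3493396482) (dlOf (nat_lit 3) (nat_lit 0x1001d005bc81000900e802d300800400080020002000a0008130003))) 
(.lf (nat_lit 2755198978) (dlOf (nat_lit 3) (nat_lit 0x1001d002f481000900e8016cc0800400080020002000a0008130003)))) 
(.lf (nat_lit 24707074) (dlOf (nat_lit 1) (nat_lit 0x40008004800200940008bb0003))))))) 
(.nd (nat_lit 28) (.nd (nat_lit 10) (.nd (nat_lit 11) (.nd (nat_lit 19) (.nd (nat_lit 20) 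
(.lf (nat_lit 1677787266) (dlOf (nat_lit 2) (nat_lit 0xfe04c008201a8000bc1001b000800bc00200180008090103))) 
(.lf (nat_lit 3211394) (dlOf (nat_lit 1) (nat_lit 0x20018200101)))) 
(.lf (nat_lit 12124290) (dlOf (nat_lit 1) (nat_lit 0x200086c0101)))) (.nd (nat_lit 8) 
(.lf (nat_lit 8456322) (dlOf (nat_lit 1) (nat_lit 0x40018514781))) 
(.lf (nat_lit 57215362) (dlOf (nat_lit 1) (nat_lit 0xe0029794e81))))) (.nd (nat_lit 8) 
(.nd (nat_lit 11) (.lf (nat_lit 19994242) (dlOf (nat_lit 1) (nat_lit 0x600189d9d81))) 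
(.lf (nat_lit 2885750402) (dlOf (nat_lit 7) (nat_lit 0xe0000005640800180dc000c404000c06e0005f020016044000b021800580f8002c078004a037000b01a80040000000a61c007806e0005002000403e001b000000000100058008001800200020008007183)))) 
(.nd (nat_lit 12) 
(.lf (nat_lit 19991938) (dlOf (nat_lit 2) (nat_lit 0x20d4400066040008004001400189d6c02))) 
(.lf (nat_lit 134290818) (dlOf (nat_lit 1) (nat_lit 0x14002800c901)))))) (.nd (nat_lit 9) 
(.nd (nat_lit 8) (.nd (nat_lit 19) 
(.lf (nat_lit 805372034) (dlOf (nat_lit 2) (nat_lit 0xfe04c008201a8000bc1001b000800bc00200180008090103))) 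
(.lf (nat_lit 3154706562) (dlOf (nat_lit 1) (nat_lit 0x7000400200008310482)))) (.nd (nat_lit 10) 
(.lf (nat_lit 2080440706) (dlOf (nat_lit 1) (nat_lit 0x1c00400100018091002))) 
(.lf (nat_lit 2483101058) (dlOf (nat_lit 3) (nat_lit 0x7c020000c00e003338200080080019980800f0008006c0020070000800c903))))) 
(.nd (nat_lit 26) (.nd (nat_lit 31) 
(.lf (nat_lit 4563471234) (dlOf (nat_lit 1) (nat_lit 0x2c00400040008095c02))) 
(.lf (nat_lit 6710954882) (dlOf (nat_lit 1) (nat_lit 0x1a0028005c01)))) (.nd (nat_lit 11) 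
(.lf (nat_lit 2617316226) (dlOf (nat_lit 1) (nat_lit 0xdc004004a00080a9002))) (.nd (nat_lit 29) 
(.lf (nat_lit 4764797826) (dlOf (nat_lit 1) (nat_lit 0x20028005c01))) 
(.lf (nat_lit 5301668738) (dlOf (nat_lit 2) (nat_lit 0x280000028604001400200020008005c02)))))))))) 
(.nd (nat_lit 26) (.nd (nat_lit 21) (.nd (nat_lit 28) (.nd (nat_lit 29) (.nd (nat_lit 22) 
(.nd (nat_lit 7) 
(.lf (nat_lit 134545410) (dlOf (nat_lit 1) (nat_lit 0xd000800b000200400008070003))) 
(.lf (nat_lit 786818) (dlOf (nat_lit 1) (nat_lit 0x40028015a81)))) (.nd (nat_lit 20) 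
(.lf (nat_lit 21299202) (dlOf (nat_lit 1) (nat_lit 0x280028a30001))) 
(.lf (nat_lit 5570562) (dlOf (nat_lit 1) (nat_lit 0x80080004002000200083a0003))))) 
(.nd (nat_lit 19) (.nd (nat_lit 30) 
(.lf (nat_lit 671416322) (dlOf (nat_lit 1) (nat_lit 0x20028190001))) 
(.lf (nat_lit 1745158146) (dlOf (nat_lit 1) (nat_lit 0x400080b0001)))) (.nd (nat_lit 16) 
(.lf (nat_lit 2819358722) (dlOf (nat_lit 5) (nat_lit 0x8030003c010c015c082016201c00a600c802c3428001807001612040088086017001c00584020030021801a00700160e0800f0004001c0008250002))) 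
(.lf (nat_lit 2819424258) (dlOf (nat_lit 3) (nat_lit 0xf0390019000800781c800c660400a8002002e0008280002)))))) 
(.nd (nat_lit 16) (.nd (nat_lit 27) (.nd (nat_lit 9) 
(.lf (nat_lit 3489925506) (dlOf (nat_lit 1) (nat_lit 0x20028004e81))) 
(.lf (nat_lit 268700546) (dlOf (nat_lit 1) (nat_lit 0x1a00080e5c01)))) (.nd (nat_lit 7) 
(.lf (nat_lit 5234755074) (dlOf (nat_lit 1) (nat_lit 0x480080008002001800080d3683))) 
(.lf (nat_lit 6308498306) (dlOf (nat_lit 1) (nat_lit 0xc004000200080d5c02))))) (.nd (nat_lit 7) 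
(.nd (nat_lit 27) 
(.lf (nat_lit 1879375874) (dlOf (nat_lit 1) (nat_lit 0x8008000400200020008100003))) 
(.lf (nat_lit 939851778) (dlOf (nat_lit 1) (nat_lit 0x200281d0001)))) (.nd (nat_lit 27) 
(.lf (nat_lit 5637472386) (dlOf (nat_lit 1) (nat_lit 0x100080004002000200080f0e03))) 
(.lf (nat_lit 402980994) (dlOf (nat_lit 1) (nat_lit 0x80080034002000200080c0e03))))))) 
(.nd (nat_lit 19) (.nd (nat_lit 25) (.nd (nat_lit 7) 
(.lf (nat_lit 2359298) (dlOf (nat_lit 3) (nat_lit 0x6305c00214fc01a3a040012c17000853f000329b4033b60c0060004000a0008150002))) 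
(.nd (nat_lit 8) (.lf (nat_lit 3473538) (dlOf (nat_lit 1) (nat_lit 0x18008000c00200020008200103))) 
(.lf (nat_lit 20253570) (dlOf (nat_lit 1) (nat_lit 0x4002000200089d5c02))))) (.nd (nat_lit 9) 
(.nd (nat_lit 23) (.lf (nat_lit 37027842) (dlOf (nat_lit 1) (nat_lit 0x20019080001))) 
(.lf (nat_lit 62193666) (dlOf (nat_lit 1) (nat_lit 0x400200040009970002)))) 
(.lf (nat_lit 41157122) (dlOf (nat_lit 3) (nat_lit 0x4ca1000b00100156510000000800f80080004002001e0009227b03))))) 
(.nd (nat_lit 20) (.nd (nat_lit 24) (.nd (nat_lit 22) 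
(.lf (nat_lit 11337730) (dlOf (nat_lit 1) (nat_lit 0x8008000400200020008690003))) 
(.lf (nat_lit 15532034) (dlOf (nat_lit 1) (nat_lit 0xe0028800001)))) (.nd (nat_lit 7) 
(.lf (nat_lit 28114946) (dlOf (nat_lit 2) (nat_lit 0x52944009d204000400400020008d50002))) 
(.lf (nat_lit 19729538) (dlOf (nat_lit 1) (nat_lit 0xf000189d6101))))) (.nd (nat_lit 9) 
(.nd (nat_lit 23) (.nd (nat_lit 31) 
(.lf (nat_lit 1346174978) (dlOf (nat_lit 1) (nat_lit 0x20028e60001))) 
(.lf (nat_lit 3493658626) (dlOf (nat_lit 1) (nat_lit 0x38008002000200120008190003)))) 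
(.lf (nat_lit 12386306) (dlOf (nat_lit 2) (nat_lit 0x13770067640800780080090002003e00086c0003)))) 
(.nd (nat_lit 10) (.lf (nat_lit 8126978) (dlOf (nat_lit 1) (nat_lit 0x4000200020008511482))) 
(.lf (nat_lit 8128002) (dlOf (nat_lit 1) (nat_lit 0x20028513681)))))))) (.nd (nat_lit 28) 
(.nd (nat_lit 9) (.nd (nat_lit 19) (.nd (nat_lit 7) (.nd (nat_lit 29) 
(.lf (nat_lit 201654274) (dlOf (nat_lit 1) (nat_lit 0xd000800b000200400008070003))) 
(.lf (nat_lit 1812267010) (dlOf (nat_lit 1) (nat_lit 0x200281d0001)))) 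
(.lf (nat_lit 3288596866) (dlOf (nat_lit 1) (nat_lit 0x630008013000200820008090783)))) 
(.nd (nat_lit 21) (.lf (nat_lit 69009410) (dlOf (nat_lit 1) (nat_lit 0x1c0018860001))) 
(.lf (nat_lit 2755461122) (dlOf (nat_lit 1) (nat_lit 0x38008002000200120008190003))))) 
(.nd (nat_lit 8) (.nd (nat_lit 16) 
(.lf (nat_lit 2754875010) (dlOf (nat_lit 2) (nat_lit 0x17124000287e0000c4080004004000e00080f7182))) 
(.lf (nat_lit 2754940546) (dlOf (nat_lit 1) (nat_lit 0x18008000c002000200080f7183)))) 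
(.nd (nat_lit 10) (.nd (nat_lit 27) 
(.lf (nat_lit 4899212162) (dlOf (nat_lit 2) (nat_lit 0x180000011a040008004001000180d5c02))) 
(.lf (nat_lit 5570300802) (dlOf (nat_lit 1) (nat_lit 0x280080018002000c00080d5c03)))) 
(.lf (nat_lit 2752251778) (dlOf (nat_lit 1) (nat_lit 0x800400020008004182)))))) (.nd (nat_lit 30) 
(.nd (nat_lit 29) (.nd (nat_lit 19) 
(.lf (nat_lit 2617573378) (dlOf (nat_lit 5) (nat_lit 0x1002c004708101380150023680808a80b800e2a04056805e0069c0200020008100001))) 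
(.lf (nat_lit 471662594) (dlOf (nat_lit 1) (nat_lit 0x4004000200083c0002)))) (.nd (nat_lit 27) 
(.lf (nat_lit 872742914) (dlOf (nat_lit 1) (nat_lit 0x400080b0001))) (.nd (nat_lit 31) 
(.lf (nat_lit 1006960642) (dlOf (nat_lit 1) (nat_lit 0x8008000400200020008100003))) 
(.lf (nat_lit 3154444290) (dlOf (nat_lit 1) (nat_lit 0x4004000200081a0002)))))) (.nd (nat_lit 7) 
(.nd (nat_lit 16) 
(.lf (nat_lit 3557556226) (dlOf (nat_lit 6) (nat_lit 0x601c8000c0c200bd5040006061005ea010003030802f3c0800601c8000c0c200bce0400060720015030802f201002000080058002004a0008260003))) 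
(.nd (nat_lit 19) (.lf (nat_lit 1543831554) (dlOf (nat_lit 1) (nat_lit 0x20028190001))) 
(.lf (nat_lit 4096589826) (dlOf (nat_lit 1) (nat_lit 0x1e80080004002002c0008130003))))) 
(.nd (nat_lit 9) (.lf (nat_lit 6241452162) (dlOf (nat_lit 1) (nat_lit 0x1000180f0e81))) 
(.lf (nat_lit 6376131202) (dlOf (nat_lit 1) (nat_lit 0x98008005c00200240008095483))))))))) 
(.nd (nat_lit 16) (.nd (nat_lit 18) (.nd (nat_lit 19) (.nd (nat_lit 10) (.nd (nat_lit 20) 
(.nd (nat_lit 8) (.nd (nat_lit 12) (.nd (nat_lit 21) 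
(.lf (nat_lit 12615682) (dlOf (nat_lit 1) (nat_lit 0x4002000200086d0002))) 
(.lf (nat_lit 14712834) (dlOf (nat_lit 3) (nat_lit 0x24a870076a00801351f80373404002000200060008770002)))) 
(.nd (nat_lit 9) 
(.lf (nat_lit 3691024386) (dlOf (nat_lit 1) (nat_lit 0xc0008001c00200340008007a83))) 
(.lf (nat_lit 8425986) (dlOf (nat_lit 1) (nat_lit 0x400200020008518682))))) (.nd (nat_lit 23) 
(.lf (nat_lit 1346404610) (dlOf (nat_lit 1) (nat_lit 0x4002000e0008f60a82))) 
(.lf (nat_lit 46170370) (dlOf (nat_lit 1) (nat_lit 0x8008000c00200020009380a83))))) 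
(.nd (nat_lit 21) (.nd (nat_lit 22) (.nd (nat_lit 26) 
(.lf (nat_lit 3490742274) (dlOf (nat_lit 2) (nat_lit 0x3f0ab800000080018008000400200180008020003))) 
(.lf (nat_lit 2752544770) (dlOf (nat_lit 2) (nat_lit 0x3e0ae000000080030008005000200220008020003)))) 
(.lf (nat_lit 22052866) (dlOf (nat_lit 1) (nat_lit 0x400400020008a90002)))) (.nd (nat_lit 8) 
(.lf (nat_lit 11567106) (dlOf (nat_lit 1) (nat_lit 0x1a00086b0001))) 
(.lf (nat_lit 40927490) (dlOf (nat_lit 1) (nat_lit 0x40029203581)))))) (.nd (nat_lit 9) 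
(.nd (nat_lit 7) (.nd (nat_lit 11) 
(.lf (nat_lit 4362109954) (dlOf (nat_lit 1) (nat_lit 0x48008003800200060008002883))) 
(.lf (nat_lit 5167418370) (dlOf (nat_lit 1) (nat_lit 0x20028055f01)))) (.nd (nat_lit 8) 
(.lf (nat_lit 6377473154) (dlOf (nat_lit 2) (nat_lit 0x80500002602000400180e2a81))) 
(.nd (nat_lit 12) 
(.lf (nat_lit 4227894658) (dlOf (nat_lit 2) (nat_lit 0x90258000b0080028008006c002001a0008006c03))) 
(.lf (nat_lit 6442491266) (dlOf (nat_lit 1) (nat_lit 0x18001800c901)))))) (.nd (nat_lit 11) 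
(.nd (nat_lit 26) (.nd (nat_lit 27) 
(.lf (nat_lit 2684393090) (dlOf (nat_lit 2) (nat_lit 0x200058001ec08013800800a000200220008009d83))) 
(.lf (nat_lit 2281739906) (dlOf (nat_lit 2) (nat_lit 0x100128001ec080020008006800200020008009d83)))) 
(.lf (nat_lit 6643816066) (dlOf (nat_lit 1) (nat_lit 0x8008000400200020008009d83)))) 
(.nd (nat_lit 26) (.nd (nat_lit 27) 
(.lf (nat_lit 5905616514) (dlOf (nat_lit 1) (nat_lit 0x2c0008007181))) 
(.lf (nat_lit 3087044226) (dlOf (nat_lit 2) (nat_lit 0x2005800188080018008000400200020008007183)))) 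
(.lf (nat_lit 1677758082) (dlOf (nat_lit 2) (nat_lit 0x400e00031018007180))))))) (.nd (nat_lit 21) 
(.nd (nat_lit 29) (.nd (nat_lit 22) (.nd (nat_lit 7) 
(.lf (nat_lit 50888962) (dlOf (nat_lit 1) (nat_lit 0x4004000200094d3582))) 
(.lf (nat_lit 1476952194) (dlOf (nat_lit 1) (nat_lit 0x3d80080314002018c0008313a03)))) 
(.nd (nat_lit 24) (.lf (nat_lit 4751362) (dlOf (nat_lit 1) (nat_lit 0x4004000200082b0002))) 
(.lf (nat_lit 55083010) (dlOf (nat_lit 1) (nat_lit 0xc8004003000096a0002))))) (.nd (nat_lit 26) 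
(.nd (nat_lit 27) (.lf (nat_lit 805863426) (dlOf (nat_lit 2) (nat_lit 0x9e04f00ce20181d0000))) 
(.lf (nat_lit 2819129346) (dlOf (nat_lit 1) (nat_lit 0x4004000200081a0002)))) 
(.lf (nat_lit 1678278658) (dlOf (nat_lit 2) (nat_lit 0x9e04f00e8f8181d0000))))) (.nd (nat_lit 22) 
(.nd (nat_lit 31) (.nd (nat_lit 23) 
(.lf (nat_lit 2654210) (dlOf (nat_lit 3) (nat_lit 0x352e00718008001297000054a401c5e0400040028180001))) 
(.lf (nat_lit 11042818) (dlOf (nat_lit 3) (nat_lit 0x2a0000038a81003ac25800000080110008007400200220008660003)))) 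
(.nd (nat_lit 26) (.lf (nat_lit 3492315138) (dlOf (nat_lit 1) (nat_lit 0x2c004000e00080c0002))) 
(.lf (nat_lit 2754117634) (dlOf (nat_lit 1) (nat_lit 0x2c004000e00080c0002))))) (.nd (nat_lit 7) 
(.nd (nat_lit 9) (.lf (nat_lit 24674306) (dlOf (nat_lit 1) (nat_lit 0x10008000400200040008bb0003))) 
(.lf (nat_lit 23626242) (dlOf (nat_lit 1) (nat_lit 0x20018b80d81)))) 
(.lf (nat_lit 23626114) (dlOf (nat_lit 1) (nat_lit 0x680008b80781))))))) (.nd (nat_lit 28) 
(.nd (nat_lit 21) (.nd (nat_lit 27) (.nd (nat_lit 20) (.nd (nat_lit 22) 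
(.lf (nat_lit 2684649474) (dlOf (nat_lit 2) (nat_lit 0x8019001c540802a00080110002002e0008100003))) 
(.lf (nat_lit 2755952642) (dlOf (nat_lit 1) (nat_lit 0x500080028002001c00081c0003)))) 
(.lf (nat_lit 5537794) (dlOf (nat_lit 1) (nat_lit 0x140018390001)))) (.nd (nat_lit 7) 
(.lf (nat_lit 3422846978) (dlOf (nat_lit 2) (nat_lit 0x260190032fc080250008003000200500008120003))) 
(.nd (nat_lit 8) (.lf (nat_lit 5033459842) (dlOf (nat_lit 1) (nat_lit 0xa00180c0e01))) 
(.lf (nat_lit 4496591746) (dlOf (nat_lit 1) (nat_lit 0xc004000600080e5c02)))))) (.nd (nat_lit 19) 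
(.nd (nat_lit 9) (.nd (nat_lit 20) 
(.lf (nat_lit 2392066) (dlOf (nat_lit 1) (nat_lit 0x400200120008150002))) 
(.lf (nat_lit 24412162) (dlOf (nat_lit 1) (nat_lit 0xaa0008b90001)))) 
(.lf (nat_lit 41189890) (dlOf (nat_lit 1) (nat_lit 0x20009227b01)))) (.nd (nat_lit 7) 
(.nd (nat_lit 10) 
(.lf (nat_lit 2754379778) (dlOf (nat_lit 2) (nat_lit 0x450cb808f80000197e08000c002001a00080e0002))) 
(.lf (nat_lit 54299650) (dlOf (nat_lit 1) (nat_lit 0x20029655f01)))) 
(.lf (nat_lit 36473218) (dlOf (nat_lit 1) (nat_lit 0x60019074e81)))))) (.nd (nat_lit 26) 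
(.nd (nat_lit 19) (.nd (nat_lit 7) (.nd (nat_lit 22) 
(.lf (nat_lit 5637439490) (dlOf (nat_lit 1) (nat_lit 0x200280e0001))) 
(.lf (nat_lit 3494150146) (dlOf (nat_lit 1) (nat_lit 0x500080028002001c00081c0003)))) 
(.lf (nat_lit 3489958274) (dlOf (nat_lit 1) (nat_lit 0x400200020008004e82)))) (.nd (nat_lit 8) 
(.nd (nat_lit 21) 
(.lf (nat_lit 1879867394) (dlOf (nat_lit 1) (nat_lit 0x8008000c002000200083b0003))) 
(.lf (nat_lit 3492577282) (dlOf (nat_lit 2) (nat_lit 0x450c7808f800000e2a08000c002001a00080e0002)))) 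
(.lf (nat_lit 5772182786) (dlOf (nat_lit 1) (nat_lit 0xf800800a0002001c0008092f03))))) 
(.nd (nat_lit 29) (.nd (nat_lit 19) (.nd (nat_lit 20) 
(.lf (nat_lit 2617540610) (dlOf (nat_lit 1) (nat_lit 0x4004000200080e0002))) 
(.lf (nat_lit 471105538) (dlOf (nat_lit 2) (nat_lit 0x80fc00a7e02000e0008270001)))) 
(.lf (nat_lit 3557588994) (dlOf (nat_lit 4) (nat_lit 0xe8194009c0c60057a040028065002b981000c0328015c8080140008002400200180008270003)))) 
(.nd (nat_lit 8) (.nd (nat_lit 27) 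
(.lf (nat_lit 3020193794) (dlOf (nat_lit 3) (nat_lit 0x114078036e0350119018010080a80774046005602200230090076a83803a80f0030c06a0242030021b01500fa808c00b4044004201900120090076a0400218008005c00200060008150003))) 
(.lf (nat_lit 1006927874) (dlOf (nat_lit 1) (nat_lit 0x9800800e4002004000080e0003)))) 
(.lf (nat_lit 6376161538) (dlOf (nat_lit 2) (nat_lit 0x8086800238080020008000800200080008090a83)))))))) 
(.nd (nat_lit 18) (.nd (nat_lit 28) (.nd (nat_lit 7) (.nd (nat_lit 19) (.nd (nat_lit 20) 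
(.nd (nat_lit 9) (.nd (nat_lit 22) 
(.lf (nat_lit 1140948994) (dlOf (nat_lit 1) (nat_lit 0x2000200100008020002))) 
(.lf (nat_lit 12681218) (dlOf (nat_lit 1) (nat_lit 0x28004000200186d0002)))) 
(.lf (nat_lit 8491522) (dlOf (nat_lit 1) (nat_lit 0x1400400200018518682)))) (.nd (nat_lit 8) 
(.nd (nat_lit 25) (.lf (nat_lit 17924098) (dlOf (nat_lit 1) (nat_lit 0x40018900001))) 
(.lf (nat_lit 51478530) (dlOf (nat_lit 1) (nat_lit 0x400400020019510002)))) 
(.lf (nat_lit 40993026) (dlOf (nat_lit 1) (nat_lit 0x1b4004000e0009203582))))) (.nd (nat_lit 21) 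
(.nd (nat_lit 10) (.lf (nat_lit 55148546) (dlOf (nat_lit 1) (nat_lit 0x200096c0001))) 
(.lf (nat_lit 629762) (dlOf (nat_lit 1) (nat_lit 0x40040002000800bf02)))) (.nd (nat_lit 20) 
(.lf (nat_lit 2754183170) (dlOf (nat_lit 2) (nat_lit 0x1c415c000000180c0000))) 
(.lf (nat_lit 16351234) (dlOf (nat_lit 6) (nat_lit 0xa545003430100082a2801a1408002951400cd6040008a8a0065b02001a550000b2a30014641000f0008002800200120008890003)))))) 
(.nd (nat_lit 8) (.nd (nat_lit 9) 
(.lf (nat_lit 1677820034) (dlOf (nat_lit 1) (nat_lit 0xcc00400140008090102))) 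
(.lf (nat_lit 3355547266) (dlOf (nat_lit 1) (nat_lit 0x200280a9d81)))) (.nd (nat_lit 9) 
(.nd (nat_lit 11) (.lf (nat_lit 61441410) (dlOf (nat_lit 1) (nat_lit 0x8008000400200020009923583))) 
(.lf (nat_lit 134323586) (dlOf (nat_lit 1) (nat_lit 0x2c0040114001800c902)))) 
(.lf (nat_lit 1073842050) (dlOf (nat_lit 1) (nat_lit 0x1c00200060008004182)))))) (.nd (nat_lit 7) 
(.nd (nat_lit 9) (.nd (nat_lit 31) (.nd (nat_lit 12) 
(.lf (nat_lit 2013364226) (dlOf (nat_lit 1) (nat_lit 0x2000200100008020002))) 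
(.lf (nat_lit 1342279682) (dlOf (nat_lit 1) (nat_lit 0x20028007a81)))) (.nd (nat_lit 19) 
(.lf (nat_lit 3490807810) (dlOf (nat_lit 2) (nat_lit 0x630ab8000000801a0008005000200bc0008020003))) 
(.lf (nat_lit 3492380674) (dlOf (nat_lit 2) (nat_lit 0x1c4157000000180c0000))))) (.nd (nat_lit 8) 
(.lf (nat_lit 2416017922) (dlOf (nat_lit 1) (nat_lit 0x1c0018017f81))) 
(.lf (nat_lit 3087107842) (dlOf (nat_lit 1) (nat_lit 0x20008143b81))))) (.nd (nat_lit 9) 
(.nd (nat_lit 8) (.lf (nat_lit 805404802) (dlOf (nat_lit 1) (nat_lit 0xcc00400140008090102))) 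
(.lf (nat_lit 402751874) (dlOf (nat_lit 1) (nat_lit 0x8400200240008091002)))) (.nd (nat_lit 26) 
(.nd (nat_lit 27) (.lf (nat_lit 6174116738) (dlOf (nat_lit 1) (nat_lit 0x40028055c01))) 
(.lf (nat_lit 5234592642) (dlOf (nat_lit 1) (nat_lit 0x400400020008055c02)))) 
(.lf (nat_lit 5704354690) (dlOf (nat_lit 1) (nat_lit 0x400400020008055c02))))))) (.nd (nat_lit 30) 
(.nd (nat_lit 29) (.nd (nat_lit 20) (.nd (nat_lit 21) (.nd (nat_lit 7) 
(.lf (nat_lit 2617606146) (dlOf (nat_lit 5) (nat_lit 0x4e02c0047081005b0150023680801280b800e2a0402ac05e0069c02000c0028100001))) 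
(.lf (nat_lit 8750978) (dlOf (nat_lit 1) (nat_lit 0x20028514181)))) (.nd (nat_lit 23) 
(.lf (nat_lit 2457602) (dlOf (nat_lit 1) (nat_lit 0x320028160001))) 
(.lf (nat_lit 10846210) (dlOf (nat_lit 1) (nat_lit 0x100028630001))))) (.nd (nat_lit 9) 
(.nd (nat_lit 19) (.nd (nat_lit 22) 
(.lf (nat_lit 471171074) (dlOf (nat_lit 1) (nat_lit 0x3a000800b8002000800082a0003))) 
(.lf (nat_lit 5603330) (dlOf (nat_lit 1) (nat_lit 0x5e00083b0001)))) 
(.lf (nat_lit 12419074) (dlOf (nat_lit 1) (nat_lit 0xc0004025200086c0002)))) (.nd (nat_lit 7) 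
(.lf (nat_lit 8229378) (dlOf (nat_lit 1) (nat_lit 0xa0028518681))) 
(.lf (nat_lit 20286338) (dlOf (nat_lit 1) (nat_lit 0x4002000200089d5c02)))))) (.nd (nat_lit 26) 
(.nd (nat_lit 28) (.nd (nat_lit 19) 
(.lf (nat_lit 537231362) (dlOf (nat_lit 3) (nat_lit 0x403f0031f01000801f8018bc080048008003800200180008060003))) 
(.lf (nat_lit 537755650) (dlOf (nat_lit 2) (nat_lit 0x880900165e04004400400300008160002)))) 
(.nd (nat_lit 27) (.lf (nat_lit 5100634114) (dlOf (nat_lit 1) (nat_lit 0x20028110001))) 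
(.lf (nat_lit 5234851842) (dlOf (nat_lit 1) (nat_lit 0x18008002000200280008100003))))) 
(.nd (nat_lit 27) 
(.lf (nat_lit 604340226) (dlOf (nat_lit 2) (nat_lit 0x4001c00000040018004000a0008180002))) 
(.lf (nat_lit 738557954) (dlOf (nat_lit 1) (nat_lit 0x8004003200080b0002)))))) (.nd (nat_lit 26) 
(.nd (nat_lit 27) (.nd (nat_lit 28) (.nd (nat_lit 7) (.nd (nat_lit 29) 
(.lf (nat_lit 3221585922) (dlOf (nat_lit 5) (nat_lit 0x138118000a004009c08c0004002004e0460001e0100420230000000800180080038002009c0008150003))) 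
(.lf (nat_lit 1610973186) (dlOf (nat_lit 1) (nat_lit 0x8004003200080b0002)))) 
(.lf (nat_lit 1074102402) (dlOf (nat_lit 1) (nat_lit 0x20008090101)))) (.nd (nat_lit 19) 
(.lf (nat_lit 3494215682) (dlOf (nat_lit 2) (nat_lit 0x2054001a029800d014001d0a0c0044002000400081d0002))) 
(.lf (nat_lit 1346207746) (dlOf (nat_lit 1) (nat_lit 0x4c004002c0008e60002))))) (.nd (nat_lit 7) 
(.nd (nat_lit 28) 
(.lf (nat_lit 3355803650) (dlOf (nat_lit 5) (nat_lit 0x1301780360c0801280b401afc040094062000e0120065f8200c8019001380480185608000400400300018120002))) 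
(.lf (nat_lit 1476755458) (dlOf (nat_lit 2) (nat_lit 0x4001c00000040018004000a0008180002)))) 
(.lf (nat_lit 1208320130) (dlOf (nat_lit 1) (nat_lit 0x200180c0e81))))) (.nd (nat_lit 7) 
(.nd (nat_lit 19) (.nd (nat_lit 27) 
(.lf (nat_lit 1409646594) (dlOf (nat_lit 3) (nat_lit 0x403f005e981000801f802f10080048008003800200180008060003))) 
(.lf (nat_lit 3959783426) (dlOf (nat_lit 5) (nat_lit 0x138118000a004009c08c0004c02004e046000200100420230000000800180080038002009c0008150003)))) 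
(.nd (nat_lit 8) 
(.lf (nat_lit 1410170882) (dlOf (nat_lit 2) (nat_lit 0x8809000b3404004400400300008160002))) 
(.lf (nat_lit 4095575298) (dlOf (nat_lit 1) (nat_lit 0x600180e2f01))))) (.nd (nat_lit 27) 
(.lf (nat_lit 1946517634) (dlOf (nat_lit 1) (nat_lit 0x20008090101))) 
(.lf (nat_lit 2080735362) (dlOf (nat_lit 1) (nat_lit 0x800800c4002002e00080c0e03)))))))))) 
(.nd (nat_lit 16) (.nd (nat_lit 15) (.nd (nat_lit 19) (.nd (nat_lit 31) (.nd (nat_lit 18) 
(.nd (nat_lit 9) (.nd (nat_lit 21) (.nd (nat_lit 8) (.nd (nat_lit 10) (.nd (nat_lit 22) 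
(.lf (nat_lit 1343225890) (dlOf (nat_lit 1) (nat_lit 0xe00281b0701))) 
(.lf (nat_lit 13631522) (dlOf (nat_lit 1) (nat_lit 0x20018730901)))) 
(.lf (nat_lit 603984930) (dlOf (nat_lit 1) (nat_lit 0xa80008009201)))) (.nd (nat_lit 26) 
(.lf (nat_lit 536877346) (dlOf (nat_lit 1) (nat_lit 0x40040002000800ab82))) 
(.lf (nat_lit 469768482) (dlOf (nat_lit 1) (nat_lit 0x40040002000800ab82))))) (.nd (nat_lit 23) 
(.nd (nat_lit 26) 
(.lf (nat_lit 1344274466) (dlOf (nat_lit 4) (nat_lit 0x1a092000100100080490000740800082480003804001400400140008560182))) 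
(.lf (nat_lit 471859234) (dlOf (nat_lit 4) (nat_lit 0x1a092000100100080490000740800082480003804001400400140008540182)))) 
(.nd (nat_lit 22) (.lf (nat_lit 10485794) (dlOf (nat_lit 1) (nat_lit 0x80080004002000200085e0c03))) 
(.lf (nat_lit 14680098) (dlOf (nat_lit 3) (nat_lit 0x38000000160400640000000a0200500018770181)))))) 
(.nd (nat_lit 10) (.nd (nat_lit 7) (.nd (nat_lit 20) 
(.lf (nat_lit 67109410) (dlOf (nat_lit 1) (nat_lit 0x400400020008001482))) 
(.lf (nat_lit 40895010) (dlOf (nat_lit 1) (nat_lit 0x120029208701)))) 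
(.lf (nat_lit 51382946) (dlOf (nat_lit 2) (nat_lit 0xe6750000dc0800c0008009000200080009515603)))) 
(.nd (nat_lit 8) 
(.lf (nat_lit 1342180898) (dlOf (nat_lit 1) (nat_lit 0x8008000400200020008007183))) 
(.lf (nat_lit 603985698) (dlOf (nat_lit 1) (nat_lit 0x6001800a001)))))) (.nd (nat_lit 20) 
(.nd (nat_lit 26) (.nd (nat_lit 7) (.nd (nat_lit 22) 
(.lf (nat_lit 134479906) (dlOf (nat_lit 2) (nat_lit 0x11025000058080020008000800200060008030983))) 
(.lf (nat_lit 63176738) (dlOf (nat_lit 1) (nat_lit 0x4004000200099f0702)))) 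
(.lf (nat_lit 1208221858) (dlOf (nat_lit 1) (nat_lit 0xc8008004c002002e00080a2b83)))) 
(.nd (nat_lit 27) (.lf (nat_lit 67371042) (dlOf (nat_lit 1) (nat_lit 0x80080004002000200080f0183))) 
(.lf (nat_lit 201588770) (dlOf (nat_lit 2) (nat_lit 0x11025000058080020008000800200060008030983))))) 
(.nd (nat_lit 7) (.nd (nat_lit 23) 
(.lf (nat_lit 1343488034) (dlOf (nat_lit 1) (nat_lit 0x78002002a0008260682))) 
(.lf (nat_lit 26476578) (dlOf (nat_lit 1) (nat_lit 0x20008c50181)))) 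
(.lf (nat_lit 20190882) (dlOf (nat_lit 1) (nat_lit 0x100080010002000400089d9f83)))))) 
(.nd (nat_lit 30) (.nd (nat_lit 9) (.nd (nat_lit 8) (.nd (nat_lit 26) 
(.lf (nat_lit 2953052194) (dlOf (nat_lit 1) (nat_lit 0x70008027c002002000080e0683))) 
(.lf (nat_lit 2214854690) (dlOf (nat_lit 1) (nat_lit 0x20004000800080d0582)))) (.nd (nat_lit 7) 
(.lf (nat_lit 2348816674) (dlOf (nat_lit 1) (nat_lit 0x40040098000800ab82))) 
(.lf (nat_lit 2550139298) (dlOf (nat_lit 1) (nat_lit 0x520018004e81))))) (.nd (nat_lit 29) 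
(.nd (nat_lit 26) 
(.lf (nat_lit 2281701922) (dlOf (nat_lit 1) (nat_lit 0x8008001c00200060008001483))) 
(.lf (nat_lit 2214593058) (dlOf (nat_lit 1) (nat_lit 0x400400020008001482)))) (.nd (nat_lit 8) 
(.lf (nat_lit 2684355106) (dlOf (nat_lit 1) (nat_lit 0x80080040002000c0008001483))) 
(.lf (nat_lit 2952795938) (dlOf (nat_lit 1) (nat_lit 0x44001800a001)))))) (.nd (nat_lit 10) 
(.nd (nat_lit 18) (.nd (nat_lit 7) 
(.lf (nat_lit 3623885090) (dlOf (nat_lit 1) (nat_lit 0x40040002000800ab82))) 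
(.lf (nat_lit 3490709922) (dlOf (nat_lit 2) (nat_lit 0x40d2000206400120120000001800f00080004002000c0008016b83)))) 
(.nd (nat_lit 8) 
(.lf (nat_lit 3288596514) (dlOf (nat_lit 4) (nat_lit 0x3006c00de6020018036006f201000c01b00378c080030008003400200300008090003))) 
(.lf (nat_lit 3490971938) (dlOf (nat_lit 3) (nat_lit 0x780d70001054001280140148e0c0090180003000700516828047800))))) 
(.nd (nat_lit 7) (.nd (nat_lit 8) 
(.lf (nat_lit 4227862050) (dlOf (nat_lit 1) (nat_lit 0x400400020008007182))) 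
(.lf (nat_lit 3422557474) (dlOf (nat_lit 1) (nat_lit 0x400400020018009782)))) (.nd (nat_lit 11) 
(.lf (nat_lit 3690993058) (dlOf (nat_lit 1) (nat_lit 0x800400020008009902))) 
(.lf (nat_lit 3489668514) (dlOf (nat_lit 3) (nat_lit 0x1441e003c20b00050f98001d818012082c000000400d00040046000800cb02)))))))) 
(.nd (nat_lit 21) (.nd (nat_lit 26) (.nd (nat_lit 20) (.nd (nat_lit 22) (.nd (nat_lit 18) 
(.nd (nat_lit 27) 
(.lf (nat_lit 1611137058) (dlOf (nat_lit 20) (nat_lit 0x42009e020c04100e802000a600e001f8060020e01f00ff00d001b0034000ac2001a80a6005c04f000201a80240084000a210025c0a6022c04f000250200c30298069813c021c06a01ac021008f00e80720000000801800840a60008021000100e800680000007e1005240a6000804f00ed01a80aa8084033803a039c0000001f060110029806b80d4041c042017601d002e0000000e028065014c009406a01ec021007a00e8000d420021015803f009e0298042009d020007a00e4039803e020400900450008000c840068813c05c0084015c040013601c800080a8029003e00760010001887015602780a88108030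8072000203004e801500eb80a404f803e02f601a024d00480ce800405e80000002f1600ce04f00e4021003900e4000406009b802a00a500d00e9802401080000002e10011a05100d1028003600cc01440640098020007900e0007806c0003e1c01ac0a20012050011802780a20108024c082017004000fd01c817100a8020005201b001f000400d80928068031401c0140009001e00080005878038013c03c408400f2040008101c821680a8011003e007001a009b004802c80040002824022c0a2004e050000402300528108016008200a2033001f01900560080000242003ec08401c4041003b00080004418001014003740820008032000080300080320033014402500a001680420017020002d00cc02800540124020002200d800000482528008129c002099600080f0b83))) 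
(.lf (nat_lit 2819096610) (dlOf (nat_lit 2) (nat_lit 0x8c0690019033800f00fc0016a0c000c004000200081a0602)))) 
(.lf (nat_lit 2819358754) (dlOf (nat_lit 3) (nat_lit 0x2206f0003301000d0378001900800580080068002002c0008250683)))) 
(.nd (nat_lit 25) (.lf (nat_lit 21495842) (dlOf (nat_lit 1) (nat_lit 0x20018a40181))) 
(.lf (nat_lit 55050274) (dlOf (nat_lit 1) (nat_lit 0x150008003400200320009690183))))) 
(.nd (nat_lit 7) (.nd (nat_lit 22) 
(.lf (nat_lit 9961506) (dlOf (nat_lit 3) (nat_lit 0x992da00051020002000000050185a0b80))) 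
(.lf (nat_lit 5767202) (dlOf (nat_lit 1) (nat_lit 0x4004000200083d0682)))) 
(.lf (nat_lit 43516066) (dlOf (nat_lit 1) (nat_lit 0x8004000800092a0582))))) (.nd (nat_lit 10) 
(.nd (nat_lit 18) (.nd (nat_lit 30) 
(.lf (nat_lit 738721826) (dlOf (nat_lit 20) (nat_lit 0x42009e020c04100e802000a600e001f8060020e01f00ff00d001b0034000ac2001a80a6005c04f000201a80240084000a210025c0a6022c04f000250200c30298069813c021c06a01ac021008f00e80720000000801800840a60008021000100e800680000007e1005240a6000804f00ed01a80aa8084033803a039c0000001f060110029806b80d4041c042017601d002e0000000e028065014c009406a01ec021007a00e8000d420021015803f009e0298042009d020007a00e4039803e020400900450008000c840068813c05c0084015c040013601c800080a8029003e00760010001887015602780a881080308072000203004e801500eb80a404f803e02f601a024d00480ce800405e80000002f1600ce04f00e4021003900e4000406009b802a00a500d00e9802401080000002e10011a05100d1028003600cc01440640098020007900e0007806c0003e1c01ac0a20012050011802780a20108024c082017004000fd01c817100a8020005201b001f000400d80928068031401c0140009001e00080005878038013c03c408400f2040008101c821680a8011003e007001a009b004802c80040002824022c0a2004e050000402300528108016008200a2033001f01900560080000242003ec08401c4041003b00080004418001014003740820008032000080300080320033014402500a001680420017020002d00cc02800540124020002200d800000482528008129c002099600080f0b83)))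 
(.lf (nat_lit 3959947298) (dlOf (nat_lit 1) (nat_lit 0x20018170001)))) 
(.lf (nat_lit 471597090) (dlOf (nat_lit 1) (nat_lit 0x400400020008350702)))) (.nd (nat_lit 7) 
(.lf (nat_lit 67900706) (dlOf (nat_lit 2) (nat_lit 0x85300006404000400200020008339782))) 
(.nd (nat_lit 27) (.lf (nat_lit 4362866338) (dlOf (nat_lit 1) (nat_lit 0x800200040008117202))) 
(.lf (nat_lit 202116770) (dlOf (nat_lit 1) (nat_lit 0x14400080f7201))))))) (.nd (nat_lit 7) 
(.nd (nat_lit 20) (.nd (nat_lit 22) 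
(.lf (nat_lit 1009254434) (dlOf (nat_lit 2) (nat_lit 0x48074000000190c0180))) (.nd (nat_lit 25) 
(.lf (nat_lit 15204386) (dlOf (nat_lit 1) (nat_lit 0x200287c0601))) 
(.lf (nat_lit 48758818) (dlOf (nat_lit 3) (nat_lit 0x1b868002db1200043040027d5c0001f019420180))))) 
(.nd (nat_lit 18) (.nd (nat_lit 22) 
(.lf (nat_lit 45613090) (dlOf (nat_lit 2) (nat_lit 0x2e1890002a819340180))) 
(.lf (nat_lit 16252962) (dlOf (nat_lit 1) (nat_lit 0x10008000400200020008880503)))) 
(.lf (nat_lit 45875234) (dlOf (nat_lit 2) (nat_lit 0x2487e0001f019360180))))) (.nd (nat_lit 8) 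
(.nd (nat_lit 18) (.lf (nat_lit 62391458) (dlOf (nat_lit 1) (nat_lit 0x200199a2b81))) 
(.lf (nat_lit 69993634) (dlOf (nat_lit 1) (nat_lit 0x20028e62b81)))) (.nd (nat_lit 10) 
(.lf (nat_lit 8130978) (dlOf (nat_lit 1) (nat_lit 0x180028518381))) (.nd (nat_lit 11) 
(.lf (nat_lit 8127906) (dlOf (nat_lit 1) (nat_lit 0x400200020008513602))) 
(.lf (nat_lit 19668386) (dlOf (nat_lit 1) (nat_lit 0x18004000a00089dcb02))))))))) (.nd (nat_lit 18) 
(.nd (nat_lit 27) (.nd (nat_lit 19) (.nd (nat_lit 7) (.nd (nat_lit 21) (.nd (nat_lit 9) 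
(.lf (nat_lit 3493888034) (dlOf (nat_lit 3) (nat_lit 0x92138003e68100211178000000800180080034002001000081b0003))) 
(.lf (nat_lit 8422946) (dlOf (nat_lit 2) (nat_lit 0x105e00006c04000400400020008513702)))) 
(.nd (nat_lit 22) (.lf (nat_lit 10518562) (dlOf (nat_lit 1) (nat_lit 0xa0002002e00085e0c02))) 
(.lf (nat_lit 14712866) (dlOf (nat_lit 4) (nat_lit 0x1acb8001a00000005820001b2e0016800000014080006cb80029384000200000000018014000800a8002002c0008770183))))) 
(.nd (nat_lit 8) (.lf (nat_lit 18907298) (dlOf (nat_lit 1) (nat_lit 0x400200020008970482))) 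
(.nd (nat_lit 10) 
(.lf (nat_lit 5368744354) (dlOf (nat_lit 2) (nat_lit 0x7804c019d804003800400140008004e82))) 
(.lf (nat_lit 40354) (dlOf (nat_lit 1) (nat_lit 0x6002800cb01)))))) (.nd (nat_lit 26) 
(.nd (nat_lit 20) (.nd (nat_lit 9) 
(.lf (nat_lit 4751394) (dlOf (nat_lit 1) (nat_lit 0x800082b0181))) 
(.lf (nat_lit 50889250) (dlOf (nat_lit 1) (nat_lit 0x3e00194d8701)))) (.nd (nat_lit 21) 
(.lf (nat_lit 9994274) (dlOf (nat_lit 2) (nat_lit 0x9fa290000f8185a0b80))) 
(.lf (nat_lit 3493363746) (dlOf (nat_lit 4) (nat_lit 0x40670001481000c033800681040058044002801b0001384000200d8000580802c80080040002003e0008120983))))) 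
(.nd (nat_lit 29) (.nd (nat_lit 31) 
(.lf (nat_lit 1409843234) (dlOf (nat_lit 1) (nat_lit 0x280008000400200560008090003))) 
(.lf (nat_lit 3557326882) (dlOf (nat_lit 20) (nat_lit 0x27807e000e702007003f0007301067501f800394080d800fc001c80405f807e000e30202c603f000710100cf01f80038408002807000148040018038000a102007203f0000681001a01f80002c080e280fc0001404005007e00009020084072004b01f8000201007701c8098c07e00005040002072001501f8000101004301c8000040404880e40000102000c049000d01f80008084000000c02f4004031600181c0602)))) 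
(.nd (nat_lit 20) 
(.lf (nat_lit 1946714146) (dlOf (nat_lit 2) (nat_lit 0x17800002fc4040110002001600081b0002))) 
(.lf (nat_lit 2755166242) (dlOf (nat_lit 4) (nat_lit 0x40670001481000c033800681040058044002801b0001384000200d8000580802c80080040002003e0008120983))))))) 
(.nd (nat_lit 10) (.nd (nat_lit 19) (.nd (nat_lit 7) (.nd (nat_lit 9) 
(.lf (nat_lit 470843426) (dlOf (nat_lit 2) (nat_lit 0xe04c0003740800d800800f4002008800081c0603))) 
(.lf (nat_lit 201366050) (dlOf (nat_lit 1) (nat_lit 0x14000800b281)))) 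
(.lf (nat_lit 134257570) (dlOf (nat_lit 1) (nat_lit 0x78001800bc81)))) (.nd (nat_lit 26) 
(.nd (nat_lit 28) 
(.lf (nat_lit 2819129378) (dlOf (nat_lit 2) (nat_lit 0x23206a015e0348002d4100300008003400200b400081a0603))) 
(.lf (nat_lit 3624435746) (dlOf (nat_lit 2) (nat_lit 0x440800000002000c00081a0501)))) 
(.nd (nat_lit 22) 
(.lf (nat_lit 2886238242) (dlOf (nat_lit 2) (nat_lit 0x440800000002000c00081a0501))) 
(.lf (nat_lit 474513442) (dlOf (nat_lit 2) (nat_lit 0x209d8000f80800080080004002000600091a0183)))))) 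
(.nd (nat_lit 7) (.nd (nat_lit 26) (.nd (nat_lit 28) 
(.lf (nat_lit 6039835938) (dlOf (nat_lit 4) (nat_lit 0xb01a800600d000380000001e06000a035000601a000300000002e0c001006a00080340003016800480000000010002800400120008009782))) 
(.lf (nat_lit 4160787746) (dlOf (nat_lit 5) (nat_lit 0x1c028001a0050000d02000f00a000b00140003008000c02800100040000a02000400a000500100002208003c00400520018009782)))) 
(.lf (nat_lit 3422590242) (dlOf (nat_lit 9) (nat_lit 0x6803800280000003104001600e00060000000bc100080038003c0000002e04002400e00100000000b410008003800280000000604000400e0004000000014100078038002c0000000204000400e000300000000010004800800ac00200300008009783)))) 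
(.nd (nat_lit 9) (.nd (nat_lit 8) 
(.lf (nat_lit 671124642) (dlOf (nat_lit 3) (nat_lit 0x300a000048040014050000220200100028006281))) 
(.lf (nat_lit 6106940834) (dlOf (nat_lit 2) (nat_lit 0x8058000802a000a0140005e838003600)))) 
(.nd (nat_lit 11) 
(.lf (nat_lit 2348844706) (dlOf (nat_lit 2) (nat_lit 0x2014000000080048008001c00200300008003a83))) 
(.lf (nat_lit 671125154) (dlOf (nat_lit 1) (nat_lit 0x14002000c0008007202)))))))) (.nd (nat_lit 21) 
(.nd (nat_lit 26) (.nd (nat_lit 20) (.nd (nat_lit 9) (.nd (nat_lit 27) 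
(.lf (nat_lit 6711181346) (dlOf (nat_lit 1) (nat_lit 0x8004000200080a0782))) 
(.lf (nat_lit 3355738146) (dlOf (nat_lit 1) (nat_lit 0x10004000800180e0702)))) 
(.lf (nat_lit 3221520930) (dlOf (nat_lit 1) (nat_lit 0x20018127f01)))) (.nd (nat_lit 8) 
(.nd (nat_lit 22) (.lf (nat_lit 26509346) (dlOf (nat_lit 1) (nat_lit 0x20018c50181))) 
(.lf (nat_lit 47480866) (dlOf (nat_lit 2) (nat_lit 0x25826000000200040019400001)))) 
(.lf (nat_lit 3491004706) (dlOf (nat_lit 4) (nat_lit 0x100110029480801f00740148e04002003a00a3d02000a0028047801))))) 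
(.nd (nat_lit 8) (.nd (nat_lit 9) (.nd (nat_lit 19) 
(.lf (nat_lit 3020193826) (dlOf (nat_lit 1) (nat_lit 0x3000200160008150182))) 
(.lf (nat_lit 4095508514) (dlOf (nat_lit 1) (nat_lit 0x800800c8002003c00080d0483)))) 
(.lf (nat_lit 5838766626) (dlOf (nat_lit 1) (nat_lit 0x8008000c002000c00081b0d83)))) 
(.nd (nat_lit 28) (.lf (nat_lit 6509855010) (dlOf (nat_lit 1) (nat_lit 0x20018154301))) 
(.lf (nat_lit 1409581346) (dlOf (nat_lit 4) (nat_lit 0x805f0054f01001b02f8028d408010017c0145604005800400040008047802)))))) 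
(.nd (nat_lit 20) (.nd (nat_lit 7) (.nd (nat_lit 9) (.nd (nat_lit 22) 
(.lf (nat_lit 10780706) (dlOf (nat_lit 1) (nat_lit 0xc00400060008620502))) 
(.lf (nat_lit 14975010) (dlOf (nat_lit 2) (nat_lit 0x2000000008040050002001600087a0602)))) 
(.lf (nat_lit 23364130) (dlOf (nat_lit 1) (nat_lit 0x400400020008b80d82)))) (.nd (nat_lit 8) 
(.lf (nat_lit 36473506) (dlOf (nat_lit 1) (nat_lit 0x20019075601))) 
(.lf (nat_lit 23364002) (dlOf (nat_lit 4) (nat_lit 0x16000000e880400680000073a02004e0000039c818b80780))))) 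
(.nd (nat_lit 7) (.nd (nat_lit 23) (.nd (nat_lit 24) 
(.lf (nat_lit 8159266) (dlOf (nat_lit 1) (nat_lit 0x40008510001))) 
(.lf (nat_lit 24936482) (dlOf (nat_lit 1) (nat_lit 0x400200040008bd0b82)))) (.nd (nat_lit 22) 
(.lf (nat_lit 45908002) (dlOf (nat_lit 2) (nat_lit 0x5831200420400001f029360180))) 
(.lf (nat_lit 16547874) (dlOf (nat_lit 1) (nat_lit 0x1a00288b0681))))) (.nd (nat_lit 8) 
(.lf (nat_lit 58493602) (dlOf (nat_lit 1) (nat_lit 0x20008000c002000200097e5603))) 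
(.lf (nat_lit 8160674) (dlOf (nat_lit 1) (nat_lit 0x400200020008513602))))))))) (.nd (nat_lit 15) 
(.nd (nat_lit 18) (.nd (nat_lit 19) (.nd (nat_lit 28) (.nd (nat_lit 7) (.nd (nat_lit 8) 
(.nd (nat_lit 20) (.nd (nat_lit 21) 
(.lf (nat_lit 29425698) (dlOf (nat_lit 1) (nat_lit 0x400400020008e00682))) 
(.lf (nat_lit 27328546) (dlOf (nat_lit 1) (nat_lit 0x400400020018cd0682)))) 
(.lf (nat_lit 26279970) (dlOf (nat_lit 3) (nat_lit 0x2a5a0001001000c52d0000700800a0008005c00200020008c30183)))) 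
(.nd (nat_lit 20) (.lf (nat_lit 2147549474) (dlOf (nat_lit 1) (nat_lit 0x800200120008090a82))) 
(.lf (nat_lit 11600162) (dlOf (nat_lit 1) (nat_lit 0x3600286c0501))))) (.nd (nat_lit 9) 
(.nd (nat_lit 10) (.lf (nat_lit 1208027554) (dlOf (nat_lit 1) (nat_lit 0x20018094e81))) 
(.lf (nat_lit 4899014050) (dlOf (nat_lit 1) (nat_lit 0x8008000400201cc0008053603)))) 
(.nd (nat_lit 8) 
(.lf (nat_lit 2348877474) (dlOf (nat_lit 2) (nat_lit 0x260150000000803380080054002005a0008003a83))) 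
(.lf (nat_lit 3355513762) (dlOf (nat_lit 1) (nat_lit 0x8e00280a9101)))))) (.nd (nat_lit 8) 
(.nd (nat_lit 20) (.nd (nat_lit 10) 
(.lf (nat_lit 805371938) (dlOf (nat_lit 1) (nat_lit 0x20008090001))) 
(.lf (nat_lit 469832738) (dlOf (nat_lit 1) (nat_lit 0x400400020008009202)))) (.nd (nat_lit 26) 
(.lf (nat_lit 1343291426) (dlOf (nat_lit 6) (nat_lit 0x1e04c00033c08001008c001960402a0046000c9020152023000640100790118002e408017000802dc00200a600081e0603))) 
(.lf (nat_lit 470876194) (dlOf (nat_lit 1) (nat_lit 0x1180080164002009600081c0603))))) 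
(.nd (nat_lit 7) (.nd (nat_lit 20) 
(.lf (nat_lit 4563468578) (dlOf (nat_lit 1) (nat_lit 0x5c002000c0008090a82))) 
(.lf (nat_lit 6376456482) (dlOf (nat_lit 1) (nat_lit 0x800200020008090a82)))) (.nd (nat_lit 9) 
(.lf (nat_lit 5234559394) (dlOf (nat_lit 1) (nat_lit 0x400200020008054e82))) (.nd (nat_lit 26) 
(.lf (nat_lit 5234559906) (dlOf (nat_lit 1) (nat_lit 0x18800200540008055c82))) 
(.lf (nat_lit 5704321954) (dlOf (nat_lit 1) (nat_lit 0x40028055c81)))))))) (.nd (nat_lit 26) 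
(.nd (nat_lit 21) (.nd (nat_lit 9) (.nd (nat_lit 20) (.nd (nat_lit 22) 
(.lf (nat_lit 3892903970) (dlOf (nat_lit 2) (nat_lit 0x10120000480800480080040002000e0008290d03))) 
(.lf (nat_lit 21561378) (dlOf (nat_lit 1) (nat_lit 0x8008001400200040008a40183)))) 
(.lf (nat_lit 26804258) (dlOf (nat_lit 23) (nat_lit 0x66a9002f980800f37f004edb1c04e6d52003d6a88010350000ed9b40098cc9005ea8701b06fe00da37ec0005bf205fed8e021c6c6803935b810ddaa406bed51036a6a7813935000941a7e0342d3d027366d00fc336409f999204eccc80023663000325f801e12f202be977005ea1400646fe000a37ec0865b1c0038d6e02ff6a901073544087da9e0248d40000369f801234f404ed9b40244cc90115664002f3c68023b7f00491b1c04e4d52000c6a88008350000819b400b0cc9005e707005a6fe0032363806c1aa4010ed5100476a00009b4fc00799b40004cc9005e48800026fe00913638006db1a04fcd5201b06a880c2b53c0161a8000bad3f004c66d000633640311992019ecc800754bb802f20680fc3548003199200bbe04010edfc020e6c701afb5480031a80007acda01b0664802ef43010e3548006d99200bb8040026dfc00036c701283548017599200bb7080028d8e01b46a9002eb81008ab63809d9aa4019ecc9005d68300786a9002e9c0800e363801c9aa400b4904043ed8e036a6a900c2b3240168a0c0091b1c0342d520059f8200016a9002cd808011b5480166a04057daa400eacc90058d820010643002c34080083610008190c00b090400c00028c70701))))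 
(.lf (nat_lit 50922018) (dlOf (nat_lit 1) (nat_lit 0x88002003200094d8702)))) (.nd (nat_lit 7) 
(.nd (nat_lit 8) (.lf (nat_lit 2687010) (dlOf (nat_lit 2) (nat_lit 0x194b8000470200260028190a81))) 
(.lf (nat_lit 7934242) (dlOf (nat_lit 1) (nat_lit 0x2c0028518081)))) (.nd (nat_lit 10) 
(.lf (nat_lit 7930018) (dlOf (nat_lit 1) (nat_lit 0x2800400040018510582))) 
(.lf (nat_lit 61408418) (dlOf (nat_lit 1) (nat_lit 0x20019922b81)))))) (.nd (nat_lit 29) 
(.nd (nat_lit 20) (.nd (nat_lit 22) 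
(.lf (nat_lit 3557359650) (dlOf (nat_lit 2) (nat_lit 0x22401840f5c0c0030a05d000602c0003942006480080264002005a00081c0603))) 
(.lf (nat_lit 474546210) (dlOf (nat_lit 2) (nat_lit 0x2f82140007c040040004001200091a0182)))) 
(.lf (nat_lit 471400482) (dlOf (nat_lit 1) (nat_lit 0x800182f0d01)))) (.nd (nat_lit 9) 
(.nd (nat_lit 27) 
(.lf (nat_lit 1678311458) (dlOf (nat_lit 1) (nat_lit 0x100080004002000400081e0a83))) 
(.lf (nat_lit 6375931938) (dlOf (nat_lit 1) (nat_lit 0x400200020008010782)))) 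
(.lf (nat_lit 1008271906) (dlOf (nat_lit 2) (nat_lit 0x837c0086604003800400040008b18702))))))) 
(.nd (nat_lit 19) (.nd (nat_lit 7) (.nd (nat_lit 31) (.nd (nat_lit 21) (.nd (nat_lit 20) 
(.nd (nat_lit 26) (.lf (nat_lit 134545442) (dlOf (nat_lit 1) (nat_lit 0x100008070681))) 
(.lf (nat_lit 201654306) (dlOf (nat_lit 1) (nat_lit 0x100008070681)))) 
(.lf (nat_lit 30736418) (dlOf (nat_lit 1) (nat_lit 0x10008000c00200020008e40d03)))) 
(.nd (nat_lit 9) (.lf (nat_lit 15007778) (dlOf (nat_lit 2) (nat_lit 0xc0000000402000200087a0601))) 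
(.lf (nat_lit 23396898) (dlOf (nat_lit 9) (nat_lit 0x22e645403b3222056186f001bc358005b020294e45813cf0e00014f0400a19160002c380003e810061e458098f0e0000f804005d9160007b810184c8b0003d40820ae4540a430de000030408a791502b4c3780000410051800802c400200140008b80d83))))) 
(.nd (nat_lit 26) (.nd (nat_lit 28) 
(.lf (nat_lit 3758424098) (dlOf (nat_lit 4) (nat_lit 0x364054001e023005ea0200070150001808c0179e08006c0540022023005e4028190700))) 
(.lf (nat_lit 4026859554) (dlOf (nat_lit 2) (nat_lit 0xce02e007c88180a0900)))) (.nd (nat_lit 27) 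
(.nd (nat_lit 28) (.lf (nat_lit 3288662050) (dlOf (nat_lit 2) (nat_lit 0xce02e007c10180a0900))) 
(.lf (nat_lit 3020226594) (dlOf (nat_lit 1) (nat_lit 0x80008190701)))) 
(.lf (nat_lit 3154444322) (dlOf (nat_lit 2) (nat_lit 0x10016800016040034004001600181a0182)))))) 
(.nd (nat_lit 8) (.nd (nat_lit 9) (.nd (nat_lit 26) 
(.lf (nat_lit 402981026) (dlOf (nat_lit 1) (nat_lit 0x200080c1381))) 
(.lf (nat_lit 335872162) (dlOf (nat_lit 1) (nat_lit 0x8004000600180c1402)))) 
(.lf (nat_lit 20256418) (dlOf (nat_lit 1) (nat_lit 0x10002000a00089d9f82)))) (.nd (nat_lit 21) 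
(.lf (nat_lit 21299618) (dlOf (nat_lit 1) (nat_lit 0x10008000400200020008a36b83))) 
(.lf (nat_lit 23396770) (dlOf (nat_lit 5) (nat_lit 0x10ece2005b6484048b226024391100b5c3a807c61b404430d601ad3fe010a8da8063c6b000ae354001115800ac000001d10680866710045b226023591100fbc368086e1ac005e358007430c012b9c40120c898090644403db0da022186b00308d6001446a802c00000073a1002199c40111c898086644403ff0da021d86b0048000001ce43015b0008027c00202660008b80783)))))) 
(.nd (nat_lit 20) (.nd (nat_lit 10) (.nd (nat_lit 26) (.nd (nat_lit 22) 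
(.lf (nat_lit 59572258) (dlOf (nat_lit 6) (nat_lit 0x4a1fc003d016002e80a003b3a080005820052a1fc02a10160001104002a80b0000801001143f800b202c0000608003d016000020200200019810701))) 
(.lf (nat_lit 5046306) (dlOf (nat_lit 1) (nat_lit 0x380080018002000a0008300603)))) 
(.nd (nat_lit 21) 
(.lf (nat_lit 3557621794) (dlOf (nat_lit 1) (nat_lit 0x8008000400200020008280503))) 
(.lf (nat_lit 4096589858) (dlOf (nat_lit 1) (nat_lit 0x250008000400200480008130803))))) 
(.nd (nat_lit 7) (.lf (nat_lit 36504610) (dlOf (nat_lit 1) (nat_lit 0x20019072881))) 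
(.lf (nat_lit 537726626) (dlOf (nat_lit 1) (nat_lit 0x80080004002000200080f7203))))) 
(.nd (nat_lit 7) (.nd (nat_lit 23) (.nd (nat_lit 24) (.nd (nat_lit 26) 
(.lf (nat_lit 3491561506) (dlOf (nat_lit 1) (nat_lit 0x20008090001))) 
(.lf (nat_lit 4095541282) (dlOf (nat_lit 1) (nat_lit 0x600180d0481)))) 
(.lf (nat_lit 18677794) (dlOf (nat_lit 1) (nat_lit 0xc00400020018960682)))) (.nd (nat_lit 24) 
(.lf (nat_lit 10289186) (dlOf (nat_lit 1) (nat_lit 0x4002000200085c0982))) 
(.lf (nat_lit 27066402) (dlOf (nat_lit 2) (nat_lit 0x12c5cd0001ca040008004000c0008ca0602))))) 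
(.nd (nat_lit 10) (.lf (nat_lit 8196514) (dlOf (nat_lit 1) (nat_lit 0x800200020008518382))) 
(.lf (nat_lit 8193442) (dlOf (nat_lit 1) (nat_lit 0x400200020008513602)))))))) (.nd (nat_lit 19) 
(.nd (nat_lit 18) (.nd (nat_lit 32) (.nd (nat_lit 21) (.nd (nat_lit 7) (.nd (nat_lit 8) 
(.lf (nat_lit 2214690850) (dlOf (nat_lit 1) (nat_lit 0x2000400080008030582))) 
(.lf (nat_lit 2147582242) (dlOf (nat_lit 2) (nat_lit 0x801a000960200160018090a81)))) 
(.nd (nat_lit 11) (.lf (nat_lit 43090082) (dlOf (nat_lit 1) (nat_lit 0x400192a0581))) 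
(.lf (nat_lit 100514) (dlOf (nat_lit 1) (nat_lit 0x20018004881))))) (.nd (nat_lit 23) 
(.nd (nat_lit 8) (.lf (nat_lit 23167010) (dlOf (nat_lit 1) (nat_lit 0x160028b60681))) 
(.lf (nat_lit 18972962) (dlOf (nat_lit 1) (nat_lit 0x400400020008970702)))) (.nd (nat_lit 20) 
(.lf (nat_lit 27361314) (dlOf (nat_lit 1) (nat_lit 0x400400040018cd0682))) 
(.lf (nat_lit 28409890) (dlOf (nat_lit 1) (nat_lit 0xc00400020018d90682)))))) (.nd (nat_lit 8) 
(.nd (nat_lit 26) (.nd (nat_lit 28) 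
(.lf (nat_lit 6576767010) (dlOf (nat_lit 3) (nat_lit 0x1801a00060000047502002000000237c0800e00080014002000800080d0a03))) 
(.lf (nat_lit 4697718818) (dlOf (nat_lit 1) (nat_lit 0x1d800400500008090002)))) (.nd (nat_lit 27) 
(.lf (nat_lit 5972787234) (dlOf (nat_lit 3) (nat_lit 0x1801a0006000006c70200200000036100800e00080014002000800080d0a03))) 
(.lf (nat_lit 6107004962) (dlOf (nat_lit 1) (nat_lit 0x800400020008010782))))) (.nd (nat_lit 10) 
(.nd (nat_lit 20) 
(.lf (nat_lit 4563501346) (dlOf (nat_lit 21) (nat_lit 0x1e80d000c8064004802f003a00f8005a42001e00d000dc064003402f003a00f8005a02001b80d000e4064007401f000b383003e01a001d00c800ac05e007401f000b304002901a000580c800ac03e00163060010031000ac01002a0190005340800800c80029804006c06400145020008032000a181000601900033c0800100c80019c0400a4068000bc02004c0320001581000c0190000a80801a80d000b0064006001f0000c03003301a001700c800b803e000170600740340036019001b007c0002c0c00fc0680074032003a00f8000541800080d0004c064000000400200018090a81)))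 
(.lf (nat_lit 6376489250) (dlOf (nat_lit 1) (nat_lit 0x40008090a81)))) 
(.lf (nat_lit 4697720098) (dlOf (nat_lit 2) (nat_lit 0x34068000150200120028093101)))))) 
(.nd (nat_lit 22) (.nd (nat_lit 26) (.nd (nat_lit 25) (.nd (nat_lit 27) 
(.lf (nat_lit 1342537762) (dlOf (nat_lit 1) (nat_lit 0x20018050c01))) 
(.lf (nat_lit 1476755490) (dlOf (nat_lit 1) (nat_lit 0x60028180701)))) 
(.lf (nat_lit 33914914) (dlOf (nat_lit 2) (nat_lit 0x573e0000c018f80700)))) (.nd (nat_lit 27) 
(.lf (nat_lit 604340258) (dlOf (nat_lit 1) (nat_lit 0x60028180701))) (.nd (nat_lit 29) 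
(.lf (nat_lit 470122530) (dlOf (nat_lit 1) (nat_lit 0x20018050c01))) 
(.lf (nat_lit 3154477090) (dlOf (nat_lit 1) (nat_lit 0xc00081a0181)))))) (.nd (nat_lit 7) 
(.nd (nat_lit 21) (.nd (nat_lit 23) 
(.lf (nat_lit 1346732066) (dlOf (nat_lit 2) (nat_lit 0x209d8000f8080008008000400200060009000183))) 
(.lf (nat_lit 12943394) (dlOf (nat_lit 1) (nat_lit 0x4002000200086f0782)))) (.nd (nat_lit 20) 
(.lf (nat_lit 15040546) (dlOf (nat_lit 1) (nat_lit 0x600287b0701))) 
(.lf (nat_lit 24477730) (dlOf (nat_lit 1) (nat_lit 0x4004003c0018ba0a02))))) (.nd (nat_lit 8) 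
(.lf (nat_lit 21332130) (dlOf (nat_lit 1) (nat_lit 0x400200020008a31402))) (.nd (nat_lit 21) 
(.lf (nat_lit 21332386) (dlOf (nat_lit 1) (nat_lit 0x560008a36b81))) 
(.lf (nat_lit 23429538) (dlOf (nat_lit 1) (nat_lit 0x400200020008b80782)))))))) (.nd (nat_lit 20) 
(.nd (nat_lit 21) (.nd (nat_lit 26) (.nd (nat_lit 22) (.nd (nat_lit 27) 
(.lf (nat_lit 805928994) (dlOf (nat_lit 1) (nat_lit 0x28002000200081f0b82))) 
(.lf (nat_lit 3892936738) (dlOf (nat_lit 7) (nat_lit 0x702a0001812800140480016022000200d800380580010028001ff0e001005400030288003013c00080940010024000601100058058002c028001fd10000602400050110007f01000500900028044001a01d000f383000a0120007980800080b0002fa04000c002003c00082a0a82)))) 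
(.lf (nat_lit 4816930) (dlOf (nat_lit 2) (nat_lit 0xd981c0088bf700294d60000741801100080024002000200082c0603)))) 
(.nd (nat_lit 28) (.lf (nat_lit 1678344226) (dlOf (nat_lit 1) (nat_lit 0x28002000200081f0b82))) 
(.lf (nat_lit 3557392418) (dlOf (nat_lit 1) (nat_lit 0x19400281e0681))))) (.nd (nat_lit 26) 
(.nd (nat_lit 22) (.nd (nat_lit 28) 
(.lf (nat_lit 2719778) (dlOf (nat_lit 1) (nat_lit 0x200081a0b81))) 
(.lf (nat_lit 3492380706) (dlOf (nat_lit 2) (nat_lit 0x30154000390180c0b00)))) 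
(.lf (nat_lit 48857122) (dlOf (nat_lit 1) (nat_lit 0x40019440181)))) (.nd (nat_lit 28) 
(.lf (nat_lit 2754183202) (dlOf (nat_lit 2) (nat_lit 0x301590007f0180c0b00))) 
(.lf (nat_lit 4096360482) (dlOf (nat_lit 1) (nat_lit 0x40028100201)))))) (.nd (nat_lit 18) 
(.nd (nat_lit 28) (.nd (nat_lit 21) (.nd (nat_lit 23) (.nd (nat_lit 25) 
(.lf (nat_lit 1671202) (dlOf (nat_lit 1) (nat_lit 0x60018110501))) 
(.lf (nat_lit 35225634) (dlOf (nat_lit 1) (nat_lit 0x20019000701)))) 
(.lf (nat_lit 26837026) (dlOf (nat_lit 1) (nat_lit 0x400200020008c80602)))) 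
(.lf (nat_lit 3768354) (dlOf (nat_lit 1) (nat_lit 0x400200020008220a02)))) (.nd (nat_lit 7) 
(.lf (nat_lit 471433250) (dlOf (nat_lit 1) (nat_lit 0xc004000600082f0d02))) 
(.lf (nat_lit 3491332514) (dlOf (nat_lit 2) (nat_lit 0x1c1e700439818090780))))) (.nd (nat_lit 21) 
(.nd (nat_lit 23) (.lf (nat_lit 3491594274) (dlOf (nat_lit 1) (nat_lit 0x400400020008090002))) 
(.lf (nat_lit 27099170) (dlOf (nat_lit 2) (nat_lit 0x3ee1e00072818ca0600)))) (.nd (nat_lit 10) 
(.lf (nat_lit 1346207778) (dlOf (nat_lit 18) (nat_lit 0x82c00bf60d9000138200020b002f383640004c0806201b2000250203600d9000118100f804b0000800801082580003c0400bc1b2000120202581560b8409d856284e405d419a01a009600d004280d501d406940e60000e10028215607f809d82d804e405b019a020609600c5042807201d402680e60000d1001de1560b4d09d809d8334025c12c012808500da03a800030300b705580f0c2760192096000058300d00ab059484ec29a8272022e0cd008504b00420214058c0ea02b4073000050801e60ab013c04ec11bc272045c0cd01bb04b00dd8214000121801c02ac00c20960014042800801d40000c1001b819a00004020074156002d04b0000081009285582e3427602f20cd00b804b006a0214047c0ea000000c008c0028e60181)))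 
(.lf (nat_lit 45976610) (dlOf (nat_lit 1) (nat_lit 0x20019386001))))))))))) (.nd (nat_lit 5) 
(.nd (nat_lit 26) (.nd (nat_lit 16) (.nd (nat_lit 8) (.nd (nat_lit 18) (.nd (nat_lit 28) 
(.nd (nat_lit 27) (.nd (nat_lit 9) (.nd (nat_lit 10) 
(.lf (nat_lit 14712898) (dlOf (nat_lit 1) (nat_lit 0x14004000c0008770582))) (.nd (nat_lit 29) 
(.lf (nat_lit 1073742914) (dlOf (nat_lit 1) (nat_lit 0x800400020008002882))) 
(.lf (nat_lit 536872002) (dlOf (nat_lit 1) (nat_lit 0x8008004400200140008002883))))) 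
(.nd (nat_lit 7) (.lf (nat_lit 6722) (dlOf (nat_lit 1) (nat_lit 0x62002800b501))) 
(.lf (nat_lit 49810114) (dlOf (nat_lit 1) (nat_lit 0x200194c5801))))) (.nd (nat_lit 30) 
(.nd (nat_lit 29) (.lf (nat_lit 4429186114) (dlOf (nat_lit 1) (nat_lit 0x800400020008002882))) 
(.lf (nat_lit 4966057026) (dlOf (nat_lit 1) (nat_lit 0x18008001400200040008002883)))) 
(.nd (nat_lit 9) 
(.lf (nat_lit 5502927938) (dlOf (nat_lit 1) (nat_lit 0x8008004400200100008002883))) 
(.lf (nat_lit 5502928450) (dlOf (nat_lit 1) (nat_lit 0x80008003801)))))) (.nd (nat_lit 10) 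
(.nd (nat_lit 15) (.nd (nat_lit 20) 
(.lf (nat_lit 805830722) (dlOf (nat_lit 1) (nat_lit 0x80080008002000200081b0e03))) 
(.lf (nat_lit 3493331010) (dlOf (nat_lit 2) (nat_lit 0x8e0680008021001d008c011403c000060800020028110781)))) 
(.nd (nat_lit 19) (.lf (nat_lit 3490742338) (dlOf (nat_lit 1) (nat_lit 0x400200180008020782))) 
(.nd (nat_lit 20) (.lf (nat_lit 3494412354) (dlOf (nat_lit 1) (nat_lit 0x20028220c01))) 
(.lf (nat_lit 3493363778) (dlOf (nat_lit 2) (nat_lit 0xf034000c81080004046000170600020028120e01)))))) 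
(.nd (nat_lit 11) (.nd (nat_lit 15) (.nd (nat_lit 29) 
(.lf (nat_lit 2415920194) (dlOf (nat_lit 1) (nat_lit 0x80080084002001a0008002883))) 
(.lf (nat_lit 4026532930) (dlOf (nat_lit 1) (nat_lit 0x10008005c00200260008002883)))) 
(.lf (nat_lit 268469314) (dlOf (nat_lit 1) (nat_lit 0x10008000400200020008052883)))) 
(.nd (nat_lit 7) (.lf (nat_lit 3489664066) (dlOf (nat_lit 1) (nat_lit 0x1e0028006081))) 
(.lf (nat_lit 939527874) (dlOf (nat_lit 2) (nat_lit 0x803e0003c02000c0018007281))))))) 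
(.nd (nat_lit 15) (.nd (nat_lit 7) (.nd (nat_lit 27) (.nd (nat_lit 19) (.nd (nat_lit 20) 
(.lf (nat_lit 1342439490) (dlOf (nat_lit 1) (nat_lit 0x20028030e01))) 
(.lf (nat_lit 1310786) (dlOf (nat_lit 1) (nat_lit 0x200280b0781)))) 
(.lf (nat_lit 2883650) (dlOf (nat_lit 1) (nat_lit 0x200181c0c01)))) (.nd (nat_lit 28) 
(.lf (nat_lit 134479938) (dlOf (nat_lit 5) (nat_lit 0xa0310001f810008018800200440000e08000c0220000602002e0310099018000080500048022000000800a60008030e01))) 
(.lf (nat_lit 402915394) (dlOf (nat_lit 1) (nat_lit 0x4004000400080a1682))))) (.nd (nat_lit 9) 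
(.nd (nat_lit 10) (.lf (nat_lit 8128706) (dlOf (nat_lit 1) (nat_lit 0x180018514981))) 
(.nd (nat_lit 11) (.lf (nat_lit 55313602) (dlOf (nat_lit 1) (nat_lit 0x34004002000096d2d02))) 
(.lf (nat_lit 3624144066) (dlOf (nat_lit 1) (nat_lit 0xa0028146381))))) (.nd (nat_lit 11) 
(.lf (nat_lit 8127170) (dlOf (nat_lit 1) (nat_lit 0x1400400020008511f02))) 
(.lf (nat_lit 2818841282) (dlOf (nat_lit 3) (nat_lit 0xa0360051a81000801100264c0801b0008004000200a6000812b983)))))) 
(.nd (nat_lit 19) (.nd (nat_lit 20) (.nd (nat_lit 27) 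
(.lf (nat_lit 1879343170) (dlOf (nat_lit 2) (nat_lit 0x80270000a00801080080090002005400080e0d03))) 
(.lf (nat_lit 1208254530) (dlOf (nat_lit 1) (nat_lit 0x4004000200080b0582)))) (.nd (nat_lit 7) 
(.lf (nat_lit 53774914) (dlOf (nat_lit 1) (nat_lit 0x4002000200095f5202))) 
(.lf (nat_lit 11829442) (dlOf (nat_lit 1) (nat_lit 0x7600086c0401))))) (.nd (nat_lit 10) 
(.nd (nat_lit 20) (.nd (nat_lit 23) 
(.lf (nat_lit 819266) (dlOf (nat_lit 3) (nat_lit 0x10a1f100820ba004a02bc0234146000060801261f100920ba00088000000000c008800400220018020782))) 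
(.lf (nat_lit 42762306) (dlOf (nat_lit 1) (nat_lit 0x400400020009280602)))) 
(.lf (nat_lit 10256450) (dlOf (nat_lit 3) (nat_lit 0x1f8c600007020029c630016deb0000001000780080028002000800085c0e03)))) 
(.nd (nat_lit 7) (.lf (nat_lit 8160834) (dlOf (nat_lit 1) (nat_lit 0x1200080040002000c0008513803))) 
(.lf (nat_lit 1880917186) (dlOf (nat_lit 1) (nat_lit 0x400200020008d12d02)))))))) (.nd (nat_lit 10) 
(.nd (nat_lit 9) (.nd (nat_lit 15) (.nd (nat_lit 18) (.nd (nat_lit 19) (.nd (nat_lit 20) 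
(.lf (nat_lit 3493855554) (dlOf (nat_lit 1) (nat_lit 0x8002000600081b0602))) 
(.lf (nat_lit 3490709826) (dlOf (nat_lit 1) (nat_lit 0x20018014c01)))) 
(.lf (nat_lit 1074266434) (dlOf (nat_lit 4) (nat_lit 0x480000002601007300000010808016000000080040018002000600081b0602)))) 
(.nd (nat_lit 19) 
(.lf (nat_lit 3494117698) (dlOf (nat_lit 3) (nat_lit 0x203200002d020062190000158181b0600))) 
(.lf (nat_lit 786754) (dlOf (nat_lit 1) (nat_lit 0xc0028014c01))))) (.nd (nat_lit 20) 
(.nd (nat_lit 19) 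
(.lf (nat_lit 3493888322) (dlOf (nat_lit 3) (nat_lit 0x320fe0018859401142b80002d0600d81fc00690ae8000ac100040008002c002001000081b0603))) 
(.lf (nat_lit 1074299202) (dlOf (nat_lit 25) (nat_lit 0xfe00f4000aa04089c07a0005402044203d0002981014601e8001480807280f4000a20409700000004c02048e0000002581025200000012808134000000092040398000000470203ec00000023010268000000114080c4000000088040050000000430204b403d02760000001081012c80f403dc000000410400e203d025c0000001001012080000007e0409a00000003e0204ce0000001e81010101e807600000007808025c000000160200100000000a01001801e8000000800280080318002000800081b0603)))) 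
(.nd (nat_lit 7) (.lf (nat_lit 24150338) (dlOf (nat_lit 1) (nat_lit 0x20028b80601))) 
(.lf (nat_lit 57967042) (dlOf (nat_lit 1) (nat_lit 0x4004000200097a7a82)))))) (.nd (nat_lit 15) 
(.nd (nat_lit 30) (.nd (nat_lit 7) 
(.lf (nat_lit 19925826) (dlOf (nat_lit 1) (nat_lit 0x4002000200089d5c02))) 
(.lf (nat_lit 402656194) (dlOf (nat_lit 1) (nat_lit 0x40018005d81)))) (.nd (nat_lit 18) 
(.lf (nat_lit 5771365314) (dlOf (nat_lit 1) (nat_lit 0x60028005d81))) 
(.lf (nat_lit 5771627458) (dlOf (nat_lit 1) (nat_lit 0x20018005d81))))) (.nd (nat_lit 12) 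
(.nd (nat_lit 18) (.nd (nat_lit 27) 
(.lf (nat_lit 1610648514) (dlOf (nat_lit 1) (nat_lit 0x720008005d81))) 
(.lf (nat_lit 4697656258) (dlOf (nat_lit 1) (nat_lit 0xc0018005d81)))) 
(.lf (nat_lit 19696578) (dlOf (nat_lit 1) (nat_lit 0x18004000400189d5d82)))) (.nd (nat_lit 7) 
(.lf (nat_lit 3490487106) (dlOf (nat_lit 1) (nat_lit 0x40040002000800bc82))) 
(.lf (nat_lit 2952827842) (dlOf (nat_lit 1) (nat_lit 0x38008001000200100008009203))))))) 
(.nd (nat_lit 27) (.nd (nat_lit 15) (.nd (nat_lit 9) (.nd (nat_lit 18) (.nd (nat_lit 29) 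
(.lf (nat_lit 5637145922) (dlOf (nat_lit 1) (nat_lit 0x8008001000200020008003303))) 
(.lf (nat_lit 6174016834) (dlOf (nat_lit 1) (nat_lit 0x400200040008003302)))) 
(.lf (nat_lit 40109378) (dlOf (nat_lit 1) (nat_lit 0x4004000200091f3302)))) (.nd (nat_lit 12) 
(.nd (nat_lit 28) (.lf (nat_lit 536872770) (dlOf (nat_lit 1) (nat_lit 0x400400040008003e02))) 
(.lf (nat_lit 4026533698) (dlOf (nat_lit 2) (nat_lit 0x806c000320200020018003e01)))) 
(.lf (nat_lit 5954) (dlOf (nat_lit 1) (nat_lit 0x1d800800080020020000800a103))))) (.nd (nat_lit 18) 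
(.nd (nat_lit 7) (.lf (nat_lit 49841474) (dlOf (nat_lit 1) (nat_lit 0x4004000200094c3302))) 
(.lf (nat_lit 268469698) (dlOf (nat_lit 1) (nat_lit 0x20028053601)))) (.nd (nat_lit 21) 
(.lf (nat_lit 296258) (dlOf (nat_lit 1) (nat_lit 0x20018003301))) 
(.lf (nat_lit 40142146) (dlOf (nat_lit 1) (nat_lit 0xa00091f3301)))))) (.nd (nat_lit 12) 
(.nd (nat_lit 7) (.nd (nat_lit 15) 
(.lf (nat_lit 5773722946) (dlOf (nat_lit 1) (nat_lit 0x200280e3301))) 
(.lf (nat_lit 5773493570) (dlOf (nat_lit 1) (nat_lit 0x4004000200080e3302)))) (.nd (nat_lit 29) 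
(.lf (nat_lit 5502928322) (dlOf (nat_lit 1) (nat_lit 0x10004000a0008003602))) 
(.lf (nat_lit 4966057410) (dlOf (nat_lit 1) (nat_lit 0x28008000400200040008003603))))) 
(.nd (nat_lit 11) 
(.lf (nat_lit 2818839874) (dlOf (nat_lit 1) (nat_lit 0x800800f4002002c0008129903))) 
(.nd (nat_lit 15) 
(.lf (nat_lit 134225218) (dlOf (nat_lit 1) (nat_lit 0x4000800180020008000800c903))) 
(.lf (nat_lit 134257986) (dlOf (nat_lit 9) (nat_lit 0x800000b340400080000058d02006c015002bc81008301d804d80d8025002e004e906009a0360027081007f01d804f00d8020002e004d806000a0130025001005c01b000fe4080498008018400200f6000800c903))))))))) 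
(.nd (nat_lit 15) (.nd (nat_lit 8) (.nd (nat_lit 18) (.nd (nat_lit 10) (.nd (nat_lit 9) 
(.nd (nat_lit 19) (.nd (nat_lit 20) 
(.lf (nat_lit 25231426) (dlOf (nat_lit 1) (nat_lit 0x40028bf0c01))) 
(.lf (nat_lit 7405634) (dlOf (nat_lit 1) (nat_lit 0x4000084b0001)))) 
(.lf (nat_lit 3494445122) (dlOf (nat_lit 2) (nat_lit 0xc01a000600840036023003000f0000e02000a80080004002002c0008220c03)))) 
(.nd (nat_lit 19) (.lf (nat_lit 32574018) (dlOf (nat_lit 1) (nat_lit 0x400200020008ef5202))) 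
(.lf (nat_lit 51972674) (dlOf (nat_lit 1) (nat_lit 0x670008012400200c20009515203))))) 
(.nd (nat_lit 21) (.nd (nat_lit 32) 
(.lf (nat_lit 402719810) (dlOf (nat_lit 1) (nat_lit 0x800400020008092882))) 
(.lf (nat_lit 4697687106) (dlOf (nat_lit 1) (nat_lit 0x800400020008092882)))) (.nd (nat_lit 9) 
(.lf (nat_lit 19991618) (dlOf (nat_lit 1) (nat_lit 0x400289d6081))) 
(.lf (nat_lit 61408834) (dlOf (nat_lit 1) (nat_lit 0x20019923801)))))) (.nd (nat_lit 19) 
(.nd (nat_lit 10) (.nd (nat_lit 30) 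
(.lf (nat_lit 5100601410) (dlOf (nat_lit 1) (nat_lit 0x200280f0581))) 
(.lf (nat_lit 4026859586) (dlOf (nat_lit 8) (nat_lit 0x47405c031402d00210138000801800c80b80003e04034405c026602d001301380004c1808100b80001e04042405c00260270000602010401700bc00b4006804e0000b06025a02e008d0168000281011480080008002019200080a0d03)))) 
(.nd (nat_lit 7) (.lf (nat_lit 52758082) (dlOf (nat_lit 1) (nat_lit 0x20019573801))) 
(.lf (nat_lit 31786178) (dlOf (nat_lit 1) (nat_lit 0x400200020008e92d02))))) (.nd (nat_lit 20) 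
(.nd (nat_lit 9) (.nd (nat_lit 22) 
(.lf (nat_lit 42795074) (dlOf (nat_lit 1) (nat_lit 0x40009280601))) 
(.lf (nat_lit 21823554) (dlOf (nat_lit 5) (nat_lit 0x4de458027f0e00001c0400259c400e0c8b006ce1c0000360c04a322c024d87000001820083c8b004461c00000008008c002000a0008a70782)))) 
(.lf (nat_lit 1345129026) (dlOf (nat_lit 1) (nat_lit 0x48008002800200020008a45203)))) 
(.nd (nat_lit 7) 
(.lf (nat_lit 10289218) (dlOf (nat_lit 17) (nat_lit 0x1880000008a0400540000004302009e0000001f81001631b800d18b40070c40003260800170f9800105a000681a20012011000b0070002803000740000003c16000e00c00210000000ec1000718dc008cc40001016e00150b4000703440064022003e00e000e0060000e44001880000005a0400c40000002c02001818d0000b8100230c6802500000002c0800c80000000a020096000000038100460000000180801880000000a0400c40000000102005c63c003a2bd000295c800cca3e004a3ee00060c6802a0000000001c000800400d800185c0e02))) 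
(.lf (nat_lit 5773263042) (dlOf (nat_lit 1) (nat_lit 0x80080004002000400080c1703))))))) 
(.nd (nat_lit 9) (.nd (nat_lit 10) (.nd (nat_lit 18) (.nd (nat_lit 22) 
(.lf (nat_lit 3221291330) (dlOf (nat_lit 3) (nat_lit 0x4301b8000b40805f00dc02e40000002b0400020018090601))) 
(.lf (nat_lit 3493921090) (dlOf (nat_lit 2) (nat_lit 0x3819801ec07e0005604000a00181b0601)))) 
(.nd (nat_lit 30) (.lf (nat_lit 6442778946) (dlOf (nat_lit 2) (nat_lit 0x1a034000248181b0600))) 
(.lf (nat_lit 3221553474) (dlOf (nat_lit 1) (nat_lit 0x800200040008137f02))))) (.nd (nat_lit 7) 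
(.nd (nat_lit 18) (.lf (nat_lit 49874242) (dlOf (nat_lit 1) (nat_lit 0xc002000600094c3302))) 
(.lf (nat_lit 5369038146) (dlOf (nat_lit 1) (nat_lit 0x100080004002000200080e3303)))) 
(.lf (nat_lit 4697687490) (dlOf (nat_lit 1) (nat_lit 0x20008093601))))) (.nd (nat_lit 7) 
(.nd (nat_lit 12) (.nd (nat_lit 23) 
(.lf (nat_lit 671156034) (dlOf (nat_lit 1) (nat_lit 0x2400200120008143e02))) 
(.lf (nat_lit 8456002) (dlOf (nat_lit 2) (nat_lit 0x263c00016818513e00)))) 
(.lf (nat_lit 7935810) (dlOf (nat_lit 1) (nat_lit 0x32002851a101)))) (.nd (nat_lit 28) 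
(.nd (nat_lit 10) (.lf (nat_lit 5368777666) (dlOf (nat_lit 1) (nat_lit 0x40018005d81))) 
(.lf (nat_lit 536938434) (dlOf (nat_lit 1) (nat_lit 0x1c0018004401)))) (.nd (nat_lit 18) 
(.lf (nat_lit 5637213122) (dlOf (nat_lit 1) (nat_lit 0x40018055d81))) 
(.lf (nat_lit 5771692994) (dlOf (nat_lit 1) (nat_lit 0x20028005d81)))))))) (.nd (nat_lit 19) 
(.nd (nat_lit 7) (.nd (nat_lit 31) (.nd (nat_lit 18) (.nd (nat_lit 9) (.nd (nat_lit 22) 
(.lf (nat_lit 4697718850) (dlOf (nat_lit 1) (nat_lit 0x238004003a0008090002))) 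
(.lf (nat_lit 12681282) (dlOf (nat_lit 1) (nat_lit 0x400086d0d01)))) (.nd (nat_lit 8) 
(.lf (nat_lit 31558210) (dlOf (nat_lit 1) (nat_lit 0x40018e95201))) 
(.lf (nat_lit 536971074) (dlOf (nat_lit 1) (nat_lit 0x400400020008003e02))))) (.nd (nat_lit 20) 
(.nd (nat_lit 27) (.lf (nat_lit 4563763266) (dlOf (nat_lit 2) (nat_lit 0x1a029000410180d0480))) 
(.lf (nat_lit 4697980994) (dlOf (nat_lit 3) (nat_lit 0x320290004401002b0148002080800200080008002000400080d0483)))) 
(.lf (nat_lit 1409090) (dlOf (nat_lit 1) (nat_lit 0x180080008002000400080c0e03))))) 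
(.nd (nat_lit 8) (.nd (nat_lit 10) (.nd (nat_lit 20) 
(.lf (nat_lit 6576767042) (dlOf (nat_lit 5) (nat_lit 0x802c0005004005c0000002402000e00d000300000003010001800000016040038002000e00080d0d02))) 
(.lf (nat_lit 3490807874) (dlOf (nat_lit 5) (nat_lit 0x2c3d6000280201361ea0000d81000c0f5801c874800282ac0026140000018400260f5802987480048306005a15900160ab003c851c0090280005a13f003309a00000048019800800f000200020008020783)))) 
(.lf (nat_lit 6442550338) (dlOf (nat_lit 1) (nat_lit 0x8004000200080f2882)))) (.nd (nat_lit 9) 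
(.nd (nat_lit 10) 
(.lf (nat_lit 3221324098) (dlOf (nat_lit 3) (nat_lit 0x1814c0005a04025c06e00b800000015828090600))) 
(.lf (nat_lit 2818671938) (dlOf (nat_lit 1) (nat_lit 0x108002041e00080d3302)))) 
(.lf (nat_lit 6442551106) (dlOf (nat_lit 2) (nat_lit 0x140310014017000480340005a0c0020002000e00080f3e02)))))) 
(.nd (nat_lit 10) (.nd (nat_lit 11) (.nd (nat_lit 12) 
(.lf (nat_lit 1208320194) (dlOf (nat_lit 1) (nat_lit 0x180080004002000200080c1b03))) 
(.lf (nat_lit 20025538) (dlOf (nat_lit 1) (nat_lit 0x400289d7f01)))) (.nd (nat_lit 9) 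
(.lf (nat_lit 8751298) (dlOf (nat_lit 1) (nat_lit 0x20028514981))) 
(.lf (nat_lit 5503290050) (dlOf (nat_lit 1) (nat_lit 0x800080e5801))))) (.nd (nat_lit 11) 
(.nd (nat_lit 20) (.lf (nat_lit 48334018) (dlOf (nat_lit 1) (nat_lit 0x20019402d01))) 
(.lf (nat_lit 36799682) (dlOf (nat_lit 1) (nat_lit 0x220029072d01)))) 
(.lf (nat_lit 134319298) (dlOf (nat_lit 1) (nat_lit 0x14400201f80008006382)))))) (.nd (nat_lit 20) 
(.nd (nat_lit 7) (.nd (nat_lit 28) (.nd (nat_lit 22) 
(.lf (nat_lit 42827842) (dlOf (nat_lit 1) (nat_lit 0x20019280601))) 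
(.lf (nat_lit 21856322) (dlOf (nat_lit 2) (nat_lit 0x5000000006040010002000e0008a70782)))) 
(.nd (nat_lit 10) (.lf (nat_lit 1342799938) (dlOf (nat_lit 1) (nat_lit 0x200280d0e01))) 
(.lf (nat_lit 5772248130) (dlOf (nat_lit 1) (nat_lit 0x80080074002002a0008092883))))) 
(.nd (nat_lit 8) (.nd (nat_lit 18) 
(.lf (nat_lit 32081090) (dlOf (nat_lit 1) (nat_lit 0xc00200060008ef2d02))) 
(.lf (nat_lit 32343234) (dlOf (nat_lit 1) (nat_lit 0x20008ef2d01)))) 
(.lf (nat_lit 50954690) (dlOf (nat_lit 1) (nat_lit 0x5a00094d7a81))))) (.nd (nat_lit 8) 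
(.nd (nat_lit 9) (.nd (nat_lit 10) 
(.lf (nat_lit 10059842) (dlOf (nat_lit 1) (nat_lit 0x5800185b0781))) 
(.lf (nat_lit 49906754) (dlOf (nat_lit 1) (nat_lit 0x600194c2881)))) 
(.lf (nat_lit 3491332674) (dlOf (nat_lit 3) (nat_lit 0xa188d005403d8000120400061ec002d0ab800000100060008086800200020008091083)))) 
(.nd (nat_lit 18) (.nd (nat_lit 7) 
(.lf (nat_lit 7968578) (dlOf (nat_lit 1) (nat_lit 0x5000800280020010000851a103))) 
(.lf (nat_lit 3491332546) (dlOf (nat_lit 5) (nat_lit 0xda2340001381008811a0000980803588d0000440400f8468000000200020018090901)))) 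
(.nd (nat_lit 11) (.lf (nat_lit 45973826) (dlOf (nat_lit 1) (nat_lit 0x200009380c01))) 
(.lf (nat_lit 8227138) (dlOf (nat_lit 2) (nat_lit 0x127480001c080030008003000200020008514d03)))))))))) 
(.nd (nat_lit 27) (.nd (nat_lit 31) (.nd (nat_lit 28) (.nd (nat_lit 10) (.nd (nat_lit 19) 
(.nd (nat_lit 7) (.nd (nat_lit 9) 
(.lf (nat_lit 5972787266) (dlOf (nat_lit 5) (nat_lit 0x802c0005004005c0000002402000e00d000300000003010001800000016040038002000e00080d0d02))) 
(.lf (nat_lit 69470786) (dlOf (nat_lit 1) (nat_lit 0x400200040008a25202)))) 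
(.lf (nat_lit 603986626) (dlOf (nat_lit 1) (nat_lit 0x2002800b981)))) (.nd (nat_lit 15) 
(.nd (nat_lit 29) 
(.lf (nat_lit 4362600514) (dlOf (nat_lit 4) (nat_lit 0x40320001881000f0000000c008005000000054040028002001200080a0d02))) 
(.lf (nat_lit 1678245954) (dlOf (nat_lit 2) (nat_lit 0x401c000080980005408000c004000a00081b0d02)))) 
(.lf (nat_lit 4362633282) (dlOf (nat_lit 1) (nat_lit 0xc8002001200080b0d02))))) (.nd (nat_lit 7) 
(.nd (nat_lit 30) 
(.lf (nat_lit 4362077250) (dlOf (nat_lit 1) (nat_lit 0x8008000400200020008002883))) 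
(.nd (nat_lit 32) (.lf (nat_lit 1140851778) (dlOf (nat_lit 1) (nat_lit 0x400400020008002882))) 
(.lf (nat_lit 5435819074) (dlOf (nat_lit 1) (nat_lit 0x400400020008002882))))) (.nd (nat_lit 8) 
(.lf (nat_lit 5972692674) (dlOf (nat_lit 1) (nat_lit 0x20028007281))) (.nd (nat_lit 32) 
(.lf (nat_lit 1140852162) (dlOf (nat_lit 1) (nat_lit 0x20028003601))) 
(.lf (nat_lit 5435819458) (dlOf (nat_lit 1) (nat_lit 0x400200020008003602))))))) (.nd (nat_lit 7) 
(.nd (nat_lit 10) (.nd (nat_lit 15) (.nd (nat_lit 16) 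
(.lf (nat_lit 1946681666) (dlOf (nat_lit 4) (nat_lit 0x48000000298100730000001240801600000008e040018002000600081b0602))) 
(.lf (nat_lit 335610178) (dlOf (nat_lit 1) (nat_lit 0x20028090c01)))) 
(.lf (nat_lit 1946714434) (dlOf (nat_lit 25) (nat_lit 0xfe00f8000b804089c07c0005b02044203e0002d01014601f0001640807280f8000b00409700000005302048e00000029010252000000144081340000000a00403980000004e0203ec00000026810268000000130080c40000000960400500000004a0204b403e02760000001241012c80f803dc000000480400e203e025c00000011c1012080000008c0409a0000000450204ce0000002201010101f007600000008608025c000000160200100000000a01001801f0000000800280080318002000800081b0603)))) 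
(.nd (nat_lit 8) (.nd (nat_lit 16) 
(.lf (nat_lit 4630512706) (dlOf (nat_lit 1) (nat_lit 0xc00400020008002882))) 
(.lf (nat_lit 872481858) (dlOf (nat_lit 1) (nat_lit 0x8008000400200040008092883)))) 
(.nd (nat_lit 12) (.lf (nat_lit 1946160450) (dlOf (nat_lit 1) (nat_lit 0x40028006901))) 
(.lf (nat_lit 1409293634) (dlOf (nat_lit 2) (nat_lit 0x12032002bc81800c900)))))) (.nd (nat_lit 8) 
(.nd (nat_lit 9) (.lf (nat_lit 1409354946) (dlOf (nat_lit 1) (nat_lit 0x20018006381))) 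
(.lf (nat_lit 1410074306) (dlOf (nat_lit 1) (nat_lit 0xc00180f3a81)))) (.nd (nat_lit 9) 
(.lf (nat_lit 4630513090) (dlOf (nat_lit 1) (nat_lit 0x30008000800200080008003603))) 
(.nd (nat_lit 10) (.lf (nat_lit 872451010) (dlOf (nat_lit 1) (nat_lit 0x20018005d81))) 
(.lf (nat_lit 1410078658) (dlOf (nat_lit 2) (nat_lit 0x120770007000002be81000700080034002001400080fa603)))))))) 
(.nd (nat_lit 16) (.nd (nat_lit 8) (.nd (nat_lit 19) (.nd (nat_lit 15) (.nd (nat_lit 9) 
(.lf (nat_lit 3288596546) (dlOf (nat_lit 1) (nat_lit 0x124002005a0008090002))) 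
(.lf (nat_lit 2751470146) (dlOf (nat_lit 2) (nat_lit 0x6e20a0001681800b500)))) (.nd (nat_lit 18) 
(.lf (nat_lit 2752544834) (dlOf (nat_lit 1) (nat_lit 0x400200180008020782))) 
(.lf (nat_lit 2753855554) (dlOf (nat_lit 1) (nat_lit 0x200180a0d01))))) (.nd (nat_lit 20) 
(.nd (nat_lit 21) (.lf (nat_lit 2756214850) (dlOf (nat_lit 1) (nat_lit 0x20028220c01))) 
(.lf (nat_lit 2754117698) (dlOf (nat_lit 3) (nat_lit 0x81f90002a81001f1088001500800100080030002003600080c1883)))) 
(.nd (nat_lit 15) 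
(.lf (nat_lit 2755133506) (dlOf (nat_lit 2) (nat_lit 0x8e0680008021001d008c011403c000060800020028110781))) 
(.lf (nat_lit 2755166274) (dlOf (nat_lit 2) (nat_lit 0xf034000c81080004046000160600020028120e01)))))) 
(.nd (nat_lit 11) (.nd (nat_lit 15) (.nd (nat_lit 20) 
(.lf (nat_lit 2755658050) (dlOf (nat_lit 1) (nat_lit 0x8002000600081b0602))) 
(.lf (nat_lit 2752512322) (dlOf (nat_lit 1) (nat_lit 0x20018014c01)))) (.nd (nat_lit 7) 
(.lf (nat_lit 2755690818) (dlOf (nat_lit 4) (nat_lit 0x102100009e0400e818a0002c0200a60e800530628000a81000100080010002000a00081b0603))) 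
(.lf (nat_lit 2752026562) (dlOf (nat_lit 1) (nat_lit 0x40040002000800a602))))) (.nd (nat_lit 7) 
(.nd (nat_lit 10) (.lf (nat_lit 6509566274) (dlOf (nat_lit 1) (nat_lit 0x48000800ab81))) 
(.lf (nat_lit 3288341826) (dlOf (nat_lit 1) (nat_lit 0x4e002800c901)))) 
(.lf (nat_lit 2754878402) (dlOf (nat_lit 7) (nat_lit 0x18848001c3f4003a155001709c00081c200048848003c3f4004a155002509c00081420006084800443f40066154000e383000e109000a07e800cc2a8001c606001e21200140fd001c05500038a0c004c424002e1fa00350aa00071018001800800bc002001a00080fbe03)))))) 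
(.nd (nat_lit 18) (.nd (nat_lit 15) (.nd (nat_lit 8) (.nd (nat_lit 7) 
(.lf (nat_lit 2756247618) (dlOf (nat_lit 2) (nat_lit 0xc01a000600840036023003000f0000d82000a80080004002002c0008220c03))) 
(.lf (nat_lit 2483096770) (dlOf (nat_lit 1) (nat_lit 0xe800800f000200600008006383)))) 
(.nd (nat_lit 10) (.lf (nat_lit 2755723586) (dlOf (nat_lit 1) (nat_lit 0x200181b0601))) 
(.lf (nat_lit 4093707586) (dlOf (nat_lit 1) (nat_lit 0x10002000e0008003302))))) (.nd (nat_lit 19) 
(.nd (nat_lit 20) 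
(.lf (nat_lit 2483126338) (dlOf (nat_lit 3) (nat_lit 0xbe00a806c005000024040048018002100000008c1007a80080584002050e0008020783))) 
(.lf (nat_lit 2752610370) (dlOf (nat_lit 5) (nat_lit 0x2c3fa000280201361fc0000c81000c0fe801c879c00282b60026140000018400260fe8029879c0048306005a15e00160ad803c851c0090280005a13f003309a00000048019800800f000200020008020783)))) 
(.nd (nat_lit 7) 
(.lf (nat_lit 2753135170) (dlOf (nat_lit 3) (nat_lit 0xa1893005403fc000110400061fe002d0ae000000100060008086800200020008091083))) 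
(.lf (nat_lit 2753135042) (dlOf (nat_lit 5) (nat_lit 0xda24c00013810088126000098080358930000440400f8498000000200020018090901)))))) 
(.nd (nat_lit 8) (.nd (nat_lit 21) (.nd (nat_lit 28) 
(.lf (nat_lit 3288662082) (dlOf (nat_lit 4) (nat_lit 0xf0168000800800700b40002604001805a0000b02002600280a0e01))) 
(.lf (nat_lit 2483355714) (dlOf (nat_lit 3) (nat_lit 0x20140001940800100a0000c2040010004001000080d0c02)))) 
(.nd (nat_lit 15) 
(.lf (nat_lit 4096589890) (dlOf (nat_lit 1) (nat_lit 0x8008000400200020008131703))) 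
(.lf (nat_lit 2753921090) (dlOf (nat_lit 1) (nat_lit 0x200080a0d01))))) (.nd (nat_lit 7) 
(.lf (nat_lit 2752321858) (dlOf (nat_lit 1) (nat_lit 0x2000800ab81))) 
(.lf (nat_lit 2751793090) (dlOf (nat_lit 1) (nat_lit 0x400200020008004402)))))))) (.nd (nat_lit 29) 
(.nd (nat_lit 28) (.nd (nat_lit 31) (.nd (nat_lit 9) (.nd (nat_lit 10) (.nd (nat_lit 11) 
(.nd (nat_lit 18) 
(.lf (nat_lit 201850946) (dlOf (nat_lit 6) (nat_lit 0xc901d8000800804380ec000260401c80760000c02015e03b0000581008d01d8000280801d0008015400200f600080a0d03))) 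
(.lf (nat_lit 201588802) (dlOf (nat_lit 5) (nat_lit 0xa0310001f810008018800200440000e08000c0220000602002e0310099018000080500048022000000800a60008030e01)))) 
(.lf (nat_lit 201398338) (dlOf (nat_lit 1) (nat_lit 0xd00080014002005a000800a683)))) 
(.lf (nat_lit 201327682) (dlOf (nat_lit 1) (nat_lit 0x400400020008002882)))) (.nd (nat_lit 8) 
(.lf (nat_lit 201366082) (dlOf (nat_lit 3) (nat_lit 0x290000000c40800e000000060040024004005c000800b502))) 
(.lf (nat_lit 201328450) (dlOf (nat_lit 1) (nat_lit 0x20028003e01))))) (.nd (nat_lit 16) 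
(.nd (nat_lit 8) (.nd (nat_lit 9) 
(.lf (nat_lit 2348811330) (dlOf (nat_lit 1) (nat_lit 0x8008000400200020008002883))) 
(.lf (nat_lit 2348816962) (dlOf (nat_lit 2) (nat_lit 0x6602a000a00800070038000480c00240040002000800b502)))) 
(.lf (nat_lit 2348812610) (dlOf (nat_lit 1) (nat_lit 0x20028004d01)))) (.nd (nat_lit 7) 
(.nd (nat_lit 15) 
(.lf (nat_lit 2349137986) (dlOf (nat_lit 3) (nat_lit 0x20140001a00800100a0000c8040010004001000080d0c02))) 
(.lf (nat_lit 2348908610) (dlOf (nat_lit 3) (nat_lit 0xbe00a806c005000024040048018002100000008c1007a80080584002050e0008020783)))) 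
(.lf (nat_lit 3422650562) (dlOf (nat_lit 1) (nat_lit 0x100018013901)))))) (.nd (nat_lit 10) 
(.nd (nat_lit 9) (.nd (nat_lit 8) (.nd (nat_lit 21) 
(.lf (nat_lit 470024258) (dlOf (nat_lit 1) (nat_lit 0x20028030e01))) 
(.lf (nat_lit 472121410) (dlOf (nat_lit 1) (nat_lit 0x20008840601)))) (.nd (nat_lit 15) 
(.lf (nat_lit 5838799170) (dlOf (nat_lit 2) (nat_lit 0x1a034000210181b0600))) 
(.lf (nat_lit 470647106) (dlOf (nat_lit 1) (nat_lit 0x800400020008150702))))) (.nd (nat_lit 7) 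
(.nd (nat_lit 12) (.lf (nat_lit 472156738) (dlOf (nat_lit 1) (nat_lit 0x100008865201))) 
(.lf (nat_lit 469768770) (dlOf (nat_lit 1) (nat_lit 0x104004014e001800b502)))) 
(.lf (nat_lit 469801666) (dlOf (nat_lit 1) (nat_lit 0x8008003c002000a000800b983))))) 
(.nd (nat_lit 7) (.nd (nat_lit 8) 
(.lf (nat_lit 469763138) (dlOf (nat_lit 1) (nat_lit 0x400400020008002882))) (.nd (nat_lit 9) 
(.lf (nat_lit 469800258) (dlOf (nat_lit 1) (nat_lit 0x680080004002001c0008009903))) 
(.lf (nat_lit 469763906) (dlOf (nat_lit 1) (nat_lit 0x400400120008003e02))))) (.nd (nat_lit 16) 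
(.nd (nat_lit 20) (.lf (nat_lit 472646850) (dlOf (nat_lit 1) (nat_lit 0x74004002800189e2d02))) 
(.lf (nat_lit 473695426) (dlOf (nat_lit 1) (nat_lit 0xb4002006c0008fa2d02)))) (.nd (nat_lit 18) 
(.lf (nat_lit 472450242) (dlOf (nat_lit 1) (nat_lit 0x400400020008982d02))) 
(.lf (nat_lit 473760962) (dlOf (nat_lit 1) (nat_lit 0x4002016e0008fa2d02)))))))) (.nd (nat_lit 15) 
(.nd (nat_lit 10) (.nd (nat_lit 18) (.nd (nat_lit 8) (.nd (nat_lit 9) 
(.lf (nat_lit 4228382786) (dlOf (nat_lit 1) (nat_lit 0x8c002003e00080a0e02))) 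
(.lf (nat_lit 1006639682) (dlOf (nat_lit 1) (nat_lit 0x248008020000200ce000800b503)))) 
(.lf (nat_lit 3959488834) (dlOf (nat_lit 3) (nat_lit 0x4301b8000b00805f00dc02e40000002a0400020018090601)))) 
(.nd (nat_lit 7) (.nd (nat_lit 30) 
(.lf (nat_lit 1006895170) (dlOf (nat_lit 1) (nat_lit 0x4002000200080d0d02))) 
(.lf (nat_lit 2080636994) (dlOf (nat_lit 1) (nat_lit 0x80080004002000200080a1683)))) 
(.lf (nat_lit 6377704130) (dlOf (nat_lit 1) (nat_lit 0x200280e5801))))) (.nd (nat_lit 8) 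
(.nd (nat_lit 7) (.nd (nat_lit 28) 
(.lf (nat_lit 6106907714) (dlOf (nat_lit 1) (nat_lit 0x18008001400200060008002883))) 
(.lf (nat_lit 1006634050) (dlOf (nat_lit 1) (nat_lit 0x400400020008002882)))) 
(.lf (nat_lit 3959426754) (dlOf (nat_lit 1) (nat_lit 0xf00028007281)))) (.nd (nat_lit 7) 
(.nd (nat_lit 16) (.lf (nat_lit 1006634818) (dlOf (nat_lit 2) (nat_lit 0xe03d00019018003e00))) 
(.lf (nat_lit 2886010690) (dlOf (nat_lit 2) (nat_lit 0x180000004c04005c00200020008143e02)))) 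
(.lf (nat_lit 6106908098) (dlOf (nat_lit 1) (nat_lit 0x28008000800200060008003603)))))) 
(.nd (nat_lit 16) (.nd (nat_lit 18) (.nd (nat_lit 28) 
(.lf (nat_lit 3959980098) (dlOf (nat_lit 1) (nat_lit 0x180080010002000a0008180d03))) 
(.lf (nat_lit 4228415554) (dlOf (nat_lit 1) (nat_lit 0xc8002001200080b0d02)))) (.nd (nat_lit 8) 
(.nd (nat_lit 30) 
(.lf (nat_lit 1006927938) (dlOf (nat_lit 2) (nat_lit 0x80270000a00801080080090002005400080e0d03))) 
(.lf (nat_lit 2080669762) (dlOf (nat_lit 1) (nat_lit 0x4004000200080b0582)))) 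
(.lf (nat_lit 5301896514) (dlOf (nat_lit 1) (nat_lit 0x50008004c002000200080e3303))))) 
(.nd (nat_lit 8) (.nd (nat_lit 18) (.nd (nat_lit 28) 
(.lf (nat_lit 3960045634) (dlOf (nat_lit 1) (nat_lit 0x1580080098002005600081a1883))) 
(.lf (nat_lit 3154739266) (dlOf (nat_lit 1) (nat_lit 0x200018310001)))) (.nd (nat_lit 9) 
(.lf (nat_lit 3154477122) (dlOf (nat_lit 2) (nat_lit 0x900560001802000600081a0581))) 
(.lf (nat_lit 1008044610) (dlOf (nat_lit 1) (nat_lit 0x400400020008985202))))) (.nd (nat_lit 10) 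
(.lf (nat_lit 3959521602) (dlOf (nat_lit 3) (nat_lit 0x1814c0005804025c06e00b800000015028090600))) 
(.lf (nat_lit 3154216258) (dlOf (nat_lit 1) (nat_lit 0x800200080008103302)))))))))) 
(.nd (nat_lit 15) (.nd (nat_lit 8) (.nd (nat_lit 7) (.nd (nat_lit 10) (.nd (nat_lit 16) 
(.nd (nat_lit 19) (.nd (nat_lit 27) (.nd (nat_lit 20) 
(.lf (nat_lit 52428898) (dlOf (nat_lit 1) (nat_lit 0x20019530901))) 
(.lf (nat_lit 68157538) (dlOf (nat_lit 1) (nat_lit 0x8008000400200020008400d03)))) 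
(.nd (nat_lit 11) 
(.lf (nat_lit 1006895202) (dlOf (nat_lit 1) (nat_lit 0x80080014002000200080d1283))) 
(.lf (nat_lit 1543506018) (dlOf (nat_lit 1) (nat_lit 0x1400200080008004702))))) (.nd (nat_lit 27) 
(.nd (nat_lit 22) (.lf (nat_lit 4362600546) (dlOf (nat_lit 1) (nat_lit 0x200280a1281))) 
(.lf (nat_lit 55050338) (dlOf (nat_lit 6) (nat_lit 0x4263000213100014974000e4a500052498061942800113180018988000a4ba00072528003124c030c814002898c00144c4000825d00019294001c926018630a00084c60004262000412e8000c94a000e49300c31050006263005f5808023800800ec00200100009690783)))) 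
(.nd (nat_lit 9) 
(.lf (nat_lit 4228382818) (dlOf (nat_lit 1) (nat_lit 0xd00080020002002c00080a1383))) 
(.lf (nat_lit 6376131170) (dlOf (nat_lit 1) (nat_lit 0x680080088002001c0008095383)))))) 
(.nd (nat_lit 18) (.nd (nat_lit 11) (.nd (nat_lit 20) 
(.lf (nat_lit 12648546) (dlOf (nat_lit 1) (nat_lit 0xc00286d1281))) 
(.lf (nat_lit 47251554) (dlOf (nat_lit 1) (nat_lit 0x400093c0781)))) (.nd (nat_lit 12) 
(.lf (nat_lit 3623946338) (dlOf (nat_lit 7) (nat_lit 0xe0000005380800180dc000c204000c06e0005f020016045000b022000580f8002c078004a037000b01a80040000000a61c007806e0005002000403e001b000000000100058008001800200020008004703))) 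
(.lf (nat_lit 3623950434) (dlOf (nat_lit 1) (nat_lit 0x18002000e000800a802))))) (.nd (nat_lit 26) 
(.nd (nat_lit 11) 
(.lf (nat_lit 1745158242) (dlOf (nat_lit 3) (nat_lit 0x4601c0001f00801c00e0000e6040010004000200080b0d82))) 
(.lf (nat_lit 3493136482) (dlOf (nat_lit 2) (nat_lit 0x1711800028798000c2080004004000e00080f4702)))) 
(.nd (nat_lit 22) 
(.lf (nat_lit 872743010) (dlOf (nat_lit 3) (nat_lit 0x4601c0001f00801c00e0000e6040010004000200080b0d82))) 
(.lf (nat_lit 2755985506) (dlOf (nat_lit 1) (nat_lit 0x4002000200081c1382))))))) (.nd (nat_lit 12) 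
(.nd (nat_lit 16) (.nd (nat_lit 21) (.nd (nat_lit 9) 
(.lf (nat_lit 38536290) (dlOf (nat_lit 1) (nat_lit 0x720009132981))) 
(.lf (nat_lit 5435819618) (dlOf (nat_lit 1) (nat_lit 0x1a0028003901)))) (.nd (nat_lit 26) 
(.lf (nat_lit 1345061986) (dlOf (nat_lit 1) (nat_lit 0x4002000200089e2982))) 
(.lf (nat_lit 472646754) (dlOf (nat_lit 1) (nat_lit 0x400289e2981))))) (.nd (nat_lit 19) 
(.nd (nat_lit 9) (.lf (nat_lit 69272674) (dlOf (nat_lit 1) (nat_lit 0x300008902981))) 
(.lf (nat_lit 5570102882) (dlOf (nat_lit 1) (nat_lit 0x4004000a0008053902)))) (.nd (nat_lit 18) 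
(.lf (nat_lit 38339682) (dlOf (nat_lit 1) (nat_lit 0x400200020009132982))) 
(.lf (nat_lit 44893282) (dlOf (nat_lit 1) (nat_lit 0x400200020009322982)))))) (.nd (nat_lit 11) 
(.nd (nat_lit 28) (.nd (nat_lit 26) 
(.lf (nat_lit 6039803490) (dlOf (nat_lit 1) (nat_lit 0x3a0018009c01))) 
(.lf (nat_lit 3422557794) (dlOf (nat_lit 1) (nat_lit 0x20028009c01)))) (.nd (nat_lit 9) 
(.lf (nat_lit 2952795234) (dlOf (nat_lit 1) (nat_lit 0x400400020008009402))) 
(.lf (nat_lit 4160755298) (dlOf (nat_lit 1) (nat_lit 0x20028009c01))))) (.nd (nat_lit 18) 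
(.nd (nat_lit 16) (.nd (nat_lit 27) 
(.lf (nat_lit 603987042) (dlOf (nat_lit 1) (nat_lit 0x40040002000800c002))) 
(.lf (nat_lit 469769314) (dlOf (nat_lit 3) (nat_lit 0x14161000704e800138100080584003813a000208e0001e83800c000)))) 
(.lf (nat_lit 469834850) (dlOf (nat_lit 3) (nat_lit 0x429c0004e02004007e0001e81800c000)))) 
(.nd (nat_lit 19) 
(.lf (nat_lit 2818841698) (dlOf (nat_lit 10) (nat_lit 0x80440005c02009006a00460348015018400b0084001a01b0002a050049035001101a4009c0840005306000a05b000201100014410001816c006c06c003a022000280300150110001300800080d800480440004a04000203600060110001201001d00880007a0400a80040030000812c002))) 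
(.lf (nat_lit 8133730) (dlOf (nat_lit 1) (nat_lit 0x2001851c001)))))))) (.nd (nat_lit 18) 
(.nd (nat_lit 10) (.nd (nat_lit 24) (.nd (nat_lit 9) (.nd (nat_lit 11) 
(.lf (nat_lit 471924962) (dlOf (nat_lit 2) (nat_lit 0x55000000054040008004003000186b0582))) 
(.lf (nat_lit 4026534114) (dlOf (nat_lit 1) (nat_lit 0xa800400080008004b02)))) (.nd (nat_lit 11) 
(.lf (nat_lit 603984610) (dlOf (nat_lit 1) (nat_lit 0x400200020008008c82))) 
(.lf (nat_lit 1476922082) (dlOf (nat_lit 1) (nat_lit 0x4002002e00082d5982))))) (.nd (nat_lit 16) 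
(.nd (nat_lit 19) (.lf (nat_lit 18874594) (dlOf (nat_lit 1) (nat_lit 0x20008970581))) 
(.lf (nat_lit 17301730) (dlOf (nat_lit 1) (nat_lit 0x8008000c002000600088e0583)))) 
(.nd (nat_lit 20) (.lf (nat_lit 18940130) (dlOf (nat_lit 2) (nat_lit 0x7e46300015018970580))) 
(.lf (nat_lit 30474466) (dlOf (nat_lit 4) (nat_lit 0xd5ee0002a02001caf9001357c000084100142be400555f00001d0400040018e30581)))))) 
(.nd (nat_lit 11) (.nd (nat_lit 26) (.nd (nat_lit 27) 
(.lf (nat_lit 2684359906) (dlOf (nat_lit 1) (nat_lit 0x20028009501))) 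
(.lf (nat_lit 2281706722) (dlOf (nat_lit 1) (nat_lit 0x20028009501)))) (.nd (nat_lit 9) 
(.lf (nat_lit 6643782882) (dlOf (nat_lit 1) (nat_lit 0x20028009501))) 
(.lf (nat_lit 2751465186) (dlOf (nat_lit 1) (nat_lit 0x240028003a81))))) (.nd (nat_lit 27) 
(.nd (nat_lit 28) (.lf (nat_lit 4294974690) (dlOf (nat_lit 1) (nat_lit 0x40040002000800c582))) 
(.lf (nat_lit 1342184674) (dlOf (nat_lit 1) (nat_lit 0x2000800c581)))) (.nd (nat_lit 12) 
(.lf (nat_lit 2550140130) (dlOf (nat_lit 1) (nat_lit 0x20018006501))) 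
(.lf (nat_lit 4227865826) (dlOf (nat_lit 1) (nat_lit 0x40040002000800c582))))))) (.nd (nat_lit 16) 
(.nd (nat_lit 9) (.nd (nat_lit 19) (.nd (nat_lit 26) 
(.lf (nat_lit 4697882850) (dlOf (nat_lit 1) (nat_lit 0x400180c1b01))) 
(.lf (nat_lit 5301862626) (dlOf (nat_lit 2) (nat_lit 0xc00440003204042c00401b600080c1b02)))) 
(.lf (nat_lit 30146786) (dlOf (nat_lit 2) (nat_lit 0x6a4400015018e30580)))) (.nd (nat_lit 11) 
(.lf (nat_lit 8131298) (dlOf (nat_lit 1) (nat_lit 0x400200020008518c82))) 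
(.lf (nat_lit 57412322) (dlOf (nat_lit 4) (nat_lit 0x5d9c60003e020032ce30001d01001e6768009b3b00006e080040004005a0019795982))))) 
(.nd (nat_lit 20) (.nd (nat_lit 10) (.nd (nat_lit 19) 
(.lf (nat_lit 402981090) (dlOf (nat_lit 1) (nat_lit 0x1000180c1b01))) 
(.lf (nat_lit 17629410) (dlOf (nat_lit 4) (nat_lit 0xca9c0002a02001c55000132a78000841001415400054a9e0001d04000400188e0581)))) 
(.lf (nat_lit 3624209634) (dlOf (nat_lit 1) (nat_lit 0x20028146501)))) (.nd (nat_lit 9) 
(.nd (nat_lit 10) (.lf (nat_lit 28639458) (dlOf (nat_lit 1) (nat_lit 0x800200060008da0582))) 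
(.lf (nat_lit 20253922) (dlOf (nat_lit 1) (nat_lit 0x1400289d6501)))) 
(.lf (nat_lit 8196834) (dlOf (nat_lit 1) (nat_lit 0x400200020008518c82)))))))) (.nd (nat_lit 9) 
(.nd (nat_lit 18) (.nd (nat_lit 11) (.nd (nat_lit 19) (.nd (nat_lit 21) (.nd (nat_lit 10) 
(.lf (nat_lit 5771362658) (dlOf (nat_lit 2) (nat_lit 0x40000000310200040008000e81))) 
(.lf (nat_lit 3892381026) (dlOf (nat_lit 1) (nat_lit 0x540008103401)))) (.nd (nat_lit 12) 
(.lf (nat_lit 2097506) (dlOf (nat_lit 2) (nat_lit 0x7a3e0001a018150700))) 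
(.lf (nat_lit 19927394) (dlOf (nat_lit 1) (nat_lit 0x200189d8381))))) (.nd (nat_lit 26) 
(.lf (nat_lit 1074266466) (dlOf (nat_lit 1) (nat_lit 0xc00181b0701))) 
(.lf (nat_lit 1946681698) (dlOf (nat_lit 1) (nat_lit 0xc00181b0701))))) (.nd (nat_lit 28) 
(.nd (nat_lit 12) (.nd (nat_lit 16) 
(.lf (nat_lit 3288336738) (dlOf (nat_lit 1) (nat_lit 0x7c00200120008004e82))) 
(.lf (nat_lit 134285666) (dlOf (nat_lit 1) (nat_lit 0x2400200060008004e82)))) 
(.lf (nat_lit 536877410) (dlOf (nat_lit 1) (nat_lit 0xa800800140020068000800ab83)))) 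
(.nd (nat_lit 10) (.nd (nat_lit 16) 
(.lf (nat_lit 5301602658) (dlOf (nat_lit 1) (nat_lit 0xa0028004e81))) 
(.lf (nat_lit 4563470690) (dlOf (nat_lit 1) (nat_lit 0x400400040008094e82)))) 
(.lf (nat_lit 3490188642) (dlOf (nat_lit 1) (nat_lit 0x100028006a81)))))) (.nd (nat_lit 16) 
(.nd (nat_lit 20) (.nd (nat_lit 26) 
(.lf (nat_lit 3494117730) (dlOf (nat_lit 3) (nat_lit 0x3fc07b0001a0101b103d8000c80800a000801dc002008c00081b0703))) 
(.lf (nat_lit 2755920226) (dlOf (nat_lit 1) (nat_lit 0x10004000200081b0702)))) (.nd (nat_lit 10) 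
(.nd (nat_lit 23) (.lf (nat_lit 3408226) (dlOf (nat_lit 1) (nat_lit 0x400200020008200702))) 
(.lf (nat_lit 11796834) (dlOf (nat_lit 1) (nat_lit 0x80080004002000200086c0703)))) 
(.lf (nat_lit 50070882) (dlOf (nat_lit 1) (nat_lit 0x80080004002001a00094c3403))))) 
(.nd (nat_lit 21) (.nd (nat_lit 7) 
(.lf (nat_lit 1900898) (dlOf (nat_lit 1) (nat_lit 0x1a0008011800200740008150703))) 
(.lf (nat_lit 21299682) (dlOf (nat_lit 1) (nat_lit 0x120002003e0008a37302)))) (.nd (nat_lit 23) 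
(.lf (nat_lit 3473762) (dlOf (nat_lit 4) (nat_lit 0x9f7320003402001bb9900019810009dcc8000780801c000800a800200160008200703))) 
(.lf (nat_lit 11862370) (dlOf (nat_lit 1) (nat_lit 0x9a00086c0701))))))) (.nd (nat_lit 7) 
(.nd (nat_lit 11) (.nd (nat_lit 16) (.nd (nat_lit 18) 
(.lf (nat_lit 67114850) (dlOf (nat_lit 1) (nat_lit 0x6001800a301))) 
(.lf (nat_lit 3557037922) (dlOf (nat_lit 1) (nat_lit 0x18800802a80020076000812a303)))) 
(.nd (nat_lit 10) (.lf (nat_lit 2617316194) (dlOf (nat_lit 1) (nat_lit 0xa600280a8f81))) 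
(.lf (nat_lit 1342248802) (dlOf (nat_lit 1) (nat_lit 0x780080030002000c000800a303))))) 
(.nd (nat_lit 16) (.nd (nat_lit 12) 
(.lf (nat_lit 19925858) (dlOf (nat_lit 1) (nat_lit 0x4002000200089d5c02))) 
(.lf (nat_lit 2885688162) (dlOf (nat_lit 1) (nat_lit 0x4001800bc81)))) (.nd (nat_lit 20) 
(.lf (nat_lit 5704321890) (dlOf (nat_lit 1) (nat_lit 0x40028055c01))) 
(.lf (nat_lit 19991394) (dlOf (nat_lit 1) (nat_lit 0x4002000200089d5c02)))))) (.nd (nat_lit 26) 
(.nd (nat_lit 16) (.nd (nat_lit 10) (.nd (nat_lit 12) 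
(.lf (nat_lit 34341858) (dlOf (nat_lit 1) (nat_lit 0x400200040008fb2882))) 
(.lf (nat_lit 1342182370) (dlOf (nat_lit 1) (nat_lit 0x4c0028009201)))) 
(.lf (nat_lit 4429187042) (dlOf (nat_lit 1) (nat_lit 0x400400020008004582)))) (.nd (nat_lit 18) 
(.lf (nat_lit 55641058) (dlOf (nat_lit 1) (nat_lit 0x2c00196d2881))) 
(.lf (nat_lit 34407394) (dlOf (nat_lit 1) (nat_lit 0x1000200020008fb2882))))) (.nd (nat_lit 12) 
(.nd (nat_lit 10) (.lf (nat_lit 2751988706) (dlOf (nat_lit 1) (nat_lit 0x400200020008002882))) 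
(.lf (nat_lit 1006634978) (dlOf (nat_lit 1) (nat_lit 0x400400020008004582)))) (.nd (nat_lit 11) 
(.lf (nat_lit 469767138) (dlOf (nat_lit 1) (nat_lit 0x480028009201))) 
(.lf (nat_lit 604052450) (dlOf (nat_lit 1) (nat_lit 0x2002800bf01))))))))) (.nd (nat_lit 7) 
(.nd (nat_lit 16) (.nd (nat_lit 28) (.nd (nat_lit 19) (.nd (nat_lit 11) (.nd (nat_lit 18) 
(.nd (nat_lit 8) 
(.lf (nat_lit 5502961250) (dlOf (nat_lit 1) (nat_lit 0x380080074002000e0008003903))) 
(.lf (nat_lit 2130274) (dlOf (nat_lit 1) (nat_lit 0x8008001400200020008150703)))) (.nd (nat_lit 27) 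
(.lf (nat_lit 67403874) (dlOf (nat_lit 1) (nat_lit 0x80080004002000200080f0d03))) 
(.lf (nat_lit 2349105250) (dlOf (nat_lit 1) (nat_lit 0x4002002200080a1282))))) (.nd (nat_lit 12) 
(.nd (nat_lit 29) (.lf (nat_lit 6509594722) (dlOf (nat_lit 1) (nat_lit 0x2c0008004701))) 
(.lf (nat_lit 3825240162) (dlOf (nat_lit 2) (nat_lit 0x2005800184080018008000400200020008004703)))) 
(.nd (nat_lit 8) (.lf (nat_lit 40034) (dlOf (nat_lit 1) (nat_lit 0xd8008000c002002a000800c003))) 
(.lf (nat_lit 1677761378) (dlOf (nat_lit 1) (nat_lit 0x40040002000800bc82)))))) (.nd (nat_lit 8) 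
(.nd (nat_lit 10) 
(.lf (nat_lit 3221782626) (dlOf (nat_lit 2) (nat_lit 0xb01780000c0801c80080070002002a0008181383))) 
(.nd (nat_lit 20) (.lf (nat_lit 38306914) (dlOf (nat_lit 1) (nat_lit 0x400200020009132982))) 
(.lf (nat_lit 62424162) (dlOf (nat_lit 1) (nat_lit 0x8004000600099a2982))))) (.nd (nat_lit 18) 
(.nd (nat_lit 21) 
(.lf (nat_lit 1074299234) (dlOf (nat_lit 5) (nat_lit 0x108000000340200640000000f8100b50000000780801700000003a040144002002a00081b0702))) 
(.lf (nat_lit 23626082) (dlOf (nat_lit 1) (nat_lit 0x620028b80701)))) (.nd (nat_lit 11) 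
(.lf (nat_lit 1868130) (dlOf (nat_lit 3) (nat_lit 0x40000003402000200000019818150700))) 
(.lf (nat_lit 54298978) (dlOf (nat_lit 1) (nat_lit 0x20008000400200020009654e83))))))) 
(.nd (nat_lit 8) (.nd (nat_lit 10) (.nd (nat_lit 11) (.nd (nat_lit 18) 
(.lf (nat_lit 1344307298) (dlOf (nat_lit 1) (nat_lit 0x8180080054002017e00086b0483))) 
(.lf (nat_lit 3020193890) (dlOf (nat_lit 4) (nat_lit 0xb0158001f40800180ac00100480007504000602b00039818150d00)))) 
(.nd (nat_lit 12) (.lf (nat_lit 805341282) (dlOf (nat_lit 2) (nat_lit 0x400e00030818004700))) 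
(.lf (nat_lit 3492845666) (dlOf (nat_lit 3) (nat_lit 0x801ec0027e0400440f60013402002400280fa801))))) 
(.nd (nat_lit 9) (.nd (nat_lit 11) 
(.lf (nat_lit 472155234) (dlOf (nat_lit 1) (nat_lit 0x20028862981))) 
(.lf (nat_lit 469802082) (dlOf (nat_lit 9) (nat_lit 0x3407e0002b81000504e8007823800e00fc0004e06002809d000f047001b81f80009a0c00380fc0004c02000207e0002501000203f0001200800a827400b411c009207e0001e83000f03f0000000800a0008014c002000a000800c003)))) 
(.lf (nat_lit 4630546018) (dlOf (nat_lit 2) (nat_lit 0x300200009008024800800a8002000c0008003903))))) 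
(.nd (nat_lit 26) (.nd (nat_lit 10) (.nd (nat_lit 19) 
(.lf (nat_lit 3493888354) (dlOf (nat_lit 1) (nat_lit 0xe00081b0701))) 
(.lf (nat_lit 1342734690) (dlOf (nat_lit 4) (nat_lit 0x28118800987cc00283d20001e06004c1710000c810029000000054080010008010c002000800080c0703)))) 
(.lf (nat_lit 3490221410) (dlOf (nat_lit 1) (nat_lit 0x20018006a81)))) (.nd (nat_lit 18) 
(.nd (nat_lit 27) 
(.lf (nat_lit 1946714466) (dlOf (nat_lit 5) (nat_lit 0x108000000340200640000000f8100b50000000780801700000003a040144002002a00081b0702))) 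
(.lf (nat_lit 470319458) (dlOf (nat_lit 4) (nat_lit 0x28118800987c800283d20001e06004c1730000c810029000000054080010008010c002000800080c0703)))) 
(.lf (nat_lit 4094460258) (dlOf (nat_lit 1) (nat_lit 0x20028050e81))))))) (.nd (nat_lit 19) 
(.nd (nat_lit 10) (.nd (nat_lit 8) (.nd (nat_lit 28) (.nd (nat_lit 18) 
(.lf (nat_lit 47284322) (dlOf (nat_lit 5) (nat_lit 0x65de0004ae90002968801865060006bd300065de0004ae9000296880186408000ebd300085de0002ae9000156880186308000ebd300085de0002ae9000096880186208000c00093c0781))) 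
(.lf (nat_lit 1745191010) (dlOf (nat_lit 1) (nat_lit 0x80080004002000200080d1c83)))) 
(.nd (nat_lit 21) (.lf (nat_lit 6241484898) (dlOf (nat_lit 1) (nat_lit 0x1800400140018100782))) 
(.lf (nat_lit 3492118626) (dlOf (nat_lit 1) (nat_lit 0x8004000c00080a1382))))) (.nd (nat_lit 11) 
(.nd (nat_lit 20) 
(.lf (nat_lit 2755756386) (dlOf (nat_lit 1) (nat_lit 0x80080004002000200081b0703))) 
(.lf (nat_lit 3244386) (dlOf (nat_lit 2) (nat_lit 0x8940000150200080028200701)))) 
(.lf (nat_lit 5838571874) (dlOf (nat_lit 1) (nat_lit 0xb80080010002001000080f4e83))))) 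
(.nd (nat_lit 9) (.nd (nat_lit 8) (.nd (nat_lit 18) 
(.lf (nat_lit 60916834) (dlOf (nat_lit 1) (nat_lit 0x600298c2981))) 
(.lf (nat_lit 38110306) (dlOf (nat_lit 1) (nat_lit 0x400200700009132982)))) 
(.lf (nat_lit 1342279010) (dlOf (nat_lit 1) (nat_lit 0x20028006a81)))) (.nd (nat_lit 12) 
(.lf (nat_lit 4697720418) (dlOf (nat_lit 1) (nat_lit 0x8008000400200020008093903))) 
(.lf (nat_lit 8492642) (dlOf (nat_lit 1) (nat_lit 0x20008519c01)))))) (.nd (nat_lit 18) 
(.nd (nat_lit 8) (.nd (nat_lit 10) (.nd (nat_lit 11) 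
(.lf (nat_lit 1342799970) (dlOf (nat_lit 1) (nat_lit 0x4004000200080d1382))) 
(.lf (nat_lit 9013346) (dlOf (nat_lit 1) (nat_lit 0x20018514701)))) 
(.lf (nat_lit 1346995298) (dlOf (nat_lit 3) (nat_lit 0x42c0001209c000108200090468000700800d000800d800200040009162983)))) 
(.nd (nat_lit 11) (.lf (nat_lit 23691618) (dlOf (nat_lit 1) (nat_lit 0x5a0018b80701))) 
(.lf (nat_lit 33130850) (dlOf (nat_lit 1) (nat_lit 0x400200020008f54e82))))) (.nd (nat_lit 10) 
(.nd (nat_lit 9) 
(.lf (nat_lit 1346207842) (dlOf (nat_lit 2) (nat_lit 0x295036400c41b00000004000e0008e60901))) 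
(.lf (nat_lit 45976162) (dlOf (nat_lit 1) (nat_lit 0x400200020009385382)))) (.nd (nat_lit 21) 
(.nd (nat_lit 22) (.lf (nat_lit 60654690) (dlOf (nat_lit 1) (nat_lit 0x400298c2981))) 
(.lf (nat_lit 56460386) (dlOf (nat_lit 1) (nat_lit 0x20019732981)))) 
(.lf (nat_lit 62751842) (dlOf (nat_lit 2) (nat_lit 0x1d71e0005a02000400099a2981)))))))) 
(.nd (nat_lit 18) (.nd (nat_lit 8) (.nd (nat_lit 26) (.nd (nat_lit 22) (.nd (nat_lit 24) 
(.nd (nat_lit 10) (.lf (nat_lit 6442551522) (dlOf (nat_lit 1) (nat_lit 0x24004000600080f4b02))) 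
(.lf (nat_lit 1744864482) (dlOf (nat_lit 1) (nat_lit 0x400200020008002e02)))) (.nd (nat_lit 19) 
(.lf (nat_lit 18907362) (dlOf (nat_lit 1) (nat_lit 0x800200060008970582))) 
(.lf (nat_lit 17334498) (dlOf (nat_lit 1) (nat_lit 0xc00288e0581))))) (.nd (nat_lit 16) 
(.nd (nat_lit 23) 
(.lf (nat_lit 1346404578) (dlOf (nat_lit 6) (nat_lit 0x5448c002215200150a7800583d4004781000482a4005e14f001198200200a9000102480046208001848c000815200050a78008bc1801b89180045a0400b000400240008f60a82))) 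
(.lf (nat_lit 46170338) (dlOf (nat_lit 1) (nat_lit 0x400200020009380a82)))) 
(.lf (nat_lit 30507234) (dlOf (nat_lit 3) (nat_lit 0x515ee0002a02000eaf80000e818e30580))))) 
(.nd (nat_lit 10) (.nd (nat_lit 9) (.nd (nat_lit 16) 
(.lf (nat_lit 471367906) (dlOf (nat_lit 2) (nat_lit 0x82f400054040008004000800182e0582))) 
(.lf (nat_lit 471957730) (dlOf (nat_lit 2) (nat_lit 0x221a00170cc00168000000540c000400200060008740582)))) 
(.lf (nat_lit 4898982626) (dlOf (nat_lit 1) (nat_lit 0x400200020008005982)))) (.nd (nat_lit 9) 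
(.nd (nat_lit 11) (.lf (nat_lit 335578338) (dlOf (nat_lit 2) (nat_lit 0x40200001a818002e00))) 
(.lf (nat_lit 5838576866) (dlOf (nat_lit 1) (nat_lit 0x80080004002000200080fc583)))) 
(.lf (nat_lit 201361122) (dlOf (nat_lit 1) (nat_lit 0x240018003a81)))))) (.nd (nat_lit 11) 
(.nd (nat_lit 9) (.nd (nat_lit 26) 
(.lf (nat_lit 3491332578) (dlOf (nat_lit 3) (nat_lit 0x203ce000050200ee1e700000018090c00))) 
(.lf (nat_lit 2753135074) (dlOf (nat_lit 3) (nat_lit 0x203f2000050200ee1f900000018090c00)))) 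
(.nd (nat_lit 10) (.nd (nat_lit 16) 
(.lf (nat_lit 50365410) (dlOf (nat_lit 1) (nat_lit 0x200294c2881))) 
(.lf (nat_lit 36799458) (dlOf (nat_lit 1) (nat_lit 0x40019072881)))) 
(.lf (nat_lit 8427490) (dlOf (nat_lit 1) (nat_lit 0x2001851a601))))) (.nd (nat_lit 16) 
(.nd (nat_lit 9) (.lf (nat_lit 201365986) (dlOf (nat_lit 1) (nat_lit 0xc8002800b281))) 
(.nd (nat_lit 19) (.lf (nat_lit 2952829922) (dlOf (nat_lit 1) (nat_lit 0x8002000a000800bf02))) 
(.lf (nat_lit 564194) (dlOf (nat_lit 2) (nat_lit 0x2400000a5b02000a001800bf01))))) 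
(.nd (nat_lit 12) (.lf (nat_lit 738298850) (dlOf (nat_lit 1) (nat_lit 0x400200020008095e82))) 
(.lf (nat_lit 105442) (dlOf (nat_lit 2) (nat_lit 0x1c00000a5b020014001800bf01))))))) 
(.nd (nat_lit 16) (.nd (nat_lit 8) (.nd (nat_lit 12) (.nd (nat_lit 19) (.nd (nat_lit 24) 
(.lf (nat_lit 11829474) (dlOf (nat_lit 1) (nat_lit 0x80080004002000200086c0483))) 
(.lf (nat_lit 28606690) (dlOf (nat_lit 1) (nat_lit 0x20008da0581)))) 
(.lf (nat_lit 30179554) (dlOf (nat_lit 1) (nat_lit 0x8008000c00200060008e30583)))) (.nd (nat_lit 9) 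
(.lf (nat_lit 8164578) (dlOf (nat_lit 1) (nat_lit 0x1400200020008519502))) 
(.lf (nat_lit 8164066) (dlOf (nat_lit 1) (nat_lit 0x8008000400200020008518c83))))) (.nd (nat_lit 9) 
(.nd (nat_lit 26) 
(.lf (nat_lit 3221520866) (dlOf (nat_lit 3) (nat_lit 0x4200e00011010028007000070080148008002800200500008127303))) 
(.lf (nat_lit 6509855202) (dlOf (nat_lit 1) (nat_lit 0x68008000c00200040008157303)))) 
(.nd (nat_lit 11) (.lf (nat_lit 34374626) (dlOf (nat_lit 1) (nat_lit 0x20008fb2881))) 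
(.nd (nat_lit 12) (.lf (nat_lit 4094462946) (dlOf (nat_lit 1) (nat_lit 0x40028055e81))) 
(.lf (nat_lit 2818874338) (dlOf (nat_lit 2) (nat_lit 0x400e0052881812bf00))))))) (.nd (nat_lit 28) 
(.nd (nat_lit 19) (.nd (nat_lit 8) 
(.lf (nat_lit 28672226) (dlOf (nat_lit 2) (nat_lit 0x7e9f800015018da0580))) 
(.lf (nat_lit 2751824866) (dlOf (nat_lit 1) (nat_lit 0x20018002881)))) (.nd (nat_lit 20) 
(.lf (nat_lit 7176418) (dlOf (nat_lit 2) (nat_lit 0xbc3fd000150184b0580))) 
(.lf (nat_lit 6127842) (dlOf (nat_lit 2) (nat_lit 0x699800015018420580))))) (.nd (nat_lit 26) 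
(.nd (nat_lit 10) 
(.lf (nat_lit 2953150690) (dlOf (nat_lit 20) (nat_lit 0x200260018005000230200c20138099804c050c00a00045060262013001700480a08014000880c0008026000600500021820086013805a008c02d0040016401e00b200d0058805c02e002600e6009007f002805880080178002018c000000210c0089013803900980278046013c020009800f00500068027002e0132013000a00580340024023401000f6005009d00100278004021c000000411e00f2027007d010003c806801f402e013a013006500280348000000801c020004e02660130142002803300000007e1004dc02601d400901480028000f418096804c04e800a00cc0000001d8300c6009802b0024017800a00240000001c840022009800d8024005c00000038060184027013600980a300140006a0c0140026000300200cc000000168100660000000b00806d809c001004c00a602300a501100738084039c03e01cc01e000100c8067804c0370012019a00100ea0000000a860031804c016c01200b00000000483006f00480000008002800802d400202260008160583))) 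
(.lf (nat_lit 3624242402) (dlOf (nat_lit 1) (nat_lit 0x800400020008146502)))) (.nd (nat_lit 29) 
(.lf (nat_lit 3691348194) (dlOf (nat_lit 20) (nat_lit 0x200280018005000230200c201100998050050c00a00045060262014001700480a08014000880c00080280006005000218200b40120043008802d0040016401b00b200c805c005002c402400e6009007f002805880080178002018c000000210c0072013804f00900224044013c02000a000d804c006402640280138012000a00580340024023401000f6005009d00100278004021c000000411e00f2022007d010003c806c027402800fa012006500280348000000801c020004402660140142002803300000007e1004dc02801d400901480028000f418096805004e800a00cc0000001d8300c600a002b0024017800a00240000001c84002200a000d8024005c00000038060184022013600a00a300140006a0c0140028000300200cc000000168100660000000b008002009c014c048014a02300db01100738084039c03e000201a00e600c806780500370012019a00100ea0000000a8600318050016c01200b00000000483006f00480000008002800802d400202260008160583))) 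
(.lf (nat_lit 2080735458) (dlOf (nat_lit 1) (nat_lit 0xc00180c1b01))))))))))))

end

end Pool.Agent.Lib.MP_5854e1_co.Cz

namespace Pool.Agent.Lib.MP_5854e1_co.Cz

noncomputable section

noncomputable def tz129 : DT := (.nd (nat_lit 16) (.nd (nat_lit 6) (.nd (nat_lit 5) 
(.nd (nat_lit 15) (.nd (nat_lit 19) (.nd (nat_lit 18) (.nd (nat_lit 8) (.nd (nat_lit 12) 
(.nd (nat_lit 9) (.nd (nat_lit 10) 
(.lf (nat_lit 471867522) (dlOf (nat_lit 1) (nat_lit 0x44c00400c400086b0482))) 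
(.lf (nat_lit 939535490) (dlOf (nat_lit 1) (nat_lit 0x740008006101)))) 
(.lf (nat_lit 671100546) (dlOf (nat_lit 3) (nat_lit 0x4804c001201d000c00c00068040003000a001600200100000001583800e8098003403a00200100007001000080000000014005000400080018007182)))) 
(.nd (nat_lit 7) (.nd (nat_lit 10) 
(.lf (nat_lit 8401410) (dlOf (nat_lit 1) (nat_lit 0x20018518681))) 
(.lf (nat_lit 3355457026) (dlOf (nat_lit 1) (nat_lit 0x18008000400200040008009c03)))) 
(.nd (nat_lit 27) 
(.lf (nat_lit 2684368514) (dlOf (nat_lit 2) (nat_lit 0x4064000a02300160058001ec180090008003c00200140008009d83))) 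
(.lf (nat_lit 2281715330) (dlOf (nat_lit 2) (nat_lit 0x700e0001ec080030008001000200040008009d83)))))) 
(.nd (nat_lit 9) (.nd (nat_lit 31) (.nd (nat_lit 12) 
(.lf (nat_lit 5771372930) (dlOf (nat_lit 2) (nat_lit 0x180a001c2c04000400400040018004e82))) 
(.lf (nat_lit 1342192002) (dlOf (nat_lit 1) (nat_lit 0x800800dc0020006000800af83)))) 
(.nd (nat_lit 20) (.lf (nat_lit 3489671554) (dlOf (nat_lit 1) (nat_lit 0x20018004e81))) 
(.lf (nat_lit 2754619778) (dlOf (nat_lit 1) (nat_lit 0x400180f4e81))))) (.nd (nat_lit 27) 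
(.nd (nat_lit 29) (.lf (nat_lit 2415929218) (dlOf (nat_lit 1) (nat_lit 0x400400020008004182))) 
(.lf (nat_lit 4026541954) (dlOf (nat_lit 1) (nat_lit 0x400400020008004182)))) (.nd (nat_lit 26) 
(.lf (nat_lit 4429195138) (dlOf (nat_lit 1) (nat_lit 0x20008004181))) 
(.lf (nat_lit 1006643074) (dlOf (nat_lit 1) (nat_lit 0x20008004181))))))) (.nd (nat_lit 30) 
(.nd (nat_lit 26) (.nd (nat_lit 21) (.nd (nat_lit 27) 
(.lf (nat_lit 2953060354) (dlOf (nat_lit 2) (nat_lit 0x680500183604002c004004800180f0002))) 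
(.lf (nat_lit 402923522) (dlOf (nat_lit 1) (nat_lit 0x48002000600080b0002)))) 
(.lf (nat_lit 19144706) (dlOf (nat_lit 1) (nat_lit 0x60008970001)))) (.nd (nat_lit 7) 
(.nd (nat_lit 28) (.lf (nat_lit 4362346498) (dlOf (nat_lit 1) (nat_lit 0x400400020008030002))) 
(.lf (nat_lit 335814658) (dlOf (nat_lit 1) (nat_lit 0x48002000600080b0002)))) 
(.lf (nat_lit 4899220354) (dlOf (nat_lit 2) (nat_lit 0x140340015602000200080d5c01))))) 
(.nd (nat_lit 7) (.nd (nat_lit 12) (.nd (nat_lit 27) 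
(.lf (nat_lit 1946427394) (dlOf (nat_lit 1) (nat_lit 0x20018090001))) 
(.lf (nat_lit 4228128770) (dlOf (nat_lit 1) (nat_lit 0x400400020008030002)))) 
(.lf (nat_lit 3557044226) (dlOf (nat_lit 1) (nat_lit 0xe000800b800200f60008127a83)))) 
(.nd (nat_lit 8) (.lf (nat_lit 5436088450) (dlOf (nat_lit 1) (nat_lit 0xa00280c0e81))) 
(.lf (nat_lit 3489933698) (dlOf (nat_lit 1) (nat_lit 0x400200020008004e82))))))) (.nd (nat_lit 30) 
(.nd (nat_lit 20) (.nd (nat_lit 18) (.nd (nat_lit 21) (.nd (nat_lit 22) 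
(.lf (nat_lit 2886213634) (dlOf (nat_lit 2) (nat_lit 0x4800000a4204000400200120008190002))) 
(.lf (nat_lit 55058434) (dlOf (nat_lit 1) (nat_lit 0x100080010002001c00096a0003)))) 
(.nd (nat_lit 7) (.lf (nat_lit 48766978) (dlOf (nat_lit 1) (nat_lit 0x8008000400200020009420003))) 
(.lf (nat_lit 44572802) (dlOf (nat_lit 1) (nat_lit 0x8008000400200020009320303))))) 
(.nd (nat_lit 23) 
(.lf (nat_lit 2819366914) (dlOf (nat_lit 4) (nat_lit 0xe8188009c0c000b0d0400280620058401000c031002c1c080140008002400200180008250003))) 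
(.nd (nat_lit 24) (.lf (nat_lit 9183234) (dlOf (nat_lit 1) (nat_lit 0x80018530001))) 
(.lf (nat_lit 59514882) (dlOf (nat_lit 1) (nat_lit 0xa80080010002000c0009800003)))))) 
(.nd (nat_lit 24) (.nd (nat_lit 18) (.nd (nat_lit 22) 
(.lf (nat_lit 9969666) (dlOf (nat_lit 2) (nat_lit 0x800000e9602000a00085a0001))) 
(.lf (nat_lit 5775362) (dlOf (nat_lit 1) (nat_lit 0xa00183d0001)))) 
(.lf (nat_lit 6037506) (dlOf (nat_lit 1) (nat_lit 0x400400020018420002)))) (.nd (nat_lit 10) 
(.nd (nat_lit 22) (.lf (nat_lit 26746882) (dlOf (nat_lit 1) (nat_lit 0x140028c70001))) 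
(.lf (nat_lit 22552578) (dlOf (nat_lit 1) (nat_lit 0x100028af0001)))) 
(.lf (nat_lit 56108034) (dlOf (nat_lit 1) (nat_lit 0x400200020009732882)))))) (.nd (nat_lit 26) 
(.nd (nat_lit 20) (.nd (nat_lit 29) (.nd (nat_lit 7) (.nd (nat_lit 27) 
(.lf (nat_lit 1342709762) (dlOf (nat_lit 2) (nat_lit 0x788c401afc040008002001e00080c0002))) 
(.lf (nat_lit 3624411138) (dlOf (nat_lit 2) (nat_lit 0x480000156c04000400200120008190002)))) 
(.lf (nat_lit 3221758082) (dlOf (nat_lit 2) (nat_lit 0x900000000004001c00200220008170102)))) 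
(.nd (nat_lit 21) (.lf (nat_lit 1879580674) (dlOf (nat_lit 1) (nat_lit 0xdc0018200001))) 
(.lf (nat_lit 1881677826) (dlOf (nat_lit 1) (nat_lit 0x1c0028fd0001))))) (.nd (nat_lit 9) 
(.lf (nat_lit 5773205506) (dlOf (nat_lit 5) (nat_lit 0x6413100170980073481001704bc0197404014025e00c9c02000e12f000000180b0000))) 
(.lf (nat_lit 1345856002) (dlOf (nat_lit 4) (nat_lit 0x5822a002a114000b002001e08a80038c08012845c0000004012400400020008e07b02))))) 
(.nd (nat_lit 18) (.nd (nat_lit 7) (.nd (nat_lit 28) 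
(.lf (nat_lit 1678254082) (dlOf (nat_lit 2) (nat_lit 0x800000000004001c002001000081c0002))) 
(.lf (nat_lit 3557302274) (dlOf (nat_lit 1) (nat_lit 0x80080008002000400081b0003)))) 
(.lf (nat_lit 3959955586) (dlOf (nat_lit 2) (nat_lit 0x900000000004001c00200220008170102)))) 
(.nd (nat_lit 20) 
(.lf (nat_lit 3557564418) (dlOf (nat_lit 1) (nat_lit 0x8008000400200020008270003))) 
(.lf (nat_lit 6377185282) (dlOf (nat_lit 5) (nat_lit 0x6412200170908065b410017048000e22040140240006f302000e120000000180b0000)))))))) 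
(.nd (nat_lit 18) (.nd (nat_lit 19) (.nd (nat_lit 8) (.nd (nat_lit 10) (.nd (nat_lit 9) 
(.nd (nat_lit 23) (.lf (nat_lit 1881186306) (dlOf (nat_lit 1) (nat_lit 0x3c800401620008e40002))) 
(.lf (nat_lit 44081154) (dlOf (nat_lit 1) (nat_lit 0x200192c0001)))) 
(.lf (nat_lit 8434178) (dlOf (nat_lit 1) (nat_lit 0x400200020008518682)))) (.nd (nat_lit 7) 
(.lf (nat_lit 67156994) (dlOf (nat_lit 1) (nat_lit 0x2001800bf01))) 
(.lf (nat_lit 2885725314) (dlOf (nat_lit 1) (nat_lit 0x800400040008006102))))) (.nd (nat_lit 10) 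
(.nd (nat_lit 22) (.lf (nat_lit 5771403522) (dlOf (nat_lit 1) (nat_lit 0x2e00018000a81))) 
(.nd (nat_lit 23) (.lf (nat_lit 1346412802) (dlOf (nat_lit 1) (nat_lit 0x80018f60a81))) 
(.lf (nat_lit 46178562) (dlOf (nat_lit 1) (nat_lit 0x400200020009380a82))))) (.nd (nat_lit 7) 
(.lf (nat_lit 201369346) (dlOf (nat_lit 2) (nat_lit 0x10082000470200060018003b81))) 
(.nd (nat_lit 9) (.lf (nat_lit 2483076482) (dlOf (nat_lit 1) (nat_lit 0x2002800c901))) 
(.lf (nat_lit 42882) (dlOf (nat_lit 1) (nat_lit 0x20028004181))))))) (.nd (nat_lit 21) 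
(.nd (nat_lit 26) (.nd (nat_lit 28) (.nd (nat_lit 20) (.nd (nat_lit 27) 
(.lf (nat_lit 1611177986) (dlOf (nat_lit 2) (nat_lit 0x902a805758080130008004800200260008100003))) 
(.lf (nat_lit 2819137538) (dlOf (nat_lit 1) (nat_lit 0x80002000c00081a0002)))) 
(.lf (nat_lit 10002434) (dlOf (nat_lit 1) (nat_lit 0x200285a0001)))) (.nd (nat_lit 9) 
(.lf (nat_lit 805871618) (dlOf (nat_lit 26) (nat_lit 0x978108035740404d408401ab802026a04f010e025809900e0018804c019c408025204b00bc021805500f8000803c001000000c8885000101c005ec80818e011000b808601c603b008618302e4022013a810c03c8076010bd06002802d0085d0101e9022007200ec00cc05a0105b060318044005401d802500b4020a40c01480880104f0200360440082701004502200412c0802f80b401f3a04068408800f8002049c044007bf8101cf022003dd0081310110048808600f72040570044007b681001a021803d400809a00b401e3a0403f805a00f1b02002402d00789810112016803c20080be8110017005a0000004000200181d0001))) 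
(.lf (nat_lit 1342743042) (dlOf (nat_lit 1) (nat_lit 0x200180c0d81))))) (.nd (nat_lit 28) 
(.nd (nat_lit 27) 
(.lf (nat_lit 1678286850) (dlOf (nat_lit 26) (nat_lit 0x97810803c240404d408401e1002026a04f010e025809900e0018804c01d1f08025204b00bc021805500f8000803c001000000e2f05000101c006c740818e011000b808601c603b008200302e4022013a810c03c80760103a06002802d0081b8101e9022007200ec00cc05a00fd2060318044005401d802500b401f920c014808800fc6020036044007e2010045022003f080802f80b401f3604068408800f9002049c044007c78101cf022003de0081310110048808600f76040570044007b781001a021803d640809a00b401e320403f805a00f1702002402d00788810112016803c18080be8110017005a0000004000200181d0001))) 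
(.lf (nat_lit 738762754) (dlOf (nat_lit 2) (nat_lit 0x902a805cd0080130008004800200260008100003)))) 
(.nd (nat_lit 8) (.lf (nat_lit 470327810) (dlOf (nat_lit 1) (nat_lit 0x200180c0d81))) 
(.lf (nat_lit 3154682114) (dlOf (nat_lit 1) (nat_lit 0x10008000c002006e0008310703)))))) 
(.nd (nat_lit 20) (.nd (nat_lit 23) 
(.lf (nat_lit 2662402) (dlOf (nat_lit 1) (nat_lit 0x200018190001))) (.nd (nat_lit 24) 
(.lf (nat_lit 11051010) (dlOf (nat_lit 3) (nat_lit 0x220000038a810066c258000000800800080010002000c0008660003))) 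
(.lf (nat_lit 27828226) (dlOf (nat_lit 1) (nat_lit 0x180080040002003c0008d30003))))) 
(.nd (nat_lit 7) (.nd (nat_lit 10) 
(.lf (nat_lit 58237442) (dlOf (nat_lit 2) (nat_lit 0x30a5b000852c80036410024000800c0002000400097c7b03))) 
(.lf (nat_lit 20493826) (dlOf (nat_lit 1) (nat_lit 0x1e00289d9c01)))) 
(.lf (nat_lit 12099714) (dlOf (nat_lit 1) (nat_lit 0x4002000200086c0102))))))) (.nd (nat_lit 26) 
(.nd (nat_lit 21) (.nd (nat_lit 28) (.nd (nat_lit 20) (.nd (nat_lit 27) 
(.lf (nat_lit 3758399490) (dlOf (nat_lit 3) (nat_lit 0x114078036e0350119018010080a80774046005602200230090069143803a80f0030c06a0242030021b01500fa808c00b40440042019001200900690c400218008005c00200060008170003))) 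
(.lf (nat_lit 134520834) (dlOf (nat_lit 1) (nat_lit 0x400400020008050002)))) (.nd (nat_lit 19) 
(.lf (nat_lit 26517506) (dlOf (nat_lit 1) (nat_lit 0x20008001800200020008c50003))) 
(.lf (nat_lit 31236098) (dlOf (nat_lit 1) (nat_lit 0x800400020018e70002))))) (.nd (nat_lit 27) 
(.nd (nat_lit 7) 
(.lf (nat_lit 3494158338) (dlOf (nat_lit 5) (nat_lit 0x102980010134016fc08000c0a0000204d000201e802df4180050150016f804000c0ba0002054000302880030140001409a0002045000301f802de438009800800a0002002600081c0003))) 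
(.lf (nat_lit 3489966466) (dlOf (nat_lit 1) (nat_lit 0x400200020008004e82)))) (.nd (nat_lit 29) 
(.lf (nat_lit 1476698114) (dlOf (nat_lit 1) (nat_lit 0x8008003400200020008140003))) 
(.lf (nat_lit 3087310850) (dlOf (nat_lit 1) (nat_lit 0x16800400a80008170002)))))) (.nd (nat_lit 19) 
(.nd (nat_lit 8) (.nd (nat_lit 23) 
(.lf (nat_lit 2400258) (dlOf (nat_lit 4) (nat_lit 0x2548e01a3a020018a4700d1c01000a52380676c080058008002400200100008150003))) 
(.lf (nat_lit 44343298) (dlOf (nat_lit 2) (nat_lit 0x463e0004313806f4c1000100080008002000c00092f0003)))) 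
(.lf (nat_lit 57975042) (dlOf (nat_lit 1) (nat_lit 0x2c00197a3581)))) (.nd (nat_lit 8) 
(.nd (nat_lit 20) (.lf (nat_lit 3492585474) (dlOf (nat_lit 2) (nat_lit 0x2b41fa0038a8180e0000))) 
(.lf (nat_lit 1346150402) (dlOf (nat_lit 2) (nat_lit 0x9829800420d700e45828e60000)))) 
(.lf (nat_lit 8173314) (dlOf (nat_lit 1) (nat_lit 0xc002851a001)))))) (.nd (nat_lit 31) 
(.nd (nat_lit 27) (.nd (nat_lit 28) 
(.lf (nat_lit 604282882) (dlOf (nat_lit 1) (nat_lit 0xcc002001c0008130002))) (.nd (nat_lit 30) 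
(.lf (nat_lit 5167685634) (dlOf (nat_lit 1) (nat_lit 0x8008000400200020008100003))) 
(.lf (nat_lit 1946460162) (dlOf (nat_lit 4) (nat_lit 0x13c05200cee0200600290067201002b01480332c080020008002c00200900008090003))))) 
(.nd (nat_lit 7) (.lf (nat_lit 201629698) (dlOf (nat_lit 1) (nat_lit 0x400400020008050002))) 
(.lf (nat_lit 4496599938) (dlOf (nat_lit 1) (nat_lit 0x4004000200080e5c02))))) (.nd (nat_lit 30) 
(.nd (nat_lit 10) (.nd (nat_lit 19) (.nd (nat_lit 22) 
(.lf (nat_lit 2214895618) (dlOf (nat_lit 1) (nat_lit 0x40008001000200020008100003))) 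
(.lf (nat_lit 2755960834) (dlOf (nat_lit 5) (nat_lit 0x10298001013400bdc08000c0a0000204d000201e8017b418005015000bd804000c0ba0002054000302880030140001409a0002045000301f8017a438009800800a0002002600081c0003)))) 
(.lf (nat_lit 2754387970) (dlOf (nat_lit 2) (nat_lit 0x2b420f0065f8180e0000)))) 
(.lf (nat_lit 2751767554) (dlOf (nat_lit 1) (nat_lit 0x400200020008002882)))) (.nd (nat_lit 19) 
(.nd (nat_lit 27) (.lf (nat_lit 3825508354) (dlOf (nat_lit 1) (nat_lit 0x16800400a80008170002))) 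
(.lf (nat_lit 3422855170) (dlOf (nat_lit 2) (nat_lit 0x80190032fc0802a00080110002002e0008120003)))) 
(.lf (nat_lit 4228685826) (dlOf (nat_lit 1) (nat_lit 0x4002002800081a0002))))))))) 
(.nd (nat_lit 28) (.nd (nat_lit 19) (.nd (nat_lit 18) (.nd (nat_lit 8) (.nd (nat_lit 11) 
(.nd (nat_lit 24) (.nd (nat_lit 15) 
(.lf (nat_lit 10493986) (dlOf (nat_lit 2) (nat_lit 0x99fb000f2060000a41000080080020002000c00085e0c03))) 
(.lf (nat_lit 14721058) (dlOf (nat_lit 1) (nat_lit 0x20018770181)))) (.nd (nat_lit 23) 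
(.lf (nat_lit 52437026) (dlOf (nat_lit 1) (nat_lit 0x20019530181))) 
(.lf (nat_lit 27271202) (dlOf (nat_lit 1) (nat_lit 0x400200020008cc0682))))) (.nd (nat_lit 7) 
(.lf (nat_lit 2754620962) (dlOf (nat_lit 1) (nat_lit 0x500080004002000600080f7183))) 
(.nd (nat_lit 9) 
(.lf (nat_lit 4362086562) (dlOf (nat_lit 1) (nat_lit 0x100080054002001c0008004883))) 
(.lf (nat_lit 51391138) (dlOf (nat_lit 2) (nat_lit 0x719d20001a0200020029515601)))))) 
(.nd (nat_lit 7) (.nd (nat_lit 10) 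
(.lf (nat_lit 536885538) (dlOf (nat_lit 1) (nat_lit 0x72000800ab81))) (.nd (nat_lit 26) 
(.lf (nat_lit 6039811362) (dlOf (nat_lit 1) (nat_lit 0x8008000800200060008009783))) 
(.lf (nat_lit 3422565666) (dlOf (nat_lit 2) (nat_lit 0x80380005c04004400200240008009782))))) 
(.nd (nat_lit 9) (.nd (nat_lit 10) 
(.lf (nat_lit 2754619810) (dlOf (nat_lit 1) (nat_lit 0x200080f4e81))) 
(.lf (nat_lit 48546) (dlOf (nat_lit 1) (nat_lit 0x40020002000800cb02)))) 
(.lf (nat_lit 4362086306) (dlOf (nat_lit 1) (nat_lit 0x60002001a0008004282)))))) (.nd (nat_lit 23) 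
(.nd (nat_lit 26) (.nd (nat_lit 7) (.nd (nat_lit 15) (.nd (nat_lit 27) 
(.lf (nat_lit 537141282) (dlOf (nat_lit 3) (nat_lit 0x405f0001601000602f8000a8080058008007c00200720008030983))) 
(.lf (nat_lit 671359010) (dlOf (nat_lit 2) (nat_lit 0x2c04a002c022005f8028160480)))) 
(.lf (nat_lit 3758399522) (dlOf (nat_lit 1) (nat_lit 0x3000200160008170182)))) 
(.lf (nat_lit 20199074) (dlOf (nat_lit 1) (nat_lit 0x8002000c00089d9f82)))) (.nd (nat_lit 8) 
(.nd (nat_lit 29) (.lf (nat_lit 2214895650) (dlOf (nat_lit 1) (nat_lit 0x60008100501))) 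
(.lf (nat_lit 1678024738) (dlOf (nat_lit 3) (nat_lit 0x806c00006040034036000000200060028140c01)))) 
(.nd (nat_lit 27) 
(.lf (nat_lit 6509863202) (dlOf (nat_lit 1) (nat_lit 0x48008001c00200080008154303))) 
(.lf (nat_lit 1812242722) (dlOf (nat_lit 1) (nat_lit 0x8002000200081a7802)))))) (.nd (nat_lit 21) 
(.nd (nat_lit 15) (.lf (nat_lit 26484770) (dlOf (nat_lit 1) (nat_lit 0xc0008c50181))) 
(.nd (nat_lit 24) 
(.lf (nat_lit 9740322) (dlOf (nat_lit 2) (nat_lit 0x300000008a04005c00200040008580182))) 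
(.lf (nat_lit 26517538) (dlOf (nat_lit 1) (nat_lit 0x20018c50181))))) (.nd (nat_lit 20) 
(.nd (nat_lit 15) (.lf (nat_lit 14950434) (dlOf (nat_lit 2) (nat_lit 0x80000000402000e00087a0601))) 
(.lf (nat_lit 14983202) (dlOf (nat_lit 2) (nat_lit 0x364d30000e0187a0600)))) (.nd (nat_lit 22) 
(.lf (nat_lit 62169122) (dlOf (nat_lit 1) (nat_lit 0x150008003400200320009960183))) 
(.lf (nat_lit 32808994) (dlOf (nat_lit 1) (nat_lit 0x8008000400200020008f20703)))))))) 
(.nd (nat_lit 29) (.nd (nat_lit 20) (.nd (nat_lit 26) (.nd (nat_lit 21) (.nd (nat_lit 9) 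
(.lf (nat_lit 21536802) (dlOf (nat_lit 2) (nat_lit 0x239a00008c0400c800200020008a40182))) 
(.lf (nat_lit 50864674) (dlOf (nat_lit 3) (nat_lit 0x35b4d0033f010010da68016540801b80080144002004200094d8703)))) 
(.nd (nat_lit 22) (.lf (nat_lit 11018274) (dlOf (nat_lit 1) (nat_lit 0x400200020008650682))) 
(.lf (nat_lit 48767010) (dlOf (nat_lit 2) (nat_lit 0x59d460003e0200020009420181))))) 
(.nd (nat_lit 30) (.nd (nat_lit 32) 
(.lf (nat_lit 67641378) (dlOf (nat_lit 1) (nat_lit 0x300080008002000200082c0683))) 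
(.lf (nat_lit 4362608674) (dlOf (nat_lit 1) (nat_lit 0x80080004002000200080a0903)))) 
(.lf (nat_lit 3288866850) (dlOf (nat_lit 2) (nat_lit 0x3801800ebe040040004000200181d0a02))))) 
(.nd (nat_lit 8) (.nd (nat_lit 18) 
(.lf (nat_lit 45621282) (dlOf (nat_lit 2) (nat_lit 0x1c0624000aa04000400400060009340182))) 
(.nd (nat_lit 21) 
(.lf (nat_lit 27009058) (dlOf (nat_lit 2) (nat_lit 0x8ec28002c4080158008014c00200460008ca0603))) 
(.lf (nat_lit 45883426) (dlOf (nat_lit 4) (nat_lit 0x4d43f8002a02c0008c080030fc000123d70002182002f43f00171fd400b8f220003e0600020009360181))))) 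
(.nd (nat_lit 7) (.nd (nat_lit 10) 
(.lf (nat_lit 8171810) (dlOf (nat_lit 1) (nat_lit 0x40028518081))) 
(.lf (nat_lit 8140066) (dlOf (nat_lit 1) (nat_lit 0xa0018519781)))) 
(.lf (nat_lit 8136098) (dlOf (nat_lit 1) (nat_lit 0x400200020008513602)))))) (.nd (nat_lit 15) 
(.nd (nat_lit 26) (.nd (nat_lit 27) 
(.lf (nat_lit 1611145250) (dlOf (nat_lit 4) (nat_lit 0x2700540002f0200b802a0001701001d0150000500800600080008002000400080f0b83))) 
(.lf (nat_lit 2819104802) (dlOf (nat_lit 20) (nat_lit 0x27807e000b702007003f0005b01067501f8002d4080d800fc001680405f807e000b30202c603f000590100cf01f8002c40800280700014e040018038000a102007203f0000681001a01f80002c080e280fc0001404005007e00009020084072004b01f8000201007701c8098c07e00005040002072001501f8000101004301c8000040404880e40000102000c046000d01f80008084000000c02f4004031600181a0602)))) 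
(.nd (nat_lit 30) (.nd (nat_lit 31) 
(.lf (nat_lit 738730018) (dlOf (nat_lit 4) (nat_lit 0x2700540002f0200b802a0001701001d0150000500800600080008002000400080f0b83))) 
(.lf (nat_lit 2886213666) (dlOf (nat_lit 1) (nat_lit 0x1c00200120008190882)))) 
(.lf (nat_lit 3959955490) (dlOf (nat_lit 3) (nat_lit 0x4043000202100028100000807e007cd080004040003e5818170000))))) 
(.nd (nat_lit 18) (.nd (nat_lit 20) (.nd (nat_lit 22) 
(.lf (nat_lit 2819137570) (dlOf (nat_lit 2) (nat_lit 0x22401a80f5c0d2030a05d000602c0002d42006480080264002005a00081a0603))) 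
(.lf (nat_lit 2756223010) (dlOf (nat_lit 1) (nat_lit 0x20028220901)))) 
(.lf (nat_lit 2755174434) (dlOf (nat_lit 1) (nat_lit 0x11000400240008120982)))) (.nd (nat_lit 7) 
(.lf (nat_lit 2819399714) (dlOf (nat_lit 1) (nat_lit 0x8008000400200020008260503))) 
(.lf (nat_lit 537702050) (dlOf (nat_lit 1) (nat_lit 0x1000180f7201)))))))) (.nd (nat_lit 27) 
(.nd (nat_lit 18) (.nd (nat_lit 15) (.nd (nat_lit 7) (.nd (nat_lit 29) (.nd (nat_lit 9) 
(.lf (nat_lit 1343234082) (dlOf (nat_lit 1) (nat_lit 0x10008000c002000200081b0703))) 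
(.lf (nat_lit 1342710306) (dlOf (nat_lit 7) (nat_lit 0x770aa00040544004760800144780023902017015400020a88008b81001688f00041604003448e00e023c001038200460aa0000000801380080048002004400080c0d83)))) 
(.nd (nat_lit 31) 
(.lf (nat_lit 1879580706) (dlOf (nat_lit 1) (nat_lit 0x8008001000200020008200683))) 
(.lf (nat_lit 4027064354) (dlOf (nat_lit 2) (nat_lit 0x38018019b4040040004000200181d0a02))))) 
(.nd (nat_lit 11) (.lf (nat_lit 1342710178) (dlOf (nat_lit 2) (nat_lit 0x1561540037e8180c0780))) 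
(.lf (nat_lit 1342192034) (dlOf (nat_lit 1) (nat_lit 0x40040002001800af82))))) (.nd (nat_lit 19) 
(.nd (nat_lit 7) 
(.lf (nat_lit 1343266850) (dlOf (nat_lit 1) (nat_lit 0xe0008006c002002600081e0603))) 
(.nd (nat_lit 10) (.lf (nat_lit 1342220706) (dlOf (nat_lit 1) (nat_lit 0xfc0018004e81))) 
(.lf (nat_lit 3489709474) (dlOf (nat_lit 3) (nat_lit 0x143e800041f30003b0200020fa0001c408006800800380020014000800cb03))))) 
(.nd (nat_lit 26) (.nd (nat_lit 20) 
(.lf (nat_lit 3494420514) (dlOf (nat_lit 1) (nat_lit 0x20028220901))) 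
(.lf (nat_lit 3493371938) (dlOf (nat_lit 1) (nat_lit 0x11000400240008120982)))) (.nd (nat_lit 31) 
(.lf (nat_lit 1409851426) (dlOf (nat_lit 1) (nat_lit 0x20018090001))) 
(.lf (nat_lit 3557335074) (dlOf (nat_lit 25) (nat_lit 0x180e40032e0403c00c2010c060001d01f80038074001ce1001940c20004060000730206c703083428180001ca08042c0c202bc060000720201b803080ac8180001c60802f80c200bc0600007102010903080560180001c20801540c2000e00200020610006f01000a030802981800001e0801d40c200200600000682005503080002c08062818403c40c00000a0400140610000481007203080068180000100800640c20000702002a061000030101fa03080c701800000a0801c40c200080600000202016f030801a8180000060805b00c2000020200360610003030000004100358184000c0c00000004001800281c0601))))))) 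
(.nd (nat_lit 26) (.nd (nat_lit 8) (.nd (nat_lit 15) (.nd (nat_lit 19) (.nd (nat_lit 21) 
(.nd (nat_lit 22) 
(.lf (nat_lit 1342447650) (dlOf (nat_lit 1) (nat_lit 0x80008005400200100008030983))) 
(.lf (nat_lit 1346641954) (dlOf (nat_lit 1) (nat_lit 0x180018fe0001)))) 
(.lf (nat_lit 1344544802) (dlOf (nat_lit 2) (nat_lit 0x2000000000040004002000a0008850702)))) 
(.lf (nat_lit 1879842850) (dlOf (nat_lit 1) (nat_lit 0x3800200560008390a82)))) (.nd (nat_lit 19) 
(.lf (nat_lit 805609506) (dlOf (nat_lit 3) (nat_lit 0x806c00006040034036000000200060028140c01))) 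
(.lf (nat_lit 1346150434) (dlOf (nat_lit 6) (nat_lit 0x20050c00f427600681390045066803601d401680e60000e0c001a0750000601001803a800a81cc000140800340ea00180730000482000c0a1800584ec00cc19a0066075003d039800000280038008001c002000e0008e60183))))) 
(.nd (nat_lit 7) 
(.lf (nat_lit 3490980130) (dlOf (nat_lit 4) (nat_lit 0xf846000a470200302340051581001d0f3002608080020008000c00200080008047803))) 
(.lf (nat_lit 3489933730) (dlOf (nat_lit 1) (nat_lit 0x20008004e81))))) (.nd (nat_lit 7) 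
(.nd (nat_lit 15) 
(.lf (nat_lit 1409556514) (dlOf (nat_lit 3) (nat_lit 0x405f0001601000602f8000a8080058008007c00200720008030983))) 
(.lf (nat_lit 335847458) (dlOf (nat_lit 1) (nat_lit 0x3a00180b0201)))) (.nd (nat_lit 8) 
(.lf (nat_lit 3557046434) (dlOf (nat_lit 2) (nat_lit 0x5203d0025e01812a880))) (.nd (nat_lit 15) 
(.lf (nat_lit 1946427810) (dlOf (nat_lit 5) (nat_lit 0xac05200744020040029003a1810038014801ce80802000a400e7204001c004000a0008090782))) 
(.lf (nat_lit 1946460578) (dlOf (nat_lit 3) (nat_lit 0xe014801ce80800b00a400e72040048002002c0008090782)))))))) 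
(.nd (nat_lit 30) (.nd (nat_lit 15) (.nd (nat_lit 7) (.nd (nat_lit 12) (.nd (nat_lit 18) 
(.lf (nat_lit 474488866) (dlOf (nat_lit 5) (nat_lit 0x21430002b01000a0a180015408003050c000a804001c10a000510200040019180181))) 
(.nd (nat_lit 19) 
(.lf (nat_lit 470032418) (dlOf (nat_lit 1) (nat_lit 0x80008005400200100008030983))) 
(.lf (nat_lit 471605282) (dlOf (nat_lit 1) (nat_lit 0x4002000a0008350702))))) (.nd (nat_lit 8) 
(.lf (nat_lit 469775394) (dlOf (nat_lit 1) (nat_lit 0x800400020018009202))) 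
(.lf (nat_lit 469776674) (dlOf (nat_lit 1) (nat_lit 0xc0020006000800ab82))))) (.nd (nat_lit 8) 
(.nd (nat_lit 11) (.lf (nat_lit 4697890978) (dlOf (nat_lit 1) (nat_lit 0x4002000200080c1382))) 
(.lf (nat_lit 469772450) (dlOf (nat_lit 1) (nat_lit 0x40008000c00200020008004883)))) 
(.lf (nat_lit 472394146) (dlOf (nat_lit 2) (nat_lit 0xe0d90007046800081f40163c0c0094004002e0008984e82))))) 
(.nd (nat_lit 18) (.nd (nat_lit 7) 
(.lf (nat_lit 470851618) (dlOf (nat_lit 6) (nat_lit 0x1e04c000374080010078001b20402a003c000d702015201e0006b01007900f00031c08017000802dc00200a600081c0603))) 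
(.nd (nat_lit 9) (.lf (nat_lit 3087051938) (dlOf (nat_lit 1) (nat_lit 0x400200020008006282))) 
(.lf (nat_lit 939568802) (dlOf (nat_lit 1) (nat_lit 0x10008001800200040008007203))))) 
(.nd (nat_lit 22) (.nd (nat_lit 26) 
(.lf (nat_lit 402956322) (dlOf (nat_lit 1) (nat_lit 0x3a00180b0201))) 
(.lf (nat_lit 2617548834) (dlOf (nat_lit 1) (nat_lit 0x400280f0681)))) 
(.lf (nat_lit 474259490) (dlOf (nat_lit 5) (nat_lit 0xe092000703f80014410004824800240fe0004f0400020920001b810009049000401fc0006c080028004000400190f0782)))))) 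
(.nd (nat_lit 31) (.nd (nat_lit 18) (.nd (nat_lit 7) 
(.lf (nat_lit 1543544866) (dlOf (nat_lit 2) (nat_lit 0x19003005f88080038008004c002001400080b0003))) 
(.nd (nat_lit 8) (.lf (nat_lit 6375350434) (dlOf (nat_lit 1) (nat_lit 0x60028000581))) 
(.lf (nat_lit 1476409762) (dlOf (nat_lit 1) (nat_lit 0x2001800af81))))) (.nd (nat_lit 8) 
(.nd (nat_lit 29) 
(.lf (nat_lit 1543774242) (dlOf (nat_lit 5) (nat_lit 0x74022003350100390110019a008018808800cc80401100440065b0200020018160481))) 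
(.lf (nat_lit 2080645154) (dlOf (nat_lit 2) (nat_lit 0x2030000110180a0780)))) 
(.lf (nat_lit 1543807266) (dlOf (nat_lit 7) (nat_lit 0xd8020006400a00500000055303000e016000c809800480300012008001d0000029782800680b0000c04c006601d0052e83000c016000c809800ec03a001e018000f00800080008006c00000a5c0e0006023008200e802e8060007801000ae0050052385000c00e80000008000800800d800200080008187803))))) 
(.nd (nat_lit 7) (.nd (nat_lit 11) (.nd (nat_lit 26) 
(.lf (nat_lit 3624411170) (dlOf (nat_lit 1) (nat_lit 0x1c00200120008190882))) 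
(.lf (nat_lit 4228390946) (dlOf (nat_lit 1) (nat_lit 0x80080004002000200080a0903)))) 
(.lf (nat_lit 3623893026) (dlOf (nat_lit 1) (nat_lit 0xbe000800a601)))) (.nd (nat_lit 8) 
(.nd (nat_lit 10) (.lf (nat_lit 3691034786) (dlOf (nat_lit 1) (nat_lit 0x100020004000800a882))) 
(.lf (nat_lit 4227906722) (dlOf (nat_lit 1) (nat_lit 0x2000800c201)))) 
(.lf (nat_lit 3624151458) (dlOf (nat_lit 1) (nat_lit 0x1c0028144e81)))))))))) (.nd (nat_lit 5) 
(.nd (nat_lit 18) (.nd (nat_lit 8) (.nd (nat_lit 11) (.nd (nat_lit 26) (.nd (nat_lit 21) 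
(.nd (nat_lit 19) (.nd (nat_lit 7) 
(.lf (nat_lit 13639746) (dlOf (nat_lit 1) (nat_lit 0x40018730c01))) 
(.lf (nat_lit 1476407490) (dlOf (nat_lit 1) (nat_lit 0x40018007f01)))) (.nd (nat_lit 9) 
(.lf (nat_lit 1611178050) (dlOf (nat_lit 1) (nat_lit 0x30008000c002001c0008101083))) 
(.lf (nat_lit 1342710338) (dlOf (nat_lit 2) (nat_lit 0x16623c000038180c1080))))) (.nd (nat_lit 7) 
(.nd (nat_lit 15) (.lf (nat_lit 1881677890) (dlOf (nat_lit 1) (nat_lit 0x140008fd0d81))) 
(.lf (nat_lit 3493371970) (dlOf (nat_lit 2) (nat_lit 0x4034000101080002e08000800400020018120e02)))) 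
(.lf (nat_lit 1344808130) (dlOf (nat_lit 1) (nat_lit 0x74004002e0008982d02))))) (.nd (nat_lit 29) 
(.nd (nat_lit 28) (.nd (nat_lit 27) 
(.lf (nat_lit 4362608706) (dlOf (nat_lit 2) (nat_lit 0x18056000188180a0d00))) 
(.lf (nat_lit 201859138) (dlOf (nat_lit 4) (nat_lit 0xf0076000200200220360000981000501b00002c0802680080040002008c00080a0d03)))) 
(.nd (nat_lit 9) 
(.lf (nat_lit 473964610) (dlOf (nat_lit 1) (nat_lit 0x18008000c00200020008fe0603))) 
(.lf (nat_lit 470295106) (dlOf (nat_lit 2) (nat_lit 0x16623c000038180c1080))))) (.nd (nat_lit 15) 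
(.nd (nat_lit 19) (.lf (nat_lit 6375350338) (dlOf (nat_lit 1) (nat_lit 0x40018000001))) 
(.lf (nat_lit 2754093122) (dlOf (nat_lit 1) (nat_lit 0x200180c1881)))) (.nd (nat_lit 20) 
(.lf (nat_lit 738762818) (dlOf (nat_lit 1) (nat_lit 0x30008000c002001c0008101083))) 
(.lf (nat_lit 2755174466) (dlOf (nat_lit 2) (nat_lit 0x4034000101080002c08000800400020018120e02))))))) 
(.nd (nat_lit 26) (.nd (nat_lit 20) (.nd (nat_lit 10) (.nd (nat_lit 15) 
(.lf (nat_lit 4429195458) (dlOf (nat_lit 1) (nat_lit 0x20008004981))) 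
(.lf (nat_lit 43202) (dlOf (nat_lit 1) (nat_lit 0x20028004981)))) (.nd (nat_lit 19) 
(.nd (nat_lit 27) (.lf (nat_lit 1879059650) (dlOf (nat_lit 1) (nat_lit 0x20008006381))) 
(.lf (nat_lit 2550148290) (dlOf (nat_lit 1) (nat_lit 0x400400020008006382)))) 
(.lf (nat_lit 3490196674) (dlOf (nat_lit 1) (nat_lit 0x400200020008006382))))) (.nd (nat_lit 15) 
(.nd (nat_lit 7) (.nd (nat_lit 23) 
(.lf (nat_lit 36710978) (dlOf (nat_lit 1) (nat_lit 0x248008033800200c20009075203))) 
(.lf (nat_lit 45099586) (dlOf (nat_lit 3) (nat_lit 0xcc130002c8100066098001600800500080018002000a0009325203)))) 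
(.lf (nat_lit 20458690) (dlOf (nat_lit 1) (nat_lit 0x200289d6381)))) (.nd (nat_lit 23) 
(.lf (nat_lit 36743746) (dlOf (nat_lit 1) (nat_lit 0x800200020009075202))) 
(.lf (nat_lit 45132354) (dlOf (nat_lit 2) (nat_lit 0x853d80017c080080008000c00200040009325203)))))) 
(.nd (nat_lit 12) (.nd (nat_lit 10) (.nd (nat_lit 15) 
(.lf (nat_lit 4093651650) (dlOf (nat_lit 1) (nat_lit 0x20028005801))) 
(.lf (nat_lit 6377482946) (dlOf (nat_lit 1) (nat_lit 0x3600280e5801)))) (.nd (nat_lit 15) 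
(.lf (nat_lit 3959434946) (dlOf (nat_lit 1) (nat_lit 0xc40028007281))) 
(.lf (nat_lit 2885725890) (dlOf (nat_lit 1) (nat_lit 0x1c00008007281))))) (.nd (nat_lit 7) 
(.nd (nat_lit 27) 
(.lf (nat_lit 4362091074) (dlOf (nat_lit 5) (nat_lit 0xb023800780cc00ac05a0001d06004a047000801980006010004011800480660001504000a0520058023000100cc000220c0a040040138000800b502))) 
(.lf (nat_lit 469776962) (dlOf (nat_lit 1) (nat_lit 0x100080018002000a000800b503)))) 
(.lf (nat_lit 469777090) (dlOf (nat_lit 1) (nat_lit 0xd8008005c002001a000800b983))))))) 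
(.nd (nat_lit 12) (.nd (nat_lit 28) (.nd (nat_lit 15) (.nd (nat_lit 9) (.nd (nat_lit 7) 
(.lf (nat_lit 2755666242) (dlOf (nat_lit 4) (nat_lit 0x1700a3006c04200013c1003683140005804028c1d001500c5000150281b0600))) 
(.lf (nat_lit 50864578) (dlOf (nat_lit 4) (nat_lit 0xe80000024401000addd8011c808010ed34008b6040100002009200094d7a82)))) 
(.nd (nat_lit 10) (.lf (nat_lit 19934018) (dlOf (nat_lit 1) (nat_lit 0x4002000200089d5c02))) 
(.lf (nat_lit 2751997762) (dlOf (nat_lit 1) (nat_lit 0x100080018002001c0008003e03))))) 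
(.nd (nat_lit 10) (.nd (nat_lit 22) 
(.lf (nat_lit 671129922) (dlOf (nat_lit 2) (nat_lit 0x480000009e04001c002001600080b0602))) 
(.lf (nat_lit 2755699010) (dlOf (nat_lit 6) (nat_lit 0x7c0590001580804502c8000aa040038164000510200220b1000210100290588001000800700080070002004a00081b0603)))) 
(.nd (nat_lit 24) (.lf (nat_lit 42306) (dlOf (nat_lit 1) (nat_lit 0x20028003301))) 
(.lf (nat_lit 50373954) (dlOf (nat_lit 1) (nat_lit 0x680080004002000200094c3303)))))) 
(.nd (nat_lit 7) (.nd (nat_lit 15) (.nd (nat_lit 10) 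
(.lf (nat_lit 3493863746) (dlOf (nat_lit 4) (nat_lit 0x1700a6006c04380015810036834c0005a0402a01a601460b8000158281b0600))) 
(.lf (nat_lit 5637154114) (dlOf (nat_lit 1) (nat_lit 0x400400020008003302)))) (.nd (nat_lit 22) 
(.lf (nat_lit 1543545154) (dlOf (nat_lit 2) (nat_lit 0x48000000ac04001c002001600080b0602))) 
(.lf (nat_lit 3493896514) (dlOf (nat_lit 4) (nat_lit 0x1021c000ac0400e81a60002d0200a60d3005305c0000ac1000100080010002000a00081b0603))))) 
(.nd (nat_lit 9) (.nd (nat_lit 26) 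
(.lf (nat_lit 1342710210) (dlOf (nat_lit 5) (nat_lit 0x134154000270100960aa000134080140550000860403b42a80003e02000800280c0901))) 
(.lf (nat_lit 470294978) (dlOf (nat_lit 5) (nat_lit 0x134154000270100960aa000134080140550000860403b42a80003e02000800280c0901)))) 
(.lf (nat_lit 402664386) (dlOf (nat_lit 1) (nat_lit 0x60028005d81)))))) (.nd (nat_lit 9) 
(.nd (nat_lit 29) (.nd (nat_lit 30) (.nd (nat_lit 10) 
(.lf (nat_lit 6509574466) (dlOf (nat_lit 2) (nat_lit 0x19000000cf80400400020030000800ab82))) 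
(.lf (nat_lit 134233410) (dlOf (nat_lit 3) (nat_lit 0x1c076001a0360027482000c01d800780d8009b008011c004004e001800c902)))) 
(.nd (nat_lit 15) (.lf (nat_lit 3221240130) (dlOf (nat_lit 1) (nat_lit 0x2000800ab81))) 
(.lf (nat_lit 3221272898) (dlOf (nat_lit 1) (nat_lit 0x40020002000800ab82))))) (.nd (nat_lit 10) 
(.nd (nat_lit 27) (.lf (nat_lit 3825219906) (dlOf (nat_lit 1) (nat_lit 0xa001800ab81))) 
(.lf (nat_lit 1811953986) (dlOf (nat_lit 2) (nat_lit 0x1000000cfc0400040020014000800ab82)))) 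
(.nd (nat_lit 7) 
(.lf (nat_lit 4227874114) (dlOf (nat_lit 3) (nat_lit 0x58020000780c800d0c0800a80640066b020004002800c901))) 
(.lf (nat_lit 603993538) (dlOf (nat_lit 1) (nat_lit 0x80028009a01)))))) (.nd (nat_lit 7) 
(.nd (nat_lit 27) (.nd (nat_lit 26) 
(.lf (nat_lit 1342191426) (dlOf (nat_lit 1) (nat_lit 0x100040006000800a102))) 
(.lf (nat_lit 67123010) (dlOf (nat_lit 1) (nat_lit 0x26001800a101)))) (.nd (nat_lit 10) 
(.lf (nat_lit 671103810) (dlOf (nat_lit 1) (nat_lit 0x1b4000800bc81))) 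
(.lf (nat_lit 1476409154) (dlOf (nat_lit 3) (nat_lit 0x806c0006802003e0360003301800a100))))) 
(.nd (nat_lit 15) (.nd (nat_lit 10) 
(.lf (nat_lit 671103938) (dlOf (nat_lit 1) (nat_lit 0x2001800be01))) 
(.lf (nat_lit 3623892930) (dlOf (nat_lit 2) (nat_lit 0x202e0006009002be8100050008001c002000c000800a603)))) 
(.nd (nat_lit 27) 
(.lf (nat_lit 1677769666) (dlOf (nat_lit 3) (nat_lit 0x8154003009c0008037000401580030090000c024000800a000400300081c400020154003809c0008037000801580038090001402400080100005005000280180040a2400340040010000800be02))) 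
(.lf (nat_lit 3959471042) (dlOf (nat_lit 8) (nat_lit 0xc815800780a4003c036001c015800600780068022004c00a000d00300081c40011015800880a400420360024015800780780088022004c00a000b0030008144001b0144000409c000c04d003601a801c007c004403c0022006000e387003502880010138002c09a0068035000401a001b807c004403c0028006000e308003702880018138004009a006c035000401a001c807c005c03c0022006000e288003602880018138004409a006a035000501a001c007c005403c0026006000e20800030270006b808003800800340020002000800be03))))))))) 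
(.nd (nat_lit 28) (.nd (nat_lit 9) (.nd (nat_lit 15) (.nd (nat_lit 10) (.nd (nat_lit 22) 
(.nd (nat_lit 26) (.nd (nat_lit 27) 
(.lf (nat_lit 537141314) (dlOf (nat_lit 3) (nat_lit 0x40580000e81000d02c000038080098008001400200340008030e03))) 
(.lf (nat_lit 134488130) (dlOf (nat_lit 4) (nat_lit 0x680c40024022000070400060110000301001b018800e00440000008009400200300008030e02)))) 
(.lf (nat_lit 201596994) (dlOf (nat_lit 4) (nat_lit 0x680c40024022000070400060110000301001b018800e00440000008009400200300008030e02)))) 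
(.nd (nat_lit 8) (.lf (nat_lit 21766210) (dlOf (nat_lit 1) (nat_lit 0x580018a70781))) 
(.lf (nat_lit 2755928386) (dlOf (nat_lit 2) (nat_lit 0x1d414600ce084000278281b0600))))) 
(.nd (nat_lit 22) (.nd (nat_lit 7) 
(.lf (nat_lit 50603330) (dlOf (nat_lit 1) (nat_lit 0x80080004002000200094c3303))) 
(.lf (nat_lit 52176066) (dlOf (nat_lit 1) (nat_lit 0x40019512d01)))) (.nd (nat_lit 21) 
(.lf (nat_lit 47981762) (dlOf (nat_lit 1) (nat_lit 0x400200020009402d02))) 
(.lf (nat_lit 58467522) (dlOf (nat_lit 1) (nat_lit 0x400297e2d01)))))) (.nd (nat_lit 8) 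
(.nd (nat_lit 19) (.lf (nat_lit 12886082) (dlOf (nat_lit 1) (nat_lit 0x200286e0d01))) 
(.nd (nat_lit 20) 
(.lf (nat_lit 21798978) (dlOf (nat_lit 4) (nat_lit 0x809e40005204001c6a20002502016835100012018a70780))) 
(.lf (nat_lit 10264642) (dlOf (nat_lit 7) (nat_lit 0x6f18c002b7ac0003f040019e1f000dedc0000e410005718c002b7ac0002d040007c630004deb00001c10006f18c002b7ac0000604002bc63001bdeb0000001000900080034002003a00085c0e03))))) 
(.nd (nat_lit 26) (.nd (nat_lit 7) 
(.lf (nat_lit 3221528898) (dlOf (nat_lit 2) (nat_lit 0x20420025d018124c00))) 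
(.lf (nat_lit 1074045378) (dlOf (nat_lit 5) (nat_lit 0x2080a40004e0400dc052000260200540290001101002a014800000080100008008c00200100008090903)))) 
(.nd (nat_lit 31) (.lf (nat_lit 1812242754) (dlOf (nat_lit 1) (nat_lit 0x200081a7f01))) 
(.lf (nat_lit 3959726402) (dlOf (nat_lit 2) (nat_lit 0x204200527818124c00))))))) (.nd (nat_lit 19) 
(.nd (nat_lit 8) (.nd (nat_lit 11) (.nd (nat_lit 15) 
(.lf (nat_lit 1074012738) (dlOf (nat_lit 2) (nat_lit 0x2bc0520001102001a0018091081))) 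
(.lf (nat_lit 1074045506) (dlOf (nat_lit 2) (nat_lit 0x3240520001102007c0018091081)))) 
(.nd (nat_lit 20) (.lf (nat_lit 31730242) (dlOf (nat_lit 1) (nat_lit 0x400400020008e95202))) 
(.lf (nat_lit 53750338) (dlOf (nat_lit 1) (nat_lit 0x80080008002000400095f5203))))) 
(.nd (nat_lit 7) (.lf (nat_lit 2885986114) (dlOf (nat_lit 1) (nat_lit 0x2c00200160008143e02))) 
(.lf (nat_lit 2885953474) (dlOf (nat_lit 1) (nat_lit 0x20028144401))))) (.nd (nat_lit 7) 
(.nd (nat_lit 8) (.lf (nat_lit 67908162) (dlOf (nat_lit 1) (nat_lit 0x40018338981))) 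
(.lf (nat_lit 537672514) (dlOf (nat_lit 1) (nat_lit 0x200280fbc81)))) (.nd (nat_lit 10) 
(.nd (nat_lit 11) 
(.lf (nat_lit 8135362) (dlOf (nat_lit 2) (nat_lit 0x7d058000140800800080074002001a0008511f03))) 
(.lf (nat_lit 19675842) (dlOf (nat_lit 1) (nat_lit 0x200189db981)))) 
(.lf (nat_lit 19707586) (dlOf (nat_lit 1) (nat_lit 0x200189da001))))))) (.nd (nat_lit 26) 
(.nd (nat_lit 7) (.nd (nat_lit 31) (.nd (nat_lit 15) (.nd (nat_lit 27) (.nd (nat_lit 29) 
(.lf (nat_lit 1342447682) (dlOf (nat_lit 2) (nat_lit 0x389240000004001800400240008030e02))) 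
(.lf (nat_lit 1879318594) (dlOf (nat_lit 1) (nat_lit 0x80080004002000200080d0e03)))) 
(.lf (nat_lit 402923586) (dlOf (nat_lit 1) (nat_lit 0x4004000200080b0582)))) 
(.lf (nat_lit 1346150466) (dlOf (nat_lit 3) (nat_lit 0xa07c001238101f30a600b0052c020028401660ef01e006b80bd0358011c194037007b000e03900218118052405c029a02d0026000000550680b10008035800208d40008e60603)))) 
(.nd (nat_lit 20) (.nd (nat_lit 8) 
(.lf (nat_lit 2550440002) (dlOf (nat_lit 1) (nat_lit 0x400180a0e01))) 
(.lf (nat_lit 3494125890) (dlOf (nat_lit 2) (nat_lit 0x4e0220002b0181b0600)))) (.nd (nat_lit 9) 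
(.lf (nat_lit 3490980162) (dlOf (nat_lit 1) (nat_lit 0x8008000400200020008047f03))) 
(.lf (nat_lit 3493078850) (dlOf (nat_lit 4) (nat_lit 0x131040000d8080010868002842c0022215001410a0007082000484000002e0c001021a000510b000608540024428001820800131000000b430001800800a0002000c00080f3e03)))))) 
(.nd (nat_lit 10) (.nd (nat_lit 8) 
(.lf (nat_lit 4697923778) (dlOf (nat_lit 1) (nat_lit 0x10008003c002001600080c1703))) 
(.lf (nat_lit 5771668418) (dlOf (nat_lit 2) (nat_lit 0x1012800000080038008000c00200300008005d83)))) 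
(.nd (nat_lit 11) (.nd (nat_lit 15) 
(.lf (nat_lit 1346643138) (dlOf (nat_lit 1) (nat_lit 0x2800200480008fe2d02))) 
(.lf (nat_lit 1345103042) (dlOf (nat_lit 1) (nat_lit 0x400189e2d01)))) 
(.lf (nat_lit 3624152258) (dlOf (nat_lit 1) (nat_lit 0x200028146381)))))) (.nd (nat_lit 29) 
(.nd (nat_lit 15) (.nd (nat_lit 27) (.nd (nat_lit 30) (.nd (nat_lit 31) 
(.lf (nat_lit 335814722) (dlOf (nat_lit 1) (nat_lit 0x4004000200080b0582))) 
(.lf (nat_lit 2483298370) (dlOf (nat_lit 1) (nat_lit 0x200180a0e01)))) 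
(.lf (nat_lit 1409556546) (dlOf (nat_lit 3) (nat_lit 0x40580000f01000d02c000038080098008001400200340008030e03)))) 
(.lf (nat_lit 470032450) (dlOf (nat_lit 2) (nat_lit 0x389240000004001800400240008030e02)))) 
(.nd (nat_lit 7) (.nd (nat_lit 11) 
(.lf (nat_lit 474259778) (dlOf (nat_lit 1) (nat_lit 0x19200090f5f81))) 
(.lf (nat_lit 1410120002) (dlOf (nat_lit 1) (nat_lit 0x200280fab81)))) 
(.lf (nat_lit 1410115778) (dlOf (nat_lit 1) (nat_lit 0x80080004002000200080f4983))))) 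
(.nd (nat_lit 7) (.nd (nat_lit 9) (.nd (nat_lit 8) 
(.lf (nat_lit 1006903362) (dlOf (nat_lit 2) (nat_lit 0x60f7000118180d0d00))) 
(.lf (nat_lit 4093912386) (dlOf (nat_lit 1) (nat_lit 0xc00400020008003302)))) (.nd (nat_lit 15) 
(.lf (nat_lit 1946427970) (dlOf (nat_lit 2) (nat_lit 0x2bc0520001202001a0018091081))) 
(.lf (nat_lit 1946460738) (dlOf (nat_lit 2) (nat_lit 0x3240520001202007c0018091081))))) 
(.nd (nat_lit 8) (.nd (nat_lit 21) 
(.lf (nat_lit 4093913794) (dlOf (nat_lit 1) (nat_lit 0x20028005801))) 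
(.lf (nat_lit 6377712322) (dlOf (nat_lit 1) (nat_lit 0x4002000200080e5802)))) (.nd (nat_lit 9) 
(.lf (nat_lit 1946460610) (dlOf (nat_lit 5) (nat_lit 0x2080a40004e0400dc052000260200540290001101002a014800000080100008008c00200100008090903))) 
(.lf (nat_lit 4094962626) (dlOf (nat_lit 1) (nat_lit 0x8008000400200020008055d83)))))))))) 
(.nd (nat_lit 7) (.nd (nat_lit 8) (.nd (nat_lit 15) (.nd (nat_lit 10) (.nd (nat_lit 11) 
(.nd (nat_lit 9) (.nd (nat_lit 19) 
(.lf (nat_lit 2483298402) (dlOf (nat_lit 1) (nat_lit 0x44002001e00080a1382))) 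
(.lf (nat_lit 17571938) (dlOf (nat_lit 1) (nat_lit 0x4004000200088e0482)))) 
(.lf (nat_lit 19935842) (dlOf (nat_lit 1) (nat_lit 0x600289d8981)))) (.nd (nat_lit 18) 
(.nd (nat_lit 9) 
(.lf (nat_lit 1543514210) (dlOf (nat_lit 3) (nat_lit 0x4804c001201d000c00c00068040003000a001600200100000001583800e8098003403a00200100007001000080000000014005000400080018004702))) 
(.lf (nat_lit 6376401506) (dlOf (nat_lit 1) (nat_lit 0x40028095381)))) (.nd (nat_lit 12) 
(.lf (nat_lit 1410082914) (dlOf (nat_lit 1) (nat_lit 0x2e000280f4701))) 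
(.lf (nat_lit 1410087010) (dlOf (nat_lit 1) (nat_lit 0x200280fa801)))))) (.nd (nat_lit 11) 
(.nd (nat_lit 18) (.nd (nat_lit 21) 
(.lf (nat_lit 38282338) (dlOf (nat_lit 1) (nat_lit 0x400200020009132982))) 
(.lf (nat_lit 44573794) (dlOf (nat_lit 1) (nat_lit 0x20009322981)))) (.nd (nat_lit 19) 
(.lf (nat_lit 1345594466) (dlOf (nat_lit 1) (nat_lit 0x60008d72981))) 
(.lf (nat_lit 472654946) (dlOf (nat_lit 1) (nat_lit 0x80080038002001200089e2983))))) 
(.nd (nat_lit 26) 
(.lf (nat_lit 2952805474) (dlOf (nat_lit 7) (nat_lit 0x60054002a027000900f00200014000ba10002c04e0005502004602e0079016001180ac01a4054002602900790138001808401e003c00fc01a005a00c0009004c01d00120022008008c00280470008000a83c003c05c00f202c002f015803480a800c805200dc027005c010800c008001c803c00ee01a002400c0012805c0068026001a01100790048000802002f800a00f4002003200000014c9800780b0002801200360050009000000144200048014000a00400e400403c4000800c002))) 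
(.nd (nat_lit 27) 
(.lf (nat_lit 603995234) (dlOf (nat_lit 10) (nat_lit 0x6a8058020002a01d0007009b00000017420062805801f002a01a8007008e0000001702004c8058016402a07f2011015100780f3803802b400e002a003007500100390000000a224037c02c00be01503d900880298040050001e039c00e00dd003802e800c02780040076000000280a00d700b0070801c02280000004c06018e01600d300380448000000940c02f002c0194007000240200a200b005e801c01900000004206020601600d50038000f41016b800805800020a60000800c003))) 
(.lf (nat_lit 469777506) (dlOf (nat_lit 3) (nat_lit 0x2504e800130080008274000000400200040018000800c002))))))) 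
(.nd (nat_lit 18) (.nd (nat_lit 10) (.nd (nat_lit 12) (.nd (nat_lit 27) 
(.lf (nat_lit 1611178082) (dlOf (nat_lit 1) (nat_lit 0x50008002c002002a0008101b03))) 
(.lf (nat_lit 3892879458) (dlOf (nat_lit 1) (nat_lit 0x20018280481)))) (.nd (nat_lit 11) 
(.lf (nat_lit 67154018) (dlOf (nat_lit 2) (nat_lit 0x100000098a040034002002a0008007d82))) 
(.lf (nat_lit 3492853858) (dlOf (nat_lit 1) (nat_lit 0x4002000200080fa802))))) (.nd (nat_lit 19) 
(.lf (nat_lit 32547938) (dlOf (nat_lit 1) (nat_lit 0x400400020008ef2982))) (.nd (nat_lit 20) 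
(.lf (nat_lit 38315106) (dlOf (nat_lit 1) (nat_lit 0x400200020009132982))) 
(.lf (nat_lit 39363682) (dlOf (nat_lit 2) (nat_lit 0x42ff00009c04003000400040019192982)))))) 
(.nd (nat_lit 28) (.nd (nat_lit 9) (.nd (nat_lit 20) 
(.lf (nat_lit 3758399586) (dlOf (nat_lit 4) (nat_lit 0xb0158001f40800180ac00100480007504000602b00039818170d00))) 
(.lf (nat_lit 62169186) (dlOf (nat_lit 1) (nat_lit 0x188008003400200420009960783)))) 
(.lf (nat_lit 67941986) (dlOf (nat_lit 2) (nat_lit 0x1c2b400c1102001c0008339c01)))) 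
(.nd (nat_lit 30) (.nd (nat_lit 26) 
(.lf (nat_lit 402956386) (dlOf (nat_lit 1) (nat_lit 0x3600180b0d81))) 
(.lf (nat_lit 335847522) (dlOf (nat_lit 1) (nat_lit 0x3600180b0d81)))) (.nd (nat_lit 19) 
(.lf (nat_lit 3494158434) (dlOf (nat_lit 2) (nat_lit 0x600980002202000200281c1281))) 
(.lf (nat_lit 1346150498) (dlOf (nat_lit 2) (nat_lit 0x30a6803a81f0000000800b8004002a0008e60902)))))))) 
(.nd (nat_lit 26) (.nd (nat_lit 20) (.nd (nat_lit 15) (.nd (nat_lit 12) (.nd (nat_lit 21) 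
(.lf (nat_lit 3493863778) (dlOf (nat_lit 2) (nat_lit 0xb81ec00068040018004000400181b0702))) 
(.lf (nat_lit 2105698) (dlOf (nat_lit 2) (nat_lit 0x9a3e0001a018150700)))) (.nd (nat_lit 9) 
(.lf (nat_lit 1476407650) (dlOf (nat_lit 1) (nat_lit 0x30008006c00200700008008383))) 
(.lf (nat_lit 1342191458) (dlOf (nat_lit 1) (nat_lit 0x2001800a301))))) (.nd (nat_lit 19) 
(.lf (nat_lit 671129954) (dlOf (nat_lit 2) (nat_lit 0xa01b000148180b0700))) (.nd (nat_lit 21) 
(.lf (nat_lit 1342742882) (dlOf (nat_lit 1) (nat_lit 0x800800a4002008800080c0703))) 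
(.lf (nat_lit 23634274) (dlOf (nat_lit 1) (nat_lit 0xc20008b80701)))))) (.nd (nat_lit 18) 
(.nd (nat_lit 9) (.nd (nat_lit 12) 
(.lf (nat_lit 3187042) (dlOf (nat_lit 3) (nat_lit 0x40000003402000200000019818200700))) 
(.lf (nat_lit 19935586) (dlOf (nat_lit 1) (nat_lit 0x800289d8381)))) 
(.lf (nat_lit 19934050) (dlOf (nat_lit 1) (nat_lit 0x4002000200089d5c02)))) (.nd (nat_lit 10) 
(.nd (nat_lit 15) (.lf (nat_lit 1843554) (dlOf (nat_lit 2) (nat_lit 0x6a350000a818150700))) 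
(.lf (nat_lit 1876322) (dlOf (nat_lit 1) (nat_lit 0x8008000400200020008150703)))) 
(.lf (nat_lit 50079074) (dlOf (nat_lit 5) (nat_lit 0x114a8c00033020082546000188100372a30000b008075151800000040004004000200094c3402)))))) 
(.nd (nat_lit 11) (.nd (nat_lit 15) (.nd (nat_lit 18) 
(.lf (nat_lit 2755666274) (dlOf (nat_lit 2) (nat_lit 0xb81e400068040018004000400181b0702))) 
(.lf (nat_lit 2755928418) (dlOf (nat_lit 1) (nat_lit 0x18004000800181b0702)))) (.nd (nat_lit 19) 
(.nd (nat_lit 22) (.lf (nat_lit 1543545186) (dlOf (nat_lit 2) (nat_lit 0xa019000148180b0700))) 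
(.lf (nat_lit 2755699042) (dlOf (nat_lit 2) (nat_lit 0x2120590000bc0800800080144002001000081b0703)))) 
(.lf (nat_lit 470327650) (dlOf (nat_lit 1) (nat_lit 0x800800a4002008800080c0703))))) 
(.nd (nat_lit 12) (.nd (nat_lit 15) (.nd (nat_lit 20) 
(.lf (nat_lit 5301610850) (dlOf (nat_lit 1) (nat_lit 0x60018004e81))) 
(.lf (nat_lit 2754619746) (dlOf (nat_lit 2) (nat_lit 0x1010006c4c080028008000c002000c00080f4e83)))) 
(.lf (nat_lit 5167425890) (dlOf (nat_lit 1) (nat_lit 0xa0018054e81)))) (.nd (nat_lit 28) 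
(.lf (nat_lit 201341282) (dlOf (nat_lit 1) (nat_lit 0x800800040020002000800ab83))) 
(.lf (nat_lit 469776738) (dlOf (nat_lit 1) (nat_lit 0x40040002000800ab82)))))))) (.nd (nat_lit 18) 
(.nd (nat_lit 28) (.nd (nat_lit 9) (.nd (nat_lit 20) (.nd (nat_lit 10) (.nd (nat_lit 15) 
(.lf (nat_lit 18882786) (dlOf (nat_lit 2) (nat_lit 0x1880000002a0200780018970581))) 
(.lf (nat_lit 18915554) (dlOf (nat_lit 2) (nat_lit 0x144a86018645900015028970580)))) 
(.lf (nat_lit 2147493090) (dlOf (nat_lit 2) (nat_lit 0x80220003502002a0018002e01)))) 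
(.nd (nat_lit 10) (.nd (nat_lit 15) 
(.lf (nat_lit 28844258) (dlOf (nat_lit 2) (nat_lit 0x6d80e0002a0200140028da0581))) 
(.lf (nat_lit 28877026) (dlOf (nat_lit 2) (nat_lit 0xb2f480218738010837a007c192001c026003480000005418000400400900018da0582)))) 
(.lf (nat_lit 2754620642) (dlOf (nat_lit 2) (nat_lit 0x1000e0000300800700080038002000e00080f6503))))) 
(.nd (nat_lit 11) (.nd (nat_lit 10) (.nd (nat_lit 15) 
(.lf (nat_lit 2751996898) (dlOf (nat_lit 1) (nat_lit 0x400200020008002882))) 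
(.lf (nat_lit 4966097890) (dlOf (nat_lit 1) (nat_lit 0x100018002881)))) 
(.lf (nat_lit 8402914) (dlOf (nat_lit 1) (nat_lit 0x800800080020002000851a603)))) (.nd (nat_lit 8) 
(.lf (nat_lit 12002) (dlOf (nat_lit 1) (nat_lit 0x1800400040008007382))) (.nd (nat_lit 15) 
(.lf (nat_lit 539618) (dlOf (nat_lit 1) (nat_lit 0x1a002800bf01))) 
(.lf (nat_lit 604027874) (dlOf (nat_lit 1) (nat_lit 0x800800040020002000800bf03))))))) 
(.nd (nat_lit 15) (.nd (nat_lit 11) (.nd (nat_lit 20) (.nd (nat_lit 21) 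
(.lf (nat_lit 1346380002) (dlOf (nat_lit 6) (nat_lit 0x40918003c46c000e092001203f8008f02000288940080124005007f00119830008112800d824800940fe0023106000c246000611b00018248002c0fe0022f08006c246003811b0008b41000a00080018002001e0008f60a83))) 
(.lf (nat_lit 1344282850) (dlOf (nat_lit 2) (nat_lit 0x5e000000150186b0580)))) (.nd (nat_lit 26) 
(.lf (nat_lit 1880105186) (dlOf (nat_lit 1) (nat_lit 0x800200040008740582))) 
(.lf (nat_lit 1007689954) (dlOf (nat_lit 2) (nat_lit 0x16600000015018740580))))) (.nd (nat_lit 8) 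
(.lf (nat_lit 4227874018) (dlOf (nat_lit 1) (nat_lit 0x2002800c581))) (.nd (nat_lit 26) 
(.lf (nat_lit 1342188002) (dlOf (nat_lit 1) (nat_lit 0x400200040008004e82))) 
(.lf (nat_lit 4227869154) (dlOf (nat_lit 1) (nat_lit 0xdc00200160008004e82)))))) (.nd (nat_lit 20) 
(.nd (nat_lit 8) (.nd (nat_lit 10) 
(.lf (nat_lit 1344315618) (dlOf (nat_lit 2) (nat_lit 0xc2360002a02000600286b0581))) 
(.lf (nat_lit 1009296610) (dlOf (nat_lit 2) (nat_lit 0x2a0000001140800080080018002000600090e2e03)))) 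
(.lf (nat_lit 2952838114) (dlOf (nat_lit 1) (nat_lit 0x940020046000800bf02)))) (.nd (nat_lit 26) 
(.lf (nat_lit 1880137954) (dlOf (nat_lit 2) (nat_lit 0x2880000002a0200100018740581))) 
(.lf (nat_lit 1007722722) (dlOf (nat_lit 2) (nat_lit 0x14800000015018740580))))))) (.nd (nat_lit 8) 
(.nd (nat_lit 15) (.nd (nat_lit 26) (.nd (nat_lit 9) 
(.lf (nat_lit 30154978) (dlOf (nat_lit 2) (nat_lit 0x5c23801d581400eebda0002a0600020018e30581))) 
(.nd (nat_lit 20) (.lf (nat_lit 19673826) (dlOf (nat_lit 1) (nat_lit 0x200189d8c81))) 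
(.lf (nat_lit 8139490) (dlOf (nat_lit 1) (nat_lit 0x8008000400200020008518c83))))) 
(.nd (nat_lit 19) (.nd (nat_lit 20) 
(.lf (nat_lit 5301870818) (dlOf (nat_lit 2) (nat_lit 0x1005000240220001904009800280c1b01))) 
(.lf (nat_lit 68428002) (dlOf (nat_lit 2) (nat_lit 0x2041800a01c00005408000400400020018570582)))) 
(.lf (nat_lit 6376136930) (dlOf (nat_lit 3) (nat_lit 0xa13e0012381001709f000550080008008000400200140008090a83))))) 
(.nd (nat_lit 10) (.nd (nat_lit 19) 
(.lf (nat_lit 4697923810) (dlOf (nat_lit 7) (nat_lit 0x30168001807c0003208009805e000601f0000c02000101780002c0800080bc001405a000401f00005030001017800080b4000403e0000906000e02f0006016800020100078008000c002001400080c1b03))) 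
(.lf (nat_lit 1007460578) (dlOf (nat_lit 2) (nat_lit 0xc30410000a8080008008001000200020008370583)))) 
(.nd (nat_lit 12) (.nd (nat_lit 21) 
(.lf (nat_lit 4832142562) (dlOf (nat_lit 1) (nat_lit 0x4004000200080d2e02))) 
(.lf (nat_lit 52733154) (dlOf (nat_lit 1) (nat_lit 0x28004000e0019572e02)))) 
(.lf (nat_lit 8172770) (dlOf (nat_lit 1) (nat_lit 0x10008000400200020008519503)))))) 
(.nd (nat_lit 15) (.nd (nat_lit 19) (.nd (nat_lit 11) (.nd (nat_lit 12) 
(.lf (nat_lit 3493079010) (dlOf (nat_lit 1) (nat_lit 0x4002000200080f4582))) 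
(.lf (nat_lit 3493083106) (dlOf (nat_lit 1) (nat_lit 0x1400280fa601)))) 
(.lf (nat_lit 2818846690) (dlOf (nat_lit 2) (nat_lit 0xc07e009fe0200200008127a81)))) 
(.nd (nat_lit 10) (.nd (nat_lit 25) 
(.lf (nat_lit 2752259042) (dlOf (nat_lit 1) (nat_lit 0x400200020008002882))) 
(.lf (nat_lit 34350050) (dlOf (nat_lit 1) (nat_lit 0x20018fb2881)))) 
(.lf (nat_lit 2752264162) (dlOf (nat_lit 1) (nat_lit 0x40040002000800a602))))) (.nd (nat_lit 19) 
(.nd (nat_lit 9) (.nd (nat_lit 26) 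
(.lf (nat_lit 3221529058) (dlOf (nat_lit 7) (nat_lit 0x580380004804001c07c009e00e0001102004c0070000800802d80380003a0403cc07c00e400e0000e02002300700006c0823b8008019800201f00008127303))) 
(.lf (nat_lit 6509863394) (dlOf (nat_lit 3) (nat_lit 0x2e0130032005c000ba08002002e0005102004e0028157301)))) 
(.lf (nat_lit 2885985250) (dlOf (nat_lit 1) (nat_lit 0x80028142881)))) (.nd (nat_lit 10) 
(.nd (nat_lit 25) (.lf (nat_lit 2752291810) (dlOf (nat_lit 1) (nat_lit 0x800200020008002882))) 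
(.lf (nat_lit 34382818) (dlOf (nat_lit 1) (nat_lit 0x40018fb2881)))) 
(.lf (nat_lit 2752296930) (dlOf (nat_lit 1) (nat_lit 0x40040002000800a602))))))))))) 
(.nd (nat_lit 15) (.nd (nat_lit 18) (.nd (nat_lit 6) (.nd (nat_lit 28) (.nd (nat_lit 5) 
(.nd (nat_lit 19) (.nd (nat_lit 7) (.nd (nat_lit 20) (.nd (nat_lit 10) 
(.lf (nat_lit 16850946) (dlOf (nat_lit 1) (nat_lit 0x80080004002000200088e0003))) 
(.lf (nat_lit 3892388866) (dlOf (nat_lit 1) (nat_lit 0x3800201400008102882)))) (.nd (nat_lit 8) 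
(.nd (nat_lit 24) (.lf (nat_lit 38871042) (dlOf (nat_lit 1) (nat_lit 0x20019170001))) 
(.lf (nat_lit 22093826) (dlOf (nat_lit 1) (nat_lit 0x400200020008a90002)))) 
(.lf (nat_lit 59842818) (dlOf (nat_lit 1) (nat_lit 0x18008000c00200020009840a83))))) 
(.nd (nat_lit 10) (.nd (nat_lit 27) 
(.lf (nat_lit 1677795458) (dlOf (nat_lit 2) (nat_lit 0x2a04c001601a8000bc100058008000c00200360008090103))) 
(.lf (nat_lit 1812013186) (dlOf (nat_lit 2) (nat_lit 0xc0440004a02000400080b0101)))) 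
(.lf (nat_lit 76930) (dlOf (nat_lit 1) (nat_lit 0x180018006101))))) (.nd (nat_lit 29) 
(.nd (nat_lit 22) (.nd (nat_lit 9) 
(.lf (nat_lit 27860994) (dlOf (nat_lit 22) (nat_lit 0xeae60006506002f54100032830017a80400195cc000ca0c005e902002d5730012a854005941800bcf060048ae6001850a800aa8300179c0c00195cc000ca0c005e6020019573000aa854001d41800bc9060022ae60007506002f20100012b98017840400755cc0008a15005df020007573002ef408001ab980177004008d5cc0010a15005db820020573002ed4080012b980176604001d5cc00bb202000eae6005d881002a573000128540175c0800715cc00bad020024ae5005ce810005506002cf408017800800b400200020008d30003))) 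
(.lf (nat_lit 61416962) (dlOf (nat_lit 1) (nat_lit 0x400200020009923682)))) (.nd (nat_lit 20) 
(.lf (nat_lit 4792322) (dlOf (nat_lit 1) (nat_lit 0x200282b0001))) 
(.lf (nat_lit 24715266) (dlOf (nat_lit 1) (nat_lit 0x38008003c00200040008bb0003))))) 
(.nd (nat_lit 26) (.nd (nat_lit 27) 
(.lf (nat_lit 1611210754) (dlOf (nat_lit 1) (nat_lit 0x20028110001))) 
(.lf (nat_lit 3892912130) (dlOf (nat_lit 1) (nat_lit 0x70008002400200180008290003)))) 
(.nd (nat_lit 22) (.lf (nat_lit 738795522) (dlOf (nat_lit 1) (nat_lit 0x20028110001))) 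
(.lf (nat_lit 2756255746) (dlOf (nat_lit 1) (nat_lit 0x20028230001))))))) (.nd (nat_lit 19) 
(.nd (nat_lit 7) (.nd (nat_lit 8) (.nd (nat_lit 20) (.nd (nat_lit 22) 
(.lf (nat_lit 25239586) (dlOf (nat_lit 1) (nat_lit 0x400400020008bf0902))) 
(.lf (nat_lit 29433890) (dlOf (nat_lit 1) (nat_lit 0x1a0028e00681)))) 
(.lf (nat_lit 17899554) (dlOf (nat_lit 1) (nat_lit 0x1a0008900a81)))) (.nd (nat_lit 20) 
(.lf (nat_lit 2147557666) (dlOf (nat_lit 2) (nat_lit 0x5201b0004b018090a80))) 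
(.lf (nat_lit 19996962) (dlOf (nat_lit 1) (nat_lit 0x4002000200089d0a82))))) (.nd (nat_lit 8) 
(.nd (nat_lit 27) (.lf (nat_lit 3288411298) (dlOf (nat_lit 1) (nat_lit 0x1000200040008006282))) 
(.lf (nat_lit 2885758114) (dlOf (nat_lit 1) (nat_lit 0x40028006281)))) (.nd (nat_lit 10) 
(.lf (nat_lit 134293922) (dlOf (nat_lit 1) (nat_lit 0x20018004e81))) (.nd (nat_lit 27) 
(.lf (nat_lit 4899022242) (dlOf (nat_lit 1) (nat_lit 0xc400200400008053602))) 
(.lf (nat_lit 5570110882) (dlOf (nat_lit 1) (nat_lit 0x6e0018053601))))))) (.nd (nat_lit 24) 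
(.nd (nat_lit 25) (.nd (nat_lit 26) (.nd (nat_lit 27) 
(.lf (nat_lit 3221823522) (dlOf (nat_lit 1) (nat_lit 0x8800200260008190b02))) 
(.lf (nat_lit 3892912162) (dlOf (nat_lit 2) (nat_lit 0x6012000048080040008010c00200460008290d03)))) 
(.lf (nat_lit 3960021026) (dlOf (nat_lit 1) (nat_lit 0x1400200080008190a82)))) (.nd (nat_lit 20) 
(.lf (nat_lit 36249634) (dlOf (nat_lit 1) (nat_lit 0x8008001400200020009050183))) 
(.lf (nat_lit 35201058) (dlOf (nat_lit 2) (nat_lit 0x55e00000c019000700))))) (.nd (nat_lit 9) 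
(.nd (nat_lit 20) 
(.lf (nat_lit 21569570) (dlOf (nat_lit 2) (nat_lit 0x793040008c04000400400020008a40182))) 
(.lf (nat_lit 26812450) (dlOf (nat_lit 1) (nat_lit 0x6400400100008c70702)))) 
(.lf (nat_lit 50930210) (dlOf (nat_lit 3) (nat_lit 0x18da68019f8080046d3400b2a040134004003c00194d8702))))))) 
(.nd (nat_lit 29) (.nd (nat_lit 7) (.nd (nat_lit 8) (.nd (nat_lit 22) (.nd (nat_lit 10) 
(.lf (nat_lit 470360066) (dlOf (nat_lit 3) (nat_lit 0x11168069000800207c803076040004004000200080c0002))) 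
(.lf (nat_lit 4697695234) (dlOf (nat_lit 1) (nat_lit 0x100028092881)))) (.nd (nat_lit 5) 
(.nd (nat_lit 26) (.lf (nat_lit 3494453250) (dlOf (nat_lit 1) (nat_lit 0x20028230001))) 
(.lf (nat_lit 474554370) (dlOf (nat_lit 1) (nat_lit 0x4004000200191a0002)))) 
(.lf (nat_lit 474554402) (dlOf (nat_lit 16) (nat_lit 0x4305580218286009413b00800668001382004405580220286009613b0081066800134200058334000980402542ac0124143004a09d80470334014810a000430a012415600920a1802584ec023019a000e085000210501d40ab00ea850c062827603980cd00e6042800601d40007c1800542860003d02020815601030a1804c84ec03ec19a01880850001e05004d0ab0020850c000760800b42ac005a1430001c0200510ab0024050c0006e0800382ac0003602001e15600110a18000d4100048558002c2860003404008a15600440a180230334000660c002c004000200091a0182))))) 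
(.nd (nat_lit 5) (.nd (nat_lit 10) 
(.lf (nat_lit 1342775554) (dlOf (nat_lit 1) (nat_lit 0x4002004200080c0482))) 
(.lf (nat_lit 4697695490) (dlOf (nat_lit 1) (nat_lit 0x70002002c0008092f02)))) 
(.lf (nat_lit 4563476770) (dlOf (nat_lit 2) (nat_lit 0x180480028a040004002000c0008090a82))))) 
(.nd (nat_lit 5) (.nd (nat_lit 32) (.nd (nat_lit 10) 
(.lf (nat_lit 469840258) (dlOf (nat_lit 1) (nat_lit 0x440028008381))) 
(.lf (nat_lit 1342254466) (dlOf (nat_lit 1) (nat_lit 0x140018006c01)))) (.nd (nat_lit 8) 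
(.lf (nat_lit 4563479170) (dlOf (nat_lit 1) (nat_lit 0x7800200420008095482))) 
(.lf (nat_lit 4563478914) (dlOf (nat_lit 1) (nat_lit 0x120028094e81))))) (.nd (nat_lit 8) 
(.nd (nat_lit 19) 
(.lf (nat_lit 4697695394) (dlOf (nat_lit 1) (nat_lit 0xd0008004400200700008092b83))) 
(.lf (nat_lit 1345922210) (dlOf (nat_lit 1) (nat_lit 0x120028e22b81)))) 
(.lf (nat_lit 335620514) (dlOf (nat_lit 1) (nat_lit 0xa0018094e81)))))) (.nd (nat_lit 8) 
(.nd (nat_lit 7) (.nd (nat_lit 5) (.nd (nat_lit 9) 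
(.lf (nat_lit 3019973634) (dlOf (nat_lit 1) (nat_lit 0x400080d2881))) (.nd (nat_lit 27) 
(.lf (nat_lit 5100348930) (dlOf (nat_lit 1) (nat_lit 0x220018053681))) 
(.lf (nat_lit 6308308482) (dlOf (nat_lit 3) (nat_lit 0x400180001d01002500c0000d4080080008002800200260008053683))))) 
(.nd (nat_lit 12) (.lf (nat_lit 805380130) (dlOf (nat_lit 1) (nat_lit 0x800400660008090002))) 
(.lf (nat_lit 2952867874) (dlOf (nat_lit 1) (nat_lit 0xaa0008007b01))))) (.nd (nat_lit 19) 
(.nd (nat_lit 27) 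
(.lf (nat_lit 805380226) (dlOf (nat_lit 2) (nat_lit 0x2a04c001601a8000bc100058008000c00200360008090103))) 
(.lf (nat_lit 939597954) (dlOf (nat_lit 2) (nat_lit 0xc0440004a02000400080b0101)))) 
(.lf (nat_lit 3154714754) (dlOf (nat_lit 1) (nat_lit 0x400400020008310482))))) (.nd (nat_lit 5) 
(.nd (nat_lit 20) (.nd (nat_lit 26) 
(.lf (nat_lit 2013342594) (dlOf (nat_lit 1) (nat_lit 0x60018005c01))) 
(.lf (nat_lit 5167459202) (dlOf (nat_lit 2) (nat_lit 0x48048002ac04000400400020018055c02)))) 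
(.lf (nat_lit 4094765954) (dlOf (nat_lit 1) (nat_lit 0x8008000400200040008055c03)))) 
(.nd (nat_lit 10) (.nd (nat_lit 26) 
(.lf (nat_lit 5234567586) (dlOf (nat_lit 1) (nat_lit 0x4b000800a800200380008054e83))) 
(.lf (nat_lit 3154192802) (dlOf (nat_lit 1) (nat_lit 0x34002014a0008104e82)))) (.nd (nat_lit 27) 
(.lf (nat_lit 5100348834) (dlOf (nat_lit 1) (nat_lit 0xde0018053601))) 
(.lf (nat_lit 6308308386) (dlOf (nat_lit 3) (nat_lit 0x140180004c81000900c000260080098008000400200100008053603))))))))) 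
(.nd (nat_lit 8) (.nd (nat_lit 5) (.nd (nat_lit 23) (.nd (nat_lit 10) (.nd (nat_lit 20) 
(.nd (nat_lit 7) (.lf (nat_lit 537468994) (dlOf (nat_lit 2) (nat_lit 0x804b000100180a0d00))) 
(.nd (nat_lit 9) (.lf (nat_lit 23666882) (dlOf (nat_lit 1) (nat_lit 0x20018b80401))) 
(.lf (nat_lit 6377515714) (dlOf (nat_lit 1) (nat_lit 0xc00280e5801))))) (.nd (nat_lit 9) 
(.nd (nat_lit 26) 
(.lf (nat_lit 3490783298) (dlOf (nat_lit 1) (nat_lit 0x88008000c00200080008020783))) 
(.lf (nat_lit 2752585794) (dlOf (nat_lit 1) (nat_lit 0x88008000c00200080008020783)))) 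
(.lf (nat_lit 36776514) (dlOf (nat_lit 1) (nat_lit 0x800200040009075202))))) (.nd (nat_lit 26) 
(.nd (nat_lit 27) 
(.lf (nat_lit 1610687554) (dlOf (nat_lit 1) (nat_lit 0x8008021000200820008092883))) 
(.lf (nat_lit 671163458) (dlOf (nat_lit 1) (nat_lit 0x80028142881)))) 
(.lf (nat_lit 872490050) (dlOf (nat_lit 1) (nat_lit 0x1000400020008092882))))) (.nd (nat_lit 24) 
(.nd (nat_lit 9) (.lf (nat_lit 42541122) (dlOf (nat_lit 1) (nat_lit 0xcc00200140009260602))) 
(.nd (nat_lit 11) (.lf (nat_lit 8462914) (dlOf (nat_lit 1) (nat_lit 0x60008511581))) 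
(.lf (nat_lit 45165122) (dlOf (nat_lit 1) (nat_lit 0x120009325201))))) (.nd (nat_lit 7) 
(.nd (nat_lit 20) (.lf (nat_lit 25239618) (dlOf (nat_lit 1) (nat_lit 0x100008bf0c01))) 
(.lf (nat_lit 26288194) (dlOf (nat_lit 1) (nat_lit 0x18008001000200020008c30583)))) 
(.lf (nat_lit 31532226) (dlOf (nat_lit 1) (nat_lit 0x8008000400200020008e92d03)))))) 
(.nd (nat_lit 10) (.nd (nat_lit 7) (.nd (nat_lit 20) (.nd (nat_lit 22) 
(.lf (nat_lit 42541154) (dlOf (nat_lit 1) (nat_lit 0x20029260901))) 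
(.lf (nat_lit 474554466) (dlOf (nat_lit 1) (nat_lit 0x20008000c002000600091a0903)))) 
(.lf (nat_lit 28909666) (dlOf (nat_lit 1) (nat_lit 0x18008000400200020008da0483)))) 
(.nd (nat_lit 19) (.nd (nat_lit 20) 
(.lf (nat_lit 18948322) (dlOf (nat_lit 2) (nat_lit 0x26118c0005404001000200040008970582))) 
(.lf (nat_lit 30482658) (dlOf (nat_lit 1) (nat_lit 0x40028e30581)))) (.nd (nat_lit 9) 
(.lf (nat_lit 17375458) (dlOf (nat_lit 6) (nat_lit 0x8c2a600014c0800b15300006a040068a9c0002a02002a54f0001081003d2a8001e953c0003a080004002000400088e0582))) 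
(.lf (nat_lit 7942882) (dlOf (nat_lit 1) (nat_lit 0x20018518c81)))))) (.nd (nat_lit 9) 
(.nd (nat_lit 11) (.nd (nat_lit 20) 
(.lf (nat_lit 38347874) (dlOf (nat_lit 1) (nat_lit 0x400200020009132982))) 
(.lf (nat_lit 56173666) (dlOf (nat_lit 1) (nat_lit 0x78008004000200040009732983)))) 
(.lf (nat_lit 469843042) (dlOf (nat_lit 7) (nat_lit 0x10a700015c080110584009829c004809d002803f00013820016058400b029c007207e0002683000303f000130080110584015429c00ae07e0001e83000503f000000080040008000c0020002000800c003)))) 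
(.nd (nat_lit 26) 
(.lf (nat_lit 1610688098) (dlOf (nat_lit 2) (nat_lit 0x1a02d00011c0800d800800b000200280008093903))) 
(.lf (nat_lit 4899022434) (dlOf (nat_lit 1) (nat_lit 0x4a0018053901))))))) (.nd (nat_lit 30) 
(.nd (nat_lit 20) (.nd (nat_lit 7) (.nd (nat_lit 27) (.nd (nat_lit 28) 
(.lf (nat_lit 4295041346) (dlOf (nat_lit 1) (nat_lit 0x1220028014c01))) 
(.lf (nat_lit 4563476802) (dlOf (nat_lit 2) (nat_lit 0x101a000070080010008006000200660008090c03)))) 
(.nd (nat_lit 28) (.lf (nat_lit 4429259074) (dlOf (nat_lit 1) (nat_lit 0x1220028014c01))) 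
(.lf (nat_lit 3087081794) (dlOf (nat_lit 2) (nat_lit 0x1c4000000278180b0600))))) (.nd (nat_lit 5) 
(.nd (nat_lit 19) (.lf (nat_lit 872489410) (dlOf (nat_lit 1) (nat_lit 0xe0028091081))) 
(.lf (nat_lit 50930114) (dlOf (nat_lit 3) (nat_lit 0x15000001220080016eec008e404008c002002200094d7a82)))) 
(.lf (nat_lit 738274274) (dlOf (nat_lit 1) (nat_lit 0x400200020008095e82))))) (.nd (nat_lit 5) 
(.nd (nat_lit 9) (.lf (nat_lit 57746754) (dlOf (nat_lit 1) (nat_lit 0x60008002800200020009793303))) 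
(.lf (nat_lit 19999554) (dlOf (nat_lit 1) (nat_lit 0x4002000200089d5c02)))) (.nd (nat_lit 9) 
(.lf (nat_lit 3219810) (dlOf (nat_lit 2) (nat_lit 0x44f80000a818200700))) 
(.lf (nat_lit 19999586) (dlOf (nat_lit 1) (nat_lit 0x8002000200089d5c02)))))) (.nd (nat_lit 27) 
(.nd (nat_lit 5) (.nd (nat_lit 7) (.nd (nat_lit 26) 
(.lf (nat_lit 3221299522) (dlOf (nat_lit 4) (nat_lit 0x28a053013401b809880800005a0c03280400002c02007c05400f6029807980dc01d8054020802000ec00a808e8000000561c00c400200080008090602))) 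
(.lf (nat_lit 3825279298) (dlOf (nat_lit 2) (nat_lit 0x1c40000002b0180b0600)))) 
(.lf (nat_lit 1610687938) (dlOf (nat_lit 1) (nat_lit 0x260028093601)))) (.nd (nat_lit 9) 
(.nd (nat_lit 12) (.lf (nat_lit 3221299554) (dlOf (nat_lit 1) (nat_lit 0x3400200240008090702))) 
(.lf (nat_lit 1342255458) (dlOf (nat_lit 1) (nat_lit 0x20028008381)))) 
(.lf (nat_lit 1342256994) (dlOf (nat_lit 1) (nat_lit 0x80040096001800a302))))) (.nd (nat_lit 7) 
(.nd (nat_lit 5) (.nd (nat_lit 26) 
(.lf (nat_lit 1208033602) (dlOf (nat_lit 1) (nat_lit 0xc00400020008090c02))) 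
(.lf (nat_lit 3959497026) (dlOf (nat_lit 4) (nat_lit 0x28a053013401b80988080000580c03280400002b02007c05400f6029807980dc01d8054020802000ec00a808e8000000541c00c400200080008090602)))) 
(.lf (nat_lit 3959497058) (dlOf (nat_lit 1) (nat_lit 0x3400200240008090702)))) (.nd (nat_lit 9) 
(.lf (nat_lit 5774057922) (dlOf (nat_lit 1) (nat_lit 0x180080004002000600080f7a83))) 
(.lf (nat_lit 5771439042) (dlOf (nat_lit 1) (nat_lit 0xc00400020018005d82))))))))) (.nd (nat_lit 5) 
(.nd (nat_lit 28) (.nd (nat_lit 21) (.nd (nat_lit 27) (.nd (nat_lit 6) (.nd (nat_lit 20) 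
(.nd (nat_lit 7) (.nd (nat_lit 8) (.nd (nat_lit 10) 
(.lf (nat_lit 6442786818) (dlOf (nat_lit 1) (nat_lit 0x380080084002004a00081b0003))) 
(.lf (nat_lit 38085634) (dlOf (nat_lit 1) (nat_lit 0x400200100009132882)))) 
(.lf (nat_lit 46473474) (dlOf (nat_lit 1) (nat_lit 0x20029380a81)))) (.nd (nat_lit 10) 
(.lf (nat_lit 4832174210) (dlOf (nat_lit 1) (nat_lit 0x400400020008100e02))) 
(.lf (nat_lit 339074) (dlOf (nat_lit 1) (nat_lit 0x3e0008006101))))) (.nd (nat_lit 19) 
(.lf (nat_lit 2752847874) (dlOf (nat_lit 1) (nat_lit 0x8008000400200020008050003))) 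
(.nd (nat_lit 23) 
(.lf (nat_lit 18685954) (dlOf (nat_lit 3) (nat_lit 0x1a6ef002b4810007377800fe0080228008004400200360008960003))) 
(.lf (nat_lit 10297346) (dlOf (nat_lit 1) (nat_lit 0x4002000200085d0002)))))) (.nd (nat_lit 7) 
(.nd (nat_lit 8) (.lf (nat_lit 42281538) (dlOf (nat_lit 1) (nat_lit 0xa0029245201))) 
(.lf (nat_lit 1610948930) (dlOf (nat_lit 1) (nat_lit 0xa80080064002003200080a5f83)))) 
(.nd (nat_lit 8) (.lf (nat_lit 52241602) (dlOf (nat_lit 1) (nat_lit 0x20009512d01))) 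
(.lf (nat_lit 2751801282) (dlOf (nat_lit 1) (nat_lit 0x1c004000a0008004402)))))) (.nd (nat_lit 29) 
(.nd (nat_lit 26) (.nd (nat_lit 30) (.nd (nat_lit 31) 
(.lf (nat_lit 134553602) (dlOf (nat_lit 3) (nat_lit 0x28086007e041001960200030218000f00801000080254002005a0008070003))) 
(.lf (nat_lit 2282037250) (dlOf (nat_lit 1) (nat_lit 0x400400020008130002)))) 
(.lf (nat_lit 3355779074) (dlOf (nat_lit 1) (nat_lit 0x70004002c0008110002)))) (.nd (nat_lit 6) 
(.nd (nat_lit 31) 
(.lf (nat_lit 201662466) (dlOf (nat_lit 3) (nat_lit 0x28086007e041001d60200030218001300801000080254002005a0008070003))) 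
(.lf (nat_lit 2349146114) (dlOf (nat_lit 2) (nat_lit 0x8400f008b0068000001000880080030002003200080d0003)))) 
(.lf (nat_lit 2349146178) (dlOf (nat_lit 5) (nat_lit 0x1b401c0006802001c02a007e008001c0038000ca0c0098054002a01c010100800458038000c81000280540001d02001a00280d0c01))))) 
(.nd (nat_lit 30) (.nd (nat_lit 19) 
(.lf (nat_lit 671424514) (dlOf (nat_lit 1) (nat_lit 0x8e0028190001))) 
(.lf (nat_lit 2819432450) (dlOf (nat_lit 6) (nat_lit 0x601c8000c0d40064004000606a0031f8100030350018f00800601c8000c0d40063904000607200150350018cc1002000080058002004a0008280003)))) 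
(.nd (nat_lit 6) (.lf (nat_lit 3892649986) (dlOf (nat_lit 1) (nat_lit 0x4000200100008180002))) 
(.lf (nat_lit 3892650050) (dlOf (nat_lit 3) (nat_lit 0xc0ac0001702000a00000002018180580))))))) 
(.nd (nat_lit 20) (.nd (nat_lit 6) (.nd (nat_lit 19) (.nd (nat_lit 23) 
(.lf (nat_lit 2433026) (dlOf (nat_lit 3) (nat_lit 0x4a47004e68100055238027280800300080034002001e0008160003))) 
(.lf (nat_lit 27598850) (dlOf (nat_lit 1) (nat_lit 0x300028d00001)))) 
(.lf (nat_lit 2957314) (dlOf (nat_lit 2) (nat_lit 0x20a0800303640295c080030002000200081e0002)))) 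
(.nd (nat_lit 7) (.nd (nat_lit 8) 
(.lf (nat_lit 32320066) (dlOf (nat_lit 1) (nat_lit 0x400200040008ef5202))) 
(.lf (nat_lit 56960322) (dlOf (nat_lit 1) (nat_lit 0xa8008002c00200280009793303)))) 
(.lf (nat_lit 19740354) (dlOf (nat_lit 1) (nat_lit 0x200189da001))))) (.nd (nat_lit 7) 
(.nd (nat_lit 22) (.nd (nat_lit 23) 
(.lf (nat_lit 37036034) (dlOf (nat_lit 1) (nat_lit 0x400200300009080002))) 
(.lf (nat_lit 62201858) (dlOf (nat_lit 1) (nat_lit 0xc800400300009970002)))) 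
(.lf (nat_lit 32841730) (dlOf (nat_lit 1) (nat_lit 0x100018f30001)))) (.nd (nat_lit 6) 
(.lf (nat_lit 20261762) (dlOf (nat_lit 1) (nat_lit 0x4002000200089d5c02))) 
(.lf (nat_lit 58008002) (dlOf (nat_lit 1) (nat_lit 0x9600097a7a81))))))) (.nd (nat_lit 26) 
(.nd (nat_lit 7) (.nd (nat_lit 30) (.nd (nat_lit 27) (.nd (nat_lit 32) 
(.lf (nat_lit 268771330) (dlOf (nat_lit 2) (nat_lit 0x2005400100290035014001d04180010008003800200040008140003))) 
(.lf (nat_lit 4563738626) (dlOf (nat_lit 1) (nat_lit 0xa200080d0001)))) 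
(.lf (nat_lit 4697956354) (dlOf (nat_lit 1) (nat_lit 0xa200080d0001)))) (.nd (nat_lit 6) 
(.nd (nat_lit 19) 
(.lf (nat_lit 3491045378) (dlOf (nat_lit 1) (nat_lit 0x8008000400200020008050003))) 
(.lf (nat_lit 1343037442) (dlOf (nat_lit 1) (nat_lit 0x20028140001)))) (.nd (nat_lit 8) 
(.lf (nat_lit 1344612930) (dlOf (nat_lit 1) (nat_lit 0x1000288c5201))) 
(.lf (nat_lit 1879910210) (dlOf (nat_lit 2) (nat_lit 0x100000003202000200283d3e01)))))) 
(.nd (nat_lit 6) (.nd (nat_lit 8) (.nd (nat_lit 11) 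
(.lf (nat_lit 5773271170) (dlOf (nat_lit 1) (nat_lit 0x80080210002004a00080c0e03))) 
(.lf (nat_lit 1879910530) (dlOf (nat_lit 1) (nat_lit 0x4002000200083d4782)))) 
(.lf (nat_lit 3490004354) (dlOf (nat_lit 2) (nat_lit 0x2c16e0067e020006002800c901)))) 
(.nd (nat_lit 19) (.lf (nat_lit 5234827458) (dlOf (nat_lit 1) (nat_lit 0x200080f1701))) 
(.lf (nat_lit 5773271234) (dlOf (nat_lit 1) (nat_lit 0x4002000200080c1702)))))) (.nd (nat_lit 27) 
(.nd (nat_lit 6) (.nd (nat_lit 19) 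
(.lf (nat_lit 2483363842) (dlOf (nat_lit 2) (nat_lit 0x8400f008b0068000001000880080030002003200080d0003))) 
(.lf (nat_lit 4096598018) (dlOf (nat_lit 1) (nat_lit 0x400200020008130002)))) (.nd (nat_lit 7) 
(.nd (nat_lit 29) 
(.lf (nat_lit 2483363906) (dlOf (nat_lit 5) (nat_lit 0x1b401c0006502001c02a007e008001c0038000c40c0098054002a01c010100800458038000c21000280540001d02001a00280d0c01))) 
(.lf (nat_lit 5167718466) (dlOf (nat_lit 1) (nat_lit 0x500018140d81)))) 
(.lf (nat_lit 872751298) (dlOf (nat_lit 1) (nat_lit 0x200280c1701))))) (.nd (nat_lit 7) 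
(.nd (nat_lit 19) (.nd (nat_lit 30) 
(.lf (nat_lit 2617581570) (dlOf (nat_lit 5) (nat_lit 0x130160023840801280a8011b404009405c000e0120038a8200c80178013804800d3808000400400300018100002))) 
(.lf (nat_lit 1543839746) (dlOf (nat_lit 1) (nat_lit 0x8e0028190001)))) 
(.lf (nat_lit 470622210) (dlOf (nat_lit 1) (nat_lit 0x20028140001)))) (.nd (nat_lit 6) 
(.lf (nat_lit 6377250946) (dlOf (nat_lit 1) (nat_lit 0xe00280c0e81))) 
(.lf (nat_lit 6377251010) (dlOf (nat_lit 1) (nat_lit 0x600180c1b01)))))))) (.nd (nat_lit 24) 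
(.nd (nat_lit 28) (.nd (nat_lit 10) (.nd (nat_lit 27) (.nd (nat_lit 7) (.nd (nat_lit 19) 
(.lf (nat_lit 1384482) (dlOf (nat_lit 1) (nat_lit 0x200280c0981))) 
(.lf (nat_lit 5054498) (dlOf (nat_lit 1) (nat_lit 0x800400060008300602)))) 
(.lf (nat_lit 43852194) (dlOf (nat_lit 5) (nat_lit 0x7b038002d804001581c00007020002c0e00002010039607000000080018008000c002003000092a1003)))) 
(.nd (nat_lit 26) (.nd (nat_lit 29) 
(.lf (nat_lit 134553634) (dlOf (nat_lit 2) (nat_lit 0x2800000000002000e0008070681))) 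
(.lf (nat_lit 3892650018) (dlOf (nat_lit 1) (nat_lit 0x2000400b20008180182)))) (.nd (nat_lit 6) 
(.lf (nat_lit 201662498) (dlOf (nat_lit 2) (nat_lit 0x2800000000002000e0008070681))) 
(.lf (nat_lit 2886018018) (dlOf (nat_lit 1) (nat_lit 0x10008001000200020008142883)))))) 
(.nd (nat_lit 6) (.nd (nat_lit 7) 
(.lf (nat_lit 2751801122) (dlOf (nat_lit 1) (nat_lit 0x20018003d01))) 
(.lf (nat_lit 49095842) (dlOf (nat_lit 1) (nat_lit 0x10008000800200040009462b83)))) 
(.nd (nat_lit 19) (.lf (nat_lit 38085730) (dlOf (nat_lit 1) (nat_lit 0x400200580009132982))) 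
(.lf (nat_lit 44901474) (dlOf (nat_lit 1) (nat_lit 0x2c00200040009322982)))))) (.nd (nat_lit 30) 
(.nd (nat_lit 32) (.nd (nat_lit 26) 
(.lf (nat_lit 268771362) (dlOf (nat_lit 5) (nat_lit 0x1640500005602009c01f004100d0000bc10000807c0005c040018054000e029000c00f800058180130008005800200100008140b83))) 
(.lf (nat_lit 3020234786) (dlOf (nat_lit 1) (nat_lit 0x8004000200081a0602)))) (.nd (nat_lit 27) 
(.lf (nat_lit 4563738658) (dlOf (nat_lit 1) (nat_lit 0x1c000801c4002004600080d0183))) 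
(.lf (nat_lit 4697956386) (dlOf (nat_lit 1) (nat_lit 0x1c000801c4002004600080d0183))))) 
(.nd (nat_lit 7) (.nd (nat_lit 21) 
(.lf (nat_lit 3557629986) (dlOf (nat_lit 1) (nat_lit 0x230008009c00200260008280503))) 
(.lf (nat_lit 4096598050) (dlOf (nat_lit 1) (nat_lit 0x80080004002000a0008130803)))) 
(.nd (nat_lit 6) (.lf (nat_lit 1345661346) (dlOf (nat_lit 1) (nat_lit 0x1400400040018dd4e82))) 
(.lf (nat_lit 5773271266) (dlOf (nat_lit 1) (nat_lit 0x8004001200180c1b02))))))) (.nd (nat_lit 7) 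
(.nd (nat_lit 19) (.nd (nat_lit 9) (.nd (nat_lit 20) 
(.lf (nat_lit 27598882) (dlOf (nat_lit 1) (nat_lit 0x20018d00681))) 
(.lf (nat_lit 26550306) (dlOf (nat_lit 3) (nat_lit 0x38000000160400640000000a0200500018c50181)))) 
(.nd (nat_lit 6) 
(.lf (nat_lit 23405090) (dlOf (nat_lit 4) (nat_lit 0x1fc8a801361bc002d808003322a000d86f0000182001cc8a800ae1bc0000208008400400800018b80d82))) 
(.lf (nat_lit 52766306) (dlOf (nat_lit 1) (nat_lit 0x60029573901))))) (.nd (nat_lit 20) 
(.nd (nat_lit 21) 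
(.lf (nat_lit 59580450) (dlOf (nat_lit 9) (nat_lit 0x4487f00204058015202801e4e820001608000a87f000f405800054100239d0400028040005172000487f000143f002c9d04000c000000110a001880b0000801000b43f8004a02c000060800310160000202006087f002d405800000100138008000c002000a0009810703))) 
(.lf (nat_lit 28123170) (dlOf (nat_lit 1) (nat_lit 0x10008000400200020008d60503)))) 
(.nd (nat_lit 23) (.lf (nat_lit 18685986) (dlOf (nat_lit 1) (nat_lit 0x800400040008960682))) 
(.lf (nat_lit 27074594) (dlOf (nat_lit 1) (nat_lit 0x20028ca0601)))))) (.nd (nat_lit 6) 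
(.nd (nat_lit 8) (.nd (nat_lit 9) 
(.lf (nat_lit 20786338) (dlOf (nat_lit 1) (nat_lit 0x80080500002000200089d6283))) 
(.lf (nat_lit 20264610) (dlOf (nat_lit 1) (nat_lit 0x100080014002000600089d9f83)))) 
(.nd (nat_lit 21) (.lf (nat_lit 21307810) (dlOf (nat_lit 1) (nat_lit 0x20028a36b81))) 
(.lf (nat_lit 23404962) (dlOf (nat_lit 5) (nat_lit 0x199c40008c90801fe44c0163222006586d000dc358013d0100048000007441000119c4003ac898029e44400b30da001386b003a185003ec89802be44400c70da001986b0039d040008ce2001e644c012b222004d86d0008c35801ce428005800800a000200020008b80783))))) 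
(.nd (nat_lit 19) 
(.lf (nat_lit 28647650) (dlOf (nat_lit 2) (nat_lit 0x1e93f00002a02000a0008da0581))) 
(.nd (nat_lit 22) (.lf (nat_lit 17637602) (dlOf (nat_lit 2) (nat_lit 0x16000000150188e0580))) 
(.lf (nat_lit 30220514) (dlOf (nat_lit 1) (nat_lit 0xc0028e30581)))))))))) (.nd (nat_lit 6) 
(.nd (nat_lit 18) (.nd (nat_lit 5) (.nd (nat_lit 28) (.nd (nat_lit 7) (.nd (nat_lit 19) 
(.nd (nat_lit 21) (.nd (nat_lit 10) (.nd (nat_lit 22) 
(.lf (nat_lit 2885787650) (dlOf (nat_lit 1) (nat_lit 0x20008001c002000a0008070003))) 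
(.lf (nat_lit 12689410) (dlOf (nat_lit 1) (nat_lit 0x80080004002000200086d0003)))) 
(.lf (nat_lit 59878402) (dlOf (nat_lit 1) (nat_lit 0x120019845f01)))) (.nd (nat_lit 22) 
(.lf (nat_lit 10592258) (dlOf (nat_lit 1) (nat_lit 0x400400020018600002))) 
(.lf (nat_lit 23175170) (dlOf (nat_lit 2) (nat_lit 0xec9700160000052b8100048008004c002001c0008b60003))))) 
(.nd (nat_lit 20) (.nd (nat_lit 22) 
(.lf (nat_lit 34185218) (dlOf (nat_lit 1) (nat_lit 0x20028fb0001))) 
(.lf (nat_lit 21602306) (dlOf (nat_lit 1) (nat_lit 0x60028a50001)))) (.nd (nat_lit 10) 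
(.lf (nat_lit 31039490) (dlOf (nat_lit 1) (nat_lit 0x20018e60001))) 
(.lf (nat_lit 7975938) (dlOf (nat_lit 2) (nat_lit 0x523b0029680800280080014002000c0008519203)))))) 
(.nd (nat_lit 26) (.nd (nat_lit 9) (.nd (nat_lit 27) 
(.lf (nat_lit 5905686658) (dlOf (nat_lit 2) (nat_lit 0xd0000000ec0800100080084002000800080b0103))) 
(.lf (nat_lit 5503033474) (dlOf (nat_lit 1) (nat_lit 0xdc00200240008030e02)))) 
(.lf (nat_lit 20035202) (dlOf (nat_lit 2) (nat_lit 0x757a0003d8189d9d80)))) (.nd (nat_lit 8) 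
(.nd (nat_lit 29) 
(.lf (nat_lit 6509666434) (dlOf (nat_lit 2) (nat_lit 0xd0000000ec0800100080084002000800080b0103))) 
(.lf (nat_lit 1677828226) (dlOf (nat_lit 2) (nat_lit 0xdf813006b0090037a04701b501a801600d006a404a0362024004600a0000bc4006b0008058800208d40008090103)))) 
(.nd (nat_lit 10) (.lf (nat_lit 2753143170) (dlOf (nat_lit 1) (nat_lit 0x20028090781))) 
(.lf (nat_lit 1812049282) (dlOf (nat_lit 1) (nat_lit 0xc0018146c01))))))) (.nd (nat_lit 19) 
(.nd (nat_lit 7) (.nd (nat_lit 8) (.nd (nat_lit 12) 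
(.lf (nat_lit 3623985154) (dlOf (nat_lit 1) (nat_lit 0x20008001c002000a0008070003))) 
(.lf (nat_lit 1342287874) (dlOf (nat_lit 1) (nat_lit 0x400400020018007a82)))) (.nd (nat_lit 9) 
(.lf (nat_lit 4697728258) (dlOf (nat_lit 1) (nat_lit 0x400400020008092f02))) 
(.lf (nat_lit 3087116034) (dlOf (nat_lit 1) (nat_lit 0x8008000400200020008143b83))))) 
(.nd (nat_lit 8) (.nd (nat_lit 9) 
(.lf (nat_lit 805412994) (dlOf (nat_lit 2) (nat_lit 0xdf813006b0090037a04701b501a801600d006a404a0362024004600a0000bc4006b0008058800208d40008090103))) 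
(.lf (nat_lit 4563511938) (dlOf (nat_lit 1) (nat_lit 0x400400020008095482)))) 
(.lf (nat_lit 5704362882) (dlOf (nat_lit 2) (nat_lit 0x60180004d018055c00))))) (.nd (nat_lit 27) 
(.nd (nat_lit 9) (.nd (nat_lit 26) 
(.lf (nat_lit 1342808066) (dlOf (nat_lit 1) (nat_lit 0xc002000200080d0002))) 
(.lf (nat_lit 3557400578) (dlOf (nat_lit 1) (nat_lit 0x840008000400201a600081e0003)))) 
(.lf (nat_lit 4094272002) (dlOf (nat_lit 1) (nat_lit 0x400400020008037b02)))) (.nd (nat_lit 7) 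
(.lf (nat_lit 470392834) (dlOf (nat_lit 1) (nat_lit 0xc002000200080d0002))) 
(.lf (nat_lit 6375972994) (dlOf (nat_lit 1) (nat_lit 0x90008006000200440008030e03))))))) 
(.nd (nat_lit 19) (.nd (nat_lit 8) (.nd (nat_lit 20) (.nd (nat_lit 21) (.nd (nat_lit 22) 
(.lf (nat_lit 2348916770) (dlOf (nat_lit 2) (nat_lit 0x3500a80164e04000800200080008020482))) 
(.lf (nat_lit 63021090) (dlOf (nat_lit 1) (nat_lit 0x2cc00200a400099c0182)))) 
(.lf (nat_lit 10592290) (dlOf (nat_lit 1) (nat_lit 0x400400020018600482)))) (.nd (nat_lit 7) 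
(.nd (nat_lit 21) (.lf (nat_lit 3490816034) (dlOf (nat_lit 1) (nat_lit 0x20018020481))) 
(.lf (nat_lit 28418082) (dlOf (nat_lit 1) (nat_lit 0x800400040008d90682)))) 
(.lf (nat_lit 43098274) (dlOf (nat_lit 2) (nat_lit 0x2aed800128080028008000c002000400092a0583))))) 
(.nd (nat_lit 9) (.nd (nat_lit 20) (.nd (nat_lit 21) 
(.lf (nat_lit 1208066338) (dlOf (nat_lit 1) (nat_lit 0x400200020008090a82))) 
(.lf (nat_lit 18981154) (dlOf (nat_lit 1) (nat_lit 0x20008970701)))) 
(.lf (nat_lit 6376497442) (dlOf (nat_lit 1) (nat_lit 0x180018090a81)))) (.nd (nat_lit 7) 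
(.lf (nat_lit 4563512098) (dlOf (nat_lit 1) (nat_lit 0x400400020008095c02))) 
(.lf (nat_lit 939632546) (dlOf (nat_lit 1) (nat_lit 0x30004000e0018144282)))))) (.nd (nat_lit 29) 
(.nd (nat_lit 20) (.nd (nat_lit 7) 
(.lf (nat_lit 4825122) (dlOf (nat_lit 2) (nat_lit 0x800000001d02000600082c0601))) 
(.lf (nat_lit 61448354) (dlOf (nat_lit 1) (nat_lit 0x8008000400200020009920583)))) 
(.nd (nat_lit 23) (.lf (nat_lit 1679394) (dlOf (nat_lit 1) (nat_lit 0x1800200020008110502))) 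
(.lf (nat_lit 26845218) (dlOf (nat_lit 2) (nat_lit 0x13957300122830001c408000800400040018c80602))))) 
(.nd (nat_lit 26) (.nd (nat_lit 27) 
(.lf (nat_lit 805937186) (dlOf (nat_lit 2) (nat_lit 0x402d00cf00b8000bc100170008009c002001000081f0b83))) 
(.lf (nat_lit 3892944930) (dlOf (nat_lit 1) (nat_lit 0x200082a0a81)))) (.nd (nat_lit 20) 
(.lf (nat_lit 1678352418) (dlOf (nat_lit 2) (nat_lit 0x402d00cf00b8000bc100170008009c002001000081f0b83))) 
(.lf (nat_lit 4095320098) (dlOf (nat_lit 1) (nat_lit 0x20028090181)))))))) (.nd (nat_lit 28) 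
(.nd (nat_lit 29) (.nd (nat_lit 21) (.nd (nat_lit 20) (.nd (nat_lit 27) (.nd (nat_lit 22) 
(.nd (nat_lit 26) 
(.lf (nat_lit 6442819586) (dlOf (nat_lit 1) (nat_lit 0x400080018002001c00081c0003))) 
(.lf (nat_lit 6509928450) (dlOf (nat_lit 1) (nat_lit 0xc0018160001)))) (.nd (nat_lit 5) 
(.lf (nat_lit 12951554) (dlOf (nat_lit 1) (nat_lit 0x4004000200086f0002))) 
(.lf (nat_lit 21340450) (dlOf (nat_lit 1) (nat_lit 0x60008a34301))))) (.nd (nat_lit 26) 
(.nd (nat_lit 30) 
(.lf (nat_lit 134586370) (dlOf (nat_lit 2) (nat_lit 0xc026002d10200020018080001))) 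
(.lf (nat_lit 3355811842) (dlOf (nat_lit 8) (nat_lit 0xfa02f002f00680360c1002b00bc041005a0054020005c0050035f82000300c80358062000602c00cf009004200440197e14024802400cbc0200c0012006558100010090032980808080c800500580270012002a0048030ac2000c8008000800200100008120003)))) 
(.nd (nat_lit 7) (.lf (nat_lit 201695234) (dlOf (nat_lit 2) (nat_lit 0xc026003510200020018080001))) 
(.lf (nat_lit 2349186434) (dlOf (nat_lit 2) (nat_lit 0xa010003420180fc900)))))) (.nd (nat_lit 24) 
(.nd (nat_lit 5) (.lf (nat_lit 10330114) (dlOf (nat_lit 1) (nat_lit 0x80080004002000200085d0003))) 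
(.lf (nat_lit 1417250) (dlOf (nat_lit 1) (nat_lit 0x400080c0981)))) (.nd (nat_lit 7) 
(.lf (nat_lit 22913026) (dlOf (nat_lit 3) (nat_lit 0x2a0000065f81003ade2000000080110008007400200220008b40003))) 
(.lf (nat_lit 18718850) (dlOf (nat_lit 1) (nat_lit 0x400200020008970482)))))) (.nd (nat_lit 19) 
(.nd (nat_lit 5) (.nd (nat_lit 7) 
(.lf (nat_lit 6660098) (dlOf (nat_lit 1) (nat_lit 0x40018440001))) 
(.lf (nat_lit 20294530) (dlOf (nat_lit 2) (nat_lit 0x133a60008502002200289d5c01)))) 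
(.nd (nat_lit 8) 
(.lf (nat_lit 27631650) (dlOf (nat_lit 2) (nat_lit 0xb07d8029f4080018008000800200020008d00683))) 
(.lf (nat_lit 58040610) (dlOf (nat_lit 1) (nat_lit 0x100080004002000200097b8003))))) 
(.nd (nat_lit 22) (.nd (nat_lit 24) 
(.lf (nat_lit 2990082) (dlOf (nat_lit 3) (nat_lit 0x5341000193a400309b00151406000a682000327480069360029300c0004004001600081f0002))) 
(.lf (nat_lit 53321730) (dlOf (nat_lit 1) (nat_lit 0x20019590001)))) (.nd (nat_lit 9) 
(.lf (nat_lit 15572994) (dlOf (nat_lit 1) (nat_lit 0x2e0028800001))) 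
(.lf (nat_lit 8237570) (dlOf (nat_lit 1) (nat_lit 0x400400020018518682))))))) (.nd (nat_lit 27) 
(.nd (nat_lit 26) (.nd (nat_lit 19) (.nd (nat_lit 31) 
(.lf (nat_lit 1610981378) (dlOf (nat_lit 1) (nat_lit 0x84004003400080b0002))) 
(.lf (nat_lit 3758465026) (dlOf (nat_lit 1) (nat_lit 0x9000181e0001)))) 
(.lf (nat_lit 537763842) (dlOf (nat_lit 1) (nat_lit 0x940028170001)))) (.nd (nat_lit 5) 
(.lf (nat_lit 1678090242) (dlOf (nat_lit 3) (nat_lit 0xc0880162102004a04400afd818180000))) 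
(.lf (nat_lit 2756026402) (dlOf (nat_lit 3) (nat_lit 0x3115800188a4000c42a00d5206000422b00051150035441000280080020002001000081d0a03))))) 
(.nd (nat_lit 5) (.nd (nat_lit 26) (.nd (nat_lit 30) 
(.lf (nat_lit 671457282) (dlOf (nat_lit 1) (nat_lit 0x10002001800081a0002))) 
(.lf (nat_lit 3892682754) (dlOf (nat_lit 1) (nat_lit 0x200081b0001)))) 
(.lf (nat_lit 738566146) (dlOf (nat_lit 1) (nat_lit 0x84004003400080b0002)))) (.nd (nat_lit 30) 
(.lf (nat_lit 671457314) (dlOf (nat_lit 1) (nat_lit 0x18002000c00081a0502))) 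
(.lf (nat_lit 3892682786) (dlOf (nat_lit 2) (nat_lit 0x100c8000e023000f00a0003000800008100060004000c00181b0602))))))) 
(.nd (nat_lit 5) (.nd (nat_lit 26) (.nd (nat_lit 20) (.nd (nat_lit 21) (.nd (nat_lit 27) 
(.lf (nat_lit 805675010) (dlOf (nat_lit 3) (nat_lit 0xc088014ae02004a04400a4b818180000))) 
(.lf (nat_lit 5234860034) (dlOf (nat_lit 3) (nat_lit 0x1401800cf681000400c0067700800900080054002001a0008100003)))) 
(.lf (nat_lit 1881513986) (dlOf (nat_lit 1) (nat_lit 0x280080030002000a0008f40003)))) 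
(.nd (nat_lit 8) (.lf (nat_lit 5773303810) (dlOf (nat_lit 1) (nat_lit 0x200180c0001))) 
(.lf (nat_lit 1345694466) (dlOf (nat_lit 1) (nat_lit 0x80028dd5a81))))) (.nd (nat_lit 19) 
(.nd (nat_lit 30) (.nd (nat_lit 22) 
(.lf (nat_lit 2617614338) (dlOf (nat_lit 6) (nat_lit 0x100160023840801480a8011b404077c05c0071502058202f0003014801a701003400bc00d2c040030004000c0008100002))) 
(.lf (nat_lit 474324994) (dlOf (nat_lit 1) (nat_lit 0x520029150001)))) (.nd (nat_lit 32) 
(.lf (nat_lit 1543872514) (dlOf (nat_lit 1) (nat_lit 0x10002001800081a0002))) 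
(.lf (nat_lit 5838839810) (dlOf (nat_lit 1) (nat_lit 0x400080018002001c00081c0003))))) 
(.nd (nat_lit 7) (.nd (nat_lit 20) 
(.lf (nat_lit 1410179074) (dlOf (nat_lit 1) (nat_lit 0x940028170001))) 
(.lf (nat_lit 6377283586) (dlOf (nat_lit 1) (nat_lit 0x200180c0001)))) 
(.lf (nat_lit 6376235138) (dlOf (nat_lit 1) (nat_lit 0x1bc0008090301)))))) (.nd (nat_lit 26) 
(.nd (nat_lit 30) (.nd (nat_lit 27) 
(.lf (nat_lit 4563771426) (dlOf (nat_lit 3) (nat_lit 0x10168000800800200b40003c040078004000a00080d0182))) 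
(.lf (nat_lit 4697989154) (dlOf (nat_lit 3) (nat_lit 0x10168000800800200b40003c040078004000a00080d0182)))) 
(.nd (nat_lit 10) (.nd (nat_lit 22) 
(.lf (nat_lit 1342545954) (dlOf (nat_lit 2) (nat_lit 0xc422600230d18000001000080080084002001e0008050c03))) 
(.lf (nat_lit 3494223906) (dlOf (nat_lit 3) (nat_lit 0x310b00018850000c400007d7060004216000510a801f581000280080020002001000081d0a03)))) 
(.lf (nat_lit 1345692706) (dlOf (nat_lit 1) (nat_lit 0x5d000402900008dd2882))))) (.nd (nat_lit 19) 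
(.nd (nat_lit 30) (.nd (nat_lit 31) 
(.lf (nat_lit 470130722) (dlOf (nat_lit 2) (nat_lit 0xc422600230d98000001000080080084002001e0008050c03))) 
(.lf (nat_lit 2617614370) (dlOf (nat_lit 2) (nat_lit 0x80560000002000e0008100501)))) 
(.lf (nat_lit 1543872546) (dlOf (nat_lit 1) (nat_lit 0x18002000c00081a0502)))) (.nd (nat_lit 7) 
(.nd (nat_lit 8) 
(.lf (nat_lit 4096630818) (dlOf (nat_lit 2) (nat_lit 0x7009e000200100017828140b80))) 
(.lf (nat_lit 4094536482) (dlOf (nat_lit 1) (nat_lit 0x400400020008055c02)))) 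
(.lf (nat_lit 6377283746) (dlOf (nat_lit 1) (nat_lit 0xe00180c1401))))))))) (.nd (nat_lit 7) 
(.nd (nat_lit 19) (.nd (nat_lit 30) (.nd (nat_lit 31) (.nd (nat_lit 8) (.nd (nat_lit 22) 
(.nd (nat_lit 9) (.nd (nat_lit 18) 
(.lf (nat_lit 25272386) (dlOf (nat_lit 2) (nat_lit 0x413c8001840800080080028002001c0008bf0c03))) 
(.lf (nat_lit 26583106) (dlOf (nat_lit 1) (nat_lit 0xe0028c50581)))) 
(.lf (nat_lit 59091522) (dlOf (nat_lit 1) (nat_lit 0x8004000200097e5202)))) (.nd (nat_lit 5) 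
(.lf (nat_lit 14786626) (dlOf (nat_lit 1) (nat_lit 0xe0028770581))) (.nd (nat_lit 10) 
(.lf (nat_lit 49651810) (dlOf (nat_lit 1) (nat_lit 0x400200020009480902))) 
(.lf (nat_lit 38118498) (dlOf (nat_lit 1) (nat_lit 0x400200620009132982)))))) (.nd (nat_lit 9) 
(.nd (nat_lit 5) (.nd (nat_lit 11) 
(.lf (nat_lit 805413186) (dlOf (nat_lit 3) (nat_lit 0x2381440005604015804c000000200280008090601))) 
(.lf (nat_lit 671197506) (dlOf (nat_lit 2) (nat_lit 0x2800000000040010002002c0008144d02)))) 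
(.lf (nat_lit 3252578) (dlOf (nat_lit 1) (nat_lit 0x4000400180018200702)))) (.nd (nat_lit 23) 
(.lf (nat_lit 536979266) (dlOf (nat_lit 1) (nat_lit 0x5000200100008003e02))) 
(.lf (nat_lit 8496962) (dlOf (nat_lit 1) (nat_lit 0xc00400020008513e02)))))) (.nd (nat_lit 28) 
(.nd (nat_lit 27) (.nd (nat_lit 18) 
(.lf (nat_lit 2752618562) (dlOf (nat_lit 2) (nat_lit 0xdc00000000018020780))) 
(.lf (nat_lit 2753929282) (dlOf (nat_lit 2) (nat_lit 0xa104400008008028800801dc002001600080a0d03)))) 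
(.nd (nat_lit 8) 
(.lf (nat_lit 2348916802) (dlOf (nat_lit 17) (nat_lit 0x1d480a8032c050005001800c1008001c8038003001a0002b0c011602a006800800350038000520c031005801ae02a000500e80748040010001e00f600e009100680278030008c0100002512018a02c06c801502a780a0011803a05de01800710080001003c021401c018a00d00ad006001a802006dc0060390000000120d0396016008f00a804fc0500290018039b0080198803c0e0401c062000d02f800600ff00200ac00060640000000118c00bd01600be00a802b8050001c010004f007803400340004418003c058078602a025001400320040022c01e00e400e008500680378000000422002fc058019601000bf0078056003802e801a000200a00c0010004a00700006c100160040000340402c00500020010002a007002b80340003210055c054002c00e0000a820049008001600380002208018c054004c0100060007000024180270034000060400c00500008010005e00700000018105000800d000207400008020783))) 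
(.lf (nat_lit 2818680130) (dlOf (nat_lit 1) (nat_lit 0x4000080d3301))))) (.nd (nat_lit 5) 
(.nd (nat_lit 9) 
(.lf (nat_lit 2483134530) (dlOf (nat_lit 17) (nat_lit 0x1d480a8032c050005001800c1008001c8038003001a0002b0c011602a006800800350038000520c031005c01ae02a000500f00748040010001e00f600e009100680278030008c0120002512018a02e06c801502a780a0011803c05de01800710080001003c021401c018a00d00ad006001a802406dc0060390000000120d0396017008f00a804fc0500290018039b0080198803c0e0401c062000d02f800600ff00240ac00060640000000118c00bd01700be00a802b8050001c010004f007803400340004418003c05c078602a025001400320040022c01e00e400e008500680378000000422002fc05c019601000bf0078056003802e801a000200a00580100000e0100b00140008004000a801c00ae00d0000d840060008002500380003208055c054002c00e0000a820049008001600380002208018c054004c0100060007000024180270034000060400c00500008010005e00700000018105000800d000207400008020783))) 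
(.lf (nat_lit 2416026178) (dlOf (nat_lit 1) (nat_lit 0x60018018c81)))) 
(.lf (nat_lit 2483402850) (dlOf (nat_lit 1) (nat_lit 0x200180fa801)))))) (.nd (nat_lit 8) 
(.nd (nat_lit 26) (.nd (nat_lit 31) (.nd (nat_lit 27) 
(.lf (nat_lit 1074110530) (dlOf (nat_lit 2) (nat_lit 0x401480008c0800200080010002000600080a0d03))) 
(.lf (nat_lit 6308601922) (dlOf (nat_lit 1) (nat_lit 0x400200020008140d82)))) (.nd (nat_lit 18) 
(.lf (nat_lit 3490816066) (dlOf (nat_lit 2) (nat_lit 0xdc00000000018020780))) 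
(.lf (nat_lit 3492126786) (dlOf (nat_lit 1) (nat_lit 0xd0008003c002001600080a0e03))))) 
(.nd (nat_lit 5) (.nd (nat_lit 10) 
(.lf (nat_lit 5704622146) (dlOf (nat_lit 1) (nat_lit 0x400200020008140d82))) 
(.lf (nat_lit 5972796482) (dlOf (nat_lit 1) (nat_lit 0x800400020008142882)))) 
(.lf (nat_lit 5838839906) (dlOf (nat_lit 1) (nat_lit 0x84002002c00081c1382))))) (.nd (nat_lit 26) 
(.nd (nat_lit 5) (.nd (nat_lit 10) 
(.lf (nat_lit 3221332290) (dlOf (nat_lit 6) (nat_lit 0x22a053011a01b80a7009004cc0400002d0801d802400570100000b01008d814c047806e020202401420100094005404500000002b0c01da02400014810007010000088080d0800801f8002003c0008090603))) 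
(.lf (nat_lit 5773567298) (dlOf (nat_lit 1) (nat_lit 0x4004000200080e3302)))) 
(.lf (nat_lit 3493962082) (dlOf (nat_lit 1) (nat_lit 0x200080058002000c00081b0703)))) 
(.nd (nat_lit 27) 
(.lf (nat_lit 1677828418) (dlOf (nat_lit 3) (nat_lit 0x2381440005404015804c000000200280008090601))) 
(.lf (nat_lit 3959529794) (dlOf (nat_lit 6) (nat_lit 0x22a053011a01b80a7009004cc0400002c0801d802400570100000ac1008d814c047806e020202401420100094005404500000002a0c01da02400014010007010000088080d0800801f8002003c0008090603))))))) 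
(.nd (nat_lit 5) (.nd (nat_lit 9) (.nd (nat_lit 18) (.nd (nat_lit 20) 
(.lf (nat_lit 3960053826) (dlOf (nat_lit 1) (nat_lit 0xc8008002c002004c00081a1883))) 
(.nd (nat_lit 21) (.lf (nat_lit 471441474) (dlOf (nat_lit 1) (nat_lit 0x400200020008300e02))) 
(.lf (nat_lit 3776578) (dlOf (nat_lit 1) (nat_lit 0x80080014002000e0008220d03))))) 
(.nd (nat_lit 10) (.lf (nat_lit 892994) (dlOf (nat_lit 1) (nat_lit 0x400200020008030e02))) 
(.lf (nat_lit 5772256322) (dlOf (nat_lit 1) (nat_lit 0x60028092881))))) (.nd (nat_lit 11) 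
(.nd (nat_lit 26) (.lf (nat_lit 3491340866) (dlOf (nat_lit 1) (nat_lit 0xcc00200500008091082))) 
(.lf (nat_lit 2753143362) (dlOf (nat_lit 1) (nat_lit 0xcc00200500008091082)))) (.nd (nat_lit 12) 
(.lf (nat_lit 39430722) (dlOf (nat_lit 1) (nat_lit 0x3400400020019195202))) 
(.lf (nat_lit 3492657730) (dlOf (nat_lit 2) (nat_lit 0x61f5000090180fb500)))))) (.nd (nat_lit 10) 
(.nd (nat_lit 8) (.nd (nat_lit 12) (.nd (nat_lit 18) 
(.lf (nat_lit 1009360994) (dlOf (nat_lit 1) (nat_lit 0x40009120781))) 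
(.lf (nat_lit 470655074) (dlOf (nat_lit 1) (nat_lit 0x120028150281)))) 
(.lf (nat_lit 634978) (dlOf (nat_lit 1) (nat_lit 0x8008000400200020008007d83)))) (.nd (nat_lit 21) 
(.lf (nat_lit 34187618) (dlOf (nat_lit 1) (nat_lit 0x8008000400200020008fb4e83))) 
(.lf (nat_lit 57256290) (dlOf (nat_lit 3) (nat_lit 0x1055de0150b020048aef00a85019794e80))))) 
(.nd (nat_lit 18) (.nd (nat_lit 20) 
(.lf (nat_lit 1347003490) (dlOf (nat_lit 1) (nat_lit 0x800200020009162982))) 
(.lf (nat_lit 37332066) (dlOf (nat_lit 1) (nat_lit 0x200190d2981)))) (.nd (nat_lit 20) 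
(.lf (nat_lit 49128546) (dlOf (nat_lit 1) (nat_lit 0xc00400080009462982))) 
(.lf (nat_lit 56468578) (dlOf (nat_lit 1) (nat_lit 0x80029732981)))))))) (.nd (nat_lit 10) 
(.nd (nat_lit 18) (.nd (nat_lit 9) (.nd (nat_lit 19) (.nd (nat_lit 20) (.nd (nat_lit 8) 
(.lf (nat_lit 1344381154) (dlOf (nat_lit 2) (nat_lit 0x9100000005404004000200080008740582))) 
(.lf (nat_lit 3288441314) (dlOf (nat_lit 1) (nat_lit 0x88008001800200020008017303)))) 
(.nd (nat_lit 21) 
(.lf (nat_lit 59875554) (dlOf (nat_lit 1) (nat_lit 0x28008000400200020009840a83))) 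
(.lf (nat_lit 7446754) (dlOf (nat_lit 2) (nat_lit 0x422340020d4000103fd000150384b0580))))) 
(.nd (nat_lit 5) (.nd (nat_lit 8) 
(.lf (nat_lit 5771993282) (dlOf (nat_lit 2) (nat_lit 0xf20140000a8080880008010800200b60008031b03))) 
(.lf (nat_lit 5774090690) (dlOf (nat_lit 2) (nat_lit 0x5800000aa204000c002001400080f7a82)))) 
(.lf (nat_lit 67739874) (dlOf (nat_lit 2) (nat_lit 0x26110000150182d0580))))) (.nd (nat_lit 5) 
(.nd (nat_lit 8) (.nd (nat_lit 19) 
(.lf (nat_lit 3154225858) (dlOf (nat_lit 1) (nat_lit 0x2c0018105801))) 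
(.lf (nat_lit 738831042) (dlOf (nat_lit 1) (nat_lit 0x10008000400200020008125803)))) 
(.nd (nat_lit 19) (.lf (nat_lit 5637254082) (dlOf (nat_lit 2) (nat_lit 0x401500016818055d80))) 
(.lf (nat_lit 20556738) (dlOf (nat_lit 1) (nat_lit 0x4002000200089d5d82))))) (.nd (nat_lit 8) 
(.nd (nat_lit 12) 
(.lf (nat_lit 3556879074) (dlOf (nat_lit 3) (nat_lit 0x4005c002002c001400e0008006000980180028008000c0000001f0700140030000e8080020008004c002000200080d5983))) 
(.lf (nat_lit 20036322) (dlOf (nat_lit 1) (nat_lit 0x6500080468002016600089db983)))) 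
(.lf (nat_lit 738307042) (dlOf (nat_lit 1) (nat_lit 0x1000200040008095e82)))))) (.nd (nat_lit 19) 
(.nd (nat_lit 21) (.nd (nat_lit 5) 
(.lf (nat_lit 2080743618) (dlOf (nat_lit 1) (nat_lit 0x4002000200080c1702))) (.nd (nat_lit 8) 
(.lf (nat_lit 2818941154) (dlOf (nat_lit 1) (nat_lit 0xc0002001c0008130602))) 
(.lf (nat_lit 21340642) (dlOf (nat_lit 1) (nat_lit 0x400400020008a37302))))) (.nd (nat_lit 20) 
(.lf (nat_lit 19243234) (dlOf (nat_lit 2) (nat_lit 0x20930c0005404001000200060008970582))) 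
(.lf (nat_lit 28680418) (dlOf (nat_lit 2) (nat_lit 0x2627e00005404001000200040008da0582))))) 
(.nd (nat_lit 20) (.nd (nat_lit 5) 
(.lf (nat_lit 19772354) (dlOf (nat_lit 1) (nat_lit 0x80080004002000200089d9203))) (.nd (nat_lit 21) 
(.lf (nat_lit 30253282) (dlOf (nat_lit 6) (nat_lit 0x8c57a80014c0800b2bd40006a0400695ee0002a02002aaf80001081003d57c801eabe00003a08000400200040008e30582))) 
(.lf (nat_lit 7184610) (dlOf (nat_lit 2) (nat_lit 0x63fd000150184b0580))))) (.nd (nat_lit 11) 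
(.lf (nat_lit 6136034) (dlOf (nat_lit 2) (nat_lit 0xbc99800015018420580))) 
(.lf (nat_lit 8235234) (dlOf (nat_lit 1) (nat_lit 0x8008000400200040008514b03))))))) 
(.nd (nat_lit 18) (.nd (nat_lit 9) (.nd (nat_lit 5) (.nd (nat_lit 11) (.nd (nat_lit 20) 
(.lf (nat_lit 32089282) (dlOf (nat_lit 1) (nat_lit 0x400200060008ef2d02))) 
(.lf (nat_lit 52012226) (dlOf (nat_lit 1) (nat_lit 0x8008000400200020009512d03)))) 
(.lf (nat_lit 1342287042) (dlOf (nat_lit 1) (nat_lit 0x20018006381)))) (.nd (nat_lit 19) 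
(.lf (nat_lit 134327522) (dlOf (nat_lit 1) (nat_lit 0x10800400260008006502))) 
(.lf (nat_lit 634082) (dlOf (nat_lit 4) (nat_lit 0xfb520017da70005ed28012768c0017b3e0017d9d0004ea10005ee640006a200017b52000dda5000aecf8004f5080006810002bb520011da50009ecf8005f5080005410005400400180008006502))))) 
(.nd (nat_lit 12) (.nd (nat_lit 5) 
(.lf (nat_lit 108482) (dlOf (nat_lit 1) (nat_lit 0x1c0018004401))) (.nd (nat_lit 8) 
(.lf (nat_lit 5838581474) (dlOf (nat_lit 1) (nat_lit 0x1000180f7381))) 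
(.lf (nat_lit 5972797410) (dlOf (nat_lit 1) (nat_lit 0x400400020008144582))))) (.nd (nat_lit 26) 
(.lf (nat_lit 536983522) (dlOf (nat_lit 1) (nat_lit 0x40040034001800a602))) 
(.lf (nat_lit 4362188770) (dlOf (nat_lit 1) (nat_lit 0x1000800040020002000800a603)))))) 
(.nd (nat_lit 5) (.nd (nat_lit 19) (.nd (nat_lit 11) 
(.lf (nat_lit 59090114) (dlOf (nat_lit 1) (nat_lit 0x400297e2d01))) 
(.lf (nat_lit 3624250562) (dlOf (nat_lit 1) (nat_lit 0x100028146381)))) (.nd (nat_lit 8) 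
(.lf (nat_lit 473801922) (dlOf (nat_lit 1) (nat_lit 0x20008fa2d01))) 
(.lf (nat_lit 3492657090) (dlOf (nat_lit 1) (nat_lit 0x600180fa601))))) (.nd (nat_lit 11) 
(.nd (nat_lit 8) (.nd (nat_lit 19) 
(.lf (nat_lit 43361506) (dlOf (nat_lit 16) (nat_lit 0xa29180004f02020548c0002701009ba460001340809b52300008e04019aa2602b94970189a4600011818034d44c033e95c038348c0137000000114200b85230000860405f29180004202001548c00020810140a460000f80801752300006a0409ba92e004348c00019020056b3b8007d7f80306bf60551497008812a0000bc2802d57ec073e92e0001404024d497000088192a2e00))) 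
(.lf (nat_lit 61711586) (dlOf (nat_lit 1) (nat_lit 0x24002000a0009922e02)))) 
(.lf (nat_lit 2751838178) (dlOf (nat_lit 1) (nat_lit 0x6000800a601)))) (.nd (nat_lit 19) 
(.lf (nat_lit 2349182178) (dlOf (nat_lit 4) (nat_lit 0x2280d0017c06600ac031004c017000080000006a14011806800be033005b018802880b80006810011406800ba0330059018802680b800054100064004001000080f6502))) 
(.lf (nat_lit 3490557154) (dlOf (nat_lit 1) (nat_lit 0x480028006501))))))))))))

end

end Pool.Agent.Lib.MP_5854e1_co.Cz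

namespace Pool.Agent.Lib.MP_5854e1_co.Cz

noncomputable section

noncomputable def tz130 : DT := (.nd (nat_lit 13) (.nd (nat_lit 6) (.nd (nat_lit 5) 
(.nd (nat_lit 16) (.nd (nat_lit 18) (.nd (nat_lit 27) (.nd (nat_lit 29) (.nd (nat_lit 19) 
(.nd (nat_lit 20) (.nd (nat_lit 7) (.nd (nat_lit 21) 
(.lf (nat_lit 1140981762) (dlOf (nat_lit 2) (nat_lit 0xa801400ea404002c00400280008040002))) 
(.lf (nat_lit 52559874) (dlOf (nat_lit 1) (nat_lit 0x38008002400200180009550003)))) 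
(.lf (nat_lit 2228354) (dlOf (nat_lit 1) (nat_lit 0x20018150101)))) (.nd (nat_lit 10) 
(.lf (nat_lit 5373954) (dlOf (nat_lit 1) (nat_lit 0x160028360001))) 
(.lf (nat_lit 38929410) (dlOf (nat_lit 1) (nat_lit 0x8008000400200020009192883))))) 
(.nd (nat_lit 20) (.nd (nat_lit 21) 
(.lf (nat_lit 21626882) (dlOf (nat_lit 2) (nat_lit 0x54b00067100800780080044002000e0008a50003))) 
(.lf (nat_lit 27918338) (dlOf (nat_lit 1) (nat_lit 0x280080018002000a0008d40003)))) 
(.nd (nat_lit 22) (.lf (nat_lit 45744130) (dlOf (nat_lit 1) (nat_lit 0x20019360001))) 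
(.lf (nat_lit 16384002) (dlOf (nat_lit 1) (nat_lit 0x24000800f8002006a00088a0003)))))) 
(.nd (nat_lit 7) (.nd (nat_lit 26) (.nd (nat_lit 9) 
(.lf (nat_lit 2952921090) (dlOf (nat_lit 2) (nat_lit 0x807802a4a04005800200580008020002))) 
(.lf (nat_lit 3758227970) (dlOf (nat_lit 1) (nat_lit 0x400400020008107b02)))) (.nd (nat_lit 10) 
(.lf (nat_lit 604110850) (dlOf (nat_lit 2) (nat_lit 0x200fc00140780014039000201b000b442000d0008011c002011c0008020003))) 
(.lf (nat_lit 6241258498) (dlOf (nat_lit 1) (nat_lit 0xc004000600080d5f02))))) (.nd (nat_lit 8) 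
(.lf (nat_lit 1610745474) (dlOf (nat_lit 3) (nat_lit 0x480b40002f02002a05a00016018093a00))) 
(.lf (nat_lit 1610744194) (dlOf (nat_lit 1) (nat_lit 0x20018091001)))))) (.nd (nat_lit 26) 
(.nd (nat_lit 28) (.nd (nat_lit 7) (.nd (nat_lit 19) 
(.lf (nat_lit 2281832450) (dlOf (nat_lit 1) (nat_lit 0x400400020008070002))) 
(.lf (nat_lit 3892969474) (dlOf (nat_lit 1) (nat_lit 0x30004000200082c0002)))) (.nd (nat_lit 8) 
(.lf (nat_lit 3355580034) (dlOf (nat_lit 3) (nat_lit 0x4006400380310003d8200050190001bc08026800800a0002007800080a9d83))) 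
(.lf (nat_lit 134356354) (dlOf (nat_lit 1) (nat_lit 0x10001800c901))))) (.nd (nat_lit 10) 
(.nd (nat_lit 29) (.nd (nat_lit 31) 
(.lf (nat_lit 1476526082) (dlOf (nat_lit 1) (nat_lit 0x400400020008020002))) 
(.lf (nat_lit 3624009730) (dlOf (nat_lit 2) (nat_lit 0x3018000280bc001805c000c02d000701280028090001c0360010019000600c000b005000240240008011000300780010020005400a001c002000a000005a5088008800800c8002000400080a0003)))) 
(.lf (nat_lit 2013396994) (dlOf (nat_lit 2) (nat_lit 0xa80140199a04002c00400280008040002)))) 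
(.lf (nat_lit 4697752578) (dlOf (nat_lit 1) (nat_lit 0x3c80080048002001e0008092883))))) 
(.nd (nat_lit 28) (.nd (nat_lit 29) (.nd (nat_lit 30) 
(.lf (nat_lit 6643908610) (dlOf (nat_lit 1) (nat_lit 0xe0008050001))) 
(.lf (nat_lit 3422683138) (dlOf (nat_lit 1) (nat_lit 0x80028050001)))) (.nd (nat_lit 10) 
(.lf (nat_lit 2885812226) (dlOf (nat_lit 2) (nat_lit 0x3018000280bc001805c000c02d000701280028090002003c000e01a000600c0004805c00580260008011000300780010020005400a001c002000a00000549488008800800c8002000400080a0003))) 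
(.lf (nat_lit 738331650) (dlOf (nat_lit 2) (nat_lit 0x1681680008004001000200160008095f02))))) 
(.nd (nat_lit 21) (.nd (nat_lit 9) 
(.lf (nat_lit 470417410) (dlOf (nat_lit 1) (nat_lit 0x800080064002004400080e0003))) 
(.lf (nat_lit 2617377282) (dlOf (nat_lit 1) (nat_lit 0x400280a1481)))) (.nd (nat_lit 8) 
(.lf (nat_lit 1009385474) (dlOf (nat_lit 1) (nat_lit 0x1c0029150001))) 
(.lf (nat_lit 473563394) (dlOf (nat_lit 1) (nat_lit 0x400400020008f63582)))))))) (.nd (nat_lit 19) 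
(.nd (nat_lit 30) (.nd (nat_lit 7) (.nd (nat_lit 10) (.nd (nat_lit 21) 
(.lf (nat_lit 6442844162) (dlOf (nat_lit 2) (nat_lit 0xc032007428181d0000))) 
(.lf (nat_lit 10878978) (dlOf (nat_lit 1) (nat_lit 0x20028640001)))) (.nd (nat_lit 9) 
(.lf (nat_lit 38142978) (dlOf (nat_lit 1) (nat_lit 0x180009132881))) 
(.lf (nat_lit 8787458) (dlOf (nat_lit 1) (nat_lit 0x20028519c01))))) (.nd (nat_lit 8) 
(.lf (nat_lit 41287810) (dlOf (nat_lit 1) (nat_lit 0x280029233a01))) 
(.lf (nat_lit 4362469762) (dlOf (nat_lit 1) (nat_lit 0xc0018090781))))) (.nd (nat_lit 27) 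
(.nd (nat_lit 21) 
(.lf (nat_lit 3221618690) (dlOf (nat_lit 3) (nat_lit 0x202f001618100050070009240800b000800ac00200040008160003))) 
(.lf (nat_lit 1881538562) (dlOf (nat_lit 2) (nat_lit 0x201c001b9a0200020018f40001)))) 
(.nd (nat_lit 26) 
(.lf (nat_lit 3355836418) (dlOf (nat_lit 6) (nat_lit 0x1001780360c0801480b401afc04077c06200cbf02058203200030160030ac1003400c801850040030004000c0008120002))) 
(.lf (nat_lit 3959816194) (dlOf (nat_lit 3) (nat_lit 0x202f0015a8100050070009740800b000800ac00200040008160003)))))) 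
(.nd (nat_lit 8) (.nd (nat_lit 7) (.nd (nat_lit 26) (.nd (nat_lit 27) 
(.lf (nat_lit 537788418) (dlOf (nat_lit 3) (nat_lit 0x403c000481d800180ea00120710009038000301b400100cc001206200090308002818000280000151e16001007600a4c0181a0000))) 
(.lf (nat_lit 2819489794) (dlOf (nat_lit 1) (nat_lit 0x380080020002001200082b0003)))) 
(.lf (nat_lit 1410203650) (dlOf (nat_lit 3) (nat_lit 0x403c000481dc00180ec00120710009038000301b400100cc001206300090308002818000280000168d16001007700afe0181a0000)))) 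
(.nd (nat_lit 9) (.lf (nat_lit 12451970) (dlOf (nat_lit 1) (nat_lit 0x4002000200086c0102))) 
(.lf (nat_lit 19796610) (dlOf (nat_lit 1) (nat_lit 0x600189d8b01))))) (.nd (nat_lit 9) 
(.nd (nat_lit 10) (.lf (nat_lit 2754480514) (dlOf (nat_lit 1) (nat_lit 0x200080f4e81))) 
(.lf (nat_lit 19799426) (dlOf (nat_lit 1) (nat_lit 0xe8004001600089dc902)))) (.nd (nat_lit 12) 
(.lf (nat_lit 19794818) (dlOf (nat_lit 1) (nat_lit 0x800189d5c01))) 
(.lf (nat_lit 19798914) (dlOf (nat_lit 1) (nat_lit 0xa00189dbc81)))))))) (.nd (nat_lit 28) 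
(.nd (nat_lit 21) (.nd (nat_lit 19) (.nd (nat_lit 26) (.nd (nat_lit 18) (.nd (nat_lit 7) 
(.nd (nat_lit 23) (.lf (nat_lit 1073938434) (dlOf (nat_lit 1) (nat_lit 0x40018030001))) 
(.lf (nat_lit 25362434) (dlOf (nat_lit 1) (nat_lit 0x8400400120008c00002)))) 
(.lf (nat_lit 2684556418) (dlOf (nat_lit 1) (nat_lit 0x80080004002000200080a9503)))) 
(.nd (nat_lit 9) (.nd (nat_lit 20) 
(.lf (nat_lit 2819031042) (dlOf (nat_lit 3) (nat_lit 0x11806c01daa02001c03600ed4018150000))) 
(.lf (nat_lit 9895938) (dlOf (nat_lit 1) (nat_lit 0x60028590001)))) 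
(.lf (nat_lit 134676994) (dlOf (nat_lit 2) (nat_lit 0xd02080005c0800b0008007400200400008090d83))))) 
(.nd (nat_lit 7) (.nd (nat_lit 27) (.nd (nat_lit 29) 
(.lf (nat_lit 3288530946) (dlOf (nat_lit 1) (nat_lit 0x40018070001))) 
(.lf (nat_lit 604176386) (dlOf (nat_lit 1) (nat_lit 0x80028080001)))) (.nd (nat_lit 9) 
(.lf (nat_lit 5570232322) (dlOf (nat_lit 1) (nat_lit 0x50008002800200140008090003))) 
(.lf (nat_lit 201785858) (dlOf (nat_lit 2) (nat_lit 0xd0208000700800b0008007400200400008090d83))))) 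
(.nd (nat_lit 9) 
(.lf (nat_lit 4362273154) (dlOf (nat_lit 1) (nat_lit 0x58008025400200460008015a83))) 
(.lf (nat_lit 2214794114) (dlOf (nat_lit 1) (nat_lit 0x124004004a00080a9002)))))) (.nd (nat_lit 20) 
(.nd (nat_lit 26) (.nd (nat_lit 22) (.nd (nat_lit 27) 
(.lf (nat_lit 537591810) (dlOf (nat_lit 2) (nat_lit 0x108031000000180c0000))) 
(.lf (nat_lit 134938626) (dlOf (nat_lit 2) (nat_lit 0x1d701b001c540805300080048002003200080e0003)))) 
(.lf (nat_lit 21692418) (dlOf (nat_lit 3) (nat_lit 0xf6a801018040007b540080b0200080008a60001)))) 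
(.nd (nat_lit 7) 
(.lf (nat_lit 202047490) (dlOf (nat_lit 2) (nat_lit 0x1d701b0032fc0805300080048002003200080e0003))) 
(.lf (nat_lit 2752186242) (dlOf (nat_lit 1) (nat_lit 0x20008004181))))) (.nd (nat_lit 7) 
(.nd (nat_lit 23) 
(.lf (nat_lit 1769474) (dlOf (nat_lit 2) (nat_lit 0x20e9000305a802c4208003000200020008130002))) 
(.lf (nat_lit 26935298) (dlOf (nat_lit 1) (nat_lit 0x400400020008c90002)))) 
(.lf (nat_lit 6226050) (dlOf (nat_lit 1) (nat_lit 0x5000400020018420482)))))) (.nd (nat_lit 18) 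
(.nd (nat_lit 20) (.nd (nat_lit 23) (.nd (nat_lit 26) 
(.lf (nat_lit 2293762) (dlOf (nat_lit 4) (nat_lit 0xdd220069000800560ec0344204002f07601a060201100028150001))) 
(.lf (nat_lit 2753757186) (dlOf (nat_lit 1) (nat_lit 0x20018090001)))) (.nd (nat_lit 19) 
(.lf (nat_lit 44236802) (dlOf (nat_lit 1) (nat_lit 0x200292e0001))) 
(.lf (nat_lit 27983874) (dlOf (nat_lit 1) (nat_lit 0x20028d50001))))) (.nd (nat_lit 7) 
(.nd (nat_lit 19) (.lf (nat_lit 24313858) (dlOf (nat_lit 1) (nat_lit 0x400200020008b90002))) 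
(.lf (nat_lit 3866626) (dlOf (nat_lit 1) (nat_lit 0x100018240001)))) 
(.lf (nat_lit 20122498) (dlOf (nat_lit 1) (nat_lit 0x4002000200089d5c02))))) (.nd (nat_lit 20) 
(.nd (nat_lit 19) (.nd (nat_lit 22) 
(.lf (nat_lit 2555906) (dlOf (nat_lit 5) (nat_lit 0x228f4000945601bb2040004a52000251e800128ac037620c003d4b8001ca52000751e8005a8ac037601000154b8000aa52000d51e8006a8ac0375e10001c00200160008170002))) 
(.lf (nat_lit 48693250) (dlOf (nat_lit 1) (nat_lit 0x8a0019420001)))) 
(.lf (nat_lit 11468802) (dlOf (nat_lit 1) (nat_lit 0x400286a0001)))) (.nd (nat_lit 9) 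
(.lf (nat_lit 20905986) (dlOf (nat_lit 1) (nat_lit 0x4004000200089f0002))) (.nd (nat_lit 22) 
(.lf (nat_lit 11993602) (dlOf (nat_lit 1) (nat_lit 0x200186c0d81))) 
(.lf (nat_lit 58130946) (dlOf (nat_lit 5) (nat_lit 0xe612800730920016004003d84a001fc2480038c1000ce108006f08000071040037842001dc2000019410007800800bc002002800097c7b03)))))))) 
(.nd (nat_lit 26) (.nd (nat_lit 29) (.nd (nat_lit 18) (.nd (nat_lit 20) (.nd (nat_lit 10) 
(.nd (nat_lit 31) (.lf (nat_lit 1346568194) (dlOf (nat_lit 1) (nat_lit 0x520028fd0001))) 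
(.lf (nat_lit 3494051842) (dlOf (nat_lit 2) (nat_lit 0x88858034800402b0004001400081b0002)))) 
(.lf (nat_lit 5637342210) (dlOf (nat_lit 1) (nat_lit 0xc0004000200180d2882)))) (.nd (nat_lit 19) 
(.lf (nat_lit 1343422466) (dlOf (nat_lit 1) (nat_lit 0x80028230001))) 
(.lf (nat_lit 3491430402) (dlOf (nat_lit 2) (nat_lit 0x10b0ae003578080250008014400200640008090003))))) 
(.nd (nat_lit 19) (.nd (nat_lit 20) 
(.lf (nat_lit 1342636034) (dlOf (nat_lit 7) (nat_lit 0x110f98054c80800707cc02a3a0400143e60151802000c1f300a7f010005119800508ac001c3e6014ae06001222300010cc8052301000c00080104002003e00080a0003))) 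
(.lf (nat_lit 1343684610) (dlOf (nat_lit 1) (nat_lit 0x400400020008330002)))) (.nd (nat_lit 7) 
(.nd (nat_lit 10) 
(.lf (nat_lit 3492743170) (dlOf (nat_lit 1) (nat_lit 0x300080010002000800080f4703))) 
(.lf (nat_lit 3492742146) (dlOf (nat_lit 1) (nat_lit 0x4002000200080f2882)))) 
(.lf (nat_lit 1344209026) (dlOf (nat_lit 1) (nat_lit 0x8008000400200020008490103)))))) 
(.nd (nat_lit 32) (.nd (nat_lit 7) 
(.lf (nat_lit 4026728450) (dlOf (nat_lit 1) (nat_lit 0x40018070001))) (.nd (nat_lit 11) 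
(.lf (nat_lit 2013463938) (dlOf (nat_lit 2) (nat_lit 0xe0260000e818093580))) 
(.lf (nat_lit 805510530) (dlOf (nat_lit 1) (nat_lit 0x3600080174002008a000811c903))))) 
(.nd (nat_lit 27) (.nd (nat_lit 30) 
(.lf (nat_lit 5100470274) (dlOf (nat_lit 1) (nat_lit 0x20028090001))) 
(.lf (nat_lit 6174212098) (dlOf (nat_lit 1) (nat_lit 0x50008002800200140008090003)))) 
(.lf (nat_lit 6308429826) (dlOf (nat_lit 2) (nat_lit 0x100c001c44080038008001000200180008080003)))))) 
(.nd (nat_lit 19) (.nd (nat_lit 31) (.nd (nat_lit 18) (.nd (nat_lit 29) 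
(.lf (nat_lit 5704450050) (dlOf (nat_lit 2) (nat_lit 0x100c0032e8080038008001000200180008080003))) 
(.lf (nat_lit 1946353666) (dlOf (nat_lit 1) (nat_lit 0x40018030001)))) (.nd (nat_lit 20) 
(.lf (nat_lit 470220802) (dlOf (nat_lit 7) (nat_lit 0x110f9005a840800707c802d180400143e40168702000c1f200b36810005119800508ac001c3e40162106001221f00010ce8057f81000c00080104002003e00080a0003))) 
(.lf (nat_lit 471269378) (dlOf (nat_lit 1) (nat_lit 0x3800282e0001))))) (.nd (nat_lit 7) 
(.nd (nat_lit 9) (.nd (nat_lit 18) 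
(.lf (nat_lit 3691184130) (dlOf (nat_lit 1) (nat_lit 0xc400200460008090002))) 
(.lf (nat_lit 3557228546) (dlOf (nat_lit 2) (nat_lit 0xa01c00690c080208008002800200400008170003)))) 
(.lf (nat_lit 2617447938) (dlOf (nat_lit 2) (nat_lit 0xc0160004b80801700080150002001c00080a9c03)))) 
(.lf (nat_lit 4228055426) (dlOf (nat_lit 1) (nat_lit 0x58008025400200460008015a83))))) 
(.nd (nat_lit 18) (.nd (nat_lit 20) (.nd (nat_lit 21) 
(.lf (nat_lit 1410007042) (dlOf (nat_lit 2) (nat_lit 0x108031000000180c0000))) 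
(.lf (nat_lit 472580098) (dlOf (nat_lit 6) (nat_lit 0x260000076680801501f0039a80400bc0f801cd20200d20bc00e5901006905e00726c0800500080084002005e00089c0003)))) 
(.nd (nat_lit 7) 
(.lf (nat_lit 473628930) (dlOf (nat_lit 2) (nat_lit 0xd07d00037c0800d8008000c00200340008f63583))) 
(.lf (nat_lit 6377111682) (dlOf (nat_lit 1) (nat_lit 0x800180a2181))))) (.nd (nat_lit 7) 
(.nd (nat_lit 8) 
(.lf (nat_lit 470745090) (dlOf (nat_lit 3) (nat_lit 0x600000ed501005f0f3801200000373408017400400640018170002))) 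
(.lf (nat_lit 4095673602) (dlOf (nat_lit 1) (nat_lit 0x200080034002000200080e2f03)))) 
(.lf (nat_lit 471793794) (dlOf (nat_lit 1) (nat_lit 0x8008000400200020008490103))))))))) 
(.nd (nat_lit 18) (.nd (nat_lit 16) (.nd (nat_lit 19) (.nd (nat_lit 29) (.nd (nat_lit 24) 
(.nd (nat_lit 32) (.nd (nat_lit 7) 
(.lf (nat_lit 14811170) (dlOf (nat_lit 2) (nat_lit 0xf931400988ce005245d0000e838780600))) 
(.lf (nat_lit 1342312098) (dlOf (nat_lit 1) (nat_lit 0x3000400360008007202)))) (.nd (nat_lit 8) 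
(.lf (nat_lit 4697751586) (dlOf (nat_lit 1) (nat_lit 0xa400400060008090002))) 
(.lf (nat_lit 4563534114) (dlOf (nat_lit 23) (nat_lit 0x3802d00040158011007c002d20c000805e004a02d002100f8005a01800100bc005c05a003c01f000b383000c017801600b400e403e0016606001402f000401680058c1000300b0000c0280015804001402d000a68100030168005300800380b40028a04003c05a0014302000602d0009e81000700f0004900800200b40019e04000805a0002b02000402d0001501000401780008c0800080b40003404005005e002c02d001100f8000601800c00bc005405a002601f0000b83001c017800600b4005c03e0001606004602f001d0168010007c0002a0c000805a000000200020028090a81))))) 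
(.nd (nat_lit 20) (.nd (nat_lit 23) 
(.lf (nat_lit 21102626) (dlOf (nat_lit 1) (nat_lit 0x28008001400200040008a10583))) 
(.lf (nat_lit 63045666) (dlOf (nat_lit 1) (nat_lit 0x400199c0181)))) (.nd (nat_lit 8) 
(.lf (nat_lit 26345506) (dlOf (nat_lit 2) (nat_lit 0x351a40000804001c004000c0018c40602))) 
(.lf (nat_lit 20054306) (dlOf (nat_lit 1) (nat_lit 0x14004000200089d0a82)))))) (.nd (nat_lit 27) 
(.nd (nat_lit 7) (.nd (nat_lit 9) 
(.lf (nat_lit 2751600930) (dlOf (nat_lit 1) (nat_lit 0x40040002000800ab82))) 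
(.lf (nat_lit 6241258274) (dlOf (nat_lit 1) (nat_lit 0x6c00280d5c01)))) (.nd (nat_lit 10) 
(.lf (nat_lit 1677854882) (dlOf (nat_lit 3) (nat_lit 0x300000000e040010000000000200100008114881))) 
(.lf (nat_lit 1610744994) (dlOf (nat_lit 1) (nat_lit 0x28002000a0008092b82))))) (.nd (nat_lit 9) 
(.nd (nat_lit 8) 
(.lf (nat_lit 738331682) (dlOf (nat_lit 4) (nat_lit 0x781680005e0400640b40002c02001e05a0000f018096000))) 
(.lf (nat_lit 3959560482) (dlOf (nat_lit 2) (nat_lit 0x1a0230014240800f800800240020048000811ab83)))) 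
(.nd (nat_lit 7) 
(.lf (nat_lit 3892445730) (dlOf (nat_lit 1) (nat_lit 0xbf0008000400200480008118703))) 
(.lf (nat_lit 4227993250) (dlOf (nat_lit 1) (nat_lit 0x1380008007201))))))) (.nd (nat_lit 21) 
(.nd (nat_lit 26) (.nd (nat_lit 7) 
(.lf (nat_lit 5773066274) (dlOf (nat_lit 1) (nat_lit 0x1c00280a0781))) (.nd (nat_lit 10) 
(.lf (nat_lit 60424354) (dlOf (nat_lit 1) (nat_lit 0x4400400080009852b82))) 
(.lf (nat_lit 658594) (dlOf (nat_lit 1) (nat_lit 0x400400020008006282))))) (.nd (nat_lit 27) 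
(.lf (nat_lit 4362731554) (dlOf (nat_lit 2) (nat_lit 0x230168000000800400080128002004600080e0b83))) 
(.nd (nat_lit 30) 
(.lf (nat_lit 3154772002) (dlOf (nat_lit 2) (nat_lit 0x601200004c080040008010c00200460008320d03))) 
(.lf (nat_lit 4228513826) (dlOf (nat_lit 2) (nat_lit 0x230160000000800400080128002004600080e0b83)))))) 
(.nd (nat_lit 20) (.nd (nat_lit 22) 
(.lf (nat_lit 11141154) (dlOf (nat_lit 2) (nat_lit 0x219b00037818660500))) (.nd (nat_lit 25) 
(.lf (nat_lit 15335458) (dlOf (nat_lit 1) (nat_lit 0x18008000c002000400087e0603))) 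
(.lf (nat_lit 48889890) (dlOf (nat_lit 3) (nat_lit 0x17165000053020026b2800028819440180))))) 
(.nd (nat_lit 26) (.nd (nat_lit 28) 
(.lf (nat_lit 3801122) (dlOf (nat_lit 1) (nat_lit 0x3400400e80008220a02))) 
(.lf (nat_lit 3493462050) (dlOf (nat_lit 1) (nat_lit 0xf400400180008140c02)))) 
(.lf (nat_lit 2755264546) (dlOf (nat_lit 1) (nat_lit 0xf400400180008140c02))))))) (.nd (nat_lit 28) 
(.nd (nat_lit 12) (.nd (nat_lit 19) (.nd (nat_lit 20) (.nd (nat_lit 22) (.nd (nat_lit 26) 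
(.lf (nat_lit 6442647586) (dlOf (nat_lit 2) (nat_lit 0xa80c40000004009c00400120008120982))) 
(.lf (nat_lit 604176418) (dlOf (nat_lit 1) (nat_lit 0x180080010002000a0008080603)))) 
(.lf (nat_lit 21168162) (dlOf (nat_lit 1) (nat_lit 0x800400020018a10582)))) (.nd (nat_lit 8) 
(.lf (nat_lit 26411042) (dlOf (nat_lit 1) (nat_lit 0xe0008c40601))) 
(.lf (nat_lit 9634082) (dlOf (nat_lit 1) (nat_lit 0x1c0008574301))))) (.nd (nat_lit 20) 
(.nd (nat_lit 22) (.lf (nat_lit 4362797090) (dlOf (nat_lit 1) (nat_lit 0x8c00200340008100482))) 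
(.lf (nat_lit 21692450) (dlOf (nat_lit 4) (nat_lit 0x7ebd00007c08008750c0002404000b6500000e0200020028a60b81)))) 
(.lf (nat_lit 45809698) (dlOf (nat_lit 2) (nat_lit 0x3831200220400001f029360180))))) 
(.nd (nat_lit 8) (.nd (nat_lit 7) 
(.lf (nat_lit 2818776610) (dlOf (nat_lit 1) (nat_lit 0x1080020038000812cf82))) 
(.lf (nat_lit 20125346) (dlOf (nat_lit 1) (nat_lit 0x10008001c002000800089d9f83)))) 
(.nd (nat_lit 10) (.lf (nat_lit 2818773282) (dlOf (nat_lit 1) (nat_lit 0xba0028128081))) 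
(.lf (nat_lit 2281903394) (dlOf (nat_lit 4) (nat_lit 0x80500004e04000c02800140130001282000500a0005804c0004808005c004001a00180a9782)))))) 
(.nd (nat_lit 19) (.nd (nat_lit 26) (.nd (nat_lit 8) (.nd (nat_lit 27) 
(.lf (nat_lit 2952986658) (dlOf (nat_lit 2) (nat_lit 0xf5803807c401b00d70020045800c0016a1001b400400060018080602))) 
(.lf (nat_lit 6308429858) (dlOf (nat_lit 3) (nat_lit 0x1520180002301005300c0001140801b80080194002000e0008080183)))) 
(.lf (nat_lit 1342374178) (dlOf (nat_lit 1) (nat_lit 0x58008002000200160008014303)))) 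
(.nd (nat_lit 7) (.nd (nat_lit 27) 
(.lf (nat_lit 5704450082) (dlOf (nat_lit 3) (nat_lit 0x1520180002301005300c0001140801b80080194002000e0008080183))) 
(.lf (nat_lit 5838667810) (dlOf (nat_lit 2) (nat_lit 0xa80c40000004009c00400120008120982)))) 
(.lf (nat_lit 3556971170) (dlOf (nat_lit 1) (nat_lit 0x40018128c81))))) (.nd (nat_lit 20) 
(.nd (nat_lit 21) (.nd (nat_lit 27) 
(.lf (nat_lit 3557490722) (dlOf (nat_lit 1) (nat_lit 0x20028220681))) 
(.lf (nat_lit 4228579362) (dlOf (nat_lit 1) (nat_lit 0x8c00200340008100482)))) 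
(.lf (nat_lit 472580130) (dlOf (nat_lit 4) (nat_lit 0xd0534005c0fa019407c0001383000d0a6800481f4026c0f8000260600e207c000090189c0180)))) 
(.nd (nat_lit 9) (.nd (nat_lit 26) 
(.lf (nat_lit 5773131810) (dlOf (nat_lit 1) (nat_lit 0x400180a0781))) 
(.lf (nat_lit 4095410210) (dlOf (nat_lit 4) (nat_lit 0x501d00005e0400140e80002e0200180000000a0180b0b80)))) 
(.lf (nat_lit 3491430946) (dlOf (nat_lit 4) (nat_lit 0x2e0f680081c0804e87ac001ea0401d03d4000010200040028090d81)))))))) 
(.nd (nat_lit 22) (.nd (nat_lit 28) (.nd (nat_lit 27) (.nd (nat_lit 19) (.nd (nat_lit 29) 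
(.nd (nat_lit 7) (.nd (nat_lit 20) (.nd (nat_lit 21) 
(.lf (nat_lit 3221618722) (dlOf (nat_lit 1) (nat_lit 0xa400200040008160782))) 
(.lf (nat_lit 27656226) (dlOf (nat_lit 3) (nat_lit 0x1afa400157b80008b1e000448300045f4800218080018008003c002001a0008d10783)))) 
(.lf (nat_lit 9830434) (dlOf (nat_lit 2) (nat_lit 0x221100008c0400c800200020008580182)))) 
(.nd (nat_lit 8) (.lf (nat_lit 396962) (dlOf (nat_lit 1) (nat_lit 0x20028007201))) 
(.lf (nat_lit 3221684642) (dlOf (nat_lit 1) (nat_lit 0x6400400400018170782))))) (.nd (nat_lit 20) 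
(.nd (nat_lit 30) 
(.lf (nat_lit 537264162) (dlOf (nat_lit 4) (nat_lit 0xb02a800500c40000c0800240aa001a0310000282000802a800480c40000008000c00400340018070682))) 
(.lf (nat_lit 1611005986) (dlOf (nat_lit 3) (nat_lit 0x240a40014d02000e052000a60180b0200)))) 
(.lf (nat_lit 2752905250) (dlOf (nat_lit 1) (nat_lit 0x11800200020008060502))))) (.nd (nat_lit 9) 
(.nd (nat_lit 20) (.nd (nat_lit 21) 
(.lf (nat_lit 59703330) (dlOf (nat_lit 1) (nat_lit 0x20019820181))) 
(.lf (nat_lit 3080226) (dlOf (nat_lit 1) (nat_lit 0x30008001800200020008200003)))) 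
(.lf (nat_lit 52363298) (dlOf (nat_lit 1) (nat_lit 0xc00200020009530182)))) (.nd (nat_lit 7) 
(.lf (nat_lit 19792418) (dlOf (nat_lit 1) (nat_lit 0x4004000200089d1482))) 
(.lf (nat_lit 19795874) (dlOf (nat_lit 1) (nat_lit 0x1480080030002001800089d7883)))))) 
(.nd (nat_lit 29) (.nd (nat_lit 7) (.nd (nat_lit 9) (.nd (nat_lit 16) 
(.lf (nat_lit 3355836450) (dlOf (nat_lit 2) (nat_lit 0x805c0000002000e0008120501))) 
(.lf (nat_lit 134676514) (dlOf (nat_lit 2) (nat_lit 0x20208027a40800b000800a000200560008090003)))) 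
(.lf (nat_lit 134611490) (dlOf (nat_lit 2) (nat_lit 0x2804100000818090d80)))) 
(.lf (nat_lit 134611362) (dlOf (nat_lit 1) (nat_lit 0x100008090781)))) (.nd (nat_lit 26) 
(.nd (nat_lit 19) 
(.lf (nat_lit 3892707362) (dlOf (nat_lit 2) (nat_lit 0x480a2000bf02000600181d0601))) 
(.lf (nat_lit 2819489826) (dlOf (nat_lit 1) (nat_lit 0x94002001c00082b0682)))) (.nd (nat_lit 30) 
(.lf (nat_lit 738590754) (dlOf (nat_lit 3) (nat_lit 0x240a40015e02000e052000ae8180b0200))) 
(.lf (nat_lit 3959816226) (dlOf (nat_lit 1) (nat_lit 0xa400200040008160782))))))) (.nd (nat_lit 31) 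
(.nd (nat_lit 26) (.nd (nat_lit 30) (.nd (nat_lit 27) 
(.lf (nat_lit 4563796002) (dlOf (nat_lit 1) (nat_lit 0x30004006200080e0802))) 
(.lf (nat_lit 4698013730) (dlOf (nat_lit 1) (nat_lit 0x30004006200080e0802)))) (.nd (nat_lit 20) 
(.lf (nat_lit 1881538594) (dlOf (nat_lit 2) (nat_lit 0x208e00020018f40180))) 
(.lf (nat_lit 1343619106) (dlOf (nat_lit 1) (nat_lit 0x4004000200082c0702))))) (.nd (nat_lit 16) 
(.lf (nat_lit 1409679394) (dlOf (nat_lit 4) (nat_lit 0xb02a800500c40000c0800240aa001a0310000282000802a800480c40000008000c00400340018070682))) 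
(.nd (nat_lit 20) 
(.lf (nat_lit 470745122) (dlOf (nat_lit 8) (nat_lit 0x900000009408006887400103360002404001821d00050cd80050000000460c005c15e00020020054202001c0d0000082bc00300000001d08001a1a00000e01000c00000003c0801400080194002002c0008170183))) 
(.lf (nat_lit 473890850) (dlOf (nat_lit 2) (nat_lit 0xb2850c033819a0000e0400020018fc0181)))))) 
(.nd (nat_lit 16) (.nd (nat_lit 19) (.nd (nat_lit 20) 
(.lf (nat_lit 3154509858) (dlOf (nat_lit 2) (nat_lit 0xc0288002c40800380080020002000a00081f0603))) 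
(.lf (nat_lit 3491102754) (dlOf (nat_lit 1) (nat_lit 0x11800200020008060502)))) (.nd (nat_lit 7) 
(.lf (nat_lit 3557687330) (dlOf (nat_lit 1) (nat_lit 0x94002001c00082b0682))) 
(.lf (nat_lit 3490581666) (dlOf (nat_lit 1) (nat_lit 0x8008001c00200020008006283))))) 
(.nd (nat_lit 19) (.nd (nat_lit 21) 
(.lf (nat_lit 2550595618) (dlOf (nat_lit 1) (nat_lit 0x400281b0001))) 
(.lf (nat_lit 3492216866) (dlOf (nat_lit 2) (nat_lit 0x40aa0000100800180080008002000800080b0b03)))) 
(.nd (nat_lit 7) (.lf (nat_lit 3492742946) (dlOf (nat_lit 1) (nat_lit 0x600280f3d01))) 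
(.lf (nat_lit 3492743330) (dlOf (nat_lit 2) (nat_lit 0x2024000f01000006c1000600080058002000c00080f4883)))))))) 
(.nd (nat_lit 16) (.nd (nat_lit 20) (.nd (nat_lit 23) (.nd (nat_lit 26) (.nd (nat_lit 31) 
(.lf (nat_lit 1346764834) (dlOf (nat_lit 2) (nat_lit 0x2f82140007c04004000400120009000182))) 
(.lf (nat_lit 3494248482) (dlOf (nat_lit 1) (nat_lit 0x1280080024002003400081e0783)))) 
(.nd (nat_lit 7) (.lf (nat_lit 2756050978) (dlOf (nat_lit 1) (nat_lit 0x200281e0881))) 
(.lf (nat_lit 474352290) (dlOf (nat_lit 1) (nat_lit 0x5e0019165601))))) (.nd (nat_lit 8) 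
(.nd (nat_lit 21) (.lf (nat_lit 12976162) (dlOf (nat_lit 1) (nat_lit 0x1200286f0781))) 
(.lf (nat_lit 48627746) (dlOf (nat_lit 2) (nat_lit 0xb7ab8005bc9f002ddbe0004b5ac00b5a4e005ad1d00196880016b42000b40000003e1200020019420181)))) 
(.lf (nat_lit 30277922) (dlOf (nat_lit 1) (nat_lit 0xec00400520008e30702))))) (.nd (nat_lit 21) 
(.nd (nat_lit 23) (.lf (nat_lit 55967778) (dlOf (nat_lit 1) (nat_lit 0x400400020009700702))) 
(.lf (nat_lit 47579170) (dlOf (nat_lit 1) (nat_lit 0x320029400001)))) (.nd (nat_lit 7) 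
(.nd (nat_lit 23) (.lf (nat_lit 24510498) (dlOf (nat_lit 1) (nat_lit 0x6c004018a0008ba0a02))) 
(.lf (nat_lit 32899106) (dlOf (nat_lit 1) (nat_lit 0x8008000400200020008f40703)))) 
(.lf (nat_lit 8258978) (dlOf (nat_lit 1) (nat_lit 0x400200020008513602)))))) (.nd (nat_lit 19) 
(.nd (nat_lit 20) (.nd (nat_lit 21) 
(.lf (nat_lit 13041698) (dlOf (nat_lit 1) (nat_lit 0x4002001000086f0782))) (.nd (nat_lit 25) 
(.lf (nat_lit 15138850) (dlOf (nat_lit 2) (nat_lit 0x8d0c8002fc080158008014c002004600087c0603))) 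
(.lf (nat_lit 48693282) (dlOf (nat_lit 2) (nat_lit 0x360000020019420180))))) (.nd (nat_lit 21) 
(.lf (nat_lit 56033314) (dlOf (nat_lit 1) (nat_lit 0x40019710181))) 
(.lf (nat_lit 24576034) (dlOf (nat_lit 1) (nat_lit 0x60008003400200080008ba0a03))))) 
(.nd (nat_lit 7) (.nd (nat_lit 24) 
(.lf (nat_lit 5177378) (dlOf (nat_lit 1) (nat_lit 0x20028320601))) 
(.lf (nat_lit 21954594) (dlOf (nat_lit 1) (nat_lit 0x400200020008a80982)))) (.nd (nat_lit 8) 
(.lf (nat_lit 8328354) (dlOf (nat_lit 1) (nat_lit 0xb000200080008519502))) 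
(.lf (nat_lit 8324514) (dlOf (nat_lit 1) (nat_lit 0x20018513601)))))))))) (.nd (nat_lit 18) 
(.nd (nat_lit 26) (.nd (nat_lit 21) (.nd (nat_lit 31) (.nd (nat_lit 10) (.nd (nat_lit 30) 
(.nd (nat_lit 16) (.nd (nat_lit 5) (.nd (nat_lit 19) 
(.lf (nat_lit 25296962) (dlOf (nat_lit 1) (nat_lit 0x48008000c002003e0008bf0c03))) 
(.lf (nat_lit 10092610) (dlOf (nat_lit 4) (nat_lit 0x809ac0005204001c5a2000250201682d1000120185b0780)))) 
(.lf (nat_lit 138210) (dlOf (nat_lit 1) (nat_lit 0x12002800bf01)))) (.nd (nat_lit 19) 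
(.lf (nat_lit 43188290) (dlOf (nat_lit 1) (nat_lit 0xa00292a0001))) 
(.lf (nat_lit 537591874) (dlOf (nat_lit 2) (nat_lit 0x640520002c0180c1880))))) (.nd (nat_lit 28) 
(.nd (nat_lit 5) (.lf (nat_lit 1610744258) (dlOf (nat_lit 1) (nat_lit 0x20018091081))) 
(.lf (nat_lit 5368840290) (dlOf (nat_lit 1) (nat_lit 0x8008000400200020008040783)))) 
(.nd (nat_lit 16) 
(.lf (nat_lit 1342832706) (dlOf (nat_lit 1) (nat_lit 0x600080070002005200080e0d03))) 
(.lf (nat_lit 6308429890) (dlOf (nat_lit 2) (nat_lit 0x2c01900103018080480)))))) (.nd (nat_lit 8) 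
(.nd (nat_lit 16) (.nd (nat_lit 9) 
(.lf (nat_lit 5637276738) (dlOf (nat_lit 1) (nat_lit 0x8004000200080d2882))) 
(.lf (nat_lit 1610745410) (dlOf (nat_lit 1) (nat_lit 0xc00200040008093802)))) (.nd (nat_lit 5) 
(.lf (nat_lit 47908034) (dlOf (nat_lit 1) (nat_lit 0x900009402d01))) 
(.lf (nat_lit 38470754) (dlOf (nat_lit 1) (nat_lit 0x18008001000200060009132983))))) 
(.nd (nat_lit 5) (.nd (nat_lit 9) 
(.lf (nat_lit 805444930) (dlOf (nat_lit 3) (nat_lit 0x2815800140260068604004205600140098019ac1001e80080020002000a000811c903))) 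
(.nd (nat_lit 23) (.lf (nat_lit 537003842) (dlOf (nat_lit 1) (nat_lit 0x100018003e01))) 
(.lf (nat_lit 8521538) (dlOf (nat_lit 3) (nat_lit 0x13f70000c808003a2700005a0400cc004007c0008513e02))))) 
(.nd (nat_lit 9) 
(.lf (nat_lit 805440994) (dlOf (nat_lit 1) (nat_lit 0x80008001c00200600008116e03))) 
(.lf (nat_lit 137186) (dlOf (nat_lit 2) (nat_lit 0x6c0a3002ad81800a600))))))) (.nd (nat_lit 7) 
(.nd (nat_lit 16) (.nd (nat_lit 8) (.nd (nat_lit 27) 
(.lf (nat_lit 2416050242) (dlOf (nat_lit 5) (nat_lit 0x20088000c02e0002b04000e022000700e00009410061008801f003801260170001203001f01100008c08008000800d000200320008020783))) 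
(.lf (nat_lit 2550267970) (dlOf (nat_lit 5) (nat_lit 0x20088000c02e0002b04000e022000700e80009410061008801f003a01260170001203001f01100008c08008000800d000200320008020783)))) 
(.nd (nat_lit 5) 
(.lf (nat_lit 3221364034) (dlOf (nat_lit 3) (nat_lit 0x2008c002c03800341020006023001280080130008003c0020008000811c903))) 
(.lf (nat_lit 3493986658) (dlOf (nat_lit 1) (nat_lit 0x10004000200081b0702))))) (.nd (nat_lit 10) 
(.nd (nat_lit 9) (.lf (nat_lit 3490906178) (dlOf (nat_lit 1) (nat_lit 0x800200020008030e02))) 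
(.lf (nat_lit 3491430978) (dlOf (nat_lit 3) (nat_lit 0x3643d80001202001c1ec00450e9800000100180008043400200020008091083)))) 
(.nd (nat_lit 5) 
(.lf (nat_lit 6711084098) (dlOf (nat_lit 1) (nat_lit 0x180080020002000c0008092883))) 
(.lf (nat_lit 2818776162) (dlOf (nat_lit 1) (nat_lit 0x2002812c001)))))) (.nd (nat_lit 16) 
(.nd (nat_lit 5) (.nd (nat_lit 27) 
(.lf (nat_lit 3758227906) (dlOf (nat_lit 1) (nat_lit 0x4e0028107001))) 
(.lf (nat_lit 3892445634) (dlOf (nat_lit 2) (nat_lit 0x20340011c80800d0008004c00200080008117a83)))) 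
(.nd (nat_lit 9) (.lf (nat_lit 3221359074) (dlOf (nat_lit 1) (nat_lit 0x140018114e81))) 
(.lf (nat_lit 2818704354) (dlOf (nat_lit 1) (nat_lit 0x5400280d2881))))) (.nd (nat_lit 9) 
(.nd (nat_lit 8) (.lf (nat_lit 3490385090) (dlOf (nat_lit 1) (nat_lit 0x1000008006381))) 
(.lf (nat_lit 3491430850) (dlOf (nat_lit 4) (nat_lit 0x228798000400401203cc0001e0200bc1e600000018090900)))) 
(.nd (nat_lit 5) 
(.lf (nat_lit 2818775746) (dlOf (nat_lit 2) (nat_lit 0x180d80146a04008c0040036000812b982))) 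
(.lf (nat_lit 2818773730) (dlOf (nat_lit 1) (nat_lit 0x34004000e0008128c82)))))))) (.nd (nat_lit 5) 
(.nd (nat_lit 19) (.nd (nat_lit 9) (.nd (nat_lit 16) (.nd (nat_lit 8) 
(.lf (nat_lit 52559938) (dlOf (nat_lit 2) (nat_lit 0xc304800558220038bfb00145fd000daca4004d650002aa7b0012534800550400008008002000200040009550603))) 
(.lf (nat_lit 2228546) (dlOf (nat_lit 1) (nat_lit 0x40028150601)))) (.nd (nat_lit 20) 
(.lf (nat_lit 14876738) (dlOf (nat_lit 1) (nat_lit 0x18008001000200020008790583))) 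
(.lf (nat_lit 28508226) (dlOf (nat_lit 1) (nat_lit 0x6c0028da0001))))) (.nd (nat_lit 8) 
(.nd (nat_lit 23) 
(.lf (nat_lit 36833858) (dlOf (nat_lit 1) (nat_lit 0x10008000c00200060009075203))) 
(.lf (nat_lit 45222466) (dlOf (nat_lit 1) (nat_lit 0x800400040009325202)))) 
(.lf (nat_lit 20056898) (dlOf (nat_lit 1) (nat_lit 0x4002000200089d5c02))))) (.nd (nat_lit 7) 
(.nd (nat_lit 10) (.nd (nat_lit 20) 
(.lf (nat_lit 1344929858) (dlOf (nat_lit 1) (nat_lit 0x4002000200089a0602))) (.nd (nat_lit 23) 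
(.lf (nat_lit 3801154) (dlOf (nat_lit 3) (nat_lit 0x209f8000300800204fc0001604000800200040008220d02))) 
(.lf (nat_lit 45744194) (dlOf (nat_lit 1) (nat_lit 0x20029360601))))) 
(.lf (nat_lit 8062018) (dlOf (nat_lit 1) (nat_lit 0x400400240018512882)))) (.nd (nat_lit 9) 
(.nd (nat_lit 10) (.lf (nat_lit 32178370) (dlOf (nat_lit 1) (nat_lit 0x1c0028ef0781))) 
(.lf (nat_lit 58393794) (dlOf (nat_lit 1) (nat_lit 0x54004001800197e2d02)))) (.nd (nat_lit 10) 
(.lf (nat_lit 57281218) (dlOf (nat_lit 1) (nat_lit 0x3400400020009795802))) 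
(.lf (nat_lit 8001218) (dlOf (nat_lit 1) (nat_lit 0x40020002000851a002))))))) (.nd (nat_lit 20) 
(.nd (nat_lit 16) (.nd (nat_lit 7) (.nd (nat_lit 8) 
(.lf (nat_lit 6422626) (dlOf (nat_lit 1) (nat_lit 0x800400320008420482))) 
(.lf (nat_lit 2228578) (dlOf (nat_lit 2) (nat_lit 0x129b4015546a000150400020028150701)))) 
(.lf (nat_lit 44171490) (dlOf (nat_lit 1) (nat_lit 0x6c00292d1b01)))) (.nd (nat_lit 7) 
(.nd (nat_lit 19) (.lf (nat_lit 56819810) (dlOf (nat_lit 1) (nat_lit 0x400200020009770902))) 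
(.lf (nat_lit 7012450) (dlOf (nat_lit 1) (nat_lit 0xc00184b0481)))) 
(.lf (nat_lit 19071202) (dlOf (nat_lit 2) (nat_lit 0x6cce40002a0200140028970581))))) 
(.nd (nat_lit 7) (.nd (nat_lit 8) 
(.lf (nat_lit 24248418) (dlOf (nat_lit 1) (nat_lit 0x20028b91381))) (.nd (nat_lit 10) 
(.lf (nat_lit 20056930) (dlOf (nat_lit 1) (nat_lit 0x1600080004002002800089d5c03))) 
(.lf (nat_lit 20060002) (dlOf (nat_lit 1) (nat_lit 0x600080034002000c00089da303))))) 
(.nd (nat_lit 10) (.nd (nat_lit 19) 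
(.lf (nat_lit 7471330) (dlOf (nat_lit 2) (nat_lit 0x61fe8000a80800180080010002000600084b0583))) 
(.lf (nat_lit 28967138) (dlOf (nat_lit 2) (nat_lit 0x595d80002a0200060018da0581)))) 
(.lf (nat_lit 8066274) (dlOf (nat_lit 1) (nat_lit 0x400200020008519502)))))))) (.nd (nat_lit 28) 
(.nd (nat_lit 8) (.nd (nat_lit 9) (.nd (nat_lit 10) (.nd (nat_lit 16) (.nd (nat_lit 19) 
(.lf (nat_lit 5435949122) (dlOf (nat_lit 5) (nat_lit 0x807e000403a000301a8008281800100fc000807c000603a000501a8008242000300fc001807c000e03a000701a8008202000280fc001407c000c03a000601a80081c2000100080068002000a0008051703))) 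
(.lf (nat_lit 1678377026) (dlOf (nat_lit 3) (nat_lit 0x1180ac00700130002782003502b000138080188008005400200fc0008201883)))) 
(.nd (nat_lit 5) (.lf (nat_lit 2752708674) (dlOf (nat_lit 1) (nat_lit 0x800200020008030e02))) 
(.lf (nat_lit 2753232994) (dlOf (nat_lit 1) (nat_lit 0x820018090001))))) (.nd (nat_lit 5) 
(.nd (nat_lit 7) (.nd (nat_lit 16) 
(.lf (nat_lit 2751595586) (dlOf (nat_lit 1) (nat_lit 0x800803cc00200c00008002883))) 
(.lf (nat_lit 2885878850) (dlOf (nat_lit 1) (nat_lit 0x160028142881)))) 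
(.lf (nat_lit 3825339586) (dlOf (nat_lit 2) (nat_lit 0x300000006404002800400020008146382)))) 
(.lf (nat_lit 69862498) (dlOf (nat_lit 1) (nat_lit 0x400400020018d52982))))) (.nd (nat_lit 16) 
(.nd (nat_lit 7) (.nd (nat_lit 27) 
(.lf (nat_lit 1677859394) (dlOf (nat_lit 11) (nat_lit 0x3802a8017013800ac06e005e02b002a012001a804800dc020006400a002c004001680180003a2800e80aa005a04e002e01b8014009000e0024006200a0000e06002a02a8016013800a806e006e02b003e0120015004800ac020006c00a002200400190018000362800c00ac001a0550021027000080c80084026000180a005a02d0000b0100290228000810c0048078006602d0022015801080280002a1800040a80001102000a0560000501000602b00000c080030158000020400ac0040004000811b502))) 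
(.lf (nat_lit 3959560770) (dlOf (nat_lit 9) (nat_lit 0xa8138003404e0018023004300f80048078007c02400200000001887000a0138012808c011403e006001200260000000c02800101380005e04009c0ac0002e0200460560005005000010100078158000c0140000304002e056000010100080130000000800180080064002002e000811b503)))) 
(.lf (nat_lit 738855618) (dlOf (nat_lit 1) (nat_lit 0x1a0018125801)))) (.nd (nat_lit 7) 
(.nd (nat_lit 11) 
(.lf (nat_lit 2753233474) (dlOf (nat_lit 3) (nat_lit 0x3643fc0001102001c1fe00450f4000000100180008043400200020008091083))) 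
(.lf (nat_lit 68880962) (dlOf (nat_lit 1) (nat_lit 0x4004000600087e5202)))) 
(.lf (nat_lit 2754809538) (dlOf (nat_lit 1) (nat_lit 0x8400280f7281)))))) (.nd (nat_lit 5) 
(.nd (nat_lit 16) (.nd (nat_lit 10) (.nd (nat_lit 22) 
(.lf (nat_lit 738328898) (dlOf (nat_lit 1) (nat_lit 0x20018090c01))) 
(.lf (nat_lit 2755789122) (dlOf (nat_lit 2) (nat_lit 0x800fc0009e04000c002000400081b0602)))) 
(.lf (nat_lit 6509694274) (dlOf (nat_lit 2) (nat_lit 0x700980002e04005000400100008146902)))) 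
(.nd (nat_lit 7) 
(.lf (nat_lit 2755854658) (dlOf (nat_lit 3) (nat_lit 0x6424200040020034192001a0b18001057c00682a4003414d000160581b0600))) 
(.nd (nat_lit 9) 
(.lf (nat_lit 2753233346) (dlOf (nat_lit 4) (nat_lit 0x2287e0000400401203f00001e0200bc1f800000018090900))) 
(.lf (nat_lit 3959621570) (dlOf (nat_lit 1) (nat_lit 0x400200020008114402)))))) (.nd (nat_lit 7) 
(.nd (nat_lit 11) (.nd (nat_lit 16) 
(.lf (nat_lit 2755789154) (dlOf (nat_lit 1) (nat_lit 0xec00081b0701))) 
(.lf (nat_lit 2755854690) (dlOf (nat_lit 1) (nat_lit 0xe00081b0701)))) 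
(.lf (nat_lit 2751600994) (dlOf (nat_lit 1) (nat_lit 0x80040002001800ab82)))) (.nd (nat_lit 11) 
(.lf (nat_lit 1812136418) (dlOf (nat_lit 2) (nat_lit 0x1c00580020010000ba08001400400040008157302))) 
(.lf (nat_lit 1677859298) (dlOf (nat_lit 1) (nat_lit 0x5800800040020050000811b283))))))) 
(.nd (nat_lit 5) (.nd (nat_lit 10) (.nd (nat_lit 7) (.nd (nat_lit 16) (.nd (nat_lit 21) 
(.lf (nat_lit 470417474) (dlOf (nat_lit 1) (nat_lit 0x600080070002005200080e0d03))) 
(.lf (nat_lit 1009385538) (dlOf (nat_lit 1) (nat_lit 0x140009150d81)))) 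
(.lf (nat_lit 472580162) (dlOf (nat_lit 1) (nat_lit 0x300080060002002800089c0603)))) 
(.nd (nat_lit 8) (.lf (nat_lit 2080506050) (dlOf (nat_lit 1) (nat_lit 0x20028090781))) 
(.nd (nat_lit 16) 
(.lf (nat_lit 3020030402) (dlOf (nat_lit 1) (nat_lit 0x100080044002005000080e7a83))) 
(.lf (nat_lit 473629122) (dlOf (nat_lit 1) (nat_lit 0x800400040008f67a82)))))) (.nd (nat_lit 16) 
(.nd (nat_lit 7) (.lf (nat_lit 2617382466) (dlOf (nat_lit 1) (nat_lit 0x30004001a00080a9c02))) 
(.nd (nat_lit 11) (.lf (nat_lit 474088642) (dlOf (nat_lit 1) (nat_lit 0x8000400320009082d02))) 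
(.lf (nat_lit 1543638210) (dlOf (nat_lit 1) (nat_lit 0x99800802bc002018c0008146383))))) 
(.nd (nat_lit 7) (.lf (nat_lit 4764927042) (dlOf (nat_lit 1) (nat_lit 0x800400020008092882))) 
(.nd (nat_lit 8) 
(.lf (nat_lit 1543703746) (dlOf (nat_lit 2) (nat_lit 0x1c007c0006404000c00400140008146382))) 
(.lf (nat_lit 4764927426) (dlOf (nat_lit 1) (nat_lit 0x1000400080008093602))))))) (.nd (nat_lit 8) 
(.nd (nat_lit 16) (.nd (nat_lit 7) 
(.lf (nat_lit 4095344738) (dlOf (nat_lit 1) (nat_lit 0x200028090781))) (.nd (nat_lit 9) 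
(.lf (nat_lit 471990498) (dlOf (nat_lit 1) (nat_lit 0x20028740581))) 
(.lf (nat_lit 3556903650) (dlOf (nat_lit 1) (nat_lit 0x10004000600180d5982))))) (.nd (nat_lit 7) 
(.lf (nat_lit 472580194) (dlOf (nat_lit 3) (nat_lit 0x70398000b00800a850c002827600241390015066800b01d40005414000c002000200089c0902))) 
(.nd (nat_lit 9) 
(.lf (nat_lit 1543703778) (dlOf (nat_lit 2) (nat_lit 0xf00f8001804c00040080010004000c0008146502))) 
(.lf (nat_lit 3556972258) (dlOf (nat_lit 1) (nat_lit 0x2800800380020004000812a003)))))) 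
(.nd (nat_lit 7) (.nd (nat_lit 9) (.nd (nat_lit 10) 
(.lf (nat_lit 6241257826) (dlOf (nat_lit 1) (nat_lit 0x80080004002000200080d4e83))) 
(.lf (nat_lit 1409420642) (dlOf (nat_lit 1) (nat_lit 0x160018006a81)))) 
(.lf (nat_lit 2617381730) (dlOf (nat_lit 1) (nat_lit 0x2000800b0002003800080a8f83)))) 
(.nd (nat_lit 9) (.nd (nat_lit 16) 
(.lf (nat_lit 1946288610) (dlOf (nat_lit 2) (nat_lit 0xa202900000018017300))) 
(.lf (nat_lit 4228055522) (dlOf (nat_lit 3) (nat_lit 0x11802a000330101280150000fc0801880080148002003a0008017303)))) 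
(.lf (nat_lit 3154320354) (dlOf (nat_lit 1) (nat_lit 0x24001815bf01))))))))) (.nd (nat_lit 5) 
(.nd (nat_lit 19) (.nd (nat_lit 31) (.nd (nat_lit 21) (.nd (nat_lit 9) (.nd (nat_lit 7) 
(.nd (nat_lit 27) (.lf (nat_lit 1678180418) (dlOf (nat_lit 1) (nat_lit 0x1000281a0001))) 
(.lf (nat_lit 201785410) (dlOf (nat_lit 1) (nat_lit 0x7a0018090001)))) 
(.lf (nat_lit 47580354) (dlOf (nat_lit 1) (nat_lit 0x20019402d01)))) (.nd (nat_lit 7) 
(.nd (nat_lit 26) 
(.lf (nat_lit 134611522) (dlOf (nat_lit 2) (nat_lit 0xb0170000480800200080010002000c0008091083))) 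
(.lf (nat_lit 201720386) (dlOf (nat_lit 2) (nat_lit 0xb0170000440800200080010002000c0008091083)))) 
(.lf (nat_lit 1208421058) (dlOf (nat_lit 1) (nat_lit 0x8c00280e5801))))) (.nd (nat_lit 7) 
(.nd (nat_lit 8) (.lf (nat_lit 2490434) (dlOf (nat_lit 2) (nat_lit 0x40000000300200580018160d01))) 
(.nd (nat_lit 10) 
(.lf (nat_lit 58065218) (dlOf (nat_lit 4) (nat_lit 0x20864000d431801a08100052180009d20400210c0004d802000600297b8701))) 
(.lf (nat_lit 5773854018) (dlOf (nat_lit 1) (nat_lit 0x4004000200080e3302))))) (.nd (nat_lit 9) 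
(.nd (nat_lit 10) (.lf (nat_lit 11927746) (dlOf (nat_lit 1) (nat_lit 0x200186c0401))) 
(.lf (nat_lit 1009124546) (dlOf (nat_lit 1) (nat_lit 0x20019082d01)))) 
(.lf (nat_lit 40241858) (dlOf (nat_lit 1) (nat_lit 0x3000191f5801)))))) (.nd (nat_lit 16) 
(.nd (nat_lit 26) (.nd (nat_lit 27) (.nd (nat_lit 29) 
(.lf (nat_lit 2416312386) (dlOf (nat_lit 5) (nat_lit 0x404800065020008024000320100010120000a40800080900004404001c004000200180d0c02))) 
(.lf (nat_lit 4026925122) (dlOf (nat_lit 4) (nat_lit 0x1310080002403a000610404b2020000300101d6010000088080150008005c002005000080d0c03)))) 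
(.lf (nat_lit 2550530114) (dlOf (nat_lit 5) (nat_lit 0x404c00062020008026000308100010130000a40800080980004404001c004000200180d0c02)))) 
(.nd (nat_lit 21) 
(.lf (nat_lit 3288727618) (dlOf (nat_lit 4) (nat_lit 0x1310080002403a0006a0404b2020000348101d6010000088080150008005c002005000080d0c03))) 
(.lf (nat_lit 2753953858) (dlOf (nat_lit 15) (nat_lit 0x581100002402006a089001f04400008c1001602240044110000220400760cc005605e004d0224020c11000dc08300580048000803002a022400f81100001f0400160890014044000078100230224004c1100001d040076089001504400004c1000082200001c0400f41120040088000060200850448037822000016080010112004c08800005020005044800024080008220000000416dc004014200180a0d02))))) 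
(.nd (nat_lit 7) (.nd (nat_lit 8) 
(.lf (nat_lit 3557228610) (dlOf (nat_lit 1) (nat_lit 0x80018170581))) (.nd (nat_lit 27) 
(.lf (nat_lit 2416378178) (dlOf (nat_lit 2) (nat_lit 0x3e00d000200181b0600))) 
(.lf (nat_lit 2550595906) (dlOf (nat_lit 2) (nat_lit 0x3e00d000238181b0600))))) (.nd (nat_lit 26) 
(.lf (nat_lit 3221684674) (dlOf (nat_lit 2) (nat_lit 0x380380003c0401b400200600008170902))) 
(.lf (nat_lit 3959882178) (dlOf (nat_lit 2) (nat_lit 0x380380003c0401b400200600008170902))))))) 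
(.nd (nat_lit 21) (.nd (nat_lit 20) (.nd (nat_lit 22) (.nd (nat_lit 8) (.nd (nat_lit 16) 
(.lf (nat_lit 917570) (dlOf (nat_lit 4) (nat_lit 0x90000000600800087c400082e800380af001a05180005c2001307c400a42e80000004004e0028030e01))) 
(.lf (nat_lit 470745154) (dlOf (nat_lit 11) (nat_lit 0x20f38000f008004879c000760400643d8000c1e70001d0200060f38000e40801300000002c0402a000000007020158000000030100220000000080801b8000000020401bc15e00f402500ac0000000001800900080244002006c0008170583)))) 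
(.lf (nat_lit 6376325442) (dlOf (nat_lit 2) (nat_lit 0x180918000100800d8008005800200240008090c03)))) 
(.nd (nat_lit 7) (.nd (nat_lit 23) 
(.lf (nat_lit 21954626) (dlOf (nat_lit 1) (nat_lit 0x8008000400200020008a80e03))) 
(.lf (nat_lit 13566018) (dlOf (nat_lit 2) (nat_lit 0x41358001900800080080028002001c0008730c03)))) 
(.lf (nat_lit 55510210) (dlOf (nat_lit 1) (nat_lit 0x1800296d2d01))))) (.nd (nat_lit 8) 
(.nd (nat_lit 7) (.nd (nat_lit 9) 
(.lf (nat_lit 4095607874) (dlOf (nat_lit 1) (nat_lit 0x80080088002003400080e2883))) 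
(.lf (nat_lit 1008601666) (dlOf (nat_lit 1) (nat_lit 0x400200020008e35202)))) 
(.lf (nat_lit 5773328578) (dlOf (nat_lit 1) (nat_lit 0x4002000200080c1702)))) (.nd (nat_lit 26) 
(.lf (nat_lit 1344209218) (dlOf (nat_lit 1) (nat_lit 0x20008490601))) 
(.lf (nat_lit 471793986) (dlOf (nat_lit 1) (nat_lit 0x20008490601)))))) (.nd (nat_lit 16) 
(.nd (nat_lit 7) (.nd (nat_lit 8) (.nd (nat_lit 12) 
(.lf (nat_lit 4063298) (dlOf (nat_lit 2) (nat_lit 0x2858000141c6000c07100070328000d8200110008000400200080008270c03))) 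
(.lf (nat_lit 19796034) (dlOf (nat_lit 1) (nat_lit 0x69800802e000200d000089d7d83)))) 
(.lf (nat_lit 3492682050) (dlOf (nat_lit 1) (nat_lit 0x400280fab81)))) (.nd (nat_lit 8) 
(.lf (nat_lit 2754481346) (dlOf (nat_lit 1) (nat_lit 0x200080f6381))) 
(.lf (nat_lit 19796418) (dlOf (nat_lit 1) (nat_lit 0x100080004002000200089d8603))))) 
(.nd (nat_lit 9) (.nd (nat_lit 10) (.nd (nat_lit 11) 
(.lf (nat_lit 473890882) (dlOf (nat_lit 2) (nat_lit 0x19c14c00ca06b800550100108008000800200080008fc0603))) 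
(.lf (nat_lit 3492747330) (dlOf (nat_lit 1) (nat_lit 0x5c00201a200080fa682)))) 
(.lf (nat_lit 3492742210) (dlOf (nat_lit 1) (nat_lit 0x80080004002000200080f2883)))) 
(.nd (nat_lit 8) (.lf (nat_lit 33491522) (dlOf (nat_lit 1) (nat_lit 0xf4004000a0008f55202))) 
(.lf (nat_lit 3492742978) (dlOf (nat_lit 1) (nat_lit 0x8008000c002000400080f3e03)))))))) 
(.nd (nat_lit 19) (.nd (nat_lit 7) (.nd (nat_lit 8) (.nd (nat_lit 22) (.nd (nat_lit 26) 
(.lf (nat_lit 4832231522) (dlOf (nat_lit 1) (nat_lit 0xc0018131b01))) (.nd (nat_lit 27) 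
(.lf (nat_lit 4362469474) (dlOf (nat_lit 1) (nat_lit 0x20018090001))) 
(.lf (nat_lit 4228251746) (dlOf (nat_lit 1) (nat_lit 0x20018090001))))) (.nd (nat_lit 10) 
(.nd (nat_lit 16) (.lf (nat_lit 54919266) (dlOf (nat_lit 1) (nat_lit 0x400009670d81))) 
(.lf (nat_lit 48693346) (dlOf (nat_lit 1) (nat_lit 0xe80009420901)))) 
(.lf (nat_lit 38143074) (dlOf (nat_lit 1) (nat_lit 0x8008000400200400009132983))))) 
(.nd (nat_lit 16) (.nd (nat_lit 27) 
(.lf (nat_lit 2483421538) (dlOf (nat_lit 3) (nat_lit 0xc02c0001a0100020160000cc0800080080004002000200081b0703))) 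
(.lf (nat_lit 2349203810) (dlOf (nat_lit 3) (nat_lit 0xc02e0001a0100020170000cc0800080080004002000200081b0703)))) 
(.nd (nat_lit 20) (.nd (nat_lit 27) 
(.lf (nat_lit 2416378210) (dlOf (nat_lit 1) (nat_lit 0x50008000c002000400081b0703))) 
(.lf (nat_lit 2550595938) (dlOf (nat_lit 1) (nat_lit 0x50008000c002000400081b0703)))) 
(.lf (nat_lit 11993442) (dlOf (nat_lit 1) (nat_lit 0x6200286c0701)))))) (.nd (nat_lit 8) 
(.nd (nat_lit 20) (.nd (nat_lit 26) 
(.lf (nat_lit 1476788450) (dlOf (nat_lit 19) (nat_lit 0x3e2007021800000014c100e0001c0624000000510403f00070207000000140100d8001c0009e0400e801e0004c02003c00f0002401019600380ae00000007e08023801e033400701d70000000f418009001c0007604000800e00060000001c8200270038000e008047003c07500000003504001200f001a0000000cc10047003c018c00e03d6000000190300260078027801c048c0000003106006e00000018010011003800024080c1801c00000040154002024600081a0582))) 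
(.nd (nat_lit 27) 
(.lf (nat_lit 604373218) (dlOf (nat_lit 19) (nat_lit 0x3e2007021800000014c100e0001c0624000000510403f00070207000000140100d8001c0009e0400e801e0004c02003c00f0002401019600380ae00000007e08023801e033400701d70000000f418009001c0007604000800e00060000001c8200270038000e008047003c07500000003504001200f001a0000000cc10047003c018c00e03d6000000190300260078027801c048c0000003106006e00000018010011003800024080c1801c00000040154002024600081a0582))) 
(.lf (nat_lit 2080768226) (dlOf (nat_lit 1) (nat_lit 0x200080c1b01))))) (.nd (nat_lit 10) 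
(.lf (nat_lit 68616418) (dlOf (nat_lit 2) (nat_lit 0x13a08300015018600580))) 
(.lf (nat_lit 43386082) (dlOf (nat_lit 2) (nat_lit 0xd413000114080030008004c002000c00092a2e03))))) 
(.nd (nat_lit 9) (.nd (nat_lit 27) 
(.lf (nat_lit 4362469858) (dlOf (nat_lit 1) (nat_lit 0x38008001800200080008090c03))) 
(.lf (nat_lit 4228252130) (dlOf (nat_lit 1) (nat_lit 0x38008001800200080008090c03)))) 
(.nd (nat_lit 11) (.nd (nat_lit 16) 
(.lf (nat_lit 2751857634) (dlOf (nat_lit 1) (nat_lit 0x20018002881))) 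
(.lf (nat_lit 2751923170) (dlOf (nat_lit 1) (nat_lit 0x400200020008002882)))) 
(.lf (nat_lit 465890) (dlOf (nat_lit 1) (nat_lit 0x2001800bf01))))))) (.nd (nat_lit 10) 
(.nd (nat_lit 8) (.nd (nat_lit 7) (.nd (nat_lit 9) (.nd (nat_lit 12) 
(.lf (nat_lit 52363362) (dlOf (nat_lit 1) (nat_lit 0x20029530901))) 
(.lf (nat_lit 19796066) (dlOf (nat_lit 1) (nat_lit 0x80080004002000400089d7d83)))) 
(.lf (nat_lit 19796578) (dlOf (nat_lit 1) (nat_lit 0x100080010002000600089d8983)))) 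
(.nd (nat_lit 20) (.lf (nat_lit 7209186) (dlOf (nat_lit 2) (nat_lit 0x145fe000150184b0580))) 
(.lf (nat_lit 6160610) (dlOf (nat_lit 2) (nat_lit 0x14b9400015018420580))))) (.nd (nat_lit 9) 
(.nd (nat_lit 11) (.nd (nat_lit 20) 
(.lf (nat_lit 3080546) (dlOf (nat_lit 1) (nat_lit 0x8008000400200020008200703))) 
(.lf (nat_lit 2031970) (dlOf (nat_lit 2) (nat_lit 0x4a8d0000a818150700)))) 
(.lf (nat_lit 1345194338) (dlOf (nat_lit 4) (nat_lit 0x1502ca0166702009816500a808100440b28053f8080020008006800200080008b04e83)))) 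
(.nd (nat_lit 7) (.nd (nat_lit 12) 
(.lf (nat_lit 19794786) (dlOf (nat_lit 1) (nat_lit 0x4002000200089d5c02))) 
(.lf (nat_lit 2754550626) (dlOf (nat_lit 1) (nat_lit 0x800280fbc81)))) 
(.lf (nat_lit 3492742114) (dlOf (nat_lit 1) (nat_lit 0x10002000200080f2882)))))) (.nd (nat_lit 11) 
(.nd (nat_lit 20) (.nd (nat_lit 8) 
(.lf (nat_lit 38667362) (dlOf (nat_lit 1) (nat_lit 0x80080300002000e0009132983))) 
(.lf (nat_lit 472778082) (dlOf (nat_lit 6) (nat_lit 0x420b28000b00801e8594000200400302ca0000f020070165000070100350b2800000080038008000400200020008b03403)))) 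
(.nd (nat_lit 9) (.lf (nat_lit 56493154) (dlOf (nat_lit 1) (nat_lit 0x400200020009732982))) 
(.lf (nat_lit 4095608418) (dlOf (nat_lit 1) (nat_lit 0x400280e3901))))) (.nd (nat_lit 24) 
(.nd (nat_lit 7) (.lf (nat_lit 8264802) (dlOf (nat_lit 1) (nat_lit 0x800800080020004000851c003))) 
(.lf (nat_lit 2754481890) (dlOf (nat_lit 1) (nat_lit 0x28008000c002000200080f7383)))) 
(.nd (nat_lit 16) (.lf (nat_lit 19799266) (dlOf (nat_lit 1) (nat_lit 0x80080004002000200089dc583))) 
(.lf (nat_lit 19864802) (dlOf (nat_lit 1) (nat_lit 0x4004000200089dc582))))))))))) (.nd (nat_lit 5) 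
(.nd (nat_lit 18) (.nd (nat_lit 16) (.nd (nat_lit 30) (.nd (nat_lit 6) (.nd (nat_lit 19) 
(.nd (nat_lit 7) (.nd (nat_lit 9) (.nd (nat_lit 10) 
(.lf (nat_lit 5301739522) (dlOf (nat_lit 5) (nat_lit 0x10000011000400140000087f02000203f000701f0020301000180fc001807c000a03a000701b80202c2000800080050002001c0008060003))) 
(.lf (nat_lit 38937602) (dlOf (nat_lit 1) (nat_lit 0x400400020019192882)))) 
(.lf (nat_lit 2617385474) (dlOf (nat_lit 1) (nat_lit 0xd00080104002002c00080a1483)))) 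
(.nd (nat_lit 8) (.lf (nat_lit 28450946) (dlOf (nat_lit 1) (nat_lit 0x400200020008da0482))) 
(.nd (nat_lit 9) 
(.lf (nat_lit 805449090) (dlOf (nat_lit 4) (nat_lit 0x10028000660400040a8001c0110001602000d0088000a80800d80080014002001a0008116c03))) 
(.lf (nat_lit 8532866) (dlOf (nat_lit 1) (nat_lit 0x10008000400200020008519003)))))) 
(.nd (nat_lit 21) (.nd (nat_lit 25) (.nd (nat_lit 26) 
(.lf (nat_lit 2819235842) (dlOf (nat_lit 1) (nat_lit 0x540028200001))) 
(.lf (nat_lit 470425602) (dlOf (nat_lit 1) (nat_lit 0x4004000200180e0002)))) (.nd (nat_lit 8) 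
(.lf (nat_lit 42606594) (dlOf (nat_lit 1) (nat_lit 0x400400020009260002))) 
(.lf (nat_lit 50995458) (dlOf (nat_lit 1) (nat_lit 0x2000294e7a81))))) (.nd (nat_lit 8) 
(.nd (nat_lit 20) 
(.lf (nat_lit 11149314) (dlOf (nat_lit 4) (nat_lit 0x1cab6008da02000e55b0038a8100122b08000956c00d38080008004000a0008660002))) 
(.lf (nat_lit 3809282) (dlOf (nat_lit 3) (nat_lit 0xc825c0191302003a12e00c88818230000)))) 
(.lf (nat_lit 473571586) (dlOf (nat_lit 2) (nat_lit 0xf07d00037c0800f0008001000200060008f63583)))))) 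
(.nd (nat_lit 20) (.nd (nat_lit 8) (.nd (nat_lit 26) (.nd (nat_lit 19) 
(.lf (nat_lit 25305154) (dlOf (nat_lit 6) (nat_lit 0x81916003ec380001a8100216458010f0e00006904004f9160028c380000a410022e458011b0e00002204004f9160028c38000000100028008006400200520008bf0c03))) 
(.lf (nat_lit 537534530) (dlOf (nat_lit 16) (nat_lit 0x1f02b803e0130000800800200be000240200ae05f004a02c801000b4000460c00f80be0042059000110200cd02f807d017802940b2012204b000601c805900c000b005e010802c00090058016001000a8004000201600ec05f008302c80007c10015017c030c0b20001e04010e05f002802c801600b40003a0c01280be011805900a202580004c18089816400280600000f0400b005f007402c8037012c00100600000c0801ac05f007902c804c812c02680600000b08001e05f00a502c8050012c000140c002c0b20000902005405f001a02c800000100a680080180002028400080a0d03)))) 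
(.nd (nat_lit 9) (.lf (nat_lit 604119106) (dlOf (nat_lit 1) (nat_lit 0xc0028030581))) 
(.lf (nat_lit 2617390658) (dlOf (nat_lit 1) (nat_lit 0x24004001200080a9c02))))) (.nd (nat_lit 10) 
(.nd (nat_lit 19) (.lf (nat_lit 2885820738) (dlOf (nat_lit 1) (nat_lit 0x18002001800080b0602))) 
(.lf (nat_lit 50995522) (dlOf (nat_lit 2) (nat_lit 0x10953c009b0040118004005000194e8702)))) 
(.nd (nat_lit 9) (.lf (nat_lit 2818712898) (dlOf (nat_lit 1) (nat_lit 0x214002009000080d3302))) 
(.lf (nat_lit 537012034) (dlOf (nat_lit 1) (nat_lit 0x20028003e01)))))) (.nd (nat_lit 19) 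
(.nd (nat_lit 8) (.nd (nat_lit 9) 
(.lf (nat_lit 2752651330) (dlOf (nat_lit 4) (nat_lit 0x8c3ae005e1c3000038200040eb80001808007875c0024386000000400020008030e01))) 
(.lf (nat_lit 34744898) (dlOf (nat_lit 1) (nat_lit 0x20018fb5201)))) (.nd (nat_lit 9) 
(.lf (nat_lit 41034050) (dlOf (nat_lit 1) (nat_lit 0x60009218701))) 
(.lf (nat_lit 20065090) (dlOf (nat_lit 1) (nat_lit 0x4002000200089d5c02))))) (.nd (nat_lit 25) 
(.nd (nat_lit 9) (.lf (nat_lit 10100802) (dlOf (nat_lit 1) (nat_lit 0x200285b0781))) 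
(.lf (nat_lit 1008347714) (dlOf (nat_lit 1) (nat_lit 0x800200060008b55202)))) (.nd (nat_lit 7) 
(.lf (nat_lit 45752386) (dlOf (nat_lit 1) (nat_lit 0x8008000400200020009360603))) 
(.lf (nat_lit 47850690) (dlOf (nat_lit 1) (nat_lit 0x20009402d01)))))))) (.nd (nat_lit 26) 
(.nd (nat_lit 31) (.nd (nat_lit 6) (.nd (nat_lit 9) 
(.lf (nat_lit 1344937986) (dlOf (nat_lit 1) (nat_lit 0xc00189a0001))) 
(.lf (nat_lit 1610753538) (dlOf (nat_lit 1) (nat_lit 0x40028093681)))) (.nd (nat_lit 20) 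
(.lf (nat_lit 1344938050) (dlOf (nat_lit 1) (nat_lit 0x4002000200089a0602))) 
(.lf (nat_lit 5773074498) (dlOf (nat_lit 1) (nat_lit 0xc00180a1681))))) (.nd (nat_lit 8) 
(.nd (nat_lit 6) 
(.lf (nat_lit 3355588226) (dlOf (nat_lit 2) (nat_lit 0x800660012032000601880008048000f61002b8004001800080a9d82))) 
(.nd (nat_lit 20) 
(.lf (nat_lit 4026671170) (dlOf (nat_lit 10) (nat_lit 0x1650100000a008001004c0004a0400040400001e020410020000d00e800f003c059c0160001a0803fe020004300e801d003c0574016000190800160200000201025301000d6002c0000608001004000001020478020019f005800000100a28008011c00200600008020783))) 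
(.lf (nat_lit 3490848834) (dlOf (nat_lit 4) (nat_lit 0x8c38a005e1ae000038200040e2800018080078714002435c000000400020008030e01))))) 
(.nd (nat_lit 10) (.nd (nat_lit 22) 
(.lf (nat_lit 3624018242) (dlOf (nat_lit 1) (nat_lit 0x18002001800080b0602))) 
(.lf (nat_lit 3493994818) (dlOf (nat_lit 2) (nat_lit 0x1d414c00ce0870002b0281b0600)))) 
(.lf (nat_lit 3221372226) (dlOf (nat_lit 2) (nat_lit 0x3a038002100b001a08100208008002c0020036000811c903)))))) 
(.nd (nat_lit 8) (.nd (nat_lit 19) (.nd (nat_lit 31) (.nd (nat_lit 6) 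
(.lf (nat_lit 5435957250) (dlOf (nat_lit 5) (nat_lit 0x1000001d4a04001400000ea402000203f000701f0038c41000180fc001807c000a03a000701a8038c02000800080050002001c0008060003))) 
(.lf (nat_lit 1140990018) (dlOf (nat_lit 2) (nat_lit 0x580000020e04002c00200140008051702)))) 
(.nd (nat_lit 9) 
(.lf (nat_lit 3288473666) (dlOf (nat_lit 10) (nat_lit 0x1650100000a008001004c0004a0400040400001e020410020000d00e800f003c059c0160001c0803fe020004300e801d003c05740160001b0800160200000201025301000d6002c0000608001004000001020478020019f005800000100a28008011c00200600008020783))) 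
(.lf (nat_lit 3959568962) (dlOf (nat_lit 10) (nat_lit 0x780aa002604a007301a8031007c004403c00280120023003002a80000006220008406a006201f000900500170018000601001800ac0028052003b0190003007801540220002e0a005c056000602a801580c800a8062005802b002b0088015804000ac0140002d1000080560005018801a00ac00c002200640100033005001980180000c1c01140ac009e052004f01b001a80c40144056006201e004d008802f00400124014001a008003f00300001058023015800e0062002601e004a0088033004000f0014001c008002500300000c4001a815801400a4009e0360022018802d00ac00e803c0060011002100800278028010800c000021400fc0510010024803f00d400cc06800ea01f004400f00278018000001c006c0020252000811b502))))) 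
(.nd (nat_lit 28) 
(.lf (nat_lit 1678385218) (dlOf (nat_lit 2) (nat_lit 0x402b00013c080090008001400200240008201883))) 
(.lf (nat_lit 1409949762) (dlOf (nat_lit 3) (nat_lit 0x7a05f0001181009302c8000800802880080098002001a00080a0e03))))) 
(.nd (nat_lit 6) (.nd (nat_lit 9) 
(.lf (nat_lit 4095878530) (dlOf (nat_lit 1) (nat_lit 0x4004000200080e3582))) 
(.lf (nat_lit 1677862786) (dlOf (nat_lit 1) (nat_lit 0x9800400040018114182)))) (.nd (nat_lit 10) 
(.lf (nat_lit 6241266498) (dlOf (nat_lit 1) (nat_lit 0x4400280d5c01))) 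
(.lf (nat_lit 5972830018) (dlOf (nat_lit 1) (nat_lit 0x80018143e01)))))))) (.nd (nat_lit 6) 
(.nd (nat_lit 26) (.nd (nat_lit 7) (.nd (nat_lit 28) (.nd (nat_lit 20) (.nd (nat_lit 10) 
(.nd (nat_lit 22) (.lf (nat_lit 2301954) (dlOf (nat_lit 1) (nat_lit 0x100008150001))) 
(.lf (nat_lit 23273474) (dlOf (nat_lit 1) (nat_lit 0x1a0008b70001)))) 
(.lf (nat_lit 211970) (dlOf (nat_lit 1) (nat_lit 0x4000800bf01)))) (.nd (nat_lit 19) 
(.lf (nat_lit 24322050) (dlOf (nat_lit 1) (nat_lit 0x400200020008b90002))) 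
(.lf (nat_lit 22749186) (dlOf (nat_lit 3) (nat_lit 0x3ac1000f3c040059608000000200020028b20001))))) 
(.nd (nat_lit 30) (.nd (nat_lit 29) 
(.lf (nat_lit 2550341634) (dlOf (nat_lit 1) (nat_lit 0x20008090001))) 
(.lf (nat_lit 5234696194) (dlOf (nat_lit 1) (nat_lit 0xa800080a0001)))) (.nd (nat_lit 8) 
(.lf (nat_lit 1476599810) (dlOf (nat_lit 1) (nat_lit 0x800280a0001))) 
(.lf (nat_lit 3489869058) (dlOf (nat_lit 1) (nat_lit 0x18008000400200060008006603)))))) 
(.nd (nat_lit 8) (.nd (nat_lit 9) 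
(.lf (nat_lit 8600706) (dlOf (nat_lit 1) (nat_lit 0x200080010002000c000851c183))) 
(.lf (nat_lit 4160960130) (dlOf (nat_lit 1) (nat_lit 0x200280a9d81)))) (.nd (nat_lit 9) 
(.lf (nat_lit 11739522) (dlOf (nat_lit 1) (nat_lit 0x3200186c0781))) (.nd (nat_lit 10) 
(.lf (nat_lit 20130690) (dlOf (nat_lit 1) (nat_lit 0x4002000200089d5c02))) 
(.lf (nat_lit 537077634) (dlOf (nat_lit 1) (nat_lit 0x20028004181))))))) (.nd (nat_lit 28) 
(.nd (nat_lit 29) (.nd (nat_lit 7) (.nd (nat_lit 19) 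
(.lf (nat_lit 4496498690) (dlOf (nat_lit 2) (nat_lit 0x400e0000000801d8008006400200700008090003))) 
(.lf (nat_lit 4362805250) (dlOf (nat_lit 1) (nat_lit 0x860008100001)))) 
(.lf (nat_lit 1141058434) (dlOf (nat_lit 3) (nat_lit 0x9e0260003e8100570130001f00800680080010002000c0008095c03)))) 
(.nd (nat_lit 21) 
(.lf (nat_lit 604184578) (dlOf (nat_lit 3) (nat_lit 0x100d800cc404006c06c005fc02000a0008080001))) 
(.lf (nat_lit 2753765378) (dlOf (nat_lit 1) (nat_lit 0x9800400040018090002))))) (.nd (nat_lit 9) 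
(.nd (nat_lit 20) (.lf (nat_lit 4228587522) (dlOf (nat_lit 1) (nat_lit 0x860008100001))) 
(.lf (nat_lit 4095418370) (dlOf (nat_lit 1) (nat_lit 0x400080b0001)))) (.nd (nat_lit 12) 
(.lf (nat_lit 5167588866) (dlOf (nat_lit 1) (nat_lit 0x200180d3681))) 
(.lf (nat_lit 2617456130) (dlOf (nat_lit 3) (nat_lit 0x120160004b80800080b00024a040128004001000180a9c02))))))) 
(.nd (nat_lit 8) (.nd (nat_lit 28) (.nd (nat_lit 31) (.nd (nat_lit 19) (.nd (nat_lit 9) 
(.nd (nat_lit 26) (.lf (nat_lit 134422594) (dlOf (nat_lit 1) (nat_lit 0xa000400460008020782))) 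
(.lf (nat_lit 201531458) (dlOf (nat_lit 1) (nat_lit 0xa000400460008020782)))) 
(.lf (nat_lit 53684802) (dlOf (nat_lit 1) (nat_lit 0x2c004000200195f5202)))) (.nd (nat_lit 7) 
(.lf (nat_lit 45817922) (dlOf (nat_lit 1) (nat_lit 0x880009360601))) 
(.lf (nat_lit 58401986) (dlOf (nat_lit 1) (nat_lit 0x8002000200097e2d02))))) (.nd (nat_lit 9) 
(.nd (nat_lit 10) (.nd (nat_lit 20) 
(.lf (nat_lit 6442655810) (dlOf (nat_lit 2) (nat_lit 0x380e8002004a001001a000700c00005c200020008002c00200020008120e03))) 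
(.lf (nat_lit 2752716866) (dlOf (nat_lit 3) (nat_lit 0x6a1e70000381002e0f380000008013800800d4002004a0008030e03)))) 
(.lf (nat_lit 2885887042) (dlOf (nat_lit 1) (nat_lit 0x80028142881)))) (.nd (nat_lit 7) 
(.lf (nat_lit 2684559938) (dlOf (nat_lit 1) (nat_lit 0x200080034002000400080a1583))) 
(.lf (nat_lit 2818781890) (dlOf (nat_lit 1) (nat_lit 0x400200020008128c82)))))) (.nd (nat_lit 7) 
(.nd (nat_lit 26) (.nd (nat_lit 20) 
(.lf (nat_lit 1346576450) (dlOf (nat_lit 5) (nat_lit 0x2242000111b0000873000043800011b0800021c00007d010001121000088d80004398000f706000222e0001112800206880000a0c000400200100008fd0d82))) 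
(.lf (nat_lit 3490914370) (dlOf (nat_lit 3) (nat_lit 0x6a1d20000381002e0e900000008013800800d4002004a0008030e03)))) 
(.nd (nat_lit 27) 
(.lf (nat_lit 5704458306) (dlOf (nat_lit 1) (nat_lit 0x780080034002000e0008091783))) 
(.lf (nat_lit 5838676034) (dlOf (nat_lit 2) (nat_lit 0x380e8002004a001001a000700c000058200020008002c00200020008120e03))))) 
(.nd (nat_lit 9) (.nd (nat_lit 11) 
(.lf (nat_lit 1346053314) (dlOf (nat_lit 1) (nat_lit 0x140008000800200020008e22d03))) 
(.lf (nat_lit 1409494210) (dlOf (nat_lit 1) (nat_lit 0x20028006381)))) (.nd (nat_lit 10) 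
(.lf (nat_lit 3556979394) (dlOf (nat_lit 1) (nat_lit 0x400200020008128c82))) 
(.lf (nat_lit 805514946) (dlOf (nat_lit 1) (nat_lit 0x400200020008117282))))))) (.nd (nat_lit 29) 
(.nd (nat_lit 28) (.nd (nat_lit 20) (.nd (nat_lit 27) 
(.lf (nat_lit 4295172418) (dlOf (nat_lit 1) (nat_lit 0x800400020008090602))) 
(.lf (nat_lit 4429390146) (dlOf (nat_lit 1) (nat_lit 0x800400020008090602)))) 
(.lf (nat_lit 9642306) (dlOf (nat_lit 2) (nat_lit 0xa4d80021b018574c00)))) (.nd (nat_lit 7) 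
(.nd (nat_lit 10) 
(.lf (nat_lit 3494060354) (dlOf (nat_lit 2) (nat_lit 0xb043c003420e000e0fb000158381b0600))) 
(.lf (nat_lit 3489873218) (dlOf (nat_lit 4) (nat_lit 0x587f0003c3f60068204001c1fa002748100100fd0013600800b000800280020014000800c903)))) 
(.lf (nat_lit 3556979138) (dlOf (nat_lit 1) (nat_lit 0xc00200020008128602))))) (.nd (nat_lit 9) 
(.nd (nat_lit 12) (.nd (nat_lit 19) 
(.lf (nat_lit 2755862850) (dlOf (nat_lit 4) (nat_lit 0x9842c0009e0401b4222001e109000f07d8000b018043044401e8212012c0fb000150381b0600))) 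
(.lf (nat_lit 738926914) (dlOf (nat_lit 1) (nat_lit 0x80008148701)))) (.nd (nat_lit 7) 
(.lf (nat_lit 537082178) (dlOf (nat_lit 1) (nat_lit 0x2002800ab81))) 
(.lf (nat_lit 2818781634) (dlOf (nat_lit 1) (nat_lit 0xc00200020008128602))))) (.nd (nat_lit 10) 
(.lf (nat_lit 6241332034) (dlOf (nat_lit 1) (nat_lit 0x800280d5c01))) (.nd (nat_lit 11) 
(.lf (nat_lit 671295298) (dlOf (nat_lit 1) (nat_lit 0x400200020008143e02))) 
(.lf (nat_lit 2818780994) (dlOf (nat_lit 1) (nat_lit 0x8008008800200540008127683)))))))))) 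
(.nd (nat_lit 6) (.nd (nat_lit 20) (.nd (nat_lit 26) (.nd (nat_lit 28) (.nd (nat_lit 22) 
(.nd (nat_lit 30) (.nd (nat_lit 19) 
(.lf (nat_lit 134619138) (dlOf (nat_lit 2) (nat_lit 0xa00ec0199604002c002000c0008090002))) 
(.lf (nat_lit 2819497986) (dlOf (nat_lit 3) (nat_lit 0x10160027340800780d800000040010004000600082b0002)))) 
(.nd (nat_lit 27) 
(.lf (nat_lit 3221626882) (dlOf (nat_lit 1) (nat_lit 0x38008001c00200060008160003))) 
(.lf (nat_lit 3355844610) (dlOf (nat_lit 5) (nat_lit 0x29002f006c181002b01a003780bc06e405a00d7e0606ac031002b016002d00440197e0c02c4066070203200b50160030ac180070008001000200180008120003))))) 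
(.nd (nat_lit 21) (.nd (nat_lit 23) 
(.lf (nat_lit 54927362) (dlOf (nat_lit 1) (nat_lit 0x140019670001))) 
(.lf (nat_lit 12984322) (dlOf (nat_lit 1) (nat_lit 0x100080004002000400086f0003)))) 
(.lf (nat_lit 48635906) (dlOf (nat_lit 1) (nat_lit 0x400200080009420002))))) (.nd (nat_lit 32) 
(.nd (nat_lit 7) (.nd (nat_lit 22) 
(.lf (nat_lit 4026933250) (dlOf (nat_lit 1) (nat_lit 0xe00080d0001))) 
(.lf (nat_lit 1346772994) (dlOf (nat_lit 1) (nat_lit 0x400400020019000002)))) 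
(.lf (nat_lit 3492751234) (dlOf (nat_lit 1) (nat_lit 0x200280f4181)))) (.nd (nat_lit 27) 
(.nd (nat_lit 30) 
(.lf (nat_lit 4563804162) (dlOf (nat_lit 1) (nat_lit 0xd80080024002003800080e0003))) 
(.lf (nat_lit 5637545986) (dlOf (nat_lit 2) (nat_lit 0xc019003a9018100000)))) 
(.lf (nat_lit 4698021890) (dlOf (nat_lit 1) (nat_lit 0xd80080024002003800080e0003)))))) 
(.nd (nat_lit 27) (.nd (nat_lit 28) (.nd (nat_lit 7) (.nd (nat_lit 8) 
(.lf (nat_lit 3288735746) (dlOf (nat_lit 1) (nat_lit 0xe00080d0001))) 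
(.lf (nat_lit 4362477826) (dlOf (nat_lit 1) (nat_lit 0x30008003400200160008090483)))) 
(.lf (nat_lit 4362477954) (dlOf (nat_lit 1) (nat_lit 0x160018090781)))) (.nd (nat_lit 19) 
(.nd (nat_lit 16) (.lf (nat_lit 6241525762) (dlOf (nat_lit 2) (nat_lit 0xc01900666818100000))) 
(.lf (nat_lit 3557236738) (dlOf (nat_lit 2) (nat_lit 0x20320069140800580080110002002a0008170003)))) 
(.nd (nat_lit 29) (.lf (nat_lit 3557695490) (dlOf (nat_lit 1) (nat_lit 0x68004002200082b0002))) 
(.lf (nat_lit 4094566402) (dlOf (nat_lit 1) (nat_lit 0x20028050001)))))) (.nd (nat_lit 7) 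
(.nd (nat_lit 16) (.nd (nat_lit 29) 
(.lf (nat_lit 4496695298) (dlOf (nat_lit 2) (nat_lit 0x401a0000000801d8008006400200700008120003))) 
(.lf (nat_lit 3959824386) (dlOf (nat_lit 1) (nat_lit 0x38008001c00200060008160003)))) 
(.lf (nat_lit 1009197058) (dlOf (nat_lit 1) (nat_lit 0x1800400040019090002)))) (.nd (nat_lit 8) 
(.lf (nat_lit 470687874) (dlOf (nat_lit 1) (nat_lit 0x20008150281))) (.nd (nat_lit 16) 
(.lf (nat_lit 201728386) (dlOf (nat_lit 4) (nat_lit 0x18007600cee0200b603b0067401001b01d803380081ba800800c000200420008090783))) 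
(.lf (nat_lit 3959890306) (dlOf (nat_lit 1) (nat_lit 0x28008004400200040008170783)))))))) 
(.nd (nat_lit 21) (.nd (nat_lit 16) (.nd (nat_lit 7) (.nd (nat_lit 10) (.nd (nat_lit 19) 
(.lf (nat_lit 26615810) (dlOf (nat_lit 3) (nat_lit 0x24b3e80690c0801357b40307804002000200060008c50002))) 
(.lf (nat_lit 10362882) (dlOf (nat_lit 1) (nat_lit 0x4002000200085d0002)))) 
(.lf (nat_lit 47588354) (dlOf (nat_lit 1) (nat_lit 0x20029402881)))) (.nd (nat_lit 9) 
(.lf (nat_lit 18751618) (dlOf (nat_lit 1) (nat_lit 0x400200020008970482))) 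
(.lf (nat_lit 4095616642) (dlOf (nat_lit 1) (nat_lit 0x34004002a00080e3a02))))) (.nd (nat_lit 19) 
(.nd (nat_lit 23) (.lf (nat_lit 35069954) (dlOf (nat_lit 1) (nat_lit 0x220018fd0001))) 
(.lf (nat_lit 9904130) (dlOf (nat_lit 2) (nat_lit 0x9a2900ae8818590000)))) (.nd (nat_lit 7) 
(.lf (nat_lit 69148674) (dlOf (nat_lit 1) (nat_lit 0x380080014002000600088b0003))) 
(.lf (nat_lit 6234242) (dlOf (nat_lit 1) (nat_lit 0x40002000a0008420482)))))) (.nd (nat_lit 7) 
(.nd (nat_lit 16) (.nd (nat_lit 23) (.nd (nat_lit 9) 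
(.lf (nat_lit 37101570) (dlOf (nat_lit 1) (nat_lit 0x18008000400200020009090003))) 
(.lf (nat_lit 2755535362) (dlOf (nat_lit 3) (nat_lit 0x22c08400143020084042000660181b0d80)))) 
(.nd (nat_lit 22) (.lf (nat_lit 62267394) (dlOf (nat_lit 1) (nat_lit 0x20009990001))) 
(.lf (nat_lit 16130050) (dlOf (nat_lit 1) (nat_lit 0x60008870001))))) (.nd (nat_lit 8) 
(.lf (nat_lit 3493797890) (dlOf (nat_lit 1) (nat_lit 0x448002017000081b0002))) 
(.lf (nat_lit 1345790210) (dlOf (nat_lit 1) (nat_lit 0x400200020008de3582))))) (.nd (nat_lit 8) 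
(.lf (nat_lit 28778626) (dlOf (nat_lit 1) (nat_lit 0x400200020008da0482))) (.nd (nat_lit 9) 
(.lf (nat_lit 8270210) (dlOf (nat_lit 1) (nat_lit 0x40028518381))) 
(.lf (nat_lit 20327298) (dlOf (nat_lit 1) (nat_lit 0x8002000200089d5c02)))))))) (.nd (nat_lit 16) 
(.nd (nat_lit 28) (.nd (nat_lit 25) (.nd (nat_lit 26) (.nd (nat_lit 19) (.nd (nat_lit 7) 
(.nd (nat_lit 9) (.lf (nat_lit 26615874) (dlOf (nat_lit 1) (nat_lit 0x14004000c0008c50582))) 
(.lf (nat_lit 134619714) (dlOf (nat_lit 2) (nat_lit 0x4d805c000120200280018091081)))) 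
(.lf (nat_lit 1745234626) (dlOf (nat_lit 1) (nat_lit 0x6400280e5801)))) (.nd (nat_lit 8) 
(.nd (nat_lit 20) (.lf (nat_lit 21897282) (dlOf (nat_lit 1) (nat_lit 0x400200020008a80e02))) 
(.lf (nat_lit 4071490) (dlOf (nat_lit 1) (nat_lit 0x20018270c01)))) 
(.lf (nat_lit 537796930) (dlOf (nat_lit 2) (nat_lit 0x2d000000080040100002002c00081b0602))))) 
(.nd (nat_lit 8) (.nd (nat_lit 9) 
(.lf (nat_lit 3288735810) (dlOf (nat_lit 4) (nat_lit 0x3500200003501018d0100001a4080090080000440402e8004032c00080d0c02))) 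
(.lf (nat_lit 201728578) (dlOf (nat_lit 2) (nat_lit 0x4d805c000110200280018091081)))) 
(.nd (nat_lit 7) (.lf (nat_lit 69607746) (dlOf (nat_lit 2) (nat_lit 0xc2c4004d802000c0018b68701))) 
(.lf (nat_lit 4362478018) (dlOf (nat_lit 3) (nat_lit 0xa8044000510200540220001a818090900)))))) 
(.nd (nat_lit 21) (.nd (nat_lit 8) (.nd (nat_lit 20) 
(.lf (nat_lit 54927426) (dlOf (nat_lit 1) (nat_lit 0x120009670581))) 
(.lf (nat_lit 47587394) (dlOf (nat_lit 1) (nat_lit 0x5a0029400001)))) 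
(.lf (nat_lit 50734402) (dlOf (nat_lit 1) (nat_lit 0x400294c3301)))) (.nd (nat_lit 7) 
(.nd (nat_lit 8) 
(.lf (nat_lit 48635970) (dlOf (nat_lit 2) (nat_lit 0x4100000054408017800800d800200180009420603))) 
(.lf (nat_lit 58073410) (dlOf (nat_lit 4) (nat_lit 0x82190003d0c60068204000c86000274810009430001360080010008000c002000e00097b8703)))) 
(.lf (nat_lit 36578498) (dlOf (nat_lit 1) (nat_lit 0x400400020009072d02)))))) (.nd (nat_lit 27) 
(.nd (nat_lit 8) (.nd (nat_lit 29) (.nd (nat_lit 9) 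
(.lf (nat_lit 4563804226) (dlOf (nat_lit 1) (nat_lit 0xac004008a00080e1782))) 
(.lf (nat_lit 1344678466) (dlOf (nat_lit 1) (nat_lit 0x20002000e0008925202)))) (.nd (nat_lit 10) 
(.lf (nat_lit 4026933314) (dlOf (nat_lit 4) (nat_lit 0x3500200003081018d010000180080090080000440402e8004032c00080d0c02))) 
(.lf (nat_lit 4095616066) (dlOf (nat_lit 1) (nat_lit 0x400280e2881))))) (.nd (nat_lit 10) 
(.lf (nat_lit 1410212162) (dlOf (nat_lit 2) (nat_lit 0x2d00000008e040100002002c00081b0602))) 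
(.lf (nat_lit 1345725762) (dlOf (nat_lit 1) (nat_lit 0x20028dd3301))))) (.nd (nat_lit 7) 
(.nd (nat_lit 9) (.lf (nat_lit 4698021954) (dlOf (nat_lit 1) (nat_lit 0x1200080e1701))) 
(.lf (nat_lit 472263234) (dlOf (nat_lit 1) (nat_lit 0x80018925201)))) (.nd (nat_lit 8) 
(.nd (nat_lit 10) (.lf (nat_lit 5773336770) (dlOf (nat_lit 1) (nat_lit 0x4002000200080c1702))) 
(.lf (nat_lit 3624283330) (dlOf (nat_lit 1) (nat_lit 0x20028146381)))) 
(.lf (nat_lit 4228260290) (dlOf (nat_lit 3) (nat_lit 0xa8044000510200540220001a818090900))))))) 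
(.nd (nat_lit 19) (.nd (nat_lit 26) (.nd (nat_lit 21) (.nd (nat_lit 7) (.nd (nat_lit 20) 
(.lf (nat_lit 6442917954) (dlOf (nat_lit 2) (nat_lit 0x280e8001404a000a01a000500c0000e0200008008001000200020008220c03))) 
(.lf (nat_lit 9904194) (dlOf (nat_lit 5) (nat_lit 0xba450005d208003e8ec00273b80020a08000fa450007d208004e8ec00133b800209080015a45000bd208005e8ec00273b800208080015a450005d208006e8ec00233b8002070800e40008591701)))) 
(.lf (nat_lit 3221692866) (dlOf (nat_lit 1) (nat_lit 0x330008003c00200340008170903)))) 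
(.nd (nat_lit 7) (.nd (nat_lit 20) 
(.lf (nat_lit 2564162) (dlOf (nat_lit 2) (nat_lit 0x195788000a4080050008005800200100008170d03))) 
(.lf (nat_lit 3612738) (dlOf (nat_lit 1) (nat_lit 0x20028210e01)))) 
(.lf (nat_lit 23535810) (dlOf (nat_lit 1) (nat_lit 0x760008b80401))))) (.nd (nat_lit 27) 
(.nd (nat_lit 20) (.nd (nat_lit 28) 
(.lf (nat_lit 4362543170) (dlOf (nat_lit 1) (nat_lit 0xe0018090001))) 
(.lf (nat_lit 3557236802) (dlOf (nat_lit 1) (nat_lit 0x20018170581)))) (.nd (nat_lit 9) 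
(.lf (nat_lit 4095156290) (dlOf (nat_lit 1) (nat_lit 0x140018070581))) 
(.lf (nat_lit 2755076674) (dlOf (nat_lit 1) (nat_lit 0x100028108501))))) (.nd (nat_lit 7) 
(.nd (nat_lit 29) 
(.lf (nat_lit 5838938178) (dlOf (nat_lit 2) (nat_lit 0x280e8001404a000a01a000500c0000d8200008008001000200020008220c03))) 
(.lf (nat_lit 4228325442) (dlOf (nat_lit 1) (nat_lit 0x30004000c0018090002)))) 
(.lf (nat_lit 3959890370) (dlOf (nat_lit 1) (nat_lit 0x330008003c00200340008170903)))))) 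
(.nd (nat_lit 21) (.nd (nat_lit 22) (.nd (nat_lit 8) 
(.lf (nat_lit 1880039490) (dlOf (nat_lit 1) (nat_lit 0x20028540581))) 
(.lf (nat_lit 6376333634) (dlOf (nat_lit 2) (nat_lit 0x1048c0000804000800400120008090c02)))) 
(.nd (nat_lit 7) (.nd (nat_lit 23) 
(.lf (nat_lit 21962818) (dlOf (nat_lit 3) (nat_lit 0x1f22c000070200299160016c38000000100078008002800200080008a80e03))) 
(.lf (nat_lit 13574210) (dlOf (nat_lit 1) (nat_lit 0x20008730c01)))) 
(.lf (nat_lit 31401154) (dlOf (nat_lit 1) (nat_lit 0x20028e92d01))))) (.nd (nat_lit 7) 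
(.nd (nat_lit 8) (.nd (nat_lit 10) 
(.lf (nat_lit 473899074) (dlOf (nat_lit 2) (nat_lit 0x590530012029601760d700d806b000b02dc02780f600980280063000000550400190008019800200320008fc0603))) 
(.lf (nat_lit 19870786) (dlOf (nat_lit 1) (nat_lit 0x200089d9281)))) 
(.lf (nat_lit 40838466) (dlOf (nat_lit 1) (nat_lit 0x800291f3301)))) (.nd (nat_lit 8) 
(.nd (nat_lit 9) (.lf (nat_lit 3492751554) (dlOf (nat_lit 1) (nat_lit 0x200280f4981))) 
(.lf (nat_lit 19870402) (dlOf (nat_lit 1) (nat_lit 0x200289d8c81)))) 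
(.lf (nat_lit 472850882) (dlOf (nat_lit 1) (nat_lit 0x960018b17a81)))))))))) (.nd (nat_lit 16) 
(.nd (nat_lit 18) (.nd (nat_lit 19) (.nd (nat_lit 8) (.nd (nat_lit 6) (.nd (nat_lit 22) 
(.nd (nat_lit 26) (.nd (nat_lit 27) 
(.lf (nat_lit 4026671138) (dlOf (nat_lit 1) (nat_lit 0x20018020481))) (.nd (nat_lit 30) 
(.lf (nat_lit 4697759778) (dlOf (nat_lit 1) (nat_lit 0x17c00400140008090002))) 
(.lf (nat_lit 3624017954) (dlOf (nat_lit 2) (nat_lit 0x1000a005f88080018008008c002001200080b0003))))) 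
(.nd (nat_lit 20) (.lf (nat_lit 3422691362) (dlOf (nat_lit 1) (nat_lit 0x160018060501))) 
(.lf (nat_lit 1007820834) (dlOf (nat_lit 1) (nat_lit 0x4002000400087f0702))))) (.nd (nat_lit 25) 
(.nd (nat_lit 21) (.lf (nat_lit 12722210) (dlOf (nat_lit 1) (nat_lit 0x4004000200086e0a02))) 
(.lf (nat_lit 14819362) (dlOf (nat_lit 2) (nat_lit 0x255d30024a50000b520000a92ac004c8e80024463801222980091120003e873002540c00121ffc0090ff000507d500283d880131ea80090f0e005475d002a39880169bf400acd4600484cc002420000008f8400907bc0001d30000a0018780601)))) 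
(.nd (nat_lit 20) (.lf (nat_lit 63053858) (dlOf (nat_lit 2) (nat_lit 0xb84e50001f0199c0180))) 
(.lf (nat_lit 47325218) (dlOf (nat_lit 1) (nat_lit 0x44004002800093d0802)))))) (.nd (nat_lit 7) 
(.nd (nat_lit 9) (.nd (nat_lit 10) 
(.lf (nat_lit 6711025762) (dlOf (nat_lit 1) (nat_lit 0x3ac004017e0008040782))) 
(.lf (nat_lit 34743394) (dlOf (nat_lit 1) (nat_lit 0xc00400020008fb2982)))) 
(.lf (nat_lit 1610753634) (dlOf (nat_lit 2) (nat_lit 0x400b4000470200060028093901)))) 
(.nd (nat_lit 20) (.lf (nat_lit 44179682) (dlOf (nat_lit 1) (nat_lit 0x1a00292d1b01))) 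
(.lf (nat_lit 7479522) (dlOf (nat_lit 2) (nat_lit 0x3911a0012815000937d0000a8180018008000c002000800084b0583)))))) 
(.nd (nat_lit 6) (.nd (nat_lit 26) (.nd (nat_lit 27) (.nd (nat_lit 7) 
(.lf (nat_lit 4563542306) (dlOf (nat_lit 22) (nat_lit 0xa4068007402f0036016801b007c002d21000a8068006402f0037016801a007c002d01000a4068006802f00350168018007c002ce10002c068007402f0039016801b807c002cc10008005e001802d000e00f80058c1800600b000240280015804000402d000a681000e0168005300800700b40028a04002005a0014302000a02d0009c81000b00f0004bc0800b80bc0017804000c05a0002b02000202d0001501000a01780008c0801700bc00b805a005e01f0000c03002c017801600b400b003e0001706006402f002b0168018807c0002c0c00dc05e007002d003800f8000541800e80b4000000400d400400020018090a82))) 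
(.lf (nat_lit 5637285282) (dlOf (nat_lit 1) (nat_lit 0x4000280d3601)))) (.nd (nat_lit 29) 
(.lf (nat_lit 1208099106) (dlOf (nat_lit 1) (nat_lit 0xa0008090a81))) 
(.lf (nat_lit 1744970018) (dlOf (nat_lit 2) (nat_lit 0x1680980012c04009400200020008090a82))))) 
(.nd (nat_lit 11) (.nd (nat_lit 29) 
(.lf (nat_lit 335683874) (dlOf (nat_lit 1) (nat_lit 0x1c00200020008090a82))) 
(.lf (nat_lit 1946296610) (dlOf (nat_lit 1) (nat_lit 0x20028014301)))) 
(.lf (nat_lit 3959568674) (dlOf (nat_lit 1) (nat_lit 0x2001811ab81))))) (.nd (nat_lit 7) 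
(.nd (nat_lit 24) (.nd (nat_lit 20) 
(.lf (nat_lit 3493994850) (dlOf (nat_lit 1) (nat_lit 0x18004000800181b0702))) 
(.lf (nat_lit 3285346) (dlOf (nat_lit 2) (nat_lit 0x7da30001a018200700)))) (.nd (nat_lit 9) 
(.lf (nat_lit 20066658) (dlOf (nat_lit 1) (nat_lit 0x4004000200189d8382))) 
(.lf (nat_lit 20065122) (dlOf (nat_lit 1) (nat_lit 0x1380080008002002600089d5c03))))) 
(.nd (nat_lit 11) (.lf (nat_lit 1946296802) (dlOf (nat_lit 2) (nat_lit 0x1e02900000018017300))) 
(.nd (nat_lit 12) 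
(.lf (nat_lit 3221367266) (dlOf (nat_lit 4) (nat_lit 0x6600e00b9f010033007005cec08002003800500000172f0400020018114e81))) 
(.lf (nat_lit 3959568866) (dlOf (nat_lit 2) (nat_lit 0x2c02c00c0e020006002811b281)))))))) 
(.nd (nat_lit 21) (.nd (nat_lit 28) (.nd (nat_lit 23) (.nd (nat_lit 6) (.nd (nat_lit 26) 
(.nd (nat_lit 22) (.lf (nat_lit 134881314) (dlOf (nat_lit 1) (nat_lit 0x5600080d0901))) 
(.lf (nat_lit 4857890) (dlOf (nat_lit 1) (nat_lit 0x4002000200082d0182)))) (.nd (nat_lit 27) 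
(.lf (nat_lit 4362739746) (dlOf (nat_lit 1) (nat_lit 0xc00180e0b81))) 
(.lf (nat_lit 201990178) (dlOf (nat_lit 1) (nat_lit 0x5600080d0901))))) (.nd (nat_lit 22) 
(.lf (nat_lit 34219106) (dlOf (nat_lit 1) (nat_lit 0x18800200500008fb2982))) 
(.lf (nat_lit 38413410) (dlOf (nat_lit 1) (nat_lit 0x20019132981))))) (.nd (nat_lit 9) 
(.nd (nat_lit 24) (.lf (nat_lit 10100770) (dlOf (nat_lit 1) (nat_lit 0x200285b0481))) 
(.lf (nat_lit 26877986) (dlOf (nat_lit 2) (nat_lit 0x230573000fa854001c4080008004000a0008c80602)))) 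
(.lf (nat_lit 9052706) (dlOf (nat_lit 1) (nat_lit 0x578008002000203080008511483))))) 
(.nd (nat_lit 26) (.nd (nat_lit 6) 
(.lf (nat_lit 1342840866) (dlOf (nat_lit 1) (nat_lit 0x24002000200080e0a02))) (.nd (nat_lit 20) 
(.lf (nat_lit 1879711970) (dlOf (nat_lit 2) (nat_lit 0xc30440000a80800080080010002000200082e0583))) 
(.lf (nat_lit 1343889634) (dlOf (nat_lit 1) (nat_lit 0x1c0008370581))))) (.nd (nat_lit 29) 
(.lf (nat_lit 470425634) (dlOf (nat_lit 1) (nat_lit 0x24002000200080e0a02))) (.nd (nat_lit 30) 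
(.lf (nat_lit 3154780194) (dlOf (nat_lit 1) (nat_lit 0x20028320d01))) 
(.lf (nat_lit 4228522018) (dlOf (nat_lit 1) (nat_lit 0xc00180e0b81))))))) (.nd (nat_lit 20) 
(.nd (nat_lit 28) (.nd (nat_lit 7) 
(.lf (nat_lit 15343650) (dlOf (nat_lit 1) (nat_lit 0x4002000200087e0602))) 
(.lf (nat_lit 36317858) (dlOf (nat_lit 1) (nat_lit 0x20019075601)))) (.nd (nat_lit 26) 
(.lf (nat_lit 1344938018) (dlOf (nat_lit 1) (nat_lit 0xe00289a0181))) 
(.lf (nat_lit 472522786) (dlOf (nat_lit 6) (nat_lit 0x1105e00005c0800385980230178000160400e20bc000098100030b30000440803c02f000000040014004002200089b0702))))) 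
(.nd (nat_lit 6) (.nd (nat_lit 10) (.nd (nat_lit 26) 
(.lf (nat_lit 3493470242) (dlOf (nat_lit 3) (nat_lit 0xc07200029020010039000600380009c100018008005c00200120008140c03))) 
(.lf (nat_lit 2755272738) (dlOf (nat_lit 3) (nat_lit 0xc07200029020010039000600380009c100018008005c00200120008140c03)))) 
(.lf (nat_lit 1345987618) (dlOf (nat_lit 2) (nat_lit 0x140850033f018e22880)))) (.nd (nat_lit 7) 
(.nd (nat_lit 8) (.lf (nat_lit 62530658) (dlOf (nat_lit 1) (nat_lit 0x1800299a2981))) 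
(.lf (nat_lit 49948002) (dlOf (nat_lit 1) (nat_lit 0x18004000200094c3402)))) 
(.lf (nat_lit 28975330) (dlOf (nat_lit 2) (nat_lit 0x26774b000238b80005408000c00400340018da0582)))))))) 
(.nd (nat_lit 6) (.nd (nat_lit 28) (.nd (nat_lit 23) (.nd (nat_lit 8) (.nd (nat_lit 29) 
(.nd (nat_lit 9) 
(.lf (nat_lit 6442852386) (dlOf (nat_lit 3) (nat_lit 0x2c0340001201002d01a00000008082000802e4002001800081e0783))) 
(.lf (nat_lit 134619682) (dlOf (nat_lit 3) (nat_lit 0x8c082000030201c604100000818090d80)))) 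
(.nd (nat_lit 22) 
(.lf (nat_lit 537272354) (dlOf (nat_lit 4) (nat_lit 0x1018800018080060154004006200005040044055001f0188000001000080080068002001c0008070683))) 
(.lf (nat_lit 2756059170) (dlOf (nat_lit 1) (nat_lit 0x4004000400181e0882))))) (.nd (nat_lit 7) 
(.lf (nat_lit 8271138) (dlOf (nat_lit 1) (nat_lit 0x300018519781))) (.nd (nat_lit 10) 
(.lf (nat_lit 134619554) (dlOf (nat_lit 5) (nat_lit 0xfc0760074402004603b003a181002601d801ce80801d80ec00e7204000c00200120008090782))) 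
(.lf (nat_lit 8267170) (dlOf (nat_lit 1) (nat_lit 0x400200020008513602)))))) (.nd (nat_lit 19) 
(.nd (nat_lit 20) 
(.lf (nat_lit 48635938) (dlOf (nat_lit 2) (nat_lit 0xdf570006f93e0036d3b001a67e000d80000007c140018002000e0009420182))) 
(.nd (nat_lit 24) 
(.lf (nat_lit 9838626) (dlOf (nat_lit 2) (nat_lit 0x210398000460200120008580181))) 
(.lf (nat_lit 26615842) (dlOf (nat_lit 4) (nat_lit 0x1a9ea001a00000005820001a7a80168000000140800069ea00293a1000200000000018014000800a8002002c0008c50183))))) 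
(.nd (nat_lit 24) (.nd (nat_lit 25) 
(.lf (nat_lit 9314338) (dlOf (nat_lit 1) (nat_lit 0x700008540781))) 
(.lf (nat_lit 42868770) (dlOf (nat_lit 1) (nat_lit 0x8008002000200020009280183)))) 
(.lf (nat_lit 59645986) (dlOf (nat_lit 1) (nat_lit 0xc00200020009820182)))))) (.nd (nat_lit 26) 
(.nd (nat_lit 7) (.nd (nat_lit 20) (.nd (nat_lit 21) 
(.lf (nat_lit 1346773026) (dlOf (nat_lit 16) (nat_lit 0x4305580218286009413b00800668001382004405580220286009613b0081066800134200058334000980402542ac0124143004a09d80470334014810a000430a012415600920a1802584ec023019a000e085000210501d40ab00ea850c062827603980cd00e6042800601d40007c1800542860003d02020815601030a1804c84ec03ec19a01880850001e05004d0ab0020850c000760800b42ac005a1430001c0200510ab0024050c0006e0800382ac0003602001e15600110a18000d4100048558002c2860003404008a15600440a180230334000660c002c00400020009000182))) 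
(.lf (nat_lit 1881546786) (dlOf (nat_lit 2) (nat_lit 0x60470001040800100080024002001a0008f40183)))) 
(.lf (nat_lit 1343627298) (dlOf (nat_lit 1) (nat_lit 0x4002000a00082c0702)))) (.nd (nat_lit 20) 
(.lf (nat_lit 3490587042) (dlOf (nat_lit 1) (nat_lit 0x10008000800200040008016b83))) 
(.lf (nat_lit 1346249122) (dlOf (nat_lit 1) (nat_lit 0x20028e81001))))) (.nd (nat_lit 7) 
(.nd (nat_lit 27) (.nd (nat_lit 19) 
(.lf (nat_lit 1409687586) (dlOf (nat_lit 4) (nat_lit 0x1018800018080060154004006200005040044055001f0188000001000080080068002001c0008070683))) 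
(.lf (nat_lit 1410211874) (dlOf (nat_lit 1) (nat_lit 0x1900080004002000c00081b0003)))) 
(.nd (nat_lit 29) 
(.lf (nat_lit 5838872610) (dlOf (nat_lit 1) (nat_lit 0xe0008002c002001200081e0883))) 
(.lf (nat_lit 3154518050) (dlOf (nat_lit 2) (nat_lit 0x480a2000b102000600181f0601))))) 
(.nd (nat_lit 8) (.lf (nat_lit 471740066) (dlOf (nat_lit 1) (nat_lit 0xe00183d7201))) 
(.lf (nat_lit 4228260258) (dlOf (nat_lit 2) (nat_lit 0x18e032003ff818090780))))))) 
(.nd (nat_lit 19) (.nd (nat_lit 26) (.nd (nat_lit 21) (.nd (nat_lit 10) (.nd (nat_lit 22) 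
(.lf (nat_lit 17178722) (dlOf (nat_lit 1) (nat_lit 0x4004000200088e0482))) 
(.lf (nat_lit 1346773090) (dlOf (nat_lit 1) (nat_lit 0x20008000c00200060009000903)))) 
(.lf (nat_lit 38151266) (dlOf (nat_lit 1) (nat_lit 0x400200020009132982)))) (.nd (nat_lit 8) 
(.lf (nat_lit 49684578) (dlOf (nat_lit 2) (nat_lit 0x329e80006604000400200060009480902))) 
(.lf (nat_lit 23470434) (dlOf (nat_lit 1) (nat_lit 0x400200040008b80702))))) (.nd (nat_lit 8) 
(.nd (nat_lit 7) (.lf (nat_lit 473310306) (dlOf (nat_lit 1) (nat_lit 0x8008000400200020008e92983))) 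
(.lf (nat_lit 2755013858) (dlOf (nat_lit 5) (nat_lit 0x621d0001b010011115800108a80004452005e21d000110a8000d42800788ac000c4540014229000310e8004085400068140058456000822a00031148003885400054100004004000400180f6502)))) 
(.nd (nat_lit 9) (.nd (nat_lit 27) 
(.lf (nat_lit 4362478050) (dlOf (nat_lit 3) (nat_lit 0xa00cc0000a04003c066000000200020028090c01))) 
(.lf (nat_lit 4228260322) (dlOf (nat_lit 3) (nat_lit 0xa00c80000a04003c064000000200020028090c01)))) 
(.lf (nat_lit 2751870946) (dlOf (nat_lit 1) (nat_lit 0x8008001c0020002000800a603)))))) 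
(.nd (nat_lit 8) (.nd (nat_lit 10) (.nd (nat_lit 7) 
(.lf (nat_lit 59646050) (dlOf (nat_lit 1) (nat_lit 0x20029820901))) (.nd (nat_lit 20) 
(.lf (nat_lit 7217378) (dlOf (nat_lit 2) (nat_lit 0xf4df400723fd000150284b0580))) 
(.lf (nat_lit 6168802) (dlOf (nat_lit 3) (nat_lit 0x33ebc702535d60122ae50091566804e8998000150500084cc0000a4080058008008400200480008420583))))) 
(.nd (nat_lit 9) (.lf (nat_lit 38675554) (dlOf (nat_lit 1) (nat_lit 0x8008000800200040009132983))) 
(.nd (nat_lit 11) (.lf (nat_lit 8267362) (dlOf (nat_lit 1) (nat_lit 0x400200020008513902))) 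
(.lf (nat_lit 2754489954) (dlOf (nat_lit 1) (nat_lit 0x1e00280f7181)))))) (.nd (nat_lit 28) 
(.nd (nat_lit 20) (.lf (nat_lit 537796962) (dlOf (nat_lit 1) (nat_lit 0x4002000800081b0702))) 
(.lf (nat_lit 2755535202) (dlOf (nat_lit 1) (nat_lit 0x20000800b4002009c00081b0703)))) 
(.nd (nat_lit 7) (.lf (nat_lit 1410212194) (dlOf (nat_lit 1) (nat_lit 0x4002000800081b0702))) 
(.lf (nat_lit 4094569442) (dlOf (nat_lit 1) (nat_lit 0x8008000400200020008055e83))))))))) 
(.nd (nat_lit 18) (.nd (nat_lit 26) (.nd (nat_lit 6) (.nd (nat_lit 8) (.nd (nat_lit 24) 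
(.nd (nat_lit 28) (.nd (nat_lit 10) (.nd (nat_lit 19) 
(.lf (nat_lit 37953570) (dlOf (nat_lit 1) (nat_lit 0x4004000200090f0182))) 
(.lf (nat_lit 45817890) (dlOf (nat_lit 2) (nat_lit 0x341890001f019360180)))) 
(.lf (nat_lit 2818784290) (dlOf (nat_lit 1) (nat_lit 0x3440020126000812bf02)))) (.nd (nat_lit 30) 
(.nd (nat_lit 31) (.lf (nat_lit 5100478498) (dlOf (nat_lit 1) (nat_lit 0x200180a0801))) 
(.lf (nat_lit 2952994850) (dlOf (nat_lit 3) (nat_lit 0x380a8054c04e08c002500ce01201f2808811f803807c201b03e000c83260010193c00601e00010005a8b000a000000000083da0008269c00213620008080603)))) 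
(.nd (nat_lit 27) (.lf (nat_lit 6174220322) (dlOf (nat_lit 1) (nat_lit 0x20028090181))) 
(.lf (nat_lit 1476599842) (dlOf (nat_lit 1) (nat_lit 0x180080010002000a00080a0603)))))) 
(.nd (nat_lit 20) (.nd (nat_lit 19) (.nd (nat_lit 22) 
(.lf (nat_lit 52633634) (dlOf (nat_lit 8) (nat_lit 0x9d5c00147520007b8c0008dc5e0048cea00024c600005c300103a900002c040005d48014ee30000088200167180000400800cb8c000008040045c6000002020036ea400000019560700))) 
(.lf (nat_lit 56827938) (dlOf (nat_lit 1) (nat_lit 0x400400020009770182)))) 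
(.lf (nat_lit 21700642) (dlOf (nat_lit 2) (nat_lit 0x9fd7a0000f818a60b80)))) (.nd (nat_lit 22) 
(.nd (nat_lit 7) (.lf (nat_lit 26419234) (dlOf (nat_lit 2) (nat_lit 0x14000000040200080008c40601))) 
(.lf (nat_lit 20133538) (dlOf (nat_lit 1) (nat_lit 0x100080018002000800089d9f83)))) 
(.nd (nat_lit 23) (.lf (nat_lit 22224930) (dlOf (nat_lit 1) (nat_lit 0xa0002002e0008aa0c02))) 
(.lf (nat_lit 30613538) (dlOf (nat_lit 1) (nat_lit 0x920028e40d01))))))) (.nd (nat_lit 7) 
(.nd (nat_lit 10) (.nd (nat_lit 11) 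
(.lf (nat_lit 4966261026) (dlOf (nat_lit 1) (nat_lit 0x20008090a81))) 
(.lf (nat_lit 8599842) (dlOf (nat_lit 1) (nat_lit 0x40040002000851ab82)))) (.nd (nat_lit 11) 
(.lf (nat_lit 2281911586) (dlOf (nat_lit 4) (nat_lit 0x40054002002600025040012015000900980009010002805400002040044004000400180a9782))) 
(.lf (nat_lit 2818784546) (dlOf (nat_lit 1) (nat_lit 0x1a0008010c00200aa000812c603))))) 
(.nd (nat_lit 9) (.nd (nat_lit 20) 
(.lf (nat_lit 3221432738) (dlOf (nat_lit 1) (nat_lit 0x520028114e81))) 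
(.lf (nat_lit 39004578) (dlOf (nat_lit 1) (nat_lit 0x20019194e81)))) 
(.lf (nat_lit 8597410) (dlOf (nat_lit 1) (nat_lit 0x100018517881)))))) (.nd (nat_lit 7) 
(.nd (nat_lit 21) (.nd (nat_lit 10) (.nd (nat_lit 19) 
(.lf (nat_lit 13836386) (dlOf (nat_lit 1) (nat_lit 0x400400020018750282))) 
(.lf (nat_lit 17506402) (dlOf (nat_lit 1) (nat_lit 0x4004000200088e0482)))) 
(.lf (nat_lit 38478946) (dlOf (nat_lit 1) (nat_lit 0x400200020009132982)))) (.nd (nat_lit 9) 
(.nd (nat_lit 10) (.lf (nat_lit 56828002) (dlOf (nat_lit 1) (nat_lit 0x400200020009770902))) 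
(.lf (nat_lit 44770402) (dlOf (nat_lit 1) (nat_lit 0x400200020009322982)))) 
(.lf (nat_lit 54209122) (dlOf (nat_lit 1) (nat_lit 0x40004003c0009655382))))) (.nd (nat_lit 10) 
(.nd (nat_lit 8) (.nd (nat_lit 24) 
(.lf (nat_lit 1881350370) (dlOf (nat_lit 1) (nat_lit 0x20028eb1b01))) 
(.lf (nat_lit 19079394) (dlOf (nat_lit 2) (nat_lit 0x22118c0005404000800200060008970582)))) 
(.lf (nat_lit 1344480226) (dlOf (nat_lit 1) (nat_lit 0x8008000400200020008802883)))) 
(.nd (nat_lit 8) (.nd (nat_lit 11) 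
(.lf (nat_lit 43197666) (dlOf (nat_lit 2) (nat_lit 0xeacc0004502000200292a2e01))) 
(.lf (nat_lit 208098) (dlOf (nat_lit 1) (nat_lit 0x20008006501)))) 
(.lf (nat_lit 5905786850) (dlOf (nat_lit 1) (nat_lit 0x400018144581))))))) (.nd (nat_lit 27) 
(.nd (nat_lit 9) (.nd (nat_lit 19) (.nd (nat_lit 6) 
(.lf (nat_lit 604184610) (dlOf (nat_lit 3) (nat_lit 0x3a0000005a81001201b0002800801b8008014800200020008080603))) 
(.lf (nat_lit 3825410530) (dlOf (nat_lit 4) (nat_lit 0xc9005805e802402f00000002e06019400b0074004805e80000005a0c03100160002702000c0028157301)))) 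
(.nd (nat_lit 20) 
(.lf (nat_lit 3557498914) (dlOf (nat_lit 1) (nat_lit 0x78008004800200140008230783))) 
(.lf (nat_lit 4095418402) (dlOf (nat_lit 1) (nat_lit 0x20008000c002000c00080b0b83))))) 
(.nd (nat_lit 7) (.nd (nat_lit 8) 
(.lf (nat_lit 6509768226) (dlOf (nat_lit 1) (nat_lit 0x20028147181))) 
(.lf (nat_lit 3556980514) (dlOf (nat_lit 1) (nat_lit 0x4002812a001)))) 
(.lf (nat_lit 3556979362) (dlOf (nat_lit 1) (nat_lit 0x400400020018128c82))))) (.nd (nat_lit 28) 
(.nd (nat_lit 9) (.nd (nat_lit 29) 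
(.lf (nat_lit 5570240546) (dlOf (nat_lit 1) (nat_lit 0x20028090181))) 
(.lf (nat_lit 5033369634) (dlOf (nat_lit 1) (nat_lit 0x260018090001)))) (.nd (nat_lit 8) 
(.lf (nat_lit 3422762530) (dlOf (nat_lit 1) (nat_lit 0x1400080054002002c00080a9c03))) 
(.lf (nat_lit 3422761762) (dlOf (nat_lit 1) (nat_lit 0x200280a8f81))))) (.nd (nat_lit 7) 
(.nd (nat_lit 6) (.nd (nat_lit 19) 
(.lf (nat_lit 3691192354) (dlOf (nat_lit 2) (nat_lit 0xf5803a07c401c00d70020045800c001ca1001b4004000600180a0602))) 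
(.lf (nat_lit 472588322) (dlOf (nat_lit 4) (nat_lit 0x1d04e000e82300004e080024138001a08c000130200040468001023000024080008002000a00089c0182)))) 
(.lf (nat_lit 3154325602) (dlOf (nat_lit 2) (nat_lit 0x101c001314080008008000400200020008157d83)))) 
(.nd (nat_lit 6) (.nd (nat_lit 19) 
(.lf (nat_lit 474161314) (dlOf (nat_lit 4) (nat_lit 0xc15200090a7800303dc000940c002c2a4001c14f000a07b80018248000861000302a4001814f000c07b8001041801100080008002001c00090e0583))) 
(.lf (nat_lit 6377119906) (dlOf (nat_lit 1) (nat_lit 0x14000280a2b81)))) 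
(.lf (nat_lit 1543711970) (dlOf (nat_lit 2) (nat_lit 0x1004a000601f00010028146500)))))))) 
(.nd (nat_lit 19) (.nd (nat_lit 31) (.nd (nat_lit 21) (.nd (nat_lit 20) (.nd (nat_lit 26) 
(.nd (nat_lit 27) (.lf (nat_lit 805773346) (dlOf (nat_lit 1) (nat_lit 0x8004000200081a0002))) 
(.lf (nat_lit 134684706) (dlOf (nat_lit 1) (nat_lit 0x800400020008090002)))) (.nd (nat_lit 6) 
(.lf (nat_lit 1409753122) (dlOf (nat_lit 1) (nat_lit 0x8008000800200020008090003))) 
(.lf (nat_lit 738664546) (dlOf (nat_lit 1) (nat_lit 0x400080004002001600080d0783))))) 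
(.nd (nat_lit 22) 
(.lf (nat_lit 26681378) (dlOf (nat_lit 2) (nat_lit 0xfa96800993f800529f10000e038c60600))) 
(.nd (nat_lit 25) (.lf (nat_lit 22487074) (dlOf (nat_lit 1) (nat_lit 0xc00400060008ae0502))) 
(.lf (nat_lit 56041506) (dlOf (nat_lit 2) (nat_lit 0xb8a7a0001f019710180)))))) (.nd (nat_lit 6) 
(.nd (nat_lit 9) (.nd (nat_lit 22) 
(.lf (nat_lit 2564130) (dlOf (nat_lit 3) (nat_lit 0x6afa0039981000157d001cc8080010008002000200040008170a03))) 
(.lf (nat_lit 15147042) (dlOf (nat_lit 3) (nat_lit 0x968640017e04048cf56006a3e400201ef8002d41800b80080098002003200087c0603)))) 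
(.lf (nat_lit 20395554) (dlOf (nat_lit 1) (nat_lit 0x80080004002000200089d9c03)))) (.nd (nat_lit 7) 
(.nd (nat_lit 10) (.lf (nat_lit 12001634) (dlOf (nat_lit 1) (nat_lit 0xc200086c0701))) 
(.lf (nat_lit 57091426) (dlOf (nat_lit 1) (nat_lit 0x2a0029793401)))) 
(.lf (nat_lit 23535842) (dlOf (nat_lit 1) (nat_lit 0x8008000400200020008b80483)))))) 
(.nd (nat_lit 8) (.nd (nat_lit 26) 
(.lf (nat_lit 2819039266) (dlOf (nat_lit 2) (nat_lit 0x940ec004e0700024037001201ac00940d0005805c002402d0012015c00900a8004a04f002402600128124009007a004803b002401880120060002402c004a0110025002801200000003a50000400400300018160602))) 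
(.nd (nat_lit 27) (.lf (nat_lit 3557236770) (dlOf (nat_lit 1) (nat_lit 0xa0018170181))) 
(.lf (nat_lit 4228325410) (dlOf (nat_lit 1) (nat_lit 0x400400020008090002))))) (.nd (nat_lit 6) 
(.nd (nat_lit 7) 
(.lf (nat_lit 3288803618) (dlOf (nat_lit 2) (nat_lit 0x280158000000800e00080010002002000080f4b83))) 
(.nd (nat_lit 20) 
(.lf (nat_lit 3221692834) (dlOf (nat_lit 7) (nat_lit 0x82000003a2010025000001d0c0801e800000e740400e00000073902002e0000039c010049007001bf408002000801e400200080008170783))) 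
(.lf (nat_lit 3493274018) (dlOf (nat_lit 1) (nat_lit 0x380018106b81))))) (.nd (nat_lit 27) 
(.lf (nat_lit 2416386402) (dlOf (nat_lit 1) (nat_lit 0x80080010002000400081b0703))) 
(.lf (nat_lit 2550604130) (dlOf (nat_lit 1) (nat_lit 0x80080010002000400081b0703))))))) 
(.nd (nat_lit 6) (.nd (nat_lit 20) (.nd (nat_lit 21) (.nd (nat_lit 24) 
(.lf (nat_lit 1343168546) (dlOf (nat_lit 1) (nat_lit 0x1400400040018190182))) 
(.lf (nat_lit 17768482) (dlOf (nat_lit 1) (nat_lit 0x400288f0d01)))) (.nd (nat_lit 9) 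
(.lf (nat_lit 11477026) (dlOf (nat_lit 1) (nat_lit 0x1600286a0681))) 
(.lf (nat_lit 472850978) (dlOf (nat_lit 2) (nat_lit 0xc2ca004d40200500018b18701))))) 
(.nd (nat_lit 22) (.nd (nat_lit 21) 
(.lf (nat_lit 27205666) (dlOf (nat_lit 1) (nat_lit 0x2c0028cc0681))) 
(.lf (nat_lit 473899042) (dlOf (nat_lit 2) (nat_lit 0x840cd00007018fc0180)))) (.nd (nat_lit 23) 
(.lf (nat_lit 23011362) (dlOf (nat_lit 2) (nat_lit 0x210c00037818b40500))) 
(.lf (nat_lit 14622754) (dlOf (nat_lit 1) (nat_lit 0x20018770181)))))) (.nd (nat_lit 21) 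
(.nd (nat_lit 7) (.nd (nat_lit 8) 
(.lf (nat_lit 59711586) (dlOf (nat_lit 1) (nat_lit 0x20019820901))) 
(.lf (nat_lit 2040162) (dlOf (nat_lit 2) (nat_lit 0x946a000150200080028150701)))) 
(.lf (nat_lit 34546658) (dlOf (nat_lit 1) (nat_lit 0x20008fb2881)))) (.nd (nat_lit 8) 
(.lf (nat_lit 32449634) (dlOf (nat_lit 1) (nat_lit 0x20008ef2981))) (.nd (nat_lit 11) 
(.lf (nat_lit 3088738) (dlOf (nat_lit 2) (nat_lit 0x44a00000a818200700))) 
(.lf (nat_lit 2754554210) (dlOf (nat_lit 1) (nat_lit 0x4004000200080f4e82))))))))))))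

end

end Pool.Agent.Lib.MP_5854e1_co.Cz

namespace Pool.Agent.Lib.MP_5854e1_co.Cz

noncomputable section

noncomputable def tz131 : DT := (.nd (nat_lit 13) (.nd (nat_lit 5) (.nd (nat_lit 6) 
(.nd (nat_lit 26) (.nd (nat_lit 18) (.nd (nat_lit 16) (.nd (nat_lit 20) (.nd (nat_lit 30) 
(.nd (nat_lit 29) (.nd (nat_lit 19) (.nd (nat_lit 21) (.nd (nat_lit 7) 
(.lf (nat_lit 21135362) (dlOf (nat_lit 1) (nat_lit 0x20008000800200040008a10003))) 
(.lf (nat_lit 4563569538) (dlOf (nat_lit 2) (nat_lit 0x14014000600880030038002760c006c004001e0018095c02)))) 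
(.nd (nat_lit 23) 
(.lf (nat_lit 52592642) (dlOf (nat_lit 1) (nat_lit 0xa80080010002000c0009550003))) 
(.lf (nat_lit 44204034) (dlOf (nat_lit 1) (nat_lit 0x25e00092d0001))))) (.nd (nat_lit 22) 
(.lf (nat_lit 134905858) (dlOf (nat_lit 2) (nat_lit 0x1400000000004016800200a800080d0002))) 
(.lf (nat_lit 4882434) (dlOf (nat_lit 1) (nat_lit 0x4004000200082d0002))))) (.nd (nat_lit 27) 
(.nd (nat_lit 28) (.lf (nat_lit 2684518402) (dlOf (nat_lit 2) (nat_lit 0x400b0065f818080000))) 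
(.lf (nat_lit 2952953858) (dlOf (nat_lit 4) (nat_lit 0x601800ed501001e00c0076a008005007003a8604005c00400220008030002)))) 
(.lf (nat_lit 4966219778) (dlOf (nat_lit 1) (nat_lit 0x400400020018060002))))) (.nd (nat_lit 28) 
(.nd (nat_lit 8) (.nd (nat_lit 27) 
(.lf (nat_lit 5368872962) (dlOf (nat_lit 5) (nat_lit 0x180140110004000c0280080c0200060140040581000400a802028080078008002400200060008060003))) 
(.lf (nat_lit 5503090690) (dlOf (nat_lit 5) (nat_lit 0x1801401d4a04000c02800e310200060140071801000400a8038bc080078008002400200060008060003)))) 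
(.lf (nat_lit 3221392642) (dlOf (nat_lit 1) (nat_lit 0xa0008116601)))) (.nd (nat_lit 7) 
(.nd (nat_lit 9) 
(.lf (nat_lit 1476558850) (dlOf (nat_lit 3) (nat_lit 0x42003c09d801c007600700270000069142003e003c094001c006e007000200000690c20105800802f8002057e0008050003))) 
(.lf (nat_lit 5637309954) (dlOf (nat_lit 1) (nat_lit 0x4004000200080d3682)))) 
(.lf (nat_lit 1342341506) (dlOf (nat_lit 1) (nat_lit 0x30008001c00200080008015a83)))))) 
(.nd (nat_lit 19) (.nd (nat_lit 22) (.nd (nat_lit 7) 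
(.lf (nat_lit 51545090) (dlOf (nat_lit 1) (nat_lit 0x20019512881))) 
(.lf (nat_lit 28475522) (dlOf (nat_lit 1) (nat_lit 0x400200020008da0482)))) (.nd (nat_lit 24) 
(.lf (nat_lit 47349762) (dlOf (nat_lit 2) (nat_lit 0x4bd300045de0061b41000100080008002000c00093d0003))) 
(.lf (nat_lit 30572546) (dlOf (nat_lit 1) (nat_lit 0x500080004002000c0008e40003))))) 
(.nd (nat_lit 22) (.nd (nat_lit 23) 
(.lf (nat_lit 3833858) (dlOf (nat_lit 3) (nat_lit 0x709700644c0800084fc000825c000203e00c88838230000))) 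
(.lf (nat_lit 45776898) (dlOf (nat_lit 1) (nat_lit 0x40019360001)))) 
(.lf (nat_lit 24805378) (dlOf (nat_lit 3) (nat_lit 0x10d79c01433020028bce00a01818bb0000)))))) 
(.nd (nat_lit 19) (.nd (nat_lit 27) (.nd (nat_lit 7) 
(.lf (nat_lit 5100506114) (dlOf (nat_lit 1) (nat_lit 0x4002000200080d5f02))) (.nd (nat_lit 8) 
(.lf (nat_lit 1879277698) (dlOf (nat_lit 1) (nat_lit 0x4002000200080c0102))) 
(.lf (nat_lit 20155266) (dlOf (nat_lit 1) (nat_lit 0x4002000200089d5c02))))) (.nd (nat_lit 29) 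
(.nd (nat_lit 30) 
(.lf (nat_lit 4697849858) (dlOf (nat_lit 2) (nat_lit 0x10090046b00800400080004002002400080a0003))) 
(.lf (nat_lit 1476624386) (dlOf (nat_lit 2) (nat_lit 0x5c07800bf702007400080a0001)))) 
(.nd (nat_lit 8) 
(.lf (nat_lit 3087237634) (dlOf (nat_lit 2) (nat_lit 0x3500d800094080048008006000200080008157f83))) 
(.lf (nat_lit 5234722050) (dlOf (nat_lit 1) (nat_lit 0x8004004600080d2f02)))))) (.nd (nat_lit 22) 
(.nd (nat_lit 29) (.nd (nat_lit 20) 
(.lf (nat_lit 1342930946) (dlOf (nat_lit 1) (nat_lit 0x400200020008110002))) 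
(.lf (nat_lit 1802242) (dlOf (nat_lit 3) (nat_lit 0x560b8001a9f800314da0168306000ac17000353f0006a9b402bf80c000400400160008140002)))) 
(.nd (nat_lit 27) 
(.lf (nat_lit 537624578) (dlOf (nat_lit 2) (nat_lit 0x7b0258032fc0800400080020002003c00080e0003))) 
(.lf (nat_lit 3893067778) (dlOf (nat_lit 1) (nat_lit 0x20018360001))))) (.nd (nat_lit 7) 
(.lf (nat_lit 4947970) (dlOf (nat_lit 1) (nat_lit 0x2f0004013000082d0002))) 
(.lf (nat_lit 23822466) (dlOf (nat_lit 1) (nat_lit 0x20008b80101))))))) (.nd (nat_lit 16) 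
(.nd (nat_lit 19) (.nd (nat_lit 28) (.nd (nat_lit 21) (.nd (nat_lit 27) 
(.lf (nat_lit 3221651458) (dlOf (nat_lit 2) (nat_lit 0xa046006aa018170000))) (.nd (nat_lit 29) 
(.lf (nat_lit 134643714) (dlOf (nat_lit 5) (nat_lit 0x18043000f01f8009004c01b200c004c08600d8502008402f0061d0100030178030900802200080028002005e0008090003))) 
(.lf (nat_lit 2818998274) (dlOf (nat_lit 3) (nat_lit 0x3501b0076a80800780d803b5004000c00400040008150002))))) 
(.nd (nat_lit 7) (.nd (nat_lit 20) 
(.lf (nat_lit 10911746) (dlOf (nat_lit 2) (nat_lit 0xac258009e40800c0008003000200020008640003))) 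
(.lf (nat_lit 16154626) (dlOf (nat_lit 3) (nat_lit 0x5062c0161a040020316000000200020018870001)))) 
(.lf (nat_lit 41320578) (dlOf (nat_lit 1) (nat_lit 0x40029233a01))))) (.nd (nat_lit 29) 
(.nd (nat_lit 27) (.lf (nat_lit 4563828738) (dlOf (nat_lit 2) (nat_lit 0x10019003a08180f0000))) 
(.lf (nat_lit 4698046466) (dlOf (nat_lit 2) (nat_lit 0x10019006750180f0000)))) (.nd (nat_lit 30) 
(.lf (nat_lit 805732354) (dlOf (nat_lit 2) (nat_lit 0xb102b00355008048000800e8002006800081a0003))) 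
(.lf (nat_lit 4026957826) (dlOf (nat_lit 1) (nat_lit 0x24004003c00080e0002)))))) (.nd (nat_lit 21) 
(.nd (nat_lit 20) (.lf (nat_lit 47087618) (dlOf (nat_lit 1) (nat_lit 0x200193a0001))) 
(.nd (nat_lit 23) (.lf (nat_lit 5773361154) (dlOf (nat_lit 1) (nat_lit 0x1200080c0001))) 
(.lf (nat_lit 10387458) (dlOf (nat_lit 1) (nat_lit 0x4002000200085d0002))))) (.nd (nat_lit 7) 
(.nd (nat_lit 11) (.lf (nat_lit 46039298) (dlOf (nat_lit 1) (nat_lit 0x2c0009380a81))) 
(.lf (nat_lit 19831042) (dlOf (nat_lit 1) (nat_lit 0x4004000600089da982)))) 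
(.lf (nat_lit 12484738) (dlOf (nat_lit 1) (nat_lit 0x4004000200086c0102)))))) (.nd (nat_lit 28) 
(.nd (nat_lit 23) (.nd (nat_lit 9) (.nd (nat_lit 27) 
(.lf (nat_lit 5906071554) (dlOf (nat_lit 2) (nat_lit 0x12024001900e800000100070008001c002002e0008190003))) 
(.lf (nat_lit 3892805634) (dlOf (nat_lit 2) (nat_lit 0x9012002c3c080040008002000200080008280003)))) 
(.lf (nat_lit 1745322498) (dlOf (nat_lit 1) (nat_lit 0x400400020008117b02)))) (.nd (nat_lit 19) 
(.nd (nat_lit 24) 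
(.lf (nat_lit 10977282) (dlOf (nat_lit 1) (nat_lit 0x10008000400200020008650003))) 
(.lf (nat_lit 27754498) (dlOf (nat_lit 1) (nat_lit 0x380018d20001)))) 
(.lf (nat_lit 14647298) (dlOf (nat_lit 2) (nat_lit 0x2793c00ed5018770000))))) (.nd (nat_lit 7) 
(.nd (nat_lit 20) (.nd (nat_lit 21) 
(.lf (nat_lit 5637636098) (dlOf (nat_lit 1) (nat_lit 0x100018130001))) 
(.lf (nat_lit 1344765954) (dlOf (nat_lit 1) (nat_lit 0x20018980001)))) 
(.lf (nat_lit 3491201026) (dlOf (nat_lit 1) (nat_lit 0x4c00200040008070002)))) 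
(.lf (nat_lit 1880064130) (dlOf (nat_lit 1) (nat_lit 0x6200186b0481))))))) (.nd (nat_lit 16) 
(.nd (nat_lit 28) (.nd (nat_lit 8) (.nd (nat_lit 18) (.nd (nat_lit 19) (.nd (nat_lit 27) 
(.lf (nat_lit 604143618) (dlOf (nat_lit 3) (nat_lit 0x11803001daa02009601800ed4018030000))) 
(.lf (nat_lit 5033328642) (dlOf (nat_lit 1) (nat_lit 0x400400020018060002)))) 
(.lf (nat_lit 202014722) (dlOf (nat_lit 2) (nat_lit 0x1400000000004016800200a800080d0002)))) 
(.nd (nat_lit 9) (.nd (nat_lit 19) 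
(.lf (nat_lit 3288760322) (dlOf (nat_lit 1) (nat_lit 0x24004003c00080e0002))) 
(.lf (nat_lit 2753462274) (dlOf (nat_lit 1) (nat_lit 0x40028090001)))) 
(.lf (nat_lit 2752414210) (dlOf (nat_lit 2) (nat_lit 0x224700014018017f80))))) (.nd (nat_lit 27) 
(.nd (nat_lit 7) 
(.lf (nat_lit 1678147842) (dlOf (nat_lit 3) (nat_lit 0x602d0004e0100030168002680801e8008012c002002c00081a0483))) 
(.nd (nat_lit 18) (.lf (nat_lit 4362240386) (dlOf (nat_lit 1) (nat_lit 0x20018015a81))) 
(.lf (nat_lit 1678147970) (dlOf (nat_lit 29) (nat_lit 0x13801400ec502004401300050090027002801d880c004c02400a600a0075f82004e005003af808027002801d7804008801400eb902007400a0075a81004f005003ad008027002801d5c0401480ac00eaa0200940560075081005102b003a580802e8158007002600e360400a0056001d0098038b4100228158007002600e220400020130070a01001502b000e004c01c220801240ac003a013007080200210098038140800d81580133c0401380ac00993020098056004c501004c02b000e004c0130c0801300ac002e013004c282004c02b0009804c012ea0801300ac001a013004ba0200250098025cc0800e004c012e404003c004003e00081a0782)))))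 
(.nd (nat_lit 7) (.lf (nat_lit 2885845250) (dlOf (nat_lit 1) (nat_lit 0x200080b0481))) 
(.nd (nat_lit 29) 
(.lf (nat_lit 201752962) (dlOf (nat_lit 2) (nat_lit 0x1e00ec019dc04019800400e20008090782))) 
(.lf (nat_lit 3959849346) (dlOf (nat_lit 25) (nat_lit 0xc023003b8c080b2002801d8a04059001400ec40201e400a0075f81008f005003ae40807b002801d6a04021801400eb40200ea0460027022803aa8100368118012808a00ea10400e60460027022803a581003a011801ca004000808c00e460200020460072081007a023001e011401c6c0801d808c00880450071682000b02300388808005811801c0e0401d808c00e060200d000e0065501002c0070032a40801100380194c04009001c00ca50200e2046004c9810008023002628080018008001400200340008170783))))))) 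
(.nd (nat_lit 29) (.nd (nat_lit 7) (.nd (nat_lit 9) (.nd (nat_lit 19) 
(.lf (nat_lit 3691151362) (dlOf (nat_lit 4) (nat_lit 0xe0011004d806404a0012010600000d228400d9011004f80640498012011000000d218400120110068a4080150008001400200060008050003))) 
(.lf (nat_lit 3557457922) (dlOf (nat_lit 1) (nat_lit 0x540028210001)))) 
(.lf (nat_lit 469926402) (dlOf (nat_lit 1) (nat_lit 0x80028017f81)))) (.nd (nat_lit 8) 
(.lf (nat_lit 474121858) (dlOf (nat_lit 1) (nat_lit 0x80080004002000200090e3a03))) (.nd (nat_lit 9) 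
(.lf (nat_lit 469926274) (dlOf (nat_lit 1) (nat_lit 0x30008001c00200080008015a83))) 
(.lf (nat_lit 2617414530) (dlOf (nat_lit 1) (nat_lit 0x1400280a9001)))))) (.nd (nat_lit 18) 
(.nd (nat_lit 7) (.nd (nat_lit 19) 
(.lf (nat_lit 5301764098) (dlOf (nat_lit 1) (nat_lit 0x20018090001))) 
(.lf (nat_lit 4095377410) (dlOf (nat_lit 1) (nat_lit 0x300080004002000600080a0003)))) 
(.lf (nat_lit 4228022658) (dlOf (nat_lit 1) (nat_lit 0x20018015a81)))) (.nd (nat_lit 19) 
(.nd (nat_lit 27) 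
(.lf (nat_lit 3020324866) (dlOf (nat_lit 2) (nat_lit 0xa018000380880161a08001400200020008250002))) 
(.lf (nat_lit 4228284418) (dlOf (nat_lit 1) (nat_lit 0x8008000400200020008090003)))) 
(.lf (nat_lit 6377340930) (dlOf (nat_lit 1) (nat_lit 0x1200080c0001))))))) (.nd (nat_lit 27) 
(.nd (nat_lit 18) (.nd (nat_lit 28) (.nd (nat_lit 7) (.nd (nat_lit 10) 
(.lf (nat_lit 68386818) (dlOf (nat_lit 2) (nat_lit 0x641c400340b600536828570000))) 
(.lf (nat_lit 2751693826) (dlOf (nat_lit 1) (nat_lit 0x20008002881)))) 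
(.lf (nat_lit 4899179394) (dlOf (nat_lit 2) (nat_lit 0x8032000428180d5c00)))) (.nd (nat_lit 7) 
(.nd (nat_lit 31) 
(.lf (nat_lit 1410039810) (dlOf (nat_lit 2) (nat_lit 0x7b025801c540800400080020002003c00080e0003))) 
(.lf (nat_lit 3557523458) (dlOf (nat_lit 2) (nat_lit 0xc08c0047f0200020008240001)))) 
(.lf (nat_lit 6241356674) (dlOf (nat_lit 1) (nat_lit 0x58004000200180d5c02))))) (.nd (nat_lit 32) 
(.nd (nat_lit 9) (.nd (nat_lit 28) 
(.lf (nat_lit 2753003522) (dlOf (nat_lit 1) (nat_lit 0x1400200040008070002))) 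
(.lf (nat_lit 4095180802) (dlOf (nat_lit 1) (nat_lit 0x10002000a0008070002)))) 
(.lf (nat_lit 2752479746) (dlOf (nat_lit 1) (nat_lit 0xa0018017f81)))) (.nd (nat_lit 28) 
(.nd (nat_lit 31) 
(.lf (nat_lit 4362567682) (dlOf (nat_lit 1) (nat_lit 0x2180080004002003c0008090003))) 
(.lf (nat_lit 6510051330) (dlOf (nat_lit 2) (nat_lit 0x12025001900e800000100070008001c002002e0008190003)))) 
(.lf (nat_lit 6241615874) (dlOf (nat_lit 1) (nat_lit 0x100018130001)))))) (.nd (nat_lit 29) 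
(.nd (nat_lit 18) (.nd (nat_lit 19) (.nd (nat_lit 30) 
(.lf (nat_lit 469991426) (dlOf (nat_lit 2) (nat_lit 0x41e300000018020000))) 
(.lf (nat_lit 3691216898) (dlOf (nat_lit 1) (nat_lit 0x1600180a0001)))) 
(.lf (nat_lit 470515714) (dlOf (nat_lit 1) (nat_lit 0x400200020008110002)))) (.nd (nat_lit 20) 
(.lf (nat_lit 201818114) (dlOf (nat_lit 1) (nat_lit 0x1800200320008090002))) 
(.lf (nat_lit 471302146) (dlOf (nat_lit 1) (nat_lit 0x1c00082e0001))))) (.nd (nat_lit 21) 
(.nd (nat_lit 7) 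
(.lf (nat_lit 1812168706) (dlOf (nat_lit 2) (nat_lit 0xc010802ff0080048008003800200320008160003))) 
(.nd (nat_lit 9) (.lf (nat_lit 1006862466) (dlOf (nat_lit 1) (nat_lit 0x4002000200080c0102))) 
(.lf (nat_lit 6376360578) (dlOf (nat_lit 1) (nat_lit 0x400200020008095482))))) (.nd (nat_lit 8) 
(.nd (nat_lit 18) (.lf (nat_lit 1009483778) (dlOf (nat_lit 1) (nat_lit 0x4002006400091a0002))) 
(.lf (nat_lit 1009221634) (dlOf (nat_lit 1) (nat_lit 0x30002000600090a0002)))) 
(.lf (nat_lit 1008959746) (dlOf (nat_lit 2) (nat_lit 0x20063001102f800594100088008000400200060009000a83))))))))) 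
(.nd (nat_lit 16) (.nd (nat_lit 8) (.nd (nat_lit 26) (.nd (nat_lit 18) (.nd (nat_lit 7) 
(.nd (nat_lit 28) (.nd (nat_lit 11) 
(.lf (nat_lit 134905922) (dlOf (nat_lit 3) (nat_lit 0x802a00061020038031001e0088000881000100080080002002400080d0c03))) 
(.lf (nat_lit 5905745986) (dlOf (nat_lit 1) (nat_lit 0x20028144701)))) (.nd (nat_lit 20) 
(.lf (nat_lit 4026695746) (dlOf (nat_lit 11) (nat_lit 0x4d0100000fc0802100800007a0400540260003c0200b8020000168100390100000b00802000800001a0401000400000a020030020001700580001c1000d008000340160000604004c0200025005800000100280008012400200560008030e03))) 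
(.lf (nat_lit 3490873410) (dlOf (nat_lit 2) (nat_lit 0x20000000000200060008030e01))))) 
(.nd (nat_lit 10) 
(.lf (nat_lit 3758264514) (dlOf (nat_lit 1) (nat_lit 0x8008000400200020008127f03))) 
(.nd (nat_lit 22) 
(.lf (nat_lit 1346012354) (dlOf (nat_lit 2) (nat_lit 0x105a40002604000c00200020008e22d02))) 
(.lf (nat_lit 58361026) (dlOf (nat_lit 2) (nat_lit 0xb33f00007c080158008004c002005c00097e2d03)))))) 
(.nd (nat_lit 23) (.nd (nat_lit 27) (.nd (nat_lit 25) (.nd (nat_lit 28) 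
(.lf (nat_lit 4295393346) (dlOf (nat_lit 6) (nat_lit 0x48a0160001c8100f900b0000e00805680580006c0402b002c00035020096016000018181c0d00))) 
(.lf (nat_lit 5637570626) (dlOf (nat_lit 1) (nat_lit 0x1c004000e0018111702)))) 
(.lf (nat_lit 33980482) (dlOf (nat_lit 1) (nat_lit 0x400400020008f90602)))) (.nd (nat_lit 9) 
(.lf (nat_lit 4429611074) (dlOf (nat_lit 6) (nat_lit 0x48a0150001c8100f900a8000e00805680540006c0402b002a00035020096015000018181c0d00))) 
(.lf (nat_lit 134644290) (dlOf (nat_lit 2) (nat_lit 0x5f805c000120200f60018091081))))) 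
(.nd (nat_lit 7) (.nd (nat_lit 19) 
(.lf (nat_lit 26640450) (dlOf (nat_lit 2) (nat_lit 0x970a8000ec0800100080014002000a0008c50583))) 
(.lf (nat_lit 13533250) (dlOf (nat_lit 1) (nat_lit 0x100008730c01)))) (.nd (nat_lit 10) 
(.lf (nat_lit 14057666) (dlOf (nat_lit 1) (nat_lit 0x8008000400200020008750403))) 
(.lf (nat_lit 59147458) (dlOf (nat_lit 2) (nat_lit 0x1133380007c0800100080068002000200097e2d03))))))) 
(.nd (nat_lit 27) (.nd (nat_lit 31) (.nd (nat_lit 19) 
(.lf (nat_lit 4630675522) (dlOf (nat_lit 2) (nat_lit 0x100580020e04000400200040008051702))) 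
(.nd (nat_lit 28) 
(.lf (nat_lit 4362764354) (dlOf (nat_lit 2) (nat_lit 0x700cc0009e040004002002600080f1882))) 
(.lf (nat_lit 1409974338) (dlOf (nat_lit 1) (nat_lit 0x2c002001600080a0e02))))) (.nd (nat_lit 9) 
(.nd (nat_lit 20) 
(.lf (nat_lit 3288498242) (dlOf (nat_lit 11) (nat_lit 0x4d0100000fc0802100800007a0400540260003c0200b8020000180100390100000bc0802000800001a0401000400000a020030020001700580001c1000d008000340160000604004c0200025005800000100280008012400200560008030e03))) 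
(.lf (nat_lit 2752675906) (dlOf (nat_lit 2) (nat_lit 0x20000000000200060008030e01)))) 
(.lf (nat_lit 2751633986) (dlOf (nat_lit 12) (nat_lit 0x21090000c408002884800060040008424000415400017820017109000807e800402aa001e1380001704000a1090000b40800a084800382aa001a1380000303000110900001408007884800483f40012155000709c00001020007884800303f40000304002a21200160fd000008100098848000000400280040034001800b502))))) 
(.nd (nat_lit 9) (.nd (nat_lit 10) (.nd (nat_lit 18) 
(.lf (nat_lit 202014786) (dlOf (nat_lit 3) (nat_lit 0x802c00064020038031001e0088000881000100080080002002400080d0c03))) 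
(.lf (nat_lit 473858114) (dlOf (nat_lit 2) (nat_lit 0x3a14c000aa018fc0600)))) (.nd (nat_lit 7) 
(.lf (nat_lit 5301765186) (dlOf (nat_lit 1) (nat_lit 0x80080030002001a0008092883))) 
(.lf (nat_lit 1008633026) (dlOf (nat_lit 1) (nat_lit 0x60018e92d01))))) (.nd (nat_lit 18) 
(.nd (nat_lit 29) (.lf (nat_lit 469926466) (dlOf (nat_lit 1) (nat_lit 0x80028018c81))) 
(.lf (nat_lit 4228022850) (dlOf (nat_lit 7) (nat_lit 0x42032005218100230190029080800600c8013280400840640098c02000c032004c58100210190025c4080068008001800200160008018503)))) 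
(.lf (nat_lit 201753154) (dlOf (nat_lit 2) (nat_lit 0x5f805c000110200f60018091081))))))) 
(.nd (nat_lit 28) (.nd (nat_lit 29) (.nd (nat_lit 18) (.nd (nat_lit 7) (.nd (nat_lit 26) 
(.lf (nat_lit 134381890) (dlOf (nat_lit 1) (nat_lit 0x20028014c01))) 
(.lf (nat_lit 201490754) (dlOf (nat_lit 1) (nat_lit 0x20028014c01)))) 
(.lf (nat_lit 169922) (dlOf (nat_lit 2) (nat_lit 0x653f002be8080080008005c0020006000800a603)))) 
(.nd (nat_lit 7) (.nd (nat_lit 11) 
(.lf (nat_lit 12484930) (dlOf (nat_lit 5) (nat_lit 0x1889c00133f880014c10007a270000a40400491380004f0200847e100031ec0000ac10010000800e0002002600086c0603))) 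
(.lf (nat_lit 8821058) (dlOf (nat_lit 1) (nat_lit 0xe002851ab81)))) 
(.lf (nat_lit 4362502594) (dlOf (nat_lit 1) (nat_lit 0x2400200080008090902))))) (.nd (nat_lit 7) 
(.nd (nat_lit 9) (.lf (nat_lit 5905746242) (dlOf (nat_lit 1) (nat_lit 0x400400020008144d02))) 
(.nd (nat_lit 27) (.lf (nat_lit 537036610) (dlOf (nat_lit 1) (nat_lit 0x20028003e01))) 
(.lf (nat_lit 671254338) (dlOf (nat_lit 1) (nat_lit 0x4002000c0008143e02))))) (.nd (nat_lit 18) 
(.lf (nat_lit 2753200578) (dlOf (nat_lit 1) (nat_lit 0xe8008044800201420008090903))) 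
(.lf (nat_lit 1678148034) (dlOf (nat_lit 2) (nat_lit 0x1600e000288181a0900)))))) (.nd (nat_lit 18) 
(.nd (nat_lit 7) (.nd (nat_lit 9) (.nd (nat_lit 22) 
(.lf (nat_lit 3624042818) (dlOf (nat_lit 2) (nat_lit 0x21a0000002b0180b0600))) 
(.lf (nat_lit 3494019394) (dlOf (nat_lit 2) (nat_lit 0x800fc000ac04000c002000400081b0602)))) 
(.lf (nat_lit 6241291074) (dlOf (nat_lit 1) (nat_lit 0x2200280d5c01)))) (.nd (nat_lit 10) 
(.lf (nat_lit 3491398082) (dlOf (nat_lit 1) (nat_lit 0xe8008044800201420008090903))) 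
(.lf (nat_lit 3020068290) (dlOf (nat_lit 2) (nat_lit 0x801c000200200160028129a01))))) 
(.nd (nat_lit 7) (.nd (nat_lit 9) (.nd (nat_lit 10) 
(.lf (nat_lit 1410236738) (dlOf (nat_lit 1) (nat_lit 0xc002000600081b0602))) 
(.lf (nat_lit 1345750338) (dlOf (nat_lit 1) (nat_lit 0x20018dd3301)))) 
(.lf (nat_lit 2550564674) (dlOf (nat_lit 3) (nat_lit 0x1a01200080088005003c002801a0002e08000201200040088002003c001c01a0002d08000a00080f3e01)))) 
(.nd (nat_lit 26) (.lf (nat_lit 805732802) (dlOf (nat_lit 2) (nat_lit 0x1600e000288181a0900))) 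
(.lf (nat_lit 4228284866) (dlOf (nat_lit 1) (nat_lit 0x2400200080008090902)))))))) 
(.nd (nat_lit 28) (.nd (nat_lit 18) (.nd (nat_lit 26) (.nd (nat_lit 7) (.nd (nat_lit 27) 
(.nd (nat_lit 32) (.nd (nat_lit 8) 
(.lf (nat_lit 10190914) (dlOf (nat_lit 1) (nat_lit 0x4002000200085c0e02))) 
(.lf (nat_lit 2326850) (dlOf (nat_lit 5) (nat_lit 0x9270b0001040809ab3b8000660402319dc00032020016cee00018818150600)))) 
(.nd (nat_lit 10) (.lf (nat_lit 4295196738) (dlOf (nat_lit 1) (nat_lit 0x4004000200180a0e02))) 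
(.lf (nat_lit 4832068674) (dlOf (nat_lit 1) (nat_lit 0x80080044002001200080d2883))))) 
(.nd (nat_lit 8) (.nd (nat_lit 32) 
(.lf (nat_lit 134447170) (dlOf (nat_lit 6) (nat_lit 0x1f020800070082b60104053807a00120300000d8300070208000540800100c400080220000304003a031001a008800000100f100080240002019a0008020783))) 
(.lf (nat_lit 4429414466) (dlOf (nat_lit 2) (nat_lit 0xa01100030038000a81000580080020002000600080a0d03)))) 
(.lf (nat_lit 671318338) (dlOf (nat_lit 1) (nat_lit 0x8008000400200020008154c03))))) 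
(.nd (nat_lit 9) (.nd (nat_lit 8) 
(.lf (nat_lit 58426562) (dlOf (nat_lit 1) (nat_lit 0x6c004001200097e2d02))) 
(.lf (nat_lit 4832069058) (dlOf (nat_lit 1) (nat_lit 0x300080008002000400080d3603)))) 
(.nd (nat_lit 11) (.lf (nat_lit 8094402) (dlOf (nat_lit 1) (nat_lit 0x140028511f01))) 
(.lf (nat_lit 2147715778) (dlOf (nat_lit 1) (nat_lit 0x600280e5801)))))) (.nd (nat_lit 8) 
(.nd (nat_lit 20) (.nd (nat_lit 31) 
(.lf (nat_lit 201556034) (dlOf (nat_lit 6) (nat_lit 0x1f020800068082b60104053807a00120300000c8300070208000540800100c400080220000304003a031001a008800000100f100080240002019a0008020783))) 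
(.lf (nat_lit 2349039682) (dlOf (nat_lit 2) (nat_lit 0xc01e0095802000a0018090001)))) 
(.nd (nat_lit 7) 
(.lf (nat_lit 2752741442) (dlOf (nat_lit 6) (nat_lit 0x9d0000000380806b80000000e0402b8000000060200c20000000281002d073006d000000000080380002001c0008030e02))) 
(.lf (nat_lit 2754842306) (dlOf (nat_lit 2) (nat_lit 0xb0220000c00800100080004002000400080f7283))))) 
(.nd (nat_lit 7) (.nd (nat_lit 22) 
(.lf (nat_lit 1677951298) (dlOf (nat_lit 1) (nat_lit 0x5400400ea0008124c02))) 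
(.lf (nat_lit 2755887426) (dlOf (nat_lit 3) (nat_lit 0x203300002c020062198000150181b0600)))) 
(.lf (nat_lit 69960130) (dlOf (nat_lit 1) (nat_lit 0x1c0028e27a81)))))) (.nd (nat_lit 20) 
(.nd (nat_lit 8) (.nd (nat_lit 19) (.nd (nat_lit 21) 
(.lf (nat_lit 1611104322) (dlOf (nat_lit 2) (nat_lit 0x120280004040800700080068002002800080e1703))) 
(.lf (nat_lit 2588738) (dlOf (nat_lit 1) (nat_lit 0x80080014002000e0008170d03)))) (.nd (nat_lit 23) 
(.lf (nat_lit 21987394) (dlOf (nat_lit 3) (nat_lit 0x1000000114080018000000000400a400200560008a80e02))) 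
(.lf (nat_lit 13598786) (dlOf (nat_lit 6) (nat_lit 0x81c63003edeb00018410021718c010f7ac0006004004fc630028deb0000a410022f18c011b7ac0002204004fc630028deb000000100028008006400200520008730c03))))) 
(.nd (nat_lit 7) (.nd (nat_lit 9) 
(.lf (nat_lit 1678213442) (dlOf (nat_lit 2) (nat_lit 0x79011c032806a0052034000158381a0600))) 
(.lf (nat_lit 493378) (dlOf (nat_lit 4) (nat_lit 0xba440007d200000d010008691000234800021a3a000fced8000b820000e91000434800005a3a0002ced8000b4200028008013800200080008003e03)))) 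
(.lf (nat_lit 498626) (dlOf (nat_lit 1) (nat_lit 0x40040002001800be02))))) (.nd (nat_lit 19) 
(.nd (nat_lit 21) 
(.lf (nat_lit 9928770) (dlOf (nat_lit 5) (nat_lit 0x21d600010e50001071400202f00020a08000e1d600070e50002071400282f0002090800161d600090e500068714002c2f00020808000a1d600090e500060714002c2f00020708000a0008591701))) 
(.nd (nat_lit 26) (.lf (nat_lit 3637314) (dlOf (nat_lit 1) (nat_lit 0x400200020008210e02))) 
(.lf (nat_lit 2755100738) (dlOf (nat_lit 2) (nat_lit 0x3301a0019408400c2023006800f0000182002380080044002000e0008110783))))) 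
(.nd (nat_lit 7) (.nd (nat_lit 8) 
(.lf (nat_lit 14647362) (dlOf (nat_lit 1) (nat_lit 0xa8008005000200840008770583))) 
(.lf (nat_lit 2755625282) (dlOf (nat_lit 2) (nat_lit 0x132022000278181b0600)))) (.nd (nat_lit 21) 
(.lf (nat_lit 60785858) (dlOf (nat_lit 1) (nat_lit 0x80080004002000200098c2d03))) 
(.lf (nat_lit 41911490) (dlOf (nat_lit 1) (nat_lit 0x100019242d01)))))))) (.nd (nat_lit 8) 
(.nd (nat_lit 20) (.nd (nat_lit 26) (.nd (nat_lit 10) (.nd (nat_lit 27) 
(.lf (nat_lit 1342406722) (dlOf (nat_lit 3) (nat_lit 0x6b838e0000602044c1c700910de800000100060008005c002001a0008020783))) 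
(.lf (nat_lit 6308462658) (dlOf (nat_lit 1) (nat_lit 0x2e00080c0d81)))) (.nd (nat_lit 9) 
(.lf (nat_lit 5234721858) (dlOf (nat_lit 1) (nat_lit 0x80080048002000c00080d2883))) 
(.lf (nat_lit 5234722370) (dlOf (nat_lit 2) (nat_lit 0x500c000000080028008005c002000600080d3803))))) 
(.nd (nat_lit 21) (.nd (nat_lit 27) 
(.lf (nat_lit 5704482882) (dlOf (nat_lit 1) (nat_lit 0x2e00080c0d81))) 
(.lf (nat_lit 469991490) (dlOf (nat_lit 3) (nat_lit 0x6b838e0000602044c1c700910de800000100060008005c002001a0008020783)))) 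
(.nd (nat_lit 7) 
(.lf (nat_lit 472612930) (dlOf (nat_lit 9) (nat_lit 0x70364003011a000207c001248300050468007e80800f0234003de04001427600040cd000404b001981d400780e6001c70a0002096001d03a800081cc003860c00380ea001bf02001a075000de81000403a800681cc0037808001c004002200089c0602))) 
(.lf (nat_lit 472089794) (dlOf (nat_lit 1) (nat_lit 0x60028802d01)))))) (.nd (nat_lit 18) 
(.nd (nat_lit 27) (.nd (nat_lit 7) 
(.lf (nat_lit 3490938946) (dlOf (nat_lit 6) (nat_lit 0x9d0000000380806b80000000e0402b8000000060200c20000000281002d05b006d000000000080380002001c0008030e02))) 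
(.lf (nat_lit 1346077890) (dlOf (nat_lit 1) (nat_lit 0x400400020018e22d02)))) (.nd (nat_lit 26) 
(.lf (nat_lit 5773164610) (dlOf (nat_lit 1) (nat_lit 0x80080004002000200080b0583))) 
(.lf (nat_lit 6377144386) (dlOf (nat_lit 1) (nat_lit 0x80080004002000200080b0583))))) 
(.nd (nat_lit 19) 
(.lf (nat_lit 3493298242) (dlOf (nat_lit 2) (nat_lit 0x3301a0019408400c2023006800f0000182002380080044002000e0008110783))) 
(.lf (nat_lit 1344241730) (dlOf (nat_lit 1) (nat_lit 0x400400100008520082)))))) (.nd (nat_lit 18) 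
(.nd (nat_lit 10) (.nd (nat_lit 22) (.nd (nat_lit 26) 
(.lf (nat_lit 805536066) (dlOf (nat_lit 1) (nat_lit 0x5400400ea0008124c02))) 
(.lf (nat_lit 1543733570) (dlOf (nat_lit 1) (nat_lit 0x8008000400200020008154c03)))) 
(.lf (nat_lit 3494084930) (dlOf (nat_lit 4) (nat_lit 0x98444000ac04003c21e00da107000f07d8000b41803d043c021820e012c0fb000158381b0600)))) 
(.nd (nat_lit 7) (.nd (nat_lit 9) 
(.lf (nat_lit 3489897794) (dlOf (nat_lit 4) (nat_lit 0x1c43f801241fb0034102006e0fd0013a40803807e8009b0040088004000a000800c902))) 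
(.lf (nat_lit 3557005122) (dlOf (nat_lit 1) (nat_lit 0xc80040032000812a102)))) 
(.lf (nat_lit 5234722242) (dlOf (nat_lit 1) (nat_lit 0x280080008002000a00080d3603))))) 
(.nd (nat_lit 19) (.nd (nat_lit 29) (.nd (nat_lit 27) 
(.lf (nat_lit 2416410946) (dlOf (nat_lit 3) (nat_lit 0x200f000210100430078001000800100080004002000200081b0603))) 
(.lf (nat_lit 2550628674) (dlOf (nat_lit 3) (nat_lit 0x200f0002481004300780011c0800100080004002000200081b0603)))) 
(.nd (nat_lit 7) 
(.lf (nat_lit 805798210) (dlOf (nat_lit 2) (nat_lit 0x79011c032806a0052034000150381a0600))) 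
(.lf (nat_lit 872907202) (dlOf (nat_lit 3) (nat_lit 0x70228003010c004800000558060002045000101f0015441001180080034002002c00080f7a83))))) 
(.nd (nat_lit 9) (.lf (nat_lit 3493822786) (dlOf (nat_lit 2) (nat_lit 0x1320220002b0181b0600))) 
(.lf (nat_lit 3492775746) (dlOf (nat_lit 3) (nat_lit 0x801140006c0400180380002d02000600280f3e01)))))))))) 
(.nd (nat_lit 16) (.nd (nat_lit 7) (.nd (nat_lit 18) (.nd (nat_lit 28) (.nd (nat_lit 8) 
(.nd (nat_lit 19) (.nd (nat_lit 22) (.nd (nat_lit 26) (.nd (nat_lit 9) (.nd (nat_lit 27) 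
(.lf (nat_lit 2684518434) (dlOf (nat_lit 4) (nat_lit 0x2c00700090000000e40800a801c002000000037820008007000088080150008001c002000a0008080503))) 
(.lf (nat_lit 6039961634) (dlOf (nat_lit 3) (nat_lit 0xb01a800480d000200000004b060014035000d01a00048000000780c006800400060018070502)))) 
(.lf (nat_lit 166434) (dlOf (nat_lit 1) (nat_lit 0xa0028005101)))) (.nd (nat_lit 20) 
(.lf (nat_lit 2348974114) (dlOf (nat_lit 1) (nat_lit 0x60008070681))) 
(.lf (nat_lit 2752675874) (dlOf (nat_lit 2) (nat_lit 0xc0448000000800e8008001400200340008030983))))) 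
(.nd (nat_lit 6) (.nd (nat_lit 23) 
(.lf (nat_lit 56786978) (dlOf (nat_lit 1) (nat_lit 0x400200040009750182))) 
(.lf (nat_lit 14843938) (dlOf (nat_lit 13) (nat_lit 0x3bcd1000e8687004a342001d997401dccb8007865b00cf3298037194801c0c8c00b0645009331a003318b40348c32009460100232fd002b16840150b140098588005b2c3800916180384b0201a258000012bc006914a80348a4401a450a00cd28080629400033c9d8018a4eb00d224a006d124c026c80001423e100cd1ef003b8f7400407ae01a418b00d2021006900f40003aa001c0ca6009a63400203008038940401c49d800e24940016200001a0f8400038200150c680001b0200d06340000c0100c32bc002a15c801a07d80001606000c68400a72bc00240fb00002a0c00ccaf00001402003e578000098100082bc0000440804f15e000020040040af00000f02006463a001631a00000010045800801e000201440008780603)))) 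
(.lf (nat_lit 38962274) (dlOf (nat_lit 2) (nat_lit 0x75fe000138080108008002c002000e0009192983))))) 
(.nd (nat_lit 22) (.nd (nat_lit 23) (.nd (nat_lit 26) 
(.lf (nat_lit 3893002274) (dlOf (nat_lit 1) (nat_lit 0x48004002000082c0582))) 
(.lf (nat_lit 1678409762) (dlOf (nat_lit 2) (nat_lit 0x6056000d7818210480)))) 
(.lf (nat_lit 42631202) (dlOf (nat_lit 1) (nat_lit 0x8008002000200020009260183)))) (.nd (nat_lit 6) 
(.nd (nat_lit 24) (.lf (nat_lit 4882466) (dlOf (nat_lit 1) (nat_lit 0x800082d0181))) 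
(.lf (nat_lit 21659682) (dlOf (nat_lit 1) (nat_lit 0x10008001800200020008a60b83)))) 
(.lf (nat_lit 38437986) (dlOf (nat_lit 1) (nat_lit 0x41c00201c80009132982)))))) (.nd (nat_lit 6) 
(.nd (nat_lit 11) (.nd (nat_lit 20) 
(.lf (nat_lit 1208123682) (dlOf (nat_lit 2) (nat_lit 0x40540008a0200e20028090a81))) 
(.lf (nat_lit 41058594) (dlOf (nat_lit 1) (nat_lit 0x5a0019218001)))) (.nd (nat_lit 26) 
(.lf (nat_lit 170274) (dlOf (nat_lit 1) (nat_lit 0x40040002000800ab82))) 
(.lf (nat_lit 2751633698) (dlOf (nat_lit 1) (nat_lit 0x6002800ab81))))) (.nd (nat_lit 11) 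
(.nd (nat_lit 10) (.lf (nat_lit 2261346) (dlOf (nat_lit 1) (nat_lit 0x400200020008150702))) 
(.lf (nat_lit 165218) (dlOf (nat_lit 2) (nat_lit 0x60da00014018003400)))) (.nd (nat_lit 12) 
(.lf (nat_lit 5435984226) (dlOf (nat_lit 3) (nat_lit 0x6011006e30100010088036a0080008008000800200020008094e83))) 
(.lf (nat_lit 2751633762) (dlOf (nat_lit 1) (nat_lit 0x40040002000800ab82))))))) (.nd (nat_lit 30) 
(.nd (nat_lit 19) (.nd (nat_lit 27) (.nd (nat_lit 12) 
(.lf (nat_lit 2483191842) (dlOf (nat_lit 1) (nat_lit 0x60008070681))) 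
(.lf (nat_lit 3020066850) (dlOf (nat_lit 1) (nat_lit 0x60018127b01)))) (.nd (nat_lit 6) 
(.nd (nat_lit 8) (.lf (nat_lit 5301764130) (dlOf (nat_lit 1) (nat_lit 0x20018090001))) 
(.lf (nat_lit 2550300962) (dlOf (nat_lit 1) (nat_lit 0x400400020008047802)))) 
(.lf (nat_lit 472024162) (dlOf (nat_lit 1) (nat_lit 0x4004000200087a2982))))) (.nd (nat_lit 20) 
(.nd (nat_lit 21) (.nd (nat_lit 26) 
(.lf (nat_lit 805994530) (dlOf (nat_lit 2) (nat_lit 0x6056000d3818210480))) 
(.lf (nat_lit 3154804770) (dlOf (nat_lit 1) (nat_lit 0x20008330a81)))) 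
(.lf (nat_lit 472547362) (dlOf (nat_lit 5) (nat_lit 0x20b40000d8080028598002802c0001104000e1670000801000d0b3800000080138008000c002000e00089b0703)))) 
(.lf (nat_lit 1008369698) (dlOf (nat_lit 1) (nat_lit 0x3000400020018b70182))))) (.nd (nat_lit 6) 
(.nd (nat_lit 19) (.nd (nat_lit 20) 
(.lf (nat_lit 1476558882) (dlOf (nat_lit 2) (nat_lit 0x4403f00010018050180))) 
(.lf (nat_lit 3490873378) (dlOf (nat_lit 2) (nat_lit 0xc0460000000800e8008001400200340008030983)))) 
(.nd (nat_lit 20) (.nd (nat_lit 21) 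
(.lf (nat_lit 1342865442) (dlOf (nat_lit 1) (nat_lit 0x200180f0881))) 
(.lf (nat_lit 1344962594) (dlOf (nat_lit 4) (nat_lit 0x1d04e000e82300004e080024138001a08c000130200040468001023000024080008002000a00089a0182)))) 
(.lf (nat_lit 4095377442) (dlOf (nat_lit 1) (nat_lit 0x1480080004002002a00080a0803))))) 
(.nd (nat_lit 8) (.nd (nat_lit 9) (.nd (nat_lit 10) 
(.lf (nat_lit 1346535522) (dlOf (nat_lit 5) (nat_lit 0x422e00011128001883400103440186508000822e000410680020688030c80c001c45c0006225000710680030688030c610001c45c0006225000710680038688030c410000400400020008fa0782))) 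
(.lf (nat_lit 1880261730) (dlOf (nat_lit 1) (nat_lit 0x800400020008802982)))) 
(.lf (nat_lit 5637310050) (dlOf (nat_lit 1) (nat_lit 0x80080230002004e00080d3903)))) 
(.nd (nat_lit 11) (.lf (nat_lit 3494019426) (dlOf (nat_lit 1) (nat_lit 0xec00081b0701))) 
(.lf (nat_lit 3489827170) (dlOf (nat_lit 1) (nat_lit 0x800200020008004e82)))))))) (.nd (nat_lit 6) 
(.nd (nat_lit 23) (.nd (nat_lit 27) (.nd (nat_lit 8) (.nd (nat_lit 20) (.nd (nat_lit 19) 
(.nd (nat_lit 28) 
(.lf (nat_lit 4295393314) (dlOf (nat_lit 3) (nat_lit 0x220160008002802560100020014012ae040070004000600081c0a02))) 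
(.lf (nat_lit 4563828770) (dlOf (nat_lit 4) (nat_lit 0xac8031000200103ba0188000fc0805800c4000700402fc00200f400080f0b82)))) 
(.lf (nat_lit 17727522) (dlOf (nat_lit 1) (nat_lit 0x9200288f0d01)))) (.nd (nat_lit 26) 
(.lf (nat_lit 3491135522) (dlOf (nat_lit 1) (nat_lit 0x20028060501))) 
(.lf (nat_lit 2752938018) (dlOf (nat_lit 1) (nat_lit 0x20028060501))))) (.nd (nat_lit 22) 
(.nd (nat_lit 26) 
(.lf (nat_lit 805732642) (dlOf (nat_lit 2) (nat_lit 0xc01500008e04002c002000e00081a0502))) 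
(.lf (nat_lit 1678147874) (dlOf (nat_lit 2) (nat_lit 0xc01500008804002c002000e00081a0502)))) 
(.lf (nat_lit 21397794) (dlOf (nat_lit 1) (nat_lit 0x600080034002001c0008a34303))))) 
(.nd (nat_lit 29) (.nd (nat_lit 9) (.nd (nat_lit 28) 
(.lf (nat_lit 4429611042) (dlOf (nat_lit 3) (nat_lit 0x2201500080028037f010002001401bf6040070004000600081c0a02))) 
(.lf (nat_lit 4698046498) (dlOf (nat_lit 4) (nat_lit 0xac8031000200103ba0188000fc0805800c4000700402fc00200f400080f0b82)))) 
(.lf (nat_lit 134644258) (dlOf (nat_lit 5) (nat_lit 0x901780081c0802500c4001ea0400dc082000030200cc04100160180000041000b8008000c00200440008090d83)))) 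
(.nd (nat_lit 8) 
(.lf (nat_lit 2818998306) (dlOf (nat_lit 1) (nat_lit 0x780080018002001a0008150183))) 
(.lf (nat_lit 2886107426) (dlOf (nat_lit 1) (nat_lit 0x80018154301)))))) (.nd (nat_lit 20) 
(.nd (nat_lit 19) (.nd (nat_lit 21) 
(.lf (nat_lit 13008930) (dlOf (nat_lit 1) (nat_lit 0x4002000200086f0782))) 
(.lf (nat_lit 48660514) (dlOf (nat_lit 2) (nat_lit 0x540f80001f019420180)))) 
(.lf (nat_lit 13533218) (dlOf (nat_lit 1) (nat_lit 0x400400020008730902)))) (.nd (nat_lit 24) 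
(.lf (nat_lit 9863202) (dlOf (nat_lit 2) (nat_lit 0x7a9580008c04000400400020008580182))) 
(.lf (nat_lit 26640418) (dlOf (nat_lit 1) (nat_lit 0x8008000400200020008c50183)))))) 
(.nd (nat_lit 8) (.nd (nat_lit 21) (.nd (nat_lit 20) 
(.lf (nat_lit 38700130) (dlOf (nat_lit 1) (nat_lit 0x400200020009132982))) 
(.lf (nat_lit 31360098) (dlOf (nat_lit 1) (nat_lit 0x20018e92981)))) (.nd (nat_lit 10) 
(.lf (nat_lit 49709154) (dlOf (nat_lit 1) (nat_lit 0x60029480901))) 
(.lf (nat_lit 62817378) (dlOf (nat_lit 1) (nat_lit 0x1800299a2981))))) (.nd (nat_lit 11) 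
(.nd (nat_lit 20) (.nd (nat_lit 26) 
(.lf (nat_lit 3490611554) (dlOf (nat_lit 2) (nat_lit 0x1c22f00261818014f00))) 
(.lf (nat_lit 1410236770) (dlOf (nat_lit 2) (nat_lit 0x2819800068040004004001600081b0702)))) 
(.lf (nat_lit 12484962) (dlOf (nat_lit 1) (nat_lit 0x50008000c002000600086c0703)))) 
(.nd (nat_lit 9) (.lf (nat_lit 19827042) (dlOf (nat_lit 1) (nat_lit 0x4002000200089d4e82))) 
(.lf (nat_lit 2416352098) (dlOf (nat_lit 1) (nat_lit 0x5200080fbc81)))))))) (.nd (nat_lit 8) 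
(.nd (nat_lit 26) (.nd (nat_lit 6) (.nd (nat_lit 12) (.nd (nat_lit 19) (.nd (nat_lit 20) 
(.lf (nat_lit 44204194) (dlOf (nat_lit 1) (nat_lit 0x4004000800092d1382))) 
(.lf (nat_lit 43155618) (dlOf (nat_lit 2) (nat_lit 0x287b0001d8192a0580)))) 
(.lf (nat_lit 60457122) (dlOf (nat_lit 1) (nat_lit 0x20019871401)))) (.nd (nat_lit 9) 
(.nd (nat_lit 10) (.lf (nat_lit 694434) (dlOf (nat_lit 1) (nat_lit 0x6001800a881))) 
(.lf (nat_lit 3221396642) (dlOf (nat_lit 1) (nat_lit 0x18000811c201)))) 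
(.lf (nat_lit 20092578) (dlOf (nat_lit 1) (nat_lit 0x200189d9f81))))) (.nd (nat_lit 18) 
(.nd (nat_lit 21) (.nd (nat_lit 10) 
(.lf (nat_lit 9601250) (dlOf (nat_lit 1) (nat_lit 0xf00018571b01))) 
(.lf (nat_lit 691426) (dlOf (nat_lit 1) (nat_lit 0x400008006501)))) (.nd (nat_lit 22) 
(.lf (nat_lit 44204258) (dlOf (nat_lit 1) (nat_lit 0xa00292d1b01))) 
(.lf (nat_lit 6455522) (dlOf (nat_lit 2) (nat_lit 0x39d660012e3b00096520000a8180018008000c00200080008420583))))) 
(.nd (nat_lit 22) (.nd (nat_lit 10) 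
(.lf (nat_lit 2819522786) (dlOf (nat_lit 5) (nat_lit 0x240de00057020008022000278101f203c00fd81c809ec0d4001806101f502f00ce814406f00340002a0e002a061000048182c0580))) 
(.lf (nat_lit 8815842) (dlOf (nat_lit 1) (nat_lit 0x80028512e01)))) (.nd (nat_lit 20) 
(.lf (nat_lit 7241954) (dlOf (nat_lit 2) (nat_lit 0x1fa3fd00090000000a81000080080008002000400084b0583))) 
(.lf (nat_lit 6193378) (dlOf (nat_lit 2) (nat_lit 0x899800015018420580))))))) (.nd (nat_lit 11) 
(.nd (nat_lit 6) (.nd (nat_lit 18) 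
(.lf (nat_lit 474120354) (dlOf (nat_lit 1) (nat_lit 0x200190e0581))) 
(.lf (nat_lit 738623650) (dlOf (nat_lit 1) (nat_lit 0x8002000200080c1402)))) (.nd (nat_lit 10) 
(.nd (nat_lit 18) 
(.lf (nat_lit 1007321314) (dlOf (nat_lit 2) (nat_lit 0x250720006825800054080004004000200082e0582))) 
(.lf (nat_lit 3557720290) (dlOf (nat_lit 5) (nat_lit 0x240de00057020008022000278101f203c00fd81c800300c804f606101f502f00ce814406f00340002a0e002a064000048182c0580)))) 
(.lf (nat_lit 2214761698) (dlOf (nat_lit 1) (nat_lit 0x4002000200080a9502))))) (.nd (nat_lit 10) 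
(.nd (nat_lit 12) (.nd (nat_lit 19) 
(.lf (nat_lit 6377605858) (dlOf (nat_lit 1) (nat_lit 0x4004000200080e5982))) 
(.lf (nat_lit 738888418) (dlOf (nat_lit 1) (nat_lit 0x20028125981)))) 
(.lf (nat_lit 3154287330) (dlOf (nat_lit 1) (nat_lit 0x2001815b981)))) (.nd (nat_lit 6) 
(.lf (nat_lit 1812106914) (dlOf (nat_lit 1) (nat_lit 0x60008147201))) (.nd (nat_lit 27) 
(.lf (nat_lit 1409453282) (dlOf (nat_lit 1) (nat_lit 0x400400020008006502))) 
(.lf (nat_lit 1543671010) (dlOf (nat_lit 1) (nat_lit 0x128004000e0008146502)))))))) 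
(.nd (nat_lit 6) (.nd (nat_lit 28) (.nd (nat_lit 18) (.nd (nat_lit 11) 
(.lf (nat_lit 4362240418) (dlOf (nat_lit 3) (nat_lit 0xe8033004e6810074019802728080068008002000200160008016b83))) 
(.lf (nat_lit 3221391778) (dlOf (nat_lit 1) (nat_lit 0x400200020008114e82)))) (.nd (nat_lit 19) 
(.nd (nat_lit 27) 
(.lf (nat_lit 3221651874) (dlOf (nat_lit 3) (nat_lit 0xc045004398100840230002811400ffe080118004000e0008170782))) 
(.lf (nat_lit 134644130) (dlOf (nat_lit 5) (nat_lit 0x940760074402004003b003a181002801d801ce80800f80ec00e720401fc00401060008090782)))) 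
(.nd (nat_lit 10) (.lf (nat_lit 43942306) (dlOf (nat_lit 1) (nat_lit 0x3e00292a1001))) 
(.lf (nat_lit 8291746) (dlOf (nat_lit 1) (nat_lit 0x400200020008513602)))))) (.nd (nat_lit 27) 
(.nd (nat_lit 19) (.nd (nat_lit 10) 
(.lf (nat_lit 805732770) (dlOf (nat_lit 3) (nat_lit 0x80158010e604004c0ac007ff02000e00181a0781))) 
(.lf (nat_lit 5637309858) (dlOf (nat_lit 1) (nat_lit 0x1800280d3601)))) (.nd (nat_lit 20) 
(.lf (nat_lit 3490611618) (dlOf (nat_lit 5) (nat_lit 0x1122300023381008a1180011980804a08c0008c604008c468000000200080028016b81))) 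
(.lf (nat_lit 1346273698) (dlOf (nat_lit 2) (nat_lit 0xe0fb0001003000010100010008002400200040008e81003))))) 
(.nd (nat_lit 18) (.lf (nat_lit 469926306) (dlOf (nat_lit 1) (nat_lit 0x400400020008016b82))) 
(.nd (nat_lit 26) 
(.lf (nat_lit 1476821410) (dlOf (nat_lit 1) (nat_lit 0x48008000800200040008201003))) 
(.lf (nat_lit 4228284834) (dlOf (nat_lit 2) (nat_lit 0x2a015001bf4080010008000c00200060008090783))))))) 
(.nd (nat_lit 9) (.nd (nat_lit 28) (.nd (nat_lit 26) (.nd (nat_lit 18) 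
(.lf (nat_lit 134382050) (dlOf (nat_lit 1) (nat_lit 0x8c004006a0008017302))) (.nd (nat_lit 22) 
(.lf (nat_lit 3221651938) (dlOf (nat_lit 2) (nat_lit 0x13a046007f0228000001004a8008002c00200460008170c03))) 
(.lf (nat_lit 21397986) (dlOf (nat_lit 1) (nat_lit 0x60008005000200340008a37303))))) 
(.nd (nat_lit 27) 
(.lf (nat_lit 1678148066) (dlOf (nat_lit 2) (nat_lit 0x5a815800780260000004003c00081a0c01))) 
(.lf (nat_lit 3959849442) (dlOf (nat_lit 2) (nat_lit 0x13a046007f0228000001004a8008002c00200460008170c03))))) 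
(.nd (nat_lit 18) 
(.lf (nat_lit 1342341602) (dlOf (nat_lit 1) (nat_lit 0x20008029800200680008017303))) 
(.nd (nat_lit 19) 
(.lf (nat_lit 805732834) (dlOf (nat_lit 2) (nat_lit 0x5a815800780260000004003c00081a0c01))) 
(.lf (nat_lit 3490611682) (dlOf (nat_lit 5) (nat_lit 0x781180000b80806a08c00005a0401d0460000270200141e60000e018017300)))))) 
(.nd (nat_lit 12) (.nd (nat_lit 18) 
(.lf (nat_lit 35816418) (dlOf (nat_lit 1) (nat_lit 0x20019012881))) (.nd (nat_lit 21) 
(.lf (nat_lit 2751890402) (dlOf (nat_lit 1) (nat_lit 0x400400020018002882))) 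
(.lf (nat_lit 40272866) (dlOf (nat_lit 1) (nat_lit 0x1000291f2881))))) (.nd (nat_lit 10) 
(.nd (nat_lit 18) (.lf (nat_lit 695266) (dlOf (nat_lit 2) (nat_lit 0x2400000a5b02000a001800bf01))) 
(.lf (nat_lit 20356066) (dlOf (nat_lit 1) (nat_lit 0x400289dbf01)))) 
(.lf (nat_lit 2550568930) (dlOf (nat_lit 2) (nat_lit 0x3f808801fc02e0055b04000200280fa601))))))))) 
(.nd (nat_lit 18) (.nd (nat_lit 7) (.nd (nat_lit 6) (.nd (nat_lit 28) (.nd (nat_lit 21) 
(.nd (nat_lit 32) (.nd (nat_lit 9) (.nd (nat_lit 20) 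
(.lf (nat_lit 134447138) (dlOf (nat_lit 2) (nat_lit 0x5202f000c4818020480))) 
(.lf (nat_lit 30638114) (dlOf (nat_lit 1) (nat_lit 0x80028e40d01)))) 
(.lf (nat_lit 3288564258) (dlOf (nat_lit 1) (nat_lit 0x40008090d81)))) (.nd (nat_lit 27) 
(.nd (nat_lit 31) (.lf (nat_lit 4295196706) (dlOf (nat_lit 1) (nat_lit 0x200180a0901))) 
(.lf (nat_lit 6442680354) (dlOf (nat_lit 2) (nat_lit 0x405c000290200040018140c01)))) 
(.lf (nat_lit 4429414434) (dlOf (nat_lit 1) (nat_lit 0x200180a0901))))) (.nd (nat_lit 9) 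
(.nd (nat_lit 19) 
(.lf (nat_lit 52658210) (dlOf (nat_lit 9) (nat_lit 0x44ea40020718001538bc01e59d40001708000aea4000f71800005810023b3a800028040005dbc0004ea40001751802cb3a8000c000000110a0018e300000801000b7520004b8c000008080031c6000002020060ea4002d718000000100138008000c002000a0009560703))) 
(.lf (nat_lit 45842466) (dlOf (nat_lit 2) (nat_lit 0x1bf78400df4de006f9f70037c610001468000bd18600308ae0020452001b9fd40090fc00003e1400060029360181)))) 
(.nd (nat_lit 19) (.lf (nat_lit 23298594) (dlOf (nat_lit 1) (nat_lit 0x400400020018b80d82))) 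
(.lf (nat_lit 69960226) (dlOf (nat_lit 2) (nat_lit 0x4000000cfc04001c002000e0008e28702)))))) 
(.nd (nat_lit 26) (.nd (nat_lit 20) (.nd (nat_lit 29) 
(.lf (nat_lit 1476624418) (dlOf (nat_lit 37) (nat_lit 0x5101d80065c0802580ec002f604012c0760017602041000000072810015021002a80f00015a0800b4078000ac02008403c0005501003401e0002a40804680f000150040010078000a702013e03c0005301004901e0002940806280f001f8072000a404016003c0005181009e01e0002880807000f000142040b400780018039000500200ce01e00027c0806180f00013c0403bc0780009d02015803c000088100a601e0000400802580f00001e0402d80780000d02015e03c000060100b801e003f00e4000160800100780000a02014203c000040100ad01e00001c0805200f00000c0400e4078009c0390000282002d01e0000100803a00f0000060402140780000202016c03c0000081003601e0000000802c80080050002000e00080a0603))) 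
(.lf (nat_lit 6308462626) (dlOf (nat_lit 1) (nat_lit 0xa00280c0481)))) 
(.lf (nat_lit 1343455266) (dlOf (nat_lit 5) (nat_lit 0x102c2000209d000448200040b08009023800180fc000880600021610006047000081f80010e0c000c2c2000809d0004047000081f80010c10004c004009a0018250782)))) 
(.nd (nat_lit 19) (.nd (nat_lit 27) 
(.lf (nat_lit 5704482850) (dlOf (nat_lit 1) (nat_lit 0xa00280c0481))) (.nd (nat_lit 31) 
(.lf (nat_lit 5838700578) (dlOf (nat_lit 2) (nat_lit 0x405c000290200040018140c01))) 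
(.lf (nat_lit 3691216930) (dlOf (nat_lit 32) (nat_lit 0x5200e80039c0806a8074001cc0402f005c0520028019500f01be807410b803807fc01a025300c816a006004d802c01080140128009805e803802d401608c8004049200181ec800400f0000000e522005601d0007101006b00e8003800800c0074001be0400ec02a000ad02000401500260000002a81000580540038000000a90400040000005401004500000029c08009005404cc000000a60402f80000005281004900a80bc00000014808006402a000e00000051820023000000288080720054039c000000a104001e0000004f81011c0000002780807280000013a04001c0000009a0200e60000000881006500e80048000000160802c400000008020070000000038100230000000180802e007400e40000000504011601d00080000000101001a0000000040400280000000102015201d007900000000010e5000082074002044a00080a0603))))) 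
(.nd (nat_lit 21) (.lf (nat_lit 3557523490) (dlOf (nat_lit 1) (nat_lit 0x6800400740008240682))) 
(.lf (nat_lit 472612898) (dlOf (nat_lit 10) (nat_lit 0x2c6160006406c800b8360028c138022208d00af04600bc81f405d00f80002710029a160005706c800483600258138020408d009f04600b281f405e80f800026100260160003a06c8044827003d411a00ea08c015103e809e01f00004a1c03c023e000200201f211f0000f8100da08f8000780808e8580000260405202c0009a0d9008c04e007c0234003c11802ac07d015003e00004838098058000020040044004004000189c0182))))))) 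
(.nd (nat_lit 8) (.nd (nat_lit 21) (.nd (nat_lit 9) (.nd (nat_lit 26) 
(.lf (nat_lit 4563632226) (dlOf (nat_lit 1) (nat_lit 0x400280a1981))) 
(.lf (nat_lit 4496523362) (dlOf (nat_lit 1) (nat_lit 0xa00180c1b01)))) 
(.lf (nat_lit 4832069218) (dlOf (nat_lit 1) (nat_lit 0x194002009600080d3902)))) (.nd (nat_lit 19) 
(.nd (nat_lit 20) 
(.lf (nat_lit 56852578) (dlOf (nat_lit 2) (nat_lit 0x313940006404000400200060009770902))) 
(.lf (nat_lit 24346722) (dlOf (nat_lit 1) (nat_lit 0x138008002000200260008b91383)))) 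
(.lf (nat_lit 472612962) (dlOf (nat_lit 6) (nat_lit 0x260ab002004ec010827200560cd004604b0022021400e00ea00720730001608001804b000881cc000560800fc2ac00aa13b005609c80228334015412c00ac085004803a802481cc0005420009412c003e0730001482001303a800101cc00048080018004004000189c0902))))) 
(.nd (nat_lit 21) (.nd (nat_lit 9) (.nd (nat_lit 11) 
(.lf (nat_lit 2755887458) (dlOf (nat_lit 3) (nat_lit 0x3fc0790001a0101b103c8000c80800a000801dc002008c00081b0703))) 
(.lf (nat_lit 3624110434) (dlOf (nat_lit 1) (nat_lit 0x20018144e81)))) 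
(.lf (nat_lit 4899179362) (dlOf (nat_lit 1) (nat_lit 0x28008000c002000200080d5c03)))) 
(.nd (nat_lit 9) (.nd (nat_lit 20) 
(.lf (nat_lit 2326882) (dlOf (nat_lit 3) (nat_lit 0x7ee540006804024dd540116e3600ae677000054180098008003000200260008150703))) 
(.lf (nat_lit 11764066) (dlOf (nat_lit 1) (nat_lit 0x200086c0701)))) 
(.lf (nat_lit 8094562) (dlOf (nat_lit 1) (nat_lit 0x20018512581))))))) (.nd (nat_lit 8) 
(.nd (nat_lit 6) (.nd (nat_lit 10) (.nd (nat_lit 26) 
(.lf (nat_lit 4563632290) (dlOf (nat_lit 1) (nat_lit 0x24004000e00080a2b82))) 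
(.lf (nat_lit 2349039778) (dlOf (nat_lit 2) (nat_lit 0x100200013e0200020008090201)))) 
(.nd (nat_lit 9) (.lf (nat_lit 55280802) (dlOf (nat_lit 1) (nat_lit 0x200196d2b81))) 
(.lf (nat_lit 20158114) (dlOf (nat_lit 1) (nat_lit 0x100080018002000400089d9f83))))) 
(.nd (nat_lit 9) (.nd (nat_lit 10) 
(.lf (nat_lit 19103970) (dlOf (nat_lit 2) (nat_lit 0xb5bc802184f40108258007c101001c01e003480000005418000400400900018970582))) 
(.nd (nat_lit 12) 
(.lf (nat_lit 474186978) (dlOf (nat_lit 8) (nat_lit 0x702e400047020022225000b105800506c801682e4002200000023050053103803406b403882e4000c0b400540000001142800485c80008804029c2e40004302016a1720002101005d0b90000e008006800801e400200c000090e2e03))) 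
(.lf (nat_lit 8099042) (dlOf (nat_lit 1) (nat_lit 0x40018519501))))) (.nd (nat_lit 19) 
(.lf (nat_lit 2818806498) (dlOf (nat_lit 1) (nat_lit 0x4b00080004002006e0008128c83))) 
(.lf (nat_lit 8098530) (dlOf (nat_lit 1) (nat_lit 0x20028518c81)))))) (.nd (nat_lit 26) 
(.nd (nat_lit 19) (.nd (nat_lit 21) (.nd (nat_lit 27) 
(.lf (nat_lit 805536162) (dlOf (nat_lit 1) (nat_lit 0x320018126b81))) 
(.lf (nat_lit 2550366626) (dlOf (nat_lit 2) (nat_lit 0x580210039d018090780)))) 
(.lf (nat_lit 23298466) (dlOf (nat_lit 3) (nat_lit 0x13b160073a020037d8b0039c818b80780)))) 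
(.nd (nat_lit 6) (.nd (nat_lit 10) 
(.lf (nat_lit 48990626) (dlOf (nat_lit 1) (nat_lit 0x400200020009464e82))) 
(.lf (nat_lit 8095138) (dlOf (nat_lit 1) (nat_lit 0x400200020008513602)))) 
(.lf (nat_lit 38503394) (dlOf (nat_lit 1) (nat_lit 0x20019132881))))) (.nd (nat_lit 30) 
(.nd (nat_lit 9) (.nd (nat_lit 11) 
(.lf (nat_lit 2349040034) (dlOf (nat_lit 1) (nat_lit 0x1000800d800200080008090783))) 
(.lf (nat_lit 4899178914) (dlOf (nat_lit 1) (nat_lit 0xb200180d4e81)))) (.nd (nat_lit 6) 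
(.lf (nat_lit 4899179426) (dlOf (nat_lit 2) (nat_lit 0x1c0640003802000200180d5c81))) 
(.lf (nat_lit 5033395170) (dlOf (nat_lit 1) (nat_lit 0xe0018092881))))) (.nd (nat_lit 6) 
(.nd (nat_lit 29) 
(.lf (nat_lit 3288564130) (dlOf (nat_lit 5) (nat_lit 0xbc05c003c02d0030014000d009c00b804c001c0120017008801d103800c00b4005004c000c012000f008801d0c2001a00b800bc05a003402700280130005804800500220073a0c002602e001f0168009809c003c04c000a0120014008801ce4300268008007400200a00008090783))) 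
(.lf (nat_lit 1677951394) (dlOf (nat_lit 1) (nat_lit 0x300018126b81)))) 
(.lf (nat_lit 3825435106) (dlOf (nat_lit 2) (nat_lit 0x40160002e02000c0028157301)))))))) 
(.nd (nat_lit 28) (.nd (nat_lit 7) (.nd (nat_lit 29) (.nd (nat_lit 19) (.nd (nat_lit 22) 
(.nd (nat_lit 20) (.lf (nat_lit 3221717026) (dlOf (nat_lit 1) (nat_lit 0x400200020008170002))) 
(.lf (nat_lit 26705954) (dlOf (nat_lit 2) (nat_lit 0x9175e0048a2900244cd801225ec00cd2f00001c0a00160028c60601)))) 
(.nd (nat_lit 21) (.lf (nat_lit 21463074) (dlOf (nat_lit 1) (nat_lit 0x20028a40181))) 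
(.lf (nat_lit 48726050) (dlOf (nat_lit 2) (nat_lit 0x3dcf00007c04001000400040009420182))))) 
(.nd (nat_lit 8) (.nd (nat_lit 20) 
(.lf (nat_lit 68124706) (dlOf (nat_lit 1) (nat_lit 0x8008000400200020008400183))) 
(.lf (nat_lit 14647330) (dlOf (nat_lit 9) (nat_lit 0x159bf400048040094dfa000230200098060004383800074100011bf4000260401340000000b0200b80000000501002b00000001c0801d00000000004039c002001c0008770182)))) 
(.lf (nat_lit 19893026) (dlOf (nat_lit 1) (nat_lit 0x4002000200089d5c02))))) (.nd (nat_lit 26) 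
(.nd (nat_lit 27) 
(.lf (nat_lit 1611104290) (dlOf (nat_lit 3) (nat_lit 0x320520000b0100020028000000800480080014002004000080e0803))) 
(.lf (nat_lit 2819063842) (dlOf (nat_lit 1) (nat_lit 0x84004001e0008190702)))) (.nd (nat_lit 21) 
(.lf (nat_lit 738689058) (dlOf (nat_lit 3) (nat_lit 0x32052000160100020028000000800480080014002004000080e0803))) 
(.lf (nat_lit 2754052130) (dlOf (nat_lit 1) (nat_lit 0x600280b0a81)))))) (.nd (nat_lit 6) 
(.nd (nat_lit 8) (.lf (nat_lit 8357538) (dlOf (nat_lit 1) (nat_lit 0x1c00400020018513a82))) 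
(.nd (nat_lit 9) (.lf (nat_lit 19892642) (dlOf (nat_lit 1) (nat_lit 0x26800189d4e81))) 
(.lf (nat_lit 46107554) (dlOf (nat_lit 1) (nat_lit 0x60029385c81))))) (.nd (nat_lit 10) 
(.nd (nat_lit 8) 
(.lf (nat_lit 17268962) (dlOf (nat_lit 2) (nat_lit 0x5de0001d524c00ee8fc0002a06000200188e0581))) 
(.lf (nat_lit 41911266) (dlOf (nat_lit 1) (nat_lit 0x4a0029242881)))) (.nd (nat_lit 12) 
(.lf (nat_lit 493538) (dlOf (nat_lit 1) (nat_lit 0x20018004581))) 
(.lf (nat_lit 497634) (dlOf (nat_lit 2) (nat_lit 0x199dd002049f000da43c00ab60c00040040006001800a602))))))) 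
(.nd (nat_lit 6) (.nd (nat_lit 26) (.nd (nat_lit 27) (.nd (nat_lit 7) (.nd (nat_lit 20) 
(.lf (nat_lit 1879539746) (dlOf (nat_lit 1) (nat_lit 0x4004000200081b0702))) 
(.lf (nat_lit 3491201058) (dlOf (nat_lit 3) (nat_lit 0xfc2ae0000602005615700002818070680)))) 
(.lf (nat_lit 3492775586) (dlOf (nat_lit 1) (nat_lit 0x800280f3a81)))) (.nd (nat_lit 8) 
(.lf (nat_lit 2550628386) (dlOf (nat_lit 1) (nat_lit 0x4004000600181b0002))) 
(.lf (nat_lit 3624370466) (dlOf (nat_lit 8) (nat_lit 0x16045000201f001100dc001406a00600000052a05000101f00294c0800481140030088001803c002001b800780d400b400000a520c00b203e007901b802380c40148e0c000407c00a3f0200540370051e81000301f000000080018008016400200de0008187803))))) 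
(.nd (nat_lit 19) (.nd (nat_lit 9) 
(.lf (nat_lit 3557261346) (dlOf (nat_lit 3) (nat_lit 0xe408a02d6038005ea02000501c002f3c080230008007800200360008190703))) 
(.lf (nat_lit 872907298) (dlOf (nat_lit 1) (nat_lit 0x200180f8701)))) (.nd (nat_lit 20) 
(.lf (nat_lit 470777890) (dlOf (nat_lit 1) (nat_lit 0x1c002000a0008180602))) 
(.lf (nat_lit 473923618) (dlOf (nat_lit 12) (nat_lit 0x882c0002e0d9001604e00009c1800a058000241b2000260400101600001281000a0b00000480806f0558037c19a018609600ea0428000382001b8558012419a006a0960037042800034200448334022010a0000c040004156000058100190ab001b033401d412c000c08d008704280002828012855800e019a00aa096004b042800024200008558006819a000000400020028fc0181)))))) 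
(.nd (nat_lit 7) (.nd (nat_lit 26) (.nd (nat_lit 10) 
(.lf (nat_lit 1342669154) (dlOf (nat_lit 1) (nat_lit 0x200280c0701))) 
(.lf (nat_lit 3490155874) (dlOf (nat_lit 1) (nat_lit 0x20018006a81)))) (.nd (nat_lit 8) 
(.lf (nat_lit 473923682) (dlOf (nat_lit 2) (nat_lit 0xfa16000a106c80268270000000c002400400100008fc0902))) 
(.lf (nat_lit 470253922) (dlOf (nat_lit 1) (nat_lit 0x200280c0701))))) (.nd (nat_lit 8) 
(.nd (nat_lit 9) (.lf (nat_lit 5772903650) (dlOf (nat_lit 1) (nat_lit 0x20028092e01))) 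
(.lf (nat_lit 1476889314) (dlOf (nat_lit 1) (nat_lit 0x5400082d5981)))) (.nd (nat_lit 9) 
(.lf (nat_lit 3490677218) (dlOf (nat_lit 3) (nat_lit 0xc41e60001101007f0f30000700802b8008005c00200b60008017303))) 
(.nd (nat_lit 10) (.lf (nat_lit 3492774882) (dlOf (nat_lit 1) (nat_lit 0x4002000200080f2882))) 
(.lf (nat_lit 3492775906) (dlOf (nat_lit 1) (nat_lit 0x3080080004002005600080f4583)))))))))))) 
(.nd (nat_lit 16) (.nd (nat_lit 5) (.nd (nat_lit 6) (.nd (nat_lit 28) (.nd (nat_lit 19) 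
(.nd (nat_lit 7) (.nd (nat_lit 18) (.nd (nat_lit 12) (.nd (nat_lit 21) (.nd (nat_lit 27) 
(.lf (nat_lit 5435990018) (dlOf (nat_lit 1) (nat_lit 0x400200020008090002))) 
(.lf (nat_lit 6107078658) (dlOf (nat_lit 1) (nat_lit 0x2800400120008060002)))) (.nd (nat_lit 20) 
(.lf (nat_lit 23240706) (dlOf (nat_lit 1) (nat_lit 0x8008000400200020008b70003))) 
(.lf (nat_lit 24289282) (dlOf (nat_lit 1) (nat_lit 0x18008002000200020008b90003))))) 
(.nd (nat_lit 8) (.lf (nat_lit 8565250) (dlOf (nat_lit 1) (nat_lit 0x400400020018518682))) 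
(.lf (nat_lit 178434) (dlOf (nat_lit 1) (nat_lit 0x800800040020002000800a983))))) (.nd (nat_lit 27) 
(.nd (nat_lit 22) 
(.lf (nat_lit 3758530562) (dlOf (nat_lit 2) (nat_lit 0xa0180003808800af408001400200020008270002))) 
(.lf (nat_lit 13017090) (dlOf (nat_lit 1) (nat_lit 0x400080048002009400086f0003)))) 
(.nd (nat_lit 9) 
(.lf (nat_lit 2819006466) (dlOf (nat_lit 26) (nat_lit 0x10101c805700de018e05b0160021007000fc044006c0224034017f011001b0078052003601daa140444072016a037805d816c061808401fc03f012b01b009880d00638044007601e015e00d8076a05011001c8036807e01da604047607200da01f803200d8008004401da408018e03f00ed001010a01f807678080f101c8003c07e005802200ebd030249039008000fc03ae208091c0e401fc03f00eb70202090390075680800701c803a940400980e401dc03f00ea40200070390075180813f01c803d007e01d440403fe07200c801f80750c1011d01c803e807e01d3f04013803f00de401011601f806f1c0808480fc0378c0403f807e01ba202016003f00d970100fd01f806c980807400fc0364a04001007e0096202044607200eb01f800000100ba8008040400202a80008150003)))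 
(.lf (nat_lit 2886115842) (dlOf (nat_lit 1) (nat_lit 0x400200020008157f82)))))) (.nd (nat_lit 20) 
(.nd (nat_lit 26) (.lf (nat_lit 4295139714) (dlOf (nat_lit 1) (nat_lit 0x260018090781))) 
(.lf (nat_lit 4362248578) (dlOf (nat_lit 4) (nat_lit 0x202a0026e80800081440094a04001808a003df02003c0008015a81)))) 
(.nd (nat_lit 8) (.lf (nat_lit 3580034) (dlOf (nat_lit 1) (nat_lit 0x20018200101))) 
(.nd (nat_lit 9) (.lf (nat_lit 9609602) (dlOf (nat_lit 1) (nat_lit 0x20018575a81))) 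
(.lf (nat_lit 20097922) (dlOf (nat_lit 1) (nat_lit 0x4002000200089d5c02))))))) (.nd (nat_lit 20) 
(.nd (nat_lit 26) (.nd (nat_lit 18) (.nd (nat_lit 22) (.nd (nat_lit 23) 
(.lf (nat_lit 134914050) (dlOf (nat_lit 2) (nat_lit 0x39603b01a201b001c541004c8008001400200ea00080e0003))) 
(.lf (nat_lit 42639362) (dlOf (nat_lit 1) (nat_lit 0x8008000800200020009260003)))) 
(.lf (nat_lit 4890626) (dlOf (nat_lit 1) (nat_lit 0x200282d0001)))) 
(.lf (nat_lit 17735682) (dlOf (nat_lit 1) (nat_lit 0x600188f0001)))) (.nd (nat_lit 7) 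
(.lf (nat_lit 202022914) (dlOf (nat_lit 2) (nat_lit 0x39603b01a201b0032fc1004c8008001400200ea00080e0003))) 
(.lf (nat_lit 2752161666) (dlOf (nat_lit 1) (nat_lit 0x1a000800a000200540008004183))))) 
(.nd (nat_lit 18) (.nd (nat_lit 22) 
(.lf (nat_lit 3842050) (dlOf (nat_lit 3) (nat_lit 0x326380644c08001131c000497a019110400040028230001))) 
(.lf (nat_lit 16424962) (dlOf (nat_lit 1) (nat_lit 0x280080018002000a00088a0003)))) 
(.lf (nat_lit 10395650) (dlOf (nat_lit 1) (nat_lit 0x4002000200085d0002)))))) (.nd (nat_lit 26) 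
(.nd (nat_lit 27) (.nd (nat_lit 8) (.nd (nat_lit 18) (.nd (nat_lit 31) 
(.lf (nat_lit 268607490) (dlOf (nat_lit 2) (nat_lit 0x2002c0010015003500a0033a81800100080038002000400080b0003))) 
(.lf (nat_lit 6711058434) (dlOf (nat_lit 1) (nat_lit 0x2800400120008060002)))) (.nd (nat_lit 29) 
(.lf (nat_lit 4563836930) (dlOf (nat_lit 4) (nat_lit 0x24a0300006010801d041003180c000e8004008404a0000002004000080f0001))) 
(.lf (nat_lit 805740546) (dlOf (nat_lit 1) (nat_lit 0x700080014002000800081a0003))))) 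
(.nd (nat_lit 7) (.nd (nat_lit 10) 
(.lf (nat_lit 3493765378) (dlOf (nat_lit 1) (nat_lit 0x1000181b0481))) 
(.lf (nat_lit 5637317890) (dlOf (nat_lit 1) (nat_lit 0x4004000200080d2f02)))) (.nd (nat_lit 10) 
(.lf (nat_lit 1342349698) (dlOf (nat_lit 2) (nat_lit 0x50e280293c080018008000400200080008015a83))) 
(.lf (nat_lit 805485954) (dlOf (nat_lit 3) (nat_lit 0x18158002402600664040002056000302980165410029000801b0002005c000811c903)))))) 
(.nd (nat_lit 32) (.nd (nat_lit 9) (.nd (nat_lit 31) 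
(.lf (nat_lit 1476567042) (dlOf (nat_lit 3) (nat_lit 0x11803001a4502009601800d21818050000))) 
(.lf (nat_lit 3624050690) (dlOf (nat_lit 3) (nat_lit 0xe0300007017800380b8001805a000601b000400c000400500010024001000200070000069105000280c00004036000400500010010069082000700080008002000400080b0003)))) 
(.lf (nat_lit 2013439490) (dlOf (nat_lit 1) (nat_lit 0x400400020008093682)))) (.nd (nat_lit 7) 
(.nd (nat_lit 18) 
(.lf (nat_lit 5772058626) (dlOf (nat_lit 3) (nat_lit 0x429a0004143004060200030a68001850c0101608001000400100008060002))) 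
(.lf (nat_lit 4698054658) (dlOf (nat_lit 4) (nat_lit 0x24a03000060108033a81003180c0019d204008404a0000002004000080f0001)))) 
(.lf (nat_lit 5772321154) (dlOf (nat_lit 1) (nat_lit 0x80008007000200480008091003)))))) 
(.nd (nat_lit 19) (.nd (nat_lit 7) (.nd (nat_lit 9) (.nd (nat_lit 18) (.nd (nat_lit 20) 
(.lf (nat_lit 3691159554) (dlOf (nat_lit 4) (nat_lit 0x601800d2281001e00c00690c080050074033b804005c00400220008050002))) 
(.lf (nat_lit 470982658) (dlOf (nat_lit 1) (nat_lit 0x80028220001)))) 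
(.lf (nat_lit 4228292610) (dlOf (nat_lit 1) (nat_lit 0x400200040008090002)))) 
(.lf (nat_lit 3556942338) (dlOf (nat_lit 1) (nat_lit 0x3a0028107b01)))) (.nd (nat_lit 29) 
(.nd (nat_lit 22) 
(.lf (nat_lit 469934466) (dlOf (nat_lit 2) (nat_lit 0x50e28012e8080018008000400200080008015a83))) 
(.lf (nat_lit 474128770) (dlOf (nat_lit 1) (nat_lit 0x4004000200190e1002)))) (.nd (nat_lit 8) 
(.lf (nat_lit 6241299074) (dlOf (nat_lit 1) (nat_lit 0x4004000200080d5482))) 
(.lf (nat_lit 4228030850) (dlOf (nat_lit 4) (nat_lit 0x10250028e80800300f8012f204000809a0042502003c0008015a81)))))) 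
(.nd (nat_lit 18) (.nd (nat_lit 8) (.nd (nat_lit 20) 
(.lf (nat_lit 6376038402) (dlOf (nat_lit 3) (nat_lit 0x427c00041340071882000309f000184d001c6008001000400100008060002))) 
(.lf (nat_lit 4095385602) (dlOf (nat_lit 1) (nat_lit 0x4002000200080a0002)))) 
(.lf (nat_lit 473604354) (dlOf (nat_lit 1) (nat_lit 0x50004000a0008f63582)))) (.nd (nat_lit 27) 
(.lf (nat_lit 1410244610) (dlOf (nat_lit 4) (nat_lit 0x6078000903b800281d800200e2000c07000010330004818c00200c2000c00000d2009000603b8068f80800601dc033b6040028004000400081b0002))) 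
(.lf (nat_lit 470720514) (dlOf (nat_lit 1) (nat_lit 0x8008000400200020008160003)))))))) 
(.nd (nat_lit 8) (.nd (nat_lit 26) (.nd (nat_lit 7) (.nd (nat_lit 30) (.nd (nat_lit 9) 
(.nd (nat_lit 18) (.nd (nat_lit 22) 
(.lf (nat_lit 2147655746) (dlOf (nat_lit 1) (nat_lit 0x80080004002000200080b0583))) 
(.lf (nat_lit 12755010) (dlOf (nat_lit 1) (nat_lit 0x80080014002000a00086e0d03)))) 
(.lf (nat_lit 2819006530) (dlOf (nat_lit 5) (nat_lit 0x280000001c040160000000070200040000000301007d039803100000000008030c00200160008150582)))) 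
(.nd (nat_lit 18) (.lf (nat_lit 34777666) (dlOf (nat_lit 1) (nat_lit 0x800400040008fb5202))) 
(.nd (nat_lit 19) 
(.lf (nat_lit 53914178) (dlOf (nat_lit 1) (nat_lit 0x1800080004002002600095f5203))) 
(.lf (nat_lit 36612674) (dlOf (nat_lit 1) (nat_lit 0x800200040009075202)))))) (.nd (nat_lit 19) 
(.nd (nat_lit 10) (.nd (nat_lit 18) 
(.lf (nat_lit 1073913922) (dlOf (nat_lit 1) (nat_lit 0x8008000400200020008020783))) 
(.lf (nat_lit 1074176066) (dlOf (nat_lit 1) (nat_lit 0x80080004002000200080d0c03)))) 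
(.lf (nat_lit 2013439042) (dlOf (nat_lit 1) (nat_lit 0x400400020008092882)))) (.nd (nat_lit 9) 
(.lf (nat_lit 1344970818) (dlOf (nat_lit 1) (nat_lit 0x200089a0601))) 
(.lf (nat_lit 3491406402) (dlOf (nat_lit 2) (nat_lit 0xd0f6000048080010008003c00200040008091083)))))) 
(.nd (nat_lit 18) (.nd (nat_lit 19) (.nd (nat_lit 20) 
(.lf (nat_lit 48407746) (dlOf (nat_lit 1) (nat_lit 0x20019402d01))) 
(.lf (nat_lit 34776258) (dlOf (nat_lit 1) (nat_lit 0x400400020008fb2d02)))) (.nd (nat_lit 20) 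
(.lf (nat_lit 32154818) (dlOf (nat_lit 1) (nat_lit 0x400200060008ef2d02))) 
(.lf (nat_lit 58369218) (dlOf (nat_lit 1) (nat_lit 0x480080028002001400097e2d03))))) 
(.nd (nat_lit 9) (.nd (nat_lit 10) 
(.lf (nat_lit 1611047106) (dlOf (nat_lit 2) (nat_lit 0x100000017c0800b800800fc002007000080c1703))) 
(.lf (nat_lit 41854146) (dlOf (nat_lit 1) (nat_lit 0x400400020009242d02)))) 
(.lf (nat_lit 1745267394) (dlOf (nat_lit 1) (nat_lit 0x2400280e5801)))))) (.nd (nat_lit 9) 
(.nd (nat_lit 29) (.nd (nat_lit 18) (.nd (nat_lit 19) 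
(.lf (nat_lit 1275240514) (dlOf (nat_lit 1) (nat_lit 0x80080004002000200080b0583))) 
(.lf (nat_lit 472555586) (dlOf (nat_lit 1) (nat_lit 0x4002000200089c0602)))) 
(.lf (nat_lit 473866306) (dlOf (nat_lit 1) (nat_lit 0x8008000400200020008fc0603)))) 
(.nd (nat_lit 7) (.nd (nat_lit 18) 
(.lf (nat_lit 1946329154) (dlOf (nat_lit 1) (nat_lit 0x8008000400200020008020783))) 
(.lf (nat_lit 1946591298) (dlOf (nat_lit 1) (nat_lit 0x80080004002000200080d0c03)))) 
(.lf (nat_lit 3154292930) (dlOf (nat_lit 2) (nat_lit 0x4811c0004c04002c00400140008157f02))))) 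
(.nd (nat_lit 27) (.nd (nat_lit 11) (.nd (nat_lit 19) 
(.lf (nat_lit 4362248770) (dlOf (nat_lit 1) (nat_lit 0x16000200040008018c82))) 
(.lf (nat_lit 2753208898) (dlOf (nat_lit 2) (nat_lit 0xd0ff000044080010008003c00200040008091083)))) 
(.lf (nat_lit 2751642178) (dlOf (nat_lit 10) (nat_lit 0xe212000180100021090000bc0801188480005c0400844240002d0200382120000301001c1090000100800e084800183f40000304003e212000010100191090000000800e800800040020002000800b503)))) 
(.nd (nat_lit 10) 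
(.lf (nat_lit 4228031042) (dlOf (nat_lit 6) (nat_lit 0xc4020002a900806281000148604031008000a42020192040004c70100c702000263408025800800f4002002c0008018503))) 
(.lf (nat_lit 474129986) (dlOf (nat_lit 1) (nat_lit 0x200190e3801))))))) (.nd (nat_lit 18) 
(.nd (nat_lit 26) (.nd (nat_lit 7) (.nd (nat_lit 9) (.nd (nat_lit 10) 
(.lf (nat_lit 51028290) (dlOf (nat_lit 1) (nat_lit 0x10004000200094e8702))) 
(.lf (nat_lit 3489840450) (dlOf (nat_lit 1) (nat_lit 0x4000800c901)))) 
(.lf (nat_lit 671262530) (dlOf (nat_lit 1) (nat_lit 0x20028143e01)))) (.nd (nat_lit 10) 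
(.lf (nat_lit 3491406274) (dlOf (nat_lit 2) (nat_lit 0x350f30000780800100080168002004e0008090903))) 
(.lf (nat_lit 3489836482) (dlOf (nat_lit 1) (nat_lit 0x400400020008006d02))))) (.nd (nat_lit 7) 
(.nd (nat_lit 10) (.nd (nat_lit 22) 
(.lf (nat_lit 2885853506) (dlOf (nat_lit 2) (nat_lit 0x9b00000009e040120002008800080b0602))) 
(.lf (nat_lit 2755830082) (dlOf (nat_lit 2) (nat_lit 0x684440058212000e0fb000150381b0600)))) 
(.lf (nat_lit 738895170) (dlOf (nat_lit 1) (nat_lit 0x18008000400200060008123303)))) 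
(.nd (nat_lit 19) (.lf (nat_lit 3556942274) (dlOf (nat_lit 1) (nat_lit 0x400200020008107002))) 
(.lf (nat_lit 2753208770) (dlOf (nat_lit 2) (nat_lit 0x350fc0000780800100080168002004e0008090903)))))) 
(.nd (nat_lit 7) (.nd (nat_lit 10) (.nd (nat_lit 27) (.nd (nat_lit 19) 
(.lf (nat_lit 3580226) (dlOf (nat_lit 1) (nat_lit 0x40028200601))) 
(.lf (nat_lit 537829698) (dlOf (nat_lit 4) (nat_lit 0xb80ea002a0650002602014c0000001000804c00000007e040118002005000081b0602)))) 
(.nd (nat_lit 26) 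
(.lf (nat_lit 3624313154) (dlOf (nat_lit 2) (nat_lit 0x240800016014004e6828154c00))) 
(.lf (nat_lit 2886115650) (dlOf (nat_lit 2) (nat_lit 0x2408000160130021b028154c00))))) 
(.nd (nat_lit 9) (.nd (nat_lit 20) 
(.lf (nat_lit 57058626) (dlOf (nat_lit 1) (nat_lit 0x20029793301))) 
(.lf (nat_lit 1345758530) (dlOf (nat_lit 1) (nat_lit 0x100028dd3301)))) 
(.lf (nat_lit 2751899458) (dlOf (nat_lit 2) (nat_lit 0x80440000c8080020008006400200040008003e03))))) 
(.nd (nat_lit 26) (.nd (nat_lit 19) (.nd (nat_lit 27) 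
(.lf (nat_lit 805740994) (dlOf (nat_lit 1) (nat_lit 0x300080004002000200081a0903))) 
(.lf (nat_lit 134652354) (dlOf (nat_lit 1) (nat_lit 0x40018090901)))) 
(.lf (nat_lit 5772321218) (dlOf (nat_lit 2) (nat_lit 0x9e0978000e00800200080014002000e0008091083)))) 
(.nd (nat_lit 27) 
(.lf (nat_lit 1678156226) (dlOf (nat_lit 1) (nat_lit 0x300080004002000200081a0903))) 
(.lf (nat_lit 201761218) (dlOf (nat_lit 1) (nat_lit 0x40018090901))))))))) (.nd (nat_lit 6) 
(.nd (nat_lit 28) (.nd (nat_lit 18) (.nd (nat_lit 26) (.nd (nat_lit 23) (.nd (nat_lit 7) 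
(.nd (nat_lit 19) (.nd (nat_lit 8) 
(.lf (nat_lit 22192162) (dlOf (nat_lit 1) (nat_lit 0x8008000400200020008aa0c03))) 
(.lf (nat_lit 178466) (dlOf (nat_lit 1) (nat_lit 0x8008000c0020002000800ab83)))) (.nd (nat_lit 24) 
(.lf (nat_lit 4890658) (dlOf (nat_lit 1) (nat_lit 0x4002000400082d0182))) 
(.lf (nat_lit 21667874) (dlOf (nat_lit 3) (nat_lit 0x988360005102000200000005018a60b80))))) 
(.nd (nat_lit 8) (.nd (nat_lit 9) 
(.lf (nat_lit 3221404834) (dlOf (nat_lit 1) (nat_lit 0x140020002000811c202))) 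
(.lf (nat_lit 20100770) (dlOf (nat_lit 1) (nat_lit 0x200189d9f81)))) 
(.lf (nat_lit 3221399970) (dlOf (nat_lit 1) (nat_lit 0x1c00200060008114e82))))) (.nd (nat_lit 19) 
(.nd (nat_lit 7) (.nd (nat_lit 20) 
(.lf (nat_lit 25337890) (dlOf (nat_lit 1) (nat_lit 0x20018bf0901))) 
(.lf (nat_lit 26386466) (dlOf (nat_lit 2) (nat_lit 0x200000000804005000200160008c40602)))) 
(.lf (nat_lit 9609378) (dlOf (nat_lit 1) (nat_lit 0x1800400020008571382)))) (.nd (nat_lit 21) 
(.lf (nat_lit 42639394) (dlOf (nat_lit 1) (nat_lit 0x400200040009260182))) 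
(.lf (nat_lit 11182114) (dlOf (nat_lit 1) (nat_lit 0x20018670481)))))) (.nd (nat_lit 27) 
(.nd (nat_lit 7) (.nd (nat_lit 19) 
(.lf (nat_lit 604151842) (dlOf (nat_lit 2) (nat_lit 0x58086003e02f0016009000b002800640000001d0a00580028040601))) 
(.lf (nat_lit 1678417954) (dlOf (nat_lit 2) (nat_lit 0x3a056000d5818210480)))) 
(.lf (nat_lit 1141025698) (dlOf (nat_lit 1) (nat_lit 0x800400020008095c82)))) (.nd (nat_lit 29) 
(.nd (nat_lit 32) (.lf (nat_lit 2348982306) (dlOf (nat_lit 1) (nat_lit 0x480028080781))) 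
(.lf (nat_lit 6643949602) (dlOf (nat_lit 3) (nat_lit 0xb01a800480d0002000000042060014035000d01a000480000006c0c006800400060018090502)))) 
(.lf (nat_lit 6107078690) (dlOf (nat_lit 1) (nat_lit 0x8008000c002000c0008060b83)))))) 
(.nd (nat_lit 22) (.nd (nat_lit 27) (.nd (nat_lit 8) (.nd (nat_lit 19) 
(.lf (nat_lit 44474402) (dlOf (nat_lit 2) (nat_lit 0x24cfc000000200040019320001))) 
(.lf (nat_lit 9347106) (dlOf (nat_lit 1) (nat_lit 0x3c00200060008540782)))) (.nd (nat_lit 7) 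
(.lf (nat_lit 2755567906) (dlOf (nat_lit 1) (nat_lit 0x3800281b0501))) 
(.lf (nat_lit 3221660066) (dlOf (nat_lit 2) (nat_lit 0x3804600439818170780))))) (.nd (nat_lit 7) 
(.nd (nat_lit 9) (.nd (nat_lit 26) 
(.lf (nat_lit 2819006498) (dlOf (nat_lit 10) (nat_lit 0x14000000240200a4065006902300ae8084000400c01a808c02ba0210000f82010c0108000780808581c0000408c0272045013f010803300800003a1401a008c024c045014001080090080000381000a40ca00ea0460151010800054180178084000260401cc08c01be02100630100000001802600080088002000c0008150183))) 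
(.lf (nat_lit 4496728098) (dlOf (nat_lit 1) (nat_lit 0xe0028160481)))) 
(.lf (nat_lit 134652450) (dlOf (nat_lit 1) (nat_lit 0x400400020008090d82)))) 
(.lf (nat_lit 134652322) (dlOf (nat_lit 1) (nat_lit 0x280080070002001c0008090783))))) 
(.nd (nat_lit 20) (.nd (nat_lit 23) (.nd (nat_lit 7) 
(.lf (nat_lit 38183970) (dlOf (nat_lit 1) (nat_lit 0x20019132881))) 
(.lf (nat_lit 21406114) (dlOf (nat_lit 1) (nat_lit 0x1400200020008a36b82)))) (.nd (nat_lit 21) 
(.lf (nat_lit 13017122) (dlOf (nat_lit 2) (nat_lit 0x298880004004001c002000c00086f0782))) 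
(.lf (nat_lit 48668706) (dlOf (nat_lit 2) (nat_lit 0x741f000300500001f029420180))))) 
(.nd (nat_lit 19) (.nd (nat_lit 23) 
(.lf (nat_lit 56008738) (dlOf (nat_lit 1) (nat_lit 0x2cc00200a40009710182))) 
(.lf (nat_lit 30842914) (dlOf (nat_lit 1) (nat_lit 0x400008e50a81)))) (.nd (nat_lit 7) 
(.lf (nat_lit 14589986) (dlOf (nat_lit 3) (nat_lit 0x149b0000160400164d80000002002a0028770181))) 
(.lf (nat_lit 8299938) (dlOf (nat_lit 1) (nat_lit 0x400200020008513602)))))))) (.nd (nat_lit 19) 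
(.nd (nat_lit 26) (.nd (nat_lit 18) (.nd (nat_lit 8) (.nd (nat_lit 31) 
(.lf (nat_lit 268607522) (dlOf (nat_lit 5) (nat_lit 0x1640280005602009c00b00410030000bc10000802c0005c04001802c000e015000c0058000581801300080058002001000080b0b83))) 
(.lf (nat_lit 6711058466) (dlOf (nat_lit 1) (nat_lit 0x8008000c002000c0008060b83)))) 
(.nd (nat_lit 7) (.lf (nat_lit 1342349602) (dlOf (nat_lit 1) (nat_lit 0x20028014301))) 
(.lf (nat_lit 5637318050) (dlOf (nat_lit 1) (nat_lit 0x3600280d3601))))) (.nd (nat_lit 7) 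
(.nd (nat_lit 27) 
(.lf (nat_lit 4563836962) (dlOf (nat_lit 15) (nat_lit 0x340042000560200d40210002a81000c018004880a4030c042000540600aa0310002981006c0188001440803a00c4000a0040d140580004102229c02c000200110b00160000fc088b700b00008038000380400ae0310001b8100a80140000bc0801900a4040804200016040010029000000180f0b80))) 
(.lf (nat_lit 4698054690) (dlOf (nat_lit 15) (nat_lit 0x340042000560200d40210002a81000c018004880a4030c042000540600aa0310002981006c0188001440803a00c4000a0040d140580004102229c02c000200110b00160000fc088b700b00008038000380400ae0310001b8100a80140000bc0801900a4040804200016040010029000000180f0b80)))) 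
(.lf (nat_lit 1344709794) (dlOf (nat_lit 2) (nat_lit 0xb0a68001e4080048008006800200060008982b83))))) 
(.nd (nat_lit 8) (.nd (nat_lit 32) (.nd (nat_lit 9) 
(.lf (nat_lit 2483200034) (dlOf (nat_lit 1) (nat_lit 0x480028080781))) 
(.lf (nat_lit 1409720866) (dlOf (nat_lit 1) (nat_lit 0x400400020008090d82)))) (.nd (nat_lit 27) 
(.lf (nat_lit 4630683682) (dlOf (nat_lit 3) (nat_lit 0x28026000288100560130000d4080a3800803dc002000e0008060b83))) 
(.lf (nat_lit 4764901410) (dlOf (nat_lit 3) (nat_lit 0x28026000288100560130000d4080a3800803dc002000e0008060b83))))) 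
(.nd (nat_lit 11) (.nd (nat_lit 18) 
(.lf (nat_lit 4228030882) (dlOf (nat_lit 4) (nat_lit 0x840460025e0100270230012e808001013c0094e04000400400100008016b82))) 
(.lf (nat_lit 1409720738) (dlOf (nat_lit 2) (nat_lit 0xc018001ce4080100008000400200180008090783)))) 
(.nd (nat_lit 7) (.lf (nat_lit 6241299234) (dlOf (nat_lit 1) (nat_lit 0x200180d5c01))) 
(.lf (nat_lit 6241298850) (dlOf (nat_lit 1) (nat_lit 0x22600180d4e81))))))) (.nd (nat_lit 20) 
(.nd (nat_lit 27) (.nd (nat_lit 7) (.nd (nat_lit 21) 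
(.lf (nat_lit 806002722) (dlOf (nat_lit 2) (nat_lit 0x3a056000d2018210480))) 
(.lf (nat_lit 1344970786) (dlOf (nat_lit 3) (nat_lit 0x2c2c0001c09c0001382004b046800048080008008000c002000400089a0183)))) 
(.lf (nat_lit 3490619810) (dlOf (nat_lit 1) (nat_lit 0x4a000401280008016b82)))) (.nd (nat_lit 26) 
(.nd (nat_lit 7) 
(.lf (nat_lit 5772058658) (dlOf (nat_lit 2) (nat_lit 0x84240000004000400200040008060b82))) 
(.lf (nat_lit 5772321954) (dlOf (nat_lit 2) (nat_lit 0x84095000fd018092b80)))) (.nd (nat_lit 30) 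
(.lf (nat_lit 3154812962) (dlOf (nat_lit 10) (nat_lit 0x4402a0003813c0050098001a04a0042019800100c4001c048000e022000500e8001806c019402c00c6014000f68c004702a00018144003009e000804c000d025002280cc000803600b8016005900a0007ac480188150000409e001404a00040120002808800e0028001ea0c000c0540006027800280cc00280480014022000b00e800748300020090000c03a001d104007e0190009101004c00c8004600801880640022e040104032001160200ae0028330a81))) 
(.lf (nat_lit 6376038434) (dlOf (nat_lit 2) (nat_lit 0x83dc0000004000400200040008060b82)))))) 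
(.nd (nat_lit 8) (.nd (nat_lit 26) (.nd (nat_lit 29) 
(.lf (nat_lit 1343922210) (dlOf (nat_lit 1) (nat_lit 0x20028380d01))) 
(.lf (nat_lit 1880793122) (dlOf (nat_lit 1) (nat_lit 0x3000400020018b90182)))) 
(.lf (nat_lit 4095385634) (dlOf (nat_lit 1) (nat_lit 0xb00080004002001800080a0803)))) 
(.nd (nat_lit 7) (.lf (nat_lit 3493765410) (dlOf (nat_lit 1) (nat_lit 0x3800281b0501))) 
(.lf (nat_lit 3491406242) (dlOf (nat_lit 1) (nat_lit 0x1000080078002001e0008090783)))))))) 
(.nd (nat_lit 7) (.nd (nat_lit 10) (.nd (nat_lit 8) (.nd (nat_lit 29) (.nd (nat_lit 20) 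
(.nd (nat_lit 21) (.lf (nat_lit 5368881250) (dlOf (nat_lit 1) (nat_lit 0x20028071c81))) 
(.lf (nat_lit 52600930) (dlOf (nat_lit 1) (nat_lit 0x60400401660009550902)))) (.nd (nat_lit 18) 
(.lf (nat_lit 62038114) (dlOf (nat_lit 1) (nat_lit 0x400009940d81))) 
(.lf (nat_lit 1343660130) (dlOf (nat_lit 3) (nat_lit 0x68584000429c001e09d0010047000710200058584003813a001a08e000bb8382e0480))))) 
(.nd (nat_lit 9) (.nd (nat_lit 18) 
(.lf (nat_lit 4966228066) (dlOf (nat_lit 1) (nat_lit 0xc0018071b01))) 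
(.lf (nat_lit 2819006562) (dlOf (nat_lit 7) (nat_lit 0x2e043000400e0001f41000b810c00100380007c040030043000500e0001d410001010c000e8040064086000e01c0003982004e01f800000080078008006c00200560008150d03)))) 
(.lf (nat_lit 6241299042) (dlOf (nat_lit 1) (nat_lit 0x4004000200080d5382))))) (.nd (nat_lit 19) 
(.nd (nat_lit 18) (.nd (nat_lit 20) 
(.lf (nat_lit 4228030818) (dlOf (nat_lit 2) (nat_lit 0xb8020002180b0012e208001c00400060008014f02))) 
(.lf (nat_lit 3318114) (dlOf (nat_lit 1) (nat_lit 0x8008001400200020008200703)))) 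
(.lf (nat_lit 3580258) (dlOf (nat_lit 2) (nat_lit 0x113600154940000150400020028200701)))) 
(.nd (nat_lit 20) (.nd (nat_lit 21) 
(.lf (nat_lit 537829730) (dlOf (nat_lit 2) (nat_lit 0xb2076004c0330000d01000700080164002003800081b0703))) 
(.lf (nat_lit 3055970) (dlOf (nat_lit 3) (nat_lit 0x40000003402000200000019818200700)))) 
(.lf (nat_lit 2007394) (dlOf (nat_lit 3) (nat_lit 0x40000003402000200000019818150700)))))) 
(.nd (nat_lit 19) (.nd (nat_lit 9) (.nd (nat_lit 8) 
(.lf (nat_lit 1880269922) (dlOf (nat_lit 1) (nat_lit 0xc00400060008802982))) 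
(.lf (nat_lit 173410) (dlOf (nat_lit 2) (nat_lit 0xc96e0002a0200020018003401)))) (.nd (nat_lit 12) 
(.nd (nat_lit 27) (.lf (nat_lit 5637318242) (dlOf (nat_lit 1) (nat_lit 0x1200280d3901))) 
(.lf (nat_lit 2013439586) (dlOf (nat_lit 2) (nat_lit 0xf01300011c080080008000c002000a0008093903)))) 
(.lf (nat_lit 2281879138) (dlOf (nat_lit 1) (nat_lit 0x200280a9c01))))) (.nd (nat_lit 20) 
(.nd (nat_lit 8) (.nd (nat_lit 18) 
(.lf (nat_lit 38446178) (dlOf (nat_lit 1) (nat_lit 0x400200020009132982))) 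
(.lf (nat_lit 38708322) (dlOf (nat_lit 1) (nat_lit 0x8008000800200040009132983)))) 
(.lf (nat_lit 69903714) (dlOf (nat_lit 1) (nat_lit 0x60018e13401)))) (.nd (nat_lit 21) 
(.lf (nat_lit 56271970) (dlOf (nat_lit 1) (nat_lit 0x1400400040009732982))) 
(.lf (nat_lit 37397602) (dlOf (nat_lit 1) (nat_lit 0x8004000400090d2982))))))) (.nd (nat_lit 8) 
(.nd (nat_lit 18) (.nd (nat_lit 10) (.nd (nat_lit 9) (.nd (nat_lit 20) 
(.lf (nat_lit 6463714) (dlOf (nat_lit 2) (nat_lit 0xb699800015018420580))) 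
(.lf (nat_lit 7512290) (dlOf (nat_lit 2) (nat_lit 0x10099c80574cb603f65fe02002cf00d7937c05609940002a0c000200284b0581)))) 
(.lf (nat_lit 3154295522) (dlOf (nat_lit 1) (nat_lit 0x4001815b981)))) (.nd (nat_lit 11) 
(.lf (nat_lit 2281878754) (dlOf (nat_lit 1) (nat_lit 0x4002000200080a9502))) 
(.lf (nat_lit 175330) (dlOf (nat_lit 1) (nat_lit 0x20018006501))))) (.nd (nat_lit 19) 
(.nd (nat_lit 10) (.lf (nat_lit 1611047138) (dlOf (nat_lit 2) (nat_lit 0x4003000000180c1b00))) 
(.lf (nat_lit 8824034) (dlOf (nat_lit 2) (nat_lit 0x16e680000004004800400060008512e02)))) 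
(.nd (nat_lit 20) (.lf (nat_lit 7250146) (dlOf (nat_lit 2) (nat_lit 0xc07fa004c000000150284b0580))) 
(.lf (nat_lit 6201570) (dlOf (nat_lit 2) (nat_lit 0x1fa99800090000000a8100008008000800200040008420583)))))) 
(.nd (nat_lit 9) (.nd (nat_lit 18) 
(.lf (nat_lit 4228030946) (dlOf (nat_lit 3) (nat_lit 0x9002a0003301006e0150000fc0801300080194002003a0008017303))) 
(.lf (nat_lit 3624313314) (dlOf (nat_lit 4) (nat_lit 0x11601b805700d4007401401d80000001704014d01b808100d4007c01402d6000000168400e301b800300d40134000000270600380018157301)))) 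
(.nd (nat_lit 10) (.nd (nat_lit 20) 
(.lf (nat_lit 179170) (dlOf (nat_lit 2) (nat_lit 0x2400000a5b020018001800bf01))) 
(.lf (nat_lit 20102114) (dlOf (nat_lit 1) (nat_lit 0x800089dbf01)))) 
(.lf (nat_lit 1677899746) (dlOf (nat_lit 21) (nat_lit 0xc016802b700800900b4003002e00ada04001802d004e601000702b0004814c00240260056406000c05600050298001004c00ac60c00480ac002a053001200980158418003815800280a6000e013002af83000902a8006804c00ab60800580ac0008013002a902000f02a8010f80800781540087804003c0aa0043b0200f80550001029800c0048008740c003c0aa000a0530021a82000f02a8010cc080008154007aa04003c0aa003d302001e055001e9010003009800f3408006015400540260000004006e002811a601))))))))) 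
(.nd (nat_lit 6) (.nd (nat_lit 19) (.nd (nat_lit 5) (.nd (nat_lit 18) (.nd (nat_lit 28) 
(.nd (nat_lit 9) (.nd (nat_lit 21) (.nd (nat_lit 7) 
(.lf (nat_lit 29597698) (dlOf (nat_lit 1) (nat_lit 0x400200020008e20002))) 
(.lf (nat_lit 1677959554) (dlOf (nat_lit 2) (nat_lit 0x4c06a00b802500252828125a80)))) 
(.nd (nat_lit 20) (.lf (nat_lit 23306242) (dlOf (nat_lit 1) (nat_lit 0x220018b80001))) 
(.lf (nat_lit 24354818) (dlOf (nat_lit 1) (nat_lit 0x60018b90001))))) (.nd (nat_lit 10) 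
(.nd (nat_lit 7) (.lf (nat_lit 9675266) (dlOf (nat_lit 1) (nat_lit 0x4a0028577f81))) 
(.lf (nat_lit 20163458) (dlOf (nat_lit 1) (nat_lit 0x8002000200089d5c02)))) (.nd (nat_lit 26) 
(.lf (nat_lit 2684597762) (dlOf (nat_lit 2) (nat_lit 0x10076000d902004a00080a9c01))) 
(.lf (nat_lit 3422795266) (dlOf (nat_lit 1) (nat_lit 0x400180a9c01)))))) (.nd (nat_lit 8) 
(.nd (nat_lit 32) (.nd (nat_lit 29) 
(.lf (nat_lit 1342414850) (dlOf (nat_lit 1) (nat_lit 0x20018020001))) 
(.lf (nat_lit 2953027586) (dlOf (nat_lit 1) (nat_lit 0xc4002004600080b0002)))) (.nd (nat_lit 27) 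
(.lf (nat_lit 4563640322) (dlOf (nat_lit 1) (nat_lit 0x3800080b0001))) 
(.lf (nat_lit 4697858050) (dlOf (nat_lit 1) (nat_lit 0x3800080b0001))))) (.nd (nat_lit 26) 
(.nd (nat_lit 30) 
(.lf (nat_lit 805544322) (dlOf (nat_lit 2) (nat_lit 0x4c06a00b80250051d028125a80))) 
(.lf (nat_lit 4026769794) (dlOf (nat_lit 2) (nat_lit 0x6003200000018090780)))) (.nd (nat_lit 7) 
(.lf (nat_lit 1008967938) (dlOf (nat_lit 2) (nat_lit 0xa8063005402f800594100030008002c00200020009000a83))) 
(.lf (nat_lit 6241364866) (dlOf (nat_lit 6) (nat_lit 0x1009000558080020048001ae040010024000cd02000a012000660100030090002140800b00080054002000600080d5c03))))))) 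
(.nd (nat_lit 28) (.nd (nat_lit 23) (.nd (nat_lit 26) (.nd (nat_lit 20) 
(.lf (nat_lit 1611112450) (dlOf (nat_lit 1) (nat_lit 0x200180e0001))) 
(.lf (nat_lit 37199874) (dlOf (nat_lit 1) (nat_lit 0x180080004002000200090b0003)))) 
(.nd (nat_lit 7) (.lf (nat_lit 738697218) (dlOf (nat_lit 1) (nat_lit 0x200180e0001))) 
(.lf (nat_lit 1678221442) (dlOf (nat_lit 3) (nat_lit 0x3c03a0001781002e0288000a80800c00080018002002800081a0103))))) 
(.nd (nat_lit 10) (.nd (nat_lit 21) 
(.lf (nat_lit 42442754) (dlOf (nat_lit 1) (nat_lit 0xa0019250001))) 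
(.lf (nat_lit 10985474) (dlOf (nat_lit 2) (nat_lit 0xec258009e408015800800ac002000a0008650003)))) 
(.nd (nat_lit 7) (.lf (nat_lit 61318658) (dlOf (nat_lit 1) (nat_lit 0x8008000400200020009923683))) 
(.lf (nat_lit 43492738) (dlOf (nat_lit 1) (nat_lit 0x80080004002000400092a3583)))))) 
(.nd (nat_lit 27) (.nd (nat_lit 7) (.nd (nat_lit 20) 
(.lf (nat_lit 2416418818) (dlOf (nat_lit 1) (nat_lit 0x880080014002003000081c0003))) 
(.lf (nat_lit 3491209218) (dlOf (nat_lit 1) (nat_lit 0x1400200040008070002)))) 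
(.lf (nat_lit 805806210) (dlOf (nat_lit 3) (nat_lit 0x3c03a0001781002e0288000a80800c00080018002002800081a0103)))) 
(.nd (nat_lit 21) 
(.lf (nat_lit 2550636546) (dlOf (nat_lit 1) (nat_lit 0x880080014002003000081c0003))) 
(.lf (nat_lit 1009229826) (dlOf (nat_lit 2) (nat_lit 0x201c00183c02000200190a0001))))))) 
(.nd (nat_lit 26) (.nd (nat_lit 8) (.nd (nat_lit 18) (.nd (nat_lit 7) (.nd (nat_lit 20) 
(.lf (nat_lit 1342414882) (dlOf (nat_lit 5) (nat_lit 0x460aa0014080803a891c0035604004448e001a7020062247000c4818020480))) 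
(.lf (nat_lit 1343463458) (dlOf (nat_lit 4) (nat_lit 0x21047000581f80011008001c11c000607e0004382000404700021808010800800b4002002c0008250783)))) 
(.lf (nat_lit 20166306) (dlOf (nat_lit 1) (nat_lit 0x100080010002000600089d9f83)))) 
(.nd (nat_lit 22) (.nd (nat_lit 7) 
(.lf (nat_lit 36151330) (dlOf (nat_lit 1) (nat_lit 0x8008001400200020009030183))) 
(.lf (nat_lit 1074245282) (dlOf (nat_lit 2) (nat_lit 0x101e8000d00800280080008002000600080f7203)))) 
(.nd (nat_lit 25) 
(.lf (nat_lit 15179810) (dlOf (nat_lit 1) (nat_lit 0x90008005c002002200087c0603))) 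
(.lf (nat_lit 48734242) (dlOf (nat_lit 8) (nat_lit 0x5958200017bf80013810010d6080009a0400b6e7a0004602005b73d00022810001b9280010c0801656080008404018b4f800c58d10083b9e00335c94018ab0400d2ff700687bf80313cb00007c200258004006e0019420182)))))) 
(.nd (nat_lit 27) (.nd (nat_lit 7) (.nd (nat_lit 20) 
(.lf (nat_lit 23306530) (dlOf (nat_lit 1) (nat_lit 0x360028b80501))) 
(.lf (nat_lit 3490947362) (dlOf (nat_lit 3) (nat_lit 0x2005000a3d02000a0190051a818047800)))) 
(.lf (nat_lit 23306658) (dlOf (nat_lit 5) (nat_lit 0x3ec5801d1008003762c00e86040013b160073a02003dd8b0039c818b80780)))) 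
(.nd (nat_lit 7) (.nd (nat_lit 18) 
(.lf (nat_lit 671326498) (dlOf (nat_lit 1) (nat_lit 0x80018154301))) 
(.lf (nat_lit 3624378658) (dlOf (nat_lit 1) (nat_lit 0x400400020018187802)))) 
(.lf (nat_lit 2550374818) (dlOf (nat_lit 2) (nat_lit 0x808000e7404000400400020008090782)))))) 
(.nd (nat_lit 18) (.nd (nat_lit 27) (.nd (nat_lit 7) 
(.lf (nat_lit 3288572450) (dlOf (nat_lit 9) (nat_lit 0x1a80ac007c048012e00d000b60300ca010002e002c0029e080108040000800b0007d0200c2010004f002c001f008010c016000f702017e020009b0058003d4100458100004406400ec0300076014803c008800006140238080014c03000850148044008800002100200004000c0018090d82))) 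
(.nd (nat_lit 8) 
(.lf (nat_lit 2483265698) (dlOf (nat_lit 2) (nat_lit 0x10020001310200020008090201))) 
(.lf (nat_lit 3288572322) (dlOf (nat_lit 6) (nat_lit 0x33003c00fde04025c082022c03f021c017010d00b40870050044002701ed01300d2808400a803c0402012022400880ca00240054000007441a023e02e0217016801180a0067004e03d002601f9009010b804400e861c007007e044c02e0219016808980a007c804e032e026001a01080ff8048088c022002a0000039d0a000801f810600b8087405a041602701e701300098078079402403f60110011000001ce44805c8008047000203fc0008090783))))) 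
(.nd (nat_lit 8) (.nd (nat_lit 28) 
(.lf (nat_lit 4496531490) (dlOf (nat_lit 1) (nat_lit 0xe00280d0481))) 
(.lf (nat_lit 469999650) (dlOf (nat_lit 2) (nat_lit 0x2162470008e818020480)))) 
(.lf (nat_lit 1543741730) (dlOf (nat_lit 1) (nat_lit 0x20018154301))))) (.nd (nat_lit 27) 
(.nd (nat_lit 28) 
(.lf (nat_lit 1678221346) (dlOf (nat_lit 3) (nat_lit 0x17102b006b804c00f9a0805c80ac0196013003e58281a0000))) 
(.lf (nat_lit 3557269538) (dlOf (nat_lit 2) (nat_lit 0x2022802f500800680080020002000e0008190703)))) 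
(.nd (nat_lit 7) (.nd (nat_lit 21) 
(.lf (nat_lit 1007132706) (dlOf (nat_lit 1) (nat_lit 0xc004000600081c0602))) 
(.lf (nat_lit 1009229858) (dlOf (nat_lit 2) (nat_lit 0x2089000200190a0180)))) 
(.lf (nat_lit 3959923106) (dlOf (nat_lit 1) (nat_lit 0xd40008170781)))))))) (.nd (nat_lit 5) 
(.nd (nat_lit 21) (.nd (nat_lit 26) (.nd (nat_lit 23) (.nd (nat_lit 22) (.nd (nat_lit 18) 
(.lf (nat_lit 5773172738) (dlOf (nat_lit 1) (nat_lit 0x4004000200080b0002))) 
(.lf (nat_lit 17801218) (dlOf (nat_lit 1) (nat_lit 0x3c002000400088f0002)))) (.nd (nat_lit 24) 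
(.lf (nat_lit 4956162) (dlOf (nat_lit 1) (nat_lit 0x200282d0001))) 
(.lf (nat_lit 21733378) (dlOf (nat_lit 6) (nat_lit 0x110a1000283a4011000800402840087f02000a142004388100090a2800104e4000c1d20080c060012145000409c800283a4010160c001000400940018a60002))))) 
(.nd (nat_lit 18) (.nd (nat_lit 24) 
(.lf (nat_lit 9150466) (dlOf (nat_lit 1) (nat_lit 0x400400020008520002))) 
(.lf (nat_lit 59482114) (dlOf (nat_lit 1) (nat_lit 0x38008002400200180009800003)))) 
(.nd (nat_lit 7) (.lf (nat_lit 44015618) (dlOf (nat_lit 2) (nat_lit 0x749700ce20192b0000))) 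
(.lf (nat_lit 42967426) (dlOf (nat_lit 1) (nat_lit 0xa400292a1001)))))) (.nd (nat_lit 27) 
(.nd (nat_lit 9) (.nd (nat_lit 20) 
(.lf (nat_lit 3557531650) (dlOf (nat_lit 1) (nat_lit 0x800200040008240002))) 
(.lf (nat_lit 4095451138) (dlOf (nat_lit 2) (nat_lit 0x810c0074102000a00080b0001)))) 
(.lf (nat_lit 2752487938) (dlOf (nat_lit 1) (nat_lit 0x2400200060008017f82)))) (.nd (nat_lit 7) 
(.nd (nat_lit 20) 
(.lf (nat_lit 1007394818) (dlOf (nat_lit 1) (nat_lit 0x8008000c00200020008320003))) 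
(.lf (nat_lit 6377152514) (dlOf (nat_lit 1) (nat_lit 0x4004000200080b0002)))) 
(.lf (nat_lit 6376368770) (dlOf (nat_lit 1) (nat_lit 0x400400020008095482)))))) (.nd (nat_lit 18) 
(.nd (nat_lit 20) (.nd (nat_lit 23) (.nd (nat_lit 7) (.nd (nat_lit 26) 
(.lf (nat_lit 3492519938) (dlOf (nat_lit 1) (nat_lit 0x400280d0001))) 
(.lf (nat_lit 2754322434) (dlOf (nat_lit 1) (nat_lit 0x400280d0001)))) 
(.lf (nat_lit 19640706) (dlOf (nat_lit 1) (nat_lit 0xa80080048002001a00089d8383)))) 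
(.nd (nat_lit 22) 
(.lf (nat_lit 28024834) (dlOf (nat_lit 3) (nat_lit 0x503ec00af40400201f6000000200020018d50001))) 
(.lf (nat_lit 15441922) (dlOf (nat_lit 1) (nat_lit 0x4004000200087f0002))))) (.nd (nat_lit 8) 
(.nd (nat_lit 10) (.lf (nat_lit 1346084866) (dlOf (nat_lit 1) (nat_lit 0x20018e30001))) 
(.lf (nat_lit 50045954) (dlOf (nat_lit 1) (nat_lit 0xc00294c2881)))) 
(.lf (nat_lit 8107778) (dlOf (nat_lit 1) (nat_lit 0x40040002000851a002))))) (.nd (nat_lit 24) 
(.nd (nat_lit 23) 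
(.lf (nat_lit 1345298434) (dlOf (nat_lit 1) (nat_lit 0x18008000400200020008b50003))) 
(.lf (nat_lit 11509762) (dlOf (nat_lit 1) (nat_lit 0x2c00086b0001)))) (.nd (nat_lit 8) 
(.lf (nat_lit 53452802) (dlOf (nat_lit 1) (nat_lit 0x200095e0001))) 
(.lf (nat_lit 24092930) (dlOf (nat_lit 1) (nat_lit 0x1700008b80481))))))) (.nd (nat_lit 21) 
(.nd (nat_lit 18) (.nd (nat_lit 9) (.nd (nat_lit 20) (.nd (nat_lit 26) 
(.lf (nat_lit 1342939170) (dlOf (nat_lit 1) (nat_lit 0x4002001c0008110b82))) 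
(.lf (nat_lit 470523938) (dlOf (nat_lit 1) (nat_lit 0x4002001c0008110b82)))) (.nd (nat_lit 23) 
(.lf (nat_lit 3491471394) (dlOf (nat_lit 1) (nat_lit 0xc00400060018090002))) 
(.lf (nat_lit 10199074) (dlOf (nat_lit 1) (nat_lit 0x280080028002001200085c0983))))) 
(.nd (nat_lit 7) (.lf (nat_lit 67876642) (dlOf (nat_lit 1) (nat_lit 0x24001833a001))) 
(.nd (nat_lit 27) (.lf (nat_lit 4362841762) (dlOf (nat_lit 1) (nat_lit 0x20028117201))) 
(.lf (nat_lit 202092194) (dlOf (nat_lit 2) (nat_lit 0x404a0001c0180f7200)))))) (.nd (nat_lit 22) 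
(.nd (nat_lit 26) (.nd (nat_lit 20) 
(.lf (nat_lit 1024034) (dlOf (nat_lit 1) (nat_lit 0x40008050c01))) 
(.lf (nat_lit 10461218) (dlOf (nat_lit 1) (nat_lit 0x200085e0c01)))) (.nd (nat_lit 7) 
(.lf (nat_lit 470786082) (dlOf (nat_lit 1) (nat_lit 0x18008001c002000a00081a0603))) 
(.lf (nat_lit 6376368546) (dlOf (nat_lit 1) (nat_lit 0x34800200140008094e82))))) (.nd (nat_lit 23) 
(.lf (nat_lit 21995554) (dlOf (nat_lit 1) (nat_lit 0x400200020008a80982))) 
(.lf (nat_lit 13606946) (dlOf (nat_lit 2) (nat_lit 0x55bd3000a2018730900)))))) (.nd (nat_lit 7) 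
(.nd (nat_lit 28) (.nd (nat_lit 9) (.nd (nat_lit 10) 
(.lf (nat_lit 3907618) (dlOf (nat_lit 1) (nat_lit 0x20008250b81))) 
(.lf (nat_lit 19641378) (dlOf (nat_lit 1) (nat_lit 0x100080008002000400089d9203)))) 
(.lf (nat_lit 69968418) (dlOf (nat_lit 2) (nat_lit 0x12000000cfc04005800200260008e28702)))) 
(.nd (nat_lit 8) (.nd (nat_lit 18) 
(.lf (nat_lit 1345036322) (dlOf (nat_lit 3) (nat_lit 0x4143000010100050b3800000080030008002c002001200089d0703))) 
(.lf (nat_lit 473931810) (dlOf (nat_lit 2) (nat_lit 0x400cd00007018fc0180)))) 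
(.lf (nat_lit 3492788514) (dlOf (nat_lit 1) (nat_lit 0x4004000200080fab82))))) (.nd (nat_lit 8) 
(.nd (nat_lit 9) (.nd (nat_lit 10) 
(.lf (nat_lit 3492784290) (dlOf (nat_lit 1) (nat_lit 0x80080014002000200080f4883))) 
(.lf (nat_lit 58434722) (dlOf (nat_lit 1) (nat_lit 0x200297e2b81)))) 
(.lf (nat_lit 58436258) (dlOf (nat_lit 1) (nat_lit 0x2800297e5601)))) (.nd (nat_lit 10) 
(.nd (nat_lit 20) (.lf (nat_lit 19900834) (dlOf (nat_lit 1) (nat_lit 0x2a00189d4e81))) 
(.lf (nat_lit 58698146) (dlOf (nat_lit 1) (nat_lit 0x200197e4e81)))) (.nd (nat_lit 9) 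
(.lf (nat_lit 19643810) (dlOf (nat_lit 3) (nat_lit 0xcb01000330100055808000000800b80080040002000600089dcb03))) 
(.lf (nat_lit 19640226) (dlOf (nat_lit 1) (nat_lit 0x200289d7881)))))))))) (.nd (nat_lit 8) 
(.nd (nat_lit 18) (.nd (nat_lit 28) (.nd (nat_lit 7) (.nd (nat_lit 22) (.nd (nat_lit 26) 
(.nd (nat_lit 19) (.nd (nat_lit 27) 
(.lf (nat_lit 3758334018) (dlOf (nat_lit 1) (nat_lit 0x20008130081))) 
(.lf (nat_lit 134455362) (dlOf (nat_lit 3) (nat_lit 0x2080c401940220000304007403100610088000001002a800800b800200060008020783)))) 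
(.lf (nat_lit 59482178) (dlOf (nat_lit 2) (nat_lit 0xc19f40054cf800386660014332800d9650004cb26002a4e6001226a000550400008008002000200040009800603)))) 
(.nd (nat_lit 9) 
(.lf (nat_lit 201564226) (dlOf (nat_lit 3) (nat_lit 0x2080c401940220000304007403100610088000001002a800800b800200060008020783))) 
(.nd (nat_lit 11) 
(.lf (nat_lit 3288572482) (dlOf (nat_lit 2) (nat_lit 0x1c4000000000200040008091081))) 
(.lf (nat_lit 69446210) (dlOf (nat_lit 1) (nat_lit 0x100080004002000400089c5203)))))) 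
(.nd (nat_lit 5) (.nd (nat_lit 20) 
(.lf (nat_lit 12820546) (dlOf (nat_lit 1) (nat_lit 0x39c004015a00086e0d02))) 
(.lf (nat_lit 47423554) (dlOf (nat_lit 1) (nat_lit 0x5600093f0d81)))) 
(.lf (nat_lit 38511714) (dlOf (nat_lit 1) (nat_lit 0x4002008e0009132982))))) (.nd (nat_lit 19) 
(.nd (nat_lit 5) (.lf (nat_lit 31696066) (dlOf (nat_lit 1) (nat_lit 0x200018e92d01))) 
(.nd (nat_lit 20) 
(.lf (nat_lit 19112162) (dlOf (nat_lit 2) (nat_lit 0xc4c3006b2318000a8100008008001000200060008970583))) 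
(.lf (nat_lit 22257890) (dlOf (nat_lit 1) (nat_lit 0x20008ab6481))))) (.nd (nat_lit 5) 
(.lf (nat_lit 67877570) (dlOf (nat_lit 1) (nat_lit 0x2001833b981))) (.nd (nat_lit 11) 
(.lf (nat_lit 9150690) (dlOf (nat_lit 2) (nat_lit 0xf490800fc40800080080010002001e0008524203))) 
(.lf (nat_lit 19642594) (dlOf (nat_lit 1) (nat_lit 0x1600289da881))))))) (.nd (nat_lit 27) 
(.nd (nat_lit 10) (.nd (nat_lit 9) (.nd (nat_lit 30) 
(.lf (nat_lit 4563640386) (dlOf (nat_lit 1) (nat_lit 0x80080004002000200080b0583))) 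
(.lf (nat_lit 1342414914) (dlOf (nat_lit 4) (nat_lit 0x6d046201b622b000170202d2124804f08fc09203e004ca1c702150de8000182803889300b784920386248009011f80e908c4041445600ee22801720f9012287c004fc3de00881ee01d20f4806f077c095838e040c1bd001a00000000080087800801c80020aa60008020783)))) 
(.lf (nat_lit 4026769986) (dlOf (nat_lit 2) (nat_lit 0x1c4000000000200040008091081)))) 
(.nd (nat_lit 26) (.lf (nat_lit 6174254146) (dlOf (nat_lit 1) (nat_lit 0x8004000200080d2882))) 
(.lf (nat_lit 5704492098) (dlOf (nat_lit 1) (nat_lit 0x8004000200080d2882))))) (.nd (nat_lit 26) 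
(.nd (nat_lit 32) (.lf (nat_lit 402890818) (dlOf (nat_lit 1) (nat_lit 0x4004000200080a1682))) 
(.lf (nat_lit 4697858114) (dlOf (nat_lit 1) (nat_lit 0x80080004002000200080b0583)))) 
(.nd (nat_lit 5) 
(.lf (nat_lit 469999682) (dlOf (nat_lit 4) (nat_lit 0x6d046201b622b000170202d2124804f08fc09203e004ca1c702150de8000182803889300b784920386248009011f80e908c4041445600ee22801720f9812287c004fc3de00881ee01d20f4806f077c095838e040c1bd001a00000000080087800801c80020aa60008020783))) 
(.lf (nat_lit 1008967906) (dlOf (nat_lit 1) (nat_lit 0x8008000400200620009000a83))))))) 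
(.nd (nat_lit 7) (.nd (nat_lit 19) (.nd (nat_lit 9) (.nd (nat_lit 26) (.nd (nat_lit 27) 
(.lf (nat_lit 5637644354) (dlOf (nat_lit 1) (nat_lit 0x400200020008140d82))) 
(.lf (nat_lit 3892813890) (dlOf (nat_lit 1) (nat_lit 0x400200020008280002)))) 
(.lf (nat_lit 6241624130) (dlOf (nat_lit 1) (nat_lit 0x400200020008140d82)))) (.nd (nat_lit 26) 
(.lf (nat_lit 1342677570) (dlOf (nat_lit 1) (nat_lit 0x200280c1081))) 
(.lf (nat_lit 470262338) (dlOf (nat_lit 1) (nat_lit 0x200280c1081))))) (.nd (nat_lit 5) 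
(.nd (nat_lit 9) (.nd (nat_lit 23) 
(.lf (nat_lit 21995586) (dlOf (nat_lit 17) (nat_lit 0x1880000008a0400540000004302009e0000001f8100165e6000d2f08007176a0032b9d00170b10001035c0068126001201c000b00b8002805400740000003c16000e01500210000000ec100072f30008d76a00100dd001506b8007024c0064038003e017000e00a8000e4400188000000600400c40000002f0200180fa0000b01002307d002500000002a0800c80000000a020096000000038100460000000180801880000000a0400c40000000102005cbcf003a5868002ac1c00cd568004a986000607d002a0000000001c000800400d80018a80e02))) 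
(.lf (nat_lit 13606978) (dlOf (nat_lit 6) (nat_lit 0x1e370092718c03c37ac00061060247c6300f0deb0001801005bf18c03f77ac00029040225c6300fadeb00008810086718c03677ac000000400080018730c01)))) 
(.lf (nat_lit 36678210) (dlOf (nat_lit 1) (nat_lit 0x800200040009075202)))) (.nd (nat_lit 9) 
(.nd (nat_lit 20) (.lf (nat_lit 1343201378) (dlOf (nat_lit 1) (nat_lit 0x20028190d01))) 
(.lf (nat_lit 46112866) (dlOf (nat_lit 1) (nat_lit 0x700080004002000e0009380103)))) 
(.lf (nat_lit 6376368738) (dlOf (nat_lit 1) (nat_lit 0x400400020008095382)))))) (.nd (nat_lit 5) 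
(.nd (nat_lit 20) (.nd (nat_lit 10) 
(.lf (nat_lit 19902658) (dlOf (nat_lit 1) (nat_lit 0x200289d7f01))) 
(.lf (nat_lit 55551170) (dlOf (nat_lit 1) (nat_lit 0x3c00296d2d01)))) (.nd (nat_lit 21) 
(.lf (nat_lit 48211138) (dlOf (nat_lit 1) (nat_lit 0xc0019402d01))) 
(.lf (nat_lit 33531074) (dlOf (nat_lit 1) (nat_lit 0x20004000a0008f52d02))))) (.nd (nat_lit 19) 
(.nd (nat_lit 26) (.nd (nat_lit 9) 
(.lf (nat_lit 3758596322) (dlOf (nat_lit 1) (nat_lit 0x4004000200082c0582))) 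
(.lf (nat_lit 1476897506) (dlOf (nat_lit 3) (nat_lit 0x580f40004068001c02a000e01000048030001001200180000001f8700020000000000800100080034002000e00082d5983)))) 
(.nd (nat_lit 28) (.lf (nat_lit 67608802) (dlOf (nat_lit 2) (nat_lit 0x13a11000015018240580))) 
(.lf (nat_lit 3020398818) (dlOf (nat_lit 1) (nat_lit 0x4004000200082c0582))))) (.nd (nat_lit 9) 
(.nd (nat_lit 10) 
(.lf (nat_lit 46112994) (dlOf (nat_lit 2) (nat_lit 0x1a460005b4080120008000400200220009380a83))) 
(.lf (nat_lit 42968290) (dlOf (nat_lit 1) (nat_lit 0x1200192a2e01)))) 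
(.lf (nat_lit 19905250) (dlOf (nat_lit 1) (nat_lit 0x200189db981)))))))) (.nd (nat_lit 18) 
(.nd (nat_lit 7) (.nd (nat_lit 26) (.nd (nat_lit 28) (.nd (nat_lit 5) (.nd (nat_lit 27) 
(.lf (nat_lit 537108802) (dlOf (nat_lit 1) (nat_lit 0x20028014c01))) 
(.lf (nat_lit 671326530) (dlOf (nat_lit 1) (nat_lit 0xc00200080008154c02)))) 
(.lf (nat_lit 11772258) (dlOf (nat_lit 1) (nat_lit 0x17200086c0701)))) (.nd (nat_lit 22) 
(.lf (nat_lit 805544258) (dlOf (nat_lit 3) (nat_lit 0x580140043f02004200a0021d818124c00))) 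
(.lf (nat_lit 3494093122) (dlOf (nat_lit 4) (nat_lit 0xc82130002b01001a0878000b408031843c005820e00900fb000158381b0600))))) 
(.nd (nat_lit 30) (.nd (nat_lit 9) (.nd (nat_lit 11) 
(.lf (nat_lit 2755895618) (dlOf (nat_lit 2) (nat_lit 0x4e022000278181b0600))) 
(.lf (nat_lit 2885921090) (dlOf (nat_lit 2) (nat_lit 0x6020000080000000008000800400120008144d02)))) 
(.nd (nat_lit 5) (.lf (nat_lit 4899187522) (dlOf (nat_lit 1) (nat_lit 0x18c002007400080d5c02))) 
(.lf (nat_lit 4899187554) (dlOf (nat_lit 1) (nat_lit 0x2cc00201b800080d5c02))))) (.nd (nat_lit 27) 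
(.nd (nat_lit 28) 
(.lf (nat_lit 1677959490) (dlOf (nat_lit 3) (nat_lit 0x58014009d402004200a004e9018124c00))) 
(.lf (nat_lit 1409524034) (dlOf (nat_lit 1) (nat_lit 0x20028014c01)))) (.nd (nat_lit 10) 
(.lf (nat_lit 1543741762) (dlOf (nat_lit 1) (nat_lit 0xc00200080008154c02))) 
(.lf (nat_lit 1275307330) (dlOf (nat_lit 1) (nat_lit 0x4004000200080e3302))))))) (.nd (nat_lit 19) 
(.nd (nat_lit 30) (.nd (nat_lit 5) (.nd (nat_lit 27) 
(.lf (nat_lit 2416157122) (dlOf (nat_lit 1) (nat_lit 0x40008090901))) 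
(.lf (nat_lit 2550374850) (dlOf (nat_lit 1) (nat_lit 0x40008090901)))) 
(.lf (nat_lit 9675234) (dlOf (nat_lit 1) (nat_lit 0x800200420008577d02)))) (.nd (nat_lit 10) 
(.nd (nat_lit 26) (.lf (nat_lit 4026769858) (dlOf (nat_lit 1) (nat_lit 0x20018090901))) 
(.lf (nat_lit 3288572354) (dlOf (nat_lit 1) (nat_lit 0x20018090901)))) 
(.lf (nat_lit 6174254530) (dlOf (nat_lit 1) (nat_lit 0x1000080d3601))))) (.nd (nat_lit 5) 
(.nd (nat_lit 9) 
(.lf (nat_lit 69968322) (dlOf (nat_lit 1) (nat_lit 0xb900080010002027a0008e27a83))) 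
(.lf (nat_lit 20691906) (dlOf (nat_lit 1) (nat_lit 0x80080010002000200089dbe03)))) 
(.nd (nat_lit 21) (.lf (nat_lit 38511586) (dlOf (nat_lit 1) (nat_lit 0x20009132881))) 
(.lf (nat_lit 36414434) (dlOf (nat_lit 1) (nat_lit 0x40019072881))))))) (.nd (nat_lit 19) 
(.nd (nat_lit 5) (.nd (nat_lit 26) (.nd (nat_lit 9) (.nd (nat_lit 10) 
(.lf (nat_lit 805806402) (dlOf (nat_lit 12) (nat_lit 0x38110000660405340880286043005001d802400cc000641000b0088000a0430001882009c0220054010c007c066000300600cc04c00af0240057811c018806a012403400b30128057009000dc00c0002c10006e04c00270120000ac1019d01300e0c0900706047033601a815080d00e4004a0716024002200a0000a84002d8130008808e000a02500720120000a42002d8130016c0480002804001e035000138100630000000000803b800804d0002005000081a0603))) 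
(.lf (nat_lit 40346946) (dlOf (nat_lit 1) (nat_lit 0x438004028e00091f3302)))) 
(.lf (nat_lit 501570) (dlOf (nat_lit 4) (nat_lit 0x110ea80010724000838800161770001b04000c0ea8006072400303880018177000170400030bb8000b4080008008004400200040008003e03)))) 
(.nd (nat_lit 27) (.nd (nat_lit 29) 
(.lf (nat_lit 4362576194) (dlOf (nat_lit 2) (nat_lit 0x2240a200c402d00015828090600))) 
(.lf (nat_lit 1678221634) (dlOf (nat_lit 12) (nat_lit 0x38110000680405340880286043005001d802400cc000661000b0088000a0430001902009c0220054010c007c066000310600cc04c00af0240057811c018806a012403400b30128057009000dc00c0002d10006e04c00270120000b01019d01300e0c0900706047033601a815080d00e4004a0716024002200a0000ac4002d8130008808e000a02500720120000a82002d8130016c0480002904001e035000138100630000000000803b800804d0002005000081a0603)))) 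
(.lf (nat_lit 4228358466) (dlOf (nat_lit 2) (nat_lit 0x22409400c402c00015028090600))))) 
(.nd (nat_lit 10) (.nd (nat_lit 21) (.nd (nat_lit 26) 
(.lf (nat_lit 805806434) (dlOf (nat_lit 1) (nat_lit 0x1c004003800081a0702))) 
(.lf (nat_lit 1678221666) (dlOf (nat_lit 1) (nat_lit 0x1c004003800081a0702)))) 
(.lf (nat_lit 23568738) (dlOf (nat_lit 1) (nat_lit 0x9a0008b80701)))) (.nd (nat_lit 7) 
(.lf (nat_lit 3490164066) (dlOf (nat_lit 1) (nat_lit 0x40028006a81))) 
(.lf (nat_lit 505826) (dlOf (nat_lit 2) (nat_lit 0x1c0578026028c00ab60800040040002000800a602)))))) 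
(.nd (nat_lit 5) (.nd (nat_lit 21) (.nd (nat_lit 7) (.nd (nat_lit 26) 
(.lf (nat_lit 3490685250) (dlOf (nat_lit 1) (nat_lit 0x660028014c01))) 
(.lf (nat_lit 2752487746) (dlOf (nat_lit 1) (nat_lit 0x660028014c01)))) 
(.lf (nat_lit 42967490) (dlOf (nat_lit 1) (nat_lit 0x1800292a1081)))) (.nd (nat_lit 7) 
(.nd (nat_lit 26) (.lf (nat_lit 3493830978) (dlOf (nat_lit 1) (nat_lit 0x4002000200081b0602))) 
(.lf (nat_lit 2755633474) (dlOf (nat_lit 1) (nat_lit 0x4002000200081b0602)))) 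
(.lf (nat_lit 3492788162) (dlOf (nat_lit 1) (nat_lit 0x18002000a00080fa602))))) (.nd (nat_lit 20) 
(.nd (nat_lit 7) (.lf (nat_lit 2752487778) (dlOf (nat_lit 1) (nat_lit 0x3000201340008014f02))) 
(.lf (nat_lit 3490685410) (dlOf (nat_lit 3) (nat_lit 0x82980005c04042c18000220b2001104f000054180240008033400200040008017303)))) 
(.nd (nat_lit 11) (.lf (nat_lit 2072930) (dlOf (nat_lit 1) (nat_lit 0x4000400180018150702))) 
(.lf (nat_lit 41920866) (dlOf (nat_lit 1) (nat_lit 0x20019244e81))))))))))))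

end

end Pool.Agent.Lib.MP_5854e1_co.Cz

namespace Pool.Agent.Lib.MP_5854e1_co.Cz

noncomputable section

noncomputable def tz132 : DT := (.nd (nat_lit 5) (.nd (nat_lit 13) (.nd (nat_lit 28) 
(.nd (nat_lit 15) (.nd (nat_lit 18) (.nd (nat_lit 26) (.nd (nat_lit 7) (.nd (nat_lit 6) 
(.nd (nat_lit 22) (.nd (nat_lit 8) (.nd (nat_lit 19) 
(.lf (nat_lit 10485770) (dlOf (nat_lit 3) (nat_lit 0x21c5400138040054e2a0008d02000400085e0581))) 
(.lf (nat_lit 2819096586) (dlOf (nat_lit 3) (nat_lit 0x2c06c0014f0200220360009d8181a0480)))) 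
(.nd (nat_lit 27) (.nd (nat_lit 29) 
(.lf (nat_lit 1073744138) (dlOf (nat_lit 1) (nat_lit 0x400400020008004b82))) 
(.lf (nat_lit 536873226) (dlOf (nat_lit 1) (nat_lit 0x400400020008004b82)))) 
(.lf (nat_lit 4429187338) (dlOf (nat_lit 1) (nat_lit 0x400400020008004b82))))) (.nd (nat_lit 19) 
(.nd (nat_lit 8) (.nd (nat_lit 21) 
(.lf (nat_lit 12582922) (dlOf (nat_lit 1) (nat_lit 0x200186d0681))) 
(.lf (nat_lit 14680074) (dlOf (nat_lit 1) (nat_lit 0x400200020008770002)))) 
(.lf (nat_lit 40894730) (dlOf (nat_lit 1) (nat_lit 0x8c00400160009203682)))) (.nd (nat_lit 9) 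
(.lf (nat_lit 56099850) (dlOf (nat_lit 1) (nat_lit 0x20019732881))) 
(.lf (nat_lit 58196490) (dlOf (nat_lit 1) (nat_lit 0x24004000200097c7b02)))))) (.nd (nat_lit 9) 
(.nd (nat_lit 8) (.nd (nat_lit 19) 
(.lf (nat_lit 25165898) (dlOf (nat_lit 1) (nat_lit 0x20018be1481))) 
(.lf (nat_lit 134742090) (dlOf (nat_lit 1) (nat_lit 0x100080010002000400080a0e83)))) 
(.lf (nat_lit 4294974794) (dlOf (nat_lit 1) (nat_lit 0x2002800c901)))) (.nd (nat_lit 27) 
(.lf (nat_lit 2684360266) (dlOf (nat_lit 1) (nat_lit 0x400400020008009c02))) (.nd (nat_lit 29) 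
(.lf (nat_lit 2281707082) (dlOf (nat_lit 1) (nat_lit 0x400400020008009c02))) 
(.lf (nat_lit 6039803466) (dlOf (nat_lit 1) (nat_lit 0x8008000400200020008009c03))))))) 
(.nd (nat_lit 10) (.nd (nat_lit 30) (.nd (nat_lit 8) (.nd (nat_lit 21) 
(.lf (nat_lit 47186058) (dlOf (nat_lit 2) (nat_lit 0x1515e9807a2ef00006408001c004001400093b0f02))) 
(.lf (nat_lit 24117386) (dlOf (nat_lit 1) (nat_lit 0x400200120008b80102)))) 
(.lf (nat_lit 4966056330) (dlOf (nat_lit 1) (nat_lit 0x400400020008001002)))) (.nd (nat_lit 8) 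
(.nd (nat_lit 11) 
(.lf (nat_lit 3221749898) (dlOf (nat_lit 2) (nat_lit 0xf00000000004004000200060008170102))) 
(.lf (nat_lit 3221227658) (dlOf (nat_lit 1) (nat_lit 0xbc0028004801)))) 
(.lf (nat_lit 5502927242) (dlOf (nat_lit 1) (nat_lit 0x400400020008001002))))) (.nd (nat_lit 6) 
(.nd (nat_lit 8) (.nd (nat_lit 20) 
(.lf (nat_lit 2281707146) (dlOf (nat_lit 1) (nat_lit 0x400400040018009e02))) 
(.lf (nat_lit 19928714) (dlOf (nat_lit 1) (nat_lit 0x4002000200089d9e02)))) 
(.lf (nat_lit 4294970762) (dlOf (nat_lit 1) (nat_lit 0x400400020008006c82)))) (.nd (nat_lit 8) 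
(.lf (nat_lit 7370) (dlOf (nat_lit 1) (nat_lit 0x800800040020002000800c203))) 
(.lf (nat_lit 536872906) (dlOf (nat_lit 1) (nat_lit 0x2400400060018004482))))))) (.nd (nat_lit 6) 
(.nd (nat_lit 31) (.nd (nat_lit 7) (.nd (nat_lit 8) 
(.lf (nat_lit 201333258) (dlOf (nat_lit 1) (nat_lit 0xe001800b281))) (.nd (nat_lit 27) 
(.lf (nat_lit 4362078474) (dlOf (nat_lit 1) (nat_lit 0x400400020008004b82))) 
(.lf (nat_lit 201328906) (dlOf (nat_lit 1) (nat_lit 0x8008000400200020008004b83))))) 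
(.nd (nat_lit 8) 
(.lf (nat_lit 604505226) (dlOf (nat_lit 4) (nat_lit 0xe8060006a01e00330000000181800500c0002003c00180000000283000f0180005007800200000000006001800082d2b01))) 
(.nd (nat_lit 27) (.lf (nat_lit 1140851082) (dlOf (nat_lit 1) (nat_lit 0x400400020008001002))) 
(.lf (nat_lit 6106907018) (dlOf (nat_lit 1) (nat_lit 0x400400020008001002)))))) (.nd (nat_lit 8) 
(.nd (nat_lit 7) (.lf (nat_lit 2751469578) (dlOf (nat_lit 1) (nat_lit 0x2002800a601))) 
(.nd (nat_lit 11) 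
(.lf (nat_lit 3959947402) (dlOf (nat_lit 2) (nat_lit 0xf00000000004004000200060008170102))) 
(.lf (nat_lit 3825207434) (dlOf (nat_lit 1) (nat_lit 0x800800a800200100008004803))))) 
(.nd (nat_lit 7) (.lf (nat_lit 2751465738) (dlOf (nat_lit 1) (nat_lit 0x520028004b81))) 
(.nd (nat_lit 11) (.lf (nat_lit 2214593418) (dlOf (nat_lit 1) (nat_lit 0xc0028002581))) 
(.lf (nat_lit 2885688202) (dlOf (nat_lit 1) (nat_lit 0x40040002000800bc82))))))) (.nd (nat_lit 11) 
(.nd (nat_lit 27) (.nd (nat_lit 8) (.nd (nat_lit 31) 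
(.lf (nat_lit 67114570) (dlOf (nat_lit 1) (nat_lit 0x400400020008009c02))) 
(.lf (nat_lit 2214598218) (dlOf (nat_lit 1) (nat_lit 0x400400020008009c02)))) 
(.lf (nat_lit 603985738) (dlOf (nat_lit 1) (nat_lit 0x4002800a201)))) (.nd (nat_lit 30) 
(.lf (nat_lit 6643783242) (dlOf (nat_lit 1) (nat_lit 0x8008000400200020008009c03))) 
(.lf (nat_lit 3422557770) (dlOf (nat_lit 1) (nat_lit 0x400400020008009c02))))) (.nd (nat_lit 8) 
(.nd (nat_lit 7) (.nd (nat_lit 27) 
(.lf (nat_lit 4362082378) (dlOf (nat_lit 2) (nat_lit 0x12408e00240330011002800a680))) 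
(.lf (nat_lit 201332810) (dlOf (nat_lit 1) (nat_lit 0x680020008000800a682)))) 
(.lf (nat_lit 2885688522) (dlOf (nat_lit 1) (nat_lit 0x40040002000800c202)))) (.nd (nat_lit 9) 
(.lf (nat_lit 4362082634) (dlOf (nat_lit 1) (nat_lit 0x4c0020008000800ab82))) 
(.lf (nat_lit 603983690) (dlOf (nat_lit 1) (nat_lit 0xa0018007781)))))))) (.nd (nat_lit 21) 
(.nd (nat_lit 26) (.nd (nat_lit 8) (.nd (nat_lit 24) (.nd (nat_lit 11) (.nd (nat_lit 20) 
(.nd (nat_lit 27) (.lf (nat_lit 2684616714) (dlOf (nat_lit 1) (nat_lit 0x1200180d0481))) 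
(.lf (nat_lit 134479882) (dlOf (nat_lit 2) (nat_lit 0x19405e000920200100008030481)))) 
(.lf (nat_lit 5505034) (dlOf (nat_lit 1) (nat_lit 0x100008380281)))) 
(.lf (nat_lit 8652810) (dlOf (nat_lit 1) (nat_lit 0xc0008514701)))) (.nd (nat_lit 19) 
(.nd (nat_lit 23) (.lf (nat_lit 21233674) (dlOf (nat_lit 1) (nat_lit 0x1e0028a20481))) 
(.lf (nat_lit 63176714) (dlOf (nat_lit 1) (nat_lit 0x4004000200099f0102)))) (.nd (nat_lit 23) 
(.lf (nat_lit 18612234) (dlOf (nat_lit 1) (nat_lit 0x400400020008950282))) 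
(.lf (nat_lit 27000842) (dlOf (nat_lit 1) (nat_lit 0x9e0008ca0481)))))) (.nd (nat_lit 10) 
(.nd (nat_lit 9) (.lf (nat_lit 1835274) (dlOf (nat_lit 1) (nat_lit 0x20028150481))) 
(.lf (nat_lit 46402314) (dlOf (nat_lit 4) (nat_lit 0x3bafd8000c808001d7ec000620400f6bf60002f0200060009385b01)))) 
(.nd (nat_lit 7) (.lf (nat_lit 2818840330) (dlOf (nat_lit 1) (nat_lit 0xe000812a001))) 
(.lf (nat_lit 2818838410) (dlOf (nat_lit 1) (nat_lit 0x2800400020008127782)))))) (.nd (nat_lit 29) 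
(.nd (nat_lit 27) (.nd (nat_lit 7) 
(.lf (nat_lit 5436080138) (dlOf (nat_lit 2) (nat_lit 0x1801100c410180c0000))) 
(.lf (nat_lit 5436080266) (dlOf (nat_lit 6) (nat_lit 0x300088000800800900440003e0403240220001e0202120110000901010a0088000440800080080044002000e00080c0f03)))) 
(.nd (nat_lit 30) 
(.lf (nat_lit 201588746) (dlOf (nat_lit 2) (nat_lit 0x19405e000920200100008030481))) 
(.lf (nat_lit 3422814218) (dlOf (nat_lit 1) (nat_lit 0x1200180d0481))))) (.nd (nat_lit 6) 
(.nd (nat_lit 7) 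
(.lf (nat_lit 604241930) (dlOf (nat_lit 2) (nat_lit 0x440000067e02001000180e0001))) 
(.lf (nat_lit 2752774282) (dlOf (nat_lit 1) (nat_lit 0x10008003400200080008043d03)))) 
(.lf (nat_lit 4899212106) (dlOf (nat_lit 1) (nat_lit 0x200180d5c01)))))) (.nd (nat_lit 7) 
(.nd (nat_lit 19) (.nd (nat_lit 8) (.nd (nat_lit 20) 
(.lf (nat_lit 10747914) (dlOf (nat_lit 2) (nat_lit 0x1e2bc8003a40800d8008003c00200440008620483))) 
(.lf (nat_lit 24379402) (dlOf (nat_lit 1) (nat_lit 0x10004000a0008b90682)))) 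
(.lf (nat_lit 41156874) (dlOf (nat_lit 1) (nat_lit 0xe0029223a01)))) (.nd (nat_lit 20) 
(.nd (nat_lit 8) 
(.lf (nat_lit 57412106) (dlOf (nat_lit 2) (nat_lit 0x1e6710000a0080020008010c00200020009795003))) 
(.lf (nat_lit 19666186) (dlOf (nat_lit 3) (nat_lit 0x4b040002d01000358200015c0800100080008002000600089d9603)))) 
(.nd (nat_lit 23) 
(.lf (nat_lit 3932170) (dlOf (nat_lit 2) (nat_lit 0x108180050c080020008000400200040008250583))) 
(.lf (nat_lit 45875210) (dlOf (nat_lit 1) (nat_lit 0xc0029360001)))))) (.nd (nat_lit 8) 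
(.nd (nat_lit 6) (.nd (nat_lit 10) 
(.lf (nat_lit 12320906) (dlOf (nat_lit 1) (nat_lit 0x10002000200086c0102))) 
(.lf (nat_lit 19664010) (dlOf (nat_lit 2) (nat_lit 0x4aec0001c0189d6180)))) 
(.lf (nat_lit 19668170) (dlOf (nat_lit 1) (nat_lit 0x80080004002000200089dc203)))) (.nd (nat_lit 6) 
(.nd (nat_lit 10) 
(.lf (nat_lit 57411978) (dlOf (nat_lit 3) (nat_lit 0x59da01683020008ced00afe019794e80))) 
(.lf (nat_lit 20188554) (dlOf (nat_lit 1) (nat_lit 0x200289d6c81)))) 
(.lf (nat_lit 50072010) (dlOf (nat_lit 1) (nat_lit 0x54002001400094c4e82)))))))) (.nd (nat_lit 29) 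
(.nd (nat_lit 7) (.nd (nat_lit 19) (.nd (nat_lit 21) (.nd (nat_lit 6) (.nd (nat_lit 8) 
(.lf (nat_lit 26509322) (dlOf (nat_lit 1) (nat_lit 0x400200020008c50002))) 
(.lf (nat_lit 8688394) (dlOf (nat_lit 1) (nat_lit 0x1a0028518f81)))) (.nd (nat_lit 9) 
(.nd (nat_lit 26) 
(.lf (nat_lit 1208254538) (dlOf (nat_lit 4) (nat_lit 0x20148000580800180a40002a0400140520001402000400280b0601))) 
(.lf (nat_lit 2349105226) (dlOf (nat_lit 3) (nat_lit 0x200a40090046000401b0000b0300070118000140801c0008007c002000c00080a0e83)))) 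
(.lf (nat_lit 201366090) (dlOf (nat_lit 1) (nat_lit 0x40040048000800b582))))) (.nd (nat_lit 10) 
(.nd (nat_lit 6) (.nd (nat_lit 18) 
(.lf (nat_lit 28344330) (dlOf (nat_lit 1) (nat_lit 0x20008000400200040008d80283))) 
(.lf (nat_lit 48529418) (dlOf (nat_lit 1) (nat_lit 0x18008001400200060009410003)))) 
(.lf (nat_lit 14712906) (dlOf (nat_lit 1) (nat_lit 0x88008001800200100008770683)))) 
(.nd (nat_lit 8) (.lf (nat_lit 39879690) (dlOf (nat_lit 1) (nat_lit 0x1c00191f2881))) 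
(.lf (nat_lit 20221194) (dlOf (nat_lit 1) (nat_lit 0x80080004002000200089d6683)))))) 
(.nd (nat_lit 20) (.nd (nat_lit 6) (.nd (nat_lit 21) (.nd (nat_lit 24) 
(.lf (nat_lit 4751370) (dlOf (nat_lit 2) (nat_lit 0x23138026bc0800180080014002000a00082b0003))) 
(.lf (nat_lit 21528586) (dlOf (nat_lit 3) (nat_lit 0xba8601bc9020007d46006c7018a40000)))) 
(.lf (nat_lit 2654218) (dlOf (nat_lit 2) (nat_lit 0x3a000000a6018180080)))) (.nd (nat_lit 8) 
(.lf (nat_lit 21528650) (dlOf (nat_lit 7) (nat_lit 0x105daa0087ed4003cf69801a7b4800c5d430060e9f80018430023f6a80107b50008bda60039ed2001b750c000ba7e000600c03e1bc701b9de300a76c98000840c0077b4c0087d430055de3800deea4006f6500003b26000173f80133644005da88004cd430001c0a0066de38038ef18001f64c00036060121daa0058ed4002af69800ffb480027d480015ea180008830045800801cc002008a0008a40503))) 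
(.lf (nat_lit 1074299210) (dlOf (nat_lit 4) (nat_lit 0x980000002601006f0000001000800c80000007e040218002002a00081b0602))))) 
(.nd (nat_lit 18) (.nd (nat_lit 23) 
(.lf (nat_lit 3702794) (dlOf (nat_lit 1) (nat_lit 0x1a800800f0002007a0008210683))) 
(.lf (nat_lit 45645834) (dlOf (nat_lit 1) (nat_lit 0xc00400040009340002)))) (.nd (nat_lit 6) 
(.lf (nat_lit 18645002) (dlOf (nat_lit 4) (nat_lit 0x7abac003c6750031e020005aeb001019d400c6c0801b2bac00d867500319828960280))) 
(.lf (nat_lit 10256458) (dlOf (nat_lit 1) (nat_lit 0x308008011c002008400085c0f03))))))) 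
(.nd (nat_lit 8) (.nd (nat_lit 10) (.nd (nat_lit 6) (.nd (nat_lit 18) 
(.lf (nat_lit 24150154) (dlOf (nat_lit 1) (nat_lit 0x440008b80101))) 
(.lf (nat_lit 5503221898) (dlOf (nat_lit 1) (nat_lit 0xc004000600080c0f02)))) 
(.lf (nat_lit 1074299082) (dlOf (nat_lit 1) (nat_lit 0x600081b0481)))) (.nd (nat_lit 9) 
(.nd (nat_lit 6) 
(.lf (nat_lit 3422590090) (dlOf (nat_lit 1) (nat_lit 0x8008001c00200140008009503))) 
(.lf (nat_lit 40138) (dlOf (nat_lit 1) (nat_lit 0x800800100020002000800c203)))) (.nd (nat_lit 26) 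
(.lf (nat_lit 2281739914) (dlOf (nat_lit 1) (nat_lit 0x3400400060008009e02))) 
(.lf (nat_lit 6643816074) (dlOf (nat_lit 1) (nat_lit 0x10008000400200180008009e03)))))) 
(.nd (nat_lit 11) (.nd (nat_lit 10) 
(.lf (nat_lit 67146122) (dlOf (nat_lit 1) (nat_lit 0x13680080260002025a0008008383))) 
(.lf (nat_lit 5435852170) (dlOf (nat_lit 2) (nat_lit 0x805e0023c0200040008003601)))) 
(.nd (nat_lit 18) (.lf (nat_lit 31492490) (dlOf (nat_lit 1) (nat_lit 0x60028e94e81))) 
(.nd (nat_lit 19) (.lf (nat_lit 36997514) (dlOf (nat_lit 2) (nat_lit 0x6a58005a2819074e80))) 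
(.lf (nat_lit 68979082) (dlOf (nat_lit 2) (nat_lit 0x1006d80098354002c18200b9506000e0018844e81)))))))) 
(.nd (nat_lit 6) (.nd (nat_lit 7) (.nd (nat_lit 18) (.nd (nat_lit 8) (.nd (nat_lit 27) 
(.lf (nat_lit 1678278666) (dlOf (nat_lit 1) (nat_lit 0xa00081d0081))) 
(.lf (nat_lit 2886238218) (dlOf (nat_lit 3) (nat_lit 0x84080003a03600110158027006800f4026003a000000a286001c020000c80d80090034007001300240000005082800c8008000400200b000081a0483)))) 
(.lf (nat_lit 6039835914) (dlOf (nat_lit 1) (nat_lit 0x1800200020008009602)))) (.nd (nat_lit 22) 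
(.nd (nat_lit 26) (.lf (nat_lit 3758391306) (dlOf (nat_lit 1) (nat_lit 0x400008170001))) 
(.lf (nat_lit 1678016522) (dlOf (nat_lit 4) (nat_lit 0xa0000004e0100050000002340800280000011604001000200140008140582)))) 
(.lf (nat_lit 2755952650) (dlOf (nat_lit 1) (nat_lit 0x180080004002000800081c0683))))) 
(.nd (nat_lit 8) (.nd (nat_lit 9) (.nd (nat_lit 10) 
(.lf (nat_lit 4966350986) (dlOf (nat_lit 1) (nat_lit 0x8004000600080c0f02))) 
(.lf (nat_lit 6039835786) (dlOf (nat_lit 1) (nat_lit 0x10004002c0008009502)))) 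
(.lf (nat_lit 2684393098) (dlOf (nat_lit 3) (nat_lit 0x80000001681000200700007808004000800a800200020008009e03)))) 
(.nd (nat_lit 31) (.nd (nat_lit 9) 
(.lf (nat_lit 4898982282) (dlOf (nat_lit 1) (nat_lit 0x400200020008004e82))) 
(.lf (nat_lit 604016522) (dlOf (nat_lit 1) (nat_lit 0x140028007781)))) (.nd (nat_lit 20) 
(.lf (nat_lit 2818607498) (dlOf (nat_lit 1) (nat_lit 0x2400200080008004e82))) 
(.lf (nat_lit 2754644362) (dlOf (nat_lit 1) (nat_lit 0x200180f4e81))))))) (.nd (nat_lit 18) 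
(.nd (nat_lit 10) (.nd (nat_lit 11) (.nd (nat_lit 19) 
(.lf (nat_lit 2752544842) (dlOf (nat_lit 2) (nat_lit 0x1424700000018020880))) 
(.lf (nat_lit 3959980106) (dlOf (nat_lit 1) (nat_lit 0x20028180e81)))) 
(.lf (nat_lit 536909898) (dlOf (nat_lit 3) (nat_lit 0x140022001dc020002011000dd81800a680)))) 
(.nd (nat_lit 7) (.lf (nat_lit 604017738) (dlOf (nat_lit 1) (nat_lit 0x1000200020008009302))) 
(.lf (nat_lit 3825239754) (dlOf (nat_lit 1) (nat_lit 0x840028003a81))))) (.nd (nat_lit 9) 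
(.nd (nat_lit 10) (.nd (nat_lit 11) 
(.lf (nat_lit 671383626) (dlOf (nat_lit 5) (nat_lit 0x6c02500180110000d41001b00940003204013404a004c0220000b820001011000000080358008017c002022a0008170f03))) 
(.lf (nat_lit 2751764554) (dlOf (nat_lit 1) (nat_lit 0x2001800a681)))) 
(.lf (nat_lit 2818872394) (dlOf (nat_lit 1) (nat_lit 0x560018129301)))) (.nd (nat_lit 7) 
(.lf (nat_lit 3959718474) (dlOf (nat_lit 1) (nat_lit 0x400200120008128d02))) (.nd (nat_lit 10) 
(.lf (nat_lit 2751759306) (dlOf (nat_lit 2) (nat_lit 0x822002e8604000800400020008002882))) 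
(.lf (nat_lit 2751760330) (dlOf (nat_lit 6) (nat_lit 0x2810c000110200100860000801000704300003c0800a822400041100000e0400140890008044000034100048008006000200200008004483)))))))))) 
(.nd (nat_lit 11) (.nd (nat_lit 15) (.nd (nat_lit 18) (.nd (nat_lit 6) (.nd (nat_lit 8) 
(.nd (nat_lit 9) (.nd (nat_lit 19) 
(.lf (nat_lit 470810634) (dlOf (nat_lit 1) (nat_lit 0xe00281b0281))) 
(.lf (nat_lit 3154640906) (dlOf (nat_lit 2) (nat_lit 0x128000004d102000600182f0281)))) 
(.lf (nat_lit 469766666) (dlOf (nat_lit 1) (nat_lit 0xe0028008681)))) (.nd (nat_lit 10) 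
(.nd (nat_lit 7) (.lf (nat_lit 4160750346) (dlOf (nat_lit 1) (nat_lit 0x20028002101))) 
(.lf (nat_lit 4630512010) (dlOf (nat_lit 1) (nat_lit 0x400400020008001002)))) (.nd (nat_lit 12) 
(.lf (nat_lit 4026533642) (dlOf (nat_lit 1) (nat_lit 0x20018003b81))) 
(.lf (nat_lit 2952795914) (dlOf (nat_lit 1) (nat_lit 0x4002800a001)))))) (.nd (nat_lit 9) 
(.nd (nat_lit 7) (.nd (nat_lit 26) 
(.lf (nat_lit 2952795210) (dlOf (nat_lit 1) (nat_lit 0x1500008009301))) 
(.lf (nat_lit 469767242) (dlOf (nat_lit 1) (nat_lit 0x400400020008009302)))) 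
(.lf (nat_lit 1881669834) (dlOf (nat_lit 2) (nat_lit 0x84000000000200300018fc5a01)))) 
(.nd (nat_lit 10) (.nd (nat_lit 26) 
(.lf (nat_lit 1342702154) (dlOf (nat_lit 1) (nat_lit 0x800180c1181))) 
(.lf (nat_lit 470286922) (dlOf (nat_lit 1) (nat_lit 0x800180c1181)))) 
(.lf (nat_lit 4160755274) (dlOf (nat_lit 1) (nat_lit 0x400400020008009c02)))))) (.nd (nat_lit 29) 
(.nd (nat_lit 20) (.nd (nat_lit 26) (.nd (nat_lit 27) 
(.lf (nat_lit 4563664906) (dlOf (nat_lit 1) (nat_lit 0x80080004002000200080c0003))) 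
(.lf (nat_lit 4697882634) (dlOf (nat_lit 1) (nat_lit 0x80080004002000200080c0003)))) 
(.nd (nat_lit 7) (.lf (nat_lit 3557556234) (dlOf (nat_lit 1) (nat_lit 0x7c002000a0008260002))) 
(.lf (nat_lit 5704517002) (dlOf (nat_lit 1) (nat_lit 0x4004000200080d3602))))) (.nd (nat_lit 7) 
(.nd (nat_lit 19) 
(.lf (nat_lit 471072778) (dlOf (nat_lit 5) (nat_lit 0x404e800482380182e08000413a00c0702002c08e004d481000304700268c08034000800d400200c60008260283))) 
(.lf (nat_lit 471597066) (dlOf (nat_lit 6) (nat_lit 0x140b0800a0274002011c0060f060004161000204e8017f0100048584002413a001408e002dc0300050b080028274001411c005af060006161000304e8001023800b520c0004004000a0018350282)))) 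
(.lf (nat_lit 3490971786) (dlOf (nat_lit 1) (nat_lit 0x10008003400200080008043d03))))) 
(.nd (nat_lit 6) (.nd (nat_lit 10) (.nd (nat_lit 26) 
(.lf (nat_lit 2953052170) (dlOf (nat_lit 7) (nat_lit 0x1c05c000e02a000701380038084001c03c0012018005ea860006017000300a8001404e000c021000600f0001806800180300006013005ea080008017000400a8002004e0010021000800f000400600179e18001805c000c02a000501380030084001803c000a018005e7060006017000300a8001804e000c021000600f000280600179218000805c000c02a000501380028084001803c000a0180008008802f20380078008002c002000c00080e0283))) 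
(.lf (nat_lit 5301862410) (dlOf (nat_lit 2) (nat_lit 0x1801100df60180c0000)))) (.nd (nat_lit 7) 
(.lf (nat_lit 4161017354) (dlOf (nat_lit 1) (nat_lit 0x200080a9c01))) 
(.lf (nat_lit 6174279050) (dlOf (nat_lit 1) (nat_lit 0x4004000200080d3602))))) (.nd (nat_lit 19) 
(.lf (nat_lit 2080637002) (dlOf (nat_lit 1) (nat_lit 0x200080a1681))) (.nd (nat_lit 20) 
(.lf (nat_lit 4096524362) (dlOf (nat_lit 2) (nat_lit 0x56027001580f8016c03c009000c00021048120500))) 
(.lf (nat_lit 4095475786) (dlOf (nat_lit 1) (nat_lit 0x800180c1481)))))))) (.nd (nat_lit 26) 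
(.nd (nat_lit 29) (.nd (nat_lit 19) (.nd (nat_lit 6) (.nd (nat_lit 10) 
(.lf (nat_lit 3494150154) (dlOf (nat_lit 1) (nat_lit 0x180080004002000800081c0683))) 
(.lf (nat_lit 1342215178) (dlOf (nat_lit 2) (nat_lit 0x1d0470012700804f8008001000200560008009203)))) 
(.lf (nat_lit 3490742346) (dlOf (nat_lit 2) (nat_lit 0x1422f00000018020880)))) (.nd (nat_lit 20) 
(.nd (nat_lit 6) 
(.lf (nat_lit 3624435722) (dlOf (nat_lit 3) (nat_lit 0x84080003a03600110130027006c00f4028003a000000eb06001c020000c80d800900360070014002400000074c2800c8008000400200b000081a0483))) 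
(.lf (nat_lit 3492315210) (dlOf (nat_lit 3) (nat_lit 0x981e70001601023c0fe0000a80800d80080164002002400080c1483)))) 
(.nd (nat_lit 8) (.lf (nat_lit 1345880586) (dlOf (nat_lit 1) (nat_lit 0x1000400020008e07b02))) 
(.lf (nat_lit 1345880330) (dlOf (nat_lit 1) (nat_lit 0x5800400080008e03a02)))))) (.nd (nat_lit 30) 
(.nd (nat_lit 6) (.nd (nat_lit 18) 
(.lf (nat_lit 805863434) (dlOf (nat_lit 1) (nat_lit 0xa00081d0081))) 
(.lf (nat_lit 805601290) (dlOf (nat_lit 4) (nat_lit 0xa0000004e0100050000002340800280000011604001000200140008140582)))) 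
(.lf (nat_lit 2952827978) (dlOf (nat_lit 1) (nat_lit 0x6800800ec00200620008009303)))) 
(.nd (nat_lit 6) (.nd (nat_lit 7) 
(.lf (nat_lit 4026827274) (dlOf (nat_lit 2) (nat_lit 0x3403600160158005941007e8008007800200020008090d83))) 
(.lf (nat_lit 4160787594) (dlOf (nat_lit 1) (nat_lit 0x7c00200280008009502)))) 
(.lf (nat_lit 1880129610) (dlOf (nat_lit 1) (nat_lit 0x20018740101)))))) (.nd (nat_lit 19) 
(.nd (nat_lit 6) (.nd (nat_lit 9) (.nd (nat_lit 18) 
(.lf (nat_lit 470843402) (dlOf (nat_lit 3) (nat_lit 0x6706a0014412a00780820040000002f9420003800000268040110004000200181c0482))) 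
(.lf (nat_lit 3020193802) (dlOf (nat_lit 1) (nat_lit 0xc0028150001)))) (.nd (nat_lit 8) 
(.lf (nat_lit 2617284106) (dlOf (nat_lit 1) (nat_lit 0x1c00400020008009c02))) 
(.lf (nat_lit 469800714) (dlOf (nat_lit 1) (nat_lit 0x640040016001800a002))))) (.nd (nat_lit 27) 
(.lf (nat_lit 5167677514) (dlOf (nat_lit 1) (nat_lit 0x100018100501))) (.nd (nat_lit 29) 
(.lf (nat_lit 1543798858) (dlOf (nat_lit 5) (nat_lit 0x6c02500180110000e01001b00940003204013404a004c0220000b820001011000000080358008017c002022a0008170f03))) 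
(.lf (nat_lit 2080669770) (dlOf (nat_lit 4) (nat_lit 0x20148000580800180a40002a0400140520001402000400280b0601)))))) 
(.nd (nat_lit 27) (.nd (nat_lit 6) (.nd (nat_lit 18) 
(.lf (nat_lit 3557326858) (dlOf (nat_lit 38) (nat_lit 0x807e005250201a803f0028f0100150390007880820681c8050c07e069a0380110011000780200ca00fc003b4040f5c0e4022406f0142022802c80fc0d5c070022803400fe0110080006c003ac2003980e4012803f000b01c000750181cf81c803780de0250045003701f819c80e0037c068019002200dc00d80074c4020881c8055007e062003800be011000730201fc01c8020c07e001ca04073a072009a01f800720101d481c80038e0400180e401f203f000e282008b01f8007080800401c8062407e001bb04035c072007701f8006e41014481c8021007e001b504019e072000da01017a039006280fc00364080cc80e401e803f000d0820055039000f00fc003400805800e40019e02029603f000ce0101790390006440802b01c8007807e00190040256072000c7810143039001680fc0031008000c0e4001870204ba072017601f8006181002e01c80030a0400480e400d203f000c182003f0390005fc0800180fc002fc0401040e40017a0206d4072004c03880570174002f00c065c0e4020403f000ba8202560390005cc0803b8008021800201ba00081c0483)))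 
(.lf (nat_lit 3557589002) (dlOf (nat_lit 1) (nat_lit 0x20008270081)))) (.nd (nat_lit 7) 
(.lf (nat_lit 1946714442) (dlOf (nat_lit 4) (nat_lit 0x980000002981006f00000011c0800c80000008c040218002002a00081b0602))) 
(.lf (nat_lit 1946714314) (dlOf (nat_lit 1) (nat_lit 0x600081b0481))))) (.nd (nat_lit 8) 
(.nd (nat_lit 10) 
(.lf (nat_lit 471629834) (dlOf (nat_lit 18) (nat_lit 0x1813a00de08e000c03f001844180340274018811c00ca07e0030803005f04700183408041023800c1404002c13a00cc08e000e03f00180c1803a8274019811c00e007e0030003006e047002e81f800b7408026c13a013208e009a03f0016e41800c827401bc11c005b60400dc08e002d801006f047002e81f800b5a08007013a00dc08e002603f0016a8180008274017411c005a304001409d007004700168010018023800b340401a011c0059102001409d0009047001618100178008006800200100008360283))) 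
(.lf (nat_lit 473465866) (dlOf (nat_lit 1) (nat_lit 0x18004000a0008f52882)))) 
(.lf (nat_lit 3154673930) (dlOf (nat_lit 2) (nat_lit 0x100b0012bc04001c004000e0008310702)))))))) 
(.nd (nat_lit 7) (.nd (nat_lit 10) (.nd (nat_lit 31) (.nd (nat_lit 26) (.nd (nat_lit 8) 
(.lf (nat_lit 1476921866) (dlOf (nat_lit 4) (nat_lit 0x501b0008008c0005408002008a003401c00014820002022800300f0002006c0044023002200e0000a02800f00080020002000a00082d5003))) 
(.nd (nat_lit 15) (.lf (nat_lit 1342183690) (dlOf (nat_lit 1) (nat_lit 0x40040002000800aa02))) 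
(.lf (nat_lit 1476434186) (dlOf (nat_lit 1) (nat_lit 0x80040008000800aa02))))) (.nd (nat_lit 8) 
(.lf (nat_lit 1543538698) (dlOf (nat_lit 7) (nat_lit 0x1b0028005140800800140022e04044804c021c01d012700c00870040043c00a0162002010f000000160380cc00980010040033801d01b200c00cd80400134012033c005019b00100d00000000ae24031400a0005202021201000000018004700))) 
(.nd (nat_lit 29) (.lf (nat_lit 469764362) (dlOf (nat_lit 1) (nat_lit 0x400400020018004b82))) 
(.lf (nat_lit 1006635274) (dlOf (nat_lit 1) (nat_lit 0x8008000400200020008004b83)))))) 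
(.nd (nat_lit 8) (.nd (nat_lit 9) 
(.lf (nat_lit 3623913482) (dlOf (nat_lit 2) (nat_lit 0x1400310002a018004700))) (.nd (nat_lit 29) 
(.lf (nat_lit 2415925770) (dlOf (nat_lit 1) (nat_lit 0x2002800b281))) 
(.lf (nat_lit 4026538506) (dlOf (nat_lit 1) (nat_lit 0x2002800b281))))) (.nd (nat_lit 12) 
(.nd (nat_lit 29) (.lf (nat_lit 2415921418) (dlOf (nat_lit 1) (nat_lit 0x400400020008004b82))) 
(.lf (nat_lit 4026534154) (dlOf (nat_lit 1) (nat_lit 0x8008000400200020008004b83)))) 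
(.lf (nat_lit 3691026698) (dlOf (nat_lit 1) (nat_lit 0x2000800080020014000800aa03)))))) 
(.nd (nat_lit 27) (.nd (nat_lit 6) (.nd (nat_lit 8) 
(.lf (nat_lit 1342213642) (dlOf (nat_lit 1) (nat_lit 0x3000400140008007002))) (.nd (nat_lit 15) 
(.lf (nat_lit 1879051530) (dlOf (nat_lit 1) (nat_lit 0x8008000400200020008006683))) 
(.lf (nat_lit 2483064074) (dlOf (nat_lit 1) (nat_lit 0x3c002000a0008006682))))) (.nd (nat_lit 8) 
(.nd (nat_lit 19) 
(.lf (nat_lit 2483063882) (dlOf (nat_lit 1) (nat_lit 0x20008001000200060008006083))) 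
(.lf (nat_lit 3490221130) (dlOf (nat_lit 1) (nat_lit 0x400400020008006082)))) (.nd (nat_lit 15) 
(.lf (nat_lit 1409289546) (dlOf (nat_lit 2) (nat_lit 0x405f00006818006980))) 
(.lf (nat_lit 1409322314) (dlOf (nat_lit 2) (nat_lit 0x205f00006818006980)))))) (.nd (nat_lit 26) 
(.nd (nat_lit 6) (.lf (nat_lit 2550140170) (dlOf (nat_lit 1) (nat_lit 0x20018006681))) 
(.nd (nat_lit 12) (.lf (nat_lit 2550140234) (dlOf (nat_lit 1) (nat_lit 0x60008006981))) 
(.lf (nat_lit 2550144330) (dlOf (nat_lit 1) (nat_lit 0x4002800c901))))) (.nd (nat_lit 9) 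
(.nd (nat_lit 6) 
(.lf (nat_lit 4227861770) (dlOf (nat_lit 2) (nat_lit 0x1019000000080028008001000200060008006683))) 
(.lf (nat_lit 4227865930) (dlOf (nat_lit 1) (nat_lit 0x20001800c901)))) (.nd (nat_lit 29) 
(.lf (nat_lit 3690991434) (dlOf (nat_lit 2) (nat_lit 0x2803a00a3d0200040008007781))) 
(.lf (nat_lit 1006636874) (dlOf (nat_lit 1) (nat_lit 0x400400020018007782)))))))) (.nd (nat_lit 31) 
(.nd (nat_lit 10) (.nd (nat_lit 18) (.nd (nat_lit 19) (.nd (nat_lit 6) 
(.lf (nat_lit 1345325450) (dlOf (nat_lit 1) (nat_lit 0xc00200020008b54e82))) 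
(.lf (nat_lit 5301602762) (dlOf (nat_lit 1) (nat_lit 0x20008004e81)))) (.nd (nat_lit 20) 
(.lf (nat_lit 4563929482) (dlOf (nat_lit 1) (nat_lit 0x20028124e81))) 
(.lf (nat_lit 1880623498) (dlOf (nat_lit 1) (nat_lit 0x400200020008b04e82))))) (.nd (nat_lit 8) 
(.nd (nat_lit 9) 
(.lf (nat_lit 1410107530) (dlOf (nat_lit 1) (nat_lit 0xe00080070002001e00080f4803))) 
(.lf (nat_lit 6376688266) (dlOf (nat_lit 1) (nat_lit 0x400200020008095482)))) 
(.lf (nat_lit 1880885642) (dlOf (nat_lit 1) (nat_lit 0xa0018c34e81))))) (.nd (nat_lit 26) 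
(.nd (nat_lit 6) (.nd (nat_lit 12) (.nd (nat_lit 29) 
(.lf (nat_lit 1342180746) (dlOf (nat_lit 1) (nat_lit 0x400400020008006c82))) 
(.lf (nat_lit 1879051658) (dlOf (nat_lit 1) (nat_lit 0x400400020008006c82)))) 
(.lf (nat_lit 1342184842) (dlOf (nat_lit 1) (nat_lit 0x40040002000800c902)))) 
(.lf (nat_lit 1342213322) (dlOf (nat_lit 1) (nat_lit 0x60008006381)))) (.nd (nat_lit 29) 
(.lf (nat_lit 1409289610) (dlOf (nat_lit 1) (nat_lit 0x400400020008006c82))) 
(.lf (nat_lit 1946160522) (dlOf (nat_lit 1) (nat_lit 0x400400020008006c82)))))) (.nd (nat_lit 26) 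
(.nd (nat_lit 8) (.nd (nat_lit 6) 
(.lf (nat_lit 3489664138) (dlOf (nat_lit 1) (nat_lit 0x800400040008006182))) (.nd (nat_lit 12) 
(.lf (nat_lit 3489664202) (dlOf (nat_lit 1) (nat_lit 0x20028006381))) 
(.lf (nat_lit 3489668298) (dlOf (nat_lit 1) (nat_lit 0x800800040020002000800c203))))) 
(.nd (nat_lit 10) (.nd (nat_lit 15) 
(.lf (nat_lit 3490187658) (dlOf (nat_lit 1) (nat_lit 0x40018004e81))) 
(.lf (nat_lit 3490220426) (dlOf (nat_lit 1) (nat_lit 0x20018004e81)))) 
(.lf (nat_lit 2550140298) (dlOf (nat_lit 1) (nat_lit 0x400400020008006c82))))) (.nd (nat_lit 6) 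
(.nd (nat_lit 12) (.nd (nat_lit 15) 
(.lf (nat_lit 4227861898) (dlOf (nat_lit 1) (nat_lit 0x400400020008006c82))) 
(.lf (nat_lit 2483064202) (dlOf (nat_lit 1) (nat_lit 0x20008000c00200040008006c83)))) 
(.nd (nat_lit 15) 
(.lf (nat_lit 4227865994) (dlOf (nat_lit 1) (nat_lit 0x1800800040020002000800c903))) 
(.lf (nat_lit 4227898762) (dlOf (nat_lit 1) (nat_lit 0x400080034002000c000800c903))))) 
(.nd (nat_lit 9) (.lf (nat_lit 3690994122) (dlOf (nat_lit 1) (nat_lit 0x2002800b081))) 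
(.lf (nat_lit 4227865546) (dlOf (nat_lit 1) (nat_lit 0x88008000c0020006000800be83)))))))))) 
(.nd (nat_lit 18) (.nd (nat_lit 7) (.nd (nat_lit 19) (.nd (nat_lit 11) (.nd (nat_lit 15) 
(.nd (nat_lit 28) (.nd (nat_lit 20) (.nd (nat_lit 8) 
(.lf (nat_lit 10493962) (dlOf (nat_lit 2) (nat_lit 0x147ae0008d02000800185e0581))) 
(.lf (nat_lit 3422565642) (dlOf (nat_lit 1) (nat_lit 0x2b80080098002015c0008009603)))) 
(.nd (nat_lit 6) 
(.lf (nat_lit 47194122) (dlOf (nat_lit 4) (nat_lit 0x16c420188602000b62100c41010006b108062040800080080004002000200093b0003))) 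
(.lf (nat_lit 13639754) (dlOf (nat_lit 1) (nat_lit 0xc00400140018730d02))))) (.nd (nat_lit 10) 
(.nd (nat_lit 20) 
(.lf (nat_lit 473964554) (dlOf (nat_lit 3) (nat_lit 0x3c163006748100340b380000008015000800e000200160008fe0003))) 
(.lf (nat_lit 470818826) (dlOf (nat_lit 1) (nat_lit 0x10008000c002000200081b0283)))) 
(.nd (nat_lit 8) (.lf (nat_lit 1342190602) (dlOf (nat_lit 1) (nat_lit 0xc004000c0008009202))) 
(.lf (nat_lit 2952804106) (dlOf (nat_lit 1) (nat_lit 0x10c0020048000800a002)))))) (.nd (nat_lit 6) 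
(.nd (nat_lit 10) (.nd (nat_lit 20) 
(.lf (nat_lit 12623882) (dlOf (nat_lit 1) (nat_lit 0x21800400c400086d0682))) 
(.lf (nat_lit 17866762) (dlOf (nat_lit 1) (nat_lit 0x680008900581)))) 
(.lf (nat_lit 51422218) (dlOf (nat_lit 1) (nat_lit 0x20019512881)))) (.nd (nat_lit 10) 
(.nd (nat_lit 21) (.lf (nat_lit 25206858) (dlOf (nat_lit 1) (nat_lit 0x12400200280008bf0d02))) 
(.lf (nat_lit 471900234) (dlOf (nat_lit 1) (nat_lit 0x10002000200086b0102)))) 
(.lf (nat_lit 2952836170) (dlOf (nat_lit 1) (nat_lit 0x400200020008009302)))))) (.nd (nat_lit 6) 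
(.nd (nat_lit 26) (.nd (nat_lit 8) (.nd (nat_lit 9) 
(.lf (nat_lit 4429228042) (dlOf (nat_lit 1) (nat_lit 0x40018004701))) 
(.lf (nat_lit 536885770) (dlOf (nat_lit 1) (nat_lit 0x140020024000800b282)))) (.nd (nat_lit 9) 
(.lf (nat_lit 2550181130) (dlOf (nat_lit 1) (nat_lit 0x400400020008006682))) 
(.lf (nat_lit 402696970) (dlOf (nat_lit 1) (nat_lit 0x20018005b01))))) (.nd (nat_lit 10) 
(.nd (nat_lit 12) (.lf (nat_lit 4362086666) (dlOf (nat_lit 1) (nat_lit 0x20028004b81))) 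
(.lf (nat_lit 3691034890) (dlOf (nat_lit 1) (nat_lit 0x38008001c0020008000800aa03)))) 
(.lf (nat_lit 3288378634) (dlOf (nat_lit 1) (nat_lit 0x400400020008006682))))) (.nd (nat_lit 10) 
(.nd (nat_lit 12) (.nd (nat_lit 27) 
(.lf (nat_lit 4362086474) (dlOf (nat_lit 1) (nat_lit 0x2c002003a0008004702))) 
(.lf (nat_lit 469772362) (dlOf (nat_lit 1) (nat_lit 0x2400200160008004702)))) 
(.lf (nat_lit 2348824650) (dlOf (nat_lit 2) (nat_lit 0x201200028070000c004001dc060004002800a681)))) 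
(.nd (nat_lit 8) (.lf (nat_lit 3087019594) (dlOf (nat_lit 1) (nat_lit 0x80018007181))) 
(.nd (nat_lit 12) (.lf (nat_lit 2483039562) (dlOf (nat_lit 1) (nat_lit 0xc0008006981))) 
(.lf (nat_lit 134233418) (dlOf (nat_lit 1) (nat_lit 0x50004000e000800c902)))))))) (.nd (nat_lit 15) 
(.nd (nat_lit 21) (.nd (nat_lit 29) (.nd (nat_lit 22) (.nd (nat_lit 6) 
(.lf (nat_lit 50864394) (dlOf (nat_lit 2) (nat_lit 0x77640000c02000200294d3681))) 
(.lf (nat_lit 201859146) (dlOf (nat_lit 2) (nat_lit 0x200000001402003400080a0e81)))) 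
(.nd (nat_lit 10) (.lf (nat_lit 4726794) (dlOf (nat_lit 1) (nat_lit 0x400182b0001))) 
(.lf (nat_lit 56108042) (dlOf (nat_lit 1) (nat_lit 0x20019732881))))) (.nd (nat_lit 26) 
(.nd (nat_lit 27) (.lf (nat_lit 805838858) (dlOf (nat_lit 1) (nat_lit 0x4002000200081c0002))) 
(.lf (nat_lit 2819104778) (dlOf (nat_lit 38) (nat_lit 0x807e00aba0201a803f005598100150390005440820681c8050c07e069a036011001100053c200ca00fc00292040f5c0e4022406f0142021002c80fc0d5c06c022803400fe0110080006c0028a2003980e4012803f000b01b00050c181cf81c803780de0250042003701f819c80d8037c068019002200dc00d8005084020881c8055007e062003600be0110004ec201fc01c8020c07e0013904073a072009a01f8004dc101d481c80026c0400180e401f203f0009a02008b01f8004c40800401c8062407e0012a04019e0720009401017a039006280fc0024c080cc80e401e803f0008a8201ae039003b80fc00228080a240e4010803f0008802016003900043c080a580fc0021a0401540e4003c03f000858201790390004000809581c8001fe0401580e4003c03f0007e820143039001680fc001ee0809740e402ec03f0007b0200030390003d40802e01c8001e80400480e400d203f0007802003f0390003b80800180fc001da040da80e4009807100ae02e8003a41802081c8001ce04065c0e4020403f000720202560390003880803b8008021800201ba00081a0483))))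 
(.lf (nat_lit 1678254090) (dlOf (nat_lit 1) (nat_lit 0x4002000200081c0002))))) (.nd (nat_lit 9) 
(.nd (nat_lit 6) (.nd (nat_lit 8) 
(.lf (nat_lit 2629642) (dlOf (nat_lit 1) (nat_lit 0x80018180081))) 
(.lf (nat_lit 1345855754) (dlOf (nat_lit 1) (nat_lit 0x20004000a0008e03a02)))) (.nd (nat_lit 26) 
(.lf (nat_lit 3492290634) (dlOf (nat_lit 4) (nat_lit 0x1d8228000640401300f00002f0202821fc00330000000a8100088008000c002001800080c1483))) 
(.lf (nat_lit 2754093130) (dlOf (nat_lit 1) (nat_lit 0x200180c1881))))) (.nd (nat_lit 11) 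
(.nd (nat_lit 22) (.lf (nat_lit 1345856010) (dlOf (nat_lit 1) (nat_lit 0xe0008e07b01))) 
(.lf (nat_lit 58204682) (dlOf (nat_lit 2) (nat_lit 0x2524e0016860000d2198030381801580080080002004000097c7b03)))) 
(.lf (nat_lit 40380938) (dlOf (nat_lit 1) (nat_lit 0x80080008002004a00091f5003)))))) 
(.nd (nat_lit 28) (.nd (nat_lit 29) (.nd (nat_lit 6) (.nd (nat_lit 9) 
(.lf (nat_lit 10002442) (dlOf (nat_lit 1) (nat_lit 0x8004000e00085a0a02))) 
(.lf (nat_lit 58237450) (dlOf (nat_lit 1) (nat_lit 0x200297c7b01)))) 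
(.lf (nat_lit 21536842) (dlOf (nat_lit 1) (nat_lit 0x20028a40501)))) (.nd (nat_lit 6) 
(.nd (nat_lit 26) 
(.lf (nat_lit 2819137546) (dlOf (nat_lit 8) (nat_lit 0x1b00d800a00440014f04008006a003303480052410003018401640b600b804200c201b001a00880008036001450c0012061000a1810002030801b00d8002840800a406c00660220009d82005b02e8003a408037800800f0002004a00081a0483))) 
(.lf (nat_lit 1678286858) (dlOf (nat_lit 7) (nat_lit 0xf10168001d40806c80b4000e804001c05a0006d0201a802d000360100620168001a80807a80b4000b40400bc00200c400081d0082)))) 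
(.lf (nat_lit 1611178058) (dlOf (nat_lit 1) (nat_lit 0x48008001800200080008101403))))) 
(.nd (nat_lit 6) (.nd (nat_lit 8) (.nd (nat_lit 26) 
(.lf (nat_lit 805871626) (dlOf (nat_lit 7) (nat_lit 0xf10168004080806c80b40020204001c05a000fa0201a802d0007c8100620168003dc0807a80b4001da0400bc00200c400081d0082))) 
(.lf (nat_lit 3557335050) (dlOf (nat_lit 23) (nat_lit 0x97018400180700198022000f00301b203080a70180003b40802140c8023e061000e022808880e0006006c0132022000eb06000203080075008013019003980c2001604500e201c002d0088003a614049c0c200c403800bc011000730180588184003940401d40c2001c802015e061003b03000071410003018400280c0001c204022206100a70300006ec1000281840037204017c0c2001b50201e606100920300006c8100550184003420404d40c20019c02003e061000c88100aa0308006180803581840030604015c0c20017e0200cc06100380300005e0100780184002ea040050004006800181c0482)))) 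
(.lf (nat_lit 1343791370) (dlOf (nat_lit 1) (nat_lit 0x40018370701)))) (.nd (nat_lit 8) 
(.lf (nat_lit 3492323402) (dlOf (nat_lit 1) (nat_lit 0x200180c1481))) 
(.lf (nat_lit 3154682186) (dlOf (nat_lit 1) (nat_lit 0x2400401080018310782)))))))) 
(.nd (nat_lit 30) (.nd (nat_lit 11) (.nd (nat_lit 8) (.nd (nat_lit 15) (.nd (nat_lit 9) 
(.nd (nat_lit 20) 
(.lf (nat_lit 2753568906) (dlOf (nat_lit 1) (nat_lit 0x600080160002008a0008090103))) 
(.lf (nat_lit 24125578) (dlOf (nat_lit 1) (nat_lit 0x8008000800200020008b80103)))) (.nd (nat_lit 6) 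
(.lf (nat_lit 2684368522) (dlOf (nat_lit 1) (nat_lit 0x38008001400200080008009e03))) 
(.lf (nat_lit 19935946) (dlOf (nat_lit 1) (nat_lit 0xc00189d8c81))))) (.nd (nat_lit 10) 
(.nd (nat_lit 19) (.lf (nat_lit 24158346) (dlOf (nat_lit 1) (nat_lit 0x400200020008b80102))) 
(.lf (nat_lit 12099722) (dlOf (nat_lit 1) (nat_lit 0x80080008002000200086c0103)))) 
(.lf (nat_lit 50373770) (dlOf (nat_lit 1) (nat_lit 0x1400094c2b01))))) (.nd (nat_lit 6) 
(.nd (nat_lit 9) (.lf (nat_lit 4966098314) (dlOf (nat_lit 1) (nat_lit 0x400400020008003602))) 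
(.lf (nat_lit 201369482) (dlOf (nat_lit 1) (nat_lit 0x80028004181)))) (.nd (nat_lit 9) 
(.lf (nat_lit 268476874) (dlOf (nat_lit 1) (nat_lit 0x2400400020018051102))) (.nd (nat_lit 15) 
(.lf (nat_lit 2348819402) (dlOf (nat_lit 1) (nat_lit 0x20028002881))) 
(.lf (nat_lit 268477386) (dlOf (nat_lit 1) (nat_lit 0x20028052881))))))) (.nd (nat_lit 29) 
(.nd (nat_lit 10) (.nd (nat_lit 19) (.nd (nat_lit 26) 
(.lf (nat_lit 6442461578) (dlOf (nat_lit 1) (nat_lit 0x20028004e81))) 
(.lf (nat_lit 4496304522) (dlOf (nat_lit 1) (nat_lit 0x8008006400200020008004e83)))) 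
(.nd (nat_lit 6) (.lf (nat_lit 472426890) (dlOf (nat_lit 1) (nat_lit 0x20028984e81))) 
(.lf (nat_lit 57158346) (dlOf (nat_lit 1) (nat_lit 0x340009795801))))) (.nd (nat_lit 6) 
(.nd (nat_lit 15) (.lf (nat_lit 134233482) (dlOf (nat_lit 2) (nat_lit 0x40360026a01800c900))) 
(.lf (nat_lit 134266250) (dlOf (nat_lit 2) (nat_lit 0x501d80135008006800800280020004000800c903)))) 
(.nd (nat_lit 15) (.lf (nat_lit 15562) (dlOf (nat_lit 1) (nat_lit 0x800800040020002000800c203))) 
(.lf (nat_lit 48330) (dlOf (nat_lit 1) (nat_lit 0x12001800c201)))))) (.nd (nat_lit 26) 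
(.nd (nat_lit 9) (.nd (nat_lit 27) (.nd (nat_lit 28) 
(.lf (nat_lit 4831848842) (dlOf (nat_lit 1) (nat_lit 0x800800c400200020008004e83))) 
(.lf (nat_lit 5100284298) (dlOf (nat_lit 1) (nat_lit 0x800800e000200020008004e83)))) 
(.lf (nat_lit 5234502026) (dlOf (nat_lit 1) (nat_lit 0x800800c400200020008004e83)))) 
(.lf (nat_lit 2952802186) (dlOf (nat_lit 1) (nat_lit 0x20018007781)))) (.nd (nat_lit 9) 
(.nd (nat_lit 15) 
(.lf (nat_lit 4898957706) (dlOf (nat_lit 1) (nat_lit 0x800800e000200020008004e83))) 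
(.lf (nat_lit 2754652554) (dlOf (nat_lit 1) (nat_lit 0x4002000200080f4e82)))) 
(.lf (nat_lit 2885696394) (dlOf (nat_lit 1) (nat_lit 0x18001800bc81))))))) (.nd (nat_lit 26) 
(.nd (nat_lit 31) (.nd (nat_lit 6) (.nd (nat_lit 29) (.nd (nat_lit 8) 
(.lf (nat_lit 1342192778) (dlOf (nat_lit 1) (nat_lit 0x340020006000800c202))) 
(.lf (nat_lit 1346906506) (dlOf (nat_lit 1) (nat_lit 0x14002000400090a4e82)))) (.nd (nat_lit 27) 
(.lf (nat_lit 6174026122) (dlOf (nat_lit 1) (nat_lit 0x8008005000200020008004e83))) 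
(.lf (nat_lit 6308243850) (dlOf (nat_lit 1) (nat_lit 0x8008009800200020008004e83))))) 
(.nd (nat_lit 9) (.lf (nat_lit 1342192074) (dlOf (nat_lit 1) (nat_lit 0x40040002001800b082))) 
(.nd (nat_lit 11) (.lf (nat_lit 5772420042) (dlOf (nat_lit 1) (nat_lit 0x140018092881))) 
(.lf (nat_lit 5771373514) (dlOf (nat_lit 1) (nat_lit 0x20028005d81)))))) (.nd (nat_lit 8) 
(.nd (nat_lit 19) 
(.lf (nat_lit 3491766410) (dlOf (nat_lit 1) (nat_lit 0x600080160002008a0008090103))) 
(.lf (nat_lit 3221758090) (dlOf (nat_lit 2) (nat_lit 0x780000000004000400200040008170102)))) 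
(.nd (nat_lit 6) (.nd (nat_lit 9) 
(.lf (nat_lit 3490228618) (dlOf (nat_lit 1) (nat_lit 0x400200020008004e82))) 
(.lf (nat_lit 3489708938) (dlOf (nat_lit 1) (nat_lit 0x2001800bc81)))) 
(.lf (nat_lit 3623892938) (dlOf (nat_lit 1) (nat_lit 0x800800080020002000800a603)))))) 
(.nd (nat_lit 8) (.nd (nat_lit 6) (.nd (nat_lit 11) 
(.lf (nat_lit 3959955594) (dlOf (nat_lit 2) (nat_lit 0x780000000004000400200040008170102))) 
(.lf (nat_lit 1811949706) (dlOf (nat_lit 2) (nat_lit 0x40340003c0200120018004801)))) 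
(.nd (nat_lit 10) (.nd (nat_lit 21) 
(.lf (nat_lit 4093651658) (dlOf (nat_lit 1) (nat_lit 0x800400020008005802))) 
(.lf (nat_lit 6377450186) (dlOf (nat_lit 1) (nat_lit 0x4002000200080e5802)))) 
(.lf (nat_lit 5838513866) (dlOf (nat_lit 1) (nat_lit 0x360018003a81))))) (.nd (nat_lit 15) 
(.nd (nat_lit 27) (.nd (nat_lit 28) 
(.lf (nat_lit 5972699530) (dlOf (nat_lit 1) (nat_lit 0x20028004e81))) 
(.lf (nat_lit 5704264074) (dlOf (nat_lit 1) (nat_lit 0x8008009000200020008004e83)))) 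
(.lf (nat_lit 5570046346) (dlOf (nat_lit 1) (nat_lit 0x8008006000200020008004e83)))) 
(.nd (nat_lit 6) (.nd (nat_lit 9) 
(.lf (nat_lit 5435860362) (dlOf (nat_lit 1) (nat_lit 0x20028003601))) 
(.lf (nat_lit 3422598026) (dlOf (nat_lit 1) (nat_lit 0x400400020018009002)))) 
(.lf (nat_lit 1409334218) (dlOf (nat_lit 1) (nat_lit 0x1000800040020002000800be83))))))))) 
(.nd (nat_lit 15) (.nd (nat_lit 27) (.nd (nat_lit 7) (.nd (nat_lit 19) (.nd (nat_lit 26) 
(.nd (nat_lit 21) (.nd (nat_lit 8) (.nd (nat_lit 30) 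
(.lf (nat_lit 4563673098) (dlOf (nat_lit 3) (nat_lit 0xa03200c8e8100340198051a40802180080008002000800080c0003))) 
(.lf (nat_lit 1342447626) (dlOf (nat_lit 1) (nat_lit 0x20008030481)))) 
(.lf (nat_lit 46410506) (dlOf (nat_lit 1) (nat_lit 0x17000401220009385b02)))) (.nd (nat_lit 20) 
(.lf (nat_lit 10756106) (dlOf (nat_lit 2) (nat_lit 0x92380001d204000c00200120008620482))) 
(.lf (nat_lit 24387594) (dlOf (nat_lit 1) (nat_lit 0x1c00400020008b90682))))) (.nd (nat_lit 11) 
(.nd (nat_lit 29) 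
(.lf (nat_lit 4362346506) (dlOf (nat_lit 11) (nat_lit 0x31015801480a80058041000b018802700ac017405000bc027002401100027040012015800840a800260490011020800300ac012c05000ae0270023011000080800013624001c0ac000e02b0004d0200b902b000481040268056000960600c605d006502b002f81500028086005c041002e018802780ac001c052008a028001901100023450028015800f40560008c04012605d002d02b00110150003c0920022041001d018800200ac00200520080028002b01100118068001162c00a80ba00b6056002a02a000681240024082007a02b0008014000214380020158001080403180ac001a04900a801580020c180130008026800201ea0008030583))) 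
(.lf (nat_lit 3825475594) (dlOf (nat_lit 2) (nat_lit 0x3a01d0004e818160480)))) (.nd (nat_lit 6) 
(.lf (nat_lit 3557046538) (dlOf (nat_lit 1) (nat_lit 0xc800800a400200cc000812aa03))) 
(.lf (nat_lit 2751739978) (dlOf (nat_lit 2) (nat_lit 0x9021c003b80400040040006000800a682)))))) 
(.nd (nat_lit 20) (.nd (nat_lit 21) (.nd (nat_lit 22) 
(.lf (nat_lit 59514890) (dlOf (nat_lit 3) (nat_lit 0x18964c032bc04003ccf8000667b00102ca0008164c0018b2400a04e6001626a0000003802c8008003800200380009800003))) 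
(.lf (nat_lit 13377546) (dlOf (nat_lit 1) (nat_lit 0x8008000400200020008720803)))) (.nd (nat_lit 6) 
(.lf (nat_lit 4096532490) (dlOf (nat_lit 1) (nat_lit 0x10008000800200040008120003))) 
(.lf (nat_lit 4096532554) (dlOf (nat_lit 3) (nat_lit 0x240a2803484c8018c256020800000021040009027800180040006c08001800401d60018120502))))) 
(.nd (nat_lit 21) 
(.lf (nat_lit 27009034) (dlOf (nat_lit 2) (nat_lit 0x7eda0003ac040014004003c0018ca0482))) 
(.nd (nat_lit 22) (.lf (nat_lit 29106186) (dlOf (nat_lit 1) (nat_lit 0x80008dc0581))) 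
(.lf (nat_lit 16523274) (dlOf (nat_lit 1) (nat_lit 0x8004000600088b0282))))))) (.nd (nat_lit 8) 
(.nd (nat_lit 19) (.nd (nat_lit 20) 
(.lf (nat_lit 5436088458) (dlOf (nat_lit 1) (nat_lit 0xe00180c0f01))) (.nd (nat_lit 26) 
(.lf (nat_lit 3490979978) (dlOf (nat_lit 1) (nat_lit 0x40008043d01))) 
(.lf (nat_lit 2752782474) (dlOf (nat_lit 1) (nat_lit 0x40008043d01))))) (.nd (nat_lit 6) 
(.lf (nat_lit 8139914) (dlOf (nat_lit 1) (nat_lit 0x40018519501))) 
(.lf (nat_lit 8134858) (dlOf (nat_lit 1) (nat_lit 0x20028510881))))) (.nd (nat_lit 6) 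
(.nd (nat_lit 10) (.nd (nat_lit 20) 
(.lf (nat_lit 3221498250) (dlOf (nat_lit 1) (nat_lit 0x74002002e0008114e82))) 
(.lf (nat_lit 57944458) (dlOf (nat_lit 1) (nat_lit 0x1000400100009794e82)))) (.nd (nat_lit 9) 
(.lf (nat_lit 4832109962) (dlOf (nat_lit 1) (nat_lit 0x4004000200080d3602))) 
(.lf (nat_lit 8138634) (dlOf (nat_lit 1) (nat_lit 0x800400040018517782))))) (.nd (nat_lit 10) 
(.nd (nat_lit 19) (.lf (nat_lit 2751734730) (dlOf (nat_lit 2) (nat_lit 0x300b200ba1818002880))) 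
(.lf (nat_lit 50078666) (dlOf (nat_lit 2) (nat_lit 0x5151802cf0040058002000400094c2882)))) 
(.lf (nat_lit 2751735754) (dlOf (nat_lit 4) (nat_lit 0x304300004408001822400381100000e04000608900020440000341000780080018002000e0008004483))))))) 
(.nd (nat_lit 29) (.nd (nat_lit 26) (.nd (nat_lit 19) (.nd (nat_lit 32) (.nd (nat_lit 28) 
(.lf (nat_lit 3355713546) (dlOf (nat_lit 1) (nat_lit 0x10002000400080d0482))) 
(.lf (nat_lit 1476665354) (dlOf (nat_lit 2) (nat_lit 0x4400000c1302001000180f0001)))) 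
(.nd (nat_lit 6) 
(.lf (nat_lit 4697890826) (dlOf (nat_lit 3) (nat_lit 0xa03200e350100340198051300802180080008002000800080c0003))) 
(.lf (nat_lit 5772682186) (dlOf (nat_lit 1) (nat_lit 0x20018092881))))) (.nd (nat_lit 6) 
(.nd (nat_lit 11) 
(.lf (nat_lit 5773205514) (dlOf (nat_lit 2) (nat_lit 0x3b825e00cbf02000400280b0001))) 
(.lf (nat_lit 135014410) (dlOf (nat_lit 1) (nat_lit 0xc002000400080f4702)))) 
(.lf (nat_lit 5773205578) (dlOf (nat_lit 3) (nat_lit 0x3c2620001302007c13e000809880003c1000100080018002003800080b0603))))) 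
(.nd (nat_lit 6) (.nd (nat_lit 19) (.nd (nat_lit 30) (.nd (nat_lit 31) 
(.lf (nat_lit 470032394) (dlOf (nat_lit 1) (nat_lit 0x20008030481))) 
(.lf (nat_lit 2617516042) (dlOf (nat_lit 1) (nat_lit 0x10002000400080d0482)))) 
(.lf (nat_lit 1543774218) (dlOf (nat_lit 2) (nat_lit 0xa02500336018160480)))) 
(.lf (nat_lit 471605258) (dlOf (nat_lit 7) (nat_lit 0xe0000033101005703f00183c0800f81f800bf80401140fc005b802002807e00080120016bc1000781f800b5204006000400680018350282)))) 
(.nd (nat_lit 28) 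
(.lf (nat_lit 2349080650) (dlOf (nat_lit 3) (nat_lit 0x5809c0028046001e01b0000b0300310118000140801900080098002001e00080a0e83))) 
(.lf (nat_lit 1543774282) (dlOf (nat_lit 2) (nat_lit 0x100250001f018160880)))))) (.nd (nat_lit 6) 
(.nd (nat_lit 26) (.nd (nat_lit 28) (.nd (nat_lit 19) 
(.lf (nat_lit 671358986) (dlOf (nat_lit 2) (nat_lit 0xa02500600818160480))) 
(.lf (nat_lit 2819366922) (dlOf (nat_lit 1) (nat_lit 0x20008250081)))) (.nd (nat_lit 31) 
(.lf (nat_lit 939794442) (dlOf (nat_lit 2) (nat_lit 0x20000001780200060018180481))) 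
(.lf (nat_lit 3087278090) (dlOf (nat_lit 2) (nat_lit 0x3a01d0002f818160480))))) (.nd (nat_lit 19) 
(.nd (nat_lit 28) 
(.lf (nat_lit 1812209674) (dlOf (nat_lit 2) (nat_lit 0x20000000e90200060018180481))) 
(.lf (nat_lit 4228128778) (dlOf (nat_lit 11) (nat_lit 0x31013c014809a005803a000b018002e80b8013805400bc027002401100027040012013c008409a0026042001101d002580b8001805400ae0270023011000080800013624001c09e000e02a0004d0200b9027800480e80268054000960600c60560065027802f81340028078005c03a002e018002280b8013c054000e028001901100023450028013c00f40540008c040126056002d02780110134003c084002203a001d018002000b800100540010028002b01100118068001162c00a80ac00b604f002a026800681080024074001002e003d01500021438002013c0010804031809e001a04200a801500020c180130008026800201ea0008030583)))) 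
(.lf (nat_lit 6377185290) (dlOf (nat_lit 2) (nat_lit 0x3b82400071502000400280b0001))))) 
(.nd (nat_lit 10) (.nd (nat_lit 7) (.nd (nat_lit 19) 
(.lf (nat_lit 671359050) (dlOf (nat_lit 2) (nat_lit 0x100250001f018160880))) 
(.lf (nat_lit 6377185354) (dlOf (nat_lit 3) (nat_lit 0x3c2440001002007c131000809100003c1000100080018002003800080b0603)))) 
(.lf (nat_lit 5301870794) (dlOf (nat_lit 2) (nat_lit 0x100b800074040010002000200080c1782)))) 
(.nd (nat_lit 8) 
(.lf (nat_lit 2818847818) (dlOf (nat_lit 11) (nat_lit 0x4c086004801c0001782003a021801f00700005a0800140c4008c043005d00e0000ac18022810c01700380002a0400100620047021802e0070000500c01d0000000220200d2000000100100770000000740802981bc0048068000a01e0000c83003e037800480d00002c08050000200680008129302))) 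
(.nd (nat_lit 9) 
(.lf (nat_lit 2818848074) (dlOf (nat_lit 2) (nat_lit 0x150218028d40800700080018002001c0008129903))) 
(.lf (nat_lit 2885953354) (dlOf (nat_lit 1) (nat_lit 0x20028143e81))))))))) (.nd (nat_lit 28) 
(.nd (nat_lit 19) (.nd (nat_lit 31) (.nd (nat_lit 7) (.nd (nat_lit 6) (.nd (nat_lit 20) 
(.nd (nat_lit 30) 
(.lf (nat_lit 604282890) (dlOf (nat_lit 3) (nat_lit 0x80fc00102040010036000000200020028130081))) 
(.lf (nat_lit 1678024714) (dlOf (nat_lit 10) (nat_lit 0x74042004b011002c003801dc018003e00400740000002703000c810800d0044007a00e005d0060008801001780000009b0c019c0420057011007a803800680180009608006c042004c011002a8038023c00800d600000046850038021001c808800e401c007000000046040019021001d808800f401c010a004006300000022c2803901080124044013200e0034002000214200018038001080403740840090022010400700020c180490008025000201820008140583)))) 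
(.lf (nat_lit 26517514) (dlOf (nat_lit 1) (nat_lit 0x400200020008c50002)))) (.nd (nat_lit 8) 
(.lf (nat_lit 9740362) (dlOf (nat_lit 2) (nat_lit 0x3a290001b018580500))) 
(.lf (nat_lit 29663562) (dlOf (nat_lit 1) (nat_lit 0x940018e30781))))) (.nd (nat_lit 8) 
(.nd (nat_lit 29) 
(.lf (nat_lit 5503230090) (dlOf (nat_lit 1) (nat_lit 0x80080008002000200080c0f03))) 
(.lf (nat_lit 4966359178) (dlOf (nat_lit 1) (nat_lit 0x8004000600080c0f02)))) 
(.lf (nat_lit 5436123530) (dlOf (nat_lit 2) (nat_lit 0x80220035102010e00280e4e81))))) 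
(.nd (nat_lit 30) (.nd (nat_lit 6) (.nd (nat_lit 22) 
(.lf (nat_lit 6644080650) (dlOf (nat_lit 1) (nat_lit 0x600280e0481))) 
(.lf (nat_lit 2755960842) (dlOf (nat_lit 2) (nat_lit 0x1814c015cc0400fc002003600081c0682)))) 
(.nd (nat_lit 8) (.lf (nat_lit 2753863754) (dlOf (nat_lit 1) (nat_lit 0x8004000800080a0e82))) 
(.lf (nat_lit 2751768394) (dlOf (nat_lit 1) (nat_lit 0x80018003e81))))) (.nd (nat_lit 26) 
(.nd (nat_lit 27) (.lf (nat_lit 3758399498) (dlOf (nat_lit 1) (nat_lit 0xc0028170001))) 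
(.lf (nat_lit 3355746314) (dlOf (nat_lit 1) (nat_lit 0x1800280f0001)))) (.nd (nat_lit 6) 
(.lf (nat_lit 3825508362) (dlOf (nat_lit 2) (nat_lit 0xc00b00000018170480))) 
(.lf (nat_lit 3959726666) (dlOf (nat_lit 5) (nat_lit 0x1c00700008c0802a80380004404006c01c0001e02003800e0006000000070100188008007800200700008128d03))))))) 
(.nd (nat_lit 6) (.nd (nat_lit 24) (.nd (nat_lit 7) (.nd (nat_lit 8) 
(.lf (nat_lit 13410314) (dlOf (nat_lit 1) (nat_lit 0x8008000400200020008720803))) 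
(.lf (nat_lit 8169738) (dlOf (nat_lit 1) (nat_lit 0x60028514b81)))) 
(.lf (nat_lit 36481418) (dlOf (nat_lit 1) (nat_lit 0x20029074e81)))) (.nd (nat_lit 7) 
(.nd (nat_lit 20) (.lf (nat_lit 21798922) (dlOf (nat_lit 1) (nat_lit 0x38e0008a70481))) 
(.lf (nat_lit 24944650) (dlOf (nat_lit 2) (nat_lit 0xbb418000d7f0002d208000400200060008bd0582)))) 
(.lf (nat_lit 23896202) (dlOf (nat_lit 1) (nat_lit 0x20018b80101))))) (.nd (nat_lit 8) 
(.nd (nat_lit 9) (.lf (nat_lit 10264650) (dlOf (nat_lit 1) (nat_lit 0xe4004006200185c0f02))) 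
(.lf (nat_lit 8173130) (dlOf (nat_lit 1) (nat_lit 0x1000400020018519c02)))) (.nd (nat_lit 7) 
(.lf (nat_lit 50111818) (dlOf (nat_lit 1) (nat_lit 0x8008008c002002600094c3303))) 
(.lf (nat_lit 8171978) (dlOf (nat_lit 1) (nat_lit 0x60028518681))))))) (.nd (nat_lit 26) 
(.nd (nat_lit 27) (.nd (nat_lit 6) (.nd (nat_lit 22) (.nd (nat_lit 29) 
(.lf (nat_lit 1342480394) (dlOf (nat_lit 1) (nat_lit 0x20018040481))) 
(.lf (nat_lit 805609482) (dlOf (nat_lit 10) (nat_lit 0x74042004b011002c003801dc018003e00400740000002703000c810800d0044007a00e005d0060008801001780000009b0c019c0420057011007a803800680180009608006c042004c011002a8038023c00800d600000046850038021001c808800e401c007000000046040019021001d808800f401c010a004006300000022c2803901080124044013200e0034002000214200018038001080403740840090022010400700020c180490008025000201820008140583)))) 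
(.lf (nat_lit 3494158346) (dlOf (nat_lit 2) (nat_lit 0x1814c00ad60400fc002003600081c0682)))) 
(.nd (nat_lit 7) (.nd (nat_lit 20) 
(.lf (nat_lit 1343004746) (dlOf (nat_lit 1) (nat_lit 0xb00080014002001c0008130d03))) 
(.lf (nat_lit 1346150474) (dlOf (nat_lit 3) (nat_lit 0x74298000cf0200de14c00066818e60600)))) 
(.lf (nat_lit 4563706058) (dlOf (nat_lit 1) (nat_lit 0x300080028002001200080c1b83))))) 
(.nd (nat_lit 7) (.nd (nat_lit 29) 
(.lf (nat_lit 1476698122) (dlOf (nat_lit 1) (nat_lit 0x400400020018140002))) 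
(.lf (nat_lit 3087310858) (dlOf (nat_lit 2) (nat_lit 0xc00b00000018170480)))) (.nd (nat_lit 21) 
(.lf (nat_lit 2013571466) (dlOf (nat_lit 1) (nat_lit 0x60028124e81))) 
(.lf (nat_lit 5773765002) (dlOf (nat_lit 1) (nat_lit 0x200280e4e81)))))) (.nd (nat_lit 27) 
(.nd (nat_lit 30) (.nd (nat_lit 6) 
(.lf (nat_lit 3020201994) (dlOf (nat_lit 1) (nat_lit 0x9400400140018150002))) 
(.lf (nat_lit 5167685706) (dlOf (nat_lit 5) (nat_lit 0xb0050002c01c00780050003083005600a003d8014000bc0801a402800da0050002e82006200a00016c0800a00080030002000a0008100503)))) 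
(.nd (nat_lit 7) (.lf (nat_lit 1410115594) (dlOf (nat_lit 1) (nat_lit 0x24002000200080f4702))) 
(.lf (nat_lit 6241427594) (dlOf (nat_lit 3) (nat_lit 0x201100050068003402e00036060092019004d0000000c81000100080004002000600080f0f03))))) 
(.nd (nat_lit 6) (.nd (nat_lit 7) 
(.lf (nat_lit 470065162) (dlOf (nat_lit 1) (nat_lit 0x20018040481))) 
(.lf (nat_lit 6377744778) (dlOf (nat_lit 1) (nat_lit 0x400180e4e81)))) 
(.lf (nat_lit 470589514) (dlOf (nat_lit 1) (nat_lit 0xb00080014002001c0008130d03)))))))))) 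
(.nd (nat_lit 15) (.nd (nat_lit 8) (.nd (nat_lit 28) (.nd (nat_lit 13) (.nd (nat_lit 19) 
(.nd (nat_lit 6) (.nd (nat_lit 7) (.nd (nat_lit 21) (.nd (nat_lit 10) (.nd (nat_lit 18) 
(.lf (nat_lit 13631530) (dlOf (nat_lit 1) (nat_lit 0x20018730a01))) 
(.lf (nat_lit 63176746) (dlOf (nat_lit 1) (nat_lit 0x8008000c002000200099f0903)))) 
(.lf (nat_lit 4362077226) (dlOf (nat_lit 1) (nat_lit 0x20028002881)))) (.nd (nat_lit 23) 
(.lf (nat_lit 23068714) (dlOf (nat_lit 1) (nat_lit 0x3000200360008b50602))) 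
(.lf (nat_lit 14680106) (dlOf (nat_lit 3) (nat_lit 0x924c0005e040004b060002e0200040018770381))))) 
(.nd (nat_lit 9) (.nd (nat_lit 10) 
(.lf (nat_lit 5436080298) (dlOf (nat_lit 1) (nat_lit 0x600080c1481))) 
(.lf (nat_lit 134220970) (dlOf (nat_lit 2) (nat_lit 0x902080011c080040008002c00200020008006283)))) 
(.nd (nat_lit 11) (.nd (nat_lit 12) 
(.lf (nat_lit 2751465130) (dlOf (nat_lit 1) (nat_lit 0x1c0028003a81))) 
(.lf (nat_lit 20190890) (dlOf (nat_lit 1) (nat_lit 0x3d8008000400200e200089da003)))) 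
(.lf (nat_lit 2885684906) (dlOf (nat_lit 1) (nat_lit 0x8008000400200020008007283)))))) 
(.nd (nat_lit 26) (.nd (nat_lit 9) (.nd (nat_lit 18) 
(.lf (nat_lit 38797418) (dlOf (nat_lit 1) (nat_lit 0x8008000400200020009161e83))) 
(.lf (nat_lit 3892576362) (dlOf (nat_lit 1) (nat_lit 0x40028160281)))) (.nd (nat_lit 7) 
(.nd (nat_lit 18) 
(.lf (nat_lit 5368711786) (dlOf (nat_lit 1) (nat_lit 0x10008000400200020008005383))) 
(.lf (nat_lit 20187754) (dlOf (nat_lit 1) (nat_lit 0x8002000200089d5382)))) 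
(.lf (nat_lit 4294971114) (dlOf (nat_lit 1) (nat_lit 0x400400020008007402))))) (.nd (nat_lit 7) 
(.nd (nat_lit 11) (.nd (nat_lit 12) 
(.lf (nat_lit 3422552682) (dlOf (nat_lit 1) (nat_lit 0x138008003400200020008001803))) 
(.lf (nat_lit 603984490) (dlOf (nat_lit 1) (nat_lit 0x20028008981)))) 
(.lf (nat_lit 5033167466) (dlOf (nat_lit 1) (nat_lit 0x800400020008005382)))) (.nd (nat_lit 27) 
(.lf (nat_lit 67109610) (dlOf (nat_lit 1) (nat_lit 0x10008000400200020008002103))) 
(.lf (nat_lit 6643778282) (dlOf (nat_lit 1) (nat_lit 0x80080098002003c0008002103))))))) 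
(.nd (nat_lit 18) (.nd (nat_lit 24) (.nd (nat_lit 29) (.nd (nat_lit 6) (.nd (nat_lit 21) 
(.lf (nat_lit 67633194) (dlOf (nat_lit 2) (nat_lit 0x70b100022c080048008003c002000800082b0783))) 
(.lf (nat_lit 15204394) (dlOf (nat_lit 10) (nat_lit 0x30b8d4006dbec0029b8a001b5130000be1000d38d400677140028a260001741802e71a8000b204001b8d40013c580002df60001601800171a8000ae0401028960005402006744b0002101005be338000fc0802cf1a800064040084002004400087c0682)))) 
(.lf (nat_lit 3288858730) (dlOf (nat_lit 2) (nat_lit 0x80d400034040010004001c00081c1482)))) 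
(.nd (nat_lit 26) 
(.lf (nat_lit 1611137066) (dlOf (nat_lit 2) (nat_lit 0x100084001202a000500480006818028000800e000200cc00080f0c83))) 
(.nd (nat_lit 27) (.lf (nat_lit 1678245930) (dlOf (nat_lit 1) (nat_lit 0x200181b0981))) 
(.lf (nat_lit 738721834) (dlOf (nat_lit 2) (nat_lit 0x100084001202a000500480006418028000800e000200cc00080f0c83)))))) 
(.nd (nat_lit 22) (.nd (nat_lit 9) 
(.lf (nat_lit 27787306) (dlOf (nat_lit 1) (nat_lit 0x800400260008d20782))) 
(.lf (nat_lit 50856490) (dlOf (nat_lit 1) (nat_lit 0x180080004002000200094d8983)))) 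
(.nd (nat_lit 6) 
(.lf (nat_lit 55050282) (dlOf (nat_lit 2) (nat_lit 0x400000004a04003000200160009690302))) 
(.lf (nat_lit 55050346) (dlOf (nat_lit 1) (nat_lit 0x2c00400060009690782)))))) (.nd (nat_lit 6) 
(.nd (nat_lit 9) (.nd (nat_lit 20) 
(.lf (nat_lit 9175082) (dlOf (nat_lit 1) (nat_lit 0x5c00200680008520a02))) 
(.lf (nat_lit 27000874) (dlOf (nat_lit 2) (nat_lit 0x360000002a018ca0680)))) 
(.lf (nat_lit 1835562) (dlOf (nat_lit 1) (nat_lit 0x8008000400200020008150e83)))) (.nd (nat_lit 9) 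
(.lf (nat_lit 49022058) (dlOf (nat_lit 1) (nat_lit 0x400402000019462982))) 
(.lf (nat_lit 8127082) (dlOf (nat_lit 2) (nat_lit 0x3a5400008f9e000c7570001b038511800))))))) 
(.nd (nat_lit 19) (.nd (nat_lit 18) (.nd (nat_lit 11) (.nd (nat_lit 6) (.nd (nat_lit 9) 
(.lf (nat_lit 23076906) (dlOf (nat_lit 2) (nat_lit 0x6800000062040008002000a0008b50602))) 
(.lf (nat_lit 40903210) (dlOf (nat_lit 1) (nat_lit 0x72800203f00009208982)))) (.nd (nat_lit 10) 
(.lf (nat_lit 3422560874) (dlOf (nat_lit 1) (nat_lit 0x20028001801))) 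
(.lf (nat_lit 6106916458) (dlOf (nat_lit 1) (nat_lit 0x60018003901))))) (.nd (nat_lit 9) 
(.nd (nat_lit 6) 
(.lf (nat_lit 3288345642) (dlOf (nat_lit 1) (nat_lit 0x8008000400200020008006083))) 
(.lf (nat_lit 4362086634) (dlOf (nat_lit 2) (nat_lit 0x1c0000001602000e0008004b01)))) 
(.nd (nat_lit 10) 
(.lf (nat_lit 53488170) (dlOf (nat_lit 1) (nat_lit 0x1c80080138002001000095f5183))) 
(.lf (nat_lit 2754620970) (dlOf (nat_lit 2) (nat_lit 0x900e8001440800780080044002000400080f7183)))))) 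
(.nd (nat_lit 20) (.nd (nat_lit 23) (.nd (nat_lit 29) (.nd (nat_lit 9) 
(.lf (nat_lit 6442721322) (dlOf (nat_lit 1) (nat_lit 0x30004000c0008190802))) 
(.lf (nat_lit 1074012714) (dlOf (nat_lit 2) (nat_lit 0x602700000018090e80)))) (.nd (nat_lit 30) 
(.lf (nat_lit 537141290) (dlOf (nat_lit 1) (nat_lit 0x80080010002002e0008030b03))) 
(.lf (nat_lit 3758366762) (dlOf (nat_lit 2) (nat_lit 0x301a800094080018008000400200020008140903))))) 
(.nd (nat_lit 22) (.lf (nat_lit 25436202) (dlOf (nat_lit 2) (nat_lit 0xcab0100019818c00600))) 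
(.lf (nat_lit 12853290) (dlOf (nat_lit 1) (nat_lit 0xc004000a00086e0a02))))) (.nd (nat_lit 6) 
(.lf (nat_lit 62136362) (dlOf (nat_lit 1) (nat_lit 0x8800400120019960302))) (.nd (nat_lit 7) 
(.lf (nat_lit 20195946) (dlOf (nat_lit 1) (nat_lit 0x8002000200089d5382))) 
(.lf (nat_lit 2752782570) (dlOf (nat_lit 1) (nat_lit 0x8008000400200020008046b83))))))) 
(.nd (nat_lit 21) (.nd (nat_lit 26) (.nd (nat_lit 18) (.nd (nat_lit 9) (.nd (nat_lit 27) 
(.lf (nat_lit 1611145258) (dlOf (nat_lit 3) (nat_lit 0x1180a80068052004e0090000d030001015000058080350008007c002001200080f0c83))) 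
(.lf (nat_lit 134750250) (dlOf (nat_lit 2) (nat_lit 0x60000005d0180a0980)))) 
(.lf (nat_lit 50864682) (dlOf (nat_lit 2) (nat_lit 0x3b6d6400060040014004000a00094d8982)))) 
(.nd (nat_lit 6) (.lf (nat_lit 30154794) (dlOf (nat_lit 1) (nat_lit 0xc00200040008e30002))) 
(.lf (nat_lit 59514986) (dlOf (nat_lit 1) (nat_lit 0x20029800a01))))) (.nd (nat_lit 30) 
(.nd (nat_lit 29) (.lf (nat_lit 201859114) (dlOf (nat_lit 2) (nat_lit 0x6000000a60180a0980))) 
(.lf (nat_lit 738730026) (dlOf (nat_lit 3) (nat_lit 0x1180a80068052004e0090000c830001015000058080350008007c002001200080f0c83)))) 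
(.nd (nat_lit 27) (.lf (nat_lit 1678254122) (dlOf (nat_lit 1) (nat_lit 0x3d000200be00081c0a02))) 
(.lf (nat_lit 3959955498) (dlOf (nat_lit 1) (nat_lit 0xa0008170001)))))) (.nd (nat_lit 6) 
(.nd (nat_lit 20) (.nd (nat_lit 26) 
(.lf (nat_lit 2629674) (dlOf (nat_lit 3) (nat_lit 0x54b80006a520003102000252e0001a948000be080058004001a0008180b02))) 
(.lf (nat_lit 2754093098) (dlOf (nat_lit 3) (nat_lit 0x550448027822000048080298112013e088000110280c0d00)))) 
(.lf (nat_lit 45621290) (dlOf (nat_lit 1) (nat_lit 0x8008000400200020009340203)))) (.nd (nat_lit 9) 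
(.lf (nat_lit 49030250) (dlOf (nat_lit 1) (nat_lit 0x380019462981))) (.nd (nat_lit 10) 
(.lf (nat_lit 8135274) (dlOf (nat_lit 2) (nat_lit 0xe4a800019f3c0006c08001400200080008511802))) 
(.lf (nat_lit 61351530) (dlOf (nat_lit 2) (nat_lit 0xc19200060260000cc1000680080020002001a0009923903))))))))) 
(.nd (nat_lit 18) (.nd (nat_lit 7) (.nd (nat_lit 11) (.nd (nat_lit 6) (.nd (nat_lit 29) 
(.nd (nat_lit 10) 
(.lf (nat_lit 474488874) (dlOf (nat_lit 2) (nat_lit 0x181b2000000200040019180201))) 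
(.lf (nat_lit 469763114) (dlOf (nat_lit 1) (nat_lit 0x20018002881)))) (.nd (nat_lit 26) 
(.lf (nat_lit 805830698) (dlOf (nat_lit 1) (nat_lit 0x200181b0981))) 
(.lf (nat_lit 3154640938) (dlOf (nat_lit 2) (nat_lit 0x400000022c0800900080024002008000082f0783))))) 
(.nd (nat_lit 10) (.nd (nat_lit 22) 
(.lf (nat_lit 4027056234) (dlOf (nat_lit 2) (nat_lit 0x80d400034040010004001c00081c1482))) 
(.lf (nat_lit 474480746) (dlOf (nat_lit 1) (nat_lit 0x8008000800200020009171a83)))) 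
(.nd (nat_lit 26) (.lf (nat_lit 2952795242) (dlOf (nat_lit 1) (nat_lit 0x20018009401))) 
(.lf (nat_lit 3690992746) (dlOf (nat_lit 1) (nat_lit 0xf0008036800202380008009403)))))) 
(.nd (nat_lit 9) (.nd (nat_lit 10) (.nd (nat_lit 26) 
(.lf (nat_lit 1476409450) (dlOf (nat_lit 2) (nat_lit 0x380000000004008c00200bc000800a882))) 
(.lf (nat_lit 3691001962) (dlOf (nat_lit 2) (nat_lit 0x4016001e0000000000800280020032000800a882)))) 
(.nd (nat_lit 6) 
(.lf (nat_lit 2483031082) (dlOf (nat_lit 2) (nat_lit 0x200a8002d80400ec004000a0018006082))) 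
(.lf (nat_lit 1409289322) (dlOf (nat_lit 1) (nat_lit 0x400400020018006082))))) (.nd (nat_lit 19) 
(.nd (nat_lit 26) (.lf (nat_lit 6710889066) (dlOf (nat_lit 1) (nat_lit 0x400400020008005382))) 
(.lf (nat_lit 5301602922) (dlOf (nat_lit 2) (nat_lit 0x202f00030158000ec100010008003000200180008005383)))) 
(.lf (nat_lit 5771889258) (dlOf (nat_lit 1) (nat_lit 0x20008000800200080008005383)))))) 
(.nd (nat_lit 6) (.nd (nat_lit 10) (.nd (nat_lit 27) (.nd (nat_lit 9) 
(.lf (nat_lit 1409818794) (dlOf (nat_lit 1) (nat_lit 0x88004008e0018090282))) 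
(.lf (nat_lit 1342190250) (dlOf (nat_lit 1) (nat_lit 0x20018008c81)))) (.nd (nat_lit 13) 
(.lf (nat_lit 1476399786) (dlOf (nat_lit 1) (nat_lit 0x400200020008008c82))) 
(.lf (nat_lit 1476407978) (dlOf (nat_lit 2) (nat_lit 0x3a045004c7018008c80))))) (.nd (nat_lit 26) 
(.nd (nat_lit 29) 
(.lf (nat_lit 1342181034) (dlOf (nat_lit 1) (nat_lit 0x8008000400200020008007283))) 
(.lf (nat_lit 1879051946) (dlOf (nat_lit 1) (nat_lit 0x98008005000200280008007283)))) 
(.lf (nat_lit 4227862186) (dlOf (nat_lit 1) (nat_lit 0x20008007281))))) (.nd (nat_lit 9) 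
(.nd (nat_lit 10) (.nd (nat_lit 27) 
(.lf (nat_lit 1342191850) (dlOf (nat_lit 2) (nat_lit 0x1004e8001d008006800800740020014000800a903))) 
(.lf (nat_lit 1476409578) (dlOf (nat_lit 2) (nat_lit 0xb0000001d008005000800780020060000800a903)))) 
(.nd (nat_lit 11) (.lf (nat_lit 5772944618) (dlOf (nat_lit 1) (nat_lit 0x400200020008092e82))) 
(.lf (nat_lit 3490188522) (dlOf (nat_lit 1) (nat_lit 0x80028006501))))) (.nd (nat_lit 29) 
(.nd (nat_lit 10) (.lf (nat_lit 1342190314) (dlOf (nat_lit 1) (nat_lit 0x20008008d81))) 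
(.lf (nat_lit 1342181098) (dlOf (nat_lit 1) (nat_lit 0x400400020008007402)))) (.nd (nat_lit 26) 
(.lf (nat_lit 1879052010) (dlOf (nat_lit 1) (nat_lit 0x400400020008007402))) 
(.lf (nat_lit 4227862250) (dlOf (nat_lit 1) (nat_lit 0x400400020008007402)))))))) (.nd (nat_lit 13) 
(.nd (nat_lit 26) (.nd (nat_lit 29) (.nd (nat_lit 7) (.nd (nat_lit 20) 
(.lf (nat_lit 3494117418) (dlOf (nat_lit 1) (nat_lit 0x34002000600081b0002))) 
(.lf (nat_lit 1343488042) (dlOf (nat_lit 3) (nat_lit 0x10811c004407e0004402002204700021c0801a0008016800200040008260783)))) 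
(.nd (nat_lit 27) (.lf (nat_lit 4563665066) (dlOf (nat_lit 1) (nat_lit 0x4004000200080c1482))) 
(.lf (nat_lit 4697882794) (dlOf (nat_lit 1) (nat_lit 0x600280c1501))))) (.nd (nat_lit 9) 
(.nd (nat_lit 19) (.lf (nat_lit 2953052202) (dlOf (nat_lit 1) (nat_lit 0x800280e0781))) 
(.lf (nat_lit 1879834666) (dlOf (nat_lit 2) (nat_lit 0x106f8000f4080010008000800200040008390b03)))) 
(.nd (nat_lit 6) 
(.lf (nat_lit 1881410090) (dlOf (nat_lit 4) (nat_lit 0x20e1000a03c800501e0001180c002c0f00008b020010079000c03c000224100020008004400200540008f05183))) 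
(.lf (nat_lit 5234755178) (dlOf (nat_lit 1) (nat_lit 0x100080008002000400080d3903)))))) 
(.nd (nat_lit 6) (.nd (nat_lit 9) (.nd (nat_lit 27) 
(.lf (nat_lit 3557556266) (dlOf (nat_lit 1) (nat_lit 0x2c0018260701))) (.nd (nat_lit 29) 
(.lf (nat_lit 470548522) (dlOf (nat_lit 5) (nat_lit 0x9d04a003202440178102000a00e006e0038001442804d0250018012200b6081006c00380013c200410250017c12200bc081005d0038000dc200480250011c12200d408100670038000d820022000807ec00205e40008120d03))) 
(.lf (nat_lit 1007419434) (dlOf (nat_lit 1) (nat_lit 0x1c20018340881))))) (.nd (nat_lit 7) 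
(.lf (nat_lit 6376131114) (dlOf (nat_lit 1) (nat_lit 0x1b8008007000200180008095183))) 
(.lf (nat_lit 3557036714) (dlOf (nat_lit 1) (nat_lit 0x9c002006a0008128c82))))) (.nd (nat_lit 7) 
(.nd (nat_lit 11) 
(.lf (nat_lit 4096524394) (dlOf (nat_lit 1) (nat_lit 0x30008002c00200060008120783))) 
(.lf (nat_lit 3557038186) (dlOf (nat_lit 1) (nat_lit 0x400040014000812a882)))) 
(.lf (nat_lit 3557038314) (dlOf (nat_lit 2) (nat_lit 0x8038000e01100000010000800800140020026000812a903)))))) 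
(.nd (nat_lit 27) (.nd (nat_lit 26) (.nd (nat_lit 7) (.nd (nat_lit 9) 
(.lf (nat_lit 1343496234) (dlOf (nat_lit 1) (nat_lit 0x7c0018280701))) 
(.lf (nat_lit 1881418282) (dlOf (nat_lit 4) (nat_lit 0x1838400340f2001c0780004603001203c800981e0001160800241c20024079001403c00022418028800800c800200140008f05183)))) 
(.lf (nat_lit 4563673258) (dlOf (nat_lit 1) (nat_lit 0x100080014002003200080c1483)))) 
(.nd (nat_lit 30) (.nd (nat_lit 32) 
(.lf (nat_lit 335814698) (dlOf (nat_lit 1) (nat_lit 0x80080004002000200080b0403))) 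
(.lf (nat_lit 4630781994) (dlOf (nat_lit 1) (nat_lit 0x4004000200080b0402)))) (.nd (nat_lit 9) 
(.lf (nat_lit 1409556522) (dlOf (nat_lit 1) (nat_lit 0x80080010002002e0008030b03))) 
(.lf (nat_lit 1946427946) (dlOf (nat_lit 2) (nat_lit 0x602700000018090e80)))))) (.nd (nat_lit 30) 
(.nd (nat_lit 19) (.nd (nat_lit 26) 
(.lf (nat_lit 402923562) (dlOf (nat_lit 1) (nat_lit 0x80080004002000200080b0403))) 
(.lf (nat_lit 4764999722) (dlOf (nat_lit 1) (nat_lit 0x4004000200080b0402)))) (.nd (nat_lit 20) 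
(.lf (nat_lit 470556714) (dlOf (nat_lit 5) (nat_lit 0x200940002881000d04a00013c0800882500006e040034128000360200040008120d01))) 
(.lf (nat_lit 471605290) (dlOf (nat_lit 1) (nat_lit 0x30004000e0008350782))))) (.nd (nat_lit 29) 
(.nd (nat_lit 31) (.lf (nat_lit 5838741546) (dlOf (nat_lit 1) (nat_lit 0xc00400040008190882))) 
(.lf (nat_lit 3691257898) (dlOf (nat_lit 2) (nat_lit 0x370030000000800280080030002000c0008100703)))) 
(.lf (nat_lit 2080645162) (dlOf (nat_lit 1) (nat_lit 0xa00080014002000600080a0a03))))))))) 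
(.nd (nat_lit 6) (.nd (nat_lit 30) (.nd (nat_lit 11) (.nd (nat_lit 23) (.nd (nat_lit 9) 
(.nd (nat_lit 7) (.lf (nat_lit 20189482) (dlOf (nat_lit 1) (nat_lit 0x600189d8081))) 
(.nd (nat_lit 26) 
(.lf (nat_lit 4966056362) (dlOf (nat_lit 1) (nat_lit 0x8008009000200020008001003))) 
(.lf (nat_lit 4630512042) (dlOf (nat_lit 1) (nat_lit 0x20008001001))))) (.nd (nat_lit 10) 
(.nd (nat_lit 26) (.lf (nat_lit 2684355498) (dlOf (nat_lit 1) (nat_lit 0x400400020018002682))) 
(.lf (nat_lit 2214593450) (dlOf (nat_lit 1) (nat_lit 0xc0028002681)))) (.nd (nat_lit 13) 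
(.lf (nat_lit 4429186986) (dlOf (nat_lit 1) (nat_lit 0x20028004301))) 
(.lf (nat_lit 2751997866) (dlOf (nat_lit 1) (nat_lit 0x8008000400200020008004303)))))) 
(.nd (nat_lit 10) (.nd (nat_lit 13) 
(.lf (nat_lit 8389034) (dlOf (nat_lit 1) (nat_lit 0x118008000400200020008511003))) 
(.nd (nat_lit 18) (.lf (nat_lit 8397226) (dlOf (nat_lit 1) (nat_lit 0x20008511001))) 
(.lf (nat_lit 43786666) (dlOf (nat_lit 2) (nat_lit 0xd5fb800598080118008008c002002400092a1003))))) 
(.nd (nat_lit 13) (.lf (nat_lit 8390058) (dlOf (nat_lit 1) (nat_lit 0x400200020008513602))) 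
(.lf (nat_lit 8398250) (dlOf (nat_lit 1) (nat_lit 0x400200020008513602)))))) (.nd (nat_lit 27) 
(.nd (nat_lit 12) (.nd (nat_lit 26) (.nd (nat_lit 28) 
(.lf (nat_lit 536873258) (dlOf (nat_lit 1) (nat_lit 0x400400020008004b82))) 
(.lf (nat_lit 2415921450) (dlOf (nat_lit 1) (nat_lit 0x400400020008004b82)))) (.nd (nat_lit 7) 
(.lf (nat_lit 4362078506) (dlOf (nat_lit 1) (nat_lit 0x400400020008004b82))) 
(.lf (nat_lit 872418218) (dlOf (nat_lit 1) (nat_lit 0xc00200060008005d02))))) (.nd (nat_lit 7) 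
(.nd (nat_lit 10) (.lf (nat_lit 4362082602) (dlOf (nat_lit 1) (nat_lit 0x14001800ab81))) 
(.lf (nat_lit 603995434) (dlOf (nat_lit 1) (nat_lit 0x2001800c601)))) 
(.lf (nat_lit 537664426) (dlOf (nat_lit 4) (nat_lit 0xf03b000581d400300000022f06000e076000803a800381c400140e0000e062000703080040000004541c002c0ec0021502001000280fbd01))))) 
(.nd (nat_lit 7) (.nd (nat_lit 26) 
(.lf (nat_lit 4429187370) (dlOf (nat_lit 1) (nat_lit 0x20028004b81))) (.nd (nat_lit 28) 
(.lf (nat_lit 201328938) (dlOf (nat_lit 1) (nat_lit 0x400400020008004b82))) 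
(.lf (nat_lit 469764394) (dlOf (nat_lit 1) (nat_lit 0x400400020008004b82))))) (.nd (nat_lit 9) 
(.nd (nat_lit 18) (.lf (nat_lit 472385962) (dlOf (nat_lit 1) (nat_lit 0x20028984e81))) 
(.lf (nat_lit 4496558506) (dlOf (nat_lit 1) (nat_lit 0x80080004002000200080e4e83)))) 
(.lf (nat_lit 2885696426) (dlOf (nat_lit 2) (nat_lit 0x6018000300bc001405c000402d00070138002805c0014026000e005000600100030000004562800140040008001800bd02))))))) 
(.nd (nat_lit 31) (.nd (nat_lit 10) (.nd (nat_lit 26) (.nd (nat_lit 7) 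
(.lf (nat_lit 1073744170) (dlOf (nat_lit 1) (nat_lit 0x400200020008004b82))) (.nd (nat_lit 13) 
(.lf (nat_lit 5502927274) (dlOf (nat_lit 1) (nat_lit 0xac00200020008001002))) 
(.lf (nat_lit 1610883498) (dlOf (nat_lit 3) (nat_lit 0x2a053001801a80010084002ac0c00e006a007002100066828091000))))) 
(.nd (nat_lit 27) (.nd (nat_lit 32) 
(.lf (nat_lit 1140851114) (dlOf (nat_lit 1) (nat_lit 0x400400020008001002))) 
(.lf (nat_lit 5435818410) (dlOf (nat_lit 1) (nat_lit 0x20008001001)))) 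
(.lf (nat_lit 6106907050) (dlOf (nat_lit 1) (nat_lit 0x9000200020008001002))))) (.nd (nat_lit 11) 
(.nd (nat_lit 9) (.lf (nat_lit 1342182826) (dlOf (nat_lit 1) (nat_lit 0x400400020008009902))) 
(.nd (nat_lit 13) (.lf (nat_lit 1342183338) (dlOf (nat_lit 1) (nat_lit 0x4002800a381))) 
(.lf (nat_lit 1342191530) (dlOf (nat_lit 2) (nat_lit 0x602740002c0400340040006000800a382))))) 
(.nd (nat_lit 12) (.lf (nat_lit 1409297834) (dlOf (nat_lit 1) (nat_lit 0x14004002c0008006d02))) 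
(.nd (nat_lit 13) (.lf (nat_lit 1409293738) (dlOf (nat_lit 1) (nat_lit 0x1c001800cb81))) 
(.lf (nat_lit 1409301930) (dlOf (nat_lit 1) (nat_lit 0x10008001c0020002000800cb83))))))) 
(.nd (nat_lit 11) (.nd (nat_lit 10) (.nd (nat_lit 19) (.nd (nat_lit 7) 
(.lf (nat_lit 3422552874) (dlOf (nat_lit 1) (nat_lit 0x400400020018002202))) 
(.lf (nat_lit 3288596906) (dlOf (nat_lit 1) (nat_lit 0x9400400080008090782)))) (.nd (nat_lit 13) 
(.lf (nat_lit 3221750186) (dlOf (nat_lit 1) (nat_lit 0x400400020018170782))) 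
(.lf (nat_lit 3221758378) (dlOf (nat_lit 2) (nat_lit 0x1c03e00384818170780))))) (.nd (nat_lit 9) 
(.nd (nat_lit 13) (.lf (nat_lit 3690993066) (dlOf (nat_lit 1) (nat_lit 0x800400020008009902))) 
(.lf (nat_lit 3557045674) (dlOf (nat_lit 17) (nat_lit 0x4280e400e403f0052d820008039000400fc014b408008c0e4003c03f0052c82000e00e002944080020118006403800a5004007a046003700e00293c1000600700148c04001807e001201c0051e020003039000b0118006c03800a3b06000e046002400e0028e81000301200146804001c09000a3302000c04800050108028a81000301240040090003202100130100028a4200030124001c0900042021000a0100028a0200038120002804200a2704010a0018129901)))) 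
(.nd (nat_lit 7) (.lf (nat_lit 4026533674) (dlOf (nat_lit 1) (nat_lit 0xa800400040008003d82))) 
(.lf (nat_lit 4026533802) (dlOf (nat_lit 1) (nat_lit 0xbc00200060008004302)))))) (.nd (nat_lit 7) 
(.nd (nat_lit 9) (.nd (nat_lit 10) 
(.lf (nat_lit 4026534186) (dlOf (nat_lit 1) (nat_lit 0x400400020008004b82))) 
(.lf (nat_lit 3490188586) (dlOf (nat_lit 1) (nat_lit 0x400200020008006802)))) 
(.lf (nat_lit 4094700330) (dlOf (nat_lit 1) (nat_lit 0x1c0018055c01)))) (.nd (nat_lit 9) 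
(.nd (nat_lit 13) 
(.lf (nat_lit 3624143274) (dlOf (nat_lit 2) (nat_lit 0x80360191a0200040028144e81))) 
(.lf (nat_lit 3489933738) (dlOf (nat_lit 1) (nat_lit 0x20008004e81)))) 
(.lf (nat_lit 3489668010) (dlOf (nat_lit 1) (nat_lit 0xfc00201fe000800bd02)))))))) 
(.nd (nat_lit 10) (.nd (nat_lit 7) (.nd (nat_lit 26) (.nd (nat_lit 27) (.nd (nat_lit 28) 
(.nd (nat_lit 29) 
(.lf (nat_lit 1073748330) (dlOf (nat_lit 1) (nat_lit 0x800800040020002000800ac03))) 
(.lf (nat_lit 536877418) (dlOf (nat_lit 1) (nat_lit 0x40040002000800ac02)))) (.nd (nat_lit 29) 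
(.lf (nat_lit 2415925610) (dlOf (nat_lit 1) (nat_lit 0x40040002000800ac02))) 
(.lf (nat_lit 4026538346) (dlOf (nat_lit 1) (nat_lit 0x2800800100020002000800ac03))))) 
(.nd (nat_lit 9) (.lf (nat_lit 4429191530) (dlOf (nat_lit 1) (nat_lit 0x100040002000800ac02))) 
(.nd (nat_lit 28) 
(.lf (nat_lit 6039798634) (dlOf (nat_lit 1) (nat_lit 0x80080098002003c0008002583))) 
(.lf (nat_lit 4160750442) (dlOf (nat_lit 1) (nat_lit 0x80080144002003e0008002583)))))) 
(.nd (nat_lit 27) (.nd (nat_lit 12) 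
(.lf (nat_lit 3288336746) (dlOf (nat_lit 1) (nat_lit 0x4000400080018004e82))) (.nd (nat_lit 13) 
(.lf (nat_lit 4362082666) (dlOf (nat_lit 1) (nat_lit 0x40040004000800ac02))) 
(.lf (nat_lit 4362090858) (dlOf (nat_lit 1) (nat_lit 0x2002800ac01))))) (.nd (nat_lit 28) 
(.nd (nat_lit 31) 
(.lf (nat_lit 201333098) (dlOf (nat_lit 1) (nat_lit 0x800800040020002000800ac03))) 
(.lf (nat_lit 2348816746) (dlOf (nat_lit 1) (nat_lit 0x800800040020002000800ac03)))) 
(.lf (nat_lit 1006639466) (dlOf (nat_lit 1) (nat_lit 0x1f800801080020084000800ac03)))))) 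
(.nd (nat_lit 11) (.nd (nat_lit 18) (.nd (nat_lit 13) 
(.lf (nat_lit 44565482) (dlOf (nat_lit 1) (nat_lit 0x400400060009322882))) (.nd (nat_lit 19) 
(.lf (nat_lit 2751472618) (dlOf (nat_lit 1) (nat_lit 0x20018002881))) 
(.lf (nat_lit 44573674) (dlOf (nat_lit 1) (nat_lit 0x20029322881))))) (.nd (nat_lit 9) 
(.lf (nat_lit 6509830634) (dlOf (nat_lit 1) (nat_lit 0x3240028157301))) (.nd (nat_lit 13) 
(.lf (nat_lit 2751726570) (dlOf (nat_lit 1) (nat_lit 0x20018002881))) 
(.lf (nat_lit 2885952490) (dlOf (nat_lit 1) (nat_lit 0x60028142881)))))) (.nd (nat_lit 9) 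
(.nd (nat_lit 12) 
(.lf (nat_lit 50080234) (dlOf (nat_lit 3) (nat_lit 0x38a8c000ff020144546000790194c4f00))) 
(.nd (nat_lit 26) 
(.lf (nat_lit 3623885290) (dlOf (nat_lit 1) (nat_lit 0x30008000c0020006000800b283))) 
(.lf (nat_lit 201333226) (dlOf (nat_lit 1) (nat_lit 0x40040002001800b282))))) (.nd (nat_lit 13) 
(.nd (nat_lit 26) (.lf (nat_lit 6308498410) (dlOf (nat_lit 1) (nat_lit 0x4004000200080d5e82))) 
(.lf (nat_lit 738462698) (dlOf (nat_lit 1) (nat_lit 0x400200020008095e82)))) (.nd (nat_lit 12) 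
(.lf (nat_lit 738470890) (dlOf (nat_lit 1) (nat_lit 0x400200020008095e82))) 
(.lf (nat_lit 2818849770) (dlOf (nat_lit 4) (nat_lit 0x6406c0050e02002e03f0026081000301b000034080150008008400200f6000812bf03)))))))) 
(.nd (nat_lit 9) (.nd (nat_lit 13) (.nd (nat_lit 7) (.nd (nat_lit 11) (.nd (nat_lit 20) 
(.lf (nat_lit 604505450) (dlOf (nat_lit 3) (nat_lit 0x60068004202a002301000020048002c012003c0000001f86002c021800f00a8007004000100120005004800c8000000001800a8002001400082d3482))) 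
(.lf (nat_lit 1008207210) (dlOf (nat_lit 1) (nat_lit 0x80018b03481)))) 
(.lf (nat_lit 3490188650) (dlOf (nat_lit 1) (nat_lit 0x20018006b01)))) (.nd (nat_lit 11) 
(.lf (nat_lit 5435819498) (dlOf (nat_lit 1) (nat_lit 0x3e0008003601))) (.nd (nat_lit 28) 
(.lf (nat_lit 4294970858) (dlOf (nat_lit 1) (nat_lit 0x400400020008006e82))) 
(.lf (nat_lit 1342180842) (dlOf (nat_lit 1) (nat_lit 0x3c004001c0008006e82)))))) (.nd (nat_lit 28) 
(.nd (nat_lit 20) (.nd (nat_lit 12) 
(.lf (nat_lit 4294978922) (dlOf (nat_lit 1) (nat_lit 0x20008006b01))) 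
(.lf (nat_lit 671104362) (dlOf (nat_lit 1) (nat_lit 0xa0000800c901)))) (.nd (nat_lit 7) 
(.lf (nat_lit 20458858) (dlOf (nat_lit 1) (nat_lit 0x200289d6b01))) 
(.lf (nat_lit 2754620906) (dlOf (nat_lit 1) (nat_lit 0xda00080f6e81))))) (.nd (nat_lit 7) 
(.nd (nat_lit 27) (.lf (nat_lit 1879059818) (dlOf (nat_lit 1) (nat_lit 0x20008006b01))) 
(.lf (nat_lit 2550148458) (dlOf (nat_lit 1) (nat_lit 0x20028006b01)))) 
(.lf (nat_lit 2483039722) (dlOf (nat_lit 1) (nat_lit 0x40028006e81)))))) (.nd (nat_lit 26) 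
(.nd (nat_lit 11) (.nd (nat_lit 27) (.nd (nat_lit 28) (.nd (nat_lit 29) 
(.lf (nat_lit 1073743722) (dlOf (nat_lit 1) (nat_lit 0x400400020008004002))) 
(.lf (nat_lit 536872810) (dlOf (nat_lit 1) (nat_lit 0x20028004001)))) 
(.lf (nat_lit 2415921002) (dlOf (nat_lit 1) (nat_lit 0x400400020008004002)))) 
(.lf (nat_lit 4429186922) (dlOf (nat_lit 1) (nat_lit 0x400400020008004002)))) (.nd (nat_lit 7) 
(.lf (nat_lit 2818846570) (dlOf (nat_lit 1) (nat_lit 0x1b000801b0002013e0008127783))) 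
(.lf (nat_lit 20459498) (dlOf (nat_lit 1) (nat_lit 0x100080008002000200089d7a83))))) 
(.nd (nat_lit 27) (.nd (nat_lit 7) 
(.lf (nat_lit 4362078058) (dlOf (nat_lit 1) (nat_lit 0x400400020008004002))) 
(.lf (nat_lit 4362082282) (dlOf (nat_lit 2) (nat_lit 0x30238015600800580080004002000e000800a603)))) 
(.nd (nat_lit 11) (.nd (nat_lit 29) 
(.lf (nat_lit 469763946) (dlOf (nat_lit 1) (nat_lit 0x400400020008004002))) 
(.lf (nat_lit 1006634858) (dlOf (nat_lit 1) (nat_lit 0x400400020008004002)))) 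
(.lf (nat_lit 469765994) (dlOf (nat_lit 1) (nat_lit 0x400400020008007782)))))))))) 
(.nd (nat_lit 13) (.nd (nat_lit 28) (.nd (nat_lit 18) (.nd (nat_lit 19) (.nd (nat_lit 6) 
(.nd (nat_lit 20) (.nd (nat_lit 7) 
(.lf (nat_lit 14712874) (dlOf (nat_lit 1) (nat_lit 0x21800201080008770382))) (.nd (nat_lit 9) 
(.lf (nat_lit 8421802) (dlOf (nat_lit 1) (nat_lit 0x138008000400200020008511003))) 
(.lf (nat_lit 1610648490) (dlOf (nat_lit 1) (nat_lit 0x20008000800200060008005d03))))) 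
(.nd (nat_lit 21) (.nd (nat_lit 22) 
(.lf (nat_lit 26247210) (dlOf (nat_lit 1) (nat_lit 0x260028c20901))) 
(.lf (nat_lit 13664298) (dlOf (nat_lit 1) (nat_lit 0x6c004002e0008740602)))) 
(.lf (nat_lit 28344362) (dlOf (nat_lit 2) (nat_lit 0x151a000128cc0010e08002400400160008d80782))))) 
(.nd (nat_lit 7) (.nd (nat_lit 9) (.nd (nat_lit 10) 
(.lf (nat_lit 201365866) (dlOf (nat_lit 2) (nat_lit 0x4301d8000ac0801700080088002004e000800ac03))) 
(.lf (nat_lit 50365802) (dlOf (nat_lit 1) (nat_lit 0x14004000a00094c3482)))) (.nd (nat_lit 8) 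
(.lf (nat_lit 5502961258) (dlOf (nat_lit 1) (nat_lit 0x10002000c0008003902))) 
(.lf (nat_lit 604016490) (dlOf (nat_lit 1) (nat_lit 0x28008002c00200780008007783))))) 
(.nd (nat_lit 12) (.nd (nat_lit 9) 
(.lf (nat_lit 19959274) (dlOf (nat_lit 2) (nat_lit 0xa9b40000e040008004000200189d6e82))) 
(.lf (nat_lit 1073775594) (dlOf (nat_lit 1) (nat_lit 0x20018002881)))) (.nd (nat_lit 8) 
(.lf (nat_lit 19962602) (dlOf (nat_lit 1) (nat_lit 0x200089db981))) 
(.lf (nat_lit 604019690) (dlOf (nat_lit 3) (nat_lit 0x470088013080801f80440098204003c004009e000800bf02))))))) 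
(.nd (nat_lit 29) (.nd (nat_lit 22) (.nd (nat_lit 6) (.nd (nat_lit 20) (.nd (nat_lit 21) 
(.lf (nat_lit 201883690) (dlOf (nat_lit 1) (nat_lit 0x600180b0d01))) 
(.lf (nat_lit 2654250) (dlOf (nat_lit 5) (nat_lit 0x952f0003a970001d4a8000ea52000651e8002a8ac000ca1800054b80014a3d000551580019018006297000294a40012a3d000951580018820002a97000094a40014a3d000951580017c200098008000800200080008180b03)))) 
(.lf (nat_lit 9994282) (dlOf (nat_lit 1) (nat_lit 0x48004000200185a0c82)))) 
(.lf (nat_lit 34112618) (dlOf (nat_lit 1) (nat_lit 0x8008000400200020008fb2983)))) 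
(.nd (nat_lit 20) (.nd (nat_lit 6) 
(.lf (nat_lit 21528618) (dlOf (nat_lit 1) (nat_lit 0x3800200060008a40302))) 
(.lf (nat_lit 21528682) (dlOf (nat_lit 2) (nat_lit 0x3badc007410200120028a40781)))) 
(.nd (nat_lit 23) 
(.lf (nat_lit 24674346) (dlOf (nat_lit 1) (nat_lit 0x10008000400200040008bb0b03))) 
(.lf (nat_lit 16285738) (dlOf (nat_lit 3) (nat_lit 0xcfae005460200127d7002a2818880700)))))) 
(.nd (nat_lit 26) (.nd (nat_lit 7) 
(.lf (nat_lit 3892871210) (dlOf (nat_lit 1) (nat_lit 0x38008007000200140008280003))) 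
(.lf (nat_lit 537428138) (dlOf (nat_lit 1) (nat_lit 0x88004008e0018090282)))) (.nd (nat_lit 6) 
(.nd (nat_lit 21) 
(.lf (nat_lit 1678278698) (dlOf (nat_lit 2) (nat_lit 0x10000005640800480080040002003a00081d0b03))) 
(.lf (nat_lit 2754117674) (dlOf (nat_lit 8) (nat_lit 0x487e000242b2000190400261f80000c01000f0fc000685a400102a4000170600201f800030b480098564000c2ae000160800381f800080ac8000501000207e0000160400403f00026159000709d0000001801c00080060002002800080c0d03)))) 
(.lf (nat_lit 604536938) (dlOf (nat_lit 1) (nat_lit 0x40028311e81))))))) (.nd (nat_lit 6) 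
(.nd (nat_lit 21) (.nd (nat_lit 27) (.nd (nat_lit 22) (.nd (nat_lit 26) 
(.lf (nat_lit 3758391338) (dlOf (nat_lit 2) (nat_lit 0x180050000ac080008008000400200020008170383))) 
(.lf (nat_lit 3825500202) (dlOf (nat_lit 1) (nat_lit 0x340008170b01)))) (.nd (nat_lit 19) 
(.lf (nat_lit 30703658) (dlOf (nat_lit 1) (nat_lit 0x220008e40d81))) 
(.lf (nat_lit 13402154) (dlOf (nat_lit 2) (nat_lit 0x81aed0045aee001157440072a6c00712d800037f40000dc300028008003800200120008720d03))))) 
(.nd (nat_lit 26) (.nd (nat_lit 29) 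
(.lf (nat_lit 1208254506) (dlOf (nat_lit 1) (nat_lit 0x80080004002000200080b0403))) 
(.lf (nat_lit 671383594) (dlOf (nat_lit 5) (nat_lit 0x300600006204002003000030020002023000168100010118000ac080160008022c00202200008170b03)))) 
(.lf (nat_lit 2349105194) (dlOf (nat_lit 1) (nat_lit 0x200080a0981))))) (.nd (nat_lit 19) 
(.nd (nat_lit 9) (.nd (nat_lit 20) 
(.lf (nat_lit 44335146) (dlOf (nat_lit 1) (nat_lit 0x200192f0b01))) 
(.lf (nat_lit 24412202) (dlOf (nat_lit 1) (nat_lit 0x420008b90981)))) 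
(.lf (nat_lit 23364138) (dlOf (nat_lit 2) (nat_lit 0x101a88000fc080008008005400200020008b80e83)))) 
(.nd (nat_lit 7) (.lf (nat_lit 11305002) (dlOf (nat_lit 1) (nat_lit 0x800400020018690602))) 
(.nd (nat_lit 8) (.lf (nat_lit 20747946) (dlOf (nat_lit 1) (nat_lit 0x4002000200089da002))) 
(.lf (nat_lit 36473258) (dlOf (nat_lit 1) (nat_lit 0x40019074e81))))))) (.nd (nat_lit 8) 
(.nd (nat_lit 11) (.nd (nat_lit 7) (.nd (nat_lit 9) 
(.lf (nat_lit 2349105258) (dlOf (nat_lit 1) (nat_lit 0xa00280a1481))) 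
(.lf (nat_lit 8164970) (dlOf (nat_lit 1) (nat_lit 0x3400400640008519c02)))) 
(.lf (nat_lit 8164074) (dlOf (nat_lit 2) (nat_lit 0x60c5800090080040008001800200060008518d83)))) 
(.nd (nat_lit 19) (.nd (nat_lit 20) 
(.lf (nat_lit 54823530) (dlOf (nat_lit 1) (nat_lit 0x4c800801f000200600009655383))) 
(.lf (nat_lit 20220522) (dlOf (nat_lit 1) (nat_lit 0x10002000200089d5382)))) 
(.lf (nat_lit 20744810) (dlOf (nat_lit 1) (nat_lit 0x180080004002000c00089d5383))))) 
(.nd (nat_lit 7) (.nd (nat_lit 10) 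
(.lf (nat_lit 8165738) (dlOf (nat_lit 1) (nat_lit 0x40040002000851ac02))) 
(.lf (nat_lit 298346) (dlOf (nat_lit 1) (nat_lit 0x20028006b01)))) (.nd (nat_lit 9) 
(.nd (nat_lit 26) 
(.lf (nat_lit 3221520874) (dlOf (nat_lit 7) (nat_lit 0x18501f006600380230018009e0000001184035001f008c00700a5c01c052c00c01dd002005080080908000000220e000600e000108101a301f006b80380003c0807d807c026a00e0000e0201cc01f008d0038000360802d800400780008127302))) 
(.lf (nat_lit 6509855210) (dlOf (nat_lit 9) (nat_lit 0x9404c0005d0200460260002e0100170130001440800e0098000a004009404c0004c02003a0260002501000b0130001200801380980008404007000400160018157302)))) 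
(.lf (nat_lit 4496591850) (dlOf (nat_lit 1) (nat_lit 0x80080004002000200080e5e83)))))))) 
(.nd (nat_lit 6) (.nd (nat_lit 26) (.nd (nat_lit 18) (.nd (nat_lit 8) (.nd (nat_lit 31) 
(.nd (nat_lit 29) 
(.lf (nat_lit 1342734378) (dlOf (nat_lit 2) (nat_lit 0x6c34600cbf02000400280c0001))) 
(.lf (nat_lit 805863466) (dlOf (nat_lit 2) (nat_lit 0x10000005380800480080040002003a00081d0b03)))) 
(.nd (nat_lit 19) 
(.lf (nat_lit 3493888042) (dlOf (nat_lit 2) (nat_lit 0x2387f401302be0040904001e00181b0001))) 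
(.lf (nat_lit 3492315178) (dlOf (nat_lit 4) (nat_lit 0x5f0f300398550000320801803cc00ec1540000b0200250f30000500800600080024002002400080c0c03))))) 
(.nd (nat_lit 7) 
(.lf (nat_lit 1342734634) (dlOf (nat_lit 1) (nat_lit 0x380080120002002000080c0503))) 
(.nd (nat_lit 9) (.lf (nat_lit 268468650) (dlOf (nat_lit 1) (nat_lit 0x400400020008051002))) 
(.lf (nat_lit 1342216106) (dlOf (nat_lit 1) (nat_lit 0x2800800400020008000800a383)))))) 
(.nd (nat_lit 27) (.nd (nat_lit 7) (.nd (nat_lit 19) 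
(.lf (nat_lit 1879343146) (dlOf (nat_lit 1) (nat_lit 0x2000800c4002000e00080e0a03))) 
(.lf (nat_lit 1342996522) (dlOf (nat_lit 1) (nat_lit 0x540008130a01)))) 
(.lf (nat_lit 4026827178) (dlOf (nat_lit 1) (nat_lit 0x28008003400200440008090783)))) 
(.nd (nat_lit 19) (.nd (nat_lit 29) 
(.lf (nat_lit 1476689962) (dlOf (nat_lit 3) (nat_lit 0x138000001120400940000008702006a0018120781))) 
(.lf (nat_lit 3087302698) (dlOf (nat_lit 1) (nat_lit 0x340008170b01)))) 
(.lf (nat_lit 5773230122) (dlOf (nat_lit 1) (nat_lit 0x80080004002000200080b0403)))))) 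
(.nd (nat_lit 27) (.nd (nat_lit 31) (.nd (nat_lit 18) 
(.lf (nat_lit 1946714154) (dlOf (nat_lit 1) (nat_lit 0x1400281b0001))) (.nd (nat_lit 32) 
(.lf (nat_lit 872710186) (dlOf (nat_lit 1) (nat_lit 0x4004003200080a0a02))) 
(.lf (nat_lit 5167677482) (dlOf (nat_lit 1) (nat_lit 0x19400400060008100302))))) (.nd (nat_lit 29) 
(.lf (nat_lit 2483322922) (dlOf (nat_lit 1) (nat_lit 0x200080a0981))) 
(.lf (nat_lit 3020193834) (dlOf (nat_lit 7) (nat_lit 0x8030000190100060180000c4080e280c002540520094022000178301c1018004900a401140440002e0600a6030000168100190180000000800c0008001c002009a0008150383))))) 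
(.nd (nat_lit 29) (.nd (nat_lit 7) (.nd (nat_lit 19) 
(.lf (nat_lit 1543798826) (dlOf (nat_lit 5) (nat_lit 0x300600006204002003000030020002023000168100010118000ac080160008022c00202200008170b03))) 
(.lf (nat_lit 470581290) (dlOf (nat_lit 1) (nat_lit 0x540008130a01)))) 
(.lf (nat_lit 3691025834) (dlOf (nat_lit 8) (nat_lit 0x1500100296c0800c8008014b40400fc02a001e0020052c8200620000029400809600000149e04009402a002a0000051e02003a0000028ec0800480080028002000e0008009903)))) 
(.nd (nat_lit 7) (.nd (nat_lit 19) 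
(.lf (nat_lit 2080669738) (dlOf (nat_lit 1) (nat_lit 0x80080004002000200080b0403))) 
(.lf (nat_lit 6377209898) (dlOf (nat_lit 1) (nat_lit 0x80080004002000200080b0403)))) 
(.lf (nat_lit 4227893674) (dlOf (nat_lit 3) (nat_lit 0x602c00c7c8100030160063e00800d8008014400200140008004e83))))))) 
(.nd (nat_lit 7) (.nd (nat_lit 8) (.nd (nat_lit 11) (.nd (nat_lit 18) 
(.lf (nat_lit 1476952170) (dlOf (nat_lit 1) (nat_lit 0x2120008311e81))) (.nd (nat_lit 19) 
(.lf (nat_lit 2483322986) (dlOf (nat_lit 1) (nat_lit 0xa00280a1481))) 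
(.lf (nat_lit 1346142314) (dlOf (nat_lit 1) (nat_lit 0x7c00400300008e60a02))))) (.nd (nat_lit 9) 
(.lf (nat_lit 1342216298) (dlOf (nat_lit 1) (nat_lit 0x1000800140020002000800a883))) 
(.nd (nat_lit 19) (.lf (nat_lit 5167417962) (dlOf (nat_lit 1) (nat_lit 0x800400020008055382))) 
(.lf (nat_lit 5771922026) (dlOf (nat_lit 1) (nat_lit 0x400400020008005382)))))) (.nd (nat_lit 10) 
(.nd (nat_lit 26) (.lf (nat_lit 1342734698) (dlOf (nat_lit 1) (nat_lit 0x1c004000200080c0702))) 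
(.lf (nat_lit 470319466) (dlOf (nat_lit 1) (nat_lit 0x1c004000200080c0702)))) (.nd (nat_lit 9) 
(.nd (nat_lit 11) (.lf (nat_lit 2952828266) (dlOf (nat_lit 1) (nat_lit 0x20008009901))) 
(.lf (nat_lit 3490221418) (dlOf (nat_lit 1) (nat_lit 0x400200020008006b02)))) 
(.lf (nat_lit 2952826730) (dlOf (nat_lit 1) (nat_lit 0x180008005400200460008007783)))))) 
(.nd (nat_lit 26) (.nd (nat_lit 9) (.nd (nat_lit 10) (.nd (nat_lit 11) 
(.lf (nat_lit 3491004650) (dlOf (nat_lit 1) (nat_lit 0xa0018046b81))) 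
(.lf (nat_lit 1342216426) (dlOf (nat_lit 1) (nat_lit 0x8008003c0020008000800a903)))) 
(.lf (nat_lit 3490221290) (dlOf (nat_lit 1) (nat_lit 0x400400020008006502)))) (.nd (nat_lit 8) 
(.lf (nat_lit 4026566378) (dlOf (nat_lit 1) (nat_lit 0x40028003b01))) 
(.lf (nat_lit 2952829930) (dlOf (nat_lit 2) (nat_lit 0x5000000000008003800800040020042000800bf03))))) 
(.nd (nat_lit 18) (.nd (nat_lit 8) (.nd (nat_lit 11) 
(.lf (nat_lit 471367914) (dlOf (nat_lit 3) (nat_lit 0x409980032408002051c0015a040010002000200082e0602))) 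
(.lf (nat_lit 469797098) (dlOf (nat_lit 1) (nat_lit 0x30004001c0008004b02)))) 
(.lf (nat_lit 3691025386) (dlOf (nat_lit 2) (nat_lit 0x6201500130c0800280080004002001c0008009203)))) 
(.nd (nat_lit 27) 
(.lf (nat_lit 1409581290) (dlOf (nat_lit 1) (nat_lit 0x28008005000200020008046b83))) 
(.lf (nat_lit 4228153578) (dlOf (nat_lit 1) (nat_lit 0x560028046b81))))))))) (.nd (nat_lit 18) 
(.nd (nat_lit 8) (.nd (nat_lit 19) (.nd (nat_lit 21) (.nd (nat_lit 23) (.nd (nat_lit 20) 
(.nd (nat_lit 6) 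
(.lf (nat_lit 134261930) (dlOf (nat_lit 2) (nat_lit 0x10082000470200060018006281))) 
(.lf (nat_lit 5167423594) (dlOf (nat_lit 1) (nat_lit 0xd20028050181)))) (.nd (nat_lit 22) 
(.lf (nat_lit 68198442) (dlOf (nat_lit 2) (nat_lit 0xa01500021018450680))) 
(.lf (nat_lit 22061098) (dlOf (nat_lit 1) (nat_lit 0xc0018a90601))))) (.nd (nat_lit 6) 
(.nd (nat_lit 22) 
(.lf (nat_lit 26255402) (dlOf (nat_lit 13) (nat_lit 0x29b1c0002b02002acb7000150100026c70000a008010b7f00051b1c0024cc90001383000a6fe0004b6380009a9e0008d40000468b000134340011a180002d0b001a4bd00009448007b7f00029b1c0006d400001203001c6fe0008b63800046080005b1c0004d0c000110200046be80133264006187e0036c2c0000e0400146fe0000600800ab7f00005bf20002d8b000168680005420020b29c0000004007400400720018c20902))) 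
(.lf (nat_lit 13672490) (dlOf (nat_lit 2) (nat_lit 0x411a180006404006800200280008740602)))) 
(.lf (nat_lit 59809898) (dlOf (nat_lit 1) (nat_lit 0x20019831e81))))) (.nd (nat_lit 6) 
(.nd (nat_lit 9) (.nd (nat_lit 7) 
(.lf (nat_lit 14721066) (dlOf (nat_lit 1) (nat_lit 0x10008000800200040008770383))) 
(.lf (nat_lit 35693738) (dlOf (nat_lit 1) (nat_lit 0x20019012c01)))) (.nd (nat_lit 11) 
(.lf (nat_lit 40935978) (dlOf (nat_lit 1) (nat_lit 0x3800400220009208982))) 
(.lf (nat_lit 69249578) (dlOf (nat_lit 1) (nat_lit 0x20018905181))))) (.nd (nat_lit 7) 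
(.lf (nat_lit 19968618) (dlOf (nat_lit 1) (nat_lit 0x4004000600189d8982))) (.nd (nat_lit 9) 
(.lf (nat_lit 2754653418) (dlOf (nat_lit 2) (nat_lit 0x80380002d02000200180f6501))) 
(.lf (nat_lit 19970794) (dlOf (nat_lit 1) (nat_lit 0x4002000200089db982))))))) (.nd (nat_lit 28) 
(.nd (nat_lit 23) (.nd (nat_lit 26) (.nd (nat_lit 22) 
(.lf (nat_lit 2819137578) (dlOf (nat_lit 16) (nat_lit 0x70032801b019002f808c0160040008d01080090060000da1800700ca006e04600b6022800198180010194017c08c0006104000c065000300100560230000a8080700114015807200be01500be009001b80140010000000240c00d2045000200a8038004800180160038005000100000008c3003b01140234024000220400d2065004f032000a815c038008c01f80450076010802e808002d800a007a0000001089004f022801b00480004008017408a0001f02002a045000070100b0009000028080090048000020400040ca0008046003d02280000018033000801d0002000400081a0683))) 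
(.lf (nat_lit 21536810) (dlOf (nat_lit 3) (nat_lit 0x4ec80000281000276400000c080138008004800200280008a40303)))) 
(.nd (nat_lit 29) 
(.lf (nat_lit 4362641450) (dlOf (nat_lit 1) (nat_lit 0x600080064002001a00080c0b03))) 
(.lf (nat_lit 1678286890) (dlOf (nat_lit 2) (nat_lit 0x604f000298181d0b00))))) (.nd (nat_lit 20) 
(.nd (nat_lit 22) 
(.lf (nat_lit 11051050) (dlOf (nat_lit 5) (nat_lit 0x151df8800068040a8efc4000330205357e200019010011bf10000c40801c0008004400200400008660703))) 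
(.lf (nat_lit 15245354) (dlOf (nat_lit 2) (nat_lit 0x3273c000a8040018004000400087c0682)))) 
(.lf (nat_lit 10002474) (dlOf (nat_lit 6) (nat_lit 0xfcb5000c648c011709c000984d000abe2801691100001a180013444000584d00005020001d110000e1340001208006709c000784d0000102000fc2700015f140000208010c002006a00085a0c82))))) 
(.nd (nat_lit 26) (.nd (nat_lit 21) (.nd (nat_lit 30) 
(.lf (nat_lit 805871658) (dlOf (nat_lit 2) (nat_lit 0x604f000298181d0b00))) 
(.lf (nat_lit 1879613482) (dlOf (nat_lit 1) (nat_lit 0x40028240801)))) 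
(.lf (nat_lit 3492323370) (dlOf (nat_lit 1) (nat_lit 0x1ec00080c0c01)))) (.nd (nat_lit 6) 
(.nd (nat_lit 9) 
(.lf (nat_lit 4228423722) (dlOf (nat_lit 1) (nat_lit 0x600080064002001a00080c0b03))) 
(.lf (nat_lit 4094206506) (dlOf (nat_lit 2) (nat_lit 0x407200009818018980)))) 
(.lf (nat_lit 474521706) (dlOf (nat_lit 1) (nat_lit 0x300080008002000800091a0a03))))))) 
(.nd (nat_lit 6) (.nd (nat_lit 10) (.nd (nat_lit 7) (.nd (nat_lit 19) 
(.lf (nat_lit 1089834) (dlOf (nat_lit 1) (nat_lit 0x20008068281))) 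
(.lf (nat_lit 67674410) (dlOf (nat_lit 1) (nat_lit 0x5400182d0701)))) (.nd (nat_lit 9) 
(.nd (nat_lit 22) (.lf (nat_lit 8429994) (dlOf (nat_lit 1) (nat_lit 0x58008000400200020008511003))) 
(.lf (nat_lit 2755699114) (dlOf (nat_lit 2) (nat_lit 0x502c800000040008004001000081b0782)))) 
(.lf (nat_lit 3489708970) (dlOf (nat_lit 1) (nat_lit 0x4000800bd01))))) (.nd (nat_lit 12) 
(.nd (nat_lit 19) (.lf (nat_lit 8431018) (dlOf (nat_lit 1) (nat_lit 0x400200020008513602))) 
(.lf (nat_lit 8955306) (dlOf (nat_lit 1) (nat_lit 0x400200020008513602)))) 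
(.lf (nat_lit 3691034026) (dlOf (nat_lit 2) (nat_lit 0x1480000149e0400e000200200008009902))))) 
(.nd (nat_lit 10) (.nd (nat_lit 12) (.nd (nat_lit 11) 
(.lf (nat_lit 201368554) (dlOf (nat_lit 1) (nat_lit 0x300018002881))) 
(.lf (nat_lit 5033208810) (dlOf (nat_lit 1) (nat_lit 0x400400020008005e82)))) (.nd (nat_lit 26) 
(.lf (nat_lit 2952838122) (dlOf (nat_lit 2) (nat_lit 0x148000000000400880020008000800bf02))) 
(.lf (nat_lit 604027882) (dlOf (nat_lit 2) (nat_lit 0x10070013040800600080040002006c000800bf03))))) 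
(.nd (nat_lit 7) (.nd (nat_lit 9) (.nd (nat_lit 11) 
(.lf (nat_lit 50373994) (dlOf (nat_lit 1) (nat_lit 0x14004001c00094c3482))) 
(.lf (nat_lit 3490229610) (dlOf (nat_lit 1) (nat_lit 0x400200020008006b02)))) 
(.lf (nat_lit 2952834922) (dlOf (nat_lit 1) (nat_lit 0x28008000c00200060008007783)))) 
(.nd (nat_lit 11) (.lf (nat_lit 469805034) (dlOf (nat_lit 1) (nat_lit 0x800200020008004602))) 
(.lf (nat_lit 20492266) (dlOf (nat_lit 1) (nat_lit 0xc004001200189d7a82)))))))) (.nd (nat_lit 28) 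
(.nd (nat_lit 20) (.nd (nat_lit 6) (.nd (nat_lit 26) (.nd (nat_lit 29) (.nd (nat_lit 9) 
(.lf (nat_lit 30187562) (dlOf (nat_lit 1) (nat_lit 0x2a0028e30001))) 
(.lf (nat_lit 1074045482) (dlOf (nat_lit 2) (nat_lit 0xae02700000018090e80)))) (.nd (nat_lit 7) 
(.lf (nat_lit 3758399530) (dlOf (nat_lit 7) (nat_lit 0x8030000178100060180000b8080e280c002540520094022000160301c1018004900a401140440002b0600a6030000150100190180000000800c0008001c002009a0008170383))) 
(.lf (nat_lit 671391914) (dlOf (nat_lit 1) (nat_lit 0x560028184c01))))) (.nd (nat_lit 19) 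
(.nd (nat_lit 27) 
(.lf (nat_lit 3825508394) (dlOf (nat_lit 5) (nat_lit 0x280160003102001200b0001801000a0058000b408004802c0005604005000200080008170b02))) 
(.lf (nat_lit 6107209770) (dlOf (nat_lit 1) (nat_lit 0x4004000200080b0402)))) 
(.lf (nat_lit 2754388010) (dlOf (nat_lit 1) (nat_lit 0x800080e0601))))) (.nd (nat_lit 26) 
(.nd (nat_lit 7) (.lf (nat_lit 306538) (dlOf (nat_lit 1) (nat_lit 0x20028006b01))) 
(.nd (nat_lit 29) 
(.lf (nat_lit 3221529066) (dlOf (nat_lit 7) (nat_lit 0x70807c027a00e00d10060068000000046100f9807c06ae00e02f6006000680080bc0000000220a010800e000108101d801f00a400380003c08093c07c039a00e0000e02022701f00d78038000360801b400400020018127302))) 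
(.lf (nat_lit 5905883626) (dlOf (nat_lit 1) (nat_lit 0x800400020008157d02))))) (.nd (nat_lit 7) 
(.lf (nat_lit 3959726442) (dlOf (nat_lit 1) (nat_lit 0x40018125201))) (.nd (nat_lit 9) 
(.lf (nat_lit 6509863402) (dlOf (nat_lit 1) (nat_lit 0x20028157301))) 
(.lf (nat_lit 2751767530) (dlOf (nat_lit 1) (nat_lit 0x20018002881))))))) (.nd (nat_lit 23) 
(.nd (nat_lit 6) (.nd (nat_lit 7) (.nd (nat_lit 9) 
(.lf (nat_lit 3973162) (dlOf (nat_lit 1) (nat_lit 0x20008260c01))) 
(.lf (nat_lit 57975338) (dlOf (nat_lit 8) (nat_lit 0x1cbdc000300200105ee000178100092f70000b80800497b80005a04001cbdc000050200125ee000010100082f70000000800300080064002003600097a8983)))) 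
(.lf (nat_lit 20231850) (dlOf (nat_lit 1) (nat_lit 0x4002000200089da002)))) (.nd (nat_lit 7) 
(.lf (nat_lit 20228714) (dlOf (nat_lit 1) (nat_lit 0x4002000200089d5382))) 
(.lf (nat_lit 8172266) (dlOf (nat_lit 2) (nat_lit 0x3862c0004804000400200020008518d82))))) 
(.nd (nat_lit 24) (.nd (nat_lit 19) 
(.lf (nat_lit 9740330) (dlOf (nat_lit 1) (nat_lit 0x600080038002001e0008580303))) 
(.lf (nat_lit 45916202) (dlOf (nat_lit 1) (nat_lit 0x400400020009370902)))) (.nd (nat_lit 6) 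
(.nd (nat_lit 22) 
(.lf (nat_lit 62169130) (dlOf (nat_lit 2) (nat_lit 0x400000004a04003000200160009960302))) 
(.lf (nat_lit 32809002) (dlOf (nat_lit 1) (nat_lit 0x8008000c00200020008f20903)))) 
(.lf (nat_lit 62169194) (dlOf (nat_lit 1) (nat_lit 0x2c00400060009960782))))))) (.nd (nat_lit 26) 
(.nd (nat_lit 30) (.nd (nat_lit 7) (.nd (nat_lit 27) 
(.lf (nat_lit 6711189546) (dlOf (nat_lit 1) (nat_lit 0x4004000200080b0402))) 
(.lf (nat_lit 3087310890) (dlOf (nat_lit 5) (nat_lit 0x280160003102001200b0001801000a0058000b408004802c0005604005000200080008170b02)))) 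
(.lf (nat_lit 4563706026) (dlOf (nat_lit 2) (nat_lit 0x501580005c0800300080020002001000080c1483)))) 
(.nd (nat_lit 19) (.nd (nat_lit 29) 
(.lf (nat_lit 1342480426) (dlOf (nat_lit 1) (nat_lit 0x3000401520008040602))) 
(.lf (nat_lit 1879351338) (dlOf (nat_lit 5) (nat_lit 0x602c0001815400040a80006051000802780030138000c81800180ae000c054000d02880028138000c61000240ae000c054000b02880040138000c21000280ae0010054000b02880040138000be10031c004003600080f0b02)))) 
(.nd (nat_lit 20) (.lf (nat_lit 3492585514) (dlOf (nat_lit 1) (nat_lit 0x800080e0601))) 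
(.lf (nat_lit 1346150442) (dlOf (nat_lit 3) (nat_lit 0x2d828a01740cf00a3051006601cc028c03800d201a000148600aa0a2804e833c03480e6003201c00013848e60200)))))) 
(.nd (nat_lit 27) (.nd (nat_lit 30) (.nd (nat_lit 32) 
(.lf (nat_lit 872718378) (dlOf (nat_lit 1) (nat_lit 0x200180a0a01))) 
(.lf (nat_lit 5167685674) (dlOf (nat_lit 1) (nat_lit 0x10002000e0008100302)))) (.nd (nat_lit 7) 
(.lf (nat_lit 1946460714) (dlOf (nat_lit 2) (nat_lit 0xae02700000018090e80))) 
(.lf (nat_lit 6241427626) (dlOf (nat_lit 1) (nat_lit 0x200280f1481))))) (.nd (nat_lit 22) 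
(.nd (nat_lit 29) (.lf (nat_lit 470065194) (dlOf (nat_lit 1) (nat_lit 0x3000401520008040602))) 
(.lf (nat_lit 1006936106) (dlOf (nat_lit 5) (nat_lit 0x602c0001815400040a80006051000802780030138000ca1800180ae000c054000d02880028138000c81000240ae000c054000b02880040138000c41000280ae0010054000b02880040138000be10031c004003600080f0b02)))) 
(.nd (nat_lit 8) (.lf (nat_lit 474259498) (dlOf (nat_lit 1) (nat_lit 0x4002000200090f0a02))) 
(.lf (nat_lit 474259754) (dlOf (nat_lit 2) (nat_lit 0x305a002c100800100080018002001200090f5a03))))))))))))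

end

end Pool.Agent.Lib.MP_5854e1_co.Cz

namespace Pool.Agent.Lib.MP_5854e1_co.Cz

noncomputable section

noncomputable def tz133 : DT := (.nd (nat_lit 15) (.nd (nat_lit 18) (.nd (nat_lit 5) 
(.nd (nat_lit 7) (.nd (nat_lit 8) (.nd (nat_lit 13) (.nd (nat_lit 6) (.nd (nat_lit 9) 
(.nd (nat_lit 21) (.nd (nat_lit 19) 
(.lf (nat_lit 47251466) (dlOf (nat_lit 1) (nat_lit 0x3cc002015e00093c0002))) 
(.lf (nat_lit 3557359626) (dlOf (nat_lit 8) (nat_lit 0x1b00e000a0044001e0040080061003303000076810003019001640b600b804500c201c001a00880008036001d60c0012064000ea010002032001b00e0003a60800a40700066022000e602005b02e8005e008037800800f0002004a00081c0483)))) 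
(.nd (nat_lit 11) 
(.lf (nat_lit 28377098) (dlOf (nat_lit 4) (nat_lit 0x7ae68003cc0a005e7820005b9a00103028017920801b2e6800d8c0a005e4028d90280))) 
(.lf (nat_lit 3492874250) (dlOf (nat_lit 3) (nat_lit 0x2d0074000a804008c0400004e02000600180f4701))))) 
(.nd (nat_lit 11) (.nd (nat_lit 19) 
(.lf (nat_lit 1008796170) (dlOf (nat_lit 1) (nat_lit 0x640018f87b01))) 
(.lf (nat_lit 1880687114) (dlOf (nat_lit 1) (nat_lit 0xa0008b37b01)))) 
(.lf (nat_lit 201398794) (dlOf (nat_lit 4) (nat_lit 0x320000060981000301d8029a40800100ec014d00400ec0020082000800b282))))) 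
(.nd (nat_lit 19) (.nd (nat_lit 12) (.nd (nat_lit 20) 
(.lf (nat_lit 12648522) (dlOf (nat_lit 1) (nat_lit 0x10002000a00086d0e82))) 
(.lf (nat_lit 38862922) (dlOf (nat_lit 1) (nat_lit 0x220019170601)))) (.nd (nat_lit 9) 
(.lf (nat_lit 201398346) (dlOf (nat_lit 2) (nat_lit 0xdd010c02c407e016c03b00ac009800000200868008002c00202bc000800a683))) 
(.lf (nat_lit 3355514442) (dlOf (nat_lit 1) (nat_lit 0x4004000200080a9c02))))) (.nd (nat_lit 24) 
(.nd (nat_lit 26) 
(.lf (nat_lit 3494445130) (dlOf (nat_lit 2) (nat_lit 0x781a0000c084001a023001800f0000b0200140008010000200560008220d03))) 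
(.lf (nat_lit 2756247626) (dlOf (nat_lit 2) (nat_lit 0x781a0000c084001a023001800f0000b4200140008010000200560008220d03)))) 
(.lf (nat_lit 21561418) (dlOf (nat_lit 1) (nat_lit 0x800801fc002008e0008a40503)))))) 
(.nd (nat_lit 30) (.nd (nat_lit 19) (.nd (nat_lit 6) (.nd (nat_lit 21) 
(.lf (nat_lit 4563476490) (dlOf (nat_lit 1) (nat_lit 0xe0028090001))) 
(.lf (nat_lit 14753802) (dlOf (nat_lit 1) (nat_lit 0x400200220008770002)))) 
(.lf (nat_lit 25239626) (dlOf (nat_lit 1) (nat_lit 0x220008bf0d01)))) (.nd (nat_lit 6) 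
(.nd (nat_lit 22) (.lf (nat_lit 738795530) (dlOf (nat_lit 1) (nat_lit 0x20028110001))) 
(.lf (nat_lit 474554378) (dlOf (nat_lit 1) (nat_lit 0xe00091a0001)))) 
(.lf (nat_lit 36249674) (dlOf (nat_lit 1) (nat_lit 0x360019050601))))) (.nd (nat_lit 20) 
(.nd (nat_lit 6) (.nd (nat_lit 11) 
(.lf (nat_lit 1611210762) (dlOf (nat_lit 1) (nat_lit 0x20028110001))) 
(.lf (nat_lit 3623954442) (dlOf (nat_lit 2) (nat_lit 0x100e80048000000540400040018004701)))) 
(.lf (nat_lit 3492356170) (dlOf (nat_lit 2) (nat_lit 0x121fc000150180c1480)))) (.nd (nat_lit 6) 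
(.nd (nat_lit 9) 
(.lf (nat_lit 3492882442) (dlOf (nat_lit 3) (nat_lit 0x170074000a804012c03a0005102000c00180f4701))) 
(.lf (nat_lit 1880695306) (dlOf (nat_lit 2) (nat_lit 0x306f8029e0080178008001c00200140008b37b03)))) 
(.lf (nat_lit 4095287370) (dlOf (nat_lit 2) (nat_lit 0x4307c000114080018008006800200020008090503))))))) 
(.nd (nat_lit 27) (.nd (nat_lit 29) (.nd (nat_lit 13) (.nd (nat_lit 9) 
(.lf (nat_lit 3211594) (dlOf (nat_lit 1) (nat_lit 0xb8008004800200160008200603))) 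
(.lf (nat_lit 2483100490) (dlOf (nat_lit 2) (nat_lit 0x24010004f007002b7c1000c80080090002007e000800bc83)))) 
(.nd (nat_lit 20) (.nd (nat_lit 28) 
(.lf (nat_lit 3221299530) (dlOf (nat_lit 2) (nat_lit 0x3c02000016018090600))) 
(.lf (nat_lit 4563476810) (dlOf (nat_lit 1) (nat_lit 0xe8008003400200580008090c83)))) 
(.lf (nat_lit 3219786) (dlOf (nat_lit 1) (nat_lit 0x400200020008200602))))) (.nd (nat_lit 9) 
(.nd (nat_lit 13) (.lf (nat_lit 4093707594) (dlOf (nat_lit 1) (nat_lit 0x400400020008003302))) 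
(.lf (nat_lit 3019973962) (dlOf (nat_lit 1) (nat_lit 0x80080004002000200080d3303)))) 
(.nd (nat_lit 6) (.lf (nat_lit 4026599178) (dlOf (nat_lit 1) (nat_lit 0x20018003b81))) 
(.nd (nat_lit 10) (.lf (nat_lit 5167450954) (dlOf (nat_lit 1) (nat_lit 0xf8400202120008055c02))) 
(.lf (nat_lit 536938314) (dlOf (nat_lit 1) (nat_lit 0x1a0018003e81))))))) (.nd (nat_lit 13) 
(.nd (nat_lit 6) (.nd (nat_lit 9) 
(.lf (nat_lit 671156490) (dlOf (nat_lit 1) (nat_lit 0x8008000400200040008144b83))) 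
(.nd (nat_lit 10) (.lf (nat_lit 3355513610) (dlOf (nat_lit 1) (nat_lit 0x7e00280a8f81))) 
(.lf (nat_lit 2348877578) (dlOf (nat_lit 7) (nat_lit 0x6202a000288100010150001400801900a80009e04008c0540004e02004602a0002401001b01500010c0801b0008009800200400008003b83))))) 
(.nd (nat_lit 9) (.nd (nat_lit 10) 
(.lf (nat_lit 671156554) (dlOf (nat_lit 1) (nat_lit 0x400200720008144d82))) 
(.lf (nat_lit 1543572810) (dlOf (nat_lit 2) (nat_lit 0xf80200002004000400200040008146982)))) 
(.lf (nat_lit 5301668682) (dlOf (nat_lit 1) (nat_lit 0x2000200120008005c02))))) (.nd (nat_lit 11) 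
(.nd (nat_lit 26) (.lf (nat_lit 1208033610) (dlOf (nat_lit 1) (nat_lit 0x7400400020018090c82))) 
(.lf (nat_lit 3959497034) (dlOf (nat_lit 2) (nat_lit 0x3c02000015818090600)))) (.nd (nat_lit 6) 
(.lf (nat_lit 671164682) (dlOf (nat_lit 1) (nat_lit 0x600080024002000c0008144b83))) 
(.nd (nat_lit 10) (.lf (nat_lit 671164746) (dlOf (nat_lit 1) (nat_lit 0x140028144d81))) 
(.lf (nat_lit 1543581002) (dlOf (nat_lit 2) (nat_lit 0x400800008018146980))))))))) 
(.nd (nat_lit 28) (.nd (nat_lit 8) (.nd (nat_lit 13) (.nd (nat_lit 23) (.nd (nat_lit 6) 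
(.nd (nat_lit 20) (.lf (nat_lit 6442516618) (dlOf (nat_lit 1) (nat_lit 0x20028090101))) 
(.lf (nat_lit 3211402) (dlOf (nat_lit 1) (nat_lit 0x8008000400200020008200103)))) 
(.lf (nat_lit 4496359626) (dlOf (nat_lit 1) (nat_lit 0x20028050881)))) (.nd (nat_lit 6) 
(.nd (nat_lit 19) (.lf (nat_lit 10551434) (dlOf (nat_lit 1) (nat_lit 0xc00285f3d01))) 
(.lf (nat_lit 12124298) (dlOf (nat_lit 1) (nat_lit 0x1200086c0101)))) 
(.lf (nat_lit 10551498) (dlOf (nat_lit 1) (nat_lit 0x1400085f5a01))))) (.nd (nat_lit 21) 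
(.nd (nat_lit 6) (.nd (nat_lit 9) 
(.lf (nat_lit 1812013194) (dlOf (nat_lit 8) (nat_lit 0xc00980058044002201d001600e000128200050098001c044000e021000700e800300700008614002804c0010022000b010800300740018038000410a00020220001e8100020130000ec0800080980007204003004c0003802007600180b0101))) 
(.lf (nat_lit 1610688138) (dlOf (nat_lit 1) (nat_lit 0x20028093a01)))) 
(.lf (nat_lit 1677795530) (dlOf (nat_lit 2) (nat_lit 0x1c07000b602600123828090480)))) 
(.nd (nat_lit 20) 
(.lf (nat_lit 2753634442) (dlOf (nat_lit 1) (nat_lit 0x8008000400200020008090103))) 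
(.lf (nat_lit 3219594) (dlOf (nat_lit 1) (nat_lit 0x18008000400200080008200103)))))) 
(.nd (nat_lit 6) (.nd (nat_lit 11) (.nd (nat_lit 9) (.nd (nat_lit 13) 
(.lf (nat_lit 19992970) (dlOf (nat_lit 1) (nat_lit 0xc00289d8381))) 
(.lf (nat_lit 8991114) (dlOf (nat_lit 1) (nat_lit 0x18008001c00200020008518383)))) 
(.lf (nat_lit 8459146) (dlOf (nat_lit 1) (nat_lit 0x20008519001)))) (.nd (nat_lit 10) 
(.nd (nat_lit 13) (.lf (nat_lit 1610680714) (dlOf (nat_lit 1) (nat_lit 0x20028004e81))) 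
(.lf (nat_lit 2754685322) (dlOf (nat_lit 1) (nat_lit 0x200180f4e81)))) 
(.lf (nat_lit 134299018) (dlOf (nat_lit 2) (nat_lit 0x140000067e020014001800c901))))) 
(.nd (nat_lit 9) (.nd (nat_lit 27) (.nd (nat_lit 11) 
(.lf (nat_lit 50921930) (dlOf (nat_lit 1) (nat_lit 0x200294d7a81))) 
(.lf (nat_lit 3758164426) (dlOf (nat_lit 1) (nat_lit 0xe00180d4e81)))) (.nd (nat_lit 29) 
(.lf (nat_lit 134285770) (dlOf (nat_lit 1) (nat_lit 0x180080150002009c0008004e83))) 
(.lf (nat_lit 3892382154) (dlOf (nat_lit 1) (nat_lit 0x20028104e81))))) (.nd (nat_lit 10) 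
(.nd (nat_lit 11) (.lf (nat_lit 201393098) (dlOf (nat_lit 1) (nat_lit 0x1c00200580008002882))) 
(.lf (nat_lit 134290378) (dlOf (nat_lit 2) (nat_lit 0x390218000000802280080020002008c000800be83)))) 
(.lf (nat_lit 201394122) (dlOf (nat_lit 2) (nat_lit 0x6025000038080040008006400200440008004483))))))) 
(.nd (nat_lit 26) (.nd (nat_lit 6) (.nd (nat_lit 9) (.nd (nat_lit 8) 
(.lf (nat_lit 939597962) (dlOf (nat_lit 8) (nat_lit 0xc00980058044002201d001600e000128200050098001c044000e021000700e800300700008614002804c0010022000b010800300740018038000410a00020220001e8100020130000ec0800080980007204003004c0003802007600180b0101))) 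
(.nd (nat_lit 11) (.nd (nat_lit 32) 
(.lf (nat_lit 402719114) (dlOf (nat_lit 1) (nat_lit 0x800400020008091002))) 
(.lf (nat_lit 4697686410) (dlOf (nat_lit 1) (nat_lit 0x18008000800200020008091003)))) 
(.lf (nat_lit 3490253194) (dlOf (nat_lit 1) (nat_lit 0x20018004e81))))) (.nd (nat_lit 13) 
(.nd (nat_lit 27) (.lf (nat_lit 2952859530) (dlOf (nat_lit 1) (nat_lit 0x20028007781))) 
(.lf (nat_lit 1476464522) (dlOf (nat_lit 2) (nat_lit 0x60170052d818007780)))) 
(.lf (nat_lit 1476472714) (dlOf (nat_lit 2) (nat_lit 0x1000000a3c0200020008007781))))) 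
(.nd (nat_lit 8) (.nd (nat_lit 13) 
(.lf (nat_lit 4697686218) (dlOf (nat_lit 1) (nat_lit 0x20028090881))) 
(.lf (nat_lit 805380298) (dlOf (nat_lit 2) (nat_lit 0x1c07000b602600123828090480)))) 
(.nd (nat_lit 9) (.nd (nat_lit 10) 
(.lf (nat_lit 4697686474) (dlOf (nat_lit 1) (nat_lit 0x4002000a0008091102))) 
(.lf (nat_lit 4697695690) (dlOf (nat_lit 1) (nat_lit 0x14002002a0008093602)))) 
(.lf (nat_lit 4563479498) (dlOf (nat_lit 1) (nat_lit 0x10800400080008095d82)))))) (.nd (nat_lit 10) 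
(.nd (nat_lit 29) (.nd (nat_lit 6) (.nd (nat_lit 8) 
(.lf (nat_lit 5838536842) (dlOf (nat_lit 1) (nat_lit 0x20028090101))) 
(.lf (nat_lit 3556837770) (dlOf (nat_lit 1) (nat_lit 0x400400020008084e82)))) 
(.lf (nat_lit 1543580106) (dlOf (nat_lit 1) (nat_lit 0x8004000c0008144e82)))) (.nd (nat_lit 6) 
(.nd (nat_lit 11) (.lf (nat_lit 872481162) (dlOf (nat_lit 1) (nat_lit 0x20018091001))) 
(.lf (nat_lit 5167450506) (dlOf (nat_lit 1) (nat_lit 0x540018054e81)))) 
(.lf (nat_lit 3019966922) (dlOf (nat_lit 1) (nat_lit 0x1000180d4e81))))) (.nd (nat_lit 13) 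
(.nd (nat_lit 8) (.lf (nat_lit 2617316490) (dlOf (nat_lit 1) (nat_lit 0x400280a9501))) 
(.nd (nat_lit 9) 
(.lf (nat_lit 4227931530) (dlOf (nat_lit 1) (nat_lit 0x5000800340020004000800c903))) 
(.lf (nat_lit 3691057034) (dlOf (nat_lit 3) (nat_lit 0x1400e80291408003007401478040018004000a0008007782))))) 
(.nd (nat_lit 27) 
(.lf (nat_lit 1409367434) (dlOf (nat_lit 2) (nat_lit 0x3c096004d4020006001800c901))) 
(.lf (nat_lit 4227939722) (dlOf (nat_lit 3) (nat_lit 0x1a040003420100040200017ec08027800801100020032000800c903))))))))) 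
(.nd (nat_lit 28) (.nd (nat_lit 7) (.nd (nat_lit 19) (.nd (nat_lit 30) (.nd (nat_lit 20) 
(.nd (nat_lit 8) (.nd (nat_lit 23) 
(.lf (nat_lit 23134250) (dlOf (nat_lit 2) (nat_lit 0x2b2f200002804000800400100008b60882))) 
(.lf (nat_lit 14745642) (dlOf (nat_lit 3) (nat_lit 0xd35d600017810080aeb0000b80800d800800e4002007c0008770383)))) 
(.lf (nat_lit 671156522) (dlOf (nat_lit 1) (nat_lit 0x40028144b81)))) (.nd (nat_lit 10) 
(.nd (nat_lit 23) (.lf (nat_lit 38871082) (dlOf (nat_lit 1) (nat_lit 0x20029170201))) 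
(.lf (nat_lit 13705258) (dlOf (nat_lit 2) (nat_lit 0x8a38a8000c8080018008002800200100008740603)))) 
(.lf (nat_lit 19991594) (dlOf (nat_lit 2) (nat_lit 0x50d44002d804001c004000600189d6082))))) 
(.nd (nat_lit 8) (.nd (nat_lit 9) (.nd (nat_lit 13) 
(.lf (nat_lit 3221291050) (dlOf (nat_lit 1) (nat_lit 0x8008000400200020008090003))) 
(.lf (nat_lit 3221299242) (dlOf (nat_lit 2) (nat_lit 0x201e00204818090000)))) 
(.lf (nat_lit 1744898602) (dlOf (nat_lit 1) (nat_lit 0xc00200020008095182)))) (.nd (nat_lit 6) 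
(.lf (nat_lit 1744904490) (dlOf (nat_lit 1) (nat_lit 0x80028090b01))) (.nd (nat_lit 10) 
(.lf (nat_lit 3758164330) (dlOf (nat_lit 1) (nat_lit 0x400280d4e81))) 
(.lf (nat_lit 3892381034) (dlOf (nat_lit 1) (nat_lit 0x20004000a0008103482))))))) (.nd (nat_lit 9) 
(.nd (nat_lit 29) (.nd (nat_lit 13) 
(.lf (nat_lit 201916458) (dlOf (nat_lit 2) (nat_lit 0x200bc00000040038004003c00080c0d02))) 
(.nd (nat_lit 23) (.lf (nat_lit 4362674218) (dlOf (nat_lit 1) (nat_lit 0x200180d0d01))) 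
(.lf (nat_lit 42541098) (dlOf (nat_lit 1) (nat_lit 0x400200020009260202))))) (.nd (nat_lit 13) 
(.lf (nat_lit 2754150442) (dlOf (nat_lit 3) (nat_lit 0x23011200024020142089000110180c0d00))) 
(.nd (nat_lit 21) (.lf (nat_lit 1678319658) (dlOf (nat_lit 1) (nat_lit 0xc002000c00081e0d02))) 
(.lf (nat_lit 2754158634) (dlOf (nat_lit 1) (nat_lit 0xc002000600080c0d02)))))) (.nd (nat_lit 6) 
(.nd (nat_lit 20) 
(.lf (nat_lit 44632618) (dlOf (nat_lit 3) (nat_lit 0x2173d00046010010b9e8002240800e80080008002002a0009325183))) 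
(.lf (nat_lit 41486890) (dlOf (nat_lit 2) (nat_lit 0x47e20008b02000c0009245181)))) 
(.nd (nat_lit 10) (.lf (nat_lit 7930474) (dlOf (nat_lit 2) (nat_lit 0xc8aa4000320200020028511801))) 
(.nd (nat_lit 13) (.lf (nat_lit 61408874) (dlOf (nat_lit 1) (nat_lit 0x400200020009923902))) 
(.lf (nat_lit 7939690) (dlOf (nat_lit 1) (nat_lit 0x98004000c0008513902)))))))) (.nd (nat_lit 6) 
(.nd (nat_lit 9) (.nd (nat_lit 10) (.nd (nat_lit 13) (.nd (nat_lit 27) 
(.lf (nat_lit 1140916650) (dlOf (nat_lit 1) (nat_lit 0x800200020008001002))) 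
(.lf (nat_lit 1812005290) (dlOf (nat_lit 1) (nat_lit 0x200180b0781)))) 
(.lf (nat_lit 1610686890) (dlOf (nat_lit 2) (nat_lit 0x7c098003c035000ab028091000)))) 
(.nd (nat_lit 8) (.nd (nat_lit 11) 
(.lf (nat_lit 49357994) (dlOf (nat_lit 1) (nat_lit 0xd80080008002003e0009462c03))) 
(.lf (nat_lit 19991722) (dlOf (nat_lit 1) (nat_lit 0x100080004002000200089d6283)))) 
(.nd (nat_lit 13) (.lf (nat_lit 8455594) (dlOf (nat_lit 1) (nat_lit 0x400200020008513602))) 
(.lf (nat_lit 8463786) (dlOf (nat_lit 1) (nat_lit 0x800200020008513602)))))) (.nd (nat_lit 8) 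
(.nd (nat_lit 13) 
(.lf (nat_lit 19993258) (dlOf (nat_lit 1) (nat_lit 0x900080004002002e00089d8c83))) 
(.lf (nat_lit 20001450) (dlOf (nat_lit 1) (nat_lit 0x4002000200089d8c82)))) (.nd (nat_lit 12) 
(.nd (nat_lit 23) 
(.lf (nat_lit 2348877738) (dlOf (nat_lit 2) (nat_lit 0x88000000300400d800200260008004302))) 
(.lf (nat_lit 8456106) (dlOf (nat_lit 1) (nat_lit 0x2b0008009c00200460008514303)))) 
(.lf (nat_lit 7935914) (dlOf (nat_lit 1) (nat_lit 0x8000800080020004000851a383)))))) 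
(.nd (nat_lit 20) (.nd (nat_lit 9) (.nd (nat_lit 8) 
(.lf (nat_lit 18948330) (dlOf (nat_lit 1) (nat_lit 0x400200020008970602))) (.nd (nat_lit 10) 
(.lf (nat_lit 61407722) (dlOf (nat_lit 1) (nat_lit 0x280080010002000a0009921383))) 
(.lf (nat_lit 134286826) (dlOf (nat_lit 1) (nat_lit 0x40018006e81))))) (.nd (nat_lit 10) 
(.nd (nat_lit 11) (.lf (nat_lit 536937450) (dlOf (nat_lit 1) (nat_lit 0x20018002881))) 
(.lf (nat_lit 738274282) (dlOf (nat_lit 1) (nat_lit 0x400200020008095e82)))) 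
(.lf (nat_lit 201398250) (dlOf (nat_lit 1) (nat_lit 0x180020092000800a602))))) (.nd (nat_lit 13) 
(.nd (nat_lit 9) (.nd (nat_lit 12) 
(.lf (nat_lit 11600362) (dlOf (nat_lit 1) (nat_lit 0x400186c0d01))) 
(.lf (nat_lit 7934442) (dlOf (nat_lit 1) (nat_lit 0x40028518681)))) 
(.lf (nat_lit 20516842) (dlOf (nat_lit 1) (nat_lit 0x2800189d7a81)))) (.nd (nat_lit 8) 
(.lf (nat_lit 30482666) (dlOf (nat_lit 2) (nat_lit 0x57450001ec080028008001400200080008e30603))) 
(.lf (nat_lit 2753110506) (dlOf (nat_lit 1) (nat_lit 0x1c0018090d01)))))))) (.nd (nat_lit 6) 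
(.nd (nat_lit 27) (.nd (nat_lit 13) (.nd (nat_lit 7) (.nd (nat_lit 8) (.nd (nat_lit 26) 
(.lf (nat_lit 1879638058) (dlOf (nat_lit 1) (nat_lit 0x400400060008280702))) 
(.lf (nat_lit 3557359658) (dlOf (nat_lit 16) (nat_lit 0x70034001b019c02f80920160043008d01080090060000da1800700d0006e04900b60240001981800101a0017c0920006104000c068000300100560248000a8080700120015807600be01600be009001b80140010000000240c00d2048000200b0038004800180160038005000100000008c3003b01200234024000220400d2068004f033800a815c038009201f80480076010802e808002d800a007a0000001089004f024001b0048000400801740900001f02002a048000070100b0009000028080090048000020400040d00008049003d02400000018033000801d0002000400081c0683)))) 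
(.lf (nat_lit 4563468586) (dlOf (nat_lit 1) (nat_lit 0x1000200040008090b02)))) (.nd (nat_lit 8) 
(.lf (nat_lit 1342247594) (dlOf (nat_lit 1) (nat_lit 0x50002000e0008008c82))) 
(.lf (nat_lit 872481194) (dlOf (nat_lit 2) (nat_lit 0x400980012c04001000200020008091002))))) 
(.nd (nat_lit 30) (.nd (nat_lit 7) (.nd (nat_lit 8) 
(.lf (nat_lit 805380138) (dlOf (nat_lit 2) (nat_lit 0x3404e00204818090000))) 
(.lf (nat_lit 4563476778) (dlOf (nat_lit 1) (nat_lit 0xbc00200080008090b02)))) 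
(.lf (nat_lit 268509610) (dlOf (nat_lit 2) (nat_lit 0x2a02c000ab018051000)))) (.nd (nat_lit 21) 
(.nd (nat_lit 10) 
(.lf (nat_lit 1343299626) (dlOf (nat_lit 3) (nat_lit 0x7c0b180348554032c28402a412f00d005e003a0254018810400040000002a0800260b1803185540334284029612f00cb05e003602540168104000450e002e00181e0681))) 
(.lf (nat_lit 1409362986) (dlOf (nat_lit 1) (nat_lit 0x8008002000200060008006083)))) 
(.nd (nat_lit 19) 
(.lf (nat_lit 1344348202) (dlOf (nat_lit 1) (nat_lit 0xa0008000400200020008740003))) 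
(.lf (nat_lit 3492356138) (dlOf (nat_lit 3) (nat_lit 0x4e0f30000640802887980002c04000c002000600080c0c02))))))) 
(.nd (nat_lit 7) (.nd (nat_lit 10) (.nd (nat_lit 8) (.nd (nat_lit 9) 
(.lf (nat_lit 470876202) (dlOf (nat_lit 11) (nat_lit 0x1340e40002e01009a0720001680801a06a0000ac0400d835000401a3002a0b1805985540024284097a1310056092005d839c02e019401020be005704f802c01c80350072008e02500980000001507801786a0000a6040034350000510200401a80002581002f0d40001280801686a00070346006016300b70aa8001050812d4262017a0e7008205f0027827c01580e40196039004101280480000000843400bc3500000002002000281c0681))) 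
(.lf (nat_lit 5774049834) (dlOf (nat_lit 1) (nat_lit 0x4002000200080f8982)))) 
(.lf (nat_lit 470352170) (dlOf (nat_lit 1) (nat_lit 0x4004000200080c0502)))) (.nd (nat_lit 9) 
(.nd (nat_lit 11) 
(.lf (nat_lit 402719786) (dlOf (nat_lit 1) (nat_lit 0x200080008002000e0008092883))) 
(.lf (nat_lit 1543572522) (dlOf (nat_lit 1) (nat_lit 0x2c0028146081)))) 
(.lf (nat_lit 4697695786) (dlOf (nat_lit 1) (nat_lit 0x40028093701))))) (.nd (nat_lit 11) 
(.nd (nat_lit 32) (.lf (nat_lit 402719146) (dlOf (nat_lit 1) (nat_lit 0x400400020008091002))) 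
(.lf (nat_lit 4697686442) (dlOf (nat_lit 1) (nat_lit 0x400400020008091002)))) (.nd (nat_lit 9) 
(.nd (nat_lit 10) (.lf (nat_lit 1543571882) (dlOf (nat_lit 1) (nat_lit 0x40008144e81))) 
(.lf (nat_lit 1543581098) (dlOf (nat_lit 2) (nat_lit 0x4000000e202000e0008146d01)))) 
(.lf (nat_lit 5301676970) (dlOf (nat_lit 1) (nat_lit 0xc0008005d01))))))) (.nd (nat_lit 13) 
(.nd (nat_lit 7) (.nd (nat_lit 9) (.nd (nat_lit 10) (.nd (nat_lit 11) 
(.lf (nat_lit 474546282) (dlOf (nat_lit 1) (nat_lit 0x14004000600091a0a02))) 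
(.lf (nat_lit 1342249066) (dlOf (nat_lit 1) (nat_lit 0x48008001c002000e000800a883)))) 
(.lf (nat_lit 1543572586) (dlOf (nat_lit 1) (nat_lit 0x8d0008032800201660008146083)))) 
(.nd (nat_lit 10) (.lf (nat_lit 335612522) (dlOf (nat_lit 1) (nat_lit 0xc00400020008095382))) 
(.nd (nat_lit 12) 
(.lf (nat_lit 5100340842) (dlOf (nat_lit 1) (nat_lit 0x8008000400200080008053903))) 
(.lf (nat_lit 2617316970) (dlOf (nat_lit 1) (nat_lit 0x24002000200080a9c02)))))) (.nd (nat_lit 10) 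
(.nd (nat_lit 8) (.nd (nat_lit 21) 
(.lf (nat_lit 805372138) (dlOf (nat_lit 2) (nat_lit 0xe80a2007403a0004c028090480))) 
(.lf (nat_lit 471924970) (dlOf (nat_lit 1) (nat_lit 0x200286b0601)))) 
(.lf (nat_lit 2080441322) (dlOf (nat_lit 1) (nat_lit 0x60018092881)))) (.nd (nat_lit 26) 
(.nd (nat_lit 27) (.lf (nat_lit 2952859626) (dlOf (nat_lit 1) (nat_lit 0x20028007a81))) 
(.lf (nat_lit 1476464618) (dlOf (nat_lit 1) (nat_lit 0x120008006000200080008007a83)))) 
(.lf (nat_lit 3691057130) (dlOf (nat_lit 1) (nat_lit 0x20018007a81)))))) (.nd (nat_lit 30) 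
(.nd (nat_lit 29) (.nd (nat_lit 7) 
(.lf (nat_lit 4697694570) (dlOf (nat_lit 1) (nat_lit 0xe0008004400200620008090f03))) 
(.nd (nat_lit 8) (.lf (nat_lit 4563476714) (dlOf (nat_lit 1) (nat_lit 0x3800200100008090a82))) 
(.lf (nat_lit 402727914) (dlOf (nat_lit 1) (nat_lit 0xe0018092881))))) (.nd (nat_lit 7) 
(.lf (nat_lit 5100349034) (dlOf (nat_lit 1) (nat_lit 0x20008053901))) (.nd (nat_lit 10) 
(.lf (nat_lit 5167459306) (dlOf (nat_lit 1) (nat_lit 0x20028055e81))) 
(.lf (nat_lit 2952867818) (dlOf (nat_lit 1) (nat_lit 0x40028007a81)))))) (.nd (nat_lit 8) 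
(.nd (nat_lit 7) (.nd (nat_lit 9) 
(.lf (nat_lit 1342257258) (dlOf (nat_lit 1) (nat_lit 0x20008000c002000a000800a883))) 
(.lf (nat_lit 6376991338) (dlOf (nat_lit 1) (nat_lit 0x20008000800200020008095383)))) 
(.lf (nat_lit 1342257386) (dlOf (nat_lit 2) (nat_lit 0x103f0001d0080010008001c002000a000800a903)))) 
(.nd (nat_lit 9) (.lf (nat_lit 3491308010) (dlOf (nat_lit 1) (nat_lit 0x1c0018090d01))) 
(.nd (nat_lit 26) 
(.lf (nat_lit 1476472810) (dlOf (nat_lit 2) (nat_lit 0x500e8029440800080080058002000a0008007a83))) 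
(.lf (nat_lit 3691065322) (dlOf (nat_lit 1) (nat_lit 0x8c00200160008007a82))))))))))) 
(.nd (nat_lit 13) (.nd (nat_lit 5) (.nd (nat_lit 26) (.nd (nat_lit 20) (.nd (nat_lit 29) 
(.nd (nat_lit 7) (.nd (nat_lit 19) (.nd (nat_lit 21) 
(.lf (nat_lit 1476722698) (dlOf (nat_lit 2) (nat_lit 0xe01b00000018150080))) 
(.lf (nat_lit 27590666) (dlOf (nat_lit 2) (nat_lit 0x383ec00a4204002000400160018d00282)))) 
(.nd (nat_lit 21) (.lf (nat_lit 5046282) (dlOf (nat_lit 1) (nat_lit 0x20018300481))) 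
(.lf (nat_lit 3492610058) (dlOf (nat_lit 3) (nat_lit 0x1201fa003828100520fd001be00800300080094002000400080e0003))))) 
(.nd (nat_lit 8) (.lf (nat_lit 23920778) (dlOf (nat_lit 1) (nat_lit 0xc00400020018b80102))) 
(.nd (nat_lit 10) (.lf (nat_lit 35981706) (dlOf (nat_lit 1) (nat_lit 0x20019014e81))) 
(.lf (nat_lit 3624209802) (dlOf (nat_lit 1) (nat_lit 0xac004003a0008146c82)))))) (.nd (nat_lit 27) 
(.nd (nat_lit 6) (.nd (nat_lit 28) 
(.lf (nat_lit 3758424074) (dlOf (nat_lit 1) (nat_lit 0x80008190281))) 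
(.lf (nat_lit 2953117706) (dlOf (nat_lit 3) (nat_lit 0x400b8001c058001802b000c0148004009c001c03c000a01a000c00b8004004c0010012000e005000b0010004800000c7c34002c05c001e02c00100150005809c002003c001600900010010018bc380088008005800200020008140283)))) 
(.nd (nat_lit 28) 
(.lf (nat_lit 1610940490) (dlOf (nat_lit 1) (nat_lit 0x80080004002000200080a1683))) 
(.lf (nat_lit 4026859594) (dlOf (nat_lit 2) (nat_lit 0x30000000500800f000800ac002004e00080a0e83))))) 
(.nd (nat_lit 6) (.nd (nat_lit 7) (.nd (nat_lit 19) 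
(.lf (nat_lit 3087335434) (dlOf (nat_lit 3) (nat_lit 0x1d0000005140800b000000284040008002000200081a0482))) 
(.lf (nat_lit 2819424266) (dlOf (nat_lit 1) (nat_lit 0x20008280001)))) 
(.lf (nat_lit 2818903946) (dlOf (nat_lit 1) (nat_lit 0x18008001000200040008127783)))) 
(.lf (nat_lit 1745158218) (dlOf (nat_lit 2) (nat_lit 0xe00e000080000005604000e00080b0601)))))) 
(.nd (nat_lit 19) (.nd (nat_lit 8) (.nd (nat_lit 24) (.nd (nat_lit 22) 
(.lf (nat_lit 37027850) (dlOf (nat_lit 1) (nat_lit 0xa0019080001))) 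
(.lf (nat_lit 16056330) (dlOf (nat_lit 1) (nat_lit 0xa0018860281)))) (.nd (nat_lit 21) 
(.lf (nat_lit 26542090) (dlOf (nat_lit 1) (nat_lit 0x400200020008c50002))) 
(.lf (nat_lit 62193674) (dlOf (nat_lit 1) (nat_lit 0x400400020019970082))))) (.nd (nat_lit 6) 
(.lf (nat_lit 57999626) (dlOf (nat_lit 1) (nat_lit 0x80080004002000200097a3683))) (.nd (nat_lit 7) 
(.lf (nat_lit 20253514) (dlOf (nat_lit 1) (nat_lit 0x4002000200089d5c02))) 
(.lf (nat_lit 1880426954) (dlOf (nat_lit 1) (nat_lit 0x40018984e81)))))) (.nd (nat_lit 23) 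
(.nd (nat_lit 8) (.nd (nat_lit 22) 
(.lf (nat_lit 1346174986) (dlOf (nat_lit 1) (nat_lit 0xe0008e60001))) 
(.lf (nat_lit 24969226) (dlOf (nat_lit 5) (nat_lit 0x113520016802000c9a9000b30100044d480058c0800435f80000004001000400140008bd0582)))) 
(.nd (nat_lit 6) (.lf (nat_lit 37554570) (dlOf (nat_lit 1) (nat_lit 0x4002000200090d4e82))) 
(.lf (nat_lit 20781898) (dlOf (nat_lit 1) (nat_lit 0x1c00189dbc81))))) (.nd (nat_lit 6) 
(.nd (nat_lit 9) (.lf (nat_lit 45940746) (dlOf (nat_lit 1) (nat_lit 0x40029370101))) 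
(.lf (nat_lit 12386826) (dlOf (nat_lit 2) (nat_lit 0x13dd50009ee9800076520016506000a00286c0d81)))) 
(.lf (nat_lit 10289226) (dlOf (nat_lit 1) (nat_lit 0x4002000a00085c0f02))))))) (.nd (nat_lit 28) 
(.nd (nat_lit 29) (.nd (nat_lit 6) (.nd (nat_lit 7) (.nd (nat_lit 19) 
(.lf (nat_lit 68485130) (dlOf (nat_lit 1) (nat_lit 0x400400020008580482))) 
(.lf (nat_lit 69009418) (dlOf (nat_lit 1) (nat_lit 0x400400020008860002)))) 
(.lf (nat_lit 5570363530) (dlOf (nat_lit 1) (nat_lit 0x800400060008100f02)))) (.nd (nat_lit 27) 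
(.lf (nat_lit 3288662090) (dlOf (nat_lit 1) (nat_lit 0xe00080114002007800080a0e83))) 
(.lf (nat_lit 2349137994) (dlOf (nat_lit 1) (nat_lit 0x600280d0d01))))) (.nd (nat_lit 8) 
(.nd (nat_lit 7) (.nd (nat_lit 19) 
(.lf (nat_lit 3825532938) (dlOf (nat_lit 3) (nat_lit 0x1d0000007580800b0000003a6040008002000200081a0482))) 
(.lf (nat_lit 2754412554) (dlOf (nat_lit 3) (nat_lit 0x12020f006590100521078032840800300080094002000400080e0003)))) 
(.lf (nat_lit 4899274890) (dlOf (nat_lit 2) (nat_lit 0x200f8000d80800200080004002000600080f0f03)))) 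
(.nd (nat_lit 9) (.lf (nat_lit 1678049546) (dlOf (nat_lit 1) (nat_lit 0x1800028157d01))) 
(.lf (nat_lit 2886010634) (dlOf (nat_lit 1) (nat_lit 0x24002000e0008143b82)))))) (.nd (nat_lit 7) 
(.nd (nat_lit 6) (.nd (nat_lit 11) (.nd (nat_lit 27) 
(.lf (nat_lit 3020226570) (dlOf (nat_lit 4) (nat_lit 0x364054001e0230031f8200070150001808c00c7808006c054002202300319828190280))) 
(.lf (nat_lit 3691315210) (dlOf (nat_lit 3) (nat_lit 0x400b8001c058001802b000c014800400880014036000e019000800a000600480010012000e005000b00100048000017a634002c05c001e02c001001500058088002003200160090001001002f10380088008005800200020008140283)))) 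
(.lf (nat_lit 1410140170) (dlOf (nat_lit 2) (nat_lit 0x9017c0009c040020002000200080f4702)))) 
(.nd (nat_lit 29) (.lf (nat_lit 2483355722) (dlOf (nat_lit 1) (nat_lit 0x600280d0d01))) 
(.lf (nat_lit 872742986) (dlOf (nat_lit 2) (nat_lit 0xe00e000080000004f04000e00080b0601))))) 
(.nd (nat_lit 8) (.nd (nat_lit 19) 
(.lf (nat_lit 6241452170) (dlOf (nat_lit 3) (nat_lit 0x1400d0001005c0006c080080038010801900150068009000000064100008004000600080f0f02))) 
(.lf (nat_lit 6377242762) (dlOf (nat_lit 1) (nat_lit 0xa00280c0f01)))) (.nd (nat_lit 9) 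
(.lf (nat_lit 1007487370) (dlOf (nat_lit 1) (nat_lit 0x4004000200083d4e82))) 
(.lf (nat_lit 3557101450) (dlOf (nat_lit 1) (nat_lit 0x20008127781)))))))) (.nd (nat_lit 28) 
(.nd (nat_lit 19) (.nd (nat_lit 26) (.nd (nat_lit 9) (.nd (nat_lit 7) (.nd (nat_lit 27) 
(.nd (nat_lit 22) (.lf (nat_lit 4832165930) (dlOf (nat_lit 1) (nat_lit 0x4004000200080f0402))) 
(.lf (nat_lit 12910634) (dlOf (nat_lit 1) (nat_lit 0x800803e0002009c00086e0a03)))) 
(.nd (nat_lit 30) 
(.lf (nat_lit 134545450) (dlOf (nat_lit 1) (nat_lit 0x2c000809bc00205060008070883))) 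
(.lf (nat_lit 1208287274) (dlOf (nat_lit 1) (nat_lit 0x200180b0401))))) (.nd (nat_lit 6) 
(.lf (nat_lit 52756650) (dlOf (nat_lit 1) (nat_lit 0x720029570601))) 
(.lf (nat_lit 21299690) (dlOf (nat_lit 3) (nat_lit 0x1197e00066020002cbf0001f818a37300))))) 
(.nd (nat_lit 6) (.nd (nat_lit 7) 
(.lf (nat_lit 23396906) (dlOf (nat_lit 3) (nat_lit 0x50c380000fc0802861c00003c04001800200700008b80e82))) 
(.lf (nat_lit 20256426) (dlOf (nat_lit 1) (nat_lit 0x4002000200089da002)))) (.nd (nat_lit 8) 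
(.nd (nat_lit 20) 
(.lf (nat_lit 54856298) (dlOf (nat_lit 2) (nat_lit 0x22628000ec0800b00080058002001e0009655383))) 
(.lf (nat_lit 20253290) (dlOf (nat_lit 1) (nat_lit 0x80080008002000200089d5383)))) 
(.lf (nat_lit 46467946) (dlOf (nat_lit 1) (nat_lit 0x8008000400200020009385c03)))))) 
(.nd (nat_lit 7) (.nd (nat_lit 27) (.nd (nat_lit 6) (.nd (nat_lit 20) 
(.lf (nat_lit 3288662058) (dlOf (nat_lit 2) (nat_lit 0x7405c0005102005000280a0981))) 
(.lf (nat_lit 68485162) (dlOf (nat_lit 1) (nat_lit 0xa0018580d81)))) 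
(.lf (nat_lit 3288662122) (dlOf (nat_lit 2) (nat_lit 0x501b00005c080188008008800200b600080a1483)))) 
(.nd (nat_lit 31) 
(.lf (nat_lit 201654314) (dlOf (nat_lit 3) (nat_lit 0x1a81080020082004403e001d01e800500e40084062000201a002c0088000a04000880440003004009800400200018070802))) 
(.lf (nat_lit 2349137962) (dlOf (nat_lit 2) (nat_lit 0x8022000168180d0a00))))) (.nd (nat_lit 6) 
(.nd (nat_lit 8) (.lf (nat_lit 1678049450) (dlOf (nat_lit 1) (nat_lit 0x20018154c01))) 
(.lf (nat_lit 2886010794) (dlOf (nat_lit 2) (nat_lit 0x19000000060080018008004c00200040008144303)))) 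
(.lf (nat_lit 2751792106) (dlOf (nat_lit 1) (nat_lit 0x20018002881)))))) (.nd (nat_lit 20) 
(.nd (nat_lit 21) (.nd (nat_lit 23) 
(.lf (nat_lit 2819424298) (dlOf (nat_lit 1) (nat_lit 0x20028280701))) (.nd (nat_lit 24) 
(.lf (nat_lit 42795050) (dlOf (nat_lit 3) (nat_lit 0x45d4a0010e310006675000732d80005210004dd4a001ce31000e6750009b2d80004e10010000400020019280202))) 
(.lf (nat_lit 59572266) (dlOf (nat_lit 1) (nat_lit 0x8008000400200020009810903))))) 
(.nd (nat_lit 7) (.nd (nat_lit 23) 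
(.lf (nat_lit 2754412586) (dlOf (nat_lit 3) (nat_lit 0x326211000098101910a90000000802c00080160002004000080e0603))) 
(.lf (nat_lit 11337770) (dlOf (nat_lit 2) (nat_lit 0xefc4000480200160008690601)))) 
(.lf (nat_lit 36506026) (dlOf (nat_lit 1) (nat_lit 0x20019074e81))))) (.nd (nat_lit 21) 
(.nd (nat_lit 22) (.nd (nat_lit 23) 
(.lf (nat_lit 18677802) (dlOf (nat_lit 1) (nat_lit 0x8008005800200060008960883))) 
(.lf (nat_lit 27066410) (dlOf (nat_lit 4) (nat_lit 0x10647400668d20005f0400834690002e810014c8e8000c80801900080070002001c0008ca0683)))) 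
(.lf (nat_lit 22872106) (dlOf (nat_lit 1) (nat_lit 0x4c00201480008b30602)))) (.nd (nat_lit 7) 
(.nd (nat_lit 6) (.lf (nat_lit 16580650) (dlOf (nat_lit 1) (nat_lit 0x800080004002002400088c0783))) 
(.lf (nat_lit 20777578) (dlOf (nat_lit 1) (nat_lit 0x10008000c002000a00089d5383)))) 
(.nd (nat_lit 8) (.lf (nat_lit 20780714) (dlOf (nat_lit 1) (nat_lit 0x4004000400189da002))) 
(.lf (nat_lit 12386730) (dlOf (nat_lit 1) (nat_lit 0x3c002002a00086c0782)))))))) (.nd (nat_lit 30) 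
(.nd (nat_lit 7) (.nd (nat_lit 26) (.nd (nat_lit 8) (.nd (nat_lit 31) 
(.lf (nat_lit 5100601386) (dlOf (nat_lit 1) (nat_lit 0x80080004002000200080f0403))) 
(.lf (nat_lit 2953117738) (dlOf (nat_lit 2) (nat_lit 0x8038000200400073828140780)))) 
(.lf (nat_lit 805634346) (dlOf (nat_lit 1) (nat_lit 0x20018157881)))) (.nd (nat_lit 27) 
(.lf (nat_lit 2483355690) (dlOf (nat_lit 2) (nat_lit 0x8022000168180d0a00))) 
(.lf (nat_lit 470089770) (dlOf (nat_lit 1) (nat_lit 0x16a0008040601))))) (.nd (nat_lit 6) 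
(.lf (nat_lit 402981034) (dlOf (nat_lit 1) (nat_lit 0xc00180c1501))) (.nd (nat_lit 26) 
(.lf (nat_lit 402981098) (dlOf (nat_lit 1) (nat_lit 0x4004000200080c1e02))) 
(.lf (nat_lit 335872234) (dlOf (nat_lit 1) (nat_lit 0x4004000200080c1e02)))))) (.nd (nat_lit 31) 
(.nd (nat_lit 7) (.nd (nat_lit 26) 
(.lf (nat_lit 1342505002) (dlOf (nat_lit 1) (nat_lit 0x16a0008040601))) 
(.lf (nat_lit 2080702506) (dlOf (nat_lit 1) (nat_lit 0x200180b0401)))) (.nd (nat_lit 6) 
(.lf (nat_lit 5637472426) (dlOf (nat_lit 1) (nat_lit 0xc004000200180f1502))) 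
(.lf (nat_lit 5773263082) (dlOf (nat_lit 1) (nat_lit 0x80080004002000200080c1e03))))) 
(.nd (nat_lit 19) (.nd (nat_lit 6) (.nd (nat_lit 26) 
(.lf (nat_lit 4026859562) (dlOf (nat_lit 2) (nat_lit 0x7405c0004602005000280a0981))) 
(.lf (nat_lit 3691315242) (dlOf (nat_lit 2) (nat_lit 0x803a00020040006c828140780)))) 
(.lf (nat_lit 4026859626) (dlOf (nat_lit 2) (nat_lit 0x501b00005c080188008008800200b600080a1483)))) 
(.nd (nat_lit 20) 
(.lf (nat_lit 3492610090) (dlOf (nat_lit 3) (nat_lit 0x3261fc000080101910ae0000000802c00080160002004000080e0603))) 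
(.lf (nat_lit 3493658666) (dlOf (nat_lit 2) (nat_lit 0x400f0000a8080030008000400200060008190803))))))))) 
(.nd (nat_lit 5) (.nd (nat_lit 30) (.nd (nat_lit 20) (.nd (nat_lit 27) (.nd (nat_lit 26) 
(.nd (nat_lit 28) (.nd (nat_lit 7) (.nd (nat_lit 10) 
(.lf (nat_lit 2433034) (dlOf (nat_lit 1) (nat_lit 0x48008004c00200200008160683))) 
(.lf (nat_lit 38085642) (dlOf (nat_lit 1) (nat_lit 0x4002000c0009132882)))) 
(.lf (nat_lit 21307530) (dlOf (nat_lit 2) (nat_lit 0x1a5800006404001800200040008a30f02)))) 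
(.nd (nat_lit 6) (.nd (nat_lit 7) 
(.lf (nat_lit 2953125898) (dlOf (nat_lit 9) (nat_lit 0x11805c00d202c0059015002a80a401a404e0042021002c0100011807800dc03400d2018002b00b801580440048012002000200620000019007801f80b8010405800aa02b00660148012809c001c0460054021002e010001e0078014403400aa018003300b8014804400c0012003e00500430010026000000c7e4401e405c008202c0093015802480a80200052009c027000c011802e0084017004000ac01e007900d004b8060018802e0202013006900880368024013801001a8005005a0010049000000c7850013805c00f002a0007014803c809c00b8042006001e007d00c0018e43805000b8003c056017402a00a9014805e009c0224042011c020007a00f0032006802c403000fc017002c009803b804400f800a00bc00200b60000018d88009480b8041c05801cc02a00020148067009c032c04601f6021011700f00928068048c030007601300e30048094800803d0000006331c000602c0031281005500980186c0800b0008003400200d80008150283))) 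
(.lf (nat_lit 5100609674) (dlOf (nat_lit 1) (nat_lit 0x48008002800200260008100f03)))) 
(.lf (nat_lit 4563738698) (dlOf (nat_lit 2) (nat_lit 0xc400a0061004400070080024004001200080d0502))))) 
(.nd (nat_lit 7) (.nd (nat_lit 6) (.nd (nat_lit 22) 
(.lf (nat_lit 6509895690) (dlOf (nat_lit 1) (nat_lit 0x2e0008160481))) 
(.lf (nat_lit 2755993610) (dlOf (nat_lit 1) (nat_lit 0xa380080478002068600081c0683)))) 
(.lf (nat_lit 2483363914) (dlOf (nat_lit 2) (nat_lit 0x80ac000802a0005c04000400180d0d01)))) 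
(.nd (nat_lit 28) (.lf (nat_lit 4899283082) (dlOf (nat_lit 1) (nat_lit 0xc004000600080f0f02))) 
(.lf (nat_lit 872751242) (dlOf (nat_lit 1) (nat_lit 0x200180c0e81)))))) (.nd (nat_lit 29) 
(.nd (nat_lit 6) (.nd (nat_lit 7) (.nd (nat_lit 26) 
(.lf (nat_lit 134553610) (dlOf (nat_lit 3) (nat_lit 0x1240760024802008803b00120018070500))) 
(.lf (nat_lit 201662474) (dlOf (nat_lit 3) (nat_lit 0x1240760025a02008803b00129018070500)))) 
(.lf (nat_lit 4429523338) (dlOf (nat_lit 1) (nat_lit 0x20028114e81)))) (.nd (nat_lit 26) 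
(.lf (nat_lit 4697956426) (dlOf (nat_lit 2) (nat_lit 0xc400a006100440006c080024004001200080d0502))) 
(.lf (nat_lit 2349146186) (dlOf (nat_lit 2) (nat_lit 0x80ac000802a0005504000400180d0d01))))) 
(.nd (nat_lit 7) (.nd (nat_lit 19) (.nd (nat_lit 26) 
(.lf (nat_lit 2818908170) (dlOf (nat_lit 1) (nat_lit 0x28002001a0008130002))) 
(.lf (nat_lit 1006968842) (dlOf (nat_lit 2) (nat_lit 0x204e0000e018110580)))) 
(.lf (nat_lit 2819432458) (dlOf (nat_lit 1) (nat_lit 0x7c002000a0008280002)))) (.nd (nat_lit 26) 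
(.lf (nat_lit 4966394250) (dlOf (nat_lit 1) (nat_lit 0x80080050002000200080e4e83))) 
(.lf (nat_lit 5033503114) (dlOf (nat_lit 1) (nat_lit 0x80080044002000200080e4e83))))))) 
(.nd (nat_lit 8) (.nd (nat_lit 19) (.nd (nat_lit 7) (.nd (nat_lit 21) 
(.lf (nat_lit 26550282) (dlOf (nat_lit 1) (nat_lit 0x400200020008c50002))) 
(.lf (nat_lit 16064522) (dlOf (nat_lit 1) (nat_lit 0x8008000800200020008860283)))) 
(.lf (nat_lit 3481738) (dlOf (nat_lit 1) (nat_lit 0x400200020008200102)))) (.nd (nat_lit 6) 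
(.lf (nat_lit 18685962) (dlOf (nat_lit 9) (nat_lit 0x214ac0015255c00091d400047d700483eb00121eb000acf56005075f001739980099cc800c802800dd2b00066957001d47500129f5c002cfac00967ac00443d5801b1d7c00a4ebc000a733000b3990018fc58037a560019d2ae007e8ea00483eb801d1f5801b4f5800ec7ab006a3af80359d7800fce6600907320031e0b00184ac000323a800acfae005a7d6000c3d6000b9d7c0090e66006390e00f2958007f4ab802a23a801711d200b07d700993eb00419eb001f8f56010475f007e3af003c9ccc0168e640063618017c95800bd4ab807c23a801091d2014e7d700a03eb00779eb00374f5600547a900f83af805c9d780208e66011e732003198d00043eb001894080059f5800c3604005c00200180008960282))) 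
(.nd (nat_lit 9) 
(.lf (nat_lit 8206410) (dlOf (nat_lit 2) (nat_lit 0x1109ac003b80400080040002001851a682))) 
(.lf (nat_lit 1909322) (dlOf (nat_lit 1) (nat_lit 0x240018151181)))))) (.nd (nat_lit 6) 
(.nd (nat_lit 22) (.nd (nat_lit 19) 
(.lf (nat_lit 2754947466) (dlOf (nat_lit 1) (nat_lit 0x200180f4e81))) 
(.lf (nat_lit 37562762) (dlOf (nat_lit 1) (nat_lit 0x200090d4e81)))) (.nd (nat_lit 9) 
(.lf (nat_lit 33368458) (dlOf (nat_lit 1) (nat_lit 0x20018f54e81))) 
(.lf (nat_lit 8201098) (dlOf (nat_lit 1) (nat_lit 0xc0018512581))))) (.nd (nat_lit 9) 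
(.nd (nat_lit 10) (.lf (nat_lit 3481930) (dlOf (nat_lit 1) (nat_lit 0x30008001c00200020008200603))) 
(.lf (nat_lit 50144586) (dlOf (nat_lit 1) (nat_lit 0x200294c3301)))) 
(.lf (nat_lit 20261706) (dlOf (nat_lit 1) (nat_lit 0x4002000200089d5c02))))))) (.nd (nat_lit 27) 
(.nd (nat_lit 32) (.nd (nat_lit 31) (.nd (nat_lit 11) (.nd (nat_lit 19) 
(.lf (nat_lit 1879384074) (dlOf (nat_lit 2) (nat_lit 0x204e0000b818110580))) 
(.lf (nat_lit 1346183178) (dlOf (nat_lit 4) (nat_lit 0x64276000e0cd0067482002c0ab0032d40801005580194e040144004002a0008e60002)))) 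
(.lf (nat_lit 1410148362) (dlOf (nat_lit 1) (nat_lit 0x8004000400080f4702)))) (.nd (nat_lit 6) 
(.nd (nat_lit 22) 
(.lf (nat_lit 3221561354) (dlOf (nat_lit 1) (nat_lit 0x8008000800200020008140483))) 
(.lf (nat_lit 3494191114) (dlOf (nat_lit 1) (nat_lit 0xa380080478002068600081c0683)))) 
(.lf (nat_lit 3490003914) (dlOf (nat_lit 1) (nat_lit 0x800800040020002000800be83))))) 
(.nd (nat_lit 7) (.nd (nat_lit 6) (.nd (nat_lit 28) 
(.lf (nat_lit 5905915914) (dlOf (nat_lit 1) (nat_lit 0x2e0008160481))) 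
(.lf (nat_lit 6174351370) (dlOf (nat_lit 1) (nat_lit 0x400200020008110002)))) 
(.lf (nat_lit 5704589386) (dlOf (nat_lit 1) (nat_lit 0x80028100501)))) (.nd (nat_lit 8) 
(.lf (nat_lit 6241460362) (dlOf (nat_lit 3) (nat_lit 0x2004a001e022000d00d0000d8180a50064017802c011e0150001009808d000000064140008002000600080f0f02))) 
(.lf (nat_lit 5369047434) (dlOf (nat_lit 1) (nat_lit 0x80080098002000200080e4e83)))))) 
(.nd (nat_lit 29) (.nd (nat_lit 7) (.nd (nat_lit 28) 
(.lf (nat_lit 5570371594) (dlOf (nat_lit 1) (nat_lit 0x400200020008110002))) 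
(.lf (nat_lit 3691323402) (dlOf (nat_lit 9) (nat_lit 0x11805c00d202c0059015002a80a401a40440042021002c010001b806c008c03200d2018002b00900158044004801200200020062000002f547801f80b8010405800aa02b00660148003809000940440054021002e0100028806c00f003200aa01800330090014804400c0012003e005004300100260000017a84401e405c008202c0093015802480a802000520018024004e011002e0084017004000f201b005600c804b8060040402800c4012006900880368024013801001a8005005a001004900000179e50013805c00f002a0007014803c808800b80420060019007d00c002f383805000b8003c056017402a00a9014805e00880224042011c020006400d803d006402c40300058014007e009003b804400f800a00bc00200b6000002f248009480b8041c05801cc02a000201480658090033804401f6021012500d808b8064048c030007601400e30048094800803d000000bc81c000602c005dc01005500a002eb80800b0008003400200d80008150283)))) 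
(.nd (nat_lit 8) (.lf (nat_lit 1208295562) (dlOf (nat_lit 1) (nat_lit 0xc004000600080c0f02))) 
(.nd (nat_lit 10) 
(.lf (nat_lit 5503265162) (dlOf (nat_lit 1) (nat_lit 0x80080090002000200080e4e83))) 
(.lf (nat_lit 3624217994) (dlOf (nat_lit 1) (nat_lit 0x280080024002000e0008146c83)))))) 
(.nd (nat_lit 28) (.nd (nat_lit 7) (.nd (nat_lit 26) 
(.lf (nat_lit 3892649994) (dlOf (nat_lit 2) (nat_lit 0x640a80008022002d00a0026bc180080008002000200200008180003))) 
(.lf (nat_lit 3959758858) (dlOf (nat_lit 1) (nat_lit 0x8008000800200020008140483)))) 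
(.lf (nat_lit 1745166474) (dlOf (nat_lit 1) (nat_lit 0x600080c0f01)))) (.nd (nat_lit 6) 
(.lf (nat_lit 4161085450) (dlOf (nat_lit 1) (nat_lit 0x400200080008120082))) 
(.lf (nat_lit 6308569162) (dlOf (nat_lit 1) (nat_lit 0x80028100501)))))))) (.nd (nat_lit 28) 
(.nd (nat_lit 24) (.nd (nat_lit 26) (.nd (nat_lit 22) (.nd (nat_lit 7) (.nd (nat_lit 8) 
(.lf (nat_lit 2819432490) (dlOf (nat_lit 2) (nat_lit 0x180d0008fe04003000400040008280702))) 
(.lf (nat_lit 1610948906) (dlOf (nat_lit 1) (nat_lit 0x100080004002000c00080a5a03)))) 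
(.lf (nat_lit 1208295594) (dlOf (nat_lit 1) (nat_lit 0x200280c1481)))) (.nd (nat_lit 6) 
(.lf (nat_lit 13443114) (dlOf (nat_lit 1) (nat_lit 0x20028720d01))) (.nd (nat_lit 10) 
(.lf (nat_lit 13967466) (dlOf (nat_lit 1) (nat_lit 0x400200020008750282))) 
(.lf (nat_lit 38085738) (dlOf (nat_lit 1) (nat_lit 0x960009132981)))))) (.nd (nat_lit 27) 
(.nd (nat_lit 29) (.lf (nat_lit 67444778) (dlOf (nat_lit 2) (nat_lit 0xa00e00022818140680))) 
(.lf (nat_lit 1678057514) (dlOf (nat_lit 1) (nat_lit 0x800200020008160602)))) (.nd (nat_lit 7) 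
(.nd (nat_lit 31) 
(.lf (nat_lit 201662506) (dlOf (nat_lit 4) (nat_lit 0xc8042000402080108044000500c013c08400480110000e8200270088000600800100080094002003a0008070803))) 
(.lf (nat_lit 2349146154) (dlOf (nat_lit 2) (nat_lit 0x548022000168180d0a00)))) 
(.lf (nat_lit 2886018986) (dlOf (nat_lit 2) (nat_lit 0x2c0000000600800300080040002001a0008144303)))))) 
(.nd (nat_lit 9) (.nd (nat_lit 20) (.nd (nat_lit 6) 
(.lf (nat_lit 27598890) (dlOf (nat_lit 1) (nat_lit 0x40018d00801))) 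
(.lf (nat_lit 21307882) (dlOf (nat_lit 1) (nat_lit 0x20018a37301)))) (.nd (nat_lit 19) 
(.lf (nat_lit 26550314) (dlOf (nat_lit 3) (nat_lit 0xa8a0000580400056300002b0200040018c50381))) 
(.lf (nat_lit 27074602) (dlOf (nat_lit 10) (nat_lit 0x30b23a006d8820029ad6801b51a4000be1000d323a00675ad0028a348001741802e6474000b204001b23a00138f40002c41000160180016474000ae0401028d0000540200674680002281005bc8d0000fc0802ce4740006404008400200440008ca0682))))) 
(.nd (nat_lit 6) (.nd (nat_lit 7) 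
(.lf (nat_lit 58008106) (dlOf (nat_lit 8) (nat_lit 0x25ee000180100032f70000bc0800397b80005c040018bdc0002d02000c5ee000028100042f70000080800197b8000000400a4002000400097a8982))) 
(.lf (nat_lit 20264618) (dlOf (nat_lit 1) (nat_lit 0x4002000200089da002)))) (.nd (nat_lit 10) 
(.lf (nat_lit 20261482) (dlOf (nat_lit 1) (nat_lit 0x4002000200089d5382))) 
(.lf (nat_lit 52766314) (dlOf (nat_lit 1) (nat_lit 0x20029573901))))))) (.nd (nat_lit 19) 
(.nd (nat_lit 29) (.nd (nat_lit 8) (.nd (nat_lit 26) 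
(.lf (nat_lit 268771370) (dlOf (nat_lit 2) (nat_lit 0x1001f0000c818140c80))) 
(.lf (nat_lit 2483363882) (dlOf (nat_lit 2) (nat_lit 0x548022000168180d0a00)))) 
(.lf (nat_lit 3624217898) (dlOf (nat_lit 1) (nat_lit 0x10008001000200020008146803)))) 
(.nd (nat_lit 26) (.nd (nat_lit 27) 
(.lf (nat_lit 805642282) (dlOf (nat_lit 1) (nat_lit 0x800200020008160602))) 
(.lf (nat_lit 4161085482) (dlOf (nat_lit 2) (nat_lit 0x42806c0002a04000800400240018120702)))) 
(.lf (nat_lit 3020234794) (dlOf (nat_lit 1) (nat_lit 0x200281a0681))))) (.nd (nat_lit 7) 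
(.nd (nat_lit 6) (.nd (nat_lit 26) 
(.lf (nat_lit 1343037482) (dlOf (nat_lit 1) (nat_lit 0x800200020008140602))) 
(.lf (nat_lit 470622250) (dlOf (nat_lit 1) (nat_lit 0x800200020008140602)))) 
(.lf (nat_lit 1346183274) (dlOf (nat_lit 1) (nat_lit 0x40028e60a01)))) (.nd (nat_lit 6) 
(.nd (nat_lit 10) (.lf (nat_lit 5773271210) (dlOf (nat_lit 1) (nat_lit 0x20004000a00180c1502))) 
(.lf (nat_lit 473769130) (dlOf (nat_lit 1) (nat_lit 0x120018fa2c01)))) 
(.lf (nat_lit 5773271274) (dlOf (nat_lit 1) (nat_lit 0x80080004002000200080c1e03)))))))))) 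
(.nd (nat_lit 13) (.nd (nat_lit 5) (.nd (nat_lit 18) (.nd (nat_lit 30) (.nd (nat_lit 7) 
(.nd (nat_lit 19) (.nd (nat_lit 8) (.nd (nat_lit 31) (.nd (nat_lit 20) 
(.lf (nat_lit 23166986) (dlOf (nat_lit 1) (nat_lit 0xb28008000400205e80008b60503))) 
(.lf (nat_lit 9535498) (dlOf (nat_lit 1) (nat_lit 0x40018560481)))) (.nd (nat_lit 6) 
(.lf (nat_lit 6576766986) (dlOf (nat_lit 1) (nat_lit 0x800280d0001))) 
(.lf (nat_lit 6442555466) (dlOf (nat_lit 1) (nat_lit 0x200180fa681))))) (.nd (nat_lit 11) 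
(.nd (nat_lit 12) 
(.lf (nat_lit 4697720074) (dlOf (nat_lit 2) (nat_lit 0x20066001120200060008092f81))) 
(.lf (nat_lit 2617349386) (dlOf (nat_lit 1) (nat_lit 0x800180a9601)))) (.nd (nat_lit 10) 
(.lf (nat_lit 6442551562) (dlOf (nat_lit 1) (nat_lit 0x80080004002000200080f4b83))) 
(.lf (nat_lit 134319370) (dlOf (nat_lit 1) (nat_lit 0xe8008002800200020008006683)))))) 
(.nd (nat_lit 8) (.nd (nat_lit 27) (.nd (nat_lit 21) (.nd (nat_lit 22) 
(.lf (nat_lit 805928970) (dlOf (nat_lit 18) (nat_lit 0x1809e000c0380010b02003e0278008480802d013c01700700020404001404f000c01c0008081002c81000090000001a10400e203e000590100260210002880802481080094044006200e000f0020001f4200240108008c044006000e000f00200078000000f81401e808400a8022006200700078010000f610009c0840007a02011e0420017011003600380044018004600200130000001d4300138108000e8040334084015200e003e002001f0000000e61000440000002902000c0420000d0100030200000000801a000800a8002030e00081f0583))) 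
(.lf (nat_lit 21594122) (dlOf (nat_lit 1) (nat_lit 0xdc0028a50081)))) (.nd (nat_lit 22) 
(.lf (nat_lit 2719754) (dlOf (nat_lit 1) (nat_lit 0x4002000200081a0582))) 
(.lf (nat_lit 48857098) (dlOf (nat_lit 1) (nat_lit 0x28008000400200020009440003))))) 
(.nd (nat_lit 6) (.nd (nat_lit 26) 
(.lf (nat_lit 2819194890) (dlOf (nat_lit 1) (nat_lit 0xa400281e0281))) 
(.lf (nat_lit 470384650) (dlOf (nat_lit 1) (nat_lit 0x38002000200080d0682)))) 
(.lf (nat_lit 134840394) (dlOf (nat_lit 1) (nat_lit 0x200180c1481))))) (.nd (nat_lit 6) 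
(.nd (nat_lit 11) (.lf (nat_lit 50954506) (dlOf (nat_lit 1) (nat_lit 0x4004000200094d3682))) 
(.lf (nat_lit 629002) (dlOf (nat_lit 1) (nat_lit 0x800800040020002000800aa03)))) 
(.lf (nat_lit 629578) (dlOf (nat_lit 2) (nat_lit 0xf80e200500650058202800bc80)))))) 
(.nd (nat_lit 6) (.nd (nat_lit 29) (.nd (nat_lit 8) (.nd (nat_lit 10) 
(.lf (nat_lit 6509658250) (dlOf (nat_lit 2) (nat_lit 0x7000000076040044002000400080b0102))) 
(.lf (nat_lit 2617349258) (dlOf (nat_lit 1) (nat_lit 0x14004001200080a9502)))) (.nd (nat_lit 10) 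
(.lf (nat_lit 37849482) (dlOf (nat_lit 1) (nat_lit 0x10002000200090d4e82))) 
(.lf (nat_lit 4496393610) (dlOf (nat_lit 1) (nat_lit 0x400400020008053602))))) (.nd (nat_lit 26) 
(.nd (nat_lit 10) (.lf (nat_lit 805404810) (dlOf (nat_lit 1) (nat_lit 0x400400020008090102))) 
(.lf (nat_lit 2818671754) (dlOf (nat_lit 2) (nat_lit 0x80000000c040030002000400080d2b02)))) 
(.nd (nat_lit 28) (.lf (nat_lit 2885779594) (dlOf (nat_lit 1) (nat_lit 0x140028063d01))) 
(.lf (nat_lit 5301698698) (dlOf (nat_lit 3) (nat_lit 0x1007e000c03e000501d000100dc0005c10001007e000c03e000601d000200dc0005a10003000200040008030f02)))))) 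
(.nd (nat_lit 8) (.nd (nat_lit 27) (.nd (nat_lit 26) 
(.lf (nat_lit 805404874) (dlOf (nat_lit 1) (nat_lit 0x300018090481))) 
(.lf (nat_lit 604078282) (dlOf (nat_lit 1) (nat_lit 0x800200020008010482)))) (.nd (nat_lit 9) 
(.lf (nat_lit 5301698762) (dlOf (nat_lit 1) (nat_lit 0x20028031b81))) 
(.lf (nat_lit 201426634) (dlOf (nat_lit 1) (nat_lit 0x200018003a81))))) (.nd (nat_lit 9) 
(.nd (nat_lit 11) 
(.lf (nat_lit 2753135050) (dlOf (nat_lit 3) (nat_lit 0x101f90001f0100150fc8000000800d8008008400201540008090983))) 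
(.lf (nat_lit 49908170) (dlOf (nat_lit 1) (nat_lit 0x4004000800094c4e82)))) 
(.lf (nat_lit 49906634) (dlOf (nat_lit 1) (nat_lit 0x800080060002001000094c2883))))))) 
(.nd (nat_lit 26) (.nd (nat_lit 19) (.nd (nat_lit 6) (.nd (nat_lit 7) 
(.lf (nat_lit 3492907018) (dlOf (nat_lit 2) (nat_lit 0xec08b000270180f4700))) (.nd (nat_lit 27) 
(.lf (nat_lit 5905678474) (dlOf (nat_lit 2) (nat_lit 0x7000000076040044002000400080b0102))) 
(.lf (nat_lit 3623977098) (dlOf (nat_lit 1) (nat_lit 0x140028063d01))))) (.nd (nat_lit 10) 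
(.nd (nat_lit 21) (.lf (nat_lit 2013364298) (dlOf (nat_lit 1) (nat_lit 0x1000200040008020602))) 
(.lf (nat_lit 1344372810) (dlOf (nat_lit 1) (nat_lit 0x1400200020008740102)))) (.nd (nat_lit 7) 
(.lf (nat_lit 5773559114) (dlOf (nat_lit 1) (nat_lit 0x4004000200080e3302))) 
(.lf (nat_lit 5772510410) (dlOf (nat_lit 1) (nat_lit 0x220028092d81)))))) (.nd (nat_lit 31) 
(.nd (nat_lit 6) (.nd (nat_lit 7) 
(.lf (nat_lit 1342799882) (dlOf (nat_lit 1) (nat_lit 0x38002000200080d0682))) 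
(.lf (nat_lit 5771985034) (dlOf (nat_lit 4) (nat_lit 0xd70a30000d808003053c000c29c000814d00040a30002850c0005c14000429c000214d00010a30002850c0005a10000c00400040018030f02)))) 
(.lf (nat_lit 1611236682) (dlOf (nat_lit 1) (nat_lit 0x400400020008123302)))) (.nd (nat_lit 7) 
(.nd (nat_lit 21) 
(.lf (nat_lit 3221848138) (dlOf (nat_lit 2) (nat_lit 0xf1011802200860002a04000200181a1481))) 
(.lf (nat_lit 3492380746) (dlOf (nat_lit 2) (nat_lit 0x8c0f38000b00801500080024002003200080c1483)))) 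
(.lf (nat_lit 3491332554) (dlOf (nat_lit 3) (nat_lit 0x101e70001e8100150f38000000800d8008008400201540008090983)))))) 
(.nd (nat_lit 6) (.nd (nat_lit 28) (.nd (nat_lit 7) (.nd (nat_lit 19) 
(.lf (nat_lit 5972787210) (dlOf (nat_lit 1) (nat_lit 0x800280d0001))) 
(.lf (nat_lit 1678344202) (dlOf (nat_lit 18) (nat_lit 0x1809e000c0380010d02003e0278008580802d013c01700700020504001404f000c01c0008081002c81000090000001a90400e203e000590100260210002880802481080094044006200e000f0020001f4200240108008c044006000e000f00200078000000f81401e808400a8022006200700078010000f610009c0840007a02011e0420017011003600380044018004600200130000001d4300138108000e8040334084015200e003e002001f0000000e61000440000002e02000c0420000f8100030200000000801a000800a8002030e00081f0583)))) 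
(.lf (nat_lit 1677820042) (dlOf (nat_lit 1) (nat_lit 0x400400020008090102)))) (.nd (nat_lit 7) 
(.nd (nat_lit 8) (.lf (nat_lit 4095837706) (dlOf (nat_lit 1) (nat_lit 0x400280e3681))) 
(.lf (nat_lit 5838572810) (dlOf (nat_lit 1) (nat_lit 0x4004000200180f6682)))) 
(.lf (nat_lit 1946257802) (dlOf (nat_lit 1) (nat_lit 0x8008000400200020008004e83))))) 
(.nd (nat_lit 7) (.nd (nat_lit 8) (.nd (nat_lit 19) 
(.lf (nat_lit 1140949066) (dlOf (nat_lit 1) (nat_lit 0x1000200040008020602))) 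
(.lf (nat_lit 3960045642) (dlOf (nat_lit 2) (nat_lit 0xa0230000000800680080008002001200081a1883)))) 
(.nd (nat_lit 12) 
(.lf (nat_lit 1543605578) (dlOf (nat_lit 3) (nat_lit 0x803a000e01800080080001000000024100080046002e01d003200c000d80400074010003e0050001000000040380008008002800200060008146983))) 
(.lf (nat_lit 5838576970) (dlOf (nat_lit 1) (nat_lit 0x10008000c002000200080fc903))))) 
(.nd (nat_lit 27) (.lf (nat_lit 1677820106) (dlOf (nat_lit 1) (nat_lit 0x300018090481))) 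
(.lf (nat_lit 3422650570) (dlOf (nat_lit 1) (nat_lit 0xc00400380018013a02)))))))) (.nd (nat_lit 28) 
(.nd (nat_lit 8) (.nd (nat_lit 29) (.nd (nat_lit 19) (.nd (nat_lit 11) (.nd (nat_lit 20) 
(.nd (nat_lit 21) 
(.lf (nat_lit 3221585930) (dlOf (nat_lit 1) (nat_lit 0x128008012800201180008150503))) 
(.lf (nat_lit 6651914) (dlOf (nat_lit 1) (nat_lit 0xa0028440581)))) (.nd (nat_lit 6) 
(.lf (nat_lit 55934986) (dlOf (nat_lit 1) (nat_lit 0x30004002000196f0002))) 
(.lf (nat_lit 37060682) (dlOf (nat_lit 1) (nat_lit 0x260009090601))))) (.nd (nat_lit 6) 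
(.nd (nat_lit 9) (.lf (nat_lit 8751114) (dlOf (nat_lit 1) (nat_lit 0x20028514701))) 
(.lf (nat_lit 69569034) (dlOf (nat_lit 1) (nat_lit 0x60008b45001)))) 
(.lf (nat_lit 4429549258) (dlOf (nat_lit 1) (nat_lit 0x20018117301))))) (.nd (nat_lit 20) 
(.nd (nat_lit 6) (.lf (nat_lit 5079050) (dlOf (nat_lit 1) (nat_lit 0x8a0018300481))) 
(.lf (nat_lit 21856330) (dlOf (nat_lit 1) (nat_lit 0x2e0018a70881)))) (.nd (nat_lit 9) 
(.lf (nat_lit 27099146) (dlOf (nat_lit 1) (nat_lit 0xa0008ca0481))) 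
(.lf (nat_lit 12419594) (dlOf (nat_lit 2) (nat_lit 0x17dd500066e9800136520016506000200186c0d81)))))) 
(.nd (nat_lit 27) (.nd (nat_lit 26) (.nd (nat_lit 32) 
(.lf (nat_lit 537231370) (dlOf (nat_lit 1) (nat_lit 0xc00400020008060482))) 
(.lf (nat_lit 4832198666) (dlOf (nat_lit 1) (nat_lit 0x80080154002006c0008110003)))) 
(.nd (nat_lit 6) 
(.lf (nat_lit 604340234) (dlOf (nat_lit 7) (nat_lit 0x100c00030058001402a000a01100050080003003c001c01c0004006000600180038008001c000006271600060110003007001884100048060003c02c001200f000f00700185020000805800b7004000402c0006007002d782000200b0016a4080070008004400200020008180283))) 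
(.lf (nat_lit 2753921098) (dlOf (nat_lit 1) (nat_lit 0x4004001e00180a0e82))))) (.nd (nat_lit 6) 
(.nd (nat_lit 19) (.nd (nat_lit 26) 
(.lf (nat_lit 671449098) (dlOf (nat_lit 1) (nat_lit 0x88004002800081a0482))) 
(.lf (nat_lit 3959783434) (dlOf (nat_lit 1) (nat_lit 0x128008012800201180008150503)))) 
(.lf (nat_lit 2819457034) (dlOf (nat_lit 3) (nat_lit 0xa0360060d810001011003064080048008002c00200020008290283)))) 
(.lf (nat_lit 2818932938) (dlOf (nat_lit 1) (nat_lit 0x20018130481)))))) (.nd (nat_lit 7) 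
(.nd (nat_lit 6) (.nd (nat_lit 9) 
(.lf (nat_lit 4429548810) (dlOf (nat_lit 1) (nat_lit 0x400200020008116682))) 
(.lf (nat_lit 8753930) (dlOf (nat_lit 1) (nat_lit 0x460008518f81)))) 
(.lf (nat_lit 20286282) (dlOf (nat_lit 1) (nat_lit 0x4002000200089d5c02)))) (.nd (nat_lit 11) 
(.nd (nat_lit 6) (.lf (nat_lit 8753546) (dlOf (nat_lit 1) (nat_lit 0x8008003000200020008518383))) 
(.lf (nat_lit 8226762) (dlOf (nat_lit 1) (nat_lit 0x18008004800200080008514483)))) 
(.nd (nat_lit 19) (.lf (nat_lit 362890) (dlOf (nat_lit 1) (nat_lit 0x400400020008004e82))) 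
(.nd (nat_lit 20) (.lf (nat_lit 38635914) (dlOf (nat_lit 1) (nat_lit 0x400200040009134e82))) 
(.lf (nat_lit 37587338) (dlOf (nat_lit 1) (nat_lit 0x200190d4e81)))))))) (.nd (nat_lit 30) 
(.nd (nat_lit 6) (.nd (nat_lit 26) (.nd (nat_lit 27) 
(.lf (nat_lit 4563763210) (dlOf (nat_lit 1) (nat_lit 0x48008003c002001800080d0003))) 
(.lf (nat_lit 4697980938) (dlOf (nat_lit 1) (nat_lit 0x48008003c002001800080d0003)))) 
(.nd (nat_lit 31) (.nd (nat_lit 20) 
(.lf (nat_lit 470122506) (dlOf (nat_lit 15) (nat_lit 0x17048e0090243005611e002908dc02bc3a2013a1c5000c0e0804585c4002c020003848e001c23c000911b800e0744008c39e00161cd001f0e58004871400743820010171000af8a00010e88003872c002bc08028448e012823c008a11b80538744021438a00f8171000ac060071123803808f001ec46e00e21d100720e2803e05c4002ae1801f448e00d223c007711b803c8744005039e00b61c5002a0e0803d05c4002ac20017448e01ac243005611e002808dc02a43a200e61cd009c0e2805d870402482e2000d91200061cf00120b880036010007091c02f8486001c23c001a11b8005079800703a200481cf00090e6800a072c002438a00aa1c100090b880035c60001091c001048600081d100010e7800605c4001ac14028848e0004243009111e004288dc02843a200861cd00830e2800e070401f42e2000cf1200e6247003011e003708dc00903a200661cd00380e28004870401682e2000ce1000f82470069121803508f0020446e00f01d100510e6802f071401b4382011217100066890003000000234080278008020000200b60008050583)))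 
(.lf (nat_lit 471171082) (dlOf (nat_lit 1) (nat_lit 0xec004002400082a0002)))) (.nd (nat_lit 29) 
(.lf (nat_lit 2617606154) (dlOf (nat_lit 1) (nat_lit 0x20018100081))) 
(.lf (nat_lit 3154477066) (dlOf (nat_lit 2) (nat_lit 0x40a2001e04f002088281a0000)))))) 
(.nd (nat_lit 27) (.nd (nat_lit 31) 
(.lf (nat_lit 4563763274) (dlOf (nat_lit 21) (nat_lit 0x4e804a006000b0003c02000a0128001b40801b80e4054806a025c02b0287014810800a0075804e0366021002200e009d8064062c00e00fc001000228b033001a817780ac0f9805206da027000700d802a806401bc0020003f0e02d80290001f01001d0148000f40801100a40007804024806a00d8031029b016007c00ac02fc05403d6029013801400b4809c064c04c0002025002201200868088076c042034001c012c00d80da0064010002805a8011007b00700150030044000e052e002017500080b9800000070600390056058402901890138013806400068100638052000330202a2029000188100e40148000c00806200a40005c0402480520002d0204f40290001601011a0148000ac080b180a4000540402b40520001b0200980290000d01001d01480006408173800805f8002078200080d0503)))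 
(.lf (nat_lit 2416279626) (dlOf (nat_lit 1) (nat_lit 0x180080054002000400080d0d03)))) 
(.nd (nat_lit 29) (.nd (nat_lit 31) 
(.lf (nat_lit 4697981002) (dlOf (nat_lit 21) (nat_lit 0x4e804a006000b0003c02000a0128001b40801b80ec054806a025c02b0287014810800a0075804e0366021002200e009d8064062c00e00fc001000210b033001a817780ac0f9805206da027000700d802a806401bc0020003f0e02d80290001f01001d0148000f40801100a40007404024806a00d8031029b016007c00ac02fc05403d6029013801400b4809c064c04c0002025002201200868088076c042034001c012c00d80da0064010002805a8011007b00700150030044000e052e002017500080b980000006c600390056058402901890138013806400068100638052000330202a2029000188100e40148000c00806200a40005c0402480520002d0204f40290001601011a0148000ac080b180a4000540402b40520001b0200980290000d01001d01480006408173800805f8002078200080d0503))) 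
(.lf (nat_lit 2550497354) (dlOf (nat_lit 1) (nat_lit 0x180080054002000400080d0d03)))) 
(.lf (nat_lit 5234851914) (dlOf (nat_lit 5) (nat_lit 0xe8054000c204003803200dc01500180058001781802d0054000ba04014002a0005b02002e0018100501)))))) 
(.nd (nat_lit 19) (.nd (nat_lit 26) (.nd (nat_lit 11) (.nd (nat_lit 27) 
(.lf (nat_lit 1342537738) (dlOf (nat_lit 15) (nat_lit 0x17048e0090243005611e002908dc02bc3a2013a1c5000c0e0804585cc002c020003848e001c23c000911b800e0744008c39e00161cd001f0e58004871400743820010173000af8a00010e88003872c002bc08028448e012823c008a11b80538744021438a00f8173000ac060071123803808f001ec46e00e21d100720e2803e05cc002ae1801f448e00d223c007711b803c8744005039e00b61c5002a0e0803d05cc002ac20017448e01ac243005611e002808dc02a43a200e61cd009c0e2805d870402482e6000d91200061cf00120b980036010007091c02f8486001c23c001a11b8005079800703a200481cf00090e6800a072c002438a00aa1c100090b980035c60001091c001048600081d100010e7800605cc001ac14028848e0004243009111e004288dc02843a200861cd00830e2800e070401f42e6000cf1200e6247003011e003708dc00903a200661cd00380e28004870401682e6000ce1000f82470069121803508f0020446e00f01d100510e6802f071401b4382011217300066890003000000234080278008020000200b60008050583)))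 
(.lf (nat_lit 1476755466) (dlOf (nat_lit 7) (nat_lit 0x100c0003005c001402c000a01100050080003003c001c01c0004006000600200038008001c00000bbc1600060110003007002ed8100048060003c02e001200f000f007002ea420000805c000c00e00b48040002017005a201000200b802cf8080070008004400200020008180283)))) 
(.lf (nat_lit 3493169162) (dlOf (nat_lit 6) (nat_lit 0xc044800154080ef0224000a8040788112000510200d20c00002781007306000bc023004f01160004e06000e00080f4701)))) 
(.nd (nat_lit 6) (.nd (nat_lit 27) 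
(.lf (nat_lit 1409646602) (dlOf (nat_lit 1) (nat_lit 0xc00400020008060482))) 
(.lf (nat_lit 1543864330) (dlOf (nat_lit 1) (nat_lit 0x88004002800081a0482)))) 
(.lf (nat_lit 2080735434) (dlOf (nat_lit 1) (nat_lit 0x8004000600080c1782))))) (.nd (nat_lit 6) 
(.nd (nat_lit 7) (.nd (nat_lit 20) 
(.lf (nat_lit 3557654538) (dlOf (nat_lit 3) (nat_lit 0xa03800343010001011001a10080048008002c00200020008290283))) 
(.lf (nat_lit 1346207754) (dlOf (nat_lit 9) (nat_lit 0xbc2b000e8002003a158003b067803950100060560008c19e00e52040038158002a0678039441001d0560008019e00e4804000a0cf0071981002d0ac0030033c01c440800042b000060cf0070f028e60000)))) 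
(.lf (nat_lit 5772247434) (dlOf (nat_lit 2) (nat_lit 0x10260001600200220018091001)))) 
(.nd (nat_lit 9) (.lf (nat_lit 5773295818) (dlOf (nat_lit 1) (nat_lit 0x4002000200080c1782))) 
(.lf (nat_lit 1879934666) (dlOf (nat_lit 1) (nat_lit 0x5e00183d3a81))))))))) (.nd (nat_lit 28) 
(.nd (nat_lit 18) (.nd (nat_lit 31) (.nd (nat_lit 23) (.nd (nat_lit 6) (.nd (nat_lit 10) 
(.nd (nat_lit 11) (.nd (nat_lit 20) 
(.lf (nat_lit 23167018) (dlOf (nat_lit 2) (nat_lit 0x1f2f20002975a000140400160028b60881))) 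
(.lf (nat_lit 22118442) (dlOf (nat_lit 1) (nat_lit 0x200018a90601)))) 
(.lf (nat_lit 4362176554) (dlOf (nat_lit 1) (nat_lit 0x400400020008004702)))) (.nd (nat_lit 7) 
(.lf (nat_lit 1812040746) (dlOf (nat_lit 3) (nat_lit 0x800e800350080008070001a404001000400020008146082))) 
(.lf (nat_lit 33653930) (dlOf (nat_lit 1) (nat_lit 0x30008001000200080008f52c03))))) 
(.nd (nat_lit 27) (.nd (nat_lit 9) 
(.lf (nat_lit 38895722) (dlOf (nat_lit 1) (nat_lit 0x400400020009181e82))) 
(.lf (nat_lit 4831939178) (dlOf (nat_lit 1) (nat_lit 0x18008000400200020008055383)))) 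
(.nd (nat_lit 7) (.lf (nat_lit 738298218) (dlOf (nat_lit 1) (nat_lit 0x160028094e81))) 
(.lf (nat_lit 134319338) (dlOf (nat_lit 1) (nat_lit 0x80028006501)))))) (.nd (nat_lit 7) 
(.nd (nat_lit 6) (.nd (nat_lit 21) 
(.lf (nat_lit 13729834) (dlOf (nat_lit 2) (nat_lit 0xca55800019018740600))) 
(.lf (nat_lit 28409898) (dlOf (nat_lit 1) (nat_lit 0x8008005800200060008d90883)))) (.nd (nat_lit 8) 
(.lf (nat_lit 47284330) (dlOf (nat_lit 1) (nat_lit 0x200293c0781))) 
(.lf (nat_lit 8490858) (dlOf (nat_lit 1) (nat_lit 0xb000400540008517782))))) (.nd (nat_lit 10) 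
(.nd (nat_lit 6) (.lf (nat_lit 8487338) (dlOf (nat_lit 1) (nat_lit 0x800200020008511002))) 
(.lf (nat_lit 30507242) (dlOf (nat_lit 1) (nat_lit 0x4c0018e30601)))) (.nd (nat_lit 12) 
(.lf (nat_lit 61441450) (dlOf (nat_lit 1) (nat_lit 0x320019923601))) 
(.lf (nat_lit 9016746) (dlOf (nat_lit 1) (nat_lit 0x30008000800200060008519903))))))) 
(.nd (nat_lit 29) (.nd (nat_lit 11) (.nd (nat_lit 8) (.nd (nat_lit 19) 
(.lf (nat_lit 3221323818) (dlOf (nat_lit 1) (nat_lit 0x400200020008090002))) 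
(.lf (nat_lit 3221848106) (dlOf (nat_lit 3) (nat_lit 0x5a01f0000640802e00f80002c040030004007000181a0c02)))) 
(.lf (nat_lit 6442551082) (dlOf (nat_lit 1) (nat_lit 0x28004000800080f3d82)))) (.nd (nat_lit 12) 
(.nd (nat_lit 7) (.lf (nat_lit 6442551594) (dlOf (nat_lit 1) (nat_lit 0x4004000200080f4b82))) 
(.lf (nat_lit 2147584426) (dlOf (nat_lit 1) (nat_lit 0x8008000400200020008094e83)))) 
(.nd (nat_lit 6) (.lf (nat_lit 6442555690) (dlOf (nat_lit 1) (nat_lit 0x4004000600180fab82))) 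
(.lf (nat_lit 6442555754) (dlOf (nat_lit 1) (nat_lit 0x280080004002000200080fac03)))))) 
(.nd (nat_lit 19) (.nd (nat_lit 6) (.nd (nat_lit 7) (.nd (nat_lit 10) 
(.lf (nat_lit 2752610346) (dlOf (nat_lit 2) (nat_lit 0x680ae0000000800e80080010002008a0008020503))) 
(.lf (nat_lit 3825306666) (dlOf (nat_lit 1) (nat_lit 0x4004000c0008146082)))) 
(.lf (nat_lit 3825306794) (dlOf (nat_lit 1) (nat_lit 0x20008146281)))) (.nd (nat_lit 7) 
(.lf (nat_lit 2818671978) (dlOf (nat_lit 3) (nat_lit 0x800e0002002000400000007c0c00140000000002003400180d3481))) 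
(.lf (nat_lit 2684453098) (dlOf (nat_lit 1) (nat_lit 0x920008014401))))) (.nd (nat_lit 27) 
(.nd (nat_lit 9) 
(.lf (nat_lit 2754183210) (dlOf (nat_lit 11) (nat_lit 0x4c07e010642b2015e1570000c83009c0fc020d8564000300802483f0081c1590000b8200860fc01f8056402242ae000160601241f800ad0ac8000541004907e00ff82b2000140400261f800ab0ac80004c1004787e0000160400083f00000502016c1f804370ac8000001002b800802cc002008e00080c0d03))) 
(.lf (nat_lit 2753135146) (dlOf (nat_lit 1) (nat_lit 0x7800400920018090e82)))) (.nd (nat_lit 26) 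
(.lf (nat_lit 3892936746) (dlOf (nat_lit 9) (nat_lit 0xb00000015408022815c011406e008e036004e0100027007c014c03200a0018000188700080100000c0080228080011803e008c019004400c0000bc200020080001403e0001604000a0570017010000b007c00700320034018000b0048000443000200800001c0400080cc0000302000400282a0b01))) 
(.lf (nat_lit 3960045610) (dlOf (nat_lit 2) (nat_lit 0x800700008000000320800b4002000400081a0d02)))))))) 
(.nd (nat_lit 19) (.nd (nat_lit 6) (.nd (nat_lit 29) (.nd (nat_lit 7) (.nd (nat_lit 31) 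
(.lf (nat_lit 1074102314) (dlOf (nat_lit 1) (nat_lit 0x1c00400100018090002))) 
(.lf (nat_lit 3221585962) (dlOf (nat_lit 4) (nat_lit 0x21408a0078042000d0198000f818001011800240840003d04002c046001a0218000e8104bf80081044002002c0008150883)))) 
(.nd (nat_lit 9) (.lf (nat_lit 52790698) (dlOf (nat_lit 1) (nat_lit 0x660019573601))) 
(.lf (nat_lit 20288426) (dlOf (nat_lit 1) (nat_lit 0x1200189d9101))))) (.nd (nat_lit 26) 
(.lf (nat_lit 537231402) (dlOf (nat_lit 3) (nat_lit 0x40a4000de0200020520006e818060600))) 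
(.nd (nat_lit 27) (.lf (nat_lit 4899307562) (dlOf (nat_lit 1) (nat_lit 0x400400020018100302))) 
(.lf (nat_lit 3959783466) (dlOf (nat_lit 8) (nat_lit 0xe60238000b8080f1011c041408a0062044000202080dc80bc01cc05c0002c0c00440560185027804e0134001c0960258047005a022002380c800a80620002011011f0050000305006e80c80001204003008e01360320000402000a02b007d80c8000060800d008e0052046011a017807a005000000100028002005c0008150802)))))) 
(.nd (nat_lit 7) (.nd (nat_lit 9) 
(.lf (nat_lit 13992042) (dlOf (nat_lit 1) (nat_lit 0xc0018750281))) 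
(.lf (nat_lit 20286058) (dlOf (nat_lit 1) (nat_lit 0x4002000200089d5382)))) 
(.lf (nat_lit 8753130) (dlOf (nat_lit 1) (nat_lit 0x20028517a81))))) (.nd (nat_lit 24) 
(.nd (nat_lit 20) (.nd (nat_lit 23) 
(.lf (nat_lit 2819457066) (dlOf (nat_lit 1) (nat_lit 0x8008000400200020008290883))) 
(.lf (nat_lit 42827818) (dlOf (nat_lit 1) (nat_lit 0x20009280201)))) (.nd (nat_lit 7) 
(.nd (nat_lit 9) (.lf (nat_lit 4030506) (dlOf (nat_lit 1) (nat_lit 0x20028270a01))) 
(.lf (nat_lit 1933866) (dlOf (nat_lit 1) (nat_lit 0x80018150e81)))) 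
(.lf (nat_lit 12419498) (dlOf (nat_lit 1) (nat_lit 0xb200086c0781))))) (.nd (nat_lit 6) 
(.nd (nat_lit 22) (.nd (nat_lit 23) 
(.lf (nat_lit 18710570) (dlOf (nat_lit 1) (nat_lit 0x520028960881))) 
(.lf (nat_lit 27099178) (dlOf (nat_lit 9) (nat_lit 0x22c0000005f02015c0000002e810060000000164080450000000b00400c800000057020149d85009febf8025f2dc0277792013dbb80094db08051ed2c026366e00e6e8a00347400049374802593a801ec0000002a0d00a2ec28050f5fc02537920127bb80089db0804bed2c026366e01a00000002288001bdab800000080030008001400200080008ca0683)))) 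
(.lf (nat_lit 22904874) (dlOf (nat_lit 1) (nat_lit 0x4400400060018b40702)))) 
(.lf (nat_lit 54364778) (dlOf (nat_lit 1) (nat_lit 0x180080008002000a0009655383))))))) 
(.nd (nat_lit 26) (.nd (nat_lit 6) (.nd (nat_lit 19) (.nd (nat_lit 7) (.nd (nat_lit 18) 
(.lf (nat_lit 3490807850) (dlOf (nat_lit 2) (nat_lit 0x680ab8000000800e80080010002008a0008020503))) 
(.lf (nat_lit 5234851882) (dlOf (nat_lit 1) (nat_lit 0x68008000400200100008100303)))) 
(.lf (nat_lit 1342281130) (dlOf (nat_lit 1) (nat_lit 0x40018009901)))) (.nd (nat_lit 31) 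
(.nd (nat_lit 10) (.lf (nat_lit 1879670826) (dlOf (nat_lit 1) (nat_lit 0x1c200182b0881))) 
(.lf (nat_lit 5772248106) (dlOf (nat_lit 1) (nat_lit 0x800400180018092882)))) (.nd (nat_lit 9) 
(.lf (nat_lit 3492380714) (dlOf (nat_lit 4) (nat_lit 0x9f0f301a40550000320802883cc067a1540000b02005f0f30000500800300080004002003200080c0c03))) 
(.lf (nat_lit 3491332650) (dlOf (nat_lit 1) (nat_lit 0x7800400920018090e82)))))) (.nd (nat_lit 7) 
(.nd (nat_lit 30) (.nd (nat_lit 18) 
(.lf (nat_lit 2952888426) (dlOf (nat_lit 1) (nat_lit 0x400400160018010282))) (.nd (nat_lit 27) 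
(.lf (nat_lit 4563763306) (dlOf (nat_lit 3) (nat_lit 0x930170022000805700b803ec05a009e023011e00f0051007400000140120002006800080d0782))) 
(.lf (nat_lit 4697981034) (dlOf (nat_lit 3) (nat_lit 0x93017003a940805700b803ec05a009e023011e00f0051007400000140120002006800080d0782))))) 
(.nd (nat_lit 8) (.lf (nat_lit 5637505130) (dlOf (nat_lit 1) (nat_lit 0xe0018100781))) 
(.lf (nat_lit 3490024810) (dlOf (nat_lit 1) (nat_lit 0x400200020008006b02))))) (.nd (nat_lit 8) 
(.nd (nat_lit 10) 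
(.lf (nat_lit 3623977194) (dlOf (nat_lit 1) (nat_lit 0x8008000400200020008066b83))) 
(.lf (nat_lit 1342278890) (dlOf (nat_lit 1) (nat_lit 0x400400020008006502)))) (.nd (nat_lit 9) 
(.lf (nat_lit 2550235626) (dlOf (nat_lit 1) (nat_lit 0xc0028017301))) 
(.lf (nat_lit 1342280682) (dlOf (nat_lit 1) (nat_lit 0x3c00400020008009202))))))) (.nd (nat_lit 10) 
(.nd (nat_lit 6) (.nd (nat_lit 18) (.nd (nat_lit 8) 
(.lf (nat_lit 471433258) (dlOf (nat_lit 1) (nat_lit 0x200282f0d81))) 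
(.lf (nat_lit 469862698) (dlOf (nat_lit 1) (nat_lit 0x8008000400200020008004b83)))) 
(.nd (nat_lit 19) 
(.lf (nat_lit 1409646634) (dlOf (nat_lit 3) (nat_lit 0x40a4000d002000205200067818060600))) 
(.nd (nat_lit 21) 
(.lf (nat_lit 3557654570) (dlOf (nat_lit 1) (nat_lit 0x8008000400200020008290883))) 
(.lf (nat_lit 4096622634) (dlOf (nat_lit 1) (nat_lit 0x8008000400200020008140c83)))))) 
(.nd (nat_lit 9) (.nd (nat_lit 19) 
(.lf (nat_lit 6241484906) (dlOf (nat_lit 1) (nat_lit 0xe0018100781))) 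
(.lf (nat_lit 470646890) (dlOf (nat_lit 1) (nat_lit 0x400200020008150282)))) (.nd (nat_lit 11) 
(.lf (nat_lit 2617344618) (dlOf (nat_lit 8) (nat_lit 0xa901a0000d80804500d000068040004064000320200ce0340001701006601a0000b40803f00d0000560400140660002402007800180a1801))) 
(.lf (nat_lit 5167483498) (dlOf (nat_lit 1) (nat_lit 0x8008000400200020008055383)))))) 
(.nd (nat_lit 9) (.nd (nat_lit 6) (.nd (nat_lit 12) 
(.lf (nat_lit 1543605674) (dlOf (nat_lit 1) (nat_lit 0x4002001c0008146d02))) 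
(.lf (nat_lit 5838577066) (dlOf (nat_lit 1) (nat_lit 0x600180fcb81)))) (.nd (nat_lit 7) 
(.lf (nat_lit 1946258794) (dlOf (nat_lit 1) (nat_lit 0x1c00200060008006b02))) 
(.lf (nat_lit 1543605738) (dlOf (nat_lit 1) (nat_lit 0x8008000800200180008146e83))))) 
(.nd (nat_lit 7) (.nd (nat_lit 8) 
(.lf (nat_lit 4095575658) (dlOf (nat_lit 1) (nat_lit 0x2000280e3901))) 
(.lf (nat_lit 469864298) (dlOf (nat_lit 1) (nat_lit 0x10008001000200060008007783)))) 
(.nd (nat_lit 6) (.lf (nat_lit 5838573226) (dlOf (nat_lit 1) (nat_lit 0xc00280f7281))) 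
(.nd (nat_lit 8) (.lf (nat_lit 5838573290) (dlOf (nat_lit 1) (nat_lit 0x4004000200080f7402))) 
(.lf (nat_lit 1007521770) (dlOf (nat_lit 1) (nat_lit 0xc00283d7a81))))))))))) (.nd (nat_lit 18) 
(.nd (nat_lit 30) (.nd (nat_lit 5) (.nd (nat_lit 7) (.nd (nat_lit 6) (.nd (nat_lit 19) 
(.nd (nat_lit 8) (.nd (nat_lit 20) 
(.lf (nat_lit 2281807882) (dlOf (nat_lit 1) (nat_lit 0x20018030481))) (.nd (nat_lit 21) 
(.lf (nat_lit 1155082) (dlOf (nat_lit 1) (nat_lit 0x20028080481))) 
(.lf (nat_lit 28418058) (dlOf (nat_lit 9) (nat_lit 0x216fe001537ec0009b1c0004d5200486a88012350000ada7e0050cda00176648009b320017aa2800ddbf80066dfb001d6c70012b548002daa20096d40004469f801b336800a59b2000acc9000b664002f5058037b7f0019dbf6007ed8e00486a9001d354401b5a8000ecd3f006a66d0035b36400fd9920090cc8005e78b00186fe0003363800adaa4005ad51000c6a0000bb368009199200bce0e00f2dfc007f6fd802a36380171b1a00b0d5200996a88041b50001f9a7e0104cda007e66c803cb324016999000bc918017cdfc00bd6fd807c36380109b1a014ed5200a06a88077b5000375a7e0054d3d00f866d005cb3640209992011ecc8005e40d00046a8802ee008005b5440175c04005c00200180008d90282)))))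 
(.nd (nat_lit 9) (.lf (nat_lit 2617357578) (dlOf (nat_lit 1) (nat_lit 0x200180a9601))) 
(.nd (nat_lit 26) (.lf (nat_lit 536979210) (dlOf (nat_lit 1) (nat_lit 0x9c0008003b81))) 
(.lf (nat_lit 201434890) (dlOf (nat_lit 2) (nat_lit 0x2004100023818003b80)))))) (.nd (nat_lit 26) 
(.nd (nat_lit 8) (.nd (nat_lit 22) 
(.lf (nat_lit 805937162) (dlOf (nat_lit 15) (nat_lit 0x3204f001a01c00085810010813c0042404010809e00860380010202000401c000808080230100003420401a407c000b20200d8042007e011004e003801fc0080007d0800ce042003d011004c003801ec008000c0000003e05006a021003e8088026401c00fc0040003d84004d0210001e80803781080158044012000e0001006004000100008000000750c00020420003a0100a70210064003802a800800420000003984000c00000000008029800800f8002018a00081f0583))) 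
(.lf (nat_lit 21602314) (dlOf (nat_lit 1) (nat_lit 0x8008000400200020008a50083)))) 
(.lf (nat_lit 634122) (dlOf (nat_lit 1) (nat_lit 0x400400020018006682)))) (.nd (nat_lit 21) 
(.nd (nat_lit 27) (.lf (nat_lit 4362706954) (dlOf (nat_lit 1) (nat_lit 0x400080e0581))) 
(.lf (nat_lit 470392842) (dlOf (nat_lit 2) (nat_lit 0x5119800107a400abe080014004001400080d0682)))) 
(.lf (nat_lit 472489994) (dlOf (nat_lit 1) (nat_lit 0xe0018990001)))))) (.nd (nat_lit 8) 
(.nd (nat_lit 9) (.nd (nat_lit 12) (.nd (nat_lit 27) 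
(.lf (nat_lit 2483134538) (dlOf (nat_lit 2) (nat_lit 0x4e00a80005a040020002001a0008020882))) 
(.lf (nat_lit 2348916810) (dlOf (nat_lit 2) (nat_lit 0x4e00a80005a040020002001a0008020882)))) 
(.lf (nat_lit 7974986) (dlOf (nat_lit 1) (nat_lit 0x480008517d81)))) (.nd (nat_lit 11) 
(.lf (nat_lit 11641418) (dlOf (nat_lit 1) (nat_lit 0x200186c1181))) 
(.lf (nat_lit 34187850) (dlOf (nat_lit 1) (nat_lit 0x400200440008fb5282))))) (.nd (nat_lit 9) 
(.nd (nat_lit 21) (.nd (nat_lit 10) 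
(.lf (nat_lit 805413194) (dlOf (nat_lit 2) (nat_lit 0x3c02600000018090600))) 
(.lf (nat_lit 469873994) (dlOf (nat_lit 1) (nat_lit 0x20028009901)))) (.nd (nat_lit 20) 
(.lf (nat_lit 2203978) (dlOf (nat_lit 1) (nat_lit 0x120028150601))) 
(.lf (nat_lit 3252554) (dlOf (nat_lit 1) (nat_lit 0x14004000e0018200602))))) (.nd (nat_lit 10) 
(.lf (nat_lit 637770) (dlOf (nat_lit 2) (nat_lit 0x19d4000206f1000db6cc016080c00040040006001800bc82))) 
(.lf (nat_lit 108362) (dlOf (nat_lit 1) (nat_lit 0x1c0018003e81))))))) (.nd (nat_lit 29) 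
(.nd (nat_lit 8) (.nd (nat_lit 10) (.nd (nat_lit 19) (.nd (nat_lit 20) 
(.lf (nat_lit 6509666442) (dlOf (nat_lit 2) (nat_lit 0x4c80000003b02004400180b0101))) 
(.lf (nat_lit 3252362) (dlOf (nat_lit 1) (nat_lit 0x400200020008200102)))) (.nd (nat_lit 6) 
(.lf (nat_lit 12165258) (dlOf (nat_lit 1) (nat_lit 0xc002000200086c0102))) 
(.lf (nat_lit 7975626) (dlOf (nat_lit 1) (nat_lit 0x8008000400200020008518c83))))) (.nd (nat_lit 6) 
(.nd (nat_lit 11) (.lf (nat_lit 2617357450) (dlOf (nat_lit 1) (nat_lit 0x4002000200080a9502))) 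
(.lf (nat_lit 109706) (dlOf (nat_lit 2) (nat_lit 0x92bc8000e0080008008001c00200020008006183)))) 
(.lf (nat_lit 113866) (dlOf (nat_lit 1) (nat_lit 0x800800040020002000800c203))))) (.nd (nat_lit 9) 
(.nd (nat_lit 10) (.lf (nat_lit 37857674) (dlOf (nat_lit 1) (nat_lit 0x4002000200090d4e82))) 
(.lf (nat_lit 6576778634) (dlOf (nat_lit 1) (nat_lit 0x400400020008146c82)))) (.nd (nat_lit 6) 
(.nd (nat_lit 11) (.lf (nat_lit 8500106) (dlOf (nat_lit 1) (nat_lit 0x320028519001))) 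
(.lf (nat_lit 113546) (dlOf (nat_lit 3) (nat_lit 0x105a0015e60400082d000aec020004001800bc81)))) 
(.lf (nat_lit 57254858) (dlOf (nat_lit 2) (nat_lit 0x2aef0015a819792880)))))) (.nd (nat_lit 26) 
(.nd (nat_lit 28) (.nd (nat_lit 8) 
(.lf (nat_lit 2818679946) (dlOf (nat_lit 3) (nat_lit 0x1f80480100000000060400220120006000000014100018008004c002001600080d2b03))) 
(.lf (nat_lit 4831947146) (dlOf (nat_lit 1) (nat_lit 0x20018054e81)))) (.nd (nat_lit 6) 
(.lf (nat_lit 805413002) (dlOf (nat_lit 3) (nat_lit 0x60130003006a0036025001a0120000bc2000300900002e04002c00400080018090102))) 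
(.lf (nat_lit 805413066) (dlOf (nat_lit 3) (nat_lit 0x880260012481004b01300091c0800200080094002008c0008090483))))) 
(.nd (nat_lit 6) (.nd (nat_lit 28) 
(.lf (nat_lit 5033271434) (dlOf (nat_lit 2) (nat_lit 0x201300017018030f00))) 
(.lf (nat_lit 5301706890) (dlOf (nat_lit 3) (nat_lit 0xa00f80005c04001407c0002d02005e0008030f01)))) 
(.lf (nat_lit 604086474) (dlOf (nat_lit 1) (nat_lit 0x400200020008010482))))))) (.nd (nat_lit 6) 
(.nd (nat_lit 24) (.nd (nat_lit 26) (.nd (nat_lit 9) (.nd (nat_lit 7) (.nd (nat_lit 8) 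
(.lf (nat_lit 134848554) (dlOf (nat_lit 2) (nat_lit 0x1c80bc0004804000c002000800080c0c02))) 
(.lf (nat_lit 2416025898) (dlOf (nat_lit 1) (nat_lit 0x40028014601)))) 
(.lf (nat_lit 5100380586) (dlOf (nat_lit 1) (nat_lit 0x20008001000200040008051003)))) 
(.nd (nat_lit 7) (.nd (nat_lit 8) 
(.lf (nat_lit 4563511850) (dlOf (nat_lit 1) (nat_lit 0x400400020008095182))) 
(.lf (nat_lit 113450) (dlOf (nat_lit 1) (nat_lit 0x80020004000800bc82)))) 
(.lf (nat_lit 113578) (dlOf (nat_lit 3) (nat_lit 0x5341000293a400249b00022906000a6820005274800413600042a0c0004004000c001800bd02))))) 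
(.nd (nat_lit 19) (.nd (nat_lit 28) (.nd (nat_lit 20) 
(.lf (nat_lit 6509666346) (dlOf (nat_lit 2) (nat_lit 0x4000003808180b0000))) 
(.lf (nat_lit 2752618538) (dlOf (nat_lit 1) (nat_lit 0x20028020501)))) (.nd (nat_lit 27) 
(.lf (nat_lit 4630618154) (dlOf (nat_lit 1) (nat_lit 0x8008000400200020008020403))) 
(.lf (nat_lit 4764835882) (dlOf (nat_lit 1) (nat_lit 0x8008000400200020008020403))))) 
(.nd (nat_lit 21) 
(.lf (nat_lit 201957418) (dlOf (nat_lit 2) (nat_lit 0x900000001702001400280c0d01))) 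
(.nd (nat_lit 27) (.lf (nat_lit 2754191402) (dlOf (nat_lit 2) (nat_lit 0x3200a000110180c0d00))) 
(.lf (nat_lit 1009360938) (dlOf (nat_lit 1) (nat_lit 0xe0019120301))))))) (.nd (nat_lit 21) 
(.nd (nat_lit 19) (.nd (nat_lit 20) (.nd (nat_lit 22) 
(.lf (nat_lit 25272362) (dlOf (nat_lit 1) (nat_lit 0x400200020008bf0a02))) 
(.lf (nat_lit 29466666) (dlOf (nat_lit 1) (nat_lit 0x80008000400200240008e10783)))) 
(.lf (nat_lit 17932330) (dlOf (nat_lit 2) (nat_lit 0x93010002a818900b00)))) (.nd (nat_lit 20) 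
(.lf (nat_lit 21602346) (dlOf (nat_lit 1) (nat_lit 0x8008000800200020008a50b03))) 
(.lf (nat_lit 26845226) (dlOf (nat_lit 1) (nat_lit 0x80008c80681))))) (.nd (nat_lit 7) 
(.nd (nat_lit 22) (.lf (nat_lit 27369514) (dlOf (nat_lit 1) (nat_lit 0x40018cd0781))) 
(.lf (nat_lit 23175210) (dlOf (nat_lit 2) (nat_lit 0x4cbf0001b818b60880)))) (.nd (nat_lit 10) 
(.lf (nat_lit 61448362) (dlOf (nat_lit 1) (nat_lit 0x108008008c00200320009920603))) 
(.lf (nat_lit 60925098) (dlOf (nat_lit 1) (nat_lit 0x200198c2c01))))))) (.nd (nat_lit 7) 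
(.nd (nat_lit 9) (.nd (nat_lit 8) (.nd (nat_lit 19) 
(.lf (nat_lit 47292522) (dlOf (nat_lit 1) (nat_lit 0x600293c0781))) 
(.lf (nat_lit 25796714) (dlOf (nat_lit 1) (nat_lit 0x60028c10281)))) 
(.lf (nat_lit 2818680170) (dlOf (nat_lit 3) (nat_lit 0x40058002402a001600e0009006000880180028008000e0000001f0700160030000e80800680080070002000600080d3483)))) 
(.nd (nat_lit 8) (.nd (nat_lit 10) 
(.lf (nat_lit 4831947370) (dlOf (nat_lit 1) (nat_lit 0x10008000c00200020008055383))) 
(.lf (nat_lit 4697728618) (dlOf (nat_lit 1) (nat_lit 0x3e0028093901)))) 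
(.lf (nat_lit 201434986) (dlOf (nat_lit 1) (nat_lit 0x1400400440018004002))))) (.nd (nat_lit 8) 
(.nd (nat_lit 9) (.lf (nat_lit 4295074026) (dlOf (nat_lit 1) (nat_lit 0x800400020008046b82))) 
(.lf (nat_lit 6576778986) (dlOf (nat_lit 1) (nat_lit 0x400400020008147402)))) (.nd (nat_lit 9) 
(.nd (nat_lit 11) (.lf (nat_lit 872522218) (dlOf (nat_lit 1) (nat_lit 0x120018091381))) 
(.lf (nat_lit 34187754) (dlOf (nat_lit 1) (nat_lit 0x20028fb4f01)))) 
(.lf (nat_lit 108522) (dlOf (nat_lit 1) (nat_lit 0x400200080008004602)))))))) (.nd (nat_lit 26) 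
(.nd (nat_lit 28) (.nd (nat_lit 31) (.nd (nat_lit 7) (.nd (nat_lit 6) (.nd (nat_lit 27) 
(.lf (nat_lit 5368815626) (dlOf (nat_lit 1) (nat_lit 0x620018030001))) 
(.lf (nat_lit 5503033354) (dlOf (nat_lit 1) (nat_lit 0x620018030001)))) 
(.lf (nat_lit 1073848906) (dlOf (nat_lit 1) (nat_lit 0xe0028018d01)))) (.nd (nat_lit 6) 
(.nd (nat_lit 29) 
(.lf (nat_lit 5368815754) (dlOf (nat_lit 3) (nat_lit 0x200540014028000c013000300880048040001801c0002e0c000a015000a00a0000804c001c022000801000060070000b4300008008009400200040008030f03))) 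
(.lf (nat_lit 5905686666) (dlOf (nat_lit 2) (nat_lit 0x4c80000003b02004400180b0101)))) 
(.lf (nat_lit 5368815818) (dlOf (nat_lit 1) (nat_lit 0x60018031b81))))) (.nd (nat_lit 5) 
(.nd (nat_lit 7) (.nd (nat_lit 8) 
(.lf (nat_lit 3221856330) (dlOf (nat_lit 8) (nat_lit 0x160170000d40801500b80005c04000c0a0005602e00050150000b0180ea010002c0070000202e010a00b0000a82003b00bc000460401d005e001c02e000110200750178000340800c80080264002000400081a1483))) 
(.lf (nat_lit 3221332298) (dlOf (nat_lit 6) (nat_lit 0x806e01700200001682041c01200600080000580802e00400002b0201e8024000150100b10100000a4080348008035800200700008090603)))) 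
(.lf (nat_lit 3221332170) (dlOf (nat_lit 2) (nat_lit 0x200800038a04001800200020008090482)))) 
(.nd (nat_lit 19) 
(.lf (nat_lit 3221332010) (dlOf (nat_lit 5) (nat_lit 0x1000f001024080710098007dc04038804c003eb0201c4026001eb818090000))) 
(.nd (nat_lit 27) 
(.lf (nat_lit 3221856298) (dlOf (nat_lit 4) (nat_lit 0x20007c002601c00980070000641804380f80050038012e00e0000b03000b0070000500803400080048002001000081a0c03))) 
(.lf (nat_lit 3892944938) (dlOf (nat_lit 4) (nat_lit 0x240000005502004a0370001881000301b800400640005e08003c004000600082a0b02))))))) 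
(.nd (nat_lit 5) (.nd (nat_lit 19) (.nd (nat_lit 8) (.nd (nat_lit 11) 
(.lf (nat_lit 2013372426) (dlOf (nat_lit 2) (nat_lit 0xa80940323404000400400040008030002))) 
(.lf (nat_lit 3492915210) (dlOf (nat_lit 2) (nat_lit 0x88074000a8040010002000600080f4702)))) 
(.nd (nat_lit 27) (.lf (nat_lit 5637253898) (dlOf (nat_lit 1) (nat_lit 0x1c20008055b01))) 
(.lf (nat_lit 5771471626) (dlOf (nat_lit 1) (nat_lit 0x180018005b01))))) (.nd (nat_lit 27) 
(.nd (nat_lit 6) 
(.lf (nat_lit 1342808074) (dlOf (nat_lit 2) (nat_lit 0x5119800107a4015b4080014004001400080d0682))) 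
(.lf (nat_lit 3492388938) (dlOf (nat_lit 3) (nat_lit 0x600e0001781013d05c0000a80800600080064002001e00080c1483)))) 
(.nd (nat_lit 7) 
(.lf (nat_lit 5771993098) (dlOf (nat_lit 5) (nat_lit 0x2600a00382804004005001c1302001a02800e0181002c014006f8c08023000800d000200740008030003))) 
(.lf (nat_lit 5771993226) (dlOf (nat_lit 5) (nat_lit 0x3ac05000ce02500540110000d81801b01ac026805000f402600960128047808c024c0440136020009400d804b8060019402c0002e14022c028007a013003e008c01d004000ea0180001685000e0140000a0080718008000400200180008030f03)))))) 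
(.nd (nat_lit 6) (.nd (nat_lit 7) (.nd (nat_lit 9) 
(.lf (nat_lit 3490816042) (dlOf (nat_lit 1) (nat_lit 0x20028020501))) 
(.lf (nat_lit 5774090794) (dlOf (nat_lit 4) (nat_lit 0x40000000f01001608f80005c08001000000000040254004003a00180f8982)))) 
(.lf (nat_lit 4026638762) (dlOf (nat_lit 2) (nat_lit 0x202b0051e018017180)))) (.nd (nat_lit 9) 
(.nd (nat_lit 19) (.lf (nat_lit 1344381162) (dlOf (nat_lit 1) (nat_lit 0x240018740601))) 
(.lf (nat_lit 5771993322) (dlOf (nat_lit 2) (nat_lit 0x1d802800013018031e00)))) (.nd (nat_lit 7) 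
(.lf (nat_lit 6174124650) (dlOf (nat_lit 1) (nat_lit 0x8008000400200020008055383))) 
(.lf (nat_lit 1342288874) (dlOf (nat_lit 1) (nat_lit 0x4a0028009201)))))))) (.nd (nat_lit 31) 
(.nd (nat_lit 8) (.nd (nat_lit 7) (.nd (nat_lit 19) 
(.lf (nat_lit 1140957194) (dlOf (nat_lit 2) (nat_lit 0xa8094038ce04000400400040008030002))) 
(.nd (nat_lit 27) 
(.lf (nat_lit 1678352394) (dlOf (nat_lit 15) (nat_lit 0x3204f001a01c00086810010813c0042c04010809e00860380010282000401c000808080230100003520401a407c000b20200d8042007e011004e003801fc0080007d0800ce042003d011004c003801ec008000c0000003e05006a021003e8088026401c00fc0040003d84004d0210001e80803781080158044012000e0001006004000100008000000750c00020420003a0100a70210064003802a800800420000003984000c00000000008029800800f8002018a00081f0583))) 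
(.lf (nat_lit 6375972874) (dlOf (nat_lit 5) (nat_lit 0x2600a003162040040050018b002001a02800c4d81002c0140061e408023000800d000200740008030003))))) 
(.nd (nat_lit 6) 
(.lf (nat_lit 1677828234) (dlOf (nat_lit 3) (nat_lit 0x60130003006a0036025001a0120000bc2000300900002e04002c00400080018090102))) 
(.lf (nat_lit 1677828298) (dlOf (nat_lit 3) (nat_lit 0x880260012481004b01300091c0800200080094002008c0008090483))))) 
(.nd (nat_lit 6) (.nd (nat_lit 5) 
(.lf (nat_lit 5972797706) (dlOf (nat_lit 1) (nat_lit 0x400400020008144b82))) (.nd (nat_lit 7) 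
(.lf (nat_lit 5972797738) (dlOf (nat_lit 1) (nat_lit 0x400400020008144b82))) 
(.lf (nat_lit 1275175338) (dlOf (nat_lit 1) (nat_lit 0x10008000c00200020008091003))))) 
(.nd (nat_lit 7) (.nd (nat_lit 9) 
(.lf (nat_lit 1677828426) (dlOf (nat_lit 2) (nat_lit 0x3c02600000018090600))) 
(.lf (nat_lit 1409399626) (dlOf (nat_lit 1) (nat_lit 0x40040034001800bc82)))) 
(.lf (nat_lit 5972796362) (dlOf (nat_lit 1) (nat_lit 0x40028142881)))))) (.nd (nat_lit 6) 
(.nd (nat_lit 19) (.nd (nat_lit 5) (.nd (nat_lit 7) 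
(.lf (nat_lit 3556878858) (dlOf (nat_lit 2) (nat_lit 0x6c00a001800300030000000a01800d00080058002001a00080d5003))) 
(.lf (nat_lit 4095844746) (dlOf (nat_lit 1) (nat_lit 0x20004000400180e1002)))) 
(.lf (nat_lit 3825314986) (dlOf (nat_lit 1) (nat_lit 0x8008000400200020008146283)))) 
(.nd (nat_lit 5) (.nd (nat_lit 9) 
(.lf (nat_lit 4228489226) (dlOf (nat_lit 1) (nat_lit 0x400080e0581))) 
(.lf (nat_lit 4094272010) (dlOf (nat_lit 1) (nat_lit 0x20018037b01)))) 
(.lf (nat_lit 3960053802) (dlOf (nat_lit 8) (nat_lit 0xa03e000600e000c80380024018000c004003d00000006430011803800030040014038003e00e000100200005c180060070007c01c001000c0005002001c00000002c14007801c0001502005800e000400200005010010003800026040270002006600081a0d02))))) 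
(.nd (nat_lit 8) (.nd (nat_lit 7) (.nd (nat_lit 20) 
(.lf (nat_lit 3960053834) (dlOf (nat_lit 2) (nat_lit 0x1802f0009e0181a1880))) 
(.lf (nat_lit 4095320138) (dlOf (nat_lit 2) (nat_lit 0xf04d8005c244000450400020018090501)))) 
(.lf (nat_lit 3959529674) (dlOf (nat_lit 2) (nat_lit 0x200800038a04001800200020008090482)))) 
(.nd (nat_lit 5) (.nd (nat_lit 9) 
(.lf (nat_lit 3959529802) (dlOf (nat_lit 6) (nat_lit 0x806e01700200001602041c01200600080000560802e00400002a0201e8024000148100b10100000a0080348008035800200700008090603))) 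
(.lf (nat_lit 4227971914) (dlOf (nat_lit 1) (nat_lit 0x1000800040020002000800bc83)))) 
(.lf (nat_lit 3288441322) (dlOf (nat_lit 1) (nat_lit 0x800400060008017302))))))))) 
(.nd (nat_lit 28) (.nd (nat_lit 5) (.nd (nat_lit 6) (.nd (nat_lit 20) (.nd (nat_lit 29) 
(.nd (nat_lit 7) (.nd (nat_lit 27) (.nd (nat_lit 19) (.nd (nat_lit 21) 
(.lf (nat_lit 6442819594) (dlOf (nat_lit 1) (nat_lit 0x8004000600081c0682))) 
(.lf (nat_lit 2465802) (dlOf (nat_lit 1) (nat_lit 0x1000400140008160682)))) 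
(.lf (nat_lit 42835978) (dlOf (nat_lit 2) (nat_lit 0xa54c00674819280000)))) (.nd (nat_lit 8) 
(.lf (nat_lit 3355811850) (dlOf (nat_lit 1) (nat_lit 0x1e0028120081))) 
(.lf (nat_lit 2349182218) (dlOf (nat_lit 1) (nat_lit 0x4004000200180f6682))))) (.nd (nat_lit 8) 
(.lf (nat_lit 21340298) (dlOf (nat_lit 3) (nat_lit 0x544fc000360200143c000011db00058b0000104f8000320800020028a30f01))) 
(.nd (nat_lit 21) (.lf (nat_lit 38644106) (dlOf (nat_lit 1) (nat_lit 0x20029134e81))) 
(.lf (nat_lit 36546954) (dlOf (nat_lit 1) (nat_lit 0x80019074e81)))))) (.nd (nat_lit 26) 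
(.nd (nat_lit 19) (.nd (nat_lit 27) 
(.lf (nat_lit 4832206858) (dlOf (nat_lit 1) (nat_lit 0x20008110001))) 
(.lf (nat_lit 671457290) (dlOf (nat_lit 4) (nat_lit 0x31801800300060014f04006802c0035014801a0098019c046009e02000be00d80158024032000c00da00300340000005145001800b000b405200600260073011802400800280036018c006006b0018017000000284240064004020800181a0482)))) 
(.lf (nat_lit 2819465226) (dlOf (nat_lit 5) (nat_lit 0xc06c006270200100360030a01000401b0016e00800180d800b5e04001c004001800182a0282)))) 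
(.nd (nat_lit 30) (.nd (nat_lit 32) 
(.lf (nat_lit 604348426) (dlOf (nat_lit 8) (nat_lit 0x4022001600f0014003000e800000c521000ac0300050015001e0088001004000b401c006600700290030037000c00f4004000200100070000018a0580348060019c02200c000f006a0070028800000c44140174030005001500590088027803c019801c005800600370010026800000c362001ec0300074016002400a803e0044018401e010c00e003f0038018801801b40000061812011e016008c0038016e41000d001c00b5404002c00400220018190282))) 
(.lf (nat_lit 4899315722) (dlOf (nat_lit 1) (nat_lit 0x10008013800200a60008100003)))) 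
(.lf (nat_lit 1678090250) (dlOf (nat_lit 2) (nat_lit 0x4009805398080030008005c002001e0008180503)))))) 
(.nd (nat_lit 21) (.nd (nat_lit 7) (.nd (nat_lit 24) 
(.lf (nat_lit 2752880650) (dlOf (nat_lit 1) (nat_lit 0x8004002c0018060482))) 
(.lf (nat_lit 18194442) (dlOf (nat_lit 1) (nat_lit 0x20008001000200080008920003)))) 
(.lf (nat_lit 60139914) (dlOf (nat_lit 1) (nat_lit 0x20019844e81)))) (.nd (nat_lit 19) 
(.nd (nat_lit 23) (.lf (nat_lit 7708682) (dlOf (nat_lit 1) (nat_lit 0xa00284d0581))) 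
(.lf (nat_lit 16097290) (dlOf (nat_lit 3) (nat_lit 0x493c00ba502000249e005a2818860280)))) 
(.nd (nat_lit 7) 
(.lf (nat_lit 12427786) (dlOf (nat_lit 2) (nat_lit 0x477540023ba60002d948005941800180080004002000600086c0d83))) 
(.lf (nat_lit 37595530) (dlOf (nat_lit 1) (nat_lit 0x200090d4e81))))))) (.nd (nat_lit 21) 
(.nd (nat_lit 26) (.nd (nat_lit 7) (.nd (nat_lit 20) 
(.lf (nat_lit 5905948746) (dlOf (nat_lit 1) (nat_lit 0x10008003400200120008160883))) 
(.lf (nat_lit 9805898) (dlOf (nat_lit 1) (nat_lit 0x30008001400200040008580503)))) 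
(.lf (nat_lit 2818941130) (dlOf (nat_lit 1) (nat_lit 0xd40008130481)))) (.nd (nat_lit 8) 
(.nd (nat_lit 30) 
(.lf (nat_lit 6509928522) (dlOf (nat_lit 1) (nat_lit 0x10008003400200120008160883))) 
(.lf (nat_lit 3288703050) (dlOf (nat_lit 2) (nat_lit 0x40028000b8080060008000c002007200080c1483)))) 
(.lf (nat_lit 2349185866) (dlOf (nat_lit 5) (nat_lit 0x22016005280a803d40500144018001a0098050804000d401c008800c0020001802c10480038074003801000afb04001202e002ad8100160000015480803680082580002012400080fbc83))))) 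
(.nd (nat_lit 8) (.nd (nat_lit 7) (.nd (nat_lit 11) 
(.lf (nat_lit 2753929290) (dlOf (nat_lit 3) (nat_lit 0xf05c80002c04003c10e0001402001600180a0e81))) 
(.lf (nat_lit 8239178) (dlOf (nat_lit 2) (nat_lit 0x51343000770080068008009c0020002000851a683)))) 
(.lf (nat_lit 2754460874) (dlOf (nat_lit 1) (nat_lit 0x200080004002000200080fc203)))) 
(.nd (nat_lit 7) (.nd (nat_lit 9) 
(.lf (nat_lit 19772746) (dlOf (nat_lit 1) (nat_lit 0x80080004002000200089d9903))) 
(.lf (nat_lit 20294474) (dlOf (nat_lit 1) (nat_lit 0x4002000200089d5c02)))) 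
(.lf (nat_lit 8233930) (dlOf (nat_lit 1) (nat_lit 0x400200020008512882))))))) (.nd (nat_lit 29) 
(.nd (nat_lit 24) (.nd (nat_lit 23) (.nd (nat_lit 26) 
(.lf (nat_lit 3355811882) (dlOf (nat_lit 10) (nat_lit 0x1f00100000bc080d100800005c0406700400002d02008e020000160101880100000a4080b880800004e0406480400001f0203420200000f01007a01000007408002800800ac002004c0008120703))) 
(.nd (nat_lit 30) (.lf (nat_lit 6509928490) (dlOf (nat_lit 1) (nat_lit 0x40028160501))) 
(.lf (nat_lit 3288703018) (dlOf (nat_lit 3) (nat_lit 0x4c003000120100120018000880800400080008002007800080c0c03))))) 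
(.nd (nat_lit 6) (.lf (nat_lit 11378730) (dlOf (nat_lit 1) (nat_lit 0x4c00201480008690602))) 
(.nd (nat_lit 19) (.lf (nat_lit 9805930) (dlOf (nat_lit 1) (nat_lit 0xa8008000400200020008580783))) 
(.lf (nat_lit 42836074) (dlOf (nat_lit 1) (nat_lit 0x8008005400200320009280a03)))))) 
(.nd (nat_lit 6) (.nd (nat_lit 7) (.nd (nat_lit 8) 
(.lf (nat_lit 55943210) (dlOf (nat_lit 1) (nat_lit 0x200296f0201))) 
(.lf (nat_lit 20296490) (dlOf (nat_lit 1) (nat_lit 0x38000189d8f81)))) 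
(.lf (nat_lit 52797610) (dlOf (nat_lit 1) (nat_lit 0x20008000400200020009570603)))) 
(.nd (nat_lit 8) (.lf (nat_lit 28680426) (dlOf (nat_lit 1) (nat_lit 0x400200020008da0602))) 
(.lf (nat_lit 21340650) (dlOf (nat_lit 1) (nat_lit 0x18008001400200060008a37303)))))) 
(.nd (nat_lit 19) (.nd (nat_lit 30) (.nd (nat_lit 32) 
(.lf (nat_lit 537239594) (dlOf (nat_lit 1) (nat_lit 0x280080018002000a0008070803))) 
(.lf (nat_lit 4832206890) (dlOf (nat_lit 1) (nat_lit 0x400400020008110302)))) (.nd (nat_lit 26) 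
(.lf (nat_lit 5905948714) (dlOf (nat_lit 1) (nat_lit 0x40028160501))) 
(.lf (nat_lit 1678090282) (dlOf (nat_lit 10) (nat_lit 0x25c02a8022015009300a604f804e01770260002812c076408a03de03c023501b801680c4034c060026202d01f0016005f0090048802e043801601bc0090123004400c0020031e00a003600301358000000205806c40aa02a00530000782026e02b00bf015407500a602ee04e01f402601440128006c08604fa037027401900ff809000f402c05b40130068009002d804009a801404400000000710008302980ec804c05e40140000d0600100530000481002f02b00a2815403040a602dc04e0011025005800dc0001018013c0ac02ca0550093029801080c8006c026000030a0012053000008100010098000000801c0008007000200de0008180803))))) 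
(.nd (nat_lit 7) 
(.lf (nat_lit 537763882) (dlOf (nat_lit 1) (nat_lit 0x48008001c00200040008170603))) 
(.lf (nat_lit 2754457258) (dlOf (nat_lit 1) (nat_lit 0xae00280f7281))))))) (.nd (nat_lit 27) 
(.nd (nat_lit 5) (.nd (nat_lit 29) (.nd (nat_lit 19) (.nd (nat_lit 6) (.nd (nat_lit 20) 
(.lf (nat_lit 1342545930) (dlOf (nat_lit 14) (nat_lit 0x8c247004811e00058010002091c002be0400d448e005823c000ac0200c1123804f08f0000446e00157060086247003c11e00055810019891c0278486006a23c003111b8024870400b42e6000d90c00462470004121801988f0001b00c028c486000d70200062430006a81004b123802188f0002046e000cf0601aa2470003121805408f0002046e0008173000670500451238011890c00f4478001223700010e080033428002090c0034478000cc0400bc0028050581))) 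
(.lf (nat_lit 3491078154) (dlOf (nat_lit 1) (nat_lit 0x8004002c0018060482)))) 
(.lf (nat_lit 4563771466) (dlOf (nat_lit 2) (nat_lit 0x8c0580003802000c00180d0501)))) 
(.nd (nat_lit 7) 
(.lf (nat_lit 3557662730) (dlOf (nat_lit 5) (nat_lit 0xc07000bbc020010038005d481000301c002d200800200e00168804001c004001800182a0282))) 
(.lf (nat_lit 3490556298) (dlOf (nat_lit 1) (nat_lit 0x20018004e81))))) (.nd (nat_lit 7) 
(.nd (nat_lit 21) (.nd (nat_lit 30) 
(.lf (nat_lit 805675018) (dlOf (nat_lit 2) (nat_lit 0x40098059ac080030008005c002001e0008180503))) 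
(.lf (nat_lit 4026900490) (dlOf (nat_lit 1) (nat_lit 0x280080004002000e00080c0803)))) 
(.lf (nat_lit 1881513994) (dlOf (nat_lit 1) (nat_lit 0x80018f40001)))) 
(.lf (nat_lit 1879941258) (dlOf (nat_lit 1) (nat_lit 0x400400020018490102))))) (.nd (nat_lit 6) 
(.nd (nat_lit 19) (.nd (nat_lit 21) (.nd (nat_lit 26) 
(.lf (nat_lit 805675050) (dlOf (nat_lit 4) (nat_lit 0x37015800180a6000370400440560001981002302b0000000801d000800dc00200240008180883))) 
(.lf (nat_lit 1409654826) (dlOf (nat_lit 1) (nat_lit 0x1000400060008070882)))) 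
(.lf (nat_lit 1881514026) (dlOf (nat_lit 1) (nat_lit 0x280080028002000a0008f40203)))) 
(.nd (nat_lit 8) 
(.lf (nat_lit 1410179114) (dlOf (nat_lit 1) (nat_lit 0x48008001c00200040008170603))) 
(.lf (nat_lit 3490557226) (dlOf (nat_lit 1) (nat_lit 0x20018006801))))) (.nd (nat_lit 8) 
(.lf (nat_lit 1346740330) (dlOf (nat_lit 1) (nat_lit 0x30008000800200080009000a03))) 
(.nd (nat_lit 10) 
(.lf (nat_lit 1343070570) (dlOf (nat_lit 2) (nat_lit 0x1125000094080008008000400200040008150a03))) 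
(.lf (nat_lit 3490033002) (dlOf (nat_lit 1) (nat_lit 0x400200020008006b02))))))) (.nd (nat_lit 26) 
(.nd (nat_lit 6) (.nd (nat_lit 5) (.nd (nat_lit 19) 
(.lf (nat_lit 1476763658) (dlOf (nat_lit 8) (nat_lit 0x4022001600f0014003000e80000177c1000ac0300050016001e0088001004000b401c006600700290030037001000f400400020010007000002ef4580348060019c02200c000f006a007002880000176e140174030005001600590088027803c019801c00580060037001002680000175c2001ec0300074017002400b003e0044018401e010c00e003f0038018801801b400000bad12011e017008c003802d141000d001c0167e04002c00400220018190282))) 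
(.lf (nat_lit 5773303818) (dlOf (nat_lit 2) (nat_lit 0x80b8000400400a260280c0000)))) 
(.lf (nat_lit 5234860074) (dlOf (nat_lit 2) (nat_lit 0xe01400002818100300)))) (.nd (nat_lit 29) 
(.nd (nat_lit 7) 
(.lf (nat_lit 4697989194) (dlOf (nat_lit 2) (nat_lit 0x8c0580003602000c00180d0501))) 
(.lf (nat_lit 5773304010) (dlOf (nat_lit 1) (nat_lit 0x4002000200080c1782)))) (.nd (nat_lit 5) 
(.lf (nat_lit 5234860106) (dlOf (nat_lit 6) (nat_lit 0x1f0068007c032003600b0003083002600d0018006400b0030007600b0002f04002c00d001a006400cc030005c00b0002e84002f00d001a006400d00300005b0600020190001005800088100080008011000200120008100503))) 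
(.lf (nat_lit 5234860138) (dlOf (nat_lit 1) (nat_lit 0x4000400020018100782)))))) (.nd (nat_lit 30) 
(.nd (nat_lit 31) (.nd (nat_lit 7) 
(.lf (nat_lit 470130698) (dlOf (nat_lit 14) (nat_lit 0x8c247004811e00058010002091c002be0400d448e005823c000ac0200c1123804f08f0000446e00157060086247003c11e00055810019891c0278486006a23c003111b8024870400b42e2000d90c00462470004121801988f0001b00c028c486000d70200062430006a81004b123802188f0002046e000cf0601aa2470003121805408f0002046e0008171000670500451238011890c00f4478001223700010e080033428002090c0034478000cc0400bc0028050581))) 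
(.lf (nat_lit 1007526026) (dlOf (nat_lit 1) (nat_lit 0x400400020018490102)))) (.nd (nat_lit 5) 
(.lf (nat_lit 2617614346) (dlOf (nat_lit 11) (nat_lit 0x40160005740800580b0002b804001c0580015002000202c000a70100050160005000800200b0002780400400540013802001002a0009b8100030150004d80803080bc0000004001000400480008100082))) 
(.lf (nat_lit 2617614378) (dlOf (nat_lit 2) (nat_lit 0x110158000bc0800c00080024002002a0008100703))))) 
(.nd (nat_lit 19) (.nd (nat_lit 32) 
(.lf (nat_lit 1543872522) (dlOf (nat_lit 4) (nat_lit 0x3180180030006001e004006802c0035014801a0098019c046009e02000be00c80158024032000c00da00300340000007585001800b000b405200600260073011802400800280032018c006006b00180170000003a6240064004020800181a0482))) 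
(.lf (nat_lit 5838839818) (dlOf (nat_lit 1) (nat_lit 0x8004000600081c0682)))) 
(.lf (nat_lit 6377283594) (dlOf (nat_lit 2) (nat_lit 0x80c6000400400a348280c0000)))))))))))

end

end Pool.Agent.Lib.MP_5854e1_co.Cz
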