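import Pool.Agent.Lib.MP_5854e1_co.DecRow

/-!
# Sparse corrections
-/

set_option autoImplicit false
set_option maxRecDepth 100000

namespace Pool.Agent.Lib.MP_5854e1_co.Cz

noncomputable section

noncomputable def tz134 : DT := (.nd (nat_lit 16) (.nd (nat_lit 18) (.nd (nat_lit 5) 
(.nd (nat_lit 6) (.nd (nat_lit 15) (.nd (nat_lit 19) (.nd (nat_lit 26) (.nd (nat_lit 7) 
(.nd (nat_lit 22) (.nd (nat_lit 21) 
(.lf (nat_lit 2952921098) (dlOf (nat_lit 1) (nat_lit 0x2e0008020001))) 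
(.lf (nat_lit 52559882) (dlOf (nat_lit 1) (nat_lit 0x40002001a0009550002)))) (.nd (nat_lit 20) 
(.lf (nat_lit 21102602) (dlOf (nat_lit 2) (nat_lit 0x50000001d204002000200300008a10482))) 
(.lf (nat_lit 22151178) (dlOf (nat_lit 2) (nat_lit 0x3568000234080008008001000200040008aa0583))))) 
(.nd (nat_lit 10) (.nd (nat_lit 8) 
(.lf (nat_lit 19005578) (dlOf (nat_lit 1) (nat_lit 0x160018970481))) 
(.lf (nat_lit 37882250) (dlOf (nat_lit 1) (nat_lit 0x8002000200090d4e82)))) (.nd (nat_lit 9) 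
(.nd (nat_lit 11) (.lf (nat_lit 2818704522) (dlOf (nat_lit 1) (nat_lit 0x8004000600080d2b02))) 
(.lf (nat_lit 805444746) (dlOf (nat_lit 1) (nat_lit 0x2002811c201)))) 
(.lf (nat_lit 3355580042) (dlOf (nat_lit 1) (nat_lit 0x400280a9e01)))))) (.nd (nat_lit 8) 
(.nd (nat_lit 9) (.nd (nat_lit 7) 
(.lf (nat_lit 3959560202) (dlOf (nat_lit 2) (nat_lit 0x3f0230027c40801180080014002003a000811a603))) 
(.lf (nat_lit 5167513738) (dlOf (nat_lit 2) (nat_lit 0x2520138107805c000640800ec002000a0008070f02)))) 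
(.nd (nat_lit 10) (.nd (nat_lit 11) 
(.lf (nat_lit 3154248202) (dlOf (nat_lit 1) (nat_lit 0x8008000400200020008137b03))) 
(.lf (nat_lit 3556903434) (dlOf (nat_lit 2) (nat_lit 0x40000002802001400080d5001)))) 
(.lf (nat_lit 4095870474) (dlOf (nat_lit 1) (nat_lit 0x800280e3681))))) (.nd (nat_lit 27) 
(.nd (nat_lit 7) (.nd (nat_lit 10) 
(.lf (nat_lit 1677854986) (dlOf (nat_lit 1) (nat_lit 0x4c00200140008114b82))) 
(.lf (nat_lit 1409420554) (dlOf (nat_lit 1) (nat_lit 0x118008008000200160008006683)))) 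
(.lf (nat_lit 3556903306) (dlOf (nat_lit 1) (nat_lit 0x40002001600080d4e82)))) (.nd (nat_lit 9) 
(.lf (nat_lit 3959556362) (dlOf (nat_lit 1) (nat_lit 0x400400020008114b82))) 
(.lf (nat_lit 2617377546) (dlOf (nat_lit 2) (nat_lit 0x180a80005a040010004003c00080a2102))))))) 
(.nd (nat_lit 20) (.nd (nat_lit 21) (.nd (nat_lit 26) (.nd (nat_lit 22) 
(.lf (nat_lit 42598410) (dlOf (nat_lit 2) (nat_lit 0xaaf5003a0019260000))) (.nd (nat_lit 23) 
(.lf (nat_lit 21626890) (dlOf (nat_lit 1) (nat_lit 0x600080004002000a0008a50083))) 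
(.lf (nat_lit 13238282) (dlOf (nat_lit 2) (nat_lit 0xba8a0000d260002d208000400200060008710582))))) 
(.nd (nat_lit 9) (.nd (nat_lit 27) 
(.lf (nat_lit 4362731530) (dlOf (nat_lit 13) (nat_lit 0x5100a800352040004054001a70201d4056006802a002580ac000fa0c03980ac00d8054005c024802400ac000f81003880ac008602b0003d8200490158001e80809b815801ec0a80054049009e0158001d4200218158000e804059c0ac0148054005b024806780ac000e61000100a80002e02014e056002a02a00007c10099800000000040108002031400080e0582))) 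
(.lf (nat_lit 4228513802) (dlOf (nat_lit 13) (nat_lit 0x5100a400342040004052001a00201d404f0068026802580a8000fa0c039809e00d804d005c021002400a8000f810038809e008602a0003d8200490150001e80809b813c01ec09a0054042009e0150001d420021813c000e804059c09e014804d005b021006780a8000e610001009a0002902014e04f002a02680006810099800000000040108002031400080e0582)))) 
(.lf (nat_lit 4094296586) (dlOf (nat_lit 1) (nat_lit 0x38008000400200020008037b03))))) 
(.nd (nat_lit 22) (.nd (nat_lit 23) 
(.lf (nat_lit 1344929802) (dlOf (nat_lit 1) (nat_lit 0x180080028002000600089a0003))) 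
(.lf (nat_lit 11141130) (dlOf (nat_lit 1) (nat_lit 0x20018660081)))) 
(.lf (nat_lit 6946826) (dlOf (nat_lit 1) (nat_lit 0x120018490281))))) (.nd (nat_lit 23) 
(.nd (nat_lit 8) (.nd (nat_lit 22) 
(.lf (nat_lit 18481162) (dlOf (nat_lit 1) (nat_lit 0x400400020008940282))) 
(.lf (nat_lit 5898250) (dlOf (nat_lit 1) (nat_lit 0x120018400281)))) 
(.lf (nat_lit 473563402) (dlOf (nat_lit 4) (nat_lit 0x81f40000e0200040fa0000601000107d000000080310008000c002001e0008f63683)))) 
(.nd (nat_lit 7) (.lf (nat_lit 10092554) (dlOf (nat_lit 1) (nat_lit 0x38e00085b0481))) 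
(.nd (nat_lit 21) (.lf (nat_lit 14286986) (dlOf (nat_lit 1) (nat_lit 0x400400020008750282))) 
(.lf (nat_lit 12189834) (dlOf (nat_lit 1) (nat_lit 0x200186c0101)))))))) (.nd (nat_lit 28) 
(.nd (nat_lit 19) (.nd (nat_lit 24) (.nd (nat_lit 9) (.nd (nat_lit 27) 
(.lf (nat_lit 2751628298) (dlOf (nat_lit 1) (nat_lit 0x18008000400200060008002883))) 
(.lf (nat_lit 3959587850) (dlOf (nat_lit 1) (nat_lit 0x400200020008112882)))) (.nd (nat_lit 7) 
(.lf (nat_lit 170506) (dlOf (nat_lit 1) (nat_lit 0x2001800b281))) 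
(.lf (nat_lit 2751629194) (dlOf (nat_lit 1) (nat_lit 0x10008000400200060008004183))))) 
(.nd (nat_lit 20) (.nd (nat_lit 21) 
(.lf (nat_lit 29523978) (dlOf (nat_lit 1) (nat_lit 0x20028e10281))) 
(.lf (nat_lit 52592650) (dlOf (nat_lit 3) (nat_lit 0x18aca00396e04003d8220006c10001059480082ca0001964e00a0a7b00165348000003802c8008003800200380009550003)))) 
(.nd (nat_lit 21) 
(.lf (nat_lit 22183946) (dlOf (nat_lit 2) (nat_lit 0x6b2fc0011a04001000200040008aa0582))) 
(.lf (nat_lit 24281098) (dlOf (nat_lit 1) (nat_lit 0x20018b90681)))))) (.nd (nat_lit 27) 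
(.nd (nat_lit 7) 
(.lf (nat_lit 4882442) (dlOf (nat_lit 2) (nat_lit 0x25de0010440800180080014002000a00082d0003))) 
(.nd (nat_lit 8) (.lf (nat_lit 60457098) (dlOf (nat_lit 1) (nat_lit 0x60029870f01))) 
(.lf (nat_lit 690570) (dlOf (nat_lit 1) (nat_lit 0x120018004e81))))) (.nd (nat_lit 26) 
(.nd (nat_lit 29) (.lf (nat_lit 134905866) (dlOf (nat_lit 1) (nat_lit 0x2c002001000080d0482))) 
(.lf (nat_lit 3893002250) (dlOf (nat_lit 6) (nat_lit 0x10178058840800b80bc0018058001802b00b05830002018800700580030028000e002009b104000f0000009080800380b0000000400a0004002c00082c0002)))) 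
(.lf (nat_lit 202014730) (dlOf (nat_lit 1) (nat_lit 0x2c002001000080d0482)))))) (.nd (nat_lit 26) 
(.nd (nat_lit 29) (.nd (nat_lit 8) (.nd (nat_lit 19) 
(.lf (nat_lit 1476558858) (dlOf (nat_lit 2) (nat_lit 0x16003800380000000004004a0008050001))) 
(.lf (nat_lit 1342865418) (dlOf (nat_lit 1) (nat_lit 0x200180f0081)))) (.nd (nat_lit 7) 
(.lf (nat_lit 5637309706) (dlOf (nat_lit 1) (nat_lit 0xa00280d2f81))) 
(.lf (nat_lit 5772575114) (dlOf (nat_lit 2) (nat_lit 0xa09f000604c0002c0080004004002c0018091002))))) 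
(.nd (nat_lit 31) (.nd (nat_lit 7) 
(.lf (nat_lit 939689994) (dlOf (nat_lit 2) (nat_lit 0x4e01d0002a018144700))) 
(.lf (nat_lit 5234655370) (dlOf (nat_lit 4) (nat_lit 0x140300001b01020901800d300bc09b805a04be02a0091014800c008c089403c00a80000001908000200f8000b4080128008029400200020008070f03)))) 
(.nd (nat_lit 8) (.lf (nat_lit 2952953866) (dlOf (nat_lit 1) (nat_lit 0x260028030001))) 
(.lf (nat_lit 3087173386) (dlOf (nat_lit 1) (nat_lit 0x400200020008143b82)))))) (.nd (nat_lit 19) 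
(.nd (nat_lit 7) 
(.lf (nat_lit 3691151370) (dlOf (nat_lit 2) (nat_lit 0x28012000000200040028050001))) 
(.nd (nat_lit 8) 
(.lf (nat_lit 5704417418) (dlOf (nat_lit 2) (nat_lit 0x43403a000e01a000200a0000c8180010008001000200300008070f03))) 
(.lf (nat_lit 2617414538) (dlOf (nat_lit 1) (nat_lit 0x600280a9001))))) (.nd (nat_lit 9) 
(.nd (nat_lit 21) (.lf (nat_lit 470450186) (dlOf (nat_lit 1) (nat_lit 0x200180f0081))) 
(.lf (nat_lit 4096425994) (dlOf (nat_lit 2) (nat_lit 0x202300a26018110000)))) 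
(.lf (nat_lit 6378127882) (dlOf (nat_lit 1) (nat_lit 0x20028117b01)))))))) (.nd (nat_lit 30) 
(.nd (nat_lit 15) (.nd (nat_lit 19) (.nd (nat_lit 7) (.nd (nat_lit 23) (.nd (nat_lit 8) 
(.lf (nat_lit 52559946) (dlOf (nat_lit 2) (nat_lit 0x42a69000b0019550600))) 
(.lf (nat_lit 738328906) (dlOf (nat_lit 2) (nat_lit 0x100520000b818090c80)))) (.nd (nat_lit 10) 
(.lf (nat_lit 25296970) (dlOf (nat_lit 3) (nat_lit 0xf645800cb0e0000470400179160023c380001181002a00080160002002a0008bf0d03))) 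
(.lf (nat_lit 8524874) (dlOf (nat_lit 1) (nat_lit 0x800200020008519302))))) (.nd (nat_lit 8) 
(.lf (nat_lit 5167513802) (dlOf (nat_lit 1) (nat_lit 0x40018071b81))) 
(.lf (nat_lit 402784714) (dlOf (nat_lit 3) (nat_lit 0xd0000001140800980000008604010800400340018091102))))) 
(.nd (nat_lit 27) (.nd (nat_lit 9) (.nd (nat_lit 28) 
(.lf (nat_lit 537526346) (dlOf (nat_lit 3) (nat_lit 0x5004c0000b01000a0260000500800300080078002000c00080a0e83))) 
(.lf (nat_lit 805961802) (dlOf (nat_lit 6) (nat_lit 0x5d013c02d4096017403800ba0198000a82001f00d4000320409440ac004604e000098200f202b0000400803a01580001a04002400400020018201482)))) 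
(.lf (nat_lit 32115274) (dlOf (nat_lit 1) (nat_lit 0x6400200320008ef5282)))) (.nd (nat_lit 26) 
(.lf (nat_lit 134873162) (dlOf (nat_lit 1) (nat_lit 0x4004000200080d0d02))) 
(.lf (nat_lit 201982026) (dlOf (nat_lit 1) (nat_lit 0x4004000200080d0d02)))))) (.nd (nat_lit 8) 
(.nd (nat_lit 26) (.nd (nat_lit 7) (.nd (nat_lit 27) 
(.lf (nat_lit 537559114) (dlOf (nat_lit 4) (nat_lit 0x340980001602001804c0000a0100100260000140800d80080070002002200080a0e83))) 
(.lf (nat_lit 134905930) (dlOf (nat_lit 1) (nat_lit 0x10008002c002001200080d0d03)))) 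
(.lf (nat_lit 167114) (dlOf (nat_lit 1) (nat_lit 0x20018006381)))) (.nd (nat_lit 9) 
(.nd (nat_lit 21) 
(.lf (nat_lit 202014794) (dlOf (nat_lit 1) (nat_lit 0x10008002c002001200080d0d03))) 
(.lf (nat_lit 2754248778) (dlOf (nat_lit 1) (nat_lit 0x400080d0d01)))) 
(.lf (nat_lit 2214762058) (dlOf (nat_lit 1) (nat_lit 0x4004000200080a9c02))))) (.nd (nat_lit 7) 
(.nd (nat_lit 10) (.nd (nat_lit 12) 
(.lf (nat_lit 20089674) (dlOf (nat_lit 1) (nat_lit 0x200189d5c01))) 
(.lf (nat_lit 170826) (dlOf (nat_lit 2) (nat_lit 0x880d90058201800bc80)))) 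
(.lf (nat_lit 2751629130) (dlOf (nat_lit 1) (nat_lit 0x20018003e81)))) (.nd (nat_lit 9) 
(.nd (nat_lit 12) (.lf (nat_lit 34245066) (dlOf (nat_lit 1) (nat_lit 0xa0018fb4e81))) 
(.lf (nat_lit 170442) (dlOf (nat_lit 1) (nat_lit 0x2c001800b081)))) 
(.lf (nat_lit 5301765066) (dlOf (nat_lit 2) (nat_lit 0x100440123a04000800200020008092882))))))) 
(.nd (nat_lit 28) (.nd (nat_lit 26) (.nd (nat_lit 7) (.nd (nat_lit 19) (.nd (nat_lit 27) 
(.lf (nat_lit 5368840266) (dlOf (nat_lit 1) (nat_lit 0x20008040501))) 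
(.lf (nat_lit 5503057994) (dlOf (nat_lit 1) (nat_lit 0x20008040501)))) 
(.lf (nat_lit 3221880906) (dlOf (nat_lit 2) (nat_lit 0xb4815005d808000e0038010700b0024000000054140008002000a00081a1482)))) 
(.nd (nat_lit 15) (.nd (nat_lit 8) 
(.lf (nat_lit 3355579594) (dlOf (nat_lit 1) (nat_lit 0xa00180a9501))) 
(.lf (nat_lit 1208093130) (dlOf (nat_lit 1) (nat_lit 0x400200020008094e82)))) (.nd (nat_lit 9) 
(.lf (nat_lit 1610777034) (dlOf (nat_lit 6) (nat_lit 0x200dc0007804004009c00140370001d02000202a80010138000c06e0003906000805500010270000dc1000280d40004042000000400280028091101))) 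
(.lf (nat_lit 1610777546) (dlOf (nat_lit 8) (nat_lit 0x2816800200b2001404b0007021006910200008168000c08401a4204002405a00d2001000102d0068f8080028164034740400100b2000204b00d1c02000202c801a8104030760801b0004016c0018092882)))))) 
(.nd (nat_lit 11) (.nd (nat_lit 15) (.nd (nat_lit 19) 
(.lf (nat_lit 1140981834) (dlOf (nat_lit 5) (nat_lit 0x1b400c01a00000003c020008011001780000006c08028c0000002202001a006005800000006c1000080080120002002a0008040503))) 
(.lf (nat_lit 1678377034) (dlOf (nat_lit 3) (nat_lit 0x330028001dc0400040ac0000002000a0008201881)))) 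
(.lf (nat_lit 3288498250) (dlOf (nat_lit 2) (nat_lit 0x290050000000800a80080034002000e0008030f03)))) 
(.nd (nat_lit 8) 
(.lf (nat_lit 1677854794) (dlOf (nat_lit 2) (nat_lit 0x801c000e30200020028114701))) 
(.lf (nat_lit 1677855050) (dlOf (nat_lit 1) (nat_lit 0x58008000800200500008114d83)))))) 
(.nd (nat_lit 27) (.nd (nat_lit 15) (.nd (nat_lit 20) (.nd (nat_lit 26) 
(.lf (nat_lit 3492413514) (dlOf (nat_lit 4) (nat_lit 0x740d0002c0650029031801e8108000807a00140230001a0600670340014019401640c600ec042000d0118000c8280108130000540401c800400d000080c1482))) 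
(.lf (nat_lit 4096393290) (dlOf (nat_lit 1) (nat_lit 0x400200020008100602)))) 
(.lf (nat_lit 4095344714) (dlOf (nat_lit 2) (nat_lit 0x16a00b00022818090500)))) (.nd (nat_lit 8) 
(.nd (nat_lit 19) 
(.lf (nat_lit 4026695754) (dlOf (nat_lit 2) (nat_lit 0x290050000000800a80080034002000e0008030f03))) 
(.lf (nat_lit 3492446282) (dlOf (nat_lit 1) (nat_lit 0x400080d0d01)))) 
(.lf (nat_lit 3489828170) (dlOf (nat_lit 3) (nat_lit 0x380d7001c05400038014000200c00041b600020ab00006828006980))))) 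
(.nd (nat_lit 26) (.nd (nat_lit 19) 
(.lf (nat_lit 2013397066) (dlOf (nat_lit 5) (nat_lit 0x1b400c01a00000003c020008011001780000007008028c0000002202001a006005800000006c1000080080120002002a0008040503))) 
(.nd (nat_lit 20) 
(.lf (nat_lit 5772017738) (dlOf (nat_lit 2) (nat_lit 0x12d014000190080160008038400200380008040503))) 
(.lf (nat_lit 5773066314) (dlOf (nat_lit 1) (nat_lit 0x4002000200080a1682))))) (.nd (nat_lit 7) 
(.nd (nat_lit 15) 
(.lf (nat_lit 6375997514) (dlOf (nat_lit 2) (nat_lit 0x12d014000184080160008038400200380008040503))) 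
(.lf (nat_lit 4228546634) (dlOf (nat_lit 2) (nat_lit 0x5d80c800026040034004000c00080f1482)))) 
(.lf (nat_lit 2080506314) (dlOf (nat_lit 3) (nat_lit 0xc0280001a010005014000080080050008003800200100008091103))))))))) 
(.nd (nat_lit 15) (.nd (nat_lit 26) (.nd (nat_lit 19) (.nd (nat_lit 8) (.nd (nat_lit 20) 
(.nd (nat_lit 10) (.nd (nat_lit 23) (.nd (nat_lit 28) 
(.lf (nat_lit 4429316138) (dlOf (nat_lit 2) (nat_lit 0x300e000040080020008000400200020008070803))) 
(.lf (nat_lit 1476526122) (dlOf (nat_lit 6) (nat_lit 0x8c018005a00b80298044015801e008e00e005a0038000943000280600024022000200f00080070000902000e8060008c02e004c0110011007800c8038000461402bc030015c01700af0088055803c029c01c01540070001106001e002001900000003808003000400a20018020902)))) 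
(.lf (nat_lit 25296938) (dlOf (nat_lit 1) (nat_lit 0x800400040018bf0a02)))) (.nd (nat_lit 7) 
(.lf (nat_lit 5637276714) (dlOf (nat_lit 1) (nat_lit 0x4004000200080d2882))) 
(.lf (nat_lit 805441194) (dlOf (nat_lit 4) (nat_lit 0x400e0000701000200700003408001003800140000000904002a0008117281))))) 
(.nd (nat_lit 21) (.nd (nat_lit 22) 
(.lf (nat_lit 1880227882) (dlOf (nat_lit 1) (nat_lit 0x4002000200087e0202))) 
(.lf (nat_lit 30539818) (dlOf (nat_lit 1) (nat_lit 0x40028e30001)))) (.nd (nat_lit 7) 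
(.lf (nat_lit 28442666) (dlOf (nat_lit 1) (nat_lit 0x520028d90881))) 
(.lf (nat_lit 20058794) (dlOf (nat_lit 1) (nat_lit 0x80080004002000200089d8c83)))))) 
(.nd (nat_lit 7) (.nd (nat_lit 11) (.nd (nat_lit 10) 
(.lf (nat_lit 1610744170) (dlOf (nat_lit 2) (nat_lit 0x602000017818090f00))) 
(.lf (nat_lit 2818704746) (dlOf (nat_lit 3) (nat_lit 0x101100007e0400100700000002000400080d3481)))) 
(.nd (nat_lit 6) 
(.lf (nat_lit 8522026) (dlOf (nat_lit 3) (nat_lit 0x347f0000718100123f80001ec0800a8008003400205b00008514b83))) 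
(.lf (nat_lit 1208093034) (dlOf (nat_lit 1) (nat_lit 0x100018094e81))))) (.nd (nat_lit 23) 
(.nd (nat_lit 10) (.lf (nat_lit 1073873386) (dlOf (nat_lit 1) (nat_lit 0x800400020008017d02))) 
(.lf (nat_lit 5637277162) (dlOf (nat_lit 1) (nat_lit 0x600080d3601)))) (.nd (nat_lit 6) 
(.lf (nat_lit 8520106) (dlOf (nat_lit 1) (nat_lit 0x400200020008511002))) 
(.lf (nat_lit 8526826) (dlOf (nat_lit 1) (nat_lit 0x2000800100020006000851bf03))))))) 
(.nd (nat_lit 21) (.nd (nat_lit 22) (.nd (nat_lit 6) (.nd (nat_lit 7) 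
(.lf (nat_lit 3221880874) (dlOf (nat_lit 8) (nat_lit 0x3c407c015801c00180070008003002f000800640000000c8600020070000600806d80f802ac038001800c00ac002000980000002c14001401c000150200b800e0000a01000300700004c08002803800016040330004000200181a0c02))) 
(.lf (nat_lit 1880753322) (dlOf (nat_lit 1) (nat_lit 0x400400020008b52c02)))) 
(.lf (nat_lit 42598506) (dlOf (nat_lit 1) (nat_lit 0x8008005400200320009260a03)))) 
(.nd (nat_lit 20) (.nd (nat_lit 23) 
(.lf (nat_lit 21626922) (dlOf (nat_lit 1) (nat_lit 0x20008a50b01))) 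
(.lf (nat_lit 46792746) (dlOf (nat_lit 2) (nat_lit 0x533c801cf8080108008000400200140009380003)))) 
(.lf (nat_lit 5898282) (dlOf (nat_lit 4) (nat_lit 0x597f000110040060bf80008702007c67900000018400780))))) 
(.nd (nat_lit 6) (.nd (nat_lit 22) 
(.lf (nat_lit 3492413482) (dlOf (nat_lit 5) (nat_lit 0xf811000048040088088000220200520440001001002f0220000740800a00080028002000c00080c0c03))) 
(.lf (nat_lit 6946858) (dlOf (nat_lit 4) (nat_lit 0x5ae44001160400617220008a02007cc0e00000018490780)))) 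
(.nd (nat_lit 10) 
(.lf (nat_lit 45744234) (dlOf (nat_lit 2) (nat_lit 0x399f80005e04000400400040019360a02))) 
(.lf (nat_lit 44696682) (dlOf (nat_lit 2) (nat_lit 0x8333800104080018008009c00200040009322983))))))) 
(.nd (nat_lit 11) (.nd (nat_lit 28) (.nd (nat_lit 7) (.nd (nat_lit 10) (.nd (nat_lit 27) 
(.lf (nat_lit 1678377002) (dlOf (nat_lit 13) (nat_lit 0x255021001c008809bc01c01c40040002b84018502100080088050001c014a0040002b0401e2021000b0088078c01c0005506061e04200d6011018d0038071c0080005408004c04f00270170013009800340120004c08004e04f000d0170001281001d013c09400840016038003301101348038086c0180402004008a001013180000006e24001c0840003602030e0420148007005280100006a0c078408403c600e00a70020000d018136810800d404404f200e022500601000010037c00404e0000000198700120278000c00800c800812080020e700008200d03))) 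
(.lf (nat_lit 3960078378) (dlOf (nat_lit 7) (nat_lit 0xb400e005000600208000000320c02e801c0001802018400e0000b8100c7007005f003002b4000000160601a000e0000a0100460000000000800080080004002002e00081a0d03)))) 
(.lf (nat_lit 3959555114) (dlOf (nat_lit 1) (nat_lit 0x140018112881)))) (.nd (nat_lit 6) 
(.lf (nat_lit 2348941482) (dlOf (nat_lit 1) (nat_lit 0x400200020008044c02))) 
(.lf (nat_lit 738328810) (dlOf (nat_lit 1) (nat_lit 0x20018090a81))))) (.nd (nat_lit 6) 
(.nd (nat_lit 19) (.nd (nat_lit 22) 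
(.lf (nat_lit 3691118634) (dlOf (nat_lit 7) (nat_lit 0x2600100005604018c05c00d002c006101500328088006804200c0019006f0048000943801580b800780540040022002900c8000902001b00b8008c054004e022003600c80020024000461402ec05c016802c00b50150054808801a0042015c01900ac0048000883800680640002a04004c004007a0018020902))) 
(.lf (nat_lit 474087466) (dlOf (nat_lit 1) (nat_lit 0x460009080001)))) 
(.lf (nat_lit 4096393258) (dlOf (nat_lit 1) (nat_lit 0x20018100401)))) (.nd (nat_lit 9) 
(.nd (nat_lit 29) (.lf (nat_lit 335675498) (dlOf (nat_lit 1) (nat_lit 0x1e0018090181))) 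
(.lf (nat_lit 6241255530) (dlOf (nat_lit 1) (nat_lit 0x4004000200080d0182)))) 
(.lf (nat_lit 2617377386) (dlOf (nat_lit 9) (nat_lit 0xd20340079019804180a8014c04e00a2025008700f803e007001b401e008400b00510050000d85001a00d00130056006c02a000a014001a009c00d003e000201c0034005801500280006824030006401c60300028017802080b003b0054019602900480130006809002fc03c012c0030003000806400000006430013c058009e02a0001802001501a001680b000040160002e06003603400300160013802c0005a0c000c0560002b02005c0330005005800090100058008043400202bc00080a1803)))))) 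
(.nd (nat_lit 6) (.nd (nat_lit 7) (.nd (nat_lit 8) (.nd (nat_lit 27) 
(.lf (nat_lit 3825339434) (dlOf (nat_lit 2) (nat_lit 0x18016000c00200040008146081))) 
(.lf (nat_lit 1543638058) (dlOf (nat_lit 2) (nat_lit 0x1401f00020818146080)))) 
(.lf (nat_lit 5972822314) (dlOf (nat_lit 1) (nat_lit 0x40008003400200100008144b83)))) 
(.nd (nat_lit 8) 
(.lf (nat_lit 6509694634) (dlOf (nat_lit 1) (nat_lit 0x18008000400200060008147283))) 
(.nd (nat_lit 9) (.lf (nat_lit 3825338794) (dlOf (nat_lit 1) (nat_lit 0x20018144e81))) 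
(.lf (nat_lit 4094823338) (dlOf (nat_lit 1) (nat_lit 0x400400020008055d02)))))) (.nd (nat_lit 7) 
(.nd (nat_lit 8) (.lf (nat_lit 6241258090) (dlOf (nat_lit 1) (nat_lit 0x10004000200080d5382))) 
(.nd (nat_lit 27) 
(.lf (nat_lit 1677859178) (dlOf (nat_lit 2) (nat_lit 0x802b00011c08086800800100020090000811ac03))) 
(.lf (nat_lit 3959560554) (dlOf (nat_lit 3) (nat_lit 0x360460002381000b0230001180805b000802040020036000811ac03))))) 
(.nd (nat_lit 9) (.nd (nat_lit 27) 
(.lf (nat_lit 1409420522) (dlOf (nat_lit 1) (nat_lit 0x30800800d0002019e0008006503))) 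
(.lf (nat_lit 1812073706) (dlOf (nat_lit 1) (nat_lit 0x400400020008146502)))) 
(.lf (nat_lit 6377573098) (dlOf (nat_lit 1) (nat_lit 0x4004000200180e5982)))))))) (.nd (nat_lit 26) 
(.nd (nat_lit 28) (.nd (nat_lit 19) (.nd (nat_lit 23) (.nd (nat_lit 6) (.nd (nat_lit 10) 
(.nd (nat_lit 30) 
(.lf (nat_lit 4966219818) (dlOf (nat_lit 1) (nat_lit 0x138008003c00200020008060c83))) 
(.lf (nat_lit 6039961642) (dlOf (nat_lit 1) (nat_lit 0x18008001800200040008070703)))) 
(.lf (nat_lit 171050) (dlOf (nat_lit 1) (nat_lit 0x40040002001800bf02)))) (.nd (nat_lit 7) 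
(.nd (nat_lit 9) (.lf (nat_lit 52592746) (dlOf (nat_lit 1) (nat_lit 0x20029550a01))) 
(.lf (nat_lit 1744996970) (dlOf (nat_lit 1) (nat_lit 0x18008000800200020008095383)))) 
(.lf (nat_lit 1610778090) (dlOf (nat_lit 1) (nat_lit 0x68008001000200040008093603))))) 
(.nd (nat_lit 7) (.nd (nat_lit 20) (.nd (nat_lit 22) 
(.lf (nat_lit 25329706) (dlOf (nat_lit 1) (nat_lit 0x80008bf0a01))) 
(.lf (nat_lit 29524010) (dlOf (nat_lit 4) (nat_lit 0x260000004601000100000022c0800200000011404002800200140008e10782)))) 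
(.lf (nat_lit 62029866) (dlOf (nat_lit 1) (nat_lit 0x6000200180009930a02)))) 
(.lf (nat_lit 8552874) (dlOf (nat_lit 1) (nat_lit 0x400200020008511002))))) (.nd (nat_lit 10) 
(.nd (nat_lit 20) 
(.lf (nat_lit 3221913642) (dlOf (nat_lit 2) (nat_lit 0xf20178000000802c8008003000200aa00081b0603))) 
(.nd (nat_lit 22) 
(.lf (nat_lit 3833898) (dlOf (nat_lit 5) (nat_lit 0x813f00030970003040c001407c0006408000a13f00060970005040c001407c0006308001413f000a0970003840c002007c0006108001013f00060970004840c002407c0005f0800080008230b01))) 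
(.lf (nat_lit 24805418) (dlOf (nat_lit 1) (nat_lit 0x180080020002000e0008bb0b03))))) 
(.nd (nat_lit 6) (.nd (nat_lit 9) 
(.lf (nat_lit 36340906) (dlOf (nat_lit 1) (nat_lit 0x400200ca0009072c02))) 
(.lf (nat_lit 8029866) (dlOf (nat_lit 1) (nat_lit 0x160018513a81)))) 
(.lf (nat_lit 55215210) (dlOf (nat_lit 1) (nat_lit 0x58002000200096d2982)))))) (.nd (nat_lit 30) 
(.nd (nat_lit 7) (.nd (nat_lit 8) (.nd (nat_lit 19) 
(.lf (nat_lit 2952953898) (dlOf (nat_lit 3) (nat_lit 0x480150001781000f00e001f80540005c08020c00400100018030382))) 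
(.lf (nat_lit 805994538) (dlOf (nat_lit 2) (nat_lit 0x7702b0037004c0006608011000400220008210602)))) 
(.lf (nat_lit 4563569450) (dlOf (nat_lit 1) (nat_lit 0x400400020008095c02)))) (.nd (nat_lit 6) 
(.lf (nat_lit 4697784746) (dlOf (nat_lit 2) (nat_lit 0xc015800534080010008001400200040008091003))) 
(.lf (nat_lit 2550300906) (dlOf (nat_lit 1) (nat_lit 0x8008000400200020008046b83))))) 
(.nd (nat_lit 6) (.nd (nat_lit 19) (.nd (nat_lit 8) (.nd (nat_lit 9) (.nd (nat_lit 20) 
(.lf (nat_lit 1476558890) (dlOf (nat_lit 3) (nat_lit 0x210000000580400c40000002b0200020018050381))) 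
(.lf (nat_lit 3490873386) (dlOf (nat_lit 1) (nat_lit 0x50008000800200080008030b03)))) 
(.lf (nat_lit 1342341674) (dlOf (nat_lit 1) (nat_lit 0x80028017f81)))) 
(.lf (nat_lit 5637309738) (dlOf (nat_lit 1) (nat_lit 0x400280d3181)))) (.nd (nat_lit 21) 
(.lf (nat_lit 1342865450) (dlOf (nat_lit 1) (nat_lit 0x200180f0b01))) 
(.lf (nat_lit 3492446250) (dlOf (nat_lit 2) (nat_lit 0x20458000c40800680080048002006e00080d0a03))))) 
(.nd (nat_lit 8) (.lf (nat_lit 5772575978) (dlOf (nat_lit 1) (nat_lit 0x400200020008092e82))) 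
(.lf (nat_lit 1342341610) (dlOf (nat_lit 1) (nat_lit 0x4004000a0008017302))))))) (.nd (nat_lit 27) 
(.nd (nat_lit 29) (.nd (nat_lit 9) (.nd (nat_lit 19) (.nd (nat_lit 28) 
(.lf (nat_lit 67272746) (dlOf (nat_lit 1) (nat_lit 0x1800200040008090702))) 
(.lf (nat_lit 2483191850) (dlOf (nat_lit 2) (nat_lit 0x500800001008007000800a8002000c0008070883)))) 
(.lf (nat_lit 4362764330) (dlOf (nat_lit 8) (nat_lit 0x7c02b0002b8100010158001580800400ac000aa0403e00560005402005e02b0001b8100060158000d00802a80ac00066040020004001a00180f0d02)))) 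
(.nd (nat_lit 6) (.lf (nat_lit 2214757162) (dlOf (nat_lit 1) (nat_lit 0xc00280a2201))) 
(.lf (nat_lit 2214756970) (dlOf (nat_lit 2) (nat_lit 0x7c009004f800400064080004004000400180a1802))))) 
(.nd (nat_lit 19) (.nd (nat_lit 6) (.nd (nat_lit 10) 
(.lf (nat_lit 2752675882) (dlOf (nat_lit 1) (nat_lit 0x50008000800200080008030b03))) 
(.lf (nat_lit 2751628330) (dlOf (nat_lit 1) (nat_lit 0x30008000800200040008002883)))) 
(.lf (nat_lit 2751629546) (dlOf (nat_lit 1) (nat_lit 0x400400060008004b02)))) (.nd (nat_lit 21) 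
(.lf (nat_lit 1678409770) (dlOf (nat_lit 2) (nat_lit 0x7702b0037004c0006408011000400220008210602))) 
(.lf (nat_lit 2754248746) (dlOf (nat_lit 2) (nat_lit 0x20440000c40800680080048002006e00080d0a03)))))) 
(.nd (nat_lit 31) (.nd (nat_lit 6) (.nd (nat_lit 28) (.nd (nat_lit 29) 
(.lf (nat_lit 1275232298) (dlOf (nat_lit 1) (nat_lit 0x200280a0a01))) 
(.lf (nat_lit 5033328682) (dlOf (nat_lit 1) (nat_lit 0x138008003c00200020008060c83)))) 
(.nd (nat_lit 7) (.lf (nat_lit 470450218) (dlOf (nat_lit 1) (nat_lit 0x200180f0b01))) 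
(.lf (nat_lit 469926314) (dlOf (nat_lit 1) (nat_lit 0x2000801a8002004e0008017183))))) 
(.nd (nat_lit 8) (.lf (nat_lit 474121834) (dlOf (nat_lit 1) (nat_lit 0xe00090e3901))) 
(.lf (nat_lit 474120554) (dlOf (nat_lit 1) (nat_lit 0x600190e0f01))))) (.nd (nat_lit 30) 
(.nd (nat_lit 6) (.nd (nat_lit 19) 
(.lf (nat_lit 2348974122) (dlOf (nat_lit 2) (nat_lit 0x1080a8008805000440100000a038070800))) 
(.lf (nat_lit 3154804778) (dlOf (nat_lit 4) (nat_lit 0x240000005402004a0370001881000301b800400640005e08003c00400060008330b02)))) 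
(.lf (nat_lit 3154286826) (dlOf (nat_lit 1) (nat_lit 0xa001815a901)))) (.nd (nat_lit 6) 
(.nd (nat_lit 19) 
(.lf (nat_lit 3691151402) (dlOf (nat_lit 5) (nat_lit 0x5f004c0002c020360026000158100240020000a80801080100000004003800400020008050382))) 
(.lf (nat_lit 3960111146) (dlOf (nat_lit 2) (nat_lit 0xf20178000000802c8008003000200aa00081b0603)))) 
(.lf (nat_lit 4228022762) (dlOf (nat_lit 3) (nat_lit 0xe404f0016021000c00e8007806c048203001230110001983005e813c003c074035003000c50110000fc200028008000c00200020008017303)))))))))) 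
(.nd (nat_lit 5) (.nd (nat_lit 6) (.nd (nat_lit 15) (.nd (nat_lit 19) (.nd (nat_lit 31) 
(.nd (nat_lit 20) (.nd (nat_lit 7) (.nd (nat_lit 22) (.nd (nat_lit 11) (.nd (nat_lit 26) 
(.lf (nat_lit 805699594) (dlOf (nat_lit 1) (nat_lit 0x8002000c0008190002))) 
(.lf (nat_lit 1678114826) (dlOf (nat_lit 1) (nat_lit 0x8002000c0008190002)))) 
(.lf (nat_lit 8783882) (dlOf (nat_lit 1) (nat_lit 0x90004002e0008514702)))) (.nd (nat_lit 8) 
(.lf (nat_lit 15073290) (dlOf (nat_lit 12) (nat_lit 0x233eb801900080801f5c0384fac018a7d400b93ca00098f7c00c7e140274fae013a7d600043ea0018f0180069f5c00c72040014fae000e7d60031982004d3eb8018a0080029f5c00c44040024fae0061b02004e7d70030c0100403eb8016e4080051f5c00b5404012c004000600187b0282))) 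
(.lf (nat_lit 29753610) (dlOf (nat_lit 2) (nat_lit 0x3c8d0025780800f00080014002000e0008e30703))))) 
(.nd (nat_lit 22) (.nd (nat_lit 26) 
(.lf (nat_lit 1208352906) (dlOf (nat_lit 2) (nat_lit 0x71018800600c00004e080004004003400080c0f02))) 
(.lf (nat_lit 604373130) (dlOf (nat_lit 1) (nat_lit 0x1c002001000081a0482)))) 
(.lf (nat_lit 21364874) (dlOf (nat_lit 2) (nat_lit 0x1fabd00d0d598024eaa800c7550001fa5d0008ccb8072dcb8002e3e000090ad00d980b00173c10000642c016000400480008a30f02))))) 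
(.nd (nat_lit 21) (.nd (nat_lit 22) 
(.lf (nat_lit 1343619082) (dlOf (nat_lit 6) (nat_lit 0x140b0800a0274002011c00ba4060004161000204e802e44100028584001413a000a08e005a40300090b080048274002811c00b44060006161000304e800102380167c0c0004004000a00182c0282))) 
(.lf (nat_lit 55967754) (dlOf (nat_lit 1) (nat_lit 0x400400020009700102)))) (.nd (nat_lit 23) 
(.lf (nat_lit 37093386) (dlOf (nat_lit 1) (nat_lit 0x400400020009090002))) 
(.lf (nat_lit 62259210) (dlOf (nat_lit 1) (nat_lit 0x20029990001)))))) (.nd (nat_lit 27) 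
(.nd (nat_lit 20) (.nd (nat_lit 22) 
(.lf (nat_lit 2416312330) (dlOf (nat_lit 1) (nat_lit 0x4000280d0481))) (.nd (nat_lit 26) 
(.lf (nat_lit 3494248458) (dlOf (nat_lit 1) (nat_lit 0x110008001c002004800081e0083))) 
(.lf (nat_lit 2756050954) (dlOf (nat_lit 1) (nat_lit 0x110008001c002004800081e0083))))) 
(.nd (nat_lit 11) (.nd (nat_lit 26) 
(.lf (nat_lit 3491102730) (dlOf (nat_lit 3) (nat_lit 0x681ac00ac0a7002b00200075818001029c003a604000c00400280018060482))) 
(.lf (nat_lit 2752905226) (dlOf (nat_lit 3) (nat_lit 0x6819000ac0a4002b0020005141800102900028404000c00400280018060482)))) 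
(.lf (nat_lit 3493201930) (dlOf (nat_lit 4) (nat_lit 0x28003a000540200e801d0002881004d01000013808015800800f8002000400080f4703))))) 
(.nd (nat_lit 28) (.nd (nat_lit 29) 
(.lf (nat_lit 3355836426) (dlOf (nat_lit 11) (nat_lit 0x40178005600800580bc002ae04001c05e0015002000202f000a70100050178005000800200bc0027804004005a0013802001002d0009b8100030168004d80803080c80000004001000400480008120082))) 
(.lf (nat_lit 3892707338) (dlOf (nat_lit 1) (nat_lit 0x200181d0481)))) (.nd (nat_lit 26) 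
(.lf (nat_lit 2550530058) (dlOf (nat_lit 1) (nat_lit 0x4000280d0481))) 
(.lf (nat_lit 4228251658) (dlOf (nat_lit 1) (nat_lit 0x60018090001))))))) (.nd (nat_lit 8) 
(.nd (nat_lit 21) (.nd (nat_lit 26) (.nd (nat_lit 27) 
(.lf (nat_lit 537788426) (dlOf (nat_lit 2) (nat_lit 0x207600040330052b81000380080008002001000081a0003))) 
(.lf (nat_lit 2819489802) (dlOf (nat_lit 3) (nat_lit 0x26010800c78040308084006330200bc00282b0281)))) 
(.nd (nat_lit 31) 
(.lf (nat_lit 1410203658) (dlOf (nat_lit 2) (nat_lit 0x207700040330058841000380080008002001000081a0003))) 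
(.lf (nat_lit 3557687306) (dlOf (nat_lit 3) (nat_lit 0x2601140179e04030808a00bc80200bc00282b0281))))) 
(.nd (nat_lit 7) (.nd (nat_lit 9) (.nd (nat_lit 20) 
(.lf (nat_lit 19794954) (dlOf (nat_lit 1) (nat_lit 0x200089d5f81))) 
(.lf (nat_lit 46009354) (dlOf (nat_lit 1) (nat_lit 0xc0029385f81)))) 
(.lf (nat_lit 8262154) (dlOf (nat_lit 1) (nat_lit 0x20028518681)))) (.nd (nat_lit 20) 
(.lf (nat_lit 23986314) (dlOf (nat_lit 1) (nat_lit 0x1000200020008b80102))) 
(.lf (nat_lit 12451978) (dlOf (nat_lit 1) (nat_lit 0x4002001200086c0102)))))) (.nd (nat_lit 24) 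
(.nd (nat_lit 20) (.nd (nat_lit 22) 
(.lf (nat_lit 36571530) (dlOf (nat_lit 1) (nat_lit 0xc8002005a0009074e82))) 
(.lf (nat_lit 49154442) (dlOf (nat_lit 1) (nat_lit 0x1e0029464e81)))) (.nd (nat_lit 11) 
(.lf (nat_lit 4095607178) (dlOf (nat_lit 1) (nat_lit 0x4004000200080e1002))) 
(.lf (nat_lit 37620106) (dlOf (nat_lit 1) (nat_lit 0x200090d4e81))))) (.nd (nat_lit 10) 
(.nd (nat_lit 11) (.lf (nat_lit 19796234) (dlOf (nat_lit 1) (nat_lit 0x2800289d8081))) 
(.lf (nat_lit 19798282) (dlOf (nat_lit 1) (nat_lit 0x4002000200089daa02)))) (.nd (nat_lit 7) 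
(.lf (nat_lit 19795210) (dlOf (nat_lit 1) (nat_lit 0x100080004002000400089d6683))) 
(.lf (nat_lit 19795338) (dlOf (nat_lit 1) (nat_lit 0x200089d6c81)))))))) (.nd (nat_lit 28) 
(.nd (nat_lit 21) (.nd (nat_lit 29) (.nd (nat_lit 20) (.nd (nat_lit 7) 
(.lf (nat_lit 134644234) (dlOf (nat_lit 3) (nat_lit 0x19c062000da0200ea0310006a018090d80))) 
(.lf (nat_lit 21397642) (dlOf (nat_lit 5) (nat_lit 0x16828a000a0040001b02000a5b401ff853c009429200032060222145009e0748000b81003105140005a0401a800400040008a30f02)))) 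
(.nd (nat_lit 22) (.lf (nat_lit 26640394) (dlOf (nat_lit 1) (nat_lit 0x400200020008c50002))) 
(.lf (nat_lit 22446090) (dlOf (nat_lit 2) (nat_lit 0xaac3c002f0040020004001e0008ae0482))))) 
(.nd (nat_lit 30) (.nd (nat_lit 19) 
(.lf (nat_lit 738623498) (dlOf (nat_lit 3) (nat_lit 0xb00aa001c03700b9a02000c02a800080dc028d2080004004000800180c0002))) 
(.lf (nat_lit 2753462282) (dlOf (nat_lit 1) (nat_lit 0x20028090001)))) (.nd (nat_lit 8) 
(.lf (nat_lit 1611038730) (dlOf (nat_lit 3) (nat_lit 0xb00aa001c03700aeb02000c02a800080dc02898080004004000800180c0002))) 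
(.lf (nat_lit 1678147850) (dlOf (nat_lit 2) (nat_lit 0x2002d0004e8181a0480)))))) (.nd (nat_lit 7) 
(.nd (nat_lit 19) (.nd (nat_lit 22) 
(.lf (nat_lit 10911754) (dlOf (nat_lit 1) (nat_lit 0x60018640081))) 
(.lf (nat_lit 15106058) (dlOf (nat_lit 2) (nat_lit 0x7a18b0031f8187b0280)))) 
(.lf (nat_lit 28213258) (dlOf (nat_lit 1) (nat_lit 0x400400020008d70282)))) (.nd (nat_lit 10) 
(.lf (nat_lit 12484746) (dlOf (nat_lit 1) (nat_lit 0x80080004002004400086c0103))) 
(.lf (nat_lit 40273034) (dlOf (nat_lit 2) (nat_lit 0x4cf20002662000110291f2b00)))))) 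
(.nd (nat_lit 19) (.nd (nat_lit 30) (.nd (nat_lit 27) (.nd (nat_lit 29) 
(.lf (nat_lit 4563828746) (dlOf (nat_lit 3) (nat_lit 0x3590188037780816800c401bba040094004005600080f0a02))) 
(.lf (nat_lit 805732362) (dlOf (nat_lit 2) (nat_lit 0x815801a980400e8004000800081a0002)))) 
(.lf (nat_lit 4698046474) (dlOf (nat_lit 3) (nat_lit 0x3590188024e80816800c401272040094004005600080f0a02)))) 
(.nd (nat_lit 11) (.nd (nat_lit 20) 
(.lf (nat_lit 1344700426) (dlOf (nat_lit 1) (nat_lit 0x20018980001))) 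
(.lf (nat_lit 1343651850) (dlOf (nat_lit 18) (nat_lit 0x1813a00de08e000c03f002e98180340274018811c00ca07e005d283005f047002e800804102380173e04002c13a00cc08e000e03f002e581803a8274019811c00e007e005ca83001904e803782380169e0801b811c00b490200dc08e005d03f002d181004d8274026411c013407e005a283006f047002e81f80168008007013a00dc08e002603f002cfc180008274017411c00b3604001409d0070047002cd41001802380165e0401a011c00b2602001409d0009047002c6c1001780080068002001000082d0283)))) 
(.nd (nat_lit 7) 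
(.lf (nat_lit 3493234698) (dlOf (nat_lit 2) (nat_lit 0x18c03a0005402000200180f4701))) 
(.lf (nat_lit 3490089354) (dlOf (nat_lit 1) (nat_lit 0xc00200020008004e82)))))) (.nd (nat_lit 7) 
(.nd (nat_lit 21) (.nd (nat_lit 26) 
(.lf (nat_lit 5773361162) (dlOf (nat_lit 2) (nat_lit 0x40a30051300800080080004002000200080c0003))) 
(.lf (nat_lit 6377340938) (dlOf (nat_lit 2) (nat_lit 0x409b8051a40800080080004002000200080c0003)))) 
(.lf (nat_lit 473858058) (dlOf (nat_lit 1) (nat_lit 0x60008004c00200260008fc0003)))) 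
(.nd (nat_lit 26) (.lf (nat_lit 1344176266) (dlOf (nat_lit 1) (nat_lit 0x20018490101))) 
(.nd (nat_lit 29) (.lf (nat_lit 471761034) (dlOf (nat_lit 1) (nat_lit 0x20018490101))) 
(.lf (nat_lit 6377341066) (dlOf (nat_lit 1) (nat_lit 0x80080004002000200080c0f03))))))))) 
(.nd (nat_lit 26) (.nd (nat_lit 8) (.nd (nat_lit 19) (.nd (nat_lit 20) (.nd (nat_lit 29) 
(.nd (nat_lit 7) (.lf (nat_lit 2490442) (dlOf (nat_lit 1) (nat_lit 0x640008160e81))) 
(.lf (nat_lit 1208352970) (dlOf (nat_lit 3) (nat_lit 0xa0310007b81000301680013c0800200080008002000400080c1b83)))) 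
(.nd (nat_lit 28) 
(.lf (nat_lit 1611006026) (dlOf (nat_lit 2) (nat_lit 0x4c029803680d402a0042007201d000000480b0600))) 
(.lf (nat_lit 4026925130) (dlOf (nat_lit 5) (nat_lit 0x70040003600f800130100680100000960407680400003f0201700200001f0180d0d00))))) 
(.nd (nat_lit 7) (.nd (nat_lit 21) 
(.lf (nat_lit 9830474) (dlOf (nat_lit 1) (nat_lit 0x20028580501))) 
(.lf (nat_lit 37093450) (dlOf (nat_lit 1) (nat_lit 0x1940009090601)))) 
(.lf (nat_lit 14057674) (dlOf (nat_lit 1) (nat_lit 0x40018750481))))) (.nd (nat_lit 7) 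
(.nd (nat_lit 15) (.nd (nat_lit 9) 
(.lf (nat_lit 13500490) (dlOf (nat_lit 1) (nat_lit 0x12400200280008730d02))) 
(.lf (nat_lit 19797578) (dlOf (nat_lit 1) (nat_lit 0x80080004002000200089d9c03)))) 
(.nd (nat_lit 20) (.lf (nat_lit 13533258) (dlOf (nat_lit 1) (nat_lit 0x220008730d01))) 
(.lf (nat_lit 25067594) (dlOf (nat_lit 2) (nat_lit 0x8caae00015018be1480))))) (.nd (nat_lit 15) 
(.nd (nat_lit 21) (.lf (nat_lit 5773328586) (dlOf (nat_lit 1) (nat_lit 0x4002000200080c1782))) 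
(.lf (nat_lit 20840650) (dlOf (nat_lit 1) (nat_lit 0x2c00289e3a01)))) 
(.lf (nat_lit 5773361354) (dlOf (nat_lit 1) (nat_lit 0x4002000200080c1782)))))) (.nd (nat_lit 21) 
(.nd (nat_lit 7) (.nd (nat_lit 15) (.nd (nat_lit 27) 
(.lf (nat_lit 4295360842) (dlOf (nat_lit 1) (nat_lit 0x6a00281a0601))) 
(.lf (nat_lit 4429578570) (dlOf (nat_lit 1) (nat_lit 0x6a00281a0601)))) 
(.lf (nat_lit 3490611530) (dlOf (nat_lit 2) (nat_lit 0x622f0052c018014c00)))) (.nd (nat_lit 15) 
(.lf (nat_lit 21365194) (dlOf (nat_lit 1) (nat_lit 0x20018a37101))) (.nd (nat_lit 28) 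
(.lf (nat_lit 3221651914) (dlOf (nat_lit 2) (nat_lit 0x16804600b302280000010020000800a000200320008170983))) 
(.lf (nat_lit 805732810) (dlOf (nat_lit 2) (nat_lit 0x1a605600e10098000001001c000800cc002006400081a0983)))))) 
(.nd (nat_lit 9) (.nd (nat_lit 7) 
(.lf (nat_lit 58065226) (dlOf (nat_lit 1) (nat_lit 0x600080020002001c00097b8783))) 
(.lf (nat_lit 1345194442) (dlOf (nat_lit 2) (nat_lit 0x40b2805884080008008002c00200060008b04e83)))) 
(.nd (nat_lit 10) (.nd (nat_lit 19) 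
(.lf (nat_lit 20319050) (dlOf (nat_lit 1) (nat_lit 0x4002000200089d5c02))) 
(.lf (nat_lit 19794762) (dlOf (nat_lit 1) (nat_lit 0x4002000200089d5c02)))) 
(.lf (nat_lit 19797834) (dlOf (nat_lit 1) (nat_lit 0x80080004002000200089da203))))))) 
(.nd (nat_lit 7) (.nd (nat_lit 31) (.nd (nat_lit 27) (.nd (nat_lit 8) (.nd (nat_lit 28) 
(.lf (nat_lit 4362469450) (dlOf (nat_lit 1) (nat_lit 0x80018090001))) 
(.lf (nat_lit 1946550346) (dlOf (nat_lit 2) (nat_lit 0x550138000c8080008008000c002000a00080c1483)))) 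
(.lf (nat_lit 872809802) (dlOf (nat_lit 1) (nat_lit 0x4004000200080e3302)))) (.nd (nat_lit 29) 
(.lf (nat_lit 4496687178) (dlOf (nat_lit 3) (nat_lit 0xcb0190001140800500880007004002800400180008120502))) 
(.lf (nat_lit 738590794) (dlOf (nat_lit 2) (nat_lit 0x4c029803680d402a0042007201d000000480b0600))))) 
(.nd (nat_lit 15) (.nd (nat_lit 21) (.nd (nat_lit 27) 
(.lf (nat_lit 3288727626) (dlOf (nat_lit 5) (nat_lit 0x70040003600f80014c100680100000a404076804000046020170020000228180d0d00))) 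
(.lf (nat_lit 4228251722) (dlOf (nat_lit 1) (nat_lit 0x80018090001)))) 
(.lf (nat_lit 2753953866) (dlOf (nat_lit 2) (nat_lit 0x210438000500800980080008002003a00080a0e83)))) 
(.nd (nat_lit 8) (.nd (nat_lit 19) 
(.lf (nat_lit 2886107722) (dlOf (nat_lit 1) (nat_lit 0x1a0008158d01))) 
(.lf (nat_lit 2752414282) (dlOf (nat_lit 3) (nat_lit 0x1a42b2000220200301570000e018018d00)))) 
(.lf (nat_lit 2752414026) (dlOf (nat_lit 2) (nat_lit 0x624700261818014c00)))))) (.nd (nat_lit 30) 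
(.nd (nat_lit 19) (.nd (nat_lit 8) 
(.lf (nat_lit 1007026378) (dlOf (nat_lit 1) (nat_lit 0x180018150481))) 
(.lf (nat_lit 4362469834) (dlOf (nat_lit 1) (nat_lit 0x800080028002001a0008090983)))) 
(.nd (nat_lit 9) (.lf (nat_lit 471733706) (dlOf (nat_lit 1) (nat_lit 0x400183d9a81))) 
(.lf (nat_lit 472777674) (dlOf (nat_lit 1) (nat_lit 0x3800400260008b02882))))) (.nd (nat_lit 8) 
(.nd (nat_lit 19) (.lf (nat_lit 2080768202) (dlOf (nat_lit 1) (nat_lit 0x40004001800180c1782))) 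
(.lf (nat_lit 6377308362) (dlOf (nat_lit 1) (nat_lit 0x4002000200080c1b82)))) (.nd (nat_lit 15) 
(.lf (nat_lit 4228252106) (dlOf (nat_lit 1) (nat_lit 0x800080028002001a0008090983))) 
(.nd (nat_lit 27) 
(.lf (nat_lit 1678148042) (dlOf (nat_lit 2) (nat_lit 0x1a605600e10098000001001c000800cc002006400081a0983))) 
(.lf (nat_lit 3959849418) (dlOf (nat_lit 2) (nat_lit 0x16804600b302280000010020000800a000200320008170983)))))))))) 
(.nd (nat_lit 19) (.nd (nat_lit 15) (.nd (nat_lit 28) (.nd (nat_lit 20) (.nd (nat_lit 26) 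
(.nd (nat_lit 27) (.nd (nat_lit 29) 
(.lf (nat_lit 1074135082) (dlOf (nat_lit 9) (nat_lit 0x1b8052000240200fe029000110100850148000800804500a40003e0401340520001e02008a0290000e81004301480006c0800400a400034040078004001600180c0d02))) 
(.lf (nat_lit 537264170) (dlOf (nat_lit 2) (nat_lit 0x100000005004003000400180008070802)))) 
(.nd (nat_lit 29) 
(.lf (nat_lit 3355836458) (dlOf (nat_lit 2) (nat_lit 0x110170000bc0800c00080024002002a0008120703))) 
(.lf (nat_lit 3892707370) (dlOf (nat_lit 4) (nat_lit 0x60640002f810157028009e813c03dc08e022604601030220066810c03c0070019203200ed018009b808c0190038016001500ce00a00150010000a83803c408e022004600f90220062010c03a0060000420a009200281d0681))))) 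
(.nd (nat_lit 27) (.nd (nat_lit 21) 
(.lf (nat_lit 4362469482) (dlOf (nat_lit 1) (nat_lit 0xa0018090001))) 
(.lf (nat_lit 2753953898) (dlOf (nat_lit 1) (nat_lit 0x1200180a1481)))) (.nd (nat_lit 6) 
(.lf (nat_lit 2349203498) (dlOf (nat_lit 1) (nat_lit 0x4004000200081b0002))) 
(.lf (nat_lit 4496687210) (dlOf (nat_lit 1) (nat_lit 0x10008000400200020008120783)))))) 
(.nd (nat_lit 21) (.nd (nat_lit 22) 
(.lf (nat_lit 9830442) (dlOf (nat_lit 3) (nat_lit 0x48a30000281000245180000c080138008004800200280008580303))) 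
(.nd (nat_lit 23) (.lf (nat_lit 55967786) (dlOf (nat_lit 1) (nat_lit 0x8008000c00200020009700903))) 
(.lf (nat_lit 30801962) (dlOf (nat_lit 2) (nat_lit 0x92f80002a018e50b00))))) (.nd (nat_lit 6) 
(.nd (nat_lit 22) (.lf (nat_lit 37093418) (dlOf (nat_lit 1) (nat_lit 0x20029090201))) 
(.lf (nat_lit 32899114) (dlOf (nat_lit 1) (nat_lit 0x8008000c00200020008f40903)))) 
(.lf (nat_lit 20318826) (dlOf (nat_lit 1) (nat_lit 0x8002000200089d5382)))))) (.nd (nat_lit 26) 
(.nd (nat_lit 32) (.nd (nat_lit 6) 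
(.lf (nat_lit 3490057258) (dlOf (nat_lit 1) (nat_lit 0x44004000e0008006082))) (.nd (nat_lit 8) 
(.lf (nat_lit 1346764906) (dlOf (nat_lit 1) (nat_lit 0x1400400060009000a02))) 
(.lf (nat_lit 3490057578) (dlOf (nat_lit 1) (nat_lit 0x400200020008006b02))))) (.nd (nat_lit 27) 
(.nd (nat_lit 30) (.lf (nat_lit 4563796010) (dlOf (nat_lit 1) (nat_lit 0xb8004008800080e0b02))) 
(.lf (nat_lit 5637537834) (dlOf (nat_lit 1) (nat_lit 0x20008100301)))) 
(.lf (nat_lit 4698013738) (dlOf (nat_lit 2) (nat_lit 0x101980004c0801380080010002009400080e0b03))))) 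
(.nd (nat_lit 27) (.nd (nat_lit 29) 
(.lf (nat_lit 1409679402) (dlOf (nat_lit 3) (nat_lit 0x802e8016014800a80660003f0600240520010019800000100018008004000200060008070883))) 
(.lf (nat_lit 6241517610) (dlOf (nat_lit 1) (nat_lit 0x20008100301)))) (.nd (nat_lit 6) 
(.nd (nat_lit 20) 
(.lf (nat_lit 3154509866) (dlOf (nat_lit 2) (nat_lit 0x7027802400c8019804600a001c00a800a8001502801500080058002008c00081f0683))) 
(.lf (nat_lit 471203882) (dlOf (nat_lit 2) (nat_lit 0x46125000440182c0780)))) 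
(.lf (nat_lit 470155498) (dlOf (nat_lit 1) (nat_lit 0x8008000400200020008066b83))))))) 
(.nd (nat_lit 26) (.nd (nat_lit 23) (.nd (nat_lit 28) (.nd (nat_lit 27) (.nd (nat_lit 20) 
(.nd (nat_lit 25) (.lf (nat_lit 1074167850) (dlOf (nat_lit 1) (nat_lit 0x10002000400080d0a02))) 
(.lf (nat_lit 33980458) (dlOf (nat_lit 1) (nat_lit 0x20028f90201)))) 
(.lf (nat_lit 5668906) (dlOf (nat_lit 1) (nat_lit 0x400183c0701)))) (.nd (nat_lit 6) 
(.lf (nat_lit 134644266) (dlOf (nat_lit 1) (nat_lit 0x18008009c002000e0008090e83))) 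
(.lf (nat_lit 134644202) (dlOf (nat_lit 2) (nat_lit 0x10c082000203000001828090d00))))) 
(.nd (nat_lit 30) (.nd (nat_lit 27) 
(.lf (nat_lit 4563828778) (dlOf (nat_lit 2) (nat_lit 0xe01400040088002804000d800e0001908002c00080f0c81))) 
(.lf (nat_lit 4698046506) (dlOf (nat_lit 2) (nat_lit 0xe01400040088002804000d800e0001a08002c00080f0c81)))) 
(.nd (nat_lit 8) (.lf (nat_lit 4026957866) (dlOf (nat_lit 1) (nat_lit 0x200080e0601))) 
(.lf (nat_lit 3490090282) (dlOf (nat_lit 1) (nat_lit 0x400200020008006802)))))) (.nd (nat_lit 20) 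
(.nd (nat_lit 7) (.lf (nat_lit 48660522) (dlOf (nat_lit 1) (nat_lit 0xa0029420201))) 
(.lf (nat_lit 59147434) (dlOf (nat_lit 3) (nat_lit 0x31f900016c0800413cc00109360002304000400197e2c01)))) 
(.nd (nat_lit 6) (.lf (nat_lit 26640426) (dlOf (nat_lit 1) (nat_lit 0x60018c50381))) 
(.lf (nat_lit 49709162) (dlOf (nat_lit 3) (nat_lit 0x1a9ec000680400254600001502000e0029480a01)))))) 
(.nd (nat_lit 6) (.nd (nat_lit 9) (.nd (nat_lit 28) 
(.lf (nat_lit 3288760362) (dlOf (nat_lit 1) (nat_lit 0x200080e0601))) 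
(.lf (nat_lit 1946583082) (dlOf (nat_lit 1) (nat_lit 0x10002000400080d0a02)))) 
(.lf (nat_lit 201753130) (dlOf (nat_lit 1) (nat_lit 0x18008009c002000e0008090e83)))) 
(.nd (nat_lit 7) (.nd (nat_lit 8) 
(.lf (nat_lit 1678147690) (dlOf (nat_lit 1) (nat_lit 0x30004000600081a0002))) 
(.lf (nat_lit 2751891306) (dlOf (nat_lit 1) (nat_lit 0x20028004001)))) (.nd (nat_lit 8) 
(.lf (nat_lit 738623722) (dlOf (nat_lit 1) (nat_lit 0x200280c1e01))) 
(.lf (nat_lit 201753066) (dlOf (nat_lit 2) (nat_lit 0x10c082000203000001828090d00)))))))) 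
(.nd (nat_lit 7) (.nd (nat_lit 6) (.nd (nat_lit 23) (.nd (nat_lit 15) (.nd (nat_lit 9) 
(.lf (nat_lit 68026410) (dlOf (nat_lit 1) (nat_lit 0x18002000400083a0702))) 
(.lf (nat_lit 19796522) (dlOf (nat_lit 1) (nat_lit 0x80080004002000200089d8983)))) 
(.nd (nat_lit 20) (.lf (nat_lit 53379114) (dlOf (nat_lit 1) (nat_lit 0x8c004002600195b0302))) 
(.lf (nat_lit 22970410) (dlOf (nat_lit 1) (nat_lit 0x20018b40701))))) (.nd (nat_lit 20) 
(.nd (nat_lit 15) 
(.lf (nat_lit 11403306) (dlOf (nat_lit 2) (nat_lit 0x9ca22004e465000080286a0800))) 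
(.lf (nat_lit 11436074) (dlOf (nat_lit 3) (nat_lit 0xf800000050040010a420001002002c00086a0801)))) 
(.nd (nat_lit 21) (.lf (nat_lit 10354730) (dlOf (nat_lit 1) (nat_lit 0xc00185d0601))) 
(.lf (nat_lit 16646186) (dlOf (nat_lit 1) (nat_lit 0x180080004002000c00088c0783)))))) 
(.nd (nat_lit 9) (.nd (nat_lit 24) (.nd (nat_lit 8) 
(.lf (nat_lit 473858154) (dlOf (nat_lit 1) (nat_lit 0x10008005800200220008fc0a03))) 
(.lf (nat_lit 1345194346) (dlOf (nat_lit 4) (nat_lit 0x7216500b4101002c0b28059f408010059402bf604000c00400040008b04e82)))) 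
(.nd (nat_lit 21) (.lf (nat_lit 26116202) (dlOf (nat_lit 1) (nat_lit 0x180028c10281))) 
(.lf (nat_lit 53379178) (dlOf (nat_lit 1) (nat_lit 0xe00080004002002c00095b0783))))) 
(.nd (nat_lit 12) (.nd (nat_lit 8) 
(.lf (nat_lit 8258154) (dlOf (nat_lit 1) (nat_lit 0x40018511801))) 
(.lf (nat_lit 19794794) (dlOf (nat_lit 1) (nat_lit 0x4002000200089d5c02)))) (.nd (nat_lit 10) 
(.lf (nat_lit 19796586) (dlOf (nat_lit 1) (nat_lit 0x200080004002000200089d8983))) 
(.lf (nat_lit 19797610) (dlOf (nat_lit 1) (nat_lit 0x4002000200089d9c02))))))) (.nd (nat_lit 9) 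
(.nd (nat_lit 6) (.nd (nat_lit 10) (.nd (nat_lit 11) 
(.lf (nat_lit 4095607210) (dlOf (nat_lit 1) (nat_lit 0xe80080090002001e00080e1003))) 
(.lf (nat_lit 2754480554) (dlOf (nat_lit 1) (nat_lit 0x200080f4e81)))) (.nd (nat_lit 8) 
(.lf (nat_lit 2754481322) (dlOf (nat_lit 2) (nat_lit 0x800cc00280400000a0280f6280))) 
(.lf (nat_lit 19797418) (dlOf (nat_lit 1) (nat_lit 0x200089d9901))))) (.nd (nat_lit 8) 
(.nd (nat_lit 20) (.nd (nat_lit 26) 
(.lf (nat_lit 2819522794) (dlOf (nat_lit 2) (nat_lit 0xf0000001ac04000c002000800082c0602))) 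
(.lf (nat_lit 3557720298) (dlOf (nat_lit 2) (nat_lit 0xf00000019004000c002000800082c0602)))) 
(.lf (nat_lit 20873450) (dlOf (nat_lit 1) (nat_lit 0x12600289e4401)))) (.nd (nat_lit 12) 
(.lf (nat_lit 3490611690) (dlOf (nat_lit 21) (nat_lit 0x331180000dc0813588c00005c0409c04600002d0200c0230000160102671180000a4080d288c00004e040a2846000026020454230000128100bf0f300008c0814a079800642a4000220401a21e60000f0101320f30000700808d8798000360408cc46000012020208230000080100151180000380800788c0000160409244600000702014823000002010231118000a08b8000000801fc00400020018017302))) 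
(.lf (nat_lit 19796458) (dlOf (nat_lit 1) (nat_lit 0xa00289d8681)))))) (.nd (nat_lit 11) 
(.nd (nat_lit 6) (.nd (nat_lit 8) 
(.lf (nat_lit 19797674) (dlOf (nat_lit 1) (nat_lit 0x4002000200089da002))) 
(.lf (nat_lit 19792810) (dlOf (nat_lit 1) (nat_lit 0x80080004002000400089d2683)))) 
(.nd (nat_lit 10) (.lf (nat_lit 19792618) (dlOf (nat_lit 1) (nat_lit 0x80080030002000800089d2103))) 
(.lf (nat_lit 19797738) (dlOf (nat_lit 1) (nat_lit 0x100080004002000400089da003))))) 
(.nd (nat_lit 12) (.nd (nat_lit 6) 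
(.lf (nat_lit 19794602) (dlOf (nat_lit 1) (nat_lit 0x200089d5681))) 
(.lf (nat_lit 19795690) (dlOf (nat_lit 1) (nat_lit 0x4004000200089d7402)))) (.nd (nat_lit 15) 
(.lf (nat_lit 19798762) (dlOf (nat_lit 1) (nat_lit 0x4004000200089db982))) 
(.lf (nat_lit 19831530) (dlOf (nat_lit 1) (nat_lit 0x4002000200089db982))))))))))) 
(.nd (nat_lit 15) (.nd (nat_lit 5) (.nd (nat_lit 28) (.nd (nat_lit 18) (.nd (nat_lit 8) 
(.nd (nat_lit 19) (.nd (nat_lit 7) (.nd (nat_lit 6) (.nd (nat_lit 21) (.nd (nat_lit 26) 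
(.lf (nat_lit 4832034826) (dlOf (nat_lit 1) (nat_lit 0x80080004002008a0008090003))) 
(.lf (nat_lit 4899143690) (dlOf (nat_lit 1) (nat_lit 0x4004002a0008090082)))) 
(.lf (nat_lit 2293770) (dlOf (nat_lit 1) (nat_lit 0x80004001e0008150002)))) (.nd (nat_lit 9) 
(.lf (nat_lit 4496490570) (dlOf (nat_lit 3) (nat_lit 0xcb00d0001080800500280006c04002800400180008090502))) 
(.lf (nat_lit 4362273354) (dlOf (nat_lit 1) (nat_lit 0x180008018d01))))) (.nd (nat_lit 10) 
(.nd (nat_lit 12) 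
(.lf (nat_lit 1208158858) (dlOf (nat_lit 1) (nat_lit 0x10008000400200020008095483))) 
(.lf (nat_lit 8592010) (dlOf (nat_lit 1) (nat_lit 0x8002851b681)))) (.nd (nat_lit 6) 
(.lf (nat_lit 2281903242) (dlOf (nat_lit 1) (nat_lit 0x50008003c002001800080a9503))) 
(.lf (nat_lit 5905778378) (dlOf (nat_lit 1) (nat_lit 0x10008000c00200060008143a83)))))) 
(.nd (nat_lit 27) (.nd (nat_lit 6) (.nd (nat_lit 11) 
(.lf (nat_lit 21692426) (dlOf (nat_lit 1) (nat_lit 0x80018a60a01))) 
(.lf (nat_lit 722954) (dlOf (nat_lit 1) (nat_lit 0xc00400020018004702)))) 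
(.lf (nat_lit 2754281546) (dlOf (nat_lit 1) (nat_lit 0x200080038002001400080d0d03)))) 
(.nd (nat_lit 26) (.nd (nat_lit 29) 
(.lf (nat_lit 134938634) (dlOf (nat_lit 1) (nat_lit 0xb4004002a00080e0002))) 
(.lf (nat_lit 2819293194) (dlOf (nat_lit 1) (nat_lit 0x20008220281)))) 
(.lf (nat_lit 202047498) (dlOf (nat_lit 1) (nat_lit 0xb4004002a00080e0002)))))) (.nd (nat_lit 6) 
(.nd (nat_lit 21) (.nd (nat_lit 7) 
(.lf (nat_lit 2885880074) (dlOf (nat_lit 1) (nat_lit 0x8008000400200020008144b83))) 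
(.nd (nat_lit 11) (.lf (nat_lit 1610809738) (dlOf (nat_lit 1) (nat_lit 0x800200020008091002))) 
(.lf (nat_lit 738920842) (dlOf (nat_lit 1) (nat_lit 0x400200020008124e82))))) (.nd (nat_lit 19) 
(.nd (nat_lit 20) (.lf (nat_lit 31656330) (dlOf (nat_lit 1) (nat_lit 0x60018e94e81))) 
(.lf (nat_lit 36899210) (dlOf (nat_lit 1) (nat_lit 0x8008000400200920009074e83)))) 
(.lf (nat_lit 37423498) (dlOf (nat_lit 1) (nat_lit 0x200190d4e81))))) (.nd (nat_lit 9) 
(.nd (nat_lit 7) (.lf (nat_lit 3342666) (dlOf (nat_lit 1) (nat_lit 0x2400400080018200602))) 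
(.lf (nat_lit 2818773450) (dlOf (nat_lit 1) (nat_lit 0x400200020008128682)))) (.nd (nat_lit 10) 
(.nd (nat_lit 12) (.lf (nat_lit 20122442) (dlOf (nat_lit 1) (nat_lit 0x4002000200089d5c02))) 
(.lf (nat_lit 203594) (dlOf (nat_lit 2) (nat_lit 0x800c0058201800bc80)))) 
(.lf (nat_lit 2818772810) (dlOf (nat_lit 1) (nat_lit 0x20018127781))))))) (.nd (nat_lit 6) 
(.nd (nat_lit 22) (.nd (nat_lit 7) (.nd (nat_lit 20) (.nd (nat_lit 27) 
(.lf (nat_lit 3758555146) (dlOf (nat_lit 1) (nat_lit 0x800400040008290282))) 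
(.lf (nat_lit 3892772874) (dlOf (nat_lit 1) (nat_lit 0xc0008000400200220008250283)))) 
(.lf (nat_lit 9895946) (dlOf (nat_lit 1) (nat_lit 0x8008000400200020008590083)))) (.nd (nat_lit 8) 
(.lf (nat_lit 2031754) (dlOf (nat_lit 1) (nat_lit 0x18008000400200080008150103))) 
(.lf (nat_lit 19860362) (dlOf (nat_lit 1) (nat_lit 0x80080004002000200089d5c03))))) 
(.nd (nat_lit 7) (.nd (nat_lit 8) (.nd (nat_lit 20) 
(.lf (nat_lit 15138826) (dlOf (nat_lit 2) (nat_lit 0x7e0140028a040014004003c00187c0482))) 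
(.lf (nat_lit 22478858) (dlOf (nat_lit 2) (nat_lit 0x16d5f4003e988000bc028ae0480)))) 
(.lf (nat_lit 8323850) (dlOf (nat_lit 1) (nat_lit 0x2c0018512101)))) (.nd (nat_lit 8) 
(.lf (nat_lit 54984842) (dlOf (nat_lit 3) (nat_lit 0xfb131800bc97800404ba000190300052630000b8080098008006c002005e0009680f03))) 
(.lf (nat_lit 54985098) (dlOf (nat_lit 1) (nat_lit 0xe800801a400200ea0009685d83)))))) 
(.nd (nat_lit 19) (.nd (nat_lit 29) (.nd (nat_lit 20) (.nd (nat_lit 24) (.nd (nat_lit 30) 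
(.lf (nat_lit 6442909770) (dlOf (nat_lit 1) (nat_lit 0x800400020008220d02))) 
(.lf (nat_lit 1074200650) (dlOf (nat_lit 1) (nat_lit 0x200180d0d01)))) 
(.lf (nat_lit 17236042) (dlOf (nat_lit 1) (nat_lit 0xc002000200088e0102)))) 
(.lf (nat_lit 37158986) (dlOf (nat_lit 1) (nat_lit 0x2600090b0601)))) (.nd (nat_lit 26) 
(.lf (nat_lit 1611071562) (dlOf (nat_lit 2) (nat_lit 0xde02a0001b0180d0500))) 
(.lf (nat_lit 738656330) (dlOf (nat_lit 2) (nat_lit 0xde02a0001c0180d0500))))) (.nd (nat_lit 7) 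
(.nd (nat_lit 8) (.nd (nat_lit 9) 
(.lf (nat_lit 25100362) (dlOf (nat_lit 2) (nat_lit 0xf6eca00030ec00015028be1480))) 
(.lf (nat_lit 19863114) (dlOf (nat_lit 1) (nat_lit 0x4004000200089d9c02)))) 
(.lf (nat_lit 2031946) (dlOf (nat_lit 1) (nat_lit 0x400200020008150602)))) (.nd (nat_lit 9) 
(.lf (nat_lit 2754550986) (dlOf (nat_lit 1) (nat_lit 0x80080004002000200080fc203))) 
(.lf (nat_lit 39783114) (dlOf (nat_lit 1) (nat_lit 0x4004001400091f5802)))))))) (.nd (nat_lit 26) 
(.nd (nat_lit 18) (.nd (nat_lit 6) (.nd (nat_lit 27) (.nd (nat_lit 7) (.nd (nat_lit 9) 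
(.lf (nat_lit 2952986634) (dlOf (nat_lit 2) (nat_lit 0x4400d8003a4080140008003000200540008080483))) 
(.lf (nat_lit 3491430922) (dlOf (nat_lit 3) (nat_lit 0x707ac001b40403283d6000d40200040028090d81)))) 
(.lf (nat_lit 6711083402) (dlOf (nat_lit 1) (nat_lit 0x400400020008091002)))) (.nd (nat_lit 7) 
(.nd (nat_lit 9) 
(.lf (nat_lit 6308429834) (dlOf (nat_lit 6) (nat_lit 0xee00c001c4808003006000e140403a0030007080201d40180037e81008700c001bd8080050008004400200600008080003))) 
(.lf (nat_lit 2013464074) (dlOf (nat_lit 5) (nat_lit 0x810098000d404042804c000690200c20260003401006801300000008016000800ac00200320008093683)))) 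
(.lf (nat_lit 2013462922) (dlOf (nat_lit 1) (nat_lit 0x200080034002000c0008091003))))) 
(.nd (nat_lit 7) (.nd (nat_lit 9) (.nd (nat_lit 19) 
(.lf (nat_lit 6308429898) (dlOf (nat_lit 7) (nat_lit 0xb001b00d500d0074006403e802e015200b009d0048001c830007806c000e2040508036010001a010000c806d005c05340160006f0a000401b00080058001b81008f006c03cc03400e801900ec00b8087002c0004414032803601e201a00e600c8079805c01bc01e017e00b006900380006c380818008068000200440008080503))) 
(.lf (nat_lit 3492479050) (dlOf (nat_lit 1) (nat_lit 0x200080038002001400080d0d03)))) 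
(.lf (nat_lit 939721290) (dlOf (nat_lit 3) (nat_lit 0x318000000ba04018c046001a01f0002a028158d00)))) 
(.nd (nat_lit 8) (.lf (nat_lit 5637341386) (dlOf (nat_lit 1) (nat_lit 0x40002000800080d0882))) 
(.lf (nat_lit 3624077770) (dlOf (nat_lit 1) (nat_lit 0x9c0028144e81)))))) (.nd (nat_lit 21) 
(.nd (nat_lit 6) (.nd (nat_lit 7) (.nd (nat_lit 22) 
(.lf (nat_lit 1342636042) (dlOf (nat_lit 1) (nat_lit 0x200280a0501))) 
(.lf (nat_lit 1346830346) (dlOf (nat_lit 1) (nat_lit 0x40019030101)))) 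
(.lf (nat_lit 3490122122) (dlOf (nat_lit 1) (nat_lit 0x800200020008004e82)))) (.nd (nat_lit 27) 
(.lf (nat_lit 2416378058) (dlOf (nat_lit 1) (nat_lit 0xc00081b0481))) 
(.lf (nat_lit 2550595786) (dlOf (nat_lit 1) (nat_lit 0xc00081b0481))))) (.nd (nat_lit 6) 
(.nd (nat_lit 8) (.lf (nat_lit 3492742154) (dlOf (nat_lit 1) (nat_lit 0x4002000200080f2882))) 
(.nd (nat_lit 10) (.lf (nat_lit 3492743434) (dlOf (nat_lit 1) (nat_lit 0x200180f4b81))) 
(.lf (nat_lit 1344734474) (dlOf (nat_lit 1) (nat_lit 0x20028982f81))))) (.nd (nat_lit 7) 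
(.lf (nat_lit 3492747338) (dlOf (nat_lit 2) (nat_lit 0x1c000000ee0180fa680))) 
(.lf (nat_lit 3492742090) (dlOf (nat_lit 1) (nat_lit 0x200080004002000600080f2883))))))) 
(.nd (nat_lit 19) (.nd (nat_lit 32) (.nd (nat_lit 31) (.nd (nat_lit 6) (.nd (nat_lit 7) 
(.lf (nat_lit 470220810) (dlOf (nat_lit 1) (nat_lit 0x200280a0501))) 
(.lf (nat_lit 1543703946) (dlOf (nat_lit 2) (nat_lit 0x402c0000c018146c80)))) 
(.lf (nat_lit 1946615882) (dlOf (nat_lit 1) (nat_lit 0x200180d0d01)))) (.nd (nat_lit 7) 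
(.nd (nat_lit 29) 
(.lf (nat_lit 3557228554) (dlOf (nat_lit 2) (nat_lit 0x280e000000040014004000c0008170002))) 
(.lf (nat_lit 3020357642) (dlOf (nat_lit 1) (nat_lit 0x800400040008290282)))) 
(.lf (nat_lit 3556971146) (dlOf (nat_lit 1) (nat_lit 0xfc00400800008128b82))))) (.nd (nat_lit 7) 
(.nd (nat_lit 6) 
(.lf (nat_lit 5704450058) (dlOf (nat_lit 6) (nat_lit 0xee00c0032ec0800300600196e0403a003000cb50201d40180065381008700c00327c080050008004400200600008080003))) 
(.nd (nat_lit 18) 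
(.lf (nat_lit 5704450122) (dlOf (nat_lit 7) (nat_lit 0xb001b00d500d0074006403e802e015200b009d0048001c830007806c000e2040508036010001a010000c806d005c05340160006f0a000401b00080058001b81008f006c03cc03400e801900ec00b8087002c0004414032803601e201a00e600c8079805c01bc01e017e00b006900380006c380818008068000200440008080503))) 
(.lf (nat_lit 5838929994) (dlOf (nat_lit 1) (nat_lit 0x800400020008220d02))))) (.nd (nat_lit 8) 
(.lf (nat_lit 4630710922) (dlOf (nat_lit 1) (nat_lit 0x800400020008095482))) (.nd (nat_lit 29) 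
(.lf (nat_lit 4764926346) (dlOf (nat_lit 1) (nat_lit 0x8008003800200020008091003))) 
(.lf (nat_lit 5301797258) (dlOf (nat_lit 1) (nat_lit 0x1a0008091001))))))) (.nd (nat_lit 6) 
(.nd (nat_lit 21) (.nd (nat_lit 18) 
(.lf (nat_lit 470482954) (dlOf (nat_lit 1) (nat_lit 0x220018100681))) 
(.lf (nat_lit 470745098) (dlOf (nat_lit 1) (nat_lit 0x40028170001)))) (.nd (nat_lit 8) 
(.nd (nat_lit 9) 
(.lf (nat_lit 472580106) (dlOf (nat_lit 2) (nat_lit 0x385340196a04001c002003800089c0002))) 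
(.lf (nat_lit 6378160650) (dlOf (nat_lit 1) (nat_lit 0x40028117b01)))) 
(.lf (nat_lit 473628938) (dlOf (nat_lit 5) (nat_lit 0x20a9000483e800481240000e0600040fa0000681000607d0000300800303e80000004019800400460008f63682))))) 
(.nd (nat_lit 18) (.nd (nat_lit 7) (.nd (nat_lit 21) 
(.lf (nat_lit 1410007114) (dlOf (nat_lit 8) (nat_lit 0x52c0ba01aa05a015c02b82b4014800d80940314040004001b00b600cc028404400e201200020040000d05803c00cc000660405740ba023205a015c02b82c00148056408000740360191019800380b80094050020e02200cd00f8039807004400240076008000190e011202e801d816804bc0ae0644052012b019806d008802a403e001001c00670000000c44807301a004440ba02340570005029008480cc01a00000002f0c043c05200013810008029000090080280008018c002001800080c1483))) 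
(.lf (nat_lit 472580170) (dlOf (nat_lit 3) (nat_lit 0x320000002340801600000010a040014002003800089c0602)))) 
(.lf (nat_lit 6376063178) (dlOf (nat_lit 1) (nat_lit 0x70008000800200040008075a03)))) 
(.nd (nat_lit 20) 
(.lf (nat_lit 470745162) (dlOf (nat_lit 2) (nat_lit 0x1387b000643ce000000400820008170681))) 
(.lf (nat_lit 473890890) (dlOf (nat_lit 4) (nat_lit 0x5b06b8005580804005300019e040474298000cd0200020018fc0601))))))))) 
(.nd (nat_lit 18) (.nd (nat_lit 28) (.nd (nat_lit 19) (.nd (nat_lit 7) (.nd (nat_lit 6) 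
(.nd (nat_lit 8) (.nd (nat_lit 9) 
(.lf (nat_lit 30605354) (dlOf (nat_lit 1) (nat_lit 0x40028e40d81))) 
(.lf (nat_lit 134414890) (dlOf (nat_lit 1) (nat_lit 0xa0018017f81)))) (.nd (nat_lit 26) 
(.lf (nat_lit 671287594) (dlOf (nat_lit 1) (nat_lit 0x2000200100008144b82))) 
(.lf (nat_lit 2885880106) (dlOf (nat_lit 1) (nat_lit 0x10008000400200020008144b83))))) 
(.nd (nat_lit 8) (.nd (nat_lit 9) 
(.lf (nat_lit 4496490602) (dlOf (nat_lit 1) (nat_lit 0x10008000400200020008090783))) 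
(.lf (nat_lit 6107105898) (dlOf (nat_lit 1) (nat_lit 0x800400020008095382)))) (.nd (nat_lit 10) 
(.lf (nat_lit 13828458) (dlOf (nat_lit 1) (nat_lit 0x180008750a01))) 
(.lf (nat_lit 3221425514) (dlOf (nat_lit 1) (nat_lit 0x400200020008116b02)))))) (.nd (nat_lit 29) 
(.nd (nat_lit 10) (.nd (nat_lit 23) 
(.lf (nat_lit 4362273194) (dlOf (nat_lit 1) (nat_lit 0x80018017181))) 
(.lf (nat_lit 8585642) (dlOf (nat_lit 1) (nat_lit 0x9000400020008511002)))) (.nd (nat_lit 6) 
(.nd (nat_lit 12) (.lf (nat_lit 8586666) (dlOf (nat_lit 1) (nat_lit 0x400200020008513602))) 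
(.lf (nat_lit 202154) (dlOf (nat_lit 1) (nat_lit 0x20018009901)))) 
(.lf (nat_lit 199914) (dlOf (nat_lit 1) (nat_lit 0x17000800e0002001e0008006503))))) 
(.nd (nat_lit 6) (.nd (nat_lit 8) 
(.lf (nat_lit 2818773162) (dlOf (nat_lit 1) (nat_lit 0x1800800f4002002c0008127d83))) 
(.lf (nat_lit 1610809770) (dlOf (nat_lit 3) (nat_lit 0xb80d4002ac04007c0a6005002100066828091000)))) 
(.nd (nat_lit 8) 
(.lf (nat_lit 2818773738) (dlOf (nat_lit 2) (nat_lit 0x80840004004000c00400060008128d82))) 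
(.lf (nat_lit 1812136426) (dlOf (nat_lit 17) (nat_lit 0x17500c00d0002c050c012031e004018b00100c30000000ba1805e8030035400b013d00480c60010061c00403000000002e0600fa000000148080d8002c04f8012031c004018700100c60000000a21404f802c035a00b013f00480c6801006200040314000000280601d200580da001001e40040350000000260401d300580db801006cc0000004a06039600b01af002000120100db006006f00160370004000200100c08000000841400800160003f02003400b0001e8100e60000000e40800100940002e0400100000000802007a0000000381003200f800000080b20008001000203ae0008157303))))))) 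
(.nd (nat_lit 21) (.nd (nat_lit 29) (.nd (nat_lit 20) (.nd (nat_lit 22) (.nd (nat_lit 23) 
(.lf (nat_lit 4362797098) (dlOf (nat_lit 2) (nat_lit 0x39403300019018100600))) 
(.lf (nat_lit 9109546) (dlOf (nat_lit 2) (nat_lit 0x818c000320200080008520a01)))) 
(.lf (nat_lit 21692458) (dlOf (nat_lit 1) (nat_lit 0x300008a60c81)))) 
(.lf (nat_lit 1769514) (dlOf (nat_lit 3) (nat_lit 0x20b5000202bc005014600040a1000500a8000a82804180000002004001400200340008130802)))) 
(.nd (nat_lit 9) (.nd (nat_lit 27) 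
(.lf (nat_lit 537591850) (dlOf (nat_lit 5) (nat_lit 0xb8c0be000240205d605f0001101002602f8000800800f017c0003e0400dc004004600080c0d02))) 
(.lf (nat_lit 2819293226) (dlOf (nat_lit 1) (nat_lit 0x20008220801)))) (.nd (nat_lit 7) 
(.lf (nat_lit 2753233450) (dlOf (nat_lit 2) (nat_lit 0x310fe80000008004000801f8002001a0008090e83))) 
(.lf (nat_lit 2752186026) (dlOf (nat_lit 1) (nat_lit 0x220028003a81)))))) (.nd (nat_lit 6) 
(.nd (nat_lit 7) (.nd (nat_lit 23) 
(.lf (nat_lit 2754281514) (dlOf (nat_lit 1) (nat_lit 0x1e00180d0a01))) 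
(.lf (nat_lit 11206698) (dlOf (nat_lit 2) (nat_lit 0x6800000064040008002000a0008670602)))) 
(.lf (nat_lit 58393770) (dlOf (nat_lit 1) (nat_lit 0x180080004002000400097e2c03)))) 
(.nd (nat_lit 8) (.lf (nat_lit 48955498) (dlOf (nat_lit 1) (nat_lit 0x8008000400200020009451e83))) 
(.lf (nat_lit 8061802) (dlOf (nat_lit 1) (nat_lit 0x8008018800200560008512583))))))) 
(.nd (nat_lit 7) (.nd (nat_lit 26) (.nd (nat_lit 19) (.nd (nat_lit 6) (.nd (nat_lit 21) 
(.lf (nat_lit 4026728490) (dlOf (nat_lit 2) (nat_lit 0x1101a8000a00801100080004002003c0008070803))) 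
(.lf (nat_lit 1881341994) (dlOf (nat_lit 1) (nat_lit 0x8008000400200040008ea0403)))) 
(.lf (nat_lit 6308429930) (dlOf (nat_lit 3) (nat_lit 0x100c0033a80800080600000004007c004006c0008080782)))) 
(.nd (nat_lit 20) (.nd (nat_lit 31) 
(.lf (nat_lit 1344995370) (dlOf (nat_lit 1) (nat_lit 0x200189b0901))) 
(.lf (nat_lit 3492479018) (dlOf (nat_lit 1) (nat_lit 0x1e00180d0a01)))) (.nd (nat_lit 9) 
(.lf (nat_lit 5773131818) (dlOf (nat_lit 2) (nat_lit 0x184f000064040088004000e00080a0a02))) 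
(.lf (nat_lit 3491430954) (dlOf (nat_lit 2) (nat_lit 0x310f580000008004000801f8002001a0008090e83)))))) 
(.nd (nat_lit 27) (.nd (nat_lit 6) (.nd (nat_lit 20) 
(.lf (nat_lit 1410007082) (dlOf (nat_lit 3) (nat_lit 0x24902f80009008114817c0004404016c004009000080c0c02))) 
(.lf (nat_lit 4095410218) (dlOf (nat_lit 2) (nat_lit 0x60740000c8180b0c80)))) 
(.lf (nat_lit 5704450154) (dlOf (nat_lit 3) (nat_lit 0x100c001d040800080600000004007c004006c0008080782)))) 
(.nd (nat_lit 21) (.nd (nat_lit 29) 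
(.lf (nat_lit 470482986) (dlOf (nat_lit 1) (nat_lit 0x60018100d01))) 
(.lf (nat_lit 4228579370) (dlOf (nat_lit 2) (nat_lit 0x39403200019818100600)))) (.nd (nat_lit 6) 
(.lf (nat_lit 473629226) (dlOf (nat_lit 1) (nat_lit 0x10004001c0008f68982))) 
(.lf (nat_lit 472580202) (dlOf (nat_lit 1) (nat_lit 0x24002003800089c0a02))))))) (.nd (nat_lit 27) 
(.nd (nat_lit 12) (.nd (nat_lit 6) (.nd (nat_lit 9) 
(.lf (nat_lit 6711083434) (dlOf (nat_lit 1) (nat_lit 0x400400020008091002))) 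
(.lf (nat_lit 3556970410) (dlOf (nat_lit 1) (nat_lit 0xc00200040008127982)))) 
(.lf (nat_lit 1342374378) (dlOf (nat_lit 5) (nat_lit 0x2038a0005402000a1cf000260100290e78003872c0009008002439e0003d0200480028017301)))) 
(.nd (nat_lit 6) (.nd (nat_lit 8) 
(.lf (nat_lit 3556971178) (dlOf (nat_lit 1) (nat_lit 0xfc004003c0008128c82))) 
(.lf (nat_lit 3556972458) (dlOf (nat_lit 2) (nat_lit 0x400e00002c0400dc0040006000812a382)))) 
(.lf (nat_lit 3556971242) (dlOf (nat_lit 1) (nat_lit 0x20008128d81))))) (.nd (nat_lit 6) 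
(.nd (nat_lit 10) (.nd (nat_lit 32) 
(.lf (nat_lit 469959082) (dlOf (nat_lit 1) (nat_lit 0x400080024002001a0008017183))) 
(.lf (nat_lit 4764926378) (dlOf (nat_lit 1) (nat_lit 0x8008008c00200020008091003)))) 
(.lf (nat_lit 2013463978) (dlOf (nat_lit 3) (nat_lit 0x1e20260003f0100440130000900800600080014002000c0008093603)))) 
(.nd (nat_lit 8) 
(.lf (nat_lit 2013463786) (dlOf (nat_lit 2) (nat_lit 0x680000005204001400200060008092e82))) 
(.lf (nat_lit 4228055530) (dlOf (nat_lit 33) (nat_lit 0x4404f005e0150001a010047813c0f980540006704023404f010b026807d0108018c0740022030041d01500170068000cc1c000c0540006502004404f0003181002202780018408012813c001408c0004e040006046000268100780278001300805b013c0009404001009e0004602005404f003301500011410036013c0008404022809e07b402a0002082008c0278002813401e8084075a02a0001f84009e0150000f808011013c003c08c00f802a0001e8300200278000e408011013c003009a009002a0001183001502680008808003013c002009a0002104001804d0000901000c0268000400800601340001c04003009a0000c02001c04d0000581000902680001c0800581340000c04001009a0000402001804d0000101000402680000408011013c00380540000004024c0028017301))))))))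 
(.nd (nat_lit 21) (.nd (nat_lit 26) (.nd (nat_lit 22) (.nd (nat_lit 29) (.nd (nat_lit 20) 
(.nd (nat_lit 25) 
(.lf (nat_lit 1074200618) (dlOf (nat_lit 5) (nat_lit 0x400a40006204002005200030020010029000168100080148000ac0800880080024002001400080d0a03))) 
(.lf (nat_lit 34013226) (dlOf (nat_lit 1) (nat_lit 0x400200020008f90202)))) 
(.lf (nat_lit 3491168298) (dlOf (nat_lit 1) (nat_lit 0xc0028070881)))) (.nd (nat_lit 27) 
(.nd (nat_lit 28) (.lf (nat_lit 3758555178) (dlOf (nat_lit 1) (nat_lit 0x13c0018290881))) 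
(.lf (nat_lit 805765162) (dlOf (nat_lit 1) (nat_lit 0x80080008002000200081a0003)))) 
(.lf (nat_lit 3892772906) (dlOf (nat_lit 1) (nat_lit 0x20028250881))))) (.nd (nat_lit 19) 
(.nd (nat_lit 6) (.lf (nat_lit 54984874) (dlOf (nat_lit 1) (nat_lit 0x7000200200009681482))) 
(.lf (nat_lit 47645802) (dlOf (nat_lit 1) (nat_lit 0x2900019402981)))) (.nd (nat_lit 20) 
(.nd (nat_lit 23) 
(.lf (nat_lit 5177386) (dlOf (nat_lit 8) (nat_lit 0x5f5fb80017c08004afdc000ba04025181c0018bf70002c020007607000a2fdc003564a02baa78000253a010ca998000a818001d81c0012bf70000b8200095fb80003808004afdc000020400d4004004c0008320682))) 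
(.lf (nat_lit 13565994) (dlOf (nat_lit 1) (nat_lit 0x400200020008730a02)))) 
(.lf (nat_lit 23003178) (dlOf (nat_lit 4) (nat_lit 0x9b5e008cda70000d0100506d38000660402a369c0003202001c0018b40701)))))) 
(.nd (nat_lit 31) (.nd (nat_lit 27) (.nd (nat_lit 28) 
(.lf (nat_lit 67567658) (dlOf (nat_lit 1) (nat_lit 0x1ac00200100008210882))) (.nd (nat_lit 29) 
(.lf (nat_lit 1409744938) (dlOf (nat_lit 1) (nat_lit 0x8008000400200020008090003))) 
(.lf (nat_lit 1946615850) (dlOf (nat_lit 5) (nat_lit 0x400a40006204002005200030020010029000168100080148000ac0800880080024002001400080d0a03))))) 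
(.nd (nat_lit 19) 
(.lf (nat_lit 470220842) (dlOf (nat_lit 4) (nat_lit 0x30249000a11900050748000540c0098462000180201ea000000080180a0800))) 
(.lf (nat_lit 470745130) (dlOf (nat_lit 5) (nat_lit 0x581e700400bc8000bc10011079c00582f200f40000001703003000000001808006000000006040010004000a0008170382))))) 
(.nd (nat_lit 7) (.nd (nat_lit 20) (.nd (nat_lit 27) 
(.lf (nat_lit 3020357674) (dlOf (nat_lit 1) (nat_lit 0x13c0018290881))) 
(.lf (nat_lit 4228317226) (dlOf (nat_lit 1) (nat_lit 0x2c00080004002005c0008090003)))) 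
(.lf (nat_lit 2752970794) (dlOf (nat_lit 3) (nat_lit 0xb0000000a00803680000001804003c00200060008070802)))) 
(.nd (nat_lit 6) (.lf (nat_lit 2751924138) (dlOf (nat_lit 1) (nat_lit 0x20028004301))) 
(.lf (nat_lit 4094626794) (dlOf (nat_lit 1) (nat_lit 0x400400020008055e82))))))) (.nd (nat_lit 6) 
(.nd (nat_lit 9) (.nd (nat_lit 24) (.nd (nat_lit 19) (.nd (nat_lit 26) 
(.lf (nat_lit 3492216874) (dlOf (nat_lit 1) (nat_lit 0xc004000200080b0e02))) 
(.lf (nat_lit 2754019370) (dlOf (nat_lit 1) (nat_lit 0x4004000200180b0d02)))) (.nd (nat_lit 20) 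
(.lf (nat_lit 11468842) (dlOf (nat_lit 3) (nat_lit 0xba2908000400800314840001c040038002002400086a0802))) 
(.lf (nat_lit 473890858) (dlOf (nat_lit 3) (nat_lit 0x2102000e05a000942cc002a14500240678010805c0005218002c408002416600060a2800a033c006002e000270a006e0028fc0201))))) 
(.nd (nat_lit 10) (.nd (nat_lit 20) 
(.lf (nat_lit 27721770) (dlOf (nat_lit 1) (nat_lit 0xe0028d20781))) 
(.lf (nat_lit 24576042) (dlOf (nat_lit 1) (nat_lit 0x480080020002000a0008ba0a03)))) 
(.lf (nat_lit 57082922) (dlOf (nat_lit 1) (nat_lit 0x40019792881))))) (.nd (nat_lit 7) 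
(.nd (nat_lit 22) (.lf (nat_lit 62327338) (dlOf (nat_lit 1) (nat_lit 0x400299a5181))) 
(.lf (nat_lit 41355818) (dlOf (nat_lit 1) (nat_lit 0xc0019245181)))) (.nd (nat_lit 8) 
(.lf (nat_lit 2754547370) (dlOf (nat_lit 1) (nat_lit 0x80080008002000200080f7283))) 
(.lf (nat_lit 2754550698) (dlOf (nat_lit 3) (nat_lit 0x503c8008a80800281e40042a040024002001000080fbd02)))))) 
(.nd (nat_lit 8) (.nd (nat_lit 9) (.nd (nat_lit 19) 
(.lf (nat_lit 48693354) (dlOf (nat_lit 1) (nat_lit 0x90002000c0009420a02))) 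
(.lf (nat_lit 473890922) (dlOf (nat_lit 1) (nat_lit 0xc8004002a0008fc0a02)))) (.nd (nat_lit 7) 
(.lf (nat_lit 8324714) (dlOf (nat_lit 1) (nat_lit 0x20018513901))) 
(.lf (nat_lit 8324842) (dlOf (nat_lit 1) (nat_lit 0x200080038002000a0008513b03))))) 
(.nd (nat_lit 7) (.nd (nat_lit 11) 
(.lf (nat_lit 50267498) (dlOf (nat_lit 4) (nat_lit 0x69ce80007c04004ce740003a020028744000f3a18000d41001b00080078002000200094c3483))) 
(.lf (nat_lit 2754551146) (dlOf (nat_lit 1) (nat_lit 0x80080008002000200080fc903)))) 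
(.nd (nat_lit 10) (.lf (nat_lit 3492742122) (dlOf (nat_lit 1) (nat_lit 0x200180f2881))) 
(.lf (nat_lit 3492743146) (dlOf (nat_lit 1) (nat_lit 0x200180f4601)))))))))) (.nd (nat_lit 5) 
(.nd (nat_lit 28) (.nd (nat_lit 18) (.nd (nat_lit 8) (.nd (nat_lit 9) (.nd (nat_lit 27) 
(.nd (nat_lit 21) (.nd (nat_lit 10) (.nd (nat_lit 22) 
(.lf (nat_lit 3288563722) (dlOf (nat_lit 1) (nat_lit 0x20018090001))) 
(.lf (nat_lit 63143946) (dlOf (nat_lit 1) (nat_lit 0x30004002000199e0002)))) 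
(.lf (nat_lit 2751693834) (dlOf (nat_lit 1) (nat_lit 0x400200020008002882)))) (.nd (nat_lit 19) 
(.nd (nat_lit 20) 
(.lf (nat_lit 56852490) (dlOf (nat_lit 2) (nat_lit 0x1499f003b0a040010004000c0019770002))) 
(.lf (nat_lit 24346634) (dlOf (nat_lit 1) (nat_lit 0x18008001000200040008b90683)))) 
(.nd (nat_lit 7) (.lf (nat_lit 45842442) (dlOf (nat_lit 1) (nat_lit 0x8004000c0019360002))) 
(.lf (nat_lit 23822474) (dlOf (nat_lit 1) (nat_lit 0x120008b80101)))))) (.nd (nat_lit 19) 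
(.nd (nat_lit 26) 
(.lf (nat_lit 134447114) (dlOf (nat_lit 7) (nat_lit 0xd405e001b902003e02f000da0100430178006b00802700bc0035404013805e001a802004802f000d3818020480))) 
(.nd (nat_lit 29) 
(.lf (nat_lit 201555978) (dlOf (nat_lit 7) (nat_lit 0x7c05e0012802009c02f000900100430178004780802700bc0023804009005e0011b02006a02f0008a018020480))) 
(.lf (nat_lit 1812168714) (dlOf (nat_lit 2) (nat_lit 0x2000000ef818160480))))) (.nd (nat_lit 11) 
(.lf (nat_lit 3893067786) (dlOf (nat_lit 1) (nat_lit 0xc0018360001))) 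
(.lf (nat_lit 134973450) (dlOf (nat_lit 1) (nat_lit 0x3380080004002000600080f4703)))))) 
(.nd (nat_lit 26) (.nd (nat_lit 25) (.nd (nat_lit 6) 
(.lf (nat_lit 2684589578) (dlOf (nat_lit 1) (nat_lit 0x200180a9c01))) 
(.lf (nat_lit 537100874) (dlOf (nat_lit 1) (nat_lit 0x20018018d01)))) (.nd (nat_lit 19) 
(.lf (nat_lit 41124362) (dlOf (nat_lit 1) (nat_lit 0x38008000400200020009227b03))) 
(.lf (nat_lit 51085834) (dlOf (nat_lit 1) (nat_lit 0x8004000400194f7b02))))) (.nd (nat_lit 7) 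
(.lf (nat_lit 3288564234) (dlOf (nat_lit 1) (nat_lit 0x20018090d81))) (.nd (nat_lit 27) 
(.lf (nat_lit 5436050058) (dlOf (nat_lit 1) (nat_lit 0x2800200100008095482))) 
(.lf (nat_lit 738429578) (dlOf (nat_lit 2) (nat_lit 0x381a000040bc000290400020018095481))))))) 
(.nd (nat_lit 6) (.nd (nat_lit 11) (.nd (nat_lit 12) (.nd (nat_lit 30) 
(.lf (nat_lit 4832067978) (dlOf (nat_lit 1) (nat_lit 0x4004000200080d1002))) 
(.lf (nat_lit 1610842506) (dlOf (nat_lit 1) (nat_lit 0x40018091001)))) (.nd (nat_lit 7) 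
(.lf (nat_lit 8099082) (dlOf (nat_lit 1) (nat_lit 0x8008000400200020008519603))) 
(.lf (nat_lit 20156810) (dlOf (nat_lit 1) (nat_lit 0x200289d8381))))) (.nd (nat_lit 9) 
(.nd (nat_lit 22) (.nd (nat_lit 30) 
(.lf (nat_lit 6509791626) (dlOf (nat_lit 1) (nat_lit 0x1d60028144e81))) 
(.lf (nat_lit 5436049802) (dlOf (nat_lit 2) (nat_lit 0x10088037080800c0008009c00200800008094e83)))) 
(.lf (nat_lit 54757770) (dlOf (nat_lit 1) (nat_lit 0x50004001a0009654e82)))) 
(.lf (nat_lit 4899179402) (dlOf (nat_lit 1) (nat_lit 0x51c002023a00080d5c02))))) (.nd (nat_lit 9) 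
(.nd (nat_lit 20) (.nd (nat_lit 7) 
(.lf (nat_lit 2326858) (dlOf (nat_lit 2) (nat_lit 0xc36770000cc080258008029c00200e60008150603))) 
(.lf (nat_lit 23298506) (dlOf (nat_lit 2) (nat_lit 0x365f800000080040008004c00200080008b80983)))) 
(.nd (nat_lit 12) (.lf (nat_lit 3375434) (dlOf (nat_lit 1) (nat_lit 0x120028200601))) 
(.lf (nat_lit 8098122) (dlOf (nat_lit 1) (nat_lit 0x400200020008518282))))) (.nd (nat_lit 7) 
(.nd (nat_lit 20) 
(.lf (nat_lit 4899179338) (dlOf (nat_lit 2) (nat_lit 0x100640008e02000200180d5c01))) 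
(.lf (nat_lit 20155210) (dlOf (nat_lit 1) (nat_lit 0x4002000200089d5c02)))) (.nd (nat_lit 11) 
(.lf (nat_lit 4832068554) (dlOf (nat_lit 1) (nat_lit 0x200180d2881))) 
(.lf (nat_lit 4899179466) (dlOf (nat_lit 1) (nat_lit 0x4004000200080d5d82)))))))) (.nd (nat_lit 19) 
(.nd (nat_lit 26) (.nd (nat_lit 20) (.nd (nat_lit 29) (.nd (nat_lit 7) (.nd (nat_lit 8) 
(.lf (nat_lit 27754506) (dlOf (nat_lit 1) (nat_lit 0x5e0018d20281))) 
(.lf (nat_lit 8885002) (dlOf (nat_lit 1) (nat_lit 0x1a0028518f81)))) 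
(.lf (nat_lit 495498) (dlOf (nat_lit 1) (nat_lit 0x2a0028007781)))) (.nd (nat_lit 6) 
(.nd (nat_lit 27) 
(.lf (nat_lit 5906071562) (dlOf (nat_lit 3) (nat_lit 0xc0170006201000c00b8002dc080068008000400200080008190583))) 
(.lf (nat_lit 2819063818) (dlOf (nat_lit 3) (nat_lit 0xe408402d60360031f82000501b0018f0080230008007800200360008190283)))) 
(.lf (nat_lit 3758587978) (dlOf (nat_lit 1) (nat_lit 0x80080004002000200082c0103))))) 
(.nd (nat_lit 6) (.nd (nat_lit 21) 
(.lf (nat_lit 9928714) (dlOf (nat_lit 1) (nat_lit 0x8008000400200020008590083))) 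
(.lf (nat_lit 37191690) (dlOf (nat_lit 1) (nat_lit 0x4004000200090b0002)))) 
(.lf (nat_lit 37191754) (dlOf (nat_lit 1) (nat_lit 0x19400090b0601))))) (.nd (nat_lit 7) 
(.nd (nat_lit 31) (.lf (nat_lit 4362567690) (dlOf (nat_lit 1) (nat_lit 0x120028090001))) 
(.lf (nat_lit 6510051338) (dlOf (nat_lit 3) (nat_lit 0xc0170006201000c00b8002dc080068008000400200080008190583)))) 
(.nd (nat_lit 8) (.nd (nat_lit 10) 
(.lf (nat_lit 2886172810) (dlOf (nat_lit 1) (nat_lit 0x120028183d01))) 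
(.lf (nat_lit 604472458) (dlOf (nat_lit 4) (nat_lit 0x1b00c000d003c005e0000000303000701800028078000400000005060018030000900f00028000000000c0024002000400082d2b02)))) 
(.lf (nat_lit 68651402) (dlOf (nat_lit 1) (nat_lit 0x220028664e81)))))) (.nd (nat_lit 6) 
(.nd (nat_lit 9) (.nd (nat_lit 21) 
(.lf (nat_lit 14647306) (dlOf (nat_lit 1) (nat_lit 0x8008014c00200be0008770003))) 
(.lf (nat_lit 12550154) (dlOf (nat_lit 1) (nat_lit 0x400186d0681)))) (.nd (nat_lit 7) 
(.lf (nat_lit 8357386) (dlOf (nat_lit 1) (nat_lit 0xe0028513681))) 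
(.lf (nat_lit 19895946) (dlOf (nat_lit 1) (nat_lit 0x4002000200089d9e02))))) (.nd (nat_lit 7) 
(.nd (nat_lit 9) (.lf (nat_lit 13598794) (dlOf (nat_lit 1) (nat_lit 0x30008001000200500008730d03))) 
(.lf (nat_lit 2752479818) (dlOf (nat_lit 10) (nat_lit 0x370574000d00400102ba0006702032e15d00cd0ae0001981002f8574000840402682ba018e15c0001f8200170ac80008c081050564000440401782b201361570000f0200510ac80c3855c0003808072800400b60008018d02)))) 
(.lf (nat_lit 19894986) (dlOf (nat_lit 1) (nat_lit 0x4002000200089d8c82))))))) (.nd (nat_lit 26) 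
(.nd (nat_lit 27) (.nd (nat_lit 18) (.nd (nat_lit 7) (.nd (nat_lit 6) (.nd (nat_lit 19) 
(.lf (nat_lit 1342406666) (dlOf (nat_lit 3) (nat_lit 0x990e680077c0804807340039404003c00400140008020482))) 
(.lf (nat_lit 1342930954) (dlOf (nat_lit 27) (nat_lit 0x11445e008a22600360d18005a41802a08bc017c44c00901a3000b403006f117803f089801c83460016706000a22f000911300059810012891c00204780032237001d0b980053420010091c0008486000423c001711b800f05cc0029814002448e000a23c000311b80052c1800108f00029404018048e00bc23c006111b802105cc0028a10001448e001223c000a2020015123800388f0011046e002a1c1002c0b980050c2801f08f00022e0400e4478000dc0200462470040121800288f000e846e00121c5001e0e0802885cc001b21c007448e0180243005711b80018734002038a00a61c1003d0b980035c38001091c0224486001a23700010e6800e870400f42e6000d60c00b22470036121802908f0015c46e00941cd004a0e28001070401282e6000cf10001023c00050b98003381000b891c0058486001023c003f11b8012873400ac38a006a173000668700050b980033008002890c00a44780010173000658300081178000680802588bc017044c002c1a30000c030041117803e089802603460001706009422f0084113003d868c0002c0c014045e017422600800d18000541804d0008009800201ea0008110583))))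 
(.lf (nat_lit 1342406730) (dlOf (nat_lit 1) (nat_lit 0xa0008020881)))) (.nd (nat_lit 8) 
(.lf (nat_lit 1879277706) (dlOf (nat_lit 1) (nat_lit 0xa00080038002001000080c0103))) 
(.lf (nat_lit 2416148874) (dlOf (nat_lit 1) (nat_lit 0x80028090781))))) (.nd (nat_lit 8) 
(.nd (nat_lit 6) (.lf (nat_lit 1345815050) (dlOf (nat_lit 1) (nat_lit 0x400400020008e07b02))) 
(.lf (nat_lit 1343193162) (dlOf (nat_lit 1) (nat_lit 0x10008000400200040008190683)))) 
(.nd (nat_lit 7) 
(.lf (nat_lit 3492775690) (dlOf (nat_lit 4) (nat_lit 0x38080000190200080400000b01000e02f0000500800400080014002000600080f3b83))) 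
(.lf (nat_lit 4563896714) (dlOf (nat_lit 1) (nat_lit 0xa0018124e81)))))) (.nd (nat_lit 29) 
(.nd (nat_lit 31) (.nd (nat_lit 6) (.nd (nat_lit 9) 
(.lf (nat_lit 1476624394) (dlOf (nat_lit 7) (nat_lit 0x7400b8040001c011800c005a000000f004007b00c0061005c01c002200e000e00cf00380470000003ac1800e403000d001700350088016003801e800e001d30a00c801700610038004001800e8000001cc08002c000000e401001200000071c08001800800d0002002600080a0483))) 
(.lf (nat_lit 1476889098) (dlOf (nat_lit 4) (nat_lit 0xc03c00080118000a810005007000052040030084000203f000e01e000080e4000406c000e023000700e0000a03800200080038002000a00082d5003)))) 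
(.lf (nat_lit 4697849930) (dlOf (nat_lit 1) (nat_lit 0x7a00080a1681)))) (.nd (nat_lit 6) 
(.nd (nat_lit 8) (.lf (nat_lit 3624370314) (dlOf (nat_lit 1) (nat_lit 0x120028183d01))) 
(.lf (nat_lit 2550366602) (dlOf (nat_lit 1) (nat_lit 0x80028090781)))) 
(.lf (nat_lit 3624111434) (dlOf (nat_lit 3) (nat_lit 0x2c07c001003500080000000441800b0110009407c003e03a001f01b800180d4007c02a003e010001e005000d000000020240008002000c0008146982))))) 
(.nd (nat_lit 9) (.nd (nat_lit 7) 
(.lf (nat_lit 939753482) (dlOf (nat_lit 2) (nat_lit 0x2000000a7018160480))) 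
(.lf (nat_lit 5234722186) (dlOf (nat_lit 1) (nat_lit 0x400180d3601)))) (.nd (nat_lit 6) 
(.lf (nat_lit 5234722314) (dlOf (nat_lit 1) (nat_lit 0x4004000200080d3682))) 
(.lf (nat_lit 3087237706) (dlOf (nat_lit 2) (nat_lit 0xba015000200580088000000720c023400400160008158d02))))))) 
(.nd (nat_lit 18) (.nd (nat_lit 30) (.nd (nat_lit 6) (.nd (nat_lit 7) (.nd (nat_lit 19) 
(.lf (nat_lit 469991434) (dlOf (nat_lit 3) (nat_lit 0x990e68005380804807340027204003c00400140008020482))) 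
(.lf (nat_lit 470515722) (dlOf (nat_lit 27) (nat_lit 0x11445e008a22600360d98005a41802a08bc017c44c00901b3000b403006f117803f089801c83660016706000a22f000911300059810012891c00204780032237001d0b880053420010091c0008486000423c001711b800f05c40029814002448e000a23c000311b80052c1800108f00029404018048e00bc23c006111b802105c40028a10001448e001223c000a2020015123800388f0011046e002a1c1002c0b880050c2801f08f0002260400e4478000dd0200462470040121800288f000e846e00121c5001e0e0802885c4001b21c007448e0180243005711b80018734002038a00a61c1003d0b880035c38001091c0224486001a23700010e6800e870400f42e2000d60c00b22470036121802908f0015c46e00941cd004a0e28001070401282e2000cf10001023c00050b88003381000b891c0058486001023c003f11b8012873400ac38a006a171000668700050b880033008002890c00a447800101710006583000811780007c0802588bc017044c002c1b30000e830041117803e089802603660001c06009422f0084113003d86cc000360c014045e017422600800d98000681804d0008009800201ea0008110583)))) 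
(.nd (nat_lit 8) 
(.lf (nat_lit 1006862474) (dlOf (nat_lit 1) (nat_lit 0xa00080038002001000080c0103))) 
(.lf (nat_lit 5301830026) (dlOf (nat_lit 2) (nat_lit 0x2004c0011a04001400400020008091002))))) 
(.nd (nat_lit 19) (.lf (nat_lit 469991498) (dlOf (nat_lit 1) (nat_lit 0xa0008020881))) 
(.lf (nat_lit 472612938) (dlOf (nat_lit 1) (nat_lit 0x10004002600089c0602))))) (.nd (nat_lit 6) 
(.nd (nat_lit 11) (.nd (nat_lit 19) 
(.lf (nat_lit 3691216906) (dlOf (nat_lit 13) (nat_lit 0x50c03a01ee01c000ed02017d00c00170050023801e02ea000000eb04001100c00098000003a80804d8030001e00f0003004801e8000003a610048c030001cc02000601d003100e0007141000400740038404041803a01a801c017e00b0006ec1805c0074021c038001b204020201d006300b000670100938070005403403d8016000bc03001e00e800018080be000802c8002015800080a0483))) 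
(.lf (nat_lit 3557523466) (dlOf (nat_lit 2) (nat_lit 0x401180157c04002800400020008240282)))) 
(.lf (nat_lit 4228614154) (dlOf (nat_lit 1) (nat_lit 0x9000400040008114702)))) (.nd (nat_lit 7) 
(.nd (nat_lit 8) 
(.lf (nat_lit 4096491594) (dlOf (nat_lit 2) (nat_lit 0x8428a017200000021028120500))) 
(.lf (nat_lit 6241356618) (dlOf (nat_lit 1) (nat_lit 0x2e00280d5c01)))) 
(.lf (nat_lit 3557003978) (dlOf (nat_lit 1) (nat_lit 0x8008000c00200060008128c83)))))) 
(.nd (nat_lit 21) (.nd (nat_lit 27) (.nd (nat_lit 6) 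
(.lf (nat_lit 3557261322) (dlOf (nat_lit 1) (nat_lit 0x84004001e0008190282))) 
(.lf (nat_lit 3020390474) (dlOf (nat_lit 1) (nat_lit 0x80080004002000200082c0103)))) 
(.nd (nat_lit 8) (.lf (nat_lit 1007124490) (dlOf (nat_lit 1) (nat_lit 0x4004000200081b0282))) 
(.lf (nat_lit 470253834) (dlOf (nat_lit 1) (nat_lit 0x1b400400ae00080c0482))))) (.nd (nat_lit 6) 
(.nd (nat_lit 7) (.nd (nat_lit 19) 
(.lf (nat_lit 1009221642) (dlOf (nat_lit 1) (nat_lit 0x4002000200090a0002))) 
(.lf (nat_lit 473923594) (dlOf (nat_lit 2) (nat_lit 0xc16000384018fc0000)))) 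
(.lf (nat_lit 6377933194) (dlOf (nat_lit 1) (nat_lit 0x4004000200080e4e82)))) (.nd (nat_lit 7) 
(.lf (nat_lit 472353354) (dlOf (nat_lit 1) (nat_lit 0x20018985281))) 
(.lf (nat_lit 472353226) (dlOf (nat_lit 2) (nat_lit 0x100e600bf70200020018984e81))))))))) 
(.nd (nat_lit 28) (.nd (nat_lit 18) (.nd (nat_lit 8) (.nd (nat_lit 9) (.nd (nat_lit 23) 
(.nd (nat_lit 21) (.nd (nat_lit 27) 
(.lf (nat_lit 4362305578) (dlOf (nat_lit 1) (nat_lit 0x20008020601))) 
(.lf (nat_lit 1812168746) (dlOf (nat_lit 3) (nat_lit 0x240220002e01001401300011c0800e8008004c002004e0008160503)))) 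
(.nd (nat_lit 6) (.lf (nat_lit 2326570) (dlOf (nat_lit 2) (nat_lit 0x6cee00d0e818150000))) 
(.lf (nat_lit 56852586) (dlOf (nat_lit 2) (nat_lit 0x8936000150200020009770a01))))) 
(.nd (nat_lit 19) 
(.lf (nat_lit 25395242) (dlOf (nat_lit 3) (nat_lit 0x396cbf000198101a265f8000c8080038008003c00200100008c00603))) 
(.nd (nat_lit 22) (.lf (nat_lit 9142314) (dlOf (nat_lit 2) (nat_lit 0x73dc0002d0200080008520a01))) 
(.lf (nat_lit 13336618) (dlOf (nat_lit 1) (nat_lit 0x18008000400200060008720d03)))))) 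
(.nd (nat_lit 6) (.nd (nat_lit 7) (.nd (nat_lit 19) 
(.lf (nat_lit 3288564266) (dlOf (nat_lit 1) (nat_lit 0x20008090e81))) 
(.lf (nat_lit 69960234) (dlOf (nat_lit 1) (nat_lit 0x40008e28981)))) 
(.lf (nat_lit 20158122) (dlOf (nat_lit 1) (nat_lit 0x100080004002000200089da003)))) 
(.nd (nat_lit 10) (.lf (nat_lit 4899179114) (dlOf (nat_lit 1) (nat_lit 0x8004000200080d5382))) 
(.lf (nat_lit 4832069226) (dlOf (nat_lit 1) (nat_lit 0x1b0002009c00080d3902)))))) (.nd (nat_lit 6) 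
(.nd (nat_lit 19) (.nd (nat_lit 26) (.nd (nat_lit 30) 
(.lf (nat_lit 4832068010) (dlOf (nat_lit 1) (nat_lit 0x80080088002000200080d1003))) 
(.lf (nat_lit 1610842538) (dlOf (nat_lit 3) (nat_lit 0xe40420015602009a02100066818091000)))) 
(.lf (nat_lit 5033394602) (dlOf (nat_lit 2) (nat_lit 0x802a0004006000ab028091000)))) 
(.nd (nat_lit 7) 
(.lf (nat_lit 9142570) (dlOf (nat_lit 2) (nat_lit 0x3d14802b68080078008001000200180008525a03))) 
(.lf (nat_lit 48990634) (dlOf (nat_lit 1) (nat_lit 0x20019464e81))))) (.nd (nat_lit 7) 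
(.nd (nat_lit 10) (.lf (nat_lit 9142634) (dlOf (nat_lit 1) (nat_lit 0x30004001e0008527482))) 
(.lf (nat_lit 3221458282) (dlOf (nat_lit 1) (nat_lit 0x400200120008116b02)))) (.nd (nat_lit 9) 
(.nd (nat_lit 31) (.lf (nat_lit 1677951466) (dlOf (nat_lit 1) (nat_lit 0x40028127d01))) 
(.lf (nat_lit 3825435114) (dlOf (nat_lit 15) (nat_lit 0x3e801600cc009006c0000000b818080802c0230012011a000000168300630000000b008075002c000520402640160002702021c00b000130100700058000940802a802c000240400e0016000100200d000b0000701008e00580001c08048802c000080401340160000202010e00b00060000000001001e800801c800200560008157303)))) 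
(.lf (nat_lit 36406250) (dlOf (nat_lit 1) (nat_lit 0x40019072881))))))) (.nd (nat_lit 20) 
(.nd (nat_lit 19) (.nd (nat_lit 22) (.nd (nat_lit 6) (.nd (nat_lit 25) 
(.lf (nat_lit 1611104298) (dlOf (nat_lit 3) (nat_lit 0xe0520000f81000102a80004c0800800080034002004000080e0b03))) 
(.lf (nat_lit 34045994) (dlOf (nat_lit 1) (nat_lit 0x400400020008fa0902)))) 
(.lf (nat_lit 604472682) (dlOf (nat_lit 4) (nat_lit 0x2020000780e8004005400180200004006000200000007e1800100180003a02001c03a000b01b800200d00020054000c02000030000000003000200080040002000a00082d3483)))) 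
(.nd (nat_lit 24) (.lf (nat_lit 4685866) (dlOf (nat_lit 2) (nat_lit 0x1a000000128182a0900))) 
(.lf (nat_lit 55017514) (dlOf (nat_lit 1) (nat_lit 0x8800400120019690302))))) (.nd (nat_lit 7) 
(.nd (nat_lit 6) (.lf (nat_lit 19892778) (dlOf (nat_lit 1) (nat_lit 0x4004000200089d5182))) 
(.lf (nat_lit 19894378) (dlOf (nat_lit 1) (nat_lit 0x200189d7d81)))) (.nd (nat_lit 8) 
(.lf (nat_lit 36668586) (dlOf (nat_lit 1) (nat_lit 0x400200040009072c02))) 
(.lf (nat_lit 2752479658) (dlOf (nat_lit 1) (nat_lit 0xa0018017181)))))) (.nd (nat_lit 21) 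
(.nd (nat_lit 6) (.nd (nat_lit 19) (.nd (nat_lit 23) 
(.lf (nat_lit 2753003562) (dlOf (nat_lit 2) (nat_lit 0x21839c0014000000280400040018070801))) 
(.lf (nat_lit 60260394) (dlOf (nat_lit 1) (nat_lit 0x40019840001)))) 
(.lf (nat_lit 14647338) (dlOf (nat_lit 2) (nat_lit 0x447500019e240005c08006c002004e0008770382)))) 
(.nd (nat_lit 10) (.lf (nat_lit 69173354) (dlOf (nat_lit 1) (nat_lit 0x1800188c0a01))) 
(.lf (nat_lit 47678570) (dlOf (nat_lit 1) (nat_lit 0x400400020019402982))))) (.nd (nat_lit 7) 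
(.nd (nat_lit 9) (.lf (nat_lit 37191722) (dlOf (nat_lit 1) (nat_lit 0x200290b0201))) 
(.lf (nat_lit 41388586) (dlOf (nat_lit 1) (nat_lit 0x60009245181)))) (.nd (nat_lit 6) 
(.nd (nat_lit 10) (.lf (nat_lit 8356266) (dlOf (nat_lit 1) (nat_lit 0x20008511001))) 
(.lf (nat_lit 8357290) (dlOf (nat_lit 1) (nat_lit 0x400200020008513602)))) 
(.lf (nat_lit 28803306) (dlOf (nat_lit 1) (nat_lit 0x48008001800200280008da0603)))))))) 
(.nd (nat_lit 27) (.nd (nat_lit 26) (.nd (nat_lit 6) (.nd (nat_lit 31) (.nd (nat_lit 7) 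
(.nd (nat_lit 19) 
(.lf (nat_lit 1342406698) (dlOf (nat_lit 2) (nat_lit 0x2039a0014d0200100008020501))) 
(.lf (nat_lit 1343979562) (dlOf (nat_lit 2) (nat_lit 0x3c0b10001054801c02380007a0c000800400060008390b02)))) 
(.lf (nat_lit 4563632298) (dlOf (nat_lit 1) (nat_lit 0x40008002c002001400080a2c83)))) 
(.nd (nat_lit 9) (.lf (nat_lit 3492249642) (dlOf (nat_lit 1) (nat_lit 0x200080b0e01))) 
(.lf (nat_lit 4026761770) (dlOf (nat_lit 1) (nat_lit 0x20008090e81))))) (.nd (nat_lit 7) 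
(.nd (nat_lit 8) (.lf (nat_lit 5100505706) (dlOf (nat_lit 1) (nat_lit 0x200180d5381))) 
(.lf (nat_lit 3490155882) (dlOf (nat_lit 1) (nat_lit 0x20018006b01)))) (.nd (nat_lit 18) 
(.lf (nat_lit 805536234) (dlOf (nat_lit 1) (nat_lit 0x20018127301))) 
(.lf (nat_lit 3490677226) (dlOf (nat_lit 14) (nat_lit 0x181180000b80800c08c00005a04005446000029020030230000138100181180000980800c08c00004a0409543cc00d815400450a900008c182378798035039a01e615a01df0aa0086854c07542a4021613a00d709a8000884002605480004204097c3cc00d21540000f0202e40f3002a055000038080bec3cc009a1540000d82001811800000008052800802f40020bc60008017303)))))) 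
(.nd (nat_lit 29) (.nd (nat_lit 6) (.nd (nat_lit 19) 
(.lf (nat_lit 5704482858) (dlOf (nat_lit 1) (nat_lit 0x1c004000c00180c0482))) 
(.lf (nat_lit 3557523498) (dlOf (nat_lit 3) (nat_lit 0xd0230002c40800981240000004008c00400060008240782)))) 
(.lf (nat_lit 3557003370) (dlOf (nat_lit 1) (nat_lit 0x5000200100008127d82)))) (.nd (nat_lit 7) 
(.nd (nat_lit 8) (.lf (nat_lit 872907306) (dlOf (nat_lit 1) (nat_lit 0x4002000200080f8982))) 
(.lf (nat_lit 6241356586) (dlOf (nat_lit 1) (nat_lit 0x4004000200080d5c02)))) 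
(.lf (nat_lit 872645034) (dlOf (nat_lit 2) (nat_lit 0x4022000ab018091000)))))) (.nd (nat_lit 30) 
(.nd (nat_lit 26) (.nd (nat_lit 8) (.nd (nat_lit 18) 
(.lf (nat_lit 939753514) (dlOf (nat_lit 3) (nat_lit 0x24022000590100140130002740800e8008004c002004e0008160503))) 
(.lf (nat_lit 2550628394) (dlOf (nat_lit 1) (nat_lit 0xa00181b0001)))) 
(.lf (nat_lit 4697850154) (dlOf (nat_lit 1) (nat_lit 0x1680080094002002800080a5a03)))) 
(.nd (nat_lit 6) (.nd (nat_lit 19) 
(.lf (nat_lit 469991466) (dlOf (nat_lit 2) (nat_lit 0x2039a001780200100008020501))) 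
(.lf (nat_lit 472612906) (dlOf (nat_lit 4) (nat_lit 0x140b4800c8560006019e00029060068158000138100070ac0000700800300080008002000600089c0203)))) 
(.nd (nat_lit 8) (.lf (nat_lit 473923690) (dlOf (nat_lit 1) (nat_lit 0x2800200120008fc0a02))) 
(.lf (nat_lit 2617475434) (dlOf (nat_lit 1) (nat_lit 0x400180b7481)))))) (.nd (nat_lit 20) 
(.nd (nat_lit 29) (.nd (nat_lit 6) 
(.lf (nat_lit 1476624426) (dlOf (nat_lit 17) (nat_lit 0x9501d802e00bc000de08051c07800fa03a000c01c8001b41800a80f00228076000690400ae03c008e01d803300bc01180420006608004a03c000301d800100bc000ca0c006c0760006202000403c0001501008a01d80009c0804500ec0004a0402340780002402015003c001301c80008c1004880f0000440400580840012041005b01e000880e801a8072002a0000001086000501e00005c0800280e8000200403ec078013603b001901d000980e400000100008004006600180a0682))) 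
(.lf (nat_lit 3624111594) (dlOf (nat_lit 1) (nat_lit 0x8008000400200060008146e83)))) 
(.nd (nat_lit 26) (.lf (nat_lit 6308462634) (dlOf (nat_lit 1) (nat_lit 0x1c004000c00180c0482))) 
(.lf (nat_lit 4228087850) (dlOf (nat_lit 1) (nat_lit 0x20008020601))))) (.nd (nat_lit 7) 
(.nd (nat_lit 26) 
(.lf (nat_lit 5773164586) (dlOf (nat_lit 1) (nat_lit 0x80080054002002800080b0403))) 
(.lf (nat_lit 6377144362) (dlOf (nat_lit 1) (nat_lit 0x80080054002002800080b0403)))) 
(.lf (nat_lit 5772640682) (dlOf (nat_lit 3) (nat_lit 0x420980005800800904c4004c260001560400060028091001)))))))))))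

end

end Pool.Agent.Lib.MP_5854e1_co.Cz

namespace Pool.Agent.Lib.MP_5854e1_co.Cz

noncomputable section

noncomputable def tz135 : DT := (.nd (nat_lit 15) (.nd (nat_lit 5) (.nd (nat_lit 18) 
(.nd (nat_lit 16) (.nd (nat_lit 6) (.nd (nat_lit 31) (.nd (nat_lit 19) (.nd (nat_lit 8) 
(.nd (nat_lit 20) (.nd (nat_lit 22) 
(.lf (nat_lit 604119050) (dlOf (nat_lit 2) (nat_lit 0x40000000002003e0008030001))) 
(.lf (nat_lit 63053834) (dlOf (nat_lit 1) (nat_lit 0x80080004002000200099c0003)))) 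
(.nd (nat_lit 21) (.lf (nat_lit 47325194) (dlOf (nat_lit 1) (nat_lit 0x400293d0081))) 
(.lf (nat_lit 15867914) (dlOf (nat_lit 2) (nat_lit 0xca14004d802000c0018840281))))) 
(.nd (nat_lit 7) (.nd (nat_lit 10) (.nd (nat_lit 20) 
(.lf (nat_lit 16916746) (dlOf (nat_lit 1) (nat_lit 0x18002000c00088e0702))) 
(.lf (nat_lit 11673866) (dlOf (nat_lit 1) (nat_lit 0x2c002001c00086c0482)))) 
(.lf (nat_lit 1409428746) (dlOf (nat_lit 1) (nat_lit 0x40018006681)))) (.nd (nat_lit 20) 
(.lf (nat_lit 805453194) (dlOf (nat_lit 1) (nat_lit 0x680080020002000c000811c903))) 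
(.lf (nat_lit 20069770) (dlOf (nat_lit 1) (nat_lit 0xaa8008013400201be00089dc903)))))) 
(.nd (nat_lit 21) (.nd (nat_lit 20) (.nd (nat_lit 22) 
(.lf (nat_lit 4362739722) (dlOf (nat_lit 2) (nat_lit 0x2d000000000040110002000400080e0582))) 
(.nd (nat_lit 23) (.lf (nat_lit 21635082) (dlOf (nat_lit 1) (nat_lit 0x8008000400200020008a50083))) 
(.lf (nat_lit 13246474) (dlOf (nat_lit 2) (nat_lit 0x746d000000080008008000c00200020008710583))))) 
(.nd (nat_lit 7) (.lf (nat_lit 26877962) (dlOf (nat_lit 1) (nat_lit 0x700080014002000c0008c80483))) 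
(.lf (nat_lit 14295178) (dlOf (nat_lit 1) (nat_lit 0x400400020008750282))))) (.nd (nat_lit 8) 
(.nd (nat_lit 7) (.nd (nat_lit 23) 
(.lf (nat_lit 472522762) (dlOf (nat_lit 1) (nat_lit 0x80080004002001c00089b0103))) 
(.lf (nat_lit 27926538) (dlOf (nat_lit 1) (nat_lit 0x20028d40001)))) 
(.lf (nat_lit 12198026) (dlOf (nat_lit 1) (nat_lit 0xc004000200186c0102)))) (.nd (nat_lit 10) 
(.lf (nat_lit 473571594) (dlOf (nat_lit 5) (nat_lit 0x1d07d000b01fc0001c08000c1f40000d02002e0fa0000601001007d000000080340008002800200140008f63683))) 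
(.lf (nat_lit 36316426) (dlOf (nat_lit 1) (nat_lit 0x20019072f81))))))) (.nd (nat_lit 26) 
(.nd (nat_lit 10) (.nd (nat_lit 9) (.nd (nat_lit 20) 
(.lf (nat_lit 2952929290) (dlOf (nat_lit 2) (nat_lit 0x18807000000040080004007e0018030002))) 
(.lf (nat_lit 3490848778) (dlOf (nat_lit 1) (nat_lit 0x2c00201540008030482)))) 
(.lf (nat_lit 3758236170) (dlOf (nat_lit 1) (nat_lit 0x64004000c0018107b02)))) (.nd (nat_lit 7) 
(.lf (nat_lit 3087148810) (dlOf (nat_lit 1) (nat_lit 0x8008000400200020008143b83))) 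
(.nd (nat_lit 11) 
(.lf (nat_lit 2818712714) (dlOf (nat_lit 3) (nat_lit 0xec02400740000000302000e009000180000000a080084002001600080d2b02))) 
(.lf (nat_lit 3221372042) (dlOf (nat_lit 1) (nat_lit 0x40040002001811c202)))))) (.nd (nat_lit 9) 
(.nd (nat_lit 8) (.nd (nat_lit 19) 
(.lf (nat_lit 2752651274) (dlOf (nat_lit 1) (nat_lit 0x2c00201540008030482))) 
(.lf (nat_lit 4228521994) (dlOf (nat_lit 2) (nat_lit 0x2d000000000040110002000400080e0582)))) 
(.lf (nat_lit 3959564554) (dlOf (nat_lit 1) (nat_lit 0x400400020008114b82)))) (.nd (nat_lit 10) 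
(.nd (nat_lit 11) (.lf (nat_lit 3154256394) (dlOf (nat_lit 1) (nat_lit 0x800200020008137b02))) 
(.lf (nat_lit 3556911626) (dlOf (nat_lit 3) (nat_lit 0x640920002902005804900100000000a010010000800dc002000e00080d5003)))) 
(.lf (nat_lit 4095878666) (dlOf (nat_lit 1) (nat_lit 0x400280e3681))))))) (.nd (nat_lit 28) 
(.nd (nat_lit 30) (.nd (nat_lit 8) (.nd (nat_lit 19) (.nd (nat_lit 10) 
(.lf (nat_lit 25305162) (dlOf (nat_lit 1) (nat_lit 0x30008001000200500008bf0d03))) 
(.lf (nat_lit 8533066) (dlOf (nat_lit 1) (nat_lit 0x28008002000200060008519303)))) 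
(.nd (nat_lit 20) 
(.lf (nat_lit 537534538) (dlOf (nat_lit 5) (nat_lit 0x1602b801b81300002c08011c0ba006605700500260000501802981300000a0400180980000402003800280a0e81))) 
(.lf (nat_lit 10100810) (dlOf (nat_lit 1) (nat_lit 0x100080004002000200085b0883))))) 
(.nd (nat_lit 7) (.nd (nat_lit 9) 
(.lf (nat_lit 50995530) (dlOf (nat_lit 1) (nat_lit 0x200094e8781))) 
(.lf (nat_lit 671229770) (dlOf (nat_lit 1) (nat_lit 0x20008143e81)))) 
(.lf (nat_lit 2751604682) (dlOf (nat_lit 3) (nat_lit 0x414a000110200020bc00007018004480))))) 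
(.nd (nat_lit 26) (.nd (nat_lit 9) (.nd (nat_lit 27) 
(.lf (nat_lit 5368848458) (dlOf (nat_lit 1) (nat_lit 0xc00200040008040502))) 
(.lf (nat_lit 5503066186) (dlOf (nat_lit 1) (nat_lit 0xc00200040008040502)))) 
(.lf (nat_lit 1073881674) (dlOf (nat_lit 5) (nat_lit 0x20290007601000b0148000380800680a4000160400f4052000000201740028018d01)))) 
(.nd (nat_lit 27) 
(.lf (nat_lit 3288473674) (dlOf (nat_lit 2) (nat_lit 0x44040001c00b00019028020880))) 
(.lf (nat_lit 6107045962) (dlOf (nat_lit 2) (nat_lit 0x14a01400025818040500)))))) (.nd (nat_lit 29) 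
(.nd (nat_lit 7) (.nd (nat_lit 9) 
(.lf (nat_lit 6711025738) (dlOf (nat_lit 2) (nat_lit 0x14a01400021018040500))) 
(.lf (nat_lit 2617385546) (dlOf (nat_lit 1) (nat_lit 0x200180a1581)))) (.nd (nat_lit 8) 
(.lf (nat_lit 268574922) (dlOf (nat_lit 1) (nat_lit 0x8008000400200020008081783))) 
(.lf (nat_lit 5637285322) (dlOf (nat_lit 1) (nat_lit 0x44002003e00080d3602))))) (.nd (nat_lit 19) 
(.nd (nat_lit 26) 
(.lf (nat_lit 4026671178) (dlOf (nat_lit 2) (nat_lit 0x44040001c00b00019028020880))) 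
(.lf (nat_lit 5167521866) (dlOf (nat_lit 1) (nat_lit 0x100018080501)))) 
(.lf (nat_lit 805969994) (dlOf (nat_lit 3) (nat_lit 0x1600560000981000602b0000340801880080074002001c0008201483))))))) 
(.nd (nat_lit 31) (.nd (nat_lit 11) (.nd (nat_lit 26) (.nd (nat_lit 19) (.nd (nat_lit 7) 
(.nd (nat_lit 20) (.nd (nat_lit 22) 
(.lf (nat_lit 44245002) (dlOf (nat_lit 1) (nat_lit 0x3cc002015e00092e0002))) 
(.lf (nat_lit 14884874) (dlOf (nat_lit 2) (nat_lit 0x804080000004000400400100018790002)))) 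
(.lf (nat_lit 18030602) (dlOf (nat_lit 1) (nat_lit 0x80000809ec002017a0008900583)))) 
(.nd (nat_lit 6) (.lf (nat_lit 1610817930) (dlOf (nat_lit 1) (nat_lit 0x800200060008091002))) 
(.lf (nat_lit 8598218) (dlOf (nat_lit 1) (nat_lit 0x8008000400200020008518c83))))) (.nd (nat_lit 6) 
(.nd (nat_lit 20) 
(.lf (nat_lit 134946826) (dlOf (nat_lit 3) (nat_lit 0x1407e00220130046c82000a01d801800d8015402e0070506025400280e0001))) 
(.nd (nat_lit 28) (.lf (nat_lit 1777674) (dlOf (nat_lit 1) (nat_lit 0x16800200a60008130502))) 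
(.lf (nat_lit 1343954954) (dlOf (nat_lit 1) (nat_lit 0xa0028380481))))) 
(.lf (nat_lit 20657226) (dlOf (nat_lit 1) (nat_lit 0x20008000c002000800089d9303))))) 
(.nd (nat_lit 28) (.nd (nat_lit 32) (.nd (nat_lit 19) 
(.lf (nat_lit 604184586) (dlOf (nat_lit 6) (nat_lit 0x930058049002a00b00070006003008480000029e1405740300258016036b0088102803c092001c0186007012d000000514380478060038002c063401101b300780ee003801bc00e000c000000a107011500b00720054013800e022c0000009d84009a0000004d808191800808a80020bee0008080483))) 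
(.lf (nat_lit 202055690) (dlOf (nat_lit 3) (nat_lit 0x1407e0022013006be82000a01d801800d8015402e00cb206025400280e0001)))) 
(.nd (nat_lit 6) 
(.lf (nat_lit 4496498698) (dlOf (nat_lit 1) (nat_lit 0x88008004c00200780008090003))) 
(.lf (nat_lit 4496498762) (dlOf (nat_lit 5) (nat_lit 0x14403c029601c013900d80a30068017003001da017004700780d5002c022c012018e007000210a02da00e019e006c0d9c03405d0018035e0058000fc28028807000b8036034e01a004a00b80dc802803a4012000360c01f401a01590050000d0100d1800803b800200300008090503))))) 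
(.nd (nat_lit 7) (.lf (nat_lit 470491146) (dlOf (nat_lit 1) (nat_lit 0x400400020008100682))) 
(.nd (nat_lit 27) 
(.lf (nat_lit 872620426) (dlOf (nat_lit 3) (nat_lit 0x1407400040340004e02000501a0002340800b0008001800200060008091003))) 
(.lf (nat_lit 5301805450) (dlOf (nat_lit 1) (nat_lit 0x60028091001))))))) (.nd (nat_lit 6) 
(.nd (nat_lit 9) (.nd (nat_lit 7) 
(.lf (nat_lit 20131082) (dlOf (nat_lit 1) (nat_lit 0x80080004002000200089d6683))) (.nd (nat_lit 8) 
(.lf (nat_lit 1677928586) (dlOf (nat_lit 2) (nat_lit 0x400000005018114800))) 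
(.lf (nat_lit 38480266) (dlOf (nat_lit 1) (nat_lit 0x60029134e81))))) (.nd (nat_lit 7) 
(.lf (nat_lit 8600074) (dlOf (nat_lit 1) (nat_lit 0x800800040020002000851b283))) (.nd (nat_lit 12) 
(.lf (nat_lit 1208167050) (dlOf (nat_lit 1) (nat_lit 0x400200020008095482))) 
(.lf (nat_lit 20658826) (dlOf (nat_lit 1) (nat_lit 0x18008000c002000200089db683)))))) 
(.nd (nat_lit 12) (.nd (nat_lit 8) 
(.lf (nat_lit 32189002) (dlOf (nat_lit 1) (nat_lit 0xc00200040008ef5282))) (.nd (nat_lit 20) 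
(.lf (nat_lit 1141058378) (dlOf (nat_lit 3) (nat_lit 0x140260003f0100c90130000a80800680080010002000c0008095c03))) 
(.lf (nat_lit 20130634) (dlOf (nat_lit 1) (nat_lit 0x4002000200089d5c02))))) (.nd (nat_lit 20) 
(.lf (nat_lit 211786) (dlOf (nat_lit 2) (nat_lit 0x200650058201800bc80))) 
(.lf (nat_lit 20134730) (dlOf (nat_lit 1) (nat_lit 0x80080008002000200089dbc83))))))) 
(.nd (nat_lit 8) (.nd (nat_lit 7) (.nd (nat_lit 26) (.nd (nat_lit 9) (.nd (nat_lit 11) 
(.lf (nat_lit 2952994826) (dlOf (nat_lit 11) (nat_lit 0x9201500053c08071801004080060014904033602c020b0150095009c016403c02bc00901740000005143001900b0029c0540002009000300000050c200a680b006fc05401c6027000a010808a00240130000001420c03ae02a009e0138006008402a403c0013b08012400400af0018004a81002b801001cc006001260401100040008681000500d8007001c0174006000e90600980018080481))) 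
(.lf (nat_lit 3493013514) (dlOf (nat_lit 3) (nat_lit 0x130074000a80400b80400004e02000400180f4701)))) 
(.lf (nat_lit 3491439114) (dlOf (nat_lit 1) (nat_lit 0x60018090d81)))) (.nd (nat_lit 19) 
(.nd (nat_lit 21) 
(.lf (nat_lit 3691192330) (dlOf (nat_lit 2) (nat_lit 0x4400e0005e00801400080030002005400080a0483))) 
(.lf (nat_lit 2753765386) (dlOf (nat_lit 1) (nat_lit 0x8008001c00200060008090003)))) 
(.lf (nat_lit 3154845706) (dlOf (nat_lit 1) (nat_lit 0x10008000400200040008350003))))) 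
(.nd (nat_lit 6) (.nd (nat_lit 9) (.nd (nat_lit 10) 
(.lf (nat_lit 2147688586) (dlOf (nat_lit 1) (nat_lit 0x8004000600080c0f02))) 
(.lf (nat_lit 2281911434) (dlOf (nat_lit 1) (nat_lit 0x40002002200080a9502)))) 
(.lf (nat_lit 4160960138) (dlOf (nat_lit 2) (nat_lit 0x10158000000800380080028002000200080a9e03)))) 
(.nd (nat_lit 10) (.lf (nat_lit 2147688650) (dlOf (nat_lit 1) (nat_lit 0x1000280c1b81))) 
(.lf (nat_lit 3489869002) (dlOf (nat_lit 1) (nat_lit 0x28008000800200080008006383)))))) 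
(.nd (nat_lit 6) (.nd (nat_lit 7) (.nd (nat_lit 26) 
(.lf (nat_lit 3355652874) (dlOf (nat_lit 1) (nat_lit 0x1800280a8f81))) 
(.lf (nat_lit 3422761738) (dlOf (nat_lit 1) (nat_lit 0x4002000400080a8f82)))) (.nd (nat_lit 10) 
(.lf (nat_lit 3154325898) (dlOf (nat_lit 2) (nat_lit 0x1808c0098c04004c00400040018158382))) 
(.nd (nat_lit 12) (.lf (nat_lit 6509768074) (dlOf (nat_lit 1) (nat_lit 0x340018146c81))) 
(.lf (nat_lit 3489873290) (dlOf (nat_lit 1) (nat_lit 0x2002800c901)))))) (.nd (nat_lit 26) 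
(.nd (nat_lit 7) (.nd (nat_lit 10) 
(.lf (nat_lit 2818781514) (dlOf (nat_lit 2) (nat_lit 0x200e0000cc04004000400060008128282))) 
(.lf (nat_lit 3624086858) (dlOf (nat_lit 1) (nat_lit 0xc00400020018146982)))) 
(.lf (nat_lit 3624085962) (dlOf (nat_lit 1) (nat_lit 0x10c0028144e81)))) (.nd (nat_lit 7) 
(.nd (nat_lit 9) (.lf (nat_lit 2885888330) (dlOf (nat_lit 1) (nat_lit 0x160028144d81))) 
(.lf (nat_lit 3556978506) (dlOf (nat_lit 1) (nat_lit 0xc00400020008127782)))) 
(.lf (nat_lit 3556981194) (dlOf (nat_lit 2) (nat_lit 0x300e0001ea04002c004000a000812b082))))))))) 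
(.nd (nat_lit 28) (.nd (nat_lit 20) (.nd (nat_lit 27) (.nd (nat_lit 22) (.nd (nat_lit 19) 
(.nd (nat_lit 30) (.nd (nat_lit 6) (.nd (nat_lit 11) 
(.lf (nat_lit 6442852362) (dlOf (nat_lit 1) (nat_lit 0x10004000600081e0082))) 
(.lf (nat_lit 8792074) (dlOf (nat_lit 1) (nat_lit 0xa0028514701)))) 
(.lf (nat_lit 4362478026) (dlOf (nat_lit 2) (nat_lit 0x8000cc0000004008400400580008090982)))) 
(.nd (nat_lit 6) (.nd (nat_lit 29) 
(.lf (nat_lit 3221626890) (dlOf (nat_lit 1) (nat_lit 0x70008002000200080008160003))) 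
(.lf (nat_lit 1611014154) (dlOf (nat_lit 1) (nat_lit 0x200080c0001)))) 
(.lf (nat_lit 3288735818) (dlOf (nat_lit 6) (nat_lit 0x78080000530200600400002901002801000011c0800e80800008c0400700400004502015c00180d0d01))))) 
(.nd (nat_lit 9) (.nd (nat_lit 16) (.nd (nat_lit 21) 
(.lf (nat_lit 68034570) (dlOf (nat_lit 1) (nat_lit 0x400183a0081))) 
(.lf (nat_lit 53354506) (dlOf (nat_lit 2) (nat_lit 0x44a700b898195a0000)))) 
(.lf (nat_lit 11477002) (dlOf (nat_lit 1) (nat_lit 0xb28008000400205e800086a0503)))) 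
(.nd (nat_lit 7) (.lf (nat_lit 61810186) (dlOf (nat_lit 1) (nat_lit 0x7000200aa0009923682))) 
(.lf (nat_lit 19868554) (dlOf (nat_lit 1) (nat_lit 0x80080004002000200089d5c03)))))) 
(.nd (nat_lit 16) (.nd (nat_lit 6) (.nd (nat_lit 7) (.nd (nat_lit 19) 
(.lf (nat_lit 15081482) (dlOf (nat_lit 17) (nat_lit 0x268ea00143eb80121f5800c800c03e11d401f07d7011c3eb009d9f500284f5801827ab00f43af801b1d7803a4e6601d87320031f8a010947500821f5c046cfac00e47d400063d6001e1d7c03a0e6600d07320031e08002447500089f5c0018e66006390600228ea00023eb80181f58008cfa8002075f00043990018d830007a3a80054fae009c7d6005f3ea00021eac0008e66001a732003198700013998018a40802823a80114fae0096733003140300063eb80021ccc00c4a08006cfae001c733003110200123eb80186c0802723a80138fae00907330030c03004747500259f5c0118e66005b90600907d7002d80100123eb8016a808003237c00ae80401a4004009c00087b0282))) 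
(.lf (nat_lit 15605770) (dlOf (nat_lit 2) (nat_lit 0x124f0016c4080010008000400200020008810283)))) 
(.lf (nat_lit 21373066) (dlOf (nat_lit 3) (nat_lit 0x12dd90001b01001576400063a5400a5cb20042cf1007c4b00000c82800180080004002000a0008a30f03)))) 
(.nd (nat_lit 8) (.lf (nat_lit 21373130) (dlOf (nat_lit 1) (nat_lit 0xa0018a31b81))) 
(.lf (nat_lit 21373386) (dlOf (nat_lit 1) (nat_lit 0x40028a37101))))) (.nd (nat_lit 19) 
(.nd (nat_lit 7) (.nd (nat_lit 25) 
(.lf (nat_lit 15147018) (dlOf (nat_lit 3) (nat_lit 0x11e7e400dcf56001450400219f9000a10187c0480))) 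
(.lf (nat_lit 48701450) (dlOf (nat_lit 2) (nat_lit 0x4609806864080018008002800200040009420003)))) 
(.lf (nat_lit 40313994) (dlOf (nat_lit 2) (nat_lit 0xc662000110191f2b00)))) (.nd (nat_lit 6) 
(.lf (nat_lit 13574154) (dlOf (nat_lit 1) (nat_lit 0x8008002000200020008730483))) 
(.lf (nat_lit 21962826) (dlOf (nat_lit 1) (nat_lit 0x308008011c00200840008a80f03))))))) 
(.nd (nat_lit 29) (.nd (nat_lit 26) (.nd (nat_lit 7) (.nd (nat_lit 30) 
(.lf (nat_lit 134619146) (dlOf (nat_lit 2) (nat_lit 0x3a03b00651018090000))) 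
(.lf (nat_lit 3355844618) (dlOf (nat_lit 4) (nat_lit 0x3c0680015702000602d0009c010089019000000080398008008c00201440008120083)))) 
(.lf (nat_lit 1208428938) (dlOf (nat_lit 1) (nat_lit 0x4002000200080e4e82)))) (.nd (nat_lit 6) 
(.lf (nat_lit 4496695306) (dlOf (nat_lit 1) (nat_lit 0x88008004c00200780008120003))) 
(.lf (nat_lit 4496695370) (dlOf (nat_lit 5) (nat_lit 0x14406c0296034013901980a300c8017006001da02f004701380d5008c022c042018e01f000228a02da01a019e00cc0d9c06405d0030035e0118000fc2802880d000b8066034e032004a01780dc808803a4042000380c01f403201590110000d0100d1800803b800200300008120503))))) 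
(.nd (nat_lit 26) (.nd (nat_lit 7) (.nd (nat_lit 16) (.nd (nat_lit 19) 
(.lf (nat_lit 3892715530) (dlOf (nat_lit 2) (nat_lit 0x6002c005f28181d0480))) 
(.lf (nat_lit 2819497994) (dlOf (nat_lit 23) (nat_lit 0x3081e001600e402e006a00900348031018401b00bc00d604b0059021003f80fc0180036006401400f0078000903900c081a8036c0d2019a061007f02f00068174019809600ee042008101f8048006c00c7e2c02900f0009807201bf035008c81a403f80c2016405e000c02e804c812c02b8084015603f00db00d8018f05801a81e000dc0e4025c06a0045034801d017800dc096008403f0031c87009403c004881c800080e202cc06a00be0348049017800a80ba012004b008b021004f00fc00c6c28044c0f00138072023f03500ca01a405b00c2023a05e00a302e808d012c0460084029603f00f600d8018cc5801181d800040e000a406f005302d802880f0011c076004a036001701a001300cc018005600c002a00a4011001f007800c503400f00840012034003500d8018941802181bc01000b6007803c001401a0018882002801bc01600b6008e042006101e001180d000c3614018c0de00b405b005101e001680ec00bc06c004403400a70110018603801c80d800b7404018806c007c02c00ea0110016e41801d80d800b6c0400e406c005b0020036036002d681001701b0037008800b5408007c06c005a3020036036002d001003901b000b80b000b340800d806c00d202c002c882003901b001618080360008009800203b600082b0283))))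 
(.lf (nat_lit 3892781066) (dlOf (nat_lit 2) (nat_lit 0x12800000a660200060018260281)))) 
(.lf (nat_lit 1745234314) (dlOf (nat_lit 1) (nat_lit 0x1400280e4e81)))) (.nd (nat_lit 30) 
(.lf (nat_lit 738598922) (dlOf (nat_lit 1) (nat_lit 0x200080c0001))) 
(.lf (nat_lit 3959824394) (dlOf (nat_lit 1) (nat_lit 0x70008002000200080008160003))))))) 
(.nd (nat_lit 21) (.nd (nat_lit 16) (.nd (nat_lit 6) (.nd (nat_lit 23) 
(.lf (nat_lit 68558858) (dlOf (nat_lit 2) (nat_lit 0x281c40024202000400285b0001))) 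
(.lf (nat_lit 9838602) (dlOf (nat_lit 2) (nat_lit 0x50f10003071c00582f4004a17100475048580000)))) 
(.nd (nat_lit 9) (.nd (nat_lit 24) 
(.lf (nat_lit 9838666) (dlOf (nat_lit 13) (nat_lit 0x7287300338376004619c000390300020e60001c4080b0873000d03760006f0400321cc000370102580eb010e074c087439400541c7007b0e2811785e0000d41807903ac037c1d301a20e500f485e0000d21000cc3f0006416d000506800190310000bc100a103640004b0201e01b20001e0100012f4000215f40308a3c00101e600ca0d9005f85d40014030000360e032a1d600040e600a1872800e438a01141bb00930ce00f385e0000441c046c39801f01bb00770ce00006c1827b0008055400200120008580503))) 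
(.lf (nat_lit 26615882) (dlOf (nat_lit 1) (nat_lit 0x88008001800200100008c50683)))) 
(.lf (nat_lit 2753438282) (dlOf (nat_lit 1) (nat_lit 0x138008005c00200260008091183))))) 
(.nd (nat_lit 22) (.nd (nat_lit 23) (.nd (nat_lit 24) 
(.lf (nat_lit 1515530) (dlOf (nat_lit 1) (nat_lit 0x4004000200080e0582))) 
(.lf (nat_lit 18292746) (dlOf (nat_lit 2) (nat_lit 0x2eb8a00582c0800b0008004000200240008920003)))) 
(.lf (nat_lit 9904138) (dlOf (nat_lit 1) (nat_lit 0x580080004002000c0008590083)))) 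
(.nd (nat_lit 19) (.lf (nat_lit 56041482) (dlOf (nat_lit 1) (nat_lit 0x8008000400200020009710003))) 
(.lf (nat_lit 23011338) (dlOf (nat_lit 1) (nat_lit 0x20018b40081)))))) (.nd (nat_lit 6) 
(.nd (nat_lit 19) (.nd (nat_lit 8) (.nd (nat_lit 22) 
(.lf (nat_lit 37101578) (dlOf (nat_lit 1) (nat_lit 0xec0009090001))) 
(.lf (nat_lit 49684490) (dlOf (nat_lit 2) (nat_lit 0x14b04403432040010004000c0019480002)))) 
(.nd (nat_lit 7) (.lf (nat_lit 2755013898) (dlOf (nat_lit 1) (nat_lit 0x4002000200080f6682))) 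
(.lf (nat_lit 53946762) (dlOf (nat_lit 1) (nat_lit 0x200295f4e81))))) (.nd (nat_lit 10) 
(.nd (nat_lit 7) 
(.lf (nat_lit 12525578) (dlOf (nat_lit 1) (nat_lit 0x2980080184002009600086d0683))) 
(.lf (nat_lit 12460170) (dlOf (nat_lit 1) (nat_lit 0x80080008002000200086c0103)))) (.nd (nat_lit 8) 
(.lf (nat_lit 8332810) (dlOf (nat_lit 1) (nat_lit 0x400400040018513682))) 
(.lf (nat_lit 8271114) (dlOf (nat_lit 1) (nat_lit 0x400400020008519602)))))) (.nd (nat_lit 8) 
(.nd (nat_lit 7) (.nd (nat_lit 16) 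
(.lf (nat_lit 37101642) (dlOf (nat_lit 1) (nat_lit 0x600009090601))) 
(.lf (nat_lit 25108554) (dlOf (nat_lit 2) (nat_lit 0x35529500015018be1480)))) 
(.lf (nat_lit 2755014346) (dlOf (nat_lit 1) (nat_lit 0xa800280f7301)))) (.nd (nat_lit 12) 
(.lf (nat_lit 20327242) (dlOf (nat_lit 1) (nat_lit 0x4002000200089d5c02))) 
(.lf (nat_lit 2755017546) (dlOf (nat_lit 1) (nat_lit 0x1400280fbc81)))))))) (.nd (nat_lit 29) 
(.nd (nat_lit 8) (.nd (nat_lit 32) (.nd (nat_lit 19) (.nd (nat_lit 10) (.nd (nat_lit 20) 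
(.lf (nat_lit 1346773002) (dlOf (nat_lit 1) (nat_lit 0xe0009000001))) 
(.lf (nat_lit 1343627274) (dlOf (nat_lit 7) (nat_lit 0xe000005fb81005703f002e900800f81f8017220400500fc001002a005a402004503f002d100800781f80167c040060004006800182c0282)))) 
(.lf (nat_lit 1344742410) (dlOf (nat_lit 1) (nat_lit 0x30008000c00200040008982883)))) 
(.nd (nat_lit 6) (.nd (nat_lit 9) 
(.lf (nat_lit 3557695498) (dlOf (nat_lit 23) (nat_lit 0x3081e001600e400c406401700308048018001b00bc00b2045006b021003f80fc018003600bd51400f007800090390066819006040c201b6060007f02f0006817401dc08a00cc042008101f8048006c017a82c02900f0009807200fe03200df818404640c0016405e000c02e805701140264084015603f00db00d802f3c5801a81e000dc0e4025c0610045030001d017800dc084008403f005e707009403c004881c800080e202cc06100be0300049017800a80ba01160450090021004f00fc0179228044c0f00138072016c032011f818406500c0023a05e00a302e808c01140468084029603f00f600d802f205801181d800040e000a406f005302d801280e0014406c008e035001701a001300cc018005600c002a00a4011001f00780177a3400f008a0012034003500d802ee01802181bc01000b60078036001401a002edc2002801bc01600b6008e045006101b001180d00175c14018c0de00b405b002f01c002880d800b406a004403400a7011002eb43801d80e00169e0400e407000b49020072038005a301006201c001f00b003a804400b45060036038005a001001701c003700880167e08007c07000b360200360380059a81003901c000b80b00165e0800d807000d202c0059302003901c002c6c080360008009800203b600082b0283)))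 
(.lf (nat_lit 1345202698) (dlOf (nat_lit 2) (nat_lit 0xd800000050040010002000e0008b05002)))) 
(.lf (nat_lit 3491635786) (dlOf (nat_lit 1) (nat_lit 0x138008005c00200260008091183))))) 
(.nd (nat_lit 27) (.nd (nat_lit 6) 
(.lf (nat_lit 4563804170) (dlOf (nat_lit 6) (nat_lit 0x48078002a2040024066001401e000a802000100f00053c0800700cc0020404002c066000aa02000200280e0081))) 
(.lf (nat_lit 5637546058) (dlOf (nat_lit 7) (nat_lit 0x39403a0007402003801d0003901003f01300048090006c0340006106009a024000b00000017810007809000680340005d04000e026000e01200016c100378008026c00200040008100503)))) 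
(.nd (nat_lit 26) 
(.lf (nat_lit 4698021898) (dlOf (nat_lit 6) (nat_lit 0x580cc0028604002403c000bf020012033000a00f0002f81000080780017a0400380660007502000200280e0081))) 
(.lf (nat_lit 5838872586) (dlOf (nat_lit 1) (nat_lit 0x10004000600081e0082)))))) (.nd (nat_lit 10) 
(.nd (nat_lit 16) (.nd (nat_lit 20) 
(.lf (nat_lit 3490064778) (dlOf (nat_lit 1) (nat_lit 0x20018004e81))) 
(.lf (nat_lit 473311626) (dlOf (nat_lit 2) (nat_lit 0x10b00003e00800c8008006000200040008e94e83)))) 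
(.nd (nat_lit 6) 
(.lf (nat_lit 3490130314) (dlOf (nat_lit 1) (nat_lit 0x8008000800200020008004e83))) 
(.lf (nat_lit 471277898) (dlOf (nat_lit 1) (nat_lit 0x4004000200082e0782))))) (.nd (nat_lit 7) 
(.lf (nat_lit 1344742666) (dlOf (nat_lit 2) (nat_lit 0x240f80003902000c0028982f81))) 
(.nd (nat_lit 9) (.lf (nat_lit 3490131338) (dlOf (nat_lit 1) (nat_lit 0x20028006c81))) 
(.lf (nat_lit 471740298) (dlOf (nat_lit 1) (nat_lit 0x10000800a8002002a00083d7783))))))) 
(.nd (nat_lit 6) (.nd (nat_lit 19) (.nd (nat_lit 16) (.nd (nat_lit 8) (.nd (nat_lit 27) 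
(.lf (nat_lit 3020300298) (dlOf (nat_lit 1) (nat_lit 0x20028220281))) 
(.lf (nat_lit 3154518026) (dlOf (nat_lit 1) (nat_lit 0x200181f0481)))) 
(.lf (nat_lit 4228260106) (dlOf (nat_lit 1) (nat_lit 0x40008003400200160008090483)))) 
(.nd (nat_lit 21) 
(.lf (nat_lit 3154583562) (dlOf (nat_lit 1) (nat_lit 0x8008000400200020008260283))) 
(.lf (nat_lit 1009197066) (dlOf (nat_lit 1) (nat_lit 0x80029090001))))) (.nd (nat_lit 32) 
(.nd (nat_lit 26) (.lf (nat_lit 1879974026) (dlOf (nat_lit 1) (nat_lit 0x13800200020008490102))) 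
(.lf (nat_lit 1007558794) (dlOf (nat_lit 1) (nat_lit 0x13800200020008490102)))) (.nd (nat_lit 7) 
(.lf (nat_lit 6376333578) (dlOf (nat_lit 2) (nat_lit 0x22122000b0018090a80))) 
(.lf (nat_lit 6377316490) (dlOf (nat_lit 1) (nat_lit 0x180080004002000600080c0f03)))))) 
(.nd (nat_lit 27) (.nd (nat_lit 26) (.nd (nat_lit 21) 
(.lf (nat_lit 4026933322) (dlOf (nat_lit 6) (nat_lit 0x780800004c020060040000258100280100001000800e80800007e0400700400003e02015c00180d0d01))) 
(.lf (nat_lit 1881546826) (dlOf (nat_lit 2) (nat_lit 0x120e3000f03d80050c100060008003800200100008f40603)))) 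
(.nd (nat_lit 32) 
(.lf (nat_lit 1946558538) (dlOf (nat_lit 4) (nat_lit 0x5809c0006804003004e00032020018027000188180c1480))) 
(.lf (nat_lit 6241525834) (dlOf (nat_lit 7) (nat_lit 0x39403a0007402003801d0003901003f01380048094006c0340006406009a025000b00000017810007809400680340005d04000e027000e01280016c100378008026c00200040008100503))))) 
(.nd (nat_lit 7) (.lf (nat_lit 6377381962) (dlOf (nat_lit 1) (nat_lit 0x1c00180d1481))) 
(.nd (nat_lit 8) 
(.lf (nat_lit 6377316554) (dlOf (nat_lit 1) (nat_lit 0x1080080004002000a00080c1b83))) 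
(.lf (nat_lit 4228260298) (dlOf (nat_lit 2) (nat_lit 0x8000c80000004008400400580008090982)))))))))) 
(.nd (nat_lit 16) (.nd (nat_lit 18) (.nd (nat_lit 29) (.nd (nat_lit 19) (.nd (nat_lit 11) 
(.nd (nat_lit 26) (.nd (nat_lit 7) (.nd (nat_lit 20) 
(.lf (nat_lit 12722218) (dlOf (nat_lit 1) (nat_lit 0x8004000200086e0a02))) 
(.lf (nat_lit 3490848810) (dlOf (nat_lit 5) (nat_lit 0x4080c0006204002440600030020010203000168100081018000ac080028008001c002000a0008030b03)))) 
(.nd (nat_lit 6) (.lf (nat_lit 8528298) (dlOf (nat_lit 1) (nat_lit 0x1000400020008511002))) 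
(.lf (nat_lit 5637284842) (dlOf (nat_lit 1) (nat_lit 0xa00180d2881))))) (.nd (nat_lit 6) 
(.nd (nat_lit 22) 
(.lf (nat_lit 3691126826) (dlOf (nat_lit 1) (nat_lit 0x10008001000200040008040883))) 
(.lf (nat_lit 474095658) (dlOf (nat_lit 1) (nat_lit 0x1000200020009080002)))) 
(.lf (nat_lit 2617385578) (dlOf (nat_lit 11) (nat_lit 0xd601a005100cc0050062006002b00600150008009c049c04a011c01f000300e0087003c0018014000361600140310001a8100d601a006c80cc0014056006602a0038013805d007c02e803800aa00a0001a0801ab019019900c40c74060021802c016f01500da00a400a403c00060090065001819f0000000642800a8062001202f0028016005b00a8000601001d0068000c0310001702009001a000300c4000c0560002d0600d40340008018800180ac000560c05300620002702008403300920188000901002280080144002016600080a1803))))) 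
(.nd (nat_lit 8) (.nd (nat_lit 6) (.nd (nat_lit 9) 
(.lf (nat_lit 1543646250) (dlOf (nat_lit 2) (nat_lit 0xf804a000410200220018146081))) 
(.lf (nat_lit 6509702698) (dlOf (nat_lit 1) (nat_lit 0x400200020008147182)))) 
(.lf (nat_lit 20068586) (dlOf (nat_lit 1) (nat_lit 0x800080004002000200089da903)))) 
(.nd (nat_lit 6) (.nd (nat_lit 10) 
(.lf (nat_lit 8530218) (dlOf (nat_lit 1) (nat_lit 0x8002000c0008514b82))) 
(.lf (nat_lit 1409428778) (dlOf (nat_lit 1) (nat_lit 0x40018006801)))) 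
(.lf (nat_lit 134360426) (dlOf (nat_lit 1) (nat_lit 0xe0018006b01)))))) (.nd (nat_lit 20) 
(.nd (nat_lit 21) (.nd (nat_lit 30) (.nd (nat_lit 7) 
(.lf (nat_lit 21635114) (dlOf (nat_lit 1) (nat_lit 0x400200020008a50b02))) 
(.lf (nat_lit 9057194) (dlOf (nat_lit 1) (nat_lit 0x118008008400200320008519103)))) 
(.nd (nat_lit 26) (.lf (nat_lit 3221889066) (dlOf (nat_lit 1) (nat_lit 0x6c002000800081b0602))) 
(.lf (nat_lit 1409949738) (dlOf (nat_lit 5) (nat_lit 0x3481640007e0400540b2000280200480590000c01006502c80004408032800800fc002009600080a0983))))) 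
(.nd (nat_lit 28) (.nd (nat_lit 6) 
(.lf (nat_lit 36317610) (dlOf (nat_lit 1) (nat_lit 0x20019074e81))) 
(.lf (nat_lit 23732330) (dlOf (nat_lit 1) (nat_lit 0xb0008016c00200040008b80003)))) 
(.nd (nat_lit 26) 
(.lf (nat_lit 3492421674) (dlOf (nat_lit 5) (nat_lit 0x4081c0006204002040e00030020010207000168100081038000ac0800100080068002001400080d0a03))) 
(.lf (nat_lit 472522794) (dlOf (nat_lit 1) (nat_lit 0x18008000c002002400089b0903)))))) 
(.nd (nat_lit 6) (.nd (nat_lit 9) 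
(.lf (nat_lit 5773074474) (dlOf (nat_lit 1) (nat_lit 0x4002000200080a0a02))) (.nd (nat_lit 22) 
(.lf (nat_lit 1345989162) (dlOf (nat_lit 2) (nat_lit 0x1583640011804010400400580008e25182))) 
(.lf (nat_lit 58337834) (dlOf (nat_lit 1) (nat_lit 0x400297e5181))))) (.nd (nat_lit 8) 
(.lf (nat_lit 28975338) (dlOf (nat_lit 1) (nat_lit 0x1000200100008da0602))) 
(.lf (nat_lit 49949162) (dlOf (nat_lit 2) (nat_lit 0x14a8c000f202001000294c4f01))))))) 
(.nd (nat_lit 26) (.nd (nat_lit 7) (.nd (nat_lit 6) (.nd (nat_lit 28) (.nd (nat_lit 19) 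
(.lf (nat_lit 4966195242) (dlOf (nat_lit 1) (nat_lit 0x20028040301))) 
(.lf (nat_lit 537534506) (dlOf (nat_lit 5) (nat_lit 0x348164000660400540b2000240200480590000681006502c80002008032800800fc002009600080a0983)))) 
(.nd (nat_lit 31) (.lf (nat_lit 5100412970) (dlOf (nat_lit 1) (nat_lit 0x20008060a01))) 
(.lf (nat_lit 2952929322) (dlOf (nat_lit 2) (nat_lit 0x100e0000bc0804c8008000400200c40008030383))))) 
(.nd (nat_lit 9) 
(.lf (nat_lit 2818712938) (dlOf (nat_lit 4) (nat_lit 0x40880003f02000a0150017007000b00000007c0c00500880000002009000180d3481))) 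
(.lf (nat_lit 537012074) (dlOf (nat_lit 1) (nat_lit 0x40018004001))))) (.nd (nat_lit 9) 
(.nd (nat_lit 11) (.lf (nat_lit 3758236074) (dlOf (nat_lit 1) (nat_lit 0x20028106e81))) 
(.lf (nat_lit 805448106) (dlOf (nat_lit 1) (nat_lit 0x8008000400200020008114e83)))) 
(.nd (nat_lit 6) 
(.lf (nat_lit 537012138) (dlOf (nat_lit 2) (nat_lit 0x1017c0002a040018004001a0008004302))) 
(.lf (nat_lit 671228906) (dlOf (nat_lit 1) (nat_lit 0x20028142881)))))) (.nd (nat_lit 27) 
(.nd (nat_lit 19) (.nd (nat_lit 6) (.nd (nat_lit 20) 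
(.lf (nat_lit 5167521834) (dlOf (nat_lit 1) (nat_lit 0x19400400060008080302))) 
(.lf (nat_lit 2752651306) (dlOf (nat_lit 5) (nat_lit 0x4086000062040024430000300200102180001681000810c0000ac080028008001c002000a0008030b03)))) 
(.lf (nat_lit 1946296810) (dlOf (nat_lit 3) (nat_lit 0x20029000778100c9014800000080018008005c00200020008017303)))) 
(.nd (nat_lit 21) 
(.lf (nat_lit 1678385194) (dlOf (nat_lit 7) (nat_lit 0xe042001900700015c100020038000aa040228084019c00e0002a02000b007001180000006e08000401c0003402005800e002d00200198000000660c014400200060008200d02))) 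
(.lf (nat_lit 2754224170) (dlOf (nat_lit 5) (nat_lit 0x40870000620400204380003002001021c0001681000810e0000ac0800100080068002001400080d0a03))))) 
(.nd (nat_lit 6) (.nd (nat_lit 10) (.nd (nat_lit 19) 
(.lf (nat_lit 5033304106) (dlOf (nat_lit 1) (nat_lit 0x20028040301))) 
(.lf (nat_lit 3960086570) (dlOf (nat_lit 1) (nat_lit 0x6c002000800081b0602)))) 
(.lf (nat_lit 3959563306) (dlOf (nat_lit 3) (nat_lit 0xf003802bba0400cc01c015d10200020018112881)))) 
(.nd (nat_lit 8) (.lf (nat_lit 1009394794) (dlOf (nat_lit 1) (nat_lit 0x20029162981))) 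
(.lf (nat_lit 3959568746) (dlOf (nat_lit 3) (nat_lit 0xc80f80004a04002401c00023020002001811ac01)))))))) 
(.nd (nat_lit 28) (.nd (nat_lit 21) (.nd (nat_lit 27) (.nd (nat_lit 20) (.nd (nat_lit 19) 
(.nd (nat_lit 22) 
(.lf (nat_lit 1074143274) (dlOf (nat_lit 5) (nat_lit 0x3a0148000900800c00a400044040030052000200200040260000f8180c0d00))) 
(.lf (nat_lit 12984362) (dlOf (nat_lit 1) (nat_lit 0x100080004002000400086f0b03)))) 
(.lf (nat_lit 9314346) (dlOf (nat_lit 1) (nat_lit 0x1140008540a81)))) (.nd (nat_lit 6) 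
(.nd (nat_lit 23) 
(.lf (nat_lit 2752913450) (dlOf (nat_lit 3) (nat_lit 0x10424000a1fa00050aa800284e0001ae100014424000a1fa00060aa800304e0001ac10003000400040018060602))) 
(.nd (nat_lit 24) 
(.lf (nat_lit 9838634) (dlOf (nat_lit 3) (nat_lit 0x1065000002810002328000000080048008007c00200480008580303))) 
(.lf (nat_lit 26615850) (dlOf (nat_lit 1) (nat_lit 0x21800201080008c50382))))) 
(.lf (nat_lit 9838698) (dlOf (nat_lit 2) (nat_lit 0xa6500065b018580780))))) (.nd (nat_lit 26) 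
(.nd (nat_lit 29) (.nd (nat_lit 9) 
(.lf (nat_lit 3355844650) (dlOf (nat_lit 11) (nat_lit 0x3c06803a402b000178202340158000b80811a80ac0005a0402a00560002c02049602b0001481023e01580009c0812400ac0003e0409300560001e02012002b0000e81006901500006c0803e80080868002019a0008120703))) 
(.lf (nat_lit 134619690) (dlOf (nat_lit 2) (nat_lit 0x1b01880000008005800800a4002009e0008090e83)))) 
(.nd (nat_lit 19) 
(.lf (nat_lit 3892715562) (dlOf (nat_lit 26) (nat_lit 0x2440a80006e02026e06401f603001fb016806f00b200b805501a702a000701340a40068004402f0002017010300a0096c028076a003001700100017c70034019003480c0020a05a013302c8011815402a40a8044803400e30140111005004d40060005d14070805a017b01781a9000c000b20c0e580b4009202f034b0018001601801780e0000ac04029c0b4000550205fa0540078023819c80e0053402a000c00b00c9002000150300190010000a60405140080005102008005402a10020001401015000100009c0405640080004d02000205a029f00200012810000811c0008e04001c0700004402052204702b2023008281100464086000a041025d01c0001083002d811c00c008c015402c0002083033c0160000fc08000811800180580003e04011002c0001b01038502d008900bc0d44006000320600be05a001b0178023000c000620c003405e0002e02003e054001b0020000001008680080248002009400081d0683)))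 
(.lf (nat_lit 2819498026) (dlOf (nat_lit 3) (nat_lit 0xa03b001001c0000741000180e000036040024002000600082b0882))))) 
(.nd (nat_lit 6) 
(.lf (nat_lit 201728554) (dlOf (nat_lit 2) (nat_lit 0x1b01880000008005800800a4002009e0008090e83))) 
(.nd (nat_lit 32) (.lf (nat_lit 201728106) (dlOf (nat_lit 1) (nat_lit 0x3c00200060008090002))) 
(.lf (nat_lit 4496695402) (dlOf (nat_lit 1) (nat_lit 0x408008017c00200120008120783))))))) 
(.nd (nat_lit 6) (.nd (nat_lit 7) (.nd (nat_lit 9) (.nd (nat_lit 19) 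
(.lf (nat_lit 28713002) (dlOf (nat_lit 1) (nat_lit 0x20018da0001))) 
(.lf (nat_lit 11411498) (dlOf (nat_lit 6) (nat_lit 0x5470800095e800054080018e52000a69c0000c02011b46d000040080799c540001c040020d0c0000802000400186a0801)))) 
(.lf (nat_lit 3023402) (dlOf (nat_lit 1) (nat_lit 0x8008000400200020008200e83)))) (.nd (nat_lit 9) 
(.nd (nat_lit 12) 
(.lf (nat_lit 19803562) (dlOf (nat_lit 2) (nat_lit 0xd58780038c0800300080034002000400089d6d03))) 
(.lf (nat_lit 19807658) (dlOf (nat_lit 1) (nat_lit 0x400080024002001200089dcb83)))) 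
(.lf (nat_lit 2754493354) (dlOf (nat_lit 3) (nat_lit 0x388a40045e0400044520022a02003800180fbd01))))) 
(.nd (nat_lit 7) (.nd (nat_lit 9) 
(.lf (nat_lit 49684586) (dlOf (nat_lit 2) (nat_lit 0x9460000150200020009480a01))) (.nd (nat_lit 10) 
(.lf (nat_lit 20327018) (dlOf (nat_lit 1) (nat_lit 0xc002000200089d5382))) 
(.lf (nat_lit 8267370) (dlOf (nat_lit 1) (nat_lit 0x400200020008513902))))) (.nd (nat_lit 11) 
(.nd (nat_lit 10) (.lf (nat_lit 19800810) (dlOf (nat_lit 1) (nat_lit 0x400289d2101))) 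
(.lf (nat_lit 8267498) (dlOf (nat_lit 1) (nat_lit 0x50008004000200080008513b03)))) 
(.nd (nat_lit 12) (.lf (nat_lit 57027306) (dlOf (nat_lit 1) (nat_lit 0xa0029795981))) 
(.lf (nat_lit 19806954) (dlOf (nat_lit 1) (nat_lit 0x200289db981)))))))) (.nd (nat_lit 26) 
(.nd (nat_lit 6) (.nd (nat_lit 32) (.nd (nat_lit 8) (.nd (nat_lit 31) 
(.lf (nat_lit 1343627306) (dlOf (nat_lit 1) (nat_lit 0x30004000e00082c0782))) 
(.lf (nat_lit 3491110954) (dlOf (nat_lit 3) (nat_lit 0x103fa000a1e800050af800284e0001921000143fa000a1e800060af800304e00019010003000400040018060602)))) 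
(.lf (nat_lit 3490065706) (dlOf (nat_lit 1) (nat_lit 0x20018006801)))) (.nd (nat_lit 27) 
(.nd (nat_lit 30) 
(.lf (nat_lit 4563804202) (dlOf (nat_lit 2) (nat_lit 0x900c8009005a0001304000200080e0b01))) 
(.lf (nat_lit 5637546026) (dlOf (nat_lit 1) (nat_lit 0x30004006c0018100302)))) 
(.lf (nat_lit 4698021930) (dlOf (nat_lit 4) (nat_lit 0x3bc06600014020218033000098100450198000140800100080008002000200080e0b03))))) 
(.nd (nat_lit 8) (.nd (nat_lit 21) 
(.lf (nat_lit 5637546090) (dlOf (nat_lit 2) (nat_lit 0xa002a00780000065b028100780))) 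
(.lf (nat_lit 1881546858) (dlOf (nat_lit 1) (nat_lit 0x1e8008003000200280008f40a03)))) 
(.nd (nat_lit 10) 
(.lf (nat_lit 3493732714) (dlOf (nat_lit 2) (nat_lit 0x401b000052040004004000400181b0702))) 
(.lf (nat_lit 3624283498) (dlOf (nat_lit 1) (nat_lit 0x20028146b01)))))) (.nd (nat_lit 32) 
(.nd (nat_lit 29) (.nd (nat_lit 19) 
(.lf (nat_lit 1409687594) (dlOf (nat_lit 3) (nat_lit 0xc05a0016029000d00cc001c05600100220001f850010029000a00cc000c0560010022000200f8000002800080080028002000c0008070883))) 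
(.lf (nat_lit 3557695530) (dlOf (nat_lit 3) (nat_lit 0x2003a000501a8000701000180e800034040024002000600082b0882)))) 
(.nd (nat_lit 27) (.lf (nat_lit 1946558506) (dlOf (nat_lit 1) (nat_lit 0x1f800180c0c01))) 
(.lf (nat_lit 3154518058) (dlOf (nat_lit 4) (nat_lit 0x60640002f810157028009e813c03dc08e022604601030220066810c03c0070019203200ed018009b808c0190038016001500ce00a00150010000a83803c408e022004600f90220062010c03a0060000450a009200281f0681))))) 
(.nd (nat_lit 6) (.nd (nat_lit 9) 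
(.lf (nat_lit 6241525802) (dlOf (nat_lit 1) (nat_lit 0x30004006c0018100302))) 
(.lf (nat_lit 6376270378) (dlOf (nat_lit 2) (nat_lit 0x200e8003cc04001000200020008095182)))) 
(.nd (nat_lit 19) 
(.lf (nat_lit 6241525866) (dlOf (nat_lit 2) (nat_lit 0xa0028007800000384828100780))) 
(.lf (nat_lit 6376267882) (dlOf (nat_lit 1) (nat_lit 0x8008000400200020008090183))))))))) 
(.nd (nat_lit 26) (.nd (nat_lit 18) (.nd (nat_lit 19) (.nd (nat_lit 6) (.nd (nat_lit 7) 
(.nd (nat_lit 9) (.nd (nat_lit 20) 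
(.lf (nat_lit 25370666) (dlOf (nat_lit 1) (nat_lit 0x6c004002e0008c00602))) 
(.lf (nat_lit 18030634) (dlOf (nat_lit 1) (nat_lit 0x400200020008900b02)))) 
(.lf (nat_lit 11739690) (dlOf (nat_lit 1) (nat_lit 0x40002000a00086c0e82)))) (.nd (nat_lit 8) 
(.lf (nat_lit 20133546) (dlOf (nat_lit 1) (nat_lit 0x4002000200089da002))) (.nd (nat_lit 20) 
(.lf (nat_lit 1610817962) (dlOf (nat_lit 3) (nat_lit 0x540420015602007002100066818091000))) 
(.lf (nat_lit 5772616106) (dlOf (nat_lit 4) (nat_lit 0x584f800902600016004002e13e000ab01000809e0002700800500080028002000a0008091003)))))) 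
(.nd (nat_lit 8) (.nd (nat_lit 7) (.nd (nat_lit 10) 
(.lf (nat_lit 6174220394) (dlOf (nat_lit 3) (nat_lit 0x500500203008001002000e8204003800400020018090782))) 
(.lf (nat_lit 8598634) (dlOf (nat_lit 1) (nat_lit 0x1800400040008519402)))) 
(.lf (nat_lit 2818781930) (dlOf (nat_lit 3) (nat_lit 0x70230000800800181140003c04002c00400040008128d82)))) 
(.nd (nat_lit 20) (.nd (nat_lit 27) 
(.lf (nat_lit 2416124394) (dlOf (nat_lit 1) (nat_lit 0x700080040002000a0008090d03))) 
(.lf (nat_lit 2550342122) (dlOf (nat_lit 1) (nat_lit 0x700080040002000a0008090d03)))) 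
(.lf (nat_lit 9642474) (dlOf (nat_lit 1) (nat_lit 0x800080038002000a0008577d03)))))) 
(.nd (nat_lit 20) (.nd (nat_lit 21) (.nd (nat_lit 22) (.nd (nat_lit 27) 
(.lf (nat_lit 537600042) (dlOf (nat_lit 5) (nat_lit 0x2817c000620400140be0003002000a05f0001681000502f8000ac0800080080038002002e00080d0a03))) 
(.lf (nat_lit 134946858) (dlOf (nat_lit 2) (nat_lit 0x501f800700e800280700005606003c00080e0601)))) 
(.lf (nat_lit 21700650) (dlOf (nat_lit 1) (nat_lit 0x4800400020018a60c82)))) (.nd (nat_lit 6) 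
(.lf (nat_lit 3492487210) (dlOf (nat_lit 5) (nat_lit 0x201b6000310200100db0001801000806d8000b408004036c00056040014004000200180d0a02))) 
(.lf (nat_lit 36381674) (dlOf (nat_lit 1) (nat_lit 0x3800200240009072882))))) (.nd (nat_lit 23) 
(.nd (nat_lit 7) (.nd (nat_lit 22) 
(.lf (nat_lit 1777706) (dlOf (nat_lit 2) (nat_lit 0x2f0000000400800180080004002001a0008130803))) 
(.lf (nat_lit 22749226) (dlOf (nat_lit 1) (nat_lit 0x8008000400200020008b20703)))) 
(.lf (nat_lit 1346053290) (dlOf (nat_lit 1) (nat_lit 0xc0008e22c01)))) (.nd (nat_lit 6) 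
(.lf (nat_lit 60497962) (dlOf (nat_lit 1) (nat_lit 0x8c00400260019880302))) 
(.lf (nat_lit 60498026) (dlOf (nat_lit 1) (nat_lit 0xe00080004002002c0009880783))))))) 
(.nd (nat_lit 19) (.nd (nat_lit 21) (.nd (nat_lit 10) (.nd (nat_lit 27) (.nd (nat_lit 28) 
(.lf (nat_lit 1074208810) (dlOf (nat_lit 1) (nat_lit 0x200280e0601))) 
(.lf (nat_lit 805773354) (dlOf (nat_lit 1) (nat_lit 0x4004000200181a0002)))) (.nd (nat_lit 28) 
(.lf (nat_lit 3892781098) (dlOf (nat_lit 2) (nat_lit 0x4000000220080090008002400200800008260783))) 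
(.lf (nat_lit 3624345642) (dlOf (nat_lit 5) (nat_lit 0x980dc0006204004c06e000300200260370001681001301b8000ac080088008001400200120008170b03))))) 
(.nd (nat_lit 6) (.nd (nat_lit 11) 
(.lf (nat_lit 8860970) (dlOf (nat_lit 1) (nat_lit 0x40018519801))) 
(.lf (nat_lit 3490131242) (dlOf (nat_lit 1) (nat_lit 0x20018006801)))) 
(.lf (nat_lit 3490131178) (dlOf (nat_lit 1) (nat_lit 0xc0028006501))))) (.nd (nat_lit 8) 
(.nd (nat_lit 6) (.nd (nat_lit 9) 
(.lf (nat_lit 15147050) (dlOf (nat_lit 1) (nat_lit 0xc004000400187c0682))) 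
(.lf (nat_lit 1345790506) (dlOf (nat_lit 1) (nat_lit 0x40008003000200140008de8983)))) 
(.lf (nat_lit 48701546) (dlOf (nat_lit 1) (nat_lit 0x20019420a01)))) (.nd (nat_lit 7) 
(.lf (nat_lit 57092458) (dlOf (nat_lit 1) (nat_lit 0x100029794e81))) (.nd (nat_lit 9) 
(.lf (nat_lit 57092586) (dlOf (nat_lit 1) (nat_lit 0x560029794f01))) 
(.lf (nat_lit 1344742378) (dlOf (nat_lit 1) (nat_lit 0xc00200040008982882))))))) (.nd (nat_lit 6) 
(.nd (nat_lit 7) (.nd (nat_lit 8) (.nd (nat_lit 21) 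
(.lf (nat_lit 1880039466) (dlOf (nat_lit 1) (nat_lit 0x800400040018540382))) 
(.lf (nat_lit 11477034) (dlOf (nat_lit 2) (nat_lit 0x78573000080186a0800)))) 
(.lf (nat_lit 8333610) (dlOf (nat_lit 1) (nat_lit 0x60008514b81)))) (.nd (nat_lit 9) 
(.nd (nat_lit 10) 
(.lf (nat_lit 8331690) (dlOf (nat_lit 1) (nat_lit 0x1200080074002001e0008511003))) 
(.nd (nat_lit 20) (.lf (nat_lit 61810090) (dlOf (nat_lit 1) (nat_lit 0x1400400be0009923602))) 
(.lf (nat_lit 8332714) (dlOf (nat_lit 1) (nat_lit 0x400200020008513602))))) 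
(.lf (nat_lit 8333226) (dlOf (nat_lit 1) (nat_lit 0x20018514301))))) (.nd (nat_lit 9) 
(.nd (nat_lit 11) (.lf (nat_lit 3490652650) (dlOf (nat_lit 2) (nat_lit 0x81e60000d818017300))) 
(.lf (nat_lit 58665450) (dlOf (nat_lit 1) (nat_lit 0x200080044002000600097e4f03)))) 
(.nd (nat_lit 7) (.lf (nat_lit 19868522) (dlOf (nat_lit 1) (nat_lit 0x80080004002000200089d5c03))) 
(.nd (nat_lit 10) 
(.lf (nat_lit 3492750314) (dlOf (nat_lit 1) (nat_lit 0x400080010002000600080f2883))) 
(.lf (nat_lit 3492751338) (dlOf (nat_lit 1) (nat_lit 0x24004000c00080f4602))))))))) 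
(.nd (nat_lit 27) (.nd (nat_lit 30) (.nd (nat_lit 29) (.nd (nat_lit 7) (.nd (nat_lit 19) 
(.lf (nat_lit 4362281002) (dlOf (nat_lit 1) (nat_lit 0x5400400040008020602))) 
(.lf (nat_lit 4362805290) (dlOf (nat_lit 2) (nat_lit 0x72603300019018100600)))) (.nd (nat_lit 6) 
(.lf (nat_lit 2483232938) (dlOf (nat_lit 1) (nat_lit 0x240018090281))) 
(.lf (nat_lit 6509768426) (dlOf (nat_lit 1) (nat_lit 0x3e0018147401))))) (.nd (nat_lit 11) 
(.nd (nat_lit 18) (.nd (nat_lit 19) 
(.lf (nat_lit 604184618) (dlOf (nat_lit 15) (nat_lit 0x25a045010101b002080d0000da0c00d808a0006902004c045000338100c2022800180d400040580002021000330400cd02280018c080568114000c20402e408a0006002013603f001f01b000080c00120000000240800180000001181005501f802080d8000400000022060246045011001f806900d800f0000000210800480000001001001e00000007c0802f0114034407e005403600230000000002000a000800f800200480008080683))) 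
(.lf (nat_lit 2754289706) (dlOf (nat_lit 5) (nat_lit 0x2019a000310200100cd000180100080668000b408004033400056040014004000200180d0a02)))) 
(.lf (nat_lit 2752978986) (dlOf (nat_lit 3) (nat_lit 0x360000000a00801f80000001804000400200020008070802)))) 
(.nd (nat_lit 6) (.lf (nat_lit 2751932714) (dlOf (nat_lit 1) (nat_lit 0x780008004b81))) 
(.lf (nat_lit 2751670506) (dlOf (nat_lit 1) (nat_lit 0x20018004b01)))))) (.nd (nat_lit 31) 
(.nd (nat_lit 6) (.nd (nat_lit 8) (.nd (nat_lit 18) 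
(.lf (nat_lit 1410015274) (dlOf (nat_lit 5) (nat_lit 0x2817c000620400140be0003002000a05f0001681000502f8000ac0800080080038002002e00080d0a03))) 
(.lf (nat_lit 1946624042) (dlOf (nat_lit 1) (nat_lit 0x200280e0601)))) 
(.lf (nat_lit 1141058346) (dlOf (nat_lit 4) (nat_lit 0xc026000f30100440130007340801900980039604001400400060008095c02)))) 
(.nd (nat_lit 7) (.lf (nat_lit 1409494378) (dlOf (nat_lit 1) (nat_lit 0x20028006b01))) 
(.lf (nat_lit 1141058538) (dlOf (nat_lit 1) (nat_lit 0x8008000400200020008095e83))))) 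
(.nd (nat_lit 6) (.nd (nat_lit 7) (.nd (nat_lit 18) 
(.lf (nat_lit 4095418410) (dlOf (nat_lit 2) (nat_lit 0xa0740000c8180b0c80))) 
(.lf (nat_lit 3557236778) (dlOf (nat_lit 2) (nat_lit 0x800200015818170380)))) 
(.lf (nat_lit 3556978602) (dlOf (nat_lit 1) (nat_lit 0x800400020008127982)))) (.nd (nat_lit 7) 
(.lf (nat_lit 3556980586) (dlOf (nat_lit 2) (nat_lit 0x201c00126808011000800040020054000812a303))) 
(.lf (nat_lit 3825410538) (dlOf (nat_lit 15) (nat_lit 0x23801600f800900750000000b818048802c020c01200ea000000168300470000000b008048802c0005204017c0160002702013c00b0001301004200580009408012802c000240400d40160001002009200b0000701005100580001c08041802c000080400a40160000202009e00b0009000000000100430008009000200040008157303))))))) 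
(.nd (nat_lit 18) (.nd (nat_lit 28) (.nd (nat_lit 6) (.nd (nat_lit 7) (.nd (nat_lit 8) 
(.lf (nat_lit 202055722) (dlOf (nat_lit 2) (nat_lit 0x501f800700e800280700004f06003c00080e0601))) 
(.lf (nat_lit 738405162) (dlOf (nat_lit 1) (nat_lit 0xb8008002400200020008095c03)))) 
(.lf (nat_lit 2349015210) (dlOf (nat_lit 1) (nat_lit 0x240018090281)))) (.nd (nat_lit 30) 
(.lf (nat_lit 4496498794) (dlOf (nat_lit 1) (nat_lit 0x408008017c00200120008090783))) 
(.lf (nat_lit 5570240618) (dlOf (nat_lit 3) (nat_lit 0x50050038c4080010020019d404003800400020018090782))))) 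
(.nd (nat_lit 8) (.nd (nat_lit 19) 
(.lf (nat_lit 4228063274) (dlOf (nat_lit 1) (nat_lit 0x5400400040008020602))) (.nd (nat_lit 30) 
(.lf (nat_lit 1007362090) (dlOf (nat_lit 2) (nat_lit 0x106f8000f4080010008000800200040008300b03))) 
(.lf (nat_lit 4228587562) (dlOf (nat_lit 2) (nat_lit 0x72603200019818100600))))) (.nd (nat_lit 7) 
(.lf (nat_lit 3154325802) (dlOf (nat_lit 1) (nat_lit 0x20028158081))) (.nd (nat_lit 19) 
(.lf (nat_lit 5301805482) (dlOf (nat_lit 1) (nat_lit 0x800400020008091002))) 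
(.lf (nat_lit 6378168746) (dlOf (nat_lit 1) (nat_lit 0x200080010002000e0008116e83))))))) 
(.nd (nat_lit 19) (.nd (nat_lit 9) (.nd (nat_lit 28) 
(.lf (nat_lit 2886148138) (dlOf (nat_lit 5) (nat_lit 0x980dc0006204004c06e000300200260370001681001301b8000ac080088008001400200120008170b03))) 
(.nd (nat_lit 30) 
(.lf (nat_lit 3154583594) (dlOf (nat_lit 1) (nat_lit 0x1000801c800200020008260783))) 
(.lf (nat_lit 4228325418) (dlOf (nat_lit 1) (nat_lit 0x2380080004002003c0008090003))))) 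
(.lf (nat_lit 472328746) (dlOf (nat_lit 1) (nat_lit 0x48008001000200080008985183)))) 
(.nd (nat_lit 6) 
(.lf (nat_lit 473899050) (dlOf (nat_lit 4) (nat_lit 0x378810020434200e616800760a28037833c01e016400fe073006900b8000a4400698810001428a0092073000140300591020037068401602d000b0145005e067803402c801ec0e600ba017001300a80009c480040008008400200060008fc0203))) 
(.nd (nat_lit 7) (.lf (nat_lit 473899114) (dlOf (nat_lit 1) (nat_lit 0x3800400220008fc0a02))) 
(.lf (nat_lit 6376333546) (dlOf (nat_lit 1) (nat_lit 0x70008002c00200720008090a83))))))))))) 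
(.nd (nat_lit 16) (.nd (nat_lit 5) (.nd (nat_lit 29) (.nd (nat_lit 7) (.nd (nat_lit 19) 
(.nd (nat_lit 20) (.nd (nat_lit 28) (.nd (nat_lit 12) (.nd (nat_lit 21) (.nd (nat_lit 6) 
(.nd (nat_lit 22) (.lf (nat_lit 67280906) (dlOf (nat_lit 1) (nat_lit 0x40018090081))) 
(.lf (nat_lit 21143562) (dlOf (nat_lit 1) (nat_lit 0x40018a10481)))) 
(.lf (nat_lit 4362248522) (dlOf (nat_lit 4) (nat_lit 0x580a400a3102002e052005180100090238000000801a000800bc002005c0008014c03)))) 
(.nd (nat_lit 18) (.lf (nat_lit 56795146) (dlOf (nat_lit 1) (nat_lit 0x400400020009760102))) 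
(.lf (nat_lit 36085770) (dlOf (nat_lit 1) (nat_lit 0x800200020009020002))))) (.nd (nat_lit 6) 
(.nd (nat_lit 8) (.lf (nat_lit 178698) (dlOf (nat_lit 1) (nat_lit 0x40040002000800b282))) 
(.lf (nat_lit 178442) (dlOf (nat_lit 1) (nat_lit 0x16000800940020052000800aa03)))) 
(.lf (nat_lit 2281879114) (dlOf (nat_lit 1) (nat_lit 0x4004000200080a9c02))))) (.nd (nat_lit 18) 
(.nd (nat_lit 26) (.lf (nat_lit 6711058442) (dlOf (nat_lit 1) (nat_lit 0x20018060a01))) 
(.lf (nat_lit 3691159562) (dlOf (nat_lit 1) (nat_lit 0x260028050001)))) (.nd (nat_lit 27) 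
(.lf (nat_lit 4563836938) (dlOf (nat_lit 5) (nat_lit 0x9203101280160037781027480b00197404013c062010002c0063e020022018825600b000000080114004008400080f0a02))) 
(.lf (nat_lit 4698054666) (dlOf (nat_lit 5) (nat_lit 0x9203101280160024e81027480b000e2204013c062010002c00370020022018825600b000000080114004008400080f0a02)))))) 
(.nd (nat_lit 21) (.nd (nat_lit 18) (.nd (nat_lit 22) 
(.lf (nat_lit 3490881546) (dlOf (nat_lit 1) (nat_lit 0x9800200020008030482))) 
(.lf (nat_lit 22192138) (dlOf (nat_lit 3) (nat_lit 0x232fc0013804005597e0008d0200040008aa0581)))) 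
(.lf (nat_lit 22454282) (dlOf (nat_lit 2) (nat_lit 0x1e5878005e00800d8008003c00200440008ae0483)))) 
(.nd (nat_lit 6) (.nd (nat_lit 8) 
(.lf (nat_lit 15900682) (dlOf (nat_lit 2) (nat_lit 0x23ea00021ea4009b0080054004005c0008840282))) 
(.lf (nat_lit 20098314) (dlOf (nat_lit 1) (nat_lit 0x80080004002000200089d6683)))) 
(.lf (nat_lit 20097866) (dlOf (nat_lit 1) (nat_lit 0x4002000200089d5c02)))))) (.nd (nat_lit 21) 
(.nd (nat_lit 23) (.nd (nat_lit 27) (.nd (nat_lit 22) 
(.lf (nat_lit 3221921802) (dlOf (nat_lit 7) (nat_lit 0x26810000f060400f407e0070502009a04000207010019020000ff8080008100007ae0400280800000002002600081b0001))) 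
(.lf (nat_lit 4890634) (dlOf (nat_lit 1) (nat_lit 0x200282d0001)))) (.nd (nat_lit 26) 
(.lf (nat_lit 134914058) (dlOf (nat_lit 2) (nat_lit 0x3280ec00e0a040194004009600080e0002))) 
(.lf (nat_lit 202022922) (dlOf (nat_lit 2) (nat_lit 0x3280ec01964040194004009600080e0002))))) 
(.nd (nat_lit 18) (.lf (nat_lit 59416586) (dlOf (nat_lit 1) (nat_lit 0x200297f0001))) 
(.nd (nat_lit 20) 
(.lf (nat_lit 9347082) (dlOf (nat_lit 2) (nat_lit 0x83e800195008014800800e000200220008540283))) 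
(.lf (nat_lit 14589962) (dlOf (nat_lit 1) (nat_lit 0x18008000400200020008770003)))))) 
(.nd (nat_lit 20) (.nd (nat_lit 6) (.nd (nat_lit 9) 
(.lf (nat_lit 472555530) (dlOf (nat_lit 1) (nat_lit 0x180080028002000600089c0003))) 
(.lf (nat_lit 1345235466) (dlOf (nat_lit 1) (nat_lit 0x200008b05001)))) 
(.lf (nat_lit 3492454474) (dlOf (nat_lit 1) (nat_lit 0xc00080040002006400080d0d03)))) 
(.nd (nat_lit 6) (.nd (nat_lit 8) (.nd (nat_lit 23) 
(.lf (nat_lit 3842058) (dlOf (nat_lit 2) (nat_lit 0x3a0000005d018230080))) 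
(.lf (nat_lit 45785098) (dlOf (nat_lit 2) (nat_lit 0x10e12000000200020019360001)))) 
(.lf (nat_lit 473604362) (dlOf (nat_lit 2) (nat_lit 0x207d0000380803e8008004c002002c0008f63683)))) 
(.lf (nat_lit 25075786) (dlOf (nat_lit 2) (nat_lit 0x90aae00015018be1480))))))) (.nd (nat_lit 8) 
(.nd (nat_lit 18) (.nd (nat_lit 6) (.nd (nat_lit 9) (.nd (nat_lit 22) 
(.lf (nat_lit 5704425610) (dlOf (nat_lit 2) (nat_lit 0xee00e80030070031403601b601a00a700c006c005c014802800180130003007002d802002c000e001400600160000000c86802e0008000c00200020008070f03))) 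
(.lf (nat_lit 4366474) (dlOf (nat_lit 1) (nat_lit 0x400400020008290282)))) 
(.lf (nat_lit 4563577482) (dlOf (nat_lit 2) (nat_lit 0x60210000a4080008008000800200040008095483)))) 
(.nd (nat_lit 10) 
(.lf (nat_lit 5704425674) (dlOf (nat_lit 2) (nat_lit 0x60058003dc080008008002000200080008071b83))) 
(.lf (nat_lit 402826442) (dlOf (nat_lit 1) (nat_lit 0x20028092d81))))) (.nd (nat_lit 22) 
(.nd (nat_lit 11) (.lf (nat_lit 12492938) (dlOf (nat_lit 1) (nat_lit 0x80080004002000200086c0103))) 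
(.lf (nat_lit 3288770698) (dlOf (nat_lit 1) (nat_lit 0x800180f4801)))) (.nd (nat_lit 25) 
(.lf (nat_lit 21405834) (dlOf (nat_lit 2) (nat_lit 0x657e8006914c0006408000400400020018a30f02))) 
(.lf (nat_lit 54960266) (dlOf (nat_lit 1) (nat_lit 0x20008000400200020009680f03)))))) 
(.nd (nat_lit 30) (.nd (nat_lit 6) (.nd (nat_lit 11) 
(.lf (nat_lit 20099466) (dlOf (nat_lit 1) (nat_lit 0x4400289d8381))) 
(.lf (nat_lit 60205450) (dlOf (nat_lit 1) (nat_lit 0x48008001c002000a0009844e83)))) 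
(.nd (nat_lit 18) (.lf (nat_lit 34251722) (dlOf (nat_lit 1) (nat_lit 0x3000200020008fb2882))) 
(.lf (nat_lit 38183882) (dlOf (nat_lit 1) (nat_lit 0x20019132881))))) (.nd (nat_lit 11) 
(.nd (nat_lit 6) 
(.lf (nat_lit 3221660042) (dlOf (nat_lit 2) (nat_lit 0x40230021fc080008008001000200080008170783))) 
(.lf (nat_lit 3221660106) (dlOf (nat_lit 2) (nat_lit 0x200460006022800000100120008009c00200240008170983)))) 
(.nd (nat_lit 18) (.lf (nat_lit 1345497482) (dlOf (nat_lit 1) (nat_lit 0x1c0028c34e81))) 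
(.lf (nat_lit 3490097546) (dlOf (nat_lit 1) (nat_lit 0x60018004e81)))))))) (.nd (nat_lit 26) 
(.nd (nat_lit 7) (.nd (nat_lit 6) (.nd (nat_lit 10) (.nd (nat_lit 18) 
(.lf (nat_lit 806002698) (dlOf (nat_lit 2) (nat_lit 0x1f00ac0078302000a0028210001))) 
(.nd (nat_lit 27) (.lf (nat_lit 805740554) (dlOf (nat_lit 1) (nat_lit 0x800281a0001))) 
(.lf (nat_lit 2819006474) (dlOf (nat_lit 21) (nat_lit 0x5cb03900be00fc03b0a0801a00e4008403f00ec182045703901e080fc021006c010802200ebf84005303900757c0809d81c8156c07e01bc9040272072062d01f806ee01002080fc036fe04149007e01b690201f003f00db3810136039025900fc036c20809a807e01b570201c4072058901f806d2c1003481c8146c07e01b3704064603f0068681034001f803430081e080fc01a1604077007e00d0a0201ac03f0068401003e01f8025e80828801c800280e2092004204d301f800100f80ee806c06ea022042600d800000400758008009000200040008150003))))) 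
(.nd (nat_lit 8) (.lf (nat_lit 2013439498) (dlOf (nat_lit 1) (nat_lit 0x100018093681))) 
(.lf (nat_lit 805481738) (dlOf (nat_lit 1) (nat_lit 0x3000400060008116682))))) (.nd (nat_lit 8) 
(.nd (nat_lit 19) 
(.lf (nat_lit 2819006538) (dlOf (nat_lit 8) (nat_lit 0x3801f8000dc0809501c800e007e0003504015e03f0001901002401f80006c0800d00fc000340405240e4014003f000201a00005c1801b80fc0002a040030004000e0008150682))) 
(.lf (nat_lit 1880006730) (dlOf (nat_lit 1) (nat_lit 0x120028520101)))) (.nd (nat_lit 9) 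
(.lf (nat_lit 537829706) (dlOf (nat_lit 2) (nat_lit 0x38075000258181b0600))) 
(.lf (nat_lit 805485386) (dlOf (nat_lit 21) (nat_lit 0x902a8006804c016080800580ac00080130057d82000702b0004814c002402600adf06000c05600050298001004c015bc0c00480ac002a0530012009802b7018003815800280a6000e0130056d03000f02a80275c080078154013a604003c0aa009d20200f80550001029800c0048013a20c003c0aa000a053004e602000f02a802728080008154012d604003c0aa0096902001e055004b381000300980258c0800600b400ac204004805a0018017002af82000c0168010d408006015400540260000004006e002811bc81)))))) 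
(.nd (nat_lit 8) (.nd (nat_lit 6) (.nd (nat_lit 9) 
(.lf (nat_lit 6174187658) (dlOf (nat_lit 1) (nat_lit 0x10008002000200100008080f03))) 
(.nd (nat_lit 10) (.lf (nat_lit 1745005194) (dlOf (nat_lit 1) (nat_lit 0x20028095481))) 
(.lf (nat_lit 2013439626) (dlOf (nat_lit 1) (nat_lit 0x800400020008093a02))))) (.nd (nat_lit 9) 
(.lf (nat_lit 1611047114) (dlOf (nat_lit 1) (nat_lit 0x200180c1781))) 
(.lf (nat_lit 805482186) (dlOf (nat_lit 1) (nat_lit 0x260018117301))))) (.nd (nat_lit 11) 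
(.nd (nat_lit 6) (.nd (nat_lit 32) 
(.lf (nat_lit 2013438346) (dlOf (nat_lit 1) (nat_lit 0x8008000400200020008091003))) 
(.lf (nat_lit 6308405642) (dlOf (nat_lit 1) (nat_lit 0x2000200100008075d82)))) 
(.lf (nat_lit 805741002) (dlOf (nat_lit 2) (nat_lit 0x220560012009800000100138008002c002001800081a0983)))) 
(.nd (nat_lit 18) 
(.lf (nat_lit 805480842) (dlOf (nat_lit 1) (nat_lit 0x80008006c002000a0008114e83))) 
(.lf (nat_lit 1745267082) (dlOf (nat_lit 1) (nat_lit 0x5000400ae00080e4e82))))))) (.nd (nat_lit 27) 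
(.nd (nat_lit 8) (.nd (nat_lit 6) (.nd (nat_lit 20) (.nd (nat_lit 21) 
(.lf (nat_lit 1678417930) (dlOf (nat_lit 2) (nat_lit 0x1f00ac00d1002000a0028210001))) 
(.lf (nat_lit 4096434186) (dlOf (nat_lit 2) (nat_lit 0x80ac000402300a26028110000)))) 
(.nd (nat_lit 9) (.lf (nat_lit 2752684042) (dlOf (nat_lit 1) (nat_lit 0x9800200020008030482))) 
(.lf (nat_lit 2753470986) (dlOf (nat_lit 1) (nat_lit 0x100018090d81))))) (.nd (nat_lit 19) 
(.lf (nat_lit 4899119178) (dlOf (nat_lit 1) (nat_lit 0x60028080501))) 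
(.lf (nat_lit 2754256970) (dlOf (nat_lit 1) (nat_lit 0xc00080040002006400080d0d03))))) 
(.nd (nat_lit 11) (.nd (nat_lit 6) 
(.lf (nat_lit 872587658) (dlOf (nat_lit 1) (nat_lit 0x30008000c00200040008091003))) 
(.lf (nat_lit 1678156234) (dlOf (nat_lit 2) (nat_lit 0x220560012009800000100138008002c002001800081a0983)))) 
(.nd (nat_lit 7) 
(.lf (nat_lit 2751637770) (dlOf (nat_lit 1) (nat_lit 0x2e0008019800200720008004b83))) 
(.nd (nat_lit 9) (.lf (nat_lit 604416394) (dlOf (nat_lit 1) (nat_lit 0x80028204e81))) 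
(.lf (nat_lit 3020074890) (dlOf (nat_lit 1) (nat_lit 0x8008000400200020008127783))))))) 
(.nd (nat_lit 6) (.nd (nat_lit 7) (.nd (nat_lit 10) (.nd (nat_lit 19) 
(.lf (nat_lit 6107078666) (dlOf (nat_lit 1) (nat_lit 0x20018060a01))) 
(.lf (nat_lit 3960119306) (dlOf (nat_lit 7) (nat_lit 0x26810001a200400f407e00cb202009a040004d6010019020002658080008100012e20400280800000002002600081b0001)))) 
(.lf (nat_lit 3959596042) (dlOf (nat_lit 1) (nat_lit 0x20008001c002000a0008112883)))) 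
(.nd (nat_lit 8) 
(.lf (nat_lit 6377349258) (dlOf (nat_lit 1) (nat_lit 0x300080080002000600080c0f03))) 
(.lf (nat_lit 3959857546) (dlOf (nat_lit 2) (nat_lit 0x4023003a90080008008001000200080008170783))))) 
(.nd (nat_lit 7) (.nd (nat_lit 8) 
(.lf (nat_lit 4228554826) (dlOf (nat_lit 2) (nat_lit 0x8032000098180f1480))) 
(.lf (nat_lit 4228030794) (dlOf (nat_lit 4) (nat_lit 0x580960049c02002e04b0024d8100090200000000801a000800bc002005c0008014c03)))) 
(.nd (nat_lit 8) 
(.lf (nat_lit 738631882) (dlOf (nat_lit 3) (nat_lit 0xb0000001840800280fc00000040034002000200080c1b82))) 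
(.lf (nat_lit 3959857610) (dlOf (nat_lit 2) (nat_lit 0x200460006022800000100120008009c00200240008170983))))))))) 
(.nd (nat_lit 26) (.nd (nat_lit 28) (.nd (nat_lit 23) (.nd (nat_lit 6) (.nd (nat_lit 7) 
(.nd (nat_lit 18) (.nd (nat_lit 19) (.nd (nat_lit 21) 
(.lf (nat_lit 2147655722) (dlOf (nat_lit 1) (nat_lit 0x100080004002000200080b0403))) 
(.lf (nat_lit 56795178) (dlOf (nat_lit 1) (nat_lit 0x400400020009760902)))) (.nd (nat_lit 20) 
(.lf (nat_lit 3221921834) (dlOf (nat_lit 6) (nat_lit 0x3901780003c0811b00bc0001c04024c05e0000a02046002f000048102a10178000000801b8008007400201e800081b0603))) 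
(.lf (nat_lit 3842090) (dlOf (nat_lit 5) (nat_lit 0x92648003931c001c97e000e4bd000625400029258000c818000498e00144a8000524b00018c18006131c002897a00124a8000924b00018420002931c000897a00144a8000924b00017c200098008000800200080008230b03))))) 
(.nd (nat_lit 9) (.nd (nat_lit 27) 
(.lf (nat_lit 1074176042) (dlOf (nat_lit 5) (nat_lit 0x300a4000620400140520003002000a029000168100060148000ac080028008000c002000e00080d0a03))) 
(.lf (nat_lit 2819006506) (dlOf (nat_lit 24) (nat_lit 0x31a03f0001a01017701f8000cc0801781a4073c07e000320403ba03f0001881019e01f8000c0080bd01c800b40e2000206c003a035002201a4000c0ce004c05d002802c805a80fc009807c000a01a001400c800080000005e3407bc0e400360710004036800301b000b40d40090069001c02e8004816403a407e003803e000500d000a80640005c3002a40e4035603f0001682019c01f8000b00805481c8056c07e0002b04003e072008601f8000a01002d80fc0004e04004c07e0002502034603f0000c01004801f800054080af00fc000240403ec07e000110200ba03f000080100bf01f80003c0809d80fc0001a0402b007e0000c02035203f0000501017501f8000000806f0008074400208920008150383))))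 
(.nd (nat_lit 11) (.lf (nat_lit 134652458) (dlOf (nat_lit 1) (nat_lit 0x1400400020008090e82))) 
(.lf (nat_lit 41331242) (dlOf (nat_lit 1) (nat_lit 0x1c0009245181)))))) (.nd (nat_lit 8) 
(.nd (nat_lit 20) (.lf (nat_lit 36349098) (dlOf (nat_lit 1) (nat_lit 0x11a0009072c01))) 
(.lf (nat_lit 52077738) (dlOf (nat_lit 1) (nat_lit 0x400400020009512c02)))) (.nd (nat_lit 9) 
(.lf (nat_lit 1208134058) (dlOf (nat_lit 1) (nat_lit 0x400400020008094e82))) 
(.lf (nat_lit 537044906) (dlOf (nat_lit 1) (nat_lit 0x1400200080008004302)))))) (.nd (nat_lit 11) 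
(.nd (nat_lit 7) (.nd (nat_lit 27) 
(.lf (nat_lit 4295139690) (dlOf (nat_lit 1) (nat_lit 0x10008000c00200020008090703))) 
(.lf (nat_lit 4429357418) (dlOf (nat_lit 1) (nat_lit 0x10008000c00200020008090703)))) 
(.lf (nat_lit 134652394) (dlOf (nat_lit 1) (nat_lit 0x800200020008090d02)))) (.nd (nat_lit 7) 
(.nd (nat_lit 8) 
(.lf (nat_lit 1745005162) (dlOf (nat_lit 3) (nat_lit 0x600b00016c0800280e00007604001000400100008095382))) 
(.lf (nat_lit 3221400938) (dlOf (nat_lit 1) (nat_lit 0x40008116b01)))) 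
(.lf (nat_lit 175338) (dlOf (nat_lit 1) (nat_lit 0x158008007800200500008006503)))))) 
(.nd (nat_lit 22) (.nd (nat_lit 19) (.nd (nat_lit 7) (.nd (nat_lit 18) 
(.lf (nat_lit 25337898) (dlOf (nat_lit 1) (nat_lit 0x20018bf0a01))) 
(.lf (nat_lit 26648618) (dlOf (nat_lit 3) (nat_lit 0xd373400016010080b9a0000ac0800d800800e4002007c0008c50383)))) 
(.nd (nat_lit 10) 
(.lf (nat_lit 8561066) (dlOf (nat_lit 1) (nat_lit 0x120008000400200020008511003))) 
(.lf (nat_lit 8562090) (dlOf (nat_lit 1) (nat_lit 0x400200020008513602))))) (.nd (nat_lit 6) 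
(.nd (nat_lit 18) (.lf (nat_lit 9084970) (dlOf (nat_lit 1) (nat_lit 0x400200020008520a02))) 
(.lf (nat_lit 11444266) (dlOf (nat_lit 1) (nat_lit 0x200186a0801)))) 
(.lf (nat_lit 42639466) (dlOf (nat_lit 1) (nat_lit 0x20019260a01))))) (.nd (nat_lit 18) 
(.nd (nat_lit 6) 
(.lf (nat_lit 29532202) (dlOf (nat_lit 4) (nat_lit 0x2d0000001180401140000008b02002011d0003c018e10780))) 
(.nd (nat_lit 7) (.lf (nat_lit 13803882) (dlOf (nat_lit 1) (nat_lit 0x40008750a01))) 
(.lf (nat_lit 13803754) (dlOf (nat_lit 1) (nat_lit 0x400400020008750702))))) (.nd (nat_lit 6) 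
(.lf (nat_lit 32942634) (dlOf (nat_lit 1) (nat_lit 0x60028f55181))) (.nd (nat_lit 9) 
(.lf (nat_lit 14065770) (dlOf (nat_lit 1) (nat_lit 0x80018750281))) 
(.lf (nat_lit 46574186) (dlOf (nat_lit 1) (nat_lit 0x10008001000200080009385383)))))))) 
(.nd (nat_lit 7) (.nd (nat_lit 30) (.nd (nat_lit 18) (.nd (nat_lit 19) (.nd (nat_lit 31) 
(.lf (nat_lit 268607530) (dlOf (nat_lit 2) (nat_lit 0x1000b0000d0180b0c80))) 
(.lf (nat_lit 6711058474) (dlOf (nat_lit 1) (nat_lit 0x8008000800200060008060c83)))) 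
(.lf (nat_lit 806002730) (dlOf (nat_lit 4) (nat_lit 0x9980ac00cc053020f0098000cc180c4015802740260003204042a056015d0098000c4100220008006000200620008210603)))) 
(.nd (nat_lit 27) 
(.lf (nat_lit 4563836970) (dlOf (nat_lit 18) (nat_lit 0xbb4029030301080009c1039900a41b5404e0d7c0210001303018801080009408084808400048041114062051402c015c00e00008c1808280c0037c04200022040bdc03108ef01600bc8070000400c1844062131a02c014e00e00007c1810600c01a580420001e040b4203101cd01600006c1000200d41cf0062102e03008c4016037380a40de00500ad0027000301104118084073c038004201b021a00981fd001c000323413a8062034802c006b01481800084000301013f0062000c0300379016006b00a40df0042000170a0c46031001401802bc80b0094c0520fb40210000b0500090188000300800c808400010041c000620f7803008dc01603cf00a41b9804e0f10021000800d803d001c0000020119c004033600080f0c82))) 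
(.lf (nat_lit 4698054698) (dlOf (nat_lit 18) (nat_lit 0x31002100013810109010800098082ed00a40c0c04200025040e6402906d5013835f0084000480c1114062051402c015c00e00008c1808280c0037c04200022040bdc03108ef01600bc8070000400c1844062131a02c014e00e00007c1810600c01a580420001e040b4203101cd01600006c1000200d41cf0062102e03008c4016037380a40de00500ad0027000301104118084073c038004201b021a00981fd001c000343413a8062034802c006b01481800084000301013f0062000c0300379016006b00a40df0042000170a0c46031001401802bc80b0094c0520fb40210000b0500090188000300800c808400010041c000620f7803008dc01603cf00a41b9804e0f10021000800d803d001c0000020119c004033600080f0c82))))) 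
(.nd (nat_lit 19) (.nd (nat_lit 6) (.nd (nat_lit 31) 
(.lf (nat_lit 1343397930) (dlOf (nat_lit 1) (nat_lit 0x10008000c00200060008220703))) 
(.lf (nat_lit 3490881578) (dlOf (nat_lit 5) (nat_lit 0x688c0000620400344600003002001a2300001681000d1180000ac0800b8008006000200540008030b03)))) 
(.lf (nat_lit 3489836138) (dlOf (nat_lit 1) (nat_lit 0x20028006081)))) (.nd (nat_lit 18) 
(.nd (nat_lit 21) (.lf (nat_lit 5772058666) (dlOf (nat_lit 1) (nat_lit 0x5e0008060c81))) 
(.lf (nat_lit 3492454442) (dlOf (nat_lit 5) (nat_lit 0x2f88d00006204017c468000300200be2340001681005f11a0000ac0800280080034002001c00080d0a03)))) 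
(.lf (nat_lit 1343135786) (dlOf (nat_lit 1) (nat_lit 0x20018160901)))))) (.nd (nat_lit 6) 
(.nd (nat_lit 8) (.nd (nat_lit 31) 
(.lf (nat_lit 6174187690) (dlOf (nat_lit 1) (nat_lit 0x28008001c002000a0008081483))) 
(.lf (nat_lit 4026704042) (dlOf (nat_lit 2) (nat_lit 0x120350052d818044c00)))) (.nd (nat_lit 29) 
(.lf (nat_lit 4697792938) (dlOf (nat_lit 2) (nat_lit 0x8c02f000b1818091000))) 
(.lf (nat_lit 2013438378) (dlOf (nat_lit 1) (nat_lit 0x20008091001))))) (.nd (nat_lit 8) 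
(.lf (nat_lit 402826474) (dlOf (nat_lit 1) (nat_lit 0x20028092e81))) (.nd (nat_lit 18) 
(.lf (nat_lit 1342349802) (dlOf (nat_lit 1) (nat_lit 0x400080008002001a0008017303))) 
(.lf (nat_lit 3624313322) (dlOf (nat_lit 1) (nat_lit 0x20028157301)))))))) (.nd (nat_lit 27) 
(.nd (nat_lit 30) (.nd (nat_lit 29) (.nd (nat_lit 8) (.nd (nat_lit 10) (.nd (nat_lit 32) 
(.lf (nat_lit 67805226) (dlOf (nat_lit 1) (nat_lit 0xa00182f0b01))) 
(.lf (nat_lit 4362772522) (dlOf (nat_lit 9) (nat_lit 0x13602b0002b81004d0158001580803000ac000aa0405600560005402000a02b0002981004c0158000d40803200ac000680402980560003302001e00280f0d01)))) 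
(.lf (nat_lit 6509734954) (dlOf (nat_lit 1) (nat_lit 0x6c00400540008146082)))) (.nd (nat_lit 6) 
(.lf (nat_lit 4362248618) (dlOf (nat_lit 1) (nat_lit 0xa0028017181))) 
(.lf (nat_lit 69903722) (dlOf (nat_lit 1) (nat_lit 0x800400020008e13482))))) (.nd (nat_lit 7) 
(.nd (nat_lit 19) 
(.lf (nat_lit 2752684074) (dlOf (nat_lit 5) (nat_lit 0x68920000620400344900003002001a2480001681000d1240000ac0800b8008006000200540008030b03))) 
(.lf (nat_lit 2754256938) (dlOf (nat_lit 5) (nat_lit 0x2f89300006204017c498000300200be24c0001681005f1260000ac0800280080034002001c00080d0a03)))) 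
(.nd (nat_lit 6) (.nd (nat_lit 9) 
(.lf (nat_lit 872587690) (dlOf (nat_lit 7) (nat_lit 0x402800158020030019002400a000558100008050001b20400e8028000cd0200440170004b01000300b800214080020008001000200040008091003))) 
(.lf (nat_lit 2751899562) (dlOf (nat_lit 1) (nat_lit 0x20018004301)))) 
(.lf (nat_lit 872588522) (dlOf (nat_lit 1) (nat_lit 0x4004000e0018092e82)))))) (.nd (nat_lit 28) 
(.nd (nat_lit 6) (.nd (nat_lit 7) (.nd (nat_lit 8) 
(.lf (nat_lit 1678417962) (dlOf (nat_lit 4) (nat_lit 0x9980ac00cc053020f0098000c8180c4015802740260003104042a056015d0098000c0100220008006000200620008210603))) 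
(.lf (nat_lit 1677895978) (dlOf (nat_lit 2) (nat_lit 0x102a8003ac080020008006800200340008114b83)))) 
(.lf (nat_lit 1677895594) (dlOf (nat_lit 1) (nat_lit 0x8008000800200080008114303)))) 
(.nd (nat_lit 7) (.lf (nat_lit 1678155882) (dlOf (nat_lit 1) (nat_lit 0x800281a0001))) 
(.lf (nat_lit 3288506602) (dlOf (nat_lit 1) (nat_lit 0x400400020008046b82))))) (.nd (nat_lit 18) 
(.nd (nat_lit 7) (.lf (nat_lit 6241298986) (dlOf (nat_lit 1) (nat_lit 0x4004000200080d5182))) 
(.lf (nat_lit 5704425642) (dlOf (nat_lit 1) (nat_lit 0x8008002000200080008071483)))) 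
(.nd (nat_lit 29) 
(.lf (nat_lit 3557204010) (dlOf (nat_lit 1) (nat_lit 0x980080068002000a0008160883))) 
(.lf (nat_lit 1946591274) (dlOf (nat_lit 5) (nat_lit 0x300a4000620400140520003002000a029000168100060148000ac080028008000c002000e00080d0a03))))))) 
(.nd (nat_lit 28) (.nd (nat_lit 18) (.nd (nat_lit 29) (.nd (nat_lit 30) 
(.lf (nat_lit 6643949610) (dlOf (nat_lit 1) (nat_lit 0x18008001800200040008090703))) 
(.lf (nat_lit 1275240490) (dlOf (nat_lit 1) (nat_lit 0x100080004002000200080b0403)))) 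
(.nd (nat_lit 6) (.nd (nat_lit 19) 
(.lf (nat_lit 6107078698) (dlOf (nat_lit 1) (nat_lit 0x8008000800200060008060c83))) 
(.lf (nat_lit 3960119338) (dlOf (nat_lit 6) (nat_lit 0x3901780003c0811b00bc0001c04024c05e0000a02046002f000048102a10178000000801b8008007400201e800081b0603)))) 
(.lf (nat_lit 738371946) (dlOf (nat_lit 1) (nat_lit 0x960018094e81))))) (.nd (nat_lit 6) 
(.nd (nat_lit 7) (.nd (nat_lit 9) 
(.lf (nat_lit 4496728106) (dlOf (nat_lit 1) (nat_lit 0x120028160481))) 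
(.lf (nat_lit 201761322) (dlOf (nat_lit 1) (nat_lit 0x1400400020008090e82)))) 
(.lf (nat_lit 738631850) (dlOf (nat_lit 3) (nat_lit 0x380fc0004404001807e0002102001e00180c1481)))) 
(.nd (nat_lit 29) (.lf (nat_lit 201761258) (dlOf (nat_lit 1) (nat_lit 0x800200020008090d02))) 
(.lf (nat_lit 2886115818) (dlOf (nat_lit 1) (nat_lit 0x80008007400200500008157d03)))))) 
(.nd (nat_lit 19) (.nd (nat_lit 6) (.nd (nat_lit 9) (.nd (nat_lit 29) 
(.lf (nat_lit 3691159594) (dlOf (nat_lit 3) (nat_lit 0x480160001601000f00e801f80580005608020c00400100018050382))) 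
(.lf (nat_lit 1006805034) (dlOf (nat_lit 2) (nat_lit 0x60a80006845000030080008004000600180a0802)))) 
(.lf (nat_lit 4228031018) (dlOf (nat_lit 1) (nat_lit 0x13000200040008017f82)))) (.nd (nat_lit 7) 
(.lf (nat_lit 6376565354) (dlOf (nat_lit 1) (nat_lit 0x8008000400200020008095383))) 
(.lf (nat_lit 4228030954) (dlOf (nat_lit 16) (nat_lit 0x1ec09e0080042001f015000e0088000d010085009e075e02a0003382042f027804381340fd408407c002a03da01100019828014813c000c60400e409e000610200aa04f001a021000280a800080440004a08003604f001d0150001181000c813c01f8054000450400c004f0024021000100a8000840c0e780540004102076004f037602101b100a80d800440003f08007c02a0001f010009027804d80a80007a08011809e011802a000118200a20150000000803a000804c800201d60008017303))))) 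
(.nd (nat_lit 8) (.nd (nat_lit 30) 
(.lf (nat_lit 3154812970) (dlOf (nat_lit 10) (nat_lit 0xe0000002a01004202b802180dc011806c0010020000800f802c0064014c030000310e008c0190001801003102b801900dc00d006c000401f004f00c802500600005e18011803200820180000a82000702b80030080001c03e00b8019005700c0000442801180640004030000100400820180000781002500c80002c080250008002000200220008330b03))) 
(.nd (nat_lit 31) (.lf (nat_lit 6376038442) (dlOf (nat_lit 1) (nat_lit 0x5e0008060c81))) 
(.lf (nat_lit 4228554794) (dlOf (nat_lit 4) (nat_lit 0x20054000570200aa02a0002a0100660150000cc0802380080188002003800080f0c03))))) 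
(.nd (nat_lit 6) (.lf (nat_lit 6378135978) (dlOf (nat_lit 1) (nat_lit 0x80018116e81))) 
(.lf (nat_lit 472819050) (dlOf (nat_lit 2) (nat_lit 0xc04e8000f8080048008000c00200140008b03483)))))))))) 
(.nd (nat_lit 5) (.nd (nat_lit 18) (.nd (nat_lit 19) (.nd (nat_lit 28) (.nd (nat_lit 8) 
(.nd (nat_lit 20) (.nd (nat_lit 6) (.nd (nat_lit 26) 
(.lf (nat_lit 1073979402) (dlOf (nat_lit 1) (nat_lit 0x8008000400200020008060483))) 
(.lf (nat_lit 1141088266) (dlOf (nat_lit 1) (nat_lit 0x17200080c0001)))) 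
(.lf (nat_lit 6509801034) (dlOf (nat_lit 1) (nat_lit 0x20008147181)))) (.nd (nat_lit 7) 
(.lf (nat_lit 18063370) (dlOf (nat_lit 1) (nat_lit 0xc0018900581))) (.nd (nat_lit 9) 
(.lf (nat_lit 22257802) (dlOf (nat_lit 1) (nat_lit 0xc0028ab3d01))) 
(.lf (nat_lit 20163210) (dlOf (nat_lit 1) (nat_lit 0x200289d5481)))))) (.nd (nat_lit 6) 
(.nd (nat_lit 7) (.lf (nat_lit 41132298) (dlOf (nat_lit 1) (nat_lit 0x400200020009223a02))) 
(.nd (nat_lit 11) 
(.lf (nat_lit 1610850698) (dlOf (nat_lit 2) (nat_lit 0x8098001560200020008091001))) 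
(.lf (nat_lit 2754849162) (dlOf (nat_lit 1) (nat_lit 0x4002000200080f4e82))))) (.nd (nat_lit 9) 
(.lf (nat_lit 3758334282) (dlOf (nat_lit 1) (nat_lit 0x8008000400200020008130783))) 
(.nd (nat_lit 12) (.lf (nat_lit 20163402) (dlOf (nat_lit 1) (nat_lit 0x4002000200089d5c02))) 
(.lf (nat_lit 20167498) (dlOf (nat_lit 1) (nat_lit 0x400189dbc81))))))) (.nd (nat_lit 27) 
(.nd (nat_lit 7) (.nd (nat_lit 6) (.nd (nat_lit 26) 
(.lf (nat_lit 1342414858) (dlOf (nat_lit 3) (nat_lit 0x35448e001df0201a4247000e5018020480))) 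
(.lf (nat_lit 1946394634) (dlOf (nat_lit 1) (nat_lit 0x8008000400200020008060483)))) 
(.lf (nat_lit 4563640394) (dlOf (nat_lit 4) (nat_lit 0x8805a0003302002a02d0001901000f0168000c4080010008005c002003600080b0603)))) 
(.nd (nat_lit 10) (.nd (nat_lit 29) 
(.lf (nat_lit 2416157066) (dlOf (nat_lit 1) (nat_lit 0x80028090781))) 
(.lf (nat_lit 6174253450) (dlOf (nat_lit 1) (nat_lit 0x80080004002000200080d1003)))) 
(.nd (nat_lit 6) (.lf (nat_lit 3489906058) (dlOf (nat_lit 1) (nat_lit 0x40020002000800c902))) 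
(.lf (nat_lit 872654026) (dlOf (nat_lit 1) (nat_lit 0x600028092d81)))))) (.nd (nat_lit 26) 
(.nd (nat_lit 29) (.nd (nat_lit 6) 
(.lf (nat_lit 2550374794) (dlOf (nat_lit 1) (nat_lit 0x80028090781))) 
(.lf (nat_lit 4697858122) (dlOf (nat_lit 4) (nat_lit 0x8805a0003202002a02d0001881000f0168000c0080010008005c002003600080b0603)))) 
(.nd (nat_lit 10) (.lf (nat_lit 2013503498) (dlOf (nat_lit 1) (nat_lit 0x17200080c0001))) 
(.lf (nat_lit 6308473866) (dlOf (nat_lit 1) (nat_lit 0x1200080d5f81))))) (.nd (nat_lit 31) 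
(.lf (nat_lit 469999626) (dlOf (nat_lit 3) (nat_lit 0x35448e0014e0201a42470009c818020480))) 
(.lf (nat_lit 2617483274) (dlOf (nat_lit 1) (nat_lit 0x80080008002000400080c0283))))))) 
(.nd (nat_lit 21) (.nd (nat_lit 26) (.nd (nat_lit 24) (.nd (nat_lit 27) (.nd (nat_lit 20) 
(.nd (nat_lit 28) (.lf (nat_lit 537632778) (dlOf (nat_lit 1) (nat_lit 0x4004000200180e0002))) 
(.lf (nat_lit 1342939146) (dlOf (nat_lit 36) (nat_lit 0x12068c002d20401dc346001680200541a3000b38100080d18005980800d868c002c60400643a2000a1c5000c0e08005341800a0744000438a00181c1000a60300080e880038714002960800343a2006e1c5000a502008d0e880050734021c38a00281c1000a284004d0e880288714002880801443a200021cd00440e280050c1801d0744001838a0013b0400901d100060e28004e4100198734003438a0011704002e1d1000b0e6800107140134382000d908000c1d10006c01000a0e8800187340384382000d70600161cd00e80e08003581000c8714001aa04022c3a200c21cd007b0e2800d870400042e6000cf0a000c1d100050e2800207040019c0c01483a200541cd00420e28001070c0019a1000183a2000e1c5000660200190e880098734006838a002c1c10006584006904a00570244007c102000c60600d009400070488003141002f025001b0122000c40400d009400780488002f01003582500288122000b70400d0094008004880008c1002a068c000300400c8346000170200a81a30000b01002c0d18000540804a0008024800201820008110583))))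 
(.lf (nat_lit 1343987722) (dlOf (nat_lit 1) (nat_lit 0x15900080eec00202aa0008390583)))) 
(.nd (nat_lit 11) 
(.lf (nat_lit 2819334154) (dlOf (nat_lit 16) (nat_lit 0x903c000301c8000c0d4000c05e0005025800300fc017aa1800200f0000c0720002035000281a400080c2001005e0006025802f503800401e000080e4000c06a0006030800401780010096000603f005e787000603c000401c800180d4000c04b000701f802f382800301e000180e4000a06a000302f0003812c001007e00bc90c000e0780004039000301a800040c2000205e0006025802f203000081c800240d4000e03f005de83000503480028174000407e00bb80600020720009035000480fc0176e0c00200d4000a069000901f802eb81800501c800400d4002003f005d683000101a002c340800301bc001006800b0a040006045005570100040230029b40800e0008004000200160008240283))) 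
(.lf (nat_lit 134981642) (dlOf (nat_lit 1) (nat_lit 0xb000080f4701))))) (.nd (nat_lit 6) 
(.nd (nat_lit 9) (.lf (nat_lit 59482122) (dlOf (nat_lit 1) (nat_lit 0x40002001a0009800002))) 
(.lf (nat_lit 51094026) (dlOf (nat_lit 1) (nat_lit 0x24004001400094f7b02)))) 
(.lf (nat_lit 59482186) (dlOf (nat_lit 2) (nat_lit 0x424d4000b0019800600))))) (.nd (nat_lit 6) 
(.nd (nat_lit 27) (.lf (nat_lit 1410048010) (dlOf (nat_lit 1) (nat_lit 0x4004000200180e0002))) 
(.lf (nat_lit 470523914) (dlOf (nat_lit 36) (nat_lit 0x1206cc002d20401dc366001680200541b3000b38100080d98005980800d86cc002c60400643a2000a1c5000c0e08005341800a0744000438a00181c1000a60300080e880038714002960800343a2006e1c5000a502008d0e880050734021c38a00281c1000a284004d0e880288714002880801443a200021cd00440e280050c1801d0744001838a0013b0400901d100060e28004e4100198734003438a0011304002e1d1000b0e6800107140134382000d908000c1d10006c01000a0e8800187340384382000d70600161cd00e80e08003581000c8714001aa04022c3a200c21cd007b0e2800d870400042e2000cf0a000c1d100050e2800207040019c0c01483a200541cd00420e28001070c0019a1000183a2000e1c5000660200190e880098734006838a002c1c10006584006904a00570244007c102000c60600d009400070488003141002f025001b0122000c40400d009400780488002f41003582500288122000b70400d009400800488000a41002a06cc0003a0400c83660001c0200a81b30000d81002c0d98000680804a0008024800201820008110583))))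 
(.nd (nat_lit 7) (.lf (nat_lit 67876426) (dlOf (nat_lit 1) (nat_lit 0x400400020008339c02))) 
(.lf (nat_lit 67877578) (dlOf (nat_lit 1) (nat_lit 0x6001833b981)))))) (.nd (nat_lit 11) 
(.nd (nat_lit 12) (.nd (nat_lit 20) (.nd (nat_lit 6) 
(.lf (nat_lit 1345036298) (dlOf (nat_lit 1) (nat_lit 0x500080024002001e00089d0103))) 
(.lf (nat_lit 4096499786) (dlOf (nat_lit 2) (nat_lit 0x15029c009c14500021028120500)))) 
(.nd (nat_lit 23) (.lf (nat_lit 3907594) (dlOf (nat_lit 1) (nat_lit 0x400200020008250582))) 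
(.lf (nat_lit 45850634) (dlOf (nat_lit 1) (nat_lit 0x400400080009360002))))) (.nd (nat_lit 6) 
(.nd (nat_lit 7) (.lf (nat_lit 19641610) (dlOf (nat_lit 2) (nat_lit 0xab040002d0189d9600))) 
(.lf (nat_lit 20689802) (dlOf (nat_lit 1) (nat_lit 0x600080168002012c00089d9003)))) 
(.lf (nat_lit 8107594) (dlOf (nat_lit 1) (nat_lit 0x400400020008519c02))))) (.nd (nat_lit 6) 
(.nd (nat_lit 7) (.lf (nat_lit 8104202) (dlOf (nat_lit 1) (nat_lit 0x400400020008514b82))) 
(.nd (nat_lit 8) (.lf (nat_lit 19639434) (dlOf (nat_lit 1) (nat_lit 0x80080008002000600089d6183))) 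
(.lf (nat_lit 19639178) (dlOf (nat_lit 1) (nat_lit 0x4004000200189d5c02))))) (.nd (nat_lit 7) 
(.nd (nat_lit 8) (.lf (nat_lit 58436170) (dlOf (nat_lit 1) (nat_lit 0x2c00297e5281))) 
(.lf (nat_lit 19640138) (dlOf (nat_lit 1) (nat_lit 0x18008000c002000600089d7783)))) 
(.nd (nat_lit 8) (.lf (nat_lit 19643594) (dlOf (nat_lit 1) (nat_lit 0x200089dc201))) 
(.lf (nat_lit 19642826) (dlOf (nat_lit 1) (nat_lit 0x2e00289db081))))))))) (.nd (nat_lit 6) 
(.nd (nat_lit 7) (.nd (nat_lit 21) (.nd (nat_lit 23) (.nd (nat_lit 27) (.nd (nat_lit 28) 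
(.nd (nat_lit 19) (.lf (nat_lit 1548298) (dlOf (nat_lit 1) (nat_lit 0x200080e0581))) 
(.lf (nat_lit 17801226) (dlOf (nat_lit 1) (nat_lit 0x400188f0481)))) (.nd (nat_lit 11) 
(.lf (nat_lit 2416418826) (dlOf (nat_lit 1) (nat_lit 0x80080008002000a00081c0683))) 
(.lf (nat_lit 1946658826) (dlOf (nat_lit 1) (nat_lit 0xc00080f4701))))) (.nd (nat_lit 9) 
(.nd (nat_lit 28) 
(.lf (nat_lit 2819072010) (dlOf (nat_lit 2) (nat_lit 0x20210018fc0800680080020002000e0008190283))) 
(.lf (nat_lit 2550636554) (dlOf (nat_lit 1) (nat_lit 0x80080008002000a00081c0683)))) 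
(.lf (nat_lit 1476897290) (dlOf (nat_lit 5) (nat_lit 0x1a01b0014808c0005408008007e003c01c000148200070118000a00800480fc000140400a8004000400182d5002))))) 
(.nd (nat_lit 25) (.nd (nat_lit 11) 
(.lf (nat_lit 9936906) (dlOf (nat_lit 1) (nat_lit 0x400200020008590082))) 
(.lf (nat_lit 8890378) (dlOf (nat_lit 1) (nat_lit 0x20008000400200020008514703)))) 
(.nd (nat_lit 19) (.lf (nat_lit 42442762) (dlOf (nat_lit 1) (nat_lit 0x200019250001))) 
(.lf (nat_lit 47161354) (dlOf (nat_lit 1) (nat_lit 0x4e00293b0001)))))) (.nd (nat_lit 20) 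
(.nd (nat_lit 11) (.nd (nat_lit 22) 
(.lf (nat_lit 19374090) (dlOf (nat_lit 1) (nat_lit 0x80008990581))) 
(.lf (nat_lit 15179786) (dlOf (nat_lit 2) (nat_lit 0x1ea58802f94080020008008c002005200087c0483)))) 
(.lf (nat_lit 3492788234) (dlOf (nat_lit 1) (nat_lit 0x20008007c002001600080fa603)))) 
(.nd (nat_lit 9) (.lf (nat_lit 37199882) (dlOf (nat_lit 1) (nat_lit 0xec00090b0001))) 
(.nd (nat_lit 10) 
(.lf (nat_lit 58171914) (dlOf (nat_lit 1) (nat_lit 0x500080020002002400097c7b03))) 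
(.lf (nat_lit 8365578) (dlOf (nat_lit 1) (nat_lit 0x80018513681))))))) (.nd (nat_lit 11) 
(.nd (nat_lit 10) (.nd (nat_lit 19) 
(.lf (nat_lit 1881645194) (dlOf (nat_lit 2) (nat_lit 0x2a014c0006404000400400020018f90f02))) 
(.nd (nat_lit 20) (.lf (nat_lit 47161482) (dlOf (nat_lit 1) (nat_lit 0x10004000200093b0f02))) 
(.lf (nat_lit 2072714) (dlOf (nat_lit 1) (nat_lit 0x400200020008150102))))) (.nd (nat_lit 21) 
(.lf (nat_lit 604480650) (dlOf (nat_lit 4) (nat_lit 0x360360040018001e807800cc00000006080020030001100f000080000000a0c0058060002601e00090000000001800580080020002000200082d2b03))) 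
(.lf (nat_lit 40346762) (dlOf (nat_lit 2) (nat_lit 0x98cf20002202001000091f2b01))))) 
(.nd (nat_lit 26) (.nd (nat_lit 28) 
(.lf (nat_lit 1074243978) (dlOf (nat_lit 1) (nat_lit 0x400280f4e81))) (.nd (nat_lit 30) 
(.lf (nat_lit 4563904906) (dlOf (nat_lit 1) (nat_lit 0x20028124e81))) 
(.lf (nat_lit 3490163082) (dlOf (nat_lit 1) (nat_lit 0x40018004e81))))) (.nd (nat_lit 8) 
(.lf (nat_lit 4094667402) (dlOf (nat_lit 1) (nat_lit 0x20028055481))) 
(.lf (nat_lit 68659594) (dlOf (nat_lit 1) (nat_lit 0x5a0028664e81))))))) (.nd (nat_lit 19) 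
(.nd (nat_lit 21) (.nd (nat_lit 7) (.nd (nat_lit 26) 
(.lf (nat_lit 805806410) (dlOf (nat_lit 2) (nat_lit 0x2044000190181a0600))) 
(.lf (nat_lit 1678221642) (dlOf (nat_lit 2) (nat_lit 0x2044000198181a0600)))) (.nd (nat_lit 26) 
(.lf (nat_lit 805806282) (dlOf (nat_lit 1) (nat_lit 0x200281a0481))) 
(.lf (nat_lit 1678221514) (dlOf (nat_lit 1) (nat_lit 0x200281a0481))))) (.nd (nat_lit 20) 
(.nd (nat_lit 22) (.lf (nat_lit 36151370) (dlOf (nat_lit 1) (nat_lit 0x360019030601))) 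
(.lf (nat_lit 48734282) (dlOf (nat_lit 3) (nat_lit 0x4d7800016a920014c0400055e00001aa480050c100050008004000200480009420603)))) 
(.lf (nat_lit 37199946) (dlOf (nat_lit 1) (nat_lit 0x6000090b0601))))) (.nd (nat_lit 20) 
(.nd (nat_lit 9) (.nd (nat_lit 23) 
(.lf (nat_lit 21995594) (dlOf (nat_lit 1) (nat_lit 0x4002000a0008a80f02))) 
(.lf (nat_lit 13606986) (dlOf (nat_lit 4) (nat_lit 0x28fc630136deb00010010098f18c043b7ac0003f040161c630094deb0000f81001c8008004000202820008730d03)))) 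
(.lf (nat_lit 2752488010) (dlOf (nat_lit 2) (nat_lit 0x9829400072040030004000c0008018d02)))) 
(.nd (nat_lit 7) (.nd (nat_lit 8) 
(.lf (nat_lit 25141322) (dlOf (nat_lit 1) (nat_lit 0xc00200040008be1482))) 
(.lf (nat_lit 2072906) (dlOf (nat_lit 1) (nat_lit 0x14004000e0018150602)))) 
(.lf (nat_lit 4095714250) (dlOf (nat_lit 2) (nat_lit 0x3015806910080008008002c002003a00080e2883)))))))) 
(.nd (nat_lit 6) (.nd (nat_lit 18) (.nd (nat_lit 26) (.nd (nat_lit 30) (.nd (nat_lit 24) 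
(.nd (nat_lit 27) (.nd (nat_lit 19) 
(.lf (nat_lit 4563640362) (dlOf (nat_lit 1) (nat_lit 0x80080004002000200080b0403))) 
(.lf (nat_lit 537632810) (dlOf (nat_lit 1) (nat_lit 0x11c00400c600080e0602)))) (.nd (nat_lit 32) 
(.lf (nat_lit 402890794) (dlOf (nat_lit 1) (nat_lit 0x4004000200080a0a02))) 
(.lf (nat_lit 4697858090) (dlOf (nat_lit 1) (nat_lit 0x80080004002000200080b0403))))) 
(.nd (nat_lit 7) (.lf (nat_lit 63152170) (dlOf (nat_lit 1) (nat_lit 0x200299e0201))) 
(.nd (nat_lit 9) (.lf (nat_lit 20166826) (dlOf (nat_lit 1) (nat_lit 0x200289da881))) 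
(.lf (nat_lit 20166314) (dlOf (nat_lit 1) (nat_lit 0x100080004002000200089da003)))))) 
(.nd (nat_lit 7) (.nd (nat_lit 9) (.nd (nat_lit 10) 
(.lf (nat_lit 1345036330) (dlOf (nat_lit 1) (nat_lit 0xe80080058002002e00089d0903))) 
(.lf (nat_lit 3489901610) (dlOf (nat_lit 1) (nat_lit 0x60008006081)))) 
(.lf (nat_lit 4026769962) (dlOf (nat_lit 5) (nat_lit 0x46c040022c00b0001f8200eb010007c002c0006c0803ac04001f000b0000e8200ea01000003c080008008003800200320008090e83)))) 
(.nd (nat_lit 9) 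
(.lf (nat_lit 6174253482) (dlOf (nat_lit 1) (nat_lit 0x8008009c002000200080d1003))) 
(.lf (nat_lit 4160992170) (dlOf (nat_lit 1) (nat_lit 0x8e00080a9101)))))) (.nd (nat_lit 19) 
(.nd (nat_lit 28) (.nd (nat_lit 9) 
(.lf (nat_lit 4496531498) (dlOf (nat_lit 1) (nat_lit 0x1200280d0481))) 
(.lf (nat_lit 3288572458) (dlOf (nat_lit 5) (nat_lit 0x46c040022c00b0001f8200eb010007c002c0006c0803ac04001f000b0000f0200ea01000003c080008008003800200320008090e83)))) 
(.nd (nat_lit 7) (.lf (nat_lit 2483265578) (dlOf (nat_lit 1) (nat_lit 0x20028090001))) 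
(.lf (nat_lit 2483265962) (dlOf (nat_lit 1) (nat_lit 0xd800800a0002003a0008090783))))) 
(.nd (nat_lit 21) (.nd (nat_lit 20) (.nd (nat_lit 31) 
(.lf (nat_lit 1410048042) (dlOf (nat_lit 1) (nat_lit 0x11c00400c600080e0602))) 
(.lf (nat_lit 3557531690) (dlOf (nat_lit 2) (nat_lit 0x40380002240800380080014002000a0008240783)))) 
(.lf (nat_lit 4095451178) (dlOf (nat_lit 1) (nat_lit 0x80080004002000200080b0c83)))) 
(.nd (nat_lit 9) (.lf (nat_lit 472621098) (dlOf (nat_lit 1) (nat_lit 0x200189d0901))) 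
(.lf (nat_lit 69968426) (dlOf (nat_lit 1) (nat_lit 0x19a0008e28981))))))) (.nd (nat_lit 19) 
(.nd (nat_lit 29) (.nd (nat_lit 22) (.nd (nat_lit 7) (.nd (nat_lit 20) 
(.lf (nat_lit 27762730) (dlOf (nat_lit 1) (nat_lit 0x400200020008d20782))) 
(.lf (nat_lit 3491209258) (dlOf (nat_lit 2) (nat_lit 0x1d81700003e0200360018070881)))) 
(.lf (nat_lit 3221725354) (dlOf (nat_lit 1) (nat_lit 0x40018170281)))) (.nd (nat_lit 21) 
(.nd (nat_lit 23) (.lf (nat_lit 4694058) (dlOf (nat_lit 2) (nat_lit 0x20000000128182a0900))) 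
(.lf (nat_lit 13082666) (dlOf (nat_lit 5) (nat_lit 0x354940006a3c00115140005a4c000194200035494000aa3c00195140006a4c00019020001d494002aa3c00115140009a4c00018820004d4940016a3c00155140009a4c00017c2000c80080004002000c00086f0b03)))) 
(.lf (nat_lit 15179818) (dlOf (nat_lit 1) (nat_lit 0x200080008002000c00087c0683))))) 
(.nd (nat_lit 7) (.nd (nat_lit 26) 
(.lf (nat_lit 1611112490) (dlOf (nat_lit 1) (nat_lit 0x18004000e00080e0b02))) 
(.lf (nat_lit 1678221354) (dlOf (nat_lit 1) (nat_lit 0x600080008002003200081a0003)))) 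
(.nd (nat_lit 8) (.lf (nat_lit 3959922858) (dlOf (nat_lit 1) (nat_lit 0x40018170281))) 
(.lf (nat_lit 1745330602) (dlOf (nat_lit 1) (nat_lit 0x80080034002000e0008116e83)))))) 
(.nd (nat_lit 20) (.nd (nat_lit 21) (.nd (nat_lit 9) 
(.lf (nat_lit 470786090) (dlOf (nat_lit 1) (nat_lit 0x180080010002000400081a0883))) 
(.lf (nat_lit 6376368682) (dlOf (nat_lit 1) (nat_lit 0x400400020008095182)))) (.nd (nat_lit 22) 
(.lf (nat_lit 3121706) (dlOf (nat_lit 1) (nat_lit 0x80018200e81))) 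
(.lf (nat_lit 40870442) (dlOf (nat_lit 1) (nat_lit 0x100029208981))))) (.nd (nat_lit 7) 
(.nd (nat_lit 22) (.lf (nat_lit 44015658) (dlOf (nat_lit 1) (nat_lit 0x4004000200092b0a02))) 
(.lf (nat_lit 14655530) (dlOf (nat_lit 1) (nat_lit 0x20018770381)))) (.nd (nat_lit 10) 
(.lf (nat_lit 8364458) (dlOf (nat_lit 1) (nat_lit 0x400200020008511002))) 
(.lf (nat_lit 8365482) (dlOf (nat_lit 1) (nat_lit 0x400200020008513602)))))))) (.nd (nat_lit 8) 
(.nd (nat_lit 9) (.nd (nat_lit 18) (.nd (nat_lit 10) (.nd (nat_lit 7) (.nd (nat_lit 19) 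
(.lf (nat_lit 44277866) (dlOf (nat_lit 1) (nat_lit 0x200292e0781))) 
(.lf (nat_lit 472621162) (dlOf (nat_lit 1) (nat_lit 0x80080004002000200089d1e83)))) 
(.lf (nat_lit 3490947306) (dlOf (nat_lit 1) (nat_lit 0x2c004000c0008046b82)))) (.nd (nat_lit 12) 
(.lf (nat_lit 1346610282) (dlOf (nat_lit 1) (nat_lit 0xd00018fe2981))) 
(.lf (nat_lit 2818815082) (dlOf (nat_lit 1) (nat_lit 0x98002000a0008129402))))) (.nd (nat_lit 19) 
(.lf (nat_lit 48734314) (dlOf (nat_lit 1) (nat_lit 0x580080068002001e0009420a03))) 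
(.nd (nat_lit 20) (.lf (nat_lit 3121258) (dlOf (nat_lit 1) (nat_lit 0x80080224002005e0008200003))) 
(.lf (nat_lit 12558442) (dlOf (nat_lit 1) (nat_lit 0x4004000200086d1482)))))) (.nd (nat_lit 21) 
(.nd (nat_lit 11) (.nd (nat_lit 10) 
(.lf (nat_lit 67871338) (dlOf (nat_lit 1) (nat_lit 0x20008331801))) 
(.lf (nat_lit 5234730602) (dlOf (nat_lit 1) (nat_lit 0xc002000600080d3902)))) (.nd (nat_lit 26) 
(.lf (nat_lit 6308473450) (dlOf (nat_lit 1) (nat_lit 0x4004000200080d5382))) 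
(.lf (nat_lit 5570275946) (dlOf (nat_lit 1) (nat_lit 0xc002000800080d5382))))) (.nd (nat_lit 10) 
(.nd (nat_lit 7) (.lf (nat_lit 20163178) (dlOf (nat_lit 1) (nat_lit 0x200289d5381))) 
(.lf (nat_lit 8106730) (dlOf (nat_lit 1) (nat_lit 0x400200020008518d82)))) (.nd (nat_lit 12) 
(.lf (nat_lit 61318762) (dlOf (nat_lit 1) (nat_lit 0xc0009923901))) 
(.lf (nat_lit 19641962) (dlOf (nat_lit 1) (nat_lit 0x1600289d9c01))))))) (.nd (nat_lit 19) 
(.nd (nat_lit 7) (.nd (nat_lit 10) 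
(.lf (nat_lit 2751707498) (dlOf (nat_lit 1) (nat_lit 0xc4800801b40020346000800ac03))) 
(.nd (nat_lit 11) 
(.lf (nat_lit 604480874) (dlOf (nat_lit 3) (nat_lit 0x2407a001a034000b015000580800018018000c00900090000000fc3800400f40034068001202a00090100003806400200180010009000c0000000004001600080018002000a00082d3483))) 
(.lf (nat_lit 3221466474) (dlOf (nat_lit 1) (nat_lit 0x1c00200080008116b02))))) (.nd (nat_lit 28) 
(.nd (nat_lit 21) 
(.lf (nat_lit 3288572394) (dlOf (nat_lit 2) (nat_lit 0x950190000540800e8008004000200500008090d03))) 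
(.lf (nat_lit 23306730) (dlOf (nat_lit 1) (nat_lit 0x40018b80d01)))) (.nd (nat_lit 30) 
(.lf (nat_lit 805544426) (dlOf (nat_lit 2) (nat_lit 0x8400e00033018127300))) 
(.lf (nat_lit 4026769898) (dlOf (nat_lit 2) (nat_lit 0x950190000500800e8008004000200500008090d03)))))) 
(.nd (nat_lit 18) (.nd (nat_lit 9) 
(.lf (nat_lit 8108394) (dlOf (nat_lit 1) (nat_lit 0x40040002000851ac02))) (.nd (nat_lit 11) 
(.lf (nat_lit 67871594) (dlOf (nat_lit 1) (nat_lit 0x10008000400200020008332583))) 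
(.lf (nat_lit 19639146) (dlOf (nat_lit 1) (nat_lit 0xf800289d5c01))))) (.nd (nat_lit 7) 
(.nd (nat_lit 26) (.lf (nat_lit 3490685290) (dlOf (nat_lit 1) (nat_lit 0x3000201340008015202))) 
(.lf (nat_lit 2752487786) (dlOf (nat_lit 1) (nat_lit 0x8400201340008015202)))) 
(.lf (nat_lit 2752487914) (dlOf (nat_lit 2) (nat_lit 0x180728000000800e8008000400200120008017d03)))))))))))

end

end Pool.Agent.Lib.MP_5854e1_co.Cz

namespace Pool.Agent.Lib.MP_5854e1_co.Cz

noncomputable section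

noncomputable def tz136 : DT := (.nd (nat_lit 17) (.nd (nat_lit 16) (.nd (nat_lit 6) 
(.nd (nat_lit 15) (.nd (nat_lit 10) (.nd (nat_lit 9) (.nd (nat_lit 18) (.nd (nat_lit 7) 
(.nd (nat_lit 8) (.nd (nat_lit 11) (.nd (nat_lit 19) 
(.lf (nat_lit 11534342) (dlOf (nat_lit 1) (nat_lit 0x80002000e00086b0002))) 
(.lf (nat_lit 474480646) (dlOf (nat_lit 1) (nat_lit 0x8008000400200020009170003)))) 
(.nd (nat_lit 26) (.lf (nat_lit 3221227526) (dlOf (nat_lit 1) (nat_lit 0x40028004701))) 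
(.lf (nat_lit 3825207302) (dlOf (nat_lit 1) (nat_lit 0x180028004701))))) (.nd (nat_lit 11) 
(.nd (nat_lit 19) (.lf (nat_lit 30408966) (dlOf (nat_lit 1) (nat_lit 0x1000400080008e30702))) 
(.lf (nat_lit 60293382) (dlOf (nat_lit 1) (nat_lit 0x400400020009840a82)))) 
(.lf (nat_lit 3690993926) (dlOf (nat_lit 1) (nat_lit 0x6001800aa01))))) (.nd (nat_lit 8) 
(.nd (nat_lit 12) (.nd (nat_lit 21) 
(.lf (nat_lit 537395334) (dlOf (nat_lit 1) (nat_lit 0x8008000400200020008090103))) 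
(.lf (nat_lit 23593094) (dlOf (nat_lit 1) (nat_lit 0x8008000400200020008b80103)))) 
(.nd (nat_lit 11) (.lf (nat_lit 2952794246) (dlOf (nat_lit 1) (nat_lit 0x400018007d81))) 
(.lf (nat_lit 469768326) (dlOf (nat_lit 1) (nat_lit 0x40020002000800a882))))) (.nd (nat_lit 12) 
(.nd (nat_lit 19) 
(.lf (nat_lit 2013268358) (dlOf (nat_lit 1) (nat_lit 0x8008000400200020008004e83))) 
(.lf (nat_lit 3490187654) (dlOf (nat_lit 1) (nat_lit 0x20018004e81)))) 
(.lf (nat_lit 3690994054) (dlOf (nat_lit 1) (nat_lit 0x80040002001800af82)))))) (.nd (nat_lit 20) 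
(.nd (nat_lit 8) (.nd (nat_lit 19) (.nd (nat_lit 22) 
(.lf (nat_lit 2953052166) (dlOf (nat_lit 1) (nat_lit 0xc004000800180e0282))) 
(.lf (nat_lit 12845062) (dlOf (nat_lit 1) (nat_lit 0x20002000a00086e0002)))) 
(.lf (nat_lit 3557556230) (dlOf (nat_lit 1) (nat_lit 0x2800200020008260002)))) (.nd (nat_lit 7) 
(.lf (nat_lit 2281963782) (dlOf (nat_lit 1) (nat_lit 0x1800080b4801))) (.nd (nat_lit 19) 
(.lf (nat_lit 738462086) (dlOf (nat_lit 1) (nat_lit 0x140028094e81))) 
(.lf (nat_lit 57411974) (dlOf (nat_lit 1) (nat_lit 0x20019794e81)))))) (.nd (nat_lit 19) 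
(.nd (nat_lit 30) (.nd (nat_lit 7) 
(.lf (nat_lit 471072774) (dlOf (nat_lit 1) (nat_lit 0x1c00200040008260282))) 
(.lf (nat_lit 11796614) (dlOf (nat_lit 1) (nat_lit 0x80080004002000200086c0103)))) (.nd (nat_lit 8) 
(.lf (nat_lit 1343488006) (dlOf (nat_lit 1) (nat_lit 0x800200020008260282))) 
(.lf (nat_lit 3490971910) (dlOf (nat_lit 1) (nat_lit 0x10008000400200020008047203))))) 
(.nd (nat_lit 8) (.nd (nat_lit 26) 
(.lf (nat_lit 5773197318) (dlOf (nat_lit 1) (nat_lit 0x24004000200180b0002))) 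
(.lf (nat_lit 6377177094) (dlOf (nat_lit 1) (nat_lit 0x24004000200180b0002)))) 
(.lf (nat_lit 8130822) (dlOf (nat_lit 1) (nat_lit 0x400400040018518082))))))) (.nd (nat_lit 31) 
(.nd (nat_lit 19) (.nd (nat_lit 8) (.nd (nat_lit 12) (.nd (nat_lit 18) (.nd (nat_lit 26) 
(.lf (nat_lit 6039798278) (dlOf (nat_lit 1) (nat_lit 0x8008000400200020008001483))) 
(.lf (nat_lit 67109382) (dlOf (nat_lit 1) (nat_lit 0x8008000400200020008001483)))) 
(.lf (nat_lit 41157126) (dlOf (nat_lit 4) (nat_lit 0x14ca1000b00100216500003640803a32880000004005400400080019227b02)))) 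
(.lf (nat_lit 8393222) (dlOf (nat_lit 1) (nat_lit 0x400200020008518682)))) (.nd (nat_lit 7) 
(.lf (nat_lit 872418054) (dlOf (nat_lit 1) (nat_lit 0x20018005b01))) 
(.lf (nat_lit 19925894) (dlOf (nat_lit 1) (nat_lit 0x4002000200089d5c02))))) (.nd (nat_lit 8) 
(.nd (nat_lit 20) (.lf (nat_lit 50856454) (dlOf (nat_lit 1) (nat_lit 0x200294d8001))) 
(.nd (nat_lit 22) 
(.lf (nat_lit 1345847814) (dlOf (nat_lit 2) (nat_lit 0x808a800504500000008006800400060018e07b02))) 
(.lf (nat_lit 58196486) (dlOf (nat_lit 1) (nat_lit 0x4004000400097c7b02))))) (.nd (nat_lit 7) 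
(.lf (nat_lit 54266630) (dlOf (nat_lit 1) (nat_lit 0x20019655b01))) 
(.lf (nat_lit 537664390) (dlOf (nat_lit 1) (nat_lit 0x80080034002000200080fbc83)))))) 
(.nd (nat_lit 26) (.nd (nat_lit 7) (.nd (nat_lit 27) 
(.lf (nat_lit 2684355078) (dlOf (nat_lit 1) (nat_lit 0x400400020008001482))) 
(.lf (nat_lit 2281701894) (dlOf (nat_lit 1) (nat_lit 0x400400020008001482)))) (.nd (nat_lit 11) 
(.lf (nat_lit 2684355462) (dlOf (nat_lit 1) (nat_lit 0x400400020018002582))) 
(.lf (nat_lit 3490454406) (dlOf (nat_lit 1) (nat_lit 0x800800040020002000800bc83))))) 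
(.nd (nat_lit 27) (.lf (nat_lit 2214593030) (dlOf (nat_lit 1) (nat_lit 0x400400020008001482))) 
(.nd (nat_lit 30) 
(.lf (nat_lit 6643778054) (dlOf (nat_lit 1) (nat_lit 0x8008000400200020008001483))) 
(.lf (nat_lit 3422552582) (dlOf (nat_lit 1) (nat_lit 0x400400020008001482)))))))) (.nd (nat_lit 26) 
(.nd (nat_lit 18) (.nd (nat_lit 7) (.nd (nat_lit 11) (.nd (nat_lit 20) 
(.lf (nat_lit 1344799750) (dlOf (nat_lit 1) (nat_lit 0x20018982881))) 
(.lf (nat_lit 56099846) (dlOf (nat_lit 1) (nat_lit 0x20019732881)))) 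
(.lf (nat_lit 2818575366) (dlOf (nat_lit 1) (nat_lit 0x420028005f81)))) (.nd (nat_lit 27) 
(.nd (nat_lit 8) (.lf (nat_lit 3489664134) (dlOf (nat_lit 1) (nat_lit 0x400400080008006102))) 
(.lf (nat_lit 4026533766) (dlOf (nat_lit 1) (nat_lit 0x400200040008004182)))) (.nd (nat_lit 29) 
(.lf (nat_lit 5502928518) (dlOf (nat_lit 1) (nat_lit 0x400400020008003a02))) 
(.lf (nat_lit 4966057606) (dlOf (nat_lit 1) (nat_lit 0x400400020008003a02)))))) (.nd (nat_lit 8) 
(.nd (nat_lit 25) (.nd (nat_lit 9) 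
(.lf (nat_lit 5771627526) (dlOf (nat_lit 1) (nat_lit 0x20028005f81))) 
(.lf (nat_lit 5234755078) (dlOf (nat_lit 1) (nat_lit 0x7200080d3681)))) (.nd (nat_lit 19) 
(.lf (nat_lit 46402566) (dlOf (nat_lit 3) (nat_lit 0x25a08003ebf60005604000f6820010afd80004c100068008006c002008e0009385f83))) 
(.lf (nat_lit 54266886) (dlOf (nat_lit 1) (nat_lit 0x128008006000200180009655f83))))) 
(.nd (nat_lit 20) (.nd (nat_lit 19) 
(.lf (nat_lit 5637408006) (dlOf (nat_lit 1) (nat_lit 0x4004000200080d2f82))) (.nd (nat_lit 23) 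
(.lf (nat_lit 36439302) (dlOf (nat_lit 1) (nat_lit 0x40019072f81))) 
(.lf (nat_lit 61605126) (dlOf (nat_lit 1) (nat_lit 0x20029922f81))))) (.nd (nat_lit 21) 
(.lf (nat_lit 43779334) (dlOf (nat_lit 1) (nat_lit 0x200092a2f81))) 
(.lf (nat_lit 8127750) (dlOf (nat_lit 1) (nat_lit 0x180018512f81))))))) (.nd (nat_lit 9) 
(.nd (nat_lit 8) (.nd (nat_lit 11) 
(.lf (nat_lit 473695238) (dlOf (nat_lit 1) (nat_lit 0x20018fa2881))) (.nd (nat_lit 12) 
(.lf (nat_lit 3019901958) (dlOf (nat_lit 1) (nat_lit 0x9ac00208460008005f82))) 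
(.lf (nat_lit 603986950) (dlOf (nat_lit 1) (nat_lit 0x30000800bf01))))) (.nd (nat_lit 11) 
(.nd (nat_lit 12) (.lf (nat_lit 472646918) (dlOf (nat_lit 1) (nat_lit 0x400289e2f81))) 
(.lf (nat_lit 3422557446) (dlOf (nat_lit 1) (nat_lit 0x400400020018009602)))) (.nd (nat_lit 7) 
(.lf (nat_lit 4227861766) (dlOf (nat_lit 1) (nat_lit 0x400400020008006682))) 
(.lf (nat_lit 3288337798) (dlOf (nat_lit 1) (nat_lit 0xa800400080008006c82)))))) (.nd (nat_lit 27) 
(.nd (nat_lit 28) (.nd (nat_lit 32) 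
(.lf (nat_lit 1140852358) (dlOf (nat_lit 1) (nat_lit 0x400400020008003a02))) 
(.lf (nat_lit 5435819654) (dlOf (nat_lit 1) (nat_lit 0x20028003a01)))) 
(.lf (nat_lit 4630513286) (dlOf (nat_lit 1) (nat_lit 0x400400020008003a02)))) (.nd (nat_lit 12) 
(.nd (nat_lit 11) (.lf (nat_lit 6106908294) (dlOf (nat_lit 1) (nat_lit 0x400400020008003a02))) 
(.lf (nat_lit 2885684870) (dlOf (nat_lit 1) (nat_lit 0xa0028007181)))) (.nd (nat_lit 28) 
(.lf (nat_lit 6643783302) (dlOf (nat_lit 1) (nat_lit 0x400400020008009e02))) 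
(.lf (nat_lit 2617251462) (dlOf (nat_lit 1) (nat_lit 0x400400020008009e02))))))))) 
(.nd (nat_lit 18) (.nd (nat_lit 19) (.nd (nat_lit 8) (.nd (nat_lit 7) (.nd (nat_lit 11) 
(.nd (nat_lit 9) (.nd (nat_lit 10) 
(.lf (nat_lit 14712838) (dlOf (nat_lit 1) (nat_lit 0x8000200380008770002))) 
(.lf (nat_lit 4362109958) (dlOf (nat_lit 1) (nat_lit 0x7000800b800200080008002883)))) 
(.lf (nat_lit 8425990) (dlOf (nat_lit 1) (nat_lit 0x400200020008518682)))) (.nd (nat_lit 26) 
(.lf (nat_lit 402689030) (dlOf (nat_lit 1) (nat_lit 0x400400020018005f82))) (.nd (nat_lit 27) 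
(.lf (nat_lit 3019934726) (dlOf (nat_lit 1) (nat_lit 0x220008005f81))) 
(.lf (nat_lit 1275104262) (dlOf (nat_lit 1) (nat_lit 0x98008000400200180008005f83)))))) 
(.nd (nat_lit 9) (.lf (nat_lit 18907270) (dlOf (nat_lit 1) (nat_lit 0x8008000400200020008970483))) 
(.nd (nat_lit 12) (.lf (nat_lit 268469894) (dlOf (nat_lit 1) (nat_lit 0x400400020008053a02))) 
(.lf (nat_lit 2684393094) (dlOf (nat_lit 1) (nat_lit 0xc00400540018009e02)))))) (.nd (nat_lit 26) 
(.nd (nat_lit 28) (.nd (nat_lit 9) 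
(.lf (nat_lit 30441734) (dlOf (nat_lit 1) (nat_lit 0x9c0008e30701))) 
(.lf (nat_lit 1610648326) (dlOf (nat_lit 1) (nat_lit 0xc0018005b01)))) (.nd (nat_lit 7) 
(.lf (nat_lit 4697656070) (dlOf (nat_lit 1) (nat_lit 0x8c0008005b01))) 
(.lf (nat_lit 3489700742) (dlOf (nat_lit 1) (nat_lit 0x800800040020002000800bc83))))) 
(.nd (nat_lit 9) (.nd (nat_lit 7) 
(.lf (nat_lit 201361670) (dlOf (nat_lit 2) (nat_lit 0x14000000e00200460008004b81))) 
(.lf (nat_lit 2754644358) (dlOf (nat_lit 1) (nat_lit 0x200180f4e81)))) (.nd (nat_lit 10) 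
(.lf (nat_lit 1275104006) (dlOf (nat_lit 2) (nat_lit 0x80800000004000c00400040018005b02))) 
(.nd (nat_lit 28) 
(.lf (nat_lit 2348844806) (dlOf (nat_lit 2) (nat_lit 0x90140001440800a8008001c00200060008003b83))) 
(.lf (nat_lit 1543538438) (dlOf (nat_lit 3) (nat_lit 0x10140000800800680a00003a0400ac00200100008003b82)))))))) 
(.nd (nat_lit 21) (.nd (nat_lit 20) (.nd (nat_lit 30) (.nd (nat_lit 8) (.nd (nat_lit 22) 
(.lf (nat_lit 6510116870) (dlOf (nat_lit 1) (nat_lit 0x4002000200081d0002))) 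
(.lf (nat_lit 4751366) (dlOf (nat_lit 1) (nat_lit 0x2be00082b0001)))) 
(.lf (nat_lit 558854) (dlOf (nat_lit 1) (nat_lit 0x30008004800200100008003b83)))) (.nd (nat_lit 7) 
(.lf (nat_lit 5906137094) (dlOf (nat_lit 1) (nat_lit 0x4002000200081d0002))) 
(.lf (nat_lit 1476952198) (dlOf (nat_lit 1) (nat_lit 0xc0028313b01))))) (.nd (nat_lit 23) 
(.nd (nat_lit 26) (.lf (nat_lit 3491266566) (dlOf (nat_lit 1) (nat_lit 0x620008080001))) 
(.lf (nat_lit 2753069062) (dlOf (nat_lit 1) (nat_lit 0x620008080001)))) (.nd (nat_lit 7) 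
(.lf (nat_lit 9994246) (dlOf (nat_lit 1) (nat_lit 0x200285a0581))) 
(.lf (nat_lit 14188678) (dlOf (nat_lit 1) (nat_lit 0x4000400160008750282)))))) (.nd (nat_lit 7) 
(.nd (nat_lit 22) (.nd (nat_lit 23) 
(.lf (nat_lit 19431430) (dlOf (nat_lit 2) (nat_lit 0x10a760009c02001200189a0581))) 
(.lf (nat_lit 11042822) (dlOf (nat_lit 2) (nat_lit 0x5d84b00000018660000)))) 
(.lf (nat_lit 32014342) (dlOf (nat_lit 1) (nat_lit 0x10008001800200040008ed0003)))) 
(.nd (nat_lit 8) (.lf (nat_lit 23625862) (dlOf (nat_lit 1) (nat_lit 0x20018b80101))) 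
(.lf (nat_lit 5774018950) (dlOf (nat_lit 1) (nat_lit 0x200280e4e81))))))) (.nd (nat_lit 29) 
(.nd (nat_lit 19) (.nd (nat_lit 20) (.nd (nat_lit 8) (.nd (nat_lit 22) 
(.lf (nat_lit 6644072454) (dlOf (nat_lit 1) (nat_lit 0x8004000c00180d0282))) 
(.lf (nat_lit 12877830) (dlOf (nat_lit 1) (nat_lit 0x80080020002000400086e0003)))) 
(.lf (nat_lit 1409581318) (dlOf (nat_lit 2) (nat_lit 0x817c0003c0400c8004003e0008047202)))) 
(.nd (nat_lit 7) (.lf (nat_lit 62160902) (dlOf (nat_lit 1) (nat_lit 0x3380009960001))) 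
(.nd (nat_lit 8) (.lf (nat_lit 20223622) (dlOf (nat_lit 1) (nat_lit 0x80080004002000200089d9e03))) 
(.lf (nat_lit 36997510) (dlOf (nat_lit 1) (nat_lit 0x5e0009074e81)))))) (.nd (nat_lit 7) 
(.nd (nat_lit 8) (.nd (nat_lit 10) 
(.lf (nat_lit 471629830) (dlOf (nat_lit 2) (nat_lit 0x604700191c08016800800c000200300008360283))) 
(.lf (nat_lit 46959622) (dlOf (nat_lit 1) (nat_lit 0x20029385f81)))) 
(.lf (nat_lit 5772182790) (dlOf (nat_lit 1) (nat_lit 0x400400020008092f82)))) (.nd (nat_lit 8) 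
(.lf (nat_lit 3491528838) (dlOf (nat_lit 1) (nat_lit 0x20018090101))) 
(.lf (nat_lit 36473222) (dlOf (nat_lit 1) (nat_lit 0x20019074e81)))))) (.nd (nat_lit 26) 
(.nd (nat_lit 27) (.nd (nat_lit 9) (.nd (nat_lit 28) 
(.lf (nat_lit 3758391302) (dlOf (nat_lit 1) (nat_lit 0x40028170001))) 
(.lf (nat_lit 1879343110) (dlOf (nat_lit 2) (nat_lit 0x4000004400180e0000)))) 
(.lf (nat_lit 4026827270) (dlOf (nat_lit 6) (nat_lit 0x1006c0012034000b482000501b0005a00800500d80008056001660400160340000e81000101a0000700800c80080018002000a0008090d83)))) 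
(.nd (nat_lit 7) (.lf (nat_lit 6040092678) (dlOf (nat_lit 1) (nat_lit 0x600180d0281))) 
(.nd (nat_lit 31) (.lf (nat_lit 1745125510) (dlOf (nat_lit 1) (nat_lit 0x4004003200080a2282))) 
(.lf (nat_lit 3892609158) (dlOf (nat_lit 1) (nat_lit 0x200028160281)))))) (.nd (nat_lit 28) 
(.nd (nat_lit 11) (.nd (nat_lit 7) 
(.lf (nat_lit 604274694) (dlOf (nat_lit 1) (nat_lit 0x800200020008120282))) 
(.lf (nat_lit 2753331334) (dlOf (nat_lit 1) (nat_lit 0xc0018090101)))) (.nd (nat_lit 8) 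
(.lf (nat_lit 4899245062) (dlOf (nat_lit 1) (nat_lit 0x600080d5f81))) 
(.lf (nat_lit 738495238) (dlOf (nat_lit 1) (nat_lit 0x260028095b01))))) (.nd (nat_lit 27) 
(.nd (nat_lit 31) 
(.lf (nat_lit 5167677446) (dlOf (nat_lit 2) (nat_lit 0x200060184b0200340018100001))) 
(.lf (nat_lit 3020193798) (dlOf (nat_lit 2) (nat_lit 0x13c06001b4e02000c0028150001)))) 
(.lf (nat_lit 1006927878) (dlOf (nat_lit 2) (nat_lit 0x4000007528180e0000))))))))) (.nd (nat_lit 9) 
(.nd (nat_lit 18) (.nd (nat_lit 28) (.nd (nat_lit 22) (.nd (nat_lit 11) (.nd (nat_lit 15) 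
(.nd (nat_lit 19) 
(.lf (nat_lit 68157510) (dlOf (nat_lit 2) (nat_lit 0x10000000100800a8008004800200040008400603))) 
(.lf (nat_lit 134742086) (dlOf (nat_lit 2) (nat_lit 0x18803b000058180a0e00)))) 
(.lf (nat_lit 2752544838) (dlOf (nat_lit 1) (nat_lit 0x1000018020801)))) (.nd (nat_lit 7) 
(.lf (nat_lit 4429187398) (dlOf (nat_lit 1) (nat_lit 0x400400020008004d02))) (.nd (nat_lit 10) 
(.lf (nat_lit 4362078406) (dlOf (nat_lit 1) (nat_lit 0x20018004981))) 
(.lf (nat_lit 134220998) (dlOf (nat_lit 1) (nat_lit 0x20028006381)))))) (.nd (nat_lit 15) 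
(.nd (nat_lit 7) (.nd (nat_lit 19) 
(.lf (nat_lit 14680134) (dlOf (nat_lit 3) (nat_lit 0x10a0200104ec000a2660005125000187c20001d0a00864ec001326600261250000380c004000200020008770602))) 
(.lf (nat_lit 4718662) (dlOf (nat_lit 2) (nat_lit 0x20989000b000000074100280008002c002000800082b0603)))) 
(.lf (nat_lit 41419974) (dlOf (nat_lit 1) (nat_lit 0x180019242d01)))) (.nd (nat_lit 7) 
(.nd (nat_lit 19) 
(.lf (nat_lit 14712902) (dlOf (nat_lit 4) (nat_lit 0x22a58003b4a00031a400000d1f80003a10001aa5801c550e005ca7f8077d280033a90001e347e0000e06000ca87000951f80000608007800406880018770602))) 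
(.lf (nat_lit 4751430) (dlOf (nat_lit 2) (nat_lit 0x480000003a040048004001000182b0602)))) 
(.lf (nat_lit 41452742) (dlOf (nat_lit 2) (nat_lit 0x46a6380003004000400200040009242d02)))))) 
(.nd (nat_lit 26) (.nd (nat_lit 7) (.nd (nat_lit 10) (.nd (nat_lit 15) 
(.lf (nat_lit 1344274502) (dlOf (nat_lit 1) (nat_lit 0x400400020008560602))) 
(.lf (nat_lit 3490742342) (dlOf (nat_lit 1) (nat_lit 0x1000018020801)))) (.nd (nat_lit 11) 
(.lf (nat_lit 2952795206) (dlOf (nat_lit 1) (nat_lit 0xac0008009301))) 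
(.lf (nat_lit 3489664070) (dlOf (nat_lit 1) (nat_lit 0x1c0028006081))))) (.nd (nat_lit 8) 
(.lf (nat_lit 1342184646) (dlOf (nat_lit 1) (nat_lit 0x40020002000800c202))) (.nd (nat_lit 10) 
(.lf (nat_lit 1342702022) (dlOf (nat_lit 4) (nat_lit 0x982500009c04008c1280004d02000c0940001f0180c0900))) 
(.lf (nat_lit 1476400582) (dlOf (nat_lit 1) (nat_lit 0x60028009a81)))))) (.nd (nat_lit 30) 
(.nd (nat_lit 7) (.nd (nat_lit 8) 
(.lf (nat_lit 471859270) (dlOf (nat_lit 1) (nat_lit 0x400400020008540602))) 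
(.lf (nat_lit 469764422) (dlOf (nat_lit 1) (nat_lit 0x3c004001c0008004d02)))) 
(.lf (nat_lit 470286790) (dlOf (nat_lit 4) (nat_lit 0x982500009c04008c1280004d02000c0940001f0180c0900)))) 
(.nd (nat_lit 7) (.nd (nat_lit 12) 
(.lf (nat_lit 4228382790) (dlOf (nat_lit 2) (nat_lit 0x400000006004005c002001200080a0e02))) 
(.lf (nat_lit 3690991686) (dlOf (nat_lit 1) (nat_lit 0x9a0018007d81)))) 
(.lf (nat_lit 1946160326) (dlOf (nat_lit 1) (nat_lit 0x8008000400200020008006383))))))) 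
(.nd (nat_lit 15) (.nd (nat_lit 20) (.nd (nat_lit 26) (.nd (nat_lit 28) (.nd (nat_lit 8) 
(.lf (nat_lit 134479942) (dlOf (nat_lit 2) (nat_lit 0x4c08200300300000d028030e80))) 
(.lf (nat_lit 8656198) (dlOf (nat_lit 1) (nat_lit 0x400200020008519902)))) (.nd (nat_lit 7) 
(.lf (nat_lit 1879310406) (dlOf (nat_lit 1) (nat_lit 0x80080014002000200080d0e03))) 
(.lf (nat_lit 3494117574) (dlOf (nat_lit 4) (nat_lit 0x2a00f60001e02021607b0000e8100d403d8000600800a80080090002002c00081b0403))))) 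
(.nd (nat_lit 30) (.nd (nat_lit 19) 
(.lf (nat_lit 201588806) (dlOf (nat_lit 2) (nat_lit 0x4c08200300300000d828030e80))) 
(.lf (nat_lit 470548550) (dlOf (nat_lit 2) (nat_lit 0x381b00002a018121880)))) (.nd (nat_lit 7) 
(.lf (nat_lit 3959691334) (dlOf (nat_lit 1) (nat_lit 0x2c0020038000811a682))) 
(.lf (nat_lit 5436080326) (dlOf (nat_lit 1) (nat_lit 0x200080c1b81)))))) (.nd (nat_lit 7) 
(.nd (nat_lit 19) (.lf (nat_lit 26476614) (dlOf (nat_lit 1) (nat_lit 0x400200280008c50602))) 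
(.nd (nat_lit 26) (.lf (nat_lit 5773197382) (dlOf (nat_lit 1) (nat_lit 0xa00180b0581))) 
(.lf (nat_lit 6377177158) (dlOf (nat_lit 1) (nat_lit 0xa00180b0581))))) (.nd (nat_lit 10) 
(.nd (nat_lit 21) (.lf (nat_lit 9699526) (dlOf (nat_lit 1) (nat_lit 0x80008571781))) 
(.lf (nat_lit 3408070) (dlOf (nat_lit 1) (nat_lit 0x40018200401)))) 
(.lf (nat_lit 20188358) (dlOf (nat_lit 1) (nat_lit 0xa00089d6381)))))) (.nd (nat_lit 26) 
(.nd (nat_lit 22) (.nd (nat_lit 20) (.nd (nat_lit 27) 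
(.lf (nat_lit 3758391366) (dlOf (nat_lit 1) (nat_lit 0x20008001000200180008170603))) 
(.lf (nat_lit 1208254534) (dlOf (nat_lit 2) (nat_lit 0x4c029001c00600005c1000080080008002000600080b0583)))) 
(.lf (nat_lit 26509382) (dlOf (nat_lit 1) (nat_lit 0x400200020008c50602)))) (.nd (nat_lit 7) 
(.lf (nat_lit 13402182) (dlOf (nat_lit 2) (nat_lit 0x14b680009c04010000200360008721882))) 
(.nd (nat_lit 8) (.lf (nat_lit 47482054) (dlOf (nat_lit 1) (nat_lit 0x80009402d01))) 
(.lf (nat_lit 23364038) (dlOf (nat_lit 1) (nat_lit 0x40002000a0008b80902)))))) (.nd (nat_lit 28) 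
(.nd (nat_lit 8) (.nd (nat_lit 27) 
(.lf (nat_lit 67403846) (dlOf (nat_lit 2) (nat_lit 0x10000000100800a80080048002000400080f0603))) 
(.lf (nat_lit 2349105222) (dlOf (nat_lit 1) (nat_lit 0x98004004200080a0d82)))) 
(.lf (nat_lit 2751760710) (dlOf (nat_lit 2) (nat_lit 0xb03c80001c080028008001c00200080008004d03)))) 
(.nd (nat_lit 27) (.nd (nat_lit 31) 
(.lf (nat_lit 872710214) (dlOf (nat_lit 1) (nat_lit 0x2c004005000080a1682))) 
(.lf (nat_lit 3020193862) (dlOf (nat_lit 3) (nat_lit 0x680310026017801580b0005404a0001d080162031009301600498094000380c003000200320008150602)))) 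
(.lf (nat_lit 2080669766) (dlOf (nat_lit 2) (nat_lit 0x4c029001c00600005c1000080080008002000600080b0583)))))))) 
(.nd (nat_lit 7) (.nd (nat_lit 28) (.nd (nat_lit 11) (.nd (nat_lit 15) (.nd (nat_lit 18) 
(.nd (nat_lit 10) 
(.lf (nat_lit 2752512582) (dlOf (nat_lit 2) (nat_lit 0x10069000903200030110001c048000000800020028018d01))) 
(.lf (nat_lit 2684360262) (dlOf (nat_lit 1) (nat_lit 0x400400020018009c02)))) (.nd (nat_lit 19) 
(.lf (nat_lit 1074004550) (dlOf (nat_lit 2) (nat_lit 0x2014800098080010008000800200060008091103))) 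
(.lf (nat_lit 1835590) (dlOf (nat_lit 2) (nat_lit 0x2432a000380200020018151101))))) 
(.nd (nat_lit 10) (.nd (nat_lit 26) 
(.lf (nat_lit 1074037318) (dlOf (nat_lit 2) (nat_lit 0x188052000260200020028091101))) 
(.lf (nat_lit 3959718470) (dlOf (nat_lit 9) (nat_lit 0x1f001c011800c00930000000901804300380260018013a000000118300530070000880803d803802400000002004008400e005a00000007810048803802580000001d04003c00e001900000007010004003800036040110002005e0008128d02)))) 
(.lf (nat_lit 8422982) (dlOf (nat_lit 1) (nat_lit 0x400200020008513802))))) (.nd (nat_lit 8) 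
(.nd (nat_lit 20) 
(.lf (nat_lit 44599878) (dlOf (nat_lit 2) (nat_lit 0x1499f40001604000400400060019325202))) 
(.lf (nat_lit 56134214) (dlOf (nat_lit 1) (nat_lit 0x8008000400200020009735203)))) 
(.nd (nat_lit 10) (.nd (nat_lit 18) 
(.lf (nat_lit 19925830) (dlOf (nat_lit 1) (nat_lit 0x4002000200089d5c02))) 
(.lf (nat_lit 4496558918) (dlOf (nat_lit 1) (nat_lit 0x150008009c002003800080e5c03)))) 
(.lf (nat_lit 603983686) (dlOf (nat_lit 1) (nat_lit 0x20028007701)))))) (.nd (nat_lit 8) 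
(.nd (nat_lit 18) (.nd (nat_lit 19) (.nd (nat_lit 10) 
(.lf (nat_lit 3490710086) (dlOf (nat_lit 1) (nat_lit 0xc002000a0008018802))) 
(.lf (nat_lit 4630513222) (dlOf (nat_lit 1) (nat_lit 0x24002002e0008003802)))) (.nd (nat_lit 26) 
(.lf (nat_lit 1342702150) (dlOf (nat_lit 14) (nat_lit 0x800a0005202223823711110e280b105cc000a20c021446e01421c500028020084123803e090c0224478010c23700370fb80440744024c39a00f61c500880e0802e86ec01e82e60004f1600f81c50002701000c1238004890c000446e00081c500030e080013028006025000090040028128000470221c2237031b0e28000e81004488dc024438a000390401202470087121804988f0022c46e01141f7008e0e8804d0734021438a011c1c100420dd804185cc023812801180030001c0d007c0e28000dc08008091c0028486000823700030e680030714003038200041730001a8780c1100))) 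
(.lf (nat_lit 470286918) (dlOf (nat_lit 14) (nat_lit 0x80080005202223823711110e280b105c4000a20c021446e01421c500028020084123803e090c0224478010c23700370fb80440744024c39a00f61c500880e0802e86ec01e82e20004f1600f81c50002701000c1238004890c000446e00081c500030e080013028006025000090040028128000470221c2237031b0e28000e81004488dc024438a000390401202470087121804988f0022c46e01141f7008e0e8804d0734021438a011c1c100420dd804185c4023812801180070001c0d007c0e28000dc08008091c0028486000823700030e680030714003038200041710001a8780c1100))))) 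
(.nd (nat_lit 11) (.nd (nat_lit 15) 
(.lf (nat_lit 1946419782) (dlOf (nat_lit 2) (nat_lit 0x2014800098080010008000800200060008091103))) 
(.lf (nat_lit 1946452550) (dlOf (nat_lit 2) (nat_lit 0x188052000260200020028091101)))) 
(.lf (nat_lit 1881410118) (dlOf (nat_lit 3) (nat_lit 0x1107180016408035038c0009604025800400780008f05202))))) 
(.nd (nat_lit 26) (.nd (nat_lit 11) (.nd (nat_lit 29) 
(.lf (nat_lit 2415920966) (dlOf (nat_lit 1) (nat_lit 0x400400020008003e02))) 
(.lf (nat_lit 4026533702) (dlOf (nat_lit 1) (nat_lit 0x400400020008003e02)))) 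
(.lf (nat_lit 2952793926) (dlOf (nat_lit 1) (nat_lit 0x20028007701)))) (.nd (nat_lit 12) 
(.lf (nat_lit 1006634822) (dlOf (nat_lit 1) (nat_lit 0x20028003e01))) (.nd (nat_lit 15) 
(.lf (nat_lit 3557037894) (dlOf (nat_lit 1) (nat_lit 0x280040008000812a182))) 
(.lf (nat_lit 3691026246) (dlOf (nat_lit 1) (nat_lit 0x16002800a181)))))))) (.nd (nat_lit 8) 
(.nd (nat_lit 11) (.nd (nat_lit 18) (.nd (nat_lit 12) 
(.lf (nat_lit 3422552774) (dlOf (nat_lit 1) (nat_lit 0x20008001f01))) (.nd (nat_lit 26) 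
(.lf (nat_lit 1476399814) (dlOf (nat_lit 1) (nat_lit 0x8008000400200020008008c83))) 
(.lf (nat_lit 3690992326) (dlOf (nat_lit 1) (nat_lit 0x8008000400200020008008c83))))) 
(.nd (nat_lit 15) (.lf (nat_lit 20189894) (dlOf (nat_lit 1) (nat_lit 0x4002000200089d8c82))) 
(.nd (nat_lit 19) 
(.lf (nat_lit 20222662) (dlOf (nat_lit 1) (nat_lit 0x380080004002001400089d8c83))) 
(.lf (nat_lit 20746950) (dlOf (nat_lit 1) (nat_lit 0x4002000200089d8c82)))))) (.nd (nat_lit 10) 
(.nd (nat_lit 12) (.nd (nat_lit 15) 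
(.lf (nat_lit 6241127110) (dlOf (nat_lit 1) (nat_lit 0x40008005801))) 
(.lf (nat_lit 40143558) (dlOf (nat_lit 1) (nat_lit 0x400091f5801)))) 
(.lf (nat_lit 67115718) (dlOf (nat_lit 1) (nat_lit 0x2001800b981)))) (.nd (nat_lit 28) 
(.lf (nat_lit 4294971078) (dlOf (nat_lit 1) (nat_lit 0x400400020008007302))) 
(.lf (nat_lit 1879051974) (dlOf (nat_lit 1) (nat_lit 0x20028007301)))))) (.nd (nat_lit 27) 
(.nd (nat_lit 10) (.nd (nat_lit 26) (.nd (nat_lit 28) 
(.lf (nat_lit 4294974406) (dlOf (nat_lit 1) (nat_lit 0x40040002000800be02))) 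
(.lf (nat_lit 1342184390) (dlOf (nat_lit 1) (nat_lit 0x2001800be01)))) 
(.lf (nat_lit 3288341446) (dlOf (nat_lit 1) (nat_lit 0x40040002000800be02)))) (.nd (nat_lit 11) 
(.lf (nat_lit 4026533830) (dlOf (nat_lit 1) (nat_lit 0xd8008001000200040008004403))) 
(.lf (nat_lit 67899334) (dlOf (nat_lit 1) (nat_lit 0x80018337a81))))) (.nd (nat_lit 10) 
(.nd (nat_lit 15) (.nd (nat_lit 26) 
(.lf (nat_lit 2550143942) (dlOf (nat_lit 1) (nat_lit 0x40040002000800be02))) 
(.lf (nat_lit 4227865542) (dlOf (nat_lit 1) (nat_lit 0x1a800800c4002006a000800be03)))) 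
(.lf (nat_lit 134257606) (dlOf (nat_lit 2) (nat_lit 0x1004c0000004002c004000e000800be02)))) 
(.nd (nat_lit 11) (.lf (nat_lit 201328582) (dlOf (nat_lit 1) (nat_lit 0x60018004401))) 
(.lf (nat_lit 2818838470) (dlOf (nat_lit 1) (nat_lit 0xcc002004c0008127a82)))))))))) 
(.nd (nat_lit 15) (.nd (nat_lit 6) (.nd (nat_lit 19) (.nd (nat_lit 9) (.nd (nat_lit 8) 
(.nd (nat_lit 18) (.nd (nat_lit 10) (.nd (nat_lit 20) 
(.lf (nat_lit 14745606) (dlOf (nat_lit 3) (nat_lit 0x10b5d600ddf010081aeb006d380800e8008017c00200a80008770003))) 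
(.nd (nat_lit 21) (.lf (nat_lit 470876166) (dlOf (nat_lit 1) (nat_lit 0xe00081c0001))) 
(.lf (nat_lit 11599878) (dlOf (nat_lit 1) (nat_lit 0x2200186c0001))))) (.nd (nat_lit 20) 
(.lf (nat_lit 5368777734) (dlOf (nat_lit 1) (nat_lit 0x20028005f81))) 
(.lf (nat_lit 59837446) (dlOf (nat_lit 1) (nat_lit 0x400400020009845f82))))) (.nd (nat_lit 7) 
(.nd (nat_lit 10) 
(.lf (nat_lit 24444934) (dlOf (nat_lit 3) (nat_lit 0x4569200440010021b49002030080010008001c00200060008ba0003))) 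
(.lf (nat_lit 54856710) (dlOf (nat_lit 1) (nat_lit 0x8000801c400200d00009655f83)))) 
(.nd (nat_lit 10) (.nd (nat_lit 20) 
(.lf (nat_lit 5637472390) (dlOf (nat_lit 1) (nat_lit 0x880080010002000800080f0e03))) 
(.lf (nat_lit 11862150) (dlOf (nat_lit 1) (nat_lit 0x4002000200086c0102)))) 
(.lf (nat_lit 56951942) (dlOf (nat_lit 1) (nat_lit 0x1c0019792b01)))))) (.nd (nat_lit 7) 
(.nd (nat_lit 10) (.nd (nat_lit 18) 
(.lf (nat_lit 40960262) (dlOf (nat_lit 1) (nat_lit 0x400400020009203582))) 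
(.lf (nat_lit 46465286) (dlOf (nat_lit 1) (nat_lit 0x400400020009380a82)))) (.nd (nat_lit 12) 
(.lf (nat_lit 36766982) (dlOf (nat_lit 1) (nat_lit 0x20019072f81))) 
(.lf (nat_lit 3355514118) (dlOf (nat_lit 1) (nat_lit 0x80008000c002000800080a9603))))) 
(.nd (nat_lit 18) (.nd (nat_lit 27) 
(.lf (nat_lit 3758164358) (dlOf (nat_lit 1) (nat_lit 0x800280d4e81))) 
(.lf (nat_lit 2013333894) (dlOf (nat_lit 1) (nat_lit 0x20028004e81)))) 
(.lf (nat_lit 3624208774) (dlOf (nat_lit 1) (nat_lit 0x20018144e81)))))) (.nd (nat_lit 10) 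
(.nd (nat_lit 7) (.nd (nat_lit 8) (.nd (nat_lit 26) 
(.lf (nat_lit 3355509254) (dlOf (nat_lit 1) (nat_lit 0x4004000200080a1482))) 
(.lf (nat_lit 2617311750) (dlOf (nat_lit 1) (nat_lit 0x4004000200080a1482)))) (.nd (nat_lit 26) 
(.lf (nat_lit 5771430662) (dlOf (nat_lit 1) (nat_lit 0x300028005b01))) 
(.lf (nat_lit 5301668614) (dlOf (nat_lit 2) (nat_lit 0x200500005c04000c00400320018005b02))))) 
(.nd (nat_lit 27) (.nd (nat_lit 20) 
(.lf (nat_lit 5704321926) (dlOf (nat_lit 1) (nat_lit 0x40028055c01))) 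
(.lf (nat_lit 19991430) (dlOf (nat_lit 1) (nat_lit 0x4002000200089d5c02)))) (.nd (nat_lit 8) 
(.lf (nat_lit 5234559622) (dlOf (nat_lit 1) (nat_lit 0x160028055481))) 
(.lf (nat_lit 3355513734) (dlOf (nat_lit 1) (nat_lit 0x1000180a9001)))))) (.nd (nat_lit 27) 
(.nd (nat_lit 26) (.nd (nat_lit 7) 
(.lf (nat_lit 2684425734) (dlOf (nat_lit 2) (nat_lit 0x8058001600200040028009c01))) 
(.lf (nat_lit 52758150) (dlOf (nat_lit 1) (nat_lit 0x400400020009573a02)))) (.nd (nat_lit 31) 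
(.lf (nat_lit 67180038) (dlOf (nat_lit 1) (nat_lit 0x40028009c01))) 
(.lf (nat_lit 2214663686) (dlOf (nat_lit 1) (nat_lit 0x6f800204540008009c02))))) (.nd (nat_lit 12) 
(.nd (nat_lit 7) 
(.lf (nat_lit 2348877574) (dlOf (nat_lit 2) (nat_lit 0x22015000144080110008002c00200580008003b83))) 
(.lf (nat_lit 4697687686) (dlOf (nat_lit 1) (nat_lit 0x8008000400200020008093a03)))) 
(.nd (nat_lit 11) (.lf (nat_lit 6643848710) (dlOf (nat_lit 1) (nat_lit 0x400400040018009c02))) 
(.lf (nat_lit 469835270) (dlOf (nat_lit 1) (nat_lit 0x800800200020004000800cd03)))))))) 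
(.nd (nat_lit 18) (.nd (nat_lit 24) (.nd (nat_lit 27) (.nd (nat_lit 20) (.nd (nat_lit 7) 
(.nd (nat_lit 22) (.lf (nat_lit 1611202566) (dlOf (nat_lit 1) (nat_lit 0x360028110001))) 
(.lf (nat_lit 4784134) (dlOf (nat_lit 1) (nat_lit 0x600282b0001)))) 
(.lf (nat_lit 1342767238) (dlOf (nat_lit 1) (nat_lit 0x8002000200080c0102)))) (.nd (nat_lit 21) 
(.lf (nat_lit 1343815686) (dlOf (nat_lit 1) (nat_lit 0x28008001400200080008370003))) 
(.lf (nat_lit 3735558) (dlOf (nat_lit 2) (nat_lit 0x4051000202700080c0400160018220001))))) 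
(.nd (nat_lit 7) (.nd (nat_lit 26) 
(.lf (nat_lit 2819162118) (dlOf (nat_lit 1) (nat_lit 0x4004000200081d0002))) 
(.lf (nat_lit 738787334) (dlOf (nat_lit 1) (nat_lit 0x360028110001)))) 
(.lf (nat_lit 470352006) (dlOf (nat_lit 1) (nat_lit 0x8002000200080c0102))))) (.nd (nat_lit 25) 
(.nd (nat_lit 7) (.lf (nat_lit 26804230) (dlOf (nat_lit 1) (nat_lit 0x20028c70281))) 
(.lf (nat_lit 23658630) (dlOf (nat_lit 1) (nat_lit 0x800200020008b80102)))) (.nd (nat_lit 8) 
(.lf (nat_lit 50921990) (dlOf (nat_lit 1) (nat_lit 0x98002003200094d8002))) 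
(.lf (nat_lit 50921734) (dlOf (nat_lit 1) (nat_lit 0x1800194d3581)))))) (.nd (nat_lit 20) 
(.nd (nat_lit 8) (.nd (nat_lit 26) 
(.lf (nat_lit 3492610054) (dlOf (nat_lit 2) (nat_lit 0x1550fd001bf40801c00080198002002000080e0003))) 
(.lf (nat_lit 2754412550) (dlOf (nat_lit 2) (nat_lit 0x15510780329c0801c00080198002002000080e0003)))) 
(.nd (nat_lit 7) (.lf (nat_lit 32310534) (dlOf (nat_lit 1) (nat_lit 0x400200020008ef2f82))) 
(.lf (nat_lit 57477510) (dlOf (nat_lit 1) (nat_lit 0x60019794e81))))) (.nd (nat_lit 21) 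
(.nd (nat_lit 7) (.lf (nat_lit 18677766) (dlOf (nat_lit 1) (nat_lit 0x20008960281))) 
(.lf (nat_lit 1900678) (dlOf (nat_lit 2) (nat_lit 0x10a5c0001d818150100)))) (.nd (nat_lit 9) 
(.nd (nat_lit 22) 
(.lf (nat_lit 29163526) (dlOf (nat_lit 2) (nat_lit 0x1159e0009c0200120018dd0581))) 
(.lf (nat_lit 24969222) (dlOf (nat_lit 1) (nat_lit 0x60028bd0581)))) 
(.lf (nat_lit 12386822) (dlOf (nat_lit 5) (nat_lit 0xfbaa0001d948005a410000eea8000765200168040023baa0003dd300059810006eea80003a0400ac004000200186c0d82)))))))) 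
(.nd (nat_lit 18) (.nd (nat_lit 19) (.nd (nat_lit 27) (.nd (nat_lit 7) (.nd (nat_lit 9) 
(.nd (nat_lit 20) 
(.lf (nat_lit 14745670) (dlOf (nat_lit 3) (nat_lit 0x35d30000e81006dae9800070080110008002c002001e0008770603))) 
(.lf (nat_lit 26280006) (dlOf (nat_lit 1) (nat_lit 0x800080004002000a0008c30603)))) 
(.nd (nat_lit 8) 
(.lf (nat_lit 11600454) (dlOf (nat_lit 3) (nat_lit 0x7123640388f3601c43d70001d0300103d38000e00800180080004002000200086c1103))) 
(.lf (nat_lit 2952861510) (dlOf (nat_lit 2) (nat_lit 0x20060000500400080040006001800a182))))) 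
(.nd (nat_lit 8) (.nd (nat_lit 9) 
(.lf (nat_lit 1342250182) (dlOf (nat_lit 1) (nat_lit 0x800800040020002000800c203))) 
(.lf (nat_lit 57739974) (dlOf (nat_lit 1) (nat_lit 0x100080010002007e0009795803)))) 
(.lf (nat_lit 11600326) (dlOf (nat_lit 2) (nat_lit 0x347a7000270186c0900))))) (.nd (nat_lit 7) 
(.nd (nat_lit 8) (.nd (nat_lit 26) 
(.lf (nat_lit 3355509318) (dlOf (nat_lit 1) (nat_lit 0x1c004000600180a1582))) 
(.lf (nat_lit 1006699078) (dlOf (nat_lit 1) (nat_lit 0x1000400020008018d02)))) (.nd (nat_lit 10) 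
(.lf (nat_lit 201394502) (dlOf (nat_lit 1) (nat_lit 0x40018004d01))) 
(.lf (nat_lit 3691058502) (dlOf (nat_lit 1) (nat_lit 0x28002004e0008009902))))) (.nd (nat_lit 11) 
(.nd (nat_lit 26) (.lf (nat_lit 3355514054) (dlOf (nat_lit 1) (nat_lit 0x18004000400080a9502))) 
(.lf (nat_lit 2617316550) (dlOf (nat_lit 2) (nat_lit 0x30160001380800300080004002000600080a9503)))) 
(.lf (nat_lit 1543572678) (dlOf (nat_lit 1) (nat_lit 0x70008001800200020008146383)))))) 
(.nd (nat_lit 22) (.nd (nat_lit 21) (.nd (nat_lit 7) (.nd (nat_lit 23) 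
(.lf (nat_lit 201916486) (dlOf (nat_lit 3) (nat_lit 0x2004800154080050024000a8040010004000200080c1882))) 
(.lf (nat_lit 42532934) (dlOf (nat_lit 1) (nat_lit 0x1c0019260601)))) 
(.lf (nat_lit 50921926) (dlOf (nat_lit 1) (nat_lit 0x1e00194d7a81)))) (.nd (nat_lit 9) 
(.lf (nat_lit 2754150470) (dlOf (nat_lit 6) (nat_lit 0x2020cb017b05880bd8274062410e02ec07e018103d806a81d8000b01c040c19c035c0cb01e705880e70274078010e039607e01dd03d806f81d8000ae20031831c0186173000a03a80618048000aa1003d032c01f418e010b0b98075031401440ea01d001200270000001503802f031401780240005104017e00080c1881))) 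
(.lf (nat_lit 44632646) (dlOf (nat_lit 10) (nat_lit 0x475cf8016ae7801276bb0073b5d0004dae4000be14015ae7c005973c005ab5d8027dae8000ba100206e7c010b6bb0002c82004db9f0028daec000ae08010ae7c008b6bb0051b5d00014818043dcf80232d760004b04007973e0040b5d8000cc10013dcf800062040246e7c012b6bb006fb5d0000c0180118008015800200020009325203))))) 
(.nd (nat_lit 21) (.nd (nat_lit 26) (.nd (nat_lit 28) 
(.lf (nat_lit 4784198) (dlOf (nat_lit 2) (nat_lit 0x700000003a040020002000a00082b0602))) 
(.lf (nat_lit 3494445126) (dlOf (nat_lit 2) (nat_lit 0x300680016021000d808c00d003c001200d00080040000983000180080050002002a0008220c83)))) 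
(.lf (nat_lit 2756247622) (dlOf (nat_lit 2) (nat_lit 0x300680016021000d808c00d003c001200d00080040000943000180080050002002a0008220c83)))) 
(.nd (nat_lit 8) (.lf (nat_lit 41486918) (dlOf (nat_lit 2) (nat_lit 0x143f400029019245200))) 
(.lf (nat_lit 23658822) (dlOf (nat_lit 1) (nat_lit 0x20028b80601))))))) (.nd (nat_lit 20) 
(.nd (nat_lit 30) (.nd (nat_lit 7) (.nd (nat_lit 9) (.nd (nat_lit 23) 
(.lf (nat_lit 3154444358) (dlOf (nat_lit 1) (nat_lit 0x400081a0601))) 
(.lf (nat_lit 25493574) (dlOf (nat_lit 1) (nat_lit 0x400400020008c10082)))) 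
(.lf (nat_lit 23396934) (dlOf (nat_lit 2) (nat_lit 0x1cb100007004001000400120008b81102)))) 
(.nd (nat_lit 8) (.lf (nat_lit 21299398) (dlOf (nat_lit 1) (nat_lit 0x1c0008a31b81))) 
(.lf (nat_lit 19729350) (dlOf (nat_lit 1) (nat_lit 0x4002000200089d5d82))))) (.nd (nat_lit 10) 
(.nd (nat_lit 26) (.nd (nat_lit 27) 
(.lf (nat_lit 1610940486) (dlOf (nat_lit 1) (nat_lit 0x400080a1681))) 
(.lf (nat_lit 3892641862) (dlOf (nat_lit 1) (nat_lit 0x60008180601)))) 
(.lf (nat_lit 3288662086) (dlOf (nat_lit 14) (nat_lit 0x3f805c024402d001d0138000801807a80b8049005a0001f04018202e0000f010064017002580b40002c0800a405c01e802d000098200ff017000300b4004804e0001206020002e000088100080170000400808100b80001e04040805c000202d00060138000341808880b8049405a0000b0401dc02e000050100eb01700000008117800801ac002008000080a0e03)))) 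
(.nd (nat_lit 7) (.lf (nat_lit 3557102918) (dlOf (nat_lit 1) (nat_lit 0x20008129901))) 
(.lf (nat_lit 3624209606) (dlOf (nat_lit 1) (nat_lit 0x20008146381)))))) (.nd (nat_lit 7) 
(.nd (nat_lit 19) (.nd (nat_lit 21) 
(.lf (nat_lit 26542150) (dlOf (nat_lit 1) (nat_lit 0x40018c50601))) 
(.lf (nat_lit 3473478) (dlOf (nat_lit 1) (nat_lit 0x18008004c00200020008200003)))) (.nd (nat_lit 8) 
(.nd (nat_lit 9) 
(.lf (nat_lit 10289222) (dlOf (nat_lit 3) (nat_lit 0x220000000a8100630b40000400800300080008002001000085c0e83))) 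
(.lf (nat_lit 58526278) (dlOf (nat_lit 2) (nat_lit 0x87400002e0197e5200)))) 
(.lf (nat_lit 1900870) (dlOf (nat_lit 2) (nat_lit 0x150a4700019818150600))))) (.nd (nat_lit 9) 
(.nd (nat_lit 10) (.nd (nat_lit 26) 
(.lf (nat_lit 5773263046) (dlOf (nat_lit 1) (nat_lit 0x4002000200080c1782))) 
(.lf (nat_lit 6377242822) (dlOf (nat_lit 1) (nat_lit 0x80080004002000200080c1b83)))) 
(.lf (nat_lit 473760966) (dlOf (nat_lit 2) (nat_lit 0x60d700004018fa2d00)))) (.nd (nat_lit 19) 
(.lf (nat_lit 20255430) (dlOf (nat_lit 1) (nat_lit 0x4002000200089d8c82))) 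
(.lf (nat_lit 20779718) (dlOf (nat_lit 1) (nat_lit 0x2980080010002006400089d8c83))))))))) 
(.nd (nat_lit 18) (.nd (nat_lit 30) (.nd (nat_lit 20) (.nd (nat_lit 6) (.nd (nat_lit 10) 
(.nd (nat_lit 22) (.nd (nat_lit 8) 
(.lf (nat_lit 2819194886) (dlOf (nat_lit 1) (nat_lit 0x140004000200081e0282))) 
(.lf (nat_lit 2684453126) (dlOf (nat_lit 2) (nat_lit 0x680ec0130404000400400740018014802)))) 
(.nd (nat_lit 21) (.lf (nat_lit 13205510) (dlOf (nat_lit 1) (nat_lit 0xc0008700401))) 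
(.lf (nat_lit 6914054) (dlOf (nat_lit 1) (nat_lit 0x40018480281))))) (.nd (nat_lit 21) 
(.nd (nat_lit 11) 
(.lf (nat_lit 4697719814) (dlOf (nat_lit 1) (nat_lit 0x90008005c00200020008092883))) 
(.lf (nat_lit 54627334) (dlOf (nat_lit 1) (nat_lit 0xc00400020019655f82)))) (.nd (nat_lit 7) 
(.lf (nat_lit 60916998) (dlOf (nat_lit 1) (nat_lit 0xa00298c2f81))) 
(.lf (nat_lit 61441670) (dlOf (nat_lit 1) (nat_lit 0x6d800801f000201e80009923a03)))))) 
(.nd (nat_lit 7) (.nd (nat_lit 8) (.nd (nat_lit 21) 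
(.lf (nat_lit 201949254) (dlOf (nat_lit 3) (nat_lit 0x2c09c0005502002e04e0002a0180c1880))) 
(.lf (nat_lit 2754183238) (dlOf (nat_lit 3) (nat_lit 0x36e1f900910c000a804d8000aa0c07403f202e41e300a00d9803a8678026430002f216900ca0a980290538012028800e013b018409b00015058017800801f8002017c00080c1883)))) 
(.lf (nat_lit 100166) (dlOf (nat_lit 1) (nat_lit 0x400400020008003e02)))) (.nd (nat_lit 26) 
(.lf (nat_lit 2952888518) (dlOf (nat_lit 2) (nat_lit 0x8012000000200160008010401))) 
(.nd (nat_lit 27) (.lf (nat_lit 604078278) (dlOf (nat_lit 1) (nat_lit 0x720008010401))) 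
(.lf (nat_lit 5301698758) (dlOf (nat_lit 1) (nat_lit 0x300080024002000e0008031b83))))))) 
(.nd (nat_lit 6) (.nd (nat_lit 8) (.nd (nat_lit 19) (.nd (nat_lit 10) 
(.lf (nat_lit 28409862) (dlOf (nat_lit 1) (nat_lit 0x20008d90281))) 
(.lf (nat_lit 59870214) (dlOf (nat_lit 1) (nat_lit 0x200019845f81)))) (.nd (nat_lit 22) 
(.lf (nat_lit 471433222) (dlOf (nat_lit 1) (nat_lit 0x200282f0481))) 
(.lf (nat_lit 5865478) (dlOf (nat_lit 1) (nat_lit 0x400183f0281))))) (.nd (nat_lit 7) 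
(.nd (nat_lit 10) (.lf (nat_lit 40993030) (dlOf (nat_lit 1) (nat_lit 0x8008000400200020009203583))) 
(.lf (nat_lit 36799750) (dlOf (nat_lit 1) (nat_lit 0x60019072f81)))) 
(.lf (nat_lit 2753134982) (dlOf (nat_lit 2) (nat_lit 0x1181f900752818090780))))) (.nd (nat_lit 8) 
(.nd (nat_lit 9) (.lf (nat_lit 26312774) (dlOf (nat_lit 1) (nat_lit 0xc00400020018c30602))) 
(.nd (nat_lit 11) 
(.lf (nat_lit 2753135174) (dlOf (nat_lit 23) (nat_lit 0x4c04980002902025624c000140100021260006080c014440000e01ff00420fa802887cc01483d200a21df00510af0026057401442ac00a214c00510a1002884d00004e38046c498008e200015c0ff800a07d400c03e600321df00b80af008d8574038c2b8010414c012809a000098580d9893007883fe031215d000128301b612600f187fc06302ba000240602b424c00280ff80008c1009d0930000400404004980001f02019e24c0000e81007e1260000700806789300003404050c4980001902026c24c0000c0100e71260000580809989300002804013c4980001302024824c000090101401260000440808a8930000200403a44980000f0201b024c01180ff802c07f8003c3d201b615d00c00ae0000003001500080bcc002004e0008091103)))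 
(.lf (nat_lit 53578310) (dlOf (nat_lit 1) (nat_lit 0x900080004002002600095f5203))))) 
(.nd (nat_lit 7) (.lf (nat_lit 20027206) (dlOf (nat_lit 1) (nat_lit 0xa400189da181))) 
(.lf (nat_lit 2753135046) (dlOf (nat_lit 11) (nat_lit 0x31624c0001381018d126000098080c3093000048040154498000230202a224c0001101001b0fc000887d800682b20002006002a1f8000b0ac80007c1000d87e000302b20001e04023e24c0000a010150126000487e000083ec001015900020ab8000002804a00080228002030e0008090903))))))) 
(.nd (nat_lit 6) (.nd (nat_lit 7) (.nd (nat_lit 8) (.nd (nat_lit 10) 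
(.lf (nat_lit 1344897030) (dlOf (nat_lit 1) (nat_lit 0x400200020008990002))) (.nd (nat_lit 11) 
(.lf (nat_lit 2080474118) (dlOf (nat_lit 1) (nat_lit 0x400400020008092882))) 
(.lf (nat_lit 5637245958) (dlOf (nat_lit 1) (nat_lit 0x20008055f81))))) (.nd (nat_lit 9) 
(.nd (nat_lit 22) (.lf (nat_lit 3422650630) (dlOf (nat_lit 1) (nat_lit 0x2400400340008014802))) 
(.lf (nat_lit 1346470150) (dlOf (nat_lit 1) (nat_lit 0x8008001800200020008f60a83)))) 
(.nd (nat_lit 27) (.lf (nat_lit 5637245702) (dlOf (nat_lit 1) (nat_lit 0x340018055b01))) 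
(.lf (nat_lit 5771463430) (dlOf (nat_lit 1) (nat_lit 0x340028005b01)))))) (.nd (nat_lit 26) 
(.nd (nat_lit 8) 
(.lf (nat_lit 3355542150) (dlOf (nat_lit 1) (nat_lit 0x80080004002000200080a1a03))) 
(.nd (nat_lit 10) (.lf (nat_lit 3491332486) (dlOf (nat_lit 2) (nat_lit 0x1181e700440018090780))) 
(.lf (nat_lit 6308332934) (dlOf (nat_lit 1) (nat_lit 0x80028053601))))) (.nd (nat_lit 8) 
(.lf (nat_lit 5435916422) (dlOf (nat_lit 1) (nat_lit 0x20028030e01))) (.nd (nat_lit 10) 
(.lf (nat_lit 3556870534) (dlOf (nat_lit 1) (nat_lit 0x8c00080d4e81))) 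
(.lf (nat_lit 5838572934) (dlOf (nat_lit 1) (nat_lit 0x24004000600080f6c82))))))) (.nd (nat_lit 26) 
(.nd (nat_lit 19) (.nd (nat_lit 11) 
(.lf (nat_lit 2013364294) (dlOf (nat_lit 1) (nat_lit 0x60018020581))) 
(.lf (nat_lit 1073846342) (dlOf (nat_lit 1) (nat_lit 0x40040002000800a682)))) (.nd (nat_lit 20) 
(.nd (nat_lit 21) 
(.lf (nat_lit 3221848134) (dlOf (nat_lit 2) (nat_lit 0x130230000000800880080004002001400081a1403))) 
(.lf (nat_lit 3492380742) (dlOf (nat_lit 2) (nat_lit 0x4a1e80003d0180c1400)))) (.nd (nat_lit 7) 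
(.lf (nat_lit 3491332678) (dlOf (nat_lit 23) (nat_lit 0x4c0468000290202562340001401000211a002887b801c03da00841e3000c0f08028877801483a800a21ca00510ac8026056001442a200a214c00510a1002884d00004e38046c468008e1ee015c0f6800a078c00c03bc00321ca00b80ac808d8560038c2ae010414c012809a000098580d988d007883da0312158000128301b611a00f187b406302b0000240602b423400280f680008c1009d08d0000400404004680001f02019e2340000e81007e11a0000700806788d00003404050c4680001902026c2340000c0100e711a0000580809988d00002804013c468000130202482340000901014011a0000440808a88d0000200403a44680000f0201b023401180f6802c07b0003c3a801b615800c00ab8000003001500080bcc002004e0008091103))) 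
(.lf (nat_lit 3491332550) (dlOf (nat_lit 11) (nat_lit 0x3162340001381018d11a000098080c308d000048040154468000230202a22340001101001b0f30008879000682a80002006002a1e6000b0aa00007c1000d879800302a80001e04023e2340000a01015011a0004879800083c8001015400020a90000002804a00080228002030e0008090903)))))) 
(.nd (nat_lit 11) (.nd (nat_lit 28) (.nd (nat_lit 9) 
(.lf (nat_lit 1140949062) (dlOf (nat_lit 1) (nat_lit 0x60018020581))) 
(.lf (nat_lit 3288433222) (dlOf (nat_lit 2) (nat_lit 0x200ac0094e040070004000a0008018802)))) 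
(.nd (nat_lit 8) 
(.lf (nat_lit 1409908806) (dlOf (nat_lit 1) (nat_lit 0x3e8008002c002008400080a0e03))) 
(.lf (nat_lit 3691086150) (dlOf (nat_lit 1) (nat_lit 0x8008001000200040008010783))))) 
(.nd (nat_lit 7) (.nd (nat_lit 27) 
(.lf (nat_lit 3825306694) (dlOf (nat_lit 1) (nat_lit 0x400400020008146082))) 
(.lf (nat_lit 1812040774) (dlOf (nat_lit 1) (nat_lit 0x20018146081)))) 
(.lf (nat_lit 5838576582) (dlOf (nat_lit 1) (nat_lit 0x4004000200080fbe02)))))))) (.nd (nat_lit 20) 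
(.nd (nat_lit 6) (.nd (nat_lit 29) (.nd (nat_lit 8) (.nd (nat_lit 22) (.nd (nat_lit 28) 
(.lf (nat_lit 3221585926) (dlOf (nat_lit 3) (nat_lit 0x402300013008004011800000040014002001e0008150002))) 
(.lf (nat_lit 5637505030) (dlOf (nat_lit 1) (nat_lit 0x160028100001)))) (.nd (nat_lit 7) 
(.lf (nat_lit 3494215686) (dlOf (nat_lit 5) (nat_lit 0x940a80018051000b0280003011401d4a1000200a800080510075202000802b00040150011c0a600900500009026800580f40004060001601a0071888000e0260032d8080088008016000200de00081d0003))) 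
(.lf (nat_lit 47022214) (dlOf (nat_lit 1) (nat_lit 0x400400020009392282))))) (.nd (nat_lit 7) 
(.nd (nat_lit 9) (.lf (nat_lit 8750342) (dlOf (nat_lit 1) (nat_lit 0x20028512f81))) 
(.lf (nat_lit 8750854) (dlOf (nat_lit 1) (nat_lit 0x40028513b81)))) 
(.lf (nat_lit 36538758) (dlOf (nat_lit 1) (nat_lit 0x20019074e81))))) (.nd (nat_lit 27) 
(.nd (nat_lit 19) (.nd (nat_lit 22) 
(.lf (nat_lit 6241484806) (dlOf (nat_lit 1) (nat_lit 0x160028100001))) 
(.lf (nat_lit 2756018182) (dlOf (nat_lit 5) (nat_lit 0x940a80018051000b02800030114011001000200a800080510043f82000802b00040150011c0a600900500009026800580f40004060001601a0040608000e026001c24080088008016000200de00081d0003)))) 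
(.lf (nat_lit 537755654) (dlOf (nat_lit 1) (nat_lit 0x7800400080008160002)))) (.nd (nat_lit 26) 
(.lf (nat_lit 5234851846) (dlOf (nat_lit 2) (nat_lit 0x600540309604002c004000c0008100002))) 
(.nd (nat_lit 28) 
(.lf (nat_lit 3959783430) (dlOf (nat_lit 3) (nat_lit 0x40230000f008004011800000040014002001e0008150002))) 
(.lf (nat_lit 3154477062) (dlOf (nat_lit 5) (nat_lit 0xe0470043701000900a0021a4080018154001006800843040034037000000181a0000))))))) 
(.nd (nat_lit 7) (.nd (nat_lit 8) (.nd (nat_lit 9) (.nd (nat_lit 19) 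
(.lf (nat_lit 3154477126) (dlOf (nat_lit 2) (nat_lit 0x14017000020181a0600))) 
(.lf (nat_lit 13467718) (dlOf (nat_lit 2) (nat_lit 0x4c51100027018721880)))) 
(.lf (nat_lit 51219014) (dlOf (nat_lit 9) (nat_lit 0x45fd800b2fe800f5652000eb280002e04000e6090004b04400657f60036bfa003759480122ca000314f60005a0e0214c1300085fe0001afe8008d654000520800e4c13000660880042ff000796540004b08000cbf9000659380009010002b04000657f20042b27000a4c580008820003304000417f2000eb27000653d0003a9a0001d316000210c0026bf9000a59380007c10088800800bc00201400009515203)))) 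
(.nd (nat_lit 10) (.lf (nat_lit 6376227142) (dlOf (nat_lit 1) (nat_lit 0x400400020008090c82))) 
(.lf (nat_lit 8754502) (dlOf (nat_lit 1) (nat_lit 0x20028519901))))) (.nd (nat_lit 9) 
(.nd (nat_lit 22) (.lf (nat_lit 1208320198) (dlOf (nat_lit 1) (nat_lit 0x10004000800080c1b82))) 
(.lf (nat_lit 4554950) (dlOf (nat_lit 1) (nat_lit 0x1800400060008290402)))) (.nd (nat_lit 8) 
(.lf (nat_lit 6377802438) (dlOf (nat_lit 1) (nat_lit 0x2000280e5801))) 
(.lf (nat_lit 19763142) (dlOf (nat_lit 1) (nat_lit 0x400089d7a81))))))) (.nd (nat_lit 19) 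
(.nd (nat_lit 24) (.nd (nat_lit 7) (.nd (nat_lit 28) (.nd (nat_lit 6) 
(.lf (nat_lit 3506182) (dlOf (nat_lit 4) (nat_lit 0x8341000219ac001c9d200124d800ecf840003341000093a403b3a080020d04000e4e9000926c0075081800c8008001800200360008200003))) 
(.lf (nat_lit 37060678) (dlOf (nat_lit 1) (nat_lit 0x400200020009090602)))) (.nd (nat_lit 9) 
(.lf (nat_lit 471171078) (dlOf (nat_lit 2) (nat_lit 0x30238009a6040098004001200082a0002))) 
(.lf (nat_lit 1345686022) (dlOf (nat_lit 1) (nat_lit 0x2a0008dd5001))))) (.nd (nat_lit 8) 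
(.lf (nat_lit 11894918) (dlOf (nat_lit 1) (nat_lit 0x4002000200086c0102))) 
(.lf (nat_lit 45451654) (dlOf (nat_lit 1) (nat_lit 0x400200020009324e82))))) (.nd (nat_lit 6) 
(.nd (nat_lit 10) (.nd (nat_lit 21) 
(.lf (nat_lit 55934982) (dlOf (nat_lit 1) (nat_lit 0x800196f0001))) 
(.lf (nat_lit 24477702) (dlOf (nat_lit 4) (nat_lit 0xd79e0088002000abcf004060100155e4000c2eb400e8208000800200020008ba0002)))) 
(.lf (nat_lit 20286470) (dlOf (nat_lit 1) (nat_lit 0x200289d5f81)))) (.nd (nat_lit 21) 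
(.lf (nat_lit 55935046) (dlOf (nat_lit 1) (nat_lit 0x180080008002000600096f0603))) 
(.lf (nat_lit 62226502) (dlOf (nat_lit 1) (nat_lit 0x400400020009981282)))))) (.nd (nat_lit 21) 
(.nd (nat_lit 8) (.nd (nat_lit 23) 
(.lf (nat_lit 52264966) (dlOf (nat_lit 1) (nat_lit 0xa0029520001))) 
(.lf (nat_lit 27099142) (dlOf (nat_lit 1) (nat_lit 0x400400020008ca0002)))) (.nd (nat_lit 7) 
(.lf (nat_lit 4095575302) (dlOf (nat_lit 1) (nat_lit 0x200280e2f81))) 
(.lf (nat_lit 48073094) (dlOf (nat_lit 1) (nat_lit 0x40019404e81))))) (.nd (nat_lit 6) 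
(.nd (nat_lit 7) (.lf (nat_lit 1346207750) (dlOf (nat_lit 1) (nat_lit 0xc00400100008e60002))) 
(.lf (nat_lit 20807814) (dlOf (nat_lit 2) (nat_lit 0x81100003202000800089e2281)))) 
(.nd (nat_lit 10) 
(.lf (nat_lit 1346207814) (dlOf (nat_lit 2) (nat_lit 0x270ae8002f8080150008001400200040008e60603))) 
(.lf (nat_lit 8229958) (dlOf (nat_lit 2) (nat_lit 0x24e000011018519300))))))))))) (.nd (nat_lit 15) 
(.nd (nat_lit 16) (.nd (nat_lit 18) (.nd (nat_lit 28) (.nd (nat_lit 29) (.nd (nat_lit 9) 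
(.nd (nat_lit 22) (.nd (nat_lit 26) (.nd (nat_lit 27) 
(.lf (nat_lit 5368840198) (dlOf (nat_lit 1) (nat_lit 0x38008002c002001e0008040003))) 
(.lf (nat_lit 5503057926) (dlOf (nat_lit 1) (nat_lit 0x38008002c002001e0008040003)))) 
(.nd (nat_lit 11) 
(.lf (nat_lit 1140981766) (dlOf (nat_lit 2) (nat_lit 0x700140000004000c00200020008040002))) 
(.lf (nat_lit 201463814) (dlOf (nat_lit 1) (nat_lit 0x2002800a601))))) (.nd (nat_lit 6) 
(.nd (nat_lit 19) (.lf (nat_lit 15859718) (dlOf (nat_lit 1) (nat_lit 0x40018840281))) 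
(.lf (nat_lit 21626886) (dlOf (nat_lit 1) (nat_lit 0x20018a50001)))) (.nd (nat_lit 7) 
(.lf (nat_lit 4849734) (dlOf (nat_lit 2) (nat_lit 0x4152800038040070004000a00082d0602))) 
(.lf (nat_lit 55182534) (dlOf (nat_lit 2) (nat_lit 0x54a69000000196d2d00)))))) (.nd (nat_lit 7) 
(.nd (nat_lit 6) (.nd (nat_lit 8) 
(.lf (nat_lit 20057606) (dlOf (nat_lit 1) (nat_lit 0x580080024002000200089d7003))) 
(.lf (nat_lit 20581126) (dlOf (nat_lit 1) (nat_lit 0x800189d5b01)))) 
(.lf (nat_lit 33163846) (dlOf (nat_lit 2) (nat_lit 0x663000025818f55200)))) (.nd (nat_lit 6) 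
(.nd (nat_lit 8) (.lf (nat_lit 3355580038) (dlOf (nat_lit 1) (nat_lit 0x24004000600080a9e02))) 
(.lf (nat_lit 20056966) (dlOf (nat_lit 1) (nat_lit 0x4600080004002007200089d5c03)))) 
(.lf (nat_lit 3221363654) (dlOf (nat_lit 1) (nat_lit 0x1880040030000811be02)))))) (.nd (nat_lit 30) 
(.nd (nat_lit 8) (.nd (nat_lit 6) (.nd (nat_lit 19) 
(.lf (nat_lit 2752643078) (dlOf (nat_lit 1) (nat_lit 0x400400020018020002))) 
(.lf (nat_lit 2819227654) (dlOf (nat_lit 1) (nat_lit 0x48004000800181f0282)))) 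
(.lf (nat_lit 2754216006) (dlOf (nat_lit 5) (nat_lit 0x18e0680144032800c8180047c0a60254050015202680b78108055007a02380380025011800a8084007003c00058180270068012d0328014018003ec0a60230050019d02680db8108066c07a0220038006701180078084000ae2c00701de00380ed002c02600110000000a81000440980005102003200180c1881)))) 
(.nd (nat_lit 7) (.lf (nat_lit 2752120582) (dlOf (nat_lit 1) (nat_lit 0x20028003b81))) 
(.nd (nat_lit 10) (.lf (nat_lit 2754747270) (dlOf (nat_lit 1) (nat_lit 0x4200280fbc81))) 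
(.lf (nat_lit 537003910) (dlOf (nat_lit 1) (nat_lit 0x18800400540008004182)))))) (.nd (nat_lit 6) 
(.nd (nat_lit 7) (.nd (nat_lit 9) 
(.lf (nat_lit 3892969478) (dlOf (nat_lit 2) (nat_lit 0x300a004e100800080080014002000200082c0003))) 
(.lf (nat_lit 3892445702) (dlOf (nat_lit 2) (nat_lit 0x200000000018118000)))) 
(.lf (nat_lit 5905713286) (dlOf (nat_lit 1) (nat_lit 0x140018144801)))) (.nd (nat_lit 7) 
(.lf (nat_lit 1678377030) (dlOf (nat_lit 11) (nat_lit 0x6c014000f602006400a0005a0100190050002cc0800c002800164040060014000b102003000a0005481002c00500019c0800581580009e041ca80ac098605300ce027004f8130004006a086a03200090120397804c00b80200004e12004604f003501c0000d0100b0800803f400218360008201883))) 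
(.nd (nat_lit 27) 
(.lf (nat_lit 1610744262) (dlOf (nat_lit 2) (nat_lit 0x2c06e000390200020028091101))) 
(.lf (nat_lit 3892445638) (dlOf (nat_lit 1) (nat_lit 0x20018117a81)))))))) (.nd (nat_lit 26) 
(.nd (nat_lit 7) (.nd (nat_lit 6) (.nd (nat_lit 19) (.nd (nat_lit 20) 
(.lf (nat_lit 2013396998) (dlOf (nat_lit 2) (nat_lit 0x700140000004000c00200020008040002))) 
(.lf (nat_lit 3490840582) (dlOf (nat_lit 1) (nat_lit 0x400400020018020002)))) 
(.lf (nat_lit 1342832646) (dlOf (nat_lit 3) (nat_lit 0x11188022000800308cc01018040018002009600080e0002)))) 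
(.nd (nat_lit 8) (.nd (nat_lit 9) 
(.lf (nat_lit 805961798) (dlOf (nat_lit 1) (nat_lit 0x40028201401))) 
(.lf (nat_lit 1345980998) (dlOf (nat_lit 8) (nat_lit 0x2615f00470af001d035c0118136008a08b0002e0500080af0002826c000b60800902be00b815e003e06b802e826c01701160005a0a007c15d005304d0000cc10004857400481340003004000a09a000170100770b0003a036401a4138000000600860028e25201)))) 
(.lf (nat_lit 805440838) (dlOf (nat_lit 1) (nat_lit 0x80080008002000c0008116983))))) 
(.nd (nat_lit 8) (.nd (nat_lit 9) 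
(.lf (nat_lit 1346502790) (dlOf (nat_lit 1) (nat_lit 0x400200020008f72282))) 
(.lf (nat_lit 5637277318) (dlOf (nat_lit 1) (nat_lit 0x4004000200080d3a02)))) (.nd (nat_lit 6) 
(.nd (nat_lit 9) (.lf (nat_lit 5637277062) (dlOf (nat_lit 1) (nat_lit 0x2e00180d3601))) 
(.lf (nat_lit 4563536774) (dlOf (nat_lit 1) (nat_lit 0x280028095c01)))) 
(.lf (nat_lit 805444550) (dlOf (nat_lit 3) (nat_lit 0x5404e0010c01000c02b0008200800c00080008002000e000811be03)))))) 
(.nd (nat_lit 27) (.nd (nat_lit 6) (.nd (nat_lit 8) 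
(.lf (nat_lit 3020030470) (dlOf (nat_lit 2) (nat_lit 0xc00e0003006000100000025a0c00a8004001600080e8002))) 
(.lf (nat_lit 3020030214) (dlOf (nat_lit 1) (nat_lit 0xc004000400080e3582)))) (.nd (nat_lit 7) 
(.nd (nat_lit 9) (.lf (nat_lit 1409941574) (dlOf (nat_lit 1) (nat_lit 0xe000080a0e01))) 
(.lf (nat_lit 4095870534) (dlOf (nat_lit 1) (nat_lit 0x34004000200080e3802)))) 
(.lf (nat_lit 4094296518) (dlOf (nat_lit 1) (nat_lit 0x8008000400200020008037003))))) 
(.nd (nat_lit 8) (.nd (nat_lit 9) (.nd (nat_lit 19) 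
(.lf (nat_lit 470941702) (dlOf (nat_lit 1) (nat_lit 0x14000200020008200282))) 
(.lf (nat_lit 470417414) (dlOf (nat_lit 3) (nat_lit 0x1118803a940800308cc01c62040018002009600080e0002)))) 
(.lf (nat_lit 473563654) (dlOf (nat_lit 1) (nat_lit 0x20008f68001)))) (.nd (nat_lit 6) 
(.lf (nat_lit 474088710) (dlOf (nat_lit 1) (nat_lit 0x20029082f81))) 
(.lf (nat_lit 3154248134) (dlOf (nat_lit 1) (nat_lit 0x8008008800200020008137003)))))))) 
(.nd (nat_lit 19) (.nd (nat_lit 6) (.nd (nat_lit 7) (.nd (nat_lit 22) (.nd (nat_lit 9) 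
(.nd (nat_lit 26) 
(.lf (nat_lit 6442844166) (dlOf (nat_lit 4) (nat_lit 0x2101a003b7c0800580d0007006400020310075283001e0190038c4080050008009c002002000081d0003))) 
(.lf (nat_lit 5838864390) (dlOf (nat_lit 4) (nat_lit 0x2101a0022e80800580d0007006400020310044003001e019002030080050008009c002002000081d0003)))) 
(.nd (nat_lit 11) (.lf (nat_lit 134611462) (dlOf (nat_lit 2) (nat_lit 0x20410000b818090d80))) 
(.lf (nat_lit 1745226246) (dlOf (nat_lit 1) (nat_lit 0x3200180e5001))))) (.nd (nat_lit 10) 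
(.nd (nat_lit 21) 
(.lf (nat_lit 29753350) (dlOf (nat_lit 2) (nat_lit 0x27c8d000fa00800c0008005c00200140008e30003))) 
(.lf (nat_lit 48627718) (dlOf (nat_lit 1) (nat_lit 0x20019420001)))) 
(.lf (nat_lit 38142982) (dlOf (nat_lit 1) (nat_lit 0xc00200260009132882))))) (.nd (nat_lit 26) 
(.nd (nat_lit 20) (.nd (nat_lit 21) 
(.lf (nat_lit 1476788358) (dlOf (nat_lit 1) (nat_lit 0x38008003c002002400081a0483))) 
(.lf (nat_lit 23462022) (dlOf (nat_lit 1) (nat_lit 0x800200020008b80102)))) (.nd (nat_lit 22) 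
(.lf (nat_lit 11927686) (dlOf (nat_lit 1) (nat_lit 0x4002001600086c0102))) 
(.lf (nat_lit 41287814) (dlOf (nat_lit 1) (nat_lit 0x620029233b01))))) (.nd (nat_lit 30) 
(.nd (nat_lit 10) (.lf (nat_lit 604373126) (dlOf (nat_lit 1) (nat_lit 0xc002000400081a0482))) 
(.lf (nat_lit 872809606) (dlOf (nat_lit 1) (nat_lit 0x3000180e2b01)))) (.nd (nat_lit 27) 
(.lf (nat_lit 3557163142) (dlOf (nat_lit 1) (nat_lit 0x60018130281))) 
(.lf (nat_lit 2080768134) (dlOf (nat_lit 1) (nat_lit 0x400280c0e01))))))) (.nd (nat_lit 26) 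
(.nd (nat_lit 28) (.nd (nat_lit 20) (.nd (nat_lit 9) 
(.lf (nat_lit 1074135110) (dlOf (nat_lit 3) (nat_lit 0x1c01d80d7009c000b00807dc04e0005702002400180c1881))) 
(.lf (nat_lit 134611526) (dlOf (nat_lit 5) (nat_lit 0x14204a01c602300009c100188128006008c003002f00060060000982000301280004a040088094000240200620018091101)))) 
(.nd (nat_lit 21) 
(.lf (nat_lit 26607686) (dlOf (nat_lit 2) (nat_lit 0xe94c20001b0200020008c50601))) 
(.lf (nat_lit 37093446) (dlOf (nat_lit 1) (nat_lit 0x1580009090601))))) (.nd (nat_lit 27) 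
(.nd (nat_lit 29) 
(.lf (nat_lit 2416312390) (dlOf (nat_lit 1) (nat_lit 0x80080004002000200080d0c83))) 
(.lf (nat_lit 4026925126) (dlOf (nat_lit 2) (nat_lit 0x3c40200000b8180d0c80)))) 
(.lf (nat_lit 2550530118) (dlOf (nat_lit 1) (nat_lit 0x80080004002000200080d0c83))))) 
(.nd (nat_lit 7) (.nd (nat_lit 9) (.nd (nat_lit 30) 
(.lf (nat_lit 4362469446) (dlOf (nat_lit 1) (nat_lit 0x80018090001))) 
(.lf (nat_lit 3288727622) (dlOf (nat_lit 2) (nat_lit 0x3c40200000b8180d0c80)))) 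
(.lf (nat_lit 201720390) (dlOf (nat_lit 5) (nat_lit 0x14204a01c602300009c100188128006008c003002f00060060000982000301280004a040088094000240200620018091101)))) 
(.nd (nat_lit 8) 
(.lf (nat_lit 1009124550) (dlOf (nat_lit 10) (nat_lit 0xec1c600680e2004603b0000a018014038c01641c4007a0760001303005b03b00007c0800e838c00400ec0001d0400460e3001503b00006010009838c00781c4005e0760000803003707180198388006c0ec0000506001a0e3003003b00000810020038c00c81c400240d9008603b000000200278008006c002000c0009082d03))) 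
(.nd (nat_lit 27) (.lf (nat_lit 4362469830) (dlOf (nat_lit 1) (nat_lit 0x20028090901))) 
(.lf (nat_lit 4228252102) (dlOf (nat_lit 1) (nat_lit 0x20028090901)))))))) (.nd (nat_lit 7) 
(.nd (nat_lit 6) (.nd (nat_lit 21) (.nd (nat_lit 22) (.nd (nat_lit 26) 
(.lf (nat_lit 2819489798) (dlOf (nat_lit 1) (nat_lit 0x3b80080114002006a00082b0283))) 
(.lf (nat_lit 3557687302) (dlOf (nat_lit 1) (nat_lit 0x3b80080114002006a00082b0283)))) 
(.nd (nat_lit 8) (.lf (nat_lit 5111814) (dlOf (nat_lit 1) (nat_lit 0x8008000400200020008310003))) 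
(.lf (nat_lit 55444742) (dlOf (nat_lit 1) (nat_lit 0x200096d2f81))))) (.nd (nat_lit 8) 
(.nd (nat_lit 10) (.lf (nat_lit 19792390) (dlOf (nat_lit 1) (nat_lit 0x80080004002000200089d1483))) 
(.lf (nat_lit 2754481670) (dlOf (nat_lit 3) (nat_lit 0x10100000280400080800000b02000200180f7001)))) 
(.lf (nat_lit 8261894) (dlOf (nat_lit 1) (nat_lit 0x680028518081))))) (.nd (nat_lit 9) 
(.nd (nat_lit 12) 
(.lf (nat_lit 4063302) (dlOf (nat_lit 2) (nat_lit 0x102c0000215e000507180028384001c1b2000c07100050328000943800480080068002000c0008270c83))) 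
(.lf (nat_lit 19796038) (dlOf (nat_lit 1) (nat_lit 0x4004000400089d7d82)))) (.nd (nat_lit 8) 
(.nd (nat_lit 12) (.lf (nat_lit 4095608390) (dlOf (nat_lit 1) (nat_lit 0x18002000200080e3802))) 
(.lf (nat_lit 19797574) (dlOf (nat_lit 1) (nat_lit 0x80080004002000200089d9c03)))) 
(.lf (nat_lit 19794758) (dlOf (nat_lit 1) (nat_lit 0x200089d5c01)))))) (.nd (nat_lit 9) 
(.nd (nat_lit 24) (.nd (nat_lit 10) (.nd (nat_lit 20) 
(.lf (nat_lit 47054982) (dlOf (nat_lit 1) (nat_lit 0x400400020009392282))) 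
(.lf (nat_lit 5773328518) (dlOf (nat_lit 1) (nat_lit 0xc00180c0e01)))) 
(.lf (nat_lit 2754481286) (dlOf (nat_lit 2) (nat_lit 0xe042000140180f6100)))) (.nd (nat_lit 8) 
(.nd (nat_lit 20) (.lf (nat_lit 53346438) (dlOf (nat_lit 1) (nat_lit 0x14004000200195a0e02))) 
(.lf (nat_lit 20840582) (dlOf (nat_lit 2) (nat_lit 0x7a940002d02000800089e2281)))) 
(.lf (nat_lit 19796358) (dlOf (nat_lit 1) (nat_lit 0x80080004002000200089d8383))))) 
(.nd (nat_lit 6) (.nd (nat_lit 8) 
(.lf (nat_lit 4095608454) (dlOf (nat_lit 1) (nat_lit 0x4004000200080e3a02))) (.nd (nat_lit 11) 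
(.lf (nat_lit 19792774) (dlOf (nat_lit 1) (nat_lit 0x4004000200089d2582))) 
(.lf (nat_lit 19794822) (dlOf (nat_lit 1) (nat_lit 0x4002000200089d5c02))))) (.nd (nat_lit 8) 
(.nd (nat_lit 10) (.nd (nat_lit 11) 
(.lf (nat_lit 19796678) (dlOf (nat_lit 1) (nat_lit 0x80080004002000200089d8c83))) 
(.lf (nat_lit 19798726) (dlOf (nat_lit 1) (nat_lit 0x80080004002000200089db983)))) 
(.lf (nat_lit 19795654) (dlOf (nat_lit 1) (nat_lit 0x4004000400089d7302)))) 
(.lf (nat_lit 19798982) (dlOf (nat_lit 1) (nat_lit 0x200089dbe01))))))))) (.nd (nat_lit 6) 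
(.nd (nat_lit 19) (.nd (nat_lit 27) (.nd (nat_lit 21) (.nd (nat_lit 10) (.nd (nat_lit 7) 
(.nd (nat_lit 20) 
(.lf (nat_lit 3557228550) (dlOf (nat_lit 1) (nat_lit 0x1180080014002000a0008170003))) 
(.lf (nat_lit 18284550) (dlOf (nat_lit 2) (nat_lit 0x10e33800000080038008006400200020008920003)))) 
(.nd (nat_lit 20) 
(.lf (nat_lit 6241321094) (dlOf (nat_lit 1) (nat_lit 0x28008005c002000c00080d0383))) 
(.lf (nat_lit 9633926) (dlOf (nat_lit 2) (nat_lit 0xc25a0001b018570e00))))) (.nd (nat_lit 8) 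
(.nd (nat_lit 22) 
(.lf (nat_lit 6241324038) (dlOf (nat_lit 2) (nat_lit 0x80000000002000600080d5f81))) 
(.lf (nat_lit 54725638) (dlOf (nat_lit 2) (nat_lit 0x339d00014c080058008001000200320009655f83)))) 
(.lf (nat_lit 5368907014) (dlOf (nat_lit 1) (nat_lit 0x400400020008092f82))))) (.nd (nat_lit 9) 
(.nd (nat_lit 7) (.nd (nat_lit 8) 
(.lf (nat_lit 2555910) (dlOf (nat_lit 2) (nat_lit 0x1f291c019d4040004004005c0018170002))) 
(.lf (nat_lit 35849478) (dlOf (nat_lit 1) (nat_lit 0x20019012f81)))) (.nd (nat_lit 8) 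
(.lf (nat_lit 11993222) (dlOf (nat_lit 1) (nat_lit 0x200186c0101))) 
(.lf (nat_lit 36899206) (dlOf (nat_lit 1) (nat_lit 0x80009074e81))))) (.nd (nat_lit 18) 
(.nd (nat_lit 26) (.lf (nat_lit 2294278) (dlOf (nat_lit 1) (nat_lit 0x20004001a0008150d82))) 
(.lf (nat_lit 2753757702) (dlOf (nat_lit 3) (nat_lit 0x30758002d00400143ac0001c0200020028090d81)))) 
(.lf (nat_lit 58130950) (dlOf (nat_lit 3) (nat_lit 0xd84200038810006c2100046100000ca080038004001600097c7b02)))))) 
(.nd (nat_lit 26) (.nd (nat_lit 7) (.nd (nat_lit 8) (.nd (nat_lit 18) 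
(.lf (nat_lit 1476591622) (dlOf (nat_lit 1) (nat_lit 0x60028090001))) 
(.lf (nat_lit 2819031046) (dlOf (nat_lit 1) (nat_lit 0x3800800c000200220008150003)))) 
(.lf (nat_lit 4697818374) (dlOf (nat_lit 1) (nat_lit 0x400400020008092f82)))) (.nd (nat_lit 8) 
(.nd (nat_lit 12) 
(.lf (nat_lit 2013464198) (dlOf (nat_lit 6) (nat_lit 0xd20130000bc0802680980005c0402fc04c0002c0200fc0260000f8100620130000780800f8008008c002003e0008093a03))) 
(.lf (nat_lit 4160951942) (dlOf (nat_lit 1) (nat_lit 0x80080024002000400080a9e03)))) 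
(.lf (nat_lit 2013463942) (dlOf (nat_lit 1) (nat_lit 0x8008000400200020008093603))))) 
(.nd (nat_lit 8) (.nd (nat_lit 7) (.nd (nat_lit 29) 
(.lf (nat_lit 471007238) (dlOf (nat_lit 1) (nat_lit 0x8008000400200020008230003))) 
(.lf (nat_lit 1007878150) (dlOf (nat_lit 1) (nat_lit 0x100028810001)))) 
(.lf (nat_lit 4764927622) (dlOf (nat_lit 1) (nat_lit 0x400400020008093a02)))) (.nd (nat_lit 9) 
(.nd (nat_lit 20) (.lf (nat_lit 5033362694) (dlOf (nat_lit 1) (nat_lit 0x20028092f81))) 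
(.lf (nat_lit 473105670) (dlOf (nat_lit 1) (nat_lit 0x20028d12f81)))) 
(.lf (nat_lit 738396934) (dlOf (nat_lit 1) (nat_lit 0xe0018095b01))))))) (.nd (nat_lit 8) 
(.nd (nat_lit 27) (.nd (nat_lit 9) (.nd (nat_lit 18) (.nd (nat_lit 20) 
(.lf (nat_lit 9109510) (dlOf (nat_lit 1) (nat_lit 0x400400020008520002))) 
(.lf (nat_lit 2753232902) (dlOf (nat_lit 2) (nat_lit 0x10b0a9001ed4080250008014400200640008090003)))) 
(.nd (nat_lit 10) 
(.lf (nat_lit 15663110) (dlOf (nat_lit 15) (nat_lit 0x627400183808008135c00ba40400049ec000a4d6002dd02000524f0016d408003127800b680400049ac000c49e002d902000326b0002927800b620800109ec000c4d6000524f0016c01800193d800149ac005ae0400064f6000526b0016b4100011358001893c005ac0400084d6000524f0016a01000193d800149ac005a60400084f6000526b001690100080008008c00200040008810283))) 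
(.lf (nat_lit 3492742150) (dlOf (nat_lit 1) (nat_lit 0x4002000200080f2882))))) (.nd (nat_lit 10) 
(.nd (nat_lit 18) (.lf (nat_lit 51053062) (dlOf (nat_lit 1) (nat_lit 0x4800094f7b01))) 
(.lf (nat_lit 19857926) (dlOf (nat_lit 1) (nat_lit 0x4004000200089d1482)))) 
(.lf (nat_lit 8324614) (dlOf (nat_lit 1) (nat_lit 0x8008000c00200060008513683))))) 
(.nd (nat_lit 26) (.nd (nat_lit 29) 
(.lf (nat_lit 134938630) (dlOf (nat_lit 1) (nat_lit 0x7200080048002003000080e0003))) 
(.lf (nat_lit 2819293190) (dlOf (nat_lit 2) (nat_lit 0x38118009ae04001000400240018220282)))) 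
(.nd (nat_lit 20) (.nd (nat_lit 28) 
(.lf (nat_lit 202047494) (dlOf (nat_lit 1) (nat_lit 0x7200080048002003000080e0003))) 
(.lf (nat_lit 3154837510) (dlOf (nat_lit 1) (nat_lit 0x40018350001)))) 
(.lf (nat_lit 471531526) (dlOf (nat_lit 1) (nat_lit 0x4004000a0018320002)))))) (.nd (nat_lit 7) 
(.nd (nat_lit 10) (.nd (nat_lit 9) (.nd (nat_lit 12) 
(.lf (nat_lit 9109766) (dlOf (nat_lit 1) (nat_lit 0x400400060008524802))) 
(.lf (nat_lit 8327430) (dlOf (nat_lit 1) (nat_lit 0x80028518081)))) 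
(.lf (nat_lit 19864326) (dlOf (nat_lit 1) (nat_lit 0x200189db981)))) (.nd (nat_lit 12) 
(.lf (nat_lit 43713798) (dlOf (nat_lit 1) (nat_lit 0x4002004e00092a2f82))) 
(.lf (nat_lit 19862790) (dlOf (nat_lit 1) (nat_lit 0x200089d9601))))) (.nd (nat_lit 9) 
(.nd (nat_lit 26) (.lf (nat_lit 3491430790) (dlOf (nat_lit 1) (nat_lit 0x2000200020008090782))) 
(.lf (nat_lit 2753233286) (dlOf (nat_lit 1) (nat_lit 0x2000200020008090782)))) (.nd (nat_lit 10) 
(.lf (nat_lit 20650886) (dlOf (nat_lit 1) (nat_lit 0x200289dbc81))) 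
(.lf (nat_lit 19861382) (dlOf (nat_lit 1) (nat_lit 0x200189d7781)))))))) (.nd (nat_lit 18) 
(.nd (nat_lit 19) (.nd (nat_lit 29) (.nd (nat_lit 7) (.nd (nat_lit 8) (.nd (nat_lit 9) 
(.lf (nat_lit 14876742) (dlOf (nat_lit 2) (nat_lit 0x10000000060400d000400320018790602))) 
(.lf (nat_lit 11731526) (dlOf (nat_lit 2) (nat_lit 0x369fa400074040004002000200086c1102)))) 
(.lf (nat_lit 4362273094) (dlOf (nat_lit 12) (nat_lit 0x7008e00a4602001a0470052281000e02380290808016814800a008c00a34040004046005198100010230028c00800181180144e04006008e009d402001e047004e901000f0238026bc08007811c0132404005c00400400018014c02)))) 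
(.nd (nat_lit 8) (.nd (nat_lit 9) 
(.lf (nat_lit 3624078534) (dlOf (nat_lit 1) (nat_lit 0xc0008000c00200020008146383))) 
(.lf (nat_lit 20124358) (dlOf (nat_lit 1) (nat_lit 0x4002000200089d8c82)))) 
(.lf (nat_lit 11731398) (dlOf (nat_lit 2) (nat_lit 0x1c7ec000200186c0900))))) (.nd (nat_lit 9) 
(.nd (nat_lit 7) (.nd (nat_lit 8) 
(.lf (nat_lit 537073734) (dlOf (nat_lit 1) (nat_lit 0x340040014000800a682))) 
(.lf (nat_lit 4228055366) (dlOf (nat_lit 12) (nat_lit 0x70080004b102001a0400025801000e0200012b408016812c00a007e0049f04000403f0024f01000101f80126c0800180fc009240400600800043f02001e0400021d81000f020001044080078100007f004005c00400400018014c02)))) 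
(.lf (nat_lit 2818776518) (dlOf (nat_lit 1) (nat_lit 0x80080064002000e000812cd03)))) 
(.nd (nat_lit 26) (.nd (nat_lit 27) 
(.lf (nat_lit 1879245382) (dlOf (nat_lit 4) (nat_lit 0xd8534035420a0003a04000a14d00050828000e010000815c002800e0003104005400280c1101))) 
(.lf (nat_lit 3087204934) (dlOf (nat_lit 1) (nat_lit 0x1000018158d01)))) 
(.lf (nat_lit 1006830150) (dlOf (nat_lit 4) (nat_lit 0xd856803542060003a04000a15a00050818000e010000815c00280060003104005400280c1101)))))) 
(.nd (nat_lit 8) (.nd (nat_lit 9) (.nd (nat_lit 21) (.nd (nat_lit 22) (.nd (nat_lit 23) 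
(.lf (nat_lit 537591878) (dlOf (nat_lit 3) (nat_lit 0xd601ac02400d0052005d014502b837901480094080000203600a8019806c00a000f804a0194022000400f80778048004000200720000002c0f00f0035803d81a00b700ba051c05a02cf02b839c8148008c08006a60330044014002900940a1c044044601f023900e00d4804803d0010001e001000f00000015c8803480080c3400200ac00080c1883))) 
(.lf (nat_lit 9109574) (dlOf (nat_lit 2) (nat_lit 0x465d40009c04000400200020008521682)))) 
(.lf (nat_lit 4915270) (dlOf (nat_lit 2) (nat_lit 0x1800000038040004002000200082d0602)))) 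
(.lf (nat_lit 2818118) (dlOf (nat_lit 1) (nat_lit 0x4004000200081b1882)))) (.nd (nat_lit 26) 
(.lf (nat_lit 3491430982) (dlOf (nat_lit 7) (nat_lit 0xd20f6805a85600004e0803b43da013e158000f0ab8000981806c07b401c82b0000250401b81ed00780ac0000901001387b4008c2b0000230401801ed00660ac0000001000e000803c800200020008091103))) 
(.lf (nat_lit 2753233478) (dlOf (nat_lit 7) (nat_lit 0xd20ff805a85740004e0803b43fe013e15d000f0ae0000981806c07fc01c82ba000250401b81ff00780ae8000901001387fc008c2ba000230401801ff00660ae8000001000e000803c800200020008091103))))) 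
(.nd (nat_lit 7) (.nd (nat_lit 9) 
(.lf (nat_lit 50005318) (dlOf (nat_lit 1) (nat_lit 0x200094c3301))) 
(.lf (nat_lit 8064838) (dlOf (nat_lit 1) (nat_lit 0x20028517701)))) (.nd (nat_lit 20) 
(.lf (nat_lit 51052998) (dlOf (nat_lit 1) (nat_lit 0xce00094f7001))) (.nd (nat_lit 26) 
(.lf (nat_lit 3491430854) (dlOf (nat_lit 5) (nat_lit 0xc80f300710550000400803203cc01a01540000f8200cf0f3006805500003c0802b83cc019815400270a900000018001000801c000200420008090903))) 
(.lf (nat_lit 2753233350) (dlOf (nat_lit 5) (nat_lit 0xc80fc00710564000400803203f001a01590000f8200cf0fc006805640003c0802b83f0019815900270ab80000018001000801c000200420008090903)))))))) 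
(.nd (nat_lit 19) (.nd (nat_lit 7) (.nd (nat_lit 28) (.nd (nat_lit 20) (.nd (nat_lit 9) 
(.lf (nat_lit 2819031110) (dlOf (nat_lit 2) (nat_lit 0x1400140003804002400400140018150602))) 
(.lf (nat_lit 38210118) (dlOf (nat_lit 1) (nat_lit 0x400200020009135202)))) (.nd (nat_lit 21) 
(.lf (nat_lit 26673222) (dlOf (nat_lit 2) (nat_lit 0x3ea960000d818c50600))) 
(.lf (nat_lit 37158982) (dlOf (nat_lit 1) (nat_lit 0x4002000200090b0602))))) (.nd (nat_lit 26) 
(.lf (nat_lit 1879507014) (dlOf (nat_lit 1) (nat_lit 0x6c00400040008190602))) (.nd (nat_lit 27) 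
(.lf (nat_lit 3557228614) (dlOf (nat_lit 1) (nat_lit 0x800200020008170602))) 
(.lf (nat_lit 1007091782) (dlOf (nat_lit 3) (nat_lit 0xc14a0000e8100030a50000700800c8008000800200120008170603)))))) 
(.nd (nat_lit 20) (.nd (nat_lit 26) 
(.lf (nat_lit 3221684678) (dlOf (nat_lit 2) (nat_lit 0x7c01c000200200020018170901))) 
(.lf (nat_lit 3959882182) (dlOf (nat_lit 2) (nat_lit 0x7c01c000200200020018170901)))) 
(.nd (nat_lit 8) 
(.lf (nat_lit 47645894) (dlOf (nat_lit 2) (nat_lit 0x228000000000200060009402d01))) 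
(.lf (nat_lit 58130886) (dlOf (nat_lit 1) (nat_lit 0x2c004002a00097c7002)))))) (.nd (nat_lit 8) 
(.nd (nat_lit 20) (.nd (nat_lit 7) (.nd (nat_lit 9) 
(.lf (nat_lit 470745158) (dlOf (nat_lit 14) (nat_lit 0x24c43a012e21b00960f60042879c02d433600d219900170c0004685f802042f600c20000000e8a01bf10e80e4086c071c3d8035e1e701de0cd80c8066406f02fc036217b018b00000007048013879c0440000000180400a41ec00790f3802005e40002c0c02e43d8015e1e700220bd802585e40184000000150a00b61ec00290bd802485e4000280c01643d8001017e000088200a20f380004008003879c0001e0400243d80000b020188000000020100b410d8048066402c42f60170000000018400030f380000008018000800fc00200180008170603))) 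
(.lf (nat_lit 19857990) (dlOf (nat_lit 1) (nat_lit 0x200189d1581)))) 
(.lf (nat_lit 19864262) (dlOf (nat_lit 1) (nat_lit 0x200189db981)))) (.nd (nat_lit 21) 
(.nd (nat_lit 22) (.lf (nat_lit 52363334) (dlOf (nat_lit 1) (nat_lit 0x40029530601))) 
(.lf (nat_lit 14614598) (dlOf (nat_lit 2) (nat_lit 0x73f640003804000400400020018770602)))) 
(.lf (nat_lit 473890886) (dlOf (nat_lit 2) (nat_lit 0x49853002781ae0015a0400040028fc0601))))) 
(.nd (nat_lit 9) (.nd (nat_lit 11) 
(.lf (nat_lit 3080518) (dlOf (nat_lit 1) (nat_lit 0x400400160008200602))) 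
(.lf (nat_lit 3492743494) (dlOf (nat_lit 1) (nat_lit 0xda00080f4d01)))) (.nd (nat_lit 7) 
(.lf (nat_lit 3492742982) (dlOf (nat_lit 1) (nat_lit 0x4004000200180f3e02))) 
(.lf (nat_lit 19864518) (dlOf (nat_lit 1) (nat_lit 0x5c00189dbe01)))))))))) (.nd (nat_lit 6) 
(.nd (nat_lit 18) (.nd (nat_lit 16) (.nd (nat_lit 28) (.nd (nat_lit 19) (.nd (nat_lit 7) 
(.nd (nat_lit 29) (.nd (nat_lit 10) (.nd (nat_lit 22) (.nd (nat_lit 9) 
(.lf (nat_lit 52592646) (dlOf (nat_lit 1) (nat_lit 0x28008000c00200180009550003))) 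
(.lf (nat_lit 2214756870) (dlOf (nat_lit 1) (nat_lit 0x4004000200080a1482)))) (.nd (nat_lit 20) 
(.lf (nat_lit 12746758) (dlOf (nat_lit 1) (nat_lit 0x80080004002000200086e0003))) 
(.lf (nat_lit 47349766) (dlOf (nat_lit 1) (nat_lit 0x20008002c002002400093d0003))))) 
(.nd (nat_lit 8) (.lf (nat_lit 51545094) (dlOf (nat_lit 1) (nat_lit 0x20019512881))) 
(.lf (nat_lit 35816710) (dlOf (nat_lit 1) (nat_lit 0x1000200040009012f82))))) (.nd (nat_lit 26) 
(.nd (nat_lit 8) (.nd (nat_lit 9) 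
(.lf (nat_lit 2684518406) (dlOf (nat_lit 1) (nat_lit 0x20018080001))) 
(.lf (nat_lit 2818736646) (dlOf (nat_lit 4) (nat_lit 0x40058002802a000e00e0009006000300180020008001a000000968700070030004080800180180020204001c004002400180e8002)))) 
(.lf (nat_lit 2818736390) (dlOf (nat_lit 2) (nat_lit 0x800a0000002001a00080e3581)))) 
(.nd (nat_lit 27) 
(.lf (nat_lit 604143622) (dlOf (nat_lit 2) (nat_lit 0x60160003003801280000369c0c008000200100008030002))) 
(.lf (nat_lit 2885844998) (dlOf (nat_lit 3) (nat_lit 0x4018000300bc001805c000c02d000700d00030060001802e0012013000700280028008001c00001da916000202e00010028000800803b4e0c0028004001200080b0002)))))) 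
(.nd (nat_lit 11) (.nd (nat_lit 20) (.nd (nat_lit 26) 
(.lf (nat_lit 2147647622) (dlOf (nat_lit 1) (nat_lit 0x200280a2281))) 
(.lf (nat_lit 5435981958) (dlOf (nat_lit 1) (nat_lit 0x20028090381)))) 
(.lf (nat_lit 9601158) (dlOf (nat_lit 7) (nat_lit 0x2348a0025a430007d208002e8fc000b3be000f9dc0001b060002d22803d690c005347e00035060011a410007d1f80026770000680c001b48a0015a430009d208003e8fc00233b80002e0a0019a450014d218005e904001f47e00159dc0001685000bd228005e90c001b482000ba3f0007cee0000ac28010000800e000200040008570e03)))) 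
(.nd (nat_lit 9) (.nd (nat_lit 8) 
(.lf (nat_lit 166022) (dlOf (nat_lit 1) (nat_lit 0x2c0018004801))) 
(.lf (nat_lit 170374) (dlOf (nat_lit 1) (nat_lit 0x2c001800af81)))) (.nd (nat_lit 10) 
(.lf (nat_lit 1208126086) (dlOf (nat_lit 1) (nat_lit 0x8008000400200020008095483))) 
(.lf (nat_lit 6509727366) (dlOf (nat_lit 1) (nat_lit 0x560018147181))))))) (.nd (nat_lit 21) 
(.nd (nat_lit 29) (.nd (nat_lit 8) 
(.lf (nat_lit 4882438) (dlOf (nat_lit 1) (nat_lit 0x2be00082d0001))) 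
(.lf (nat_lit 43681030) (dlOf (nat_lit 1) (nat_lit 0x100080004002000200092a2f83)))) 
(.nd (nat_lit 26) 
(.lf (nat_lit 3893002246) (dlOf (nat_lit 3) (nat_lit 0xc054000300a004e101000a80b0000000400b0004000600082c0002))) 
(.lf (nat_lit 1678409734) (dlOf (nat_lit 1) (nat_lit 0xe80080024002001e0008210003))))) 
(.nd (nat_lit 20) (.nd (nat_lit 8) 
(.lf (nat_lit 48922630) (dlOf (nat_lit 1) (nat_lit 0x120029450001))) 
(.lf (nat_lit 36340998) (dlOf (nat_lit 1) (nat_lit 0xc00200040009072f82)))) (.nd (nat_lit 22) 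
(.lf (nat_lit 3833862) (dlOf (nat_lit 1) (nat_lit 0x4004000a0018230002))) 
(.lf (nat_lit 24805382) (dlOf (nat_lit 1) (nat_lit 0x300080008002000e0008bb0003))))))) 
(.nd (nat_lit 26) (.nd (nat_lit 27) (.nd (nat_lit 29) (.nd (nat_lit 10) 
(.lf (nat_lit 1346535430) (dlOf (nat_lit 1) (nat_lit 0x17e0008fa0001))) 
(.lf (nat_lit 5637309446) (dlOf (nat_lit 1) (nat_lit 0x200080004002000200080d2883)))) 
(.nd (nat_lit 19) 
(.lf (nat_lit 2952953862) (dlOf (nat_lit 3) (nat_lit 0x2601500da701001900e000000080018008008000200260008030003))) 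
(.lf (nat_lit 805994502) (dlOf (nat_lit 1) (nat_lit 0xe80080024002001e0008210003))))) 
(.nd (nat_lit 7) (.nd (nat_lit 8) 
(.lf (nat_lit 1476558854) (dlOf (nat_lit 3) (nat_lit 0x68003805f8808009003800000040020004000c0008050002))) 
(.lf (nat_lit 3087173382) (dlOf (nat_lit 1) (nat_lit 0x400200020008143b82)))) 
(.lf (nat_lit 6308397190) (dlOf (nat_lit 1) (nat_lit 0x20018070e01))))) (.nd (nat_lit 29) 
(.nd (nat_lit 8) (.nd (nat_lit 19) 
(.lf (nat_lit 3691151366) (dlOf (nat_lit 3) (nat_lit 0x4000e0184b020168026000700e805f881000200080004002000e0008050003))) 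
(.lf (nat_lit 472547334) (dlOf (nat_lit 1) (nat_lit 0x6a00289b0001)))) (.nd (nat_lit 10) 
(.lf (nat_lit 473596166) (dlOf (nat_lit 1) (nat_lit 0x20028f63581))) 
(.lf (nat_lit 472024326) (dlOf (nat_lit 1) (nat_lit 0x6600080004002000200087a2f83))))) 
(.nd (nat_lit 7) (.nd (nat_lit 10) 
(.lf (nat_lit 4095377414) (dlOf (nat_lit 1) (nat_lit 0x4004000200180a0002))) 
(.lf (nat_lit 6241291270) (dlOf (nat_lit 1) (nat_lit 0x4004000600080d5f82)))) (.nd (nat_lit 8) 
(.lf (nat_lit 6241290886) (dlOf (nat_lit 1) (nat_lit 0x400280d5481))) 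
(.lf (nat_lit 1007847814) (dlOf (nat_lit 1) (nat_lit 0x200028804e81)))))))) (.nd (nat_lit 19) 
(.nd (nat_lit 7) (.nd (nat_lit 20) (.nd (nat_lit 10) (.nd (nat_lit 23) 
(.lf (nat_lit 4423686) (dlOf (nat_lit 1) (nat_lit 0x400200020008290002))) 
(.lf (nat_lit 63143942) (dlOf (nat_lit 1) (nat_lit 0x800199e0001)))) 
(.lf (nat_lit 2751693830) (dlOf (nat_lit 1) (nat_lit 0x400200020008002882)))) (.nd (nat_lit 8) 
(.nd (nat_lit 26) 
(.lf (nat_lit 3490938886) (dlOf (nat_lit 1) (nat_lit 0x48008004000200380008030003))) 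
(.lf (nat_lit 2752741382) (dlOf (nat_lit 1) (nat_lit 0x48008004000200380008030003)))) 
(.lf (nat_lit 22249734) (dlOf (nat_lit 1) (nat_lit 0x120028ab7201))))) (.nd (nat_lit 9) 
(.nd (nat_lit 8) (.lf (nat_lit 11763846) (dlOf (nat_lit 1) (nat_lit 0x200286c0101))) 
(.nd (nat_lit 21) (.lf (nat_lit 39029126) (dlOf (nat_lit 1) (nat_lit 0x2000201ee0009194e82))) 
(.lf (nat_lit 36931974) (dlOf (nat_lit 1) (nat_lit 0x60019074e81))))) (.nd (nat_lit 12) 
(.nd (nat_lit 27) (.lf (nat_lit 4832069254) (dlOf (nat_lit 1) (nat_lit 0x4004000200080d3a02))) 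
(.lf (nat_lit 5234722438) (dlOf (nat_lit 1) (nat_lit 0x4004000200080d3a02)))) 
(.lf (nat_lit 20158086) (dlOf (nat_lit 1) (nat_lit 0x200289d9e01)))))) (.nd (nat_lit 8) 
(.nd (nat_lit 28) (.nd (nat_lit 20) (.nd (nat_lit 22) 
(.lf (nat_lit 2819325958) (dlOf (nat_lit 1) (nat_lit 0x1c00400040008240282))) 
(.lf (nat_lit 4947974) (dlOf (nat_lit 1) (nat_lit 0x600282d0001)))) 
(.lf (nat_lit 31162374) (dlOf (nat_lit 2) (nat_lit 0x5646800000040050004003a0018e70002)))) 
(.nd (nat_lit 26) 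
(.lf (nat_lit 1342930950) (dlOf (nat_lit 3) (nat_lit 0xe2370006701000a04a0002f0080090008009000200300008110583))) 
(.nd (nat_lit 27) (.lf (nat_lit 3557523462) (dlOf (nat_lit 1) (nat_lit 0x800400020008240282))) 
(.lf (nat_lit 470515718) (dlOf (nat_lit 3) (nat_lit 0xe2370006701000a04a0002f4080090008009000200300008110583)))))) 
(.nd (nat_lit 7) (.nd (nat_lit 23) 
(.lf (nat_lit 36406534) (dlOf (nat_lit 1) (nat_lit 0x20019072f81))) 
(.lf (nat_lit 61572358) (dlOf (nat_lit 1) (nat_lit 0x400400020009922f82)))) 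
(.lf (nat_lit 32213382) (dlOf (nat_lit 1) (nat_lit 0x40018ef4e81))))))) (.nd (nat_lit 30) 
(.nd (nat_lit 16) (.nd (nat_lit 7) (.nd (nat_lit 27) (.nd (nat_lit 19) (.nd (nat_lit 8) 
(.nd (nat_lit 26) (.lf (nat_lit 4563828742) (dlOf (nat_lit 1) (nat_lit 0x1c00280f0581))) 
(.lf (nat_lit 4362502150) (dlOf (nat_lit 1) (nat_lit 0x8008000400200020008090003)))) 
(.lf (nat_lit 805732614) (dlOf (nat_lit 2) (nat_lit 0xa405a0009d02001000181a0481)))) 
(.nd (nat_lit 23) 
(.lf (nat_lit 537821190) (dlOf (nat_lit 4) (nat_lit 0x401e000380ec000e0750003038800301c000200cc0006062000403080028180000400001da514000c076000103880768c1000701d803a840400a4004000400081b0002))) 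
(.lf (nat_lit 9338886) (dlOf (nat_lit 1) (nat_lit 0xd400400f20008540282))))) (.nd (nat_lit 9) 
(.nd (nat_lit 26) (.lf (nat_lit 4698046470) (dlOf (nat_lit 1) (nat_lit 0x1c00280f0581))) 
(.lf (nat_lit 201752582) (dlOf (nat_lit 5) (nat_lit 0x18043000f01f8009004c011d80c004c086008e002008402f00354010003017801a4c0802200080028002005e0008090003)))) 
(.lf (nat_lit 134644230) (dlOf (nat_lit 2) (nat_lit 0x6c03100066818090d80))))) (.nd (nat_lit 20) 
(.nd (nat_lit 8) (.nd (nat_lit 10) 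
(.lf (nat_lit 23494790) (dlOf (nat_lit 1) (nat_lit 0x800200020008b80102))) 
(.lf (nat_lit 40273030) (dlOf (nat_lit 1) (nat_lit 0x8400291f2b01)))) 
(.lf (nat_lit 805732742) (dlOf (nat_lit 4) (nat_lit 0x40560040601001602b0007804c010160800480ac0002013004048281a0780)))) 
(.nd (nat_lit 19) (.nd (nat_lit 22) 
(.lf (nat_lit 11960454) (dlOf (nat_lit 1) (nat_lit 0x200186c0101))) 
(.lf (nat_lit 41320582) (dlOf (nat_lit 1) (nat_lit 0x40029233b01)))) 
(.lf (nat_lit 20873350) (dlOf (nat_lit 1) (nat_lit 0x5c002006800089e2282)))))) (.nd (nat_lit 19) 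
(.nd (nat_lit 24) (.nd (nat_lit 7) (.nd (nat_lit 9) 
(.lf (nat_lit 6510051334) (dlOf (nat_lit 4) (nat_lit 0x3802e000bc02001a0170005b81000f00b80008c0800b8008015800200280008190583))) 
(.lf (nat_lit 201818630) (dlOf (nat_lit 5) (nat_lit 0x2204a00102810005020800580fc002d20800240820001d020054041002101e800070100448008012c00200080008090d83)))) 
(.lf (nat_lit 470253702) (dlOf (nat_lit 1) (nat_lit 0x4002000200080c0102)))) (.nd (nat_lit 7) 
(.nd (nat_lit 21) (.lf (nat_lit 18317318) (dlOf (nat_lit 1) (nat_lit 0x1c0008920001))) 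
(.lf (nat_lit 24608774) (dlOf (nat_lit 5) (nat_lit 0xa979e0004000004400200335e78021c408019af3c0101804013979000a4bad00575ca801d041801e000800f000200200008ba0003)))) 
(.lf (nat_lit 23560326) (dlOf (nat_lit 1) (nat_lit 0x800200020008b80102))))) (.nd (nat_lit 21) 
(.nd (nat_lit 22) (.lf (nat_lit 10452998) (dlOf (nat_lit 1) (nat_lit 0x200185e0581))) 
(.lf (nat_lit 14647302) (dlOf (nat_lit 1) (nat_lit 0x24002003e0008770002)))) (.nd (nat_lit 7) 
(.lf (nat_lit 473923590) (dlOf (nat_lit 4) (nat_lit 0x10ac0001033c003c1060086006000e1580002067800f2c10002036400000040004004000e0008fc0002))) 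
(.lf (nat_lit 8357766) (dlOf (nat_lit 1) (nat_lit 0x800200020008514182))))))) (.nd (nat_lit 31) 
(.nd (nat_lit 29) (.nd (nat_lit 7) (.nd (nat_lit 8) (.nd (nat_lit 16) 
(.lf (nat_lit 1343651846) (dlOf (nat_lit 2) (nat_lit 0x6047002f7008016800800c0002003000082d0283))) 
(.lf (nat_lit 1344241670) (dlOf (nat_lit 1) (nat_lit 0x30008000800200120008520003)))) 
(.lf (nat_lit 5771854086) (dlOf (nat_lit 1) (nat_lit 0x10c00400620008000a82)))) (.nd (nat_lit 8) 
(.lf (nat_lit 1342668934) (dlOf (nat_lit 1) (nat_lit 0x4002000200080c0102))) 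
(.lf (nat_lit 1346341254) (dlOf (nat_lit 2) (nat_lit 0x819a009610200020018f04e81))))) 
(.nd (nat_lit 7) (.nd (nat_lit 8) (.nd (nat_lit 16) 
(.lf (nat_lit 1678147590) (dlOf (nat_lit 2) (nat_lit 0xb102b001f6408048000800e8002006800081a0003))) 
(.lf (nat_lit 5906071558) (dlOf (nat_lit 4) (nat_lit 0x3802e000bd02001a0170005b81000f00b8000a40800b8008015800200280008190583)))) 
(.lf (nat_lit 1678147846) (dlOf (nat_lit 2) (nat_lit 0xa405a0009d02001000181a0481)))) 
(.nd (nat_lit 8) (.lf (nat_lit 6376360582) (dlOf (nat_lit 1) (nat_lit 0x400200020008095482))) 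
(.lf (nat_lit 1678147974) (dlOf (nat_lit 4) (nat_lit 0x40560071881001602b0007804c01c600800480ac0002013007170281a0780)))))) 
(.nd (nat_lit 26) (.nd (nat_lit 7) (.nd (nat_lit 8) (.nd (nat_lit 11) 
(.lf (nat_lit 4026957830) (dlOf (nat_lit 1) (nat_lit 0x400280e0001))) 
(.lf (nat_lit 3492710406) (dlOf (nat_lit 1) (nat_lit 0x1a00180f4701)))) 
(.lf (nat_lit 3492775686) (dlOf (nat_lit 3) (nat_lit 0x1405e0000c81000c02f0000500800b80080010002000a00080f3b83)))) 
(.nd (nat_lit 11) 
(.lf (nat_lit 3221651846) (dlOf (nat_lit 5) (nat_lit 0x408c008800200920460043f8100be023003501140101808006c08c0080a02000a0018170781))) 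
(.lf (nat_lit 3490089350) (dlOf (nat_lit 1) (nat_lit 0x400200020008004e82))))) (.nd (nat_lit 16) 
(.nd (nat_lit 7) (.nd (nat_lit 27) 
(.lf (nat_lit 3288760326) (dlOf (nat_lit 1) (nat_lit 0x400280e0001))) 
(.lf (nat_lit 3959848966) (dlOf (nat_lit 2) (nat_lit 0xa046003ec818170000)))) 
(.lf (nat_lit 3959849350) (dlOf (nat_lit 5) (nat_lit 0x408c00ea5020092046007520100be0230035011401c6208006c08c00e2f02000a0018170781)))) 
(.nd (nat_lit 27) (.lf (nat_lit 3557261318) (dlOf (nat_lit 1) (nat_lit 0x60018190281))) 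
(.lf (nat_lit 4228349958) (dlOf (nat_lit 1) (nat_lit 0x8008000c00200020008090003))))))))) 
(.nd (nat_lit 16) (.nd (nat_lit 7) (.nd (nat_lit 9) (.nd (nat_lit 30) (.nd (nat_lit 19) 
(.nd (nat_lit 8) (.nd (nat_lit 18) (.nd (nat_lit 21) 
(.lf (nat_lit 604143686) (dlOf (nat_lit 2) (nat_lit 0xe005000070080018008006400200200008030603))) 
(.lf (nat_lit 52592710) (dlOf (nat_lit 2) (nat_lit 0x6b2700047019550600)))) (.nd (nat_lit 20) 
(.lf (nat_lit 2818998342) (dlOf (nat_lit 2) (nat_lit 0xd0028000700800f8008008000200040008150603))) 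
(.lf (nat_lit 26640454) (dlOf (nat_lit 9) (nat_lit 0x6b38800036040041c2a0001502000ce150000a01001a70a80004c08003385400024040051c2a00010020010e150000781004470a80000008020800800c400200020008c50603))))) 
(.nd (nat_lit 10) 
(.lf (nat_lit 4362240326) (dlOf (nat_lit 2) (nat_lit 0xc005c0146804005000400320008014c02))) 
(.lf (nat_lit 40011078) (dlOf (nat_lit 1) (nat_lit 0xc0002001c00091f3302))))) (.nd (nat_lit 22) 
(.nd (nat_lit 21) (.nd (nat_lit 26) 
(.lf (nat_lit 134905926) (dlOf (nat_lit 2) (nat_lit 0x36031001e00880005c1000580080004002001800080d0c83))) 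
(.lf (nat_lit 202014790) (dlOf (nat_lit 2) (nat_lit 0x36031001e00880005c1000580080004002001800080d0c83)))) 
(.lf (nat_lit 2785350) (dlOf (nat_lit 1) (nat_lit 0x4002000200081b1882)))) (.nd (nat_lit 18) 
(.lf (nat_lit 4882502) (dlOf (nat_lit 2) (nat_lit 0x4800000038040048004001000182d0602))) 
(.lf (nat_lit 14581830) (dlOf (nat_lit 3) (nat_lit 0xb2628000740801c13140003804000400200040008770602)))))) 
(.nd (nat_lit 26) (.nd (nat_lit 31) (.nd (nat_lit 18) 
(.lf (nat_lit 1476558918) (dlOf (nat_lit 3) (nat_lit 0x1f01e800800b00003808031807a009402c00b2005005e000000036100030002000e0008050602))) 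
(.lf (nat_lit 1074167878) (dlOf (nat_lit 1) (nat_lit 0x8004002200180d0c82)))) (.nd (nat_lit 11) 
(.lf (nat_lit 4026695750) (dlOf (nat_lit 2) (nat_lit 0x2a020002600e8000601002c80080158002009a0008030e83))) 
(.lf (nat_lit 3492976710) (dlOf (nat_lit 1) (nat_lit 0x34004005c00080fa682))))) (.nd (nat_lit 8) 
(.nd (nat_lit 18) 
(.lf (nat_lit 3288498246) (dlOf (nat_lit 2) (nat_lit 0x2a020002600e8000601002c80080158002009a0008030e83))) 
(.lf (nat_lit 1946583110) (dlOf (nat_lit 1) (nat_lit 0x8004002200180d0c82)))) 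
(.lf (nat_lit 4228022598) (dlOf (nat_lit 2) (nat_lit 0xc005c0093e04005000400320008014c02)))))) 
(.nd (nat_lit 26) (.nd (nat_lit 18) (.nd (nat_lit 10) (.nd (nat_lit 19) 
(.lf (nat_lit 9601606) (dlOf (nat_lit 2) (nat_lit 0x307bd00011818578d00))) 
(.lf (nat_lit 3491398214) (dlOf (nat_lit 2) (nat_lit 0x40f6800098080010008002000200040008091103)))) 
(.lf (nat_lit 805473862) (dlOf (nat_lit 1) (nat_lit 0x20028117181)))) (.nd (nat_lit 21) 
(.nd (nat_lit 22) 
(.lf (nat_lit 134644294) (dlOf (nat_lit 7) (nat_lit 0x29c04a00ec023008080bc03b40180002708026604a005702300a100bc001c05c0002608022a04a011b0178000941008d0128047805e0002404025002f000118101140178000000800a800803f400202580008091103))) 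
(.lf (nat_lit 21398086) (dlOf (nat_lit 2) (nat_lit 0x14848c0094e04000800400220008a38802)))) 
(.nd (nat_lit 11) (.lf (nat_lit 3048006) (dlOf (nat_lit 2) (nat_lit 0x3603e0001c018201100))) 
(.lf (nat_lit 32934470) (dlOf (nat_lit 1) (nat_lit 0x10008000800200140008f55203)))))) 
(.nd (nat_lit 11) (.nd (nat_lit 18) (.nd (nat_lit 19) 
(.lf (nat_lit 201491014) (dlOf (nat_lit 2) (nat_lit 0x1004a00022018018d00))) 
(.lf (nat_lit 2753200710) (dlOf (nat_lit 2) (nat_lit 0x40ff800098080010008002000200040008091103)))) 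
(.nd (nat_lit 19) 
(.lf (nat_lit 201753158) (dlOf (nat_lit 7) (nat_lit 0x29c04a00ec023008080bc03b40180002708026604a005702300a100bc001c05c0002608022a04a011b0178000941008d0128047805e0002404025002f000118101140178000000800a800803f400202580008091103))) 
(.lf (nat_lit 2752414278) (dlOf (nat_lit 26) (nat_lit 0x20930001d80404ac2ba000690200541ff004a0f40091057404d42b8002e142003d0a080258000000d01c037c2ba000670200141ff01ae0ae8001981000107fc04a02ba00e215c0002203002a0ff8092057404d82b8002614200430a08001082808f05740008204004c3fe029a15d00c90ae00050508000801004f42ba009a15c0001f82007012400020918000720800c049000102460001c02005110200a307e000743c400641e000510b480c905640a502ae00a213a004f09a802880000004828000448a00a220401470fc002907d800203e8000a1e200340f0002905a400302b40332159029b0ab802904e8014826a00a4000000118e00bd0fc01278564000440801943f0000210201061f800530fb00c785640a482ae00a2135000100500ed0fc00da856400d02ae0001f0600c61f801560ac812c055c0003c0c04fc3f000a21f601ab0ac8134855c014426a0001d0a018015901f50ab800070100c10564000360400242ae0001a02008e2480000581008c126000204f40000008039c00404f40008018d02)))))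 
(.nd (nat_lit 21) (.lf (nat_lit 474384966) (dlOf (nat_lit 2) (nat_lit 0x2015f00025819165200))) 
(.lf (nat_lit 472287814) (dlOf (nat_lit 1) (nat_lit 0x60008985201))))))) (.nd (nat_lit 8) 
(.nd (nat_lit 10) (.nd (nat_lit 18) (.nd (nat_lit 9) 
(.lf (nat_lit 2261190) (dlOf (nat_lit 1) (nat_lit 0x40018150401))) (.nd (nat_lit 20) 
(.lf (nat_lit 168646) (dlOf (nat_lit 1) (nat_lit 0xf40018008c81))) 
(.lf (nat_lit 20091590) (dlOf (nat_lit 1) (nat_lit 0x4002000200089d8c82))))) (.nd (nat_lit 26) 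
(.nd (nat_lit 27) (.lf (nat_lit 1999046) (dlOf (nat_lit 1) (nat_lit 0x10008000800200040008150403))) 
(.lf (nat_lit 5773361350) (dlOf (nat_lit 1) (nat_lit 0x4002000200080c1782)))) 
(.lf (nat_lit 6377341126) (dlOf (nat_lit 1) (nat_lit 0x4002000200080c1b82))))) (.nd (nat_lit 20) 
(.nd (nat_lit 11) 
(.lf (nat_lit 55215302) (dlOf (nat_lit 2) (nat_lit 0x18582600cca7b0099534800000180268008006c002000800096d2d03))) 
(.lf (nat_lit 1409453254) (dlOf (nat_lit 1) (nat_lit 0x400200020008006382)))) (.nd (nat_lit 18) 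
(.nd (nat_lit 24) (.lf (nat_lit 41583814) (dlOf (nat_lit 2) (nat_lit 0x13a0000000c019242d00))) 
(.lf (nat_lit 58361030) (dlOf (nat_lit 3) (nat_lit 0x4267e0000e81009f2ca0000000803380080048002011800097e2d03)))) 
(.lf (nat_lit 41845958) (dlOf (nat_lit 1) (nat_lit 0x2800200020009242d02)))))) (.nd (nat_lit 18) 
(.nd (nat_lit 9) (.nd (nat_lit 20) 
(.lf (nat_lit 6378127814) (dlOf (nat_lit 2) (nat_lit 0x780e80043404002000400120008117002))) 
(.nd (nat_lit 26) 
(.lf (nat_lit 3491398086) (dlOf (nat_lit 3) (nat_lit 0x16c3cc0002002000e1e60000f018090900))) 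
(.lf (nat_lit 2753200582) (dlOf (nat_lit 3) (nat_lit 0x16c3f00002002000e1f80000f018090900))))) 
(.nd (nat_lit 10) (.lf (nat_lit 168902) (dlOf (nat_lit 1) (nat_lit 0x2c0018009201))) 
(.nd (nat_lit 11) 
(.lf (nat_lit 169926) (dlOf (nat_lit 2) (nat_lit 0x453f002bcc08002000800100020012000800a603))) 
(.lf (nat_lit 3020066758) (dlOf (nat_lit 1) (nat_lit 0x20008000c00200040008127a83)))))) 
(.nd (nat_lit 26) (.nd (nat_lit 19) (.nd (nat_lit 28) 
(.lf (nat_lit 3221651910) (dlOf (nat_lit 7) (nat_lit 0x2045024901f0100807009bc01c000800d00f800600fd801001e4004028e0000001009023a01f0044007009b401c017800c00e700200007c2812e80f804d403804ea00e01460020000782000180380003a04001808a00014020008045000201d80a380380308018012000201550000000003006c0008168400218aa0008170903))) 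
(.lf (nat_lit 805732806) (dlOf (nat_lit 14) (nat_lit 0x4a008401b402200e200700810010000a610047008401e0022010f00700768010000a2100028084018400e0002802001202780012808006813c0009204000409e0102040005e019802380b0021c01a008600b0002006010202100740088033001c01b40040001e04002f027809a8108008007001a602200dd007003a80300260008012200200490000000dc4808e810803f4044023200e005f0060077801002e400400080000001a8700950210038008801ec01c000340600200520110028802d0140047c096022a03f012001d009180e40208034000e019000100900cc028800481400328074004601a0000f84008c0288015014000cc096013003a007400d00007828012800805700020a2000081a0903)))) 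
(.lf (nat_lit 5772313030) (dlOf (nat_lit 3) (nat_lit 0x20988000540800904c40000004003c002009e0008091102)))) 
(.nd (nat_lit 27) (.nd (nat_lit 29) 
(.lf (nat_lit 4362502598) (dlOf (nat_lit 3) (nat_lit 0x160158001440800a80ac0006a04000c00200060008090902))) 
(.lf (nat_lit 1678148038) (dlOf (nat_lit 14) (nat_lit 0x4a008401b402200e200700810010000a610047008401e0022010f00700768010000a2100028084018400e0002802001202780012808006813c0009204000409e0102040005e019802380b0021c01a008600b0002006010202100740088033001c01b40040001e04002f027809a8108008007001a602200dd007003a80300260008012200200490000000dc4808e810803f4044023200e005f0060077801002e400400080000001a8700950210038008801ec01c000340600200520110028802d0140047c096022a03f012001d009180e40208034000e019000100900cc028800481400328074004601a0000f84008c0288015014000cc096013003a007400d00007828012800805700020a2000081a0903)))) 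
(.nd (nat_lit 28) 
(.lf (nat_lit 3959849414) (dlOf (nat_lit 7) (nat_lit 0x2045024901f0100807009bc01c000800d00f800600fd801001e4004028e0000001009023a01f0044007009b401c017800c00e700200007c2812e80f804d403804ea00e01460020000782000180380003a04001808a00014020008045000201d80a380380308018012000201550000000003006c0008168400218aa0008170903))) 
(.lf (nat_lit 4228284870) (dlOf (nat_lit 3) (nat_lit 0x160150001440800a80a80006a04000c00200060008090902))))))))) 
(.nd (nat_lit 28) (.nd (nat_lit 20) (.nd (nat_lit 22) (.nd (nat_lit 9) (.nd (nat_lit 8) 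
(.nd (nat_lit 10) (.lf (nat_lit 2754314310) (dlOf (nat_lit 1) (nat_lit 0x8004000200080d0c82))) 
(.lf (nat_lit 8623174) (dlOf (nat_lit 1) (nat_lit 0x400200020008519302)))) 
(.lf (nat_lit 2752479558) (dlOf (nat_lit 1) (nat_lit 0x20018014c01)))) (.nd (nat_lit 8) 
(.nd (nat_lit 26) 
(.lf (nat_lit 671318598) (dlOf (nat_lit 3) (nat_lit 0xc00a0006b02000200500035018158d00))) 
(.lf (nat_lit 1677951558) (dlOf (nat_lit 4) (nat_lit 0x3402880008c0803001440003c0401040a20001d0200020028128d01)))) 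
(.lf (nat_lit 4899179334) (dlOf (nat_lit 2) (nat_lit 0xc0640008e02000200180d5c01))))) 
(.nd (nat_lit 7) (.nd (nat_lit 18) (.nd (nat_lit 19) 
(.lf (nat_lit 63144006) (dlOf (nat_lit 1) (nat_lit 0x180080008002000600099e0603))) 
(.lf (nat_lit 4948038) (dlOf (nat_lit 2) (nat_lit 0x7000000038040020002000a00082d0602)))) 
(.lf (nat_lit 13598790) (dlOf (nat_lit 2) (nat_lit 0x3ae31801def580002e08003800400680008730c82)))) 
(.nd (nat_lit 8) (.nd (nat_lit 10) 
(.lf (nat_lit 2755887302) (dlOf (nat_lit 4) (nat_lit 0x2a00f20001e0202160790000e8100d403c8000600800a80080090002002c00081b0403))) 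
(.lf (nat_lit 55280838) (dlOf (nat_lit 2) (nat_lit 0x22a43000000196d2d00)))) 
(.lf (nat_lit 23298502) (dlOf (nat_lit 1) (nat_lit 0x20018b80901)))))) (.nd (nat_lit 18) 
(.nd (nat_lit 7) (.nd (nat_lit 21) 
(.lf (nat_lit 2752741446) (dlOf (nat_lit 1) (nat_lit 0x20002000a0008030e82))) 
(.lf (nat_lit 24346694) (dlOf (nat_lit 1) (nat_lit 0x180028b90e01)))) (.nd (nat_lit 9) 
(.lf (nat_lit 20155590) (dlOf (nat_lit 1) (nat_lit 0x200289d6381))) 
(.lf (nat_lit 20157126) (dlOf (nat_lit 1) (nat_lit 0x80080004002000200089d8c83))))) 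
(.nd (nat_lit 19) (.nd (nat_lit 25) 
(.lf (nat_lit 3637318) (dlOf (nat_lit 1) (nat_lit 0x18008003800200140008210e03))) 
(.lf (nat_lit 37191750) (dlOf (nat_lit 1) (nat_lit 0x15800090b0601)))) (.nd (nat_lit 7) 
(.nd (nat_lit 21) 
(.lf (nat_lit 14647366) (dlOf (nat_lit 5) (nat_lit 0x1a4ab001323a00120faa00147aa00193ae80019cc40184dfa002c6a30000e8800d63d8801a9ce4058cdfa0001c0600e66fd0000501001937e8000100802b80080130002000c0008770603))) 
(.lf (nat_lit 12550214) (dlOf (nat_lit 1) (nat_lit 0x400186d0d81)))) 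
(.lf (nat_lit 8358086) (dlOf (nat_lit 1) (nat_lit 0x800200020008514982))))))) (.nd (nat_lit 30) 
(.nd (nat_lit 9) (.nd (nat_lit 7) (.nd (nat_lit 18) (.nd (nat_lit 19) 
(.lf (nat_lit 4697849926) (dlOf (nat_lit 2) (nat_lit 0x180cc0009e04000c004000400080a1682))) 
(.lf (nat_lit 472612934) (dlOf (nat_lit 2) (nat_lit 0x580000011c04001c002007200089c0602)))) 
(.lf (nat_lit 472350790) (dlOf (nat_lit 1) (nat_lit 0x140008009c002006c0008980003)))) 
(.nd (nat_lit 27) (.lf (nat_lit 872907206) (dlOf (nat_lit 1) (nat_lit 0x200280f7a81))) 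
(.lf (nat_lit 470254022) (dlOf (nat_lit 4) (nat_lit 0x2505500009c04013c2a80004d0200461540001b8180c0900))))) 
(.nd (nat_lit 31) (.nd (nat_lit 10) 
(.lf (nat_lit 470254150) (dlOf (nat_lit 7) (nat_lit 0x5304780af62370002882001311e00013c0800588f00009804001847800162370001d02000711e0000e00800688f00006a04013c002000400080c1102))) 
(.lf (nat_lit 5234722374) (dlOf (nat_lit 1) (nat_lit 0x200180d3801)))) (.nd (nat_lit 27) 
(.lf (nat_lit 2416149062) (dlOf (nat_lit 2) (nat_lit 0x500440004c04000800400040018091102))) 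
(.lf (nat_lit 2550366790) (dlOf (nat_lit 2) (nat_lit 0x500440004c04000800400040018091102)))))) 
(.nd (nat_lit 8) (.nd (nat_lit 19) (.nd (nat_lit 7) (.nd (nat_lit 9) 
(.lf (nat_lit 3490938950) (dlOf (nat_lit 1) (nat_lit 0x20002000a0008030e82))) 
(.lf (nat_lit 1342669382) (dlOf (nat_lit 7) (nat_lit 0x5304780af62370002882001311e00013c0800588f00009804001847800162370001d02000711e0000e00800688f00006a04013c002000400080c1102)))) 
(.lf (nat_lit 1346602182) (dlOf (nat_lit 1) (nat_lit 0x4a0028fe2d01)))) (.nd (nat_lit 9) 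
(.nd (nat_lit 11) (.lf (nat_lit 3492511814) (dlOf (nat_lit 1) (nat_lit 0x8004000200080d0c82))) 
(.lf (nat_lit 4228618310) (dlOf (nat_lit 1) (nat_lit 0x80020006000811a682)))) 
(.lf (nat_lit 1881115206) (dlOf (nat_lit 1) (nat_lit 0x8008000400200020008e25203))))) 
(.nd (nat_lit 7) (.nd (nat_lit 10) 
(.lf (nat_lit 3490677062) (dlOf (nat_lit 1) (nat_lit 0x20018014c01))) 
(.lf (nat_lit 3489893702) (dlOf (nat_lit 2) (nat_lit 0x1023000008818006980)))) (.nd (nat_lit 9) 
(.lf (nat_lit 1342669254) (dlOf (nat_lit 4) (nat_lit 0x2505500009c04013c2a80004d0200461540001b8180c0900))) 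
(.lf (nat_lit 3489897414) (dlOf (nat_lit 2) (nat_lit 0x290ae0008080801d800800dc0020014000800be03))))))))))))

end

end Pool.Agent.Lib.MP_5854e1_co.Cz

namespace Pool.Agent.Lib.MP_5854e1_co.Cz

noncomputable section

noncomputable def tz137 : DT := (.nd (nat_lit 15) (.nd (nat_lit 17) (.nd (nat_lit 16) 
(.nd (nat_lit 6) (.nd (nat_lit 26) (.nd (nat_lit 28) (.nd (nat_lit 19) (.nd (nat_lit 23) 
(.nd (nat_lit 7) (.nd (nat_lit 9) (.nd (nat_lit 31) 
(.lf (nat_lit 134479910) (dlOf (nat_lit 6) (nat_lit 0x580940002002002204a0000f8100130250000740800901280003804000405c0000f0200060028030a01))) 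
(.lf (nat_lit 6576930854) (dlOf (nat_lit 2) (nat_lit 0x20000002d0181c0580)))) 
(.lf (nat_lit 20190758) (dlOf (nat_lit 1) (nat_lit 0x80080004002000200089d9c03)))) (.nd (nat_lit 8) 
(.lf (nat_lit 134220966) (dlOf (nat_lit 1) (nat_lit 0x20028006281))) 
(.lf (nat_lit 6576670630) (dlOf (nat_lit 1) (nat_lit 0x40008004301))))) (.nd (nat_lit 20) 
(.nd (nat_lit 7) (.nd (nat_lit 9) 
(.lf (nat_lit 10747942) (dlOf (nat_lit 4) (nat_lit 0xe15e400054040004cd60001e0200264a00000e818620580))) 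
(.lf (nat_lit 46402086) (dlOf (nat_lit 1) (nat_lit 0x10e0019385181)))) 
(.lf (nat_lit 8389030) (dlOf (nat_lit 1) (nat_lit 0x108008000400200020008511003)))) 
(.nd (nat_lit 18) (.lf (nat_lit 13631526) (dlOf (nat_lit 1) (nat_lit 0x800200240008730902))) 
(.nd (nat_lit 21) 
(.lf (nat_lit 30670886) (dlOf (nat_lit 2) (nat_lit 0xae0c002c604003000200040008e40d82))) 
(.lf (nat_lit 15990822) (dlOf (nat_lit 1) (nat_lit 0x140018850881))))))) (.nd (nat_lit 8) 
(.nd (nat_lit 18) (.nd (nat_lit 9) (.nd (nat_lit 20) 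
(.lf (nat_lit 2621478) (dlOf (nat_lit 2) (nat_lit 0xc2d4000130200040028180901))) 
(.lf (nat_lit 45613094) (dlOf (nat_lit 1) (nat_lit 0x6a0019340201)))) 
(.lf (nat_lit 47712806) (dlOf (nat_lit 1) (nat_lit 0xc002000e0009405182)))) (.nd (nat_lit 9) 
(.nd (nat_lit 22) 
(.lf (nat_lit 27000870) (dlOf (nat_lit 2) (nat_lit 0xa7b0a000b10200040008ca0601))) 
(.lf (nat_lit 31195174) (dlOf (nat_lit 1) (nat_lit 0x140018e70781)))) 
(.lf (nat_lit 41683494) (dlOf (nat_lit 1) (nat_lit 0x188008000400200020009245183))))) 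
(.nd (nat_lit 7) (.nd (nat_lit 11) 
(.lf (nat_lit 8127270) (dlOf (nat_lit 1) (nat_lit 0x60018512181))) 
(.lf (nat_lit 537664294) (dlOf (nat_lit 3) (nat_lit 0x8076002a18100040000000000800700080024002002000080fbc83)))) 
(.nd (nat_lit 11) (.lf (nat_lit 8127910) (dlOf (nat_lit 1) (nat_lit 0x400200020008513602))) 
(.nd (nat_lit 21) (.lf (nat_lit 537664934) (dlOf (nat_lit 1) (nat_lit 0x200180fcb81))) 
(.lf (nat_lit 19668390) (dlOf (nat_lit 2) (nat_lit 0x15808000700800300080004002001600089dcb83)))))))) 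
(.nd (nat_lit 7) (.nd (nat_lit 27) (.nd (nat_lit 19) (.nd (nat_lit 8) (.nd (nat_lit 29) 
(.lf (nat_lit 1342439462) (dlOf (nat_lit 3) (nat_lit 0x1208f0000400400102a8001a0940000e828030a00))) 
(.lf (nat_lit 805568550) (dlOf (nat_lit 1) (nat_lit 0x10008000400200020008130583)))) 
(.lf (nat_lit 5637408038) (dlOf (nat_lit 1) (nat_lit 0x4004000200080d3182)))) (.nd (nat_lit 20) 
(.lf (nat_lit 3492544550) (dlOf (nat_lit 1) (nat_lit 0x200280d0901))) 
(.lf (nat_lit 1346109478) (dlOf (nat_lit 1) (nat_lit 0x380008e50781))))) (.nd (nat_lit 8) 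
(.nd (nat_lit 9) 
(.lf (nat_lit 939786278) (dlOf (nat_lit 2) (nat_lit 0x1880000005404001000200020008180582))) 
(.lf (nat_lit 5771627046) (dlOf (nat_lit 1) (nat_lit 0x80028005181)))) 
(.lf (nat_lit 5771627302) (dlOf (nat_lit 1) (nat_lit 0x40018005c01))))) (.nd (nat_lit 9) 
(.nd (nat_lit 8) (.nd (nat_lit 10) 
(.lf (nat_lit 4697882790) (dlOf (nat_lit 1) (nat_lit 0x80080004002003200080c1383))) 
(.nd (nat_lit 11) 
(.lf (nat_lit 1346897062) (dlOf (nat_lit 1) (nat_lit 0x80080004002000200090a2c03))) 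
(.lf (nat_lit 2550140070) (dlOf (nat_lit 1) (nat_lit 0x400200060008006282))))) (.nd (nat_lit 10) 
(.lf (nat_lit 4026794406) (dlOf (nat_lit 1) (nat_lit 0xc800400060008090782))) 
(.lf (nat_lit 3489668518) (dlOf (nat_lit 6) (nat_lit 0x50fa8000c00800507d400280000002e04000c1f5000168100100fa8000180800387d40000804005c0040002000800cb82))))) 
(.nd (nat_lit 12) (.nd (nat_lit 11) 
(.lf (nat_lit 2415920806) (dlOf (nat_lit 1) (nat_lit 0x1c0028003a81))) 
(.lf (nat_lit 1342181030) (dlOf (nat_lit 1) (nat_lit 0x200028007201)))) (.nd (nat_lit 8) 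
(.lf (nat_lit 1342182054) (dlOf (nat_lit 1) (nat_lit 0x400400020008008c82))) 
(.lf (nat_lit 1476401062) (dlOf (nat_lit 1) (nat_lit 0x2000800040020008000800a303)))))))) 
(.nd (nat_lit 18) (.nd (nat_lit 28) (.nd (nat_lit 7) (.nd (nat_lit 8) (.nd (nat_lit 9) 
(.lf (nat_lit 4362600486) (dlOf (nat_lit 1) (nat_lit 0x200280a0901))) 
(.lf (nat_lit 2214593062) (dlOf (nat_lit 1) (nat_lit 0x60028001481)))) (.nd (nat_lit 9) 
(.lf (nat_lit 3422557478) (dlOf (nat_lit 1) (nat_lit 0x400400020018009782))) 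
(.lf (nat_lit 201328422) (dlOf (nat_lit 1) (nat_lit 0x20028003d01))))) (.nd (nat_lit 8) 
(.nd (nat_lit 9) 
(.lf (nat_lit 3288337574) (dlOf (nat_lit 4) (nat_lit 0x1a01a80011c0800600d40008c04006406a0003802002c0028006281))) 
(.lf (nat_lit 2751465126) (dlOf (nat_lit 1) (nat_lit 0x180028003a81)))) (.nd (nat_lit 9) 
(.lf (nat_lit 603985318) (dlOf (nat_lit 1) (nat_lit 0x20028009901))) 
(.lf (nat_lit 6509561766) (dlOf (nat_lit 1) (nat_lit 0x140028004301)))))) (.nd (nat_lit 30) 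
(.nd (nat_lit 7) (.nd (nat_lit 19) 
(.lf (nat_lit 1007681574) (dlOf (nat_lit 1) (nat_lit 0x4002000200086d0a82))) 
(.lf (nat_lit 3154640934) (dlOf (nat_lit 5) (nat_lit 0x15028800f013c005c048000c0060012063000f02c00060118003807e001e03b00030138002303000b81a0000c08c002e03f000b00000022c2000500ec001c0000008904001e00082f0781)))) 
(.nd (nat_lit 11) (.lf (nat_lit 472908966) (dlOf (nat_lit 1) (nat_lit 0x400400020008b52c02))) 
(.lf (nat_lit 2483031206) (dlOf (nat_lit 4) (nat_lit 0x680a8000a204000c0540004402000802a000101400010040000700c007c00400180008006282))))) 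
(.nd (nat_lit 9) (.nd (nat_lit 7) 
(.lf (nat_lit 4228382758) (dlOf (nat_lit 1) (nat_lit 0x200280a0901))) 
(.lf (nat_lit 6375866790) (dlOf (nat_lit 1) (nat_lit 0x38008002000200040008001003)))) 
(.nd (nat_lit 10) (.lf (nat_lit 2080377382) (dlOf (nat_lit 1) (nat_lit 0x20028005181))) 
(.lf (nat_lit 6375343654) (dlOf (nat_lit 2) (nat_lit 0x613f00000018003700))))))) (.nd (nat_lit 27) 
(.nd (nat_lit 7) (.nd (nat_lit 19) (.nd (nat_lit 32) 
(.lf (nat_lit 1677983782) (dlOf (nat_lit 1) (nat_lit 0x10008000400200020008130583))) 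
(.lf (nat_lit 5972951078) (dlOf (nat_lit 2) (nat_lit 0x20000002d0181c0580)))) (.nd (nat_lit 21) 
(.lf (nat_lit 3557556262) (dlOf (nat_lit 2) (nat_lit 0x1803400005018260600))) 
(.lf (nat_lit 2754347046) (dlOf (nat_lit 1) (nat_lit 0x200280d0901))))) (.nd (nat_lit 8) 
(.nd (nat_lit 9) (.lf (nat_lit 5436080294) (dlOf (nat_lit 1) (nat_lit 0x1600180c1481))) 
(.lf (nat_lit 3557037734) (dlOf (nat_lit 1) (nat_lit 0x8008022c0020044000812a003)))) 
(.nd (nat_lit 9) 
(.lf (nat_lit 3288596902) (dlOf (nat_lit 2) (nat_lit 0x701b005f840800b0008002c002004a0008090783))) 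
(.lf (nat_lit 2752251814) (dlOf (nat_lit 1) (nat_lit 0xe0008004301)))))) (.nd (nat_lit 29) 
(.nd (nat_lit 28) (.nd (nat_lit 7) 
(.lf (nat_lit 201588774) (dlOf (nat_lit 6) (nat_lit 0x580940002002002204a0000f8100130250000740800901280003804000405c0000f0200060028030a01))) 
(.lf (nat_lit 4496559014) (dlOf (nat_lit 1) (nat_lit 0xc000800b4002000200080e5d03)))) 
(.nd (nat_lit 19) 
(.lf (nat_lit 470024230) (dlOf (nat_lit 3) (nat_lit 0x1208f0000400400102a8001a0940000e828030a00))) 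
(.lf (nat_lit 471597094) (dlOf (nat_lit 1) (nat_lit 0x8008000400200020008350783))))) 
(.nd (nat_lit 10) (.nd (nat_lit 9) 
(.lf (nat_lit 1812201510) (dlOf (nat_lit 2) (nat_lit 0x1880000005404001000200020008180582))) 
(.lf (nat_lit 6376131110) (dlOf (nat_lit 1) (nat_lit 0x400400020008095182)))) (.nd (nat_lit 7) 
(.lf (nat_lit 6375605542) (dlOf (nat_lit 1) (nat_lit 0x20028003181))) 
(.lf (nat_lit 1007944870) (dlOf (nat_lit 2) (nat_lit 0x20388000be04004c002002000088c2c02))))))))) 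
(.nd (nat_lit 7) (.nd (nat_lit 10) (.nd (nat_lit 8) (.nd (nat_lit 27) (.nd (nat_lit 19) 
(.nd (nat_lit 9) (.lf (nat_lit 1344274534) (dlOf (nat_lit 1) (nat_lit 0xa20008560d01))) 
(.lf (nat_lit 5100538470) (dlOf (nat_lit 1) (nat_lit 0x200180d5381)))) (.nd (nat_lit 20) 
(.lf (nat_lit 55050342) (dlOf (nat_lit 2) (nat_lit 0xa263005f84080308008001800200420009690783))) 
(.lf (nat_lit 3670118) (dlOf (nat_lit 1) (nat_lit 0x400400020008211382))))) (.nd (nat_lit 11) 
(.nd (nat_lit 19) (.lf (nat_lit 471859302) (dlOf (nat_lit 1) (nat_lit 0xa20008540d01))) 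
(.lf (nat_lit 4228382822) (dlOf (nat_lit 1) (nat_lit 0x2200080050002004a00080a1383)))) 
(.nd (nat_lit 12) (.lf (nat_lit 3623880806) (dlOf (nat_lit 1) (nat_lit 0xa0028004701))) 
(.lf (nat_lit 3623884902) (dlOf (nat_lit 1) (nat_lit 0x42000800a801)))))) (.nd (nat_lit 18) 
(.nd (nat_lit 19) (.nd (nat_lit 12) 
(.lf (nat_lit 5771362662) (dlOf (nat_lit 2) (nat_lit 0x1600000018818000e80))) 
(.lf (nat_lit 1006637414) (dlOf (nat_lit 1) (nat_lit 0x40028008381)))) (.nd (nat_lit 26) 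
(.lf (nat_lit 1074266470) (dlOf (nat_lit 1) (nat_lit 0x7800281b0701))) 
(.lf (nat_lit 1946681702) (dlOf (nat_lit 1) (nat_lit 0x7800281b0701))))) (.nd (nat_lit 19) 
(.nd (nat_lit 26) 
(.lf (nat_lit 3494117734) (dlOf (nat_lit 5) (nat_lit 0x2dc0f60003302038207b000190101c203d8000c4080d981ec0006004000c004000200081b0702))) 
(.lf (nat_lit 2755920230) (dlOf (nat_lit 1) (nat_lit 0x200281b0701)))) (.nd (nat_lit 11) 
(.lf (nat_lit 12321126) (dlOf (nat_lit 1) (nat_lit 0x200286c0701))) 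
(.lf (nat_lit 50071910) (dlOf (nat_lit 2) (nat_lit 0x11bc30005ddd8052301001400080028002005400094c4e83))))))) 
(.nd (nat_lit 9) (.nd (nat_lit 26) (.nd (nat_lit 11) 
(.lf (nat_lit 38536294) (dlOf (nat_lit 1) (nat_lit 0x880009132981))) (.nd (nat_lit 18) 
(.lf (nat_lit 2952797286) (dlOf (nat_lit 3) (nat_lit 0x3b00b000d00340046013000140300020098000940801100080008002000e000800c083))) 
(.lf (nat_lit 20716646) (dlOf (nat_lit 1) (nat_lit 0x3800289dc081))))) (.nd (nat_lit 27) 
(.nd (nat_lit 12) (.lf (nat_lit 2483031142) (dlOf (nat_lit 1) (nat_lit 0x40028006081))) 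
(.lf (nat_lit 603987046) (dlOf (nat_lit 2) (nat_lit 0x40000001281800c080)))) (.nd (nat_lit 11) 
(.lf (nat_lit 3690992742) (dlOf (nat_lit 1) (nat_lit 0x128008037c002020e0008009403))) 
(.nd (nat_lit 29) 
(.lf (nat_lit 469769318) (dlOf (nat_lit 4) (nat_lit 0x1c2c2000609d00640470000881801582740004004013013a00018020002002800c081))) 
(.lf (nat_lit 1006640230) (dlOf (nat_lit 1) (nat_lit 0x8008047800200a2000800c083))))))) 
(.nd (nat_lit 27) (.nd (nat_lit 12) (.nd (nat_lit 18) 
(.lf (nat_lit 4563404390) (dlOf (nat_lit 2) (nat_lit 0x80c00000004001800200040008003902))) 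
(.lf (nat_lit 8652390) (dlOf (nat_lit 1) (nat_lit 0x400200020008513902)))) (.nd (nat_lit 8) 
(.nd (nat_lit 20) (.lf (nat_lit 19666534) (dlOf (nat_lit 1) (nat_lit 0x80080004002000200089d9c03))) 
(.lf (nat_lit 8132198) (dlOf (nat_lit 1) (nat_lit 0x400200020008519c02)))) 
(.lf (nat_lit 67114854) (dlOf (nat_lit 1) (nat_lit 0x6001800a301))))) (.nd (nat_lit 26) 
(.nd (nat_lit 29) (.lf (nat_lit 1207961190) (dlOf (nat_lit 2) (nat_lit 0x402900020818003900))) 
(.lf (nat_lit 1744832102) (dlOf (nat_lit 2) (nat_lit 0xa4070000000200020018003901)))) 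
(.nd (nat_lit 8) 
(.lf (nat_lit 738199142) (dlOf (nat_lit 2) (nat_lit 0x2b02a80008138004406e000000600040008003901))) 
(.lf (nat_lit 201328486) (dlOf (nat_lit 1) (nat_lit 0x400400020008004002)))))))) (.nd (nat_lit 8) 
(.nd (nat_lit 26) (.nd (nat_lit 10) (.nd (nat_lit 11) 
(.lf (nat_lit 9699558) (dlOf (nat_lit 1) (nat_lit 0x40028571b81))) (.nd (nat_lit 12) 
(.nd (nat_lit 27) (.nd (nat_lit 28) (.nd (nat_lit 29) 
(.lf (nat_lit 1073744102) (dlOf (nat_lit 1) (nat_lit 0x400400020008004b02))) 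
(.lf (nat_lit 536873190) (dlOf (nat_lit 1) (nat_lit 0x400400020008004b02)))) 
(.lf (nat_lit 2415921382) (dlOf (nat_lit 1) (nat_lit 0x400400020008004b02)))) 
(.lf (nat_lit 4429187302) (dlOf (nat_lit 1) (nat_lit 0x400400020008004b02)))) 
(.lf (nat_lit 6374) (dlOf (nat_lit 1) (nat_lit 0xc004000e001800a882))))) (.nd (nat_lit 27) 
(.lf (nat_lit 3302) (dlOf (nat_lit 1) (nat_lit 0xe0018006501))) 
(.lf (nat_lit 3087011046) (dlOf (nat_lit 1) (nat_lit 0x20008006501))))) (.nd (nat_lit 27) 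
(.nd (nat_lit 10) (.nd (nat_lit 12) 
(.lf (nat_lit 4362078438) (dlOf (nat_lit 1) (nat_lit 0x400400020008004b02))) 
(.lf (nat_lit 3557038310) (dlOf (nat_lit 1) (nat_lit 0x21000803500020056000812a883)))) 
(.nd (nat_lit 9) (.lf (nat_lit 5972692198) (dlOf (nat_lit 1) (nat_lit 0x20018006501))) 
(.lf (nat_lit 2751465190) (dlOf (nat_lit 1) (nat_lit 0x220028003a81))))) (.nd (nat_lit 9) 
(.nd (nat_lit 11) 
(.lf (nat_lit 5301862630) (dlOf (nat_lit 2) (nat_lit 0x1208044001c604058c004005e00080c1b82))) 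
(.nd (nat_lit 29) (.lf (nat_lit 469764326) (dlOf (nat_lit 1) (nat_lit 0x400400020008004b02))) 
(.lf (nat_lit 1006635238) (dlOf (nat_lit 1) (nat_lit 0x400400020008004b02))))) 
(.lf (nat_lit 4227862246) (dlOf (nat_lit 1) (nat_lit 0x800400040008007402)))))) (.nd (nat_lit 9) 
(.nd (nat_lit 18) (.nd (nat_lit 10) (.nd (nat_lit 20) 
(.lf (nat_lit 2097638) (dlOf (nat_lit 1) (nat_lit 0x40018150c81))) 
(.lf (nat_lit 3490709990) (dlOf (nat_lit 7) (nat_lit 0xf0200000bc0802981000005a0400700800002b0200460400001501001f0200000a00800580000004404002000400120018017302)))) 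
(.lf (nat_lit 2483031526) (dlOf (nat_lit 1) (nat_lit 0x20028006e81)))) (.nd (nat_lit 20) 
(.nd (nat_lit 26) 
(.lf (nat_lit 4026794470) (dlOf (nat_lit 6) (nat_lit 0x2036000101a0000181000080d8000406800005040002036000101a0000101000100d800080680000304000603600020180000001000f000800f000200120008090c83))) 
(.lf (nat_lit 3288596966) (dlOf (nat_lit 6) (nat_lit 0x2036000101a0000181000080d8000406800005040002036000101a0000101000100d800080680000304000603600020180000001000f000800f000200120008090c83)))) 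
(.lf (nat_lit 11796966) (dlOf (nat_lit 1) (nat_lit 0x4004000200086c0c82))))) (.nd (nat_lit 12) 
(.nd (nat_lit 18) (.nd (nat_lit 26) 
(.lf (nat_lit 5368712166) (dlOf (nat_lit 1) (nat_lit 0xc00400020008005e82))) 
(.lf (nat_lit 5301603302) (dlOf (nat_lit 1) (nat_lit 0x8008000c00200020008005e83)))) 
(.nd (nat_lit 11) (.lf (nat_lit 2751726566) (dlOf (nat_lit 1) (nat_lit 0x400200020008002882))) 
(.lf (nat_lit 738462694) (dlOf (nat_lit 1) (nat_lit 0x400200020008095e82))))) (.nd (nat_lit 11) 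
(.nd (nat_lit 26) (.lf (nat_lit 1342182374) (dlOf (nat_lit 1) (nat_lit 0x480028009201))) 
(.lf (nat_lit 469767142) (dlOf (nat_lit 1) (nat_lit 0x4c0028009201)))) (.nd (nat_lit 29) 
(.lf (nat_lit 67116006) (dlOf (nat_lit 1) (nat_lit 0x6002800bf01))) 
(.lf (nat_lit 603986918) (dlOf (nat_lit 1) (nat_lit 0x8000800bf01)))))))))) (.nd (nat_lit 7) 
(.nd (nat_lit 19) (.nd (nat_lit 8) (.nd (nat_lit 28) (.nd (nat_lit 6) (.nd (nat_lit 9) 
(.nd (nat_lit 22) (.nd (nat_lit 24) 
(.lf (nat_lit 3221291046) (dlOf (nat_lit 1) (nat_lit 0x8008000400200020008090003))) 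
(.lf (nat_lit 16842790) (dlOf (nat_lit 1) (nat_lit 0x4002000200088e0002)))) (.nd (nat_lit 21) 
(.lf (nat_lit 21037094) (dlOf (nat_lit 1) (nat_lit 0x8008000400200020008a00903))) 
(.lf (nat_lit 14745638) (dlOf (nat_lit 1) (nat_lit 0x80008770281))))) (.nd (nat_lit 18) 
(.nd (nat_lit 21) (.lf (nat_lit 2147551782) (dlOf (nat_lit 1) (nat_lit 0x400400020008095182))) 
(.lf (nat_lit 69274150) (dlOf (nat_lit 2) (nat_lit 0xc2300008c0200020028905181)))) 
(.lf (nat_lit 35981862) (dlOf (nat_lit 1) (nat_lit 0x80019015181))))) (.nd (nat_lit 10) 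
(.nd (nat_lit 18) (.lf (nat_lit 14745702) (dlOf (nat_lit 1) (nat_lit 0x40018770d01))) 
(.lf (nat_lit 1745158246) (dlOf (nat_lit 2) (nat_lit 0x2180e0000e6040008004000200080b0d82)))) 
(.nd (nat_lit 9) (.lf (nat_lit 55641190) (dlOf (nat_lit 1) (nat_lit 0x4002000200096d2982))) 
(.lf (nat_lit 738264678) (dlOf (nat_lit 2) (nat_lit 0x3027000280dc0000008006400400160008003902)))))) 
(.nd (nat_lit 18) (.nd (nat_lit 6) (.nd (nat_lit 9) 
(.lf (nat_lit 470876198) (dlOf (nat_lit 1) (nat_lit 0x200081c0601))) (.nd (nat_lit 26) 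
(.lf (nat_lit 5637212710) (dlOf (nat_lit 1) (nat_lit 0x20028055181))) 
(.lf (nat_lit 3556837926) (dlOf (nat_lit 1) (nat_lit 0x400400040008085182))))) (.nd (nat_lit 9) 
(.lf (nat_lit 3087073382) (dlOf (nat_lit 1) (nat_lit 0xac002002c00080b0002))) 
(.lf (nat_lit 5234559590) (dlOf (nat_lit 1) (nat_lit 0x16000400d80008055382))))) (.nd (nat_lit 27) 
(.nd (nat_lit 6) 
(.lf (nat_lit 1342504998) (dlOf (nat_lit 11) (nat_lit 0x6247000211e00015410002091c00244780005304000624700028810003123800288f0000a008001048e0003702000c2470001b010005123800388f00006a08000c48e0003402000c247000111e0000cc10001891c000640401e400400a60018040582))) 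
(.lf (nat_lit 872743014) (dlOf (nat_lit 2) (nat_lit 0x2180e0000e6040008004000200080b0d82)))) 
(.nd (nat_lit 30) 
(.lf (nat_lit 470089766) (dlOf (nat_lit 11) (nat_lit 0x6247000211e00015410002091c00244780005304000624700028810003123800288f0000a008001048e0003702000c2470001b010005123800388f00006a08000c48e0003402000c247000111e0000cc10001891c000640401e400400a60018040582))) 
(.lf (nat_lit 1543831590) (dlOf (nat_lit 1) (nat_lit 0x20008001c00200020008190903))))))) 
(.nd (nat_lit 6) (.nd (nat_lit 28) (.nd (nat_lit 20) (.nd (nat_lit 9) 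
(.lf (nat_lit 1677787430) (dlOf (nat_lit 2) (nat_lit 0x25014400ec074000380400020018090501))) 
(.lf (nat_lit 5368777510) (dlOf (nat_lit 1) (nat_lit 0x5400400060018005c02)))) (.nd (nat_lit 22) 
(.lf (nat_lit 3211558) (dlOf (nat_lit 1) (nat_lit 0x10008001400200020008200503))) 
(.lf (nat_lit 7405862) (dlOf (nat_lit 1) (nat_lit 0x400184b0701))))) (.nd (nat_lit 9) 
(.nd (nat_lit 10) (.lf (nat_lit 805634342) (dlOf (nat_lit 1) (nat_lit 0x80018157801))) 
(.lf (nat_lit 4096066854) (dlOf (nat_lit 1) (nat_lit 0x4004000200080e3182)))) (.nd (nat_lit 18) 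
(.lf (nat_lit 6710954790) (dlOf (nat_lit 1) (nat_lit 0xc0028005c01))) 
(.lf (nat_lit 4095019814) (dlOf (nat_lit 1) (nat_lit 0x2000400180018055c02)))))) (.nd (nat_lit 11) 
(.nd (nat_lit 20) (.nd (nat_lit 10) 
(.lf (nat_lit 1208025446) (dlOf (nat_lit 1) (nat_lit 0x320018090e81))) 
(.lf (nat_lit 4093707622) (dlOf (nat_lit 1) (nat_lit 0x400200020008003482)))) (.nd (nat_lit 18) 
(.lf (nat_lit 3211622) (dlOf (nat_lit 1) (nat_lit 0x20008001000200040008200703))) 
(.lf (nat_lit 3473766) (dlOf (nat_lit 2) (nat_lit 0x31ee640006604002800400020008200702))))) 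
(.nd (nat_lit 29) (.nd (nat_lit 10) 
(.lf (nat_lit 134285670) (dlOf (nat_lit 2) (nat_lit 0x404a00b9c818004e80))) 
(.lf (nat_lit 134286694) (dlOf (nat_lit 2) (nat_lit 0x18094000080200020018006a81)))) 
(.nd (nat_lit 26) 
(.lf (nat_lit 3892382054) (dlOf (nat_lit 2) (nat_lit 0x40700160b0200020028104e81))) 
(.lf (nat_lit 3154184550) (dlOf (nat_lit 1) (nat_lit 0xc40008104e81)))))))) (.nd (nat_lit 18) 
(.nd (nat_lit 20) (.nd (nat_lit 25) (.nd (nat_lit 29) (.nd (nat_lit 8) (.nd (nat_lit 21) 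
(.lf (nat_lit 4784166) (dlOf (nat_lit 1) (nat_lit 0x5e000800ac00201ae00082b0283))) 
(.lf (nat_lit 2687014) (dlOf (nat_lit 1) (nat_lit 0x140028190b01)))) 
(.lf (nat_lit 593190) (dlOf (nat_lit 1) (nat_lit 0x400400020008006802)))) (.nd (nat_lit 27) 
(.lf (nat_lit 1879638054) (dlOf (nat_lit 1) (nat_lit 0x60018280601))) (.nd (nat_lit 30) 
(.lf (nat_lit 2819162150) (dlOf (nat_lit 1) (nat_lit 0x4002000200081d0702))) 
(.lf (nat_lit 3892903974) (dlOf (nat_lit 3) (nat_lit 0x8051000b581000101980058c080010008001400200080008290d83)))))) 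
(.nd (nat_lit 6) (.nd (nat_lit 11) 
(.lf (nat_lit 50922022) (dlOf (nat_lit 2) (nat_lit 0xef0c00000040014002000400094d8802))) 
(.lf (nat_lit 44632614) (dlOf (nat_lit 3) (nat_lit 0x26d720008c0200116b900044819325180)))) 
(.nd (nat_lit 10) (.lf (nat_lit 42532966) (dlOf (nat_lit 1) (nat_lit 0x20029260981))) 
(.lf (nat_lit 34145382) (dlOf (nat_lit 1) (nat_lit 0x10008000400200020008fb2983)))))) 
(.nd (nat_lit 9) (.nd (nat_lit 8) (.nd (nat_lit 24) 
(.lf (nat_lit 10027046) (dlOf (nat_lit 1) (nat_lit 0x20004001800085a0c02))) 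
(.lf (nat_lit 26804262) (dlOf (nat_lit 2) (nat_lit 0x3d6a9002e0c080038008005800200120008c70703)))) 
(.lf (nat_lit 7934246) (dlOf (nat_lit 1) (nat_lit 0x2c0028518081)))) (.nd (nat_lit 6) 
(.lf (nat_lit 6376983078) (dlOf (nat_lit 1) (nat_lit 0x1400400020008095182))) 
(.lf (nat_lit 43583078) (dlOf (nat_lit 1) (nat_lit 0x8002000a00092a3902)))))) (.nd (nat_lit 21) 
(.nd (nat_lit 20) (.nd (nat_lit 6) (.nd (nat_lit 23) 
(.lf (nat_lit 2819424294) (dlOf (nat_lit 2) (nat_lit 0xa03780034c0800880080054002000c0008280603))) 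
(.lf (nat_lit 59572262) (dlOf (nat_lit 2) (nat_lit 0x9440000ca03000000080014004000a0009810782)))) 
(.lf (nat_lit 537729894) (dlOf (nat_lit 1) (nat_lit 0x80080004002000200080fbc83)))) 
(.nd (nat_lit 6) (.nd (nat_lit 24) 
(.lf (nat_lit 10289190) (dlOf (nat_lit 2) (nat_lit 0xc3120001d02000200285c0a01))) 
(.lf (nat_lit 27066406) (dlOf (nat_lit 1) (nat_lit 0x100080004002000c0008ca0603)))) 
(.lf (nat_lit 1880949862) (dlOf (nat_lit 1) (nat_lit 0xa0028d72981))))) (.nd (nat_lit 6) 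
(.nd (nat_lit 9) (.nd (nat_lit 26) 
(.lf (nat_lit 3492610086) (dlOf (nat_lit 10) (nat_lit 0x9483fa02cc15f016809c0001c81814007f400383d0029015f00cd0af00210540010429e029c13800a609b804d8000000de24016c3fa000250203ac1fd00820af804304e0000440c05ec3fa00441e8005f0af803084e0000421005e83fa00401e8005b0af800080180ba07f400e83d000fe15f008409c000070200e687f401b83d0010e15f008d09c00006c2006707f401f02bc0000004009800280e0501))) 
(.lf (nat_lit 2754412582) (dlOf (nat_lit 10) (nat_lit 0x94842402cc155016809c0001c818140084800383f4029015500cd0aa00210540010429e029c13800a609b804d8000000de24016c424000250203ac21200820aa804304e0000440c05ec42400441fa005f0aa803084e0000421005e842400401fa005b0aa800080180ba084800e83f400fe155008409c000070200e6884801b83f4010e155008d09c00006c20067084801f02a80000004009800280e0501)))) 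
(.lf (nat_lit 1345128998) (dlOf (nat_lit 1) (nat_lit 0xc00400020008a45182)))) (.nd (nat_lit 9) 
(.lf (nat_lit 1346175078) (dlOf (nat_lit 2) (nat_lit 0xb40d900007018e60980))) 
(.lf (nat_lit 61671014) (dlOf (nat_lit 2) (nat_lit 0x1b2fa00000019923900)))))))) (.nd (nat_lit 8) 
(.nd (nat_lit 18) (.nd (nat_lit 6) (.nd (nat_lit 10) (.nd (nat_lit 20) 
(.lf (nat_lit 537460902) (dlOf (nat_lit 1) (nat_lit 0x100028090281))) 
(.lf (nat_lit 4095279270) (dlOf (nat_lit 1) (nat_lit 0x400200080008081482)))) (.nd (nat_lit 11) 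
(.nd (nat_lit 20) (.lf (nat_lit 37815462) (dlOf (nat_lit 1) (nat_lit 0x1400290d2c01))) 
(.lf (nat_lit 36766886) (dlOf (nat_lit 1) (nat_lit 0x620009072c01)))) 
(.lf (nat_lit 1543572646) (dlOf (nat_lit 2) (nat_lit 0x240500002c02000a0008146281))))) 
(.nd (nat_lit 10) (.nd (nat_lit 11) (.nd (nat_lit 12) 
(.lf (nat_lit 1343815910) (dlOf (nat_lit 1) (nat_lit 0x8008000400200020008370583))) 
(.lf (nat_lit 7934182) (dlOf (nat_lit 1) (nat_lit 0x2c0028518081)))) 
(.lf (nat_lit 7936230) (dlOf (nat_lit 1) (nat_lit 0x25c0040054001851a882)))) (.nd (nat_lit 23) 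
(.lf (nat_lit 6106973414) (dlOf (nat_lit 1) (nat_lit 0x400200020008002e02))) 
(.lf (nat_lit 8455398) (dlOf (nat_lit 1) (nat_lit 0x20028512e01)))))) (.nd (nat_lit 27) 
(.nd (nat_lit 6) (.nd (nat_lit 9) (.nd (nat_lit 10) 
(.lf (nat_lit 21299366) (dlOf (nat_lit 1) (nat_lit 0x100028a31481))) 
(.lf (nat_lit 20253862) (dlOf (nat_lit 1) (nat_lit 0x4002000200089d6282)))) 
(.lf (nat_lit 20255398) (dlOf (nat_lit 1) (nat_lit 0x4002000200089d8c82)))) (.nd (nat_lit 10) 
(.lf (nat_lit 6711214310) (dlOf (nat_lit 2) (nat_lit 0x1d801c000718180c1b80))) 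
(.lf (nat_lit 330982) (dlOf (nat_lit 2) (nat_lit 0x2dcc8000d4080008008000400200020008006503))))) 
(.nd (nat_lit 19) (.nd (nat_lit 6) (.nd (nat_lit 21) 
(.lf (nat_lit 5234819238) (dlOf (nat_lit 1) (nat_lit 0x180080004002000200080f1383))) 
(.lf (nat_lit 1009057958) (dlOf (nat_lit 1) (nat_lit 0x8008000400200020009031483)))) 
(.lf (nat_lit 2886011110) (dlOf (nat_lit 1) (nat_lit 0xac004003a0008144b02)))) (.nd (nat_lit 26) 
(.lf (nat_lit 5773263014) (dlOf (nat_lit 1) (nat_lit 0x8004000200080c1382))) 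
(.lf (nat_lit 6377242790) (dlOf (nat_lit 1) (nat_lit 0x180080004002000200080c1483))))))) 
(.nd (nat_lit 11) (.nd (nat_lit 9) (.nd (nat_lit 10) (.nd (nat_lit 21) 
(.lf (nat_lit 8454566) (dlOf (nat_lit 1) (nat_lit 0xa800400020008511002))) 
(.lf (nat_lit 1008796070) (dlOf (nat_lit 1) (nat_lit 0x400200020008f86e82)))) (.nd (nat_lit 18) 
(.nd (nat_lit 27) (.lf (nat_lit 4899014054) (dlOf (nat_lit 1) (nat_lit 0x400200140008053602))) 
(.lf (nat_lit 4496360870) (dlOf (nat_lit 1) (nat_lit 0x10008000c00200020008053603)))) 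
(.lf (nat_lit 8193446) (dlOf (nat_lit 1) (nat_lit 0x400200020008513602))))) (.nd (nat_lit 27) 
(.nd (nat_lit 23) (.lf (nat_lit 536938406) (dlOf (nat_lit 1) (nat_lit 0xc0018004301))) 
(.lf (nat_lit 8456102) (dlOf (nat_lit 1) (nat_lit 0x80008004800200040008514303)))) 
(.nd (nat_lit 10) (.lf (nat_lit 3355513766) (dlOf (nat_lit 1) (nat_lit 0x2000280a9101))) 
(.lf (nat_lit 2886010790) (dlOf (nat_lit 1) (nat_lit 0x150008025800200380008144303)))))) 
(.nd (nat_lit 27) (.nd (nat_lit 10) (.nd (nat_lit 9) 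
(.lf (nat_lit 36506022) (dlOf (nat_lit 1) (nat_lit 0x20019074e81))) (.nd (nat_lit 26) 
(.lf (nat_lit 5637213094) (dlOf (nat_lit 1) (nat_lit 0x19c0028055d01))) 
(.lf (nat_lit 5704321958) (dlOf (nat_lit 1) (nat_lit 0x18008002c00200120008055d03))))) 
(.nd (nat_lit 6) (.lf (nat_lit 7933862) (dlOf (nat_lit 1) (nat_lit 0x10008000400200060008517903))) 
(.lf (nat_lit 331750) (dlOf (nat_lit 1) (nat_lit 0x3c0008007a81))))) (.nd (nat_lit 6) 
(.nd (nat_lit 26) (.lf (nat_lit 2013334438) (dlOf (nat_lit 1) (nat_lit 0x20018005d01))) 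
(.lf (nat_lit 5301668774) (dlOf (nat_lit 1) (nat_lit 0x20028005d01)))) (.nd (nat_lit 9) 
(.lf (nat_lit 1208027622) (dlOf (nat_lit 1) (nat_lit 0xc0018094e81))) 
(.lf (nat_lit 2013334502) (dlOf (nat_lit 1) (nat_lit 0x20018005e81)))))))))) (.nd (nat_lit 16) 
(.nd (nat_lit 18) (.nd (nat_lit 28) (.nd (nat_lit 19) (.nd (nat_lit 8) (.nd (nat_lit 24) 
(.nd (nat_lit 10) (.nd (nat_lit 27) 
(.lf (nat_lit 5368840230) (dlOf (nat_lit 1) (nat_lit 0x48008002c00200060008040203))) 
(.lf (nat_lit 5503057958) (dlOf (nat_lit 1) (nat_lit 0x48008002c00200060008040203)))) 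
(.nd (nat_lit 6) (.lf (nat_lit 3959555110) (dlOf (nat_lit 1) (nat_lit 0xe0018112881))) 
(.lf (nat_lit 2754743526) (dlOf (nat_lit 1) (nat_lit 0x10004001600080f6502))))) (.nd (nat_lit 6) 
(.nd (nat_lit 23) 
(.lf (nat_lit 52559910) (dlOf (nat_lit 5) (nat_lit 0x246098000aff000294d20002c060012c13000158100015fd80006408004b04c0002c0400d000400100009550202))) 
(.lf (nat_lit 27394086) (dlOf (nat_lit 1) (nat_lit 0x1ac00400100008ce0602)))) (.nd (nat_lit 20) 
(.lf (nat_lit 52559974) (dlOf (nat_lit 2) (nat_lit 0xa9a00000004000400400020019550982))) 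
(.lf (nat_lit 24248422) (dlOf (nat_lit 1) (nat_lit 0x40028b91381)))))) (.nd (nat_lit 9) 
(.nd (nat_lit 6) (.nd (nat_lit 11) 
(.lf (nat_lit 2755789094) (dlOf (nat_lit 1) (nat_lit 0x7600081b0501))) 
(.lf (nat_lit 8522022) (dlOf (nat_lit 1) (nat_lit 0x40008001400200080008514b83)))) 
(.nd (nat_lit 10) (.nd (nat_lit 26) 
(.lf (nat_lit 3221359078) (dlOf (nat_lit 1) (nat_lit 0x2800200020008114e82))) 
(.lf (nat_lit 6509693414) (dlOf (nat_lit 1) (nat_lit 0x1e0018144e81)))) 
(.lf (nat_lit 1610745318) (dlOf (nat_lit 1) (nat_lit 0x20018093601))))) (.nd (nat_lit 29) 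
(.nd (nat_lit 10) 
(.lf (nat_lit 3355575206) (dlOf (nat_lit 2) (nat_lit 0x680d000ac05c0003104003000080a2601))) 
(.lf (nat_lit 8521638) (dlOf (nat_lit 1) (nat_lit 0x18400200760008514302)))) (.nd (nat_lit 7) 
(.lf (nat_lit 5972821798) (dlOf (nat_lit 1) (nat_lit 0x400400020018143d02))) 
(.lf (nat_lit 537003942) (dlOf (nat_lit 1) (nat_lit 0x400400020008004302))))))) (.nd (nat_lit 22) 
(.nd (nat_lit 23) (.nd (nat_lit 20) (.nd (nat_lit 26) 
(.lf (nat_lit 3892969510) (dlOf (nat_lit 1) (nat_lit 0x4004000200182c0782))) 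
(.lf (nat_lit 4362731558) (dlOf (nat_lit 1) (nat_lit 0x8e00180e0c01)))) 
(.lf (nat_lit 18481190) (dlOf (nat_lit 1) (nat_lit 0x20028940781)))) (.nd (nat_lit 6) 
(.nd (nat_lit 20) 
(.lf (nat_lit 11141158) (dlOf (nat_lit 2) (nat_lit 0x980000006604008000200400008660602))) 
(.lf (nat_lit 45744166) (dlOf (nat_lit 1) (nat_lit 0x90008005c00200160009360203)))) 
(.lf (nat_lit 42598502) (dlOf (nat_lit 2) (nat_lit 0x5a98b00000019260980))))) (.nd (nat_lit 20) 
(.nd (nat_lit 7) (.nd (nat_lit 23) 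
(.lf (nat_lit 21626918) (dlOf (nat_lit 1) (nat_lit 0x400200020008a50a82))) 
(.lf (nat_lit 13238310) (dlOf (nat_lit 1) (nat_lit 0x8008000400200020008710c03)))) 
(.lf (nat_lit 32113830) (dlOf (nat_lit 1) (nat_lit 0x20008000400200040008ef2c03)))) 
(.nd (nat_lit 6) (.nd (nat_lit 21) 
(.lf (nat_lit 22675494) (dlOf (nat_lit 3) (nat_lit 0x4da70000a808005b52c0005004005000400600018b10802))) 
(.lf (nat_lit 16384038) (dlOf (nat_lit 1) (nat_lit 0xb80080068002002400088a0603)))) 
(.lf (nat_lit 14287206) (dlOf (nat_lit 1) (nat_lit 0x10008000400200020008750983))))))) 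
(.nd (nat_lit 26) (.nd (nat_lit 7) (.nd (nat_lit 6) (.nd (nat_lit 9) (.nd (nat_lit 19) 
(.lf (nat_lit 1344405542) (dlOf (nat_lit 1) (nat_lit 0x400200020008760a82))) 
(.lf (nat_lit 1343881254) (dlOf (nat_lit 1) (nat_lit 0x1000200020008370002)))) 
(.lf (nat_lit 1345980966) (dlOf (nat_lit 1) (nat_lit 0x40018e25181)))) (.nd (nat_lit 8) 
(.lf (nat_lit 1344929894) (dlOf (nat_lit 3) (nat_lit 0x7414d003a06c801d027000e811a000407d000070500260b0000385340090138005a08d001c03e000000280270008011c002000800089a0983))) 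
(.lf (nat_lit 3493986662) (dlOf (nat_lit 1) (nat_lit 0x200281b0701))))) (.nd (nat_lit 8) 
(.nd (nat_lit 10) (.lf (nat_lit 268566694) (dlOf (nat_lit 1) (nat_lit 0xc00400020008081382))) 
(.lf (nat_lit 805444774) (dlOf (nat_lit 1) (nat_lit 0x800800e00020002000811c203)))) 
(.nd (nat_lit 10) 
(.lf (nat_lit 4563536806) (dlOf (nat_lit 2) (nat_lit 0x90148000e408036800800b0002004a0008095d03))) 
(.lf (nat_lit 3087140774) (dlOf (nat_lit 2) (nat_lit 0x58000000180200520018144301)))))) 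
(.nd (nat_lit 19) (.nd (nat_lit 9) (.nd (nat_lit 7) (.nd (nat_lit 8) 
(.lf (nat_lit 3691118630) (dlOf (nat_lit 4) (nat_lit 0x28010000500400040080002702000401c000200180005c1001c000800a400200220008020783))) 
(.lf (nat_lit 2483159334) (dlOf (nat_lit 1) (nat_lit 0x140018047801)))) (.nd (nat_lit 11) 
(.lf (nat_lit 474088614) (dlOf (nat_lit 9) (nat_lit 0x2c0a18001e008002859800082860005f04006a204001f0b400110598000c2c6003414500100a180010508000819e00060ca0002062000282c800080e60048017002600a8001747002805a4005c2d00005904008e169002400c0001601000b85a400082d0000570400e6169002b0b300198060000a80c01a42d20040166002b00c0001141801f0008000400200020009082c03))) 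
(.lf (nat_lit 1409420454) (dlOf (nat_lit 1) (nat_lit 0x40028006281))))) (.nd (nat_lit 6) 
(.nd (nat_lit 8) (.lf (nat_lit 3020030502) (dlOf (nat_lit 1) (nat_lit 0x200280e8801))) 
(.lf (nat_lit 2617377574) (dlOf (nat_lit 2) (nat_lit 0x680c400ac0560003104003000080a2181)))) 
(.lf (nat_lit 2617382502) (dlOf (nat_lit 3) (nat_lit 0x20160004740801280b000000040118002007200080a9c02))))) 
(.nd (nat_lit 31) (.nd (nat_lit 21) 
(.lf (nat_lit 1007288358) (dlOf (nat_lit 1) (nat_lit 0x80080004002000200082e0003))) 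
(.lf (nat_lit 472514598) (dlOf (nat_lit 1) (nat_lit 0x80080018002001000089b0783)))) 
(.nd (nat_lit 30) 
(.lf (nat_lit 3154772006) (dlOf (nat_lit 4) (nat_lit 0x400cc001002c001630400020470009881000a0238002f80801c00080008002001a0008320d83))) 
(.lf (nat_lit 4228513830) (dlOf (nat_lit 1) (nat_lit 0x8e00180e0c01)))))))) (.nd (nat_lit 19) 
(.nd (nat_lit 28) (.nd (nat_lit 24) (.nd (nat_lit 27) (.nd (nat_lit 20) (.nd (nat_lit 26) 
(.nd (nat_lit 29) (.lf (nat_lit 3221618726) (dlOf (nat_lit 1) (nat_lit 0x40018160981))) 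
(.lf (nat_lit 537264166) (dlOf (nat_lit 1) (nat_lit 0x120008070781)))) 
(.lf (nat_lit 1678114854) (dlOf (nat_lit 2) (nat_lit 0x902b0000d40800d0008000800200080008190983)))) 
(.nd (nat_lit 6) 
(.lf (nat_lit 2752905254) (dlOf (nat_lit 4) (nat_lit 0x839400281c40005a04000800b00029810008005800140080058008003000200020008060583))) 
(.lf (nat_lit 9830502) (dlOf (nat_lit 1) (nat_lit 0x4000400080008580782))))) (.nd (nat_lit 26) 
(.nd (nat_lit 6) (.nd (nat_lit 29) 
(.lf (nat_lit 3355836454) (dlOf (nat_lit 9) (nat_lit 0x405c0005602006a02e0002a8100220170001500800500b8000a604008405c0004f02005802e00110168001341000400b80008004007405c0003f0200160008120601))) 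
(.lf (nat_lit 3892707366) (dlOf (nat_lit 2) (nat_lit 0x120288002fc080088008001c002001800081d0603)))) 
(.lf (nat_lit 1208352998) (dlOf (nat_lit 1) (nat_lit 0xc004000200080c1d82)))) (.nd (nat_lit 29) 
(.lf (nat_lit 2349203494) (dlOf (nat_lit 1) (nat_lit 0x4004000200081b0002))) 
(.lf (nat_lit 3959816230) (dlOf (nat_lit 2) (nat_lit 0x60178000dc08020000800f800200020008160983)))))) 
(.nd (nat_lit 25) (.nd (nat_lit 6) (.nd (nat_lit 7) 
(.lf (nat_lit 27656230) (dlOf (nat_lit 1) (nat_lit 0xa0008d10881))) 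
(.lf (nat_lit 20320934) (dlOf (nat_lit 1) (nat_lit 0x4002000200089d8c82)))) 
(.lf (nat_lit 23462374) (dlOf (nat_lit 1) (nat_lit 0x40018b80c81)))) (.nd (nat_lit 6) 
(.nd (nat_lit 8) (.lf (nat_lit 54919206) (dlOf (nat_lit 1) (nat_lit 0xe0019670301))) 
(.lf (nat_lit 58065190) (dlOf (nat_lit 1) (nat_lit 0xe00097b8081)))) 
(.lf (nat_lit 54919270) (dlOf (nat_lit 1) (nat_lit 0x20009670d81)))))) (.nd (nat_lit 31) 
(.nd (nat_lit 20) (.nd (nat_lit 29) (.nd (nat_lit 7) 
(.lf (nat_lit 1409679398) (dlOf (nat_lit 1) (nat_lit 0x120008070781))) 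
(.lf (nat_lit 5771758502) (dlOf (nat_lit 1) (nat_lit 0x40028005d01)))) (.nd (nat_lit 6) 
(.lf (nat_lit 805699622) (dlOf (nat_lit 3) (nat_lit 0x9740ac0748013034500500004418007804c003c0140001004007c0028190981))) 
(.lf (nat_lit 1881538662) (dlOf (nat_lit 1) (nat_lit 0x18004001c0008f40982))))) (.nd (nat_lit 26) 
(.lf (nat_lit 1343619110) (dlOf (nat_lit 1) (nat_lit 0x80080004002000200082c0783))) 
(.nd (nat_lit 29) 
(.lf (nat_lit 471203878) (dlOf (nat_lit 1) (nat_lit 0x1000080008002000e00082c0783))) 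
(.lf (nat_lit 1008074790) (dlOf (nat_lit 1) (nat_lit 0xe00089b0781)))))) (.nd (nat_lit 8) 
(.nd (nat_lit 26) (.nd (nat_lit 20) 
(.lf (nat_lit 3494248486) (dlOf (nat_lit 4) (nat_lit 0x8053000302800005010004015000200a2000a04e000b02280004c2004c815002580a20001204001800181e0901))) 
(.lf (nat_lit 3491102758) (dlOf (nat_lit 4) (nat_lit 0x82d400281640005a04000800b00029810008005800140080058008003000200020008060583)))) 
(.nd (nat_lit 29) 
(.lf (nat_lit 2617638950) (dlOf (nat_lit 1) (nat_lit 0x280080010002001a0008110583))) 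
(.lf (nat_lit 3154509862) (dlOf (nat_lit 2) (nat_lit 0xc805100570198002c4100060008002c002000400081f0603))))) 
(.nd (nat_lit 10) (.nd (nat_lit 6) 
(.lf (nat_lit 3490056614) (dlOf (nat_lit 1) (nat_lit 0x400200020008004e82))) 
(.lf (nat_lit 3557163366) (dlOf (nat_lit 1) (nat_lit 0x400400020008130982)))) (.nd (nat_lit 27) 
(.lf (nat_lit 3490057510) (dlOf (nat_lit 1) (nat_lit 0x400200020008006802))) 
(.lf (nat_lit 3624275238) (dlOf (nat_lit 1) (nat_lit 0x1000400060018146802)))))))) 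
(.nd (nat_lit 20) (.nd (nat_lit 6) (.nd (nat_lit 7) (.nd (nat_lit 24) (.nd (nat_lit 26) 
(.nd (nat_lit 29) (.lf (nat_lit 917542) (dlOf (nat_lit 1) (nat_lit 0x20018030a01))) 
(.lf (nat_lit 537788454) (dlOf (nat_lit 1) (nat_lit 0x74002028800081a0982)))) 
(.lf (nat_lit 1410203686) (dlOf (nat_lit 2) (nat_lit 0x120220000a0181a0980)))) 
(.lf (nat_lit 17694758) (dlOf (nat_lit 3) (nat_lit 0xb4958005ac0800aa4ac002c6040024004005000188f0d82)))) 
(.nd (nat_lit 8) (.lf (nat_lit 19796646) (dlOf (nat_lit 1) (nat_lit 0x80080004002000200089d8c83))) 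
(.nd (nat_lit 11) (.lf (nat_lit 19796390) (dlOf (nat_lit 1) (nat_lit 0x80080004002000400089d8403))) 
(.lf (nat_lit 2754480550) (dlOf (nat_lit 1) (nat_lit 0x200080f4e81)))))) (.nd (nat_lit 7) 
(.nd (nat_lit 9) (.nd (nat_lit 11) 
(.lf (nat_lit 23986534) (dlOf (nat_lit 1) (nat_lit 0x20028b80701))) 
(.lf (nat_lit 1345194342) (dlOf (nat_lit 3) (nat_lit 0x1a16500b410100480b28057ec080008008002c00200060008b04e83)))) 
(.lf (nat_lit 19794790) (dlOf (nat_lit 1) (nat_lit 0x4002000200089d5c02)))) (.nd (nat_lit 11) 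
(.lf (nat_lit 19792102) (dlOf (nat_lit 1) (nat_lit 0x4004000200089d0a82))) 
(.lf (nat_lit 19798246) (dlOf (nat_lit 1) (nat_lit 0x4004000200089da882)))))) (.nd (nat_lit 6) 
(.nd (nat_lit 22) (.nd (nat_lit 21) 
(.lf (nat_lit 10354726) (dlOf (nat_lit 3) (nat_lit 0x1258f0006a6d4002830000021198000a820001d8f0000c6000006233000148385d0580))) 
(.nd (nat_lit 23) (.lf (nat_lit 2755526694) (dlOf (nat_lit 1) (nat_lit 0x4002000200081b0002))) 
(.lf (nat_lit 29229094) (dlOf (nat_lit 1) (nat_lit 0x1068008000400201800008de0783))))) 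
(.nd (nat_lit 7) (.lf (nat_lit 41814566) (dlOf (nat_lit 2) (nat_lit 0x110120008b0200020029245181))) 
(.nd (nat_lit 8) (.lf (nat_lit 8259238) (dlOf (nat_lit 1) (nat_lit 0x8008000400200020008513a83))) 
(.lf (nat_lit 8258982) (dlOf (nat_lit 1) (nat_lit 0x400200020008513602)))))) (.nd (nat_lit 7) 
(.nd (nat_lit 9) (.nd (nat_lit 12) 
(.lf (nat_lit 62784614) (dlOf (nat_lit 1) (nat_lit 0x4002000200099a2982))) 
(.lf (nat_lit 1344148582) (dlOf (nat_lit 3) (nat_lit 0xe0590002c81000902c80015c080008008000c002000200083d9403)))) 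
(.lf (nat_lit 8263270) (dlOf (nat_lit 1) (nat_lit 0x8008000400200020008519c03)))) (.nd (nat_lit 26) 
(.lf (nat_lit 3493724646) (dlOf (nat_lit 1) (nat_lit 0xc004000600181b0c82))) 
(.lf (nat_lit 2755527142) (dlOf (nat_lit 1) (nat_lit 0xc004000600181b0c82))))))))) 
(.nd (nat_lit 28) (.nd (nat_lit 18) (.nd (nat_lit 8) (.nd (nat_lit 20) (.nd (nat_lit 19) 
(.nd (nat_lit 7) (.nd (nat_lit 26) 
(.lf (nat_lit 1073938470) (dlOf (nat_lit 1) (nat_lit 0x8008000400200020008030a03))) 
(.lf (nat_lit 5570232358) (dlOf (nat_lit 1) (nat_lit 0x2000400100008090202)))) (.nd (nat_lit 6) 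
(.lf (nat_lit 6509760166) (dlOf (nat_lit 1) (nat_lit 0x20018147201))) 
(.lf (nat_lit 2818773222) (dlOf (nat_lit 1) (nat_lit 0xd80080020002000c0008128083))))) 
(.nd (nat_lit 22) (.nd (nat_lit 26) 
(.lf (nat_lit 3893035046) (dlOf (nat_lit 1) (nat_lit 0x400200020008300782))) 
(.lf (nat_lit 4362797094) (dlOf (nat_lit 4) (nat_lit 0x814c014c08e0003f0400380450001c010044029002981180006808000400400880018100502)))) 
(.lf (nat_lit 21692454) (dlOf (nat_lit 1) (nat_lit 0x20028a60c01))))) (.nd (nat_lit 7) 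
(.nd (nat_lit 9) (.nd (nat_lit 23) 
(.lf (nat_lit 2752708646) (dlOf (nat_lit 2) (nat_lit 0x60880000e818030a00))) 
(.lf (nat_lit 26411046) (dlOf (nat_lit 1) (nat_lit 0x20018c40781)))) (.nd (nat_lit 11) 
(.lf (nat_lit 2753233446) (dlOf (nat_lit 2) (nat_lit 0xc01fc00000018090e00))) 
(.lf (nat_lit 41617958) (dlOf (nat_lit 1) (nat_lit 0x1c0008000400200020009245183))))) 
(.nd (nat_lit 6) (.nd (nat_lit 11) 
(.lf (nat_lit 20124326) (dlOf (nat_lit 1) (nat_lit 0x4002000200089d8c82))) 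
(.lf (nat_lit 36899494) (dlOf (nat_lit 1) (nat_lit 0x20008007400200aa0009075603)))) 
(.lf (nat_lit 2754809062) (dlOf (nat_lit 2) (nat_lit 0x2a03c8000d40800100080174002000400080f6503)))))) 
(.nd (nat_lit 26) (.nd (nat_lit 11) (.nd (nat_lit 7) (.nd (nat_lit 10) 
(.lf (nat_lit 9634086) (dlOf (nat_lit 1) (nat_lit 0x60008574601))) 
(.lf (nat_lit 5368907046) (dlOf (nat_lit 1) (nat_lit 0x400400020008093182)))) (.nd (nat_lit 9) 
(.lf (nat_lit 8585638) (dlOf (nat_lit 1) (nat_lit 0x8000400020008511002))) 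
(.lf (nat_lit 3355644838) (dlOf (nat_lit 1) (nat_lit 0x4004000200180a9102))))) (.nd (nat_lit 29) 
(.nd (nat_lit 9) (.lf (nat_lit 724262) (dlOf (nat_lit 1) (nat_lit 0x400400020008006802))) 
(.lf (nat_lit 54725414) (dlOf (nat_lit 4) (nat_lit 0x2ce740022602001e73a0010701000e3a200081d0c0034608004800400020009655c02)))) 
(.nd (nat_lit 27) 
(.lf (nat_lit 5905778982) (dlOf (nat_lit 1) (nat_lit 0x200080010002000c0008144b83))) 
(.lf (nat_lit 671287590) (dlOf (nat_lit 1) (nat_lit 0x50008002c00200260008144b83)))))) 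
(.nd (nat_lit 7) (.nd (nat_lit 10) (.nd (nat_lit 9) 
(.lf (nat_lit 2755854630) (dlOf (nat_lit 1) (nat_lit 0x4002000200081b0502))) 
(.lf (nat_lit 1141050150) (dlOf (nat_lit 1) (nat_lit 0x20018095c01)))) (.nd (nat_lit 11) 
(.lf (nat_lit 5033362726) (dlOf (nat_lit 1) (nat_lit 0x20028093181))) 
(.lf (nat_lit 6509759782) (dlOf (nat_lit 1) (nat_lit 0x300018146801))))) (.nd (nat_lit 6) 
(.nd (nat_lit 27) (.lf (nat_lit 4362273190) (dlOf (nat_lit 2) (nat_lit 0xe04700256818016e80))) 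
(.lf (nat_lit 2349007270) (dlOf (nat_lit 1) (nat_lit 0x40028090781)))) 
(.lf (nat_lit 4362273254) (dlOf (nat_lit 9) (nat_lit 0x1700ac002202b0028882002702b000880ac009640800980ac005e02b0025502000b0158012a40802d0150009400400340a80049802004402b001f6810017015800fa00801e8008004400200100008017d03))))))) 
(.nd (nat_lit 19) (.nd (nat_lit 23) (.nd (nat_lit 29) (.nd (nat_lit 7) (.nd (nat_lit 26) 
(.lf (nat_lit 134676518) (dlOf (nat_lit 2) (nat_lit 0x204300010208037b01000b00080050002004a0008090003))) 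
(.lf (nat_lit 6510018598) (dlOf (nat_lit 3) (nat_lit 0x3c0170001501001c00b8000a408016000800d000200180008180583)))) 
(.lf (nat_lit 58130854) (dlOf (nat_lit 1) (nat_lit 0x200097c6e81)))) (.nd (nat_lit 7) 
(.nd (nat_lit 21) 
(.lf (nat_lit 5906038822) (dlOf (nat_lit 3) (nat_lit 0x3c0170001501001c00b8000a408016000800d000200180008180583))) 
(.lf (nat_lit 2754019366) (dlOf (nat_lit 1) (nat_lit 0xc004000200080b0b02)))) 
(.lf (nat_lit 537329830) (dlOf (nat_lit 1) (nat_lit 0x60018090281))))) (.nd (nat_lit 9) 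
(.nd (nat_lit 20) (.nd (nat_lit 21) 
(.lf (nat_lit 13041702) (dlOf (nat_lit 4) (nat_lit 0x1863c0005312800615e80002a0c0004c7800026250000982000b31e0000140800b00080064002001000086f0903))) 
(.lf (nat_lit 15138854) (dlOf (nat_lit 2) (nat_lit 0x30d0c8002fc0800580080004002001200087c0603)))) 
(.lf (nat_lit 9895974) (dlOf (nat_lit 1) (nat_lit 0x8008000800200020008590983)))) (.nd (nat_lit 6) 
(.lf (nat_lit 60230182) (dlOf (nat_lit 1) (nat_lit 0x40029845181))) 
(.lf (nat_lit 8851430) (dlOf (nat_lit 1) (nat_lit 0x40028517a81)))))) (.nd (nat_lit 10) 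
(.nd (nat_lit 9) (.nd (nat_lit 20) (.nd (nat_lit 23) 
(.lf (nat_lit 5177382) (dlOf (nat_lit 2) (nat_lit 0x7f6070000a9980016208007c004003e0008320602))) 
(.lf (nat_lit 13565990) (dlOf (nat_lit 1) (nat_lit 0x20018730901)))) 
(.lf (nat_lit 23003174) (dlOf (nat_lit 1) (nat_lit 0x10000802f8002004a0008b40603)))) 
(.nd (nat_lit 6) (.nd (nat_lit 7) 
(.lf (nat_lit 2754550566) (dlOf (nat_lit 1) (nat_lit 0x6800800d8002002a00080fbc83))) 
(.lf (nat_lit 62851750) (dlOf (nat_lit 1) (nat_lit 0x200299a5601)))) 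
(.lf (nat_lit 39783142) (dlOf (nat_lit 1) (nat_lit 0x400191f5981))))) (.nd (nat_lit 7) 
(.nd (nat_lit 6) (.lf (nat_lit 19861286) (dlOf (nat_lit 1) (nat_lit 0x600289d7481))) 
(.nd (nat_lit 12) (.lf (nat_lit 70190694) (dlOf (nat_lit 2) (nat_lit 0x840d000019818fa3900))) 
(.lf (nat_lit 8328806) (dlOf (nat_lit 1) (nat_lit 0x1c00200020008519c02))))) (.nd (nat_lit 8) 
(.lf (nat_lit 8328358) (dlOf (nat_lit 1) (nat_lit 0xa800200040008519502))) (.nd (nat_lit 9) 
(.lf (nat_lit 8324518) (dlOf (nat_lit 1) (nat_lit 0xc00200080008513602))) 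
(.lf (nat_lit 19863462) (dlOf (nat_lit 1) (nat_lit 0x80080010002000800089da303))))))))) 
(.nd (nat_lit 26) (.nd (nat_lit 8) (.nd (nat_lit 9) (.nd (nat_lit 29) (.nd (nat_lit 6) 
(.nd (nat_lit 7) (.nd (nat_lit 19) 
(.lf (nat_lit 3490906150) (dlOf (nat_lit 2) (nat_lit 0x608b0000e818030a00))) 
(.lf (nat_lit 1343946790) (dlOf (nat_lit 1) (nat_lit 0x1c0008380d81)))) 
(.lf (nat_lit 3624078502) (dlOf (nat_lit 2) (nat_lit 0x70074000580400e4004003c0018146282)))) 
(.nd (nat_lit 10) 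
(.lf (nat_lit 3492743270) (dlOf (nat_lit 1) (nat_lit 0x300080010002000800080f4703))) 
(.lf (nat_lit 1344472166) (dlOf (nat_lit 1) (nat_lit 0x400200060008802982))))) (.nd (nat_lit 27) 
(.nd (nat_lit 30) 
(.lf (nat_lit 5100470310) (dlOf (nat_lit 1) (nat_lit 0x18008001400200080008090203))) 
(.lf (nat_lit 6174212134) (dlOf (nat_lit 1) (nat_lit 0x2000400100008090202)))) 
(.lf (nat_lit 6308429862) (dlOf (nat_lit 1) (nat_lit 0xc004000c0008080202))))) (.nd (nat_lit 11) 
(.nd (nat_lit 6) (.lf (nat_lit 3491430950) (dlOf (nat_lit 2) (nat_lit 0xc01ea00000018090e00))) 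
(.lf (nat_lit 4697818726) (dlOf (nat_lit 1) (nat_lit 0x8800200b60008093902)))) (.nd (nat_lit 18) 
(.lf (nat_lit 1346046502) (dlOf (nat_lit 1) (nat_lit 0x4004005e0018e25182))) 
(.lf (nat_lit 1476856358) (dlOf (nat_lit 1) (nat_lit 0x20018285181)))))) (.nd (nat_lit 10) 
(.nd (nat_lit 6) (.nd (nat_lit 9) 
(.lf (nat_lit 2416378150) (dlOf (nat_lit 1) (nat_lit 0xc004000600081b0502))) 
(.lf (nat_lit 268634918) (dlOf (nat_lit 1) (nat_lit 0x80080004002000200080e5c03)))) 
(.nd (nat_lit 7) (.nd (nat_lit 27) 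
(.lf (nat_lit 2416378214) (dlOf (nat_lit 1) (nat_lit 0x100080004002000400081b0703))) 
(.lf (nat_lit 2550595942) (dlOf (nat_lit 1) (nat_lit 0x100080004002000400081b0703)))) 
(.nd (nat_lit 18) 
(.lf (nat_lit 939721190) (dlOf (nat_lit 6) (nat_lit 0x4000580128010006c0000051106003400b001e002000a0000009920c00d00160030004000e00000131c18003007c0097e0400bc016003800400010000012c81800f0008002400202720008157d03))) 
(.lf (nat_lit 3490644454) (dlOf (nat_lit 1) (nat_lit 0x8008000400200020008017303)))))) 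
(.nd (nat_lit 11) (.nd (nat_lit 9) (.nd (nat_lit 18) 
(.lf (nat_lit 4697818406) (dlOf (nat_lit 1) (nat_lit 0x400400020008093182))) 
(.lf (nat_lit 5772346662) (dlOf (nat_lit 1) (nat_lit 0x400200020008093182)))) 
(.lf (nat_lit 3492742950) (dlOf (nat_lit 1) (nat_lit 0x1800280f3d01)))) (.nd (nat_lit 18) 
(.lf (nat_lit 3490385190) (dlOf (nat_lit 1) (nat_lit 0xfc0008006801))) 
(.lf (nat_lit 3490123046) (dlOf (nat_lit 2) (nat_lit 0x1822c0004804000400200020008006802))))))) 
(.nd (nat_lit 29) (.nd (nat_lit 27) (.nd (nat_lit 7) (.nd (nat_lit 8) (.nd (nat_lit 18) 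
(.lf (nat_lit 5704450086) (dlOf (nat_lit 1) (nat_lit 0xc004000c0008080202))) 
(.lf (nat_lit 3557228582) (dlOf (nat_lit 1) (nat_lit 0x20018170281)))) 
(.lf (nat_lit 1409486118) (dlOf (nat_lit 1) (nat_lit 0x60028006801)))) (.nd (nat_lit 6) 
(.nd (nat_lit 9) (.lf (nat_lit 1409745062) (dlOf (nat_lit 1) (nat_lit 0x60018090281))) 
(.lf (nat_lit 3556972198) (dlOf (nat_lit 1) (nat_lit 0x6002812a001)))) 
(.lf (nat_lit 3556972774) (dlOf (nat_lit 2) (nat_lit 0x18114014b60400b00040044001812a882))))) 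
(.nd (nat_lit 6) (.nd (nat_lit 7) (.nd (nat_lit 8) 
(.lf (nat_lit 470482982) (dlOf (nat_lit 1) (nat_lit 0xc00200060008100b02))) 
(.lf (nat_lit 469958950) (dlOf (nat_lit 1) (nat_lit 0x58008002000200160008014603)))) 
(.lf (nat_lit 1543703718) (dlOf (nat_lit 3) (nat_lit 0x1c02e000160100080170000ac080090008001c002000e0008146283)))) 
(.nd (nat_lit 7) (.nd (nat_lit 18) 
(.lf (nat_lit 472580198) (dlOf (nat_lit 4) (nat_lit 0x46429a02180d900f406c00b781f407c80f8020002b0000706011903e8000300807b8534025428401a00d9014103e80e281f001e80e4019402b00d50150000004008c800803b0002171c00089c0983))) 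
(.lf (nat_lit 473890918) (dlOf (nat_lit 4) (nat_lit 0x7214d004806c801403600001c0c00c429a007e0d90000602002f0a6801e0364000000800f800400120008fc0982)))) 
(.lf (nat_lit 469959142) (dlOf (nat_lit 2) (nat_lit 0x18744015039e00341cd00090e58012c82002d0008004800200060008017d03)))))) 
(.nd (nat_lit 7) (.nd (nat_lit 18) (.nd (nat_lit 6) (.nd (nat_lit 19) 
(.lf (nat_lit 1946353702) (dlOf (nat_lit 1) (nat_lit 0x8008000400200020008030a03))) 
(.lf (nat_lit 4228579366) (dlOf (nat_lit 4) (nat_lit 0x8130014c0800003f04003803e0001b010044025802980fc0006808000400400880018100502)))) 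
(.nd (nat_lit 9) (.lf (nat_lit 1006829670) (dlOf (nat_lit 1) (nat_lit 0x4004000200080c0002))) 
(.lf (nat_lit 6375540326) (dlOf (nat_lit 1) (nat_lit 0x20028003901))))) (.nd (nat_lit 8) 
(.nd (nat_lit 19) 
(.lf (nat_lit 4228317222) (dlOf (nat_lit 1) (nat_lit 0x350008000800200600008090003))) 
(.lf (nat_lit 6376325158) (dlOf (nat_lit 1) (nat_lit 0x58008004c002002c0008090003)))) 
(.lf (nat_lit 4094626598) (dlOf (nat_lit 1) (nat_lit 0x400200020008055c02))))) (.nd (nat_lit 6) 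
(.nd (nat_lit 8) (.lf (nat_lit 4096458918) (dlOf (nat_lit 1) (nat_lit 0x7c00200260008111382))) 
(.nd (nat_lit 19) 
(.lf (nat_lit 5301797286) (dlOf (nat_lit 1) (nat_lit 0x30008000400200140008091003))) 
(.lf (nat_lit 6378160550) (dlOf (nat_lit 1) (nat_lit 0x8008000400200020008116e83))))) 
(.nd (nat_lit 10) (.lf (nat_lit 4096458982) (dlOf (nat_lit 2) (nat_lit 0x20a00000071818111b80))) 
(.nd (nat_lit 27) 
(.lf (nat_lit 872613094) (dlOf (nat_lit 2) (nat_lit 0x1405a000000200140028092e01))) 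
(.lf (nat_lit 2080572646) (dlOf (nat_lit 1) (nat_lit 0x400400020008092e02)))))))))))) 
(.nd (nat_lit 16) (.nd (nat_lit 17) (.nd (nat_lit 18) (.nd (nat_lit 28) (.nd (nat_lit 19) 
(.nd (nat_lit 9) (.nd (nat_lit 10) (.nd (nat_lit 22) (.nd (nat_lit 6) (.nd (nat_lit 7) 
(.lf (nat_lit 16810022) (dlOf (nat_lit 1) (nat_lit 0x4002000200088e0002))) 
(.lf (nat_lit 8421798) (dlOf (nat_lit 1) (nat_lit 0x128008000400200020008511003)))) 
(.lf (nat_lit 2348845286) (dlOf (nat_lit 1) (nat_lit 0x20008000c00200040008004b03)))) 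
(.nd (nat_lit 8) (.nd (nat_lit 20) 
(.lf (nat_lit 14712870) (dlOf (nat_lit 1) (nat_lit 0x1000400040018770282))) 
(.lf (nat_lit 22052902) (dlOf (nat_lit 2) (nat_lit 0x62b0000315700008ab0000107e000481500005414000400400020008a90582)))) 
(.lf (nat_lit 2755690790) (dlOf (nat_lit 2) (nat_lit 0x1c19e0006102000200181b0501))))) 
(.nd (nat_lit 7) (.nd (nat_lit 6) (.nd (nat_lit 11) 
(.lf (nat_lit 738231590) (dlOf (nat_lit 1) (nat_lit 0x400400020008003182))) 
(.lf (nat_lit 4295003430) (dlOf (nat_lit 1) (nat_lit 0x400200020008006802)))) 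
(.lf (nat_lit 604019814) (dlOf (nat_lit 5) (nat_lit 0x230088000a00800e8058008c02a003c011000b001001680000004a14006002c004c0150015008800b8040000400e00240030014001001000000004620006002c00018020068001800c081)))) 
(.nd (nat_lit 20) (.lf (nat_lit 5972724902) (dlOf (nat_lit 1) (nat_lit 0x2800200020008006282))) 
(.lf (nat_lit 2754645158) (dlOf (nat_lit 1) (nat_lit 0x20004001200080f6282)))))) (.nd (nat_lit 8) 
(.nd (nat_lit 6) (.nd (nat_lit 7) (.nd (nat_lit 10) 
(.lf (nat_lit 54561318) (dlOf (nat_lit 1) (nat_lit 0xe0029655181))) 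
(.lf (nat_lit 2147517990) (dlOf (nat_lit 7) (nat_lit 0x40050001e810006002800400000001e08001000a000600000006020003002800180000000e080028000000030200080050005000000000100010008003c002000e0008003703)))) 
(.lf (nat_lit 62950054) (dlOf (nat_lit 1) (nat_lit 0x4002000200099a5602)))) (.nd (nat_lit 10) 
(.lf (nat_lit 5368744550) (dlOf (nat_lit 2) (nat_lit 0x6500900000008031000800b4002003c0008005383))) 
(.lf (nat_lit 61900390) (dlOf (nat_lit 7) (nat_lit 0x567480013c0801b38540008204020d9da00fecec0001982004d71a804db3b402799d800b8ce000019040094676804033b000062080009da80002ce100000029923900))))) 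
(.nd (nat_lit 26) (.nd (nat_lit 6) 
(.lf (nat_lit 2818607910) (dlOf (nat_lit 3) (nat_lit 0x1401c001800600090000008981800700180041c04007c00200080008005c02))) 
(.lf (nat_lit 19958630) (dlOf (nat_lit 1) (nat_lit 0x4002000200089d5c02)))) (.nd (nat_lit 7) 
(.lf (nat_lit 2348844838) (dlOf (nat_lit 1) (nat_lit 0x28008000800200100008003d03))) 
(.lf (nat_lit 1275104166) (dlOf (nat_lit 1) (nat_lit 0x28008000c00200080008005d03))))))) 
(.nd (nat_lit 21) (.nd (nat_lit 6) (.nd (nat_lit 29) (.nd (nat_lit 23) (.nd (nat_lit 9) 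
(.lf (nat_lit 4362633254) (dlOf (nat_lit 1) (nat_lit 0xc00080b0a01))) 
(.lf (nat_lit 50889254) (dlOf (nat_lit 1) (nat_lit 0x4004000200094d8802)))) (.nd (nat_lit 7) 
(.lf (nat_lit 9994278) (dlOf (nat_lit 1) (nat_lit 0x200285a0c01))) 
(.lf (nat_lit 59278502) (dlOf (nat_lit 2) (nat_lit 0x409ca0002402000e00297e2c01))))) 
(.nd (nat_lit 7) (.nd (nat_lit 26) 
(.lf (nat_lit 2819129382) (dlOf (nat_lit 11) (nat_lit 0x1b035000981a400b00b0001401d000f0010002dc2801601a800a40d2000b604006206a002b0348002cc1001f81a800e80d2000b104007806a00390348000341002201a800b80d20000a04000e06a00260348000241001981a800b80d20000804004006a00020348000041001701a800740d20000004005a00081a0601))) 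
(.lf (nat_lit 2886238246) (dlOf (nat_lit 9) (nat_lit 0x101180016808007004c0008e0400100260004602006c013000228100400098001100800180680038026000410400600130001f81000e0098000d40800200080080002005c00081a0583)))) 
(.lf (nat_lit 537428134) (dlOf (nat_lit 1) (nat_lit 0xfc00400a40018090282))))) (.nd (nat_lit 22) 
(.nd (nat_lit 7) (.lf (nat_lit 1074299238) (dlOf (nat_lit 1) (nat_lit 0x54002000c00081b0702))) 
(.lf (nat_lit 537428454) (dlOf (nat_lit 1) (nat_lit 0x20008000400200040008090c83)))) 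
(.nd (nat_lit 8) (.lf (nat_lit 4751462) (dlOf (nat_lit 2) (nat_lit 0x2627000a60182b0d00))) 
(.lf (nat_lit 14188902) (dlOf (nat_lit 1) (nat_lit 0x20002000a0008750982)))))) (.nd (nat_lit 20) 
(.nd (nat_lit 22) (.nd (nat_lit 23) 
(.lf (nat_lit 2754117670) (dlOf (nat_lit 2) (nat_lit 0x1c0fb80001c0800c0008005c002003a00080c0b83))) 
(.lf (nat_lit 11042854) (dlOf (nat_lit 2) (nat_lit 0x40000003102000c0008660601)))) 
(.lf (nat_lit 15237158) (dlOf (nat_lit 2) (nat_lit 0x2b0c58002dc0801b800800cc002007e00087c0603)))) 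
(.nd (nat_lit 7) (.nd (nat_lit 22) 
(.lf (nat_lit 2755166246) (dlOf (nat_lit 8) (nat_lit 0x407e0001902000403f0000b81000d0798017019c00380cc001a062000102f8006816800c4082000202d00e00110069006c003400c001a000000058c00300338019810403cc04401cc01b0000504000e0000000240800c819c0044082018802200aa00d80001c200028118003c082017802200b600d8000002007a00084fe000200960008120a03))) 
(.lf (nat_lit 24674342) (dlOf (nat_lit 1) (nat_lit 0x20028bb0901)))) 
(.lf (nat_lit 37259686) (dlOf (nat_lit 1) (nat_lit 0x8002000200090d4e82))))))) (.nd (nat_lit 31) 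
(.nd (nat_lit 6) (.nd (nat_lit 10) (.nd (nat_lit 7) (.nd (nat_lit 19) 
(.lf (nat_lit 1343258662) (dlOf (nat_lit 1) (nat_lit 0x80080004002000200081d0703))) 
(.lf (nat_lit 1342734374) (dlOf (nat_lit 2) (nat_lit 0x2f0b8806f100800d00080054002003600080c0003)))) 
(.nd (nat_lit 8) (.lf (nat_lit 1879085734) (dlOf (nat_lit 1) (nat_lit 0x20018008c81))) 
(.lf (nat_lit 4697656230) (dlOf (nat_lit 1) (nat_lit 0x3c0018005d01))))) (.nd (nat_lit 32) 
(.nd (nat_lit 7) 
(.lf (nat_lit 335578662) (dlOf (nat_lit 3) (nat_lit 0x380260020012002c00880003818003004c00040240000004008a0028003701))) 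
(.lf (nat_lit 1342215846) (dlOf (nat_lit 1) (nat_lit 0x980080004002001c000800a003)))) 
(.nd (nat_lit 8) 
(.lf (nat_lit 4563437094) (dlOf (nat_lit 3) (nat_lit 0x380000003004001c0000000002002e0028003701))) 
(.lf (nat_lit 4563436838) (dlOf (nat_lit 1) (nat_lit 0x420018003181)))))) (.nd (nat_lit 27) 
(.nd (nat_lit 8) (.nd (nat_lit 11) 
(.lf (nat_lit 1342734566) (dlOf (nat_lit 2) (nat_lit 0x581f30003f0180c0480))) 
(.lf (nat_lit 1342216422) (dlOf (nat_lit 2) (nat_lit 0x4c0fc00a3c020010001800a881)))) 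
(.nd (nat_lit 7) (.lf (nat_lit 1946714470) (dlOf (nat_lit 1) (nat_lit 0x54002000c00081b0702))) 
(.lf (nat_lit 5167418342) (dlOf (nat_lit 1) (nat_lit 0x20028055e81))))) (.nd (nat_lit 7) 
(.nd (nat_lit 9) (.lf (nat_lit 1476432998) (dlOf (nat_lit 1) (nat_lit 0xd20008009401))) 
(.lf (nat_lit 6375900774) (dlOf (nat_lit 1) (nat_lit 0x180018003901)))) (.nd (nat_lit 8) 
(.lf (nat_lit 470319334) (dlOf (nat_lit 2) (nat_lit 0x1707c8000fc040078002004c00080c0482))) 
(.lf (nat_lit 473465830) (dlOf (nat_lit 1) (nat_lit 0x260028f52881))))))) (.nd (nat_lit 10) 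
(.nd (nat_lit 26) (.nd (nat_lit 21) (.nd (nat_lit 19) 
(.lf (nat_lit 3493888038) (dlOf (nat_lit 2) (nat_lit 0x1a15f001ff8181b0000))) 
(.lf (nat_lit 3624435750) (dlOf (nat_lit 9) (nat_lit 0x10118001680800700500008e0400100280004602006c0140002281004000a00011008001806c0038028000410400600140001f81000e00a0000d40800200080080002005c00081a0583)))) 
(.nd (nat_lit 20) 
(.lf (nat_lit 3492315174) (dlOf (nat_lit 2) (nat_lit 0x1c0f28000740800c0008005c002003a00080c0b83))) 
(.lf (nat_lit 3493363750) (dlOf (nat_lit 8) (nat_lit 0x407e0001902000403f0000b81000d0798017019c00380cc001a062000102f8006816800c4082000202d00e00110069006c003400c001a000000058c00300338019810403cc04401cc01b0000504000e0000000240800c819c0044082018802200aa00d80001c200028118003c082017802200b600d8000002007a00084fe000200960008120a03))))) 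
(.nd (nat_lit 7) (.nd (nat_lit 27) 
(.lf (nat_lit 3557326886) (dlOf (nat_lit 2) (nat_lit 0x10007e000e702006400081c0601))) 
(.lf (nat_lit 4228415526) (dlOf (nat_lit 1) (nat_lit 0xc00080b0a01)))) (.nd (nat_lit 9) 
(.lf (nat_lit 4227893670) (dlOf (nat_lit 1) (nat_lit 0x8004004c0018004e82))) 
(.lf (nat_lit 4094725030) (dlOf (nat_lit 1) (nat_lit 0x20028055d01)))))) (.nd (nat_lit 7) 
(.nd (nat_lit 9) (.nd (nat_lit 11) 
(.lf (nat_lit 3691025510) (dlOf (nat_lit 2) (nat_lit 0x602d00016818009400))) 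
(.lf (nat_lit 2952830054) (dlOf (nat_lit 5) (nat_lit 0x674058023402b01ab015009280a4018003400ae013000100280ee0008062c0000002812000800000013810021016001c80ac0058054007a029000200b8001004c017c00a004000200970000000984800400b00050052002a0130047002800280000004a1400d80040036001800c082)))) 
(.nd (nat_lit 27) 
(.lf (nat_lit 3556804198) (dlOf (nat_lit 2) (nat_lit 0x1019000500a40000008004000400440008003902))) 
(.lf (nat_lit 3154151014) (dlOf (nat_lit 2) (nat_lit 0x70000000000200100028003901))))) 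
(.nd (nat_lit 6) (.nd (nat_lit 8) 
(.lf (nat_lit 2483063974) (dlOf (nat_lit 6) (nat_lit 0x80140001440800180a0000a004001805000046020008028000220100130140000e00800b80080068002000e0008006283))) 
(.lf (nat_lit 3489701286) (dlOf (nat_lit 1) (nat_lit 0x40020004000800cb82)))) 
(.lf (nat_lit 3492845542) (dlOf (nat_lit 1) (nat_lit 0x800080fa601)))))))) (.nd (nat_lit 6) 
(.nd (nat_lit 30) (.nd (nat_lit 21) (.nd (nat_lit 23) (.nd (nat_lit 27) (.nd (nat_lit 8) 
(.nd (nat_lit 29) 
(.lf (nat_lit 2483322918) (dlOf (nat_lit 2) (nat_lit 0x140150056fc0800680080014002001800080a0903))) 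
(.lf (nat_lit 3020193830) (dlOf (nat_lit 2) (nat_lit 0x7002400015018150280)))) 
(.lf (nat_lit 4899244838) (dlOf (nat_lit 1) (nat_lit 0x4002000200080d5c02)))) (.nd (nat_lit 7) 
(.nd (nat_lit 28) 
(.lf (nat_lit 2349105190) (dlOf (nat_lit 2) (nat_lit 0x14015005d340800680080014002001800080a0903))) 
(.lf (nat_lit 470056998) (dlOf (nat_lit 1) (nat_lit 0x20008040581)))) (.nd (nat_lit 8) 
(.lf (nat_lit 5033459878) (dlOf (nat_lit 1) (nat_lit 0x8004000200080c1382))) 
(.lf (nat_lit 4496591782) (dlOf (nat_lit 1) (nat_lit 0x800280e5d01)))))) (.nd (nat_lit 19) 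
(.nd (nat_lit 7) (.nd (nat_lit 22) 
(.lf (nat_lit 9732134) (dlOf (nat_lit 1) (nat_lit 0x160028580201))) 
(.lf (nat_lit 30703654) (dlOf (nat_lit 1) (nat_lit 0x8c004005a0008e40d82)))) 
(.lf (nat_lit 42239142) (dlOf (nat_lit 1) (nat_lit 0x400200020009242c02)))) (.nd (nat_lit 9) 
(.nd (nat_lit 20) (.lf (nat_lit 42762278) (dlOf (nat_lit 1) (nat_lit 0xc0029280201))) 
(.lf (nat_lit 10256422) (dlOf (nat_lit 1) (nat_lit 0x18008001c002000c00085c0a03)))) 
(.lf (nat_lit 46959142) (dlOf (nat_lit 1) (nat_lit 0x1000400020009385182)))))) (.nd (nat_lit 8) 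
(.nd (nat_lit 19) (.nd (nat_lit 7) (.nd (nat_lit 24) 
(.lf (nat_lit 44335142) (dlOf (nat_lit 2) (nat_lit 0x696a400040040018002001a00092f0982))) 
(.lf (nat_lit 27557926) (dlOf (nat_lit 2) (nat_lit 0xa93c0182604000400200040008d00682)))) 
(.lf (nat_lit 69502118) (dlOf (nat_lit 1) (nat_lit 0x20008001000200060008a82c03)))) 
(.nd (nat_lit 9) (.lf (nat_lit 2754379814) (dlOf (nat_lit 1) (nat_lit 0x200280e0501))) 
(.lf (nat_lit 41716262) (dlOf (nat_lit 1) (nat_lit 0x130008000400200020009245183))))) 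
(.nd (nat_lit 7) (.nd (nat_lit 10) 
(.lf (nat_lit 20220710) (dlOf (nat_lit 1) (nat_lit 0x400080004002000200089d5c03))) 
(.lf (nat_lit 20748070) (dlOf (nat_lit 1) (nat_lit 0xc00289da081)))) (.nd (nat_lit 10) 
(.lf (nat_lit 36473254) (dlOf (nat_lit 1) (nat_lit 0x20019074e81))) 
(.lf (nat_lit 8160678) (dlOf (nat_lit 1) (nat_lit 0x400200020008513602))))))) (.nd (nat_lit 27) 
(.nd (nat_lit 19) (.nd (nat_lit 8) (.nd (nat_lit 7) 
(.lf (nat_lit 1342472230) (dlOf (nat_lit 1) (nat_lit 0x20008040581))) 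
(.lf (nat_lit 5369004198) (dlOf (nat_lit 1) (nat_lit 0x180080004002000200080c1383)))) 
(.nd (nat_lit 10) (.lf (nat_lit 5905875238) (dlOf (nat_lit 1) (nat_lit 0x20018154601))) 
(.lf (nat_lit 3489959206) (dlOf (nat_lit 2) (nat_lit 0x2022c0004804000400200020008006802))))) 
(.nd (nat_lit 7) (.nd (nat_lit 20) 
(.lf (nat_lit 3492577318) (dlOf (nat_lit 1) (nat_lit 0x200280e0501))) 
(.lf (nat_lit 1346142246) (dlOf (nat_lit 1) (nat_lit 0xc0004002a0008e60202)))) 
(.lf (nat_lit 1345094822) (dlOf (nat_lit 1) (nat_lit 0x3800089e2c01))))) (.nd (nat_lit 7) 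
(.nd (nat_lit 8) (.nd (nat_lit 26) 
(.lf (nat_lit 6040092710) (dlOf (nat_lit 1) (nat_lit 0x80080004002000200080d0903))) 
(.lf (nat_lit 3691282470) (dlOf (nat_lit 1) (nat_lit 0x400200020008110702)))) (.nd (nat_lit 9) 
(.lf (nat_lit 5772182822) (dlOf (nat_lit 1) (nat_lit 0x400400020008093182))) 
(.lf (nat_lit 6308530982) (dlOf (nat_lit 1) (nat_lit 0x200080d5c01))))) (.nd (nat_lit 10) 
(.lf (nat_lit 5503221926) (dlOf (nat_lit 1) (nat_lit 0x580080010002001c00080c1483))) 
(.lf (nat_lit 3624176806) (dlOf (nat_lit 2) (nat_lit 0x80a8001c03a0002c0400040028146281))))))) 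
(.nd (nat_lit 31) (.nd (nat_lit 7) (.nd (nat_lit 10) (.nd (nat_lit 19) 
(.lf (nat_lit 3440742) (dlOf (nat_lit 1) (nat_lit 0x40028200001))) (.nd (nat_lit 20) 
(.lf (nat_lit 42762342) (dlOf (nat_lit 1) (nat_lit 0xe0019280981))) 
(.lf (nat_lit 1346142310) (dlOf (nat_lit 4) (nat_lit 0xba0a6805d036402a41b00000e0601700d9000060100020a6804083640000008014000400580008e60982))))) 
(.nd (nat_lit 9) (.lf (nat_lit 67935334) (dlOf (nat_lit 1) (nat_lit 0x40004001c000833c082))) 
(.lf (nat_lit 8164966) (dlOf (nat_lit 1) (nat_lit 0x20018519c01))))) (.nd (nat_lit 8) 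
(.nd (nat_lit 10) (.nd (nat_lit 27) 
(.lf (nat_lit 5369004262) (dlOf (nat_lit 2) (nat_lit 0x6004e005a01a000718280c1b80))) 
(.lf (nat_lit 4697915622) (dlOf (nat_lit 6) (nat_lit 0x2c02c000e302002a0120003d8100090090001e8080080048000f20400440240007802003000280c1b81)))) 
(.lf (nat_lit 537693414) (dlOf (nat_lit 5) (nat_lit 0xc07600020330000d81000981d800240ea003606600100000000d42000401c40005c0400380e20002a02007a00180f6501)))) 
(.nd (nat_lit 20) 
(.lf (nat_lit 5905875430) (dlOf (nat_lit 3) (nat_lit 0x1004a0051102000802500259018157d00))) 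
(.lf (nat_lit 11829734) (dlOf (nat_lit 1) (nat_lit 0x80080004002000200086c0c83)))))) 
(.nd (nat_lit 27) (.nd (nat_lit 29) (.nd (nat_lit 7) (.nd (nat_lit 10) 
(.lf (nat_lit 6442745958) (dlOf (nat_lit 1) (nat_lit 0x80080004002000200081b0003))) 
(.lf (nat_lit 3557069926) (dlOf (nat_lit 2) (nat_lit 0x9000000088080008008007c00200440008129403)))) 
(.lf (nat_lit 6509855206) (dlOf (nat_lit 2) (nat_lit 0x404c0005c0200080008157301)))) 
(.nd (nat_lit 7) (.nd (nat_lit 21) 
(.lf (nat_lit 3020193894) (dlOf (nat_lit 6) (nat_lit 0x802b0003e8100080158001f00800400ac000ea0400200560007402001002b00039818150d00))) 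
(.lf (nat_lit 2753855590) (dlOf (nat_lit 1) (nat_lit 0x800180a1301)))) 
(.lf (nat_lit 2753331686) (dlOf (nat_lit 1) (nat_lit 0x21800801e800200e80008090c83))))) 
(.nd (nat_lit 8) (.nd (nat_lit 10) (.nd (nat_lit 26) 
(.lf (nat_lit 2550431846) (dlOf (nat_lit 1) (nat_lit 0x200080004002000200080a1383))) 
(.lf (nat_lit 2349105254) (dlOf (nat_lit 4) (nat_lit 0x440540002702001a02a0001301000e0150000940801f00080008002001000080a1303)))) 
(.lf (nat_lit 2818874470) (dlOf (nat_lit 2) (nat_lit 0x303080058020003000400028060002002812c081)))) 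
(.nd (nat_lit 7) 
(.lf (nat_lit 3892609382) (dlOf (nat_lit 1) (nat_lit 0x28008000c00200080008160983))) 
(.lf (nat_lit 3959718374) (dlOf (nat_lit 4) (nat_lit 0x40228027700800201140138c04007007c004980200060008127d01))))))))) 
(.nd (nat_lit 26) (.nd (nat_lit 19) (.nd (nat_lit 30) (.nd (nat_lit 7) (.nd (nat_lit 24) 
(.nd (nat_lit 27) (.nd (nat_lit 21) (.nd (nat_lit 28) 
(.lf (nat_lit 2684518438) (dlOf (nat_lit 1) (nat_lit 0x20018080601))) 
(.lf (nat_lit 6711050278) (dlOf (nat_lit 1) (nat_lit 0x20018050a81)))) 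
(.lf (nat_lit 14843942) (dlOf (nat_lit 2) (nat_lit 0x58d14000400200020028780781)))) 
(.nd (nat_lit 9) (.lf (nat_lit 4966219814) (dlOf (nat_lit 1) (nat_lit 0x28002000e0008060c02))) 
(.lf (nat_lit 134644262) (dlOf (nat_lit 1) (nat_lit 0x40008090e01))))) (.nd (nat_lit 6) 
(.nd (nat_lit 18) (.lf (nat_lit 29524006) (dlOf (nat_lit 1) (nat_lit 0x2c00400420008e10782))) 
(.lf (nat_lit 18251814) (dlOf (nat_lit 2) (nat_lit 0xdd9680001a04003400400020008920782)))) 
(.lf (nat_lit 52592742) (dlOf (nat_lit 1) (nat_lit 0x1000400080009550982))))) (.nd (nat_lit 10) 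
(.nd (nat_lit 6) (.nd (nat_lit 8) 
(.lf (nat_lit 20091558) (dlOf (nat_lit 1) (nat_lit 0x4002000200089d8c82))) (.nd (nat_lit 23) 
(.lf (nat_lit 402817446) (dlOf (nat_lit 1) (nat_lit 0x20018091001))) 
(.lf (nat_lit 8552870) (dlOf (nat_lit 1) (nat_lit 0xa8008000400200020008511003))))) 
(.nd (nat_lit 8) (.lf (nat_lit 14057702) (dlOf (nat_lit 1) (nat_lit 0x60008750681))) 
(.lf (nat_lit 21397990) (dlOf (nat_lit 4) (nat_lit 0x6546a0006702000ea350003301002060d80162ad8000800803a8004002a0008a37302))))) 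
(.nd (nat_lit 9) (.nd (nat_lit 20) (.nd (nat_lit 22) 
(.lf (nat_lit 35816614) (dlOf (nat_lit 1) (nat_lit 0x80008000c00200140009012c03))) 
(.lf (nat_lit 48399526) (dlOf (nat_lit 1) (nat_lit 0x20029402c01)))) 
(.lf (nat_lit 36865190) (dlOf (nat_lit 1) (nat_lit 0x190008001400200040009072c03)))) 
(.nd (nat_lit 6) (.lf (nat_lit 169894) (dlOf (nat_lit 1) (nat_lit 0x2001800a301))) 
(.lf (nat_lit 165606) (dlOf (nat_lit 1) (nat_lit 0x2c0018003a81))))))) (.nd (nat_lit 28) 
(.nd (nat_lit 27) (.nd (nat_lit 18) (.nd (nat_lit 6) 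
(.lf (nat_lit 5368872998) (dlOf (nat_lit 1) (nat_lit 0xe0018060c01))) 
(.lf (nat_lit 5905746022) (dlOf (nat_lit 1) (nat_lit 0x560018144701)))) (.nd (nat_lit 31) 
(.lf (nat_lit 5906006054) (dlOf (nat_lit 3) (nat_lit 0x40094000b404003c04a000401e000400b8000a8180028008000c002000c0008180583))) 
(.lf (nat_lit 3758522406) (dlOf (nat_lit 1) (nat_lit 0x800008260601))))) (.nd (nat_lit 9) 
(.nd (nat_lit 29) (.lf (nat_lit 5503090726) (dlOf (nat_lit 1) (nat_lit 0xe0018060c01))) 
(.lf (nat_lit 6039961638) (dlOf (nat_lit 1) (nat_lit 0x3800200140008070602)))) 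
(.lf (nat_lit 1744996902) (dlOf (nat_lit 1) (nat_lit 0x20028095181))))) (.nd (nat_lit 8) 
(.nd (nat_lit 20) (.nd (nat_lit 22) 
(.lf (nat_lit 4026695718) (dlOf (nat_lit 2) (nat_lit 0x6010000090080090008008c002002e0008030a03))) 
(.lf (nat_lit 1346535462) (dlOf (nat_lit 1) (nat_lit 0x180018fa0201)))) (.nd (nat_lit 6) 
(.lf (nat_lit 3490873382) (dlOf (nat_lit 3) (nat_lit 0x107b400401160001d04000e1ed00010458000701000880080010002000a0008030a03))) 
(.lf (nat_lit 1880261734) (dlOf (nat_lit 2) (nat_lit 0x240f60005a02000e0008802981))))) 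
(.nd (nat_lit 6) (.nd (nat_lit 7) 
(.lf (nat_lit 5772576038) (dlOf (nat_lit 1) (nat_lit 0x400200020008093182))) 
(.lf (nat_lit 5637309862) (dlOf (nat_lit 1) (nat_lit 0x5a00280d3601)))) 
(.lf (nat_lit 3624305126) (dlOf (nat_lit 2) (nat_lit 0x170000000b4080020008001400200040008157303))))))) 
(.nd (nat_lit 18) (.nd (nat_lit 20) (.nd (nat_lit 29) (.nd (nat_lit 6) (.nd (nat_lit 28) 
(.lf (nat_lit 3221913638) (dlOf (nat_lit 11) (nat_lit 0x7c035003e00f0001d4100fc815806e806403d80110003903012c02b0001c4080b9015802b80aa03340320196018805300bc063805602c0029019400880c38040062c0140080008000378b0017019000c00c4005c056002e011001700800040028005c00c000220e01dc05600e7029007200d8039c06200c402b00be00f0072004403a802001be00a00e10030000845007a015800a80a401d203100370158076804403b002001ac00a000900400008040075015803f80a401f603600f7018807380ac034003c01ca01100e200800710028001801001f00060000e0b011702b00930148048006c0254031011f01580850078042c0220200010011900500960018000362804200a20028049010101a806580d0040c03e01a001e00f30030000003801a0008000c002002600081b0503)))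 
(.lf (nat_lit 1342865446) (dlOf (nat_lit 1) (nat_lit 0xe00080f0901)))) (.nd (nat_lit 22) 
(.lf (nat_lit 42631270) (dlOf (nat_lit 1) (nat_lit 0x3800200040009260982))) 
(.lf (nat_lit 4882534) (dlOf (nat_lit 2) (nat_lit 0x2bbc000a60182d0d00))))) (.nd (nat_lit 27) 
(.lf (nat_lit 805994534) (dlOf (nat_lit 2) (nat_lit 0x60560001f818210500))) (.nd (nat_lit 30) 
(.lf (nat_lit 2819260454) (dlOf (nat_lit 1) (nat_lit 0x8008000400200020008210603))) 
(.lf (nat_lit 3893002278) (dlOf (nat_lit 5) (nat_lit 0x17402c00bd0158061801c0004c0c00500580002502005202c000120100200160000340815100080118002002400082c0783)))))) 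
(.nd (nat_lit 9) (.nd (nat_lit 6) 
(.lf (nat_lit 60457126) (dlOf (nat_lit 1) (nat_lit 0x3000400640009871482))) 
(.lf (nat_lit 45776998) (dlOf (nat_lit 1) (nat_lit 0xa0019360981)))) (.nd (nat_lit 8) 
(.lf (nat_lit 8029734) (dlOf (nat_lit 1) (nat_lit 0x60028513701))) 
(.lf (nat_lit 20613926) (dlOf (nat_lit 1) (nat_lit 0x4002000200089d5c02)))))) (.nd (nat_lit 21) 
(.nd (nat_lit 23) (.nd (nat_lit 6) (.nd (nat_lit 22) 
(.lf (nat_lit 950310) (dlOf (nat_lit 1) (nat_lit 0x400400020008040582))) 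
(.lf (nat_lit 21921830) (dlOf (nat_lit 1) (nat_lit 0x5e0008a80a01)))) 
(.lf (nat_lit 1344176486) (dlOf (nat_lit 1) (nat_lit 0x40028490701)))) (.nd (nat_lit 25) 
(.lf (nat_lit 9338918) (dlOf (nat_lit 1) (nat_lit 0x400200020008540902))) 
(.lf (nat_lit 42893350) (dlOf (nat_lit 1) (nat_lit 0xe0029290781))))) (.nd (nat_lit 7) 
(.nd (nat_lit 6) (.nd (nat_lit 20) 
(.lf (nat_lit 28213286) (dlOf (nat_lit 1) (nat_lit 0x20028d70781))) 
(.lf (nat_lit 29261862) (dlOf (nat_lit 2) (nat_lit 0xb2bbc0000004000c00200020008de0782)))) 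
(.lf (nat_lit 19827558) (dlOf (nat_lit 1) (nat_lit 0x4002000200089d5c02)))) (.nd (nat_lit 8) 
(.lf (nat_lit 19825318) (dlOf (nat_lit 1) (nat_lit 0x600289d1d01))) 
(.lf (nat_lit 8291750) (dlOf (nat_lit 1) (nat_lit 0x400200020008513602)))))))) (.nd (nat_lit 27) 
(.nd (nat_lit 29) (.nd (nat_lit 6) (.nd (nat_lit 32) (.nd (nat_lit 28) 
(.lf (nat_lit 3288498214) (dlOf (nat_lit 2) (nat_lit 0x6010000090080090008008c002002e0008030a03))) 
(.lf (nat_lit 2483191846) (dlOf (nat_lit 2) (nat_lit 0x24048001201c000900a800300080004e10002000200040008070782)))) 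
(.nd (nat_lit 7) 
(.lf (nat_lit 6509985830) (dlOf (nat_lit 3) (nat_lit 0x40098000b404003c04c000401e000400b8000a8180028008000c002000c0008180583))) 
(.lf (nat_lit 4362240422) (dlOf (nat_lit 2) (nat_lit 0x28019800fc80800980080014002000c0008016e83))))) 
(.nd (nat_lit 7) (.nd (nat_lit 9) 
(.lf (nat_lit 4362502246) (dlOf (nat_lit 1) (nat_lit 0x20028090001))) 
(.lf (nat_lit 6509727334) (dlOf (nat_lit 1) (nat_lit 0x20028147181)))) (.nd (nat_lit 10) 
(.lf (nat_lit 4362240486) (dlOf (nat_lit 2) (nat_lit 0x2a000000000040078002008a0008017d02))) 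
(.lf (nat_lit 6509727206) (dlOf (nat_lit 1) (nat_lit 0x400400020008146e82)))))) (.nd (nat_lit 7) 
(.nd (nat_lit 6) (.nd (nat_lit 19) 
(.lf (nat_lit 2752675878) (dlOf (nat_lit 3) (nat_lit 0x107fc00401100001d04000e1ff00010440000701000880080010002000a0008030a03))) 
(.lf (nat_lit 1678409766) (dlOf (nat_lit 2) (nat_lit 0x60560001f818210500)))) (.nd (nat_lit 8) 
(.lf (nat_lit 6241290854) (dlOf (nat_lit 1) (nat_lit 0xc00280d5381))) 
(.lf (nat_lit 2752414054) (dlOf (nat_lit 2) (nat_lit 0x1c2470052c018015200))))) (.nd (nat_lit 8) 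
(.nd (nat_lit 9) (.lf (nat_lit 2751891686) (dlOf (nat_lit 1) (nat_lit 0x20028004b01))) 
(.lf (nat_lit 2751629030) (dlOf (nat_lit 1) (nat_lit 0xe0018003a81)))) 
(.lf (nat_lit 2752414182) (dlOf (nat_lit 7) (nat_lit 0x1fc24800250010104124000fe40804d8920007da0403f8490003e8020070248001eb810006126000f09240000008002c00400080008017d02)))))) 
(.nd (nat_lit 7) (.nd (nat_lit 18) (.nd (nat_lit 19) (.nd (nat_lit 29) 
(.lf (nat_lit 2348974118) (dlOf (nat_lit 2) (nat_lit 0x24048001201c000900a800300080002610002000200040008070782))) 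
(.lf (nat_lit 5033328678) (dlOf (nat_lit 1) (nat_lit 0x28002000e0008060c02)))) (.nd (nat_lit 21) 
(.nd (nat_lit 28) 
(.lf (nat_lit 3960111142) (dlOf (nat_lit 11) (nat_lit 0x7c035003e00f0001d4100fc815806e806403d80110003903012c02b0001c4080b9015802b80aa03340320196018805300bc063805602c0029019400880c38040062c0140080008000378b0017019000c00c4005c056002e011001700800040028005c00c000220e01dc05600e7029007200d8039c06200c402b00be00f0072004403a802001be00a00e10030000845007a015800a80a401d203100370158076804403b002001ac00a000900400008040075015803f80a401f603600f7018807380ac034003c01ca01100e200800710028001801001f00060000e0b011702b00930148048006c0254031011f01580850078042c0220200010011900500960018000362804200a20028049010101a806580d0040c03e01a001e00f30030000003801a0008000c002002600081b0503))) 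
(.lf (nat_lit 470450214) (dlOf (nat_lit 2) (nat_lit 0x308c40000a040054004000600080f0902)))) 
(.lf (nat_lit 472547366) (dlOf (nat_lit 1) (nat_lit 0x400289b0781))))) (.nd (nat_lit 6) 
(.nd (nat_lit 9) 
(.lf (nat_lit 473858086) (dlOf (nat_lit 3) (nat_lit 0xb828a0002902001016800640a280009c100538008012c00200e60008fc0203))) 
(.lf (nat_lit 201753126) (dlOf (nat_lit 1) (nat_lit 0x40008090e01)))) (.nd (nat_lit 8) 
(.lf (nat_lit 473858150) (dlOf (nat_lit 3) (nat_lit 0x180d9000070100090a68000000800a0008004000200280008fc0983))) 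
(.lf (nat_lit 471761254) (dlOf (nat_lit 1) (nat_lit 0x40028490701)))))) (.nd (nat_lit 29) 
(.nd (nat_lit 8) (.nd (nat_lit 10) 
(.lf (nat_lit 5570199718) (dlOf (nat_lit 1) (nat_lit 0x800400040008081382))) 
(.lf (nat_lit 1543670950) (dlOf (nat_lit 2) (nat_lit 0x20170000b0080070008001c00200020008146283)))) 
(.nd (nat_lit 6) (.lf (nat_lit 469926310) (dlOf (nat_lit 1) (nat_lit 0x60028016e81))) 
(.lf (nat_lit 469926374) (dlOf (nat_lit 2) (nat_lit 0x848e0012243000c11b800b85c40096410008800400160018017d02))))) 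
(.nd (nat_lit 9) (.nd (nat_lit 19) 
(.lf (nat_lit 738623654) (dlOf (nat_lit 1) (nat_lit 0x5e00280c1481))) 
(.lf (nat_lit 6377341094) (dlOf (nat_lit 1) (nat_lit 0x154004007200080c1482)))) (.nd (nat_lit 8) 
(.lf (nat_lit 1007848102) (dlOf (nat_lit 1) (nat_lit 0x94002000c0008805602))) 
(.lf (nat_lit 3959588774) (dlOf (nat_lit 1) (nat_lit 0x20018114301)))))))))) (.nd (nat_lit 17) 
(.nd (nat_lit 18) (.nd (nat_lit 28) (.nd (nat_lit 20) (.nd (nat_lit 31) (.nd (nat_lit 7) 
(.nd (nat_lit 6) (.nd (nat_lit 9) 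
(.lf (nat_lit 16875558) (dlOf (nat_lit 1) (nat_lit 0x4002000200088e0002))) 
(.lf (nat_lit 54626854) (dlOf (nat_lit 1) (nat_lit 0x1000200100009655182)))) (.nd (nat_lit 10) 
(.lf (nat_lit 42565734) (dlOf (nat_lit 2) (nat_lit 0x3898b00000019260980))) 
(.lf (nat_lit 8494182) (dlOf (nat_lit 3) (nat_lit 0xe689000433a800199cc0010cbc000864900042c58002160c0078b0400024cb00041f000020f7c000502c0020ce600024cb0001282851c080))))) 
(.nd (nat_lit 8) 
(.lf (nat_lit 134319270) (dlOf (nat_lit 2) (nat_lit 0x50208000e008003800800a400200180008006283))) 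
(.nd (nat_lit 9) (.lf (nat_lit 8487334) (dlOf (nat_lit 1) (nat_lit 0x78008000800200020008511003))) 
(.lf (nat_lit 1073842086) (dlOf (nat_lit 2) (nat_lit 0x2800000030040050002000a0008004302)))))) 
(.nd (nat_lit 27) (.nd (nat_lit 7) (.nd (nat_lit 19) 
(.lf (nat_lit 3221323814) (dlOf (nat_lit 1) (nat_lit 0x400200020008090002))) 
(.lf (nat_lit 2754183206) (dlOf (nat_lit 1) (nat_lit 0x600280c0b81)))) 
(.lf (nat_lit 6442551462) (dlOf (nat_lit 1) (nat_lit 0x200180f4881)))) (.nd (nat_lit 7) 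
(.nd (nat_lit 8) 
(.lf (nat_lit 3892936742) (dlOf (nat_lit 6) (nat_lit 0x81280008066001ff0400020510008019800180900014044001fd0800040540002028800381280004044000201b000800a0007f0300008088003ce040004048000401d000f30282a0a80))) 
(.lf (nat_lit 3959521574) (dlOf (nat_lit 1) (nat_lit 0x690008000400200020008090503)))) 
(.lf (nat_lit 3355542438) (dlOf (nat_lit 4) (nat_lit 0x4804a001a00f0001a0200060170000c40803700ac0005e040008002000400080a2602)))))) 
(.nd (nat_lit 8) (.nd (nat_lit 12) (.nd (nat_lit 22) 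
(.lf (nat_lit 1146918) (dlOf (nat_lit 1) (nat_lit 0x5800400040008080582))) (.nd (nat_lit 23) 
(.lf (nat_lit 22118438) (dlOf (nat_lit 2) (nat_lit 0x45dd0000a8080078008000400200040008a90583))) 
(.lf (nat_lit 13729830) (dlOf (nat_lit 1) (nat_lit 0x20028740501))))) (.nd (nat_lit 6) 
(.lf (nat_lit 20027046) (dlOf (nat_lit 1) (nat_lit 0x400189da001))) (.nd (nat_lit 7) 
(.lf (nat_lit 20025446) (dlOf (nat_lit 1) (nat_lit 0x4004000200189d7d82))) 
(.lf (nat_lit 7968998) (dlOf (nat_lit 1) (nat_lit 0x13000800140020006000851a883)))))) 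
(.nd (nat_lit 6) (.nd (nat_lit 9) (.nd (nat_lit 12) 
(.lf (nat_lit 3244326) (dlOf (nat_lit 2) (nat_lit 0xa1f40001c80800980080004002000c0008200503))) 
(.lf (nat_lit 7967014) (dlOf (nat_lit 1) (nat_lit 0x120028518081)))) 
(.lf (nat_lit 60394278) (dlOf (nat_lit 1) (nat_lit 0x20009845c01)))) (.nd (nat_lit 7) 
(.lf (nat_lit 51480934) (dlOf (nat_lit 1) (nat_lit 0x60009514e81))) (.nd (nat_lit 9) 
(.lf (nat_lit 49908198) (dlOf (nat_lit 1) (nat_lit 0x2c00194c4e81))) 
(.lf (nat_lit 20549606) (dlOf (nat_lit 2) (nat_lit 0x37e10052d8189d7a80)))))))) (.nd (nat_lit 10) 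
(.nd (nat_lit 29) (.nd (nat_lit 8) (.nd (nat_lit 6) (.nd (nat_lit 9) 
(.lf (nat_lit 3492380710) (dlOf (nat_lit 1) (nat_lit 0x600280c0b81))) 
(.lf (nat_lit 4563503654) (dlOf (nat_lit 1) (nat_lit 0xd80080040002000a0008095183)))) 
(.lf (nat_lit 1342799974) (dlOf (nat_lit 1) (nat_lit 0x80080004002000200080d1383)))) 
(.nd (nat_lit 7) (.nd (nat_lit 9) 
(.lf (nat_lit 1344373030) (dlOf (nat_lit 1) (nat_lit 0x8008000400200020008740703))) 
(.lf (nat_lit 2617344806) (dlOf (nat_lit 4) (nat_lit 0x4804a001a00f0001a0200060158000c40803700d00005e040008002000400080a2182)))) 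
(.lf (nat_lit 268534182) (dlOf (nat_lit 1) (nat_lit 0x40028051001))))) (.nd (nat_lit 9) 
(.nd (nat_lit 11) (.nd (nat_lit 26) 
(.lf (nat_lit 1879146534) (dlOf (nat_lit 2) (nat_lit 0x281840003a04002400400060008030a02))) 
(.lf (nat_lit 1006731302) (dlOf (nat_lit 2) (nat_lit 0x281940003a04002400400060008030a02)))) 
(.lf (nat_lit 939624486) (dlOf (nat_lit 1) (nat_lit 0x20018144701)))) (.nd (nat_lit 6) 
(.lf (nat_lit 1880721958) (dlOf (nat_lit 1) (nat_lit 0x8008000400200020008b55183))) 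
(.lf (nat_lit 1946262374) (dlOf (nat_lit 1) (nat_lit 0x1c0020006000800bc82)))))) (.nd (nat_lit 7) 
(.nd (nat_lit 8) (.nd (nat_lit 6) 
(.lf (nat_lit 6241224230) (dlOf (nat_lit 9) (nat_lit 0x260050017c00800b80030000b03000c0020000540800280100002804002802800280040000882000100900070010000200800340080000302001a0040000101000d0020000000800a8008007000200040008053703))) 
(.nd (nat_lit 9) 
(.lf (nat_lit 469867622) (dlOf (nat_lit 4) (nat_lit 0x982c2004e09d000110200260b080110274005011c00020060060161002a04e800b0238000300c0004002000c000800c082))) 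
(.lf (nat_lit 2617349734) (dlOf (nat_lit 1) (nat_lit 0x200180a9c01))))) (.nd (nat_lit 11) 
(.nd (nat_lit 27) (.lf (nat_lit 6241223974) (dlOf (nat_lit 1) (nat_lit 0x60008053181))) 
(.lf (nat_lit 2080474406) (dlOf (nat_lit 1) (nat_lit 0x400200020008093182)))) (.nd (nat_lit 19) 
(.lf (nat_lit 1946258726) (dlOf (nat_lit 1) (nat_lit 0x1800200040008006802))) 
(.lf (nat_lit 3490286886) (dlOf (nat_lit 1) (nat_lit 0x60028006801)))))) (.nd (nat_lit 9) 
(.nd (nat_lit 6) (.nd (nat_lit 12) 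
(.lf (nat_lit 5838572710) (dlOf (nat_lit 1) (nat_lit 0x400080f6281))) 
(.lf (nat_lit 5838576806) (dlOf (nat_lit 1) (nat_lit 0x400180fc201)))) 
(.lf (nat_lit 1543605734) (dlOf (nat_lit 2) (nat_lit 0x2800000000040010002002c0008146e82)))) 
(.nd (nat_lit 11) (.lf (nat_lit 939624102) (dlOf (nat_lit 1) (nat_lit 0x400400020008143a82))) 
(.lf (nat_lit 1342279334) (dlOf (nat_lit 1) (nat_lit 0x20028007201)))))))) (.nd (nat_lit 20) 
(.nd (nat_lit 30) (.nd (nat_lit 9) (.nd (nat_lit 8) (.nd (nat_lit 19) (.nd (nat_lit 28) 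
(.nd (nat_lit 21) 
(.lf (nat_lit 537231398) (dlOf (nat_lit 7) (nat_lit 0x140a00005a02000c0000002a81000103300020000000a4080008000000370200060000001a0100010000000c8080050008006c002001c0008060583))) 
(.lf (nat_lit 6651942) (dlOf (nat_lit 1) (nat_lit 0x20028440a81)))) (.nd (nat_lit 27) 
(.lf (nat_lit 4563763238) (dlOf (nat_lit 1) (nat_lit 0x400180d0201))) 
(.lf (nat_lit 4697980966) (dlOf (nat_lit 1) (nat_lit 0x400180d0201))))) (.nd (nat_lit 21) 
(.lf (nat_lit 2819457062) (dlOf (nat_lit 2) (nat_lit 0x807e0002a0200020018290781))) 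
(.lf (nat_lit 53313574) (dlOf (nat_lit 1) (nat_lit 0x1a0019590301))))) (.nd (nat_lit 6) 
(.lf (nat_lit 8750374) (dlOf (nat_lit 1) (nat_lit 0x20028513181))) 
(.lf (nat_lit 21332454) (dlOf (nat_lit 1) (nat_lit 0x20028a37301))))) (.nd (nat_lit 6) 
(.nd (nat_lit 7) (.nd (nat_lit 11) 
(.lf (nat_lit 23429670) (dlOf (nat_lit 1) (nat_lit 0x420028b80e01))) 
(.lf (nat_lit 38636070) (dlOf (nat_lit 1) (nat_lit 0x400200020009135182)))) 
(.lf (nat_lit 8754086) (dlOf (nat_lit 1) (nat_lit 0x740008519101)))) (.nd (nat_lit 8) 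
(.lf (nat_lit 8750694) (dlOf (nat_lit 4) (nat_lit 0x867100016810004338800299b8003c9bc0002c06001c4de00015818513900))) 
(.lf (nat_lit 2349177702) (dlOf (nat_lit 1) (nat_lit 0x200280fbc81)))))) (.nd (nat_lit 26) 
(.nd (nat_lit 7) (.nd (nat_lit 8) 
(.lf (nat_lit 3221585958) (dlOf (nat_lit 7) (nat_lit 0x14022000180200060110000b8100090270000380800481380001004002409c0000102000a04e00000018150780))) 
(.lf (nat_lit 1879935270) (dlOf (nat_lit 1) (nat_lit 0x5a00183d4b81)))) (.nd (nat_lit 6) 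
(.nd (nat_lit 10) (.lf (nat_lit 1208320166) (dlOf (nat_lit 2) (nat_lit 0x4028000100180c1480))) 
(.lf (nat_lit 3624242342) (dlOf (nat_lit 2) (nat_lit 0xd003a0002c0201860028146281)))) 
(.lf (nat_lit 5772248294) (dlOf (nat_lit 1) (nat_lit 0x28008000c00200080008092e03))))) 
(.nd (nat_lit 29) (.nd (nat_lit 6) (.nd (nat_lit 19) 
(.lf (nat_lit 1409646630) (dlOf (nat_lit 7) (nat_lit 0x140a00005a02000c0000002a81000103300020000000a4080008000000370200060000001a0100010000000c8080050008006c002001c0008060583))) 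
(.lf (nat_lit 3557654566) (dlOf (nat_lit 2) (nat_lit 0x807e0002a0200020018290781)))) 
(.lf (nat_lit 3557130598) (dlOf (nat_lit 1) (nat_lit 0x20018130981)))) (.nd (nat_lit 8) 
(.nd (nat_lit 28) 
(.lf (nat_lit 3959783462) (dlOf (nat_lit 7) (nat_lit 0x2409c0002302001204e0000e8100090270000580800280440000604000c0220000202000a04e00000018150780))) 
(.lf (nat_lit 4228218918) (dlOf (nat_lit 2) (nat_lit 0x280c800022040004004000a0008080982)))) 
(.lf (nat_lit 4096099622) (dlOf (nat_lit 1) (nat_lit 0x200280e3181))))))) (.nd (nat_lit 21) 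
(.nd (nat_lit 19) (.nd (nat_lit 8) (.nd (nat_lit 22) (.nd (nat_lit 28) 
(.lf (nat_lit 1409062) (dlOf (nat_lit 1) (nat_lit 0xc004000200080c0a02))) 
(.lf (nat_lit 1343586342) (dlOf (nat_lit 1) (nat_lit 0x600182a0601)))) 
(.lf (nat_lit 55935014) (dlOf (nat_lit 1) (nat_lit 0x1c004000a00196f0202)))) (.nd (nat_lit 6) 
(.lf (nat_lit 5772772646) (dlOf (nat_lit 1) (nat_lit 0x400400020008093182))) 
(.lf (nat_lit 47547366) (dlOf (nat_lit 1) (nat_lit 0x400200020009402882))))) (.nd (nat_lit 8) 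
(.nd (nat_lit 22) (.nd (nat_lit 24) 
(.lf (nat_lit 10321958) (dlOf (nat_lit 2) (nat_lit 0x133f40002a02000600285d0581))) 
(.lf (nat_lit 27099174) (dlOf (nat_lit 2) (nat_lit 0x53d8500058818ca0600)))) 
(.lf (nat_lit 14516262) (dlOf (nat_lit 1) (nat_lit 0x80028760781)))) 
(.lf (nat_lit 4095575334) (dlOf (nat_lit 1) (nat_lit 0x4004000200080e3182))))) (.nd (nat_lit 23) 
(.nd (nat_lit 7) (.nd (nat_lit 6) (.nd (nat_lit 9) 
(.lf (nat_lit 1346207782) (dlOf (nat_lit 6) (nat_lit 0xc42b000760cf005204b0018820c000521001082b000da0cf008804b0044820c0004e10007412c001a0830000c02002a0ac0027825800c41060001606001409600070418000241006b000801a400200700008e60203))) 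
(.lf (nat_lit 41781798) (dlOf (nat_lit 1) (nat_lit 0xa0008000400200020009245183)))) 
(.lf (nat_lit 1346207846) (dlOf (nat_lit 4) (nat_lit 0x14a160000f0a68358836418941b000d809c007a046802281f400c00f80000e10015e16006b906c803a8270020c11a002a07d0000605007f0b003460364011c13800a808d001903e800000280430008062800200640008e60983)))) 
(.nd (nat_lit 8) (.lf (nat_lit 20288166) (dlOf (nat_lit 1) (nat_lit 0x4002000200089d8c82))) 
(.lf (nat_lit 8225190) (dlOf (nat_lit 1) (nat_lit 0x400200020008511002))))) (.nd (nat_lit 6) 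
(.nd (nat_lit 8) 
(.lf (nat_lit 45451814) (dlOf (nat_lit 4) (nat_lit 0x1acea00046010029675001832d8001160800499d4000890200080019325181))) 
(.lf (nat_lit 45973798) (dlOf (nat_lit 1) (nat_lit 0x120029380a81)))) (.nd (nat_lit 7) 
(.lf (nat_lit 62751846) (dlOf (nat_lit 2) (nat_lit 0x1d7260004102002200099a2981))) 
(.lf (nat_lit 45973734) (dlOf (nat_lit 1) (nat_lit 0x20019380a81))))))))) (.nd (nat_lit 7) 
(.nd (nat_lit 26) (.nd (nat_lit 18) (.nd (nat_lit 21) (.nd (nat_lit 31) (.nd (nat_lit 19) 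
(.nd (nat_lit 22) 
(.lf (nat_lit 25395238) (dlOf (nat_lit 2) (nat_lit 0x7b65f8000fc080008008000c00200060008c00503))) 
(.lf (nat_lit 63143974) (dlOf (nat_lit 1) (nat_lit 0x1c004000a00199e0202)))) (.nd (nat_lit 6) 
(.lf (nat_lit 4948006) (dlOf (nat_lit 1) (nat_lit 0x5e000800ac00201ae00082d0283))) 
(.lf (nat_lit 35357798) (dlOf (nat_lit 1) (nat_lit 0xe0019012981))))) (.nd (nat_lit 8) 
(.nd (nat_lit 20) (.lf (nat_lit 6576898086) (dlOf (nat_lit 2) (nat_lit 0xaa01100015018180580))) 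
(.lf (nat_lit 3490938918) (dlOf (nat_lit 1) (nat_lit 0x40018030a01)))) 
(.lf (nat_lit 3221458214) (dlOf (nat_lit 1) (nat_lit 0x400200020008116802))))) (.nd (nat_lit 6) 
(.nd (nat_lit 9) (.nd (nat_lit 24) 
(.lf (nat_lit 2326566) (dlOf (nat_lit 1) (nat_lit 0x20018150001))) 
(.lf (nat_lit 52658214) (dlOf (nat_lit 2) (nat_lit 0xb7528005b8c400000080084004006e0009560782)))) 
(.nd (nat_lit 24) 
(.lf (nat_lit 41650726) (dlOf (nat_lit 1) (nat_lit 0x1c0008000400200020009245183))) 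
(.lf (nat_lit 58427942) (dlOf (nat_lit 1) (nat_lit 0x5000200ae00097e5182))))) (.nd (nat_lit 9) 
(.nd (nat_lit 8) 
(.lf (nat_lit 24346726) (dlOf (nat_lit 1) (nat_lit 0x500008000400201700008b91383))) 
(.lf (nat_lit 2326886) (dlOf (nat_lit 2) (nat_lit 0x24b85800032040018004000e0008150702)))) 
(.nd (nat_lit 12) (.lf (nat_lit 53184102) (dlOf (nat_lit 1) (nat_lit 0x400400020009573902))) 
(.lf (nat_lit 8099430) (dlOf (nat_lit 1) (nat_lit 0x400200020008519c02))))))) (.nd (nat_lit 20) 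
(.nd (nat_lit 28) (.nd (nat_lit 9) (.nd (nat_lit 27) 
(.lf (nat_lit 1611104294) (dlOf (nat_lit 1) (nat_lit 0x2180080084002006800080e0983))) 
(.lf (nat_lit 3892805670) (dlOf (nat_lit 2) (nat_lit 0x1800000bfc0200600008280001)))) 
(.nd (nat_lit 6) (.lf (nat_lit 38242854) (dlOf (nat_lit 1) (nat_lit 0xa0029135181))) 
(.lf (nat_lit 61834854) (dlOf (nat_lit 2) (nat_lit 0x3b52d8000000800c8008014800200060009923903))))) 
(.nd (nat_lit 6) (.nd (nat_lit 22) 
(.lf (nat_lit 2550628390) (dlOf (nat_lit 1) (nat_lit 0x400181b0001))) 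
(.lf (nat_lit 3494346790) (dlOf (nat_lit 1) (nat_lit 0x40018200c01)))) 
(.lf (nat_lit 1344768358) (dlOf (nat_lit 1) (nat_lit 0x1400200020008984e82))))) (.nd (nat_lit 11) 
(.nd (nat_lit 6) (.lf (nat_lit 9928742) (dlOf (nat_lit 1) (nat_lit 0x8008000400200020008590983))) 
(.nd (nat_lit 8) (.lf (nat_lit 52396134) (dlOf (nat_lit 1) (nat_lit 0x400200040009530982))) 
(.lf (nat_lit 14123366) (dlOf (nat_lit 1) (nat_lit 0x20028750981))))) (.nd (nat_lit 8) 
(.nd (nat_lit 19) (.lf (nat_lit 41388582) (dlOf (nat_lit 1) (nat_lit 0x20019245181))) 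
(.lf (nat_lit 1346341414) (dlOf (nat_lit 4) (nat_lit 0x1c2ce001c01a0004602000100d00022c08005059c0040034000890400020028f05181)))) 
(.lf (nat_lit 20417830) (dlOf (nat_lit 1) (nat_lit 0x200089d6801))))))) (.nd (nat_lit 27) 
(.nd (nat_lit 29) (.nd (nat_lit 28) (.nd (nat_lit 9) 
(.lf (nat_lit 4362305574) (dlOf (nat_lit 7) (nat_lit 0x1802b000088080110158002805600021040016056000a01580007810011015800280560001d04000202b0000d810011026800000080150008014c00200220008020583))) 
(.lf (nat_lit 5436049958) (dlOf (nat_lit 1) (nat_lit 0x138008006000200800008095183)))) 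
(.nd (nat_lit 18) (.lf (nat_lit 3557523494) (dlOf (nat_lit 1) (nat_lit 0x1c00400040008240682))) 
(.lf (nat_lit 3557261350) (dlOf (nat_lit 1) (nat_lit 0xc0018190701))))) (.nd (nat_lit 8) 
(.nd (nat_lit 18) (.nd (nat_lit 20) 
(.lf (nat_lit 5972918310) (dlOf (nat_lit 2) (nat_lit 0xaa01100015018180580))) 
(.lf (nat_lit 2752741414) (dlOf (nat_lit 1) (nat_lit 0x40018030a01)))) (.nd (nat_lit 21) 
(.lf (nat_lit 2756149286) (dlOf (nat_lit 1) (nat_lit 0x40018200c01))) 
(.lf (nat_lit 2754052134) (dlOf (nat_lit 1) (nat_lit 0x2c00080108002002a00080b0b03))))) 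
(.nd (nat_lit 6) (.lf (nat_lit 2755887398) (dlOf (nat_lit 1) (nat_lit 0x38002000600081b0502))) 
(.nd (nat_lit 9) 
(.lf (nat_lit 2755887462) (dlOf (nat_lit 5) (nat_lit 0x2dc0f200033020382079000190101c203c8000c4080d981e40006004000c004000200081b0702))) 
(.lf (nat_lit 4899179366) (dlOf (nat_lit 1) (nat_lit 0x28008000c002000200080d5c03))))))) 
(.nd (nat_lit 18) (.nd (nat_lit 8) (.nd (nat_lit 19) (.nd (nat_lit 29) 
(.lf (nat_lit 3691216934) (dlOf (nat_lit 3) (nat_lit 0x1cc02c000e702000401d000000180a0600))) 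
(.lf (nat_lit 4228087846) (dlOf (nat_lit 7) (nat_lit 0x1802780008808011013c00280540002104001604f000a01500007810011013c00280540001d04000202a0000d810011023000000080150008014c00200220008020583)))) 
(.lf (nat_lit 3154870310) (dlOf (nat_lit 1) (nat_lit 0x20028360601)))) (.nd (nat_lit 9) 
(.nd (nat_lit 10) (.lf (nat_lit 1008959782) (dlOf (nat_lit 1) (nat_lit 0x20019000a81))) 
(.lf (nat_lit 2080605478) (dlOf (nat_lit 1) (nat_lit 0x400200020008093182)))) 
(.lf (nat_lit 738429734) (dlOf (nat_lit 2) (nat_lit 0x8054001210200020018095c01))))) 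
(.nd (nat_lit 6) (.nd (nat_lit 19) 
(.lf (nat_lit 738689062) (dlOf (nat_lit 1) (nat_lit 0x28004000a00080e0a82))) 
(.lf (nat_lit 473923622) (dlOf (nat_lit 2) (nat_lit 0x110ac000a833c005c1060002706000a0018fc0201)))) 
(.nd (nat_lit 8) (.nd (nat_lit 19) 
(.lf (nat_lit 1009221734) (dlOf (nat_lit 1) (nat_lit 0x100080008002000400090a0983))) 
(.lf (nat_lit 473923686) (dlOf (nat_lit 4) (nat_lit 0x2c9858016381b200560d805a504e02df82340001c1415fc2c00b160d903da04e026782340001810160c2c00aba0d9024004e021b823400000100f0c00414840008fc0982)))) 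
(.lf (nat_lit 472353126) (dlOf (nat_lit 2) (nat_lit 0xa0750004039802fdc1000c0008002400200120008984e83)))))))) 
(.nd (nat_lit 6) (.nd (nat_lit 19) (.nd (nat_lit 9) (.nd (nat_lit 11) (.nd (nat_lit 8) 
(.lf (nat_lit 4563632294) (dlOf (nat_lit 1) (nat_lit 0x280080038002003800080a2c03))) 
(.lf (nat_lit 5033394598) (dlOf (nat_lit 1) (nat_lit 0x20008091001)))) (.nd (nat_lit 10) 
(.lf (nat_lit 493734) (dlOf (nat_lit 1) (nat_lit 0x40018004881))) 
(.lf (nat_lit 20155558) (dlOf (nat_lit 1) (nat_lit 0x4004004000089d6282))))) (.nd (nat_lit 8) 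
(.nd (nat_lit 11) (.lf (nat_lit 20157094) (dlOf (nat_lit 1) (nat_lit 0x80080004002000200089d8c83))) 
(.lf (nat_lit 36932262) (dlOf (nat_lit 1) (nat_lit 0x7a0009075601)))) (.nd (nat_lit 10) 
(.lf (nat_lit 3489897382) (dlOf (nat_lit 1) (nat_lit 0x3000800180020004000800bd03))) 
(.lf (nat_lit 5905811366) (dlOf (nat_lit 1) (nat_lit 0x26c0028144301)))))) (.nd (nat_lit 8) 
(.nd (nat_lit 10) (.nd (nat_lit 11) 
(.lf (nat_lit 47153318) (dlOf (nat_lit 1) (nat_lit 0x200193b1481))) 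
(.lf (nat_lit 3492776102) (dlOf (nat_lit 1) (nat_lit 0x4004000200180f4882)))) (.nd (nat_lit 20) 
(.lf (nat_lit 32474278) (dlOf (nat_lit 1) (nat_lit 0xc0008ef2c01))) 
(.lf (nat_lit 31425702) (dlOf (nat_lit 1) (nat_lit 0x8008000400200020008e92c03))))) 
(.nd (nat_lit 10) (.nd (nat_lit 11) 
(.lf (nat_lit 8356262) (dlOf (nat_lit 1) (nat_lit 0x20008511001))) 
(.lf (nat_lit 48990630) (dlOf (nat_lit 1) (nat_lit 0x20019464e81)))) 
(.lf (nat_lit 8095142) (dlOf (nat_lit 1) (nat_lit 0x400200020008513602)))))) (.nd (nat_lit 31) 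
(.nd (nat_lit 28) (.nd (nat_lit 9) (.nd (nat_lit 11) 
(.lf (nat_lit 754150) (dlOf (nat_lit 1) (nat_lit 0x8008000400200020008017d03))) 
(.lf (nat_lit 4899178982) (dlOf (nat_lit 1) (nat_lit 0x800280d4e81)))) (.nd (nat_lit 8) 
(.lf (nat_lit 57117414) (dlOf (nat_lit 1) (nat_lit 0x20029795981))) 
(.lf (nat_lit 738429926) (dlOf (nat_lit 1) (nat_lit 0x400200020008095e82))))) (.nd (nat_lit 8) 
(.lf (nat_lit 5637375206) (dlOf (nat_lit 1) (nat_lit 0x80080004002000200080d2e03))) 
(.nd (nat_lit 9) (.nd (nat_lit 26) 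
(.lf (nat_lit 805536230) (dlOf (nat_lit 2) (nat_lit 0x1040000004002000e0008127301))) 
(.lf (nat_lit 1543733734) (dlOf (nat_lit 1) (nat_lit 0x8008001000200260008157303)))) 
(.lf (nat_lit 1346601958) (dlOf (nat_lit 1) (nat_lit 0x20028fe2881)))))) (.nd (nat_lit 26) 
(.nd (nat_lit 27) (.nd (nat_lit 18) 
(.lf (nat_lit 3491463654) (dlOf (nat_lit 1) (nat_lit 0x18008000400200020008090c83))) 
(.lf (nat_lit 4027023846) (dlOf (nat_lit 1) (nat_lit 0x200081b0c81)))) (.nd (nat_lit 10) 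
(.lf (nat_lit 3087237606) (dlOf (nat_lit 1) (nat_lit 0x1e800800e400200240008157d03))) 
(.lf (nat_lit 3624111590) (dlOf (nat_lit 2) (nat_lit 0x6020000080000000008000800400120008146e82))))) 
(.nd (nat_lit 18) (.nd (nat_lit 8) 
(.lf (nat_lit 2754841830) (dlOf (nat_lit 2) (nat_lit 0x200700005a040080004000a00180f6502))) 
(.lf (nat_lit 2483257830) (dlOf (nat_lit 1) (nat_lit 0xa8008005800200380008090c83)))) 
(.nd (nat_lit 19) (.lf (nat_lit 3288826342) (dlOf (nat_lit 1) (nat_lit 0x200081b0c81))) 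
(.lf (nat_lit 2752479718) (dlOf (nat_lit 3) (nat_lit 0x161f80024c0100070fc0009055c007d00800f000400540008017d02))))))))))))

end

end Pool.Agent.Lib.MP_5854e1_co.Cz

namespace Pool.Agent.Lib.MP_5854e1_co.Cz

noncomputable section

noncomputable def tz138 : DT := (.nd (nat_lit 6) (.nd (nat_lit 15) (.nd (nat_lit 17) 
(.nd (nat_lit 16) (.nd (nat_lit 9) (.nd (nat_lit 18) (.nd (nat_lit 19) (.nd (nat_lit 7) 
(.nd (nat_lit 8) (.nd (nat_lit 20) (.nd (nat_lit 21) 
(.lf (nat_lit 5033164814) (dlOf (nat_lit 1) (nat_lit 0x20028000001))) 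
(.lf (nat_lit 27262990) (dlOf (nat_lit 1) (nat_lit 0xe0018cc0281)))) 
(.lf (nat_lit 13631502) (dlOf (nat_lit 1) (nat_lit 0x400200260008730882)))) (.nd (nat_lit 10) 
(.lf (nat_lit 2751465742) (dlOf (nat_lit 1) (nat_lit 0x20028004b81))) 
(.lf (nat_lit 36701454) (dlOf (nat_lit 1) (nat_lit 0x800200020009073002))))) (.nd (nat_lit 8) 
(.nd (nat_lit 11) (.lf (nat_lit 47186062) (dlOf (nat_lit 1) (nat_lit 0x200193b1001))) 
(.nd (nat_lit 12) 
(.lf (nat_lit 1006635150) (dlOf (nat_lit 1) (nat_lit 0xc000800d8002001e0008004803))) 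
(.lf (nat_lit 469768334) (dlOf (nat_lit 1) (nat_lit 0x10004000e000800a882))))) (.nd (nat_lit 10) 
(.lf (nat_lit 47186318) (dlOf (nat_lit 1) (nat_lit 0x34004000a00093b5d82))) 
(.lf (nat_lit 3489668494) (dlOf (nat_lit 2) (nat_lit 0x886e800cfc0400400040006000800c902)))))) 
(.nd (nat_lit 27) (.nd (nat_lit 8) (.nd (nat_lit 10) (.nd (nat_lit 22) 
(.lf (nat_lit 19398670) (dlOf (nat_lit 1) (nat_lit 0x6800200080008990a02))) 
(.lf (nat_lit 15204366) (dlOf (nat_lit 2) (nat_lit 0x1eaeb002ae40800e80080008002000200087c0483)))) 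
(.lf (nat_lit 56099854) (dlOf (nat_lit 1) (nat_lit 0x20019732881)))) (.nd (nat_lit 7) 
(.lf (nat_lit 1342701838) (dlOf (nat_lit 1) (nat_lit 0x200280c0481))) 
(.lf (nat_lit 3490187662) (dlOf (nat_lit 1) (nat_lit 0x20018004e81))))) (.nd (nat_lit 28) 
(.nd (nat_lit 30) (.lf (nat_lit 2886205454) (dlOf (nat_lit 1) (nat_lit 0x400028190181))) 
(.lf (nat_lit 3959947278) (dlOf (nat_lit 2) (nat_lit 0x8080007d70200020018170001)))) 
(.nd (nat_lit 8) (.lf (nat_lit 3624402958) (dlOf (nat_lit 1) (nat_lit 0x400028190181))) 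
(.lf (nat_lit 470286606) (dlOf (nat_lit 2) (nat_lit 0xa1f20003e0180c0480))))))) (.nd (nat_lit 28) 
(.nd (nat_lit 20) (.nd (nat_lit 22) (.nd (nat_lit 7) 
(.lf (nat_lit 3825467406) (dlOf (nat_lit 1) (nat_lit 0x260008160481))) 
(.lf (nat_lit 2359438) (dlOf (nat_lit 1) (nat_lit 0x400200020008150102)))) (.nd (nat_lit 24) 
(.lf (nat_lit 12845070) (dlOf (nat_lit 3) (nat_lit 0x9a9180001408004548c00000040014004002800186e0402))) 
(.lf (nat_lit 63176718) (dlOf (nat_lit 1) (nat_lit 0x200299f0201))))) (.nd (nat_lit 19) 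
(.nd (nat_lit 21) (.lf (nat_lit 30670862) (dlOf (nat_lit 1) (nat_lit 0x20028e40781))) 
(.lf (nat_lit 11796494) (dlOf (nat_lit 1) (nat_lit 0x600186c0001)))) 
(.lf (nat_lit 27000846) (dlOf (nat_lit 1) (nat_lit 0xe20008ca0481))))) (.nd (nat_lit 19) 
(.nd (nat_lit 7) (.nd (nat_lit 20) 
(.lf (nat_lit 3494117390) (dlOf (nat_lit 2) (nat_lit 0xf81ec033b8040034002000800081b0002))) 
(.lf (nat_lit 471072782) (dlOf (nat_lit 1) (nat_lit 0x5c00200240008260282)))) 
(.lf (nat_lit 4563665294) (dlOf (nat_lit 1) (nat_lit 0x2800280c5d81)))) (.nd (nat_lit 8) 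
(.nd (nat_lit 20) 
(.lf (nat_lit 3557556238) (dlOf (nat_lit 2) (nat_lit 0x302480023008008000802d0002003a0008260183))) 
(.lf (nat_lit 471597070) (dlOf (nat_lit 1) (nat_lit 0x20018350281)))) 
(.lf (nat_lit 472646926) (dlOf (nat_lit 1) (nat_lit 0x200289e3001))))))) (.nd (nat_lit 7) 
(.nd (nat_lit 8) (.nd (nat_lit 10) (.nd (nat_lit 18) 
(.lf (nat_lit 5773986318) (dlOf (nat_lit 1) (nat_lit 0x4004003c00080e5082))) (.nd (nat_lit 26) 
(.lf (nat_lit 5773724174) (dlOf (nat_lit 1) (nat_lit 0x200280e5081))) 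
(.lf (nat_lit 6377703950) (dlOf (nat_lit 1) (nat_lit 0x200280e5081))))) (.nd (nat_lit 12) 
(.lf (nat_lit 3598) (dlOf (nat_lit 1) (nat_lit 0x40028007081))) (.nd (nat_lit 26) 
(.lf (nat_lit 2952797710) (dlOf (nat_lit 1) (nat_lit 0xa001800ce01))) 
(.lf (nat_lit 603987470) (dlOf (nat_lit 1) (nat_lit 0x18001800ce01)))))) (.nd (nat_lit 27) 
(.nd (nat_lit 10) (.nd (nat_lit 28) 
(.lf (nat_lit 5368711950) (dlOf (nat_lit 1) (nat_lit 0x1c800200140008005b02))) 
(.lf (nat_lit 6710889230) (dlOf (nat_lit 1) (nat_lit 0x60028005b01)))) 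
(.lf (nat_lit 2952795918) (dlOf (nat_lit 2) (nat_lit 0x1600d0013180800a000800080020008000800a003)))) 
(.nd (nat_lit 26) 
(.lf (nat_lit 5771365134) (dlOf (nat_lit 2) (nat_lit 0xa05180000004000400400080008005b02))) 
(.nd (nat_lit 29) (.lf (nat_lit 4764732174) (dlOf (nat_lit 1) (nat_lit 0x40028005b01))) 
(.lf (nat_lit 5301603086) (dlOf (nat_lit 2) (nat_lit 0x400b00020028000320400040028005b01))))))) 
(.nd (nat_lit 11) (.nd (nat_lit 8) (.nd (nat_lit 19) (.nd (nat_lit 26) (.nd (nat_lit 27) 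
(.lf (nat_lit 2684360334) (dlOf (nat_lit 1) (nat_lit 0x400400020008009e82))) 
(.lf (nat_lit 2281707150) (dlOf (nat_lit 1) (nat_lit 0x400400020008009e82)))) 
(.lf (nat_lit 2214598286) (dlOf (nat_lit 1) (nat_lit 0x140028009e81)))) 
(.lf (nat_lit 20453006) (dlOf (nat_lit 1) (nat_lit 0x1b00080010002002800089d9e83)))) 
(.nd (nat_lit 10) (.lf (nat_lit 2214593422) (dlOf (nat_lit 1) (nat_lit 0x160028002581))) 
(.lf (nat_lit 4026533774) (dlOf (nat_lit 1) (nat_lit 0xb000400080008004202))))) (.nd (nat_lit 18) 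
(.nd (nat_lit 8) (.lf (nat_lit 1342184078) (dlOf (nat_lit 1) (nat_lit 0x40040002000800b682))) 
(.nd (nat_lit 10) (.lf (nat_lit 1610615694) (dlOf (nat_lit 1) (nat_lit 0x180028005c81))) 
(.lf (nat_lit 603983758) (dlOf (nat_lit 1) (nat_lit 0x28004001a0008007782))))) (.nd (nat_lit 10) 
(.nd (nat_lit 23) (.lf (nat_lit 54791054) (dlOf (nat_lit 1) (nat_lit 0x8008005000200020009655c83))) 
(.lf (nat_lit 46402446) (dlOf (nat_lit 2) (nat_lit 0x2f5fb00037819385c80)))) 
(.lf (nat_lit 2818838414) (dlOf (nat_lit 1) (nat_lit 0x30008002800200020008127783)))))))) 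
(.nd (nat_lit 19) (.nd (nat_lit 27) (.nd (nat_lit 10) (.nd (nat_lit 21) (.nd (nat_lit 26) 
(.nd (nat_lit 22) 
(.lf (nat_lit 1879375886) (dlOf (nat_lit 1) (nat_lit 0x8008000400200020008100683))) 
(.lf (nat_lit 12910606) (dlOf (nat_lit 1) (nat_lit 0x4004000200186e0402)))) (.nd (nat_lit 7) 
(.lf (nat_lit 604307470) (dlOf (nat_lit 3) (nat_lit 0x203c0003881000101e0000b4080158008005800200040008130203))) 
(.lf (nat_lit 6241452430) (dlOf (nat_lit 1) (nat_lit 0x1200180f5d81))))) (.nd (nat_lit 7) 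
(.nd (nat_lit 18) 
(.lf (nat_lit 15794190) (dlOf (nat_lit 1) (nat_lit 0x5800800e000200160008830183))) 
(.lf (nat_lit 24444942) (dlOf (nat_lit 3) (nat_lit 0xeb49000014080055a480000004009800200040008ba0402)))) 
(.lf (nat_lit 1344340110) (dlOf (nat_lit 1) (nat_lit 0x20028740481))))) (.nd (nat_lit 7) 
(.nd (nat_lit 9) (.nd (nat_lit 21) 
(.lf (nat_lit 55641358) (dlOf (nat_lit 1) (nat_lit 0x200296d3001))) 
(.lf (nat_lit 36766990) (dlOf (nat_lit 1) (nat_lit 0x400200f60009073002)))) (.nd (nat_lit 8) 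
(.lf (nat_lit 43320846) (dlOf (nat_lit 1) (nat_lit 0x5000292a3681))) 
(.lf (nat_lit 8460046) (dlOf (nat_lit 1) (nat_lit 0x1000020096000851a002))))) (.nd (nat_lit 8) 
(.nd (nat_lit 9) 
(.lf (nat_lit 3019965582) (dlOf (nat_lit 1) (nat_lit 0x80080004002000200080d2b03))) 
(.lf (nat_lit 2214663822) (dlOf (nat_lit 1) (nat_lit 0x400400020008009e82)))) (.nd (nat_lit 26) 
(.lf (nat_lit 2952859534) (dlOf (nat_lit 3) (nat_lit 0xe00e0012b80800680700095a04005400400080008007782))) 
(.lf (nat_lit 604049294) (dlOf (nat_lit 1) (nat_lit 0x104002002c0008007782))))))) (.nd (nat_lit 18) 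
(.nd (nat_lit 10) (.nd (nat_lit 7) (.nd (nat_lit 9) 
(.lf (nat_lit 1008795918) (dlOf (nat_lit 1) (nat_lit 0xa800401260018f83a02))) 
(.lf (nat_lit 3355513614) (dlOf (nat_lit 1) (nat_lit 0x7c00280a8f81)))) (.nd (nat_lit 8) 
(.lf (nat_lit 1208027790) (dlOf (nat_lit 1) (nat_lit 0x60018095481))) 
(.lf (nat_lit 5234559886) (dlOf (nat_lit 1) (nat_lit 0x400400020018055c82))))) (.nd (nat_lit 8) 
(.nd (nat_lit 20) (.lf (nat_lit 1275134990) (dlOf (nat_lit 1) (nat_lit 0x400400020008092882))) 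
(.lf (nat_lit 5772477454) (dlOf (nat_lit 1) (nat_lit 0x400400120008092882)))) (.nd (nat_lit 7) 
(.lf (nat_lit 1476466446) (dlOf (nat_lit 1) (nat_lit 0x92000800a001))) 
(.lf (nat_lit 1476464526) (dlOf (nat_lit 1) (nat_lit 0xc800200280008007782)))))) (.nd (nat_lit 28) 
(.nd (nat_lit 31) (.nd (nat_lit 26) 
(.lf (nat_lit 134545422) (dlOf (nat_lit 1) (nat_lit 0x100080088002000a0008070503))) 
(.lf (nat_lit 201654286) (dlOf (nat_lit 1) (nat_lit 0x100080088002000a0008070503)))) 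
(.nd (nat_lit 7) (.lf (nat_lit 3355770894) (dlOf (nat_lit 1) (nat_lit 0x20008110101))) 
(.lf (nat_lit 2818903950) (dlOf (nat_lit 1) (nat_lit 0x800200020008127782))))) (.nd (nat_lit 26) 
(.nd (nat_lit 7) 
(.lf (nat_lit 1476722702) (dlOf (nat_lit 2) (nat_lit 0x34078000710200020028150201))) 
(.lf (nat_lit 5771692942) (dlOf (nat_lit 1) (nat_lit 0x400200020008005c82)))) (.nd (nat_lit 29) 
(.lf (nat_lit 2617573390) (dlOf (nat_lit 4) (nat_lit 0x20178001380800800b80008a04002005c00080120001c028100180))) 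
(.lf (nat_lit 1006960654) (dlOf (nat_lit 1) (nat_lit 0x8008000400200020008100683)))))))) 
(.nd (nat_lit 21) (.nd (nat_lit 26) (.nd (nat_lit 29) (.nd (nat_lit 8) (.nd (nat_lit 20) 
(.lf (nat_lit 3494445070) (dlOf (nat_lit 2) (nat_lit 0x2a01c006b2818220880))) 
(.lf (nat_lit 18415630) (dlOf (nat_lit 1) (nat_lit 0x400200020008930182)))) 
(.lf (nat_lit 51971342) (dlOf (nat_lit 1) (nat_lit 0x40029513001)))) (.nd (nat_lit 18) 
(.nd (nat_lit 28) (.lf (nat_lit 537460750) (dlOf (nat_lit 1) (nat_lit 0x2c00400020008090002))) 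
(.lf (nat_lit 1879638030) (dlOf (nat_lit 1) (nat_lit 0x40018280181)))) 
(.lf (nat_lit 2819424270) (dlOf (nat_lit 2) (nat_lit 0x404600030100002241004b8008001000200160008280183))))) 
(.nd (nat_lit 27) (.nd (nat_lit 22) (.nd (nat_lit 28) 
(.lf (nat_lit 4362665998) (dlOf (nat_lit 1) (nat_lit 0x4004000200080d0682))) 
(.lf (nat_lit 3557359630) (dlOf (nat_lit 1) (nat_lit 0x378008002400200f400081c0483)))) 
(.lf (nat_lit 2756247566) (dlOf (nat_lit 2) (nat_lit 0x2a01c003de018220880)))) (.nd (nat_lit 20) 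
(.lf (nat_lit 4228448270) (dlOf (nat_lit 1) (nat_lit 0x4004000200080d0682))) 
(.lf (nat_lit 471400462) (dlOf (nat_lit 1) (nat_lit 0x2400082f0781)))))) (.nd (nat_lit 24) 
(.nd (nat_lit 7) (.nd (nat_lit 31) (.nd (nat_lit 10) 
(.lf (nat_lit 3735566) (dlOf (nat_lit 2) (nat_lit 0x20a2000084e00000008000c00400100008220402))) 
(.lf (nat_lit 50136078) (dlOf (nat_lit 1) (nat_lit 0xe00294c2881)))) (.nd (nat_lit 26) 
(.lf (nat_lit 3493396494) (dlOf (nat_lit 1) (nat_lit 0x10008000c00200040008130483))) 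
(.lf (nat_lit 2755198990) (dlOf (nat_lit 1) (nat_lit 0x10008000c00200040008130483))))) 
(.nd (nat_lit 11) (.lf (nat_lit 12386446) (dlOf (nat_lit 1) (nat_lit 0x4002006200086c0102))) 
(.lf (nat_lit 7932046) (dlOf (nat_lit 1) (nat_lit 0x20028514801))))) (.nd (nat_lit 7) 
(.nd (nat_lit 8) (.lf (nat_lit 19464206) (dlOf (nat_lit 1) (nat_lit 0x80080004002000200089a0a03))) 
(.nd (nat_lit 10) 
(.lf (nat_lit 58261774) (dlOf (nat_lit 4) (nat_lit 0x1067180070008006b38c0032a0400299da0010cec000278297d7400))) 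
(.lf (nat_lit 32310542) (dlOf (nat_lit 1) (nat_lit 0x400200020008ef3002))))) (.nd (nat_lit 18) 
(.lf (nat_lit 20518542) (dlOf (nat_lit 1) (nat_lit 0x4000289d9e81))) 
(.lf (nat_lit 20780686) (dlOf (nat_lit 1) (nat_lit 0x4002000200089d9e82))))))))) (.nd (nat_lit 16) 
(.nd (nat_lit 18) (.nd (nat_lit 26) (.nd (nat_lit 19) (.nd (nat_lit 7) (.nd (nat_lit 28) 
(.nd (nat_lit 9) (.nd (nat_lit 10) 
(.lf (nat_lit 44171278) (dlOf (nat_lit 1) (nat_lit 0x2000292d0001))) 
(.lf (nat_lit 138254) (dlOf (nat_lit 1) (nat_lit 0xe002800bf01)))) 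
(.lf (nat_lit 1073873422) (dlOf (nat_lit 5) (nat_lit 0x180a40093e04002c052004950200440290024a01000501480124c0800e00080014002001c0008018403)))) 
(.nd (nat_lit 20) 
(.lf (nat_lit 1476526094) (dlOf (nat_lit 1) (nat_lit 0x2800800ac00200280008020183))) 
(.lf (nat_lit 1343356942) (dlOf (nat_lit 1) (nat_lit 0xe80018200281))))) (.nd (nat_lit 8) 
(.lf (nat_lit 3355580046) (dlOf (nat_lit 1) (nat_lit 0x7a00280a9e81))) (.nd (nat_lit 9) 
(.lf (nat_lit 1610744206) (dlOf (nat_lit 2) (nat_lit 0x3802100067818091000))) 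
(.lf (nat_lit 4563536782) (dlOf (nat_lit 1) (nat_lit 0x120028095c81)))))) (.nd (nat_lit 21) 
(.nd (nat_lit 22) (.nd (nat_lit 27) 
(.lf (nat_lit 1342832654) (dlOf (nat_lit 3) (nat_lit 0x22310001115800407a40000a0c003c4980000002008800080e0401))) 
(.lf (nat_lit 134873102) (dlOf (nat_lit 1) (nat_lit 0x500080038002000c00080d0883)))) 
(.nd (nat_lit 8) (.lf (nat_lit 21626894) (dlOf (nat_lit 1) (nat_lit 0x400400020008a50082))) 
(.lf (nat_lit 55182606) (dlOf (nat_lit 1) (nat_lit 0x200196d3001))))) (.nd (nat_lit 20) 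
(.lf (nat_lit 11141134) (dlOf (nat_lit 3) (nat_lit 0xc83cb00671e480010c1000986080007004000c00400040008660182))) 
(.nd (nat_lit 22) (.lf (nat_lit 3493462030) (dlOf (nat_lit 2) (nat_lit 0xa024001eb818140a00))) 
(.lf (nat_lit 16384014) (dlOf (nat_lit 1) (nat_lit 0x4002000200088a0182))))))) (.nd (nat_lit 28) 
(.nd (nat_lit 9) (.nd (nat_lit 19) 
(.lf (nat_lit 604110862) (dlOf (nat_lit 2) (nat_lit 0x80780000802000c0008020181))) 
(.nd (nat_lit 20) 
(.lf (nat_lit 201981966) (dlOf (nat_lit 1) (nat_lit 0x500080038002000c00080d0883))) 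
(.lf (nat_lit 2755264526) (dlOf (nat_lit 2) (nat_lit 0xa024004b8818140a00))))) (.nd (nat_lit 7) 
(.nd (nat_lit 12) (.lf (nat_lit 738855438) (dlOf (nat_lit 1) (nat_lit 0x140018125081))) 
(.lf (nat_lit 3959560718) (dlOf (nat_lit 1) (nat_lit 0x2002811b281)))) 
(.lf (nat_lit 738331278) (dlOf (nat_lit 2) (nat_lit 0xc0d0002800000014828095480))))) 
(.nd (nat_lit 7) (.nd (nat_lit 8) (.nd (nat_lit 9) 
(.lf (nat_lit 470417422) (dlOf (nat_lit 3) (nat_lit 0x22310001115800407a40000a0c003c4980000002008800080e0401))) 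
(.lf (nat_lit 3154248206) (dlOf (nat_lit 1) (nat_lit 0x400200020008137b02)))) 
(.lf (nat_lit 2617382158) (dlOf (nat_lit 1) (nat_lit 0x200180a9681)))) (.nd (nat_lit 9) 
(.nd (nat_lit 11) (.lf (nat_lit 5167513998) (dlOf (nat_lit 1) (nat_lit 0x20018075d81))) 
(.lf (nat_lit 3556903310) (dlOf (nat_lit 1) (nat_lit 0x4004000200180d4e82)))) 
(.lf (nat_lit 4094823310) (dlOf (nat_lit 1) (nat_lit 0x80028055c81))))))) (.nd (nat_lit 28) 
(.nd (nat_lit 21) (.nd (nat_lit 22) (.nd (nat_lit 30) (.nd (nat_lit 29) 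
(.lf (nat_lit 6442844174) (dlOf (nat_lit 3) (nat_lit 0x514076001603900db01b800100c8004805802d8022003300f801d8064052402e015a00d00cc0028000145800900ec007c06c00d6033010c01680a1009005040460288022015900b808800340000024008000403c200081d0402))) 
(.lf (nat_lit 537264142) (dlOf (nat_lit 1) (nat_lit 0x20028070501)))) (.nd (nat_lit 26) 
(.lf (nat_lit 3355836430) (dlOf (nat_lit 28) (nat_lit 0x11019814400c40009e0805b806604f803201770188001381805800cc08d406404fa0310002683021c019001e80c4000980809d0062004202c0002382002f019813700c4013c058000460605b4031001b01600ec804400040000004508005a03200022010145019812e00c805f806202ca02c01b100900010c280de00c801a0062000420401a6032000208100440190001000812300c80007e04063c06404d403101790088000f81801b00c800078040304066049803201d4018804980b0002005202a0012008300880048024000702002f806403fe0310001b82017701900fa00c40006a0800c006400b6031000198201d90190000c8080f780c8000620404c40640002f020244032000170101f00190000500800280c80002404006c062000110204d603202200188000001006e0008015400200060008120183)))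 
(.lf (nat_lit 3288727566) (dlOf (nat_lit 3) (nat_lit 0xc03400d2081002f0190000000800b80080020002005e00080d0883))))) 
(.nd (nat_lit 19) (.nd (nat_lit 25) 
(.lf (nat_lit 22413326) (dlOf (nat_lit 1) (nat_lit 0x1c002000c0008ad0182))) 
(.lf (nat_lit 55967758) (dlOf (nat_lit 1) (nat_lit 0x20029700201)))) (.nd (nat_lit 8) 
(.lf (nat_lit 13500430) (dlOf (nat_lit 1) (nat_lit 0x6a0008730881))) 
(.lf (nat_lit 55444750) (dlOf (nat_lit 1) (nat_lit 0x200096d3001)))))) (.nd (nat_lit 7) 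
(.nd (nat_lit 8) (.nd (nat_lit 19) 
(.lf (nat_lit 15073294) (dlOf (nat_lit 1) (nat_lit 0x780080024002000c00087b0283))) 
(.lf (nat_lit 19791886) (dlOf (nat_lit 1) (nat_lit 0x200089d0001)))) (.nd (nat_lit 9) 
(.nd (nat_lit 10) (.lf (nat_lit 19796238) (dlOf (nat_lit 1) (nat_lit 0x2200289d8081))) 
(.lf (nat_lit 2754481422) (dlOf (nat_lit 1) (nat_lit 0x8002000200080f6682)))) 
(.lf (nat_lit 46009102) (dlOf (nat_lit 1) (nat_lit 0x520019385b01))))) (.nd (nat_lit 12) 
(.nd (nat_lit 20) (.lf (nat_lit 36571534) (dlOf (nat_lit 1) (nat_lit 0xb800200680009074e82))) 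
(.lf (nat_lit 33425806) (dlOf (nat_lit 1) (nat_lit 0xa0008f54e81)))) (.nd (nat_lit 8) 
(.lf (nat_lit 19798670) (dlOf (nat_lit 1) (nat_lit 0x200089db681))) 
(.lf (nat_lit 19796366) (dlOf (nat_lit 1) (nat_lit 0x8004000200089d8382))))))) (.nd (nat_lit 26) 
(.nd (nat_lit 30) (.nd (nat_lit 27) (.nd (nat_lit 31) 
(.lf (nat_lit 4563795982) (dlOf (nat_lit 1) (nat_lit 0x10004000a00180e0082))) 
(.lf (nat_lit 2416312334) (dlOf (nat_lit 1) (nat_lit 0x80080004002000200080d0883)))) 
(.nd (nat_lit 31) (.lf (nat_lit 4698013710) (dlOf (nat_lit 1) (nat_lit 0x10004000a00180e0082))) 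
(.lf (nat_lit 2550530062) (dlOf (nat_lit 1) (nat_lit 0x80080004002000200080d0883))))) 
(.nd (nat_lit 7) (.nd (nat_lit 20) 
(.lf (nat_lit 4026925070) (dlOf (nat_lit 3) (nat_lit 0xc03400ed301002f0190000000800b80080020002005e00080d0883))) 
(.lf (nat_lit 1343619086) (dlOf (nat_lit 1) (nat_lit 0x200182c0281)))) 
(.lf (nat_lit 1879965838) (dlOf (nat_lit 1) (nat_lit 0x800200020008490102))))) (.nd (nat_lit 30) 
(.nd (nat_lit 7) (.nd (nat_lit 27) 
(.lf (nat_lit 2483421198) (dlOf (nat_lit 1) (nat_lit 0x4004000200081b0002))) 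
(.lf (nat_lit 2617638926) (dlOf (nat_lit 1) (nat_lit 0x30008000800200220008110103)))) 
(.lf (nat_lit 1007550606) (dlOf (nat_lit 1) (nat_lit 0x800200020008490102)))) (.nd (nat_lit 27) 
(.lf (nat_lit 1409679374) (dlOf (nat_lit 1) (nat_lit 0x20028070501))) (.nd (nat_lit 29) 
(.lf (nat_lit 5838864398) (dlOf (nat_lit 3) (nat_lit 0x514076001603900db01b800100c8004805802d8022003300f801d8064052402e015a00d00cc0018000145800900ec007c06c00d6033010c01680a1009005040460288022015900b808800340000024008000403c200081d0402))) 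
(.lf (nat_lit 4228251662) (dlOf (nat_lit 1) (nat_lit 0x6c8008016400200940008090003))))))))) 
(.nd (nat_lit 28) (.nd (nat_lit 20) (.nd (nat_lit 7) (.nd (nat_lit 9) (.nd (nat_lit 19) 
(.nd (nat_lit 29) 
(.lf (nat_lit 4362534926) (dlOf (nat_lit 1) (nat_lit 0x3480080004002005a0008090003))) 
(.lf (nat_lit 1678180366) (dlOf (nat_lit 1) (nat_lit 0x1000281a0001)))) (.nd (nat_lit 8) 
(.lf (nat_lit 53411854) (dlOf (nat_lit 1) (nat_lit 0x180080044002000800095c0083))) 
(.lf (nat_lit 36373774) (dlOf (nat_lit 1) (nat_lit 0x240009073001))))) (.nd (nat_lit 11) 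
(.nd (nat_lit 18) (.lf (nat_lit 4362273294) (dlOf (nat_lit 1) (nat_lit 0x118002000e0008018402))) 
(.lf (nat_lit 2752446990) (dlOf (nat_lit 5) (nat_lit 0x70430012c00800202180094e0400141100049f0200020880024a018018400)))) 
(.lf (nat_lit 40045070) (dlOf (nat_lit 1) (nat_lit 0xe0002006600091f5082))))) (.nd (nat_lit 22) 
(.nd (nat_lit 11) (.nd (nat_lit 26) 
(.lf (nat_lit 3221684622) (dlOf (nat_lit 1) (nat_lit 0x20018170781))) 
(.lf (nat_lit 3959882126) (dlOf (nat_lit 1) (nat_lit 0x20018170781)))) (.nd (nat_lit 9) 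
(.lf (nat_lit 69667214) (dlOf (nat_lit 1) (nat_lit 0x400200020008b94e82))) 
(.lf (nat_lit 738397070) (dlOf (nat_lit 1) (nat_lit 0x1000200020008095c82))))) (.nd (nat_lit 8) 
(.nd (nat_lit 19) (.lf (nat_lit 54984846) (dlOf (nat_lit 1) (nat_lit 0x8008001000200020009681003))) 
(.lf (nat_lit 24051854) (dlOf (nat_lit 1) (nat_lit 0x400200620008b80102)))) (.nd (nat_lit 9) 
(.lf (nat_lit 54985102) (dlOf (nat_lit 2) (nat_lit 0x1a92c0009a804000c00400020009685d82))) 
(.lf (nat_lit 54725518) (dlOf (nat_lit 2) (nat_lit 0x127ef0002d819655c80))))))) (.nd (nat_lit 22) 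
(.nd (nat_lit 7) (.nd (nat_lit 21) (.nd (nat_lit 19) 
(.lf (nat_lit 9634318) (dlOf (nat_lit 1) (nat_lit 0x20018578401))) 
(.lf (nat_lit 2753233422) (dlOf (nat_lit 3) (nat_lit 0x707f4001b40403283fa000d40200040028090d81)))) 
(.nd (nat_lit 8) (.lf (nat_lit 2755330062) (dlOf (nat_lit 1) (nat_lit 0x2c00200040008160182))) 
(.lf (nat_lit 54201102) (dlOf (nat_lit 2) (nat_lit 0x80810000c8080078008008c002001c0009655b03))))) 
(.nd (nat_lit 8) (.lf (nat_lit 20649614) (dlOf (nat_lit 1) (nat_lit 0x80080004002000200089d9e83))) 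
(.nd (nat_lit 9) (.lf (nat_lit 37423502) (dlOf (nat_lit 1) (nat_lit 0x200190d4e81))) 
(.lf (nat_lit 60230542) (dlOf (nat_lit 1) (nat_lit 0x20029845c81)))))) (.nd (nat_lit 19) 
(.nd (nat_lit 25) (.nd (nat_lit 21) 
(.lf (nat_lit 5439502) (dlOf (nat_lit 1) (nat_lit 0x20008370181))) 
(.lf (nat_lit 15925262) (dlOf (nat_lit 2) (nat_lit 0x212e800cfc04000400400020018840282)))) 
(.nd (nat_lit 8) (.lf (nat_lit 58130958) (dlOf (nat_lit 1) (nat_lit 0x600080024002002800097c7b03))) 
(.lf (nat_lit 41091342) (dlOf (nat_lit 1) (nat_lit 0x20009223a01))))) (.nd (nat_lit 21) 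
(.nd (nat_lit 18) (.lf (nat_lit 22741006) (dlOf (nat_lit 1) (nat_lit 0x400400020008b20182))) 
(.lf (nat_lit 23003150) (dlOf (nat_lit 1) (nat_lit 0xd800802b400200440008b40183)))) 
(.nd (nat_lit 23) (.lf (nat_lit 24838158) (dlOf (nat_lit 1) (nat_lit 0x400400020008bc0682))) 
(.lf (nat_lit 16449550) (dlOf (nat_lit 1) (nat_lit 0x80080004002000200088a0183)))))))) 
(.nd (nat_lit 26) (.nd (nat_lit 19) (.nd (nat_lit 29) (.nd (nat_lit 18) (.nd (nat_lit 7) 
(.lf (nat_lit 1346568206) (dlOf (nat_lit 1) (nat_lit 0x10008000400200020008fd0083))) 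
(.lf (nat_lit 3624078478) (dlOf (nat_lit 1) (nat_lit 0x40018146181)))) (.nd (nat_lit 27) 
(.lf (nat_lit 5637603342) (dlOf (nat_lit 1) (nat_lit 0x11000400200008120a02))) 
(.lf (nat_lit 3624337422) (dlOf (nat_lit 1) (nat_lit 0x8008000400200020008160483))))) 
(.nd (nat_lit 7) (.nd (nat_lit 9) 
(.lf (nat_lit 6308429838) (dlOf (nat_lit 3) (nat_lit 0x90030007120201b60180037e818080000))) 
(.lf (nat_lit 939721230) (dlOf (nat_lit 1) (nat_lit 0x3c00200280008158402)))) 
(.lf (nat_lit 4160951950) (dlOf (nat_lit 1) (nat_lit 0x3c002000600080a9e82))))) (.nd (nat_lit 31) 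
(.nd (nat_lit 8) 
(.lf (nat_lit 1342898190) (dlOf (nat_lit 1) (nat_lit 0x8008000400200020008100683))) 
(.nd (nat_lit 10) (.lf (nat_lit 5774180622) (dlOf (nat_lit 1) (nat_lit 0x200008113a01))) 
(.lf (nat_lit 1346045198) (dlOf (nat_lit 1) (nat_lit 0x1c00400060008e23002))))) (.nd (nat_lit 10) 
(.nd (nat_lit 11) (.lf (nat_lit 3493527566) (dlOf (nat_lit 1) (nat_lit 0x2c00200040008160182))) 
(.lf (nat_lit 3492743182) (dlOf (nat_lit 3) (nat_lit 0xe01d0002a81000100e8001440800680080034002000a00080f4703)))) 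
(.lf (nat_lit 3492742158) (dlOf (nat_lit 1) (nat_lit 0x200180f2881)))))) (.nd (nat_lit 27) 
(.nd (nat_lit 8) (.nd (nat_lit 29) (.nd (nat_lit 7) 
(.lf (nat_lit 5704450062) (dlOf (nat_lit 3) (nat_lit 0x9003000cbb0201b601800653818080000))) 
(.lf (nat_lit 3556971150) (dlOf (nat_lit 1) (nat_lit 0x16c0028128c01)))) (.nd (nat_lit 10) 
(.lf (nat_lit 6241583118) (dlOf (nat_lit 1) (nat_lit 0x11000400200008120a02))) 
(.lf (nat_lit 6241324046) (dlOf (nat_lit 1) (nat_lit 0x400180d5f81))))) (.nd (nat_lit 7) 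
(.nd (nat_lit 11) (.lf (nat_lit 3556970766) (dlOf (nat_lit 1) (nat_lit 0xba0028128081))) 
(.lf (nat_lit 3556972814) (dlOf (nat_lit 1) (nat_lit 0x2001812aa81)))) 
(.lf (nat_lit 3556972942) (dlOf (nat_lit 1) (nat_lit 0x240040008000812af82))))) (.nd (nat_lit 19) 
(.nd (nat_lit 8) (.nd (nat_lit 9) 
(.lf (nat_lit 3691184142) (dlOf (nat_lit 1) (nat_lit 0x18008000800200040008090183))) 
(.lf (nat_lit 469959182) (dlOf (nat_lit 1) (nat_lit 0x50002000a0008018402)))) 
(.lf (nat_lit 473105678) (dlOf (nat_lit 1) (nat_lit 0xc00400020008d13002)))) (.nd (nat_lit 21) 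
(.lf (nat_lit 470482958) (dlOf (nat_lit 1) (nat_lit 0x8008000400200020008100683))) 
(.lf (nat_lit 472580110) (dlOf (nat_lit 3) (nat_lit 0x803e800201f0019d80801a00f800cb802000400189c0001)))))))))) 
(.nd (nat_lit 16) (.nd (nat_lit 17) (.nd (nat_lit 19) (.nd (nat_lit 11) (.nd (nat_lit 28) 
(.nd (nat_lit 29) (.nd (nat_lit 8) (.nd (nat_lit 20) 
(.lf (nat_lit 3422846990) (dlOf (nat_lit 3) (nat_lit 0x2f80190001140800100c80007c0406ec00401700008120182))) 
(.lf (nat_lit 30703630) (dlOf (nat_lit 2) (nat_lit 0x45c8d001fbc0802b8008008400200d80008e40783)))) 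
(.nd (nat_lit 9) (.lf (nat_lit 36734222) (dlOf (nat_lit 1) (nat_lit 0x800200020009073002))) 
(.lf (nat_lit 20222734) (dlOf (nat_lit 1) (nat_lit 0x4002000200089d8f82))))) (.nd (nat_lit 26) 
(.nd (nat_lit 27) 
(.lf (nat_lit 2684649486) (dlOf (nat_lit 3) (nat_lit 0x1840190001140801500c80007c0405a000400920008100182))) 
(.lf (nat_lit 671383566) (dlOf (nat_lit 2) (nat_lit 0x201280761808022800800c000200720008170883)))) 
(.nd (nat_lit 7) 
(.lf (nat_lit 3825500174) (dlOf (nat_lit 1) (nat_lit 0x3d000800b000200120008170883))) 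
(.lf (nat_lit 2751760270) (dlOf (nat_lit 1) (nat_lit 0x1c00400080008004202)))))) (.nd (nat_lit 27) 
(.nd (nat_lit 8) (.nd (nat_lit 30) 
(.lf (nat_lit 2953084942) (dlOf (nat_lit 1) (nat_lit 0x38008001c002000600080f0203))) 
(.lf (nat_lit 1879343118) (dlOf (nat_lit 3) (nat_lit 0x80000000502000e150000000180e0400)))) 
(.nd (nat_lit 12) (.lf (nat_lit 4026566414) (dlOf (nat_lit 1) (nat_lit 0x20008003b81))) 
(.lf (nat_lit 2952828686) (dlOf (nat_lit 1) (nat_lit 0x2a000800a001))))) (.nd (nat_lit 26) 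
(.nd (nat_lit 10) 
(.lf (nat_lit 3087302670) (dlOf (nat_lit 1) (nat_lit 0x3d000800b000200120008170883))) 
(.lf (nat_lit 5772444686) (dlOf (nat_lit 1) (nat_lit 0x400400020008092882)))) (.nd (nat_lit 29) 
(.nd (nat_lit 30) (.lf (nat_lit 2617540622) (dlOf (nat_lit 1) (nat_lit 0x10004000800180e0202))) 
(.lf (nat_lit 1543798798) (dlOf (nat_lit 2) (nat_lit 0x201280686808022800800c000200720008170883)))) 
(.lf (nat_lit 1006927886) (dlOf (nat_lit 3) (nat_lit 0x80000000502000e15d000000180e0400))))))) 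
(.nd (nat_lit 8) (.nd (nat_lit 7) (.nd (nat_lit 18) (.nd (nat_lit 9) 
(.lf (nat_lit 4429219854) (dlOf (nat_lit 1) (nat_lit 0x40018004701))) 
(.lf (nat_lit 201366030) (dlOf (nat_lit 2) (nat_lit 0x18000018260400cc00400ee000800b282)))) 
(.nd (nat_lit 21) (.lf (nat_lit 5301897742) (dlOf (nat_lit 1) (nat_lit 0x18004001000180e5082))) 
(.lf (nat_lit 40143374) (dlOf (nat_lit 1) (nat_lit 0x4002000200091f5082))))) (.nd (nat_lit 9) 
(.nd (nat_lit 12) 
(.lf (nat_lit 134253710) (dlOf (nat_lit 3) (nat_lit 0x1400000009008008000000044040004002009a0008006182))) 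
(.lf (nat_lit 134257806) (dlOf (nat_lit 2) (nat_lit 0x5e04a000b001800c200)))) (.nd (nat_lit 26) 
(.lf (nat_lit 1476434574) (dlOf (nat_lit 1) (nat_lit 0x2c000800b681))) 
(.lf (nat_lit 3691027086) (dlOf (nat_lit 1) (nat_lit 0xb0008001c002003a000800b683)))))) 
(.nd (nat_lit 9) (.nd (nat_lit 7) (.nd (nat_lit 18) 
(.lf (nat_lit 4227894542) (dlOf (nat_lit 3) (nat_lit 0x2404000040160000c81000101000003a040170002006a0008006682))) 
(.lf (nat_lit 3489959182) (dlOf (nat_lit 1) (nat_lit 0x60018006681)))) (.nd (nat_lit 10) 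
(.lf (nat_lit 2754644366) (dlOf (nat_lit 1) (nat_lit 0x200180f4e81))) 
(.lf (nat_lit 1342213518) (dlOf (nat_lit 1) (nat_lit 0x30004001c0008006c82))))) (.nd (nat_lit 27) 
(.nd (nat_lit 10) (.lf (nat_lit 4094725006) (dlOf (nat_lit 1) (nat_lit 0x80028055c81))) 
(.lf (nat_lit 604016526) (dlOf (nat_lit 1) (nat_lit 0x2c00400080008007782)))) (.nd (nat_lit 18) 
(.lf (nat_lit 1275104142) (dlOf (nat_lit 1) (nat_lit 0x220028005c81))) 
(.lf (nat_lit 738495374) (dlOf (nat_lit 1) (nat_lit 0x260028095c81)))))))) (.nd (nat_lit 28) 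
(.nd (nat_lit 18) (.nd (nat_lit 26) (.nd (nat_lit 10) (.nd (nat_lit 21) (.nd (nat_lit 22) 
(.lf (nat_lit 2819129358) (dlOf (nat_lit 4) (nat_lit 0xa80d40013a02000406a0009481000501b0000808800000080110004000200181a0482))) 
(.lf (nat_lit 55083022) (dlOf (nat_lit 1) (nat_lit 0x200196a0081)))) 
(.lf (nat_lit 11042830) (dlOf (nat_lit 4) (nat_lit 0x40000000230100700000001140800b1f340008604004000200760008660182)))) 
(.nd (nat_lit 8) (.lf (nat_lit 564238) (dlOf (nat_lit 1) (nat_lit 0x6001800bf01))) 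
(.lf (nat_lit 59278606) (dlOf (nat_lit 2) (nat_lit 0x206480004c040004004000400097e3002))))) 
(.nd (nat_lit 21) (.nd (nat_lit 22) (.nd (nat_lit 27) 
(.lf (nat_lit 1678278670) (dlOf (nat_lit 3) (nat_lit 0x2805a000a0170004382000c0160000000801b80080038002007000081d0083))) 
(.lf (nat_lit 2886238222) (dlOf (nat_lit 1) (nat_lit 0x4004000400181a0482)))) 
(.lf (nat_lit 2756214798) (dlOf (nat_lit 1) (nat_lit 0x400200020008220882)))) 
(.lf (nat_lit 2754117646) (dlOf (nat_lit 1) (nat_lit 0x3c004000e00080c0802))))) (.nd (nat_lit 25) 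
(.nd (nat_lit 20) (.nd (nat_lit 21) 
(.lf (nat_lit 2819391502) (dlOf (nat_lit 1) (nat_lit 0x10008001400200060008250203))) 
(.lf (nat_lit 15499278) (dlOf (nat_lit 1) (nat_lit 0x400080010002000c0008800283)))) 
(.nd (nat_lit 7) (.lf (nat_lit 29130766) (dlOf (nat_lit 1) (nat_lit 0x6800200080008dc0a02))) 
(.lf (nat_lit 20747918) (dlOf (nat_lit 1) (nat_lit 0x4002000200089d9e82))))) (.nd (nat_lit 7) 
(.nd (nat_lit 8) (.lf (nat_lit 36470798) (dlOf (nat_lit 1) (nat_lit 0x40019070001))) 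
(.lf (nat_lit 51151118) (dlOf (nat_lit 2) (nat_lit 0x1c000001d102000c0009507401)))) 
(.nd (nat_lit 9) (.lf (nat_lit 36473230) (dlOf (nat_lit 1) (nat_lit 0x60019074e81))) 
(.lf (nat_lit 46959502) (dlOf (nat_lit 1) (nat_lit 0x880009385c81))))))) (.nd (nat_lit 27) 
(.nd (nat_lit 8) (.nd (nat_lit 21) (.nd (nat_lit 22) (.nd (nat_lit 26) 
(.lf (nat_lit 805863438) (dlOf (nat_lit 3) (nat_lit 0x2805a000a0170008c02000c0160000000801b80080038002007000081d0083))) 
(.lf (nat_lit 3557326862) (dlOf (nat_lit 11) (nat_lit 0x26c01f8014900800e01c8003be0409dc0e4021003f000e582009c01f8006e80800901c80035404007c0e4001a802002603f000ce81001b03900066c0806081c8006407e0018e040002072000000181c0480)))) 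
(.lf (nat_lit 3494412302) (dlOf (nat_lit 1) (nat_lit 0x400200020008220882)))) 
(.lf (nat_lit 3492315150) (dlOf (nat_lit 1) (nat_lit 0x3c004000e00080c0802)))) (.nd (nat_lit 7) 
(.lf (nat_lit 1345880334) (dlOf (nat_lit 1) (nat_lit 0xa0008000c00200040008e03a03))) 
(.lf (nat_lit 3490220430) (dlOf (nat_lit 1) (nat_lit 0x1c00400020018004e82))))) (.nd (nat_lit 8) 
(.nd (nat_lit 18) (.nd (nat_lit 26) 
(.lf (nat_lit 3624435726) (dlOf (nat_lit 1) (nat_lit 0x4004000400181a0482))) 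
(.lf (nat_lit 470319118) (dlOf (nat_lit 3) (nat_lit 0xa05cc0309604005444c001420c00200d9801c54180040008002c002001a00080c0003)))) 
(.lf (nat_lit 471629838) (dlOf (nat_lit 2) (nat_lit 0x90470016640801680080074002003a0008360283)))) 
(.nd (nat_lit 10) (.nd (nat_lit 26) 
(.lf (nat_lit 1476952334) (dlOf (nat_lit 4) (nat_lit 0x3021800280f4000c068000a02a000401000075428002010c000407a00020340003015000100800014028000200c000100480010000003a2240014028000200c0001004800280000039210000800400020008317402))) 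
(.lf (nat_lit 3154673934) (dlOf (nat_lit 1) (nat_lit 0x400400040018310702)))) 
(.lf (nat_lit 473728270) (dlOf (nat_lit 1) (nat_lit 0xe0028fa3001)))))))) (.nd (nat_lit 18) 
(.nd (nat_lit 19) (.nd (nat_lit 8) (.nd (nat_lit 26) (.nd (nat_lit 20) (.nd (nat_lit 31) 
(.nd (nat_lit 27) 
(.lf (nat_lit 5368872974) (dlOf (nat_lit 3) (nat_lit 0x802a000a014001600980038044001c020000e00e006a5860002009803520080010008002800200020008060a03))) 
(.lf (nat_lit 5503090702) (dlOf (nat_lit 3) (nat_lit 0x802a000a014001600980038044001c020000e00e003e8060002009801f34080010008002800200020008060a03)))) 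
(.nd (nat_lit 9) 
(.lf (nat_lit 2684518414) (dlOf (nat_lit 3) (nat_lit 0x37002c00880020046000000230300060058000e0080358008009000200280008080183))) 
(.lf (nat_lit 3491922446) (dlOf (nat_lit 1) (nat_lit 0x20028090d81))))) (.nd (nat_lit 22) 
(.nd (nat_lit 9) (.lf (nat_lit 51545102) (dlOf (nat_lit 1) (nat_lit 0x20019512881))) 
(.lf (nat_lit 9601550) (dlOf (nat_lit 1) (nat_lit 0xc00400040008578402)))) (.nd (nat_lit 24) 
(.lf (nat_lit 13795342) (dlOf (nat_lit 1) (nat_lit 0x400200020008750002))) 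
(.lf (nat_lit 30572558) (dlOf (nat_lit 1) (nat_lit 0xc0028e40781)))))) (.nd (nat_lit 27) 
(.nd (nat_lit 7) (.nd (nat_lit 10) 
(.lf (nat_lit 2483191822) (dlOf (nat_lit 1) (nat_lit 0x4004000a0008070502))) 
(.lf (nat_lit 1677886478) (dlOf (nat_lit 1) (nat_lit 0x1400400020018112882)))) 
(.lf (nat_lit 1677887630) (dlOf (nat_lit 2) (nat_lit 0x80000001404000800200020008114802)))) 
(.nd (nat_lit 9) (.lf (nat_lit 2348974094) (dlOf (nat_lit 1) (nat_lit 0x4004000a0008070502))) 
(.lf (nat_lit 201490958) (dlOf (nat_lit 1) (nat_lit 0x400400020008018402)))))) (.nd (nat_lit 7) 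
(.nd (nat_lit 20) (.nd (nat_lit 11) 
(.lf (nat_lit 2214761742) (dlOf (nat_lit 1) (nat_lit 0x200280a9681))) 
(.lf (nat_lit 167182) (dlOf (nat_lit 1) (nat_lit 0x8008000400200020008006683)))) (.nd (nat_lit 10) 
(.lf (nat_lit 11698446) (dlOf (nat_lit 1) (nat_lit 0x2400186c0481))) 
(.lf (nat_lit 36865294) (dlOf (nat_lit 1) (nat_lit 0x1000400040009073002))))) (.nd (nat_lit 27) 
(.nd (nat_lit 28) (.lf (nat_lit 4832002446) (dlOf (nat_lit 1) (nat_lit 0x800200020008085d82))) 
(.lf (nat_lit 6174179726) (dlOf (nat_lit 1) (nat_lit 0x20028085d81)))) 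
(.lf (nat_lit 5234655630) (dlOf (nat_lit 1) (nat_lit 0x400400020018075d82)))))) (.nd (nat_lit 9) 
(.nd (nat_lit 21) (.nd (nat_lit 26) (.nd (nat_lit 29) 
(.lf (nat_lit 134905870) (dlOf (nat_lit 2) (nat_lit 0x101500348a040020002001000080d0882))) 
(.lf (nat_lit 2819260430) (dlOf (nat_lit 1) (nat_lit 0x40028210181)))) 
(.lf (nat_lit 202014734) (dlOf (nat_lit 2) (nat_lit 0x1015403b54040020002001000080d0882)))) 
(.nd (nat_lit 8) (.lf (nat_lit 48922638) (dlOf (nat_lit 1) (nat_lit 0x160029450201))) 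
(.lf (nat_lit 36341006) (dlOf (nat_lit 1) (nat_lit 0x80080004002007a0009073003))))) 
(.nd (nat_lit 11) (.nd (nat_lit 7) 
(.lf (nat_lit 6378127886) (dlOf (nat_lit 1) (nat_lit 0x20028117b01))) 
(.lf (nat_lit 20616846) (dlOf (nat_lit 1) (nat_lit 0x4002000200089d9e82)))) (.nd (nat_lit 21) 
(.lf (nat_lit 738888206) (dlOf (nat_lit 1) (nat_lit 0x400400020018125082))) 
(.lf (nat_lit 57313806) (dlOf (nat_lit 1) (nat_lit 0x80019795081))))))) (.nd (nat_lit 29) 
(.nd (nat_lit 28) (.nd (nat_lit 24) (.nd (nat_lit 9) (.nd (nat_lit 26) 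
(.lf (nat_lit 6442876942) (dlOf (nat_lit 1) (nat_lit 0x4004000200081f0682))) 
(.lf (nat_lit 3288760334) (dlOf (nat_lit 1) (nat_lit 0x2c004006400080e0082)))) 
(.lf (nat_lit 201753102) (dlOf (nat_lit 3) (nat_lit 0x19c062000da0200ea0310006a018090d80)))) 
(.nd (nat_lit 7) (.lf (nat_lit 22970382) (dlOf (nat_lit 1) (nat_lit 0x20028b40181))) 
(.nd (nat_lit 9) (.lf (nat_lit 21397646) (dlOf (nat_lit 1) (nat_lit 0x60018a31001))) 
(.lf (nat_lit 20354702) (dlOf (nat_lit 1) (nat_lit 0x4002000200089d9e82)))))) (.nd (nat_lit 7) 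
(.nd (nat_lit 8) (.nd (nat_lit 20) 
(.lf (nat_lit 5838897166) (dlOf (nat_lit 1) (nat_lit 0x4004000200081f0682))) 
(.lf (nat_lit 1343651854) (dlOf (nat_lit 2) (nat_lit 0x9047002cb80801680080074002003a00082d0283)))) 
(.lf (nat_lit 1344701710) (dlOf (nat_lit 1) (nat_lit 0x20028983001)))) (.nd (nat_lit 11) 
(.lf (nat_lit 5772312974) (dlOf (nat_lit 3) (nat_lit 0x982620016002005c12f0004e018091000))) 
(.lf (nat_lit 3490089358) (dlOf (nat_lit 1) (nat_lit 0x400200020008004e82)))))) (.nd (nat_lit 26) 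
(.nd (nat_lit 8) (.nd (nat_lit 9) (.nd (nat_lit 28) 
(.lf (nat_lit 3758522382) (dlOf (nat_lit 2) (nat_lit 0xe03900310170002301001f000801d4002001a0008260183))) 
(.lf (nat_lit 4026957838) (dlOf (nat_lit 1) (nat_lit 0x2c004006400080e0082)))) 
(.lf (nat_lit 537821710) (dlOf (nat_lit 1) (nat_lit 0x2600281b0d81)))) (.nd (nat_lit 10) 
(.lf (nat_lit 805732622) (dlOf (nat_lit 1) (nat_lit 0x1000181a0481))) 
(.lf (nat_lit 1880524046) (dlOf (nat_lit 1) (nat_lit 0x200089e3001))))) (.nd (nat_lit 27) 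
(.nd (nat_lit 8) (.nd (nat_lit 9) 
(.lf (nat_lit 3020324878) (dlOf (nat_lit 1) (nat_lit 0x1a0008250201))) 
(.lf (nat_lit 2752414222) (dlOf (nat_lit 9) (nat_lit 0x4f8920009780402c0490004bb02014a2480025d01009f1240012c40805d892000960040224490004a70201382480025301008c12400129408006000800a400200400008018403)))) 
(.lf (nat_lit 1678147854) (dlOf (nat_lit 2) (nat_lit 0x1b00b400138040014002000e00081a0482)))) 
(.nd (nat_lit 7) (.nd (nat_lit 9) 
(.lf (nat_lit 4228284430) (dlOf (nat_lit 1) (nat_lit 0x10008000400200020008090003))) 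
(.lf (nat_lit 2886107662) (dlOf (nat_lit 2) (nat_lit 0xb803e0025d018158400)))) 
(.lf (nat_lit 738623886) (dlOf (nat_lit 1) (nat_lit 0x380080090002003000080c5d83))))))))) 
(.nd (nat_lit 17) (.nd (nat_lit 18) (.nd (nat_lit 28) (.nd (nat_lit 21) (.nd (nat_lit 7) 
(.nd (nat_lit 26) (.nd (nat_lit 19) 
(.lf (nat_lit 17924110) (dlOf (nat_lit 1) (nat_lit 0x40018900a01))) 
(.lf (nat_lit 2819194894) (dlOf (nat_lit 1) (nat_lit 0xe800281e0281)))) (.nd (nat_lit 10) 
(.lf (nat_lit 1140949006) (dlOf (nat_lit 1) (nat_lit 0xde0008020001))) 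
(.lf (nat_lit 1275167758) (dlOf (nat_lit 1) (nat_lit 0x3000400120008092882))))) (.nd (nat_lit 8) 
(.nd (nat_lit 9) (.lf (nat_lit 105614) (dlOf (nat_lit 1) (nat_lit 0x40040002000800c202))) 
(.lf (nat_lit 3355542158) (dlOf (nat_lit 1) (nat_lit 0x200280a1a81)))) (.nd (nat_lit 19) 
(.lf (nat_lit 54627214) (dlOf (nat_lit 1) (nat_lit 0xc00400100009655c82))) 
(.lf (nat_lit 60394382) (dlOf (nat_lit 1) (nat_lit 0x20002001c0009845c82)))))) (.nd (nat_lit 19) 
(.nd (nat_lit 8) (.nd (nat_lit 9) 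
(.lf (nat_lit 23166990) (dlOf (nat_lit 1) (nat_lit 0x80080008002000a0008b60503))) 
(.lf (nat_lit 39946766) (dlOf (nat_lit 1) (nat_lit 0x200291f5081)))) (.nd (nat_lit 20) 
(.lf (nat_lit 60917006) (dlOf (nat_lit 1) (nat_lit 0x1400298c3001))) 
(.lf (nat_lit 36799758) (dlOf (nat_lit 1) (nat_lit 0x10002000e0009073002))))) (.nd (nat_lit 20) 
(.nd (nat_lit 23) (.lf (nat_lit 2754183182) (dlOf (nat_lit 2) (nat_lit 0x421fc001fa0180c0800))) 
(.nd (nat_lit 24) (.lf (nat_lit 11108366) (dlOf (nat_lit 2) (nat_lit 0x8f2600022818660180))) 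
(.lf (nat_lit 27885582) (dlOf (nat_lit 1) (nat_lit 0x40008d40181))))) (.nd (nat_lit 23) 
(.lf (nat_lit 24739854) (dlOf (nat_lit 1) (nat_lit 0x320008bb0081))) 
(.lf (nat_lit 16351246) (dlOf (nat_lit 2) (nat_lit 0x4ad4000a56800052ac80017c180018008001c00200120008890203))))))) 
(.nd (nat_lit 8) (.nd (nat_lit 26) (.nd (nat_lit 27) (.nd (nat_lit 7) 
(.lf (nat_lit 3492380686) (dlOf (nat_lit 2) (nat_lit 0x421ea004c70180c0800))) 
(.lf (nat_lit 1342282382) (dlOf (nat_lit 1) (nat_lit 0x4000800380020008000800b683)))) 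
(.nd (nat_lit 10) (.lf (nat_lit 2013364238) (dlOf (nat_lit 1) (nat_lit 0xde0008020001))) 
(.lf (nat_lit 3087107086) (dlOf (nat_lit 1) (nat_lit 0x400400020008142882))))) (.nd (nat_lit 7) 
(.nd (nat_lit 9) (.lf (nat_lit 2483126286) (dlOf (nat_lit 1) (nat_lit 0xc0008020481))) 
(.lf (nat_lit 6241224206) (dlOf (nat_lit 2) (nat_lit 0xb009800a00080006c08004c00400220018053682)))) 
(.lf (nat_lit 469866638) (dlOf (nat_lit 1) (nat_lit 0x2002800a881))))) (.nd (nat_lit 7) 
(.nd (nat_lit 9) (.lf (nat_lit 1008305422) (dlOf (nat_lit 1) (nat_lit 0x60018b53001))) 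
(.nd (nat_lit 10) (.lf (nat_lit 4563503886) (dlOf (nat_lit 1) (nat_lit 0x3c0008095b01))) 
(.lf (nat_lit 1342281486) (dlOf (nat_lit 1) (nat_lit 0xa002800a001))))) (.nd (nat_lit 9) 
(.lf (nat_lit 5301698958) (dlOf (nat_lit 1) (nat_lit 0x20028035d81))) 
(.lf (nat_lit 4563504014) (dlOf (nat_lit 1) (nat_lit 0x20028095c81))))))) (.nd (nat_lit 21) 
(.nd (nat_lit 31) (.nd (nat_lit 7) (.nd (nat_lit 24) (.nd (nat_lit 26) 
(.lf (nat_lit 537231374) (dlOf (nat_lit 1) (nat_lit 0xc00400080018060482))) 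
(.lf (nat_lit 1409646606) (dlOf (nat_lit 1) (nat_lit 0xc00400080018060482)))) (.nd (nat_lit 8) 
(.lf (nat_lit 22904846) (dlOf (nat_lit 2) (nat_lit 0x31a900014d4600021828b40180))) 
(.lf (nat_lit 59081998) (dlOf (nat_lit 1) (nat_lit 0x800297e3001))))) (.nd (nat_lit 8) 
(.nd (nat_lit 9) (.lf (nat_lit 8754318) (dlOf (nat_lit 1) (nat_lit 0x20028519501))) 
(.lf (nat_lit 8754830) (dlOf (nat_lit 1) (nat_lit 0x400400020018519e82)))) 
(.lf (nat_lit 21332366) (dlOf (nat_lit 1) (nat_lit 0x400200020008a35d82))))) (.nd (nat_lit 26) 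
(.nd (nat_lit 22) (.nd (nat_lit 27) 
(.lf (nat_lit 3221585934) (dlOf (nat_lit 4) (nat_lit 0x808e0163202000603800a82810007023000000080348008042c002027e0008150503))) 
(.lf (nat_lit 3355803662) (dlOf (nat_lit 4) (nat_lit 0x2e0310002281001700900010c080060048000700400a0004003e0008120182)))) 
(.lf (nat_lit 3494215694) (dlOf (nat_lit 2) (nat_lit 0x4814c00240a2000e05000070270002811400000140070002000c00081d0402)))) 
(.nd (nat_lit 27) (.nd (nat_lit 8) 
(.lf (nat_lit 2756018190) (dlOf (nat_lit 2) (nat_lit 0x4814c00240a2000e05000070270002811400000140070002000c00081d0402))) 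
(.lf (nat_lit 4094528270) (dlOf (nat_lit 2) (nat_lit 0x10438000c40800c0008004800200020008055b03)))) 
(.nd (nat_lit 28) 
(.lf (nat_lit 3959783438) (dlOf (nat_lit 4) (nat_lit 0xc0700167402000404700a63810007023000000080348008042c002027e0008150503))) 
(.lf (nat_lit 2617606158) (dlOf (nat_lit 17) (nat_lit 0xa00b80009e04024805e000402e0002702005d017800880b80009a08005805e0004c02003202e0002381002d0170001180804b00b80068052008e0110002283006a0178001100805180bc0008604015805e001e02e000210200030178001000800900b80007c040068060013402f0023017000700480007010005005e0003502009202f00019010064017800000080318008001c00200080008100183))))))) 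
(.nd (nat_lit 8) (.nd (nat_lit 19) (.nd (nat_lit 7) (.nd (nat_lit 20) 
(.lf (nat_lit 6651918) (dlOf (nat_lit 1) (nat_lit 0x500018440a01))) 
(.lf (nat_lit 24477710) (dlOf (nat_lit 3) (nat_lit 0x65e780001408001af3c008161a000000400400028ba0401)))) 
(.lf (nat_lit 3506318) (dlOf (nat_lit 1) (nat_lit 0x400200020008200102)))) (.nd (nat_lit 7) 
(.nd (nat_lit 20) (.lf (nat_lit 4096622606) (dlOf (nat_lit 1) (nat_lit 0x560008140a01))) 
(.lf (nat_lit 29196302) (dlOf (nat_lit 1) (nat_lit 0x8008000400200020008dd0a03)))) 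
(.lf (nat_lit 12419214) (dlOf (nat_lit 1) (nat_lit 0x3e00086c0101))))) (.nd (nat_lit 7) 
(.nd (nat_lit 9) (.lf (nat_lit 32343310) (dlOf (nat_lit 1) (nat_lit 0x1a0018ef3001))) 
(.nd (nat_lit 23) 
(.lf (nat_lit 54364942) (dlOf (nat_lit 3) (nat_lit 0x5119c0006404001c8ce0003102004e0019655b01))) 
(.lf (nat_lit 45976334) (dlOf (nat_lit 1) (nat_lit 0x40029385b01))))) (.nd (nat_lit 9) 
(.lf (nat_lit 36538766) (dlOf (nat_lit 1) (nat_lit 0x400200180009074e82))) 
(.lf (nat_lit 54365070) (dlOf (nat_lit 1) (nat_lit 0x20019655c81)))))))) (.nd (nat_lit 29) 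
(.nd (nat_lit 21) (.nd (nat_lit 27) (.nd (nat_lit 25) (.nd (nat_lit 26) (.nd (nat_lit 20) 
(.lf (nat_lit 1342406670) (dlOf (nat_lit 4) (nat_lit 0x9c1cd000ef8100a30e6800774080670734002f604000c00200160008020482))) 
(.lf (nat_lit 3490938894) (dlOf (nat_lit 1) (nat_lit 0x40008005c002005e0008030883)))) 
(.nd (nat_lit 18) (.nd (nat_lit 19) 
(.lf (nat_lit 4362305550) (dlOf (nat_lit 1) (nat_lit 0x10c002003a0008020482))) 
(.lf (nat_lit 3557523470) (dlOf (nat_lit 2) (nat_lit 0xa81180151204005c00400240008240282)))) 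
(.lf (nat_lit 6510051342) (dlOf (nat_lit 3) (nat_lit 0x1809801b8404002c04c001801e000500b803624180020008002800200180008190a03))))) 
(.nd (nat_lit 7) (.lf (nat_lit 51085838) (dlOf (nat_lit 1) (nat_lit 0x200294f7b01))) 
(.nd (nat_lit 18) (.lf (nat_lit 58952078) (dlOf (nat_lit 1) (nat_lit 0x200197e4e81))) 
(.lf (nat_lit 38242702) (dlOf (nat_lit 1) (nat_lit 0x20009134e81)))))) (.nd (nat_lit 30) 
(.nd (nat_lit 9) (.nd (nat_lit 26) 
(.lf (nat_lit 134447118) (dlOf (nat_lit 3) (nat_lit 0x2c00bc003500400a005e001a70200060018020481))) 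
(.lf (nat_lit 469991438) (dlOf (nat_lit 6) (nat_lit 0xc01cd0009001006f0e68004780802f07340023804000c39a0011b0200181cd0008c018020480)))) 
(.nd (nat_lit 10) (.lf (nat_lit 134709774) (dlOf (nat_lit 1) (nat_lit 0x20018090d81))) 
(.lf (nat_lit 474187278) (dlOf (nat_lit 3) (nat_lit 0x82e40005e0200101720002d8190e3680))))) 
(.nd (nat_lit 8) (.nd (nat_lit 26) 
(.lf (nat_lit 1476624398) (dlOf (nat_lit 3) (nat_lit 0x22017000ef81002d00b80072c0800c800800dc002009000080a0483))) 
(.lf (nat_lit 3691216910) (dlOf (nat_lit 3) (nat_lit 0xa01d000dd0100100000000000800c00080280002027600080a0483)))) 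
(.nd (nat_lit 7) (.lf (nat_lit 3355672846) (dlOf (nat_lit 1) (nat_lit 0x200280b4881))) 
(.lf (nat_lit 1476888974) (dlOf (nat_lit 1) (nat_lit 0x80080004002000200082d4e83))))))) 
(.nd (nat_lit 8) (.nd (nat_lit 9) (.nd (nat_lit 18) (.nd (nat_lit 10) 
(.lf (nat_lit 24870926) (dlOf (nat_lit 1) (nat_lit 0x400400020008bc0682))) 
(.lf (nat_lit 36406286) (dlOf (nat_lit 1) (nat_lit 0x20019072881)))) (.nd (nat_lit 7) 
(.lf (nat_lit 24608782) (dlOf (nat_lit 2) (nat_lit 0x25e7800014080028008004400200140008ba0403))) 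
(.lf (nat_lit 24084622) (dlOf (nat_lit 1) (nat_lit 0x3e0008b80101))))) (.nd (nat_lit 7) 
(.nd (nat_lit 18) (.lf (nat_lit 57903630) (dlOf (nat_lit 1) (nat_lit 0x3f4004023e0009795082))) 
(.lf (nat_lit 57117198) (dlOf (nat_lit 1) (nat_lit 0x10008007c002006c0009795083)))) 
(.lf (nat_lit 20158094) (dlOf (nat_lit 1) (nat_lit 0x200289d9e81))))) (.nd (nat_lit 18) 
(.nd (nat_lit 7) (.lf (nat_lit 58426638) (dlOf (nat_lit 1) (nat_lit 0x4002000200097e3002))) 
(.nd (nat_lit 10) (.lf (nat_lit 8094094) (dlOf (nat_lit 1) (nat_lit 0x400200020008511002))) 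
(.lf (nat_lit 8095118) (dlOf (nat_lit 1) (nat_lit 0x8008000400200020008513603))))) (.nd (nat_lit 9) 
(.nd (nat_lit 11) (.lf (nat_lit 36668686) (dlOf (nat_lit 1) (nat_lit 0x800200060009073002))) 
(.lf (nat_lit 19893518) (dlOf (nat_lit 1) (nat_lit 0x4004000200089d6682)))) 
(.lf (nat_lit 8361742) (dlOf (nat_lit 1) (nat_lit 0x2000851a001))))))) (.nd (nat_lit 26) 
(.nd (nat_lit 9) (.nd (nat_lit 18) (.nd (nat_lit 8) 
(.lf (nat_lit 5905811470) (dlOf (nat_lit 1) (nat_lit 0x400200020008144702))) 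
(.lf (nat_lit 1880327438) (dlOf (nat_lit 1) (nat_lit 0x20028863001)))) (.nd (nat_lit 27) 
(.lf (nat_lit 5906071566) (dlOf (nat_lit 3) (nat_lit 0x180940123204002c04a001801e000500b802394180020008002800200180008190a03))) 
(.lf (nat_lit 2819063822) (dlOf (nat_lit 1) (nat_lit 0xc0018190281))))) (.nd (nat_lit 27) 
(.nd (nat_lit 8) (.nd (nat_lit 28) 
(.lf (nat_lit 537100814) (dlOf (nat_lit 6) (nat_lit 0x900be0049f02002c05f0024f01000c02f80125408004017c009280400900be004930200040018018401))) 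
(.lf (nat_lit 4026761742) (dlOf (nat_lit 1) (nat_lit 0x20018090d81)))) 
(.lf (nat_lit 5100505870) (dlOf (nat_lit 1) (nat_lit 0x200080d5b01)))) (.nd (nat_lit 28) 
(.lf (nat_lit 671318542) (dlOf (nat_lit 8) (nat_lit 0x2a013001000740028030004c606006a026000701180138074005403000140100009002800200080098a1c00cc04c000c023002500e800b806000300200022005000a0010008000000988200008046003e01d001e00c000400140096210005803a001e018000b0028012c018003008c00a403a0042018000700280129c20001808c009403a00280180001002801298200140008002c00200020008158403))) 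
(.lf (nat_lit 3087237646) (dlOf (nat_lit 12) (nat_lit 0x5d8088029003e027e01b001f00380131820038806c007000e004c50400e201b001d00380131010030802c0014000004bc0400cc00b00040000012ec10033802c0020012000c0000025d03005c0058012c40801a002c00960040150016004a70200a600b0025301002c0058012940803c8008001000200080008158403)))))) 
(.nd (nat_lit 27) (.nd (nat_lit 18) (.nd (nat_lit 10) (.nd (nat_lit 20) 
(.lf (nat_lit 4899176462) (dlOf (nat_lit 1) (nat_lit 0x180080004002000600080d0003))) 
(.lf (nat_lit 2752741390) (dlOf (nat_lit 1) (nat_lit 0x40008005c002005e0008030883)))) 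
(.lf (nat_lit 2751693838) (dlOf (nat_lit 1) (nat_lit 0x20008002881)))) (.nd (nat_lit 9) 
(.lf (nat_lit 2755100686) (dlOf (nat_lit 4) (nat_lit 0x10200004807400176080008080000a01d0005c82000800e8002d4080078008002c00200340008110483))) 
(.lf (nat_lit 2752479758) (dlOf (nat_lit 14) (nat_lit 0x28e2480025e01014d1240012ec0809c0920009740404e0490004b10202622480025801013312400129c080a089200094c04038c490004a502004224c001d12280127c1000389300093c0402104980049502010824c0024a01008312600124c080518008027000200d60008018403))))) 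
(.nd (nat_lit 19) (.nd (nat_lit 28) 
(.lf (nat_lit 1812168718) (dlOf (nat_lit 3) (nat_lit 0xe00b0007004800400080018000001df08000600b00300020000001000180080068002002a0008160483))) 
(.lf (nat_lit 4228087822) (dlOf (nat_lit 1) (nat_lit 0x10c002003a0008020482)))) 
(.lf (nat_lit 3154870286) (dlOf (nat_lit 1) (nat_lit 0x20028360181)))))))))) (.nd (nat_lit 17) 
(.nd (nat_lit 16) (.nd (nat_lit 8) (.nd (nat_lit 18) (.nd (nat_lit 7) (.nd (nat_lit 26) 
(.nd (nat_lit 9) (.nd (nat_lit 15) (.nd (nat_lit 10) 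
(.lf (nat_lit 42991694) (dlOf (nat_lit 1) (nat_lit 0xe00192a0001))) 
(.lf (nat_lit 2952795214) (dlOf (nat_lit 1) (nat_lit 0xb8008004000200340008009303)))) 
(.nd (nat_lit 20) 
(.lf (nat_lit 3492315214) (dlOf (nat_lit 8) (nat_lit 0xe1fd002c0f400009c1001487a00004c0401043fa00d21e800420af8000853c009827000241370001206003d0fe803287a0010c2be002614f003109e001584e000c426e000230e00e81e8000110100950fe800018080ba87f406943d0031e15e00900ae0000002001300080064002022600080c1503))) 
(.lf (nat_lit 56131662) (dlOf (nat_lit 1) (nat_lit 0x2420019730001))))) (.nd (nat_lit 10) 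
(.nd (nat_lit 11) 
(.lf (nat_lit 1342214734) (dlOf (nat_lit 1) (nat_lit 0x8008002000200020008008983))) 
(.nd (nat_lit 19) (.lf (nat_lit 41945678) (dlOf (nat_lit 1) (nat_lit 0x400200020009245282))) 
(.lf (nat_lit 54004302) (dlOf (nat_lit 1) (nat_lit 0x200095f5281))))) (.nd (nat_lit 29) 
(.lf (nat_lit 5502928462) (dlOf (nat_lit 1) (nat_lit 0x400400020008003882))) 
(.lf (nat_lit 4966057550) (dlOf (nat_lit 1) (nat_lit 0x400400020008003882)))))) (.nd (nat_lit 10) 
(.nd (nat_lit 15) (.nd (nat_lit 11) (.nd (nat_lit 19) 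
(.lf (nat_lit 68157518) (dlOf (nat_lit 1) (nat_lit 0x80018400701))) 
(.lf (nat_lit 2756182094) (dlOf (nat_lit 2) (nat_lit 0x860420001e818211500)))) 
(.lf (nat_lit 4362082382) (dlOf (nat_lit 1) (nat_lit 0x80040004000800a702)))) (.nd (nat_lit 21) 
(.lf (nat_lit 3154673742) (dlOf (nat_lit 2) (nat_lit 0xb0160002c80800d0008000400200020008310183))) 
(.lf (nat_lit 2754117710) (dlOf (nat_lit 3) (nat_lit 0x10fc8000b80800587e400058040014002003800080c1902))))) 
(.nd (nat_lit 11) (.nd (nat_lit 27) 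
(.lf (nat_lit 4630513230) (dlOf (nat_lit 1) (nat_lit 0x400400020008003882))) 
(.lf (nat_lit 6106908238) (dlOf (nat_lit 1) (nat_lit 0x400400020008003882)))) (.nd (nat_lit 9) 
(.lf (nat_lit 2885684302) (dlOf (nat_lit 1) (nat_lit 0x20028006081))) 
(.lf (nat_lit 3959426638) (dlOf (nat_lit 1) (nat_lit 0x60018007181))))))) (.nd (nat_lit 27) 
(.nd (nat_lit 10) (.nd (nat_lit 9) (.nd (nat_lit 26) 
(.lf (nat_lit 1074299086) (dlOf (nat_lit 5) (nat_lit 0x1a000000f301000500000078c0802c00f40058000001cd04004c03d001f00000072c1000700080208002007400081b0483))) 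
(.lf (nat_lit 1946714318) (dlOf (nat_lit 5) (nat_lit 0x1a000000f301000500000078c0802c00f80058000001cd04004c03e001f00000072c1000700080208002007400081b0483)))) 
(.nd (nat_lit 12) (.lf (nat_lit 40372942) (dlOf (nat_lit 1) (nat_lit 0x4004000200091f5882))) 
(.lf (nat_lit 603986638) (dlOf (nat_lit 1) (nat_lit 0x288008012c00200a6000800b983))))) 
(.nd (nat_lit 28) (.nd (nat_lit 9) 
(.lf (nat_lit 2684359886) (dlOf (nat_lit 1) (nat_lit 0x400400020018009502))) (.nd (nat_lit 29) 
(.lf (nat_lit 1073743566) (dlOf (nat_lit 1) (nat_lit 0x8008000400200020008003a83))) 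
(.lf (nat_lit 536872654) (dlOf (nat_lit 1) (nat_lit 0x400400020008003a82))))) (.nd (nat_lit 29) 
(.lf (nat_lit 2415920846) (dlOf (nat_lit 1) (nat_lit 0x400400020008003a82))) 
(.lf (nat_lit 4026533582) (dlOf (nat_lit 1) (nat_lit 0x400400020008003a82)))))) (.nd (nat_lit 9) 
(.nd (nat_lit 12) 
(.lf (nat_lit 134253774) (dlOf (nat_lit 4) (nat_lit 0x200000019010008000000034080060000000180400c000400480008006402))) 
(.nd (nat_lit 15) 
(.lf (nat_lit 134225102) (dlOf (nat_lit 1) (nat_lit 0x680080030002000c000800c283))) 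
(.lf (nat_lit 134257870) (dlOf (nat_lit 2) (nat_lit 0x8403b0004381800c280))))) (.nd (nat_lit 31) 
(.nd (nat_lit 28) 
(.lf (nat_lit 201328334) (dlOf (nat_lit 1) (nat_lit 0x8008005800200180008003a83))) 
(.lf (nat_lit 469763790) (dlOf (nat_lit 1) (nat_lit 0x400400020008003a82)))) (.nd (nat_lit 15) 
(.lf (nat_lit 2348811982) (dlOf (nat_lit 1) (nat_lit 0x400400020008003a82))) 
(.lf (nat_lit 2348844750) (dlOf (nat_lit 2) (nat_lit 0x401400036c080028008001000200060008003a83)))))))) 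
(.nd (nat_lit 19) (.nd (nat_lit 26) (.nd (nat_lit 7) (.nd (nat_lit 27) (.nd (nat_lit 9) 
(.lf (nat_lit 29655118) (dlOf (nat_lit 1) (nat_lit 0x8004000c0018e30182))) 
(.lf (nat_lit 36997710) (dlOf (nat_lit 2) (nat_lit 0x1d52c000054080018008000c00200060009075283)))) 
(.nd (nat_lit 15) 
(.lf (nat_lit 402915406) (dlOf (nat_lit 1) (nat_lit 0x8008000c002000400080a1703))) 
(.nd (nat_lit 28) (.lf (nat_lit 1208254542) (dlOf (nat_lit 1) (nat_lit 0x4004000200080b0682))) 
(.lf (nat_lit 402948174) (dlOf (nat_lit 2) (nat_lit 0x4803400060040074002001e00080b0682)))))) 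
(.nd (nat_lit 9) (.nd (nat_lit 20) 
(.lf (nat_lit 3494117582) (dlOf (nat_lit 2) (nat_lit 0x1506400038a040004002000400081b0482))) 
(.lf (nat_lit 3408078) (dlOf (nat_lit 2) (nat_lit 0x2251100123818200480)))) (.nd (nat_lit 15) 
(.lf (nat_lit 20189902) (dlOf (nat_lit 1) (nat_lit 0x4002000200089d8c82))) 
(.lf (nat_lit 20222670) (dlOf (nat_lit 1) (nat_lit 0x4002000200089d8c82)))))) (.nd (nat_lit 27) 
(.nd (nat_lit 15) 
(.lf (nat_lit 1409548366) (dlOf (nat_lit 1) (nat_lit 0x78008002c00200200008020903))) 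
(.nd (nat_lit 28) (.lf (nat_lit 67403854) (dlOf (nat_lit 1) (nat_lit 0x800180f0701))) 
(.nd (nat_lit 29) 
(.lf (nat_lit 335839310) (dlOf (nat_lit 2) (nat_lit 0x4803400060040074002001e00080b0682))) 
(.lf (nat_lit 3020193870) (dlOf (nat_lit 12) (nat_lit 0x27e0310001301022c018801180b0047804a0002506005c031000120101c3018802b00940004608006c0620002202025a0310001001001b018800060082a480000000804156800000002020346000000008100e5018800080b003c404a039201e003000082a380000000018193800211b80008150702)))))) 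
(.nd (nat_lit 7) (.lf (nat_lit 2080669774) (dlOf (nat_lit 1) (nat_lit 0x4004000200080b0682))) 
(.nd (nat_lit 15) (.lf (nat_lit 6377704142) (dlOf (nat_lit 1) (nat_lit 0x200280e5881))) 
(.lf (nat_lit 6377736910) (dlOf (nat_lit 1) (nat_lit 0x4002000200080e5882))))))) (.nd (nat_lit 15) 
(.nd (nat_lit 20) (.nd (nat_lit 21) 
(.lf (nat_lit 5772148814) (dlOf (nat_lit 1) (nat_lit 0x1a0018090001))) (.nd (nat_lit 26) 
(.lf (nat_lit 3492544590) (dlOf (nat_lit 2) (nat_lit 0x550000000ac040084002001800080d0d02))) 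
(.lf (nat_lit 2754347086) (dlOf (nat_lit 2) (nat_lit 0x5500000009e040084002001800080d0d02))))) 
(.nd (nat_lit 23) (.nd (nat_lit 26) 
(.lf (nat_lit 5773197390) (dlOf (nat_lit 3) (nat_lit 0x1e1300002b01000509880004c08005800800a8002001e00080b0683))) 
(.lf (nat_lit 6377177166) (dlOf (nat_lit 3) (nat_lit 0x1e1210002b01000509100004c08005800800a8002001e00080b0683)))) 
(.lf (nat_lit 10223694) (dlOf (nat_lit 1) (nat_lit 0x4002000200085c0f82))))) (.nd (nat_lit 20) 
(.nd (nat_lit 9) (.nd (nat_lit 26) 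
(.lf (nat_lit 1342996558) (dlOf (nat_lit 1) (nat_lit 0xa0028130d01))) 
(.lf (nat_lit 470581326) (dlOf (nat_lit 1) (nat_lit 0xa0028130d01)))) 
(.lf (nat_lit 36473422) (dlOf (nat_lit 1) (nat_lit 0x400400020009075282)))) (.nd (nat_lit 21) 
(.nd (nat_lit 26) (.lf (nat_lit 5773230158) (dlOf (nat_lit 1) (nat_lit 0x200180b0681))) 
(.lf (nat_lit 6377209934) (dlOf (nat_lit 1) (nat_lit 0x200180b0681)))) (.nd (nat_lit 9) 
(.lf (nat_lit 3965006) (dlOf (nat_lit 1) (nat_lit 0x400200040008261502))) 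
(.lf (nat_lit 33327694) (dlOf (nat_lit 1) (nat_lit 0x400400020008f55282))))))))) (.nd (nat_lit 11) 
(.nd (nat_lit 26) (.nd (nat_lit 15) (.nd (nat_lit 29) (.nd (nat_lit 18) (.nd (nat_lit 7) 
(.nd (nat_lit 20) 
(.lf (nat_lit 1346371918) (dlOf (nat_lit 1) (nat_lit 0x8008000400200020008f60d03))) 
(.lf (nat_lit 3490709838) (dlOf (nat_lit 1) (nat_lit 0x8400200060008014c82)))) 
(.lf (nat_lit 1342702030) (dlOf (nat_lit 1) (nat_lit 0x6580080458002006c00080c0a03)))) 
(.nd (nat_lit 20) 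
(.lf (nat_lit 2359630) (dlOf (nat_lit 2) (nat_lit 0x1b05c00094fc0004a6d00019838150600))) 
(.lf (nat_lit 22282574) (dlOf (nat_lit 1) (nat_lit 0xc0028ab8101))))) (.nd (nat_lit 7) 
(.nd (nat_lit 9) 
(.lf (nat_lit 2013266254) (dlOf (nat_lit 3) (nat_lit 0x200980003a04004c04c0001a0200060018000d01))) 
(.lf (nat_lit 4026533710) (dlOf (nat_lit 1) (nat_lit 0xa800400040008003e82)))) 
(.lf (nat_lit 4026533838) (dlOf (nat_lit 1) (nat_lit 0x1c0028004481))))) (.nd (nat_lit 20) 
(.nd (nat_lit 7) (.lf (nat_lit 40666446) (dlOf (nat_lit 1) (nat_lit 0x8004000200091f3302))) 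
(.nd (nat_lit 9) (.lf (nat_lit 50889166) (dlOf (nat_lit 1) (nat_lit 0x200194d7b01))) 
(.lf (nat_lit 36471758) (dlOf (nat_lit 2) (nat_lit 0xc67c00274819072880))))) (.nd (nat_lit 10) 
(.nd (nat_lit 19) 
(.lf (nat_lit 3440974) (dlOf (nat_lit 2) (nat_lit 0x83a28000c808004800800b0002000a0008200603))) 
(.lf (nat_lit 54296910) (dlOf (nat_lit 1) (nat_lit 0x60029650d01)))) 
(.lf (nat_lit 20485454) (dlOf (nat_lit 1) (nat_lit 0x400289d9901)))))) (.nd (nat_lit 7) 
(.nd (nat_lit 9) (.nd (nat_lit 10) 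
(.lf (nat_lit 2752512334) (dlOf (nat_lit 1) (nat_lit 0x8400200060008014c82))) (.nd (nat_lit 18) 
(.lf (nat_lit 604505422) (dlOf (nat_lit 1) (nat_lit 0x4004000200182d3302))) 
(.lf (nat_lit 1275331918) (dlOf (nat_lit 1) (nat_lit 0x4004000200080e3302))))) (.nd (nat_lit 15) 
(.lf (nat_lit 3557037902) (dlOf (nat_lit 2) (nat_lit 0x540000001802001a000812a201))) 
(.lf (nat_lit 67147598) (dlOf (nat_lit 1) (nat_lit 0x6001800a201))))) (.nd (nat_lit 19) 
(.nd (nat_lit 10) 
(.lf (nat_lit 6375343054) (dlOf (nat_lit 2) (nat_lit 0x204d000e8a04009000400080008002882))) 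
(.nd (nat_lit 15) (.lf (nat_lit 201328590) (dlOf (nat_lit 1) (nat_lit 0x1800200020008004482))) 
(.lf (nat_lit 2751760334) (dlOf (nat_lit 6) (nat_lit 0x4810c000110200180860000801001204300003c080018224000c1100000e0400200890010044000034100170008003c00200200008004483))))) 
(.nd (nat_lit 9) (.nd (nat_lit 15) 
(.lf (nat_lit 470286798) (dlOf (nat_lit 1) (nat_lit 0x6580080458002006c00080c0a03))) 
(.lf (nat_lit 4094198222) (dlOf (nat_lit 2) (nat_lit 0x20230010b818017b00)))) 
(.lf (nat_lit 69993422) (dlOf (nat_lit 1) (nat_lit 0xc00400060008e62882))))))) (.nd (nat_lit 10) 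
(.nd (nat_lit 15) (.nd (nat_lit 26) (.nd (nat_lit 9) (.nd (nat_lit 18) 
(.lf (nat_lit 1881147854) (dlOf (nat_lit 1) (nat_lit 0x800400040008e24e82))) 
(.lf (nat_lit 36440526) (dlOf (nat_lit 1) (nat_lit 0x20019074e81)))) (.nd (nat_lit 28) 
(.lf (nat_lit 5368712142) (dlOf (nat_lit 1) (nat_lit 0x40028005d81))) 
(.lf (nat_lit 6710889422) (dlOf (nat_lit 1) (nat_lit 0x40028005d81))))) (.nd (nat_lit 7) 
(.lf (nat_lit 4227865422) (dlOf (nat_lit 1) (nat_lit 0x4800800080020006000800bc83))) 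
(.nd (nat_lit 18) (.lf (nat_lit 4764732366) (dlOf (nat_lit 1) (nat_lit 0x20028005d81))) 
(.lf (nat_lit 4496559054) (dlOf (nat_lit 1) (nat_lit 0x8004000200080e5d82)))))) (.nd (nat_lit 26) 
(.nd (nat_lit 7) (.lf (nat_lit 5368744782) (dlOf (nat_lit 1) (nat_lit 0x20018005c01))) 
(.nd (nat_lit 28) 
(.lf (nat_lit 5368744910) (dlOf (nat_lit 5) (nat_lit 0x82015004300a001c804c011400a0002208007e015004300a001c804c012c00a0000a0800e6015008d00a003f004c001c02200006080082015004400a0020804c00040220028005002e000800000300010008006000200100008005d83))) 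
(.lf (nat_lit 6710922190) (dlOf (nat_lit 5) (nat_lit 0x240050000360400ac02c0056015003f00a00178014000321000b002c0058015003000280004818013805800a002a003e014002b002800000200020008002800200460008005d83))))) 
(.nd (nat_lit 7) (.lf (nat_lit 201365838) (dlOf (nat_lit 2) (nat_lit 0x203d000de81800ab80))) 
(.nd (nat_lit 9) (.lf (nat_lit 68717006) (dlOf (nat_lit 1) (nat_lit 0x20018724e81))) 
(.lf (nat_lit 4764765134) (dlOf (nat_lit 3) (nat_lit 0xe016000300a80098050003000a0002e08001001400020020000001000300080028002001e0008005d83))))))) 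
(.nd (nat_lit 26) (.nd (nat_lit 27) (.nd (nat_lit 28) 
(.lf (nat_lit 4294970702) (dlOf (nat_lit 1) (nat_lit 0x400400020008006a02))) (.nd (nat_lit 29) 
(.lf (nat_lit 1342180686) (dlOf (nat_lit 1) (nat_lit 0x400400020008006a02))) 
(.lf (nat_lit 1879051598) (dlOf (nat_lit 1) (nat_lit 0x400400020008006a02))))) (.nd (nat_lit 7) 
(.nd (nat_lit 12) (.nd (nat_lit 28) 
(.lf (nat_lit 134221134) (dlOf (nat_lit 1) (nat_lit 0x8008000400200020008006a03))) 
(.lf (nat_lit 2550140238) (dlOf (nat_lit 1) (nat_lit 0x400400020008006a02)))) 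
(.lf (nat_lit 134257998) (dlOf (nat_lit 2) (nat_lit 0x1a000000f581800c900)))) 
(.lf (nat_lit 134221262) (dlOf (nat_lit 1) (nat_lit 0x160018006d01))))) (.nd (nat_lit 29) 
(.nd (nat_lit 15) (.nd (nat_lit 28) 
(.lf (nat_lit 3288337742) (dlOf (nat_lit 1) (nat_lit 0x20028006a01))) 
(.lf (nat_lit 2483031374) (dlOf (nat_lit 1) (nat_lit 0x400400020008006a02)))) 
(.lf (nat_lit 2483064142) (dlOf (nat_lit 1) (nat_lit 0x18008000c00200020008006a03)))) 
(.nd (nat_lit 7) (.nd (nat_lit 27) 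
(.lf (nat_lit 1946160462) (dlOf (nat_lit 1) (nat_lit 0x400400020008006a02))) 
(.lf (nat_lit 4227861838) (dlOf (nat_lit 1) (nat_lit 0x400400020008006a02)))) 
(.lf (nat_lit 4227861966) (dlOf (nat_lit 1) (nat_lit 0xe0018006d01))))))))) (.nd (nat_lit 15) 
(.nd (nat_lit 18) (.nd (nat_lit 7) (.nd (nat_lit 30) (.nd (nat_lit 8) (.nd (nat_lit 19) 
(.nd (nat_lit 21) 
(.lf (nat_lit 16842830) (dlOf (nat_lit 3) (nat_lit 0x15c6700060010001e3380021c080070008003c002000200088e0183))) 
(.lf (nat_lit 14745678) (dlOf (nat_lit 1) (nat_lit 0x18002000c0008770702)))) (.nd (nat_lit 22) 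
(.lf (nat_lit 134807630) (dlOf (nat_lit 4) (nat_lit 0x1180310001e81004f0188000f00800580c40000004001c004000800080c1502))) 
(.lf (nat_lit 2756247630) (dlOf (nat_lit 6) (nat_lit 0x1080340082010803dc046022801e0001684035a00f0000b00804c81a00254084012002300a700f003f005c0005614001c04600fa01e00015020007011804e00780005208020000202860008220d02))))) 
(.nd (nat_lit 9) (.nd (nat_lit 27) 
(.lf (nat_lit 4563468622) (dlOf (nat_lit 1) (nat_lit 0x60028090d01))) 
(.lf (nat_lit 3087073614) (dlOf (nat_lit 1) (nat_lit 0x40002000800080b0602)))) (.nd (nat_lit 10) 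
(.lf (nat_lit 19991374) (dlOf (nat_lit 1) (nat_lit 0x4002000200089d5c02))) 
(.lf (nat_lit 671156046) (dlOf (nat_lit 1) (nat_lit 0x20028143e81)))))) (.nd (nat_lit 19) 
(.nd (nat_lit 26) (.nd (nat_lit 29) 
(.lf (nat_lit 1208025422) (dlOf (nat_lit 2) (nat_lit 0x14052000202800010060000681800e8008000400200140008090d03))) 
(.lf (nat_lit 1744896334) (dlOf (nat_lit 2) (nat_lit 0x4401900000018090d00)))) (.nd (nat_lit 10) 
(.lf (nat_lit 3825271118) (dlOf (nat_lit 1) (nat_lit 0x40002000800080b0602))) 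
(.lf (nat_lit 1543572814) (dlOf (nat_lit 2) (nat_lit 0x401d00009818146a00))))) (.nd (nat_lit 8) 
(.nd (nat_lit 20) 
(.lf (nat_lit 3494445134) (dlOf (nat_lit 6) (nat_lit 0x1080340082010803dc046022801e0001604035a00f0000ac0804c81a00254084012002300a700f003f005c0005414001c04600fa01e00014820007011804e00780005008020000202860008220d02))) 
(.lf (nat_lit 1343815758) (dlOf (nat_lit 1) (nat_lit 0x20018370181)))) 
(.lf (nat_lit 4094230862) (dlOf (nat_lit 1) (nat_lit 0x60008028981)))))) (.nd (nat_lit 8) 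
(.nd (nat_lit 9) (.nd (nat_lit 20) (.nd (nat_lit 26) 
(.lf (nat_lit 805372110) (dlOf (nat_lit 2) (nat_lit 0x160290012013c00640700028026001400000091c280298008003c00200560008090483))) 
(.lf (nat_lit 1677787342) (dlOf (nat_lit 2) (nat_lit 0x160290012013c00640700028026001400000091c280298008003c00200560008090483)))) 
(.lf (nat_lit 3211470) (dlOf (nat_lit 3) (nat_lit 0x677e0014294800a14840050a12002470800268da00121818200480)))) 
(.lf (nat_lit 671155918) (dlOf (nat_lit 1) (nat_lit 0x800400020008143a82)))) (.nd (nat_lit 9) 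
(.nd (nat_lit 10) 
(.lf (nat_lit 50921934) (dlOf (nat_lit 1) (nat_lit 0x1c800800c0002001800094d7b03))) 
(.nd (nat_lit 11) (.lf (nat_lit 7931342) (dlOf (nat_lit 1) (nat_lit 0x400400020018513602))) 
(.lf (nat_lit 134286798) (dlOf (nat_lit 1) (nat_lit 0x4c0018006d01))))) (.nd (nat_lit 10) 
(.nd (nat_lit 11) (.lf (nat_lit 3154183118) (dlOf (nat_lit 1) (nat_lit 0xc004005c0008102882))) 
(.lf (nat_lit 4563471310) (dlOf (nat_lit 1) (nat_lit 0x28008018c00200020008095d83)))) 
(.lf (nat_lit 201394126) (dlOf (nat_lit 1) (nat_lit 0xc00200040008004482))))))) (.nd (nat_lit 28) 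
(.nd (nat_lit 19) (.nd (nat_lit 9) (.nd (nat_lit 31) (.nd (nat_lit 29) 
(.lf (nat_lit 1208287310) (dlOf (nat_lit 7) (nat_lit 0xb80e40198012000560400520390002a81004501c8001500801c00e4000a604024404e00f600a000098200150138000440801d8008003c002005000080b0683))) 
(.lf (nat_lit 1745158222) (dlOf (nat_lit 1) (nat_lit 0x28002000a00080b0682)))) (.nd (nat_lit 22) 
(.lf (nat_lit 3892641870) (dlOf (nat_lit 1) (nat_lit 0xc0018180701))) 
(.lf (nat_lit 2755985486) (dlOf (nat_lit 1) (nat_lit 0x4002000200081c0f82))))) (.nd (nat_lit 7) 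
(.lf (nat_lit 35981902) (dlOf (nat_lit 1) (nat_lit 0x20019015281))) (.nd (nat_lit 11) 
(.lf (nat_lit 20255438) (dlOf (nat_lit 1) (nat_lit 0x4002000200089d8c82))) 
(.lf (nat_lit 5503257294) (dlOf (nat_lit 1) (nat_lit 0x1000280e5881)))))) (.nd (nat_lit 20) 
(.nd (nat_lit 7) (.nd (nat_lit 22) 
(.lf (nat_lit 9240654) (dlOf (nat_lit 1) (nat_lit 0x80080004002000a0008530683))) 
(.lf (nat_lit 21823566) (dlOf (nat_lit 1) (nat_lit 0x20018a70901)))) 
(.lf (nat_lit 19732174) (dlOf (nat_lit 1) (nat_lit 0x19000189da001)))) (.nd (nat_lit 21) 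
(.lf (nat_lit 10289230) (dlOf (nat_lit 1) (nat_lit 0xe00085c0f81))) 
(.lf (nat_lit 58523726) (dlOf (nat_lit 1) (nat_lit 0x4004000200097e0002)))))) (.nd (nat_lit 11) 
(.nd (nat_lit 26) (.nd (nat_lit 22) (.nd (nat_lit 27) 
(.lf (nat_lit 2416246862) (dlOf (nat_lit 1) (nat_lit 0x600180c1901))) 
(.lf (nat_lit 2550464590) (dlOf (nat_lit 2) (nat_lit 0x6004400e40170001a8280c1500)))) 
(.lf (nat_lit 3494182990) (dlOf (nat_lit 1) (nat_lit 0x4002000200081c0f82)))) (.nd (nat_lit 27) 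
(.lf (nat_lit 872742990) (dlOf (nat_lit 1) (nat_lit 0x28002000a00080b0682))) 
(.lf (nat_lit 2080702542) (dlOf (nat_lit 7) (nat_lit 0xb80e40198012000560400520390002a81004501c8001500801c00e4000a604024404e00f600a000098200150138000440801d8008003c002005000080b0683))))) 
(.nd (nat_lit 7) (.nd (nat_lit 8) 
(.lf (nat_lit 472713806) (dlOf (nat_lit 2) (nat_lit 0x385140000004000400400020008a45282))) 
(.lf (nat_lit 3624209742) (dlOf (nat_lit 1) (nat_lit 0xc002000e0008146a02)))) (.nd (nat_lit 10) 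
(.lf (nat_lit 1880426958) (dlOf (nat_lit 1) (nat_lit 0x20018984e81))) 
(.lf (nat_lit 3489992142) (dlOf (nat_lit 1) (nat_lit 0x60018006d01)))))))) (.nd (nat_lit 7) 
(.nd (nat_lit 18) (.nd (nat_lit 30) (.nd (nat_lit 9) (.nd (nat_lit 8) (.nd (nat_lit 24) 
(.lf (nat_lit 4563501134) (dlOf (nat_lit 3) (nat_lit 0x401a0060800800700d002fc20402e400400600008090002))) 
(.lf (nat_lit 16875598) (dlOf (nat_lit 1) (nat_lit 0xc00288e0181)))) 
(.lf (nat_lit 25788750) (dlOf (nat_lit 1) (nat_lit 0x800200020008c10802)))) (.nd (nat_lit 20) 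
(.nd (nat_lit 21) 
(.lf (nat_lit 58821198) (dlOf (nat_lit 2) (nat_lit 0x56170000000800080080010002000400097e5283))) 
(.lf (nat_lit 69306958) (dlOf (nat_lit 2) (nat_lit 0xb08c000000080010008002400200140008905283)))) 
(.nd (nat_lit 8) (.lf (nat_lit 20549198) (dlOf (nat_lit 1) (nat_lit 0x180080008002003e00089d7183))) 
(.lf (nat_lit 20024142) (dlOf (nat_lit 1) (nat_lit 0x4002000200089d5c02)))))) (.nd (nat_lit 8) 
(.nd (nat_lit 19) (.nd (nat_lit 9) 
(.lf (nat_lit 1881243726) (dlOf (nat_lit 4) (nat_lit 0x80310007817c019da0800280c4002405f0067602000a0310009017c019c608001800400060018e80002))) 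
(.lf (nat_lit 3355547214) (dlOf (nat_lit 1) (nat_lit 0x18004000c00080a9c02)))) (.nd (nat_lit 21) 
(.lf (nat_lit 3221848142) (dlOf (nat_lit 6) (nat_lit 0x16056000900500009010005015800180140002304000a00a0001101000a02b000044080078144001406a000e022000100f00000020004800800dc002000400081a1503))) 
(.lf (nat_lit 3492380750) (dlOf (nat_lit 8) (nat_lit 0xb587a00004e0407b43d00002602013c1e80001281024d0f4007f84e0000480809103d001081380001182024f0f40000880807b87f404843d0012e1cf00f60af0048854803dc29e01ee13c00f809b80000040023800800f800200d200080c1503))))) 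
(.nd (nat_lit 29) (.nd (nat_lit 27) 
(.lf (nat_lit 3288432974) (dlOf (nat_lit 1) (nat_lit 0x54004000e0008014c82))) 
(.lf (nat_lit 3691086158) (dlOf (nat_lit 1) (nat_lit 0x100080280002012c0008010803)))) 
(.nd (nat_lit 10) (.lf (nat_lit 4026630478) (dlOf (nat_lit 1) (nat_lit 0x54004000e0008014c82))) 
(.lf (nat_lit 4093740366) (dlOf (nat_lit 1) (nat_lit 0x800400020008003302))))))) (.nd (nat_lit 19) 
(.nd (nat_lit 28) (.nd (nat_lit 9) (.nd (nat_lit 8) 
(.lf (nat_lit 3288694862) (dlOf (nat_lit 3) (nat_lit 0x10100000f408000808000078040048004000200080c1502))) 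
(.lf (nat_lit 3506510) (dlOf (nat_lit 2) (nat_lit 0x19a0800089d200044d800019038200600)))) 
(.nd (nat_lit 20) (.lf (nat_lit 42306126) (dlOf (nat_lit 1) (nat_lit 0xe400200640009245282))) 
(.lf (nat_lit 45451854) (dlOf (nat_lit 12) (nat_lit 0x1838c40008a04009dd4a004ce310002202018875280c2b8c400082080485d4a0228e31000200203c675281d138c40007c0800e9d4a0056e310001e820020752800538c4000780801c9d4a0002ea300a97188060b3a8025196c000370a00f4ea50008751804f38c403c59d40140cb60001b05000c76f0000b4080233a940039c6200a4cb600780000000002000f8008013800200020009325283))))) 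
(.nd (nat_lit 31) (.nd (nat_lit 27) 
(.lf (nat_lit 4563763278) (dlOf (nat_lit 2) (nat_lit 0x40029000248180d0500))) 
(.lf (nat_lit 4697981006) (dlOf (nat_lit 2) (nat_lit 0x40029000230180d0500)))) (.nd (nat_lit 8) 
(.lf (nat_lit 3154477134) (dlOf (nat_lit 2) (nat_lit 0x5402b00018118016406a006602b002f00b80002c2802880080080002002e00081a0703))) 
(.lf (nat_lit 3624242510) (dlOf (nat_lit 1) (nat_lit 0x1c00200200008146a02)))))) (.nd (nat_lit 20) 
(.nd (nat_lit 22) (.nd (nat_lit 24) 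
(.lf (nat_lit 884814) (dlOf (nat_lit 1) (nat_lit 0x400200180008030f82))) 
(.lf (nat_lit 51216462) (dlOf (nat_lit 1) (nat_lit 0xe0019510001)))) 
(.lf (nat_lit 21856334) (dlOf (nat_lit 2) (nat_lit 0x95680056a0200080008a70901)))) (.nd (nat_lit 8) 
(.lf (nat_lit 4030542) (dlOf (nat_lit 2) (nat_lit 0x5b0000000000400a000200040008270d02))) 
(.lf (nat_lit 54362446) (dlOf (nat_lit 1) (nat_lit 0x20019650d01))))))) (.nd (nat_lit 8) 
(.nd (nat_lit 9) (.nd (nat_lit 26) (.nd (nat_lit 20) (.nd (nat_lit 28) 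
(.lf (nat_lit 5905678542) (dlOf (nat_lit 1) (nat_lit 0x10004000400180b0482))) 
(.lf (nat_lit 805404878) (dlOf (nat_lit 2) (nat_lit 0x4409e0032038001100000091c180070008001000200100008090483)))) 
(.lf (nat_lit 3244238) (dlOf (nat_lit 2) (nat_lit 0x3ca42002251900123828200480)))) 
(.nd (nat_lit 30) (.nd (nat_lit 29) 
(.lf (nat_lit 6509658318) (dlOf (nat_lit 1) (nat_lit 0x10004000400180b0482))) 
(.lf (nat_lit 604078286) (dlOf (nat_lit 1) (nat_lit 0x8008003400200140008010483)))) 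
(.nd (nat_lit 18) 
(.lf (nat_lit 1677820110) (dlOf (nat_lit 2) (nat_lit 0x4409e0032038001100000091c180070008001000200100008090483))) 
(.lf (nat_lit 2080735438) (dlOf (nat_lit 3) (nat_lit 0x402d000180100010188000980800100080004002000200080c1803)))))) 
(.nd (nat_lit 26) (.nd (nat_lit 10) 
(.lf (nat_lit 5503290062) (dlOf (nat_lit 1) (nat_lit 0xc00280e5881))) (.nd (nat_lit 23) 
(.lf (nat_lit 6442550990) (dlOf (nat_lit 1) (nat_lit 0x4004000200080f3a82))) 
(.lf (nat_lit 8488654) (dlOf (nat_lit 1) (nat_lit 0x10008000400200040008513a83))))) 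
(.nd (nat_lit 10) (.lf (nat_lit 3154217678) (dlOf (nat_lit 1) (nat_lit 0x20008105881))) 
(.nd (nat_lit 28) (.lf (nat_lit 201426638) (dlOf (nat_lit 1) (nat_lit 0x40018003a81))) 
(.lf (nat_lit 469862094) (dlOf (nat_lit 1) (nat_lit 0x8008000400200040008003a83))))))) 
(.nd (nat_lit 19) (.nd (nat_lit 9) (.nd (nat_lit 11) 
(.lf (nat_lit 2550235598) (dlOf (nat_lit 1) (nat_lit 0x40018017101))) 
(.lf (nat_lit 36800974) (dlOf (nat_lit 1) (nat_lit 0x400200020009074e82)))) (.nd (nat_lit 11) 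
(.lf (nat_lit 99278) (dlOf (nat_lit 1) (nat_lit 0x20018002881))) 
(.lf (nat_lit 4563504078) (dlOf (nat_lit 3) (nat_lit 0xa80a400036040038052000180200140008095d81))))) 
(.nd (nat_lit 25) (.nd (nat_lit 26) 
(.lf (nat_lit 3491332558) (dlOf (nat_lit 4) (nat_lit 0x2201e80000c81010c0f40000600808787a00002e04003800403c40018090a02))) 
(.lf (nat_lit 2753135054) (dlOf (nat_lit 4) (nat_lit 0x2201fa0000c81010c0fd0000600808787e80002e04003800403c40018090a02)))) 
(.nd (nat_lit 11) (.lf (nat_lit 50954702) (dlOf (nat_lit 1) (nat_lit 0x2000294d7b01))) 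
(.lf (nat_lit 50170318) (dlOf (nat_lit 1) (nat_lit 0x400194c4e81)))))))))) (.nd (nat_lit 18) 
(.nd (nat_lit 8) (.nd (nat_lit 15) (.nd (nat_lit 31) (.nd (nat_lit 19) (.nd (nat_lit 24) 
(.nd (nat_lit 16) (.nd (nat_lit 7) 
(.lf (nat_lit 43122766) (dlOf (nat_lit 1) (nat_lit 0x400092a0001))) 
(.lf (nat_lit 805444814) (dlOf (nat_lit 1) (nat_lit 0x2001811c281)))) (.nd (nat_lit 26) 
(.lf (nat_lit 6308429902) (dlOf (nat_lit 1) (nat_lit 0x20008080501))) 
(.lf (nat_lit 5704450126) (dlOf (nat_lit 1) (nat_lit 0x20008080501))))) (.nd (nat_lit 12) 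
(.nd (nat_lit 21) (.nd (nat_lit 23) 
(.lf (nat_lit 16908366) (dlOf (nat_lit 2) (nat_lit 0x305f500010d58002201000600080014002000600088e0183))) 
(.lf (nat_lit 25296974) (dlOf (nat_lit 4) (nat_lit 0x61e45803670e00004704001791600023010002c8b0001140804100080210002004c0008bf0d03)))) 
(.lf (nat_lit 52559950) (dlOf (nat_lit 2) (nat_lit 0x18c1000085fc80122c9c00914f4002ca680001c059550680)))) 
(.nd (nat_lit 7) (.lf (nat_lit 20058190) (dlOf (nat_lit 1) (nat_lit 0x4002000200089d7d82))) 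
(.lf (nat_lit 20124366) (dlOf (nat_lit 1) (nat_lit 0x4002000200089d8c82)))))) (.nd (nat_lit 16) 
(.nd (nat_lit 26) (.nd (nat_lit 27) 
(.lf (nat_lit 805961806) (dlOf (nat_lit 34) (nat_lit 0x7a00a000208100280050001000804d8158042c0260003f0403c4055056902702b480dc06e00240c3a00a02f20030000c8300ef81540e6409c06c803701b7009020c80280b7c00c000310c042c055076d027000601301d8806e007c031021b00904048028144400c000301003720550242027010f80dc06dc02403a200a0001785005d02a8330013801bc0980cc80370099009035c0028110800c0002e0e0006055000b027000700dc0005a0c033c0aa072e04e003302601d080dc039802408e000a023d0030000b0380f401541cf809c031404c073401b80f680481f9c014008400804ea0030000ac4010d81541dcc09c037604c076801b81100048201801400ee00805090030000a8401e60138109006e0cf800a02f40030000a42009e813805a006e013c00a000140300ae02b0070004c0004608000c0260002202015404e004500980007c1000a804c00c80140001e04008e04e015a0098000741009d804c0003604002c09c024e0130000d02009a02b0009813807480260001906000605600620098000601007a815406e80240001704003c056009e0098000581001b01580002a04002409c03a40130000a02004302b00b5004c000260800780ac00c601300f5005000048180a9015800a00aa01d00130002009000044200168158004809c039c0130000803005d02b00c9804c0001e0806d40ac016c055000f02700e8804c02a4024013a00a00050030000003800e8008025c00201d20008201503)))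 
(.lf (nat_lit 134873166) (dlOf (nat_lit 2) (nat_lit 0x5a00c400e80220005604000200080d0d01)))) 
(.nd (nat_lit 7) 
(.lf (nat_lit 201982030) (dlOf (nat_lit 2) (nat_lit 0x5a00c400e80220004f04000200080d0d01))) 
(.lf (nat_lit 738855630) (dlOf (nat_lit 1) (nat_lit 0x1a0018125881))))) (.nd (nat_lit 20) 
(.nd (nat_lit 21) 
(.lf (nat_lit 537591886) (dlOf (nat_lit 3) (nat_lit 0x1100520001a0100050290000c8080028008001c002000a00080c1903))) 
(.lf (nat_lit 472580174) (dlOf (nat_lit 4) (nat_lit 0x1a0750002481001803a8001200800d01d401940e60000004000200289c0681)))) 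
(.lf (nat_lit 5773131854) (dlOf (nat_lit 1) (nat_lit 0x58004003800180a1702)))))) (.nd (nat_lit 26) 
(.nd (nat_lit 10) (.nd (nat_lit 16) (.nd (nat_lit 19) 
(.lf (nat_lit 2550267982) (dlOf (nat_lit 1) (nat_lit 0x1520008020901))) 
(.lf (nat_lit 3221880910) (dlOf (nat_lit 5) (nat_lit 0x1002b00028078009401400024060020056001900f00150028000460c00cc014000220202520510135024809c00d4060003e02a601e009d0030000003003780080250002065c00081a1503)))) 
(.lf (nat_lit 3490906190) (dlOf (nat_lit 1) (nat_lit 0x400200020008030f82)))) (.nd (nat_lit 7) 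
(.lf (nat_lit 3355579982) (dlOf (nat_lit 3) (nat_lit 0x340310053d8100050188029e8080110008003c002000c00080a9c03))) 
(.lf (nat_lit 3221363918) (dlOf (nat_lit 2) (nat_lit 0x302300028c08055000800c40020076000811c283))))) 
(.nd (nat_lit 30) (.nd (nat_lit 7) (.nd (nat_lit 16) 
(.lf (nat_lit 2754216014) (dlOf (nat_lit 3) (nat_lit 0x12068000703180040108000680c003c0d0001406300090210000c81801180080028002000600080c1903))) 
(.lf (nat_lit 2752708686) (dlOf (nat_lit 1) (nat_lit 0x400200020008030f82)))) 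
(.lf (nat_lit 2755854542) (dlOf (nat_lit 2) (nat_lit 0x986b4004c2a6001c504000200181b0481)))) 
(.nd (nat_lit 10) (.nd (nat_lit 19) 
(.lf (nat_lit 3288465486) (dlOf (nat_lit 1) (nat_lit 0x1400200060008020902))) 
(.lf (nat_lit 3960078414) (dlOf (nat_lit 8) (nat_lit 0x47815000300a600fa03f0001019804680c0024005400080280013010000a8074024c0120120007009d002802800000005c3402bc0a8009603f0004014002f807402780120082007003000280328000000582000a4080002401600013820006020000380e0000480802280820002302000e0140001101000400f0000400800800080648002016200081a1903)))) 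
(.lf (nat_lit 3959555150) (dlOf (nat_lit 1) (nat_lit 0xe0018112881))))))) (.nd (nat_lit 16) 
(.nd (nat_lit 19) (.nd (nat_lit 7) (.nd (nat_lit 11) (.nd (nat_lit 24) (.nd (nat_lit 10) 
(.nd (nat_lit 26) (.lf (nat_lit 1476558926) (dlOf (nat_lit 1) (nat_lit 0x5000200400008050702))) 
(.lf (nat_lit 604143694) (dlOf (nat_lit 1) (nat_lit 0xc00400080018030702)))) 
(.lf (nat_lit 169038) (dlOf (nat_lit 1) (nat_lit 0x2c0018009301)))) (.nd (nat_lit 21) 
(.lf (nat_lit 25329742) (dlOf (nat_lit 4) (nat_lit 0x168000000a604023c000000510200fa00000023818bf0d00))) 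
(.lf (nat_lit 52592718) (dlOf (nat_lit 2) (nat_lit 0x52b270001c019550680))))) (.nd (nat_lit 9) 
(.lf (nat_lit 165966) (dlOf (nat_lit 1) (nat_lit 0x2c0018004701))) 
(.lf (nat_lit 1007848014) (dlOf (nat_lit 1) (nat_lit 0x20028805281))))) (.nd (nat_lit 9) 
(.nd (nat_lit 21) (.lf (nat_lit 1610776782) (dlOf (nat_lit 1) (nat_lit 0xf000400080008090882))) 
(.lf (nat_lit 2261198) (dlOf (nat_lit 2) (nat_lit 0x22aa600123818150480)))) 
(.lf (nat_lit 20091598) (dlOf (nat_lit 1) (nat_lit 0x4002000200089d8c82))))) (.nd (nat_lit 21) 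
(.nd (nat_lit 26) 
(.lf (nat_lit 134905934) (dlOf (nat_lit 2) (nat_lit 0x15a03100ad0088001581002480080084002001800080d0d03))) 
(.nd (nat_lit 28) 
(.lf (nat_lit 202014798) (dlOf (nat_lit 2) (nat_lit 0x15a03100ad00880013c1002480080084002001800080d0d03))) 
(.lf (nat_lit 4228546638) (dlOf (nat_lit 4) (nat_lit 0x8804c0034020004280b0000600c004c098003204a0005020002980c801800580002b0a004e05300460260022812800dc080000803e0074019004000b0000541c010c004002800180f1502))))) 
(.nd (nat_lit 26) 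
(.lf (nat_lit 3492446286) (dlOf (nat_lit 2) (nat_lit 0x3c3d60005602000400180d0d01))) 
(.lf (nat_lit 2754248782) (dlOf (nat_lit 2) (nat_lit 0x3c3fa0004f02000400180d0d01)))))) 
(.nd (nat_lit 21) (.nd (nat_lit 26) (.nd (nat_lit 10) (.nd (nat_lit 27) 
(.lf (nat_lit 4026761294) (dlOf (nat_lit 1) (nat_lit 0x8008000400200020008090003))) 
(.lf (nat_lit 4697849934) (dlOf (nat_lit 2) (nat_lit 0x200cc00030040038004001000080a1702)))) 
(.nd (nat_lit 7) (.lf (nat_lit 5234722382) (dlOf (nat_lit 1) (nat_lit 0x4004000200080d3882))) 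
(.lf (nat_lit 3489897678) (dlOf (nat_lit 2) (nat_lit 0x641fa0004381800c280))))) (.nd (nat_lit 7) 
(.nd (nat_lit 20) 
(.lf (nat_lit 3288563790) (dlOf (nat_lit 1) (nat_lit 0x8008000400200020008090003))) 
(.lf (nat_lit 68386894) (dlOf (nat_lit 2) (nat_lit 0x20680006031c000de08000800400040008570182)))) 
(.lf (nat_lit 2755887310) (dlOf (nat_lit 2) (nat_lit 0x1506600038a040004002000400081b0482))))) 
(.nd (nat_lit 7) (.nd (nat_lit 26) (.nd (nat_lit 28) 
(.lf (nat_lit 2850894) (dlOf (nat_lit 2) (nat_lit 0xd800000000040064002001e00081c0d02))) 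
(.lf (nat_lit 3492511822) (dlOf (nat_lit 2) (nat_lit 0x3b87ac00983a40005604000800180d0d01)))) 
(.lf (nat_lit 2754314318) (dlOf (nat_lit 2) (nat_lit 0x3b87f400983ce0004f04000800180d0d01)))) 
(.nd (nat_lit 9) (.lf (nat_lit 2326734) (dlOf (nat_lit 1) (nat_lit 0x400400020008150482))) 
(.nd (nat_lit 11) (.lf (nat_lit 20157134) (dlOf (nat_lit 1) (nat_lit 0x80080004002000200089d8c83))) 
(.lf (nat_lit 57903822) (dlOf (nat_lit 1) (nat_lit 0x400400020009795882))))))))) (.nd (nat_lit 7) 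
(.nd (nat_lit 26) (.nd (nat_lit 16) (.nd (nat_lit 21) (.nd (nat_lit 10) (.nd (nat_lit 15) 
(.lf (nat_lit 13762894) (dlOf (nat_lit 1) (nat_lit 0x400400020008750802))) 
(.lf (nat_lit 6442615118) (dlOf (nat_lit 1) (nat_lit 0x40008104c81)))) (.nd (nat_lit 11) 
(.lf (nat_lit 132430) (dlOf (nat_lit 1) (nat_lit 0x18008000400200080008003303))) 
(.lf (nat_lit 805444942) (dlOf (nat_lit 1) (nat_lit 0x100020006000811c902))))) (.nd (nat_lit 20) 
(.nd (nat_lit 15) (.lf (nat_lit 5774115150) (dlOf (nat_lit 1) (nat_lit 0x5d800200420008108982))) 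
(.lf (nat_lit 23757134) (dlOf (nat_lit 1) (nat_lit 0x400200020008b80602)))) (.nd (nat_lit 9) 
(.lf (nat_lit 8000846) (dlOf (nat_lit 1) (nat_lit 0xb000200040008519902))) 
(.lf (nat_lit 20056910) (dlOf (nat_lit 1) (nat_lit 0x4002000200089d5c02)))))) (.nd (nat_lit 28) 
(.nd (nat_lit 10) (.nd (nat_lit 15) 
(.lf (nat_lit 9634126) (dlOf (nat_lit 1) (nat_lit 0x1400400040008574c82))) 
(.lf (nat_lit 753998) (dlOf (nat_lit 1) (nat_lit 0x20028014c81)))) 
(.lf (nat_lit 57869646) (dlOf (nat_lit 1) (nat_lit 0x20019793301)))) (.nd (nat_lit 10) 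
(.nd (nat_lit 22) (.lf (nat_lit 268632398) (dlOf (nat_lit 1) (nat_lit 0x200180e0d01))) 
(.lf (nat_lit 3494052174) (dlOf (nat_lit 2) (nat_lit 0x2216000238181b0600)))) 
(.lf (nat_lit 3624078670) (dlOf (nat_lit 1) (nat_lit 0xe0018146a01)))))) (.nd (nat_lit 11) 
(.nd (nat_lit 15) (.nd (nat_lit 16) 
(.lf (nat_lit 738328910) (dlOf (nat_lit 8) (nat_lit 0x170055005002a005d80dc017806c01b602200dc00f00009830063815401840a8002805300ca01b803880d803b004401d801e000100580009040072015400a40a601c80370001103004b02a802480dc0004208000406e000200201d405500ea01b80007c1006e014c035c06a01d202100e400e801d00000000014002400400680018090d02))) 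
(.lf (nat_lit 68354382) (dlOf (nat_lit 1) (nat_lit 0x120018570781)))) (.nd (nat_lit 27) 
(.lf (nat_lit 5435982158) (dlOf (nat_lit 2) (nat_lit 0x1005000000040004004003e0018090d02))) 
(.nd (nat_lit 28) 
(.lf (nat_lit 2885845326) (dlOf (nat_lit 3) (nat_lit 0x140000004f02000601a000268180b0600))) 
(.lf (nat_lit 5838635342) (dlOf (nat_lit 1) (nat_lit 0x40008104c81)))))) (.nd (nat_lit 10) 
(.nd (nat_lit 15) (.lf (nat_lit 3959556430) (dlOf (nat_lit 1) (nat_lit 0x1a0008114d81))) 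
(.lf (nat_lit 2751629646) (dlOf (nat_lit 1) (nat_lit 0x700080004002002a0008004d83)))) 
(.nd (nat_lit 15) (.nd (nat_lit 27) 
(.lf (nat_lit 6509759822) (dlOf (nat_lit 1) (nat_lit 0x220018146a01))) 
(.lf (nat_lit 1543703886) (dlOf (nat_lit 1) (nat_lit 0x40008146a01)))) 
(.lf (nat_lit 1543671118) (dlOf (nat_lit 1) (nat_lit 0x180028146a01))))))) (.nd (nat_lit 9) 
(.nd (nat_lit 11) (.nd (nat_lit 16) (.nd (nat_lit 19) (.nd (nat_lit 26) 
(.lf (nat_lit 3892445646) (dlOf (nat_lit 1) (nat_lit 0x2e0028117b01))) 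
(.lf (nat_lit 3020030414) (dlOf (nat_lit 1) (nat_lit 0x600080e7b01)))) 
(.lf (nat_lit 473563598) (dlOf (nat_lit 1) (nat_lit 0x140008f67b01)))) (.nd (nat_lit 26) 
(.lf (nat_lit 3491430862) (dlOf (nat_lit 3) (nat_lit 0x787a0000320400283d0000180200a40008090a01))) 
(.lf (nat_lit 2753233358) (dlOf (nat_lit 3) (nat_lit 0x787e8000320400283f4000180200a40008090a01))))) 
(.nd (nat_lit 16) (.nd (nat_lit 10) 
(.lf (nat_lit 48368078) (dlOf (nat_lit 1) (nat_lit 0x4002000a0009404e82))) 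
(.lf (nat_lit 6509727182) (dlOf (nat_lit 1) (nat_lit 0x5e0018146d01)))) (.nd (nat_lit 19) 
(.nd (nat_lit 21) (.lf (nat_lit 51579342) (dlOf (nat_lit 1) (nat_lit 0x40009514e81))) 
(.lf (nat_lit 57870798) (dlOf (nat_lit 2) (nat_lit 0xb064802d04040140004005e0009794e82)))) 
(.lf (nat_lit 46860750) (dlOf (nat_lit 1) (nat_lit 0x5000400040019384e82)))))) (.nd (nat_lit 11) 
(.nd (nat_lit 26) (.nd (nat_lit 15) (.nd (nat_lit 20) 
(.lf (nat_lit 1610744782) (dlOf (nat_lit 1) (nat_lit 0x400200060008092882))) 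
(.lf (nat_lit 38929358) (dlOf (nat_lit 1) (nat_lit 0x20019192881)))) 
(.lf (nat_lit 55280590) (dlOf (nat_lit 1) (nat_lit 0x200196d2881)))) (.nd (nat_lit 15) 
(.nd (nat_lit 16) 
(.lf (nat_lit 3959555022) (dlOf (nat_lit 3) (nat_lit 0x700000576808006800002bae04009c004000a0008112882))) 
(.lf (nat_lit 2885878734) (dlOf (nat_lit 1) (nat_lit 0xa8008003800200140008142883)))) 
(.lf (nat_lit 2751628238) (dlOf (nat_lit 1) (nat_lit 0x1000400160008002882))))) (.nd (nat_lit 12) 
(.nd (nat_lit 16) (.nd (nat_lit 26) 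
(.lf (nat_lit 4563536846) (dlOf (nat_lit 3) (nat_lit 0x220290000d8100090148000600801d0008000800200040008095d83))) 
(.lf (nat_lit 6241258446) (dlOf (nat_lit 2) (nat_lit 0x440240002d02000c00280d5d81)))) 
(.lf (nat_lit 6241323982) (dlOf (nat_lit 2) (nat_lit 0x6c03a0002d02003000280d5d81)))) 
(.nd (nat_lit 15) 
(.lf (nat_lit 3221363662) (dlOf (nat_lit 1) (nat_lit 0x600080060002000a000811be83))) 
(.lf (nat_lit 3489897422) (dlOf (nat_lit 1) (nat_lit 0x6000800140020022000800be83))))))))) 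
(.nd (nat_lit 15) (.nd (nat_lit 19) (.nd (nat_lit 27) (.nd (nat_lit 26) (.nd (nat_lit 8) 
(.nd (nat_lit 29) (.nd (nat_lit 22) 
(.lf (nat_lit 1074135118) (dlOf (nat_lit 1) (nat_lit 0x4002000400080c1902))) 
(.lf (nat_lit 29753422) (dlOf (nat_lit 2) (nat_lit 0x148c8d0002c8080408008013c00200220008e30183)))) 
(.nd (nat_lit 28) 
(.lf (nat_lit 1611006030) (dlOf (nat_lit 5) (nat_lit 0x194053008f01a80600084023003a0000e08019205300320108000301006a014c025406a017c021009600e80002820063814c00000040024002001400080b0682))) 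
(.lf (nat_lit 4026925134) (dlOf (nat_lit 9) (nat_lit 0x30100021803e0004c0400da0400002581007e01d0008802800094080060040000201f0002282022f0100001080818000800008004016c0400003f02006e0200001f0180d0d00))))) 
(.nd (nat_lit 7) 
(.lf (nat_lit 58065230) (dlOf (nat_lit 10) (nat_lit 0xb86400054328000c410000e19000050ca0003004000386400014328000bc10002e194000d0ca0002e04000986500024328000b410001e19400110ca0000604000b865000143280001410001e19400050ca0000204000b8640002432800000100260008007c002006600097b8983))) 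
(.lf (nat_lit 3221684686) (dlOf (nat_lit 2) (nat_lit 0x5005000060080008008014c00200580008170a03))))) 
(.nd (nat_lit 7) (.nd (nat_lit 16) (.nd (nat_lit 30) 
(.lf (nat_lit 4362469454) (dlOf (nat_lit 1) (nat_lit 0xa0018090001))) 
(.lf (nat_lit 3288727630) (dlOf (nat_lit 9) (nat_lit 0x30100021803e000530400da0400002901007e01d00088028000a2080060040000201f0002602022f0100001240818000800008e04016c0400004602006e020000228180d0d00)))) 
(.lf (nat_lit 3557228622) (dlOf (nat_lit 4) (nat_lit 0x340000000402007a00000001010023000000000080098008007800200060008170703)))) 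
(.nd (nat_lit 8) (.lf (nat_lit 335940302) (dlOf (nat_lit 1) (nat_lit 0x6800180e5881))) 
(.lf (nat_lit 4362469838) (dlOf (nat_lit 3) (nat_lit 0xa0168000800800d00b40003a04002c00400440018090a02)))))) 
(.nd (nat_lit 16) (.nd (nat_lit 7) (.nd (nat_lit 28) 
(.lf (nat_lit 738590798) (dlOf (nat_lit 5) (nat_lit 0x194053008f01a80600084023003a0000e08019205300320108000301006a014c025406a017c021009600e80002820063814c00000040024002001400080b0682))) 
(.lf (nat_lit 4228251726) (dlOf (nat_lit 1) (nat_lit 0xa0018090001)))) (.nd (nat_lit 8) 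
(.nd (nat_lit 9) (.lf (nat_lit 1007026382) (dlOf (nat_lit 1) (nat_lit 0x20018150481))) 
(.lf (nat_lit 6377835214) (dlOf (nat_lit 1) (nat_lit 0x4002000200080e5882)))) 
(.lf (nat_lit 4228252110) (dlOf (nat_lit 3) (nat_lit 0xa0160000800800d00b00003a04002c00400440018090a02))))) 
(.nd (nat_lit 30) (.nd (nat_lit 20) (.nd (nat_lit 26) 
(.lf (nat_lit 2819031118) (dlOf (nat_lit 4) (nat_lit 0xa00000000402005c000000010100210000000000800c0008007c00200460008150703))) 
(.lf (nat_lit 1007091790) (dlOf (nat_lit 5) (nat_lit 0x2380000004a04024c000000040200d000000001010086000000000080008008026800200160008170703)))) 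
(.lf (nat_lit 471269454) (dlOf (nat_lit 2) (nat_lit 0x1c11c0007b02001200082e0181)))) 
(.nd (nat_lit 7) (.nd (nat_lit 8) 
(.lf (nat_lit 3624337486) (dlOf (nat_lit 1) (nat_lit 0xe800800d4002008c0008160903))) 
(.lf (nat_lit 2080834894) (dlOf (nat_lit 2) (nat_lit 0x34052003400c00660058000881808180080170002013600080e3303)))) 
(.lf (nat_lit 3959882190) (dlOf (nat_lit 2) (nat_lit 0x5005000060080008008014c00200580008170a03))))))) 
(.nd (nat_lit 8) (.nd (nat_lit 16) (.nd (nat_lit 9) (.nd (nat_lit 7) (.nd (nat_lit 20) 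
(.lf (nat_lit 13500494) (dlOf (nat_lit 11) (nat_lit 0xb300000009804049c0000004b0203000000002501011e000000124080a5000000090040240000000420201dc000000200101090000000fc0808a80000007c0404540000003d0200500018730d01))) 
(.lf (nat_lit 4063310) (dlOf (nat_lit 2) (nat_lit 0x1c058000e41c6007207100380328000882001c000800b000200160008270d03)))) 
(.lf (nat_lit 19797198) (dlOf (nat_lit 1) (nat_lit 0x4002000200089d9502)))) (.nd (nat_lit 7) 
(.nd (nat_lit 10) 
(.lf (nat_lit 19796558) (dlOf (nat_lit 1) (nat_lit 0x10008002c002000a00089d8983))) 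
(.lf (nat_lit 19797582) (dlOf (nat_lit 1) (nat_lit 0x200189d9c01)))) 
(.lf (nat_lit 19796686) (dlOf (nat_lit 1) (nat_lit 0x80080004002000200089d8c83))))) 
(.nd (nat_lit 20) (.nd (nat_lit 22) 
(.lf (nat_lit 470745166) (dlOf (nat_lit 7) (nat_lit 0x6224a00430f60028079c00c42f200120000001285001a0f60000800800282bc00016040374000000040200ba000000010100d20000000000800c800801bc00200760008170703))) 
(.lf (nat_lit 21954638) (dlOf (nat_lit 1) (nat_lit 0x7b0008019000200380008a80f83)))) 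
(.nd (nat_lit 7) (.nd (nat_lit 9) 
(.lf (nat_lit 14614606) (dlOf (nat_lit 1) (nat_lit 0x128008008c00200080008770703))) 
(.lf (nat_lit 62851662) (dlOf (nat_lit 2) (nat_lit 0x33a08000000800880080014002001800099a5283)))) 
(.lf (nat_lit 2031822) (dlOf (nat_lit 2) (nat_lit 0x297300123818150480)))))) (.nd (nat_lit 10) 
(.nd (nat_lit 7) (.nd (nat_lit 9) (.nd (nat_lit 11) 
(.lf (nat_lit 6376325454) (dlOf (nat_lit 2) (nat_lit 0x4848c00034040004004001c0008090d02))) 
(.lf (nat_lit 3492743502) (dlOf (nat_lit 1) (nat_lit 0x200180f4d81)))) 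
(.lf (nat_lit 19794766) (dlOf (nat_lit 1) (nat_lit 0x4002000200089d5c02)))) (.nd (nat_lit 9) 
(.lf (nat_lit 41880014) (dlOf (nat_lit 2) (nat_lit 0x999c0178804001000400040009244e82))) 
(.lf (nat_lit 19794894) (dlOf (nat_lit 1) (nat_lit 0x280080038002000e00089d5d83))))) 
(.nd (nat_lit 7) (.nd (nat_lit 9) (.nd (nat_lit 11) 
(.lf (nat_lit 50267470) (dlOf (nat_lit 1) (nat_lit 0x800194c3301))) 
(.lf (nat_lit 19795278) (dlOf (nat_lit 1) (nat_lit 0x4004000200089d6a02)))) 
(.lf (nat_lit 19795790) (dlOf (nat_lit 1) (nat_lit 0x80080008002000200089d7783)))) 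
(.lf (nat_lit 19795406) (dlOf (nat_lit 1) (nat_lit 0x800189d6d01))))))) (.nd (nat_lit 8) 
(.nd (nat_lit 19) (.nd (nat_lit 16) (.nd (nat_lit 23) (.nd (nat_lit 7) (.nd (nat_lit 9) 
(.lf (nat_lit 4496719950) (dlOf (nat_lit 1) (nat_lit 0xa0018151681))) 
(.lf (nat_lit 51808846) (dlOf (nat_lit 1) (nat_lit 0x400400020009515282)))) (.nd (nat_lit 22) 
(.lf (nat_lit 1611038926) (dlOf (nat_lit 3) (nat_lit 0x280d40005c04000c06a0002b02000400280c1801))) 
(.lf (nat_lit 21397710) (dlOf (nat_lit 3) (nat_lit 0x414f000728100020a78003740800500080004002002c0008a31b83))))) 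
(.nd (nat_lit 9) (.nd (nat_lit 20) 
(.lf (nat_lit 29786190) (dlOf (nat_lit 2) (nat_lit 0x2ba280010a04001c00400060008e30182))) 
(.lf (nat_lit 26640462) (dlOf (nat_lit 3) (nat_lit 0x970a80009408003b8540004004003000400060008c50702)))) 
(.lf (nat_lit 42371662) (dlOf (nat_lit 1) (nat_lit 0x5c00400100009245282))))) (.nd (nat_lit 26) 
(.nd (nat_lit 27) (.lf (nat_lit 1342668878) (dlOf (nat_lit 1) (nat_lit 0x1400180c0001))) 
(.lf (nat_lit 3892805710) (dlOf (nat_lit 3) (nat_lit 0x280120005c80800200dc0048040001a01f000d00c800500600011014007000200080008280182)))) 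
(.nd (nat_lit 20) (.lf (nat_lit 470253646) (dlOf (nat_lit 1) (nat_lit 0x1400180c0001))) 
(.lf (nat_lit 471302222) (dlOf (nat_lit 2) (nat_lit 0x48568000f6040040004001c00082e0182)))))) 
(.nd (nat_lit 20) (.nd (nat_lit 23) (.nd (nat_lit 22) 
(.lf (nat_lit 1343193166) (dlOf (nat_lit 2) (nat_lit 0x605e000000080098008005c002001a0008190703))) 
(.lf (nat_lit 21987406) (dlOf (nat_lit 1) (nat_lit 0x1e0028a80f81)))) (.nd (nat_lit 16) 
(.lf (nat_lit 13533262) (dlOf (nat_lit 2) (nat_lit 0xf000000020018730d00))) 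
(.lf (nat_lit 13598798) (dlOf (nat_lit 9) (nat_lit 0x276f54000940400cb8c600046020017c63000cdeb00010810014ef58000820408838c60445bd600020020145e3180a1ef580007e0805f78c602dfbd60001f02003be31801def580007a08014800400100008730d02))))) 
(.nd (nat_lit 22) (.nd (nat_lit 9) (.nd (nat_lit 23) 
(.lf (nat_lit 473923662) (dlOf (nat_lit 2) (nat_lit 0x780d900000018fc0680))) 
(.lf (nat_lit 12550222) (dlOf (nat_lit 1) (nat_lit 0x800186d0f81)))) 
(.lf (nat_lit 1346341454) (dlOf (nat_lit 11) (nat_lit 0xa85a00174038000450400ea168009e00e000110100f385a00738038000410402a2168014000e000100101fc85a00f640380003e0400a601c0001e0100d7102806386a402642d001aa14500c5067805e02c802880e601be01c010300d0000dc480708814034c352015a16800e80a2806a033c0328164017a07300dd00e006a80680006c2401642d00100145007c067802f80700006a10022840a01121a900720b4004d8514023819e00c8073003b00e0000003801e0008008400200020008f05283)))) 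
(.nd (nat_lit 21) 
(.lf (nat_lit 14647374) (dlOf (nat_lit 2) (nat_lit 0x146f800094080090008004c00200620008770703))) 
(.lf (nat_lit 16744526) (dlOf (nat_lit 1) (nat_lit 0x8004000200188e0182))))))) (.nd (nat_lit 28) 
(.nd (nat_lit 7) (.nd (nat_lit 19) (.nd (nat_lit 10) (.nd (nat_lit 16) 
(.lf (nat_lit 2886107470) (dlOf (nat_lit 1) (nat_lit 0x60018154c81))) 
(.lf (nat_lit 3892805966) (dlOf (nat_lit 1) (nat_lit 0x8008000800200020008280783)))) 
(.lf (nat_lit 57050446) (dlOf (nat_lit 1) (nat_lit 0x800400040009793302)))) (.nd (nat_lit 9) 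
(.nd (nat_lit 20) 
(.lf (nat_lit 537821518) (dlOf (nat_lit 2) (nat_lit 0x1c0ea0004b02000800081b0601))) 
(.lf (nat_lit 2755559758) (dlOf (nat_lit 2) (nat_lit 0x4054000258181b0600)))) 
(.lf (nat_lit 19893070) (dlOf (nat_lit 1) (nat_lit 0x4002000200089d5c02))))) (.nd (nat_lit 26) 
(.nd (nat_lit 11) 
(.lf (nat_lit 3221651918) (dlOf (nat_lit 4) (nat_lit 0x788014000190203c200a0000c0101dd00500005c08008800800f400200100008170a03))) 
(.nd (nat_lit 19) 
(.lf (nat_lit 60262862) (dlOf (nat_lit 1) (nat_lit 0x500080030002000c0009844e83))) 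
(.lf (nat_lit 32475598) (dlOf (nat_lit 1) (nat_lit 0x400200040008ef4e82))))) (.nd (nat_lit 27) 
(.nd (nat_lit 29) (.lf (nat_lit 4362502606) (dlOf (nat_lit 2) (nat_lit 0x602d00010018090a00))) 
(.lf (nat_lit 1678148046) (dlOf (nat_lit 7) (nat_lit 0xb00aa002804e001501b80440048026c01400740060001006001c02a80040138002406e00f40120090005001600180003e1800040aa00800120000f02002e02a800b8138005c06e0114012009e005001e00180003a1800ec0240001c02004c0550012027000980dc021c024013200a003800300006c300228008012400202fa00081a0a03)))) 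
(.lf (nat_lit 3959849422) (dlOf (nat_lit 4) (nat_lit 0x788014000190203c200a0000c0101dd00500005c08008800800f400200100008170a03)))))) 
(.nd (nat_lit 26) (.nd (nat_lit 7) (.nd (nat_lit 16) (.nd (nat_lit 19) 
(.lf (nat_lit 3624304974) (dlOf (nat_lit 1) (nat_lit 0x60018154c81))) 
(.lf (nat_lit 3493757262) (dlOf (nat_lit 2) (nat_lit 0x4054000290181b0600)))) 
(.lf (nat_lit 1344241998) (dlOf (nat_lit 7) (nat_lit 0x1448c0008242000311d800288d8004c398001a1c40002a86001d123000e89080068476003423600200e6000e8710000a618001448c0008242000311d800188d80024398000a1c400020e10001403800689180008484000823b000711b000887300034388000370c00062460003121000108ec000c46c000e1cc00030e20000d43000187300006404000800400140018520802)))) 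
(.nd (nat_lit 9) (.nd (nat_lit 11) 
(.lf (nat_lit 805732814) (dlOf (nat_lit 7) (nat_lit 0xb00aa002804e001501b80440048026c01400740060001006001c02a80040138002406e00f40120090005001600180003e1800040aa00800120000f02002e02a800b8138005c06e0114012009e005001e00180003a1800ec0240001c02004c0550012027000980dc021c024013200a003800300006c300228008012400202fa00081a0a03))) 
(.lf (nat_lit 5771856334) (dlOf (nat_lit 2) (nat_lit 0x202800707018004e80)))) 
(.lf (nat_lit 1344701390) (dlOf (nat_lit 1) (nat_lit 0x20008001400200060008982883))))) 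
(.nd (nat_lit 19) (.nd (nat_lit 7) 
(.lf (nat_lit 4094068046) (dlOf (nat_lit 1) (nat_lit 0x8008000800200020008003303))) 
(.nd (nat_lit 16) (.lf (nat_lit 4228284878) (dlOf (nat_lit 2) (nat_lit 0x602c00010018090a00))) 
(.lf (nat_lit 872907214) (dlOf (nat_lit 1) (nat_lit 0x2a00080020002000800080f7b03))))) 
(.nd (nat_lit 7) (.lf (nat_lit 472810830) (dlOf (nat_lit 1) (nat_lit 0x20018b03301))) 
(.nd (nat_lit 9) (.lf (nat_lit 472877518) (dlOf (nat_lit 1) (nat_lit 0x400400020008b54e82))) 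
(.lf (nat_lit 4094593998) (dlOf (nat_lit 1) (nat_lit 0x140008055d81)))))))))))))

end

end Pool.Agent.Lib.MP_5854e1_co.Cz

namespace Pool.Agent.Lib.MP_5854e1_co.Cz

noncomputable section

noncomputable def tz139 : DT := (.nd (nat_lit 15) (.nd (nat_lit 16) (.nd (nat_lit 28) 
(.nd (nat_lit 17) (.nd (nat_lit 7) (.nd (nat_lit 6) (.nd (nat_lit 20) (.nd (nat_lit 26) 
(.nd (nat_lit 11) (.nd (nat_lit 21) (.nd (nat_lit 27) (.nd (nat_lit 29) 
(.lf (nat_lit 5368709166) (dlOf (nat_lit 1) (nat_lit 0xa000200020008000002))) 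
(.lf (nat_lit 2684354606) (dlOf (nat_lit 1) (nat_lit 0x1400400080008000002)))) 
(.lf (nat_lit 2281701422) (dlOf (nat_lit 1) (nat_lit 0x400400020008000002)))) (.nd (nat_lit 18) 
(.lf (nat_lit 23068718) (dlOf (nat_lit 6) (nat_lit 0x304e8000ac04000c29c0004f02001614c0002581001009d00004c0800305380000004008000400380018b50682))) 
(.lf (nat_lit 56885294) (dlOf (nat_lit 1) (nat_lit 0x400200020009780a02))))) (.nd (nat_lit 8) 
(.nd (nat_lit 29) (.lf (nat_lit 1073748014) (dlOf (nat_lit 1) (nat_lit 0x2002800a601))) 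
(.lf (nat_lit 536877102) (dlOf (nat_lit 1) (nat_lit 0x800801300020072000800a603)))) 
(.lf (nat_lit 5905583406) (dlOf (nat_lit 1) (nat_lit 0x160028006881))))) (.nd (nat_lit 27) 
(.nd (nat_lit 18) (.nd (nat_lit 31) 
(.lf (nat_lit 67108910) (dlOf (nat_lit 1) (nat_lit 0x20008000001))) 
(.lf (nat_lit 2214592558) (dlOf (nat_lit 1) (nat_lit 0x400400020008000002)))) 
(.lf (nat_lit 3825467438) (dlOf (nat_lit 1) (nat_lit 0x140018160581)))) (.nd (nat_lit 32) 
(.nd (nat_lit 8) 
(.lf (nat_lit 2348816430) (dlOf (nat_lit 1) (nat_lit 0x800800040020002000800a603))) 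
(.lf (nat_lit 2348812078) (dlOf (nat_lit 1) (nat_lit 0x20018003d81)))) (.nd (nat_lit 29) 
(.lf (nat_lit 6643777582) (dlOf (nat_lit 1) (nat_lit 0x400400020008000002))) 
(.lf (nat_lit 5033164846) (dlOf (nat_lit 1) (nat_lit 0x8008007c00200020008000003))))))) 
(.nd (nat_lit 8) (.nd (nat_lit 18) (.nd (nat_lit 9) 
(.lf (nat_lit 17825838) (dlOf (nat_lit 1) (nat_lit 0x80080004002000200088f0e83))) 
(.lf (nat_lit 40895022) (dlOf (nat_lit 2) (nat_lit 0x2447000114080008008000c00200020009208a83)))) 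
(.nd (nat_lit 19) (.lf (nat_lit 30670894) (dlOf (nat_lit 1) (nat_lit 0x20018e40e81))) 
(.lf (nat_lit 22806574) (dlOf (nat_lit 1) (nat_lit 0x8008000800200040008b30683))))) 
(.nd (nat_lit 9) (.nd (nat_lit 18) 
(.lf (nat_lit 1048878) (dlOf (nat_lit 1) (nat_lit 0x400200020008068402))) 
(.lf (nat_lit 2752774446) (dlOf (nat_lit 2) (nat_lit 0x18059001260080040008002000200020008048403)))) 
(.nd (nat_lit 10) (.lf (nat_lit 8127278) (dlOf (nat_lit 1) (nat_lit 0xe0028512201))) 
(.lf (nat_lit 20188974) (dlOf (nat_lit 1) (nat_lit 0x51c004023a00089d7482))))))) (.nd (nat_lit 27) 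
(.nd (nat_lit 8) (.nd (nat_lit 24) (.nd (nat_lit 10) 
(.lf (nat_lit 46137454) (dlOf (nat_lit 2) (nat_lit 0x57390001f019380180))) 
(.lf (nat_lit 3288337518) (dlOf (nat_lit 1) (nat_lit 0x8008000400200040008006083)))) 
(.nd (nat_lit 18) 
(.lf (nat_lit 55050350) (dlOf (nat_lit 1) (nat_lit 0x48008001000200120009690c03))) 
(.lf (nat_lit 24379502) (dlOf (nat_lit 2) (nat_lit 0xac2b00000018b91500))))) (.nd (nat_lit 9) 
(.lf (nat_lit 50070894) (dlOf (nat_lit 1) (nat_lit 0x280080004002000800094c3483))) 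
(.nd (nat_lit 10) (.lf (nat_lit 2684359534) (dlOf (nat_lit 1) (nat_lit 0x800400020018008f82))) 
(.lf (nat_lit 8132462) (dlOf (nat_lit 1) (nat_lit 0x800800040020002000851a303)))))) 
(.nd (nat_lit 8) (.nd (nat_lit 19) (.nd (nat_lit 10) 
(.lf (nat_lit 2349072494) (dlOf (nat_lit 1) (nat_lit 0x80080004002000200080a1503))) 
(.lf (nat_lit 134220910) (dlOf (nat_lit 1) (nat_lit 0x8008000400200020008006083)))) 
(.nd (nat_lit 26) 
(.lf (nat_lit 134742126) (dlOf (nat_lit 6) (nat_lit 0x194086019c041005f01f805e80f4020c0700000e0a0158041001c01f805f00f401a80700000d08002204300a5020802180fc02d807a004c0380000605007e021805f0104025407e019003d007e01c00002c28046810c020407e014403d001201d001e00e00000014000c004008c00080a1502))) 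
(.lf (nat_lit 201850990) (dlOf (nat_lit 6) (nat_lit 0x194086019c041005f01f805e80f4020c0700000e0a0158041001c01f805f00f401a80700000d08002204300a5020802180fc02d807a004c0380000605007e021805f0104025407e019003d007e01c00002c28046810c020407e014403d001201d001e00e00000014000c004008c00080a1502))))) 
(.nd (nat_lit 10) (.nd (nat_lit 11) 
(.lf (nat_lit 2281706350) (dlOf (nat_lit 1) (nat_lit 0x20028008f81))) 
(.lf (nat_lit 671095662) (dlOf (nat_lit 1) (nat_lit 0x2240040266000800bc82)))) 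
(.lf (nat_lit 2818838382) (dlOf (nat_lit 2) (nat_lit 0x1c06c004c30200020018127781))))))) 
(.nd (nat_lit 11) (.nd (nat_lit 8) (.nd (nat_lit 10) (.nd (nat_lit 18) (.nd (nat_lit 19) 
(.lf (nat_lit 2097326) (dlOf (nat_lit 1) (nat_lit 0x80018150301))) 
(.lf (nat_lit 61341870) (dlOf (nat_lit 1) (nat_lit 0x400400020009920602)))) (.nd (nat_lit 9) 
(.lf (nat_lit 3288596654) (dlOf (nat_lit 3) (nat_lit 0x1201b0000a00800200900004a04007000400440008090302))) 
(.lf (nat_lit 8127150) (dlOf (nat_lit 1) (nat_lit 0x20008001000200060008511d83))))) 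
(.nd (nat_lit 9) (.nd (nat_lit 12) 
(.lf (nat_lit 58459310) (dlOf (nat_lit 1) (nat_lit 0xc002000200097e2c02))) 
(.lf (nat_lit 6039803054) (dlOf (nat_lit 1) (nat_lit 0x40018009501)))) (.nd (nat_lit 12) 
(.lf (nat_lit 2751465134) (dlOf (nat_lit 1) (nat_lit 0x1c0028003a81))) 
(.lf (nat_lit 19928750) (dlOf (nat_lit 1) (nat_lit 0x4002000200089da002)))))) (.nd (nat_lit 12) 
(.nd (nat_lit 6) (.nd (nat_lit 9) 
(.lf (nat_lit 3288596910) (dlOf (nat_lit 1) (nat_lit 0xc800400060008090782))) 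
(.lf (nat_lit 2751727534) (dlOf (nat_lit 1) (nat_lit 0xa0028004381)))) 
(.lf (nat_lit 4898948078) (dlOf (nat_lit 1) (nat_lit 0x400200020008002882)))) (.nd (nat_lit 31) 
(.nd (nat_lit 26) (.lf (nat_lit 1073747950) (dlOf (nat_lit 1) (nat_lit 0x40040002000800a602))) 
(.lf (nat_lit 4362082286) (dlOf (nat_lit 1) (nat_lit 0x18000800a601)))) (.nd (nat_lit 19) 
(.lf (nat_lit 2348816366) (dlOf (nat_lit 1) (nat_lit 0x800800040020002000800a603))) 
(.lf (nat_lit 2751993838) (dlOf (nat_lit 1) (nat_lit 0x40040002000800a602))))))) (.nd (nat_lit 6) 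
(.nd (nat_lit 9) (.nd (nat_lit 10) (.nd (nat_lit 8) 
(.lf (nat_lit 4362078382) (dlOf (nat_lit 1) (nat_lit 0x400400020008004902))) 
(.lf (nat_lit 738462126) (dlOf (nat_lit 1) (nat_lit 0xc0028094e81)))) (.nd (nat_lit 26) 
(.lf (nat_lit 134225070) (dlOf (nat_lit 1) (nat_lit 0x40040002000800c202))) 
(.lf (nat_lit 3288341678) (dlOf (nat_lit 1) (nat_lit 0x1c0040002000800c202))))) (.nd (nat_lit 26) 
(.nd (nat_lit 12) (.lf (nat_lit 5368711854) (dlOf (nat_lit 1) (nat_lit 0x400400020008005682))) 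
(.lf (nat_lit 19929774) (dlOf (nat_lit 1) (nat_lit 0x4002000200089db782)))) (.nd (nat_lit 8) 
(.lf (nat_lit 5033167534) (dlOf (nat_lit 1) (nat_lit 0x400400020008005682))) 
(.lf (nat_lit 4899212206) (dlOf (nat_lit 1) (nat_lit 0x4004000200080d5d02)))))) (.nd (nat_lit 8) 
(.nd (nat_lit 12) (.nd (nat_lit 9) 
(.lf (nat_lit 1073744110) (dlOf (nat_lit 1) (nat_lit 0x20028004b81))) 
(.lf (nat_lit 57412334) (dlOf (nat_lit 3) (nat_lit 0x2ced00007810001676800c33b00001c08004c00400700019795a02)))) 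
(.nd (nat_lit 18) (.lf (nat_lit 603986670) (dlOf (nat_lit 1) (nat_lit 0x28002800b981))) 
(.lf (nat_lit 67902190) (dlOf (nat_lit 1) (nat_lit 0x4001833b981))))) (.nd (nat_lit 9) 
(.nd (nat_lit 26) (.lf (nat_lit 4429191662) (dlOf (nat_lit 1) (nat_lit 0x2002800b281))) 
(.lf (nat_lit 4362082798) (dlOf (nat_lit 1) (nat_lit 0x20001800b281)))) 
(.lf (nat_lit 8130542) (dlOf (nat_lit 1) (nat_lit 0x400200020008517a82)))))))) (.nd (nat_lit 18) 
(.nd (nat_lit 32) (.nd (nat_lit 19) (.nd (nat_lit 6) (.nd (nat_lit 7) (.nd (nat_lit 20) 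
(.nd (nat_lit 21) 
(.lf (nat_lit 29491246) (dlOf (nat_lit 1) (nat_lit 0x58008002c00200160008e10803))) 
(.lf (nat_lit 52559918) (dlOf (nat_lit 1) (nat_lit 0x600080028002000a0009550283)))) 
(.lf (nat_lit 47317038) (dlOf (nat_lit 5) (nat_lit 0xcbd300075de00019010001af4c000c60400197a60002bbc000308200055e98000aef0000be080020004001a00093d0d02)))) 
(.nd (nat_lit 8) (.lf (nat_lit 2753691822) (dlOf (nat_lit 1) (nat_lit 0x400400800008090302))) 
(.lf (nat_lit 138158) (dlOf (nat_lit 3) (nat_lit 0x146820008274800513600029a0c0048d04001e4e9001226c00050c180018008002c002000c000800bd83))))) 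
(.nd (nat_lit 7) (.nd (nat_lit 11) 
(.lf (nat_lit 20058222) (dlOf (nat_lit 1) (nat_lit 0x4002000200089d7d82))) 
(.lf (nat_lit 1677854830) (dlOf (nat_lit 1) (nat_lit 0x280008114781)))) (.nd (nat_lit 8) 
(.lf (nat_lit 1677854958) (dlOf (nat_lit 1) (nat_lit 0x58008000800200500008114b83))) 
(.nd (nat_lit 9) (.lf (nat_lit 11665902) (dlOf (nat_lit 1) (nat_lit 0x4002000200086c0d82))) 
(.lf (nat_lit 138222) (dlOf (nat_lit 1) (nat_lit 0xa002800bf01))))))) (.nd (nat_lit 29) 
(.nd (nat_lit 20) (.nd (nat_lit 21) (.nd (nat_lit 26) 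
(.lf (nat_lit 3221880878) (dlOf (nat_lit 1) (nat_lit 0x1400081a0e01))) 
(.lf (nat_lit 67764270) (dlOf (nat_lit 2) (nat_lit 0x200000001e04003c002000400082e0e82)))) 
(.lf (nat_lit 6946862) (dlOf (nat_lit 1) (nat_lit 0x20018490801)))) (.nd (nat_lit 21) 
(.lf (nat_lit 5898286) (dlOf (nat_lit 1) (nat_lit 0x20018400801))) 
(.lf (nat_lit 45744174) (dlOf (nat_lit 2) (nat_lit 0x57b5c800090080008008001800200020009360283))))) 
(.nd (nat_lit 8) (.nd (nat_lit 6) 
(.lf (nat_lit 3960078382) (dlOf (nat_lit 1) (nat_lit 0x1400081a0e01))) 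
(.lf (nat_lit 537526382) (dlOf (nat_lit 6) (nat_lit 0x100150001c08a0000e0400700540015022800034100068150000180400940a800200450000582000802a0000000800880080038002001800080a1503)))) 
(.nd (nat_lit 7) (.lf (nat_lit 1611269422) (dlOf (nat_lit 1) (nat_lit 0x1a0018123201))) 
(.lf (nat_lit 2752120750) (dlOf (nat_lit 1) (nat_lit 0x180008004381))))))) (.nd (nat_lit 10) 
(.nd (nat_lit 27) (.nd (nat_lit 6) (.nd (nat_lit 30) 
(.lf (nat_lit 4295098414) (dlOf (nat_lit 3) (nat_lit 0xe404c00a001c000300d801e000000020100048000000090200040018070901))) 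
(.lf (nat_lit 5368840238) (dlOf (nat_lit 1) (nat_lit 0x420008040381)))) 
(.lf (nat_lit 5368840302) (dlOf (nat_lit 1) (nat_lit 0xdc800802bc002027a0008040c03)))) 
(.nd (nat_lit 6) (.nd (nat_lit 30) 
(.lf (nat_lit 4429316142) (dlOf (nat_lit 2) (nat_lit 0xd80340000d0200040018070801))) 
(.lf (nat_lit 5503057966) (dlOf (nat_lit 1) (nat_lit 0x420008040381)))) 
(.lf (nat_lit 5503058030) (dlOf (nat_lit 1) (nat_lit 0xdc800802bc002027a0008040c03))))) 
(.nd (nat_lit 6) (.nd (nat_lit 7) (.nd (nat_lit 8) 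
(.lf (nat_lit 4496426542) (dlOf (nat_lit 2) (nat_lit 0x180680003804000800200040008053782))) 
(.lf (nat_lit 6576803118) (dlOf (nat_lit 1) (nat_lit 0x7000400020008146882)))) 
(.lf (nat_lit 4496426414) (dlOf (nat_lit 1) (nat_lit 0x20008053601)))) (.nd (nat_lit 7) 
(.lf (nat_lit 6509694062) (dlOf (nat_lit 1) (nat_lit 0x8008024800200680008146083))) 
(.nd (nat_lit 8) 
(.lf (nat_lit 5972821742) (dlOf (nat_lit 2) (nat_lit 0x2806c001402e000140400060028143b01))) 
(.lf (nat_lit 5972821998) (dlOf (nat_lit 2) (nat_lit 0x2008800000080010008000800200020008144603)))))))) 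
(.nd (nat_lit 24) (.nd (nat_lit 8) (.nd (nat_lit 31) (.nd (nat_lit 19) (.nd (nat_lit 26) 
(.lf (nat_lit 5905973294) (dlOf (nat_lit 1) (nat_lit 0x400200020008170c02))) 
(.lf (nat_lit 67502126) (dlOf (nat_lit 1) (nat_lit 0x100080010002000400081a0883)))) 
(.nd (nat_lit 21) (.lf (nat_lit 917550) (dlOf (nat_lit 1) (nat_lit 0x1000400020018030c02))) 
(.lf (nat_lit 36569134) (dlOf (nat_lit 1) (nat_lit 0x20029070001))))) (.nd (nat_lit 26) 
(.nd (nat_lit 27) 
(.lf (nat_lit 6442844206) (dlOf (nat_lit 2) (nat_lit 0x4068007d702000200181d0a01))) 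
(.lf (nat_lit 3355836462) (dlOf (nat_lit 2) (nat_lit 0x2f019000000080148008008400200560008120783)))) 
(.nd (nat_lit 6) (.lf (nat_lit 6509953070) (dlOf (nat_lit 1) (nat_lit 0x400200020008170c02))) 
(.lf (nat_lit 2753953902) (dlOf (nat_lit 5) (nat_lit 0x9021c0001c04004010e0000d0200080870000601001504380002c0800280080078002001c00080a1503)))))) 
(.nd (nat_lit 6) (.nd (nat_lit 7) (.nd (nat_lit 9) 
(.lf (nat_lit 2349203758) (dlOf (nat_lit 1) (nat_lit 0x20008001c002000400081b0503))) 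
(.lf (nat_lit 8258350) (dlOf (nat_lit 1) (nat_lit 0x180028512201)))) (.nd (nat_lit 9) 
(.lf (nat_lit 36571566) (dlOf (nat_lit 1) (nat_lit 0x1000200060009074e82))) 
(.lf (nat_lit 2752382894) (dlOf (nat_lit 1) (nat_lit 0xc0018004381))))) (.nd (nat_lit 7) 
(.nd (nat_lit 9) (.lf (nat_lit 4362469742) (dlOf (nat_lit 1) (nat_lit 0x60018090781))) 
(.lf (nat_lit 8263534) (dlOf (nat_lit 1) (nat_lit 0x10000800040020028000851a303)))) 
(.lf (nat_lit 8261614) (dlOf (nat_lit 1) (nat_lit 0x400200020008517a82)))))) (.nd (nat_lit 7) 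
(.nd (nat_lit 6) (.nd (nat_lit 21) (.nd (nat_lit 23) 
(.lf (nat_lit 17694766) (dlOf (nat_lit 1) (nat_lit 0x38008002c002001200088f0e83))) 
(.lf (nat_lit 59637806) (dlOf (nat_lit 2) (nat_lit 0x1d018000474100000029820280)))) 
(.nd (nat_lit 9) (.lf (nat_lit 52822062) (dlOf (nat_lit 1) (nat_lit 0x40008001c00200040009570003))) 
(.lf (nat_lit 19796526) (dlOf (nat_lit 1) (nat_lit 0x14002000600089d8982))))) (.nd (nat_lit 8) 
(.nd (nat_lit 9) (.lf (nat_lit 19795054) (dlOf (nat_lit 1) (nat_lit 0x80080004002000200089d6083))) 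
(.lf (nat_lit 19796590) (dlOf (nat_lit 1) (nat_lit 0x100080010002000600089d8983)))) 
(.lf (nat_lit 19796846) (dlOf (nat_lit 1) (nat_lit 0x180080008002000600089d8f83))))) 
(.nd (nat_lit 10) (.nd (nat_lit 8) (.nd (nat_lit 12) 
(.lf (nat_lit 19794606) (dlOf (nat_lit 1) (nat_lit 0x4004000200089d5682))) 
(.lf (nat_lit 19798702) (dlOf (nat_lit 1) (nat_lit 0x200089db781)))) 
(.lf (nat_lit 19794862) (dlOf (nat_lit 1) (nat_lit 0x4004000200089d5d02)))) (.nd (nat_lit 8) 
(.nd (nat_lit 9) (.lf (nat_lit 19799214) (dlOf (nat_lit 1) (nat_lit 0x4004000200089dc202))) 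
(.lf (nat_lit 19797678) (dlOf (nat_lit 1) (nat_lit 0x4002000400089da002)))) 
(.lf (nat_lit 61736366) (dlOf (nat_lit 1) (nat_lit 0x60008005400200040009923603))))))))) 
(.nd (nat_lit 11) (.nd (nat_lit 17) (.nd (nat_lit 18) (.nd (nat_lit 26) (.nd (nat_lit 9) 
(.nd (nat_lit 7) (.nd (nat_lit 27) 
(.lf (nat_lit 6710886446) (dlOf (nat_lit 1) (nat_lit 0x8000200020008000002))) 
(.lf (nat_lit 2013265966) (dlOf (nat_lit 1) (nat_lit 0x20028000001)))) 
(.lf (nat_lit 1345847726) (dlOf (nat_lit 1) (nat_lit 0x10008000800200020008e06e83)))) 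
(.nd (nat_lit 6) 
(.lf (nat_lit 3490710062) (dlOf (nat_lit 2) (nat_lit 0x10069000903200030110001c048000000800020028018001))) 
(.lf (nat_lit 1342181998) (dlOf (nat_lit 1) (nat_lit 0xc0028008981))))) (.nd (nat_lit 7) 
(.nd (nat_lit 29) (.nd (nat_lit 6) 
(.lf (nat_lit 4764729390) (dlOf (nat_lit 1) (nat_lit 0x20008000001))) 
(.lf (nat_lit 3690992750) (dlOf (nat_lit 1) (nat_lit 0x300008009401)))) (.nd (nat_lit 19) 
(.lf (nat_lit 5301600302) (dlOf (nat_lit 1) (nat_lit 0x20008000001))) 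
(.lf (nat_lit 3154640942) (dlOf (nat_lit 2) (nat_lit 0x10088000a8040048004002c00082f0802))))) 
(.nd (nat_lit 6) (.nd (nat_lit 30) 
(.lf (nat_lit 469767598) (dlOf (nat_lit 1) (nat_lit 0xe0028009901))) 
(.lf (nat_lit 3690993070) (dlOf (nat_lit 1) (nat_lit 0xa8008001000200060008009903)))) 
(.lf (nat_lit 6241125358) (dlOf (nat_lit 1) (nat_lit 0xa0008002881)))))) (.nd (nat_lit 26) 
(.nd (nat_lit 31) (.nd (nat_lit 8) (.nd (nat_lit 20) 
(.lf (nat_lit 268697646) (dlOf (nat_lit 1) (nat_lit 0x80080018002001400080e0003))) 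
(.lf (nat_lit 1343488046) (dlOf (nat_lit 2) (nat_lit 0x4e09d002503f0000001000b8008010800200040008260883)))) 
(.lf (nat_lit 5773722926) (dlOf (nat_lit 1) (nat_lit 0x200280e3201)))) (.nd (nat_lit 7) 
(.nd (nat_lit 8) (.lf (nat_lit 3087269934) (dlOf (nat_lit 1) (nat_lit 0x140018160581))) 
(.lf (nat_lit 3490971950) (dlOf (nat_lit 4) (nat_lit 0x181500003c02016a0a8000e0028000e41000400080000604007000400080008047a02)))) 
(.lf (nat_lit 4026794158) (dlOf (nat_lit 3) (nat_lit 0x1201b0000a00800200900004a04007000400440008090302))))) 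
(.nd (nat_lit 7) (.nd (nat_lit 6) (.nd (nat_lit 8) 
(.lf (nat_lit 472121390) (dlOf (nat_lit 1) (nat_lit 0x20008840281))) 
(.lf (nat_lit 3557037870) (dlOf (nat_lit 2) (nat_lit 0x4003000780000004008009c002000a000812a102)))) 
(.lf (nat_lit 2483290222) (dlOf (nat_lit 1) (nat_lit 0x80080004002000200080a1503)))) 
(.nd (nat_lit 8) (.lf (nat_lit 5301862574) (dlOf (nat_lit 1) (nat_lit 0x1c00280c1581))) 
(.lf (nat_lit 4228646830) (dlOf (nat_lit 1) (nat_lit 0x400400020018114382))))))) (.nd (nat_lit 27) 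
(.nd (nat_lit 6) (.nd (nat_lit 26) (.nd (nat_lit 18) (.nd (nat_lit 19) 
(.lf (nat_lit 1880227886) (dlOf (nat_lit 2) (nat_lit 0x2038c00281c4000807b000058387e0280))) 
(.lf (nat_lit 1342832686) (dlOf (nat_lit 1) (nat_lit 0x90002000e00080e0a02)))) (.nd (nat_lit 20) 
(.lf (nat_lit 1346764846) (dlOf (nat_lit 1) (nat_lit 0x200029000281))) 
(.lf (nat_lit 1880490030) (dlOf (nat_lit 2) (nat_lit 0x20e30000c0189a0280))))) (.nd (nat_lit 8) 
(.nd (nat_lit 19) (.lf (nat_lit 6241255470) (dlOf (nat_lit 1) (nat_lit 0x4004000200080d0002))) 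
(.lf (nat_lit 3557425198) (dlOf (nat_lit 1) (nat_lit 0x10004000200081f0882)))) 
(.lf (nat_lit 2483159342) (dlOf (nat_lit 1) (nat_lit 0xc00400020008047a02))))) (.nd (nat_lit 7) 
(.nd (nat_lit 8) (.nd (nat_lit 18) 
(.lf (nat_lit 1409941614) (dlOf (nat_lit 6) (nat_lit 0x100150001c0840000e0400700540015021000034100068150000180400940a800200420000582000802a0000000800880080038002001800080a1503))) 
(.lf (nat_lit 3492151406) (dlOf (nat_lit 2) (nat_lit 0x81f00001c040004004000c00080a1502)))) 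
(.lf (nat_lit 1879441774) (dlOf (nat_lit 1) (nat_lit 0xb800200020008150a02)))) (.nd (nat_lit 8) 
(.lf (nat_lit 1881538798) (dlOf (nat_lit 1) (nat_lit 0x8c00400320008f41e82))) 
(.lf (nat_lit 5637277166) (dlOf (nat_lit 1) (nat_lit 0x4004000200080d3602)))))) (.nd (nat_lit 31) 
(.nd (nat_lit 10) (.nd (nat_lit 19) (.nd (nat_lit 7) 
(.lf (nat_lit 471203886) (dlOf (nat_lit 2) (nat_lit 0x3c13a0007602003400082c0801))) 
(.lf (nat_lit 4697751982) (dlOf (nat_lit 23) (nat_lit 0x3802d00040158011007c002d20c000805e004a02d002100f8005a01800100bc005c05a003c01f000b383000c017801600b400e403e0016606001402f000401680058c1000300b0000c0280015804001402d000a68100030168005300800380b40028a04003c05a0014302000602d0009e81000700f0004900800200b40019e04000805a0003002000402d000178100040178000a40800080b40003e04005005e002c02d001100f8000741800c00bc005405a002601f0000e03001c017800600b4005c03e0001b06004602f001d0168010007c000340c000805a000000200020028091001)))) 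
(.nd (nat_lit 9) 
(.lf (nat_lit 470417454) (dlOf (nat_lit 2) (nat_lit 0x20b9801eb00800a800800ac002007a00080e0a03))) 
(.lf (nat_lit 473563694) (dlOf (nat_lit 3) (nat_lit 0x4236000411a0002282000108d80010c080348008000c002000c0008f68a83))))) 
(.nd (nat_lit 6) 
(.lf (nat_lit 6308365870) (dlOf (nat_lit 1) (nat_lit 0x58008002400200060008053783))) 
(.nd (nat_lit 8) 
(.lf (nat_lit 469898350) (dlOf (nat_lit 1) (nat_lit 0x20008000800200060008009403))) 
(.lf (nat_lit 472778094) (dlOf (nat_lit 1) (nat_lit 0x8008001400200060008b03483)))))) 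
(.nd (nat_lit 18) (.nd (nat_lit 8) (.nd (nat_lit 9) 
(.lf (nat_lit 3154772014) (dlOf (nat_lit 2) (nat_lit 0x181900007e04000c00200020008320e82))) 
(.lf (nat_lit 2617377326) (dlOf (nat_lit 1) (nat_lit 0xa00080a1481)))) 
(.lf (nat_lit 2617377582) (dlOf (nat_lit 1) (nat_lit 0x4c00280a2201)))) (.nd (nat_lit 6) 
(.lf (nat_lit 2617638958) (dlOf (nat_lit 2) (nat_lit 0xf80000005a040044002004a0008110682))) 
(.nd (nat_lit 8) (.lf (nat_lit 4228251758) (dlOf (nat_lit 1) (nat_lit 0x20018090001))) 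
(.lf (nat_lit 4228252014) (dlOf (nat_lit 1) (nat_lit 0x60018090781))))))))) (.nd (nat_lit 26) 
(.nd (nat_lit 6) (.nd (nat_lit 31) (.nd (nat_lit 8) (.nd (nat_lit 9) (.nd (nat_lit 29) 
(.lf (nat_lit 1342184622) (dlOf (nat_lit 1) (nat_lit 0x40040002000800c202))) 
(.lf (nat_lit 1879055534) (dlOf (nat_lit 1) (nat_lit 0x2002800c201)))) 
(.lf (nat_lit 1476401838) (dlOf (nat_lit 1) (nat_lit 0x5c002800b781)))) (.nd (nat_lit 7) 
(.nd (nat_lit 27) (.lf (nat_lit 1342181166) (dlOf (nat_lit 1) (nat_lit 0x400400020008007482))) 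
(.lf (nat_lit 1476398894) (dlOf (nat_lit 1) (nat_lit 0x8008000400200020008007483)))) 
(.lf (nat_lit 1476921774) (dlOf (nat_lit 1) (nat_lit 0xc200082d4e81))))) (.nd (nat_lit 7) 
(.nd (nat_lit 8) (.nd (nat_lit 10) 
(.lf (nat_lit 4026538030) (dlOf (nat_lit 1) (nat_lit 0x2001800a601))) 
(.lf (nat_lit 3489664046) (dlOf (nat_lit 1) (nat_lit 0x220028006081)))) 
(.lf (nat_lit 3490319662) (dlOf (nat_lit 1) (nat_lit 0x3800400240008006882)))) (.nd (nat_lit 9) 
(.nd (nat_lit 8) (.lf (nat_lit 2550144174) (dlOf (nat_lit 1) (nat_lit 0x1c0040002000800c202))) 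
(.lf (nat_lit 3490187694) (dlOf (nat_lit 1) (nat_lit 0x20018004e81)))) (.nd (nat_lit 10) 
(.lf (nat_lit 6710889134) (dlOf (nat_lit 1) (nat_lit 0x400400020008005682))) 
(.lf (nat_lit 3087011502) (dlOf (nat_lit 1) (nat_lit 0x4004001a0018007282))))))) (.nd (nat_lit 10) 
(.nd (nat_lit 7) (.nd (nat_lit 8) (.nd (nat_lit 29) 
(.lf (nat_lit 1342183534) (dlOf (nat_lit 3) (nat_lit 0x813a00aa602002408e0052381800a880))) 
(.lf (nat_lit 1879054446) (dlOf (nat_lit 1) (nat_lit 0x840040002000800a882)))) 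
(.lf (nat_lit 4026538350) (dlOf (nat_lit 1) (nat_lit 0x2001800ac81)))) (.nd (nat_lit 8) 
(.lf (nat_lit 1476922094) (dlOf (nat_lit 1) (nat_lit 0x280080004002000200082d5a03))) 
(.nd (nat_lit 12) (.lf (nat_lit 1881410030) (dlOf (nat_lit 1) (nat_lit 0x1400400160018f04f02))) 
(.lf (nat_lit 2415925742) (dlOf (nat_lit 1) (nat_lit 0x4002800b281)))))) (.nd (nat_lit 29) 
(.nd (nat_lit 8) (.nd (nat_lit 27) 
(.lf (nat_lit 1342180462) (dlOf (nat_lit 1) (nat_lit 0x8008000400200020008006083))) 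
(.lf (nat_lit 2550140014) (dlOf (nat_lit 1) (nat_lit 0x400400020008006082)))) 
(.lf (nat_lit 3489926510) (dlOf (nat_lit 1) (nat_lit 0x20028006b01)))) (.nd (nat_lit 7) 
(.nd (nat_lit 9) 
(.lf (nat_lit 1879051374) (dlOf (nat_lit 1) (nat_lit 0x8008000400200020008006083))) 
(.lf (nat_lit 805441134) (dlOf (nat_lit 2) (nat_lit 0x801c000e30200020028117181)))) 
(.lf (nat_lit 805441006) (dlOf (nat_lit 1) (nat_lit 0x58008000800200500008116f03))))))) 
(.nd (nat_lit 9) (.nd (nat_lit 6) (.nd (nat_lit 10) (.nd (nat_lit 7) 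
(.lf (nat_lit 469768238) (dlOf (nat_lit 1) (nat_lit 0x40040002000800a602))) (.nd (nat_lit 8) 
(.lf (nat_lit 469764270) (dlOf (nat_lit 1) (nat_lit 0x8008000400200020008004903))) 
(.lf (nat_lit 4227860910) (dlOf (nat_lit 1) (nat_lit 0x16e0028004e81))))) (.nd (nat_lit 27) 
(.nd (nat_lit 30) 
(.lf (nat_lit 2483035310) (dlOf (nat_lit 1) (nat_lit 0x1000800240020002000800c203))) 
(.lf (nat_lit 1409293486) (dlOf (nat_lit 1) (nat_lit 0x800800040020002000800c203)))) 
(.lf (nat_lit 4227865774) (dlOf (nat_lit 1) (nat_lit 0x40040002000800c202))))) (.nd (nat_lit 10) 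
(.nd (nat_lit 12) (.nd (nat_lit 8) 
(.lf (nat_lit 1006635118) (dlOf (nat_lit 1) (nat_lit 0x20028004781))) 
(.lf (nat_lit 1409288558) (dlOf (nat_lit 1) (nat_lit 0x100018004e81)))) (.nd (nat_lit 18) 
(.lf (nat_lit 3690993774) (dlOf (nat_lit 1) (nat_lit 0x2002800a881))) 
(.lf (nat_lit 3557038190) (dlOf (nat_lit 5) (nat_lit 0xe011002a9808010018400580c0003a038001701100291c2000080e00002a04001404400000020046001812a881))))) 
(.nd (nat_lit 29) (.lf (nat_lit 1409289326) (dlOf (nat_lit 1) (nat_lit 0x400400020008006082))) 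
(.lf (nat_lit 1946160238) (dlOf (nat_lit 1) (nat_lit 0x8008000400200020008006083)))))) 
(.nd (nat_lit 27) (.nd (nat_lit 6) (.nd (nat_lit 8) (.nd (nat_lit 12) 
(.lf (nat_lit 6241258158) (dlOf (nat_lit 1) (nat_lit 0x4004000200080d5682))) 
(.lf (nat_lit 3557038766) (dlOf (nat_lit 1) (nat_lit 0x1880020030000812b782)))) 
(.lf (nat_lit 4094692270) (dlOf (nat_lit 1) (nat_lit 0x80008055d01)))) (.nd (nat_lit 17) 
(.lf (nat_lit 4094167790) (dlOf (nat_lit 3) (nat_lit 0x4800c00880000002804002c0130000f018005a00))) 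
(.nd (nat_lit 29) (.lf (nat_lit 3556903662) (dlOf (nat_lit 1) (nat_lit 0x4004000200080d5a02))) 
(.lf (nat_lit 4093774574) (dlOf (nat_lit 2) (nat_lit 0xe00b0000a0080010008006400200120008005a03)))))) 
(.nd (nat_lit 8) (.nd (nat_lit 6) 
(.lf (nat_lit 5301602990) (dlOf (nat_lit 1) (nat_lit 0x400400020008005682))) (.nd (nat_lit 12) 
(.lf (nat_lit 6377573102) (dlOf (nat_lit 1) (nat_lit 0x4004000200080e5a02))) 
(.lf (nat_lit 469768942) (dlOf (nat_lit 1) (nat_lit 0x4800800040020010000800b983))))) 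
(.nd (nat_lit 7) 
(.lf (nat_lit 3690991406) (dlOf (nat_lit 1) (nat_lit 0x8008000400200020008007483))) 
(.nd (nat_lit 10) (.lf (nat_lit 5301603246) (dlOf (nat_lit 1) (nat_lit 0x400400020008005d02))) 
(.lf (nat_lit 1006636974) (dlOf (nat_lit 1) (nat_lit 0x20028007981))))))))))) (.nd (nat_lit 18) 
(.nd (nat_lit 28) (.nd (nat_lit 17) (.nd (nat_lit 7) (.nd (nat_lit 23) (.nd (nat_lit 27) 
(.nd (nat_lit 21) (.nd (nat_lit 6) (.nd (nat_lit 19) 
(.lf (nat_lit 5972754478) (dlOf (nat_lit 1) (nat_lit 0x200180b0001))) 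
(.lf (nat_lit 1678311470) (dlOf (nat_lit 1) (nat_lit 0x180080010002000800081e0f83)))) 
(.lf (nat_lit 50398574) (dlOf (nat_lit 1) (nat_lit 0x400294c3481)))) (.nd (nat_lit 19) 
(.nd (nat_lit 20) 
(.lf (nat_lit 23134254) (dlOf (nat_lit 2) (nat_lit 0x2880000004a04001800200020008b60902))) 
(.lf (nat_lit 3211310) (dlOf (nat_lit 1) (nat_lit 0x40018200001)))) 
(.lf (nat_lit 2755199022) (dlOf (nat_lit 2) (nat_lit 0x8010000100080030008002800200020008130683))))) 
(.nd (nat_lit 9) (.nd (nat_lit 19) (.nd (nat_lit 29) 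
(.lf (nat_lit 3355508782) (dlOf (nat_lit 1) (nat_lit 0x200180a0001))) 
(.lf (nat_lit 1744896046) (dlOf (nat_lit 1) (nat_lit 0x20008090001)))) 
(.lf (nat_lit 3892903982) (dlOf (nat_lit 1) (nat_lit 0x5000400060018290e82)))) (.nd (nat_lit 6) 
(.nd (nat_lit 8) (.lf (nat_lit 1208027694) (dlOf (nat_lit 1) (nat_lit 0x80028095181))) 
(.lf (nat_lit 671156014) (dlOf (nat_lit 1) (nat_lit 0x8008000400200020008143d83)))) 
(.lf (nat_lit 1208027758) (dlOf (nat_lit 1) (nat_lit 0x60018095381)))))) (.nd (nat_lit 6) 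
(.nd (nat_lit 19) (.nd (nat_lit 8) 
(.lf (nat_lit 9502766) (dlOf (nat_lit 1) (nat_lit 0x8008003800200120008560703))) 
(.lf (nat_lit 10551598) (dlOf (nat_lit 2) (nat_lit 0x20118012a0080010008001c002002000085f8403)))) 
(.nd (nat_lit 20) (.lf (nat_lit 42532910) (dlOf (nat_lit 1) (nat_lit 0x1c0029260281))) 
(.lf (nat_lit 26804270) (dlOf (nat_lit 1) (nat_lit 0x58008001800200180008c70883))))) 
(.nd (nat_lit 8) (.nd (nat_lit 20) 
(.lf (nat_lit 12648558) (dlOf (nat_lit 1) (nat_lit 0x180080004002000200086d1503))) 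
(.lf (nat_lit 47251566) (dlOf (nat_lit 1) (nat_lit 0x80080004002000200093c0c03)))) 
(.lf (nat_lit 25756014) (dlOf (nat_lit 1) (nat_lit 0x38008001800200040008c10a03)))))) 
(.nd (nat_lit 8) (.nd (nat_lit 6) (.nd (nat_lit 9) (.nd (nat_lit 10) 
(.lf (nat_lit 537460910) (dlOf (nat_lit 1) (nat_lit 0x4004004e0008090302))) 
(.lf (nat_lit 134290606) (dlOf (nat_lit 2) (nat_lit 0x258104002580401180040072000800c202)))) 
(.nd (nat_lit 10) (.lf (nat_lit 1744898734) (dlOf (nat_lit 1) (nat_lit 0x400400020008095682))) 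
(.lf (nat_lit 2754678446) (dlOf (nat_lit 1) (nat_lit 0xa00280f7281))))) (.nd (nat_lit 10) 
(.lf (nat_lit 50399982) (dlOf (nat_lit 1) (nat_lit 0x600094c5a01))) (.nd (nat_lit 26) 
(.lf (nat_lit 671155950) (dlOf (nat_lit 2) (nat_lit 0x30098000500800d0008000c00200020008143b03))) 
(.lf (nat_lit 2348877550) (dlOf (nat_lit 3) (nat_lit 0x6602a0000b01002901500000c0802700080044002004c0008003b03)))))) 
(.nd (nat_lit 11) (.nd (nat_lit 31) (.nd (nat_lit 6) 
(.lf (nat_lit 1275134382) (dlOf (nat_lit 1) (nat_lit 0x800200120008091002))) 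
(.lf (nat_lit 8456174) (dlOf (nat_lit 1) (nat_lit 0x20008514601)))) (.nd (nat_lit 12) 
(.lf (nat_lit 3355509678) (dlOf (nat_lit 1) (nat_lit 0x3a00280a2681))) 
(.lf (nat_lit 3355513774) (dlOf (nat_lit 1) (nat_lit 0x8800280a9181))))) (.nd (nat_lit 6) 
(.nd (nat_lit 10) (.lf (nat_lit 2885753774) (dlOf (nat_lit 1) (nat_lit 0x18002000e000800bd82))) 
(.lf (nat_lit 7933870) (dlOf (nat_lit 1) (nat_lit 0x20028517981)))) 
(.lf (nat_lit 33098222) (dlOf (nat_lit 1) (nat_lit 0xdc004002a0008f54f02))))))) (.nd (nat_lit 26) 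
(.nd (nat_lit 19) (.nd (nat_lit 6) (.nd (nat_lit 7) (.nd (nat_lit 23) 
(.lf (nat_lit 6442647598) (dlOf (nat_lit 1) (nat_lit 0x20028120c01))) 
(.lf (nat_lit 25362478) (dlOf (nat_lit 6) (nat_lit 0x464c000130ac000a208000d930001cc2b0002782002f60d8000cc0803432fc0079904003ac280001903002e60d8000c40801000080050002000c0008c00603)))) 
(.lf (nat_lit 36899246) (dlOf (nat_lit 1) (nat_lit 0x400200020009074e82)))) (.nd (nat_lit 7) 
(.lf (nat_lit 20125294) (dlOf (nat_lit 1) (nat_lit 0x700080028002000400089d9c83))) 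
(.lf (nat_lit 8587246) (dlOf (nat_lit 1) (nat_lit 0x60018514601))))) (.nd (nat_lit 8) 
(.nd (nat_lit 20) (.nd (nat_lit 7) 
(.lf (nat_lit 11206702) (dlOf (nat_lit 1) (nat_lit 0x78008000800200200008670683))) 
(.lf (nat_lit 36373678) (dlOf (nat_lit 1) (nat_lit 0x20019072c01)))) (.nd (nat_lit 21) 
(.lf (nat_lit 1769518) (dlOf (nat_lit 2) (nat_lit 0xd0b500068054000540800b000200240008130802))) 
(.lf (nat_lit 29032494) (dlOf (nat_lit 1) (nat_lit 0x20018db0e81))))) (.nd (nat_lit 6) 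
(.lf (nat_lit 54201134) (dlOf (nat_lit 1) (nat_lit 0x9800800f000200240009655c03))) 
(.lf (nat_lit 8061294) (dlOf (nat_lit 1) (nat_lit 0x240028510f81)))))) (.nd (nat_lit 9) 
(.nd (nat_lit 29) (.nd (nat_lit 7) (.nd (nat_lit 19) 
(.lf (nat_lit 3288530990) (dlOf (nat_lit 4) (nat_lit 0x74806a04900340234018812600c008d4054012002900a80118125808008f80160002512001e0350000f0100690050000740802200080050002003c0008070903))) 
(.lf (nat_lit 4362797102) (dlOf (nat_lit 4) (nat_lit 0x8c406600032020444033000188102170198000c00802a800802b000200be0008100603)))) 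
(.lf (nat_lit 6509758894) (dlOf (nat_lit 1) (nat_lit 0x380080028002000a0008144e83)))) 
(.nd (nat_lit 6) (.nd (nat_lit 20) 
(.lf (nat_lit 6107103278) (dlOf (nat_lit 1) (nat_lit 0x8008005400200020008090003))) 
(.lf (nat_lit 2752708654) (dlOf (nat_lit 4) (nat_lit 0x281320003102005809800050498000b81000281e400024040014004000c0018030c02)))) 
(.lf (nat_lit 2753233390) (dlOf (nat_lit 7) (nat_lit 0x3207fc0040c0402383fe002040200741ff0010181000c0ff8007c40802d87f4001b40402883fa000d40200020028090d81))))) 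
(.nd (nat_lit 7) (.nd (nat_lit 6) (.nd (nat_lit 19) 
(.lf (nat_lit 3825402414) (dlOf (nat_lit 1) (nat_lit 0x1000018158001))) 
(.lf (nat_lit 2753233454) (dlOf (nat_lit 2) (nat_lit 0xc03fa0000002005c0008090e81)))) 
(.lf (nat_lit 3422754414) (dlOf (nat_lit 1) (nat_lit 0x600080a9c81)))) (.nd (nat_lit 8) 
(.lf (nat_lit 6107105966) (dlOf (nat_lit 1) (nat_lit 0x400400020008095682))) 
(.lf (nat_lit 2752186286) (dlOf (nat_lit 1) (nat_lit 0x260028004381)))))))) (.nd (nat_lit 17) 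
(.nd (nat_lit 26) (.nd (nat_lit 8) (.nd (nat_lit 29) (.nd (nat_lit 6) (.nd (nat_lit 19) 
(.lf (nat_lit 4563468334) (dlOf (nat_lit 1) (nat_lit 0x400400020008090002))) 
(.lf (nat_lit 3493396526) (dlOf (nat_lit 2) (nat_lit 0x80100000fc080030008002800200020008130683)))) 
(.lf (nat_lit 4563468526) (dlOf (nat_lit 2) (nat_lit 0x602f000b6018090a80)))) (.nd (nat_lit 9) 
(.nd (nat_lit 19) (.lf (nat_lit 1881210926) (dlOf (nat_lit 1) (nat_lit 0x400200020008e60282))) 
(.lf (nat_lit 805896238) (dlOf (nat_lit 1) (nat_lit 0x180080010002000800081e0f83)))) 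
(.lf (nat_lit 1879114286) (dlOf (nat_lit 1) (nat_lit 0x1000400020008018002))))) (.nd (nat_lit 9) 
(.nd (nat_lit 7) 
(.lf (nat_lit 805372206) (dlOf (nat_lit 2) (nat_lit 0xa0288000d80802180080010002001a0008090503))) 
(.nd (nat_lit 20) (.lf (nat_lit 4697686446) (dlOf (nat_lit 1) (nat_lit 0x5c002000c0008091002))) 
(.lf (nat_lit 5772476846) (dlOf (nat_lit 1) (nat_lit 0x180018091001))))) (.nd (nat_lit 6) 
(.lf (nat_lit 2952861486) (dlOf (nat_lit 1) (nat_lit 0x2002800a101))) (.nd (nat_lit 10) 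
(.lf (nat_lit 1476465646) (dlOf (nat_lit 1) (nat_lit 0x20028009201))) 
(.lf (nat_lit 4026603502) (dlOf (nat_lit 1) (nat_lit 0x8008000c0020002000800a603))))))) 
(.nd (nat_lit 9) (.nd (nat_lit 8) (.nd (nat_lit 19) (.nd (nat_lit 6) 
(.lf (nat_lit 335609902) (dlOf (nat_lit 1) (nat_lit 0x400400020008090002))) 
(.lf (nat_lit 1543572590) (dlOf (nat_lit 1) (nat_lit 0x8008000400200040008146083)))) 
(.nd (nat_lit 20) (.lf (nat_lit 474546222) (dlOf (nat_lit 1) (nat_lit 0x2000291a0281))) 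
(.lf (nat_lit 471400494) (dlOf (nat_lit 1) (nat_lit 0x1f80080010002012800082f0e83))))) 
(.nd (nat_lit 7) (.nd (nat_lit 27) 
(.lf (nat_lit 2483096878) (dlOf (nat_lit 1) (nat_lit 0x1e0018006881))) 
(.lf (nat_lit 4227927342) (dlOf (nat_lit 1) (nat_lit 0x300028006881)))) (.nd (nat_lit 6) 
(.lf (nat_lit 2483095982) (dlOf (nat_lit 3) (nat_lit 0x40040001401c002200000c7a0300060080062080800f00080100002004a0008004e83))) 
(.lf (nat_lit 1543572974) (dlOf (nat_lit 1) (nat_lit 0x400200720008146f02)))))) (.nd (nat_lit 6) 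
(.nd (nat_lit 7) (.nd (nat_lit 11) 
(.lf (nat_lit 2617312046) (dlOf (nat_lit 1) (nat_lit 0x3c00280a2201))) 
(.lf (nat_lit 5704321838) (dlOf (nat_lit 1) (nat_lit 0x40028055c01)))) 
(.lf (nat_lit 335612590) (dlOf (nat_lit 1) (nat_lit 0x400400020008095682)))) (.nd (nat_lit 7) 
(.nd (nat_lit 11) (.lf (nat_lit 469833582) (dlOf (nat_lit 1) (nat_lit 0xc002800a301))) 
(.lf (nat_lit 469831534) (dlOf (nat_lit 1) (nat_lit 0x8008002000200040008007783)))) 
(.lf (nat_lit 6375408622) (dlOf (nat_lit 2) (nat_lit 0x58050007f10200080018002881))))))) 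
(.nd (nat_lit 26) (.nd (nat_lit 20) (.nd (nat_lit 29) (.nd (nat_lit 6) (.nd (nat_lit 19) 
(.lf (nat_lit 268632110) (dlOf (nat_lit 1) (nat_lit 0x4004000200080e0002))) 
(.lf (nat_lit 1342898222) (dlOf (nat_lit 1) (nat_lit 0x420028100f81)))) 
(.lf (nat_lit 3624078446) (dlOf (nat_lit 1) (nat_lit 0x8008000400200020008146083)))) 
(.nd (nat_lit 21) (.nd (nat_lit 27) 
(.lf (nat_lit 4026728494) (dlOf (nat_lit 3) (nat_lit 0x20600d4102806808a00310420018022a80a809b005203500230027011020c0080000403e02f601d004b0060206002c0004a3400d40140001e0200040028070801))) 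
(.lf (nat_lit 6308429870) (dlOf (nat_lit 4) (nat_lit 0x1000d8022006000180100002f0600300180001601000400c8000480801f8008019400200960008080383)))) 
(.lf (nat_lit 1881341998) (dlOf (nat_lit 1) (nat_lit 0x4e0008ea0401))))) (.nd (nat_lit 6) 
(.nd (nat_lit 9) 
(.lf (nat_lit 3490906158) (dlOf (nat_lit 4) (nat_lit 0x2812e0002e02005809600050498000ac1000281ec00024040014004000c0018030c02))) 
(.lf (nat_lit 3491430958) (dlOf (nat_lit 2) (nat_lit 0xc03d60000002005c0008090e81)))) 
(.nd (nat_lit 7) 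
(.lf (nat_lit 3491430510) (dlOf (nat_lit 1) (nat_lit 0x8008003400200100008090003))) 
(.nd (nat_lit 9) 
(.lf (nat_lit 3491430894) (dlOf (nat_lit 7) (nat_lit 0x4707b40040c0401903da002050200741ed0010181000c0f68007c40802d87ac001b40402883d6000d40200020028090d81))) 
(.lf (nat_lit 3493004270) (dlOf (nat_lit 1) (nat_lit 0x4002000200080f2882))))))) (.nd (nat_lit 19) 
(.nd (nat_lit 30) (.nd (nat_lit 7) (.nd (nat_lit 10) 
(.lf (nat_lit 4630708270) (dlOf (nat_lit 1) (nat_lit 0x8008008400200020008090003))) 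
(.lf (nat_lit 474154030) (dlOf (nat_lit 1) (nat_lit 0x4002000200090e2882)))) (.nd (nat_lit 6) 
(.lf (nat_lit 2483225006) (dlOf (nat_lit 1) (nat_lit 0x40028090781))) 
(.lf (nat_lit 469959150) (dlOf (nat_lit 1) (nat_lit 0x40028017d01))))) (.nd (nat_lit 9) 
(.nd (nat_lit 27) 
(.lf (nat_lit 5704450094) (dlOf (nat_lit 4) (nat_lit 0x1000d802200600018010000320600300180001781000400c8000480801f8008019400200960008080383))) 
(.lf (nat_lit 5838667822) (dlOf (nat_lit 1) (nat_lit 0x20028120c01)))) (.nd (nat_lit 7) 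
(.lf (nat_lit 6241323822) (dlOf (nat_lit 1) (nat_lit 0x2800080d5c01))) 
(.lf (nat_lit 3556973230) (dlOf (nat_lit 1) (nat_lit 0x800800180020002000812b783)))))) 
(.nd (nat_lit 21) (.nd (nat_lit 29) 
(.lf (nat_lit 470482990) (dlOf (nat_lit 1) (nat_lit 0x420028100f81))) (.nd (nat_lit 30) 
(.lf (nat_lit 1007353902) (dlOf (nat_lit 1) (nat_lit 0x4004000200082f0e82))) 
(.lf (nat_lit 4228579374) (dlOf (nat_lit 4) (nat_lit 0x8c406400033020444032000190102170190000c40802a800802b000200be0008100603))))) 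
(.nd (nat_lit 9) 
(.lf (nat_lit 472580142) (dlOf (nat_lit 3) (nat_lit 0xcd08f8000600806e8514029c27a01a00cf006000e0000002000480080010002000200089c0283))) 
(.lf (nat_lit 473629230) (dlOf (nat_lit 4) (nat_lit 0x3846c000c23400100580002283002008d80010c08009046c00000040124004003a0008f68a82))))))))) 
(.nd (nat_lit 17) (.nd (nat_lit 28) (.nd (nat_lit 21) (.nd (nat_lit 19) (.nd (nat_lit 30) 
(.nd (nat_lit 20) (.nd (nat_lit 26) (.nd (nat_lit 6) 
(.lf (nat_lit 134545454) (dlOf (nat_lit 2) (nat_lit 0x40088000780800380080020002000c0008070903))) 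
(.lf (nat_lit 38076526) (dlOf (nat_lit 1) (nat_lit 0x20009122481)))) (.nd (nat_lit 8) 
(.lf (nat_lit 6509887534) (dlOf (nat_lit 4) (nat_lit 0x78098000802e00045040026026000800b8001101000d8098001002e000350400040008160581))) 
(.lf (nat_lit 2751792942) (dlOf (nat_lit 1) (nat_lit 0x20008003d81))))) (.nd (nat_lit 7) 
(.nd (nat_lit 22) 
(.lf (nat_lit 68485166) (dlOf (nat_lit 3) (nat_lit 0x20bf000205c0000f01000b00000001e04008800200280008580e82))) 
(.lf (nat_lit 30736430) (dlOf (nat_lit 2) (nat_lit 0x400000003c080010008000400200020008e40e83)))) 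
(.lf (nat_lit 51709102) (dlOf (nat_lit 1) (nat_lit 0x400400020009512c02))))) (.nd (nat_lit 29) 
(.nd (nat_lit 6) (.nd (nat_lit 7) 
(.lf (nat_lit 3221553454) (dlOf (nat_lit 2) (nat_lit 0xe800000008040040002001c0008137a02))) 
(.lf (nat_lit 1074069678) (dlOf (nat_lit 1) (nat_lit 0x1760018090301)))) 
(.lf (nat_lit 3288662126) (dlOf (nat_lit 12) (nat_lit 0x803600110158000401000900ac0001e04000806c000a034000c018001700ac00340520000e0a0004040000c01a000200a40001a0c002406c00020340016015800280900001810005006c000c034000e019000e00c000840560026029000c01200002c3800200d80000e04001006c000050200060360000201000401b0000080800200c00018052000000401c800080a1501)))) 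
(.nd (nat_lit 27) 
(.lf (nat_lit 5905907758) (dlOf (nat_lit 4) (nat_lit 0x78094000802e00045040026025000800b8001101000d8094001002e000350400040008160581))) 
(.lf (nat_lit 1745158190) (dlOf (nat_lit 3) (nat_lit 0x90190000900800a00cc00500480001d04000800080b0401)))))) 
(.nd (nat_lit 23) (.nd (nat_lit 7) (.nd (nat_lit 9) 
(.lf (nat_lit 21823534) (dlOf (nat_lit 1) (nat_lit 0x1b0008014c002006a0008a70583))) 
(.lf (nat_lit 537726510) (dlOf (nat_lit 1) (nat_lit 0x200180f7181)))) (.nd (nat_lit 9) 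
(.lf (nat_lit 2753364142) (dlOf (nat_lit 1) (nat_lit 0x10008002000200080008090303))) 
(.lf (nat_lit 537726638) (dlOf (nat_lit 1) (nat_lit 0x28e00280f7281))))) (.nd (nat_lit 20) 
(.nd (nat_lit 24) 
(.lf (nat_lit 42795054) (dlOf (nat_lit 5) (nat_lit 0x33a9000030040069d4a0068e31002f675002032d800016100079d4a0030e31001c6750012b2d800014100051d4a001ce310001675000db2d80000010014800400200009280282))) 
(.lf (nat_lit 59572270) (dlOf (nat_lit 1) (nat_lit 0x600080010002001e0009810a03)))) 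
(.lf (nat_lit 10289198) (dlOf (nat_lit 4) (nat_lit 0x5705a0000c026010c000000178300180b400ad80000005c0800940000001102015800285c0c01)))))) 
(.nd (nat_lit 20) (.nd (nat_lit 19) (.nd (nat_lit 6) (.nd (nat_lit 9) 
(.lf (nat_lit 15007790) (dlOf (nat_lit 1) (nat_lit 0x680080020002001600087a0d03))) 
(.lf (nat_lit 23396910) (dlOf (nat_lit 19) (nat_lit 0x135e45809a30e00003f040363916002ec380000f81013b645809db0e00003d0404c39160256c380000d81013ae45809cf0e0000340404e99160274c380000a81012f645809770e0000230404e59160271c3800008010136645809ab0e00001f0404db9160269c3800007810133645809830e00001c0404d79160253c380000681012f645808070e0000190404c3916024bc3800003010067e45803030e00000b0404c39160260c3800002810141645809e30e0000090404e99160269c38000000100638008000c00200f00008b80e83)))) 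
(.lf (nat_lit 23396846) (dlOf (nat_lit 2) (nat_lit 0xadc38000524080028008000400200380008b80d83)))) 
(.nd (nat_lit 9) (.nd (nat_lit 10) 
(.lf (nat_lit 2949166) (dlOf (nat_lit 2) (nat_lit 0xac0000001002000200281e0901))) 
(.lf (nat_lit 36504622) (dlOf (nat_lit 1) (nat_lit 0x20019072881)))) 
(.lf (nat_lit 36506158) (dlOf (nat_lit 1) (nat_lit 0x20019075181))))) (.nd (nat_lit 23) 
(.nd (nat_lit 9) (.nd (nat_lit 19) 
(.lf (nat_lit 3473454) (dlOf (nat_lit 2) (nat_lit 0x5dcc80762c080030008005800200040008200003))) 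
(.lf (nat_lit 2755461166) (dlOf (nat_lit 2) (nat_lit 0x3028000100780005408000400400060008190902)))) 
(.nd (nat_lit 6) (.lf (nat_lit 57999918) (dlOf (nat_lit 1) (nat_lit 0x4004000200097a8a82))) 
(.lf (nat_lit 20256366) (dlOf (nat_lit 1) (nat_lit 0x1380080028002014400089d9c83))))) 
(.nd (nat_lit 7) (.nd (nat_lit 19) 
(.lf (nat_lit 62193710) (dlOf (nat_lit 5) (nat_lit 0xc1d000070df80048650000ca0c00103a0000c1bf00090ca00028138000c81000283a000141bf00070ca00040138000c41000183a0000c1bf000a0ca00040138000be10000400400040009970d02))) 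
(.lf (nat_lit 45940782) (dlOf (nat_lit 1) (nat_lit 0x20029370a01)))) 
(.lf (nat_lit 49613230) (dlOf (nat_lit 1) (nat_lit 0x20019464e81))))))) (.nd (nat_lit 6) 
(.nd (nat_lit 7) (.nd (nat_lit 8) (.nd (nat_lit 10) (.nd (nat_lit 19) 
(.lf (nat_lit 872742958) (dlOf (nat_lit 3) (nat_lit 0x90190000940800a00cc00500480001d04000800080b0401))) 
(.lf (nat_lit 3493658670) (dlOf (nat_lit 1) (nat_lit 0x20008190801)))) 
(.lf (nat_lit 1345651758) (dlOf (nat_lit 1) (nat_lit 0x5000400440018dd2882)))) (.nd (nat_lit 9) 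
(.lf (nat_lit 805634350) (dlOf (nat_lit 1) (nat_lit 0x120008157a01))) 
(.lf (nat_lit 3557103406) (dlOf (nat_lit 2) (nat_lit 0x800000008008003800800300020012000812a103))))) 
(.nd (nat_lit 10) (.nd (nat_lit 19) 
(.lf (nat_lit 1946484910) (dlOf (nat_lit 1) (nat_lit 0x1760018090301))) 
(.lf (nat_lit 3491561646) (dlOf (nat_lit 1) (nat_lit 0xe0028090301)))) (.nd (nat_lit 8) 
(.lf (nat_lit 3489995950) (dlOf (nat_lit 1) (nat_lit 0x80080004002008e000800c203))) 
(.lf (nat_lit 6375671214) (dlOf (nat_lit 2) (nat_lit 0x68254002ca04000c00200040008003602)))))) 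
(.nd (nat_lit 27) (.nd (nat_lit 29) (.nd (nat_lit 30) 
(.lf (nat_lit 4563730542) (dlOf (nat_lit 2) (nat_lit 0x100cc00000040008004001e00080d0c02))) 
(.lf (nat_lit 5637472366) (dlOf (nat_lit 1) (nat_lit 0x8004001400080f0a82)))) (.nd (nat_lit 26) 
(.lf (nat_lit 4026859630) (dlOf (nat_lit 12) (nat_lit 0x803600110158000401000900ac0001e04000806c000a034000c018001700ac00340520000e0a0004040000c01a000200a40001a0c002406c00020340016015800280900001810005006c000c034000e019000e00c000840560026029000c01200002c3800200d80000e04001006c000050200060360000201000401b0000080800200c00018052000000401c800080a1501))) 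
(.lf (nat_lit 6241452142) (dlOf (nat_lit 1) (nat_lit 0x8004001400080f0a82))))) (.nd (nat_lit 22) 
(.nd (nat_lit 29) 
(.lf (nat_lit 4697948270) (dlOf (nat_lit 2) (nat_lit 0x100cc00000040008004001e00080d0c02))) 
(.lf (nat_lit 5234819182) (dlOf (nat_lit 1) (nat_lit 0x4004001800180f0a82)))) 
(.lf (nat_lit 474284142) (dlOf (nat_lit 1) (nat_lit 0x1c00400140009110a82))))))) (.nd (nat_lit 21) 
(.nd (nat_lit 6) (.nd (nat_lit 26) (.nd (nat_lit 24) (.nd (nat_lit 20) 
(.lf (nat_lit 1342636078) (dlOf (nat_lit 6) (nat_lit 0x3c4980060249000f124000808fc003047a00542320001118800387bc00c03a40002a1200322490000f01000f124800e08fc016c462003a22b00110bc8000602800689240002e0400400000001002000200280a0901))) 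
(.lf (nat_lit 9895982) (dlOf (nat_lit 2) (nat_lit 0x7328000158080010008001000200060008590d03)))) 
(.nd (nat_lit 19) (.lf (nat_lit 51839022) (dlOf (nat_lit 1) (nat_lit 0x1a0029510001))) 
(.lf (nat_lit 52363310) (dlOf (nat_lit 3) (nat_lit 0x8b2d800030040005dbe000000200060019530281))))) 
(.nd (nat_lit 8) (.nd (nat_lit 19) (.nd (nat_lit 27) 
(.lf (nat_lit 3557228590) (dlOf (nat_lit 1) (nat_lit 0x4c00400020008170402))) 
(.lf (nat_lit 470220846) (dlOf (nat_lit 8) (nat_lit 0x30924006047a012c2320017118800088b002bc3a4006a1c8001b0de000186080005424052849203b423f0053118808708ac028845000581bd0000f060011124800188f4000c3a40001d060150249001711f80ba08c402f8456007222800410c100006030050092401e047e005c2310000b83011a0000000400801007cc00012040008004013400180a0802)))) 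
(.lf (nat_lit 470745134) (dlOf (nat_lit 8) (nat_lit 0x5a0000000a8100050f3800b0000000280800203ce0040000000098200060f3801080000002408000400000004020022000000018100090f3800008080140008011800200060008170403)))) 
(.nd (nat_lit 7) (.lf (nat_lit 2080834862) (dlOf (nat_lit 1) (nat_lit 0x8c00280e3201))) 
(.lf (nat_lit 4094626734) (dlOf (nat_lit 1) (nat_lit 0x400400020008055d02)))))) (.nd (nat_lit 29) 
(.nd (nat_lit 7) (.nd (nat_lit 8) 
(.lf (nat_lit 21430382) (dlOf (nat_lit 1) (nat_lit 0x20028a40c01))) 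
(.lf (nat_lit 3221684590) (dlOf (nat_lit 1) (nat_lit 0x40008170781)))) (.nd (nat_lit 9) 
(.lf (nat_lit 5772346606) (dlOf (nat_lit 1) (nat_lit 0x400200020008092e82))) 
(.lf (nat_lit 1208421102) (dlOf (nat_lit 3) (nat_lit 0x74050000280200be02800010118000781000e8008006c002000600080e5a03))))) 
(.nd (nat_lit 8) (.nd (nat_lit 26) 
(.lf (nat_lit 1611071598) (dlOf (nat_lit 1) (nat_lit 0xc002000400080d0c02))) 
(.lf (nat_lit 738656366) (dlOf (nat_lit 1) (nat_lit 0xc002000400080d0c02)))) (.nd (nat_lit 11) 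
(.lf (nat_lit 3959882094) (dlOf (nat_lit 1) (nat_lit 0x40008170781))) 
(.lf (nat_lit 6376327534) (dlOf (nat_lit 1) (nat_lit 0x3800200040008094e82))))))) (.nd (nat_lit 20) 
(.nd (nat_lit 6) (.nd (nat_lit 7) (.nd (nat_lit 9) (.nd (nat_lit 19) 
(.lf (nat_lit 27721774) (dlOf (nat_lit 1) (nat_lit 0x400200020008d20882))) 
(.lf (nat_lit 11468846) (dlOf (nat_lit 14) (nat_lit 0xc28f80048fb8000540800240000002802063a42d03210d7800086b409802d006340350010019814700300eb40000002510000c51f000d1f70000601001f948400024040678a42005e52000281ec0000401814394840278a400000f040222521000070100a42908000340801194840001204041ca4200008020046521000018100772908000040800080080410002000800086a0803)))) 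
(.lf (nat_lit 19862062) (dlOf (nat_lit 1) (nat_lit 0x1800289d8981)))) (.nd (nat_lit 10) 
(.lf (nat_lit 3492743342) (dlOf (nat_lit 1) (nat_lit 0x400280f4901))) 
(.lf (nat_lit 2754550958) (dlOf (nat_lit 1) (nat_lit 0x80080004002000200080fc203))))) 
(.nd (nat_lit 24) (.nd (nat_lit 7) 
(.lf (nat_lit 3492743278) (dlOf (nat_lit 1) (nat_lit 0x1180080004002000c00080f4783))) 
(.lf (nat_lit 2754546926) (dlOf (nat_lit 3) (nat_lit 0xa0790001b01001e03c8000d40800700080010002000a00080f6503)))) 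
(.nd (nat_lit 9) (.lf (nat_lit 19860590) (dlOf (nat_lit 1) (nat_lit 0x4004000200089d6082))) 
(.lf (nat_lit 19861102) (dlOf (nat_lit 1) (nat_lit 0x2800289d7181)))))) (.nd (nat_lit 7) 
(.nd (nat_lit 6) (.nd (nat_lit 24) 
(.lf (nat_lit 473890862) (dlOf (nat_lit 8) (nat_lit 0x20528000480400902d0003c16600240a28033033c019402e0000b0a00020cf000100b80002810021033c010802e000090400860cf004100b80002010001033c0000e040114284008e0cf003e00b8000001801880080080002001c0008fc0283))) 
(.lf (nat_lit 20906030) (dlOf (nat_lit 1) (nat_lit 0x100080048002000800089f0403)))) 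
(.nd (nat_lit 9) (.nd (nat_lit 26) 
(.lf (nat_lit 3493265774) (dlOf (nat_lit 1) (nat_lit 0x2880080004002000a0008105503))) 
(.lf (nat_lit 2755068270) (dlOf (nat_lit 1) (nat_lit 0x2880080004002000a0008105503)))) 
(.lf (nat_lit 8329070) (dlOf (nat_lit 1) (nat_lit 0x1880080004002004c000851a303))))) 
(.nd (nat_lit 8) (.nd (nat_lit 10) 
(.lf (nat_lit 4128942) (dlOf (nat_lit 1) (nat_lit 0x40008000400200020008290283))) 
(.lf (nat_lit 8328366) (dlOf (nat_lit 1) (nat_lit 0x20008006c00200040008519503)))) 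
(.nd (nat_lit 11) (.nd (nat_lit 19) 
(.lf (nat_lit 58130862) (dlOf (nat_lit 1) (nat_lit 0x84002001200097c6e82))) 
(.lf (nat_lit 8323502) (dlOf (nat_lit 1) (nat_lit 0x400200020008511002)))) 
(.lf (nat_lit 62851502) (dlOf (nat_lit 1) (nat_lit 0x4002000200099a4e82))))))))))) 
(.nd (nat_lit 17) (.nd (nat_lit 18) (.nd (nat_lit 28) (.nd (nat_lit 16) (.nd (nat_lit 26) 
(.nd (nat_lit 19) (.nd (nat_lit 9) (.nd (nat_lit 8) (.nd (nat_lit 6) (.nd (nat_lit 20) 
(.lf (nat_lit 14712878) (dlOf (nat_lit 4) (nat_lit 0x11a87000651f80002a08001aa1c0001302000350e000fa3f0000481001780080130002002a0008770403))) 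
(.lf (nat_lit 13664302) (dlOf (nat_lit 6) (nat_lit 0x34af40004b02000c57a000250100092bd00018fb80009008008c7b60003102001a00000018018740600)))) 
(.lf (nat_lit 46170222) (dlOf (nat_lit 1) (nat_lit 0x4a0029380181)))) (.nd (nat_lit 6) 
(.nd (nat_lit 7) (.lf (nat_lit 1081646) (dlOf (nat_lit 1) (nat_lit 0x400200020008068402))) 
(.lf (nat_lit 2147517870) (dlOf (nat_lit 1) (nat_lit 0x30008000c00200080008003603)))) 
(.lf (nat_lit 2684392942) (dlOf (nat_lit 1) (nat_lit 0x8008002400200140008009c03))))) 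
(.nd (nat_lit 29) (.nd (nat_lit 27) 
(.lf (nat_lit 2147517998) (dlOf (nat_lit 3) (nat_lit 0x10014001000000027040006005000500000002410001000800a000200020008003783))) 
(.lf (nat_lit 1207993902) (dlOf (nat_lit 2) (nat_lit 0x3015800070080030008003000200040008003783)))) 
(.nd (nat_lit 6) (.nd (nat_lit 11) 
(.lf (nat_lit 1744864814) (dlOf (nat_lit 1) (nat_lit 0x20018003781))) 
(.lf (nat_lit 671125038) (dlOf (nat_lit 3) (nat_lit 0x1404c001201d002000c00040040002c00a0010002000b00000015c3800500400000004000800400280018007182)))) 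
(.lf (nat_lit 1744864238) (dlOf (nat_lit 1) (nat_lit 0x438002028e0008002882)))))) (.nd (nat_lit 25) 
(.nd (nat_lit 30) (.nd (nat_lit 6) (.nd (nat_lit 7) 
(.lf (nat_lit 4751406) (dlOf (nat_lit 1) (nat_lit 0x1f000082b0401))) 
(.lf (nat_lit 537428142) (dlOf (nat_lit 2) (nat_lit 0x16c05b00014818090300)))) 
(.lf (nat_lit 3702894) (dlOf (nat_lit 1) (nat_lit 0x1c004003a0018211502)))) (.nd (nat_lit 31) 
(.lf (nat_lit 1074298926) (dlOf (nat_lit 2) (nat_lit 0xe00000ec58181b0000))) 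
(.lf (nat_lit 3221782574) (dlOf (nat_lit 1) (nat_lit 0xa0028180981))))) (.nd (nat_lit 6) 
(.nd (nat_lit 9) 
(.lf (nat_lit 55083054) (dlOf (nat_lit 6) (nat_lit 0x1098c00324a7000d24a8003981800f13180080988004c4ba00242528016924c000c814007498c00364c4000d25d000712940034926000630a003a4c6001d262000712e8002c94a000e4930003085001e263000e9310003c97400204a5000f24980017c2802000080010002000600096a0d03))) 
(.lf (nat_lit 50889262) (dlOf (nat_lit 1) (nat_lit 0x880080080002004600094d8a83)))) 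
(.lf (nat_lit 37259758) (dlOf (nat_lit 1) (nat_lit 0x200190d4f01)))))) (.nd (nat_lit 7) 
(.nd (nat_lit 8) (.nd (nat_lit 19) 
(.lf (nat_lit 2752544814) (dlOf (nat_lit 23) (nat_lit 0x6892000048040d743fe038815d01d50ae005605080004410001849805d21ff015b0ae80be057002b0284000210a09321ff00d70f4818085740ce02b804c41420001005006a0ff800f857401482b80001f0606be1ff01c60ae804b05080003c0c0bd03fe02cc15d01380ae0060850801280000001d0a08c21ff01640f4816785740a342b8049a142029b000000070301ee87fc07782ba00b61420000d8301a1124000064080da892000030040b004900001702057e2480000b01010c124000054080028920000240400404900000d020022248000060100021240000180808989200000a0403784900000302005624800001010426126000000080830008002400201260008020583))) 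
(.nd (nat_lit 21) (.lf (nat_lit 3959980078) (dlOf (nat_lit 1) (nat_lit 0xa0028180981))) 
(.lf (nat_lit 2754117678) (dlOf (nat_lit 1) (nat_lit 0xc00280c0e01))))) (.nd (nat_lit 27) 
(.nd (nat_lit 10) (.lf (nat_lit 67146030) (dlOf (nat_lit 1) (nat_lit 0x40018008081))) 
(.lf (nat_lit 3288370478) (dlOf (nat_lit 1) (nat_lit 0x20018006881)))) (.nd (nat_lit 6) 
(.lf (nat_lit 201365806) (dlOf (nat_lit 2) (nat_lit 0x5e04a000f881800ab80))) 
(.lf (nat_lit 201365870) (dlOf (nat_lit 2) (nat_lit 0x807e00a603d000201d0001681801e80080074002004a000800ac83)))))) 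
(.nd (nat_lit 10) (.nd (nat_lit 6) (.nd (nat_lit 9) 
(.lf (nat_lit 2754644398) (dlOf (nat_lit 1) (nat_lit 0x200180f4e81))) 
(.lf (nat_lit 5033200558) (dlOf (nat_lit 1) (nat_lit 0x400400020008005d02)))) 
(.lf (nat_lit 5570071278) (dlOf (nat_lit 1) (nat_lit 0x100008005a01)))) (.nd (nat_lit 6) 
(.nd (nat_lit 9) (.lf (nat_lit 3288370350) (dlOf (nat_lit 1) (nat_lit 0x20008006281))) 
(.lf (nat_lit 2885717678) (dlOf (nat_lit 1) (nat_lit 0x3a0028007281)))) 
(.lf (nat_lit 2348844782) (dlOf (nat_lit 2) (nat_lit 0x2014000058080058008001400200080008003b03))))))) 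
(.nd (nat_lit 26) (.nd (nat_lit 6) (.nd (nat_lit 20) (.nd (nat_lit 7) (.nd (nat_lit 21) 
(.lf (nat_lit 5905678382) (dlOf (nat_lit 2) (nat_lit 0x180000197e0400b4002009000080b0002))) 
(.lf (nat_lit 23167022) (dlOf (nat_lit 9) (nat_lit 0x46bcf00055e4800b2ee000fd75c0010b1b00325868000a83000200000005004004d7920012bb800065d700222c34000560e00020000000f0600015da8000500808db06c04c98340188bc200685d380922c2404a9610015eabd011855700882ab4034953c01d6973010e4b9000280000002034043d83601f8aae00be556807e25d80001c1000397760000c020062c1b004055700002410031000800b000202580008b60903)))) 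
(.nd (nat_lit 10) (.lf (nat_lit 2195630) (dlOf (nat_lit 1) (nat_lit 0x20028150301))) 
(.lf (nat_lit 105646) (dlOf (nat_lit 1) (nat_lit 0xc0040002000800c202))))) (.nd (nat_lit 23) 
(.nd (nat_lit 8) (.lf (nat_lit 17924142) (dlOf (nat_lit 1) (nat_lit 0x40018900b81))) 
(.lf (nat_lit 20027182) (dlOf (nat_lit 2) (nat_lit 0x8b990000800800700080054002001400089da103)))) 
(.nd (nat_lit 19) 
(.lf (nat_lit 13729838) (dlOf (nat_lit 6) (nat_lit 0x51f700012c080088fb800090040028ab000032020060558000188100552ac0000c00801a80080038002000c0008740603))) 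
(.lf (nat_lit 10059822) (dlOf (nat_lit 1) (nat_lit 0xc004000400185b0582)))))) (.nd (nat_lit 7) 
(.nd (nat_lit 10) (.nd (nat_lit 11) 
(.lf (nat_lit 12681326) (dlOf (nat_lit 2) (nat_lit 0x8011000000186d1500))) 
(.lf (nat_lit 100462) (dlOf (nat_lit 1) (nat_lit 0x400400020008004782)))) 
(.lf (nat_lit 101486) (dlOf (nat_lit 1) (nat_lit 0x20028006081)))) (.nd (nat_lit 9) 
(.lf (nat_lit 6442555886) (dlOf (nat_lit 1) (nat_lit 0x10008000c002000200080fb283))) 
(.lf (nat_lit 6442551278) (dlOf (nat_lit 2) (nat_lit 0x900680014032000190280f4600)))))) 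
(.nd (nat_lit 8) (.nd (nat_lit 19) (.nd (nat_lit 20) (.nd (nat_lit 27) 
(.lf (nat_lit 1140949038) (dlOf (nat_lit 1) (nat_lit 0xa0028020401))) 
(.lf (nat_lit 3959521326) (dlOf (nat_lit 1) (nat_lit 0x400200020008090002)))) 
(.lf (nat_lit 2752610350) (dlOf (nat_lit 9) (nat_lit 0x1a01ff008a0ae80020570000440c033c3fe011215d00030ae0000841807487fc03942ba015415c000100300070ae801485700003e0803403fe010e15d0000f0200d90ff80488574002c2b80001d0601aa1ff00980ae800a0570000380c04543fe00f415d0000d828020580)))) 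
(.nd (nat_lit 9) 
(.lf (nat_lit 2756280366) (dlOf (nat_lit 2) (nat_lit 0x1c414000000200100008230601))) 
(.lf (nat_lit 2753135150) (dlOf (nat_lit 2) (nat_lit 0x54049402221fd00000028090e80))))) 
(.nd (nat_lit 6) (.nd (nat_lit 7) 
(.lf (nat_lit 3825306926) (dlOf (nat_lit 1) (nat_lit 0x20028146881))) 
(.lf (nat_lit 1275167150) (dlOf (nat_lit 2) (nat_lit 0x801a000960200160018091001)))) 
(.nd (nat_lit 7) 
(.lf (nat_lit 2753134958) (dlOf (nat_lit 2) (nat_lit 0x187d401c2c04000400400040008090782))) 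
(.lf (nat_lit 2753135086) (dlOf (nat_lit 3) (nat_lit 0x1e84980020602005a24c00102018090d80)))))))) 
(.nd (nat_lit 7) (.nd (nat_lit 16) (.nd (nat_lit 8) (.nd (nat_lit 30) (.nd (nat_lit 9) 
(.nd (nat_lit 27) (.lf (nat_lit 5167415342) (dlOf (nat_lit 1) (nat_lit 0x400400020008050002))) 
(.lf (nat_lit 5301633070) (dlOf (nat_lit 1) (nat_lit 0x40018000001)))) (.nd (nat_lit 26) 
(.lf (nat_lit 4563437102) (dlOf (nat_lit 2) (nat_lit 0x1021000900000005c08001000400060018003782))) 
(.lf (nat_lit 335578670) (dlOf (nat_lit 3) (nat_lit 0x6802600140120000f0200040050000000801c00080020002001c0008003783))))) 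
(.nd (nat_lit 6) (.nd (nat_lit 19) 
(.lf (nat_lit 3490742318) (dlOf (nat_lit 23) (nat_lit 0x688c000048040d743da038815801d50ab805605080004410001846805d21ed015b0ac00be055c02b0284000210a09321ed00d70ea018085600ce02ae04c41420001005006a0f6800f856001482ae0001f0606be1ed01c60ac004b05080003c0c0bd03da02cc15801380ab8060850801280000001d0a08c21ed01640ea016785600a342ae049a142029b000000070301ee87b407782b000b61420000d8301a1118000064080da88c000030040b004600001702057e2300000b01010c1180000540800288c0000240400404600000d020022230000060100021180000180808988c00000a040378460000030200562300000101042611a000000080830008002400201260008020583))) 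
(.lf (nat_lit 3492315182) (dlOf (nat_lit 1) (nat_lit 0xc00280c0e01)))) (.nd (nat_lit 11) 
(.lf (nat_lit 1346404462) (dlOf (nat_lit 1) (nat_lit 0x20028f60181))) 
(.lf (nat_lit 1342216302) (dlOf (nat_lit 3) (nat_lit 0x1827400500fc00aa604000c08e001703f000200a80148e0c00300040042001800a882)))))) 
(.nd (nat_lit 10) (.nd (nat_lit 6) (.nd (nat_lit 19) 
(.lf (nat_lit 3493888302) (dlOf (nat_lit 1) (nat_lit 0x80080004002000200081b0503))) 
(.lf (nat_lit 1342734638) (dlOf (nat_lit 16) (nat_lit 0x50226002a1070015868c000e40c007c44c002220e000a0d18001bc18003068c000dc0400842e200068020174171000328100020f98001840802607ac03342e20005e0401b41710002e8100d90b880016c0800a888c000840400543e60002202001e22600101070007068c000420c005044c002820e00120d18000801800c8898006c41c00381a30000e03001b0f98000000803280080378002005600080c0503)))) 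
(.lf (nat_lit 469799278) (dlOf (nat_lit 1) (nat_lit 0x140028008381)))) (.nd (nat_lit 9) 
(.nd (nat_lit 6) (.lf (nat_lit 5773493550) (dlOf (nat_lit 1) (nat_lit 0x4004000200080e3202))) 
(.lf (nat_lit 1342213486) (dlOf (nat_lit 1) (nat_lit 0x60008006b01)))) (.nd (nat_lit 29) 
(.lf (nat_lit 1342215982) (dlOf (nat_lit 2) (nat_lit 0x1104700007008024800801100020022000800a103))) 
(.lf (nat_lit 1879086894) (dlOf (nat_lit 1) (nat_lit 0x4000800a101))))))) (.nd (nat_lit 26) 
(.nd (nat_lit 20) (.nd (nat_lit 6) (.nd (nat_lit 19) 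
(.lf (nat_lit 2013364270) (dlOf (nat_lit 1) (nat_lit 0xa0028020401))) 
(.lf (nat_lit 3494477870) (dlOf (nat_lit 2) (nat_lit 0x1c3ea000000200100008230601)))) 
(.lf (nat_lit 5771985006) (dlOf (nat_lit 2) (nat_lit 0x811c00000018030a80)))) (.nd (nat_lit 6) 
(.nd (nat_lit 9) 
(.lf (nat_lit 3490807854) (dlOf (nat_lit 9) (nat_lit 0x1a01ed008a0ac0002055c000440c033c3da011215800030ab8000841807487b403942b00154157000100300070ac0014855c0003e0803403da010e1580000f0200d90f680488560002c2ae0001d0601aa1ed00980ac000a055c000380c04543da00f41580000d828020580))) 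
(.lf (nat_lit 3491332654) (dlOf (nat_lit 2) (nat_lit 0x54046402221eb00000028090e80)))) 
(.lf (nat_lit 3491332462) (dlOf (nat_lit 2) (nat_lit 0x1878c00fe004000400400040008090782))))) 
(.nd (nat_lit 6) (.nd (nat_lit 9) (.nd (nat_lit 21) 
(.lf (nat_lit 474578990) (dlOf (nat_lit 1) (nat_lit 0x4002000200091b0a02))) 
(.lf (nat_lit 4096360494) (dlOf (nat_lit 1) (nat_lit 0x44004002c0008100402)))) 
(.lf (nat_lit 6241224238) (dlOf (nat_lit 4) (nat_lit 0x50028001c0050001602000c00a000c80140005408000c028003a01200150028000101800c000800c400200020008053783)))) 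
(.nd (nat_lit 10) (.lf (nat_lit 6375964782) (dlOf (nat_lit 2) (nat_lit 0x810d00000018030a80))) 
(.lf (nat_lit 5838572654) (dlOf (nat_lit 1) (nat_lit 0x80080004002000200080f6083))))))) 
(.nd (nat_lit 9) (.nd (nat_lit 8) (.nd (nat_lit 19) (.nd (nat_lit 10) 
(.lf (nat_lit 3491856558) (dlOf (nat_lit 1) (nat_lit 0x400400800008090302))) (.nd (nat_lit 11) 
(.lf (nat_lit 4160787630) (dlOf (nat_lit 1) (nat_lit 0x4c00400200008009502))) 
(.lf (nat_lit 5838576814) (dlOf (nat_lit 1) (nat_lit 0x200280fc201))))) (.nd (nat_lit 6) 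
(.nd (nat_lit 26) (.lf (nat_lit 1342734510) (dlOf (nat_lit 2) (nat_lit 0x2094000000180c0300))) 
(.lf (nat_lit 470319278) (dlOf (nat_lit 2) (nat_lit 0x2094000000180c0300)))) 
(.lf (nat_lit 470319342) (dlOf (nat_lit 2) (nat_lit 0x581f20003f0180c0480))))) (.nd (nat_lit 31) 
(.nd (nat_lit 10) 
(.lf (nat_lit 4697719214) (dlOf (nat_lit 21) (nat_lit 0x1e80d000c8064004802f003a00f8005a42001e00d000dc064003402f003a00f8005a02001b80d000e4064007401f000b383003e01a001d00c800ac05e007401f000b304002901a000580c800ac03e00163060010031000ac01002a0190005340800800c80029804006c06400145020008032000a181000601900033c0800100c80019c0400a4068000bd02004c0320001801000c0190000bc0801a80d000b0064006001f0000e83003301a001700c800b803e0001c0600740340036019001b007c000360c00fc0680074032003a00f8000681800080d0004c064000000400200018091001))) 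
(.nd (nat_lit 16) (.lf (nat_lit 335578542) (dlOf (nat_lit 1) (nat_lit 0x1000400060008003602))) 
(.lf (nat_lit 6241224110) (dlOf (nat_lit 2) (nat_lit 0x980080013a040028004001e0008053602))))) 
(.nd (nat_lit 6) (.nd (nat_lit 27) 
(.lf (nat_lit 3556870574) (dlOf (nat_lit 1) (nat_lit 0x30004009600080d4e82))) 
(.lf (nat_lit 4227959214) (dlOf (nat_lit 1) (nat_lit 0x120028004e81)))) 
(.lf (nat_lit 3491332590) (dlOf (nat_lit 3) (nat_lit 0xb4468002060200f423400102818090d80)))))) 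
(.nd (nat_lit 26) (.nd (nat_lit 6) (.nd (nat_lit 8) (.nd (nat_lit 10) 
(.lf (nat_lit 1342216878) (dlOf (nat_lit 2) (nat_lit 0x411c0002d020004001800b781))) 
(.lf (nat_lit 4026566318) (dlOf (nat_lit 1) (nat_lit 0x800400020008003a82)))) 
(.lf (nat_lit 939624366) (dlOf (nat_lit 1) (nat_lit 0x20018144381)))) (.nd (nat_lit 11) 
(.nd (nat_lit 12) (.lf (nat_lit 4563436526) (dlOf (nat_lit 1) (nat_lit 0x108004041e0008002882))) 
(.lf (nat_lit 2952827886) (dlOf (nat_lit 2) (nat_lit 0x8d0150029600800780080004002000e0008009203)))) 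
(.lf (nat_lit 2952829934) (dlOf (nat_lit 1) (nat_lit 0x280080010002000e000800bf03))))) 
(.nd (nat_lit 8) (.nd (nat_lit 6) 
(.lf (nat_lit 5167418030) (dlOf (nat_lit 1) (nat_lit 0x400400020008055682))) 
(.lf (nat_lit 6241159918) (dlOf (nat_lit 1) (nat_lit 0x400400020008005a02)))) (.nd (nat_lit 12) 
(.nd (nat_lit 16) (.lf (nat_lit 335578094) (dlOf (nat_lit 1) (nat_lit 0x21400400900008002882))) 
(.lf (nat_lit 6241223662) (dlOf (nat_lit 1) (nat_lit 0x400008052881)))) 
(.lf (nat_lit 469865454) (dlOf (nat_lit 1) (nat_lit 0x4000400020008009202))))))))) 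
(.nd (nat_lit 16) (.nd (nat_lit 21) (.nd (nat_lit 26) (.nd (nat_lit 31) (.nd (nat_lit 27) 
(.nd (nat_lit 20) (.nd (nat_lit 6) 
(.lf (nat_lit 537166126) (dlOf (nat_lit 5) (nat_lit 0x37817c009400400700be0049802006205f0024b01000a02f801248080130008007400200020008048403))) 
(.lf (nat_lit 51151086) (dlOf (nat_lit 1) (nat_lit 0x840009506e81)))) (.nd (nat_lit 23) 
(.lf (nat_lit 22315054) (dlOf (nat_lit 1) (nat_lit 0x80018ac0581))) 
(.lf (nat_lit 30703662) (dlOf (nat_lit 7) (nat_lit 0xfc8e8000e208069ab5a0003f06002d91d0001b01002fc8e8016e20806eab5a0000f06006791d0031c4100e2d6b40000e0c007723a003788200001820030c8e8017e2080692b5a000000600120028e40e81))))) 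
(.nd (nat_lit 28) (.nd (nat_lit 29) 
(.lf (nat_lit 1208254510) (dlOf (nat_lit 3) (nat_lit 0xc0290000e810004014800068080030008001c002000e00080b0403))) 
(.lf (nat_lit 671383598) (dlOf (nat_lit 31) (nat_lit 0x4780b802300500003404010a02e0012015817a00a002d804a01d600b02bb0000000cc3009b80b8037005605c602a05ec0140133809c0e5804a026c00d00cf00580770028001000e02c400405e90000000c86003880b8033805a019402b02f7015023c00a00c2804e08540250061011801e008800b40400054012004200680bf002c04a0014005a009003700381a2001014a0000000312404ac02e0351015813080a009ec00000030080b6802e007b01683b500ac0d28054086802800d8013802c809403a4046013600b00f400500080024109400e074400404a90000000bc701b480b811c005601c002a03650140027801c07c400806ca0000001707002d017013700ac058405000a000000016840006017018000ac056805002b600000016040007012813b00880005608001004a05780220001502019801280b38088000520800040180002802003e004001f0000000941006d00940003a04014404a0001b0201d60250000d0100b1012800064080d400b80b300560402028028001280d20088001c040000e00b00350000000604002980940002c04008404a000140201c2025017901100004c1005280b80a980500a280250027011021580000002414039005c008002b0264015027300a0049004e08300250040011803f0080129803e03b001300a300900b1802c001c00e0004004058b000000044780cb8000000200405a004a0334022000078200940128000340800c80940001404021004a0000902047e02b007f014016780940804044016401300260000000003072700080dd00020b0e0008170c03))))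 
(.nd (nat_lit 30) (.lf (nat_lit 402948142) (dlOf (nat_lit 1) (nat_lit 0x18004000c00080b0402))) 
(.lf (nat_lit 1476689966) (dlOf (nat_lit 5) (nat_lit 0x601800060088001803c000c01c0004108000601800050088001803c000c01c0004008000a01800090088002803c001801c0003e08000601800050088001803c000c01c0003d0800500028120881)))))) 
(.nd (nat_lit 9) (.nd (nat_lit 20) (.nd (nat_lit 27) 
(.lf (nat_lit 3758391342) (dlOf (nat_lit 1) (nat_lit 0xb00008170401))) 
(.lf (nat_lit 3087302702) (dlOf (nat_lit 14) (nat_lit 0x2e0000001981006d014007e8080027c03a008801c00e500c80700060038c01e001400c0057003802600000006428050c040027c01d013600e009a006404d4030025c00f0067003803300000006220011803200d40070001802018b01000320070062403003e2007000178402290100007807008a80300432007000170400570100013006003c800e0002d0600ac020000400c0073001c000580c0068040010601c000600c802f0060000c00e000180a00ea02000bc00e00500060000240c0894040058c01c02bb00c0000441802a00700001e04000c04000240180001003800000180040008008c00201ae0008170c03))))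 
(.nd (nat_lit 7) (.lf (nat_lit 3491004718) (dlOf (nat_lit 2) (nat_lit 0x602f0001c818047a00))) 
(.lf (nat_lit 3491528878) (dlOf (nat_lit 1) (nat_lit 0x40018090301))))) (.nd (nat_lit 6) 
(.nd (nat_lit 30) 
(.lf (nat_lit 6442746414) (dlOf (nat_lit 3) (nat_lit 0x1403a00090128005006800240300003c08000e03a000701280038068001c0300003a08000a00281b0e81))) 
(.lf (nat_lit 3221520942) (dlOf (nat_lit 9) (nat_lit 0x1f001c011800c00930000000901804300380260018013a000000118300530070000880803d803802400000002004008400e005a00000007810048803802580000001d04003c00e001900000007010004003800036040110002005e0008128002)))) 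
(.lf (nat_lit 2818874350) (dlOf (nat_lit 1) (nat_lit 0x4004003a001812bf02)))))) (.nd (nat_lit 27) 
(.nd (nat_lit 28) (.nd (nat_lit 8) (.nd (nat_lit 20) 
(.lf (nat_lit 3825500206) (dlOf (nat_lit 14) (nat_lit 0x2e0000001801006d014007e8080027c03a008801c00e500c80700060038c01e001400c0057003802600000005e28050c040027c01d013600e009a006404d4030025c00f0067003803300000005c20011803200d40070001682018b01000320070062403003e2007000160402290100007807008a80300432007000158400570100013006003c800e0002a0600ac020000400c0073001c000520c0068040010601c000600c802f0060000c00e000180a00ea02000bc00e00500060000240c0894040058c01c02bb00c0000441802a00700001e04000c04000240180001003800000180040008008c00201ae0008170c03))) 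
(.lf (nat_lit 68452398) (dlOf (nat_lit 1) (nat_lit 0x20002001e0008580e82)))) 
(.lf (nat_lit 2752807214) (dlOf (nat_lit 3) (nat_lit 0x2300880097e040004040004a00200020028048401)))) 
(.nd (nat_lit 31) (.nd (nat_lit 8) 
(.lf (nat_lit 335839278) (dlOf (nat_lit 1) (nat_lit 0x18004000c00080b0402))) 
(.lf (nat_lit 1409581358) (dlOf (nat_lit 2) (nat_lit 0xc02f80002c0800980080014002002e0008047a03)))) 
(.nd (nat_lit 6) 
(.lf (nat_lit 3020193838) (dlOf (nat_lit 5) (nat_lit 0xdc030000138100b8018002200a40100044000260600e603000050148000941001b00c00000004000c00200100008150402))) 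
(.lf (nat_lit 2483322990) (dlOf (nat_lit 6) (nat_lit 0x70128000380800e00940001a04007004a0000c02003c0250000581001b0128000000801a0008013c002002e00080a1503)))))) 
(.nd (nat_lit 29) (.nd (nat_lit 6) (.nd (nat_lit 9) 
(.lf (nat_lit 1543798830) (dlOf (nat_lit 31) (nat_lit 0x3809409d80440003404000802502bc0110000cc100cc0094059c0440003204011e02e008c0140000c41004280b8004805605e802800b60128075802c0aec000000300c026e02e00dc015817180a817b005004ce0270396012809b0038033c01601dc00a000400380b1001017a40000002f1800e202e00ce016806500ac0bdc05408f0028030a0138215009401840460078022002d01000150048010801c02fc00b01280050016802400dc00e068800405280000000b89012b00b80d4405604c2028027b0000000b4202da00b801ec05a0ed402b034a015021a00a0036004e00b202500e9011804d802c03d00140020009042500381d1001012a40000002c1c06d202e0470015807000a80d94050009e00701f100201b28000000561c00b405c04dc02b0161014002800000005410001805c060002b015a01400ad8000000521000040180002802003e004001f0000000941006d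00940003a04014404a0001b0201d60250000d0100b1012800064080d400b80b300560402028028001280d20088001c040000e00b00350000000604002980940002c04008404a000140201c2025017901100004c1005280b80a980500a280250027011021580000002414039005c008002b0264015027300a0049004e08300250040011803f0080129803e03b001300a300900b1802c001c00e0004004058b000000044780cb8000000200405a004a0334022000078200940128000340800c80940001404021004a0000902047e02b007f014016780940804044016401300260000000003072700080dd00020b0e0008170c03))) 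
(.lf (nat_lit 5838766638) (dlOf (nat_lit 3) (nat_lit 0x1403a00090128005006800240300003c08000e03a000701280038068001c0300003a08000a00281b0e81)))) 
(.lf (nat_lit 2349105262) (dlOf (nat_lit 6) (nat_lit 0x70128000380800e00940001a04007004a0000c02003c0250000581001b0128000000801a0008013c002002e00080a1503)))) 
(.nd (nat_lit 30) (.nd (nat_lit 6) 
(.lf (nat_lit 1006927918) (dlOf (nat_lit 2) (nat_lit 0xc02a8023a80800680080040002004000080e0a03))) 
(.lf (nat_lit 2885977838) (dlOf (nat_lit 1) (nat_lit 0x10008000400200020008143b03)))) 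
(.nd (nat_lit 8) 
(.lf (nat_lit 2080669742) (dlOf (nat_lit 3) (nat_lit 0xc0290000e810004014800068080030008001c002000e00080b0403))) 
(.lf (nat_lit 4228153646) (dlOf (nat_lit 1) (nat_lit 0x8008000400200120008047a03)))))))) 
(.nd (nat_lit 19) (.nd (nat_lit 20) (.nd (nat_lit 9) (.nd (nat_lit 22) 
(.lf (nat_lit 44335150) (dlOf (nat_lit 5) (nat_lit 0xcc7c000c6270007307800196e0000ca10000cc7c000a6270008307800296e0000c810000cc7c00086270003307800396e0000c4100018c7c000a6270007307800416e0000be100034002000a00092f0d02))) 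
(.lf (nat_lit 6586414) (dlOf (nat_lit 2) (nat_lit 0x14e4d100007018430e80)))) 
(.lf (nat_lit 23364142) (dlOf (nat_lit 3) (nat_lit 0x6c3510001f8100211a88000f4080018008001000200040008b80e83)))) 
(.nd (nat_lit 7) (.nd (nat_lit 6) 
(.lf (nat_lit 7634990) (dlOf (nat_lit 2) (nat_lit 0x14ea66000070184c0e80))) 
(.lf (nat_lit 62161006) (dlOf (nat_lit 1) (nat_lit 0x660009960c01)))) (.nd (nat_lit 8) 
(.lf (nat_lit 20220590) (dlOf (nat_lit 1) (nat_lit 0x5800189d5681))) 
(.lf (nat_lit 49580462) (dlOf (nat_lit 1) (nat_lit 0x8008000400200020009464e83)))))) 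
(.nd (nat_lit 7) (.nd (nat_lit 20) (.nd (nat_lit 23) (.nd (nat_lit 26) 
(.lf (nat_lit 3492577326) (dlOf (nat_lit 4) (nat_lit 0x60c8000028080060640000120400083200036012001b0000000001802b8008008c002004a00080e0603))) 
(.lf (nat_lit 2754379822) (dlOf (nat_lit 4) (nat_lit 0x60cc000028080060660000120400083300036012001b0000000001802b8008008c002004a00080e0603)))) 
(.lf (nat_lit 11305006) (dlOf (nat_lit 2) (nat_lit 0x1f048000ac04000c004000a0008690682)))) 
(.nd (nat_lit 6) 
(.lf (nat_lit 1346142254) (dlOf (nat_lit 7) (nat_lit 0x1dc2d000ec1450077067800981cc0001610014840a013016800940a2804a033c000141001ec28a00da0cf0000482009e0b40057851402bc19e00008060126145009306780001c1006085a002a028a01560cf00a10630000002003d00080078002053e0008e60283))) 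
(.lf (nat_lit 8165230) (dlOf (nat_lit 1) (nat_lit 0x40020002000851a302))))) (.nd (nat_lit 9) 
(.nd (nat_lit 22) (.lf (nat_lit 36473262) (dlOf (nat_lit 1) (nat_lit 0x20019074e81))) 
(.lf (nat_lit 57444782) (dlOf (nat_lit 1) (nat_lit 0x1e0029794e81)))) (.nd (nat_lit 6) 
(.lf (nat_lit 20745134) (dlOf (nat_lit 1) (nat_lit 0x400289d5d01))) 
(.lf (nat_lit 49054702) (dlOf (nat_lit 1) (nat_lit 0x3000400120009462882)))))))) (.nd (nat_lit 19) 
(.nd (nat_lit 30) (.nd (nat_lit 9) (.nd (nat_lit 21) (.nd (nat_lit 20) (.nd (nat_lit 26) 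
(.lf (nat_lit 537231406) (dlOf (nat_lit 1) (nat_lit 0x20028060601))) 
(.lf (nat_lit 604340270) (dlOf (nat_lit 1) (nat_lit 0x20028180801)))) 
(.lf (nat_lit 55935022) (dlOf (nat_lit 2) (nat_lit 0x8a7a000100196f0280)))) (.nd (nat_lit 6) 
(.nd (nat_lit 22) (.lf (nat_lit 2457646) (dlOf (nat_lit 1) (nat_lit 0xf8008004400202980008160983))) 
(.lf (nat_lit 48594990) (dlOf (nat_lit 2) (nat_lit 0x84ae00012019420280)))) 
(.lf (nat_lit 2753921134) (dlOf (nat_lit 1) (nat_lit 0x1000080070002001000080a1503))))) 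
(.nd (nat_lit 6) (.nd (nat_lit 7) 
(.lf (nat_lit 366382) (dlOf (nat_lit 1) (nat_lit 0x40040002001800a102))) (.nd (nat_lit 8) 
(.lf (nat_lit 2754973358) (dlOf (nat_lit 1) (nat_lit 0x3600280f7281))) 
(.lf (nat_lit 8751022) (dlOf (nat_lit 1) (nat_lit 0x60028514381))))) 
(.lf (nat_lit 38110190) (dlOf (nat_lit 1) (nat_lit 0x400200020009132882))))) (.nd (nat_lit 27) 
(.nd (nat_lit 6) (.nd (nat_lit 26) 
(.lf (nat_lit 3221585966) (dlOf (nat_lit 11) (nat_lit 0x201300006604096c08e0078046002402280c90110011408206c602f01f60170000b83800b811c0005a04095808e0066046007d0220000b0180500158098c09e007204d00510258135011c017808c03c004400af01900c800c4003002202aa00a000060b001c02780002c080f3811c062008800fe0320000483005202b0026813c015408e02ee03200420088000202803a81580bec06400b20110000183024402380698118007408a032c044006d021802b010401f807206c802f01fd01701b000500000028007800200280008150902))) 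
(.lf (nat_lit 1409646638) (dlOf (nat_lit 1) (nat_lit 0x20028060601)))) 
(.lf (nat_lit 3492118638) (dlOf (nat_lit 1) (nat_lit 0x1000080070002001000080a1503)))) 
(.nd (nat_lit 6) (.nd (nat_lit 26) 
(.lf (nat_lit 1476755502) (dlOf (nat_lit 1) (nat_lit 0x20028180801))) 
(.lf (nat_lit 3959783470) (dlOf (nat_lit 18) (nat_lit 0x890228000cc080008130021008a0288000000180300b50238000bc08147811c0005c0401a008e006a046000168202de02380308118032008a03be044001e020800f00e40c8005e001a02e0001608013600000004c0800c01180002204089c09e010404d0099025810f811c014408c013404501bc022000300d801f8064029603101c500500003058046013c013009a0142047003e02300020110013006200e200a000058701f902b007c013c068c09c018404d004002380458118034408a03780440094021800400d00b78064004201e01fc008800700180001238009008a0000802007004e0000281003402b001e813c000c09a029c0320033008800010280a9815809dc06402900110016003001700000000614045c0640000102047e0470117022811b81100fac05e042202e035100a000000300598008049800200cc0008150803))))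 
(.lf (nat_lit 5503290094) (dlOf (nat_lit 2) (nat_lit 0x1404a0002802000600180e5a01)))))) 
(.nd (nat_lit 25) (.nd (nat_lit 6) (.nd (nat_lit 7) (.nd (nat_lit 8) 
(.lf (nat_lit 21856302) (dlOf (nat_lit 4) (nat_lit 0x22ad00006e0400b556800035020032ab400019018a70580))) 
(.lf (nat_lit 1344116526) (dlOf (nat_lit 1) (nat_lit 0xc00183da101)))) (.nd (nat_lit 10) 
(.lf (nat_lit 20807854) (dlOf (nat_lit 1) (nat_lit 0x100080008002000400089e2d83))) 
(.lf (nat_lit 19764398) (dlOf (nat_lit 1) (nat_lit 0x4004000200089d9502))))) (.nd (nat_lit 21) 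
(.nd (nat_lit 26) (.lf (nat_lit 5773295726) (dlOf (nat_lit 1) (nat_lit 0x1800280c0a81))) 
(.lf (nat_lit 6377275502) (dlOf (nat_lit 1) (nat_lit 0x1800280c0a81)))) (.nd (nat_lit 7) 
(.lf (nat_lit 8226414) (dlOf (nat_lit 1) (nat_lit 0x380080020002000c0008513983))) 
(.lf (nat_lit 8229358) (dlOf (nat_lit 1) (nat_lit 0x80028518681)))))) (.nd (nat_lit 8) 
(.nd (nat_lit 6) (.nd (nat_lit 21) 
(.lf (nat_lit 42827822) (dlOf (nat_lit 1) (nat_lit 0x28008000400200100009280283))) 
(.lf (nat_lit 36536366) (dlOf (nat_lit 1) (nat_lit 0x400400020019070002)))) (.nd (nat_lit 23) 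
(.lf (nat_lit 54364782) (dlOf (nat_lit 1) (nat_lit 0x20029655381))) 
(.lf (nat_lit 45976174) (dlOf (nat_lit 1) (nat_lit 0x20019385381))))) (.nd (nat_lit 7) 
(.lf (nat_lit 45973806) (dlOf (nat_lit 1) (nat_lit 0x140029380b01))) (.nd (nat_lit 22) 
(.lf (nat_lit 36538798) (dlOf (nat_lit 1) (nat_lit 0x20019074e81))) 
(.lf (nat_lit 57510318) (dlOf (nat_lit 1) (nat_lit 0x100029794e81)))))))))) (.nd (nat_lit 16) 
(.nd (nat_lit 26) (.nd (nat_lit 18) (.nd (nat_lit 6) (.nd (nat_lit 28) (.nd (nat_lit 9) 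
(.nd (nat_lit 19) (.nd (nat_lit 20) (.nd (nat_lit 8) 
(.lf (nat_lit 29524014) (dlOf (nat_lit 1) (nat_lit 0x20028e10801))) 
(.lf (nat_lit 4295131438) (dlOf (nat_lit 1) (nat_lit 0x400200020008090502)))) (.nd (nat_lit 24) 
(.lf (nat_lit 47349806) (dlOf (nat_lit 3) (nat_lit 0x15de00019008000aef0000c2040020004004400093d0d02))) 
(.lf (nat_lit 30572590) (dlOf (nat_lit 1) (nat_lit 0xe400200600008e40e82))))) (.nd (nat_lit 21) 
(.lf (nat_lit 4882478) (dlOf (nat_lit 1) (nat_lit 0x1f000082d0401))) 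
(.lf (nat_lit 11173934) (dlOf (nat_lit 1) (nat_lit 0x20028670681))))) (.nd (nat_lit 7) 
(.nd (nat_lit 8) (.nd (nat_lit 20) 
(.lf (nat_lit 134382126) (dlOf (nat_lit 2) (nat_lit 0x1004a00022018018000))) 
(.lf (nat_lit 11698734) (dlOf (nat_lit 19) (nat_lit 0x1938c600b3bd60001f820057e318000f808030f18c01c37ac0003d0400c9c630076deb0000d81002f718c01bb7ac00034040091c630055deb0000a810026718c014b7ac000230400f7c63007bdeb00008010013f18c006b7ac0001f0400b3c630000e81005be318027ef58000380801078c60001a020061c630000c810046e318049ef58000180801638c60000b020063c6300005010070e31803bef580001208003bc3e00b9c630062deb0000001803300080028002003c00086c0e83)))) 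
(.lf (nat_lit 167726) (dlOf (nat_lit 1) (nat_lit 0x400400020018007482)))) (.nd (nat_lit 8) 
(.lf (nat_lit 170670) (dlOf (nat_lit 1) (nat_lit 0x12000800840020016000800b783))) 
(.lf (nat_lit 8030126) (dlOf (nat_lit 1) (nat_lit 0x960018514381)))))) (.nd (nat_lit 29) 
(.nd (nat_lit 31) (.nd (nat_lit 8) 
(.lf (nat_lit 1476558894) (dlOf (nat_lit 2) (nat_lit 0x900300009c080008008001000200180008050403))) 
(.lf (nat_lit 1342341422) (dlOf (nat_lit 1) (nat_lit 0x18008006c00200180008014903)))) 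
(.nd (nat_lit 7) 
(.lf (nat_lit 3490873390) (dlOf (nat_lit 3) (nat_lit 0x1052002d82080005e0801941040002e0200020028030c01))) 
(.lf (nat_lit 3489832110) (dlOf (nat_lit 1) (nat_lit 0x80080068002001c000800c203))))) 
(.nd (nat_lit 19) (.nd (nat_lit 30) 
(.lf (nat_lit 2952953902) (dlOf (nat_lit 2) (nat_lit 0x800540004c04002c00400040018030402))) 
(.lf (nat_lit 4026695726) (dlOf (nat_lit 4) (nat_lit 0x900280000a0400f4040001c00b003100500000c18003002c0000004005c004000a0008030c02)))) 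
(.lf (nat_lit 805994542) (dlOf (nat_lit 14) (nat_lit 0x1400560001a01037c02b002b80900d04026000330606dc0560336009810d8000000640c0d900ac06580130001882006402b00007c0802c81580003c0402800ac0001c0200540560000d81012102b0000680805001580002e0402800ac000160200f80560000a81001502b000000080468008017000201660008210603)))))) 
(.nd (nat_lit 21) (.nd (nat_lit 8) (.nd (nat_lit 19) 
(.lf (nat_lit 9601134) (dlOf (nat_lit 3) (nat_lit 0x7d2080005408006690400000040044004001e0008570a82))) 
(.lf (nat_lit 537559150) (dlOf (nat_lit 6) (nat_lit 0x681500001c0400840a800320450000682001502a00048114000180800800a800040450000582001b02a00000008029800800e0002000400080a1503)))) 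
(.nd (nat_lit 9) (.lf (nat_lit 3221392750) (dlOf (nat_lit 1) (nat_lit 0x40018116b01))) 
(.lf (nat_lit 3892483950) (dlOf (nat_lit 1) (nat_lit 0x3a000800040020068000815a303))))) 
(.nd (nat_lit 7) (.nd (nat_lit 20) 
(.lf (nat_lit 44204142) (dlOf (nat_lit 2) (nat_lit 0x13310000000800080080008002000400092d0a83))) 
(.lf (nat_lit 24281198) (dlOf (nat_lit 3) (nat_lit 0x1d79e0003402000e01c00000018b91500)))) 
(.nd (nat_lit 8) (.nd (nat_lit 19) 
(.lf (nat_lit 28475630) (dlOf (nat_lit 1) (nat_lit 0x400200020008da0602))) 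
(.lf (nat_lit 5774147822) (dlOf (nat_lit 1) (nat_lit 0x400400020008111e82)))) 
(.lf (nat_lit 36340718) (dlOf (nat_lit 1) (nat_lit 0xc00200020009072882))))))) (.nd (nat_lit 6) 
(.nd (nat_lit 28) (.nd (nat_lit 20) (.nd (nat_lit 9) (.nd (nat_lit 21) (.nd (nat_lit 24) 
(.lf (nat_lit 33980462) (dlOf (nat_lit 1) (nat_lit 0x20028f90281))) 
(.lf (nat_lit 17203246) (dlOf (nat_lit 1) (nat_lit 0x80080034002000600088e0003)))) 
(.lf (nat_lit 19300398) (dlOf (nat_lit 1) (nat_lit 0x20018980e81)))) (.nd (nat_lit 8) 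
(.lf (nat_lit 134644270) (dlOf (nat_lit 2) (nat_lit 0x136018800000080080008006000200100008090e83))) 
(.lf (nat_lit 8820526) (dlOf (nat_lit 1) (nat_lit 0xc002005c000851a102))))) (.nd (nat_lit 7) 
(.nd (nat_lit 19) (.lf (nat_lit 26640430) (dlOf (nat_lit 2) (nat_lit 0x4e1500009018c50400))) 
(.lf (nat_lit 4096046) (dlOf (nat_lit 2) (nat_lit 0x3205800008c04004400200080008280602)))) 
(.lf (nat_lit 8290734) (dlOf (nat_lit 1) (nat_lit 0x8008000400200020008511003))))) (.nd (nat_lit 7) 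
(.nd (nat_lit 9) (.nd (nat_lit 22) 
(.lf (nat_lit 4026957870) (dlOf (nat_lit 5) (nat_lit 0x7e80d4000a804081806a00560310067018001200a80009e10001c0600004e0201600350067018800d80a80009a0c0014002002600080e0602))) 
(.lf (nat_lit 1346797614) (dlOf (nat_lit 1) (nat_lit 0x400200020009010a02)))) 
(.lf (nat_lit 3490611758) (dlOf (nat_lit 26) (nat_lit 0x208d0001d80404ac2b0000690200541ed004a0e98091056004d42ae002e142003d0a080258000000d01c037c2b0000670200141ed01ae0ac0001981000107b404a02b000e21570002203002a0f68092056004d82ae002614200430a08001082808f05600008204004c3da029a15800c90ab80050508000801004f42b0009a1570001f820070118000208b8000720800c0460001022e0001c0201460f300288788007439a00641cb00510b280c905500a502a400a213a004f09a802880000004828000445a028e1e600520f20028878800203be000a1cd00340e58029059400302aa0332154029b0a9002904e8014826a00a4000000118e00bd0f301278550000440801943cc000210201061e600530f200c785500a482a400a2135000100500ed0f300da855000d02a40001f0600c61e601560aa012c05480003c0c04fc3cc00a21e401ab0aa01348548014426a0001d0a018015401f50a9000070100c10550000360400242a40001a02008e2300000581008c11a000204f40000008039c00404f40008018002))))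 
(.lf (nat_lit 3490089390) (dlOf (nat_lit 1) (nat_lit 0x400200020008004e82))))) (.nd (nat_lit 21) 
(.nd (nat_lit 9) (.nd (nat_lit 7) 
(.lf (nat_lit 3221651822) (dlOf (nat_lit 2) (nat_lit 0x404600403818170780))) (.nd (nat_lit 22) 
(.lf (nat_lit 134644206) (dlOf (nat_lit 5) (nat_lit 0x5180bc0040c0401b4094015002f0010282006c0188003680805c00c4001a804001c004004e0008090d82))) 
(.lf (nat_lit 21397998) (dlOf (nat_lit 1) (nat_lit 0x60028a37381))))) (.nd (nat_lit 8) 
(.lf (nat_lit 50760430) (dlOf (nat_lit 1) (nat_lit 0x5c004000c00094c5a02))) (.nd (nat_lit 12) 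
(.lf (nat_lit 2550564846) (dlOf (nat_lit 1) (nat_lit 0x1e00280f4601))) 
(.lf (nat_lit 2550568942) (dlOf (nat_lit 1) (nat_lit 0x4002000200080fa602)))))) (.nd (nat_lit 8) 
(.nd (nat_lit 7) 
(.lf (nat_lit 1881571438) (dlOf (nat_lit 1) (nat_lit 0x50008002800200200008f60183))) 
(.nd (nat_lit 9) 
(.lf (nat_lit 20873454) (dlOf (nat_lit 2) (nat_lit 0x3043800964040008004001c00089e4502))) 
(.lf (nat_lit 40798958) (dlOf (nat_lit 1) (nat_lit 0x80080004002000400091f5a03))))) 
(.nd (nat_lit 10) (.nd (nat_lit 19) 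
(.lf (nat_lit 1345749998) (dlOf (nat_lit 1) (nat_lit 0x400200020008dd2882))) 
(.lf (nat_lit 3492709358) (dlOf (nat_lit 1) (nat_lit 0x1400180f2881)))) 
(.lf (nat_lit 8294382) (dlOf (nat_lit 1) (nat_lit 0x60018517a81)))))))) (.nd (nat_lit 28) 
(.nd (nat_lit 8) (.nd (nat_lit 30) (.nd (nat_lit 9) (.nd (nat_lit 18) (.nd (nat_lit 20) 
(.lf (nat_lit 2348974126) (dlOf (nat_lit 2) (nat_lit 0x10025000a0000000941000100080068002001a0008070803))) 
(.lf (nat_lit 2752675886) (dlOf (nat_lit 3) (nat_lit 0x1056802d820800064080194104000310200020028030c01)))) 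
(.lf (nat_lit 68583470) (dlOf (nat_lit 2) (nat_lit 0x2000000120185e0800)))) (.nd (nat_lit 6) 
(.lf (nat_lit 201753134) (dlOf (nat_lit 2) (nat_lit 0x136018800000080080008006000200100008090e83))) 
(.lf (nat_lit 738888430) (dlOf (nat_lit 7) (nat_lit 0x58154000c06e0002a040004053000201a8000a01000480dc000406a0001e0400540370000c01000401b80005c08001015400000040008004000e0018125a02))))) 
(.nd (nat_lit 31) (.nd (nat_lit 19) 
(.lf (nat_lit 5435981870) (dlOf (nat_lit 1) (nat_lit 0x1400400120008090002))) 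
(.lf (nat_lit 1678409774) (dlOf (nat_lit 14) (nat_lit 0x1400560001981037c02b002b80900d04026000320606dc0560336009810d8000000620c0d900ac06580130001802006402b00007c0802c81580003c0402800ac0001c0200540560000d81012102b0000680805001580002e0402800ac000160200f80560000a81001502b000000080468008017000201660008210603)))) 
(.nd (nat_lit 18) (.nd (nat_lit 27) 
(.lf (nat_lit 3288498222) (dlOf (nat_lit 4) (nat_lit 0x900280000a0400f4040001c00b003100500000c18003002c0000004005c004000a0008030c02))) 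
(.lf (nat_lit 3422715950) (dlOf (nat_lit 1) (nat_lit 0x8008001000200020008070683)))) 
(.lf (nat_lit 3288760366) (dlOf (nat_lit 5) (nat_lit 0x7e80d4000b604081806a00560310067018001200a8000ac10001c060000550201600350067018800d80a8000a80c0014002002600080e0602)))))) 
(.nd (nat_lit 6) (.nd (nat_lit 7) (.nd (nat_lit 9) (.nd (nat_lit 11) 
(.lf (nat_lit 4362240302) (dlOf (nat_lit 1) (nat_lit 0x12000200240008014902))) 
(.lf (nat_lit 2751633710) (dlOf (nat_lit 1) (nat_lit 0x8002800ab81)))) 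
(.lf (nat_lit 2214757166) (dlOf (nat_lit 1) (nat_lit 0x800280a2201)))) (.nd (nat_lit 9) 
(.lf (nat_lit 4362502574) (dlOf (nat_lit 1) (nat_lit 0x40028090781))) 
(.lf (nat_lit 2752153518) (dlOf (nat_lit 1) (nat_lit 0x20008004381))))) (.nd (nat_lit 9) 
(.nd (nat_lit 7) (.lf (nat_lit 3959849326) (dlOf (nat_lit 2) (nat_lit 0x404600716018170780))) 
(.lf (nat_lit 201753070) (dlOf (nat_lit 5) (nat_lit 0x36812802a005e0020604014602f0010201006c0188003680805c00c4001a804001c004004e0008090d82)))) 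
(.nd (nat_lit 27) 
(.lf (nat_lit 2751629166) (dlOf (nat_lit 1) (nat_lit 0x18008000400200060008004003))) 
(.lf (nat_lit 3959588718) (dlOf (nat_lit 1) (nat_lit 0xa0008114001))))))) (.nd (nat_lit 29) 
(.nd (nat_lit 7) (.nd (nat_lit 18) (.nd (nat_lit 27) (.nd (nat_lit 6) 
(.lf (nat_lit 2483191854) (dlOf (nat_lit 3) (nat_lit 0xba0150080009402e003a016800000012840001015000180380002808000400200040008070902))) 
(.lf (nat_lit 1409974382) (dlOf (nat_lit 6) (nat_lit 0x681500001c0400840a800320420000682001502a00048108000180800800a800040420000582001b02a00000008029800800e0002000400080a1503)))) 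
(.nd (nat_lit 8) 
(.lf (nat_lit 3691151406) (dlOf (nat_lit 4) (nat_lit 0x3e0098001c03a00026040184026000700e80020058007c00800025080126026000300b0000901000680080048002000c0008050403))) 
(.lf (nat_lit 469926190) (dlOf (nat_lit 1) (nat_lit 0x18008006c00200180008014903))))) 
(.nd (nat_lit 10) (.nd (nat_lit 19) 
(.lf (nat_lit 3557195822) (dlOf (nat_lit 2) (nat_lit 0x8070001580200020018160d01))) 
(.lf (nat_lit 473858094) (dlOf (nat_lit 3) (nat_lit 0x7028a0000b02000814500005018fc0280)))) 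
(.lf (nat_lit 474383406) (dlOf (nat_lit 1) (nat_lit 0x3a0019162881))))) (.nd (nat_lit 8) 
(.lf (nat_lit 474120366) (dlOf (nat_lit 1) (nat_lit 0x4004000200190e0602))) (.nd (nat_lit 10) 
(.lf (nat_lit 469926318) (dlOf (nat_lit 1) (nat_lit 0x20028017181))) 
(.lf (nat_lit 474121646) (dlOf (nat_lit 1) (nat_lit 0x200190e3601)))))) (.nd (nat_lit 7) 
(.nd (nat_lit 30) (.nd (nat_lit 19) 
(.lf (nat_lit 1008893998) (dlOf (nat_lit 1) (nat_lit 0x400200020008fc0282))) 
(.lf (nat_lit 3154804782) (dlOf (nat_lit 1) (nat_lit 0x8008000400200020008330b83)))) 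
(.nd (nat_lit 8) (.lf (nat_lit 6241290798) (dlOf (nat_lit 1) (nat_lit 0x400280d5181))) 
(.lf (nat_lit 4228022574) (dlOf (nat_lit 1) (nat_lit 0x12000200240008014902))))) (.nd (nat_lit 9) 
(.nd (nat_lit 11) 
(.lf (nat_lit 2080539054) (dlOf (nat_lit 2) (nat_lit 0x40540008a0200e20028091001))) 
(.lf (nat_lit 1007847854) (dlOf (nat_lit 1) (nat_lit 0x4c0028804e81)))) (.nd (nat_lit 6) 
(.lf (nat_lit 3154287278) (dlOf (nat_lit 1) (nat_lit 0x1a002815b781))) 
(.lf (nat_lit 872842222) (dlOf (nat_lit 1) (nat_lit 0x400280e2881))))))))) (.nd (nat_lit 28) 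
(.nd (nat_lit 18) (.nd (nat_lit 26) (.nd (nat_lit 20) (.nd (nat_lit 6) (.nd (nat_lit 19) 
(.nd (nat_lit 22) 
(.lf (nat_lit 134447150) (dlOf (nat_lit 9) (nat_lit 0x608128048c05e0002204017c04a01210178000841008f8128064c05e010202e0001003004501780007c0805f8128048405e0001e04018e04a012601780007410061012804e005e0001c04016204a012501780006c100598008015c002008e0008020583))) 
(.lf (nat_lit 63143982) (dlOf (nat_lit 2) (nat_lit 0x84e5000100199e0280)))) 
(.lf (nat_lit 537624622) (dlOf (nat_lit 4) (nat_lit 0x101c8000c0000004f0400560000002681002a02e804880cc000c0000000006007600080e0601)))) 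
(.nd (nat_lit 9) (.lf (nat_lit 1611366638) (dlOf (nat_lit 1) (nat_lit 0x400200020008166e82))) 
(.lf (nat_lit 2818808558) (dlOf (nat_lit 1) (nat_lit 0x4002812b981))))) (.nd (nat_lit 6) 
(.nd (nat_lit 7) (.lf (nat_lit 10190894) (dlOf (nat_lit 1) (nat_lit 0xc004000400085c0c02))) 
(.nd (nat_lit 19) (.lf (nat_lit 36932014) (dlOf (nat_lit 1) (nat_lit 0xb400400020019074e82))) 
(.lf (nat_lit 39553454) (dlOf (nat_lit 1) (nat_lit 0x20019194e81))))) (.nd (nat_lit 9) 
(.lf (nat_lit 24346734) (dlOf (nat_lit 2) (nat_lit 0x1401c00000018b91500))) 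
(.lf (nat_lit 20158062) (dlOf (nat_lit 1) (nat_lit 0x2580080048002004a00089d9c83)))))) 
(.nd (nat_lit 29) (.nd (nat_lit 27) (.nd (nat_lit 7) (.nd (nat_lit 9) 
(.lf (nat_lit 5436047406) (dlOf (nat_lit 1) (nat_lit 0xc000800c0002006c0008090003))) 
(.lf (nat_lit 3288564270) (dlOf (nat_lit 14) (nat_lit 0xa8040005200b0001f82002c0100014002c0007a0800b8040005c00b0001b02002a0100015802c000680800c0040005a00b0001502002b0100015002c000460800ac040005e00b000100200250100007802c0003e0800900400001e02004a020002600580007010013802c000320400980400000c0200420200003005800000100050008005000200480008090e83)))) 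
(.lf (nat_lit 5436049838) (dlOf (nat_lit 3) (nat_lit 0x80011006e9010017008803624080d70008036800200220008094e83)))) 
(.nd (nat_lit 7) (.nd (nat_lit 8) 
(.lf (nat_lit 201556014) (dlOf (nat_lit 9) (nat_lit 0x608128048c05e0002204017c04a01210178000841008f8128064c05e010202e0001003004501780007c0805f8128048405e0001e04018e04a012601780007410061012804e005e0001c04016204a012501780006c100598008015c002008e0008020583))) 
(.lf (nat_lit 1275299118) (dlOf (nat_lit 1) (nat_lit 0x600280e3201)))) 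
(.lf (nat_lit 2349039790) (dlOf (nat_lit 3) (nat_lit 0xe00d000148100020080000a008002800800dc00200180008090303))))) 
(.nd (nat_lit 32) (.nd (nat_lit 20) (.nd (nat_lit 22) 
(.lf (nat_lit 1812168750) (dlOf (nat_lit 17) (nat_lit 0x80240002481001c00580011c0802b802c0008c04010c030018600b0075002004500000008a100104030018800b0075002002c0000000881002780160004004000218200c0005803b801002280000004106018000b00770020001001005d002c0007c0401bc0000003c02011c00b006e0000000e8100458000000720400240160003702003800b0001b01005700c005d002c01f4008006c0000001a84000d005804d80000006008027000400660008160582))) 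
(.lf (nat_lit 2755887150) (dlOf (nat_lit 2) (nat_lit 0x2381e403b16040028002000200081b0002)))) 
(.lf (nat_lit 2752741422) (dlOf (nat_lit 10) (nat_lit 0x2385e400b81d600440ea012007280f4839003641c0029c0df012f06e8039037003181aa000a0ca000805d007182d4077c168034a0ad01e8056010082a807dc14203da0a0005704e00a6026c0818132040809800d804b00208250075412601da0900032006008b00180810006039c002000191f002b07580a38394078c1c800160e000d106f800c82d4031c16804900ad01c4056006d82a807c414204520a0003604d801c02600134128007800c00b800300fc000c07540040003126001e0e5002a0500000c01001b0650039831801cc17900d70720054038003281be00040dc005d05a807302b00398154017c0a1008404e005f826c034c12c013209100de048000a000c03d400401cc0000001793000c070000f837c013c15400d209c001204c001c000801a40000002e0e000e002000160100260728034039001701be002209b00a2005803380080002418006c31807fe0e501110720063838802241be01060aa00050508061828004c413c011209b000304c00010258000c1200208002000088e000400100000008194000810bc00212600008030c03))))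 
(.nd (nat_lit 6) (.nd (nat_lit 7) 
(.lf (nat_lit 4899176494) (dlOf (nat_lit 1) (nat_lit 0x4004000200080d0002))) 
(.lf (nat_lit 4899179182) (dlOf (nat_lit 1) (nat_lit 0x80080004002000200080d5683)))) 
(.lf (nat_lit 4899179374) (dlOf (nat_lit 1) (nat_lit 0xc00280d5c01))))))) (.nd (nat_lit 7) 
(.nd (nat_lit 19) (.nd (nat_lit 21) (.nd (nat_lit 8) 
(.lf (nat_lit 2753003566) (dlOf (nat_lit 17) (nat_lit 0x203a00005c0402181d00002c0200200e7000158100dc07380398000000500802a41ce0024000000138200bd073810d0364027019602600c0019405d803182c4076014c004a09d023704380ca01f808e80f4030607101e8006809900200348000000251e00320bb0016053009a821c00040100001e08019a0e70000e8100740738000600800283a00002604005c1d00000c02004e0e80000581001e0740000240800183a0000080400201d0004c0e700001820016007000000080058008055400200820008070803))) 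
(.lf (nat_lit 2886172974) (dlOf (nat_lit 7) (nat_lit 0x101f000a00dc008006a00360000025f8400190220008810c029c07c002c03c000f01b8012f42801200dc0096404008c06e004a80200040370025201000401b8010b40803b8008021400200920008188403)))) 
(.nd (nat_lit 6) (.lf (nat_lit 27754542) (dlOf (nat_lit 1) (nat_lit 0x20008d20881))) 
(.lf (nat_lit 57115758) (dlOf (nat_lit 1) (nat_lit 0x40019792a01))))) (.nd (nat_lit 23) 
(.nd (nat_lit 22) 
(.lf (nat_lit 17793070) (dlOf (nat_lit 1) (nat_lit 0x68008001c002000e00088f0e83))) 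
(.lf (nat_lit 21987374) (dlOf (nat_lit 3) (nat_lit 0x40000000b00801380000005604000c00200020008a80c02)))) 
(.nd (nat_lit 6) (.lf (nat_lit 14647342) (dlOf (nat_lit 1) (nat_lit 0x11800200680008770402))) 
(.lf (nat_lit 47153262) (dlOf (nat_lit 1) (nat_lit 0x18008000c002000600093b0a83)))))) 
(.nd (nat_lit 8) (.nd (nat_lit 6) (.nd (nat_lit 9) 
(.lf (nat_lit 3288826030) (dlOf (nat_lit 1) (nat_lit 0x18000081b0301))) 
(.lf (nat_lit 19895982) (dlOf (nat_lit 1) (nat_lit 0x4002000200089da002)))) (.nd (nat_lit 9) 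
(.lf (nat_lit 35094766) (dlOf (nat_lit 1) (nat_lit 0x2c004000e0008fd1e82))) 
(.lf (nat_lit 8357614) (dlOf (nat_lit 1) (nat_lit 0x10008000800200040008513b03))))) 
(.nd (nat_lit 6) (.lf (nat_lit 2751956910) (dlOf (nat_lit 1) (nat_lit 0x20018004381))) 
(.nd (nat_lit 12) (.nd (nat_lit 19) 
(.lf (nat_lit 493550) (dlOf (nat_lit 2) (nat_lit 0xae08800064040018002000e0008004602))) 
(.lf (nat_lit 8357870) (dlOf (nat_lit 2) (nat_lit 0x168dd00006404002c00400380018514602)))) 
(.lf (nat_lit 497646) (dlOf (nat_lit 1) (nat_lit 0x40020002000800a602)))))))) (.nd (nat_lit 30) 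
(.nd (nat_lit 26) (.nd (nat_lit 9) (.nd (nat_lit 6) (.nd (nat_lit 27) 
(.lf (nat_lit 5100503086) (dlOf (nat_lit 1) (nat_lit 0x200280d0001))) 
(.lf (nat_lit 939753518) (dlOf (nat_lit 17) (nat_lit 0x80240002481001c00580011c0802b802c0008c04010c030018600b0075002004500000008a100104030018800b0075002002c0000000881002780160004004000218200c0005803b801002280000004106018000b00770020001001005d002c0007c0401bc0000003c02011c00b006e0000000e8100458000000720400240160003702003800b0001b01005700c005d002c01f4008006c0000001a84000d005804d80000006008027000400660008160582)))) 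
(.nd (nat_lit 8) (.lf (nat_lit 5100503278) (dlOf (nat_lit 1) (nat_lit 0x200180d0a81))) 
(.lf (nat_lit 3087237614) (dlOf (nat_lit 1) (nat_lit 0x20004002c0008157d02))))) (.nd (nat_lit 29) 
(.nd (nat_lit 27) 
(.lf (nat_lit 2416149038) (dlOf (nat_lit 2) (nat_lit 0x90000000f4080008008001000200060008090e83))) 
(.lf (nat_lit 2550366766) (dlOf (nat_lit 2) (nat_lit 0x90000000f4080008008001000200060008090e83)))) 
(.nd (nat_lit 7) 
(.lf (nat_lit 805536302) (dlOf (nat_lit 4) (nat_lit 0x3402880008c0803001440003c0401040a20001d0200020028128001))) 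
(.lf (nat_lit 5100505774) (dlOf (nat_lit 1) (nat_lit 0x4004000200080d5682)))))) (.nd (nat_lit 7) 
(.nd (nat_lit 18) (.nd (nat_lit 8) 
(.lf (nat_lit 469991470) (dlOf (nat_lit 14) (nat_lit 0x6803a200ea1cf00f30e280458704000aa1000c03a200021cf01a40e6803a8714000a81004f83a200641cf032d0e6804f071402343820014171000298602170e88083873c071838a0005206033c1d1007b0e780310714000a20c050c3a200681cf03050e6800b872c024838a011a1c100210dd800140380c68744038038a01181c100570dd8000dc20021874400203820003604000e1e6013b0e881940734026438a01121c100030b88000d43010e0744072438a0003404023e1d100590e28000cc100268798050c3a200341cf03030e680488714022c38200561bb000190700ff0e880008408241000800640020e700008020583))) 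
(.lf (nat_lit 1008959790) (dlOf (nat_lit 1) (nat_lit 0x20029000b01)))) (.nd (nat_lit 9) 
(.lf (nat_lit 1008698414) (dlOf (nat_lit 1) (nat_lit 0x2e0018f52881))) 
(.lf (nat_lit 470254126) (dlOf (nat_lit 1) (nat_lit 0x200180c0e81))))) (.nd (nat_lit 6) 
(.nd (nat_lit 8) (.lf (nat_lit 2483257518) (dlOf (nat_lit 1) (nat_lit 0x34000400cc0008090302))) 
(.lf (nat_lit 474187182) (dlOf (nat_lit 2) (nat_lit 0x908d80040c04000c002000200090e3602)))) 
(.lf (nat_lit 473923822) (dlOf (nat_lit 1) (nat_lit 0x1000400040008fc1e82)))))) (.nd (nat_lit 18) 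
(.nd (nat_lit 19) (.nd (nat_lit 9) (.nd (nat_lit 20) 
(.lf (nat_lit 1342406702) (dlOf (nat_lit 14) (nat_lit 0x6803a200ea1cf00f30e280458704000aa1000c03a200021cf01a40e6803a8714000a81004f83a200641cf032d0e6804f071402343820014173000298602170e88083873c071838a0005206033c1d1007b0e780310714000a20c050c3a200681cf03050e6800b872c024838a011a1c100210dd800140380c68744038038a01181c100570dd8000dc20021874400203820003604000e1e6013b0e881940734026438a01121c100030b98000d43010e0744072438a0003404023e1d100590e28000cc100268798050c3a200341cf03030e680488714022c38200561bb000190700ff0e880008408241000800640020e700008020583))) 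
(.lf (nat_lit 3490938926) (dlOf (nat_lit 10) (nat_lit 0x2385e404bc1d600e40ea00c607180028360002019001c60c301df061001702ec008817402400b501e905a006c82c0053815e04020ad01a505200f4028c07dc14203da0a0005704e00a6026c0360132040c097020404b00208250075412601da0900032006008b00180810006039c002000179f00190618063830800ac176028e0b501e305a000582c0034415e01b60ad024805200e2028c07c414204520a0003604d801c02580134128007800c00b800300fc000c07540040002e26001e0b5002a0500000b410073066000d831801cc1790002075002e830c035c16801500b000ca057807302b40398146017c0a1008404e005f826c034c132013209100de048000a000c03d400401cc0000001613000c058000f82bc013c15a00d209c001204b001c000801a40000002b0e000e0020001481002605a803402d0017015e002209b00a2005803380080002418006c33007fe0b5011105a006382c8022415e01060ad00050508061828004c413c011209b000204c80018258000c1200208002000088e000400100000008194000810bc00212600008030c03)))) 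
(.nd (nat_lit 26) 
(.lf (nat_lit 4026761774) (dlOf (nat_lit 14) (nat_lit 0xa8040005200b0001f82002c0100014002c0007a0800b8040005c00b0001b02002a0100015802c000680800c0040005a00b0001502002b0100015002c000460800ac040005e00b000100200250100007802c0003e0800900400001d02004a020002600580007010013802c000320400980400000c0200420200003005800000100050008005000200480008090e83))) 
(.lf (nat_lit 1543733806) (dlOf (nat_lit 3) (nat_lit 0xc00a0006b02000200500035018158000))))) 
(.nd (nat_lit 6) (.nd (nat_lit 31) 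
(.lf (nat_lit 1410039854) (dlOf (nat_lit 4) (nat_lit 0x101c8000c000000560400560000002a01002a02e804880cc000c0000000006007600080e0601))) 
(.lf (nat_lit 3557523502) (dlOf (nat_lit 1) (nat_lit 0x1b0008009c00200cc0008240883)))) 
(.lf (nat_lit 4096491630) (dlOf (nat_lit 1) (nat_lit 0x52000800c400200f60008120c03))))) 
(.nd (nat_lit 7) (.nd (nat_lit 8) (.nd (nat_lit 9) 
(.lf (nat_lit 3491201070) (dlOf (nat_lit 8) (nat_lit 0x470140000140101150a0000078080cf07a000b839e00aa15f01c60a800b604f0078427000a01370000607001109c00002c0804b054000a827000009040402150018c09c00000c1003b057000000040078004000e0008070902))) 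
(.lf (nat_lit 1342669358) (dlOf (nat_lit 1) (nat_lit 0x200180c0e81)))) 
(.lf (nat_lit 3624370478) (dlOf (nat_lit 3) (nat_lit 0x301f000380dc0008a08004407401180370071008003c000000072100084002000e0008187a02)))) 
(.nd (nat_lit 6) (.nd (nat_lit 8) 
(.lf (nat_lit 4027023534) (dlOf (nat_lit 1) (nat_lit 0x18000081b0301))) 
(.lf (nat_lit 1345814958) (dlOf (nat_lit 1) (nat_lit 0x20028e06e81)))) 
(.lf (nat_lit 3492775918) (dlOf (nat_lit 2) (nat_lit 0x1a02e8000cc080038008000c002000800080f4603)))))))))))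

end

end Pool.Agent.Lib.MP_5854e1_co.Cz

namespace Pool.Agent.Lib.MP_5854e1_co.Cz

noncomputable section

noncomputable def tz140 : DT := (.nd (nat_lit 17) (.nd (nat_lit 16) (.nd (nat_lit 18) 
(.nd (nat_lit 26) (.nd (nat_lit 19) (.nd (nat_lit 11) (.nd (nat_lit 20) (.nd (nat_lit 23) 
(.nd (nat_lit 7) (.nd (nat_lit 29) 
(.lf (nat_lit 5502936326) (dlOf (nat_lit 1) (nat_lit 0x400400020008002f82))) 
(.lf (nat_lit 4966065414) (dlOf (nat_lit 1) (nat_lit 0x400400020008002f82)))) (.nd (nat_lit 6) 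
(.nd (nat_lit 27) (.lf (nat_lit 2684368518) (dlOf (nat_lit 1) (nat_lit 0x1000200080008009e02))) 
(.lf (nat_lit 2281715334) (dlOf (nat_lit 1) (nat_lit 0x400400020008009e02)))) 
(.lf (nat_lit 671129798) (dlOf (nat_lit 2) (nat_lit 0x80030000740801080080034002005800080b0403))))) 
(.nd (nat_lit 6) (.nd (nat_lit 9) 
(.lf (nat_lit 10493958) (dlOf (nat_lit 1) (nat_lit 0x200185e0581))) (.nd (nat_lit 15) 
(.lf (nat_lit 8401414) (dlOf (nat_lit 1) (nat_lit 0x400200020008518682))) 
(.lf (nat_lit 8434182) (dlOf (nat_lit 1) (nat_lit 0x400200020008518682))))) (.nd (nat_lit 15) 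
(.lf (nat_lit 14688326) (dlOf (nat_lit 3) (nat_lit 0x163e10000e8100161f0800070080008008000c00200020008770603))) 
(.lf (nat_lit 14721094) (dlOf (nat_lit 2) (nat_lit 0x8933000307c20001c04000a0018770601)))))) 
(.nd (nat_lit 7) (.nd (nat_lit 15) (.nd (nat_lit 21) 
(.lf (nat_lit 47194118) (dlOf (nat_lit 1) (nat_lit 0x200293b0001))) 
(.lf (nat_lit 3153926) (dlOf (nat_lit 1) (nat_lit 0x400200020008200002)))) (.nd (nat_lit 6) 
(.lf (nat_lit 30449926) (dlOf (nat_lit 1) (nat_lit 0xa0028e30701))) 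
(.lf (nat_lit 11575878) (dlOf (nat_lit 2) (nat_lit 0xe684000278186c1100))))) (.nd (nat_lit 12) 
(.nd (nat_lit 15) (.nd (nat_lit 22) 
(.lf (nat_lit 1880105094) (dlOf (nat_lit 1) (nat_lit 0x40008740481))) 
(.lf (nat_lit 47194246) (dlOf (nat_lit 1) (nat_lit 0x4004000200093b0f02)))) 
(.lf (nat_lit 11575430) (dlOf (nat_lit 1) (nat_lit 0x80080008002001400086c0103)))) (.nd (nat_lit 8) 
(.lf (nat_lit 19936902) (dlOf (nat_lit 1) (nat_lit 0x20008005c002001000089d9e03))) 
(.lf (nat_lit 19968390) (dlOf (nat_lit 1) (nat_lit 0x4004000200189d8382))))))) (.nd (nat_lit 6) 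
(.nd (nat_lit 7) (.nd (nat_lit 9) (.nd (nat_lit 10) 
(.lf (nat_lit 3623921670) (dlOf (nat_lit 1) (nat_lit 0x80028004701))) (.nd (nat_lit 15) 
(.lf (nat_lit 6710897670) (dlOf (nat_lit 1) (nat_lit 0x20028005f81))) 
(.lf (nat_lit 2818616326) (dlOf (nat_lit 3) (nat_lit 0x180030001580800c0018000a604000c00400080008005f82))))) 
(.nd (nat_lit 8) (.lf (nat_lit 2952805894) (dlOf (nat_lit 1) (nat_lit 0x2c002000c000800cd02))) 
(.lf (nat_lit 6710897414) (dlOf (nat_lit 1) (nat_lit 0x20028005b01))))) (.nd (nat_lit 8) 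
(.nd (nat_lit 9) (.lf (nat_lit 1342221446) (dlOf (nat_lit 1) (nat_lit 0x400400020008006102))) 
(.lf (nat_lit 6710897286) (dlOf (nat_lit 1) (nat_lit 0x100018005481)))) (.nd (nat_lit 9) 
(.nd (nat_lit 10) (.lf (nat_lit 41953670) (dlOf (nat_lit 1) (nat_lit 0x40019244e81))) 
(.lf (nat_lit 19967366) (dlOf (nat_lit 1) (nat_lit 0x80080004002000400089d6c83)))) 
(.lf (nat_lit 19934086) (dlOf (nat_lit 1) (nat_lit 0x4002000200089d5c02)))))) (.nd (nat_lit 7) 
(.nd (nat_lit 8) (.nd (nat_lit 9) 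
(.lf (nat_lit 3623888966) (dlOf (nat_lit 1) (nat_lit 0x860008004701))) 
(.lf (nat_lit 53488198) (dlOf (nat_lit 1) (nat_lit 0x4004000400195f5202)))) (.nd (nat_lit 9) 
(.lf (nat_lit 3489709382) (dlOf (nat_lit 1) (nat_lit 0x2002800c901))) 
(.lf (nat_lit 19970886) (dlOf (nat_lit 1) (nat_lit 0x2000189dbc81))))) (.nd (nat_lit 9) 
(.nd (nat_lit 27) (.nd (nat_lit 29) 
(.lf (nat_lit 1342192838) (dlOf (nat_lit 1) (nat_lit 0x800800040020002000800c203))) 
(.lf (nat_lit 1879063750) (dlOf (nat_lit 1) (nat_lit 0x800800040020002000800c203)))) 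
(.lf (nat_lit 134233286) (dlOf (nat_lit 1) (nat_lit 0x800800040020002000800c203)))) 
(.nd (nat_lit 8) (.lf (nat_lit 1342189254) (dlOf (nat_lit 1) (nat_lit 0x20028007301))) 
(.lf (nat_lit 2952802246) (dlOf (nat_lit 1) (nat_lit 0x1c00200100008007a82)))))))) 
(.nd (nat_lit 15) (.nd (nat_lit 20) (.nd (nat_lit 6) (.nd (nat_lit 24) (.nd (nat_lit 9) 
(.nd (nat_lit 27) 
(.lf (nat_lit 805838854) (dlOf (nat_lit 3) (nat_lit 0x12c0a4000804b004a0220020010c001c076008a033003a08600320298015813000a00900044047002a01a801000d00038048001c010001a003001c24480538008006800200ba00081c0003))) 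
(.lf (nat_lit 3624411142) (dlOf (nat_lit 1) (nat_lit 0x8008000400200060008190003)))) 
(.lf (nat_lit 1342710278) (dlOf (nat_lit 3) (nat_lit 0xa891c00504780021904003c23c0010a0180c0d80)))) 
(.nd (nat_lit 7) (.nd (nat_lit 22) 
(.lf (nat_lit 25698310) (dlOf (nat_lit 1) (nat_lit 0x60018c10001))) 
(.lf (nat_lit 55058438) (dlOf (nat_lit 1) (nat_lit 0x1000096a0001)))) 
(.lf (nat_lit 23601286) (dlOf (nat_lit 1) (nat_lit 0x400400020018b80102))))) (.nd (nat_lit 8) 
(.nd (nat_lit 9) (.nd (nat_lit 28) 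
(.lf (nat_lit 4726854) (dlOf (nat_lit 3) (nat_lit 0x2ac4200155fe0000e820009b508000700800680080034002000c00082b0603))) 
(.lf (nat_lit 3494387782) (dlOf (nat_lit 1) (nat_lit 0x20028211881)))) 
(.lf (nat_lit 1342710342) (dlOf (nat_lit 26) (nat_lit 0xc3c48e0010243045311e027688dc09c03ee00f61cd053e0e28088870401902e6000511201fe247011b11e00014010160091c0e8447800361d100080e2800807040009e14067448e051e23c000270202bb12381d708f0000838a00341c10002604011712380012c080828550000940402c82a800049020538154000204a0001201014c0550000812800047040222154000230100c00aa000114080260550000880403ec2a800043020200154000208101b90aa0001000807385500007e0404302a80003d0201a21540001d8102ea123821688f0119046e08c81f7007b0e88244071406a838206ea1bb01680b98134855000502a20003a1602de247025711e00b08550000720c0af848e073c23c00060e2812605500007010067448e051e23c0001b8202be12381d508f0001838a00241c10001a8400d10aa0000cc08125800805d800212d400080c1103)))) 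
(.nd (nat_lit 7) (.lf (nat_lit 8926534) (dlOf (nat_lit 1) (nat_lit 0x400200020008519902))) 
(.lf (nat_lit 1342710214) (dlOf (nat_lit 11) (nat_lit 0x120855003f02a201f60940002703023e0aa007d054403ec1280004d06000c247000230102340aa007f854402141280004306046815401000a880418250000840c08c42a80212151001904a0000f81811d8550042c2a20003c04046a154010c0a88000ec100020544000700408b82a801f415100ff04a0000dc1805c800801cc002051800080c0903)))))) 
(.nd (nat_lit 24) (.nd (nat_lit 6) (.nd (nat_lit 9) 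
(.lf (nat_lit 9969670) (dlOf (nat_lit 1) (nat_lit 0x1200085a0581))) 
(.lf (nat_lit 1345856006) (dlOf (nat_lit 4) (nat_lit 0x2a115001008a00008000002c00c003c22a000e30200c621e007608b8000001000f0008006000200020008e07b03)))) 
(.nd (nat_lit 8) (.lf (nat_lit 41428166) (dlOf (nat_lit 2) (nat_lit 0x1840000000c019242d00))) 
(.lf (nat_lit 1345855942) (dlOf (nat_lit 1) (nat_lit 0x28008000400200080008e07003))))) 
(.nd (nat_lit 9) (.nd (nat_lit 11) 
(.lf (nat_lit 56108038) (dlOf (nat_lit 1) (nat_lit 0x20019732881))) 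
(.lf (nat_lit 20458502) (dlOf (nat_lit 1) (nat_lit 0x600289d5f81)))) (.nd (nat_lit 8) 
(.lf (nat_lit 58204678) (dlOf (nat_lit 5) (nat_lit 0x4612800230920016004001784a000bc2480038c100016108000f080000710400038420002c20000194100098008013c002000200097c7b03))) 
(.lf (nat_lit 20458246) (dlOf (nat_lit 1) (nat_lit 0x200289d5b01))))))) (.nd (nat_lit 7) 
(.nd (nat_lit 6) (.nd (nat_lit 9) (.nd (nat_lit 20) 
(.lf (nat_lit 805871622) (dlOf (nat_lit 10) (nat_lit 0x1d000006404080060108031f4040004084018f90200640440083d01000601d8041e40800300ec020ec0405a808800f7f0200d2044007b48100a2022003d9c0800c80080054002006400081d0003))) 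
(.nd (nat_lit 23) (.lf (nat_lit 1343791110) (dlOf (nat_lit 1) (nat_lit 0xa0008370001))) 
(.lf (nat_lit 10002438) (dlOf (nat_lit 2) (nat_lit 0x87c000021eb0002f410014800800d4002008200085a0583))))) 
(.nd (nat_lit 8) 
(.lf (nat_lit 58237446) (dlOf (nat_lit 2) (nat_lit 0x1a52d80082964001b208001c002000600097c7b02))) 
(.lf (nat_lit 8955654) (dlOf (nat_lit 1) (nat_lit 0x800200040008513b82))))) (.nd (nat_lit 9) 
(.nd (nat_lit 28) (.lf (nat_lit 4759622) (dlOf (nat_lit 2) (nat_lit 0x280000001d02000c00182b0601))) 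
(.lf (nat_lit 3494420550) (dlOf (nat_lit 1) (nat_lit 0xc0008220c81)))) 
(.lf (nat_lit 44608070) (dlOf (nat_lit 2) (nat_lit 0x4722e0005f0200040009325201))))) 
(.nd (nat_lit 10) (.nd (nat_lit 21) (.nd (nat_lit 28) 
(.lf (nat_lit 537436294) (dlOf (nat_lit 1) (nat_lit 0x400200020008090102))) 
(.lf (nat_lit 1342742662) (dlOf (nat_lit 1) (nat_lit 0x4002000200080c0102)))) 
(.lf (nat_lit 23634054) (dlOf (nat_lit 1) (nat_lit 0x800200020008b80102)))) (.nd (nat_lit 6) 
(.lf (nat_lit 20493958) (dlOf (nat_lit 1) (nat_lit 0x200289d9e01))) 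
(.lf (nat_lit 41460934) (dlOf (nat_lit 2) (nat_lit 0xc498e0000c019242d00)))))))) (.nd (nat_lit 11) 
(.nd (nat_lit 27) (.nd (nat_lit 15) (.nd (nat_lit 10) (.nd (nat_lit 6) 
(.lf (nat_lit 1678254086) (dlOf (nat_lit 3) (nat_lit 0x12c0a4000804b004a0220020010c001c076008a033006750600320298015813000a00900044047002a01a801000d00038048001c010001a0030032d8480538008006800200ba00081c0003))) 
(.lf (nat_lit 2754093126) (dlOf (nat_lit 3) (nat_lit 0x10410e0005802008e0870002b8180c1880)))) 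
(.nd (nat_lit 7) (.nd (nat_lit 8) 
(.lf (nat_lit 2751472646) (dlOf (nat_lit 1) (nat_lit 0x20018002881))) 
(.lf (nat_lit 4630521094) (dlOf (nat_lit 1) (nat_lit 0x20028002f81)))) 
(.lf (nat_lit 67122822) (dlOf (nat_lit 1) (nat_lit 0x800400020008009e02))))) (.nd (nat_lit 6) 
(.nd (nat_lit 7) 
(.lf (nat_lit 1678286854) (dlOf (nat_lit 10) (nat_lit 0x1d0000071e8080060108038e604000408401c72020064044007f681000601d803fb00800300ec01fd20405a808800f8f0200d2044007b58100a2022003d9c0800c80080054002006400081d0003))) 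
(.nd (nat_lit 9) 
(.lf (nat_lit 1409851526) (dlOf (nat_lit 1) (nat_lit 0x8008000400200020008090103))) 
(.lf (nat_lit 5435860614) (dlOf (nat_lit 1) (nat_lit 0x20004001c0018003a02))))) (.nd (nat_lit 7) 
(.nd (nat_lit 19) 
(.lf (nat_lit 2755698758) (dlOf (nat_lit 2) (nat_lit 0x1102c803b0a040014004000600081b0002))) 
(.lf (nat_lit 2756223046) (dlOf (nat_lit 1) (nat_lit 0xc0008220c81)))) 
(.lf (nat_lit 2755698886) (dlOf (nat_lit 10) (nat_lit 0x11305900009c080ad02c80004c0405b0164000250202e00b20000e8100e30590000680801a82c80002e04018c1640000d02009c0b20000081017a05900000008016000801a8002008400081b0403)))))) 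
(.nd (nat_lit 7) (.nd (nat_lit 10) (.nd (nat_lit 6) (.nd (nat_lit 15) (.nd (nat_lit 19) 
(.lf (nat_lit 473964550) (dlOf (nat_lit 1) (nat_lit 0xd8008001000200740008fe0003))) 
(.lf (nat_lit 470294534) (dlOf (nat_lit 2) (nat_lit 0x788c4011b4040008002001e00080c0002)))) 
(.lf (nat_lit 3154681862) (dlOf (nat_lit 2) (nat_lit 0x10000009b004000c004001c0008310002)))) 
(.lf (nat_lit 470295110) (dlOf (nat_lit 26) (nat_lit 0xc3c48e0010243045311e027688dc09c03ee00f61cd053e0e28088870401902e2000511201fe247011b11e00014010160091c0e8447800361d100080e2800807040009e14067448e051e23c000270202bb12381d708f0000838a00341c10002604011712380012c080828550000940402c82a800049020538154000204a0001201014c0550000812800047040222154000230100c00aa000114080260550000880403ec2a800043020200154000208101b90aa0001000807385500007e0404302a80003d0201a21540001d8102ea123821688f0119046e08c81f7007b0e88244071406a838206ea1bb01680b88134855000502a20003a1602de247025711e00b08550000720c0af848e073c23c00060e2812605500007010067448e051e23c0001b8202be12381d508f0001838a00241c10001a8400d10aa0000cc08125800805d800212d400080c1103))))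 
(.nd (nat_lit 6) (.nd (nat_lit 8) 
(.lf (nat_lit 6375351302) (dlOf (nat_lit 1) (nat_lit 0x20028002881))) 
(.lf (nat_lit 6106916102) (dlOf (nat_lit 1) (nat_lit 0x20028002f81)))) 
(.lf (nat_lit 3691001670) (dlOf (nat_lit 1) (nat_lit 0x40040002000800a182))))) (.nd (nat_lit 6) 
(.nd (nat_lit 9) (.lf (nat_lit 470327430) (dlOf (nat_lit 1) (nat_lit 0x4002000200080c0102))) 
(.nd (nat_lit 15) (.lf (nat_lit 6643791494) (dlOf (nat_lit 1) (nat_lit 0x40028009e01))) 
(.lf (nat_lit 6643824262) (dlOf (nat_lit 1) (nat_lit 0x400200020008009e02))))) (.nd (nat_lit 8) 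
(.lf (nat_lit 1543545030) (dlOf (nat_lit 2) (nat_lit 0x80030000740801080080034002005800080b0403))) 
(.lf (nat_lit 470294982) (dlOf (nat_lit 11) (nat_lit 0x120855003f02a201f60940002703023e0aa007d054403ec1280004d06000c247000230102340aa007f854402141280004306046815401000a880418250000840c08c42a80212151001904a0000f81811d8550042c2a20003c04046a154010c0a88000ec100020544000700408b82a801f415100ff04a0000dc1805c800801cc002051800080c0903))))))) 
(.nd (nat_lit 9) (.nd (nat_lit 27) (.nd (nat_lit 30) (.nd (nat_lit 8) (.nd (nat_lit 15) 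
(.lf (nat_lit 872426502) (dlOf (nat_lit 1) (nat_lit 0x160028005f81))) 
(.lf (nat_lit 872459270) (dlOf (nat_lit 1) (nat_lit 0x260018005f81)))) 
(.lf (nat_lit 603995398) (dlOf (nat_lit 1) (nat_lit 0x2001800c601)))) (.nd (nat_lit 6) 
(.lf (nat_lit 3825215494) (dlOf (nat_lit 1) (nat_lit 0x9800800a400201420008004703))) 
(.nd (nat_lit 15) (.lf (nat_lit 1946168390) (dlOf (nat_lit 1) (nat_lit 0x400400020008006082))) 
(.lf (nat_lit 1946201158) (dlOf (nat_lit 1) (nat_lit 0x400400020008006082)))))) (.nd (nat_lit 6) 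
(.nd (nat_lit 8) (.nd (nat_lit 29) 
(.lf (nat_lit 1275079686) (dlOf (nat_lit 1) (nat_lit 0x20028005f81))) 
(.lf (nat_lit 5033176070) (dlOf (nat_lit 1) (nat_lit 0x400400020008005f82)))) 
(.lf (nat_lit 469777670) (dlOf (nat_lit 1) (nat_lit 0x40040002001800c602)))) (.nd (nat_lit 7) 
(.nd (nat_lit 8) (.lf (nat_lit 1543518278) (dlOf (nat_lit 1) (nat_lit 0x30000800a681))) 
(.lf (nat_lit 2348820806) (dlOf (nat_lit 1) (nat_lit 0x40028004d01)))) 
(.lf (nat_lit 4227873990) (dlOf (nat_lit 1) (nat_lit 0x2001800c201)))))) (.nd (nat_lit 7) 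
(.nd (nat_lit 15) (.nd (nat_lit 8) 
(.lf (nat_lit 1543518726) (dlOf (nat_lit 1) (nat_lit 0xa0000800b281))) (.nd (nat_lit 29) 
(.lf (nat_lit 1275079430) (dlOf (nat_lit 1) (nat_lit 0x60028005b01))) 
(.lf (nat_lit 5033175814) (dlOf (nat_lit 1) (nat_lit 0x400400020008005b02))))) (.nd (nat_lit 6) 
(.nd (nat_lit 28) (.lf (nat_lit 5033208582) (dlOf (nat_lit 1) (nat_lit 0x140018005b01))) 
(.lf (nat_lit 5301644038) (dlOf (nat_lit 2) (nat_lit 0x140580002e0200020018005b01)))) 
(.lf (nat_lit 69249606) (dlOf (nat_lit 3) (nat_lit 0xc29a0012118000207880017c18010853400060040174004001a0008905202))))) 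
(.nd (nat_lit 6) (.nd (nat_lit 8) (.nd (nat_lit 10) 
(.lf (nat_lit 5033175686) (dlOf (nat_lit 1) (nat_lit 0x60018005481))) 
(.lf (nat_lit 2754621062) (dlOf (nat_lit 1) (nat_lit 0x300080010002000800080f7183)))) 
(.lf (nat_lit 2885696390) (dlOf (nat_lit 1) (nat_lit 0x140020004000800bc82)))) (.nd (nat_lit 8) 
(.lf (nat_lit 2754621126) (dlOf (nat_lit 1) (nat_lit 0x280080004002000200080f7303))) 
(.nd (nat_lit 10) (.lf (nat_lit 4227873734) (dlOf (nat_lit 1) (nat_lit 0xc0020002000800be02))) 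
(.lf (nat_lit 603992006) (dlOf (nat_lit 1) (nat_lit 0xe800800c400200940008007a83)))))))))) 
(.nd (nat_lit 15) (.nd (nat_lit 28) (.nd (nat_lit 20) (.nd (nat_lit 6) (.nd (nat_lit 27) 
(.nd (nat_lit 19) (.nd (nat_lit 11) (.nd (nat_lit 26) 
(.lf (nat_lit 1074012166) (dlOf (nat_lit 1) (nat_lit 0x20018090001))) 
(.lf (nat_lit 4362346502) (dlOf (nat_lit 2) (nat_lit 0x1002a000270080060008000800200280008030583)))) 
(.nd (nat_lit 8) (.lf (nat_lit 46410758) (dlOf (nat_lit 1) (nat_lit 0xc0019385f81))) 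
(.lf (nat_lit 4899220230) (dlOf (nat_lit 1) (nat_lit 0xc00180d5b01))))) (.nd (nat_lit 21) 
(.nd (nat_lit 7) (.lf (nat_lit 59514886) (dlOf (nat_lit 1) (nat_lit 0x28008000c00200180009800003))) 
(.lf (nat_lit 25960582) (dlOf (nat_lit 1) (nat_lit 0x400400020008c10282)))) (.nd (nat_lit 8) 
(.lf (nat_lit 7086086) (dlOf (nat_lit 1) (nat_lit 0x4004000200184b0002))) 
(.lf (nat_lit 36447494) (dlOf (nat_lit 1) (nat_lit 0x800200040009072f82)))))) (.nd (nat_lit 26) 
(.nd (nat_lit 7) (.nd (nat_lit 9) 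
(.lf (nat_lit 3355713542) (dlOf (nat_lit 1) (nat_lit 0x2800280d0001))) 
(.lf (nat_lit 2818847238) (dlOf (nat_lit 1) (nat_lit 0x50008006c00200760008128683)))) 
(.lf (nat_lit 1208230022) (dlOf (nat_lit 1) (nat_lit 0xa00080014002000600080a2283)))) 
(.nd (nat_lit 10) (.lf (nat_lit 3422822406) (dlOf (nat_lit 1) (nat_lit 0x1c002000400080e0002))) 
(.lf (nat_lit 2885952518) (dlOf (nat_lit 1) (nat_lit 0x40028142881)))))) (.nd (nat_lit 19) 
(.nd (nat_lit 30) (.nd (nat_lit 26) 
(.lf (nat_lit 537141318) (dlOf (nat_lit 1) (nat_lit 0x380028030e81))) 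
(.lf (nat_lit 67379270) (dlOf (nat_lit 1) (nat_lit 0x7c004001000080f0602)))) (.nd (nat_lit 7) 
(.lf (nat_lit 1074012742) (dlOf (nat_lit 17) (nat_lit 0x1e00a4000520400ec052000280200d4029000130100700148000940803a00a4000480400740520002302004a029000100100190148000640801280a4000300400200520001602004e0290000a01000101480004c0801880a400024040104052000110200100290000801001d014800000080048008004000200220008091103))) 
(.lf (nat_lit 1074012614) (dlOf (nat_lit 7) (nat_lit 0x122029000138100950148000980804600a4000480401fc052000220200540290000a010036014800000080108008002400200080008090903))))) 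
(.nd (nat_lit 22) (.lf (nat_lit 59514950) (dlOf (nat_lit 2) (nat_lit 0x659200047019800600))) 
(.lf (nat_lit 13377606) (dlOf (nat_lit 8) (nat_lit 0x2c05a2015a25f00ad10c80568000000b01002b85a2015425f009110c800388000120000000570a0017667004e00000015410043d9a40226cce00a62190112000000150200008b4400584be000520401ec000000288100729b1807a00000009c0802b8002004a0008721882)))))) 
(.nd (nat_lit 19) (.nd (nat_lit 6) (.nd (nat_lit 7) (.nd (nat_lit 9) 
(.lf (nat_lit 3416070) (dlOf (nat_lit 1) (nat_lit 0x400400020008200002))) 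
(.lf (nat_lit 41165318) (dlOf (nat_lit 1) (nat_lit 0x40019227b01)))) (.nd (nat_lit 8) 
(.lf (nat_lit 11804806) (dlOf (nat_lit 1) (nat_lit 0x80080004002000200086c0103))) 
(.lf (nat_lit 39070086) (dlOf (nat_lit 1) (nat_lit 0x140019194e81))))) (.nd (nat_lit 7) 
(.nd (nat_lit 21) 
(.lf (nat_lit 26484806) (dlOf (nat_lit 3) (nat_lit 0x13af98000700800e57cc0003604001c002000e0008c50602))) 
(.lf (nat_lit 24387654) (dlOf (nat_lit 1) (nat_lit 0xe0028b90e01)))) 
(.lf (nat_lit 20198086) (dlOf (nat_lit 1) (nat_lit 0x100080004002000400089d8c83))))) 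
(.nd (nat_lit 10) (.nd (nat_lit 21) 
(.lf (nat_lit 31203334) (dlOf (nat_lit 1) (nat_lit 0x1c0008e70001))) (.nd (nat_lit 22) 
(.lf (nat_lit 45883398) (dlOf (nat_lit 1) (nat_lit 0x20008000400200020009360003))) 
(.lf (nat_lit 24911878) (dlOf (nat_lit 1) (nat_lit 0xc0008bc0401))))) (.nd (nat_lit 6) 
(.nd (nat_lit 8) (.lf (nat_lit 8135686) (dlOf (nat_lit 1) (nat_lit 0x8008000400200020008512883))) 
(.lf (nat_lit 56370438) (dlOf (nat_lit 1) (nat_lit 0x20009732f81)))) 
(.lf (nat_lit 47981766) (dlOf (nat_lit 1) (nat_lit 0x20019402d01))))))) (.nd (nat_lit 29) 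
(.nd (nat_lit 26) (.nd (nat_lit 19) (.nd (nat_lit 6) (.nd (nat_lit 27) 
(.lf (nat_lit 4563673094) (dlOf (nat_lit 2) (nat_lit 0x300d0031e0040044004001000080c0002))) 
(.lf (nat_lit 4697890822) (dlOf (nat_lit 2) (nat_lit 0x300d0038a8040044004001000080c0002)))) 
(.lf (nat_lit 3489938630) (dlOf (nat_lit 1) (nat_lit 0x800800040020002000800c203)))) 
(.nd (nat_lit 7) (.nd (nat_lit 27) 
(.lf (nat_lit 1344020486) (dlOf (nat_lit 3) (nat_lit 0x28274000411c000807e0004e0300090470002340800480080004002000c00083a0583))) 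
(.lf (nat_lit 5773205510) (dlOf (nat_lit 6) (nat_lit 0x24825e00cbf0200f412f0065e8100230978032f00800304bc019560400b025e00caa02000800280b0001)))) 
(.lf (nat_lit 3490462598) (dlOf (nat_lit 1) (nat_lit 0x4004000c000800bc82))))) (.nd (nat_lit 6) 
(.nd (nat_lit 19) (.lf (nat_lit 2617516038) (dlOf (nat_lit 1) (nat_lit 0x2800280d0001))) 
(.lf (nat_lit 3557564422) (dlOf (nat_lit 1) (nat_lit 0x218008000400200220008270003)))) 
(.nd (nat_lit 7) (.nd (nat_lit 10) 
(.lf (nat_lit 1409556550) (dlOf (nat_lit 1) (nat_lit 0x380028030e81))) 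
(.lf (nat_lit 3557045318) (dlOf (nat_lit 3) (nat_lit 0x1c0490001001000e024800070080130008004c00200440008129303)))) 
(.lf (nat_lit 3557044934) (dlOf (nat_lit 1) (nat_lit 0xb0008001800200240008128c83)))))) 
(.nd (nat_lit 6) (.nd (nat_lit 30) (.nd (nat_lit 7) (.nd (nat_lit 8) 
(.lf (nat_lit 3154386950) (dlOf (nat_lit 1) (nat_lit 0x80080008002000c0008160003))) 
(.lf (nat_lit 872686854) (dlOf (nat_lit 1) (nat_lit 0x50004001a0008092f82)))) 
(.lf (nat_lit 5301870726) (dlOf (nat_lit 3) (nat_lit 0xd80720096036005301a801080c8017405e009602a003b010802f007001640280058011002f0040000805801980500003e0405a4004001a00080c0e02)))) 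
(.nd (nat_lit 19) 
(.lf (nat_lit 4228128774) (dlOf (nat_lit 2) (nat_lit 0x10026800270080060008000800200280008030583))) 
(.lf (nat_lit 6377185286) (dlOf (nat_lit 6) (nat_lit 0x248240007150200f41200038a010023090001c4c08003048000e060400b02400070102000800280b0001))))) 
(.nd (nat_lit 9) (.nd (nat_lit 7) 
(.lf (nat_lit 4228659270) (dlOf (nat_lit 1) (nat_lit 0x2001811a681))) 
(.lf (nat_lit 1946427846) (dlOf (nat_lit 7) (nat_lit 0x122029000138100950148000980804600a4000480401fc052000220200540290000a010036014800000080108008002400200080008090903)))) 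
(.nd (nat_lit 11) 
(.lf (nat_lit 1946427974) (dlOf (nat_lit 17) (nat_lit 0x1e00a4000520400ec052000280200d4029000130100700148000940803a00a4000480400740520002302004a029000100100190148000640801280a4000300400200520001602004e0290000a01000101480004c0801880a400024040104052000110200100290000801001d014800000080048008004000200220008091103))) 
(.lf (nat_lit 1881418310) (dlOf (nat_lit 6) (nat_lit 0x7a0e20003070001d01e800500f00005f0800640e3002e03d800164100018388000ae0400241c0000520200740e3003603d80012c1002a000800e4002003e0008f05203)))))))) 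
(.nd (nat_lit 30) (.nd (nat_lit 19) (.nd (nat_lit 26) (.nd (nat_lit 21) (.nd (nat_lit 6) 
(.nd (nat_lit 20) (.nd (nat_lit 22) 
(.lf (nat_lit 805609478) (dlOf (nat_lit 1) (nat_lit 0x2a0008140581))) 
(.lf (nat_lit 12886022) (dlOf (nat_lit 1) (nat_lit 0x600086e0001)))) 
(.lf (nat_lit 18128902) (dlOf (nat_lit 1) (nat_lit 0x400400020008910582)))) (.nd (nat_lit 8) 
(.nd (nat_lit 20) (.lf (nat_lit 4429488198) (dlOf (nat_lit 2) (nat_lit 0x8201a000270180f1880))) 
(.lf (nat_lit 26517574) (dlOf (nat_lit 2) (nat_lit 0x4d5020044a6100015148018a5ec0003610002000200040008c50602)))) 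
(.lf (nat_lit 8697158) (dlOf (nat_lit 1) (nat_lit 0xc0028519901))))) (.nd (nat_lit 8) 
(.nd (nat_lit 6) (.nd (nat_lit 9) 
(.lf (nat_lit 44343302) (dlOf (nat_lit 1) (nat_lit 0x20008002c002002400092f0003))) 
(.lf (nat_lit 2400774) (dlOf (nat_lit 1) (nat_lit 0x20018150d81)))) 
(.lf (nat_lit 20230854) (dlOf (nat_lit 1) (nat_lit 0x4002000200089d8c82)))) (.nd (nat_lit 10) 
(.lf (nat_lit 57975046) (dlOf (nat_lit 1) (nat_lit 0x1c00197a3581))) 
(.lf (nat_lit 52733190) (dlOf (nat_lit 1) (nat_lit 0x10008000400200180009572f83)))))) 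
(.nd (nat_lit 27) (.nd (nat_lit 6) (.nd (nat_lit 10) 
(.lf (nat_lit 5167685638) (dlOf (nat_lit 2) (nat_lit 0x9805003096040014004000a0018100002))) 
(.lf (nat_lit 2751767558) (dlOf (nat_lit 1) (nat_lit 0x800200020008002882)))) (.nd (nat_lit 31) 
(.lf (nat_lit 872718406) (dlOf (nat_lit 2) (nat_lit 0x200dc000b004000c004000200080a1682))) 
(.lf (nat_lit 3020202054) (dlOf (nat_lit 2) (nat_lit 0x8006800074080008008001000200020008150603))))) 
(.nd (nat_lit 28) (.nd (nat_lit 8) 
(.lf (nat_lit 6644080646) (dlOf (nat_lit 1) (nat_lit 0x4002022e00080e0002))) 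
(.lf (nat_lit 738503430) (dlOf (nat_lit 1) (nat_lit 0x20028095b01)))) (.nd (nat_lit 7) 
(.lf (nat_lit 474259462) (dlOf (nat_lit 1) (nat_lit 0x200290f0001))) 
(.lf (nat_lit 3154419846) (dlOf (nat_lit 3) (nat_lit 0xa047005f4810001023802f9c0800480080008002000a0008160283))))))) 
(.nd (nat_lit 6) (.nd (nat_lit 20) (.nd (nat_lit 7) (.nd (nat_lit 10) (.nd (nat_lit 22) 
(.lf (nat_lit 470589446) (dlOf (nat_lit 1) (nat_lit 0x20028130001))) 
(.lf (nat_lit 13410310) (dlOf (nat_lit 2) (nat_lit 0x3deb002ff0080010008000400200020008720403)))) 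
(.lf (nat_lit 46967814) (dlOf (nat_lit 1) (nat_lit 0x20009385f81)))) 
(.lf (nat_lit 30187654) (dlOf (nat_lit 1) (nat_lit 0xc00400020008e30482)))) (.nd (nat_lit 8) 
(.nd (nat_lit 9) (.lf (nat_lit 2755436550) (dlOf (nat_lit 1) (nat_lit 0x20028180001))) 
(.lf (nat_lit 8167942) (dlOf (nat_lit 1) (nat_lit 0x80080208002009e0008511483)))) 
(.lf (nat_lit 1008510214) (dlOf (nat_lit 1) (nat_lit 0x40018d12f81))))) (.nd (nat_lit 20) 
(.nd (nat_lit 9) (.nd (nat_lit 25) 
(.lf (nat_lit 9216070) (dlOf (nat_lit 1) (nat_lit 0x10008000400200020008530583))) 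
(.lf (nat_lit 42770502) (dlOf (nat_lit 1) (nat_lit 0x1c0019280601)))) 
(.lf (nat_lit 36481606) (dlOf (nat_lit 1) (nat_lit 0xc20009075201)))) (.nd (nat_lit 7) 
(.nd (nat_lit 8) 
(.lf (nat_lit 10264646) (dlOf (nat_lit 2) (nat_lit 0xf18c00030040010004000800185c0e82))) 
(.lf (nat_lit 1876294) (dlOf (nat_lit 1) (nat_lit 0x400400160008150602)))) (.nd (nat_lit 8) 
(.lf (nat_lit 473736390) (dlOf (nat_lit 1) (nat_lit 0x8004000c0008fa2d02))) 
(.lf (nat_lit 8171974) (dlOf (nat_lit 1) (nat_lit 0xe0028518681)))))))) (.nd (nat_lit 28) 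
(.nd (nat_lit 6) (.nd (nat_lit 27) (.nd (nat_lit 8) (.nd (nat_lit 26) (.nd (nat_lit 29) 
(.lf (nat_lit 1074044934) (dlOf (nat_lit 4) (nat_lit 0x13c052007450200600290039d81002b014801cd4080020008002c00200900008090003))) 
(.lf (nat_lit 3758399494) (dlOf (nat_lit 2) (nat_lit 0x13c060017e202000c0028170001)))) 
(.lf (nat_lit 1678024710) (dlOf (nat_lit 1) (nat_lit 0x2a0008140581)))) 
(.lf (nat_lit 1610917126) (dlOf (nat_lit 1) (nat_lit 0x60028092f81)))) (.nd (nat_lit 7) 
(.lf (nat_lit 3355746310) (dlOf (nat_lit 1) (nat_lit 0x1800280f0001))) 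
(.lf (nat_lit 1745133702) (dlOf (nat_lit 1) (nat_lit 0x200180a2281))))) (.nd (nat_lit 9) 
(.nd (nat_lit 7) (.nd (nat_lit 27) 
(.lf (nat_lit 3758399558) (dlOf (nat_lit 3) (nat_lit 0x680310026017801580b0005404a0001c080162031009301600498094000360c003000200320008170602))) 
(.lf (nat_lit 1208262726) (dlOf (nat_lit 1) (nat_lit 0x200280b0581)))) 
(.lf (nat_lit 1074045382) (dlOf (nat_lit 7) (nat_lit 0x1aa029000138100d70148000980806600a40004804035c052000220200940290000a010095014800000080118008006800200020008090903)))) 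
(.nd (nat_lit 31) 
(.lf (nat_lit 1074045510) (dlOf (nat_lit 25) (nat_lit 0x5b80a4000520402b8052000280201380290001381009e0148000980805400a40004a0402b40520002402012a029000118100a20148000800802100a40003e0401a80520001d02006c0290000e01002b0148000680803880a4000320402d8052000180200d80290000b0100a20148000540805b00a4000280401640520001302014e029000090100c10148000440803800a4000200402580520000f0200e00290000401007c0148000000800e00080074002003c0008091103))) 
(.lf (nat_lit 3221529158) (dlOf (nat_lit 1) (nat_lit 0x40018128801)))))) (.nd (nat_lit 6) 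
(.nd (nat_lit 19) (.nd (nat_lit 7) (.nd (nat_lit 8) 
(.lf (nat_lit 1343528966) (dlOf (nat_lit 1) (nat_lit 0x800400080008290002))) 
(.lf (nat_lit 1543807238) (dlOf (nat_lit 2) (nat_lit 0x40000005d02000e0008187201)))) 
(.nd (nat_lit 8) (.lf (nat_lit 5637447814) (dlOf (nat_lit 1) (nat_lit 0x200180f0e01))) 
(.lf (nat_lit 2013571462) (dlOf (nat_lit 1) (nat_lit 0xc0028124e81))))) (.nd (nat_lit 20) 
(.nd (nat_lit 29) (.lf (nat_lit 1343004678) (dlOf (nat_lit 1) (nat_lit 0x20028130001))) 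
(.lf (nat_lit 1879875590) (dlOf (nat_lit 1) (nat_lit 0x400083b0001)))) (.nd (nat_lit 7) 
(.lf (nat_lit 3493634054) (dlOf (nat_lit 1) (nat_lit 0x20028180001))) 
(.lf (nat_lit 3491537030) (dlOf (nat_lit 1) (nat_lit 0xc0018090101)))))) (.nd (nat_lit 8) 
(.nd (nat_lit 9) (.nd (nat_lit 19) 
(.lf (nat_lit 2080677958) (dlOf (nat_lit 1) (nat_lit 0x200280b0581))) 
(.lf (nat_lit 1346150470) (dlOf (nat_lit 2) (nat_lit 0x205280017c04001c00400160008e60602)))) 
(.lf (nat_lit 1946460742) (dlOf (nat_lit 25) (nat_lit 0x5b80a4000520402b8052000280201380290001381009e0148000980805400a40004a0402b40520002402012a029000118100a20148000800802100a40003e0401a80520001d02006c0290000e01002b0148000680803880a4000320402d8052000180200d80290000b0100a20148000540805b00a4000280401640520001302014e029000090100c10148000440803800a4000200402580520000f0200e00290000401007c0148000000800e00080074002003c0008091103)))) 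
(.nd (nat_lit 7) (.lf (nat_lit 1345627462) (dlOf (nat_lit 1) (nat_lit 0x40028dd3301))) 
(.lf (nat_lit 1946460614) (dlOf (nat_lit 7) (nat_lit 0x1aa029000138100d70148000980806600a40004804035c052000220200940290000a010095014800000080118008006800200020008090903)))))))))) 
(.nd (nat_lit 15) (.nd (nat_lit 28) (.nd (nat_lit 6) (.nd (nat_lit 21) (.nd (nat_lit 29) 
(.nd (nat_lit 22) (.nd (nat_lit 27) (.nd (nat_lit 7) (.nd (nat_lit 9) 
(.lf (nat_lit 18685958) (dlOf (nat_lit 1) (nat_lit 0xa000800a400200220008960283))) 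
(.lf (nat_lit 6442787334) (dlOf (nat_lit 1) (nat_lit 0x2000281b0d81)))) 
(.lf (nat_lit 8463750) (dlOf (nat_lit 1) (nat_lit 0x2e0028513601)))) (.nd (nat_lit 26) 
(.lf (nat_lit 134553606) (dlOf (nat_lit 1) (nat_lit 0x48008004c00200320008070003))) 
(.lf (nat_lit 201662470) (dlOf (nat_lit 1) (nat_lit 0x48008004c00200320008070003))))) 
(.nd (nat_lit 8) (.nd (nat_lit 11) 
(.lf (nat_lit 38085638) (dlOf (nat_lit 1) (nat_lit 0x400200360009132882))) 
(.lf (nat_lit 54602758) (dlOf (nat_lit 1) (nat_lit 0x1080080060002001c0009655f83)))) 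
(.nd (nat_lit 9) (.nd (nat_lit 10) 
(.lf (nat_lit 46473478) (dlOf (nat_lit 1) (nat_lit 0x400400020009380a82))) 
(.lf (nat_lit 47785222) (dlOf (nat_lit 1) (nat_lit 0x100029402f81)))) 
(.lf (nat_lit 54602502) (dlOf (nat_lit 1) (nat_lit 0xc00200140009655b02)))))) (.nd (nat_lit 9) 
(.nd (nat_lit 18) (.nd (nat_lit 8) (.nd (nat_lit 10) 
(.lf (nat_lit 2756255750) (dlOf (nat_lit 1) (nat_lit 0x40028230001))) 
(.lf (nat_lit 3892388870) (dlOf (nat_lit 1) (nat_lit 0x1000008102881)))) 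
(.lf (nat_lit 671164678) (dlOf (nat_lit 1) (nat_lit 0x60008005000200140008144b83)))) 
(.nd (nat_lit 19) 
(.lf (nat_lit 2755993606) (dlOf (nat_lit 1) (nat_lit 0x100080008002000400081c0403))) 
(.lf (nat_lit 2819432454) (dlOf (nat_lit 1) (nat_lit 0x2800200020008280002))))) (.nd (nat_lit 7) 
(.nd (nat_lit 8) (.lf (nat_lit 3758172678) (dlOf (nat_lit 1) (nat_lit 0x2400180d5001))) 
(.lf (nat_lit 738274054) (dlOf (nat_lit 1) (nat_lit 0x400400020008095b02)))) (.nd (nat_lit 12) 
(.lf (nat_lit 1610688134) (dlOf (nat_lit 1) (nat_lit 0x20028093a01))) 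
(.lf (nat_lit 6039877254) (dlOf (nat_lit 1) (nat_lit 0x8008000400200020008009e03))))))) 
(.nd (nat_lit 19) (.nd (nat_lit 8) (.nd (nat_lit 10) (.nd (nat_lit 7) (.nd (nat_lit 20) 
(.lf (nat_lit 10821638) (dlOf (nat_lit 1) (nat_lit 0x20018630001))) 
(.lf (nat_lit 24453126) (dlOf (nat_lit 1) (nat_lit 0x10008000c002000a0008ba0003)))) 
(.lf (nat_lit 11870342) (dlOf (nat_lit 1) (nat_lit 0x80080008002000200086c0103)))) (.nd (nat_lit 9) 
(.lf (nat_lit 19999750) (dlOf (nat_lit 1) (nat_lit 0x200289d5f81))) 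
(.lf (nat_lit 20264454) (dlOf (nat_lit 1) (nat_lit 0x4004000200089d9c02))))) (.nd (nat_lit 7) 
(.nd (nat_lit 10) (.lf (nat_lit 40968454) (dlOf (nat_lit 1) (nat_lit 0x400200020009203582))) 
(.lf (nat_lit 52765958) (dlOf (nat_lit 1) (nat_lit 0x20029572f81)))) 
(.lf (nat_lit 19999622) (dlOf (nat_lit 1) (nat_lit 0x3880080004002005c00089d5c03))))) 
(.nd (nat_lit 7) (.nd (nat_lit 20) (.nd (nat_lit 18) 
(.lf (nat_lit 11083782) (dlOf (nat_lit 1) (nat_lit 0x260008660001))) 
(.lf (nat_lit 2754420742) (dlOf (nat_lit 1) (nat_lit 0x400080e0001)))) (.nd (nat_lit 8) 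
(.lf (nat_lit 3743750) (dlOf (nat_lit 2) (nat_lit 0x1f12c800e82040004004005c0018220002))) 
(.lf (nat_lit 20523782) (dlOf (nat_lit 1) (nat_lit 0xc004000c00189d5b02))))) (.nd (nat_lit 8) 
(.nd (nat_lit 9) (.lf (nat_lit 23666822) (dlOf (nat_lit 1) (nat_lit 0x400200160008b80102))) 
(.lf (nat_lit 20526726) (dlOf (nat_lit 1) (nat_lit 0x8004000600189d9e02)))) 
(.lf (nat_lit 62466438) (dlOf (nat_lit 1) (nat_lit 0x200199a4e81))))))) (.nd (nat_lit 18) 
(.nd (nat_lit 19) (.nd (nat_lit 7) (.nd (nat_lit 9) (.nd (nat_lit 10) (.nd (nat_lit 20) 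
(.lf (nat_lit 14753862) (dlOf (nat_lit 3) (nat_lit 0x44398000740800ea1cc0020f620001c0400080018770601))) 
(.lf (nat_lit 26288198) (dlOf (nat_lit 2) (nat_lit 0x10000000060400d000400320018c30602)))) 
(.lf (nat_lit 134294598) (dlOf (nat_lit 1) (nat_lit 0x1c002000a0008006082)))) (.nd (nat_lit 8) 
(.lf (nat_lit 11608646) (dlOf (nat_lit 3) (nat_lit 0x4e7e000530200ae8d9009b3890000e81000180080008002000400086c1103))) 
(.lf (nat_lit 19999558) (dlOf (nat_lit 1) (nat_lit 0x4002000200089d5c02))))) (.nd (nat_lit 8) 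
(.lf (nat_lit 1812013254) (dlOf (nat_lit 1) (nat_lit 0x70004002000080b0402))) (.nd (nat_lit 9) 
(.lf (nat_lit 1610686918) (dlOf (nat_lit 1) (nat_lit 0x10008001400200060008091103))) 
(.lf (nat_lit 671164358) (dlOf (nat_lit 1) (nat_lit 0xc0028144401)))))) (.nd (nat_lit 20) 
(.nd (nat_lit 21) (.nd (nat_lit 8) 
(.lf (nat_lit 42541126) (dlOf (nat_lit 1) (nat_lit 0x40019260601))) 
(.lf (nat_lit 8992070) (dlOf (nat_lit 1) (nat_lit 0x400200020008519902)))) (.nd (nat_lit 9) 
(.lf (nat_lit 2754158662) (dlOf (nat_lit 3) (nat_lit 0x81f90002a81000b108800086cc000a808001c004000200180c1882))) 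
(.lf (nat_lit 32057926) (dlOf (nat_lit 1) (nat_lit 0x200028ef5201))))) (.nd (nat_lit 7) 
(.lf (nat_lit 2753110598) (dlOf (nat_lit 2) (nat_lit 0x461ff00040440000981000080080008002000e0008091103))) 
(.nd (nat_lit 8) (.lf (nat_lit 37299398) (dlOf (nat_lit 1) (nat_lit 0x180080004002000200090d2d03))) 
(.lf (nat_lit 2753110470) (dlOf (nat_lit 1) (nat_lit 0x10008000400200020008090903))))))) 
(.nd (nat_lit 7) (.nd (nat_lit 23) (.nd (nat_lit 27) (.nd (nat_lit 8) 
(.lf (nat_lit 1610948678) (dlOf (nat_lit 1) (nat_lit 0x8004000400180a1682))) 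
(.lf (nat_lit 56960326) (dlOf (nat_lit 1) (nat_lit 0x80019793301)))) (.nd (nat_lit 26) 
(.lf (nat_lit 3892650054) (dlOf (nat_lit 1) (nat_lit 0x20018180601))) 
(.lf (nat_lit 2349146182) (dlOf (nat_lit 2) (nat_lit 0x5c020000e0030000b8280d0c80))))) 
(.nd (nat_lit 8) (.nd (nat_lit 19) 
(.lf (nat_lit 26550342) (dlOf (nat_lit 3) (nat_lit 0x1152c0010a81000a530800528a400192f60001c0a0086a810013530802628a4000360c004000200020008c50602))) 
(.lf (nat_lit 13443142) (dlOf (nat_lit 2) (nat_lit 0x11a55002311a400567c4008a3c980441df80009c14001400200280008721882)))) 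
(.lf (nat_lit 11870534) (dlOf (nat_lit 1) (nat_lit 0x200286c0601))))) (.nd (nat_lit 19) 
(.nd (nat_lit 9) (.lf (nat_lit 1208295622) (dlOf (nat_lit 1) (nat_lit 0x4002000200080c1b82))) 
(.lf (nat_lit 20263622) (dlOf (nat_lit 1) (nat_lit 0x80080004002000200089d8c83)))) (.nd (nat_lit 8) 
(.lf (nat_lit 67969222) (dlOf (nat_lit 1) (nat_lit 0x400200020008343902))) 
(.lf (nat_lit 1909190) (dlOf (nat_lit 1) (nat_lit 0x80028150901)))))))) (.nd (nat_lit 27) 
(.nd (nat_lit 6) (.nd (nat_lit 18) (.nd (nat_lit 7) (.nd (nat_lit 9) (.nd (nat_lit 10) 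
(.lf (nat_lit 3494453254) (dlOf (nat_lit 1) (nat_lit 0x40028230001))) 
(.lf (nat_lit 5167459334) (dlOf (nat_lit 1) (nat_lit 0xe0018055f81)))) 
(.lf (nat_lit 1880695302) (dlOf (nat_lit 2) (nat_lit 0x281be009bf0200080028b37b01)))) 
(.nd (nat_lit 8) (.nd (nat_lit 9) 
(.lf (nat_lit 3019973766) (dlOf (nat_lit 1) (nat_lit 0x2600180d2b01))) 
(.lf (nat_lit 4563479174) (dlOf (nat_lit 1) (nat_lit 0x7400200280008095482)))) 
(.lf (nat_lit 3490265990) (dlOf (nat_lit 1) (nat_lit 0x2001800bc81))))) (.nd (nat_lit 29) 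
(.nd (nat_lit 19) (.nd (nat_lit 22) 
(.lf (nat_lit 3557105670) (dlOf (nat_lit 1) (nat_lit 0x20008003c00200180008130003))) 
(.lf (nat_lit 3494191110) (dlOf (nat_lit 1) (nat_lit 0x100080008002000400081c0403)))) 
(.lf (nat_lit 3492618246) (dlOf (nat_lit 1) (nat_lit 0x400080e0001)))) (.nd (nat_lit 7) 
(.nd (nat_lit 30) 
(.lf (nat_lit 2953125894) (dlOf (nat_lit 1) (nat_lit 0x38008003000200060008150283))) 
(.lf (nat_lit 1879384070) (dlOf (nat_lit 1) (nat_lit 0x18008000400200040008110583)))) 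
(.lf (nat_lit 872751238) (dlOf (nat_lit 3) (nat_lit 0xa002c0002602001e016000110180c0e00)))))) 
(.nd (nat_lit 8) (.nd (nat_lit 31) (.nd (nat_lit 7) (.nd (nat_lit 10) 
(.lf (nat_lit 1409884230) (dlOf (nat_lit 1) (nat_lit 0x80080024002000400080a0e03))) 
(.lf (nat_lit 1342254150) (dlOf (nat_lit 1) (nat_lit 0x380080004002003c0008006083)))) 
(.lf (nat_lit 1342258374) (dlOf (nat_lit 1) (nat_lit 0x43000800040020074000800c203)))) 
(.nd (nat_lit 9) (.nd (nat_lit 26) 
(.lf (nat_lit 2416255046) (dlOf (nat_lit 3) (nat_lit 0xa000c000580200300060002b8180c1880))) 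
(.lf (nat_lit 2483363910) (dlOf (nat_lit 2) (nat_lit 0x5c020000e0030000b8280d0c80)))) 
(.lf (nat_lit 3491308102) (dlOf (nat_lit 2) (nat_lit 0x461ed00040458000981000080080008002000e0008091103))))) 
(.nd (nat_lit 7) (.nd (nat_lit 9) (.nd (nat_lit 10) 
(.lf (nat_lit 4563476806) (dlOf (nat_lit 1) (nat_lit 0x280080004002001e0008090c83))) 
(.lf (nat_lit 2952869190) (dlOf (nat_lit 1) (nat_lit 0x800800a800200220008009903)))) 
(.lf (nat_lit 2952869702) (dlOf (nat_lit 2) (nat_lit 0x4027000300d0000a0100028008001c0020010000800a183)))) 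
(.nd (nat_lit 29) 
(.lf (nat_lit 3491307974) (dlOf (nat_lit 1) (nat_lit 0x10008000400200020008090903))) 
(.lf (nat_lit 1880695238) (dlOf (nat_lit 1) (nat_lit 0x3400200040008b37002))))))) (.nd (nat_lit 32) 
(.nd (nat_lit 6) (.nd (nat_lit 18) (.nd (nat_lit 8) (.nd (nat_lit 9) 
(.lf (nat_lit 469836806) (dlOf (nat_lit 1) (nat_lit 0x400400020018002882))) 
(.lf (nat_lit 470360582) (dlOf (nat_lit 3) (nat_lit 0x623c0010e01001111e0008140800480080030002002800080c0d83)))) 
(.lf (nat_lit 402728198) (dlOf (nat_lit 1) (nat_lit 0xa0018092f81)))) (.nd (nat_lit 22) 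
(.nd (nat_lit 29) 
(.lf (nat_lit 3691323398) (dlOf (nat_lit 1) (nat_lit 0x38008003000200060008150283))) 
(.lf (nat_lit 1006968838) (dlOf (nat_lit 1) (nat_lit 0x18008000400200040008110583)))) 
(.lf (nat_lit 474292230) (dlOf (nat_lit 1) (nat_lit 0x17e0009120001))))) (.nd (nat_lit 7) 
(.nd (nat_lit 8) (.nd (nat_lit 10) 
(.lf (nat_lit 3154452550) (dlOf (nat_lit 1) (nat_lit 0x600081a0601))) 
(.lf (nat_lit 3691066438) (dlOf (nat_lit 2) (nat_lit 0x8000000a804005400200120008009302)))) 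
(.lf (nat_lit 3691066694) (dlOf (nat_lit 1) (nat_lit 0x2c002000e0008009902)))) (.nd (nat_lit 8) 
(.nd (nat_lit 10) (.lf (nat_lit 939598022) (dlOf (nat_lit 1) (nat_lit 0x70004002000080b0402))) 
(.lf (nat_lit 3624217798) (dlOf (nat_lit 3) (nat_lit 0x1f00d80006404013c06c0014034000b00000008c1800b8008000c002000e0008146383)))) 
(.nd (nat_lit 9) (.lf (nat_lit 1543581126) (dlOf (nat_lit 1) (nat_lit 0x240028146d01))) 
(.lf (nat_lit 469839814) (dlOf (nat_lit 1) (nat_lit 0xd8002000a0008007a82))))))) (.nd (nat_lit 7) 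
(.nd (nat_lit 9) (.nd (nat_lit 11) 
(.lf (nat_lit 4697695238) (dlOf (nat_lit 1) (nat_lit 0x160028092881))) (.nd (nat_lit 26) 
(.lf (nat_lit 5234568198) (dlOf (nat_lit 1) (nat_lit 0x10004000a0008055f82))) 
(.lf (nat_lit 5301677062) (dlOf (nat_lit 1) (nat_lit 0x40018005f81))))) (.nd (nat_lit 8) 
(.lf (nat_lit 6308308486) (dlOf (nat_lit 2) (nat_lit 0xf00c0000e8080020008000800200020008053683))) 
(.nd (nat_lit 29) (.lf (nat_lit 5771438854) (dlOf (nat_lit 1) (nat_lit 0x20018005b01))) 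
(.lf (nat_lit 5234567942) (dlOf (nat_lit 1) (nat_lit 0x20028055b01)))))) (.nd (nat_lit 6) 
(.nd (nat_lit 8) (.nd (nat_lit 9) 
(.lf (nat_lit 5234827398) (dlOf (nat_lit 3) (nat_lit 0x58017005e00a0000c81000f005000060040078004000200180f0e02))) 
(.lf (nat_lit 6376467078) (dlOf (nat_lit 1) (nat_lit 0x400400020008095482)))) 
(.lf (nat_lit 4697694598) (dlOf (nat_lit 1) (nat_lit 0x60028091001)))) (.nd (nat_lit 8) 
(.nd (nat_lit 9) (.lf (nat_lit 6377251014) (dlOf (nat_lit 1) (nat_lit 0x4002000200080c1b82))) 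
(.lf (nat_lit 6377515718) (dlOf (nat_lit 1) (nat_lit 0x40004002000180e5802)))) 
(.lf (nat_lit 4697694662) (dlOf (nat_lit 2) (nat_lit 0x5009000000080050008002c002000c0008091103))))))))) 
(.nd (nat_lit 18) (.nd (nat_lit 6) (.nd (nat_lit 26) (.nd (nat_lit 10) (.nd (nat_lit 19) 
(.nd (nat_lit 20) (.nd (nat_lit 8) (.nd (nat_lit 11) 
(.lf (nat_lit 2684461062) (dlOf (nat_lit 1) (nat_lit 0x1c00200060008020282))) 
(.lf (nat_lit 8501254) (dlOf (nat_lit 1) (nat_lit 0x2001851a601)))) 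
(.lf (nat_lit 4295074054) (dlOf (nat_lit 1) (nat_lit 0x2800400140008047202)))) (.nd (nat_lit 21) 
(.lf (nat_lit 47292422) (dlOf (nat_lit 1) (nat_lit 0x4004000200093c0002))) 
(.lf (nat_lit 28418054) (dlOf (nat_lit 1) (nat_lit 0xa000800a400200220008d90283))))) 
(.nd (nat_lit 7) (.nd (nat_lit 9) 
(.lf (nat_lit 134848518) (dlOf (nat_lit 1) (nat_lit 0x2000280c0401))) 
(.lf (nat_lit 50962950) (dlOf (nat_lit 1) (nat_lit 0x800294d8001)))) (.nd (nat_lit 9) 
(.nd (nat_lit 21) 
(.lf (nat_lit 5771993222) (dlOf (nat_lit 3) (nat_lit 0x5404c00120230010010000880600005a10002c050000150200420008030f01))) 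
(.lf (nat_lit 23699590) (dlOf (nat_lit 1) (nat_lit 0x20018b80101)))) 
(.lf (nat_lit 7971462) (dlOf (nat_lit 1) (nat_lit 0xa0008003400200220008511a03)))))) 
(.nd (nat_lit 8) (.nd (nat_lit 7) (.nd (nat_lit 22) 
(.lf (nat_lit 5771471878) (dlOf (nat_lit 1) (nat_lit 0x6e0018005f81))) 
(.lf (nat_lit 1346481158) (dlOf (nat_lit 1) (nat_lit 0x140028f65f81)))) 
(.lf (nat_lit 107654) (dlOf (nat_lit 1) (nat_lit 0x200018002b01)))) (.nd (nat_lit 20) 
(.lf (nat_lit 35759366) (dlOf (nat_lit 1) (nat_lit 0x800200020009012f82))) (.nd (nat_lit 21) 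
(.lf (nat_lit 34710790) (dlOf (nat_lit 1) (nat_lit 0x20008fb2f81))) 
(.lf (nat_lit 36807942) (dlOf (nat_lit 1) (nat_lit 0x20019072f81))))))) (.nd (nat_lit 28) 
(.nd (nat_lit 7) (.nd (nat_lit 31) (.nd (nat_lit 8) (.nd (nat_lit 11) 
(.lf (nat_lit 201957382) (dlOf (nat_lit 1) (nat_lit 0x2000280c0401))) 
(.lf (nat_lit 201439238) (dlOf (nat_lit 1) (nat_lit 0xb80080014002000c000800a603)))) 
(.lf (nat_lit 201434886) (dlOf (nat_lit 2) (nat_lit 0xe02080011c080018008000800200060008003b83)))) 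
(.nd (nat_lit 30) 
(.lf (nat_lit 2348916742) (dlOf (nat_lit 1) (nat_lit 0x500080020002000e0008020003))) 
(.lf (nat_lit 3422658566) (dlOf (nat_lit 3) (nat_lit 0xc004800af404000c0240057402001a0018020281))))) 
(.nd (nat_lit 8) 
(.lf (nat_lit 5435924614) (dlOf (nat_lit 6) (nat_lit 0x80fc009807c001803a000f01a800180000006c1400a407c002003a001301a80038000000681000d407c000403a000501a8000b81800900f8004c07400360350001683002501f000080e8000806a0002b06039c0018030e01))) 
(.lf (nat_lit 738830726) (dlOf (nat_lit 1) (nat_lit 0x20028124e81))))) (.nd (nat_lit 7) 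
(.nd (nat_lit 10) (.nd (nat_lit 19) 
(.lf (nat_lit 2483134470) (dlOf (nat_lit 1) (nat_lit 0x500080020002000e0008020003))) 
(.lf (nat_lit 474587142) (dlOf (nat_lit 1) (nat_lit 0x80080004002000200091b0003)))) 
(.lf (nat_lit 2080482310) (dlOf (nat_lit 1) (nat_lit 0x8008000400200020008092883)))) 
(.nd (nat_lit 19) (.nd (nat_lit 8) 
(.lf (nat_lit 4095846022) (dlOf (nat_lit 1) (nat_lit 0x4004007e00080e3a02))) 
(.lf (nat_lit 3556878726) (dlOf (nat_lit 1) (nat_lit 0x3400280d4e81)))) (.nd (nat_lit 30) 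
(.lf (nat_lit 3154747526) (dlOf (nat_lit 1) (nat_lit 0x720008310481))) 
(.lf (nat_lit 6375972998) (dlOf (nat_lit 2) (nat_lit 0x1f0140000b40800b0008003000200380008030e03)))))))) 
(.nd (nat_lit 30) (.nd (nat_lit 11) (.nd (nat_lit 7) (.nd (nat_lit 9) (.nd (nat_lit 10) 
(.lf (nat_lit 2754191430) (dlOf (nat_lit 6) (nat_lit 0x1205880030038000ae0800a42e602440e80002a8200050cc001405cc04e41d0000540600760e8000290100790740001440801e8008004000200a000080c1883))) 
(.lf (nat_lit 8500294) (dlOf (nat_lit 1) (nat_lit 0x20028519301)))) 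
(.lf (nat_lit 2753143366) (dlOf (nat_lit 5) (nat_lit 0x4203fe0002702009a24c0017107807c07fc00a03d2006a1b400b70ae8007857002602840136127000130900120ff8000940804787fc0003e040004004000a0018091102)))) 
(.nd (nat_lit 21) (.nd (nat_lit 26) 
(.lf (nat_lit 2952896710) (dlOf (nat_lit 1) (nat_lit 0xc00400040008010402))) 
(.lf (nat_lit 604086470) (dlOf (nat_lit 2) (nat_lit 0x14000000000200fa0008010401)))) 
(.nd (nat_lit 8) (.lf (nat_lit 3252422) (dlOf (nat_lit 1) (nat_lit 0x28008002000200140008200403))) 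
(.lf (nat_lit 61449670) (dlOf (nat_lit 1) (nat_lit 0x3e0029923601)))))) (.nd (nat_lit 10) 
(.nd (nat_lit 7) (.nd (nat_lit 8) 
(.lf (nat_lit 44673606) (dlOf (nat_lit 1) (nat_lit 0x8008000400200020009325203))) 
(.lf (nat_lit 671197510) (dlOf (nat_lit 1) (nat_lit 0x8008000800200180008144d03)))) 
(.lf (nat_lit 3154225862) (dlOf (nat_lit 1) (nat_lit 0x200080008002007e0008105803)))) 
(.nd (nat_lit 8) (.nd (nat_lit 9) 
(.lf (nat_lit 634054) (dlOf (nat_lit 1) (nat_lit 0x10e0018006381))) 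
(.lf (nat_lit 6576778950) (dlOf (nat_lit 1) (nat_lit 0x400400020008147302)))) 
(.lf (nat_lit 110534) (dlOf (nat_lit 1) (nat_lit 0x30008004000200120008007a83)))))) 
(.nd (nat_lit 19) (.nd (nat_lit 26) (.nd (nat_lit 7) (.nd (nat_lit 9) 
(.lf (nat_lit 1342288966) (dlOf (nat_lit 1) (nat_lit 0x2a0028009301))) 
(.lf (nat_lit 1073848902) (dlOf (nat_lit 1) (nat_lit 0x40018018d01)))) 
(.lf (nat_lit 5368815814) (dlOf (nat_lit 1) (nat_lit 0x20018031b81)))) (.nd (nat_lit 7) 
(.nd (nat_lit 9) (.lf (nat_lit 1677828166) (dlOf (nat_lit 2) (nat_lit 0xa0260065c018090000))) 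
(.lf (nat_lit 3288441414) (dlOf (nat_lit 2) (nat_lit 0x805c0049b0200060028018801)))) 
(.lf (nat_lit 1409395910) (dlOf (nat_lit 1) (nat_lit 0x8008000400200020008006383))))) 
(.nd (nat_lit 9) (.nd (nat_lit 26) (.nd (nat_lit 28) 
(.lf (nat_lit 3221856326) (dlOf (nat_lit 2) (nat_lit 0x1802f000998181a1400))) 
(.lf (nat_lit 1342808134) (dlOf (nat_lit 1) (nat_lit 0x200180d0e01)))) 
(.lf (nat_lit 1409916998) (dlOf (nat_lit 1) (nat_lit 0x4002000400080a0e02)))) (.nd (nat_lit 11) 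
(.lf (nat_lit 3491340870) (dlOf (nat_lit 5) (nat_lit 0x4203da0002702009a23400170fd007c07b400a03a8006a19f00b70ac0007855c02602840136123000130900120f68000940804787b40003e040004004000a0018091102))) 
(.lf (nat_lit 1345956422) (dlOf (nat_lit 1) (nat_lit 0x7c002000a0008e25202)))))))) 
(.nd (nat_lit 28) (.nd (nat_lit 24) (.nd (nat_lit 26) (.nd (nat_lit 6) (.nd (nat_lit 7) 
(.nd (nat_lit 20) (.lf (nat_lit 1610981382) (dlOf (nat_lit 1) (nat_lit 0x400180b0001))) 
(.lf (nat_lit 9805830) (dlOf (nat_lit 1) (nat_lit 0x700008580001)))) 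
(.lf (nat_lit 11903110) (dlOf (nat_lit 1) (nat_lit 0x4002000200086c0102)))) (.nd (nat_lit 7) 
(.nd (nat_lit 19) 
(.lf (nat_lit 1610981446) (dlOf (nat_lit 2) (nat_lit 0x406e0002602000400180b0581))) 
(.lf (nat_lit 13475910) (dlOf (nat_lit 2) (nat_lit 0x4051100091ed800080000009c0c000400400020008721882)))) 
(.lf (nat_lit 2818941126) (dlOf (nat_lit 1) (nat_lit 0x38008003800200180008130403))))) 
(.nd (nat_lit 27) (.nd (nat_lit 29) (.nd (nat_lit 20) (.nd (nat_lit 30) 
(.lf (nat_lit 4362444806) (dlOf (nat_lit 1) (nat_lit 0x3800201580008080002))) 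
(.lf (nat_lit 3288702982) (dlOf (nat_lit 4) (nat_lit 0x80100000404000667040004040003330100020200019940800400080004002000200080c0403)))) 
(.lf (nat_lit 68526086) (dlOf (nat_lit 1) (nat_lit 0x4004000200085b0002)))) (.nd (nat_lit 9) 
(.lf (nat_lit 604348422) (dlOf (nat_lit 1) (nat_lit 0x8008008c00200260008190283))) 
(.lf (nat_lit 2752363014) (dlOf (nat_lit 1) (nat_lit 0x2002800b281))))) (.nd (nat_lit 6) 
(.nd (nat_lit 8) (.lf (nat_lit 738566150) (dlOf (nat_lit 1) (nat_lit 0x400180b0001))) 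
(.lf (nat_lit 2886051590) (dlOf (nat_lit 1) (nat_lit 0x8008000400200020008143b83)))) 
(.lf (nat_lit 738566214) (dlOf (nat_lit 2) (nat_lit 0x406e0002502000400180b0581)))))) 
(.nd (nat_lit 21) (.nd (nat_lit 19) (.nd (nat_lit 6) (.nd (nat_lit 7) 
(.lf (nat_lit 18194438) (dlOf (nat_lit 1) (nat_lit 0x90002001a0008920002))) 
(.lf (nat_lit 54894726) (dlOf (nat_lit 1) (nat_lit 0x6000200180009662282)))) 
(.lf (nat_lit 21340742) (dlOf (nat_lit 1) (nat_lit 0x20028a38801)))) (.nd (nat_lit 20) 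
(.lf (nat_lit 17670150) (dlOf (nat_lit 2) (nat_lit 0x42a78002700800080080008002000400088f0483))) 
(.lf (nat_lit 22913030) (dlOf (nat_lit 2) (nat_lit 0x5dbc400000018b40000))))) (.nd (nat_lit 6) 
(.nd (nat_lit 7) (.lf (nat_lit 54373382) (dlOf (nat_lit 1) (nat_lit 0xc0008010c00200380009655f83))) 
(.lf (nat_lit 19243142) (dlOf (nat_lit 1) (nat_lit 0x400200020008970482)))) (.nd (nat_lit 7) 
(.lf (nat_lit 23437894) (dlOf (nat_lit 2) (nat_lit 0x36b8380007404000400200020008b81102))) 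
(.lf (nat_lit 23437766) (dlOf (nat_lit 2) (nat_lit 0x1ce1100020018b80900))))))) (.nd (nat_lit 29) 
(.nd (nat_lit 31) (.nd (nat_lit 27) (.nd (nat_lit 8) (.nd (nat_lit 32) 
(.lf (nat_lit 1342545926) (dlOf (nat_lit 2) (nat_lit 0x1448e0016002000a0008050581))) 
(.lf (nat_lit 5637513222) (dlOf (nat_lit 1) (nat_lit 0x260028100001)))) 
(.lf (nat_lit 1345168646) (dlOf (nat_lit 1) (nat_lit 0x20008aa2f81)))) (.nd (nat_lit 26) 
(.lf (nat_lit 1476763654) (dlOf (nat_lit 1) (nat_lit 0x8008008c00200260008190283))) 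
(.lf (nat_lit 470130694) (dlOf (nat_lit 2) (nat_lit 0x1448e0016002000a0008050581))))) 
(.nd (nat_lit 7) (.nd (nat_lit 6) 
(.lf (nat_lit 3691356166) (dlOf (nat_lit 1) (nat_lit 0x8002000400081b0002))) 
(.lf (nat_lit 3492126790) (dlOf (nat_lit 2) (nat_lit 0x290458000800803580080020002008c00080a0e03)))) 
(.nd (nat_lit 8) (.lf (nat_lit 3492653190) (dlOf (nat_lit 1) (nat_lit 0x9400280f4801))) 
(.lf (nat_lit 3490556294) (dlOf (nat_lit 1) (nat_lit 0x20018004e81)))))) (.nd (nat_lit 26) 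
(.nd (nat_lit 30) (.nd (nat_lit 27) 
(.lf (nat_lit 2953158662) (dlOf (nat_lit 1) (nat_lit 0x8002000400081b0002))) 
(.lf (nat_lit 5234860038) (dlOf (nat_lit 2) (nat_lit 0xf00c00612c080028008000c00200020008100003)))) 
(.nd (nat_lit 6) 
(.lf (nat_lit 4026900486) (dlOf (nat_lit 4) (nat_lit 0x80100000404000bfc040004040005fd810002020002fe80800400080004002000200080c0403))) 
(.lf (nat_lit 1879416902) (dlOf (nat_lit 1) (nat_lit 0x6d800805e800201580008130c83))))) 
(.nd (nat_lit 27) (.nd (nat_lit 8) (.nd (nat_lit 19) 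
(.lf (nat_lit 6241492998) (dlOf (nat_lit 1) (nat_lit 0x260028100001))) 
(.lf (nat_lit 4096630790) (dlOf (nat_lit 2) (nat_lit 0x2600000000018140580)))) 
(.lf (nat_lit 4095060742) (dlOf (nat_lit 1) (nat_lit 0x40028055b01)))) (.nd (nat_lit 6) 
(.lf (nat_lit 4228227078) (dlOf (nat_lit 1) (nat_lit 0x3800201580008080002))) 
(.lf (nat_lit 1007001670) (dlOf (nat_lit 1) (nat_lit 0x6d800805e800201580008130c83))))))))))) 
(.nd (nat_lit 15) (.nd (nat_lit 18) (.nd (nat_lit 16) (.nd (nat_lit 6) (.nd (nat_lit 29) 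
(.nd (nat_lit 20) (.nd (nat_lit 10) (.nd (nat_lit 7) (.nd (nat_lit 9) 
(.lf (nat_lit 5772025862) (dlOf (nat_lit 1) (nat_lit 0x180008040001))) 
(.lf (nat_lit 8532486) (dlOf (nat_lit 1) (nat_lit 0x20028518681)))) (.nd (nat_lit 9) 
(.lf (nat_lit 4333702) (dlOf (nat_lit 3) (nat_lit 0xd7ee00bd0020006bf7005e5018290280))) 
(.nd (nat_lit 26) (.lf (nat_lit 1208101510) (dlOf (nat_lit 1) (nat_lit 0x20028095481))) 
(.lf (nat_lit 335686278) (dlOf (nat_lit 1) (nat_lit 0x400400020008095482)))))) (.nd (nat_lit 8) 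
(.nd (nat_lit 19) (.lf (nat_lit 5637284870) (dlOf (nat_lit 1) (nat_lit 0x4200180d2881))) 
(.lf (nat_lit 36316166) (dlOf (nat_lit 1) (nat_lit 0x20019072881)))) (.nd (nat_lit 9) 
(.nd (nat_lit 19) (.lf (nat_lit 35792134) (dlOf (nat_lit 1) (nat_lit 0x20019012f81))) 
(.lf (nat_lit 36316422) (dlOf (nat_lit 1) (nat_lit 0x20019072f81)))) 
(.lf (nat_lit 8529670) (dlOf (nat_lit 1) (nat_lit 0x400400020008513b82)))))) (.nd (nat_lit 21) 
(.nd (nat_lit 23) (.nd (nat_lit 8) (.nd (nat_lit 22) 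
(.lf (nat_lit 470949894) (dlOf (nat_lit 1) (nat_lit 0x1800400040018210282))) 
(.lf (nat_lit 22159366) (dlOf (nat_lit 1) (nat_lit 0x20018aa0581)))) 
(.lf (nat_lit 34743558) (dlOf (nat_lit 1) (nat_lit 0x14400400020008fb2f82)))) (.nd (nat_lit 7) 
(.lf (nat_lit 10100742) (dlOf (nat_lit 1) (nat_lit 0x800400ae00085b0002))) 
(.lf (nat_lit 9576582) (dlOf (nat_lit 1) (nat_lit 0x400400020008570e02))))) (.nd (nat_lit 9) 
(.nd (nat_lit 10) (.nd (nat_lit 22) 
(.lf (nat_lit 11673606) (dlOf (nat_lit 1) (nat_lit 0x200080010002000600086c0003))) 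
(.lf (nat_lit 15867910) (dlOf (nat_lit 2) (nat_lit 0x250a00269818840280)))) 
(.lf (nat_lit 20065286) (dlOf (nat_lit 2) (nat_lit 0x37640000000800180080004002000600089d5f83)))) 
(.nd (nat_lit 7) (.lf (nat_lit 473571846) (dlOf (nat_lit 1) (nat_lit 0x1a0008f68001))) 
(.lf (nat_lit 20065158) (dlOf (nat_lit 1) (nat_lit 0x3d00080004002005800089d5c03))))))) 
(.nd (nat_lit 8) (.nd (nat_lit 27) (.nd (nat_lit 30) (.nd (nat_lit 28) 
(.lf (nat_lit 4899086342) (dlOf (nat_lit 1) (nat_lit 0x8008001c002000e0008060003))) 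
(.lf (nat_lit 5167521798) (dlOf (nat_lit 2) (nat_lit 0x2003001bc40200340018080001)))) 
(.nd (nat_lit 9) 
(.lf (nat_lit 1677861894) (dlOf (nat_lit 1) (nat_lit 0xf80080054002000e0008112883))) 
(.lf (nat_lit 3758236166) (dlOf (nat_lit 2) (nat_lit 0x28038001b204000800400020018107b02))))) 
(.nd (nat_lit 31) (.nd (nat_lit 7) 
(.lf (nat_lit 6376005638) (dlOf (nat_lit 1) (nat_lit 0x180008040001))) 
(.lf (nat_lit 6377054342) (dlOf (nat_lit 1) (nat_lit 0x600080010002000200080a2283)))) 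
(.nd (nat_lit 9) (.lf (nat_lit 3892977670) (dlOf (nat_lit 1) (nat_lit 0x400182c0001))) 
(.lf (nat_lit 3154256390) (dlOf (nat_lit 5) (nat_lit 0x2203400110198007c0000007106002c0680003781002203400100000000ca0800580d0000630200100028137b01)))))) 
(.nd (nat_lit 10) (.nd (nat_lit 7) (.nd (nat_lit 11) 
(.lf (nat_lit 3020038406) (dlOf (nat_lit 1) (nat_lit 0x3a00280f7b81))) 
(.lf (nat_lit 3959564550) (dlOf (nat_lit 1) (nat_lit 0x400400020008114b82)))) 
(.lf (nat_lit 2754755462) (dlOf (nat_lit 1) (nat_lit 0xa00280fbc81)))) (.nd (nat_lit 7) 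
(.nd (nat_lit 19) (.lf (nat_lit 3087148806) (dlOf (nat_lit 1) (nat_lit 0x400200020008143b82))) 
(.lf (nat_lit 2752128774) (dlOf (nat_lit 1) (nat_lit 0x20028003b81)))) 
(.lf (nat_lit 537012102) (dlOf (nat_lit 1) (nat_lit 0x40018004181))))))) (.nd (nat_lit 19) 
(.nd (nat_lit 7) (.nd (nat_lit 28) (.nd (nat_lit 9) (.nd (nat_lit 23) 
(.lf (nat_lit 604119110) (dlOf (nat_lit 1) (nat_lit 0x58008002c002001a0008030603))) 
(.lf (nat_lit 25305158) (dlOf (nat_lit 2) (nat_lit 0x3ac8b001de1c00002e08003800400680008bf0c82)))) 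
(.nd (nat_lit 8) (.lf (nat_lit 11674182) (dlOf (nat_lit 1) (nat_lit 0xcc004000600086c1102))) 
(.lf (nat_lit 3355587398) (dlOf (nat_lit 4) (nat_lit 0x180d00142a040058068000e02f0050a02000501a00284808011000800c0002004800080a8f83))))) 
(.nd (nat_lit 8) (.nd (nat_lit 27) 
(.lf (nat_lit 2416058438) (dlOf (nat_lit 1) (nat_lit 0x1000802e8002004c0008030e83))) 
(.lf (nat_lit 2550276166) (dlOf (nat_lit 1) (nat_lit 0x1000802e8002004c0008030e83)))) 
(.nd (nat_lit 9) (.lf (nat_lit 1342321990) (dlOf (nat_lit 1) (nat_lit 0x400400020008009902))) 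
(.lf (nat_lit 6241266502) (dlOf (nat_lit 1) (nat_lit 0x3e00280d5c01)))))) (.nd (nat_lit 8) 
(.nd (nat_lit 10) (.nd (nat_lit 26) 
(.lf (nat_lit 3624018118) (dlOf (nat_lit 1) (nat_lit 0x200280b0401))) 
(.lf (nat_lit 2885820614) (dlOf (nat_lit 1) (nat_lit 0x200280b0401)))) 
(.lf (nat_lit 1409428678) (dlOf (nat_lit 1) (nat_lit 0x500080028002000c0008006383)))) 
(.nd (nat_lit 11) (.nd (nat_lit 20) (.nd (nat_lit 26) 
(.lf (nat_lit 3758236102) (dlOf (nat_lit 3) (nat_lit 0x5003800280180016000000888300020070004240803a00080010002001c0008107003))) 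
(.lf (nat_lit 3154256326) (dlOf (nat_lit 3) (nat_lit 0x2c0d0001606600080000004041800401a0001fa04014000400020018137002)))) 
(.lf (nat_lit 11674054) (dlOf (nat_lit 2) (nat_lit 0x4e7ec000200186c0900)))) (.nd (nat_lit 9) 
(.lf (nat_lit 3221368262) (dlOf (nat_lit 1) (nat_lit 0x400400020008116d02))) 
(.lf (nat_lit 3221371846) (dlOf (nat_lit 1) (nat_lit 0x14000811be01))))))) (.nd (nat_lit 9) 
(.nd (nat_lit 26) (.nd (nat_lit 8) (.nd (nat_lit 22) 
(.lf (nat_lit 134881350) (dlOf (nat_lit 1) (nat_lit 0x200280d0c81))) 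
(.lf (nat_lit 4857926) (dlOf (nat_lit 2) (nat_lit 0x6000000038040014002000a00082d0602)))) 
(.lf (nat_lit 50995526) (dlOf (nat_lit 1) (nat_lit 0x580080010002000e00094e8703)))) 
(.nd (nat_lit 27) (.lf (nat_lit 1409949766) (dlOf (nat_lit 1) (nat_lit 0x2200280a0e01))) 
(.lf (nat_lit 201990214) (dlOf (nat_lit 1) (nat_lit 0x200280d0c81))))) (.nd (nat_lit 11) 
(.nd (nat_lit 7) (.lf (nat_lit 53093958) (dlOf (nat_lit 1) (nat_lit 0x400400020009573802))) 
(.lf (nat_lit 9056966) (dlOf (nat_lit 1) (nat_lit 0x8008000400200020008518c83)))) (.nd (nat_lit 20) 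
(.nd (nat_lit 25) (.lf (nat_lit 1009396294) (dlOf (nat_lit 1) (nat_lit 0x400200020009165202))) 
(.lf (nat_lit 36317766) (dlOf (nat_lit 1) (nat_lit 0x3400200a60009075202)))) 
(.lf (nat_lit 1345989190) (dlOf (nat_lit 15) (nat_lit 0x1782c000ea0d9006104e00298234000e81001f81b2000730200fc0d90003901005a0af80030578016c1ae00c809b006404580017028018857c00182bc00600d7003604d801c022c000b414004c2be00260d70001c02000a0af8002835c0006c08019c2ba00ac0d5003c0650029026800f01140076000000198600710ae80268354014013400c408a002a0000000c02800305740005c0402241b20000802001c0d90000281006e06c80001008066858003501b2019409c00d10468000002002e8008004000200080008e25203)))))))) 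
(.nd (nat_lit 26) (.nd (nat_lit 19) (.nd (nat_lit 6) (.nd (nat_lit 29) (.nd (nat_lit 8) 
(.nd (nat_lit 10) (.lf (nat_lit 2416123910) (dlOf (nat_lit 1) (nat_lit 0x20008090001))) 
(.lf (nat_lit 20130822) (dlOf (nat_lit 1) (nat_lit 0x180080010002000400089d5f83)))) 
(.lf (nat_lit 4697826566) (dlOf (nat_lit 1) (nat_lit 0x1800400660008092f82)))) (.nd (nat_lit 7) 
(.nd (nat_lit 8) (.lf (nat_lit 4026736646) (dlOf (nat_lit 1) (nat_lit 0x180028080001))) 
(.lf (nat_lit 537077510) (dlOf (nat_lit 1) (nat_lit 0x20028003b81)))) 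
(.lf (nat_lit 4160960134) (dlOf (nat_lit 2) (nat_lit 0xf0158003006400048080038004008600080a9e02))))) 
(.nd (nat_lit 29) (.nd (nat_lit 9) (.nd (nat_lit 8) 
(.lf (nat_lit 3489873094) (dlOf (nat_lit 1) (nat_lit 0x40040002000800c202))) 
(.lf (nat_lit 11739590) (dlOf (nat_lit 2) (nat_lit 0x215d400080040048002003200086c0902)))) 
(.nd (nat_lit 20) (.lf (nat_lit 8598214) (dlOf (nat_lit 1) (nat_lit 0x20018518c81))) 
(.lf (nat_lit 20132550) (dlOf (nat_lit 1) (nat_lit 0x4002000200089d8c82))))) (.nd (nat_lit 7) 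
(.nd (nat_lit 8) (.lf (nat_lit 537081926) (dlOf (nat_lit 1) (nat_lit 0x2002800a681))) 
(.lf (nat_lit 2818781510) (dlOf (nat_lit 2) (nat_lit 0x4001c000198080098008005000200060008128283)))) 
(.lf (nat_lit 2818781382) (dlOf (nat_lit 1) (nat_lit 0x60008003000200140008127f83)))))) 
(.nd (nat_lit 20) (.nd (nat_lit 10) (.nd (nat_lit 22) (.nd (nat_lit 27) 
(.lf (nat_lit 1342906374) (dlOf (nat_lit 1) (nat_lit 0x400400160008100402))) 
(.lf (nat_lit 134946822) (dlOf (nat_lit 12) (nat_lit 0x8094009580201440000049581001300000247c0800580e8000c026008ea0401c403f003e01d006b00d4027002600aa0030046f85001a0098023640801000d800e240401680ac00600480014023019200ec0b1006c000a02802d100b801bf43801f812800c808c00b002a0037783000a00a804e0000007c20801d00a401a20510002024800680fc000807401ac03500530130024004c035801e001400b005200380f08000000003002e80040d4a00180e0002)))) 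
(.nd (nat_lit 6) (.lf (nat_lit 21700614) (dlOf (nat_lit 1) (nat_lit 0x20028a60581))) 
(.lf (nat_lit 4923462) (dlOf (nat_lit 2) (nat_lit 0x14956000e499000a0000000701800400080038002002600082d0603))))) 
(.nd (nat_lit 8) (.lf (nat_lit 36381702) (dlOf (nat_lit 1) (nat_lit 0x5000200320009072882))) 
(.lf (nat_lit 36381958) (dlOf (nat_lit 1) (nat_lit 0x20019072f81))))) (.nd (nat_lit 21) 
(.nd (nat_lit 6) (.nd (nat_lit 7) 
(.lf (nat_lit 1343954950) (dlOf (nat_lit 1) (nat_lit 0x1400400020018380482))) 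
(.lf (nat_lit 14360710) (dlOf (nat_lit 1) (nat_lit 0x1c0028750281)))) 
(.lf (nat_lit 3491439174) (dlOf (nat_lit 2) (nat_lit 0x14031e000218d00b805b800098180008008001400200060008091103)))) 
(.nd (nat_lit 8) (.lf (nat_lit 54209542) (dlOf (nat_lit 1) (nat_lit 0x3000400120019655f82))) 
(.nd (nat_lit 10) 
(.lf (nat_lit 20652294) (dlOf (nat_lit 1) (nat_lit 0x100080008002000200089d0a83))) 
(.lf (nat_lit 1346053382) (dlOf (nat_lit 1) (nat_lit 0x80028e22f81)))))))) (.nd (nat_lit 30) 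
(.nd (nat_lit 19) (.nd (nat_lit 8) (.nd (nat_lit 9) (.nd (nat_lit 27) 
(.lf (nat_lit 4899151878) (dlOf (nat_lit 1) (nat_lit 0x400080004002000200080a0583))) 
(.lf (nat_lit 4496498694) (dlOf (nat_lit 4) (nat_lit 0x1600b00d0b01000b00d00612c0800f80680000004003c00400400008090002)))) 
(.lf (nat_lit 2753765894) (dlOf (nat_lit 2) (nat_lit 0x10e10005a0080048008009c00200100008090d83)))) 
(.nd (nat_lit 9) (.nd (nat_lit 20) 
(.lf (nat_lit 4764935430) (dlOf (nat_lit 1) (nat_lit 0x400400020008092f82))) 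
(.lf (nat_lit 473113862) (dlOf (nat_lit 1) (nat_lit 0x20008d12f81)))) 
(.lf (nat_lit 4630719238) (dlOf (nat_lit 1) (nat_lit 0x400400020008095b02))))) (.nd (nat_lit 29) 
(.nd (nat_lit 27) 
(.lf (nat_lit 4362805254) (dlOf (nat_lit 4) (nat_lit 0x280b80792047026e0198076141801780cc036ae040a6008e023a03300000028100000))) 
(.nd (nat_lit 28) 
(.lf (nat_lit 202055686) (dlOf (nat_lit 12) (nat_lit 0x809400dfc020144000006e90100130000037200800580e8000c02600d8e0401c403f003e01d006b00d4027002600aa004006c205001a0098035f40801000d8019760401680ac00600480014023019200ec0b1006c000a02802d100b80329c3801f812800c808c00b002a0064303000a00b004e0000012f60801d00a401a20510002024800680fc000807401ac03500530130024004c035801c001400b005200380f08000000003002e80040d4a00180e0002))) 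
(.lf (nat_lit 470491142) (dlOf (nat_lit 1) (nat_lit 0x400400160008100402))))) (.nd (nat_lit 6) 
(.nd (nat_lit 7) 
(.lf (nat_lit 3154845702) (dlOf (nat_lit 3) (nat_lit 0x2054001f028800b813c027420c00040580000002000c0028350001))) 
(.lf (nat_lit 738926726) (dlOf (nat_lit 1) (nat_lit 0x40028143b01)))) 
(.lf (nat_lit 2753241670) (dlOf (nat_lit 2) (nat_lit 0x14032e000219500b8073800098180008008001400200060008091103)))))) 
(.nd (nat_lit 31) (.nd (nat_lit 11) (.nd (nat_lit 7) 
(.lf (nat_lit 6378168582) (dlOf (nat_lit 1) (nat_lit 0x8002001a0008113582))) (.nd (nat_lit 19) 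
(.lf (nat_lit 1275273350) (dlOf (nat_lit 1) (nat_lit 0x4004000200080c0e02))) 
(.lf (nat_lit 6377119878) (dlOf (nat_lit 1) (nat_lit 0x4e00080a2281))))) (.nd (nat_lit 7) 
(.lf (nat_lit 1141058310) (dlOf (nat_lit 3) (nat_lit 0xd20130000bc0806900980005c040004004000c0018095b02))) 
(.nd (nat_lit 9) 
(.lf (nat_lit 1141057926) (dlOf (nat_lit 3) (nat_lit 0x5001300760c0807600980369c04001800400020018094e82))) 
(.lf (nat_lit 1409497990) (dlOf (nat_lit 1) (nat_lit 0x2002800bc81)))))) (.nd (nat_lit 9) 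
(.nd (nat_lit 8) (.nd (nat_lit 19) 
(.lf (nat_lit 3288539142) (dlOf (nat_lit 1) (nat_lit 0x180028080001))) 
(.lf (nat_lit 4228587526) (dlOf (nat_lit 4) (nat_lit 0x280aa0792040026e0190068641801780c802fde040a60080023a03200000028100000)))) 
(.lf (nat_lit 3556980998) (dlOf (nat_lit 1) (nat_lit 0xc0020004000812aa02)))) (.nd (nat_lit 10) 
(.nd (nat_lit 19) (.lf (nat_lit 4094896902) (dlOf (nat_lit 1) (nat_lit 0x40028055b01))) 
(.lf (nat_lit 4094372614) (dlOf (nat_lit 1) (nat_lit 0x400400020008055b02)))) 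
(.lf (nat_lit 3556978438) (dlOf (nat_lit 1) (nat_lit 0x34400401260008127482))))))))) 
(.nd (nat_lit 6) (.nd (nat_lit 21) (.nd (nat_lit 26) (.nd (nat_lit 28) (.nd (nat_lit 20) 
(.nd (nat_lit 29) (.nd (nat_lit 7) (.nd (nat_lit 9) 
(.lf (nat_lit 4429586438) (dlOf (nat_lit 1) (nat_lit 0x38002002200081a0002))) 
(.lf (nat_lit 134619654) (dlOf (nat_lit 2) (nat_lit 0xc00410000b818090d80)))) 
(.lf (nat_lit 134619526) (dlOf (nat_lit 2) (nat_lit 0x12c03b003a0818090780)))) (.nd (nat_lit 19) 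
(.lf (nat_lit 5905981446) (dlOf (nat_lit 1) (nat_lit 0x30002000c0008170002))) 
(.lf (nat_lit 2819497990) (dlOf (nat_lit 11) (nat_lit 0x540360032a01000a01b0017d40800400d800bd404002806c005c0020014036002d901000a01b0016640800500d800b3004002806c00596020014036002c901000301b00162408007800800b0002004000082b0283))))) 
(.nd (nat_lit 10) (.nd (nat_lit 16) 
(.lf (nat_lit 26615814) (dlOf (nat_lit 1) (nat_lit 0x8000200380008c50002))) 
(.lf (nat_lit 18292742) (dlOf (nat_lit 2) (nat_lit 0xd719c0000004013c00400580018920002)))) 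
(.nd (nat_lit 7) (.lf (nat_lit 47588358) (dlOf (nat_lit 1) (nat_lit 0x40029402881))) 
(.lf (nat_lit 43460230) (dlOf (nat_lit 1) (nat_lit 0x4004000200092a3a02)))))) (.nd (nat_lit 16) 
(.nd (nat_lit 7) (.nd (nat_lit 27) 
(.lf (nat_lit 4563804166) (dlOf (nat_lit 3) (nat_lit 0x3018805d080800200c402e76040028004004200080e0002))) 
(.lf (nat_lit 4698021894) (dlOf (nat_lit 3) (nat_lit 0x30188057900800200c402bba040028004004200080e0002)))) 
(.lf (nat_lit 3490064774) (dlOf (nat_lit 1) (nat_lit 0x20018004e81)))) (.nd (nat_lit 7) 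
(.nd (nat_lit 19) 
(.lf (nat_lit 5637611526) (dlOf (nat_lit 2) (nat_lit 0x1000f00080008002f4100018008001c00200040008120583))) 
(.lf (nat_lit 3491700742) (dlOf (nat_lit 1) (nat_lit 0x400400020008090002)))) 
(.lf (nat_lit 3490130310) (dlOf (nat_lit 1) (nat_lit 0x400400020018004e82)))))) (.nd (nat_lit 27) 
(.nd (nat_lit 30) (.nd (nat_lit 7) (.nd (nat_lit 28) 
(.lf (nat_lit 6509961222) (dlOf (nat_lit 1) (nat_lit 0x30002000c0008170002))) 
(.lf (nat_lit 3020300294) (dlOf (nat_lit 1) (nat_lit 0x118008004000200040008220283)))) 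
(.lf (nat_lit 4362477958) (dlOf (nat_lit 1) (nat_lit 0x40008002400200100008090783)))) 
(.nd (nat_lit 16) (.nd (nat_lit 7) 
(.lf (nat_lit 3557695494) (dlOf (nat_lit 11) (nat_lit 0x54038005f481000a01c002e0c0800400e0016f404002807000b55020014038005a581000a01c002cb80800500e00165a04002807000b2b0200140380059381000301c002c7808007800800b0002004000082b0283))) 
(.lf (nat_lit 3557171334) (dlOf (nat_lit 3) (nat_lit 0x300000152e04000400000a950200020008130281)))) 
(.nd (nat_lit 29) (.lf (nat_lit 3557236742) (dlOf (nat_lit 1) (nat_lit 0x800400020008170002))) 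
(.lf (nat_lit 6241591302) (dlOf (nat_lit 2) (nat_lit 0x1000f00080008002f0100018008001c00200040008120583)))))) 
(.nd (nat_lit 7) (.nd (nat_lit 8) (.nd (nat_lit 32) 
(.lf (nat_lit 201728006) (dlOf (nat_lit 2) (nat_lit 0xa00ec00e6a04002c002000c0008090002))) 
(.lf (nat_lit 4496695302) (dlOf (nat_lit 4) (nat_lit 0x1602300ec201000b019006f100800f80c80000004003c00400400008120002)))) 
(.lf (nat_lit 2886084358) (dlOf (nat_lit 1) (nat_lit 0x20028143b81)))) (.nd (nat_lit 11) 
(.nd (nat_lit 28) (.lf (nat_lit 201728390) (dlOf (nat_lit 2) (nat_lit 0x12c03b00675018090780))) 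
(.lf (nat_lit 4228260230) (dlOf (nat_lit 1) (nat_lit 0x40008002400200100008090783)))) 
(.lf (nat_lit 1008675206) (dlOf (nat_lit 1) (nat_lit 0x8008000400200020008ef4e83))))))) 
(.nd (nat_lit 16) (.nd (nat_lit 19) (.nd (nat_lit 22) (.nd (nat_lit 23) 
(.lf (nat_lit 1881546758) (dlOf (nat_lit 1) (nat_lit 0x1c002000a0008f40002))) 
(.lf (nat_lit 27664390) (dlOf (nat_lit 2) (nat_lit 0x507d802af8080010008000400200060008d10283)))) 
(.nd (nat_lit 7) (.nd (nat_lit 20) 
(.lf (nat_lit 15081478) (dlOf (nat_lit 1) (nat_lit 0xd80080048002001600087b0283))) 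
(.lf (nat_lit 16130054) (dlOf (nat_lit 1) (nat_lit 0x240008870001)))) 
(.lf (nat_lit 23470214) (dlOf (nat_lit 1) (nat_lit 0x40002001c0008b80102))))) (.nd (nat_lit 12) 
(.nd (nat_lit 8) (.lf (nat_lit 15605766) (dlOf (nat_lit 1) (nat_lit 0x40028810281))) 
(.lf (nat_lit 20848902) (dlOf (nat_lit 1) (nat_lit 0x4002000200089e4802)))) (.nd (nat_lit 9) 
(.lf (nat_lit 8270086) (dlOf (nat_lit 1) (nat_lit 0x400028518081))) 
(.lf (nat_lit 19806982) (dlOf (nat_lit 1) (nat_lit 0x200289db981)))))) (.nd (nat_lit 19) 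
(.nd (nat_lit 10) (.nd (nat_lit 7) 
(.lf (nat_lit 48701446) (dlOf (nat_lit 2) (nat_lit 0x1609805f88080020008000c00200040009420003))) 
(.lf (nat_lit 12001414) (dlOf (nat_lit 1) (nat_lit 0x8002000200086c0102)))) (.nd (nat_lit 8) 
(.lf (nat_lit 1344742406) (dlOf (nat_lit 1) (nat_lit 0x10008001000200040008982883))) 
(.lf (nat_lit 1344742662) (dlOf (nat_lit 2) (nat_lit 0x80f8000390200020028982f81))))) 
(.nd (nat_lit 9) (.nd (nat_lit 20) 
(.lf (nat_lit 24059910) (dlOf (nat_lit 1) (nat_lit 0x40008b80001))) 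
(.lf (nat_lit 16719878) (dlOf (nat_lit 1) (nat_lit 0x200288d0281)))) (.nd (nat_lit 8) 
(.lf (nat_lit 472850950) (dlOf (nat_lit 2) (nat_lit 0x282ca0003d02004c0018b18001))) 
(.lf (nat_lit 54471430) (dlOf (nat_lit 1) (nat_lit 0x8008000400200020009655b03)))))))) 
(.nd (nat_lit 26) (.nd (nat_lit 16) (.nd (nat_lit 20) (.nd (nat_lit 9) (.nd (nat_lit 23) 
(.nd (nat_lit 7) (.nd (nat_lit 28) 
(.lf (nat_lit 1074143302) (dlOf (nat_lit 3) (nat_lit 0x6b0138001600803b809c000ae040004004000200180c1882))) 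
(.lf (nat_lit 4026933318) (dlOf (nat_lit 3) (nat_lit 0x70040000350200360200000b8180d0c80)))) 
(.lf (nat_lit 134619590) (dlOf (nat_lit 2) (nat_lit 0x1d01d800070080108008003800200480008090903)))) 
(.nd (nat_lit 19) (.lf (nat_lit 48635974) (dlOf (nat_lit 1) (nat_lit 0x20019420601))) 
(.lf (nat_lit 59646022) (dlOf (nat_lit 1) (nat_lit 0x40029820601))))) (.nd (nat_lit 7) 
(.nd (nat_lit 19) 
(.lf (nat_lit 134619718) (dlOf (nat_lit 7) (nat_lit 0x7404a0038023000c80a80034018000270801d804a0034023000180ec041805e003c00c000130500ef025008080bc0004a0803b8094020602f0001202004001780008c0805100bc00000040f0400200120008091102))) 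
(.lf (nat_lit 3023430) (dlOf (nat_lit 2) (nat_lit 0x24206000380200020018201101)))) 
(.lf (nat_lit 19806918) (dlOf (nat_lit 1) (nat_lit 0x80080008002000200089db983))))) 
(.nd (nat_lit 21) (.nd (nat_lit 7) (.nd (nat_lit 9) 
(.lf (nat_lit 26615878) (dlOf (nat_lit 4) (nat_lit 0x22d38003b6100031af98000d7b40003810001ad3801c567d005cb378077d840033abe601e35ed0000d86000cb3e800957b40000608007800406880018c50602))) 
(.lf (nat_lit 3491635782) (dlOf (nat_lit 2) (nat_lit 0x8a1c700013018091100)))) 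
(.lf (nat_lit 47588550) (dlOf (nat_lit 1) (nat_lit 0x20009402d01)))) (.nd (nat_lit 8) 
(.lf (nat_lit 37101638) (dlOf (nat_lit 1) (nat_lit 0x8008000800200020009090603))) (.nd (nat_lit 19) 
(.lf (nat_lit 11936070) (dlOf (nat_lit 1) (nat_lit 0xa0008005c002003200086c0603))) 
(.lf (nat_lit 3493732678) (dlOf (nat_lit 1) (nat_lit 0x4004000200181b0602))))))) (.nd (nat_lit 7) 
(.nd (nat_lit 30) (.nd (nat_lit 8) 
(.lf (nat_lit 6442917958) (dlOf (nat_lit 2) (nat_lit 0x14074000c025000600d000280600004c10001400400040008220c82))) 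
(.lf (nat_lit 805773638) (dlOf (nat_lit 2) (nat_lit 0xd000000000040190002000c00081a0602)))) 
(.nd (nat_lit 19) 
(.lf (nat_lit 1879515206) (dlOf (nat_lit 3) (nat_lit 0xc1550000e0100030aa80006c0800c8008000800200120008190603))) 
(.lf (nat_lit 1880039494) (dlOf (nat_lit 1) (nat_lit 0xfc00400280008540602))))) (.nd (nat_lit 10) 
(.nd (nat_lit 8) (.lf (nat_lit 19872454) (dlOf (nat_lit 1) (nat_lit 0x4004000200189db982))) 
(.nd (nat_lit 20) 
(.lf (nat_lit 3221692870) (dlOf (nat_lit 5) (nat_lit 0xb401c0002002002e00e0000f8100230070000780800100000000004004400400100018170902))) 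
(.lf (nat_lit 1345790406) (dlOf (nat_lit 1) (nat_lit 0x1b00018de7a81))))) (.nd (nat_lit 11) 
(.lf (nat_lit 47654086) (dlOf (nat_lit 2) (nat_lit 0x28000000000040008002000e0009402d02))) 
(.nd (nat_lit 29) (.lf (nat_lit 3490131142) (dlOf (nat_lit 1) (nat_lit 0x9000400020008006382))) 
(.lf (nat_lit 4027002054) (dlOf (nat_lit 1) (nat_lit 0x800180f6381)))))))) (.nd (nat_lit 19) 
(.nd (nat_lit 7) (.nd (nat_lit 16) (.nd (nat_lit 9) 
(.lf (nat_lit 3288735814) (dlOf (nat_lit 3) (nat_lit 0x70040000380200360200000b8180d0c80))) 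
(.lf (nat_lit 201728582) (dlOf (nat_lit 7) (nat_lit 0x7404a0038023000c80a80034018000270801d804a0034023000180ec041805e003c00c000130500ef025008080bc0004a0803b8094020602f0001202004001780008c0805100bc00000040f0400200120008091102)))) 
(.nd (nat_lit 8) (.nd (nat_lit 27) 
(.lf (nat_lit 3557236806) (dlOf (nat_lit 3) (nat_lit 0x403b0002017c00100b8000804f0004008800f80140003818007002e002401100ce00280006c180298008014c00200040008170603))) 
(.lf (nat_lit 5838938182) (dlOf (nat_lit 2) (nat_lit 0x14074000c025000600d000280600004a10001400400040008220c82)))) 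
(.lf (nat_lit 1678188870) (dlOf (nat_lit 2) (nat_lit 0xd000000000040190002000c00081a0602))))) 
(.nd (nat_lit 28) (.nd (nat_lit 16) (.nd (nat_lit 27) 
(.lf (nat_lit 4362478022) (dlOf (nat_lit 6) (nat_lit 0x18815800b008200a002200028830001000000104080040048004001e005a007002d0018016800800e8000000400c004c0000001f810033020800200d80080062006602b0056011001980500006a18005400200080008090902))) 
(.lf (nat_lit 201728454) (dlOf (nat_lit 2) (nat_lit 0x1d01d800070080108008003800200480008090903)))) 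
(.lf (nat_lit 3959890374) (dlOf (nat_lit 5) (nat_lit 0xb401c0002002002e00e0000f8100230070000780800100000000004004400400100018170902)))) 
(.nd (nat_lit 8) 
(.lf (nat_lit 1009132742) (dlOf (nat_lit 10) (nat_lit 0x420e3000b071004901d8000500c01c01c600100e2009d03b0000981803c038c01e40ec0001f0401320e3009803b00007410054038c00341c4015a0760000c030071071800a038802840ec000100600e40e3007603b00001410001038c01200ec000020400c60e3000b06c803881d8000000c02a0004001c0019082d02))) 
(.lf (nat_lit 4228260294) (dlOf (nat_lit 6) (nat_lit 0x18813c00b007400a002200028830001000000104080040044004001e005a007002d0018016800800e8000000400c004c0000001f81003301d000200d80080060006602a0056011001980500006a18005400200080008090902)))))) 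
(.nd (nat_lit 20) (.nd (nat_lit 29) (.nd (nat_lit 7) 
(.lf (nat_lit 470753350) (dlOf (nat_lit 1) (nat_lit 0xc0008170601))) 
(.lf (nat_lit 472850886) (dlOf (nat_lit 1) (nat_lit 0x60028b17a81)))) (.nd (nat_lit 9) 
(.lf (nat_lit 1007624262) (dlOf (nat_lit 1) (nat_lit 0x1400400020008540602))) 
(.lf (nat_lit 2752389702) (dlOf (nat_lit 2) (nat_lit 0x4202200000004021000200300008018d02))))) 
(.nd (nat_lit 10) (.nd (nat_lit 8) 
(.lf (nat_lit 2753438278) (dlOf (nat_lit 2) (nat_lit 0x8a1d900013018091100))) 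
(.lf (nat_lit 2755535174) (dlOf (nat_lit 2) (nat_lit 0xa814c00080040020004002800081b0602)))) 
(.nd (nat_lit 7) (.lf (nat_lit 471741510) (dlOf (nat_lit 1) (nat_lit 0x400083d9301))) 
(.lf (nat_lit 69084358) (dlOf (nat_lit 1) (nat_lit 0x200288a2d01)))))))))) (.nd (nat_lit 6) 
(.nd (nat_lit 16) (.nd (nat_lit 18) (.nd (nat_lit 19) (.nd (nat_lit 27) (.nd (nat_lit 21) 
(.nd (nat_lit 10) (.nd (nat_lit 7) 
(.lf (nat_lit 8565254) (dlOf (nat_lit 1) (nat_lit 0x400400020018518682))) (.nd (nat_lit 8) 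
(.lf (nat_lit 5100445830) (dlOf (nat_lit 1) (nat_lit 0x8008000400200020008080e03))) 
(.lf (nat_lit 4093815174) (dlOf (nat_lit 1) (nat_lit 0x300018004e81))))) (.nd (nat_lit 20) 
(.nd (nat_lit 23) 
(.lf (nat_lit 54701062) (dlOf (nat_lit 1) (nat_lit 0x38008002c002000e0009655f83))) 
(.lf (nat_lit 46312454) (dlOf (nat_lit 1) (nat_lit 0x400400020009385f82)))) 
(.lf (nat_lit 59943942) (dlOf (nat_lit 1) (nat_lit 0x80019845f81))))) (.nd (nat_lit 22) 
(.nd (nat_lit 8) 
(.lf (nat_lit 69378054) (dlOf (nat_lit 2) (nat_lit 0x121180006043806d38100098008001c00200060008940003))) 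
(.nd (nat_lit 9) (.lf (nat_lit 35824902) (dlOf (nat_lit 1) (nat_lit 0x40019012f81))) 
(.lf (nat_lit 20097798) (dlOf (nat_lit 1) (nat_lit 0x80080004002000200089d5b03))))) 
(.nd (nat_lit 10) (.nd (nat_lit 20) 
(.lf (nat_lit 23240710) (dlOf (nat_lit 1) (nat_lit 0x80002000e0008b70002))) 
(.lf (nat_lit 15900678) (dlOf (nat_lit 2) (nat_lit 0x47d400269818840280)))) 
(.lf (nat_lit 40018950) (dlOf (nat_lit 1) (nat_lit 0x780080140002002c00091f2883)))))) 
(.nd (nat_lit 9) (.nd (nat_lit 8) (.nd (nat_lit 26) 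
(.lf (nat_lit 1476567046) (dlOf (nat_lit 2) (nat_lit 0x601700030038012800002fc40c008000200100008050002))) 
(.lf (nat_lit 3691159558) (dlOf (nat_lit 3) (nat_lit 0x2601600bf101001900e800000080018008008000200260008050003)))) 
(.nd (nat_lit 7) (.nd (nat_lit 20) 
(.lf (nat_lit 2818744582) (dlOf (nat_lit 1) (nat_lit 0x238002015200080f7b82))) 
(.lf (nat_lit 473080070) (dlOf (nat_lit 1) (nat_lit 0x400400020008c90a82)))) 
(.lf (nat_lit 6377613702) (dlOf (nat_lit 1) (nat_lit 0x3400180e4e81))))) (.nd (nat_lit 10) 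
(.nd (nat_lit 28) (.lf (nat_lit 2281873926) (dlOf (nat_lit 1) (nat_lit 0x4004000200080a1482))) 
(.lf (nat_lit 3624051206) (dlOf (nat_lit 2) (nat_lit 0x403a0007302000200280b0d81)))) 
(.nd (nat_lit 7) (.lf (nat_lit 3355620870) (dlOf (nat_lit 1) (nat_lit 0x14002000800080a9c02))) 
(.lf (nat_lit 2013439622) (dlOf (nat_lit 1) (nat_lit 0x20008093a01))))))) (.nd (nat_lit 20) 
(.nd (nat_lit 26) (.nd (nat_lit 8) (.nd (nat_lit 22) (.nd (nat_lit 27) (.nd (nat_lit 28) 
(.lf (nat_lit 3221921798) (dlOf (nat_lit 14) (nat_lit 0xb50178068640800500bc034260400d0080007890200f0040003c401007a020001e1c0801e00bc00efe0400100a600180370039c82006b028002500fc04d405c006fd0600f004000200010056020001b80bc007d80800cc080007802f001f082004a020001e00bc007c00802fc080002003c00390178000001802c8008000c002012400081b0003))) 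
(.lf (nat_lit 806002694) (dlOf (nat_lit 12) (nat_lit 0x1900ac01e401300d0c82000302b00601808094015800f120404b40ac0078802021a056003c381001502b001e180800a01580082204005c0ac00400020058056001f601001a02b000f80080388158000000401dc004002e0008210002)))) 
(.lf (nat_lit 134914054) (dlOf (nat_lit 2) (nat_lit 0x8201d801bf40805400080040002014400080e0003)))) 
(.lf (nat_lit 4890630) (dlOf (nat_lit 1) (nat_lit 0x80080008002000200082d0003)))) (.nd (nat_lit 10) 
(.lf (nat_lit 9085190) (dlOf (nat_lit 1) (nat_lit 0x10008000800200100008524803))) 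
(.lf (nat_lit 36349190) (dlOf (nat_lit 1) (nat_lit 0x800200020009072f82))))) (.nd (nat_lit 27) 
(.lf (nat_lit 1678417926) (dlOf (nat_lit 12) (nat_lit 0x1900ac01e401300ec282000302b006da408094015801a2c0404b40ac00d1502021a0560068a01001502b00344c0800a01580135e04005c0ac0099b020058056004c381001a02b0025e8080388158000000401dc004002e0008210002))) 
(.nd (nat_lit 29) 
(.lf (nat_lit 202022918) (dlOf (nat_lit 2) (nat_lit 0x8201d80329c0805400080040002014400080e0003))) 
(.lf (nat_lit 3960119302) (dlOf (nat_lit 14) (nat_lit 0xb50178076140800500bc03afe0400f005e00d200200680400068b0100780200034540803d010001a280400100a600180370067102006b028002500fc04d405c00ca70600f0040004cd810056020001b80bc0130e0800cc080007802f004bd82004a020001e00bc012f40802fc080002003c00390178000001802c8008000c002012400081b0003)))))) 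
(.nd (nat_lit 10) (.nd (nat_lit 7) (.nd (nat_lit 21) 
(.lf (nat_lit 10133510) (dlOf (nat_lit 1) (nat_lit 0x4004000200085b0002))) 
(.lf (nat_lit 45785094) (dlOf (nat_lit 2) (nat_lit 0x2384806d380801b80080050002002a0009360003)))) 
(.lf (nat_lit 6377087110) (dlOf (nat_lit 1) (nat_lit 0x400180a2281)))) (.nd (nat_lit 7) 
(.nd (nat_lit 8) (.lf (nat_lit 58369030) (dlOf (nat_lit 1) (nat_lit 0x4004000200197e2882))) 
(.lf (nat_lit 43689222) (dlOf (nat_lit 1) (nat_lit 0x4004000200092a2f82)))) 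
(.lf (nat_lit 8042118) (dlOf (nat_lit 1) (nat_lit 0x20028519e01))))))) (.nd (nat_lit 20) 
(.nd (nat_lit 26) (.nd (nat_lit 7) (.nd (nat_lit 27) (.nd (nat_lit 22) (.nd (nat_lit 29) 
(.lf (nat_lit 4563836934) (dlOf (nat_lit 3) (nat_lit 0x300000007c02002e0000003a8180f0580))) 
(.lf (nat_lit 1879482374) (dlOf (nat_lit 1) (nat_lit 0x80002009a0008160002)))) 
(.lf (nat_lit 1346805766) (dlOf (nat_lit 1) (nat_lit 0x8008000400200020009010003)))) 
(.nd (nat_lit 28) 
(.lf (nat_lit 2819006470) (dlOf (nat_lit 14) (nat_lit 0x5081c8066007e01d7004000a03f00de681018b01f806f2c0804d81c806b007e01bc404032e03f00ddf01019201f806ef00800b80fc036d804062407e01b55020136072001003500a680fc00b406c001002200da705019801f806d20080be80fc0368a04019407e01b39020026042015b01f800000100100008036400200360008150003))) 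
(.lf (nat_lit 4698054662) (dlOf (nat_lit 3) (nat_lit 0x300000007c02002e0000003a8180f0580))))) 
(.nd (nat_lit 8) (.nd (nat_lit 21) 
(.lf (nat_lit 54960262) (dlOf (nat_lit 1) (nat_lit 0x400400020019680f02))) 
(.lf (nat_lit 23502982) (dlOf (nat_lit 1) (nat_lit 0x800200020008b80102)))) 
(.lf (nat_lit 1345235334) (dlOf (nat_lit 1) (nat_lit 0x20018b04e81))))) (.nd (nat_lit 9) 
(.nd (nat_lit 10) (.nd (nat_lit 29) 
(.lf (nat_lit 4362510342) (dlOf (nat_lit 1) (nat_lit 0x400200040008090002))) 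
(.lf (nat_lit 1678155782) (dlOf (nat_lit 1) (nat_lit 0x700080014002000800081a0003)))) 
(.lf (nat_lit 604417030) (dlOf (nat_lit 3) (nat_lit 0x100140002701001f0000000e80800700080040002004a0008205f83)))) 
(.nd (nat_lit 7) (.nd (nat_lit 8) 
(.lf (nat_lit 1410245126) (dlOf (nat_lit 2) (nat_lit 0x24056000cf02000200181b0d81))) 
(.lf (nat_lit 604416774) (dlOf (nat_lit 4) (nat_lit 0x1401f0001901000e00f8000c408019807c0005e04000400400020008205b02)))) 
(.lf (nat_lit 2751899526) (dlOf (nat_lit 1) (nat_lit 0x20008004181)))))) (.nd (nat_lit 19) 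
(.nd (nat_lit 21) (.nd (nat_lit 23) 
(.lf (nat_lit 35037190) (dlOf (nat_lit 1) (nat_lit 0x80028fc0001))) 
(.lf (nat_lit 26648582) (dlOf (nat_lit 3) (nat_lit 0x10b73400c22810081b9a005f880800e8008017c00200a80008c50003)))) 
(.nd (nat_lit 7) (.lf (nat_lit 24551430) (dlOf (nat_lit 1) (nat_lit 0x20002000a0008ba0002))) 
(.lf (nat_lit 11968646) (dlOf (nat_lit 1) (nat_lit 0x8002000200086c0102))))) (.nd (nat_lit 7) 
(.nd (nat_lit 8) (.lf (nat_lit 16687110) (dlOf (nat_lit 1) (nat_lit 0x4002000200088d0282))) 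
(.lf (nat_lit 8305926) (dlOf (nat_lit 1) (nat_lit 0x1a002851c601)))) 
(.lf (nat_lit 62826886) (dlOf (nat_lit 1) (nat_lit 0x4002000200099a4e82))))))) (.nd (nat_lit 8) 
(.nd (nat_lit 28) (.nd (nat_lit 19) (.nd (nat_lit 18) (.nd (nat_lit 11) (.nd (nat_lit 7) 
(.nd (nat_lit 26) (.lf (nat_lit 3758333958) (dlOf (nat_lit 1) (nat_lit 0x40028130001))) 
(.lf (nat_lit 604217350) (dlOf (nat_lit 1) (nat_lit 0x600280b0001)))) 
(.lf (nat_lit 9674886) (dlOf (nat_lit 7) (nat_lit 0x8d228000d80800ee91401b34860007a41000fd1f8000d42000ee9140006804007348a0002e020007a430002d1f8000b41000ee91400056040040002000a0008570e02)))) 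
(.nd (nat_lit 10) (.lf (nat_lit 5905819654) (dlOf (nat_lit 1) (nat_lit 0x20008144701))) 
(.lf (nat_lit 4899187718) (dlOf (nat_lit 1) (nat_lit 0x4004000200180d5f82))))) (.nd (nat_lit 23) 
(.nd (nat_lit 7) 
(.lf (nat_lit 1745330694) (dlOf (nat_lit 2) (nat_lit 0x1021800510080028008000c002001a0008117b03))) 
(.lf (nat_lit 23568518) (dlOf (nat_lit 1) (nat_lit 0x400200020008b80102)))) (.nd (nat_lit 24) 
(.lf (nat_lit 48734214) (dlOf (nat_lit 2) (nat_lit 0x65cf8005ebc0000954900067f5805f882000a00080054002001a0009420003))) 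
(.lf (nat_lit 31956998) (dlOf (nat_lit 1) (nat_lit 0x10008001800200040008eb0003)))))) 
(.nd (nat_lit 20) (.nd (nat_lit 9) (.nd (nat_lit 18) 
(.lf (nat_lit 2819334150) (dlOf (nat_lit 3) (nat_lit 0x3a06a005f481000801a002f600800b8008005c00200120008240283))) 
(.lf (nat_lit 1024006) (dlOf (nat_lit 1) (nat_lit 0x1400400020008050582)))) 
(.lf (nat_lit 67871238) (dlOf (nat_lit 1) (nat_lit 0x8008000400200020008331483)))) (.nd (nat_lit 9) 
(.nd (nat_lit 10) 
(.lf (nat_lit 31170566) (dlOf (nat_lit 2) (nat_lit 0x10c8d000000080038008006400200020008e70003))) 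
(.lf (nat_lit 50045958) (dlOf (nat_lit 1) (nat_lit 0xa00294c2881)))) 
(.lf (nat_lit 8102406) (dlOf (nat_lit 1) (nat_lit 0x400400020008511482)))))) (.nd (nat_lit 7) 
(.nd (nat_lit 19) (.nd (nat_lit 9) (.nd (nat_lit 10) 
(.lf (nat_lit 2617483270) (dlOf (nat_lit 3) (nat_lit 0x1a02b0031b0100100158018cc0802480080094002004400080c0283))) 
(.lf (nat_lit 1346610182) (dlOf (nat_lit 1) (nat_lit 0x20028fe2881)))) 
(.lf (nat_lit 1006871046) (dlOf (nat_lit 1) (nat_lit 0x680080004002000e00080c0d83)))) 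
(.nd (nat_lit 9) (.nd (nat_lit 26) 
(.lf (nat_lit 1342939142) (dlOf (nat_lit 2) (nat_lit 0xd4122000bc0200680018110581))) 
(.lf (nat_lit 470523910) (dlOf (nat_lit 2) (nat_lit 0xd4122000bd0200680018110581)))) 
(.lf (nat_lit 3492788742) (dlOf (nat_lit 1) (nat_lit 0x80080008002000200080fb283))))) 
(.nd (nat_lit 9) (.nd (nat_lit 18) 
(.lf (nat_lit 335782022) (dlOf (nat_lit 1) (nat_lit 0x4004000200080a2282))) 
(.lf (nat_lit 1881645190) (dlOf (nat_lit 1) (nat_lit 0x20018f90f01)))) (.nd (nat_lit 10) 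
(.lf (nat_lit 3557012102) (dlOf (nat_lit 1) (nat_lit 0x400200040008128b82))) 
(.lf (nat_lit 5704492678) (dlOf (nat_lit 1) (nat_lit 0x4004000200080d3a02))))))) (.nd (nat_lit 7) 
(.nd (nat_lit 19) (.nd (nat_lit 9) (.nd (nat_lit 20) (.nd (nat_lit 27) 
(.lf (nat_lit 4832077062) (dlOf (nat_lit 1) (nat_lit 0x200280d2f81))) 
(.lf (nat_lit 5234730246) (dlOf (nat_lit 1) (nat_lit 0x4004000200080d2f82)))) 
(.lf (nat_lit 43230470) (dlOf (nat_lit 1) (nat_lit 0x1000192a2f81)))) 
(.lf (nat_lit 4899187462) (dlOf (nat_lit 1) (nat_lit 0x4004000200180d5b02)))) (.nd (nat_lit 9) 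
(.nd (nat_lit 18) (.lf (nat_lit 36414726) (dlOf (nat_lit 1) (nat_lit 0x40019072f81))) 
(.lf (nat_lit 33531142) (dlOf (nat_lit 1) (nat_lit 0x400400020008f52f82)))) 
(.lf (nat_lit 134981382) (dlOf (nat_lit 1) (nat_lit 0x800180f3b81))))) (.nd (nat_lit 9) 
(.nd (nat_lit 18) (.nd (nat_lit 20) 
(.lf (nat_lit 738437510) (dlOf (nat_lit 1) (nat_lit 0xc0028094e81))) 
(.lf (nat_lit 36940166) (dlOf (nat_lit 1) (nat_lit 0x100009074e81)))) 
(.lf (nat_lit 1476897158) (dlOf (nat_lit 2) (nat_lit 0x200c000000182d4e80)))) (.nd (nat_lit 12) 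
(.lf (nat_lit 4899187590) (dlOf (nat_lit 1) (nat_lit 0xe4002005200080d5c02))) (.nd (nat_lit 30) 
(.lf (nat_lit 506758) (dlOf (nat_lit 2) (nat_lit 0x4274801528080018008000c0020008000800bc83))) 
(.lf (nat_lit 1074248582) (dlOf (nat_lit 1) (nat_lit 0x1200280fbc81))))))))) (.nd (nat_lit 16) 
(.nd (nat_lit 26) (.nd (nat_lit 7) (.nd (nat_lit 18) (.nd (nat_lit 19) (.nd (nat_lit 27) 
(.nd (nat_lit 8) (.lf (nat_lit 3490881606) (dlOf (nat_lit 2) (nat_lit 0x81ea0000d018030e80))) 
(.lf (nat_lit 40019270) (dlOf (nat_lit 1) (nat_lit 0x400191f3301)))) (.nd (nat_lit 9) 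
(.lf (nat_lit 1476567110) (dlOf (nat_lit 2) (nat_lit 0xe00500006c080018008006400200200008050603))) 
(.lf (nat_lit 134390342) (dlOf (nat_lit 2) (nat_lit 0x180760049f0200040008018801))))) 
(.nd (nat_lit 9) (.nd (nat_lit 22) 
(.lf (nat_lit 42639430) (dlOf (nat_lit 1) (nat_lit 0x400400020009260602))) 
(.lf (nat_lit 4890694) (dlOf (nat_lit 1) (nat_lit 0x38002001e00082d0602)))) 
(.lf (nat_lit 3491406406) (dlOf (nat_lit 4) (nat_lit 0x201ed000130100060f68000940800307b40004804006800400080008091102))))) 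
(.nd (nat_lit 20) (.nd (nat_lit 9) (.nd (nat_lit 27) 
(.lf (nat_lit 1074176070) (dlOf (nat_lit 1) (nat_lit 0x4004000200080d0c82))) 
(.lf (nat_lit 2819006534) (dlOf (nat_lit 8) (nat_lit 0x34a81d009e00e6042807004c703701410168003c09206da044034101e823d00ec0d1806e05c603301ac018815300b805a805406bc028000301381ee8090064003e07860180061000000074a008481d81f280e8074e073034603802f981b804400d600d6068001003300b0018c01540b8079605a00da024824f0110000c08008dc03d056b01d823100dc010406a08220330263018810300b8096c054089e02800d8013828700900afc03e09500180195000000070e000081d005740e002ba03d0000d83026103801a680f40003408022c0000001902000607000a001e8000481004b01c001500be0568044015302000b280f408d006e00f602400510000000004000d800807d800200040008150603)))) 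
(.nd (nat_lit 27) 
(.lf (nat_lit 537305670) (dlOf (nat_lit 2) (nat_lit 0x7402f8000980800c8008001800200220008091103))) 
(.lf (nat_lit 134652486) (dlOf (nat_lit 3) (nat_lit 0x9a02300009c080050128002008c002602f00080060000982000280080014002000a0008091103))))) 
(.nd (nat_lit 8) (.nd (nat_lit 19) 
(.lf (nat_lit 26648646) (dlOf (nat_lit 3) (nat_lit 0x37310000e01006db9880006c080110008002c002001e0008c50603))) 
(.lf (nat_lit 14590022) (dlOf (nat_lit 3) (nat_lit 0x74f620001d0200a27b100553518000701000a80080078002000a0008770603)))) 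
(.lf (nat_lit 11968838) (dlOf (nat_lit 1) (nat_lit 0x8002000400086c0602)))))) (.nd (nat_lit 30) 
(.nd (nat_lit 20) (.nd (nat_lit 9) (.nd (nat_lit 10) 
(.lf (nat_lit 537829574) (dlOf (nat_lit 6) (nat_lit 0xf81c001ac000000240400380000000f010023032802a80000003408019c0000000d02000407000290000000001001a800800dc002005200081b0403))) 
(.lf (nat_lit 55223494) (dlOf (nat_lit 1) (nat_lit 0xc004000200096d2d02)))) 
(.lf (nat_lit 175814) (dlOf (nat_lit 1) (nat_lit 0x8008000400200020008007303)))) (.nd (nat_lit 9) 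
(.nd (nat_lit 24) (.lf (nat_lit 41592006) (dlOf (nat_lit 2) (nat_lit 0x13c98e0000c019242d00))) 
(.lf (nat_lit 58369222) (dlOf (nat_lit 12) (nat_lit 0x3319f800c0cf8017459500b526a0000b82005799f80254cf801ba595005927300771350000581402bccfc0001f0201c267e008d333806c165400080000001d08003867e0000e0100ec33f002199f00380b2a01f44e600f026a0000602802c13500002e04028ccfc01c85950000802009e33e802119f001e8b28003859300df2730068935001fc93800043f2000040800872ca0000080804719f40078cf8019059400b426a004a800000000140030004005a00197e2d02)))) 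
(.lf (nat_lit 20099782) (dlOf (nat_lit 1) (nat_lit 0x4002000200089d8c82))))) (.nd (nat_lit 18) 
(.nd (nat_lit 9) 
(.lf (nat_lit 3491406278) (dlOf (nat_lit 4) (nat_lit 0x730f30000800803687980003e0402d03cc0001e0200080028090901))) 
(.nd (nat_lit 10) (.lf (nat_lit 3489840070) (dlOf (nat_lit 1) (nat_lit 0x1a001800be01))) 
(.lf (nat_lit 3892490182) (dlOf (nat_lit 1) (nat_lit 0x60028157a81))))) (.nd (nat_lit 8) 
(.lf (nat_lit 5773369542) (dlOf (nat_lit 1) (nat_lit 0x4002000200080c1782))) (.nd (nat_lit 19) 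
(.lf (nat_lit 3221660102) (dlOf (nat_lit 2) (nat_lit 0xbe03e00010018170900))) 
(.lf (nat_lit 5772321222) (dlOf (nat_lit 1) (nat_lit 0x8008001c00200420008091103)))))))) 
(.nd (nat_lit 29) (.nd (nat_lit 9) (.nd (nat_lit 7) (.nd (nat_lit 8) (.nd (nat_lit 10) 
(.lf (nat_lit 4362772550) (dlOf (nat_lit 2) (nat_lit 0xc816000b80660004e04001c00280f1881))) 
(.lf (nat_lit 6509734982) (dlOf (nat_lit 1) (nat_lit 0x400400020008146082)))) 
(.lf (nat_lit 4362248518) (dlOf (nat_lit 6) (nat_lit 0x10238029180801e816c00dc0a400520460051a030003029000081180146008003008e010e02d004ea0200820168027480801d0008022800200120008014c03)))) 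
(.nd (nat_lit 8) (.lf (nat_lit 1543679174) (dlOf (nat_lit 1) (nat_lit 0x400400020018146382))) 
(.lf (nat_lit 4362510790) (dlOf (nat_lit 2) (nat_lit 0x6202b0001a818090900))))) (.nd (nat_lit 18) 
(.nd (nat_lit 27) 
(.lf (nat_lit 4362248774) (dlOf (nat_lit 3) (nat_lit 0x202a00008c0800c015000280580001e0400040008018d01))) 
(.lf (nat_lit 201499206) (dlOf (nat_lit 11) (nat_lit 0x6b025004380bc000d20801b0094010602f0003402001101780019c08035812802e005e000660400d404a00790178001101000680bc000860401a409400fa02f00021020068025003e00bc0008008002c09400e002f0001f82005f0178000f80801a800800b000200460008018d03)))) 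
(.nd (nat_lit 11) (.nd (nat_lit 27) 
(.lf (nat_lit 1409720902) (dlOf (nat_lit 2) (nat_lit 0x7402f8000980800c8008001800200220008091103))) 
(.lf (nat_lit 201761350) (dlOf (nat_lit 3) (nat_lit 0x9a02300009c080050128002008c002602f00080060000982000280080014002000a0008091103)))) 
(.lf (nat_lit 474393158) (dlOf (nat_lit 2) (nat_lit 0x202be000814c00025829165200)))))) 
(.nd (nat_lit 7) (.nd (nat_lit 31) (.nd (nat_lit 9) (.nd (nat_lit 28) 
(.lf (nat_lit 1678155846) (dlOf (nat_lit 1) (nat_lit 0x300080004002000200081a0003))) 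
(.lf (nat_lit 1946591302) (dlOf (nat_lit 1) (nat_lit 0x4004000200080d0c82)))) 
(.lf (nat_lit 5972861510) (dlOf (nat_lit 1) (nat_lit 0x200018158d01)))) (.nd (nat_lit 8) 
(.nd (nat_lit 9) (.lf (nat_lit 2752684102) (dlOf (nat_lit 2) (nat_lit 0x81fc0000d818030e80))) 
(.lf (nat_lit 2753208902) (dlOf (nat_lit 4) (nat_lit 0x201ff000130100060ff8000940800307fc0004804006800400080008091102)))) 
(.lf (nat_lit 4228030790) (dlOf (nat_lit 6) (nat_lit 0x10200012c40801e815000dc096005203f0024f830003025800080fc00936080030080010e02c0021f8200820160010ec0801d0008022800200120008014c03))))) 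
(.nd (nat_lit 18) (.nd (nat_lit 8) 
(.lf (nat_lit 2885853382) (dlOf (nat_lit 3) (nat_lit 0x60000000d0100020028000000800700080024002002e00080b0403))) 
(.lf (nat_lit 2753208774) (dlOf (nat_lit 4) (nat_lit 0x730fc0000800803687e00003e0402d03f00001e0200080028090901)))) 
(.nd (nat_lit 28) (.lf (nat_lit 3959857606) (dlOf (nat_lit 2) (nat_lit 0xbe03e00010018170900))) 
(.lf (nat_lit 4228293062) (dlOf (nat_lit 2) (nat_lit 0x6202a0001a818090900)))))))) (.nd (nat_lit 9) 
(.nd (nat_lit 7) (.nd (nat_lit 18) (.nd (nat_lit 29) (.nd (nat_lit 8) (.nd (nat_lit 10) 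
(.lf (nat_lit 26452038) (dlOf (nat_lit 3) (nat_lit 0xb52d0000700801c29680003604000400200040008c50602))) 
(.lf (nat_lit 8631366) (dlOf (nat_lit 1) (nat_lit 0x20018519301)))) 
(.lf (nat_lit 8106310) (dlOf (nat_lit 1) (nat_lit 0x20008000400200020008518283)))) 
(.nd (nat_lit 11) (.nd (nat_lit 26) 
(.lf (nat_lit 805544262) (dlOf (nat_lit 2) (nat_lit 0x3400a0021f818124c00))) 
(.lf (nat_lit 1677959494) (dlOf (nat_lit 2) (nat_lit 0x3400a004ea018124c00)))) 
(.lf (nat_lit 2885921094) (dlOf (nat_lit 1) (nat_lit 0x8008000400200060008144d03))))) 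
(.nd (nat_lit 22) (.nd (nat_lit 19) (.nd (nat_lit 20) 
(.lf (nat_lit 4228358214) (dlOf (nat_lit 1) (nat_lit 0xc0028090001))) 
(.lf (nat_lit 37199942) (dlOf (nat_lit 1) (nat_lit 0x80080008002000200090b0603)))) 
(.lf (nat_lit 68132934) (dlOf (nat_lit 1) (nat_lit 0x7c00400100008400602)))) (.nd (nat_lit 20) 
(.nd (nat_lit 23) 
(.lf (nat_lit 21995590) (dlOf (nat_lit 3) (nat_lit 0x220000000a01006306b800040080030008000800200100008a80e83))) 
(.lf (nat_lit 13606982) (dlOf (nat_lit 2) (nat_lit 0xbfe318048ef580002e080074004000a0008730c82)))) 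
(.lf (nat_lit 14655558) (dlOf (nat_lit 3) (nat_lit 0x71f0800074080350f840003804000800200020008770602)))))) 
(.nd (nat_lit 28) (.nd (nat_lit 8) (.nd (nat_lit 19) 
(.lf (nat_lit 1678221510) (dlOf (nat_lit 2) (nat_lit 0xf00b40001c04003c004004200081a0402))) 
(.lf (nat_lit 2072774) (dlOf (nat_lit 1) (nat_lit 0x28008002000200140008150403)))) 
(.nd (nat_lit 12) (.nd (nat_lit 18) 
(.lf (nat_lit 23306694) (dlOf (nat_lit 2) (nat_lit 0x34d3b00027018b80900))) 
(.lf (nat_lit 1745330630) (dlOf (nat_lit 3) (nat_lit 0xe8114005c086000603e00100000008682000b01140040a04022000400180008117002)))) 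
(.lf (nat_lit 8106438) (dlOf (nat_lit 1) (nat_lit 0x40028518681))))) (.nd (nat_lit 8) 
(.nd (nat_lit 10) 
(.lf (nat_lit 805806278) (dlOf (nat_lit 2) (nat_lit 0xf00b40001c04003c004004200081a0402))) 
(.lf (nat_lit 1881121990) (dlOf (nat_lit 3) (nat_lit 0x400e30000c010033071800000080010008000800200140008e22d03)))) 
(.nd (nat_lit 10) (.nd (nat_lit 26) 
(.lf (nat_lit 1342677446) (dlOf (nat_lit 4) (nat_lit 0x1202500009c0400dc1280004d0200080940001b8180c0900))) 
(.lf (nat_lit 470262214) (dlOf (nat_lit 4) (nat_lit 0x1202500009c0400dc1280004d0200080940001b8180c0900)))) 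
(.lf (nat_lit 3557012934) (dlOf (nat_lit 1) (nat_lit 0x100080028002000a0008129a83))))))) 
(.nd (nat_lit 21) (.nd (nat_lit 10) (.nd (nat_lit 18) (.nd (nat_lit 28) (.nd (nat_lit 29) 
(.lf (nat_lit 3288572486) (dlOf (nat_lit 2) (nat_lit 0x4401e00000018091100))) 
(.lf (nat_lit 1677959750) (dlOf (nat_lit 7) (nat_lit 0xa0144000480400680a2000404b000c01d00008c18001812c0004204005c0a2001203a000100200220288006812c00540740001e06002e051000901d000074100098008004800200120008128d03)))) 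
(.nd (nat_lit 26) (.lf (nat_lit 4026769990) (dlOf (nat_lit 2) (nat_lit 0x4401e00000018091100))) 
(.lf (nat_lit 1409524294) (dlOf (nat_lit 1) (nat_lit 0x20028018801))))) (.nd (nat_lit 26) 
(.lf (nat_lit 1342677574) (dlOf (nat_lit 6) (nat_lit 0x4a311b81ab0714000a208000c478003a1c50002782000411e00030714000980800f04780f682370001d02001311e0000d40800a00080018002001a00080c1103))) 
(.lf (nat_lit 470262342) (dlOf (nat_lit 6) (nat_lit 0x4a311b81ab0714000a208000c478003a1c50002782000411e00030714000980800f04780f682370001d02001311e0000d40800a00080018002001a00080c1103))))) 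
(.nd (nat_lit 7) (.nd (nat_lit 8) 
(.lf (nat_lit 1610851910) (dlOf (nat_lit 1) (nat_lit 0xa0028093801))) (.nd (nat_lit 11) 
(.lf (nat_lit 8632134) (dlOf (nat_lit 1) (nat_lit 0x2c000851a181))) 
(.lf (nat_lit 67874630) (dlOf (nat_lit 1) (nat_lit 0x20018337701))))) (.nd (nat_lit 11) 
(.lf (nat_lit 2885920710) (dlOf (nat_lit 1) (nat_lit 0xa0008144401))) 
(.lf (nat_lit 67874758) (dlOf (nat_lit 1) (nat_lit 0x3c002003c0008337a82)))))) (.nd (nat_lit 7) 
(.nd (nat_lit 11) (.nd (nat_lit 8) 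
(.lf (nat_lit 23306822) (dlOf (nat_lit 3) (nat_lit 0x7135f40389a5e01c49710001d03001069d8000e0080018008000400200020008b81103))) 
(.lf (nat_lit 3492783942) (dlOf (nat_lit 2) (nat_lit 0xb03d8000d80800200080010002000a00080f3e03)))) 
(.nd (nat_lit 20) (.lf (nat_lit 44542534) (dlOf (nat_lit 1) (nat_lit 0x6800200020009325202))) 
(.lf (nat_lit 41396806) (dlOf (nat_lit 2) (nat_lit 0x143f400025819245200))))) (.nd (nat_lit 8) 
(.nd (nat_lit 11) (.lf (nat_lit 20165318) (dlOf (nat_lit 1) (nat_lit 0x80080004002000200089d8c83))) 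
(.lf (nat_lit 19643078) (dlOf (nat_lit 1) (nat_lit 0x4002000200089db982)))) 
(.lf (nat_lit 19643334) (dlOf (nat_lit 1) (nat_lit 0x1080080090002001600089dbe03)))))))))))

end

end Pool.Agent.Lib.MP_5854e1_co.Cz
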