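import Pool.Agent.Lib.MP_5854e1_co.DecRow

/-!
# Sparse corrections
-/

set_option autoImplicit false
set_option maxRecDepth 100000

namespace Pool.Agent.Lib.MP_5854e1_co.Cz

noncomputable section

noncomputable def tz14 : DT := (.nd (nat_lit 17) (.nd (nat_lit 4) (.nd (nat_lit 5) (.nd (nat_lit 6) 
(.nd (nat_lit 18) (.nd (nat_lit 30) (.nd (nat_lit 19) (.nd (nat_lit 7) (.nd (nat_lit 12) 
(.nd (nat_lit 21) (.lf (nat_lit 26312708) (dlOf (nat_lit 1) (nat_lit 0x400400060018c30002))) 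
(.lf (nat_lit 24215556) (dlOf (nat_lit 1) (nat_lit 0x400400020008b90002)))) (.nd (nat_lit 23) 
(.lf (nat_lit 469864452) (dlOf (nat_lit 1) (nat_lit 0x400080030002000c0008007a83))) 
(.lf (nat_lit 8491012) (dlOf (nat_lit 1) (nat_lit 0x20008517a81))))) (.nd (nat_lit 8) 
(.nd (nat_lit 20) 
(.lf (nat_lit 805404804) (dlOf (nat_lit 2) (nat_lit 0x5a026002400d40005e080128004000e0008090102))) 
(.lf (nat_lit 3244164) (dlOf (nat_lit 1) (nat_lit 0x20018200101)))) 
(.lf (nat_lit 134323588) (dlOf (nat_lit 6) (nat_lit 0x1c0000067e0200e403b0027301006a01d8013940803c80ec009a8040180076004d3020002001800c901))))) 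
(.nd (nat_lit 21) (.nd (nat_lit 7) (.nd (nat_lit 20) 
(.lf (nat_lit 470384644) (dlOf (nat_lit 1) (nat_lit 0x4004000200080d0002))) 
(.lf (nat_lit 471433220) (dlOf (nat_lit 1) (nat_lit 0x200282f0001)))) 
(.lf (nat_lit 2753134980) (dlOf (nat_lit 2) (nat_lit 0x15c1f90074b018090780)))) (.nd (nat_lit 7) 
(.nd (nat_lit 8) 
(.lf (nat_lit 2755231748) (dlOf (nat_lit 2) (nat_lit 0x280b400bfe04002400400220018130002))) 
(.lf (nat_lit 20545796) (dlOf (nat_lit 1) (nat_lit 0x4002000200089d0a82)))) 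
(.lf (nat_lit 1009352836) (dlOf (nat_lit 1) (nat_lit 0x2c00400020009110e02)))))) (.nd (nat_lit 28) 
(.nd (nat_lit 7) (.nd (nat_lit 8) (.nd (nat_lit 27) 
(.lf (nat_lit 5368807428) (dlOf (nat_lit 1) (nat_lit 0x400400020008020002))) 
(.lf (nat_lit 5503025156) (dlOf (nat_lit 1) (nat_lit 0x400400020008020002)))) 
(.lf (nat_lit 3422650628) (dlOf (nat_lit 1) (nat_lit 0x80028014801)))) (.nd (nat_lit 9) 
(.nd (nat_lit 10) 
(.lf (nat_lit 1677820036) (dlOf (nat_lit 2) (nat_lit 0x5a026002400d40005e080128004000e0008090102))) 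
(.lf (nat_lit 3825306756) (dlOf (nat_lit 1) (nat_lit 0x400400040008146102)))) 
(.lf (nat_lit 1208060548) (dlOf (nat_lit 1) (nat_lit 0x400200020008095482))))) (.nd (nat_lit 20) 
(.nd (nat_lit 7) (.nd (nat_lit 9) 
(.lf (nat_lit 1342799876) (dlOf (nat_lit 1) (nat_lit 0x4004000200080d0002))) 
(.lf (nat_lit 3491856900) (dlOf (nat_lit 1) (nat_lit 0xc8004015c0008090d82)))) 
(.lf (nat_lit 6375964804) (dlOf (nat_lit 1) (nat_lit 0x18008002c00200100008030e03)))) 
(.nd (nat_lit 21) (.lf (nat_lit 3491332100) (dlOf (nat_lit 1) (nat_lit 0x1a0018090001))) 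
(.lf (nat_lit 3493429252) (dlOf (nat_lit 2) (nat_lit 0x280b40172404002400400220018130002))))))) 
(.nd (nat_lit 26) (.nd (nat_lit 19) (.nd (nat_lit 30) (.nd (nat_lit 10) (.nd (nat_lit 21) 
(.nd (nat_lit 27) 
(.lf (nat_lit 6442811396) (dlOf (nat_lit 1) (nat_lit 0x880080004002000200081c0003))) 
(.lf (nat_lit 671449092) (dlOf (nat_lit 1) (nat_lit 0x600281a0001)))) 
(.lf (nat_lit 2457604) (dlOf (nat_lit 2) (nat_lit 0x269000182604001400400160008160002)))) 
(.lf (nat_lit 47547396) (dlOf (nat_lit 1) (nat_lit 0xc00200020009402882)))) (.nd (nat_lit 31) 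
(.nd (nat_lit 7) (.lf (nat_lit 1610973188) (dlOf (nat_lit 1) (nat_lit 0x4004000200180b0002))) 
(.lf (nat_lit 1074102404) (dlOf (nat_lit 4) (nat_lit 0x400c000230100270000000f40800600980002604015800200180008090102)))) 
(.nd (nat_lit 27) 
(.lf (nat_lit 3221585924) (dlOf (nat_lit 3) (nat_lit 0x6046000280100010230001000800d00080098002008c0008150003))) 
(.lf (nat_lit 3355803652) (dlOf (nat_lit 1) (nat_lit 0x20028120001)))))) (.nd (nat_lit 10) 
(.nd (nat_lit 20) (.lf (nat_lit 15564804) (dlOf (nat_lit 1) (nat_lit 0x220018800001))) 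
(.nd (nat_lit 22) 
(.lf (nat_lit 10321924) (dlOf (nat_lit 1) (nat_lit 0x78008003c002001800085d0003))) 
(.lf (nat_lit 14516228) (dlOf (nat_lit 1) (nat_lit 0x90008002000200140008760003))))) 
(.nd (nat_lit 23) 
(.lf (nat_lit 54365188) (dlOf (nat_lit 1) (nat_lit 0x10008000400200020009655f83))) 
(.lf (nat_lit 45976580) (dlOf (nat_lit 1) (nat_lit 0x20019385f81)))))) (.nd (nat_lit 30) 
(.nd (nat_lit 28) (.nd (nat_lit 9) 
(.lf (nat_lit 738557956) (dlOf (nat_lit 1) (nat_lit 0x4004000200180b0002))) (.nd (nat_lit 20) 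
(.lf (nat_lit 2349174276) (dlOf (nat_lit 1) (nat_lit 0x4004000200080f7002))) 
(.lf (nat_lit 2754973188) (dlOf (nat_lit 1) (nat_lit 0x4004000200080f7002))))) (.nd (nat_lit 20) 
(.nd (nat_lit 22) 
(.lf (nat_lit 3154477060) (dlOf (nat_lit 4) (nat_lit 0x281680140028008890400de060000d00a001ff410026019000fe0040028004000a00081a0002))) 
(.lf (nat_lit 474316804) (dlOf (nat_lit 1) (nat_lit 0x20008000800200040009140003)))) 
(.lf (nat_lit 471171076) (dlOf (nat_lit 6) (nat_lit 0x704e802f823800a3208001013a011e08e0026c020004047001348080008238009940400b411c003f902008200182a0001))))) 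
(.nd (nat_lit 7) (.nd (nat_lit 29) (.nd (nat_lit 32) 
(.lf (nat_lit 1543864324) (dlOf (nat_lit 1) (nat_lit 0x600281a0001))) 
(.lf (nat_lit 5838831620) (dlOf (nat_lit 1) (nat_lit 0x880080004002000200081c0003)))) 
(.nd (nat_lit 19) 
(.lf (nat_lit 3959783428) (dlOf (nat_lit 3) (nat_lit 0x2046000280100030230001000800d00080098002008c0008150003))) 
(.lf (nat_lit 4096622596) (dlOf (nat_lit 2) (nat_lit 0x3a0d000000018140000))))) (.nd (nat_lit 27) 
(.lf (nat_lit 1946517636) (dlOf (nat_lit 4) (nat_lit 0x400c000230100270000000f40800600980002604015800200180008090102))) 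
(.lf (nat_lit 2080735364) (dlOf (nat_lit 2) (nat_lit 0x701800008c0800200080010002000400080c0e03)))))))) 
(.nd (nat_lit 20) (.nd (nat_lit 27) (.nd (nat_lit 28) (.nd (nat_lit 21) (.nd (nat_lit 24) 
(.nd (nat_lit 19) 
(.lf (nat_lit 5972787268) (dlOf (nat_lit 17) (nat_lit 0x358000000480404300000002202019800d0000e810033006800070080a080000003004051401a00240000000b82003b006800058080a480340564000000150402d800d01440000000441000f80000002004002c01a0000e0201b600d00006810002006800030080090034000140405080000000902015a00d0110000000020100038008001c002001800080d0d03))) 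
(.lf (nat_lit 3221848132) (dlOf (nat_lit 1) (nat_lit 0xc00281a1401)))) (.nd (nat_lit 8) 
(.lf (nat_lit 16875588) (dlOf (nat_lit 1) (nat_lit 0x80080114002000200088e0003))) 
(.lf (nat_lit 50693444) (dlOf (nat_lit 1) (nat_lit 0x4002000200094c3302))))) (.nd (nat_lit 9) 
(.nd (nat_lit 18) 
(.lf (nat_lit 2754183236) (dlOf (nat_lit 3) (nat_lit 0x743f2000550200d01f900ce09b0001501001e00080058002001200080c1883))) 
(.lf (nat_lit 2753921092) (dlOf (nat_lit 1) (nat_lit 0x1080080004002001000080a0d03)))) 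
(.nd (nat_lit 11) (.lf (nat_lit 23429700) (dlOf (nat_lit 1) (nat_lit 0x400200020008b81102))) 
(.lf (nat_lit 69306948) (dlOf (nat_lit 3) (nat_lit 0x82da0012118000100000017c180020000000ba04006800400220008905202)))))) 
(.nd (nat_lit 18) (.nd (nat_lit 8) (.nd (nat_lit 21) 
(.lf (nat_lit 1342799940) (dlOf (nat_lit 1) (nat_lit 0x100080048002001000080d0e03))) 
(.lf (nat_lit 1881768004) (dlOf (nat_lit 1) (nat_lit 0x20029000601)))) (.nd (nat_lit 7) 
(.lf (nat_lit 335642948) (dlOf (nat_lit 2) (nat_lit 0x301300070000000580800bc00200100008090c02))) 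
(.lf (nat_lit 5637245892) (dlOf (nat_lit 8) (nat_lit 0x20050001581000100a8009804c003c00a0002a060028013000f0028000a41000080140000c04000400a0000302001a0050000101000b00980020014000000800d0004001a0008055d82))))) 
(.nd (nat_lit 29) (.nd (nat_lit 30) 
(.lf (nat_lit 4563763268) (dlOf (nat_lit 3) (nat_lit 0x4805200089020040029000410180d0480))) 
(.lf (nat_lit 5637505092) (dlOf (nat_lit 1) (nat_lit 0x3400400040018100482)))) 
(.lf (nat_lit 4026892356) (dlOf (nat_lit 1) (nat_lit 0x80080004002000200080c1883)))))) 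
(.nd (nat_lit 28) (.nd (nat_lit 8) (.nd (nat_lit 19) (.nd (nat_lit 7) 
(.lf (nat_lit 6576767044) (dlOf (nat_lit 17) (nat_lit 0x358000000480404300000002202019800d0000e810033006800070080a080000003004051401a00240000000b82003b006800058080a480340564000000150402d800d01440000000441000f80000002004002c01a0000e0201b600d00006810002006800030080090034000140405080000000902015a00d0110000000020100038008001c002001800080d0d03))) 
(.lf (nat_lit 1208320196) (dlOf (nat_lit 1) (nat_lit 0xc004000200080c1b82)))) (.nd (nat_lit 26) 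
(.lf (nat_lit 3892936772) (dlOf (nat_lit 2) (nat_lit 0xaa02c0000b0182a0e80))) 
(.lf (nat_lit 3960045636) (dlOf (nat_lit 1) (nat_lit 0x2100080094002002a00081a1883))))) 
(.nd (nat_lit 7) (.nd (nat_lit 9) 
(.lf (nat_lit 2818671940) (dlOf (nat_lit 2) (nat_lit 0x330000000300800180080058002000e00080d3303))) 
(.lf (nat_lit 3355546436) (dlOf (nat_lit 1) (nat_lit 0x400280a8f81)))) 
(.lf (nat_lit 201426884) (dlOf (nat_lit 1) (nat_lit 0x8008006400200140008004403))))) 
(.nd (nat_lit 18) (.nd (nat_lit 7) (.nd (nat_lit 8) 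
(.lf (nat_lit 470384708) (dlOf (nat_lit 1) (nat_lit 0x88004004c00080d0d02))) 
(.lf (nat_lit 939624260) (dlOf (nat_lit 1) (nat_lit 0x60018143e01)))) 
(.lf (nat_lit 3154739396) (dlOf (nat_lit 1) (nat_lit 0xe80018310481)))) (.nd (nat_lit 26) 
(.nd (nat_lit 29) (.lf (nat_lit 4697980996) (dlOf (nat_lit 2) (nat_lit 0xca029000470180d0480))) 
(.lf (nat_lit 5234851908) (dlOf (nat_lit 2) (nat_lit 0x18019001a00a8001f8100060008001400200040008100483)))) 
(.nd (nat_lit 21) 
(.lf (nat_lit 3154477124) (dlOf (nat_lit 3) (nat_lit 0x100158000600800380ac00004040004004000200081a0582))) 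
(.lf (nat_lit 1009090628) (dlOf (nat_lit 1) (nat_lit 0x400200020009070d82)))))))) (.nd (nat_lit 9) 
(.nd (nat_lit 18) (.nd (nat_lit 19) (.nd (nat_lit 7) 
(.lf (nat_lit 3244356) (dlOf (nat_lit 2) (nat_lit 0x1a2bc8000e8080090008008000200180008200603))) 
(.nd (nat_lit 8) 
(.lf (nat_lit 36799684) (dlOf (nat_lit 2) (nat_lit 0x20bc600065d5800aa65c0005c0c008400400020019072d02))) 
(.lf (nat_lit 11633092) (dlOf (nat_lit 2) (nat_lit 0xa519000100186c0900))))) (.nd (nat_lit 7) 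
(.lf (nat_lit 3768388) (dlOf (nat_lit 2) (nat_lit 0x2c95400063e800006028220d00))) (.nd (nat_lit 26) 
(.lf (nat_lit 3491332548) (dlOf (nat_lit 18) (nat_lit 0x38c4680002d0204602340001381023e11a0000980809308d00004a0407d4468000240202aa234000118101ad11a0000880806288d0000420400803f600521ef00580f38080879802083c8000e1e2002e0ef803b073400982ca00ea15a01200aa006b854800cc29a00c413a009609a8000807800e87ec01a03cc000c1e4001f0f10014877c000839a002016500550aa00260548005c29a00b213a005909a80007c60034079801582a80001e04016e2340000a81002c11a00004c0808988d000024040270468000110200ec2340000801005b11a00558798000439a0154154008009d0000002801b00080c3c00200260008090903))) 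
(.lf (nat_lit 2753135044) (dlOf (nat_lit 18) (nat_lit 0x38c4980002d02046024c0001381023e1260000980809309300004a0407d4498000240202aa24c000118101ad12600008808062893000042040080420000e2040029100802c07e404043f001041f6002e0fa003b078800982d200ea15f01200ac806b855c00cc29a00c413a009609a8000807800e8840007c40800d01f800060fb001487d000083c4002016900550ac8026055c005c29a00b213a005909a80007c6003407e001582b20001e04016e24c0000a81002c12600004c08089893000024040270498000110200ec24c0000801005b126005587e000043c40154159008009d0000002801b00080c3c00200260008090903)))))) 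
(.nd (nat_lit 19) (.nd (nat_lit 21) 
(.lf (nat_lit 55935044) (dlOf (nat_lit 1) (nat_lit 0x280080008002000600096f0603))) 
(.nd (nat_lit 22) (.lf (nat_lit 37060676) (dlOf (nat_lit 1) (nat_lit 0xaa0009090601))) 
(.lf (nat_lit 24477764) (dlOf (nat_lit 1) (nat_lit 0x400400020008ba0d02))))) (.nd (nat_lit 7) 
(.nd (nat_lit 8) (.lf (nat_lit 1346207812) (dlOf (nat_lit 2) (nat_lit 0x4415d0005f018e60600))) 
(.lf (nat_lit 8227140) (dlOf (nat_lit 1) (nat_lit 0x20018514d01)))) 
(.lf (nat_lit 20807876) (dlOf (nat_lit 1) (nat_lit 0x80080008002000200089e3903)))))) 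
(.nd (nat_lit 11) (.nd (nat_lit 19) (.nd (nat_lit 7) 
(.lf (nat_lit 11633220) (dlOf (nat_lit 1) (nat_lit 0x4002000200086c1102))) 
(.lf (nat_lit 20026052) (dlOf (nat_lit 1) (nat_lit 0x80080004002000200089d8c83)))) 
(.nd (nat_lit 26) (.lf (nat_lit 3491332676) (dlOf (nat_lit 2) (nat_lit 0x223400012018091100))) 
(.lf (nat_lit 2753135172) (dlOf (nat_lit 2) (nat_lit 0x224c00012018091100))))) (.nd (nat_lit 7) 
(.nd (nat_lit 25) (.nd (nat_lit 8) 
(.lf (nat_lit 473270852) (dlOf (nat_lit 1) (nat_lit 0x60028e35201))) 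
(.lf (nat_lit 20024132) (dlOf (nat_lit 1) (nat_lit 0xe00289d5c01)))) (.nd (nat_lit 19) 
(.lf (nat_lit 45451844) (dlOf (nat_lit 9) (nat_lit 0x2ba940021c62005ecea0002f8300037528001b8c400c99d4001acb60002e840005752800238c4000b2080011dbe000aea5000471880015c18000ba9400cd9d40005204000aea500047188014b3a8000960c000dd4a0004e3100019820018752800db8c40006008000400400700019325202))) 
(.lf (nat_lit 35490372) (dlOf (nat_lit 1) (nat_lit 0x400200020009015202))))) (.nd (nat_lit 10) 
(.lf (nat_lit 1345686212) (dlOf (nat_lit 1) (nat_lit 0x1a60028dd5801))) 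
(.lf (nat_lit 20025028) (dlOf (nat_lit 1) (nat_lit 0x2b800802ac002011000089d7283))))))))) 
(.nd (nat_lit 18) (.nd (nat_lit 6) (.nd (nat_lit 19) (.nd (nat_lit 8) (.nd (nat_lit 10) 
(.nd (nat_lit 20) (.nd (nat_lit 7) 
(.lf (nat_lit 4563501092) (dlOf (nat_lit 1) (nat_lit 0x1d800400500008090002))) 
(.lf (nat_lit 8491684) (dlOf (nat_lit 1) (nat_lit 0x400200020008518c82)))) (.nd (nat_lit 21) 
(.lf (nat_lit 17924132) (dlOf (nat_lit 1) (nat_lit 0x40018900a81))) 
(.lf (nat_lit 28409892) (dlOf (nat_lit 1) (nat_lit 0x240028d90681))))) (.nd (nat_lit 9) 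
(.nd (nat_lit 11) 
(.lf (nat_lit 2617349284) (dlOf (nat_lit 1) (nat_lit 0x300080058002000a00080a9503))) 
(.lf (nat_lit 3825306788) (dlOf (nat_lit 1) (nat_lit 0x20008146281)))) (.nd (nat_lit 20) 
(.lf (nat_lit 1342281380) (dlOf (nat_lit 1) (nat_lit 0xa002800a001))) 
(.lf (nat_lit 20027044) (dlOf (nat_lit 1) (nat_lit 0x80080004002000200089da003)))))) 
(.nd (nat_lit 7) (.nd (nat_lit 10) (.nd (nat_lit 11) 
(.lf (nat_lit 2617344804) (dlOf (nat_lit 2) (nat_lit 0x40128001803c00068080008004000400080a2182))) 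
(.lf (nat_lit 5637245732) (dlOf (nat_lit 1) (nat_lit 0x1c00400120008055c02)))) 
(.lf (nat_lit 2751563556) (dlOf (nat_lit 1) (nat_lit 0x400400040008003d02)))) (.nd (nat_lit 28) 
(.nd (nat_lit 11) 
(.lf (nat_lit 3355542436) (dlOf (nat_lit 2) (nat_lit 0x40128001803c00068080008004000400080a2602))) 
(.lf (nat_lit 20024228) (dlOf (nat_lit 1) (nat_lit 0xc004000e00189d5c82)))) (.nd (nat_lit 9) 
(.lf (nat_lit 3556870564) (dlOf (nat_lit 1) (nat_lit 0x2400280d4e81))) 
(.lf (nat_lit 4563504036) (dlOf (nat_lit 1) (nat_lit 0x20028095c81))))))) (.nd (nat_lit 21) 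
(.nd (nat_lit 20) (.nd (nat_lit 26) (.nd (nat_lit 9) (.nd (nat_lit 22) 
(.lf (nat_lit 805928996) (dlOf (nat_lit 2) (nat_lit 0x500b8000bc0800700080004002002c00081f0b83))) 
(.lf (nat_lit 4816932) (dlOf (nat_lit 1) (nat_lit 0x200282c0701)))) 
(.lf (nat_lit 50954788) (dlOf (nat_lit 2) (nat_lit 0x4131800000040038004001e00094d8782)))) 
(.nd (nat_lit 28) 
(.lf (nat_lit 1678344228) (dlOf (nat_lit 2) (nat_lit 0x500b8000bc0800700080004002002c00081f0b83))) 
(.lf (nat_lit 3557392420) (dlOf (nat_lit 1) (nat_lit 0xe800281e0681))))) (.nd (nat_lit 7) 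
(.nd (nat_lit 26) (.lf (nat_lit 1671204) (dlOf (nat_lit 1) (nat_lit 0x18008000400200020008110583))) 
(.lf (nat_lit 471433252) (dlOf (nat_lit 5) (nat_lit 0x50ad0002851c004780800182b4000c147001198200060ad0003051c004620800182b4000a147001178282f0d80)))) 
(.nd (nat_lit 26) 
(.lf (nat_lit 3491332260) (dlOf (nat_lit 4) (nat_lit 0x35879c002460400043ce001210200881e700090018090200))) 
(.lf (nat_lit 2753134756) (dlOf (nat_lit 4) (nat_lit 0x3587e4002640400043f2001300200881f900097818090200)))))) 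
(.nd (nat_lit 8) (.nd (nat_lit 31) (.nd (nat_lit 23) 
(.lf (nat_lit 2719780) (dlOf (nat_lit 1) (nat_lit 0x1c00281a0b81))) 
(.lf (nat_lit 11108388) (dlOf (nat_lit 3) (nat_lit 0xb0000000fc0800d80000006804001000200060008660502)))) 
(.nd (nat_lit 26) (.lf (nat_lit 3492380708) (dlOf (nat_lit 2) (nat_lit 0x19c153000b38180c0b00))) 
(.lf (nat_lit 2754183204) (dlOf (nat_lit 2) (nat_lit 0x19c1580006a8180c0b00))))) (.nd (nat_lit 10) 
(.lf (nat_lit 23691556) (dlOf (nat_lit 1) (nat_lit 0x400200020008b80502))) 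
(.lf (nat_lit 7970084) (dlOf (nat_lit 1) (nat_lit 0x38002851c601))))))) (.nd (nat_lit 7) 
(.nd (nat_lit 28) (.nd (nat_lit 8) (.nd (nat_lit 11) 
(.lf (nat_lit 47284324) (dlOf (nat_lit 2) (nat_lit 0x117880006ba900025c8801cf81800280080044002003000093c0783))) 
(.lf (nat_lit 628836) (dlOf (nat_lit 1) (nat_lit 0x2002800a801)))) (.nd (nat_lit 10) 
(.nd (nat_lit 11) 
(.lf (nat_lit 2195812) (dlOf (nat_lit 6) (nat_lit 0x1f80000000d008152a91c092946a03ca993001000000005420148a91c07453260001404054ca470000901004552380000c0806000080b8400205ea0008150703))) 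
(.lf (nat_lit 57248100) (dlOf (nat_lit 1) (nat_lit 0x40008001800200160009794e83)))) 
(.nd (nat_lit 9) (.lf (nat_lit 3892413796) (dlOf (nat_lit 1) (nat_lit 0x20008103481))) 
(.lf (nat_lit 6442551140) (dlOf (nat_lit 1) (nat_lit 0xc00280f4001)))))) (.nd (nat_lit 26) 
(.nd (nat_lit 8) (.lf (nat_lit 1342799972) (dlOf (nat_lit 1) (nat_lit 0x4004000200080d1382))) 
(.nd (nat_lit 10) 
(.lf (nat_lit 3493953892) (dlOf (nat_lit 4) (nat_lit 0x8858000442a0004214000910400010800000681400184100003202000a216000210a8002085000104000001f08002000281b0701))) 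
(.lf (nat_lit 3489766756) (dlOf (nat_lit 1) (nat_lit 0x200020008000800c902))))) (.nd (nat_lit 9) 
(.nd (nat_lit 10) (.lf (nat_lit 335642980) (dlOf (nat_lit 1) (nat_lit 0xc00400020008090e82))) 
(.lf (nat_lit 3019998564) (dlOf (nat_lit 1) (nat_lit 0x200080d3481)))) 
(.lf (nat_lit 2617348964) (dlOf (nat_lit 1) (nat_lit 0x2400280a8f81)))))) (.nd (nat_lit 9) 
(.nd (nat_lit 11) (.nd (nat_lit 8) (.nd (nat_lit 27) 
(.lf (nat_lit 5435916516) (dlOf (nat_lit 1) (nat_lit 0x140008031b01))) 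
(.lf (nat_lit 2885779684) (dlOf (nat_lit 1) (nat_lit 0xc00028066881)))) 
(.lf (nat_lit 43090404) (dlOf (nat_lit 1) (nat_lit 0x400292a1301)))) (.nd (nat_lit 27) 
(.nd (nat_lit 8) (.lf (nat_lit 1073842404) (dlOf (nat_lit 1) (nat_lit 0xc0008004b01))) 
(.lf (nat_lit 49908196) (dlOf (nat_lit 1) (nat_lit 0x8008000c002000200094c4e83)))) 
(.nd (nat_lit 26) (.lf (nat_lit 3087108324) (dlOf (nat_lit 1) (nat_lit 0x20028144b01))) 
(.lf (nat_lit 201427172) (dlOf (nat_lit 1) (nat_lit 0x13c0008004b01)))))) (.nd (nat_lit 8) 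
(.nd (nat_lit 10) 
(.lf (nat_lit 3556870884) (dlOf (nat_lit 2) (nat_lit 0x1001000280000003e04002e00180d5981))) 
(.nd (nat_lit 31) (.lf (nat_lit 100068) (dlOf (nat_lit 1) (nat_lit 0x20028003a81))) 
(.lf (nat_lit 6442551012) (dlOf (nat_lit 1) (nat_lit 0x80080004002000200080f3a83))))) 
(.nd (nat_lit 19) (.lf (nat_lit 4697719780) (dlOf (nat_lit 1) (nat_lit 0x1a0008092881))) 
(.lf (nat_lit 49906660) (dlOf (nat_lit 1) (nat_lit 0x4004000200194c2882)))))))) (.nd (nat_lit 28) 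
(.nd (nat_lit 21) (.nd (nat_lit 27) (.nd (nat_lit 23) (.nd (nat_lit 29) (.nd (nat_lit 19) 
(.nd (nat_lit 25) (.nd (nat_lit 26) 
(.lf (nat_lit 3221585956) (dlOf (nat_lit 4) (nat_lit 0xe04e000301a800080480001a0c001809c000a04d000030200010270000100800c00080228002019e0008150703))) 
(.lf (nat_lit 4362436644) (dlOf (nat_lit 1) (nat_lit 0x40028080801)))) 
(.lf (nat_lit 33914916) (dlOf (nat_lit 2) (nat_lit 0x4cb9f0022daec0003008000400200020008f80702)))) 
(.lf (nat_lit 22904868) (dlOf (nat_lit 1) (nat_lit 0x2c0008b40501)))) (.nd (nat_lit 6) 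
(.lf (nat_lit 537231396) (dlOf (nat_lit 5) (nat_lit 0x303300014c08006019800100920034000000290300060000001400800a0000000680401e0002004c0008060582))) 
(.lf (nat_lit 4832198756) (dlOf (nat_lit 1) (nat_lit 0x400400020008110782))))) (.nd (nat_lit 6) 
(.nd (nat_lit 9) (.lf (nat_lit 12943396) (dlOf (nat_lit 1) (nat_lit 0x200086f0781))) 
(.lf (nat_lit 8754724) (dlOf (nat_lit 1) (nat_lit 0xc00400020008519c02)))) (.nd (nat_lit 7) 
(.lf (nat_lit 8750692) (dlOf (nat_lit 1) (nat_lit 0x20018513901))) 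
(.lf (nat_lit 8751332) (dlOf (nat_lit 1) (nat_lit 0x20028514b01)))))) (.nd (nat_lit 7) 
(.nd (nat_lit 26) 
(.lf (nat_lit 134578212) (dlOf (nat_lit 3) (nat_lit 0x2180620002802003a0310000c018080900))) 
(.nd (nat_lit 29) 
(.lf (nat_lit 201687076) (dlOf (nat_lit 2) (nat_lit 0x58062000180200060028080801))) 
(.lf (nat_lit 3959783460) (dlOf (nat_lit 4) (nat_lit 0xe04e000301a80008048000420c001809c000a04d0000d0200010270000600800c00080228002019e0008150703))))) 
(.nd (nat_lit 9) 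
(.lf (nat_lit 1208320164) (dlOf (nat_lit 1) (nat_lit 0x80080008002000200080c1483))) 
(.lf (nat_lit 2349174436) (dlOf (nat_lit 1) (nat_lit 0x2200180f7201)))))) (.nd (nat_lit 7) 
(.nd (nat_lit 19) (.nd (nat_lit 20) (.nd (nat_lit 22) 
(.lf (nat_lit 2753921060) (dlOf (nat_lit 1) (nat_lit 0x4004000200180a0902))) 
(.lf (nat_lit 6651940) (dlOf (nat_lit 1) (nat_lit 0x8008000800200020008440a83)))) 
(.lf (nat_lit 24477732) (dlOf (nat_lit 1) (nat_lit 0x51000201440008ba0a02)))) (.nd (nat_lit 9) 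
(.nd (nat_lit 22) (.lf (nat_lit 28147748) (dlOf (nat_lit 1) (nat_lit 0x340008d60601))) 
(.lf (nat_lit 15564836) (dlOf (nat_lit 1) (nat_lit 0xe0018800681)))) (.nd (nat_lit 6) 
(.lf (nat_lit 12419620) (dlOf (nat_lit 11) (nat_lit 0x3375400017020015baa0000b01000cdd50000eca40001c08001b7540000d020013baa00006010001dd500002c080096ea8001f74c0011b2900003030005d94800014080066ea80000804001b7540000002000400186c0e01))) 
(.lf (nat_lit 19762020) (dlOf (nat_lit 1) (nat_lit 0x200189d5c01)))))) (.nd (nat_lit 10) 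
(.nd (nat_lit 8) (.nd (nat_lit 19) 
(.lf (nat_lit 20288164) (dlOf (nat_lit 1) (nat_lit 0x4002000200089d8c82))) 
(.lf (nat_lit 8229540) (dlOf (nat_lit 1) (nat_lit 0x20018518c81)))) (.nd (nat_lit 9) 
(.lf (nat_lit 36538788) (dlOf (nat_lit 1) (nat_lit 0x20019074e81))) 
(.lf (nat_lit 54365092) (dlOf (nat_lit 1) (nat_lit 0x108004003a0009655c82))))) (.nd (nat_lit 6) 
(.nd (nat_lit 11) (.lf (nat_lit 20289188) (dlOf (nat_lit 1) (nat_lit 0x80080004002000200089da003))) 
(.lf (nat_lit 2754973348) (dlOf (nat_lit 1) (nat_lit 0x3c002001000080f7202)))) 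
(.lf (nat_lit 61703396) (dlOf (nat_lit 1) (nat_lit 0x60019922e01))))))) (.nd (nat_lit 27) 
(.nd (nat_lit 29) (.nd (nat_lit 21) (.nd (nat_lit 26) (.nd (nat_lit 30) 
(.lf (nat_lit 4563763236) (dlOf (nat_lit 1) (nat_lit 0x280080024002002c00080d0203))) 
(.lf (nat_lit 1342537764) (dlOf (nat_lit 2) (nat_lit 0x41a30000e018050c80)))) (.nd (nat_lit 6) 
(.lf (nat_lit 1409646628) (dlOf (nat_lit 5) (nat_lit 0x303300014c08006019800100900034000000290300060000001400800a0000000680401e0002004c0008060582))) 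
(.lf (nat_lit 4630873444) (dlOf (nat_lit 1) (nat_lit 0x80028123481))))) (.nd (nat_lit 6) 
(.nd (nat_lit 19) (.lf (nat_lit 3492118564) (dlOf (nat_lit 1) (nat_lit 0x4004000200180a0902))) 
(.lf (nat_lit 1346207780) (dlOf (nat_lit 2) (nat_lit 0x9a096001e0418000a4100150008002000200160008e60203)))) 
(.lf (nat_lit 1346207844) (dlOf (nat_lit 5) (nat_lit 0x4f81b200ea0d80000702009b06c8000300809f036401d41b00000a04027c0d900000018e60980))))) 
(.nd (nat_lit 26) (.nd (nat_lit 6) (.nd (nat_lit 7) 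
(.lf (nat_lit 1879408676) (dlOf (nat_lit 1) (nat_lit 0x420028130901))) 
(.lf (nat_lit 1879937700) (dlOf (nat_lit 1) (nat_lit 0x8002000200083d8c82)))) 
(.lf (nat_lit 5100634212) (dlOf (nat_lit 1) (nat_lit 0x400400020008110782)))) (.nd (nat_lit 6) 
(.nd (nat_lit 19) 
(.lf (nat_lit 3020259364) (dlOf (nat_lit 1) (nat_lit 0x8008003c002000400081d0683))) 
(.lf (nat_lit 4096622628) (dlOf (nat_lit 2) (nat_lit 0x3d41f601a805800070278031010c036406a01e202900017868140b80)))) 
(.lf (nat_lit 4096099940) (dlOf (nat_lit 1) (nat_lit 0x18004000400080e3902)))))) (.nd (nat_lit 6) 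
(.nd (nat_lit 29) (.nd (nat_lit 20) (.nd (nat_lit 26) 
(.lf (nat_lit 4697980964) (dlOf (nat_lit 1) (nat_lit 0x280080024002002c00080d0203))) 
(.nd (nat_lit 31) (.lf (nat_lit 470122532) (dlOf (nat_lit 2) (nat_lit 0x41b30000e018050c80))) 
(.lf (nat_lit 2617606180) (dlOf (nat_lit 2) (nat_lit 0x1602b00030818100500))))) 
(.lf (nat_lit 471171108) (dlOf (nat_lit 1) (nat_lit 0x14002006600082a0602)))) (.nd (nat_lit 7) 
(.lf (nat_lit 1006993444) (dlOf (nat_lit 1) (nat_lit 0x420028130901))) 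
(.lf (nat_lit 1007522468) (dlOf (nat_lit 1) (nat_lit 0x14002000200083d8c82))))) (.nd (nat_lit 7) 
(.nd (nat_lit 8) (.lf (nat_lit 5838831716) (dlOf (nat_lit 1) (nat_lit 0x200181c1381))) 
(.lf (nat_lit 470647140) (dlOf (nat_lit 1) (nat_lit 0x20008000400200020008150983)))) 
(.nd (nat_lit 26) (.nd (nat_lit 10) 
(.lf (nat_lit 5773295844) (dlOf (nat_lit 1) (nat_lit 0x4004000200080c1b02))) 
(.lf (nat_lit 5772248292) (dlOf (nat_lit 2) (nat_lit 0x1301c8000000800780080100002000c0008092e03)))) 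
(.nd (nat_lit 8) 
(.lf (nat_lit 2080735460) (dlOf (nat_lit 1) (nat_lit 0x100080008002000400080c1b03))) 
(.lf (nat_lit 6376229348) (dlOf (nat_lit 1) (nat_lit 0x400400020008094e82))))))))))) 
(.nd (nat_lit 5) (.nd (nat_lit 18) (.nd (nat_lit 28) (.nd (nat_lit 6) (.nd (nat_lit 7) 
(.nd (nat_lit 27) (.nd (nat_lit 20) (.nd (nat_lit 19) (.nd (nat_lit 11) (.nd (nat_lit 22) 
(.lf (nat_lit 3221323796) (dlOf (nat_lit 1) (nat_lit 0x400200020008090002))) 
(.lf (nat_lit 12681236) (dlOf (nat_lit 1) (nat_lit 0x4c0008011000201ce00086d0703)))) 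
(.lf (nat_lit 6442555412) (dlOf (nat_lit 1) (nat_lit 0x80080010002000200080fa603)))) 
(.nd (nat_lit 9) (.lf (nat_lit 19496980) (dlOf (nat_lit 1) (nat_lit 0x28004001e00089b0482))) 
(.lf (nat_lit 50954772) (dlOf (nat_lit 3) (nat_lit 0x12580013a40800292c0009b00400dc004004600194d8702))))) 
(.nd (nat_lit 21) (.nd (nat_lit 22) (.nd (nat_lit 23) 
(.lf (nat_lit 68255764) (dlOf (nat_lit 1) (nat_lit 0x4002000200084c0302))) 
(.lf (nat_lit 43089940) (dlOf (nat_lit 2) (nat_lit 0xf331003334080018008000c002000200092a0003)))) 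
(.lf (nat_lit 13729812) (dlOf (nat_lit 2) (nat_lit 0xf841600023018740180)))) 
(.lf (nat_lit 28409876) (dlOf (nat_lit 1) (nat_lit 0x2e0008d90381))))) (.nd (nat_lit 8) 
(.nd (nat_lit 9) 
(.lf (nat_lit 3892936724) (dlOf (nat_lit 5) (nat_lit 0xa00b0000c00e0086b04000402c00030038021a41000d00b0010940400900580006007004218282a0a00))) 
(.nd (nat_lit 10) (.lf (nat_lit 201431572) (dlOf (nat_lit 1) (nat_lit 0x2c0040114001800b282))) 
(.lf (nat_lit 3355547156) (dlOf (nat_lit 1) (nat_lit 0x300080058002000a00080a9c03))))) 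
(.nd (nat_lit 10) 
(.lf (nat_lit 3422650644) (dlOf (nat_lit 2) (nat_lit 0x280ec0007204002c00200080008014a02))) 
(.lf (nat_lit 134319380) (dlOf (nat_lit 1) (nat_lit 0x20008003400200040008006703)))))) 
(.nd (nat_lit 8) (.nd (nat_lit 21) (.nd (nat_lit 27) 
(.lf (nat_lit 1677820052) (dlOf (nat_lit 1) (nat_lit 0x400400020008090182))) 
(.lf (nat_lit 2885779604) (dlOf (nat_lit 1) (nat_lit 0x40008064001)))) (.nd (nat_lit 10) 
(.lf (nat_lit 2195604) (dlOf (nat_lit 1) (nat_lit 0x10008001400200020008150183))) 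
(.lf (nat_lit 61441172) (dlOf (nat_lit 1) (nat_lit 0x20019922b81))))) (.nd (nat_lit 9) 
(.nd (nat_lit 10) (.lf (nat_lit 59869588) (dlOf (nat_lit 1) (nat_lit 0x20029844e81))) 
(.lf (nat_lit 43615636) (dlOf (nat_lit 1) (nat_lit 0x2200292a3601)))) 
(.lf (nat_lit 20024212) (dlOf (nat_lit 2) (nat_lit 0xb9d30001cc68000e01000180080060002000200089d5c83)))))) 
(.nd (nat_lit 8) (.nd (nat_lit 11) (.nd (nat_lit 29) (.nd (nat_lit 24) 
(.lf (nat_lit 1140949076) (dlOf (nat_lit 2) (nat_lit 0x2600900000c0400dc00400160008020682))) 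
(.lf (nat_lit 16875604) (dlOf (nat_lit 2) (nat_lit 0x7436000410fc0006c080008004000400188e0282)))) 
(.nd (nat_lit 19) 
(.lf (nat_lit 2752610388) (dlOf (nat_lit 7) (nat_lit 0x382ba0099202003a15d004c881001d0ae80261c0800e8574012f80400102ba0097b02003a15d004bb818020900))) 
(.lf (nat_lit 2754183252) (dlOf (nat_lit 2) (nat_lit 0xfc3f40002202000200280c1981))))) 
(.nd (nat_lit 7) (.nd (nat_lit 9) 
(.lf (nat_lit 8494164) (dlOf (nat_lit 1) (nat_lit 0x2000851bf81))) 
(.lf (nat_lit 51481172) (dlOf (nat_lit 4) (nat_lit 0x40000001d0200020000000c81001b0000000000802a000800b8002001c0009515303)))) 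
(.lf (nat_lit 201427156) (dlOf (nat_lit 1) (nat_lit 0x80008008000200180008004a03))))) 
(.nd (nat_lit 7) (.nd (nat_lit 10) (.nd (nat_lit 11) 
(.lf (nat_lit 3288432980) (dlOf (nat_lit 1) (nat_lit 0x420028014d01))) 
(.lf (nat_lit 6442551636) (dlOf (nat_lit 1) (nat_lit 0x4004000200080f4e02)))) 
(.lf (nat_lit 49907028) (dlOf (nat_lit 2) (nat_lit 0x33a20000440801e80080060002008e00094c3383)))) 
(.nd (nat_lit 11) (.nd (nat_lit 9) 
(.lf (nat_lit 7963092) (dlOf (nat_lit 1) (nat_lit 0x400200020008511182))) 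
(.lf (nat_lit 1610712020) (dlOf (nat_lit 1) (nat_lit 0x160028092881)))) (.nd (nat_lit 19) 
(.lf (nat_lit 738298324) (dlOf (nat_lit 1) (nat_lit 0x140028094e81))) 
(.lf (nat_lit 49908180) (dlOf (nat_lit 1) (nat_lit 0xa00194c4e81)))))))) (.nd (nat_lit 26) 
(.nd (nat_lit 31) (.nd (nat_lit 30) (.nd (nat_lit 7) (.nd (nat_lit 8) 
(.lf (nat_lit 4563501076) (dlOf (nat_lit 14) (nat_lit 0x80680185e02000e03400030190061741000400d0000803e0185904002603400c1e01002201a0060ec0800680d003054040030068017e202000c03400be401000b01a005f1c0800600d002f88040034068017c302002203400be081000101a005efc08063000801bc002002c0008090003))) 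
(.lf (nat_lit 939624212) (dlOf (nat_lit 2) (nat_lit 0xc005800000080018008001400200020008143c03)))) 
(.lf (nat_lit 805404820) (dlOf (nat_lit 1) (nat_lit 0x400400020008090182)))) (.nd (nat_lit 6) 
(.nd (nat_lit 7) (.lf (nat_lit 6174116884) (dlOf (nat_lit 1) (nat_lit 0x60018055f81))) 
(.lf (nat_lit 1881244052) (dlOf (nat_lit 2) (nat_lit 0x40032002e017c002ca08003400200120008e81002)))) 
(.nd (nat_lit 19) 
(.lf (nat_lit 2013364308) (dlOf (nat_lit 2) (nat_lit 0x2600900000c0400dc00400160008020682))) 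
(.lf (nat_lit 1342799956) (dlOf (nat_lit 1) (nat_lit 0x4002000200080d1082)))))) (.nd (nat_lit 6) 
(.nd (nat_lit 8) (.nd (nat_lit 21) 
(.lf (nat_lit 3623977108) (dlOf (nat_lit 1) (nat_lit 0x40008064001))) 
(.lf (nat_lit 3491856532) (dlOf (nat_lit 1) (nat_lit 0x10004000e0008090182)))) 
(.lf (nat_lit 3489761684) (dlOf (nat_lit 1) (nat_lit 0x400200020008004e82)))) (.nd (nat_lit 8) 
(.nd (nat_lit 7) 
(.lf (nat_lit 3492380756) (dlOf (nat_lit 3) (nat_lit 0xe41e70000381000c0ae0000080800080080010002001800080c1603))) 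
(.lf (nat_lit 3623977172) (dlOf (nat_lit 1) (nat_lit 0x5a0028065b81)))) (.nd (nat_lit 29) 
(.lf (nat_lit 2416017748) (dlOf (nat_lit 1) (nat_lit 0x20008014d81))) 
(.lf (nat_lit 4026630484) (dlOf (nat_lit 2) (nat_lit 0x14000000220200180008014d81))))))) 
(.nd (nat_lit 11) (.nd (nat_lit 31) (.nd (nat_lit 6) (.nd (nat_lit 20) 
(.lf (nat_lit 470384660) (dlOf (nat_lit 1) (nat_lit 0x40002000800080d0702))) 
(.lf (nat_lit 471433236) (dlOf (nat_lit 1) (nat_lit 0x200282f0801)))) 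
(.lf (nat_lit 469865428) (dlOf (nat_lit 1) (nat_lit 0x90008001000200060008009203)))) 
(.nd (nat_lit 6) (.nd (nat_lit 19) 
(.lf (nat_lit 2483126292) (dlOf (nat_lit 1) (nat_lit 0xe8008012400200860008020483))) 
(.lf (nat_lit 3154739220) (dlOf (nat_lit 1) (nat_lit 0x1800200040008310002)))) 
(.lf (nat_lit 4096360532) (dlOf (nat_lit 1) (nat_lit 0x28008000c00200080008100683))))) 
(.nd (nat_lit 7) (.nd (nat_lit 9) 
(.lf (nat_lit 5704354836) (dlOf (nat_lit 1) (nat_lit 0x60018055f81))) (.nd (nat_lit 10) 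
(.lf (nat_lit 3556870676) (dlOf (nat_lit 1) (nat_lit 0x18002000e00080d5082))) 
(.lf (nat_lit 5838573076) (dlOf (nat_lit 2) (nat_lit 0x900680014032000190280f7080))))) 
(.nd (nat_lit 6) (.nd (nat_lit 8) 
(.lf (nat_lit 5838576788) (dlOf (nat_lit 1) (nat_lit 0x4004000600180fc202))) (.nd (nat_lit 9) 
(.lf (nat_lit 5838577044) (dlOf (nat_lit 1) (nat_lit 0x800180fc981))) 
(.lf (nat_lit 5838576532) (dlOf (nat_lit 1) (nat_lit 0x200080fbc81))))) 
(.lf (nat_lit 1543605716) (dlOf (nat_lit 1) (nat_lit 0x40018146d01)))))))) (.nd (nat_lit 28) 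
(.nd (nat_lit 29) (.nd (nat_lit 20) (.nd (nat_lit 24) (.nd (nat_lit 26) (.nd (nat_lit 21) 
(.nd (nat_lit 30) 
(.lf (nat_lit 6442811412) (dlOf (nat_lit 1) (nat_lit 0x6500080204002021200081c0703))) 
(.lf (nat_lit 3221585940) (dlOf (nat_lit 1) (nat_lit 0x3800800b000200900008150503)))) 
(.lf (nat_lit 2457620) (dlOf (nat_lit 5) (nat_lit 0x1747400099db00105020001d200001e8e800173b600209060005a440008d1d0004676c004100c000f4880009a400007d1d0003e76c0040e10000800200020008160702)))) 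
(.nd (nat_lit 6) 
(.lf (nat_lit 6509920276) (dlOf (nat_lit 2) (nat_lit 0x901300077c080018008000400200020008160483))) 
(.lf (nat_lit 3288694868) (dlOf (nat_lit 1) (nat_lit 0x200180c1601))))) (.nd (nat_lit 7) 
(.nd (nat_lit 6) 
(.lf (nat_lit 51216404) (dlOf (nat_lit 2) (nat_lit 0x3d822001ebfa000f594001580180028008001000200120009510003))) 
(.lf (nat_lit 29720660) (dlOf (nat_lit 2) (nat_lit 0x4d7060003602000a0028e30281)))) 
(.nd (nat_lit 8) (.lf (nat_lit 52790420) (dlOf (nat_lit 1) (nat_lit 0x20029572b81))) 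
(.lf (nat_lit 61703572) (dlOf (nat_lit 1) (nat_lit 0x8008000c00200080009923603)))))) 
(.nd (nat_lit 19) (.nd (nat_lit 6) (.nd (nat_lit 10) 
(.lf (nat_lit 16089108) (dlOf (nat_lit 1) (nat_lit 0x800400260008860382))) 
(.lf (nat_lit 20286484) (dlOf (nat_lit 1) (nat_lit 0x1c004000600189d5f82)))) (.nd (nat_lit 22) 
(.lf (nat_lit 1409108) (dlOf (nat_lit 1) (nat_lit 0x2e00180c1081))) 
(.lf (nat_lit 55935060) (dlOf (nat_lit 2) (nat_lit 0x145348000780800400080014002001400096f0783))))) 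
(.nd (nat_lit 7) (.nd (nat_lit 6) 
(.lf (nat_lit 54365204) (dlOf (nat_lit 1) (nat_lit 0x800400020009655f82))) 
(.lf (nat_lit 4030548) (dlOf (nat_lit 2) (nat_lit 0x1200000000018270d80)))) (.nd (nat_lit 8) 
(.lf (nat_lit 62751892) (dlOf (nat_lit 2) (nat_lit 0x4ae3c001ca040014004000400099a2b82))) 
(.lf (nat_lit 12419476) (dlOf (nat_lit 1) (nat_lit 0x200186c0781))))))) (.nd (nat_lit 26) 
(.nd (nat_lit 6) (.nd (nat_lit 19) (.nd (nat_lit 27) 
(.lf (nat_lit 537231380) (dlOf (nat_lit 1) (nat_lit 0x5000200280008060482))) 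
(.lf (nat_lit 671449108) (dlOf (nat_lit 1) (nat_lit 0x4002000200081a0482)))) 
(.lf (nat_lit 2819457044) (dlOf (nat_lit 1) (nat_lit 0x20028290401)))) (.nd (nat_lit 7) 
(.nd (nat_lit 32) (.lf (nat_lit 1610973268) (dlOf (nat_lit 1) (nat_lit 0x1c004000200080b0682))) 
(.lf (nat_lit 5905940564) (dlOf (nat_lit 1) (nat_lit 0x280028160901)))) 
(.lf (nat_lit 2818932948) (dlOf (nat_lit 1) (nat_lit 0x20018130501))))) (.nd (nat_lit 31) 
(.nd (nat_lit 6) (.lf (nat_lit 604340244) (dlOf (nat_lit 1) (nat_lit 0xc004002a0018180682))) 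
(.nd (nat_lit 27) (.lf (nat_lit 4899307604) (dlOf (nat_lit 1) (nat_lit 0x3c00400020018100502))) 
(.lf (nat_lit 738558036) (dlOf (nat_lit 1) (nat_lit 0x1c004000200080b0682))))) (.nd (nat_lit 7) 
(.nd (nat_lit 19) 
(.lf (nat_lit 3959783444) (dlOf (nat_lit 1) (nat_lit 0x3800800b000200900008150503))) 
(.lf (nat_lit 2754445332) (dlOf (nat_lit 2) (nat_lit 0x1c604b000230180e0180)))) 
(.lf (nat_lit 2751825812) (dlOf (nat_lit 1) (nat_lit 0x20018004201))))))) (.nd (nat_lit 27) 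
(.nd (nat_lit 19) (.nd (nat_lit 6) (.nd (nat_lit 29) 
(.lf (nat_lit 1409646612) (dlOf (nat_lit 1) (nat_lit 0x5000200280008060482))) 
(.lf (nat_lit 3020259348) (dlOf (nat_lit 1) (nat_lit 0x200181d0281)))) (.nd (nat_lit 31) 
(.lf (nat_lit 4563763284) (dlOf (nat_lit 2) (nat_lit 0x680290001f8180d0500))) 
(.lf (nat_lit 2416279636) (dlOf (nat_lit 1) (nat_lit 0x80080004002000200080d0d83))))) 
(.nd (nat_lit 20) (.nd (nat_lit 9) (.nd (nat_lit 21) 
(.lf (nat_lit 3557654548) (dlOf (nat_lit 1) (nat_lit 0x20028290401))) 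
(.lf (nat_lit 3492642836) (dlOf (nat_lit 2) (nat_lit 0x1c604b000230180e0180)))) 
(.lf (nat_lit 1879939604) (dlOf (nat_lit 1) (nat_lit 0x5c00183db281)))) (.nd (nat_lit 31) 
(.lf (nat_lit 1346207764) (dlOf (nat_lit 2) (nat_lit 0x905980038188001a0aa000205100030068003a414009400400020018e60082))) 
(.lf (nat_lit 3493691412) (dlOf (nat_lit 1) (nat_lit 0x4002000200081a0402)))))) (.nd (nat_lit 6) 
(.nd (nat_lit 30) (.nd (nat_lit 20) 
(.lf (nat_lit 3154477076) (dlOf (nat_lit 1) (nat_lit 0x8002003000081a0082))) 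
(.lf (nat_lit 471171092) (dlOf (nat_lit 2) (nat_lit 0x40814001812e000250400bc00182a0301)))) 
(.nd (nat_lit 26) (.lf (nat_lit 1476755476) (dlOf (nat_lit 1) (nat_lit 0xc004002a0018180682))) 
(.lf (nat_lit 1543864340) (dlOf (nat_lit 1) (nat_lit 0x4002000200081a0482))))) (.nd (nat_lit 32) 
(.nd (nat_lit 31) (.lf (nat_lit 403013716) (dlOf (nat_lit 1) (nat_lit 0xc00180d1701))) 
(.lf (nat_lit 2550497364) (dlOf (nat_lit 1) (nat_lit 0x80080004002000200080d0d83)))) 
(.nd (nat_lit 7) (.nd (nat_lit 29) 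
(.lf (nat_lit 4697981012) (dlOf (nat_lit 2) (nat_lit 0x680290001f8180d0500))) 
(.lf (nat_lit 5234851924) (dlOf (nat_lit 2) (nat_lit 0x4002a0005e0200160028100501)))) 
(.lf (nat_lit 5772247252) (dlOf (nat_lit 1) (nat_lit 0x3800028090901))))))))) (.nd (nat_lit 6) 
(.nd (nat_lit 27) (.nd (nat_lit 19) (.nd (nat_lit 26) (.nd (nat_lit 8) (.nd (nat_lit 24) 
(.nd (nat_lit 11) (.nd (nat_lit 18) 
(.lf (nat_lit 3490807860) (dlOf (nat_lit 2) (nat_lit 0x60468000e20200040008020601))) 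
(.lf (nat_lit 2416279604) (dlOf (nat_lit 1) (nat_lit 0xc004000600080d0b82)))) 
(.lf (nat_lit 6442555444) (dlOf (nat_lit 1) (nat_lit 0x80080010002000200080fa603)))) 
(.nd (nat_lit 23) (.lf (nat_lit 16875572) (dlOf (nat_lit 1) (nat_lit 0x4002000200088e0002))) 
(.lf (nat_lit 25264180) (dlOf (nat_lit 1) (nat_lit 0x20018bf0b81))))) (.nd (nat_lit 7) 
(.lf (nat_lit 20024116) (dlOf (nat_lit 1) (nat_lit 0x80080004002000200089d5c03))) (.nd (nat_lit 9) 
(.lf (nat_lit 8488372) (dlOf (nat_lit 1) (nat_lit 0x400200020008513602))) 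
(.lf (nat_lit 4563504052) (dlOf (nat_lit 1) (nat_lit 0x38008003c00200060008095d03)))))) 
(.nd (nat_lit 29) (.nd (nat_lit 7) (.nd (nat_lit 28) 
(.lf (nat_lit 1140949044) (dlOf (nat_lit 2) (nat_lit 0x3600980010204000c00400060018020482))) 
(.lf (nat_lit 2483126324) (dlOf (nat_lit 1) (nat_lit 0x158004005c0018020602)))) 
(.lf (nat_lit 1409391796) (dlOf (nat_lit 1) (nat_lit 0x14002800c201)))) (.nd (nat_lit 18) 
(.nd (nat_lit 20) (.lf (nat_lit 5972787252) (dlOf (nat_lit 1) (nat_lit 0x400180d0a81))) 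
(.lf (nat_lit 2752610356) (dlOf (nat_lit 2) (nat_lit 0x60498000b20200040008020601)))) 
(.lf (nat_lit 604340276) (dlOf (nat_lit 1) (nat_lit 0xc0028180881)))))) (.nd (nat_lit 18) 
(.nd (nat_lit 7) (.nd (nat_lit 8) (.nd (nat_lit 10) 
(.lf (nat_lit 10059828) (dlOf (nat_lit 1) (nat_lit 0x40004006200185b0602))) 
(.lf (nat_lit 57246772) (dlOf (nat_lit 2) (nat_lit 0x17c250019610802bfc08002c00400300009792882)))) 
(.lf (nat_lit 58294580) (dlOf (nat_lit 1) (nat_lit 0x200080020002000200097d7b03)))) 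
(.nd (nat_lit 8) (.lf (nat_lit 28934324) (dlOf (nat_lit 1) (nat_lit 0x1c0018da0481))) 
(.lf (nat_lit 7968692) (dlOf (nat_lit 1) (nat_lit 0xe000851a401))))) (.nd (nat_lit 20) 
(.nd (nat_lit 9) 
(.lf (nat_lit 884788) (dlOf (nat_lit 3) (nat_lit 0x118000001c7020012000000de818030d00))) 
(.lf (nat_lit 51218996) (dlOf (nat_lit 2) (nat_lit 0x2c110007594000668100220008000c002011a0009515183)))) 
(.nd (nat_lit 21) 
(.lf (nat_lit 27099188) (dlOf (nat_lit 2) (nat_lit 0x51d85001debf802200000004a0c0218002003a0008ca0782))) 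
(.lf (nat_lit 4030516) (dlOf (nat_lit 2) (nat_lit 0xb00000037a04002c00200080008270b82))))))) 
(.nd (nat_lit 28) (.nd (nat_lit 7) (.nd (nat_lit 26) (.nd (nat_lit 10) (.nd (nat_lit 19) 
(.lf (nat_lit 6576767028) (dlOf (nat_lit 1) (nat_lit 0x400180d0a81))) 
(.lf (nat_lit 3892936756) (dlOf (nat_lit 2) (nat_lit 0x501600009c0800100080064002002e00082a0c03)))) 
(.lf (nat_lit 671188020) (dlOf (nat_lit 1) (nat_lit 0x28008000c00200080008142883)))) 
(.nd (nat_lit 30) (.lf (nat_lit 2348908596) (dlOf (nat_lit 1) (nat_lit 0x158004005c0018020602))) 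
(.lf (nat_lit 1275166772) (dlOf (nat_lit 1) (nat_lit 0x20028090001))))) (.nd (nat_lit 10) 
(.lf (nat_lit 1208320180) (dlOf (nat_lit 1) (nat_lit 0x100080008002000400080c1683))) 
(.nd (nat_lit 12) 
(.lf (nat_lit 134319284) (dlOf (nat_lit 2) (nat_lit 0x1802080011c0800d80080104002001a0008006283))) 
(.lf (nat_lit 134323380) (dlOf (nat_lit 1) (nat_lit 0xa40020006000800c202)))))) (.nd (nat_lit 18) 
(.nd (nat_lit 7) (.nd (nat_lit 26) (.nd (nat_lit 29) 
(.lf (nat_lit 4697718836) (dlOf (nat_lit 2) (nat_lit 0x6801a0000000803600080148002005c0008090003))) 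
(.lf (nat_lit 2013364276) (dlOf (nat_lit 2) (nat_lit 0x3600980010204000c00400060018020482)))) 
(.lf (nat_lit 2617344052) (dlOf (nat_lit 1) (nat_lit 0x80080054002000400080a0003)))) 
(.nd (nat_lit 8) (.lf (nat_lit 5301698740) (dlOf (nat_lit 1) (nat_lit 0x140008031681))) 
(.lf (nat_lit 402751924) (dlOf (nat_lit 1) (nat_lit 0x20018091001))))) (.nd (nat_lit 7) 
(.nd (nat_lit 26) (.nd (nat_lit 30) 
(.lf (nat_lit 2550497332) (dlOf (nat_lit 1) (nat_lit 0xc004000600080d0b82))) 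
(.lf (nat_lit 1476755508) (dlOf (nat_lit 1) (nat_lit 0xc0028180881)))) 
(.lf (nat_lit 3154477108) (dlOf (nat_lit 1) (nat_lit 0x200081a0481)))) (.nd (nat_lit 19) 
(.lf (nat_lit 2080735412) (dlOf (nat_lit 1) (nat_lit 0x180080004002000200080c1683))) 
(.lf (nat_lit 6377275572) (dlOf (nat_lit 1) (nat_lit 0x4004000200080c1682)))))))) (.nd (nat_lit 8) 
(.nd (nat_lit 30) (.nd (nat_lit 7) (.nd (nat_lit 22) (.nd (nat_lit 9) 
(.lf (nat_lit 805404788) (dlOf (nat_lit 2) (nat_lit 0x4e0550028027001380dc001c048006800a00124058090080))) 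
(.lf (nat_lit 102004) (dlOf (nat_lit 1) (nat_lit 0x20028007181)))) (.nd (nat_lit 20) 
(.lf (nat_lit 12681332) (dlOf (nat_lit 1) (nat_lit 0x180080008002000400086d1603))) 
(.lf (nat_lit 24215668) (dlOf (nat_lit 1) (nat_lit 0x10008000800200180008b91603))))) 
(.nd (nat_lit 24) (.nd (nat_lit 18) 
(.lf (nat_lit 3154739444) (dlOf (nat_lit 3) (nat_lit 0x600c8001ec0800100500001604000c00400080008310602))) 
(.lf (nat_lit 12419316) (dlOf (nat_lit 1) (nat_lit 0xc00186c0481)))) (.nd (nat_lit 9) 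
(.lf (nat_lit 54100212) (dlOf (nat_lit 2) (nat_lit 0x1a8c00013804000800400080019612482))) 
(.lf (nat_lit 20552436) (dlOf (nat_lit 1) (nat_lit 0x80080004002000200089db983)))))) 
(.nd (nat_lit 27) (.nd (nat_lit 18) (.nd (nat_lit 7) (.nd (nat_lit 26) 
(.lf (nat_lit 3221323892) (dlOf (nat_lit 4) (nat_lit 0x18056000502a80090078005001400280060012405000402a80091c0800e00d4000c03e001ff0400020028090081))) 
(.lf (nat_lit 1677820020) (dlOf (nat_lit 2) (nat_lit 0x4e0550028027001380dc001c048006800a00118058090080)))) 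
(.lf (nat_lit 1881768180) (dlOf (nat_lit 1) (nat_lit 0x8008001400200020009002483)))) 
(.nd (nat_lit 26) 
(.lf (nat_lit 1074102388) (dlOf (nat_lit 6) (nat_lit 0x800d00092008000800c0048e04001802c001ff020022019001f0000007a41000700640034000001e70400300028090081))) 
(.lf (nat_lit 1946517620) (dlOf (nat_lit 6) (nat_lit 0x800d0008c008000800c0045e04001802c001ed020022019001f0000007501000700640034000001d20400300028090081))))) 
(.nd (nat_lit 7) (.nd (nat_lit 9) (.nd (nat_lit 18) 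
(.lf (nat_lit 3959521396) (dlOf (nat_lit 4) (nat_lit 0x18056000502a80090078005001400280060011805000402a8008bc0800e00d4000c03e001ed0400020028090081))) 
(.lf (nat_lit 3691348084) (dlOf (nat_lit 3) (nat_lit 0xc008800480280006009000f00280075820002808800480280010005000f00000074c200018008009c002000e0008160483)))) 
(.lf (nat_lit 5838573172) (dlOf (nat_lit 1) (nat_lit 0x80080004002000200080f7183)))) 
(.nd (nat_lit 10) (.lf (nat_lit 3623977204) (dlOf (nat_lit 1) (nat_lit 0x800200060008067482))) 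
(.lf (nat_lit 1812040948) (dlOf (nat_lit 2) (nat_lit 0x200000002c04000800400060018146582))))))) 
(.nd (nat_lit 26) (.nd (nat_lit 9) (.nd (nat_lit 11) (.nd (nat_lit 10) 
(.lf (nat_lit 3491332596) (dlOf (nat_lit 7) (nat_lit 0x4c468002370200602340011a01003011a0008a80800b08d0004520400c0468002250200602340010d018090d80))) 
(.lf (nat_lit 6308333044) (dlOf (nat_lit 1) (nat_lit 0x400400020008053602)))) (.nd (nat_lit 18) 
(.lf (nat_lit 39946740) (dlOf (nat_lit 1) (nat_lit 0x34004000200191f4f02))) 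
(.lf (nat_lit 51218932) (dlOf (nat_lit 1) (nat_lit 0x14c0019514f01))))) (.nd (nat_lit 7) 
(.nd (nat_lit 10) (.lf (nat_lit 3355546484) (dlOf (nat_lit 1) (nat_lit 0x2400280a8f81))) 
(.lf (nat_lit 6442551156) (dlOf (nat_lit 1) (nat_lit 0x4004000200180f4082)))) (.nd (nat_lit 10) 
(.lf (nat_lit 4563504116) (dlOf (nat_lit 1) (nat_lit 0x400028095f01))) 
(.lf (nat_lit 8751092) (dlOf (nat_lit 1) (nat_lit 0x20028514681)))))) (.nd (nat_lit 32) 
(.nd (nat_lit 9) (.nd (nat_lit 10) 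
(.lf (nat_lit 2753135092) (dlOf (nat_lit 7) (nat_lit 0x4c4980023702006024c0011a0100301260008a80800b0930004520400c04980022502006024c0010e818090d80))) 
(.lf (nat_lit 1543605748) (dlOf (nat_lit 4) (nat_lit 0x2400d000054080028068002001a00040000000283000400d000380340008000000040600020028146f01)))) 
(.nd (nat_lit 7) 
(.lf (nat_lit 201426804) (dlOf (nat_lit 1) (nat_lit 0xe8008002800200020008004083))) 
(.lf (nat_lit 2751824884) (dlOf (nat_lit 1) (nat_lit 0x20018002881))))) (.nd (nat_lit 30) 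
(.nd (nat_lit 27) (.lf (nat_lit 4899046900) (dlOf (nat_lit 1) (nat_lit 0x80008053601))) 
(.lf (nat_lit 4496393716) (dlOf (nat_lit 1) (nat_lit 0xc00400060008053602)))) (.nd (nat_lit 11) 
(.lf (nat_lit 5570135540) (dlOf (nat_lit 1) (nat_lit 0x40028053601))) 
(.lf (nat_lit 5838573044) (dlOf (nat_lit 1) (nat_lit 0x4000080f6f01))))))))))) (.nd (nat_lit 4) 
(.nd (nat_lit 18) (.nd (nat_lit 5) (.nd (nat_lit 6) (.nd (nat_lit 28) (.nd (nat_lit 19) 
(.nd (nat_lit 26) (.nd (nat_lit 7) (.nd (nat_lit 32) (.nd (nat_lit 8) 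
(.lf (nat_lit 11764228) (dlOf (nat_lit 1) (nat_lit 0x180080124002000200086c0d83))) 
(.lf (nat_lit 54755588) (dlOf (nat_lit 1) (nat_lit 0x400400020019650a82)))) (.nd (nat_lit 27) 
(.lf (nat_lit 4295196676) (dlOf (nat_lit 1) (nat_lit 0x1c00180a0001))) 
(.lf (nat_lit 4429414404) (dlOf (nat_lit 1) (nat_lit 0x1c00180a0001))))) (.nd (nat_lit 8) 
(.lf (nat_lit 2326660) (dlOf (nat_lit 2) (nat_lit 0x35d76003ce160009656000104180008008001800200260008150103))) 
(.lf (nat_lit 3221462404) (dlOf (nat_lit 2) (nat_lit 0x4811800040860067e040018002811c901))))) 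
(.nd (nat_lit 9) (.nd (nat_lit 8) (.nd (nat_lit 10) 
(.lf (nat_lit 2752741380) (dlOf (nat_lit 1) (nat_lit 0x180080010002000e0008030003))) 
(.lf (nat_lit 4899179524) (dlOf (nat_lit 1) (nat_lit 0x4004000200080d5f82)))) (.nd (nat_lit 20) 
(.lf (nat_lit 67338500) (dlOf (nat_lit 1) (nat_lit 0x80080004002000600080b0703))) 
(.lf (nat_lit 68387076) (dlOf (nat_lit 1) (nat_lit 0x11000200400008570702))))) (.nd (nat_lit 10) 
(.nd (nat_lit 22) (.lf (nat_lit 2349040132) (dlOf (nat_lit 1) (nat_lit 0x40008090d81))) 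
(.lf (nat_lit 2755887620) (dlOf (nat_lit 3) (nat_lit 0x821c0028604003c1080007c02000200281b0d81)))) 
(.lf (nat_lit 2754842116) (dlOf (nat_lit 1) (nat_lit 0x4002000200080f7002)))))) (.nd (nat_lit 21) 
(.nd (nat_lit 29) (.nd (nat_lit 9) (.nd (nat_lit 20) 
(.lf (nat_lit 67862532) (dlOf (nat_lit 1) (nat_lit 0x400200020008320002))) 
(.lf (nat_lit 1802244) (dlOf (nat_lit 3) (nat_lit 0x3d82e0008c00000c53f0009a9b402d0610003d82e0016c00000c53f000a29b402bf810002c00400200008140002)))) 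
(.lf (nat_lit 754180) (dlOf (nat_lit 2) (nat_lit 0x14ce000c110200360008018001)))) (.nd (nat_lit 27) 
(.lf (nat_lit 537624580) (dlOf (nat_lit 1) (nat_lit 0x50008000c002005e00080e0003))) 
(.lf (nat_lit 2819325956) (dlOf (nat_lit 2) (nat_lit 0xc08600a200200020008240001))))) 
(.nd (nat_lit 8) (.nd (nat_lit 9) 
(.lf (nat_lit 2850820) (dlOf (nat_lit 1) (nat_lit 0x1c004000200081c0002))) 
(.lf (nat_lit 23822852) (dlOf (nat_lit 1) (nat_lit 0x10008000400200020008b80d83)))) 
(.lf (nat_lit 8094980) (dlOf (nat_lit 1) (nat_lit 0x200018512f01)))))) (.nd (nat_lit 27) 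
(.nd (nat_lit 31) (.nd (nat_lit 10) (.nd (nat_lit 19) 
(.lf (nat_lit 5100503044) (dlOf (nat_lit 1) (nat_lit 0x24004001e00180d0002))) (.nd (nat_lit 26) 
(.lf (nat_lit 1342930948) (dlOf (nat_lit 1) (nat_lit 0x90008007800200400008110003))) 
(.lf (nat_lit 1410039812) (dlOf (nat_lit 1) (nat_lit 0x50008000c002005e00080e0003))))) 
(.nd (nat_lit 11) 
(.lf (nat_lit 1346601988) (dlOf (nat_lit 2) (nat_lit 0x10234009ac04000c00200020008fe2882))) 
(.lf (nat_lit 5100506116) (dlOf (nat_lit 1) (nat_lit 0x80080008002000200080d5f83))))) 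
(.nd (nat_lit 7) (.nd (nat_lit 20) 
(.lf (nat_lit 2953019396) (dlOf (nat_lit 1) (nat_lit 0xa0008090001))) 
(.lf (nat_lit 3490938884) (dlOf (nat_lit 1) (nat_lit 0x180080010002000e0008030003)))) 
(.nd (nat_lit 9) 
(.lf (nat_lit 3491463556) (dlOf (nat_lit 1) (nat_lit 0x8008000400200020008090783))) 
(.lf (nat_lit 3489897348) (dlOf (nat_lit 1) (nat_lit 0x12000800bc81)))))) (.nd (nat_lit 26) 
(.nd (nat_lit 8) (.nd (nat_lit 32) 
(.lf (nat_lit 402882564) (dlOf (nat_lit 1) (nat_lit 0x600180a0001))) 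
(.lf (nat_lit 4697849860) (dlOf (nat_lit 1) (nat_lit 0x580080024002001200080a0003)))) 
(.lf (nat_lit 5234722052) (dlOf (nat_lit 1) (nat_lit 0x6000080d2f01)))) (.nd (nat_lit 19) 
(.lf (nat_lit 471040004) (dlOf (nat_lit 1) (nat_lit 0x8008000c00200060008250283))) 
(.nd (nat_lit 29) 
(.lf (nat_lit 470515716) (dlOf (nat_lit 1) (nat_lit 0x90008007800200400008110003))) 
(.lf (nat_lit 3154870276) (dlOf (nat_lit 3) (nat_lit 0x600240061011002c341001a0090003c02c00b090400160028360001)))))))) 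
(.nd (nat_lit 22) (.nd (nat_lit 28) (.nd (nat_lit 29) (.nd (nat_lit 7) (.nd (nat_lit 21) 
(.nd (nat_lit 27) (.lf (nat_lit 4295196740) (dlOf (nat_lit 2) (nat_lit 0x4007000150180a0e00))) 
(.lf (nat_lit 4429414468) (dlOf (nat_lit 1) (nat_lit 0x180080008002000400080a0d03)))) 
(.nd (nat_lit 8) (.lf (nat_lit 45842500) (dlOf (nat_lit 2) (nat_lit 0x5573c000b1819360600))) 
(.lf (nat_lit 2326852) (dlOf (nat_lit 2) (nat_lit 0xbb70b0001040802900080490002005a0008150603))))) 
(.nd (nat_lit 8) 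
(.lf (nat_lit 3355672772) (dlOf (nat_lit 2) (nat_lit 0x20040004c502000400180b3901))) 
(.lf (nat_lit 51085764) (dlOf (nat_lit 1) (nat_lit 0x8a00094f7001))))) (.nd (nat_lit 26) 
(.nd (nat_lit 30) (.lf (nat_lit 4832067652) (dlOf (nat_lit 1) (nat_lit 0x600280d0001))) 
(.lf (nat_lit 3758325828) (dlOf (nat_lit 1) (nat_lit 0x8008000400200020008130083)))) 
(.nd (nat_lit 9) 
(.lf (nat_lit 2752741444) (dlOf (nat_lit 6) (nat_lit 0xf00e300fb0588000741003a038c0003804078432e003017b01a10bb0106039c07201cc02ce0e3016f070817102c4031814c01ac09f01a404e800b004405b001a034000801a800080e300000003640003c1c60001a0200e00e3005d06580628300011017601f800d00dc0040000503000d000807f4002008a0008030e83))) 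
(.lf (nat_lit 1677951556) (dlOf (nat_lit 1) (nat_lit 0x220028128d01)))))) (.nd (nat_lit 8) 
(.nd (nat_lit 19) (.nd (nat_lit 9) (.nd (nat_lit 20) 
(.lf (nat_lit 4697849924) (dlOf (nat_lit 1) (nat_lit 0x400080a1681))) 
(.lf (nat_lit 3490938948) (dlOf (nat_lit 6) (nat_lit 0x1f60bf00780598000701003a02cc0003604078431e003017c01a10bb017102fc083016e03900b6016705980b782c4031815201ac09f01a404e800b004405b001a034000801a800080e300000003440003c166000190200ba0d900c50670022032401c016601f800d00dc00400004c3000d000807f4002008a0008030e83)))) 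
(.lf (nat_lit 5167613508) (dlOf (nat_lit 1) (nat_lit 0x38004000400180d3802)))) (.nd (nat_lit 26) 
(.lf (nat_lit 5772116036) (dlOf (nat_lit 1) (nat_lit 0x400200020008080d82))) 
(.lf (nat_lit 6376095812) (dlOf (nat_lit 1) (nat_lit 0x400200020008080d82))))) (.nd (nat_lit 7) 
(.lf (nat_lit 4697850180) (dlOf (nat_lit 1) (nat_lit 0x580080030002001400080a5f83))) 
(.nd (nat_lit 27) 
(.lf (nat_lit 2416148932) (dlOf (nat_lit 4) (nat_lit 0x3900280009c0802380140004c04003000c0002002002a0018090901))) 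
(.lf (nat_lit 2550366660) (dlOf (nat_lit 4) (nat_lit 0x3900280009c0802380140004c04003000c0002002002a0018090901))))))) 
(.nd (nat_lit 24) (.nd (nat_lit 19) (.nd (nat_lit 8) 
(.lf (nat_lit 37978180) (dlOf (nat_lit 1) (nat_lit 0xa400090f0601))) 
(.lf (nat_lit 2755887428) (dlOf (nat_lit 2) (nat_lit 0x182e40000002000400281b0601)))) 
(.nd (nat_lit 10) (.lf (nat_lit 8093764) (dlOf (nat_lit 1) (nat_lit 0xe0018510001))) 
(.lf (nat_lit 8100932) (dlOf (nat_lit 1) (nat_lit 0xe6002851bf01))))) (.nd (nat_lit 9) 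
(.nd (nat_lit 19) (.nd (nat_lit 20) 
(.lf (nat_lit 63144004) (dlOf (nat_lit 1) (nat_lit 0x280080008002000600099e0603))) 
(.lf (nat_lit 24346692) (dlOf (nat_lit 1) (nat_lit 0x40018b90e01)))) 
(.lf (nat_lit 23822404) (dlOf (nat_lit 1) (nat_lit 0x400400020008b80002)))) 
(.lf (nat_lit 23298628) (dlOf (nat_lit 1) (nat_lit 0x400200020008b81102))))))) (.nd (nat_lit 7) 
(.nd (nat_lit 28) (.nd (nat_lit 19) (.nd (nat_lit 24) (.nd (nat_lit 6) (.nd (nat_lit 21) 
(.lf (nat_lit 2349039652) (dlOf (nat_lit 1) (nat_lit 0xc00400020008090002))) 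
(.lf (nat_lit 44269604) (dlOf (nat_lit 1) (nat_lit 0x680080084002006800092e0203)))) 
(.nd (nat_lit 8) (.lf (nat_lit 4295196772) (dlOf (nat_lit 1) (nat_lit 0x4002000200080a1382))) 
(.lf (nat_lit 1677951332) (dlOf (nat_lit 1) (nat_lit 0x360018125201))))) (.nd (nat_lit 10) 
(.nd (nat_lit 21) 
(.lf (nat_lit 25395236) (dlOf (nat_lit 2) (nat_lit 0x20965f8006c8080040008003800200100008c00483))) 
(.lf (nat_lit 52658212) (dlOf (nat_lit 16) (nat_lit 0x3fba94011d9d40018cb60002283003967500010c08029ba94013dc620003604006eea50001a8100427528000d008023b8c40005a040109d4a008ee310001602000b7188000ac08029b8c40004c040109d4a008ee310000f82003f752801f38c40003a08000dd480012e3000047178034b3a80002e1000e59d400012020008ea4000a7180034b3a8001c00000011080046ea40023718000000100178008004400200040009560703)))) 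
(.nd (nat_lit 6) (.lf (nat_lit 20155940) (dlOf (nat_lit 1) (nat_lit 0xa00189d7181))) 
(.lf (nat_lit 50562404) (dlOf (nat_lit 1) (nat_lit 0x10004000200094c3482)))))) (.nd (nat_lit 20) 
(.nd (nat_lit 29) (.nd (nat_lit 9) (.nd (nat_lit 22) 
(.lf (nat_lit 9142308) (dlOf (nat_lit 1) (nat_lit 0xd0008008c00200320008520783))) 
(.lf (nat_lit 21725220) (dlOf (nat_lit 5) (nat_lit 0x64aab016a4e480348454028804e0005608000cabb000654d80015410006058400042aa0000a04003a06600000018a60b80)))) 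
(.lf (nat_lit 754212) (dlOf (nat_lit 1) (nat_lit 0x10008002800200020008018783)))) (.nd (nat_lit 27) 
(.lf (nat_lit 537624612) (dlOf (nat_lit 2) (nat_lit 0x59e033001170180e0480))) 
(.lf (nat_lit 2819325988) (dlOf (nat_lit 2) (nat_lit 0xa810c009e804005c00400240008240682))))) 
(.nd (nat_lit 8) (.lf (nat_lit 1802276) (dlOf (nat_lit 2) (nat_lit 0x701ae0002a0200040028140801))) 
(.lf (nat_lit 8100132) (dlOf (nat_lit 1) (nat_lit 0x8001851ab81)))))) (.nd (nat_lit 26) 
(.nd (nat_lit 30) (.nd (nat_lit 6) 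
(.lf (nat_lit 5100503076) (dlOf (nat_lit 1) (nat_lit 0x80080004002000200080d0003))) 
(.lf (nat_lit 4563632228) (dlOf (nat_lit 4) (nat_lit 0xc03300c598100060198062c80800400cc0314a040050004000c00080a1982)))) 
(.nd (nat_lit 8) (.nd (nat_lit 19) 
(.lf (nat_lit 1343455268) (dlOf (nat_lit 1) (nat_lit 0x8008000800200020008250803))) 
(.lf (nat_lit 1345028132) (dlOf (nat_lit 2) (nat_lit 0x151028001140800a0008002c002001c00089d0703)))) 
(.lf (nat_lit 3489897252) (dlOf (nat_lit 1) (nat_lit 0x480040006000800bc82))))) (.nd (nat_lit 8) 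
(.nd (nat_lit 27) (.nd (nat_lit 20) 
(.lf (nat_lit 1410039844) (dlOf (nat_lit 2) (nat_lit 0x59e033001170180e0480))) 
(.lf (nat_lit 4095442980) (dlOf (nat_lit 3) (nat_lit 0x3340ae006c056800902981ff414a00c6099022e048808682140005e1c06381000001102000a00280b0b81)))) 
(.nd (nat_lit 6) 
(.lf (nat_lit 3691216932) (dlOf (nat_lit 2) (nat_lit 0xb00e801680700000008040800201ee00080a0602))) 
(.lf (nat_lit 472612964) (dlOf (nat_lit 1) (nat_lit 0x10002001000089c0982))))) (.nd (nat_lit 6) 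
(.nd (nat_lit 30) 
(.lf (nat_lit 2617475364) (dlOf (nat_lit 4) (nat_lit 0x80b000960040028058000600d0025682000601780126c0800d80080010002000200080b5403))) 
(.lf (nat_lit 1543733540) (dlOf (nat_lit 1) (nat_lit 0x2700008154301)))) 
(.lf (nat_lit 1543733604) (dlOf (nat_lit 5) (nat_lit 0x4401a004c602000e00d0026281000e0068013100801480680096004010000400420018154f02))))))) 
(.nd (nat_lit 9) (.nd (nat_lit 20) (.nd (nat_lit 6) (.nd (nat_lit 8) 
(.lf (nat_lit 4563632292) (dlOf (nat_lit 2) (nat_lit 0x200cc00030040038004001000080a2c02))) 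
(.lf (nat_lit 2349040036) (dlOf (nat_lit 1) (nat_lit 0x900080010002000c0008090783)))) 
(.nd (nat_lit 10) (.lf (nat_lit 4899178980) (dlOf (nat_lit 1) (nat_lit 0x200280d4e81))) 
(.lf (nat_lit 2818807268) (dlOf (nat_lit 1) (nat_lit 0xc800400320008129b02))))) (.nd (nat_lit 8) 
(.nd (nat_lit 10) (.lf (nat_lit 62095524) (dlOf (nat_lit 1) (nat_lit 0x3000400040019951382))) 
(.lf (nat_lit 49513636) (dlOf (nat_lit 1) (nat_lit 0x10008000400200040009462c03)))) 
(.nd (nat_lit 10) (.lf (nat_lit 36932004) (dlOf (nat_lit 1) (nat_lit 0x2c00400020019074e82))) 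
(.lf (nat_lit 8095140) (dlOf (nat_lit 1) (nat_lit 0x400200020008513602)))))) (.nd (nat_lit 10) 
(.nd (nat_lit 6) (.nd (nat_lit 20) 
(.lf (nat_lit 8622756) (dlOf (nat_lit 1) (nat_lit 0x400200020008518c82))) 
(.lf (nat_lit 20157092) (dlOf (nat_lit 1) (nat_lit 0x80080004002000200089d8c83)))) 
(.lf (nat_lit 20159204) (dlOf (nat_lit 1) (nat_lit 0x680080004002001000089db983)))) 
(.nd (nat_lit 19) (.nd (nat_lit 20) 
(.lf (nat_lit 3557004964) (dlOf (nat_lit 1) (nat_lit 0x1000800100020008000812a003))) 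
(.lf (nat_lit 20158116) (dlOf (nat_lit 1) (nat_lit 0x100080004002000200089da003)))) 
(.nd (nat_lit 8) (.lf (nat_lit 20680356) (dlOf (nat_lit 1) (nat_lit 0x4004000200089d7202))) 
(.lf (nat_lit 8099748) (dlOf (nat_lit 1) (nat_lit 0x2001851a301))))))))) (.nd (nat_lit 6) 
(.nd (nat_lit 5) (.nd (nat_lit 26) (.nd (nat_lit 20) (.nd (nat_lit 27) (.nd (nat_lit 19) 
(.nd (nat_lit 28) (.lf (nat_lit 5906071556) (dlOf (nat_lit 2) (nat_lit 0x402400000018190000))) 
(.lf (nat_lit 1342668804) (dlOf (nat_lit 1) (nat_lit 0x7e00180c0001)))) 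
(.lf (nat_lit 1343193092) (dlOf (nat_lit 1) (nat_lit 0xc00400060008190002)))) (.nd (nat_lit 8) 
(.lf (nat_lit 3892805636) (dlOf (nat_lit 1) (nat_lit 0x20018280001))) 
(.lf (nat_lit 3892805892) (dlOf (nat_lit 1) (nat_lit 0x8008001c00200020008280703))))) 
(.nd (nat_lit 9) (.nd (nat_lit 10) (.nd (nat_lit 21) 
(.lf (nat_lit 27230212) (dlOf (nat_lit 1) (nat_lit 0xe0028cc0001))) 
(.lf (nat_lit 12550148) (dlOf (nat_lit 1) (nat_lit 0x3b800800f0002002600086d0003)))) 
(.lf (nat_lit 47678468) (dlOf (nat_lit 1) (nat_lit 0x8008000400200020009402883)))) 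
(.nd (nat_lit 10) (.lf (nat_lit 58163716) (dlOf (nat_lit 1) (nat_lit 0x4004000200097c7b02))) 
(.lf (nat_lit 20418052) (dlOf (nat_lit 1) (nat_lit 0xc004000400089d7002)))))) (.nd (nat_lit 28) 
(.nd (nat_lit 31) (.nd (nat_lit 27) 
(.lf (nat_lit 4362567684) (dlOf (nat_lit 1) (nat_lit 0x240008000400200400008090003))) 
(.lf (nat_lit 201818116) (dlOf (nat_lit 1) (nat_lit 0x20028090001)))) (.nd (nat_lit 7) 
(.lf (nat_lit 6510051332) (dlOf (nat_lit 2) (nat_lit 0x402500000018190000))) 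
(.lf (nat_lit 2754580100) (dlOf (nat_lit 1) (nat_lit 0x600080f7181))))) (.nd (nat_lit 7) 
(.nd (nat_lit 10) (.lf (nat_lit 472350724) (dlOf (nat_lit 1) (nat_lit 0x20018980001))) 
(.lf (nat_lit 472876036) (dlOf (nat_lit 1) (nat_lit 0x1000400020018b52882)))) (.nd (nat_lit 8) 
(.lf (nat_lit 6376360580) (dlOf (nat_lit 1) (nat_lit 0x400200020008095482))) 
(.lf (nat_lit 470253956) (dlOf (nat_lit 1) (nat_lit 0x1800180c0781))))))) (.nd (nat_lit 9) 
(.nd (nat_lit 26) (.nd (nat_lit 30) (.nd (nat_lit 21) (.nd (nat_lit 22) 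
(.lf (nat_lit 9404452) (dlOf (nat_lit 1) (nat_lit 0x400400040008550582))) 
(.lf (nat_lit 21987364) (dlOf (nat_lit 1) (nat_lit 0x220008a80a01)))) (.nd (nat_lit 19) 
(.lf (nat_lit 44531748) (dlOf (nat_lit 1) (nat_lit 0x720029320001))) 
(.lf (nat_lit 20938788) (dlOf (nat_lit 1) (nat_lit 0x800189f0281))))) (.nd (nat_lit 28) 
(.nd (nat_lit 29) (.lf (nat_lit 3221717028) (dlOf (nat_lit 1) (nat_lit 0x20008170001))) 
(.lf (nat_lit 1611104292) (dlOf (nat_lit 1) (nat_lit 0x1000080074002004a00080e0903)))) 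
(.nd (nat_lit 21) (.lf (nat_lit 3494346788) (dlOf (nat_lit 1) (nat_lit 0x20018200b81))) 
(.lf (nat_lit 3492249636) (dlOf (nat_lit 1) (nat_lit 0x200280b0b81)))))) (.nd (nat_lit 27) 
(.nd (nat_lit 29) (.nd (nat_lit 28) 
(.lf (nat_lit 3288825892) (dlOf (nat_lit 1) (nat_lit 0x200281b0001))) 
(.lf (nat_lit 3557261348) (dlOf (nat_lit 1) (nat_lit 0x20028190701)))) (.nd (nat_lit 21) 
(.lf (nat_lit 2756149284) (dlOf (nat_lit 1) (nat_lit 0x20018200b81))) 
(.lf (nat_lit 2754052132) (dlOf (nat_lit 1) (nat_lit 0x180080010002000400080b0a83))))) 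
(.nd (nat_lit 8) (.nd (nat_lit 19) 
(.lf (nat_lit 738689060) (dlOf (nat_lit 1) (nat_lit 0x1000080074002004a00080e0903))) 
(.lf (nat_lit 473923620) (dlOf (nat_lit 2) (nat_lit 0x80ac000082580010106000290600340018fc0201)))) 
(.lf (nat_lit 471826724) (dlOf (nat_lit 1) (nat_lit 0x80028520701)))))) (.nd (nat_lit 7) 
(.nd (nat_lit 27) (.nd (nat_lit 10) 
(.lf (nat_lit 24085028) (dlOf (nat_lit 11) (nat_lit 0x330ba0001602001585d0000a81000cc2e8000df0c0001c08001b0ba0000d02001385d00006010001c2e80002c080096174001f0b200117c300003030005be18000140800661740000804001b0ba000000200040018b80e01))) 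
(.lf (nat_lit 8885796) (dlOf (nat_lit 1) (nat_lit 0x20028519c01)))) (.nd (nat_lit 26) 
(.lf (nat_lit 134709796) (dlOf (nat_lit 2) (nat_lit 0x380fc0000804003c00200060008090e02))) 
(.lf (nat_lit 201818660) (dlOf (nat_lit 2) (nat_lit 0x380fc0000804003c00200060008090e02))))) 
(.nd (nat_lit 10) (.nd (nat_lit 19) (.nd (nat_lit 20) 
(.lf (nat_lit 8884900) (dlOf (nat_lit 1) (nat_lit 0x400200020008518c82))) 
(.lf (nat_lit 20419236) (dlOf (nat_lit 1) (nat_lit 0x4002000200089d8c82)))) 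
(.lf (nat_lit 8360612) (dlOf (nat_lit 1) (nat_lit 0x18008000400200080008518c83)))) 
(.nd (nat_lit 11) (.lf (nat_lit 19895972) (dlOf (nat_lit 1) (nat_lit 0x4002000200089da002))) 
(.lf (nat_lit 1074237092) (dlOf (nat_lit 1) (nat_lit 0x200280f7201)))))))) (.nd (nat_lit 8) 
(.nd (nat_lit 20) (.nd (nat_lit 19) (.nd (nat_lit 5) (.nd (nat_lit 21) 
(.lf (nat_lit 738689092) (dlOf (nat_lit 1) (nat_lit 0x1c8008004c002004000080e1883))) 
(.nd (nat_lit 26) 
(.lf (nat_lit 2588740) (dlOf (nat_lit 2) (nat_lit 0xa5cd80004e04000400200020008170d02))) 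
(.lf (nat_lit 1009221700) (dlOf (nat_lit 1) (nat_lit 0x180080008002000400090a0603))))) 
(.nd (nat_lit 7) (.nd (nat_lit 21) 
(.lf (nat_lit 3892805732) (dlOf (nat_lit 1) (nat_lit 0x400400040018280482))) 
(.lf (nat_lit 48726116) (dlOf (nat_lit 1) (nat_lit 0x100019420981)))) 
(.lf (nat_lit 1476889316) (dlOf (nat_lit 4) (nat_lit 0x28074001c02a000d0100003003000140000003f0a00080000001d81000b01b800380a8001c040000a00c00020000000002800800080028002000a00082d5983))))) 
(.nd (nat_lit 9) (.nd (nat_lit 22) (.nd (nat_lit 5) 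
(.lf (nat_lit 68124740) (dlOf (nat_lit 1) (nat_lit 0xf80008400581))) 
(.lf (nat_lit 1343193188) (dlOf (nat_lit 1) (nat_lit 0x800008030400200b40008190d03)))) 
(.nd (nat_lit 23) 
(.lf (nat_lit 21987396) (dlOf (nat_lit 7) (nat_lit 0x40000001601001ae5e800939e00145b84002a99d0024000000068280126e5c0149d78009ce4e00517220029a6ac0125342000130c006c0000000201008c00000000808021b60c0220000000000400240018a80e81))) 
(.lf (nat_lit 13598788) (dlOf (nat_lit 3) (nat_lit 0x35e3180176f58000c20800cf8c6005bbd600000028730c00))))) 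
(.nd (nat_lit 11) 
(.lf (nat_lit 2752479812) (dlOf (nat_lit 7) (nat_lit 0x856401f02ae00024040002159000110100010ac8039855c000400800042b20001f0200ae1570000e81007c0ab8000700800d000800e800200a60008018d03))) 
(.lf (nat_lit 1345292868) (dlOf (nat_lit 1) (nat_lit 0x340028b55201)))))) (.nd (nat_lit 28) 
(.nd (nat_lit 10) (.nd (nat_lit 19) 
(.lf (nat_lit 37191748) (dlOf (nat_lit 1) (nat_lit 0x8008000400200ee00090b0603))) (.nd (nat_lit 21) 
(.lf (nat_lit 14647364) (dlOf (nat_lit 1) (nat_lit 0x3c00200020008770582))) 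
(.lf (nat_lit 16744516) (dlOf (nat_lit 1) (nat_lit 0x80080004002000200088e0003))))) 
(.nd (nat_lit 5) (.lf (nat_lit 37717188) (dlOf (nat_lit 1) (nat_lit 0x11c004001000190d2d02))) 
(.lf (nat_lit 47678564) (dlOf (nat_lit 1) (nat_lit 0x400400020009402982))))) (.nd (nat_lit 5) 
(.nd (nat_lit 9) (.nd (nat_lit 21) 
(.lf (nat_lit 1344241732) (dlOf (nat_lit 1) (nat_lit 0x400200060008520082))) 
(.lf (nat_lit 473923652) (dlOf (nat_lit 3) (nat_lit 0x2160000504e00087410004058001001b2004209c005f046800818200050008001000200160008fc0603)))) 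
(.lf (nat_lit 1346341444) (dlOf (nat_lit 9) (nat_lit 0xa881400882d000381450020067800102c8004c038006601a0002f870049102801806a400442d000161450012067801802c800b00e6000201c002400d0001744800785a4006c03a0005904002401d0002b8100080b4800a0074000a40800c42d2007601d0002582000b0b40000cc0801985a00070038000300400600018f05201)))) 
(.nd (nat_lit 19) 
(.lf (nat_lit 471302244) (dlOf (nat_lit 2) (nat_lit 0x2859400318040028004001200082e0482))) 
(.lf (nat_lit 473923684) (dlOf (nat_lit 2) (nat_lit 0x8c1b2000000200080008fc0981))))))) 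
(.nd (nat_lit 28) (.nd (nat_lit 10) (.nd (nat_lit 5) (.nd (nat_lit 9) (.nd (nat_lit 19) 
(.lf (nat_lit 1678213444) (dlOf (nat_lit 1) (nat_lit 0x80080004002000200081a0603))) 
(.lf (nat_lit 2755625284) (dlOf (nat_lit 1) (nat_lit 0x398008003c002008400081b0603)))) 
(.lf (nat_lit 19893060) (dlOf (nat_lit 1) (nat_lit 0x4002000200089d5c02)))) (.nd (nat_lit 21) 
(.lf (nat_lit 3288826212) (dlOf (nat_lit 1) (nat_lit 0x4002000400081b0702))) 
(.lf (nat_lit 23560548) (dlOf (nat_lit 1) (nat_lit 0x2e8008004400200020008b80703))))) 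
(.nd (nat_lit 21) (.nd (nat_lit 26) 
(.lf (nat_lit 492868) (dlOf (nat_lit 2) (nat_lit 0xf81500015018003300))) 
(.lf (nat_lit 604472644) (dlOf (nat_lit 2) (nat_lit 0x803000000040058004000a00082d3302)))) 
(.nd (nat_lit 5) (.lf (nat_lit 40338756) (dlOf (nat_lit 1) (nat_lit 0x1000291f3301))) 
(.lf (nat_lit 20421988) (dlOf (nat_lit 1) (nat_lit 0x400189dc901)))))) (.nd (nat_lit 5) 
(.nd (nat_lit 29) (.nd (nat_lit 19) (.nd (nat_lit 27) 
(.lf (nat_lit 2416410948) (dlOf (nat_lit 1) (nat_lit 0xd00080064002002c00081b0603))) 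
(.lf (nat_lit 2550628676) (dlOf (nat_lit 1) (nat_lit 0xd00080064002002c00081b0603)))) 
(.lf (nat_lit 3493822788) (dlOf (nat_lit 1) (nat_lit 0x398008003c002008400081b0603)))) 
(.nd (nat_lit 7) (.lf (nat_lit 805798212) (dlOf (nat_lit 1) (nat_lit 0x80080004002000200081a0603))) 
(.lf (nat_lit 872907204) (dlOf (nat_lit 1) (nat_lit 0x180080004002000600080f7a83))))) 
(.nd (nat_lit 10) (.nd (nat_lit 11) 
(.lf (nat_lit 4027023716) (dlOf (nat_lit 1) (nat_lit 0x4002000400081b0702))) 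
(.lf (nat_lit 472353124) (dlOf (nat_lit 2) (nat_lit 0x185340181c04003c004000a0008984e82)))) 
(.nd (nat_lit 7) (.lf (nat_lit 3490155876) (dlOf (nat_lit 1) (nat_lit 0x20018006a81))) 
(.lf (nat_lit 3492775908) (dlOf (nat_lit 1) (nat_lit 0x1c00080004002001a00080f4583)))))))))) 
(.nd (nat_lit 6) (.nd (nat_lit 5) (.nd (nat_lit 18) (.nd (nat_lit 26) (.nd (nat_lit 10) 
(.nd (nat_lit 19) (.nd (nat_lit 8) (.nd (nat_lit 20) (.nd (nat_lit 21) (.nd (nat_lit 27) 
(.lf (nat_lit 1342406676) (dlOf (nat_lit 7) (nat_lit 0x621cd000ef8100390e68007740801a87340039604005c39a001a40200621cd000cd8100310e68005ec080008008001400200560008020483))) 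
(.lf (nat_lit 134447124) (dlOf (nat_lit 3) (nat_lit 0x16c02f000dd0100a3017800638080040008002000200240008020483)))) 
(.lf (nat_lit 2326548) (dlOf (nat_lit 2) (nat_lit 0xce160049d018150000)))) (.nd (nat_lit 21) 
(.lf (nat_lit 1343455252) (dlOf (nat_lit 1) (nat_lit 0x64004001a0008250502))) 
(.lf (nat_lit 15958036) (dlOf (nat_lit 2) (nat_lit 0x3cb040001f0200060018850501))))) 
(.nd (nat_lit 7) (.nd (nat_lit 9) 
(.lf (nat_lit 3355672852) (dlOf (nat_lit 1) (nat_lit 0x200280b4a01))) 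
(.lf (nat_lit 5100505876) (dlOf (nat_lit 1) (nat_lit 0x8004000200080d5b82)))) 
(.lf (nat_lit 62095764) (dlOf (nat_lit 3) (nat_lit 0x206480018098009cd04000c192000802600272810011000800e000200080009956483))))) 
(.nd (nat_lit 29) (.nd (nat_lit 9) 
(.lf (nat_lit 1802260) (dlOf (nat_lit 4) (nat_lit 0x1cc170024600002929f8000200c005982e0018c00001153f00003c18000a9b40001c040024004000e0018140402))) 
(.lf (nat_lit 51085844) (dlOf (nat_lit 8) (nat_lit 0x6b7c00014e68001dc100012df4000ec04000d6fa00071020008b7d000380100035be80018c080012df4000c20400216fa0000002000c00194f7d01)))) 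
(.nd (nat_lit 27) 
(.lf (nat_lit 537624596) (dlOf (nat_lit 24) (nat_lit 0x3080b802a2059013d0258060809002ac0420004e0a017405c014f02c8061809002e80420004d0800be059000260100bb02580011c08115012c0008c040758096000450200b00590002201010702e009c816405800960226024011601080010c28071817004880b201e602400f701080010820017817c025c060000410401ae05f01050180001001001300c00007e0402280b800020590029012001280840007c1000d40be01ea05c007b02c80630090000781000900be01f005c007b02c800f00c0031c0480003b0a006a05f0001d01012402f8018017003c40b202040300001c04001e02f804b017000640b200a00240001b8400d702e008601640388048000330601fa05f00030168000c810028017c000620400f00be001c02d0001782000202f8000b8080ad80080308002019800080e0183))) 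
(.lf (nat_lit 2819325972) (dlOf (nat_lit 3) (nat_lit 0xd0218002fc0800981180000004008c00400060008240382)))))) 
(.nd (nat_lit 8) (.nd (nat_lit 25) (.nd (nat_lit 12) 
(.lf (nat_lit 5234721940) (dlOf (nat_lit 1) (nat_lit 0x200180d2b81))) 
(.lf (nat_lit 2281936020) (dlOf (nat_lit 1) (nat_lit 0x180080004002000600080a9503)))) 
(.nd (nat_lit 7) (.lf (nat_lit 36406292) (dlOf (nat_lit 1) (nat_lit 0x20019072881))) 
(.lf (nat_lit 51610772) (dlOf (nat_lit 1) (nat_lit 0x80019512b81))))) (.nd (nat_lit 7) 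
(.lf (nat_lit 8099092) (dlOf (nat_lit 1) (nat_lit 0x400400020008519682))) (.nd (nat_lit 9) 
(.lf (nat_lit 53183892) (dlOf (nat_lit 1) (nat_lit 0x400400020009573602))) 
(.lf (nat_lit 8624020) (dlOf (nat_lit 1) (nat_lit 0x40020002000851a302))))))) (.nd (nat_lit 31) 
(.nd (nat_lit 9) (.nd (nat_lit 19) (.nd (nat_lit 28) 
(.lf (nat_lit 1812168724) (dlOf (nat_lit 5) (nat_lit 0x2013001430080010098009420400a80160006000000e582002d005800000080030008004800200320008160483))) 
(.lf (nat_lit 469991444) (dlOf (nat_lit 5) (nat_lit 0x8a0e6800480080498734002380401b839a0011a02010c1cd00077818020480)))) 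
(.lf (nat_lit 1410039828) (dlOf (nat_lit 24) (nat_lit 0x3080b802a2059013d0258060809002ac0420004e0a017405c014f02c8061809002e80420004d0800be059000260100bb02580011c08115012c0008c040758096000450200b00590002201010702e009c816405800960226024011601080010c28071817004880b201e602400f701080010820017817c025c060000410401ae05f01050180001001001300c00007e0402280b800020590029012001280840007c1000d40be01ea05c007b02c80630090000781000900be01f005c007b02c800f00c0031c0480003b0a006a05f0001d01012402f8018017003c40b202040300001c04001e02f804b017000640b200a00240001b8400d702e008601640388048000330601fa05f00030168000c810028017c000620400f00be001c02d0001782000202f8000b8080ad80080308002019800080e0183)))) 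
(.nd (nat_lit 7) (.lf (nat_lit 4899179284) (dlOf (nat_lit 1) (nat_lit 0x4004000200080d5b82))) 
(.nd (nat_lit 8) 
(.lf (nat_lit 738429588) (dlOf (nat_lit 2) (nat_lit 0x400e80006c0800e80080018002000e0008095503))) 
(.lf (nat_lit 4899179412) (dlOf (nat_lit 1) (nat_lit 0xa00080d5c81)))))) (.nd (nat_lit 7) 
(.nd (nat_lit 8) (.nd (nat_lit 10) 
(.lf (nat_lit 2483257364) (dlOf (nat_lit 1) (nat_lit 0x32400400a80008090002))) 
(.lf (nat_lit 2751693844) (dlOf (nat_lit 1) (nat_lit 0x20008002881)))) 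
(.lf (nat_lit 2751694612) (dlOf (nat_lit 2) (nat_lit 0x1602c400d010e0002304000a0028003c01)))) 
(.nd (nat_lit 8) 
(.lf (nat_lit 2349039764) (dlOf (nat_lit 3) (nat_lit 0x3801e0004002001e00f0001f818090180))) 
(.lf (nat_lit 2754840980) (dlOf (nat_lit 1) (nat_lit 0x4002000200080f4e82))))))) (.nd (nat_lit 7) 
(.nd (nat_lit 20) (.nd (nat_lit 22) (.nd (nat_lit 26) (.nd (nat_lit 9) (.nd (nat_lit 25) 
(.lf (nat_lit 5906071572) (dlOf (nat_lit 1) (nat_lit 0x20018190a01))) 
(.lf (nat_lit 34045972) (dlOf (nat_lit 1) (nat_lit 0x400400020008fa0482)))) 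
(.lf (nat_lit 1476889108) (dlOf (nat_lit 4) (nat_lit 0x2005a000c01d00010000000181800280b4000c03a0000504001402d000700e80010000000000c0024002000600082d5082)))) 
(.nd (nat_lit 27) (.lf (nat_lit 6510051348) (dlOf (nat_lit 1) (nat_lit 0x20018190a01))) 
(.lf (nat_lit 738689044) (dlOf (nat_lit 14) (nat_lit 0xa053000501b801c00d4000404400064080054055000701b800180100050150000c03c000280401420530044027801600d4021c042001a01f007b00e802c8060004000000024100026053000301080050074000460c01d40a6008004f002801a803f8084014403a001e00000011060009010800074080010154003c0a80002037000b00f00006420010015400380a8006a0370000c03001802a800200dc0002c0800f00aa0016054003f01b80028088003803c000140a007a0370000281000e01b80000008040000800e4002004e00080e0283))))) 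
(.nd (nat_lit 19) 
(.lf (nat_lit 13074452) (dlOf (nat_lit 2) (nat_lit 0x153430000b0080078008009c002000200086f0183))) 
(.lf (nat_lit 13598740) (dlOf (nat_lit 3) (nat_lit 0x2f7a600d7f020019bd3006bf018730880))))) 
(.nd (nat_lit 21) (.nd (nat_lit 19) (.nd (nat_lit 22) 
(.lf (nat_lit 1343717396) (dlOf (nat_lit 1) (nat_lit 0x100018340401))) 
(.lf (nat_lit 5734420) (dlOf (nat_lit 1) (nat_lit 0x200183d0481)))) 
(.lf (nat_lit 14647316) (dlOf (nat_lit 4) (nat_lit 0x22f432001ed020071a19000f581002b0000007a80801b800802f0002008c0008770083)))) 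
(.nd (nat_lit 25) 
(.lf (nat_lit 2755100692) (dlOf (nat_lit 2) (nat_lit 0x180d200080440009010001704180010008000400200180008110483))) 
(.lf (nat_lit 37191700) (dlOf (nat_lit 1) (nat_lit 0x3400290b0081)))))) (.nd (nat_lit 10) 
(.nd (nat_lit 19) (.nd (nat_lit 26) 
(.lf (nat_lit 134709652) (dlOf (nat_lit 2) (nat_lit 0x100ec00e8204001400400080008090782))) 
(.lf (nat_lit 201818516) (dlOf (nat_lit 2) (nat_lit 0x100ec019d404001400400080008090782)))) 
(.nd (nat_lit 9) (.lf (nat_lit 24084884) (dlOf (nat_lit 1) (nat_lit 0x20018b80781))) 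
(.lf (nat_lit 46107540) (dlOf (nat_lit 1) (nat_lit 0x80029385c81))))) (.nd (nat_lit 8) 
(.nd (nat_lit 9) (.lf (nat_lit 31425684) (dlOf (nat_lit 1) (nat_lit 0x400400020008e92b82))) 
(.lf (nat_lit 19895956) (dlOf (nat_lit 1) (nat_lit 0x4002000200089d9e82)))) 
(.lf (nat_lit 61834644) (dlOf (nat_lit 1) (nat_lit 0x20029923601))))))) (.nd (nat_lit 18) 
(.nd (nat_lit 30) (.nd (nat_lit 8) (.nd (nat_lit 19) (.nd (nat_lit 9) (.nd (nat_lit 20) 
(.lf (nat_lit 939753524) (dlOf (nat_lit 2) (nat_lit 0xe013000280880001608002000400900018160602))) 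
(.lf (nat_lit 2752741428) (dlOf (nat_lit 2) (nat_lit 0x31072800734080020008000800200080008030d03)))) 
(.lf (nat_lit 6509792820) (dlOf (nat_lit 1) (nat_lit 0x400200020008147182)))) (.nd (nat_lit 26) 
(.lf (nat_lit 2850868) (dlOf (nat_lit 3) (nat_lit 0x8000000e38100360000006f40800400080050002002a00081c0b83))) 
(.lf (nat_lit 2754314292) (dlOf (nat_lit 2) (nat_lit 0x500fe8004079c003a2080014004000200080d0b82))))) 
(.nd (nat_lit 7) (.nd (nat_lit 23) 
(.lf (nat_lit 738951476) (dlOf (nat_lit 1) (nat_lit 0x20018167b01))) 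
(.lf (nat_lit 9142580) (dlOf (nat_lit 1) (nat_lit 0x80028525c01)))) (.nd (nat_lit 19) 
(.nd (nat_lit 20) 
(.lf (nat_lit 537100724) (dlOf (nat_lit 1) (nat_lit 0x10008000400200020008017783))) 
(.lf (nat_lit 9666996) (dlOf (nat_lit 1) (nat_lit 0x20018577781)))) 
(.lf (nat_lit 8094132) (dlOf (nat_lit 1) (nat_lit 0x400200020008511002)))))) (.nd (nat_lit 31) 
(.nd (nat_lit 26) (.nd (nat_lit 7) 
(.lf (nat_lit 6308462644) (dlOf (nat_lit 1) (nat_lit 0x2000180c0681))) 
(.lf (nat_lit 5637375412) (dlOf (nat_lit 1) (nat_lit 0x3800280d3601)))) (.nd (nat_lit 9) 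
(.nd (nat_lit 27) (.lf (nat_lit 5704482868) (dlOf (nat_lit 1) (nat_lit 0x2000180c0681))) 
(.lf (nat_lit 1812168756) (dlOf (nat_lit 2) (nat_lit 0xe013000280880001608002000400900018160602)))) 
(.lf (nat_lit 6107138612) (dlOf (nat_lit 1) (nat_lit 0x60008095181))))) (.nd (nat_lit 8) 
(.nd (nat_lit 19) 
(.lf (nat_lit 3490938932) (dlOf (nat_lit 2) (nat_lit 0x3105a800734080020008000800200080008030d03))) 
(.lf (nat_lit 3492511796) (dlOf (nat_lit 2) (nat_lit 0x500f580040748003a2080014004000200080d0b82)))) 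
(.nd (nat_lit 7) (.lf (nat_lit 3489897268) (dlOf (nat_lit 1) (nat_lit 0x2001800bc81))) 
(.lf (nat_lit 3489897908) (dlOf (nat_lit 2) (nat_lit 0x1987f0000000400080040010000800cc82))))))) 
(.nd (nat_lit 19) (.nd (nat_lit 21) (.nd (nat_lit 20) (.nd (nat_lit 7) (.nd (nat_lit 26) 
(.lf (nat_lit 1611104308) (dlOf (nat_lit 3) (nat_lit 0x702100030104001c072001002a004e68400080150027280801400080018002002000080e1003))) 
(.lf (nat_lit 738689076) (dlOf (nat_lit 3) (nat_lit 0x702100030104001c072001002a0021b0400080150010cc0801400080018002002000080e1003)))) 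
(.lf (nat_lit 3624370356) (dlOf (nat_lit 1) (nat_lit 0x8008000400200020008184f03)))) 
(.nd (nat_lit 23) 
(.lf (nat_lit 4095180852) (dlOf (nat_lit 3) (nat_lit 0x3ac2bc0024302005415e005a0000008fc1001d0008000800200180008070483))) 
(.lf (nat_lit 9928756) (dlOf (nat_lit 5) (nat_lit 0x10758002039400141c5000a0bc002df8200020758002039400141c5000a0bc002df4200048758002c39400161c5000a0bc002df0200028758001439400141c500090bc002de4200020008000800200340008591003))))) 
(.nd (nat_lit 20) (.nd (nat_lit 7) (.nd (nat_lit 22) 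
(.lf (nat_lit 2754052148) (dlOf (nat_lit 1) (nat_lit 0x80080010002000400080b1283))) 
(.lf (nat_lit 15171636) (dlOf (nat_lit 1) (nat_lit 0x1600087c0781)))) 
(.lf (nat_lit 1344768436) (dlOf (nat_lit 1) (nat_lit 0x80004000c0008984e82)))) (.nd (nat_lit 26) 
(.lf (nat_lit 3493298228) (dlOf (nat_lit 1) (nat_lit 0xc00400080008110602))) 
(.lf (nat_lit 2755100724) (dlOf (nat_lit 1) (nat_lit 0xc00400080008110602)))))) (.nd (nat_lit 9) 
(.nd (nat_lit 23) (.nd (nat_lit 24) 
(.lf (nat_lit 5210164) (dlOf (nat_lit 1) (nat_lit 0x100008320781))) 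
(.lf (nat_lit 21987380) (dlOf (nat_lit 2) (nat_lit 0xa4d0f000e3818a80d00)))) 
(.lf (nat_lit 13598772) (dlOf (nat_lit 2) (nat_lit 0x1efc6300f7deb0007341001c00080008002003a0008730b83)))) 
(.nd (nat_lit 11) (.nd (nat_lit 26) 
(.lf (nat_lit 3490677300) (dlOf (nat_lit 2) (nat_lit 0x21580000f018018080))) 
(.lf (nat_lit 2752479796) (dlOf (nat_lit 1) (nat_lit 0x20018018b01)))) (.nd (nat_lit 8) 
(.lf (nat_lit 19892788) (dlOf (nat_lit 1) (nat_lit 0x4004000400089d5182))) 
(.lf (nat_lit 19893044) (dlOf (nat_lit 1) (nat_lit 0x4002000200089d5c02))))))))) (.nd (nat_lit 5) 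
(.nd (nat_lit 28) (.nd (nat_lit 18) (.nd (nat_lit 29) (.nd (nat_lit 7) (.nd (nat_lit 26) 
(.nd (nat_lit 19) 
(.lf (nat_lit 63144020) (dlOf (nat_lit 2) (nat_lit 0x1426a0000640800400080014002001400099e0783))) 
(.lf (nat_lit 2850900) (dlOf (nat_lit 2) (nat_lit 0x11800000000040004002000200081c0d82)))) 
(.nd (nat_lit 20) 
(.lf (nat_lit 1141080148) (dlOf (nat_lit 1) (nat_lit 0x80080004002001c00080b0683))) 
(.lf (nat_lit 68386900) (dlOf (nat_lit 2) (nat_lit 0xc01700000002000a0028570281))))) 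
(.nd (nat_lit 19) (.lf (nat_lit 3355672788) (dlOf (nat_lit 1) (nat_lit 0x10c00180b3c81))) 
(.lf (nat_lit 25919700) (dlOf (nat_lit 1) (nat_lit 0x40028c10501))))) (.nd (nat_lit 26) 
(.nd (nat_lit 7) (.nd (nat_lit 27) 
(.lf (nat_lit 537100628) (dlOf (nat_lit 2) (nat_lit 0x400000011818014d80))) 
(.lf (nat_lit 671318356) (dlOf (nat_lit 3) (nat_lit 0xb00980040036002200300020000000a02000d009800240360040003000e000801380000004c1400e000200a00008154d82)))) 
(.lf (nat_lit 4832069076) (dlOf (nat_lit 1) (nat_lit 0x80080034002001000080d3603)))) 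
(.nd (nat_lit 8) 
(.lf (nat_lit 2754314324) (dlOf (nat_lit 3) (nat_lit 0x503f800281e60001482000f0fe00009c0801a8008009c002004a00080d0d83))) 
(.nd (nat_lit 9) (.lf (nat_lit 1677951316) (dlOf (nat_lit 1) (nat_lit 0x2000400100008124d82))) 
(.lf (nat_lit 4899179348) (dlOf (nat_lit 1) (nat_lit 0x14c00080d5c01))))))) (.nd (nat_lit 19) 
(.nd (nat_lit 20) (.nd (nat_lit 8) (.nd (nat_lit 21) 
(.lf (nat_lit 3892805716) (dlOf (nat_lit 2) (nat_lit 0x400510005012000180740006c0c002c004003e0018280282))) 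
(.lf (nat_lit 48726100) (dlOf (nat_lit 1) (nat_lit 0x20019420781)))) 
(.lf (nat_lit 25657684) (dlOf (nat_lit 1) (nat_lit 0x680080024002000e0008c10883)))) 
(.nd (nat_lit 25) (.lf (nat_lit 3637332) (dlOf (nat_lit 1) (nat_lit 0x400200020008211082))) 
(.lf (nat_lit 37191764) (dlOf (nat_lit 1) (nat_lit 0x400290b0781))))) (.nd (nat_lit 9) 
(.nd (nat_lit 20) (.lf (nat_lit 21987412) (dlOf (nat_lit 1) (nat_lit 0x20028a81081))) 
(.nd (nat_lit 21) 
(.lf (nat_lit 14647380) (dlOf (nat_lit 2) (nat_lit 0x2cd0c8000a8080010008000400200400008770783))) 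
(.lf (nat_lit 16744532) (dlOf (nat_lit 1) (nat_lit 0x200188e0281))))) (.nd (nat_lit 7) 
(.lf (nat_lit 19890772) (dlOf (nat_lit 1) (nat_lit 0x200089d1681))) 
(.lf (nat_lit 8357844) (dlOf (nat_lit 1) (nat_lit 0x28008002c00200060008514503))))))) 
(.nd (nat_lit 30) (.nd (nat_lit 27) (.nd (nat_lit 7) (.nd (nat_lit 8) 
(.lf (nat_lit 5100503124) (dlOf (nat_lit 1) (nat_lit 0x4004000400180d0002))) 
(.lf (nat_lit 5100505940) (dlOf (nat_lit 1) (nat_lit 0xdc002014a00080d5c02)))) (.nd (nat_lit 8) 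
(.lf (nat_lit 5167613140) (dlOf (nat_lit 1) (nat_lit 0x20004000800080d2d82))) 
(.lf (nat_lit 805536212) (dlOf (nat_lit 1) (nat_lit 0xa4004000e0008127102))))) (.nd (nat_lit 29) 
(.nd (nat_lit 26) 
(.lf (nat_lit 4697849940) (dlOf (nat_lit 1) (nat_lit 0x40008002c002001400080a1783))) 
(.lf (nat_lit 469991508) (dlOf (nat_lit 5) (nat_lit 0x2943a200121cd0057c8200b20e8802be0080580744003439a00aef04014c1d100040e6802bb8100020008002000200300008020903)))) 
(.nd (nat_lit 7) 
(.lf (nat_lit 939753556) (dlOf (nat_lit 3) (nat_lit 0x2004c00420000057782000b011000b8000015dc0800b8002004c0008160902))) 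
(.lf (nat_lit 5234722260) (dlOf (nat_lit 1) (nat_lit 0x80080040002000a00080d3603)))))) 
(.nd (nat_lit 32) (.nd (nat_lit 18) (.nd (nat_lit 19) 
(.lf (nat_lit 2013495380) (dlOf (nat_lit 1) (nat_lit 0x80080004002001c00080b0683))) 
(.lf (nat_lit 3492511828) (dlOf (nat_lit 3) (nat_lit 0x503d400281d10001482000f0f500009c0801a8008009c002004a00080d0d83)))) 
(.nd (nat_lit 9) 
(.lf (nat_lit 4095180884) (dlOf (nat_lit 2) (nat_lit 0x3105780000c0400a800400020008070682))) 
(.lf (nat_lit 1344768596) (dlOf (nat_lit 4) (nat_lit 0x181680000e8100030b40000400800305980001004002000400940018985302))))) 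
(.nd (nat_lit 19) (.nd (nat_lit 7) 
(.lf (nat_lit 5637636180) (dlOf (nat_lit 1) (nat_lit 0x400400020008131702))) 
(.lf (nat_lit 5637375188) (dlOf (nat_lit 1) (nat_lit 0x4004000200080d2d82)))) (.nd (nat_lit 26) 
(.lf (nat_lit 5773164628) (dlOf (nat_lit 1) (nat_lit 0x200280b0681))) 
(.lf (nat_lit 6377144404) (dlOf (nat_lit 1) (nat_lit 0x200280b0681)))))))) (.nd (nat_lit 18) 
(.nd (nat_lit 29) (.nd (nat_lit 10) (.nd (nat_lit 7) (.nd (nat_lit 9) (.nd (nat_lit 21) 
(.lf (nat_lit 3494084724) (dlOf (nat_lit 2) (nat_lit 0x4c20e000a0ef001240281b0080))) 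
(.lf (nat_lit 44269684) (dlOf (nat_lit 5) (nat_lit 0x16a48000351d0007a898001d25c0000e10001aa48000751d0004a898002525c0000c100026a48000b51d0009a898004525c00008100026a48000951d000aa898003525c00002100008002000600092e0d82)))) 
(.lf (nat_lit 5503158900) (dlOf (nat_lit 1) (nat_lit 0x400200020008095402)))) (.nd (nat_lit 20) 
(.lf (nat_lit 56852724) (dlOf (nat_lit 1) (nat_lit 0x800200040009772482))) 
(.lf (nat_lit 28541172) (dlOf (nat_lit 1) (nat_lit 0x628008001800200020008da0603))))) 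
(.nd (nat_lit 8) (.nd (nat_lit 9) 
(.lf (nat_lit 5772641524) (dlOf (nat_lit 1) (nat_lit 0x400200020008092e82))) 
(.lf (nat_lit 8095476) (dlOf (nat_lit 1) (nat_lit 0x8008002400200100008513b83)))) (.nd (nat_lit 11) 
(.lf (nat_lit 5637375476) (dlOf (nat_lit 1) (nat_lit 0x58004000200180d3602))) 
(.lf (nat_lit 3624111604) (dlOf (nat_lit 5) (nat_lit 0x6044001f020800480000002a0c0004038000140200060410003000000014100020104000c000000040400060008146f01)))))) 
(.nd (nat_lit 8) (.nd (nat_lit 7) (.nd (nat_lit 9) 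
(.lf (nat_lit 2755887220) (dlOf (nat_lit 2) (nat_lit 0x18a000001180181b0080))) 
(.lf (nat_lit 5167613556) (dlOf (nat_lit 1) (nat_lit 0x4004000200180d3982)))) (.nd (nat_lit 21) 
(.lf (nat_lit 1879802100) (dlOf (nat_lit 1) (nat_lit 0x40008001000200020008370603))) 
(.lf (nat_lit 1009484020) (dlOf (nat_lit 1) (nat_lit 0x4004005600091a2482))))) (.nd (nat_lit 10) 
(.nd (nat_lit 7) (.lf (nat_lit 4832067956) (dlOf (nat_lit 1) (nat_lit 0x4004000600080d1002))) 
(.lf (nat_lit 3087237620) (dlOf (nat_lit 2) (nat_lit 0x40160002e02000c0028157e01)))) 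
(.nd (nat_lit 12) 
(.lf (nat_lit 5167613428) (dlOf (nat_lit 2) (nat_lit 0x48098002ac040004004000200180d3602))) 
(.lf (nat_lit 4160984564) (dlOf (nat_lit 1) (nat_lit 0x1000180a9c01))))))) (.nd (nat_lit 8) 
(.nd (nat_lit 19) (.nd (nat_lit 29) (.nd (nat_lit 21) 
(.lf (nat_lit 4362567924) (dlOf (nat_lit 1) (nat_lit 0x80008090481))) 
(.lf (nat_lit 48726260) (dlOf (nat_lit 1) (nat_lit 0xa0009422481)))) (.nd (nat_lit 7) 
(.lf (nat_lit 604472436) (dlOf (nat_lit 4) (nat_lit 0xc03c00080118000581000500700002a040030084000203f000e01e000080e4000406c000e023000700e0000503800200080038002000a00082d2a03))) 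
(.lf (nat_lit 4228350196) (dlOf (nat_lit 1) (nat_lit 0x80008090481))))) (.nd (nat_lit 20) 
(.nd (nat_lit 21) (.lf (nat_lit 38764788) (dlOf (nat_lit 1) (nat_lit 0x75800200740009152482))) 
(.lf (nat_lit 24084724) (dlOf (nat_lit 1) (nat_lit 0xc0018b80481)))) 
(.lf (nat_lit 69173492) (dlOf (nat_lit 1) (nat_lit 0x14004000200088c2482))))) (.nd (nat_lit 19) 
(.nd (nat_lit 7) (.lf (nat_lit 493428) (dlOf (nat_lit 1) (nat_lit 0x400400020018004082))) 
(.nd (nat_lit 31) 
(.lf (nat_lit 604472308) (dlOf (nat_lit 1) (nat_lit 0x80080004002000200082d2883))) 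
(.lf (nat_lit 2751955956) (dlOf (nat_lit 1) (nat_lit 0x1c00400020018002882))))) (.nd (nat_lit 9) 
(.nd (nat_lit 10) 
(.lf (nat_lit 2752479732) (dlOf (nat_lit 3) (nat_lit 0xc41f80001101007f0fc0000700802b8008005c00200b60008017e03))) 
(.lf (nat_lit 8357364) (dlOf (nat_lit 1) (nat_lit 0x8008000400200020008513603)))) 
(.lf (nat_lit 3492774900) (dlOf (nat_lit 1) (nat_lit 0x200180f2881)))))))))))

end

end Pool.Agent.Lib.MP_5854e1_co.Cz

namespace Pool.Agent.Lib.MP_5854e1_co.Cz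

noncomputable section

noncomputable def tz15 : DT := (.nd (nat_lit 17) (.nd (nat_lit 4) (.nd (nat_lit 5) (.nd (nat_lit 6) 
(.nd (nat_lit 18) (.nd (nat_lit 7) (.nd (nat_lit 19) (.nd (nat_lit 27) (.nd (nat_lit 20) 
(.nd (nat_lit 9) (.lf (nat_lit 16883716) (dlOf (nat_lit 1) (nat_lit 0x600188e0001))) 
(.lf (nat_lit 3491865092) (dlOf (nat_lit 1) (nat_lit 0x800401200008090d82)))) (.nd (nat_lit 21) 
(.lf (nat_lit 22126596) (dlOf (nat_lit 1) (nat_lit 0x20018a90001))) 
(.lf (nat_lit 28418052) (dlOf (nat_lit 3) (nat_lit 0x1ac8600572010007643002648080228008004400200360008d90003))))) 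
(.nd (nat_lit 10) (.nd (nat_lit 11) 
(.lf (nat_lit 2281807876) (dlOf (nat_lit 1) (nat_lit 0x400400040008030002))) 
(.lf (nat_lit 201439236) (dlOf (nat_lit 1) (nat_lit 0x400040008000800a602)))) (.nd (nat_lit 8) 
(.lf (nat_lit 4697728004) (dlOf (nat_lit 1) (nat_lit 0x2e0028092881))) 
(.lf (nat_lit 4697728260) (dlOf (nat_lit 1) (nat_lit 0x20028092f01)))))) (.nd (nat_lit 21) 
(.nd (nat_lit 27) (.nd (nat_lit 9) 
(.lf (nat_lit 1342808068) (dlOf (nat_lit 1) (nat_lit 0x74002003600080d0002))) 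
(.lf (nat_lit 634372) (dlOf (nat_lit 1) (nat_lit 0x20018007001)))) (.nd (nat_lit 26) 
(.lf (nat_lit 2819203076) (dlOf (nat_lit 1) (nat_lit 0x840008000400201a600081e0003))) 
(.lf (nat_lit 470392836) (dlOf (nat_lit 1) (nat_lit 0x74002003600080d0002))))) (.nd (nat_lit 26) 
(.nd (nat_lit 8) (.lf (nat_lit 3493437444) (dlOf (nat_lit 1) (nat_lit 0x500008140001))) 
(.lf (nat_lit 20553988) (dlOf (nat_lit 1) (nat_lit 0x80080004002000200089d0a83)))) 
(.nd (nat_lit 20) (.lf (nat_lit 4096368644) (dlOf (nat_lit 1) (nat_lit 0x20028100001))) 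
(.lf (nat_lit 2755239940) (dlOf (nat_lit 1) (nat_lit 0x500008140001))))))) (.nd (nat_lit 32) 
(.nd (nat_lit 21) (.nd (nat_lit 9) (.nd (nat_lit 26) 
(.lf (nat_lit 805412996) (dlOf (nat_lit 4) (nat_lit 0xf02600058120002408e001e0350011012800d8090000621805c809802e2048016e02380b880d400a406802c2025016a012005c80500005e200034098001c03500010128000b8180210008116c00200560008090103))) 
(.lf (nat_lit 1677828228) (dlOf (nat_lit 4) (nat_lit 0xf02600058120002408e001e0350011012800d8090000621805c809802e2048016e02380b880d400a406802c2025016a012005c80500005e200034098001c03500010128000b8180210008116c00200560008090103)))) 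
(.lf (nat_lit 1208068740) (dlOf (nat_lit 1) (nat_lit 0x4d80080004002008e0008095483)))) 
(.nd (nat_lit 19) (.nd (nat_lit 20) 
(.lf (nat_lit 44146820) (dlOf (nat_lit 1) (nat_lit 0xa00292d0e01))) 
(.lf (nat_lit 3252356) (dlOf (nat_lit 2) (nat_lit 0xa56d00025018200100)))) 
(.lf (nat_lit 12165252) (dlOf (nat_lit 1) (nat_lit 0x4002000200086c0102))))) (.nd (nat_lit 11) 
(.nd (nat_lit 19) (.nd (nat_lit 29) 
(.lf (nat_lit 5503033476) (dlOf (nat_lit 4) (nat_lit 0x8054000402800020110026008000380380006a14000802800060130001008800180400006810001402800060130001008800300380005410009000400460018030e02))) 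
(.lf (nat_lit 4966162564) (dlOf (nat_lit 1) (nat_lit 0x60028030e01)))) 
(.lf (nat_lit 6375972996) (dlOf (nat_lit 12) (nat_lit 0xb805000039020004028000d0128009008c0068040005e0180001a850002013000b809400680460002022003400c0000d02801580a00005a040034050000c026000b01280070060000541003cc050000150202ae0280000981002f0140000400800580a0001c04a0000c04019c028000058100ec014000028080968008007000200280008030e03)))) 
(.nd (nat_lit 9) (.lf (nat_lit 6442559620) (dlOf (nat_lit 1) (nat_lit 0x1200180f4781))) 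
(.lf (nat_lit 4563511940) (dlOf (nat_lit 1) (nat_lit 0x400400020008095482))))))) (.nd (nat_lit 26) 
(.nd (nat_lit 19) (.nd (nat_lit 28) (.nd (nat_lit 8) (.nd (nat_lit 31) (.nd (nat_lit 20) 
(.lf (nat_lit 2465796) (dlOf (nat_lit 2) (nat_lit 0x387240165204003000400200008160002))) 
(.lf (nat_lit 18194436) (dlOf (nat_lit 2) (nat_lit 0x7f19c0000004000800400060018920002)))) 
(.nd (nat_lit 27) 
(.lf (nat_lit 6442819588) (dlOf (nat_lit 6) (nat_lit 0x480620004023000301100304c1800300400182204000802000c10020006032005948100020170000000804000080040002000800081c0003))) 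
(.lf (nat_lit 3355811844) (dlOf (nat_lit 2) (nat_lit 0xc802000000018120000))))) (.nd (nat_lit 7) 
(.lf (nat_lit 29729028) (dlOf (nat_lit 1) (nat_lit 0x20028e30701))) 
(.lf (nat_lit 46508932) (dlOf (nat_lit 1) (nat_lit 0x200019385c01))))) (.nd (nat_lit 29) 
(.nd (nat_lit 7) (.lf (nat_lit 4697989124) (dlOf (nat_lit 1) (nat_lit 0x200180d0001))) 
(.lf (nat_lit 3490032004) (dlOf (nat_lit 1) (nat_lit 0x20018004e81)))) (.nd (nat_lit 30) 
(.nd (nat_lit 31) 
(.lf (nat_lit 805675012) (dlOf (nat_lit 3) (nat_lit 0x1c0880151302003e04400a4b818180000))) 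
(.lf (nat_lit 2953158660) (dlOf (nat_lit 7) (nat_lit 0xa02e000a015000200a4001004e000c021000501000020078000c030000a017000800880030000017aa2c00d005c007202a00330148019809c00d00420068020003200f0019006000cc02e006c0110034000002f505800300b80028054000a0290005013800380840018040000a01e000400c0003005c0024022000e000005e78b0001017000480a800100520002027000501080020080001c03c000c018000600b800580440179c28002405c001c02a00080148004009c00240420010020000700f00030060002002e00160110009000002f245800300b80028054001402700070108005007800240300010011000a000002f204000080080010002000200081b0003)))) 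
(.lf (nat_lit 1879416836) (dlOf (nat_lit 1) (nat_lit 0x80028130001)))))) (.nd (nat_lit 20) 
(.nd (nat_lit 21) (.lf (nat_lit 9281540) (dlOf (nat_lit 1) (nat_lit 0xa0028540281))) 
(.lf (nat_lit 2990084) (dlOf (nat_lit 3) (nat_lit 0x3cd04000866b000c2748009936002a2810003cd04001666b000c274800a13600293010002c004002000081f0002)))) 
(.nd (nat_lit 22) (.nd (nat_lit 21) 
(.lf (nat_lit 1941508) (dlOf (nat_lit 1) (nat_lit 0x8008000800200020008150003))) 
(.lf (nat_lit 4038660) (dlOf (nat_lit 1) (nat_lit 0x1c00400020008270002)))) (.nd (nat_lit 23) 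
(.lf (nat_lit 22913028) (dlOf (nat_lit 1) (nat_lit 0x20028b40001))) 
(.lf (nat_lit 14524420) (dlOf (nat_lit 2) (nat_lit 0x20cea015250200240018760001))))))) 
(.nd (nat_lit 27) (.nd (nat_lit 19) (.nd (nat_lit 31) (.nd (nat_lit 30) 
(.lf (nat_lit 4899315716) (dlOf (nat_lit 1) (nat_lit 0x240018100001))) 
(.lf (nat_lit 1678090244) (dlOf (nat_lit 3) (nat_lit 0x1c0880168202003e04400afd818180000)))) 
(.nd (nat_lit 9) (.lf (nat_lit 3020267524) (dlOf (nat_lit 1) (nat_lit 0x9000181e0001))) 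
(.lf (nat_lit 2754981380) (dlOf (nat_lit 1) (nat_lit 0x4002000200080f7002))))) (.nd (nat_lit 8) 
(.nd (nat_lit 10) (.lf (nat_lit 4096630788) (dlOf (nat_lit 1) (nat_lit 0x40008140001))) 
(.lf (nat_lit 69051396) (dlOf (nat_lit 1) (nat_lit 0x4002000200088a2882)))) 
(.lf (nat_lit 70099204) (dlOf (nat_lit 1) (nat_lit 0x40018ec0a81))))) (.nd (nat_lit 30) 
(.nd (nat_lit 31) (.nd (nat_lit 22) 
(.lf (nat_lit 1007001604) (dlOf (nat_lit 1) (nat_lit 0x80028130001))) 
(.lf (nat_lit 474324996) (dlOf (nat_lit 1) (nat_lit 0x520029150001)))) (.nd (nat_lit 7) 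
(.lf (nat_lit 2617614340) (dlOf (nat_lit 24) (nat_lit 0x1100580095802002802c00160150023a81000480bc00e800401b005e000802e0039982008d017801c280802d00bc00e100401f405e0070702012002f0011017001bf41002700bc00dec0400f405e006ef02009c02f0036781005a017801ad80801d00bc00d6804017005e006b302007a02f00356810084017801a8c0804200bc00d3404024005e0069302012802f001f0010076017800f780800980bc000c058003dd04001c02f001eb81002e01580000008092800801a8002014a0008100003))) 
(.lf (nat_lit 2349186436) (dlOf (nat_lit 1) (nat_lit 0x200180fc901))))) (.nd (nat_lit 8) 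
(.nd (nat_lit 31) 
(.lf (nat_lit 5838839812) (dlOf (nat_lit 6) (nat_lit 0x48062000402300030110019f818003004000cf80400080200067b020006032002ca0100020170000000804000080040002000800081c0003))) 
(.lf (nat_lit 3691356164) (dlOf (nat_lit 7) (nat_lit 0xa02e000a015000200a40010044000c021000501000020064000c030000a01200080088003000000c802c00d005c007202a00330148019808800d00420068020003200c8019006000cc024006c01100340000018fc5800300b80028054000a0290005011000380840018040000a019000400c000300480024022000e0000031e0b0001017000480a800100520002022000501080020080001c032000c01800060090005804400c7228002405c001c02a00080148004008800240420010020000700c800300600020024001601100090000018d85800300b80028054001402200070108005006400240300010011000a0000018cc4000080080010002000200081b0003)))) 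
(.lf (nat_lit 6376235268) (dlOf (nat_lit 1) (nat_lit 0x400400020008090a82)))))))) (.nd (nat_lit 18) 
(.nd (nat_lit 8) (.nd (nat_lit 19) (.nd (nat_lit 7) (.nd (nat_lit 23) (.nd (nat_lit 24) 
(.nd (nat_lit 26) (.lf (nat_lit 1879154756) (dlOf (nat_lit 1) (nat_lit 0x20028030e81))) 
(.lf (nat_lit 1006739524) (dlOf (nat_lit 1) (nat_lit 0x20028030e81)))) 
(.lf (nat_lit 16883780) (dlOf (nat_lit 1) (nat_lit 0x4002000200088e0002)))) (.nd (nat_lit 20) 
(.lf (nat_lit 25272388) (dlOf (nat_lit 5) (nat_lit 0x241a8800194080318d44005c4f2000620400083510001481001b1a88000a00800a8008000400200240008bf0c03))) 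
(.lf (nat_lit 11640900) (dlOf (nat_lit 1) (nat_lit 0x8008000c002000200086c0003))))) 
(.nd (nat_lit 9) (.nd (nat_lit 26) 
(.lf (nat_lit 3221332164) (dlOf (nat_lit 2) (nat_lit 0x3e0000000c018090400))) 
(.lf (nat_lit 3959529668) (dlOf (nat_lit 2) (nat_lit 0x3e0000000c018090400)))) (.nd (nat_lit 10) 
(.lf (nat_lit 20034244) (dlOf (nat_lit 1) (nat_lit 0x80080004002000400089d8c83))) 
(.lf (nat_lit 20033220) (dlOf (nat_lit 1) (nat_lit 0x41000800dc00200b200089d7283)))))) 
(.nd (nat_lit 21) (.nd (nat_lit 26) (.nd (nat_lit 29) 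
(.lf (nat_lit 3221856324) (dlOf (nat_lit 3) (nat_lit 0xc02f0001581001d0170000000800700080024002003200081a1403))) 
(.lf (nat_lit 537501764) (dlOf (nat_lit 1) (nat_lit 0x4002007a00080a0d02)))) (.nd (nat_lit 28) 
(.lf (nat_lit 3960053828) (dlOf (nat_lit 1) (nat_lit 0x8004002800081a1882))) 
(.lf (nat_lit 470392900) (dlOf (nat_lit 1) (nat_lit 0xa00080d0d01))))) (.nd (nat_lit 7) 
(.nd (nat_lit 20) 
(.lf (nat_lit 2754191428) (dlOf (nat_lit 1) (nat_lit 0x380080030002000600080c1883))) 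
(.nd (nat_lit 23) 
(.lf (nat_lit 3776580) (dlOf (nat_lit 2) (nat_lit 0xa57600004e04000400200020008220d02))) 
(.lf (nat_lit 45719620) (dlOf (nat_lit 1) (nat_lit 0x80029360601))))) 
(.lf (nat_lit 7975620) (dlOf (nat_lit 1) (nat_lit 0x20028518c81)))))) (.nd (nat_lit 30) 
(.nd (nat_lit 9) (.nd (nat_lit 26) (.nd (nat_lit 10) (.nd (nat_lit 11) 
(.lf (nat_lit 805413188) (dlOf (nat_lit 2) (nat_lit 0x44009800000040034004001a0008090602))) 
(.lf (nat_lit 671197508) (dlOf (nat_lit 2) (nat_lit 0x600000000018144d00)))) 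
(.lf (nat_lit 2818680132) (dlOf (nat_lit 1) (nat_lit 0x10002002400080d3302)))) (.nd (nat_lit 7) 
(.lf (nat_lit 6509666628) (dlOf (nat_lit 1) (nat_lit 0x100080060002000400080b0603))) 
(.lf (nat_lit 2753143236) (dlOf (nat_lit 2) (nat_lit 0x560fc001d878800d42b20076157002c09d000080280028008005c00200260008090903))))) 
(.nd (nat_lit 10) (.nd (nat_lit 7) 
(.lf (nat_lit 4563512132) (dlOf (nat_lit 1) (nat_lit 0x220028095c01))) 
(.lf (nat_lit 113604) (dlOf (nat_lit 2) (nat_lit 0x42d000208020002001800be01)))) (.nd (nat_lit 31) 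
(.lf (nat_lit 939632452) (dlOf (nat_lit 1) (nat_lit 0x60018143e01))) 
(.lf (nat_lit 3087116100) (dlOf (nat_lit 1) (nat_lit 0x8008000800200020008143e03)))))) 
(.nd (nat_lit 7) (.nd (nat_lit 26) (.nd (nat_lit 29) 
(.lf (nat_lit 3221332292) (dlOf (nat_lit 6) (nat_lit 0x2e014c019006e01060200001683015b012004b8080000580802240a6011a03700a5010003a8000000561001a4048008a020000150200a601200138080000520801bc00200220008090602))) 
(.lf (nat_lit 5905686852) (dlOf (nat_lit 1) (nat_lit 0x100080060002000400080b0603)))) 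
(.nd (nat_lit 27) 
(.lf (nat_lit 1677828420) (dlOf (nat_lit 2) (nat_lit 0x44009800000040034004001a0008090602))) 
(.lf (nat_lit 3959529796) (dlOf (nat_lit 6) (nat_lit 0x2e014c019006e01060200001603015b012004b8080000560802240a6011a03700a5010003a8000000541001a4048008a020000148200a601200138080000500801bc00200220008090602))))) 
(.nd (nat_lit 9) 
(.lf (nat_lit 3491340740) (dlOf (nat_lit 2) (nat_lit 0x560f3001d873400d42a80076152002c09d000080280028008005c00200260008090903))) 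
(.nd (nat_lit 10) 
(.lf (nat_lit 5637254084) (dlOf (nat_lit 8) (nat_lit 0x3a0150001681001f00a8000b0080190054001c00a0002a04003601500080028000a41001000540000804005c02a00040050000102000100a800100140000008002c004001c0018055d82))) 
(.lf (nat_lit 5972797380) (dlOf (nat_lit 1) (nat_lit 0x400400020008144402)))))))) (.nd (nat_lit 28) 
(.nd (nat_lit 20) (.nd (nat_lit 21) (.nd (nat_lit 19) (.nd (nat_lit 26) 
(.lf (nat_lit 1074110532) (dlOf (nat_lit 3) (nat_lit 0x200a40004e0400780520002602004e00180a0d01))) 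
(.lf (nat_lit 4899315780) (dlOf (nat_lit 1) (nat_lit 0xc0018100481)))) 
(.lf (nat_lit 42836036) (dlOf (nat_lit 2) (nat_lit 0xc00000025e040088002000e0009280602)))) 
(.nd (nat_lit 9) 
(.lf (nat_lit 2753929284) (dlOf (nat_lit 1) (nat_lit 0x980080024002002600080a0d03))) 
(.lf (nat_lit 23437892) (dlOf (nat_lit 1) (nat_lit 0x400200020008b81102))))) (.nd (nat_lit 19) 
(.nd (nat_lit 21) (.lf (nat_lit 55943236) (dlOf (nat_lit 1) (nat_lit 0x200296f0601))) 
(.nd (nat_lit 23) 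
(.lf (nat_lit 24485956) (dlOf (nat_lit 3) (nat_lit 0xbaf50007968a00028040004bd400006018ba0d00))) 
(.lf (nat_lit 32874564) (dlOf (nat_lit 1) (nat_lit 0xd0008000400200020008f30603))))) 
(.nd (nat_lit 8) (.lf (nat_lit 45981764) (dlOf (nat_lit 1) (nat_lit 0x320029380001))) 
(.nd (nat_lit 9) (.lf (nat_lit 18719044) (dlOf (nat_lit 1) (nat_lit 0x40028970701))) 
(.lf (nat_lit 54373188) (dlOf (nat_lit 1) (nat_lit 0x120029655c01))))))) (.nd (nat_lit 21) 
(.nd (nat_lit 27) (.nd (nat_lit 7) (.nd (nat_lit 22) 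
(.lf (nat_lit 4563771460) (dlOf (nat_lit 2) (nat_lit 0x70148002380800d00080004002002a00080d0483))) 
(.lf (nat_lit 1346740292) (dlOf (nat_lit 1) (nat_lit 0x20029000601)))) 
(.lf (nat_lit 3490032836) (dlOf (nat_lit 1) (nat_lit 0x20008006381)))) (.nd (nat_lit 26) 
(.nd (nat_lit 29) 
(.lf (nat_lit 4697989188) (dlOf (nat_lit 7) (nat_lit 0x1d80d400d4058007a02b009a014802300a0021404e00a8021002c00e0002006c002c00e000a0010004e8b001501a800b00c4007c058004002b0001015004180a4004c05000de027003e010800880700098036002800700010000002386801d80a400110040158052000860200b00290004101006e0148000b0080910008019c002000800080d0483))) 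
(.lf (nat_lit 5234860100) (dlOf (nat_lit 2) (nat_lit 0x1806800480320010018000c0058001f82000d000800fc002001e0008100483)))) 
(.nd (nat_lit 7) (.lf (nat_lit 474325060) (dlOf (nat_lit 1) (nat_lit 0x800400020009150d82))) 
(.lf (nat_lit 2080743620) (dlOf (nat_lit 1) (nat_lit 0x4002000200080c1702)))))) (.nd (nat_lit 9) 
(.nd (nat_lit 29) 
(.lf (nat_lit 3492126788) (dlOf (nat_lit 3) (nat_lit 0x2f408b0001001005d04580002c0804d00080430002000800080a0e03))) 
(.lf (nat_lit 1881514052) (dlOf (nat_lit 1) (nat_lit 0x2800400060018f40602)))) (.nd (nat_lit 8) 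
(.lf (nat_lit 3492657732) (dlOf (nat_lit 1) (nat_lit 0x18008006c002002a00080fb503))) 
(.lf (nat_lit 3492652868) (dlOf (nat_lit 1) (nat_lit 0x200280f3e01))))))))) (.nd (nat_lit 18) 
(.nd (nat_lit 7) (.nd (nat_lit 19) (.nd (nat_lit 22) (.nd (nat_lit 6) (.nd (nat_lit 28) 
(.nd (nat_lit 20) (.nd (nat_lit 26) 
(.lf (nat_lit 2281807908) (dlOf (nat_lit 2) (nat_lit 0x8026000530200340028030581))) 
(.lf (nat_lit 3422658596) (dlOf (nat_lit 1) (nat_lit 0x20018020881)))) 
(.lf (nat_lit 28418084) (dlOf (nat_lit 1) (nat_lit 0x580080014002000a0008d90683)))) 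
(.nd (nat_lit 8) (.lf (nat_lit 4160856100) (dlOf (nat_lit 1) (nat_lit 0x20018020581))) 
(.lf (nat_lit 2550243620) (dlOf (nat_lit 1) (nat_lit 0xc0018014301))))) (.nd (nat_lit 10) 
(.nd (nat_lit 12) (.lf (nat_lit 2550243684) (dlOf (nat_lit 1) (nat_lit 0x1c004000c0018014f02))) 
(.lf (nat_lit 110948) (dlOf (nat_lit 1) (nat_lit 0x140018008381)))) (.nd (nat_lit 11) 
(.lf (nat_lit 5773567332) (dlOf (nat_lit 1) (nat_lit 0x4004000200080e3482))) 
(.lf (nat_lit 134327652) (dlOf (nat_lit 1) (nat_lit 0x400400720008006a82)))))) (.nd (nat_lit 20) 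
(.nd (nat_lit 6) (.nd (nat_lit 21) 
(.lf (nat_lit 3493961764) (dlOf (nat_lit 1) (nat_lit 0xa4002000200081b0002))) 
(.lf (nat_lit 23175204) (dlOf (nat_lit 1) (nat_lit 0x2c00200040008b60702)))) 
(.lf (nat_lit 3493962084) (dlOf (nat_lit 5) (nat_lit 0xc02a0005814c001c0a2000e050000502700048134004008a001603d0001a08000c02a000801140060016000320600100550001781000d02a0006014c00080a2000e050000b026800600f40003e180638004002400181b0702)))) 
(.nd (nat_lit 21) (.nd (nat_lit 6) 
(.lf (nat_lit 5349412) (dlOf (nat_lit 1) (nat_lit 0x40008350681))) 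
(.lf (nat_lit 47292516) (dlOf (nat_lit 2) (nat_lit 0x57880073e02000400093c0781)))) (.nd (nat_lit 9) 
(.lf (nat_lit 15835172) (dlOf (nat_lit 1) (nat_lit 0x40028830601))) 
(.lf (nat_lit 41001508) (dlOf (nat_lit 1) (nat_lit 0x20029208781))))))) (.nd (nat_lit 6) 
(.nd (nat_lit 29) (.nd (nat_lit 21) (.nd (nat_lit 9) (.nd (nat_lit 22) 
(.lf (nat_lit 3221856292) (dlOf (nat_lit 1) (nat_lit 0x20002000800081a0b02))) 
(.lf (nat_lit 3494486052) (dlOf (nat_lit 1) (nat_lit 0x38008000400200020008230483)))) 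
(.lf (nat_lit 50962980) (dlOf (nat_lit 1) (nat_lit 0x60004002000094d8782)))) (.nd (nat_lit 8) 
(.lf (nat_lit 11116580) (dlOf (nat_lit 2) (nat_lit 0x50000000340200020018660501))) 
(.lf (nat_lit 7978276) (dlOf (nat_lit 1) (nat_lit 0x3c002851c601))))) (.nd (nat_lit 30) 
(.nd (nat_lit 22) 
(.lf (nat_lit 805937188) (dlOf (nat_lit 2) (nat_lit 0x17d00b8000bc0803a00080134002000400081f0b83))) 
(.lf (nat_lit 2756288548) (dlOf (nat_lit 1) (nat_lit 0x38008000400200020008230483)))) 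
(.nd (nat_lit 27) 
(.lf (nat_lit 1678352420) (dlOf (nat_lit 2) (nat_lit 0x17d00b8000bc0803a00080134002000400081f0b83))) 
(.lf (nat_lit 3960053796) (dlOf (nat_lit 1) (nat_lit 0x20002000800081a0b02)))))) (.nd (nat_lit 8) 
(.nd (nat_lit 9) (.lf (nat_lit 25796708) (dlOf (nat_lit 1) (nat_lit 0x80028c10281))) 
(.lf (nat_lit 9021028) (dlOf (nat_lit 1) (nat_lit 0x8008002000200120008513903)))) (.nd (nat_lit 11) 
(.lf (nat_lit 25796964) (dlOf (nat_lit 1) (nat_lit 0x400400020008c10982))) 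
(.lf (nat_lit 57256292) (dlOf (nat_lit 2) (nat_lit 0x24abe002bf60400e400400060019794e82))))))) 
(.nd (nat_lit 6) (.nd (nat_lit 8) (.nd (nat_lit 9) (.nd (nat_lit 10) 
(.lf (nat_lit 1140957348) (dlOf (nat_lit 2) (nat_lit 0x11006800074080018008008000200040008031383))) 
(.nd (nat_lit 20) 
(.lf (nat_lit 3825314980) (dlOf (nat_lit 1) (nat_lit 0x8008000400200020008146283))) 
(.lf (nat_lit 20032676) (dlOf (nat_lit 1) (nat_lit 0x80080004002000200089d6283))))) 
(.nd (nat_lit 10) (.nd (nat_lit 19) 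
(.lf (nat_lit 8499876) (dlOf (nat_lit 1) (nat_lit 0x8008000400200020008518c83))) 
(.lf (nat_lit 9024164) (dlOf (nat_lit 1) (nat_lit 0x8008000400200020008518c83)))) 
(.lf (nat_lit 1342289572) (dlOf (nat_lit 1) (nat_lit 0x2002800a001))))) (.nd (nat_lit 9) 
(.nd (nat_lit 10) (.nd (nat_lit 11) 
(.lf (nat_lit 5100380580) (dlOf (nat_lit 1) (nat_lit 0x1000400240008051002))) (.nd (nat_lit 22) 
(.lf (nat_lit 134326692) (dlOf (nat_lit 1) (nat_lit 0x20018004e81))) 
(.lf (nat_lit 37857700) (dlOf (nat_lit 1) (nat_lit 0x5800090d4e81))))) 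
(.lf (nat_lit 114084) (dlOf (nat_lit 1) (nat_lit 0x480040224000800cb02)))) 
(.lf (nat_lit 20032420) (dlOf (nat_lit 1) (nat_lit 0xe00189d5c81))))) (.nd (nat_lit 26) 
(.nd (nat_lit 10) (.nd (nat_lit 8) (.nd (nat_lit 28) 
(.lf (nat_lit 3221332196) (dlOf (nat_lit 4) (nat_lit 0x1b0080003480401580400019b020030020000cc818090480))) 
(.lf (nat_lit 805413092) (dlOf (nat_lit 4) (nat_lit 0xdc0260010e81000f01300086c0802f009800406040008004000c0008090482)))) 
(.nd (nat_lit 11) 
(.lf (nat_lit 2550243812) (dlOf (nat_lit 1) (nat_lit 0x378008038800202d60008017303))) 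
(.lf (nat_lit 59877860) (dlOf (nat_lit 1) (nat_lit 0x400400020009844e82))))) (.nd (nat_lit 9) 
(.nd (nat_lit 19) (.lf (nat_lit 5100381412) (dlOf (nat_lit 1) (nat_lit 0x20018052e01))) 
(.lf (nat_lit 9020644) (dlOf (nat_lit 1) (nat_lit 0x400400020008512e02)))) 
(.lf (nat_lit 6576778980) (dlOf (nat_lit 1) (nat_lit 0x400400020008147382))))) (.nd (nat_lit 9) 
(.nd (nat_lit 10) (.nd (nat_lit 11) 
(.lf (nat_lit 1140957412) (dlOf (nat_lit 2) (nat_lit 0xba0240000b018031b00))) 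
(.lf (nat_lit 4362184932) (dlOf (nat_lit 2) (nat_lit 0x680000002c04000800200020008004b02)))) 
(.lf (nat_lit 473015524) (dlOf (nat_lit 1) (nat_lit 0x20008bb2e01)))) (.nd (nat_lit 10) 
(.nd (nat_lit 19) 
(.lf (nat_lit 3556879076) (dlOf (nat_lit 3) (nat_lit 0x3805c001c02c001400e0009006000a00180028008000c0000001f0700190030000e80800e00080054002000400080d5983))) 
(.lf (nat_lit 738831076) (dlOf (nat_lit 4) (nat_lit 0x200560001881000402b0002013000100900002035000401580050000000601800400ac002004c0010015800800000003a10002c00400020018125982)))) 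
(.lf (nat_lit 5972797156) (dlOf (nat_lit 1) (nat_lit 0x400400020008143a82)))))))) (.nd (nat_lit 21) 
(.nd (nat_lit 26) (.nd (nat_lit 27) (.nd (nat_lit 30) (.nd (nat_lit 19) (.nd (nat_lit 29) 
(.lf (nat_lit 4563771428) (dlOf (nat_lit 1) (nat_lit 0x800180d0201))) 
(.lf (nat_lit 805675044) (dlOf (nat_lit 3) (nat_lit 0x220530000c81000b029800058080020008019800200100008180703)))) 
(.lf (nat_lit 22913060) (dlOf (nat_lit 3) (nat_lit 0xade20001e00800380000006804006400200780008b40502)))) 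
(.nd (nat_lit 7) (.nd (nat_lit 20) 
(.lf (nat_lit 1879416868) (dlOf (nat_lit 1) (nat_lit 0x40008130901))) 
(.lf (nat_lit 3491078180) (dlOf (nat_lit 1) (nat_lit 0x400400020008060582)))) 
(.lf (nat_lit 3490556324) (dlOf (nat_lit 1) (nat_lit 0x360008000400200640008004e83))))) 
(.nd (nat_lit 29) (.nd (nat_lit 28) (.nd (nat_lit 30) 
(.lf (nat_lit 134586404) (dlOf (nat_lit 2) (nat_lit 0x2f00c40005004000400200020008080902))) 
(.lf (nat_lit 3355811876) (dlOf (nat_lit 3) (nat_lit 0x19802000032010007010000184080040008002000200100008120503)))) 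
(.lf (nat_lit 4697989156) (dlOf (nat_lit 1) (nat_lit 0x800180d0201)))) (.nd (nat_lit 30) 
(.lf (nat_lit 671457316) (dlOf (nat_lit 19) (nat_lit 0x14a0240008011800200640050022000a0000002d0500af012000164080508090001804600057040008023000900a80012c1008980180224006007c00000023830067003003d800c0008c0800c400c0004402005401b000208100af0030020000c01480000003f06009c00600070018000f410019806c027000c001c0030001a8300af003001d000c000680802ac0480002f02000c000000170100a70120000a8080518090000120402dc0480008023000028200530120000100801e00080134002003800081a0583))) 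
(.lf (nat_lit 3892682788) (dlOf (nat_lit 1) (nat_lit 0x400281b0701)))))) (.nd (nat_lit 29) 
(.nd (nat_lit 6) (.nd (nat_lit 27) 
(.lf (nat_lit 4362444836) (dlOf (nat_lit 1) (nat_lit 0xd0008002c002001c0008080803))) 
(.nd (nat_lit 30) (.lf (nat_lit 2617614372) (dlOf (nat_lit 2) (nat_lit 0x7002b00030818100500))) 
(.lf (nat_lit 1543872548) (dlOf (nat_lit 19) (nat_lit 0x14a02400080118002006c0050022000a0000002d0500af012000164080508090001804600057040008023000900a80012c1008980180224006007c00000023830067003003d800c0008c0800c400c00044020054019000208100af0030020000c01480000003f06009c00600070018000f4100198064027000c001c0030001a8300af003001d000c000680802ac0480002f02000c000000170100a70120000a8080518090000120402dc0480008023000028200530120000100801e00080134002003800081a0583))))) 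
(.nd (nat_lit 7) (.lf (nat_lit 5838839908) (dlOf (nat_lit 1) (nat_lit 0x108002001c00081c1382))) 
(.lf (nat_lit 470655204) (dlOf (nat_lit 1) (nat_lit 0x40028150681))))) (.nd (nat_lit 27) 
(.nd (nat_lit 20) 
(.lf (nat_lit 1678090276) (dlOf (nat_lit 3) (nat_lit 0x220530000281000b029800008080020008019800200100008180703))) 
(.lf (nat_lit 2752880676) (dlOf (nat_lit 1) (nat_lit 0x400400020008060582)))) (.nd (nat_lit 30) 
(.lf (nat_lit 1007001636) (dlOf (nat_lit 1) (nat_lit 0x40008130901))) 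
(.lf (nat_lit 4228227108) (dlOf (nat_lit 2) (nat_lit 0x201540024098000a0400014016000040200020008011400200400008080903))))))) 
(.nd (nat_lit 9) (.nd (nat_lit 19) (.nd (nat_lit 20) (.nd (nat_lit 26) (.nd (nat_lit 28) 
(.lf (nat_lit 2465828) (dlOf (nat_lit 1) (nat_lit 0xe0028160901))) 
(.lf (nat_lit 3492126756) (dlOf (nat_lit 1) (nat_lit 0x80080034002001000080a0903)))) 
(.lf (nat_lit 2753929252) (dlOf (nat_lit 1) (nat_lit 0x80080034002001000080a0903)))) 
(.nd (nat_lit 6) (.lf (nat_lit 7708708) (dlOf (nat_lit 1) (nat_lit 0x80080008002000200084d0a83))) 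
(.lf (nat_lit 11903332) (dlOf (nat_lit 1) (nat_lit 0x200080008002000200086c0703))))) 
(.nd (nat_lit 20) (.nd (nat_lit 26) 
(.lf (nat_lit 2990116) (dlOf (nat_lit 2) (nat_lit 0x1482d00002a02000400281f0901))) 
(.lf (nat_lit 4096630820) (dlOf (nat_lit 3) (nat_lit 0x9f0278097010c01200020002f06003602400008818140b80)))) 
(.nd (nat_lit 22) 
(.lf (nat_lit 3493699620) (dlOf (nat_lit 1) (nat_lit 0x180080004002000200081a0803))) 
(.lf (nat_lit 25010212) (dlOf (nat_lit 1) (nat_lit 0x40028bd0b81)))))) (.nd (nat_lit 11) 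
(.nd (nat_lit 24) (.nd (nat_lit 7) 
(.lf (nat_lit 12427812) (dlOf (nat_lit 11) (nat_lit 0x1eea80002e04001375400016020007baa0001d94800038100046ea80001a04001b7540000c02000bbaa0000581000edd500076e98001b65200006060011baa00002810007dd500001008000eea800000040004004000200186c0e02))) 
(.lf (nat_lit 8237732) (dlOf (nat_lit 1) (nat_lit 0x400200020008518c82)))) (.nd (nat_lit 19) 
(.lf (nat_lit 20296356) (dlOf (nat_lit 1) (nat_lit 0x4002000200089d8c82))) 
(.lf (nat_lit 19772068) (dlOf (nat_lit 1) (nat_lit 0x4002000200089d8c82))))) (.nd (nat_lit 6) 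
(.lf (nat_lit 2754981540) (dlOf (nat_lit 1) (nat_lit 0x200180f7201))) (.nd (nat_lit 7) 
(.lf (nat_lit 45984356) (dlOf (nat_lit 1) (nat_lit 0x400400020009385382))) 
(.lf (nat_lit 2754457316) (dlOf (nat_lit 1) (nat_lit 0x10008000c002000600080f7383)))))))))) 
(.nd (nat_lit 6) (.nd (nat_lit 18) (.nd (nat_lit 5) (.nd (nat_lit 7) (.nd (nat_lit 19) 
(.nd (nat_lit 31) (.nd (nat_lit 23) (.nd (nat_lit 8) (.nd (nat_lit 27) 
(.lf (nat_lit 805412884) (dlOf (nat_lit 1) (nat_lit 0x1800200020008090002))) 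
(.lf (nat_lit 6039904276) (dlOf (nat_lit 2) (nat_lit 0x80620001c0200040008020501)))) 
(.lf (nat_lit 939632404) (dlOf (nat_lit 3) (nat_lit 0xc00b0001a81000e005800000080028008000c00200020008143c03)))) 
(.nd (nat_lit 20) (.nd (nat_lit 21) 
(.lf (nat_lit 25272340) (dlOf (nat_lit 1) (nat_lit 0x20028bf0881))) 
(.lf (nat_lit 10592276) (dlOf (nat_lit 1) (nat_lit 0x400400020018600102)))) 
(.lf (nat_lit 13738004) (dlOf (nat_lit 1) (nat_lit 0xa0018740181))))) (.nd (nat_lit 26) 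
(.nd (nat_lit 8) (.nd (nat_lit 20) 
(.lf (nat_lit 3221331988) (dlOf (nat_lit 1) (nat_lit 0x90008004800200060008090003))) 
(.lf (nat_lit 3490816020) (dlOf (nat_lit 1) (nat_lit 0x400400020008020482)))) 
(.lf (nat_lit 6442559252) (dlOf (nat_lit 1) (nat_lit 0x600180f3c01)))) (.nd (nat_lit 28) 
(.nd (nat_lit 27) 
(.lf (nat_lit 6509666324) (dlOf (nat_lit 2) (nat_lit 0x6000001c540800500080024002000c00080b0003))) 
(.lf (nat_lit 6643884052) (dlOf (nat_lit 1) (nat_lit 0x260008020501)))) (.nd (nat_lit 9) 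
(.lf (nat_lit 2483134484) (dlOf (nat_lit 6) (nat_lit 0x380540064e02001c02a002f801000e0150017040800700a800b80040040054001a0280012008002980380000010006c00400520008020482))) 
(.lf (nat_lit 3556878868) (dlOf (nat_lit 3) (nat_lit 0x40024002c00000003020011009000c00000000a0800d0002001a00080d5082))))))) 
(.nd (nat_lit 9) (.nd (nat_lit 24) (.nd (nat_lit 26) 
(.lf (nat_lit 134848532) (dlOf (nat_lit 1) (nat_lit 0x4002000200080c0a82))) (.nd (nat_lit 28) 
(.lf (nat_lit 201957396) (dlOf (nat_lit 1) (nat_lit 0x4002000200080c0a82))) 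
(.lf (nat_lit 470392852) (dlOf (nat_lit 1) (nat_lit 0xc0008000c002000200080d0703))))) 
(.nd (nat_lit 21) (.lf (nat_lit 55156756) (dlOf (nat_lit 1) (nat_lit 0x400096c0101))) 
(.lf (nat_lit 19505172) (dlOf (nat_lit 2) (nat_lit 0x42559000140189b0480))))) (.nd (nat_lit 11) 
(.nd (nat_lit 21) 
(.lf (nat_lit 50962964) (dlOf (nat_lit 3) (nat_lit 0x2c4b00027481001e2580013600802b000800a0002001600094d8703))) 
(.lf (nat_lit 5774090772) (dlOf (nat_lit 1) (nat_lit 0x600080f8701)))) (.nd (nat_lit 10) 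
(.lf (nat_lit 738830868) (dlOf (nat_lit 2) (nat_lit 0x160570000e818125080))) 
(.lf (nat_lit 634388) (dlOf (nat_lit 2) (nat_lit 0xaee2400064040018002000e0008007082))))))) 
(.nd (nat_lit 8) (.nd (nat_lit 21) (.nd (nat_lit 26) (.nd (nat_lit 28) 
(.lf (nat_lit 5905686676) (dlOf (nat_lit 2) (nat_lit 0x2000000230180b0180))) 
(.lf (nat_lit 805413012) (dlOf (nat_lit 2) (nat_lit 0x3402600013818090180)))) (.nd (nat_lit 29) 
(.lf (nat_lit 6509666452) (dlOf (nat_lit 2) (nat_lit 0x2000000230180b0180))) 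
(.lf (nat_lit 1677828244) (dlOf (nat_lit 2) (nat_lit 0x3402600013818090180))))) (.nd (nat_lit 10) 
(.nd (nat_lit 19) (.lf (nat_lit 3491864724) (dlOf (nat_lit 1) (nat_lit 0x20008090181))) 
(.lf (nat_lit 23699604) (dlOf (nat_lit 1) (nat_lit 0x800200020008b80182)))) 
(.lf (nat_lit 20032660) (dlOf (nat_lit 1) (nat_lit 0x2c004002800089d6202))))) (.nd (nat_lit 21) 
(.nd (nat_lit 10) (.nd (nat_lit 20) 
(.lf (nat_lit 5435924884) (dlOf (nat_lit 1) (nat_lit 0x38002006a0008036482))) 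
(.lf (nat_lit 43098516) (dlOf (nat_lit 1) (nat_lit 0x200292a1001)))) 
(.lf (nat_lit 43623828) (dlOf (nat_lit 1) (nat_lit 0x200292a3601)))) (.nd (nat_lit 9) 
(.nd (nat_lit 10) 
(.lf (nat_lit 1881252244) (dlOf (nat_lit 2) (nat_lit 0x20064001102f800594100088008000400200060008e81003))) 
(.lf (nat_lit 473015700) (dlOf (nat_lit 1) (nat_lit 0xe0028bb3601)))) 
(.lf (nat_lit 20032404) (dlOf (nat_lit 2) (nat_lit 0x139d300010000000e01000300080038002000200089d5c83))))))) 
(.nd (nat_lit 28) (.nd (nat_lit 24) (.nd (nat_lit 10) (.nd (nat_lit 7) (.nd (nat_lit 19) 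
(.lf (nat_lit 14786612) (dlOf (nat_lit 1) (nat_lit 0x400200040008770482))) 
(.lf (nat_lit 537501748) (dlOf (nat_lit 1) (nat_lit 0x200180a0a81)))) 
(.lf (nat_lit 6398132) (dlOf (nat_lit 1) (nat_lit 0x740018420481)))) (.nd (nat_lit 7) 
(.nd (nat_lit 8) (.lf (nat_lit 49914932) (dlOf (nat_lit 1) (nat_lit 0x400080028002001800094c2883))) 
(.lf (nat_lit 1812049204) (dlOf (nat_lit 1) (nat_lit 0x30004000e0018146882)))) 
(.lf (nat_lit 6576778420) (dlOf (nat_lit 1) (nat_lit 0x1000400060018146282))))) (.nd (nat_lit 19) 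
(.nd (nat_lit 8) (.nd (nat_lit 23) 
(.lf (nat_lit 16883764) (dlOf (nat_lit 1) (nat_lit 0x80080004002000200088e0003))) 
(.lf (nat_lit 25272372) (dlOf (nat_lit 2) (nat_lit 0x2444f2001cd0200040028bf0b81)))) 
(.lf (nat_lit 20032308) (dlOf (nat_lit 1) (nat_lit 0x200189d5c01)))) (.nd (nat_lit 10) 
(.nd (nat_lit 20) (.lf (nat_lit 25796660) (dlOf (nat_lit 1) (nat_lit 0x400400020008c10002))) 
(.lf (nat_lit 26845236) (dlOf (nat_lit 2) (nat_lit 0x500000000940800d0008001000200160008c80783)))) 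
(.lf (nat_lit 57254964) (dlOf (nat_lit 2) (nat_lit 0xcaf900b10819792880)))))) (.nd (nat_lit 7) 
(.nd (nat_lit 26) (.nd (nat_lit 9) 
(.lf (nat_lit 1879154740) (dlOf (nat_lit 1) (nat_lit 0x2c0002011c0008030d02))) 
(.lf (nat_lit 4563511860) (dlOf (nat_lit 2) (nat_lit 0x28054011c0240015c04003a0028095181)))) 
(.nd (nat_lit 30) (.lf (nat_lit 1006739508) (dlOf (nat_lit 1) (nat_lit 0x2c0002011c0008030d02))) 
(.lf (nat_lit 2080481332) (dlOf (nat_lit 1) (nat_lit 0x2e800801b0002008a0008090003))))) 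
(.nd (nat_lit 26) (.nd (nat_lit 27) 
(.lf (nat_lit 2952896692) (dlOf (nat_lit 1) (nat_lit 0x240018010301))) 
(.lf (nat_lit 2013372596) (dlOf (nat_lit 2) (nat_lit 0xba0240000b018031680)))) (.nd (nat_lit 10) 
(.lf (nat_lit 6375973044) (dlOf (nat_lit 2) (nat_lit 0xf20140000a8080880008010800200b60008031683))) 
(.lf (nat_lit 1409395892) (dlOf (nat_lit 1) (nat_lit 0xe20008006281)))))))) (.nd (nat_lit 26) 
(.nd (nat_lit 5) (.nd (nat_lit 21) (.nd (nat_lit 28) (.nd (nat_lit 20) (.nd (nat_lit 22) 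
(.lf (nat_lit 3355811860) (dlOf (nat_lit 4) (nat_lit 0xc01e0003102000600f000178100040100000000800780080040002003e0008120383))) 
(.lf (nat_lit 12951572) (dlOf (nat_lit 1) (nat_lit 0x80080004002000200086f0183)))) 
(.lf (nat_lit 22388756) (dlOf (nat_lit 3) (nat_lit 0x4b0d00013010002586800088080048008001800200040008ad0403)))) 
(.nd (nat_lit 29) (.lf (nat_lit 1342545940) (dlOf (nat_lit 1) (nat_lit 0x20028050a01))) 
(.nd (nat_lit 30) 
(.lf (nat_lit 2953158676) (dlOf (nat_lit 2) (nat_lit 0x3007000000040014004001e00081b0282))) 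
(.lf (nat_lit 4026900500) (dlOf (nat_lit 1) (nat_lit 0x200180c0a81)))))) (.nd (nat_lit 19) 
(.nd (nat_lit 7) 
(.lf (nat_lit 2465812) (dlOf (nat_lit 5) (nat_lit 0x107540010392000e1c400070bb800828200008754000c3880006177001048300030ea80020724001c388000e177001040400040ea800207240018388000e17700103848160700))) 
(.nd (nat_lit 11) (.lf (nat_lit 28680340) (dlOf (nat_lit 1) (nat_lit 0x400200020008da0482))) 
(.lf (nat_lit 20297876) (dlOf (nat_lit 1) (nat_lit 0x4002000200089da882))))) (.nd (nat_lit 8) 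
(.nd (nat_lit 20) 
(.lf (nat_lit 2990100) (dlOf (nat_lit 3) (nat_lit 0x827480004c080009a080008cd600024e9000126c0000402000200080014002001e00081f0383))) 
(.lf (nat_lit 3493699604) (dlOf (nat_lit 1) (nat_lit 0x400081a0401)))) 
(.lf (nat_lit 3492652820) (dlOf (nat_lit 1) (nat_lit 0xc00280f3c01)))))) (.nd (nat_lit 19) 
(.nd (nat_lit 24) (.nd (nat_lit 28) (.nd (nat_lit 7) 
(.lf (nat_lit 1610981428) (dlOf (nat_lit 2) (nat_lit 0x380dc00128040008004000400080b0482))) 
(.lf (nat_lit 8758964) (dlOf (nat_lit 1) (nat_lit 0x400400bc0008513a82)))) (.nd (nat_lit 27) 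
(.nd (nat_lit 30) 
(.lf (nat_lit 2416287796) (dlOf (nat_lit 2) (nat_lit 0x2e00800039a040004004000200080d0b82))) 
(.lf (nat_lit 5637513268) (dlOf (nat_lit 1) (nat_lit 0x220028100401)))) 
(.lf (nat_lit 2550505524) (dlOf (nat_lit 2) (nat_lit 0x2e00800039a040004004000200080d0b82))))) 
(.nd (nat_lit 7) (.nd (nat_lit 9) 
(.lf (nat_lit 26583092) (dlOf (nat_lit 1) (nat_lit 0x400200040008c50482))) 
(.lf (nat_lit 20295220) (dlOf (nat_lit 1) (nat_lit 0x10004000200089d7182)))) 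
(.lf (nat_lit 52797620) (dlOf (nat_lit 1) (nat_lit 0x2c00400380009570682))))) (.nd (nat_lit 20) 
(.nd (nat_lit 28) (.nd (nat_lit 22) 
(.lf (nat_lit 892980) (dlOf (nat_lit 3) (nat_lit 0x5f00000071c0800f80000037a0400b000200540008030d02))) 
(.lf (nat_lit 5087284) (dlOf (nat_lit 1) (nat_lit 0x560028300781)))) (.nd (nat_lit 10) 
(.lf (nat_lit 1343070260) (dlOf (nat_lit 1) (nat_lit 0x40008003800200020008150003))) 
(.lf (nat_lit 3490556980) (dlOf (nat_lit 1) (nat_lit 0x20018006081))))) (.nd (nat_lit 21) 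
(.lf (nat_lit 27107380) (dlOf (nat_lit 1) (nat_lit 0x1400400260008ca0782))) 
(.lf (nat_lit 4038708) (dlOf (nat_lit 3) (nat_lit 0x8000000e38100360000006f40800400080050002002a0008270b83))))))) 
(.nd (nat_lit 27) (.nd (nat_lit 32) (.nd (nat_lit 19) (.nd (nat_lit 5) (.nd (nat_lit 9) 
(.lf (nat_lit 3288702996) (dlOf (nat_lit 1) (nat_lit 0x200180c0a81))) 
(.lf (nat_lit 2751838740) (dlOf (nat_lit 1) (nat_lit 0x378008001000200c0000800b283)))) 
(.lf (nat_lit 2753929268) (dlOf (nat_lit 1) (nat_lit 0x40008000c002002800080a0a83)))) 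
(.nd (nat_lit 20) (.lf (nat_lit 4096630804) (dlOf (nat_lit 1) (nat_lit 0x40008140a01))) 
(.lf (nat_lit 2755502100) (dlOf (nat_lit 1) (nat_lit 0x100080024002000400081a0383))))) 
(.nd (nat_lit 29) (.nd (nat_lit 31) 
(.lf (nat_lit 4362444820) (dlOf (nat_lit 2) (nat_lit 0x600000000018080400))) 
(.lf (nat_lit 6509928468) (dlOf (nat_lit 1) (nat_lit 0x2000400060008160482)))) (.nd (nat_lit 5) 
(.lf (nat_lit 4899315732) (dlOf (nat_lit 1) (nat_lit 0x28400400600008100002))) 
(.lf (nat_lit 6241493044) (dlOf (nat_lit 1) (nat_lit 0x220028100401)))))) (.nd (nat_lit 31) 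
(.nd (nat_lit 7) (.nd (nat_lit 5) (.nd (nat_lit 21) 
(.lf (nat_lit 470130708) (dlOf (nat_lit 1) (nat_lit 0x20028050a01))) 
(.lf (nat_lit 1009098772) (dlOf (nat_lit 1) (nat_lit 0x800400040019080002)))) 
(.lf (nat_lit 738566196) (dlOf (nat_lit 2) (nat_lit 0x380dc00128040008004000400080b0482)))) 
(.nd (nat_lit 10) (.lf (nat_lit 473803156) (dlOf (nat_lit 1) (nat_lit 0x140018fa4e81))) 
(.lf (nat_lit 6375712148) (dlOf (nat_lit 1) (nat_lit 0x20018003601))))) (.nd (nat_lit 10) 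
(.nd (nat_lit 29) (.nd (nat_lit 30) 
(.lf (nat_lit 2617614356) (dlOf (nat_lit 4) (nat_lit 0x11003c0005e04008401e0002c02004400f00015818100380))) 
(.lf (nat_lit 3691356180) (dlOf (nat_lit 2) (nat_lit 0x3007400000040014004001e00081b0282)))) 
(.lf (nat_lit 4228227092) (dlOf (nat_lit 2) (nat_lit 0xbc000000000200480008080381)))) 
(.nd (nat_lit 5) (.lf (nat_lit 2349182484) (dlOf (nat_lit 1) (nat_lit 0x200180f7081))) 
(.lf (nat_lit 2349182004) (dlOf (nat_lit 2) (nat_lit 0x2600f000b38180f6080))))))))) 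
(.nd (nat_lit 5) (.nd (nat_lit 30) (.nd (nat_lit 18) (.nd (nat_lit 7) (.nd (nat_lit 8) 
(.nd (nat_lit 9) (.nd (nat_lit 19) (.nd (nat_lit 23) 
(.lf (nat_lit 16883796) (dlOf (nat_lit 2) (nat_lit 0x1d0d80003602000400188e0281))) 
(.lf (nat_lit 25272404) (dlOf (nat_lit 16) (nat_lit 0x4fd3a8001a67e000330400634ec00019010013a760047d3a8003a67e0034212000f0000000c42802153b0000600402906a20002502012a351000120100281a8800084080078d440004004009268e007235100890000000781805580000003a04002e68e011c0000000e02003a1a880006c080325a2c000ad02001b67e0000983000eb488000440800e8d4400000040060002008e0008bf0d82)))) 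
(.lf (nat_lit 470392916) (dlOf (nat_lit 1) (nat_lit 0x600180d1081)))) 
(.lf (nat_lit 51489364) (dlOf (nat_lit 3) (nat_lit 0x300000003e0400240000001d02004a0009515301)))) 
(.nd (nat_lit 26) (.nd (nat_lit 10) 
(.lf (nat_lit 805413204) (dlOf (nat_lit 2) (nat_lit 0x5f0130000280800100080018002003c0008090683))) 
(.lf (nat_lit 49915220) (dlOf (nat_lit 1) (nat_lit 0x200294c3381)))) (.nd (nat_lit 9) 
(.lf (nat_lit 6509666644) (dlOf (nat_lit 1) (nat_lit 0x8008001c002000a00080b0683))) 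
(.lf (nat_lit 738306900) (dlOf (nat_lit 1) (nat_lit 0x400400020008095c02)))))) (.nd (nat_lit 8) 
(.nd (nat_lit 28) (.nd (nat_lit 19) 
(.lf (nat_lit 6509666516) (dlOf (nat_lit 2) (nat_lit 0x2a80240023702000c00080b0481))) 
(.lf (nat_lit 14262484) (dlOf (nat_lit 1) (nat_lit 0x20028750501)))) (.nd (nat_lit 10) 
(.lf (nat_lit 805413076) (dlOf (nat_lit 3) (nat_lit 0x3b0130009240801f00980048e04004c002002e0008090482))) 
(.lf (nat_lit 5100381396) (dlOf (nat_lit 2) (nat_lit 0x801c00080000003b0400020018052d81))))) 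
(.nd (nat_lit 9) (.nd (nat_lit 20) 
(.lf (nat_lit 61448660) (dlOf (nat_lit 1) (nat_lit 0xc0009921181))) 
(.lf (nat_lit 7971284) (dlOf (nat_lit 1) (nat_lit 0x7000400200018511182)))) 
(.lf (nat_lit 34186196) (dlOf (nat_lit 1) (nat_lit 0x8008000800200020008fb2883)))))) 
(.nd (nat_lit 28) (.nd (nat_lit 19) (.nd (nat_lit 22) (.nd (nat_lit 26) 
(.lf (nat_lit 6442819668) (dlOf (nat_lit 1) (nat_lit 0x80080044002000e00081c1083))) 
(.lf (nat_lit 738566228) (dlOf (nat_lit 2) (nat_lit 0x5014c000806a0000e04000200080b0681)))) 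
(.nd (nat_lit 7) 
(.lf (nat_lit 29728852) (dlOf (nat_lit 2) (nat_lit 0xdc8e000000080020008001000200020008e30283))) 
(.lf (nat_lit 23437780) (dlOf (nat_lit 1) (nat_lit 0x180018b80a81))))) (.nd (nat_lit 7) 
(.nd (nat_lit 21) (.lf (nat_lit 18718804) (dlOf (nat_lit 1) (nat_lit 0x400200020008970282))) 
(.lf (nat_lit 4038740) (dlOf (nat_lit 2) (nat_lit 0x1180000000004000400200020008270d82)))) 
(.lf (nat_lit 8237524) (dlOf (nat_lit 1) (nat_lit 0x20018518681))))) (.nd (nat_lit 27) 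
(.nd (nat_lit 31) 
(.lf (nat_lit 4563771476) (dlOf (nat_lit 2) (nat_lit 0x3a0148000fc0800900080030002002200080d0503))) 
(.lf (nat_lit 2416287828) (dlOf (nat_lit 1) (nat_lit 0x8004000200080d0d82)))) (.nd (nat_lit 29) 
(.nd (nat_lit 31) 
(.lf (nat_lit 4697989204) (dlOf (nat_lit 2) (nat_lit 0x3a0148000fc0800900080030002002200080d0503))) 
(.lf (nat_lit 2550505556) (dlOf (nat_lit 1) (nat_lit 0x8004000200080d0d82)))) 
(.lf (nat_lit 5234860116) (dlOf (nat_lit 3) (nat_lit 0x1300d00058064003c030000a00b0002f04000200d00016c0800f00080018002000c0008100503))))))) 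
(.nd (nat_lit 26) (.nd (nat_lit 29) (.nd (nat_lit 7) (.nd (nat_lit 8) (.nd (nat_lit 18) 
(.lf (nat_lit 3492388948) (dlOf (nat_lit 1) (nat_lit 0x80080004002000600080c1603))) 
(.lf (nat_lit 5637513300) (dlOf (nat_lit 1) (nat_lit 0x400200020008100502)))) 
(.lf (nat_lit 1073848660) (dlOf (nat_lit 2) (nat_lit 0x203d00011818014d80)))) (.nd (nat_lit 10) 
(.lf (nat_lit 3221332180) (dlOf (nat_lit 3) (nat_lit 0x58040001c7020034020000e2818090480))) 
(.lf (nat_lit 5772518612) (dlOf (nat_lit 1) (nat_lit 0x40028092d81))))) (.nd (nat_lit 8) 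
(.nd (nat_lit 7) (.nd (nat_lit 32) 
(.lf (nat_lit 1610981460) (dlOf (nat_lit 2) (nat_lit 0x5014c000806a0000e04000200080b0681))) 
(.lf (nat_lit 5905948756) (dlOf (nat_lit 1) (nat_lit 0x1e80080160002000e0008160903)))) 
(.lf (nat_lit 5905686740) (dlOf (nat_lit 2) (nat_lit 0x2a80220023702000c00080b0481)))) 
(.nd (nat_lit 28) 
(.lf (nat_lit 5905686868) (dlOf (nat_lit 1) (nat_lit 0x8008001c002000a00080b0683))) 
(.lf (nat_lit 4026638676) (dlOf (nat_lit 1) (nat_lit 0xc0004000c0008014d82)))))) (.nd (nat_lit 27) 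
(.nd (nat_lit 8) (.nd (nat_lit 7) (.nd (nat_lit 18) 
(.lf (nat_lit 4096368724) (dlOf (nat_lit 1) (nat_lit 0x800400020018100682))) 
(.lf (nat_lit 6241493076) (dlOf (nat_lit 1) (nat_lit 0x400200020008100502)))) 
(.lf (nat_lit 1677828308) (dlOf (nat_lit 3) (nat_lit 0x3b0130009240801f00980048e04004c002002e0008090482)))) 
(.nd (nat_lit 11) (.nd (nat_lit 29) 
(.lf (nat_lit 3288441172) (dlOf (nat_lit 1) (nat_lit 0x10008001000200080008014d03))) 
(.lf (nat_lit 1677828436) (dlOf (nat_lit 2) (nat_lit 0x5f0130000280800100080018002003c0008090683)))) 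
(.lf (nat_lit 5972797780) (dlOf (nat_lit 1) (nat_lit 0x400400020008144e02))))) (.nd (nat_lit 7) 
(.nd (nat_lit 18) (.lf (nat_lit 3960053844) (dlOf (nat_lit 1) (nat_lit 0x1600181a1981))) 
(.lf (nat_lit 5838839892) (dlOf (nat_lit 1) (nat_lit 0x200281c1081)))) (.nd (nat_lit 10) 
(.lf (nat_lit 3959529684) (dlOf (nat_lit 3) (nat_lit 0x58040001c7020034020000e2818090480))) 
(.nd (nat_lit 11) (.lf (nat_lit 1275176148) (dlOf (nat_lit 1) (nat_lit 0x400400020008092d82))) 
(.lf (nat_lit 1812049108) (dlOf (nat_lit 1) (nat_lit 0x20018146481))))))))) (.nd (nat_lit 7) 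
(.nd (nat_lit 31) (.nd (nat_lit 21) (.nd (nat_lit 29) (.nd (nat_lit 8) (.nd (nat_lit 27) 
(.lf (nat_lit 5368815732) (dlOf (nat_lit 1) (nat_lit 0x20028030a81))) 
(.lf (nat_lit 5503033460) (dlOf (nat_lit 1) (nat_lit 0x20028030a81)))) 
(.lf (nat_lit 113524) (dlOf (nat_lit 1) (nat_lit 0x40020002000800bc82)))) (.nd (nat_lit 26) 
(.lf (nat_lit 805412980) (dlOf (nat_lit 3) (nat_lit 0x19902a809b014c065809c018204a001d02180cb00dc00140680272031009c017809d00a40670048026e016019f009008a804006640100286006007700000092088019013800c80940064043003201b8023009000c802c0064010003200400091c40002000805dc002001a0008090083))) 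
(.lf (nat_lit 1677828212) (dlOf (nat_lit 3) (nat_lit 0x19902a809b014c065809c018204a001d02180cb00dc00140680272031009c017809d00a40670048026e016019f009008a80400664010028600600770000008c088019013800c80940064043003201b8023009000c802c006401000320040008bc40002000805dc002001a0008090083))))) 
(.nd (nat_lit 8) (.nd (nat_lit 19) 
(.lf (nat_lit 3252340) (dlOf (nat_lit 2) (nat_lit 0x5055800118018200080))) 
(.lf (nat_lit 1009361012) (dlOf (nat_lit 5) (nat_lit 0x140ac000a0530007028000401340000e10000c0ac00060530006028000301340000c1000280ac0014053000802800050134000081000140ac000a0530009028000581340000210002800400060019120d82)))) 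
(.nd (nat_lit 9) (.lf (nat_lit 20031860) (dlOf (nat_lit 1) (nat_lit 0x13000089d4e81))) 
(.lf (nat_lit 8238964) (dlOf (nat_lit 1) (nat_lit 0x24000800040020052000851a303)))))) 
(.nd (nat_lit 18) (.nd (nat_lit 10) (.nd (nat_lit 26) 
(.lf (nat_lit 3221332084) (dlOf (nat_lit 11) (nat_lit 0x160148009c06c0024c040008056005a02a80ca0148034009e002204d006502580c880d80348064011602d00de01480d980980288044026201e00ee009805a00440248020014a00800e100300092090008015400e80a40048036001001680e900980044044009601e0010009800800440040020002471402ec05100b7027005b813405d406a043202701f20130025008c01c404402cc01f016300f00258048003fe2c00d804e01ae026000ff0200bd028805d80d405c404e029202600c300f80608078003fa18047c04c001fc0201a2026000fd81003e01380458098003ea0802700a201f0027009900f00079c180018008028c00200080008090083))) 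
(.lf (nat_lit 3959529588) (dlOf (nat_lit 11) (nat_lit 0x160148009c06c00234040008056005a02a80ca0148034009e002204d006502580c880d80348064011602d00de01480d980980288044026201e00ee009805a00440248020014a00800e10030008c090008015400e80a40048036001001680e900980044044009601e00100098008004400400200022f1402ec05100b7027005b813405d406a043202701f20130025008c01c404402cc01f016300f00258048003da2c00d804e01ae026000f60200bd028805d80d405c404e029202600c300f80608078003d618047c04c001ea0201a2026000f481003e01380458098003c60802700a201f0027009900f000748180018008028c00200080008090083)))) 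
(.nd (nat_lit 9) 
(.lf (nat_lit 2818679924) (dlOf (nat_lit 2) (nat_lit 0x6c00a001800300030000000501800d00080058002001a00080d2a03))) 
(.lf (nat_lit 6576778868) (dlOf (nat_lit 1) (nat_lit 0x400400020008147182))))) (.nd (nat_lit 8) 
(.nd (nat_lit 26) 
(.lf (nat_lit 3492126836) (dlOf (nat_lit 1) (nat_lit 0xd80080018002000a00080a1603))) 
(.lf (nat_lit 2753929332) (dlOf (nat_lit 1) (nat_lit 0xd80080018002000a00080a1603)))) 
(.nd (nat_lit 9) (.lf (nat_lit 3557138804) (dlOf (nat_lit 1) (nat_lit 0xc0002001c0008130a82))) 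
(.lf (nat_lit 2751833972) (dlOf (nat_lit 1) (nat_lit 0x3c8008000400200800008004083))))))) 
(.nd (nat_lit 8) (.nd (nat_lit 9) (.nd (nat_lit 10) (.nd (nat_lit 18) 
(.lf (nat_lit 54108404) (dlOf (nat_lit 3) (nat_lit 0x551880058008008a8c00013804000400400180019612482))) 
(.nd (nat_lit 19) 
(.lf (nat_lit 1881514228) (dlOf (nat_lit 1) (nat_lit 0x8008006800200020008f42483))) 
(.lf (nat_lit 12427508) (dlOf (nat_lit 1) (nat_lit 0x13400086c0481))))) (.nd (nat_lit 18) 
(.lf (nat_lit 1812049140) (dlOf (nat_lit 1) (nat_lit 0x60018146581))) 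
(.lf (nat_lit 3490032884) (dlOf (nat_lit 1) (nat_lit 0x20008006581))))) (.nd (nat_lit 12) 
(.nd (nat_lit 18) (.nd (nat_lit 20) 
(.lf (nat_lit 738831092) (dlOf (nat_lit 1) (nat_lit 0x66800802b800202f60008125a03))) 
(.lf (nat_lit 473541364) (dlOf (nat_lit 1) (nat_lit 0x140028f55a01)))) 
(.lf (nat_lit 69577460) (dlOf (nat_lit 1) (nat_lit 0x400400020008b45a02)))) (.nd (nat_lit 18) 
(.lf (nat_lit 20560628) (dlOf (nat_lit 1) (nat_lit 0x4002000200089db982))) 
(.lf (nat_lit 19774196) (dlOf (nat_lit 1) (nat_lit 0x4002000200089db982)))))) (.nd (nat_lit 9) 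
(.nd (nat_lit 26) (.nd (nat_lit 10) 
(.lf (nat_lit 4026638836) (dlOf (nat_lit 1) (nat_lit 0x88008001800200020008017e03))) 
(.nd (nat_lit 27) 
(.lf (nat_lit 5100381684) (dlOf (nat_lit 1) (nat_lit 0x18008001800200040008053603))) 
(.lf (nat_lit 6308341236) (dlOf (nat_lit 2) (nat_lit 0x60180004d018053600))))) (.nd (nat_lit 27) 
(.lf (nat_lit 4899055092) (dlOf (nat_lit 2) (nat_lit 0x10036000201a0006003800180000010a10011000200040008053602))) 
(.lf (nat_lit 4496401908) (dlOf (nat_lit 1) (nat_lit 0x400400020008053602))))) (.nd (nat_lit 11) 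
(.nd (nat_lit 19) (.lf (nat_lit 5100381172) (dlOf (nat_lit 1) (nat_lit 0x20018052881))) 
(.lf (nat_lit 1611244532) (dlOf (nat_lit 1) (nat_lit 0x400200020008122882)))) (.nd (nat_lit 18) 
(.lf (nat_lit 4563512308) (dlOf (nat_lit 1) (nat_lit 0x400400020008095f02))) (.nd (nat_lit 20) 
(.lf (nat_lit 4094536692) (dlOf (nat_lit 1) (nat_lit 0x400400020008055f02))) 
(.lf (nat_lit 45984756) (dlOf (nat_lit 1) (nat_lit 0x400400020009385f02)))))))))))) 
(.nd (nat_lit 4) (.nd (nat_lit 6) (.nd (nat_lit 5) (.nd (nat_lit 18) (.nd (nat_lit 28) 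
(.nd (nat_lit 19) (.nd (nat_lit 20) (.nd (nat_lit 7) (.nd (nat_lit 26) 
(.lf (nat_lit 1073979396) (dlOf (nat_lit 1) (nat_lit 0x8008000400200020008060003))) 
(.lf (nat_lit 604217348) (dlOf (nat_lit 10) (nat_lit 0x401e002fe0080038060001801e001000e005ea83000700c00010044001001e001000e005ea04000500c0002803c001801c00bcf06000c018000500780038038017920c00040300002011000100780030038000c00400bc80a0014000005de810005000002edc0800280000175c040038004000200080b0002)))) 
(.lf (nat_lit 2334852) (dlOf (nat_lit 2) (nat_lit 0xbca2400025018150100)))) (.nd (nat_lit 9) 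
(.nd (nat_lit 7) (.lf (nat_lit 62103556) (dlOf (nat_lit 2) (nat_lit 0xca3c00932819950000))) 
(.lf (nat_lit 62103684) (dlOf (nat_lit 3) (nat_lit 0x752d8000c408004296c00060040004004007e0009950e02)))) 
(.nd (nat_lit 10) 
(.lf (nat_lit 41132548) (dlOf (nat_lit 1) (nat_lit 0x10008003000200080009227b03))) 
(.lf (nat_lit 2754850308) (dlOf (nat_lit 1) (nat_lit 0x4002000200080f7002)))))) (.nd (nat_lit 21) 
(.nd (nat_lit 20) (.nd (nat_lit 27) 
(.lf (nat_lit 537632772) (dlOf (nat_lit 2) (nat_lit 0x4012c0197e040168004007000080e0002))) 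
(.lf (nat_lit 2819334148) (dlOf (nat_lit 1) (nat_lit 0x800200040008240002)))) 
(.lf (nat_lit 1810436) (dlOf (nat_lit 1) (nat_lit 0x40028140001)))) (.nd (nat_lit 9) 
(.nd (nat_lit 10) 
(.lf (nat_lit 15441924) (dlOf (nat_lit 10) (nat_lit 0x4e6600bd50200027d70002399802f50100009f5c0010e6600bcf040004733005e70100013eb80011ccc01792080004e6600bc80200067d6005de810003399002eb8080009f580175a040058004002800087f0002))) 
(.lf (nat_lit 50045956) (dlOf (nat_lit 1) (nat_lit 0xc00294c2881)))) 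
(.lf (nat_lit 23831044) (dlOf (nat_lit 1) (nat_lit 0x20028b80d81)))))) (.nd (nat_lit 29) 
(.nd (nat_lit 26) (.nd (nat_lit 20) (.nd (nat_lit 10) (.nd (nat_lit 27) 
(.lf (nat_lit 4563640324) (dlOf (nat_lit 4) (nat_lit 0x700d000d805e002c02d000300f8068ec2000a00d000cc05e000802d001300f8068e42000d80c800f805e004802d000a00f8067702000480080170002004200080b0003))) 
(.lf (nat_lit 4697858052) (dlOf (nat_lit 4) (nat_lit 0x700d000d805e002c02d000300f8076802000a00d000cc05e000802d001300f8076782000d80c800f805e004802d000a00f80750c2000480080170002004200080b0003)))) 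
(.lf (nat_lit 1346610180) (dlOf (nat_lit 2) (nat_lit 0x412c004d60200060018fe2881)))) 
(.nd (nat_lit 19) (.lf (nat_lit 1343463428) (dlOf (nat_lit 1) (nat_lit 0x40018250281))) 
(.lf (nat_lit 1346084868) (dlOf (nat_lit 1) (nat_lit 0x20018e30001))))) (.nd (nat_lit 7) 
(.nd (nat_lit 19) (.lf (nat_lit 3691225092) (dlOf (nat_lit 1) (nat_lit 0xa00080b0001))) 
(.lf (nat_lit 1410048004) (dlOf (nat_lit 2) (nat_lit 0x4012c00e2a040168004007000080e0002)))) 
(.lf (nat_lit 3557012100) (dlOf (nat_lit 1) (nat_lit 0x800800f800200600008128b83))))) 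
(.nd (nat_lit 26) (.nd (nat_lit 10) (.nd (nat_lit 7) 
(.lf (nat_lit 2953027588) (dlOf (nat_lit 11) (nat_lit 0x6017000300a8003004e0016021000600f00030060017aa18001805c000a02a000c01380028084001803c000c018005ea060006017000280a8003004e0012021000500f000080600179e18001405c000802a000b01380028084001403c000c018005e7060004017000200a8002c04e0008021000400f000080600179218001c05c000a02a000d01380030084001c03c0004018005e4060001004000b80000177a08004000000bb7020022000005d7010012000002eb40800980080004002001c00080b0003))) 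
(.lf (nat_lit 4026769796) (dlOf (nat_lit 2) (nat_lit 0x18019000000080038008005400200860008090783)))) 
(.nd (nat_lit 9) (.lf (nat_lit 6308473860) (dlOf (nat_lit 1) (nat_lit 0x4004000200080d5f82))) 
(.lf (nat_lit 5234730500) (dlOf (nat_lit 1) (nat_lit 0x600180d3681))))) (.nd (nat_lit 8) 
(.nd (nat_lit 19) 
(.lf (nat_lit 1946394628) (dlOf (nat_lit 1) (nat_lit 0x8008000400200020008060003))) 
(.lf (nat_lit 1007394820) (dlOf (nat_lit 1) (nat_lit 0x400400040008320002)))) 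
(.lf (nat_lit 4094927108) (dlOf (nat_lit 1) (nat_lit 0x20018050a81))))))) (.nd (nat_lit 19) 
(.nd (nat_lit 28) (.nd (nat_lit 22) (.nd (nat_lit 7) (.nd (nat_lit 9) 
(.lf (nat_lit 10985476) (dlOf (nat_lit 3) (nat_lit 0x800000b4201000f000005a0c08003800800bc002000c0008650003))) 
(.lf (nat_lit 1745330692) (dlOf (nat_lit 2) (nat_lit 0x4043000a2018117b00)))) 
(.lf (nat_lit 1678221444) (dlOf (nat_lit 3) (nat_lit 0x24051000801d0000c41008e0144000809e022003a000a01c0000bc2001080080410002000600081a0103)))) 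
(.nd (nat_lit 10) (.nd (nat_lit 23) 
(.lf (nat_lit 2756157444) (dlOf (nat_lit 1) (nat_lit 0x80008210001))) 
(.lf (nat_lit 13082628) (dlOf (nat_lit 6) (nat_lit 0x154940006a3c000349800e35030006a928002d4780006a28000350e0005a4c0071a42800354940026a3c000b5140009a4c0071a020002d4940022a3c00115140007a4c00719c20002d48c000ea3800035120006a45805c502000e0008000c002000600086f0003)))) 
(.lf (nat_lit 47686660) (dlOf (nat_lit 1) (nat_lit 0x8008000400200020009402883))))) 
(.nd (nat_lit 30) (.nd (nat_lit 7) (.nd (nat_lit 27) 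
(.lf (nat_lit 2416418820) (dlOf (nat_lit 8) (nat_lit 0x8026000100900030040000801e001400e00270018006800000cfc1c0040020002600e0033e8200050080019ec0800300480008022001800f00090068016542000280480068022000800f002ca03000a0090008004400b2608000c024001c01100050078016481801b80080004002000a00081c0003))) 
(.lf (nat_lit 2550636548) (dlOf (nat_lit 8) (nat_lit 0x8024000100900030040000801e001400e002700180068000018261c0040020002600e006090200050080030400800300480008022001800f0009006802ca82000280480068022000800f0059483000a009000800440165008000c024001c0110005007802c9c1801b80080004002000a00081c0003)))) 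
(.lf (nat_lit 805806212) (dlOf (nat_lit 3) (nat_lit 0x24051000801d0000c41008e0144000809e022003a000a01c0000bc2001080080410002000600081a0103)))) 
(.nd (nat_lit 20) (.lf (nat_lit 3494354948) (dlOf (nat_lit 1) (nat_lit 0x80008210001))) 
(.lf (nat_lit 1343725572) (dlOf (nat_lit 1) (nat_lit 0x120018340001)))))) (.nd (nat_lit 20) 
(.nd (nat_lit 7) (.nd (nat_lit 9) (.nd (nat_lit 10) 
(.lf (nat_lit 472883204) (dlOf (nat_lit 1) (nat_lit 0x18008000400200020008b50003))) 
(.lf (nat_lit 42968068) (dlOf (nat_lit 1) (nat_lit 0x4004000200092a2882)))) 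
(.lf (nat_lit 19901956) (dlOf (nat_lit 1) (nat_lit 0x1000189d7001)))) (.nd (nat_lit 8) 
(.nd (nat_lit 10) (.lf (nat_lit 6376368772) (dlOf (nat_lit 1) (nat_lit 0x400200020008095482))) 
(.lf (nat_lit 2754588292) (dlOf (nat_lit 2) (nat_lit 0x201100004d02000200180f7181)))) 
(.lf (nat_lit 19900804) (dlOf (nat_lit 1) (nat_lit 0x2e00189d4e81))))) (.nd (nat_lit 21) 
(.nd (nat_lit 28) (.nd (nat_lit 7) 
(.lf (nat_lit 14655492) (dlOf (nat_lit 1) (nat_lit 0x400200020008770002))) 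
(.lf (nat_lit 2072708) (dlOf (nat_lit 2) (nat_lit 0xaae800025018150100)))) (.nd (nat_lit 9) 
(.lf (nat_lit 4095713284) (dlOf (nat_lit 1) (nat_lit 0x200280e0001))) 
(.lf (nat_lit 3491734020) (dlOf (nat_lit 1) (nat_lit 0x20028090d81))))) (.nd (nat_lit 9) 
(.nd (nat_lit 24) 
(.lf (nat_lit 12558340) (dlOf (nat_lit 1) (nat_lit 0x2900080018002000400086d0003))) 
(.lf (nat_lit 29335556) (dlOf (nat_lit 2) (nat_lit 0x1783ec00c7e04000400400060008df0002)))) 
(.lf (nat_lit 2755633668) (dlOf (nat_lit 1) (nat_lit 0x200181b0d81)))))))) (.nd (nat_lit 19) 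
(.nd (nat_lit 18) (.nd (nat_lit 7) (.nd (nat_lit 21) (.nd (nat_lit 22) (.nd (nat_lit 9) 
(.nd (nat_lit 20) 
(.lf (nat_lit 604217380) (dlOf (nat_lit 1) (nat_lit 0x100080024002000a00080b0683))) 
(.lf (nat_lit 1343463460) (dlOf (nat_lit 1) (nat_lit 0x20018250801)))) 
(.lf (nat_lit 2684597796) (dlOf (nat_lit 1) (nat_lit 0x200280a9c01)))) (.nd (nat_lit 24) 
(.lf (nat_lit 37986340) (dlOf (nat_lit 1) (nat_lit 0x8008000400200020009100703))) 
(.lf (nat_lit 21209124) (dlOf (nat_lit 1) (nat_lit 0x400400040008a20582))))) (.nd (nat_lit 8) 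
(.nd (nat_lit 20) (.lf (nat_lit 52666404) (dlOf (nat_lit 2) (nat_lit 0x1a98d00008819560700))) 
(.lf (nat_lit 24354852) (dlOf (nat_lit 1) (nat_lit 0x19400200060008b90902)))) 
(.lf (nat_lit 1008967972) (dlOf (nat_lit 1) (nat_lit 0x1c004000e0009000a82))))) (.nd (nat_lit 20) 
(.nd (nat_lit 23) (.nd (nat_lit 8) (.nd (nat_lit 26) 
(.lf (nat_lit 2818814628) (dlOf (nat_lit 1) (nat_lit 0x20018128c81))) 
(.lf (nat_lit 3557012132) (dlOf (nat_lit 1) (nat_lit 0x20018128c81)))) 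
(.lf (nat_lit 738437540) (dlOf (nat_lit 1) (nat_lit 0x400200020008094e82)))) (.nd (nat_lit 10) 
(.lf (nat_lit 8630948) (dlOf (nat_lit 1) (nat_lit 0x8008000400200020008518c83))) 
(.lf (nat_lit 8631972) (dlOf (nat_lit 1) (nat_lit 0x14002851a001))))) (.nd (nat_lit 10) 
(.nd (nat_lit 9) (.lf (nat_lit 62103716) (dlOf (nat_lit 1) (nat_lit 0x720009951381))) 
(.lf (nat_lit 20165284) (dlOf (nat_lit 1) (nat_lit 0x80080004002000200089d8c83)))) 
(.nd (nat_lit 11) 
(.lf (nat_lit 20166308) (dlOf (nat_lit 1) (nat_lit 0x100080004002000200089da003))) 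
(.lf (nat_lit 2754850468) (dlOf (nat_lit 1) (nat_lit 0x400180f7201))))))) (.nd (nat_lit 26) 
(.nd (nat_lit 10) (.nd (nat_lit 25) (.nd (nat_lit 7) 
(.lf (nat_lit 1611112484) (dlOf (nat_lit 1) (nat_lit 0x4002000200080e0902))) 
(.lf (nat_lit 3490163108) (dlOf (nat_lit 1) (nat_lit 0x20018004e81)))) (.nd (nat_lit 21) 
(.lf (nat_lit 34054180) (dlOf (nat_lit 3) (nat_lit 0x5a814003a30a800217f4000780c00f0c60000390200040028fa0701))) 
(.lf (nat_lit 44539940) (dlOf (nat_lit 1) (nat_lit 0x320029320001))))) (.nd (nat_lit 7) 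
(.nd (nat_lit 9) (.lf (nat_lit 1476895780) (dlOf (nat_lit 1) (nat_lit 0x400182d2881))) 
(.lf (nat_lit 8893988) (dlOf (nat_lit 1) (nat_lit 0x200018519c01)))) 
(.lf (nat_lit 1074245284) (dlOf (nat_lit 2) (nat_lit 0x3803d0001a0180f7200))))) (.nd (nat_lit 21) 
(.nd (nat_lit 11) (.nd (nat_lit 20) 
(.lf (nat_lit 738697252) (dlOf (nat_lit 1) (nat_lit 0x4002000200080e0902))) 
(.lf (nat_lit 2753011748) (dlOf (nat_lit 2) (nat_lit 0x28821c0002604000400400440008070702)))) 
(.lf (nat_lit 1946662948) (dlOf (nat_lit 1) (nat_lit 0x1400280fa601)))) (.nd (nat_lit 29) 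
(.lf (nat_lit 69705764) (dlOf (nat_lit 1) (nat_lit 0x28008000400200020008bc0703))) 
(.lf (nat_lit 2754060324) (dlOf (nat_lit 1) (nat_lit 0x800280b0a81))))))) (.nd (nat_lit 21) 
(.nd (nat_lit 18) (.nd (nat_lit 11) (.nd (nat_lit 22) (.nd (nat_lit 26) 
(.lf (nat_lit 537632804) (dlOf (nat_lit 2) (nat_lit 0x4d4052001170180e0480))) 
(.lf (nat_lit 1410048036) (dlOf (nat_lit 2) (nat_lit 0x4d4052001170180e0480)))) 
(.lf (nat_lit 21733412) (dlOf (nat_lit 3) (nat_lit 0x1a724027c22a0005604004414300000018a60b80)))) 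
(.nd (nat_lit 7) (.lf (nat_lit 134985764) (dlOf (nat_lit 1) (nat_lit 0x400180fa601))) 
(.nd (nat_lit 8) 
(.lf (nat_lit 4362841764) (dlOf (nat_lit 1) (nat_lit 0x2e000800a800200360008117203))) 
(.lf (nat_lit 39561636) (dlOf (nat_lit 1) (nat_lit 0x20019194e81)))))) (.nd (nat_lit 25) 
(.nd (nat_lit 22) (.lf (nat_lit 470786084) (dlOf (nat_lit 1) (nat_lit 0x1400281a0701))) 
(.lf (nat_lit 13606948) (dlOf (nat_lit 13) (nat_lit 0x856f50011b810036e19802150840036046001d4060063c330010a1080074c1001ef0cc00f6842007102d0038811800748200436f4c002b00401e77a600157020017bd3000a8810024de980052c08064ef4c002840400d77a600140020055bd30009f810078de98004d008032800800e000200040008730903)))) 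
(.nd (nat_lit 8) (.lf (nat_lit 44015652) (dlOf (nat_lit 2) (nat_lit 0xf5db0001b0192b0780))) 
(.lf (nat_lit 42968356) (dlOf (nat_lit 1) (nat_lit 0x200192a3101)))))) (.nd (nat_lit 7) 
(.nd (nat_lit 9) (.nd (nat_lit 10) (.nd (nat_lit 20) 
(.lf (nat_lit 1345036324) (dlOf (nat_lit 5) (nat_lit 0x621a900120b400380514003c28600ea0cf0022039800f80700008a1c001c2d20016168000800e800700700006c1000182d2007801d0001602000f00e00007408043800800f4002004c00089d0703))) 
(.lf (nat_lit 3907620) (dlOf (nat_lit 1) (nat_lit 0x1c0028250b81)))) 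
(.lf (nat_lit 32220196) (dlOf (nat_lit 1) (nat_lit 0x20008ef2881)))) (.nd (nat_lit 8) 
(.lf (nat_lit 24093220) (dlOf (nat_lit 11) (nat_lit 0x1e1740002c0400130ba0001502000785d0001be18000381000461740001a04001b0ba0000c02000b85d0000581000ec2e80076164001af860000606001185d00002810007c2e80001008000e1740000004000400400020018b80e02))) 
(.lf (nat_lit 19639076) (dlOf (nat_lit 1) (nat_lit 0x4002000200089d5c02))))) (.nd (nat_lit 8) 
(.nd (nat_lit 9) (.lf (nat_lit 37725348) (dlOf (nat_lit 1) (nat_lit 0x1a00090d2c01))) 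
(.nd (nat_lit 10) (.lf (nat_lit 8368804) (dlOf (nat_lit 1) (nat_lit 0x400200020008518c82))) 
(.lf (nat_lit 19904164) (dlOf (nat_lit 1) (nat_lit 0x4002000200089da002))))) (.nd (nat_lit 9) 
(.lf (nat_lit 19643812) (dlOf (nat_lit 4) (nat_lit 0x1160200066020004b0100032810016580800000080100008003c002000400089dcb03))) 
(.nd (nat_lit 11) (.lf (nat_lit 19642276) (dlOf (nat_lit 1) (nat_lit 0x200289da301))) 
(.lf (nat_lit 19640228) (dlOf (nat_lit 1) (nat_lit 0x100080008002000800089d7903)))))))))) 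
(.nd (nat_lit 18) (.nd (nat_lit 8) (.nd (nat_lit 19) (.nd (nat_lit 28) (.nd (nat_lit 5) 
(.nd (nat_lit 9) (.nd (nat_lit 23) 
(.lf (nat_lit 4431940) (dlOf (nat_lit 1) (nat_lit 0x60028290081))) 
(.lf (nat_lit 63152196) (dlOf (nat_lit 1) (nat_lit 0x200299e0601)))) (.nd (nat_lit 10) 
(.lf (nat_lit 23306820) (dlOf (nat_lit 1) (nat_lit 0x800800c4002003e0008b81103))) 
(.lf (nat_lit 6509801028) (dlOf (nat_lit 1) (nat_lit 0x20008147181))))) (.nd (nat_lit 7) 
(.nd (nat_lit 20) 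
(.lf (nat_lit 44277860) (dlOf (nat_lit 2) (nat_lit 0x10c5e000661400022fe00339c1800280080044002003000092e0783))) 
(.lf (nat_lit 24354916) (dlOf (nat_lit 1) (nat_lit 0x400200020008b91382)))) 
(.lf (nat_lit 20167396) (dlOf (nat_lit 1) (nat_lit 0xa80080024002002400089db983))))) 
(.nd (nat_lit 29) (.nd (nat_lit 30) (.nd (nat_lit 27) 
(.lf (nat_lit 4563640388) (dlOf (nat_lit 1) (nat_lit 0x80080008002004000080b0583))) 
(.lf (nat_lit 4697858116) (dlOf (nat_lit 1) (nat_lit 0x80080008002004000080b0583)))) 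
(.nd (nat_lit 5) (.lf (nat_lit 5704491076) (dlOf (nat_lit 1) (nat_lit 0x200280d0001))) 
(.lf (nat_lit 3494093028) (dlOf (nat_lit 2) (nat_lit 0xa000000470181b0480))))) (.nd (nat_lit 5) 
(.nd (nat_lit 21) (.lf (nat_lit 6174253124) (dlOf (nat_lit 1) (nat_lit 0x4004000200080d0002))) 
(.lf (nat_lit 1881382980) (dlOf (nat_lit 1) (nat_lit 0x400200020008ef0d82)))) 
(.lf (nat_lit 2080613604) (dlOf (nat_lit 1) (nat_lit 0x140028092e01)))))) (.nd (nat_lit 21) 
(.nd (nat_lit 23) (.nd (nat_lit 7) (.nd (nat_lit 9) (.nd (nat_lit 26) 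
(.lf (nat_lit 5772124228) (dlOf (nat_lit 1) (nat_lit 0x2c00200020008080d82))) 
(.lf (nat_lit 6376104004) (dlOf (nat_lit 1) (nat_lit 0x2c00200020008080d82)))) 
(.lf (nat_lit 67871300) (dlOf (nat_lit 1) (nat_lit 0x20018331581)))) (.nd (nat_lit 9) 
(.lf (nat_lit 34317508) (dlOf (nat_lit 1) (nat_lit 0x18008000400200020008fb2d03))) 
(.lf (nat_lit 67877572) (dlOf (nat_lit 1) (nat_lit 0x40020002000833b982))))) (.nd (nat_lit 5) 
(.nd (nat_lit 24) (.lf (nat_lit 9150532) (dlOf (nat_lit 1) (nat_lit 0x400400020008521682))) 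
(.lf (nat_lit 59482180) (dlOf (nat_lit 25) (nat_lit 0x4f33e801519f0015cccc008866500642ca0023164c010c9cc00a64d4000ae08002c26a00056c0800219f0005cccc003e665001126a0005682001f19f40134cf80086666003b332801f16500100b26008a4e6003e26a00058fc8002aa240004cfc001467c0008333800219940014b2a00124e6000526a0004c43800199f0001ccce0046665000e2ca800a139800c49a80012e0c000c5950009201008e33f0003900800119f800194040004b24000be02011267b008a3320045164802249ca000bd08000a4e50005d81002933d802199900013208010ccf6008c66400422728002601800999900012e04011ccf6009466400482c90025139401409a6000950a008867b004633200029648010c9ca0008908008667b0046332000e164800d09ca00884d30004305005033d802999900144b2400aa4e5005b2698002082802219ec00249ca0002604001267b0001081001e33d8000800801919900068b2400864e50000e83004333d8023199000f89ca0000f0600440029800601)))) 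
(.nd (nat_lit 22) (.lf (nat_lit 59482212) (dlOf (nat_lit 1) (nat_lit 0x20019800981))) 
(.lf (nat_lit 30122084) (dlOf (nat_lit 1) (nat_lit 0x5d800400420008e30482)))))) (.nd (nat_lit 5) 
(.nd (nat_lit 10) (.nd (nat_lit 20) 
(.lf (nat_lit 1009492036) (dlOf (nat_lit 1) (nat_lit 0x200291a0601))) 
(.lf (nat_lit 45850692) (dlOf (nat_lit 1) (nat_lit 0x160029360601)))) (.nd (nat_lit 7) 
(.lf (nat_lit 19643460) (dlOf (nat_lit 1) (nat_lit 0x25c004005400189dbf02))) 
(.lf (nat_lit 58434756) (dlOf (nat_lit 1) (nat_lit 0x200197e2d01))))) (.nd (nat_lit 7) 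
(.nd (nat_lit 9) (.lf (nat_lit 19636324) (dlOf (nat_lit 1) (nat_lit 0x28004000400189d0102))) 
(.lf (nat_lit 19639908) (dlOf (nat_lit 2) (nat_lit 0x2426000718189d7180)))) 
(.lf (nat_lit 8103652) (dlOf (nat_lit 1) (nat_lit 0x400400020008513a82))))))) (.nd (nat_lit 7) 
(.nd (nat_lit 5) (.nd (nat_lit 9) (.nd (nat_lit 22) (.nd (nat_lit 26) 
(.lf (nat_lit 805544260) (dlOf (nat_lit 2) (nat_lit 0x5400a0021f818124c00))) 
(.lf (nat_lit 1677959492) (dlOf (nat_lit 2) (nat_lit 0x5400a004ea018124c00)))) 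
(.lf (nat_lit 3494093124) (dlOf (nat_lit 1) (nat_lit 0x2400181b0601)))) (.nd (nat_lit 26) 
(.lf (nat_lit 6308473668) (dlOf (nat_lit 1) (nat_lit 0x200280d5c01))) 
(.lf (nat_lit 4899187524) (dlOf (nat_lit 2) (nat_lit 0x60310001018000680bc0011c0c0008002000200080d5c02))))) 
(.nd (nat_lit 28) (.nd (nat_lit 9) (.nd (nat_lit 10) 
(.lf (nat_lit 67875172) (dlOf (nat_lit 1) (nat_lit 0x400400020008338382))) 
(.lf (nat_lit 20163940) (dlOf (nat_lit 1) (nat_lit 0xc004000200089d6a82)))) 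
(.lf (nat_lit 54242148) (dlOf (nat_lit 1) (nat_lit 0x20029655c01)))) (.nd (nat_lit 10) 
(.nd (nat_lit 27) (.lf (nat_lit 1409524068) (dlOf (nat_lit 1) (nat_lit 0x40008014f01))) 
(.lf (nat_lit 1543741796) (dlOf (nat_lit 2) (nat_lit 0x801a00258018154f00)))) 
(.lf (nat_lit 4093879652) (dlOf (nat_lit 1) (nat_lit 0x400400020008003482)))))) (.nd (nat_lit 19) 
(.nd (nat_lit 5) (.nd (nat_lit 21) (.nd (nat_lit 26) 
(.lf (nat_lit 4026769860) (dlOf (nat_lit 3) (nat_lit 0xec0060002702007e00300013018090900))) 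
(.lf (nat_lit 3288572356) (dlOf (nat_lit 3) (nat_lit 0xec0060002702007e00300013018090900)))) 
(.nd (nat_lit 20) (.lf (nat_lit 23306692) (dlOf (nat_lit 1) (nat_lit 0x20028b80901))) 
(.lf (nat_lit 41132484) (dlOf (nat_lit 1) (nat_lit 0x20029227001))))) (.nd (nat_lit 9) 
(.nd (nat_lit 20) (.lf (nat_lit 805544420) (dlOf (nat_lit 2) (nat_lit 0x4000e00033018127300))) 
(.lf (nat_lit 9675236) (dlOf (nat_lit 1) (nat_lit 0x18c00400d80008577d02)))) 
(.lf (nat_lit 6308473828) (dlOf (nat_lit 1) (nat_lit 0x10004000600180d5e82))))) (.nd (nat_lit 9) 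
(.nd (nat_lit 5) (.nd (nat_lit 10) 
(.lf (nat_lit 69968324) (dlOf (nat_lit 1) (nat_lit 0x6800400040008e27a82))) 
(.lf (nat_lit 8103364) (dlOf (nat_lit 1) (nat_lit 0x400200020008513602)))) 
(.lf (nat_lit 19641828) (dlOf (nat_lit 1) (nat_lit 0x3200289d9b01)))) (.nd (nat_lit 10) 
(.lf (nat_lit 19643332) (dlOf (nat_lit 1) (nat_lit 0x30004002a00089dbe02))) 
(.lf (nat_lit 8107972) (dlOf (nat_lit 1) (nat_lit 0x2a002851a601)))))))) (.nd (nat_lit 28) 
(.nd (nat_lit 19) (.nd (nat_lit 29) (.nd (nat_lit 20) (.nd (nat_lit 22) 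
(.lf (nat_lit 2596932) (dlOf (nat_lit 1) (nat_lit 0xc002001c0008170d02))) (.nd (nat_lit 24) 
(.lf (nat_lit 48734276) (dlOf (nat_lit 5) (nat_lit 0x11d524002c604002aa92001420200155490005f01000baa48002ec080070008000400200260009420603))) 
(.lf (nat_lit 31957060) (dlOf (nat_lit 1) (nat_lit 0x40028eb0601))))) (.nd (nat_lit 7) 
(.nd (nat_lit 21) (.lf (nat_lit 35102788) (dlOf (nat_lit 1) (nat_lit 0x20028fd0601))) 
(.lf (nat_lit 37199940) (dlOf (nat_lit 1) (nat_lit 0xec00200f000090b0602)))) (.nd (nat_lit 5) 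
(.lf (nat_lit 58171844) (dlOf (nat_lit 1) (nat_lit 0x200097c7001))) 
(.lf (nat_lit 47686628) (dlOf (nat_lit 1) (nat_lit 0x80029402881)))))) (.nd (nat_lit 7) 
(.nd (nat_lit 8) (.nd (nat_lit 5) 
(.lf (nat_lit 3892813892) (dlOf (nat_lit 2) (nat_lit 0x1811c0152e04003800400120008280002))) 
(.lf (nat_lit 3892813924) (dlOf (nat_lit 2) (nat_lit 0x9815c009d2040138004000c0008280482)))) 
(.nd (nat_lit 10) (.lf (nat_lit 1678221636) (dlOf (nat_lit 2) (nat_lit 0x46000000000181a0600))) 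
(.lf (nat_lit 604480836) (dlOf (nat_lit 1) (nat_lit 0x200282d3301))))) (.nd (nat_lit 5) 
(.nd (nat_lit 8) (.lf (nat_lit 1678221508) (dlOf (nat_lit 1) (nat_lit 0x200181a0401))) 
(.lf (nat_lit 1745330628) (dlOf (nat_lit 5) (nat_lit 0x408600220000010d0200010228001810c005000000215060006000000de01000a0000006e8080380008002000200180008117003)))) 
(.lf (nat_lit 1678221540) (dlOf (nat_lit 2) (nat_lit 0x100b40013a040098004008200081a0482)))))) 
(.nd (nat_lit 21) (.nd (nat_lit 22) (.nd (nat_lit 5) (.nd (nat_lit 7) 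
(.lf (nat_lit 59744324) (dlOf (nat_lit 1) (nat_lit 0x400400020009820602))) 
(.lf (nat_lit 42967492) (dlOf (nat_lit 2) (nat_lit 0x7497000378192a1080)))) 
(.lf (nat_lit 69181540) (dlOf (nat_lit 1) (nat_lit 0x4e00188c0981)))) (.nd (nat_lit 23) 
(.lf (nat_lit 21995588) (dlOf (nat_lit 9) (nat_lit 0x290918000700807b048c040824201fe0dd010206b801180e40440038021201700e50000000684001b035c0378000000180400e80dd007506b8038005402600000001408017ebcc01075e1005d2ed400f973a0040b47007159e807c0374040c1ae0208093010a00e0084005c042c02a01e8000000098d000806e80004408026000000004040074000000000200020028a80e81))) 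
(.lf (nat_lit 13606980) (dlOf (nat_lit 9) (nat_lit 0x157c630068deb00018410028718c00c77ac0006004000bbd60002f81000ce318003ef58000520800a78c600028020003c6300012810035e318003ef580003c0801ef8c60043bd600000028730c00))))) 
(.nd (nat_lit 11) (.nd (nat_lit 5) (.nd (nat_lit 7) 
(.lf (nat_lit 8365636) (dlOf (nat_lit 1) (nat_lit 0x40018513801))) 
(.lf (nat_lit 19903172) (dlOf (nat_lit 1) (nat_lit 0x4002000200089d8c82)))) 
(.lf (nat_lit 46112868) (dlOf (nat_lit 6) (nat_lit 0x200000025010003afd800104080045a0800980000003f0400176820001e81000bafd8000ec08048800800a400200040009380103)))) 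
(.nd (nat_lit 8) (.lf (nat_lit 41921092) (dlOf (nat_lit 1) (nat_lit 0x8008003400200020009245203))) 
(.lf (nat_lit 19901252) (dlOf (nat_lit 1) (nat_lit 0x4002000200089d5c02))))))) (.nd (nat_lit 5) 
(.nd (nat_lit 27) (.nd (nat_lit 30) (.nd (nat_lit 7) 
(.lf (nat_lit 805806404) (dlOf (nat_lit 2) (nat_lit 0x46000000000181a0600))) 
(.lf (nat_lit 805806276) (dlOf (nat_lit 1) (nat_lit 0x200181a0401)))) (.nd (nat_lit 9) 
(.lf (nat_lit 4027031620) (dlOf (nat_lit 1) (nat_lit 0x200181b0001))) 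
(.lf (nat_lit 1342677572) (dlOf (nat_lit 1) (nat_lit 0x400180c1101))))) (.nd (nat_lit 8) 
(.nd (nat_lit 9) (.nd (nat_lit 19) 
(.lf (nat_lit 1009229892) (dlOf (nat_lit 1) (nat_lit 0x2f80080094002008800090a0603))) 
(.lf (nat_lit 473931844) (dlOf (nat_lit 2) (nat_lit 0x1b05740017a04018000400a00008fc0602)))) 
(.lf (nat_lit 470262340) (dlOf (nat_lit 1) (nat_lit 0x400180c1101)))) 
(.lf (nat_lit 5773960516) (dlOf (nat_lit 1) (nat_lit 0x800180e3301))))) (.nd (nat_lit 7) 
(.nd (nat_lit 8) (.nd (nat_lit 11) 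
(.lf (nat_lit 1009229924) (dlOf (nat_lit 1) (nat_lit 0x200290a0981))) 
(.lf (nat_lit 3492788324) (dlOf (nat_lit 1) (nat_lit 0x100080020002000400080fa803)))) 
(.nd (nat_lit 10) 
(.lf (nat_lit 3490685284) (dlOf (nat_lit 3) (nat_lit 0x800100098c04017018000920b500300508012c0180050008014800200060008014f03))) 
(.lf (nat_lit 3490164068) (dlOf (nat_lit 1) (nat_lit 0x400400020008006a82))))) (.nd (nat_lit 11) 
(.nd (nat_lit 8) (.lf (nat_lit 471310564) (dlOf (nat_lit 1) (nat_lit 0x1600282e0581))) 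
(.lf (nat_lit 3490685412) (dlOf (nat_lit 2) (nat_lit 0x1b03000002c04001000400080008017302)))) 
(.nd (nat_lit 9) (.lf (nat_lit 1946659044) (dlOf (nat_lit 1) (nat_lit 0x1c002000400080f4b02))) 
(.lf (nat_lit 1476897508) (dlOf (nat_lit 4) (nat_lit 0x880f40018068002c02a001301000078030002801200240000001f8700070060000e80800600f40050068001e02a000d010000300640030018000c009000d000000000400060008000c002000200082d5983)))))))))) 
(.nd (nat_lit 5) (.nd (nat_lit 6) (.nd (nat_lit 28) (.nd (nat_lit 19) (.nd (nat_lit 7) 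
(.nd (nat_lit 18) (.nd (nat_lit 9) (.nd (nat_lit 12) (.nd (nat_lit 27) 
(.lf (nat_lit 604217364) (dlOf (nat_lit 4) (nat_lit 0x180000001d0200020000000e01000601e000080e400000080054004000200180b0282))) 
(.lf (nat_lit 1812176916) (dlOf (nat_lit 1) (nat_lit 0x400200020008170882)))) 
(.lf (nat_lit 2818813972) (dlOf (nat_lit 1) (nat_lit 0xe60018127a81)))) (.nd (nat_lit 10) 
(.lf (nat_lit 3288572436) (dlOf (nat_lit 2) (nat_lit 0x1c800b0006e018090d80))) 
(.lf (nat_lit 20164116) (dlOf (nat_lit 2) (nat_lit 0x180a40003202000200089d7081))))) 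
(.nd (nat_lit 27) (.nd (nat_lit 29) 
(.lf (nat_lit 4362575892) (dlOf (nat_lit 1) (nat_lit 0x60018090001))) 
(.lf (nat_lit 1678221332) (dlOf (nat_lit 3) (nat_lit 0x2102b001f600800300dc0083604011c004004600081a0002)))) 
(.lf (nat_lit 738697236) (dlOf (nat_lit 2) (nat_lit 0x40550000a0180e0280))))) (.nd (nat_lit 8) 
(.nd (nat_lit 21) (.nd (nat_lit 10) 
(.lf (nat_lit 2752749716) (dlOf (nat_lit 1) (nat_lit 0x8008001000200020008044003))) 
(.lf (nat_lit 1610851476) (dlOf (nat_lit 1) (nat_lit 0x2400400740018092b82)))) (.nd (nat_lit 18) 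
(.lf (nat_lit 2334868) (dlOf (nat_lit 1) (nat_lit 0x150002007a0008150182))) 
(.lf (nat_lit 23568532) (dlOf (nat_lit 1) (nat_lit 0x400200020008b80182))))) (.nd (nat_lit 9) 
(.nd (nat_lit 10) 
(.lf (nat_lit 62103956) (dlOf (nat_lit 1) (nat_lit 0xf000800e800200e00009956483))) 
(.lf (nat_lit 8889748) (dlOf (nat_lit 1) (nat_lit 0x400200020008513602)))) (.nd (nat_lit 11) 
(.lf (nat_lit 20165524) (dlOf (nat_lit 1) (nat_lit 0x200289d9081))) 
(.lf (nat_lit 4899187604) (dlOf (nat_lit 2) (nat_lit 0x5019000200c40030060001a02f000100e8000800000070180090002000200080d5c82))))))) 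
(.nd (nat_lit 22) (.nd (nat_lit 23) (.nd (nat_lit 9) (.nd (nat_lit 27) 
(.lf (nat_lit 537632788) (dlOf (nat_lit 4) (nat_lit 0xec0960004702039404b000230101790258001140802480080078002002400080e0183))) 
(.lf (nat_lit 2819334164) (dlOf (nat_lit 2) (nat_lit 0x40380002300800380080014002000a0008240383)))) 
(.nd (nat_lit 21) 
(.lf (nat_lit 51094036) (dlOf (nat_lit 8) (nat_lit 0xeb7d00095be0000a734000ee0c00356fa00076020012b7d0003881000f5be8001c008004adf4000c60400256fa0006102001ab7d000708c8000001000080080014002000400094f7d03))) 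
(.lf (nat_lit 69968404) (dlOf (nat_lit 1) (nat_lit 0x80008000400200020008e28703))))) 
(.nd (nat_lit 18) (.nd (nat_lit 20) 
(.lf (nat_lit 59482132) (dlOf (nat_lit 4) (nat_lit 0xe33f0002999c00308080048cfc001830200084e60003272800b9350000000c007800400060009800082))) 
(.lf (nat_lit 26976276) (dlOf (nat_lit 1) (nat_lit 0xa40008c90281)))) 
(.lf (nat_lit 42967060) (dlOf (nat_lit 2) (nat_lit 0x1a57006d380801b800800b0002001600092a0003))))) 
(.nd (nat_lit 18) (.nd (nat_lit 10) (.nd (nat_lit 21) 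
(.lf (nat_lit 21733396) (dlOf (nat_lit 1) (nat_lit 0x30008004000200260008a60a03))) 
(.lf (nat_lit 15441940) (dlOf (nat_lit 1) (nat_lit 0x8008000c002000200087f0283)))) 
(.lf (nat_lit 50045972) (dlOf (nat_lit 1) (nat_lit 0xe00294c2881)))) (.nd (nat_lit 23) 
(.nd (nat_lit 8) (.lf (nat_lit 25141268) (dlOf (nat_lit 1) (nat_lit 0x20018be0a81))) 
(.lf (nat_lit 24092948) (dlOf (nat_lit 1) (nat_lit 0x198004001a0018b80482)))) (.nd (nat_lit 21) 
(.lf (nat_lit 13606932) (dlOf (nat_lit 3) (nat_lit 0x77a600d8002001bbd3006bf818730880))) 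
(.lf (nat_lit 15704084) (dlOf (nat_lit 1) (nat_lit 0x8008006000200220008820303)))))))) 
(.nd (nat_lit 30) (.nd (nat_lit 7) (.nd (nat_lit 18) (.nd (nat_lit 26) (.nd (nat_lit 27) 
(.lf (nat_lit 2953027604) (dlOf (nat_lit 6) (nat_lit 0x480a40020040001201700080088001042000300a40014040000801700060088001002000100a4000402e00060110001f03000701480030080001c02e000c0110001e84000c0000000000800080080034002000a00080b0283))) 
(.lf (nat_lit 939761684) (dlOf (nat_lit 1) (nat_lit 0x400200020008170882)))) 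
(.lf (nat_lit 2617483284) (dlOf (nat_lit 3) (nat_lit 0x40680003e0200060340001b8180c0500)))) 
(.nd (nat_lit 19) 
(.lf (nat_lit 2550636564) (dlOf (nat_lit 5) (nat_lit 0x20088005003c002401a0020a06000c01200060088002003c001801a0020908001201200090088002803c001401a0020808000c01200050088003003c001c01a0020708000800081c0701))) 
(.lf (nat_lit 473931796) (dlOf (nat_lit 2) (nat_lit 0x60b300079c080008008002c00200140008fc0083))))) 
(.nd (nat_lit 8) (.nd (nat_lit 10) (.nd (nat_lit 21) 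
(.lf (nat_lit 2483265684) (dlOf (nat_lit 3) (nat_lit 0x3801e0004002001e00f0001f818090180))) 
(.lf (nat_lit 1008967828) (dlOf (nat_lit 1) (nat_lit 0x940009000481)))) 
(.lf (nat_lit 872653972) (dlOf (nat_lit 1) (nat_lit 0x440028092b81)))) 
(.lf (nat_lit 5100514196) (dlOf (nat_lit 1) (nat_lit 0x80080004002000200080d5c83))))) 
(.nd (nat_lit 9) (.nd (nat_lit 19) (.nd (nat_lit 10) (.nd (nat_lit 7) (.nd (nat_lit 22) 
(.lf (nat_lit 1342414868) (dlOf (nat_lit 7) (nat_lit 0x5f091c003be04020448e001dd0201a4247000e58100be1238006a808038891c0035004035048e0018e02001c0008020481))) 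
(.lf (nat_lit 3494092820) (dlOf (nat_lit 1) (nat_lit 0x200181b0001)))) 
(.lf (nat_lit 3490947220) (dlOf (nat_lit 1) (nat_lit 0x8008001000200020008044003)))) 
(.nd (nat_lit 26) (.lf (nat_lit 6308473876) (dlOf (nat_lit 1) (nat_lit 0x400080d5f81))) 
(.lf (nat_lit 6241365012) (dlOf (nat_lit 1) (nat_lit 0x4004000400080d5f82))))) (.nd (nat_lit 20) 
(.nd (nat_lit 21) 
(.lf (nat_lit 1410048020) (dlOf (nat_lit 4) (nat_lit 0xec0960004702039404b000230101790258001140802480080078002002400080e0183))) 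
(.lf (nat_lit 1345036308) (dlOf (nat_lit 1) (nat_lit 0x700080058002002c00089d0483)))) 
(.lf (nat_lit 1343987732) (dlOf (nat_lit 1) (nat_lit 0xd60018390a01))))) (.nd (nat_lit 11) 
(.nd (nat_lit 20) (.lf (nat_lit 1342677524) (dlOf (nat_lit 1) (nat_lit 0x200180c0d81))) 
(.lf (nat_lit 1345823252) (dlOf (nat_lit 1) (nat_lit 0x18008000c00200020008e07d03)))) 
(.nd (nat_lit 8) 
(.lf (nat_lit 1476897300) (dlOf (nat_lit 4) (nat_lit 0x400b4001003a000a0000000303000801680028074000c0000000506000c02d000700e80028000000000c0038004001600182d5082))) 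
(.lf (nat_lit 6308473620) (dlOf (nat_lit 1) (nat_lit 0x4004000200080d5b82)))))))) (.nd (nat_lit 18) 
(.nd (nat_lit 28) (.nd (nat_lit 8) (.nd (nat_lit 19) (.nd (nat_lit 29) 
(.lf (nat_lit 5570273364) (dlOf (nat_lit 1) (nat_lit 0x4004000200080d0002))) 
(.lf (nat_lit 1812176980) (dlOf (nat_lit 1) (nat_lit 0x10002000c0008171082)))) (.nd (nat_lit 21) 
(.lf (nat_lit 59482196) (dlOf (nat_lit 2) (nat_lit 0x8733f000018080010008024c00201040009800783))) 
(.lf (nat_lit 2859092) (dlOf (nat_lit 2) (nat_lit 0x4216a000000181c0d80))))) (.nd (nat_lit 9) 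
(.nd (nat_lit 26) (.nd (nat_lit 27) 
(.lf (nat_lit 537108820) (dlOf (nat_lit 3) (nat_lit 0x2037800c01b40004a0800580de001206e0016036800b019800540c40060061001a030001280000004620000400200240008014d82))) 
(.lf (nat_lit 671326548) (dlOf (nat_lit 1) (nat_lit 0x10008001800200020008154d83)))) 
(.lf (nat_lit 1677959508) (dlOf (nat_lit 2) (nat_lit 0x300c00001a040004004000c0008124d82)))) 
(.nd (nat_lit 10) (.lf (nat_lit 8106836) (dlOf (nat_lit 1) (nat_lit 0x400400020008518f82))) 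
(.lf (nat_lit 2818815828) (dlOf (nat_lit 1) (nat_lit 0x100080028002000a000812a283)))))) 
(.nd (nat_lit 29) (.nd (nat_lit 30) (.nd (nat_lit 26) (.nd (nat_lit 27) 
(.lf (nat_lit 4563640404) (dlOf (nat_lit 1) (nat_lit 0x12000801b8002006600080b0683))) 
(.lf (nat_lit 4697858132) (dlOf (nat_lit 1) (nat_lit 0x12000801b8002006600080b0683)))) 
(.lf (nat_lit 469999700) (dlOf (nat_lit 2) (nat_lit 0xd12380008550015de080034002002a0008020902)))) 
(.nd (nat_lit 7) (.lf (nat_lit 5773172820) (dlOf (nat_lit 1) (nat_lit 0x200180b0681))) 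
(.nd (nat_lit 10) 
(.lf (nat_lit 3624118740) (dlOf (nat_lit 1) (nat_lit 0x30008000c00200060008144e83))) 
(.lf (nat_lit 5704492500) (dlOf (nat_lit 1) (nat_lit 0x8004000200080d3602)))))) (.nd (nat_lit 7) 
(.nd (nat_lit 19) (.nd (nat_lit 30) 
(.lf (nat_lit 939761748) (dlOf (nat_lit 1) (nat_lit 0x10002000c0008171082))) 
(.lf (nat_lit 6308470868) (dlOf (nat_lit 1) (nat_lit 0x200280d0001)))) 
(.lf (nat_lit 6377152596) (dlOf (nat_lit 1) (nat_lit 0x200180b0681)))) 
(.lf (nat_lit 6174254548) (dlOf (nat_lit 1) (nat_lit 0x8004000200080d3602)))))) (.nd (nat_lit 8) 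
(.nd (nat_lit 19) (.nd (nat_lit 7) (.nd (nat_lit 22) 
(.lf (nat_lit 1009229908) (dlOf (nat_lit 1) (nat_lit 0x300080004002001c00090a0783))) 
(.nd (nat_lit 24) 
(.lf (nat_lit 48734292) (dlOf (nat_lit 2) (nat_lit 0x395e00002aa480009c100068008008400200580009420783))) 
(.lf (nat_lit 31957076) (dlOf (nat_lit 1) (nat_lit 0x10008000800200040008eb0783))))) 
(.nd (nat_lit 26) (.lf (nat_lit 805806292) (dlOf (nat_lit 1) (nat_lit 0x200181a0481))) 
(.lf (nat_lit 1678221524) (dlOf (nat_lit 1) (nat_lit 0x200181a0481))))) (.nd (nat_lit 11) 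
(.nd (nat_lit 9) (.lf (nat_lit 59744340) (dlOf (nat_lit 1) (nat_lit 0x60029820781))) 
(.lf (nat_lit 19898964) (dlOf (nat_lit 1) (nat_lit 0x4002000200089d1682)))) (.nd (nat_lit 20) 
(.lf (nat_lit 1345301076) (dlOf (nat_lit 1) (nat_lit 0x5000200020008b55302))) 
(.lf (nat_lit 41921108) (dlOf (nat_lit 1) (nat_lit 0x1e0019245301)))))) (.nd (nat_lit 19) 
(.nd (nat_lit 22) (.nd (nat_lit 7) (.nd (nat_lit 26) 
(.lf (nat_lit 805806420) (dlOf (nat_lit 1) (nat_lit 0x280080010002002000081a0683))) 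
(.lf (nat_lit 1678221652) (dlOf (nat_lit 1) (nat_lit 0x280080010002002000081a0683)))) 
(.lf (nat_lit 505300) (dlOf (nat_lit 1) (nat_lit 0x20018009b01)))) (.nd (nat_lit 21) 
(.lf (nat_lit 29860180) (dlOf (nat_lit 1) (nat_lit 0x1c00400120008e30882))) 
(.lf (nat_lit 23568724) (dlOf (nat_lit 2) (nat_lit 0x56940002b018b80680))))) (.nd (nat_lit 7) 
(.nd (nat_lit 26) (.lf (nat_lit 3490685268) (dlOf (nat_lit 1) (nat_lit 0x20028014d01))) 
(.lf (nat_lit 2752487764) (dlOf (nat_lit 3) (nat_lit 0x809e0001281000100580008c0800080080040002003c0008014d83)))) 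
(.lf (nat_lit 42967508) (dlOf (nat_lit 2) (nat_lit 0x1337d8000500800100080008002000200092a1183)))))))) 
(.nd (nat_lit 6) (.nd (nat_lit 19) (.nd (nat_lit 26) (.nd (nat_lit 28) (.nd (nat_lit 7) 
(.nd (nat_lit 27) (.nd (nat_lit 18) 
(.lf (nat_lit 4295204916) (dlOf (nat_lit 1) (nat_lit 0x4004000200080b0a82))) (.nd (nat_lit 22) 
(.lf (nat_lit 2596916) (dlOf (nat_lit 2) (nat_lit 0xe910000b4800005a3a0002ced800844200028008000800200140008170a83))) 
(.lf (nat_lit 15179828) (dlOf (nat_lit 11) (nat_lit 0x3ce30001e6280002e040051384000140100d5b2d807ad968027a9f801354f00074a58804d51f8030a73801b738300b09c0804dcc9401fa608012130200b297b805c0c4402b0000000251e004765b0025a780012ce7000a27060047304002518880240000000441c0242cb800440000000a0200acb2e000580000002608020c000000050201060000000201003900000000c08047000000000040388002003000087c0782))))) 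
(.nd (nat_lit 9) (.nd (nat_lit 32) 
(.lf (nat_lit 134455348) (dlOf (nat_lit 1) (nat_lit 0x20028020601))) 
(.lf (nat_lit 4429422644) (dlOf (nat_lit 1) (nat_lit 0x4004000200080b0a82)))) 
(.lf (nat_lit 2818814516) (dlOf (nat_lit 1) (nat_lit 0x800200040008128982))))) (.nd (nat_lit 10) 
(.nd (nat_lit 20) (.lf (nat_lit 537108916) (dlOf (nat_lit 1) (nat_lit 0x400200020008017782))) 
(.lf (nat_lit 9675188) (dlOf (nat_lit 1) (nat_lit 0x400200020008577782)))) (.nd (nat_lit 8) 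
(.lf (nat_lit 20167860) (dlOf (nat_lit 1) (nat_lit 0x80080004002000200089dc203))) 
(.lf (nat_lit 1610851764) (dlOf (nat_lit 1) (nat_lit 0x20028093601)))))) (.nd (nat_lit 30) 
(.nd (nat_lit 8) (.nd (nat_lit 27) 
(.lf (nat_lit 4563640372) (dlOf (nat_lit 3) (nat_lit 0x3005a0022012000b8820017019801e80c800f805c00c202d002800f000c8074001281800e0004006400180b0482))) 
(.lf (nat_lit 4697858100) (dlOf (nat_lit 3) (nat_lit 0x3005a0022012000b9820017019801e80c800f805c00c202d002800f000c8074001281800e0004006400180b0482)))) 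
(.lf (nat_lit 805544244) (dlOf (nat_lit 11) (nat_lit 0x400a0022881003700500112c0801b8028008640400dc0140042e02006e00a0021681003700500102c0801200280080a0400bc0140040102004000a001f4810018005000f9c080048008002c002000a0008124c03)))) 
(.nd (nat_lit 18) 
(.lf (nat_lit 1342414900) (dlOf (nat_lit 2) (nat_lit 0x605500019e04003400200920008020602))) 
(.lf (nat_lit 3493306420) (dlOf (nat_lit 1) (nat_lit 0x5a0008110601)))))) (.nd (nat_lit 29) 
(.nd (nat_lit 27) (.nd (nat_lit 7) 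
(.lf (nat_lit 1409524276) (dlOf (nat_lit 1) (nat_lit 0x20028018081))) 
(.lf (nat_lit 6510059700) (dlOf (nat_lit 1) (nat_lit 0x4004000200081a4f02)))) (.nd (nat_lit 28) 
(.lf (nat_lit 201564212) (dlOf (nat_lit 1) (nat_lit 0x20028020601))) 
(.lf (nat_lit 469999668) (dlOf (nat_lit 2) (nat_lit 0x60550001ba04003400200920008020602))))) 
(.nd (nat_lit 8) (.nd (nat_lit 9) 
(.lf (nat_lit 2755108916) (dlOf (nat_lit 1) (nat_lit 0x5a0008110601))) 
(.lf (nat_lit 4899187252) (dlOf (nat_lit 1) (nat_lit 0xc00180d5181)))) (.nd (nat_lit 9) 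
(.nd (nat_lit 10) 
(.lf (nat_lit 1677959476) (dlOf (nat_lit 11) (nat_lit 0x400a004ef8100370050027640801b80280138e0400dc014009c302006e00a004e1010037005002698080120028013400400bc0140099c02004000a004c1810018005002604080048008002c002000a0008124c03))) 
(.lf (nat_lit 604480820) (dlOf (nat_lit 1) (nat_lit 0x1c200082d3201)))) 
(.lf (nat_lit 4899187508) (dlOf (nat_lit 1) (nat_lit 0x1a0002009400080d5c02))))))) 
(.nd (nat_lit 18) (.nd (nat_lit 20) (.nd (nat_lit 31) (.nd (nat_lit 10) 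
(.lf (nat_lit 2859060) (dlOf (nat_lit 2) (nat_lit 0x901f1000de8181c0b80))) 
(.lf (nat_lit 19643444) (dlOf (nat_lit 1) (nat_lit 0x200289dbf01)))) (.nd (nat_lit 26) 
(.lf (nat_lit 3492519988) (dlOf (nat_lit 2) (nat_lit 0x2ac3d6001d102000c00080d0b81))) 
(.lf (nat_lit 2754322484) (dlOf (nat_lit 2) (nat_lit 0x2ac3fa001d102000c00080d0b81))))) 
(.nd (nat_lit 27) (.nd (nat_lit 7) 
(.lf (nat_lit 10199092) (dlOf (nat_lit 2) (nat_lit 0x3c24900071c0800180080004002000400085c0d03))) 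
(.lf (nat_lit 8102324) (dlOf (nat_lit 1) (nat_lit 0x3800400080008511002)))) (.nd (nat_lit 26) 
(.lf (nat_lit 5773172788) (dlOf (nat_lit 2) (nat_lit 0x1e019201620000011b8280b0480))) 
(.lf (nat_lit 6377152564) (dlOf (nat_lit 2) (nat_lit 0x1e019401620000011b8280b0480)))))) 
(.nd (nat_lit 8) (.nd (nat_lit 20) (.nd (nat_lit 23) (.nd (nat_lit 22) 
(.lf (nat_lit 470786100) (dlOf (nat_lit 3) (nat_lit 0x160bd0001e01001305e8000e80800b00080094002001200081a0e03))) 
(.nd (nat_lit 24) 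
(.lf (nat_lit 5218356) (dlOf (nat_lit 3) (nat_lit 0x1c544e00013020022a2700000018320780))) 
(.lf (nat_lit 21995572) (dlOf (nat_lit 1) (nat_lit 0x400400020018a80d02))))) (.nd (nat_lit 7) 
(.lf (nat_lit 13606964) (dlOf (nat_lit 43) (nat_lit 0x1fdc6300fbdeb0007981003df18c001b8c400a5bd6000f2030101e31807bef58003c60800ba534001d1020a37c630495deb00073410085f18c03937ac001cb04001bc630012deb00072410038f18c01bb7ac001c804009d5c0000aaa18066550800eaa80018d037004f81a80633f2400d5f8c008e000000e38900110000007140800a55780069fbe001bd04005dc63000db810093e318025ef580036a0800bb8c6001b3020077c630001deb0006c410044718c009b7ac001b00401e3bd60019dea80068c100706f58003400400bb8c6003bbd6000cf02002ae3180066808046ef54003320400478c60018e020099c630021deb00062810046f18c00d77ac001890401c7c6300b4deb00062010065718c02977ac0018704003fc63000c301001ee3180060808071718c01137ac0017f040019bd60088dea8005f410020f18c01477ac0005bd5000be0300c0e31805f6f58002f60800737ac0083bd5000bd02006ae318037ef5800fb7aa0017906004bbd6000bb010028deb0005d008080718c03ff7ac001730400c7c6300afdeb0005c4100636f58002de0403e38c60113bd600052820093e318044ef580010208006b8c60041bd600000028730b80)))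 
(.lf (nat_lit 47161524) (dlOf (nat_lit 1) (nat_lit 0x2400293b1681))))) (.nd (nat_lit 9) 
(.lf (nat_lit 4095714356) (dlOf (nat_lit 1) (nat_lit 0xf00080044002000c00080e2883))) 
(.lf (nat_lit 58698292) (dlOf (nat_lit 1) (nat_lit 0x200197e5181))))) (.nd (nat_lit 11) 
(.nd (nat_lit 7) (.nd (nat_lit 26) 
(.lf (nat_lit 3490685236) (dlOf (nat_lit 2) (nat_lit 0x5400b00525018014c00))) 
(.lf (nat_lit 2752487732) (dlOf (nat_lit 2) (nat_lit 0x5400b0025a818014c00)))) 
(.lf (nat_lit 2752487860) (dlOf (nat_lit 1) (nat_lit 0x8f0008000c002020a0008017783)))) 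
(.nd (nat_lit 9) (.lf (nat_lit 3492784436) (dlOf (nat_lit 1) (nat_lit 0xa00180f4c01))) 
(.lf (nat_lit 19901236) (dlOf (nat_lit 1) (nat_lit 0x4002000200089d5c02)))))))) (.nd (nat_lit 18) 
(.nd (nat_lit 21) (.nd (nat_lit 7) (.nd (nat_lit 8) (.nd (nat_lit 9) 
(.lf (nat_lit 3494092916) (dlOf (nat_lit 3) (nat_lit 0x210708004900401703840024702000200281b0081))) 
(.nd (nat_lit 10) (.lf (nat_lit 6376630900) (dlOf (nat_lit 1) (nat_lit 0xc00400060008095402))) 
(.lf (nat_lit 6174254708) (dlOf (nat_lit 1) (nat_lit 0x200280d3981))))) (.nd (nat_lit 9) 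
(.lf (nat_lit 5234730356) (dlOf (nat_lit 1) (nat_lit 0x200280d3501))) 
(.lf (nat_lit 67876724) (dlOf (nat_lit 1) (nat_lit 0x4001833a301))))) (.nd (nat_lit 8) 
(.nd (nat_lit 9) (.nd (nat_lit 26) 
(.lf (nat_lit 1879286004) (dlOf (nat_lit 1) (nat_lit 0x18008000c002000200080c0483))) 
(.lf (nat_lit 1006870772) (dlOf (nat_lit 1) (nat_lit 0x18008000c002000200080c0483)))) 
(.lf (nat_lit 3154361076) (dlOf (nat_lit 1) (nat_lit 0x2000815b981)))) (.nd (nat_lit 10) 
(.lf (nat_lit 9675252) (dlOf (nat_lit 1) (nat_lit 0x70008007800200040008577e03))) 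
(.lf (nat_lit 5637383668) (dlOf (nat_lit 6) (nat_lit 0x100980055808002004c001ae040010026000cd02000a013000660100030098002140800b00080054002000600080d3603)))))) 
(.nd (nat_lit 19) (.nd (nat_lit 7) (.nd (nat_lit 23) (.nd (nat_lit 26) 
(.lf (nat_lit 2334836) (dlOf (nat_lit 2) (nat_lit 0x1c9ef00124018150080))) 
(.lf (nat_lit 2753798260) (dlOf (nat_lit 1) (nat_lit 0x8008000400200020008090083)))) 
(.lf (nat_lit 44277876) (dlOf (nat_lit 5) (nat_lit 0x989c0018c1e000c5b80000383000131f0001989c0010c1e000c5b8000030400053138004183c0020b700000406000863e00053138004183c0020b700000108000a00092e0d81)))) 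
(.lf (nat_lit 6529268) (dlOf (nat_lit 1) (nat_lit 0xc00200060008420602)))) (.nd (nat_lit 7) 
(.nd (nat_lit 8) (.nd (nat_lit 9) 
(.lf (nat_lit 473669748) (dlOf (nat_lit 1) (nat_lit 0x8008000400200020008f92903))) 
(.lf (nat_lit 19641972) (dlOf (nat_lit 1) (nat_lit 0x13c004001000089d9d02)))) 
(.lf (nat_lit 54242164) (dlOf (nat_lit 1) (nat_lit 0x40029655c01)))) (.nd (nat_lit 9) 
(.lf (nat_lit 1009492212) (dlOf (nat_lit 1) (nat_lit 0x80080014002000200091a2483))) 
(.lf (nat_lit 8105716) (dlOf (nat_lit 1) (nat_lit 0x1260018517481))))))) (.nd (nat_lit 7) 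
(.nd (nat_lit 29) (.nd (nat_lit 19) (.nd (nat_lit 24) 
(.lf (nat_lit 4362575988) (dlOf (nat_lit 1) (nat_lit 0x11800400440008090082))) 
(.lf (nat_lit 17277044) (dlOf (nat_lit 1) (nat_lit 0x6c00088e0481)))) (.nd (nat_lit 8) 
(.nd (nat_lit 21) (.lf (nat_lit 2072692) (dlOf (nat_lit 2) (nat_lit 0x50b0100124018150080))) 
(.lf (nat_lit 46112884) (dlOf (nat_lit 1) (nat_lit 0x1c0029380201)))) 
(.lf (nat_lit 8365940) (dlOf (nat_lit 1) (nat_lit 0x8008000400200020008514083))))) 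
(.nd (nat_lit 26) (.nd (nat_lit 28) 
(.lf (nat_lit 3758596212) (dlOf (nat_lit 2) (nat_lit 0x18023000e98182c0480))) 
(.lf (nat_lit 805806196) (dlOf (nat_lit 7) (nat_lit 0x2702a8016013800b006e0050024002c009801100480046018009809c00e2013001178200090260007b40800200c80014048001d204002c04e000d181002700980000008025800800e8002005600081a0083)))) 
(.nd (nat_lit 10) (.nd (nat_lit 27) 
(.lf (nat_lit 1678221428) (dlOf (nat_lit 7) (nat_lit 0x2702a8016013800b006e0050024002c009801100480049018009809c00e2013001238200090260007fc0800200c80014048001e704002c04e000dc01002700980000008025800800e8002005600081a0083))) 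
(.lf (nat_lit 4228358260) (dlOf (nat_lit 1) (nat_lit 0x11800400440008090082)))) 
(.lf (nat_lit 604480628) (dlOf (nat_lit 5) (nat_lit 0x901f8000740800d00d800a40460001604004003f001e00e00005410003808c000280400a8004000400182d2a02)))))) 
(.nd (nat_lit 8) (.nd (nat_lit 9) (.nd (nat_lit 19) (.nd (nat_lit 22) 
(.lf (nat_lit 1009230068) (dlOf (nat_lit 1) (nat_lit 0x24004002e00090a2482))) 
(.lf (nat_lit 48734452) (dlOf (nat_lit 1) (nat_lit 0x20029422481)))) 
(.lf (nat_lit 24092916) (dlOf (nat_lit 1) (nat_lit 0x1340008b80481)))) (.nd (nat_lit 12) 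
(.lf (nat_lit 4563905268) (dlOf (nat_lit 1) (nat_lit 0x400400020008125a02))) 
(.lf (nat_lit 8370932) (dlOf (nat_lit 1) (nat_lit 0x12002851b981))))) (.nd (nat_lit 9) 
(.nd (nat_lit 10) (.nd (nat_lit 19) 
(.lf (nat_lit 58171892) (dlOf (nat_lit 1) (nat_lit 0x8002003400097c7402))) 
(.lf (nat_lit 2752487924) (dlOf (nat_lit 3) (nat_lit 0x828c0005c0400441c402160b2001104f000054180240008033400200040008017e03)))) 
(.lf (nat_lit 8365556) (dlOf (nat_lit 1) (nat_lit 0x400200020008513602)))) (.nd (nat_lit 31) 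
(.lf (nat_lit 604480500) (dlOf (nat_lit 1) (nat_lit 0x200282d2881))) 
(.lf (nat_lit 2751964148) (dlOf (nat_lit 1) (nat_lit 0x400200020008002882))))))))))))

end

end Pool.Agent.Lib.MP_5854e1_co.Cz

namespace Pool.Agent.Lib.MP_5854e1_co.Cz

noncomputable section

noncomputable def tz16 : DT := (.nd (nat_lit 17) (.nd (nat_lit 13) (.nd (nat_lit 28) 
(.nd (nat_lit 6) (.nd (nat_lit 18) (.nd (nat_lit 8) (.nd (nat_lit 26) (.nd (nat_lit 22) 
(.nd (nat_lit 9) (.nd (nat_lit 23) (.nd (nat_lit 7) 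
(.lf (nat_lit 1611137032) (dlOf (nat_lit 2) (nat_lit 0x680a800dfa04006c004000400080f0a02))) 
(.nd (nat_lit 11) (.lf (nat_lit 2097288) (dlOf (nat_lit 1) (nat_lit 0x800200020008150102))) 
(.lf (nat_lit 3221227656) (dlOf (nat_lit 1) (nat_lit 0x920028004801))))) (.nd (nat_lit 16) 
(.nd (nat_lit 19) (.lf (nat_lit 26214408) (dlOf (nat_lit 1) (nat_lit 0x2800200320008c20002))) 
(.lf (nat_lit 9961480) (dlOf (nat_lit 1) (nat_lit 0x200285a0a01)))) 
(.lf (nat_lit 25231368) (dlOf (nat_lit 1) (nat_lit 0x400200020008bf0482))))) (.nd (nat_lit 16) 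
(.nd (nat_lit 27) 
(.lf (nat_lit 2684355080) (dlOf (nat_lit 1) (nat_lit 0x8008012000200520008001483))) 
(.lf (nat_lit 2281701896) (dlOf (nat_lit 1) (nat_lit 0x80080160002004a0008001483)))) 
(.nd (nat_lit 19) 
(.lf (nat_lit 3355509256) (dlOf (nat_lit 1) (nat_lit 0x80080004002000200080a1483))) 
(.lf (nat_lit 50921992) (dlOf (nat_lit 3) (nat_lit 0xedc70004f8080036ee40000004003c004000600094d8002)))))) 
(.nd (nat_lit 16) (.nd (nat_lit 19) (.nd (nat_lit 23) 
(.lf (nat_lit 22020104) (dlOf (nat_lit 1) (nat_lit 0x400400080008a90482))) 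
(.lf (nat_lit 13631496) (dlOf (nat_lit 1) (nat_lit 0x10c002009e0008730482)))) (.nd (nat_lit 7) 
(.lf (nat_lit 56099848) (dlOf (nat_lit 1) (nat_lit 0x400200020009732882))) 
(.lf (nat_lit 23593096) (dlOf (nat_lit 1) (nat_lit 0x100080008002003c0008b80103))))) 
(.nd (nat_lit 19) (.nd (nat_lit 10) 
(.lf (nat_lit 14745608) (dlOf (nat_lit 1) (nat_lit 0x40018770001))) 
(.lf (nat_lit 39912456) (dlOf (nat_lit 1) (nat_lit 0x400091f2881)))) (.nd (nat_lit 7) 
(.lf (nat_lit 30998536) (dlOf (nat_lit 1) (nat_lit 0x8008000400200020008e60583))) 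
(.lf (nat_lit 23658632) (dlOf (nat_lit 1) (nat_lit 0x8008000c00200020008b80103))))))) 
(.nd (nat_lit 9) (.nd (nat_lit 7) (.nd (nat_lit 20) (.nd (nat_lit 27) 
(.lf (nat_lit 3288858632) (dlOf (nat_lit 1) (nat_lit 0x300080004002002a00081c0403))) 
(.lf (nat_lit 738721800) (dlOf (nat_lit 2) (nat_lit 0x680a80194e04006c004000400080f0a02)))) 
(.nd (nat_lit 16) 
(.lf (nat_lit 2755133448) (dlOf (nat_lit 1) (nat_lit 0x8008000400200020008110003))) 
(.lf (nat_lit 2755198984) (dlOf (nat_lit 3) (nat_lit 0xa0200053b01000500f8029b0080008008001000200020008130483))))) 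
(.nd (nat_lit 10) (.nd (nat_lit 27) 
(.lf (nat_lit 4362078344) (dlOf (nat_lit 1) (nat_lit 0x60028004801))) 
(.lf (nat_lit 1811941512) (dlOf (nat_lit 1) (nat_lit 0x400400020008004802)))) 
(.lf (nat_lit 2885684360) (dlOf (nat_lit 1) (nat_lit 0x8008000400200020008006183))))) 
(.nd (nat_lit 12) (.nd (nat_lit 27) (.nd (nat_lit 31) 
(.lf (nat_lit 67109384) (dlOf (nat_lit 1) (nat_lit 0x10008000400200020008001483))) 
(.lf (nat_lit 2214593032) (dlOf (nat_lit 1) (nat_lit 0x400400020008001482)))) 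
(.lf (nat_lit 6643778056) (dlOf (nat_lit 1) (nat_lit 0x800800a800200400008001483)))) 
(.nd (nat_lit 7) (.nd (nat_lit 16) 
(.lf (nat_lit 4362082824) (dlOf (nat_lit 1) (nat_lit 0x18008000c0020004000800b283))) 
(.lf (nat_lit 201398792) (dlOf (nat_lit 2) (nat_lit 0x400ec014f00400b00020054000800b282)))) 
(.lf (nat_lit 2214598280) (dlOf (nat_lit 1) (nat_lit 0xc0008009e01))))))) (.nd (nat_lit 7) 
(.nd (nat_lit 11) (.nd (nat_lit 10) (.nd (nat_lit 9) (.nd (nat_lit 16) 
(.lf (nat_lit 1048840) (dlOf (nat_lit 1) (nat_lit 0x940028067c01))) 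
(.lf (nat_lit 50921736) (dlOf (nat_lit 1) (nat_lit 0x8008002c002000600094d3583)))) 
(.lf (nat_lit 6643782408) (dlOf (nat_lit 1) (nat_lit 0x20018008f81)))) (.nd (nat_lit 16) 
(.lf (nat_lit 3422557448) (dlOf (nat_lit 1) (nat_lit 0x100008009601))) 
(.lf (nat_lit 8459528) (dlOf (nat_lit 1) (nat_lit 0x1a0008000c00201480008519603))))) 
(.nd (nat_lit 26) (.nd (nat_lit 16) 
(.lf (nat_lit 536873224) (dlOf (nat_lit 1) (nat_lit 0x8008000400200020008004b83))) 
(.lf (nat_lit 671156488) (dlOf (nat_lit 1) (nat_lit 0x9000080354002019a0008144b83)))) 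
(.nd (nat_lit 9) (.lf (nat_lit 4362078472) (dlOf (nat_lit 1) (nat_lit 0x400400020008004b82))) 
(.lf (nat_lit 603986696) (dlOf (nat_lit 1) (nat_lit 0x2000800040020008000800b983)))))) 
(.nd (nat_lit 9) (.nd (nat_lit 11) (.nd (nat_lit 10) (.nd (nat_lit 16) 
(.lf (nat_lit 8389000) (dlOf (nat_lit 1) (nat_lit 0x400200020008511002))) 
(.lf (nat_lit 8454536) (dlOf (nat_lit 1) (nat_lit 0x20008511001)))) 
(.lf (nat_lit 8455560) (dlOf (nat_lit 3) (nat_lit 0x46710012481000933880091c080038008000400200080008513603)))) 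
(.nd (nat_lit 16) (.nd (nat_lit 19) 
(.lf (nat_lit 4898949512) (dlOf (nat_lit 1) (nat_lit 0x400200020008004e82))) 
(.lf (nat_lit 56101256) (dlOf (nat_lit 2) (nat_lit 0xc93600c1b0200020029734e81)))) 
(.lf (nat_lit 37292424) (dlOf (nat_lit 1) (nat_lit 0x4002000200090d4e82))))) (.nd (nat_lit 10) 
(.nd (nat_lit 12) (.lf (nat_lit 3355509640) (dlOf (nat_lit 1) (nat_lit 0x600180a2581))) 
(.nd (nat_lit 16) (.lf (nat_lit 2281706376) (dlOf (nat_lit 1) (nat_lit 0x20028009001))) 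
(.lf (nat_lit 3355513736) (dlOf (nat_lit 1) (nat_lit 0x90004002a00080a9002))))) (.nd (nat_lit 16) 
(.lf (nat_lit 201328520) (dlOf (nat_lit 1) (nat_lit 0x8008000400200020008004183))) 
(.lf (nat_lit 2348877704) (dlOf (nat_lit 1) (nat_lit 0x40008004c002004c0008004183)))))))) 
(.nd (nat_lit 16) (.nd (nat_lit 26) (.nd (nat_lit 8) (.nd (nat_lit 21) (.nd (nat_lit 19) 
(.nd (nat_lit 22) 
(.lf (nat_lit 134479880) (dlOf (nat_lit 7) (nat_lit 0x880bc0013804001c05e0009602002002f000468100070178002300800900bc0010a04004805e000830200700008030481))) 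
(.lf (nat_lit 63176712) (dlOf (nat_lit 1) (nat_lit 0x200299f0081)))) 
(.lf (nat_lit 2819358728) (dlOf (nat_lit 2) (nat_lit 0xa02100300100000001000b800800bc00200040008250003)))) 
(.nd (nat_lit 7) (.nd (nat_lit 10) 
(.lf (nat_lit 10747912) (dlOf (nat_lit 4) (nat_lit 0x4aea00161020006575000ae8100122bc8003a40800180080004002001e0008620483))) 
(.lf (nat_lit 20188168) (dlOf (nat_lit 1) (nat_lit 0x4004000200089d5f82)))) 
(.lf (nat_lit 11796616) (dlOf (nat_lit 1) (nat_lit 0x80080004002003200086c0103))))) 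
(.nd (nat_lit 9) (.nd (nat_lit 7) (.nd (nat_lit 19) 
(.lf (nat_lit 41156872) (dlOf (nat_lit 1) (nat_lit 0x400200080009223a02))) 
(.lf (nat_lit 17563912) (dlOf (nat_lit 1) (nat_lit 0x10004000800088e0702)))) 
(.lf (nat_lit 46401928) (dlOf (nat_lit 4) (nat_lit 0x95fe006bf010005aff0032fc08002d7f80185604001000200120009384e82)))) 
(.nd (nat_lit 7) (.nd (nat_lit 12) 
(.lf (nat_lit 135005960) (dlOf (nat_lit 2) (nat_lit 0x6011000288180f3b80))) 
(.lf (nat_lit 2818840328) (dlOf (nat_lit 2) (nat_lit 0x1002300127c080130008000c0020052000812a003)))) 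
(.lf (nat_lit 19663752) (dlOf (nat_lit 1) (nat_lit 0x100080004002000200089d5c03)))))) 
(.nd (nat_lit 30) (.nd (nat_lit 29) (.nd (nat_lit 27) 
(.lf (nat_lit 67371016) (dlOf (nat_lit 1) (nat_lit 0x4004000200080f0002))) 
(.lf (nat_lit 201588744) (dlOf (nat_lit 7) (nat_lit 0x880bc0013804001c05e0009602002002f000468100070178002300800900bc0010a04004805e000830200700008030481)))) 
(.nd (nat_lit 19) 
(.lf (nat_lit 604241928) (dlOf (nat_lit 2) (nat_lit 0x4c0000067e02001a00180e0001))) 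
(.lf (nat_lit 2755395592) (dlOf (nat_lit 1) (nat_lit 0x500028170481))))) (.nd (nat_lit 7) 
(.nd (nat_lit 32) (.lf (nat_lit 1141112840) (dlOf (nat_lit 1) (nat_lit 0xe00280f0a01))) 
(.lf (nat_lit 5436080136) (dlOf (nat_lit 5) (nat_lit 0x1b0044032260401540220191102004401100c670100360088061b40800e80080004002002400080c0003)))) 
(.lf (nat_lit 5436080264) (dlOf (nat_lit 14) (nat_lit 0x7580440008004039c022000200201c40110000f8100e30088000780807000440002a04038c022000130201ce011000090100e50088000440807180440002004031c0220000f0201c601100006810042008800030080720044000140400e8004000400080c0f02)))))) 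
(.nd (nat_lit 19) (.nd (nat_lit 21) (.nd (nat_lit 27) (.nd (nat_lit 7) 
(.lf (nat_lit 4899274760) (dlOf (nat_lit 1) (nat_lit 0x8004000200080f0002))) 
(.lf (nat_lit 21299336) (dlOf (nat_lit 1) (nat_lit 0xe0008a30f01)))) (.nd (nat_lit 29) 
(.lf (nat_lit 1208287240) (dlOf (nat_lit 13) (nat_lit 0x20602900c290101ee01480612c0803400a40308c0401c4052018450201ac02900c2201009501480610c0800400a400fc016017e204009c02900bef0100260140027002c02fa4080118052017ce02004402d0038b810028016801180b000000080038002000200080b0002))) 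
(.lf (nat_lit 1745158152) (dlOf (nat_lit 2) (nat_lit 0x980e0001806e021c03200bf10380b0000))))) 
(.nd (nat_lit 7) (.nd (nat_lit 8) (.nd (nat_lit 24) 
(.lf (nat_lit 10813448) (dlOf (nat_lit 1) (nat_lit 0x8008000400200020008630483))) 
(.lf (nat_lit 27590664) (dlOf (nat_lit 1) (nat_lit 0x400200020008d00282)))) 
(.lf (nat_lit 52757768) (dlOf (nat_lit 1) (nat_lit 0x800400040009572f82)))) (.nd (nat_lit 9) 
(.lf (nat_lit 11862152) (dlOf (nat_lit 1) (nat_lit 0x4002006200086c0102))) 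
(.lf (nat_lit 52758152) (dlOf (nat_lit 1) (nat_lit 0x2c0019573a01)))))) (.nd (nat_lit 20) 
(.nd (nat_lit 21) (.nd (nat_lit 22) 
(.lf (nat_lit 9240584) (dlOf (nat_lit 2) (nat_lit 0x1228006d38080008008026400200c40008530003))) 
(.lf (nat_lit 21823496) (dlOf (nat_lit 1) (nat_lit 0x5cc00403f80008a70002)))) (.nd (nat_lit 23) 
(.lf (nat_lit 70057992) (dlOf (nat_lit 1) (nat_lit 0x400400020008e80002))) 
(.lf (nat_lit 28114952) (dlOf (nat_lit 1) (nat_lit 0x8008000400200020008d50003))))) 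
(.nd (nat_lit 7) (.nd (nat_lit 23) 
(.lf (nat_lit 18677768) (dlOf (nat_lit 1) (nat_lit 0x80008960281))) 
(.lf (nat_lit 10289160) (dlOf (nat_lit 3) (nat_lit 0x1651f000ac01000428f80033c080358008011c00200a400085c0483)))) 
(.nd (nat_lit 8) (.lf (nat_lit 20781704) (dlOf (nat_lit 1) (nat_lit 0xa00189db681))) 
(.lf (nat_lit 8192392) (dlOf (nat_lit 1) (nat_lit 0x400200020008511002))))))))) (.nd (nat_lit 8) 
(.nd (nat_lit 10) (.nd (nat_lit 16) (.nd (nat_lit 19) (.nd (nat_lit 26) (.nd (nat_lit 7) 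
(.nd (nat_lit 9) 
(.lf (nat_lit 134479944) (dlOf (nat_lit 1) (nat_lit 0x20008001000200180008030f03))) 
(.lf (nat_lit 23331400) (dlOf (nat_lit 1) (nat_lit 0x400200020008b81102)))) 
(.lf (nat_lit 20189896) (dlOf (nat_lit 1) (nat_lit 0x8002000200089d8c82)))) (.nd (nat_lit 7) 
(.nd (nat_lit 11) 
(.lf (nat_lit 201588808) (dlOf (nat_lit 1) (nat_lit 0x20008001000200180008030f03))) 
(.lf (nat_lit 4362078280) (dlOf (nat_lit 1) (nat_lit 0x180018004701)))) 
(.lf (nat_lit 5436080328) (dlOf (nat_lit 1) (nat_lit 0xe00180c1b81))))) (.nd (nat_lit 18) 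
(.nd (nat_lit 12) (.nd (nat_lit 20) 
(.lf (nat_lit 134742088) (dlOf (nat_lit 5) (nat_lit 0x48c076000200202b803b0000681019001d80002c0807800ec00014040064002008c00080a0e02))) 
(.lf (nat_lit 3670088) (dlOf (nat_lit 2) (nat_lit 0x1400000018018210e00)))) 
(.lf (nat_lit 8917064) (dlOf (nat_lit 1) (nat_lit 0xc00400020008517d82)))) (.nd (nat_lit 9) 
(.lf (nat_lit 2754347080) (dlOf (nat_lit 1) (nat_lit 0xa00080d0c81))) (.nd (nat_lit 20) 
(.lf (nat_lit 787016) (dlOf (nat_lit 1) (nat_lit 0x60028018d01))) 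
(.lf (nat_lit 8127048) (dlOf (nat_lit 1) (nat_lit 0x18008004400200060008511583))))))) 
(.nd (nat_lit 30) (.nd (nat_lit 9) (.nd (nat_lit 18) 
(.lf (nat_lit 34144328) (dlOf (nat_lit 1) (nat_lit 0x20028fb0001))) (.nd (nat_lit 20) 
(.lf (nat_lit 9240648) (dlOf (nat_lit 2) (nat_lit 0x26e000026018530600))) 
(.lf (nat_lit 3997768) (dlOf (nat_lit 1) (nat_lit 0x5a0008261481))))) (.nd (nat_lit 7) 
(.lf (nat_lit 11600456) (dlOf (nat_lit 2) (nat_lit 0x9e9c00070040010004001000186c1102))) 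
(.lf (nat_lit 20255432) (dlOf (nat_lit 1) (nat_lit 0x4002000200089d8c82))))) (.nd (nat_lit 27) 
(.nd (nat_lit 7) 
(.lf (nat_lit 3288662088) (dlOf (nat_lit 6) (nat_lit 0x4dc05c044a02d000100200b40170000340806100b8005805a0000b04016e02e00005010002017000000080898008016400201ee00080a0e03))) 
(.lf (nat_lit 3758164680) (dlOf (nat_lit 1) (nat_lit 0x1000180d5801)))) (.nd (nat_lit 29) 
(.lf (nat_lit 1208287304) (dlOf (nat_lit 3) (nat_lit 0x380290000b8100010198004809800b00120020002000000480b0600))) 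
(.lf (nat_lit 1745158216) (dlOf (nat_lit 2) (nat_lit 0x74038001201980040000000ac0c0020004000c00080b0602))))))) 
(.nd (nat_lit 27) (.nd (nat_lit 26) (.nd (nat_lit 7) (.nd (nat_lit 29) 
(.lf (nat_lit 1073742920) (dlOf (nat_lit 1) (nat_lit 0x400400020008002882))) 
(.lf (nat_lit 536872008) (dlOf (nat_lit 1) (nat_lit 0x400400020008002882)))) 
(.lf (nat_lit 51446984) (dlOf (nat_lit 1) (nat_lit 0x400200060009512d02)))) (.nd (nat_lit 30) 
(.nd (nat_lit 7) (.lf (nat_lit 4362077256) (dlOf (nat_lit 1) (nat_lit 0x400400020008002882))) 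
(.lf (nat_lit 4362866376) (dlOf (nat_lit 1) (nat_lit 0x400400020018117302)))) (.nd (nat_lit 32) 
(.lf (nat_lit 1140851784) (dlOf (nat_lit 1) (nat_lit 0x400400020008002882))) 
(.lf (nat_lit 5435819080) (dlOf (nat_lit 1) (nat_lit 0x400400020008002882)))))) (.nd (nat_lit 29) 
(.nd (nat_lit 32) (.nd (nat_lit 11) 
(.lf (nat_lit 201327688) (dlOf (nat_lit 1) (nat_lit 0x8008000400200020008002883))) 
(.lf (nat_lit 134220872) (dlOf (nat_lit 1) (nat_lit 0xc0028006081)))) (.nd (nat_lit 30) 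
(.lf (nat_lit 4429186120) (dlOf (nat_lit 1) (nat_lit 0x400400020008002882))) 
(.lf (nat_lit 5502927944) (dlOf (nat_lit 1) (nat_lit 0x400400020008002882))))) (.nd (nat_lit 30) 
(.nd (nat_lit 16) (.lf (nat_lit 4966057032) (dlOf (nat_lit 1) (nat_lit 0x400400020008002882))) 
(.lf (nat_lit 671155272) (dlOf (nat_lit 1) (nat_lit 0x8008000400200040008142883)))) 
(.nd (nat_lit 9) 
(.lf (nat_lit 6106907720) (dlOf (nat_lit 1) (nat_lit 0x8008000400200020008002883))) 
(.lf (nat_lit 6039803464) (dlOf (nat_lit 1) (nat_lit 0x20028009c01)))))))) (.nd (nat_lit 7) 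
(.nd (nat_lit 10) (.nd (nat_lit 16) (.nd (nat_lit 21) (.nd (nat_lit 27) 
(.lf (nat_lit 4362078536) (dlOf (nat_lit 1) (nat_lit 0x400400020008004d02))) 
(.lf (nat_lit 201328968) (dlOf (nat_lit 1) (nat_lit 0x400400020008004d02)))) (.nd (nat_lit 9) 
(.lf (nat_lit 2097480) (dlOf (nat_lit 1) (nat_lit 0x20028150601))) 
(.lf (nat_lit 19925832) (dlOf (nat_lit 1) (nat_lit 0x4002000200089d5c02))))) (.nd (nat_lit 18) 
(.nd (nat_lit 19) 
(.lf (nat_lit 1744896328) (dlOf (nat_lit 1) (nat_lit 0x40008001400200060008090c83))) 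
(.lf (nat_lit 23658824) (dlOf (nat_lit 1) (nat_lit 0x20008002c002001c0008b80603)))) 
(.nd (nat_lit 20) 
(.lf (nat_lit 46465352) (dlOf (nat_lit 1) (nat_lit 0x18008001000200080009380c83))) 
(.lf (nat_lit 11862344) (dlOf (nat_lit 3) (nat_lit 0x6a4600053020003523000238186c0600)))))) 
(.nd (nat_lit 9) (.nd (nat_lit 11) (.nd (nat_lit 12) 
(.lf (nat_lit 39912776) (dlOf (nat_lit 1) (nat_lit 0x4002000200091f3302))) 
(.lf (nat_lit 8656200) (dlOf (nat_lit 2) (nat_lit 0x22630001929c0130408003c00400080018519902)))) 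
(.lf (nat_lit 4294974792) (dlOf (nat_lit 1) (nat_lit 0x80040002000800c902)))) (.nd (nat_lit 26) 
(.lf (nat_lit 1073743688) (dlOf (nat_lit 1) (nat_lit 0x40028003e81))) 
(.lf (nat_lit 201328456) (dlOf (nat_lit 1) (nat_lit 0x400400020008003e82)))))) (.nd (nat_lit 27) 
(.nd (nat_lit 9) (.nd (nat_lit 10) (.nd (nat_lit 11) 
(.lf (nat_lit 43516360) (dlOf (nat_lit 1) (nat_lit 0x4002000200092a1102))) 
(.lf (nat_lit 51382728) (dlOf (nat_lit 1) (nat_lit 0xc800400280009514e82)))) 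
(.lf (nat_lit 61933000) (dlOf (nat_lit 1) (nat_lit 0x20029923601)))) (.nd (nat_lit 18) 
(.lf (nat_lit 5435818952) (dlOf (nat_lit 1) (nat_lit 0x18008000400200020008002883))) 
(.lf (nat_lit 50070472) (dlOf (nat_lit 1) (nat_lit 0x100080008002000a00094c2883))))) 
(.nd (nat_lit 11) (.nd (nat_lit 16) 
(.lf (nat_lit 2348811208) (dlOf (nat_lit 1) (nat_lit 0x60028002881))) 
(.lf (nat_lit 201393096) (dlOf (nat_lit 4) (nat_lit 0x404a00aec010002025003ebc08001012801f5c04001000200020008002882)))) 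
(.nd (nat_lit 9) (.lf (nat_lit 134286792) (dlOf (nat_lit 1) (nat_lit 0xa0008006d01))) 
(.nd (nat_lit 12) 
(.lf (nat_lit 4496559048) (dlOf (nat_lit 1) (nat_lit 0x18008000c002000800080e5d83))) 
(.lf (nat_lit 671095752) (dlOf (nat_lit 1) (nat_lit 0x90008001c002000c000800be83)))))))))) 
(.nd (nat_lit 16) (.nd (nat_lit 6) (.nd (nat_lit 27) (.nd (nat_lit 8) (.nd (nat_lit 19) 
(.nd (nat_lit 7) (.nd (nat_lit 10) 
(.lf (nat_lit 1880096776) (dlOf (nat_lit 1) (nat_lit 0x4002000200086d0582))) 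
(.lf (nat_lit 2415920136) (dlOf (nat_lit 1) (nat_lit 0x520018002881)))) 
(.lf (nat_lit 3489668232) (dlOf (nat_lit 1) (nat_lit 0x2002800c201)))) (.nd (nat_lit 21) 
(.nd (nat_lit 20) 
(.lf (nat_lit 4027056136) (dlOf (nat_lit 1) (nat_lit 0x300080004002002a00081c0403))) 
(.lf (nat_lit 4095213576) (dlOf (nat_lit 1) (nat_lit 0x400400b80008080002)))) (.nd (nat_lit 18) 
(.lf (nat_lit 3493330952) (dlOf (nat_lit 1) (nat_lit 0x8008000400200020008110003))) 
(.lf (nat_lit 3493593096) (dlOf (nat_lit 1) (nat_lit 0x500028170481)))))) (.nd (nat_lit 11) 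
(.nd (nat_lit 7) (.nd (nat_lit 12) 
(.lf (nat_lit 1345847560) (dlOf (nat_lit 2) (nat_lit 0x60b6000203ec001be08015400400180018e03a02))) 
(.lf (nat_lit 3557036296) (dlOf (nat_lit 1) (nat_lit 0x180028128081)))) (.nd (nat_lit 9) 
(.lf (nat_lit 4630513032) (dlOf (nat_lit 1) (nat_lit 0x38008001c002000e0008003603))) 
(.lf (nat_lit 4026533768) (dlOf (nat_lit 1) (nat_lit 0x74002001e0008004182))))) (.nd (nat_lit 9) 
(.nd (nat_lit 10) (.lf (nat_lit 5637147016) (dlOf (nat_lit 1) (nat_lit 0xa0008004e81))) 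
(.lf (nat_lit 3489664392) (dlOf (nat_lit 1) (nat_lit 0x400200040008006c82)))) (.nd (nat_lit 7) 
(.lf (nat_lit 5100538632) (dlOf (nat_lit 2) (nat_lit 0x401f000170180d5b00))) 
(.lf (nat_lit 3489667976) (dlOf (nat_lit 1) (nat_lit 0x3800800040020002000800bc83))))))) 
(.nd (nat_lit 26) (.nd (nat_lit 9) (.nd (nat_lit 10) (.nd (nat_lit 8) 
(.lf (nat_lit 2013528072) (dlOf (nat_lit 1) (nat_lit 0xe00280f0a01))) 
(.lf (nat_lit 1476399368) (dlOf (nat_lit 1) (nat_lit 0x8008000400200020008008083)))) 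
(.nd (nat_lit 11) (.lf (nat_lit 5234754568) (dlOf (nat_lit 1) (nat_lit 0x10004000200080d2882))) 
(.lf (nat_lit 6308498440) (dlOf (nat_lit 1) (nat_lit 0x4002000200080d5f82))))) (.nd (nat_lit 7) 
(.nd (nat_lit 10) 
(.lf (nat_lit 3623885320) (dlOf (nat_lit 1) (nat_lit 0x4000800340020018000800b283))) 
(.lf (nat_lit 4161017352) (dlOf (nat_lit 1) (nat_lit 0x5600180a9c01)))) 
(.lf (nat_lit 5771627144) (dlOf (nat_lit 1) (nat_lit 0x80028005481))))) (.nd (nat_lit 32) 
(.nd (nat_lit 30) (.nd (nat_lit 8) 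
(.lf (nat_lit 472121352) (dlOf (nat_lit 1) (nat_lit 0x20000400a00008840002))) 
(.lf (nat_lit 469764360) (dlOf (nat_lit 1) (nat_lit 0x400400020008004b82)))) (.nd (nat_lit 29) 
(.lf (nat_lit 3691249672) (dlOf (nat_lit 1) (nat_lit 0x18000180e0281))) 
(.lf (nat_lit 2080636936) (dlOf (nat_lit 1) (nat_lit 0x200080a0001))))) (.nd (nat_lit 7) 
(.nd (nat_lit 8) 
(.lf (nat_lit 5301862408) (dlOf (nat_lit 5) (nat_lit 0x1b0044038c004015402201c5e02004401100e1a810036008806f4c0800e80080004002002400080c0003))) 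
(.lf (nat_lit 5301603080) (dlOf (nat_lit 1) (nat_lit 0x18008000400200020008005b03)))) 
(.nd (nat_lit 8) 
(.lf (nat_lit 5301862536) (dlOf (nat_lit 9) (nat_lit 0x308022000400201b602f0016015005b80500758022000200801720110000f81001b0088000780800e0044000260401d80220001202017001100006810048008800028080120008000c002000c00080c0e03))) 
(.lf (nat_lit 6375604616) (dlOf (nat_lit 1) (nat_lit 0x20028001001)))))))) (.nd (nat_lit 30) 
(.nd (nat_lit 10) (.nd (nat_lit 7) (.nd (nat_lit 9) (.nd (nat_lit 18) 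
(.lf (nat_lit 805830728) (dlOf (nat_lit 4) (nat_lit 0x230000000c80800080f8000600400080700002b02002a00081b0e01))) 
(.lf (nat_lit 2483290184) (dlOf (nat_lit 1) (nat_lit 0x380080014002000600080a0e03)))) 
(.lf (nat_lit 470286920) (dlOf (nat_lit 2) (nat_lit 0x10e0940001c0180c1100)))) (.nd (nat_lit 8) 
(.nd (nat_lit 12) 
(.lf (nat_lit 5301862600) (dlOf (nat_lit 2) (nat_lit 0x2405c0003a02001a00180c1781))) 
(.lf (nat_lit 2952794312) (dlOf (nat_lit 1) (nat_lit 0x60008007f81)))) 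
(.lf (nat_lit 469767112) (dlOf (nat_lit 2) (nat_lit 0x823801456040020004000a0008009202))))) 
(.nd (nat_lit 26) (.nd (nat_lit 8) (.nd (nat_lit 12) 
(.lf (nat_lit 2415920200) (dlOf (nat_lit 1) (nat_lit 0x400400020008002882))) 
(.lf (nat_lit 2952795208) (dlOf (nat_lit 1) (nat_lit 0xe0008009301)))) (.nd (nat_lit 7) 
(.lf (nat_lit 2550144328) (dlOf (nat_lit 1) (nat_lit 0x80040002000800c902))) 
(.lf (nat_lit 2550140360) (dlOf (nat_lit 1) (nat_lit 0x280008006d01))))) (.nd (nat_lit 7) 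
(.nd (nat_lit 27) (.lf (nat_lit 4630512712) (dlOf (nat_lit 1) (nat_lit 0x400400020008002882))) 
(.nd (nat_lit 29) (.lf (nat_lit 469763144) (dlOf (nat_lit 1) (nat_lit 0x20018002881))) 
(.lf (nat_lit 1006634056) (dlOf (nat_lit 1) (nat_lit 0x8008000400200020008002883))))) 
(.lf (nat_lit 473695432) (dlOf (nat_lit 1) (nat_lit 0x150008017000200360008fa2d03)))))) 
(.nd (nat_lit 9) (.nd (nat_lit 10) (.nd (nat_lit 18) (.nd (nat_lit 12) 
(.lf (nat_lit 4228382792) (dlOf (nat_lit 6) (nat_lit 0x7e0000001d0100040000000c808001013c01380740006031008d0000000c020021013c011009a008403a000a018802100b8010804400cc000000158700410000000a4080030008003c002000a00080a0e03))) 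
(.lf (nat_lit 3690991688) (dlOf (nat_lit 1) (nat_lit 0x458008028800201980008007d83)))) 
(.nd (nat_lit 7) (.nd (nat_lit 19) 
(.lf (nat_lit 3492020296) (dlOf (nat_lit 2) (nat_lit 0x26c07a0002002001400180a0e01))) 
(.lf (nat_lit 3492544584) (dlOf (nat_lit 1) (nat_lit 0xa00080d0c81)))) 
(.lf (nat_lit 5772149192) (dlOf (nat_lit 8) (nat_lit 0x614d00030a180128478007823a0001708001611e0000b01000b08f000100000002208002c23c0001002001611e0000201000b08f0000080800404780038212003600000000038091100))))) 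
(.nd (nat_lit 7) (.nd (nat_lit 8) 
(.lf (nat_lit 4026532936) (dlOf (nat_lit 1) (nat_lit 0x8008000400200020008002883))) 
(.lf (nat_lit 3489668424) (dlOf (nat_lit 1) (nat_lit 0x14002800c901)))) 
(.lf (nat_lit 1409289416) (dlOf (nat_lit 1) (nat_lit 0xc00400060018006382))))) (.nd (nat_lit 7) 
(.nd (nat_lit 10) (.lf (nat_lit 1342702152) (dlOf (nat_lit 2) (nat_lit 0x10e0940001c0180c1100))) 
(.nd (nat_lit 26) (.lf (nat_lit 6174279240) (dlOf (nat_lit 1) (nat_lit 0x4004000200080d3802))) 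
(.lf (nat_lit 5704517192) (dlOf (nat_lit 1) (nat_lit 0x4004000200080d3802))))) (.nd (nat_lit 8) 
(.lf (nat_lit 1476399816) (dlOf (nat_lit 1) (nat_lit 0x8008000400200020008008c83))) 
(.nd (nat_lit 11) (.lf (nat_lit 4026532808) (dlOf (nat_lit 1) (nat_lit 0xa0028002881))) 
(.lf (nat_lit 4227865544) (dlOf (nat_lit 1) (nat_lit 0x2000800040020008000800be83))))))))) 
(.nd (nat_lit 26) (.nd (nat_lit 6) (.nd (nat_lit 7) (.nd (nat_lit 20) (.nd (nat_lit 18) 
(.lf (nat_lit 1881210888) (dlOf (nat_lit 1) (nat_lit 0x8008000400200020008e60003))) 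
(.nd (nat_lit 27) (.lf (nat_lit 5100601352) (dlOf (nat_lit 1) (nat_lit 0x400280f0001))) 
(.lf (nat_lit 5234819080) (dlOf (nat_lit 1) (nat_lit 0x80080004002000200080f0003))))) 
(.nd (nat_lit 8) (.nd (nat_lit 11) (.nd (nat_lit 19) 
(.lf (nat_lit 1345388552) (dlOf (nat_lit 1) (nat_lit 0xc0008b90001))) 
(.lf (nat_lit 3493396488) (dlOf (nat_lit 3) (nat_lit 0xa0200027081000500f80135c080008008001000200020008130483)))) 
(.lf (nat_lit 3492874248) (dlOf (nat_lit 3) (nat_lit 0x78074000a804002c0400004e02000600180f4701)))) 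
(.lf (nat_lit 3492873992) (dlOf (nat_lit 2) (nat_lit 0x200b800560400000c8280f3b80))))) 
(.nd (nat_lit 8) (.nd (nat_lit 19) (.nd (nat_lit 27) 
(.lf (nat_lit 6174343304) (dlOf (nat_lit 1) (nat_lit 0x40018100e01))) 
(.lf (nat_lit 5234819208) (dlOf (nat_lit 3) (nat_lit 0x3e00a0001b01001000b8008005000064080014004001000180f0e02)))) 
(.nd (nat_lit 18) (.lf (nat_lit 1342767240) (dlOf (nat_lit 1) (nat_lit 0x4002000200080c0102))) 
(.lf (nat_lit 5773262984) (dlOf (nat_lit 1) (nat_lit 0x4004000200180c0e02))))) (.nd (nat_lit 10) 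
(.nd (nat_lit 11) 
(.lf (nat_lit 5772476808) (dlOf (nat_lit 2) (nat_lit 0x309f000580080028008000400200040008091003))) 
(.lf (nat_lit 5771430280) (dlOf (nat_lit 2) (nat_lit 0x5805000e140200080018004e81)))) 
(.lf (nat_lit 3624209800) (dlOf (nat_lit 1) (nat_lit 0x20018146c81)))))) (.nd (nat_lit 32) 
(.nd (nat_lit 10) (.nd (nat_lit 11) (.nd (nat_lit 20) 
(.lf (nat_lit 3492085832) (dlOf (nat_lit 1) (nat_lit 0x80080008002008a00080a0e03))) 
(.lf (nat_lit 1880424520) (dlOf (nat_lit 1) (nat_lit 0x60018980001)))) 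
(.lf (nat_lit 3493140552) (dlOf (nat_lit 6) (nat_lit 0x187f4001c3d0004015f001b09c0008702000587f400483d0005015f002509c00086820002857c00202700020904000c1fd000f0f4001c0578003a60c00183fa00101e800360af0007481800100080088002001c00080fa683)))) 
(.nd (nat_lit 8) (.nd (nat_lit 7) 
(.lf (nat_lit 402719816) (dlOf (nat_lit 1) (nat_lit 0x400400020008092882))) 
(.lf (nat_lit 3624209608) (dlOf (nat_lit 5) (nat_lit 0x48000000320200120000001181001f000000088080078000000420400c8002000a0008146382)))) 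
(.nd (nat_lit 27) 
(.lf (nat_lit 2952861000) (dlOf (nat_lit 2) (nat_lit 0x30168028d4080018008000800200020008009903))) 
(.lf (nat_lit 1476465992) (dlOf (nat_lit 4) (nat_lit 0x5c022006200000523820017022800e0108007003c004001b00010000028d42800f806c0145804000800400100018009902)))))) 
(.nd (nat_lit 7) (.nd (nat_lit 8) (.nd (nat_lit 10) 
(.lf (nat_lit 4697686088) (dlOf (nat_lit 1) (nat_lit 0x2400400280008090002))) 
(.lf (nat_lit 4697687112) (dlOf (nat_lit 1) (nat_lit 0x8008000400200020008092883)))) 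
(.lf (nat_lit 4563468616) (dlOf (nat_lit 1) (nat_lit 0x180008090c81)))) (.nd (nat_lit 11) 
(.nd (nat_lit 8) (.lf (nat_lit 5773263048) (dlOf (nat_lit 1) (nat_lit 0x400280c1781))) 
(.lf (nat_lit 4697686984) (dlOf (nat_lit 1) (nat_lit 0x2c004001c0008092882)))) (.nd (nat_lit 27) 
(.lf (nat_lit 4563471304) (dlOf (nat_lit 1) (nat_lit 0x400200020008095d82))) 
(.lf (nat_lit 5234559944) (dlOf (nat_lit 1) (nat_lit 0x400400020008055d82)))))))) (.nd (nat_lit 30) 
(.nd (nat_lit 27) (.nd (nat_lit 6) (.nd (nat_lit 8) (.nd (nat_lit 10) 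
(.lf (nat_lit 872742920) (dlOf (nat_lit 2) (nat_lit 0x980e0001806e021c03200da70380b0000))) 
(.lf (nat_lit 5167451144) (dlOf (nat_lit 2) (nat_lit 0x2005c0000004000800200020008055f82)))) 
(.nd (nat_lit 7) (.lf (nat_lit 872482056) (dlOf (nat_lit 1) (nat_lit 0x400200020008092f82))) 
(.lf (nat_lit 2483096968) (dlOf (nat_lit 1) (nat_lit 0x30002000e0008006c82))))) (.nd (nat_lit 10) 
(.lf (nat_lit 872742984) (dlOf (nat_lit 2) (nat_lit 0x740380012019800400000009e0c0020004000c00080b0602))) 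
(.nd (nat_lit 11) (.lf (nat_lit 872481864) (dlOf (nat_lit 1) (nat_lit 0x400400020008092882))) 
(.lf (nat_lit 2483096648) (dlOf (nat_lit 2) (nat_lit 0x10070005880801980080188002009c0008006083)))))) 
(.nd (nat_lit 7) (.nd (nat_lit 9) (.nd (nat_lit 18) 
(.lf (nat_lit 1007222792) (dlOf (nat_lit 1) (nat_lit 0x20018270001))) 
(.lf (nat_lit 3154444296) (dlOf (nat_lit 1) (nat_lit 0x80080004002000200081a0003)))) 
(.lf (nat_lit 1008796168) (dlOf (nat_lit 1) (nat_lit 0x2b0008077c00202220008f87b03)))) 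
(.nd (nat_lit 8) (.nd (nat_lit 11) (.nd (nat_lit 18) 
(.lf (nat_lit 470352008) (dlOf (nat_lit 1) (nat_lit 0x4002000200080c0102))) 
(.lf (nat_lit 1009057928) (dlOf (nat_lit 1) (nat_lit 0x60019030f01)))) 
(.lf (nat_lit 469829768) (dlOf (nat_lit 1) (nat_lit 0x20008004801)))) 
(.lf (nat_lit 2617316232) (dlOf (nat_lit 1) (nat_lit 0xe00180a9001)))))) (.nd (nat_lit 8) 
(.nd (nat_lit 11) (.nd (nat_lit 18) (.nd (nat_lit 10) 
(.lf (nat_lit 3557359624) (dlOf (nat_lit 1) (nat_lit 0xa80080004002003400081c0483))) 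
(.lf (nat_lit 2080441352) (dlOf (nat_lit 1) (nat_lit 0x20018092881)))) (.nd (nat_lit 6) 
(.lf (nat_lit 2080702472) (dlOf (nat_lit 13) (nat_lit 0x20602900de58101ee014806f100803400a40377e0401c405201bbe0201ac02900dde810095014806ef00800400a400fc01601b4e04009c02900da40100260140027002c0367608011805201b3802004402d00644010028016801180b000000080038002000200080b0002))) 
(.lf (nat_lit 2080702536) (dlOf (nat_lit 3) (nat_lit 0x380290000b8100010198004809800b00120020002000000480b0600))))) 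
(.nd (nat_lit 6) (.nd (nat_lit 7) 
(.lf (nat_lit 1410140168) (dlOf (nat_lit 1) (nat_lit 0x200180f4701))) 
(.lf (nat_lit 1410140296) (dlOf (nat_lit 1) (nat_lit 0x23400280f4801)))) 
(.lf (nat_lit 1543572680) (dlOf (nat_lit 2) (nat_lit 0x401f00019018146380))))) (.nd (nat_lit 6) 
(.nd (nat_lit 7) (.nd (nat_lit 9) 
(.lf (nat_lit 1409355016) (dlOf (nat_lit 1) (nat_lit 0x1a0018006681))) 
(.lf (nat_lit 1410139912) (dlOf (nat_lit 2) (nat_lit 0x1805b000288180f3b80)))) (.nd (nat_lit 10) 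
(.lf (nat_lit 2080440712) (dlOf (nat_lit 2) (nat_lit 0x4009000b0018091000))) 
(.lf (nat_lit 1409359240) (dlOf (nat_lit 1) (nat_lit 0x26002800c901))))) (.nd (nat_lit 9) 
(.nd (nat_lit 18) 
(.lf (nat_lit 3691058504) (dlOf (nat_lit 11) (nat_lit 0x300a800180180154c08000c0540010029000300d80038060000802a0006011000400580020018001000400040010052f0a00010010029740800180a80020052000601b000100c00010054000c022000a00600040010029704000800b4003405600180000052a03000100000294c0800800b40038056001a00000529030009017000700b4006c0540032018001300a80098028001c00c0026000005238800010000028fc0800080b40147a04001c00400160008009902))) 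
(.lf (nat_lit 3557102920) (dlOf (nat_lit 4) (nat_lit 0xa0194006003800a4704000401c0051e81000c037801201a0007004200380200051a848129900)))) 
(.lf (nat_lit 5704321864) (dlOf (nat_lit 1) (nat_lit 0x3c00200160008055c02)))))))))) 
(.nd (nat_lit 18) (.nd (nat_lit 8) (.nd (nat_lit 19) (.nd (nat_lit 10) (.nd (nat_lit 6) 
(.nd (nat_lit 11) (.nd (nat_lit 16) (.nd (nat_lit 20) 
(.lf (nat_lit 473964552) (dlOf (nat_lit 1) (nat_lit 0x20028fe0001))) 
(.lf (nat_lit 22028296) (dlOf (nat_lit 1) (nat_lit 0x400200020008a90482)))) (.nd (nat_lit 20) 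
(.lf (nat_lit 4697694216) (dlOf (nat_lit 1) (nat_lit 0xe0028090001))) (.nd (nat_lit 22) 
(.lf (nat_lit 17899528) (dlOf (nat_lit 1) (nat_lit 0xc0028900581))) 
(.lf (nat_lit 47259656) (dlOf (nat_lit 1) (nat_lit 0x80080004002000200093c0003)))))) 
(.nd (nat_lit 9) (.nd (nat_lit 16) (.nd (nat_lit 26) 
(.lf (nat_lit 4429195400) (dlOf (nat_lit 1) (nat_lit 0x20008004801))) 
(.lf (nat_lit 1811949704) (dlOf (nat_lit 2) (nat_lit 0x401a0001e818004800)))) 
(.lf (nat_lit 4362152072) (dlOf (nat_lit 1) (nat_lit 0x580080010002000a0008004803)))) 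
(.nd (nat_lit 7) (.lf (nat_lit 536885768) (dlOf (nat_lit 1) (nat_lit 0x240040012000800b282))) 
(.lf (nat_lit 4697631368) (dlOf (nat_lit 1) (nat_lit 0x20028005481)))))) (.nd (nat_lit 9) 
(.nd (nat_lit 12) (.nd (nat_lit 26) 
(.lf (nat_lit 3490783304) (dlOf (nat_lit 1) (nat_lit 0x220028020881))) 
(.lf (nat_lit 2752585800) (dlOf (nat_lit 1) (nat_lit 0x220028020881)))) (.nd (nat_lit 11) 
(.lf (nat_lit 67121224) (dlOf (nat_lit 1) (nat_lit 0x20008007d81))) 
(.lf (nat_lit 1543518280) (dlOf (nat_lit 2) (nat_lit 0x40500008022000400f80042418002000800080020004000800a683))))) 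
(.nd (nat_lit 16) (.nd (nat_lit 11) 
(.lf (nat_lit 6039806536) (dlOf (nat_lit 1) (nat_lit 0x100008003c00200dc0008001583))) 
(.lf (nat_lit 51391048) (dlOf (nat_lit 9) (nat_lit 0x26cea0002e01001467500016c0800a33a8000b4040029db80032ce900144c58000901800cb3a4000460400659d20002202000eedc00196748000841000cb3a40003e040028004004e0009515202)))) 
(.nd (nat_lit 20) (.lf (nat_lit 2617320008) (dlOf (nat_lit 1) (nat_lit 0x4002000200080a1582))) 
(.lf (nat_lit 11608648) (dlOf (nat_lit 1) (nat_lit 0x2b0002011400086c1102))))))) (.nd (nat_lit 7) 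
(.nd (nat_lit 12) (.nd (nat_lit 6) (.nd (nat_lit 26) (.nd (nat_lit 28) 
(.lf (nat_lit 3892388872) (dlOf (nat_lit 1) (nat_lit 0x34002014a0008102882))) 
(.lf (nat_lit 402727944) (dlOf (nat_lit 1) (nat_lit 0xa0018092881)))) 
(.lf (nat_lit 201401352) (dlOf (nat_lit 1) (nat_lit 0x20018002881)))) (.nd (nat_lit 16) 
(.lf (nat_lit 4362085448) (dlOf (nat_lit 1) (nat_lit 0x20028002881))) 
(.lf (nat_lit 2080449608) (dlOf (nat_lit 1) (nat_lit 0x800400020008092882))))) (.nd (nat_lit 9) 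
(.lf (nat_lit 469775368) (dlOf (nat_lit 1) (nat_lit 0xc004000c0008009202))) (.nd (nat_lit 26) 
(.lf (nat_lit 6039877128) (dlOf (nat_lit 1) (nat_lit 0x20018009c01))) 
(.lf (nat_lit 6643856904) (dlOf (nat_lit 1) (nat_lit 0x40018009c01)))))) (.nd (nat_lit 6) 
(.nd (nat_lit 12) (.nd (nat_lit 9) (.nd (nat_lit 27) 
(.lf (nat_lit 1342188680) (dlOf (nat_lit 1) (nat_lit 0x400400040018006182))) 
(.lf (nat_lit 134229128) (dlOf (nat_lit 1) (nat_lit 0x400200020008006182)))) 
(.lf (nat_lit 1610688136) (dlOf (nat_lit 1) (nat_lit 0x120018093a01)))) (.nd (nat_lit 26) 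
(.lf (nat_lit 1342192776) (dlOf (nat_lit 1) (nat_lit 0x800800140020004000800c203))) 
(.lf (nat_lit 4227873928) (dlOf (nat_lit 1) (nat_lit 0x6001800c201))))) (.nd (nat_lit 9) 
(.nd (nat_lit 11) (.lf (nat_lit 51455176) (dlOf (nat_lit 1) (nat_lit 0x400200020009512d02))) 
(.lf (nat_lit 2754620616) (dlOf (nat_lit 1) (nat_lit 0x200180f6381)))) (.nd (nat_lit 28) 
(.lf (nat_lit 4294979272) (dlOf (nat_lit 1) (nat_lit 0x800400020008007302))) 
(.lf (nat_lit 1879060168) (dlOf (nat_lit 1) (nat_lit 0x400400020008007302)))))))) (.nd (nat_lit 6) 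
(.nd (nat_lit 21) (.nd (nat_lit 26) (.nd (nat_lit 20) (.nd (nat_lit 27) (.nd (nat_lit 9) 
(.nd (nat_lit 23) 
(.lf (nat_lit 4027064328) (dlOf (nat_lit 2) (nat_lit 0x8001800000040020002004400081d0002))) 
(.lf (nat_lit 25698312) (dlOf (nat_lit 1) (nat_lit 0x40018c10001)))) 
(.lf (nat_lit 1342710280) (dlOf (nat_lit 2) (nat_lit 0x7023c0010c8180c0d80)))) (.nd (nat_lit 16) 
(.lf (nat_lit 2819104776) (dlOf (nat_lit 18) (nat_lit 0x1e803f0055c81000401b000080880029e08001c07e0014902006e03f000101b0004f01002180fc0027604017407e0013a02000403f0009c81000701f8004a40800101c8004007e00128040052072002b01f8004801002981c80023c0400b00e4002e03f0008e02001001f8004500800400fc0021604001007e000fd02003a072002101f8003e41000281c8004c07e000ef04009800081a0481))) 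
(.lf (nat_lit 134815752) (dlOf (nat_lit 1) (nat_lit 0x200180c0801))))) (.nd (nat_lit 10) 
(.lf (nat_lit 9969672) (dlOf (nat_lit 1) (nat_lit 0x580080090002003400085a0a03))) 
(.lf (nat_lit 56108040) (dlOf (nat_lit 1) (nat_lit 0x400200020009732882))))) (.nd (nat_lit 27) 
(.nd (nat_lit 20) (.nd (nat_lit 28) 
(.lf (nat_lit 3288866824) (dlOf (nat_lit 2) (nat_lit 0x8001800000040020002004400081d0002))) 
(.lf (nat_lit 3557302280) (dlOf (nat_lit 1) (nat_lit 0x80080008002000c00081b0003)))) 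
(.lf (nat_lit 4095221768) (dlOf (nat_lit 1) (nat_lit 0x40028080001)))) (.nd (nat_lit 9) 
(.nd (nat_lit 16) 
(.lf (nat_lit 2886213640) (dlOf (nat_lit 1) (nat_lit 0x8008000400200060008190003))) 
(.lf (nat_lit 201924616) (dlOf (nat_lit 1) (nat_lit 0x200180c0801)))) 
(.lf (nat_lit 470295048) (dlOf (nat_lit 3) (nat_lit 0xa891c00504780021c04003c23c0010b8180c0d80)))))) 
(.nd (nat_lit 16) (.nd (nat_lit 7) (.nd (nat_lit 10) (.nd (nat_lit 20) 
(.lf (nat_lit 6823944) (dlOf (nat_lit 1) (nat_lit 0x400200020008460002))) 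
(.lf (nat_lit 7872520) (dlOf (nat_lit 1) (nat_lit 0x4002000200084f0002)))) 
(.lf (nat_lit 1344807944) (dlOf (nat_lit 2) (nat_lit 0xe0d90007046800081f400b120c0094004002e0008982882)))) 
(.lf (nat_lit 23601288) (dlOf (nat_lit 1) (nat_lit 0x8008000400200020008b80103)))) (.nd (nat_lit 7) 
(.nd (nat_lit 24) 
(.lf (nat_lit 11083784) (dlOf (nat_lit 1) (nat_lit 0xc800800b8002001c0008660003))) 
(.lf (nat_lit 27861000) (dlOf (nat_lit 1) (nat_lit 0x1000400260008d30002)))) 
(.lf (nat_lit 23666824) (dlOf (nat_lit 1) (nat_lit 0x80080128002002a0008b80103)))))) 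
(.nd (nat_lit 9) (.nd (nat_lit 20) (.nd (nat_lit 16) (.nd (nat_lit 26) 
(.lf (nat_lit 134750280) (dlOf (nat_lit 4) (nat_lit 0x1980000004002005803b0001001000a01d800080d8000160800ec002004c00080a0e02))) 
(.lf (nat_lit 4228390984) (dlOf (nat_lit 3) (nat_lit 0x1013c0006004000809e0002b02000200080a0e01)))) 
(.lf (nat_lit 1409884232) (dlOf (nat_lit 2) (nat_lit 0x1102c800700900004008000c004001400080a0e02)))) 
(.nd (nat_lit 7) (.nd (nat_lit 10) 
(.lf (nat_lit 3678280) (dlOf (nat_lit 2) (nat_lit 0x1000000006004002400200020008210e02))) 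
(.lf (nat_lit 37299272) (dlOf (nat_lit 1) (nat_lit 0x200290d2881)))) 
(.lf (nat_lit 41428168) (dlOf (nat_lit 3) (nat_lit 0x1f0000000700800a800000036040038002002a0009242d02))))) 
(.nd (nat_lit 16) (.nd (nat_lit 7) (.nd (nat_lit 26) 
(.lf (nat_lit 1342710344) (dlOf (nat_lit 23) (nat_lit 0x2f091c03804780004f0400a02470002701005112380013408015891c0009804016448e0004b02044e15400cd0a8803004dc03781e801d4094000240502250aa0065854403c41280004706037215400f70a880011410107855003ec2a200c413700ea07a000f02500070006000440c041415400f50a8806203d000481280004308043e15400f40a88001081000b091c08202a801c8151008c04a00010020108855003842a20003e0401761510001e0100030a88000ec08020091c0024478046a15400f20a8804004dc04201e8020e094003a0018000e040028091c001c478000370400a22470001b01006b1238000d408004091c0380478000340401c023c0001981001512380004c08073800801f0002052e00080c1103))) 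
(.lf (nat_lit 470295112) (dlOf (nat_lit 23) (nat_lit 0x2f091c03804780004f0400a02470002701005112380013408015891c0009804016448e0004b02044e15400cd0a8803004dc03781e801d4094000240502250aa0065854403c41280004706037215400f70a880011410107855003ec2a200c413700ea07a000f0250007000e000440c041415400f50a8806203d000481280004308043e15400f40a88001081000b091c08202a801c8151008c04a00010020108855003842a20003e0401761510001e0100030a88000ec08020091c0024478046a15400f20a8804004dc04201e8020e094003a0038000e040028091c001c478000370400a22470001b01006b1238000d408004091c0380478000340401c023c0001981001512380004c08073800801f0002052e00080c1103)))) 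
(.lf (nat_lit 20459208) (dlOf (nat_lit 1) (nat_lit 0x600289d7301)))) (.nd (nat_lit 26) 
(.lf (nat_lit 3491308104) (dlOf (nat_lit 2) (nat_lit 0x408b0000b818091100))) 
(.lf (nat_lit 2753110600) (dlOf (nat_lit 2) (nat_lit 0x40880000b818091100)))))))) (.nd (nat_lit 7) 
(.nd (nat_lit 28) (.nd (nat_lit 9) (.nd (nat_lit 12) (.nd (nat_lit 10) (.nd (nat_lit 16) 
(.lf (nat_lit 23601480) (dlOf (nat_lit 1) (nat_lit 0x20018b80601))) 
(.lf (nat_lit 1208033608) (dlOf (nat_lit 2) (nat_lit 0x4052000110200560028090c81)))) 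
(.lf (nat_lit 39855432) (dlOf (nat_lit 1) (nat_lit 0x20002000a00091f3302)))) (.nd (nat_lit 6) 
(.nd (nat_lit 16) (.lf (nat_lit 8402184) (dlOf (nat_lit 1) (nat_lit 0x24002005a0008519602))) 
(.lf (nat_lit 8467720) (dlOf (nat_lit 1) (nat_lit 0x400200020008519602)))) 
(.lf (nat_lit 134233416) (dlOf (nat_lit 2) (nat_lit 0x180d8007f20400640040014000800c902))))) 
(.nd (nat_lit 10) (.nd (nat_lit 6) (.nd (nat_lit 26) 
(.lf (nat_lit 4831914760) (dlOf (nat_lit 1) (nat_lit 0x8008000800200020008055b03))) 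
(.lf (nat_lit 738274056) (dlOf (nat_lit 2) (nat_lit 0x205900017018095b00)))) 
(.lf (nat_lit 19999560) (dlOf (nat_lit 1) (nat_lit 0x4002000200089d5c02)))) (.nd (nat_lit 16) 
(.nd (nat_lit 12) (.lf (nat_lit 8922888) (dlOf (nat_lit 1) (nat_lit 0x20018513b81))) 
(.lf (nat_lit 603993864) (dlOf (nat_lit 2) (nat_lit 0x4045004e681800a000)))) (.nd (nat_lit 19) 
(.lf (nat_lit 2348885768) (dlOf (nat_lit 2) (nat_lit 0x54054002c02800028828003b80))) 
(.lf (nat_lit 2752063240) (dlOf (nat_lit 1) (nat_lit 0x800400060008003b82))))))) (.nd (nat_lit 6) 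
(.nd (nat_lit 9) (.nd (nat_lit 10) 
(.lf (nat_lit 1345855752) (dlOf (nat_lit 1) (nat_lit 0x120008e03a01))) (.nd (nat_lit 12) 
(.lf (nat_lit 4227869960) (dlOf (nat_lit 9) (nat_lit 0xc0640002e020004032000168100020190000900800100c800046040008064000220200040320001081000301900007c0800100c80003c0400ac00400060018006682))) 
(.lf (nat_lit 469777672) (dlOf (nat_lit 1) (nat_lit 0x40040002001800c602))))) (.nd (nat_lit 29) 
(.nd (nat_lit 10) (.lf (nat_lit 4563479304) (dlOf (nat_lit 1) (nat_lit 0x30002000e0008095b02))) 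
(.lf (nat_lit 3623954184) (dlOf (nat_lit 2) (nat_lit 0x2c038000220200520018003b81)))) 
(.nd (nat_lit 12) 
(.lf (nat_lit 4026607368) (dlOf (nat_lit 2) (nat_lit 0x4806a002a02300023828003b80))) 
(.lf (nat_lit 2952804104) (dlOf (nat_lit 2) (nat_lit 0x2b00000000008000800800100020012000800a003)))))) 
(.nd (nat_lit 12) (.nd (nat_lit 9) (.nd (nat_lit 10) 
(.lf (nat_lit 4563476808) (dlOf (nat_lit 2) (nat_lit 0x48034001c00a8000001001000080080002004a0008090c83))) 
(.lf (nat_lit 473441608) (dlOf (nat_lit 1) (nat_lit 0x400400020008f53302)))) 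
(.lf (nat_lit 5704330056) (dlOf (nat_lit 1) (nat_lit 0x480080014002000c0008055c03)))) 
(.nd (nat_lit 26) (.nd (nat_lit 27) 
(.lf (nat_lit 2952869192) (dlOf (nat_lit 3) (nat_lit 0x200a0051a810001005002608080020008004c00200020008009903))) 
(.lf (nat_lit 1476474184) (dlOf (nat_lit 4) (nat_lit 0x407e00a4702004403f000c00f0028d41000e80fc014560400ac004002c0008009902)))) 
(.lf (nat_lit 3691066696) (dlOf (nat_lit 9) (nat_lit 0x300a800180180154c0800200440046015000200900008044003000c00a5e0a0012022002100a80068018014b80c002001400020000052a02000a00500008000014a40800bc044002a019002900500178018009800000a470a000c0150051f0100020050028f408015000800a000202880008009903))))))) 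
(.nd (nat_lit 28) (.nd (nat_lit 10) (.nd (nat_lit 16) (.nd (nat_lit 9) (.nd (nat_lit 11) 
(.lf (nat_lit 8397192) (dlOf (nat_lit 1) (nat_lit 0x20008511001))) (.nd (nat_lit 26) 
(.lf (nat_lit 3892324744) (dlOf (nat_lit 1) (nat_lit 0x60018004e81))) 
(.lf (nat_lit 1275079048) (dlOf (nat_lit 1) (nat_lit 0x8008003400200020008004e83))))) 
(.nd (nat_lit 6) 
(.lf (nat_lit 2885696392) (dlOf (nat_lit 1) (nat_lit 0x8008000400202d0000800bc83))) 
(.lf (nat_lit 671103944) (dlOf (nat_lit 1) (nat_lit 0x10008000c0020008000800be83))))) 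
(.nd (nat_lit 11) (.nd (nat_lit 26) 
(.lf (nat_lit 2818646408) (dlOf (nat_lit 1) (nat_lit 0x400400020008081002))) 
(.lf (nat_lit 1140924808) (dlOf (nat_lit 1) (nat_lit 0x48008003400201120008001003)))) 
(.nd (nat_lit 19) (.lf (nat_lit 35727752) (dlOf (nat_lit 1) (nat_lit 0x20019014e81))) 
(.lf (nat_lit 56174984) (dlOf (nat_lit 1) (nat_lit 0x3000400120009734e82)))))) (.nd (nat_lit 20) 
(.nd (nat_lit 26) (.lf (nat_lit 4294978952) (dlOf (nat_lit 1) (nat_lit 0x20008006c81))) 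
(.lf (nat_lit 3288345992) (dlOf (nat_lit 1) (nat_lit 0x400400020008006c82)))) (.nd (nat_lit 16) 
(.nd (nat_lit 19) (.lf (nat_lit 19934600) (dlOf (nat_lit 1) (nat_lit 0x1600289d6c81))) 
(.lf (nat_lit 20458888) (dlOf (nat_lit 1) (nat_lit 0x200289d6c81)))) 
(.lf (nat_lit 20000136) (dlOf (nat_lit 1) (nat_lit 0x4002000200089d6c82)))))) (.nd (nat_lit 27) 
(.nd (nat_lit 6) (.nd (nat_lit 10) (.nd (nat_lit 26) 
(.lf (nat_lit 3489671560) (dlOf (nat_lit 1) (nat_lit 0x400200020008004e82))) 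
(.lf (nat_lit 6241134984) (dlOf (nat_lit 1) (nat_lit 0x20018004e81)))) 
(.lf (nat_lit 1879059848) (dlOf (nat_lit 1) (nat_lit 0x20008006c81)))) (.nd (nat_lit 11) 
(.lf (nat_lit 872489928) (dlOf (nat_lit 1) (nat_lit 0xe0028092881))) (.nd (nat_lit 16) 
(.lf (nat_lit 6710897608) (dlOf (nat_lit 1) (nat_lit 0xc00400020018005d82))) 
(.lf (nat_lit 5704330184) (dlOf (nat_lit 10) (nat_lit 0x5c0160002d02003400b0001601001a0058000ac08024006c00ac032009e00b0001503003e00d80008064012c0160002906003801b00130058000181001c006c0018032008800b0000203002500d8009006400940160000206007601b004200580000010013800800b0002000e0008055d83)))))) 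
(.nd (nat_lit 29) (.nd (nat_lit 20) (.nd (nat_lit 10) 
(.lf (nat_lit 5771372936) (dlOf (nat_lit 2) (nat_lit 0x5014003850080038008000c00200020008004e83))) 
(.lf (nat_lit 2550148488) (dlOf (nat_lit 1) (nat_lit 0x400400020008006c82)))) (.nd (nat_lit 6) 
(.lf (nat_lit 473508232) (dlOf (nat_lit 1) (nat_lit 0x400200020008f54e82))) 
(.lf (nat_lit 5772420040) (dlOf (nat_lit 1) (nat_lit 0x8008001000200020008092883))))) 
(.nd (nat_lit 6) (.nd (nat_lit 10) 
(.lf (nat_lit 939534728) (dlOf (nat_lit 1) (nat_lit 0x8008000400200020008004e83))) 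
(.lf (nat_lit 4227870088) (dlOf (nat_lit 1) (nat_lit 0xf4002005a0008006c82)))) 
(.lf (nat_lit 5234568136) (dlOf (nat_lit 6) (nat_lit 0x405c0002602000a02b0001201000a017800600b80004208001c05e001402e000100200050178000100800e0008000c00200020008055d83))))))))) 
(.nd (nat_lit 16) (.nd (nat_lit 6) (.nd (nat_lit 26) (.nd (nat_lit 27) (.nd (nat_lit 7) 
(.nd (nat_lit 8) 
(.lf (nat_lit 4563673096) (dlOf (nat_lit 4) (nat_lit 0x200680012032000800f800500540034024019130a000a03400050190003807c001c02a001201200c8885000b00a80058048030da080078004000a00180c0002))) 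
(.nd (nat_lit 21) 
(.lf (nat_lit 3490980104) (dlOf (nat_lit 2) (nat_lit 0x20f3000088080020008001000200060008047303))) 
(.lf (nat_lit 41165064) (dlOf (nat_lit 1) (nat_lit 0x40029223a01))))) (.nd (nat_lit 8) 
(.nd (nat_lit 21) 
(.lf (nat_lit 9707656) (dlOf (nat_lit 3) (nat_lit 0x5aa570001a81002c52b801ba95800b098400124b8002f25a8016128c00064180030004000a0008570e02))) 
(.lf (nat_lit 11804808) (dlOf (nat_lit 1) (nat_lit 0x8002000200086c0102)))) 
(.lf (nat_lit 8659336) (dlOf (nat_lit 2) (nat_lit 0xf9140009c0200060008511001))))) 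
(.nd (nat_lit 30) (.nd (nat_lit 29) (.nd (nat_lit 32) 
(.lf (nat_lit 402923528) (dlOf (nat_lit 1) (nat_lit 0x600280b0001))) 
(.lf (nat_lit 4697890824) (dlOf (nat_lit 4) (nat_lit 0x200680012032000800f80050054003402401c600a000a03400050190003807c001c02a001201200e2f05000b00a80058048037a6080078004000a00180c0002)))) 
(.nd (nat_lit 19) 
(.lf (nat_lit 939794440) (dlOf (nat_lit 2) (nat_lit 0x70000002f0040054002001a0008180482))) 
(.lf (nat_lit 2819366920) (dlOf (nat_lit 2) (nat_lit 0x301880160e04001800200060008250002))))) 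
(.nd (nat_lit 7) (.nd (nat_lit 19) 
(.lf (nat_lit 1476665352) (dlOf (nat_lit 2) (nat_lit 0x4c00000c1302001a00180f0001))) 
(.lf (nat_lit 5773205512) (dlOf (nat_lit 5) (nat_lit 0x109f8072d80802804c40395e04014016201b4e020166131003d098001a04bc000000c0008004002400080b0002)))) 
(.lf (nat_lit 3624152456) (dlOf (nat_lit 1) (nat_lit 0x640028146c81)))))) (.nd (nat_lit 29) 
(.nd (nat_lit 31) (.nd (nat_lit 27) (.nd (nat_lit 28) 
(.lf (nat_lit 4362346504) (dlOf (nat_lit 2) (nat_lit 0x20150003c0820018028000b0138002482000300080094002002a0008030583))) 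
(.nd (nat_lit 32) (.lf (nat_lit 335814664) (dlOf (nat_lit 1) (nat_lit 0x600280b0001))) 
(.lf (nat_lit 4630781960) (dlOf (nat_lit 1) (nat_lit 0x200280b0001))))) 
(.lf (nat_lit 4764999688) (dlOf (nat_lit 1) (nat_lit 0x200280b0001)))) (.nd (nat_lit 7) 
(.nd (nat_lit 27) (.lf (nat_lit 2214862856) (dlOf (nat_lit 1) (nat_lit 0x6000280e0001))) 
(.lf (nat_lit 3691257864) (dlOf (nat_lit 1) (nat_lit 0x800200040008100002)))) 
(.lf (nat_lit 3557046920) (dlOf (nat_lit 8) (nat_lit 0x4101f8013180800e00fc0098a0400ac0e4007003f0026202000101f8012f00801780fc0097404007807e004b90200f0072004301f8012c01001c00080124002007c000812b683))))) 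
(.nd (nat_lit 28) (.nd (nat_lit 10) 
(.lf (nat_lit 1812209672) (dlOf (nat_lit 2) (nat_lit 0x70000001d2040054002001a0008180482))) 
(.nd (nat_lit 11) (.lf (nat_lit 2885952520) (dlOf (nat_lit 1) (nat_lit 0x1c0028142881))) 
(.lf (nat_lit 4899220488) (dlOf (nat_lit 1) (nat_lit 0xa00180d5f81))))) (.nd (nat_lit 7) 
(.nd (nat_lit 19) 
(.lf (nat_lit 4228128776) (dlOf (nat_lit 2) (nat_lit 0x20134003c074001802e000b0138002482000300080094002002a0008030583))) 
(.lf (nat_lit 6377185288) (dlOf (nat_lit 5) (nat_lit 0x109900656c08028048803298040140168017e2020166122003d090801a0480000000c0008004002400080b0002)))) 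
(.nd (nat_lit 11) 
(.lf (nat_lit 5301870728) (dlOf (nat_lit 2) (nat_lit 0x2004400040040020004000800180c0e02))) 
(.lf (nat_lit 4228655240) (dlOf (nat_lit 1) (nat_lit 0x400200020008114802)))))))) (.nd (nat_lit 30) 
(.nd (nat_lit 7) (.nd (nat_lit 20) (.nd (nat_lit 9) (.nd (nat_lit 10) (.nd (nat_lit 26) 
(.lf (nat_lit 3087278152) (dlOf (nat_lit 2) (nat_lit 0x3c00a00000018160880))) 
(.lf (nat_lit 2483298376) (dlOf (nat_lit 1) (nat_lit 0x280080024002001000080a0e03)))) 
(.lf (nat_lit 2818847816) (dlOf (nat_lit 1) (nat_lit 0x210002008e0008129302)))) (.nd (nat_lit 10) 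
(.lf (nat_lit 23339592) (dlOf (nat_lit 1) (nat_lit 0x400200020008b81102))) 
(.lf (nat_lit 4832110152) (dlOf (nat_lit 1) (nat_lit 0x4004000200080d3802))))) (.nd (nat_lit 8) 
(.nd (nat_lit 19) (.lf (nat_lit 24387656) (dlOf (nat_lit 1) (nat_lit 0x8008000400200020008b90e03))) 
(.lf (nat_lit 60563528) (dlOf (nat_lit 1) (nat_lit 0x180080008002000200098a1403)))) 
(.lf (nat_lit 11805000) (dlOf (nat_lit 1) (nat_lit 0x18002002200086c0602))))) (.nd (nat_lit 8) 
(.nd (nat_lit 9) (.nd (nat_lit 10) 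
(.lf (nat_lit 4697891016) (dlOf (nat_lit 1) (nat_lit 0x200280c1781))) 
(.lf (nat_lit 47981768) (dlOf (nat_lit 1) (nat_lit 0x400200020009402d02)))) 
(.lf (nat_lit 20198088) (dlOf (nat_lit 1) (nat_lit 0x4002000200089d8c82)))) (.nd (nat_lit 11) 
(.nd (nat_lit 19) 
(.lf (nat_lit 2751734728) (dlOf (nat_lit 1) (nat_lit 0x18008001400200080008002883))) 
(.lf (nat_lit 50078664) (dlOf (nat_lit 7) (nat_lit 0x154a8c0167a0200b454600b3c0100552a30059d808028151802cea0402f0a8a002d1020104546000000194c2880)))) 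
(.lf (nat_lit 4496567240) (dlOf (nat_lit 7) (nat_lit 0x1e034001a0190000808c0003a0c00180640001b020046032000e0118000601000680880002a0400cc06400400220000882000201900000008019800800fc002002400080e5d83)))))) 
(.nd (nat_lit 32) (.nd (nat_lit 9) (.nd (nat_lit 21) (.nd (nat_lit 26) 
(.lf (nat_lit 1879318600) (dlOf (nat_lit 1) (nat_lit 0x400280d0e01))) 
(.lf (nat_lit 3825475656) (dlOf (nat_lit 2) (nat_lit 0x3c00a00000018160880)))) 
(.lf (nat_lit 3492028488) (dlOf (nat_lit 2) (nat_lit 0x100480002402000200180a0e01)))) 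
(.nd (nat_lit 7) (.nd (nat_lit 26) 
(.lf (nat_lit 1074012744) (dlOf (nat_lit 5) (nat_lit 0x7c0148000980803880a40004a0401bc05200024020074029000400700005c1001200080100002006c0008091103))) 
(.lf (nat_lit 1946427976) (dlOf (nat_lit 5) (nat_lit 0x7c0148000980803880a40004a0401bc05200024020074029000400680005c1001200080100002006c0008091103)))) 
(.lf (nat_lit 3221502920) (dlOf (nat_lit 1) (nat_lit 0x2002811be81))))) (.nd (nat_lit 7) 
(.nd (nat_lit 10) (.nd (nat_lit 26) 
(.lf (nat_lit 5773205576) (dlOf (nat_lit 3) (nat_lit 0xc2620001302015a131000000180b0600))) 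
(.lf (nat_lit 6377185352) (dlOf (nat_lit 3) (nat_lit 0xc2440001002015a122000000180b0600)))) 
(.lf (nat_lit 5772682312) (dlOf (nat_lit 1) (nat_lit 0x400400020008092882)))) (.nd (nat_lit 8) 
(.lf (nat_lit 5436088520) (dlOf (nat_lit 1) (nat_lit 0x600080030002000a00080c1b83))) 
(.nd (nat_lit 9) 
(.lf (nat_lit 5772681672) (dlOf (nat_lit 2) (nat_lit 0x20000000000200160018091101))) 
(.lf (nat_lit 5772682184) (dlOf (nat_lit 2) (nat_lit 0x4050008410200020018092881))))))))) 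
(.nd (nat_lit 28) (.nd (nat_lit 21) (.nd (nat_lit 27) (.nd (nat_lit 6) (.nd (nat_lit 19) 
(.nd (nat_lit 22) (.nd (nat_lit 11) 
(.lf (nat_lit 4832174088) (dlOf (nat_lit 1) (nat_lit 0x400400020008100002))) 
(.lf (nat_lit 4295305224) (dlOf (nat_lit 1) (nat_lit 0x60008114701)))) (.nd (nat_lit 7) 
(.lf (nat_lit 38085640) (dlOf (nat_lit 1) (nat_lit 0x400200180009132882))) 
(.lf (nat_lit 21307528) (dlOf (nat_lit 3) (nat_lit 0x13b540003da80001ed20000d018001f6a0000fb4c0005da40002ea18000a82000800080018002002e0008a30f03))))) 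
(.nd (nat_lit 20) (.lf (nat_lit 42803208) (dlOf (nat_lit 1) (nat_lit 0x1800400020009280002))) 
(.lf (nat_lit 18685960) (dlOf (nat_lit 2) (nat_lit 0x252b000108ea00383eb80009f58000cf58001675f001939980009cc800c7e20002400400040008960282))))) 
(.nd (nat_lit 19) (.nd (nat_lit 8) 
(.lf (nat_lit 9773128) (dlOf (nat_lit 2) (nat_lit 0x705e0000f804009800400220008580482))) 
(.lf (nat_lit 46473544) (dlOf (nat_lit 1) (nat_lit 0x10008001c002000c0009380c83)))) 
(.nd (nat_lit 9) (.lf (nat_lit 2752329800) (dlOf (nat_lit 1) (nat_lit 0x80020008000800a682))) 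
(.lf (nat_lit 1909320) (dlOf (nat_lit 2) (nat_lit 0x1c578800158080010008001000200020008151103)))))) 
(.nd (nat_lit 26) (.nd (nat_lit 29) (.nd (nat_lit 30) 
(.lf (nat_lit 134553608) (dlOf (nat_lit 3) (nat_lit 0x40043001a881002901d8009040800a8008008c00200360008070503))) 
(.lf (nat_lit 1208295432) (dlOf (nat_lit 1) (nat_lit 0x4004005800080c0002)))) (.nd (nat_lit 7) 
(.lf (nat_lit 1745166344) (dlOf (nat_lit 1) (nat_lit 0x4004000200080c0002))) 
(.lf (nat_lit 1745166472) (dlOf (nat_lit 2) (nat_lit 0x2002c0002302000400280c0f01))))) 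
(.nd (nat_lit 6) (.nd (nat_lit 31) 
(.lf (nat_lit 201662472) (dlOf (nat_lit 3) (nat_lit 0x400430016881002901d80094c0800a8008008c00200360008070503))) 
(.lf (nat_lit 2349146120) (dlOf (nat_lit 2) (nat_lit 0x20003c00b801a0000004001400080d0481)))) 
(.lf (nat_lit 2349146184) (dlOf (nat_lit 3) (nat_lit 0xa0150000640801a00a80014050000a0180003008000100380002e140004002000400080d0c82)))))) 
(.nd (nat_lit 6) (.nd (nat_lit 8) (.nd (nat_lit 7) (.nd (nat_lit 20) 
(.lf (nat_lit 2433032) (dlOf (nat_lit 1) (nat_lit 0x3800200120008160402))) 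
(.lf (nat_lit 62201864) (dlOf (nat_lit 1) (nat_lit 0x14004000c0009970002)))) 
(.lf (nat_lit 11870344) (dlOf (nat_lit 1) (nat_lit 0x8008000c002000200086c0103)))) 
(.nd (nat_lit 22) (.nd (nat_lit 7) 
(.lf (nat_lit 52765960) (dlOf (nat_lit 1) (nat_lit 0x400200020009572f82))) 
(.lf (nat_lit 52765064) (dlOf (nat_lit 1) (nat_lit 0x20029571001)))) (.nd (nat_lit 19) 
(.lf (nat_lit 41230600) (dlOf (nat_lit 1) (nat_lit 0x1b4004000e0009223a02))) 
(.lf (nat_lit 7151880) (dlOf (nat_lit 1) (nat_lit 0x2c00184b0701)))))) (.nd (nat_lit 7) 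
(.nd (nat_lit 8) (.lf (nat_lit 58532936) (dlOf (nat_lit 1) (nat_lit 0x4004000200197e2882))) 
(.nd (nat_lit 10) (.lf (nat_lit 11870536) (dlOf (nat_lit 1) (nat_lit 0x1c004000600186c0602))) 
(.lf (nat_lit 56960328) (dlOf (nat_lit 3) (nat_lit 0x5cbda0002a0200065e90018219800040100058008001800200160009793303))))) 
(.nd (nat_lit 8) (.lf (nat_lit 20263624) (dlOf (nat_lit 1) (nat_lit 0x80080004002000200089d8c83))) 
(.lf (nat_lit 58534344) (dlOf (nat_lit 1) (nat_lit 0x4002000200097e4e82))))))) (.nd (nat_lit 26) 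
(.nd (nat_lit 6) (.nd (nat_lit 7) (.nd (nat_lit 31) 
(.lf (nat_lit 5100609544) (dlOf (nat_lit 1) (nat_lit 0x10008000400200020008100003))) 
(.lf (nat_lit 2953125896) (dlOf (nat_lit 3) (nat_lit 0x2100b8011405800b402b000e015000500a4012004e0054021002e0100014807800540340010018003000b805f804c000c022002a0090019004006b0014006c00400800000031f93000200f0018e40800b00080008002000a0008150283)))) 
(.nd (nat_lit 27) (.nd (nat_lit 29) 
(.lf (nat_lit 5637480584) (dlOf (nat_lit 3) (nat_lit 0x5804800035020052016005400900148000000640c0008004000600080f0e02))) 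
(.lf (nat_lit 5100609672) (dlOf (nat_lit 1) (nat_lit 0x50008001c00200260008100f03)))) 
(.lf (nat_lit 5234827400) (dlOf (nat_lit 8) (nat_lit 0x1cf00c81030060063002a0002013020a0050000d82800100940020038000e019002f00a800c8038002401400280070001a87004600e00188068075803202f6018020500a8000d0280b000640b1002e0678014004d006803a002000064140050028000310204d201702e200a00090020000600c004002a0000c02003e00280f0e01))))) 
(.nd (nat_lit 11) (.nd (nat_lit 21) 
(.lf (nat_lit 4697956424) (dlOf (nat_lit 3) (nat_lit 0x20050000c0220009c04000c0140004b0180d0480))) 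
(.lf (nat_lit 3492094024) (dlOf (nat_lit 2) (nat_lit 0x4a08b000100180a0e00)))) (.nd (nat_lit 7) 
(.lf (nat_lit 3493148744) (dlOf (nat_lit 1) (nat_lit 0x4004000200080fa682))) 
(.lf (nat_lit 3624217800) (dlOf (nat_lit 5) (nat_lit 0x80ec005006c00380000001903006201b000680d00014000000230600ea036002801a000d8000000440c019806c003003400120000000841800e0008007800200020008146383)))))) 
(.nd (nat_lit 27) (.nd (nat_lit 29) (.nd (nat_lit 6) (.nd (nat_lit 8) 
(.lf (nat_lit 2483363848) (dlOf (nat_lit 2) (nat_lit 0x20003c00b801a0000004001400080d0481))) 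
(.lf (nat_lit 1410148104) (dlOf (nat_lit 1) (nat_lit 0x18004000800080f3b82)))) 
(.lf (nat_lit 2483363912) (dlOf (nat_lit 3) (nat_lit 0xa0150000640801a00a80014050000a0180003008000100380002e140004002000400080d0c82)))) 
(.nd (nat_lit 7) (.nd (nat_lit 8) 
(.lf (nat_lit 872751112) (dlOf (nat_lit 1) (nat_lit 0x4004000200080c0002))) 
(.lf (nat_lit 4094503688) (dlOf (nat_lit 2) (nat_lit 0x102740005c04000400200020008055b02)))) 
(.lf (nat_lit 872751240) (dlOf (nat_lit 3) (nat_lit 0x201700a800b00009010011005800044040010004000400080c0e02))))) 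
(.nd (nat_lit 19) (.nd (nat_lit 29) (.nd (nat_lit 30) 
(.lf (nat_lit 2617581576) (dlOf (nat_lit 1) (nat_lit 0x20018100001))) 
(.lf (nat_lit 3691323400) (dlOf (nat_lit 3) (nat_lit 0x2100b8011405800b402b000e015000500a401200440054021002e010000a806c00a4032001001800bf00a00180048000c022002a0090019004006b0014006c0040080000005ea13000200c802f380800b00080008002000a0008150283)))) 
(.lf (nat_lit 2080710664) (dlOf (nat_lit 1) (nat_lit 0x4004005800080c0002)))) (.nd (nat_lit 6) 
(.lf (nat_lit 471670792) (dlOf (nat_lit 1) (nat_lit 0x5600183c0001))) 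
(.lf (nat_lit 6377251016) (dlOf (nat_lit 1) (nat_lit 0x80080058002001200080c1b83))))))))))) 
(.nd (nat_lit 13) (.nd (nat_lit 18) (.nd (nat_lit 30) (.nd (nat_lit 16) (.nd (nat_lit 28) 
(.nd (nat_lit 19) (.nd (nat_lit 10) (.nd (nat_lit 26) (.nd (nat_lit 20) 
(.lf (nat_lit 21102600) (dlOf (nat_lit 1) (nat_lit 0x7000800ac00200360008a10483))) 
(.lf (nat_lit 9568264) (dlOf (nat_lit 1) (nat_lit 0xc0018560481)))) (.nd (nat_lit 8) 
(.nd (nat_lit 27) (.lf (nat_lit 604110856) (dlOf (nat_lit 1) (nat_lit 0xc00400080018020002))) 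
(.lf (nat_lit 2885812232) (dlOf (nat_lit 1) (nat_lit 0x9c00080a0001)))) 
(.lf (nat_lit 2751596808) (dlOf (nat_lit 1) (nat_lit 0xa0028004b81))))) (.nd (nat_lit 6) 
(.nd (nat_lit 7) (.lf (nat_lit 38929416) (dlOf (nat_lit 1) (nat_lit 0x400200020009192882))) 
(.nd (nat_lit 8) 
(.lf (nat_lit 20059784) (dlOf (nat_lit 2) (nat_lit 0x56f10000f0040028004000200089d9e02))) 
(.lf (nat_lit 20057480) (dlOf (nat_lit 1) (nat_lit 0x4002000200089d6c82))))) (.nd (nat_lit 7) 
(.lf (nat_lit 39978312) (dlOf (nat_lit 1) (nat_lit 0x4002000200091f3302))) 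
(.lf (nat_lit 6576803016) (dlOf (nat_lit 1) (nat_lit 0x20008146381)))))) (.nd (nat_lit 24) 
(.nd (nat_lit 26) (.nd (nat_lit 20) 
(.lf (nat_lit 134873096) (dlOf (nat_lit 1) (nat_lit 0x24004006800080d0482))) (.nd (nat_lit 23) 
(.lf (nat_lit 3801096) (dlOf (nat_lit 7) (nat_lit 0xc27e0186502000213f00c3201000309c000304cc00141d00086506000a1380009099800303a0010c80c000828800081380004099800403a0010c610000828800041380005099800403a0010c010000400200020008220002))) 
(.lf (nat_lit 45744136) (dlOf (nat_lit 1) (nat_lit 0x8008000400200020009360003))))) 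
(.nd (nat_lit 8) (.nd (nat_lit 27) 
(.lf (nat_lit 4362731528) (dlOf (nat_lit 1) (nat_lit 0x1800080e0581))) 
(.lf (nat_lit 201981960) (dlOf (nat_lit 1) (nat_lit 0x24004006800080d0482)))) 
(.lf (nat_lit 2752120584) (dlOf (nat_lit 1) (nat_lit 0xe0008003b81))))) (.nd (nat_lit 6) 
(.nd (nat_lit 22) (.lf (nat_lit 26869768) (dlOf (nat_lit 1) (nat_lit 0x1800200020008c80482))) 
(.lf (nat_lit 22675464) (dlOf (nat_lit 1) (nat_lit 0x18008000400200060008b10003)))) 
(.nd (nat_lit 9) (.nd (nat_lit 21) 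
(.lf (nat_lit 55182536) (dlOf (nat_lit 2) (nat_lit 0x30a69000000196d2d00))) 
(.lf (nat_lit 32113864) (dlOf (nat_lit 2) (nat_lit 0x64ae00012818ef2d00)))) 
(.lf (nat_lit 57281224) (dlOf (nat_lit 1) (nat_lit 0x1100019795801))))))) (.nd (nat_lit 6) 
(.nd (nat_lit 26) (.nd (nat_lit 7) (.nd (nat_lit 11) 
(.lf (nat_lit 2952921096) (dlOf (nat_lit 1) (nat_lit 0x180028020001))) 
(.lf (nat_lit 939657224) (dlOf (nat_lit 1) (nat_lit 0x400200020008144702)))) (.nd (nat_lit 8) 
(.lf (nat_lit 5234625160) (dlOf (nat_lit 1) (nat_lit 0x20018055481))) 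
(.lf (nat_lit 4697751944) (dlOf (nat_lit 1) (nat_lit 0x400400020008091002))))) (.nd (nat_lit 8) 
(.nd (nat_lit 9) (.nd (nat_lit 19) 
(.lf (nat_lit 470941704) (dlOf (nat_lit 1) (nat_lit 0x1780018200281))) 
(.lf (nat_lit 471465992) (dlOf (nat_lit 1) (nat_lit 0x20028310581)))) 
(.lf (nat_lit 3020030472) (dlOf (nat_lit 2) (nat_lit 0x3400e00090060004b41001a00080020002001600080e8003)))) 
(.nd (nat_lit 10) (.lf (nat_lit 3154247944) (dlOf (nat_lit 1) (nat_lit 0x1400400040008133a02))) 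
(.lf (nat_lit 872547592) (dlOf (nat_lit 1) (nat_lit 0xc00200020008092f82)))))) (.nd (nat_lit 31) 
(.nd (nat_lit 9) (.nd (nat_lit 8) 
(.lf (nat_lit 805961800) (dlOf (nat_lit 2) (nat_lit 0x16c0ac005401300008028201480))) 
(.lf (nat_lit 805444936) (dlOf (nat_lit 2) (nat_lit 0x302b0019a808005800800080020052000811c903)))) 
(.nd (nat_lit 7) 
(.lf (nat_lit 4563536712) (dlOf (nat_lit 2) (nat_lit 0xf0148003900800c8008000400200140008095c03))) 
(.lf (nat_lit 4563536840) (dlOf (nat_lit 3) (nat_lit 0x4c0520001d0200060290000c018095d80))))) 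
(.nd (nat_lit 27) (.nd (nat_lit 7) 
(.lf (nat_lit 2416050248) (dlOf (nat_lit 1) (nat_lit 0x9c0008020881))) 
(.lf (nat_lit 6711017672) (dlOf (nat_lit 1) (nat_lit 0xc004000e0018031b82)))) (.nd (nat_lit 9) 
(.lf (nat_lit 2550267976) (dlOf (nat_lit 1) (nat_lit 0x9c0008020881))) 
(.lf (nat_lit 2617377352) (dlOf (nat_lit 5) (nat_lit 0x4a02c00180000000901000480b001040540002204002602c000100100050158000600800400080114002008c00080a1583)))))))) 
(.nd (nat_lit 8) (.nd (nat_lit 19) (.nd (nat_lit 10) (.nd (nat_lit 6) (.nd (nat_lit 7) 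
(.nd (nat_lit 21) 
(.lf (nat_lit 21168136) (dlOf (nat_lit 1) (nat_lit 0x40008006400200040008a10483))) 
(.lf (nat_lit 10682376) (dlOf (nat_lit 1) (nat_lit 0x38008001400200020008610003)))) 
(.lf (nat_lit 9633928) (dlOf (nat_lit 2) (nat_lit 0x7168000a0968002447c000350600040028570e01)))) 
(.nd (nat_lit 7) 
(.lf (nat_lit 24313928) (dlOf (nat_lit 1) (nat_lit 0x1e8008000400200420008b90e03))) 
(.lf (nat_lit 20124360) (dlOf (nat_lit 1) (nat_lit 0x80080004002000200089d8c83))))) 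
(.nd (nat_lit 27) (.nd (nat_lit 7) 
(.lf (nat_lit 6711084104) (dlOf (nat_lit 1) (nat_lit 0x400400020008092882))) 
(.lf (nat_lit 6509759688) (dlOf (nat_lit 1) (nat_lit 0x400400020008146382)))) (.nd (nat_lit 28) 
(.lf (nat_lit 2885878856) (dlOf (nat_lit 1) (nat_lit 0x8008000400200020008142883))) 
(.lf (nat_lit 4764927048) (dlOf (nat_lit 1) (nat_lit 0x400400020008092882)))))) (.nd (nat_lit 6) 
(.nd (nat_lit 21) (.nd (nat_lit 26) 
(.lf (nat_lit 2819293192) (dlOf (nat_lit 2) (nat_lit 0x901a0015e80800a0008005c002001c0008220283))) 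
(.lf (nat_lit 4362797064) (dlOf (nat_lit 1) (nat_lit 0x9800200360008100002)))) 
(.lf (nat_lit 15400968) (dlOf (nat_lit 1) (nat_lit 0x400287f0001)))) (.nd (nat_lit 21) 
(.nd (nat_lit 9) (.lf (nat_lit 10158152) (dlOf (nat_lit 1) (nat_lit 0x4004000200085b0882))) 
(.lf (nat_lit 2753233480) (dlOf (nat_lit 8) (nat_lit 0x8a0ff803e85740004c0802143fe00e015d004a0ae0000941804187fc01bc2ba0002404003c1ff0001181000a0ff8000780800207fc0002e0401ec3fe00041fe006f0ae80000018025000802e0002006a0008091103)))) 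
(.nd (nat_lit 10) (.lf (nat_lit 32180808) (dlOf (nat_lit 1) (nat_lit 0x8008000400200020008ef5203))) 
(.lf (nat_lit 8066632) (dlOf (nat_lit 1) (nat_lit 0x800400020018519c02))))))) (.nd (nat_lit 7) 
(.nd (nat_lit 10) (.nd (nat_lit 11) (.nd (nat_lit 6) 
(.lf (nat_lit 51052808) (dlOf (nat_lit 1) (nat_lit 0x2c00194f3a01))) 
(.lf (nat_lit 7012680) (dlOf (nat_lit 1) (nat_lit 0x200184b0781)))) (.nd (nat_lit 19) 
(.lf (nat_lit 2885880072) (dlOf (nat_lit 1) (nat_lit 0xef8008060000202080008144b83))) 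
(.lf (nat_lit 8063240) (dlOf (nat_lit 2) (nat_lit 0x24af2000e30200020028514b81))))) 
(.nd (nat_lit 6) (.nd (nat_lit 23) 
(.lf (nat_lit 2684556552) (dlOf (nat_lit 1) (nat_lit 0x80080004002000200080a9603))) 
(.lf (nat_lit 8590600) (dlOf (nat_lit 1) (nat_lit 0x1c0008001800200300008519603)))) 
(.lf (nat_lit 2885879624) (dlOf (nat_lit 1) (nat_lit 0x20018143e81))))) (.nd (nat_lit 20) 
(.nd (nat_lit 26) (.nd (nat_lit 23) 
(.lf (nat_lit 4697817480) (dlOf (nat_lit 1) (nat_lit 0x400400020008091002))) 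
(.lf (nat_lit 8585608) (dlOf (nat_lit 1) (nat_lit 0x8008000400200020008511003)))) (.nd (nat_lit 28) 
(.lf (nat_lit 5033361800) (dlOf (nat_lit 1) (nat_lit 0x20008091001))) 
(.lf (nat_lit 5301797256) (dlOf (nat_lit 1) (nat_lit 0x8008000400200020008091003))))) 
(.nd (nat_lit 6) (.nd (nat_lit 19) 
(.lf (nat_lit 2754808200) (dlOf (nat_lit 1) (nat_lit 0x80080088002000800080f4e83))) 
(.lf (nat_lit 47909256) (dlOf (nat_lit 1) (nat_lit 0x98008002800200020009404e83)))) 
(.lf (nat_lit 2753233352) (dlOf (nat_lit 3) (nat_lit 0x103f4000140201041fa00009818090980)))))))) 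
(.nd (nat_lit 29) (.nd (nat_lit 6) (.nd (nat_lit 16) (.nd (nat_lit 28) (.nd (nat_lit 7) 
(.lf (nat_lit 1140981768) (dlOf (nat_lit 1) (nat_lit 0x1c002001c0008040002))) (.nd (nat_lit 9) 
(.lf (nat_lit 3221363848) (dlOf (nat_lit 2) (nat_lit 0x2a0230028d40801b00080018002002c000811c203))) 
(.lf (nat_lit 3355580040) (dlOf (nat_lit 2) (nat_lit 0x980c000000040004004000200080a9e02))))) 
(.nd (nat_lit 19) (.nd (nat_lit 21) 
(.lf (nat_lit 3624009736) (dlOf (nat_lit 1) (nat_lit 0x9c00080a0001))) 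
(.lf (nat_lit 1344405512) (dlOf (nat_lit 2) (nat_lit 0x111d800364080030008000400200380008760583)))) 
(.lf (nat_lit 1344929800) (dlOf (nat_lit 1) (nat_lit 0x80080004002000200089a0003))))) 
(.nd (nat_lit 26) (.nd (nat_lit 7) (.nd (nat_lit 8) (.nd (nat_lit 9) 
(.lf (nat_lit 1476591624) (dlOf (nat_lit 1) (nat_lit 0x280080054002000c0008090003))) 
(.lf (nat_lit 3491430920) (dlOf (nat_lit 2) (nat_lit 0xe1eb000a1818090d80)))) 
(.lf (nat_lit 5637342472) (dlOf (nat_lit 1) (nat_lit 0x10008000c002000600080d2f83)))) 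
(.nd (nat_lit 8) 
(.lf (nat_lit 3493005448) (dlOf (nat_lit 1) (nat_lit 0x300080010002000600080f4803))) 
(.lf (nat_lit 3490385288) (dlOf (nat_lit 1) (nat_lit 0x6800400b80008006c82))))) (.nd (nat_lit 27) 
(.nd (nat_lit 28) (.lf (nat_lit 3288530952) (dlOf (nat_lit 2) (nat_lit 0x62032001a8818070500))) 
(.lf (nat_lit 5704450056) (dlOf (nat_lit 4) (nat_lit 0x3ac03000cbf0200200180065e8100ef00c0032f008011000800d400200400008080003)))) 
(.lf (nat_lit 3691184136) (dlOf (nat_lit 1) (nat_lit 0xc400200460008090002)))))) (.nd (nat_lit 19) 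
(.nd (nat_lit 8) (.nd (nat_lit 7) (.nd (nat_lit 10) 
(.lf (nat_lit 3556970568) (dlOf (nat_lit 1) (nat_lit 0x3c00400040008127d82))) 
(.lf (nat_lit 5637276744) (dlOf (nat_lit 1) (nat_lit 0x4004000200080d2882)))) (.nd (nat_lit 26) 
(.lf (nat_lit 3624078536) (dlOf (nat_lit 2) (nat_lit 0x600000011818146380))) 
(.lf (nat_lit 1543703752) (dlOf (nat_lit 6) (nat_lit 0xc01f000c0098000d01000a00b800a005a005200c00019830036017000e80a0001403e0034013002c006000e801c007c000000320e000802e0001801000700980008c0801680080020002001a0008146383))))) 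
(.nd (nat_lit 12) (.nd (nat_lit 7) 
(.lf (nat_lit 3221359944) (dlOf (nat_lit 1) (nat_lit 0xe0008116981))) 
(.lf (nat_lit 3221359048) (dlOf (nat_lit 2) (nat_lit 0x7007005cf8080050008001800200020008114e83)))) 
(.nd (nat_lit 11) (.lf (nat_lit 1342313800) (dlOf (nat_lit 1) (nat_lit 0x50004001a0008009902))) 
(.lf (nat_lit 3221364040) (dlOf (nat_lit 1) (nat_lit 0xe000811c901)))))) (.nd (nat_lit 16) 
(.nd (nat_lit 31) (.nd (nat_lit 26) 
(.lf (nat_lit 5772017736) (dlOf (nat_lit 1) (nat_lit 0x2a0018040481))) 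
(.lf (nat_lit 1409941576) (dlOf (nat_lit 1) (nat_lit 0x80080008002001200080a0e03)))) 
(.nd (nat_lit 21) 
(.lf (nat_lit 3221880904) (dlOf (nat_lit 3) (nat_lit 0x180e00004e04000403c0001002001a00081a1481))) 
(.lf (nat_lit 3492413512) (dlOf (nat_lit 3) (nat_lit 0x80420001a0100060340001818c0006408000c002000800080c1482))))) 
(.nd (nat_lit 7) (.nd (nat_lit 9) 
(.lf (nat_lit 1410007112) (dlOf (nat_lit 3) (nat_lit 0x1880a40003402000a052000190180c1480))) 
(.lf (nat_lit 3491430984) (dlOf (nat_lit 8) (nat_lit 0x8a0f6803e85600004c0802143da00e0158004a0ab8000941804187b401bc2b00002404003c1ed0001181000a0f68000780800207b40002e0401ec3da00041ec006f0ac00000018025000802e0002006a0008091103)))) 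
(.lf (nat_lit 3491430856) (dlOf (nat_lit 3) (nat_lit 0x103d0000140201041e800009818090980))))))) 
(.nd (nat_lit 28) (.nd (nat_lit 26) (.nd (nat_lit 6) (.nd (nat_lit 31) (.nd (nat_lit 11) 
(.lf (nat_lit 6039928840) (dlOf (nat_lit 1) (nat_lit 0x80c00401520008050002))) 
(.lf (nat_lit 5905778696) (dlOf (nat_lit 1) (nat_lit 0x400200020008144702)))) (.nd (nat_lit 8) 
(.lf (nat_lit 3892969480) (dlOf (nat_lit 3) (nat_lit 0x4014009c101000200a004e040800300080024002000400082c0003))) 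
(.lf (nat_lit 3892445448) (dlOf (nat_lit 1) (nat_lit 0x20018113581))))) (.nd (nat_lit 7) 
(.nd (nat_lit 9) (.lf (nat_lit 3758298440) (dlOf (nat_lit 2) (nat_lit 0x380390051a818129900))) 
(.lf (nat_lit 5905712968) (dlOf (nat_lit 1) (nat_lit 0x20028143e81)))) 
(.lf (nat_lit 3758227912) (dlOf (nat_lit 1) (nat_lit 0x60028107081))))) (.nd (nat_lit 11) 
(.nd (nat_lit 10) (.nd (nat_lit 6) 
(.lf (nat_lit 6107037832) (dlOf (nat_lit 1) (nat_lit 0xc00400020008030e02))) 
(.lf (nat_lit 1678377032) (dlOf (nat_lit 26) (nat_lit 0x66c014000fd0200bc04e01be0050003e4100b5013805a806e033800a0007703003b027005180dc0004014000ed0600a804e001e01b8003b0100b7813805bc06e033c00a000740300130050002fc0800280280015e0402e409c0030037000508200ec027000b00dc001400805d409c02d60370004f02009d027000a80dc0013a0805c409c02d60370004e02016e02700b580dc02500140009a0602a404e014d01b8002601006481380012e0402b009c004c0370004b02006d01b807c80280012a08056809c027e0370004a0200ae027001800dc0012608049009c003e0370004882018402700ba00dc001060800240aa000604e0004082000202a80b58138059c06e036200a000a0030001c828195815802400a6013e032032a009800000200918008036c00205860008201883))))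 
(.nd (nat_lit 27) (.lf (nat_lit 1677853768) (dlOf (nat_lit 1) (nat_lit 0x15400200520008112882))) 
(.lf (nat_lit 3959555144) (dlOf (nat_lit 1) (nat_lit 0x140018112881))))) (.nd (nat_lit 7) 
(.nd (nat_lit 27) 
(.lf (nat_lit 1677858824) (dlOf (nat_lit 1) (nat_lit 0x60008000c0020054000811a603))) 
(.lf (nat_lit 3959560200) (dlOf (nat_lit 3) (nat_lit 0x2046004f98100210230027c4080280008000c002006c000811a603)))) 
(.nd (nat_lit 8) (.lf (nat_lit 1677920392) (dlOf (nat_lit 1) (nat_lit 0x20018114801))) 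
(.lf (nat_lit 3825339784) (dlOf (nat_lit 2) (nat_lit 0x280140001b02000c0028146c81))))))) 
(.nd (nat_lit 27) (.nd (nat_lit 6) (.nd (nat_lit 7) (.nd (nat_lit 16) 
(.lf (nat_lit 4096393224) (dlOf (nat_lit 1) (nat_lit 0x8008000400200020008100003))) 
(.lf (nat_lit 4026728456) (dlOf (nat_lit 2) (nat_lit 0x6203200168818070500)))) (.nd (nat_lit 8) 
(.lf (nat_lit 4095870600) (dlOf (nat_lit 1) (nat_lit 0x4002000200080e3a02))) 
(.lf (nat_lit 4095870344) (dlOf (nat_lit 1) (nat_lit 0x200280e3601))))) (.nd (nat_lit 7) 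
(.nd (nat_lit 10) (.lf (nat_lit 1881342024) (dlOf (nat_lit 2) (nat_lit 0x406500020018ea0600))) 
(.lf (nat_lit 4093772872) (dlOf (nat_lit 1) (nat_lit 0x400400020008002882)))) 
(.lf (nat_lit 6241323976) (dlOf (nat_lit 2) (nat_lit 0x1200e8000b40800380080020002001600080d5d83))))) 
(.nd (nat_lit 16) (.nd (nat_lit 6) (.nd (nat_lit 19) 
(.lf (nat_lit 2013397000) (dlOf (nat_lit 1) (nat_lit 0x1c002001c0008040002))) 
(.lf (nat_lit 4228513800) (dlOf (nat_lit 1) (nat_lit 0x1800080e0581)))) (.nd (nat_lit 10) 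
(.lf (nat_lit 2080505928) (dlOf (nat_lit 1) (nat_lit 0x2400400060008090002))) 
(.lf (nat_lit 6377571400) (dlOf (nat_lit 1) (nat_lit 0x200280e2881))))) (.nd (nat_lit 7) 
(.nd (nat_lit 19) 
(.lf (nat_lit 6308429832) (dlOf (nat_lit 4) (nat_lit 0x3ac030007150200200180038a0100ef00c001c4c08011000800d400200400008080003))) 
(.lf (nat_lit 4228579336) (dlOf (nat_lit 1) (nat_lit 0x9800200360008100002)))) 
(.lf (nat_lit 2013464200) (dlOf (nat_lit 3) (nat_lit 0x24026000170100f20130000b00800400080010002000c0008093a03))))))))) 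
(.nd (nat_lit 19) (.nd (nat_lit 26) (.nd (nat_lit 22) (.nd (nat_lit 30) (.nd (nat_lit 6) 
(.nd (nat_lit 20) (.nd (nat_lit 32) (.nd (nat_lit 21) 
(.lf (nat_lit 805699592) (dlOf (nat_lit 2) (nat_lit 0xc000014950200080008190001))) 
(.lf (nat_lit 44433416) (dlOf (nat_lit 1) (nat_lit 0x60019310001)))) (.nd (nat_lit 27) 
(.lf (nat_lit 4563795976) (dlOf (nat_lit 2) (nat_lit 0x40198055240800a80080160002006400080e0003))) 
(.lf (nat_lit 4698013704) (dlOf (nat_lit 2) (nat_lit 0x4019805aec0800a80080160002006400080e0003))))) 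
(.nd (nat_lit 7) (.nd (nat_lit 23) 
(.lf (nat_lit 37093384) (dlOf (nat_lit 1) (nat_lit 0x60029090001))) 
(.lf (nat_lit 62259208) (dlOf (nat_lit 1) (nat_lit 0x20019990001)))) 
(.lf (nat_lit 11927688) (dlOf (nat_lit 1) (nat_lit 0x80080128002002a00086c0103))))) 
(.nd (nat_lit 27) (.nd (nat_lit 8) 
(.lf (nat_lit 2416312392) (dlOf (nat_lit 1) (nat_lit 0x4004000200180d0c82))) 
(.lf (nat_lit 8787272) (dlOf (nat_lit 1) (nat_lit 0x100028519901)))) (.nd (nat_lit 9) 
(.nd (nat_lit 16) (.lf (nat_lit 2550530120) (dlOf (nat_lit 1) (nat_lit 0x4004000200180d0c82))) 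
(.lf (nat_lit 2819031112) (dlOf (nat_lit 1) (nat_lit 0xc0018150681)))) 
(.lf (nat_lit 134611528) (dlOf (nat_lit 3) (nat_lit 0x36025002481180004c080004094000240200080008091101)))))) 
(.nd (nat_lit 28) (.nd (nat_lit 6) (.nd (nat_lit 27) (.nd (nat_lit 29) 
(.lf (nat_lit 3221618696) (dlOf (nat_lit 1) (nat_lit 0x24004006c0018160002))) 
(.lf (nat_lit 1611005960) (dlOf (nat_lit 15) (nat_lit 0x100a400d700200c2052000101a00359c1003f019006540b2028605700b9029000080d006f005c025402a013b010005f806c06f400800d481400d60570060029000f00b80280054019a02000b100d8010001001a8c1c03c80b001e802d00ff001803340180370080013c404003c0a4009d30200f8052005c010003e806c013980c00140a4009cb020150052002d010001c806c0136a0c0070040004a01b004b3820003029000b808000a403600965060004052004b08100060290025780800380080060002009a00080b0003)))) 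
(.nd (nat_lit 16) 
(.lf (nat_lit 3355836424) (dlOf (nat_lit 2) (nat_lit 0x2e8064000c0310065a828120000))) 
(.lf (nat_lit 3892772872) (dlOf (nat_lit 1) (nat_lit 0x20028250281))))) (.nd (nat_lit 7) 
(.nd (nat_lit 32) 
(.lf (nat_lit 1611006024) (dlOf (nat_lit 2) (nat_lit 0x2d00a6000803500d10108008807400000100040004002600080b0602))) 
(.lf (nat_lit 5905973320) (dlOf (nat_lit 1) (nat_lit 0x800200100008170f02)))) 
(.lf (nat_lit 1208352968) (dlOf (nat_lit 1) (nat_lit 0xc004000200080c1b82))))) (.nd (nat_lit 20) 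
(.nd (nat_lit 7) (.nd (nat_lit 27) 
(.lf (nat_lit 5637603336) (dlOf (nat_lit 1) (nat_lit 0x160028120a01))) 
(.lf (nat_lit 3624337416) (dlOf (nat_lit 1) (nat_lit 0x98008004c002006a0008160003)))) 
(.lf (nat_lit 1476788360) (dlOf (nat_lit 2) (nat_lit 0xf0038006240800700080050002003c00081a0483)))) 
(.nd (nat_lit 8) (.nd (nat_lit 11) 
(.lf (nat_lit 1880489992) (dlOf (nat_lit 1) (nat_lit 0x80080004002000200089a0003))) 
(.lf (nat_lit 3493201928) (dlOf (nat_lit 3) (nat_lit 0x1401d0002a01000a00e80014408027000800e4002001000080f4703)))) 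
(.lf (nat_lit 3493201672) (dlOf (nat_lit 2) (nat_lit 0x40400000c0180f3b80))))))) (.nd (nat_lit 25) 
(.nd (nat_lit 21) (.nd (nat_lit 16) (.nd (nat_lit 20) 
(.lf (nat_lit 3494248456) (dlOf (nat_lit 1) (nat_lit 0xa00081e0001))) 
(.lf (nat_lit 30801928) (dlOf (nat_lit 1) (nat_lit 0x2800400060008e50582)))) (.nd (nat_lit 20) 
(.lf (nat_lit 13041672) (dlOf (nat_lit 1) (nat_lit 0xa800086f0001))) 
(.lf (nat_lit 22478856) (dlOf (nat_lit 1) (nat_lit 0x20018ae0481))))) (.nd (nat_lit 7) 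
(.nd (nat_lit 6) (.lf (nat_lit 15073288) (dlOf (nat_lit 1) (nat_lit 0x3000187b0281))) 
(.lf (nat_lit 23462216) (dlOf (nat_lit 2) (nat_lit 0x369200020018b80600)))) (.nd (nat_lit 16) 
(.lf (nat_lit 23462024) (dlOf (nat_lit 1) (nat_lit 0xc00200020008b80102))) 
(.lf (nat_lit 23527560) (dlOf (nat_lit 1) (nat_lit 0x800200020008b80102)))))) (.nd (nat_lit 16) 
(.nd (nat_lit 6) (.nd (nat_lit 10) (.nd (nat_lit 20) 
(.lf (nat_lit 54919176) (dlOf (nat_lit 1) (nat_lit 0x20029670001))) 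
(.lf (nat_lit 55967752) (dlOf (nat_lit 1) (nat_lit 0x20029700081)))) 
(.lf (nat_lit 38142984) (dlOf (nat_lit 1) (nat_lit 0xe0009132881)))) 
(.lf (nat_lit 54919240) (dlOf (nat_lit 1) (nat_lit 0x1e0009670601)))) (.nd (nat_lit 7) 
(.lf (nat_lit 58130952) (dlOf (nat_lit 1) (nat_lit 0x800297c7b01))) 
(.lf (nat_lit 54984840) (dlOf (nat_lit 3) (nat_lit 0xdc98c00144bc0001882003b2630000c00800f8008006000200060009680f03))))))) 
(.nd (nat_lit 28) (.nd (nat_lit 27) (.nd (nat_lit 6) (.nd (nat_lit 22) (.nd (nat_lit 29) 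
(.lf (nat_lit 4362469384) (dlOf (nat_lit 1) (nat_lit 0x80018090001))) 
(.lf (nat_lit 1678114824) (dlOf (nat_lit 2) (nat_lit 0xc000016070200080008190001)))) 
(.lf (nat_lit 2756050952) (dlOf (nat_lit 1) (nat_lit 0xa00081e0001)))) (.nd (nat_lit 21) 
(.nd (nat_lit 31) (.lf (nat_lit 4362469448) (dlOf (nat_lit 1) (nat_lit 0x80018090001))) 
(.lf (nat_lit 6509953096) (dlOf (nat_lit 1) (nat_lit 0x800200100008170f02)))) 
(.lf (nat_lit 2753953864) (dlOf (nat_lit 1) (nat_lit 0x1200180a0e81))))) (.nd (nat_lit 6) 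
(.nd (nat_lit 31) (.nd (nat_lit 9) 
(.lf (nat_lit 738590728) (dlOf (nat_lit 15) (nat_lit 0x1f80c8032a059014302b805c81480004068037802e012a015009d808002fc036037a004003e68a006b02b80300148007805c014002a00cd0100058806c0080008007cb0e0008052003e3810061029000080d000f7c0803c80b001e802d00ff001801d54180370080008a804003c0a40043c0200f8052005c010003e806c0086a0c00140a400434020150052002d010001c806c008400c0070040004a01b001e9020003029000b808000a4036003d0060004052001e5810006029000f240800380080060002009a00080b0003))) 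
(.lf (nat_lit 201720328) (dlOf (nat_lit 2) (nat_lit 0x20410000e018090d80)))) (.nd (nat_lit 16) 
(.lf (nat_lit 3959816200) (dlOf (nat_lit 1) (nat_lit 0x24004006c0018160002))) 
(.lf (nat_lit 2886139912) (dlOf (nat_lit 1) (nat_lit 0x98008004c002006a0008160003))))) 
(.nd (nat_lit 9) 
(.lf (nat_lit 738590792) (dlOf (nat_lit 2) (nat_lit 0x2d00a6000803500d10108008807400000100040004002600080b0602))) 
(.lf (nat_lit 201720392) (dlOf (nat_lit 3) (nat_lit 0x36025002481180004c080004094000240200080008091101)))))) 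
(.nd (nat_lit 16) (.nd (nat_lit 6) (.nd (nat_lit 7) (.nd (nat_lit 8) 
(.lf (nat_lit 4228251656) (dlOf (nat_lit 1) (nat_lit 0x80018090001))) 
(.lf (nat_lit 1009124616) (dlOf (nat_lit 1) (nat_lit 0x17400400480009082f82)))) 
(.lf (nat_lit 4228252040) (dlOf (nat_lit 1) (nat_lit 0x20008090781)))) (.nd (nat_lit 7) 
(.lf (nat_lit 4228251720) (dlOf (nat_lit 1) (nat_lit 0x80018090001))) 
(.lf (nat_lit 1009124552) (dlOf (nat_lit 9) (nat_lit 0x4e0e30030071001501d8000500c003c1c400340760001302000c071800081d80003c08019c1c600020e2003e03b0000701801081d8000360400501c600120e2001003b00000c1800701d8000020400641c6002c0e2000806c802601d8000001001b800400300009082d02))))) 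
(.nd (nat_lit 20) (.nd (nat_lit 6) (.nd (nat_lit 29) 
(.lf (nat_lit 3557228552) (dlOf (nat_lit 1) (nat_lit 0x1000400020018170002))) 
(.lf (nat_lit 6241583112) (dlOf (nat_lit 1) (nat_lit 0x160028120a01)))) 
(.lf (nat_lit 3557228616) (dlOf (nat_lit 1) (nat_lit 0x400400120018170682)))) (.nd (nat_lit 7) 
(.lf (nat_lit 471269384) (dlOf (nat_lit 1) (nat_lit 0x200282e0001))) (.nd (nat_lit 30) 
(.lf (nat_lit 1008142728) (dlOf (nat_lit 1) (nat_lit 0x140028a44e81))) 
(.lf (nat_lit 6376851848) (dlOf (nat_lit 1) (nat_lit 0x400400020008094e82))))))))) (.nd (nat_lit 6) 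
(.nd (nat_lit 16) (.nd (nat_lit 24) (.nd (nat_lit 7) (.nd (nat_lit 20) (.nd (nat_lit 26) 
(.lf (nat_lit 2819489800) (dlOf (nat_lit 2) (nat_lit 0x360210018fc0803380080060002000800082b0283))) 
(.lf (nat_lit 3557687304) (dlOf (nat_lit 2) (nat_lit 0x36022802f500803380080060002000800082b0283)))) 
(.nd (nat_lit 8) (.lf (nat_lit 10354696) (dlOf (nat_lit 1) (nat_lit 0x180080004002000200085d0483))) 
(.lf (nat_lit 46009096) (dlOf (nat_lit 1) (nat_lit 0x6c0029385b01))))) (.nd (nat_lit 8) 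
(.lf (nat_lit 4095608456) (dlOf (nat_lit 1) (nat_lit 0x200180e3a01))) (.nd (nat_lit 10) 
(.lf (nat_lit 8257928) (dlOf (nat_lit 2) (nat_lit 0x173a00013804005c00200060008511002))) 
(.lf (nat_lit 2754481544) (dlOf (nat_lit 1) (nat_lit 0x200080f6c81)))))) (.nd (nat_lit 9) 
(.nd (nat_lit 10) (.nd (nat_lit 20) 
(.lf (nat_lit 59637768) (dlOf (nat_lit 1) (nat_lit 0xf000200220009820002))) 
(.lf (nat_lit 25034760) (dlOf (nat_lit 1) (nat_lit 0x8008001c00200020008be0803)))) 
(.lf (nat_lit 19794952) (dlOf (nat_lit 1) (nat_lit 0x100080008002000600089d5f83)))) 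
(.nd (nat_lit 8) (.nd (nat_lit 7) 
(.lf (nat_lit 19792392) (dlOf (nat_lit 1) (nat_lit 0x80080038002000800089d1483))) 
(.lf (nat_lit 19796616) (dlOf (nat_lit 1) (nat_lit 0xe00089d8b81)))) (.nd (nat_lit 11) 
(.lf (nat_lit 19796744) (dlOf (nat_lit 1) (nat_lit 0x400189d8f81))) 
(.lf (nat_lit 19794696) (dlOf (nat_lit 2) (nat_lit 0x54e6000170189d5b00))))))) (.nd (nat_lit 10) 
(.nd (nat_lit 28) (.nd (nat_lit 9) (.nd (nat_lit 21) 
(.lf (nat_lit 13565960) (dlOf (nat_lit 1) (nat_lit 0x8008000400200020008730483))) 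
(.lf (nat_lit 53411848) (dlOf (nat_lit 1) (nat_lit 0x4002000400095c0002)))) 
(.lf (nat_lit 19862024) (dlOf (nat_lit 2) (nat_lit 0x594e0049b02000c00089d8681)))) (.nd (nat_lit 7) 
(.nd (nat_lit 11) (.lf (nat_lit 473890824) (dlOf (nat_lit 1) (nat_lit 0xc8004002a0008fc0002))) 
(.lf (nat_lit 3492743176) (dlOf (nat_lit 3) (nat_lit 0x201d0002a01000100e8001440800280080018002000a00080f4703)))) 
(.lf (nat_lit 5772345736) (dlOf (nat_lit 2) (nat_lit 0x509f000284c0002c008000c004000c0018091002))))) 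
(.nd (nat_lit 7) (.nd (nat_lit 21) 
(.lf (nat_lit 5772346376) (dlOf (nat_lit 1) (nat_lit 0x34800200140008092882))) 
(.lf (nat_lit 3492742152) (dlOf (nat_lit 1) (nat_lit 0x200080f2881)))) (.nd (nat_lit 8) 
(.lf (nat_lit 19860616) (dlOf (nat_lit 1) (nat_lit 0xa800089d6181))) (.nd (nat_lit 9) 
(.lf (nat_lit 61801864) (dlOf (nat_lit 1) (nat_lit 0x240029923601))) 
(.lf (nat_lit 3492743048) (dlOf (nat_lit 1) (nat_lit 0x200180f4181)))))))) (.nd (nat_lit 7) 
(.nd (nat_lit 28) (.nd (nat_lit 8) (.nd (nat_lit 9) (.nd (nat_lit 16) 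
(.lf (nat_lit 917576) (dlOf (nat_lit 2) (nat_lit 0x30f8800098080020008000c00200120008030f03))) 
(.lf (nat_lit 20906056) (dlOf (nat_lit 1) (nat_lit 0x400089f0601)))) 
(.lf (nat_lit 19796552) (dlOf (nat_lit 1) (nat_lit 0x4004000200089d8982)))) (.nd (nat_lit 16) 
(.lf (nat_lit 2755526984) (dlOf (nat_lit 2) (nat_lit 0x6814000080040004004000800081b0602))) 
(.lf (nat_lit 3080520) (dlOf (nat_lit 1) (nat_lit 0x15400200720008200602))))) (.nd (nat_lit 10) 
(.nd (nat_lit 8) (.nd (nat_lit 16) 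
(.lf (nat_lit 4095606856) (dlOf (nat_lit 1) (nat_lit 0x200180e0001))) 
(.lf (nat_lit 473890888) (dlOf (nat_lit 3) (nat_lit 0x2c0a60028035c002b4080390294000bd0200020018fc0601)))) 
(.lf (nat_lit 3493724488) (dlOf (nat_lit 2) (nat_lit 0x681400008e040004004000800081b0602)))) 
(.nd (nat_lit 16) (.lf (nat_lit 4095607880) (dlOf (nat_lit 1) (nat_lit 0x4004000200080e2882))) 
(.lf (nat_lit 3492742216) (dlOf (nat_lit 1) (nat_lit 0x80080004002000200080f2883)))))) 
(.nd (nat_lit 9) (.nd (nat_lit 8) (.nd (nat_lit 10) 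
(.lf (nat_lit 6377308360) (dlOf (nat_lit 1) (nat_lit 0x8002000200080c1b82))) 
(.lf (nat_lit 51250376) (dlOf (nat_lit 1) (nat_lit 0x40029512d01)))) (.nd (nat_lit 16) 
(.lf (nat_lit 19794376) (dlOf (nat_lit 1) (nat_lit 0x380080014002000200089d4e83))) 
(.nd (nat_lit 21) 
(.lf (nat_lit 6376327624) (dlOf (nat_lit 1) (nat_lit 0x28008007c002002c0008094e83))) 
(.lf (nat_lit 19859912) (dlOf (nat_lit 1) (nat_lit 0x28002001a00089d4e82)))))) (.nd (nat_lit 8) 
(.nd (nat_lit 10) (.lf (nat_lit 19796680) (dlOf (nat_lit 1) (nat_lit 0x80080004002000200089d8c83))) 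
(.lf (nat_lit 2754481864) (dlOf (nat_lit 1) (nat_lit 0x200080f7301)))) (.nd (nat_lit 16) 
(.nd (nat_lit 20) (.lf (nat_lit 472777672) (dlOf (nat_lit 1) (nat_lit 0xc00400060008b02882))) 
(.lf (nat_lit 4095607752) (dlOf (nat_lit 1) (nat_lit 0x4004000200080e2882)))) 
(.lf (nat_lit 3492742088) (dlOf (nat_lit 1) (nat_lit 0x400180f2881)))))))))) (.nd (nat_lit 18) 
(.nd (nat_lit 16) (.nd (nat_lit 19) (.nd (nat_lit 26) (.nd (nat_lit 7) (.nd (nat_lit 29) 
(.nd (nat_lit 20) (.nd (nat_lit 11) 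
(.lf (nat_lit 12722184) (dlOf (nat_lit 1) (nat_lit 0x200080008002000600086e0003))) 
(.lf (nat_lit 8529928) (dlOf (nat_lit 1) (nat_lit 0xc00400020008514702)))) (.nd (nat_lit 6) 
(.nd (nat_lit 10) (.lf (nat_lit 9576456) (dlOf (nat_lit 1) (nat_lit 0x60008000400200180008570003))) 
(.lf (nat_lit 38937608) (dlOf (nat_lit 1) (nat_lit 0x20019192881)))) 
(.lf (nat_lit 3285320) (dlOf (nat_lit 1) (nat_lit 0x20028200601))))) (.nd (nat_lit 6) 
(.nd (nat_lit 27) (.lf (nat_lit 2952929288) (dlOf (nat_lit 1) (nat_lit 0xa0008030001))) 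
(.nd (nat_lit 31) (.lf (nat_lit 2013405192) (dlOf (nat_lit 2) (nat_lit 0x4005007f5818050000))) 
(.lf (nat_lit 4160888840) (dlOf (nat_lit 1) (nat_lit 0xc00400040008060002))))) (.nd (nat_lit 8) 
(.lf (nat_lit 4026671176) (dlOf (nat_lit 2) (nat_lit 0xc04000ac00b00019028020880))) 
(.lf (nat_lit 3892453704) (dlOf (nat_lit 1) (nat_lit 0x20018128701)))))) (.nd (nat_lit 8) 
(.nd (nat_lit 10) (.nd (nat_lit 20) 
(.lf (nat_lit 44179592) (dlOf (nat_lit 2) (nat_lit 0x1cc7c0003202001800292d0e01))) 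
(.nd (nat_lit 21) 
(.lf (nat_lit 9576584) (dlOf (nat_lit 3) (nat_lit 0x109680006a040070ca00004643001c27d800993780006410000c00400040008570e02))) 
(.lf (nat_lit 3285128) (dlOf (nat_lit 1) (nat_lit 0x800200020008200102))))) (.nd (nat_lit 9) 
(.nd (nat_lit 11) (.lf (nat_lit 2818712712) (dlOf (nat_lit 1) (nat_lit 0x4002001800080d2b02))) 
(.lf (nat_lit 3221372040) (dlOf (nat_lit 1) (nat_lit 0x8000811c201)))) 
(.lf (nat_lit 20067976) (dlOf (nat_lit 2) (nat_lit 0xbde20001e0080010008000c002000400089d9e03))))) 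
(.nd (nat_lit 6) (.nd (nat_lit 10) (.nd (nat_lit 23) 
(.lf (nat_lit 4697760136) (dlOf (nat_lit 2) (nat_lit 0x10015800534080030008000400200040008091003))) 
(.lf (nat_lit 8528264) (dlOf (nat_lit 1) (nat_lit 0x400400040008511002)))) 
(.lf (nat_lit 805453192) (dlOf (nat_lit 1) (nat_lit 0x780080054002000c000811c903)))) 
(.nd (nat_lit 9) 
(.lf (nat_lit 3221367240) (dlOf (nat_lit 2) (nat_lit 0xd001c0173e0200020018114e81))) 
(.lf (nat_lit 4563545032) (dlOf (nat_lit 3) (nat_lit 0x200a40003a04000c0520001b0200020028095d81))))))) 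
(.nd (nat_lit 6) (.nd (nat_lit 27) (.nd (nat_lit 21) (.nd (nat_lit 29) 
(.lf (nat_lit 1140989960) (dlOf (nat_lit 2) (nat_lit 0x40050083c018050000))) 
(.lf (nat_lit 604119048) (dlOf (nat_lit 1) (nat_lit 0x20008030001)))) 
(.lf (nat_lit 69345288) (dlOf (nat_lit 1) (nat_lit 0x400400020008940002)))) (.nd (nat_lit 8) 
(.nd (nat_lit 30) (.lf (nat_lit 2348949512) (dlOf (nat_lit 1) (nat_lit 0x6e0008050001))) 
(.lf (nat_lit 3422691336) (dlOf (nat_lit 3) (nat_lit 0x7019801ccc0800980cc00e6404000800200040008060002)))) 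
(.lf (nat_lit 469903112) (dlOf (nat_lit 1) (nat_lit 0x580008003b81))))) (.nd (nat_lit 10) 
(.nd (nat_lit 9) (.nd (nat_lit 28) 
(.lf (nat_lit 3288473672) (dlOf (nat_lit 2) (nat_lit 0xc04000ac00b00019028020880))) 
(.lf (nat_lit 4630650952) (dlOf (nat_lit 1) (nat_lit 0x20028040481)))) (.nd (nat_lit 8) 
(.lf (nat_lit 2617385544) (dlOf (nat_lit 5) (nat_lit 0xb0160001000000048080024062000602c002a01500020028000441000080560001602000203100020158000501003a800802a000200d200080a1583))) 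
(.lf (nat_lit 6241266504) (dlOf (nat_lit 1) (nat_lit 0x4000280d5c01))))) (.nd (nat_lit 7) 
(.nd (nat_lit 11) 
(.lf (nat_lit 3959563336) (dlOf (nat_lit 3) (nat_lit 0x330070057740800980380038000015d10400020018112881))) 
(.lf (nat_lit 1812081736) (dlOf (nat_lit 1) (nat_lit 0x17000200020008146082)))) 
(.lf (nat_lit 1409428680) (dlOf (nat_lit 2) (nat_lit 0xe00000019018006380))))))) (.nd (nat_lit 6) 
(.nd (nat_lit 21) (.nd (nat_lit 27) (.nd (nat_lit 8) (.nd (nat_lit 22) 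
(.lf (nat_lit 67772424) (dlOf (nat_lit 1) (nat_lit 0x4e00182e0481))) 
(.lf (nat_lit 13246472) (dlOf (nat_lit 1) (nat_lit 0x2000200460008710582)))) 
(.lf (nat_lit 50995464) (dlOf (nat_lit 1) (nat_lit 0x200194e7c01)))) (.nd (nat_lit 26) 
(.nd (nat_lit 29) 
(.lf (nat_lit 134881288) (dlOf (nat_lit 2) (nat_lit 0x80230001f00801180080040002004e00080d0483))) 
(.lf (nat_lit 2819235848) (dlOf (nat_lit 1) (nat_lit 0x400200020008200002)))) 
(.lf (nat_lit 201990152) (dlOf (nat_lit 2) (nat_lit 0x80230001f00801180080040002004e00080d0483))))) 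
(.nd (nat_lit 20) (.nd (nat_lit 26) (.nd (nat_lit 8) (.nd (nat_lit 31) 
(.lf (nat_lit 1344937992) (dlOf (nat_lit 1) (nat_lit 0x18008000c002000200089a0003))) 
(.lf (nat_lit 3492421640) (dlOf (nat_lit 1) (nat_lit 0xa00080038002001200080d0483)))) 
(.lf (nat_lit 36316424) (dlOf (nat_lit 1) (nat_lit 0x20019072f81)))) (.nd (nat_lit 27) 
(.lf (nat_lit 2754224136) (dlOf (nat_lit 1) (nat_lit 0xa00080038002001200080d0483))) 
(.lf (nat_lit 472522760) (dlOf (nat_lit 1) (nat_lit 0x18008000c002001600089b0083))))) 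
(.nd (nat_lit 7) (.nd (nat_lit 22) 
(.lf (nat_lit 45752328) (dlOf (nat_lit 1) (nat_lit 0x8008000400200020009360003))) 
(.lf (nat_lit 24780808) (dlOf (nat_lit 1) (nat_lit 0x400400020018bb0002)))) 
(.lf (nat_lit 8003976) (dlOf (nat_lit 1) (nat_lit 0x400200020008511002)))))) (.nd (nat_lit 20) 
(.nd (nat_lit 29) (.nd (nat_lit 10) (.nd (nat_lit 9) (.nd (nat_lit 11) 
(.lf (nat_lit 1409949768) (dlOf (nat_lit 15) (nat_lit 0x1815c0214098000400400fa05f005f02c800380b4001004e0002408026005f0001181006b02f802a0164000440811640be09ea059000100200df02f806801640003e0801440be02820590000f02000202c800060080398164000200404d40b20000f0201e005f00d002c803d012c01080600000d08021205f014802c802f012c000160c02800b20000a02009c05f010a02c80000010057800801b0002007600080a0e03))) 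
(.lf (nat_lit 9058376) (dlOf (nat_lit 1) (nat_lit 0x800800040020002000851a683)))) 
(.lf (nat_lit 23732808) (dlOf (nat_lit 1) (nat_lit 0x400200020008b81102)))) (.nd (nat_lit 7) 
(.lf (nat_lit 669000) (dlOf (nat_lit 1) (nat_lit 0x80008009901))) 
(.lf (nat_lit 55190728) (dlOf (nat_lit 1) (nat_lit 0x4002000200096d2d02))))) (.nd (nat_lit 26) 
(.nd (nat_lit 28) 
(.lf (nat_lit 537534536) (dlOf (nat_lit 1) (nat_lit 0x100080024002001c00080a0e83))) 
(.lf (nat_lit 805969992) (dlOf (nat_lit 2) (nat_lit 0xe05600008018201480)))) 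
(.lf (nat_lit 1678385224) (dlOf (nat_lit 2) (nat_lit 0x7015800000040044004002c0008201882))))) 
(.nd (nat_lit 7) (.nd (nat_lit 23) 
(.lf (nat_lit 5773074504) (dlOf (nat_lit 1) (nat_lit 0x3600180a1681))) (.nd (nat_lit 24) 
(.lf (nat_lit 10100808) (dlOf (nat_lit 1) (nat_lit 0x200285b0881))) 
(.lf (nat_lit 60432456) (dlOf (nat_lit 1) (nat_lit 0x1a0029860601))))) (.nd (nat_lit 8) 
(.lf (nat_lit 41559240) (dlOf (nat_lit 1) (nat_lit 0x20019242d01))) 
(.lf (nat_lit 49947592) (dlOf (nat_lit 1) (nat_lit 0x200194c2881)))))))) (.nd (nat_lit 8) 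
(.nd (nat_lit 6) (.nd (nat_lit 28) (.nd (nat_lit 11) (.nd (nat_lit 26) (.nd (nat_lit 7) 
(.lf (nat_lit 21176328) (dlOf (nat_lit 1) (nat_lit 0xc0018a10481))) 
(.lf (nat_lit 9642120) (dlOf (nat_lit 1) (nat_lit 0x1a0028570e01)))) (.nd (nat_lit 10) 
(.lf (nat_lit 4362805256) (dlOf (nat_lit 2) (nat_lit 0xa2c06601d8502001c0008100001))) 
(.lf (nat_lit 3959628808) (dlOf (nat_lit 1) (nat_lit 0x520028112881))))) (.nd (nat_lit 9) 
(.nd (nat_lit 10) (.lf (nat_lit 5905786888) (dlOf (nat_lit 1) (nat_lit 0x400200020008144702))) 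
(.lf (nat_lit 20130824) (dlOf (nat_lit 2) (nat_lit 0x2af9400000040024004002e00089d5f82)))) 
(.lf (nat_lit 8075784) (dlOf (nat_lit 1) (nat_lit 0x800800040020002000851b283))))) (.nd (nat_lit 7) 
(.nd (nat_lit 9) (.nd (nat_lit 11) 
(.lf (nat_lit 4228587528) (dlOf (nat_lit 2) (nat_lit 0xa2c06401a1902001c0008100001))) 
(.lf (nat_lit 3493013512) (dlOf (nat_lit 3) (nat_lit 0x20074000a80400400400004e02000400180f4701)))) 
(.lf (nat_lit 3556979208) (dlOf (nat_lit 1) (nat_lit 0xc00200040008128682)))) (.nd (nat_lit 11) 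
(.nd (nat_lit 12) (.lf (nat_lit 4095944328) (dlOf (nat_lit 1) (nat_lit 0x4002000200080e3a02))) 
(.lf (nat_lit 4160960136) (dlOf (nat_lit 3) (nat_lit 0x5802b001900d0000901000800ac0000004003c004007800180a9e02)))) 
(.nd (nat_lit 9) 
(.lf (nat_lit 3489873032) (dlOf (nat_lit 1) (nat_lit 0x20008001c0020022000800c203))) 
(.lf (nat_lit 4563610248) (dlOf (nat_lit 2) (nat_lit 0xac084004e00000014828095480))))))) 
(.nd (nat_lit 9) (.nd (nat_lit 26) (.nd (nat_lit 19) (.nd (nat_lit 12) 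
(.lf (nat_lit 24322120) (dlOf (nat_lit 2) (nat_lit 0x4b4500019018b90e00))) 
(.lf (nat_lit 3758305352) (dlOf (nat_lit 1) (nat_lit 0x8008000400200020008127d83)))) 
(.nd (nat_lit 7) (.lf (nat_lit 537600072) (dlOf (nat_lit 1) (nat_lit 0xc4004007200180d0c82))) 
(.lf (nat_lit 5772091592) (dlOf (nat_lit 1) (nat_lit 0x164004000c0008075982))))) (.nd (nat_lit 7) 
(.nd (nat_lit 12) (.lf (nat_lit 1410015304) (dlOf (nat_lit 1) (nat_lit 0xc4004007200180d0c82))) 
(.lf (nat_lit 3154325576) (dlOf (nat_lit 1) (nat_lit 0x12800800c400200260008157d83)))) 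
(.nd (nat_lit 10) 
(.lf (nat_lit 3556980936) (dlOf (nat_lit 1) (nat_lit 0x25000805d0002029c000812a883))) 
(.lf (nat_lit 1543711944) (dlOf (nat_lit 7) (nat_lit 0x4404a00320130001a020019017001c8030000c0000003306005602e000b01400190094005803e0062013002e0060000c8300100094004003e001a0130001183000f0128003007c003c0260002206000a02500010818146380)))))) 
(.nd (nat_lit 19) (.nd (nat_lit 7) (.nd (nat_lit 20) 
(.lf (nat_lit 6643982920) (dlOf (nat_lit 1) (nat_lit 0x80080008002000200080b1583))) 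
(.lf (nat_lit 11739720) (dlOf (nat_lit 1) (nat_lit 0x20002000800086c1102)))) (.nd (nat_lit 20) 
(.lf (nat_lit 8598216) (dlOf (nat_lit 1) (nat_lit 0x20018518c81))) 
(.lf (nat_lit 20132552) (dlOf (nat_lit 1) (nat_lit 0x4002000200089d8c82))))) (.nd (nat_lit 11) 
(.nd (nat_lit 26) (.lf (nat_lit 3491439176) (dlOf (nat_lit 1) (nat_lit 0x800400020008091102))) 
(.lf (nat_lit 2753241672) (dlOf (nat_lit 1) (nat_lit 0x800400020008091102)))) 
(.lf (nat_lit 32189000) (dlOf (nat_lit 1) (nat_lit 0x400400020008ef5202))))))) (.nd (nat_lit 7) 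
(.nd (nat_lit 9) (.nd (nat_lit 6) (.nd (nat_lit 10) (.nd (nat_lit 26) 
(.lf (nat_lit 1611342088) (dlOf (nat_lit 2) (nat_lit 0x202d00038c0800080080008002001a0008133583))) 
(.lf (nat_lit 738926856) (dlOf (nat_lit 2) (nat_lit 0x602b800850080008008001800200020008147c03)))) 
(.nd (nat_lit 12) (.lf (nat_lit 36381960) (dlOf (nat_lit 1) (nat_lit 0x20019072f81))) 
(.lf (nat_lit 2684564744) (dlOf (nat_lit 1) (nat_lit 0x3c002001000080a9602))))) (.nd (nat_lit 10) 
(.lf (nat_lit 12263752) (dlOf (nat_lit 1) (nat_lit 0x4002004800086c0602))) (.nd (nat_lit 11) 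
(.lf (nat_lit 50013512) (dlOf (nat_lit 1) (nat_lit 0x180080008002000200094c3303))) 
(.lf (nat_lit 3489873224) (dlOf (nat_lit 1) (nat_lit 0x4002800c901)))))) (.nd (nat_lit 26) 
(.nd (nat_lit 10) (.lf (nat_lit 2818784008) (dlOf (nat_lit 1) (nat_lit 0x82002812b981))) 
(.nd (nat_lit 11) (.lf (nat_lit 3493013256) (dlOf (nat_lit 2) (nat_lit 0x3805c0000c8180f3b80))) 
(.lf (nat_lit 2818780936) (dlOf (nat_lit 1) (nat_lit 0x34400401260008127482))))) (.nd (nat_lit 6) 
(.nd (nat_lit 10) 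
(.lf (nat_lit 4094372616) (dlOf (nat_lit 2) (nat_lit 0x40310000b8080008008000400200020008055b03))) 
(.lf (nat_lit 2752194312) (dlOf (nat_lit 1) (nat_lit 0x8008000400200020008003b83)))) 
(.lf (nat_lit 3556978504) (dlOf (nat_lit 1) (nat_lit 0xc0018127701)))))) (.nd (nat_lit 6) 
(.nd (nat_lit 26) (.nd (nat_lit 19) (.nd (nat_lit 20) 
(.lf (nat_lit 4697825672) (dlOf (nat_lit 2) (nat_lit 0x180ac0029a04000c00400020008091002))) 
(.lf (nat_lit 5772616072) (dlOf (nat_lit 1) (nat_lit 0x20028091001)))) 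
(.lf (nat_lit 53158280) (dlOf (nat_lit 1) (nat_lit 0x20029571001)))) (.nd (nat_lit 11) 
(.nd (nat_lit 28) (.lf (nat_lit 5033369992) (dlOf (nat_lit 1) (nat_lit 0x20018091001))) 
(.lf (nat_lit 5301805448) (dlOf (nat_lit 1) (nat_lit 0x400200020008091002)))) (.nd (nat_lit 10) 
(.lf (nat_lit 2754816392) (dlOf (nat_lit 1) (nat_lit 0x200280f4e81))) 
(.lf (nat_lit 1409494408) (dlOf (nat_lit 1) (nat_lit 0x20028006c81)))))) (.nd (nat_lit 20) 
(.nd (nat_lit 9) (.nd (nat_lit 11) 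
(.lf (nat_lit 474161608) (dlOf (nat_lit 1) (nat_lit 0x12400090e1101))) 
(.lf (nat_lit 3556981192) (dlOf (nat_lit 1) (nat_lit 0x2001812b001)))) (.nd (nat_lit 10) 
(.lf (nat_lit 1409498056) (dlOf (nat_lit 1) (nat_lit 0x20002800be81))) 
(.lf (nat_lit 2885887944) (dlOf (nat_lit 1) (nat_lit 0x380028144481))))) (.nd (nat_lit 21) 
(.nd (nat_lit 26) 
(.lf (nat_lit 3491439048) (dlOf (nat_lit 1) (nat_lit 0x18008000800200060008090983))) 
(.lf (nat_lit 2753241544) (dlOf (nat_lit 1) (nat_lit 0x18008000800200060008090983)))) 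
(.nd (nat_lit 9) (.lf (nat_lit 11739592) (dlOf (nat_lit 1) (nat_lit 0x4200186c0981))) 
(.lf (nat_lit 20659144) (dlOf (nat_lit 1) (nat_lit 0x180080004002000600089dbe83)))))))))) 
(.nd (nat_lit 27) (.nd (nat_lit 21) (.nd (nat_lit 16) (.nd (nat_lit 26) (.nd (nat_lit 30) 
(.nd (nat_lit 22) (.nd (nat_lit 19) (.nd (nat_lit 28) 
(.lf (nat_lit 6442852360) (dlOf (nat_lit 3) (nat_lit 0x6019000d00b80068058000e02700030120007804002e7c180014064000203100030178007004002d76100128004000800181e0002))) 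
(.lf (nat_lit 4563804168) (dlOf (nat_lit 3) (nat_lit 0x898066000403100af0020251019805524080050008001c002001a00080e0003)))) 
(.lf (nat_lit 9314312) (dlOf (nat_lit 1) (nat_lit 0x2400400040018540282)))) (.nd (nat_lit 6) 
(.nd (nat_lit 19) (.lf (nat_lit 12984328) (dlOf (nat_lit 1) (nat_lit 0x600086f0001))) 
(.lf (nat_lit 13508616) (dlOf (nat_lit 1) (nat_lit 0x8008000400200020008730483)))) (.nd (nat_lit 7) 
(.lf (nat_lit 54927432) (dlOf (nat_lit 1) (nat_lit 0x40009670601))) 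
(.lf (nat_lit 47588552) (dlOf (nat_lit 1) (nat_lit 0x800200020009402d02)))))) (.nd (nat_lit 28) 
(.nd (nat_lit 29) (.lf (nat_lit 3221626888) (dlOf (nat_lit 1) (nat_lit 0x20018160001))) 
(.nd (nat_lit 32) 
(.lf (nat_lit 1611014152) (dlOf (nat_lit 1) (nat_lit 0x80080004002000200080c0003))) 
(.lf (nat_lit 5905981448) (dlOf (nat_lit 1) (nat_lit 0x108008003800200060008170483))))) 
(.nd (nat_lit 6) (.lf (nat_lit 3494256648) (dlOf (nat_lit 1) (nat_lit 0x400081e0001))) 
(.nd (nat_lit 12) (.lf (nat_lit 4026933320) (dlOf (nat_lit 2) (nat_lit 0x260200001a8180d0c80))) 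
(.lf (nat_lit 1344155720) (dlOf (nat_lit 1) (nat_lit 0x1c00283d7d81))))))) (.nd (nat_lit 31) 
(.nd (nat_lit 6) (.nd (nat_lit 8) (.nd (nat_lit 29) 
(.lf (nat_lit 4362477576) (dlOf (nat_lit 2) (nat_lit 0x34033003c8818090000))) 
(.lf (nat_lit 4899348488) (dlOf (nat_lit 1) (nat_lit 0x20002000a0008140002)))) 
(.lf (nat_lit 4362477832) (dlOf (nat_lit 1) (nat_lit 0x40008003400200160008090483)))) 
(.nd (nat_lit 8) (.lf (nat_lit 69084360) (dlOf (nat_lit 2) (nat_lit 0x5e105000128188a2d00))) 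
(.lf (nat_lit 4362478024) (dlOf (nat_lit 2) (nat_lit 0x803300004818090980))))) (.nd (nat_lit 29) 
(.nd (nat_lit 6) (.nd (nat_lit 19) 
(.lf (nat_lit 6509961224) (dlOf (nat_lit 1) (nat_lit 0x108008003800200060008170483))) 
(.lf (nat_lit 3557695496) (dlOf (nat_lit 5) (nat_lit 0x2a07800220390017819002840c20048060002402f000c8174017c08a0034042006c01f8023006c017a82c01580c2000603f005e7020005037800081b8001c0b6000c05a003601c000280d8000c06a00320340006019803200880177a28011c070000802c004f011002d141804100080110002007800082b0283)))) 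
(.lf (nat_lit 3288735816) (dlOf (nat_lit 2) (nat_lit 0x260200001c0180d0c80)))) (.nd (nat_lit 7) 
(.nd (nat_lit 22) 
(.lf (nat_lit 3020300296) (dlOf (nat_lit 1) (nat_lit 0x98008001c00200140008220283))) 
(.lf (nat_lit 2756059144) (dlOf (nat_lit 1) (nat_lit 0x400081e0001)))) 
(.lf (nat_lit 2753438088) (dlOf (nat_lit 1) (nat_lit 0x400400020008090782))))))) (.nd (nat_lit 20) 
(.nd (nat_lit 19) (.nd (nat_lit 8) (.nd (nat_lit 29) 
(.lf (nat_lit 6442917960) (dlOf (nat_lit 1) (nat_lit 0x380008220c81))) 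
(.lf (nat_lit 1611079752) (dlOf (nat_lit 4) (nat_lit 0x200540009c02001402a0004b0100030150000540800980080044002002200080d0483)))) 
(.nd (nat_lit 26) 
(.lf (nat_lit 2416386376) (dlOf (nat_lit 2) (nat_lit 0xd0090002804400080080034004001000081b0602))) 
(.lf (nat_lit 4362543432) (dlOf (nat_lit 1) (nat_lit 0x400400020008090602))))) (.nd (nat_lit 6) 
(.nd (nat_lit 22) (.lf (nat_lit 1343168520) (dlOf (nat_lit 1) (nat_lit 0x800400020008190002))) 
(.lf (nat_lit 13574152) (dlOf (nat_lit 1) (nat_lit 0x20028730481)))) 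
(.lf (nat_lit 21962824) (dlOf (nat_lit 1) (nat_lit 0x80018a80f01))))) (.nd (nat_lit 7) 
(.nd (nat_lit 28) (.nd (nat_lit 23) 
(.lf (nat_lit 2752978952) (dlOf (nat_lit 1) (nat_lit 0x20028070501))) 
(.lf (nat_lit 9904136) (dlOf (nat_lit 2) (nat_lit 0x3a2900af0018590000)))) (.nd (nat_lit 31) 
(.lf (nat_lit 1343692808) (dlOf (nat_lit 1) (nat_lit 0x560018330001))) 
(.lf (nat_lit 3491176456) (dlOf (nat_lit 1) (nat_lit 0x20028070501))))) (.nd (nat_lit 6) 
(.nd (nat_lit 8) (.lf (nat_lit 43460232) (dlOf (nat_lit 1) (nat_lit 0x400192a3a01))) 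
(.lf (nat_lit 43983240) (dlOf (nat_lit 1) (nat_lit 0x10004000600092a1002)))) 
(.lf (nat_lit 47654088) (dlOf (nat_lit 2) (nat_lit 0x1480000000004009400200140009402d02))))))) 
(.nd (nat_lit 19) (.nd (nat_lit 20) (.nd (nat_lit 7) (.nd (nat_lit 6) 
(.lf (nat_lit 15081480) (dlOf (nat_lit 1) (nat_lit 0xb80080004002003a00087b0283))) 
(.nd (nat_lit 16) 
(.lf (nat_lit 23470408) (dlOf (nat_lit 2) (nat_lit 0x1da480008004001400400120008b80602))) 
(.lf (nat_lit 23535944) (dlOf (nat_lit 1) (nat_lit 0x8008003c00200260008b80603))))) 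
(.nd (nat_lit 10) (.nd (nat_lit 16) 
(.lf (nat_lit 23470216) (dlOf (nat_lit 1) (nat_lit 0x400200020008b80102))) 
(.lf (nat_lit 23535752) (dlOf (nat_lit 1) (nat_lit 0x8008001000200020008b80103)))) 
(.lf (nat_lit 57025672) (dlOf (nat_lit 1) (nat_lit 0x400200080009792b02))))) (.nd (nat_lit 6) 
(.nd (nat_lit 7) (.nd (nat_lit 8) 
(.lf (nat_lit 16130056) (dlOf (nat_lit 1) (nat_lit 0x380018870001))) 
(.lf (nat_lit 58073352) (dlOf (nat_lit 2) (nat_lit 0x1586400064328007081000580080010002001e00097b7c03)))) 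
(.lf (nat_lit 11935880) (dlOf (nat_lit 1) (nat_lit 0x4002000200086c0102)))) (.nd (nat_lit 8) 
(.lf (nat_lit 3612744) (dlOf (nat_lit 2) (nat_lit 0x254900019018210e00))) 
(.lf (nat_lit 11936072) (dlOf (nat_lit 2) (nat_lit 0x43f880014c080018008001c002002a00086c0603)))))) 
(.nd (nat_lit 8) (.nd (nat_lit 9) (.nd (nat_lit 7) (.nd (nat_lit 20) 
(.lf (nat_lit 15605768) (dlOf (nat_lit 1) (nat_lit 0x10008000400200020008810283))) 
(.lf (nat_lit 25042952) (dlOf (nat_lit 1) (nat_lit 0x400200020008be0802)))) 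
(.lf (nat_lit 3492751496) (dlOf (nat_lit 1) (nat_lit 0x80080010002000400080f4803)))) 
(.nd (nat_lit 12) (.lf (nat_lit 19800584) (dlOf (nat_lit 1) (nat_lit 0x400289d1481))) 
(.lf (nat_lit 19870216) (dlOf (nat_lit 2) (nat_lit 0x1b29c00936040004002000600089d8682))))) 
(.nd (nat_lit 6) (.nd (nat_lit 7) 
(.lf (nat_lit 3023112) (dlOf (nat_lit 1) (nat_lit 0x20028200481))) (.nd (nat_lit 10) 
(.lf (nat_lit 8266120) (dlOf (nat_lit 1) (nat_lit 0x2c00400220008511002))) 
(.lf (nat_lit 61810056) (dlOf (nat_lit 1) (nat_lit 0xa8004002c0009923602))))) (.nd (nat_lit 10) 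
(.nd (nat_lit 16) (.lf (nat_lit 46014792) (dlOf (nat_lit 1) (nat_lit 0x400400020009380c82))) 
(.lf (nat_lit 19865928) (dlOf (nat_lit 1) (nat_lit 0x15000089d0c81)))) 
(.lf (nat_lit 19807560) (dlOf (nat_lit 1) (nat_lit 0x4002000200089dc902)))))))) (.nd (nat_lit 30) 
(.nd (nat_lit 28) (.nd (nat_lit 9) (.nd (nat_lit 26) (.nd (nat_lit 7) (.nd (nat_lit 19) 
(.lf (nat_lit 134619144) (dlOf (nat_lit 2) (nat_lit 0x3a03b00641818090000))) 
(.lf (nat_lit 2819497992) (dlOf (nat_lit 5) (nat_lit 0x2a0780022039005081a800900d2005e061002402f000c8174006809600be042006c01f8023006c00c7e2c01580d4000603f0031c820005037800081b8001c0b6000c05a000501e000180ec00d806c003203400060198032008800c5028011c06c000802c004f0110016e41804100080110002007800082b0283)))) 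
(.lf (nat_lit 134619528) (dlOf (nat_lit 2) (nat_lit 0x4a03b003a0818090780)))) (.nd (nat_lit 29) 
(.nd (nat_lit 7) (.lf (nat_lit 201728008) (dlOf (nat_lit 2) (nat_lit 0x3a03b00376818090000))) 
(.lf (nat_lit 201728392) (dlOf (nat_lit 2) (nat_lit 0xa603b00675018090780)))) (.nd (nat_lit 16) 
(.lf (nat_lit 738598920) (dlOf (nat_lit 1) (nat_lit 0x80080004002000200080c0003))) 
(.lf (nat_lit 2886148104) (dlOf (nat_lit 5) (nat_lit 0x1601b8001f40801b00dc000f80400c806e0007502006603700039818170480)))))) 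
(.nd (nat_lit 6) (.nd (nat_lit 8) 
(.lf (nat_lit 201728520) (dlOf (nat_lit 2) (nat_lit 0xc00410000e018090d80))) 
(.lf (nat_lit 2886084360) (dlOf (nat_lit 2) (nat_lit 0x600700005804008c004000a0008143b82)))) 
(.nd (nat_lit 26) 
(.lf (nat_lit 134619720) (dlOf (nat_lit 13) (nat_lit 0x45009400d404600fe017800f80a801ec018000260a023804a00fe0178000941009d812803e805e0002404006002f0001181000701d8000700804300bc000360400440760001702003c03b0000981000701d8000400800380ec0001e04001807600002020018049000c022800300ec02b805e001e02e000c014800000301d680080bdc00206080008091103))) 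
(.lf (nat_lit 201728584) (dlOf (nat_lit 13) (nat_lit 0x45009400d404600fe017800f80a801ec018000260a023804a00fe0178000941009d812803e805e0002404006002f0001181000701d8000700804300bc000360400440760001702003c03b0000981000701d8000400800380ec0001e04001807600002020018049000c022800300ec02b805e001e02e000c014800000301d680080bdc00206080008091103)))))) 
(.nd (nat_lit 19) (.nd (nat_lit 6) (.nd (nat_lit 8) (.nd (nat_lit 20) 
(.lf (nat_lit 4698021896) (dlOf (nat_lit 3) (nat_lit 0x898066000403100b9f020251019805aec080050008001c002001a00080e0003))) 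
(.lf (nat_lit 1008082952) (dlOf (nat_lit 1) (nat_lit 0x80080004002000200089c0003)))) 
(.lf (nat_lit 1009132808) (dlOf (nat_lit 1) (nat_lit 0xac00400100009082f82)))) (.nd (nat_lit 7) 
(.lf (nat_lit 2550604104) (dlOf (nat_lit 2) (nat_lit 0xd009000280440008e080034004001000081b0602))) 
(.lf (nat_lit 1009132744) (dlOf (nat_lit 10) (nat_lit 0xe41c6002a0e2004903b0000a018018038c004c1c4006c0760001303001e0718000780802f838c014c0ec0001c0400840e3000d071001b81d8000360c00e00ec0000e0200840e3000a071001a01d8000060c00a01c60074076000008200340718005036400b00ec000000600fa0029082d01))))) 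
(.nd (nat_lit 21) (.nd (nat_lit 6) 
(.lf (nat_lit 470753288) (dlOf (nat_lit 1) (nat_lit 0x18008000800200040008170003))) 
(.lf (nat_lit 470753352) (dlOf (nat_lit 1) (nat_lit 0x18008000400200020008170683)))) 
(.nd (nat_lit 8) (.nd (nat_lit 9) 
(.lf (nat_lit 473899016) (dlOf (nat_lit 2) (nat_lit 0x428600080cd0038a828fc0000))) 
(.lf (nat_lit 472850952) (dlOf (nat_lit 3) (nat_lit 0xa85940007a0400142ca0003c0200280018b18001)))) 
(.lf (nat_lit 472850696) (dlOf (nat_lit 1) (nat_lit 0xb00008b13581))))))) (.nd (nat_lit 16) 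
(.nd (nat_lit 7) (.nd (nat_lit 26) (.nd (nat_lit 29) 
(.lf (nat_lit 3355844616) (dlOf (nat_lit 2) (nat_lit 0x7400cc036806400cb50400140008120001))) 
(.lf (nat_lit 3892715528) (dlOf (nat_lit 2) (nat_lit 0x802c005f28181d0480)))) (.nd (nat_lit 28) 
(.lf (nat_lit 3959824392) (dlOf (nat_lit 1) (nat_lit 0x20018160001))) (.nd (nat_lit 29) 
(.lf (nat_lit 5838872584) (dlOf (nat_lit 3) (nat_lit 0x6019000d00b80068058000e02700030120007804002bc0180014064000203100030178007004002a92100128004000800181e0002))) 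
(.lf (nat_lit 4228259848) (dlOf (nat_lit 2) (nat_lit 0x3403200693818090000)))))) (.nd (nat_lit 6) 
(.nd (nat_lit 8) (.lf (nat_lit 5773336712) (dlOf (nat_lit 2) (nat_lit 0x213b000120180c0e00))) 
(.lf (nat_lit 3624283528) (dlOf (nat_lit 1) (nat_lit 0x20028146c81)))) (.nd (nat_lit 8) 
(.lf (nat_lit 6377316552) (dlOf (nat_lit 1) (nat_lit 0x4002000200080c1b82))) 
(.lf (nat_lit 4228260296) (dlOf (nat_lit 2) (nat_lit 0x803200004818090980)))))) (.nd (nat_lit 6) 
(.nd (nat_lit 7) (.nd (nat_lit 8) (.nd (nat_lit 10) 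
(.lf (nat_lit 3624345608) (dlOf (nat_lit 5) (nat_lit 0x1601b8001f40801b00dc000f80400c806e0007502006603700039818170480))) 
(.lf (nat_lit 5772354568) (dlOf (nat_lit 1) (nat_lit 0xc0018092881)))) 
(.lf (nat_lit 5772354824) (dlOf (nat_lit 1) (nat_lit 0x20018092f81)))) (.nd (nat_lit 8) 
(.lf (nat_lit 6376860296) (dlOf (nat_lit 1) (nat_lit 0x400200020008095482))) 
(.lf (nat_lit 5772353928) (dlOf (nat_lit 1) (nat_lit 0x800400040018091002))))) (.nd (nat_lit 19) 
(.nd (nat_lit 8) (.lf (nat_lit 5838938184) (dlOf (nat_lit 1) (nat_lit 0x380008220c81))) 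
(.lf (nat_lit 4228325704) (dlOf (nat_lit 1) (nat_lit 0x400400020008090602)))) (.nd (nat_lit 7) 
(.lf (nat_lit 6376333640) (dlOf (nat_lit 1) (nat_lit 0x1000400020008090c82))) 
(.lf (nat_lit 6376335816) (dlOf (nat_lit 1) (nat_lit 0x2c00200080008094e82))))))))))))

end

end Pool.Agent.Lib.MP_5854e1_co.Cz

namespace Pool.Agent.Lib.MP_5854e1_co.Cz

noncomputable section

noncomputable def tz17 : DT := (.nd (nat_lit 17) (.nd (nat_lit 6) (.nd (nat_lit 13) 
(.nd (nat_lit 16) (.nd (nat_lit 18) (.nd (nat_lit 9) (.nd (nat_lit 19) (.nd (nat_lit 8) 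
(.nd (nat_lit 10) (.nd (nat_lit 7) (.nd (nat_lit 22) 
(.lf (nat_lit 27263016) (dlOf (nat_lit 1) (nat_lit 0xa0018cc0781))) 
(.lf (nat_lit 23068712) (dlOf (nat_lit 1) (nat_lit 0xc00400800008b50602)))) 
(.lf (nat_lit 2952794280) (dlOf (nat_lit 1) (nat_lit 0x40018007d81)))) (.nd (nat_lit 7) 
(.nd (nat_lit 26) (.lf (nat_lit 2952795176) (dlOf (nat_lit 1) (nat_lit 0x460018009201))) 
(.lf (nat_lit 603984936) (dlOf (nat_lit 1) (nat_lit 0x280018009201)))) 
(.lf (nat_lit 134220968) (dlOf (nat_lit 1) (nat_lit 0x18008000800200020008006283))))) 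
(.nd (nat_lit 7) (.nd (nat_lit 10) (.nd (nat_lit 11) 
(.lf (nat_lit 2013266216) (dlOf (nat_lit 1) (nat_lit 0x1c004000c0018000b02))) 
(.lf (nat_lit 4362082600) (dlOf (nat_lit 1) (nat_lit 0x80040012001800ab82)))) (.nd (nat_lit 26) 
(.lf (nat_lit 2550140200) (dlOf (nat_lit 1) (nat_lit 0x8008000400200020008006803))) 
(.lf (nat_lit 2483031336) (dlOf (nat_lit 1) (nat_lit 0x8008000800200020008006803))))) 
(.nd (nat_lit 10) (.lf (nat_lit 3489663400) (dlOf (nat_lit 1) (nat_lit 0x40028004e81))) 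
(.nd (nat_lit 11) 
(.lf (nat_lit 3690993064) (dlOf (nat_lit 1) (nat_lit 0xa8008001400200020008009903))) 
(.lf (nat_lit 3489668520) (dlOf (nat_lit 8) (nat_lit 0x243ea000300200121f5000178100090fa800380000005c0800243ea0002d0200241f5000028100090fa8000080800487d4000000400180040002001800cb82))))))) 
(.nd (nat_lit 26) (.nd (nat_lit 29) (.nd (nat_lit 21) 
(.lf (nat_lit 3221749800) (dlOf (nat_lit 1) (nat_lit 0x20018170001))) (.nd (nat_lit 22) 
(.lf (nat_lit 2621480) (dlOf (nat_lit 1) (nat_lit 0x8c004000a0008180a02))) 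
(.lf (nat_lit 15204392) (dlOf (nat_lit 2) (nat_lit 0x1338d4006fbec00a0b8a002ed130000be10008c002000800087c0682))))) 
(.nd (nat_lit 27) (.nd (nat_lit 28) 
(.lf (nat_lit 1611137064) (dlOf (nat_lit 3) (nat_lit 0x4c0540001a02001e0500012010000038100070008001800200a800080f0c83))) 
(.lf (nat_lit 805830696) (dlOf (nat_lit 2) (nat_lit 0xf02b005524080028008000c002000600081b0903)))) 
(.lf (nat_lit 2819096616) (dlOf (nat_lit 1) (nat_lit 0x4e00281a0681))))) (.nd (nat_lit 27) 
(.nd (nat_lit 29) (.lf (nat_lit 67633192) (dlOf (nat_lit 1) (nat_lit 0xa00282b0781))) 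
(.lf (nat_lit 1678245928) (dlOf (nat_lit 2) (nat_lit 0xf02b005aec080028008000c002000600081b0903)))) 
(.nd (nat_lit 28) 
(.lf (nat_lit 738721832) (dlOf (nat_lit 3) (nat_lit 0x4c0540001902001e0500012010000038100070008001800200a800080f0c83))) 
(.lf (nat_lit 3154640936) (dlOf (nat_lit 1) (nat_lit 0x2c004003c00082f0782))))))) (.nd (nat_lit 11) 
(.nd (nat_lit 8) (.nd (nat_lit 7) (.nd (nat_lit 19) 
(.lf (nat_lit 2684355112) (dlOf (nat_lit 1) (nat_lit 0x800400020018001482))) 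
(.lf (nat_lit 50856488) (dlOf (nat_lit 1) (nat_lit 0x8008010c002003c00094d8883)))) 
(.nd (nat_lit 10) (.nd (nat_lit 23) 
(.lf (nat_lit 469766824) (dlOf (nat_lit 1) (nat_lit 0x400400020008008c82))) 
(.lf (nat_lit 8393384) (dlOf (nat_lit 1) (nat_lit 0x400200020008518c82)))) 
(.lf (nat_lit 2751465128) (dlOf (nat_lit 1) (nat_lit 0x1c0028003a81))))) (.nd (nat_lit 27) 
(.nd (nat_lit 23) (.nd (nat_lit 29) 
(.lf (nat_lit 2415921064) (dlOf (nat_lit 1) (nat_lit 0x400400020008004302))) 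
(.lf (nat_lit 4026533800) (dlOf (nat_lit 1) (nat_lit 0x20028004301)))) 
(.lf (nat_lit 8390568) (dlOf (nat_lit 1) (nat_lit 0x660028514301)))) (.nd (nat_lit 26) 
(.lf (nat_lit 4429186984) (dlOf (nat_lit 1) (nat_lit 0x400400020008004302))) (.nd (nat_lit 28) 
(.lf (nat_lit 201328552) (dlOf (nat_lit 1) (nat_lit 0x8008000400200020008004303))) 
(.lf (nat_lit 1006634920) (dlOf (nat_lit 1) (nat_lit 0x400400020008004302))))))) (.nd (nat_lit 7) 
(.nd (nat_lit 29) (.nd (nat_lit 27) 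
(.lf (nat_lit 4362082856) (dlOf (nat_lit 1) (nat_lit 0x440020012000800b282))) (.nd (nat_lit 31) 
(.lf (nat_lit 201333288) (dlOf (nat_lit 2) (nat_lit 0x201d8029ac08016800800980020012000800b283))) 
(.lf (nat_lit 2348816936) (dlOf (nat_lit 1) (nat_lit 0x800800040020002000800b283))))) 
(.nd (nat_lit 8) (.nd (nat_lit 26) 
(.lf (nat_lit 4026538536) (dlOf (nat_lit 2) (nat_lit 0x1801700298808030000800d00020028000800b283))) 
(.lf (nat_lit 2751470120) (dlOf (nat_lit 2) (nat_lit 0x443800022150053102800b280)))) 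
(.lf (nat_lit 872418088) (dlOf (nat_lit 2) (nat_lit 0x60a03800113018005c00))))) (.nd (nat_lit 8) 
(.nd (nat_lit 10) (.lf (nat_lit 3690994344) (dlOf (nat_lit 1) (nat_lit 0x7e002800b781))) 
(.lf (nat_lit 4227862184) (dlOf (nat_lit 1) (nat_lit 0x20028007201)))) (.nd (nat_lit 10) 
(.lf (nat_lit 1409293224) (dlOf (nat_lit 1) (nat_lit 0x2002800bd01))) (.nd (nat_lit 26) 
(.lf (nat_lit 1476399016) (dlOf (nat_lit 1) (nat_lit 0x1a0018007901))) 
(.lf (nat_lit 603983784) (dlOf (nat_lit 1) (nat_lit 0x1a0018007901))))))))) (.nd (nat_lit 28) 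
(.nd (nat_lit 8) (.nd (nat_lit 23) (.nd (nat_lit 26) (.nd (nat_lit 31) (.nd (nat_lit 7) 
(.lf (nat_lit 671350824) (dlOf (nat_lit 1) (nat_lit 0x8008000400200040008160503))) 
(.lf (nat_lit 20191400) (dlOf (nat_lit 1) (nat_lit 0x358008007c002008000089da883)))) 
(.nd (nat_lit 30) (.lf (nat_lit 6576930856) (dlOf (nat_lit 2) (nat_lit 0x2a0000000b0181c0580))) 
(.lf (nat_lit 3355705384) (dlOf (nat_lit 1) (nat_lit 0x200280d0601))))) (.nd (nat_lit 32) 
(.nd (nat_lit 21) 
(.lf (nat_lit 1677983784) (dlOf (nat_lit 2) (nat_lit 0x3000000084080008008001400200120008130583))) 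
(.lf (nat_lit 2753822760) (dlOf (nat_lit 1) (nat_lit 0x400180a0901)))) (.nd (nat_lit 7) 
(.lf (nat_lit 5972951080) (dlOf (nat_lit 2) (nat_lit 0x2a0000000b0181c0580))) 
(.lf (nat_lit 5436080296) (dlOf (nat_lit 1) (nat_lit 0x100080008002000400080c1483)))))) 
(.nd (nat_lit 19) (.nd (nat_lit 20) (.nd (nat_lit 21) 
(.lf (nat_lit 63176744) (dlOf (nat_lit 1) (nat_lit 0x80080008002000200099f0803))) 
(.lf (nat_lit 10747944) (dlOf (nat_lit 2) (nat_lit 0x6f15e40005404000800400440018620582)))) 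
(.lf (nat_lit 15990824) (dlOf (nat_lit 1) (nat_lit 0x180018850981)))) (.nd (nat_lit 20) 
(.lf (nat_lit 9175080) (dlOf (nat_lit 1) (nat_lit 0x400400020018520a02))) 
(.lf (nat_lit 27000872) (dlOf (nat_lit 2) (nat_lit 0x1e0000002f818ca0680)))))) (.nd (nat_lit 7) 
(.nd (nat_lit 9) (.nd (nat_lit 10) 
(.lf (nat_lit 20189480) (dlOf (nat_lit 1) (nat_lit 0xc00189d8081))) 
(.lf (nat_lit 2818841896) (dlOf (nat_lit 1) (nat_lit 0x1d80020024000812c602)))) (.nd (nat_lit 12) 
(.lf (nat_lit 46926632) (dlOf (nat_lit 1) (nat_lit 0x20009385c01))) 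
(.lf (nat_lit 537664296) (dlOf (nat_lit 2) (nat_lit 0x1207600070000015441000700080034002001400080fbc83))))) 
(.nd (nat_lit 10) (.lf (nat_lit 41157032) (dlOf (nat_lit 1) (nat_lit 0x300009226e81))) 
(.nd (nat_lit 21) (.lf (nat_lit 537664936) (dlOf (nat_lit 1) (nat_lit 0x400080fcb81))) 
(.lf (nat_lit 19668392) (dlOf (nat_lit 5) (nat_lit 0xac04000360400396020001a020018b010000c01000658080012c0000026080024004001000089dcb82))))))) 
(.nd (nat_lit 27) (.nd (nat_lit 31) (.nd (nat_lit 7) (.nd (nat_lit 20) 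
(.lf (nat_lit 805568552) (dlOf (nat_lit 2) (nat_lit 0x3000000084080008008001400200120008130583))) 
(.lf (nat_lit 1343488040) (dlOf (nat_lit 3) (nat_lit 0x1c08e000440100060470002140803f0008015400200820008260783)))) 
(.lf (nat_lit 5100538280) (dlOf (nat_lit 1) (nat_lit 0x54002000200080d4e82)))) (.nd (nat_lit 7) 
(.nd (nat_lit 19) (.lf (nat_lit 3492020264) (dlOf (nat_lit 1) (nat_lit 0x400180a0901))) 
(.lf (nat_lit 3557556264) (dlOf (nat_lit 1) (nat_lit 0x300080058002001e0008260703)))) 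
(.lf (nat_lit 3557037736) (dlOf (nat_lit 1) (nat_lit 0x800800f4002002c000812a003))))) 
(.nd (nat_lit 26) (.nd (nat_lit 8) (.nd (nat_lit 9) 
(.lf (nat_lit 5773197352) (dlOf (nat_lit 1) (nat_lit 0x28008008c002000a00080b0383))) 
(.lf (nat_lit 5234755112) (dlOf (nat_lit 1) (nat_lit 0x480080020002001400080d3703)))) 
(.lf (nat_lit 5234754856) (dlOf (nat_lit 2) (nat_lit 0x280ac0002c040008004000c00180d3182)))) 
(.nd (nat_lit 19) (.nd (nat_lit 30) 
(.lf (nat_lit 2617507880) (dlOf (nat_lit 1) (nat_lit 0x200280d0601))) 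
(.lf (nat_lit 1543766056) (dlOf (nat_lit 1) (nat_lit 0x8008000400200040008160503)))) 
(.lf (nat_lit 6377177128) (dlOf (nat_lit 1) (nat_lit 0x28008008c002000a00080b0383)))))))) 
(.nd (nat_lit 28) (.nd (nat_lit 9) (.nd (nat_lit 18) (.nd (nat_lit 19) (.nd (nat_lit 20) 
(.nd (nat_lit 21) (.nd (nat_lit 22) 
(.lf (nat_lit 1677787176) (dlOf (nat_lit 1) (nat_lit 0x20008090001))) 
(.lf (nat_lit 21037096) (dlOf (nat_lit 1) (nat_lit 0x26000200e00008a00982)))) 
(.lf (nat_lit 23134248) (dlOf (nat_lit 1) (nat_lit 0xc00200040008b60882)))) (.nd (nat_lit 23) 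
(.lf (nat_lit 22085672) (dlOf (nat_lit 5) (nat_lit 0x1306b0002a81000483580015008002dd0c0004204000ae860001d0200140028a90581))) 
(.lf (nat_lit 13697064) (dlOf (nat_lit 1) (nat_lit 0x400200020008740502))))) (.nd (nat_lit 20) 
(.nd (nat_lit 21) (.lf (nat_lit 42532904) (dlOf (nat_lit 1) (nat_lit 0x138002016c0009260202))) 
(.lf (nat_lit 11075624) (dlOf (nat_lit 1) (nat_lit 0x1dc00400020018660682)))) (.nd (nat_lit 7) 
(.nd (nat_lit 22) (.lf (nat_lit 3735592) (dlOf (nat_lit 1) (nat_lit 0x400400020008220a02))) 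
(.lf (nat_lit 24707112) (dlOf (nat_lit 6) (nat_lit 0x57a80006bbd000070200065ea00003408004aef4000180400297a8000ebbd000058200085ea0000aef400000080020004000c0008bb0a02)))) 
(.lf (nat_lit 62458280) (dlOf (nat_lit 1) (nat_lit 0x400199a4e81)))))) (.nd (nat_lit 19) 
(.nd (nat_lit 26) (.nd (nat_lit 29) 
(.lf (nat_lit 1208287272) (dlOf (nat_lit 5) (nat_lit 0x2100a4000260401cc0520000f0200ea029000068100810148000300800080080010002000e00080b0383))) 
(.lf (nat_lit 1745158184) (dlOf (nat_lit 2) (nat_lit 0x1807000a00370029019802680c800280480096010000158680b0380)))) 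
(.nd (nat_lit 7) (.lf (nat_lit 3825532968) (dlOf (nat_lit 1) (nat_lit 0x8002000200081a0582))) 
(.lf (nat_lit 1678049448) (dlOf (nat_lit 1) (nat_lit 0x40028154c01))))) (.nd (nat_lit 20) 
(.nd (nat_lit 7) 
(.lf (nat_lit 2754412584) (dlOf (nat_lit 19) (nat_lit 0x16842401d420401050b48098055c05f82a8047e1520003a06003910900220550000e6081e1c4240c2e155061a09c0001c81800f07e800842aa00441380003883001f109006e0554030c2700007006035221200700aa803504e000e00000006f08002c21201010aa802b854003f0270006e0000003705008e1090055855402ac2700002406026c212000409c000088100ee884800183f4015e155008609c000084200fb0848001c3f4001c1550001003000c109001e07e800f42aa00801380000f84019f109002387e802302aa01181380000e0401a1109003c07e801942aa00d01380000d8400010aa800068080468848000320400d8424000180202b421200fb0aa0000001000c80080048002000600080e0503))) 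
(.lf (nat_lit 36506024) (dlOf (nat_lit 1) (nat_lit 0x20019074e81)))) (.nd (nat_lit 21) 
(.nd (nat_lit 24) (.lf (nat_lit 10289192) (dlOf (nat_lit 1) (nat_lit 0x10002000c00085c0a82))) 
(.lf (nat_lit 27066408) (dlOf (nat_lit 2) (nat_lit 0x16a3480017c080160008008800200620008ca0683)))) 
(.lf (nat_lit 16580648) (dlOf (nat_lit 2) (nat_lit 0x19c10002200800200080004002000c00088c0783))))))) 
(.nd (nat_lit 8) (.nd (nat_lit 11) (.nd (nat_lit 10) (.nd (nat_lit 19) 
(.lf (nat_lit 40960552) (dlOf (nat_lit 1) (nat_lit 0x8008000400200020009208883))) 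
(.lf (nat_lit 50922024) (dlOf (nat_lit 1) (nat_lit 0x18004003200094d8882)))) 
(.lf (nat_lit 4496361000) (dlOf (nat_lit 1) (nat_lit 0x10008000800200020008053703)))) 
(.nd (nat_lit 12) (.nd (nat_lit 21) 
(.lf (nat_lit 54856232) (dlOf (nat_lit 1) (nat_lit 0x8008000c00200040009655183))) 
(.lf (nat_lit 61147688) (dlOf (nat_lit 1) (nat_lit 0x10002000400098c5182)))) 
(.lf (nat_lit 7936552) (dlOf (nat_lit 1) (nat_lit 0x2000851b281))))) (.nd (nat_lit 7) 
(.nd (nat_lit 10) (.nd (nat_lit 19) 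
(.lf (nat_lit 5368777512) (dlOf (nat_lit 1) (nat_lit 0x1400400020018005c02))) 
(.lf (nat_lit 20515624) (dlOf (nat_lit 1) (nat_lit 0x4002000200089d5c02)))) 
(.lf (nat_lit 671156008) (dlOf (nat_lit 1) (nat_lit 0x8008000400200220008143d03)))) 
(.nd (nat_lit 26) (.nd (nat_lit 27) 
(.lf (nat_lit 2684425128) (dlOf (nat_lit 1) (nat_lit 0x40018009101))) 
(.lf (nat_lit 3355513768) (dlOf (nat_lit 1) (nat_lit 0x4004000200180a9102)))) (.nd (nat_lit 10) 
(.lf (nat_lit 67179432) (dlOf (nat_lit 1) (nat_lit 0x40018009101))) 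
(.lf (nat_lit 2886010792) (dlOf (nat_lit 1) (nat_lit 0xb4004006a0008144302)))))))) 
(.nd (nat_lit 18) (.nd (nat_lit 26) (.nd (nat_lit 8) (.nd (nat_lit 21) (.nd (nat_lit 20) 
(.lf (nat_lit 805371944) (dlOf (nat_lit 1) (nat_lit 0xa0008001c00200020008090003))) 
(.lf (nat_lit 1343291432) (dlOf (nat_lit 1) (nat_lit 0x200080160002004e00081e0683)))) 
(.nd (nat_lit 7) 
(.lf (nat_lit 3492347944) (dlOf (nat_lit 3) (nat_lit 0x208c000120100010460000880800f80080010002001e00080c0c03))) 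
(.lf (nat_lit 3491823784) (dlOf (nat_lit 1) (nat_lit 0xc0018090281))))) (.nd (nat_lit 7) 
(.nd (nat_lit 10) (.lf (nat_lit 4563468584) (dlOf (nat_lit 2) (nat_lit 0x201200006818090b00))) 
(.lf (nat_lit 1342246184) (dlOf (nat_lit 1) (nat_lit 0x20018006801)))) 
(.lf (nat_lit 1880687016) (dlOf (nat_lit 1) (nat_lit 0x400400020008b36e82))))) (.nd (nat_lit 9) 
(.nd (nat_lit 7) (.nd (nat_lit 8) 
(.lf (nat_lit 3557359656) (dlOf (nat_lit 3) (nat_lit 0xf4090002e012000120200340240000840801500080018002006400081c0683))) 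
(.lf (nat_lit 4227927336) (dlOf (nat_lit 1) (nat_lit 0x80028006801)))) 
(.lf (nat_lit 4095279272) (dlOf (nat_lit 1) (nat_lit 0x20028081481)))) (.nd (nat_lit 10) 
(.nd (nat_lit 19) (.lf (nat_lit 2617311784) (dlOf (nat_lit 1) (nat_lit 0x10002000200080a1482))) 
(.lf (nat_lit 1008271912) (dlOf (nat_lit 2) (nat_lit 0x16837c000f2040008004004c0018b18882)))) 
(.lf (nat_lit 2617316904) (dlOf (nat_lit 1) (nat_lit 0x480080018002000c00080a9c03)))))) 
(.nd (nat_lit 27) (.nd (nat_lit 29) (.nd (nat_lit 19) (.nd (nat_lit 30) 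
(.lf (nat_lit 4563730472) (dlOf (nat_lit 1) (nat_lit 0x4004000200080d0282))) 
(.lf (nat_lit 1342505000) (dlOf (nat_lit 15) (nat_lit 0x8247000411e0001541000308f0000a804016448e00ac23c000298200031238001480800288f0000a204013848e008c23c00028020007123800208f00006e08001448e001023c0001b020056123802a08f00006a08002448e000a23c0001a020006123800408f00006608013c48e008a23c0001902000511e0000c40800105880004204018000400940018040582)))) 
(.lf (nat_lit 3492610088) (dlOf (nat_lit 19) (nat_lit 0x1683fa01d41e201050b280bf057808fc2b802601520003a0600390fe80220578000e6081e1c3fa0c2e15f061a09c0001c81800f07a000842be00441380003883001f0fe806e057c030c270000700603521fd00700af803504e000e00000006f08002c1fd01010af802b854003f0270006e0000003705008e0fe8055857c02ac2700002406026c1fd000409c000088100ee87f400183d0015e15f008609c000084200fb07f4001c3d0001c15f0001003000c0fe801e07a000f42be00801380000f84019f0fe802387a002302be01181380000e0401a10fe803c07a001942be00d01380000d8400010af8000680804687f4000320400d83fa000180202b41fd00fb0af0000001000c80080048002000600080e0503))))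 
(.nd (nat_lit 7) (.nd (nat_lit 8) 
(.lf (nat_lit 872742952) (dlOf (nat_lit 2) (nat_lit 0x1807000a00370029019802680c800280480096010000170680b0380))) 
(.lf (nat_lit 4095019816) (dlOf (nat_lit 1) (nat_lit 0x400400020008055c02)))) 
(.lf (nat_lit 805634216) (dlOf (nat_lit 1) (nat_lit 0x40028154c01))))) (.nd (nat_lit 7) 
(.nd (nat_lit 26) (.nd (nat_lit 29) (.nd (nat_lit 31) 
(.lf (nat_lit 4697948200) (dlOf (nat_lit 1) (nat_lit 0x4004000200080d0282))) 
(.lf (nat_lit 2550464552) (dlOf (nat_lit 1) (nat_lit 0x100080054002006a00080c0c03)))) 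
(.lf (nat_lit 3087335464) (dlOf (nat_lit 1) (nat_lit 0x8002000200081a0582)))) (.nd (nat_lit 29) 
(.lf (nat_lit 470089768) (dlOf (nat_lit 15) (nat_lit 0x8247000411e0001541000308f0000a804016448e00ac23c000298200031238001480800288f0000a204013848e008c23c00028020007123800208f00006e08001448e001023c0001b020056123802a08f00006a08002448e000a23c0001a020006123800408f00006608013c48e008a23c0001902000511e0000c40800105880004204018000400940018040582))) 
(.lf (nat_lit 2080702504) (dlOf (nat_lit 5) (nat_lit 0x2100a4000260401cc0520000f0200ea029000068100810148000300800080080010002000e00080b0383))))) 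
(.nd (nat_lit 8) (.lf (nat_lit 402981032) (dlOf (nat_lit 1) (nat_lit 0x1c00180c1401))) 
(.lf (nat_lit 5771692968) (dlOf (nat_lit 1) (nat_lit 0x60008005d01))))))))) (.nd (nat_lit 18) 
(.nd (nat_lit 8) (.nd (nat_lit 19) (.nd (nat_lit 16) (.nd (nat_lit 9) (.nd (nat_lit 20) 
(.nd (nat_lit 10) (.nd (nat_lit 22) 
(.lf (nat_lit 44048424) (dlOf (nat_lit 1) (nat_lit 0x4002000200092b0a02))) 
(.lf (nat_lit 23076904) (dlOf (nat_lit 1) (nat_lit 0x380008b50601)))) 
(.lf (nat_lit 469775400) (dlOf (nat_lit 1) (nat_lit 0x2400400160008009202)))) (.nd (nat_lit 22) 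
(.lf (nat_lit 26222632) (dlOf (nat_lit 1) (nat_lit 0x1800400040018c20902))) 
(.lf (nat_lit 22028328) (dlOf (nat_lit 2) (nat_lit 0xc0000002102000a0028a90581))))) 
(.nd (nat_lit 7) (.nd (nat_lit 10) 
(.lf (nat_lit 536885800) (dlOf (nat_lit 2) (nat_lit 0xb02580298808030000800040020006000800b283))) 
(.lf (nat_lit 2754620968) (dlOf (nat_lit 2) (nat_lit 0x100e8001440800500080028002000c00080f7183)))) 
(.nd (nat_lit 10) (.lf (nat_lit 8401576) (dlOf (nat_lit 1) (nat_lit 0x400200020008518c82))) 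
(.nd (nat_lit 11) (.lf (nat_lit 2415929000) (dlOf (nat_lit 1) (nat_lit 0x80028003a81))) 
(.lf (nat_lit 2754621096) (dlOf (nat_lit 2) (nat_lit 0x200e8000a00800180080010002000200080f7203))))))) 
(.nd (nat_lit 10) (.nd (nat_lit 20) (.nd (nat_lit 22) 
(.lf (nat_lit 1677795368) (dlOf (nat_lit 1) (nat_lit 0x800400660008090002))) 
(.lf (nat_lit 21045288) (dlOf (nat_lit 5) (nat_lit 0x2ed380003a04002b69c0001c020005b4e0000d810004da70000500800e800800c800200300008a00983)))) 
(.nd (nat_lit 22) (.lf (nat_lit 1343299624) (dlOf (nat_lit 1) (nat_lit 0x4002000c00081e0682))) 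
(.nd (nat_lit 23) 
(.lf (nat_lit 22093864) (dlOf (nat_lit 2) (nat_lit 0x36770000840800080080014002000a0008a90583))) 
(.lf (nat_lit 13705256) (dlOf (nat_lit 2) (nat_lit 0x29c540007e0401c000400400008740502)))))) 
(.nd (nat_lit 9) (.lf (nat_lit 2550213672) (dlOf (nat_lit 1) (nat_lit 0x4e0018006081))) 
(.nd (nat_lit 26) 
(.lf (nat_lit 6308308520) (dlOf (nat_lit 2) (nat_lit 0x100280000004000400200040008053702))) 
(.lf (nat_lit 4496369192) (dlOf (nat_lit 2) (nat_lit 0x200d000000080070008001800200140008053703))))))) 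
(.nd (nat_lit 31) (.nd (nat_lit 21) (.nd (nat_lit 20) (.nd (nat_lit 9) 
(.lf (nat_lit 5906112552) (dlOf (nat_lit 1) (nat_lit 0x324002016a00081c0582))) 
(.lf (nat_lit 50864680) (dlOf (nat_lit 1) (nat_lit 0x4004000400094d8882)))) (.nd (nat_lit 22) 
(.lf (nat_lit 26746920) (dlOf (nat_lit 1) (nat_lit 0x140018c70701))) 
(.lf (nat_lit 30941224) (dlOf (nat_lit 1) (nat_lit 0xc0028e50b01))))) (.nd (nat_lit 16) 
(.nd (nat_lit 22) (.nd (nat_lit 23) 
(.lf (nat_lit 2629672) (dlOf (nat_lit 6) (nat_lit 0xa970000d4a40000e04000ea5c000652900003410002a9480001804001d4a40000b020004a5e000552a000000100048008000800200320008180a03))) 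
(.lf (nat_lit 11018280) (dlOf (nat_lit 1) (nat_lit 0xe0008650881)))) 
(.lf (nat_lit 15212584) (dlOf (nat_lit 1) (nat_lit 0x8002000200087c0682)))) 
(.lf (nat_lit 11083816) (dlOf (nat_lit 1) (nat_lit 0x5000800d400200060008660683))))) 
(.nd (nat_lit 29) (.nd (nat_lit 26) (.nd (nat_lit 16) (.nd (nat_lit 21) 
(.lf (nat_lit 3221757992) (dlOf (nat_lit 3) (nat_lit 0x4043000202100028100000807e00d48080004040006a3018170000))) 
(.lf (nat_lit 3492290600) (dlOf (nat_lit 2) (nat_lit 0x608b000110180c0c00)))) 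
(.lf (nat_lit 3494453288) (dlOf (nat_lit 2) (nat_lit 0xc40000001b018230500)))) (.nd (nat_lit 30) 
(.lf (nat_lit 6510092328) (dlOf (nat_lit 1) (nat_lit 0x324002016a00081c0582))) 
(.lf (nat_lit 3288866856) (dlOf (nat_lit 2) (nat_lit 0x50030001000000ebe080010004000200181d0a02))))) 
(.nd (nat_lit 16) (.nd (nat_lit 27) 
(.lf (nat_lit 4027064360) (dlOf (nat_lit 2) (nat_lit 0x500300010000019b4080010004000200181d0a02))) 
(.lf (nat_lit 2819104808) (dlOf (nat_lit 1) (nat_lit 0x26000801b800200d800081a0683)))) 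
(.nd (nat_lit 21) (.nd (nat_lit 22) 
(.lf (nat_lit 3892912168) (dlOf (nat_lit 1) (nat_lit 0x90008008000200220008290d83))) 
(.lf (nat_lit 2756255784) (dlOf (nat_lit 2) (nat_lit 0xc40000001e018230500)))) 
(.lf (nat_lit 2754158632) (dlOf (nat_lit 1) (nat_lit 0x4002000200080c0d02)))))))) (.nd (nat_lit 7) 
(.nd (nat_lit 26) (.nd (nat_lit 16) (.nd (nat_lit 19) (.nd (nat_lit 28) 
(.lf (nat_lit 2818583336) (dlOf (nat_lit 1) (nat_lit 0x38008000400200020008005c03))) 
(.lf (nat_lit 4697631528) (dlOf (nat_lit 2) (nat_lit 0x288066001bc02000e0018005c01)))) 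
(.lf (nat_lit 20458280) (dlOf (nat_lit 2) (nat_lit 0x785640048e040004002000200089d5c02)))) 
(.nd (nat_lit 9) (.lf (nat_lit 5772485928) (dlOf (nat_lit 1) (nat_lit 0x400200020008093182))) 
(.nd (nat_lit 19) 
(.lf (nat_lit 5637221160) (dlOf (nat_lit 2) (nat_lit 0x3c0080014003000aa028055c00))) 
(.lf (nat_lit 46738216) (dlOf (nat_lit 1) (nat_lit 0xe400400640009385c02)))))) (.nd (nat_lit 9) 
(.nd (nat_lit 10) (.lf (nat_lit 4362090792) (dlOf (nat_lit 1) (nat_lit 0x80040002001800ab82))) 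
(.nd (nat_lit 12) 
(.lf (nat_lit 4227869992) (dlOf (nat_lit 1) (nat_lit 0x8008000400200020008006803))) 
(.lf (nat_lit 469777704) (dlOf (nat_lit 1) (nat_lit 0x800800dc0020006000800c603))))) 
(.nd (nat_lit 12) (.nd (nat_lit 27) 
(.lf (nat_lit 872426280) (dlOf (nat_lit 1) (nat_lit 0x8008000400200020008005c03))) 
(.lf (nat_lit 2080385832) (dlOf (nat_lit 1) (nat_lit 0x400400040018005c02)))) 
(.lf (nat_lit 2885696296) (dlOf (nat_lit 2) (nat_lit 0x202e000600b801544100050008001c002000c000800bc83)))))) 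
(.nd (nat_lit 29) (.nd (nat_lit 11) (.nd (nat_lit 20) 
(.lf (nat_lit 3221758376) (dlOf (nat_lit 2) (nat_lit 0xd00d4010c604001800400120008170782))) 
(.lf (nat_lit 43524520) (dlOf (nat_lit 1) (nat_lit 0x7800292a1001)))) (.nd (nat_lit 9) 
(.nd (nat_lit 10) (.lf (nat_lit 50407848) (dlOf (nat_lit 1) (nat_lit 0x400194c4e81))) 
(.lf (nat_lit 1543581096) (dlOf (nat_lit 1) (nat_lit 0x240028146d01)))) 
(.lf (nat_lit 1342192552) (dlOf (nat_lit 1) (nat_lit 0x2001800bd01))))) (.nd (nat_lit 30) 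
(.nd (nat_lit 16) (.lf (nat_lit 2754619816) (dlOf (nat_lit 1) (nat_lit 0x4002000200080f4e82))) 
(.nd (nat_lit 27) (.lf (nat_lit 4831914408) (dlOf (nat_lit 1) (nat_lit 0x740018054e81))) 
(.lf (nat_lit 5234567592) (dlOf (nat_lit 1) (nat_lit 0x800400020008054e82))))) (.nd (nat_lit 11) 
(.nd (nat_lit 19) (.lf (nat_lit 1677795752) (dlOf (nat_lit 2) (nat_lit 0xa605400000018090780))) 
(.lf (nat_lit 1880695208) (dlOf (nat_lit 1) (nat_lit 0xe0028b36e81)))) 
(.lf (nat_lit 3758172584) (dlOf (nat_lit 1) (nat_lit 0x4004000200080d4e82)))))))) (.nd (nat_lit 16) 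
(.nd (nat_lit 28) (.nd (nat_lit 26) (.nd (nat_lit 21) (.nd (nat_lit 23) (.nd (nat_lit 7) 
(.lf (nat_lit 3758366760) (dlOf (nat_lit 1) (nat_lit 0x1000400080008140902))) 
(.lf (nat_lit 2818847400) (dlOf (nat_lit 1) (nat_lit 0x27000801bc00201720008128c83)))) 
(.nd (nat_lit 19) (.lf (nat_lit 25436200) (dlOf (nat_lit 2) (nat_lit 0xdeb010001f818c00500))) 
(.lf (nat_lit 27009064) (dlOf (nat_lit 2) (nat_lit 0x138000000be040140002001a0008ca0682))))) 
(.nd (nat_lit 19) (.nd (nat_lit 20) 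
(.lf (nat_lit 10756136) (dlOf (nat_lit 2) (nat_lit 0x5f23800005404000800400020018620582))) 
(.lf (nat_lit 15999016) (dlOf (nat_lit 1) (nat_lit 0xa0028850981)))) 
(.lf (nat_lit 53223464) (dlOf (nat_lit 1) (nat_lit 0x40019570001))))) (.nd (nat_lit 30) 
(.nd (nat_lit 9) 
(.lf (nat_lit 2754355240) (dlOf (nat_lit 1) (nat_lit 0x80080004002000200080e0503))) 
(.lf (nat_lit 4899220008) (dlOf (nat_lit 1) (nat_lit 0x4004002a00180d5182)))) (.nd (nat_lit 7) 
(.nd (nat_lit 27) (.nd (nat_lit 31) 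
(.lf (nat_lit 1677991976) (dlOf (nat_lit 5) (nat_lit 0x2021001500380030018000600400210000000842800081080004004009401c0008004000400000007418000803800038040064002001a0008130582))) 
(.lf (nat_lit 3825475624) (dlOf (nat_lit 2) (nat_lit 0x602000000018160500)))) 
(.lf (nat_lit 1812209704) (dlOf (nat_lit 8) (nat_lit 0xc026000570200120130002b01000c0000001080800700000005e0400380000002d02000c0000001501000c0000000a4080020008000c00200040008180583)))) 
(.lf (nat_lit 5436088488) (dlOf (nat_lit 2) (nat_lit 0x100a00008008013800800e0002004000080c1483)))))) 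
(.nd (nat_lit 8) (.nd (nat_lit 19) (.nd (nat_lit 31) (.nd (nat_lit 27) 
(.lf (nat_lit 805576744) (dlOf (nat_lit 5) (nat_lit 0x2021001500380030018000600400210000000842800081080004004009401c0008004000400000007418000803800038040064002001a0008130582))) 
(.lf (nat_lit 939794472) (dlOf (nat_lit 8) (nat_lit 0xc026000570200120130002b01000c0000001080800700000005e0400380000002d02000c0000001501000c0000000a4080020008000c00200040008180583)))) 
(.nd (nat_lit 26) (.lf (nat_lit 3087278120) (dlOf (nat_lit 2) (nat_lit 0x602000000018160500))) 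
(.lf (nat_lit 3691257896) (dlOf (nat_lit 2) (nat_lit 0x6015006f0030000001000280080030002000c0008100703))))) 
(.nd (nat_lit 20) 
(.lf (nat_lit 3492552744) (dlOf (nat_lit 1) (nat_lit 0x80080004002000200080e0503))) 
(.nd (nat_lit 26) 
(.lf (nat_lit 5773205544) (dlOf (nat_lit 2) (nat_lit 0xb02c40005c040004004002a00080b0382))) 
(.lf (nat_lit 6377185320) (dlOf (nat_lit 2) (nat_lit 0xb02d000056040004004002a00080b0382)))))) 
(.nd (nat_lit 7) (.nd (nat_lit 9) (.nd (nat_lit 27) 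
(.lf (nat_lit 3489934632) (dlOf (nat_lit 4) (nat_lit 0x104580008c08000822c00044040030116000000200020018006801))) 
(.lf (nat_lit 3624152360) (dlOf (nat_lit 1) (nat_lit 0x400400020008146802)))) (.nd (nat_lit 19) 
(.lf (nat_lit 6241397544) (dlOf (nat_lit 1) (nat_lit 0x600280d5c01))) 
(.lf (nat_lit 1008479016) (dlOf (nat_lit 2) (nat_lit 0x500d5000d1818c95c00))))) (.nd (nat_lit 9) 
(.nd (nat_lit 11) (.lf (nat_lit 5772681640) (dlOf (nat_lit 1) (nat_lit 0x800200300008091002))) 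
(.lf (nat_lit 3489933736) (dlOf (nat_lit 1) (nat_lit 0x20008004e81)))) 
(.lf (nat_lit 3489938344) (dlOf (nat_lit 1) (nat_lit 0xc0020004000800bd02))))))) (.nd (nat_lit 20) 
(.nd (nat_lit 26) (.nd (nat_lit 19) (.nd (nat_lit 28) (.nd (nat_lit 21) (.nd (nat_lit 22) 
(.lf (nat_lit 3221561384) (dlOf (nat_lit 2) (nat_lit 0x5c00000004818140580))) 
(.lf (nat_lit 12918824) (dlOf (nat_lit 1) (nat_lit 0x80080004002000200086e0a03)))) 
(.lf (nat_lit 2433064) (dlOf (nat_lit 1) (nat_lit 0x30002001a0008160902)))) (.nd (nat_lit 29) 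
(.nd (nat_lit 30) (.lf (nat_lit 2416255016) (dlOf (nat_lit 1) (nat_lit 0x6c002006200080c0d02))) 
(.lf (nat_lit 1342513192) (dlOf (nat_lit 15) (nat_lit 0x2839e00081cd00040e580038714000aa10002c39e00061cb00050e28001501802e0744019438a000530400061d1000290100040e8800a0714000a20801143a2000a1cf00420e280014018005073c001439a000e1c50001b8300020e8800187140006c0801643a200701cd00630e28000d4180060744001839e00021cd00070e28000d0200068744002839a001a1c5000198300470e88003073c00c439a00881c5000190400020e28000c408026058800c416c007e01300410078000842000d00080160002000e0008040583)))) 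
(.lf (nat_lit 805642280) (dlOf (nat_lit 2) (nat_lit 0xc81400004204000c00400040008160582))))) 
(.nd (nat_lit 7) (.nd (nat_lit 21) 
(.lf (nat_lit 2819432488) (dlOf (nat_lit 1) (nat_lit 0x300080058002001e0008280703))) 
(.lf (nat_lit 11345960) (dlOf (nat_lit 1) (nat_lit 0x600080004002000e0008690603)))) 
(.lf (nat_lit 36514216) (dlOf (nat_lit 1) (nat_lit 0x20019074e81))))) (.nd (nat_lit 7) 
(.nd (nat_lit 29) (.nd (nat_lit 28) 
(.lf (nat_lit 201662504) (dlOf (nat_lit 4) (nat_lit 0x36012c0be0084039604101e901f00cf00f4064c07200aa038018e01880a20050015402405a2011008b0080000a06007d010803440220001d04035e031002e01601450044000300c0030002000c0008070802))) 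
(.lf (nat_lit 470097960) (dlOf (nat_lit 15) (nat_lit 0x2839e00081cd00040e580038714000aa10002c39e00061cb00050e28001501802e0744019438a000530400061d1000290100040e8800a0714000a20801143a2000a1cf00420e280014018005073c001439a000e1c50001b8300020e8800187140006c0801643a200701cd00630e28000d4180060744001839e00021cd00070e28000d0200068744002839a001a1c5000198300470e88003073c00c439a00881c5000190400020e28000c408026058800c416c007e04700410220000842000d00080160002000e0008040583)))) 
(.nd (nat_lit 27) 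
(.lf (nat_lit 1678057512) (dlOf (nat_lit 2) (nat_lit 0xc81400004204000c00400040008160582))) 
(.lf (nat_lit 3959758888) (dlOf (nat_lit 2) (nat_lit 0x5c00000004818140580))))) (.nd (nat_lit 8) 
(.lf (nat_lit 738533544) (dlOf (nat_lit 1) (nat_lit 0xa200080a2c01))) 
(.lf (nat_lit 2886018984) (dlOf (nat_lit 1) (nat_lit 0x10008001400200020008144303)))))) 
(.nd (nat_lit 23) (.nd (nat_lit 7) (.nd (nat_lit 9) (.nd (nat_lit 19) 
(.lf (nat_lit 5578792) (dlOf (nat_lit 1) (nat_lit 0x14004000400183a0782))) 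
(.lf (nat_lit 471670824) (dlOf (nat_lit 1) (nat_lit 0xa00183c0601)))) 
(.lf (nat_lit 58008104) (dlOf (nat_lit 2) (nat_lit 0x152f4800290cc000f2080028002000400097a8882)))) 
(.nd (nat_lit 9) (.nd (nat_lit 26) 
(.lf (nat_lit 5773271208) (dlOf (nat_lit 1) (nat_lit 0x18004001800180c1402))) 
(.lf (nat_lit 6377250984) (dlOf (nat_lit 1) (nat_lit 0x100080128002003600080c1483)))) 
(.lf (nat_lit 20262568) (dlOf (nat_lit 1) (nat_lit 0x4004000200089d7202))))) (.nd (nat_lit 19) 
(.nd (nat_lit 9) (.lf (nat_lit 62201896) (dlOf (nat_lit 1) (nat_lit 0x20019970981))) 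
(.lf (nat_lit 45427240) (dlOf (nat_lit 1) (nat_lit 0x20019325181)))) (.nd (nat_lit 25) 
(.nd (nat_lit 24) (.lf (nat_lit 10297384) (dlOf (nat_lit 1) (nat_lit 0x8002000600085d0582))) 
(.lf (nat_lit 27074600) (dlOf (nat_lit 2) (nat_lit 0x13323a006f88200a0ad6802ed1a4000be10008c00200080008ca0682)))) 
(.nd (nat_lit 7) 
(.lf (nat_lit 43851816) (dlOf (nat_lit 2) (nat_lit 0x560700339c0801080080004002001400092a0003))) 
(.lf (nat_lit 43852200) (dlOf (nat_lit 7) (nat_lit 0x83038002d204001981c00168020008c0e000b301000860700058c08001b0380005e04000581c0001d02005a00092a1001))))))))))) 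
(.nd (nat_lit 28) (.nd (nat_lit 8) (.nd (nat_lit 16) (.nd (nat_lit 7) (.nd (nat_lit 9) 
(.nd (nat_lit 19) (.nd (nat_lit 10) (.nd (nat_lit 13) 
(.lf (nat_lit 12583016) (dlOf (nat_lit 2) (nat_lit 0x78715000634b00004010007000801ac002000c00086d1403))) 
(.lf (nat_lit 2349080680) (dlOf (nat_lit 8) (nat_lit 0x980500002b0201100280001381009701400007c0804b80a0000380400f40500001802008e0270000981002d0140000000800e80080020002005400080a1403)))) 
(.lf (nat_lit 2818849896) (dlOf (nat_lit 7) (nat_lit 0x32021001d00fc000500800b8084006c03f0001302003d01b0001806c0004a0800e806c00023020012072000301b00006c1000a00d8000300400c800200fe000812c082)))) 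
(.nd (nat_lit 22) (.nd (nat_lit 29) 
(.lf (nat_lit 4362600552) (dlOf (nat_lit 5) (nat_lit 0x2c80cc0002004001c0660000f0200a2033000070100020198000200802000080044002002800080a1403))) 
(.lf (nat_lit 1678245992) (dlOf (nat_lit 1) (nat_lit 0x980080014002001400081b1403)))) 
(.lf (nat_lit 55050344) (dlOf (nat_lit 1) (nat_lit 0x1000400080009690782))))) (.nd (nat_lit 18) 
(.nd (nat_lit 13) (.nd (nat_lit 19) 
(.lf (nat_lit 2818574952) (dlOf (nat_lit 1) (nat_lit 0xa0028005381))) 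
(.lf (nat_lit 46664296) (dlOf (nat_lit 1) (nat_lit 0x20029385381)))) 
(.lf (nat_lit 46672488) (dlOf (nat_lit 1) (nat_lit 0x20029385381)))) (.nd (nat_lit 11) 
(.lf (nat_lit 8127080) (dlOf (nat_lit 1) (nat_lit 0x8008002c002000e0008511803))) (.nd (nat_lit 19) 
(.lf (nat_lit 60033640) (dlOf (nat_lit 1) (nat_lit 0x400200040009845382))) 
(.lf (nat_lit 46926440) (dlOf (nat_lit 2) (nat_lit 0x10673800ab2c80007608000800400340019385382))))))) 
(.nd (nat_lit 13) (.nd (nat_lit 10) (.nd (nat_lit 18) 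
(.lf (nat_lit 28836072) (dlOf (nat_lit 1) (nat_lit 0x8008002000200100008da0603))) 
(.lf (nat_lit 22282472) (dlOf (nat_lit 1) (nat_lit 0xc00200020008ab6b82)))) (.nd (nat_lit 26) 
(.lf (nat_lit 5502928104) (dlOf (nat_lit 1) (nat_lit 0x48008004800200060008002e03))) 
(.nd (nat_lit 27) 
(.lf (nat_lit 5435819240) (dlOf (nat_lit 2) (nat_lit 0x7009800100080028008001800200160008002e03))) 
(.lf (nat_lit 6106907880) (dlOf (nat_lit 1) (nat_lit 0x400200020008002e02)))))) (.nd (nat_lit 11) 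
(.nd (nat_lit 9) (.nd (nat_lit 10) 
(.lf (nat_lit 1057000) (dlOf (nat_lit 1) (nat_lit 0x8008000400200020008066b83))) 
(.lf (nat_lit 61351144) (dlOf (nat_lit 4) (nat_lit 0x61bf00080ca000201380008c0c00083a000041bf000d0ca000501380008a1000103a000021bf000d0ca000601380007010004c00400040019922e02)))) 
(.lf (nat_lit 3825215208) (dlOf (nat_lit 1) (nat_lit 0x1cc00202820008003b02)))) (.nd (nat_lit 19) 
(.lf (nat_lit 5972700392) (dlOf (nat_lit 1) (nat_lit 0x20028006501))) 
(.lf (nat_lit 535784) (dlOf (nat_lit 1) (nat_lit 0x800400040018006502))))))) (.nd (nat_lit 13) 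
(.nd (nat_lit 7) (.nd (nat_lit 18) (.nd (nat_lit 9) (.nd (nat_lit 21) 
(.lf (nat_lit 42532968) (dlOf (nat_lit 2) (nat_lit 0x27408004182500009829260980))) 
(.lf (nat_lit 36241512) (dlOf (nat_lit 2) (nat_lit 0x724ae00028819050980)))) 
(.lf (nat_lit 5368777320) (dlOf (nat_lit 1) (nat_lit 0x20028005381)))) (.nd (nat_lit 10) 
(.lf (nat_lit 42795112) (dlOf (nat_lit 3) (nat_lit 0x13ad20009b8c0000982001c75100002808007800800f800200600009280983))) 
(.lf (nat_lit 20780136) (dlOf (nat_lit 2) (nat_lit 0x4a94400054780002204000200289d9401))))) 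
(.nd (nat_lit 29) (.nd (nat_lit 10) (.nd (nat_lit 11) 
(.lf (nat_lit 1208025320) (dlOf (nat_lit 2) (nat_lit 0xc6012801380200017a080018004000a0018090a82))) 
(.lf (nat_lit 2348878056) (dlOf (nat_lit 4) (nat_lit 0x1602a000170100140150000a80800180000003004002c00200040008004b02)))) 
(.lf (nat_lit 7931112) (dlOf (nat_lit 1) (nat_lit 0x220008512e01)))) (.nd (nat_lit 9) 
(.nd (nat_lit 11) 
(.lf (nat_lit 1744896232) (dlOf (nat_lit 2) (nat_lit 0x6d00e0026006a01ae03300d90120002f42000880080004002000a0008090a83))) 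
(.lf (nat_lit 2886011112) (dlOf (nat_lit 1) (nat_lit 0x20008144b01)))) 
(.lf (nat_lit 671155944) (dlOf (nat_lit 1) (nat_lit 0x400400020008143b02)))))) (.nd (nat_lit 22) 
(.nd (nat_lit 10) (.nd (nat_lit 7) 
(.lf (nat_lit 42541160) (dlOf (nat_lit 1) (nat_lit 0x128002000e0009260982))) (.nd (nat_lit 29) 
(.lf (nat_lit 1208033512) (dlOf (nat_lit 2) (nat_lit 0xe4012804a80200364000000bd0600020018090a81))) 
(.lf (nat_lit 1744904424) (dlOf (nat_lit 2) (nat_lit 0x203300340120002f4100008008001000200020008090a83))))) 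
(.nd (nat_lit 18) 
(.lf (nat_lit 2885758184) (dlOf (nat_lit 2) (nat_lit 0x50000000b4080010008006000200220008006503))) 
(.lf (nat_lit 2754948328) (dlOf (nat_lit 2) (nat_lit 0x280700005a040008004000400180f6502))))) 
(.nd (nat_lit 19) (.nd (nat_lit 7) 
(.lf (nat_lit 12656744) (dlOf (nat_lit 2) (nat_lit 0x103db000080186d1400))) (.nd (nat_lit 18) 
(.lf (nat_lit 30482664) (dlOf (nat_lit 1) (nat_lit 0x80028e30601))) 
(.lf (nat_lit 46473448) (dlOf (nat_lit 1) (nat_lit 0x4e0029380a81))))) (.nd (nat_lit 9) 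
(.lf (nat_lit 7939304) (dlOf (nat_lit 1) (nat_lit 0x1520008512e01))) 
(.lf (nat_lit 7942888) (dlOf (nat_lit 1) (nat_lit 0x400200020008518d82)))))))) (.nd (nat_lit 29) 
(.nd (nat_lit 10) (.nd (nat_lit 16) (.nd (nat_lit 30) (.nd (nat_lit 22) (.nd (nat_lit 11) 
(.lf (nat_lit 6509830632) (dlOf (nat_lit 1) (nat_lit 0x200028157301))) (.nd (nat_lit 27) 
(.lf (nat_lit 4294969832) (dlOf (nat_lit 1) (nat_lit 0x400400020008004e82))) 
(.lf (nat_lit 134220264) (dlOf (nat_lit 1) (nat_lit 0x8008000400200020008004e83))))) 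
(.nd (nat_lit 7) (.lf (nat_lit 24117608) (dlOf (nat_lit 1) (nat_lit 0x400200020008b80702))) 
(.nd (nat_lit 18) (.lf (nat_lit 39848424) (dlOf (nat_lit 1) (nat_lit 0x124002006800091f4e82))) 
(.lf (nat_lit 47974888) (dlOf (nat_lit 1) (nat_lit 0x8008000400200020009404e83)))))) 
(.nd (nat_lit 9) (.nd (nat_lit 26) 
(.lf (nat_lit 5368711656) (dlOf (nat_lit 1) (nat_lit 0x400400020008004e82))) 
(.lf (nat_lit 3288336872) (dlOf (nat_lit 1) (nat_lit 0x8008000400200040008004e83)))) 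
(.nd (nat_lit 7) (.lf (nat_lit 3422557032) (dlOf (nat_lit 1) (nat_lit 0x400400020008008f82))) 
(.lf (nat_lit 5368712168) (dlOf (nat_lit 2) (nat_lit 0x2800a0000402001e0018005e81)))))) 
(.nd (nat_lit 21) (.nd (nat_lit 7) (.nd (nat_lit 9) (.nd (nat_lit 13) 
(.lf (nat_lit 6442778984) (dlOf (nat_lit 1) (nat_lit 0x180080004002000200081b0703))) 
(.lf (nat_lit 3221299560) (dlOf (nat_lit 2) (nat_lit 0x4600000003818090700)))) 
(.lf (nat_lit 3288406888) (dlOf (nat_lit 1) (nat_lit 0x2001800bc81)))) (.nd (nat_lit 13) 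
(.lf (nat_lit 46467560) (dlOf (nat_lit 1) (nat_lit 0x400400020009384e82))) 
(.lf (nat_lit 47524328) (dlOf (nat_lit 1) (nat_lit 0xa0019404e81))))) (.nd (nat_lit 13) 
(.nd (nat_lit 7) 
(.lf (nat_lit 3473768) (dlOf (nat_lit 2) (nat_lit 0x56dcc8000c40800a00080040002000a0008200703))) 
(.nd (nat_lit 9) 
(.lf (nat_lit 23396840) (dlOf (nat_lit 3) (nat_lit 0xad96001706600016020008bac00045d340022e8e001172f0005b6580045a94002216e000d06600015888b80c80))) 
(.lf (nat_lit 56951784) (dlOf (nat_lit 1) (nat_lit 0x1c80019792881))))) (.nd (nat_lit 11) 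
(.lf (nat_lit 11608552) (dlOf (nat_lit 1) (nat_lit 0x760002020c00086c0c82))) 
(.lf (nat_lit 58534376) (dlOf (nat_lit 1) (nat_lit 0x4004000200197e4e82))))))) (.nd (nat_lit 13) 
(.nd (nat_lit 9) (.nd (nat_lit 11) (.nd (nat_lit 12) 
(.lf (nat_lit 61867496) (dlOf (nat_lit 1) (nat_lit 0x10008000800200060009923603))) 
(.lf (nat_lit 67900904) (dlOf (nat_lit 1) (nat_lit 0x1000018339b81)))) (.nd (nat_lit 7) 
(.lf (nat_lit 3288337768) (dlOf (nat_lit 1) (nat_lit 0x4004002a0008006a82))) 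
(.lf (nat_lit 3288337896) (dlOf (nat_lit 1) (nat_lit 0x30008000400200020008006e83))))) 
(.nd (nat_lit 7) (.lf (nat_lit 67114856) (dlOf (nat_lit 1) (nat_lit 0x6001800a301))) 
(.nd (nat_lit 26) (.lf (nat_lit 6576670696) (dlOf (nat_lit 1) (nat_lit 0x1000028004601))) 
(.lf (nat_lit 6509561832) (dlOf (nat_lit 2) (nat_lit 0x200980000004000400200020008004602)))))) 
(.nd (nat_lit 18) (.nd (nat_lit 9) (.nd (nat_lit 19) 
(.lf (nat_lit 1207969256) (dlOf (nat_lit 1) (nat_lit 0x28008000400200020008003603))) 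
(.lf (nat_lit 43525608) (dlOf (nat_lit 1) (nat_lit 0x80080004002000200092a3603)))) 
(.nd (nat_lit 26) 
(.lf (nat_lit 3221235688) (dlOf (nat_lit 2) (nat_lit 0x80000005204002c002000c0008004602))) 
(.lf (nat_lit 6509570024) (dlOf (nat_lit 1) (nat_lit 0x2b8008005000200fe0008004603))))) 
(.nd (nat_lit 16) (.nd (nat_lit 23) 
(.lf (nat_lit 53224936) (dlOf (nat_lit 1) (nat_lit 0x400400020009573602))) 
(.lf (nat_lit 61613544) (dlOf (nat_lit 1) (nat_lit 0x300029923601)))) (.nd (nat_lit 9) 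
(.lf (nat_lit 43853288) (dlOf (nat_lit 1) (nat_lit 0x4480080138002002c00092a3603))) 
(.lf (nat_lit 337896) (dlOf (nat_lit 1) (nat_lit 0x100028004601)))))))) (.nd (nat_lit 31) 
(.nd (nat_lit 11) (.nd (nat_lit 7) (.nd (nat_lit 9) (.nd (nat_lit 10) 
(.lf (nat_lit 1812013416) (dlOf (nat_lit 1) (nat_lit 0x40004001c00080b0702))) 
(.lf (nat_lit 604505448) (dlOf (nat_lit 1) (nat_lit 0x400282d3481)))) (.nd (nat_lit 10) 
(.lf (nat_lit 6039802728) (dlOf (nat_lit 1) (nat_lit 0x400400020008008f82))) 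
(.lf (nat_lit 536938344) (dlOf (nat_lit 1) (nat_lit 0x1c0018004001))))) (.nd (nat_lit 13) 
(.nd (nat_lit 18) 
(.lf (nat_lit 1744831976) (dlOf (nat_lit 2) (nat_lit 0xa0168005b00800500080058002000c0008003603))) 
(.lf (nat_lit 1610876392) (dlOf (nat_lit 1) (nat_lit 0x20018093601)))) 
(.lf (nat_lit 1610884584) (dlOf (nat_lit 1) (nat_lit 0x400400020018093602))))) (.nd (nat_lit 9) 
(.nd (nat_lit 7) (.lf (nat_lit 671104360) (dlOf (nat_lit 1) (nat_lit 0x1f8000800c901))) 
(.nd (nat_lit 16) (.lf (nat_lit 5033167336) (dlOf (nat_lit 1) (nat_lit 0x400400020008004e82))) 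
(.lf (nat_lit 1744898536) (dlOf (nat_lit 1) (nat_lit 0x400400020008094e82))))) (.nd (nat_lit 13) 
(.nd (nat_lit 7) 
(.lf (nat_lit 5033167720) (dlOf (nat_lit 1) (nat_lit 0x8008000400200020008005c03))) 
(.lf (nat_lit 738462696) (dlOf (nat_lit 1) (nat_lit 0x400200020008095e82)))) (.nd (nat_lit 16) 
(.lf (nat_lit 738470888) (dlOf (nat_lit 1) (nat_lit 0x400200020008095e82))) 
(.lf (nat_lit 738274280) (dlOf (nat_lit 1) (nat_lit 0x8008000400200020008095e83))))))) 
(.nd (nat_lit 7) (.nd (nat_lit 12) (.nd (nat_lit 13) (.nd (nat_lit 11) 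
(.lf (nat_lit 2752512360) (dlOf (nat_lit 2) (nat_lit 0x701f80296c0800380080110002000c0008015203))) 
(.lf (nat_lit 3758164328) (dlOf (nat_lit 1) (nat_lit 0x400280d4e81)))) (.nd (nat_lit 16) 
(.lf (nat_lit 2755666280) (dlOf (nat_lit 1) (nat_lit 0x200181b0701))) 
(.lf (nat_lit 3959497064) (dlOf (nat_lit 2) (nat_lit 0x4600000003818090700))))) (.nd (nat_lit 10) 
(.lf (nat_lit 2818838888) (dlOf (nat_lit 1) (nat_lit 0xb00028128381))) (.nd (nat_lit 11) 
(.lf (nat_lit 2818848104) (dlOf (nat_lit 1) (nat_lit 0x3c0008129901))) 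
(.lf (nat_lit 3959430504) (dlOf (nat_lit 2) (nat_lit 0x20310033381800c900)))))) (.nd (nat_lit 10) 
(.nd (nat_lit 11) (.nd (nat_lit 13) 
(.lf (nat_lit 2751726568) (dlOf (nat_lit 1) (nat_lit 0x400200020008002882))) 
(.lf (nat_lit 2751472616) (dlOf (nat_lit 1) (nat_lit 0x20018002881)))) 
(.lf (nat_lit 2818849768) (dlOf (nat_lit 2) (nat_lit 0x1101b00006c080098008008000200f8000812bf03)))) 
(.nd (nat_lit 9) (.nd (nat_lit 12) 
(.lf (nat_lit 3758097896) (dlOf (nat_lit 1) (nat_lit 0x60018003601))) 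
(.lf (nat_lit 2818840040) (dlOf (nat_lit 1) (nat_lit 0x2800400080008129b82)))) (.nd (nat_lit 13) 
(.lf (nat_lit 3825207272) (dlOf (nat_lit 1) (nat_lit 0x1c000200700008004602))) 
(.lf (nat_lit 3825215464) (dlOf (nat_lit 1) (nat_lit 0x20018004601)))))))))) (.nd (nat_lit 26) 
(.nd (nat_lit 8) (.nd (nat_lit 7) (.nd (nat_lit 13) (.nd (nat_lit 10) (.nd (nat_lit 16) 
(.nd (nat_lit 9) (.lf (nat_lit 1344536680) (dlOf (nat_lit 1) (nat_lit 0xa0018831e81))) 
(.lf (nat_lit 1342181992) (dlOf (nat_lit 1) (nat_lit 0xe0028008981)))) (.nd (nat_lit 18) 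
(.lf (nat_lit 1345388648) (dlOf (nat_lit 2) (nat_lit 0x7823400200fa000130400020018b90981))) 
(.lf (nat_lit 4026859624) (dlOf (nat_lit 3) (nat_lit 0x400000000981001801a800300a800002080024002014600080a1402))))) 
(.nd (nat_lit 9) (.nd (nat_lit 11) 
(.lf (nat_lit 1342182504) (dlOf (nat_lit 1) (nat_lit 0x8008000400200020008009403))) 
(.lf (nat_lit 2952797288) (dlOf (nat_lit 1) (nat_lit 0x3800800180020010000800c083)))) 
(.lf (nat_lit 6174279272) (dlOf (nat_lit 1) (nat_lit 0x28008000c002000600080d3903))))) 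
(.nd (nat_lit 9) (.nd (nat_lit 10) (.nd (nat_lit 27) 
(.lf (nat_lit 4563738728) (dlOf (nat_lit 1) (nat_lit 0x180080070002001200080d0783))) 
(.lf (nat_lit 4697956456) (dlOf (nat_lit 1) (nat_lit 0x180080070002001200080d0783)))) 
(.lf (nat_lit 1342188648) (dlOf (nat_lit 1) (nat_lit 0x400400020018006082)))) (.nd (nat_lit 11) 
(.lf (nat_lit 1879913064) (dlOf (nat_lit 1) (nat_lit 0x3200183d8981))) 
(.lf (nat_lit 1880894056) (dlOf (nat_lit 1) (nat_lit 0x400400020008c95382)))))) (.nd (nat_lit 16) 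
(.nd (nat_lit 10) (.nd (nat_lit 12) 
(.lf (nat_lit 4697882856) (dlOf (nat_lit 1) (nat_lit 0x600280c1e01))) (.nd (nat_lit 13) 
(.lf (nat_lit 1476399336) (dlOf (nat_lit 1) (nat_lit 0x8008000400200020008008083))) 
(.lf (nat_lit 1342189800) (dlOf (nat_lit 1) (nat_lit 0x800200020008008082))))) (.nd (nat_lit 9) 
(.lf (nat_lit 3490188520) (dlOf (nat_lit 1) (nat_lit 0x100028006501))) (.nd (nat_lit 12) 
(.lf (nat_lit 2415929064) (dlOf (nat_lit 1) (nat_lit 0x20028003b01))) 
(.lf (nat_lit 2952795880) (dlOf (nat_lit 1) (nat_lit 0x5000800040020002000800a003)))))) 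
(.nd (nat_lit 13) (.nd (nat_lit 10) (.nd (nat_lit 18) 
(.lf (nat_lit 4563468520) (dlOf (nat_lit 2) (nat_lit 0x8c0178002f4080050008003800200100008090a83))) 
(.lf (nat_lit 402981096) (dlOf (nat_lit 1) (nat_lit 0xc00180c1e01)))) 
(.lf (nat_lit 5100340456) (dlOf (nat_lit 1) (nat_lit 0x3400400020018052e02)))) (.nd (nat_lit 10) 
(.nd (nat_lit 18) 
(.lf (nat_lit 4563476712) (dlOf (nat_lit 2) (nat_lit 0x12201a0002f408066800802a000200060008090a83))) 
(.lf (nat_lit 5773271272) (dlOf (nat_lit 1) (nat_lit 0x1c004000e00180c1e02)))) 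
(.lf (nat_lit 5100348648) (dlOf (nat_lit 2) (nat_lit 0x500500007004000400400040018052e02))))))) 
(.nd (nat_lit 31) (.nd (nat_lit 10) (.nd (nat_lit 11) (.nd (nat_lit 7) 
(.lf (nat_lit 939598184) (dlOf (nat_lit 1) (nat_lit 0x40004001c00080b0702))) (.nd (nat_lit 9) 
(.lf (nat_lit 5772411368) (dlOf (nat_lit 1) (nat_lit 0x140018091301))) 
(.lf (nat_lit 4697695208) (dlOf (nat_lit 1) (nat_lit 0x120028092881))))) (.nd (nat_lit 16) 
(.nd (nat_lit 27) 
(.lf (nat_lit 1879050728) (dlOf (nat_lit 1) (nat_lit 0x8008000400200020008004e83))) 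
(.lf (nat_lit 2013268456) (dlOf (nat_lit 1) (nat_lit 0x400400020008004e82)))) 
(.lf (nat_lit 4563470824) (dlOf (nat_lit 1) (nat_lit 0x8008000400200020008094e83))))) 
(.nd (nat_lit 7) (.nd (nat_lit 9) 
(.lf (nat_lit 1342188904) (dlOf (nat_lit 1) (nat_lit 0x80018006a81))) 
(.lf (nat_lit 1342181224) (dlOf (nat_lit 1) (nat_lit 0x400400020008007782)))) (.nd (nat_lit 9) 
(.nd (nat_lit 18) 
(.lf (nat_lit 4563404264) (dlOf (nat_lit 1) (nat_lit 0x40008001000200020008003603))) 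
(.lf (nat_lit 5637408232) (dlOf (nat_lit 1) (nat_lit 0x9800280d3601)))) 
(.lf (nat_lit 1476472808) (dlOf (nat_lit 1) (nat_lit 0x4e0008007a81)))))) (.nd (nat_lit 7) 
(.nd (nat_lit 10) (.nd (nat_lit 9) (.nd (nat_lit 13) 
(.lf (nat_lit 3494117736) (dlOf (nat_lit 5) (nat_lit 0x43607b000188101e503d8000c0080dd01ec0004a0407a00f6000210200de00181b0701))) 
(.lf (nat_lit 3493863784) (dlOf (nat_lit 1) (nat_lit 0x200181b0701)))) 
(.lf (nat_lit 4160754536) (dlOf (nat_lit 1) (nat_lit 0x400400020008008f82)))) (.nd (nat_lit 16) 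
(.lf (nat_lit 3490463080) (dlOf (nat_lit 1) (nat_lit 0x2000800c901))) 
(.lf (nat_lit 3490266472) (dlOf (nat_lit 1) (nat_lit 0x2001800c901))))) (.nd (nat_lit 10) 
(.nd (nat_lit 32) (.nd (nat_lit 27) 
(.lf (nat_lit 3489663464) (dlOf (nat_lit 2) (nat_lit 0x421400c8d018004e80))) 
(.lf (nat_lit 2550139368) (dlOf (nat_lit 1) (nat_lit 0x400400020008004e82)))) (.nd (nat_lit 9) 
(.lf (nat_lit 6710888936) (dlOf (nat_lit 1) (nat_lit 0x8008000400200020008004e83))) 
(.lf (nat_lit 6710889448) (dlOf (nat_lit 2) (nat_lit 0x300a000010080030008002c00200020008005e83))))) 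
(.nd (nat_lit 11) (.lf (nat_lit 2952803816) (dlOf (nat_lit 1) (nat_lit 0x400400020008009b82))) 
(.nd (nat_lit 13) 
(.lf (nat_lit 2550140392) (dlOf (nat_lit 1) (nat_lit 0x8008000400200020008006e83))) 
(.lf (nat_lit 3490000360) (dlOf (nat_lit 2) (nat_lit 0x882200000004001000200020008006e82))))))))) 
(.nd (nat_lit 11) (.nd (nat_lit 13) (.nd (nat_lit 8) (.nd (nat_lit 7) (.nd (nat_lit 16) 
(.lf (nat_lit 4228382824) (dlOf (nat_lit 1) (nat_lit 0x600280a1401))) 
(.lf (nat_lit 474546280) (dlOf (nat_lit 3) (nat_lit 0x5e04200010808001005800026040004004000400191a0982)))) 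
(.nd (nat_lit 10) (.nd (nat_lit 18) 
(.lf (nat_lit 335610088) (dlOf (nat_lit 2) (nat_lit 0xd004c0017a04001000400080018090a82))) 
(.lf (nat_lit 335872232) (dlOf (nat_lit 1) (nat_lit 0xe00180c1e01)))) 
(.lf (nat_lit 2080441576) (dlOf (nat_lit 1) (nat_lit 0x20028092e01))))) (.nd (nat_lit 31) 
(.nd (nat_lit 7) 
(.lf (nat_lit 5838799208) (dlOf (nat_lit 1) (nat_lit 0x180080004002000200081b0703))) 
(.nd (nat_lit 29) 
(.lf (nat_lit 4630578664) (dlOf (nat_lit 1) (nat_lit 0x8008000400200020008003603))) 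
(.lf (nat_lit 6241191400) (dlOf (nat_lit 1) (nat_lit 0xae0028053601))))) (.nd (nat_lit 7) 
(.lf (nat_lit 2617316200) (dlOf (nat_lit 1) (nat_lit 0x200080a8f81))) (.nd (nat_lit 9) 
(.lf (nat_lit 3691058664) (dlOf (nat_lit 2) (nat_lit 0x200600005004000800400060018009b82))) 
(.lf (nat_lit 4228646888) (dlOf (nat_lit 1) (nat_lit 0x4002003c0008114602))))))) (.nd (nat_lit 7) 
(.nd (nat_lit 8) (.nd (nat_lit 9) (.nd (nat_lit 10) 
(.lf (nat_lit 472129640) (dlOf (nat_lit 1) (nat_lit 0xa0018851e81))) 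
(.lf (nat_lit 3557045352) (dlOf (nat_lit 16) (nat_lit 0x16808c0026044003100e000500640005e10016c08c0026044003000e000280640005a10019008c006c01c00015820064023001c00700005408001808c000c01c0001402005303a80688000000480801d40ea011206e000e01a803700cc01f806400fc02900d40000000883803081d40328000000200400bc07500cd0000000741002901bc01400680001904007806f006201a0000601003381bc01c4068000c01e0000b030056037802680d0000280800f00de0000202007606f002a01a0000001000080080374002007e0008129403)))) 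
(.lf (nat_lit 2617320040) (dlOf (nat_lit 1) (nat_lit 0x364002030c00080a1802)))) (.nd (nat_lit 12) 
(.nd (nat_lit 16) (.lf (nat_lit 3154387304) (dlOf (nat_lit 1) (nat_lit 0x4002000c0008160982))) 
(.lf (nat_lit 3557106024) (dlOf (nat_lit 1) (nat_lit 0x580080028002000a0008130983)))) 
(.lf (nat_lit 469774696) (dlOf (nat_lit 1) (nat_lit 0x20028008381))))) (.nd (nat_lit 9) 
(.nd (nat_lit 8) (.lf (nat_lit 6377251048) (dlOf (nat_lit 1) (nat_lit 0x18004000e00180c1e02))) 
(.nd (nat_lit 12) (.lf (nat_lit 6241199592) (dlOf (nat_lit 1) (nat_lit 0x1e0028053601))) 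
(.lf (nat_lit 3691066856) (dlOf (nat_lit 2) (nat_lit 0x4022000300d8000a0100028008001c00200100008009b83))))) 
(.nd (nat_lit 10) (.nd (nat_lit 12) 
(.lf (nat_lit 6375351272) (dlOf (nat_lit 2) (nat_lit 0x180a000fe004000400400040018002882))) 
(.lf (nat_lit 3557045224) (dlOf (nat_lit 2) (nat_lit 0x500fc0098604000400400420008129202)))) 
(.nd (nat_lit 8) (.lf (nat_lit 469837544) (dlOf (nat_lit 1) (nat_lit 0x800400120018003b02))) 
(.lf (nat_lit 469837800) (dlOf (nat_lit 1) (nat_lit 0x20028004601)))))))) (.nd (nat_lit 27) 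
(.nd (nat_lit 7) (.nd (nat_lit 8) (.nd (nat_lit 9) (.nd (nat_lit 10) 
(.lf (nat_lit 1410078824) (dlOf (nat_lit 1) (nat_lit 0x200180fa801))) 
(.lf (nat_lit 2483031144) (dlOf (nat_lit 1) (nat_lit 0x40028006081)))) 
(.lf (nat_lit 3556846184) (dlOf (nat_lit 1) (nat_lit 0x60018085381)))) (.nd (nat_lit 10) 
(.lf (nat_lit 1946237800) (dlOf (nat_lit 1) (nat_lit 0x800800040020002000800bc83))) 
(.lf (nat_lit 3557044072) (dlOf (nat_lit 1) (nat_lit 0x1b000801b0002013e0008127783))))) 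
(.nd (nat_lit 10) (.nd (nat_lit 16) (.nd (nat_lit 29) 
(.lf (nat_lit 1409288680) (dlOf (nat_lit 1) (nat_lit 0x400400020008004e82))) 
(.lf (nat_lit 1946159592) (dlOf (nat_lit 1) (nat_lit 0x400400020008004e82)))) (.nd (nat_lit 13) 
(.lf (nat_lit 335612392) (dlOf (nat_lit 1) (nat_lit 0x400400020008094e82))) 
(.lf (nat_lit 4094503400) (dlOf (nat_lit 1) (nat_lit 0x400400020008054e82))))) (.nd (nat_lit 30) 
(.lf (nat_lit 2483031528) (dlOf (nat_lit 1) (nat_lit 0x400400020008006e82))) 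
(.lf (nat_lit 1409289704) (dlOf (nat_lit 1) (nat_lit 0x1e0028006e81)))))) (.nd (nat_lit 30) 
(.nd (nat_lit 7) (.nd (nat_lit 8) (.nd (nat_lit 13) 
(.lf (nat_lit 469769320) (dlOf (nat_lit 2) (nat_lit 0x809d0001101800c080))) 
(.lf (nat_lit 1007500392) (dlOf (nat_lit 1) (nat_lit 0x3800183dc081)))) 
(.lf (nat_lit 4764732264) (dlOf (nat_lit 1) (nat_lit 0x20028005c01)))) (.nd (nat_lit 9) 
(.nd (nat_lit 29) (.lf (nat_lit 4764731880) (dlOf (nat_lit 1) (nat_lit 0x400400020008004e82))) 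
(.lf (nat_lit 5301602792) (dlOf (nat_lit 1) (nat_lit 0x400400020008004e82)))) (.nd (nat_lit 12) 
(.lf (nat_lit 4764732392) (dlOf (nat_lit 1) (nat_lit 0x28008003000200100008005e83))) 
(.lf (nat_lit 469769192) (dlOf (nat_lit 1) (nat_lit 0x40040002000800bf02)))))) (.nd (nat_lit 10) 
(.nd (nat_lit 13) (.nd (nat_lit 16) 
(.lf (nat_lit 4227860968) (dlOf (nat_lit 1) (nat_lit 0x400400020008004e82))) 
(.lf (nat_lit 1543571944) (dlOf (nat_lit 1) (nat_lit 0x8008000400200040008144e83)))) 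
(.nd (nat_lit 7) (.lf (nat_lit 6376729192) (dlOf (nat_lit 1) (nat_lit 0x100028095381))) 
(.lf (nat_lit 4227869160) (dlOf (nat_lit 1) (nat_lit 0x20028004e81))))) (.nd (nat_lit 7) 
(.lf (nat_lit 4227870056) (dlOf (nat_lit 1) (nat_lit 0x5000200120008006a82))) (.nd (nat_lit 13) 
(.lf (nat_lit 1543572968) (dlOf (nat_lit 1) (nat_lit 0x1000200080008146e82))) 
(.lf (nat_lit 1543581160) (dlOf (nat_lit 1) (nat_lit 0x1e0008146e81)))))))))))) (.nd (nat_lit 16) 
(.nd (nat_lit 18) (.nd (nat_lit 6) (.nd (nat_lit 19) (.nd (nat_lit 29) (.nd (nat_lit 7) 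
(.nd (nat_lit 13) (.nd (nat_lit 11) (.nd (nat_lit 20) 
(.lf (nat_lit 1476526120) (dlOf (nat_lit 2) (nat_lit 0x300b800080440004a0800d400200f20008020902))) 
(.nd (nat_lit 28) (.lf (nat_lit 1179688) (dlOf (nat_lit 1) (nat_lit 0x4004000a0008080582))) 
(.lf (nat_lit 1343356968) (dlOf (nat_lit 1) (nat_lit 0x2a0018200781))))) (.nd (nat_lit 8) 
(.lf (nat_lit 37882408) (dlOf (nat_lit 1) (nat_lit 0x2200290d5181))) 
(.lf (nat_lit 20057384) (dlOf (nat_lit 1) (nat_lit 0x10000800b4002001800089d6803))))) 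
(.nd (nat_lit 22) (.nd (nat_lit 9) 
(.lf (nat_lit 3422691368) (dlOf (nat_lit 1) (nat_lit 0x20028060681))) 
(.lf (nat_lit 6509702696) (dlOf (nat_lit 1) (nat_lit 0x400200020008147182)))) (.nd (nat_lit 23) 
(.lf (nat_lit 1346510888) (dlOf (nat_lit 1) (nat_lit 0x10008000400200020008f80383))) 
(.lf (nat_lit 29499432) (dlOf (nat_lit 1) (nat_lit 0x60008e10781)))))) (.nd (nat_lit 28) 
(.nd (nat_lit 9) (.nd (nat_lit 8) 
(.lf (nat_lit 2348941480) (dlOf (nat_lit 2) (nat_lit 0x201500296c080020008000400200020008044c03))) 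
(.lf (nat_lit 3221368232) (dlOf (nat_lit 1) (nat_lit 0x400400020008116d02)))) (.nd (nat_lit 13) 
(.lf (nat_lit 8524456) (dlOf (nat_lit 1) (nat_lit 0x400200020008518c82))) 
(.lf (nat_lit 8532648) (dlOf (nat_lit 1) (nat_lit 0x400200020008518c82))))) (.nd (nat_lit 26) 
(.nd (nat_lit 27) (.lf (nat_lit 5637275816) (dlOf (nat_lit 1) (nat_lit 0x4004000200080d0602))) 
(.lf (nat_lit 402784424) (dlOf (nat_lit 1) (nat_lit 0x1e0018090601)))) (.nd (nat_lit 27) 
(.lf (nat_lit 2483159208) (dlOf (nat_lit 2) (nat_lit 0x2015001318080020008000400200020008044c03))) 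
(.lf (nat_lit 4764860584) (dlOf (nat_lit 1) (nat_lit 0x400400020008031482))))))) (.nd (nat_lit 8) 
(.nd (nat_lit 9) (.nd (nat_lit 27) (.nd (nat_lit 7) 
(.lf (nat_lit 1879179304) (dlOf (nat_lit 1) (nat_lit 0x8008000400200020008050e83))) 
(.lf (nat_lit 3825339560) (dlOf (nat_lit 1) (nat_lit 0x20008146281)))) (.nd (nat_lit 13) 
(.lf (nat_lit 1006764072) (dlOf (nat_lit 1) (nat_lit 0x8008000400200020008050e83))) 
(.lf (nat_lit 2885820456) (dlOf (nat_lit 2) (nat_lit 0x10009806d38080018008008c002001200080b0003))))) 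
(.nd (nat_lit 12) (.nd (nat_lit 11) 
(.lf (nat_lit 3892445736) (dlOf (nat_lit 1) (nat_lit 0x20028118881))) 
(.lf (nat_lit 6376524328) (dlOf (nat_lit 1) (nat_lit 0x640028095181)))) (.nd (nat_lit 13) 
(.nd (nat_lit 27) 
(.lf (nat_lit 1677859368) (dlOf (nat_lit 1) (nat_lit 0xb80080020002005e000811b283))) 
(.lf (nat_lit 3959560744) (dlOf (nat_lit 1) (nat_lit 0x5c0020008000811b282)))) 
(.lf (nat_lit 3959568936) (dlOf (nat_lit 3) (nat_lit 0xa040000d01c001300580182c0c00140800014038000500b0030201801d00080140002002c000811b283)))))) 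
(.nd (nat_lit 9) (.nd (nat_lit 7) (.nd (nat_lit 13) 
(.lf (nat_lit 872547624) (dlOf (nat_lit 1) (nat_lit 0x400200020008093182))) 
(.lf (nat_lit 2080515368) (dlOf (nat_lit 1) (nat_lit 0x400200020008093182)))) (.nd (nat_lit 11) 
(.nd (nat_lit 13) (.lf (nat_lit 3758227880) (dlOf (nat_lit 1) (nat_lit 0x20028106e81))) 
(.lf (nat_lit 3758236072) (dlOf (nat_lit 1) (nat_lit 0x20028106e81)))) 
(.lf (nat_lit 4093782440) (dlOf (nat_lit 1) (nat_lit 0x20028004e81))))) (.nd (nat_lit 10) 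
(.nd (nat_lit 7) (.lf (nat_lit 4831972136) (dlOf (nat_lit 1) (nat_lit 0x400200020008055c02))) 
(.lf (nat_lit 805444520) (dlOf (nat_lit 1) (nat_lit 0x1000800dc0020048000811bd03)))) 
(.nd (nat_lit 13) (.lf (nat_lit 537003944) (dlOf (nat_lit 1) (nat_lit 0x20018004301))) 
(.lf (nat_lit 537012136) (dlOf (nat_lit 1) (nat_lit 0x380080018002000a0008004303)))))))) 
(.nd (nat_lit 13) (.nd (nat_lit 28) (.nd (nat_lit 26) (.nd (nat_lit 21) (.nd (nat_lit 22) 
(.nd (nat_lit 29) 
(.lf (nat_lit 3221880872) (dlOf (nat_lit 7) (nat_lit 0x260070000640801300380003004009801c0001702006400e002b006001000000002c0c009801c0001502008a00e0000a0181a0c00))) 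
(.lf (nat_lit 537526312) (dlOf (nat_lit 1) (nat_lit 0x35000080a0901)))) 
(.lf (nat_lit 21626920) (dlOf (nat_lit 3) (nat_lit 0x4ebd00001808001f5e80000204001400400120008a50a82)))) 
(.lf (nat_lit 11141160) (dlOf (nat_lit 1) (nat_lit 0x10008000c002001a0008660683)))) 
(.nd (nat_lit 27) 
(.lf (nat_lit 4362731560) (dlOf (nat_lit 1) (nat_lit 0x80080004002000200080e0d03))) 
(.lf (nat_lit 3960078376) (dlOf (nat_lit 2) (nat_lit 0x1a801c0001802000400181a0d01))))) 
(.nd (nat_lit 21) (.nd (nat_lit 27) (.nd (nat_lit 31) 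
(.lf (nat_lit 1409941544) (dlOf (nat_lit 1) (nat_lit 0x35000080a0901))) 
(.lf (nat_lit 3557425192) (dlOf (nat_lit 1) (nat_lit 0xc00181f0781)))) (.nd (nat_lit 30) 
(.lf (nat_lit 3154772008) (dlOf (nat_lit 1) (nat_lit 0x90008008000200220008320d83))) 
(.lf (nat_lit 4228513832) (dlOf (nat_lit 1) (nat_lit 0x80080004002000200080e0d03))))) 
(.nd (nat_lit 9) (.nd (nat_lit 26) 
(.lf (nat_lit 3492413480) (dlOf (nat_lit 3) (nat_lit 0x240880002402000a06900060220000881000f0008003c002002600080c0c03))) 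
(.lf (nat_lit 4096393256) (dlOf (nat_lit 1) (nat_lit 0x40018100381)))) 
(.lf (nat_lit 473563688) (dlOf (nat_lit 1) (nat_lit 0x400400280008f68882)))))) (.nd (nat_lit 21) 
(.nd (nat_lit 26) (.nd (nat_lit 8) 
(.lf (nat_lit 3221889064) (dlOf (nat_lit 3) (nat_lit 0x3e013801f006a010c0270003a0300bb02b00128154030006400e001100790050001c82800280080024002004e00081b0503))) 
(.lf (nat_lit 9056552) (dlOf (nat_lit 1) (nat_lit 0x100028518081)))) (.nd (nat_lit 27) 
(.lf (nat_lit 4362739752) (dlOf (nat_lit 1) (nat_lit 0x8002001e00080e0d02))) (.nd (nat_lit 28) 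
(.lf (nat_lit 3960086568) (dlOf (nat_lit 3) (nat_lit 0x3e013801f006a010c0270003a0300bb02b00128154030006400e001100790050001c82800280080024002004e00081b0503))) 
(.lf (nat_lit 4228522024) (dlOf (nat_lit 1) (nat_lit 0x8002001e00080e0d02)))))) (.nd (nat_lit 24) 
(.nd (nat_lit 23) (.nd (nat_lit 7) (.nd (nat_lit 20) 
(.lf (nat_lit 472522792) (dlOf (nat_lit 1) (nat_lit 0x18008000c002001800089b0803))) 
(.lf (nat_lit 3809320) (dlOf (nat_lit 1) (nat_lit 0x8c004000a0008230a02)))) 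
(.lf (nat_lit 36316328) (dlOf (nat_lit 1) (nat_lit 0x940009072c01)))) (.nd (nat_lit 22) 
(.lf (nat_lit 11149352) (dlOf (nat_lit 2) (nat_lit 0x118000000ac04001c002000e0008660682))) 
(.lf (nat_lit 48898088) (dlOf (nat_lit 1) (nat_lit 0x400200020009440202))))) (.nd (nat_lit 7) 
(.nd (nat_lit 8) (.lf (nat_lit 19537960) (dlOf (nat_lit 1) (nat_lit 0x3800189c0601))) 
(.lf (nat_lit 20589352) (dlOf (nat_lit 2) (nat_lit 0x2f25c001e902000400289d5c01)))) 
(.nd (nat_lit 11) 
(.lf (nat_lit 61481384) (dlOf (nat_lit 1) (nat_lit 0x10008000400200020009921003))) 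
(.lf (nat_lit 57289128) (dlOf (nat_lit 1) (nat_lit 0xe0019794e81))))))))) (.nd (nat_lit 8) 
(.nd (nat_lit 7) (.nd (nat_lit 19) (.nd (nat_lit 10) (.nd (nat_lit 9) (.nd (nat_lit 22) 
(.lf (nat_lit 69345384) (dlOf (nat_lit 1) (nat_lit 0x400400020008940982))) 
(.lf (nat_lit 6430824) (dlOf (nat_lit 1) (nat_lit 0xa0028420481)))) 
(.lf (nat_lit 2617377384) (dlOf (nat_lit 1) (nat_lit 0x18004009200080a1802)))) (.nd (nat_lit 9) 
(.nd (nat_lit 23) (.lf (nat_lit 138344) (dlOf (nat_lit 1) (nat_lit 0x86000800c081))) 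
(.lf (nat_lit 8526952) (dlOf (nat_lit 1) (nat_lit 0x1800800040020002000851c083)))) 
(.lf (nat_lit 2617382504) (dlOf (nat_lit 1) (nat_lit 0x1400080a9c01))))) (.nd (nat_lit 21) 
(.nd (nat_lit 13) (.nd (nat_lit 20) 
(.lf (nat_lit 537526376) (dlOf (nat_lit 3) (nat_lit 0x40a400200330000a82001902900004c0801f80080068002001e00080a1403))) 
(.lf (nat_lit 60424296) (dlOf (nat_lit 1) (nat_lit 0xa0019851981)))) 
(.lf (nat_lit 537534568) (dlOf (nat_lit 4) (nat_lit 0x1002e8000815c00c00a4005a0330000a84001f029001000cc000260800040ba005605200120198000101802480080060002005a00080a1403)))) 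
(.nd (nat_lit 13) (.nd (nat_lit 20) 
(.lf (nat_lit 1344929896) (dlOf (nat_lit 4) (nat_lit 0x1441b200a409c00550468000381800e8234000180401642c0008a14d004104e0020823400000100024004001a00189a0982))) 
(.lf (nat_lit 45744232) (dlOf (nat_lit 2) (nat_lit 0x58cfa0026666001a2ca00004c180048008002400200060009360983)))) 
(.lf (nat_lit 1344938088) (dlOf (nat_lit 5) (nat_lit 0x5e0a680318364018c1b000d807d006603e0000382802801f4000180400040fa0000a02001407d000603e0000001000500080030002001400089a0983)))))) 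
(.nd (nat_lit 10) (.nd (nat_lit 13) (.nd (nat_lit 21) 
(.lf (nat_lit 738328808) (dlOf (nat_lit 3) (nat_lit 0x8042000da0200060520003f018090a80))) 
(.nd (nat_lit 23) (.lf (nat_lit 471990504) (dlOf (nat_lit 1) (nat_lit 0x20028740601))) 
(.lf (nat_lit 44171496) (dlOf (nat_lit 1) (nat_lit 0x1800292d1e01))))) (.nd (nat_lit 19) 
(.nd (nat_lit 20) (.lf (nat_lit 44179688) (dlOf (nat_lit 1) (nat_lit 0x1a00292d1e01))) 
(.lf (nat_lit 7479528) (dlOf (nat_lit 1) (nat_lit 0x4004000200084b0602)))) 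
(.lf (nat_lit 28975336) (dlOf (nat_lit 1) (nat_lit 0x10008001400200040008da0603))))) 
(.nd (nat_lit 19) (.nd (nat_lit 9) (.nd (nat_lit 13) 
(.lf (nat_lit 872547560) (dlOf (nat_lit 1) (nat_lit 0x400200020008092e02))) 
(.lf (nat_lit 872555752) (dlOf (nat_lit 2) (nat_lit 0x405a000000200020008092e01)))) 
(.lf (nat_lit 3087140584) (dlOf (nat_lit 1) (nat_lit 0x800400120018143b02)))) (.nd (nat_lit 9) 
(.nd (nat_lit 13) (.lf (nat_lit 3490319592) (dlOf (nat_lit 1) (nat_lit 0x600008006501))) 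
(.lf (nat_lit 3490327784) (dlOf (nat_lit 1) (nat_lit 0x20028006501)))) 
(.lf (nat_lit 2752120552) (dlOf (nat_lit 1) (nat_lit 0x1400400020008003b02))))))) (.nd (nat_lit 11) 
(.nd (nat_lit 7) (.nd (nat_lit 13) (.nd (nat_lit 10) (.nd (nat_lit 22) 
(.lf (nat_lit 1073873256) (dlOf (nat_lit 1) (nat_lit 0x400200020008015202))) 
(.lf (nat_lit 2755789160) (dlOf (nat_lit 1) (nat_lit 0x200181b0701)))) 
(.lf (nat_lit 2818704744) (dlOf (nat_lit 1) (nat_lit 0x200280d3481)))) (.nd (nat_lit 10) 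
(.nd (nat_lit 26) 
(.lf (nat_lit 3624018280) (dlOf (nat_lit 1) (nat_lit 0x200080020002001000080b0703))) 
(.lf (nat_lit 2885820776) (dlOf (nat_lit 1) (nat_lit 0x200080020002001000080b0703)))) 
(.lf (nat_lit 5773600104) (dlOf (nat_lit 1) (nat_lit 0x200280e3481))))) (.nd (nat_lit 9) 
(.nd (nat_lit 10) (.nd (nat_lit 13) 
(.lf (nat_lit 1073873384) (dlOf (nat_lit 1) (nat_lit 0x40028017d01))) 
(.lf (nat_lit 1073881576) (dlOf (nat_lit 2) (nat_lit 0x280a4000ba0401b400400600008017d02)))) 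
(.nd (nat_lit 13) (.lf (nat_lit 8521192) (dlOf (nat_lit 1) (nat_lit 0x28002002a0008513602))) 
(.nd (nat_lit 19) (.lf (nat_lit 4496434664) (dlOf (nat_lit 1) (nat_lit 0x400200020008053602))) 
(.lf (nat_lit 43656680) (dlOf (nat_lit 1) (nat_lit 0x3800292a3601)))))) (.nd (nat_lit 13) 
(.lf (nat_lit 657384) (dlOf (nat_lit 1) (nat_lit 0xc0028004601))) (.nd (nat_lit 19) 
(.lf (nat_lit 6442592232) (dlOf (nat_lit 2) (nat_lit 0x300d000064040010002000200080f4602))) 
(.lf (nat_lit 665576) (dlOf (nat_lit 1) (nat_lit 0x27000800c800200a80008004603))))))) 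
(.nd (nat_lit 31) (.nd (nat_lit 9) (.nd (nat_lit 21) (.nd (nat_lit 26) 
(.lf (nat_lit 805439976) (dlOf (nat_lit 1) (nat_lit 0x20028114e81))) 
(.lf (nat_lit 6241257960) (dlOf (nat_lit 1) (nat_lit 0x4004000200080d4e82)))) 
(.lf (nat_lit 6377572840) (dlOf (nat_lit 1) (nat_lit 0x200280e4e81)))) (.nd (nat_lit 7) 
(.nd (nat_lit 12) (.lf (nat_lit 6241258344) (dlOf (nat_lit 1) (nat_lit 0x4600180d5c01))) 
(.lf (nat_lit 1409432424) (dlOf (nat_lit 1) (nat_lit 0x2002800bc81)))) 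
(.lf (nat_lit 8535016) (dlOf (nat_lit 1) (nat_lit 0x40040002001851bf02))))) (.nd (nat_lit 7) 
(.nd (nat_lit 12) (.nd (nat_lit 13) 
(.lf (nat_lit 3221359976) (dlOf (nat_lit 1) (nat_lit 0x340008116a81))) 
(.lf (nat_lit 3221368168) (dlOf (nat_lit 6) (nat_lit 0xb0000000380800a00380001204005001c000080200140000000181001400700000408005800800f0002003a0008116a83)))) 
(.lf (nat_lit 3490323816) (dlOf (nat_lit 1) (nat_lit 0x2001800c901)))) (.nd (nat_lit 13) 
(.nd (nat_lit 26) (.lf (nat_lit 3221359080) (dlOf (nat_lit 1) (nat_lit 0xe0018114e81))) 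
(.lf (nat_lit 4093774312) (dlOf (nat_lit 1) (nat_lit 0x20028004e81)))) 
(.lf (nat_lit 3221367272) (dlOf (nat_lit 9) (nat_lit 0x6c00e00ba1010036007005d040801b003802e760400bc01c002e00000b99820036007005cc80801b003802e620400d801c0173002006c00e00a34818114e80))))))))) 
(.nd (nat_lit 13) (.nd (nat_lit 21) (.nd (nat_lit 28) (.nd (nat_lit 20) (.nd (nat_lit 6) 
(.nd (nat_lit 26) (.nd (nat_lit 27) (.nd (nat_lit 19) (.nd (nat_lit 29) 
(.lf (nat_lit 6442844200) (dlOf (nat_lit 2) (nat_lit 0x14018801d80b800f64080010004000600081d0a02))) 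
(.lf (nat_lit 1611005992) (dlOf (nat_lit 1) (nat_lit 0xc00180b0381)))) 
(.lf (nat_lit 30277672) (dlOf (nat_lit 1) (nat_lit 0x2400400080008e30002)))) (.nd (nat_lit 29) 
(.lf (nat_lit 3355836456) (dlOf (nat_lit 15) (nat_lit 0x166030000250100370160001140801980c0006c05800020290002203001d018000d00b000040520004306018a030000210100480180001000803280c00007804000806000037020176030011700c0033800c0074000000320801440300001881012000c003480000005a0800e00000002c0200a8018002b00000005c1003080680000004007000400040018120682))) 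
(.lf (nat_lit 3892707368) (dlOf (nat_lit 2) (nat_lit 0x36064003d02d00358050000be0c0004004000400181d0682))))) 
(.nd (nat_lit 7) (.nd (nat_lit 27) 
(.lf (nat_lit 67502120) (dlOf (nat_lit 1) (nat_lit 0x4004000200181a0782))) 
(.lf (nat_lit 738590760) (dlOf (nat_lit 1) (nat_lit 0xc00180b0381)))) 
(.lf (nat_lit 4362469800) (dlOf (nat_lit 1) (nat_lit 0x20018090781))))) (.nd (nat_lit 7) 
(.lf (nat_lit 59637864) (dlOf (nat_lit 1) (nat_lit 0x30008000400200020009820983))) (.nd (nat_lit 8) 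
(.lf (nat_lit 396520) (dlOf (nat_lit 1) (nat_lit 0x20008002000200020008006503))) 
(.lf (nat_lit 8783336) (dlOf (nat_lit 1) (nat_lit 0x10008000400200020008513603)))))) 
(.nd (nat_lit 22) (.nd (nat_lit 6) (.nd (nat_lit 26) 
(.lf (nat_lit 1441832) (dlOf (nat_lit 1) (nat_lit 0x34004000200080d0582))) 
(.lf (nat_lit 2752905256) (dlOf (nat_lit 2) (nat_lit 0x241280002a02000c0018060581)))) 
(.lf (nat_lit 9830504) (dlOf (nat_lit 1) (nat_lit 0x120008002800200700008580783)))) 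
(.nd (nat_lit 19) (.lf (nat_lit 55967784) (dlOf (nat_lit 1) (nat_lit 0x8008000800200020009700803))) 
(.lf (nat_lit 14549032) (dlOf (nat_lit 2) (nat_lit 0x9a000000004001c00400060008760902)))))) 
(.nd (nat_lit 26) (.nd (nat_lit 6) (.nd (nat_lit 30) (.nd (nat_lit 27) 
(.lf (nat_lit 4563796008) (dlOf (nat_lit 1) (nat_lit 0x200280e0a81))) 
(.lf (nat_lit 4698013736) (dlOf (nat_lit 1) (nat_lit 0xe200180e0981)))) (.nd (nat_lit 7) 
(.nd (nat_lit 20) (.lf (nat_lit 5637537832) (dlOf (nat_lit 1) (nat_lit 0xc00200040008100282))) 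
(.lf (nat_lit 3491102760) (dlOf (nat_lit 2) (nat_lit 0x241280002a02000c0018060581)))) 
(.lf (nat_lit 3490056616) (dlOf (nat_lit 1) (nat_lit 0x20018004e81))))) (.nd (nat_lit 10) 
(.nd (nat_lit 20) 
(.lf (nat_lit 1346764904) (dlOf (nat_lit 3) (nat_lit 0x5e04200010808001006c0002604000400400040019000982))) 
(.lf (nat_lit 1880490088) (dlOf (nat_lit 1) (nat_lit 0x200089a0981)))) (.nd (nat_lit 7) 
(.lf (nat_lit 1344148584) (dlOf (nat_lit 1) (nat_lit 0x80080004002000200083d9403))) 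
(.lf (nat_lit 3624275176) (dlOf (nat_lit 1) (nat_lit 0x800400020008146502)))))) (.nd (nat_lit 30) 
(.nd (nat_lit 7) (.nd (nat_lit 20) 
(.lf (nat_lit 3154509864) (dlOf (nat_lit 2) (nat_lit 0xcc0280005f02000600281f0681))) 
(.lf (nat_lit 471203880) (dlOf (nat_lit 2) (nat_lit 0x3b0ad0001e40800180080060002001800082c0783)))) 
(.lf (nat_lit 474352040) (dlOf (nat_lit 1) (nat_lit 0x8008000400200020009164e83)))) 
(.nd (nat_lit 27) (.nd (nat_lit 29) 
(.lf (nat_lit 1409679400) (dlOf (nat_lit 1) (nat_lit 0x20028070881))) 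
(.lf (nat_lit 6241517608) (dlOf (nat_lit 1) (nat_lit 0xc00200040008100282)))) 
(.lf (nat_lit 5838864424) (dlOf (nat_lit 2) (nat_lit 0x14018801d80b801ab6080010004000600081d0a02))))))) 
(.nd (nat_lit 6) (.nd (nat_lit 10) (.nd (nat_lit 22) (.nd (nat_lit 8) (.nd (nat_lit 9) 
(.lf (nat_lit 61210664) (dlOf (nat_lit 1) (nat_lit 0x300080010002000c00098e0203))) 
(.lf (nat_lit 19792424) (dlOf (nat_lit 1) (nat_lit 0x180080008002000400089d1483)))) 
(.lf (nat_lit 28705064) (dlOf (nat_lit 1) (nat_lit 0x400400020008da0702)))) (.nd (nat_lit 19) 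
(.nd (nat_lit 23) (.lf (nat_lit 24510504) (dlOf (nat_lit 1) (nat_lit 0x400200020008ba0a02))) 
(.lf (nat_lit 32899112) (dlOf (nat_lit 1) (nat_lit 0x8008000800200020008f40803)))) 
(.lf (nat_lit 16646184) (dlOf (nat_lit 1) (nat_lit 0x24004001800088c0782))))) (.nd (nat_lit 7) 
(.nd (nat_lit 8) 
(.lf (nat_lit 2754481704) (dlOf (nat_lit 3) (nat_lit 0x90100000a804004c080008401d000288280f7180))) 
(.nd (nat_lit 12) (.lf (nat_lit 19795240) (dlOf (nat_lit 1) (nat_lit 0x200289d6801))) 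
(.lf (nat_lit 8265000) (dlOf (nat_lit 1) (nat_lit 0x580040030001851c602))))) (.nd (nat_lit 11) 
(.lf (nat_lit 1009124520) (dlOf (nat_lit 1) (nat_lit 0x8002000e0009082c02))) (.nd (nat_lit 24) 
(.lf (nat_lit 2754481320) (dlOf (nat_lit 3) (nat_lit 0x340800001502009a06600390200000501000100080018002000600080f6283))) 
(.lf (nat_lit 19795112) (dlOf (nat_lit 1) (nat_lit 0x10002000200089d6282))))))) (.nd (nat_lit 7) 
(.nd (nat_lit 8) (.nd (nat_lit 9) 
(.lf (nat_lit 49676392) (dlOf (nat_lit 1) (nat_lit 0x8008000400200020009480983))) 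
(.lf (nat_lit 19796584) (dlOf (nat_lit 1) (nat_lit 0x100080010002000600089d8983)))) 
(.nd (nat_lit 9) (.nd (nat_lit 10) 
(.lf (nat_lit 12452200) (dlOf (nat_lit 1) (nat_lit 0x4002000200086c0702))) 
(.lf (nat_lit 50201960) (dlOf (nat_lit 1) (nat_lit 0x400294c3481)))) 
(.lf (nat_lit 19794792) (dlOf (nat_lit 1) (nat_lit 0x80080004002000200089d5c03))))) 
(.nd (nat_lit 8) (.nd (nat_lit 10) 
(.lf (nat_lit 19792104) (dlOf (nat_lit 2) (nat_lit 0x458dc0017a040004002000400089d0a82))) 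
(.lf (nat_lit 2755005672) (dlOf (nat_lit 2) (nat_lit 0x100700005a040004002000400080f6502)))) 
(.nd (nat_lit 9) (.lf (nat_lit 19794408) (dlOf (nat_lit 1) (nat_lit 0x80080004002000200089d4e83))) 
(.lf (nat_lit 19794920) (dlOf (nat_lit 1) (nat_lit 0x8002000600089d5e82)))))))) (.nd (nat_lit 6) 
(.nd (nat_lit 26) (.nd (nat_lit 31) (.nd (nat_lit 19) (.nd (nat_lit 22) (.nd (nat_lit 27) 
(.lf (nat_lit 4563804200) (dlOf (nat_lit 2) (nat_lit 0x601880003c0803180080094002008200080e0a83))) 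
(.lf (nat_lit 4698021928) (dlOf (nat_lit 11) (nat_lit 0x29019000080c400a005a0001d0600b803200370168000701001680c8000360400b406400015020056032000a017001600b4000403a000110800580320006018801500b40001e0c000806200005020006033002b019000180c4003405c000401c0000205000e0188000040800080cc00c806400d00310002016000a007400000140418004010e00180e0982)))) 
(.nd (nat_lit 20) 
(.lf (nat_lit 12984360) (dlOf (nat_lit 6) (nat_lit 0x55250003a8f0000381000254780001a04001aa4a001351e00006020008a928003d47800016080006a3c0000002000a00286f0a01))) 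
(.lf (nat_lit 24518696) (dlOf (nat_lit 1) (nat_lit 0x400200020008ba0a02))))) (.nd (nat_lit 20) 
(.nd (nat_lit 24) 
(.lf (nat_lit 537796648) (dlOf (nat_lit 1) (nat_lit 0x1900080004002000c00081b0003))) 
(.lf (nat_lit 17702952) (dlOf (nat_lit 1) (nat_lit 0x600288f0d81)))) (.nd (nat_lit 22) 
(.lf (nat_lit 10362920) (dlOf (nat_lit 1) (nat_lit 0x80080008002000600085d0583))) 
(.lf (nat_lit 22945832) (dlOf (nat_lit 1) (nat_lit 0x1dc00400020018b40682)))))) (.nd (nat_lit 27) 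
(.nd (nat_lit 28) (.lf (nat_lit 3758497832) (dlOf (nat_lit 1) (nat_lit 0x20028220781))) 
(.lf (nat_lit 2416320552) (dlOf (nat_lit 3) (nat_lit 0x6c0110001740800d8088000b6040008002000400080e0502)))) 
(.nd (nat_lit 28) (.nd (nat_lit 29) 
(.lf (nat_lit 3355844648) (dlOf (nat_lit 3) (nat_lit 0x2000000168100080000000b00805a80080020002021a0008120683))) 
(.lf (nat_lit 3892715560) (dlOf (nat_lit 4) (nat_lit 0x1a80c800ca060020302d0044016401fc0aa005c04d00b701a005280bc00d005c00ca028008600a00f2000c00c80040005f1a003e02c000208100900160000fc080fe80080200002006600081d0683)))) 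
(.lf (nat_lit 2550538280) (dlOf (nat_lit 3) (nat_lit 0x6c0110001740800d8088000b6040008002000400080e0502)))))) 
(.nd (nat_lit 27) (.nd (nat_lit 7) (.nd (nat_lit 19) (.nd (nat_lit 28) 
(.lf (nat_lit 4899348520) (dlOf (nat_lit 1) (nat_lit 0x20018140481))) 
(.lf (nat_lit 3020300328) (dlOf (nat_lit 1) (nat_lit 0xc00400120008220782)))) 
(.lf (nat_lit 68034600) (dlOf (nat_lit 2) (nat_lit 0x60198001580800b00080004002001600083a0683)))) 
(.nd (nat_lit 10) 
(.lf (nat_lit 4362477992) (dlOf (nat_lit 5) (nat_lit 0x280cc01d0a04001406600e8402000a03300741810005019803a000800480080024002000e0008090783))) 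
(.lf (nat_lit 2754493864) (dlOf (nat_lit 1) (nat_lit 0x3800280fcb81))))) (.nd (nat_lit 29) 
(.nd (nat_lit 20) 
(.lf (nat_lit 4496695336) (dlOf (nat_lit 1) (nat_lit 0x120008008c00200aa0008120283))) 
(.lf (nat_lit 471212072) (dlOf (nat_lit 2) (nat_lit 0x3303c0001e40800580080008002001200082c0783)))) 
(.nd (nat_lit 8) 
(.lf (nat_lit 3154518056) (dlOf (nat_lit 2) (nat_lit 0x36064003d02d00358050000be0c0004004000400181f0682))) 
(.lf (nat_lit 1007034664) (dlOf (nat_lit 1) (nat_lit 0x40028150701))))))) (.nd (nat_lit 10) 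
(.nd (nat_lit 19) (.nd (nat_lit 22) (.nd (nat_lit 20) 
(.lf (nat_lit 2753962088) (dlOf (nat_lit 2) (nat_lit 0xa198000098180a1400))) 
(.lf (nat_lit 1008083048) (dlOf (nat_lit 1) (nat_lit 0x200089c0981)))) (.nd (nat_lit 7) 
(.lf (nat_lit 48636008) (dlOf (nat_lit 3) (nat_lit 0x14c680018000000ac0801adab000e298d007700000004c180058008001400200120009420983))) 
(.lf (nat_lit 57027304) (dlOf (nat_lit 1) (nat_lit 0xa0029795981))))) (.nd (nat_lit 8) 
(.nd (nat_lit 21) (.nd (nat_lit 29) 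
(.lf (nat_lit 470687976) (dlOf (nat_lit 1) (nat_lit 0x20008150681))) 
(.lf (nat_lit 6376268008) (dlOf (nat_lit 1) (nat_lit 0x5a0018090a81)))) 
(.lf (nat_lit 19800296) (dlOf (nat_lit 1) (nat_lit 0x850008000400200ec00089d0a83)))) 
(.nd (nat_lit 11) (.lf (nat_lit 8270312) (dlOf (nat_lit 1) (nat_lit 0x8008000400200020008518683))) 
(.lf (nat_lit 6376270312) (dlOf (nat_lit 1) (nat_lit 0x400400020008094e82)))))) (.nd (nat_lit 27) 
(.nd (nat_lit 7) (.nd (nat_lit 19) 
(.lf (nat_lit 38151272) (dlOf (nat_lit 1) (nat_lit 0x400200020009132982))) 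
(.lf (nat_lit 44967016) (dlOf (nat_lit 1) (nat_lit 0x400200020009322982)))) (.nd (nat_lit 8) 
(.lf (nat_lit 8266984) (dlOf (nat_lit 1) (nat_lit 0x400200040008512e02))) 
(.lf (nat_lit 8267752) (dlOf (nat_lit 1) (nat_lit 0x20008514601))))) (.nd (nat_lit 8) 
(.nd (nat_lit 9) (.lf (nat_lit 3624283368) (dlOf (nat_lit 1) (nat_lit 0x400400060008146502))) 
(.lf (nat_lit 2886084328) (dlOf (nat_lit 1) (nat_lit 0x20028143b01)))) (.nd (nat_lit 7) 
(.lf (nat_lit 403055976) (dlOf (nat_lit 1) (nat_lit 0x200080e3481))) 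
(.lf (nat_lit 6375745000) (dlOf (nat_lit 1) (nat_lit 0x8008000400200020008003603)))))))))) 
(.nd (nat_lit 13) (.nd (nat_lit 18) (.nd (nat_lit 28) (.nd (nat_lit 19) (.nd (nat_lit 6) 
(.nd (nat_lit 7) (.nd (nat_lit 8) (.nd (nat_lit 21) (.nd (nat_lit 23) 
(.lf (nat_lit 5570232360) (dlOf (nat_lit 1) (nat_lit 0x1c00200100008090282))) 
(.lf (nat_lit 25362472) (dlOf (nat_lit 1) (nat_lit 0xc8008007400200360008c00503)))) 
(.lf (nat_lit 44236840) (dlOf (nat_lit 1) (nat_lit 0x200292e0281)))) (.nd (nat_lit 10) 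
(.lf (nat_lit 54725416) (dlOf (nat_lit 5) (nat_lit 0x41039d000898080251ce8004460406cce740020e02026e81003683a201b29d0c00047f0001a30800140029655c01))) 
(.lf (nat_lit 2885879592) (dlOf (nat_lit 1) (nat_lit 0x8008000400200020008143d03))))) 
(.nd (nat_lit 8) (.nd (nat_lit 9) 
(.lf (nat_lit 2281903272) (dlOf (nat_lit 1) (nat_lit 0x200280a9501))) 
(.lf (nat_lit 8589992) (dlOf (nat_lit 1) (nat_lit 0x8008000400200020008518c83)))) (.nd (nat_lit 11) 
(.nd (nat_lit 9) (.lf (nat_lit 1245608) (dlOf (nat_lit 1) (nat_lit 0x200080a6e81))) 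
(.lf (nat_lit 5905778600) (dlOf (nat_lit 1) (nat_lit 0x140018144301)))) (.nd (nat_lit 27) 
(.lf (nat_lit 3221424552) (dlOf (nat_lit 2) (nat_lit 0x3800002e6804001800200120008114e82))) 
(.lf (nat_lit 4966255016) (dlOf (nat_lit 1) (nat_lit 0x20008094e81))))))) (.nd (nat_lit 7) 
(.nd (nat_lit 22) (.nd (nat_lit 8) (.nd (nat_lit 9) 
(.lf (nat_lit 4832034920) (dlOf (nat_lit 1) (nat_lit 0x40028090781))) 
(.lf (nat_lit 1610810984) (dlOf (nat_lit 1) (nat_lit 0x18008001800200020008093903)))) 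
(.lf (nat_lit 2818773352) (dlOf (nat_lit 1) (nat_lit 0x16a0028128381)))) (.nd (nat_lit 8) 
(.nd (nat_lit 9) (.lf (nat_lit 38995048) (dlOf (nat_lit 1) (nat_lit 0x400200040009192982))) 
(.lf (nat_lit 54725224) (dlOf (nat_lit 3) (nat_lit 0x171bf40008204001514c00da890007439c802d9bf40007610001400400440019655382)))) 
(.lf (nat_lit 2755854696) (dlOf (nat_lit 2) (nat_lit 0x92118000188181b0700))))) (.nd (nat_lit 11) 
(.nd (nat_lit 20) (.lf (nat_lit 5368906984) (dlOf (nat_lit 1) (nat_lit 0x400400020008092e02))) 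
(.lf (nat_lit 43189480) (dlOf (nat_lit 1) (nat_lit 0x1400292a2e01)))) (.nd (nat_lit 8) 
(.nd (nat_lit 26) (.lf (nat_lit 199912) (dlOf (nat_lit 1) (nat_lit 0x600018006501))) 
(.lf (nat_lit 6509759720) (dlOf (nat_lit 2) (nat_lit 0x400ec00d004c0000004003a0018146501)))) 
(.lf (nat_lit 6107105768) (dlOf (nat_lit 1) (nat_lit 0x400400020008094e82))))))) (.nd (nat_lit 20) 
(.nd (nat_lit 21) (.nd (nat_lit 26) (.nd (nat_lit 27) 
(.lf (nat_lit 537591848) (dlOf (nat_lit 4) (nat_lit 0x3980be0002402052e05f0001181002302f800088080498008000800200ba00080c0d03))) 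
(.nd (nat_lit 29) 
(.lf (nat_lit 134938664) (dlOf (nat_lit 3) (nat_lit 0x1960050003a0100500000001c80800580080090002001400080e0503))) 
(.lf (nat_lit 2819293224) (dlOf (nat_lit 1) (nat_lit 0x20018220781))))) (.nd (nat_lit 27) 
(.lf (nat_lit 4362797096) (dlOf (nat_lit 3) (nat_lit 0x280238000fc08008814800a808c0003404000e0028100501))) 
(.lf (nat_lit 202047528) (dlOf (nat_lit 3) (nat_lit 0x1960050003a0100500000001c80800580080090002001400080e0503))))) 
(.nd (nat_lit 6) (.nd (nat_lit 7) 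
(.lf (nat_lit 11206696) (dlOf (nat_lit 1) (nat_lit 0x380008670601))) 
(.lf (nat_lit 36373672) (dlOf (nat_lit 1) (nat_lit 0x740009072c01)))) 
(.lf (nat_lit 69928296) (dlOf (nat_lit 1) (nat_lit 0x20028e13481))))) (.nd (nat_lit 9) 
(.nd (nat_lit 21) (.nd (nat_lit 24) 
(.lf (nat_lit 1769512) (dlOf (nat_lit 2) (nat_lit 0x1e16a001005180080054000540c0008002000a0008130802))) 
(.lf (nat_lit 18546728) (dlOf (nat_lit 1) (nat_lit 0x400200040008950782)))) (.nd (nat_lit 6) 
(.lf (nat_lit 8065448) (dlOf (nat_lit 1) (nat_lit 0x40008518401))) 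
(.lf (nat_lit 45809768) (dlOf (nat_lit 2) (nat_lit 0x3c92400023f300009829360980))))) 
(.nd (nat_lit 7) (.nd (nat_lit 11) 
(.lf (nat_lit 2753233448) (dlOf (nat_lit 2) (nat_lit 0xc01fc00000018090e00))) 
(.lf (nat_lit 8067624) (dlOf (nat_lit 1) (nat_lit 0x2001851b281)))) 
(.lf (nat_lit 8066984) (dlOf (nat_lit 1) (nat_lit 0x2002851a301))))))) (.nd (nat_lit 6) 
(.nd (nat_lit 26) (.nd (nat_lit 29) (.nd (nat_lit 8) (.nd (nat_lit 9) 
(.lf (nat_lit 3490384936) (dlOf (nat_lit 1) (nat_lit 0x10008001800200200008006083))) 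
(.lf (nat_lit 3491430952) (dlOf (nat_lit 2) (nat_lit 0xc01ea00000018090e00)))) 
(.lf (nat_lit 3624078632) (dlOf (nat_lit 1) (nat_lit 0x738008013800201180008146803)))) 
(.nd (nat_lit 21) (.nd (nat_lit 27) (.nd (nat_lit 30) 
(.lf (nat_lit 5100470312) (dlOf (nat_lit 1) (nat_lit 0x4000400300008090282))) 
(.lf (nat_lit 6174212136) (dlOf (nat_lit 1) (nat_lit 0x1c00200100008090282)))) 
(.lf (nat_lit 6308429864) (dlOf (nat_lit 3) (nat_lit 0xe80300001902007c0180000b018080280)))) 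
(.lf (nat_lit 1881341992) (dlOf (nat_lit 1) (nat_lit 0x2be0008ea0381))))) (.nd (nat_lit 9) 
(.nd (nat_lit 19) (.nd (nat_lit 7) 
(.lf (nat_lit 5704450088) (dlOf (nat_lit 3) (nat_lit 0xe80300001a02007c0180000b018080280))) 
(.lf (nat_lit 5167579304) (dlOf (nat_lit 1) (nat_lit 0xd200280d0601)))) (.nd (nat_lit 27) 
(.lf (nat_lit 1410007080) (dlOf (nat_lit 4) (nat_lit 0x49005f0001201007902f80008c08124017c000440402bc00400a600080c0c02))) 
(.lf (nat_lit 4228579368) (dlOf (nat_lit 3) (nat_lit 0x280200000fc08008812c00a807e0003404000e0028100501))))) 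
(.nd (nat_lit 11) (.nd (nat_lit 19) 
(.lf (nat_lit 4228055592) (dlOf (nat_lit 1) (nat_lit 0xd8008018000200440008017f03))) 
(.lf (nat_lit 473629224) (dlOf (nat_lit 1) (nat_lit 0x8008000c00200020008f68883)))) 
(.lf (nat_lit 6376589864) (dlOf (nat_lit 1) (nat_lit 0x340028095181)))))) (.nd (nat_lit 26) 
(.nd (nat_lit 9) (.nd (nat_lit 11) (.nd (nat_lit 10) 
(.lf (nat_lit 939721192) (dlOf (nat_lit 1) (nat_lit 0x208008000400200780008157d03))) 
(.lf (nat_lit 2013464040) (dlOf (nat_lit 2) (nat_lit 0xeb0130002900800680080010002000c0008093603)))) 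
(.nd (nat_lit 27) (.lf (nat_lit 268634600) (dlOf (nat_lit 1) (nat_lit 0x4004000200080e4e82))) 
(.lf (nat_lit 3624077800) (dlOf (nat_lit 1) (nat_lit 0x48008003000200140008144e83))))) 
(.nd (nat_lit 7) 
(.lf (nat_lit 2013464168) (dlOf (nat_lit 5) (nat_lit 0x18098000a20403c004c00046020186026000228100e3013000110080038008000400200200008093903))) 
(.nd (nat_lit 10) (.lf (nat_lit 268635112) (dlOf (nat_lit 1) (nat_lit 0x10004002c00180e5e82))) 
(.lf (nat_lit 3493005288) (dlOf (nat_lit 1) (nat_lit 0x4004000200080f4602)))))) (.nd (nat_lit 7) 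
(.nd (nat_lit 8) (.nd (nat_lit 9) 
(.lf (nat_lit 472580200) (dlOf (nat_lit 5) (nat_lit 0xba853405a41b202860d801a403e807d81f00001c1400580fa0000c02001807d0000501013003e0000000808200080084002000600089c0983))) 
(.lf (nat_lit 3154317928) (dlOf (nat_lit 1) (nat_lit 0x620008013c00200740008158983)))) 
(.lf (nat_lit 4630711144) (dlOf (nat_lit 1) (nat_lit 0x400400020008095c02)))) (.nd (nat_lit 11) 
(.nd (nat_lit 29) (.lf (nat_lit 469959144) (dlOf (nat_lit 1) (nat_lit 0x800400060008017d02))) 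
(.lf (nat_lit 4228055528) (dlOf (nat_lit 3) (nat_lit 0x2240540006602000c02a0001f818017300)))) 
(.nd (nat_lit 8) (.lf (nat_lit 1543703784) (dlOf (nat_lit 1) (nat_lit 0xc00400100008146502))) 
(.lf (nat_lit 4630710760) (dlOf (nat_lit 1) (nat_lit 0x400400020008094e82))))))))) 
(.nd (nat_lit 19) (.nd (nat_lit 26) (.nd (nat_lit 21) (.nd (nat_lit 20) (.nd (nat_lit 28) 
(.nd (nat_lit 6) (.nd (nat_lit 7) 
(.lf (nat_lit 5906038824) (dlOf (nat_lit 5) (nat_lit 0x2805c0005a0400d802e0002a02007e0170001481000600b800024080020008000800200020008180583))) 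
(.lf (nat_lit 134676648) (dlOf (nat_lit 1) (nat_lit 0x20028090281)))) 
(.lf (nat_lit 46598760) (dlOf (nat_lit 1) (nat_lit 0x40019385381)))) (.nd (nat_lit 30) 
(.lf (nat_lit 2416377896) (dlOf (nat_lit 1) (nat_lit 0x400281b0001))) 
(.lf (nat_lit 1342636072) (dlOf (nat_lit 1) (nat_lit 0x200280a0881))))) (.nd (nat_lit 8) 
(.nd (nat_lit 22) 
(.lf (nat_lit 9895976) (dlOf (nat_lit 1) (nat_lit 0x1680080008002005c0008590983))) 
(.lf (nat_lit 22478888) (dlOf (nat_lit 8) (nat_lit 0x453100002a0201c4afa000108100a957d00008008054abe80003e0403215f40001d020024afa0000e01000157d000068080138008006c00200020008ae0583)))) 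
(.lf (nat_lit 60230440) (dlOf (nat_lit 1) (nat_lit 0x3000400020009845c02))))) (.nd (nat_lit 8) 
(.nd (nat_lit 22) (.nd (nat_lit 23) 
(.lf (nat_lit 3492216872) (dlOf (nat_lit 1) (nat_lit 0xc004000200080b0c82))) 
(.lf (nat_lit 27721768) (dlOf (nat_lit 1) (nat_lit 0xe0028d20781)))) 
(.lf (nat_lit 15138856) (dlOf (nat_lit 2) (nat_lit 0x138000000be040140002001a00087c0682)))) 
(.nd (nat_lit 7) (.lf (nat_lit 23527720) (dlOf (nat_lit 1) (nat_lit 0x8008000400200020008b80503))) 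
(.lf (nat_lit 58130856) (dlOf (nat_lit 1) (nat_lit 0x20002000200097c6e82)))))) (.nd (nat_lit 27) 
(.nd (nat_lit 6) (.nd (nat_lit 8) (.nd (nat_lit 21) 
(.lf (nat_lit 6510018600) (dlOf (nat_lit 5) (nat_lit 0x2805c0005a0400d802e0002a02007e0170001481000600b800024080020008000800200020008180583))) 
(.lf (nat_lit 2754019368) (dlOf (nat_lit 1) (nat_lit 0xc004000200080b0c82)))) 
(.lf (nat_lit 4362535208) (dlOf (nat_lit 1) (nat_lit 0x8008000400200020008090503)))) 
(.nd (nat_lit 7) (.lf (nat_lit 4095148136) (dlOf (nat_lit 1) (nat_lit 0x80018061981))) 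
(.lf (nat_lit 2751924456) (dlOf (nat_lit 2) (nat_lit 0x206f0000c018004b00))))) (.nd (nat_lit 7) 
(.nd (nat_lit 8) (.nd (nat_lit 29) 
(.lf (nat_lit 470220840) (dlOf (nat_lit 3) (nat_lit 0x4c249000511f800288c800083a40002a08006c249002711f809a88c402ac456000222800050f700788608000301c0060004000200180a0802))) 
(.lf (nat_lit 3154575400) (dlOf (nat_lit 1) (nat_lit 0x570008060c00202d80008250803)))) 
(.lf (nat_lit 4228317480) (dlOf (nat_lit 1) (nat_lit 0x8008000400200020008090503)))) 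
(.nd (nat_lit 6) (.lf (nat_lit 201785512) (dlOf (nat_lit 1) (nat_lit 0x20028090281))) 
(.lf (nat_lit 6375802344) (dlOf (nat_lit 1) (nat_lit 0x140028003601))))))) (.nd (nat_lit 21) 
(.nd (nat_lit 6) (.nd (nat_lit 8) (.nd (nat_lit 20) (.nd (nat_lit 9) 
(.lf (nat_lit 5177384) (dlOf (nat_lit 2) (nat_lit 0xdebf70002f818320680))) 
(.lf (nat_lit 4094626344) (dlOf (nat_lit 1) (nat_lit 0x60018055181)))) (.nd (nat_lit 22) 
(.lf (nat_lit 10420264) (dlOf (nat_lit 2) (nat_lit 0x22ab00014c0800080080008002000400085d0583))) 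
(.lf (nat_lit 23003176) (dlOf (nat_lit 1) (nat_lit 0xc000802b400200460008b40683))))) 
(.nd (nat_lit 10) (.lf (nat_lit 26149160) (dlOf (nat_lit 1) (nat_lit 0x400200020008c10702))) 
(.lf (nat_lit 5772346664) (dlOf (nat_lit 1) (nat_lit 0x400200020008093182))))) (.nd (nat_lit 7) 
(.nd (nat_lit 8) (.lf (nat_lit 59703400) (dlOf (nat_lit 1) (nat_lit 0x20019820981))) 
(.nd (nat_lit 26) (.lf (nat_lit 1344209256) (dlOf (nat_lit 1) (nat_lit 0x440008490701))) 
(.lf (nat_lit 471794024) (dlOf (nat_lit 1) (nat_lit 0x440008490701))))) (.nd (nat_lit 8) 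
(.lf (nat_lit 6376325352) (dlOf (nat_lit 5) (nat_lit 0xec091007c8484002c208008029a005812f00330900002f41804584800013a0401342400008e0200020018090a81))) 
(.lf (nat_lit 6376327656) (dlOf (nat_lit 1) (nat_lit 0x80080150002004a0008094e83)))))) 
(.nd (nat_lit 10) (.nd (nat_lit 6) (.nd (nat_lit 8) 
(.lf (nat_lit 11468840) (dlOf (nat_lit 2) (nat_lit 0x542908000400800600080128002005000086a0803))) 
(.nd (nat_lit 12) (.lf (nat_lit 54463272) (dlOf (nat_lit 2) (nat_lit 0xf0743000d1819655c00))) 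
(.lf (nat_lit 2754550568) (dlOf (nat_lit 1) (nat_lit 0x18002000a00080fbc82))))) (.nd (nat_lit 7) 
(.nd (nat_lit 9) 
(.lf (nat_lit 473890920) (dlOf (nat_lit 2) (nat_lit 0x17029a00160d900005028fc0980))) 
(.lf (nat_lit 54463080) (dlOf (nat_lit 2) (nat_lit 0x387390001d819655380)))) 
(.lf (nat_lit 3492742120) (dlOf (nat_lit 1) (nat_lit 0x400180f2881))))) (.nd (nat_lit 9) 
(.nd (nat_lit 6) (.lf (nat_lit 8328360) (dlOf (nat_lit 1) (nat_lit 0x5c0018519501))) 
(.lf (nat_lit 50267496) (dlOf (nat_lit 4) (nat_lit 0xb9ce80007c040064e740003a02003674400133a18000d41000b8008008c002000400094c3483)))) 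
(.nd (nat_lit 11) (.nd (nat_lit 20) 
(.lf (nat_lit 3492742952) (dlOf (nat_lit 1) (nat_lit 0x78008006800200d200080f3d03))) 
(.lf (nat_lit 8324904) (dlOf (nat_lit 1) (nat_lit 0x8008000c002000c0008513d03)))) 
(.lf (nat_lit 19861288) (dlOf (nat_lit 1) (nat_lit 0x200089d7481))))))))) (.nd (nat_lit 28) 
(.nd (nat_lit 18) (.nd (nat_lit 9) (.nd (nat_lit 26) (.nd (nat_lit 31) (.nd (nat_lit 19) 
(.nd (nat_lit 7) (.nd (nat_lit 20) 
(.lf (nat_lit 52633640) (dlOf (nat_lit 2) (nat_lit 0x12e2e00013019560800))) 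
(.lf (nat_lit 24322088) (dlOf (nat_lit 1) (nat_lit 0x20008b90901)))) 
(.lf (nat_lit 11739560) (dlOf (nat_lit 1) (nat_lit 0x600286c0781)))) (.nd (nat_lit 20) 
(.lf (nat_lit 134946856) (dlOf (nat_lit 13) (nat_lit 0x17e0280002013c036404a033a00500460000001d0282c88000000e404018c0000007102001800000037810074018803180b000840220006a0600e6031007401600188044000d20c002c07400040390003082000100a8001600803c80c40230058008e0110001403007b000000090080360000000440400580000000002009200280e0501))) 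
(.lf (nat_lit 18554920) (dlOf (nat_lit 1) (nat_lit 0x68008006c002004c0008950783))))) 
(.nd (nat_lit 7) (.nd (nat_lit 6) 
(.lf (nat_lit 3221433640) (dlOf (nat_lit 1) (nat_lit 0x20008116801))) 
(.lf (nat_lit 3892526184) (dlOf (nat_lit 1) (nat_lit 0x10001815c081)))) (.nd (nat_lit 8) 
(.lf (nat_lit 2281911464) (dlOf (nat_lit 1) (nat_lit 0xb4002001200080a9502))) 
(.lf (nat_lit 3221432744) (dlOf (nat_lit 2) (nat_lit 0x1c000017340200020018114e81)))))) 
(.nd (nat_lit 19) (.nd (nat_lit 6) (.nd (nat_lit 27) (.nd (nat_lit 29) 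
(.lf (nat_lit 4362281000) (dlOf (nat_lit 2) (nat_lit 0x100ac0004204000800200040008020582))) 
(.lf (nat_lit 604184616) (dlOf (nat_lit 4) (nat_lit 0x808a0006602004a045000308100040228000840802a000801d000200e00008080683)))) 
(.lf (nat_lit 4496498728) (dlOf (nat_lit 1) (nat_lit 0x120008008c00200aa0008090283)))) 
(.lf (nat_lit 6509767912) (dlOf (nat_lit 1) (nat_lit 0x400200040008146502)))) (.nd (nat_lit 27) 
(.lf (nat_lit 4362805288) (dlOf (nat_lit 27) (nat_lit 0x32405300220288001812c0a6008e064a0330370016800100900050038000491001a8053011902380ac00cc069c05a000480808f8053018702882cd011c178005a00760280034012000080700008e1c11840a603ce051001202582a2811c00a408a0772033038001680320090006c0380098009000230a04c002980668144166408e061e03300b00168002009000b0012000450e018a053006202380cb80cc02d405a0004408014805300cf023806980cc000860c06500b80b880530791023826280cc057405a0003f0a02ea053010102380e200cc0007c0c0d380a608b40470001e820031029001a811803dc0660003b06059c05200df02881d5811807b808a063e0410001c85006f02d0248814800e40a20b3e04603f3022814d01040db0066006402d000500b0000e04808500cc0006e0405540b6094805200c002882da0118088808206e003300bc00b805d8000000682001a40b6044a0520336023001200cc0006610019408c0002e02011805200e60230000b01002480cc0004e04000808e000210200420470000f8100120238000700801d011c000360400880a60014047010001980006818068011c05f80660001904000205200d4019800000100a7800803f000201dc0008100503)))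 
(.lf (nat_lit 202055720) (dlOf (nat_lit 13) (nat_lit 0x17e02800020138036404a033a00500460000001d0282c88000000e404018c000000710200180000003781000b01d000100e4000c80801d006200c602c00210088001841803980c401d005800620110003003000100b0001600803c80c40230058008e0110001403007b000000090080360000000440400580000000002009200280e0501)))))) 
(.nd (nat_lit 6) (.nd (nat_lit 11) (.nd (nat_lit 7) 
(.lf (nat_lit 3825410600) (dlOf (nat_lit 1) (nat_lit 0x160018157f01))) (.nd (nat_lit 10) 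
(.lf (nat_lit 20656808) (dlOf (nat_lit 1) (nat_lit 0x4002000200089d8c82))) 
(.lf (nat_lit 8599208) (dlOf (nat_lit 1) (nat_lit 0xc002851a001))))) (.nd (nat_lit 8) 
(.nd (nat_lit 32) 
(.lf (nat_lit 1141058088) (dlOf (nat_lit 1) (nat_lit 0x280080034002000c0008095183))) 
(.lf (nat_lit 5436025384) (dlOf (nat_lit 1) (nat_lit 0x20028095181)))) 
(.lf (nat_lit 54733608) (dlOf (nat_lit 2) (nat_lit 0x22e3f8000d1819655c00))))) (.nd (nat_lit 10) 
(.nd (nat_lit 7) (.nd (nat_lit 11) 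
(.lf (nat_lit 20132456) (dlOf (nat_lit 1) (nat_lit 0x200189d8981))) 
(.lf (nat_lit 54733416) (dlOf (nat_lit 1) (nat_lit 0x100080014002000c0009655383)))) 
(.lf (nat_lit 8598248) (dlOf (nat_lit 2) (nat_lit 0x3119c0003a04000800200060008518d82)))) 
(.nd (nat_lit 8) (.nd (nat_lit 12) 
(.lf (nat_lit 537077480) (dlOf (nat_lit 1) (nat_lit 0x20028003b01))) 
(.lf (nat_lit 2818782952) (dlOf (nat_lit 1) (nat_lit 0x2001812a001)))) 
(.lf (nat_lit 3892522984) (dlOf (nat_lit 1) (nat_lit 0x20028157a81))))))) (.nd (nat_lit 8) 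
(.nd (nat_lit 19) (.nd (nat_lit 7) (.nd (nat_lit 21) (.nd (nat_lit 25) 
(.lf (nat_lit 3892781096) (dlOf (nat_lit 1) (nat_lit 0x2c004003c0008260782))) 
(.lf (nat_lit 34021416) (dlOf (nat_lit 2) (nat_lit 0x180000005204000800200060008f90202)))) 
(.lf (nat_lit 15147048) (dlOf (nat_lit 2) (nat_lit 0x3300000017c0800100080198002001600087c0683)))) 
(.nd (nat_lit 20) (.lf (nat_lit 54993064) (dlOf (nat_lit 1) (nat_lit 0x280019681481))) 
(.lf (nat_lit 12001448) (dlOf (nat_lit 1) (nat_lit 0x4004000200086c0282))))) (.nd (nat_lit 6) 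
(.nd (nat_lit 7) (.nd (nat_lit 20) 
(.lf (nat_lit 21962792) (dlOf (nat_lit 1) (nat_lit 0x400200020008a80a82))) 
(.lf (nat_lit 23011368) (dlOf (nat_lit 1) (nat_lit 0x10008000c002001a0008b40683)))) 
(.lf (nat_lit 8336040) (dlOf (nat_lit 1) (nat_lit 0x400200020008518c82)))) (.nd (nat_lit 7) 
(.lf (nat_lit 12525672) (dlOf (nat_lit 2) (nat_lit 0x49c5400020040008004000200086d1402))) 
(.lf (nat_lit 19865832) (dlOf (nat_lit 1) (nat_lit 0x100080088002000e00089d0a83)))))) 
(.nd (nat_lit 7) (.nd (nat_lit 6) (.nd (nat_lit 9) 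
(.lf (nat_lit 19871016) (dlOf (nat_lit 1) (nat_lit 0x80080014002000400089d9803))) 
(.lf (nat_lit 20392744) (dlOf (nat_lit 2) (nat_lit 0x1792e000f48189d5c00)))) (.nd (nat_lit 11) 
(.nd (nat_lit 19) (.lf (nat_lit 2755076456) (dlOf (nat_lit 1) (nat_lit 0x400400020018105202))) 
(.lf (nat_lit 2040168) (dlOf (nat_lit 1) (nat_lit 0xd0008005000200100008150703)))) 
(.lf (nat_lit 57092456) (dlOf (nat_lit 1) (nat_lit 0x100029794e81))))) (.nd (nat_lit 21) 
(.nd (nat_lit 6) (.lf (nat_lit 38218152) (dlOf (nat_lit 1) (nat_lit 0x100019134e81))) 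
(.lf (nat_lit 2752455144) (dlOf (nat_lit 1) (nat_lit 0x890008007400201420008017d03)))) 
(.nd (nat_lit 10) (.lf (nat_lit 2754554344) (dlOf (nat_lit 1) (nat_lit 0x200280f4e81))) 
(.lf (nat_lit 19873256) (dlOf (nat_lit 1) (nat_lit 0x8002000200089dcd02)))))))) (.nd (nat_lit 27) 
(.nd (nat_lit 6) (.nd (nat_lit 8) (.nd (nat_lit 9) (.nd (nat_lit 7) (.nd (nat_lit 18) 
(.lf (nat_lit 5100478504) (dlOf (nat_lit 1) (nat_lit 0x200080a0981))) 
(.lf (nat_lit 1343692840) (dlOf (nat_lit 1) (nat_lit 0xa0018330601)))) 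
(.lf (nat_lit 3556978856) (dlOf (nat_lit 1) (nat_lit 0x33800800a000200a40008127d83)))) 
(.nd (nat_lit 11) 
(.lf (nat_lit 1345790504) (dlOf (nat_lit 2) (nat_lit 0x60000000790201100018de8881))) 
(.lf (nat_lit 1346316840) (dlOf (nat_lit 4) (nat_lit 0x80b30002fc08005859c002c2cc001e157000206280008310000c12c001601b000d00d00022840004059c00242cc001e14400100670004006c0010034000880c00160028f05181))))) 
(.nd (nat_lit 9) (.nd (nat_lit 10) (.nd (nat_lit 19) 
(.lf (nat_lit 2416386344) (dlOf (nat_lit 1) (nat_lit 0x74002001a00081b0502))) 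
(.lf (nat_lit 1345265960) (dlOf (nat_lit 1) (nat_lit 0x60008b28181)))) 
(.lf (nat_lit 5167588648) (dlOf (nat_lit 2) (nat_lit 0x140460001602000600180d3181)))) 
(.nd (nat_lit 20) (.lf (nat_lit 4563610408) (dlOf (nat_lit 1) (nat_lit 0x60028095c01))) 
(.lf (nat_lit 1345530664) (dlOf (nat_lit 1) (nat_lit 0x20018c95c01)))))) (.nd (nat_lit 7) 
(.nd (nat_lit 12) (.nd (nat_lit 8) 
(.lf (nat_lit 3489868904) (dlOf (nat_lit 1) (nat_lit 0xc0028006081))) 
(.lf (nat_lit 3494060392) (dlOf (nat_lit 3) (nat_lit 0x1d888c00ac23000031040018202000128181b0700)))) 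
(.nd (nat_lit 19) (.nd (nat_lit 26) 
(.lf (nat_lit 805518696) (dlOf (nat_lit 1) (nat_lit 0x16002811c901))) 
(.lf (nat_lit 1409498472) (dlOf (nat_lit 1) (nat_lit 0x2002800c901)))) 
(.lf (nat_lit 3490397544) (dlOf (nat_lit 1) (nat_lit 0x18002800c901))))) (.nd (nat_lit 8) 
(.nd (nat_lit 18) (.lf (nat_lit 1409494248) (dlOf (nat_lit 1) (nat_lit 0x20028006501))) 
(.lf (nat_lit 3490131176) (dlOf (nat_lit 1) (nat_lit 0xc0028006501)))) 
(.lf (nat_lit 3489868264) (dlOf (nat_lit 1) (nat_lit 0x180080010002000a0008004e83)))))) 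
(.nd (nat_lit 6) (.nd (nat_lit 8) (.nd (nat_lit 18) (.nd (nat_lit 19) 
(.lf (nat_lit 4228063272) (dlOf (nat_lit 2) (nat_lit 0x100a80004204000800200040008020582))) 
(.lf (nat_lit 4228587560) (dlOf (nat_lit 27) (nat_lit 0x32404c0022025000181100a60080064a0320370016000100900050038000461001a804c011902000ac00c8069c058000450808f804c018702502cd010000ec05c0bc002c003401200008070000881c118409803ce04a001202202a2810000a407c0772032038001600320090006c0380098009000218a04c0026006681281664080061e03200b00160002009000b0012000420e018a04c006202000cb80c802d40580004108014804c00cf020006980c8000800c06500aa0b8804c0791020026280c805740580003f0a02ea04c010102000e200c80007c0c0d3809808b40400001e820031025801a80fc03dc0640003906059c04b00df02501d580fc07b807c063e03a0001b85006f0298248812c00e40940b3e03f03f301f014d00e80db0064006402c000500b0000d84808500c80006a0405540a8094804b00c002502da00fc088807406e003200bc00b805d8000000682001a40a8044a04b033601f801200c80006610019407e0002e02011804b00e601f8000b01002480c80004e040008080000210200420400000f8100120200000700801d0100000360400880980014040010001900006818068010005f80640001904000204b00d4019000000100a7800803f000201dc0008100503))))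 
(.nd (nat_lit 9) (.lf (nat_lit 473899048) (dlOf (nat_lit 1) (nat_lit 0x27800400020018fc0202))) 
(.lf (nat_lit 472850984) (dlOf (nat_lit 2) (nat_lit 0x318594000f20400c0002001a0008b18882))))) 
(.nd (nat_lit 11) (.nd (nat_lit 10) (.nd (nat_lit 12) 
(.lf (nat_lit 2550604072) (dlOf (nat_lit 1) (nat_lit 0x74002001a00081b0502))) 
(.lf (nat_lit 3154325800) (dlOf (nat_lit 1) (nat_lit 0x20028158081)))) 
(.lf (nat_lit 5772354856) (dlOf (nat_lit 1) (nat_lit 0x8008000400200020008093183)))) 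
(.nd (nat_lit 7) (.lf (nat_lit 5771569960) (dlOf (nat_lit 2) (nat_lit 0xa13200040018005c00))) 
(.lf (nat_lit 472328616) (dlOf (nat_lit 1) (nat_lit 0x2c00400100008984e82)))))) (.nd (nat_lit 19) 
(.nd (nat_lit 10) (.nd (nat_lit 7) 
(.lf (nat_lit 3087212904) (dlOf (nat_lit 2) (nat_lit 0x80028014b604000c004001e0008155202))) 
(.lf (nat_lit 3087213032) (dlOf (nat_lit 1) (nat_lit 0x800200320008157d02)))) (.nd (nat_lit 26) 
(.lf (nat_lit 4697826792) (dlOf (nat_lit 1) (nat_lit 0x20028093601))) 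
(.lf (nat_lit 6375548392) (dlOf (nat_lit 1) (nat_lit 0x8008000400200020008003603))))) 
(.nd (nat_lit 7) (.nd (nat_lit 18) 
(.lf (nat_lit 472588392) (dlOf (nat_lit 2) (nat_lit 0x2304e000e0234000000800a4004003400089c0982))) 
(.lf (nat_lit 473899112) (dlOf (nat_lit 8) (nat_lit 0x26a14d029706c808d036003300fa01ae07c0003015800038300ee83640001a040a581b2011807d000060200a106c80002c080fb05340d401b203980d8018503e80d181f0000141404601b2000090204840d9004f03e800000100420008015400200640008fc0983)))) 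
(.nd (nat_lit 8) 
(.lf (nat_lit 6376333544) (dlOf (nat_lit 5) (nat_lit 0xc09880ef04880788242001610600d212f00730900002f4100bc04800013a0404f02400008e0200680028090a81))) 
(.lf (nat_lit 6376335848) (dlOf (nat_lit 1) (nat_lit 0x8008000400200020008094e83))))))))))))

end

end Pool.Agent.Lib.MP_5854e1_co.Cz

namespace Pool.Agent.Lib.MP_5854e1_co.Cz

noncomputable section

noncomputable def tz18 : DT := (.nd (nat_lit 17) (.nd (nat_lit 5) (.nd (nat_lit 6) 
(.nd (nat_lit 16) (.nd (nat_lit 28) (.nd (nat_lit 26) (.nd (nat_lit 7) (.nd (nat_lit 19) 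
(.nd (nat_lit 9) (.nd (nat_lit 18) (.nd (nat_lit 8) 
(.lf (nat_lit 10485784) (dlOf (nat_lit 1) (nat_lit 0x4002000200085e0a82))) 
(.lf (nat_lit 134221080) (dlOf (nat_lit 1) (nat_lit 0x400400020008006702)))) (.nd (nat_lit 20) 
(.nd (nat_lit 25) 
(.lf (nat_lit 29622296) (dlOf (nat_lit 3) (nat_lit 0x2129f000dd4d400030040006a3400012018e20400))) 
(.lf (nat_lit 63176728) (dlOf (nat_lit 1) (nat_lit 0x200299f0601)))) 
(.lf (nat_lit 26476568) (dlOf (nat_lit 2) (nat_lit 0xcc9d08007f0080010008000800200020008c50083))))) 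
(.nd (nat_lit 11) (.nd (nat_lit 10) 
(.lf (nat_lit 41157144) (dlOf (nat_lit 1) (nat_lit 0x2a800403880009227e82))) 
(.lf (nat_lit 2684360216) (dlOf (nat_lit 1) (nat_lit 0x8008000400200040008009c03)))) 
(.nd (nat_lit 29) 
(.lf (nat_lit 1073748504) (dlOf (nat_lit 1) (nat_lit 0x800800040020002000800b283))) 
(.lf (nat_lit 536877592) (dlOf (nat_lit 1) (nat_lit 0x8008002400200ba000800b283)))))) 
(.nd (nat_lit 20) (.nd (nat_lit 21) 
(.lf (nat_lit 134742040) (dlOf (nat_lit 4) (nat_lit 0x260218063a008024810c004007e018e7040042043000901f8063901001480080008002005800080a0903))) 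
(.nd (nat_lit 24) (.lf (nat_lit 36175896) (dlOf (nat_lit 1) (nat_lit 0x400400020019040602))) 
(.lf (nat_lit 19398680) (dlOf (nat_lit 1) (nat_lit 0x20018990a01))))) (.nd (nat_lit 8) 
(.nd (nat_lit 10) (.lf (nat_lit 24903704) (dlOf (nat_lit 1) (nat_lit 0x1a0018bc0901))) 
(.lf (nat_lit 56099864) (dlOf (nat_lit 1) (nat_lit 0x20019732881)))) 
(.lf (nat_lit 12058904) (dlOf (nat_lit 1) (nat_lit 0x200080008002000200086c0483)))))) 
(.nd (nat_lit 11) (.nd (nat_lit 9) (.nd (nat_lit 18) 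
(.lf (nat_lit 23593112) (dlOf (nat_lit 1) (nat_lit 0x20018b80181))) (.nd (nat_lit 20) 
(.lf (nat_lit 1208221848) (dlOf (nat_lit 1) (nat_lit 0x80080004002000200080a2b83))) 
(.lf (nat_lit 11796632) (dlOf (nat_lit 1) (nat_lit 0x4002000200086c0182))))) (.nd (nat_lit 8) 
(.lf (nat_lit 19927704) (dlOf (nat_lit 1) (nat_lit 0x4002000200089d8c82))) 
(.lf (nat_lit 2281702296) (dlOf (nat_lit 1) (nat_lit 0x60018002581))))) (.nd (nat_lit 8) 
(.nd (nat_lit 10) (.lf (nat_lit 4429187224) (dlOf (nat_lit 1) (nat_lit 0xe0018004801))) 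
(.lf (nat_lit 134220952) (dlOf (nat_lit 1) (nat_lit 0x20028006201)))) (.nd (nat_lit 9) 
(.lf (nat_lit 537664920) (dlOf (nat_lit 1) (nat_lit 0x200180fca01))) (.nd (nat_lit 21) 
(.lf (nat_lit 537664408) (dlOf (nat_lit 2) (nat_lit 0x203b001518080018008008c002001800080fbc83))) 
(.lf (nat_lit 19667864) (dlOf (nat_lit 3) (nat_lit 0x858080273c080012c0400a8c040060004001400189dbc82)))))))) 
(.nd (nat_lit 27) (.nd (nat_lit 18) (.nd (nat_lit 10) (.nd (nat_lit 19) (.nd (nat_lit 12) 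
(.lf (nat_lit 68157464) (dlOf (nat_lit 2) (nat_lit 0x240948007a8080020008003c002002e0008400083))) 
(.lf (nat_lit 67112984) (dlOf (nat_lit 1) (nat_lit 0x40018007a81)))) (.nd (nat_lit 21) 
(.lf (nat_lit 4362600472) (dlOf (nat_lit 1) (nat_lit 0x1400080034002005600080a0903))) 
(.lf (nat_lit 2754084888) (dlOf (nat_lit 1) (nat_lit 0x18008000c002000600080b0903))))) 
(.nd (nat_lit 9) (.lf (nat_lit 67114008) (dlOf (nat_lit 1) (nat_lit 0x20018009201))) 
(.lf (nat_lit 5435819544) (dlOf (nat_lit 1) (nat_lit 0x400400020008003702))))) (.nd (nat_lit 7) 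
(.nd (nat_lit 8) (.lf (nat_lit 4362338328) (dlOf (nat_lit 1) (nat_lit 0x400400020018030a82))) 
(.lf (nat_lit 2752774424) (dlOf (nat_lit 1) (nat_lit 0x10008000400200020008047f03)))) 
(.lf (nat_lit 3288596632) (dlOf (nat_lit 2) (nat_lit 0x405a0002f02001e0028090181))))) 
(.nd (nat_lit 9) (.nd (nat_lit 7) (.nd (nat_lit 29) 
(.lf (nat_lit 201850904) (dlOf (nat_lit 4) (nat_lit 0x2602180711808024810c004007e01c45040042043000901f8071081001480080008002005800080a0903))) 
(.lf (nat_lit 738721816) (dlOf (nat_lit 2) (nat_lit 0x2c80a0018a03200b600e0033b01801500080014002001400080f0a03)))) 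
(.lf (nat_lit 2885688728) (dlOf (nat_lit 2) (nat_lit 0x201c000300200016810007000800240020012000800ca03)))) 
(.nd (nat_lit 7) (.nd (nat_lit 11) 
(.lf (nat_lit 3422552600) (dlOf (nat_lit 1) (nat_lit 0x20028001481))) 
(.lf (nat_lit 201333272) (dlOf (nat_lit 1) (nat_lit 0x140020002000800b282)))) 
(.lf (nat_lit 201328536) (dlOf (nat_lit 1) (nat_lit 0x400400020008004202))))))) (.nd (nat_lit 10) 
(.nd (nat_lit 18) (.nd (nat_lit 12) (.nd (nat_lit 26) (.nd (nat_lit 21) 
(.lf (nat_lit 3624402968) (dlOf (nat_lit 2) (nat_lit 0x1e01d002bc018190480))) 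
(.lf (nat_lit 3492282392) (dlOf (nat_lit 1) (nat_lit 0x18008000c002000600080b0903)))) 
(.nd (nat_lit 19) 
(.lf (nat_lit 473956376) (dlOf (nat_lit 2) (nat_lit 0xc1b2002470200020018fd0601))) 
(.nd (nat_lit 20) 
(.lf (nat_lit 4228382744) (dlOf (nat_lit 1) (nat_lit 0x1400080034002005600080a0903))) 
(.lf (nat_lit 471334936) (dlOf (nat_lit 1) (nat_lit 0x1e00282e0001)))))) (.nd (nat_lit 7) 
(.nd (nat_lit 9) (.lf (nat_lit 3690991640) (dlOf (nat_lit 1) (nat_lit 0xc0008007a81))) 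
(.nd (nat_lit 29) (.lf (nat_lit 2415925784) (dlOf (nat_lit 1) (nat_lit 0x40040002000800b282))) 
(.lf (nat_lit 4026538520) (dlOf (nat_lit 1) (nat_lit 0x40040002000800b282))))) (.nd (nat_lit 8) 
(.lf (nat_lit 1476399768) (dlOf (nat_lit 1) (nat_lit 0x400200020008008c82))) 
(.lf (nat_lit 3489667992) (dlOf (nat_lit 1) (nat_lit 0x44000800040020002000800bc83)))))) 
(.nd (nat_lit 7) (.nd (nat_lit 29) (.nd (nat_lit 20) 
(.lf (nat_lit 402915352) (dlOf (nat_lit 1) (nat_lit 0x2400280a0581))) 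
(.lf (nat_lit 471072792) (dlOf (nat_lit 2) (nat_lit 0x4e09d002503f0000001000b8008010800200040008260483)))) 
(.nd (nat_lit 19) (.lf (nat_lit 4228120600) (dlOf (nat_lit 1) (nat_lit 0x400400020018030a82))) 
(.lf (nat_lit 1007419416) (dlOf (nat_lit 1) (nat_lit 0x400200040008340482))))) (.nd (nat_lit 29) 
(.nd (nat_lit 19) (.lf (nat_lit 335806616) (dlOf (nat_lit 1) (nat_lit 0x4004000400080a2b82))) 
(.lf (nat_lit 3491496088) (dlOf (nat_lit 1) (nat_lit 0x380080014002000a0008090183)))) 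
(.nd (nat_lit 8) 
(.lf (nat_lit 4026794136) (dlOf (nat_lit 2) (nat_lit 0x405a0002f02001e0028090181))) 
(.lf (nat_lit 4026794392) (dlOf (nat_lit 2) (nat_lit 0x3101700339c0802180080248002003e0008090783))))))) 
(.nd (nat_lit 8) (.nd (nat_lit 12) (.nd (nat_lit 27) (.nd (nat_lit 7) (.nd (nat_lit 26) 
(.lf (nat_lit 5100538904) (dlOf (nat_lit 1) (nat_lit 0x200280d6001))) 
(.lf (nat_lit 6241389592) (dlOf (nat_lit 1) (nat_lit 0x4004000200080d6002)))) 
(.lf (nat_lit 1345062040) (dlOf (nat_lit 1) (nat_lit 0x1400189e2b81)))) (.nd (nat_lit 29) 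
(.lf (nat_lit 5771627544) (dlOf (nat_lit 1) (nat_lit 0x20028006001))) 
(.lf (nat_lit 6308498456) (dlOf (nat_lit 1) (nat_lit 0x3a00180d6001))))) (.nd (nat_lit 11) 
(.nd (nat_lit 26) (.lf (nat_lit 1476400152) (dlOf (nat_lit 1) (nat_lit 0x20028009201))) 
(.lf (nat_lit 3690992664) (dlOf (nat_lit 1) (nat_lit 0x20028009201)))) (.nd (nat_lit 7) 
(.lf (nat_lit 2952797720) (dlOf (nat_lit 1) (nat_lit 0x7e002800cf01))) 
(.lf (nat_lit 4227865752) (dlOf (nat_lit 1) (nat_lit 0x4001800c201)))))) (.nd (nat_lit 7) 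
(.nd (nat_lit 11) (.nd (nat_lit 9) 
(.lf (nat_lit 5234754840) (dlOf (nat_lit 2) (nat_lit 0xc00c0000440800500080018002002000080d3083))) 
(.lf (nat_lit 1342183192) (dlOf (nat_lit 1) (nat_lit 0x40040002000800a002)))) (.nd (nat_lit 27) 
(.lf (nat_lit 1946160408) (dlOf (nat_lit 1) (nat_lit 0x60028006701))) 
(.lf (nat_lit 4227861784) (dlOf (nat_lit 1) (nat_lit 0x400400020008006702))))) (.nd (nat_lit 12) 
(.nd (nat_lit 26) (.lf (nat_lit 2550140312) (dlOf (nat_lit 1) (nat_lit 0x24004004e0008006d02))) 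
(.lf (nat_lit 2483031448) (dlOf (nat_lit 1) (nat_lit 0x40018006d01)))) (.nd (nat_lit 9) 
(.lf (nat_lit 3489668504) (dlOf (nat_lit 1) (nat_lit 0x80040004000800ca02))) 
(.lf (nat_lit 1476401048) (dlOf (nat_lit 1) (nat_lit 0x2000800a301))))))))) (.nd (nat_lit 30) 
(.nd (nat_lit 21) (.nd (nat_lit 27) (.nd (nat_lit 10) (.nd (nat_lit 18) (.nd (nat_lit 9) 
(.nd (nat_lit 19) 
(.lf (nat_lit 5308440) (dlOf (nat_lit 1) (nat_lit 0x530008001400200900008340483))) 
(.lf (nat_lit 4784152) (dlOf (nat_lit 3) (nat_lit 0x2c0cf2014c66200a527180591344003d6100034cf2000866200092718007a81801680080060002000a00082b0083)))) 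
(.lf (nat_lit 50399768) (dlOf (nat_lit 1) (nat_lit 0x4004000200094c5082)))) (.nd (nat_lit 19) 
(.lf (nat_lit 17104920) (dlOf (nat_lit 1) (nat_lit 0x4002000200088e0002))) (.nd (nat_lit 20) 
(.lf (nat_lit 42795032) (dlOf (nat_lit 5) (nat_lit 0xa33a8003d60400719d4001ea020052cea000e90100296750007440800c8008000800200100009280083))) 
(.lf (nat_lit 18677784) (dlOf (nat_lit 6) (nat_lit 0x23eb80019ccc000aa0800591d400247d700173d600071d7c006ce66000540a00d88ea00773eb80061f580224f5800047ab00023af80121ccc000a41c0004f58000a7330002602000647500021f5c0010f5800027ab00013af80059ccc0009618005c004003a0018960402)))))) 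
(.nd (nat_lit 8) (.nd (nat_lit 9) 
(.lf (nat_lit 59837464) (dlOf (nat_lit 1) (nat_lit 0x400400020009846002))) 
(.lf (nat_lit 268502552) (dlOf (nat_lit 1) (nat_lit 0x10008001400200040008053703)))) 
(.nd (nat_lit 26) (.lf (nat_lit 5100340504) (dlOf (nat_lit 1) (nat_lit 0x9c0008053081))) 
(.lf (nat_lit 4899013912) (dlOf (nat_lit 1) (nat_lit 0x10008000400200020008053083)))))) 
(.nd (nat_lit 8) (.nd (nat_lit 9) (.nd (nat_lit 10) 
(.lf (nat_lit 3154444312) (dlOf (nat_lit 2) (nat_lit 0x6c0a80008033001501200060088003f8100050004000600081a0082))) 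
(.lf (nat_lit 4496624664) (dlOf (nat_lit 1) (nat_lit 0x48004000800080e6002)))) (.nd (nat_lit 31) 
(.lf (nat_lit 939590168) (dlOf (nat_lit 1) (nat_lit 0x28002000800080b0d82))) 
(.lf (nat_lit 3087073816) (dlOf (nat_lit 2) (nat_lit 0x1001d000a00c8000001000e000800d8002000600080b0d83))))) 
(.nd (nat_lit 7) (.nd (nat_lit 9) (.nd (nat_lit 22) 
(.lf (nat_lit 3087073560) (dlOf (nat_lit 1) (nat_lit 0x3c002000800080b0482))) 
(.lf (nat_lit 474022168) (dlOf (nat_lit 1) (nat_lit 0x3400400060009000a82)))) 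
(.lf (nat_lit 671155992) (dlOf (nat_lit 1) (nat_lit 0x400400020008143c82)))) (.nd (nat_lit 9) 
(.lf (nat_lit 134286744) (dlOf (nat_lit 1) (nat_lit 0x20028006d01))) 
(.lf (nat_lit 5234559896) (dlOf (nat_lit 1) (nat_lit 0x400400020018055c82))))))) (.nd (nat_lit 18) 
(.nd (nat_lit 22) (.nd (nat_lit 23) (.nd (nat_lit 26) 
(.lf (nat_lit 3735576) (dlOf (nat_lit 1) (nat_lit 0x400400060018220a02))) 
(.lf (nat_lit 2755199000) (dlOf (nat_lit 2) (nat_lit 0x10100029f0080058008000c002000a0008130483)))) 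
(.nd (nat_lit 9) 
(.lf (nat_lit 28377112) (dlOf (nat_lit 4) (nat_lit 0x5182a0005f02000cc150002f01005874b0000cc0800500080054002000a0008d90403))) 
(.lf (nat_lit 12124696) (dlOf (nat_lit 1) (nat_lit 0x200286c0d81))))) (.nd (nat_lit 8) 
(.nd (nat_lit 19) 
(.lf (nat_lit 14745624) (dlOf (nat_lit 8) (nat_lit 0xc71a40006e28000f44c000f683011ce34801e719c041ae280043712010ca260015caa4003d81800dbbfe012bc690043e340002f19c0202e2800ed7130039b89000e56d0021e89800ff2a9006e802803fbdac01e8000001eb1a0251df9014be38815971a401b78ce0041bf0013ddf4814d5c500206e26019f71202a3a260007d0f8020a78000072a900489360006c3d400b200a0018f6b001378700788000003d44c02c6e26001d2020181713000e881002baeb000560080078008004000200040008770083))) 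
(.lf (nat_lit 24707096) (dlOf (nat_lit 4) (nat_lit 0x2af24001975c00016040024bc90000a0100055e480032eb80000a080004002000a0008bb0482)))) 
(.lf (nat_lit 58261784) (dlOf (nat_lit 2) (nat_lit 0x467180015c080008008001c002002200097d7503))))) 
(.nd (nat_lit 20) (.nd (nat_lit 19) (.nd (nat_lit 22) 
(.lf (nat_lit 27590680) (dlOf (nat_lit 1) (nat_lit 0x20018d00481))) 
(.lf (nat_lit 15007768) (dlOf (nat_lit 1) (nat_lit 0x37000801f0002012800087a0483)))) 
(.nd (nat_lit 7) 
(.lf (nat_lit 2754412568) (dlOf (nat_lit 4) (nat_lit 0x221078000c80801d883c00283ea000a1df000188300221078000bc0800100080004002005000080e0383))) 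
(.lf (nat_lit 36506008) (dlOf (nat_lit 1) (nat_lit 0x20019074e81))))) (.nd (nat_lit 10) 
(.nd (nat_lit 23) (.lf (nat_lit 24444952) (dlOf (nat_lit 1) (nat_lit 0x400400040018ba0a02))) 
(.lf (nat_lit 16056344) (dlOf (nat_lit 1) (nat_lit 0x20008860481)))) 
(.lf (nat_lit 20253720) (dlOf (nat_lit 1) (nat_lit 0x400289d6001))))))) (.nd (nat_lit 28) 
(.nd (nat_lit 8) (.nd (nat_lit 18) (.nd (nat_lit 19) 
(.lf (nat_lit 3221291032) (dlOf (nat_lit 1) (nat_lit 0x8008000400200020008090003))) 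
(.nd (nat_lit 26) 
(.lf (nat_lit 3221815320) (dlOf (nat_lit 2) (nat_lit 0xb02300552008053800800c800200060008190903))) 
(.lf (nat_lit 3960012824) (dlOf (nat_lit 2) (nat_lit 0xb023005ae808053800800c800200060008190903))))) 
(.nd (nat_lit 26) 
(.lf (nat_lit 3892641816) (dlOf (nat_lit 4) (nat_lit 0x2c09e001ed02014805100a40278007ac1004b00cc003d40400a400400020008180082))) 
(.lf (nat_lit 3288662040) (dlOf (nat_lit 11) (nat_lit 0x280d802f5604003806c0179902000203600bb101006e0170042f40800e00b801f560400d405c00f8102006a02e007b901006e017003d700804000b801eb40401b805c00f5202011400080a0901))))) 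
(.nd (nat_lit 7) (.nd (nat_lit 27) 
(.lf (nat_lit 3825271064) (dlOf (nat_lit 4) (nat_lit 0x20110003007c002403600120170011000000740280010088000c03e000601b000700b8007382000d8000000fe0402d0002000800080b0482))) 
(.lf (nat_lit 1812005144) (dlOf (nat_lit 3) (nat_lit 0x30120002007c0034034001c0000011d840002000000860080010008017c002003000080b0483)))) 
(.nd (nat_lit 9) (.nd (nat_lit 10) 
(.lf (nat_lit 1208027544) (dlOf (nat_lit 1) (nat_lit 0x20028094e81))) 
(.lf (nat_lit 1140917656) (dlOf (nat_lit 2) (nat_lit 0x80140037a04000800400020018003602)))) 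
(.lf (nat_lit 3355513752) (dlOf (nat_lit 1) (nat_lit 0x8c00280a9101)))))) (.nd (nat_lit 18) 
(.nd (nat_lit 9) (.nd (nat_lit 10) (.nd (nat_lit 20) 
(.lf (nat_lit 3557359640) (dlOf (nat_lit 1) (nat_lit 0x2e00181c0481))) 
(.lf (nat_lit 3493396504) (dlOf (nat_lit 2) (nat_lit 0x101000139c080058008000c002000a0008130483)))) 
(.lf (nat_lit 6174084120) (dlOf (nat_lit 1) (nat_lit 0x400400020018056002)))) (.nd (nat_lit 7) 
(.lf (nat_lit 4026604056) (dlOf (nat_lit 1) (nat_lit 0x940040002000800b282))) (.nd (nat_lit 8) 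
(.lf (nat_lit 1342249624) (dlOf (nat_lit 1) (nat_lit 0x800800200020004000800b683))) 
(.lf (nat_lit 5704321944) (dlOf (nat_lit 1) (nat_lit 0x40028055c81)))))) (.nd (nat_lit 27) 
(.nd (nat_lit 7) (.nd (nat_lit 19) (.nd (nat_lit 20) 
(.lf (nat_lit 4026859544) (dlOf (nat_lit 11) (nat_lit 0x280d80362004003806c01b0502000203600d6301006e0170040e80800e00b801f400400d405c00f9302006a02e007bb01006e017003d6c0803700b801ea604020005c00f5102011400080a0901))) 
(.lf (nat_lit 3491037208) (dlOf (nat_lit 2) (nat_lit 0xc1760030c818050480)))) 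
(.lf (nat_lit 3492610072) (dlOf (nat_lit 4) (nat_lit 0x220fd0000bc0801d87e800283c6000a1ca000170300220fd0000b00800100080004002005000080e0383)))) 
(.lf (nat_lit 5637472408) (dlOf (nat_lit 1) (nat_lit 0x200280f1181)))) (.nd (nat_lit 26) 
(.lf (nat_lit 4161077272) (dlOf (nat_lit 1) (nat_lit 0x8008000400200020008120483))) 
(.lf (nat_lit 1543831576) (dlOf (nat_lit 3) (nat_lit 0x20130034501000a0140015e008001000800cc00200060008190483))))))))) 
(.nd (nat_lit 16) (.nd (nat_lit 8) (.nd (nat_lit 18) (.nd (nat_lit 12) (.nd (nat_lit 7) 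
(.nd (nat_lit 10) (.nd (nat_lit 9) (.nd (nat_lit 27) 
(.lf (nat_lit 4362600536) (dlOf (nat_lit 1) (nat_lit 0x2c800800b8002005800080a1103))) 
(.lf (nat_lit 4228382808) (dlOf (nat_lit 1) (nat_lit 0x2c800800b8002005800080a1103)))) 
(.lf (nat_lit 41945688) (dlOf (nat_lit 1) (nat_lit 0x400200020009245302)))) (.nd (nat_lit 19) 
(.lf (nat_lit 37749848) (dlOf (nat_lit 1) (nat_lit 0x4002000200090d2902))) 
(.lf (nat_lit 44565592) (dlOf (nat_lit 2) (nat_lit 0x44e500015819322900))))) (.nd (nat_lit 19) 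
(.nd (nat_lit 9) (.lf (nat_lit 46137560) (dlOf (nat_lit 1) (nat_lit 0x9000400100019380982))) 
(.lf (nat_lit 201328344) (dlOf (nat_lit 1) (nat_lit 0x80018003a81)))) (.nd (nat_lit 26) 
(.lf (nat_lit 1074266328) (dlOf (nat_lit 2) (nat_lit 0x8000000e68181b0480))) 
(.lf (nat_lit 1946681560) (dlOf (nat_lit 2) (nat_lit 0x8000000e68181b0480)))))) (.nd (nat_lit 11) 
(.nd (nat_lit 9) (.nd (nat_lit 27) 
(.lf (nat_lit 603984088) (dlOf (nat_lit 1) (nat_lit 0x8008000400200020008008083))) 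
(.lf (nat_lit 469766360) (dlOf (nat_lit 1) (nat_lit 0x400200020008008082)))) 
(.lf (nat_lit 603984600) (dlOf (nat_lit 1) (nat_lit 0x400200020008008c82)))) (.nd (nat_lit 9) 
(.nd (nat_lit 28) (.lf (nat_lit 2885688536) (dlOf (nat_lit 1) (nat_lit 0x2002800c401))) 
(.lf (nat_lit 4227865816) (dlOf (nat_lit 1) (nat_lit 0xc0040004001800c402)))) 
(.lf (nat_lit 67115736) (dlOf (nat_lit 1) (nat_lit 0x4001800b981)))))) (.nd (nat_lit 7) 
(.nd (nat_lit 19) (.nd (nat_lit 20) (.nd (nat_lit 26) 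
(.lf (nat_lit 5773722712) (dlOf (nat_lit 1) (nat_lit 0x200280e2901))) 
(.lf (nat_lit 6377702488) (dlOf (nat_lit 1) (nat_lit 0x200280e2901)))) 
(.lf (nat_lit 1345586264) (dlOf (nat_lit 1) (nat_lit 0x6800400680008d72902)))) (.nd (nat_lit 11) 
(.nd (nat_lit 21) (.lf (nat_lit 38536280) (dlOf (nat_lit 1) (nat_lit 0x20019132901))) 
(.lf (nat_lit 472646744) (dlOf (nat_lit 1) (nat_lit 0xc004000200089e2902)))) (.nd (nat_lit 10) 
(.lf (nat_lit 1410078808) (dlOf (nat_lit 5) (nat_lit 0x240ee000807600040000008681800f81dc00740ec003c071001d038000e018c00780c2003e0000010a87001903b8008200800a81dc0040004000c002000e00080fa782))) 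
(.lf (nat_lit 537660504) (dlOf (nat_lit 1) (nat_lit 0xc00180f6081)))))) (.nd (nat_lit 12) 
(.nd (nat_lit 19) (.nd (nat_lit 20) 
(.lf (nat_lit 3494117592) (dlOf (nat_lit 1) (nat_lit 0x4002000200081b0482))) 
(.lf (nat_lit 3408088) (dlOf (nat_lit 2) (nat_lit 0xe04c90011b818200480)))) (.nd (nat_lit 9) 
(.nd (nat_lit 11) (.lf (nat_lit 19661016) (dlOf (nat_lit 2) (nat_lit 0x4555000160189d0980))) 
(.lf (nat_lit 2752252120) (dlOf (nat_lit 1) (nat_lit 0x60800402740008004a82)))) 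
(.lf (nat_lit 8127192) (dlOf (nat_lit 1) (nat_lit 0x28008005400200120008512103))))) 
(.nd (nat_lit 19) (.lf (nat_lit 2818838744) (dlOf (nat_lit 1) (nat_lit 0x120028128081))) 
(.nd (nat_lit 20) (.lf (nat_lit 19665112) (dlOf (nat_lit 1) (nat_lit 0xc00289d8081))) 
(.lf (nat_lit 8130776) (dlOf (nat_lit 1) (nat_lit 0x400400040018518082)))))))) (.nd (nat_lit 26) 
(.nd (nat_lit 11) (.nd (nat_lit 7) (.nd (nat_lit 18) (.nd (nat_lit 9) 
(.lf (nat_lit 5771362648) (dlOf (nat_lit 1) (nat_lit 0x20028000d81))) 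
(.lf (nat_lit 6039802712) (dlOf (nat_lit 1) (nat_lit 0x20028008f81)))) (.nd (nat_lit 21) 
(.lf (nat_lit 5905842520) (dlOf (nat_lit 1) (nat_lit 0x2b000401140008154e02))) 
(.lf (nat_lit 19136856) (dlOf (nat_lit 1) (nat_lit 0x8008000400200020008970883))))) 
(.nd (nat_lit 9) (.nd (nat_lit 27) 
(.lf (nat_lit 3490709976) (dlOf (nat_lit 1) (nat_lit 0x20028017101))) 
(.lf (nat_lit 5772411352) (dlOf (nat_lit 1) (nat_lit 0x140018091201)))) 
(.lf (nat_lit 1342182360) (dlOf (nat_lit 1) (nat_lit 0x760028009201))))) (.nd (nat_lit 30) 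
(.nd (nat_lit 28) (.nd (nat_lit 10) 
(.lf (nat_lit 671095640) (dlOf (nat_lit 1) (nat_lit 0x2001800bc81))) 
(.lf (nat_lit 2818838360) (dlOf (nat_lit 3) (nat_lit 0x4036002608100070350012e00800180080140002006c0008127783)))) 
(.nd (nat_lit 7) 
(.lf (nat_lit 6710889304) (dlOf (nat_lit 1) (nat_lit 0x28008000800200060008005c03))) 
(.lf (nat_lit 402656216) (dlOf (nat_lit 1) (nat_lit 0x20008005e01))))) (.nd (nat_lit 27) 
(.nd (nat_lit 9) (.lf (nat_lit 3490188632) (dlOf (nat_lit 1) (nat_lit 0xc0028006a81))) 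
(.lf (nat_lit 5368712024) (dlOf (nat_lit 1) (nat_lit 0x10004000a0008005c02)))) (.nd (nat_lit 7) 
(.lf (nat_lit 2013268824) (dlOf (nat_lit 1) (nat_lit 0x20028005c01))) 
(.lf (nat_lit 5771627480) (dlOf (nat_lit 1) (nat_lit 0x20028005e01))))))) (.nd (nat_lit 27) 
(.nd (nat_lit 11) (.nd (nat_lit 9) 
(.lf (nat_lit 5167383896) (dlOf (nat_lit 1) (nat_lit 0x1e0018003381))) (.nd (nat_lit 10) 
(.lf (nat_lit 2214593368) (dlOf (nat_lit 1) (nat_lit 0x180028002581))) 
(.lf (nat_lit 2752251736) (dlOf (nat_lit 1) (nat_lit 0x10008000400200020008003f83))))) 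
(.nd (nat_lit 7) (.nd (nat_lit 28) 
(.lf (nat_lit 3288341848) (dlOf (nat_lit 1) (nat_lit 0xc001800c901))) 
(.lf (nat_lit 1409293656) (dlOf (nat_lit 1) (nat_lit 0x46001800c901)))) 
(.lf (nat_lit 2751470040) (dlOf (nat_lit 1) (nat_lit 0x40040004000800b282))))) (.nd (nat_lit 7) 
(.nd (nat_lit 9) (.lf (nat_lit 4227865944) (dlOf (nat_lit 1) (nat_lit 0x80040002001800c902))) 
(.nd (nat_lit 28) 
(.lf (nat_lit 5033167704) (dlOf (nat_lit 1) (nat_lit 0x28008000400200040008005c03))) 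
(.nd (nat_lit 29) 
(.lf (nat_lit 4764732248) (dlOf (nat_lit 1) (nat_lit 0x30008000800200080008005c03))) 
(.lf (nat_lit 5301603160) (dlOf (nat_lit 1) (nat_lit 0x400200020008005c02)))))) (.nd (nat_lit 11) 
(.lf (nat_lit 469767128) (dlOf (nat_lit 1) (nat_lit 0x700028009201))) (.nd (nat_lit 29) 
(.lf (nat_lit 4496559064) (dlOf (nat_lit 1) (nat_lit 0x25800800d0002007200080e5e03))) 
(.lf (nat_lit 738462680) (dlOf (nat_lit 1) (nat_lit 0x100028095e01))))))))) (.nd (nat_lit 28) 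
(.nd (nat_lit 7) (.nd (nat_lit 23) (.nd (nat_lit 8) (.nd (nat_lit 20) (.nd (nat_lit 10) 
(.lf (nat_lit 3288662104) (dlOf (nat_lit 1) (nat_lit 0x500080058002002e00080a1103))) 
(.lf (nat_lit 37815384) (dlOf (nat_lit 1) (nat_lit 0x8002000200090d2902)))) (.nd (nat_lit 19) 
(.lf (nat_lit 57738328) (dlOf (nat_lit 1) (nat_lit 0x20019792901))) 
(.lf (nat_lit 39388248) (dlOf (nat_lit 1) (nat_lit 0x20029192901))))) (.nd (nat_lit 9) 
(.lf (nat_lit 4429250904) (dlOf (nat_lit 1) (nat_lit 0x400400020008014e02))) (.nd (nat_lit 10) 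
(.lf (nat_lit 2885753688) (dlOf (nat_lit 1) (nat_lit 0x2002800bc81))) 
(.lf (nat_lit 671156056) (dlOf (nat_lit 1) (nat_lit 0x20028143f81)))))) (.nd (nat_lit 19) 
(.nd (nat_lit 18) (.nd (nat_lit 25) 
(.lf (nat_lit 10551384) (dlOf (nat_lit 1) (nat_lit 0x200285f1781))) 
(.lf (nat_lit 44105816) (dlOf (nat_lit 2) (nat_lit 0x9800000062040004002000800092c0702)))) 
(.lf (nat_lit 9764952) (dlOf (nat_lit 5) (nat_lit 0x12074c000a60400343a600052020100178000238100470bc000118080088008001400200060008580603)))) 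
(.nd (nat_lit 10) (.nd (nat_lit 22) 
(.lf (nat_lit 42795096) (dlOf (nat_lit 2) (nat_lit 0x380000004c040030002005e0009280802))) 
(.lf (nat_lit 13434968) (dlOf (nat_lit 1) (nat_lit 0x8008000800200020008721a83)))) 
(.lf (nat_lit 50136152) (dlOf (nat_lit 1) (nat_lit 0x200294c2901)))))) (.nd (nat_lit 26) 
(.nd (nat_lit 8) (.nd (nat_lit 21) (.nd (nat_lit 27) (.nd (nat_lit 29) 
(.lf (nat_lit 3221291224) (dlOf (nat_lit 2) (nat_lit 0x1020370004a018090480))) 
(.lf (nat_lit 5905645784) (dlOf (nat_lit 2) (nat_lit 0x3480220023702000400280b0481)))) 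
(.lf (nat_lit 6576734424) (dlOf (nat_lit 2) (nat_lit 0x2001a00ee0000011b8280b0480)))) 
(.nd (nat_lit 9) (.nd (nat_lit 18) 
(.lf (nat_lit 10551512) (dlOf (nat_lit 1) (nat_lit 0x200085f5d81))) 
(.lf (nat_lit 3473624) (dlOf (nat_lit 1) (nat_lit 0x400400020008200482)))) 
(.lf (nat_lit 8196824) (dlOf (nat_lit 1) (nat_lit 0x400200020008518c82))))) (.nd (nat_lit 9) 
(.nd (nat_lit 11) 
(.lf (nat_lit 21299672) (dlOf (nat_lit 1) (nat_lit 0x400080004002000a0008a37103))) 
(.lf (nat_lit 7936472) (dlOf (nat_lit 1) (nat_lit 0x40020006000851b282)))) (.nd (nat_lit 11) 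
(.lf (nat_lit 536937432) (dlOf (nat_lit 1) (nat_lit 0x400200020008002882))) 
(.lf (nat_lit 59837400) (dlOf (nat_lit 1) (nat_lit 0x400400020009845e02)))))) (.nd (nat_lit 27) 
(.nd (nat_lit 29) 
(.lf (nat_lit 6509625560) (dlOf (nat_lit 2) (nat_lit 0x3480240023702000400280b0481))) 
(.nd (nat_lit 32) 
(.lf (nat_lit 1677787352) (dlOf (nat_lit 2) (nat_lit 0x15a05100aa01d000250100068008000400200060008090483))) 
(.lf (nat_lit 5972754648) (dlOf (nat_lit 2) (nat_lit 0x2001a00ee0000011b8280b0480))))) 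
(.nd (nat_lit 11) (.lf (nat_lit 3959488728) (dlOf (nat_lit 2) (nat_lit 0x1020370004a018090480))) 
(.lf (nat_lit 2348878040) (dlOf (nat_lit 1) (nat_lit 0x20028004a81))))))) (.nd (nat_lit 18) 
(.nd (nat_lit 26) (.nd (nat_lit 20) (.nd (nat_lit 29) (.nd (nat_lit 8) 
(.lf (nat_lit 4563468376) (dlOf (nat_lit 1) (nat_lit 0x2400400280008090002))) 
(.lf (nat_lit 4563471192) (dlOf (nat_lit 1) (nat_lit 0x20008095c01)))) (.nd (nat_lit 7) 
(.lf (nat_lit 3087073368) (dlOf (nat_lit 2) (nat_lit 0x200d8000000800180080090002000200080b0003))) 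
(.lf (nat_lit 805372120) (dlOf (nat_lit 2) (nat_lit 0x15a05100aa01d000250100068008000400200060008090483))))) 
(.nd (nat_lit 19) (.lf (nat_lit 1345388632) (dlOf (nat_lit 1) (nat_lit 0x20018b90801))) 
(.lf (nat_lit 1343815768) (dlOf (nat_lit 1) (nat_lit 0x40008370381))))) (.nd (nat_lit 7) 
(.nd (nat_lit 8) (.lf (nat_lit 2617311832) (dlOf (nat_lit 1) (nat_lit 0x1c004000600180a1682))) 
(.lf (nat_lit 1006698840) (dlOf (nat_lit 1) (nat_lit 0x400400020008014e02)))) (.nd (nat_lit 8) 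
(.lf (nat_lit 471924952) (dlOf (nat_lit 1) (nat_lit 0x200286b0501))) (.nd (nat_lit 19) 
(.lf (nat_lit 872481240) (dlOf (nat_lit 1) (nat_lit 0x8008000800200020008091203))) 
(.lf (nat_lit 1008271832) (dlOf (nat_lit 1) (nat_lit 0x3400200040008b17b02))))))) (.nd (nat_lit 26) 
(.nd (nat_lit 30) (.nd (nat_lit 8) (.nd (nat_lit 27) 
(.lf (nat_lit 4563730520) (dlOf (nat_lit 2) (nat_lit 0x188027000190180d0600))) 
(.lf (nat_lit 4697948248) (dlOf (nat_lit 2) (nat_lit 0x188027000198180d0600)))) 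
(.lf (nat_lit 805634392) (dlOf (nat_lit 1) (nat_lit 0x20018158501)))) (.nd (nat_lit 9) 
(.nd (nat_lit 27) 
(.lf (nat_lit 4026859608) (dlOf (nat_lit 1) (nat_lit 0x500080058002002e00080a1103))) 
(.lf (nat_lit 6308560984) (dlOf (nat_lit 1) (nat_lit 0x20028100601)))) 
(.lf (nat_lit 1881475672) (dlOf (nat_lit 3) (nat_lit 0x100e30000f810064071800074080088008001400200020008f05303))))) 
(.nd (nat_lit 9) (.nd (nat_lit 20) 
(.lf (nat_lit 5704581208) (dlOf (nat_lit 1) (nat_lit 0x20028100601))) 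
(.lf (nat_lit 1008009304) (dlOf (nat_lit 1) (nat_lit 0x60018980001)))) (.nd (nat_lit 19) 
(.nd (nat_lit 20) (.lf (nat_lit 472189528) (dlOf (nat_lit 1) (nat_lit 0x2200188c5301))) 
(.lf (nat_lit 1008011864) (dlOf (nat_lit 1) (nat_lit 0x400400020008985302)))) 
(.lf (nat_lit 472713816) (dlOf (nat_lit 2) (nat_lit 0x1800c000000080030008004c002000e0008a45303)))))))))) 
(.nd (nat_lit 7) (.nd (nat_lit 16) (.nd (nat_lit 26) (.nd (nat_lit 9) (.nd (nat_lit 18) 
(.nd (nat_lit 10) (.nd (nat_lit 6) (.nd (nat_lit 8) (.nd (nat_lit 19) 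
(.lf (nat_lit 12582968) (dlOf (nat_lit 1) (nat_lit 0x200186d0a81))) 
(.lf (nat_lit 134742072) (dlOf (nat_lit 3) (nat_lit 0x88128000aa0400440940003402000400280a0b81)))) 
(.lf (nat_lit 1073744184) (dlOf (nat_lit 1) (nat_lit 0x1a0028004c01)))) (.nd (nat_lit 8) 
(.lf (nat_lit 28835960) (dlOf (nat_lit 1) (nat_lit 0x400200020008da0482))) 
(.lf (nat_lit 42991992) (dlOf (nat_lit 2) (nat_lit 0xe800002ca040008004000200192a1002))))) 
(.nd (nat_lit 12) (.nd (nat_lit 6) 
(.lf (nat_lit 3489664056) (dlOf (nat_lit 1) (nat_lit 0x1c0028006081))) 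
(.lf (nat_lit 5502928248) (dlOf (nat_lit 1) (nat_lit 0x1c800200140008003502)))) (.nd (nat_lit 27) 
(.lf (nat_lit 1342182456) (dlOf (nat_lit 1) (nat_lit 0x400400020008009202))) 
(.lf (nat_lit 1476400184) (dlOf (nat_lit 1) (nat_lit 0x8008000400200020008009203)))))) 
(.nd (nat_lit 6) (.nd (nat_lit 23) (.nd (nat_lit 10) 
(.lf (nat_lit 3087269944) (dlOf (nat_lit 1) (nat_lit 0x8000400740018160682))) 
(.lf (nat_lit 20190264) (dlOf (nat_lit 1) (nat_lit 0x80080010002000200089d9203)))) 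
(.nd (nat_lit 19) (.lf (nat_lit 11796536) (dlOf (nat_lit 1) (nat_lit 0x400286c0001))) 
(.lf (nat_lit 29098040) (dlOf (nat_lit 1) (nat_lit 0x40008dc0c01))))) (.nd (nat_lit 8) 
(.nd (nat_lit 20) (.lf (nat_lit 1208221816) (dlOf (nat_lit 1) (nat_lit 0x200080a1f01))) 
(.lf (nat_lit 9699448) (dlOf (nat_lit 3) (nat_lit 0x125540001181000a2aa000088080030008002800200080008570b83)))) 
(.lf (nat_lit 4026794360) (dlOf (nat_lit 7) (nat_lit 0x603600dd301000301b006d380801680b8019e204001005c00cf002000e02e0067781001401b0000000804c8008000400200160008090783)))))) 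
(.nd (nat_lit 6) (.nd (nat_lit 8) (.nd (nat_lit 10) (.nd (nat_lit 11) 
(.lf (nat_lit 12059192) (dlOf (nat_lit 1) (nat_lit 0x1c00186c1001))) 
(.lf (nat_lit 36702776) (dlOf (nat_lit 1) (nat_lit 0x800200020009075202)))) 
(.lf (nat_lit 5234755128) (dlOf (nat_lit 2) (nat_lit 0x601a000300c0000841000300080020002001600080d3783)))) 
(.nd (nat_lit 29) (.nd (nat_lit 10) 
(.lf (nat_lit 19925816) (dlOf (nat_lit 1) (nat_lit 0x4002000200089d5c02))) 
(.lf (nat_lit 8918840) (dlOf (nat_lit 1) (nat_lit 0x40040004001851a102)))) (.nd (nat_lit 28) 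
(.lf (nat_lit 536872760) (dlOf (nat_lit 1) (nat_lit 0x400400020008003e02))) 
(.lf (nat_lit 4026533688) (dlOf (nat_lit 1) (nat_lit 0x20028003e01)))))) (.nd (nat_lit 31) 
(.nd (nat_lit 8) (.nd (nat_lit 12) 
(.lf (nat_lit 8914552) (dlOf (nat_lit 2) (nat_lit 0x48982000000200060008513981))) 
(.lf (nat_lit 20190840) (dlOf (nat_lit 1) (nat_lit 0x14c00089d9d01)))) (.nd (nat_lit 19) 
(.lf (nat_lit 4697623416) (dlOf (nat_lit 1) (nat_lit 0x40008001000200020008005c03))) 
(.lf (nat_lit 46664568) (dlOf (nat_lit 1) (nat_lit 0x380029385c01))))) (.nd (nat_lit 28) 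
(.nd (nat_lit 10) 
(.lf (nat_lit 2684355192) (dlOf (nat_lit 1) (nat_lit 0x138008003400200020008001903))) 
(.lf (nat_lit 2684360312) (dlOf (nat_lit 1) (nat_lit 0x100008009d01)))) (.nd (nat_lit 8) 
(.lf (nat_lit 6710889080) (dlOf (nat_lit 1) (nat_lit 0x400200020008005402))) 
(.lf (nat_lit 4161012600) (dlOf (nat_lit 1) (nat_lit 0xe00180a2581)))))))) (.nd (nat_lit 6) 
(.nd (nat_lit 31) (.nd (nat_lit 18) (.nd (nat_lit 19) (.nd (nat_lit 9) 
(.lf (nat_lit 1007681592) (dlOf (nat_lit 1) (nat_lit 0x200086d0c01))) 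
(.lf (nat_lit 201333304) (dlOf (nat_lit 2) (nat_lit 0x2900ec000f60400080040002001800b402)))) 
(.nd (nat_lit 32) (.lf (nat_lit 67633208) (dlOf (nat_lit 1) (nat_lit 0x10004000200082b0902))) 
(.lf (nat_lit 4362600504) (dlOf (nat_lit 1) (nat_lit 0x98002004400080a0a82))))) (.nd (nat_lit 9) 
(.nd (nat_lit 12) (.lf (nat_lit 471597112) (dlOf (nat_lit 1) (nat_lit 0x400200020008350902))) 
(.lf (nat_lit 67899448) (dlOf (nat_lit 1) (nat_lit 0x420018337c81)))) (.nd (nat_lit 8) 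
(.lf (nat_lit 67900984) (dlOf (nat_lit 1) (nat_lit 0xe0008339c01))) 
(.lf (nat_lit 4496558904) (dlOf (nat_lit 1) (nat_lit 0x148008009c002002a00080e5c03)))))) 
(.nd (nat_lit 27) (.nd (nat_lit 8) (.nd (nat_lit 29) 
(.lf (nat_lit 3288596536) (dlOf (nat_lit 1) (nat_lit 0x28008000800200060008090003))) 
(.lf (nat_lit 3825467448) (dlOf (nat_lit 1) (nat_lit 0x8000400740018160682)))) 
(.lf (nat_lit 3288337720) (dlOf (nat_lit 1) (nat_lit 0x5c0028006901)))) (.nd (nat_lit 9) 
(.nd (nat_lit 10) (.nd (nat_lit 30) 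
(.lf (nat_lit 3154640952) (dlOf (nat_lit 4) (nat_lit 0xd8168000340401040b4001202f0000c8200af02d002480bc00030080028004000600082f0902))) 
(.lf (nat_lit 4228382776) (dlOf (nat_lit 1) (nat_lit 0x8c002004200080a0b82)))) 
(.lf (nat_lit 3690992696) (dlOf (nat_lit 1) (nat_lit 0x8008000400200020008009203)))) 
(.nd (nat_lit 8) (.lf (nat_lit 3422552632) (dlOf (nat_lit 1) (nat_lit 0x800400020018001482))) 
(.lf (nat_lit 3422552888) (dlOf (nat_lit 1) (nat_lit 0x20008002281))))))) (.nd (nat_lit 32) 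
(.nd (nat_lit 11) (.nd (nat_lit 8) (.nd (nat_lit 31) 
(.lf (nat_lit 67109496) (dlOf (nat_lit 1) (nat_lit 0x20008001901))) 
(.lf (nat_lit 2214593144) (dlOf (nat_lit 2) (nat_lit 0x7c012804f80540006408000400400040018001902)))) 
(.lf (nat_lit 2751727480) (dlOf (nat_lit 1) (nat_lit 0x2800400020008004082)))) (.nd (nat_lit 20) 
(.nd (nat_lit 31) 
(.lf (nat_lit 872418168) (dlOf (nat_lit 2) (nat_lit 0xa0168005b00800500080058002000c0008005c03))) 
(.lf (nat_lit 3019901816) (dlOf (nat_lit 1) (nat_lit 0x60018005c01)))) (.nd (nat_lit 18) 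
(.lf (nat_lit 4094692216) (dlOf (nat_lit 1) (nat_lit 0x1a0028055c01))) 
(.lf (nat_lit 1008470904) (dlOf (nat_lit 1) (nat_lit 0x8008000400200060008c95c03)))))) 
(.nd (nat_lit 10) (.nd (nat_lit 8) (.nd (nat_lit 27) 
(.lf (nat_lit 5436080248) (dlOf (nat_lit 3) (nat_lit 0x20c0110001a8101070088000000800080080054002001800080c0c03))) 
(.lf (nat_lit 5301862520) (dlOf (nat_lit 1) (nat_lit 0x180080008002001000080c0b83)))) 
(.lf (nat_lit 6241389432) (dlOf (nat_lit 1) (nat_lit 0x9800280d5c01)))) (.nd (nat_lit 27) 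
(.nd (nat_lit 28) 
(.lf (nat_lit 5435819384) (dlOf (nat_lit 2) (nat_lit 0x400b000200280002f0400040028003501))) 
(.lf (nat_lit 4630513016) (dlOf (nat_lit 1) (nat_lit 0x40028003501)))) (.nd (nat_lit 28) 
(.lf (nat_lit 6106908024) (dlOf (nat_lit 1) (nat_lit 0x60028003501))) 
(.lf (nat_lit 6375343480) (dlOf (nat_lit 2) (nat_lit 0xa04dc0000004000400400080008003502))))))))) 
(.nd (nat_lit 28) (.nd (nat_lit 19) (.nd (nat_lit 26) (.nd (nat_lit 18) (.nd (nat_lit 8) 
(.nd (nat_lit 9) 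
(.lf (nat_lit 3355508792) (dlOf (nat_lit 1) (nat_lit 0x300080018002000400080a0003))) 
(.lf (nat_lit 3355509304) (dlOf (nat_lit 1) (nat_lit 0x10002000200080a1482)))) (.nd (nat_lit 10) 
(.lf (nat_lit 5905645880) (dlOf (nat_lit 1) (nat_lit 0x600280b0581))) 
(.lf (nat_lit 8459576) (dlOf (nat_lit 1) (nat_lit 0x20008001000200040008519903))))) 
(.nd (nat_lit 6) (.nd (nat_lit 20) (.nd (nat_lit 31) 
(.lf (nat_lit 1208287288) (dlOf (nat_lit 3) (nat_lit 0x100180002002000200b0000a0180b0480))) 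
(.lf (nat_lit 3355770936) (dlOf (nat_lit 1) (nat_lit 0x128008001800200240008110d83)))) 
(.lf (nat_lit 24444984) (dlOf (nat_lit 1) (nat_lit 0xc00400080018ba0b02)))) (.nd (nat_lit 9) 
(.lf (nat_lit 28639352) (dlOf (nat_lit 1) (nat_lit 0x400200020008da0482))) 
(.lf (nat_lit 20256376) (dlOf (nat_lit 1) (nat_lit 0x2000400e200089d9d02)))))) (.nd (nat_lit 8) 
(.nd (nat_lit 9) (.nd (nat_lit 6) 
(.lf (nat_lit 3288662072) (dlOf (nat_lit 14) (nat_lit 0xcb017009880b4000b408034405c025002d0002c8200bd0170001600806900b8000ae04003005c0005402014602e000178100c5017009280b40005808018005a0000b02019402e00e50168000281006480b80000e04033805a0000502026602d00001810124016800008080150008005400200e400080a0b83))) 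
(.lf (nat_lit 2753626232) (dlOf (nat_lit 2) (nat_lit 0x70078002a404001000200020008090082)))) 
(.nd (nat_lit 10) (.lf (nat_lit 69274168) (dlOf (nat_lit 2) (nat_lit 0x42ce0005f02000e0008905201))) 
(.lf (nat_lit 4496361016) (dlOf (nat_lit 3) (nat_lit 0x100d00006808001007000030040094002000e0008053782))))) 
(.nd (nat_lit 9) (.nd (nat_lit 29) 
(.lf (nat_lit 6509625656) (dlOf (nat_lit 1) (nat_lit 0x600280b0581))) 
(.lf (nat_lit 1677787448) (dlOf (nat_lit 2) (nat_lit 0x2201440118074000260400020018090581)))) 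
(.lf (nat_lit 2348877624) (dlOf (nat_lit 1) (nat_lit 0x20018003e01)))))) (.nd (nat_lit 20) 
(.nd (nat_lit 18) (.nd (nat_lit 26) (.nd (nat_lit 6) 
(.lf (nat_lit 1611202616) (dlOf (nat_lit 1) (nat_lit 0xa0028110681))) 
(.lf (nat_lit 61408632) (dlOf (nat_lit 3) (nat_lit 0x527f00005e04001d3f80002e02004e0019923501)))) 
(.nd (nat_lit 22) (.lf (nat_lit 738787384) (dlOf (nat_lit 1) (nat_lit 0xa0028110681))) 
(.lf (nat_lit 2756247608) (dlOf (nat_lit 3) (nat_lit 0x12c01e000e281008d00f0006cc080160008013800200720008220b83))))) 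
(.nd (nat_lit 6) (.nd (nat_lit 9) 
(.lf (nat_lit 21823544) (dlOf (nat_lit 2) (nat_lit 0x46c8b000761c0000be080024004000c0008a70682))) 
(.lf (nat_lit 36506168) (dlOf (nat_lit 1) (nat_lit 0x4002004e0009075202)))) 
(.lf (nat_lit 57477496) (dlOf (nat_lit 1) (nat_lit 0x1c004000a0009794e82))))) (.nd (nat_lit 8) 
(.nd (nat_lit 9) (.nd (nat_lit 18) 
(.lf (nat_lit 35192888) (dlOf (nat_lit 1) (nat_lit 0x400400020018ff0502))) 
(.lf (nat_lit 16580664) (dlOf (nat_lit 1) (nat_lit 0x10004000400088c0902)))) (.nd (nat_lit 11) 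
(.lf (nat_lit 12386872) (dlOf (nat_lit 1) (nat_lit 0x24004000800086c1002))) 
(.lf (nat_lit 62458424) (dlOf (nat_lit 1) (nat_lit 0x4004000200099a5202))))) (.nd (nat_lit 6) 
(.nd (nat_lit 9) (.lf (nat_lit 7937336) (dlOf (nat_lit 1) (nat_lit 0x26002851c801))) 
(.lf (nat_lit 7935800) (dlOf (nat_lit 1) (nat_lit 0x800800040020002000851a103)))) (.nd (nat_lit 18) 
(.lf (nat_lit 7931768) (dlOf (nat_lit 1) (nat_lit 0x400400020008514082))) 
(.lf (nat_lit 8193912) (dlOf (nat_lit 1) (nat_lit 0x8008000400200020008514083)))))))) 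
(.nd (nat_lit 11) (.nd (nat_lit 18) (.nd (nat_lit 29) (.nd (nat_lit 19) (.nd (nat_lit 20) 
(.lf (nat_lit 4563468344) (dlOf (nat_lit 1) (nat_lit 0x2000200080008090002))) 
(.lf (nat_lit 1343291448) (dlOf (nat_lit 2) (nat_lit 0x86b40004c0400a0004001800081e0882)))) 
(.lf (nat_lit 3494445112) (dlOf (nat_lit 3) (nat_lit 0x12c01e000e281008d00f00068c080160008013800200720008220b83)))) 
(.nd (nat_lit 6) (.nd (nat_lit 8) 
(.lf (nat_lit 6308300344) (dlOf (nat_lit 2) (nat_lit 0x500c8001002c0005408005c00200100008053782))) 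
(.lf (nat_lit 805372216) (dlOf (nat_lit 2) (nat_lit 0x2201440118074000250400020018090581)))) 
(.lf (nat_lit 3019965560) (dlOf (nat_lit 1) (nat_lit 0x80080004002000200080d2a03))))) 
(.nd (nat_lit 6) (.nd (nat_lit 26) (.nd (nat_lit 29) 
(.lf (nat_lit 268763192) (dlOf (nat_lit 1) (nat_lit 0x40028131401))) 
(.lf (nat_lit 4026859576) (dlOf (nat_lit 5) (nat_lit 0x570168001680800080b8000580400bc05c0000702005c02d000018180a0a80)))) 
(.lf (nat_lit 2080702520) (dlOf (nat_lit 3) (nat_lit 0x100180002502000200b0000c0180b0480)))) 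
(.nd (nat_lit 26) (.nd (nat_lit 19) 
(.lf (nat_lit 5637472376) (dlOf (nat_lit 2) (nat_lit 0x701280030060000c8080004004000e00180f0b82))) 
(.lf (nat_lit 5773262968) (dlOf (nat_lit 2) (nat_lit 0x1c0000006402000600080c0b81)))) 
(.nd (nat_lit 21) 
(.lf (nat_lit 474284152) (dlOf (nat_lit 6) (nat_lit 0x901f00005002001222e00091128006882c003c3640004708001422e00061128007082c007840e00141b200140d680011830005000c0008804000c4760014236000f11700030894003c416003c1fb000c0d9001285c80040000000381200020019110b81))) 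
(.lf (nat_lit 1009057912) (dlOf (nat_lit 1) (nat_lit 0x20019030c01))))))) (.nd (nat_lit 8) 
(.nd (nat_lit 6) (.nd (nat_lit 19) 
(.lf (nat_lit 1344604728) (dlOf (nat_lit 1) (nat_lit 0x4004000200088c5202))) 
(.lf (nat_lit 1345129016) (dlOf (nat_lit 1) (nat_lit 0x18008000400200020008a45203)))) 
(.nd (nat_lit 9) (.nd (nat_lit 10) 
(.lf (nat_lit 1476466808) (dlOf (nat_lit 1) (nat_lit 0x2002800a881))) 
(.lf (nat_lit 1543572600) (dlOf (nat_lit 1) (nat_lit 0x40018146081)))) (.nd (nat_lit 20) 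
(.lf (nat_lit 5234559608) (dlOf (nat_lit 1) (nat_lit 0x28004001e0018055402))) 
(.lf (nat_lit 6376458872) (dlOf (nat_lit 1) (nat_lit 0x80018095401)))))) (.nd (nat_lit 27) 
(.nd (nat_lit 6) (.lf (nat_lit 5704321848) (dlOf (nat_lit 1) (nat_lit 0x40028055c01))) 
(.nd (nat_lit 26) (.lf (nat_lit 5637213048) (dlOf (nat_lit 1) (nat_lit 0xae0028055c01))) 
(.lf (nat_lit 5167451000) (dlOf (nat_lit 2) (nat_lit 0x80a00000804000400400040008055c02))))) 
(.nd (nat_lit 9) (.lf (nat_lit 2013333880) (dlOf (nat_lit 1) (nat_lit 0xc00400020008004e82))) 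
(.nd (nat_lit 22) 
(.lf (nat_lit 4764797816) (dlOf (nat_lit 1) (nat_lit 0x8008000400200020008005c03))) 
(.lf (nat_lit 474024824) (dlOf (nat_lit 1) (nat_lit 0x51a0009005c01)))))))))) (.nd (nat_lit 6) 
(.nd (nat_lit 10) (.nd (nat_lit 9) (.nd (nat_lit 20) (.nd (nat_lit 26) (.nd (nat_lit 11) 
(.nd (nat_lit 21) (.lf (nat_lit 4563665080) (dlOf (nat_lit 1) (nat_lit 0x600280c1981))) 
(.lf (nat_lit 19136696) (dlOf (nat_lit 1) (nat_lit 0x400400020008970482)))) 
(.lf (nat_lit 8652984) (dlOf (nat_lit 1) (nat_lit 0x400400020008514902)))) (.nd (nat_lit 12) 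
(.nd (nat_lit 16) (.lf (nat_lit 5301862584) (dlOf (nat_lit 1) (nat_lit 0x200080c1701))) 
(.lf (nat_lit 335872184) (dlOf (nat_lit 1) (nat_lit 0xc00180c1981)))) 
(.lf (nat_lit 3690991800) (dlOf (nat_lit 1) (nat_lit 0x80028007e81))))) (.nd (nat_lit 16) 
(.nd (nat_lit 8) (.nd (nat_lit 18) 
(.lf (nat_lit 47186104) (dlOf (nat_lit 1) (nat_lit 0x1a00293b1981))) 
(.lf (nat_lit 1835192) (dlOf (nat_lit 1) (nat_lit 0x500028150381)))) 
(.lf (nat_lit 2752512440) (dlOf (nat_lit 1) (nat_lit 0x178008000400200420008017783)))) 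
(.nd (nat_lit 8) (.nd (nat_lit 18) 
(.lf (nat_lit 7405752) (dlOf (nat_lit 1) (nat_lit 0x6200184b0481))) 
(.lf (nat_lit 5773263032) (dlOf (nat_lit 1) (nat_lit 0x80080004002000200080c1703)))) 
(.lf (nat_lit 7930296) (dlOf (nat_lit 1) (nat_lit 0x400200020008511002)))))) (.nd (nat_lit 26) 
(.nd (nat_lit 12) (.nd (nat_lit 8) (.nd (nat_lit 11) 
(.lf (nat_lit 2684355256) (dlOf (nat_lit 1) (nat_lit 0x20008001e01))) 
(.lf (nat_lit 4563471032) (dlOf (nat_lit 1) (nat_lit 0x3b8008008000200440008095703)))) 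
(.lf (nat_lit 2684355512) (dlOf (nat_lit 1) (nat_lit 0x20008002701)))) (.nd (nat_lit 27) 
(.nd (nat_lit 29) (.lf (nat_lit 1342182072) (dlOf (nat_lit 1) (nat_lit 0x20028008c81))) 
(.lf (nat_lit 2952794808) (dlOf (nat_lit 1) (nat_lit 0x28008002c002000a0008008c83)))) 
(.lf (nat_lit 1476399800) (dlOf (nat_lit 1) (nat_lit 0x800400020008008c82))))) (.nd (nat_lit 8) 
(.nd (nat_lit 27) (.nd (nat_lit 29) 
(.lf (nat_lit 67113656) (dlOf (nat_lit 1) (nat_lit 0x20018008c81))) 
(.lf (nat_lit 603984568) (dlOf (nat_lit 1) (nat_lit 0x18008000400200080008008c83)))) 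
(.lf (nat_lit 3690992312) (dlOf (nat_lit 1) (nat_lit 0x400400020008008c82)))) (.nd (nat_lit 12) 
(.nd (nat_lit 11) (.lf (nat_lit 2214593464) (dlOf (nat_lit 1) (nat_lit 0x2800400040008002702))) 
(.lf (nat_lit 5167451064) (dlOf (nat_lit 2) (nat_lit 0xa00d0000d8080008008001400200020008055d03)))) 
(.nd (nat_lit 16) 
(.lf (nat_lit 2754878392) (dlOf (nat_lit 6) (nat_lit 0x2c3f40021102000413800103810004109000887e800482aa004013800101840005109000a87e800bc2aa0020206000c21200150fd001b8550003800c00b0002002400080fbe02))) 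
(.lf (nat_lit 2885753784) (dlOf (nat_lit 1) (nat_lit 0x800800040020062000800be03)))))))) 
(.nd (nat_lit 16) (.nd (nat_lit 11) (.nd (nat_lit 8) (.nd (nat_lit 9) (.nd (nat_lit 25) 
(.lf (nat_lit 472646840) (dlOf (nat_lit 1) (nat_lit 0x1a00189e2c81))) 
(.lf (nat_lit 36439224) (dlOf (nat_lit 1) (nat_lit 0x20019072c81)))) (.nd (nat_lit 12) 
(.lf (nat_lit 2751465144) (dlOf (nat_lit 1) (nat_lit 0x1c0028003a81))) 
(.lf (nat_lit 20453048) (dlOf (nat_lit 1) (nat_lit 0x4002000200089da002))))) (.nd (nat_lit 18) 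
(.nd (nat_lit 9) (.lf (nat_lit 6106908088) (dlOf (nat_lit 1) (nat_lit 0x400400020018003602))) 
(.lf (nat_lit 67114936) (dlOf (nat_lit 1) (nat_lit 0x180020002000800a502)))) (.nd (nat_lit 19) 
(.lf (nat_lit 5234755000) (dlOf (nat_lit 1) (nat_lit 0x380080010002001800080d3603))) 
(.lf (nat_lit 8127928) (dlOf (nat_lit 1) (nat_lit 0x400200020008513602)))))) (.nd (nat_lit 27) 
(.nd (nat_lit 8) (.nd (nat_lit 18) 
(.lf (nat_lit 1342180536) (dlOf (nat_lit 1) (nat_lit 0x20028006281))) 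
(.lf (nat_lit 3489926328) (dlOf (nat_lit 2) (nat_lit 0x187b40004804000c00400040018006282)))) 
(.lf (nat_lit 603987384) (dlOf (nat_lit 1) (nat_lit 0x40020002000800cd02)))) (.nd (nat_lit 12) 
(.nd (nat_lit 28) (.lf (nat_lit 134220984) (dlOf (nat_lit 1) (nat_lit 0x800400080018006282))) 
(.lf (nat_lit 2550140088) (dlOf (nat_lit 1) (nat_lit 0x20028006281)))) 
(.lf (nat_lit 2885688504) (dlOf (nat_lit 1) (nat_lit 0x800800040020002000800c203)))))) 
(.nd (nat_lit 8) (.nd (nat_lit 9) (.nd (nat_lit 11) (.nd (nat_lit 19) 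
(.lf (nat_lit 55641272) (dlOf (nat_lit 1) (nat_lit 0x100080004002000600096d2c83))) 
(.lf (nat_lit 1346962616) (dlOf (nat_lit 1) (nat_lit 0xc00400020019102c82)))) 
(.lf (nat_lit 19991736) (dlOf (nat_lit 1) (nat_lit 0x200289d6281)))) (.nd (nat_lit 18) 
(.nd (nat_lit 19) (.lf (nat_lit 2952861368) (dlOf (nat_lit 1) (nat_lit 0x28002004e000800a002))) 
(.lf (nat_lit 20518584) (dlOf (nat_lit 1) (nat_lit 0x4002000200089da002)))) 
(.lf (nat_lit 2818905784) (dlOf (nat_lit 1) (nat_lit 0x2000812a001))))) (.nd (nat_lit 18) 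
(.nd (nat_lit 26) (.nd (nat_lit 11) 
(.lf (nat_lit 6308300216) (dlOf (nat_lit 4) (nat_lit 0x12019000200500020024002c20c001c030000e0080004e82000600c000380200011c080038004000e0018053602))) 
(.lf (nat_lit 7937464) (dlOf (nat_lit 1) (nat_lit 0x800800040020002000851cd03)))) (.nd (nat_lit 27) 
(.lf (nat_lit 4899014072) (dlOf (nat_lit 1) (nat_lit 0xc00400020018053602))) 
(.lf (nat_lit 4496360888) (dlOf (nat_lit 2) (nat_lit 0x500e000080680029c08005c004001c0018053602))))) 
(.nd (nat_lit 11) (.nd (nat_lit 12) 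
(.lf (nat_lit 8193464) (dlOf (nat_lit 1) (nat_lit 0x400200020008513602))) 
(.lf (nat_lit 8197560) (dlOf (nat_lit 1) (nat_lit 0xa0028519981)))) 
(.lf (nat_lit 3489992120) (dlOf (nat_lit 1) (nat_lit 0x5400200040008006d02)))))))) 
(.nd (nat_lit 11) (.nd (nat_lit 29) (.nd (nat_lit 16) (.nd (nat_lit 9) (.nd (nat_lit 10) 
(.nd (nat_lit 20) 
(.lf (nat_lit 472121592) (dlOf (nat_lit 2) (nat_lit 0x40300014d0200020018842481))) 
(.lf (nat_lit 32768248) (dlOf (nat_lit 1) (nat_lit 0x400400020008f12482)))) 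
(.lf (nat_lit 5772412152) (dlOf (nat_lit 1) (nat_lit 0x8008000400200020008092e83)))) 
(.nd (nat_lit 8) (.lf (nat_lit 526072) (dlOf (nat_lit 1) (nat_lit 0x400400020008003b82))) 
(.nd (nat_lit 10) (.lf (nat_lit 49021944) (dlOf (nat_lit 1) (nat_lit 0xc004001c0009462882))) 
(.lf (nat_lit 201332728) (dlOf (nat_lit 1) (nat_lit 0x62000800a601)))))) (.nd (nat_lit 19) 
(.nd (nat_lit 20) (.nd (nat_lit 10) 
(.lf (nat_lit 1344340216) (dlOf (nat_lit 1) (nat_lit 0x10008001000200040008740683))) 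
(.lf (nat_lit 3355514104) (dlOf (nat_lit 1) (nat_lit 0x18004000400080a9502)))) (.nd (nat_lit 23) 
(.lf (nat_lit 19988728) (dlOf (nat_lit 1) (nat_lit 0x4002000200089d0a82))) 
(.lf (nat_lit 11600120) (dlOf (nat_lit 1) (nat_lit 0x3800286c0481))))) (.nd (nat_lit 8) 
(.nd (nat_lit 9) (.lf (nat_lit 39649528) (dlOf (nat_lit 1) (nat_lit 0x200191b2481))) 
(.lf (nat_lit 8980216) (dlOf (nat_lit 1) (nat_lit 0x8008050000200020008513b83)))) 
(.lf (nat_lit 61408248) (dlOf (nat_lit 1) (nat_lit 0x400200020009922882)))))) (.nd (nat_lit 8) 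
(.nd (nat_lit 16) (.nd (nat_lit 9) 
(.lf (nat_lit 3154379000) (dlOf (nat_lit 1) (nat_lit 0x400200020008160702))) 
(.lf (nat_lit 2752251640) (dlOf (nat_lit 1) (nat_lit 0x40008002000200060008003b83)))) 
(.nd (nat_lit 19) (.nd (nat_lit 31) 
(.lf (nat_lit 939589880) (dlOf (nat_lit 1) (nat_lit 0x1000080b0481))) 
(.lf (nat_lit 3087073528) (dlOf (nat_lit 1) (nat_lit 0x20002000e00080b0482)))) 
(.lf (nat_lit 3154706680) (dlOf (nat_lit 2) (nat_lit 0x200320003a02000c0008310681))))) 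
(.nd (nat_lit 9) (.nd (nat_lit 16) 
(.lf (nat_lit 2752512504) (dlOf (nat_lit 7) (nat_lit 0xf0200000bc0802981000005a0400700800002b0200460400001501001f0200000a00800580000004404002000400120018017e02))) 
(.nd (nat_lit 31) (.lf (nat_lit 939590136) (dlOf (nat_lit 1) (nat_lit 0x600080b0d81))) 
(.lf (nat_lit 3087073784) (dlOf (nat_lit 1) (nat_lit 0x18008001c002000c00080b0d83))))) 
(.nd (nat_lit 16) (.nd (nat_lit 26) 
(.lf (nat_lit 5234754552) (dlOf (nat_lit 1) (nat_lit 0x200080010002001000080d2883))) 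
(.lf (nat_lit 2751726584) (dlOf (nat_lit 1) (nat_lit 0x400200020008002882)))) (.nd (nat_lit 28) 
(.lf (nat_lit 536937464) (dlOf (nat_lit 1) (nat_lit 0x400200020008002882))) 
(.lf (nat_lit 5100340216) (dlOf (nat_lit 1) (nat_lit 0x320008052881)))))))) (.nd (nat_lit 26) 
(.nd (nat_lit 10) (.nd (nat_lit 8) (.nd (nat_lit 9) 
(.lf (nat_lit 536873208) (dlOf (nat_lit 1) (nat_lit 0x400200020008004b82))) (.nd (nat_lit 16) 
(.lf (nat_lit 57412344) (dlOf (nat_lit 2) (nat_lit 0x1a6760000340800700080138002000a0009795a03))) 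
(.lf (nat_lit 57477880) (dlOf (nat_lit 1) (nat_lit 0x2a0029795a01))))) (.nd (nat_lit 9) 
(.nd (nat_lit 27) (.nd (nat_lit 28) 
(.lf (nat_lit 1073748472) (dlOf (nat_lit 1) (nat_lit 0x800800140020002000800b283))) 
(.lf (nat_lit 2415925752) (dlOf (nat_lit 1) (nat_lit 0x80040002000800b282)))) 
(.lf (nat_lit 4429191672) (dlOf (nat_lit 1) (nat_lit 0x40040002000800b282)))) 
(.lf (nat_lit 54856696) (dlOf (nat_lit 2) (nat_lit 0x22580000c4080018008000400200040009655f03))))) 
(.nd (nat_lit 30) (.nd (nat_lit 27) 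
(.lf (nat_lit 4294970872) (dlOf (nat_lit 1) (nat_lit 0x400400020008006f82))) 
(.lf (nat_lit 2550140408) (dlOf (nat_lit 1) (nat_lit 0x400400020008006f82)))) (.nd (nat_lit 29) 
(.lf (nat_lit 1342180856) (dlOf (nat_lit 1) (nat_lit 0x400400020008006f82))) 
(.lf (nat_lit 1879051768) (dlOf (nat_lit 1) (nat_lit 0x400400020008006f82)))))) (.nd (nat_lit 10) 
(.nd (nat_lit 28) (.nd (nat_lit 27) 
(.lf (nat_lit 4362082808) (dlOf (nat_lit 1) (nat_lit 0x40040002000800b282))) (.nd (nat_lit 31) 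
(.lf (nat_lit 201333240) (dlOf (nat_lit 1) (nat_lit 0x800800d80020030000800b283))) 
(.lf (nat_lit 2348816888) (dlOf (nat_lit 1) (nat_lit 0x40040002000800b282))))) (.nd (nat_lit 8) 
(.lf (nat_lit 3154184952) (dlOf (nat_lit 1) (nat_lit 0x80018105a01))) 
(.lf (nat_lit 1006639608) (dlOf (nat_lit 1) (nat_lit 0x40040002000800b282))))) (.nd (nat_lit 31) 
(.nd (nat_lit 16) (.nd (nat_lit 29) 
(.lf (nat_lit 1409289720) (dlOf (nat_lit 1) (nat_lit 0x400400020008006f82))) 
(.lf (nat_lit 1946160632) (dlOf (nat_lit 1) (nat_lit 0x400400020008006f82)))) 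
(.lf (nat_lit 1543572984) (dlOf (nat_lit 1) (nat_lit 0x100028146f81)))) (.nd (nat_lit 27) 
(.nd (nat_lit 28) (.lf (nat_lit 3288337912) (dlOf (nat_lit 1) (nat_lit 0x20028006f81))) 
(.lf (nat_lit 2483031544) (dlOf (nat_lit 1) (nat_lit 0x400400020008006f82)))) 
(.lf (nat_lit 4227862008) (dlOf (nat_lit 1) (nat_lit 0x400400020008006f82))))))))))) 
(.nd (nat_lit 18) (.nd (nat_lit 16) (.nd (nat_lit 5) (.nd (nat_lit 27) (.nd (nat_lit 19) 
(.nd (nat_lit 28) (.nd (nat_lit 6) (.nd (nat_lit 20) (.nd (nat_lit 21) 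
(.lf (nat_lit 604110872) (dlOf (nat_lit 1) (nat_lit 0x400400020008020502))) 
(.lf (nat_lit 10616856) (dlOf (nat_lit 3) (nat_lit 0xb87300024376000460400161cc00022818600180)))) 
(.nd (nat_lit 21) 
(.lf (nat_lit 47317016) (dlOf (nat_lit 3) (nat_lit 0x85e280042ea80002c08002178a0010baa000028293d0480))) 
(.lf (nat_lit 15859736) (dlOf (nat_lit 1) (nat_lit 0x48004000e0018840482))))) (.nd (nat_lit 7) 
(.nd (nat_lit 21) (.nd (nat_lit 26) 
(.lf (nat_lit 5368840280) (dlOf (nat_lit 6) (nat_lit 0x318014000980401d400a0004b020152015009f00a004a8038000800c022002a011001400880070000fc180288054000801c0003e0400020028040601))) 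
(.lf (nat_lit 1140981848) (dlOf (nat_lit 3) (nat_lit 0x11400c000030200ee00600000818040600)))) 
(.lf (nat_lit 52559960) (dlOf (nat_lit 3) (nat_lit 0x2b270001401002660800142fe400a164e004aa7a002a5340000982800e000800b0002001e0009550803)))) 
(.nd (nat_lit 20) 
(.lf (nat_lit 2228440) (dlOf (nat_lit 2) (nat_lit 0x105fa800b2f840109646007ca2d0011b848150480))) 
(.lf (nat_lit 3277016) (dlOf (nat_lit 1) (nat_lit 0x60008200481)))))) (.nd (nat_lit 6) 
(.nd (nat_lit 7) (.nd (nat_lit 9) (.nd (nat_lit 26) 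
(.lf (nat_lit 4563536920) (dlOf (nat_lit 1) (nat_lit 0x20008096001))) 
(.lf (nat_lit 5704387608) (dlOf (nat_lit 1) (nat_lit 0x40018056001)))) 
(.lf (nat_lit 805441048) (dlOf (nat_lit 3) (nat_lit 0xc00e0000e810002000000064080028008000c00200120008117103)))) 
(.lf (nat_lit 4563536280) (dlOf (nat_lit 1) (nat_lit 0x14400401f80008094e82)))) (.nd (nat_lit 10) 
(.nd (nat_lit 30) 
(.lf (nat_lit 3020030424) (dlOf (nat_lit 3) (nat_lit 0x50038002801800160000008583000200700040c0803a00080010002001c00080e7b03))) 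
(.lf (nat_lit 1946288600) (dlOf (nat_lit 1) (nat_lit 0x460028017101)))) (.nd (nat_lit 7) 
(.lf (nat_lit 805444952) (dlOf (nat_lit 1) (nat_lit 0x800800040020002000811c903))) (.nd (nat_lit 8) 
(.lf (nat_lit 805444824) (dlOf (nat_lit 1) (nat_lit 0x30001811c401))) 
(.lf (nat_lit 805440984) (dlOf (nat_lit 1) (nat_lit 0x40018116d81)))))))) (.nd (nat_lit 21) 
(.nd (nat_lit 26) (.nd (nat_lit 22) (.nd (nat_lit 6) 
(.lf (nat_lit 537526296) (dlOf (nat_lit 2) (nat_lit 0x603100edc8180a0900))) 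
(.lf (nat_lit 1611269208) (dlOf (nat_lit 1) (nat_lit 0x180018122901)))) (.nd (nat_lit 8) 
(.lf (nat_lit 5898264) (dlOf (nat_lit 8) (nat_lit 0x200cf2006400201446790031f81006f33c8018f00803799e400c6e0401bccf2006360201426790031981006f33c8018b4080060008000c002006a0008400683))) 
(.lf (nat_lit 46792984) (dlOf (nat_lit 5) (nat_lit 0x799e4002d8040014cf2000060200026790000181003933c800000080018008000c00200300009380a83))))) 
(.nd (nat_lit 28) (.nd (nat_lit 6) 
(.lf (nat_lit 4362731544) (dlOf (nat_lit 2) (nat_lit 0x1d00ac0015902000200280e0a81))) 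
(.lf (nat_lit 2752121048) (dlOf (nat_lit 1) (nat_lit 0x120008004a81)))) (.nd (nat_lit 9) 
(.lf (nat_lit 1409941528) (dlOf (nat_lit 2) (nat_lit 0x603100d2b0180a0900))) 
(.lf (nat_lit 4094296600) (dlOf (nat_lit 1) (nat_lit 0x400400020008037e82)))))) (.nd (nat_lit 6) 
(.nd (nat_lit 20) (.nd (nat_lit 22) (.nd (nat_lit 23) 
(.lf (nat_lit 1344929816) (dlOf (nat_lit 1) (nat_lit 0x4002000800089a0082))) 
(.lf (nat_lit 11141144) (dlOf (nat_lit 1) (nat_lit 0x40028660481)))) (.nd (nat_lit 23) 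
(.lf (nat_lit 6946840) (dlOf (nat_lit 8) (nat_lit 0x20181c00bd5020144c0e005ea01006f607002f3c08037b038017980401bd81c00bc9020142c0e005e401006f607002f08080060008000c002006a0008490683))) 
(.lf (nat_lit 48889880) (dlOf (nat_lit 2) (nat_lit 0xab29000f6819440080))))) (.nd (nat_lit 10) 
(.nd (nat_lit 26) 
(.lf (nat_lit 3493462040) (dlOf (nat_lit 7) (nat_lit 0xec0cc000a061001f02f001a017000ec0b2007c057003b020000380bc002c05a00b6022006a00e8019806c003fe30007c0cc001a05e001a02e000a015c0004080000e02f0004016801d8088007403a001fe12008a06600520308015017800fc0b800d8059006102b8022810000e007c001002f0008016800700a000d404c00b0022006500e8029006c0148028001fd200042066001b02e0007815c000405e000202d002c0110007f03000c81700098044001f504003c066000302e000e8100002005e001202d0005014000100980078036001e71000d20028140a81))) 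
(.lf (nat_lit 2755264536) (dlOf (nat_lit 7) (nat_lit 0xec0cc000a061001f02f001a017000ec0b2007c057003b020000380bc002c05a00b6022006a00e8019806c003da30007c0cc001a05e001a02e000a015c0004080000e02f0004016801d8088007403a001ec12008a06600520308015017800fc0b800d8059006102b8022810000e007c001002f0008016800700a000d404c00b0022006500e8029006c0148028001eb200042066001b02e0007815c000405e000202d002c0110007a83000c81700098044001e304003c066000302e000e8100002005e001202d0005014000100980078036001d21000d20028140a81)))) 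
(.lf (nat_lit 20581400) (dlOf (nat_lit 1) (nat_lit 0x100080020002000400089d6003))))) 
(.nd (nat_lit 10) (.nd (nat_lit 22) 
(.lf (nat_lit 2754216024) (dlOf (nat_lit 1) (nat_lit 0x8002000200080c1a82))) 
(.lf (nat_lit 23724120) (dlOf (nat_lit 1) (nat_lit 0xc00400060008b80002)))) (.nd (nat_lit 7) 
(.lf (nat_lit 44696664) (dlOf (nat_lit 1) (nat_lit 0x400200040009322902))) 
(.lf (nat_lit 8001240) (dlOf (nat_lit 1) (nat_lit 0x40020002000851a002)))))))) (.nd (nat_lit 26) 
(.nd (nat_lit 6) (.nd (nat_lit 7) (.nd (nat_lit 8) (.nd (nat_lit 19) (.nd (nat_lit 31) 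
(.lf (nat_lit 1476526104) (dlOf (nat_lit 2) (nat_lit 0x200fc00140780014039000201b000d442000d0008011c002011c0008020503))) 
(.lf (nat_lit 3624009752) (dlOf (nat_lit 1) (nat_lit 0x80080004002000200080a0503)))) 
(.lf (nat_lit 2819227672) (dlOf (nat_lit 1) (nat_lit 0x10004000200081f0482)))) (.nd (nat_lit 28) 
(.lf (nat_lit 671222040) (dlOf (nat_lit 1) (nat_lit 0x8008000800200020008144b83))) 
(.lf (nat_lit 3087141144) (dlOf (nat_lit 1) (nat_lit 0x540028144b81))))) (.nd (nat_lit 8) 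
(.nd (nat_lit 9) (.lf (nat_lit 6576802968) (dlOf (nat_lit 1) (nat_lit 0x400400020018146202))) 
(.lf (nat_lit 3355574936) (dlOf (nat_lit 3) (nat_lit 0xa0178000500800480c80002004001c004001000080a1b82)))) 
(.nd (nat_lit 9) (.lf (nat_lit 1744963992) (dlOf (nat_lit 1) (nat_lit 0x80018094e81))) 
(.lf (nat_lit 3355579288) (dlOf (nat_lit 1) (nat_lit 0x4004000a00080a9102)))))) (.nd (nat_lit 28) 
(.nd (nat_lit 29) (.nd (nat_lit 32) 
(.lf (nat_lit 1208090712) (dlOf (nat_lit 1) (nat_lit 0x2400400060008090002))) 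
(.lf (nat_lit 5503058008) (dlOf (nat_lit 6) (nat_lit 0x318014000a60401d400a00052020152015009f00a004a80380008e0c022002a01100140088007000118180288054000801c000450400020028040601)))) 
(.nd (nat_lit 7) (.lf (nat_lit 4966187096) (dlOf (nat_lit 1) (nat_lit 0x400200020008040602))) 
(.lf (nat_lit 3892445656) (dlOf (nat_lit 3) (nat_lit 0x2c0d0001606600080000004041800401a0001fa04014000400020018117b02))))) 
(.nd (nat_lit 7) (.nd (nat_lit 19) 
(.lf (nat_lit 2013397080) (dlOf (nat_lit 3) (nat_lit 0x11400c000030200ee00600000818040600))) 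
(.lf (nat_lit 5772017752) (dlOf (nat_lit 6) (nat_lit 0x660140001500801000a0000a6040288046000400201260230001f81005d0118000f8080130008000800200840008040603)))) 
(.lf (nat_lit 4697752536) (dlOf (nat_lit 1) (nat_lit 0x20028092881)))))) (.nd (nat_lit 29) 
(.nd (nat_lit 7) (.nd (nat_lit 9) (.nd (nat_lit 19) 
(.lf (nat_lit 3691118616) (dlOf (nat_lit 2) (nat_lit 0x806402d2804005800200580008020502))) 
(.lf (nat_lit 472514584) (dlOf (nat_lit 2) (nat_lit 0x40a680091c0800280080008002000400089b0603)))) 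
(.nd (nat_lit 11) 
(.lf (nat_lit 2617377304) (dlOf (nat_lit 2) (nat_lit 0x9015800580080388008007400200b800080a1483))) 
(.lf (nat_lit 201464344) (dlOf (nat_lit 1) (nat_lit 0x2000800b281))))) (.nd (nat_lit 6) 
(.nd (nat_lit 12) (.lf (nat_lit 4496426136) (dlOf (nat_lit 1) (nat_lit 0x400200020008052b82))) 
(.lf (nat_lit 2617382040) (dlOf (nat_lit 2) (nat_lit 0x60088013600800480080004002005400080a9503)))) 
(.lf (nat_lit 473563608) (dlOf (nat_lit 2) (nat_lit 0x811700078818f67b00))))) (.nd (nat_lit 6) 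
(.nd (nat_lit 19) 
(.lf (nat_lit 2885812248) (dlOf (nat_lit 1) (nat_lit 0x80080004002000200080a0503))) 
(.nd (nat_lit 21) 
(.lf (nat_lit 4228513816) (dlOf (nat_lit 2) (nat_lit 0x1d009e0015402000200280e0a81))) 
(.lf (nat_lit 1009385496) (dlOf (nat_lit 1) (nat_lit 0x400400020009150182))))) (.nd (nat_lit 19) 
(.nd (nat_lit 8) (.lf (nat_lit 5033295960) (dlOf (nat_lit 1) (nat_lit 0x400200020008040602))) 
(.lf (nat_lit 738328920) (dlOf (nat_lit 2) (nat_lit 0x20520002a018090d80)))) (.nd (nat_lit 28) 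
(.lf (nat_lit 3960078424) (dlOf (nat_lit 1) (nat_lit 0x600081a1a81))) 
(.lf (nat_lit 6375997528) (dlOf (nat_lit 6) (nat_lit 0x6601400016c0801000a0000b4040288046000470201260230002301005d011800114080130008000800200840008040603))))))))) 
(.nd (nat_lit 30) (.nd (nat_lit 19) (.nd (nat_lit 24) (.nd (nat_lit 26) (.nd (nat_lit 7) 
(.nd (nat_lit 9) (.nd (nat_lit 21) 
(.lf (nat_lit 4563533880) (dlOf (nat_lit 1) (nat_lit 0x22800400160018090002))) 
(.lf (nat_lit 10616888) (dlOf (nat_lit 9) (nat_lit 0xa81cc00090dd8001581002387300014376000550400881cc0002a0100450f00001380802187800006e0400049fa000320200a21cc000f0dd80004c1002307300014376000120400040018600681)))) 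
(.lf (nat_lit 4697753144) (dlOf (nat_lit 1) (nat_lit 0x48008003400200080008093783)))) 
(.nd (nat_lit 6) (.lf (nat_lit 402784440) (dlOf (nat_lit 1) (nat_lit 0x6c002014e0008090702))) 
(.nd (nat_lit 8) (.lf (nat_lit 4563534072) (dlOf (nat_lit 1) (nat_lit 0x40028090a81))) 
(.lf (nat_lit 537008632) (dlOf (nat_lit 1) (nat_lit 0x100020002000800b282)))))) (.nd (nat_lit 27) 
(.nd (nat_lit 6) (.lf (nat_lit 2752643128) (dlOf (nat_lit 1) (nat_lit 0x400200040008020682))) 
(.lf (nat_lit 335675512) (dlOf (nat_lit 1) (nat_lit 0x20028090201)))) (.nd (nat_lit 8) 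
(.lf (nat_lit 2617382456) (dlOf (nat_lit 1) (nat_lit 0x2800080a9c01))) 
(.lf (nat_lit 738328888) (dlOf (nat_lit 3) (nat_lit 0x30814c01c006a0126021009700e8000582005a814c02e406a019802100c600e800000200050008019400200040008090b83)))))) 
(.nd (nat_lit 21) (.nd (nat_lit 22) (.nd (nat_lit 20) 
(.lf (nat_lit 25296952) (dlOf (nat_lit 1) (nat_lit 0x8008001000200180008bf0b83))) 
(.lf (nat_lit 17956920) (dlOf (nat_lit 1) (nat_lit 0x400200020008900c02)))) (.nd (nat_lit 6) 
(.lf (nat_lit 29491256) (dlOf (nat_lit 2) (nat_lit 0x9000000000080030008000400200060008e10903))) 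
(.lf (nat_lit 54659960) (dlOf (nat_lit 1) (nat_lit 0x10008000800200060009655c03))))) 
(.nd (nat_lit 6) (.nd (nat_lit 8) 
(.lf (nat_lit 52559928) (dlOf (nat_lit 1) (nat_lit 0x2000800c4002003a0009550503))) 
(.lf (nat_lit 19005752) (dlOf (nat_lit 1) (nat_lit 0x120018970701)))) (.nd (nat_lit 7) 
(.lf (nat_lit 20054648) (dlOf (nat_lit 2) (nat_lit 0xa9da70025b5280006c080068004000800089d1902))) 
(.lf (nat_lit 20054264) (dlOf (nat_lit 1) (nat_lit 0xb00080004002001800089d0a83))))))) 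
(.nd (nat_lit 23) (.nd (nat_lit 22) (.nd (nat_lit 26) 
(.lf (nat_lit 805961784) (dlOf (nat_lit 2) (nat_lit 0x17802800042040014004001a0008201282))) 
(.nd (nat_lit 29) (.lf (nat_lit 470417464) (dlOf (nat_lit 2) (nat_lit 0x3a0ae000000180e0b00))) 
(.lf (nat_lit 3154772024) (dlOf (nat_lit 1) (nat_lit 0x80028321101))))) (.nd (nat_lit 6) 
(.nd (nat_lit 20) 
(.lf (nat_lit 6946872) (dlOf (nat_lit 2) (nat_lit 0x696070000b0080058008003c002003c0008490903))) 
(.lf (nat_lit 5898296) (dlOf (nat_lit 2) (nat_lit 0x6933c8000b0080058008003c002003c0008400903)))) 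
(.lf (nat_lit 7997048) (dlOf (nat_lit 2) (nat_lit 0x72610000280800c8008000800200120008513983))))) 
(.nd (nat_lit 7) (.nd (nat_lit 6) (.nd (nat_lit 21) 
(.lf (nat_lit 10092600) (dlOf (nat_lit 1) (nat_lit 0x40002000400085b0682))) 
(.lf (nat_lit 45744184) (dlOf (nat_lit 2) (nat_lit 0x4cfc000310200020029360501)))) 
(.lf (nat_lit 46795640) (dlOf (nat_lit 1) (nat_lit 0x4480080138002002c0009385c03)))) 
(.nd (nat_lit 10) (.nd (nat_lit 11) 
(.lf (nat_lit 60424376) (dlOf (nat_lit 1) (nat_lit 0x40019853001))) 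
(.lf (nat_lit 9046200) (dlOf (nat_lit 1) (nat_lit 0x8008000400200020008514903)))) 
(.lf (nat_lit 32113848) (dlOf (nat_lit 1) (nat_lit 0x1c0008ef2c81))))))) (.nd (nat_lit 29) 
(.nd (nat_lit 19) (.nd (nat_lit 6) (.nd (nat_lit 7) (.nd (nat_lit 20) 
(.lf (nat_lit 3355574328) (dlOf (nat_lit 1) (nat_lit 0x1400180a0001))) 
(.lf (nat_lit 3490840632) (dlOf (nat_lit 1) (nat_lit 0x400200040008020682)))) 
(.lf (nat_lit 1543638200) (dlOf (nat_lit 2) (nat_lit 0x30170000b0080010008001000200060008146283)))) 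
(.nd (nat_lit 7) 
(.lf (nat_lit 3355574904) (dlOf (nat_lit 9) (nat_lit 0x10602d0069015803c80a8014c04e00a2025008700f803e007001b401e008400b00510050000d85002600b800d805a006802b000a014001a009c00d003e000201c0034005801500280006824038c06600500320041017807600b4032c058018002900480130006809002fc03c012c0030003000806400000006430013c05e009e02d0001802002d017800a80ac00040160002e06006002f001b0158013802c0005a0c000c05c0002b02005c02a0005005800090100058008043400202bc00080a1903))) 
(.lf (nat_lit 3355574776) (dlOf (nat_lit 2) (nat_lit 0x602e000688180a1480))))) (.nd (nat_lit 20) 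
(.nd (nat_lit 28) 
(.lf (nat_lit 3221880888) (dlOf (nat_lit 2) (nat_lit 0x1c802c0001402000200281a1281))) 
(.lf (nat_lit 1342832696) (dlOf (nat_lit 2) (nat_lit 0x3a0ae000000180e0b00)))) (.nd (nat_lit 7) 
(.lf (nat_lit 1345980984) (dlOf (nat_lit 1) (nat_lit 0x54004000e0008e25202))) 
(.lf (nat_lit 1343881400) (dlOf (nat_lit 1) (nat_lit 0x23000200160008370482)))))) (.nd (nat_lit 8) 
(.nd (nat_lit 9) (.nd (nat_lit 7) (.nd (nat_lit 11) 
(.lf (nat_lit 1744961592) (dlOf (nat_lit 1) (nat_lit 0x20018090001))) 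
(.lf (nat_lit 1677854776) (dlOf (nat_lit 1) (nat_lit 0x1000200060008114702)))) 
(.lf (nat_lit 1880753336) (dlOf (nat_lit 1) (nat_lit 0x400200340008b52c82)))) (.nd (nat_lit 27) 
(.lf (nat_lit 1677859384) (dlOf (nat_lit 1) (nat_lit 0x80008001c002005e000811b403))) 
(.lf (nat_lit 3959560760) (dlOf (nat_lit 5) (nat_lit 0xd01180012e0400380400008902000e0460000281002f0230000100800f000800400020018000811b403))))) 
(.nd (nat_lit 7) (.nd (nat_lit 12) 
(.lf (nat_lit 6376524152) (dlOf (nat_lit 1) (nat_lit 0x100008094e81))) 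
(.lf (nat_lit 1677859192) (dlOf (nat_lit 1) (nat_lit 0x14000811ae01)))) (.nd (nat_lit 6) 
(.lf (nat_lit 1610744248) (dlOf (nat_lit 2) (nat_lit 0x401d000ab018091000))) 
(.lf (nat_lit 5972822008) (dlOf (nat_lit 2) (nat_lit 0x6008800064080028008000c00200060008144683))))))))) 
(.nd (nat_lit 6) (.nd (nat_lit 30) (.nd (nat_lit 5) (.nd (nat_lit 19) (.nd (nat_lit 10) 
(.nd (nat_lit 7) (.nd (nat_lit 20) 
(.lf (nat_lit 29556760) (dlOf (nat_lit 2) (nat_lit 0x1548c000240200040008e20401))) 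
(.lf (nat_lit 22216728) (dlOf (nat_lit 1) (nat_lit 0xc00400020008aa0a82)))) 
(.lf (nat_lit 4966255000) (dlOf (nat_lit 1) (nat_lit 0x400400020008094e82)))) (.nd (nat_lit 7) 
(.nd (nat_lit 22) (.lf (nat_lit 4563602456) (dlOf (nat_lit 1) (nat_lit 0x400400020008096002))) 
(.lf (nat_lit 54725656) (dlOf (nat_lit 1) (nat_lit 0x38004000e0009656002)))) 
(.lf (nat_lit 2885879704) (dlOf (nat_lit 1) (nat_lit 0x8008000400200020008144203))))) 
(.nd (nat_lit 27) (.nd (nat_lit 20) (.nd (nat_lit 22) 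
(.lf (nat_lit 537591832) (dlOf (nat_lit 1) (nat_lit 0x10004000200080c0a82))) 
(.lf (nat_lit 21692440) (dlOf (nat_lit 3) (nat_lit 0x13b54000fda80003ed30000f680001bb3c0005d43006a9060005ed5000376a001aa2080004004001c0008a60a02)))) 
(.nd (nat_lit 8) (.lf (nat_lit 1769496) (dlOf (nat_lit 1) (nat_lit 0x80018130501))) 
(.lf (nat_lit 8062744) (dlOf (nat_lit 1) (nat_lit 0x6000400080018513c82))))) (.nd (nat_lit 26) 
(.lf (nat_lit 134938648) (dlOf (nat_lit 4) (nat_lit 0x11002a0002f0200c80150001701004700a8000b0080730008014c002001a00080e0383))) 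
(.nd (nat_lit 28) 
(.lf (nat_lit 202047512) (dlOf (nat_lit 4) (nat_lit 0x11002c000320200c80160001881004700b0000bc080730008014c002001a00080e0383))) 
(.lf (nat_lit 1007353880) (dlOf (nat_lit 1) (nat_lit 0x80080004002000400082f0903))))))) 
(.nd (nat_lit 10) (.nd (nat_lit 20) (.nd (nat_lit 21) (.nd (nat_lit 29) 
(.lf (nat_lit 470483000) (dlOf (nat_lit 1) (nat_lit 0x20018101481))) 
(.lf (nat_lit 1007353912) (dlOf (nat_lit 1) (nat_lit 0x20008000c002000600082f1103)))) 
(.lf (nat_lit 11206712) (dlOf (nat_lit 1) (nat_lit 0xa0028670d81)))) (.nd (nat_lit 7) 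
(.nd (nat_lit 19) (.lf (nat_lit 36899384) (dlOf (nat_lit 1) (nat_lit 0x20019075201))) 
(.lf (nat_lit 58395192) (dlOf (nat_lit 1) (nat_lit 0x8004000200097e5202)))) 
(.lf (nat_lit 8061368) (dlOf (nat_lit 1) (nat_lit 0x20008511001))))) (.nd (nat_lit 7) 
(.nd (nat_lit 9) (.nd (nat_lit 11) 
(.lf (nat_lit 8590648) (dlOf (nat_lit 1) (nat_lit 0x400200020008519902))) 
(.lf (nat_lit 2818776376) (dlOf (nat_lit 1) (nat_lit 0x40040002000812c802)))) 
(.lf (nat_lit 2885879608) (dlOf (nat_lit 2) (nat_lit 0x4806c0004004005c00400820018143e02)))) 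
(.nd (nat_lit 8) (.nd (nat_lit 23) 
(.lf (nat_lit 35849400) (dlOf (nat_lit 1) (nat_lit 0x20019012c81))) 
(.lf (nat_lit 61015224) (dlOf (nat_lit 1) (nat_lit 0x4002000200098c2c82)))) 
(.lf (nat_lit 2818776504) (dlOf (nat_lit 1) (nat_lit 0x2002812cd01))))))) (.nd (nat_lit 26) 
(.nd (nat_lit 5) (.nd (nat_lit 9) (.nd (nat_lit 19) 
(.lf (nat_lit 1346568216) (dlOf (nat_lit 1) (nat_lit 0x20018fd0181))) (.nd (nat_lit 20) 
(.lf (nat_lit 1344995352) (dlOf (nat_lit 1) (nat_lit 0x800189b0601))) 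
(.lf (nat_lit 1343946776) (dlOf (nat_lit 1) (nat_lit 0x400200020008380902))))) (.nd (nat_lit 8) 
(.lf (nat_lit 2013464088) (dlOf (nat_lit 1) (nat_lit 0x200080020002000c0008093703))) 
(.lf (nat_lit 4160946968) (dlOf (nat_lit 1) (nat_lit 0x400180a2101))))) (.nd (nat_lit 27) 
(.nd (nat_lit 8) (.nd (nat_lit 19) 
(.lf (nat_lit 1881342008) (dlOf (nat_lit 1) (nat_lit 0x10008000800200060008ea0483))) 
(.lf (nat_lit 1342898232) (dlOf (nat_lit 1) (nat_lit 0x20018101481)))) 
(.lf (nat_lit 5905778488) (dlOf (nat_lit 1) (nat_lit 0x3e0018143e01)))) (.nd (nat_lit 28) 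
(.lf (nat_lit 5503123512) (dlOf (nat_lit 1) (nat_lit 0xc0018090001))) 
(.lf (nat_lit 6308429880) (dlOf (nat_lit 2) (nat_lit 0x260190010e818080480)))))) (.nd (nat_lit 9) 
(.nd (nat_lit 10) (.nd (nat_lit 5) (.nd (nat_lit 19) 
(.lf (nat_lit 3691184152) (dlOf (nat_lit 1) (nat_lit 0x20028090481))) 
(.lf (nat_lit 1410007064) (dlOf (nat_lit 1) (nat_lit 0x10004000200080c0a82)))) 
(.lf (nat_lit 5704450104) (dlOf (nat_lit 2) (nat_lit 0x2601900110818080480)))) (.nd (nat_lit 7) 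
(.lf (nat_lit 3959620632) (dlOf (nat_lit 2) (nat_lit 0x2800002bac04001400200180008112882))) 
(.lf (nat_lit 1543703704) (dlOf (nat_lit 2) (nat_lit 0x4c01400000018146200))))) (.nd (nat_lit 7) 
(.nd (nat_lit 5) (.nd (nat_lit 8) 
(.lf (nat_lit 1677924888) (dlOf (nat_lit 1) (nat_lit 0x40040002000811b282))) 
(.lf (nat_lit 3422753560) (dlOf (nat_lit 1) (nat_lit 0x400180a8f81)))) 
(.lf (nat_lit 6241323832) (dlOf (nat_lit 1) (nat_lit 0x88004000a00180d5c02)))) (.nd (nat_lit 10) 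
(.lf (nat_lit 6241323928) (dlOf (nat_lit 1) (nat_lit 0x100004000c00180d5c82))) 
(.lf (nat_lit 3556972440) (dlOf (nat_lit 1) (nat_lit 0x380080038002001c000812a303)))))))) 
(.nd (nat_lit 8) (.nd (nat_lit 26) (.nd (nat_lit 21) (.nd (nat_lit 19) (.nd (nat_lit 5) 
(.nd (nat_lit 7) (.lf (nat_lit 6308429912) (dlOf (nat_lit 2) (nat_lit 0x1400a00008018080600))) 
(.lf (nat_lit 2818773208) (dlOf (nat_lit 1) (nat_lit 0x400200020008128082)))) 
(.lf (nat_lit 3892516984) (dlOf (nat_lit 1) (nat_lit 0x24001815a881)))) (.nd (nat_lit 5) 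
(.nd (nat_lit 7) (.lf (nat_lit 9109592) (dlOf (nat_lit 1) (nat_lit 0x10008000800200040008521883))) 
(.lf (nat_lit 9109720) (dlOf (nat_lit 1) (nat_lit 0x20018523f01)))) 
(.lf (nat_lit 1880819320) (dlOf (nat_lit 2) (nat_lit 0x306f80004c080008008000400200040008bb3983))))) 
(.nd (nat_lit 20) (.nd (nat_lit 5) (.nd (nat_lit 9) 
(.lf (nat_lit 1881342040) (dlOf (nat_lit 3) (nat_lit 0x80c8000250200040640000e818ea0700))) 
(.lf (nat_lit 32180824) (dlOf (nat_lit 1) (nat_lit 0x580080030002000a0008ef5303)))) 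
(.lf (nat_lit 19071096) (dlOf (nat_lit 1) (nat_lit 0xc0018970481)))) (.nd (nat_lit 5) 
(.nd (nat_lit 10) (.lf (nat_lit 3342552) (dlOf (nat_lit 1) (nat_lit 0x40028200481))) 
(.lf (nat_lit 8066264) (dlOf (nat_lit 1) (nat_lit 0x20028519501)))) 
(.lf (nat_lit 20125304) (dlOf (nat_lit 1) (nat_lit 0x400080028002000400089d9d03)))))) 
(.nd (nat_lit 28) (.nd (nat_lit 7) (.nd (nat_lit 5) (.nd (nat_lit 21) 
(.lf (nat_lit 4496490584) (dlOf (nat_lit 2) (nat_lit 0xd8038004001b003d00d0000cc180058008000c00200020008090603))) 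
(.lf (nat_lit 2753757272) (dlOf (nat_lit 1) (nat_lit 0x10008000800200020008090003)))) 
(.lf (nat_lit 3422754424) (dlOf (nat_lit 1) (nat_lit 0x80080004002000200080a9d03)))) 
(.nd (nat_lit 11) 
(.lf (nat_lit 2755854552) (dlOf (nat_lit 2) (nat_lit 0x12835a0094192004a0bf0025058c01282a60066152004a0a7002504f401282760098136004a092000e04780012830000c004000800081b0482))) 
(.lf (nat_lit 2752186584) (dlOf (nat_lit 1) (nat_lit 0xc0028004a81))))) (.nd (nat_lit 5) 
(.nd (nat_lit 7) (.nd (nat_lit 19) 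
(.lf (nat_lit 5704450136) (dlOf (nat_lit 2) (nat_lit 0x1400a00009818080600))) 
(.lf (nat_lit 472580184) (dlOf (nat_lit 2) (nat_lit 0x670d2006a064003502c60034142000109c001784900350238003a09f0102000000098480010008032400203f400089c0803)))) 
(.lf (nat_lit 1543703768) (dlOf (nat_lit 1) (nat_lit 0x18008000c00200040008146483)))) 
(.nd (nat_lit 7) (.lf (nat_lit 6241323640) (dlOf (nat_lit 1) (nat_lit 0x4002007200080d5402))) 
(.lf (nat_lit 3556970232) (dlOf (nat_lit 1) (nat_lit 0xa0018127481))))))) (.nd (nat_lit 5) 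
(.nd (nat_lit 26) (.nd (nat_lit 20) (.nd (nat_lit 9) (.nd (nat_lit 27) 
(.lf (nat_lit 1342374232) (dlOf (nat_lit 1) (nat_lit 0x48008002800200120008014d83))) 
(.lf (nat_lit 3087204696) (dlOf (nat_lit 3) (nat_lit 0x780400002f02000c02000017018154e00)))) 
(.nd (nat_lit 7) (.lf (nat_lit 268634968) (dlOf (nat_lit 1) (nat_lit 0x200280e5c01))) 
(.lf (nat_lit 5637342168) (dlOf (nat_lit 1) (nat_lit 0x180080038002000800080d2883))))) 
(.nd (nat_lit 12) (.nd (nat_lit 10) 
(.lf (nat_lit 9634136) (dlOf (nat_lit 1) (nat_lit 0x40028574e01))) 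
(.lf (nat_lit 57869656) (dlOf (nat_lit 1) (nat_lit 0x9000200320009793382)))) (.nd (nat_lit 9) 
(.lf (nat_lit 8065368) (dlOf (nat_lit 1) (nat_lit 0x400200020008518382))) 
(.lf (nat_lit 8065880) (dlOf (nat_lit 1) (nat_lit 0x20028518f81)))))) (.nd (nat_lit 9) 
(.nd (nat_lit 7) (.nd (nat_lit 10) 
(.lf (nat_lit 4228055384) (dlOf (nat_lit 4) (nat_lit 0x80800002e0200980400001101001601f800034080090008009800200700008014d83))) 
(.lf (nat_lit 1543703896) (dlOf (nat_lit 2) (nat_lit 0x980200000604000400400040008146a82)))) 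
(.nd (nat_lit 28) 
(.lf (nat_lit 1812136408) (dlOf (nat_lit 1) (nat_lit 0x20008001800200020008157103))) 
(.lf (nat_lit 4228055512) (dlOf (nat_lit 2) (nat_lit 0x1a802a00a60000000001000c0008021c002004a0008017103))))) 
(.nd (nat_lit 10) (.lf (nat_lit 4630711128) (dlOf (nat_lit 1) (nat_lit 0x1000400080008095c02))) 
(.nd (nat_lit 19) (.lf (nat_lit 2885879640) (dlOf (nat_lit 1) (nat_lit 0x1800400700008143f82))) 
(.lf (nat_lit 2752186200) (dlOf (nat_lit 1) (nat_lit 0x800400040008003f82))))))) (.nd (nat_lit 7) 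
(.nd (nat_lit 9) (.nd (nat_lit 10) (.nd (nat_lit 11) 
(.lf (nat_lit 3491430776) (dlOf (nat_lit 10) (nat_lit 0x2079800e1e0400843cc0070b0200421e6003850100210f3001c2008010879800e0c0400143cc007040200421e60037f8100130f3001bf808005079800df804000400400020008090782))) 
(.lf (nat_lit 472058232) (dlOf (nat_lit 1) (nat_lit 0x820018804e81)))) 
(.lf (nat_lit 2818774392) (dlOf (nat_lit 1) (nat_lit 0x28008003800200040008129903)))) 
(.nd (nat_lit 10) 
(.lf (nat_lit 59968376) (dlOf (nat_lit 1) (nat_lit 0x18008000400200020009845c03))) 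
(.lf (nat_lit 2751661944) (dlOf (nat_lit 1) (nat_lit 0x400200020008004082))))) (.nd (nat_lit 9) 
(.nd (nat_lit 10) (.lf (nat_lit 9634296) (dlOf (nat_lit 1) (nat_lit 0x18008000c00200040008577e03))) 
(.nd (nat_lit 11) (.lf (nat_lit 8062456) (dlOf (nat_lit 1) (nat_lit 0x40028513681))) 
(.lf (nat_lit 3624078840) (dlOf (nat_lit 1) (nat_lit 0x8008000400200020008146f83))))) 
(.nd (nat_lit 10) (.nd (nat_lit 11) 
(.lf (nat_lit 36373496) (dlOf (nat_lit 1) (nat_lit 0x20029072881))) 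
(.lf (nat_lit 54725624) (dlOf (nat_lit 3) (nat_lit 0xe744000c3a18000c8100069d10003ce86000310400160019655f01)))) 
(.lf (nat_lit 5905778680) (dlOf (nat_lit 1) (nat_lit 0x20028144681)))))))))) (.nd (nat_lit 21) 
(.nd (nat_lit 5) (.nd (nat_lit 6) (.nd (nat_lit 30) (.nd (nat_lit 22) (.nd (nat_lit 28) 
(.nd (nat_lit 16) (.nd (nat_lit 19) 
(.lf (nat_lit 26607640) (dlOf (nat_lit 2) (nat_lit 0x1125c18067a750034023a00b211700d0017803700a4003f818000800400040018c50082))) 
(.lf (nat_lit 2819489816) (dlOf (nat_lit 3) (nat_lit 0x901b0001700800480d8000b404000c004005e00082b0402)))) 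
(.lf (nat_lit 26673176) (dlOf (nat_lit 2) (nat_lit 0x14b83001308e804e045c00c0052001fc0800020008c50081)))) 
(.nd (nat_lit 16) (.nd (nat_lit 29) 
(.lf (nat_lit 4563795992) (dlOf (nat_lit 2) (nat_lit 0x301980005408005000800f0002005000080e0483))) 
(.lf (nat_lit 805699608) (dlOf (nat_lit 1) (nat_lit 0x23000800bc002004c0008190503)))) 
(.lf (nat_lit 3020357656) (dlOf (nat_lit 1) (nat_lit 0x400200040008290482))))) (.nd (nat_lit 23) 
(.nd (nat_lit 10) (.nd (nat_lit 20) 
(.lf (nat_lit 2756050968) (dlOf (nat_lit 1) (nat_lit 0x1200080008002003400081e0483))) 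
(.lf (nat_lit 55967768) (dlOf (nat_lit 1) (nat_lit 0x20029700601)))) 
(.lf (nat_lit 38143000) (dlOf (nat_lit 1) (nat_lit 0x8008000800200020009132883)))) (.nd (nat_lit 7) 
(.nd (nat_lit 16) (.lf (nat_lit 12976152) (dlOf (nat_lit 1) (nat_lit 0x2200186f0401))) 
(.lf (nat_lit 14614552) (dlOf (nat_lit 2) (nat_lit 0xd3778000f5018770080)))) 
(.lf (nat_lit 29819032) (dlOf (nat_lit 1) (nat_lit 0x4e8008059400200ea0008e30483)))))) 
(.nd (nat_lit 26) (.nd (nat_lit 16) (.nd (nat_lit 7) (.nd (nat_lit 27) 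
(.lf (nat_lit 3221618712) (dlOf (nat_lit 1) (nat_lit 0xe8004000e0008160502))) 
(.lf (nat_lit 3355836440) (dlOf (nat_lit 2) (nat_lit 0x19018000380b80000008001400400120008120482)))) 
(.lf (nat_lit 3491627160) (dlOf (nat_lit 1) (nat_lit 0x298004007e0018090182)))) (.nd (nat_lit 7) 
(.nd (nat_lit 28) (.lf (nat_lit 3758555160) (dlOf (nat_lit 1) (nat_lit 0x400200040008290482))) 
(.lf (nat_lit 5637603352) (dlOf (nat_lit 1) (nat_lit 0xe0008120a01)))) 
(.lf (nat_lit 3221684632) (dlOf (nat_lit 1) (nat_lit 0x400400020008170782))))) (.nd (nat_lit 16) 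
(.nd (nat_lit 27) (.nd (nat_lit 19) 
(.lf (nat_lit 1678114840) (dlOf (nat_lit 1) (nat_lit 0x23000800bc002004c0008190503))) 
(.lf (nat_lit 3557687320) (dlOf (nat_lit 3) (nat_lit 0x901c0001700800480e0000b404000c004005e00082b0402)))) 
(.nd (nat_lit 7) (.lf (nat_lit 3959816216) (dlOf (nat_lit 1) (nat_lit 0xe8004000e0008160502))) 
(.lf (nat_lit 4228252056) (dlOf (nat_lit 1) (nat_lit 0x80018090781))))) (.nd (nat_lit 29) 
(.lf (nat_lit 3557228568) (dlOf (nat_lit 3) (nat_lit 0x3b40920206046004c00e000574180050118002b8040014004000e0018170082))) 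
(.lf (nat_lit 6241583128) (dlOf (nat_lit 3) (nat_lit 0x600d00350008006006801a7e04005400200060008120a02))))))) 
(.nd (nat_lit 7) (.nd (nat_lit 16) (.nd (nat_lit 10) (.nd (nat_lit 23) (.nd (nat_lit 8) 
(.lf (nat_lit 4496687192) (dlOf (nat_lit 2) (nat_lit 0xd80680040033003d0190000c8180058008000c00200020008120603))) 
(.lf (nat_lit 21365080) (dlOf (nat_lit 1) (nat_lit 0x3000200a80008a34d82)))) (.nd (nat_lit 9) 
(.lf (nat_lit 9830488) (dlOf (nat_lit 6) (nat_lit 0x27d21800d690400ab4760041a39000dcee0015676800f3078000530e006da430033d20800568fc00e73b4001f83c0002905005ad228027e9040008e08010748a002da4100023020001d1d800114080120008007800200280008580603))) 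
(.lf (nat_lit 42338904) (dlOf (nat_lit 2) (nat_lit 0x934910000c019245300))))) (.nd (nat_lit 8) 
(.nd (nat_lit 19) (.lf (nat_lit 38143064) (dlOf (nat_lit 1) (nat_lit 0x800200020009132902))) 
(.lf (nat_lit 34473048) (dlOf (nat_lit 1) (nat_lit 0x60028fb2901)))) 
(.lf (nat_lit 50726232) (dlOf (nat_lit 1) (nat_lit 0x200194c3381))))) (.nd (nat_lit 19) 
(.nd (nat_lit 8) (.nd (nat_lit 22) 
(.lf (nat_lit 3557228632) (dlOf (nat_lit 2) (nat_lit 0x1201c000074080298008001c002002e0008170803))) 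
(.lf (nat_lit 21430360) (dlOf (nat_lit 3) (nat_lit 0x320748001000801803a40007e04000400200020008a40602)))) 
(.lf (nat_lit 3490123096) (dlOf (nat_lit 1) (nat_lit 0xa0028006a81)))) (.nd (nat_lit 22) 
(.lf (nat_lit 470745176) (dlOf (nat_lit 2) (nat_lit 0x700870001a018170800))) 
(.lf (nat_lit 47120472) (dlOf (nat_lit 2) (nat_lit 0x9800000062040004002000800093a0702)))))) 
(.nd (nat_lit 19) (.nd (nat_lit 8) (.nd (nat_lit 26) (.nd (nat_lit 28) 
(.lf (nat_lit 1208352984) (dlOf (nat_lit 1) (nat_lit 0x40004001800180c1c02))) 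
(.lf (nat_lit 1476788440) (dlOf (nat_lit 2) (nat_lit 0x180000000aa040058002001200081a0502)))) 
(.lf (nat_lit 2080768216) (dlOf (nat_lit 1) (nat_lit 0xc004000200080c1902)))) (.nd (nat_lit 9) 
(.nd (nat_lit 27) (.lf (nat_lit 4362469848) (dlOf (nat_lit 1) (nat_lit 0x800200160008090b02))) 
(.lf (nat_lit 4228252120) (dlOf (nat_lit 1) (nat_lit 0x800200160008090b02)))) 
(.lf (nat_lit 38142936) (dlOf (nat_lit 1) (nat_lit 0x720009132881))))) (.nd (nat_lit 26) 
(.nd (nat_lit 8) (.nd (nat_lit 28) 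
(.lf (nat_lit 2031832) (dlOf (nat_lit 2) (nat_lit 0x32a68017d50a005ca2d0011b838150480))) 
(.lf (nat_lit 1344209112) (dlOf (nat_lit 2) (nat_lit 0x3007800250080018008000800200020008490483)))) 
(.lf (nat_lit 3490644440) (dlOf (nat_lit 1) (nat_lit 0x400200020008017102)))) (.nd (nat_lit 16) 
(.lf (nat_lit 6377308376) (dlOf (nat_lit 1) (nat_lit 0x4002000200080c1c02))) 
(.lf (nat_lit 471793880) (dlOf (nat_lit 2) (nat_lit 0x3022000250080018008000800200020008490483)))))))) 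
(.nd (nat_lit 28) (.nd (nat_lit 16) (.nd (nat_lit 26) (.nd (nat_lit 6) (.nd (nat_lit 29) 
(.nd (nat_lit 19) 
(.lf (nat_lit 6442844216) (dlOf (nat_lit 2) (nat_lit 0x2a02a0003009803c0000000000c01d4002002a00081d0b02))) 
(.lf (nat_lit 13500472) (dlOf (nat_lit 1) (nat_lit 0x15400200260008730b82)))) (.nd (nat_lit 30) 
(.lf (nat_lit 4832231480) (dlOf (nat_lit 1) (nat_lit 0x40008130b81))) 
(.lf (nat_lit 1611006008) (dlOf (nat_lit 3) (nat_lit 0xa60154053406e0009d04017e05500c101b80023810014000801bc002001200080b0483))))) 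
(.nd (nat_lit 7) 
(.lf (nat_lit 43386488) (dlOf (nat_lit 2) (nat_lit 0x203f480015808005000800ec002001000092a3983))) 
(.lf (nat_lit 38142968) (dlOf (nat_lit 1) (nat_lit 0x20019132881))))) (.nd (nat_lit 29) 
(.nd (nat_lit 7) 
(.lf (nat_lit 3288727608) (dlOf (nat_lit 3) (nat_lit 0x60040001e6020004020000e58180d0b80))) 
(.lf (nat_lit 4362469816) (dlOf (nat_lit 1) (nat_lit 0x98008001000200100008090803)))) 
(.nd (nat_lit 20) 
(.lf (nat_lit 738590776) (dlOf (nat_lit 3) (nat_lit 0xa60154053406e0009d04017e05500c101b80023810014000801bc002001200080b0483))) 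
(.lf (nat_lit 2752905272) (dlOf (nat_lit 1) (nat_lit 0x400400080018060702)))))) (.nd (nat_lit 6) 
(.nd (nat_lit 19) (.nd (nat_lit 20) 
(.lf (nat_lit 537329720) (dlOf (nat_lit 1) (nat_lit 0x60018090001))) 
(.lf (nat_lit 30867512) (dlOf (nat_lit 1) (nat_lit 0x400200020008e50c02)))) (.nd (nat_lit 7) 
(.nd (nat_lit 9) (.lf (nat_lit 26148920) (dlOf (nat_lit 1) (nat_lit 0x58008003000200600008c10003))) 
(.lf (nat_lit 2753495608) (dlOf (nat_lit 1) (nat_lit 0x80028091001)))) 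
(.lf (nat_lit 2752446904) (dlOf (nat_lit 1) (nat_lit 0x750008000400200d60008017783))))) 
(.nd (nat_lit 30) (.nd (nat_lit 7) 
(.lf (nat_lit 201785720) (dlOf (nat_lit 1) (nat_lit 0x40008090781))) (.nd (nat_lit 11) 
(.lf (nat_lit 2752446968) (dlOf (nat_lit 1) (nat_lit 0x8008000400200020008017e03))) 
(.lf (nat_lit 2751928824) (dlOf (nat_lit 1) (nat_lit 0x400080010002001e000800b283))))) 
(.nd (nat_lit 7) 
(.lf (nat_lit 3221684600) (dlOf (nat_lit 1) (nat_lit 0x8008000400200020008170783))) 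
(.nd (nat_lit 10) 
(.lf (nat_lit 1208421112) (dlOf (nat_lit 5) (nat_lit 0x60140000a008037002c0004a0400480520001502001a0290000a0180e5a00))) 
(.lf (nat_lit 3288794872) (dlOf (nat_lit 1) (nat_lit 0x200180f3b81)))))))) (.nd (nat_lit 20) 
(.nd (nat_lit 6) (.nd (nat_lit 29) (.nd (nat_lit 16) (.nd (nat_lit 30) 
(.lf (nat_lit 2617638968) (dlOf (nat_lit 1) (nat_lit 0x30008001400200200008110d83))) 
(.lf (nat_lit 5838864440) (dlOf (nat_lit 2) (nat_lit 0x2a02a0003009803c0000000000c01d4002002a00081d0b02)))) 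
(.lf (nat_lit 470745144) (dlOf (nat_lit 1) (nat_lit 0xd800800b400200260008170483)))) 
(.nd (nat_lit 7) (.nd (nat_lit 8) 
(.lf (nat_lit 4026925112) (dlOf (nat_lit 3) (nat_lit 0x60040001e6020004020000e58180d0b80))) 
(.lf (nat_lit 6376325432) (dlOf (nat_lit 8) (nat_lit 0x22048800f0242000160400161220000a81000e091000044080068488000200400242440000302001a12200001010008091000000080098008010000200500008090b83)))) 
(.lf (nat_lit 4228252088) (dlOf (nat_lit 1) (nat_lit 0x98008001000200100008090803))))) 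
(.nd (nat_lit 8) (.nd (nat_lit 19) 
(.lf (nat_lit 1476788344) (dlOf (nat_lit 3) (nat_lit 0xe007000c60100080038006240800780080070002002200081a0483))) 
(.lf (nat_lit 4094558328) (dlOf (nat_lit 1) (nat_lit 0x400400020018050202)))) (.nd (nat_lit 9) 
(.nd (nat_lit 27) (.lf (nat_lit 2483421560) (dlOf (nat_lit 1) (nat_lit 0x200281b0781))) 
(.lf (nat_lit 4228252024) (dlOf (nat_lit 1) (nat_lit 0x60018090781)))) 
(.lf (nat_lit 5771758456) (dlOf (nat_lit 1) (nat_lit 0x40018005c01)))))) (.nd (nat_lit 8) 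
(.nd (nat_lit 16) (.nd (nat_lit 26) (.nd (nat_lit 31) 
(.lf (nat_lit 1343619128) (dlOf (nat_lit 1) (nat_lit 0x4002000200082c0902))) 
(.lf (nat_lit 3491102776) (dlOf (nat_lit 1) (nat_lit 0x400400080018060702)))) 
(.lf (nat_lit 471203896) (dlOf (nat_lit 1) (nat_lit 0x1f4004004200082c0902)))) (.nd (nat_lit 7) 
(.nd (nat_lit 19) (.lf (nat_lit 471269432) (dlOf (nat_lit 1) (nat_lit 0x600282e0001))) 
(.lf (nat_lit 5773393976) (dlOf (nat_lit 2) (nat_lit 0x900720006402000600080d0b81)))) 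
(.lf (nat_lit 4095148216) (dlOf (nat_lit 1) (nat_lit 0x80018063001))))) (.nd (nat_lit 6) 
(.nd (nat_lit 10) (.nd (nat_lit 26) 
(.lf (nat_lit 1344209208) (dlOf (nat_lit 1) (nat_lit 0x2400200040008490582))) 
(.lf (nat_lit 471793976) (dlOf (nat_lit 1) (nat_lit 0x2400200040008490582)))) 
(.lf (nat_lit 471733560) (dlOf (nat_lit 2) (nat_lit 0xc09400a3d02001a00083d9901)))) 
(.nd (nat_lit 16) (.lf (nat_lit 4095608184) (dlOf (nat_lit 1) (nat_lit 0x10004000800180e3502))) 
(.lf (nat_lit 4095673720) (dlOf (nat_lit 1) (nat_lit 0x80080008002000200080e3503))))))))) 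
(.nd (nat_lit 5) (.nd (nat_lit 6) (.nd (nat_lit 16) (.nd (nat_lit 9) (.nd (nat_lit 7) 
(.nd (nat_lit 10) (.nd (nat_lit 12) 
(.lf (nat_lit 61210648) (dlOf (nat_lit 1) (nat_lit 0x30008001c002000600098e0083))) 
(.lf (nat_lit 19795992) (dlOf (nat_lit 1) (nat_lit 0x800189d7a81)))) 
(.lf (nat_lit 19797016) (dlOf (nat_lit 1) (nat_lit 0x200289d9201)))) (.nd (nat_lit 8) 
(.lf (nat_lit 11927704) (dlOf (nat_lit 1) (nat_lit 0x400086c0181))) (.nd (nat_lit 11) 
(.lf (nat_lit 19796376) (dlOf (nat_lit 1) (nat_lit 0x80080028002000a00089d8383))) 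
(.lf (nat_lit 2754480536) (dlOf (nat_lit 1) (nat_lit 0x200080f4e81)))))) (.nd (nat_lit 8) 
(.nd (nat_lit 7) (.nd (nat_lit 11) 
(.lf (nat_lit 3539480) (dlOf (nat_lit 1) (nat_lit 0x1400400020018200d82))) 
(.lf (nat_lit 1345194520) (dlOf (nat_lit 1) (nat_lit 0x20028b05081)))) 
(.lf (nat_lit 19796632) (dlOf (nat_lit 1) (nat_lit 0x80080004002000200089d8c83)))) 
(.nd (nat_lit 11) (.lf (nat_lit 19797784) (dlOf (nat_lit 1) (nat_lit 0x200089da001))) 
(.lf (nat_lit 8261400) (dlOf (nat_lit 1) (nat_lit 0xc0028517481)))))) (.nd (nat_lit 20) 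
(.nd (nat_lit 22) (.nd (nat_lit 7) (.nd (nat_lit 10) 
(.lf (nat_lit 53411864) (dlOf (nat_lit 1) (nat_lit 0xe00295c0401))) 
(.lf (nat_lit 3492742168) (dlOf (nat_lit 1) (nat_lit 0x4002000200080f2882)))) (.nd (nat_lit 9) 
(.lf (nat_lit 2754551192) (dlOf (nat_lit 1) (nat_lit 0x8004000c00080fca02))) 
(.lf (nat_lit 2754550680) (dlOf (nat_lit 1) (nat_lit 0x28004003000180fbc82))))) (.nd (nat_lit 24) 
(.nd (nat_lit 23) (.lf (nat_lit 7274520) (dlOf (nat_lit 1) (nat_lit 0xc00084b0001))) 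
(.lf (nat_lit 15663128) (dlOf (nat_lit 1) (nat_lit 0x20028810481)))) (.nd (nat_lit 8) 
(.lf (nat_lit 24052248) (dlOf (nat_lit 1) (nat_lit 0x60008b80d81))) 
(.lf (nat_lit 24051992) (dlOf (nat_lit 1) (nat_lit 0x400400020008b80482)))))) (.nd (nat_lit 10) 
(.nd (nat_lit 19) (.lf (nat_lit 24576024) (dlOf (nat_lit 1) (nat_lit 0x40028ba0a01))) 
(.nd (nat_lit 22) 
(.lf (nat_lit 473890840) (dlOf (nat_lit 5) (nat_lit 0x85a400742cc001ff040010166000fe0100220b300079c080068598003cc04014000400120008fc0082))) 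
(.lf (nat_lit 16711704) (dlOf (nat_lit 3) (nat_lit 0x5670a000198100233850000c008003800800a8002001e00088d0403))))) 
(.nd (nat_lit 8) (.lf (nat_lit 54463512) (dlOf (nat_lit 1) (nat_lit 0x400200020009656002))) 
(.nd (nat_lit 12) (.lf (nat_lit 8324376) (dlOf (nat_lit 1) (nat_lit 0x20028513081))) 
(.lf (nat_lit 8328472) (dlOf (nat_lit 1) (nat_lit 0x1380080008002001a0008519703)))))))) 
(.nd (nat_lit 16) (.nd (nat_lit 19) (.nd (nat_lit 10) (.nd (nat_lit 7) (.nd (nat_lit 20) 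
(.lf (nat_lit 2753953880) (dlOf (nat_lit 1) (nat_lit 0x14004000200180a1102))) 
(.lf (nat_lit 37093464) (dlOf (nat_lit 1) (nat_lit 0x8c002000e0009090802)))) 
(.lf (nat_lit 1009124312) (dlOf (nat_lit 1) (nat_lit 0x18400400260009082882)))) (.nd (nat_lit 20) 
(.nd (nat_lit 26) (.lf (nat_lit 5773853784) (dlOf (nat_lit 1) (nat_lit 0x4004000200080e2902))) 
(.lf (nat_lit 6377833560) (dlOf (nat_lit 1) (nat_lit 0x4004000200080e2902)))) 
(.lf (nat_lit 473302104) (dlOf (nat_lit 1) (nat_lit 0x4004000a0018e92902))))) (.nd (nat_lit 12) 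
(.nd (nat_lit 7) (.nd (nat_lit 24) 
(.lf (nat_lit 4096655448) (dlOf (nat_lit 1) (nat_lit 0xe0018151781))) 
(.lf (nat_lit 19791960) (dlOf (nat_lit 1) (nat_lit 0x80080004002000200089d0003)))) 
(.lf (nat_lit 20840664) (dlOf (nat_lit 1) (nat_lit 0x200289e3f01)))) (.nd (nat_lit 7) 
(.nd (nat_lit 8) (.lf (nat_lit 19796568) (dlOf (nat_lit 1) (nat_lit 0x10008000c002000600089d8983))) 
(.lf (nat_lit 19799384) (dlOf (nat_lit 1) (nat_lit 0x2c00189dc901)))) 
(.lf (nat_lit 19798744) (dlOf (nat_lit 1) (nat_lit 0x700080004002000800089db983)))))) 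
(.nd (nat_lit 7) (.nd (nat_lit 8) (.nd (nat_lit 9) 
(.lf (nat_lit 473890904) (dlOf (nat_lit 2) (nat_lit 0xe80000004a04003c004000a0008fc0802))) 
(.nd (nat_lit 10) 
(.lf (nat_lit 62851672) (dlOf (nat_lit 2) (nat_lit 0x293a08000000800e80080034002001000099a5303))) 
(.lf (nat_lit 2754547288) (dlOf (nat_lit 1) (nat_lit 0x4002000200080f7182))))) (.nd (nat_lit 10) 
(.nd (nat_lit 19) (.lf (nat_lit 11993432) (dlOf (nat_lit 1) (nat_lit 0x200286c0681))) 
(.lf (nat_lit 3080536) (dlOf (nat_lit 1) (nat_lit 0x400400020008200682)))) 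
(.lf (nat_lit 50267480) (dlOf (nat_lit 2) (nat_lit 0x461d100230e86000110400b600194c3381))))) 
(.nd (nat_lit 10) (.nd (nat_lit 9) (.nd (nat_lit 19) 
(.lf (nat_lit 3604696) (dlOf (nat_lit 2) (nat_lit 0xc4980011b818200480))) 
(.lf (nat_lit 4128984) (dlOf (nat_lit 3) (nat_lit 0x4a780000c01000153c00004c080010008000800200100008290583)))) 
(.lf (nat_lit 8327896) (dlOf (nat_lit 1) (nat_lit 0x8008000400200040008518c83)))) (.nd (nat_lit 8) 
(.lf (nat_lit 19864792) (dlOf (nat_lit 1) (nat_lit 0x80080004002000200089dc403))) 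
(.lf (nat_lit 2754547160) (dlOf (nat_lit 1) (nat_lit 0xa00180f6d81)))))))) (.nd (nat_lit 7) 
(.nd (nat_lit 9) (.nd (nat_lit 19) (.nd (nat_lit 22) (.nd (nat_lit 8) (.nd (nat_lit 26) 
(.lf (nat_lit 1881538616) (dlOf (nat_lit 3) (nat_lit 0x158388005c1c00000304005a0e200000018f40500))) 
(.lf (nat_lit 2753953848) (dlOf (nat_lit 2) (nat_lit 0x40448000b00800580080018002001000080a0a83)))) 
(.lf (nat_lit 19267896) (dlOf (nat_lit 1) (nat_lit 0x20008970701)))) (.nd (nat_lit 20) 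
(.lf (nat_lit 6684728) (dlOf (nat_lit 1) (nat_lit 0x40028440c01))) (.nd (nat_lit 24) 
(.lf (nat_lit 7733304) (dlOf (nat_lit 1) (nat_lit 0x400284d0c01))) 
(.lf (nat_lit 24510520) (dlOf (nat_lit 2) (nat_lit 0x15800000000200060008ba0b01)))))) 
(.nd (nat_lit 28) (.nd (nat_lit 6) (.nd (nat_lit 20) 
(.lf (nat_lit 19791928) (dlOf (nat_lit 1) (nat_lit 0xe8002001600089d0002))) 
(.lf (nat_lit 16646200) (dlOf (nat_lit 1) (nat_lit 0x480080008002000a00088c0903)))) 
(.lf (nat_lit 2755526776) (dlOf (nat_lit 1) (nat_lit 0x200181b0081)))) (.nd (nat_lit 6) 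
(.nd (nat_lit 10) (.lf (nat_lit 3493724216) (dlOf (nat_lit 1) (nat_lit 0x400181b0001))) 
(.lf (nat_lit 472777784) (dlOf (nat_lit 2) (nat_lit 0x490b280525c080008008002c00200060008b02883)))) 
(.lf (nat_lit 3493724280) (dlOf (nat_lit 1) (nat_lit 0x200181b0081)))))) (.nd (nat_lit 10) 
(.nd (nat_lit 8) (.nd (nat_lit 11) (.nd (nat_lit 12) 
(.lf (nat_lit 24052280) (dlOf (nat_lit 1) (nat_lit 0x2400400080008b81002))) 
(.lf (nat_lit 19796536) (dlOf (nat_lit 1) (nat_lit 0x100080010002000600089d8983)))) 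
(.lf (nat_lit 36571704) (dlOf (nat_lit 1) (nat_lit 0x5000200180009075202)))) (.nd (nat_lit 6) 
(.lf (nat_lit 19794744) (dlOf (nat_lit 1) (nat_lit 0x200089d5c01))) 
(.lf (nat_lit 20384632) (dlOf (nat_lit 1) (nat_lit 0x4002000200089d5c02))))) (.nd (nat_lit 6) 
(.nd (nat_lit 8) (.lf (nat_lit 8324664) (dlOf (nat_lit 1) (nat_lit 0x80028513781))) 
(.lf (nat_lit 3492742968) (dlOf (nat_lit 1) (nat_lit 0x2400180f3e01)))) (.nd (nat_lit 12) 
(.lf (nat_lit 61736568) (dlOf (nat_lit 4) (nat_lit 0x16a5b0002b01002152d8001540802e296c00914b2000130401ba0029923981))) 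
(.lf (nat_lit 19797624) (dlOf (nat_lit 1) (nat_lit 0x600089d9d01))))))) (.nd (nat_lit 24) 
(.nd (nat_lit 10) (.nd (nat_lit 11) (.nd (nat_lit 6) 
(.lf (nat_lit 3080376) (dlOf (nat_lit 1) (nat_lit 0x260028200381))) 
(.lf (nat_lit 1881538808) (dlOf (nat_lit 1) (nat_lit 0x9c004003c0008f42482)))) (.nd (nat_lit 8) 
(.lf (nat_lit 6377900792) (dlOf (nat_lit 2) (nat_lit 0xe132000128180e5a00))) 
(.lf (nat_lit 3492747768) (dlOf (nat_lit 1) (nat_lit 0x4004000200080fb282))))) (.nd (nat_lit 8) 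
(.nd (nat_lit 11) (.lf (nat_lit 41878712) (dlOf (nat_lit 1) (nat_lit 0x20400200120009242c82))) 
(.nd (nat_lit 12) 
(.lf (nat_lit 2754481336) (dlOf (nat_lit 4) (nat_lit 0xa00cc0001902003e0660000b0100170200000500800080080018002000600080f6283))) 
(.lf (nat_lit 2754550968) (dlOf (nat_lit 1) (nat_lit 0x4004000200080fc202))))) (.nd (nat_lit 16) 
(.lf (nat_lit 8259000) (dlOf (nat_lit 2) (nat_lit 0x39f400047018513600))) 
(.lf (nat_lit 8324536) (dlOf (nat_lit 1) (nat_lit 0x20018513601)))))) (.nd (nat_lit 6) 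
(.nd (nat_lit 8) (.nd (nat_lit 12) 
(.lf (nat_lit 19792568) (dlOf (nat_lit 1) (nat_lit 0x28008000c002000400089d1e03))) 
(.lf (nat_lit 19796664) (dlOf (nat_lit 1) (nat_lit 0x200289d8c81)))) (.nd (nat_lit 12) 
(.lf (nat_lit 58130872) (dlOf (nat_lit 1) (nat_lit 0x4004004200097c6e82))) (.nd (nat_lit 16) 
(.lf (nat_lit 19796408) (dlOf (nat_lit 1) (nat_lit 0x80080018002000600089d8583))) 
(.lf (nat_lit 19861944) (dlOf (nat_lit 1) (nat_lit 0x1a00289d8581)))))) (.nd (nat_lit 8) 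
(.nd (nat_lit 9) (.nd (nat_lit 16) 
(.lf (nat_lit 19792120) (dlOf (nat_lit 1) (nat_lit 0x4002000200089d0a82))) 
(.lf (nat_lit 24051960) (dlOf (nat_lit 1) (nat_lit 0xc00200280008b80482)))) 
(.lf (nat_lit 19861240) (dlOf (nat_lit 1) (nat_lit 0x258008014400200a600089d7483)))) 
(.nd (nat_lit 10) 
(.lf (nat_lit 24052216) (dlOf (nat_lit 2) (nat_lit 0x8b0ba000060200020008b80d81))) 
(.lf (nat_lit 19795448) (dlOf (nat_lit 1) (nat_lit 0x4004000200089d6f82))))))))))))

end

end Pool.Agent.Lib.MP_5854e1_co.Cz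

namespace Pool.Agent.Lib.MP_5854e1_co.Cz

noncomputable section

noncomputable def tz19 : DT := (.nd (nat_lit 16) (.nd (nat_lit 17) (.nd (nat_lit 5) 
(.nd (nat_lit 6) (.nd (nat_lit 19) (.nd (nat_lit 26) (.nd (nat_lit 20) (.nd (nat_lit 8) 
(.nd (nat_lit 10) (.nd (nat_lit 21) 
(.lf (nat_lit 29368344) (dlOf (nat_lit 1) (nat_lit 0xc400400020018e00482))) 
(.lf (nat_lit 10493976) (dlOf (nat_lit 1) (nat_lit 0xc004000400085e0a82)))) (.nd (nat_lit 9) 
(.lf (nat_lit 6710897688) (dlOf (nat_lit 1) (nat_lit 0x20028006001))) 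
(.lf (nat_lit 5234763288) (dlOf (nat_lit 1) (nat_lit 0x4004000200080d3702))))) (.nd (nat_lit 7) 
(.nd (nat_lit 9) (.lf (nat_lit 2415929624) (dlOf (nat_lit 1) (nat_lit 0x500028004b81))) 
(.lf (nat_lit 2952802072) (dlOf (nat_lit 2) (nat_lit 0x4401c004c7018007480)))) (.nd (nat_lit 11) 
(.lf (nat_lit 2105752) (dlOf (nat_lit 1) (nat_lit 0x20028150781))) 
(.lf (nat_lit 3489933720) (dlOf (nat_lit 1) (nat_lit 0x20008004e81)))))) (.nd (nat_lit 9) 
(.nd (nat_lit 18) (.lf (nat_lit 26222616) (dlOf (nat_lit 1) (nat_lit 0x8008000400200020008c20503))) 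
(.nd (nat_lit 22) 
(.lf (nat_lit 26484760) (dlOf (nat_lit 2) (nat_lit 0x13a74201472fc00ce97c0007f0180040008000400200140008c50083))) 
(.lf (nat_lit 30679064) (dlOf (nat_lit 1) (nat_lit 0x20028e40901))))) (.nd (nat_lit 24) 
(.nd (nat_lit 11) (.lf (nat_lit 40903192) (dlOf (nat_lit 1) (nat_lit 0x20019208701))) 
(.lf (nat_lit 3493083672) (dlOf (nat_lit 1) (nat_lit 0xb400403ac00080fb282)))) (.nd (nat_lit 7) 
(.lf (nat_lit 19936792) (dlOf (nat_lit 1) (nat_lit 0x24002000600089d9c02))) 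
(.lf (nat_lit 19935896) (dlOf (nat_lit 1) (nat_lit 0x80080004002000200089d8c83))))))) 
(.nd (nat_lit 7) (.nd (nat_lit 10) (.nd (nat_lit 28) (.nd (nat_lit 8) 
(.lf (nat_lit 2349080600) (dlOf (nat_lit 2) (nat_lit 0x24050015c602000a00080a0901))) 
(.lf (nat_lit 2885953816) (dlOf (nat_lit 1) (nat_lit 0x80028144b81)))) (.nd (nat_lit 27) 
(.lf (nat_lit 2483298328) (dlOf (nat_lit 2) (nat_lit 0x240500175402000a00080a0901))) 
(.lf (nat_lit 1543774232) (dlOf (nat_lit 2) (nat_lit 0x3e02200334818160480))))) (.nd (nat_lit 11) 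
(.nd (nat_lit 8) (.lf (nat_lit 6375351320) (dlOf (nat_lit 1) (nat_lit 0x20028002881))) 
(.lf (nat_lit 3557046040) (dlOf (nat_lit 1) (nat_lit 0xe8008008c00200ee000812a003)))) 
(.nd (nat_lit 18) (.lf (nat_lit 5033176088) (dlOf (nat_lit 1) (nat_lit 0x400400020008006002))) 
(.lf (nat_lit 4496567320) (dlOf (nat_lit 1) (nat_lit 0x1200280e6001)))))) (.nd (nat_lit 8) 
(.nd (nat_lit 9) (.nd (nat_lit 11) 
(.lf (nat_lit 3422565528) (dlOf (nat_lit 1) (nat_lit 0xa80018009501))) 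
(.lf (nat_lit 2754620568) (dlOf (nat_lit 1) (nat_lit 0x1800280f6201)))) 
(.lf (nat_lit 3691002520) (dlOf (nat_lit 1) (nat_lit 0x2c002000c000800b682)))) (.nd (nat_lit 10) 
(.nd (nat_lit 11) 
(.lf (nat_lit 474227096) (dlOf (nat_lit 1) (nat_lit 0x80080018002000200090e1003))) 
(.lf (nat_lit 2754619800) (dlOf (nat_lit 1) (nat_lit 0x4002000200080f4e82)))) (.nd (nat_lit 12) 
(.lf (nat_lit 2483039640) (dlOf (nat_lit 2) (nat_lit 0x20000000dc0200020018006d01))) 
(.lf (nat_lit 2885696920) (dlOf (nat_lit 2) (nat_lit 0x8029000400e00058010000b40c000c0040002000800ca02)))))))) 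
(.nd (nat_lit 30) (.nd (nat_lit 18) (.nd (nat_lit 24) (.nd (nat_lit 26) (.nd (nat_lit 29) 
(.lf (nat_lit 134750232) (dlOf (nat_lit 1) (nat_lit 0x24002001000080a0902))) 
(.lf (nat_lit 2819104792) (dlOf (nat_lit 2) (nat_lit 0x9c03f0009e8181a0480)))) (.nd (nat_lit 27) 
(.nd (nat_lit 21) (.lf (nat_lit 4362608664) (dlOf (nat_lit 1) (nat_lit 0x200280a0901))) 
(.lf (nat_lit 2754093080) (dlOf (nat_lit 1) (nat_lit 0x400180c0a81)))) (.nd (nat_lit 22) 
(.lf (nat_lit 201859096) (dlOf (nat_lit 1) (nat_lit 0x24002001000080a0902))) 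
(.lf (nat_lit 474488856) (dlOf (nat_lit 1) (nat_lit 0x8008000400200020009180083)))))) 
(.nd (nat_lit 10) (.nd (nat_lit 9) 
(.lf (nat_lit 55058456) (dlOf (nat_lit 1) (nat_lit 0x400196a0481))) 
(.lf (nat_lit 50864664) (dlOf (nat_lit 1) (nat_lit 0x600194d8701)))) (.nd (nat_lit 11) 
(.lf (nat_lit 56108056) (dlOf (nat_lit 1) (nat_lit 0x20019732881))) 
(.lf (nat_lit 20458520) (dlOf (nat_lit 1) (nat_lit 0x400289d6001)))))) (.nd (nat_lit 7) 
(.nd (nat_lit 8) (.nd (nat_lit 9) 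
(.lf (nat_lit 24911896) (dlOf (nat_lit 1) (nat_lit 0x40028bc0901))) 
(.lf (nat_lit 50080280) (dlOf (nat_lit 4) (nat_lit 0x202a28000980804b15140001a04000ca8a0000c02000200294c5081)))) 
(.lf (nat_lit 51126552) (dlOf (nat_lit 1) (nat_lit 0x400200020009507502)))) (.nd (nat_lit 26) 
(.nd (nat_lit 10) (.lf (nat_lit 1843352) (dlOf (nat_lit 1) (nat_lit 0x800400080018150182))) 
(.lf (nat_lit 41690264) (dlOf (nat_lit 1) (nat_lit 0xc0009242b81)))) (.nd (nat_lit 8) 
(.lf (nat_lit 2753306776) (dlOf (nat_lit 1) (nat_lit 0x380080014002000a0008090183))) 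
(.lf (nat_lit 67910040) (dlOf (nat_lit 1) (nat_lit 0x2001833af81))))))) (.nd (nat_lit 29) 
(.nd (nat_lit 31) (.nd (nat_lit 7) 
(.lf (nat_lit 1343758360) (dlOf (nat_lit 2) (nat_lit 0x220600018018360400))) 
(.lf (nat_lit 1342710168) (dlOf (nat_lit 2) (nat_lit 0x2182a80070502000800280c0781)))) 
(.nd (nat_lit 21) (.nd (nat_lit 26) 
(.lf (nat_lit 3624411160) (dlOf (nat_lit 3) (nat_lit 0x13009800d14040010054007801d00040020015e0180858008015400200060008190483))) 
(.lf (nat_lit 3288866840) (dlOf (nat_lit 1) (nat_lit 0x200080014002000a00081d0a03)))) 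
(.lf (nat_lit 3492290584) (dlOf (nat_lit 1) (nat_lit 0x400180c0a81))))) (.nd (nat_lit 26) 
(.nd (nat_lit 7) (.nd (nat_lit 21) 
(.lf (nat_lit 4027064344) (dlOf (nat_lit 1) (nat_lit 0x200080014002000a00081d0a03))) 
(.lf (nat_lit 1881677848) (dlOf (nat_lit 1) (nat_lit 0x400400020008fd0182)))) 
(.lf (nat_lit 3892846744) (dlOf (nat_lit 1) (nat_lit 0x30008002400200080008280483)))) 
(.nd (nat_lit 28) (.lf (nat_lit 3959955480) (dlOf (nat_lit 1) (nat_lit 0x400200120008170002))) 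
(.lf (nat_lit 4228390936) (dlOf (nat_lit 1) (nat_lit 0x200280a0901)))))))) (.nd (nat_lit 7) 
(.nd (nat_lit 10) (.nd (nat_lit 26) (.nd (nat_lit 11) (.nd (nat_lit 18) (.nd (nat_lit 22) 
(.lf (nat_lit 134750296) (dlOf (nat_lit 1) (nat_lit 0x88008009c002002a00080a1103))) 
(.lf (nat_lit 21504088) (dlOf (nat_lit 3) (nat_lit 0x26e230024ee6800871c80004c060021b9a0009c7200012c100240008008c00200020008a40603)))) 
(.lf (nat_lit 402923608) (dlOf (nat_lit 1) (nat_lit 0x2200280b0701)))) (.nd (nat_lit 8) 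
(.nd (nat_lit 9) 
(.lf (nat_lit 3623893080) (dlOf (nat_lit 2) (nat_lit 0x300c0001c05e001002e0006016800100a000140280012012000800280030008001800000216140012001800a781))) 
(.lf (nat_lit 41953880) (dlOf (nat_lit 1) (nat_lit 0x40019245301)))) 
(.lf (nat_lit 671103832) (dlOf (nat_lit 1) (nat_lit 0x2002800bc81))))) (.nd (nat_lit 18) 
(.nd (nat_lit 19) (.lf (nat_lit 2214600792) (dlOf (nat_lit 1) (nat_lit 0x180018000001))) 
(.nd (nat_lit 27) (.lf (nat_lit 1946689624) (dlOf (nat_lit 1) (nat_lit 0x600181b0001))) 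
(.lf (nat_lit 201859160) (dlOf (nat_lit 1) (nat_lit 0x88008009c002002a00080a1103))))) 
(.nd (nat_lit 19) (.nd (nat_lit 27) (.nd (nat_lit 31) 
(.lf (nat_lit 335814744) (dlOf (nat_lit 1) (nat_lit 0x2200280b0701))) 
(.lf (nat_lit 2483298392) (dlOf (nat_lit 4) (nat_lit 0x238050000210201320280001001009a01400007c0802100080028002004000080a1103)))) 
(.lf (nat_lit 2349080664) (dlOf (nat_lit 4) (nat_lit 0x2380500000b0201320280000501009a0140000240802100080028002004000080a1103)))) 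
(.lf (nat_lit 4096532568) (dlOf (nat_lit 2) (nat_lit 0x8d010400066040020004000c0008120602)))))) 
(.nd (nat_lit 8) (.nd (nat_lit 9) (.nd (nat_lit 18) (.nd (nat_lit 19) 
(.lf (nat_lit 37758040) (dlOf (nat_lit 1) (nat_lit 0x80080008002000200090d2903))) 
(.lf (nat_lit 44573784) (dlOf (nat_lit 1) (nat_lit 0x400200040009322902)))) (.nd (nat_lit 20) 
(.lf (nat_lit 4093912152) (dlOf (nat_lit 1) (nat_lit 0x20028002901))) 
(.lf (nat_lit 1345594456) (dlOf (nat_lit 1) (nat_lit 0x400400140008d72902))))) (.nd (nat_lit 20) 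
(.nd (nat_lit 26) (.lf (nat_lit 1342189144) (dlOf (nat_lit 1) (nat_lit 0x48002000e0008007182))) 
(.lf (nat_lit 4227870296) (dlOf (nat_lit 1) (nat_lit 0x100080058002001a0008007183)))) 
(.lf (nat_lit 2754621016) (dlOf (nat_lit 2) (nat_lit 0xa807400000040018004000800180f7182))))) 
(.nd (nat_lit 11) (.nd (nat_lit 29) (.nd (nat_lit 12) 
(.lf (nat_lit 2415929176) (dlOf (nat_lit 1) (nat_lit 0x400400020008003f82))) 
(.lf (nat_lit 1342191448) (dlOf (nat_lit 1) (nat_lit 0x40040002001800a282)))) (.nd (nat_lit 26) 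
(.lf (nat_lit 4026541912) (dlOf (nat_lit 1) (nat_lit 0x20008003f81))) 
(.lf (nat_lit 1006643032) (dlOf (nat_lit 1) (nat_lit 0x20008003f81))))) (.nd (nat_lit 9) 
(.nd (nat_lit 26) 
(.lf (nat_lit 134233432) (dlOf (nat_lit 1) (nat_lit 0x4000800040020004000800c903))) 
(.lf (nat_lit 4227874136) (dlOf (nat_lit 1) (nat_lit 0x80040002001800c902)))) 
(.lf (nat_lit 2952802136) (dlOf (nat_lit 1) (nat_lit 0xc800200200008007782))))))) (.nd (nat_lit 27) 
(.nd (nat_lit 8) (.nd (nat_lit 26) (.nd (nat_lit 11) (.nd (nat_lit 31) 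
(.lf (nat_lit 1346379992) (dlOf (nat_lit 5) (nat_lit 0x12208000168100161040000b0080080820000560400244100002902001a0018f60981))) 
(.lf (nat_lit 3493863640) (dlOf (nat_lit 2) (nat_lit 0x1e81a6005a0b80004a0281b0480)))) 
(.nd (nat_lit 10) 
(.lf (nat_lit 2415929560) (dlOf (nat_lit 1) (nat_lit 0x8008000400200020008004a83))) 
(.lf (nat_lit 1342192856) (dlOf (nat_lit 1) (nat_lit 0x80040002000800c402))))) (.nd (nat_lit 18) 
(.nd (nat_lit 12) 
(.lf (nat_lit 2755666136) (dlOf (nat_lit 2) (nat_lit 0xb41d000f40c50004a0281b0480))) 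
(.lf (nat_lit 603992280) (dlOf (nat_lit 1) (nat_lit 0x400200020008008082)))) (.nd (nat_lit 19) 
(.lf (nat_lit 5436088536) (dlOf (nat_lit 2) (nat_lit 0x100b800074040010002000200080c1c02))) 
(.lf (nat_lit 4095484120) (dlOf (nat_lit 1) (nat_lit 0x200280c5d81)))))) (.nd (nat_lit 9) 
(.nd (nat_lit 19) (.lf (nat_lit 40903128) (dlOf (nat_lit 1) (nat_lit 0xe400400020009207b02))) 
(.lf (nat_lit 50864600) (dlOf (nat_lit 6) (nat_lit 0x2000000010b020017bbb0011ddc80040410000eeec00077720010004000fbbb0007e810003ddc800000080030008013c002001e00094d7b03)))) 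
(.nd (nat_lit 32) (.nd (nat_lit 12) 
(.lf (nat_lit 20458456) (dlOf (nat_lit 1) (nat_lit 0x400289d5e01))) 
(.lf (nat_lit 603995096) (dlOf (nat_lit 2) (nat_lit 0x9802c004ab020002002800bf01)))) 
(.nd (nat_lit 28) (.lf (nat_lit 5368720344) (dlOf (nat_lit 1) (nat_lit 0x400400020008005e02))) 
(.lf (nat_lit 6710897624) (dlOf (nat_lit 1) (nat_lit 0x20028005e01))))))) (.nd (nat_lit 8) 
(.nd (nat_lit 18) (.nd (nat_lit 12) (.nd (nat_lit 26) 
(.lf (nat_lit 4429195480) (dlOf (nat_lit 1) (nat_lit 0x400400020008004a82))) 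
(.lf (nat_lit 1006643416) (dlOf (nat_lit 1) (nat_lit 0x20008004a81)))) (.nd (nat_lit 10) 
(.lf (nat_lit 469774552) (dlOf (nat_lit 1) (nat_lit 0x800200020008008082))) 
(.lf (nat_lit 4227874008) (dlOf (nat_lit 1) (nat_lit 0x2000800040020002000800c403))))) 
(.nd (nat_lit 28) (.nd (nat_lit 30) 
(.lf (nat_lit 2885953752) (dlOf (nat_lit 1) (nat_lit 0x400400020008144a82))) 
(.lf (nat_lit 3959695576) (dlOf (nat_lit 1) (nat_lit 0x10008003800200040008114a83)))) 
(.nd (nat_lit 11) 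
(.lf (nat_lit 5301870808) (dlOf (nat_lit 1) (nat_lit 0x1180080080002002600080c1903))) 
(.lf (nat_lit 4228655320) (dlOf (nat_lit 1) (nat_lit 0x3400400140018114a82)))))) (.nd (nat_lit 30) 
(.nd (nat_lit 18) (.nd (nat_lit 28) 
(.lf (nat_lit 5033176024) (dlOf (nat_lit 1) (nat_lit 0x400400020008005e02))) 
(.lf (nat_lit 4764740568) (dlOf (nat_lit 1) (nat_lit 0x20028005e01)))) 
(.lf (nat_lit 4496567256) (dlOf (nat_lit 1) (nat_lit 0x200280e5e01)))) (.nd (nat_lit 10) 
(.nd (nat_lit 18) (.lf (nat_lit 2080386008) (dlOf (nat_lit 1) (nat_lit 0x40028005e01))) 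
(.lf (nat_lit 5771635672) (dlOf (nat_lit 1) (nat_lit 0x80018005e01)))) 
(.lf (nat_lit 1543518168) (dlOf (nat_lit 1) (nat_lit 0x1b4000800a601))))))))) (.nd (nat_lit 9) 
(.nd (nat_lit 19) (.nd (nat_lit 18) (.nd (nat_lit 11) (.nd (nat_lit 7) (.nd (nat_lit 10) 
(.nd (nat_lit 21) (.lf (nat_lit 2684362808) (dlOf (nat_lit 1) (nat_lit 0x20028000001))) 
(.lf (nat_lit 23076920) (dlOf (nat_lit 1) (nat_lit 0xa0028b50d81)))) (.nd (nat_lit 6) 
(.lf (nat_lit 5435827256) (dlOf (nat_lit 1) (nat_lit 0x160018002881))) 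
(.lf (nat_lit 6375351672) (dlOf (nat_lit 1) (nat_lit 0x400400020018003502))))) (.nd (nat_lit 6) 
(.nd (nat_lit 8) (.nd (nat_lit 20) 
(.lf (nat_lit 2105528) (dlOf (nat_lit 1) (nat_lit 0x9c0008150381))) 
(.lf (nat_lit 30417080) (dlOf (nat_lit 1) (nat_lit 0x400400020008e30482)))) 
(.lf (nat_lit 4966065592) (dlOf (nat_lit 1) (nat_lit 0x400400020008003602)))) (.nd (nat_lit 8) 
(.lf (nat_lit 19931384) (dlOf (nat_lit 1) (nat_lit 0x4002000200089d0a82))) 
(.lf (nat_lit 2281710072) (dlOf (nat_lit 1) (nat_lit 0x80018001481)))))) (.nd (nat_lit 6) 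
(.nd (nat_lit 10) (.nd (nat_lit 27) 
(.lf (nat_lit 4362090808) (dlOf (nat_lit 1) (nat_lit 0x2c002003a000800ab82))) 
(.lf (nat_lit 469776696) (dlOf (nat_lit 1) (nat_lit 0xc002000c000800ab82)))) (.nd (nat_lit 7) 
(.nd (nat_lit 8) (.lf (nat_lit 2550148152) (dlOf (nat_lit 1) (nat_lit 0x80028006081))) 
(.lf (nat_lit 469777720) (dlOf (nat_lit 2) (nat_lit 0xc04e8003d40800400080094002000e000800c803)))) 
(.lf (nat_lit 1409297848) (dlOf (nat_lit 1) (nat_lit 0x400400020008006d02))))) (.nd (nat_lit 28) 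
(.nd (nat_lit 12) 
(.lf (nat_lit 2754619768) (dlOf (nat_lit 1) (nat_lit 0x200080004002000800080f4e83))) 
(.lf (nat_lit 4362090872) (dlOf (nat_lit 1) (nat_lit 0x40020004000800ae02)))) (.nd (nat_lit 10) 
(.lf (nat_lit 469776760) (dlOf (nat_lit 1) (nat_lit 0x100020006000800ae02))) 
(.lf (nat_lit 3489676664) (dlOf (nat_lit 1) (nat_lit 0x800800040020002000800c903))))))) 
(.nd (nat_lit 28) (.nd (nat_lit 6) (.nd (nat_lit 23) (.nd (nat_lit 26) 
(.lf (nat_lit 671359032) (dlOf (nat_lit 2) (nat_lit 0x5002200033018160680))) 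
(.lf (nat_lit 3825475640) (dlOf (nat_lit 2) (nat_lit 0x12a00a0031004000e8000000000c004000400020018160682)))) 
(.nd (nat_lit 7) (.lf (nat_lit 12853304) (dlOf (nat_lit 2) (nat_lit 0x2682000000186e0b00))) 
(.lf (nat_lit 28582072) (dlOf (nat_lit 1) (nat_lit 0x1c0028da0481))))) (.nd (nat_lit 7) 
(.nd (nat_lit 20) (.lf (nat_lit 4464760) (dlOf (nat_lit 1) (nat_lit 0x20018290281))) 
(.lf (nat_lit 9707640) (dlOf (nat_lit 1) (nat_lit 0x1e0018570b81)))) (.nd (nat_lit 8) 
(.lf (nat_lit 38019320) (dlOf (nat_lit 1) (nat_lit 0x400201220009112482))) 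
(.lf (nat_lit 2818850296) (dlOf (nat_lit 8) (nat_lit 0x4101f80296c0800e00fc014b40400ac0e4007003f0052c82000101f8029440801780fc0149e04007807e00a4e0200f0072004301f8029141001c00080124002007c000812cd03)))))) 
(.nd (nat_lit 26) (.nd (nat_lit 27) (.nd (nat_lit 31) 
(.lf (nat_lit 1879318584) (dlOf (nat_lit 2) (nat_lit 0x402a8000580800200080004002000400080d0b83))) 
(.lf (nat_lit 4026802232) (dlOf (nat_lit 1) (nat_lit 0x620008090001)))) 
(.lf (nat_lit 3087278136) (dlOf (nat_lit 2) (nat_lit 0x12a00a0031004000e8000000000c004000400020018160682)))) 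
(.nd (nat_lit 6) (.nd (nat_lit 27) 
(.lf (nat_lit 2483298360) (dlOf (nat_lit 1) (nat_lit 0x400280a0b81))) 
(.lf (nat_lit 1543774264) (dlOf (nat_lit 2) (nat_lit 0x5002200033018160680)))) 
(.lf (nat_lit 3557046520) (dlOf (nat_lit 3) (nat_lit 0x400fc0005e04001007e0002e020046000812a981))))))) 
(.nd (nat_lit 21) (.nd (nat_lit 29) (.nd (nat_lit 6) (.nd (nat_lit 7) (.nd (nat_lit 18) 
(.lf (nat_lit 3288866872) (dlOf (nat_lit 3) (nat_lit 0x1201b0001881000e0030000000800200080038002000e00081d0b03))) 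
(.lf (nat_lit 59514936) (dlOf (nat_lit 2) (nat_lit 0xc233f000000080020008018400200680009800503)))) 
(.lf (nat_lit 1843384) (dlOf (nat_lit 1) (nat_lit 0x80028150381)))) (.nd (nat_lit 26) 
(.lf (nat_lit 1074274552) (dlOf (nat_lit 1) (nat_lit 0xf4002006a00081b0482))) 
(.lf (nat_lit 470294776) (dlOf (nat_lit 3) (nat_lit 0x1ac48e0023902010c247001170180c0480))))) 
(.nd (nat_lit 30) (.nd (nat_lit 22) (.nd (nat_lit 27) 
(.lf (nat_lit 805838904) (dlOf (nat_lit 2) (nat_lit 0x400b000000040058002002e00081c0b02))) 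
(.lf (nat_lit 2819104824) (dlOf (nat_lit 1) (nat_lit 0x1c00081a0881)))) 
(.lf (nat_lit 2756190264) (dlOf (nat_lit 1) (nat_lit 0x20018211281)))) (.nd (nat_lit 6) 
(.nd (nat_lit 26) 
(.lf (nat_lit 4027064376) (dlOf (nat_lit 3) (nat_lit 0x1201b0001881000e0030000000800200080038002000e00081d0b03))) 
(.lf (nat_lit 1678254136) (dlOf (nat_lit 2) (nat_lit 0x400b000000040058002002e00081c0b02)))) 
(.lf (nat_lit 3892846840) (dlOf (nat_lit 2) (nat_lit 0x200320003902000c0008280681)))))) 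
(.nd (nat_lit 10) (.nd (nat_lit 6) (.nd (nat_lit 18) (.nd (nat_lit 22) 
(.lf (nat_lit 3492290616) (dlOf (nat_lit 1) (nat_lit 0x200180c1281))) 
(.lf (nat_lit 48767032) (dlOf (nat_lit 1) (nat_lit 0x60009420501)))) 
(.lf (nat_lit 45883448) (dlOf (nat_lit 4) (nat_lit 0xf3848000c8080009c240006204001ce120002f02000a0029360501)))) 
(.nd (nat_lit 8) (.lf (nat_lit 28844152) (dlOf (nat_lit 1) (nat_lit 0x40018da0481))) 
(.lf (nat_lit 40380792) (dlOf (nat_lit 1) (nat_lit 0x800091f4e81))))) (.nd (nat_lit 6) 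
(.nd (nat_lit 8) (.nd (nat_lit 18) 
(.lf (nat_lit 1344808120) (dlOf (nat_lit 4) (nat_lit 0x28214000c0ea0001c0400040850000d810003042800068080038008000400200060008982c83))) 
(.lf (nat_lit 58467512) (dlOf (nat_lit 1) (nat_lit 0x400297e2c81)))) 
(.lf (nat_lit 8136120) (dlOf (nat_lit 1) (nat_lit 0x18008000400200040008513603)))) 
(.nd (nat_lit 11) 
(.lf (nat_lit 61351288) (dlOf (nat_lit 2) (nat_lit 0x181380005e040018004001a0009923502))) 
(.lf (nat_lit 19676536) (dlOf (nat_lit 1) (nat_lit 0x4002008000089dc902)))))))) (.nd (nat_lit 6) 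
(.nd (nat_lit 10) (.nd (nat_lit 20) (.nd (nat_lit 12) (.nd (nat_lit 18) 
(.lf (nat_lit 472394296) (dlOf (nat_lit 1) (nat_lit 0x74004002e0008985202))) 
(.lf (nat_lit 69478968) (dlOf (nat_lit 1) (nat_lit 0x18008001400200020008a25203)))) 
(.nd (nat_lit 27) (.lf (nat_lit 4362091064) (dlOf (nat_lit 1) (nat_lit 0x18002000c000800b402))) 
(.nd (nat_lit 28) 
(.lf (nat_lit 201341496) (dlOf (nat_lit 2) (nat_lit 0x2800ec017c06c0007b040006001800b401))) 
(.lf (nat_lit 469776952) (dlOf (nat_lit 1) (nat_lit 0x3000800040020004000800b403)))))) 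
(.nd (nat_lit 25) (.nd (nat_lit 11) 
(.lf (nat_lit 3416632) (dlOf (nat_lit 1) (nat_lit 0x200028201001))) 
(.lf (nat_lit 32516664) (dlOf (nat_lit 1) (nat_lit 0x1400200020008ef5202)))) (.nd (nat_lit 19) 
(.lf (nat_lit 53488184) (dlOf (nat_lit 1) (nat_lit 0x200295f5201))) 
(.lf (nat_lit 51915320) (dlOf (nat_lit 1) (nat_lit 0x40029515201)))))) (.nd (nat_lit 12) 
(.nd (nat_lit 18) (.nd (nat_lit 7) (.nd (nat_lit 26) 
(.lf (nat_lit 5502936632) (dlOf (nat_lit 1) (nat_lit 0x8008000400200020008003783))) 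
(.lf (nat_lit 4630521400) (dlOf (nat_lit 1) (nat_lit 0x400400020008003782)))) 
(.lf (nat_lit 2415929016) (dlOf (nat_lit 1) (nat_lit 0x80028003a81)))) (.nd (nat_lit 8) 
(.lf (nat_lit 8136248) (dlOf (nat_lit 1) (nat_lit 0x60018513781))) (.nd (nat_lit 19) 
(.lf (nat_lit 3493078840) (dlOf (nat_lit 4) (nat_lit 0x10854001440000035040004216000610a8002082000044000003408000621500021040000a81000400080034002001a00080f3e03))) 
(.lf (nat_lit 2752259896) (dlOf (nat_lit 1) (nat_lit 0x1400200020008003e02)))))) (.nd (nat_lit 19) 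
(.nd (nat_lit 7) (.lf (nat_lit 6039811640) (dlOf (nat_lit 1) (nat_lit 0x800200060008009c02))) 
(.nd (nat_lit 26) (.lf (nat_lit 1476409272) (dlOf (nat_lit 1) (nat_lit 0xe001800a501))) 
(.lf (nat_lit 67123128) (dlOf (nat_lit 1) (nat_lit 0x40020002000800a502))))) (.nd (nat_lit 7) 
(.lf (nat_lit 67909176) (dlOf (nat_lit 2) (nat_lit 0x100d40182204004000400040008339c02))) 
(.nd (nat_lit 18) (.lf (nat_lit 20461240) (dlOf (nat_lit 1) (nat_lit 0x200289da001))) 
(.lf (nat_lit 20723384) (dlOf (nat_lit 1) (nat_lit 0x4002000200089da002)))))))) (.nd (nat_lit 11) 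
(.nd (nat_lit 8) (.nd (nat_lit 10) (.nd (nat_lit 20) (.nd (nat_lit 27) 
(.lf (nat_lit 2684363384) (dlOf (nat_lit 1) (nat_lit 0x20028001901))) 
(.lf (nat_lit 2281710200) (dlOf (nat_lit 2) (nat_lit 0x770128062808c0006408000400200060008001902)))) 
(.lf (nat_lit 19931768) (dlOf (nat_lit 1) (nat_lit 0x200289d1901)))) (.nd (nat_lit 7) 
(.lf (nat_lit 3758106232) (dlOf (nat_lit 3) (nat_lit 0xc00e0002a81005600000004c080010008003400200040008003983))) 
(.lf (nat_lit 8660728) (dlOf (nat_lit 1) (nat_lit 0x10008000c00200040008513b83))))) 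
(.nd (nat_lit 7) (.nd (nat_lit 18) 
(.lf (nat_lit 4362086264) (dlOf (nat_lit 8) (nat_lit 0x140330000e01000601980005c0800280cc0001a0400140660000b02000a033000048100050198000200800280cc0000e04009000400240018004082))) 
(.lf (nat_lit 8136568) (dlOf (nat_lit 1) (nat_lit 0x20028514081)))) (.nd (nat_lit 18) 
(.nd (nat_lit 26) (.lf (nat_lit 9208) (dlOf (nat_lit 1) (nat_lit 0x20028002881))) 
(.lf (nat_lit 2751472632) (dlOf (nat_lit 1) (nat_lit 0x20018002881)))) 
(.lf (nat_lit 2885952504) (dlOf (nat_lit 1) (nat_lit 0x580028142881)))))) (.nd (nat_lit 7) 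
(.nd (nat_lit 8) (.nd (nat_lit 20) 
(.lf (nat_lit 5033175672) (dlOf (nat_lit 1) (nat_lit 0x60018005401))) 
(.lf (nat_lit 6376401528) (dlOf (nat_lit 1) (nat_lit 0x20018095401)))) (.nd (nat_lit 18) 
(.nd (nat_lit 19) 
(.lf (nat_lit 2080385912) (dlOf (nat_lit 1) (nat_lit 0x28008000400200020008005c03))) 
(.lf (nat_lit 20458360) (dlOf (nat_lit 2) (nat_lit 0x40e9000020189d5c00)))) 
(.lf (nat_lit 60042104) (dlOf (nat_lit 1) (nat_lit 0x8008000400200020009845c03))))) 
(.nd (nat_lit 8) (.nd (nat_lit 12) 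
(.lf (nat_lit 57944824) (dlOf (nat_lit 1) (nat_lit 0x24004000a0009795a02))) 
(.lf (nat_lit 67910392) (dlOf (nat_lit 1) (nat_lit 0x24001833b981)))) (.nd (nat_lit 12) 
(.nd (nat_lit 22) (.lf (nat_lit 5570309112) (dlOf (nat_lit 1) (nat_lit 0x4800180d5f01))) 
(.lf (nat_lit 54799352) (dlOf (nat_lit 1) (nat_lit 0x800400060009655f02)))) 
(.lf (nat_lit 2818849784) (dlOf (nat_lit 3) (nat_lit 0xdc0840034036000600d8013001801280d80096604000c0040094000812bf02)))))))))) 
(.nd (nat_lit 18) (.nd (nat_lit 26) (.nd (nat_lit 5) (.nd (nat_lit 6) (.nd (nat_lit 19) 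
(.nd (nat_lit 28) (.nd (nat_lit 7) (.nd (nat_lit 10) 
(.lf (nat_lit 47325208) (dlOf (nat_lit 2) (nat_lit 0x15e2800058080038008002c002000a00093d0483))) 
(.lf (nat_lit 20065304) (dlOf (nat_lit 2) (nat_lit 0x5d6e000190189d6000)))) 
(.lf (nat_lit 3355583128) (dlOf (nat_lit 1) (nat_lit 0x20004002a00080a1b82)))) (.nd (nat_lit 8) 
(.nd (nat_lit 27) (.lf (nat_lit 2952929304) (dlOf (nat_lit 1) (nat_lit 0x40028030081))) 
(.lf (nat_lit 4160888856) (dlOf (nat_lit 1) (nat_lit 0x8008000400200020008060483)))) 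
(.lf (nat_lit 5637285144) (dlOf (nat_lit 1) (nat_lit 0x200080d3081))))) (.nd (nat_lit 20) 
(.nd (nat_lit 21) (.nd (nat_lit 27) 
(.lf (nat_lit 537534488) (dlOf (nat_lit 1) (nat_lit 0x300080008002001600080a0903))) 
(.lf (nat_lit 5772025880) (dlOf (nat_lit 1) (nat_lit 0x10008000800200040008040003)))) 
(.nd (nat_lit 7) (.lf (nat_lit 36316184) (dlOf (nat_lit 1) (nat_lit 0x20019072881))) 
(.lf (nat_lit 36317592) (dlOf (nat_lit 1) (nat_lit 0x20019074e81))))) (.nd (nat_lit 9) 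
(.nd (nat_lit 21) 
(.lf (nat_lit 22683672) (dlOf (nat_lit 2) (nat_lit 0x280000151402002c0018b10501))) 
(.lf (nat_lit 3493470232) (dlOf (nat_lit 2) (nat_lit 0xa022000b00e8007f4100038008007400200640008140a83)))) 
(.lf (nat_lit 49949208) (dlOf (nat_lit 3) (nat_lit 0x14545000130100062a28000340800b80080004002001200094c5083)))))) 
(.nd (nat_lit 28) (.nd (nat_lit 10) (.nd (nat_lit 19) (.nd (nat_lit 27) 
(.lf (nat_lit 5368848472) (dlOf (nat_lit 4) (nat_lit 0x17400a0004c0200f80050002581007400a80320050021802200d600e008a00080010028017800800bc002000c0008040603))) 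
(.lf (nat_lit 5503066200) (dlOf (nat_lit 4) (nat_lit 0x17400a000530200f80050002901007400a80320050021802200d600e008a00080011c28017800800bc002000c0008040603)))) 
(.nd (nat_lit 7) 
(.lf (nat_lit 60432472) (dlOf (nat_lit 3) (nat_lit 0xa968000520400414b40004a50000251d800094180038008001800200020009860703))) 
(.lf (nat_lit 28975320) (dlOf (nat_lit 3) (nat_lit 0x32cec0001201001a676000088080030008000400200100008da0503))))) 
(.nd (nat_lit 8) 
(.lf (nat_lit 1610753624) (dlOf (nat_lit 1) (nat_lit 0x8008000400200020008093883))) 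
(.nd (nat_lit 11) 
(.lf (nat_lit 2818712920) (dlOf (nat_lit 2) (nat_lit 0x37000000054040010002000600080d3382))) 
(.lf (nat_lit 3221372248) (dlOf (nat_lit 1) (nat_lit 0x2c002000c000811c902)))))) (.nd (nat_lit 7) 
(.nd (nat_lit 19) (.nd (nat_lit 29) 
(.lf (nat_lit 6711025752) (dlOf (nat_lit 1) (nat_lit 0x400400020018040602))) 
(.lf (nat_lit 2952929368) (dlOf (nat_lit 1) (nat_lit 0x20028030801)))) 
(.lf (nat_lit 1344938072) (dlOf (nat_lit 1) (nat_lit 0x580080010002000200089a0803)))) 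
(.nd (nat_lit 8) (.lf (nat_lit 3624018136) (dlOf (nat_lit 1) (nat_lit 0x20002000c00080b0482))) 
(.lf (nat_lit 5637285336) (dlOf (nat_lit 1) (nat_lit 0x8004000200080d3602))))))) (.nd (nat_lit 6) 
(.nd (nat_lit 24) (.nd (nat_lit 28) (.nd (nat_lit 29) (.nd (nat_lit 22) 
(.lf (nat_lit 3355582520) (dlOf (nat_lit 2) (nat_lit 0x202e00df18180a0000))) 
(.lf (nat_lit 12722232) (dlOf (nat_lit 2) (nat_lit 0x3ccd60000002004400186e0b01)))) 
(.nd (nat_lit 9) (.nd (nat_lit 19) 
(.lf (nat_lit 2684493880) (dlOf (nat_lit 1) (nat_lit 0x8008000c00200020008070d83))) 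
(.lf (nat_lit 537534520) (dlOf (nat_lit 2) (nat_lit 0x3402f8000b008020800800b8002001800080a0a83)))) 
(.lf (nat_lit 1610753592) (dlOf (nat_lit 1) (nat_lit 0x18008001c00200020008093783))))) 
(.nd (nat_lit 27) (.nd (nat_lit 19) (.nd (nat_lit 29) 
(.lf (nat_lit 4563542072) (dlOf (nat_lit 2) (nat_lit 0x82017800000080380008017400200120008090003))) 
(.lf (nat_lit 4026671160) (dlOf (nat_lit 2) (nat_lit 0x540200002f818020680)))) 
(.lf (nat_lit 1344938040) (dlOf (nat_lit 1) (nat_lit 0x1c002000200089a0502)))) (.nd (nat_lit 8) 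
(.lf (nat_lit 4697761336) (dlOf (nat_lit 2) (nat_lit 0x40290000c018093780))) 
(.lf (nat_lit 3624018232) (dlOf (nat_lit 2) (nat_lit 0x60000000b8180b0580)))))) (.nd (nat_lit 20) 
(.nd (nat_lit 7) (.lf (nat_lit 29499448) (dlOf (nat_lit 2) (nat_lit 0x18000000000200920008e10901))) 
(.nd (nat_lit 8) (.lf (nat_lit 31597752) (dlOf (nat_lit 1) (nat_lit 0xa0018e92c81))) 
(.lf (nat_lit 32123320) (dlOf (nat_lit 1) (nat_lit 0x20028ef4e81))))) (.nd (nat_lit 22) 
(.nd (nat_lit 21) (.lf (nat_lit 17965112) (dlOf (nat_lit 1) (nat_lit 0x400200020008900c02))) 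
(.lf (nat_lit 20062264) (dlOf (nat_lit 2) (nat_lit 0x1f5c802bc0040014004002400189d0002)))) 
(.nd (nat_lit 9) (.lf (nat_lit 24256568) (dlOf (nat_lit 1) (nat_lit 0x20028b90b81))) 
(.lf (nat_lit 58337848) (dlOf (nat_lit 1) (nat_lit 0x4004000200097e5202))))))) (.nd (nat_lit 7) 
(.nd (nat_lit 11) (.nd (nat_lit 10) 
(.lf (nat_lit 3355583096) (dlOf (nat_lit 11) (nat_lit 0x1401a001800b8018005a01ac02b00a20150008009c049c04a011c01f000300e0087003c0018014000361600140340001a810005017001980b4035805601b202a0038013805d007c02e803800aa00a0001a08033201a018e80cc043005e02de02d01b401600d580a400a403c00060090065001819f0000000642800a806800120320028017805b00b40006010001806800e802b0001702000601a000180b802400560002d0600100340003017003500ac000560c05300680002702012403400420150000901002280080144002016600080a1903))) 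
(.lf (nat_lit 8005240) (dlOf (nat_lit 1) (nat_lit 0x20018513981)))) (.nd (nat_lit 9) 
(.lf (nat_lit 5905721464) (dlOf (nat_lit 1) (nat_lit 0x20008144781))) (.nd (nat_lit 20) 
(.lf (nat_lit 1208101496) (dlOf (nat_lit 1) (nat_lit 0x800400020008095402))) 
(.lf (nat_lit 20064888) (dlOf (nat_lit 1) (nat_lit 0x200189d5401)))))) (.nd (nat_lit 11) 
(.nd (nat_lit 8) (.lf (nat_lit 48898296) (dlOf (nat_lit 1) (nat_lit 0xc00400020009442482))) 
(.nd (nat_lit 9) 
(.lf (nat_lit 3355582968) (dlOf (nat_lit 2) (nat_lit 0xb0170003440802500080118002003800080a1483))) 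
(.lf (nat_lit 36316152) (dlOf (nat_lit 1) (nat_lit 0xa0009072881))))) (.nd (nat_lit 10) 
(.lf (nat_lit 537016824) (dlOf (nat_lit 1) (nat_lit 0x340020002000800b282))) 
(.lf (nat_lit 8535544) (dlOf (nat_lit 1) (nat_lit 0x2002851cd01)))))))) (.nd (nat_lit 27) 
(.nd (nat_lit 28) (.nd (nat_lit 5) (.nd (nat_lit 11) (.nd (nat_lit 9) (.nd (nat_lit 19) 
(.lf (nat_lit 3288473624) (dlOf (nat_lit 1) (nat_lit 0xc800200060008020482))) 
(.lf (nat_lit 2755272728) (dlOf (nat_lit 2) (nat_lit 0xa022000b00e8007ac100038008007400200640008140a83)))) 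
(.lf (nat_lit 2755797528) (dlOf (nat_lit 1) (nat_lit 0x4004000200081b0d82)))) (.nd (nat_lit 6) 
(.lf (nat_lit 1677863064) (dlOf (nat_lit 1) (nat_lit 0xa0008114801))) (.nd (nat_lit 7) 
(.lf (nat_lit 1677863256) (dlOf (nat_lit 1) (nat_lit 0x20018114e01))) 
(.lf (nat_lit 1677863128) (dlOf (nat_lit 1) (nat_lit 0x400400020018114a82)))))) (.nd (nat_lit 6) 
(.nd (nat_lit 7) (.nd (nat_lit 11) 
(.lf (nat_lit 3288473656) (dlOf (nat_lit 2) (nat_lit 0x540200002f818020680))) 
(.lf (nat_lit 1677867064) (dlOf (nat_lit 1) (nat_lit 0x400080014002000a000811a603)))) 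
(.lf (nat_lit 2752128952) (dlOf (nat_lit 1) (nat_lit 0x380008004381)))) (.nd (nat_lit 7) 
(.lf (nat_lit 1677862776) (dlOf (nat_lit 3) (nat_lit 0x1100980007008005804c0000e040138004004e0018114082))) 
(.lf (nat_lit 2755797496) (dlOf (nat_lit 1) (nat_lit 0x400181b0d81)))))) (.nd (nat_lit 6) 
(.nd (nat_lit 5) (.nd (nat_lit 8) (.nd (nat_lit 19) 
(.lf (nat_lit 2483167256) (dlOf (nat_lit 1) (nat_lit 0x3400200020008050482))) 
(.lf (nat_lit 1409949720) (dlOf (nat_lit 1) (nat_lit 0x300080008002001600080a0903)))) 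
(.lf (nat_lit 872555800) (dlOf (nat_lit 1) (nat_lit 0x20028093081)))) (.nd (nat_lit 8) 
(.lf (nat_lit 1409949752) (dlOf (nat_lit 1) (nat_lit 0xc002000c00080a0b82))) 
(.lf (nat_lit 6241266488) (dlOf (nat_lit 1) (nat_lit 0x4c00280d5c01))))) (.nd (nat_lit 5) 
(.nd (nat_lit 7) (.nd (nat_lit 8) 
(.lf (nat_lit 4630650968) (dlOf (nat_lit 1) (nat_lit 0x20018040601))) 
(.lf (nat_lit 1409428824) (dlOf (nat_lit 1) (nat_lit 0x60028006a81)))) 
(.lf (nat_lit 6241266648) (dlOf (nat_lit 1) (nat_lit 0xa00180d5e01)))) (.nd (nat_lit 8) 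
(.lf (nat_lit 335686264) (dlOf (nat_lit 1) (nat_lit 0x400400020008095402))) 
(.lf (nat_lit 1409427832) (dlOf (nat_lit 1) (nat_lit 0x58008000c00200120008004e83))))))) 
(.nd (nat_lit 31) (.nd (nat_lit 6) (.nd (nat_lit 29) (.nd (nat_lit 5) (.nd (nat_lit 19) 
(.lf (nat_lit 470949912) (dlOf (nat_lit 1) (nat_lit 0x14002001a0008210482))) 
(.lf (nat_lit 472522776) (dlOf (nat_lit 3) (nat_lit 0x1cc178001540200e60bc000a98189b0600)))) 
(.lf (nat_lit 469907128) (dlOf (nat_lit 1) (nat_lit 0x40040002000800a002)))) (.nd (nat_lit 10) 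
(.nd (nat_lit 19) 
(.lf (nat_lit 5301739544) (dlOf (nat_lit 3) (nat_lit 0x300f80010074001403700020000035482000180fc001807c001203a000701b803544200138008001800200040008060a03))) 
(.lf (nat_lit 6376005656) (dlOf (nat_lit 1) (nat_lit 0x10008000800200040008040003)))) 
(.lf (nat_lit 738339864) (dlOf (nat_lit 1) (nat_lit 0xc00200020008096002))))) (.nd (nat_lit 21) 
(.nd (nat_lit 5) (.nd (nat_lit 28) 
(.lf (nat_lit 6107045976) (dlOf (nat_lit 1) (nat_lit 0x400400020018040602))) 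
(.lf (nat_lit 4764868696) (dlOf (nat_lit 1) (nat_lit 0x20018040601)))) 
(.lf (nat_lit 469906552) (dlOf (nat_lit 1) (nat_lit 0x20028009481)))) (.nd (nat_lit 7) 
(.lf (nat_lit 1008872024) (dlOf (nat_lit 1) (nat_lit 0x18008000400200080008fa5303))) 
(.lf (nat_lit 473571800) (dlOf (nat_lit 1) (nat_lit 0x20008f67b01)))))) (.nd (nat_lit 9) 
(.nd (nat_lit 5) (.nd (nat_lit 6) (.nd (nat_lit 19) (.nd (nat_lit 32) 
(.lf (nat_lit 2348949528) (dlOf (nat_lit 1) (nat_lit 0x1400400080018050482))) 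
(.lf (nat_lit 6643916824) (dlOf (nat_lit 1) (nat_lit 0x8008000800200080008060503)))) 
(.lf (nat_lit 3154780184) (dlOf (nat_lit 2) (nat_lit 0x90064000460400ac004001a0008320902)))) 
(.nd (nat_lit 7) (.lf (nat_lit 3959568728) (dlOf (nat_lit 1) (nat_lit 0x14c0020038000811ab82))) 
(.lf (nat_lit 2885820632) (dlOf (nat_lit 1) (nat_lit 0x20002000c00080b0482))))) (.nd (nat_lit 8) 
(.lf (nat_lit 3960086584) (dlOf (nat_lit 1) (nat_lit 0x4002000200081b0782))) 
(.lf (nat_lit 2885820728) (dlOf (nat_lit 2) (nat_lit 0x60000000b8180b0580))))) (.nd (nat_lit 5) 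
(.nd (nat_lit 7) (.nd (nat_lit 29) 
(.lf (nat_lit 2617385496) (dlOf (nat_lit 2) (nat_lit 0x44056001600200e600280a1481))) 
(.lf (nat_lit 3154256408) (dlOf (nat_lit 1) (nat_lit 0x3c00200020008137e82)))) 
(.lf (nat_lit 3959564184) (dlOf (nat_lit 1) (nat_lit 0x540028114201)))) (.nd (nat_lit 10) 
(.lf (nat_lit 3959568952) (dlOf (nat_lit 3) (nat_lit 0x2c048001901b800400b8009c040002c01d0016002800230300278080001120400fc0020028000811b402))) 
(.lf (nat_lit 2617390648) (dlOf (nat_lit 1) (nat_lit 0x198008000c002002600080a9c03))))))))) 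
(.nd (nat_lit 6) (.nd (nat_lit 5) (.nd (nat_lit 26) (.nd (nat_lit 23) (.nd (nat_lit 27) 
(.nd (nat_lit 7) (.nd (nat_lit 28) 
(.lf (nat_lit 537272344) (dlOf (nat_lit 1) (nat_lit 0x20028070501))) 
(.lf (nat_lit 4563804184) (dlOf (nat_lit 4) (nat_lit 0x8d8066000150202da0330000a0100010170000140804000080034002000200080e0483)))) 
(.lf (nat_lit 1611014296) (dlOf (nat_lit 1) (nat_lit 0x80080004002000200080c1183)))) 
(.nd (nat_lit 31) (.nd (nat_lit 7) 
(.lf (nat_lit 4698021912) (dlOf (nat_lit 1) (nat_lit 0xac002002c00080e0402))) 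
(.lf (nat_lit 134619544) (dlOf (nat_lit 2) (nat_lit 0xda03b0039f018090780)))) (.nd (nat_lit 19) 
(.lf (nat_lit 3355844632) (dlOf (nat_lit 1) (nat_lit 0xe8008003000200720008120483))) 
(.lf (nat_lit 2819498008) (dlOf (nat_lit 23) (nat_lit 0x580de0005f0201b4036009101600978088000b80c025406c00d002c00b701100016c1803400d800f005801620220002d03003003c003581c804ac0d4009205e0031025804d80fc000aa1800a40f000ba0720003038809681a800700d2009405e000302e8023812c023407e0005412011007800ba03900ca01a803bc0d2016a05e00bb02e804c012c04c007e005e0360002909001c03c002401c804880d4007405e002f025804700fc000a21800900f00070072012f0350018017800b4096012403f0002606003403c004e01c800300e202c806a00bd0348051017801680ba011804b0010025006280fc0009628003406c0003f02000e0360001c81003d01b0000e00802081c8065c0d400a003f0001983007e0350000c80801381c8050c0d4008c03f0001803004b0350000bc0800200e00004804001c06c0001e02002802c0000201001d01b00000c0801980b00000404002800400b600182b0402))))))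 
(.nd (nat_lit 20) (.nd (nat_lit 19) (.nd (nat_lit 25) 
(.lf (nat_lit 15081496) (dlOf (nat_lit 2) (nat_lit 0x29f5c000b2040074002001a00087b0482))) 
(.lf (nat_lit 48635928) (dlOf (nat_lit 1) (nat_lit 0x6000200120009420082)))) 
(.lf (nat_lit 9314328) (dlOf (nat_lit 1) (nat_lit 0xa8008000400200020008540703)))) 
(.nd (nat_lit 24) (.nd (nat_lit 7) 
(.lf (nat_lit 16654360) (dlOf (nat_lit 3) (nat_lit 0x182a7000c0fd8000600800ccaa000043f8000120288d0400))) 
(.lf (nat_lit 11935896) (dlOf (nat_lit 1) (nat_lit 0x200186c0181)))) (.nd (nat_lit 21) 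
(.lf (nat_lit 26615832) (dlOf (nat_lit 2) (nat_lit 0x35a7a8018d3cc00c674200732fc003197c000b8e28003f818004400200120008c50082))) 
(.lf (nat_lit 62267416) (dlOf (nat_lit 1) (nat_lit 0x20019990181))))))) (.nd (nat_lit 29) 
(.nd (nat_lit 27) (.nd (nat_lit 9) (.nd (nat_lit 19) 
(.lf (nat_lit 1409687576) (dlOf (nat_lit 1) (nat_lit 0x20028070501))) 
(.lf (nat_lit 3557695512) (dlOf (nat_lit 23) (nat_lit 0x580de0005f0201b4038009101600978088000b80c025407000d002c00b701100016c1803400e000f005801620220002d03003003c003581c804ac0c2009205e0031021004d80fc000aa1800a40f000ba07200030388096818400700c0009405e000302e80238108023407e0005412011007800ba03900ca018403bc0c0016a05e00bb02e804c010804c007e005e0380002909001c03c002401c804880c2007405e002f021004700fc000a21800900f00070072012f0308018017800b4084012403f0002606003403c004e01c800300e202c806100bd0300051017801680ba01180420010020806280fc000962800340700003f02000e0380001c81003d01c0000e00802081c8065c0c200a003f0001983007e0308000c80801381c8050c0c2008c03f0001803004b0308000bc0800200e80004804001c0700001e02002802c0000201001d01c00000c0801980b00000404002800400b600182b0402))))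 
(.lf (nat_lit 2483429912) (dlOf (nat_lit 1) (nat_lit 0xc002000200081b0d82)))) (.nd (nat_lit 20) 
(.lf (nat_lit 5838872600) (dlOf (nat_lit 2) (nat_lit 0xcc02a002a00980005010043800801a0002000a00081e0483))) 
(.lf (nat_lit 471212056) (dlOf (nat_lit 1) (nat_lit 0x100080018002002200082c0683))))) 
(.nd (nat_lit 8) (.nd (nat_lit 7) (.nd (nat_lit 19) 
(.lf (nat_lit 3020300312) (dlOf (nat_lit 2) (nat_lit 0x100280003c04000c00400080008220482))) 
(.lf (nat_lit 2755534872) (dlOf (nat_lit 1) (nat_lit 0x2200281b0001)))) 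
(.lf (nat_lit 2755014296) (dlOf (nat_lit 1) (nat_lit 0x8004003a00080f7202)))) (.nd (nat_lit 9) 
(.nd (nat_lit 10) 
(.lf (nat_lit 4228260248) (dlOf (nat_lit 2) (nat_lit 0x3c00c8010f604002800400080008090782))) 
(.lf (nat_lit 2754493848) (dlOf (nat_lit 1) (nat_lit 0x8002000200080fca02)))) 
(.lf (nat_lit 2754493336) (dlOf (nat_lit 2) (nat_lit 0xa22b00011148007887400e40000054608000800080fbc81))))))) 
(.nd (nat_lit 26) (.nd (nat_lit 21) (.nd (nat_lit 28) (.nd (nat_lit 7) 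
(.lf (nat_lit 537796920) (dlOf (nat_lit 2) (nat_lit 0xa033000130181b0580))) (.nd (nat_lit 8) 
(.lf (nat_lit 48112824) (dlOf (nat_lit 1) (nat_lit 0x200019402c81))) 
(.lf (nat_lit 134619576) (dlOf (nat_lit 3) (nat_lit 0x140760012202007203b0008c018090800))))) 
(.nd (nat_lit 27) (.nd (nat_lit 29) 
(.lf (nat_lit 4563804216) (dlOf (nat_lit 1) (nat_lit 0xc80080034002008e00080e1403))) 
(.lf (nat_lit 4026933304) (dlOf (nat_lit 1) (nat_lit 0x200280d0b81)))) 
(.lf (nat_lit 4698021944) (dlOf (nat_lit 1) (nat_lit 0xc80080034002008e00080e1403))))) 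
(.nd (nat_lit 7) (.nd (nat_lit 20) 
(.lf (nat_lit 1881546808) (dlOf (nat_lit 3) (nat_lit 0x300d00000c08004038800000040008004000a0008f40502))) 
(.nd (nat_lit 23) (.lf (nat_lit 24518712) (dlOf (nat_lit 1) (nat_lit 0x400400020008ba0b02))) 
(.lf (nat_lit 49684536) (dlOf (nat_lit 1) (nat_lit 0x60029480501))))) (.nd (nat_lit 10) 
(.lf (nat_lit 3023032) (dlOf (nat_lit 1) (nat_lit 0x500028200381))) 
(.lf (nat_lit 32384184) (dlOf (nat_lit 1) (nat_lit 0x400200020008ef2c82)))))) (.nd (nat_lit 27) 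
(.nd (nat_lit 8) (.nd (nat_lit 29) 
(.lf (nat_lit 3288735800) (dlOf (nat_lit 1) (nat_lit 0x200280d0b81))) 
(.lf (nat_lit 4899348536) (dlOf (nat_lit 2) (nat_lit 0x2200c0002b018140680)))) (.nd (nat_lit 7) 
(.lf (nat_lit 1410212152) (dlOf (nat_lit 2) (nat_lit 0xa033000128181b0580))) 
(.lf (nat_lit 2752389560) (dlOf (nat_lit 1) (nat_lit 0x328008001800200720008017783))))) 
(.nd (nat_lit 28) (.nd (nat_lit 7) 
(.lf (nat_lit 4496695352) (dlOf (nat_lit 1) (nat_lit 0x17800800f000200ce0008120483))) 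
(.lf (nat_lit 201728440) (dlOf (nat_lit 3) (nat_lit 0x140760012102007203b0008c018090800)))) 
(.nd (nat_lit 20) (.nd (nat_lit 29) 
(.lf (nat_lit 2617647160) (dlOf (nat_lit 1) (nat_lit 0x128008001800200240008130d83))) 
(.lf (nat_lit 2080776248) (dlOf (nat_lit 1) (nat_lit 0x400180d0b81)))) 
(.lf (nat_lit 471212088) (dlOf (nat_lit 1) (nat_lit 0x24004001400082c0902)))))))) (.nd (nat_lit 28) 
(.nd (nat_lit 7) (.nd (nat_lit 23) (.nd (nat_lit 5) (.nd (nat_lit 8) 
(.lf (nat_lit 4496695384) (dlOf (nat_lit 4) (nat_lit 0x7ec068048c033019c019010900c005c805e006c02d01fd0118004808801c403e000a0100021003009b8014000643000100680152033000188200a90198000c00878d8008131c00206d00008120603))) 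
(.lf (nat_lit 2886084440) (dlOf (nat_lit 1) (nat_lit 0x20028143f81)))) (.nd (nat_lit 8) 
(.lf (nat_lit 53354616) (dlOf (nat_lit 1) (nat_lit 0x200095a0b81))) 
(.lf (nat_lit 134619512) (dlOf (nat_lit 2) (nat_lit 0x1501d801ce80800f8008011000200500008090783))))) 
(.nd (nat_lit 20) (.nd (nat_lit 9) 
(.lf (nat_lit 48635992) (dlOf (nat_lit 1) (nat_lit 0x9c002000c0009420802))) 
(.lf (nat_lit 42347096) (dlOf (nat_lit 1) (nat_lit 0x20019245301)))) (.nd (nat_lit 8) 
(.nd (nat_lit 24) 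
(.lf (nat_lit 9838680) (dlOf (nat_lit 7) (nat_lit 0x34875804e43a602121ca00220e3808e85e002982d6000530c02d61d601430e98092072800f838e021417800a70b5800148300bb875804e039400be1c501650bc00011c200c9875804f8394007e1c501660bc000118200ad07580414394020e1780002283003f0000000cc0803b8008059000200200008580603))) 
(.lf (nat_lit 26615896) (dlOf (nat_lit 1) (nat_lit 0x17800401b60008c50802)))) 
(.lf (nat_lit 11936088) (dlOf (nat_lit 1) (nat_lit 0x4004000200086c0682)))))) (.nd (nat_lit 19) 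
(.nd (nat_lit 5) (.nd (nat_lit 8) (.nd (nat_lit 11) 
(.lf (nat_lit 2349211864) (dlOf (nat_lit 1) (nat_lit 0x8004000200081b0482))) 
(.lf (nat_lit 2886084824) (dlOf (nat_lit 1) (nat_lit 0x18008000400200020008144a83)))) 
(.lf (nat_lit 21373400) (dlOf (nat_lit 1) (nat_lit 0x800200020008a37102)))) (.nd (nat_lit 20) 
(.lf (nat_lit 4362477816) (dlOf (nat_lit 1) (nat_lit 0x340008090481))) 
(.lf (nat_lit 3547384) (dlOf (nat_lit 1) (nat_lit 0x2000200060008200482))))) (.nd (nat_lit 9) 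
(.nd (nat_lit 5) (.nd (nat_lit 11) 
(.lf (nat_lit 537796824) (dlOf (nat_lit 3) (nat_lit 0x154000001cd02014c0330004a0181b0480))) 
(.lf (nat_lit 8267992) (dlOf (nat_lit 1) (nat_lit 0x20008514a81)))) 
(.lf (nat_lit 2752389624) (dlOf (nat_lit 2) (nat_lit 0xb0fc000088080008008002c00200140008017e03)))) 
(.nd (nat_lit 11) (.lf (nat_lit 8270552) (dlOf (nat_lit 1) (nat_lit 0x8008000400200020008518c83))) 
(.lf (nat_lit 19806936) (dlOf (nat_lit 1) (nat_lit 0x80080008002000200089db983))))))) 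
(.nd (nat_lit 5) (.nd (nat_lit 7) (.nd (nat_lit 19) (.nd (nat_lit 26) 
(.lf (nat_lit 5637546072) (dlOf (nat_lit 1) (nat_lit 0xf0008011000200720008100603))) 
(.lf (nat_lit 6241525848) (dlOf (nat_lit 1) (nat_lit 0xf0008011000200720008100603)))) 
(.nd (nat_lit 20) (.lf (nat_lit 6376267864) (dlOf (nat_lit 1) (nat_lit 0x400400020018090002))) 
(.lf (nat_lit 3491635288) (dlOf (nat_lit 1) (nat_lit 0x100028090001))))) (.nd (nat_lit 8) 
(.nd (nat_lit 19) (.lf (nat_lit 2483429592) (dlOf (nat_lit 1) (nat_lit 0x8004000200081b0482))) 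
(.lf (nat_lit 1410212056) (dlOf (nat_lit 3) (nat_lit 0x154000001cd02014c0330004a0181b0480)))) 
(.lf (nat_lit 1009132504) (dlOf (nat_lit 1) (nat_lit 0xa0009082881))))) (.nd (nat_lit 19) 
(.nd (nat_lit 11) (.nd (nat_lit 7) 
(.lf (nat_lit 4228260216) (dlOf (nat_lit 1) (nat_lit 0x200080080002001a0008090783))) 
(.lf (nat_lit 1881547000) (dlOf (nat_lit 1) (nat_lit 0x80080008002000a0008f42483)))) 
(.nd (nat_lit 9) (.lf (nat_lit 3490064760) (dlOf (nat_lit 1) (nat_lit 0x20018004e81))) 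
(.lf (nat_lit 5771766648) (dlOf (nat_lit 1) (nat_lit 0x8008000400200020008005c03))))) 
(.nd (nat_lit 9) (.nd (nat_lit 8) 
(.lf (nat_lit 6376267896) (dlOf (nat_lit 1) (nat_lit 0x6f8004001c0008090202))) 
(.lf (nat_lit 1343103352) (dlOf (nat_lit 1) (nat_lit 0x20008150b01)))) (.nd (nat_lit 10) 
(.lf (nat_lit 4094569336) (dlOf (nat_lit 1) (nat_lit 0x1c00200020008055c02))) 
(.lf (nat_lit 3492685688) (dlOf (nat_lit 1) (nat_lit 0x110008000c002002000080f4083))))))))))) 
(.nd (nat_lit 17) (.nd (nat_lit 7) (.nd (nat_lit 18) (.nd (nat_lit 26) (.nd (nat_lit 5) 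
(.nd (nat_lit 19) (.nd (nat_lit 27) (.nd (nat_lit 10) (.nd (nat_lit 22) 
(.lf (nat_lit 52502552) (dlOf (nat_lit 1) (nat_lit 0x20019540601))) 
(.lf (nat_lit 14753816) (dlOf (nat_lit 3) (nat_lit 0x1324ac003d6040014f56001580200020008770081)))) 
(.nd (nat_lit 22) (.lf (nat_lit 5368785944) (dlOf (nat_lit 1) (nat_lit 0x1000400040008006002))) 
(.lf (nat_lit 54602776) (dlOf (nat_lit 1) (nat_lit 0x80080040002000a0009656003))))) 
(.nd (nat_lit 8) (.nd (nat_lit 11) 
(.lf (nat_lit 3892388888) (dlOf (nat_lit 1) (nat_lit 0xe00008102881))) 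
(.lf (nat_lit 5234568216) (dlOf (nat_lit 1) (nat_lit 0x2400400080008056002)))) (.nd (nat_lit 6) 
(.lf (nat_lit 671164184) (dlOf (nat_lit 1) (nat_lit 0x800400020018143c82))) 
(.lf (nat_lit 1208033624) (dlOf (nat_lit 2) (nat_lit 0x80580002d0200020018090d81)))))) 
(.nd (nat_lit 20) (.nd (nat_lit 23) (.nd (nat_lit 29) (.nd (nat_lit 22) (.nd (nat_lit 27) 
(.lf (nat_lit 3221823512) (dlOf (nat_lit 3) (nat_lit 0x2805e015e002000402f000801700577c1002f0008003800200300008190903))) 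
(.lf (nat_lit 134815768) (dlOf (nat_lit 1) (nat_lit 0x200280c0a81)))) 
(.lf (nat_lit 4792344) (dlOf (nat_lit 1) (nat_lit 0x80080004002000200082b0083)))) (.nd (nat_lit 28) 
(.lf (nat_lit 1611210776) (dlOf (nat_lit 3) (nat_lit 0xa029800080d40001408000c0aa000203f00000028110180))) 
(.lf (nat_lit 805904408) (dlOf (nat_lit 1) (nat_lit 0xc00080004002000200081e0903))))) 
(.nd (nat_lit 6) (.lf (nat_lit 42541080) (dlOf (nat_lit 1) (nat_lit 0x240019260081))) 
(.lf (nat_lit 42541144) (dlOf (nat_lit 2) (nat_lit 0x2e11c0004a040008002005c0009260802))))) 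
(.nd (nat_lit 9) (.nd (nat_lit 10) 
(.lf (nat_lit 22618136) (dlOf (nat_lit 1) (nat_lit 0x20028b00501))) 
(.lf (nat_lit 20524056) (dlOf (nat_lit 1) (nat_lit 0x8002001600089d6002)))) 
(.lf (nat_lit 12132888) (dlOf (nat_lit 1) (nat_lit 0x200286c0d81)))))) (.nd (nat_lit 8) 
(.nd (nat_lit 30) (.nd (nat_lit 21) (.nd (nat_lit 6) 
(.lf (nat_lit 537468984) (dlOf (nat_lit 2) (nat_lit 0x1010800150080040008002c002001200080a0a83))) 
(.lf (nat_lit 2952868984) (dlOf (nat_lit 1) (nat_lit 0x5400200120008009482)))) (.nd (nat_lit 9) 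
(.lf (nat_lit 10559544) (dlOf (nat_lit 1) (nat_lit 0x2c004000200085f0b82))) 
(.lf (nat_lit 31533624) (dlOf (nat_lit 1) (nat_lit 0x400400020008e95202))))) (.nd (nat_lit 9) 
(.nd (nat_lit 27) 
(.lf (nat_lit 1611210808) (dlOf (nat_lit 9) (nat_lit 0x27807600220100001582003902e002c80fc00e4028000240600ea0000000b010075029806080d401f0042005601d00b500c0000382803a814c000180401f40a6019603500750108012007402b40300000a0a002405d006a01e803400000000c0c019c0a6000c04f009201a800180c0015003e002a01d00c0000000000380040008012800200220008110683))) 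
(.lf (nat_lit 3892912184) (dlOf (nat_lit 1) (nat_lit 0x80028291101)))) (.nd (nat_lit 6) 
(.lf (nat_lit 6308308536) (dlOf (nat_lit 2) (nat_lit 0xe01b002100c800d802c000540c001800400060008053782))) 
(.lf (nat_lit 5503002232) (dlOf (nat_lit 1) (nat_lit 0x400200020008003982)))))) (.nd (nat_lit 6) 
(.nd (nat_lit 9) (.nd (nat_lit 28) 
(.lf (nat_lit 3221299512) (dlOf (nat_lit 3) (nat_lit 0x40170000a008038814c01bc06e007402e007c01000009420020000800f400200260008090583))) 
(.nd (nat_lit 29) 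
(.lf (nat_lit 4563476792) (dlOf (nat_lit 1) (nat_lit 0xf0008006000200240008090b83))) 
(.lf (nat_lit 805380408) (dlOf (nat_lit 2) (nat_lit 0x122051009501d003f80e400a805801180270036000000094300168008003400200220008090583))))) 
(.nd (nat_lit 10) (.lf (nat_lit 19999544) (dlOf (nat_lit 1) (nat_lit 0x4002000200089d5c02))) 
(.lf (nat_lit 79672) (dlOf (nat_lit 1) (nat_lit 0x8001800a101))))) (.nd (nat_lit 9) 
(.nd (nat_lit 10) (.lf (nat_lit 25764216) (dlOf (nat_lit 1) (nat_lit 0x60008c10b01))) 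
(.lf (nat_lit 1610687864) (dlOf (nat_lit 1) (nat_lit 0x20018093501)))) 
(.lf (nat_lit 5637221240) (dlOf (nat_lit 1) (nat_lit 0x1e0028055c01))))))) (.nd (nat_lit 29) 
(.nd (nat_lit 28) (.nd (nat_lit 27) (.nd (nat_lit 5) (.nd (nat_lit 8) 
(.lf (nat_lit 4362674200) (dlOf (nat_lit 1) (nat_lit 0x200180d0901))) 
(.lf (nat_lit 4362152216) (dlOf (nat_lit 1) (nat_lit 0x580080010002000a0008004b83)))) 
(.lf (nat_lit 4362156088) (dlOf (nat_lit 1) (nat_lit 0x3800800100020004000800a603)))) 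
(.nd (nat_lit 5) (.nd (nat_lit 10) 
(.lf (nat_lit 201924632) (dlOf (nat_lit 1) (nat_lit 0x200280c0a81))) 
(.lf (nat_lit 5570110488) (dlOf (nat_lit 1) (nat_lit 0x20028052881)))) 
(.lf (nat_lit 4496369208) (dlOf (nat_lit 3) (nat_lit 0x100d0000680800180680003004011c00400360008053782))))) 
(.nd (nat_lit 8) (.nd (nat_lit 5) (.nd (nat_lit 6) 
(.lf (nat_lit 2617319960) (dlOf (nat_lit 1) (nat_lit 0x800180a1481))) 
(.lf (nat_lit 470360152) (dlOf (nat_lit 1) (nat_lit 0x1c00180c0001)))) 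
(.lf (nat_lit 471408696) (dlOf (nat_lit 1) (nat_lit 0x80080014002000200082f1103)))) 
(.nd (nat_lit 5) (.nd (nat_lit 11) 
(.lf (nat_lit 474030360) (dlOf (nat_lit 2) (nat_lit 0xe0fa000100280000c100010008002400200040009000a83))) 
(.lf (nat_lit 469838104) (dlOf (nat_lit 1) (nat_lit 0x1800200020008004b82)))) 
(.lf (nat_lit 474033016) (dlOf (nat_lit 1) (nat_lit 0x2140009005c01)))))) (.nd (nat_lit 30) 
(.nd (nat_lit 8) (.nd (nat_lit 10) (.nd (nat_lit 5) 
(.lf (nat_lit 738795544) (dlOf (nat_lit 3) (nat_lit 0xa029800080d40001408000c0aa000203f00000028110180))) 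
(.lf (nat_lit 738795576) (dlOf (nat_lit 9) (nat_lit 0x27807600220100001582003902e002c80fc00e4028000240600ea0000000b010075029806080d401f0042005601d00b500c0000382803a814c000180401f40a6019603500750108012007402b40300000a0a002405d006a01e803400000000c0c019c0a6000c04f009201a800180c0015003e002a01d00c0000000000380040008012800200220008110683)))) 
(.nd (nat_lit 11) (.lf (nat_lit 3019973656) (dlOf (nat_lit 1) (nat_lit 0x8002000400080d2882))) 
(.lf (nat_lit 5033241624) (dlOf (nat_lit 1) (nat_lit 0x40008004c002000c0008006003))))) 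
(.nd (nat_lit 5) (.nd (nat_lit 6) 
(.lf (nat_lit 4899022104) (dlOf (nat_lit 1) (nat_lit 0x10008000800200040008053083))) 
(.lf (nat_lit 738274136) (dlOf (nat_lit 1) (nat_lit 0x260028095c01)))) (.nd (nat_lit 6) 
(.lf (nat_lit 738271544) (dlOf (nat_lit 2) (nat_lit 0xc09800300350008010800000180138008004800200100008090b83))) 
(.lf (nat_lit 5167459192) (dlOf (nat_lit 1) (nat_lit 0x1000400160008055c02)))))) (.nd (nat_lit 27) 
(.nd (nat_lit 5) (.nd (nat_lit 6) (.nd (nat_lit 9) 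
(.lf (nat_lit 1678319640) (dlOf (nat_lit 1) (nat_lit 0xc00080004002000200081e0903))) 
(.lf (nat_lit 5972763160) (dlOf (nat_lit 1) (nat_lit 0x1c004000200080b0d82)))) 
(.lf (nat_lit 4093715544) (dlOf (nat_lit 1) (nat_lit 0x400400020008002902)))) 
(.lf (nat_lit 1677795640) (dlOf (nat_lit 2) (nat_lit 0x122051009501d003f80e400a805801180270036000000098300168008003400200220008090583)))) 
(.nd (nat_lit 5) (.nd (nat_lit 28) 
(.lf (nat_lit 3960021016) (dlOf (nat_lit 3) (nat_lit 0x2805e0173e02000402f0008017005cf41002f0008003800200300008190903))) 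
(.lf (nat_lit 4228456472) (dlOf (nat_lit 1) (nat_lit 0x200180d0901)))) (.nd (nat_lit 6) 
(.lf (nat_lit 3959497016) (dlOf (nat_lit 3) (nat_lit 0x71029803780dc00e805c00f80200001304000401700008c08020000800f400200260008090583))) 
(.lf (nat_lit 6376467064) (dlOf (nat_lit 1) (nat_lit 0x400400020008095402))))))))) 
(.nd (nat_lit 28) (.nd (nat_lit 5) (.nd (nat_lit 19) (.nd (nat_lit 27) (.nd (nat_lit 6) 
(.nd (nat_lit 10) (.lf (nat_lit 5905915928) (dlOf (nat_lit 1) (nat_lit 0x800400080008160482))) 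
(.lf (nat_lit 38085656) (dlOf (nat_lit 1) (nat_lit 0x400200060009132882)))) 
(.lf (nat_lit 38085720) (dlOf (nat_lit 1) (nat_lit 0x800200020009132902)))) (.nd (nat_lit 29) 
(.nd (nat_lit 26) 
(.lf (nat_lit 134553624) (dlOf (nat_lit 1) (nat_lit 0x10800800a400200560008070503))) 
(.lf (nat_lit 201662488) (dlOf (nat_lit 1) (nat_lit 0x10800800a400200560008070503)))) 
(.nd (nat_lit 6) 
(.lf (nat_lit 3892650008) (dlOf (nat_lit 10) (nat_lit 0x12205401c602880e4813c018809800b204a009201980798090038004400ea01d009e00b004c8050003da2c022c0a8011a033008b012004600880020036011a016008900a0007b0380a18150085c0a2043804f019e026008f8128050c0660340024018d01100180074010c03601fe019013e00b009d8050003d6340c0c0a8060a03301a400e819680580ca0028001ea0a00560540021019802b8088003d20c002802c0006014000f182004d02a00038050003b20800680a8020e051007b026001a00cc01d4048000201d003200b0007483800b80cc003a204004c002001a0008180082))) 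
(.lf (nat_lit 3892650072) (dlOf (nat_lit 1) (nat_lit 0x4400200160008180802)))))) (.nd (nat_lit 20) 
(.nd (nat_lit 21) (.nd (nat_lit 24) 
(.lf (nat_lit 42803224) (dlOf (nat_lit 1) (nat_lit 0x80029280081))) 
(.lf (nat_lit 59580440) (dlOf (nat_lit 4) (nat_lit 0x3a8710012381003e3a08005500800c20240012804007400400660009810602)))) 
(.lf (nat_lit 2957336) (dlOf (nat_lit 1) (nat_lit 0x800181e0501)))) (.nd (nat_lit 8) 
(.nd (nat_lit 22) 
(.lf (nat_lit 18685976) (dlOf (nat_lit 11) (nat_lit 0x287330002f8100304ac001223a8010cfae00347ac00343af800e9ccc000aa18013d2b000049570044475000123a40194fae00687ac00513af802f1ccc000a82002f92b0015e95700a84750041a3a40324fae01967ac000c3d580599d7c02fce6600052120050958002d475002d9f5c0078f58005275f0037399800144300102560009d1d400a07d700173d600109d7c00b0e660004c0c011e95800a04ab804f23a802891d2018e7d700753d600021eac0258ebe0150733000258900134a900072394004ceb200543d7000198400083e880059ccc00247ae000300600067d1000d1eb8000bc100018008001c00200480008960403)))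 
(.lf (nat_lit 31268888) (dlOf (nat_lit 1) (nat_lit 0xe0028e80481)))) 
(.lf (nat_lit 12394776) (dlOf (nat_lit 1) (nat_lit 0x200286c0481)))))) (.nd (nat_lit 20) 
(.nd (nat_lit 8) (.nd (nat_lit 30) (.nd (nat_lit 21) 
(.lf (nat_lit 12918840) (dlOf (nat_lit 1) (nat_lit 0x200286e0b01))) 
(.lf (nat_lit 2433080) (dlOf (nat_lit 2) (nat_lit 0xd52e00011c08000800802a4002009a0008160a83)))) 
(.nd (nat_lit 26) 
(.lf (nat_lit 3355779128) (dlOf (nat_lit 3) (nat_lit 0x201780058c0800080bc00000040008004002a0008110d82))) 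
(.lf (nat_lit 1678057528) (dlOf (nat_lit 1) (nat_lit 0x2400400020018160702))))) (.nd (nat_lit 6) 
(.nd (nat_lit 9) 
(.lf (nat_lit 2818908472) (dlOf (nat_lit 1) (nat_lit 0x20008000400200020008130703))) 
(.lf (nat_lit 19740472) (dlOf (nat_lit 1) (nat_lit 0x200289da101)))) 
(.lf (nat_lit 4496632696) (dlOf (nat_lit 1) (nat_lit 0x4002000200080e5c02))))) (.nd (nat_lit 6) 
(.nd (nat_lit 19) (.lf (nat_lit 24453176) (dlOf (nat_lit 1) (nat_lit 0x400028ba0b01))) 
(.nd (nat_lit 22) (.lf (nat_lit 4005944) (dlOf (nat_lit 1) (nat_lit 0x20028261281))) 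
(.lf (nat_lit 16588856) (dlOf (nat_lit 1) (nat_lit 0x3c002000800088c0902))))) (.nd (nat_lit 8) 
(.nd (nat_lit 12) (.lf (nat_lit 43329144) (dlOf (nat_lit 1) (nat_lit 0x4002000200092a3982))) 
(.lf (nat_lit 20264568) (dlOf (nat_lit 1) (nat_lit 0x1c00080018002003000089d9d03)))) 
(.lf (nat_lit 11870584) (dlOf (nat_lit 1) (nat_lit 0x400186c0781))))))) (.nd (nat_lit 26) 
(.nd (nat_lit 30) (.nd (nat_lit 6) (.nd (nat_lit 5) (.nd (nat_lit 29) 
(.lf (nat_lit 268771352) (dlOf (nat_lit 4) (nat_lit 0x3c054002002900390140003809c01992100034054001602900370140033201800b00a00190c0400b400400020008140a02))) 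
(.lf (nat_lit 2953125912) (dlOf (nat_lit 9) (nat_lit 0x6005c007202a00190148018009c00cc042004a020002400f002a0060005c02e00580110002a8a0024017001600a800ec05200cc027000b011802880840124040008601e004500d0029806000e002e02700130047008806d8014003c004000541e00de02e0086015003f00a401c404e015c02300a10108047808002d803c013e01a007000c0054805c017402200f4002000290d0016017001280a8008005200580270037010801a8080009403c008e018002000b80190044000a228005c05c005002a002a014801e009c00ec042006a020002000f00298060007002e005a011000260a00b3017004780a802ac05201dc02700b30118049008402c4040018001e00b300d0052006002c402e027001300b300880a6001402500040004b1e000601300020028001141001e804c0007e04009400400020018150402)))) 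
(.lf (nat_lit 805642296) (dlOf (nat_lit 1) (nat_lit 0x2400400020018160702)))) (.nd (nat_lit 27) 
(.lf (nat_lit 4563738712) (dlOf (nat_lit 2) (nat_lit 0x1900a40284032000c01800a3009804f80400006414002c004000c00080d0602))) 
(.lf (nat_lit 4697956440) (dlOf (nat_lit 2) (nat_lit 0x1900a40284032000c01800a3009804f80400006614002c004000c00080d0602))))) 
(.nd (nat_lit 19) (.nd (nat_lit 6) (.nd (nat_lit 20) 
(.lf (nat_lit 1879384088) (dlOf (nat_lit 1) (nat_lit 0x140018110a81))) 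
(.lf (nat_lit 1343561752) (dlOf (nat_lit 1) (nat_lit 0xc0008290481)))) 
(.lf (nat_lit 3624217944) (dlOf (nat_lit 1) (nat_lit 0x10008001000200020008146a83)))) 
(.nd (nat_lit 5) (.nd (nat_lit 20) 
(.lf (nat_lit 1343037464) (dlOf (nat_lit 1) (nat_lit 0xe20008140381))) 
(.lf (nat_lit 1344086040) (dlOf (nat_lit 1) (nat_lit 0x80080004002000200083c0483)))) 
(.lf (nat_lit 5773271160) (dlOf (nat_lit 2) (nat_lit 0x40000000c8040028002000600080c0b82)))))) 
(.nd (nat_lit 30) (.nd (nat_lit 5) (.nd (nat_lit 19) (.nd (nat_lit 31) 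
(.lf (nat_lit 1006968856) (dlOf (nat_lit 1) (nat_lit 0x140018110a81))) 
(.lf (nat_lit 3154452504) (dlOf (nat_lit 4) (nat_lit 0x2c09e001ff02014805100a40278007f41004b00cc003f80400a4004000200081a0082)))) 
(.lf (nat_lit 470622232) (dlOf (nat_lit 1) (nat_lit 0xe20008140381)))) 
(.lf (nat_lit 872751224) (dlOf (nat_lit 3) (nat_lit 0x201a00005408000805800028040034004000200180c0b82)))) 
(.nd (nat_lit 8) (.nd (nat_lit 27) 
(.lf (nat_lit 1409622040) (dlOf (nat_lit 4) (nat_lit 0x406f0034501004e02a0001810800c680800f40a80062d02006a0018050481))) 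
(.nd (nat_lit 31) (.lf (nat_lit 1543839768) (dlOf (nat_lit 1) (nat_lit 0x400400020018190482))) 
(.lf (nat_lit 3691323416) (dlOf (nat_lit 9) (nat_lit 0x6005c007202a00190148018008800cc042004a020002400c802a0060005c02400580110002a8a0024017001600a800ec05200160240066011002880840124040008a01b004300c8029806004e002800700120047008806d8014003c004000541e00de02e0086015003f00a402b804800e202200a101080478080027c036016c019007000c00548048017402200f4002000290d0016017001280a8008005200580220037010801a80800094032008e018002000900190044000a228005c05c005002a002a014801e008800ec042006a020002000c802980600070024005a011000260a00b3017004780a802ac052016602400ee0110049008402c4040016601b00c000c8052006004e0028016201200b300880a6001402500040004b1e000601400020028001081001e80500007e04009400400020018150402))))) 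
(.nd (nat_lit 5) (.lf (nat_lit 5838807320) (dlOf (nat_lit 1) (nat_lit 0x200181b0481))) 
(.lf (nat_lit 3557105976) (dlOf (nat_lit 1) (nat_lit 0xe0002002c0008130702))))))))) 
(.nd (nat_lit 28) (.nd (nat_lit 5) (.nd (nat_lit 29) (.nd (nat_lit 19) (.nd (nat_lit 18) 
(.nd (nat_lit 6) (.nd (nat_lit 8) 
(.lf (nat_lit 49357976) (dlOf (nat_lit 1) (nat_lit 0x20004002c0009462b82))) 
(.lf (nat_lit 3355521944) (dlOf (nat_lit 1) (nat_lit 0x2c00280a9101)))) (.nd (nat_lit 20) 
(.nd (nat_lit 26) 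
(.lf (nat_lit 3221299416) (dlOf (nat_lit 6) (nat_lit 0x44053002201b801100800038e0c000c0a800160530006022800300dc000c0540014020000300a801a80000038a2000840a6001bd02032e053012102280c900dc04d405c03280200004a0500070170002440800300080170002000c0008090483))) 
(.lf (nat_lit 6509633752) (dlOf (nat_lit 3) (nat_lit 0x80fc0034076002203500110148008f02001600000046e040038002001600080b0482)))) 
(.lf (nat_lit 3219672) (dlOf (nat_lit 2) (nat_lit 0x31414017c9e0005c4980011b838200480))))) 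
(.nd (nat_lit 6) (.lf (nat_lit 1074077848) (dlOf (nat_lit 1) (nat_lit 0x100028090181))) 
(.nd (nat_lit 8) (.nd (nat_lit 20) 
(.lf (nat_lit 25501912) (dlOf (nat_lit 1) (nat_lit 0x180008c10581))) 
(.lf (nat_lit 3481816) (dlOf (nat_lit 2) (nat_lit 0x245490011b818200480)))) 
(.lf (nat_lit 38085592) (dlOf (nat_lit 1) (nat_lit 0x4002008e0009132882)))))) (.nd (nat_lit 8) 
(.nd (nat_lit 10) (.nd (nat_lit 6) 
(.lf (nat_lit 23666840) (dlOf (nat_lit 1) (nat_lit 0x40008b80181))) 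
(.lf (nat_lit 7942872) (dlOf (nat_lit 1) (nat_lit 0x20018518c81)))) (.nd (nat_lit 18) 
(.lf (nat_lit 20526808) (dlOf (nat_lit 1) (nat_lit 0x48008002c002003a00089da003))) 
(.lf (nat_lit 19740376) (dlOf (nat_lit 1) (nat_lit 0x4004000200189da002))))) (.nd (nat_lit 6) 
(.lf (nat_lit 36514200) (dlOf (nat_lit 1) (nat_lit 0x20019074e81))) (.nd (nat_lit 10) 
(.lf (nat_lit 50930136) (dlOf (nat_lit 6) (nat_lit 0x1c0000010b02002fbbb001bddc80040410000eee400200040053776000fd020015bbb0007ddc800000100220008007c002020400094d7b03))) 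
(.lf (nat_lit 7943640) (dlOf (nat_lit 1) (nat_lit 0x20028519b01))))))) (.nd (nat_lit 30) 
(.nd (nat_lit 11) (.nd (nat_lit 6) 
(.lf (nat_lit 2753372312) (dlOf (nat_lit 1) (nat_lit 0x40008090181))) (.nd (nat_lit 8) 
(.lf (nat_lit 2755731672) (dlOf (nat_lit 2) (nat_lit 0x9c03f000e88181b0480))) 
(.lf (nat_lit 536945624) (dlOf (nat_lit 1) (nat_lit 0x8008000400200020008002883))))) 
(.nd (nat_lit 18) (.lf (nat_lit 2751539416) (dlOf (nat_lit 1) (nat_lit 0x240028004a81))) 
(.lf (nat_lit 2751801560) (dlOf (nat_lit 1) (nat_lit 0x60028004a81))))) (.nd (nat_lit 31) 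
(.nd (nat_lit 26) 
(.lf (nat_lit 5905653976) (dlOf (nat_lit 3) (nat_lit 0x80fc0034076002203800110148008f02001600000046e040038002001600080b0482))) 
(.nd (nat_lit 27) 
(.lf (nat_lit 1677795544) (dlOf (nat_lit 6) (nat_lit 0x1604f000c01c000d009800200000024908002a04f001b01c000d809800240000024708002202600020000007dc100010000003e004062c0a200aa050018d01d00a880e4047c058030c02701500000002503800380080054002000c0008090483))) 
(.lf (nat_lit 1812013272) (dlOf (nat_lit 2) (nat_lit 0x440048021801f010f00d0008f01800b80080190002000400080b0483))))) 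
(.nd (nat_lit 6) (.lf (nat_lit 3758172568) (dlOf (nat_lit 1) (nat_lit 0x200080d4e81))) 
(.nd (nat_lit 27) (.lf (nat_lit 3825279192) (dlOf (nat_lit 1) (nat_lit 0x200080b0481))) 
(.lf (nat_lit 3959496920) (dlOf (nat_lit 6) (nat_lit 0x44053002201b801100800038e0c000c0a800160530006022800300dc000c0540014020000300a801a80000038a2000840a6001bd02032e053012102280c900dc04d405c03280200004a0500070170002440800300080170002000c0008090483)))))))) 
(.nd (nat_lit 10) (.nd (nat_lit 8) (.nd (nat_lit 21) (.nd (nat_lit 11) 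
(.lf (nat_lit 25764088) (dlOf (nat_lit 1) (nat_lit 0x20018c10701))) 
(.lf (nat_lit 671164664) (dlOf (nat_lit 1) (nat_lit 0x70008001800200080008144b83)))) 
(.nd (nat_lit 6) (.lf (nat_lit 2171064) (dlOf (nat_lit 1) (nat_lit 0x180018150381))) 
(.lf (nat_lit 19996920) (dlOf (nat_lit 1) (nat_lit 0x4002000200089d0a82))))) (.nd (nat_lit 20) 
(.nd (nat_lit 27) (.lf (nat_lit 536945656) (dlOf (nat_lit 1) (nat_lit 0x400200020008002882))) 
(.lf (nat_lit 3892388856) (dlOf (nat_lit 1) (nat_lit 0x8008002000200020008102883)))) 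
(.nd (nat_lit 19) (.lf (nat_lit 43066360) (dlOf (nat_lit 1) (nat_lit 0x200292a2881))) 
(.lf (nat_lit 7939064) (dlOf (nat_lit 1) (nat_lit 0x800400040008512882)))))) (.nd (nat_lit 21) 
(.nd (nat_lit 26) (.nd (nat_lit 6) 
(.lf (nat_lit 1610687928) (dlOf (nat_lit 1) (nat_lit 0x200018093601))) 
(.lf (nat_lit 8726264) (dlOf (nat_lit 2) (nat_lit 0x102c00005102001c0018513b81)))) 
(.nd (nat_lit 27) (.lf (nat_lit 4899022264) (dlOf (nat_lit 2) (nat_lit 0x400700047018053600))) 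
(.lf (nat_lit 4496369080) (dlOf (nat_lit 2) (nat_lit 0x2201c001100d0005381002e8008000c002003e0008053603))))) 
(.nd (nat_lit 8) (.nd (nat_lit 6) 
(.lf (nat_lit 31532216) (dlOf (nat_lit 1) (nat_lit 0x8008000400200020008e92c83))) 
(.lf (nat_lit 8205560) (dlOf (nat_lit 1) (nat_lit 0x60018519501)))) (.nd (nat_lit 18) 
(.lf (nat_lit 61416888) (dlOf (nat_lit 1) (nat_lit 0x120029923601))) 
(.lf (nat_lit 52766136) (dlOf (nat_lit 1) (nat_lit 0x3c0029573601)))))))) (.nd (nat_lit 6) 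
(.nd (nat_lit 10) (.nd (nat_lit 29) (.nd (nat_lit 5) (.nd (nat_lit 8) 
(.lf (nat_lit 469837976) (dlOf (nat_lit 2) (nat_lit 0x3438a0000e0200060018004801))) 
(.lf (nat_lit 4563478936) (dlOf (nat_lit 1) (nat_lit 0x310004052e0008094e82)))) (.nd (nat_lit 8) 
(.lf (nat_lit 5773271224) (dlOf (nat_lit 1) (nat_lit 0x4002000200080c1702))) (.nd (nat_lit 11) 
(.lf (nat_lit 4697694648) (dlOf (nat_lit 2) (nat_lit 0x50090005340800a00080020002001e0008091003))) 
(.lf (nat_lit 1345923512) (dlOf (nat_lit 1) (nat_lit 0x20018e24e81)))))) (.nd (nat_lit 5) 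
(.nd (nat_lit 8) (.lf (nat_lit 1946493080) (dlOf (nat_lit 1) (nat_lit 0x100028090181))) 
(.lf (nat_lit 3154192792) (dlOf (nat_lit 1) (nat_lit 0x1000008104e81)))) (.nd (nat_lit 18) 
(.lf (nat_lit 872489144) (dlOf (nat_lit 1) (nat_lit 0x20018090701))) (.nd (nat_lit 19) 
(.lf (nat_lit 2080710840) (dlOf (nat_lit 1) (nat_lit 0x4002000200080c1702))) 
(.lf (nat_lit 6377251000) (dlOf (nat_lit 1) (nat_lit 0x1c004000e00180c1982))))))) (.nd (nat_lit 8) 
(.nd (nat_lit 5) (.nd (nat_lit 11) 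
(.lf (nat_lit 6375416984) (dlOf (nat_lit 1) (nat_lit 0x570008033400202f60008002b83))) 
(.lf (nat_lit 3624217752) (dlOf (nat_lit 1) (nat_lit 0x33800201f40008146202)))) (.nd (nat_lit 9) 
(.lf (nat_lit 1409363128) (dlOf (nat_lit 1) (nat_lit 0x20028006281))) (.nd (nat_lit 26) 
(.lf (nat_lit 2952869560) (dlOf (nat_lit 1) (nat_lit 0x2c002000e000800a002))) 
(.lf (nat_lit 3691067064) (dlOf (nat_lit 1) (nat_lit 0x800800a80020022000800a003)))))) 
(.nd (nat_lit 11) (.nd (nat_lit 29) 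
(.lf (nat_lit 4697695672) (dlOf (nat_lit 1) (nat_lit 0x140028093601))) 
(.lf (nat_lit 6308308408) (dlOf (nat_lit 9) (nat_lit 0x1f006400240140026009000b083002200c800568080108064002b20400600100009d02000a0180004c01000500c00025c08002006c001c030003c0080004703000600c0000b0080130008003400200060008053603)))) 
(.nd (nat_lit 5) 
(.lf (nat_lit 3490000280) (dlOf (nat_lit 2) (nat_lit 0x340f6000dc0200260008006d01))) 
(.lf (nat_lit 3490000312) (dlOf (nat_lit 2) (nat_lit 0x1a07b0006f818006d00))))))) (.nd (nat_lit 5) 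
(.nd (nat_lit 30) (.nd (nat_lit 29) (.nd (nat_lit 8) 
(.lf (nat_lit 469840088) (dlOf (nat_lit 1) (nat_lit 0x20018008081))) 
(.lf (nat_lit 4697695704) (dlOf (nat_lit 1) (nat_lit 0x40028093601)))) (.nd (nat_lit 27) 
(.lf (nat_lit 805380312) (dlOf (nat_lit 6) (nat_lit 0x1604f000c01c000d009800200000024908002a04f001b01c000d809800240000024708002202600020000007dc100010000003e004062c0a200aa050018d01d00a880e4047c058030c02701500000002503800380080054002000c0008090483))) 
(.nd (nat_lit 31) 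
(.lf (nat_lit 939598040) (dlOf (nat_lit 2) (nat_lit 0x440048021801f010f00d0008f01800b80080190002000400080b0483))) 
(.lf (nat_lit 3087081688) (dlOf (nat_lit 1) (nat_lit 0x200080b0481)))))) (.nd (nat_lit 8) 
(.nd (nat_lit 10) (.nd (nat_lit 18) 
(.lf (nat_lit 3493929176) (dlOf (nat_lit 2) (nat_lit 0x9c03f000e88181b0480))) 
(.lf (nat_lit 5773271256) (dlOf (nat_lit 1) (nat_lit 0x20002000600080c1902)))) 
(.lf (nat_lit 3624217816) (dlOf (nat_lit 2) (nat_lit 0x200f40000a04000400400040008146482)))) 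
(.nd (nat_lit 9) 
(.lf (nat_lit 5774057944) (dlOf (nat_lit 2) (nat_lit 0x780e40045e040020004001200080f7b02))) 
(.lf (nat_lit 5704330200) (dlOf (nat_lit 2) (nat_lit 0x2400c0000a0080020008000800200020008055e03)))))) 
(.nd (nat_lit 8) (.nd (nat_lit 9) (.nd (nat_lit 18) (.nd (nat_lit 20) 
(.lf (nat_lit 4563476728) (dlOf (nat_lit 1) (nat_lit 0x800200240008090a82))) 
(.lf (nat_lit 6376464632) (dlOf (nat_lit 1) (nat_lit 0x80028090a81)))) 
(.lf (nat_lit 5838807288) (dlOf (nat_lit 3) (nat_lit 0x4402f000e601001f0178007280801800080048002004c00081b0483)))) 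
(.nd (nat_lit 27) (.lf (nat_lit 4026607352) (dlOf (nat_lit 1) (nat_lit 0x1000200040008003b82))) 
(.lf (nat_lit 3623954168) (dlOf (nat_lit 1) (nat_lit 0x40028003b81))))) (.nd (nat_lit 10) 
(.nd (nat_lit 11) (.lf (nat_lit 5100348408) (dlOf (nat_lit 1) (nat_lit 0x40018052881))) 
(.nd (nat_lit 12) (.lf (nat_lit 2013342712) (dlOf (nat_lit 1) (nat_lit 0x20018005f01))) 
(.lf (nat_lit 1879915512) (dlOf (nat_lit 1) (nat_lit 0xc002000200083dbf02))))) (.nd (nat_lit 9) 
(.lf (nat_lit 3624218104) (dlOf (nat_lit 1) (nat_lit 0x8008004c00200100008146f83))) 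
(.lf (nat_lit 1879914488) (dlOf (nat_lit 1) (nat_lit 0x3000183da601)))))))))) (.nd (nat_lit 5) 
(.nd (nat_lit 6) (.nd (nat_lit 28) (.nd (nat_lit 18) (.nd (nat_lit 10) (.nd (nat_lit 19) 
(.nd (nat_lit 21) (.nd (nat_lit 7) 
(.lf (nat_lit 29564952) (dlOf (nat_lit 3) (nat_lit 0x1e6c150001981009060a8000c00800180080014002000a0008e20403))) 
(.lf (nat_lit 3221432728) (dlOf (nat_lit 2) (nat_lit 0x4000002e6804002800200020008114e82)))) 
(.nd (nat_lit 23) 
(.lf (nat_lit 52633624) (dlOf (nat_lit 3) (nat_lit 0x1aea4000aa010023717000250080078008002c00200360009560603))) 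
(.lf (nat_lit 10690584) (dlOf (nat_lit 1) (nat_lit 0x400400020008610482))))) (.nd (nat_lit 25) 
(.nd (nat_lit 26) 
(.lf (nat_lit 134946840) (dlOf (nat_lit 4) (nat_lit 0x3cc0150001781020100a800080000005c08065802a005800a00060000000b01807a800810f0002003e00080e0383))) 
(.nd (nat_lit 27) 
(.lf (nat_lit 4362805272) (dlOf (nat_lit 2) (nat_lit 0xc0014c006408e04a003300010038100380))) 
(.lf (nat_lit 202055704) (dlOf (nat_lit 4) (nat_lit 0x3cc0160001901020100b000080000006208065802c005800a00060000000bc1807a800810f0002003e00080e0383))))) 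
(.nd (nat_lit 7) (.lf (nat_lit 42672152) (dlOf (nat_lit 1) (nat_lit 0x780019270601))) 
(.lf (nat_lit 54209432) (dlOf (nat_lit 1) (nat_lit 0x420009655c81)))))) (.nd (nat_lit 11) 
(.nd (nat_lit 12) (.lf (nat_lit 3959628824) (dlOf (nat_lit 2) (nat_lit 0x2000000aeb018112880))) 
(.lf (nat_lit 2818782232) (dlOf (nat_lit 1) (nat_lit 0x18008005800200040008129203)))) 
(.nd (nat_lit 7) (.nd (nat_lit 8) 
(.lf (nat_lit 1141058584) (dlOf (nat_lit 6) (nat_lit 0xe90130000bc0803100980005c0401b804c0002c0201260260000f8100590130000780800100080018002000a0008096003))) 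
(.lf (nat_lit 2818784536) (dlOf (nat_lit 1) (nat_lit 0xc0020002000812c602)))) 
(.lf (nat_lit 6509768344) (dlOf (nat_lit 1) (nat_lit 0x400400020008147202)))))) (.nd (nat_lit 20) 
(.nd (nat_lit 21) (.nd (nat_lit 7) 
(.lf (nat_lit 2819039256) (dlOf (nat_lit 1) (nat_lit 0x20028160481))) (.nd (nat_lit 29) 
(.lf (nat_lit 3221692824) (dlOf (nat_lit 2) (nat_lit 0x5003800e0a04000c00200040008170782))) 
(.lf (nat_lit 537338264) (dlOf (nat_lit 1) (nat_lit 0x400200080008090782))))) (.nd (nat_lit 9) 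
(.nd (nat_lit 19) (.lf (nat_lit 10952728) (dlOf (nat_lit 1) (nat_lit 0x8008000400200020008650503))) 
(.lf (nat_lit 7282712) (dlOf (nat_lit 1) (nat_lit 0x20008000c002000400084b0003)))) 
(.lf (nat_lit 57092632) (dlOf (nat_lit 1) (nat_lit 0x20009795081))))) (.nd (nat_lit 9) 
(.nd (nat_lit 19) (.lf (nat_lit 18292760) (dlOf (nat_lit 1) (nat_lit 0xc0008920581))) 
(.nd (nat_lit 23) (.lf (nat_lit 23011352) (dlOf (nat_lit 1) (nat_lit 0x40028b40481))) 
(.lf (nat_lit 14622744) (dlOf (nat_lit 2) (nat_lit 0xde392000c1c600300c5c01784200006031000f5058770080))))) 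
(.nd (nat_lit 10) (.lf (nat_lit 58139160) (dlOf (nat_lit 1) (nat_lit 0x1000197c7e81))) 
(.lf (nat_lit 8332824) (dlOf (nat_lit 1) (nat_lit 0x20028513701))))))) (.nd (nat_lit 27) 
(.nd (nat_lit 10) (.nd (nat_lit 18) (.nd (nat_lit 19) 
(.lf (nat_lit 1346576408) (dlOf (nat_lit 1) (nat_lit 0x400400020008fd0182))) (.nd (nat_lit 20) 
(.lf (nat_lit 1342906392) (dlOf (nat_lit 1) (nat_lit 0x400400020008100902))) 
(.lf (nat_lit 4095418392) (dlOf (nat_lit 1) (nat_lit 0x34004000a00080b0a02))))) (.nd (nat_lit 7) 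
(.nd (nat_lit 26) 
(.lf (nat_lit 2416386072) (dlOf (nat_lit 1) (nat_lit 0x80080004002000600081b0003))) 
(.lf (nat_lit 3557236760) (dlOf (nat_lit 2) (nat_lit 0x11c065008e00e000574100090008003c002002a0008170083)))) 
(.lf (nat_lit 3492751512) (dlOf (nat_lit 1) (nat_lit 0x8004000200080f4802))))) (.nd (nat_lit 29) 
(.nd (nat_lit 7) (.lf (nat_lit 4630719512) (dlOf (nat_lit 1) (nat_lit 0x400400020008096002))) 
(.lf (nat_lit 3556980632) (dlOf (nat_lit 1) (nat_lit 0xb0008000c0020004000812a303)))) 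
(.nd (nat_lit 19) (.lf (nat_lit 4094897176) (dlOf (nat_lit 1) (nat_lit 0x20028056001))) 
(.lf (nat_lit 4094372888) (dlOf (nat_lit 1) (nat_lit 0x400400020008056002)))))) (.nd (nat_lit 19) 
(.nd (nat_lit 7) (.nd (nat_lit 9) (.nd (nat_lit 20) 
(.lf (nat_lit 5234696216) (dlOf (nat_lit 3) (nat_lit 0x7018000480b8002004200d4006001202e00070108034fc1000c80080058002001000080a0a03))) 
(.lf (nat_lit 471015448) (dlOf (nat_lit 1) (nat_lit 0x60018240481)))) 
(.lf (nat_lit 4160960024) (dlOf (nat_lit 1) (nat_lit 0x200280a9c01)))) (.nd (nat_lit 11) 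
(.lf (nat_lit 402859160) (dlOf (nat_lit 1) (nat_lit 0x10008001400200040008092b83))) 
(.lf (nat_lit 1543711896) (dlOf (nat_lit 1) (nat_lit 0x58008012c002015a0008146203))))) 
(.nd (nat_lit 18) (.nd (nat_lit 29) 
(.lf (nat_lit 470491160) (dlOf (nat_lit 1) (nat_lit 0x400400020008100902))) 
(.lf (nat_lit 4228587544) (dlOf (nat_lit 2) (nat_lit 0xc00130006408004a003200010038100380)))) 
(.nd (nat_lit 20) (.lf (nat_lit 470753304) (dlOf (nat_lit 1) (nat_lit 0x1800400020008170082))) 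
(.lf (nat_lit 473899032) (dlOf (nat_lit 1) (nat_lit 0xd4002005a0008fc0082)))))))) (.nd (nat_lit 7) 
(.nd (nat_lit 19) (.nd (nat_lit 8) (.nd (nat_lit 22) (.nd (nat_lit 11) 
(.lf (nat_lit 4496498776) (dlOf (nat_lit 4) (nat_lit 0x1405003f601c024600d80ce0068084803002e4017003600a80fe802c002401400e20070021002009b800c00066300010038015201b000190200a900d8000c40878d8008131c00206d00008090603))) 
(.lf (nat_lit 8599640) (dlOf (nat_lit 1) (nat_lit 0x6002851a781)))) (.nd (nat_lit 10) 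
(.lf (nat_lit 21438552) (dlOf (nat_lit 6) (nat_lit 0xf7da80022ed300057690003fb40005fd9e0035e9f8001303001b76a00023b4c00cbd9e000258300b2ed5004ef69800080080343b540003f02000dda60004ed00000f8100090008000800200100008a40603))) 
(.lf (nat_lit 57877592) (dlOf (nat_lit 3) (nat_lit 0x1ca5b0007f81000252d8003f40801c8008012c00200080009792903))))) 
(.nd (nat_lit 10) (.nd (nat_lit 18) 
(.lf (nat_lit 3087212888) (dlOf (nat_lit 2) (nat_lit 0x202300017818154e00))) (.nd (nat_lit 27) 
(.lf (nat_lit 4362543448) (dlOf (nat_lit 1) (nat_lit 0x400400020008090682))) 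
(.lf (nat_lit 4228325720) (dlOf (nat_lit 1) (nat_lit 0x400400020008090682))))) (.nd (nat_lit 9) 
(.nd (nat_lit 11) 
(.lf (nat_lit 57877848) (dlOf (nat_lit 1) (nat_lit 0xa8008003000200040009793383))) 
(.lf (nat_lit 6509768024) (dlOf (nat_lit 1) (nat_lit 0x20028146a81)))) 
(.lf (nat_lit 537077592) (dlOf (nat_lit 1) (nat_lit 0x20028003f81)))))) (.nd (nat_lit 8) 
(.nd (nat_lit 9) (.nd (nat_lit 21) (.nd (nat_lit 24) 
(.lf (nat_lit 5773402200) (dlOf (nat_lit 1) (nat_lit 0xc00180d1781))) 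
(.lf (nat_lit 52371544) (dlOf (nat_lit 2) (nat_lit 0x780000004a04006000200020009530802)))) 
(.lf (nat_lit 473899096) (dlOf (nat_lit 2) (nat_lit 0x2021600c9000000094100010008008800200b00008fc0803)))) 
(.nd (nat_lit 23) 
(.lf (nat_lit 1346316888) (dlOf (nat_lit 13) (nat_lit 0x142d20002802004616900020b400098560003c28a00080c7006100e8000983000f853000101ae0002304001016900070b3000400740003a0c000803a00019020002169000200e800060100038598004003a0001004000216900020b3000100740001a0c00082d20008168001600e8000141800880740000404000803a0000102004401d00000018f05300))) 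
(.lf (nat_lit 62859864) (dlOf (nat_lit 1) (nat_lit 0x1e00199a5301))))) (.nd (nat_lit 21) 
(.nd (nat_lit 18) (.lf (nat_lit 30089560) (dlOf (nat_lit 1) (nat_lit 0x400400040008e30882))) 
(.nd (nat_lit 27) 
(.lf (nat_lit 2752455000) (dlOf (nat_lit 1) (nat_lit 0x20008000c00200040008014e03))) 
(.lf (nat_lit 6376333656) (dlOf (nat_lit 1) (nat_lit 0x3b400400b20008090d82))))) (.nd (nat_lit 9) 
(.lf (nat_lit 19865944) (dlOf (nat_lit 1) (nat_lit 0xe00089d0d81))) 
(.lf (nat_lit 3492751192) (dlOf (nat_lit 1) (nat_lit 0x200280f3f81))))))) (.nd (nat_lit 11) 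
(.nd (nat_lit 8) (.nd (nat_lit 20) (.nd (nat_lit 9) (.nd (nat_lit 26) 
(.lf (nat_lit 3494060248) (dlOf (nat_lit 2) (nat_lit 0xc03e800261e700300d500180574005829c00601070004a0681b0480))) 
(.lf (nat_lit 2755862744) (dlOf (nat_lit 1) (nat_lit 0x100080004002000200081b0483)))) 
(.lf (nat_lit 3020109528) (dlOf (nat_lit 1) (nat_lit 0x2001812a001)))) (.nd (nat_lit 18) 
(.lf (nat_lit 47390936) (dlOf (nat_lit 1) (nat_lit 0x800193e5d81))) 
(.lf (nat_lit 2040024) (dlOf (nat_lit 2) (nat_lit 0xae4c10008dc0800700080018002000a0008150483))))) 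
(.nd (nat_lit 18) (.nd (nat_lit 10) 
(.lf (nat_lit 3959628760) (dlOf (nat_lit 1) (nat_lit 0x60008002400200020008112883))) 
(.lf (nat_lit 2751670232) (dlOf (nat_lit 4) (nat_lit 0x4248000098100041260000400800109300001e04000400400020008004502)))) 
(.nd (nat_lit 19) (.lf (nat_lit 47653848) (dlOf (nat_lit 1) (nat_lit 0x40019402881))) 
(.lf (nat_lit 3492750296) (dlOf (nat_lit 2) (nat_lit 0x8010005ee808007800800cc002000800080f2883)))))) 
(.nd (nat_lit 26) (.nd (nat_lit 9) (.nd (nat_lit 8) 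
(.lf (nat_lit 537077976) (dlOf (nat_lit 1) (nat_lit 0x40028004a81))) 
(.lf (nat_lit 3489869272) (dlOf (nat_lit 1) (nat_lit 0x400200020008006d82)))) (.nd (nat_lit 10) 
(.nd (nat_lit 18) 
(.lf (nat_lit 5771570136) (dlOf (nat_lit 1) (nat_lit 0x8008000400200020008005e03))) 
(.lf (nat_lit 46607320) (dlOf (nat_lit 1) (nat_lit 0x5a0019385e01)))) 
(.lf (nat_lit 3892522968) (dlOf (nat_lit 2) (nat_lit 0x101c002968080008008000400200020008157a83))))) 
(.nd (nat_lit 8) (.nd (nat_lit 10) 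
(.lf (nat_lit 3556980952) (dlOf (nat_lit 1) (nat_lit 0xe6002812a881))) 
(.lf (nat_lit 1543711960) (dlOf (nat_lit 1) (nat_lit 0x60028146481)))) (.nd (nat_lit 19) 
(.nd (nat_lit 20) (.lf (nat_lit 4630719448) (dlOf (nat_lit 1) (nat_lit 0x400400020008095e02))) 
(.lf (nat_lit 4094897112) (dlOf (nat_lit 1) (nat_lit 0x40028055e01)))) 
(.lf (nat_lit 4094372824) (dlOf (nat_lit 1) (nat_lit 0x400400020008055e02))))))))) (.nd (nat_lit 6) 
(.nd (nat_lit 9) (.nd (nat_lit 26) (.nd (nat_lit 19) (.nd (nat_lit 32) (.nd (nat_lit 20) 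
(.nd (nat_lit 7) (.nd (nat_lit 21) 
(.lf (nat_lit 3892781112) (dlOf (nat_lit 4) (nat_lit 0xd8168000380401040b4001202f0000d8200af02d002480bc0003008002800400060008260902))) 
(.lf (nat_lit 2564152) (dlOf (nat_lit 3) (nat_lit 0x42c040007604002d5f4000160200040018170b01)))) 
(.lf (nat_lit 42411192) (dlOf (nat_lit 1) (nat_lit 0x120019242c81)))) (.nd (nat_lit 21) 
(.lf (nat_lit 30875704) (dlOf (nat_lit 1) (nat_lit 0x400200020008e50c02))) 
(.lf (nat_lit 24584248) (dlOf (nat_lit 2) (nat_lit 0x753f000000080020008000400200140008ba0b03))))) 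
(.nd (nat_lit 27) (.nd (nat_lit 28) 
(.lf (nat_lit 6442917944) (dlOf (nat_lit 1) (nat_lit 0x280008220b81))) 
(.lf (nat_lit 4563869752) (dlOf (nat_lit 1) (nat_lit 0x800200060008110682)))) 
(.lf (nat_lit 4698087480) (dlOf (nat_lit 1) (nat_lit 0x800200060008110682))))) (.nd (nat_lit 7) 
(.nd (nat_lit 8) (.nd (nat_lit 20) 
(.lf (nat_lit 134946872) (dlOf (nat_lit 1) (nat_lit 0x11000200d200080e0782))) 
(.lf (nat_lit 18554936) (dlOf (nat_lit 2) (nat_lit 0x82bc0000000800f00080044002001c0008950903)))) 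
(.lf (nat_lit 19865912) (dlOf (nat_lit 1) (nat_lit 0x30008001c002001000089d0b83)))) 
(.nd (nat_lit 10) (.nd (nat_lit 21) 
(.lf (nat_lit 30351544) (dlOf (nat_lit 1) (nat_lit 0x22800802e000200b40008e30483))) 
(.lf (nat_lit 3088568) (dlOf (nat_lit 1) (nat_lit 0x80028200381)))) 
(.lf (nat_lit 55518392) (dlOf (nat_lit 1) (nat_lit 0x4002000400096d2c82)))))) (.nd (nat_lit 18) 
(.nd (nat_lit 7) (.nd (nat_lit 19) (.nd (nat_lit 29) 
(.lf (nat_lit 4496498744) (dlOf (nat_lit 1) (nat_lit 0x17800800f000200ce0008090483))) 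
(.lf (nat_lit 6107111480) (dlOf (nat_lit 1) (nat_lit 0x40018090001)))) 
(.lf (nat_lit 202055736) (dlOf (nat_lit 1) (nat_lit 0x17800200ae00080e0782)))) (.nd (nat_lit 8) 
(.lf (nat_lit 3556980920) (dlOf (nat_lit 2) (nat_lit 0x400e00148c04007c0040008000812a882))) 
(.lf (nat_lit 5167588792) (dlOf (nat_lit 1) (nat_lit 0x4002000200080d3602))))) (.nd (nat_lit 31) 
(.nd (nat_lit 8) (.nd (nat_lit 27) 
(.lf (nat_lit 4362543160) (dlOf (nat_lit 1) (nat_lit 0x2400400040018090002))) 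
(.lf (nat_lit 5838938168) (dlOf (nat_lit 1) (nat_lit 0x280008220b81)))) 
(.lf (nat_lit 6376333624) (dlOf (nat_lit 8) (nat_lit 0x78048803cc2420001604016c1220000a8100ba0910000440805d0488000200402d024400003020170122000010100b609100000008029800800b000200020008090b83)))) 
(.nd (nat_lit 19) (.nd (nat_lit 30) 
(.lf (nat_lit 3154583608) (dlOf (nat_lit 1) (nat_lit 0xc00200020008260902))) 
(.lf (nat_lit 4228325432) (dlOf (nat_lit 1) (nat_lit 0x24004000c0018090002)))) 
(.lf (nat_lit 4096729144) (dlOf (nat_lit 2) (nat_lit 0x1780000000004003c00200060008160682))))))) 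
(.nd (nat_lit 10) (.nd (nat_lit 28) (.nd (nat_lit 21) (.nd (nat_lit 11) 
(.lf (nat_lit 2753503800) (dlOf (nat_lit 1) (nat_lit 0x680080004002000e0008091003))) 
(.lf (nat_lit 51849784) (dlOf (nat_lit 1) (nat_lit 0x5c00400040019515202)))) (.nd (nat_lit 18) 
(.lf (nat_lit 53684792) (dlOf (nat_lit 1) (nat_lit 0x8004000200195f5202))) 
(.lf (nat_lit 53946936) (dlOf (nat_lit 1) (nat_lit 0x44002000800095f5202))))) (.nd (nat_lit 11) 
(.nd (nat_lit 21) (.lf (nat_lit 3491701304) (dlOf (nat_lit 1) (nat_lit 0x80028091001))) 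
(.lf (nat_lit 3493798456) (dlOf (nat_lit 1) (nat_lit 0x200080010002000e00081b1003)))) 
(.nd (nat_lit 18) (.lf (nat_lit 1346054712) (dlOf (nat_lit 1) (nat_lit 0x800200060008e25202))) 
(.lf (nat_lit 1346316856) (dlOf (nat_lit 2) (nat_lit 0x82d00006166000200e00017c180078008000400200040008f05203)))))) 
(.nd (nat_lit 8) (.nd (nat_lit 12) 
(.lf (nat_lit 5637350968) (dlOf (nat_lit 1) (nat_lit 0x200180d3781))) (.nd (nat_lit 18) 
(.lf (nat_lit 3355653688) (dlOf (nat_lit 2) (nat_lit 0x4800001826040080002000c00080a9c02))) 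
(.lf (nat_lit 20395576) (dlOf (nat_lit 1) (nat_lit 0x4002000200089d9c02))))) (.nd (nat_lit 7) 
(.nd (nat_lit 26) (.lf (nat_lit 3758307128) (dlOf (nat_lit 1) (nat_lit 0x40040002000812a102))) 
(.lf (nat_lit 3020109624) (dlOf (nat_lit 1) (nat_lit 0x1800800240020002000812a103)))) 
(.nd (nat_lit 11) 
(.lf (nat_lit 8599480) (dlOf (nat_lit 2) (nat_lit 0x121f800074080020008000c002000a000851a503))) 
(.lf (nat_lit 2818781112) (dlOf (nat_lit 1) (nat_lit 0x13c0018127a81)))))))) (.nd (nat_lit 18) 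
(.nd (nat_lit 30) (.nd (nat_lit 7) (.nd (nat_lit 8) (.nd (nat_lit 12) 
(.lf (nat_lit 43198072) (dlOf (nat_lit 1) (nat_lit 0x28002000800092a3982))) 
(.lf (nat_lit 20133496) (dlOf (nat_lit 1) (nat_lit 0x24002005a00089d9d02)))) (.nd (nat_lit 10) 
(.lf (nat_lit 4563610488) (dlOf (nat_lit 1) (nat_lit 0x20028095c01))) 
(.lf (nat_lit 8075128) (dlOf (nat_lit 1) (nat_lit 0x2880080004002003e000851a303))))) 
(.nd (nat_lit 9) (.nd (nat_lit 10) 
(.lf (nat_lit 3087213048) (dlOf (nat_lit 7) (nat_lit 0x3800b000c004800480000005e0c022001600ea00900710000000b418048802c000560402480160002a02012800b000140100160058000980802b0008004000200120008157e03))) 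
(.lf (nat_lit 6509768184) (dlOf (nat_lit 1) (nat_lit 0x360018146f81)))) (.nd (nat_lit 11) 
(.nd (nat_lit 19) (.lf (nat_lit 6711092216) (dlOf (nat_lit 1) (nat_lit 0x40018092881))) 
(.lf (nat_lit 36381688) (dlOf (nat_lit 1) (nat_lit 0x980009072881)))) 
(.lf (nat_lit 4563610616) (dlOf (nat_lit 1) (nat_lit 0x100028095f01)))))) (.nd (nat_lit 9) 
(.nd (nat_lit 8) (.nd (nat_lit 7) 
(.lf (nat_lit 1881350264) (dlOf (nat_lit 1) (nat_lit 0x140028eb0b81))) 
(.lf (nat_lit 1880301816) (dlOf (nat_lit 2) (nat_lit 0x101c60014d0200020018822481)))) 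
(.nd (nat_lit 10) (.lf (nat_lit 3491438968) (dlOf (nat_lit 1) (nat_lit 0xa0008090781))) 
(.lf (nat_lit 1543712120) (dlOf (nat_lit 1) (nat_lit 0x20018146b81))))) (.nd (nat_lit 10) 
(.nd (nat_lit 7) (.nd (nat_lit 26) 
(.lf (nat_lit 5771570040) (dlOf (nat_lit 1) (nat_lit 0x8008000400200020008005c03))) 
(.lf (nat_lit 1141058424) (dlOf (nat_lit 2) (nat_lit 0xeb0130002900800680080010002000c0008095c03)))) 
(.lf (nat_lit 1141058552) (dlOf (nat_lit 4) (nat_lit 0x3004c0004002002c0260001f8100350130000f80800680080014002000c0008095f03)))) 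
(.nd (nat_lit 8) (.lf (nat_lit 3422762616) (dlOf (nat_lit 1) (nat_lit 0x3c002001000080a9d02))) 
(.lf (nat_lit 3556978552) (dlOf (nat_lit 1) (nat_lit 0xc00400020008127782))))))) (.nd (nat_lit 8) 
(.nd (nat_lit 26) (.nd (nat_lit 7) 
(.lf (nat_lit 537337976) (dlOf (nat_lit 1) (nat_lit 0x400200020008090082))) (.nd (nat_lit 19) 
(.lf (nat_lit 34021624) (dlOf (nat_lit 1) (nat_lit 0x154002001a0008f92482))) 
(.lf (nat_lit 6234360) (dlOf (nat_lit 1) (nat_lit 0x40018420681))))) (.nd (nat_lit 28) 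
(.nd (nat_lit 19) 
(.lf (nat_lit 4362543224) (dlOf (nat_lit 1) (nat_lit 0x250008000800200360008090083))) 
(.lf (nat_lit 68100216) (dlOf (nat_lit 1) (nat_lit 0x80080004002000600083e0283)))) 
(.nd (nat_lit 27) (.lf (nat_lit 1409753208) (dlOf (nat_lit 1) (nat_lit 0x400200020008090082))) 
(.lf (nat_lit 4228325496) (dlOf (nat_lit 1) (nat_lit 0x250008000800200360008090083)))))) 
(.nd (nat_lit 7) (.nd (nat_lit 9) (.nd (nat_lit 10) 
(.lf (nat_lit 4094634360) (dlOf (nat_lit 1) (nat_lit 0x200018054e81))) (.nd (nat_lit 19) 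
(.lf (nat_lit 43459960) (dlOf (nat_lit 1) (nat_lit 0x600092a3501))) 
(.lf (nat_lit 4095681912) (dlOf (nat_lit 2) (nat_lit 0x10158000b80800c00080048002000200080e3503))))) 
(.nd (nat_lit 20) 
(.lf (nat_lit 46607224) (dlOf (nat_lit 1) (nat_lit 0x38008001400200020009385c03))) 
(.lf (nat_lit 20392824) (dlOf (nat_lit 1) (nat_lit 0x4002000200089d5c02))))) (.nd (nat_lit 21) 
(.nd (nat_lit 10) (.lf (nat_lit 2752455160) (dlOf (nat_lit 2) (nat_lit 0x61f800011018017e00))) 
(.lf (nat_lit 3490131448) (dlOf (nat_lit 1) (nat_lit 0xc400400640008006f82)))) (.nd (nat_lit 9) 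
(.lf (nat_lit 24060408) (dlOf (nat_lit 1) (nat_lit 0x80028b80d81))) 
(.lf (nat_lit 3492750328) (dlOf (nat_lit 2) (nat_lit 0x100e805e700800880080018002000800080f2883))))))))))))

end

end Pool.Agent.Lib.MP_5854e1_co.Cz

namespace Pool.Agent.Lib.MP_5854e1_co.Cz

noncomputable section

noncomputable def tz20 : DT := (.nd (nat_lit 5) (.nd (nat_lit 4) (.nd (nat_lit 17) 
(.nd (nat_lit 28) (.nd (nat_lit 18) (.nd (nat_lit 7) (.nd (nat_lit 19) (.nd (nat_lit 10) 
(.nd (nat_lit 6) (.nd (nat_lit 8) 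
(.lf (nat_lit 38830088) (dlOf (nat_lit 1) (nat_lit 0x20029170001))) 
(.lf (nat_lit 5368744712) (dlOf (nat_lit 2) (nat_lit 0x4056002201c0016005001080000005c10019c002003a0008005b02)))) 
(.nd (nat_lit 12) 
(.lf (nat_lit 2752544840) (dlOf (nat_lit 3) (nat_lit 0x2207f40004804006048e000000200020008020881))) 
(.lf (nat_lit 67145800) (dlOf (nat_lit 2) (nat_lit 0x200000263018007d80))))) (.nd (nat_lit 9) 
(.nd (nat_lit 6) 
(.lf (nat_lit 5502960648) (dlOf (nat_lit 2) (nat_lit 0x7804c00e8604003800400140008002882))) 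
(.lf (nat_lit 604017736) (dlOf (nat_lit 1) (nat_lit 0x3b400200b20008009302)))) (.nd (nat_lit 11) 
(.lf (nat_lit 1744864776) (dlOf (nat_lit 1) (nat_lit 0x80028003681))) 
(.lf (nat_lit 2754645512) (dlOf (nat_lit 1) (nat_lit 0x1580080004002002800080f7003)))))) 
(.nd (nat_lit 6) (.nd (nat_lit 24) (.nd (nat_lit 21) (.nd (nat_lit 27) 
(.lf (nat_lit 1678278664) (dlOf (nat_lit 3) (nat_lit 0x1300d40216e0400040840000002000200181d0001))) 
(.lf (nat_lit 2886238216) (dlOf (nat_lit 3) (nat_lit 0x2013000a78100030200000000800d000800d4002013200081a0483)))) 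
(.lf (nat_lit 2654216) (dlOf (nat_lit 2) (nat_lit 0xf28d40000004000c00400040008180002)))) 
(.nd (nat_lit 9) (.nd (nat_lit 20) 
(.lf (nat_lit 55083016) (dlOf (nat_lit 1) (nat_lit 0x14004000c00096a0002))) 
(.lf (nat_lit 24674312) (dlOf (nat_lit 1) (nat_lit 0x60008bb0001)))) 
(.lf (nat_lit 50889224) (dlOf (nat_lit 1) (nat_lit 0x580080034002002800094d8003))))) 
(.nd (nat_lit 21) (.nd (nat_lit 26) 
(.lf (nat_lit 3221782600) (dlOf (nat_lit 2) (nat_lit 0x301b8000000800300080030002000e0008180e03))) 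
(.lf (nat_lit 3959980104) (dlOf (nat_lit 1) (nat_lit 0x120028180e81)))) (.nd (nat_lit 8) 
(.lf (nat_lit 2754117704) (dlOf (nat_lit 2) (nat_lit 0x187e4002aa040018004005400080c1882))) 
(.lf (nat_lit 49841480) (dlOf (nat_lit 2) (nat_lit 0x284c600172620000001000280080098002000200094c3303))))))) 
(.nd (nat_lit 31) (.nd (nat_lit 11) (.nd (nat_lit 23) (.nd (nat_lit 26) 
(.lf (nat_lit 1744863624) (dlOf (nat_lit 1) (nat_lit 0x400400080018001002))) 
(.lf (nat_lit 1140883848) (dlOf (nat_lit 1) (nat_lit 0x2a0008001001)))) (.nd (nat_lit 6) 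
(.lf (nat_lit 8421768) (dlOf (nat_lit 1) (nat_lit 0x400200020008511002))) 
(.lf (nat_lit 43024840) (dlOf (nat_lit 1) (nat_lit 0x38008015c002008400092a1103))))) 
(.nd (nat_lit 8) (.nd (nat_lit 10) 
(.lf (nat_lit 4362111112) (dlOf (nat_lit 2) (nat_lit 0xe05600005018004800))) 
(.lf (nat_lit 134253704) (dlOf (nat_lit 3) (nat_lit 0x140000000460400400000002202004e0008006181)))) 
(.nd (nat_lit 6) (.lf (nat_lit 55609736) (dlOf (nat_lit 1) (nat_lit 0x400196d4e81))) 
(.lf (nat_lit 5368744904) (dlOf (nat_lit 5) (nat_lit 0x8402a0050014001d00980028044007000a000220a002801300140028000281000480540044028001c0130000303001d00a80120050005c0260022011000c000800000280070008003c00200080008005d83)))))) 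
(.nd (nat_lit 8) (.nd (nat_lit 9) 
(.lf (nat_lit 3422590088) (dlOf (nat_lit 1) (nat_lit 0x8008002400200140008009503))) 
(.nd (nat_lit 26) 
(.lf (nat_lit 2684393096) (dlOf (nat_lit 5) (nat_lit 0x170068001c4080028034000c204000401c00280000000f0200160068000000800a000800ac00200540008009e03))) 
(.lf (nat_lit 6643816072) (dlOf (nat_lit 3) (nat_lit 0x480d4002c0680006d040010035000c01a000000100058008008800200260008009e03))))) 
(.nd (nat_lit 6) (.nd (nat_lit 9) 
(.lf (nat_lit 2147516808) (dlOf (nat_lit 1) (nat_lit 0x4c000800c800200e40008001003))) 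
(.lf (nat_lit 2348844936) (dlOf (nat_lit 1) (nat_lit 0x10008000c00200020008004183)))) 
(.lf (nat_lit 6442490824) (dlOf (nat_lit 1) (nat_lit 0x14001800be81))))))) (.nd (nat_lit 6) 
(.nd (nat_lit 19) (.nd (nat_lit 32) (.nd (nat_lit 7) (.nd (nat_lit 21) (.nd (nat_lit 27) 
(.lf (nat_lit 1074036744) (dlOf (nat_lit 1) (nat_lit 0xa0028090001))) 
(.lf (nat_lit 1208254472) (dlOf (nat_lit 1) (nat_lit 0x600280b0001)))) 
(.lf (nat_lit 44335112) (dlOf (nat_lit 1) (nat_lit 0x200080030002001400092f0003)))) 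
(.nd (nat_lit 8) (.lf (nat_lit 11829384) (dlOf (nat_lit 1) (nat_lit 0x80080010002000200086c0103))) 
(.nd (nat_lit 10) 
(.lf (nat_lit 40143240) (dlOf (nat_lit 1) (nat_lit 0x200080004002000200091f4e83))) 
(.lf (nat_lit 298376) (dlOf (nat_lit 1) (nat_lit 0x20028006c81)))))) (.nd (nat_lit 27) 
(.nd (nat_lit 30) (.lf (nat_lit 6442745864) (dlOf (nat_lit 1) (nat_lit 0x9200081b0001))) 
(.lf (nat_lit 5369004040) (dlOf (nat_lit 1) (nat_lit 0x100080004002000200080c0003)))) 
(.nd (nat_lit 26) (.nd (nat_lit 29) 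
(.lf (nat_lit 5503221768) (dlOf (nat_lit 1) (nat_lit 0x100080004002000200080c0003))) 
(.lf (nat_lit 4966350856) (dlOf (nat_lit 1) (nat_lit 0x4004000200080c0002)))) 
(.lf (nat_lit 5033459720) (dlOf (nat_lit 1) (nat_lit 0x4004000200080c0002)))))) (.nd (nat_lit 8) 
(.nd (nat_lit 20) (.nd (nat_lit 21) 
(.lf (nat_lit 42762248) (dlOf (nat_lit 1) (nat_lit 0x10008000400200020009280003))) 
(.lf (nat_lit 2916360) (dlOf (nat_lit 1) (nat_lit 0x4004000200081d0002)))) 
(.lf (nat_lit 31227912) (dlOf (nat_lit 1) (nat_lit 0x11c00400040008e70002)))) (.nd (nat_lit 7) 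
(.lf (nat_lit 17596680) (dlOf (nat_lit 1) (nat_lit 0x9c00088e0701))) (.nd (nat_lit 12) 
(.lf (nat_lit 8159624) (dlOf (nat_lit 1) (nat_lit 0x400200020008511002))) 
(.lf (nat_lit 8163720) (dlOf (nat_lit 1) (nat_lit 0x20018518381))))))) (.nd (nat_lit 9) 
(.nd (nat_lit 20) (.nd (nat_lit 10) (.nd (nat_lit 29) 
(.lf (nat_lit 1208254536) (dlOf (nat_lit 1) (nat_lit 0x80080004002000200080b0603))) 
(.lf (nat_lit 671383624) (dlOf (nat_lit 2) (nat_lit 0x1d2025010e011000180000002e0c00b000400460008170f02)))) 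
(.lf (nat_lit 2818872392) (dlOf (nat_lit 1) (nat_lit 0x20028129301)))) (.nd (nat_lit 7) 
(.nd (nat_lit 8) (.lf (nat_lit 10256456) (dlOf (nat_lit 1) (nat_lit 0x800185c0f01))) 
(.lf (nat_lit 11829576) (dlOf (nat_lit 1) (nat_lit 0x8008003c002002600086c0603)))) 
(.lf (nat_lit 47482056) (dlOf (nat_lit 1) (nat_lit 0x400200120009402d02))))) (.nd (nat_lit 7) 
(.nd (nat_lit 11) (.nd (nat_lit 26) 
(.lf (nat_lit 1074037320) (dlOf (nat_lit 3) (nat_lit 0xfc0520002602001e02900012018091100))) 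
(.lf (nat_lit 3959718472) (dlOf (nat_lit 6) (nat_lit 0x3500380184000000240400d800e0001181000900700008808037803801a40000002004002000e0054000000074100188008006400200140008128d03)))) 
(.lf (nat_lit 36473416) (dlOf (nat_lit 1) (nat_lit 0x20019075201)))) (.nd (nat_lit 8) 
(.nd (nat_lit 10) 
(.lf (nat_lit 20222664) (dlOf (nat_lit 1) (nat_lit 0x280080004002001000089d8c83))) 
(.lf (nat_lit 537693896) (dlOf (nat_lit 1) (nat_lit 0x1c800280f7301)))) 
(.lf (nat_lit 36471752) (dlOf (nat_lit 1) (nat_lit 0x400400020019072882)))))))) (.nd (nat_lit 27) 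
(.nd (nat_lit 26) (.nd (nat_lit 6) (.nd (nat_lit 8) (.nd (nat_lit 7) (.nd (nat_lit 19) 
(.lf (nat_lit 1343258632) (dlOf (nat_lit 1) (nat_lit 0x300080004002002600081d0003))) 
(.lf (nat_lit 805863432) (dlOf (nat_lit 3) (nat_lit 0x1300d4020680400040840000002000200181d0001)))) 
(.lf (nat_lit 1342734472) (dlOf (nat_lit 2) (nat_lit 0x8889800783460003b04000400280c0101)))) 
(.nd (nat_lit 7) (.nd (nat_lit 9) 
(.lf (nat_lit 1345880328) (dlOf (nat_lit 1) (nat_lit 0x18004000c0008e03a02))) 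
(.lf (nat_lit 6710921992) (dlOf (nat_lit 3) (nat_lit 0x2401c0001781008100e0000b808050800801f400201fe0008005b03)))) 
(.lf (nat_lit 3489700744) (dlOf (nat_lit 1) (nat_lit 0x2001800bc81))))) (.nd (nat_lit 8) 
(.nd (nat_lit 21) (.nd (nat_lit 10) 
(.lf (nat_lit 3490742344) (dlOf (nat_lit 3) (nat_lit 0x2207ac0004804006045e000000200020008020881))) 
(.lf (nat_lit 268469320) (dlOf (nat_lit 1) (nat_lit 0x400400020008052882)))) (.nd (nat_lit 18) 
(.lf (nat_lit 3492315208) (dlOf (nat_lit 1) (nat_lit 0xb0008005c002005200080c1483))) 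
(.lf (nat_lit 3492053064) (dlOf (nat_lit 1) (nat_lit 0x200280a0e01))))) (.nd (nat_lit 7) 
(.lf (nat_lit 1342734664) (dlOf (nat_lit 3) (nat_lit 0x2119800108b4020c3e6006617d000200400060b88000e80801a0008007c002002e00080c0603))) 
(.lf (nat_lit 6710922184) (dlOf (nat_lit 6) (nat_lit 0xc80140000e81002100a00006c080078058003c02a00340140014002800064200028058000402a00100050000903000100b0002801400000080104002001a0008005d82)))))) 
(.nd (nat_lit 18) (.nd (nat_lit 6) (.nd (nat_lit 7) (.nd (nat_lit 8) 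
(.lf (nat_lit 3557326856) (dlOf (nat_lit 18) (nat_lit 0x1e803f0029201000401c00008088003c008001c07e001da02006e03f000101c0007341002180fc0039804017407e001cb02000403f000e501000701f8006e80800800fc003720400080e4002003f000da0200530390006b00801481c800ac07e001aa040058072001701f8006a01000400fc0034004001007e0019002003a072002101f8006281000281c8004c07e0018204009800081c0481))) 
(.lf (nat_lit 4094198024) (dlOf (nat_lit 1) (nat_lit 0x3000008013581)))) 
(.lf (nat_lit 872450440) (dlOf (nat_lit 1) (nat_lit 0x438002028e0008004e82)))) (.nd (nat_lit 7) 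
(.nd (nat_lit 9) 
(.lf (nat_lit 2483063880) (dlOf (nat_lit 1) (nat_lit 0x10008000c00200040008006083))) 
(.lf (nat_lit 4095772232) (dlOf (nat_lit 1) (nat_lit 0x4004000200080e3802)))) (.nd (nat_lit 8) 
(.lf (nat_lit 2483064008) (dlOf (nat_lit 3) (nat_lit 0x880a0005004a002801d00011830004012800680740004408006800400400018006382))) 
(.lf (nat_lit 1409322440) (dlOf (nat_lit 1) (nat_lit 0x20018006d01)))))) (.nd (nat_lit 29) 
(.nd (nat_lit 7) (.nd (nat_lit 19) 
(.lf (nat_lit 335839240) (dlOf (nat_lit 2) (nat_lit 0xe01900bf10180b0000))) 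
(.lf (nat_lit 3557589000) (dlOf (nat_lit 6) (nat_lit 0xa0328015e008006019400ae4040010000004e80200060000026b010005032800fb00800100080070002000e0008270003)))) 
(.lf (nat_lit 1410107528) (dlOf (nat_lit 1) (nat_lit 0x6a8008010c002007e00080f4803)))) 
(.nd (nat_lit 6) (.nd (nat_lit 30) 
(.lf (nat_lit 3020193800) (dlOf (nat_lit 2) (nat_lit 0x5c054000402300000028150000))) 
(.lf (nat_lit 1946451976) (dlOf (nat_lit 1) (nat_lit 0xa0028090001)))) 
(.lf (nat_lit 1946452552) (dlOf (nat_lit 3) (nat_lit 0xfc0520002602001e02900012018091100))))))) 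
(.nd (nat_lit 30) (.nd (nat_lit 19) (.nd (nat_lit 7) (.nd (nat_lit 18) (.nd (nat_lit 10) 
(.lf (nat_lit 470843400) (dlOf (nat_lit 1) (nat_lit 0x200281c0481))) 
(.lf (nat_lit 469799944) (dlOf (nat_lit 2) (nat_lit 0x1d0470028c40804f8008001000200560008009203)))) 
(.nd (nat_lit 20) (.lf (nat_lit 402948104) (dlOf (nat_lit 2) (nat_lit 0xe01a00da70180b0000))) 
(.lf (nat_lit 471105544) (dlOf (nat_lit 3) (nat_lit 0xe07e0053601000903f0029a0080028008000c00200280008270003))))) 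
(.nd (nat_lit 26) (.nd (nat_lit 32) 
(.lf (nat_lit 402688392) (dlOf (nat_lit 1) (nat_lit 0x21400400900008004e82))) 
(.lf (nat_lit 4697655688) (dlOf (nat_lit 1) (nat_lit 0x108004041e0008004e82)))) (.nd (nat_lit 6) 
(.lf (nat_lit 469797000) (dlOf (nat_lit 1) (nat_lit 0x1000200060008004802))) 
(.lf (nat_lit 4764765128) (dlOf (nat_lit 3) (nat_lit 0x20058001c02800020050001703000600a0000000800c0008000400200040008005d83)))))) 
(.nd (nat_lit 6) (.nd (nat_lit 7) (.nd (nat_lit 18) (.nd (nat_lit 22) 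
(.lf (nat_lit 3154673672) (dlOf (nat_lit 1) (nat_lit 0x18008000400200040008310003))) 
(.lf (nat_lit 474513416) (dlOf (nat_lit 1) (nat_lit 0x80080004002000200091a0003)))) 
(.lf (nat_lit 471629832) (dlOf (nat_lit 7) (nat_lit 0x1a09d0002047000a81f800c200c001c11c0060002000608e002f081001004e80058238007c0fc005b906001208e002d501001504e800000080f280080170002000e0008360283)))) 
(.lf (nat_lit 470319240) (dlOf (nat_lit 2) (nat_lit 0x8889800783660003b04000400280c0101)))) 
(.nd (nat_lit 8) (.lf (nat_lit 3154673736) (dlOf (nat_lit 1) (nat_lit 0x20028310081))) 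
(.nd (nat_lit 10) 
(.lf (nat_lit 470319432) (dlOf (nat_lit 3) (nat_lit 0x2119800108b4020c3e40066185000238400060b98001040801a0008007c002002e00080c0603))) 
(.lf (nat_lit 473466184) (dlOf (nat_lit 2) (nat_lit 0x84600000004007000400140008f53302))))))) 
(.nd (nat_lit 7) (.nd (nat_lit 18) (.nd (nat_lit 8) (.nd (nat_lit 11) 
(.lf (nat_lit 3624435720) (dlOf (nat_lit 3) (nat_lit 0x2014000f00100030200000000800d000800d4002013200081a0483))) 
(.lf (nat_lit 1543538696) (dlOf (nat_lit 5) (nat_lit 0x804c00020180001000000160180010098002803a0040018000900800060014002000400160000002b8700120028001480800580400000004000800400100018004702)))) 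
(.lf (nat_lit 1543538440) (dlOf (nat_lit 8) (nat_lit 0x3b8050000240201e8028000110100f50140000800807b80a00003e04019c0500001d02000a0280000d81009e0140000140801a800801a800200240008003b83)))) 
(.nd (nat_lit 6) (.nd (nat_lit 8) (.nd (nat_lit 29) 
(.lf (nat_lit 5838766088) (dlOf (nat_lit 1) (nat_lit 0x9200081b0001))) 
(.lf (nat_lit 2080669704) (dlOf (nat_lit 1) (nat_lit 0x600280b0001)))) 
(.lf (nat_lit 4228153608) (dlOf (nat_lit 1) (nat_lit 0x960028047301)))) (.nd (nat_lit 29) 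
(.lf (nat_lit 1543798856) (dlOf (nat_lit 2) (nat_lit 0x1d2025010e011000180000002e0c00b000400460008170f02))) 
(.lf (nat_lit 2080669768) (dlOf (nat_lit 1) (nat_lit 0x80080004002000200080b0603)))))) 
(.nd (nat_lit 8) (.nd (nat_lit 9) 
(.lf (nat_lit 4160787592) (dlOf (nat_lit 1) (nat_lit 0x20008000c002000e0008009503))) 
(.nd (nat_lit 26) 
(.lf (nat_lit 1476434568) (dlOf (nat_lit 2) (nat_lit 0xc80000098c04000c0020018000800b682))) 
(.lf (nat_lit 3691027080) (dlOf (nat_lit 4) (nat_lit 0x184000004c60200cc000002588100990000012c00800780080060002003e000800b683))))) 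
(.nd (nat_lit 10) (.nd (nat_lit 18) 
(.lf (nat_lit 5772444040) (dlOf (nat_lit 1) (nat_lit 0x48008000400200020008091003))) 
(.lf (nat_lit 5772181896) (dlOf (nat_lit 1) (nat_lit 0xa0018091001)))) 
(.lf (nat_lit 4227898760) (dlOf (nat_lit 1) (nat_lit 0xa8008003c002000c000800c903))))))))) 
(.nd (nat_lit 18) (.nd (nat_lit 19) (.nd (nat_lit 27) (.nd (nat_lit 6) (.nd (nat_lit 7) 
(.nd (nat_lit 20) (.nd (nat_lit 11) (.nd (nat_lit 22) 
(.lf (nat_lit 6174179336) (dlOf (nat_lit 1) (nat_lit 0x800400020008080002))) 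
(.lf (nat_lit 21135368) (dlOf (nat_lit 2) (nat_lit 0x78000001d204006000200060008a10482)))) 
(.lf (nat_lit 169992) (dlOf (nat_lit 1) (nat_lit 0x2c0020016000800a602)))) (.nd (nat_lit 10) 
(.lf (nat_lit 15892488) (dlOf (nat_lit 1) (nat_lit 0x20008840281))) 
(.lf (nat_lit 51545096) (dlOf (nat_lit 1) (nat_lit 0x20019512881))))) (.nd (nat_lit 8) 
(.nd (nat_lit 20) (.nd (nat_lit 26) 
(.lf (nat_lit 5100437640) (dlOf (nat_lit 1) (nat_lit 0x20018080e01))) 
(.lf (nat_lit 4899111048) (dlOf (nat_lit 1) (nat_lit 0x400400020008070e02)))) 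
(.lf (nat_lit 9601160) (dlOf (nat_lit 2) (nat_lit 0x6ed218000d4080010008003c00200480008570e03)))) 
(.nd (nat_lit 23) (.lf (nat_lit 4362240392) (dlOf (nat_lit 1) (nat_lit 0x20028015c01))) 
(.lf (nat_lit 8552840) (dlOf (nat_lit 1) (nat_lit 0x800200020008511002)))))) (.nd (nat_lit 8) 
(.nd (nat_lit 26) (.nd (nat_lit 7) (.nd (nat_lit 11) 
(.lf (nat_lit 4026695752) (dlOf (nat_lit 1) (nat_lit 0x50008000c002001c0008030f03))) 
(.lf (nat_lit 170056) (dlOf (nat_lit 2) (nat_lit 0x3835c004400400080040014001800a682)))) 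
(.lf (nat_lit 20091592) (dlOf (nat_lit 1) (nat_lit 0x8002000200089d8c82)))) (.nd (nat_lit 7) 
(.nd (nat_lit 9) 
(.lf (nat_lit 3288498248) (dlOf (nat_lit 1) (nat_lit 0x50008000c002001c0008030f03))) 
(.lf (nat_lit 4362240584) (dlOf (nat_lit 2) (nat_lit 0x7203200012018018d00)))) 
(.lf (nat_lit 1409453256) (dlOf (nat_lit 1) (nat_lit 0x20028006381))))) (.nd (nat_lit 9) 
(.nd (nat_lit 20) (.lf (nat_lit 1342341448) (dlOf (nat_lit 1) (nat_lit 0x20028014c01))) 
(.lf (nat_lit 3309896) (dlOf (nat_lit 1) (nat_lit 0x400400020008200602)))) (.nd (nat_lit 7) 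
(.lf (nat_lit 6241291080) (dlOf (nat_lit 1) (nat_lit 0x4800280d5c01))) 
(.lf (nat_lit 1610777544) (dlOf (nat_lit 9) (nat_lit 0x90320001816800040b2001804b000602100691028002819000140b400060590002025800381080348414014c0b401a4002000a05a00d1f01000f02c8000812c034740800180b2000c04b00d1c02000302d00676c080400104030760400a000400de0018092882))))))) 
(.nd (nat_lit 30) (.nd (nat_lit 6) (.nd (nat_lit 9) (.nd (nat_lit 21) (.nd (nat_lit 26) 
(.lf (nat_lit 5234655240) (dlOf (nat_lit 1) (nat_lit 0x20018070001))) 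
(.lf (nat_lit 4496457736) (dlOf (nat_lit 1) (nat_lit 0x400400020008080002)))) 
(.lf (nat_lit 1008893960) (dlOf (nat_lit 1) (nat_lit 0x8008000400200020008fc0003)))) 
(.nd (nat_lit 8) 
(.lf (nat_lit 2818736648) (dlOf (nat_lit 4) (nat_lit 0x6016000200a800180380010018000400400080000004b43000180180020404000400c0010102000400280e8001))) 
(.lf (nat_lit 939689736) (dlOf (nat_lit 3) (nat_lit 0x1c01d000900e0000601000e80740002804001400400080008143b82))))) 
(.nd (nat_lit 8) (.nd (nat_lit 9) 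
(.lf (nat_lit 5301765192) (dlOf (nat_lit 1) (nat_lit 0x8008000400200020008092883))) 
(.lf (nat_lit 201491016) (dlOf (nat_lit 2) (nat_lit 0x4094000440200020018018d01)))) 
(.nd (nat_lit 7) (.lf (nat_lit 469926216) (dlOf (nat_lit 1) (nat_lit 0x20028014c01))) 
(.lf (nat_lit 5301765064) (dlOf (nat_lit 2) (nat_lit 0x100440123a04000800200020008092882)))))) 
(.nd (nat_lit 26) (.nd (nat_lit 7) (.nd (nat_lit 28) 
(.lf (nat_lit 6039961608) (dlOf (nat_lit 1) (nat_lit 0x20018070001))) 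
(.lf (nat_lit 1476558856) (dlOf (nat_lit 1) (nat_lit 0x440008050001)))) (.nd (nat_lit 9) 
(.lf (nat_lit 6308397192) (dlOf (nat_lit 2) (nat_lit 0x21803a009201a001a00c0024805c0124028000320a00120018070e01))) 
(.lf (nat_lit 5771528840) (dlOf (nat_lit 1) (nat_lit 0x60028005481))))) (.nd (nat_lit 8) 
(.nd (nat_lit 10) (.lf (nat_lit 5570199560) (dlOf (nat_lit 1) (nat_lit 0x800400020008080002))) 
(.lf (nat_lit 3959587848) (dlOf (nat_lit 1) (nat_lit 0x400200020008112882)))) (.nd (nat_lit 7) 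
(.lf (nat_lit 2080539912) (dlOf (nat_lit 1) (nat_lit 0x40028092f81))) 
(.lf (nat_lit 4228022664) (dlOf (nat_lit 2) (nat_lit 0x1603200034018015c80)))))))) 
(.nd (nat_lit 20) (.nd (nat_lit 26) (.nd (nat_lit 24) (.nd (nat_lit 21) (.nd (nat_lit 27) 
(.lf (nat_lit 805994504) (dlOf (nat_lit 1) (nat_lit 0xa000200180008210002))) 
(.lf (nat_lit 134905864) (dlOf (nat_lit 5) (nat_lit 0x30178001f40801a011800540180007c04000204a0003a81000e0178001cc0800b800800c4002004800080d0483)))) 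
(.nd (nat_lit 6) (.lf (nat_lit 36342152) (dlOf (nat_lit 1) (nat_lit 0xc00200020009074e82))) 
(.lf (nat_lit 3492446280) (dlOf (nat_lit 1) (nat_lit 0x2380080184002008400080d0c83))))) 
(.nd (nat_lit 6) (.nd (nat_lit 22) 
(.lf (nat_lit 59408392) (dlOf (nat_lit 2) (nat_lit 0x18e82014fa02002400097f0001))) 
(.lf (nat_lit 21659656) (dlOf (nat_lit 1) (nat_lit 0x80018a60a01)))) 
(.lf (nat_lit 55215304) (dlOf (nat_lit 1) (nat_lit 0x3c004001000096d2d02))))) (.nd (nat_lit 6) 
(.nd (nat_lit 27) (.nd (nat_lit 28) 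
(.lf (nat_lit 1678409736) (dlOf (nat_lit 1) (nat_lit 0xa000200180008210002))) 
(.lf (nat_lit 3557457928) (dlOf (nat_lit 1) (nat_lit 0x400200020008210002)))) 
(.lf (nat_lit 202014728) (dlOf (nat_lit 5) (nat_lit 0x30178001f40801a011800540180007c04000204a0003a81000e0178001cc0800b800800c4002004800080d0483)))) 
(.nd (nat_lit 21) (.nd (nat_lit 27) 
(.lf (nat_lit 4362764360) (dlOf (nat_lit 1) (nat_lit 0x100080004002002600080f1883))) 
(.lf (nat_lit 4228546632) (dlOf (nat_lit 2) (nat_lit 0x100c8000200400a8004000200080f1482)))) 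
(.lf (nat_lit 2754248776) (dlOf (nat_lit 1) (nat_lit 0x2380080184002008400080d0c83)))))) 
(.nd (nat_lit 6) (.nd (nat_lit 21) (.nd (nat_lit 23) (.nd (nat_lit 26) 
(.lf (nat_lit 1880784904) (dlOf (nat_lit 1) (nat_lit 0x400400020008b90002))) (.nd (nat_lit 27) 
(.lf (nat_lit 4095377416) (dlOf (nat_lit 1) (nat_lit 0x22000280a0001))) 
(.lf (nat_lit 471498760) (dlOf (nat_lit 1) (nat_lit 0x400400020008310582))))) (.nd (nat_lit 7) 
(.lf (nat_lit 31096840) (dlOf (nat_lit 1) (nat_lit 0x8e0028e70001))) 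
(.lf (nat_lit 60457096) (dlOf (nat_lit 1) (nat_lit 0x20029870f01))))) (.nd (nat_lit 9) 
(.nd (nat_lit 22) 
(.lf (nat_lit 3833864) (dlOf (nat_lit 2) (nat_lit 0x40a2000204e002a9208001000200100008230002))) 
(.lf (nat_lit 24805384) (dlOf (nat_lit 1) (nat_lit 0x2800200120008bb0002)))) 
(.lf (nat_lit 8029704) (dlOf (nat_lit 1) (nat_lit 0x80018513681))))) (.nd (nat_lit 21) 
(.nd (nat_lit 9) (.lf (nat_lit 1008369736) (dlOf (nat_lit 1) (nat_lit 0x80028b70601))) 
(.nd (nat_lit 26) 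
(.lf (nat_lit 3491398216) (dlOf (nat_lit 1) (nat_lit 0x18008001000200040008091103))) 
(.lf (nat_lit 2753200712) (dlOf (nat_lit 1) (nat_lit 0x18008001000200040008091103))))) 
(.nd (nat_lit 7) (.lf (nat_lit 20616520) (dlOf (nat_lit 1) (nat_lit 0x200289d9901))) 
(.nd (nat_lit 8) 
(.lf (nat_lit 58361032) (dlOf (nat_lit 2) (nat_lit 0x89650000000403c4002001e00097e2d02))) 
(.lf (nat_lit 49973704) (dlOf (nat_lit 1) (nat_lit 0x60004000200094c4e82))))))))) (.nd (nat_lit 6) 
(.nd (nat_lit 28) (.nd (nat_lit 7) (.nd (nat_lit 27) (.nd (nat_lit 23) (.nd (nat_lit 30) 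
(.nd (nat_lit 25) 
(.lf (nat_lit 4295393288) (dlOf (nat_lit 2) (nat_lit 0x3801400000040020002001a00081c0002))) 
(.lf (nat_lit 33980424) (dlOf (nat_lit 1) (nat_lit 0x400400020008f90002)))) (.nd (nat_lit 26) 
(.lf (nat_lit 3221651464) (dlOf (nat_lit 2) (nat_lit 0xa046004d6018170000))) 
(.lf (nat_lit 1678147592) (dlOf (nat_lit 1) (nat_lit 0x130004000400081a0002))))) (.nd (nat_lit 19) 
(.lf (nat_lit 27688968) (dlOf (nat_lit 1) (nat_lit 0x400400020008d10282))) 
(.lf (nat_lit 9338888) (dlOf (nat_lit 1) (nat_lit 0x20028540281))))) (.nd (nat_lit 9) 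
(.nd (nat_lit 26) (.nd (nat_lit 29) 
(.lf (nat_lit 4429611016) (dlOf (nat_lit 2) (nat_lit 0x3801400000040020002001a00081c0002))) 
(.lf (nat_lit 2818998280) (dlOf (nat_lit 1) (nat_lit 0x10008015c00200420008150003)))) 
(.lf (nat_lit 3959848968) (dlOf (nat_lit 2) (nat_lit 0xa04600207018170000)))) (.nd (nat_lit 26) 
(.lf (nat_lit 134644232) (dlOf (nat_lit 2) (nat_lit 0xf6031000a1818090d80))) 
(.lf (nat_lit 201753096) (dlOf (nat_lit 2) (nat_lit 0x6c03100066818090d80)))))) (.nd (nat_lit 20) 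
(.nd (nat_lit 27) (.nd (nat_lit 8) 
(.lf (nat_lit 40273032) (dlOf (nat_lit 1) (nat_lit 0x780080010002000200091f2b03))) 
(.lf (nat_lit 3221651848) (dlOf (nat_lit 4) (nat_lit 0xb4045004058100160228020280802a81140101204000800400020008170782)))) 
(.nd (nat_lit 11) 
(.lf (nat_lit 3959849352) (dlOf (nat_lit 5) (nat_lit 0x460230022011401c6208012c08c005c0450071802000e0230038bc0802c011801c5c04000c00400040008170782))) 
(.lf (nat_lit 1745258888) (dlOf (nat_lit 1) (nat_lit 0x400280e4e81))))) (.nd (nat_lit 8) 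
(.nd (nat_lit 10) (.lf (nat_lit 11960456) (dlOf (nat_lit 1) (nat_lit 0x4002000200086c0102))) 
(.lf (nat_lit 50234504) (dlOf (nat_lit 1) (nat_lit 0x18004000800094c2b02)))) (.nd (nat_lit 9) 
(.lf (nat_lit 8290696) (dlOf (nat_lit 1) (nat_lit 0x8008000800200020008511003))) 
(.lf (nat_lit 46041992) (dlOf (nat_lit 1) (nat_lit 0x400400020009385c02))))))) (.nd (nat_lit 20) 
(.nd (nat_lit 8) (.nd (nat_lit 27) (.nd (nat_lit 29) 
(.lf (nat_lit 4563828744) (dlOf (nat_lit 3) (nat_lit 0x820188037780802e80c40197e04008c004003800080f0a02))) 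
(.lf (nat_lit 805732360) (dlOf (nat_lit 1) (nat_lit 0x130004000400081a0002)))) (.nd (nat_lit 21) 
(.lf (nat_lit 4698046472) (dlOf (nat_lit 3) (nat_lit 0x820188024e80802e80c400e2a04008c004003800080f0a02))) 
(.lf (nat_lit 472285192) (dlOf (nat_lit 1) (nat_lit 0x20018980001))))) (.nd (nat_lit 7) 
(.nd (nat_lit 9) (.lf (nat_lit 805732616) (dlOf (nat_lit 2) (nat_lit 0x2002d0004e8181a0480))) 
(.lf (nat_lit 4094593800) (dlOf (nat_lit 2) (nat_lit 0x100000005c0400a0002002a0008055b02)))) 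
(.lf (nat_lit 805732744) (dlOf (nat_lit 3) (nat_lit 0x1e02b0002804c010160800340ac0008013004048281a0780))))) 
(.nd (nat_lit 19) (.nd (nat_lit 8) (.nd (nat_lit 11) 
(.lf (nat_lit 1343651848) (dlOf (nat_lit 7) (nat_lit 0x1a09d0002047000a81f80174a0c001c11c00b9502000608e005b881001004e80058238007c0fc00b4506001208e0059f81001504e800000080f280080170002000e00082d0283))) 
(.lf (nat_lit 3493234696) (dlOf (nat_lit 3) (nat_lit 0x18074000a80400140400004e02000400180f4701)))) 
(.lf (nat_lit 3493234440) (dlOf (nat_lit 2) (nat_lit 0x6c05c0000c8180f3b80)))) (.nd (nat_lit 21) 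
(.nd (nat_lit 26) (.lf (nat_lit 5773361160) (dlOf (nat_lit 1) (nat_lit 0x1000080c0001))) 
(.lf (nat_lit 6377340936) (dlOf (nat_lit 1) (nat_lit 0x1000080c0001)))) 
(.lf (nat_lit 473858056) (dlOf (nat_lit 1) (nat_lit 0x8008004c002000e0008fc0003))))))) 
(.nd (nat_lit 9) (.nd (nat_lit 7) (.nd (nat_lit 8) (.nd (nat_lit 10) 
(.lf (nat_lit 47087688) (dlOf (nat_lit 2) (nat_lit 0x289860004702002c00293a0601))) 
(.nd (nat_lit 19) (.lf (nat_lit 38175816) (dlOf (nat_lit 1) (nat_lit 0x20029132881))) 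
(.lf (nat_lit 5772313672) (dlOf (nat_lit 1) (nat_lit 0x8008000400200020008092883))))) 
(.nd (nat_lit 10) (.lf (nat_lit 11960648) (dlOf (nat_lit 1) (nat_lit 0x4004000200086c0602))) 
(.lf (nat_lit 20354376) (dlOf (nat_lit 1) (nat_lit 0x1600080098002005000089d9903))))) 
(.nd (nat_lit 26) (.nd (nat_lit 8) 
(.lf (nat_lit 5773361352) (dlOf (nat_lit 1) (nat_lit 0x4002000200080c1782))) (.nd (nat_lit 28) 
(.lf (nat_lit 3221651912) (dlOf (nat_lit 11) (nat_lit 0x5008c0003b0200cc00a0000f8100160050000680802e0028000320401300140001402018200a0000981003b02300000c0801a0118000040400ec08c000010200680460041022800000100008008003c002003a0008170983))) 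
(.lf (nat_lit 805732808) (dlOf (nat_lit 20) (nat_lit 0x9004c00200140002f04005e05600300098000b0100068048000400400bc024000e00a0000f82000200900007408018004800200140001a04005e012000800500006410001815400c8024001000a0000b03003000900040028000280800b0024001000a0000982002b009000048080088048000200400c00240000f02006001200007010017009000030080180048000120400c40ac0000302005e0560000101003602b0017004c00000080078002002600081a0982))))) 
(.nd (nat_lit 27) 
(.lf (nat_lit 1678148040) (dlOf (nat_lit 20) (nat_lit 0x9004c00200140002f04005e05600300098000b0100010048000400400340240001d02005e012000700500007010018004800200140001a04005e012000800500006410001815400c8024001000a0000b03003000900040028000280800b0024001000a0000982002b009000048080088048000200400c00240000f02006001200006810017009000030080180048000120400c40ac0000302005e0560000101003602b0017004c00000080078002002600081a0982))) 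
(.lf (nat_lit 3959849416) (dlOf (nat_lit 11) (nat_lit 0x5008c0003b0200cc00a0000e0100160050000680802e0028000320401300140001402018200a0000981003b02300000c0801a0118000040400ec08c000010200680460041022800000100008008003c002003a0008170983)))))) 
(.nd (nat_lit 11) (.nd (nat_lit 19) (.nd (nat_lit 26) 
(.lf (nat_lit 134644296) (dlOf (nat_lit 8) (nat_lit 0x4c409401940460104017800098180a2812803d805e0002504026804a00f30178000901007600bc000460401d805e0001e02007c02f0000d81011d0178000000804500080284002019e0008091103))) 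
(.lf (nat_lit 201753160) (dlOf (nat_lit 8) (nat_lit 0x4c409401940460104017800098180a2812803d805e0002504026804a00f30178000901007600bc000460401d805e0001e02007c02f0000d81011d0178000000804500080284002019e0008091103)))) 
(.nd (nat_lit 21) 
(.lf (nat_lit 2752414280) (dlOf (nat_lit 5) (nat_lit 0x7015900fa0ab8000901001c056403cc2ae0002004006a1590000f8101210ab800074080268008000400200020008018d03))) 
(.lf (nat_lit 3048008) (dlOf (nat_lit 1) (nat_lit 0x8008000400200020008201103))))) (.nd (nat_lit 7) 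
(.nd (nat_lit 20) (.nd (nat_lit 21) 
(.lf (nat_lit 38177352) (dlOf (nat_lit 1) (nat_lit 0x400400020009135202))) 
(.lf (nat_lit 1344703048) (dlOf (nat_lit 1) (nat_lit 0x400200020008985202)))) 
(.lf (nat_lit 51808840) (dlOf (nat_lit 1) (nat_lit 0x400400020009515202)))) (.nd (nat_lit 10) 
(.nd (nat_lit 12) (.lf (nat_lit 4094593992) (dlOf (nat_lit 1) (nat_lit 0x400200020008055d82))) 
(.lf (nat_lit 2416352200) (dlOf (nat_lit 1) (nat_lit 0x600180fbe81)))) 
(.lf (nat_lit 8294344) (dlOf (nat_lit 1) (nat_lit 0x1a0018517a81)))))))))) (.nd (nat_lit 6) 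
(.nd (nat_lit 17) (.nd (nat_lit 18) (.nd (nat_lit 28) (.nd (nat_lit 10) (.nd (nat_lit 19) 
(.nd (nat_lit 8) (.nd (nat_lit 9) (.nd (nat_lit 20) 
(.lf (nat_lit 14712856) (dlOf (nat_lit 2) (nat_lit 0x35b2e0018d96800c670800733050031980800b8c44003d418004400200120008770082))) 
(.lf (nat_lit 2752544792) (dlOf (nat_lit 2) (nat_lit 0x382480007c018020480)))) 
(.lf (nat_lit 2348849688) (dlOf (nat_lit 1) (nat_lit 0xd0002800b281)))) (.nd (nat_lit 7) 
(.nd (nat_lit 11) (.lf (nat_lit 37144) (dlOf (nat_lit 1) (nat_lit 0x940018008081))) 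
(.lf (nat_lit 4362111256) (dlOf (nat_lit 1) (nat_lit 0x780080038002000c0008004b83)))) 
(.nd (nat_lit 9) (.lf (nat_lit 5368744344) (dlOf (nat_lit 1) (nat_lit 0xc00200140008004e82))) 
(.lf (nat_lit 39832) (dlOf (nat_lit 2) (nat_lit 0x52a880151808001800800100020002000800bc83)))))) 
(.nd (nat_lit 20) (.nd (nat_lit 21) (.nd (nat_lit 22) 
(.lf (nat_lit 1678278680) (dlOf (nat_lit 1) (nat_lit 0xc80080038002000200081d0403))) 
(.lf (nat_lit 2756214808) (dlOf (nat_lit 1) (nat_lit 0x400200020008220882)))) 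
(.lf (nat_lit 11042840) (dlOf (nat_lit 2) (nat_lit 0x7f84b00125018660480)))) (.nd (nat_lit 21) 
(.nd (nat_lit 24) (.lf (nat_lit 1605656) (dlOf (nat_lit 1) (nat_lit 0x1200018100481))) 
(.lf (nat_lit 18382872) (dlOf (nat_lit 1) (nat_lit 0xe0028930481)))) (.nd (nat_lit 7) 
(.lf (nat_lit 24674328) (dlOf (nat_lit 2) (nat_lit 0x8da440032d12000140400100018bb0481))) 
(.lf (nat_lit 37259672) (dlOf (nat_lit 1) (nat_lit 0xc00090d4e81))))))) (.nd (nat_lit 32) 
(.nd (nat_lit 7) (.nd (nat_lit 9) 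
(.lf (nat_lit 1275104280) (dlOf (nat_lit 1) (nat_lit 0xe0008006001))) 
(.lf (nat_lit 2684392984) (dlOf (nat_lit 2) (nat_lit 0x800e005d2018009c00)))) 
(.lf (nat_lit 3422590104) (dlOf (nat_lit 1) (nat_lit 0x400400020018009502)))) (.nd (nat_lit 8) 
(.nd (nat_lit 9) (.nd (nat_lit 11) 
(.lf (nat_lit 5502960664) (dlOf (nat_lit 2) (nat_lit 0x2e013003f7818002880))) 
(.lf (nat_lit 5368744984) (dlOf (nat_lit 1) (nat_lit 0x4004000c0008006002)))) 
(.lf (nat_lit 4966090264) (dlOf (nat_lit 1) (nat_lit 0x400400020008003702)))) 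
(.lf (nat_lit 5502960920) (dlOf (nat_lit 2) (nat_lit 0x62009000048080270008018c00200100008003083)))))) 
(.nd (nat_lit 19) (.nd (nat_lit 7) (.nd (nat_lit 9) (.nd (nat_lit 27) 
(.lf (nat_lit 6710922264) (dlOf (nat_lit 1) (nat_lit 0x260018006001))) (.nd (nat_lit 32) 
(.lf (nat_lit 402689048) (dlOf (nat_lit 1) (nat_lit 0x3b8002009a0008006002))) 
(.lf (nat_lit 4697656344) (dlOf (nat_lit 1) (nat_lit 0x16c00200480008006002))))) (.nd (nat_lit 8) 
(.lf (nat_lit 4095772184) (dlOf (nat_lit 1) (nat_lit 0x4004000200080e3702))) 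
(.lf (nat_lit 3691026200) (dlOf (nat_lit 1) (nat_lit 0x200080010002000c000800a003))))) 
(.nd (nat_lit 8) (.nd (nat_lit 11) 
(.lf (nat_lit 4160787608) (dlOf (nat_lit 1) (nat_lit 0x800200100008009502))) 
(.lf (nat_lit 2483063960) (dlOf (nat_lit 1) (nat_lit 0x28008000800200100008006203)))) 
(.lf (nat_lit 2550172056) (dlOf (nat_lit 1) (nat_lit 0x57800804cc002018c0008004e83))))) 
(.nd (nat_lit 7) (.nd (nat_lit 31) (.nd (nat_lit 8) (.nd (nat_lit 9) 
(.lf (nat_lit 805863448) (dlOf (nat_lit 2) (nat_lit 0x15809800280350000e0281d0480))) 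
(.lf (nat_lit 1345880600) (dlOf (nat_lit 1) (nat_lit 0xc00400020008e07e82)))) 
(.lf (nat_lit 1476952344) (dlOf (nat_lit 2) (nat_lit 0x80300009804001000200040008317502)))) 
(.nd (nat_lit 22) (.lf (nat_lit 3557326872) (dlOf (nat_lit 2) (nat_lit 0x9c03f000e70181c0480))) 
(.lf (nat_lit 3494412312) (dlOf (nat_lit 1) (nat_lit 0x400200020008220882))))) (.nd (nat_lit 8) 
(.nd (nat_lit 26) 
(.lf (nat_lit 1342734488) (dlOf (nat_lit 2) (nat_lit 0x1044c001220e00120d18001181800280080008002003200080c0183))) 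
(.lf (nat_lit 470319256) (dlOf (nat_lit 2) (nat_lit 0x1044c001220c00120d98001181800280080008002003200080c0183)))) 
(.lf (nat_lit 4095246744) (dlOf (nat_lit 1) (nat_lit 0x60018086481))))))) (.nd (nat_lit 26) 
(.nd (nat_lit 20) (.nd (nat_lit 29) (.nd (nat_lit 8) (.nd (nat_lit 19) (.nd (nat_lit 21) 
(.lf (nat_lit 3355738136) (dlOf (nat_lit 2) (nat_lit 0xf00900000008011800800bc002001200080e0503))) 
(.lf (nat_lit 6586392) (dlOf (nat_lit 1) (nat_lit 0x50008001400200300008430903)))) 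
(.lf (nat_lit 15499288) (dlOf (nat_lit 1) (nat_lit 0x28008029800200900008800483)))) 
(.nd (nat_lit 7) (.lf (nat_lit 5772182808) (dlOf (nat_lit 1) (nat_lit 0x20018093081))) 
(.lf (nat_lit 36473240) (dlOf (nat_lit 1) (nat_lit 0x20019074e81))))) (.nd (nat_lit 27) 
(.nd (nat_lit 8) (.nd (nat_lit 28) 
(.lf (nat_lit 3758391320) (dlOf (nat_lit 2) (nat_lit 0x14403d000ae818170080))) 
(.lf (nat_lit 1879343128) (dlOf (nat_lit 1) (nat_lit 0x1c00180e0a01)))) 
(.lf (nat_lit 537166104) (dlOf (nat_lit 2) (nat_lit 0x817c0003c0400c8004003e0008047f02)))) 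
(.nd (nat_lit 28) 
(.lf (nat_lit 671383576) (dlOf (nat_lit 2) (nat_lit 0x17404a002402200000028170880))) 
(.lf (nat_lit 3087302680) (dlOf (nat_lit 1) (nat_lit 0x400400020018170882)))))) (.nd (nat_lit 19) 
(.nd (nat_lit 21) (.nd (nat_lit 22) 
(.lf (nat_lit 26509336) (dlOf (nat_lit 2) (nat_lit 0x166b8300644ea0064847401f405e001fc0800040008c50081))) 
(.lf (nat_lit 30703640) (dlOf (nat_lit 1) (nat_lit 0x20028e40901)))) (.nd (nat_lit 9) 
(.lf (nat_lit 7634968) (dlOf (nat_lit 1) (nat_lit 0x500080014002003000084c0903))) 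
(.lf (nat_lit 3441176) (dlOf (nat_lit 2) (nat_lit 0x99fc00000004008800200040008200d82))))) 
(.nd (nat_lit 9) (.nd (nat_lit 21) 
(.lf (nat_lit 18645016) (dlOf (nat_lit 4) (nat_lit 0x50d000005f02000c6800002f0100584388000cc0800500080054002000a0008960403))) 
(.lf (nat_lit 29130776) (dlOf (nat_lit 1) (nat_lit 0x20018dc0a01)))) 
(.lf (nat_lit 8159768) (dlOf (nat_lit 1) (nat_lit 0x20008002c002000c0008511483)))))) 
(.nd (nat_lit 27) (.nd (nat_lit 29) (.nd (nat_lit 9) (.nd (nat_lit 28) 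
(.lf (nat_lit 67403800) (dlOf (nat_lit 2) (nat_lit 0x2404b8007f0080020008003c002002e00080f0083))) 
(.lf (nat_lit 2483322904) (dlOf (nat_lit 3) (nat_lit 0x2602a00b5a810013015005a9c0800680080018002001800080a0903)))) 
(.lf (nat_lit 3288629784) (dlOf (nat_lit 1) (nat_lit 0x20028090d81)))) (.nd (nat_lit 28) 
(.nd (nat_lit 30) 
(.lf (nat_lit 604274712) (dlOf (nat_lit 5) (nat_lit 0x601800060088001803c000c01c0004108000601800050088001803c000c01c0004008000a01800090088002803c001801c0003e08000601800050088001803c000c01c0003d0800500028120481))) 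
(.lf (nat_lit 3825500184) (dlOf (nat_lit 1) (nat_lit 0x400400020018170882)))) 
(.lf (nat_lit 3020193816) (dlOf (nat_lit 3) (nat_lit 0x29c07a04740300240015811b009008b40440292013000ac06011d018006c00ac030c04801ac022000ab848150080))))) 
(.nd (nat_lit 19) (.nd (nat_lit 30) (.nd (nat_lit 28) 
(.lf (nat_lit 2349105176) (dlOf (nat_lit 3) (nat_lit 0x2602a00aa88100130150055040800680080018002001800080a0903))) 
(.lf (nat_lit 1006927896) (dlOf (nat_lit 1) (nat_lit 0x1c00180e0a01)))) (.nd (nat_lit 7) 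
(.lf (nat_lit 1543798808) (dlOf (nat_lit 2) (nat_lit 0x17404a002402200000028170880))) 
(.lf (nat_lit 5838766488) (dlOf (nat_lit 1) (nat_lit 0x400181b0781))))) (.nd (nat_lit 9) 
(.lf (nat_lit 471629848) (dlOf (nat_lit 29) (nat_lit 0x110470001ac08005025402f40480003304003e024000180100290120000bc080360274038811c0002a04010608e000148100cb04e806e0238038c0fc000402c0001204007a04e80230238000460802d413a016e08e00cf03f000088180570274029c11c019807e000108300e5047000701f80004008029c13a012808e00c003f00007c1800302200003c0403b811c000180201d608e0000b8100730470000540804d8238000280403bc11c000120201dc08e000088100ef04700003c080760238000180403e411c0000b0201e408e000050100f3047000024080780238000060403cc11c0000202020a08e0000081003f04e800b82380000008099000400780018360402))) 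
(.lf (nat_lit 202146328) (dlOf (nat_lit 1) (nat_lit 0x80080004002000200081b0d83)))))))) 
(.nd (nat_lit 19) (.nd (nat_lit 18) (.nd (nat_lit 26) (.nd (nat_lit 20) (.nd (nat_lit 21) 
(.nd (nat_lit 27) (.nd (nat_lit 28) 
(.lf (nat_lit 5368872984) (dlOf (nat_lit 4) (nat_lit 0x10015001500a0000804c002c022003e01000040070004001401aa41c0020028005e013001000880050040000c01c0012005006a886000200980353c080130008002c00200300008060a03))) 
(.lf (nat_lit 2952953880) (dlOf (nat_lit 2) (nat_lit 0x184000000ac018030080)))) 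
(.lf (nat_lit 1476558872) (dlOf (nat_lit 4) (nat_lit 0x6c807e0015d02014203f000ae01003c01b00051c0806b00080284002000c0008050083)))) 
(.nd (nat_lit 7) (.lf (nat_lit 23232536) (dlOf (nat_lit 1) (nat_lit 0x40008b70501))) 
(.lf (nat_lit 44204184) (dlOf (nat_lit 1) (nat_lit 0x4002010a00092d1182))))) (.nd (nat_lit 22) 
(.nd (nat_lit 7) (.lf (nat_lit 51545112) (dlOf (nat_lit 1) (nat_lit 0x20019512881))) 
(.lf (nat_lit 9601176) (dlOf (nat_lit 1) (nat_lit 0x20018571181)))) (.nd (nat_lit 23) 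
(.lf (nat_lit 22183960) (dlOf (nat_lit 1) (nat_lit 0x6c0018aa0a81))) 
(.lf (nat_lit 47349784) (dlOf (nat_lit 1) (nat_lit 0x400193d0481)))))) (.nd (nat_lit 32) 
(.nd (nat_lit 7) (.nd (nat_lit 27) 
(.lf (nat_lit 604143640) (dlOf (nat_lit 1) (nat_lit 0x2c00080050002000c0008030083))) 
(.lf (nat_lit 3691151384) (dlOf (nat_lit 3) (nat_lit 0x1ae00501130000002ba0802440000015c0200040018050081)))) 
(.nd (nat_lit 8) (.lf (nat_lit 1677887640) (dlOf (nat_lit 1) (nat_lit 0x400200020008114802))) 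
(.lf (nat_lit 4095903128) (dlOf (nat_lit 1) (nat_lit 0x4004000200080e3602))))) (.nd (nat_lit 8) 
(.nd (nat_lit 27) 
(.lf (nat_lit 5167546392) (dlOf (nat_lit 3) (nat_lit 0x50140004806801a80080018050001201a000100c0034fc1800200080018002000c00080a0a03))) 
(.lf (nat_lit 4764893208) (dlOf (nat_lit 1) (nat_lit 0xe000400020018050482)))) (.nd (nat_lit 7) 
(.lf (nat_lit 6241291032) (dlOf (nat_lit 1) (nat_lit 0x800280d5b81))) 
(.lf (nat_lit 5704417688) (dlOf (nat_lit 3) (nat_lit 0x480640182204002803000a7b0200160028076481))))))) 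
(.nd (nat_lit 20) (.nd (nat_lit 7) (.nd (nat_lit 8) (.nd (nat_lit 27) 
(.lf (nat_lit 4295393304) (dlOf (nat_lit 2) (nat_lit 0x100b002568080008008000c002001a00081c0a03))) 
(.lf (nat_lit 4429611032) (dlOf (nat_lit 2) (nat_lit 0x100a8037f8080008008000c002001a00081c0a03)))) 
(.lf (nat_lit 604406040) (dlOf (nat_lit 1) (nat_lit 0x48008000800200040008200a83)))) 
(.nd (nat_lit 29) (.nd (nat_lit 22) 
(.lf (nat_lit 3221651864) (dlOf (nat_lit 2) (nat_lit 0x14604600a20228021ec1001100080024002002e0008170783))) 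
(.lf (nat_lit 21397912) (dlOf (nat_lit 2) (nat_lit 0x2095003044080058008002800200100008a36483)))) 
(.nd (nat_lit 8) (.lf (nat_lit 1611038872) (dlOf (nat_lit 1) (nat_lit 0x400280c1181))) 
(.lf (nat_lit 805732760) (dlOf (nat_lit 1) (nat_lit 0x60008009c002001a00081a0783)))))) 
(.nd (nat_lit 23) (.nd (nat_lit 24) (.nd (nat_lit 26) 
(.lf (nat_lit 1343651864) (dlOf (nat_lit 29) (nat_lit 0x110470001ac08005025402f40540003304003e02a000180100290150000bc080360274038811c0002a04010608e000148100cb04e806e0238038c0fc00040310001204007a04e80230238000460802d413a016e08e00cf03f000088180570274029c11c019807e000108300e5047000701f80004008029c13a012808e00c003f00007c1800302200003c0401cc11c0001802013608e0000b8100ee047000054080758238000280403bc11c000120201dc08e000088100ef04700003c080760238000180403e411c0000b0201e408e000050100f3047000024080780238000060403cc11c0000202020a08e0000081003f04e800b823800000080990004007800182d0402))) 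
(.lf (nat_lit 471236632) (dlOf (nat_lit 2) (nat_lit 0x18095000180182d0400)))) 
(.lf (nat_lit 51806232) (dlOf (nat_lit 1) (nat_lit 0x180029510001)))) (.nd (nat_lit 21) 
(.lf (nat_lit 26640408) (dlOf (nat_lit 1) (nat_lit 0x20028c50081))) 
(.lf (nat_lit 62291992) (dlOf (nat_lit 1) (nat_lit 0x400400020019990182))))))) (.nd (nat_lit 20) 
(.nd (nat_lit 29) (.nd (nat_lit 22) (.nd (nat_lit 26) (.nd (nat_lit 28) 
(.lf (nat_lit 3221913624) (dlOf (nat_lit 2) (nat_lit 0x80088000480801b80080064002009000081b0383))) 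
(.lf (nat_lit 1342865432) (dlOf (nat_lit 2) (nat_lit 0x8664000280400f4004002a00080f0482)))) 
(.lf (nat_lit 4362764312) (dlOf (nat_lit 1) (nat_lit 0x168004004c00080f0a82)))) (.nd (nat_lit 21) 
(.lf (nat_lit 21659672) (dlOf (nat_lit 1) (nat_lit 0x40018a60a01))) 
(.lf (nat_lit 6979608) (dlOf (nat_lit 2) (nat_lit 0x197f800060040010004002000184a0402))))) 
(.nd (nat_lit 9) (.nd (nat_lit 26) 
(.lf (nat_lit 3893002264) (dlOf (nat_lit 2) (nat_lit 0x80b000636040090004000c00082c0582))) 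
(.nd (nat_lit 28) 
(.lf (nat_lit 3960111128) (dlOf (nat_lit 2) (nat_lit 0x80088000480801b80080064002009000081b0383))) 
(.lf (nat_lit 4228546584) (dlOf (nat_lit 1) (nat_lit 0x168004004c00080f0a82))))) (.nd (nat_lit 18) 
(.lf (nat_lit 6378127896) (dlOf (nat_lit 1) (nat_lit 0x80018117e81))) 
(.lf (nat_lit 537821720) (dlOf (nat_lit 2) (nat_lit 0x602b0008c0181b0d80)))))) (.nd (nat_lit 18) 
(.nd (nat_lit 22) (.nd (nat_lit 7) (.nd (nat_lit 9) 
(.lf (nat_lit 3833880) (dlOf (nat_lit 1) (nat_lit 0x28008001000200140008230483))) 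
(.lf (nat_lit 12223000) (dlOf (nat_lit 1) (nat_lit 0x4004012200086c0d82)))) 
(.lf (nat_lit 1346012312) (dlOf (nat_lit 2) (nat_lit 0x203340011004000400200020008e22b82)))) 
(.nd (nat_lit 21) 
(.lf (nat_lit 5931032) (dlOf (nat_lit 2) (nat_lit 0x1ae500006004001000400200018410402))) 
(.lf (nat_lit 24805400) (dlOf (nat_lit 4) (nat_lit 0x2af24001975c0001604001ebc90000a0100055e480032eb80000a08000400200020008bb0482))))) 
(.nd (nat_lit 21) (.nd (nat_lit 7) 
(.lf (nat_lit 27164696) (dlOf (nat_lit 1) (nat_lit 0x60028cb0481))) 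
(.lf (nat_lit 43942296) (dlOf (nat_lit 1) (nat_lit 0x800192a1001)))) (.nd (nat_lit 22) 
(.lf (nat_lit 12484632) (dlOf (nat_lit 1) (nat_lit 0x400286c0001))) 
(.lf (nat_lit 16678936) (dlOf (nat_lit 3) (nat_lit 0x1e6680000198100903400000c00800180080014002000a00088d0403))))))))) 
(.nd (nat_lit 7) (.nd (nat_lit 18) (.nd (nat_lit 17) (.nd (nat_lit 19) (.nd (nat_lit 9) 
(.nd (nat_lit 10) (.nd (nat_lit 22) 
(.lf (nat_lit 44073048) (dlOf (nat_lit 2) (nat_lit 0xd5e60003102000200292c0701))) 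
(.lf (nat_lit 14712920) (dlOf (nat_lit 1) (nat_lit 0x17800401b60008770802)))) (.nd (nat_lit 26) 
(.lf (nat_lit 5773493336) (dlOf (nat_lit 1) (nat_lit 0x4004000200080e2902))) 
(.lf (nat_lit 6377473112) (dlOf (nat_lit 1) (nat_lit 0x4004000200080e2902))))) (.nd (nat_lit 8) 
(.nd (nat_lit 11) (.lf (nat_lit 19960408) (dlOf (nat_lit 1) (nat_lit 0x200189d8981))) 
(.nd (nat_lit 22) (.lf (nat_lit 41978456) (dlOf (nat_lit 1) (nat_lit 0x20019245301))) 
(.lf (nat_lit 62949976) (dlOf (nat_lit 1) (nat_lit 0xc004001200099a5302))))) (.nd (nat_lit 10) 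
(.lf (nat_lit 5167418200) (dlOf (nat_lit 1) (nat_lit 0x8004000c0008055c02))) 
(.lf (nat_lit 1342216024) (dlOf (nat_lit 1) (nat_lit 0x540040006000800a282)))))) (.nd (nat_lit 22) 
(.nd (nat_lit 26) (.nd (nat_lit 29) 
(.lf (nat_lit 3221782616) (dlOf (nat_lit 1) (nat_lit 0x80018181101))) 
(.lf (nat_lit 1611169880) (dlOf (nat_lit 1) (nat_lit 0x20018101781)))) 
(.lf (nat_lit 3959980120) (dlOf (nat_lit 1) (nat_lit 0x80018181101)))) (.nd (nat_lit 8) 
(.nd (nat_lit 24) (.lf (nat_lit 4751448) (dlOf (nat_lit 1) (nat_lit 0x8002000600082b0802))) 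
(.lf (nat_lit 21528664) (dlOf (nat_lit 7) (nat_lit 0x97daa0057ed4002e76980097b48000bd9e0030ea1800bf4fc01a77340004c1000a3daa0054ed4002cf69800e7b480017d9e004cea18015f4fc01637340004b100045b9a00024010060ed5002b76980103a86000400600f5daa007eed30030750c0007e0c0133b5400b7da60021ea18000f818012800801b000200080008a40603)))) 
(.lf (nat_lit 23626072) (dlOf (nat_lit 1) (nat_lit 0x20028b80681)))))) (.nd (nat_lit 28) 
(.nd (nat_lit 8) (.nd (nat_lit 9) (.nd (nat_lit 11) 
(.lf (nat_lit 4882520) (dlOf (nat_lit 1) (nat_lit 0x8002000600082d0802))) 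
(.lf (nat_lit 170072) (dlOf (nat_lit 1) (nat_lit 0x700080050002001a000800a783)))) 
(.lf (nat_lit 32672344) (dlOf (nat_lit 2) (nat_lit 0x24a4300012818ef5300)))) (.nd (nat_lit 26) 
(.lf (nat_lit 6442615128) (dlOf (nat_lit 1) (nat_lit 0x400400020008104e02))) 
(.lf (nat_lit 201490776) (dlOf (nat_lit 1) (nat_lit 0x8008000800200020008014e03))))) 
(.nd (nat_lit 8) (.nd (nat_lit 26) (.nd (nat_lit 27) 
(.lf (nat_lit 2952953944) (dlOf (nat_lit 3) (nat_lit 0x1c01c0001a81000100c0000a40800c8008001400200180008030803))) 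
(.lf (nat_lit 1476558936) (dlOf (nat_lit 4) (nat_lit 0x2800e0001481002900700009c0801180000003604001400200960008050802)))) 
(.lf (nat_lit 3691151448) (dlOf (nat_lit 1) (nat_lit 0x8008007000200140008050803)))) 
(.nd (nat_lit 26) (.lf (nat_lit 1342341464) (dlOf (nat_lit 1) (nat_lit 0x40028014d81))) 
(.lf (nat_lit 4228022616) (dlOf (nat_lit 4) (nat_lit 0x3b80c8000440400780640001802000603200006818014d80))))))) 
(.nd (nat_lit 28) (.nd (nat_lit 17) (.nd (nat_lit 20) (.nd (nat_lit 26) (.nd (nat_lit 8) 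
(.lf (nat_lit 1208254552) (dlOf (nat_lit 2) (nat_lit 0x1180a400002040018002000e00080b0702))) 
(.lf (nat_lit 5905875288) (dlOf (nat_lit 1) (nat_lit 0x400200020008154e02)))) (.nd (nat_lit 21) 
(.lf (nat_lit 2349105240) (dlOf (nat_lit 1) (nat_lit 0x1c004000600080a1102))) 
(.lf (nat_lit 2753855576) (dlOf (nat_lit 1) (nat_lit 0xc00180a1101))))) (.nd (nat_lit 9) 
(.lf (nat_lit 9732184) (dlOf (nat_lit 6) (nat_lit 0xf7a430022d20800568fc003f476005fa390035ced00014c3001b690c002348200cba39000290300b2d22804ee9040008e08034348a0004602000da410004d1d800114100090008000800200100008580603))) 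
(.lf (nat_lit 33327704) (dlOf (nat_lit 1) (nat_lit 0x80080104002001a0008f55303))))) 
(.nd (nat_lit 8) (.nd (nat_lit 9) 
(.lf (nat_lit 26640472) (dlOf (nat_lit 1) (nat_lit 0x8008000400200020008c50803))) (.nd (nat_lit 20) 
(.lf (nat_lit 42371672) (dlOf (nat_lit 1) (nat_lit 0x60009245301))) 
(.lf (nat_lit 51808856) (dlOf (nat_lit 2) (nat_lit 0x8a4300004019515300))))) (.nd (nat_lit 10) 
(.lf (nat_lit 21397848) (dlOf (nat_lit 1) (nat_lit 0x60008002c00200340008a34d83))) 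
(.lf (nat_lit 50234712) (dlOf (nat_lit 1) (nat_lit 0x3c004001600094c3382)))))) (.nd (nat_lit 30) 
(.nd (nat_lit 27) (.nd (nat_lit 29) (.nd (nat_lit 31) 
(.lf (nat_lit 4630806616) (dlOf (nat_lit 1) (nat_lit 0x200280d0601))) 
(.lf (nat_lit 2483322968) (dlOf (nat_lit 1) (nat_lit 0x1c004000600080a1102)))) 
(.lf (nat_lit 3020193880) (dlOf (nat_lit 2) (nat_lit 0x1da0300001a818150800)))) (.nd (nat_lit 17) 
(.lf (nat_lit 4765024344) (dlOf (nat_lit 1) (nat_lit 0x200280d0601))) 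
(.lf (nat_lit 473858136) (dlOf (nat_lit 2) (nat_lit 0x1e00000012818fc0800))))) (.nd (nat_lit 19) 
(.nd (nat_lit 21) 
(.lf (nat_lit 2080669784) (dlOf (nat_lit 2) (nat_lit 0x1180a400002040018002000e00080b0702))) 
(.lf (nat_lit 3492053080) (dlOf (nat_lit 1) (nat_lit 0xc00180a1101)))) (.nd (nat_lit 8) 
(.lf (nat_lit 1346142296) (dlOf (nat_lit 2) (nat_lit 0x16000000098080088008002400200680008e60803))) 
(.lf (nat_lit 3490611544) (dlOf (nat_lit 2) (nat_lit 0x281e800015818014d80)))))))) 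
(.nd (nat_lit 17) (.nd (nat_lit 26) (.nd (nat_lit 9) (.nd (nat_lit 22) (.nd (nat_lit 8) 
(.nd (nat_lit 19) (.lf (nat_lit 2130136) (dlOf (nat_lit 1) (nat_lit 0x20008000800200040008150483))) 
(.lf (nat_lit 1074299096) (dlOf (nat_lit 8) (nat_lit 0x6d0000003cc0403fc07a01de000000e682000301e80072c080168000002e6040130000000940201ae0000004081007200000000c08005000801f4002003600081b0483)))) 
(.lf (nat_lit 134254040) (dlOf (nat_lit 2) (nat_lit 0x7e01500019818006d80)))) (.nd (nat_lit 20) 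
(.nd (nat_lit 31) 
(.lf (nat_lit 1346404568) (dlOf (nat_lit 2) (nat_lit 0x181f60002e0200120008f60981))) 
(.lf (nat_lit 3493888216) (dlOf (nat_lit 2) (nat_lit 0x4203f802041e700fc0ae8002501800180080070002002000081b0483)))) 
(.lf (nat_lit 24150232) (dlOf (nat_lit 1) (nat_lit 0x80028b80481))))) (.nd (nat_lit 8) 
(.nd (nat_lit 11) (.lf (nat_lit 8164056) (dlOf (nat_lit 1) (nat_lit 0x8008000400200020008518c83))) 
(.lf (nat_lit 19962584) (dlOf (nat_lit 1) (nat_lit 0x2c00080004002004a00089db983)))) 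
(.nd (nat_lit 19) (.nd (nat_lit 22) 
(.lf (nat_lit 5100571608) (dlOf (nat_lit 1) (nat_lit 0x400280d5e01))) 
(.lf (nat_lit 46435288) (dlOf (nat_lit 1) (nat_lit 0x1a0019385e01)))) 
(.lf (nat_lit 46959576) (dlOf (nat_lit 1) (nat_lit 0x20029385e01)))))) (.nd (nat_lit 8) 
(.nd (nat_lit 27) (.nd (nat_lit 11) (.nd (nat_lit 19) 
(.lf (nat_lit 2755690712) (dlOf (nat_lit 2) (nat_lit 0x1a0c50004a0181b0480))) 
(.lf (nat_lit 1946714328) (dlOf (nat_lit 8) (nat_lit 0x6d0000003cc0403fc07c01de000000e682000301f00072c080168000002e2040130000000940201ae0000004081007200000001c08005000801f4002003600081b0483)))) 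
(.lf (nat_lit 4362111192) (dlOf (nat_lit 1) (nat_lit 0x300080014002000a0008004a83)))) 
(.nd (nat_lit 9) (.nd (nat_lit 11) 
(.lf (nat_lit 469799128) (dlOf (nat_lit 1) (nat_lit 0x400400020018008082))) 
(.lf (nat_lit 2348845272) (dlOf (nat_lit 1) (nat_lit 0x280080010002000a0008004a83)))) 
(.lf (nat_lit 201361112) (dlOf (nat_lit 1) (nat_lit 0x20008003a81))))) (.nd (nat_lit 9) 
(.nd (nat_lit 10) (.nd (nat_lit 11) 
(.lf (nat_lit 4094198232) (dlOf (nat_lit 4) (nat_lit 0x280460022802001e0230010d01001001180085c0801100080038002001e0008017b03))) 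
(.lf (nat_lit 2751502808) (dlOf (nat_lit 1) (nat_lit 0x20002001e000800b282)))) 
(.lf (nat_lit 469800408) (dlOf (nat_lit 1) (nat_lit 0x150008009800200260008009b03)))) 
(.nd (nat_lit 10) (.lf (nat_lit 4899245016) (dlOf (nat_lit 1) (nat_lit 0x10004000200080d5e02))) 
(.lf (nat_lit 4362110936) (dlOf (nat_lit 1) (nat_lit 0xa0008004501))))))) (.nd (nat_lit 28) 
(.nd (nat_lit 9) (.nd (nat_lit 20) (.nd (nat_lit 8) 
(.lf (nat_lit 2261208) (dlOf (nat_lit 2) (nat_lit 0xe0a5e0011b818150480))) 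
(.lf (nat_lit 21397976) (dlOf (nat_lit 1) (nat_lit 0x20008a37101)))) (.nd (nat_lit 12) 
(.lf (nat_lit 3571928) (dlOf (nat_lit 2) (nat_lit 0x1184c90011b818200480))) 
(.lf (nat_lit 8294616) (dlOf (nat_lit 1) (nat_lit 0xc0028518081))))) (.nd (nat_lit 10) 
(.nd (nat_lit 11) (.nd (nat_lit 12) 
(.lf (nat_lit 2214757080) (dlOf (nat_lit 1) (nat_lit 0x1800280a2101))) 
(.lf (nat_lit 8295128) (dlOf (nat_lit 1) (nat_lit 0x8008000400200020008518c83)))) 
(.lf (nat_lit 19831512) (dlOf (nat_lit 1) (nat_lit 0x1500080004002004000089db983)))) 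
(.nd (nat_lit 8) (.lf (nat_lit 8820440) (dlOf (nat_lit 1) (nat_lit 0x3000800040020004000851a003))) 
(.lf (nat_lit 2751629272) (dlOf (nat_lit 1) (nat_lit 0x10008000400200060008004503)))))) 
(.nd (nat_lit 8) (.nd (nat_lit 19) (.nd (nat_lit 11) 
(.lf (nat_lit 1881571544) (dlOf (nat_lit 1) (nat_lit 0xc00400040018f60982))) 
(.lf (nat_lit 939690200) (dlOf (nat_lit 1) (nat_lit 0x20028144a81)))) (.nd (nat_lit 20) 
(.lf (nat_lit 1410236632) (dlOf (nat_lit 1) (nat_lit 0x5c00281b0481))) 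
(.lf (nat_lit 6377341144) (dlOf (nat_lit 1) (nat_lit 0x4002000200080c1c02))))) (.nd (nat_lit 18) 
(.nd (nat_lit 26) 
(.lf (nat_lit 1342341592) (dlOf (nat_lit 1) (nat_lit 0x48008003c002001a0008017103))) 
(.lf (nat_lit 4228022744) (dlOf (nat_lit 3) (nat_lit 0x6e0000028781004a000000000080008008012400200740008017103)))) 
(.lf (nat_lit 3624305112) (dlOf (nat_lit 1) (nat_lit 0x28008001800200020008157103)))))))))) 
(.nd (nat_lit 6) (.nd (nat_lit 17) (.nd (nat_lit 28) (.nd (nat_lit 19) (.nd (nat_lit 9) 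
(.nd (nat_lit 4) (.nd (nat_lit 18) (.nd (nat_lit 7) (.nd (nat_lit 20) (.nd (nat_lit 23) 
(.lf (nat_lit 4227112) (dlOf (nat_lit 1) (nat_lit 0x2c004005c0008290002))) 
(.lf (nat_lit 12615720) (dlOf (nat_lit 1) (nat_lit 0x200086d0901)))) 
(.lf (nat_lit 26247208) (dlOf (nat_lit 1) (nat_lit 0x1a0028c20901)))) (.nd (nat_lit 10) 
(.lf (nat_lit 5368744360) (dlOf (nat_lit 4) (nat_lit 0x11002600e150200200130067681000600a0033b00801c800801a000200020008004e83))) 
(.lf (nat_lit 2147517864) (dlOf (nat_lit 5) (nat_lit 0x100140029204000400a00147020002005000a3010001002800508080010008001000200040008003603))))) 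
(.nd (nat_lit 27) (.nd (nat_lit 20) (.nd (nat_lit 21) 
(.lf (nat_lit 2755952680) (dlOf (nat_lit 1) (nat_lit 0x4002000400081c0902))) 
(.lf (nat_lit 27557928) (dlOf (nat_lit 1) (nat_lit 0x320028d00781)))) (.nd (nat_lit 7) 
(.lf (nat_lit 30703656) (dlOf (nat_lit 1) (nat_lit 0x60018e40d81))) 
(.lf (nat_lit 41189800) (dlOf (nat_lit 1) (nat_lit 0x1c0009226e81))))) (.nd (nat_lit 30) 
(.nd (nat_lit 26) 
(.lf (nat_lit 671383592) (dlOf (nat_lit 1) (nat_lit 0x48008007800201de0008170a83))) 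
(.lf (nat_lit 2349105192) (dlOf (nat_lit 4) (nat_lit 0x5c0200173e02003001000b9e010017008005aec0800600080014002001c00080a0903)))) 
(.nd (nat_lit 7) 
(.lf (nat_lit 6040092712) (dlOf (nat_lit 1) (nat_lit 0x80080004002000200080d0983))) 
(.lf (nat_lit 1745125544) (dlOf (nat_lit 2) (nat_lit 0x1806e0003202000e00180a2c01))))))) 
(.nd (nat_lit 26) (.nd (nat_lit 7) (.nd (nat_lit 20) (.nd (nat_lit 22) 
(.lf (nat_lit 671383608) (dlOf (nat_lit 18) (nat_lit 0x138094003580400b004a001ab020060025000601100028410049809400100440007e0400c40250006011000104100038088000800400180440003e0200600250001d81004c0128000e80800300880006a0400180440003202013c02500060110000a81001b80940004e0400d804a000c0220000c02000b01280005c0803100940018044000150400c402500070110000501002a8008017000201860008170d03))) 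
(.lf (nat_lit 12877880) (dlOf (nat_lit 2) (nat_lit 0x40cd60000002001200186e0b01)))) 
(.lf (nat_lit 24412216) (dlOf (nat_lit 1) (nat_lit 0x58008002400200060008b90b83)))) 
(.nd (nat_lit 8) (.lf (nat_lit 30441656) (dlOf (nat_lit 1) (nat_lit 0xc0018e30481))) 
(.lf (nat_lit 5502961080) (dlOf (nat_lit 1) (nat_lit 0x40008003601))))) (.nd (nat_lit 11) 
(.nd (nat_lit 7) (.lf (nat_lit 2752544824) (dlOf (nat_lit 2) (nat_lit 0x18024700000018020680))) 
(.nd (nat_lit 8) (.lf (nat_lit 67145912) (dlOf (nat_lit 1) (nat_lit 0x140018007e81))) 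
(.lf (nat_lit 6106940856) (dlOf (nat_lit 2) (nat_lit 0x3802c0022015001100a0002f41800c00080078002002c0008003603))))) 
(.nd (nat_lit 8) (.nd (nat_lit 10) 
(.lf (nat_lit 4362115128) (dlOf (nat_lit 1) (nat_lit 0x280080020002000a000800a603))) 
(.lf (nat_lit 3288370232) (dlOf (nat_lit 1) (nat_lit 0x20008006081)))) 
(.lf (nat_lit 201361720) (dlOf (nat_lit 2) (nat_lit 0x1005800068040004002000c0008004c02))))))) 
(.nd (nat_lit 11) (.nd (nat_lit 27) (.nd (nat_lit 7) (.nd (nat_lit 4) (.nd (nat_lit 21) 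
(.lf (nat_lit 1074037288) (dlOf (nat_lit 1) (nat_lit 0x9c0028090e01))) 
(.lf (nat_lit 23364136) (dlOf (nat_lit 1) (nat_lit 0x58008002c00200060008b80e03)))) 
(.lf (nat_lit 19960376) (dlOf (nat_lit 1) (nat_lit 0x200189d8981)))) (.nd (nat_lit 8) 
(.lf (nat_lit 8426152) (dlOf (nat_lit 1) (nat_lit 0x8008000400200020008518c83))) 
(.lf (nat_lit 8423336) (dlOf (nat_lit 1) (nat_lit 0x7a0028514301))))) (.nd (nat_lit 4) 
(.nd (nat_lit 26) 
(.lf (nat_lit 5502961192) (dlOf (nat_lit 2) (nat_lit 0x100a800000080018008000c00200040008003703))) 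
(.lf (nat_lit 6106940968) (dlOf (nat_lit 3) (nat_lit 0x400a000038080038058001c02a000000400060018003701)))) 
(.nd (nat_lit 12) (.nd (nat_lit 26) 
(.lf (nat_lit 5502961208) (dlOf (nat_lit 3) (nat_lit 0xb00a800c805000380260006011000b00280009c28000805400000040070002001e0008003782))) 
(.lf (nat_lit 6106940984) (dlOf (nat_lit 4) (nat_lit 0x30058001c02a002001400110028000782000380500003404001c02c000c0150001002800000180020008008400200320008003783)))) 
(.lf (nat_lit 6039836216) (dlOf (nat_lit 2) (nat_lit 0x1002f005fe018009c00)))))) (.nd (nat_lit 8) 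
(.nd (nat_lit 12) (.nd (nat_lit 18) 
(.lf (nat_lit 36735544) (dlOf (nat_lit 1) (nat_lit 0x20019075201))) 
(.lf (nat_lit 36997688) (dlOf (nat_lit 1) (nat_lit 0x400200020009075202)))) (.nd (nat_lit 4) 
(.lf (nat_lit 201366056) (dlOf (nat_lit 3) (nat_lit 0x780000163c04000407600a6b020060000800b281))) 
(.lf (nat_lit 201366072) (dlOf (nat_lit 2) (nat_lit 0x2ac076015e03600aa00b8001ec1803b0008000c00200b6000800b403))))) 
(.nd (nat_lit 7) (.nd (nat_lit 18) (.nd (nat_lit 30) 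
(.lf (nat_lit 2818607912) (dlOf (nat_lit 7) (nat_lit 0x90000008dc0800480e00045e0400780700022d0206b0016035700a81f780380d3801807f600603be00201f580000044c1c030800c0162000001118201780030008380800d0008043000200120008005c03))) 
(.lf (nat_lit 3892349736) (dlOf (nat_lit 1) (nat_lit 0x20028005c01)))) 
(.lf (nat_lit 4899244840) (dlOf (nat_lit 2) (nat_lit 0x210078007a40800080080018002000800080d5c03)))) 
(.nd (nat_lit 12) 
(.lf (nat_lit 1275104168) (dlOf (nat_lit 4) (nat_lit 0x5001400300000000f040018005000d00000001c10002801400000040010004004a0018005d02))) 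
(.lf (nat_lit 134257576) (dlOf (nat_lit 1) (nat_lit 0x2002800bd01)))))))) (.nd (nat_lit 21) 
(.nd (nat_lit 26) (.nd (nat_lit 18) (.nd (nat_lit 30) (.nd (nat_lit 9) (.nd (nat_lit 22) 
(.lf (nat_lit 134774824) (dlOf (nat_lit 2) (nat_lit 0x300ec00064040008004000a00180b0c82))) 
(.lf (nat_lit 55083048) (dlOf (nat_lit 1) (nat_lit 0x200196a0a81)))) (.nd (nat_lit 4) 
(.lf (nat_lit 50889256) (dlOf (nat_lit 1) (nat_lit 0x108008001c002004a00094d8883))) 
(.lf (nat_lit 558904) (dlOf (nat_lit 1) (nat_lit 0x2c0008003e01))))) (.nd (nat_lit 8) 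
(.nd (nat_lit 31) 
(.lf (nat_lit 1074298920) (dlOf (nat_lit 2) (nat_lit 0x1780000369c040110002001600081b0002))) 
(.lf (nat_lit 3221782568) (dlOf (nat_lit 1) (nat_lit 0x3c00400300008180902)))) (.nd (nat_lit 4) 
(.lf (nat_lit 1074299304) (dlOf (nat_lit 2) (nat_lit 0x12022000000181b0780))) 
(.lf (nat_lit 1074299192) (dlOf (nat_lit 4) (nat_lit 0x10000000035020012000000130100a300000005c08000800801dc002000a00081b0583)))))) 
(.nd (nat_lit 20) (.nd (nat_lit 22) 
(.lf (nat_lit 819240) (dlOf (nat_lit 1) (nat_lit 0xba0008020501))) 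
(.lf (nat_lit 13402152) (dlOf (nat_lit 1) (nat_lit 0x12800200320008720d02)))) (.nd (nat_lit 22) 
(.lf (nat_lit 10256424) (dlOf (nat_lit 1) (nat_lit 0x4002000200085c0a82))) 
(.lf (nat_lit 22839336) (dlOf (nat_lit 1) (nat_lit 0x600080004002000e0008b30603)))))) 
(.nd (nat_lit 4) (.nd (nat_lit 29) 
(.lf (nat_lit 201883688) (dlOf (nat_lit 2) (nat_lit 0x300ec00034040008004000a00180b0c82))) 
(.nd (nat_lit 30) 
(.lf (nat_lit 2886238248) (dlOf (nat_lit 13) (nat_lit 0xa804c0008c040574026000450202bc0130002201000900d0001080802100ac029404e0128024006800f00bf806804a002e024e01300370008001044007e0068035c02e01ea013000200300230098000f40800f804c0007604003c06c000380200ac0130001a8100da020008000d804a4068024c0000001504004a01b0000240801a800800e4002009200081a0583))) 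
(.lf (nat_lit 3959980072) (dlOf (nat_lit 1) (nat_lit 0x3c00400300008180902))))) (.nd (nat_lit 22) 
(.nd (nat_lit 30) 
(.lf (nat_lit 2886238264) (dlOf (nat_lit 8) (nat_lit 0x760104000803600af90407940410057c0100ad00d802bbc08026806c015dc04019803600aed02005201b0057601006300d8000000817800080a54002058c00081a0703))) 
(.lf (nat_lit 3959980088) (dlOf (nat_lit 1) (nat_lit 0x20018180a81)))) 
(.lf (nat_lit 2756214840) (dlOf (nat_lit 1) (nat_lit 0x14002000c0008220b82)))))) (.nd (nat_lit 18) 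
(.nd (nat_lit 22) (.nd (nat_lit 23) (.nd (nat_lit 26) 
(.lf (nat_lit 2654248) (dlOf (nat_lit 6) (nat_lit 0xb2970002147a0014a2b0000703000652a000ea948008947a0040a2b0000684000d529000da8f400894560000c060002a5c001d529001128f400894560000b080028a5e000552a000000100098008006400200220008180a03))) 
(.lf (nat_lit 2754117672) (dlOf (nat_lit 2) (nat_lit 0x30fc0000600800400080038002002a00080c0d03)))) 
(.lf (nat_lit 11042856) (dlOf (nat_lit 2) (nat_lit 0x160000000560200060008660681)))) 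
(.nd (nat_lit 20) 
(.lf (nat_lit 15237160) (dlOf (nat_lit 2) (nat_lit 0xe8000000be040024002003c00087c0682))) 
(.nd (nat_lit 23) 
(.lf (nat_lit 24674344) (dlOf (nat_lit 6) (nat_lit 0x56940003b46800038100025a340001a04001ad28001368d00006020008b4a0003da3400016080006d1a0000002000a0028bb0a01))) 
(.lf (nat_lit 16285736) (dlOf (nat_lit 1) (nat_lit 0x40018880701)))))) (.nd (nat_lit 4) 
(.nd (nat_lit 7) 
(.lf (nat_lit 2754379816) (dlOf (nat_lit 2) (nat_lit 0x3d0cc00070314000e4080070002006200080e0502))) 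
(.nd (nat_lit 8) (.lf (nat_lit 36473512) (dlOf (nat_lit 1) (nat_lit 0x40019075601))) 
(.lf (nat_lit 36473256) (dlOf (nat_lit 1) (nat_lit 0x40019074e81))))) (.nd (nat_lit 8) 
(.nd (nat_lit 9) (.lf (nat_lit 45908024) (dlOf (nat_lit 1) (nat_lit 0x1c00400120009360502))) 
(.lf (nat_lit 36473400) (dlOf (nat_lit 1) (nat_lit 0x20019075201)))) (.nd (nat_lit 7) 
(.lf (nat_lit 19699512) (dlOf (nat_lit 2) (nat_lit 0x115dc0004202000400189da101))) 
(.lf (nat_lit 8160696) (dlOf (nat_lit 1) (nat_lit 0x400200020008513602))))))))) (.nd (nat_lit 26) 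
(.nd (nat_lit 31) (.nd (nat_lit 18) (.nd (nat_lit 8) (.nd (nat_lit 4) 
(.lf (nat_lit 1342215848) (dlOf (nat_lit 1) (nat_lit 0x680080004002001c000800a003))) 
(.nd (nat_lit 10) (.lf (nat_lit 1880129720) (dlOf (nat_lit 1) (nat_lit 0x40018740481))) 
(.lf (nat_lit 1345356984) (dlOf (nat_lit 1) (nat_lit 0x400200020008b52c82))))) (.nd (nat_lit 7) 
(.lf (nat_lit 5772444968) (dlOf (nat_lit 1) (nat_lit 0x400200020008093182))) (.nd (nat_lit 32) 
(.lf (nat_lit 402688936) (dlOf (nat_lit 2) (nat_lit 0x2c013000a0090000381001b80080080002000e0008005d03))) 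
(.lf (nat_lit 4697656232) (dlOf (nat_lit 2) (nat_lit 0x3008400240000000c028005d00)))))) 
(.nd (nat_lit 4) (.nd (nat_lit 27) (.nd (nat_lit 29) 
(.lf (nat_lit 1342472232) (dlOf (nat_lit 3) (nat_lit 0xa23c0002981000511e0000d40800080080018002000a0008040583))) 
(.lf (nat_lit 1879343144) (dlOf (nat_lit 1) (nat_lit 0xe80080080002004a00080e0a03)))) 
(.nd (nat_lit 30) 
(.lf (nat_lit 402948136) (dlOf (nat_lit 2) (nat_lit 0x1000680005c040080004001000080b0382))) 
(.lf (nat_lit 1476689960) (dlOf (nat_lit 2) (nat_lit 0x780000011204010000200580008120782))))) 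
(.nd (nat_lit 19) 
(.lf (nat_lit 1879343160) (dlOf (nat_lit 4) (nat_lit 0x60330001b01006306d80005c0801d81b400000040030002000a00080e0b02))) 
(.lf (nat_lit 1346142264) (dlOf (nat_lit 1) (nat_lit 0x2060028e60501)))))) (.nd (nat_lit 4) 
(.nd (nat_lit 10) (.nd (nat_lit 18) (.nd (nat_lit 21) 
(.lf (nat_lit 3624435752) (dlOf (nat_lit 13) (nat_lit 0xa80500008c040574028000450202bc0140002201000900d8001080805280a0010804c0128024017f00d80340064049c028025001200370008001044007e006c03d402801ae0120002003002300a0000f40800f80500007604003c06c000380200ac0140001a8100da020008000d804a4068024c0000001504004a01b0000240801a800800e4002009200081a0583))) 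
(.lf (nat_lit 3492315176) (dlOf (nat_lit 3) (nat_lit 0x387980002c0400103cc0001402000200280c0c01)))) 
(.nd (nat_lit 19) (.lf (nat_lit 3494150184) (dlOf (nat_lit 1) (nat_lit 0x4002000400081c0902))) 
(.lf (nat_lit 3492577320) (dlOf (nat_lit 2) (nat_lit 0x3d0c80007034c000e4080070002006200080e0502))))) 
(.nd (nat_lit 7) 
(.lf (nat_lit 2550172968) (dlOf (nat_lit 1) (nat_lit 0x18008000400200040008006803))) 
(.nd (nat_lit 9) (.lf (nat_lit 4160787624) (dlOf (nat_lit 1) (nat_lit 0x1400400080008009502))) 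
(.lf (nat_lit 4026566312) (dlOf (nat_lit 1) (nat_lit 0x20008003a81)))))) (.nd (nat_lit 8) 
(.nd (nat_lit 19) (.nd (nat_lit 18) 
(.lf (nat_lit 3490742328) (dlOf (nat_lit 2) (nat_lit 0x18022f00000018020680))) 
(.lf (nat_lit 2416214072) (dlOf (nat_lit 1) (nat_lit 0x4004000200080a0a82)))) (.nd (nat_lit 22) 
(.lf (nat_lit 3624435768) (dlOf (nat_lit 8) (nat_lit 0x760104000803800550040794041002a78100ad00e00151808026807000a8a0401980380054402005201c002a181006300e0000000817800080a54002058c00081a0703))) 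
(.lf (nat_lit 3494412344) (dlOf (nat_lit 1) (nat_lit 0x14002000c0008220b82))))) (.nd (nat_lit 7) 
(.lf (nat_lit 3493888312) (dlOf (nat_lit 2) (nat_lit 0x30fe00009408011000800c4002005c00081b0583))) 
(.lf (nat_lit 3087047608) (dlOf (nat_lit 1) (nat_lit 0x40040002000800be02))))))) (.nd (nat_lit 27) 
(.nd (nat_lit 29) (.nd (nat_lit 4) (.nd (nat_lit 18) (.nd (nat_lit 7) 
(.lf (nat_lit 3557326888) (dlOf (nat_lit 1) (nat_lit 0x26000801b800200d800081c0683))) 
(.lf (nat_lit 335578536) (dlOf (nat_lit 1) (nat_lit 0x1400400080008003602)))) (.nd (nat_lit 31) 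
(.lf (nat_lit 335839272) (dlOf (nat_lit 2) (nat_lit 0x10006400056040080004001000080b0382))) 
(.lf (nat_lit 2483322920) (dlOf (nat_lit 4) (nat_lit 0x5c020015e002003001000aef0100170080055240800600080014002001c00080a0903))))) 
(.nd (nat_lit 7) (.nd (nat_lit 9) 
(.lf (nat_lit 3557326904) (dlOf (nat_lit 1) (nat_lit 0x1c00081c0881))) 
(.lf (nat_lit 4630545976) (dlOf (nat_lit 2) (nat_lit 0x100b0000b8080018008001c00200140008003783)))) 
(.lf (nat_lit 4630545848) (dlOf (nat_lit 1) (nat_lit 0x400400060018003602))))) (.nd (nat_lit 9) 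
(.nd (nat_lit 4) (.lf (nat_lit 1946714152) (dlOf (nat_lit 2) (nat_lit 0x20000046d0181b0000))) 
(.nd (nat_lit 8) 
(.lf (nat_lit 3020193848) (dlOf (nat_lit 2) (nat_lit 0x120062003c0250005f028150480))) 
(.lf (nat_lit 1946714424) (dlOf (nat_lit 4) (nat_lit 0x10000000038020012000000128100a300000005c08000800801dc002000a00081b0583))))) 
(.nd (nat_lit 8) (.nd (nat_lit 18) 
(.lf (nat_lit 4094198312) (dlOf (nat_lit 1) (nat_lit 0x40018018881))) 
(.lf (nat_lit 1946452520) (dlOf (nat_lit 1) (nat_lit 0x9c0028090e01)))) 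
(.lf (nat_lit 3019934504) (dlOf (nat_lit 2) (nat_lit 0x55200000113018005c00)))))) (.nd (nat_lit 30) 
(.nd (nat_lit 12) (.nd (nat_lit 4) (.nd (nat_lit 18) 
(.lf (nat_lit 470843432) (dlOf (nat_lit 1) (nat_lit 0x200281c0681))) (.nd (nat_lit 29) 
(.lf (nat_lit 470057000) (dlOf (nat_lit 3) (nat_lit 0xa23c0002981000511e0000d40800080080018002000a0008040583))) 
(.lf (nat_lit 1006927912) (dlOf (nat_lit 1) (nat_lit 0xe80080080002004a00080e0a03))))) 
(.nd (nat_lit 18) 
(.lf (nat_lit 470843448) (dlOf (nat_lit 2) (nat_lit 0x1886a00004c040098004003600081c0882))) 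
(.lf (nat_lit 1006927928) (dlOf (nat_lit 4) (nat_lit 0x60260001b01006306900005c0801d828800000040030002000a00080e0b02))))) 
(.nd (nat_lit 7) (.nd (nat_lit 8) 
(.lf (nat_lit 469799976) (dlOf (nat_lit 2) (nat_lit 0x1c0470028c40804e0008001000200540008009203))) 
(.lf (nat_lit 469802280) (dlOf (nat_lit 1) (nat_lit 0x4001800c601)))) 
(.lf (nat_lit 1006670504) (dlOf (nat_lit 1) (nat_lit 0x20018008c81))))) (.nd (nat_lit 4) 
(.nd (nat_lit 7) 
(.lf (nat_lit 1543798824) (dlOf (nat_lit 1) (nat_lit 0x48008007800201de0008170a83))) 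
(.nd (nat_lit 9) (.lf (nat_lit 4227893672) (dlOf (nat_lit 1) (nat_lit 0x8004004c0018004e82))) 
(.lf (nat_lit 2080410536) (dlOf (nat_lit 1) (nat_lit 0x40028005d01))))) (.nd (nat_lit 7) 
(.lf (nat_lit 1543798840) (dlOf (nat_lit 18) (nat_lit 0x1380940034a0400b004a001a4020060025000601100028410049809400100440007e0400c4025000601100010c10003808800084040018044000380200600250001b01004c0128000d40800300880005e0400180440002d02013c02500060110000901001b8094000440400d804a000c0220000a02000b0128000480803100940018044000100400c4025000701100003c1002a8008017000201860008170d03))) 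
(.nd (nat_lit 8) 
(.lf (nat_lit 1543538872) (dlOf (nat_lit 2) (nat_lit 0x7002800000080028008006800200260008004903))) 
(.lf (nat_lit 3691025336) (dlOf (nat_lit 2) (nat_lit 0x274054000000200180028009201)))))))))) 
(.nd (nat_lit 4) (.nd (nat_lit 18) (.nd (nat_lit 27) (.nd (nat_lit 19) (.nd (nat_lit 8) 
(.nd (nat_lit 23) (.nd (nat_lit 7) (.nd (nat_lit 9) 
(.lf (nat_lit 2684518440) (dlOf (nat_lit 9) (nat_lit 0x1e8030000ac0400bc0180005502003200c0002981001200f0001440800300340002c0401e401a000130200f400d00009010005006800040080348008008000200120008080683))) 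
(.lf (nat_lit 1342341672) (dlOf (nat_lit 1) (nat_lit 0x20008017f01)))) 
(.lf (nat_lit 3309736) (dlOf (nat_lit 1) (nat_lit 0x140008200281)))) (.nd (nat_lit 7) 
(.nd (nat_lit 20) 
(.lf (nat_lit 29524008) (dlOf (nat_lit 1) (nat_lit 0x80008000400200360008e10783))) 
(.lf (nat_lit 47349800) (dlOf (nat_lit 1) (nat_lit 0x600193d0a81)))) 
(.lf (nat_lit 8557224) (dlOf (nat_lit 1) (nat_lit 0x400200020008518c82))))) (.nd (nat_lit 9) 
(.nd (nat_lit 11) (.lf (nat_lit 168232) (dlOf (nat_lit 1) (nat_lit 0x1000018008081))) 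
(.nd (nat_lit 26) (.lf (nat_lit 170280) (dlOf (nat_lit 1) (nat_lit 0x2a001800ab81))) 
(.lf (nat_lit 2751633704) (dlOf (nat_lit 1) (nat_lit 0x30001800ab81))))) 
(.lf (nat_lit 54692648) (dlOf (nat_lit 4) (nat_lit 0x1d31ce80044c0403c8e740020e020558744011e3a180068c100040008005400200080009655c03))))) 
(.nd (nat_lit 21) (.nd (nat_lit 26) (.nd (nat_lit 28) 
(.lf (nat_lit 3221913640) (dlOf (nat_lit 14) (nat_lit 0x2e2035017c00f808b0048000e80c037006a001801f000398206a002b0011815417180640d240110003904000b02b0001c40803b015801c00a40020032006f0088001c02000c0158006006400340310018015800c80a400600220030010000378700210188001b808064015802000a401060360055015805c8078030c022000601000d700300008440007015802000a4008803600bd00f002b0028037400c0001f0c00fa056008d029004500d80220062010e02b007500f00360044019c02000fc00a009900300007050051015802c80a4015c03600bb018804380ac01d003c0128011009a00800408028026400c0001b140038056001c029000f00c8003c022003600a0000d0500f9028807a00d4031806801ea01f00c100f0071801800000180194004000a00181b0502)))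 
(.lf (nat_lit 805994536) (dlOf (nat_lit 8) (nat_lit 0x7a0550002201002a02a800880dc01480480054012002a00800010c2803f0154026806e011e0240092009000380400240014000420c0210056005702a802a80c801a00260003f0800160560001e81005002a0000d80803c815000240a6000340401620008210501)))) 
(.nd (nat_lit 29) (.lf (nat_lit 4362764328) (dlOf (nat_lit 1) (nat_lit 0x400080f0d01))) 
(.lf (nat_lit 1678409768) (dlOf (nat_lit 8) (nat_lit 0x7a0550002381002a02a800880dc01480480054012002a0080001182803f0154026806e011e0240092009000380400240014000450c0210056005702a802a80c801a00260003f0800160560001e81005002a0000e00803c815000240a6000340401620008210501))))) 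
(.nd (nat_lit 22) (.nd (nat_lit 8) 
(.lf (nat_lit 3833896) (dlOf (nat_lit 5) (nat_lit 0x213f00020970002840c001c07c0000e08001013f00080970005840c001407c0000d08001613f000b0970004840c002407c0000c08001213f00050970004040c002807c0000b0800060008230a01))) 
(.lf (nat_lit 20613928) (dlOf (nat_lit 2) (nat_lit 0x22448000f48189d5c00)))) (.nd (nat_lit 20) 
(.lf (nat_lit 15368232) (dlOf (nat_lit 1) (nat_lit 0x3e00287e0681))) 
(.lf (nat_lit 24805416) (dlOf (nat_lit 6) (nat_lit 0x15ea0000aef40001c08000d7a80002bbd000068200055de800030080032f50001177a0000b040002bd400015de8000001001b8008002400200100008bb0a03))))))) 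
(.nd (nat_lit 29) (.nd (nat_lit 8) (.nd (nat_lit 28) (.nd (nat_lit 30) 
(.lf (nat_lit 2348974120) (dlOf (nat_lit 1) (nat_lit 0x20008002000200020008070803))) 
(.lf (nat_lit 1275232296) (dlOf (nat_lit 1) (nat_lit 0x200180a0a01)))) (.nd (nat_lit 19) 
(.lf (nat_lit 4764893224) (dlOf (nat_lit 1) (nat_lit 0x40018050a81))) 
(.lf (nat_lit 5773099048) (dlOf (nat_lit 1) (nat_lit 0x4004000200080a0a02))))) (.nd (nat_lit 7) 
(.lf (nat_lit 469926184) (dlOf (nat_lit 1) (nat_lit 0x80028014601))) (.nd (nat_lit 11) 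
(.lf (nat_lit 469926312) (dlOf (nat_lit 1) (nat_lit 0x80028017181))) 
(.lf (nat_lit 5773625768) (dlOf (nat_lit 1) (nat_lit 0x200180e4e81)))))) (.nd (nat_lit 9) 
(.nd (nat_lit 8) (.nd (nat_lit 19) 
(.lf (nat_lit 4160913448) (dlOf (nat_lit 1) (nat_lit 0xe0008070601))) 
(.lf (nat_lit 3960111144) (dlOf (nat_lit 14) (nat_lit 0x2e2035017c00f808b0048000e80c037006a001801f000398206a002b0011815417180640d240110003904000b02b0001c40803b015801c00a40020032006f0088001c02000c0158006006400340310018015800c80a400600220030010000378700210188001b808064015802000a401060360055015805c8078030c022000601000d700300008440007015802000a4008803600bd00f002b0028037400c0001f0c00fa056008d029004500d80220062010e02b007500f00360044019c02000fc00a009900300007050051015802c80a4015c03600bb018804380ac01d003c0128011009a00800408028026400c0001b140038056001c029000f00c8003c022003600a0000d0500f9028807a00d4031806801ea01f00c100f0071801800000180194004000a00181b0502)))) 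
(.lf (nat_lit 2080539944) (dlOf (nat_lit 1) (nat_lit 0x60028093181)))) (.nd (nat_lit 11) 
(.lf (nat_lit 2818736680) (dlOf (nat_lit 1) (nat_lit 0xc0002025200080e8882))) 
(.lf (nat_lit 6376557096) (dlOf (nat_lit 1) (nat_lit 0x220028095181))))))) (.nd (nat_lit 20) 
(.nd (nat_lit 30) (.nd (nat_lit 24) (.nd (nat_lit 21) (.nd (nat_lit 27) 
(.lf (nat_lit 4295393320) (dlOf (nat_lit 3) (nat_lit 0x70058001400a00958040014005004ab8181c0a00))) 
(.lf (nat_lit 4429611048) (dlOf (nat_lit 3) (nat_lit 0x70054001400a00dfc040014005006fd8181c0a00)))) 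
(.lf (nat_lit 2753986600) (dlOf (nat_lit 1) (nat_lit 0x600280b0c81)))) (.nd (nat_lit 7) 
(.nd (nat_lit 19) 
(.lf (nat_lit 21397800) (dlOf (nat_lit 1) (nat_lit 0x580080024002001c0008a34603))) 
(.lf (nat_lit 26116392) (dlOf (nat_lit 1) (nat_lit 0x18008000400200020008c10703)))) 
(.lf (nat_lit 21397672) (dlOf (nat_lit 1) (nat_lit 0x8c80080020002025e0008a31483))))) 
(.nd (nat_lit 8) (.nd (nat_lit 21) (.nd (nat_lit 26) 
(.lf (nat_lit 1074167848) (dlOf (nat_lit 1) (nat_lit 0x28008000c002000800080d0983))) 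
(.lf (nat_lit 1946583080) (dlOf (nat_lit 1) (nat_lit 0x28008000c002000800080d0983)))) 
(.lf (nat_lit 3492184104) (dlOf (nat_lit 1) (nat_lit 0x600280b0c81)))) (.nd (nat_lit 7) 
(.lf (nat_lit 3624304936) (dlOf (nat_lit 1) (nat_lit 0x80018154601))) (.nd (nat_lit 27) 
(.lf (nat_lit 1678148008) (dlOf (nat_lit 4) (nat_lit 0x7b02b0031804c01d0a0801240ac00e8402009c056000c009803a0c100028008001c002000800081a0783))) 
(.lf (nat_lit 3959849384) (dlOf (nat_lit 4) (nat_lit 0x140118006808a00e850400300460074201000a023003a0c0800300080060002001a0008170783))))))) 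
(.nd (nat_lit 19) (.nd (nat_lit 26) (.nd (nat_lit 22) (.nd (nat_lit 28) 
(.lf (nat_lit 1474600) (dlOf (nat_lit 3) (nat_lit 0x31f68000d408001922000000040010002000400080d0582))) 
(.lf (nat_lit 3491135528) (dlOf (nat_lit 1) (nat_lit 0x2000400020008060582)))) 
(.lf (nat_lit 22446120) (dlOf (nat_lit 2) (nat_lit 0x29961e0002a0200040018ae0581)))) 
(.nd (nat_lit 7) (.lf (nat_lit 2752938024) (dlOf (nat_lit 1) (nat_lit 0x2000400020008060582))) 
(.lf (nat_lit 4095115432) (dlOf (nat_lit 1) (nat_lit 0x400400020008062c02))))) (.nd (nat_lit 8) 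
(.nd (nat_lit 21) 
(.lf (nat_lit 10387496) (dlOf (nat_lit 2) (nat_lit 0x33a28000840800080080014002000a00085d0583))) 
(.lf (nat_lit 4096040) (dlOf (nat_lit 1) (nat_lit 0x20018280501)))) 
(.lf (nat_lit 8297768) (dlOf (nat_lit 1) (nat_lit 0x6c0040084001851c602))))))) (.nd (nat_lit 18) 
(.nd (nat_lit 26) (.nd (nat_lit 21) (.nd (nat_lit 28) (.nd (nat_lit 10) (.nd (nat_lit 20) 
(.lf (nat_lit 29524024) (dlOf (nat_lit 2) (nat_lit 0x19c000000000200940008e10901))) 
(.lf (nat_lit 17989688) (dlOf (nat_lit 1) (nat_lit 0x20018900c01)))) (.nd (nat_lit 8) 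
(.lf (nat_lit 169016) (dlOf (nat_lit 1) (nat_lit 0x400400020018009202))) 
(.lf (nat_lit 671254328) (dlOf (nat_lit 1) (nat_lit 0x80008143e01))))) (.nd (nat_lit 20) 
(.nd (nat_lit 29) (.lf (nat_lit 268599352) (dlOf (nat_lit 1) (nat_lit 0x400280a1401))) 
(.nd (nat_lit 30) (.lf (nat_lit 2952953912) (dlOf (nat_lit 1) (nat_lit 0x800400020008030482))) 
(.lf (nat_lit 4026695736) (dlOf (nat_lit 1) (nat_lit 0x20018030d01))))) (.nd (nat_lit 19) 
(.lf (nat_lit 3490873400) (dlOf (nat_lit 1) (nat_lit 0x20028030d01))) 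
(.lf (nat_lit 1343914040) (dlOf (nat_lit 1) (nat_lit 0x1c0028381101)))))) (.nd (nat_lit 7) 
(.nd (nat_lit 9) 
(.lf (nat_lit 52592696) (dlOf (nat_lit 2) (nat_lit 0xc2609800000080020008018400200680009550503))) 
(.lf (nat_lit 36342328) (dlOf (nat_lit 1) (nat_lit 0x20019075201)))) (.nd (nat_lit 8) 
(.nd (nat_lit 19) (.lf (nat_lit 35816632) (dlOf (nat_lit 1) (nat_lit 0x20019012c81))) 
(.lf (nat_lit 36340920) (dlOf (nat_lit 1) (nat_lit 0x20019072c81)))) 
(.lf (nat_lit 58362296) (dlOf (nat_lit 1) (nat_lit 0x7e00097e4e81)))))) (.nd (nat_lit 9) 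
(.nd (nat_lit 29) (.nd (nat_lit 8) (.nd (nat_lit 21) 
(.lf (nat_lit 3288498232) (dlOf (nat_lit 1) (nat_lit 0x20018030d01))) 
(.lf (nat_lit 69369912) (dlOf (nat_lit 3) (nat_lit 0x41180000181000208c0000000800600080008002000e0008940503)))) 
(.lf (nat_lit 5435982136) (dlOf (nat_lit 2) (nat_lit 0x401400000018090b80)))) (.nd (nat_lit 8) 
(.nd (nat_lit 19) (.lf (nat_lit 2752675896) (dlOf (nat_lit 1) (nat_lit 0x20028030d01))) 
(.lf (nat_lit 4228546616) (dlOf (nat_lit 1) (nat_lit 0x500080020002004600080f1283)))) 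
(.lf (nat_lit 2751633720) (dlOf (nat_lit 1) (nat_lit 0x140040004000800ab82))))) (.nd (nat_lit 8) 
(.nd (nat_lit 7) (.nd (nat_lit 11) 
(.lf (nat_lit 4228022840) (dlOf (nat_lit 1) (nat_lit 0x340008018181))) 
(.lf (nat_lit 2751633976) (dlOf (nat_lit 2) (nat_lit 0x2f083c000f604000c0040008000800b402)))) 
(.lf (nat_lit 5435984568) (dlOf (nat_lit 4) (nat_lit 0xc40220002902000e0110000601000800880002c08021000800e0002000a0008095703)))) 
(.nd (nat_lit 11) (.lf (nat_lit 2214757176) (dlOf (nat_lit 1) (nat_lit 0x28004000400080a2282))) 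
(.lf (nat_lit 6241291064) (dlOf (nat_lit 1) (nat_lit 0x5600280d5c01))))))) (.nd (nat_lit 7) 
(.nd (nat_lit 9) (.nd (nat_lit 21) (.nd (nat_lit 22) 
(.lf (nat_lit 26640440) (dlOf (nat_lit 2) (nat_lit 0xb8540026404002000400040008c50482))) 
(.lf (nat_lit 30834744) (dlOf (nat_lit 1) (nat_lit 0x400200020008e50c02)))) (.nd (nat_lit 20) 
(.lf (nat_lit 2523192) (dlOf (nat_lit 1) (nat_lit 0x58002000c0008170b02))) 
(.lf (nat_lit 24543288) (dlOf (nat_lit 1) (nat_lit 0x1c00400100008ba0b02))))) (.nd (nat_lit 8) 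
(.nd (nat_lit 10) (.lf (nat_lit 3490611768) (dlOf (nat_lit 2) (nat_lit 0xb815400002018018180))) 
(.lf (nat_lit 8291896) (dlOf (nat_lit 1) (nat_lit 0x400200020008513782)))) (.nd (nat_lit 26) 
(.lf (nat_lit 2550564664) (dlOf (nat_lit 4) (nat_lit 0x6009000400440024020001400f0013007000400340006a180008024001001100020068000d01800100480010022001800f00040068000a82001580080010002000600080f3e03))) 
(.lf (nat_lit 2751891256) (dlOf (nat_lit 1) (nat_lit 0x80028003e01)))))) (.nd (nat_lit 8) 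
(.nd (nat_lit 10) (.nd (nat_lit 19) 
(.lf (nat_lit 21397688) (dlOf (nat_lit 1) (nat_lit 0x14800200860008a31982))) 
(.lf (nat_lit 5773361336) (dlOf (nat_lit 1) (nat_lit 0x4002000200080c1702)))) (.nd (nat_lit 9) 
(.nd (nat_lit 19) (.lf (nat_lit 1009157304) (dlOf (nat_lit 1) (nat_lit 0xa0029082c81))) 
(.lf (nat_lit 51283128) (dlOf (nat_lit 1) (nat_lit 0x40009512c81)))) 
(.lf (nat_lit 20354744) (dlOf (nat_lit 1) (nat_lit 0x80080004002000200089da003))))) 
(.nd (nat_lit 26) (.nd (nat_lit 10) 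
(.lf (nat_lit 5772313016) (dlOf (nat_lit 3) (nat_lit 0x28026200e8130000b002004d0978002700800180080094002004e0008091003))) 
(.nd (nat_lit 11) (.lf (nat_lit 8291768) (dlOf (nat_lit 1) (nat_lit 0x400200020008513602))) 
(.lf (nat_lit 19828152) (dlOf (nat_lit 1) (nat_lit 0x4002000200089d6d02))))) (.nd (nat_lit 19) 
(.nd (nat_lit 27) 
(.lf (nat_lit 4362502584) (dlOf (nat_lit 1) (nat_lit 0x8008000400200020008090803))) 
(.lf (nat_lit 4228284856) (dlOf (nat_lit 1) (nat_lit 0x8008000400200020008090803)))) 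
(.lf (nat_lit 2752414136) (dlOf (nat_lit 1) (nat_lit 0x400200020008017782)))))))))) 
(.nd (nat_lit 7) (.nd (nat_lit 4) (.nd (nat_lit 28) (.nd (nat_lit 17) (.nd (nat_lit 19) 
(.nd (nat_lit 11) (.nd (nat_lit 18) (.nd (nat_lit 8) 
(.lf (nat_lit 38830184) (dlOf (nat_lit 1) (nat_lit 0x400400020009170982))) 
(.lf (nat_lit 24150376) (dlOf (nat_lit 1) (nat_lit 0x1460008b80701)))) (.nd (nat_lit 20) 
(.lf (nat_lit 2349105256) (dlOf (nat_lit 12) (nat_lit 0xd80a80004e0400600540001f02003402a0000e01001a0150000600800180a4000c01e0001304003602a00180080000401000e80a8005c0200000e04003402a00130080000201000100a8000080400040540018010000008200130150000000802800080004002002e00080a1403))) 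
(.lf (nat_lit 3440744) (dlOf (nat_lit 1) (nat_lit 0x20028200001))))) (.nd (nat_lit 9) 
(.nd (nat_lit 8) 
(.lf (nat_lit 604019816) (dlOf (nat_lit 5) (nat_lit 0x3e016001100a800b00440034004003e0000001285001c00b00170054006402200340100019001800d0008008c000000230e000a0160000d81001a00b000060080160008014c0020002000800c083))) 
(.lf (nat_lit 134253928) (dlOf (nat_lit 2) (nat_lit 0x701280002004001800400160008006a82)))) 
(.nd (nat_lit 22) 
(.lf (nat_lit 2818607720) (dlOf (nat_lit 2) (nat_lit 0x3c046006e00280308000000760c006c00400240008005382))) 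
(.lf (nat_lit 54561384) (dlOf (nat_lit 1) (nat_lit 0x20029655381)))))) (.nd (nat_lit 18) 
(.nd (nat_lit 26) (.nd (nat_lit 8) 
(.lf (nat_lit 21528680) (dlOf (nat_lit 1) (nat_lit 0x1320008a40781))) 
(.lf (nat_lit 1074299240) (dlOf (nat_lit 1) (nat_lit 0x20002000e00081b0702)))) (.nd (nat_lit 27) 
(.lf (nat_lit 604536936) (dlOf (nat_lit 1) (nat_lit 0x40028311e81))) 
(.lf (nat_lit 3959980136) (dlOf (nat_lit 2) (nat_lit 0x72046000102180004c1002a8008011c002003c0008181403))))) 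
(.nd (nat_lit 10) (.lf (nat_lit 42762344) (dlOf (nat_lit 1) (nat_lit 0xc00400020019280982))) 
(.lf (nat_lit 20747368) (dlOf (nat_lit 2) (nat_lit 0xea3c000110189d9400)))))) (.nd (nat_lit 20) 
(.nd (nat_lit 9) (.nd (nat_lit 18) 
(.lf (nat_lit 537559144) (dlOf (nat_lit 2) (nat_lit 0x814800026040008004000200180a1402))) 
(.nd (nat_lit 21) (.lf (nat_lit 1678147688) (dlOf (nat_lit 1) (nat_lit 0x200181a0001))) 
(.lf (nat_lit 48660584) (dlOf (nat_lit 3) (nat_lit 0x2183e00008404004944e000c98d00009829420980))))) 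
(.nd (nat_lit 8) (.lf (nat_lit 54692456) (dlOf (nat_lit 1) (nat_lit 0xa0009655381))) 
(.lf (nat_lit 2214761320) (dlOf (nat_lit 1) (nat_lit 0x4004000200080a8f82))))) (.nd (nat_lit 10) 
(.nd (nat_lit 9) (.lf (nat_lit 45777000) (dlOf (nat_lit 2) (nat_lit 0x167af00009819360980))) 
(.lf (nat_lit 60197480) (dlOf (nat_lit 1) (nat_lit 0x400400020009845382)))) (.nd (nat_lit 12) 
(.lf (nat_lit 38962280) (dlOf (nat_lit 2) (nat_lit 0x25fe000120080010008001000200080009192983))) 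
(.lf (nat_lit 20092008) (dlOf (nat_lit 1) (nat_lit 0x200289d9401))))))) (.nd (nat_lit 26) 
(.nd (nat_lit 8) (.nd (nat_lit 12) (.nd (nat_lit 17) 
(.lf (nat_lit 1346142312) (dlOf (nat_lit 2) (nat_lit 0x12053400d41b2001c0d800005038e60980))) 
(.nd (nat_lit 20) 
(.lf (nat_lit 1344962664) (dlOf (nat_lit 2) (nat_lit 0x2304e000e0234000000800a4004003400089a0982))) 
(.lf (nat_lit 1880785000) (dlOf (nat_lit 1) (nat_lit 0x400400020008b90982))))) (.nd (nat_lit 9) 
(.nd (nat_lit 11) (.lf (nat_lit 1476433000) (dlOf (nat_lit 1) (nat_lit 0x3c00200620008009402))) 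
(.lf (nat_lit 2952830056) (dlOf (nat_lit 5) (nat_lit 0x6e02c000d015801180a8004c05200760130028002800e80080100000000281000240000001381001b016001800ac0054054005e029005b00d0023004c00f400a002000200860000000984801980b0007805200680130059002801900000004a14013c0040022000800c082)))) 
(.lf (nat_lit 1476432488) (dlOf (nat_lit 1) (nat_lit 0x20028008981))))) (.nd (nat_lit 9) 
(.nd (nat_lit 17) 
(.lf (nat_lit 3493888360) (dlOf (nat_lit 3) (nat_lit 0x1445e0002902004622f000128181b0700))) 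
(.lf (nat_lit 3494019432) (dlOf (nat_lit 1) (nat_lit 0x200181b0701)))) (.nd (nat_lit 10) 
(.lf (nat_lit 1879087976) (dlOf (nat_lit 1) (nat_lit 0x4a2001800bc81))) 
(.lf (nat_lit 1476431720) (dlOf (nat_lit 1) (nat_lit 0x28008002c00200780008007783)))))) 
(.nd (nat_lit 30) (.nd (nat_lit 9) (.nd (nat_lit 17) (.nd (nat_lit 18) 
(.lf (nat_lit 474513512) (dlOf (nat_lit 3) (nat_lit 0x4683300008404000c02c0001302000200091a0981))) 
(.lf (nat_lit 2483322984) (dlOf (nat_lit 3) (nat_lit 0x1a02a0001301000d0150000940800900080014002001a00080a1403)))) 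
(.lf (nat_lit 473858152) (dlOf (nat_lit 2) (nat_lit 0x5014d002106c800038100030008000400200260008fc0983)))) 
(.nd (nat_lit 22) (.lf (nat_lit 3019934312) (dlOf (nat_lit 1) (nat_lit 0x20018005381))) 
(.lf (nat_lit 473991784) (dlOf (nat_lit 1) (nat_lit 0x260029005381))))) (.nd (nat_lit 8) 
(.nd (nat_lit 18) 
(.lf (nat_lit 3691025512) (dlOf (nat_lit 5) (nat_lit 0x5480b403280000002f04015c02d00c90000000b41006a00b40005604034805a0002a0200520028009401))) 
(.lf (nat_lit 3557069928) (dlOf (nat_lit 5) (nat_lit 0x1003001f80000004808002c014002a006000f002001680000004410000c00c006c00000010020001003001100000003a08037000200020008129402)))) 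
(.nd (nat_lit 9) (.nd (nat_lit 17) 
(.lf (nat_lit 1946714472) (dlOf (nat_lit 1) (nat_lit 0x20002000e00081b0702))) 
(.lf (nat_lit 4228022632) (dlOf (nat_lit 1) (nat_lit 0x20018015201)))) 
(.lf (nat_lit 3691024232) (dlOf (nat_lit 1) (nat_lit 0x180008005400200460008007783)))))))) 
(.nd (nat_lit 18) (.nd (nat_lit 8) (.nd (nat_lit 26) (.nd (nat_lit 11) (.nd (nat_lit 19) 
(.nd (nat_lit 20) 
(.lf (nat_lit 44204152) (dlOf (nat_lit 2) (nat_lit 0x99880008c040004004000400092d0b82))) 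
(.lf (nat_lit 9601144) (dlOf (nat_lit 5) (nat_lit 0x5cf680014008002e7700008204000479e000230200163cf00011018570b80)))) 
(.lf (nat_lit 28999800) (dlOf (nat_lit 1) (nat_lit 0x8008000400200020008da0483)))) 
(.nd (nat_lit 17) (.lf (nat_lit 563320) (dlOf (nat_lit 2) (nat_lit 0x24000004c602000a001800a881))) 
(.lf (nat_lit 694392) (dlOf (nat_lit 2) (nat_lit 0x24000004c602000a001800a881))))) 
(.nd (nat_lit 32) (.nd (nat_lit 9) (.nd (nat_lit 11) 
(.lf (nat_lit 3556933752) (dlOf (nat_lit 1) (nat_lit 0x1800280f2901))) 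
(.lf (nat_lit 3691026552) (dlOf (nat_lit 1) (nat_lit 0x8002000a000800a882)))) 
(.lf (nat_lit 335578744) (dlOf (nat_lit 2) (nat_lit 0x800e0004a0200020008003981)))) 
(.nd (nat_lit 9) (.nd (nat_lit 27) 
(.lf (nat_lit 5435981944) (dlOf (nat_lit 1) (nat_lit 0x320018090201))) 
(.lf (nat_lit 5570199672) (dlOf (nat_lit 1) (nat_lit 0x10008000400200020008080b83)))) 
(.lf (nat_lit 6241290872) (dlOf (nat_lit 1) (nat_lit 0x200280d5401)))))) (.nd (nat_lit 28) 
(.nd (nat_lit 9) (.nd (nat_lit 20) 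
(.lf (nat_lit 5033199992) (dlOf (nat_lit 1) (nat_lit 0x8008000400200020008004e83))) 
(.lf (nat_lit 2754644344) (dlOf (nat_lit 1) (nat_lit 0x4002000200080f4e82)))) (.nd (nat_lit 10) 
(.lf (nat_lit 46828408) (dlOf (nat_lit 1) (nat_lit 0x20019385c01))) (.nd (nat_lit 17) 
(.lf (nat_lit 4362110840) (dlOf (nat_lit 3) (nat_lit 0x24047000401680007010001011c0000e040170002006a0008004082))) 
(.lf (nat_lit 2751629176) (dlOf (nat_lit 1) (nat_lit 0x20008004081)))))) (.nd (nat_lit 10) 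
(.nd (nat_lit 9) (.nd (nat_lit 11) 
(.lf (nat_lit 6377079160) (dlOf (nat_lit 1) (nat_lit 0x1c004004400180a7d02))) 
(.lf (nat_lit 1409452408) (dlOf (nat_lit 1) (nat_lit 0x400200020008004e82)))) 
(.lf (nat_lit 473074552) (dlOf (nat_lit 3) (nat_lit 0xb0b28006d00800185940012404004000400020018c95c02)))) 
(.nd (nat_lit 11) (.lf (nat_lit 474121592) (dlOf (nat_lit 1) (nat_lit 0x18004000e00090e3502))) 
(.lf (nat_lit 3489701240) (dlOf (nat_lit 1) (nat_lit 0x800800040020002000800c903))))))) 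
(.nd (nat_lit 8) (.nd (nat_lit 27) (.nd (nat_lit 9) (.nd (nat_lit 11) 
(.lf (nat_lit 5369004152) (dlOf (nat_lit 2) (nat_lit 0x80100006402000200180c0b81))) 
(.nd (nat_lit 17) (.lf (nat_lit 3557070968) (dlOf (nat_lit 2) (nat_lit 0x400e0025e01812a880))) 
(.lf (nat_lit 432248) (dlOf (nat_lit 1) (nat_lit 0x2001800a881))))) (.nd (nat_lit 12) 
(.nd (nat_lit 19) (.lf (nat_lit 43288184) (dlOf (nat_lit 1) (nat_lit 0x1000092a3981))) 
(.lf (nat_lit 61638264) (dlOf (nat_lit 2) (nat_lit 0x1afa000154080008008001000200060009923983)))) 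
(.lf (nat_lit 20223608) (dlOf (nat_lit 1) (nat_lit 0x4002000200089d9d02))))) (.nd (nat_lit 17) 
(.nd (nat_lit 10) (.nd (nat_lit 26) 
(.lf (nat_lit 3892609144) (dlOf (nat_lit 1) (nat_lit 0x80008160281))) 
(.lf (nat_lit 5033459832) (dlOf (nat_lit 2) (nat_lit 0x40020001900800100080010002000200080c0b83)))) 
(.lf (nat_lit 2818874488) (dlOf (nat_lit 1) (nat_lit 0x2e000812c101)))) (.nd (nat_lit 26) 
(.lf (nat_lit 5773361272) (dlOf (nat_lit 2) (nat_lit 0x850c00000040004004002c00080c0b82))) 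
(.lf (nat_lit 6377341048) (dlOf (nat_lit 1) (nat_lit 0x2400180c0c01)))))) (.nd (nat_lit 9) 
(.nd (nat_lit 11) (.nd (nat_lit 26) (.nd (nat_lit 28) 
(.lf (nat_lit 3221651832) (dlOf (nat_lit 44) (nat_lit 0x7c023000081140110808005c08c008830200940450044101004a0228022040801b8118012808a0087d04001004600010228021f0100050118010f404000808c0087902007e0460043c0100430230021dc080128114010ec04001008c0087502004c0460043a0100320230021cc08005011800a008a0087204000a046004380100200230021b8080250114010ce04004408a008660200040460043101003002300050114010c208000408c008600200080460041d01000c0230020d4080088118010680400b808c000a045004190200110228020440803e0118016008a008100400fe046005502280203c1003e0118012808a0080e0400e204600530228020341003e0118012808a00809040112046004a0228020181000e01180100a0401b408c00940450040202003f02300250114010060800e808c00720450040102005602300110114010020801f008c00ae04500400020052023001ffc080358118012808a007fe040036046003f2810035023001f9008022000800d400200440008170783)))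 
(.lf (nat_lit 805732728) (dlOf (nat_lit 29) (nat_lit 0x1502a800b0048011460801200ac008840200300560044081004702b00219c080068158010700401380ac008370200820560041a81004b02b001f804c0102008012c0ac007e0130040782004e02b001f804c0101c0801280ac00800130040682004d02b001f804c0101208012c0ac007e0130040302004c02b001f804c0100808007c0ac0080302002a0130040081004902b0020000802681580050026007fe04007e0130020d01003e009800f940800e804c007c00400f8026003df02007c013001ef010028009800f740801f004c0079c0400fc026003cd02007c013001e581002d009800f240803000080124002000800081a0783)))) 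
(.lf (nat_lit 4228284792) (dlOf (nat_lit 1) (nat_lit 0x10008000400200020008090783)))) 
(.nd (nat_lit 17) (.lf (nat_lit 36473208) (dlOf (nat_lit 1) (nat_lit 0x20019074e81))) 
(.lf (nat_lit 3490089336) (dlOf (nat_lit 1) (nat_lit 0x400200020008004e82))))) (.nd (nat_lit 19) 
(.nd (nat_lit 17) (.nd (nat_lit 27) 
(.lf (nat_lit 4899244920) (dlOf (nat_lit 1) (nat_lit 0x200180d5c01))) 
(.lf (nat_lit 4496591736) (dlOf (nat_lit 1) (nat_lit 0x80080004002000200080e5c03)))) 
(.lf (nat_lit 604408696) (dlOf (nat_lit 3) (nat_lit 0x4807a00120340009015000480800024018001200900090000008b83800380a80000004001c00400040018205c02)))) 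
(.nd (nat_lit 20) (.lf (nat_lit 46959480) (dlOf (nat_lit 1) (nat_lit 0x320029385c01))) 
(.lf (nat_lit 54299512) (dlOf (nat_lit 1) (nat_lit 0x20029655c01))))))))) (.nd (nat_lit 11) 
(.nd (nat_lit 17) (.nd (nat_lit 18) (.nd (nat_lit 8) (.nd (nat_lit 10) (.nd (nat_lit 12) 
(.lf (nat_lit 1342734568) (dlOf (nat_lit 2) (nat_lit 0x5e1f30003f0180c0480))) 
(.lf (nat_lit 1342214376) (dlOf (nat_lit 1) (nat_lit 0x20018008081)))) (.nd (nat_lit 4) 
(.nd (nat_lit 26) 
(.lf (nat_lit 5502960872) (dlOf (nat_lit 2) (nat_lit 0x800480000004011000400300008002e02))) 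
(.lf (nat_lit 6106940648) (dlOf (nat_lit 2) (nat_lit 0x200580007e040004002000c0008002e02)))) 
(.lf (nat_lit 1543538424) (dlOf (nat_lit 3) (nat_lit 0x300a000048040014050000220200100028003b81))))) 
(.nd (nat_lit 9) (.nd (nat_lit 10) 
(.lf (nat_lit 469799400) (dlOf (nat_lit 1) (nat_lit 0x8008002000200020008008683))) 
(.nd (nat_lit 12) (.lf (nat_lit 8422888) (dlOf (nat_lit 1) (nat_lit 0x400400060018513602))) 
(.lf (nat_lit 2952828392) (dlOf (nat_lit 1) (nat_lit 0x160028009b81))))) (.nd (nat_lit 4) 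
(.nd (nat_lit 26) (.lf (nat_lit 3623913448) (dlOf (nat_lit 1) (nat_lit 0x400200020008004602))) 
(.lf (nat_lit 1543538664) (dlOf (nat_lit 4) (nat_lit 0xf803c0006604000401e0003202002600f00018018004600)))) 
(.nd (nat_lit 21) 
(.lf (nat_lit 5502960632) (dlOf (nat_lit 2) (nat_lit 0x74009001a700802e8008009400200300008002883))) 
(.lf (nat_lit 6377473016) (dlOf (nat_lit 1) (nat_lit 0x400180e2881))))))) (.nd (nat_lit 20) 
(.nd (nat_lit 10) (.nd (nat_lit 4) (.nd (nat_lit 26) 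
(.lf (nat_lit 3221520872) (dlOf (nat_lit 2) (nat_lit 0xa600e00011018127300))) 
(.lf (nat_lit 3959718376) (dlOf (nat_lit 1) (nat_lit 0x48008006000200780008127d03)))) 
(.lf (nat_lit 5905875448) (dlOf (nat_lit 2) (nat_lit 0x404a0005c0200080008157e01)))) 
(.nd (nat_lit 8) 
(.lf (nat_lit 5772182760) (dlOf (nat_lit 2) (nat_lit 0x1c011000000080140008003000200180008092e03))) 
(.lf (nat_lit 8685032) (dlOf (nat_lit 1) (nat_lit 0x400200020008513602))))) (.nd (nat_lit 4) 
(.nd (nat_lit 8) (.nd (nat_lit 19) 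
(.lf (nat_lit 3491004648) (dlOf (nat_lit 1) (nat_lit 0x4a400401000008046b82))) 
(.lf (nat_lit 54296808) (dlOf (nat_lit 2) (nat_lit 0x19c000000bd0200380019650a81)))) 
(.lf (nat_lit 8163816) (dlOf (nat_lit 1) (nat_lit 0x20018518681)))) (.nd (nat_lit 8) 
(.lf (nat_lit 2752807160) (dlOf (nat_lit 1) (nat_lit 0x20018047781))) (.nd (nat_lit 9) 
(.lf (nat_lit 3441144) (dlOf (nat_lit 1) (nat_lit 0x400200020008200d82))) 
(.lf (nat_lit 50103288) (dlOf (nat_lit 1) (nat_lit 0x80080004002000200094c2883)))))))) 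
(.nd (nat_lit 30) (.nd (nat_lit 19) (.nd (nat_lit 10) (.nd (nat_lit 4) 
(.lf (nat_lit 6455528) (dlOf (nat_lit 1) (nat_lit 0x400400020008420602))) (.nd (nat_lit 18) 
(.lf (nat_lit 2885845496) (dlOf (nat_lit 1) (nat_lit 0x400080b0d81))) 
(.lf (nat_lit 2886107640) (dlOf (nat_lit 2) (nat_lit 0x170000000b4080020008001400200040008157e03))))) 
(.nd (nat_lit 9) (.nd (nat_lit 22) 
(.lf (nat_lit 5301765352) (dlOf (nat_lit 1) (nat_lit 0x40008092e01))) 
(.lf (nat_lit 474121448) (dlOf (nat_lit 5) (nat_lit 0xe117000a0894004c41600181b20002304000d11700088894004c416003a207000d0d9000986b40008a180018006000a00100021820012117000d0894005841600241b200140000000e02800380080004002001400090e2e03)))) 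
(.lf (nat_lit 939689704) (dlOf (nat_lit 1) (nat_lit 0x20028143b01))))) (.nd (nat_lit 4) 
(.nd (nat_lit 10) (.nd (nat_lit 21) 
(.lf (nat_lit 2752414184) (dlOf (nat_lit 4) (nat_lit 0x120920007da040070490003d702000e24c002d1248000001000f80080138002001a0008017d03))) 
(.lf (nat_lit 3047912) (dlOf (nat_lit 1) (nat_lit 0x20028200c81)))) 
(.lf (nat_lit 8033768) (dlOf (nat_lit 1) (nat_lit 0xf20018519b81)))) (.nd (nat_lit 9) 
(.lf (nat_lit 23757304) (dlOf (nat_lit 1) (nat_lit 0xc00400020018b80d82))) 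
(.lf (nat_lit 58360824) (dlOf (nat_lit 1) (nat_lit 0x1880080068002009c00097e2883)))))) 
(.nd (nat_lit 10) (.nd (nat_lit 18) (.nd (nat_lit 8) 
(.lf (nat_lit 5435982056) (dlOf (nat_lit 2) (nat_lit 0x78060000bd02000e0008090a81))) 
(.nd (nat_lit 28) 
(.lf (nat_lit 1610777064) (dlOf (nat_lit 1) (nat_lit 0xb0008005400200020008091303))) 
(.lf (nat_lit 1342341608) (dlOf (nat_lit 1) (nat_lit 0xea0018017301))))) (.nd (nat_lit 4) 
(.lf (nat_lit 3490611688) (dlOf (nat_lit 2) (nat_lit 0x981e600011018017300))) (.nd (nat_lit 20) 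
(.lf (nat_lit 3490611704) (dlOf (nat_lit 3) (nat_lit 0xa446000a4e02005223000521818017800))) 
(.lf (nat_lit 3491660280) (dlOf (nat_lit 1) (nat_lit 0x2000400140008090d82)))))) (.nd (nat_lit 18) 
(.nd (nat_lit 8) (.lf (nat_lit 2080539880) (dlOf (nat_lit 1) (nat_lit 0x400400020008092e02))) 
(.nd (nat_lit 9) 
(.lf (nat_lit 1610778088) (dlOf (nat_lit 2) (nat_lit 0x2020800004080060008000400200040008093603))) 
(.lf (nat_lit 1677887464) (dlOf (nat_lit 1) (nat_lit 0x20028114601))))) (.nd (nat_lit 19) 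
(.lf (nat_lit 1476822504) (dlOf (nat_lit 3) (nat_lit 0x4807a00120340009015000480800024018001200900090000008b83800380a80000004001c00400040018203602))) 
(.lf (nat_lit 1346274792) (dlOf (nat_lit 1) (nat_lit 0x2140008e83601)))))))) (.nd (nat_lit 8) 
(.nd (nat_lit 10) (.nd (nat_lit 4) (.nd (nat_lit 9) (.nd (nat_lit 17) 
(.lf (nat_lit 2348845288) (dlOf (nat_lit 1) (nat_lit 0x1c00200040008004b02))) 
(.lf (nat_lit 2751891688) (dlOf (nat_lit 2) (nat_lit 0x40f2000180200020028004b01)))) 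
(.lf (nat_lit 19831528) (dlOf (nat_lit 1) (nat_lit 0x200189db981)))) (.nd (nat_lit 26) 
(.nd (nat_lit 28) 
(.lf (nat_lit 4831873784) (dlOf (nat_lit 1) (nat_lit 0x8008011c002003c0008005a03))) 
(.lf (nat_lit 5100309240) (dlOf (nat_lit 1) (nat_lit 0x40018005a01)))) (.nd (nat_lit 17) 
(.lf (nat_lit 4496329464) (dlOf (nat_lit 1) (nat_lit 0x20018005a01))) 
(.lf (nat_lit 738888440) (dlOf (nat_lit 2) (nat_lit 0x9010800074080030008000400200060008125a03)))))) 
(.nd (nat_lit 17) (.nd (nat_lit 26) (.nd (nat_lit 19) 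
(.lf (nat_lit 671124712) (dlOf (nat_lit 4) (nat_lit 0x26026000601280038088003803e001601300250018000d83000200300006404011c018000300200020028006501))) 
(.lf (nat_lit 3490221288) (dlOf (nat_lit 1) (nat_lit 0x240018006501)))) (.nd (nat_lit 20) 
(.nd (nat_lit 27) 
(.lf (nat_lit 2483064040) (dlOf (nat_lit 1) (nat_lit 0x18008001000200040008006503))) 
(.lf (nat_lit 2885717224) (dlOf (nat_lit 1) (nat_lit 0x44002003a0008006502)))) 
(.lf (nat_lit 2754645224) (dlOf (nat_lit 2) (nat_lit 0x200e0000b4080090008000c002000400080f6503))))) 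
(.nd (nat_lit 18) (.nd (nat_lit 20) 
(.lf (nat_lit 1812106472) (dlOf (nat_lit 2) (nat_lit 0x1806000140000000004002e0018146501))) 
(.lf (nat_lit 2754776296) (dlOf (nat_lit 1) (nat_lit 0x4002000200080f6502)))) (.nd (nat_lit 20) 
(.lf (nat_lit 3490090216) (dlOf (nat_lit 1) (nat_lit 0x40028006501))) 
(.lf (nat_lit 2755038440) (dlOf (nat_lit 1) (nat_lit 0x4002000600080f6502))))))) (.nd (nat_lit 4) 
(.nd (nat_lit 9) (.nd (nat_lit 17) (.nd (nat_lit 10) (.nd (nat_lit 26) 
(.lf (nat_lit 134253032) (dlOf (nat_lit 4) (nat_lit 0x1e046000e017805d08100020128001008c0173204000a04600b98818004e80))) 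
(.lf (nat_lit 5167417832) (dlOf (nat_lit 1) (nat_lit 0x400400020008054e82)))) 
(.lf (nat_lit 19959272) (dlOf (nat_lit 2) (nat_lit 0x429b40000e04000c004001000189d6e82)))) 
(.nd (nat_lit 18) 
(.lf (nat_lit 5435984360) (dlOf (nat_lit 1) (nat_lit 0x8008000400200020008094e83))) 
(.lf (nat_lit 38177256) (dlOf (nat_lit 1) (nat_lit 0x20029134e81))))) (.nd (nat_lit 12) 
(.lf (nat_lit 20220904) (dlOf (nat_lit 1) (nat_lit 0x8008000c002000200089d5e83))) (.nd (nat_lit 26) 
(.lf (nat_lit 2952829928) (dlOf (nat_lit 1) (nat_lit 0x9800800240020050000800bf03))) 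
(.lf (nat_lit 604019688) (dlOf (nat_lit 1) (nat_lit 0x54000800bf01)))))) (.nd (nat_lit 10) 
(.nd (nat_lit 9) (.nd (nat_lit 12) (.nd (nat_lit 18) 
(.lf (nat_lit 37259768) (dlOf (nat_lit 1) (nat_lit 0x400200a800090d4f82))) 
(.lf (nat_lit 47483384) (dlOf (nat_lit 1) (nat_lit 0x20029404f81)))) 
(.lf (nat_lit 2751896056) (dlOf (nat_lit 1) (nat_lit 0x10c0040072000800b282)))) (.nd (nat_lit 17) 
(.lf (nat_lit 3892349944) (dlOf (nat_lit 1) (nat_lit 0x20028005f01))) 
(.lf (nat_lit 54692856) (dlOf (nat_lit 2) (nat_lit 0x53a20000c80800c0008000c002003c0009655f03))))) 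
(.nd (nat_lit 12) (.nd (nat_lit 9) 
(.lf (nat_lit 2483064312) (dlOf (nat_lit 1) (nat_lit 0x20008000c00200040008006f83))) 
(.lf (nat_lit 67145720) (dlOf (nat_lit 1) (nat_lit 0x240018007a81)))) (.nd (nat_lit 26) 
(.lf (nat_lit 2952830456) (dlOf (nat_lit 4) (nat_lit 0x18400000a5b0200cc000005230100990000029140800780080060002003e000800cd03))) 
(.lf (nat_lit 604020216) (dlOf (nat_lit 2) (nat_lit 0xc8000014b604000c0020018000800cd02))))))))))))

end

end Pool.Agent.Lib.MP_5854e1_co.Cz
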