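import Pool.Agent.Lib.MP_5854e1_co.DecRow

/-!
# Sparse corrections
-/

set_option autoImplicit false
set_option maxRecDepth 100000

namespace Pool.Agent.Lib.MP_5854e1_co.Cz

noncomputable section

noncomputable def tz148 : DT := (.nd (nat_lit 15) (.nd (nat_lit 16) (.nd (nat_lit 7) 
(.nd (nat_lit 18) (.nd (nat_lit 27) (.nd (nat_lit 8) (.nd (nat_lit 20) (.nd (nat_lit 19) 
(.nd (nat_lit 21) (.nd (nat_lit 10) 
(.lf (nat_lit 12582947) (dlOf (nat_lit 1) (nat_lit 0x200186d0901))) 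
(.lf (nat_lit 3489664035) (dlOf (nat_lit 1) (nat_lit 0x1c0028006081)))) (.nd (nat_lit 6) 
(.nd (nat_lit 13) 
(.lf (nat_lit 52428835) (dlOf (nat_lit 3) (nat_lit 0x2dd2c0096e05000138200037028000b49c0004c08000400200020009530182))) 
(.lf (nat_lit 10493987) (dlOf (nat_lit 4) (nat_lit 0x79fb000b2060000a4100061030000500400148180002702006800185e0c01)))) 
(.lf (nat_lit 1344274531) (dlOf (nat_lit 1) (nat_lit 0x100080014002000a0008560d03))))) 
(.nd (nat_lit 6) (.nd (nat_lit 13) (.nd (nat_lit 21) 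
(.lf (nat_lit 1611137059) (dlOf (nat_lit 2) (nat_lit 0xa0084008002a004c0048000bc1802000080008002007600080f0b83))) 
(.lf (nat_lit 2754084899) (dlOf (nat_lit 1) (nat_lit 0xe00280b0a81)))) 
(.lf (nat_lit 21504035) (dlOf (nat_lit 2) (nat_lit 0x13e74c009f31a000450400080018a40181)))) 
(.nd (nat_lit 22) 
(.lf (nat_lit 4362600547) (dlOf (nat_lit 1) (nat_lit 0x2200080050002004a00080a1283))) 
(.lf (nat_lit 55050339) (dlOf (nat_lit 1) (nat_lit 0x90008000800200080009690783)))))) 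
(.nd (nat_lit 21) (.nd (nat_lit 6) (.nd (nat_lit 22) 
(.lf (nat_lit 68157475) (dlOf (nat_lit 2) (nat_lit 0x160dc0000e818400180))) (.nd (nat_lit 23) 
(.lf (nat_lit 22020131) (dlOf (nat_lit 1) (nat_lit 0x400400060008a90502))) 
(.lf (nat_lit 13631523) (dlOf (nat_lit 1) (nat_lit 0x80002009c0008730902))))) (.nd (nat_lit 13) 
(.lf (nat_lit 68157539) (dlOf (nat_lit 1) (nat_lit 0x20018400d01))) 
(.lf (nat_lit 30416995) (dlOf (nat_lit 1) (nat_lit 0x400400020008e30482))))) (.nd (nat_lit 13) 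
(.nd (nat_lit 19) 
(.lf (nat_lit 11534371) (dlOf (nat_lit 1) (nat_lit 0x1600080048002004000086b0803))) 
(.lf (nat_lit 45613091) (dlOf (nat_lit 3) (nat_lit 0x303120005402001a66500028819340180)))) 
(.nd (nat_lit 10) (.nd (nat_lit 22) 
(.lf (nat_lit 45621283) (dlOf (nat_lit 2) (nat_lit 0x31994000a204000400400060009340182))) 
(.lf (nat_lit 24649763) (dlOf (nat_lit 1) (nat_lit 0x400200020008bb0882)))) 
(.lf (nat_lit 20458531) (dlOf (nat_lit 1) (nat_lit 0x400289d6081))))))) (.nd (nat_lit 6) 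
(.nd (nat_lit 10) (.nd (nat_lit 30) (.nd (nat_lit 26) 
(.lf (nat_lit 536877347) (dlOf (nat_lit 1) (nat_lit 0x40040002000800ab82))) 
(.lf (nat_lit 4362082595) (dlOf (nat_lit 1) (nat_lit 0x2002800ab81)))) (.nd (nat_lit 11) 
(.lf (nat_lit 3490709795) (dlOf (nat_lit 1) (nat_lit 0xc0028014301))) 
(.lf (nat_lit 1073748259) (dlOf (nat_lit 1) (nat_lit 0x80040006000800ab82))))) (.nd (nat_lit 9) 
(.nd (nat_lit 11) (.lf (nat_lit 8918307) (dlOf (nat_lit 1) (nat_lit 0xe8004005e0018519782))) 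
(.lf (nat_lit 3288337699) (dlOf (nat_lit 1) (nat_lit 0xb000400080008006802)))) 
(.lf (nat_lit 603985699) (dlOf (nat_lit 1) (nat_lit 0x2000800a001))))) (.nd (nat_lit 11) 
(.nd (nat_lit 13) (.nd (nat_lit 20) 
(.lf (nat_lit 2097507) (dlOf (nat_lit 1) (nat_lit 0x18008000c00200060008150703))) 
(.lf (nat_lit 3490709859) (dlOf (nat_lit 1) (nat_lit 0x20008014f01)))) 
(.lf (nat_lit 2105699) (dlOf (nat_lit 2) (nat_lit 0x468f80006804001c00200140008150702)))) 
(.nd (nat_lit 9) (.nd (nat_lit 10) 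
(.lf (nat_lit 2754619747) (dlOf (nat_lit 1) (nat_lit 0x180080014002000400080f4e83))) 
(.lf (nat_lit 3490188643) (dlOf (nat_lit 1) (nat_lit 0xa0028006a81)))) 
(.lf (nat_lit 2483043171) (dlOf (nat_lit 1) (nat_lit 0xf400400bc000800bc82))))))) (.nd (nat_lit 11) 
(.nd (nat_lit 13) (.nd (nat_lit 6) (.nd (nat_lit 26) (.nd (nat_lit 9) (.nd (nat_lit 29) 
(.lf (nat_lit 134742051) (dlOf (nat_lit 2) (nat_lit 0x1f408200ca03d001401c0064681800480080014002002c00080a0903))) 
(.lf (nat_lit 2819096611) (dlOf (nat_lit 2) (nat_lit 0x5ac07e000b702000200081a0601)))) 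
(.lf (nat_lit 5502928419) (dlOf (nat_lit 1) (nat_lit 0x8008000400200020008003703)))) 
(.nd (nat_lit 29) 
(.lf (nat_lit 201850915) (dlOf (nat_lit 2) (nat_lit 0x1f408200ca03d001401c00719c1800480080014002002c00080a0903))) 
(.lf (nat_lit 738721827) (dlOf (nat_lit 2) (nat_lit 0xa0084008002a004c0048000bc1802000080008002007600080f0b83))))) 
(.nd (nat_lit 10) (.nd (nat_lit 19) 
(.lf (nat_lit 471859299) (dlOf (nat_lit 1) (nat_lit 0x100080014002000a0008540d03))) 
(.lf (nat_lit 4228382819) (dlOf (nat_lit 1) (nat_lit 0x1080080058002003000080a1383)))) 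
(.lf (nat_lit 3690992739) (dlOf (nat_lit 1) (nat_lit 0xac0008009401))))) (.nd (nat_lit 31) 
(.nd (nat_lit 9) (.nd (nat_lit 19) 
(.lf (nat_lit 473964579) (dlOf (nat_lit 1) (nat_lit 0x400400020008fe0182))) 
(.lf (nat_lit 474488867) (dlOf (nat_lit 4) (nat_lit 0x9850c000ac0400342ac0080143001204b0001501800d8214000a204000400400040019180182)))) 
(.lf (nat_lit 470295075) (dlOf (nat_lit 2) (nat_lit 0x3e23c0010e0180c0d80)))) (.nd (nat_lit 10) 
(.nd (nat_lit 26) 
(.lf (nat_lit 2819104803) (dlOf (nat_lit 2) (nat_lit 0x3600fc0016e040014002004800081a0602))) 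
(.lf (nat_lit 3154649123) (dlOf (nat_lit 1) (nat_lit 0x40028300681)))) 
(.lf (nat_lit 3623887907) (dlOf (nat_lit 1) (nat_lit 0xac002003a0008002882)))))) (.nd (nat_lit 6) 
(.nd (nat_lit 9) (.nd (nat_lit 13) (.nd (nat_lit 8) 
(.lf (nat_lit 3623884835) (dlOf (nat_lit 1) (nat_lit 0x40040002000800a602))) 
(.lf (nat_lit 469768483) (dlOf (nat_lit 1) (nat_lit 0x4002800ab81)))) (.nd (nat_lit 10) 
(.lf (nat_lit 3623893027) (dlOf (nat_lit 1) (nat_lit 0x18001800a601))) 
(.lf (nat_lit 2550148131) (dlOf (nat_lit 1) (nat_lit 0x20028006081))))) (.nd (nat_lit 13) 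
(.lf (nat_lit 201333283) (dlOf (nat_lit 1) (nat_lit 0x80040002001800b282))) (.nd (nat_lit 26) 
(.lf (nat_lit 4429199907) (dlOf (nat_lit 1) (nat_lit 0x40020002000800b282))) 
(.lf (nat_lit 201341475) (dlOf (nat_lit 1) (nat_lit 0x4000800040020004000800b283)))))) 
(.nd (nat_lit 8) (.nd (nat_lit 12) (.nd (nat_lit 13) 
(.lf (nat_lit 1543506019) (dlOf (nat_lit 2) (nat_lit 0x1402c000b00e8001802000140000005608007c0028004701))) 
(.lf (nat_lit 1543514211) (dlOf (nat_lit 2) (nat_lit 0xc00980008046002601d001200c00098040004800a002200200120000001584000f8008001400200020008004703)))) 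
(.nd (nat_lit 13) (.lf (nat_lit 1543510115) (dlOf (nat_lit 2) (nat_lit 0x6000000a001800a800))) 
(.lf (nat_lit 1543518307) (dlOf (nat_lit 2) (nat_lit 0x27404c013c019009f001804d0000002801000480040002001800a802))))) 
(.nd (nat_lit 10) (.nd (nat_lit 30) 
(.lf (nat_lit 5301602659) (dlOf (nat_lit 1) (nat_lit 0x180028004e81))) 
(.lf (nat_lit 4227860835) (dlOf (nat_lit 1) (nat_lit 0x340028004e81)))) (.nd (nat_lit 12) 
(.lf (nat_lit 4227861859) (dlOf (nat_lit 1) (nat_lit 0x20028006a81))) 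
(.lf (nat_lit 134233443) (dlOf (nat_lit 1) (nat_lit 0x4000800040020004000800c903))))))))) 
(.nd (nat_lit 13) (.nd (nat_lit 19) (.nd (nat_lit 28) (.nd (nat_lit 20) (.nd (nat_lit 24) 
(.nd (nat_lit 29) 
(.lf (nat_lit 2214854691) (dlOf (nat_lit 1) (nat_lit 0x80080004002000200080d0583))) 
(.lf (nat_lit 604241955) (dlOf (nat_lit 1) (nat_lit 0x200280e0581)))) (.nd (nat_lit 6) 
(.lf (nat_lit 21233699) (dlOf (nat_lit 1) (nat_lit 0x1e0028a20581))) 
(.lf (nat_lit 19136611) (dlOf (nat_lit 1) (nat_lit 0x18008000400200020008970483))))) 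
(.nd (nat_lit 6) (.nd (nat_lit 21) 
(.lf (nat_lit 26476579) (dlOf (nat_lit 7) (nat_lit 0xf67420000b0200073a1000050100099d0800024080084e840001004005e7420000702001d3a100000018c50180))) 
(.lf (nat_lit 11796515) (dlOf (nat_lit 3) (nat_lit 0x15c715003e68100de38a801f2c0800380080020002000600086c0003)))) 
(.lf (nat_lit 24379491) (dlOf (nat_lit 1) (nat_lit 0x400200020008b91382))))) (.nd (nat_lit 26) 
(.nd (nat_lit 27) (.nd (nat_lit 29) 
(.lf (nat_lit 1342439459) (dlOf (nat_lit 1) (nat_lit 0x12c00400780008030982))) 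
(.lf (nat_lit 4026794019) (dlOf (nat_lit 2) (nat_lit 0xe01b00250c0800a0008001c00200280008090003)))) 
(.lf (nat_lit 402915363) (dlOf (nat_lit 2) (nat_lit 0x480900004804000c002000400080a0782)))) 
(.nd (nat_lit 6) (.nd (nat_lit 30) 
(.lf (nat_lit 470024227) (dlOf (nat_lit 1) (nat_lit 0x12c00400780008030982))) 
(.lf (nat_lit 3691249699) (dlOf (nat_lit 1) (nat_lit 0x18008000c002000800080e0683)))) 
(.lf (nat_lit 472121443) (dlOf (nat_lit 1) (nat_lit 0x23c00400ac0008840902)))))) (.nd (nat_lit 21) 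
(.nd (nat_lit 20) (.nd (nat_lit 8) (.nd (nat_lit 10) (.nd (nat_lit 23) 
(.lf (nat_lit 2819358755) (dlOf (nat_lit 22) (nat_lit 0x981bc0139c0403040de009cd02018e06f004e50100a70390004010c00f007e000201c002a80401420390004010c00d007e0054f06008e0720035021802900fc00a980c05500f0006a072014703880ab81b4051c0d8028e067014c02f0007817405340b20020058015302580a3812803ac09000e0043010001f80a7006800a8c4000200380053e02001001c0029e8100090218014ec0801a810c00a5e0400e40de0043f0200a406f002088100b103780008084007f00803540de0002021001fb820001037801380d0007e20803480de003e20201b006f001f0810001037801380d0007ba0802940de003d702000406f002101a00000010001000800a4002005e0008250703))) 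
(.lf (nat_lit 42729507) (dlOf (nat_lit 1) (nat_lit 0x400400020009280182)))) 
(.lf (nat_lit 1410073635) (dlOf (nat_lit 1) (nat_lit 0x8000180f2881)))) (.nd (nat_lit 6) 
(.lf (nat_lit 537664291) (dlOf (nat_lit 1) (nat_lit 0x20004001e00080fbc82))) 
(.lf (nat_lit 67900259) (dlOf (nat_lit 1) (nat_lit 0x400200020008338f82))))) (.nd (nat_lit 6) 
(.nd (nat_lit 22) (.lf (nat_lit 1835043) (dlOf (nat_lit 1) (nat_lit 0x400400020008150002))) 
(.lf (nat_lit 31195171) (dlOf (nat_lit 1) (nat_lit 0xc0018e70601)))) (.nd (nat_lit 26) 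
(.lf (nat_lit 5773197411) (dlOf (nat_lit 1) (nat_lit 0x3200280b0d81))) 
(.lf (nat_lit 6377177187) (dlOf (nat_lit 1) (nat_lit 0x3200280b0d81)))))) (.nd (nat_lit 20) 
(.nd (nat_lit 26) (.nd (nat_lit 9) (.nd (nat_lit 28) 
(.lf (nat_lit 2883619) (dlOf (nat_lit 2) (nat_lit 0x93ea001e602000200181c0901))) 
(.lf (nat_lit 3492544547) (dlOf (nat_lit 1) (nat_lit 0x300080028002001200080d0903)))) 
(.lf (nat_lit 19668515) (dlOf (nat_lit 1) (nat_lit 0xe00289dcf81)))) (.nd (nat_lit 28) 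
(.lf (nat_lit 2754347043) (dlOf (nat_lit 1) (nat_lit 0x300080028002001200080d0903))) 
(.lf (nat_lit 4096524323) (dlOf (nat_lit 1) (nat_lit 0x400400020008120182))))) (.nd (nat_lit 8) 
(.nd (nat_lit 26) 
(.lf (nat_lit 3493593123) (dlOf (nat_lit 1) (nat_lit 0x8008000400200020008170503))) 
(.lf (nat_lit 2755395619) (dlOf (nat_lit 1) (nat_lit 0x8008000400200020008170503)))) 
(.lf (nat_lit 12321059) (dlOf (nat_lit 1) (nat_lit 0x200286c0501))))))) (.nd (nat_lit 31) 
(.nd (nat_lit 20) (.nd (nat_lit 28) (.nd (nat_lit 23) (.nd (nat_lit 24) (.nd (nat_lit 26) 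
(.lf (nat_lit 671359011) (dlOf (nat_lit 2) (nat_lit 0x1c04a00d4022005f8028160480))) 
(.lf (nat_lit 67379235) (dlOf (nat_lit 2) (nat_lit 0x505b80003a040004004000400180f0182)))) 
(.nd (nat_lit 6) (.lf (nat_lit 17047587) (dlOf (nat_lit 1) (nat_lit 0x4002000200088e0002))) 
(.lf (nat_lit 19144803) (dlOf (nat_lit 1) (nat_lit 0x78008000400200100008970483))))) 
(.nd (nat_lit 19) (.nd (nat_lit 21) 
(.lf (nat_lit 29630499) (dlOf (nat_lit 1) (nat_lit 0x8008000400200020008e30003))) 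
(.lf (nat_lit 44310563) (dlOf (nat_lit 4) (nat_lit 0x1131c000918840002808002cc7000146210000982000331c0001188400024080004004000400092f0882)))) 
(.lf (nat_lit 13377571) (dlOf (nat_lit 1) (nat_lit 0x1d0008024c002015a0008720b03))))) 
(.nd (nat_lit 6) (.nd (nat_lit 26) 
(.lf (nat_lit 1476665379) (dlOf (nat_lit 1) (nat_lit 0x200280f0581))) (.nd (nat_lit 29) 
(.lf (nat_lit 1543774243) (dlOf (nat_lit 5) (nat_lit 0x220110019a808009808800cd0040004044006640200620220032d818160480))) 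
(.lf (nat_lit 2080645155) (dlOf (nat_lit 1) (nat_lit 0x200280a0781))))) (.nd (nat_lit 9) 
(.lf (nat_lit 1410082915) (dlOf (nat_lit 1) (nat_lit 0x2c00280f4701))) 
(.lf (nat_lit 6174287459) (dlOf (nat_lit 1) (nat_lit 0x4800180d3901)))))) (.nd (nat_lit 22) 
(.nd (nat_lit 21) (.nd (nat_lit 6) 
(.lf (nat_lit 26484771) (dlOf (nat_lit 6) (nat_lit 0x79d080018000000160800c00000000a02000f3a1000048100089d0800020080034e84000000400dc00200160008c50182))) 
(.lf (nat_lit 26484835) (dlOf (nat_lit 3) (nat_lit 0x4cea4001661a001130c000b00300019d480014c34002ac08001400200060008c50d02)))) 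
(.nd (nat_lit 10) (.lf (nat_lit 62136355) (dlOf (nat_lit 1) (nat_lit 0x140029960181))) 
(.lf (nat_lit 20196387) (dlOf (nat_lit 1) (nat_lit 0x1000289d6081))))) (.nd (nat_lit 6) 
(.nd (nat_lit 9) (.lf (nat_lit 5513251) (dlOf (nat_lit 1) (nat_lit 0x60028380681))) 
(.lf (nat_lit 8141347) (dlOf (nat_lit 1) (nat_lit 0x6001851b281)))) (.nd (nat_lit 8) 
(.lf (nat_lit 32776291) (dlOf (nat_lit 1) (nat_lit 0x8008001800200020008f10903))) 
(.lf (nat_lit 50079075) (dlOf (nat_lit 2) (nat_lit 0xa546000198194c3400))))))) (.nd (nat_lit 26) 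
(.nd (nat_lit 6) (.nd (nat_lit 19) (.nd (nat_lit 8) 
(.lf (nat_lit 2953060387) (dlOf (nat_lit 1) (nat_lit 0x400280f0701))) 
(.lf (nat_lit 3892584739) (dlOf (nat_lit 1) (nat_lit 0x8008000400200020008160703)))) 
(.nd (nat_lit 21) 
(.lf (nat_lit 2819366947) (dlOf (nat_lit 5) (nat_lit 0x7c0d40055002006606a002a7810018035000301a400300b20018058002a3040007035000fc408017800800a800200020008250703))) 
(.lf (nat_lit 3492552739) (dlOf (nat_lit 1) (nat_lit 0x400180e0481))))) (.nd (nat_lit 11) 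
(.lf (nat_lit 2818847843) (dlOf (nat_lit 3) (nat_lit 0x1c0460001001000e023000070080130008004c00200440008129403))) 
(.lf (nat_lit 2818849891) (dlOf (nat_lit 2) (nat_lit 0x501f8000a008007800800180020064000812c083))))) 
(.nd (nat_lit 28) (.nd (nat_lit 19) (.nd (nat_lit 27) 
(.lf (nat_lit 3825475619) (dlOf (nat_lit 1) (nat_lit 0x400400160008160482))) 
(.lf (nat_lit 2349080611) (dlOf (nat_lit 1) (nat_lit 0x400280a0901)))) 
(.lf (nat_lit 2754355235) (dlOf (nat_lit 1) (nat_lit 0x400180e0481)))) (.nd (nat_lit 29) 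
(.nd (nat_lit 6) (.lf (nat_lit 2483298339) (dlOf (nat_lit 1) (nat_lit 0x400280a0901))) 
(.lf (nat_lit 2483298403) (dlOf (nat_lit 12) (nat_lit 0x4900a00004e04022c050000260201260280001181008b01400140038000440801d80500002102015e0280001001009d0140000740804c00a0000380402e40500001702014c0280000a8100610140000000800180080098002001600080a1383)))) 
(.nd (nat_lit 19) (.lf (nat_lit 3020169251) (dlOf (nat_lit 1) (nat_lit 0x20028140601))) 
(.lf (nat_lit 4096532515) (dlOf (nat_lit 2) (nat_lit 0x813200013818120180)))))))))) 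
(.nd (nat_lit 28) (.nd (nat_lit 6) (.nd (nat_lit 10) (.nd (nat_lit 8) (.nd (nat_lit 20) 
(.nd (nat_lit 11) (.nd (nat_lit 18) 
(.lf (nat_lit 5435818147) (dlOf (nat_lit 1) (nat_lit 0x60018000581))) 
(.lf (nat_lit 5436080291) (dlOf (nat_lit 2) (nat_lit 0xf80110000a8180c1400)))) (.nd (nat_lit 9) 
(.lf (nat_lit 4429195427) (dlOf (nat_lit 1) (nat_lit 0x800400020008004882))) 
(.lf (nat_lit 33557155) (dlOf (nat_lit 1) (nat_lit 0x400400020008f55602))))) (.nd (nat_lit 13) 
(.nd (nat_lit 18) (.lf (nat_lit 36702883) (dlOf (nat_lit 1) (nat_lit 0x800200020009075602))) 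
(.lf (nat_lit 53742243) (dlOf (nat_lit 1) (nat_lit 0x18008000c002000400095f5603)))) 
(.nd (nat_lit 24) (.lf (nat_lit 36711075) (dlOf (nat_lit 1) (nat_lit 0x400200020009075602))) 
(.lf (nat_lit 53488291) (dlOf (nat_lit 1) (nat_lit 0x200295f5601)))))) (.nd (nat_lit 11) 
(.nd (nat_lit 13) (.lf (nat_lit 3959947683) (dlOf (nat_lit 1) (nat_lit 0x400400020018170782))) 
(.nd (nat_lit 19) 
(.lf (nat_lit 1140859299) (dlOf (nat_lit 2) (nat_lit 0x180900038404000400200020008001002))) 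
(.lf (nat_lit 3959955875) (dlOf (nat_lit 2) (nat_lit 0x1c03e0065b018170780))))) (.nd (nat_lit 26) 
(.nd (nat_lit 9) (.lf (nat_lit 134220195) (dlOf (nat_lit 1) (nat_lit 0x400400020008004e82))) 
(.lf (nat_lit 46402467) (dlOf (nat_lit 2) (nat_lit 0x2abf6000720200100009385c81)))) 
(.nd (nat_lit 12) (.lf (nat_lit 2754619811) (dlOf (nat_lit 1) (nat_lit 0x4002000200080f4e82))) 
(.lf (nat_lit 67115427) (dlOf (nat_lit 1) (nat_lit 0x40040002000800af82))))))) (.nd (nat_lit 13) 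
(.nd (nat_lit 8) (.nd (nat_lit 18) (.nd (nat_lit 9) 
(.lf (nat_lit 36701347) (dlOf (nat_lit 1) (nat_lit 0x20019072c01))) 
(.lf (nat_lit 2751465123) (dlOf (nat_lit 1) (nat_lit 0x240028003a81)))) (.nd (nat_lit 19) 
(.lf (nat_lit 61080739) (dlOf (nat_lit 1) (nat_lit 0x4002000200098c2c02))) 
(.lf (nat_lit 36439203) (dlOf (nat_lit 1) (nat_lit 0x20019072c01))))) (.nd (nat_lit 9) 
(.nd (nat_lit 11) (.lf (nat_lit 8127907) (dlOf (nat_lit 1) (nat_lit 0x400200020008513602))) 
(.lf (nat_lit 6442454435) (dlOf (nat_lit 1) (nat_lit 0x4002005c0008006d02)))) 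
(.lf (nat_lit 67112867) (dlOf (nat_lit 1) (nat_lit 0x20018007881))))) (.nd (nat_lit 19) 
(.nd (nat_lit 9) (.nd (nat_lit 12) 
(.lf (nat_lit 36971683) (dlOf (nat_lit 1) (nat_lit 0x8008000400200020009072c03))) (.nd (nat_lit 26) 
(.lf (nat_lit 6039811235) (dlOf (nat_lit 1) (nat_lit 0x20028009501))) 
(.lf (nat_lit 3422565539) (dlOf (nat_lit 1) (nat_lit 0x1c00200080008009502))))) (.nd (nat_lit 11) 
(.lf (nat_lit 19936931) (dlOf (nat_lit 1) (nat_lit 0x40002000c00089d9f82))) 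
(.lf (nat_lit 5972700835) (dlOf (nat_lit 1) (nat_lit 0x400400020008007202))))) (.nd (nat_lit 18) 
(.nd (nat_lit 8) 
(.lf (nat_lit 59253923) (dlOf (nat_lit 1) (nat_lit 0x9c0008064c00200b000097e2c03))) 
(.lf (nat_lit 535971) (dlOf (nat_lit 1) (nat_lit 0x40028006d01)))) (.nd (nat_lit 20) 
(.lf (nat_lit 36447395) (dlOf (nat_lit 1) (nat_lit 0x20009072c01))) 
(.lf (nat_lit 39593123) (dlOf (nat_lit 1) (nat_lit 0x40019192c01)))))))) (.nd (nat_lit 29) 
(.nd (nat_lit 8) (.nd (nat_lit 12) (.nd (nat_lit 9) (.nd (nat_lit 13) 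
(.lf (nat_lit 2097379) (dlOf (nat_lit 2) (nat_lit 0xdf2000166880008e04002c0008150481))) 
(.lf (nat_lit 2105571) (dlOf (nat_lit 2) (nat_lit 0x1ef900008e0200080028150481)))) 
(.lf (nat_lit 57412323) (dlOf (nat_lit 4) (nat_lit 0xbb38c0007c0400659c60003a020036ced00136760000dc1000b8008008c00200040009795983)))) 
(.nd (nat_lit 13) (.lf (nat_lit 8131299) (dlOf (nat_lit 1) (nat_lit 0x400200020008518c82))) 
(.nd (nat_lit 20) 
(.lf (nat_lit 67908323) (dlOf (nat_lit 1) (nat_lit 0x480080030002000c0008338c83))) 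
(.lf (nat_lit 8139491) (dlOf (nat_lit 1) (nat_lit 0x8008000400200020008518c83)))))) 
(.nd (nat_lit 9) (.nd (nat_lit 30) (.nd (nat_lit 27) 
(.lf (nat_lit 4294969827) (dlOf (nat_lit 1) (nat_lit 0x800400020008004e82))) 
(.lf (nat_lit 134220259) (dlOf (nat_lit 1) (nat_lit 0x400400020008004e82)))) (.nd (nat_lit 26) 
(.lf (nat_lit 5368711651) (dlOf (nat_lit 1) (nat_lit 0x8008004400200100008004e83))) 
(.lf (nat_lit 3288336867) (dlOf (nat_lit 1) (nat_lit 0x10008005c00200260008004e83))))) 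
(.nd (nat_lit 30) (.nd (nat_lit 10) 
(.lf (nat_lit 67116003) (dlOf (nat_lit 1) (nat_lit 0x6002800bf01))) 
(.lf (nat_lit 8138723) (dlOf (nat_lit 1) (nat_lit 0x400200020008517a82)))) (.nd (nat_lit 11) 
(.lf (nat_lit 5502927843) (dlOf (nat_lit 1) (nat_lit 0x20008002800200120008002883))) 
(.lf (nat_lit 5368712163) (dlOf (nat_lit 1) (nat_lit 0x400400020008005e82))))))) (.nd (nat_lit 13) 
(.nd (nat_lit 8) (.nd (nat_lit 9) 
(.lf (nat_lit 6106907875) (dlOf (nat_lit 1) (nat_lit 0x400200020008002e02))) (.nd (nat_lit 18) 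
(.lf (nat_lit 603984611) (dlOf (nat_lit 1) (nat_lit 0x20028008c81))) 
(.lf (nat_lit 2818839267) (dlOf (nat_lit 1) (nat_lit 0x400200020008128c82))))) (.nd (nat_lit 11) 
(.nd (nat_lit 31) (.lf (nat_lit 604505059) (dlOf (nat_lit 1) (nat_lit 0x400182d2881))) 
(.lf (nat_lit 2751988707) (dlOf (nat_lit 1) (nat_lit 0x400200020008002882)))) (.nd (nat_lit 9) 
(.lf (nat_lit 5033167331) (dlOf (nat_lit 1) (nat_lit 0x18008001400200040008004e83))) 
(.lf (nat_lit 5033167843) (dlOf (nat_lit 1) (nat_lit 0x400400020008005e82)))))) (.nd (nat_lit 26) 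
(.nd (nat_lit 8) (.lf (nat_lit 4966065379) (dlOf (nat_lit 1) (nat_lit 0x60018002e01))) 
(.nd (nat_lit 12) (.lf (nat_lit 4832109539) (dlOf (nat_lit 1) (nat_lit 0x4004000200080d2882))) 
(.lf (nat_lit 2818847715) (dlOf (nat_lit 2) (nat_lit 0xa039002960080030008000c00200380008129203))))) 
(.nd (nat_lit 8) (.lf (nat_lit 603992803) (dlOf (nat_lit 1) (nat_lit 0x98004002c0018008c82))) 
(.nd (nat_lit 9) 
(.lf (nat_lit 2754619875) (dlOf (nat_lit 1) (nat_lit 0x80080004002000200080f4e83))) 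
(.lf (nat_lit 2751996899) (dlOf (nat_lit 1) (nat_lit 0x400200020008002882))))))))) 
(.nd (nat_lit 26) (.nd (nat_lit 6) (.nd (nat_lit 11) (.nd (nat_lit 8) (.nd (nat_lit 10) 
(.nd (nat_lit 9) 
(.lf (nat_lit 4697890979) (dlOf (nat_lit 7) (nat_lit 0x24033000120100060198000840800380cc0003e0400b003e0001c02001601f0000b8100180198000000800f800800d0002002e00080c1383))) 
(.lf (nat_lit 2952794787) (dlOf (nat_lit 1) (nat_lit 0x8008000400200020008008c83)))) 
(.nd (nat_lit 12) (.lf (nat_lit 1344808099) (dlOf (nat_lit 1) (nat_lit 0x74004002e0008982c02))) 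
(.lf (nat_lit 4160763043) (dlOf (nat_lit 1) (nat_lit 0x20008009501))))) (.nd (nat_lit 9) 
(.nd (nat_lit 18) 
(.lf (nat_lit 3490709923) (dlOf (nat_lit 1) (nat_lit 0x178008000400200420008016b83))) 
(.lf (nat_lit 4026794403) (dlOf (nat_lit 1) (nat_lit 0x9400400080008090782)))) 
(.lf (nat_lit 4026533795) (dlOf (nat_lit 1) (nat_lit 0x5c0028004301))))) (.nd (nat_lit 12) 
(.nd (nat_lit 10) (.nd (nat_lit 13) 
(.lf (nat_lit 2550139299) (dlOf (nat_lit 1) (nat_lit 0x400400020008004e82))) (.nd (nat_lit 27) 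
(.lf (nat_lit 3489933731) (dlOf (nat_lit 1) (nat_lit 0x20008004e81))) 
(.lf (nat_lit 3624151459) (dlOf (nat_lit 1) (nat_lit 0x20028144e81))))) (.nd (nat_lit 9) 
(.lf (nat_lit 3490459043) (dlOf (nat_lit 1) (nat_lit 0x20008006d01))) 
(.lf (nat_lit 1879052195) (dlOf (nat_lit 1) (nat_lit 0x20028007881))))) (.nd (nat_lit 10) 
(.nd (nat_lit 27) (.nd (nat_lit 29) 
(.lf (nat_lit 1342183843) (dlOf (nat_lit 1) (nat_lit 0x40040002000800af82))) 
(.lf (nat_lit 1879054755) (dlOf (nat_lit 1) (nat_lit 0x40040002000800af82)))) 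
(.lf (nat_lit 1476401571) (dlOf (nat_lit 1) (nat_lit 0x300080004002000a000800af83)))) 
(.lf (nat_lit 1342193059) (dlOf (nat_lit 1) (nat_lit 0x48004000c000800cb02)))))) (.nd (nat_lit 27) 
(.nd (nat_lit 9) (.nd (nat_lit 10) (.nd (nat_lit 29) (.nd (nat_lit 30) 
(.lf (nat_lit 6710888931) (dlOf (nat_lit 1) (nat_lit 0x18008001400200060008004e83))) 
(.lf (nat_lit 1342179811) (dlOf (nat_lit 1) (nat_lit 0x400400020008004e82)))) 
(.lf (nat_lit 1879050723) (dlOf (nat_lit 1) (nat_lit 0x400400020008004e82)))) (.nd (nat_lit 8) 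
(.lf (nat_lit 1342192867) (dlOf (nat_lit 1) (nat_lit 0x80040002000800c582))) 
(.lf (nat_lit 3489664483) (dlOf (nat_lit 2) (nat_lit 0xa104000028080080008001800200120008006e03))))) 
(.nd (nat_lit 11) (.lf (nat_lit 6174278627) (dlOf (nat_lit 1) (nat_lit 0x4004000200080d2882))) 
(.nd (nat_lit 12) (.lf (nat_lit 6710889443) (dlOf (nat_lit 1) (nat_lit 0x400400020008005e82))) 
(.lf (nat_lit 1342184419) (dlOf (nat_lit 1) (nat_lit 0x10004000e000800bf02)))))) (.nd (nat_lit 8) 
(.nd (nat_lit 9) (.nd (nat_lit 12) 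
(.lf (nat_lit 4697891043) (dlOf (nat_lit 1) (nat_lit 0x78004004c00080c1b02))) 
(.lf (nat_lit 1476407523) (dlOf (nat_lit 1) (nat_lit 0x120028008081)))) 
(.lf (nat_lit 1476922083) (dlOf (nat_lit 1) (nat_lit 0x400282d5981)))) (.nd (nat_lit 29) 
(.lf (nat_lit 2550139363) (dlOf (nat_lit 1) (nat_lit 0x80080084002001a0008004e83))) 
(.lf (nat_lit 2013268451) (dlOf (nat_lit 1) (nat_lit 0x400400020008004e82))))))) (.nd (nat_lit 6) 
(.nd (nat_lit 11) (.nd (nat_lit 12) (.nd (nat_lit 10) (.nd (nat_lit 31) 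
(.lf (nat_lit 5301862563) (dlOf (nat_lit 1) (nat_lit 0x1600180c1381))) 
(.lf (nat_lit 3154378915) (dlOf (nat_lit 1) (nat_lit 0x80028160281)))) (.nd (nat_lit 20) 
(.lf (nat_lit 472646819) (dlOf (nat_lit 1) (nat_lit 0x180080004002000200089e2c03))) 
(.lf (nat_lit 473695395) (dlOf (nat_lit 2) (nat_lit 0x303640000004000800200020008fa2c02))))) 
(.nd (nat_lit 8) 
(.lf (nat_lit 3690992291) (dlOf (nat_lit 1) (nat_lit 0x8008000400200020008008c83))) 
(.nd (nat_lit 13) (.nd (nat_lit 18) 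
(.lf (nat_lit 3690993059) (dlOf (nat_lit 1) (nat_lit 0x40028009901))) 
(.lf (nat_lit 3557037475) (dlOf (nat_lit 1) (nat_lit 0xe0008129901)))) 
(.lf (nat_lit 3691001251) (dlOf (nat_lit 1) (nat_lit 0x10c00200480008009902)))))) (.nd (nat_lit 8) 
(.nd (nat_lit 13) (.nd (nat_lit 12) 
(.lf (nat_lit 4228647075) (dlOf (nat_lit 1) (nat_lit 0x400400020018114882))) 
(.lf (nat_lit 3690993827) (dlOf (nat_lit 1) (nat_lit 0x2001800a881)))) (.nd (nat_lit 9) 
(.lf (nat_lit 1006643363) (dlOf (nat_lit 1) (nat_lit 0x400400020008004882))) 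
(.lf (nat_lit 472394403) (dlOf (nat_lit 1) (nat_lit 0x1c00400100008985602))))) (.nd (nat_lit 13) 
(.nd (nat_lit 12) (.lf (nat_lit 1946159523) (dlOf (nat_lit 1) (nat_lit 0x400400200008004e82))) 
(.lf (nat_lit 3690994083) (dlOf (nat_lit 1) (nat_lit 0x800800040020002000800af83)))) 
(.nd (nat_lit 10) (.lf (nat_lit 3557046691) (dlOf (nat_lit 1) (nat_lit 0xe8004002e000812af82))) 
(.lf (nat_lit 4227874211) (dlOf (nat_lit 3) (nat_lit 0x200640006602001e03f0001201800cb00))))))) 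
(.nd (nat_lit 29) (.nd (nat_lit 9) (.nd (nat_lit 27) (.nd (nat_lit 30) 
(.lf (nat_lit 2483030499) (dlOf (nat_lit 1) (nat_lit 0x8008000400200020008004e83))) 
(.lf (nat_lit 1409288675) (dlOf (nat_lit 1) (nat_lit 0x8008004400200140008004e83)))) 
(.nd (nat_lit 8) (.lf (nat_lit 471335139) (dlOf (nat_lit 1) (nat_lit 0x4004000200082e0582))) 
(.lf (nat_lit 4764731875) (dlOf (nat_lit 1) (nat_lit 0xc00400020008004e82))))) (.nd (nat_lit 11) 
(.nd (nat_lit 13) (.lf (nat_lit 5704516579) (dlOf (nat_lit 1) (nat_lit 0x4004000200080d2882))) 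
(.lf (nat_lit 472916963) (dlOf (nat_lit 1) (nat_lit 0x60028b52881)))) 
(.lf (nat_lit 4764732387) (dlOf (nat_lit 1) (nat_lit 0x400400020008005e82))))) (.nd (nat_lit 8) 
(.nd (nat_lit 10) (.lf (nat_lit 6376390883) (dlOf (nat_lit 1) (nat_lit 0x980018090a81))) 
(.nd (nat_lit 13) (.lf (nat_lit 4227865827) (dlOf (nat_lit 1) (nat_lit 0x80040002001800c582))) 
(.lf (nat_lit 4227874019) (dlOf (nat_lit 1) (nat_lit 0x80040002001800c582))))) (.nd (nat_lit 30) 
(.nd (nat_lit 10) (.lf (nat_lit 5301602787) (dlOf (nat_lit 1) (nat_lit 0x400400020008004e82))) 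
(.lf (nat_lit 1006638563) (dlOf (nat_lit 2) (nat_lit 0x40df0000f018009b00)))) (.nd (nat_lit 27) 
(.lf (nat_lit 1946159587) (dlOf (nat_lit 1) (nat_lit 0x800400020008004e82))) 
(.lf (nat_lit 4227860963) (dlOf (nat_lit 1) (nat_lit 0x8008000400200020008004e83))))))))))) 
(.nd (nat_lit 13) (.nd (nat_lit 18) (.nd (nat_lit 8) (.nd (nat_lit 19) (.nd (nat_lit 6) 
(.nd (nat_lit 20) (.nd (nat_lit 23) (.nd (nat_lit 7) 
(.lf (nat_lit 2483096611) (dlOf (nat_lit 1) (nat_lit 0xf8008018400200740008006083))) 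
(.nd (nat_lit 9) (.lf (nat_lit 402718883) (dlOf (nat_lit 1) (nat_lit 0x800400020008090582))) 
(.lf (nat_lit 3355514531) (dlOf (nat_lit 1) (nat_lit 0x200280a9f81))))) (.nd (nat_lit 21) 
(.lf (nat_lit 25231395) (dlOf (nat_lit 1) (nat_lit 0x1800200040008bf0902))) (.nd (nat_lit 22) 
(.lf (nat_lit 27328547) (dlOf (nat_lit 1) (nat_lit 0x20018cd0681))) 
(.lf (nat_lit 14745635) (dlOf (nat_lit 7) (nat_lit 0x3e78d40215bec00d6b8a007c5130000161003af8d401f7bec00ccb8a0077d1300001410001ae2800d144c00004820082b8a006fd130000100803038d40153bec0116b8a00001c1807671a803777d801a37140036b890063d1300000014001000400120018770182)))))) 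
(.nd (nat_lit 21) (.nd (nat_lit 22) 
(.lf (nat_lit 470876195) (dlOf (nat_lit 3) (nat_lit 0x1051c001b804000803c000d602000800281c0601))) 
(.nd (nat_lit 23) 
(.lf (nat_lit 38862883) (dlOf (nat_lit 1) (nat_lit 0x48008000400200020009170183))) 
(.lf (nat_lit 47251491) (dlOf (nat_lit 5) (nat_lit 0x200bc401065d4800158100622f100305752000550401aabc400e65d4800044100022f1000197520001004003600193c0181))))) 
(.nd (nat_lit 7) (.lf (nat_lit 15794211) (dlOf (nat_lit 1) (nat_lit 0x8008000400200020008830583))) 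
(.lf (nat_lit 36766883) (dlOf (nat_lit 1) (nat_lit 0x20019072c01)))))) (.nd (nat_lit 28) 
(.nd (nat_lit 20) (.nd (nat_lit 9) 
(.lf (nat_lit 12648547) (dlOf (nat_lit 1) (nat_lit 0x28004002a00186d1282))) 
(.lf (nat_lit 1140917859) (dlOf (nat_lit 1) (nat_lit 0x20018003901)))) (.nd (nat_lit 22) 
(.lf (nat_lit 26280035) (dlOf (nat_lit 1) (nat_lit 0x2c0008000800200020008c30d03))) 
(.lf (nat_lit 47251555) (dlOf (nat_lit 1) (nat_lit 0x8002000400093c0782))))) (.nd (nat_lit 11) 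
(.nd (nat_lit 20) (.lf (nat_lit 1881210979) (dlOf (nat_lit 1) (nat_lit 0x1000400040018e60902))) 
(.lf (nat_lit 1345388643) (dlOf (nat_lit 1) (nat_lit 0x2e0008b90901)))) (.nd (nat_lit 10) 
(.nd (nat_lit 12) 
(.lf (nat_lit 3623946339) (dlOf (nat_lit 4) (nat_lit 0x401140020088001003e000801e000e00dc002006a00080000002987001b01b8001400800080f000054040048004001a0018004702))) 
(.lf (nat_lit 3623950435) (dlOf (nat_lit 2) (nat_lit 0x27408a014e04000a001b004f0000002801000540020016000800a802)))) 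
(.lf (nat_lit 2952862819) (dlOf (nat_lit 1) (nat_lit 0x6001800c081))))))) (.nd (nat_lit 22) 
(.nd (nat_lit 29) (.nd (nat_lit 9) (.nd (nat_lit 21) 
(.lf (nat_lit 3557359651) (dlOf (nat_lit 17) (nat_lit 0x1b018400b40c0001a05e002f02a001000fc00d003a005e01a002f00000039c40010018400700c0000e604097a06104b50300003941005d818402f40c0000e40401a806100cb03000038c10040818402080c0000e204008e06100410300003841004d01180268038000a00400ae061004f03000003410015018400c00c00000b0400b0061005603000002010059818402dc0c00000504001206100020300000101002b0184000060402e00c20000202013006100900300000001000b00080014002000200081c0603))) 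
(.nd (nat_lit 23) (.lf (nat_lit 2687011) (dlOf (nat_lit 1) (nat_lit 0x220028190a81))) 
(.lf (nat_lit 11075619) (dlOf (nat_lit 1) (nat_lit 0x6b000803ec002004c0008660503))))) 
(.nd (nat_lit 7) 
(.lf (nat_lit 50922019) (dlOf (nat_lit 3) (nat_lit 0x53b4d0033f010018da68016540802580080224002000800094d8703))) 
(.nd (nat_lit 10) (.lf (nat_lit 51972771) (dlOf (nat_lit 1) (nat_lit 0x20029515601))) 
(.lf (nat_lit 593571) (dlOf (nat_lit 1) (nat_lit 0xc00400020018007202)))))) (.nd (nat_lit 27) 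
(.nd (nat_lit 7) (.nd (nat_lit 28) 
(.lf (nat_lit 1611202595) (dlOf (nat_lit 1) (nat_lit 0x400400060018110482))) 
(.lf (nat_lit 805896227) (dlOf (nat_lit 1) (nat_lit 0x100080004002000400081e0b83)))) 
(.lf (nat_lit 4095279267) (dlOf (nat_lit 1) (nat_lit 0x20028081401)))) (.nd (nat_lit 9) 
(.nd (nat_lit 30) (.lf (nat_lit 738787363) (dlOf (nat_lit 1) (nat_lit 0x400400060018110482))) 
(.lf (nat_lit 3960012835) (dlOf (nat_lit 1) (nat_lit 0x6000400060008190a82)))) 
(.lf (nat_lit 1008271907) (dlOf (nat_lit 2) (nat_lit 0x1f06f801398080138008002400200100008b18703)))))) 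
(.nd (nat_lit 21) (.nd (nat_lit 26) (.nd (nat_lit 24) (.nd (nat_lit 28) 
(.lf (nat_lit 4784163) (dlOf (nat_lit 4) (nat_lit 0x5998800040040020cf20001d02004267900173310000001000a80080004002001600082b0183))) 
(.lf (nat_lit 3494445091) (dlOf (nat_lit 6) (nat_lit 0x100d8000806b00090338002018800240820006022001800d8000800c004602001140cc000605d004901f802400880134038001ed0a0050066004301f801480880110038001ec0800bc066000902e802c80fc019804400d801c000f4050064033001c0174018007e00d4022006b00e000080540028008001e60e00080028220901)))) 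
(.lf (nat_lit 21561379) (dlOf (nat_lit 1) (nat_lit 0x2400400020008a40182)))) (.nd (nat_lit 27) 
(.lf (nat_lit 2756247587) (dlOf (nat_lit 6) (nat_lit 0x100d8000806b00090338002018800240820006022001800d8000800c004902001140cc000605d004901f802400880134038001ff0a0050066004301f801480880110038001fe0800bc066000902e802c80fc019804400d801c000fd050064033001c0174018007e00d4022006b00e000080540028008001f80e00080028220901))) 
(.lf (nat_lit 474546211) (dlOf (nat_lit 4) (nat_lit 0x1004b0001821400440ea001a073000100d0001082800202340007e04000812c0004085000203a8000f81800800080024002003a00091a0183))))) 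
(.nd (nat_lit 6) (.nd (nat_lit 7) 
(.lf (nat_lit 24707107) (dlOf (nat_lit 2) (nat_lit 0x2aedc0004004001c002000c0008bb0882))) 
(.lf (nat_lit 7936675) (dlOf (nat_lit 1) (nat_lit 0x2000800100020012000851b703)))) 
(.nd (nat_lit 12) 
(.lf (nat_lit 23658723) (dlOf (nat_lit 2) (nat_lit 0x358000008e0200020018b80481))) 
(.lf (nat_lit 7934179) (dlOf (nat_lit 1) (nat_lit 0x2a0028518081)))))))) (.nd (nat_lit 26) 
(.nd (nat_lit 27) (.nd (nat_lit 29) (.nd (nat_lit 20) (.nd (nat_lit 6) 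
(.lf (nat_lit 3221291299) (dlOf (nat_lit 1) (nat_lit 0x8008000400200020008090503))) 
(.lf (nat_lit 4563470819) (dlOf (nat_lit 1) (nat_lit 0x800400020008094e82)))) (.nd (nat_lit 9) 
(.lf (nat_lit 3211555) (dlOf (nat_lit 1) (nat_lit 0x20028200501))) 
(.lf (nat_lit 7930659) (dlOf (nat_lit 1) (nat_lit 0x2c0028512181))))) (.nd (nat_lit 7) 
(.nd (nat_lit 28) (.lf (nat_lit 5905645859) (dlOf (nat_lit 1) (nat_lit 0x400280b0501))) 
(.lf (nat_lit 805372195) (dlOf (nat_lit 2) (nat_lit 0x59028802400e80006c08000400400080008090502)))) 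
(.lf (nat_lit 537461155) (dlOf (nat_lit 1) (nat_lit 0x120028090781))))) (.nd (nat_lit 6) 
(.nd (nat_lit 7) 
(.lf (nat_lit 4697687331) (dlOf (nat_lit 1) (nat_lit 0x3b8008008000200440008093103))) 
(.lf (nat_lit 6308300195) (dlOf (nat_lit 1) (nat_lit 0x40028053601)))) (.nd (nat_lit 7) 
(.nd (nat_lit 9) (.lf (nat_lit 134285667) (dlOf (nat_lit 1) (nat_lit 0x7a0018004e81))) 
(.lf (nat_lit 134290275) (dlOf (nat_lit 1) (nat_lit 0x28000800f400200a8000800bc83)))) 
(.lf (nat_lit 1744898531) (dlOf (nat_lit 1) (nat_lit 0x8008000400200040008094e83)))))) 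
(.nd (nat_lit 6) (.nd (nat_lit 7) (.nd (nat_lit 27) (.nd (nat_lit 29) 
(.lf (nat_lit 6509625635) (dlOf (nat_lit 1) (nat_lit 0x400280b0501))) 
(.lf (nat_lit 1677787427) (dlOf (nat_lit 2) (nat_lit 0x59028802400e80007008000400400080008090502)))) 
(.lf (nat_lit 3959488803) (dlOf (nat_lit 1) (nat_lit 0x8008000400200020008090503)))) 
(.nd (nat_lit 9) (.nd (nat_lit 27) 
(.lf (nat_lit 4899014051) (dlOf (nat_lit 1) (nat_lit 0x400200020008053602))) 
(.lf (nat_lit 4496360867) (dlOf (nat_lit 1) (nat_lit 0x148008009c002002a0008053603)))) 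
(.lf (nat_lit 2617316259) (dlOf (nat_lit 1) (nat_lit 0x1000180a9101))))) (.nd (nat_lit 7) 
(.nd (nat_lit 9) (.nd (nat_lit 10) 
(.lf (nat_lit 3154184547) (dlOf (nat_lit 1) (nat_lit 0x9c0028104e81))) 
(.lf (nat_lit 3019965795) (dlOf (nat_lit 1) (nat_lit 0x18004000200080d3402)))) 
(.lf (nat_lit 2617316195) (dlOf (nat_lit 1) (nat_lit 0x1e00280a8f81)))) (.nd (nat_lit 9) 
(.nd (nat_lit 10) (.lf (nat_lit 335612387) (dlOf (nat_lit 1) (nat_lit 0x800400020008094e82))) 
(.lf (nat_lit 1543572963) (dlOf (nat_lit 1) (nat_lit 0x8008000400200020008146e03)))) 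
(.lf (nat_lit 2348876771) (dlOf (nat_lit 1) (nat_lit 0x10008000800200200008002883)))))))) 
(.nd (nat_lit 28) (.nd (nat_lit 19) (.nd (nat_lit 6) (.nd (nat_lit 20) (.nd (nat_lit 27) 
(.nd (nat_lit 7) (.nd (nat_lit 8) 
(.lf (nat_lit 3288662051) (dlOf (nat_lit 13) (nat_lit 0x20036001001a0064741000880d800440680191c040016036000e01a00646c1000900d8004c0680191a04002603600c7a01000301b0062580800280d00310404005c05c010c102002e02e0085b81001d017003dfc0801380b801ed204003405c00f6702000600080a0901))) 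
(.lf (nat_lit 6442778915) (dlOf (nat_lit 1) (nat_lit 0x2200281b0501)))) 
(.lf (nat_lit 21299363) (dlOf (nat_lit 1) (nat_lit 0x30008000400200020008a31403)))) 
(.nd (nat_lit 30) 
(.lf (nat_lit 671416355) (dlOf (nat_lit 3) (nat_lit 0x2601f002a301002f00f801514080080008005800200240008190903))) 
(.lf (nat_lit 3892641827) (dlOf (nat_lit 5) (nat_lit 0x2a0320014816800040500000b0600120640000501000200a00001c0800400b8000000400a800200020008180182))))) 
(.nd (nat_lit 9) (.nd (nat_lit 21) 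
(.lf (nat_lit 9764899) (dlOf (nat_lit 2) (nat_lit 0x12c00c000450200020018580181))) 
(.lf (nat_lit 11862051) (dlOf (nat_lit 1) (nat_lit 0xba00186c0001)))) 
(.lf (nat_lit 57999907) (dlOf (nat_lit 1) (nat_lit 0x4004000200097a8702))))) (.nd (nat_lit 7) 
(.nd (nat_lit 10) (.nd (nat_lit 26) 
(.lf (nat_lit 1745158243) (dlOf (nat_lit 3) (nat_lit 0x300e0000f80400280700007302000600080b0d81))) 
(.lf (nat_lit 3288662115) (dlOf (nat_lit 1) (nat_lit 0x800080a1381)))) 
(.lf (nat_lit 20255843) (dlOf (nat_lit 1) (nat_lit 0x200189d9401)))) (.nd (nat_lit 8) 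
(.nd (nat_lit 22) (.lf (nat_lit 17105123) (dlOf (nat_lit 1) (nat_lit 0x4004000200088e0582))) 
(.lf (nat_lit 21299427) (dlOf (nat_lit 1) (nat_lit 0x36000201000008a31d82)))) 
(.lf (nat_lit 2886009827) (dlOf (nat_lit 1) (nat_lit 0x20018142881)))))) (.nd (nat_lit 20) 
(.nd (nat_lit 23) (.nd (nat_lit 7) 
(.lf (nat_lit 21823523) (dlOf (nat_lit 1) (nat_lit 0x140028a70481))) (.nd (nat_lit 8) 
(.lf (nat_lit 537726627) (dlOf (nat_lit 1) (nat_lit 0x1a00280f7201))) 
(.lf (nat_lit 36506019) (dlOf (nat_lit 1) (nat_lit 0x20019074e81))))) (.nd (nat_lit 6) 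
(.nd (nat_lit 24) 
(.lf (nat_lit 42795043) (dlOf (nat_lit 7) (nat_lit 0xb0ea4000171800007c10031ba900003c04013dd460002e0e002e675001a32d80001c10003dd460016cb6000068200417518013b3a800a996c000090600d4e2e0081674800000100288008003000200020009280183))) 
(.lf (nat_lit 59572259) (dlOf (nat_lit 2) (nat_lit 0x143f8009202c0000008004800400120009810702)))) 
(.lf (nat_lit 42795107) (dlOf (nat_lit 1) (nat_lit 0x60019280901))))) (.nd (nat_lit 21) 
(.nd (nat_lit 22) (.nd (nat_lit 23) (.nd (nat_lit 26) 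
(.lf (nat_lit 1900579) (dlOf (nat_lit 5) (nat_lit 0xb5238068580800380000342a04008548e01803020002a5c00a3523800000100008008016800200200008150003))) 
(.lf (nat_lit 2753364003) (dlOf (nat_lit 1) (nat_lit 0x4002004a0008090002)))) 
(.lf (nat_lit 27066403) (dlOf (nat_lit 2) (nat_lit 0x106b7480016204000800400080008ca0602)))) 
(.lf (nat_lit 39649315) (dlOf (nat_lit 2) (nat_lit 0x2000000270191b0180)))) (.nd (nat_lit 6) 
(.nd (nat_lit 7) (.lf (nat_lit 58524707) (dlOf (nat_lit 1) (nat_lit 0x200297e2881))) 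
(.lf (nat_lit 12386467) (dlOf (nat_lit 1) (nat_lit 0x90008002c002003200086c0203)))) 
(.lf (nat_lit 8196835) (dlOf (nat_lit 1) (nat_lit 0x400200020008518c82))))))) (.nd (nat_lit 27) 
(.nd (nat_lit 26) (.nd (nat_lit 11) (.nd (nat_lit 29) 
(.lf (nat_lit 4563730467) (dlOf (nat_lit 3) (nat_lit 0x150198000440800d80c80070062001a01c002c0090000282000300080014002001800080d0183))) 
(.lf (nat_lit 4026859555) (dlOf (nat_lit 13) (nat_lit 0x20036001001a0071a81000880d8004406801c69040016036000e01a0071a01000900d8004c06801c6704002603600e2c01000301b0070000800280d0037d804005c05c0103e02002e02e0081a01001d017003e3c0801380b801ed604003405c00f6702000600080a0901)))) 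
(.nd (nat_lit 6) (.nd (nat_lit 7) 
(.lf (nat_lit 3490516003) (dlOf (nat_lit 1) (nat_lit 0x60028006081))) 
(.lf (nat_lit 1345129123) (dlOf (nat_lit 1) (nat_lit 0x20028a45601)))) 
(.lf (nat_lit 3493140579) (dlOf (nat_lit 1) (nat_lit 0x12400080fa801))))) (.nd (nat_lit 6) 
(.nd (nat_lit 19) 
(.lf (nat_lit 5704581155) (dlOf (nat_lit 1) (nat_lit 0x8008000400200020008100183))) 
(.lf (nat_lit 4095541283) (dlOf (nat_lit 1) (nat_lit 0x1a00180d0481)))) (.nd (nat_lit 7) 
(.lf (nat_lit 872743011) (dlOf (nat_lit 3) (nat_lit 0x300e0000f80400280700007302000600080b0d81))) 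
(.lf (nat_lit 335872227) (dlOf (nat_lit 1) (nat_lit 0xe00180c1d81)))))) (.nd (nat_lit 8) 
(.nd (nat_lit 29) (.nd (nat_lit 7) (.nd (nat_lit 10) 
(.lf (nat_lit 4697948195) (dlOf (nat_lit 3) (nat_lit 0x150198000440800d80c80070062001a01c002c0090000282000300080014002001800080d0183))) 
(.lf (nat_lit 3624209443) (dlOf (nat_lit 2) (nat_lit 0x10000002c404000400200180008146082)))) 
(.lf (nat_lit 5773263011) (dlOf (nat_lit 1) (nat_lit 0x180080004002000200080c1383)))) 
(.nd (nat_lit 7) (.nd (nat_lit 26) 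
(.lf (nat_lit 6308560931) (dlOf (nat_lit 1) (nat_lit 0x8008000400200020008100183))) 
(.lf (nat_lit 3154444323) (dlOf (nat_lit 3) (nat_lit 0xc40b40000b02002e05a000050181a0180)))) 
(.lf (nat_lit 5234819235) (dlOf (nat_lit 1) (nat_lit 0xc004000e00180f1382))))) (.nd (nat_lit 6) 
(.nd (nat_lit 7) (.lf (nat_lit 5838799139) (dlOf (nat_lit 1) (nat_lit 0x2200281b0501))) 
(.lf (nat_lit 5771692963) (dlOf (nat_lit 1) (nat_lit 0x20018005c81)))) (.nd (nat_lit 10) 
(.lf (nat_lit 1008011619) (dlOf (nat_lit 1) (nat_lit 0x400400020008984e82))) 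
(.lf (nat_lit 3624209763) (dlOf (nat_lit 1) (nat_lit 0x40028146a81))))))))) (.nd (nat_lit 18) 
(.nd (nat_lit 19) (.nd (nat_lit 6) (.nd (nat_lit 8) (.nd (nat_lit 7) (.nd (nat_lit 9) 
(.nd (nat_lit 25) (.lf (nat_lit 13705251) (dlOf (nat_lit 1) (nat_lit 0x40028740481))) 
(.lf (nat_lit 47259683) (dlOf (nat_lit 2) (nat_lit 0x4cbc400015c88001581000300080028002000200093c0183)))) 
(.lf (nat_lit 536951331) (dlOf (nat_lit 2) (nat_lit 0x2009600a6c02000e001800b281)))) 
(.nd (nat_lit 9) (.nd (nat_lit 22) 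
(.lf (nat_lit 60892323) (dlOf (nat_lit 1) (nat_lit 0x4002000200098c2c02))) 
(.lf (nat_lit 31532195) (dlOf (nat_lit 1) (nat_lit 0x400400020008e92c02)))) (.nd (nat_lit 20) 
(.lf (nat_lit 2885758627) (dlOf (nat_lit 2) (nat_lit 0x130000000a808001800800b000200120008007203))) 
(.lf (nat_lit 2754686627) (dlOf (nat_lit 2) (nat_lit 0x6040000b0140000a81000100080010002000200080f7203)))))) 
(.nd (nat_lit 27) (.nd (nat_lit 31) (.nd (nat_lit 7) 
(.lf (nat_lit 4563476771) (dlOf (nat_lit 1) (nat_lit 0x14002001a0008090a82))) 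
(.lf (nat_lit 1346448291) (dlOf (nat_lit 1) (nat_lit 0xc0028f65c81)))) (.nd (nat_lit 10) 
(.lf (nat_lit 3758172579) (dlOf (nat_lit 1) (nat_lit 0x200080d4e81))) 
(.lf (nat_lit 3489738147) (dlOf (nat_lit 1) (nat_lit 0x960028006d01))))) (.nd (nat_lit 10) 
(.nd (nat_lit 26) (.lf (nat_lit 5234567587) (dlOf (nat_lit 1) (nat_lit 0x20028054e81))) 
(.lf (nat_lit 3154192803) (dlOf (nat_lit 1) (nat_lit 0x6800200b80008104e82)))) 
(.lf (nat_lit 2550214051) (dlOf (nat_lit 1) (nat_lit 0x6c0008006d01)))))) (.nd (nat_lit 28) 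
(.nd (nat_lit 7) (.nd (nat_lit 20) 
(.lf (nat_lit 1208033379) (dlOf (nat_lit 1) (nat_lit 0x10008001800200040008090103))) 
(.nd (nat_lit 21) (.lf (nat_lit 26288227) (dlOf (nat_lit 1) (nat_lit 0x20028c30d01))) 
(.lf (nat_lit 7413859) (dlOf (nat_lit 1) (nat_lit 0x8004003200084b0482))))) (.nd (nat_lit 8) 
(.lf (nat_lit 1208033507) (dlOf (nat_lit 1) (nat_lit 0x980028090a81))) (.nd (nat_lit 26) 
(.lf (nat_lit 1744906723) (dlOf (nat_lit 1) (nat_lit 0x1000400020008094e82))) 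
(.lf (nat_lit 738273763) (dlOf (nat_lit 1) (nat_lit 0x8008021000200820008094e83)))))) 
(.nd (nat_lit 8) (.nd (nat_lit 7) 
(.lf (nat_lit 2952868963) (dlOf (nat_lit 2) (nat_lit 0x8000000a804005400200120008009402))) 
(.nd (nat_lit 9) (.nd (nat_lit 12) 
(.lf (nat_lit 4563476707) (dlOf (nat_lit 2) (nat_lit 0x5009000544080038008005800200480008090a83))) 
(.lf (nat_lit 1342255331) (dlOf (nat_lit 1) (nat_lit 0x1e0028008081)))) 
(.lf (nat_lit 469840611) (dlOf (nat_lit 1) (nat_lit 0xc4002002a0008008c82))))) (.nd (nat_lit 7) 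
(.lf (nat_lit 2617324387) (dlOf (nat_lit 1) (nat_lit 0x1c00080378002002400080a8f83))) 
(.nd (nat_lit 9) (.lf (nat_lit 1543580131) (dlOf (nat_lit 1) (nat_lit 0x80028144e81))) 
(.lf (nat_lit 1007756259) (dlOf (nat_lit 1) (nat_lit 0x38004000200087a2882)))))))) 
(.nd (nat_lit 30) (.nd (nat_lit 21) (.nd (nat_lit 26) (.nd (nat_lit 6) 
(.lf (nat_lit 42541091) (dlOf (nat_lit 1) (nat_lit 0x12000200040009260182))) (.nd (nat_lit 23) 
(.lf (nat_lit 537469027) (dlOf (nat_lit 1) (nat_lit 0x80080004002000200080a1283))) 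
(.lf (nat_lit 42541155) (dlOf (nat_lit 1) (nat_lit 0x400200020009260902))))) (.nd (nat_lit 20) 
(.nd (nat_lit 22) (.lf (nat_lit 738795555) (dlOf (nat_lit 1) (nat_lit 0x20018110481))) 
(.lf (nat_lit 2756255779) (dlOf (nat_lit 1) (nat_lit 0x10008000800200040008230483)))) 
(.lf (nat_lit 2753110051) (dlOf (nat_lit 1) (nat_lit 0x400200020008090002))))) (.nd (nat_lit 20) 
(.nd (nat_lit 6) (.nd (nat_lit 25) 
(.lf (nat_lit 2754158627) (dlOf (nat_lit 1) (nat_lit 0x2200180c0b01))) 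
(.lf (nat_lit 36249635) (dlOf (nat_lit 2) (nat_lit 0x1299400023019050180)))) 
(.lf (nat_lit 23667043) (dlOf (nat_lit 1) (nat_lit 0x3800400140018b80702)))) (.nd (nat_lit 6) 
(.nd (nat_lit 10) (.lf (nat_lit 24715299) (dlOf (nat_lit 1) (nat_lit 0x20008bb0881))) 
(.lf (nat_lit 20524067) (dlOf (nat_lit 1) (nat_lit 0x4004000400189d6082)))) 
(.lf (nat_lit 28909667) (dlOf (nat_lit 1) (nat_lit 0x20018da0481)))))) (.nd (nat_lit 28) 
(.nd (nat_lit 27) (.nd (nat_lit 29) 
(.lf (nat_lit 3221823523) (dlOf (nat_lit 1) (nat_lit 0x1400200080008190b82))) 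
(.lf (nat_lit 1611210787) (dlOf (nat_lit 1) (nat_lit 0x20018110481)))) (.nd (nat_lit 26) 
(.lf (nat_lit 3892912163) (dlOf (nat_lit 1) (nat_lit 0x78008005400200160008290d83))) 
(.lf (nat_lit 3960021027) (dlOf (nat_lit 1) (nat_lit 0x4002000a0008190a82))))) (.nd (nat_lit 21) 
(.nd (nat_lit 26) (.nd (nat_lit 7) 
(.lf (nat_lit 3494453283) (dlOf (nat_lit 1) (nat_lit 0x10008000800200040008230483))) 
(.lf (nat_lit 3490262435) (dlOf (nat_lit 1) (nat_lit 0x20018006d01)))) (.nd (nat_lit 6) 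
(.lf (nat_lit 4095287331) (dlOf (nat_lit 1) (nat_lit 0x20018090181))) 
(.lf (nat_lit 1409884259) (dlOf (nat_lit 2) (nat_lit 0x2007400160358000981000080080070002000c00080a1383))))) 
(.nd (nat_lit 7) (.nd (nat_lit 9) 
(.lf (nat_lit 3492356131) (dlOf (nat_lit 1) (nat_lit 0x2200180c0b01))) 
(.lf (nat_lit 5774058019) (dlOf (nat_lit 1) (nat_lit 0x200280f8701)))) 
(.lf (nat_lit 1345922211) (dlOf (nat_lit 1) (nat_lit 0x400400020008e22c02)))))))) (.nd (nat_lit 28) 
(.nd (nat_lit 20) (.nd (nat_lit 29) (.nd (nat_lit 19) (.nd (nat_lit 6) (.nd (nat_lit 21) 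
(.nd (nat_lit 22) 
(.lf (nat_lit 2349146147) (dlOf (nat_lit 2) (nat_lit 0x250068000000801180080088002007c00080d0903))) 
(.lf (nat_lit 12918819) (dlOf (nat_lit 1) (nat_lit 0x134004007a00086e0a02)))) 
(.lf (nat_lit 27598883) (dlOf (nat_lit 1) (nat_lit 0x30008008400200040008d00683)))) 
(.nd (nat_lit 7) (.lf (nat_lit 38085731) (dlOf (nat_lit 1) (nat_lit 0x800200cc0009132982))) 
(.lf (nat_lit 21307619) (dlOf (nat_lit 1) (nat_lit 0x8008000400200020008a31d83))))) 
(.nd (nat_lit 21) (.nd (nat_lit 24) 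
(.lf (nat_lit 42803235) (dlOf (nat_lit 1) (nat_lit 0x2000400020009280182))) 
(.lf (nat_lit 59580451) (dlOf (nat_lit 1) (nat_lit 0x6c00400640009810702)))) (.nd (nat_lit 7) 
(.lf (nat_lit 53288995) (dlOf (nat_lit 1) (nat_lit 0x800200060009580782))) 
(.lf (nat_lit 36514211) (dlOf (nat_lit 1) (nat_lit 0x20019074e81)))))) (.nd (nat_lit 27) 
(.nd (nat_lit 6) (.lf (nat_lit 537206819) (dlOf (nat_lit 1) (nat_lit 0x8008000800200040008050903))) 
(.nd (nat_lit 11) 
(.lf (nat_lit 2755993699) (dlOf (nat_lit 3) (nat_lit 0x204c000110100170260000840800680080060002001400081c1383))) 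
(.lf (nat_lit 2752329827) (dlOf (nat_lit 1) (nat_lit 0x40040002000800a802))))) (.nd (nat_lit 7) 
(.nd (nat_lit 30) 
(.lf (nat_lit 671424547) (dlOf (nat_lit 3) (nat_lit 0x1809400a8c04002c04a005450200040018190901))) 
(.lf (nat_lit 3892650019) (dlOf (nat_lit 6) (nat_lit 0x80320000c8100ba03100600168030c0aa00380520057026806200d0023804c0012022001c00d805d0050027800c0180003000d00100002c6803b816801d40aa00ea034007d00a0001001801dc0060000a0c0086055004101a002b80500000e0c02280b40114055005801a004580b801bc05400dc026003600a004d80080000020005800400020008180182)))) 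
(.lf (nat_lit 1745166499) (dlOf (nat_lit 2) (nat_lit 0x1801c00004c0800180080010002000200080c1403)))))) 
(.nd (nat_lit 24) (.nd (nat_lit 6) (.nd (nat_lit 7) (.nd (nat_lit 8) 
(.lf (nat_lit 39657507) (dlOf (nat_lit 2) (nat_lit 0xc143c00348240004504000400191b0181))) 
(.lf (nat_lit 3481891) (dlOf (nat_lit 1) (nat_lit 0x3c800201620008200502)))) 
(.lf (nat_lit 2754948771) (dlOf (nat_lit 2) (nat_lit 0x3200e8000a80801980080090002001600080f7203)))) 
(.nd (nat_lit 7) (.lf (nat_lit 11870563) (dlOf (nat_lit 1) (nat_lit 0x30004000200186c0702))) 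
(.lf (nat_lit 11870435) (dlOf (nat_lit 2) (nat_lit 0x3ccd60008e02000a00086c0481))))) 
(.nd (nat_lit 9) (.nd (nat_lit 19) (.nd (nat_lit 21) 
(.lf (nat_lit 55910435) (dlOf (nat_lit 1) (nat_lit 0x4004000200096f0182))) 
(.lf (nat_lit 62201891) (dlOf (nat_lit 2) (nat_lit 0x2a61c0002604000400400020019970882)))) 
(.lf (nat_lit 18685987) (dlOf (nat_lit 2) (nat_lit 0x2377802d6c0800600080014002000c0008960683)))) 
(.nd (nat_lit 7) (.lf (nat_lit 58008099) (dlOf (nat_lit 1) (nat_lit 0x200297a8701))) 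
(.lf (nat_lit 53815971) (dlOf (nat_lit 1) (nat_lit 0x1400295f5601))))))) (.nd (nat_lit 26) 
(.nd (nat_lit 10) (.nd (nat_lit 7) (.nd (nat_lit 27) 
(.lf (nat_lit 4563738659) (dlOf (nat_lit 13) (nat_lit 0xd60330000f81005c0198000780800280cc00280240001604009c033000090100620198000440802f80cc000200400140240000e0200020120000601000201980228054000160801e402a00580140040009000f8044000141001700660000602009a033001100a8000001000780080018002000a00080d0183))) 
(.lf (nat_lit 4697956387) (dlOf (nat_lit 13) (nat_lit 0xd60330000f81005c0198000780800280cc00280240001604009c033000090100620198000440802f80cc000200400140240000e0200020120000601000201980228054000160801e402a00580140040009000f8044000141001700660000602009a033001100a8000001000780080018002000a00080d0183)))) 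
(.nd (nat_lit 8) (.lf (nat_lit 5773271203) (dlOf (nat_lit 1) (nat_lit 0x4002000200080c1382))) 
(.lf (nat_lit 5771701155) (dlOf (nat_lit 1) (nat_lit 0x80004000c0008005c82))))) (.nd (nat_lit 6) 
(.lf (nat_lit 3490000163) (dlOf (nat_lit 1) (nat_lit 0x400200020008006802))) (.nd (nat_lit 11) 
(.lf (nat_lit 1879913571) (dlOf (nat_lit 1) (nat_lit 0x3200183d9401))) 
(.lf (nat_lit 1879915619) (dlOf (nat_lit 1) (nat_lit 0x3000183dc081)))))) (.nd (nat_lit 29) 
(.nd (nat_lit 20) (.nd (nat_lit 22) 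
(.lf (nat_lit 2483363875) (dlOf (nat_lit 2) (nat_lit 0x250068000000801180080088002007c00080d0903))) 
(.lf (nat_lit 474292259) (dlOf (nat_lit 2) (nat_lit 0x28474000ac04004800400260009120182)))) 
(.lf (nat_lit 471146531) (dlOf (nat_lit 1) (nat_lit 0xc00200020008280582)))) (.nd (nat_lit 7) 
(.nd (nat_lit 19) 
(.lf (nat_lit 3154452515) (dlOf (nat_lit 5) (nat_lit 0x2a0320014816800040500000b0600120640000501000200a00001c0800400b8000000400a8002000200081a0182))) 
(.lf (nat_lit 4096598051) (dlOf (nat_lit 1) (nat_lit 0x78004000e0018130882)))) (.nd (nat_lit 6) 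
(.lf (nat_lit 2080710819) (dlOf (nat_lit 1) (nat_lit 0x38008000c002002a00080c1383))) 
(.lf (nat_lit 6377251043) (dlOf (nat_lit 1) (nat_lit 0x80080174002001e00080c1d83))))))))))) 
(.nd (nat_lit 16) (.nd (nat_lit 18) (.nd (nat_lit 6) (.nd (nat_lit 19) (.nd (nat_lit 13) 
(.nd (nat_lit 10) (.nd (nat_lit 7) (.nd (nat_lit 11) (.nd (nat_lit 8) (.nd (nat_lit 20) 
(.lf (nat_lit 14712867) (dlOf (nat_lit 4) (nat_lit 0x2a58000152380003a0800aacb8005a00000005820003b2e0000000800e8008008000200180008770183))) 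
(.lf (nat_lit 47218723) (dlOf (nat_lit 1) (nat_lit 0x4004000200093c0182)))) 
(.lf (nat_lit 3493888291) (dlOf (nat_lit 1) (nat_lit 0x4004000200181b0502)))) (.nd (nat_lit 9) 
(.lf (nat_lit 2751502371) (dlOf (nat_lit 1) (nat_lit 0x2001800a601))) 
(.lf (nat_lit 4362115619) (dlOf (nat_lit 2) (nat_lit 0x3023802e5c08009800800800020004000800b283))))) 
(.nd (nat_lit 9) (.nd (nat_lit 8) 
(.lf (nat_lit 18907299) (dlOf (nat_lit 1) (nat_lit 0x400200020008970482))) 
(.lf (nat_lit 5368744355) (dlOf (nat_lit 2) (nat_lit 0x180130070a818004e80)))) (.nd (nat_lit 20) 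
(.lf (nat_lit 62950051) (dlOf (nat_lit 1) (nat_lit 0x80080008002000200099a5603))) 
(.lf (nat_lit 36735651) (dlOf (nat_lit 1) (nat_lit 0x800200020009075602)))))) (.nd (nat_lit 7) 
(.nd (nat_lit 26) (.nd (nat_lit 8) 
(.lf (nat_lit 671124515) (dlOf (nat_lit 1) (nat_lit 0xa60008006081))) 
(.lf (nat_lit 3355481379) (dlOf (nat_lit 9) (nat_lit 0x300180006004001800c000c0000001782000d003000280000005c08001800c0002d02000c00600010000000141000200000000804001800c0010000000010200070030000000800480080038002000a0008009783)))) 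
(.nd (nat_lit 20) (.nd (nat_lit 28) 
(.lf (nat_lit 3288370211) (dlOf (nat_lit 1) (nat_lit 0x7400400020008006082))) 
(.lf (nat_lit 2483063843) (dlOf (nat_lit 3) (nat_lit 0x4028000bd0100130140005b0080198008001c00200080008006083)))) 
(.lf (nat_lit 2754645027) (dlOf (nat_lit 1) (nat_lit 0xb80080014002000200080f6083))))) 
(.nd (nat_lit 8) (.nd (nat_lit 9) 
(.lf (nat_lit 36734115) (dlOf (nat_lit 1) (nat_lit 0x800200020009072c02))) 
(.lf (nat_lit 671125155) (dlOf (nat_lit 9) (nat_lit 0x20000001b0100040130005807400b8030001001000240000000d02801380980028046005001d003800c001400400048000000320c0002026001800e80018040000400a000200000018850019013000e007400680200046005001d001001280000005e18004400a0002a0200320050001381000d002800090080028008001c00200020008007203)))) 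
(.nd (nat_lit 11) (.lf (nat_lit 1342215587) (dlOf (nat_lit 1) (nat_lit 0x6400400160018009902))) 
(.lf (nat_lit 134258083) (dlOf (nat_lit 3) (nat_lit 0x10000001cc080050000000e404004400400be000800cb02))))))) 
(.nd (nat_lit 11) (.nd (nat_lit 20) (.nd (nat_lit 21) (.nd (nat_lit 10) 
(.lf (nat_lit 2755698979) (dlOf (nat_lit 4) (nat_lit 0x5ec164000650203100b20003201000e05900018c0800680080060002003400081b0503))) 
(.lf (nat_lit 3355489571) (dlOf (nat_lit 8) (nat_lit 0xc006000180100060030000bc0800600180005c04001800c0002d02000c006000028100060030000080800380180000004003800200020008009782)))) 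
(.nd (nat_lit 8) (.lf (nat_lit 14721059) (dlOf (nat_lit 1) (nat_lit 0x400200020008770182))) 
(.lf (nat_lit 6332707) (dlOf (nat_lit 1) (nat_lit 0x40018420701))))) (.nd (nat_lit 25) 
(.nd (nat_lit 21) (.lf (nat_lit 26255395) (dlOf (nat_lit 1) (nat_lit 0x20008c20601))) 
(.lf (nat_lit 11575331) (dlOf (nat_lit 3) (nat_lit 0x9c5400f9a040010e2a007cb02000200286c0001)))) 
(.nd (nat_lit 10) (.lf (nat_lit 38838307) (dlOf (nat_lit 1) (nat_lit 0x400400020009170182))) 
(.lf (nat_lit 43033635) (dlOf (nat_lit 1) (nat_lit 0x4004000200092a2882)))))) (.nd (nat_lit 8) 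
(.nd (nat_lit 7) (.nd (nat_lit 26) 
(.lf (nat_lit 6442495011) (dlOf (nat_lit 1) (nat_lit 0x20018006081))) (.nd (nat_lit 28) 
(.lf (nat_lit 5972732963) (dlOf (nat_lit 1) (nat_lit 0x20018006081))) 
(.lf (nat_lit 1946201123) (dlOf (nat_lit 1) (nat_lit 0x20008002c00200060008006083))))) 
(.nd (nat_lit 9) (.lf (nat_lit 43171) (dlOf (nat_lit 1) (nat_lit 0x20028004881))) 
(.lf (nat_lit 36743843) (dlOf (nat_lit 1) (nat_lit 0x400200020009075602))))) (.nd (nat_lit 9) 
(.nd (nat_lit 10) (.lf (nat_lit 1342220707) (dlOf (nat_lit 1) (nat_lit 0xa0028004e81))) 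
(.lf (nat_lit 3489705379) (dlOf (nat_lit 1) (nat_lit 0x800028006d01)))) (.nd (nat_lit 32) 
(.lf (nat_lit 402697123) (dlOf (nat_lit 2) (nat_lit 0x1c014000220200040018005c81))) 
(.lf (nat_lit 4697664419) (dlOf (nat_lit 2) (nat_lit 0x203d00022818005c80)))))))) (.nd (nat_lit 31) 
(.nd (nat_lit 13) (.nd (nat_lit 25) (.nd (nat_lit 23) (.nd (nat_lit 22) 
(.lf (nat_lit 537428003) (dlOf (nat_lit 2) (nat_lit 0x402a00250c080058008006c002000a0008090003))) 
(.nd (nat_lit 24) 
(.lf (nat_lit 474513443) (dlOf (nat_lit 4) (nat_lit 0x350ab001c850c0174276006a0cd003504b001f021400d40ea0068073000210800020468000fc0800d859800702ac0036143001c09d80118334007810a0036075000300a8000f84000780080014002000c00091a0183))) 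
(.lf (nat_lit 21528611) (dlOf (nat_lit 2) (nat_lit 0x28000000450200140008a40181))))) 
(.nd (nat_lit 21) (.lf (nat_lit 29917219) (dlOf (nat_lit 1) (nat_lit 0x400200020008e30002))) 
(.lf (nat_lit 15237155) (dlOf (nat_lit 2) (nat_lit 0x941ab0005f8187c0600))))) (.nd (nat_lit 7) 
(.nd (nat_lit 9) (.nd (nat_lit 21) 
(.lf (nat_lit 55083043) (dlOf (nat_lit 2) (nat_lit 0x28fb00004c040004004000200196a0882))) 
(.lf (nat_lit 48791587) (dlOf (nat_lit 1) (nat_lit 0x2e0029430701)))) 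
(.lf (nat_lit 50889251) (dlOf (nat_lit 1) (nat_lit 0x2000194d8701)))) (.nd (nat_lit 8) 
(.lf (nat_lit 34112675) (dlOf (nat_lit 1) (nat_lit 0x20028fb2c01))) 
(.lf (nat_lit 37259683) (dlOf (nat_lit 1) (nat_lit 0x1400090d4e81)))))) (.nd (nat_lit 21) 
(.nd (nat_lit 22) (.nd (nat_lit 26) 
(.lf (nat_lit 537436195) (dlOf (nat_lit 1) (nat_lit 0x400200020008090002))) (.nd (nat_lit 28) 
(.lf (nat_lit 201891875) (dlOf (nat_lit 2) (nat_lit 0xc0760005a02000200280b0a81))) 
(.lf (nat_lit 470327331) (dlOf (nat_lit 1) (nat_lit 0x100080008002000400080c0003))))) 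
(.nd (nat_lit 24) 
(.lf (nat_lit 474521635) (dlOf (nat_lit 2) (nat_lit 0x8c12c0038075001f03980080068000841000b0004000200091a0182))) 
(.lf (nat_lit 21536803) (dlOf (nat_lit 2) (nat_lit 0x650000001140800b8008000400200340008a40183))))) 
(.nd (nat_lit 7) (.nd (nat_lit 23) 
(.lf (nat_lit 36216867) (dlOf (nat_lit 2) (nat_lit 0x6c1000023019050180))) 
(.lf (nat_lit 11051043) (dlOf (nat_lit 2) (nat_lit 0xdbf10001a80800a8008004c00200100008660503)))) 
(.lf (nat_lit 37266595) (dlOf (nat_lit 1) (nat_lit 0x200290d2c01)))))) (.nd (nat_lit 26) 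
(.nd (nat_lit 27) (.nd (nat_lit 13) (.nd (nat_lit 20) 
(.lf (nat_lit 3494412323) (dlOf (nat_lit 1) (nat_lit 0x40008220901))) 
(.lf (nat_lit 3493363747) (dlOf (nat_lit 19) (nat_lit 0x383cc2cb80ce077e06205f202f859701042c7c044164201b0001487058c03382c601042198044108a01b0001404005f0798595819c0a240c407d405f0b2b020859c00882ce8036000270e001c01c00013010ad6033856b01042b7004415a401b0000e8406ac0338357010420380440f2801b0000e04077903383bd810425b804410c201b0000d0400c9011000a006c000320824400ce122404109eb01104fb806c000281010a40ce0da60410532011027e006c000261019b80ce07d4041088b01103f0806c00024100714044031001b000088200c0011005b806c000200801180ce0056041003201100003818002808800140360000d04008004100005810072033803a0104094404402c001b00004840063033800000080588008168400200780008120983)))) 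
(.lf (nat_lit 3494420515) (dlOf (nat_lit 5) (nat_lit 0x16101000f07e8008c01000103f40045e0400144340002213000408880048404003d0100014434000e213000710100060404003cc10002000400020018220902)))) 
(.nd (nat_lit 13) (.nd (nat_lit 28) 
(.lf (nat_lit 2819129379) (dlOf (nat_lit 2) (nat_lit 0x5081a40016a040404004007a00081a0602))) 
(.lf (nat_lit 3624435747) (dlOf (nat_lit 6) (nat_lit 0x28074000b604001403a0005702000a01d0002b01000500e8001540801581000000004002c002003c00081a0502)))) 
(.lf (nat_lit 2819137571) (dlOf (nat_lit 17) (nat_lit 0x1b01a800b40d2001a05e002f02b001000fc00d003a005e01a002f0000002dc4001001a800700d2000b604097a06a04b50348002d41005d81a802f40d2000b40401a806a00cb0348002cc1004081a802080d2000b204008e06a00410348002c41004d010c0268038000a00400ae06a004f0348000341001501a800c00d20000b0400b006a00560348000201005981a802dc0d20000504001206a00020348000101002b01a8000060402e00d40000202013006a00900348000001000b00080014002000200081a0603))))) 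
(.nd (nat_lit 13) (.nd (nat_lit 20) (.nd (nat_lit 22) (.nd (nat_lit 27) 
(.lf (nat_lit 3557326883) (dlOf (nat_lit 2) (nat_lit 0x3600fc001ce040014002004800081c0602))) 
(.lf (nat_lit 2886238243) (dlOf (nat_lit 6) (nat_lit 0x2807000162040014038000ad02000a01c0005601000500e0002ac0801581000000004002c002003c00081a0502)))) 
(.lf (nat_lit 2756214819) (dlOf (nat_lit 1) (nat_lit 0x40008220901)))) (.nd (nat_lit 21) 
(.lf (nat_lit 2753069091) (dlOf (nat_lit 2) (nat_lit 0xf01fa00006018080800))) 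
(.lf (nat_lit 2755166243) (dlOf (nat_lit 19) (nat_lit 0x383cc2cb80ce077e06205f202f859701042c7c044164201b0001487058c03382c601042198044108a01b0001404005f0798595819c0a240c407d405f0b2b020859c00882ce8036000270e001c01c00013010ad6033856b01042b7004415a401b000100406ac0338357010420380440f2801b0000f84077903383bd810425b804410c201b0000d0400c9011000a006c000320824400ce122404109eb01104fb806c000281010a40ce0da60410532011027e006c000261019b80ce07d4041088b01103f0806c00024100714044031001b000088200c0011005b806c00020080014044000a01b000070200460338015810400c80440000d06008004100005810072033803a0104094404402c001b00004840063033800000080588008168400200780008120983))))) 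
(.nd (nat_lit 20) (.nd (nat_lit 22) 
(.lf (nat_lit 3557335075) (dlOf (nat_lit 2) (nat_lit 0x10061003e0300003941000080080004002000200081c0603))) 
(.lf (nat_lit 2756223011) (dlOf (nat_lit 5) (nat_lit 0x16101000f07e8009201000103f40048e04001445e0002228000408580048404003f410001445e000e228000710b80060404003f010002000400020018220902)))) 
(.lf (nat_lit 2753077283) (dlOf (nat_lit 2) (nat_lit 0x150fd000030080048008005400200100008080803)))))))) 
(.nd (nat_lit 11) (.nd (nat_lit 8) (.nd (nat_lit 20) (.nd (nat_lit 7) (.nd (nat_lit 9) 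
(.nd (nat_lit 13) 
(.lf (nat_lit 14712931) (dlOf (nat_lit 4) (nat_lit 0x26a580009c02000952c0004b010006a960002140801880080028002000a0008770d03))) 
(.lf (nat_lit 1881186403) (dlOf (nat_lit 1) (nat_lit 0x400400020008e40902)))) 
(.lf (nat_lit 3154151011) (dlOf (nat_lit 1) (nat_lit 0x20028003901)))) (.nd (nat_lit 26) 
(.lf (nat_lit 1342734563) (dlOf (nat_lit 3) (nat_lit 0x48113005887cc0108346000a1710003f0400111130001e40807e800802b400200a400080c0483))) 
(.lf (nat_lit 470319331) (dlOf (nat_lit 3) (nat_lit 0x48113005887c80108366000a1730003f0400111130001e40807e800802b400200a400080c0483))))) 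
(.nd (nat_lit 10) (.nd (nat_lit 13) (.nd (nat_lit 19) 
(.lf (nat_lit 1007714403) (dlOf (nat_lit 1) (nat_lit 0x100018740481))) 
(.lf (nat_lit 3702883) (dlOf (nat_lit 3) (nat_lit 0x141444000200400f0a220000002000c0018211381)))) 
(.lf (nat_lit 14196835) (dlOf (nat_lit 1) (nat_lit 0x400400020008750282)))) (.nd (nat_lit 7) 
(.nd (nat_lit 9) (.lf (nat_lit 19960931) (dlOf (nat_lit 1) (nat_lit 0x200189d9401))) 
(.lf (nat_lit 61900387) (dlOf (nat_lit 3) (nat_lit 0xeced000c6760000cc10006b3b4003d9d8000320400160019923901)))) 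
(.lf (nat_lit 5772444899) (dlOf (nat_lit 1) (nat_lit 0x400400020008092e02)))))) (.nd (nat_lit 9) 
(.nd (nat_lit 7) (.nd (nat_lit 13) 
(.lf (nat_lit 23626083) (dlOf (nat_lit 2) (nat_lit 0xaee00006804005000200040008b80702))) 
(.lf (nat_lit 5771403619) (dlOf (nat_lit 2) (nat_lit 0x1400000006404001400200220008000e82)))) 
(.nd (nat_lit 13) (.nd (nat_lit 27) 
(.lf (nat_lit 604018147) (dlOf (nat_lit 2) (nat_lit 0xe03600034018009b00))) 
(.lf (nat_lit 1006671331) (dlOf (nat_lit 2) (nat_lit 0x241be0001e02002a0028009b01)))) 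
(.lf (nat_lit 604026339) (dlOf (nat_lit 3) (nat_lit 0xe0360003401000401a00008c080018008000400200020008009b03))))) 
(.nd (nat_lit 7) (.nd (nat_lit 28) 
(.lf (nat_lit 6039835491) (dlOf (nat_lit 2) (nat_lit 0x24008005450200020018008f81))) 
(.lf (nat_lit 4160787299) (dlOf (nat_lit 2) (nat_lit 0xe00a00273c0800e00080024002003a0008008f83)))) 
(.nd (nat_lit 12) (.nd (nat_lit 29) 
(.lf (nat_lit 5502968803) (dlOf (nat_lit 1) (nat_lit 0x400200020008002882))) 
(.lf (nat_lit 4966097891) (dlOf (nat_lit 1) (nat_lit 0x400400020008002882)))) 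
(.lf (nat_lit 2952827875) (dlOf (nat_lit 1) (nat_lit 0x1b8008000400200400008009203))))))) 
(.nd (nat_lit 28) (.nd (nat_lit 8) (.nd (nat_lit 7) (.nd (nat_lit 9) (.nd (nat_lit 26) 
(.lf (nat_lit 6576707683) (dlOf (nat_lit 1) (nat_lit 0xd000800d800200c8000800a803))) 
(.lf (nat_lit 1811978339) (dlOf (nat_lit 1) (nat_lit 0x40040002001800a802)))) 
(.lf (nat_lit 1677758051) (dlOf (nat_lit 1) (nat_lit 0x80028007181)))) (.nd (nat_lit 26) 
(.lf (nat_lit 4831873763) (dlOf (nat_lit 1) (nat_lit 0x100018005981))) 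
(.lf (nat_lit 4898982627) (dlOf (nat_lit 1) (nat_lit 0x400200020008005982))))) (.nd (nat_lit 20) 
(.nd (nat_lit 7) (.nd (nat_lit 10) 
(.lf (nat_lit 4362115427) (dlOf (nat_lit 1) (nat_lit 0xa00080044002000e000800ab83))) 
(.lf (nat_lit 134258019) (dlOf (nat_lit 2) (nat_lit 0xb80000067e0200e4000800c901)))) 
(.lf (nat_lit 134254051) (dlOf (nat_lit 2) (nat_lit 0xa40000003d02001e0008006e01)))) 
(.nd (nat_lit 13) (.lf (nat_lit 19958115) (dlOf (nat_lit 1) (nat_lit 0x4002000200089d4e82))) 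
(.nd (nat_lit 19) (.lf (nat_lit 19966307) (dlOf (nat_lit 1) (nat_lit 0x4002000200089d4e82))) 
(.lf (nat_lit 62433635) (dlOf (nat_lit 1) (nat_lit 0x4004000200099a4e82))))))) (.nd (nat_lit 7) 
(.nd (nat_lit 29) (.nd (nat_lit 8) (.nd (nat_lit 20) 
(.lf (nat_lit 5838510179) (dlOf (nat_lit 1) (nat_lit 0x40040002000800a802))) 
(.lf (nat_lit 3492845667) (dlOf (nat_lit 3) (nat_lit 0x1500f60013f0200a807b0009a0180fa800)))) 
(.lf (nat_lit 3490221411) (dlOf (nat_lit 1) (nat_lit 0x400200020008006a82)))) (.nd (nat_lit 8) 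
(.nd (nat_lit 9) (.lf (nat_lit 805341283) (dlOf (nat_lit 1) (nat_lit 0x8008001800200020008004703))) 
(.lf (nat_lit 939560547) (dlOf (nat_lit 1) (nat_lit 0x10008000800200040008007183)))) 
(.lf (nat_lit 5167425891) (dlOf (nat_lit 1) (nat_lit 0x40018054e81))))) (.nd (nat_lit 9) 
(.nd (nat_lit 8) (.lf (nat_lit 1342221539) (dlOf (nat_lit 1) (nat_lit 0x400400020008006502))) 
(.lf (nat_lit 5167417827) (dlOf (nat_lit 1) (nat_lit 0x800400020008054e82)))) (.nd (nat_lit 26) 
(.nd (nat_lit 30) (.lf (nat_lit 5234526947) (dlOf (nat_lit 1) (nat_lit 0x500018005981))) 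
(.lf (nat_lit 6308268771) (dlOf (nat_lit 2) (nat_lit 0x201900017818005980)))) 
(.lf (nat_lit 5704288995) (dlOf (nat_lit 2) (nat_lit 0x400d8000c0080010008000800200020008005983))))))))) 
(.nd (nat_lit 13) (.nd (nat_lit 6) (.nd (nat_lit 21) (.nd (nat_lit 28) (.nd (nat_lit 32) 
(.nd (nat_lit 26) (.nd (nat_lit 19) (.nd (nat_lit 22) 
(.lf (nat_lit 9732131) (dlOf (nat_lit 2) (nat_lit 0x3100000008a04000400200020008580182))) 
(.lf (nat_lit 30703651) (dlOf (nat_lit 2) (nat_lit 0x2dd6b40029c04015400400ae0008e40d82)))) 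
(.lf (nat_lit 2819391523) (dlOf (nat_lit 1) (nat_lit 0x2800400020008250702)))) (.nd (nat_lit 7) 
(.nd (nat_lit 31) (.lf (nat_lit 67403811) (dlOf (nat_lit 2) (nat_lit 0x1616e0000e8180f0180))) 
(.lf (nat_lit 2214887459) (dlOf (nat_lit 5) (nat_lit 0x3000c000bc0400280060005d02000c0030002d8100060018001680800200080014002000e0008100503)))) 
(.lf (nat_lit 3288629411) (dlOf (nat_lit 1) (nat_lit 0x400200080008090202))))) (.nd (nat_lit 27) 
(.nd (nat_lit 7) (.lf (nat_lit 4295262243) (dlOf (nat_lit 1) (nat_lit 0xc002000200080e0b82))) 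
(.lf (nat_lit 5369004195) (dlOf (nat_lit 1) (nat_lit 0x580080010002001c00080c1383)))) 
(.nd (nat_lit 29) (.lf (nat_lit 4429479971) (dlOf (nat_lit 1) (nat_lit 0xc002000200080e0b82))) 
(.lf (nat_lit 6040092707) (dlOf (nat_lit 2) (nat_lit 0x3008c0006a040010004000e00180d0802)))))) 
(.nd (nat_lit 26) (.nd (nat_lit 29) (.nd (nat_lit 27) 
(.lf (nat_lit 5637439523) (dlOf (nat_lit 1) (nat_lit 0x14004000a00080e0782))) 
(.lf (nat_lit 1476689955) (dlOf (nat_lit 1) (nat_lit 0x700080018002000a0008120683)))) 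
(.nd (nat_lit 7) 
(.lf (nat_lit 2953084963) (dlOf (nat_lit 14) (nat_lit 0x4d00a0015640802f005000aac04018802800550020090014002a781004d00a00153008057005000a8c0400a4028005450200c4014002a201005400a00150c080328050008660400500280041402001a0140020001001a00a00000008017800800e0002001e00080f0703))) 
(.lf (nat_lit 4026826915) (dlOf (nat_lit 1) (nat_lit 0x400200080008090202))))) (.nd (nat_lit 27) 
(.nd (nat_lit 7) (.nd (nat_lit 31) 
(.lf (nat_lit 5167677475) (dlOf (nat_lit 2) (nat_lit 0x3601500022818100180))) 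
(.lf (nat_lit 3020193827) (dlOf (nat_lit 10) (nat_lit 0x51018801c0094000480801b006200680250001182002501c800d80c8009405c002002d0023013801280980004018004804e0001e0200160320016017000c809c005404c0001d08002c02e00160138000701000900e40020064002402e0012013800900980001e14002006400001020016032001a01380000010005000800d400200340008150183)))) 
(.lf (nat_lit 1410107555) (dlOf (nat_lit 1) (nat_lit 0x1c800280f4881)))) (.nd (nat_lit 20) 
(.lf (nat_lit 3691282467) (dlOf (nat_lit 1) (nat_lit 0x280028110701))) 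
(.lf (nat_lit 471105571) (dlOf (nat_lit 2) (nat_lit 0x520508011d0080030008000400200140008270703))))))) 
(.nd (nat_lit 7) (.nd (nat_lit 19) (.nd (nat_lit 20) (.nd (nat_lit 22) 
(.lf (nat_lit 44335139) (dlOf (nat_lit 4) (nat_lit 0xd31c000518840030b520001406000e638000331080004c1000118e00008c420001204000200192f0881))) 
(.lf (nat_lit 6586403) (dlOf (nat_lit 1) (nat_lit 0x20028430d81)))) 
(.lf (nat_lit 7634979) (dlOf (nat_lit 1) (nat_lit 0x200284c0d81)))) (.nd (nat_lit 22) 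
(.nd (nat_lit 28) (.lf (nat_lit 3964963) (dlOf (nat_lit 1) (nat_lit 0x20018260b01))) 
(.lf (nat_lit 1346142243) (dlOf (nat_lit 2) (nat_lit 0x70286001813b000a09c800d83340001c10001c00400240008e60182)))) 
(.nd (nat_lit 9) 
(.lf (nat_lit 24936483) (dlOf (nat_lit 3) (nat_lit 0xeaa60001781000d5530000b80800e8008001c00200640008bd0b83))) 
(.lf (nat_lit 8163875) (dlOf (nat_lit 1) (nat_lit 0x20028518881)))))) (.nd (nat_lit 8) 
(.nd (nat_lit 9) (.lf (nat_lit 69502115) (dlOf (nat_lit 1) (nat_lit 0x18008001400200020008a82c03))) 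
(.nd (nat_lit 10) (.lf (nat_lit 36997795) (dlOf (nat_lit 1) (nat_lit 0x1000400040009075602))) 
(.lf (nat_lit 2754907811) (dlOf (nat_lit 1) (nat_lit 0x4002000400080f7202))))) (.nd (nat_lit 10) 
(.nd (nat_lit 12) (.lf (nat_lit 36473251) (dlOf (nat_lit 1) (nat_lit 0x20019074e81))) 
(.lf (nat_lit 20224419) (dlOf (nat_lit 1) (nat_lit 0x4002000200089daf82)))) 
(.lf (nat_lit 8160675) (dlOf (nat_lit 1) (nat_lit 0x400200020008513602))))))) (.nd (nat_lit 19) 
(.nd (nat_lit 26) (.nd (nat_lit 7) (.nd (nat_lit 8) (.nd (nat_lit 20) 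
(.lf (nat_lit 2416214115) (dlOf (nat_lit 1) (nat_lit 0x200080004002000200080a1283))) 
(.lf (nat_lit 24412259) (dlOf (nat_lit 4) (nat_lit 0xe0000000f8100080000000400800980000000004000800200160008b91382)))) 
(.lf (nat_lit 11829603) (dlOf (nat_lit 1) (nat_lit 0x23800400a600086c0702)))) (.nd (nat_lit 8) 
(.lf (nat_lit 3489959139) (dlOf (nat_lit 1) (nat_lit 0x120028006501))) 
(.lf (nat_lit 2818872803) (dlOf (nat_lit 4) (nat_lit 0x40014000d004000800a00040030002102000500300008c080068008000c00200260008129b03))))) 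
(.nd (nat_lit 29) (.nd (nat_lit 28) 
(.lf (nat_lit 67403875) (dlOf (nat_lit 1) (nat_lit 0x200180f0d01))) 
(.lf (nat_lit 2483322979) (dlOf (nat_lit 14) (nat_lit 0x1d80a80004e040010054000201000020070000981802080a80004604010005400a801000011020020015001200400004208012005400720100001002001e015001d8040001c01c0001d06008402a00220080000701001200a800036040118054004c010001100700005c1801d00a80002c0400b005400400100000a8200060080000000803d000800f8002001a00080a1383)))) 
(.nd (nat_lit 27) 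
(.lf (nat_lit 3020193891) (dlOf (nat_lit 12) (nat_lit 0x12027000900c00128000001380c00c40000009602004c0000004681002c000000214080e180f4016806003d202b01e00120001f4200dc80f4016c06003da02b01e501200010064000f81400280480007b02006a02b00220120001e8100e000f407b005603c60240003a83005f01580330090000e808065007a03d002b01df0120001cc1800b0008006000200240008150d03))) 
(.lf (nat_lit 3154411619) (dlOf (nat_lit 1) (nat_lit 0x17000800d4002004a0008160283)))))) 
(.nd (nat_lit 8) (.nd (nat_lit 23) (.nd (nat_lit 7) 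
(.lf (nat_lit 17596515) (dlOf (nat_lit 1) (nat_lit 0x4002000200088e0482))) 
(.lf (nat_lit 8164067) (dlOf (nat_lit 1) (nat_lit 0x8008000400200020008518c83)))) (.nd (nat_lit 25) 
(.lf (nat_lit 9207907) (dlOf (nat_lit 1) (nat_lit 0x800200460008530d82))) 
(.lf (nat_lit 42762339) (dlOf (nat_lit 1) (nat_lit 0x20008000400200020009280903))))) 
(.nd (nat_lit 7) (.nd (nat_lit 20) 
(.lf (nat_lit 55347555) (dlOf (nat_lit 1) (nat_lit 0x4004000200096d4e82))) 
(.lf (nat_lit 35424611) (dlOf (nat_lit 1) (nat_lit 0x400400020009014e82)))) 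
(.lf (nat_lit 4094462435) (dlOf (nat_lit 1) (nat_lit 0x40028054e81))))))) (.nd (nat_lit 19) 
(.nd (nat_lit 30) (.nd (nat_lit 26) (.nd (nat_lit 20) (.nd (nat_lit 21) (.nd (nat_lit 31) 
(.lf (nat_lit 805609507) (dlOf (nat_lit 2) (nat_lit 0x604400015018140c00))) 
(.lf (nat_lit 2953093155) (dlOf (nat_lit 1) (nat_lit 0x28008002400200080008100583)))) 
(.lf (nat_lit 44343331) (dlOf (nat_lit 3) (nat_lit 0x12638000a3108000501000298e00014c420001304000a00292f0881)))) 
(.nd (nat_lit 6) (.nd (nat_lit 22) 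
(.lf (nat_lit 9740323) (dlOf (nat_lit 2) (nat_lit 0x5880000008a04006800200120008580182))) 
(.lf (nat_lit 22323235) (dlOf (nat_lit 4) (nat_lit 0x5429e0022f02002213b001130100035498007cc0800c80080004002004e0008ac0483)))) 
(.nd (nat_lit 10) 
(.lf (nat_lit 62169187) (dlOf (nat_lit 1) (nat_lit 0x90008000800200080009960783))) 
(.lf (nat_lit 20231267) (dlOf (nat_lit 1) (nat_lit 0x400189d9401)))))) (.nd (nat_lit 27) 
(.nd (nat_lit 28) 
(.lf (nat_lit 2214895651) (dlOf (nat_lit 5) (nat_lit 0x2804c000bc0400300260005d02000e0130002d810006009800168080060008002800200100008100503))) 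
(.nd (nat_lit 29) (.lf (nat_lit 4630814755) (dlOf (nat_lit 1) (nat_lit 0x4004000200080d0182))) 
(.lf (nat_lit 5167685667) (dlOf (nat_lit 1) (nat_lit 0x1000200040008100182))))) (.nd (nat_lit 28) 
(.lf (nat_lit 6644080675) (dlOf (nat_lit 2) (nat_lit 0x550118000a80801780080118002001000080e0583))) 
(.lf (nat_lit 4765032483) (dlOf (nat_lit 1) (nat_lit 0x4004000200080d0182)))))) (.nd (nat_lit 6) 
(.nd (nat_lit 26) (.nd (nat_lit 27) 
(.lf (nat_lit 3758399523) (dlOf (nat_lit 10) (nat_lit 0x51018801c0094000480801b006200680250001182002501c800d80c8009405c002002d0023013801280980004018004804e0001e0200160320016017000c809c005404c0001d08002c02e00160138000701000900e40020064002402e0012013800900980001e14002006400001020016032001a01380000010005000800d400200340008170183))) 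
(.lf (nat_lit 6040100899) (dlOf (nat_lit 2) (nat_lit 0x60000002d0180e0580)))) (.nd (nat_lit 7) 
(.nd (nat_lit 27) (.lf (nat_lit 1678024739) (dlOf (nat_lit 2) (nat_lit 0x604400015018140c00))) 
(.lf (nat_lit 3691290659) (dlOf (nat_lit 2) (nat_lit 0x200a800000080040008003800200080008110703)))) 
(.lf (nat_lit 3959726499) (dlOf (nat_lit 3) (nat_lit 0x270027005218100ea013802908080068008000400200100008126b83))))) 
(.nd (nat_lit 7) (.nd (nat_lit 9) (.nd (nat_lit 22) 
(.lf (nat_lit 3758399587) (dlOf (nat_lit 12) (nat_lit 0x12027000900c00128000001380c00c40000009602004c0000004681002c000000214080e180f4016806003d202b01e00120001f4200dc80f4016c06003da02b01e501200010064000f81400280480007b02006a02b00220120001e8100e000f407b005603c60240003a83005f01580330090000e808065007a03d002b01df0120001cc1800b0008006000200240008170d03))) 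
(.lf (nat_lit 3494158435) (dlOf (nat_lit 3) (nat_lit 0xd02600008808005813000042040004004000a00181c1282)))) 
(.lf (nat_lit 1610917475) (dlOf (nat_lit 1) (nat_lit 0x1a0028093901)))) (.nd (nat_lit 8) 
(.nd (nat_lit 9) (.lf (nat_lit 3489967331) (dlOf (nat_lit 1) (nat_lit 0x400400020008006502))) 
(.lf (nat_lit 5436123875) (dlOf (nat_lit 2) (nat_lit 0x2c0000002b02001000080e5981)))) 
(.nd (nat_lit 26) 
(.lf (nat_lit 3221529059) (dlOf (nat_lit 6) (nat_lit 0xfc01c0002402008000e0001101003f0070000800801f80380003a04010001c0001c02000c0028127301))) 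
(.lf (nat_lit 3959726563) (dlOf (nat_lit 1) (nat_lit 0x3000200580008127d02)))))))) 
(.nd (nat_lit 28) (.nd (nat_lit 6) (.nd (nat_lit 7) (.nd (nat_lit 8) (.nd (nat_lit 9) 
(.lf (nat_lit 10264611) (dlOf (nat_lit 1) (nat_lit 0xd00080084002004200085c0983))) 
(.lf (nat_lit 8172067) (dlOf (nat_lit 1) (nat_lit 0x60028518881)))) 
(.lf (nat_lit 1876259) (dlOf (nat_lit 1) (nat_lit 0x120008150501)))) (.nd (nat_lit 9) 
(.lf (nat_lit 48014499) (dlOf (nat_lit 2) (nat_lit 0xca9a0005f0200040019402c01))) (.nd (nat_lit 10) 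
(.lf (nat_lit 36481699) (dlOf (nat_lit 1) (nat_lit 0x240009075601))) 
(.lf (nat_lit 537702051) (dlOf (nat_lit 2) (nat_lit 0x3e02d000150180f7200)))))) (.nd (nat_lit 8) 
(.nd (nat_lit 7) (.lf (nat_lit 9216099) (dlOf (nat_lit 1) (nat_lit 0x400400080008530d82))) 
(.lf (nat_lit 1876195) (dlOf (nat_lit 1) (nat_lit 0x20018150481)))) (.nd (nat_lit 11) 
(.lf (nat_lit 8171875) (dlOf (nat_lit 1) (nat_lit 0x80028518381))) 
(.lf (nat_lit 36481379) (dlOf (nat_lit 1) (nat_lit 0x400400020009074e82)))))) (.nd (nat_lit 6) 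
(.nd (nat_lit 20) (.nd (nat_lit 8) (.nd (nat_lit 26) 
(.lf (nat_lit 1343004707) (dlOf (nat_lit 2) (nat_lit 0x5a22d00121018130900))) 
(.lf (nat_lit 470589475) (dlOf (nat_lit 2) (nat_lit 0x5a22d0011b818130900)))) 
(.lf (nat_lit 4094468387) (dlOf (nat_lit 1) (nat_lit 0xa0018050a81)))) (.nd (nat_lit 7) 
(.nd (nat_lit 21) (.lf (nat_lit 4095516707) (dlOf (nat_lit 2) (nat_lit 0x4087000e28180d0480))) 
(.lf (nat_lit 1346150435) (dlOf (nat_lit 11) (nat_lit 0x18836400240fa00a807c0001383002b06c802701f00004c0804b0286026413b012d09c809a033404f80ea027a073000070601130a18085033404cc0ea0266073000068400740a1805084ec024019a011c075008e0398000302805a850c03780e60000b04013614300b709d805004e4028819a003807d00c403a806201cc000141c04a0286026c0cd015603a80ab01cc0001210000c19a006c075001803980001818071850c03d027601c80cd00f003a807401cc0000014009800400320018e60182)))) 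
(.lf (nat_lit 473736355) (dlOf (nat_lit 1) (nat_lit 0x54004000e0008fa2c02))))) (.nd (nat_lit 26) 
(.nd (nat_lit 21) 
(.lf (nat_lit 5773238371) (dlOf (nat_lit 2) (nat_lit 0x2800000000040008002000600080b0d82))) 
(.lf (nat_lit 1346150499) (dlOf (nat_lit 2) (nat_lit 0x8607c00000018e60900)))) (.nd (nat_lit 7) 
(.nd (nat_lit 29) 
(.lf (nat_lit 471638115) (dlOf (nat_lit 3) (nat_lit 0x68584000429c001e09d00100470004cc200058584003813a001a08e00074038370480))) 
(.lf (nat_lit 6377218147) (dlOf (nat_lit 2) (nat_lit 0x2800000000040008002000600080b0d82)))) 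
(.lf (nat_lit 4094470627) (dlOf (nat_lit 1) (nat_lit 0x800803dc00200c00008054e83)))))))))) 
(.nd (nat_lit 13) (.nd (nat_lit 18) (.nd (nat_lit 28) (.nd (nat_lit 19) (.nd (nat_lit 7) 
(.nd (nat_lit 31) (.nd (nat_lit 20) (.nd (nat_lit 6) (.nd (nat_lit 21) 
(.lf (nat_lit 5972787235) (dlOf (nat_lit 1) (nat_lit 0x18002000800080d0a02))) 
(.lf (nat_lit 27361315) (dlOf (nat_lit 2) (nat_lit 0x2ced005c1818cd0680)))) 
(.lf (nat_lit 8492131) (dlOf (nat_lit 1) (nat_lit 0x10008000400200020008519403)))) (.nd (nat_lit 6) 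
(.nd (nat_lit 8) 
(.lf (nat_lit 26312739) (dlOf (nat_lit 3) (nat_lit 0x5a9680003a0400354b40001c0200020008c30181))) 
(.lf (nat_lit 3244323) (dlOf (nat_lit 1) (nat_lit 0x600080014002000a0008200503)))) 
(.lf (nat_lit 7438435) (dlOf (nat_lit 1) (nat_lit 0xa00084b0481))))) (.nd (nat_lit 8) 
(.nd (nat_lit 9) (.nd (nat_lit 26) 
(.lf (nat_lit 6576767011) (dlOf (nat_lit 1) (nat_lit 0x18002000800080d0a02))) 
(.lf (nat_lit 2214690851) (dlOf (nat_lit 1) (nat_lit 0x8008000400200020008030583)))) 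
(.lf (nat_lit 3355542051) (dlOf (nat_lit 2) (nat_lit 0x30158003540800300080008002001a00080a1483)))) 
(.nd (nat_lit 26) 
(.lf (nat_lit 3221324067) (dlOf (nat_lit 1) (nat_lit 0x10008000400200020008090503))) 
(.lf (nat_lit 3959521571) (dlOf (nat_lit 1) (nat_lit 0x10008000400200020008090503)))))) 
(.nd (nat_lit 6) (.nd (nat_lit 9) (.nd (nat_lit 8) 
(.lf (nat_lit 36799651) (dlOf (nat_lit 1) (nat_lit 0x20019072c01))) 
(.lf (nat_lit 1208060323) (dlOf (nat_lit 1) (nat_lit 0x800400020008094e82)))) (.nd (nat_lit 11) 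
(.lf (nat_lit 3355547299) (dlOf (nat_lit 1) (nat_lit 0x200280a9f81))) 
(.lf (nat_lit 2754711203) (dlOf (nat_lit 1) (nat_lit 0x4002000200080f7202))))) (.nd (nat_lit 8) 
(.nd (nat_lit 9) (.lf (nat_lit 2195683) (dlOf (nat_lit 2) (nat_lit 0x7554c0008e02000a0018150481))) 
(.lf (nat_lit 20028131) (dlOf (nat_lit 1) (nat_lit 0xc00008077c002020800089db983)))) 
(.lf (nat_lit 4496393187) (dlOf (nat_lit 1) (nat_lit 0x400400020008052882)))))) (.nd (nat_lit 29) 
(.nd (nat_lit 6) (.nd (nat_lit 9) (.nd (nat_lit 20) 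
(.lf (nat_lit 42565667) (dlOf (nat_lit 1) (nat_lit 0x2000400020009260182))) 
(.lf (nat_lit 24739875) (dlOf (nat_lit 1) (nat_lit 0x240008bb0881)))) 
(.lf (nat_lit 50954787) (dlOf (nat_lit 1) (nat_lit 0x200294d8701)))) (.nd (nat_lit 8) 
(.lf (nat_lit 627811) (dlOf (nat_lit 1) (nat_lit 0x80008002000200120008009403))) 
(.lf (nat_lit 49907043) (dlOf (nat_lit 1) (nat_lit 0x200294c3401))))) (.nd (nat_lit 27) 
(.nd (nat_lit 21) (.nd (nat_lit 22) 
(.lf (nat_lit 1678344227) (dlOf (nat_lit 2) (nat_lit 0x20168000bc080068008003c002001200081f0b83))) 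
(.lf (nat_lit 2756280355) (dlOf (nat_lit 1) (nat_lit 0x1e0028230481)))) 
(.lf (nat_lit 2754183203) (dlOf (nat_lit 3) (nat_lit 0x42b2000f802001c1590007a0180c0b00)))) 
(.nd (nat_lit 10) 
(.lf (nat_lit 3892936739) (dlOf (nat_lit 6) (nat_lit 0xa01200048088000803a004e016000e00a0007fc28001815000040a200060330001011000700580058028001fd0c0004051000401200020088003f80c001009e0002024000101100048074003ce100018048000601d000f30282a0a80))) 
(.lf (nat_lit 738821155) (dlOf (nat_lit 1) (nat_lit 0x960018122881))))))) (.nd (nat_lit 6) 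
(.nd (nat_lit 7) (.nd (nat_lit 30) (.nd (nat_lit 9) 
(.lf (nat_lit 805928995) (dlOf (nat_lit 2) (nat_lit 0x20168000bc080068008003c002001200081f0b83))) 
(.lf (nat_lit 4697720355) (dlOf (nat_lit 2) (nat_lit 0x300a400072040040004001e0008093702)))) 
(.nd (nat_lit 21) (.nd (nat_lit 22) 
(.lf (nat_lit 3557392419) (dlOf (nat_lit 1) (nat_lit 0x18600281e0681))) 
(.lf (nat_lit 3494477859) (dlOf (nat_lit 1) (nat_lit 0x1e0028230481)))) 
(.lf (nat_lit 3492380707) (dlOf (nat_lit 3) (nat_lit 0x42a80006b02001c154000338180c0b00))))) 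
(.nd (nat_lit 8) (.nd (nat_lit 9) (.nd (nat_lit 11) 
(.lf (nat_lit 1009352867) (dlOf (nat_lit 1) (nat_lit 0x400200020009111382))) 
(.lf (nat_lit 939624611) (dlOf (nat_lit 1) (nat_lit 0x20018144881)))) 
(.lf (nat_lit 1880722083) (dlOf (nat_lit 1) (nat_lit 0x60018b55601)))) (.nd (nat_lit 9) 
(.nd (nat_lit 26) 
(.lf (nat_lit 4563503523) (dlOf (nat_lit 1) (nat_lit 0x158008000c00200020008094e83))) 
(.lf (nat_lit 5838571939) (dlOf (nat_lit 1) (nat_lit 0x1600180f4e81)))) 
(.lf (nat_lit 5637245859) (dlOf (nat_lit 2) (nat_lit 0xb00a000a00080007008004c00400220018055c82)))))) 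
(.nd (nat_lit 26) (.nd (nat_lit 30) (.nd (nat_lit 7) (.nd (nat_lit 9) 
(.lf (nat_lit 2952888419) (dlOf (nat_lit 1) (nat_lit 0x8008000800200040008010283))) 
(.lf (nat_lit 5100373603) (dlOf (nat_lit 1) (nat_lit 0x220018053901)))) 
(.lf (nat_lit 2416017891) (dlOf (nat_lit 1) (nat_lit 0x40018017d01)))) (.nd (nat_lit 7) 
(.nd (nat_lit 8) 
(.lf (nat_lit 1342799971) (dlOf (nat_lit 1) (nat_lit 0x5a0008000400200e600080d1383))) 
(.lf (nat_lit 3493953891) (dlOf (nat_lit 1) (nat_lit 0x10004000400081b0702)))) 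
(.lf (nat_lit 3493953763) (dlOf (nat_lit 2) (nat_lit 0x680000008e02000400181b0481))))) 
(.nd (nat_lit 7) (.nd (nat_lit 21) (.nd (nat_lit 29) 
(.lf (nat_lit 470384739) (dlOf (nat_lit 1) (nat_lit 0x80080004002000200080d1283))) 
(.lf (nat_lit 3154739299) (dlOf (nat_lit 1) (nat_lit 0x20018310481)))) 
(.lf (nat_lit 472481891) (dlOf (nat_lit 1) (nat_lit 0x400200020008991982)))) (.nd (nat_lit 9) 
(.nd (nat_lit 10) (.lf (nat_lit 5838572003) (dlOf (nat_lit 1) (nat_lit 0x8004000200080f4e82))) 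
(.lf (nat_lit 469865955) (dlOf (nat_lit 1) (nat_lit 0x2c00400020008009b02)))) 
(.lf (nat_lit 469865443) (dlOf (nat_lit 2) (nat_lit 0x82380144e04007800400060008009202)))))))) 
(.nd (nat_lit 6) (.nd (nat_lit 20) (.nd (nat_lit 28) (.nd (nat_lit 7) (.nd (nat_lit 26) 
(.nd (nat_lit 19) (.nd (nat_lit 29) 
(.lf (nat_lit 3221585955) (dlOf (nat_lit 1) (nat_lit 0x8008006000200680008150703))) 
(.lf (nat_lit 4832198691) (dlOf (nat_lit 1) (nat_lit 0x800800f400200420008110183)))) 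
(.lf (nat_lit 28147747) (dlOf (nat_lit 1) (nat_lit 0x400400020008d60582)))) (.nd (nat_lit 27) 
(.lf (nat_lit 4899307555) (dlOf (nat_lit 3) (nat_lit 0x4a03200070000001141000180bc0008604000400200040008100182))) 
(.nd (nat_lit 29) 
(.lf (nat_lit 201687075) (dlOf (nat_lit 3) (nat_lit 0x2180620002802003a0310000c018080800))) 
(.lf (nat_lit 3959783459) (dlOf (nat_lit 1) (nat_lit 0x8008006000200680008150703)))))) 
(.nd (nat_lit 9) (.nd (nat_lit 10) 
(.lf (nat_lit 8751267) (dlOf (nat_lit 1) (nat_lit 0x60028514881))) 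
(.lf (nat_lit 19764387) (dlOf (nat_lit 1) (nat_lit 0x48002001000089d9502)))) 
(.lf (nat_lit 59083427) (dlOf (nat_lit 1) (nat_lit 0x200297e5601))))) (.nd (nat_lit 27) 
(.nd (nat_lit 10) (.nd (nat_lit 22) 
(.lf (nat_lit 4563763235) (dlOf (nat_lit 7) (nat_lit 0x780b40005404001005c000c02d000400f0000441800600780001604007405c006602d002c01600188078001c0380000a0a001e02d000048100110168008807800000080064004008c00080d0182))) 
(.lf (nat_lit 1346732067) (dlOf (nat_lit 4) (nat_lit 0x350ab001c850c0174276006a0cd003504b001f021400d40ea0068073000210800020468000fc0800d859800702ac0036143001c09d80118334007810a0036075000300d0000f84000780080014002000c0009000183)))) 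
(.lf (nat_lit 3490024483) (dlOf (nat_lit 1) (nat_lit 0x80028006081)))) (.nd (nat_lit 26) 
(.nd (nat_lit 29) 
(.lf (nat_lit 4697980963) (dlOf (nat_lit 7) (nat_lit 0x780b40005404001005c000c02d000400f0000441800600780001604007405c006602d002c01600188078001c0380000a0a001e02d000048100110168008807800000080064004008c00080d0182))) 
(.lf (nat_lit 5234851875) (dlOf (nat_lit 4) (nat_lit 0x7c019004600b0020804c0008c0c01d803800da01b007e00c8036805801d4026003a0060002286000300b8015005000fc01a000380600840028100181)))) 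
(.nd (nat_lit 7) 
(.lf (nat_lit 3154477091) (dlOf (nat_lit 8) (nat_lit 0x163016000064080ba80b0000300401f80580001702041806401eb0300116816800ac0b203dc05501ee01a00a380bc077405003d2014001700300f7000c000162c08200c8000a06201ba0300104016807000aa037e034011801780d980a006e00280394003000050a010303000ec816807480aa03ae03401d400a004f000c0000e1807880c8041c05a01b202a80f0811c06d0068014802f01f8017004e00b000ac050033601401cb00180f2800800000300408004015400081a0182))) 
(.lf (nat_lit 2080735395) (dlOf (nat_lit 2) (nat_lit 0x4028000100180c1380))))))) (.nd (nat_lit 7) 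
(.nd (nat_lit 19) (.nd (nat_lit 23) 
(.lf (nat_lit 1343586339) (dlOf (nat_lit 1) (nat_lit 0xc002000200082a0582))) 
(.lf (nat_lit 9797667) (dlOf (nat_lit 2) (nat_lit 0x13f4c4009f9da000450400080018580181)))) 
(.nd (nat_lit 21) (.nd (nat_lit 22) 
(.lf (nat_lit 27099171) (dlOf (nat_lit 3) (nat_lit 0x6b7f00009aa4000ed0d000738302afec28002c4080188008009c002000e0008ca0603))) 
(.lf (nat_lit 22904867) (dlOf (nat_lit 1) (nat_lit 0x680008b40501)))) 
(.lf (nat_lit 4030499) (dlOf (nat_lit 2) (nat_lit 0x1247000091e0003f008000400400200008270902))))) 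
(.nd (nat_lit 19) (.nd (nat_lit 9) 
(.lf (nat_lit 3493169315) (dlOf (nat_lit 2) (nat_lit 0x87060000044080150008007c002006000080f4883))) 
(.lf (nat_lit 2754973347) (dlOf (nat_lit 1) (nat_lit 0x20008000c002000a00080f7203)))) 
(.nd (nat_lit 8) (.lf (nat_lit 35490467) (dlOf (nat_lit 1) (nat_lit 0x60019015601))) 
(.lf (nat_lit 45976483) (dlOf (nat_lit 1) (nat_lit 0x300019385c81))))))) (.nd (nat_lit 19) 
(.nd (nat_lit 21) (.nd (nat_lit 27) (.nd (nat_lit 7) 
(.lf (nat_lit 4295333987) (dlOf (nat_lit 1) (nat_lit 0x2b8008001c0020084000811a803))) 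
(.lf (nat_lit 2751824867) (dlOf (nat_lit 1) (nat_lit 0x20018002881)))) (.nd (nat_lit 28) 
(.lf (nat_lit 1745191011) (dlOf (nat_lit 1) (nat_lit 0x4004000200080d1d02))) 
(.lf (nat_lit 403013731) (dlOf (nat_lit 1) (nat_lit 0x2000180d1b81))))) (.nd (nat_lit 7) 
(.nd (nat_lit 20) 
(.lf (nat_lit 3492118627) (dlOf (nat_lit 2) (nat_lit 0xe03e8000980800300080018002000600080a1383))) 
(.lf (nat_lit 32866403) (dlOf (nat_lit 1) (nat_lit 0x8008001800200020008f30903)))) 
(.lf (nat_lit 69569251) (dlOf (nat_lit 1) (nat_lit 0x20028b45981))))) (.nd (nat_lit 8) 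
(.nd (nat_lit 21) (.nd (nat_lit 23) 
(.lf (nat_lit 470646883) (dlOf (nat_lit 1) (nat_lit 0x20018150281))) 
(.lf (nat_lit 42827875) (dlOf (nat_lit 1) (nat_lit 0x180019280901)))) (.nd (nat_lit 20) 
(.lf (nat_lit 53313635) (dlOf (nat_lit 2) (nat_lit 0x31314000f804001000200020009590d82))) 
(.lf (nat_lit 20807779) (dlOf (nat_lit 1) (nat_lit 0x4004000200089e1982))))) (.nd (nat_lit 11) 
(.lf (nat_lit 1343062371) (dlOf (nat_lit 1) (nat_lit 0x180028150901))) (.nd (nat_lit 20) 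
(.lf (nat_lit 6376229219) (dlOf (nat_lit 1) (nat_lit 0x400200020008094e82))) 
(.lf (nat_lit 54364515) (dlOf (nat_lit 1) (nat_lit 0x400400020009654e82))))))))) (.nd (nat_lit 28) 
(.nd (nat_lit 18) (.nd (nat_lit 23) (.nd (nat_lit 26) (.nd (nat_lit 7) (.nd (nat_lit 21) 
(.nd (nat_lit 8) (.lf (nat_lit 50962979) (dlOf (nat_lit 1) (nat_lit 0x14002002800094d8702))) 
(.nd (nat_lit 9) 
(.lf (nat_lit 3221332259) (dlOf (nat_lit 2) (nat_lit 0x3a00800006c04004c002002c0008090502))) 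
(.lf (nat_lit 113443) (dlOf (nat_lit 1) (nat_lit 0x40020004000800bc82))))) (.nd (nat_lit 20) 
(.nd (nat_lit 24) 
(.lf (nat_lit 2727971) (dlOf (nat_lit 7) (nat_lit 0x2ac0400154220005104000eb01000450880032820000780c001d6020006a1100075040000d818001ac040019422000ca080001a8300035088000d008003000000000040008004001000181a0b82))) 
(.lf (nat_lit 19505187) (dlOf (nat_lit 1) (nat_lit 0x32200289b0601)))) 
(.lf (nat_lit 24748067) (dlOf (nat_lit 1) (nat_lit 0x400200100008bb0882))))) (.nd (nat_lit 6) 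
(.nd (nat_lit 8) (.lf (nat_lit 6442559651) (dlOf (nat_lit 1) (nat_lit 0x4004000200080f4882))) 
(.lf (nat_lit 6576777635) (dlOf (nat_lit 1) (nat_lit 0x400018144e81)))) (.nd (nat_lit 8) 
(.nd (nat_lit 11) (.lf (nat_lit 111331) (dlOf (nat_lit 1) (nat_lit 0x520018008c81))) 
(.lf (nat_lit 20036323) (dlOf (nat_lit 1) (nat_lit 0x6a80080480002019a00089db983)))) 
(.lf (nat_lit 6576777699) (dlOf (nat_lit 1) (nat_lit 0x800400020008144e82)))))) (.nd (nat_lit 29) 
(.nd (nat_lit 27) (.nd (nat_lit 7) 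
(.lf (nat_lit 4362706979) (dlOf (nat_lit 1) (nat_lit 0x4004000200080e0b82))) 
(.lf (nat_lit 1140957347) (dlOf (nat_lit 2) (nat_lit 0x680340003804001400200120008031382)))) 
(.nd (nat_lit 6) 
(.lf (nat_lit 2348916771) (dlOf (nat_lit 2) (nat_lit 0x4054000c02800593828020480))) 
(.lf (nat_lit 5570143843) (dlOf (nat_lit 1) (nat_lit 0x380018053901))))) (.nd (nat_lit 8) 
(.nd (nat_lit 7) 
(.lf (nat_lit 1678352419) (dlOf (nat_lit 2) (nat_lit 0x17400b8000bc0800900080030002003c00081f0b83))) 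
(.lf (nat_lit 2754719395) (dlOf (nat_lit 1) (nat_lit 0x200180f7201)))) (.nd (nat_lit 27) 
(.lf (nat_lit 1677828387) (dlOf (nat_lit 2) (nat_lit 0x800a2001803a0001c028090500))) 
(.lf (nat_lit 3959529763) (dlOf (nat_lit 2) (nat_lit 0x3a00800007004004c002002c0008090502))))))) 
(.nd (nat_lit 21) (.nd (nat_lit 22) (.nd (nat_lit 6) (.nd (nat_lit 20) 
(.lf (nat_lit 25272355) (dlOf (nat_lit 2) (nat_lit 0x1e885c002b804000400200020008bf0902))) 
(.lf (nat_lit 26320931) (dlOf (nat_lit 3) (nat_lit 0x12a5a0001001001352d000070080020008003000200020008c30183)))) 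
(.lf (nat_lit 8502371) (dlOf (nat_lit 1) (nat_lit 0x38008005c002001e000851c083)))) (.nd (nat_lit 6) 
(.nd (nat_lit 19) (.lf (nat_lit 63021091) (dlOf (nat_lit 1) (nat_lit 0x3c800200ec00099c0182))) 
(.lf (nat_lit 13213731) (dlOf (nat_lit 1) (nat_lit 0x18008000c00200080008710b83)))) 
(.lf (nat_lit 47292515) (dlOf (nat_lit 1) (nat_lit 0x80080018002002a00093c0783))))) 
(.nd (nat_lit 25) (.nd (nat_lit 20) (.nd (nat_lit 24) 
(.lf (nat_lit 10592291) (dlOf (nat_lit 1) (nat_lit 0x10008001400200060008600483))) 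
(.lf (nat_lit 27369507) (dlOf (nat_lit 2) (nat_lit 0x2d4d800b830200020018cd0681)))) 
(.lf (nat_lit 28418083) (dlOf (nat_lit 2) (nat_lit 0x26430017180800600080014002000c0008d90683)))) 
(.nd (nat_lit 6) (.nd (nat_lit 7) 
(.lf (nat_lit 48865315) (dlOf (nat_lit 1) (nat_lit 0x260029440181))) 
(.lf (nat_lit 44146851) (dlOf (nat_lit 1) (nat_lit 0x200192d1381)))) 
(.lf (nat_lit 49916259) (dlOf (nat_lit 1) (nat_lit 0x200294c4e81))))))) (.nd (nat_lit 20) 
(.nd (nat_lit 7) (.nd (nat_lit 26) (.nd (nat_lit 6) (.nd (nat_lit 27) (.nd (nat_lit 21) 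
(.lf (nat_lit 4832206883) (dlOf (nat_lit 1) (nat_lit 0x100080004002008a0008110183))) 
(.lf (nat_lit 48603171) (dlOf (nat_lit 3) (nat_lit 0xd4860002a310002302002a521800114080018008000400200060009420183)))) 
(.nd (nat_lit 29) 
(.lf (nat_lit 3355811875) (dlOf (nat_lit 3) (nat_lit 0x8080000ca0400580400006102000c0008120501))) 
(.lf (nat_lit 671457315) (dlOf (nat_lit 3) (nat_lit 0x140250004b81000401280018c0800600080018002001000081a0503))))) 
(.nd (nat_lit 10) 
(.lf (nat_lit 1074110563) (dlOf (nat_lit 1) (nat_lit 0x80080004002000200080a1283))) 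
(.lf (nat_lit 19772515) (dlOf (nat_lit 1) (nat_lit 0x200289d9401))))) (.nd (nat_lit 27) 
(.nd (nat_lit 29) 
(.lf (nat_lit 4362444835) (dlOf (nat_lit 2) (nat_lit 0x2017000240a6000a0470014016800040200020008011400200400008080803))) 
(.lf (nat_lit 4899315747) (dlOf (nat_lit 2) (nat_lit 0x600c4009003a0004504001c0018100181)))) 
(.lf (nat_lit 201695267) (dlOf (nat_lit 2) (nat_lit 0x2f00c40005004000400200020008080802))))) 
(.nd (nat_lit 10) (.nd (nat_lit 19) 
(.lf (nat_lit 59091619) (dlOf (nat_lit 1) (nat_lit 0x400297e5601))) 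
(.lf (nat_lit 36547235) (dlOf (nat_lit 1) (nat_lit 0x10008001800200020009075603)))) 
(.lf (nat_lit 372387) (dlOf (nat_lit 1) (nat_lit 0x18008001000200020008007203))))) 
(.nd (nat_lit 19) (.nd (nat_lit 21) 
(.lf (nat_lit 9805859) (dlOf (nat_lit 2) (nat_lit 0xc9d310059e76803280000008a0c000c00200140008580182))) 
(.nd (nat_lit 22) (.lf (nat_lit 37068835) (dlOf (nat_lit 1) (nat_lit 0x400400020009090182))) 
(.lf (nat_lit 49651747) (dlOf (nat_lit 1) (nat_lit 0x400400020009480182))))) (.nd (nat_lit 23) 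
(.lf (nat_lit 2753404963) (dlOf (nat_lit 1) (nat_lit 0x400200020008090002))) 
(.lf (nat_lit 27107363) (dlOf (nat_lit 2) (nat_lit 0x9411d00058818ca0600))))))) (.nd (nat_lit 18) 
(.nd (nat_lit 6) (.nd (nat_lit 19) (.nd (nat_lit 8) (.nd (nat_lit 7) (.nd (nat_lit 9) 
(.lf (nat_lit 3489770531) (dlOf (nat_lit 1) (nat_lit 0x300028006081))) 
(.lf (nat_lit 4697728547) (dlOf (nat_lit 1) (nat_lit 0x20018093701)))) 
(.lf (nat_lit 1880205987) (dlOf (nat_lit 1) (nat_lit 0x200087a5601)))) (.nd (nat_lit 7) 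
(.nd (nat_lit 22) 
(.lf (nat_lit 805413155) (dlOf (nat_lit 2) (nat_lit 0x800a2001803a0001b028090500))) 
(.lf (nat_lit 3493962019) (dlOf (nat_lit 1) (nat_lit 0x200181b0501)))) 
(.lf (nat_lit 5637254051) (dlOf (nat_lit 2) (nat_lit 0x2d0010000e008003000800a400200240008055c83))))) 
(.nd (nat_lit 26) (.nd (nat_lit 7) (.nd (nat_lit 29) 
(.lf (nat_lit 1342808099) (dlOf (nat_lit 1) (nat_lit 0x80080004002000200080d0903))) 
(.lf (nat_lit 805937187) (dlOf (nat_lit 2) (nat_lit 0x17400b8000bc0800900080030002003c00081f0b83)))) 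
(.lf (nat_lit 1345956515) (dlOf (nat_lit 1) (nat_lit 0x160018e25601)))) (.nd (nat_lit 20) 
(.nd (nat_lit 29) 
(.lf (nat_lit 470392867) (dlOf (nat_lit 1) (nat_lit 0x80080004002000200080d0903))) 
(.lf (nat_lit 4228489251) (dlOf (nat_lit 1) (nat_lit 0x4004000200080e0b82)))) 
(.lf (nat_lit 4095320099) (dlOf (nat_lit 1) (nat_lit 0x28008001c00200060008090183)))))) 
(.nd (nat_lit 7) (.nd (nat_lit 27) (.nd (nat_lit 8) 
(.lf (nat_lit 1342808163) (dlOf (nat_lit 1) (nat_lit 0x4002000200080d1382))) (.nd (nat_lit 10) 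
(.lf (nat_lit 2416025955) (dlOf (nat_lit 1) (nat_lit 0xc0018015201))) 
(.lf (nat_lit 1409396067) (dlOf (nat_lit 1) (nat_lit 0x20028006a81))))) (.nd (nat_lit 10) 
(.nd (nat_lit 19) (.lf (nat_lit 471965795) (dlOf (nat_lit 1) (nat_lit 0x180018740481))) 
(.lf (nat_lit 1009360995) (dlOf (nat_lit 1) (nat_lit 0x360009120781)))) 
(.lf (nat_lit 469873763) (dlOf (nat_lit 1) (nat_lit 0x2a0028009401))))) (.nd (nat_lit 8) 
(.nd (nat_lit 9) (.nd (nat_lit 10) 
(.lf (nat_lit 3493961955) (dlOf (nat_lit 1) (nat_lit 0xcc00281b0481))) 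
(.lf (nat_lit 2080482531) (dlOf (nat_lit 1) (nat_lit 0x400400020008092e02)))) 
(.lf (nat_lit 3556879075) (dlOf (nat_lit 4) (nat_lit 0x4005c002002c001400e0008006000980180028008000c0000001f0700110030000e808003003800000040044004002600180d5982)))) 
(.nd (nat_lit 9) (.lf (nat_lit 469874147) (dlOf (nat_lit 1) (nat_lit 0x60004002c0018009b02))) 
(.lf (nat_lit 469873635) (dlOf (nat_lit 1) (nat_lit 0x380028009201))))))) (.nd (nat_lit 32) 
(.nd (nat_lit 26) (.nd (nat_lit 21) (.nd (nat_lit 7) (.nd (nat_lit 22) 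
(.lf (nat_lit 1342545955) (dlOf (nat_lit 7) (nat_lit 0xc23100010bc8000a41000308c4000500400c848e000270200021a3000130100051130003068c0004a08000445e009a22600250d18000001803a8008040000200e40008050c03))) 
(.lf (nat_lit 1346740259) (dlOf (nat_lit 2) (nat_lit 0x8c12c0038075001f0398008007c000841000b000400020009000182)))) 
(.lf (nat_lit 3490032035) (dlOf (nat_lit 1) (nat_lit 0x20018004e81)))) (.nd (nat_lit 6) 
(.lf (nat_lit 1881514019) (dlOf (nat_lit 1) (nat_lit 0x60008f40181))) (.nd (nat_lit 29) 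
(.lf (nat_lit 3492126819) (dlOf (nat_lit 2) (nat_lit 0x300e40002602000200180a1381))) 
(.lf (nat_lit 1881514083) (dlOf (nat_lit 1) (nat_lit 0x400400020008f40902)))))) (.nd (nat_lit 11) 
(.nd (nat_lit 29) (.nd (nat_lit 30) 
(.lf (nat_lit 470130723) (dlOf (nat_lit 7) (nat_lit 0xc23100010c10000a41000308c4000500400c848e000270200021b300013010005113000306cc0004a08000445e009a22600250d98000001803a8008040000200e40008050c03))) 
(.lf (nat_lit 1543872547) (dlOf (nat_lit 3) (nat_lit 0x14025000208100040128000180800600080018002001000081a0503)))) 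
(.lf (nat_lit 4228227107) (dlOf (nat_lit 2) (nat_lit 0x500fc0002204002800400100008080882)))) 
(.nd (nat_lit 6) (.nd (nat_lit 20) 
(.lf (nat_lit 472754851) (dlOf (nat_lit 1) (nat_lit 0x20008aa5601))) 
(.lf (nat_lit 473803427) (dlOf (nat_lit 1) (nat_lit 0x1c00400060008fa5602)))) 
(.lf (nat_lit 2483402851) (dlOf (nat_lit 1) (nat_lit 0x200080fa801)))))) (.nd (nat_lit 26) 
(.nd (nat_lit 7) (.nd (nat_lit 27) (.nd (nat_lit 30) 
(.lf (nat_lit 4563771427) (dlOf (nat_lit 3) (nat_lit 0x1405c000e01e000088200010168000280800080080024002000c00080d0183))) 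
(.lf (nat_lit 5637513251) (dlOf (nat_lit 2) (nat_lit 0x9202200022818100180)))) (.nd (nat_lit 29) 
(.lf (nat_lit 4697989155) (dlOf (nat_lit 3) (nat_lit 0x1405c000e01e000088200010168000280800080080024002000c00080d0183))) 
(.nd (nat_lit 30) 
(.lf (nat_lit 5234860067) (dlOf (nat_lit 4) (nat_lit 0x600d000100640008c0800f0038000801b004300d001d804800f000e00020060002286000100d00010c080010008000400200120008100183))) 
(.lf (nat_lit 6308601891) (dlOf (nat_lit 2) (nat_lit 0x300d0007cc080068008008c00200040008140483)))))) 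
(.nd (nat_lit 6) (.nd (nat_lit 20) 
(.lf (nat_lit 5772255395) (dlOf (nat_lit 1) (nat_lit 0x20018090581))) 
(.lf (nat_lit 5773303971) (dlOf (nat_lit 1) (nat_lit 0x8004000200080c1382)))) 
(.lf (nat_lit 5773304035) (dlOf (nat_lit 1) (nat_lit 0x400180c1b01))))) (.nd (nat_lit 6) 
(.nd (nat_lit 29) 
(.lf (nat_lit 5704622115) (dlOf (nat_lit 2) (nat_lit 0x300d0007c8080068008008c00200040008140483))) 
(.lf (nat_lit 6241493027) (dlOf (nat_lit 2) (nat_lit 0x9202200022818100180)))) (.nd (nat_lit 9) 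
(.lf (nat_lit 5838839907) (dlOf (nat_lit 1) (nat_lit 0x60002002200081c1382))) 
(.lf (nat_lit 6375712355) (dlOf (nat_lit 1) (nat_lit 0x360028003901))))))))))))

end

end Pool.Agent.Lib.MP_5854e1_co.Cz

namespace Pool.Agent.Lib.MP_5854e1_co.Cz

noncomputable section

noncomputable def tz149 : DT := (.nd (nat_lit 18) (.nd (nat_lit 15) (.nd (nat_lit 13) 
(.nd (nat_lit 28) (.nd (nat_lit 16) (.nd (nat_lit 7) (.nd (nat_lit 22) (.nd (nat_lit 26) 
(.nd (nat_lit 6) (.nd (nat_lit 19) (.nd (nat_lit 9) 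
(.lf (nat_lit 10616867) (dlOf (nat_lit 4) (nat_lit 0x543c00022f0200221cc0011301000327f0007c80800c80080004002004e0008600483))) 
(.lf (nat_lit 3892445731) (dlOf (nat_lit 1) (nat_lit 0x20018118701)))) (.nd (nat_lit 20) 
(.lf (nat_lit 11141155) (dlOf (nat_lit 2) (nat_lit 0xe1a40001e018660500))) 
(.lf (nat_lit 45744163) (dlOf (nat_lit 5) (nat_lit 0x833e800196500008c080018cfa000259400022820041e1c0003dbc4010aba200532420042457002122900108ce4008265b0041328802099100104b0c00843700041118002106240008438009ccf80036189001b0200000f8180140008000800200020009360183))))) 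
(.nd (nat_lit 10) (.lf (nat_lit 52559971) (dlOf (nat_lit 1) (nat_lit 0x100019550901))) 
(.lf (nat_lit 8524899) (dlOf (nat_lit 1) (nat_lit 0x60008519401))))) (.nd (nat_lit 19) 
(.nd (nat_lit 30) (.nd (nat_lit 20) 
(.lf (nat_lit 604110883) (dlOf (nat_lit 1) (nat_lit 0x2800800ac00200280008020603))) 
(.lf (nat_lit 68288547) (dlOf (nat_lit 1) (nat_lit 0x40028500701)))) (.nd (nat_lit 32) 
(.lf (nat_lit 1140981795) (dlOf (nat_lit 1) (nat_lit 0x680080054002001a0008040183))) 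
(.lf (nat_lit 5435949091) (dlOf (nat_lit 1) (nat_lit 0x38008000400200020008050883))))) 
(.nd (nat_lit 20) 
(.lf (nat_lit 4362731555) (dlOf (nat_lit 2) (nat_lit 0x405a0000002000c00080e0b81))) 
(.lf (nat_lit 2755264547) (dlOf (nat_lit 2) (nat_lit 0x1808c001800700013828140c00)))))) 
(.nd (nat_lit 24) (.nd (nat_lit 19) (.nd (nat_lit 8) 
(.lf (nat_lit 47317027) (dlOf (nat_lit 4) (nat_lit 0x115e680092ed80004e08002d79a0014bb6000130200035e680012ed80004a080004004000400093d0882))) 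
(.lf (nat_lit 2755789091) (dlOf (nat_lit 1) (nat_lit 0x8008000c002000200081b0503)))) 
(.nd (nat_lit 6) (.nd (nat_lit 25) 
(.lf (nat_lit 15335459) (dlOf (nat_lit 1) (nat_lit 0x4004000200087e0602))) 
(.lf (nat_lit 48889891) (dlOf (nat_lit 2) (nat_lit 0x62ca0000a204000800400060019440182)))) 
(.lf (nat_lit 4849763) (dlOf (nat_lit 1) (nat_lit 0xa00182d0d01))))) (.nd (nat_lit 20) 
(.nd (nat_lit 10) (.nd (nat_lit 23) 
(.lf (nat_lit 21102627) (dlOf (nat_lit 5) (nat_lit 0xf8538000a404005c29c0003402000214e000190100010000000a80801f000800d000200080008a10583))) 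
(.lf (nat_lit 63045667) (dlOf (nat_lit 1) (nat_lit 0xc002000200099c0182)))) 
(.lf (nat_lit 57279523) (dlOf (nat_lit 1) (nat_lit 0x1a0019792881)))) (.nd (nat_lit 6) 
(.lf (nat_lit 22151203) (dlOf (nat_lit 1) (nat_lit 0x80028aa0c01))) 
(.lf (nat_lit 24248419) (dlOf (nat_lit 2) (nat_lit 0x568a00000018b91380))))))) (.nd (nat_lit 6) 
(.nd (nat_lit 10) (.nd (nat_lit 8) (.nd (nat_lit 11) 
(.lf (nat_lit 60424355) (dlOf (nat_lit 1) (nat_lit 0x60019852b81))) 
(.lf (nat_lit 9046179) (dlOf (nat_lit 1) (nat_lit 0x18008000c002000a0008514883)))) 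
(.lf (nat_lit 3221363619) (dlOf (nat_lit 2) (nat_lit 0x10230003c40800f0008000c0020064000811bd03)))) 
(.nd (nat_lit 8) (.nd (nat_lit 20) 
(.lf (nat_lit 42075299) (dlOf (nat_lit 1) (nat_lit 0xa0019242c01))) 
(.lf (nat_lit 32638115) (dlOf (nat_lit 1) (nat_lit 0x1400200020008ef2c02)))) 
(.lf (nat_lit 3221364131) (dlOf (nat_lit 5) (nat_lit 0x1408c00077020006046001501c0001d810004009c0005a04002808a00000020046002811cb01))))) 
(.nd (nat_lit 27) (.nd (nat_lit 9) (.nd (nat_lit 10) 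
(.lf (nat_lit 1610744291) (dlOf (nat_lit 2) (nat_lit 0x605200026818091300))) 
(.lf (nat_lit 3221360099) (dlOf (nat_lit 2) (nat_lit 0x281180007a0400cc004004c0008116e02)))) 
(.lf (nat_lit 5972820963) (dlOf (nat_lit 1) (nat_lit 0x400400020008142882)))) (.nd (nat_lit 8) 
(.nd (nat_lit 10) (.lf (nat_lit 738328803) (dlOf (nat_lit 2) (nat_lit 0x34021000aa018090a80))) 
(.lf (nat_lit 3355579619) (dlOf (nat_lit 1) (nat_lit 0x1400080a9501)))) 
(.lf (nat_lit 2818704355) (dlOf (nat_lit 1) (nat_lit 0x4c00280d2881))))))) (.nd (nat_lit 21) 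
(.nd (nat_lit 6) (.nd (nat_lit 26) (.nd (nat_lit 7) (.nd (nat_lit 19) 
(.lf (nat_lit 4832034851) (dlOf (nat_lit 1) (nat_lit 0x800400060008090182))) 
(.lf (nat_lit 60489763) (dlOf (nat_lit 1) (nat_lit 0x400400020009880182)))) 
(.lf (nat_lit 46336931) (dlOf (nat_lit 1) (nat_lit 0x10008000800200020009385c83)))) 
(.nd (nat_lit 8) (.nd (nat_lit 9) 
(.lf (nat_lit 4496490531) (dlOf (nat_lit 1) (nat_lit 0x20018090181))) 
(.lf (nat_lit 2753233443) (dlOf (nat_lit 2) (nat_lit 0x6c1fd000a1818090d80)))) 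
(.lf (nat_lit 2755854627) (dlOf (nat_lit 1) (nat_lit 0x200181b0501))))) (.nd (nat_lit 7) 
(.nd (nat_lit 8) (.lf (nat_lit 202851) (dlOf (nat_lit 1) (nat_lit 0x12a001800a801))) 
(.nd (nat_lit 9) (.lf (nat_lit 1812136291) (dlOf (nat_lit 2) (nat_lit 0x80220024f818154f00))) 
(.lf (nat_lit 2281902947) (dlOf (nat_lit 1) (nat_lit 0x200180a8f81))))) (.nd (nat_lit 8) 
(.nd (nat_lit 9) (.lf (nat_lit 6107103459) (dlOf (nat_lit 1) (nat_lit 0x800400040008090a82))) 
(.lf (nat_lit 2818773731) (dlOf (nat_lit 1) (nat_lit 0x20018128c81)))) 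
(.lf (nat_lit 6107105763) (dlOf (nat_lit 1) (nat_lit 0x180080020002000c0008094e83)))))) 
(.nd (nat_lit 19) (.nd (nat_lit 22) (.nd (nat_lit 6) (.nd (nat_lit 9) 
(.lf (nat_lit 2753757347) (dlOf (nat_lit 2) (nat_lit 0x41d300099018090200))) 
(.lf (nat_lit 36899491) (dlOf (nat_lit 1) (nat_lit 0x400200f60009075602)))) 
(.lf (nat_lit 62062691) (dlOf (nat_lit 1) (nat_lit 0x300080020002000a0009940d83)))) 
(.nd (nat_lit 6) (.nd (nat_lit 25) 
(.lf (nat_lit 23265315) (dlOf (nat_lit 1) (nat_lit 0x1a0018b70881))) 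
(.lf (nat_lit 56819747) (dlOf (nat_lit 1) (nat_lit 0x400400020009770182)))) 
(.lf (nat_lit 14876771) (dlOf (nat_lit 1) (nat_lit 0x20028790d01))))) (.nd (nat_lit 8) 
(.nd (nat_lit 9) (.nd (nat_lit 22) 
(.lf (nat_lit 45809699) (dlOf (nat_lit 2) (nat_lit 0x17831200900400001f029360180))) 
(.lf (nat_lit 16449571) (dlOf (nat_lit 1) (nat_lit 0x600188a0581)))) (.nd (nat_lit 7) 
(.lf (nat_lit 8065571) (dlOf (nat_lit 1) (nat_lit 0x20008000400200020008518883))) 
(.lf (nat_lit 32180899) (dlOf (nat_lit 1) (nat_lit 0x8008000400200020008ef5603))))) 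
(.nd (nat_lit 6) (.lf (nat_lit 20647331) (dlOf (nat_lit 1) (nat_lit 0x200289d6d01))) 
(.nd (nat_lit 9) (.lf (nat_lit 32180579) (dlOf (nat_lit 1) (nat_lit 0x400400020008ef4e82))) 
(.lf (nat_lit 8066915) (dlOf (nat_lit 1) (nat_lit 0x2002851a301))))))))) (.nd (nat_lit 6) 
(.nd (nat_lit 27) (.nd (nat_lit 7) (.nd (nat_lit 16) (.nd (nat_lit 19) (.nd (nat_lit 20) 
(.lf (nat_lit 1879179299) (dlOf (nat_lit 1) (nat_lit 0x400200020008050c02))) 
(.lf (nat_lit 1343356963) (dlOf (nat_lit 1) (nat_lit 0x1140018200681)))) (.nd (nat_lit 20) 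
(.lf (nat_lit 1344929827) (dlOf (nat_lit 4) (nat_lit 0x8c29a00da08d004104600009c1801285340004c04001011a0001202002600189a0181))) 
(.lf (nat_lit 3493462051) (dlOf (nat_lit 2) (nat_lit 0x1808c001800700013828140c00))))) 
(.nd (nat_lit 9) (.nd (nat_lit 19) 
(.lf (nat_lit 5704450083) (dlOf (nat_lit 17) (nat_lit 0x660180002781006b00c000138081e400600008e0400440360d34018047300a8006003819b8010000460a0c38018029900a830e80200008a0c06cc056044e018001300180010c1803600600008404002c0300003b020b4e01802e700a82d90020000700c00b8030000350200fe018000198100de00c80009c0801b00640004c0400940320002302036c0180000901034000c00000008036000802bc00200760008080183))) 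
(.lf (nat_lit 3557490723) (dlOf (nat_lit 1) (nat_lit 0x40008220681)))) 
(.lf (nat_lit 3491430947) (dlOf (nat_lit 1) (nat_lit 0x40028090d81))))) (.nd (nat_lit 10) 
(.nd (nat_lit 8) (.nd (nat_lit 9) 
(.lf (nat_lit 5637275811) (dlOf (nat_lit 1) (nat_lit 0x4004000200080d0582))) 
(.lf (nat_lit 1345456803) (dlOf (nat_lit 1) (nat_lit 0xc00400020008c35602)))) (.nd (nat_lit 9) 
(.nd (nat_lit 19) (.lf (nat_lit 4563536291) (dlOf (nat_lit 1) (nat_lit 0x13c0008094e81))) 
(.lf (nat_lit 1345980835) (dlOf (nat_lit 1) (nat_lit 0x1c00400040008e24e82)))) 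
(.lf (nat_lit 805444515) (dlOf (nat_lit 1) (nat_lit 0x6002811bd01))))) (.nd (nat_lit 11) 
(.lf (nat_lit 5637342627) (dlOf (nat_lit 1) (nat_lit 0x88004000a00180d3602))) (.nd (nat_lit 12) 
(.lf (nat_lit 1342311843) (dlOf (nat_lit 1) (nat_lit 0x20018006d01))) 
(.lf (nat_lit 805445027) (dlOf (nat_lit 6) (nat_lit 0x120560003601001802b0005004c000cc08007c0ac000650200080560003001000e02b0001004c000000801040040002001811cb02))))))) 
(.nd (nat_lit 30) (.nd (nat_lit 19) (.nd (nat_lit 7) (.nd (nat_lit 32) 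
(.lf (nat_lit 1006764067) (dlOf (nat_lit 1) (nat_lit 0x400200020008050c02))) 
(.lf (nat_lit 5301731363) (dlOf (nat_lit 1) (nat_lit 0x38008000400200020008050883)))) 
(.lf (nat_lit 474088611) (dlOf (nat_lit 1) (nat_lit 0x180004001e0009082c02)))) (.nd (nat_lit 16) 
(.nd (nat_lit 21) 
(.lf (nat_lit 3154772003) (dlOf (nat_lit 1) (nat_lit 0x78008005400200160008320d83))) 
(.lf (nat_lit 472514595) (dlOf (nat_lit 1) (nat_lit 0x8008000c002001200089b0703)))) 
(.lf (nat_lit 472580131) (dlOf (nat_lit 3) (nat_lit 0x300fa007407c0001382001003e000098080008008018000200a800089c0183))))) 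
(.nd (nat_lit 26) (.nd (nat_lit 16) (.nd (nat_lit 29) 
(.lf (nat_lit 1476526115) (dlOf (nat_lit 2) (nat_lit 0x80780000802000c0008020601))) 
(.lf (nat_lit 2013397027) (dlOf (nat_lit 1) (nat_lit 0x680080054002001a0008040183)))) 
(.lf (nat_lit 6308429859) (dlOf (nat_lit 17) (nat_lit 0x660180002781006b00c000138081e400600008e0400440360d34018047300a8006003819b8010000460a0c38018029900a830e80200008a0c06cc056044e018001300280010c1803600600008404002c0300003b020b4e01802e700a82d90020000700c00b8030000350200fe018000198100de00c80009c0801b00640004c0400940320002302036c0180000901034000c00000008036000802bc00200760008080183)))) 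
(.nd (nat_lit 7) 
(.lf (nat_lit 4228513827) (dlOf (nat_lit 2) (nat_lit 0x40580000002000c00080e0b81))) 
(.lf (nat_lit 2080506275) (dlOf (nat_lit 1) (nat_lit 0x1580008091001))))))) (.nd (nat_lit 26) 
(.nd (nat_lit 10) (.nd (nat_lit 7) (.nd (nat_lit 16) (.nd (nat_lit 19) 
(.lf (nat_lit 1346502755) (dlOf (nat_lit 1) (nat_lit 0x20028f71981))) 
(.lf (nat_lit 1343881315) (dlOf (nat_lit 1) (nat_lit 0x8008000400200400008370483)))) 
(.nd (nat_lit 20) (.lf (nat_lit 1881342051) (dlOf (nat_lit 1) (nat_lit 0x400200020008ea0d82))) 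
(.lf (nat_lit 1880293475) (dlOf (nat_lit 1) (nat_lit 0x100028811981))))) (.nd (nat_lit 27) 
(.lf (nat_lit 268634595) (dlOf (nat_lit 1) (nat_lit 0x100080004002000200080e4e83))) 
(.lf (nat_lit 3624077795) (dlOf (nat_lit 1) (nat_lit 0x160028144e81))))) (.nd (nat_lit 7) 
(.nd (nat_lit 8) (.nd (nat_lit 9) 
(.lf (nat_lit 1342315619) (dlOf (nat_lit 1) (nat_lit 0x4001800c081))) 
(.lf (nat_lit 2013464163) (dlOf (nat_lit 4) (nat_lit 0x3004c0004702002c026000230100350130001140800680080014002000c0008093903)))) 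
(.lf (nat_lit 805506403) (dlOf (nat_lit 1) (nat_lit 0x400200020008116a82)))) (.nd (nat_lit 8) 
(.lf (nat_lit 5637342435) (dlOf (nat_lit 1) (nat_lit 0x4002007200080d2e02))) 
(.lf (nat_lit 805440995) (dlOf (nat_lit 1) (nat_lit 0xe8008006800200440008116e03)))))) 
(.nd (nat_lit 7) (.nd (nat_lit 8) (.nd (nat_lit 16) (.nd (nat_lit 19) 
(.lf (nat_lit 6241255523) (dlOf (nat_lit 1) (nat_lit 0x4004000200080d0102))) 
(.lf (nat_lit 1409941603) (dlOf (nat_lit 2) (nat_lit 0x3607400270358000981000900080094002001800080a1383)))) 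
(.lf (nat_lit 472580195) (dlOf (nat_lit 4) (nat_lit 0x6e03a8000c808030850c00a427200c40cd002203a803681cc000581401d028600e413b007909c803c0334008819601b207500b30398000a83802700080290002004400089c0903)))) 
(.nd (nat_lit 10) 
(.lf (nat_lit 4228055395) (dlOf (nat_lit 1) (nat_lit 0x480080088002002e0008014f03))) 
(.nd (nat_lit 16) (.lf (nat_lit 1409420643) (dlOf (nat_lit 1) (nat_lit 0x16000200d80008006a82))) 
(.lf (nat_lit 1543703907) (dlOf (nat_lit 1) (nat_lit 0x1680080188002003c0008146a83)))))) 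
(.nd (nat_lit 8) (.nd (nat_lit 9) 
(.lf (nat_lit 3556972771) (dlOf (nat_lit 2) (nat_lit 0x50114014b604004c0040010000812a882))) 
(.lf (nat_lit 3556903651) (dlOf (nat_lit 1) (nat_lit 0x200280d5981)))) (.nd (nat_lit 16) 
(.nd (nat_lit 31) (.lf (nat_lit 6241257955) (dlOf (nat_lit 1) (nat_lit 0x8004000200080d4e82))) 
(.lf (nat_lit 4093774307) (dlOf (nat_lit 1) (nat_lit 0x400400020008004e82)))) 
(.lf (nat_lit 4630710755) (dlOf (nat_lit 1) (nat_lit 0x800400020008094e82))))))))) 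
(.nd (nat_lit 16) (.nd (nat_lit 21) (.nd (nat_lit 6) (.nd (nat_lit 26) (.nd (nat_lit 7) 
(.nd (nat_lit 19) (.nd (nat_lit 20) 
(.lf (nat_lit 16916515) (dlOf (nat_lit 1) (nat_lit 0x4002000200088e0002))) (.nd (nat_lit 22) 
(.nd (nat_lit 28) (.lf (nat_lit 1187875) (dlOf (nat_lit 1) (nat_lit 0x260018080501))) 
(.lf (nat_lit 1343365155) (dlOf (nat_lit 1) (nat_lit 0x400080060002004e0008210683)))) 
(.lf (nat_lit 47325219) (dlOf (nat_lit 3) (nat_lit 0x72f34003d76c0002704000cbcd00065db0000981000400080030002001200093d0883))))) 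
(.nd (nat_lit 20) 
(.lf (nat_lit 3221889059) (dlOf (nat_lit 1) (nat_lit 0x1c800800c8002001400081b0483))) 
(.lf (nat_lit 10100771) (dlOf (nat_lit 1) (nat_lit 0x200285b0481))))) (.nd (nat_lit 10) 
(.nd (nat_lit 9) (.lf (nat_lit 4563544483) (dlOf (nat_lit 1) (nat_lit 0x1c0028094e81))) 
(.lf (nat_lit 46279587) (dlOf (nat_lit 1) (nat_lit 0x100029385c81)))) (.nd (nat_lit 11) 
(.lf (nat_lit 5637285283) (dlOf (nat_lit 1) (nat_lit 0x4c00280d3601))) 
(.lf (nat_lit 3221372323) (dlOf (nat_lit 3) (nat_lit 0x6040000701c00090058000ec0c00ec05e000402e002800a0001c418007000800480020072000811cb03)))))) 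
(.nd (nat_lit 19) (.nd (nat_lit 9) (.nd (nat_lit 28) 
(.lf (nat_lit 2214731811) (dlOf (nat_lit 5) (nat_lit 0x3005c000bc04002802e0005d02000c0170002d81000600b8001680800200080014002000e0008080503))) 
(.lf (nat_lit 5167521827) (dlOf (nat_lit 2) (nat_lit 0x3602900022818080180)))) (.nd (nat_lit 8) 
(.lf (nat_lit 1677867555) (dlOf (nat_lit 1) (nat_lit 0x880080054002000c000811b283))) 
(.lf (nat_lit 738339619) (dlOf (nat_lit 1) (nat_lit 0xc00200020008095c02))))) (.nd (nat_lit 28) 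
(.nd (nat_lit 27) 
(.lf (nat_lit 4362739747) (dlOf (nat_lit 2) (nat_lit 0x3013c0005e040008004001400080e0b82))) 
(.lf (nat_lit 3960086563) (dlOf (nat_lit 1) (nat_lit 0x1c800800c8002001400081b0483)))) 
(.nd (nat_lit 30) 
(.lf (nat_lit 3154780195) (dlOf (nat_lit 3) (nat_lit 0x1e016000b28100050238002f40801a8008006800201320008320d83))) 
(.lf (nat_lit 4228522019) (dlOf (nat_lit 2) (nat_lit 0x301200005e040008004001400080e0b82))))))) 
(.nd (nat_lit 10) (.nd (nat_lit 19) (.nd (nat_lit 22) (.nd (nat_lit 8) 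
(.lf (nat_lit 2952929379) (dlOf (nat_lit 1) (nat_lit 0x49c00202ee0008030d02))) 
(.lf (nat_lit 1946296675) (dlOf (nat_lit 1) (nat_lit 0x400200020008014f02)))) (.nd (nat_lit 28) 
(.lf (nat_lit 4333667) (dlOf (nat_lit 2) (nat_lit 0x97ee00bc80200040028290281))) 
(.lf (nat_lit 1346510947) (dlOf (nat_lit 1) (nat_lit 0x800400040008f80d82))))) (.nd (nat_lit 7) 
(.nd (nat_lit 20) 
(.lf (nat_lit 537534563) (dlOf (nat_lit 2) (nat_lit 0x1c02c0000800800080080028002001400080a1283))) 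
(.lf (nat_lit 60432483) (dlOf (nat_lit 2) (nat_lit 0x32968000f804001000200020009860d82)))) 
(.lf (nat_lit 30023907) (dlOf (nat_lit 1) (nat_lit 0x400400020008e30582))))) (.nd (nat_lit 11) 
(.nd (nat_lit 8) (.nd (nat_lit 26) 
(.lf (nat_lit 402793699) (dlOf (nat_lit 1) (nat_lit 0x400400020008092e02))) 
(.lf (nat_lit 2080515299) (dlOf (nat_lit 1) (nat_lit 0x800400020008092e02)))) 
(.lf (nat_lit 8533475) (dlOf (nat_lit 1) (nat_lit 0x60008519b01)))) (.nd (nat_lit 7) 
(.nd (nat_lit 12) (.lf (nat_lit 6576811363) (dlOf (nat_lit 1) (nat_lit 0x60018146a81))) 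
(.lf (nat_lit 3221372259) (dlOf (nat_lit 2) (nat_lit 0x1800b0019f008014000801100020032000811c903)))) 
(.lf (nat_lit 3221368291) (dlOf (nat_lit 1) (nat_lit 0xb000200100008116e02))))))) (.nd (nat_lit 20) 
(.nd (nat_lit 6) (.nd (nat_lit 28) (.nd (nat_lit 7) (.nd (nat_lit 26) 
(.lf (nat_lit 2760739) (dlOf (nat_lit 1) (nat_lit 0x4002000200081b0b02))) 
(.lf (nat_lit 2754224163) (dlOf (nat_lit 3) (nat_lit 0x1421c000ab81003210e000548080038008012c002000600080d0903)))) 
(.nd (nat_lit 9) 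
(.lf (nat_lit 48374947) (dlOf (nat_lit 2) (nat_lit 0x22901800147410002f829402c00))) 
(.lf (nat_lit 36317859) (dlOf (nat_lit 1) (nat_lit 0x400200a80009075602))))) (.nd (nat_lit 26) 
(.nd (nat_lit 31) 
(.lf (nat_lit 1344938019) (dlOf (nat_lit 4) (nat_lit 0x28c0fa012c07c0001382008303e803e01f00004c08001c0fa0001202000e00289a0181))) 
(.lf (nat_lit 3492421667) (dlOf (nat_lit 3) (nat_lit 0x14207000ae01003210380055c080038008012c002000600080d0903)))) 
(.nd (nat_lit 10) 
(.lf (nat_lit 472522787) (dlOf (nat_lit 2) (nat_lit 0x3202f000026040010002000e00089b0702))) 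
(.lf (nat_lit 6377579555) (dlOf (nat_lit 1) (nat_lit 0x8600180e2881)))))) (.nd (nat_lit 19) 
(.nd (nat_lit 7) (.nd (nat_lit 22) 
(.lf (nat_lit 69345379) (dlOf (nat_lit 1) (nat_lit 0x400400020008940902))) 
(.lf (nat_lit 6430819) (dlOf (nat_lit 1) (nat_lit 0x200008420481)))) 
(.lf (nat_lit 44179683) (dlOf (nat_lit 1) (nat_lit 0x1800292d1b01)))) (.nd (nat_lit 9) 
(.lf (nat_lit 1344938083) (dlOf (nat_lit 3) (nat_lit 0x40e60002d02000407500010398000ac1000a00080060002001000089a0903))) 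
(.lf (nat_lit 53093987) (dlOf (nat_lit 1) (nat_lit 0x20008000c00200060009573903)))))) 
(.nd (nat_lit 19) (.nd (nat_lit 6) (.nd (nat_lit 7) 
(.lf (nat_lit 15867939) (dlOf (nat_lit 1) (nat_lit 0x10008001400200020008840683))) (.nd (nat_lit 8) 
(.lf (nat_lit 1345464995) (dlOf (nat_lit 1) (nat_lit 0x20008c35601))) 
(.lf (nat_lit 20067747) (dlOf (nat_lit 1) (nat_lit 0xa00189d9901))))) (.nd (nat_lit 7) 
(.nd (nat_lit 8) (.lf (nat_lit 24256611) (dlOf (nat_lit 1) (nat_lit 0x8008000400200020008b91383))) 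
(.lf (nat_lit 3285347) (dlOf (nat_lit 1) (nat_lit 0x18008000c00200060008200703)))) 
(.lf (nat_lit 3285219) (dlOf (nat_lit 2) (nat_lit 0xecb400166740008e04002c0008200481))))) 
(.nd (nat_lit 25) (.nd (nat_lit 8) (.nd (nat_lit 26) 
(.lf (nat_lit 3493470243) (dlOf (nat_lit 2) (nat_lit 0x1c039000f01c0006801c0004e0c007000200060008140c02))) 
(.lf (nat_lit 2755272739) (dlOf (nat_lit 2) (nat_lit 0x1c039000f01c0006801c0004e0c007000200060008140c02)))) 
(.lf (nat_lit 8008995) (dlOf (nat_lit 1) (nat_lit 0x2e4002015e0008519782)))) (.nd (nat_lit 6) 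
(.nd (nat_lit 23) 
(.lf (nat_lit 54140963) (dlOf (nat_lit 1) (nat_lit 0x28008000400200020009630183))) 
(.lf (nat_lit 45752355) (dlOf (nat_lit 2) (nat_lit 0x367dc00db2740003e0400600029360181)))) 
(.lf (nat_lit 45752419) (dlOf (nat_lit 1) (nat_lit 0x400200020009360902)))))))) (.nd (nat_lit 19) 
(.nd (nat_lit 31) (.nd (nat_lit 21) (.nd (nat_lit 26) (.nd (nat_lit 6) (.nd (nat_lit 8) 
(.lf (nat_lit 63119395) (dlOf (nat_lit 1) (nat_lit 0x4004000200099e0182))) 
(.lf (nat_lit 8599843) (dlOf (nat_lit 1) (nat_lit 0x180080010002000a000851ab83)))) 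
(.lf (nat_lit 4697826915) (dlOf (nat_lit 1) (nat_lit 0x100028093901)))) (.nd (nat_lit 10) 
(.nd (nat_lit 27) 
(.lf (nat_lit 604184611) (dlOf (nat_lit 3) (nat_lit 0x206039033a01b00028010005811400000040010002002e0008080602))) 
(.lf (nat_lit 4496498723) (dlOf (nat_lit 3) (nat_lit 0x500c8000980802880940001404009000400960008090182)))) 
(.lf (nat_lit 1409494051) (dlOf (nat_lit 1) (nat_lit 0x20028006081))))) (.nd (nat_lit 6) 
(.nd (nat_lit 7) (.nd (nat_lit 23) 
(.lf (nat_lit 52633635) (dlOf (nat_lit 2) (nat_lit 0xb7520000000800a80080078002004e0009560703))) 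
(.lf (nat_lit 44245027) (dlOf (nat_lit 5) (nat_lit 0x20062f010630a0001581006218bc0304c28000550401aa62f00e630a0000441000218bc0018c280001004003600192e0181)))) 
(.nd (nat_lit 9) 
(.lf (nat_lit 1881350307) (dlOf (nat_lit 1) (nat_lit 0x8008000400200020008eb1383))) 
(.lf (nat_lit 53684899) (dlOf (nat_lit 1) (nat_lit 0x80080004002000200095f5603))))) 
(.nd (nat_lit 20) (.nd (nat_lit 22) 
(.lf (nat_lit 44245091) (dlOf (nat_lit 1) (nat_lit 0x8002000400092e0782))) 
(.lf (nat_lit 14884963) (dlOf (nat_lit 1) (nat_lit 0x400400020018790d02)))) 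
(.lf (nat_lit 62070883) (dlOf (nat_lit 1) (nat_lit 0x20029940d81)))))) (.nd (nat_lit 11) 
(.nd (nat_lit 8) (.nd (nat_lit 28) (.nd (nat_lit 7) 
(.lf (nat_lit 3288539171) (dlOf (nat_lit 1) (nat_lit 0x20008001000200040008080883))) 
(.lf (nat_lit 2753765539) (dlOf (nat_lit 1) (nat_lit 0x400400020018090202)))) (.nd (nat_lit 9) 
(.lf (nat_lit 2952994851) (dlOf (nat_lit 20) (nat_lit 0x21004e00f40250074012003700840230038000201b00150020009800c01d0000000b71208c800404630018002d41005900100016804027c008013a003000598200570020030000c0016408009400800460030005882005f0000002a00803380000014e040014000000a102029002d00ce01500a480a40344040011e00a015100300918000001401c01800000009d02006a004003400180003410029001002bc0060000b0400220030000501003a002001a000c000100802b80080112003000028200ae0020056000c000080800040060000102009a02500740020037800c02b0000000000800540018080601))) 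
(.lf (nat_lit 3556979235) (dlOf (nat_lit 1) (nat_lit 0x20028128881))))) (.nd (nat_lit 6) 
(.lf (nat_lit 3494060323) (dlOf (nat_lit 1) (nat_lit 0x4002000200081b0502))) (.nd (nat_lit 12) 
(.lf (nat_lit 3825410403) (dlOf (nat_lit 2) (nat_lit 0xc014004c60200060008154f01))) 
(.lf (nat_lit 2818781539) (dlOf (nat_lit 1) (nat_lit 0x2e0018128381)))))) (.nd (nat_lit 6) 
(.nd (nat_lit 7) (.lf (nat_lit 6509768227) (dlOf (nat_lit 1) (nat_lit 0xe0018147181))) 
(.nd (nat_lit 10) 
(.lf (nat_lit 3221432739) (dlOf (nat_lit 2) (nat_lit 0x180000173402000c0018114e81))) 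
(.lf (nat_lit 3489873315) (dlOf (nat_lit 4) (nat_lit 0x607f000383f60007604000a1fc000388100090fe00000008002000800140020004000800cb03))))) 
(.nd (nat_lit 7) (.lf (nat_lit 2818781027) (dlOf (nat_lit 1) (nat_lit 0xc00400020008127782))) 
(.nd (nat_lit 10) (.lf (nat_lit 3624085987) (dlOf (nat_lit 1) (nat_lit 0x80028144e81))) 
(.lf (nat_lit 3624087011) (dlOf (nat_lit 1) (nat_lit 0x80028146e01)))))))) (.nd (nat_lit 21) 
(.nd (nat_lit 26) (.nd (nat_lit 22) (.nd (nat_lit 29) (.nd (nat_lit 20) 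
(.lf (nat_lit 134946851) (dlOf (nat_lit 1) (nat_lit 0x3c00080e0481))) 
(.lf (nat_lit 60497955) (dlOf (nat_lit 1) (nat_lit 0x20029880181)))) (.nd (nat_lit 28) 
(.lf (nat_lit 537600035) (dlOf (nat_lit 4) (nat_lit 0x6c0be0015802001605f000ab81002102f8005500800480080228002000400080d0903))) 
(.lf (nat_lit 1879777315) (dlOf (nat_lit 1) (nat_lit 0x400200020008370002))))) (.nd (nat_lit 23) 
(.lf (nat_lit 4923427) (dlOf (nat_lit 1) (nat_lit 0xc002000200082d0182))) 
(.lf (nat_lit 13312035) (dlOf (nat_lit 1) (nat_lit 0x400200020008710b82))))) (.nd (nat_lit 27) 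
(.nd (nat_lit 20) (.nd (nat_lit 31) 
(.lf (nat_lit 1410015267) (dlOf (nat_lit 4) (nat_lit 0x6c0be0015d02001605f000ae01002102f8005640800480080228002000400080d0903))) 
(.lf (nat_lit 3557498915) (dlOf (nat_lit 1) (nat_lit 0x1000400040008230782)))) 
(.lf (nat_lit 4095418403) (dlOf (nat_lit 4) (nat_lit 0x180e0000405e0001782000a03a0000b80800281d000028040010004000600180b0b82)))) 
(.nd (nat_lit 7) (.nd (nat_lit 28) 
(.lf (nat_lit 202055715) (dlOf (nat_lit 1) (nat_lit 0x3c00080e0481))) 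
(.lf (nat_lit 3154845731) (dlOf (nat_lit 1) (nat_lit 0x18008001000200080008350603)))) 
(.lf (nat_lit 6377119907) (dlOf (nat_lit 1) (nat_lit 0x2a00080004002000200080a2b83)))))) 
(.nd (nat_lit 20) (.nd (nat_lit 26) (.nd (nat_lit 6) (.nd (nat_lit 7) 
(.lf (nat_lit 3492487203) (dlOf (nat_lit 3) (nat_lit 0xc06d80057008017836c002ae040034004001e00180d0902))) 
(.lf (nat_lit 36381859) (dlOf (nat_lit 1) (nat_lit 0x8008000400200020009072c03)))) 
(.lf (nat_lit 32188771) (dlOf (nat_lit 1) (nat_lit 0x400400020008ef4e82)))) (.nd (nat_lit 27) 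
(.lf (nat_lit 2754289699) (dlOf (nat_lit 3) (nat_lit 0xc06680055c080178334002a4040034004001e00180d0902))) 
(.lf (nat_lit 472588323) (dlOf (nat_lit 3) (nat_lit 0x420270005411a00e808c0001383005304e003482300004c080050004000a00089c0182))))) 
(.nd (nat_lit 7) (.nd (nat_lit 23) 
(.lf (nat_lit 3874851) (dlOf (nat_lit 2) (nat_lit 0x1898e000470200260028240b81))) 
(.lf (nat_lit 45817891) (dlOf (nat_lit 6) (nat_lit 0x1273000092700008a0800249be0004302002e51f001728b800b937c0070312002e040000210500072728001040800706240007c04004800400380019360182)))) 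
(.nd (nat_lit 8) (.lf (nat_lit 41626275) (dlOf (nat_lit 1) (nat_lit 0x160029245601))) 
(.lf (nat_lit 54209443) (dlOf (nat_lit 1) (nat_lit 0x20029655c81)))))))))) (.nd (nat_lit 16) 
(.nd (nat_lit 30) (.nd (nat_lit 26) (.nd (nat_lit 7) (.nd (nat_lit 13) (.nd (nat_lit 21) 
(.nd (nat_lit 6) (.nd (nat_lit 19) (.nd (nat_lit 20) 
(.lf (nat_lit 2684518435) (dlOf (nat_lit 7) (nat_lit 0x2c00e00100000001c81000d003800500000006f04000e00e0003000000094100040038002000000021040004000000100100060070000700800f0008000c00200060008080503))) 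
(.lf (nat_lit 47349795) (dlOf (nat_lit 3) (nat_lit 0x12bcd000a5db00009c10002af34001576c0002604000a00293d0881)))) 
(.lf (nat_lit 134905891) (dlOf (nat_lit 2) (nat_lit 0x3400d000ae8180d0900)))) (.nd (nat_lit 8) 
(.lf (nat_lit 170083) (dlOf (nat_lit 2) (nat_lit 0x6a7e0009a01800a800))) 
(.lf (nat_lit 166243) (dlOf (nat_lit 1) (nat_lit 0x200018004e81))))) (.nd (nat_lit 8) 
(.nd (nat_lit 22) (.lf (nat_lit 27426851) (dlOf (nat_lit 1) (nat_lit 0x400200020008ce0582))) 
(.lf (nat_lit 23232547) (dlOf (nat_lit 1) (nat_lit 0x400400020008b70882)))) 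
(.lf (nat_lit 8033571) (dlOf (nat_lit 1) (nat_lit 0x13e0018519781))))) (.nd (nat_lit 21) 
(.nd (nat_lit 23) (.nd (nat_lit 24) 
(.lf (nat_lit 5234663459) (dlOf (nat_lit 2) (nat_lit 0x2803200022818080180))) 
(.lf (nat_lit 16949283) (dlOf (nat_lit 1) (nat_lit 0x4002000200088e0002)))) (.nd (nat_lit 20) 
(.lf (nat_lit 25337891) (dlOf (nat_lit 1) (nat_lit 0x80002009c0008bf0902))) 
(.lf (nat_lit 30580771) (dlOf (nat_lit 2) (nat_lit 0xb748002ca04002800200180008e40d82))))) 
(.nd (nat_lit 19) (.nd (nat_lit 24) 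
(.lf (nat_lit 44212259) (dlOf (nat_lit 1) (nat_lit 0x4004000200092e0182))) 
(.lf (nat_lit 27435043) (dlOf (nat_lit 1) (nat_lit 0x8008000400200020008ce0583)))) 
(.lf (nat_lit 45785123) (dlOf (nat_lit 7) (nat_lit 0x474100091f9800118100099d040008a0400492a400308e500083e880071d640054e5a000430a009c95200554728024a36401251a000c27d100493e100249ebc0124f4e009279b00493c880269d640124e940092737005039680249c800124dd20092693000520900248fc8014c7ae0010000000211500033a000019c1c00307e20003f0600c2952005f4728032236401911a000c67d100643e100339e9c0190f3600c879100613ac80321d280080e82008e737004d39680219c800248e1200ca6e9003935a8033104801207e400c83d7002b0000000f8b00040008010800200bc0009360183)))))) 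
(.nd (nat_lit 11) (.nd (nat_lit 13) (.nd (nat_lit 10) (.nd (nat_lit 6) 
(.lf (nat_lit 60457123) (dlOf (nat_lit 1) (nat_lit 0x28008001400200020009871403))) 
(.lf (nat_lit 5234655459) (dlOf (nat_lit 1) (nat_lit 0x400400020018071d82)))) (.nd (nat_lit 19) 
(.lf (nat_lit 36865187) (dlOf (nat_lit 1) (nat_lit 0x400200020009072c02))) (.nd (nat_lit 20) 
(.lf (nat_lit 36340899) (dlOf (nat_lit 1) (nat_lit 0x20019072c01))) 
(.lf (nat_lit 58360995) (dlOf (nat_lit 1) (nat_lit 0x1400080064002005400097e2c03)))))) 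
(.nd (nat_lit 20) (.lf (nat_lit 36349091) (dlOf (nat_lit 1) (nat_lit 0x20019072c01))) 
(.nd (nat_lit 24) (.lf (nat_lit 41591971) (dlOf (nat_lit 1) (nat_lit 0xc0019242c01))) 
(.lf (nat_lit 58369187) (dlOf (nat_lit 1) (nat_lit 0x200197e2c01)))))) (.nd (nat_lit 8) 
(.nd (nat_lit 13) (.nd (nat_lit 9) 
(.lf (nat_lit 8030371) (dlOf (nat_lit 1) (nat_lit 0x1060018514881))) 
(.lf (nat_lit 36342435) (dlOf (nat_lit 1) (nat_lit 0x80080004002007a0009075603)))) 
(.nd (nat_lit 23) (.lf (nat_lit 36350627) (dlOf (nat_lit 1) (nat_lit 0x8008000400200ec0009075603))) 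
(.lf (nat_lit 44739235) (dlOf (nat_lit 1) (nat_lit 0x1c0029325601))))) (.nd (nat_lit 9) 
(.nd (nat_lit 20) (.lf (nat_lit 170403) (dlOf (nat_lit 1) (nat_lit 0x800800040020002000800af83))) 
(.lf (nat_lit 20093347) (dlOf (nat_lit 1) (nat_lit 0x4002000200089daf82)))) 
(.lf (nat_lit 46312355) (dlOf (nat_lit 1) (nat_lit 0x400400020009385c82))))))) (.nd (nat_lit 13) 
(.nd (nat_lit 28) (.nd (nat_lit 7) (.nd (nat_lit 19) (.nd (nat_lit 20) 
(.lf (nat_lit 2348974115) (dlOf (nat_lit 2) (nat_lit 0x18048000801c000200a800280080002410001800200060008070702))) 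
(.lf (nat_lit 2752675875) (dlOf (nat_lit 1) (nat_lit 0x400400020008030982)))) (.nd (nat_lit 21) 
(.lf (nat_lit 202014755) (dlOf (nat_lit 2) (nat_lit 0x3400d000ac0180d0900))) 
(.lf (nat_lit 2754248739) (dlOf (nat_lit 2) (nat_lit 0x104480055c0800100080050002007200080d0903))))) 
(.nd (nat_lit 6) (.nd (nat_lit 8) 
(.lf (nat_lit 2754776739) (dlOf (nat_lit 1) (nat_lit 0x200180f7201))) 
(.lf (nat_lit 4362240419) (dlOf (nat_lit 2) (nat_lit 0x84033004e5018016b80)))) (.nd (nat_lit 9) 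
(.lf (nat_lit 2751629539) (dlOf (nat_lit 1) (nat_lit 0x300008004b01))) 
(.lf (nat_lit 738888419) (dlOf (nat_lit 2) (nat_lit 0x1401d00018018125980)))))) (.nd (nat_lit 6) 
(.nd (nat_lit 8) (.nd (nat_lit 20) 
(.lf (nat_lit 2483191843) (dlOf (nat_lit 2) (nat_lit 0x18048000801c000200a800280080004a10001800200060008070702))) 
(.lf (nat_lit 470974499) (dlOf (nat_lit 1) (nat_lit 0x40018220581)))) (.nd (nat_lit 7) 
(.lf (nat_lit 5301765411) (dlOf (nat_lit 4) (nat_lit 0xc40220002902000e0110000601000800880002c08021000800e0002000a0008093103))) 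
(.lf (nat_lit 469926307) (dlOf (nat_lit 1) (nat_lit 0x20028016b81))))) (.nd (nat_lit 7) 
(.nd (nat_lit 8) (.lf (nat_lit 1008894051) (dlOf (nat_lit 1) (nat_lit 0x1000400040018fc0902))) 
(.lf (nat_lit 469926243) (dlOf (nat_lit 1) (nat_lit 0x60028015201)))) 
(.lf (nat_lit 3154287331) (dlOf (nat_lit 1) (nat_lit 0xa001815b981)))))) (.nd (nat_lit 19) 
(.nd (nat_lit 6) (.nd (nat_lit 8) (.nd (nat_lit 27) 
(.lf (nat_lit 4899119139) (dlOf (nat_lit 2) (nat_lit 0xa00e000114080010008000800200060008080183))) 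
(.lf (nat_lit 6643949603) (dlOf (nat_lit 3) (nat_lit 0x3006800440000002102000101a800800d0007c000000360600300018090501)))) 
(.nd (nat_lit 7) (.lf (nat_lit 2755830051) (dlOf (nat_lit 1) (nat_lit 0x4002000200081b0502))) 
(.lf (nat_lit 5301772707) (dlOf (nat_lit 1) (nat_lit 0x20018091001))))) (.nd (nat_lit 8) 
(.nd (nat_lit 9) (.lf (nat_lit 3154292963) (dlOf (nat_lit 1) (nat_lit 0xa0028158081))) 
(.lf (nat_lit 3154295523) (dlOf (nat_lit 1) (nat_lit 0x800800100020002000815b983)))) 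
(.lf (nat_lit 201499107) (dlOf (nat_lit 1) (nat_lit 0x9c0028017d01))))) (.nd (nat_lit 21) 
(.nd (nat_lit 27) (.nd (nat_lit 32) 
(.lf (nat_lit 67805219) (dlOf (nat_lit 1) (nat_lit 0x1ac004029c00082f0a82))) 
(.lf (nat_lit 4362772515) (dlOf (nat_lit 2) (nat_lit 0x101580057c0800280080008002000200080f0b03)))) 
(.lf (nat_lit 3154812963) (dlOf (nat_lit 6) (nat_lit 0x840540009027800301280108066001a0310015012000b0088001403a000c01b007100b00368050003da2c00c00a8001ec02007405400020288000813c0020094007403300020188004006c016402c00aa014000f589003302a001d8050003d408001c0a8000a0510007027800600900030044000a01d000400d80028050003a42001ac00400080008330a82)))) 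
(.nd (nat_lit 6) (.nd (nat_lit 27) 
(.lf (nat_lit 2754256931) (dlOf (nat_lit 5) (nat_lit 0x100930002b00400904980015702004e24c000aa01005a126000548080018008004c002002200080d0903))) 
(.lf (nat_lit 472555555) (dlOf (nat_lit 4) (nat_lit 0x8c29a00da08d004104600009c1801285340004c04001011a0001202002600189c0181)))) 
(.lf (nat_lit 69903715) (dlOf (nat_lit 1) (nat_lit 0x19b80080004002023a0008e13403)))))))) 
(.nd (nat_lit 31) (.nd (nat_lit 6) (.nd (nat_lit 29) (.nd (nat_lit 19) (.nd (nat_lit 7) 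
(.nd (nat_lit 20) (.nd (nat_lit 22) 
(.lf (nat_lit 1476558883) (dlOf (nat_lit 9) (nat_lit 0x6a01f800780740004008012007e0001f02008603f0000f01005101f8000740802b00fc0003804012007e000150200a003f0000781001501f80003808003000800dc00200260008050183))) 
(.lf (nat_lit 1346535459) (dlOf (nat_lit 2) (nat_lit 0x28464000ac04004800400260008fa0182)))) 
(.lf (nat_lit 1343389731) (dlOf (nat_lit 1) (nat_lit 0x400200020008220582)))) 
(.lf (nat_lit 5637309859) (dlOf (nat_lit 1) (nat_lit 0x5600280d3601)))) (.nd (nat_lit 13) 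
(.nd (nat_lit 21) (.lf (nat_lit 5772050467) (dlOf (nat_lit 1) (nat_lit 0xc00200060008050882))) 
(.lf (nat_lit 1344962595) (dlOf (nat_lit 3) (nat_lit 0x420270005411a00e808c0001383005304e003482300004c080050004000a00089a0182)))) 
(.lf (nat_lit 1344970787) (dlOf (nat_lit 4) (nat_lit 0x2585800144138014808d007004600009c2001c82700004c04000c11a0001202001e00089a0181))))) 
(.nd (nat_lit 7) (.nd (nat_lit 11) (.nd (nat_lit 19) 
(.lf (nat_lit 6039961635) (dlOf (nat_lit 3) (nat_lit 0x3006800440000002582000101a800800d0007c0000003c0600300018070501))) 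
(.lf (nat_lit 6376030243) (dlOf (nat_lit 1) (nat_lit 0xc00200060008050882)))) 
(.lf (nat_lit 1677887523) (dlOf (nat_lit 1) (nat_lit 0x20028114701)))) (.nd (nat_lit 8) 
(.nd (nat_lit 9) (.lf (nat_lit 1880269987) (dlOf (nat_lit 1) (nat_lit 0x240018802c01))) 
(.lf (nat_lit 1812106915) (dlOf (nat_lit 2) (nat_lit 0x5c03a0002a0200040028147201)))) 
(.lf (nat_lit 1610776995) (dlOf (nat_lit 2) (nat_lit 0x2003000e0018091000)))))) (.nd (nat_lit 8) 
(.nd (nat_lit 7) (.nd (nat_lit 19) (.nd (nat_lit 26) 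
(.lf (nat_lit 1476558947) (dlOf (nat_lit 16) (nat_lit 0x1d80d80035204003407e00340360004e02001c01b000100000012c08004c07e00400360004682000f01c800c00d80011808005006c000850200560360001e81003501b0000d00800b00d80005e0400b806c0002902005a0360001081002e01b00007c0801580d8000340400ac06c000140200da03600000018050d00))) 
(.lf (nat_lit 5435981923) (dlOf (nat_lit 1) (nat_lit 0x20028090101)))) (.nd (nat_lit 13) 
(.lf (nat_lit 1409974371) (dlOf (nat_lit 2) (nat_lit 0x1101ac0004c040088002000800080a1382))) 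
(.lf (nat_lit 1344970851) (dlOf (nat_lit 3) (nat_lit 0x82580005a04000410a0002b02000600189a0901))))) 
(.nd (nat_lit 9) (.nd (nat_lit 13) 
(.lf (nat_lit 5637309667) (dlOf (nat_lit 1) (nat_lit 0x200280d2e01))) 
(.lf (nat_lit 5637317859) (dlOf (nat_lit 1) (nat_lit 0x4002000200080d2e02)))) 
(.lf (nat_lit 6377605859) (dlOf (nat_lit 1) (nat_lit 0x200280e5981))))) (.nd (nat_lit 32) 
(.nd (nat_lit 7) (.nd (nat_lit 10) 
(.lf (nat_lit 1342341475) (dlOf (nat_lit 1) (nat_lit 0x80028014f01))) 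
(.lf (nat_lit 1543671139) (dlOf (nat_lit 1) (nat_lit 0x20028146a81)))) 
(.lf (nat_lit 1141025251) (dlOf (nat_lit 1) (nat_lit 0x400400020008094e82)))) (.nd (nat_lit 7) 
(.nd (nat_lit 13) 
(.lf (nat_lit 5435984227) (dlOf (nat_lit 2) (nat_lit 0x2008803718080010008000c00200020008094e83))) 
(.lf (nat_lit 5435992419) (dlOf (nat_lit 2) (nat_lit 0x804401b8c04000400200020008094e82)))) 
(.lf (nat_lit 5435984355) (dlOf (nat_lit 1) (nat_lit 0x80080030002001a0008094e83))))))) 
(.nd (nat_lit 13) (.nd (nat_lit 8) (.nd (nat_lit 19) (.nd (nat_lit 26) (.nd (nat_lit 7) 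
(.nd (nat_lit 20) 
(.lf (nat_lit 4026695715) (dlOf (nat_lit 2) (nat_lit 0x70064003802400016028030980))) 
(.lf (nat_lit 3490873379) (dlOf (nat_lit 1) (nat_lit 0x400400020008030982)))) 
(.lf (nat_lit 3491922083) (dlOf (nat_lit 2) (nat_lit 0x41c100091818090200)))) (.nd (nat_lit 6) 
(.lf (nat_lit 3288498211) (dlOf (nat_lit 2) (nat_lit 0x70064003802400016028030980))) 
(.lf (nat_lit 3691151459) (dlOf (nat_lit 5) (nat_lit 0x308028000fa0401a00140007c0200cc00a0003a8100650050001cc080228008003800200040008050d03))))) 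
(.nd (nat_lit 27) (.nd (nat_lit 21) 
(.lf (nat_lit 3221913635) (dlOf (nat_lit 2) (nat_lit 0x1f017805a80b8000000800d400400a200081b0482))) 
(.lf (nat_lit 3492446243) (dlOf (nat_lit 2) (nat_lit 0x10460005700800100080050002007200080d0903)))) 
(.nd (nat_lit 26) 
(.lf (nat_lit 3893002275) (dlOf (nat_lit 4) (nat_lit 0x58056001160200040180006b01000500c00033c080010008002c002001200082c0603))) 
(.lf (nat_lit 3960111139) (dlOf (nat_lit 2) (nat_lit 0x1f017805a80b8000000800d400400a200081b0482)))))) 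
(.nd (nat_lit 6) (.nd (nat_lit 10) 
(.lf (nat_lit 3494019363) (dlOf (nat_lit 1) (nat_lit 0x8008000c002000200081b0503))) 
(.lf (nat_lit 3489828131) (dlOf (nat_lit 1) (nat_lit 0x400200020008006802)))) (.nd (nat_lit 7) 
(.nd (nat_lit 11) (.lf (nat_lit 4228022627) (dlOf (nat_lit 1) (nat_lit 0x2800200080008014f02))) 
(.lf (nat_lit 3489827171) (dlOf (nat_lit 1) (nat_lit 0x400200020008004e82)))) 
(.lf (nat_lit 3489828323) (dlOf (nat_lit 1) (nat_lit 0x900080020002003a0008006e03)))))) 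
(.nd (nat_lit 7) (.nd (nat_lit 26) (.nd (nat_lit 21) 
(.lf (nat_lit 3221921827) (dlOf (nat_lit 5) (nat_lit 0x1780400010c8100d50200008500805f0100004080403fc05e00fe02e000000281b0480))) 
(.lf (nat_lit 3492454435) (dlOf (nat_lit 5) (nat_lit 0x1008d0002ba0400904680015c02004e234000ac81005a11a00055c080018008004c002002200080d0903)))) 
(.nd (nat_lit 6) (.nd (nat_lit 28) 
(.lf (nat_lit 3960119331) (dlOf (nat_lit 5) (nat_lit 0x1780400010e0100d502000085c0805f01000040a0403fc05e00fe02e000000281b0480))) 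
(.lf (nat_lit 4228554787) (dlOf (nat_lit 2) (nat_lit 0x10150003340800280080008002000200080f0b03)))) 
(.lf (nat_lit 4228030819) (dlOf (nat_lit 1) (nat_lit 0x1380080030002001a0008014f03))))) 
(.nd (nat_lit 8) (.nd (nat_lit 19) 
(.lf (nat_lit 3491930275) (dlOf (nat_lit 1) (nat_lit 0x400400020018090202))) 
(.lf (nat_lit 4096434339) (dlOf (nat_lit 1) (nat_lit 0x400400040008111382)))) (.nd (nat_lit 6) 
(.lf (nat_lit 3221399971) (dlOf (nat_lit 2) (nat_lit 0x8800002e6804006c002000c0008114e82))) 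
(.lf (nat_lit 3489835491) (dlOf (nat_lit 1) (nat_lit 0x800803cc00200c00008004e83))))))))) 
(.nd (nat_lit 28) (.nd (nat_lit 21) (.nd (nat_lit 26) (.nd (nat_lit 13) (.nd (nat_lit 19) 
(.nd (nat_lit 27) 
(.lf (nat_lit 6442680355) (dlOf (nat_lit 2) (nat_lit 0x3c05c000290200040018140c01))) 
(.lf (nat_lit 134447139) (dlOf (nat_lit 2) (nat_lit 0x4e02f000c4818020480)))) (.nd (nat_lit 20) 
(.nd (nat_lit 22) (.nd (nat_lit 23) 
(.lf (nat_lit 2819325987) (dlOf (nat_lit 2) (nat_lit 0x90218013dc080020008001000200060008240683))) 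
(.lf (nat_lit 9142307) (dlOf (nat_lit 1) (nat_lit 0x7400400080008520782)))) 
(.lf (nat_lit 4948003) (dlOf (nat_lit 4) (nat_lit 0x5afdc0004004002181c0001d020042c0e00175fb8000001000a80080004002001600082d0183)))) 
(.lf (nat_lit 1802275) (dlOf (nat_lit 2) (nat_lit 0x1481ae0002a0200040028140801))))) 
(.nd (nat_lit 19) (.nd (nat_lit 6) 
(.lf (nat_lit 12820515) (dlOf (nat_lit 1) (nat_lit 0x258004023400086e0a02))) (.nd (nat_lit 9) 
(.lf (nat_lit 8632419) (dlOf (nat_lit 1) (nat_lit 0x16002851a801))) 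
(.lf (nat_lit 1610851939) (dlOf (nat_lit 3) (nat_lit 0x802d00011c0800081680008a04005400400020018093902))))) 
(.nd (nat_lit 7) (.lf (nat_lit 59482211) (dlOf (nat_lit 1) (nat_lit 0x100019800901))) 
(.lf (nat_lit 6004963) (dlOf (nat_lit 1) (nat_lit 0x20028420581)))))) (.nd (nat_lit 7) 
(.nd (nat_lit 13) (.nd (nat_lit 6) (.nd (nat_lit 31) 
(.lf (nat_lit 201556003) (dlOf (nat_lit 2) (nat_lit 0x5402f0007c018020480))) 
(.lf (nat_lit 2349039651) (dlOf (nat_lit 3) (nat_lit 0x18804000f9a0400f0020001c00e003e5828090000)))) 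
(.lf (nat_lit 3825434979) (dlOf (nat_lit 3) (nat_lit 0x40100012ec0800400800097404000c00400040008154f02)))) 
(.nd (nat_lit 9) (.nd (nat_lit 19) 
(.lf (nat_lit 2349047843) (dlOf (nat_lit 2) (nat_lit 0x1008001f2c080028008000c002004a0008090003))) 
(.lf (nat_lit 2753273891) (dlOf (nat_lit 3) (nat_lit 0x1060cc003503a000f9a08041833001260e8003e5828090000)))) 
(.lf (nat_lit 3288572451) (dlOf (nat_lit 3) (nat_lit 0x500400014a0200fa00b0006e018090d80))))) 
(.nd (nat_lit 6) (.nd (nat_lit 8) (.nd (nat_lit 9) 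
(.lf (nat_lit 68386979) (dlOf (nat_lit 1) (nat_lit 0x1d00018570481))) 
(.lf (nat_lit 202084003) (dlOf (nat_lit 1) (nat_lit 0x200280f7201)))) 
(.lf (nat_lit 2349040035) (dlOf (nat_lit 1) (nat_lit 0xd800800a0002003a0008090783)))) 
(.nd (nat_lit 9) (.nd (nat_lit 13) 
(.lf (nat_lit 4899178979) (dlOf (nat_lit 1) (nat_lit 0x200080024002000a00080d4e83))) 
(.lf (nat_lit 5570275811) (dlOf (nat_lit 1) (nat_lit 0x8004000200080d4e82)))) (.nd (nat_lit 11) 
(.lf (nat_lit 5033395171) (dlOf (nat_lit 1) (nat_lit 0x400400020008092882))) 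
(.lf (nat_lit 4899179491) (dlOf (nat_lit 1) (nat_lit 0x8008028c002014c00080d5e83)))))))) 
(.nd (nat_lit 20) (.nd (nat_lit 9) (.nd (nat_lit 19) (.nd (nat_lit 24) (.nd (nat_lit 6) 
(.lf (nat_lit 14909475) (dlOf (nat_lit 3) (nat_lit 0x124c500010010013262800070080020008003000200020008790183))) 
(.lf (nat_lit 44269667) (dlOf (nat_lit 1) (nat_lit 0x3a00092e0781)))) (.nd (nat_lit 23) 
(.lf (nat_lit 52658211) (dlOf (nat_lit 1) (nat_lit 0x6c00400640009560702))) 
(.lf (nat_lit 27492387) (dlOf (nat_lit 2) (nat_lit 0x4a9b00003a04001800400420018cf0582))))) 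
(.nd (nat_lit 7) 
(.lf (nat_lit 2754314275) (dlOf (nat_lit 3) (nat_lit 0x446e00158020008237000aa0180d0900))) 
(.nd (nat_lit 8) (.lf (nat_lit 36414627) (dlOf (nat_lit 1) (nat_lit 0x20019072c01))) 
(.lf (nat_lit 48990627) (dlOf (nat_lit 1) (nat_lit 0x20019464e81)))))) (.nd (nat_lit 6) 
(.nd (nat_lit 7) (.lf (nat_lit 69968419) (dlOf (nat_lit 2) (nat_lit 0x580000067e0200320028e28701))) 
(.nd (nat_lit 10) (.lf (nat_lit 19637155) (dlOf (nat_lit 1) (nat_lit 0x2c00289d2601))) 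
(.lf (nat_lit 19640227) (dlOf (nat_lit 1) (nat_lit 0x200289d7881))))) (.nd (nat_lit 7) 
(.nd (nat_lit 8) (.lf (nat_lit 61572707) (dlOf (nat_lit 1) (nat_lit 0x800200060009923902))) 
(.lf (nat_lit 19639139) (dlOf (nat_lit 1) (nat_lit 0x4004000200189d5c02)))) 
(.lf (nat_lit 36414435) (dlOf (nat_lit 1) (nat_lit 0x20019072881)))))) (.nd (nat_lit 7) 
(.nd (nat_lit 6) (.nd (nat_lit 9) (.nd (nat_lit 22) 
(.lf (nat_lit 11771939) (dlOf (nat_lit 1) (nat_lit 0x400286c0001))) 
(.lf (nat_lit 15966243) (dlOf (nat_lit 1) (nat_lit 0x10008000400200060008850783)))) 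
(.lf (nat_lit 8100387) (dlOf (nat_lit 1) (nat_lit 0x344002011a000851b282)))) (.nd (nat_lit 9) 
(.nd (nat_lit 13) (.lf (nat_lit 28541027) (dlOf (nat_lit 1) (nat_lit 0x60008da0481))) 
(.lf (nat_lit 24354915) (dlOf (nat_lit 1) (nat_lit 0x400200020008b91382)))) 
(.lf (nat_lit 8094307) (dlOf (nat_lit 1) (nat_lit 0x320018511781))))) (.nd (nat_lit 9) 
(.nd (nat_lit 8) (.lf (nat_lit 58426531) (dlOf (nat_lit 1) (nat_lit 0x60004001000097e2c02))) 
(.nd (nat_lit 10) (.lf (nat_lit 11772323) (dlOf (nat_lit 1) (nat_lit 0x400286c0781))) 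
(.lf (nat_lit 8095139) (dlOf (nat_lit 1) (nat_lit 0x400200020008513602))))) (.nd (nat_lit 6) 
(.nd (nat_lit 19) (.lf (nat_lit 36932259) (dlOf (nat_lit 1) (nat_lit 0x10002000e0009075602))) 
(.lf (nat_lit 58428067) (dlOf (nat_lit 1) (nat_lit 0x4002000200097e5602)))) 
(.lf (nat_lit 8098531) (dlOf (nat_lit 1) (nat_lit 0x400400020018518c82)))))))) (.nd (nat_lit 27) 
(.nd (nat_lit 31) (.nd (nat_lit 20) (.nd (nat_lit 6) (.nd (nat_lit 13) (.nd (nat_lit 26) 
(.lf (nat_lit 1342406691) (dlOf (nat_lit 5) (nat_lit 0x9c0e68006ac0804887340034e04026039a0018b0201121cd000c4818020480))) 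
(.lf (nat_lit 5704482851) (dlOf (nat_lit 1) (nat_lit 0x48002002200080c0482)))) 
(.lf (nat_lit 1342414883) (dlOf (nat_lit 5) (nat_lit 0x20aa00140808078891c0035604009c48e0018b020064247000c4818020480)))) 
(.nd (nat_lit 7) (.nd (nat_lit 8) 
(.lf (nat_lit 1881374819) (dlOf (nat_lit 1) (nat_lit 0x18008001000200040008ee1b83))) 
(.lf (nat_lit 1409515875) (dlOf (nat_lit 1) (nat_lit 0x40018014f01)))) 
(.lf (nat_lit 5100505571) (dlOf (nat_lit 1) (nat_lit 0x100080060002002a00080d4e83))))) 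
(.nd (nat_lit 7) (.nd (nat_lit 13) 
(.lf (nat_lit 1343455267) (dlOf (nat_lit 3) (nat_lit 0x20584008411c000e07e0004403000b047000181f80010e0800c000400280018250782))) 
(.lf (nat_lit 1343463459) (dlOf (nat_lit 3) (nat_lit 0xd011c004607e0004402002304700021c080070008010800200060008250783)))) 
(.nd (nat_lit 19) (.lf (nat_lit 1880328867) (dlOf (nat_lit 1) (nat_lit 0x20028865601))) 
(.lf (nat_lit 1880853155) (dlOf (nat_lit 1) (nat_lit 0x20028c35601)))))) (.nd (nat_lit 8) 
(.nd (nat_lit 13) (.nd (nat_lit 21) 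
(.lf (nat_lit 3557523491) (dlOf (nat_lit 2) (nat_lit 0x1302480134c080320008001000200420008240683))) 
(.lf (nat_lit 3492511779) (dlOf (nat_lit 3) (nat_lit 0x44440015d020008222000ac8180d0900)))) 
(.nd (nat_lit 9) 
(.lf (nat_lit 3557531683) (dlOf (nat_lit 1) (nat_lit 0x38008002000200120008240683))) 
(.lf (nat_lit 4026769955) (dlOf (nat_lit 2) (nat_lit 0xf8020000a6818090d80))))) (.nd (nat_lit 6) 
(.lf (nat_lit 3489897891) (dlOf (nat_lit 8) (nat_lit 0x1c83f8011c1fb00630b28001d81802487f0000ea0401583f8000c15d00380ae0001c41800787f0000e00401403f80006202001a1fc0003081002d0fe001d0594000000800480040010000800cb02))) 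
(.nd (nat_lit 7) 
(.lf (nat_lit 3489897827) (dlOf (nat_lit 2) (nat_lit 0x3057000cce0400140040006000800c902))) 
(.lf (nat_lit 3489893859) (dlOf (nat_lit 2) (nat_lit 0x2187f00007a04001c00400100008006e02))))))) 
(.nd (nat_lit 6) (.nd (nat_lit 30) (.nd (nat_lit 19) (.nd (nat_lit 8) (.nd (nat_lit 13) 
(.lf (nat_lit 469991459) (dlOf (nat_lit 4) (nat_lit 0x6487340023a0400c439a001160201561cd0007c018020480))) 
(.lf (nat_lit 469999651) (dlOf (nat_lit 3) (nat_lit 0x32448e0011d0200b62470007c018020480)))) 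
(.lf (nat_lit 2617475363) (dlOf (nat_lit 1) (nat_lit 0x200180b5401)))) (.nd (nat_lit 29) 
(.lf (nat_lit 472612899) (dlOf (nat_lit 4) (nat_lit 0x260b0002482340088118009e07d003b03e00009c280098580009811a004c07d001a03e00009820001047c0003e040008002000400089c0182))) 
(.lf (nat_lit 1009483811) (dlOf (nat_lit 2) (nat_lit 0xde0eb001203c003781cc0007c0c0018002001400091a0182))))) 
(.nd (nat_lit 26) (.nd (nat_lit 29) 
(.lf (nat_lit 1476624419) (dlOf (nat_lit 24) (nat_lit 0x3a04000fe01d802f00e80034070001a037002300c8006804800080000019710012403b000801c0005d81006300f00015a0401b4078000ac02001a03c0005501002001e000f00e40014c080250078010a0390005282009101e003580e400148080228078011c0390005182005501e002200e400142080768084054603c033c01c800c00d8001401000a80780009f02012203c008201c8002781004280f001580720009d0400be03c0000881000301e0000400800500f00001a0402280780000b02002003c0000281000a01e00000c0802e80f001280720000204007603c001401c8000041004480ec00000040e6800400aa00180a0602)))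 
(.lf (nat_lit 6308462627) (dlOf (nat_lit 1) (nat_lit 0x48002002200080c0482)))) (.nd (nat_lit 31) 
(.lf (nat_lit 5838700579) (dlOf (nat_lit 2) (nat_lit 0x3c05c000290200040018140c01))) 
(.lf (nat_lit 3691216931) (dlOf (nat_lit 32) (nat_lit 0x15701400440078018003a013a01c006000d00a5806403e40300eb20160380009800c803803340160348004013a001808e80040e34000000e71e009201d008e00e004080580020006000e60809d001d052e00e01f78068104000805f00030007285004f00e80039008072807404b4038003c01a0007183008900e80598070029c02c00560030007104006e00e80580070005c03404c201600970018003842803b8074001c00400f003a000df02021c0150005681009000a8002a8080e9805400f802201f0000000530302d400a80080044087c000000a506066a015003100881620000001480c00dc02a000a3020640015000a00980048000001420c145002a045e01302b00088018804009b4016000a00a05c40150004f8102a300a801200000013c080b9c02a001601300bf008803a803406340000009d0a00fa01d00c300e01308058006002a005e0030000685005d00e80568070071c02c00ae0030000584001000e800d00700001408020003a018c01c00f200b000b000c0001010002003a000060200fc01d008200e000b80580000a0c00e403a010401c01f000b002000100120006000040a006a01d0000181005c00e80168070002402c00b00150000104002700e80148070008c02c0000106018a01d010300e013300580140008009000301580000000003020980080004002012800080a0603))))))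 
(.nd (nat_lit 8) (.nd (nat_lit 10) (.nd (nat_lit 20) 
(.lf (nat_lit 472612963) (dlOf (nat_lit 4) (nat_lit 0x1481d4000640400802ac004a13b002809c8013033400c012c0064085002d03a801701cc000582001342ac00a413b005409c80290334013c12c00a0085004e03a802701cc000542000dc004002e00189c0902))) 
(.nd (nat_lit 26) (.lf (nat_lit 5773164643) (dlOf (nat_lit 1) (nat_lit 0x400180b0d81))) 
(.lf (nat_lit 6377144419) (dlOf (nat_lit 1) (nat_lit 0x400180b0d81))))) (.nd (nat_lit 7) 
(.lf (nat_lit 4764960355) (dlOf (nat_lit 1) (nat_lit 0x900018093901))) 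
(.lf (nat_lit 5234730211) (dlOf (nat_lit 1) (nat_lit 0x600180d2e01))))) (.nd (nat_lit 7) 
(.nd (nat_lit 11) (.nd (nat_lit 21) 
(.lf (nat_lit 1543741795) (dlOf (nat_lit 2) (nat_lit 0xa00680096004006000400060018154f02))) 
(.lf (nat_lit 1008968035) (dlOf (nat_lit 1) (nat_lit 0x20019000e81)))) 
(.lf (nat_lit 3624110435) (dlOf (nat_lit 1) (nat_lit 0x48008001c00200f80008144e83)))) 
(.nd (nat_lit 9) (.lf (nat_lit 6308473315) (dlOf (nat_lit 1) (nat_lit 0x8004000200080d4e82))) 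
(.lf (nat_lit 6308473827) (dlOf (nat_lit 1) (nat_lit 0x4004000200080d5e82))))))))))) 
(.nd (nat_lit 16) (.nd (nat_lit 13) (.nd (nat_lit 6) (.nd (nat_lit 19) (.nd (nat_lit 30) 
(.nd (nat_lit 15) (.nd (nat_lit 23) (.nd (nat_lit 26) (.nd (nat_lit 27) (.nd (nat_lit 29) 
(.lf (nat_lit 2416312355) (dlOf (nat_lit 2) (nat_lit 0x110028005600800480080018002000e00080d0903))) 
(.lf (nat_lit 805699619) (dlOf (nat_lit 2) (nat_lit 0x902b0000dc0800d0008000800200080008190883)))) 
(.lf (nat_lit 2550530083) (dlOf (nat_lit 2) (nat_lit 0x110028005740800480080018002000e00080d0903)))) 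
(.nd (nat_lit 27) (.nd (nat_lit 7) 
(.lf (nat_lit 2756050979) (dlOf (nat_lit 1) (nat_lit 0x1280080024002003400081e0883))) 
(.lf (nat_lit 604373155) (dlOf (nat_lit 1) (nat_lit 0xb00080038002002c00081a0483)))) 
(.nd (nat_lit 28) (.lf (nat_lit 4496687139) (dlOf (nat_lit 1) (nat_lit 0x20018120181))) 
(.lf (nat_lit 3154509859) (dlOf (nat_lit 2) (nat_lit 0xec028800200cc00162080098004001e00081f0602)))))) 
(.nd (nat_lit 24) (.nd (nat_lit 21) 
(.lf (nat_lit 9830435) (dlOf (nat_lit 2) (nat_lit 0x650000001140800b8008000400200340008580183))) 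
(.nd (nat_lit 22) 
(.lf (nat_lit 11927587) (dlOf (nat_lit 3) (nat_lit 0x358e2a007cd0201c2715003e58186c0000))) 
(.lf (nat_lit 16121891) (dlOf (nat_lit 2) (nat_lit 0x1bd2b000de8ea00a23eb80379ddc0200ebe0142733006f1f0001518380290008000c00200040008870703))))) 
(.nd (nat_lit 8) (.nd (nat_lit 20) 
(.lf (nat_lit 27656227) (dlOf (nat_lit 1) (nat_lit 0x1800200020008d10782))) 
(.lf (nat_lit 26607651) (dlOf (nat_lit 2) (nat_lit 0x553d0000740800a0008000c00200100008c50183)))) 
(.lf (nat_lit 28705059) (dlOf (nat_lit 1) (nat_lit 0x400400020008da0702)))))) (.nd (nat_lit 21) 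
(.nd (nat_lit 27) (.nd (nat_lit 20) (.nd (nat_lit 26) 
(.lf (nat_lit 4295393315) (dlOf (nat_lit 1) (nat_lit 0x80080008002001200081c0a03))) 
(.lf (nat_lit 67534883) (dlOf (nat_lit 1) (nat_lit 0x200281f0701)))) 
(.lf (nat_lit 26640419) (dlOf (nat_lit 5) (nat_lit 0x59d20001d02005e000000058100050000000280800080000000e04002c004000a0008c50182)))) 
(.nd (nat_lit 9) 
(.lf (nat_lit 4429611043) (dlOf (nat_lit 1) (nat_lit 0x80080008002001200081c0a03))) 
(.lf (nat_lit 134644259) (dlOf (nat_lit 3) (nat_lit 0x1ec0620014302000e03100066818090d80))))) 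
(.nd (nat_lit 7) (.nd (nat_lit 22) 
(.lf (nat_lit 2753986595) (dlOf (nat_lit 1) (nat_lit 0x8002000600080b0a82))) 
(.lf (nat_lit 48660515) (dlOf (nat_lit 2) (nat_lit 0x5183e001bc0a00003e04005e0029420181)))) 
(.lf (nat_lit 472287907) (dlOf (nat_lit 1) (nat_lit 0x20028985601)))))) (.nd (nat_lit 28) 
(.nd (nat_lit 26) (.nd (nat_lit 15) (.nd (nat_lit 27) 
(.lf (nat_lit 3221618723) (dlOf (nat_lit 2) (nat_lit 0x60178000d408020000800f800200020008160883))) 
(.lf (nat_lit 3892707363) (dlOf (nat_lit 2) (nat_lit 0x2d20288002fc08006800800e4002002600081d0603)))) 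
(.nd (nat_lit 7) (.lf (nat_lit 1074167843) (dlOf (nat_lit 2) (nat_lit 0x8029000aa0180d0900))) 
(.lf (nat_lit 1611038883) (dlOf (nat_lit 1) (nat_lit 0x5e00280c1381))))) (.nd (nat_lit 27) 
(.nd (nat_lit 29) 
(.lf (nat_lit 3288727587) (dlOf (nat_lit 3) (nat_lit 0x34807200159020014036000000180d0900))) 
(.lf (nat_lit 1678114851) (dlOf (nat_lit 2) (nat_lit 0x13000000040080128008003800200060008190803)))) 
(.lf (nat_lit 3959816227) (dlOf (nat_lit 3) (nat_lit 0x3805e0002c0200b202f00000018160800))))) 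
(.nd (nat_lit 29) (.nd (nat_lit 22) (.nd (nat_lit 7) 
(.lf (nat_lit 5637537827) (dlOf (nat_lit 2) (nat_lit 0x1bc02c000450200100008100181))) 
(.lf (nat_lit 3490056611) (dlOf (nat_lit 1) (nat_lit 0x400200020008004e82)))) (.nd (nat_lit 31) 
(.lf (nat_lit 1346764835) (dlOf (nat_lit 4) (nat_lit 0x1004b0001821400440ea001a073000100f8001082800202340007e04000812c0004085000203a8000f81800800080024002003a0009000183))) 
(.lf (nat_lit 3494248483) (dlOf (nat_lit 1) (nat_lit 0xa00081e0781))))) (.nd (nat_lit 15) 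
(.nd (nat_lit 26) 
(.lf (nat_lit 4026925091) (dlOf (nat_lit 3) (nat_lit 0x34807200154020014036000000180d0900))) 
(.lf (nat_lit 6241517603) (dlOf (nat_lit 2) (nat_lit 0x1bc02a000450200100008100181)))) 
(.lf (nat_lit 1946583075) (dlOf (nat_lit 2) (nat_lit 0x8029000ac8180d0900))))))) (.nd (nat_lit 7) 
(.nd (nat_lit 21) (.nd (nat_lit 23) (.nd (nat_lit 20) (.nd (nat_lit 24) 
(.lf (nat_lit 537788451) (dlOf (nat_lit 2) (nat_lit 0x120220000a0181a0880))) 
(.lf (nat_lit 17694755) (dlOf (nat_lit 2) (nat_lit 0xa4ac002ca040028002001800088f0d82)))) 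
(.lf (nat_lit 39714851) (dlOf (nat_lit 2) (nat_lit 0xc2a9000353600004504000400191d0181)))) 
(.nd (nat_lit 24) (.lf (nat_lit 9306147) (dlOf (nat_lit 1) (nat_lit 0x700008540801))) 
(.lf (nat_lit 59637795) (dlOf (nat_lit 1) (nat_lit 0xa0029820181))))) (.nd (nat_lit 15) 
(.nd (nat_lit 8) (.nd (nat_lit 10) 
(.lf (nat_lit 4063267) (dlOf (nat_lit 3) (nat_lit 0x81b2001ff02000e0d9000fc018270900))) 
(.lf (nat_lit 2754481187) (dlOf (nat_lit 1) (nat_lit 0x2c00280f6081)))) 
(.lf (nat_lit 23986467) (dlOf (nat_lit 1) (nat_lit 0x20028b80501)))) (.nd (nat_lit 20) 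
(.lf (nat_lit 53379107) (dlOf (nat_lit 1) (nat_lit 0x200295b0181))) 
(.lf (nat_lit 473858083) (dlOf (nat_lit 4) (nat_lit 0x6b06c80009c0802b03640004c04001828600060cd00007028fc0180)))))) 
(.nd (nat_lit 8) (.nd (nat_lit 10) (.nd (nat_lit 26) (.nd (nat_lit 27) 
(.lf (nat_lit 3491659939) (dlOf (nat_lit 1) (nat_lit 0xe8008006c002000e0008090203))) 
(.lf (nat_lit 5773361315) (dlOf (nat_lit 1) (nat_lit 0x154004007200080c1382)))) 
(.lf (nat_lit 2753462435) (dlOf (nat_lit 1) (nat_lit 0xe8008006c002000e0008090203)))) 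
(.nd (nat_lit 12) (.nd (nat_lit 15) 
(.lf (nat_lit 51250339) (dlOf (nat_lit 1) (nat_lit 0x400400020009512c02))) 
(.lf (nat_lit 31360163) (dlOf (nat_lit 1) (nat_lit 0x8008003c002000e0008e92c03)))) 
(.lf (nat_lit 8262819) (dlOf (nat_lit 1) (nat_lit 0x7400200200008519502))))) (.nd (nat_lit 10) 
(.nd (nat_lit 11) (.lf (nat_lit 3490611619) (dlOf (nat_lit 1) (nat_lit 0x400200020008016b82))) 
(.nd (nat_lit 12) (.lf (nat_lit 2754480547) (dlOf (nat_lit 1) (nat_lit 0x200080f4e81))) 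
(.lf (nat_lit 19798435) (dlOf (nat_lit 1) (nat_lit 0x4004000200089daf82))))) (.nd (nat_lit 9) 
(.lf (nat_lit 8291747) (dlOf (nat_lit 1) (nat_lit 0x400200020008513602))) 
(.lf (nat_lit 19795875) (dlOf (nat_lit 1) (nat_lit 0x30004000c00089d7882)))))))) (.nd (nat_lit 7) 
(.nd (nat_lit 8) (.nd (nat_lit 15) (.nd (nat_lit 26) (.nd (nat_lit 10) 
(.lf (nat_lit 1880490083) (dlOf (nat_lit 1) (nat_lit 0x200089a0901))) 
(.lf (nat_lit 38143075) (dlOf (nat_lit 1) (nat_lit 0x400200a80009132982)))) (.nd (nat_lit 19) 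
(.nd (nat_lit 27) (.lf (nat_lit 4362469475) (dlOf (nat_lit 1) (nat_lit 0x80018090001))) 
(.lf (nat_lit 4228251747) (dlOf (nat_lit 1) (nat_lit 0xa0018090001)))) 
(.lf (nat_lit 470679651) (dlOf (nat_lit 1) (nat_lit 0x400200020008150282))))) (.nd (nat_lit 26) 
(.nd (nat_lit 20) (.nd (nat_lit 22) 
(.lf (nat_lit 805732451) (dlOf (nat_lit 1) (nat_lit 0x30004000600081a0002))) 
(.lf (nat_lit 54952035) (dlOf (nat_lit 1) (nat_lit 0x20029670d81)))) 
(.lf (nat_lit 26640483) (dlOf (nat_lit 2) (nat_lit 0x176748005800802d8008016c00200020008c50d03)))) 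
(.nd (nat_lit 19) (.nd (nat_lit 27) 
(.lf (nat_lit 1678147683) (dlOf (nat_lit 2) (nat_lit 0x17815800fa8040130004000200081a0002))) 
(.lf (nat_lit 3959849059) (dlOf (nat_lit 2) (nat_lit 0xb011800fa8040040004002c0008170002)))) 
(.lf (nat_lit 473858147) (dlOf (nat_lit 1) (nat_lit 0x400400020008fc0902)))))) (.nd (nat_lit 28) 
(.nd (nat_lit 11) (.nd (nat_lit 15) (.nd (nat_lit 20) 
(.lf (nat_lit 2349203811) (dlOf (nat_lit 2) (nat_lit 0x180b800066040084004000a00081b0702))) 
(.lf (nat_lit 11927907) (dlOf (nat_lit 1) (nat_lit 0x38004001400186c0702)))) 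
(.lf (nat_lit 21397859) (dlOf (nat_lit 1) (nat_lit 0x1e0018a34f01)))) (.nd (nat_lit 15) 
(.lf (nat_lit 60688739) (dlOf (nat_lit 1) (nat_lit 0x80080010002000200098c4e83))) 
(.lf (nat_lit 51808611) (dlOf (nat_lit 1) (nat_lit 0x400019514e81))))) (.nd (nat_lit 15) 
(.nd (nat_lit 10) (.nd (nat_lit 11) 
(.lf (nat_lit 2483421539) (dlOf (nat_lit 2) (nat_lit 0x180b000066040084004000a00081b0702))) 
(.lf (nat_lit 1345194339) (dlOf (nat_lit 6) (nat_lit 0x190b28059440800f059402a2a0400502ca015000200541650099d0100020b2800000080038008000800200060008b04e83)))) 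
(.lf (nat_lit 472778083) (dlOf (nat_lit 6) (nat_lit 0x210594000580400d82ca0000f02005c1650000681003d0b28000180801a059400008040004004001a0018b03402)))) 
(.nd (nat_lit 19) (.lf (nat_lit 3624304995) (dlOf (nat_lit 1) (nat_lit 0x60028154f01))) 
(.lf (nat_lit 3490611555) (dlOf (nat_lit 2) (nat_lit 0x9117801318080030008002c00200780008014f03))))))) 
(.nd (nat_lit 15) (.nd (nat_lit 24) (.nd (nat_lit 10) (.nd (nat_lit 9) (.nd (nat_lit 26) 
(.lf (nat_lit 3493724387) (dlOf (nat_lit 2) (nat_lit 0x18000000470181b0480))) 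
(.lf (nat_lit 2755526883) (dlOf (nat_lit 2) (nat_lit 0x18000000470181b0480)))) 
(.lf (nat_lit 8262371) (dlOf (nat_lit 1) (nat_lit 0x400200020008518c82)))) (.nd (nat_lit 8) 
(.lf (nat_lit 2754481379) (dlOf (nat_lit 2) (nat_lit 0xc00e000030080080008001c002001000080f6503))) 
(.lf (nat_lit 471733731) (dlOf (nat_lit 1) (nat_lit 0x80080004002000200083d9b03))))) 
(.nd (nat_lit 8) (.nd (nat_lit 9) 
(.lf (nat_lit 19792099) (dlOf (nat_lit 1) (nat_lit 0x200089d0a81))) 
(.lf (nat_lit 19798755) (dlOf (nat_lit 1) (nat_lit 0x4002000200089db982)))) (.nd (nat_lit 9) 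
(.nd (nat_lit 11) (.lf (nat_lit 21365219) (dlOf (nat_lit 1) (nat_lit 0x20018a37301))) 
(.lf (nat_lit 19794403) (dlOf (nat_lit 1) (nat_lit 0x100080018002000400089d4e83)))) 
(.lf (nat_lit 19794915) (dlOf (nat_lit 1) (nat_lit 0x4004000200089d5e82)))))) (.nd (nat_lit 29) 
(.nd (nat_lit 9) (.nd (nat_lit 22) 
(.lf (nat_lit 3221651939) (dlOf (nat_lit 8) (nat_lit 0x8702300001c0802381180000c04021c08c0000502011a046004c0228000101002881180000604024008c00160450000102009f023003d011400000080080004002e0018170c02))) 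
(.lf (nat_lit 21397987) (dlOf (nat_lit 1) (nat_lit 0x10400200020008a37302)))) (.nd (nat_lit 8) 
(.lf (nat_lit 8295139) (dlOf (nat_lit 1) (nat_lit 0x400200020008518c82))) 
(.lf (nat_lit 40272867) (dlOf (nat_lit 1) (nat_lit 0x1000291f2881))))) (.nd (nat_lit 30) 
(.nd (nat_lit 9) 
(.lf (nat_lit 805732835) (dlOf (nat_lit 10) (nat_lit 0x4d815802f00260001b04005e05500370090000501000e80480001a0402880ac00007020182056000028100be02b000010080620158000060403100ac000020201dc05600e800980000010045000800e8002001200081a0c03))) 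
(.lf (nat_lit 2751890403) (dlOf (nat_lit 1) (nat_lit 0x400400020018002882)))) (.nd (nat_lit 27) 
(.lf (nat_lit 1678148067) (dlOf (nat_lit 10) (nat_lit 0x4d815802f00260001b04005e05500370090000501000e80480001a0402880ac00007020182056000028100be02b000010080620158000060403100ac000020201dc05600e800980000010045000800e8002001200081a0c03))) 
(.lf (nat_lit 3959849443) (dlOf (nat_lit 8) (nat_lit 0x8702300001c0802381180000c04021c08c0000502011a046004c0228000101002881180000604024008c00160450000102009f023003d011400000080080004002e0018170c02))))))))) 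
(.nd (nat_lit 15) (.nd (nat_lit 19) (.nd (nat_lit 30) (.nd (nat_lit 6) (.nd (nat_lit 23) 
(.nd (nat_lit 26) (.nd (nat_lit 28) (.nd (nat_lit 29) 
(.lf (nat_lit 6442852387) (dlOf (nat_lit 1) (nat_lit 0x200181e0781))) 
(.lf (nat_lit 537272355) (dlOf (nat_lit 2) (nat_lit 0xc051000a01f800300c8001800e000120800040008070701)))) 
(.lf (nat_lit 805707811) (dlOf (nat_lit 1) (nat_lit 0x50008001c00200080008190883)))) 
(.nd (nat_lit 7) (.nd (nat_lit 28) 
(.lf (nat_lit 4496695331) (dlOf (nat_lit 3) (nat_lit 0x50188000980802880340001404009000400960008120182))) 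
(.lf (nat_lit 3154518051) (dlOf (nat_lit 2) (nat_lit 0x2d20288002c408006800800e4002002600081f0603)))) 
(.lf (nat_lit 738599075) (dlOf (nat_lit 1) (nat_lit 0x80080004002000200080c1403))))) 
(.nd (nat_lit 20) (.nd (nat_lit 21) 
(.lf (nat_lit 12984355) (dlOf (nat_lit 1) (nat_lit 0x400186f0781))) (.nd (nat_lit 22) 
(.lf (nat_lit 27664419) (dlOf (nat_lit 2) (nat_lit 0x3ac780011204000400400020018d10782))) 
(.lf (nat_lit 48635939) (dlOf (nat_lit 6) (nat_lit 0x100000002301000c69d80010c08045f57002480000004204001ad3b0001f0100020000000f0080028008000c00200020009420183))))) 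
(.nd (nat_lit 21) (.nd (nat_lit 24) 
(.lf (nat_lit 9838627) (dlOf (nat_lit 4) (nat_lit 0x3701cc01ba0dd80a086700008c0c04f439802421bb00c30ce004d00180204000000450a01d01cc00ef0dd80358670000700c01bc00200f00008580182))) 
(.lf (nat_lit 26615843) (dlOf (nat_lit 4) (nat_lit 0x2b11800158000003a0800aa9ea005a00000005820003a7a8000000800e8008008000200180008c50183)))) 
(.nd (nat_lit 8) (.nd (nat_lit 22) 
(.lf (nat_lit 11935779) (dlOf (nat_lit 3) (nat_lit 0x400e2a007cd02020c715003e58186c0000))) 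
(.lf (nat_lit 16130083) (dlOf (nat_lit 2) (nat_lit 0x50fae005460200100018870701)))) 
(.lf (nat_lit 28713251) (dlOf (nat_lit 1) (nat_lit 0x20008da0701))))))) (.nd (nat_lit 26) 
(.nd (nat_lit 20) (.nd (nat_lit 8) (.nd (nat_lit 29) 
(.lf (nat_lit 134619235) (dlOf (nat_lit 1) (nat_lit 0x3c00200060008090002))) 
(.lf (nat_lit 2818973795) (dlOf (nat_lit 1) (nat_lit 0x400400020018130282)))) 
(.lf (nat_lit 57025891) (dlOf (nat_lit 1) (nat_lit 0xbc00400740019793402)))) (.nd (nat_lit 7) 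
(.lf (nat_lit 26615907) (dlOf (nat_lit 4) (nat_lit 0x26d380009c02000969c0004b010006b4e0002140801880080028002000a0008c50d03))) 
(.lf (nat_lit 11935971) (dlOf (nat_lit 1) (nat_lit 0x4004000200186c0482))))) (.nd (nat_lit 7) 
(.nd (nat_lit 20) (.nd (nat_lit 27) 
(.lf (nat_lit 4362477667) (dlOf (nat_lit 1) (nat_lit 0x1c002000a0008090002))) 
(.lf (nat_lit 201728099) (dlOf (nat_lit 2) (nat_lit 0x6e03b0037e818090000)))) 
(.lf (nat_lit 1008083043) (dlOf (nat_lit 1) (nat_lit 0x200089c0901)))) (.nd (nat_lit 8) 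
(.lf (nat_lit 335948515) (dlOf (nat_lit 1) (nat_lit 0x200080e5981))) 
(.lf (nat_lit 4362478051) (dlOf (nat_lit 1) (nat_lit 0x5000200320008090c02))))))) (.nd (nat_lit 28) 
(.nd (nat_lit 27) (.nd (nat_lit 31) (.nd (nat_lit 7) 
(.lf (nat_lit 1678123043) (dlOf (nat_lit 2) (nat_lit 0x3c02b000400c80001c08000400400ae0018190802))) 
(.lf (nat_lit 1611014307) (dlOf (nat_lit 1) (nat_lit 0x80080008002000200080c1383)))) 
(.nd (nat_lit 29) 
(.lf (nat_lit 3221626915) (dlOf (nat_lit 2) (nat_lit 0x280bc0006a04003c00400220008160882))) 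
(.lf (nat_lit 3758497827) (dlOf (nat_lit 5) (nat_lit 0xf00c8014fa04002405c00a6c02001202d005358100080168029a008020000800e400200020008220683))))) 
(.nd (nat_lit 26) (.nd (nat_lit 29) 
(.lf (nat_lit 3355844643) (dlOf (nat_lit 2) (nat_lit 0xc015800184080070008000400200100008120503))) 
(.lf (nat_lit 3892715555) (dlOf (nat_lit 3) (nat_lit 0x34a05400050288044013002c8066000c00809e60540405028820901300ff4066055601602e40028002fc3005d80080104002009c00081d0603)))) 
(.lf (nat_lit 3959824419) (dlOf (nat_lit 4) (nat_lit 0x610178000b80803580bc006805c0002c0400dc02f0061017000000100010008001c002000c0008160803))))) 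
(.nd (nat_lit 26) (.nd (nat_lit 31) (.nd (nat_lit 20) 
(.lf (nat_lit 5637546019) (dlOf (nat_lit 9) (nat_lit 0x120026008f01200440074000c02800046080130026008c012003e805c01f402c0004508001e026001d01280068060000860c006804a00180180002102000d00c0000ec0800600600007204002c0480022019001c00c0000e0180090060000660400ec004004c0008100182))) 
(.lf (nat_lit 1880498211) (dlOf (nat_lit 1) (nat_lit 0x80080004002000200089a0183)))) 
(.nd (nat_lit 10) 
(.lf (nat_lit 3494256675) (dlOf (nat_lit 3) (nat_lit 0x100390000301000801c8000040800380080008002000c00081e0783))) 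
(.lf (nat_lit 3624283171) (dlOf (nat_lit 1) (nat_lit 0x20028146081))))) (.nd (nat_lit 27) 
(.nd (nat_lit 29) 
(.lf (nat_lit 1409687587) (dlOf (nat_lit 2) (nat_lit 0xc051000a01f800300c8001800e000250800040008070701))) 
(.lf (nat_lit 6241525795) (dlOf (nat_lit 9) (nat_lit 0x120027008f01280440074000c02600046080130027008c012803e805c01f402a0004508001e027001d01300068060000860c006804c00180180002102000d00c0000ec0800600600007204002c04a0022019001c00c0000e0180090060000660400ec004004c0008100182)))) 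
(.nd (nat_lit 6) 
(.lf (nat_lit 5838872611) (dlOf (nat_lit 3) (nat_lit 0x2c0340001301002d01a00000008082000802e4002001800081e0883))) 
(.lf (nat_lit 4228260323) (dlOf (nat_lit 1) (nat_lit 0x5000200320008090c02)))))))) (.nd (nat_lit 7) 
(.nd (nat_lit 20) (.nd (nat_lit 6) (.nd (nat_lit 23) (.nd (nat_lit 26) 
(.lf (nat_lit 2819498019) (dlOf (nat_lit 1) (nat_lit 0x2c00282b0681))) 
(.lf (nat_lit 3557695523) (dlOf (nat_lit 1) (nat_lit 0x2c00282b0681)))) 
(.lf (nat_lit 9314339) (dlOf (nat_lit 3) (nat_lit 0x1077c000aa0400043be000370200140028540801)))) 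
(.nd (nat_lit 29) 
(.lf (nat_lit 470687843) (dlOf (nat_lit 1) (nat_lit 0x8008000400200020008150283))) 
(.lf (nat_lit 6376267875) (dlOf (nat_lit 1) (nat_lit 0x400400020008090102))))) (.nd (nat_lit 21) 
(.nd (nat_lit 6) (.nd (nat_lit 24) 
(.lf (nat_lit 39723043) (dlOf (nat_lit 3) (nat_lit 0xbaa9000c5538004a9b00002283006f4d80000f80800100080018002000200091d0183))) 
(.lf (nat_lit 22945827) (dlOf (nat_lit 1) (nat_lit 0x6b000803ec002004c0008b40503)))) 
(.lf (nat_lit 1344156771) (dlOf (nat_lit 1) (nat_lit 0x400083d9401)))) (.nd (nat_lit 8) 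
(.nd (nat_lit 23) (.lf (nat_lit 4071459) (dlOf (nat_lit 2) (nat_lit 0x88c2001f80200020018270901))) 
(.lf (nat_lit 29237283) (dlOf (nat_lit 1) (nat_lit 0x3220028de0601)))) (.nd (nat_lit 6) 
(.lf (nat_lit 2755535139) (dlOf (nat_lit 1) (nat_lit 0x10008001c002000200081b0503))) 
(.lf (nat_lit 2755535203) (dlOf (nat_lit 2) (nat_lit 0x62051000d0228000d01000480080018002004c00081b0703))))))) 
(.nd (nat_lit 6) (.nd (nat_lit 8) (.nd (nat_lit 9) (.nd (nat_lit 26) 
(.lf (nat_lit 3491635363) (dlOf (nat_lit 1) (nat_lit 0x20028090201))) 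
(.lf (nat_lit 2753437859) (dlOf (nat_lit 1) (nat_lit 0x20028090201)))) 
(.lf (nat_lit 19800739) (dlOf (nat_lit 1) (nat_lit 0x1800189d1c81)))) (.nd (nat_lit 10) 
(.lf (nat_lit 3490587043) (dlOf (nat_lit 1) (nat_lit 0x328008001800200720008016b83))) 
(.lf (nat_lit 8267171) (dlOf (nat_lit 1) (nat_lit 0x20018513601))))) (.nd (nat_lit 8) 
(.nd (nat_lit 9) 
(.lf (nat_lit 3493732579) (dlOf (nat_lit 2) (nat_lit 0x540000008e02001000181b0481))) 
(.lf (nat_lit 8270563) (dlOf (nat_lit 1) (nat_lit 0x400200020008518c82)))) (.nd (nat_lit 10) 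
(.nd (nat_lit 21) 
(.lf (nat_lit 6376270307) (dlOf (nat_lit 1) (nat_lit 0x80080074002002a0008094e83))) 
(.lf (nat_lit 19802595) (dlOf (nat_lit 1) (nat_lit 0x800289d4e81)))) 
(.lf (nat_lit 19803619) (dlOf (nat_lit 1) (nat_lit 0x3c004003c00089d6e02)))))))) (.nd (nat_lit 21) 
(.nd (nat_lit 8) (.nd (nat_lit 20) (.nd (nat_lit 29) (.nd (nat_lit 7) (.nd (nat_lit 10) 
(.lf (nat_lit 1074176035) (dlOf (nat_lit 5) (nat_lit 0x6805200158020018029000ab8100210148005500800080a4002a4040044004005600180d0902))) 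
(.lf (nat_lit 38183971) (dlOf (nat_lit 1) (nat_lit 0x20019132881)))) 
(.lf (nat_lit 54960291) (dlOf (nat_lit 1) (nat_lit 0xc0019681401)))) (.nd (nat_lit 6) 
(.lf (nat_lit 1946591267) (dlOf (nat_lit 5) (nat_lit 0x680520015d020018029000ae0100210148005640800080a4002ae040044004005600180d0902))) 
(.nd (nat_lit 27) (.lf (nat_lit 805740643) (dlOf (nat_lit 1) (nat_lit 0x800281a0001))) 
(.lf (nat_lit 2819006563) (dlOf (nat_lit 12) (nat_lit 0xf40000004e0100830000002580803b80000011a0401f40000008502008607200a702180390070000fa0c01100e40158043001701b000600b001dc0380007c0a000c0430003d0100ae02180380070000ea0800100860007402008a07200aa02180360070000e60c0028086000000200160028150d01)))))) 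
(.nd (nat_lit 22) (.nd (nat_lit 6) 
(.lf (nat_lit 26648611) (dlOf (nat_lit 7) (nat_lit 0x3e723a021588200d6ad6807c51a4000161003af23a01f788200ccad68077d1a40001410001ab5a00d146900004820082ad6806fd1a40001008030323a01538820116ad680001c180766474037710401a35ad0036ad58063d1a40000014001000400120018c50182))) 
(.lf (nat_lit 1343660131) (dlOf (nat_lit 6) (nat_lit 0x282c2001209d00050470007101800102740032a04000813a000208e000bc82000d0b080068274004c11c0017706000609d00010470005c81000480080014002000200082e0483)))) 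
(.nd (nat_lit 19) (.lf (nat_lit 56008739) (dlOf (nat_lit 1) (nat_lit 0x3c800200ec0009710182))) 
(.lf (nat_lit 14589987) (dlOf (nat_lit 2) (nat_lit 0x2e6640001d0200040028770181)))))) 
(.nd (nat_lit 6) (.nd (nat_lit 7) (.nd (nat_lit 10) 
(.lf (nat_lit 537829667) (dlOf (nat_lit 1) (nat_lit 0x200080054002000c00081b0503))) 
(.lf (nat_lit 8828195) (dlOf (nat_lit 2) (nat_lit 0x2dc90000d018519780)))) (.nd (nat_lit 10) 
(.lf (nat_lit 3490619811) (dlOf (nat_lit 1) (nat_lit 0x400200020008016b82))) 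
(.lf (nat_lit 4026969507) (dlOf (nat_lit 2) (nat_lit 0x80ac00000040014004002000080f6d02))))) 
(.nd (nat_lit 7) (.nd (nat_lit 11) 
(.lf (nat_lit 3624313187) (dlOf (nat_lit 3) (nat_lit 0x810400962040110082004b00200080008154f01))) 
(.lf (nat_lit 38185315) (dlOf (nat_lit 1) (nat_lit 0x8008000400200020009134e83)))) (.nd (nat_lit 9) 
(.nd (nat_lit 26) (.lf (nat_lit 3221660131) (dlOf (nat_lit 1) (nat_lit 0x200028170c01))) 
(.lf (nat_lit 3959857635) (dlOf (nat_lit 1) (nat_lit 0x200028170c01)))) 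
(.lf (nat_lit 2751898595) (dlOf (nat_lit 1) (nat_lit 0x400200020008002882))))))) (.nd (nat_lit 7) 
(.nd (nat_lit 19) (.nd (nat_lit 6) (.nd (nat_lit 22) 
(.lf (nat_lit 10919971) (dlOf (nat_lit 1) (nat_lit 0x1c00400040008640782))) 
(.lf (nat_lit 48668707) (dlOf (nat_lit 2) (nat_lit 0x2c0f80001f019420180)))) 
(.lf (nat_lit 44475491) (dlOf (nat_lit 1) (nat_lit 0x20029322981)))) (.nd (nat_lit 20) 
(.nd (nat_lit 23) (.lf (nat_lit 53387299) (dlOf (nat_lit 2) (nat_lit 0x84b1000178195b0180))) 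
(.lf (nat_lit 11444259) (dlOf (nat_lit 2) (nat_lit 0x61358000480800280080004002000a00086a0703)))) 
(.nd (nat_lit 6) (.lf (nat_lit 473866275) (dlOf (nat_lit 1) (nat_lit 0x8000400040008fc0182))) 
(.lf (nat_lit 473866339) (dlOf (nat_lit 1) (nat_lit 0x8008000400200020008fc0903)))))) 
(.nd (nat_lit 9) (.nd (nat_lit 6) (.nd (nat_lit 19) 
(.lf (nat_lit 41329827) (dlOf (nat_lit 1) (nat_lit 0x400400020009242c02))) 
(.lf (nat_lit 41854115) (dlOf (nat_lit 1) (nat_lit 0x400400020009242c02)))) 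
(.lf (nat_lit 8299747) (dlOf (nat_lit 1) (nat_lit 0x400200020008512e02)))) (.nd (nat_lit 11) 
(.nd (nat_lit 6) (.lf (nat_lit 19837859) (dlOf (nat_lit 1) (nat_lit 0x4004000200089d9102))) 
(.lf (nat_lit 8303331) (dlOf (nat_lit 1) (nat_lit 0x8008000400200020008518c83)))) (.nd (nat_lit 10) 
(.lf (nat_lit 62302883) (dlOf (nat_lit 1) (nat_lit 0x200199a5601))) 
(.lf (nat_lit 20360867) (dlOf (nat_lit 1) (nat_lit 0x1800089d7201)))))))))) (.nd (nat_lit 13) 
(.nd (nat_lit 19) (.nd (nat_lit 26) (.nd (nat_lit 15) (.nd (nat_lit 21) (.nd (nat_lit 29) 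
(.nd (nat_lit 24) (.nd (nat_lit 6) (.nd (nat_lit 27) 
(.lf (nat_lit 1074200611) (dlOf (nat_lit 4) (nat_lit 0x5c05200158020010029000ab81001e0148005500800a800800a4002000e00080d0903))) 
(.lf (nat_lit 134676515) (dlOf (nat_lit 1) (nat_lit 0x800801c400200a60008090003)))) 
(.lf (nat_lit 3490123107) (dlOf (nat_lit 1) (nat_lit 0x80028006a81)))) (.nd (nat_lit 20) 
(.lf (nat_lit 29818915) (dlOf (nat_lit 1) (nat_lit 0x400200020008e30002))) (.nd (nat_lit 22) 
(.lf (nat_lit 26673187) (dlOf (nat_lit 5) (nat_lit 0x9300000002c080500000000140400f80000000702007200000000018c50180))) 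
(.lf (nat_lit 56033315) (dlOf (nat_lit 1) (nat_lit 0xc00200020009710182)))))) (.nd (nat_lit 30) 
(.nd (nat_lit 6) (.nd (nat_lit 27) 
(.lf (nat_lit 537329699) (dlOf (nat_lit 1) (nat_lit 0xa0008090001))) 
(.lf (nat_lit 2819031075) (dlOf (nat_lit 1) (nat_lit 0x800200060008150182)))) 
(.lf (nat_lit 805765475) (dlOf (nat_lit 1) (nat_lit 0x8002001400081a0702)))) (.nd (nat_lit 32) 
(.lf (nat_lit 1611071523) (dlOf (nat_lit 6) (nat_lit 0xa006a000270200100350001301000802a80007c0801001540002404001c0aa0001102000200280d0181))) 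
(.lf (nat_lit 5906038819) (dlOf (nat_lit 1) (nat_lit 0x2800200060008180502)))))) (.nd (nat_lit 6) 
(.nd (nat_lit 7) (.nd (nat_lit 22) 
(.lf (nat_lit 11993123) (dlOf (nat_lit 1) (nat_lit 0x1c004000400086c0002))) 
(.lf (nat_lit 24576035) (dlOf (nat_lit 1) (nat_lit 0x20028ba0a01)))) 
(.lf (nat_lit 44501667) (dlOf (nat_lit 1) (nat_lit 0x4e0009325601)))) (.nd (nat_lit 7) 
(.lf (nat_lit 11993443) (dlOf (nat_lit 2) (nat_lit 0x989400068040050002000400086c0702))) 
(.nd (nat_lit 8) (.lf (nat_lit 23527651) (dlOf (nat_lit 1) (nat_lit 0x20018b80481))) 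
(.lf (nat_lit 57084387) (dlOf (nat_lit 1) (nat_lit 0x400400020009794e82))))))) (.nd (nat_lit 6) 
(.nd (nat_lit 30) (.nd (nat_lit 20) (.nd (nat_lit 21) 
(.lf (nat_lit 55017507) (dlOf (nat_lit 1) (nat_lit 0x140029690181))) 
(.lf (nat_lit 27754531) (dlOf (nat_lit 1) (nat_lit 0x400400060008d20682)))) (.nd (nat_lit 21) 
(.lf (nat_lit 1540131) (dlOf (nat_lit 2) (nat_lit 0x4000000130180e0c00))) 
(.lf (nat_lit 3637283) (dlOf (nat_lit 1) (nat_lit 0xd80080084002000a0008210903))))) 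
(.nd (nat_lit 28) (.nd (nat_lit 7) 
(.lf (nat_lit 1611104291) (dlOf (nat_lit 6) (nat_lit 0x140500013010000034100098080000180400580400000a02002802000004810006028000980800000a0800e8004008200080e0882))) 
(.lf (nat_lit 1074237091) (dlOf (nat_lit 1) (nat_lit 0x200280f7201)))) (.nd (nat_lit 8) 
(.lf (nat_lit 3492249635) (dlOf (nat_lit 1) (nat_lit 0x600280b0b81))) 
(.lf (nat_lit 4027023651) (dlOf (nat_lit 1) (nat_lit 0x25e00081b0501)))))) (.nd (nat_lit 10) 
(.nd (nat_lit 8) (.nd (nat_lit 21) 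
(.lf (nat_lit 42434659) (dlOf (nat_lit 1) (nat_lit 0x160029251981))) 
(.lf (nat_lit 31948899) (dlOf (nat_lit 1) (nat_lit 0x20008000400200020008eb0903)))) 
(.lf (nat_lit 4027023715) (dlOf (nat_lit 1) (nat_lit 0x100080004002000400081b0703)))) 
(.nd (nat_lit 7) (.lf (nat_lit 3490155875) (dlOf (nat_lit 1) (nat_lit 0x20018006a81))) 
(.nd (nat_lit 9) (.lf (nat_lit 497123) (dlOf (nat_lit 1) (nat_lit 0x640008009b01))) 
(.lf (nat_lit 493539) (dlOf (nat_lit 1) (nat_lit 0x20018004581)))))))) (.nd (nat_lit 30) 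
(.nd (nat_lit 27) (.nd (nat_lit 6) (.nd (nat_lit 15) (.nd (nat_lit 31) 
(.lf (nat_lit 4362534947) (dlOf (nat_lit 3) (nat_lit 0x28c066007cd020146033003e5818090000))) 
(.lf (nat_lit 6510018595) (dlOf (nat_lit 1) (nat_lit 0x2800200060008180502)))) 
(.lf (nat_lit 2754052131) (dlOf (nat_lit 1) (nat_lit 0x200280b0a81)))) (.nd (nat_lit 7) 
(.lf (nat_lit 4362535267) (dlOf (nat_lit 1) (nat_lit 0x20008090701))) (.nd (nat_lit 8) 
(.lf (nat_lit 4362535139) (dlOf (nat_lit 1) (nat_lit 0x20018090481))) 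
(.lf (nat_lit 2751923171) (dlOf (nat_lit 1) (nat_lit 0x18008000400200020008002883)))))) 
(.nd (nat_lit 15) (.nd (nat_lit 28) (.nd (nat_lit 29) 
(.lf (nat_lit 201785379) (dlOf (nat_lit 3) (nat_lit 0xc041004a281004602080250c08005000800e4002004c0008090003))) 
(.lf (nat_lit 738656291) (dlOf (nat_lit 6) (nat_lit 0xa006a000270200100350001301000802a80007c0801001540002404001c0aa0001102000200280d0181)))) 
(.nd (nat_lit 6) 
(.lf (nat_lit 1007091747) (dlOf (nat_lit 3) (nat_lit 0x10088002400000024040002132000407c800d834c00d00da000201800020000000743000c0008038000200260008170183))) 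
(.lf (nat_lit 1007091811) (dlOf (nat_lit 4) (nat_lit 0x10770005340800401ec001b204000c0f6000d80200080028170d01))))) 
(.nd (nat_lit 7) (.nd (nat_lit 28) 
(.lf (nat_lit 738689059) (dlOf (nat_lit 6) (nat_lit 0x260200001001000a028000980800003e0800580400001d0200280200000e01000602800098080000300800e8004008200080e0882))) 
(.lf (nat_lit 470253603) (dlOf (nat_lit 1) (nat_lit 0x200080c0001)))) 
(.lf (nat_lit 2886172835) (dlOf (nat_lit 2) (nat_lit 0xe01c00257018184600)))))) (.nd (nat_lit 6) 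
(.nd (nat_lit 28) (.nd (nat_lit 8) (.nd (nat_lit 15) 
(.lf (nat_lit 1678180387) (dlOf (nat_lit 3) (nat_lit 0x2300560018029804a004c00f9a0c04680ac000a0530094009801f2c1800f0008007c002001400081a0003))) 
(.lf (nat_lit 3959914531) (dlOf (nat_lit 3) (nat_lit 0x10b0230030810c0020084007cd06021804600130218000810800f960c006c00400200018170002)))) 
(.lf (nat_lit 3288826147) (dlOf (nat_lit 1) (nat_lit 0x25e00081b0501)))) (.nd (nat_lit 7) 
(.nd (nat_lit 27) (.nd (nat_lit 29) 
(.lf (nat_lit 3557228579) (dlOf (nat_lit 1) (nat_lit 0x1400400020008170182))) 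
(.lf (nat_lit 1946615843) (dlOf (nat_lit 4) (nat_lit 0x5c0520015d020010029000ae01001e0148005640800a800800a4002000e00080d0903)))) 
(.lf (nat_lit 4228317219) (dlOf (nat_lit 1) (nat_lit 0x8008000400200020008090003)))) 
(.lf (nat_lit 4095148195) (dlOf (nat_lit 1) (nat_lit 0x60018062b81))))) (.nd (nat_lit 8) 
(.nd (nat_lit 7) (.lf (nat_lit 3557228643) (dlOf (nat_lit 1) (nat_lit 0xa0008170d01))) 
(.lf (nat_lit 4228317411) (dlOf (nat_lit 1) (nat_lit 0x20018090481)))) (.nd (nat_lit 15) 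
(.nd (nat_lit 27) (.lf (nat_lit 1678180707) (dlOf (nat_lit 1) (nat_lit 0x8002001400081a0702))) 
(.lf (nat_lit 4228317539) (dlOf (nat_lit 1) (nat_lit 0x20008090701)))) 
(.lf (nat_lit 3288826211) (dlOf (nat_lit 1) (nat_lit 0x100080004002000400081b0703)))))))) 
(.nd (nat_lit 7) (.nd (nat_lit 21) (.nd (nat_lit 15) (.nd (nat_lit 20) (.nd (nat_lit 22) 
(.nd (nat_lit 6) 
(.lf (nat_lit 470745123) (dlOf (nat_lit 3) (nat_lit 0x1210e8003866c0004808002c336000230200020028170181))) 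
(.lf (nat_lit 470745187) (dlOf (nat_lit 8) (nat_lit 0xc0af001104c8005801000a026000141100016033000a683000b1028004ec0800180e00027204000c16600020ab000304b80018218000c0ec000d90a00021a200030598001025c001010c00080760006c0500040578003340801900080170002009e0008170d03)))) 
(.nd (nat_lit 23) 
(.lf (nat_lit 5177379) (dlOf (nat_lit 2) (nat_lit 0x8db03802dd7ee0092a7800025330002c4200068008001400200760008320603))) 
(.lf (nat_lit 13565987) (dlOf (nat_lit 2) (nat_lit 0x1e8864002ae04000400200020008730902))))) 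
(.nd (nat_lit 23) (.lf (nat_lit 23003171) (dlOf (nat_lit 1) (nat_lit 0x8008000400200020008b40503))) 
(.lf (nat_lit 14614563) (dlOf (nat_lit 3) (nat_lit 0x8bc6a004400000002c1000600000000e04001c00200020008770182))))) 
(.nd (nat_lit 6) (.nd (nat_lit 8) (.nd (nat_lit 20) 
(.lf (nat_lit 1343193123) (dlOf (nat_lit 3) (nat_lit 0x50b180008008007058c0003a04003000400040018190182))) 
(.lf (nat_lit 14647331) (dlOf (nat_lit 3) (nat_lit 0x1466fd0001201008b37e80008c080370008009000200660008770183)))) 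
(.lf (nat_lit 18841891) (dlOf (nat_lit 1) (nat_lit 0x400400020008970702)))) (.nd (nat_lit 8) 
(.nd (nat_lit 20) (.lf (nat_lit 1343193187) (dlOf (nat_lit 1) (nat_lit 0x60028190d01))) 
(.lf (nat_lit 14647395) (dlOf (nat_lit 2) (nat_lit 0x6a3a0000580080028008004c00200220008770d03)))) 
(.lf (nat_lit 3490677091) (dlOf (nat_lit 2) (nat_lit 0xb445e004c60200020008014f01)))))) 
(.nd (nat_lit 8) (.nd (nat_lit 12) (.nd (nat_lit 15) (.nd (nat_lit 20) 
(.lf (nat_lit 4096720931) (dlOf (nat_lit 1) (nat_lit 0x400400020008160482))) 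
(.lf (nat_lit 473890851) (dlOf (nat_lit 10) (nat_lit 0x1981b2000270200a40d9000130100990a1803104ec013427200d80cd0000704001d0a1800034080078334000180400282860000b0200d0143000909d80250334000140c00bc286000090200b2143001309d800e8334000000c004400400180008fc0182)))) 
(.lf (nat_lit 16744483) (dlOf (nat_lit 1) (nat_lit 0x80080004002000200088e0003)))) (.nd (nat_lit 6) 
(.lf (nat_lit 8329763) (dlOf (nat_lit 1) (nat_lit 0x800800040020002000851b283))) 
(.lf (nat_lit 19894371) (dlOf (nat_lit 1) (nat_lit 0x200189d7d81))))) (.nd (nat_lit 9) 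
(.nd (nat_lit 6) (.lf (nat_lit 3080483) (dlOf (nat_lit 1) (nat_lit 0x120008200501))) 
(.lf (nat_lit 8329571) (dlOf (nat_lit 1) (nat_lit 0x40020002000851ab82)))) (.nd (nat_lit 10) 
(.lf (nat_lit 19893027) (dlOf (nat_lit 1) (nat_lit 0x4002000200089d5c02))) (.nd (nat_lit 11) 
(.lf (nat_lit 3492742947) (dlOf (nat_lit 1) (nat_lit 0x1c00280f3d01))) 
(.lf (nat_lit 19861283) (dlOf (nat_lit 1) (nat_lit 0x6f0008032800201ea00089d7483)))))))) 
(.nd (nat_lit 9) (.nd (nat_lit 10) (.nd (nat_lit 28) (.nd (nat_lit 6) 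
(.lf (nat_lit 24051875) (dlOf (nat_lit 1) (nat_lit 0x90008002c00200320008b80203))) 
(.lf (nat_lit 3080419) (dlOf (nat_lit 1) (nat_lit 0x20018200481)))) (.nd (nat_lit 8) 
(.lf (nat_lit 3493789859) (dlOf (nat_lit 1) (nat_lit 0x600181b0201))) 
(.lf (nat_lit 3490644387) (dlOf (nat_lit 1) (nat_lit 0x750008000400200d60008016b83))))) 
(.nd (nat_lit 6) (.nd (nat_lit 8) (.nd (nat_lit 12) 
(.lf (nat_lit 36668579) (dlOf (nat_lit 1) (nat_lit 0x400200040009072c02))) 
(.lf (nat_lit 8328355) (dlOf (nat_lit 1) (nat_lit 0xb000200080008519502)))) 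
(.lf (nat_lit 2754551203) (dlOf (nat_lit 1) (nat_lit 0x4002000200080fcb02)))) (.nd (nat_lit 11) 
(.lf (nat_lit 5772379363) (dlOf (nat_lit 1) (nat_lit 0x20018092e01))) 
(.lf (nat_lit 19864803) (dlOf (nat_lit 1) (nat_lit 0x80080004002000200089dc583)))))) 
(.nd (nat_lit 8) (.nd (nat_lit 6) (.nd (nat_lit 15) 
(.lf (nat_lit 62851747) (dlOf (nat_lit 1) (nat_lit 0x200299a5601))) 
(.lf (nat_lit 36670115) (dlOf (nat_lit 1) (nat_lit 0x800200060009075602)))) (.nd (nat_lit 10) 
(.nd (nat_lit 11) (.lf (nat_lit 8327907) (dlOf (nat_lit 1) (nat_lit 0x8008000400200020008518c83))) 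
(.lf (nat_lit 19897059) (dlOf (nat_lit 1) (nat_lit 0x4002000200089db982)))) 
(.lf (nat_lit 3492742883) (dlOf (nat_lit 1) (nat_lit 0x400180f3a81))))) (.nd (nat_lit 15) 
(.nd (nat_lit 20) (.lf (nat_lit 3492742115) (dlOf (nat_lit 1) (nat_lit 0x10002000200080f2882))) 
(.lf (nat_lit 50267107) (dlOf (nat_lit 1) (nat_lit 0x48008006c002000800094c2883)))) 
(.nd (nat_lit 10) (.lf (nat_lit 3492774883) (dlOf (nat_lit 1) (nat_lit 0x4002000200080f2882))) 
(.lf (nat_lit 3492775907) (dlOf (nat_lit 1) (nat_lit 0x1580080004002002800080f4583))))))))) 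
(.nd (nat_lit 19) (.nd (nat_lit 28) (.nd (nat_lit 24) (.nd (nat_lit 26) (.nd (nat_lit 20) 
(.nd (nat_lit 21) (.nd (nat_lit 8) 
(.lf (nat_lit 537337891) (dlOf (nat_lit 1) (nat_lit 0x8008000400200060008090003))) 
(.lf (nat_lit 8860963) (dlOf (nat_lit 1) (nat_lit 0x1800200020008519782)))) (.nd (nat_lit 15) 
(.nd (nat_lit 22) (.lf (nat_lit 36118563) (dlOf (nat_lit 2) (nat_lit 0x667b00023019030180))) 
(.lf (nat_lit 15147043) (dlOf (nat_lit 2) (nat_lit 0x175a190005f8187c0600)))) 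
(.lf (nat_lit 36151331) (dlOf (nat_lit 2) (nat_lit 0x123fa00023019030180))))) (.nd (nat_lit 21) 
(.nd (nat_lit 23) 
(.lf (nat_lit 1515555) (dlOf (nat_lit 3) (nat_lit 0x480000004c0400640000002502001c00180e0c01))) 
(.lf (nat_lit 9904163) (dlOf (nat_lit 1) (nat_lit 0x720028590881)))) (.nd (nat_lit 22) 
(.lf (nat_lit 37167139) (dlOf (nat_lit 1) (nat_lit 0x4004000200090b0182))) 
(.lf (nat_lit 49750051) (dlOf (nat_lit 2) (nat_lit 0xf07f80004502000200094a0181)))))) 
(.nd (nat_lit 6) (.nd (nat_lit 15) (.nd (nat_lit 29) 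
(.lf (nat_lit 4362543139) (dlOf (nat_lit 3) (nat_lit 0x418066007cd02020c033003e5818090000))) 
(.lf (nat_lit 1678188579) (dlOf (nat_lit 3) (nat_lit 0x83015800100a6000a013003e683010702b0002814c0020026007cb06000400181a0001)))) 
(.nd (nat_lit 8) 
(.lf (nat_lit 3959922723) (dlOf (nat_lit 3) (nat_lit 0x8401180400086015a042008b020001f3420081811804140860156042008c020001f2c200030008003c002000c0008170003))) 
(.lf (nat_lit 1678221603) (dlOf (nat_lit 1) (nat_lit 0x1080080028002005e00081a0503))))) 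
(.nd (nat_lit 8) 
(.lf (nat_lit 3288807523) (dlOf (nat_lit 1) (nat_lit 0x80080008002000200080fa803))) 
(.lf (nat_lit 1678188899) (dlOf (nat_lit 1) (nat_lit 0x600181a0701)))))) (.nd (nat_lit 25) 
(.nd (nat_lit 6) (.nd (nat_lit 15) 
(.lf (nat_lit 21438499) (dlOf (nat_lit 2) (nat_lit 0x3100000008a04000400200020008a40182))) 
(.nd (nat_lit 23) 
(.lf (nat_lit 21471267) (dlOf (nat_lit 2) (nat_lit 0x12c008000450200020018a40181))) 
(.lf (nat_lit 29859875) (dlOf (nat_lit 1) (nat_lit 0x400200020008e30002))))) (.nd (nat_lit 8) 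
(.lf (nat_lit 17244259) (dlOf (nat_lit 1) (nat_lit 0x4004000200088e0482))) 
(.lf (nat_lit 23535971) (dlOf (nat_lit 1) (nat_lit 0x23800400a60008b80702))))) (.nd (nat_lit 9) 
(.nd (nat_lit 7) (.lf (nat_lit 55025699) (dlOf (nat_lit 2) (nat_lit 0x603c0002b019690180))) 
(.lf (nat_lit 54993059) (dlOf (nat_lit 1) (nat_lit 0x40009681401)))) (.nd (nat_lit 21) 
(.lf (nat_lit 51849891) (dlOf (nat_lit 1) (nat_lit 0xa0019515601))) 
(.lf (nat_lit 53947043) (dlOf (nat_lit 1) (nat_lit 0x600080048002000e00095f5603))))))) 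
(.nd (nat_lit 6) (.nd (nat_lit 27) (.nd (nat_lit 29) (.nd (nat_lit 9) 
(.lf (nat_lit 3557236771) (dlOf (nat_lit 3) (nat_lit 0x1c0050001201000a002800074080170008001000200260008170183))) 
(.lf (nat_lit 1345790499) (dlOf (nat_lit 1) (nat_lit 0x20002001a0008de8702)))) (.nd (nat_lit 8) 
(.lf (nat_lit 1879515171) (dlOf (nat_lit 3) (nat_lit 0x10088002400000024040002139000407c800d834800d00e4000201700020000000743000c0008038000200260008190183))) 
(.lf (nat_lit 805806371) (dlOf (nat_lit 1) (nat_lit 0x1080080028002005e00081a0503))))) 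
(.nd (nat_lit 15) (.nd (nat_lit 7) (.nd (nat_lit 29) 
(.lf (nat_lit 470229027) (dlOf (nat_lit 1) (nat_lit 0x4002000200080b0802))) 
(.lf (nat_lit 4228325411) (dlOf (nat_lit 1) (nat_lit 0x2e80080004002001e0008090003)))) 
(.lf (nat_lit 472328611) (dlOf (nat_lit 1) (nat_lit 0x10008001000200040008984e83)))) 
(.nd (nat_lit 20) (.lf (nat_lit 1007132707) (dlOf (nat_lit 1) (nat_lit 0xc004000400081c0602))) 
(.lf (nat_lit 471310371) (dlOf (nat_lit 1) (nat_lit 0x200082e0001)))))) (.nd (nat_lit 7) 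
(.nd (nat_lit 8) (.nd (nat_lit 26) 
(.lf (nat_lit 1879515235) (dlOf (nat_lit 4) (nat_lit 0x1077000534080040200001b204000c100000d80200080028190d01))) 
(.lf (nat_lit 3557236835) (dlOf (nat_lit 6) (nat_lit 0xf0014004000600540000004e030016002800a000c00c4000000960600260050011001801580000011a0c00440000008c0200340050019001801100000010a0c02c800200120008170d02)))) 
(.nd (nat_lit 27) (.nd (nat_lit 29) 
(.lf (nat_lit 2416386403) (dlOf (nat_lit 1) (nat_lit 0x1680080034002004e00081b0703))) 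
(.lf (nat_lit 805773667) (dlOf (nat_lit 1) (nat_lit 0x600181a0701)))) 
(.lf (nat_lit 2550604131) (dlOf (nat_lit 1) (nat_lit 0x1680080034002004e00081b0703))))) 
(.nd (nat_lit 9) (.nd (nat_lit 27) 
(.lf (nat_lit 2416386275) (dlOf (nat_lit 1) (nat_lit 0x200281b0481))) 
(.lf (nat_lit 2550604003) (dlOf (nat_lit 1) (nat_lit 0x200281b0481)))) 
(.lf (nat_lit 1476897507) (dlOf (nat_lit 4) (nat_lit 0x1020000c80f40018068002202a000f01000060030002001200340000001f880001006000100000007a08000407a000a03400180000000001801480080018002002400082d5983))))))) 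
(.nd (nat_lit 21) (.nd (nat_lit 15) (.nd (nat_lit 6) (.nd (nat_lit 22) (.nd (nat_lit 8) 
(.nd (nat_lit 23) 
(.lf (nat_lit 470753315) (dlOf (nat_lit 3) (nat_lit 0xa0ae0000800800585700003a04004c00400020008170182))) 
(.lf (nat_lit 59711523) (dlOf (nat_lit 3) (nat_lit 0x2d0e200967e0000138200033f000009e440004c08000400200020009820182)))) 
(.lf (nat_lit 2040099) (dlOf (nat_lit 1) (nat_lit 0x600080014002000a0008150503)))) (.nd (nat_lit 7) 
(.nd (nat_lit 23) (.lf (nat_lit 23011363) (dlOf (nat_lit 2) (nat_lit 0xe11a0001b018b40500))) 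
(.lf (nat_lit 14622755) (dlOf (nat_lit 1) (nat_lit 0x80080004002001c0008770183)))) 
(.lf (nat_lit 31401123) (dlOf (nat_lit 1) (nat_lit 0x800400020008e92c02))))) (.nd (nat_lit 28) 
(.nd (nat_lit 7) (.lf (nat_lit 30351459) (dlOf (nat_lit 1) (nat_lit 0x400400020008e30482))) 
(.lf (nat_lit 34546659) (dlOf (nat_lit 1) (nat_lit 0x20018fb2881)))) (.nd (nat_lit 26) 
(.lf (nat_lit 1880039523) (dlOf (nat_lit 1) (nat_lit 0x400200020008540d02))) 
(.lf (nat_lit 470753379) (dlOf (nat_lit 1) (nat_lit 0x20018170d01)))))) (.nd (nat_lit 8) 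
(.nd (nat_lit 23) (.nd (nat_lit 6) (.nd (nat_lit 26) 
(.lf (nat_lit 1343201315) (dlOf (nat_lit 1) (nat_lit 0x60028190181))) 
(.lf (nat_lit 68132899) (dlOf (nat_lit 2) (nat_lit 0x503700003a04000400400040018400182)))) 
(.lf (nat_lit 1343201379) (dlOf (nat_lit 1) (nat_lit 0x2400400020008190d02)))) (.nd (nat_lit 20) 
(.lf (nat_lit 13606947) (dlOf (nat_lit 21) (nat_lit 0x98168007880800a70cc001a842001cd040289bd3000ad010046e30003f6f4c002b008014b8c00235bd3000ab820135de98005500801aef4c002a404009b7a60014802027fbd3000a2010002de980050c080a9ef4c0028404052b7a600141020281bd30009e810045de98004f0080a56f4c0027404001f7a60013902000bc600146de98004e01007a6f4c0026e0400078c0028dbd30009a8200eede98004d00802280080044002001a0008730903))) 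
(.lf (nat_lit 10461219) (dlOf (nat_lit 1) (nat_lit 0x200285e0c01))))) (.nd (nat_lit 6) 
(.nd (nat_lit 7) (.lf (nat_lit 2752487715) (dlOf (nat_lit 1) (nat_lit 0x8c00201380008014302))) 
(.lf (nat_lit 3490685347) (dlOf (nat_lit 1) (nat_lit 0x498008000400200a60008016b83)))) 
(.nd (nat_lit 7) (.lf (nat_lit 31435107) (dlOf (nat_lit 1) (nat_lit 0x400400020008e94e82))) 
(.lf (nat_lit 3490685411) (dlOf (nat_lit 1) (nat_lit 0xd800200020008017302))))))) (.nd (nat_lit 11) 
(.nd (nat_lit 6) (.nd (nat_lit 9) (.nd (nat_lit 7) (.nd (nat_lit 15) 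
(.lf (nat_lit 473899043) (dlOf (nat_lit 12) (nat_lit 0x8485340b601b2003a0d800c003e804f01f00004e14038429a05600d9009f03e803901f00004c10011429a02120d90001282003b06c801281f4000240800183420050166036b0a181c604ec0e2c27207d20cd00280658001831000980ea0014073002600a803480000001c300cd0286034e0cd0000682023909d818003340001808053c286002013b000509c8023833400800fa000407300190158000283801106840dfc28608180cd004c03a801781cc0001214019c19a0008075000030200140b180ec850c09782760028138033b066800a03280044184001e0af0014007800000482d3000801cc00217100008fc0183))) 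
(.lf (nat_lit 15704099) (dlOf (nat_lit 3) (nat_lit 0x424f0000840800212780003a04003800400040008820582)))) 
(.lf (nat_lit 37725347) (dlOf (nat_lit 1) (nat_lit 0x1e00090d2c01)))) (.nd (nat_lit 8) 
(.lf (nat_lit 472850979) (dlOf (nat_lit 2) (nat_lit 0x78594009a804000400400800018b18702))) 
(.lf (nat_lit 19866403) (dlOf (nat_lit 1) (nat_lit 0x80008005c002003400089d2183))))) 
(.nd (nat_lit 23) (.nd (nat_lit 24) 
(.lf (nat_lit 473899107) (dlOf (nat_lit 2) (nat_lit 0x1281b2000000200120018fc0901))) 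
(.lf (nat_lit 20914275) (dlOf (nat_lit 1) (nat_lit 0x8002004600089f0d82)))) (.nd (nat_lit 9) 
(.lf (nat_lit 12525667) (dlOf (nat_lit 1) (nat_lit 0x80080010002000200086d1283))) 
(.lf (nat_lit 61810275) (dlOf (nat_lit 2) (nat_lit 0x25228000c8080018008000400200040009923903)))))) 
(.nd (nat_lit 6) (.nd (nat_lit 7) (.nd (nat_lit 9) 
(.lf (nat_lit 3492788515) (dlOf (nat_lit 1) (nat_lit 0x4002000600080fab82))) 
(.lf (nat_lit 19869475) (dlOf (nat_lit 2) (nat_lit 0x2b6100098a04002c004000200089d7482)))) 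
(.nd (nat_lit 8) (.lf (nat_lit 36678307) (dlOf (nat_lit 1) (nat_lit 0x800200040009075602))) 
(.nd (nat_lit 10) (.lf (nat_lit 58698147) (dlOf (nat_lit 1) (nat_lit 0x200197e4e81))) 
(.lf (nat_lit 19873187) (dlOf (nat_lit 2) (nat_lit 0x4597e0000002000200189dcb01)))))) 
(.nd (nat_lit 7) (.nd (nat_lit 8) 
(.lf (nat_lit 2754555491) (dlOf (nat_lit 1) (nat_lit 0x200280f7181))) 
(.lf (nat_lit 2754554211) (dlOf (nat_lit 1) (nat_lit 0x4004000200080f4e82)))) (.nd (nat_lit 8) 
(.lf (nat_lit 19905251) (dlOf (nat_lit 1) (nat_lit 0x80080008002000200089db983))) 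
(.lf (nat_lit 19868643) (dlOf (nat_lit 1) (nat_lit 0x11800800a0002005800089d5e83))))))))))))

end

end Pool.Agent.Lib.MP_5854e1_co.Cz

namespace Pool.Agent.Lib.MP_5854e1_co.Cz

noncomputable section

noncomputable def tz150 : DT := (.nd (nat_lit 17) (.nd (nat_lit 6) (.nd (nat_lit 13) 
(.nd (nat_lit 28) (.nd (nat_lit 16) (.nd (nat_lit 18) (.nd (nat_lit 19) (.nd (nat_lit 7) 
(.nd (nat_lit 8) (.nd (nat_lit 10) 
(.lf (nat_lit 59768871) (dlOf (nat_lit 1) (nat_lit 0xc00200020009830782))) 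
(.lf (nat_lit 603984935) (dlOf (nat_lit 1) (nat_lit 0x8008000400200020008009203)))) 
(.nd (nat_lit 9) (.lf (nat_lit 2752512295) (dlOf (nat_lit 1) (nat_lit 0xc0028014601))) 
(.nd (nat_lit 26) (.lf (nat_lit 1610615591) (dlOf (nat_lit 1) (nat_lit 0x600028005c01))) 
(.lf (nat_lit 1275071271) (dlOf (nat_lit 1) (nat_lit 0x8008000400200020008005c03)))))) 
(.nd (nat_lit 8) (.nd (nat_lit 9) (.nd (nat_lit 12) 
(.lf (nat_lit 134220967) (dlOf (nat_lit 2) (nat_lit 0x702080011c080028008002800200040008006283))) 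
(.lf (nat_lit 5905587367) (dlOf (nat_lit 1) (nat_lit 0x48000800c201)))) 
(.lf (nat_lit 603984551) (dlOf (nat_lit 1) (nat_lit 0x400200020008008c82)))) (.nd (nat_lit 9) 
(.nd (nat_lit 11) (.lf (nat_lit 8394151) (dlOf (nat_lit 1) (nat_lit 0x40028519901))) 
(.lf (nat_lit 7591) (dlOf (nat_lit 1) (nat_lit 0x62002800cb81)))) 
(.lf (nat_lit 7079) (dlOf (nat_lit 1) (nat_lit 0x40040002001800bd02)))))) (.nd (nat_lit 21) 
(.nd (nat_lit 20) (.nd (nat_lit 25) (.nd (nat_lit 29) 
(.lf (nat_lit 4362600487) (dlOf (nat_lit 1) (nat_lit 0xe0008000c002001200080a0903))) 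
(.lf (nat_lit 1678245927) (dlOf (nat_lit 1) (nat_lit 0x180080014002000600081b0903)))) 
(.lf (nat_lit 34078759) (dlOf (nat_lit 1) (nat_lit 0x400200020008fa0782)))) (.nd (nat_lit 23) 
(.lf (nat_lit 35127335) (dlOf (nat_lit 1) (nat_lit 0x20028fe0781))) 
(.lf (nat_lit 9961511) (dlOf (nat_lit 3) (nat_lit 0x80000004f008004295c00000040098002003400085a0c02))))) 
(.nd (nat_lit 20) (.nd (nat_lit 22) (.nd (nat_lit 26) 
(.lf (nat_lit 2621479) (dlOf (nat_lit 1) (nat_lit 0x38008001000200080008180983))) 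
(.lf (nat_lit 69730343) (dlOf (nat_lit 2) (nat_lit 0x3819c0002c0200040028be0781)))) 
(.lf (nat_lit 15204391) (dlOf (nat_lit 1) (nat_lit 0x400080020002003c00087c0683)))) 
(.nd (nat_lit 23) (.lf (nat_lit 37224487) (dlOf (nat_lit 1) (nat_lit 0x200290c0781))) 
(.lf (nat_lit 45613095) (dlOf (nat_lit 1) (nat_lit 0x30008000400200020009340203))))))) 
(.nd (nat_lit 7) (.nd (nat_lit 23) (.nd (nat_lit 26) (.nd (nat_lit 21) (.nd (nat_lit 29) 
(.lf (nat_lit 3355705383) (dlOf (nat_lit 1) (nat_lit 0x200280d0601))) 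
(.lf (nat_lit 671350823) (dlOf (nat_lit 1) (nat_lit 0x800400080018160502)))) 
(.lf (nat_lit 52690983) (dlOf (nat_lit 2) (nat_lit 0x52609801c304401557f8000ebfa0059595003429ec01694d2000040e00020019560781)))) 
(.nd (nat_lit 9) (.nd (nat_lit 29) 
(.lf (nat_lit 3288596519) (dlOf (nat_lit 2) (nat_lit 0x501b0037ac0800200080004002001a0008090003))) 
(.lf (nat_lit 1677983783) (dlOf (nat_lit 1) (nat_lit 0x20008130581)))) 
(.lf (nat_lit 5570300455) (dlOf (nat_lit 1) (nat_lit 0x200280d5181))))) (.nd (nat_lit 19) 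
(.nd (nat_lit 21) 
(.lf (nat_lit 63176743) (dlOf (nat_lit 2) (nat_lit 0x2800000024040010002000600099f0782))) 
(.lf (nat_lit 10747943) (dlOf (nat_lit 2) (nat_lit 0xe2bc8000a8080130008004800200620008620583)))) 
(.nd (nat_lit 20) (.lf (nat_lit 11272231) (dlOf (nat_lit 2) (nat_lit 0x4874000400200040018680601))) 
(.lf (nat_lit 27000871) (dlOf (nat_lit 1) (nat_lit 0x20018ca0681)))))) (.nd (nat_lit 19) 
(.nd (nat_lit 8) 
(.lf (nat_lit 5436080295) (dlOf (nat_lit 3) (nat_lit 0x4801100010010023008800074080040008000c002001000080c1483))) 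
(.nd (nat_lit 11) (.lf (nat_lit 11796903) (dlOf (nat_lit 2) (nat_lit 0x18715007188186c0780))) 
(.lf (nat_lit 40110503) (dlOf (nat_lit 1) (nat_lit 0x4004000200091f4e82))))) (.nd (nat_lit 9) 
(.nd (nat_lit 12) (.lf (nat_lit 1835431) (dlOf (nat_lit 1) (nat_lit 0x40018150781))) 
(.lf (nat_lit 8130983) (dlOf (nat_lit 1) (nat_lit 0x200028518401)))) 
(.lf (nat_lit 537664423) (dlOf (nat_lit 4) (nat_lit 0x801d800380ea001a071000d0380006018800340c2001c0000011507000803b0008740800101d80042a04001c004000600080fbd02))))))) 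
(.nd (nat_lit 19) (.nd (nat_lit 7) (.nd (nat_lit 22) (.nd (nat_lit 9) (.nd (nat_lit 8) 
(.nd (nat_lit 18) (.lf (nat_lit 3355508775) (dlOf (nat_lit 1) (nat_lit 0x600180a0001))) 
(.lf (nat_lit 3288662055) (dlOf (nat_lit 2) (nat_lit 0xc01a8057440800280080004002001400080a0903)))) 
(.lf (nat_lit 3355514151) (dlOf (nat_lit 1) (nat_lit 0x8600280a9801)))) (.nd (nat_lit 10) 
(.lf (nat_lit 1744898599) (dlOf (nat_lit 2) (nat_lit 0x3022800798080008008001000200040008095183))) 
(.lf (nat_lit 4496360999) (dlOf (nat_lit 4) (nat_lit 0x27807000f80340000704001401c0000301000b00e000000080148008001000200120008053703))))) 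
(.nd (nat_lit 18) (.nd (nat_lit 20) (.nd (nat_lit 21) 
(.lf (nat_lit 21037095) (dlOf (nat_lit 1) (nat_lit 0x20028a00901))) 
(.lf (nat_lit 48300071) (dlOf (nat_lit 1) (nat_lit 0x48008009000200380009400003)))) 
(.lf (nat_lit 22085671) (dlOf (nat_lit 1) (nat_lit 0x8008000400200020008a90583)))) (.nd (nat_lit 9) 
(.lf (nat_lit 30736423) (dlOf (nat_lit 2) (nat_lit 0x24ea000594080008008000400200020008e40d83))) 
(.lf (nat_lit 23396903) (dlOf (nat_lit 1) (nat_lit 0x1000400100008b80e02)))))) (.nd (nat_lit 9) 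
(.nd (nat_lit 12) (.nd (nat_lit 27) 
(.lf (nat_lit 4899014055) (dlOf (nat_lit 2) (nat_lit 0x2006c0011c04000400200020008053602))) 
(.lf (nat_lit 4496360871) (dlOf (nat_lit 1) (nat_lit 0x148008000400200240008053603)))) 
(.lf (nat_lit 604050855) (dlOf (nat_lit 1) (nat_lit 0x920008009901)))) (.nd (nat_lit 8) 
(.lf (nat_lit 20254375) (dlOf (nat_lit 1) (nat_lit 0x100080060002000400089d7203))) 
(.nd (nat_lit 26) 
(.lf (nat_lit 1610681255) (dlOf (nat_lit 1) (nat_lit 0x10008000400200020008005d03))) 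
(.lf (nat_lit 5033233319) (dlOf (nat_lit 1) (nat_lit 0x60018005d01))))))) (.nd (nat_lit 18) 
(.nd (nat_lit 20) (.nd (nat_lit 21) 
(.lf (nat_lit 201916455) (dlOf (nat_lit 1) (nat_lit 0x3c00080c0c81))) (.nd (nat_lit 22) 
(.lf (nat_lit 11075623) (dlOf (nat_lit 2) (nat_lit 0xe000000066040030002000c0008660602))) 
(.lf (nat_lit 15269927) (dlOf (nat_lit 1) (nat_lit 0x4004000200087d0782))))) (.nd (nat_lit 7) 
(.nd (nat_lit 9) 
(.lf (nat_lit 10027047) (dlOf (nat_lit 4) (nat_lit 0xe874c0027c04006c3ac0013102002a1d600030e5000985e00025e0c00dc004002e00085a0c02))) 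
(.lf (nat_lit 7931431) (dlOf (nat_lit 1) (nat_lit 0xe20028513701)))) 
(.lf (nat_lit 37292455) (dlOf (nat_lit 1) (nat_lit 0x4002005000090d4e82))))) (.nd (nat_lit 21) 
(.nd (nat_lit 24) 
(.lf (nat_lit 42795047) (dlOf (nat_lit 3) (nat_lit 0xd9d400029020006cea000465b00009c100080008001000200320009280203))) 
(.lf (nat_lit 59572263) (dlOf (nat_lit 11) (nat_lit 0x40880002540600109d04008ce120002d080058880002d406002d9d0400b8e120002c08000480c0001581007b4400033203002b0e820002a06000880c00003810006440000ba0300000c0800a9100072c80c03c93a080d49c240c40000000040a01e280c014c3a0806d8000000060c00050180000202003c880001d40600109c24000000c009c002002e0009810782)))) 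
(.nd (nat_lit 7) (.nd (nat_lit 20) 
(.lf (nat_lit 2754412583) (dlOf (nat_lit 2) (nat_lit 0xd4c42402c0155016d09c0001c81801f80080130002001e00080e0503))) 
(.lf (nat_lit 45940775) (dlOf (nat_lit 2) (nat_lit 0xfb9f0005daec0004408000800400020019370782)))) 
(.lf (nat_lit 49088935) (dlOf (nat_lit 1) (nat_lit 0x20009464e81)))))))) (.nd (nat_lit 27) 
(.nd (nat_lit 18) (.nd (nat_lit 7) (.nd (nat_lit 11) (.nd (nat_lit 20) (.nd (nat_lit 10) 
(.lf (nat_lit 805830695) (dlOf (nat_lit 1) (nat_lit 0x180080014002000600081b0903))) 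
(.lf (nat_lit 2952795175) (dlOf (nat_lit 1) (nat_lit 0x8008000400200020008009203)))) 
(.nd (nat_lit 8) (.lf (nat_lit 1345388583) (dlOf (nat_lit 1) (nat_lit 0x20018b90201))) 
(.lf (nat_lit 3490709799) (dlOf (nat_lit 1) (nat_lit 0x20018014301))))) (.nd (nat_lit 16) 
(.nd (nat_lit 8) 
(.lf (nat_lit 2483031079) (dlOf (nat_lit 1) (nat_lit 0x50008000400200040008006083))) 
(.lf (nat_lit 1409293095) (dlOf (nat_lit 1) (nat_lit 0x30008000c0020006000800bc83)))) 
(.nd (nat_lit 26) (.lf (nat_lit 4563470887) (dlOf (nat_lit 1) (nat_lit 0x400400020008095182))) 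
(.lf (nat_lit 335612455) (dlOf (nat_lit 1) (nat_lit 0x400400020008095182)))))) (.nd (nat_lit 31) 
(.nd (nat_lit 9) (.nd (nat_lit 29) 
(.lf (nat_lit 1342184871) (dlOf (nat_lit 1) (nat_lit 0x104004014e001800cb82))) 
(.lf (nat_lit 1879055783) (dlOf (nat_lit 1) (nat_lit 0x248008020000200ce000800cb83)))) 
(.lf (nat_lit 5637213095) (dlOf (nat_lit 1) (nat_lit 0x1e60028055d01)))) (.nd (nat_lit 10) 
(.lf (nat_lit 3489728935) (dlOf (nat_lit 1) (nat_lit 0x880080004002000e0008004e83))) 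
(.nd (nat_lit 26) (.lf (nat_lit 3489668519) (dlOf (nat_lit 2) (nat_lit 0x6e1f50001681800cb80))) 
(.lf (nat_lit 2483035559) (dlOf (nat_lit 2) (nat_lit 0x6602a000a00800070038000480c00240040002000800cb82))))))) 
(.nd (nat_lit 16) (.nd (nat_lit 8) (.nd (nat_lit 20) (.nd (nat_lit 21) 
(.lf (nat_lit 805568551) (dlOf (nat_lit 1) (nat_lit 0x20008130581))) 
(.lf (nat_lit 1344536615) (dlOf (nat_lit 2) (nat_lit 0x7210e003404680003808001000200040008830782)))) 
(.nd (nat_lit 19) 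
(.lf (nat_lit 1343488039) (dlOf (nat_lit 1) (nat_lit 0x8008001800200080008260703))) 
(.lf (nat_lit 1346109479) (dlOf (nat_lit 1) (nat_lit 0x1800400020008e50782))))) (.nd (nat_lit 7) 
(.nd (nat_lit 9) (.lf (nat_lit 3489926439) (dlOf (nat_lit 1) (nat_lit 0x400200020008006802))) 
(.lf (nat_lit 6241389351) (dlOf (nat_lit 1) (nat_lit 0x4400280d5c01)))) 
(.lf (nat_lit 4026794407) (dlOf (nat_lit 2) (nat_lit 0x5005a00cea02004c0028090781))))) 
(.nd (nat_lit 19) (.nd (nat_lit 29) (.nd (nat_lit 7) 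
(.lf (nat_lit 1342504999) (dlOf (nat_lit 2) (nat_lit 0xf1238001400800200080024002000e0008040583))) 
(.lf (nat_lit 335872167) (dlOf (nat_lit 1) (nat_lit 0x200080c1481)))) (.nd (nat_lit 30) 
(.lf (nat_lit 2953117735) (dlOf (nat_lit 1) (nat_lit 0x8008000400200020008140783))) 
(.lf (nat_lit 4026859559) (dlOf (nat_lit 2) (nat_lit 0xc01a805cbc0800280080004002001400080a0903))))) 
(.nd (nat_lit 20) 
(.lf (nat_lit 3492610087) (dlOf (nat_lit 2) (nat_lit 0xd4c3fa02c015f016d09c0001c81801f80080130002001e00080e0503))) 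
(.lf (nat_lit 3491561511) (dlOf (nat_lit 1) (nat_lit 0x100028090001))))))) (.nd (nat_lit 16) 
(.nd (nat_lit 18) (.nd (nat_lit 10) (.nd (nat_lit 19) (.nd (nat_lit 7) 
(.lf (nat_lit 473956391) (dlOf (nat_lit 1) (nat_lit 0x20018fd0781))) 
(.lf (nat_lit 1476399783) (dlOf (nat_lit 1) (nat_lit 0x400200020008008c82)))) (.nd (nat_lit 30) 
(.lf (nat_lit 3154640935) (dlOf (nat_lit 2) (nat_lit 0xc00000011004000c002008000082f0782))) 
(.lf (nat_lit 4228382759) (dlOf (nat_lit 1) (nat_lit 0xe0008000c002001200080a0903))))) 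
(.nd (nat_lit 7) (.nd (nat_lit 8) 
(.lf (nat_lit 469767207) (dlOf (nat_lit 1) (nat_lit 0x400400020008009202))) 
(.lf (nat_lit 469763879) (dlOf (nat_lit 1) (nat_lit 0x7e0018003d01)))) 
(.lf (nat_lit 3690993063) (dlOf (nat_lit 2) (nat_lit 0x1600d80296c0800a0008000800200080008009903))))) 
(.nd (nat_lit 26) (.nd (nat_lit 7) (.nd (nat_lit 10) 
(.lf (nat_lit 6308497959) (dlOf (nat_lit 1) (nat_lit 0xc004000200080d5182))) 
(.lf (nat_lit 5234755111) (dlOf (nat_lit 2) (nat_lit 0x2f00c0000000800600080098002003200080d3703)))) 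
(.lf (nat_lit 4697882791) (dlOf (nat_lit 1) (nat_lit 0x4004000200080c1382)))) (.nd (nat_lit 29) 
(.nd (nat_lit 30) (.lf (nat_lit 2617507879) (dlOf (nat_lit 1) (nat_lit 0x200280d0601))) 
(.lf (nat_lit 1543766055) (dlOf (nat_lit 1) (nat_lit 0x800400080018160502)))) (.nd (nat_lit 7) 
(.lf (nat_lit 1007943719) (dlOf (nat_lit 1) (nat_lit 0x1c00188c0001))) 
(.lf (nat_lit 5301862567) (dlOf (nat_lit 1) (nat_lit 0x600080c1381))))))) (.nd (nat_lit 18) 
(.nd (nat_lit 7) (.nd (nat_lit 9) (.nd (nat_lit 19) (.nd (nat_lit 20) 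
(.lf (nat_lit 2617311271) (dlOf (nat_lit 1) (nat_lit 0x600180a0001))) 
(.lf (nat_lit 470876199) (dlOf (nat_lit 1) (nat_lit 0xa00181c0681)))) 
(.lf (nat_lit 471400487) (dlOf (nat_lit 1) (nat_lit 0x4004000200182f0d82)))) (.nd (nat_lit 29) 
(.lf (nat_lit 4697687591) (dlOf (nat_lit 1) (nat_lit 0x20028093701))) 
(.lf (nat_lit 6308300327) (dlOf (nat_lit 8) (nat_lit 0x140190009005000500240002c0c002401400015020014019001d00500004410004806400240140001004001000a0000181000100c8002002800004080024014000000200640018053701))))) 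
(.nd (nat_lit 12) (.lf (nat_lit 1008796071) (dlOf (nat_lit 1) (nat_lit 0x140008f86e81))) 
(.lf (nat_lit 469832103) (dlOf (nat_lit 1) (nat_lit 0x50002000e0008008402))))) (.nd (nat_lit 29) 
(.nd (nat_lit 30) (.nd (nat_lit 31) 
(.lf (nat_lit 470089767) (dlOf (nat_lit 2) (nat_lit 0xf1238001400800200080024002000e0008040583))) 
(.lf (nat_lit 2617573415) (dlOf (nat_lit 14) (nat_lit 0xfa018817c00ac000b80807a40560005b02032602b0002d010055015800160080a200ac000ae040638056035e02a0002b02002e0150001540806880c40b44056051402a0002a03006c01580012c080e580ac0008e040678056000460200aa02b0002281008b01580010c0803680080004002000a0008100603)))) 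
(.lf (nat_lit 3691315239) (dlOf (nat_lit 1) (nat_lit 0x8008000400200020008140783)))) 
(.nd (nat_lit 9) 
(.lf (nat_lit 4161077287) (dlOf (nat_lit 2) (nat_lit 0x1f01600a300ac04a0052004802800010138044006c0388032000320e00040028120601))) 
(.lf (nat_lit 1008011815) (dlOf (nat_lit 1) (nat_lit 0x400400020008985182))))))))) 
(.nd (nat_lit 18) (.nd (nat_lit 29) (.nd (nat_lit 16) (.nd (nat_lit 28) (.nd (nat_lit 9) 
(.nd (nat_lit 20) (.lf (nat_lit 6510092327) (dlOf (nat_lit 1) (nat_lit 0x3000181c0581))) 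
(.nd (nat_lit 23) (.lf (nat_lit 35135527) (dlOf (nat_lit 1) (nat_lit 0x400400020018fe0782))) 
(.lf (nat_lit 9969703) (dlOf (nat_lit 3) (nat_lit 0x180000009e0100015268002c40800480080060002004c00085a0c03))))) 
(.nd (nat_lit 8) (.nd (nat_lit 19) 
(.lf (nat_lit 40903207) (dlOf (nat_lit 1) (nat_lit 0x28008001400200060009208803))) 
(.lf (nat_lit 50864679) (dlOf (nat_lit 4) (nat_lit 0x8b7860045bc20016daa000b6d4c000d010008b7860006602003fbc30020de10000001000b80080168002001c00094d8803)))) 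
(.nd (nat_lit 7) (.lf (nat_lit 201336615) (dlOf (nat_lit 1) (nat_lit 0x8008000400200020008003d03))) 
(.lf (nat_lit 4362086311) (dlOf (nat_lit 2) (nat_lit 0x100000002e04004800200200008004302)))))) 
(.nd (nat_lit 7) (.nd (nat_lit 30) (.nd (nat_lit 27) 
(.lf (nat_lit 4563410983) (dlOf (nat_lit 1) (nat_lit 0x40008000001))) 
(.lf (nat_lit 4697628711) (dlOf (nat_lit 1) (nat_lit 0x40008000001)))) (.nd (nat_lit 8) 
(.lf (nat_lit 1409818663) (dlOf (nat_lit 1) (nat_lit 0x340008090001))) 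
(.lf (nat_lit 3489672487) (dlOf (nat_lit 1) (nat_lit 0x800400020008006802))))) (.nd (nat_lit 8) 
(.lf (nat_lit 1409818791) (dlOf (nat_lit 1) (nat_lit 0x2400400020008090282))) (.nd (nat_lit 10) 
(.nd (nat_lit 27) (.lf (nat_lit 3489671591) (dlOf (nat_lit 1) (nat_lit 0x400200020008004e82))) 
(.lf (nat_lit 5771372967) (dlOf (nat_lit 2) (nat_lit 0xa014003854080178008007000200240008004e83)))) 
(.lf (nat_lit 1342193063) (dlOf (nat_lit 1) (nat_lit 0x100080018002000a000800cb83))))))) 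
(.nd (nat_lit 8) (.nd (nat_lit 19) (.nd (nat_lit 20) (.nd (nat_lit 9) 
(.lf (nat_lit 21045287) (dlOf (nat_lit 24) (nat_lit 0x106a580017c08003352c000ba040049a9600059020032d4b0002c0100036a580015c0800cb52c000aa040035a9600054020004d4a00036a300014810002352c000a2040055a960004c020022d4b00036a500012c10000b52c00078040065a960003702001ad4b0001b01000e6a58000cc08005b52c0006404000da9600031020040d4b0001801000dda700009008003352c00014040059a9600009020004d4b0000281001e6a5800004080120008013800200020008a00903))) 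
(.lf (nat_lit 4496369191) (dlOf (nat_lit 5) (nat_lit 0xc601c000300d00001c1000700700000c0400100380000102001801c000200d0000001001e0008000800200700008053703)))) 
(.nd (nat_lit 23) (.lf (nat_lit 38871079) (dlOf (nat_lit 1) (nat_lit 0x40029170201))) 
(.lf (nat_lit 13705255) (dlOf (nat_lit 2) (nat_lit 0x838a8000fc0803600080478002000a0008740503))))) 
(.nd (nat_lit 22) (.nd (nat_lit 23) 
(.lf (nat_lit 3492356135) (dlOf (nat_lit 1) (nat_lit 0x4002000200080c0c02))) 
(.lf (nat_lit 11083815) (dlOf (nat_lit 3) (nat_lit 0x20000002981001fb2c8000cc080148008010400200200008660603)))) 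
(.nd (nat_lit 7) (.lf (nat_lit 7944743) (dlOf (nat_lit 1) (nat_lit 0x8001851b281))) 
(.lf (nat_lit 32056487) (dlOf (nat_lit 1) (nat_lit 0x800200020008ef2c02)))))) (.nd (nat_lit 7) 
(.nd (nat_lit 10) (.lf (nat_lit 4563476775) (dlOf (nat_lit 1) (nat_lit 0x800200240008090a82))) 
(.lf (nat_lit 20000039) (dlOf (nat_lit 1) (nat_lit 0x1c00189d6801)))) (.nd (nat_lit 9) 
(.nd (nat_lit 10) 
(.lf (nat_lit 5368785319) (dlOf (nat_lit 1) (nat_lit 0x8008000400200020008004e83))) 
(.lf (nat_lit 3691066791) (dlOf (nat_lit 1) (nat_lit 0x58008000c00200040008009903)))) 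
(.nd (nat_lit 27) (.lf (nat_lit 5637221287) (dlOf (nat_lit 1) (nat_lit 0xca0028055d01))) 
(.lf (nat_lit 5771439015) (dlOf (nat_lit 1) (nat_lit 0x1400400120008005d02)))))))) 
(.nd (nat_lit 31) (.nd (nat_lit 7) (.nd (nat_lit 16) (.nd (nat_lit 26) (.nd (nat_lit 32) 
(.lf (nat_lit 1611145255) (dlOf (nat_lit 2) (nat_lit 0x201900023c0800080080004002000200080f0c03))) 
(.lf (nat_lit 5906112551) (dlOf (nat_lit 1) (nat_lit 0x3000181c0581)))) 
(.lf (nat_lit 738730023) (dlOf (nat_lit 2) (nat_lit 0x201900023c0800080080004002000200080f0c03)))) 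
(.nd (nat_lit 8) (.nd (nat_lit 9) 
(.lf (nat_lit 536945703) (dlOf (nat_lit 1) (nat_lit 0x400400040018002882))) 
(.lf (nat_lit 6308308519) (dlOf (nat_lit 9) (nat_lit 0x6a0190005005002200240002c0c00c8032005800a0000a82004000c80008028000220800ac032005c00a0000802000700c80170028000060800c4032005200a0000102002800c8000040800180280000004006c00400280018053702)))) 
(.lf (nat_lit 5301676839) (dlOf (nat_lit 1) (nat_lit 0x20028005c01))))) (.nd (nat_lit 8) 
(.nd (nat_lit 10) (.lf (nat_lit 2080448679) (dlOf (nat_lit 1) (nat_lit 0x94004000a0008090582))) 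
(.nd (nat_lit 27) 
(.lf (nat_lit 5905595559) (dlOf (nat_lit 2) (nat_lit 0x190000018220400400020030000800c202))) 
(.lf (nat_lit 939539623) (dlOf (nat_lit 2) (nat_lit 0x10000018260400040020014000800c202))))) 
(.nd (nat_lit 10) (.lf (nat_lit 537403815) (dlOf (nat_lit 1) (nat_lit 0xe0008090781))) 
(.lf (nat_lit 604059047) (dlOf (nat_lit 1) (nat_lit 0x20028009901)))))) (.nd (nat_lit 12) 
(.nd (nat_lit 16) (.nd (nat_lit 21) (.nd (nat_lit 26) 
(.lf (nat_lit 2819104807) (dlOf (nat_lit 1) (nat_lit 0x8600081a0681))) 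
(.lf (nat_lit 3154649127) (dlOf (nat_lit 1) (nat_lit 0x20028300781)))) (.nd (nat_lit 9) 
(.lf (nat_lit 2754093095) (dlOf (nat_lit 2) (nat_lit 0x1410e0002302002a00180c0c81))) 
(.lf (nat_lit 2754620967) (dlOf (nat_lit 1) (nat_lit 0x300080010002000800080f7183))))) 
(.nd (nat_lit 26) 
(.lf (nat_lit 3892912167) (dlOf (nat_lit 1) (nat_lit 0x30008001c00200220008290d83))) 
(.lf (nat_lit 3960021031) (dlOf (nat_lit 1) (nat_lit 0x8800200260008190c02))))) (.nd (nat_lit 8) 
(.nd (nat_lit 7) 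
(.lf (nat_lit 2751478311) (dlOf (nat_lit 1) (nat_lit 0x800800040020002000800b283))) 
(.nd (nat_lit 26) (.lf (nat_lit 3087023271) (dlOf (nat_lit 1) (nat_lit 0xa001800c201))) 
(.lf (nat_lit 3959438503) (dlOf (nat_lit 1) (nat_lit 0x2000800c201))))) (.nd (nat_lit 7) 
(.lf (nat_lit 2754624295) (dlOf (nat_lit 1) (nat_lit 0xc002000e00080fbc82))) (.nd (nat_lit 9) 
(.lf (nat_lit 4227874215) (dlOf (nat_lit 5) (nat_lit 0xb020000780c800ac0580001c06004a04000080190000601000400fc00480640001404000a04b005801f800100c8000220c0a040040138000800cb82))) 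
(.lf (nat_lit 2885696423) (dlOf (nat_lit 2) (nat_lit 0x300c0001805e000c02e00050168003005c000c026000e0050006001000300000045624002c0040008000800bd02))))))))) 
(.nd (nat_lit 28) (.nd (nat_lit 16) (.nd (nat_lit 23) (.nd (nat_lit 9) (.nd (nat_lit 26) 
(.nd (nat_lit 27) 
(.lf (nat_lit 6442721319) (dlOf (nat_lit 1) (nat_lit 0x7d80080358002004c0008190783))) 
(.lf (nat_lit 3355713575) (dlOf (nat_lit 1) (nat_lit 0x4004000200180d0602)))) (.nd (nat_lit 10) 
(.lf (nat_lit 3288604711) (dlOf (nat_lit 1) (nat_lit 0x620008090001))) 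
(.lf (nat_lit 2885952551) (dlOf (nat_lit 1) (nat_lit 0x180028142881))))) (.nd (nat_lit 10) 
(.nd (nat_lit 11) (.lf (nat_lit 1074012711) (dlOf (nat_lit 2) (nat_lit 0xa02900037818090e00))) 
(.nd (nat_lit 20) (.lf (nat_lit 4899220007) (dlOf (nat_lit 1) (nat_lit 0x400280d5181))) 
(.lf (nat_lit 39070247) (dlOf (nat_lit 1) (nat_lit 0x8008000400200020009195183))))) 
(.nd (nat_lit 7) (.lf (nat_lit 8136231) (dlOf (nat_lit 1) (nat_lit 0x40018513701))) 
(.lf (nat_lit 2885953447) (dlOf (nat_lit 1) (nat_lit 0x20028144301)))))) (.nd (nat_lit 19) 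
(.nd (nat_lit 21) (.nd (nat_lit 7) 
(.lf (nat_lit 63184935) (dlOf (nat_lit 1) (nat_lit 0x4004000400099f0782))) 
(.lf (nat_lit 9707687) (dlOf (nat_lit 1) (nat_lit 0x1000400040018571382)))) (.nd (nat_lit 8) 
(.lf (nat_lit 45359143) (dlOf (nat_lit 1) (nat_lit 0x48008009000200380009320003))) 
(.lf (nat_lit 28582183) (dlOf (nat_lit 1) (nat_lit 0x400200020008da0702))))) (.nd (nat_lit 20) 
(.nd (nat_lit 21) (.lf (nat_lit 13377575) (dlOf (nat_lit 1) (nat_lit 0xc0008720c81))) 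
(.lf (nat_lit 11280423) (dlOf (nat_lit 1) (nat_lit 0x20028680601)))) 
(.lf (nat_lit 27009063) (dlOf (nat_lit 1) (nat_lit 0x320018ca0681)))))) (.nd (nat_lit 19) 
(.nd (nat_lit 26) (.nd (nat_lit 9) (.nd (nat_lit 20) 
(.lf (nat_lit 5905915943) (dlOf (nat_lit 1) (nat_lit 0x168002004c0008160502))) 
(.lf (nat_lit 62201895) (dlOf (nat_lit 1) (nat_lit 0x20019970981)))) 
(.lf (nat_lit 23405095) (dlOf (nat_lit 1) (nat_lit 0xa0008b80e01)))) (.nd (nat_lit 29) 
(.nd (nat_lit 31) (.lf (nat_lit 67444775) (dlOf (nat_lit 1) (nat_lit 0xe80008140681))) 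
(.lf (nat_lit 6509895719) (dlOf (nat_lit 1) (nat_lit 0x168002004c0008160502)))) 
(.lf (nat_lit 1678057511) (dlOf (nat_lit 2) (nat_lit 0x901400004204001c00200060008160582))))) 
(.nd (nat_lit 7) (.nd (nat_lit 20) (.nd (nat_lit 22) 
(.lf (nat_lit 59580455) (dlOf (nat_lit 14) (nat_lit 0x81100004280c00193848000b41800c220000210fc003280c00453a080051c2400058140041100001280c0001582002c4400014a03001f4e820002a06002080c0001481000544000001c08008220000410180000604002a8800013406000014100e4a2e800c510003be80c02423a080939c240868000000040c006e8ba001444000222030021ce8200680000000185001040600000808002203000002040095100004a80c001d3848000001801d00080090002012a0009810783))) 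
(.lf (nat_lit 21831719) (dlOf (nat_lit 1) (nat_lit 0xc0028a70501)))) 
(.lf (nat_lit 27074599) (dlOf (nat_lit 1) (nat_lit 0x400080020002003c0008ca0683)))) 
(.nd (nat_lit 8) (.lf (nat_lit 8204967) (dlOf (nat_lit 1) (nat_lit 0x400200020008518c82))) 
(.lf (nat_lit 8200615) (dlOf (nat_lit 1) (nat_lit 0x400200020008511002))))))) (.nd (nat_lit 16) 
(.nd (nat_lit 31) (.nd (nat_lit 21) (.nd (nat_lit 7) (.nd (nat_lit 9) 
(.lf (nat_lit 5838741543) (dlOf (nat_lit 1) (nat_lit 0x7d80080358002004c0008190783))) 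
(.lf (nat_lit 1946427943) (dlOf (nat_lit 2) (nat_lit 0xa02900037818090e00)))) (.nd (nat_lit 27) 
(.lf (nat_lit 4563673255) (dlOf (nat_lit 12) (nat_lit 0x340330001081000101a0000800800680d0001803e0001d04000a034001100f80005c1001280cc0001a04005c0660000a020058033000500f0000241001180cc0001004000c066000030200340330000081003901980088078000000800d4004009a00180c1482))) 
(.lf (nat_lit 4697890983) (dlOf (nat_lit 1) (nat_lit 0x100080014002003200080c1383))))) 
(.nd (nat_lit 19) (.nd (nat_lit 26) 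
(.lf (nat_lit 1344544807) (dlOf (nat_lit 2) (nat_lit 0x190af800c835c0064136003208b0000a848850780))) 
(.lf (nat_lit 472129575) (dlOf (nat_lit 2) (nat_lit 0x7210c8034047c0003a08001000200040008850782)))) 
(.lf (nat_lit 1346117671) (dlOf (nat_lit 2) (nat_lit 0x9039800080700004a08006000400040018e50782))))) 
(.nd (nat_lit 8) (.nd (nat_lit 7) 
(.lf (nat_lit 2617516071) (dlOf (nat_lit 1) (nat_lit 0x4004000200180d0602))) (.nd (nat_lit 10) 
(.lf (nat_lit 3493079207) (dlOf (nat_lit 1) (nat_lit 0xaa00280f4881))) 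
(.lf (nat_lit 3490462887) (dlOf (nat_lit 1) (nat_lit 0x2000800c201))))) (.nd (nat_lit 9) 
(.nd (nat_lit 27) 
(.lf (nat_lit 3489934631) (dlOf (nat_lit 3) (nat_lit 0x1022c00042040018116000000200020028006801))) 
(.lf (nat_lit 3624152359) (dlOf (nat_lit 1) (nat_lit 0x20028146801)))) 
(.lf (nat_lit 3489938215) (dlOf (nat_lit 1) (nat_lit 0x18001800bc81)))))) (.nd (nat_lit 27) 
(.nd (nat_lit 29) (.nd (nat_lit 30) 
(.lf (nat_lit 2416255015) (dlOf (nat_lit 1) (nat_lit 0x4c002000200080c0c82))) 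
(.lf (nat_lit 1342513191) (dlOf (nat_lit 1) (nat_lit 0x580080010002000a0008040583)))) 
(.nd (nat_lit 7) (.nd (nat_lit 19) 
(.lf (nat_lit 805642279) (dlOf (nat_lit 2) (nat_lit 0x901400004204001c00200060008160582))) 
(.lf (nat_lit 4096598055) (dlOf (nat_lit 1) (nat_lit 0x1c00200020008130982)))) 
(.lf (nat_lit 5100609703) (dlOf (nat_lit 1) (nat_lit 0x60008001400200200008101483))))) 
(.nd (nat_lit 26) (.nd (nat_lit 7) (.nd (nat_lit 29) 
(.lf (nat_lit 2550472743) (dlOf (nat_lit 1) (nat_lit 0x6c002006200080c0c02))) 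
(.lf (nat_lit 4161085479) (dlOf (nat_lit 2) (nat_lit 0x26c056008c0290044014002780640006410003c00400060008120602)))) 
(.lf (nat_lit 5234827431) (dlOf (nat_lit 1) (nat_lit 0x4002000200080f1382)))) (.nd (nat_lit 7) 
(.nd (nat_lit 31) 
(.lf (nat_lit 470097959) (dlOf (nat_lit 1) (nat_lit 0x580080010002000a0008040583))) 
(.lf (nat_lit 2617581607) (dlOf (nat_lit 3) (nat_lit 0x24018801b80ac000b808001c062003202a0002a028100600)))) 
(.lf (nat_lit 2080710823) (dlOf (nat_lit 1) (nat_lit 0x200280c1381)))))))))) (.nd (nat_lit 26) 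
(.nd (nat_lit 13) (.nd (nat_lit 28) (.nd (nat_lit 21) (.nd (nat_lit 9) (.nd (nat_lit 8) 
(.nd (nat_lit 7) (.nd (nat_lit 19) 
(.lf (nat_lit 12583015) (dlOf (nat_lit 2) (nat_lit 0xe38a800040080088008009c002001600086d1403))) 
(.lf (nat_lit 55050343) (dlOf (nat_lit 1) (nat_lit 0x48008001000200120009690783)))) 
(.nd (nat_lit 10) (.lf (nat_lit 9175271) (dlOf (nat_lit 1) (nat_lit 0x1260028524301))) 
(.lf (nat_lit 3303) (dlOf (nat_lit 1) (nat_lit 0xc00200020008006502))))) (.nd (nat_lit 16) 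
(.lf (nat_lit 1074266471) (dlOf (nat_lit 2) (nat_lit 0x156005000198181b0700))) (.nd (nat_lit 18) 
(.lf (nat_lit 5905645927) (dlOf (nat_lit 1) (nat_lit 0x1600280b0701))) 
(.lf (nat_lit 6442778983) (dlOf (nat_lit 1) (nat_lit 0x28008000c002000800081b0703)))))) 
(.nd (nat_lit 10) (.nd (nat_lit 7) (.nd (nat_lit 19) 
(.lf (nat_lit 5368711783) (dlOf (nat_lit 1) (nat_lit 0x3e0028005381))) 
(.lf (nat_lit 46664295) (dlOf (nat_lit 1) (nat_lit 0x1800400040009385382)))) 
(.lf (nat_lit 5502927847) (dlOf (nat_lit 2) (nat_lit 0x7009801fc00800280080014002000a0008002883)))) 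
(.nd (nat_lit 29) (.lf (nat_lit 2281707111) (dlOf (nat_lit 1) (nat_lit 0x400200020008009c02))) 
(.lf (nat_lit 6039803495) (dlOf (nat_lit 1) (nat_lit 0x20028009c01)))))) (.nd (nat_lit 22) 
(.nd (nat_lit 18) (.nd (nat_lit 8) 
(.lf (nat_lit 44105831) (dlOf (nat_lit 1) (nat_lit 0x1000092c0d81))) (.nd (nat_lit 19) 
(.lf (nat_lit 3211623) (dlOf (nat_lit 3) (nat_lit 0x21688000cc0800a8b440006204000c00400020018200702))) 
(.lf (nat_lit 61407591) (dlOf (nat_lit 1) (nat_lit 0x1c0029920f01))))) (.nd (nat_lit 8) 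
(.lf (nat_lit 2424935) (dlOf (nat_lit 1) (nat_lit 0x20018161401))) (.nd (nat_lit 16) 
(.lf (nat_lit 3408231) (dlOf (nat_lit 1) (nat_lit 0x400200020008200702))) 
(.lf (nat_lit 3473767) (dlOf (nat_lit 3) (nat_lit 0x321b990001981002cdcc8000c40800b0008002c00200040008200703)))))) 
(.nd (nat_lit 7) (.nd (nat_lit 8) (.nd (nat_lit 18) 
(.lf (nat_lit 14745703) (dlOf (nat_lit 2) (nat_lit 0x754a0009d818770d00))) 
(.lf (nat_lit 7143527) (dlOf (nat_lit 1) (nat_lit 0x4004000200084b0482)))) 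
(.lf (nat_lit 39848295) (dlOf (nat_lit 1) (nat_lit 0xe00291f4e81)))) (.nd (nat_lit 9) 
(.lf (nat_lit 7934183) (dlOf (nat_lit 1) (nat_lit 0x2c0028518081))) (.nd (nat_lit 16) 
(.lf (nat_lit 49810151) (dlOf (nat_lit 1) (nat_lit 0x8400194c5981))) 
(.lf (nat_lit 57215719) (dlOf (nat_lit 1) (nat_lit 0x400200020009795982)))))))) (.nd (nat_lit 31) 
(.nd (nat_lit 32) (.nd (nat_lit 21) (.nd (nat_lit 7) (.nd (nat_lit 8) 
(.lf (nat_lit 1342182503) (dlOf (nat_lit 1) (nat_lit 0x400400020008009402))) 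
(.lf (nat_lit 1879051623) (dlOf (nat_lit 1) (nat_lit 0x20028006a81)))) (.nd (nat_lit 8) 
(.lf (nat_lit 1476399335) (dlOf (nat_lit 1) (nat_lit 0x8008000400200020008008083))) 
(.lf (nat_lit 1342702055) (dlOf (nat_lit 1) (nat_lit 0x200180c0c81))))) (.nd (nat_lit 16) 
(.lf (nat_lit 1344274535) (dlOf (nat_lit 13) (nat_lit 0xf123000709080028476000e236000a0e600078710002c018001048c0012242000811d800188d8000c39800101c400070e000057c3800489180018484001223b000411b0005873000243880015d0c000824600010e700138730000c39400061c400010e100028700002b01c000c47600061cc00030e200055c1800589180028484001223b000111b000307300028388001560c000624600020e600018710002aa0c001448c000824200090e8000207100024380000d90a001a246000a121000088ec002846c00121d0000e0e600088710002c380000d7100016246000e121000588ec00ac46c00141d000230e6000707100028380000cf1000062460003121000188ec000c46c00061d000060e600018710000c380000ce1000082460003121000088ec00243a000061c400090e00003343000200080040002001c0008560d03)))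 
(.nd (nat_lit 18) 
(.lf (nat_lit 1345388647) (dlOf (nat_lit 3) (nat_lit 0x5504e000582300004c080010138000170200040018b90981))) 
(.lf (nat_lit 1346175079) (dlOf (nat_lit 1) (nat_lit 0x60008e60981)))))) (.nd (nat_lit 16) 
(.nd (nat_lit 7) (.nd (nat_lit 29) 
(.lf (nat_lit 5771627111) (dlOf (nat_lit 1) (nat_lit 0x40028005381))) 
(.lf (nat_lit 6308498023) (dlOf (nat_lit 1) (nat_lit 0x4002000200080d5382)))) 
(.lf (nat_lit 4563665127) (dlOf (nat_lit 1) (nat_lit 0x80080004002000200080c1d83)))) 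
(.nd (nat_lit 7) (.nd (nat_lit 27) 
(.lf (nat_lit 5100339559) (dlOf (nat_lit 1) (nat_lit 0x6800400020018050f02))) 
(.lf (nat_lit 4697686375) (dlOf (nat_lit 2) (nat_lit 0x1405e0000402001c0008090f01)))) 
(.lf (nat_lit 6174343399) (dlOf (nat_lit 1) (nat_lit 0x400400120008101b82)))))) (.nd (nat_lit 7) 
(.nd (nat_lit 11) (.nd (nat_lit 16) (.nd (nat_lit 18) 
(.lf (nat_lit 3493855591) (dlOf (nat_lit 2) (nat_lit 0xe406b000138181b0700))) 
(.lf (nat_lit 3494117735) (dlOf (nat_lit 9) (nat_lit 0x47607b000198102ae03d8000c80811801ec00062040a680f6000300200ce0a0000138100f803d8000940806801ec000420401180f60000002001200281b0701)))) 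
(.lf (nat_lit 3493921127) (dlOf (nat_lit 3) (nat_lit 0x5002a000290200fa06b000138181b0700)))) 
(.nd (nat_lit 8) (.nd (nat_lit 9) 
(.lf (nat_lit 2952797287) (dlOf (nat_lit 1) (nat_lit 0x40040002000800c082))) 
(.lf (nat_lit 6710954599) (dlOf (nat_lit 1) (nat_lit 0x400400020008005382)))) 
(.lf (nat_lit 2550140263) (dlOf (nat_lit 1) (nat_lit 0x400400020008006a82))))) (.nd (nat_lit 8) 
(.nd (nat_lit 9) (.nd (nat_lit 10) 
(.lf (nat_lit 4026534119) (dlOf (nat_lit 1) (nat_lit 0x400400020008004b02))) 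
(.lf (nat_lit 2952797415) (dlOf (nat_lit 1) (nat_lit 0x6000800c601)))) 
(.lf (nat_lit 2952795879) (dlOf (nat_lit 1) (nat_lit 0x2800800040020004000800a003)))) 
(.nd (nat_lit 9) (.nd (nat_lit 11) 
(.lf (nat_lit 3490709991) (dlOf (nat_lit 8) (nat_lit 0x18e03300c8018401f80b801f60570171020003f00f80005e1806600cc032c061007e02e0011816404080ae02fe040007e01f0000b4380310100000560401840800002a0200260400001401000b0000000880800500e40002c0400b000400300018017302))) 
(.lf (nat_lit 3623885287) (dlOf (nat_lit 1) (nat_lit 0x1000800040020002000800b283)))) 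
(.lf (nat_lit 3623950311) (dlOf (nat_lit 1) (nat_lit 0x40040002000800a602)))))))) (.nd (nat_lit 19) 
(.nd (nat_lit 28) (.nd (nat_lit 10) (.nd (nat_lit 7) (.nd (nat_lit 8) (.nd (nat_lit 16) 
(.lf (nat_lit 52437095) (dlOf (nat_lit 2) (nat_lit 0x6da4e0000e0200040029530981))) 
(.lf (nat_lit 44114023) (dlOf (nat_lit 1) (nat_lit 0x4002000200092c0d82)))) (.nd (nat_lit 11) 
(.lf (nat_lit 3481959) (dlOf (nat_lit 2) (nat_lit 0x14c00000019818200700))) 
(.lf (nat_lit 51390823) (dlOf (nat_lit 1) (nat_lit 0xc00400040019514e82))))) (.nd (nat_lit 8) 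
(.lf (nat_lit 2818908391) (dlOf (nat_lit 1) (nat_lit 0x118008006800200320008130683))) 
(.nd (nat_lit 16) (.lf (nat_lit 5905850855) (dlOf (nat_lit 1) (nat_lit 0xa20028157d01))) 
(.lf (nat_lit 11608551) (dlOf (nat_lit 1) (nat_lit 0x3b400201f800086c0c82)))))) (.nd (nat_lit 7) 
(.nd (nat_lit 8) (.nd (nat_lit 9) 
(.lf (nat_lit 2818849895) (dlOf (nat_lit 2) (nat_lit 0x11021003500fc0005008009c00200ac000812c082))) 
(.lf (nat_lit 1610688103) (dlOf (nat_lit 1) (nat_lit 0x160018093901)))) (.nd (nat_lit 16) 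
(.lf (nat_lit 4429195111) (dlOf (nat_lit 1) (nat_lit 0x20008004001))) 
(.lf (nat_lit 8726375) (dlOf (nat_lit 1) (nat_lit 0x20028514001))))) (.nd (nat_lit 9) 
(.lf (nat_lit 11495) (dlOf (nat_lit 1) (nat_lit 0x6c002000c0008006502))) (.nd (nat_lit 11) 
(.lf (nat_lit 671164135) (dlOf (nat_lit 1) (nat_lit 0x40028143a81))) 
(.lf (nat_lit 4294979303) (dlOf (nat_lit 1) (nat_lit 0x20008007401))))))) (.nd (nat_lit 30) 
(.nd (nat_lit 9) (.nd (nat_lit 29) (.nd (nat_lit 7) 
(.lf (nat_lit 4697694567) (dlOf (nat_lit 2) (nat_lit 0x401a000014080078008002400200420008090f03))) 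
(.lf (nat_lit 4697891047) (dlOf (nat_lit 7) (nat_lit 0x1001200071810069009000388080310048000f60401040240007a0200800120003c8100410090001e00801880080030002001800080c1b83)))) 
(.nd (nat_lit 31) 
(.lf (nat_lit 939598183) (dlOf (nat_lit 1) (nat_lit 0x80080004002007600080b0703))) 
(.lf (nat_lit 3087081831) (dlOf (nat_lit 3) (nat_lit 0x1f0020000290200f800c000138180b0700))))) 
(.nd (nat_lit 10) (.nd (nat_lit 8) 
(.lf (nat_lit 5100546663) (dlOf (nat_lit 2) (nat_lit 0x40320002018800180bc000c05a000402c0002015000100a400080500003b10000400080d5381))) 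
(.lf (nat_lit 4563479399) (dlOf (nat_lit 1) (nat_lit 0x100080004002000c0008095c03)))) 
(.nd (nat_lit 7) (.lf (nat_lit 2415929191) (dlOf (nat_lit 1) (nat_lit 0x400400020008004002))) 
(.lf (nat_lit 2952802279) (dlOf (nat_lit 1) (nat_lit 0x80080054002001a0008007a83)))))) 
(.nd (nat_lit 7) (.nd (nat_lit 8) 
(.lf (nat_lit 3494191207) (dlOf (nat_lit 1) (nat_lit 0x8004000400081c1402))) (.nd (nat_lit 18) 
(.lf (nat_lit 3493863783) (dlOf (nat_lit 3) (nat_lit 0xb2053801302840064140000290600100a3000138181b0700))) 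
(.lf (nat_lit 3494125927) (dlOf (nat_lit 2) (nat_lit 0xf401c000148181b0700))))) (.nd (nat_lit 8) 
(.nd (nat_lit 11) (.lf (nat_lit 1342189799) (dlOf (nat_lit 1) (nat_lit 0x800200020008008082))) 
(.lf (nat_lit 1342191847) (dlOf (nat_lit 1) (nat_lit 0x2002800a881)))) (.nd (nat_lit 9) 
(.lf (nat_lit 5772681703) (dlOf (nat_lit 1) (nat_lit 0x8008000400200020008091303))) 
(.lf (nat_lit 1346642919) (dlOf (nat_lit 1) (nat_lit 0x20028fe2881)))))))) (.nd (nat_lit 20) 
(.nd (nat_lit 16) (.nd (nat_lit 7) (.nd (nat_lit 8) (.nd (nat_lit 9) 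
(.lf (nat_lit 48767079) (dlOf (nat_lit 3) (nat_lit 0x9d4600042020044ede001a7520003b8c0006c000000130800080029420981))) 
(.lf (nat_lit 46672487) (dlOf (nat_lit 1) (nat_lit 0x1800400020009385382)))) 
(.lf (nat_lit 61350247) (dlOf (nat_lit 1) (nat_lit 0x140019920f01)))) (.nd (nat_lit 8) 
(.nd (nat_lit 9) 
(.lf (nat_lit 3892846823) (dlOf (nat_lit 2) (nat_lit 0x20064000f2040108002001e0008280602))) 
(.lf (nat_lit 57158375) (dlOf (nat_lit 2) (nat_lit 0x161080002604000400400020009795982)))) 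
(.lf (nat_lit 49030119) (dlOf (nat_lit 2) (nat_lit 0x3d4600068602000a0029462881))))) 
(.nd (nat_lit 18) (.nd (nat_lit 8) (.nd (nat_lit 9) 
(.lf (nat_lit 42541159) (dlOf (nat_lit 2) (nat_lit 0x1200000000019260980))) 
(.lf (nat_lit 46738023) (dlOf (nat_lit 1) (nat_lit 0x8008000400200020009385383)))) 
(.lf (nat_lit 61415783) (dlOf (nat_lit 1) (nat_lit 0x400200020009920f02)))) (.nd (nat_lit 21) 
(.lf (nat_lit 59580519) (dlOf (nat_lit 1) (nat_lit 0x400400020019811e82))) 
(.lf (nat_lit 7151719) (dlOf (nat_lit 1) (nat_lit 0xc00184b0481)))))) (.nd (nat_lit 7) 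
(.nd (nat_lit 9) (.nd (nat_lit 16) (.nd (nat_lit 18) 
(.lf (nat_lit 3678311) (dlOf (nat_lit 1) (nat_lit 0x28008000400200040008211383))) 
(.lf (nat_lit 45883495) (dlOf (nat_lit 2) (nat_lit 0xed0fe000130200020019360981)))) 
(.lf (nat_lit 1346183271) (dlOf (nat_lit 2) (nat_lit 0x590b000400364015c1380000e06000a0018e60981)))) 
(.nd (nat_lit 18) (.lf (nat_lit 20458087) (dlOf (nat_lit 1) (nat_lit 0x400289d5381))) 
(.lf (nat_lit 1880894055) (dlOf (nat_lit 1) (nat_lit 0x18004000a0008c95382))))) (.nd (nat_lit 9) 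
(.nd (nat_lit 10) (.lf (nat_lit 28844263) (dlOf (nat_lit 1) (nat_lit 0x60028da0601))) 
(.nd (nat_lit 12) 
(.lf (nat_lit 43787495) (dlOf (nat_lit 1) (nat_lit 0x300080054002001c00092a2e03))) 
(.lf (nat_lit 8140007) (dlOf (nat_lit 1) (nat_lit 0x40018519501))))) (.nd (nat_lit 8) 
(.lf (nat_lit 20459239) (dlOf (nat_lit 1) (nat_lit 0x200289d7401))) (.nd (nat_lit 16) 
(.lf (nat_lit 41427943) (dlOf (nat_lit 1) (nat_lit 0x400200020009242882))) 
(.lf (nat_lit 1345922023) (dlOf (nat_lit 1) (nat_lit 0x8004000c0008e22882)))))))))) 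
(.nd (nat_lit 8) (.nd (nat_lit 7) (.nd (nat_lit 9) (.nd (nat_lit 18) (.nd (nat_lit 19) 
(.nd (nat_lit 10) (.nd (nat_lit 20) 
(.lf (nat_lit 471859303) (dlOf (nat_lit 13) (nat_lit 0xf123000709080028476000e236000a0e600078710002c018001048c0012242000811d800188d8000c39800101c400070e000057c3800489180018484001223b000411b0005873000243880015d0c000824600010e700138730000c39400061c400010e100028700002b01c000c47600061cc00030e200055c1800589180028484001223b000111b000307300028388001560c000624600020e600018710002aa0c001448c000824200090e8000207100024380000d90a001a246000a121000088ec002846c00121d0000e0e600088710002c380000d7100016246000e121000588ec00ac46c00141d000230e6000707100028380000cf1000062460003121000188ec000c46c00061d000060e600018710000c380000ce1000082460003121000088ec00243a000061c400090e00003343000200080040002001c0008540d03))) 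
(.lf (nat_lit 68157543) (dlOf (nat_lit 1) (nat_lit 0x5800400020018400d02)))) 
(.lf (nat_lit 3690992743) (dlOf (nat_lit 1) (nat_lit 0x1500008009401)))) (.nd (nat_lit 13) 
(.lf (nat_lit 4228382823) (dlOf (nat_lit 2) (nat_lit 0x2401900001008038800800e0002004600080a1383))) 
(.lf (nat_lit 474554471) (dlOf (nat_lit 17) (nat_lit 0x510b3802a0210008402c00056060012156001b0a180012010007055800702860004704001615600160a180011410003055800482860004404004815600330a180010c10117855808f028604640cc000d04b00ec8210000841400182ac00101430002082009f0ab0056850c0008008018c2ac00e81430001f02008c0a18026833000201080003c06003a156001d0a18000ec10032855801bc28600038040032156001b0a18000dc1000e050c000680400ec2ac0074143000198291a0980))))) 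
(.nd (nat_lit 13) (.nd (nat_lit 16) 
(.lf (nat_lit 2483290215) (dlOf (nat_lit 1) (nat_lit 0x200180a1381))) (.nd (nat_lit 21) 
(.lf (nat_lit 3288662119) (dlOf (nat_lit 1) (nat_lit 0x200180a1381))) 
(.lf (nat_lit 2753888359) (dlOf (nat_lit 1) (nat_lit 0x2bc004028e00080a1402))))) (.nd (nat_lit 10) 
(.nd (nat_lit 16) (.lf (nat_lit 4096532583) (dlOf (nat_lit 1) (nat_lit 0xb800200660008120782))) 
(.lf (nat_lit 474292327) (dlOf (nat_lit 1) (nat_lit 0x80008001000200080009120783)))) 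
(.lf (nat_lit 3557045351) (dlOf (nat_lit 11) (nat_lit 0x4c08c004801c0001782003a023001f00700005a0800140ca008c046005d00e0000ac18022811801700380002a0400100650047023002e0070000500c01d0000000220200d2000000100100770000000740802981bc0048068000a01e0000c83003e037800480d00002c08050000200680008129402)))))) 
(.nd (nat_lit 16) (.nd (nat_lit 27) (.nd (nat_lit 10) (.nd (nat_lit 13) 
(.lf (nat_lit 4899211879) (dlOf (nat_lit 1) (nat_lit 0x100080008002000400080d5383))) 
(.lf (nat_lit 4899220071) (dlOf (nat_lit 1) (nat_lit 0x10004000400180d5382)))) 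
(.lf (nat_lit 2214598247) (dlOf (nat_lit 1) (nat_lit 0x400200020008009c02)))) (.nd (nat_lit 29) 
(.nd (nat_lit 10) 
(.lf (nat_lit 5570300519) (dlOf (nat_lit 3) (nat_lit 0x8021000250100020108000ec0800380080044002002200080d5383))) 
(.lf (nat_lit 3422557799) (dlOf (nat_lit 1) (nat_lit 0x20028009c01)))) (.nd (nat_lit 13) 
(.lf (nat_lit 6107171431) (dlOf (nat_lit 1) (nat_lit 0x8008002400200020008095383))) 
(.lf (nat_lit 1008478823) (dlOf (nat_lit 1) (nat_lit 0x800200020008c95382)))))) (.nd (nat_lit 11) 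
(.nd (nat_lit 10) (.lf (nat_lit 2617320039) (dlOf (nat_lit 1) (nat_lit 0x400180a1781))) 
(.lf (nat_lit 6106973799) (dlOf (nat_lit 1) (nat_lit 0x400400020008003902)))) (.nd (nat_lit 13) 
(.nd (nat_lit 27) 
(.lf (nat_lit 5167450727) (dlOf (nat_lit 2) (nat_lit 0x8050000000200100008055381))) 
(.lf (nat_lit 5301668455) (dlOf (nat_lit 3) (nat_lit 0x980e4000940400040200003f0200480028005381)))) 
(.lf (nat_lit 5167458919) (dlOf (nat_lit 1) (nat_lit 0x6c004000c0018055382))))))) (.nd (nat_lit 16) 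
(.nd (nat_lit 10) (.nd (nat_lit 11) (.nd (nat_lit 13) (.nd (nat_lit 18) 
(.lf (nat_lit 4095213799) (dlOf (nat_lit 1) (nat_lit 0x400400380008081d82))) 
(.lf (nat_lit 5301862631) (dlOf (nat_lit 2) (nat_lit 0xed0044001c604039c004008a00080c1b82)))) 
(.nd (nat_lit 19) 
(.lf (nat_lit 5301870823) (dlOf (nat_lit 8) (nat_lit 0x538050075c022000e304004a011000710100760088003840805f8044000f60400b00220007a02009a0110003c81003f0088001e0080880008014c002094a00080c1b83))) 
(.lf (nat_lit 6376136935) (dlOf (nat_lit 4) (nat_lit 0x7843c00b021c0016104003a10d00080000002741000c043400140000008e0400020018090a81))))) 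
(.nd (nat_lit 12) (.nd (nat_lit 27) 
(.lf (nat_lit 4362078439) (dlOf (nat_lit 1) (nat_lit 0x20018004b01))) 
(.lf (nat_lit 201328871) (dlOf (nat_lit 1) (nat_lit 0x20008004b01)))) 
(.lf (nat_lit 469776615) (dlOf (nat_lit 1) (nat_lit 0x2001800a881))))) (.nd (nat_lit 27) 
(.nd (nat_lit 12) (.lf (nat_lit 1946168551) (dlOf (nat_lit 1) (nat_lit 0x20018006501))) 
(.lf (nat_lit 603987175) (dlOf (nat_lit 1) (nat_lit 0x6000800c601)))) (.nd (nat_lit 29) 
(.lf (nat_lit 469769447) (dlOf (nat_lit 1) (nat_lit 0xb8008000c0020006000800c603))) 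
(.lf (nat_lit 1006640359) (dlOf (nat_lit 1) (nat_lit 0x6000800c601)))))) (.nd (nat_lit 18) 
(.nd (nat_lit 10) (.nd (nat_lit 11) 
(.lf (nat_lit 3154706663) (dlOf (nat_lit 2) (nat_lit 0x20064000f6040108002001e0008310602))) 
(.lf (nat_lit 2348878055) (dlOf (nat_lit 1) (nat_lit 0x8008000400200180008004b03)))) 
(.nd (nat_lit 27) (.nd (nat_lit 28) 
(.lf (nat_lit 5435884775) (dlOf (nat_lit 4) (nat_lit 0x20130002001000e009800680340007e0800080280003e0200160028002e01))) 
(.lf (nat_lit 872482023) (dlOf (nat_lit 1) (nat_lit 0x20018092e01)))) 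
(.lf (nat_lit 6106973415) (dlOf (nat_lit 1) (nat_lit 0x400200020008002e02))))) (.nd (nat_lit 13) 
(.nd (nat_lit 19) (.nd (nat_lit 27) 
(.lf (nat_lit 4899274983) (dlOf (nat_lit 1) (nat_lit 0x8004000200080f1d82))) 
(.lf (nat_lit 6107234535) (dlOf (nat_lit 1) (nat_lit 0x80080004002000200080c1d83)))) 
(.lf (nat_lit 6377242855) (dlOf (nat_lit 1) (nat_lit 0x8004000200080c1d82)))) (.nd (nat_lit 11) 
(.nd (nat_lit 27) (.lf (nat_lit 6241460455) (dlOf (nat_lit 1) (nat_lit 0xc00280f1d81))) 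
(.lf (nat_lit 2080710887) (dlOf (nat_lit 1) (nat_lit 0x4c00080c1b81)))) 
(.lf (nat_lit 2886019303) (dlOf (nat_lit 1) (nat_lit 0x20008002400200100008144b03)))))))) 
(.nd (nat_lit 9) (.nd (nat_lit 29) (.nd (nat_lit 7) (.nd (nat_lit 16) (.nd (nat_lit 10) 
(.lf (nat_lit 4630511975) (dlOf (nat_lit 1) (nat_lit 0x10008000400200020008000f03))) 
(.lf (nat_lit 3288337767) (dlOf (nat_lit 1) (nat_lit 0x400400020008006a82)))) (.nd (nat_lit 13) 
(.nd (nat_lit 18) (.lf (nat_lit 6509625703) (dlOf (nat_lit 1) (nat_lit 0x1600280b0701))) 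
(.lf (nat_lit 5838799207) (dlOf (nat_lit 1) (nat_lit 0x28008000c002000800081b0703)))) 
(.lf (nat_lit 3557106023) (dlOf (nat_lit 1) (nat_lit 0x1180080084002001c0008130983))))) 
(.nd (nat_lit 11) (.nd (nat_lit 13) (.nd (nat_lit 18) 
(.lf (nat_lit 470286823) (dlOf (nat_lit 1) (nat_lit 0x200180c0c81))) 
(.lf (nat_lit 6509822439) (dlOf (nat_lit 4) (nat_lit 0x80130001780800080980008804001004c0004302000e0008157301)))) 
(.lf (nat_lit 6509830631) (dlOf (nat_lit 6) (nat_lit 0x24a026012500b800178100930098049802e0005c0401c002600ff00b8001101007c809803f802e000430400de026006200b800100100040008002c00200040008157303)))) 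
(.nd (nat_lit 27) (.lf (nat_lit 4362082791) (dlOf (nat_lit 1) (nat_lit 0x2002800b281))) 
(.lf (nat_lit 469768679) (dlOf (nat_lit 1) (nat_lit 0xc002800b281)))))) (.nd (nat_lit 13) 
(.nd (nat_lit 19) (.nd (nat_lit 16) (.nd (nat_lit 20) 
(.lf (nat_lit 2755658087) (dlOf (nat_lit 2) (nat_lit 0xe406b000138181b0700))) 
(.lf (nat_lit 2752512359) (dlOf (nat_lit 1) (nat_lit 0x20008015201)))) 
(.lf (nat_lit 2755723623) (dlOf (nat_lit 2) (nat_lit 0xf801c000148181b0700)))) (.nd (nat_lit 10) 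
(.lf (nat_lit 1946681703) (dlOf (nat_lit 2) (nat_lit 0x156005000198181b0700))) 
(.lf (nat_lit 604505447) (dlOf (nat_lit 1) (nat_lit 0x4002002e00082d3482))))) (.nd (nat_lit 27) 
(.nd (nat_lit 16) (.nd (nat_lit 21) 
(.lf (nat_lit 2755666279) (dlOf (nat_lit 3) (nat_lit 0xb2052001302840064140000290600100ac000138181b0700))) 
(.lf (nat_lit 4095746407) (dlOf (nat_lit 2) (nat_lit 0x26004000090180e0f00)))) 
(.lf (nat_lit 3825279335) (dlOf (nat_lit 3) (nat_lit 0x1f0020000290200f800c000138180b0700)))) 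
(.nd (nat_lit 7) (.nd (nat_lit 10) 
(.lf (nat_lit 1812013415) (dlOf (nat_lit 1) (nat_lit 0x80080004002007600080b0703))) 
(.lf (nat_lit 2885696871) (dlOf (nat_lit 1) (nat_lit 0xe00020158000800c902)))) 
(.lf (nat_lit 4227870183) (dlOf (nat_lit 1) (nat_lit 0x400200020008006e82))))))) (.nd (nat_lit 13) 
(.nd (nat_lit 29) (.nd (nat_lit 30) (.nd (nat_lit 11) 
(.lf (nat_lit 4630512615) (dlOf (nat_lit 1) (nat_lit 0x400400020018002882))) 
(.lf (nat_lit 67116007) (dlOf (nat_lit 1) (nat_lit 0x4002800bf01)))) (.nd (nat_lit 32) 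
(.lf (nat_lit 1140851687) (dlOf (nat_lit 1) (nat_lit 0x8008000400200020008002883))) 
(.lf (nat_lit 5435818983) (dlOf (nat_lit 1) (nat_lit 0x20008002881))))) (.nd (nat_lit 18) 
(.nd (nat_lit 27) (.nd (nat_lit 12) 
(.lf (nat_lit 2751464423) (dlOf (nat_lit 1) (nat_lit 0x2200008002881))) 
(.lf (nat_lit 604050407) (dlOf (nat_lit 1) (nat_lit 0x20028009201)))) (.nd (nat_lit 11) 
(.lf (nat_lit 6375343079) (dlOf (nat_lit 1) (nat_lit 0x3a0028002881))) 
(.lf (nat_lit 5301603303) (dlOf (nat_lit 1) (nat_lit 0x20028005e81))))) (.nd (nat_lit 7) 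
(.lf (nat_lit 2752251751) (dlOf (nat_lit 1) (nat_lit 0x180008004001))) (.nd (nat_lit 11) 
(.lf (nat_lit 2751726567) (dlOf (nat_lit 1) (nat_lit 0x400200020008002882))) 
(.lf (nat_lit 738462695) (dlOf (nat_lit 1) (nat_lit 0x400200020008095e82))))))) (.nd (nat_lit 27) 
(.nd (nat_lit 29) (.nd (nat_lit 12) 
(.lf (nat_lit 4362085351) (dlOf (nat_lit 1) (nat_lit 0x8008000800200020008002883))) 
(.lf (nat_lit 3557045223) (dlOf (nat_lit 2) (nat_lit 0x4d01f80130c080060008000800200300008129203)))) 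
(.nd (nat_lit 10) (.lf (nat_lit 2751472615) (dlOf (nat_lit 1) (nat_lit 0x400200020008002882))) 
(.lf (nat_lit 603992039) (dlOf (nat_lit 1) (nat_lit 0x20018007a81))))) (.nd (nat_lit 10) 
(.nd (nat_lit 11) (.lf (nat_lit 6375351271) (dlOf (nat_lit 1) (nat_lit 0x20028002881))) 
(.nd (nat_lit 16) (.lf (nat_lit 738470887) (dlOf (nat_lit 1) (nat_lit 0x400200020008095e82))) 
(.lf (nat_lit 738274279) (dlOf (nat_lit 1) (nat_lit 0x400200020008095e82))))) (.nd (nat_lit 7) 
(.lf (nat_lit 1006643047) (dlOf (nat_lit 1) (nat_lit 0x20008004001))) 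
(.lf (nat_lit 1543518183) (dlOf (nat_lit 2) (nat_lit 0x400a0009100400100040006000800a602))))))))))) 
(.nd (nat_lit 13) (.nd (nat_lit 16) (.nd (nat_lit 18) (.nd (nat_lit 28) (.nd (nat_lit 6) 
(.nd (nat_lit 19) (.nd (nat_lit 8) (.nd (nat_lit 10) (.nd (nat_lit 20) 
(.lf (nat_lit 21102631) (dlOf (nat_lit 1) (nat_lit 0x6800800c400200420008a10603))) 
(.lf (nat_lit 47317031) (dlOf (nat_lit 1) (nat_lit 0x10002002000093d0a82)))) 
(.lf (nat_lit 20057127) (dlOf (nat_lit 1) (nat_lit 0xc004000600189d6082)))) (.nd (nat_lit 7) 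
(.nd (nat_lit 9) (.lf (nat_lit 738328871) (dlOf (nat_lit 2) (nat_lit 0x6c02100067818090a80))) 
(.lf (nat_lit 3221363495) (dlOf (nat_lit 3) (nat_lit 0xa0460023081001002300116c0805780080090002010a000811bc83)))) 
(.nd (nat_lit 10) (.lf (nat_lit 49416615) (dlOf (nat_lit 1) (nat_lit 0x20009464e81))) 
(.lf (nat_lit 3221364135) (dlOf (nat_lit 9) (nat_lit 0xa8138003404e0018023004300f80048078007c02400200000001887000a0138012808c011403e006001200260000000c02800101380005e04009c0ac0002e0200460560005005000010100078158000c0140000304002e056000010100080130000000800180080064002002e000811cb83)))))) 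
(.nd (nat_lit 24) (.nd (nat_lit 26) (.nd (nat_lit 21) (.nd (nat_lit 29) 
(.lf (nat_lit 3221880871) (dlOf (nat_lit 2) (nat_lit 0x1a801c0001802000400181a0c01))) 
(.lf (nat_lit 537526311) (dlOf (nat_lit 1) (nat_lit 0x2a00180a0901)))) 
(.lf (nat_lit 11141159) (dlOf (nat_lit 3) (nat_lit 0xb6000000298101e20000000cc0800080080088002003c0008660603)))) 
(.nd (nat_lit 21) (.nd (nat_lit 27) 
(.lf (nat_lit 1678376999) (dlOf (nat_lit 1) (nat_lit 0xc00400160008200c82))) 
(.lf (nat_lit 3960078375) (dlOf (nat_lit 1) (nat_lit 0x12000800a4002006200081a0c83)))) 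
(.lf (nat_lit 2754215975) (dlOf (nat_lit 1) (nat_lit 0x58008003c002003400080c0c83))))) 
(.nd (nat_lit 7) (.nd (nat_lit 20) (.nd (nat_lit 21) 
(.lf (nat_lit 21626919) (dlOf (nat_lit 1) (nat_lit 0x400200020008a50a82))) 
(.lf (nat_lit 53084199) (dlOf (nat_lit 1) (nat_lit 0x80029570001)))) 
(.lf (nat_lit 22675495) (dlOf (nat_lit 1) (nat_lit 0x3000200120008b10802)))) (.nd (nat_lit 10) 
(.lf (nat_lit 60424359) (dlOf (nat_lit 1) (nat_lit 0x1860009852c01))) 
(.lf (nat_lit 32113831) (dlOf (nat_lit 2) (nat_lit 0x147e80005f0200060018ef2c01))))))) 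
(.nd (nat_lit 11) (.nd (nat_lit 8) (.nd (nat_lit 19) 
(.lf (nat_lit 24248423) (dlOf (nat_lit 1) (nat_lit 0x40028b91381))) (.nd (nat_lit 20) 
(.lf (nat_lit 4849767) (dlOf (nat_lit 1) (nat_lit 0xa00080024002001600082d0d03))) 
(.lf (nat_lit 45744231) (dlOf (nat_lit 2) (nat_lit 0x2033e80004c080028008001400200060009360983))))) 
(.nd (nat_lit 7) (.nd (nat_lit 10) 
(.lf (nat_lit 2755789159) (dlOf (nat_lit 2) (nat_lit 0xd80d60002031000138281b0700))) 
(.lf (nat_lit 2818704743) (dlOf (nat_lit 1) (nat_lit 0x10004000600180d3482)))) 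
(.lf (nat_lit 38929383) (dlOf (nat_lit 1) (nat_lit 0x18008000400200020009192883))))) 
(.nd (nat_lit 10) (.nd (nat_lit 26) (.nd (nat_lit 8) 
(.lf (nat_lit 8521831) (dlOf (nat_lit 1) (nat_lit 0x20028514701))) 
(.lf (nat_lit 3221358951) (dlOf (nat_lit 1) (nat_lit 0x2800200080008114e82)))) (.nd (nat_lit 7) 
(.lf (nat_lit 738330983) (dlOf (nat_lit 1) (nat_lit 0x20018094e81))) 
(.lf (nat_lit 3959560679) (dlOf (nat_lit 1) (nat_lit 0xba00080538002048a000811b283))))) 
(.nd (nat_lit 7) (.nd (nat_lit 8) 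
(.lf (nat_lit 138343) (dlOf (nat_lit 1) (nat_lit 0x800800040020002000800c083))) 
(.lf (nat_lit 3221359975) (dlOf (nat_lit 1) (nat_lit 0x80018116a81)))) 
(.lf (nat_lit 3221360103) (dlOf (nat_lit 1) (nat_lit 0x1e80080004002002c0008116e83))))))) 
(.nd (nat_lit 26) (.nd (nat_lit 6) (.nd (nat_lit 8) (.nd (nat_lit 9) (.nd (nat_lit 20) 
(.lf (nat_lit 1879179303) (dlOf (nat_lit 1) (nat_lit 0x2280080004002003c0008050e03))) 
(.lf (nat_lit 1343356967) (dlOf (nat_lit 1) (nat_lit 0xa40018200701)))) 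
(.lf (nat_lit 5637277223) (dlOf (nat_lit 1) (nat_lit 0x4004000200080d3702)))) (.nd (nat_lit 7) 
(.lf (nat_lit 805444391) (dlOf (nat_lit 1) (nat_lit 0x25800800940020012000811bc83))) 
(.nd (nat_lit 10) (.lf (nat_lit 402784679) (dlOf (nat_lit 1) (nat_lit 0x20018091001))) 
(.lf (nat_lit 805445031) (dlOf (nat_lit 11) (nat_lit 0x3802a8017013800ac06e005e02b002a012001a804800dc020006400a002c00400168018000382800e80aa005a04e002e01b8014009000e0024006200a0000d86002a02a8016013800a806e006e02b003e0120015004800ac020006c00a002200400190018000342800c00ac001a0550021027000080c80084026000180a005a02d0000a8100290228000810c0048078006602d002201580108028000281800040a80001102000a0560000501000602b00000c080030158000020400ac0040004000811cb82)))))) 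
(.nd (nat_lit 7) (.nd (nat_lit 8) (.nd (nat_lit 9) 
(.lf (nat_lit 1344929895) (dlOf (nat_lit 2) (nat_lit 0x7c1b2003e09c001f0468000381800a80080068002001600089a0983))) 
(.lf (nat_lit 805441127) (dlOf (nat_lit 2) (nat_lit 0x40038001c604002800400320008117182)))) 
(.lf (nat_lit 4697751911) (dlOf (nat_lit 2) (nat_lit 0xc02f00002018090f00)))) (.nd (nat_lit 8) 
(.nd (nat_lit 10) (.lf (nat_lit 6711017703) (dlOf (nat_lit 1) (nat_lit 0x400400020008031d82))) 
(.lf (nat_lit 5772543207) (dlOf (nat_lit 2) (nat_lit 0x603900007018092e00)))) 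
(.lf (nat_lit 805440999) (dlOf (nat_lit 1) (nat_lit 0x22000800e400200560008116e83)))))) 
(.nd (nat_lit 9) (.nd (nat_lit 19) (.nd (nat_lit 6) 
(.lf (nat_lit 1006764071) (dlOf (nat_lit 1) (nat_lit 0x2280080004002003c0008050e03))) 
(.nd (nat_lit 8) 
(.lf (nat_lit 2617382119) (dlOf (nat_lit 3) (nat_lit 0x3402e00273010005017001394080110008003c002000c00080a9503))) 
(.lf (nat_lit 1946288615) (dlOf (nat_lit 1) (nat_lit 0x48008000c00200100008017303))))) 
(.nd (nat_lit 27) (.nd (nat_lit 31) 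
(.lf (nat_lit 1409941543) (dlOf (nat_lit 1) (nat_lit 0x2a00180a0901))) 
(.lf (nat_lit 3557425191) (dlOf (nat_lit 1) (nat_lit 0x100080028002000200081f0703)))) 
(.nd (nat_lit 21) 
(.lf (nat_lit 3154772007) (dlOf (nat_lit 1) (nat_lit 0x30008001c00200220008320d83))) 
(.lf (nat_lit 472514599) (dlOf (nat_lit 4) (nat_lit 0x17859800142ac0002096000160300790b4803d85a002082b0010c145007c00c0000102800b04f400000040068004000600189b0782)))))) 
(.nd (nat_lit 8) (.nd (nat_lit 11) (.nd (nat_lit 19) 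
(.lf (nat_lit 1946288679) (dlOf (nat_lit 1) (nat_lit 0x40028017f01))) 
(.lf (nat_lit 473563687) (dlOf (nat_lit 5) (nat_lit 0x508c80038460000d00800142320006602000c1180003201000208c800000080258008001400200060008f68803)))) 
(.lf (nat_lit 6241258023) (dlOf (nat_lit 1) (nat_lit 0x80080020002000200080d5183)))) 
(.nd (nat_lit 6) (.nd (nat_lit 7) 
(.lf (nat_lit 4094823207) (dlOf (nat_lit 1) (nat_lit 0x400200020008055c02))) 
(.lf (nat_lit 5704387495) (dlOf (nat_lit 1) (nat_lit 0x20028055d01)))) 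
(.lf (nat_lit 1409424231) (dlOf (nat_lit 1) (nat_lit 0x2001800bc81)))))))) (.nd (nat_lit 19) 
(.nd (nat_lit 20) (.nd (nat_lit 27) (.nd (nat_lit 26) (.nd (nat_lit 21) (.nd (nat_lit 8) 
(.lf (nat_lit 537264167) (dlOf (nat_lit 4) (nat_lit 0x80a20001402001e051000d0190000141000801440038064000040400300028070781))) 
(.lf (nat_lit 3490057511) (dlOf (nat_lit 1) (nat_lit 0x24c00400840008006802)))) (.nd (nat_lit 6) 
(.lf (nat_lit 27656231) (dlOf (nat_lit 2) (nat_lit 0x3d62e0001f0200060018d10901))) 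
(.lf (nat_lit 48627815) (dlOf (nat_lit 3) (nat_lit 0xfb7c00021010002670000800000002608000400400020019420982))))) 
(.nd (nat_lit 6) (.nd (nat_lit 28) 
(.lf (nat_lit 67502119) (dlOf (nat_lit 1) (nat_lit 0x4004000200181a0702))) 
(.lf (nat_lit 1409679399) (dlOf (nat_lit 4) (nat_lit 0x80a20002802001e051000d0190000681000801440038064000190400300028070781)))) 
(.lf (nat_lit 2751858919) (dlOf (nat_lit 1) (nat_lit 0x1b00008004b01))))) (.nd (nat_lit 26) 
(.nd (nat_lit 28) (.nd (nat_lit 29) 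
(.lf (nat_lit 3355836455) (dlOf (nat_lit 4) (nat_lit 0x9e03400640170001541001200d0008405c004e02d000268300040170001000801280080008002003a0008120603))) 
(.lf (nat_lit 3892707367) (dlOf (nat_lit 1) (nat_lit 0xc004001a00081d0682)))) (.nd (nat_lit 7) 
(.lf (nat_lit 4698013735) (dlOf (nat_lit 1) (nat_lit 0x200280e0981))) 
(.lf (nat_lit 5771758503) (dlOf (nat_lit 1) (nat_lit 0x1800400040018005d02))))) (.nd (nat_lit 7) 
(.nd (nat_lit 28) 
(.lf (nat_lit 2349203495) (dlOf (nat_lit 1) (nat_lit 0x100080008002000400081b0003))) 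
(.lf (nat_lit 2617638951) (dlOf (nat_lit 1) (nat_lit 0x280080010002001a0008110603)))) 
(.lf (nat_lit 1009124519) (dlOf (nat_lit 2) (nat_lit 0x80710000838400481ba001c075000f03980017c2802b8008007c00200160009082c03)))))) 
(.nd (nat_lit 22) (.nd (nat_lit 23) (.nd (nat_lit 21) (.nd (nat_lit 29) 
(.lf (nat_lit 471203879) (dlOf (nat_lit 1) (nat_lit 0x3800082c0781))) 
(.lf (nat_lit 1008074791) (dlOf (nat_lit 2) (nat_lit 0xc9071805f838800008080034004002000189b0782)))) 
(.lf (nat_lit 37093415) (dlOf (nat_lit 1) (nat_lit 0x40029090201)))) (.nd (nat_lit 6) 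
(.lf (nat_lit 9830439) (dlOf (nat_lit 1) (nat_lit 0x20028580281))) 
(.lf (nat_lit 26607719) (dlOf (nat_lit 3) (nat_lit 0x55350004ec0800229a80027204000400400020018c50d02))))) 
(.nd (nat_lit 21) (.nd (nat_lit 6) 
(.lf (nat_lit 55967783) (dlOf (nat_lit 2) (nat_lit 0x280000002e04001000200060009700782))) 
(.lf (nat_lit 14024807) (dlOf (nat_lit 1) (nat_lit 0x14004000c0008750282)))) (.nd (nat_lit 8) 
(.lf (nat_lit 32899111) (dlOf (nat_lit 1) (nat_lit 0x1000400020008f40782))) 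
(.lf (nat_lit 58065191) (dlOf (nat_lit 1) (nat_lit 0x4002000200097b8102))))))) (.nd (nat_lit 9) 
(.nd (nat_lit 7) (.nd (nat_lit 8) (.nd (nat_lit 20) (.nd (nat_lit 6) (.nd (nat_lit 24) 
(.lf (nat_lit 68026407) (dlOf (nat_lit 1) (nat_lit 0x200083a0601))) 
(.lf (nat_lit 17694759) (dlOf (nat_lit 1) (nat_lit 0x80080004002000800088f0d83)))) 
(.lf (nat_lit 42860647) (dlOf (nat_lit 1) (nat_lit 0x10400200d40009280982)))) (.nd (nat_lit 22) 
(.lf (nat_lit 27131943) (dlOf (nat_lit 2) (nat_lit 0x44380002a018ca0680))) 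
(.lf (nat_lit 22937639) (dlOf (nat_lit 2) (nat_lit 0xed0000000c8080008008001000200020008b40603))))) 
(.nd (nat_lit 6) (.nd (nat_lit 21) 
(.lf (nat_lit 30277927) (dlOf (nat_lit 1) (nat_lit 0x400400020008e30702))) 
(.lf (nat_lit 19792167) (dlOf (nat_lit 1) (nat_lit 0x200089d0a81)))) 
(.lf (nat_lit 19796327) (dlOf (nat_lit 1) (nat_lit 0x1400080068002001200089d8383))))) 
(.nd (nat_lit 11) (.nd (nat_lit 6) (.nd (nat_lit 8) 
(.lf (nat_lit 20840615) (dlOf (nat_lit 1) (nat_lit 0xf00080088002002800089e2c03))) 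
(.lf (nat_lit 8258983) (dlOf (nat_lit 2) (nat_lit 0x1dd31000ee76800764c40011c0c000400200020008513602)))) 
(.lf (nat_lit 8262887) (dlOf (nat_lit 1) (nat_lit 0x20008519501)))) (.nd (nat_lit 8) 
(.nd (nat_lit 24) 
(.lf (nat_lit 2754481319) (dlOf (nat_lit 4) (nat_lit 0x3803300010100000320800540800001602007006600180200000501000100080018002000600080f6283))) 
(.lf (nat_lit 19795111) (dlOf (nat_lit 1) (nat_lit 0x200189d6281)))) 
(.lf (nat_lit 19798439) (dlOf (nat_lit 1) (nat_lit 0x3c00080190002008600089daf83)))))) 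
(.nd (nat_lit 10) (.nd (nat_lit 8) (.nd (nat_lit 6) 
(.lf (nat_lit 19796647) (dlOf (nat_lit 1) (nat_lit 0x80080004002000200089d8c83))) 
(.lf (nat_lit 54397543) (dlOf (nat_lit 1) (nat_lit 0x4004000c0019655382)))) (.nd (nat_lit 12) 
(.lf (nat_lit 19792679) (dlOf (nat_lit 1) (nat_lit 0x200089d2181))) 
(.lf (nat_lit 19796775) (dlOf (nat_lit 1) (nat_lit 0x180080014002000400089d8f83))))) 
(.nd (nat_lit 6) (.nd (nat_lit 8) (.nd (nat_lit 11) 
(.lf (nat_lit 8259111) (dlOf (nat_lit 2) (nat_lit 0x1f92e00008018513700))) 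
(.lf (nat_lit 2754481703) (dlOf (nat_lit 4) (nat_lit 0xb8100002c03a0005504004801d0002881000801000013c0800280080014002000a00080f7183)))) 
(.lf (nat_lit 19797799) (dlOf (nat_lit 1) (nat_lit 0x4004003200089da082)))) (.nd (nat_lit 7) 
(.lf (nat_lit 19797607) (dlOf (nat_lit 1) (nat_lit 0x110008000c002001a00089d9c03))) 
(.lf (nat_lit 2754481895) (dlOf (nat_lit 1) (nat_lit 0x200080f7401))))))))) (.nd (nat_lit 6) 
(.nd (nat_lit 19) (.nd (nat_lit 18) (.nd (nat_lit 8) (.nd (nat_lit 9) (.nd (nat_lit 21) 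
(.nd (nat_lit 26) (.lf (nat_lit 6308429863) (dlOf (nat_lit 1) (nat_lit 0x1000400140008080282))) 
(.lf (nat_lit 5704450087) (dlOf (nat_lit 1) (nat_lit 0x1000400140008080282)))) 
(.lf (nat_lit 1881341991) (dlOf (nat_lit 1) (nat_lit 0x20018ea0301)))) (.nd (nat_lit 7) 
(.nd (nat_lit 10) (.lf (nat_lit 1141049895) (dlOf (nat_lit 1) (nat_lit 0x40008095181))) 
(.lf (nat_lit 5637342759) (dlOf (nat_lit 1) (nat_lit 0x100004002c00080d3702)))) 
(.lf (nat_lit 3556973223) (dlOf (nat_lit 1) (nat_lit 0x8008005c0020012000812b703))))) 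
(.nd (nat_lit 7) (.nd (nat_lit 20) 
(.lf (nat_lit 54725415) (dlOf (nat_lit 4) (nat_lit 0x30e740022602002673a0010701000c3a200079d0c0034608000800400200019655c02))) 
(.lf (nat_lit 1345522471) (dlOf (nat_lit 1) (nat_lit 0x1a0008c95c01)))) (.nd (nat_lit 9) 
(.lf (nat_lit 2754808231) (dlOf (nat_lit 1) (nat_lit 0x200280f4e81))) 
(.lf (nat_lit 2818772903) (dlOf (nat_lit 1) (nat_lit 0x80080034002000c0008127903)))))) 
(.nd (nat_lit 22) (.nd (nat_lit 26) (.nd (nat_lit 20) (.nd (nat_lit 21) 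
(.lf (nat_lit 3892772903) (dlOf (nat_lit 1) (nat_lit 0xc00400020008250802))) 
(.lf (nat_lit 3492216871) (dlOf (nat_lit 1) (nat_lit 0xc004000200080b0c02)))) 
(.lf (nat_lit 9895975) (dlOf (nat_lit 1) (nat_lit 0x8008000800200020008590983)))) (.nd (nat_lit 7) 
(.nd (nat_lit 21) (.lf (nat_lit 3557228583) (dlOf (nat_lit 1) (nat_lit 0xcc0008170281))) 
(.lf (nat_lit 2754019367) (dlOf (nat_lit 2) (nat_lit 0x40ac8000100800180080008002000800080b0c03)))) 
(.lf (nat_lit 1008142759) (dlOf (nat_lit 1) (nat_lit 0x140028a44e81))))) (.nd (nat_lit 20) 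
(.nd (nat_lit 7) (.nd (nat_lit 8) 
(.lf (nat_lit 15138855) (dlOf (nat_lit 1) (nat_lit 0x3200187c0681))) 
(.lf (nat_lit 46598951) (dlOf (nat_lit 1) (nat_lit 0x20029385c01)))) 
(.lf (nat_lit 54984871) (dlOf (nat_lit 1) (nat_lit 0x720009681481)))) (.nd (nat_lit 7) 
(.nd (nat_lit 21) 
(.lf (nat_lit 22478887) (dlOf (nat_lit 12) (nat_lit 0x8f574000168080b02be8000440408355f4000210202aeafa0001001015b57d00007c080b2abe80003c0405495f4000a9930000e82000d57d00006c080af2be800034040011304000050200e8afa00000018ae0580))) 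
(.lf (nat_lit 24576039) (dlOf (nat_lit 1) (nat_lit 0x20028ba0a01)))) 
(.lf (nat_lit 47645863) (dlOf (nat_lit 1) (nat_lit 0x20029402c01))))))) (.nd (nat_lit 21) 
(.nd (nat_lit 28) (.nd (nat_lit 22) (.nd (nat_lit 23) (.nd (nat_lit 26) 
(.lf (nat_lit 537591847) (dlOf (nat_lit 2) (nat_lit 0x1b40980002102000800280c0c81))) 
(.lf (nat_lit 4362797095) (dlOf (nat_lit 2) (nat_lit 0x5c0a6009e047005f0198000fc1800d80080084002002e0008100503)))) 
(.lf (nat_lit 42663975) (dlOf (nat_lit 1) (nat_lit 0x20008000400200060009270783)))) 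
(.nd (nat_lit 18) 
(.lf (nat_lit 21692455) (dlOf (nat_lit 5) (nat_lit 0x5ed40004c408000f6a80024404000fb5400121020005daa0006ed2000480100020008004800200400008a60c03))) 
(.nd (nat_lit 20) (.lf (nat_lit 5177383) (dlOf (nat_lit 1) (nat_lit 0x20018320681))) 
(.lf (nat_lit 23003175) (dlOf (nat_lit 3) (nat_lit 0x2eda700013008006eef80000004060400401520018b40602)))))) 
(.nd (nat_lit 8) (.nd (nat_lit 26) 
(.lf (nat_lit 1342898215) (dlOf (nat_lit 1) (nat_lit 0xc00200060008100c02))) (.nd (nat_lit 27) 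
(.lf (nat_lit 1410007079) (dlOf (nat_lit 4) (nat_lit 0x3980be0002402052e05f0001181002302f800088080498008000800200ba00080c0c03))) 
(.lf (nat_lit 4228579367) (dlOf (nat_lit 2) (nat_lit 0x5c098009e040005f0190000fc1800d80080084002002e0008100503))))) 
(.nd (nat_lit 7) (.lf (nat_lit 6376325415) (dlOf (nat_lit 2) (nat_lit 0x2122000b0018090a80))) 
(.lf (nat_lit 3490384295) (dlOf (nat_lit 1) (nat_lit 0x1a0008004e81)))))) (.nd (nat_lit 7) 
(.nd (nat_lit 20) (.nd (nat_lit 28) 
(.lf (nat_lit 2818087) (dlOf (nat_lit 1) (nat_lit 0x30004000200081b0c82))) 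
(.lf (nat_lit 1344995367) (dlOf (nat_lit 3) (nat_lit 0x2e0dd002001a0000b410005037400880680002c04000400189b0781)))) 
(.nd (nat_lit 9) (.nd (nat_lit 18) 
(.lf (nat_lit 16449575) (dlOf (nat_lit 1) (nat_lit 0x1000188a0681))) 
(.lf (nat_lit 473890855) (dlOf (nat_lit 4) (nat_lit 0x10598000c28a001a0cf00014830011102000a8598002428a002e0cf001b00b80009c28000805c000140400d800400020008fc0202)))) 
(.lf (nat_lit 473629223) (dlOf (nat_lit 4) (nat_lit 0x78464001c230000680400201190003301000e08c8000000801e0008003c00200060008f68803))))) 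
(.nd (nat_lit 8) (.nd (nat_lit 10) 
(.lf (nat_lit 4096458919) (dlOf (nat_lit 1) (nat_lit 0x8c00200500008111382))) 
(.lf (nat_lit 36373671) (dlOf (nat_lit 1) (nat_lit 0x940009072c01)))) (.nd (nat_lit 9) 
(.nd (nat_lit 10) (.lf (nat_lit 6378160551) (dlOf (nat_lit 1) (nat_lit 0x100018116e81))) 
(.lf (nat_lit 8324519) (dlOf (nat_lit 1) (nat_lit 0x8008000400200020008513603)))) 
(.lf (nat_lit 2754550695) (dlOf (nat_lit 1) (nat_lit 0xdc002001c00080fbd02)))))))) (.nd (nat_lit 7) 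
(.nd (nat_lit 18) (.nd (nat_lit 8) (.nd (nat_lit 9) (.nd (nat_lit 19) (.nd (nat_lit 20) 
(.lf (nat_lit 1008926823) (dlOf (nat_lit 1) (nat_lit 0x20018fe0981))) 
(.lf (nat_lit 62062695) (dlOf (nat_lit 1) (nat_lit 0x48008005000200160009940d83)))) 
(.lf (nat_lit 472580199) (dlOf (nat_lit 3) (nat_lit 0x9214d003206c8015036001880fa01b607c000070500a703e0000000801d0008012c002005600089c0983)))) 
(.nd (nat_lit 10) (.nd (nat_lit 20) 
(.lf (nat_lit 54725223) (dlOf (nat_lit 3) (nat_lit 0x160dfa00041020054739000f37e8000ec1000c00080054002000a0009655383))) 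
(.lf (nat_lit 1345522279) (dlOf (nat_lit 1) (nat_lit 0x1400400080018c95382)))) 
(.lf (nat_lit 2013464167) (dlOf (nat_lit 4) (nat_lit 0x5e01300011c0803780980008c04001c04c000450200200008093901))))) 
(.nd (nat_lit 26) (.nd (nat_lit 9) (.nd (nat_lit 11) 
(.lf (nat_lit 939721063) (dlOf (nat_lit 2) (nat_lit 0x80220051a018155200))) 
(.lf (nat_lit 3624077671) (dlOf (nat_lit 1) (nat_lit 0xa40028144e81)))) 
(.lf (nat_lit 8066919) (dlOf (nat_lit 1) (nat_lit 0x2002851a301)))) (.nd (nat_lit 9) 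
(.nd (nat_lit 22) 
(.lf (nat_lit 4362273127) (dlOf (nat_lit 1) (nat_lit 0x480080088002002e0008015203))) 
(.lf (nat_lit 2755854695) (dlOf (nat_lit 2) (nat_lit 0x9c2300003202000200081b0701)))) 
(.lf (nat_lit 2752186215) (dlOf (nat_lit 1) (nat_lit 0x40008004001)))))) (.nd (nat_lit 19) 
(.nd (nat_lit 8) (.nd (nat_lit 9) (.nd (nat_lit 21) 
(.lf (nat_lit 4362535015) (dlOf (nat_lit 1) (nat_lit 0x60028090001))) 
(.lf (nat_lit 48693351) (dlOf (nat_lit 3) (nat_lit 0xc6cee003766d0018b00800d8de4006c4a8003621c00021060010b0100004c080010008000800200020009420983)))) 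
(.nd (nat_lit 22) (.lf (nat_lit 1476856423) (dlOf (nat_lit 1) (nat_lit 0x240028285381))) 
(.lf (nat_lit 46598759) (dlOf (nat_lit 1) (nat_lit 0x20019385381))))) (.nd (nat_lit 23) 
(.nd (nat_lit 27) 
(.lf (nat_lit 2416378215) (dlOf (nat_lit 3) (nat_lit 0x45401c0003302002800e000188181b0700))) 
(.lf (nat_lit 2550595943) (dlOf (nat_lit 3) (nat_lit 0x45401c0003302002800e000188181b0700)))) 
(.lf (nat_lit 25624935) (dlOf (nat_lit 1) (nat_lit 0x400200020008c10982))))) (.nd (nat_lit 21) 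
(.nd (nat_lit 20) (.nd (nat_lit 22) 
(.lf (nat_lit 59703399) (dlOf (nat_lit 2) (nat_lit 0x3679100007019820980))) 
(.lf (nat_lit 47120487) (dlOf (nat_lit 1) (nat_lit 0x1000093a0d81)))) 
(.lf (nat_lit 52363367) (dlOf (nat_lit 1) (nat_lit 0x11800200440009530982)))) (.nd (nat_lit 8) 
(.lf (nat_lit 19861095) (dlOf (nat_lit 1) (nat_lit 0x2600289d7181))) (.nd (nat_lit 9) 
(.lf (nat_lit 50267495) (dlOf (nat_lit 4) (nat_lit 0x5ce740003e02003273a0001d01001e3a200099d0c0006a080040004005a00194c3482))) 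
(.lf (nat_lit 19860327) (dlOf (nat_lit 1) (nat_lit 0x80080004002000200089d5c03)))))))) 
(.nd (nat_lit 19) (.nd (nat_lit 8) (.nd (nat_lit 11) (.nd (nat_lit 10) (.nd (nat_lit 20) 
(.lf (nat_lit 19071207) (dlOf (nat_lit 1) (nat_lit 0x60028970601))) 
(.lf (nat_lit 9634023) (dlOf (nat_lit 1) (nat_lit 0x400200020008571b82)))) 
(.lf (nat_lit 872613095) (dlOf (nat_lit 1) (nat_lit 0x20008001000200060008092e03)))) 
(.nd (nat_lit 12) (.lf (nat_lit 2885880039) (dlOf (nat_lit 1) (nat_lit 0x400400020008144b02))) 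
(.lf (nat_lit 3556972775) (dlOf (nat_lit 1) (nat_lit 0x6002812a881))))) (.nd (nat_lit 9) 
(.nd (nat_lit 20) (.nd (nat_lit 28) 
(.lf (nat_lit 134414823) (dlOf (nat_lit 1) (nat_lit 0xc00400040018017302))) 
(.lf (nat_lit 939721191) (dlOf (nat_lit 1) (nat_lit 0xc004000e0018157d02)))) 
(.lf (nat_lit 1245671) (dlOf (nat_lit 1) (nat_lit 0x600080a7301)))) (.nd (nat_lit 11) 
(.lf (nat_lit 2885878759) (dlOf (nat_lit 1) (nat_lit 0x1620028142881))) 
(.lf (nat_lit 268635111) (dlOf (nat_lit 1) (nat_lit 0x400280e5e81)))))) (.nd (nat_lit 18) 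
(.nd (nat_lit 8) (.nd (nat_lit 10) (.nd (nat_lit 21) 
(.lf (nat_lit 17498343) (dlOf (nat_lit 1) (nat_lit 0x8004000200088e0602))) 
(.lf (nat_lit 4096458983) (dlOf (nat_lit 3) (nat_lit 0xc1320007101000300000035c0800580080160002007c0008111b83)))) 
(.lf (nat_lit 8068327) (dlOf (nat_lit 1) (nat_lit 0x13000800600020004000851c603)))) 
(.nd (nat_lit 9) (.lf (nat_lit 8062439) (dlOf (nat_lit 1) (nat_lit 0x400200020008513602))) 
(.lf (nat_lit 50004967) (dlOf (nat_lit 1) (nat_lit 0x200094c2881))))) (.nd (nat_lit 22) 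
(.nd (nat_lit 8) (.nd (nat_lit 9) 
(.lf (nat_lit 68092135) (dlOf (nat_lit 1) (nat_lit 0x4002000200083e0682))) 
(.lf (nat_lit 19858151) (dlOf (nat_lit 1) (nat_lit 0x24004001e00089d2102)))) 
(.lf (nat_lit 3490644455) (dlOf (nat_lit 1) (nat_lit 0x60018017301)))) (.nd (nat_lit 20) 
(.nd (nat_lit 21) (.lf (nat_lit 30343399) (dlOf (nat_lit 1) (nat_lit 0x800400020008e30602))) 
(.lf (nat_lit 7274727) (dlOf (nat_lit 1) (nat_lit 0x4004000200084b0602)))) 
(.lf (nat_lit 6226151) (dlOf (nat_lit 1) (nat_lit 0x400400020008420602)))))))))) (.nd (nat_lit 16) 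
(.nd (nat_lit 18) (.nd (nat_lit 30) (.nd (nat_lit 19) (.nd (nat_lit 26) (.nd (nat_lit 7) 
(.nd (nat_lit 23) (.nd (nat_lit 6) (.nd (nat_lit 27) 
(.lf (nat_lit 2952929319) (dlOf (nat_lit 1) (nat_lit 0x15800200060008030282))) 
(.lf (nat_lit 2281840679) (dlOf (nat_lit 1) (nat_lit 0x800200040008080602)))) 
(.lf (nat_lit 4697760103) (dlOf (nat_lit 6) (nat_lit 0x2280bc011405a008c01f0000303005f017802e80b4017c03e000050600ac02f0059016802d807c000080c013005e009a02d005100f80000c1800080bc000000400b000400880018090f02)))) 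
(.nd (nat_lit 20) (.lf (nat_lit 10625063) (dlOf (nat_lit 1) (nat_lit 0x400400020008600482))) 
(.lf (nat_lit 47325223) (dlOf (nat_lit 1) (nat_lit 0x400293d0a81))))) (.nd (nat_lit 6) 
(.nd (nat_lit 8) (.lf (nat_lit 9576615) (dlOf (nat_lit 1) (nat_lit 0x800200060008571382))) 
(.nd (nat_lit 9) 
(.lf (nat_lit 134359463) (dlOf (nat_lit 3) (nat_lit 0x2025005cc408001812802e6004001400200160008004e82))) 
(.lf (nat_lit 671229863) (dlOf (nat_lit 1) (nat_lit 0x3000200020008144302))))) (.nd (nat_lit 10) 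
(.lf (nat_lit 268574951) (dlOf (nat_lit 1) (nat_lit 0x8008000400200020008081b83))) 
(.lf (nat_lit 8529127) (dlOf (nat_lit 1) (nat_lit 0x40028512e01)))))) (.nd (nat_lit 28) 
(.nd (nat_lit 27) (.nd (nat_lit 11) 
(.lf (nat_lit 2214731815) (dlOf (nat_lit 1) (nat_lit 0x20028080601))) 
(.lf (nat_lit 4362217511) (dlOf (nat_lit 1) (nat_lit 0x20018004701)))) (.nd (nat_lit 6) 
(.lf (nat_lit 6643916839) (dlOf (nat_lit 1) (nat_lit 0x40008060801))) 
(.lf (nat_lit 2885820775) (dlOf (nat_lit 3) (nat_lit 0xea0200075806803ac02e0236013000148400f800d007c005c04580260002706001200180b0701))))) 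
(.nd (nat_lit 29) (.nd (nat_lit 6) 
(.lf (nat_lit 474095655) (dlOf (nat_lit 1) (nat_lit 0x1360009080001))) 
(.lf (nat_lit 2617390311) (dlOf (nat_lit 1) (nat_lit 0x10004006200080a9502)))) (.nd (nat_lit 20) 
(.lf (nat_lit 5301739559) (dlOf (nat_lit 4) (nat_lit 0x20000009881000201f8004840800200fc000c07c000603a000601b800480200038008004400200240008060c03))) 
(.lf (nat_lit 1007820839) (dlOf (nat_lit 2) (nat_lit 0x41c60002e02007800287f0781))))))) 
(.nd (nat_lit 21) (.nd (nat_lit 6) (.nd (nat_lit 24) (.nd (nat_lit 29) 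
(.lf (nat_lit 470425639) (dlOf (nat_lit 1) (nat_lit 0x3c00280e0a01))) 
(.lf (nat_lit 3154780199) (dlOf (nat_lit 2) (nat_lit 0x88016000b2818320d80)))) (.nd (nat_lit 8) 
(.lf (nat_lit 21635111) (dlOf (nat_lit 1) (nat_lit 0x8008000400200020008a50a83))) 
(.lf (nat_lit 50995495) (dlOf (nat_lit 1) (nat_lit 0x4004000200194e8102))))) (.nd (nat_lit 7) 
(.nd (nat_lit 23) 
(.lf (nat_lit 537534567) (dlOf (nat_lit 1) (nat_lit 0x20008002c002002400080a1403))) 
(.lf (nat_lit 42606695) (dlOf (nat_lit 1) (nat_lit 0x280080018002000a0009260983)))) 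
(.lf (nat_lit 55190503) (dlOf (nat_lit 1) (nat_lit 0x100080004002000200096d2883))))) 
(.nd (nat_lit 7) (.nd (nat_lit 20) (.nd (nat_lit 23) 
(.lf (nat_lit 472522791) (dlOf (nat_lit 14) (nat_lit 0x1f310200e0869812ec34200ee16805390b30001058c01bc28600dc124019706780370310087816401360a202830398182005c03c402a0002d1e04181a104ca0b30046849000bc0e602a8017000160501b300b8000ac0810485a40dcc2cc0400018000150301990b4800028080bd85a4000120401582d20098168000038203280b40013805c0000c08015c2d00000502043616901a90b40032859c00a02cc045c14501530a1808904f4012027200820cf001206580fe831c02bc18c00420c4001505e009c007014ec03003f4017000021102150b4800485140a7003000003060004169000008101f310200a70698127834203e616902940b301e804f4086819e07a20c6027c00b800000480ee000804c400206d400089b0783))) 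
(.lf (nat_lit 11149351) (dlOf (nat_lit 5) (nat_lit 0x24ab60005c02002256300042ad8001501002090cc00cc000000530402ac9cc013d4e5802690f0000660c001400400340008660602)))) 
(.nd (nat_lit 9) (.lf (nat_lit 3809319) (dlOf (nat_lit 1) (nat_lit 0x38008001000200080008230983))) 
(.lf (nat_lit 473571879) (dlOf (nat_lit 4) (nat_lit 0x584640020230000680400161190003301000808c800000080208008000400200140008f68803))))) 
(.nd (nat_lit 6) (.nd (nat_lit 9) 
(.lf (nat_lit 36316327) (dlOf (nat_lit 1) (nat_lit 0xc00200940009072c02))) 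
(.lf (nat_lit 36317863) (dlOf (nat_lit 1) (nat_lit 0x19000200f40009075602)))) 
(.lf (nat_lit 53093607) (dlOf (nat_lit 1) (nat_lit 0x2400200080009572e02))))))) (.nd (nat_lit 6) 
(.nd (nat_lit 28) (.nd (nat_lit 19) (.nd (nat_lit 26) (.nd (nat_lit 7) 
(.lf (nat_lit 6039937063) (dlOf (nat_lit 3) (nat_lit 0x180400002a02000202000030020000a4100020008000c002000c0008060803))) 
(.lf (nat_lit 3221372327) (dlOf (nat_lit 10) (nat_lit 0x780aa002604a007301a8031007c004403c00280120023003002a80000006220008406a006201f000900500170018000601001800ac0028052003b0190003007801540220002e0a005c056000602a801580c800a8062005802b002b0088015804000ac0140002d1000080560005018801a00ac00c002200640100033005001980180000c1c01140ac009e052004f01b001a80c40144056006201e004d008802f00400124014001a008003f00300001058023015800e0062002601e004a0088033004000f0014001c008002500300000c4001a815801400a4009e0360022018802d00ac00e803c0060011002100800278028010800c000021400fc0510010024803f00d400cc06800ea01f004400f00278018000001c006c0020252000811cb82))))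 
(.nd (nat_lit 31) 
(.lf (nat_lit 5435957287) (dlOf (nat_lit 4) (nat_lit 0x20000009f01000201f8004c00800200fc000c07c000603a000601a8004bc200038008004400200240008060c03))) 
(.lf (nat_lit 3288473639) (dlOf (nat_lit 1) (nat_lit 0x1000200020008020502))))) (.nd (nat_lit 26) 
(.lf (nat_lit 3221889063) (dlOf (nat_lit 1) (nat_lit 0x200281b0501))) (.nd (nat_lit 27) 
(.lf (nat_lit 1678385191) (dlOf (nat_lit 1) (nat_lit 0x60008001800200120008200c83))) 
(.lf (nat_lit 3960086567) (dlOf (nat_lit 1) (nat_lit 0x200281b0501)))))) (.nd (nat_lit 29) 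
(.nd (nat_lit 7) (.nd (nat_lit 19) 
(.lf (nat_lit 1343365159) (dlOf (nat_lit 1) (nat_lit 0x40028210701))) 
(.lf (nat_lit 1342840871) (dlOf (nat_lit 1) (nat_lit 0x3c00280e0a01)))) 
(.lf (nat_lit 5637285287) (dlOf (nat_lit 1) (nat_lit 0x3c00280d3601)))) (.nd (nat_lit 8) 
(.nd (nat_lit 27) (.lf (nat_lit 4026671143) (dlOf (nat_lit 1) (nat_lit 0x1000200020008020502))) 
(.lf (nat_lit 4160888871) (dlOf (nat_lit 2) (nat_lit 0x2400b000f8054051802802500120001008804400140388006000330e00040028060601)))) 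
(.lf (nat_lit 2080515367) (dlOf (nat_lit 1) (nat_lit 0x400200020008093182)))))) (.nd (nat_lit 26) 
(.nd (nat_lit 28) (.nd (nat_lit 10) (.nd (nat_lit 11) 
(.lf (nat_lit 1073881447) (dlOf (nat_lit 1) (nat_lit 0x400200020008015202))) 
(.lf (nat_lit 3221367143) (dlOf (nat_lit 2) (nat_lit 0x2200e00b97818114e80)))) 
(.lf (nat_lit 3221368167) (dlOf (nat_lit 5) (nat_lit 0x2800e000048100140070000200800a00380000c04001801c000010200060018116a81)))) 
(.nd (nat_lit 8) 
(.lf (nat_lit 1344938087) (dlOf (nat_lit 3) (nat_lit 0xb836400240fa0000e04001a07d000803e0000001000d00080028002002000089a0983))) 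
(.nd (nat_lit 10) 
(.lf (nat_lit 3624018279) (dlOf (nat_lit 3) (nat_lit 0xea0200075806c046c02801d6012000148400f800d808b005003e00240002706001200180b0701))) 
(.lf (nat_lit 5773600103) (dlOf (nat_lit 1) (nat_lit 0x4004000200080e3482)))))) (.nd (nat_lit 7) 
(.nd (nat_lit 8) 
(.lf (nat_lit 1409949799) (dlOf (nat_lit 9) (nat_lit 0x301480004c0401880b00004051001701f801080c8000401000e80b00001d0200260580000e01000802880005c0800301600002c0400180b000300320000a82000802900001008032800800dc002000e00080a1383))) 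
(.nd (nat_lit 10) (.lf (nat_lit 6241266535) (dlOf (nat_lit 1) (nat_lit 0x40002004200080d5c02))) 
(.lf (nat_lit 1677862759) (dlOf (nat_lit 1) (nat_lit 0x70008002400200060008114003))))) 
(.nd (nat_lit 8) 
(.lf (nat_lit 1543646439) (dlOf (nat_lit 1) (nat_lit 0x8008000400200020008146503))) 
(.nd (nat_lit 9) 
(.lf (nat_lit 3959568871) (dlOf (nat_lit 1) (nat_lit 0x4000800040020002000811b283))) 
(.lf (nat_lit 1677861863) (dlOf (nat_lit 1) (nat_lit 0x20018112881))))))))) (.nd (nat_lit 6) 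
(.nd (nat_lit 19) (.nd (nat_lit 27) (.nd (nat_lit 20) (.nd (nat_lit 26) (.nd (nat_lit 22) 
(.lf (nat_lit 537272359) (dlOf (nat_lit 4) (nat_lit 0xa028800800fc002c06400140070000a040006028800300c8001000e0000506000e05100070190001001c000080c002400200040008070782))) 
(.lf (nat_lit 12984359) (dlOf (nat_lit 1) (nat_lit 0x2400086f0981)))) (.nd (nat_lit 28) 
(.lf (nat_lit 4899348519) (dlOf (nat_lit 1) (nat_lit 0x40028140481))) (.nd (nat_lit 29) 
(.lf (nat_lit 1409687591) (dlOf (nat_lit 4) (nat_lit 0xa028800800fc002c064001400700014040006028800300c8001000e0001a06000e05100070190001001c000320c002400200040008070782))) 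
(.lf (nat_lit 3020300327) (dlOf (nat_lit 1) (nat_lit 0x20028220701)))))) (.nd (nat_lit 22) 
(.nd (nat_lit 24) (.lf (nat_lit 9838631) (dlOf (nat_lit 1) (nat_lit 0x8008000400200020008580283))) 
(.lf (nat_lit 26615847) (dlOf (nat_lit 1) (nat_lit 0x20028c50281)))) (.nd (nat_lit 21) 
(.nd (nat_lit 23) (.lf (nat_lit 55975975) (dlOf (nat_lit 1) (nat_lit 0x400400040009700782))) 
(.lf (nat_lit 30810151) (dlOf (nat_lit 1) (nat_lit 0xa0018e50b01)))) 
(.lf (nat_lit 32907303) (dlOf (nat_lit 1) (nat_lit 0x10008000400200020008f40783)))))) 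
(.nd (nat_lit 26) (.nd (nat_lit 30) (.nd (nat_lit 9) 
(.lf (nat_lit 4698021927) (dlOf (nat_lit 2) (nat_lit 0x601880003c0803180080094002008200080e0983))) 
(.lf (nat_lit 134619687) (dlOf (nat_lit 2) (nat_lit 0xa043002d020800600e0000000c003000400900018090e02)))) 
(.nd (nat_lit 29) 
(.lf (nat_lit 3355844647) (dlOf (nat_lit 13) (nat_lit 0xa405c0005602019203401a00170001541003980b8000a804027405c0005302004e02e0002881001201700013c0806780d0032c05c01bc02d000268300ca0158001300801200ac0009404003c05c000440200ee02e000e0158001001000900b80007e040028004005c0008120602))) 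
(.lf (nat_lit 3892715559) (dlOf (nat_lit 2) (nat_lit 0x36a054017201c000150100040008006c002003c00081d0683))))) 
(.nd (nat_lit 7) (.nd (nat_lit 9) 
(.lf (nat_lit 3154518055) (dlOf (nat_lit 1) (nat_lit 0xc004001a00081f0682))) 
(.lf (nat_lit 201728551) (dlOf (nat_lit 2) (nat_lit 0xa043002d020800600e0000000c003000400900018090e02)))) 
(.lf (nat_lit 1009132711) (dlOf (nat_lit 2) (nat_lit 0x160e2000a03a800681cc000be0c005000400040019082c02)))))) 
(.nd (nat_lit 7) (.nd (nat_lit 20) (.nd (nat_lit 9) (.nd (nat_lit 22) 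
(.lf (nat_lit 68034599) (dlOf (nat_lit 2) (nat_lit 0x400400014c0800280080014002000200083a0603))) 
(.lf (nat_lit 5120039) (dlOf (nat_lit 1) (nat_lit 0x400400020008310782)))) 
(.lf (nat_lit 6376270375) (dlOf (nat_lit 2) (nat_lit 0x18074001e60200160018095181)))) 
(.nd (nat_lit 22) (.lf (nat_lit 27140135) (dlOf (nat_lit 1) (nat_lit 0x400400020008cb0782))) 
(.lf (nat_lit 22945831) (dlOf (nat_lit 2) (nat_lit 0xe000000064040030002000c0008b40602))))) 
(.nd (nat_lit 8) (.nd (nat_lit 9) 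
(.lf (nat_lit 69084327) (dlOf (nat_lit 2) (nat_lit 0x7043800b8000000be08003c004004800188a2c02))) 
(.lf (nat_lit 19804839) (dlOf (nat_lit 1) (nat_lit 0x80080004002000200089d8c83)))) (.nd (nat_lit 9) 
(.lf (nat_lit 8267175) (dlOf (nat_lit 1) (nat_lit 0x400200020008513602))) 
(.lf (nat_lit 19800999) (dlOf (nat_lit 1) (nat_lit 0x8400289d2601))))))) (.nd (nat_lit 19) 
(.nd (nat_lit 29) (.nd (nat_lit 22) (.nd (nat_lit 20) 
(.lf (nat_lit 4496695399) (dlOf (nat_lit 1) (nat_lit 0x23400200860008120782))) 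
(.lf (nat_lit 26615911) (dlOf (nat_lit 2) (nat_lit 0x4da700012c04001800200200008c50d02)))) 
(.nd (nat_lit 25) (.nd (nat_lit 7) 
(.lf (nat_lit 1346773095) (dlOf (nat_lit 17) (nat_lit 0x510b3802a0210008403600056060012156001b0a180012010007055800702860004704001615600160a180011410003055800482860004404004815600330a180010c10117855808f028604640cc000d04b00ec8210000841400182ac00101430002082009f0ab0056850c0008008018c2ac00e81430001f02008c0a18026833000201080003c06003a156001d0a18000ec10032855801bc28600038040032156001b0a18000dc1000e050c000680400ec2ac007414300019829000980))) 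
(.lf (nat_lit 21373415) (dlOf (nat_lit 3) (nat_lit 0xe33b80004804006d9ea0006cee0000e828a37300)))) 
(.nd (nat_lit 10) 
(.lf (nat_lit 48636007) (dlOf (nat_lit 6) (nat_lit 0x898d0002b0100050000001140800100000008804035400000042020008d5800254c680138000000260c002c002000a0009420982))) 
(.lf (nat_lit 38151271) (dlOf (nat_lit 1) (nat_lit 0x400200020009132982)))))) (.nd (nat_lit 7) 
(.nd (nat_lit 9) 
(.lf (nat_lit 1881546855) (dlOf (nat_lit 2) (nat_lit 0x5b07080004c080018008000800200160008f40983))) 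
(.lf (nat_lit 6376794727) (dlOf (nat_lit 1) (nat_lit 0x240008095381)))) (.nd (nat_lit 8) 
(.nd (nat_lit 26) 
(.lf (nat_lit 1611014375) (dlOf (nat_lit 1) (nat_lit 0x1a00080040002000400080c1b83))) 
(.lf (nat_lit 738599143) (dlOf (nat_lit 1) (nat_lit 0x200180c1d81)))) 
(.lf (nat_lit 1009132519) (dlOf (nat_lit 1) (nat_lit 0x300080020002002a0009082883)))))) 
(.nd (nat_lit 8) (.nd (nat_lit 9) (.nd (nat_lit 7) (.nd (nat_lit 20) 
(.lf (nat_lit 59646055) (dlOf (nat_lit 1) (nat_lit 0x11800200440009820982))) 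
(.lf (nat_lit 52306023) (dlOf (nat_lit 1) (nat_lit 0x20029521981)))) 
(.lf (nat_lit 5773336807) (dlOf (nat_lit 1) (nat_lit 0x1200280c1b81)))) (.nd (nat_lit 10) 
(.lf (nat_lit 6376270439) (dlOf (nat_lit 2) (nat_lit 0xa01d0000bc0800200080038002000c0008095383))) 
(.lf (nat_lit 19805799) (dlOf (nat_lit 1) (nat_lit 0x8008000c002000200089d9c03))))) 
(.nd (nat_lit 7) (.nd (nat_lit 26) 
(.lf (nat_lit 537796967) (dlOf (nat_lit 2) (nat_lit 0x4f40000003302000200181b0701))) 
(.lf (nat_lit 1410212199) (dlOf (nat_lit 2) (nat_lit 0x4f40000003302000200181b0701)))) 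
(.nd (nat_lit 9) 
(.lf (nat_lit 3490587111) (dlOf (nat_lit 7) (nat_lit 0xd81120002f02004c0890001681000e0f3000090080070798000440400503cc000200200141e60013045800074100010008001c00200060008017303))) 
(.lf (nat_lit 69084135) (dlOf (nat_lit 2) (nat_lit 0x1c08c0015e40802780080004002001000088a2883))))))))) 
(.nd (nat_lit 28) (.nd (nat_lit 18) (.nd (nat_lit 9) (.nd (nat_lit 19) (.nd (nat_lit 6) 
(.nd (nat_lit 21) (.nd (nat_lit 22) 
(.lf (nat_lit 604184615) (dlOf (nat_lit 1) (nat_lit 0x8008000400200660008080683))) 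
(.lf (nat_lit 29564967) (dlOf (nat_lit 1) (nat_lit 0x40018e20781)))) (.nd (nat_lit 7) 
(.nd (nat_lit 22) 
(.lf (nat_lit 52633639) (dlOf (nat_lit 14) (nat_lit 0x123ab804e2edd067c75282a43a8c1315c6200dee2f043c675003a32d8000536000ec98e00334c60000b45801f75700aa1dba0d5aea505eb751825c38c40215c5e0004e050489675004632d80005360009898e008d4c60000b0602833a94119dc62004400000015830740752825ab8c412199d4003898c0001504034e75281e2b8c4035c00000029060844ea5034671880001c102f4ba940f69c6207de98e00650000000182025a3a940a59c62009898e00002830015eae001dbb7c0305d5c0002ea508f67188013b8c00801c0a1152cea04334c701a8263006152e20000416003cedf00bc7570002ba941771c620002e05055c67500d62638024d3180000310066ce310277675000008101e93a940141c62000010400b2eae060175281e4b8c40835c0a020ccea003c6700000b2d8002d31c00ce9710123000000000500b78008088000205de0009560783))) 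
(.lf (nat_lit 14884903) (dlOf (nat_lit 1) (nat_lit 0x100080004002015c0008790283)))) 
(.lf (nat_lit 2754816423) (dlOf (nat_lit 1) (nat_lit 0x80080004002000200080f4e83))))) 
(.nd (nat_lit 27) (.nd (nat_lit 8) 
(.lf (nat_lit 19079399) (dlOf (nat_lit 1) (nat_lit 0x40028970601))) 
(.lf (nat_lit 3825410535) (dlOf (nat_lit 8) (nat_lit 0x9d002c05c0012003000201950000000bc2009f002c05d8012033e0000001683004f0058000ac08028802c000540401280160002802007200b000130100280058000280800f800802ac00202d40008157303)))) 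
(.nd (nat_lit 7) (.lf (nat_lit 4496498791) (dlOf (nat_lit 1) (nat_lit 0x23400200860008090782))) 
(.lf (nat_lit 1275273447) (dlOf (nat_lit 1) (nat_lit 0x1200280c1b81)))))) (.nd (nat_lit 24) 
(.nd (nat_lit 26) (.nd (nat_lit 20) 
(.lf (nat_lit 134946855) (dlOf (nat_lit 2) (nat_lit 0x1e01281048000000e40802f0004007600180e0502))) 
(.lf (nat_lit 3874855) (dlOf (nat_lit 1) (nat_lit 0x140028240c01)))) (.nd (nat_lit 27) 
(.lf (nat_lit 4362805287) (dlOf (nat_lit 2) (nat_lit 0x1ee029817f811c09ec0660003f0601ee0008100501))) 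
(.lf (nat_lit 202055719) (dlOf (nat_lit 2) (nat_lit 0x1e01281048000000e40802f0004007600180e0502))))) 
(.nd (nat_lit 20) (.nd (nat_lit 8) 
(.lf (nat_lit 21700647) (dlOf (nat_lit 8) (nat_lit 0x23b400023d9e0008ea18004c81801a7678004ba8600131040058c8c000978100bded00053f678030fa86001230601adda000daecf006b750c002440c02b7b4001add43000908200c1ed0005f76780333a860012006004c0018a60c01))) 
(.lf (nat_lit 17506599) (dlOf (nat_lit 1) (nat_lit 0x8002000400088e0702)))) (.nd (nat_lit 22) 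
(.lf (nat_lit 18554919) (dlOf (nat_lit 1) (nat_lit 0x20028950781))) 
(.lf (nat_lit 22749223) (dlOf (nat_lit 3) (nat_lit 0x293a200069ca0002982003f4e880011c080290008015400202f40008b20603))))))) 
(.nd (nat_lit 7) (.nd (nat_lit 8) (.nd (nat_lit 11) 
(.lf (nat_lit 11739687) (dlOf (nat_lit 1) (nat_lit 0x100080014002000400086c0e03))) 
(.nd (nat_lit 12) 
(.lf (nat_lit 1141058087) (dlOf (nat_lit 1) (nat_lit 0x500080030002000e0008095183))) 
(.lf (nat_lit 8600103) (dlOf (nat_lit 1) (nat_lit 0x100020004000851b282))))) (.nd (nat_lit 6) 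
(.lf (nat_lit 2751670055) (dlOf (nat_lit 2) (nat_lit 0x85700006804000c00400020008003d02))) 
(.lf (nat_lit 537077607) (dlOf (nat_lit 1) (nat_lit 0x20028004001))))) (.nd (nat_lit 8) 
(.nd (nat_lit 10) (.nd (nat_lit 19) 
(.lf (nat_lit 8598183) (dlOf (nat_lit 1) (nat_lit 0x20018518c81))) 
(.lf (nat_lit 8073895) (dlOf (nat_lit 1) (nat_lit 0x800200020008518c82)))) 
(.lf (nat_lit 8599207) (dlOf (nat_lit 1) (nat_lit 0x12002851a001)))) (.nd (nat_lit 6) 
(.lf (nat_lit 2818781095) (dlOf (nat_lit 1) (nat_lit 0x7c00200080008127902))) 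
(.lf (nat_lit 1141058535) (dlOf (nat_lit 1) (nat_lit 0x30008002c00200120008095e83))))))) 
(.nd (nat_lit 8) (.nd (nat_lit 6) (.nd (nat_lit 19) (.nd (nat_lit 21) 
(.lf (nat_lit 3892781095) (dlOf (nat_lit 2) (nat_lit 0xc00000010a04000c00200800008260782))) 
(.lf (nat_lit 23535655) (dlOf (nat_lit 1) (nat_lit 0xc0008b80001)))) (.nd (nat_lit 20) 
(.lf (nat_lit 42934311) (dlOf (nat_lit 2) (nat_lit 0x34000000260200060019290781))) 
(.nd (nat_lit 21) 
(.lf (nat_lit 23011367) (dlOf (nat_lit 3) (nat_lit 0xb6000000260101e20000000c80800080080088002003c0008b40603))) 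
(.lf (nat_lit 25108519) (dlOf (nat_lit 1) (nat_lit 0x12800200320008be0c02)))))) (.nd (nat_lit 25) 
(.nd (nat_lit 7) (.lf (nat_lit 17244263) (dlOf (nat_lit 1) (nat_lit 0x4004000200088e0482))) 
(.lf (nat_lit 14098663) (dlOf (nat_lit 1) (nat_lit 0xa0008750681)))) (.nd (nat_lit 19) 
(.lf (nat_lit 48701543) (dlOf (nat_lit 3) (nat_lit 0x1b048000ac0401b5824000130200020019420981))) 
(.lf (nat_lit 47128679) (dlOf (nat_lit 1) (nat_lit 0x4002000200093a0d82)))))) (.nd (nat_lit 6) 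
(.nd (nat_lit 7) (.nd (nat_lit 9) (.nd (nat_lit 29) 
(.lf (nat_lit 4362543399) (dlOf (nat_lit 1) (nat_lit 0x8008000400200020008090503))) 
(.lf (nat_lit 1678188839) (dlOf (nat_lit 1) (nat_lit 0x80080004002000200081a0503)))) 
(.lf (nat_lit 19872551) (dlOf (nat_lit 1) (nat_lit 0x200189dbc81)))) (.nd (nat_lit 27) 
(.lf (nat_lit 4362543527) (dlOf (nat_lit 1) (nat_lit 0x80018090781))) 
(.lf (nat_lit 201793959) (dlOf (nat_lit 2) (nat_lit 0xdc03b00675018090780))))) (.nd (nat_lit 9) 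
(.nd (nat_lit 21) 
(.lf (nat_lit 2040167) (dlOf (nat_lit 2) (nat_lit 0xc00000006604004800200080008150702))) 
(.lf (nat_lit 4137319) (dlOf (nat_lit 1) (nat_lit 0x20008000400200020008290983)))) (.nd (nat_lit 7) 
(.lf (nat_lit 19868519) (dlOf (nat_lit 1) (nat_lit 0x80080004002000200089d5c03))) 
(.lf (nat_lit 47653863) (dlOf (nat_lit 1) (nat_lit 0x3400400020019402882)))))))) (.nd (nat_lit 18) 
(.nd (nat_lit 30) (.nd (nat_lit 27) (.nd (nat_lit 7) (.nd (nat_lit 8) (.nd (nat_lit 29) 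
(.lf (nat_lit 4563607591) (dlOf (nat_lit 1) (nat_lit 0x800200680008090002))) 
(.lf (nat_lit 5100478503) (dlOf (nat_lit 1) (nat_lit 0x600280a0981)))) 
(.lf (nat_lit 4563610407) (dlOf (nat_lit 1) (nat_lit 0x3a800401380008095c02)))) (.nd (nat_lit 10) 
(.lf (nat_lit 805513639) (dlOf (nat_lit 1) (nat_lit 0x14002000c0008114e82))) 
(.lf (nat_lit 5167588775) (dlOf (nat_lit 1) (nat_lit 0x200180d3601))))) (.nd (nat_lit 6) 
(.nd (nat_lit 21) (.nd (nat_lit 29) 
(.lf (nat_lit 4697825319) (dlOf (nat_lit 1) (nat_lit 0x800200680008090002))) 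
(.lf (nat_lit 5234696231) (dlOf (nat_lit 5) (nat_lit 0xb0084002100400240600010102003a0300007f0100320108000000801080080018002000600080a0c03)))) 
(.lf (nat_lit 1008934951) (dlOf (nat_lit 1) (nat_lit 0x20008000c00200060008ff0783)))) 
(.nd (nat_lit 8) 
(.lf (nat_lit 472588391) (dlOf (nat_lit 3) (nat_lit 0xf0534015c138008408d0000703003704e001002340000008009c002000400089c0982))) 
(.lf (nat_lit 3087212903) (dlOf (nat_lit 2) (nat_lit 0xc01400a5b0200060008155201)))))) 
(.nd (nat_lit 26) (.nd (nat_lit 8) (.nd (nat_lit 9) (.nd (nat_lit 19) 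
(.lf (nat_lit 1345527847) (dlOf (nat_lit 1) (nat_lit 0x40028c90001))) 
(.lf (nat_lit 1345003559) (dlOf (nat_lit 4) (nat_lit 0x859c003c0680002d0400040dd000801a0000b01000802f400050040010004000400189b0782)))) 
(.lf (nat_lit 5637350951) (dlOf (nat_lit 1) (nat_lit 0x150004000200080d3702)))) (.nd (nat_lit 6) 
(.lf (nat_lit 3489873319) (dlOf (nat_lit 12) (nat_lit 0x20fe8000c40800287f4000600400083fa000415e000178200170fe800807a000402be001e1380001704000a0fe8000b40800a07f400382be001a138000030300010fe8000140800787f400483d0001215f000709c0000102000787f400303d00000304002a1fd00160f40000081000987f4000000400280040034001800cb82))) 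
(.lf (nat_lit 3624085863) (dlOf (nat_lit 1) (nat_lit 0x1000028144e81))))) (.nd (nat_lit 7) 
(.nd (nat_lit 9) (.nd (nat_lit 27) 
(.lf (nat_lit 3557498919) (dlOf (nat_lit 5) (nat_lit 0x181780003804001c0bc0001b02003005e0000c01000202f000050080178008001c002000c0008230903))) 
(.lf (nat_lit 4228587559) (dlOf (nat_lit 2) (nat_lit 0x1ee026017f810009ec0640003f0601ee0008100501)))) 
(.lf (nat_lit 6376598055) (dlOf (nat_lit 1) (nat_lit 0x20018095181)))) (.nd (nat_lit 8) 
(.lf (nat_lit 1409498279) (dlOf (nat_lit 1) (nat_lit 0x2002800c201))) 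
(.lf (nat_lit 6378168743) (dlOf (nat_lit 1) (nat_lit 0x8008000800200020008116e83))))))) 
(.nd (nat_lit 19) (.nd (nat_lit 26) (.nd (nat_lit 8) (.nd (nat_lit 9) (.nd (nat_lit 30) 
(.lf (nat_lit 2416386087) (dlOf (nat_lit 1) (nat_lit 0x34002003200081b0002))) 
(.lf (nat_lit 5637611559) (dlOf (nat_lit 1) (nat_lit 0x60018120c01)))) 
(.lf (nat_lit 1345790503) (dlOf (nat_lit 2) (nat_lit 0x800000000004003400200180008de8802)))) 
(.nd (nat_lit 7) 
(.lf (nat_lit 2550604071) (dlOf (nat_lit 1) (nat_lit 0x80080008002000200081b0503))) 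
(.lf (nat_lit 3493274023) (dlOf (nat_lit 1) (nat_lit 0x100028106e81))))) (.nd (nat_lit 27) 
(.nd (nat_lit 6) (.lf (nat_lit 6241591335) (dlOf (nat_lit 1) (nat_lit 0x60018120c01))) 
(.lf (nat_lit 3557236839) (dlOf (nat_lit 1) (nat_lit 0x5800200300008170d02)))) (.nd (nat_lit 7) 
(.lf (nat_lit 4228325415) (dlOf (nat_lit 1) (nat_lit 0x2980080004002004a0008090003))) 
(.lf (nat_lit 472328871) (dlOf (nat_lit 1) (nat_lit 0x1000400100008985602)))))) (.nd (nat_lit 30) 
(.nd (nat_lit 21) (.nd (nat_lit 6) (.nd (nat_lit 29) 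
(.lf (nat_lit 470753319) (dlOf (nat_lit 1) (nat_lit 0xc00400140018170282))) 
(.lf (nat_lit 1007624231) (dlOf (nat_lit 1) (nat_lit 0x10008000800200040008540283)))) 
(.lf (nat_lit 1007624295) (dlOf (nat_lit 1) (nat_lit 0x400400020008540d02)))) (.nd (nat_lit 9) 
(.lf (nat_lit 473899047) (dlOf (nat_lit 7) (nat_lit 0x1e1450010067802801cc000520c006440800301a100070b400030514001819e00280b2002f0398007005c0004e20006c0e60001f0200240730000c01001b0398000580800f81cc000000400d400400260008fc0202))) 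
(.lf (nat_lit 472850983) (dlOf (nat_lit 1) (nat_lit 0x400400020018b18802))))) (.nd (nat_lit 6) 
(.nd (nat_lit 7) (.nd (nat_lit 8) 
(.lf (nat_lit 1346316839) (dlOf (nat_lit 4) (nat_lit 0x1c2ce000a16600020ab80018558000c288000a0ce000306580010310000812c000c01b000800d00023058005859c00242cc001401b000c00d00022c20003859c00142cc000415700050670000832c000c18a00080c4000700d800380680011224004800200020008f05182))) 
(.lf (nat_lit 6376333607) (dlOf (nat_lit 2) (nat_lit 0x18c2440016002002c0008090a81)))) 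
(.lf (nat_lit 1881088423) (dlOf (nat_lit 1) (nat_lit 0x11e0018e06e81)))) (.nd (nat_lit 7) 
(.lf (nat_lit 3492751207) (dlOf (nat_lit 1) (nat_lit 0x200280f4001))) 
(.lf (nat_lit 3490652647) (dlOf (nat_lit 4) (nat_lit 0x381e60001201000b0f30000880800187980004004005800400020018017302))))))))))))

end

end Pool.Agent.Lib.MP_5854e1_co.Cz

namespace Pool.Agent.Lib.MP_5854e1_co.Cz

noncomputable section

noncomputable def tz151 : DT := (.nd (nat_lit 16) (.nd (nat_lit 13) (.nd (nat_lit 17) 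
(.nd (nat_lit 19) (.nd (nat_lit 28) (.nd (nat_lit 27) (.nd (nat_lit 18) (.nd (nat_lit 22) 
(.nd (nat_lit 6) (.nd (nat_lit 10) 
(.lf (nat_lit 44072999) (dlOf (nat_lit 1) (nat_lit 0x12c004001c00092c0302))) 
(.lf (nat_lit 3288370215) (dlOf (nat_lit 1) (nat_lit 0xa0028006081)))) (.nd (nat_lit 8) 
(.lf (nat_lit 604019815) (dlOf (nat_lit 5) (nat_lit 0x44016001400a80138044000800e0008001002600000009430000804400b400000024040044016002e00a80118044009002000080070004003000f800c007c0040008001002700000008c500058058000300400080040020001800c082))) 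
(.lf (nat_lit 3178855) (dlOf (nat_lit 1) (nat_lit 0x20018200701))))) (.nd (nat_lit 20) 
(.nd (nat_lit 6) (.nd (nat_lit 23) 
(.lf (nat_lit 23101479) (dlOf (nat_lit 1) (nat_lit 0x80018b50601))) 
(.lf (nat_lit 14712871) (dlOf (nat_lit 1) (nat_lit 0x20028770281)))) 
(.lf (nat_lit 14712935) (dlOf (nat_lit 2) (nat_lit 0x4d4b00012c04001800200200008770d02)))) 
(.nd (nat_lit 7) (.lf (nat_lit 30441511) (dlOf (nat_lit 1) (nat_lit 0x800400080008e30002))) 
(.lf (nat_lit 49318311) (dlOf (nat_lit 1) (nat_lit 0x8008000400200020009464e83)))))) 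
(.nd (nat_lit 9) (.nd (nat_lit 6) (.nd (nat_lit 26) (.nd (nat_lit 30) 
(.lf (nat_lit 2684649511) (dlOf (nat_lit 1) (nat_lit 0x40028100601))) 
(.lf (nat_lit 3758391335) (dlOf (nat_lit 1) (nat_lit 0x83c004000c0008170282)))) 
(.lf (nat_lit 2214887463) (dlOf (nat_lit 1) (nat_lit 0x20028100601)))) (.nd (nat_lit 7) 
(.lf (nat_lit 67403879) (dlOf (nat_lit 1) (nat_lit 0x58004000200180f0d02))) 
(.lf (nat_lit 6509855207) (dlOf (nat_lit 6) (nat_lit 0x1cc04c0005e0200780260002e0100750130001100803780980008604008404c000400200460028157301))))) 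
(.nd (nat_lit 20) (.nd (nat_lit 6) 
(.lf (nat_lit 23364135) (dlOf (nat_lit 1) (nat_lit 0x7c004000a0018b80e02))) 
(.lf (nat_lit 54823527) (dlOf (nat_lit 1) (nat_lit 0x400400040009655382)))) (.nd (nat_lit 8) 
(.lf (nat_lit 36997671) (dlOf (nat_lit 1) (nat_lit 0x20019075181))) 
(.lf (nat_lit 60066599) (dlOf (nat_lit 1) (nat_lit 0x4c00400020009845c02))))))) (.nd (nat_lit 7) 
(.nd (nat_lit 11) (.nd (nat_lit 9) (.nd (nat_lit 30) 
(.lf (nat_lit 6644072487) (dlOf (nat_lit 2) (nat_lit 0x2406a002e000000120280d0900))) 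
(.lf (nat_lit 3422847015) (dlOf (nat_lit 2) (nat_lit 0x480e8002c06c002002f000a0140007809c0009a14003800400240008120602)))) 
(.nd (nat_lit 26) 
(.lf (nat_lit 5502961191) (dlOf (nat_lit 5) (nat_lit 0x6c015004c00a000800140001e0c028402a01400050000382002c00a80238050000402200003060082015005900a00080014000000c007c004005a0018003702))) 
(.lf (nat_lit 6106940967) (dlOf (nat_lit 4) (nat_lit 0x8016000300a801d80500001c0c009402800001020030016001700a80000010011000800d000200280008003703))))) 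
(.nd (nat_lit 6) (.nd (nat_lit 12) 
(.lf (nat_lit 2818607911) (dlOf (nat_lit 3) (nat_lit 0x4001c0044006001c0000008981800e00180041c04008400200060008005c02))) 
(.lf (nat_lit 134257447) (dlOf (nat_lit 1) (nat_lit 0x2002800bc81)))) (.nd (nat_lit 9) 
(.lf (nat_lit 2818874471) (dlOf (nat_lit 1) (nat_lit 0x2001812c081))) 
(.lf (nat_lit 2818607719) (dlOf (nat_lit 3) (nat_lit 0x1e0460001e8100080028000ec0800c8008004000200280008005383)))))) 
(.nd (nat_lit 6) (.nd (nat_lit 10) (.nd (nat_lit 9) 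
(.lf (nat_lit 1275103655) (dlOf (nat_lit 2) (nat_lit 0x700a0033b4080008008003000200100008004e83))) 
(.lf (nat_lit 1275104167) (dlOf (nat_lit 1) (nat_lit 0x28008001000200080008005d03)))) 
(.nd (nat_lit 8) (.lf (nat_lit 3355481255) (dlOf (nat_lit 1) (nat_lit 0xc00008009501))) 
(.lf (nat_lit 134258087) (dlOf (nat_lit 3) (nat_lit 0x290000000c40800e000000060040024004005c000800cb82))))) 
(.nd (nat_lit 26) (.nd (nat_lit 29) 
(.lf (nat_lit 5503221991) (dlOf (nat_lit 1) (nat_lit 0x8004000200080c1d82))) 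
(.lf (nat_lit 4966351079) (dlOf (nat_lit 1) (nat_lit 0x4004000200080c1d82)))) (.nd (nat_lit 8) 
(.lf (nat_lit 2348845287) (dlOf (nat_lit 1) (nat_lit 0x40008004b01))) 
(.lf (nat_lit 3959718375) (dlOf (nat_lit 3) (nat_lit 0x8008a009dc020012045004e3018127d00)))))))) 
(.nd (nat_lit 6) (.nd (nat_lit 29) (.nd (nat_lit 9) (.nd (nat_lit 18) (.nd (nat_lit 7) 
(.lf (nat_lit 1343258663) (dlOf (nat_lit 1) (nat_lit 0x4002000200081d0782))) 
(.lf (nat_lit 3691025831) (dlOf (nat_lit 1) (nat_lit 0x2a0008009901)))) (.nd (nat_lit 26) 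
(.lf (nat_lit 1342472231) (dlOf (nat_lit 1) (nat_lit 0x800400020008040582))) 
(.lf (nat_lit 470056999) (dlOf (nat_lit 1) (nat_lit 0x800400020008040582))))) (.nd (nat_lit 7) 
(.nd (nat_lit 8) 
(.lf (nat_lit 4630545959) (dlOf (nat_lit 5) (nat_lit 0x280100002a04001402c000020200040050000081000d002000000080018008005000200080008003703))) 
(.lf (nat_lit 469796647) (dlOf (nat_lit 1) (nat_lit 0x20028003d01)))) (.nd (nat_lit 8) 
(.lf (nat_lit 1342215847) (dlOf (nat_lit 1) (nat_lit 0x240040006000800a002))) 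
(.lf (nat_lit 3489700775) (dlOf (nat_lit 1) (nat_lit 0x2001800bd01)))))) (.nd (nat_lit 11) 
(.nd (nat_lit 30) (.nd (nat_lit 27) 
(.lf (nat_lit 3020193831) (dlOf (nat_lit 5) (nat_lit 0x8701e802800c006c005603440240001884004e01800d880ac06880480003006036002b01a20120000b4100d800ac06880480002b0400020018150281))) 
(.lf (nat_lit 1006927911) (dlOf (nat_lit 1) (nat_lit 0x80080004002000200080e0a03)))) 
(.nd (nat_lit 7) 
(.lf (nat_lit 1879343143) (dlOf (nat_lit 1) (nat_lit 0x80080004002000200080e0a03))) 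
(.lf (nat_lit 6241419431) (dlOf (nat_lit 1) (nat_lit 0x400280e2c01))))) (.nd (nat_lit 7) 
(.nd (nat_lit 8) (.lf (nat_lit 4094724647) (dlOf (nat_lit 1) (nat_lit 0x400200020008055182))) 
(.lf (nat_lit 6308530983) (dlOf (nat_lit 1) (nat_lit 0x200080d5c01)))) (.nd (nat_lit 9) 
(.lf (nat_lit 2080410023) (dlOf (nat_lit 1) (nat_lit 0x2a0018004e81))) 
(.lf (nat_lit 872450983) (dlOf (nat_lit 1) (nat_lit 0x20018005d01))))))) (.nd (nat_lit 12) 
(.nd (nat_lit 27) (.nd (nat_lit 7) (.nd (nat_lit 8) (.nd (nat_lit 11) 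
(.lf (nat_lit 3494150247) (dlOf (nat_lit 1) (nat_lit 0x200181c1401))) 
(.lf (nat_lit 805341287) (dlOf (nat_lit 1) (nat_lit 0x60028004701)))) 
(.lf (nat_lit 3493888359) (dlOf (nat_lit 2) (nat_lit 0x17117800094080028008000c002000400081b0703)))) 
(.nd (nat_lit 20) (.lf (nat_lit 268730599) (dlOf (nat_lit 1) (nat_lit 0x800400020008111d82))) 
(.lf (nat_lit 3491004647) (dlOf (nat_lit 1) (nat_lit 0x8000400200008046b82))))) (.nd (nat_lit 9) 
(.nd (nat_lit 7) (.lf (nat_lit 2550431847) (dlOf (nat_lit 1) (nat_lit 0x200280a1381))) 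
(.lf (nat_lit 4697915623) (dlOf (nat_lit 4) (nat_lit 0x100900038c080010048000f40400080240007802005000280c1b81)))) 
(.nd (nat_lit 18) (.lf (nat_lit 5301635687) (dlOf (nat_lit 1) (nat_lit 0x20008005381))) 
(.lf (nat_lit 5771659879) (dlOf (nat_lit 1) (nat_lit 0x9000400100008005382)))))) (.nd (nat_lit 26) 
(.nd (nat_lit 29) (.nd (nat_lit 7) 
(.lf (nat_lit 1476432999) (dlOf (nat_lit 1) (nat_lit 0x1000200020008009402))) 
(.lf (nat_lit 1342214375) (dlOf (nat_lit 1) (nat_lit 0x20018008081)))) (.nd (nat_lit 8) 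
(.lf (nat_lit 2952830055) (dlOf (nat_lit 5) (nat_lit 0x15e02c0025015805880a800a80520092013002b002806c800803e40000002810009400000013810007016001000ac0084052000c017004a009801a8014008000400fa00000013080006016000280a40018026003800500030000000942800c000800a0002001a000800c083))) 
(.lf (nat_lit 2952828263) (dlOf (nat_lit 1) (nat_lit 0x20008009901))))) (.nd (nat_lit 7) 
(.nd (nat_lit 18) 
(.lf (nat_lit 3691025511) (dlOf (nat_lit 1) (nat_lit 0x6800800ec00200620008009403))) 
(.lf (nat_lit 3557069927) (dlOf (nat_lit 1) (nat_lit 0x560018129401)))) 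
(.lf (nat_lit 3691025383) (dlOf (nat_lit 2) (nat_lit 0x8d01500130c0800780080004002000e0008009203)))))))) 
(.nd (nat_lit 21) (.nd (nat_lit 30) (.nd (nat_lit 22) (.nd (nat_lit 29) (.nd (nat_lit 7) 
(.nd (nat_lit 9) (.nd (nat_lit 18) 
(.lf (nat_lit 9994279) (dlOf (nat_lit 8) (nat_lit 0x234760023a390008cee0004fc1801a68e4004b3b80013e04005871b0009e0100bdd1d8053e8e4030f3b8001320601ada3b00dad1c806b6770002620c02b747601ad9dc000980200c1d1d805f68e403333b80012f06004c00185a0c01))) 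
(.lf (nat_lit 42762279) (dlOf (nat_lit 1) (nat_lit 0x100029280201)))) 
(.lf (nat_lit 50889255) (dlOf (nat_lit 1) (nat_lit 0x60008003c002003c00094d8803)))) 
(.nd (nat_lit 8) (.lf (nat_lit 34112679) (dlOf (nat_lit 1) (nat_lit 0x20028fb2c01))) 
(.lf (nat_lit 470319527) (dlOf (nat_lit 2) (nat_lit 0x204a0032d808009800801d8002003200080c0783))))) 
(.nd (nat_lit 26) (.nd (nat_lit 7) 
(.lf (nat_lit 2819129383) (dlOf (nat_lit 1) (nat_lit 0x2800800c0002005c00081a0683))) 
(.lf (nat_lit 537428135) (dlOf (nat_lit 1) (nat_lit 0x2400400020008090282)))) (.nd (nat_lit 9) 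
(.lf (nat_lit 2886238247) (dlOf (nat_lit 8) (nat_lit 0x5402600046020008013000220100e3020009300ac004c04e0074024010900f00c0806804c802e02c40130021001000104480370100006005601c601a008800b8059804c0008014002c0260003d02002e0130001a8100090098000c00802100080020002007000081a0583))) 
(.lf (nat_lit 2752027175) (dlOf (nat_lit 1) (nat_lit 0x40020002000800b282)))))) (.nd (nat_lit 23) 
(.nd (nat_lit 6) (.nd (nat_lit 24) 
(.lf (nat_lit 2756214823) (dlOf (nat_lit 1) (nat_lit 0x400200020008220982))) 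
(.lf (nat_lit 21528615) (dlOf (nat_lit 1) (nat_lit 0x20028a40281)))) 
(.lf (nat_lit 21528679) (dlOf (nat_lit 1) (nat_lit 0x20028a40781)))) (.nd (nat_lit 6) 
(.nd (nat_lit 8) (.lf (nat_lit 13402151) (dlOf (nat_lit 1) (nat_lit 0x1400200100008720c82))) 
(.lf (nat_lit 46697255) (dlOf (nat_lit 1) (nat_lit 0x8008000400200020009385c03)))) 
(.lf (nat_lit 46697063) (dlOf (nat_lit 1) (nat_lit 0x90008005000200240009385383)))))) 
(.nd (nat_lit 6) (.nd (nat_lit 26) (.nd (nat_lit 22) (.nd (nat_lit 27) 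
(.lf (nat_lit 3221782567) (dlOf (nat_lit 1) (nat_lit 0x50008003c00200120008180903))) 
(.lf (nat_lit 3624435751) (dlOf (nat_lit 8) (nat_lit 0x5402800046020008014000220100e3020000980a0049804c0074024018100d80848064058802802640120021001000104480370100006004c01c601b00b300a004400480008014002c0280003d02002e0140001a81000900a0000c00802100080020002007000081a0583)))) 
(.lf (nat_lit 3494412327) (dlOf (nat_lit 1) (nat_lit 0x400200020008220982)))) (.nd (nat_lit 27) 
(.lf (nat_lit 3557326887) (dlOf (nat_lit 1) (nat_lit 0x8600081c0681))) 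
(.lf (nat_lit 3959980071) (dlOf (nat_lit 1) (nat_lit 0x50008003c00200120008180903))))) 
(.nd (nat_lit 26) (.nd (nat_lit 28) (.nd (nat_lit 8) 
(.lf (nat_lit 3221782631) (dlOf (nat_lit 1) (nat_lit 0xc00400020018181382))) 
(.lf (nat_lit 1074299239) (dlOf (nat_lit 6) (nat_lit 0x201100d3801407f80000003306000a000000128100650000000780803b80000003a0401d40000001c02000200281b0701)))) 
(.nd (nat_lit 7) (.lf (nat_lit 5771922023) (dlOf (nat_lit 1) (nat_lit 0x20028005381))) 
(.lf (nat_lit 1342734567) (dlOf (nat_lit 2) (nat_lit 0x581f30003f0180c0480))))) (.nd (nat_lit 7) 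
(.nd (nat_lit 8) 
(.lf (nat_lit 3959980135) (dlOf (nat_lit 1) (nat_lit 0x280080030002000a0008181403))) 
(.lf (nat_lit 1946714471) (dlOf (nat_lit 6) (nat_lit 0x201100d3801407f80000003306000a000000128100650000000780803b80000003a0401d40000001c02000200281b0701)))) 
(.lf (nat_lit 6376161511) (dlOf (nat_lit 4) (nat_lit 0x2821e002010e000b08200160868002740800684340011c04001400400060018090a82))))))) 
(.nd (nat_lit 18) (.nd (nat_lit 20) (.nd (nat_lit 23) (.nd (nat_lit 26) (.nd (nat_lit 28) 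
(.lf (nat_lit 2654247) (dlOf (nat_lit 1) (nat_lit 0x10000800c000200500008180983))) 
(.lf (nat_lit 3492315175) (dlOf (nat_lit 2) (nat_lit 0x30f30000600800400080038002002a00080c0c03)))) 
(.lf (nat_lit 2754117671) (dlOf (nat_lit 2) (nat_lit 0x421f700390ac0000741000d00080034002003000080c0c83)))) 
(.nd (nat_lit 22) 
(.lf (nat_lit 11042855) (dlOf (nat_lit 18) (nat_lit 0xcc95000663e780331d5c000a80c002f42a02377e2011f00000014c1802e80000009e04025eff001197e2008cbe680011c1801c612c000700403eb42c027d95b012fc300001e14804cf0a203357d20132be70097a4800488878027643400a10000000cc5805e8000000640401ec0000003102000f85200016810038c25800580000003008018b0960001402019784b000028100cbc2580001008065e12c0000604032f0960000202007184b000008100cec25804ce11401c308601277de000e000000000280030008003c00202280008660603))) 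
(.nd (nat_lit 24) (.lf (nat_lit 15237159) (dlOf (nat_lit 1) (nat_lit 0x24002003c00087c0682))) 
(.lf (nat_lit 32014375) (dlOf (nat_lit 1) (nat_lit 0xc00400080008ed0202)))))) (.nd (nat_lit 6) 
(.nd (nat_lit 9) (.lf (nat_lit 24674343) (dlOf (nat_lit 1) (nat_lit 0x240008bb0981))) 
(.lf (nat_lit 54037031) (dlOf (nat_lit 1) (nat_lit 0x8004000800095f5182)))) 
(.lf (nat_lit 473465831) (dlOf (nat_lit 1) (nat_lit 0x460028f52881))))) (.nd (nat_lit 11) 
(.nd (nat_lit 6) (.nd (nat_lit 7) 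
(.lf (nat_lit 1346142247) (dlOf (nat_lit 1) (nat_lit 0x20004002e0008e60202))) 
(.lf (nat_lit 8160679) (dlOf (nat_lit 1) (nat_lit 0x400200020008513602)))) (.nd (nat_lit 23) 
(.lf (nat_lit 1346142311) (dlOf (nat_lit 5) (nat_lit 0x44053402401b200ac0d80000703000306c800030080468534014c1b200d80d80000503006406c800000080008008001c00200100008e60983))) 
(.lf (nat_lit 45908071) (dlOf (nat_lit 2) (nat_lit 0x8b28000130200020019360981))))) 
(.nd (nat_lit 7) (.nd (nat_lit 20) 
(.lf (nat_lit 36473383) (dlOf (nat_lit 1) (nat_lit 0x20009075181))) 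
(.lf (nat_lit 33327655) (dlOf (nat_lit 1) (nat_lit 0x400400020008f55182)))) (.nd (nat_lit 9) 
(.lf (nat_lit 49056167) (dlOf (nat_lit 1) (nat_lit 0x8008000400200020009464e83))) 
(.lf (nat_lit 19696551) (dlOf (nat_lit 1) (nat_lit 0x1b600289d5d01))))))))) (.nd (nat_lit 26) 
(.nd (nat_lit 18) (.nd (nat_lit 30) (.nd (nat_lit 21) (.nd (nat_lit 6) (.nd (nat_lit 19) 
(.nd (nat_lit 27) (.lf (nat_lit 2684518439) (dlOf (nat_lit 1) (nat_lit 0x40028080601))) 
(.lf (nat_lit 4966219815) (dlOf (nat_lit 2) (nat_lit 0x900a0005780800300080008002000c0008060c03)))) 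
(.nd (nat_lit 20) (.lf (nat_lit 805994535) (dlOf (nat_lit 1) (nat_lit 0x20028210501))) 
(.lf (nat_lit 10125351) (dlOf (nat_lit 1) (nat_lit 0xc00285b0501))))) (.nd (nat_lit 9) 
(.lf (nat_lit 38962279) (dlOf (nat_lit 2) (nat_lit 0x35fe000120080010008001000200060009192983))) 
(.nd (nat_lit 10) 
(.lf (nat_lit 54692455) (dlOf (nat_lit 2) (nat_lit 0x439c8000ec080020008006c00200020009655383))) 
(.lf (nat_lit 4697785959) (dlOf (nat_lit 1) (nat_lit 0x400400020008093902)))))) (.nd (nat_lit 19) 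
(.nd (nat_lit 6) (.nd (nat_lit 11) 
(.lf (nat_lit 11698727) (dlOf (nat_lit 1) (nat_lit 0xa00086c0e01))) 
(.lf (nat_lit 20089383) (dlOf (nat_lit 1) (nat_lit 0x80080004002000200089d5183)))) (.nd (nat_lit 7) 
(.lf (nat_lit 2261351) (dlOf (nat_lit 1) (nat_lit 0x400200020008150702))) 
(.lf (nat_lit 44204263) (dlOf (nat_lit 3) (nat_lit 0x21000000388080200000001c004018c002000e00092d1b82))))) 
(.nd (nat_lit 22) (.nd (nat_lit 7) 
(.lf (nat_lit 11173927) (dlOf (nat_lit 1) (nat_lit 0x40018670601))) 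
(.lf (nat_lit 36342183) (dlOf (nat_lit 1) (nat_lit 0xc00200020009074e82)))) (.nd (nat_lit 20) 
(.lf (nat_lit 15368231) (dlOf (nat_lit 1) (nat_lit 0x200187e0681))) 
(.lf (nat_lit 24805415) (dlOf (nat_lit 1) (nat_lit 0x10008000800200040008bb0983))))))) 
(.nd (nat_lit 6) (.nd (nat_lit 32) (.nd (nat_lit 7) (.nd (nat_lit 19) 
(.lf (nat_lit 1476558887) (dlOf (nat_lit 3) (nat_lit 0x201f8000c40800580fc0005a04003000200460008050282))) 
(.lf (nat_lit 3221913639) (dlOf (nat_lit 2) (nat_lit 0x16f815800980aa054603202c00088001c820027000800c8002009000081b0503)))) 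
(.lf (nat_lit 3355612071) (dlOf (nat_lit 1) (nat_lit 0x600280a9101)))) (.nd (nat_lit 7) 
(.nd (nat_lit 27) 
(.lf (nat_lit 5368872999) (dlOf (nat_lit 8) (nat_lit 0x1d0028004c80801400140026204003c0260012f02008a015000500a0026804c00340220030010004000700048c3002100540020028008e013001600880008040005401c001220c0024015001000a00078044002c01c00121080072015003400a0022004c010c022004801000080070004803002d8008008800200680008060c03))) 
(.nd (nat_lit 29) 
(.lf (nat_lit 5503090727) (dlOf (nat_lit 8) (nat_lit 0x1d0028004fc0801400140027c04003c0260013c02008a015000500a0026804c0034022003001000400070004c83002100540020028008e013001600880008040005401c001310c0024015001000a00078044002c01c00130080072015003400a0022004c010c022004801000080070004bc3002d8008008800200680008060c03))) 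
(.lf (nat_lit 6039961639) (dlOf (nat_lit 2) (nat_lit 0x5000000000004003000200180008070602))))) 
(.lf (nat_lit 5771529127) (dlOf (nat_lit 1) (nat_lit 0x260018005d01))))) (.nd (nat_lit 8) 
(.nd (nat_lit 10) (.nd (nat_lit 19) 
(.lf (nat_lit 1346535527) (dlOf (nat_lit 1) (nat_lit 0x80008001000200080008fa0783))) 
(.lf (nat_lit 1344962663) (dlOf (nat_lit 3) (nat_lit 0xf0534015c138008408d0000703003704e001002340000008009c002000400089a0982)))) 
(.lf (nat_lit 1880261735) (dlOf (nat_lit 1) (nat_lit 0x20008802981)))) (.nd (nat_lit 22) 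
(.lf (nat_lit 1342341479) (dlOf (nat_lit 1) (nat_lit 0xa0028015201))) 
(.lf (nat_lit 3494019431) (dlOf (nat_lit 2) (nat_lit 0xd80d60002031000138281b0700))))))) 
(.nd (nat_lit 19) (.nd (nat_lit 20) (.nd (nat_lit 28) (.nd (nat_lit 6) (.nd (nat_lit 9) 
(.lf (nat_lit 2818998311) (dlOf (nat_lit 1) (nat_lit 0x1c0008150281))) 
(.lf (nat_lit 134644263) (dlOf (nat_lit 2) (nat_lit 0x5a0208000000800e00080060002005e0008090e03)))) 
(.lf (nat_lit 21397991) (dlOf (nat_lit 2) (nat_lit 0x32ad80003a04000c00200020008a37302)))) 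
(.nd (nat_lit 6) (.nd (nat_lit 27) 
(.lf (nat_lit 4563828775) (dlOf (nat_lit 2) (nat_lit 0xc80320002013000000280f0c00))) 
(.lf (nat_lit 4698046503) (dlOf (nat_lit 2) (nat_lit 0xc80320002013000000280f0c00)))) 
(.lf (nat_lit 3624305127) (dlOf (nat_lit 3) (nat_lit 0x790000000bc0804180000005a040004004000a0008157302))))) 
(.nd (nat_lit 21) (.nd (nat_lit 8) 
(.lf (nat_lit 3491135527) (dlOf (nat_lit 1) (nat_lit 0x20028060581))) 
(.lf (nat_lit 60197671) (dlOf (nat_lit 1) (nat_lit 0xe0029845c01)))) (.nd (nat_lit 6) 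
(.nd (nat_lit 22) (.lf (nat_lit 37126183) (dlOf (nat_lit 1) (nat_lit 0x200290a0781))) 
(.lf (nat_lit 24543271) (dlOf (nat_lit 2) (nat_lit 0xd61200cc70200040028ba0a01)))) 
(.lf (nat_lit 49709159) (dlOf (nat_lit 2) (nat_lit 0xb14d0000560200020019480981)))))) 
(.nd (nat_lit 6) (.nd (nat_lit 20) (.nd (nat_lit 7) (.nd (nat_lit 9) 
(.lf (nat_lit 42893351) (dlOf (nat_lit 3) (nat_lit 0x133f0000980800899f80000804012000400020019290782))) 
(.lf (nat_lit 3490611751) (dlOf (nat_lit 1) (nat_lit 0xa0018017f01)))) 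
(.lf (nat_lit 19829415) (dlOf (nat_lit 1) (nat_lit 0x80080004002000200089d8c83)))) 
(.nd (nat_lit 21) (.nd (nat_lit 22) 
(.lf (nat_lit 27164711) (dlOf (nat_lit 1) (nat_lit 0x80028cb0781))) 
(.lf (nat_lit 22970407) (dlOf (nat_lit 3) (nat_lit 0xaed380009804007f1e0000320200300028b40601)))) 
(.lf (nat_lit 16678951) (dlOf (nat_lit 1) (nat_lit 0x400188d0781))))) (.nd (nat_lit 7) 
(.nd (nat_lit 8) (.lf (nat_lit 47087719) (dlOf (nat_lit 1) (nat_lit 0x4002000200093a0d82))) 
(.lf (nat_lit 1999207) (dlOf (nat_lit 1) (nat_lit 0x40018150701)))) (.nd (nat_lit 8) 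
(.lf (nat_lit 2819522791) (dlOf (nat_lit 1) (nat_lit 0x600182c0601))) 
(.lf (nat_lit 5772313063) (dlOf (nat_lit 1) (nat_lit 0x2e0028091301)))))))) (.nd (nat_lit 28) 
(.nd (nat_lit 8) (.nd (nat_lit 29) (.nd (nat_lit 31) (.nd (nat_lit 9) 
(.lf (nat_lit 67272743) (dlOf (nat_lit 1) (nat_lit 0x20008090601))) 
(.lf (nat_lit 201753127) (dlOf (nat_lit 2) (nat_lit 0x5a0208000000800e00080060002005e0008090e03)))) 
(.nd (nat_lit 32) 
(.lf (nat_lit 2348974119) (dlOf (nat_lit 2) (nat_lit 0x300900018038000c0150005001000050200050008003000200100008070783))) 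
(.lf (nat_lit 6643941415) (dlOf (nat_lit 2) (nat_lit 0x201a800b80c00000008000400400020008090602))))) 
(.nd (nat_lit 19) (.nd (nat_lit 18) 
(.lf (nat_lit 5033328679) (dlOf (nat_lit 2) (nat_lit 0x900a0005340800300080008002000c0008060c03))) 
(.lf (nat_lit 2752938023) (dlOf (nat_lit 1) (nat_lit 0x20028060581)))) (.nd (nat_lit 27) 
(.lf (nat_lit 1678409767) (dlOf (nat_lit 1) (nat_lit 0x20028210501))) 
(.lf (nat_lit 3960111143) (dlOf (nat_lit 2) (nat_lit 0x16f815800980aa054603202c00088001c820027000800c8002009000081b0503)))))) 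
(.nd (nat_lit 7) (.nd (nat_lit 18) (.nd (nat_lit 6) 
(.lf (nat_lit 2751629095) (dlOf (nat_lit 1) (nat_lit 0xc002000a0008003d02))) 
(.lf (nat_lit 4362240359) (dlOf (nat_lit 1) (nat_lit 0x2800200080008015202)))) (.nd (nat_lit 19) 
(.lf (nat_lit 2886107495) (dlOf (nat_lit 1) (nat_lit 0x60028155201))) 
(.lf (nat_lit 2752414055) (dlOf (nat_lit 2) (nat_lit 0x912380296c080030008002c00200780008015203))))) 
(.nd (nat_lit 29) (.nd (nat_lit 6) 
(.lf (nat_lit 4362240423) (dlOf (nat_lit 7) (nat_lit 0x42033002570100230198012b40800600cc007f4040084066003f202000c033001f8810021019800f5c080068008001800200160008016e83))) 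
(.lf (nat_lit 4362240487) (dlOf (nat_lit 1) (nat_lit 0x2c00200020008017d02)))) (.nd (nat_lit 9) 
(.lf (nat_lit 2752414183) (dlOf (nat_lit 3) (nat_lit 0x104900044a02003624800216818017d00))) 
(.lf (nat_lit 2751628263) (dlOf (nat_lit 1) (nat_lit 0x23400401880008002882))))))) 
(.nd (nat_lit 30) (.nd (nat_lit 6) (.nd (nat_lit 27) (.nd (nat_lit 29) (.nd (nat_lit 31) 
(.lf (nat_lit 4630675495) (dlOf (nat_lit 1) (nat_lit 0x40018050981))) 
(.lf (nat_lit 2483191847) (dlOf (nat_lit 2) (nat_lit 0x300900018038000c01500050010000a0200050008003000200100008070783)))) 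
(.lf (nat_lit 5167546407) (dlOf (nat_lit 2) (nat_lit 0x100280007f0180a0c00)))) (.nd (nat_lit 10) 
(.nd (nat_lit 18) 
(.lf (nat_lit 472547367) (dlOf (nat_lit 8) (nat_lit 0x201020018868400402d000281450010067801102c800a80e60022017000168800161020014068400282d0001c145000e067800b02c800800e600160170001608000200b8000ac0801085a400980300002a04034016901ac0b400cc8514018419e000c0c701c000c0000103000200600000604009c40800141a600370d0800c05a0007028a002c0cf001800b8000003805a80080014002022600089b0783))) 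
(.lf (nat_lit 471236647) (dlOf (nat_lit 1) (nat_lit 0x400182d0781)))) 
(.lf (nat_lit 5301765159) (dlOf (nat_lit 1) (nat_lit 0x20018092881))))) (.nd (nat_lit 8) 
(.nd (nat_lit 18) 
(.lf (nat_lit 1008369767) (dlOf (nat_lit 1) (nat_lit 0x8008000400200020008b70983))) 
(.lf (nat_lit 473858151) (dlOf (nat_lit 2) (nat_lit 0xc29a00180d900007028fc0980)))) 
(.nd (nat_lit 22) (.lf (nat_lit 469926247) (dlOf (nat_lit 1) (nat_lit 0x80028015201))) 
(.lf (nat_lit 474120551) (dlOf (nat_lit 1) (nat_lit 0xc004000200190e0f02)))))) (.nd (nat_lit 7) 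
(.nd (nat_lit 29) (.nd (nat_lit 6) 
(.lf (nat_lit 3691151399) (dlOf (nat_lit 5) (nat_lit 0x538028000620402a00140003002014e00a000168100a70050000ac08000800800a0002001a0008050283))) 
(.lf (nat_lit 3691151463) (dlOf (nat_lit 5) (nat_lit 0x3a0050001f4080228028000f804011c0140007502001000a00039818050d00)))) 
(.nd (nat_lit 8) (.lf (nat_lit 4228546599) (dlOf (nat_lit 1) (nat_lit 0x400080f0c01))) 
(.lf (nat_lit 2080539943) (dlOf (nat_lit 1) (nat_lit 0x8008000400200020008093183))))) 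
(.nd (nat_lit 6) (.nd (nat_lit 8) 
(.lf (nat_lit 6377341095) (dlOf (nat_lit 1) (nat_lit 0x178002008200080c1482))) 
(.lf (nat_lit 6378127783) (dlOf (nat_lit 1) (nat_lit 0x20000800f800200480008116e83)))) 
(.nd (nat_lit 18) (.lf (nat_lit 5704417511) (dlOf (nat_lit 1) (nat_lit 0x20028071d81))) 
(.lf (nat_lit 3557720295) (dlOf (nat_lit 1) (nat_lit 0x600182c0601)))))))))) (.nd (nat_lit 17) 
(.nd (nat_lit 18) (.nd (nat_lit 9) (.nd (nat_lit 6) (.nd (nat_lit 19) (.nd (nat_lit 20) 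
(.nd (nat_lit 7) (.lf (nat_lit 21012519) (dlOf (nat_lit 2) (nat_lit 0x4200300025818a00900))) 
(.lf (nat_lit 3959471271) (dlOf (nat_lit 1) (nat_lit 0x40020002000800c202)))) (.nd (nat_lit 23) 
(.nd (nat_lit 26) (.lf (nat_lit 1343266855) (dlOf (nat_lit 1) (nat_lit 0x2200181e0681))) 
(.lf (nat_lit 68198439) (dlOf (nat_lit 1) (nat_lit 0xe80008450681)))) 
(.lf (nat_lit 26255399) (dlOf (nat_lit 2) (nat_lit 0xc3610000d90c0001a0400140028c20881))))) 
(.nd (nat_lit 23) (.nd (nat_lit 22) (.nd (nat_lit 26) 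
(.lf (nat_lit 805871655) (dlOf (nat_lit 2) (nat_lit 0x16000000138181d0980))) 
(.lf (nat_lit 1678286887) (dlOf (nat_lit 2) (nat_lit 0x16000000138181d0980)))) (.nd (nat_lit 24) 
(.lf (nat_lit 4759591) (dlOf (nat_lit 1) (nat_lit 0xc0004003800082b0282))) 
(.lf (nat_lit 21536807) (dlOf (nat_lit 1) (nat_lit 0x20028a40281))))) (.nd (nat_lit 20) 
(.lf (nat_lit 11051047) (dlOf (nat_lit 16) (nat_lit 0x81a15047fbf100b50000000a60c0adefc400ec000000290201a6bf100013c08000e568082aff009437e2005dbe680011c200145f880008c0400a7096000380204a5a16024acad80e1e18000830a402e78510253be901115f3805c9240047c43c021c21a013c8000000662c03cc0000003102036785200016810015c2580090000000300801d70960001402000984b0000201019fc2580000c08046612c0000204099709603a984501ccbef0000001800e000800e000200de0008660603))) 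
(.nd (nat_lit 24) 
(.lf (nat_lit 10002471) (dlOf (nat_lit 19) (nat_lit 0x21bd218060e904027b47e00140060111a5003acd21807a6904059b47e0489a39027fcee00aa67680027e1c03df4a0007ba4503b5d2180aee90408eb47e04afa39027ecee00a267680027c20003f48a063ba430028d20801a68fc020747203cb9dc0131ced0004f43806e6940055f49601dda450378d218012e8ec06df4720217a2d000bd148010677c05cf3b8024d9da00a3cb9805de5c801432ae01bb936008ac1f00f860f0056927e01fe91200fc488000c913c040889a017c0000009e170012d28000be9140a9748600bba410160cee001b67680027618052748a01cfa4300c1d20804068fc03ab3b8001380a00039dc0009b810007d208004d40804a6904019f3b80013304018fa5003d8d2281df690c1193482087ba3f00a5d1d803f68e410c33b800132100771a450390d2182026904101347e0057a3b00fcd1c81fbe770002621c0e9f48a069ba430395d2081b6e8fc006b476010ba39037acee0004c03809ae9400e8b48a0767a43028ed20814f68fc037f47603eda3900e2cf081a9e770004f2e6008b9360025c93000e113c0025e34005f482001da3f0097cee0004b81801367b0002240400074440075a2000049020068c270000000806d800819d8002041000085a0c03)))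 
(.lf (nat_lit 60334119) (dlOf (nat_lit 1) (nat_lit 0x80029840001))))))) (.nd (nat_lit 31) 
(.nd (nat_lit 8) (.nd (nat_lit 19) (.nd (nat_lit 21) 
(.lf (nat_lit 12623975) (dlOf (nat_lit 1) (nat_lit 0x4004000200086d1402))) 
(.lf (nat_lit 44081255) (dlOf (nat_lit 1) (nat_lit 0x4002000200092c0d82)))) 
(.lf (nat_lit 474521703) (dlOf (nat_lit 1) (nat_lit 0x400291a0981)))) (.nd (nat_lit 26) 
(.lf (nat_lit 671129959) (dlOf (nat_lit 5) (nat_lit 0xa64058053801b029c0030099000c0a7c000000290a007601b0001401029b016000480980a880360542006012d001815100000004e1800e000c001e0010000d8280b0700))) 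
(.lf (nat_lit 1543545191) (dlOf (nat_lit 5) (nat_lit 0xa640580538019029c0030099000c0a7c000000290a00760190001401029b016000480980a880320542006012d001815100000004e1800e000c001e0010000d8280b0700))))) 
(.nd (nat_lit 10) (.nd (nat_lit 8) (.nd (nat_lit 11) 
(.lf (nat_lit 3892879463) (dlOf (nat_lit 1) (nat_lit 0x20008280481))) 
(.lf (nat_lit 6576711783) (dlOf (nat_lit 1) (nat_lit 0x5a0018004701)))) 
(.lf (nat_lit 2755699047) (dlOf (nat_lit 15) (nat_lit 0x702c80006a0401e81620003302000807900610378000c81000b01bc000620409c01640002e0204420b20001681024c0590000b00810c02c8000560400181ca000e0b5012b04280240210003c104004400300014860062042800c02100004e0808d016400920850001282003e0590000840800b82c80003c0407781640001b02005200281b0701)))) 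
(.nd (nat_lit 11) (.lf (nat_lit 3691033703) (dlOf (nat_lit 1) (nat_lit 0x400200020008009402))) 
(.lf (nat_lit 2952838247) (dlOf (nat_lit 1) (nat_lit 0x800800080020004000800c083))))))) 
(.nd (nat_lit 8) (.nd (nat_lit 29) (.nd (nat_lit 6) (.nd (nat_lit 7) 
(.lf (nat_lit 40935975) (dlOf (nat_lit 1) (nat_lit 0x260029208801))) 
(.lf (nat_lit 42663) (dlOf (nat_lit 1) (nat_lit 0x20008003a81)))) (.nd (nat_lit 22) 
(.lf (nat_lit 5368752743) (dlOf (nat_lit 2) (nat_lit 0x1201200000018005380))) 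
(.lf (nat_lit 54569575) (dlOf (nat_lit 1) (nat_lit 0x800400020009655382))))) (.nd (nat_lit 26) 
(.nd (nat_lit 27) (.lf (nat_lit 3758140007) (dlOf (nat_lit 1) (nat_lit 0x1800400020008085382))) 
(.lf (nat_lit 2818615911) (dlOf (nat_lit 2) (nat_lit 0x1600500280000000ec100080008000400200080008005383)))) 
(.nd (nat_lit 6) 
(.lf (nat_lit 2751511079) (dlOf (nat_lit 1) (nat_lit 0x3000800080020008000800b283))) 
(.lf (nat_lit 5301643879) (dlOf (nat_lit 2) (nat_lit 0x40560003b02001e0018005381)))))) 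
(.nd (nat_lit 11) (.nd (nat_lit 6) (.nd (nat_lit 7) 
(.lf (nat_lit 19968807) (dlOf (nat_lit 1) (nat_lit 0x200089d8f81))) (.nd (nat_lit 10) 
(.lf (nat_lit 2684400551) (dlOf (nat_lit 1) (nat_lit 0x400400020018009102))) 
(.lf (nat_lit 469804967) (dlOf (nat_lit 1) (nat_lit 0xa0028004301))))) (.nd (nat_lit 27) 
(.lf (nat_lit 42855) (dlOf (nat_lit 1) (nat_lit 0x20028004001))) 
(.lf (nat_lit 6576711527) (dlOf (nat_lit 1) (nat_lit 0x20018004001))))) (.nd (nat_lit 7) 
(.nd (nat_lit 19) (.nd (nat_lit 26) 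
(.lf (nat_lit 2818616103) (dlOf (nat_lit 3) (nat_lit 0xf00b001e005401b40180006006000b002001200000044c18001000c0020e02001e0008005c01))) 
(.lf (nat_lit 1275112231) (dlOf (nat_lit 1) (nat_lit 0x8008000400200020008005c03)))) 
(.lf (nat_lit 46705447) (dlOf (nat_lit 1) (nat_lit 0x8008000800200020009385c03)))) 
(.nd (nat_lit 26) (.lf (nat_lit 1610656679) (dlOf (nat_lit 1) (nat_lit 0x20018005d01))) 
(.lf (nat_lit 2080418727) (dlOf (nat_lit 1) (nat_lit 0x580028005d01)))))))) (.nd (nat_lit 30) 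
(.nd (nat_lit 7) (.nd (nat_lit 20) (.nd (nat_lit 26) (.nd (nat_lit 27) (.nd (nat_lit 6) 
(.lf (nat_lit 44343335) (dlOf (nat_lit 1) (nat_lit 0x600192f0981))) 
(.lf (nat_lit 4497767) (dlOf (nat_lit 1) (nat_lit 0x400200020008290982)))) (.nd (nat_lit 28) 
(.lf (nat_lit 2282004519) (dlOf (nat_lit 1) (nat_lit 0x800200040008100602))) 
(.lf (nat_lit 402956327) (dlOf (nat_lit 1) (nat_lit 0x38008001c002000600080b0303))))) 
(.nd (nat_lit 28) (.nd (nat_lit 6) (.nd (nat_lit 19) 
(.lf (nat_lit 2755960871) (dlOf (nat_lit 1) (nat_lit 0x10002000800081c0902))) 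
(.lf (nat_lit 2754388007) (dlOf (nat_lit 2) (nat_lit 0x126155000390180e0500)))) 
(.lf (nat_lit 2755960935) (dlOf (nat_lit 3) (nat_lit 0x2004c0001101001202600008408006800800a8002003200081c1383)))) 
(.nd (nat_lit 19) (.nd (nat_lit 29) 
(.lf (nat_lit 335847463) (dlOf (nat_lit 1) (nat_lit 0x38008001c002000600080b0303))) 
(.lf (nat_lit 872718375) (dlOf (nat_lit 1) (nat_lit 0x2d800801fc002008c00080a0983)))) 
(.lf (nat_lit 470589479) (dlOf (nat_lit 1) (nat_lit 0x30008000c00200060008130983)))))) 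
(.nd (nat_lit 9) (.nd (nat_lit 19) (.nd (nat_lit 6) 
(.lf (nat_lit 32808999) (dlOf (nat_lit 1) (nat_lit 0x1000400020008f20782))) 
(.lf (nat_lit 62169191) (dlOf (nat_lit 1) (nat_lit 0x48008001000200120009960783)))) 
(.nd (nat_lit 21) (.lf (nat_lit 27041831) (dlOf (nat_lit 1) (nat_lit 0x180018ca0681))) 
(.lf (nat_lit 45916199) (dlOf (nat_lit 1) (nat_lit 0x1000400040009370782))))) (.nd (nat_lit 8) 
(.lf (nat_lit 57975335) (dlOf (nat_lit 2) (nat_lit 0x2000000000197a8800))) 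
(.lf (nat_lit 60074791) (dlOf (nat_lit 1) (nat_lit 0x8008000800200040009845c03)))))) 
(.nd (nat_lit 6) (.nd (nat_lit 9) (.nd (nat_lit 10) 
(.lf (nat_lit 4697923751) (dlOf (nat_lit 2) (nat_lit 0x501580005c0800300080020002001000080c1383))) 
(.lf (nat_lit 537705639) (dlOf (nat_lit 1) (nat_lit 0x200280fc201)))) (.nd (nat_lit 8) 
(.lf (nat_lit 36481703) (dlOf (nat_lit 1) (nat_lit 0xf00009075601))) 
(.lf (nat_lit 2751768487) (dlOf (nat_lit 1) (nat_lit 0x40018004301))))) (.nd (nat_lit 9) 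
(.nd (nat_lit 8) 
(.lf (nat_lit 4697923815) (dlOf (nat_lit 20) (nat_lit 0x31017801480b400f8056006801f00071040037017801c80b400d403e000e006007c02f003e0168027007c001ba0c009805e000a502004c02f000520100260178004007c0014408009805e0009b02006202f000100f8002481001300bc0011c04009c05e001801f000468200260178002280801480bc00b805a0008704006202f0002016800e807c000fe0c009805e0007e02004e02f000300f8001f41001300bc000f80400a005e0007802004c02f0003901002501780000008057000801a4002001000080c1b83))) 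
(.lf (nat_lit 6509863399) (dlOf (nat_lit 4) (nat_lit 0x4402e0005e02002a0170002e01001700b80010c080060008000800200080008157303)))) 
(.nd (nat_lit 10) (.lf (nat_lit 56928999) (dlOf (nat_lit 1) (nat_lit 0x8008000800200040009795983))) 
(.lf (nat_lit 537702119) (dlOf (nat_lit 1) (nat_lit 0x80080004002000200080f7403))))))) 
(.nd (nat_lit 31) (.nd (nat_lit 7) (.nd (nat_lit 9) (.nd (nat_lit 6) (.nd (nat_lit 20) 
(.lf (nat_lit 1343004711) (dlOf (nat_lit 1) (nat_lit 0x30008000c00200060008130983))) 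
(.lf (nat_lit 1346150439) (dlOf (nat_lit 3) (nat_lit 0x101450002067801281cc000520c003828a000c0cf003d039800700700004e100004004001c0008e60202)))) 
(.lf (nat_lit 1346150503) (dlOf (nat_lit 8) (nat_lit 0xb014d009c06c802e036001f00fa01a407c0000705002d06c800401f4000180801300f80000b02009814d007a06c8024036001840fa014207c0000505003b03e0000240800481f40000c0400b81b2001807d006003e000000180bb80080010002001a0008e60983)))) 
(.nd (nat_lit 26) 
(.lf (nat_lit 1074045479) (dlOf (nat_lit 2) (nat_lit 0x2f80a4000de04001000400100008090e02))) 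
(.lf (nat_lit 1946460711) (dlOf (nat_lit 2) (nat_lit 0x2f80a4000de04001000400100008090e02))))) 
(.nd (nat_lit 6) (.nd (nat_lit 8) (.nd (nat_lit 27) 
(.lf (nat_lit 5637447847) (dlOf (nat_lit 1) (nat_lit 0x200280f1381))) 
(.lf (nat_lit 1745133735) (dlOf (nat_lit 1) (nat_lit 0x10004000400080a2c02)))) 
(.lf (nat_lit 6376171943) (dlOf (nat_lit 1) (nat_lit 0x60008094e81)))) (.nd (nat_lit 8) 
(.nd (nat_lit 9) 
(.lf (nat_lit 6241427687) (dlOf (nat_lit 1) (nat_lit 0x80080004002000200080f1d83))) 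
(.lf (nat_lit 1345628903) (dlOf (nat_lit 1) (nat_lit 0x8004000a0018dd5982)))) 
(.lf (nat_lit 1345627111) (dlOf (nat_lit 1) (nat_lit 0x2e0008dd2881)))))) (.nd (nat_lit 28) 
(.nd (nat_lit 27) (.nd (nat_lit 6) (.nd (nat_lit 9) 
(.lf (nat_lit 3758399527) (dlOf (nat_lit 5) (nat_lit 0x8701e802800c006c005603440240001884004e01800d880ac06880480003006036002b01a20120000b4100d800ac06880480002b0400020018170281))) 
(.lf (nat_lit 3221529127) (dlOf (nat_lit 7) (nat_lit 0x21c01c0043f02002a00e0020a01000d0070010440803e80380082004002c01c0040a02008c00e001eb818127f00)))) 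
(.lf (nat_lit 3221529063) (dlOf (nat_lit 11) (nat_lit 0x35c80f801e40780d0e00e04ee006021f80000004814004007c003c00e000118206a601f02f3003817c80180ae2000000110406bb01f0342803807a8018025c000000100401e600700007c0801c80380003c041a5007c03d403c015a00e02ed00381854018024c00401e000102ba00000003a2000b801c0001c02032e03e00ee00700006c100020038000120404d4004007e0018127302)))) 
(.nd (nat_lit 6) (.nd (nat_lit 26) 
(.lf (nat_lit 3355746343) (dlOf (nat_lit 1) (nat_lit 0x200280f0801))) 
(.lf (nat_lit 3422855207) (dlOf (nat_lit 1) (nat_lit 0x40028120601)))) 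
(.lf (nat_lit 3959726567) (dlOf (nat_lit 2) (nat_lit 0x800e0024c018127d00))))) (.nd (nat_lit 10) 
(.nd (nat_lit 19) (.lf (nat_lit 3494158375) (dlOf (nat_lit 1) (nat_lit 0x10002000800081c0902))) 
(.lf (nat_lit 3492585511) (dlOf (nat_lit 2) (nat_lit 0x12615f000390180e0500)))) (.nd (nat_lit 6) 
(.lf (nat_lit 3489967399) (dlOf (nat_lit 1) (nat_lit 0x20028006801))) 
(.lf (nat_lit 3489967335) (dlOf (nat_lit 1) (nat_lit 0x1c0028006501))))))))) (.nd (nat_lit 19) 
(.nd (nat_lit 26) (.nd (nat_lit 18) (.nd (nat_lit 7) (.nd (nat_lit 9) (.nd (nat_lit 22) 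
(.nd (nat_lit 6) (.nd (nat_lit 8) 
(.lf (nat_lit 6711058471) (dlOf (nat_lit 2) (nat_lit 0xe400a000900200040028060c01))) 
(.lf (nat_lit 2818744615) (dlOf (nat_lit 1) (nat_lit 0x100080010002000600080f8103)))) 
(.lf (nat_lit 175463) (dlOf (nat_lit 1) (nat_lit 0x400400020008006a82)))) (.nd (nat_lit 6) 
(.nd (nat_lit 20) 
(.lf (nat_lit 1346543655) (dlOf (nat_lit 1) (nat_lit 0x10008001400200140008fb0a83))) 
(.lf (nat_lit 30580775) (dlOf (nat_lit 1) (nat_lit 0x8008000400200080008e40d83)))) 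
(.lf (nat_lit 37920871) (dlOf (nat_lit 1) (nat_lit 0x800190e1981))))) (.nd (nat_lit 6) 
(.nd (nat_lit 8) (.nd (nat_lit 23) 
(.lf (nat_lit 1745005095) (dlOf (nat_lit 2) (nat_lit 0x403e000f3018095180))) 
(.lf (nat_lit 58894887) (dlOf (nat_lit 1) (nat_lit 0xc00097e5181)))) 
(.lf (nat_lit 54700839) (dlOf (nat_lit 2) (nat_lit 0x195180044c04000400400400019655c02)))) 
(.nd (nat_lit 10) 
(.lf (nat_lit 54700647) (dlOf (nat_lit 2) (nat_lit 0x42a28000ec080108008002800200240009655383))) 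
(.lf (nat_lit 2281879143) (dlOf (nat_lit 1) (nat_lit 0x200280a9c01)))))) (.nd (nat_lit 28) 
(.nd (nat_lit 6) (.nd (nat_lit 9) 
(.lf (nat_lit 46311847) (dlOf (nat_lit 1) (nat_lit 0x400400020009384e82))) 
(.lf (nat_lit 5905754023) (dlOf (nat_lit 1) (nat_lit 0xe40028144301)))) (.nd (nat_lit 8) 
(.lf (nat_lit 671262951) (dlOf (nat_lit 1) (nat_lit 0x480028144b01))) 
(.lf (nat_lit 134390247) (dlOf (nat_lit 4) (nat_lit 0x1420000001101004d0000000800803e80000003a04000c00200160008017302))))) 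
(.nd (nat_lit 30) (.nd (nat_lit 6) 
(.lf (nat_lit 5100445863) (dlOf (nat_lit 1) (nat_lit 0x20018081381))) 
(.lf (nat_lit 5100445927) (dlOf (nat_lit 1) (nat_lit 0x500008081b81)))) (.nd (nat_lit 10) 
(.lf (nat_lit 6308405415) (dlOf (nat_lit 1) (nat_lit 0x8008002000200080008071383))) 
(.lf (nat_lit 1344447655) (dlOf (nat_lit 2) (nat_lit 0x18870000be04000400200020008802c02))))))) 
(.nd (nat_lit 23) (.nd (nat_lit 28) (.nd (nat_lit 6) (.nd (nat_lit 7) (.nd (nat_lit 20) 
(.lf (nat_lit 2819006503) (dlOf (nat_lit 5) (nat_lit 0x1ba04300cc00e0000c41006e810c0338038000300401b80430008010806680700005a0c0374086019c01c00015828150280))) 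
(.lf (nat_lit 22454311) (dlOf (nat_lit 2) (nat_lit 0xe5878000a8080130008004800200620008ae0583)))) 
(.lf (nat_lit 1611047079) (dlOf (nat_lit 3) (nat_lit 0x380fc0004404001807e0002102001e00180c1381)))) 
(.nd (nat_lit 8) 
(.lf (nat_lit 1611047143) (dlOf (nat_lit 3) (nat_lit 0x120570007581000302c0000000801000080068002003000080c1b83))) 
(.lf (nat_lit 21406183) (dlOf (nat_lit 1) (nat_lit 0x8008001000200020008a37303))))) 
(.nd (nat_lit 27) (.nd (nat_lit 22) (.nd (nat_lit 29) 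
(.lf (nat_lit 4563836967) (dlOf (nat_lit 10) (nat_lit 0xf01280029c0805080a40014004027405200f80210004f82006c01480026c0804f80a4001340400e005200cc0210004b02003e014801f00840012808004c05202b40210004982025b018002300a400bc04e003202501ff010800d806c00000180048004007400080f0c02))) 
(.lf (nat_lit 1879482407) (dlOf (nat_lit 1) (nat_lit 0x18c0018160881)))) 
(.lf (nat_lit 1346805799) (dlOf (nat_lit 1) (nat_lit 0x400400060009010782)))) (.nd (nat_lit 6) 
(.lf (nat_lit 4698054695) (dlOf (nat_lit 10) (nat_lit 0xf01280029c0804e80a401f0042000a40401420290005081006c0148002700804f80a4001360400e005200cc0210004b02003e014801f00840012808004c05202b40210004982025b018002300a400bc04e003202501ff010800d806c00000180048004007400080f0c02))) 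
(.lf (nat_lit 3624313319) (dlOf (nat_lit 7) (nat_lit 0x6007403be03701ae01a8058802808640000002f0a000803a01e601b80e080d407a001404360000001685005c01b800280280005608016c06e0002a0200460370001401001701b80009808000800801c8002006c0008157303)))))) 
(.nd (nat_lit 24) (.nd (nat_lit 6) (.nd (nat_lit 22) 
(.lf (nat_lit 10919975) (dlOf (nat_lit 1) (nat_lit 0x5000400340008640982))) 
(.lf (nat_lit 48668711) (dlOf (nat_lit 1) (nat_lit 0xf4002004e0009420202)))) 
(.lf (nat_lit 45523047) (dlOf (nat_lit 1) (nat_lit 0x18008001400200060009331983)))) 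
(.nd (nat_lit 6) (.nd (nat_lit 7) 
(.lf (nat_lit 60205863) (dlOf (nat_lit 1) (nat_lit 0x18008000c00200040009845c03))) 
(.lf (nat_lit 62302887) (dlOf (nat_lit 1) (nat_lit 0x4002000200099a5602)))) 
(.lf (nat_lit 26648679) (dlOf (nat_lit 2) (nat_lit 0x76bc0009d818c50d00))))))) (.nd (nat_lit 27) 
(.nd (nat_lit 6) (.nd (nat_lit 8) (.nd (nat_lit 11) (.nd (nat_lit 28) 
(.lf (nat_lit 67280935) (dlOf (nat_lit 2) (nat_lit 0x4008800130080028008001400200020008090603))) 
(.lf (nat_lit 4630683687) (dlOf (nat_lit 2) (nat_lit 0x800500000018060c00)))) (.nd (nat_lit 9) 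
(.lf (nat_lit 1677895719) (dlOf (nat_lit 1) (nat_lit 0x60008114701))) 
(.lf (nat_lit 69642791) (dlOf (nat_lit 1) (nat_lit 0x400400020008b95182))))) (.nd (nat_lit 7) 
(.lf (nat_lit 604416807) (dlOf (nat_lit 3) (nat_lit 0xc0370011e01001c021800e00e8007006e003e034002301500108080001c018000400900190000008bc4800a0008006000200120008205c03))) 
(.nd (nat_lit 10) 
(.lf (nat_lit 4362248615) (dlOf (nat_lit 6) (nat_lit 0xc402380143c08062811c0095c04031008e004ad020192047001fa0100c7023800fcc08025800800f4002002c0008016e83))) 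
(.lf (nat_lit 3020076455) (dlOf (nat_lit 1) (nat_lit 0x20008000400200020008129903)))))) 
(.nd (nat_lit 11) (.nd (nat_lit 7) (.nd (nat_lit 8) 
(.lf (nat_lit 69378151) (dlOf (nat_lit 1) (nat_lit 0x1000400020008940982))) 
(.lf (nat_lit 4362248551) (dlOf (nat_lit 1) (nat_lit 0x1380080030002001a0008015203)))) 
(.lf (nat_lit 872588519) (dlOf (nat_lit 6) (nat_lit 0x1402e0003502000c01b000300b00008010001806c001c02e00080160000f83000d00d8002005c0003c08000805a000000200060028092e01)))) 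
(.nd (nat_lit 9) (.nd (nat_lit 10) 
(.lf (nat_lit 1677895783) (dlOf (nat_lit 2) (nat_lit 0x8000001c6040238002003a0008114702))) 
(.lf (nat_lit 3020078183) (dlOf (nat_lit 1) (nat_lit 0x12001812c081)))) 
(.lf (nat_lit 604416615) (dlOf (nat_lit 6) (nat_lit 0x5603c0002501000b01e0012808c000820800140380003f020010045005800e0000f4100090114003c0780010023000200e0000ec20071000800b800200060008205383)))))) 
(.nd (nat_lit 30) (.nd (nat_lit 8) (.nd (nat_lit 18) (.nd (nat_lit 28) 
(.lf (nat_lit 6643949607) (dlOf (nat_lit 2) (nat_lit 0x5000000000004003000200180008090602))) 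
(.lf (nat_lit 4764901415) (dlOf (nat_lit 2) (nat_lit 0x800500000018060c00)))) 
(.lf (nat_lit 4496728103) (dlOf (nat_lit 1) (nat_lit 0xe0028160481)))) (.nd (nat_lit 6) 
(.lf (nat_lit 5301772711) (dlOf (nat_lit 1) (nat_lit 0x40018091001))) (.nd (nat_lit 18) 
(.lf (nat_lit 2885853543) (dlOf (nat_lit 5) (nat_lit 0xa2030019a01780fd80b807e805a040802401f500d00fc0060080c02e040201301fb00880218030041801603fe00501fc00100ac800407cc0000002920041802e020f01680ed809008200340406018020b00b8105004c0820022028800b020d002810880080820002041e000000138d001d0180000940801b004c001c00a0001b04002400280b0701))) 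
(.lf (nat_lit 2886115687) (dlOf (nat_lit 3) (nat_lit 0x81040148c04011008200a450200080008155201)))))) 
(.nd (nat_lit 6) (.nd (nat_lit 7) (.nd (nat_lit 9) 
(.lf (nat_lit 6107078695) (dlOf (nat_lit 2) (nat_lit 0xe400a000920200040028060c01))) 
(.lf (nat_lit 4228031015) (dlOf (nat_lit 1) (nat_lit 0xe0028017f01)))) 
(.lf (nat_lit 5570207911) (dlOf (nat_lit 1) (nat_lit 0x28008001c002000a0008081383)))) 
(.nd (nat_lit 8) 
(.lf (nat_lit 5570207975) (dlOf (nat_lit 1) (nat_lit 0x8008000400200020008081b83))) 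
(.nd (nat_lit 9) 
(.lf (nat_lit 1812111847) (dlOf (nat_lit 2) (nat_lit 0x1c016000440200100008157301))) 
(.lf (nat_lit 3959596007) (dlOf (nat_lit 1) (nat_lit 0x2000200020008112882))))))))) 
(.nd (nat_lit 20) (.nd (nat_lit 26) (.nd (nat_lit 6) (.nd (nat_lit 18) (.nd (nat_lit 22) 
(.nd (nat_lit 27) (.nd (nat_lit 28) 
(.lf (nat_lit 3221921831) (dlOf (nat_lit 12) (nat_lit 0xe804a000398107df02b0367015405e00a4023804b0059020803b80fc015806c0726032033f018833e00bc023005c072e02b02730148145007802cc0260c76011038f00500378020034800c0144000000391401270200001b4080ab8100000d80405400800006b02002402f0001181000b0080000800801f00bc0003c0400980a800360510010028000080fc101005e002e02e0040008002700180003820002005e0010010004900300006c18080814402c40940888049003e020012680d411f806804a601f033f0030000004011080084e9400201c000081b0503))) 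
(.lf (nat_lit 806002727) (dlOf (nat_lit 2) (nat_lit 0x7280ac007603201790098000fc180140008007c00200480008210503)))) 
(.nd (nat_lit 28) (.lf (nat_lit 134914087) (dlOf (nat_lit 1) (nat_lit 0x25400200f400080e0502))) 
(.lf (nat_lit 5772058663) (dlOf (nat_lit 4) (nat_lit 0x214f000990100020a78000850c0024608001029e001414e00020a68001050c0024010000c00400320008060c02))))) 
(.nd (nat_lit 7) 
(.lf (nat_lit 21667879) (dlOf (nat_lit 3) (nat_lit 0x80000004bc0800413080000004009800200340008a60c02))) 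
(.lf (nat_lit 55223463) (dlOf (nat_lit 1) (nat_lit 0x200296d2c01))))) (.nd (nat_lit 21) 
(.lf (nat_lit 42901543) (dlOf (nat_lit 1) (nat_lit 0x20008000400200060009290783))) 
(.lf (nat_lit 11444263) (dlOf (nat_lit 2) (nat_lit 0x61358000500800280080010002000e00086a0783))))) 
(.nd (nat_lit 7) (.nd (nat_lit 8) (.nd (nat_lit 21) 
(.lf (nat_lit 42639463) (dlOf (nat_lit 2) (nat_lit 0xaa4000054844000130400020019260981))) 
(.lf (nat_lit 1344970855) (dlOf (nat_lit 2) (nat_lit 0x830b0002a0270015811a0000006003000189a0981)))) 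
(.lf (nat_lit 537829735) (dlOf (nat_lit 16) (nat_lit 0x18a01d807b40cc076c0000001983020f03b009881d407d80cc02400000001904020c03b00f2819806e80000003106040407601df0330000c01006301880005c0401c40c40002d0201bc00000014810086031801900000004e0800700ec03c207501c0038000a019807b00ca01d206201f30000000943804f01d403e40e0001206600b6032803d81880214000000210c047c07501e3032812880000003c0c08b00000001d02032e075019d03280f40000000380c05a00e001ba0000000d82000b0380001019800000080018002000200081b0702)))) 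
(.nd (nat_lit 8) (.lf (nat_lit 53126375) (dlOf (nat_lit 1) (nat_lit 0x40029572e01))) 
(.lf (nat_lit 3490619879) (dlOf (nat_lit 1) (nat_lit 0x800200020008017302)))))) (.nd (nat_lit 27) 
(.nd (nat_lit 29) (.nd (nat_lit 32) 
(.lf (nat_lit 67805223) (dlOf (nat_lit 1) (nat_lit 0x3400182f0b01))) 
(.lf (nat_lit 4362772519) (dlOf (nat_lit 1) (nat_lit 0x8008042000200e600080f0c83)))) 
(.nd (nat_lit 6) 
(.lf (nat_lit 1678417959) (dlOf (nat_lit 2) (nat_lit 0x7280ac007603201790098000fc180140008007c00200480008210503))) 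
(.lf (nat_lit 2752161639) (dlOf (nat_lit 1) (nat_lit 0x1b000800fc00200540008004003))))) 
(.nd (nat_lit 28) (.nd (nat_lit 29) 
(.lf (nat_lit 202022951) (dlOf (nat_lit 1) (nat_lit 0x25400200f400080e0502))) 
(.lf (nat_lit 3960119335) (dlOf (nat_lit 12) (nat_lit 0xe804a000398107df02b0367015405e00a4023804b0059020803b80fc015806c0726032033f018833e00bc023005c072e02b02730148145007802cc0260c76011038f00500378020034800c0144000000391401270200001b4080ab8100000d80405400800006b02002402f0001181000b0080000800801f00bc0003c0400980a800360510010028000080fc101005e002e02e0040008002700180003820002005e0010010004900300006c18080814402c40940888049003e020012680d411f806804a601f033f0030000004011080084e9400201c000081b0503)))) 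
(.nd (nat_lit 6) (.nd (nat_lit 30) 
(.lf (nat_lit 3154812967) (dlOf (nat_lit 2) (nat_lit 0x401900017818330b00))) 
(.lf (nat_lit 6376038439) (dlOf (nat_lit 4) (nat_lit 0x21400009f8100020a0000084d000264080010280001413f000209f000104d00025e10000c00400320008060c02)))) 
(.lf (nat_lit 472555623) (dlOf (nat_lit 2) (nat_lit 0x7c1b2003e09c001f0468000381800a80080068002001600089c0983))))))) 
(.nd (nat_lit 6) (.nd (nat_lit 24) (.nd (nat_lit 26) (.nd (nat_lit 7) (.nd (nat_lit 18) 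
(.lf (nat_lit 3842087) (dlOf (nat_lit 1) (nat_lit 0x10000800c000200500008230983))) 
(.lf (nat_lit 1346281511) (dlOf (nat_lit 1) (nat_lit 0x1a0028e80001)))) 
(.lf (nat_lit 1346021799) (dlOf (nat_lit 1) (nat_lit 0x2000400080018e24e82)))) (.nd (nat_lit 9) 
(.lf (nat_lit 68853799) (dlOf (nat_lit 2) (nat_lit 0x80f20001502000200087b0781))) 
(.lf (nat_lit 473604647) (dlOf (nat_lit 4) (nat_lit 0x1c232000c1180003402000508c8001980800084640000004017c004000e0008f68802))))) 
(.nd (nat_lit 21) (.nd (nat_lit 18) 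
(.lf (nat_lit 22716455) (dlOf (nat_lit 1) (nat_lit 0xc0008b10801))) 
(.lf (nat_lit 22978599) (dlOf (nat_lit 2) (nat_lit 0x938f00044ad50000c81000300080014002000a0008b40603)))) 
(.nd (nat_lit 7) (.lf (nat_lit 54173735) (dlOf (nat_lit 1) (nat_lit 0x18008000400200080009640783))) 
(.lf (nat_lit 58369191) (dlOf (nat_lit 3) (nat_lit 0x44d30001201000226980008408016800800ac00200a800097e2c03)))))) 
(.nd (nat_lit 18) (.nd (nat_lit 21) (.nd (nat_lit 29) 
(.lf (nat_lit 3491405927) (dlOf (nat_lit 1) (nat_lit 0x40018090001))) 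
(.lf (nat_lit 1880793191) (dlOf (nat_lit 1) (nat_lit 0x8008000400200020008b90983)))) 
(.nd (nat_lit 7) (.lf (nat_lit 29007975) (dlOf (nat_lit 1) (nat_lit 0x800400020008da0482))) 
(.lf (nat_lit 58368999) (dlOf (nat_lit 1) (nat_lit 0xf00080048002003e00097e2883))))) 
(.nd (nat_lit 23) (.nd (nat_lit 9) 
(.lf (nat_lit 473866343) (dlOf (nat_lit 2) (nat_lit 0x1a0d900007018fc0980))) 
(.lf (nat_lit 54438503) (dlOf (nat_lit 1) (nat_lit 0x1800400020009655382)))) (.nd (nat_lit 8) 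
(.lf (nat_lit 14590055) (dlOf (nat_lit 1) (nat_lit 0x400200020008770d02))) 
(.lf (nat_lit 12493159) (dlOf (nat_lit 1) (nat_lit 0x4004000200086c0702))))))))))) 
(.nd (nat_lit 13) (.nd (nat_lit 6) (.nd (nat_lit 18) (.nd (nat_lit 19) (.nd (nat_lit 17) 
(.nd (nat_lit 8) (.nd (nat_lit 21) (.nd (nat_lit 27) (.nd (nat_lit 20) 
(.lf (nat_lit 3221323815) (dlOf (nat_lit 1) (nat_lit 0x8008000400200020008090003))) 
(.lf (nat_lit 38895655) (dlOf (nat_lit 2) (nat_lit 0x5265c00292e20001d04000c0019180781)))) 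
(.nd (nat_lit 7) 
(.lf (nat_lit 2281799719) (dlOf (nat_lit 5) (nat_lit 0x3a0260020012000150100258098011c0480004b040024026000210100180118000fc080010008001800200080008020903))) 
(.lf (nat_lit 402751655) (dlOf (nat_lit 1) (nat_lit 0x1c00200040008090582))))) (.nd (nat_lit 9) 
(.lf (nat_lit 1344372775) (dlOf (nat_lit 1) (nat_lit 0x80080020002000c0008740003))) 
(.lf (nat_lit 69306919) (dlOf (nat_lit 1) (nat_lit 0xc0018905181))))) (.nd (nat_lit 7) 
(.nd (nat_lit 21) (.lf (nat_lit 3493953831) (dlOf (nat_lit 1) (nat_lit 0xa400081b0501))) 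
(.lf (nat_lit 18972967) (dlOf (nat_lit 1) (nat_lit 0x400400020008970702)))) (.nd (nat_lit 10) 
(.nd (nat_lit 20) (.lf (nat_lit 3489761703) (dlOf (nat_lit 1) (nat_lit 0x400200020008004e82))) 
(.lf (nat_lit 49383847) (dlOf (nat_lit 1) (nat_lit 0x400200020009464e82)))) 
(.lf (nat_lit 469865895) (dlOf (nat_lit 1) (nat_lit 0xa0028009901)))))) (.nd (nat_lit 8) 
(.nd (nat_lit 24) (.nd (nat_lit 9) (.nd (nat_lit 7) 
(.lf (nat_lit 471040039) (dlOf (nat_lit 1) (nat_lit 0x64004001a0008250902))) 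
(.lf (nat_lit 4563632295) (dlOf (nat_lit 1) (nat_lit 0x400280a2c01)))) (.nd (nat_lit 30) 
(.lf (nat_lit 4966287911) (dlOf (nat_lit 1) (nat_lit 0x18008000400200040008095183))) 
(.lf (nat_lit 1745062439) (dlOf (nat_lit 1) (nat_lit 0xc0018095181))))) (.nd (nat_lit 21) 
(.lf (nat_lit 29589543) (dlOf (nat_lit 1) (nat_lit 0x20018e20781))) (.nd (nat_lit 23) 
(.lf (nat_lit 52658215) (dlOf (nat_lit 14) (nat_lit 0x81d4a0042e31001965b0000b41800c3a940021d460032e310045675000532d800058140041d4a0012e310001582002c7528014b8c401f59d40002a060020e310001481000575280001c080083a940041c620000604002aea50013718800014100e4bb7c00c5d4a03bee3102426750093b2d80868000000040c006eedf0014752802238c4021d9d40068000000018500107188000080800238c400002040095d4a004ae31001d65b0000001801d00080090002012a0009560783))) 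
(.lf (nat_lit 27492391) (dlOf (nat_lit 1) (nat_lit 0x50008004000200040008cf0683)))))) 
(.nd (nat_lit 7) (.nd (nat_lit 9) 
(.lf (nat_lit 3557003559) (dlOf (nat_lit 1) (nat_lit 0x1a0028128081))) 
(.lf (nat_lit 54758183) (dlOf (nat_lit 1) (nat_lit 0x20019655c01)))) (.nd (nat_lit 10) 
(.nd (nat_lit 11) 
(.lf (nat_lit 2349040039) (dlOf (nat_lit 30) (nat_lit 0x33803c03ad204001401e01d6502005a00f0055006806cdc1003400a8000803000880100010007003b7c20030804001dbc04013002000edd02003401000769810043008003ac80801b004001d5e0400a0020000200e007570200670080007003c01d4a0803b0020002c00e007520200fa0080016003801d4608038402000ea202019401000a3007803a581001f804000b801c00e8004000a0100073101000d0080005803c003c01c00e310600b0010004d0070038c0100210040004401c00e2f0400c2010004f0070038b810008004001c44040318020000a00e0070702013e0110002003c04e400000cea06010a00f01090068033a41004f8034019c00400240200098c02001200f004b88100500148037004002fc01e004e00e0069006800000281b30008097000205280008090783)))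 
(.lf (nat_lit 2754840999) (dlOf (nat_lit 1) (nat_lit 0x80080004002000200080f4e83)))) 
(.lf (nat_lit 3489897895) (dlOf (nat_lit 12) (nat_lit 0x8a0fe80020594008c2bc003015c00010a90000c42804707f400182bc002a15c000180300850fe800e85780005e0801c03fa00b415f001709c0000b81804f07f401642be001615e003d09c000300000005a1402903fa00b215f003d09c0000181802607f40000a0401fc3fa007015f002c09c0000101804507f400a02be00241380000183009d0fe802d857c00f8270000020601321fd00350af00000010004000800b800203da000800cb83))))))) 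
(.nd (nat_lit 20) (.nd (nat_lit 30) (.nd (nat_lit 29) (.nd (nat_lit 17) (.nd (nat_lit 9) 
(.lf (nat_lit 11108391) (dlOf (nat_lit 2) (nat_lit 0x93c540044b888000cc1000300080014002000a0008660603))) 
(.lf (nat_lit 50954791) (dlOf (nat_lit 1) (nat_lit 0x718008019c002020600094d8803)))) 
(.nd (nat_lit 7) (.nd (nat_lit 22) 
(.lf (nat_lit 42696743) (dlOf (nat_lit 3) (nat_lit 0xc7188000940800338c40004204004000400080009270782))) 
(.lf (nat_lit 21725223) (dlOf (nat_lit 3) (nat_lit 0x105140024404008028a001200200020028a60c01)))) 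
(.lf (nat_lit 48990631) (dlOf (nat_lit 1) (nat_lit 0x20019464e81))))) (.nd (nat_lit 26) 
(.nd (nat_lit 28) (.lf (nat_lit 537493543) (dlOf (nat_lit 1) (nat_lit 0x400180a0901))) 
(.lf (nat_lit 805928999) (dlOf (nat_lit 1) (nat_lit 0x200081f0c81)))) (.nd (nat_lit 21) 
(.lf (nat_lit 3154739239) (dlOf (nat_lit 2) (nat_lit 0x1012000000080028008004000200080008310003))) 
(.lf (nat_lit 2754183207) (dlOf (nat_lit 1) (nat_lit 0x600280c0c81)))))) (.nd (nat_lit 26) 
(.nd (nat_lit 31) (.nd (nat_lit 9) 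
(.lf (nat_lit 1345028135) (dlOf (nat_lit 5) (nat_lit 0x18205000168100191028000b00800b081400042d200004040034205000000189d0780))) 
(.lf (nat_lit 5774082599) (dlOf (nat_lit 1) (nat_lit 0x800180f8801)))) (.nd (nat_lit 21) 
(.lf (nat_lit 3221848103) (dlOf (nat_lit 1) (nat_lit 0x50008002c002001400081a0c03))) 
(.lf (nat_lit 3492380711) (dlOf (nat_lit 4) (nat_lit 0x200f301038550000320800e43cc046c1540000c0200c00aa000054080050008000c002003e00080c0c03))))) 
(.nd (nat_lit 28) (.nd (nat_lit 27) 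
(.lf (nat_lit 1678344231) (dlOf (nat_lit 1) (nat_lit 0x200081f0c81))) 
(.lf (nat_lit 3960045607) (dlOf (nat_lit 1) (nat_lit 0x180080038002000a00081a0c83)))) 
(.nd (nat_lit 17) (.lf (nat_lit 1409908775) (dlOf (nat_lit 1) (nat_lit 0x400180a0901))) 
(.lf (nat_lit 3557523495) (dlOf (nat_lit 1) (nat_lit 0x400200020008240702))))))) (.nd (nat_lit 9) 
(.nd (nat_lit 22) (.nd (nat_lit 25) (.nd (nat_lit 27) 
(.lf (nat_lit 68780071) (dlOf (nat_lit 2) (nat_lit 0x820a000160200020008770781))) 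
(.lf (nat_lit 471433255) (dlOf (nat_lit 1) (nat_lit 0xf0008008c002003000082f0d83)))) 
(.lf (nat_lit 35225639) (dlOf (nat_lit 1) (nat_lit 0x1000400040009000782)))) (.nd (nat_lit 17) 
(.lf (nat_lit 22642727) (dlOf (nat_lit 1) (nat_lit 0x4c004016a0018b10802))) 
(.lf (nat_lit 22773799) (dlOf (nat_lit 1) (nat_lit 0x20028b20601))))) (.nd (nat_lit 21) 
(.nd (nat_lit 26) 
(.lf (nat_lit 3491332647) (dlOf (nat_lit 3) (nat_lit 0x2984680006f0200aa1ea00000018090e00))) 
(.lf (nat_lit 2753135143) (dlOf (nat_lit 3) (nat_lit 0x2984980006f0200aa1fc00000018090e00)))) 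
(.nd (nat_lit 7) (.lf (nat_lit 7969319) (dlOf (nat_lit 1) (nat_lit 0x40020044000851b282))) 
(.lf (nat_lit 8094375) (dlOf (nat_lit 1) (nat_lit 0x620018511d01)))))))) (.nd (nat_lit 17) 
(.nd (nat_lit 30) (.nd (nat_lit 21) (.nd (nat_lit 26) (.nd (nat_lit 19) (.nd (nat_lit 27) 
(.nd (nat_lit 11) (.nd (nat_lit 28) 
(.lf (nat_lit 537231399) (dlOf (nat_lit 4) (nat_lit 0x38000000550200500660002981001f0000000d4080180008006000200040008060583))) 
(.lf (nat_lit 4563763239) (dlOf (nat_lit 1) (nat_lit 0x3800800fc002007a00080d0283)))) 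
(.lf (nat_lit 8751143) (dlOf (nat_lit 1) (nat_lit 0x40028514701)))) (.nd (nat_lit 28) 
(.lf (nat_lit 671449127) (dlOf (nat_lit 2) (nat_lit 0x90000000820400d0004003a00081a0582))) 
(.lf (nat_lit 4697980967) (dlOf (nat_lit 1) (nat_lit 0x3800800fc002007a00080d0283))))) 
(.nd (nat_lit 20) (.lf (nat_lit 42827815) (dlOf (nat_lit 1) (nat_lit 0x20029280201))) 
(.nd (nat_lit 23) 
(.lf (nat_lit 22904871) (dlOf (nat_lit 3) (nat_lit 0xdda70001300802a00000006404006400400020018b40602))) 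
(.lf (nat_lit 14516263) (dlOf (nat_lit 1) (nat_lit 0x260008760881)))))) (.nd (nat_lit 27) 
(.nd (nat_lit 29) (.lf (nat_lit 6509920295) (dlOf (nat_lit 1) (nat_lit 0x20018160501))) 
(.lf (nat_lit 604340263) (dlOf (nat_lit 1) (nat_lit 0x80080030002000e0008180783)))) 
(.nd (nat_lit 31) (.lf (nat_lit 470122535) (dlOf (nat_lit 1) (nat_lit 0x400200020008050e02))) 
(.lf (nat_lit 2617606183) (dlOf (nat_lit 5) (nat_lit 0x8d0158001700800100ac000b60400080560005a02006a0310037015802580a8000a80c007c004002e0018100602)))))) 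
(.nd (nat_lit 20) (.nd (nat_lit 22) (.nd (nat_lit 24) 
(.lf (nat_lit 2753921063) (dlOf (nat_lit 1) (nat_lit 0x200280a0901))) 
(.lf (nat_lit 19234855) (dlOf (nat_lit 1) (nat_lit 0xac00403520018970002)))) (.nd (nat_lit 7) 
(.lf (nat_lit 6651943) (dlOf (nat_lit 1) (nat_lit 0x520018440b01))) 
(.lf (nat_lit 56986023) (dlOf (nat_lit 1) (nat_lit 0x160029794e81))))) (.nd (nat_lit 7) 
(.nd (nat_lit 8) 
(.lf (nat_lit 45451815) (dlOf (nat_lit 6) (nat_lit 0x1819d4000c00200bacea003065b00023010002ba8c017d9d40056cb60004583000676e802e33a800bd96c000890600becea001365b0002201000e8008004c002001a0009325183))) 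
(.lf (nat_lit 8227111) (dlOf (nat_lit 1) (nat_lit 0x8008000400200020008514b83)))) (.nd (nat_lit 8) 
(.lf (nat_lit 8229543) (dlOf (nat_lit 1) (nat_lit 0x400200020008518c82))) 
(.lf (nat_lit 8225191) (dlOf (nat_lit 1) (nat_lit 0x400200020008511002))))))) (.nd (nat_lit 26) 
(.nd (nat_lit 28) (.nd (nat_lit 27) (.nd (nat_lit 29) 
(.lf (nat_lit 3221585959) (dlOf (nat_lit 2) (nat_lit 0x1004e000601a800038100008008003800200100008150783))) 
(.lf (nat_lit 5905940519) (dlOf (nat_lit 1) (nat_lit 0x20018160501)))) 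
(.lf (nat_lit 3355803687) (dlOf (nat_lit 3) (nat_lit 0x2401a001b80b8000aa08001c068003202d00026828120600)))) 
(.nd (nat_lit 31) (.nd (nat_lit 27) 
(.lf (nat_lit 1342537767) (dlOf (nat_lit 1) (nat_lit 0x400200020008050e02))) 
(.lf (nat_lit 1476755495) (dlOf (nat_lit 1) (nat_lit 0x80080030002000e0008180783)))) 
(.nd (nat_lit 21) (.lf (nat_lit 4026892327) (dlOf (nat_lit 2) (nat_lit 0x1001a000100180c0c80))) 
(.lf (nat_lit 3492118567) (dlOf (nat_lit 1) (nat_lit 0x200280a0901)))))) (.nd (nat_lit 27) 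
(.nd (nat_lit 28) 
(.lf (nat_lit 3288694823) (dlOf (nat_lit 1) (nat_lit 0x80080160002006a00080c0c03))) 
(.lf (nat_lit 1409646631) (dlOf (nat_lit 4) (nat_lit 0x38000000550200500660002981001f0000000d4080180008006000200040008060583)))) 
(.nd (nat_lit 28) 
(.lf (nat_lit 3959783463) (dlOf (nat_lit 2) (nat_lit 0x1004e000601a80008c100008008003800200100008150783))) 
(.nd (nat_lit 31) 
(.lf (nat_lit 1543864359) (dlOf (nat_lit 2) (nat_lit 0x90000000820400d0004003a00081a0582))) 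
(.lf (nat_lit 3691348007) (dlOf (nat_lit 3) (nat_lit 0x1803a00ba402000c01d005c8818160000)))))))) 
(.nd (nat_lit 21) (.nd (nat_lit 22) (.nd (nat_lit 29) (.nd (nat_lit 19) (.nd (nat_lit 25) 
(.lf (nat_lit 6510051367) (dlOf (nat_lit 2) (nat_lit 0xf01300009c0800200080014002000c0008190e03))) 
(.lf (nat_lit 34045991) (dlOf (nat_lit 1) (nat_lit 0x800400060008fa0782)))) 
(.lf (nat_lit 42958887) (dlOf (nat_lit 1) (nat_lit 0x100029290781)))) (.nd (nat_lit 26) 
(.nd (nat_lit 28) 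
(.lf (nat_lit 5906071591) (dlOf (nat_lit 2) (nat_lit 0xf01280009c0800200080014002000c0008190e03))) 
(.lf (nat_lit 4027023399) (dlOf (nat_lit 1) (nat_lit 0x200281b0001)))) 
(.lf (nat_lit 738689063) (dlOf (nat_lit 1) (nat_lit 0x2180080084002006800080e0a83))))) 
(.nd (nat_lit 19) (.nd (nat_lit 23) (.nd (nat_lit 26) 
(.lf (nat_lit 3494346791) (dlOf (nat_lit 1) (nat_lit 0x4002000e0008200c82))) 
(.lf (nat_lit 2756149287) (dlOf (nat_lit 1) (nat_lit 0x4002000e0008200c82)))) (.nd (nat_lit 8) 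
(.lf (nat_lit 46628903) (dlOf (nat_lit 1) (nat_lit 0x1c0029380001))) 
(.lf (nat_lit 46631719) (dlOf (nat_lit 1) (nat_lit 0x18008001c002001a0009385c03))))) 
(.nd (nat_lit 24) (.lf (nat_lit 6258727) (dlOf (nat_lit 1) (nat_lit 0xe0008420001))) 
(.lf (nat_lit 23035943) (dlOf (nat_lit 2) (nat_lit 0x1000000130080008008001800200060008b40603)))))) 
(.nd (nat_lit 20) (.nd (nat_lit 23) (.nd (nat_lit 8) 
(.lf (nat_lit 3492249639) (dlOf (nat_lit 1) (nat_lit 0x2c00080108002002a00080b0c03))) 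
(.lf (nat_lit 19896103) (dlOf (nat_lit 1) (nat_lit 0x4002000200089da082)))) (.nd (nat_lit 22) 
(.lf (nat_lit 27754535) (dlOf (nat_lit 1) (nat_lit 0x3c0018d20701))) 
(.lf (nat_lit 15171623) (dlOf (nat_lit 1) (nat_lit 0x1800187c0681))))) (.nd (nat_lit 19) 
(.nd (nat_lit 25) (.lf (nat_lit 3637287) (dlOf (nat_lit 1) (nat_lit 0x320018210901))) 
(.lf (nat_lit 37191719) (dlOf (nat_lit 1) (nat_lit 0x400290b0201)))) (.nd (nat_lit 9) 
(.lf (nat_lit 1346338855) (dlOf (nat_lit 1) (nat_lit 0x1360008f00001))) 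
(.lf (nat_lit 1346341415) (dlOf (nat_lit 5) (nat_lit 0x982ce00020ce002900d80290068001181000942ce005601b005400d00022c18000881400982ce00040ce002900d80288068001121400082ce004401b002300d00022018000800800a800200140008f05183))))))))) 
(.nd (nat_lit 28) (.nd (nat_lit 8) (.nd (nat_lit 17) (.nd (nat_lit 7) (.nd (nat_lit 18) 
(.nd (nat_lit 9) (.nd (nat_lit 10) 
(.lf (nat_lit 537493607) (dlOf (nat_lit 1) (nat_lit 0x26000400dc00080a1402))) 
(.lf (nat_lit 9016423) (dlOf (nat_lit 1) (nat_lit 0x380080008002000c0008519403)))) 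
(.lf (nat_lit 60394087) (dlOf (nat_lit 1) (nat_lit 0x28008000c00200060009845383)))) 
(.nd (nat_lit 24) (.nd (nat_lit 26) 
(.lf (nat_lit 2457703) (dlOf (nat_lit 1) (nat_lit 0x22800800b8002032c0008161403))) 
(.lf (nat_lit 2753921127) (dlOf (nat_lit 1) (nat_lit 0x1a80080068002002200080a1403)))) 
(.lf (nat_lit 19234919) (dlOf (nat_lit 1) (nat_lit 0x800400020008970482))))) (.nd (nat_lit 27) 
(.nd (nat_lit 10) (.lf (nat_lit 6389991) (dlOf (nat_lit 1) (nat_lit 0x20028420601))) 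
(.lf (nat_lit 3825306855) (dlOf (nat_lit 1) (nat_lit 0x20028146501)))) (.nd (nat_lit 18) 
(.lf (nat_lit 3422650599) (dlOf (nat_lit 1) (nat_lit 0x920008014301))) 
(.lf (nat_lit 4496654567) (dlOf (nat_lit 1) (nat_lit 0x800400020008111d82)))))) (.nd (nat_lit 7) 
(.nd (nat_lit 18) (.nd (nat_lit 23) (.nd (nat_lit 9) 
(.lf (nat_lit 52658279) (dlOf (nat_lit 1) (nat_lit 0x400400020019561e82))) 
(.lf (nat_lit 5436050023) (dlOf (nat_lit 3) (nat_lit 0x26000000078100080088000000802b8008002c00200700008095383)))) 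
(.nd (nat_lit 19) 
(.lf (nat_lit 44269671) (dlOf (nat_lit 1) (nat_lit 0x1f800801d8002002e00092e0783))) 
(.lf (nat_lit 45842535) (dlOf (nat_lit 4) (nat_lit 0xd77c000ac040136bbc00135b6000192100010818019d77c008d17200188ae001e43f80004c200050008000800200020009360983))))) 
(.nd (nat_lit 12) (.nd (nat_lit 20) 
(.lf (nat_lit 48726119) (dlOf (nat_lit 3) (nat_lit 0x1fb9e000108080205cf400026040028004002c0009420982))) 
(.lf (nat_lit 3637351) (dlOf (nat_lit 1) (nat_lit 0x8008000400200020008211383)))) 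
(.lf (nat_lit 19894375) (dlOf (nat_lit 1) (nat_lit 0x14002000c00089d7d82))))) (.nd (nat_lit 10) 
(.nd (nat_lit 9) (.lf (nat_lit 8358119) (dlOf (nat_lit 1) (nat_lit 0x4002000e0008514b02))) 
(.lf (nat_lit 57117415) (dlOf (nat_lit 1) (nat_lit 0x20029795981)))) (.nd (nat_lit 11) 
(.nd (nat_lit 12) (.lf (nat_lit 4832068839) (dlOf (nat_lit 1) (nat_lit 0x8004000600080d2e02))) 
(.lf (nat_lit 8099047) (dlOf (nat_lit 1) (nat_lit 0x60028519501)))) 
(.lf (nat_lit 8101095) (dlOf (nat_lit 1) (nat_lit 0x2002851c601))))))) (.nd (nat_lit 26) 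
(.nd (nat_lit 17) (.nd (nat_lit 9) (.nd (nat_lit 7) (.nd (nat_lit 19) 
(.lf (nat_lit 3244391) (dlOf (nat_lit 2) (nat_lit 0xc00000006604004800200080008200702))) 
(.lf (nat_lit 25788775) (dlOf (nat_lit 1) (nat_lit 0x400200020008c10982)))) 
(.lf (nat_lit 21332455) (dlOf (nat_lit 5) (nat_lit 0x2ab000015560000a9800002f0300035600001aac0000b808001554000044020014a6d00012018a37300)))) 
(.nd (nat_lit 18) (.lf (nat_lit 1073842023) (dlOf (nat_lit 1) (nat_lit 0x1c00200060008004002))) 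
(.lf (nat_lit 8750951) (dlOf (nat_lit 1) (nat_lit 0x20028514001))))) (.nd (nat_lit 19) 
(.nd (nat_lit 18) (.nd (nat_lit 21) (.nd (nat_lit 22) 
(.lf (nat_lit 537100647) (dlOf (nat_lit 1) (nat_lit 0x40018015201))) 
(.lf (nat_lit 4424039) (dlOf (nat_lit 1) (nat_lit 0x50008001000200080008290983)))) 
(.lf (nat_lit 2326887) (dlOf (nat_lit 3) (nat_lit 0x53b950001981015e70b00006408007000800d4002001e0008150703)))) 
(.lf (nat_lit 25657703) (dlOf (nat_lit 2) (nat_lit 0x6bca0001f018c10980)))) (.nd (nat_lit 7) 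
(.nd (nat_lit 18) (.lf (nat_lit 9142631) (dlOf (nat_lit 1) (nat_lit 0x28004001a0008527382))) 
(.lf (nat_lit 2064743) (dlOf (nat_lit 1) (nat_lit 0x20018150701)))) (.nd (nat_lit 9) 
(.lf (nat_lit 8095207) (dlOf (nat_lit 1) (nat_lit 0x400200020008513602))) 
(.lf (nat_lit 55280615) (dlOf (nat_lit 1) (nat_lit 0x400296d2881))))))) (.nd (nat_lit 18) 
(.nd (nat_lit 9) (.nd (nat_lit 7) (.nd (nat_lit 17) 
(.lf (nat_lit 1677820263) (dlOf (nat_lit 1) (nat_lit 0xa0028090701))) 
(.lf (nat_lit 2755887463) (dlOf (nat_lit 9) (nat_lit 0x476079000198102ae03c8000c80811801e400062040a680f2000300200ce0a0000138100f803c8000940806801e4000420401180f20000002001200281b0701)))) 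
(.lf (nat_lit 4899178983) (dlOf (nat_lit 1) (nat_lit 0x180080004002000200080d4e83)))) 
(.nd (nat_lit 10) 
(.lf (nat_lit 4899179367) (dlOf (nat_lit 1) (nat_lit 0x200080004002000200080d5c03))) 
(.lf (nat_lit 201426791) (dlOf (nat_lit 1) (nat_lit 0x9000801e4002001e0008004003))))) 
(.nd (nat_lit 10) (.nd (nat_lit 20) 
(.lf (nat_lit 2752479591) (dlOf (nat_lit 2) (nat_lit 0xb448e00a5b0200020008015201))) 
(.lf (nat_lit 2755625319) (dlOf (nat_lit 2) (nat_lit 0x12015000148181b0700)))) 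
(.lf (nat_lit 604472679) (dlOf (nat_lit 1) (nat_lit 0x5400082d3481))))))) (.nd (nat_lit 17) 
(.nd (nat_lit 26) (.nd (nat_lit 29) (.nd (nat_lit 27) (.nd (nat_lit 7) (.nd (nat_lit 19) 
(.lf (nat_lit 4563763303) (dlOf (nat_lit 2) (nat_lit 0x4016800280780000008005c002005000080d0782))) 
(.lf (nat_lit 1346207847) (dlOf (nat_lit 11) (nat_lit 0x1350b0001785341dcc1b20ed20d800c904e00940234024c118020207d010303e00003848014858015a41b206ca0d8001f04e0000342006685801c301b200be09c00b9046801c01f4000181417001b20000b0201ec160073506c83960360028013801fe08d0016046006b01f403640f80000a100048160041906c81398360007c1380000908000209a000040100070b000678364002811a00006060086160000010100d60b00385036401a4138017808d008803e800000280518008000c00200080008e60983)))) 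
(.lf (nat_lit 1342280679) (dlOf (nat_lit 1) (nat_lit 0x4000400020008009202)))) (.nd (nat_lit 7) 
(.nd (nat_lit 8) 
(.lf (nat_lit 4697981031) (dlOf (nat_lit 2) (nat_lit 0x4016800280780000008005c002005000080d0782))) 
(.lf (nat_lit 4697719143) (dlOf (nat_lit 6) (nat_lit 0x1280680090032004800f8000181803800d001a406400dc01f0000283006601a003180c8018803e000040600c2034005f019002f007c000060c00a40680000002006e0018090f01)))) 
(.lf (nat_lit 5772248295) (dlOf (nat_lit 2) (nat_lit 0x280e40001c04001c00200020008092e02))))) 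
(.nd (nat_lit 30) (.nd (nat_lit 7) (.nd (nat_lit 8) 
(.lf (nat_lit 5234592359) (dlOf (nat_lit 1) (nat_lit 0xc0008055381))) 
(.lf (nat_lit 805405031) (dlOf (nat_lit 1) (nat_lit 0xa0028090701)))) 
(.lf (nat_lit 5100373223) (dlOf (nat_lit 2) (nat_lit 0x700700008a040008004000c0018052e02)))) 
(.nd (nat_lit 9) (.nd (nat_lit 11) 
(.lf (nat_lit 1881768039) (dlOf (nat_lit 2) (nat_lit 0x18070800981e40002608000400400040009000982))) 
(.lf (nat_lit 1879935079) (dlOf (nat_lit 1) (nat_lit 0x5a00183d4701)))) 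
(.lf (nat_lit 6308333159) (dlOf (nat_lit 1) (nat_lit 0x160018053901)))))) (.nd (nat_lit 8) 
(.nd (nat_lit 29) (.nd (nat_lit 7) (.nd (nat_lit 10) 
(.lf (nat_lit 335642727) (dlOf (nat_lit 1) (nat_lit 0x20028090101))) 
(.lf (nat_lit 469867623) (dlOf (nat_lit 4) (nat_lit 0x209d000110100080b080050274000400800302c2001409d000b04700006018014800800200020008000800c083)))) 
(.lf (nat_lit 2617349351) (dlOf (nat_lit 1) (nat_lit 0x18004000c00080a9502)))) (.nd (nat_lit 7) 
(.nd (nat_lit 9) (.lf (nat_lit 3154739303) (dlOf (nat_lit 1) (nat_lit 0x20008310481))) 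
(.lf (nat_lit 5167483495) (dlOf (nat_lit 1) (nat_lit 0xa0008055381)))) 
(.lf (nat_lit 5301698791) (dlOf (nat_lit 1) (nat_lit 0x20028031d81))))) (.nd (nat_lit 18) 
(.nd (nat_lit 29) 
(.lf (nat_lit 3691086183) (dlOf (nat_lit 1) (nat_lit 0xa0008000400200020008010983))) 
(.lf (nat_lit 2080473447) (dlOf (nat_lit 1) (nat_lit 0x8008000800200020008090f03)))) 
(.nd (nat_lit 10) (.nd (nat_lit 11) 
(.lf (nat_lit 3557130599) (dlOf (nat_lit 1) (nat_lit 0x60018130981))) 
(.lf (nat_lit 6376229223) (dlOf (nat_lit 1) (nat_lit 0x2c0008094e81)))) 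
(.lf (nat_lit 4630873447) (dlOf (nat_lit 1) (nat_lit 0x60028123481))))))) (.nd (nat_lit 26) 
(.nd (nat_lit 9) (.nd (nat_lit 18) (.nd (nat_lit 7) (.nd (nat_lit 11) 
(.lf (nat_lit 3087237479) (dlOf (nat_lit 3) (nat_lit 0x40100029400800400800149e04000c00400040008155202))) 
(.lf (nat_lit 3489892711) (dlOf (nat_lit 1) (nat_lit 0x400200020008004e82)))) 
(.lf (nat_lit 805536231) (dlOf (nat_lit 7) (nat_lit 0x50070001a40805d0000000800400240a200024020180051000201d000088100020144000400400fc0a20001d0200080008127301)))) 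
(.nd (nat_lit 19) (.nd (nat_lit 27) 
(.lf (nat_lit 2416410983) (dlOf (nat_lit 2) (nat_lit 0x2540200003302000200181b0701))) 
(.lf (nat_lit 2550628711) (dlOf (nat_lit 2) (nat_lit 0x2540200003302000200181b0701)))) 
(.lf (nat_lit 3493822823) (dlOf (nat_lit 2) (nat_lit 0x12015000148181b0700))))) (.nd (nat_lit 7) 
(.nd (nat_lit 8) (.nd (nat_lit 10) 
(.lf (nat_lit 5100505703) (dlOf (nat_lit 2) (nat_lit 0x40310002016800100a000040000003b08000600080d5381))) 
(.lf (nat_lit 5637375591) (dlOf (nat_lit 1) (nat_lit 0x1c004000200080d3902)))) 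
(.lf (nat_lit 3490159463) (dlOf (nat_lit 1) (nat_lit 0x20002800bc81)))) (.nd (nat_lit 18) 
(.lf (nat_lit 5234721767) (dlOf (nat_lit 1) (nat_lit 0x1000280d2881))) 
(.lf (nat_lit 5772379111) (dlOf (nat_lit 1) (nat_lit 0x400200020008092882)))))) (.nd (nat_lit 7) 
(.nd (nat_lit 18) (.nd (nat_lit 8) (.nd (nat_lit 9) 
(.lf (nat_lit 472612967) (dlOf (nat_lit 9) (nat_lit 0x340fa0001702023e160011906c808b036004b8138027408d012e03e808f81f00001c1c00240f80000d0201ae08d00c903e80003010009858000341b200140d8002704e001a02340060118005007d001b03e00002840007823400900fa001607c000048300050b000000c080540580026c29a01460d9000106c00628270034c11a018407d00b403e00000040018800800ec002006c00089c0983))) 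
(.lf (nat_lit 6241356391) (dlOf (nat_lit 1) (nat_lit 0x4002000200080d5382)))) 
(.lf (nat_lit 1409515879) (dlOf (nat_lit 1) (nat_lit 0x8008000400200020008015203)))) 
(.nd (nat_lit 19) 
(.lf (nat_lit 1009221735) (dlOf (nat_lit 1) (nat_lit 0x80080004002000200090a0983))) 
(.lf (nat_lit 473923687) (dlOf (nat_lit 9) (nat_lit 0x42c2c002160d900fd04e007f02340001c1000842c001540d900d10468000341805d0364000180403881b20000b02026c160013306c8093827004d411a0000a08019e0d9004004e00320234000120c02f82c000c608d000030200cd06c8000000802000080004002000a0008fc0983))))) 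
(.nd (nat_lit 8) (.nd (nat_lit 10) (.nd (nat_lit 18) 
(.lf (nat_lit 1008959719) (dlOf (nat_lit 1) (nat_lit 0x400400020019000a82))) 
(.lf (nat_lit 471826663) (dlOf (nat_lit 1) (nat_lit 0x28008001400200060008520683)))) 
(.lf (nat_lit 5301830887) (dlOf (nat_lit 1) (nat_lit 0x10008001000200140008092e03)))) 
(.nd (nat_lit 27) (.lf (nat_lit 1409516007) (dlOf (nat_lit 2) (nat_lit 0x7800000011018017300))) 
(.lf (nat_lit 1543733735) (dlOf (nat_lit 1) (nat_lit 0xa80080068002005e0008157303)))))))))) 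
(.nd (nat_lit 17) (.nd (nat_lit 18) (.nd (nat_lit 6) (.nd (nat_lit 27) (.nd (nat_lit 21) 
(.nd (nat_lit 19) (.nd (nat_lit 7) (.nd (nat_lit 29) (.nd (nat_lit 22) (.nd (nat_lit 26) 
(.lf (nat_lit 3221332007) (dlOf (nat_lit 4) (nat_lit 0x4070007bd0200ae026001f701009b013000f6c08004000800a800200160008090003))) 
(.lf (nat_lit 6509666343) (dlOf (nat_lit 2) (nat_lit 0x91800000e2a0400c8002002a00080b0002)))) 
(.lf (nat_lit 21078055) (dlOf (nat_lit 2) (nat_lit 0x40778000fc080008008000c00200020008a00903)))) 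
(.nd (nat_lit 28) 
(.lf (nat_lit 2684461095) (dlOf (nat_lit 2) (nat_lit 0x5806a000000200260018020901))) 
(.lf (nat_lit 805412903) (dlOf (nat_lit 2) (nat_lit 0x3602600386018090000))))) (.nd (nat_lit 10) 
(.nd (nat_lit 12) (.lf (nat_lit 5637254055) (dlOf (nat_lit 1) (nat_lit 0x20018055d01))) 
(.lf (nat_lit 113575) (dlOf (nat_lit 4) (nat_lit 0x39a0800149d200124d80011483000a26c0008740800213a400109b00021504001c001800bd01)))) 
(.lf (nat_lit 108455) (dlOf (nat_lit 1) (nat_lit 0x260018004301))))) (.nd (nat_lit 24) 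
(.nd (nat_lit 20) (.lf (nat_lit 3221856295) (dlOf (nat_lit 1) (nat_lit 0x48002002800081a0c02))) 
(.lf (nat_lit 43622439) (dlOf (nat_lit 1) (nat_lit 0x1000292a0001)))) (.nd (nat_lit 22) 
(.lf (nat_lit 17408039) (dlOf (nat_lit 1) (nat_lit 0x2000188e0001))) 
(.lf (nat_lit 21602343) (dlOf (nat_lit 1) (nat_lit 0x8008000800200020008a50a83)))))) 
(.nd (nat_lit 9) (.nd (nat_lit 8) (.nd (nat_lit 10) 
(.lf (nat_lit 11116583) (dlOf (nat_lit 2) (nat_lit 0x3886900019818660600))) 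
(.lf (nat_lit 20032551) (dlOf (nat_lit 1) (nat_lit 0x4004001c00089d6082)))) (.nd (nat_lit 7) 
(.lf (nat_lit 6398247) (dlOf (nat_lit 1) (nat_lit 0x560018420701))) 
(.lf (nat_lit 49392039) (dlOf (nat_lit 1) (nat_lit 0x400200020009464e82))))) (.nd (nat_lit 10) 
(.nd (nat_lit 12) (.lf (nat_lit 53586471) (dlOf (nat_lit 1) (nat_lit 0x30004001000195f5182))) 
(.lf (nat_lit 7977511) (dlOf (nat_lit 1) (nat_lit 0x40020002000851b282)))) 
(.lf (nat_lit 20035111) (dlOf (nat_lit 1) (nat_lit 0x200189d9c01)))))) (.nd (nat_lit 26) 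
(.nd (nat_lit 7) (.nd (nat_lit 8) (.nd (nat_lit 9) 
(.lf (nat_lit 6039904295) (dlOf (nat_lit 3) (nat_lit 0x22008c000c0400005c040078023007b010000168100060008000400200100008020903))) 
(.lf (nat_lit 5774090791) (dlOf (nat_lit 1) (nat_lit 0x200180f8801)))) 
(.lf (nat_lit 671197479) (dlOf (nat_lit 1) (nat_lit 0x40018144b81)))) (.nd (nat_lit 8) 
(.lf (nat_lit 2013372583) (dlOf (nat_lit 2) (nat_lit 0x11006800070080018008008000200040008031483))) 
(.lf (nat_lit 939632551) (dlOf (nat_lit 1) (nat_lit 0xd4004000c0018144302))))) (.nd (nat_lit 19) 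
(.nd (nat_lit 20) 
(.lf (nat_lit 6643884071) (dlOf (nat_lit 3) (nat_lit 0x40280005c02000a0140002d018020900))) 
(.nd (nat_lit 21) (.lf (nat_lit 470917159) (dlOf (nat_lit 1) (nat_lit 0x4002000200081f0782))) 
(.lf (nat_lit 473014311) (dlOf (nat_lit 1) (nat_lit 0x40028bb0001))))) (.nd (nat_lit 22) 
(.nd (nat_lit 29) (.lf (nat_lit 201957415) (dlOf (nat_lit 1) (nat_lit 0x2600080c0c81))) 
(.lf (nat_lit 3960053799) (dlOf (nat_lit 2) (nat_lit 0x4c01e0000740800d0008000c002002a00081a0c83)))) 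
(.lf (nat_lit 474587175) (dlOf (nat_lit 1) (nat_lit 0x4004000600091b0782))))))) (.nd (nat_lit 29) 
(.nd (nat_lit 30) (.nd (nat_lit 7) (.nd (nat_lit 9) (.nd (nat_lit 20) 
(.lf (nat_lit 6509666663) (dlOf (nat_lit 2) (nat_lit 0x58000000000180b0700))) 
(.lf (nat_lit 3252583) (dlOf (nat_lit 2) (nat_lit 0x12c0000000cc080008008001000200140008200703)))) 
(.nd (nat_lit 10) (.lf (nat_lit 134331239) (dlOf (nat_lit 1) (nat_lit 0x400040008000800bc82))) 
(.lf (nat_lit 201434983) (dlOf (nat_lit 1) (nat_lit 0x400400600018004002))))) (.nd (nat_lit 10) 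
(.lf (nat_lit 7975143) (dlOf (nat_lit 1) (nat_lit 0x20018518081))) 
(.lf (nat_lit 8496359) (dlOf (nat_lit 1) (nat_lit 0x88008000400200020008512e03))))) 
(.nd (nat_lit 28) (.nd (nat_lit 7) 
(.lf (nat_lit 3221332327) (dlOf (nat_lit 2) (nat_lit 0x4400000003818090700))) (.nd (nat_lit 8) 
(.lf (nat_lit 5368815847) (dlOf (nat_lit 1) (nat_lit 0x20028031d81))) 
(.lf (nat_lit 3288441319) (dlOf (nat_lit 1) (nat_lit 0x9000400300008017302))))) (.nd (nat_lit 8) 
(.lf (nat_lit 1344905319) (dlOf (nat_lit 1) (nat_lit 0xe0018991981))) (.nd (nat_lit 26) 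
(.lf (nat_lit 1476501863) (dlOf (nat_lit 1) (nat_lit 0x40008010981))) 
(.lf (nat_lit 3691094375) (dlOf (nat_lit 1) (nat_lit 0x400200020008010982))))))) (.nd (nat_lit 8) 
(.nd (nat_lit 32) (.nd (nat_lit 7) 
(.lf (nat_lit 1009360999) (dlOf (nat_lit 1) (nat_lit 0xc0008002c00200200009120783))) 
(.nd (nat_lit 11) (.lf (nat_lit 2013372647) (dlOf (nat_lit 1) (nat_lit 0x40004001c0008031d82))) 
(.lf (nat_lit 536979687) (dlOf (nat_lit 1) (nat_lit 0x2e0028004b01))))) (.nd (nat_lit 7) 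
(.lf (nat_lit 5234600551) (dlOf (nat_lit 2) (nat_lit 0x12015800000080008008004400200060008055383))) 
(.nd (nat_lit 10) (.lf (nat_lit 5033271527) (dlOf (nat_lit 1) (nat_lit 0x800400020008031d82))) 
(.lf (nat_lit 5100381415) (dlOf (nat_lit 2) (nat_lit 0x88038002c00e000450400540018052e01)))))) 
(.nd (nat_lit 26) (.nd (nat_lit 10) (.nd (nat_lit 28) 
(.lf (nat_lit 5905686887) (dlOf (nat_lit 2) (nat_lit 0x58000000000180b0700))) 
(.lf (nat_lit 805413223) (dlOf (nat_lit 2) (nat_lit 0x3b028801f80e80007008004800400260008090702)))) 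
(.lf (nat_lit 2818680167) (dlOf (nat_lit 3) (nat_lit 0x40058002002a001400e0008006000980180028008000c0000001f0700140030000e8080020008004c002000200080d3483)))) 
(.nd (nat_lit 27) 
(.lf (nat_lit 1677828455) (dlOf (nat_lit 2) (nat_lit 0x3b028801f80e80007408004800400260008090702))) 
(.lf (nat_lit 3959529831) (dlOf (nat_lit 2) (nat_lit 0x4400000003818090700)))))))) 
(.nd (nat_lit 28) (.nd (nat_lit 19) (.nd (nat_lit 20) (.nd (nat_lit 6) (.nd (nat_lit 27) 
(.nd (nat_lit 21) 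
(.lf (nat_lit 1678090279) (dlOf (nat_lit 4) (nat_lit 0x600260000d02000405300002810022029800010080098008005400200100008180783))) 
(.lf (nat_lit 6660135) (dlOf (nat_lit 1) (nat_lit 0x1e0018440b01)))) (.nd (nat_lit 29) 
(.lf (nat_lit 3355811879) (dlOf (nat_lit 20) (nat_lit 0x1a806805b202e0015010014f8030000aa10070405c037800c0002a02017901700178080057c018000530600d0020000288102d70100001400805780b802ac0180004f04002e0340241017013b00b40b3804e02ac023026e011015f8080038403e022c01c02a900600fe80280009a2c0c280400004c020556020000258102e101000012808020008000092040b2004000048020002020000230100050100001100805d80b8003805001c002303b1010002b8074004c016000400c05a602000010060000fc100d400800007c040290042002e01e0001d020008010000060080178008070c00200aa0008120603))) 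
(.lf (nat_lit 671457319) (dlOf (nat_lit 17) (nat_lit 0x60120034001800140000005a06007e0240002b81001701000012008007000c0008c0400bc052007a02600c70118045808005f403603d0006016400180870000000822000a805800080290016011807b006c050800c01a600300810000001003805e001801140060003f04018e006003d0018000f410033001800b00060003b04009e01b00bc0030022800c0006a0c005c00c00700030001802003f0120000a8080028090000520401300480000902007e024000028100050120000000801d80080018002002200081a0583))))) 
(.nd (nat_lit 7) (.lf (nat_lit 4295338087) (dlOf (nat_lit 1) (nat_lit 0x6c0018114701))) 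
(.lf (nat_lit 21340647) (dlOf (nat_lit 5) (nat_lit 0xf67d00010278001781000159f4000809e0005c04001e04f00021810004000000088080068008000c002000c0008a37303))))) 
(.nd (nat_lit 6) (.nd (nat_lit 7) (.nd (nat_lit 23) 
(.lf (nat_lit 7708711) (dlOf (nat_lit 1) (nat_lit 0x5200184d0b01))) 
(.lf (nat_lit 32874535) (dlOf (nat_lit 1) (nat_lit 0x60028f30201)))) 
(.lf (nat_lit 20296615) (dlOf (nat_lit 1) (nat_lit 0x6f8002001c00089d9102)))) (.nd (nat_lit 21) 
(.lf (nat_lit 60140135) (dlOf (nat_lit 1) (nat_lit 0x260009845381))) 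
(.lf (nat_lit 20294247) (dlOf (nat_lit 2) (nat_lit 0xf53400076040010004000200089d5382)))))) 
(.nd (nat_lit 20) (.nd (nat_lit 11) (.nd (nat_lit 23) (.nd (nat_lit 24) 
(.lf (nat_lit 892967) (dlOf (nat_lit 1) (nat_lit 0x400400020008030a82))) 
(.lf (nat_lit 17670183) (dlOf (nat_lit 1) (nat_lit 0x4002000200088f0d82)))) 
(.lf (nat_lit 59613223) (dlOf (nat_lit 2) (nat_lit 0x5233f001c19f00154cce000e66500592ca8034139801689a8000040e00020019810781)))) 
(.nd (nat_lit 7) (.lf (nat_lit 36547111) (dlOf (nat_lit 1) (nat_lit 0x40029075181))) 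
(.lf (nat_lit 2754461095) (dlOf (nat_lit 2) (nat_lit 0x620a0000b8180fcb80))))) (.nd (nat_lit 7) 
(.nd (nat_lit 22) (.lf (nat_lit 27107367) (dlOf (nat_lit 1) (nat_lit 0x24002003c0008ca0682))) 
(.lf (nat_lit 22913063) (dlOf (nat_lit 18) (nat_lit 0xccdf400666a5003333480009a0c002fb060237b4e011f0000001301802e80000009004025f6c80119b4e008cd9b8001001801c6f100006e0403ebb08027dcb60003de58099ef2804bf75a0335b3b0132d9c0097b72404893a602769cb00a10000000c85805e8000000620401ec0000003002000fbcb00016010038de2000580000003008018b78800014020197bc4000028100cbde200001008065ef100000604032f78800002020071bc4000008100cede2004ceef801c37780127b48000e000000000280030008003c00202280008b40603)))) 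
(.nd (nat_lit 8) (.lf (nat_lit 8237735) (dlOf (nat_lit 1) (nat_lit 0x400200020008518c82))) 
(.lf (nat_lit 8233383) (dlOf (nat_lit 1) (nat_lit 0x1400200060008511002))))))) (.nd (nat_lit 30) 
(.nd (nat_lit 8) (.nd (nat_lit 26) (.nd (nat_lit 27) (.nd (nat_lit 29) 
(.lf (nat_lit 4563771431) (dlOf (nat_lit 1) (nat_lit 0x400080d0281))) 
(.lf (nat_lit 805675047) (dlOf (nat_lit 4) (nat_lit 0x60026000220200040530000d010022029800064080098008005400200100008180783)))) 
(.lf (nat_lit 4697989159) (dlOf (nat_lit 1) (nat_lit 0x400080d0281)))) (.nd (nat_lit 31) 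
(.lf (nat_lit 470130727) (dlOf (nat_lit 1) (nat_lit 0x20008050e01))) 
(.lf (nat_lit 2617614375) (dlOf (nat_lit 4) (nat_lit 0x9e03100640158001701001200c40084056004e02a0002a03000401580011c0801280080008002003a0008100603))))) 
(.nd (nat_lit 6) (.lf (nat_lit 473803175) (dlOf (nat_lit 1) (nat_lit 0x1400400080008fa4e82))) 
(.nd (nat_lit 7) 
(.lf (nat_lit 1007526247) (dlOf (nat_lit 1) (nat_lit 0x8008000400200020008490703))) 
(.lf (nat_lit 2483402727) (dlOf (nat_lit 1) (nat_lit 0x200180fa601)))))) (.nd (nat_lit 29) 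
(.nd (nat_lit 6) (.nd (nat_lit 19) (.nd (nat_lit 26) 
(.lf (nat_lit 1342545959) (dlOf (nat_lit 1) (nat_lit 0x20008050e01))) 
(.lf (nat_lit 1543872551) (dlOf (nat_lit 17) (nat_lit 0x60120034001800140000005a06007e0240002b81001701000012008007000c0008c0400bc052007a02600c70118045808005f403203d0006016400180870000000822000a805800080290016011807b0064050800c01a600300810000001003805e001801140060003f04018e006003d0018000f410033001800b00060003b04009e01900bc0030022800c0006a0c005c00c00700030001802003f0120000a8080028090000520401300480000902007e024000028100050120000000801d80080018002002200081a0583)))) 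
(.lf (nat_lit 1346215975) (dlOf (nat_lit 1) (nat_lit 0x18008000c00200080008e70783)))) 
(.lf (nat_lit 1346740327) (dlOf (nat_lit 1) (nat_lit 0x40029000981)))) (.nd (nat_lit 6) 
(.nd (nat_lit 21) 
(.lf (nat_lit 4026900519) (dlOf (nat_lit 2) (nat_lit 0x801a00130020000801000080080004002000200080c0c83))) 
(.lf (nat_lit 1881514023) (dlOf (nat_lit 1) (nat_lit 0x280080028002000a0008f40203)))) 
(.lf (nat_lit 1879941479) (dlOf (nat_lit 1) (nat_lit 0x8008000400200020008490703)))))))) 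
(.nd (nat_lit 6) (.nd (nat_lit 18) (.nd (nat_lit 28) (.nd (nat_lit 19) (.nd (nat_lit 21) 
(.nd (nat_lit 9) (.nd (nat_lit 26) (.nd (nat_lit 27) 
(.lf (nat_lit 1073979431) (dlOf (nat_lit 2) (nat_lit 0x280050002a818060580))) 
(.lf (nat_lit 3355680807) (dlOf (nat_lit 3) (nat_lit 0x5b0170001480805c80b8000960400e4004003a00180c0902)))) 
(.lf (nat_lit 4496531495) (dlOf (nat_lit 1) (nat_lit 0xe00280d0481)))) (.nd (nat_lit 7) 
(.lf (nat_lit 3288572455) (dlOf (nat_lit 2) (nat_lit 0x13d0190000000800e0008001400200c60008090e03))) 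
(.lf (nat_lit 2818814631) (dlOf (nat_lit 1) (nat_lit 0x40000401120008128c82))))) (.nd (nat_lit 7) 
(.nd (nat_lit 8) (.nd (nat_lit 20) 
(.lf (nat_lit 52666407) (dlOf (nat_lit 2) (nat_lit 0x7000000010080020008000400200020009560783))) 
(.lf (nat_lit 45326375) (dlOf (nat_lit 1) (nat_lit 0x80019320001)))) 
(.lf (nat_lit 28549415) (dlOf (nat_lit 1) (nat_lit 0x18008000400200020008da0703)))) 
(.lf (nat_lit 62103719) (dlOf (nat_lit 1) (nat_lit 0x7000200200009951382))))) (.nd (nat_lit 20) 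
(.nd (nat_lit 22) (.nd (nat_lit 23) 
(.lf (nat_lit 2819334183) (dlOf (nat_lit 1) (nat_lit 0x58008003800200100008240703))) 
(.lf (nat_lit 42704935) (dlOf (nat_lit 1) (nat_lit 0x100029270781)))) 
(.lf (nat_lit 21733415) (dlOf (nat_lit 4) (nat_lit 0xe85080026204006c28a0012202002a145000309c800983a4002400c00dc004002e0008a60c02)))) 
(.nd (nat_lit 7) (.nd (nat_lit 10) 
(.lf (nat_lit 22781991) (dlOf (nat_lit 2) (nat_lit 0xb4880000470200080018b20601))) 
(.lf (nat_lit 50045991) (dlOf (nat_lit 1) (nat_lit 0x1000294c2881)))) 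
(.lf (nat_lit 8102055) (dlOf (nat_lit 1) (nat_lit 0xc004000a0008510582)))))) (.nd (nat_lit 26) 
(.nd (nat_lit 9) (.nd (nat_lit 19) 
(.lf (nat_lit 1880334375) (dlOf (nat_lit 1) (nat_lit 0x100018860001))) 
(.lf (nat_lit 1345036327) (dlOf (nat_lit 11) (nat_lit 0x440a00081a900060b400028514001019e004c01c00016860012102800b06a400602d0000216600160a2800b033c00e00380002c0e00e6169003c06380358074000540c003803a0002902000c01d000038100040b4801100740000c0807402d2026016802bf0a2803f033c0c7003a008001c000020600830b4804b851402f003a0000306001e01d00001010004102800406a400202d0000e1450007067800e807000000180154004024600089d0782)))) 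
(.nd (nat_lit 10) (.nd (nat_lit 11) 
(.lf (nat_lit 4026769959) (dlOf (nat_lit 2) (nat_lit 0x13d0190000000800e0008001400200c60008090e03))) 
(.lf (nat_lit 268675623) (dlOf (nat_lit 1) (nat_lit 0x200280e5181)))) 
(.lf (nat_lit 5234730535) (dlOf (nat_lit 1) (nat_lit 0x200180d3701))))) (.nd (nat_lit 30) 
(.nd (nat_lit 7) (.nd (nat_lit 19) 
(.lf (nat_lit 2483265575) (dlOf (nat_lit 1) (nat_lit 0xc00400020008090002))) 
(.lf (nat_lit 472621095) (dlOf (nat_lit 3) (nat_lit 0x2e0dc00200170000b4100050370008805c0002c04000400189d0781)))) 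
(.lf (nat_lit 2483265959) (dlOf (nat_lit 1) (nat_lit 0x1000800d800200080008090783)))) 
(.nd (nat_lit 9) (.nd (nat_lit 19) 
(.lf (nat_lit 1946394663) (dlOf (nat_lit 2) (nat_lit 0x280050002a818060580))) 
(.lf (nat_lit 3557531687) (dlOf (nat_lit 1) (nat_lit 0x58008003800200100008240703)))) 
(.lf (nat_lit 1543741991) (dlOf (nat_lit 1) (nat_lit 0x40018157f01))))))) (.nd (nat_lit 19) 
(.nd (nat_lit 21) (.nd (nat_lit 8) (.nd (nat_lit 20) 
(.lf (nat_lit 34054183) (dlOf (nat_lit 1) (nat_lit 0x20028fa0781))) (.nd (nat_lit 25) 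
(.lf (nat_lit 2753011751) (dlOf (nat_lit 1) (nat_lit 0xc00200160008070782))) 
(.lf (nat_lit 35102759) (dlOf (nat_lit 1) (nat_lit 0x20008fd0201))))) (.nd (nat_lit 7) 
(.lf (nat_lit 872915239) (dlOf (nat_lit 1) (nat_lit 0x400200020008108102))) 
(.lf (nat_lit 3221725607) (dlOf (nat_lit 1) (nat_lit 0xd40008170781))))) (.nd (nat_lit 24) 
(.nd (nat_lit 10) (.lf (nat_lit 69705767) (dlOf (nat_lit 1) (nat_lit 0x60028bc0781))) 
(.lf (nat_lit 1344775207) (dlOf (nat_lit 1) (nat_lit 0x1c00400040008982882)))) (.nd (nat_lit 9) 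
(.lf (nat_lit 31957031) (dlOf (nat_lit 1) (nat_lit 0xc00400080008eb0202))) 
(.lf (nat_lit 53979687) (dlOf (nat_lit 1) (nat_lit 0x300080018002000800095f5183)))))) 
(.nd (nat_lit 21) (.nd (nat_lit 20) (.nd (nat_lit 24) 
(.lf (nat_lit 1007656999) (dlOf (nat_lit 1) (nat_lit 0xc00086b0001))) 
(.lf (nat_lit 17801255) (dlOf (nat_lit 1) (nat_lit 0x200188f0d81)))) (.nd (nat_lit 22) 
(.lf (nat_lit 18849831) (dlOf (nat_lit 1) (nat_lit 0x120018970001))) 
(.lf (nat_lit 23044135) (dlOf (nat_lit 1) (nat_lit 0x40018b50601))))) (.nd (nat_lit 8) 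
(.nd (nat_lit 11) (.lf (nat_lit 28287015) (dlOf (nat_lit 1) (nat_lit 0x20028d80781))) 
(.lf (nat_lit 3492788263) (dlOf (nat_lit 1) (nat_lit 0x1a00180fa601)))) 
(.lf (nat_lit 19904295) (dlOf (nat_lit 1) (nat_lit 0x80080004002000200089da083))))))) 
(.nd (nat_lit 8) (.nd (nat_lit 7) (.nd (nat_lit 18) (.nd (nat_lit 9) (.nd (nat_lit 21) 
(.lf (nat_lit 30122087) (dlOf (nat_lit 1) (nat_lit 0x400400020008e30482))) 
(.lf (nat_lit 1009492071) (dlOf (nat_lit 2) (nat_lit 0x18070800981d000026080004004000400091a0982)))) 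
(.nd (nat_lit 10) (.nd (nat_lit 29) 
(.lf (nat_lit 1208199783) (dlOf (nat_lit 1) (nat_lit 0x220028095381))) 
(.lf (nat_lit 1745070695) (dlOf (nat_lit 1) (nat_lit 0x460028095381)))) 
(.lf (nat_lit 1610851943) (dlOf (nat_lit 2) (nat_lit 0x401680008e04003000400020018093902))))) 
(.nd (nat_lit 19) (.nd (nat_lit 21) (.nd (nat_lit 23) 
(.lf (nat_lit 2550636647) (dlOf (nat_lit 1) (nat_lit 0x10c00081c1401))) 
(.lf (nat_lit 42442855) (dlOf (nat_lit 1) (nat_lit 0x200019251981)))) 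
(.lf (nat_lit 48734311) (dlOf (nat_lit 3) (nat_lit 0x4ae7a0005602007573d0029b5d00004c100048008008400200280009420983)))) 
(.nd (nat_lit 21) (.lf (nat_lit 52404327) (dlOf (nat_lit 1) (nat_lit 0x400200040009530982))) 
(.nd (nat_lit 23) (.lf (nat_lit 473931879) (dlOf (nat_lit 1) (nat_lit 0x1a400400aa0008fc0982))) 
(.lf (nat_lit 12558439) (dlOf (nat_lit 1) (nat_lit 0x400186d1401))))))) (.nd (nat_lit 28) 
(.nd (nat_lit 10) (.nd (nat_lit 18) 
(.lf (nat_lit 9674983) (dlOf (nat_lit 1) (nat_lit 0x5a0008571b81))) 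
(.lf (nat_lit 3758596327) (dlOf (nat_lit 1) (nat_lit 0x1200282c0601)))) (.nd (nat_lit 9) 
(.lf (nat_lit 67878119) (dlOf (nat_lit 1) (nat_lit 0x3800800100020004000833c603))) 
(.lf (nat_lit 19902183) (dlOf (nat_lit 1) (nat_lit 0x1600189d7401))))) (.nd (nat_lit 26) 
(.nd (nat_lit 10) (.nd (nat_lit 20) 
(.lf (nat_lit 2013503719) (dlOf (nat_lit 1) (nat_lit 0xd0008009c002004000080c1b83))) 
(.lf (nat_lit 3490947303) (dlOf (nat_lit 1) (nat_lit 0x20008046b81)))) 
(.lf (nat_lit 6174254311) (dlOf (nat_lit 2) (nat_lit 0x540420004502003a00180d2e01)))) 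
(.nd (nat_lit 18) 
(.lf (nat_lit 1008967911) (dlOf (nat_lit 2) (nat_lit 0x18398002d6040018004000e0009000a82))) 
(.lf (nat_lit 3020398823) (dlOf (nat_lit 1) (nat_lit 0x1200282c0601))))))) (.nd (nat_lit 18) 
(.nd (nat_lit 7) (.nd (nat_lit 29) (.nd (nat_lit 21) (.nd (nat_lit 22) 
(.lf (nat_lit 1409524071) (dlOf (nat_lit 1) (nat_lit 0x8008000400200020008015203))) 
(.lf (nat_lit 3494093159) (dlOf (nat_lit 4) (nat_lit 0xa41098000a408065084c0004e0400144040002502002600181b0701)))) 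
(.nd (nat_lit 9) (.lf (nat_lit 2335079) (dlOf (nat_lit 1) (nat_lit 0x400200020008150702))) 
(.lf (nat_lit 19639143) (dlOf (nat_lit 1) (nat_lit 0x4004000200189d5c02))))) (.nd (nat_lit 30) 
(.nd (nat_lit 22) 
(.lf (nat_lit 671326567) (dlOf (nat_lit 2) (nat_lit 0xa00700148a04006000400060018155202))) 
(.lf (nat_lit 2755895655) (dlOf (nat_lit 2) (nat_lit 0xf401c000148181b0700)))) (.nd (nat_lit 28) 
(.lf (nat_lit 3758334311) (dlOf (nat_lit 1) (nat_lit 0x20018130981))) 
(.lf (nat_lit 6174253415) (dlOf (nat_lit 1) (nat_lit 0x200280d0f01)))))) (.nd (nat_lit 9) 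
(.nd (nat_lit 20) (.nd (nat_lit 26) 
(.lf (nat_lit 805544423) (dlOf (nat_lit 9) (nat_lit 0x870210025808803a801c011000c00370020001a42801b010800e004401be00e0089006002480100068000000660c00ea04200550110061803800d4008000440800320420025011006f003800dc008000400200010000001003000301080004804005c0a2001203a000110200160288000800801101440028096002803a000800d0000742001d8008001400200300008127303))) 
(.lf (nat_lit 1409524199) (dlOf (nat_lit 4) (nat_lit 0x1014c0005e0400300be0002002001a05f0002026000074100038008000800200120008017303)))) 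
(.lf (nat_lit 9675239) (dlOf (nat_lit 1) (nat_lit 0x400200040008577d02)))) (.nd (nat_lit 10) 
(.lf (nat_lit 50045927) (dlOf (nat_lit 1) (nat_lit 0x200094c2881))) 
(.lf (nat_lit 8632295) (dlOf (nat_lit 1) (nat_lit 0x1c004001c000851a602)))))) (.nd (nat_lit 28) 
(.nd (nat_lit 19) (.nd (nat_lit 10) 
(.lf (nat_lit 1678221671) (dlOf (nat_lit 2) (nat_lit 0x6c0840004102000a00281a0701))) 
(.lf (nat_lit 604480871) (dlOf (nat_lit 3) (nat_lit 0x580f40004068001c02a000e01000048030001001200180000001f8700020000000000800100080034002000e00082d3483)))) 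
(.nd (nat_lit 20) 
(.lf (nat_lit 42967399) (dlOf (nat_lit 2) (nat_lit 0x4a95c0002e02002600292a0f01))) 
(.nd (nat_lit 21) 
(.lf (nat_lit 2072935) (dlOf (nat_lit 2) (nat_lit 0x12c0000000cc080008008001000200140008150703))) 
(.lf (nat_lit 2755633511) (dlOf (nat_lit 3) (nat_lit 0x6c0cc0002902018006b000138181b0700)))))) 
(.nd (nat_lit 7) (.nd (nat_lit 19) 
(.lf (nat_lit 805806439) (dlOf (nat_lit 2) (nat_lit 0x6c0840004102000a00281a0701))) 
(.lf (nat_lit 3493831015) (dlOf (nat_lit 3) (nat_lit 0x6c0cc0002902018006b000138181b0700)))) 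
(.nd (nat_lit 9) 
(.lf (nat_lit 3490685415) (dlOf (nat_lit 5) (nat_lit 0x2f82e0000480401001700002202000a190002105c00008010000864000201700001d0400020008017301))) 
(.lf (nat_lit 5772387303) (dlOf (nat_lit 1) (nat_lit 0x800400020018092882))))))))))))

end

end Pool.Agent.Lib.MP_5854e1_co.Cz

namespace Pool.Agent.Lib.MP_5854e1_co.Cz

noncomputable section

noncomputable def tz152 : DT := (.nd (nat_lit 15) (.nd (nat_lit 5) (.nd (nat_lit 18) 
(.nd (nat_lit 8) (.nd (nat_lit 6) (.nd (nat_lit 13) (.nd (nat_lit 19) (.nd (nat_lit 10) 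
(.nd (nat_lit 7) (.nd (nat_lit 20) 
(.lf (nat_lit 14680075) (dlOf (nat_lit 1) (nat_lit 0x8008000400200020008770003))) (.nd (nat_lit 22) 
(.lf (nat_lit 17825803) (dlOf (nat_lit 1) (nat_lit 0x80080004002000200088f0503))) 
(.lf (nat_lit 38797323) (dlOf (nat_lit 1) (nat_lit 0x8008000400200020009160103))))) 
(.nd (nat_lit 11) 
(.lf (nat_lit 47186059) (dlOf (nat_lit 2) (nat_lit 0x1d7a60003202001800293b0f01))) 
(.nd (nat_lit 30) (.lf (nat_lit 469768331) (dlOf (nat_lit 1) (nat_lit 0x10004000e000800a882))) 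
(.lf (nat_lit 3690993803) (dlOf (nat_lit 1) (nat_lit 0x2000800a881)))))) (.nd (nat_lit 26) 
(.nd (nat_lit 28) (.lf (nat_lit 1073742859) (dlOf (nat_lit 1) (nat_lit 0x400400200008002882))) 
(.lf (nat_lit 2415920139) (dlOf (nat_lit 1) (nat_lit 0x400400020008002882)))) (.nd (nat_lit 9) 
(.lf (nat_lit 201327627) (dlOf (nat_lit 1) (nat_lit 0x400400020008002882))) 
(.lf (nat_lit 2617251339) (dlOf (nat_lit 1) (nat_lit 0x400400020008009c02)))))) (.nd (nat_lit 31) 
(.nd (nat_lit 20) (.nd (nat_lit 7) (.nd (nat_lit 9) 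
(.lf (nat_lit 5906104331) (dlOf (nat_lit 1) (nat_lit 0x180080018002000e00081b0083))) 
(.lf (nat_lit 1476921867) (dlOf (nat_lit 4) (nat_lit 0x80780014036000e0118000a8180008114004c0380002904000a0450019011800d8070000500c001c004000400082d5002)))) 
(.lf (nat_lit 604505227) (dlOf (nat_lit 4) (nat_lit 0x2c060000c01e00040000000181800600c0002003c000a0000000283000d0180003807800140000000006002c00082d2b01)))) 
(.nd (nat_lit 22) (.nd (nat_lit 21) 
(.lf (nat_lit 9961483) (dlOf (nat_lit 2) (nat_lit 0x28a57001452b002520100078008000c002001c00085a0a03))) 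
(.lf (nat_lit 3670027) (dlOf (nat_lit 1) (nat_lit 0x42800802b800201cc0008210683)))) 
(.nd (nat_lit 10) (.lf (nat_lit 30933003) (dlOf (nat_lit 1) (nat_lit 0x400400020008e50582))) 
(.lf (nat_lit 56099851) (dlOf (nat_lit 1) (nat_lit 0x20019732881)))))) (.nd (nat_lit 29) 
(.nd (nat_lit 7) (.nd (nat_lit 26) 
(.lf (nat_lit 3624402955) (dlOf (nat_lit 1) (nat_lit 0x4e0028190081))) 
(.lf (nat_lit 6510084107) (dlOf (nat_lit 1) (nat_lit 0x180080018002000e00081b0083)))) 
(.lf (nat_lit 3221749899) (dlOf (nat_lit 2) (nat_lit 0x680000000004001800200040008170102)))) 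
(.nd (nat_lit 7) (.nd (nat_lit 28) 
(.lf (nat_lit 2886205451) (dlOf (nat_lit 1) (nat_lit 0x4e0028190081))) 
(.lf (nat_lit 3154640907) (dlOf (nat_lit 2) (nat_lit 0x58000004d102000600182f0281)))) 
(.lf (nat_lit 3959947403) (dlOf (nat_lit 2) (nat_lit 0x680000000004001800200040008170102))))))) 
(.nd (nat_lit 7) (.nd (nat_lit 22) (.nd (nat_lit 26) (.nd (nat_lit 28) (.nd (nat_lit 20) 
(.nd (nat_lit 21) 
(.lf (nat_lit 2819104779) (dlOf (nat_lit 27) (nat_lit 0x3e012002c340801900fc0157004018007e00ab402008803f0051781000401f80289c0806e80fc013480401a007e009a302002e03f004c301004101f8026140801600fc013060400b007e0098202005a03f004c081000501f8025c40805e8000002c4041a0c0e400e403f000101b00048c1801900fc002420400c407e001110203f80720007e010396039002100fc001f4080c380e4000f802005a03f0006e81003801f80035c0801c80fc0003804015007e0001702001603f0000a8100f9039014580d800c0044001401b000000481a0480))) 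
(.lf (nat_lit 19406859) (dlOf (nat_lit 1) (nat_lit 0x70008005400200e60008990583)))) 
(.lf (nat_lit 9969675) (dlOf (nat_lit 2) (nat_lit 0x752b002520080080008004c002003200085a0a03)))) 
(.nd (nat_lit 9) 
(.lf (nat_lit 4027064331) (dlOf (nat_lit 2) (nat_lit 0x880180000004002c002006000081d0002))) 
(.lf (nat_lit 1342710283) (dlOf (nat_lit 3) (nat_lit 0x56123808488f000d02a80021906003223c0010a0180c0d80))))) 
(.nd (nat_lit 27) (.nd (nat_lit 30) 
(.lf (nat_lit 4362608651) (dlOf (nat_lit 1) (nat_lit 0x200180a0681))) 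
(.lf (nat_lit 3288866827) (dlOf (nat_lit 2) (nat_lit 0x880180000004002c002006000081d0002)))) 
(.nd (nat_lit 9) (.lf (nat_lit 4228390923) (dlOf (nat_lit 1) (nat_lit 0x200180a0681))) 
(.lf (nat_lit 470295051) (dlOf (nat_lit 3) (nat_lit 0x14247010911e0008841005d05500000004000c004000400080c0d82)))))) 
(.nd (nat_lit 19) (.nd (nat_lit 20) 
(.lf (nat_lit 14688267) (dlOf (nat_lit 1) (nat_lit 0x400200020008770002))) 
(.lf (nat_lit 13639691) (dlOf (nat_lit 1) (nat_lit 0x60028730481)))) (.nd (nat_lit 10) 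
(.lf (nat_lit 15212555) (dlOf (nat_lit 2) (nat_lit 0xa10d800bcf02000200187c0481))) 
(.lf (nat_lit 56108043) (dlOf (nat_lit 1) (nat_lit 0x20019732881)))))) (.nd (nat_lit 19) 
(.nd (nat_lit 12) (.nd (nat_lit 10) 
(.lf (nat_lit 24125579) (dlOf (nat_lit 2) (nat_lit 0x3499e0001d818b80100))) 
(.lf (nat_lit 1342188683) (dlOf (nat_lit 1) (nat_lit 0x68002000a0008006182)))) (.nd (nat_lit 26) 
(.lf (nat_lit 2952802443) (dlOf (nat_lit 1) (nat_lit 0x1400200060008007d82))) 
(.lf (nat_lit 603992203) (dlOf (nat_lit 1) (nat_lit 0x180080018002000e0008007d83))))) 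
(.nd (nat_lit 9) (.nd (nat_lit 26) 
(.lf (nat_lit 3221758091) (dlOf (nat_lit 1) (nat_lit 0x400200020008170102))) 
(.lf (nat_lit 3959955595) (dlOf (nat_lit 1) (nat_lit 0x400200020008170102)))) 
(.lf (nat_lit 61351563) (dlOf (nat_lit 1) (nat_lit 0xf400200220009923a02))))))) (.nd (nat_lit 28) 
(.nd (nat_lit 20) (.nd (nat_lit 7) (.nd (nat_lit 32) (.nd (nat_lit 9) (.nd (nat_lit 13) 
(.lf (nat_lit 25165899) (dlOf (nat_lit 1) (nat_lit 0x20018be1481))) 
(.lf (nat_lit 20979787) (dlOf (nat_lit 1) (nat_lit 0x18008005c002000200089f0603)))) 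
(.lf (nat_lit 2684360267) (dlOf (nat_lit 1) (nat_lit 0x400400020008009c02)))) (.nd (nat_lit 11) 
(.lf (nat_lit 4362600523) (dlOf (nat_lit 1) (nat_lit 0x80080004002000200080a0f03))) 
(.nd (nat_lit 26) (.lf (nat_lit 4429187147) (dlOf (nat_lit 1) (nat_lit 0x400400020008004702))) 
(.lf (nat_lit 4362078283) (dlOf (nat_lit 1) (nat_lit 0x8008000400200020008004703)))))) 
(.nd (nat_lit 10) (.lf (nat_lit 1074266315) (dlOf (nat_lit 1) (nat_lit 0xc002001800081b0482))) 
(.nd (nat_lit 11) 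
(.lf (nat_lit 67114187) (dlOf (nat_lit 1) (nat_lit 0x68008001800200040008009503))) 
(.lf (nat_lit 134225099) (dlOf (nat_lit 1) (nat_lit 0x2180080144002003e000800c203)))))) 
(.nd (nat_lit 25) (.nd (nat_lit 9) (.nd (nat_lit 7) 
(.lf (nat_lit 13639755) (dlOf (nat_lit 2) (nat_lit 0x1e000000100080030008008000200580008730d03))) 
(.lf (nat_lit 2754624715) (dlOf (nat_lit 1) (nat_lit 0x1600180fc201)))) (.nd (nat_lit 13) 
(.lf (nat_lit 19927755) (dlOf (nat_lit 1) (nat_lit 0x4002000200089d8c82))) 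
(.lf (nat_lit 19935947) (dlOf (nat_lit 1) (nat_lit 0x80080004002000200089d8c83))))) 
(.nd (nat_lit 13) (.nd (nat_lit 21) 
(.lf (nat_lit 42991691) (dlOf (nat_lit 1) (nat_lit 0x3c002002800092a0002))) 
(.lf (nat_lit 61866059) (dlOf (nat_lit 1) (nat_lit 0x200009920001)))) (.nd (nat_lit 9) 
(.lf (nat_lit 53485643) (dlOf (nat_lit 1) (nat_lit 0x200295f0001))) 
(.lf (nat_lit 51391051) (dlOf (nat_lit 7) (nat_lit 0xbb3a80007c0400719d200017020038ce90000b0100176748000540800fbb7000819d200013040062cea00016748000001001d0008002000200260009515283))))))) 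
(.nd (nat_lit 11) (.nd (nat_lit 26) (.nd (nat_lit 13) (.nd (nat_lit 7) 
(.lf (nat_lit 3492807755) (dlOf (nat_lit 1) (nat_lit 0x80080004002000200080f2883))) 
(.lf (nat_lit 1476399819) (dlOf (nat_lit 1) (nat_lit 0x400200020008008c82)))) (.nd (nat_lit 19) 
(.lf (nat_lit 4697628747) (dlOf (nat_lit 2) (nat_lit 0x501a005fdc080018008002400200100008000003))) 
(.lf (nat_lit 3492290635) (dlOf (nat_lit 3) (nat_lit 0x1a08a0001a01000d0450000c80800280080018002002a00080c1483))))) 
(.nd (nat_lit 19) (.nd (nat_lit 10) 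
(.lf (nat_lit 473964619) (dlOf (nat_lit 1) (nat_lit 0x18008000c00200020008fe0603))) 
(.lf (nat_lit 469767243) (dlOf (nat_lit 1) (nat_lit 0x8008000400200020008009303)))) 
(.nd (nat_lit 7) 
(.lf (nat_lit 4228382795) (dlOf (nat_lit 1) (nat_lit 0x80080004002000200080a0f03))) 
(.lf (nat_lit 1946681547) (dlOf (nat_lit 1) (nat_lit 0xc002001800081b0482)))))) (.nd (nat_lit 7) 
(.nd (nat_lit 12) (.nd (nat_lit 29) 
(.lf (nat_lit 469764171) (dlOf (nat_lit 1) (nat_lit 0x400400020008004702))) 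
(.lf (nat_lit 1006635083) (dlOf (nat_lit 1) (nat_lit 0x400400020008004702)))) 
(.lf (nat_lit 3492812875) (dlOf (nat_lit 1) (nat_lit 0x80080008002000200080fa683)))) 
(.nd (nat_lit 13) (.nd (nat_lit 12) 
(.lf (nat_lit 3489664203) (dlOf (nat_lit 1) (nat_lit 0x80008000400200020008006403))) 
(.lf (nat_lit 1946164427) (dlOf (nat_lit 1) (nat_lit 0x1080040036001800c202)))) (.nd (nat_lit 26) 
(.lf (nat_lit 1342192843) (dlOf (nat_lit 1) (nat_lit 0x1b800800040020006000800c203))) 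
(.lf (nat_lit 4227873995) (dlOf (nat_lit 1) (nat_lit 0xc0020002000800c202))))))))) (.nd (nat_lit 6) 
(.nd (nat_lit 28) (.nd (nat_lit 9) (.nd (nat_lit 20) (.nd (nat_lit 12) (.nd (nat_lit 26) 
(.lf (nat_lit 134221195) (dlOf (nat_lit 1) (nat_lit 0x20008006c81))) 
(.lf (nat_lit 3288337803) (dlOf (nat_lit 1) (nat_lit 0x400400020008006c82)))) (.nd (nat_lit 7) 
(.lf (nat_lit 3422557451) (dlOf (nat_lit 1) (nat_lit 0x400400020018009682))) 
(.lf (nat_lit 67115403) (dlOf (nat_lit 1) (nat_lit 0x800800040020002000800af83))))) 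
(.nd (nat_lit 19) (.nd (nat_lit 13) 
(.lf (nat_lit 57674123) (dlOf (nat_lit 1) (nat_lit 0x20029794e81))) 
(.lf (nat_lit 57682315) (dlOf (nat_lit 1) (nat_lit 0x400400020009794e82)))) (.nd (nat_lit 7) 
(.lf (nat_lit 58204427) (dlOf (nat_lit 1) (nat_lit 0x1c002000a00097c3a02))) 
(.lf (nat_lit 20457867) (dlOf (nat_lit 1) (nat_lit 0x200289d4e81)))))) (.nd (nat_lit 10) 
(.nd (nat_lit 7) (.lf (nat_lit 603986699) (dlOf (nat_lit 1) (nat_lit 0x2000800b981))) 
(.nd (nat_lit 26) (.lf (nat_lit 5368712075) (dlOf (nat_lit 1) (nat_lit 0x400400020008005c82))) 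
(.lf (nat_lit 5033167755) (dlOf (nat_lit 1) (nat_lit 0x400400020008005c82))))) (.nd (nat_lit 27) 
(.nd (nat_lit 12) (.nd (nat_lit 26) 
(.lf (nat_lit 1073743755) (dlOf (nat_lit 1) (nat_lit 0x60028004181))) 
(.lf (nat_lit 4362078091) (dlOf (nat_lit 1) (nat_lit 0x400400020008004182)))) 
(.lf (nat_lit 67114891) (dlOf (nat_lit 1) (nat_lit 0x2001800a301)))) (.nd (nat_lit 7) 
(.lf (nat_lit 201328395) (dlOf (nat_lit 1) (nat_lit 0x800400080018003b82))) 
(.lf (nat_lit 201328523) (dlOf (nat_lit 1) (nat_lit 0x400400020008004182))))))) (.nd (nat_lit 27) 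
(.nd (nat_lit 10) (.nd (nat_lit 9) (.nd (nat_lit 12) 
(.lf (nat_lit 1346906507) (dlOf (nat_lit 1) (nat_lit 0x4004000200090a4e82))) 
(.lf (nat_lit 1879054731) (dlOf (nat_lit 1) (nat_lit 0x800800040020002000800af83)))) 
(.nd (nat_lit 7) (.lf (nat_lit 2952805131) (dlOf (nat_lit 1) (nat_lit 0x4004001e001800b982))) 
(.nd (nat_lit 22) 
(.lf (nat_lit 6710889355) (dlOf (nat_lit 1) (nat_lit 0x8008000800200020008005c83))) 
(.lf (nat_lit 1346374539) (dlOf (nat_lit 1) (nat_lit 0x20028f65c81)))))) (.nd (nat_lit 7) 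
(.nd (nat_lit 11) (.lf (nat_lit 2415920907) (dlOf (nat_lit 1) (nat_lit 0x20028003b81))) 
(.lf (nat_lit 1342181131) (dlOf (nat_lit 1) (nat_lit 0x400400020008007482)))) (.nd (nat_lit 13) 
(.lf (nat_lit 1342183307) (dlOf (nat_lit 1) (nat_lit 0x4800800040020010000800a303))) 
(.lf (nat_lit 1342191499) (dlOf (nat_lit 1) (nat_lit 0x180040010000800a302)))))) (.nd (nat_lit 26) 
(.nd (nat_lit 12) (.nd (nat_lit 13) 
(.lf (nat_lit 2013268875) (dlOf (nat_lit 1) (nat_lit 0x400400020008005c82))) 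
(.lf (nat_lit 5771373451) (dlOf (nat_lit 1) (nat_lit 0x400400020008005c82)))) (.nd (nat_lit 9) 
(.lf (nat_lit 1476401547) (dlOf (nat_lit 1) (nat_lit 0x1000800040020002000800af83))) 
(.lf (nat_lit 1476401035) (dlOf (nat_lit 1) (nat_lit 0x28002800a301))))) (.nd (nat_lit 9) 
(.nd (nat_lit 10) (.lf (nat_lit 3690994059) (dlOf (nat_lit 1) (nat_lit 0x2001800af81))) 
(.lf (nat_lit 4227861899) (dlOf (nat_lit 1) (nat_lit 0x20018006c81)))) (.nd (nat_lit 7) 
(.lf (nat_lit 469763851) (dlOf (nat_lit 1) (nat_lit 0x20028003b81))) (.nd (nat_lit 29) 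
(.lf (nat_lit 4764732299) (dlOf (nat_lit 1) (nat_lit 0x400400020008005c82))) 
(.lf (nat_lit 5301603211) (dlOf (nat_lit 1) (nat_lit 0x400400020008005c82))))))))) 
(.nd (nat_lit 10) (.nd (nat_lit 26) (.nd (nat_lit 7) (.nd (nat_lit 29) (.nd (nat_lit 9) 
(.lf (nat_lit 2415925579) (dlOf (nat_lit 1) (nat_lit 0x1c0040002000800ab82))) 
(.lf (nat_lit 4697631563) (dlOf (nat_lit 1) (nat_lit 0x160028005c01)))) (.nd (nat_lit 28) 
(.lf (nat_lit 536877387) (dlOf (nat_lit 1) (nat_lit 0x800800040020002000800ab83))) 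
(.lf (nat_lit 4026538315) (dlOf (nat_lit 1) (nat_lit 0x1c0040002000800ab82))))) (.nd (nat_lit 11) 
(.nd (nat_lit 9) 
(.lf (nat_lit 12059083) (dlOf (nat_lit 2) (nat_lit 0x115600000004001c004002000186c0982))) 
(.lf (nat_lit 3623879627) (dlOf (nat_lit 1) (nat_lit 0x20028002881)))) (.nd (nat_lit 19) 
(.lf (nat_lit 1342179787) (dlOf (nat_lit 1) (nat_lit 0xe0028004e81))) 
(.lf (nat_lit 62392779) (dlOf (nat_lit 1) (nat_lit 0x80080004002000200099a4e83)))))) 
(.nd (nat_lit 28) (.nd (nat_lit 27) 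
(.lf (nat_lit 4362082635) (dlOf (nat_lit 1) (nat_lit 0x40040002000800ab82))) (.nd (nat_lit 31) 
(.lf (nat_lit 201333067) (dlOf (nat_lit 1) (nat_lit 0x40040002000800ab82))) 
(.lf (nat_lit 2348816715) (dlOf (nat_lit 1) (nat_lit 0x1000800240020002000800ab83))))) 
(.nd (nat_lit 9) (.nd (nat_lit 7) (.nd (nat_lit 29) 
(.lf (nat_lit 469768523) (dlOf (nat_lit 1) (nat_lit 0x40040002000800ab82))) 
(.lf (nat_lit 1006639435) (dlOf (nat_lit 1) (nat_lit 0x2002800ab81)))) 
(.lf (nat_lit 3690994123) (dlOf (nat_lit 1) (nat_lit 0x3800800040020002000800b083)))) 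
(.nd (nat_lit 13) 
(.lf (nat_lit 872418123) (dlOf (nat_lit 2) (nat_lit 0xd016800594080008008000c00200020008005c03))) 
(.lf (nat_lit 2080385867) (dlOf (nat_lit 1) (nat_lit 0x20018005c01))))))) (.nd (nat_lit 13) 
(.nd (nat_lit 9) (.nd (nat_lit 28) (.nd (nat_lit 26) 
(.lf (nat_lit 134225227) (dlOf (nat_lit 1) (nat_lit 0x100040008001800c902))) 
(.lf (nat_lit 3288341835) (dlOf (nat_lit 1) (nat_lit 0x20008002c002000a000800c903)))) 
(.nd (nat_lit 30) (.lf (nat_lit 2483035467) (dlOf (nat_lit 1) (nat_lit 0x40040002000800c902))) 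
(.lf (nat_lit 1409293643) (dlOf (nat_lit 1) (nat_lit 0x1000800080020002000800c903))))) 
(.nd (nat_lit 11) (.nd (nat_lit 26) 
(.lf (nat_lit 536872779) (dlOf (nat_lit 1) (nat_lit 0x40028003e81))) 
(.lf (nat_lit 2348812107) (dlOf (nat_lit 1) (nat_lit 0x20018003e81)))) (.nd (nat_lit 27) 
(.nd (nat_lit 30) 
(.lf (nat_lit 2952793931) (dlOf (nat_lit 2) (nat_lit 0x28038004a80200040008007781))) 
(.lf (nat_lit 1879052107) (dlOf (nat_lit 1) (nat_lit 0x400400020018007782)))) 
(.lf (nat_lit 1476398923) (dlOf (nat_lit 1) (nat_lit 0xa0018007781)))))) (.nd (nat_lit 28) 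
(.nd (nat_lit 12) (.nd (nat_lit 19) (.nd (nat_lit 26) 
(.lf (nat_lit 4294978891) (dlOf (nat_lit 1) (nat_lit 0x20008006a01))) 
(.lf (nat_lit 3288345931) (dlOf (nat_lit 1) (nat_lit 0x20028006a01)))) 
(.lf (nat_lit 20458827) (dlOf (nat_lit 1) (nat_lit 0x400289d6a01)))) 
(.lf (nat_lit 134233419) (dlOf (nat_lit 1) (nat_lit 0xb80080004002000e000800c903)))) 
(.nd (nat_lit 31) (.nd (nat_lit 12) 
(.lf (nat_lit 1879059787) (dlOf (nat_lit 1) (nat_lit 0x20008006a01))) 
(.lf (nat_lit 1409301835) (dlOf (nat_lit 1) (nat_lit 0x2002800c901)))) (.nd (nat_lit 19) 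
(.lf (nat_lit 2550148427) (dlOf (nat_lit 1) (nat_lit 0x400400020008006a02))) 
(.lf (nat_lit 3490196811) (dlOf (nat_lit 1) (nat_lit 0x20008006a01)))))))))) (.nd (nat_lit 13) 
(.nd (nat_lit 20) (.nd (nat_lit 30) (.nd (nat_lit 6) (.nd (nat_lit 11) (.nd (nat_lit 23) 
(.nd (nat_lit 27) (.nd (nat_lit 31) 
(.lf (nat_lit 537133067) (dlOf (nat_lit 1) (nat_lit 0x2c00080004002006a0008020483))) 
(.lf (nat_lit 2684616715) (dlOf (nat_lit 1) (nat_lit 0x200080d0481)))) (.nd (nat_lit 26) 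
(.lf (nat_lit 134479883) (dlOf (nat_lit 3) (nat_lit 0x10025001680bc0012408004805e0005a0200080028030481))) 
(.lf (nat_lit 201588747) (dlOf (nat_lit 3) (nat_lit 0x10025001680bc0012408004805e000580200080028030481))))) 
(.nd (nat_lit 19) (.nd (nat_lit 21) 
(.lf (nat_lit 63176715) (dlOf (nat_lit 1) (nat_lit 0x100080008002000200099f0103))) 
(.lf (nat_lit 10747915) (dlOf (nat_lit 2) (nat_lit 0x442bc8003a40800d000800bc00200040008620483)))) 
(.lf (nat_lit 11272203) (dlOf (nat_lit 1) (nat_lit 0x8008000400200020008680083))))) 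
(.nd (nat_lit 12) (.nd (nat_lit 7) 
(.lf (nat_lit 57412107) (dlOf (nat_lit 2) (nat_lit 0x156710000a00800080080084002000a0009795003))) 
(.lf (nat_lit 46926219) (dlOf (nat_lit 1) (nat_lit 0x80019384e81)))) (.nd (nat_lit 19) 
(.lf (nat_lit 2818841355) (dlOf (nat_lit 1) (nat_lit 0x5c0040008000812b982))) 
(.lf (nat_lit 19667723) (dlOf (nat_lit 1) (nat_lit 0x80080004002000200089db983)))))) 
(.nd (nat_lit 29) (.nd (nat_lit 8) (.nd (nat_lit 21) 
(.lf (nat_lit 46399563) (dlOf (nat_lit 3) (nat_lit 0x4b108002d7f8002a95c001148c00bf0840004aff005f340800500080024002002c0009380003))) 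
(.lf (nat_lit 472121419) (dlOf (nat_lit 1) (nat_lit 0x8008000800200020008840603)))) 
(.lf (nat_lit 54790987) (dlOf (nat_lit 1) (nat_lit 0x400400020009655c02)))) (.nd (nat_lit 19) 
(.nd (nat_lit 27) (.lf (nat_lit 537133131) (dlOf (nat_lit 1) (nat_lit 0x7c00200340008020902))) 
(.lf (nat_lit 4966318155) (dlOf (nat_lit 1) (nat_lit 0x100018090001)))) 
(.lf (nat_lit 2754347083) (dlOf (nat_lit 2) (nat_lit 0x4f00000009e0400ac002001800080d0d02)))))) 
(.nd (nat_lit 6) (.nd (nat_lit 8) (.nd (nat_lit 27) (.nd (nat_lit 7) 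
(.lf (nat_lit 1409548299) (dlOf (nat_lit 1) (nat_lit 0x2c00080004002006a0008020483))) 
(.lf (nat_lit 5436080267) (dlOf (nat_lit 9) (nat_lit 0x308022000400201b602f0016015005b80500758022000200801720110000f81001b0088000780800e0044000260401d80220001202017001100006810048008800028080120008000c002000c00080c0f03)))) 
(.nd (nat_lit 28) (.lf (nat_lit 3422814219) (dlOf (nat_lit 1) (nat_lit 0x200080d0481))) 
(.lf (nat_lit 3691249675) (dlOf (nat_lit 1) (nat_lit 0x54000802e4002011e00080e0283))))) 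
(.nd (nat_lit 11) (.nd (nat_lit 10) 
(.lf (nat_lit 4026794379) (dlOf (nat_lit 1) (nat_lit 0x278008004400200960008090783))) 
(.lf (nat_lit 3557037451) (dlOf (nat_lit 1) (nat_lit 0x7e0028129901)))) (.nd (nat_lit 26) 
(.lf (nat_lit 5773724043) (dlOf (nat_lit 1) (nat_lit 0x200280e4e81))) 
(.lf (nat_lit 6377703819) (dlOf (nat_lit 1) (nat_lit 0x200280e4e81)))))) (.nd (nat_lit 31) 
(.nd (nat_lit 7) (.nd (nat_lit 9) 
(.lf (nat_lit 1409548363) (dlOf (nat_lit 1) (nat_lit 0x7c00200340008020902))) 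
(.lf (nat_lit 5905842763) (dlOf (nat_lit 1) (nat_lit 0x800400080008158d02)))) (.nd (nat_lit 26) 
(.lf (nat_lit 6174278859) (dlOf (nat_lit 1) (nat_lit 0x200080078002000e00080d2d83))) 
(.lf (nat_lit 5704516811) (dlOf (nat_lit 1) (nat_lit 0x80080014002000200080d2d83))))) 
(.nd (nat_lit 7) (.nd (nat_lit 8) (.nd (nat_lit 19) 
(.lf (nat_lit 4161011787) (dlOf (nat_lit 1) (nat_lit 0x1200180a0001))) 
(.lf (nat_lit 3492544587) (dlOf (nat_lit 2) (nat_lit 0x4f0000000ac0400ac002001800080d0d02)))) 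
(.lf (nat_lit 3494117707) (dlOf (nat_lit 1) (nat_lit 0x80080024002000200081b0603)))) 
(.lf (nat_lit 3557036747) (dlOf (nat_lit 1) (nat_lit 0x140028128c81))))))) (.nd (nat_lit 19) 
(.nd (nat_lit 6) (.nd (nat_lit 7) (.nd (nat_lit 21) (.nd (nat_lit 23) 
(.lf (nat_lit 471072779) (dlOf (nat_lit 1) (nat_lit 0x400400020008260282))) 
(.lf (nat_lit 26476555) (dlOf (nat_lit 1) (nat_lit 0x400200020008c50002)))) 
(.lf (nat_lit 24379403) (dlOf (nat_lit 1) (nat_lit 0xc0008b90681)))) (.nd (nat_lit 8) 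
(.lf (nat_lit 3408011) (dlOf (nat_lit 2) (nat_lit 0x1098e00144bd00312540000ec180050008002000200140008200103))) 
(.lf (nat_lit 53741963) (dlOf (nat_lit 1) (nat_lit 0x800800d0002002c00095f4e83))))) 
(.nd (nat_lit 8) (.nd (nat_lit 7) 
(.lf (nat_lit 9699915) (dlOf (nat_lit 2) (nat_lit 0x1c5580000f018578d00))) 
(.lf (nat_lit 20189899) (dlOf (nat_lit 1) (nat_lit 0x4002000200089d8c82)))) (.nd (nat_lit 9) 
(.lf (nat_lit 3490971979) (dlOf (nat_lit 1) (nat_lit 0x800400020018048002))) 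
(.lf (nat_lit 4094954315) (dlOf (nat_lit 1) (nat_lit 0x800400060008055c02)))))) (.nd (nat_lit 7) 
(.nd (nat_lit 21) (.nd (nat_lit 26) (.nd (nat_lit 23) 
(.lf (nat_lit 5773197323) (dlOf (nat_lit 1) (nat_lit 0x1800280b0001))) 
(.lf (nat_lit 27000843) (dlOf (nat_lit 1) (nat_lit 0x800400020008ca0482)))) (.nd (nat_lit 29) 
(.lf (nat_lit 471597067) (dlOf (nat_lit 7) (nat_lit 0xa161000504e80183c100010584000413a005fa04000e161000704e8004023800b700c00142c2000a09d00040470016bc180030584001413a005a9040008161000404e8001823800b0c0c000800200040008350282))) 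
(.lf (nat_lit 6377177099) (dlOf (nat_lit 1) (nat_lit 0x1800280b0001))))) (.nd (nat_lit 6) 
(.nd (nat_lit 9) (.lf (nat_lit 24903691) (dlOf (nat_lit 1) (nat_lit 0x20028bc0681))) 
(.lf (nat_lit 8128011) (dlOf (nat_lit 1) (nat_lit 0x20028513681)))) 
(.lf (nat_lit 20714571) (dlOf (nat_lit 2) (nat_lit 0x714b60006902000600189d9301))))) 
(.nd (nat_lit 10) (.nd (nat_lit 6) (.nd (nat_lit 8) 
(.lf (nat_lit 12320907) (dlOf (nat_lit 1) (nat_lit 0x1300080014002007000086c0103))) 
(.lf (nat_lit 8126859) (dlOf (nat_lit 1) (nat_lit 0x400200020008511002)))) 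
(.lf (nat_lit 50072011) (dlOf (nat_lit 2) (nat_lit 0x17de180196eec0291808002c004003000094c4e82)))) 
(.nd (nat_lit 9) (.lf (nat_lit 8127883) (dlOf (nat_lit 1) (nat_lit 0x400200020008513602))) 
(.lf (nat_lit 20713355) (dlOf (nat_lit 1) (nat_lit 0x4002000200089d7782)))))))) (.nd (nat_lit 26) 
(.nd (nat_lit 19) (.nd (nat_lit 6) (.nd (nat_lit 27) (.nd (nat_lit 28) (.nd (nat_lit 7) 
(.nd (nat_lit 21) 
(.lf (nat_lit 537141259) (dlOf (nat_lit 1) (nat_lit 0x1200080074002004c0008030483))) 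
(.lf (nat_lit 10756107) (dlOf (nat_lit 1) (nat_lit 0xc00400040008620482)))) 
(.lf (nat_lit 3221498251) (dlOf (nat_lit 1) (nat_lit 0x74002002e0008114e82)))) (.nd (nat_lit 29) 
(.lf (nat_lit 1342447627) (dlOf (nat_lit 10) (nat_lit 0x2c48e001e24300c811e006188dc00bc3a2018a1cd00060e280054838004890c02f8478018a23700800e8805f87340028382001170c006623c003a0e8800407340022c0c000c48e001824300c111e006288dc009c3a2018a1cd00050e2800087040022a2001d8478001140200142470009121806008f0030046e00721d100bc0e6800607140020382000fb10000c2470008121806108f002f446e00841d100bf0e680040704001ee1c00ac3a200061c1000790200b611e000000080308008023400200d80008030483))) 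
(.lf (nat_lit 2953060363) (dlOf (nat_lit 1) (nat_lit 0x11000280f0101))))) (.nd (nat_lit 7) 
(.nd (nat_lit 28) (.nd (nat_lit 29) 
(.lf (nat_lit 134488075) (dlOf (nat_lit 1) (nat_lit 0x38008002000200160008030483))) 
(.lf (nat_lit 671358987) (dlOf (nat_lit 2) (nat_lit 0x1c0220060c018160480)))) 
(.lf (nat_lit 3087278091) (dlOf (nat_lit 2) (nat_lit 0x14040009de0200040028160481)))) 
(.lf (nat_lit 1745103243) (dlOf (nat_lit 1) (nat_lit 0x5000400180008094e82))))) (.nd (nat_lit 20) 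
(.nd (nat_lit 10) (.nd (nat_lit 27) 
(.lf (nat_lit 1879318603) (dlOf (nat_lit 1) (nat_lit 0x1c00180d0f01))) (.nd (nat_lit 29) 
(.lf (nat_lit 134488139) (dlOf (nat_lit 1) (nat_lit 0x20018030f81))) 
(.lf (nat_lit 671359051) (dlOf (nat_lit 4) (nat_lit 0x2804a0055b020014025002a9010009011000f54080180008045c00202440008160903))))) 
(.nd (nat_lit 7) 
(.lf (nat_lit 2818847819) (dlOf (nat_lit 16) (nat_lit 0x1680860026041003100e000500640005e10016c0860026041003000e000280640005a100190086006c01c00015820064021801c007000054080018086000c01c0001402005303a80688000000480801d40ea011206e000e01d803700cc01f806400fc02900d40000000883803081d40328000000200400bc07500cd0000000741002901bc01400680001904007806f006201a0000601003381bc01c4068000c01e0000b030056037802680d0000280800f00de0000202007606f002a01a0000001000080080374002007e0008129303))) 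
(.lf (nat_lit 4832109771) (dlOf (nat_lit 1) (nat_lit 0x8004000400180d2d82))))) (.nd (nat_lit 21) 
(.nd (nat_lit 8) (.lf (nat_lit 1880367179) (dlOf (nat_lit 1) (nat_lit 0x4a00288c0001))) 
(.lf (nat_lit 3490980171) (dlOf (nat_lit 1) (nat_lit 0x20008001000200060008048003)))) 
(.nd (nat_lit 7) (.lf (nat_lit 32776267) (dlOf (nat_lit 1) (nat_lit 0x20018f10601))) 
(.lf (nat_lit 20198091) (dlOf (nat_lit 1) (nat_lit 0x4002000200089d8c82))))))) (.nd (nat_lit 21) 
(.nd (nat_lit 6) (.nd (nat_lit 8) (.nd (nat_lit 23) 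
(.lf (nat_lit 5773205515) (dlOf (nat_lit 2) (nat_lit 0x3b825e00cbf02000800280b0001))) 
(.lf (nat_lit 27009035) (dlOf (nat_lit 2) (nat_lit 0xccec2800532d400c7808009400400a60018ca0482)))) 
(.nd (nat_lit 20) (.lf (nat_lit 794891) (dlOf (nat_lit 1) (nat_lit 0x400400020008013a02))) 
(.lf (nat_lit 6037771) (dlOf (nat_lit 1) (nat_lit 0x260018420701))))) (.nd (nat_lit 20) 
(.lf (nat_lit 59514955) (dlOf (nat_lit 4) (nat_lit 0x58b280016002002667d005433e00321650014c9cc006a4d4000ab05000a2ca0003340800900080090002002e0009800603))) 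
(.nd (nat_lit 23) (.lf (nat_lit 5773205579) (dlOf (nat_lit 2) (nat_lit 0xa8131000078180b0600))) 
(.lf (nat_lit 10231883) (dlOf (nat_lit 1) (nat_lit 0x4002000200085c0f82)))))) (.nd (nat_lit 7) 
(.nd (nat_lit 20) (.nd (nat_lit 6) (.nd (nat_lit 9) 
(.lf (nat_lit 11280395) (dlOf (nat_lit 1) (nat_lit 0x8008000800200020008680083))) 
(.lf (nat_lit 57420299) (dlOf (nat_lit 1) (nat_lit 0x48008002c00200060009795003)))) 
(.lf (nat_lit 53223499) (dlOf (nat_lit 1) (nat_lit 0x400080020002000a0009570003)))) 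
(.nd (nat_lit 22) (.lf (nat_lit 29106187) (dlOf (nat_lit 1) (nat_lit 0x560008dc0581))) 
(.lf (nat_lit 8134667) (dlOf (nat_lit 1) (nat_lit 0x400200020008510002))))) (.nd (nat_lit 8) 
(.nd (nat_lit 9) (.lf (nat_lit 12329099) (dlOf (nat_lit 1) (nat_lit 0x10002000200086c0102))) 
(.lf (nat_lit 8136331) (dlOf (nat_lit 1) (nat_lit 0x2000400020008513a02)))) (.nd (nat_lit 6) 
(.lf (nat_lit 8135051) (dlOf (nat_lit 1) (nat_lit 0x400200020008511002))) 
(.lf (nat_lit 50080203) (dlOf (nat_lit 2) (nat_lit 0xc55000a570194c4e80)))))))) (.nd (nat_lit 29) 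
(.nd (nat_lit 27) (.nd (nat_lit 7) (.nd (nat_lit 31) (.nd (nat_lit 28) 
(.lf (nat_lit 4362346507) (dlOf (nat_lit 2) (nat_lit 0x2404600384018030a00))) 
(.lf (nat_lit 1409556491) (dlOf (nat_lit 1) (nat_lit 0x1200080074002004c0008030483)))) 
(.nd (nat_lit 8) (.lf (nat_lit 3557564427) (dlOf (nat_lit 1) (nat_lit 0x80004000e0008270102))) 
(.lf (nat_lit 3557043979) (dlOf (nat_lit 1) (nat_lit 0x18000801b8002014e0008127483))))) 
(.nd (nat_lit 6) 
(.lf (nat_lit 5436088459) (dlOf (nat_lit 2) (nat_lit 0x2004400040040020004000800180c0f02))) 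
(.nd (nat_lit 8) 
(.lf (nat_lit 3557044939) (dlOf (nat_lit 1) (nat_lit 0x938008000400200d40008128c83))) 
(.lf (nat_lit 3557045195) (dlOf (nat_lit 1) (nat_lit 0xb80080024002002c0008129203)))))) 
(.nd (nat_lit 6) (.nd (nat_lit 19) (.nd (nat_lit 28) 
(.lf (nat_lit 201596939) (dlOf (nat_lit 1) (nat_lit 0x38008002000200160008030483))) 
(.nd (nat_lit 30) 
(.lf (nat_lit 470032395) (dlOf (nat_lit 10) (nat_lit 0x2c48e001e24300c811e006188dc00bc3a2018a1cd00060e280054838004890c02f8478018a23700800e8805f873400283820011b0c006623c003a0e880040734002340c000c48e001824300c111e006288dc009c3a2018a1cd00050e280008704002322001d8478001180200142470009121806008f0030046e00721d100bc0e6800607140020382000fa10000c2470008121806108f002f446e00841d100bf0e680040704001ee1c00ac3a200061c1000790200b611e000000080308008023400200d80008030483))) 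
(.lf (nat_lit 1543774219) (dlOf (nat_lit 2) (nat_lit 0x1c02200341818160480))))) 
(.lf (nat_lit 471605259) (dlOf (nat_lit 8) (nat_lit 0x2805000cf204001c0000066202003407e0030781001f03f0016e00800901f80034048005af04000a07e002d481000203f001618080158008001400200160008350283)))) 
(.nd (nat_lit 28) (.lf (nat_lit 201597003) (dlOf (nat_lit 1) (nat_lit 0x20018030f81))) 
(.lf (nat_lit 1543774283) (dlOf (nat_lit 4) (nat_lit 0x2804a00b040200140250057d8100090110025ac080180008045c00202440008160903)))))) 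
(.nd (nat_lit 30) (.nd (nat_lit 6) (.nd (nat_lit 7) (.nd (nat_lit 10) 
(.lf (nat_lit 3154386955) (dlOf (nat_lit 1) (nat_lit 0x20008160001))) 
(.lf (nat_lit 2885952523) (dlOf (nat_lit 1) (nat_lit 0x20028142881)))) (.nd (nat_lit 9) 
(.lf (nat_lit 5301870731) (dlOf (nat_lit 1) (nat_lit 0xa00280c0f81))) 
(.lf (nat_lit 738470539) (dlOf (nat_lit 1) (nat_lit 0x400400020008095482))))) (.nd (nat_lit 7) 
(.nd (nat_lit 8) (.lf (nat_lit 1006903371) (dlOf (nat_lit 1) (nat_lit 0x1c00180d0f01))) 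
(.lf (nat_lit 2885953355) (dlOf (nat_lit 1) (nat_lit 0x20028143e81)))) 
(.lf (nat_lit 2751735499) (dlOf (nat_lit 1) (nat_lit 0x160018003a81))))) (.nd (nat_lit 19) 
(.nd (nat_lit 7) (.nd (nat_lit 27) 
(.lf (nat_lit 3825475595) (dlOf (nat_lit 2) (nat_lit 0x14040004500200040028160481))) 
(.lf (nat_lit 4228128779) (dlOf (nat_lit 2) (nat_lit 0x2403f0065a818030a00)))) 
(.lf (nat_lit 4093913483) (dlOf (nat_lit 1) (nat_lit 0x20028004e81)))) (.nd (nat_lit 6) 
(.nd (nat_lit 11) 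
(.lf (nat_lit 6377185291) (dlOf (nat_lit 2) (nat_lit 0x3b82400071502000800280b0001))) 
(.lf (nat_lit 4228655115) (dlOf (nat_lit 1) (nat_lit 0x4a0018114701)))) (.nd (nat_lit 20) 
(.lf (nat_lit 4096532555) (dlOf (nat_lit 1) (nat_lit 0x80028120501))) 
(.lf (nat_lit 6377185355) (dlOf (nat_lit 2) (nat_lit 0xa8122000078180b0600))))))))))) 
(.nd (nat_lit 26) (.nd (nat_lit 6) (.nd (nat_lit 13) (.nd (nat_lit 30) (.nd (nat_lit 23) 
(.nd (nat_lit 11) (.nd (nat_lit 18) (.nd (nat_lit 9) (.nd (nat_lit 19) 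
(.lf (nat_lit 23068715) (dlOf (nat_lit 2) (nat_lit 0x7c000000480200180018b50601))) 
(.lf (nat_lit 134742059) (dlOf (nat_lit 2) (nat_lit 0x23403b0007f0180a0980)))) (.nd (nat_lit 8) 
(.lf (nat_lit 50856491) (dlOf (nat_lit 1) (nat_lit 0x1200194d8a01))) 
(.lf (nat_lit 2952795947) (dlOf (nat_lit 1) (nat_lit 0x90002002e000800a102))))) (.nd (nat_lit 24) 
(.nd (nat_lit 20) (.lf (nat_lit 671350827) (dlOf (nat_lit 1) (nat_lit 0xc0028160501))) 
(.lf (nat_lit 1310763) (dlOf (nat_lit 1) (nat_lit 0x3000180b0501)))) (.nd (nat_lit 7) 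
(.lf (nat_lit 18612267) (dlOf (nat_lit 2) (nat_lit 0x284e8001326b8002281001a0008001c002000a0008950783))) 
(.lf (nat_lit 20190891) (dlOf (nat_lit 1) (nat_lit 0x4002000200089da002)))))) (.nd (nat_lit 10) 
(.nd (nat_lit 27) (.nd (nat_lit 28) 
(.lf (nat_lit 536877099) (dlOf (nat_lit 1) (nat_lit 0x800800040020002000800a603))) 
(.lf (nat_lit 2415925291) (dlOf (nat_lit 1) (nat_lit 0x40040002000800a602)))) 
(.lf (nat_lit 4429191211) (dlOf (nat_lit 1) (nat_lit 0x40040002000800a602)))) (.nd (nat_lit 7) 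
(.lf (nat_lit 3087011371) (dlOf (nat_lit 1) (nat_lit 0x180028007181))) (.nd (nat_lit 8) 
(.lf (nat_lit 134220971) (dlOf (nat_lit 2) (nat_lit 0xb02080011c080048008002c00200020008006283))) 
(.lf (nat_lit 2952794027) (dlOf (nat_lit 1) (nat_lit 0x20028007981))))))) (.nd (nat_lit 22) 
(.nd (nat_lit 18) (.nd (nat_lit 8) (.nd (nat_lit 19) 
(.lf (nat_lit 25165867) (dlOf (nat_lit 2) (nat_lit 0x22ae000105678008281800493da000510800060018be0c01))) 
(.lf (nat_lit 9961515) (dlOf (nat_lit 9) (nat_lit 0x152b0000a00800d295c0004e04001d4ae0002602001ea57000e52b00009410003295c00154ac0000c040006a560000581001a52b80002808001a95c00012040088002000800085a0d02)))) 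
(.lf (nat_lit 60293419) (dlOf (nat_lit 1) (nat_lit 0x800800c000200520009840b03)))) 
(.nd (nat_lit 19) 
(.lf (nat_lit 25428011) (dlOf (nat_lit 2) (nat_lit 0x3855b000ba5cc0006608000800200020008c00602))) 
(.lf (nat_lit 11272235) (dlOf (nat_lit 4) (nat_lit 0x1856100092af8002156c00e880c0018ac2000655f000c2ad801d0c180071584002cabe0073a04000c0018680781))))) 
(.nd (nat_lit 18) (.nd (nat_lit 19) (.nd (nat_lit 21) 
(.lf (nat_lit 12582955) (dlOf (nat_lit 1) (nat_lit 0x200186d0981))) 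
(.lf (nat_lit 14680107) (dlOf (nat_lit 3) (nat_lit 0x3658300372498000bc10013160c00349260002e0400040018770381)))) 
(.lf (nat_lit 15204395) (dlOf (nat_lit 2) (nat_lit 0x46e28001744c0002f8287c0680)))) 
(.nd (nat_lit 8) (.lf (nat_lit 63176747) (dlOf (nat_lit 1) (nat_lit 0x4004000200099f0902))) 
(.lf (nat_lit 46399787) (dlOf (nat_lit 2) (nat_lit 0x26918000060200020009380b01))))))) 
(.nd (nat_lit 8) (.nd (nat_lit 19) (.nd (nat_lit 11) (.nd (nat_lit 7) 
(.lf (nat_lit 1343488043) (dlOf (nat_lit 2) (nat_lit 0x282380000004006400200020008260802))) 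
(.lf (nat_lit 5502927019) (dlOf (nat_lit 1) (nat_lit 0x20028000601)))) (.nd (nat_lit 28) 
(.lf (nat_lit 1073748011) (dlOf (nat_lit 1) (nat_lit 0x40040002000800a602))) 
(.lf (nat_lit 4026538027) (dlOf (nat_lit 1) (nat_lit 0x800800040020002000800a603))))) 
(.nd (nat_lit 18) (.nd (nat_lit 20) 
(.lf (nat_lit 1611137067) (dlOf (nat_lit 4) (nat_lit 0x2204f0001201000c02780008c0800a814c007809e0026021001500e8000002000400080008002000600080f0d03))) 
(.lf (nat_lit 3493330987) (dlOf (nat_lit 1) (nat_lit 0x20018110501)))) (.nd (nat_lit 20) 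
(.lf (nat_lit 1342963755) (dlOf (nat_lit 12) (nat_lit 0x15f04a000144080030250000a00401701280004f02003a0940002701000312380012008013891c00b038a0004704004a0940001f81002204a0000820400070080134128001c0810001b82004404a0000d808011825000041020003304001c0028120c01))) 
(.lf (nat_lit 3493593131) (dlOf (nat_lit 1) (nat_lit 0x360028170601)))))) (.nd (nat_lit 7) 
(.nd (nat_lit 27) (.nd (nat_lit 18) 
(.lf (nat_lit 3490709803) (dlOf (nat_lit 1) (nat_lit 0x20018014601))) 
(.lf (nat_lit 3490971947) (dlOf (nat_lit 1) (nat_lit 0x20028047901)))) (.nd (nat_lit 10) 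
(.lf (nat_lit 3892314411) (dlOf (nat_lit 1) (nat_lit 0x8008000400200020008000b03))) 
(.lf (nat_lit 5772412203) (dlOf (nat_lit 1) (nat_lit 0x8008000400200020008093183))))) 
(.nd (nat_lit 10) (.nd (nat_lit 9) 
(.lf (nat_lit 5637147051) (dlOf (nat_lit 1) (nat_lit 0xc0018004e81))) 
(.lf (nat_lit 4161012651) (dlOf (nat_lit 1) (nat_lit 0x1400180a2681)))) (.nd (nat_lit 28) 
(.lf (nat_lit 1073743787) (dlOf (nat_lit 1) (nat_lit 0x400400020008004302))) 
(.lf (nat_lit 4026533803) (dlOf (nat_lit 1) (nat_lit 0x80018004301)))))))) (.nd (nat_lit 18) 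
(.nd (nat_lit 7) (.nd (nat_lit 19) (.nd (nat_lit 8) (.nd (nat_lit 9) (.nd (nat_lit 23) 
(.lf (nat_lit 23076907) (dlOf (nat_lit 3) (nat_lit 0x25da70001200801100000006204000400200380008b50602))) 
(.lf (nat_lit 14688299) (dlOf (nat_lit 2) (nat_lit 0x35124c0005e04000400400020018770382)))) 
(.lf (nat_lit 3087019563) (dlOf (nat_lit 1) (nat_lit 0x9800800a400201420008007183)))) 
(.nd (nat_lit 27) (.lf (nat_lit 1610621227) (dlOf (nat_lit 1) (nat_lit 0x60008000b01))) 
(.lf (nat_lit 4697628971) (dlOf (nat_lit 1) (nat_lit 0xaa0008000b01))))) (.nd (nat_lit 20) 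
(.nd (nat_lit 21) (.lf (nat_lit 1879580715) (dlOf (nat_lit 1) (nat_lit 0x2160018200801))) 
(.nd (nat_lit 28) (.lf (nat_lit 2629675) (dlOf (nat_lit 1) (nat_lit 0x3000400260008180b02))) 
(.lf (nat_lit 3492290603) (dlOf (nat_lit 9) (nat_lit 0x7b011803fe08b000120201ed04600fe822c000440800a01180002002001e08c0000f8101e90f300f885500003208075c3cc03ac1540000c0201ac0f300d605500002c0806ac3cc03561540000a0280c0c00))))) 
(.nd (nat_lit 22) 
(.lf (nat_lit 9969707) (dlOf (nat_lit 9) (nat_lit 0x4295c00114ac00029040010a570001401000c52b80009c08002295c0004c0400714ae0032a560001282000452b80032958000180800094ac0000b02001ea57000050185a0d00))) 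
(.lf (nat_lit 30941227) (dlOf (nat_lit 1) (nat_lit 0x400200020008e50b02)))))) (.nd (nat_lit 8) 
(.nd (nat_lit 28) (.nd (nat_lit 19) 
(.lf (nat_lit 5368720043) (dlOf (nat_lit 1) (nat_lit 0x400400020008005682))) 
(.lf (nat_lit 20458155) (dlOf (nat_lit 1) (nat_lit 0x200289d5681)))) (.nd (nat_lit 10) 
(.lf (nat_lit 6710897323) (dlOf (nat_lit 1) (nat_lit 0x20028005681))) 
(.lf (nat_lit 2415929003) (dlOf (nat_lit 1) (nat_lit 0x40028003a81))))) (.nd (nat_lit 11) 
(.nd (nat_lit 12) (.lf (nat_lit 58204587) (dlOf (nat_lit 2) (nat_lit 0x40000050b8197c6e80))) 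
(.lf (nat_lit 1476407723) (dlOf (nat_lit 1) (nat_lit 0x60008002000200480008008483)))) 
(.nd (nat_lit 9) (.lf (nat_lit 54536619) (dlOf (nat_lit 1) (nat_lit 0x8008000400200020009654e83))) 
(.lf (nat_lit 671103915) (dlOf (nat_lit 1) (nat_lit 0x1800800080020006000800bd83))))))) 
(.nd (nat_lit 19) (.nd (nat_lit 28) (.nd (nat_lit 23) (.nd (nat_lit 27) 
(.lf (nat_lit 6442721323) (dlOf (nat_lit 2) (nat_lit 0x14018000000200020008190801))) 
(.lf (nat_lit 671359019) (dlOf (nat_lit 2) (nat_lit 0x808c00000040008002000e0008160502)))) 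
(.nd (nat_lit 20) 
(.lf (nat_lit 25436203) (dlOf (nat_lit 2) (nat_lit 0x9e5808000cc080030008001c002000a0008c00603))) 
(.lf (nat_lit 26484779) (dlOf (nat_lit 2) (nat_lit 0x1900000005c040010004000e0008c50382))))) 
(.nd (nat_lit 9) (.nd (nat_lit 27) 
(.lf (nat_lit 805576747) (dlOf (nat_lit 1) (nat_lit 0x60028130601))) 
(.lf (nat_lit 3087278123) (dlOf (nat_lit 3) (nat_lit 0xa80800016a04004403e000801b0006005800a001c0000010003c004000c0008160502)))) 
(.lf (nat_lit 1881418283) (dlOf (nat_lit 2) (nat_lit 0x60e100045818f05180))))) (.nd (nat_lit 22) 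
(.nd (nat_lit 20) (.nd (nat_lit 28) 
(.lf (nat_lit 2891819) (dlOf (nat_lit 1) (nat_lit 0x8004000400181d0602))) 
(.lf (nat_lit 3492552747) (dlOf (nat_lit 1) (nat_lit 0x4004000200080e0602)))) 
(.lf (nat_lit 29106219) (dlOf (nat_lit 1) (nat_lit 0xac0028dc0b01)))) (.nd (nat_lit 7) 
(.nd (nat_lit 23) (.lf (nat_lit 22814763) (dlOf (nat_lit 1) (nat_lit 0x20008b30601))) 
(.lf (nat_lit 14426155) (dlOf (nat_lit 1) (nat_lit 0x140028750001)))) 
(.lf (nat_lit 8136107) (dlOf (nat_lit 1) (nat_lit 0x40018513601)))))))) (.nd (nat_lit 11) 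
(.nd (nat_lit 7) (.nd (nat_lit 20) (.nd (nat_lit 27) (.nd (nat_lit 9) (.nd (nat_lit 10) 
(.lf (nat_lit 2359659) (dlOf (nat_lit 3) (nat_lit 0x2b05c00058000008a7e000153680005420003b05c00024040008004005c0018150702))) 
(.lf (nat_lit 39855467) (dlOf (nat_lit 1) (nat_lit 0x400191f3481)))) 
(.lf (nat_lit 2684355435) (dlOf (nat_lit 1) (nat_lit 0x80080100002004c0008002583)))) 
(.nd (nat_lit 8) (.nd (nat_lit 18) 
(.lf (nat_lit 134742123) (dlOf (nat_lit 1) (nat_lit 0x380080044002001600080a1483))) 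
(.lf (nat_lit 3892576363) (dlOf (nat_lit 1) (nat_lit 0x400200020008160282)))) 
(.lf (nat_lit 2281702251) (dlOf (nat_lit 1) (nat_lit 0x8008013800200440008002583))))) 
(.nd (nat_lit 8) (.nd (nat_lit 10) 
(.lf (nat_lit 1346109547) (dlOf (nat_lit 1) (nat_lit 0x20018e51e81))) 
(.lf (nat_lit 33031275) (dlOf (nat_lit 1) (nat_lit 0x400400020008f52982)))) (.nd (nat_lit 13) 
(.lf (nat_lit 12058987) (dlOf (nat_lit 1) (nat_lit 0x80080008002000200086c0703))) (.nd (nat_lit 18) 
(.lf (nat_lit 3154283) (dlOf (nat_lit 2) (nat_lit 0x21fc800054080008008000800200040008200703))) 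
(.lf (nat_lit 3416427) (dlOf (nat_lit 1) (nat_lit 0x400400020008200702))))))) (.nd (nat_lit 27) 
(.nd (nat_lit 30) (.nd (nat_lit 8) 
(.lf (nat_lit 8131307) (dlOf (nat_lit 1) (nat_lit 0x20018518e01))) (.nd (nat_lit 12) 
(.lf (nat_lit 61875691) (dlOf (nat_lit 1) (nat_lit 0xdc0029923601))) 
(.lf (nat_lit 2952795627) (dlOf (nat_lit 1) (nat_lit 0x40018009b81))))) (.nd (nat_lit 8) 
(.lf (nat_lit 1342189803) (dlOf (nat_lit 1) (nat_lit 0xc00200020008008082))) (.nd (nat_lit 9) 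
(.lf (nat_lit 4026794475) (dlOf (nat_lit 8) (nat_lit 0x400d8005006400120240000a03000801b00004c0800080d80002404001006c000e0340000282000801b000400d00000808000406800003020008036000401a0000081000f000800d000200100008090d03))) 
(.lf (nat_lit 1342182379) (dlOf (nat_lit 1) (nat_lit 0x700028009201)))))) (.nd (nat_lit 9) 
(.nd (nat_lit 10) (.nd (nat_lit 13) 
(.lf (nat_lit 1476399339) (dlOf (nat_lit 1) (nat_lit 0x8008000400200020008008083))) 
(.lf (nat_lit 1476407531) (dlOf (nat_lit 1) (nat_lit 0x400200020008008082)))) 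
(.lf (nat_lit 5772944619) (dlOf (nat_lit 1) (nat_lit 0x400200020008092e82)))) (.nd (nat_lit 8) 
(.nd (nat_lit 28) 
(.lf (nat_lit 6039798507) (dlOf (nat_lit 1) (nat_lit 0x8008009000200380008002103))) 
(.lf (nat_lit 4160750315) (dlOf (nat_lit 1) (nat_lit 0x80080138002003c0008002103)))) 
(.lf (nat_lit 3623884779) (dlOf (nat_lit 1) (nat_lit 0x18001800a601))))))) (.nd (nat_lit 10) 
(.nd (nat_lit 21) (.nd (nat_lit 7) (.nd (nat_lit 8) 
(.lf (nat_lit 4429187179) (dlOf (nat_lit 1) (nat_lit 0x400400020008004702))) (.nd (nat_lit 9) 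
(.lf (nat_lit 3489671531) (dlOf (nat_lit 1) (nat_lit 0x400200020008004e82))) 
(.lf (nat_lit 2013268843) (dlOf (nat_lit 1) (nat_lit 0xa0018005c01))))) (.nd (nat_lit 8) 
(.nd (nat_lit 9) (.lf (nat_lit 536873195) (dlOf (nat_lit 1) (nat_lit 0x100028004b01))) 
(.lf (nat_lit 50596587) (dlOf (nat_lit 1) (nat_lit 0x200194c5a01)))) (.nd (nat_lit 9) 
(.lf (nat_lit 3623885291) (dlOf (nat_lit 1) (nat_lit 0x2000800080020004000800b283))) 
(.lf (nat_lit 2818849771) (dlOf (nat_lit 6) (nat_lit 0x2101c800f00de0102042008701f801380f0023806c012203400560110026806c009842401140e4008006f0085021004600fc024c06c012a034005a0110028806c009822001440e400e6036006f01a002780880096e10016806c00580220025a82000901b0012d0080548008009c0020134000812bf03)))))) 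
(.nd (nat_lit 19) (.nd (nat_lit 7) 
(.lf (nat_lit 39848299) (dlOf (nat_lit 1) (nat_lit 0xc00291f4e81))) (.nd (nat_lit 18) 
(.lf (nat_lit 57674475) (dlOf (nat_lit 1) (nat_lit 0x20029795a01))) 
(.lf (nat_lit 40110827) (dlOf (nat_lit 1) (nat_lit 0x4004000200091f5a02))))) (.nd (nat_lit 13) 
(.nd (nat_lit 20) (.lf (nat_lit 40372971) (dlOf (nat_lit 1) (nat_lit 0x4004000200091f5a02))) 
(.lf (nat_lit 49810155) (dlOf (nat_lit 1) (nat_lit 0x1100080004002000800094c5a03)))) 
(.lf (nat_lit 49818347) (dlOf (nat_lit 1) (nat_lit 0x200194c5a01)))))) (.nd (nat_lit 30) 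
(.nd (nat_lit 27) (.nd (nat_lit 12) 
(.lf (nat_lit 20196587) (dlOf (nat_lit 2) (nat_lit 0xda2c001ed020003604000800189d6501))) 
(.lf (nat_lit 2952797419) (dlOf (nat_lit 1) (nat_lit 0x2001800c601)))) (.nd (nat_lit 8) 
(.lf (nat_lit 134221035) (dlOf (nat_lit 1) (nat_lit 0x20028006501))) 
(.lf (nat_lit 134221291) (dlOf (nat_lit 1) (nat_lit 0x580008006e81))))) (.nd (nat_lit 7) 
(.nd (nat_lit 8) (.lf (nat_lit 3489664107) (dlOf (nat_lit 1) (nat_lit 0x240028006081))) 
(.nd (nat_lit 13) (.lf (nat_lit 3489926507) (dlOf (nat_lit 1) (nat_lit 0x20028006b01))) 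
(.lf (nat_lit 3624152427) (dlOf (nat_lit 1) (nat_lit 0x20028146b01))))) (.nd (nat_lit 29) 
(.lf (nat_lit 1342180587) (dlOf (nat_lit 1) (nat_lit 0x400400120008006502))) 
(.lf (nat_lit 1879051499) (dlOf (nat_lit 2) (nat_lit 0xe04400019018006500))))))))) 
(.nd (nat_lit 27) (.nd (nat_lit 7) (.nd (nat_lit 18) (.nd (nat_lit 6) (.nd (nat_lit 19) 
(.nd (nat_lit 8) (.nd (nat_lit 9) 
(.lf (nat_lit 4362082347) (dlOf (nat_lit 1) (nat_lit 0x5c0020042000800a602))) 
(.lf (nat_lit 2751470123) (dlOf (nat_lit 1) (nat_lit 0x80040004000800b302)))) 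
(.lf (nat_lit 2752512299) (dlOf (nat_lit 1) (nat_lit 0x20018014601)))) (.nd (nat_lit 13) 
(.nd (nat_lit 20) (.lf (nat_lit 67633195) (dlOf (nat_lit 1) (nat_lit 0x2e00182b0781))) 
(.lf (nat_lit 2755133483) (dlOf (nat_lit 1) (nat_lit 0x20018110501)))) 
(.lf (nat_lit 1678254123) (dlOf (nat_lit 1) (nat_lit 0x200081c0a01))))) (.nd (nat_lit 32) 
(.nd (nat_lit 9) 
(.lf (nat_lit 2754619755) (dlOf (nat_lit 2) (nat_lit 0x3010006c4c0800480080034002000c00080f4e83))) 
(.nd (nat_lit 31) 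
(.lf (nat_lit 67109739) (dlOf (nat_lit 1) (nat_lit 0x10008000400200020008002583))) 
(.lf (nat_lit 2214593387) (dlOf (nat_lit 1) (nat_lit 0x400400020008002582))))) (.nd (nat_lit 8) 
(.lf (nat_lit 4362078315) (dlOf (nat_lit 1) (nat_lit 0x400400020008004702))) (.nd (nat_lit 13) 
(.lf (nat_lit 4362082667) (dlOf (nat_lit 1) (nat_lit 0x80040002001800ac02))) 
(.lf (nat_lit 4362090859) (dlOf (nat_lit 1) (nat_lit 0x80040002001800ac02))))))) (.nd (nat_lit 19) 
(.nd (nat_lit 28) (.nd (nat_lit 31) 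
(.lf (nat_lit 1677991979) (dlOf (nat_lit 1) (nat_lit 0x60028130601))) 
(.lf (nat_lit 3825475627) (dlOf (nat_lit 3) (nat_lit 0xa80800007404004403e000801b0006005800a001c0000010003c004000c0008160502)))) 
(.nd (nat_lit 6) (.nd (nat_lit 8) 
(.lf (nat_lit 2483298347) (dlOf (nat_lit 1) (nat_lit 0x2a80080004002026600080a0983))) 
(.lf (nat_lit 3557035819) (dlOf (nat_lit 1) (nat_lit 0x2800400020008127482)))) 
(.lf (nat_lit 2483298411) (dlOf (nat_lit 1) (nat_lit 0x1c004001200080a1482))))) (.nd (nat_lit 9) 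
(.nd (nat_lit 13) (.nd (nat_lit 20) 
(.lf (nat_lit 3557556267) (dlOf (nat_lit 2) (nat_lit 0x220340050e018260700))) 
(.lf (nat_lit 2755395627) (dlOf (nat_lit 1) (nat_lit 0x360028170601)))) 
(.lf (nat_lit 2754355243) (dlOf (nat_lit 1) (nat_lit 0x4004000200080e0602)))) (.nd (nat_lit 13) 
(.lf (nat_lit 67895851) (dlOf (nat_lit 1) (nat_lit 0x10c0018331481))) 
(.lf (nat_lit 67904043) (dlOf (nat_lit 1) (nat_lit 0x8002000c0008331482))))))) (.nd (nat_lit 8) 
(.nd (nat_lit 10) (.nd (nat_lit 31) (.nd (nat_lit 9) 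
(.lf (nat_lit 4362086635) (dlOf (nat_lit 3) (nat_lit 0x120000000580801a00000002a04013c002000c0008004b02))) 
(.nd (nat_lit 13) 
(.lf (nat_lit 6241127147) (dlOf (nat_lit 1) (nat_lit 0x8008001000200020008005a03))) 
(.lf (nat_lit 6241135339) (dlOf (nat_lit 1) (nat_lit 0x400400020008005a02))))) (.nd (nat_lit 9) 
(.lf (nat_lit 2751465707) (dlOf (nat_lit 1) (nat_lit 0x20008004b01))) (.nd (nat_lit 18) 
(.lf (nat_lit 4093651691) (dlOf (nat_lit 1) (nat_lit 0x20028005a01))) 
(.lf (nat_lit 4093913835) (dlOf (nat_lit 1) (nat_lit 0xc00400020008005a02)))))) (.nd (nat_lit 29) 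
(.nd (nat_lit 11) 
(.lf (nat_lit 67114219) (dlOf (nat_lit 2) (nat_lit 0xe0b60001059000cfc080058004006a0018009502))) 
(.nd (nat_lit 28) 
(.lf (nat_lit 3288337643) (dlOf (nat_lit 2) (nat_lit 0x806c000320200020018006501))) 
(.lf (nat_lit 1409289451) (dlOf (nat_lit 1) (nat_lit 0x400400040008006502))))) (.nd (nat_lit 6) 
(.lf (nat_lit 2751465131) (dlOf (nat_lit 1) (nat_lit 0x260028003a81))) (.nd (nat_lit 12) 
(.lf (nat_lit 2754620651) (dlOf (nat_lit 1) (nat_lit 0x8008000c002000400080f6503))) 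
(.lf (nat_lit 603987179) (dlOf (nat_lit 1) (nat_lit 0x1000800040020002000800c603))))))) 
(.nd (nat_lit 10) (.nd (nat_lit 6) (.nd (nat_lit 12) 
(.lf (nat_lit 2752512427) (dlOf (nat_lit 1) (nat_lit 0xc002000a0008017182))) (.nd (nat_lit 13) 
(.lf (nat_lit 67113387) (dlOf (nat_lit 1) (nat_lit 0xe000400260008008482))) 
(.lf (nat_lit 67121579) (dlOf (nat_lit 1) (nat_lit 0x140008008481))))) (.nd (nat_lit 9) 
(.lf (nat_lit 3288596971) (dlOf (nat_lit 8) (nat_lit 0x400d8005006400120240000a83000801b0000500800080d80002604001006c000e0340000282000801b000400d00000808000406800003020008036000401a0000081000f000800d000200100008090d03))) 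
(.nd (nat_lit 19) 
(.lf (nat_lit 1140851691) (dlOf (nat_lit 1) (nat_lit 0x8008000400200020008002883))) 
(.lf (nat_lit 2751988715) (dlOf (nat_lit 1) (nat_lit 0x400200020008002882)))))) (.nd (nat_lit 30) 
(.nd (nat_lit 6) 
(.lf (nat_lit 2751997867) (dlOf (nat_lit 1) (nat_lit 0x8008000400200020008004303))) 
(.nd (nat_lit 13) 
(.lf (nat_lit 2483031531) (dlOf (nat_lit 2) (nat_lit 0x40000000b0200040018006e81))) 
(.lf (nat_lit 2754620907) (dlOf (nat_lit 1) (nat_lit 0x7c80080148002026000080f6e83))))) 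
(.nd (nat_lit 6) 
(.lf (nat_lit 3557045675) (dlOf (nat_lit 16) (nat_lit 0xda0720017030001900fc014b60c015c0e4006803f0052d020074039001300fc014b20801f408c00ee01c00528820071023003200700149e0801880e40106046002501f803e80700148c1001880e40126046003001f804600700148a1001dc0e40120046003001f80450070014781001fc08c00de01c0051d02006b023003780700147208000c0de0110049008e024004a808401f004000a340a010c0490095024004b808401ec04000a3308000806f008602480468120024404200f20200051505008d024804a0120024404200f802000514040002024000600800144e08024400400a60018129902))) 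
(.nd (nat_lit 13) (.lf (nat_lit 1409289707) (dlOf (nat_lit 1) (nat_lit 0x300028006e81))) 
(.lf (nat_lit 1409297899) (dlOf (nat_lit 1) (nat_lit 0x1020028006e81))))))))) (.nd (nat_lit 11) 
(.nd (nat_lit 31) (.nd (nat_lit 6) (.nd (nat_lit 13) (.nd (nat_lit 18) (.nd (nat_lit 29) 
(.lf (nat_lit 201850923) (dlOf (nat_lit 2) (nat_lit 0x23403b000390180a0980))) 
(.lf (nat_lit 738721835) (dlOf (nat_lit 4) (nat_lit 0x2204f0001201000c02780008c0800a814c007809e0026021001500e8000002000400080008002000600080f0d03)))) 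
(.nd (nat_lit 19) (.lf (nat_lit 1543766059) (dlOf (nat_lit 1) (nat_lit 0xc0028160501))) 
(.lf (nat_lit 471597099) (dlOf (nat_lit 2) (nat_lit 0x705940011404000c00200060008350782))))) 
(.nd (nat_lit 19) 
(.lf (nat_lit 1543774251) (dlOf (nat_lit 2) (nat_lit 0x808c00000040008002000e0008160502))) 
(.lf (nat_lit 471605291) (dlOf (nat_lit 2) (nat_lit 0xa82c4000f8040028002000a0008350782))))) 
(.nd (nat_lit 7) (.nd (nat_lit 22) 
(.lf (nat_lit 201850987) (dlOf (nat_lit 1) (nat_lit 0x380080044002001600080a1483))) 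
(.lf (nat_lit 474480747) (dlOf (nat_lit 1) (nat_lit 0x160019171b01)))) (.nd (nat_lit 9) 
(.nd (nat_lit 13) (.lf (nat_lit 6375867883) (dlOf (nat_lit 1) (nat_lit 0x400200020008003602))) 
(.lf (nat_lit 474228203) (dlOf (nat_lit 1) (nat_lit 0x1200190e3601)))) 
(.lf (nat_lit 469767147) (dlOf (nat_lit 1) (nat_lit 0x760028009201)))))) (.nd (nat_lit 28) 
(.nd (nat_lit 9) (.nd (nat_lit 6) (.nd (nat_lit 7) 
(.lf (nat_lit 2349080619) (dlOf (nat_lit 1) (nat_lit 0x2a80080004002026600080a0983))) 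
(.lf (nat_lit 3422557355) (dlOf (nat_lit 1) (nat_lit 0x8008000400200040008009503)))) 
(.lf (nat_lit 2349080683) (dlOf (nat_lit 1) (nat_lit 0x1c004001200080a1482)))) (.nd (nat_lit 7) 
(.nd (nat_lit 8) 
(.lf (nat_lit 6643778155) (dlOf (nat_lit 2) (nat_lit 0x3011800080800006c08000400200060008001802))) 
(.lf (nat_lit 6643778411) (dlOf (nat_lit 1) (nat_lit 0x8008009000200380008002583)))) 
(.lf (nat_lit 3422552811) (dlOf (nat_lit 1) (nat_lit 0x80080100002004c0008002103))))) 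
(.nd (nat_lit 12) (.nd (nat_lit 13) (.nd (nat_lit 18) 
(.lf (nat_lit 3154640939) (dlOf (nat_lit 3) (nat_lit 0x18144000c04800060160005f83000102c0003011800114080038004004800182f0782))) 
(.lf (nat_lit 3691249707) (dlOf (nat_lit 2) (nat_lit 0x10110001500800580080010002000800080e0803)))) 
(.nd (nat_lit 18) 
(.lf (nat_lit 3154649131) (dlOf (nat_lit 1) (nat_lit 0x100008006400200060008300903))) 
(.lf (nat_lit 3691257899) (dlOf (nat_lit 2) (nat_lit 0x39003000000080028008002c002000a0008100703))))) 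
(.nd (nat_lit 6) (.nd (nat_lit 7) 
(.lf (nat_lit 3690991659) (dlOf (nat_lit 1) (nat_lit 0x60008007b81))) 
(.lf (nat_lit 3690993067) (dlOf (nat_lit 2) (nat_lit 0xb00d80296c0800e8008000c00200060008009903)))) 
(.lf (nat_lit 3690992747) (dlOf (nat_lit 1) (nat_lit 0xb8008004000200340008009403))))))) 
(.nd (nat_lit 7) (.nd (nat_lit 29) (.nd (nat_lit 12) (.nd (nat_lit 6) 
(.lf (nat_lit 5570300715) (dlOf (nat_lit 1) (nat_lit 0x300080074002000e00080d5c03))) 
(.lf (nat_lit 469764203) (dlOf (nat_lit 1) (nat_lit 0x400400020008004702)))) (.nd (nat_lit 28) 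
(.nd (nat_lit 31) 
(.lf (nat_lit 201332779) (dlOf (nat_lit 1) (nat_lit 0x800800040020002000800a603))) 
(.lf (nat_lit 2348816427) (dlOf (nat_lit 1) (nat_lit 0xc0020008000800a602)))) 
(.lf (nat_lit 469768235) (dlOf (nat_lit 1) (nat_lit 0x7800800c00020042000800a603))))) 
(.nd (nat_lit 6) (.nd (nat_lit 8) (.nd (nat_lit 9) 
(.lf (nat_lit 1006639147) (dlOf (nat_lit 1) (nat_lit 0x2800800a0002002e000800a603))) 
(.lf (nat_lit 3959426603) (dlOf (nat_lit 1) (nat_lit 0x40028007181)))) 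
(.lf (nat_lit 738462507) (dlOf (nat_lit 1) (nat_lit 0xe0028095c01)))) (.nd (nat_lit 9) 
(.lf (nat_lit 1006635115) (dlOf (nat_lit 1) (nat_lit 0x400400020008004702))) 
(.lf (nat_lit 2885693035) (dlOf (nat_lit 1) (nat_lit 0x860008007181)))))) (.nd (nat_lit 6) 
(.nd (nat_lit 8) (.nd (nat_lit 9) 
(.lf (nat_lit 2885696683) (dlOf (nat_lit 1) (nat_lit 0x84001800c201))) (.nd (nat_lit 13) 
(.lf (nat_lit 6376131243) (dlOf (nat_lit 1) (nat_lit 0x400400020008095682))) 
(.lf (nat_lit 5033175723) (dlOf (nat_lit 1) (nat_lit 0x400400020008005682))))) (.nd (nat_lit 29) 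
(.lf (nat_lit 1275079083) (dlOf (nat_lit 2) (nat_lit 0x8050019da0400a8004005a0018004e82))) 
(.lf (nat_lit 3959433643) (dlOf (nat_lit 1) (nat_lit 0x40008004e81))))) (.nd (nat_lit 32) 
(.nd (nat_lit 8) (.nd (nat_lit 9) 
(.lf (nat_lit 1006640363) (dlOf (nat_lit 1) (nat_lit 0x800800040020002000800c603))) 
(.lf (nat_lit 4227862251) (dlOf (nat_lit 1) (nat_lit 0x20018007401)))) 
(.lf (nat_lit 469769195) (dlOf (nat_lit 2) (nat_lit 0x202c2001209d0025a02800bf00)))) 
(.nd (nat_lit 13) (.nd (nat_lit 18) 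
(.lf (nat_lit 5570038507) (dlOf (nat_lit 1) (nat_lit 0x400200040008005a02))) 
(.lf (nat_lit 6377704171) (dlOf (nat_lit 1) (nat_lit 0x200280e5a01)))) 
(.lf (nat_lit 6377450219) (dlOf (nat_lit 1) (nat_lit 0x1400280e5a01))))))))))) (.nd (nat_lit 13) 
(.nd (nat_lit 5) (.nd (nat_lit 6) (.nd (nat_lit 18) (.nd (nat_lit 26) (.nd (nat_lit 19) 
(.nd (nat_lit 7) (.nd (nat_lit 21) (.nd (nat_lit 10) 
(.lf (nat_lit 3490742283) (dlOf (nat_lit 1) (nat_lit 0x4800400420008020482))) 
(.lf (nat_lit 5502960651) (dlOf (nat_lit 2) (nat_lit 0x18013003f7818002880)))) (.nd (nat_lit 8) 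
(.lf (nat_lit 28344331) (dlOf (nat_lit 1) (nat_lit 0xc00400220008d80282))) 
(.lf (nat_lit 19955979) (dlOf (nat_lit 1) (nat_lit 0x4002000200089d0a82))))) (.nd (nat_lit 10) 
(.nd (nat_lit 8) (.nd (nat_lit 11) 
(.lf (nat_lit 24150155) (dlOf (nat_lit 1) (nat_lit 0x20008000c00200040008b80103))) 
(.lf (nat_lit 3623913611) (dlOf (nat_lit 1) (nat_lit 0x380028004801)))) 
(.lf (nat_lit 2818607499) (dlOf (nat_lit 1) (nat_lit 0x2800800a000200160008004e83)))) 
(.nd (nat_lit 11) (.lf (nat_lit 3355481227) (dlOf (nat_lit 1) (nat_lit 0x7000400140008009502))) 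
(.lf (nat_lit 134253707) (dlOf (nat_lit 3) (nat_lit 0x6000000118100050000000880800a00080018002008e0008006183)))))) 
(.nd (nat_lit 21) (.nd (nat_lit 22) (.nd (nat_lit 20) (.nd (nat_lit 27) 
(.lf (nat_lit 805863435) (dlOf (nat_lit 3) (nat_lit 0x3802d0007d0100010168003c40802f80080040002007400081d0083))) 
(.lf (nat_lit 3624435723) (dlOf (nat_lit 4) (nat_lit 0x2808a0062040008b01b008e006c0328028003000900d4000000758380180100022406c002e01b009700a000580240348000001d30c0386040002a01c810e80d8002006801fc026004000c80ea0050069c01203480050119000000730500110008000c002009c00081a0483)))) 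
(.lf (nat_lit 9994251) (dlOf (nat_lit 2) (nat_lit 0x5a3b0001d1c8001e77000fa00c0024004001200085a0a02)))) 
(.nd (nat_lit 24) (.lf (nat_lit 4751371) (dlOf (nat_lit 1) (nat_lit 0x80080004002000400082b0003))) 
(.lf (nat_lit 55083019) (dlOf (nat_lit 2) (nat_lit 0x89600015902001200096a0081))))) 
(.nd (nat_lit 23) (.nd (nat_lit 24) 
(.lf (nat_lit 2654219) (dlOf (nat_lit 1) (nat_lit 0xa0008180081))) 
(.lf (nat_lit 19431435) (dlOf (nat_lit 1) (nat_lit 0x80080004002000200089a0603)))) 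
(.nd (nat_lit 22) 
(.lf (nat_lit 11042827) (dlOf (nat_lit 3) (nat_lit 0xd4a80006251c0034f9e002a757000ac8400123ab80056008005000800d400200760008660083))) 
(.lf (nat_lit 15237131) (dlOf (nat_lit 2) (nat_lit 0x1b0bea00bcf02000200087c0481))))))) 
(.nd (nat_lit 11) (.nd (nat_lit 19) (.nd (nat_lit 27) (.nd (nat_lit 29) 
(.lf (nat_lit 68190219) (dlOf (nat_lit 1) (nat_lit 0x6c002002e0008450482))) 
(.lf (nat_lit 2752544779) (dlOf (nat_lit 1) (nat_lit 0x4800400420008020482)))) (.nd (nat_lit 7) 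
(.lf (nat_lit 470843403) (dlOf (nat_lit 5) (nat_lit 0x11c35000bd402014620602370d4009b00000179e0c04d835000bce020044099005db8181c0480))) 
(.lf (nat_lit 2617284235) (dlOf (nat_lit 6) (nat_lit 0x30014001800800020000003b83000100280010000000e208000800a0007002000a00500030810003002800180000000008002c00400260018009e02))))) 
(.nd (nat_lit 27) (.nd (nat_lit 28) 
(.lf (nat_lit 1678278667) (dlOf (nat_lit 3) (nat_lit 0x3802d000368100010168001900802f80080040002007400081d0083))) 
(.lf (nat_lit 3557326859) (dlOf (nat_lit 27) (nat_lit 0x3e0120015e80801900fc00a4604018007e0051f02008803f0024d01000401f8012480806e80fc008180401a007e0040902002e03f001f701004101f800fac0801600fc007d20400b007e003e802005a03f001f381000501f800f5c0805e8000003e60400c407e001b6020d06072007201f800080e00035e0c00c807e001ad02072c072004201f800634100fe01c800318040c380e40018902005a03f000b701003801f8005a00801c80fc0002204015007e0000e02001603f000060100f9039014580e000c0044001401b000000481c0480))))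 
(.lf (nat_lit 2886238219) (dlOf (nat_lit 4) (nat_lit 0x280880062040008b01b008e00680328026003000900d4000000514380180100022406c002e01a0097009800580240348000001420c0386040002a01c810e80d8002006801fc02b004000f00ea004c069c012034800501190000004ec500110008000c002009c00081a0483))))) 
(.nd (nat_lit 9) (.nd (nat_lit 8) (.nd (nat_lit 12) 
(.lf (nat_lit 1543538699) (dlOf (nat_lit 3) (nat_lit 0xb00130044807402a803000bc010003800480510014024c004012a0000002c0800a20130003808c0018040014201d00a100c004c004000200120138005009e00100470000000ae28003800401500018004702))) 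
(.lf (nat_lit 201365515) (dlOf (nat_lit 2) (nat_lit 0x203f0050a81800a600)))) (.nd (nat_lit 7) 
(.lf (nat_lit 2483064075) (dlOf (nat_lit 1) (nat_lit 0x60018006681))) 
(.lf (nat_lit 2483064203) (dlOf (nat_lit 1) (nat_lit 0x40008006c81))))) (.nd (nat_lit 12) 
(.nd (nat_lit 7) 
(.lf (nat_lit 3691024139) (dlOf (nat_lit 1) (nat_lit 0xf00080078002003a0008007483))) 
(.lf (nat_lit 5167418251) (dlOf (nat_lit 1) (nat_lit 0x400400020008055c82)))) (.nd (nat_lit 8) 
(.lf (nat_lit 201366027) (dlOf (nat_lit 2) (nat_lit 0x8700000304c08005800804c40020002000800b283))) 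
(.lf (nat_lit 469801739) (dlOf (nat_lit 1) (nat_lit 0x80040018001800b982)))))))) (.nd (nat_lit 19) 
(.nd (nat_lit 29) (.nd (nat_lit 31) (.nd (nat_lit 7) (.nd (nat_lit 20) 
(.lf (nat_lit 44335115) (dlOf (nat_lit 5) (nat_lit 0x10c5e0008902000862f0004181000330a0001e8080019850000c804000c004001200092f0082))) 
(.nd (nat_lit 22) (.lf (nat_lit 26509323) (dlOf (nat_lit 1) (nat_lit 0x8008000400200020008c50003))) 
(.lf (nat_lit 30703627) (dlOf (nat_lit 1) (nat_lit 0x1400200080008e40502))))) (.nd (nat_lit 9) 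
(.lf (nat_lit 297099) (dlOf (nat_lit 1) (nat_lit 0x400400020008004802))) 
(.lf (nat_lit 52725387) (dlOf (nat_lit 1) (nat_lit 0x18008000800200060009573a03))))) 
(.nd (nat_lit 26) (.nd (nat_lit 8) (.nd (nat_lit 22) 
(.lf (nat_lit 6442745867) (dlOf (nat_lit 1) (nat_lit 0x9a00081b0001))) 
(.lf (nat_lit 3494150155) (dlOf (nat_lit 5) (nat_lit 0xa216000610a80048850002440000564080002216000310a8002885000104000056308000e216000410a80048850002840000561080006216000410a8004085000184000055f08000600081c0681)))) 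
(.lf (nat_lit 6442746123) (dlOf (nat_lit 1) (nat_lit 0x80080020002000800081b0483)))) 
(.nd (nat_lit 28) 
(.lf (nat_lit 3422846987) (dlOf (nat_lit 3) (nat_lit 0x6806a002e02e00160138005501800580d4002a6040060002000e0008120082))) 
(.lf (nat_lit 2617540619) (dlOf (nat_lit 3) (nat_lit 0x602f000150100030170000a0080178008008c002001200080e0103)))))) 
(.nd (nat_lit 26) (.nd (nat_lit 8) (.nd (nat_lit 27) 
(.lf (nat_lit 3758391307) (dlOf (nat_lit 1) (nat_lit 0x20028170001))) 
(.lf (nat_lit 3087302667) (dlOf (nat_lit 1) (nat_lit 0x800400040008170482)))) 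
(.lf (nat_lit 537166091) (dlOf (nat_lit 1) (nat_lit 0xa0018047d01)))) (.nd (nat_lit 7) 
(.nd (nat_lit 22) (.nd (nat_lit 28) 
(.lf (nat_lit 3825500171) (dlOf (nat_lit 1) (nat_lit 0x800400040008170482))) 
(.lf (nat_lit 3020193803) (dlOf (nat_lit 2) (nat_lit 0x803000685818150000)))) 
(.lf (nat_lit 2755952651) (dlOf (nat_lit 5) (nat_lit 0xa22b0006115000488a4002442a00adf08000222b0003115000288a4001042a00ade08000e22b0004115000488a4002842a00adc08000622b0004115000408a4001842a00ada08000600081c0681)))) 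
(.nd (nat_lit 8) (.lf (nat_lit 6376688267) (dlOf (nat_lit 1) (nat_lit 0x400200020008095482))) 
(.lf (nat_lit 2754906507) (dlOf (nat_lit 1) (nat_lit 0x200180f4e81))))))) (.nd (nat_lit 7) 
(.nd (nat_lit 20) (.nd (nat_lit 26) (.nd (nat_lit 27) 
(.lf (nat_lit 1342996491) (dlOf (nat_lit 1) (nat_lit 0x20008130481))) 
(.lf (nat_lit 2819391499) (dlOf (nat_lit 1) (nat_lit 0x18008001c00200020008250103)))) 
(.lf (nat_lit 470581259) (dlOf (nat_lit 1) (nat_lit 0x20008130481)))) (.nd (nat_lit 21) 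
(.nd (nat_lit 23) (.lf (nat_lit 471629835) (dlOf (nat_lit 1) (nat_lit 0x1400200020008360282))) 
(.lf (nat_lit 27033611) (dlOf (nat_lit 2) (nat_lit 0x1e847400c78040004004000e0008ca0482)))) 
(.nd (nat_lit 22) 
(.lf (nat_lit 45907979) (dlOf (nat_lit 2) (nat_lit 0x50c90033b00800180080008002001a0009360003))) 
(.lf (nat_lit 24936459) (dlOf (nat_lit 1) (nat_lit 0x20002000c0008bd0a02)))))) (.nd (nat_lit 8) 
(.nd (nat_lit 10) (.nd (nat_lit 20) 
(.lf (nat_lit 23888011) (dlOf (nat_lit 1) (nat_lit 0x2000200020008b80102))) 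
(.lf (nat_lit 12353675) (dlOf (nat_lit 1) (nat_lit 0x10002000200086c0102)))) 
(.lf (nat_lit 19698827) (dlOf (nat_lit 1) (nat_lit 0x4004000200189d9502)))) (.nd (nat_lit 9) 
(.nd (nat_lit 20) 
(.lf (nat_lit 5772181899) (dlOf (nat_lit 2) (nat_lit 0x1005c0008d0200160008091001))) 
(.lf (nat_lit 8159627) (dlOf (nat_lit 1) (nat_lit 0x400200020008511002)))) 
(.lf (nat_lit 54299531) (dlOf (nat_lit 1) (nat_lit 0x400400020009655c82)))))))) (.nd (nat_lit 19) 
(.nd (nat_lit 10) (.nd (nat_lit 30) (.nd (nat_lit 18) (.nd (nat_lit 20) (.nd (nat_lit 22) 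
(.lf (nat_lit 4563435595) (dlOf (nat_lit 1) (nat_lit 0x80028000001))) 
(.lf (nat_lit 37781579) (dlOf (nat_lit 1) (nat_lit 0x4600190d0001)))) (.nd (nat_lit 7) 
(.nd (nat_lit 8) (.lf (nat_lit 43024459) (dlOf (nat_lit 1) (nat_lit 0xa00292a0001))) 
(.lf (nat_lit 3178827) (dlOf (nat_lit 1) (nat_lit 0x8008002000200020008200603)))) 
(.lf (nat_lit 1081547) (dlOf (nat_lit 1) (nat_lit 0x260028065a81))))) (.nd (nat_lit 9) 
(.nd (nat_lit 20) 
(.lf (nat_lit 3020193867) (dlOf (nat_lit 12) (nat_lit 0x1180600003702008c0300001b010045018000500880006a08011c0600003202008c0300000d8100460180000680802300c0000320401040600001702008c0300000a0100030188000480801300c00000004007000200280008150682))) 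
(.lf (nat_lit 24412235) (dlOf (nat_lit 1) (nat_lit 0x8008000400200020008b90f03)))) (.nd (nat_lit 7) 
(.lf (nat_lit 4899244875) (dlOf (nat_lit 1) (nat_lit 0x4002000200080d5c02))) 
(.lf (nat_lit 20222667) (dlOf (nat_lit 1) (nat_lit 0x4002000200089d8c82)))))) (.nd (nat_lit 12) 
(.nd (nat_lit 18) (.nd (nat_lit 7) 
(.lf (nat_lit 3355476043) (dlOf (nat_lit 2) (nat_lit 0x602e00c46818000000))) 
(.lf (nat_lit 3493888203) (dlOf (nat_lit 2) (nat_lit 0x361fc000e28181b0480)))) (.nd (nat_lit 8) 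
(.lf (nat_lit 3959718475) (dlOf (nat_lit 6) (nat_lit 0x1803e01a4007000b0030000460c05a401c000220201f600e0130000000078100ba80380003804050c01c0001b0202b00018128d01))) 
(.lf (nat_lit 1409581387) (dlOf (nat_lit 1) (nat_lit 0xc0008048001))))) (.nd (nat_lit 26) 
(.nd (nat_lit 27) (.lf (nat_lit 1879085771) (dlOf (nat_lit 1) (nat_lit 0x800200020008008c82))) 
(.lf (nat_lit 1476432587) (dlOf (nat_lit 1) (nat_lit 0x8008000400200020008008c83)))) 
(.nd (nat_lit 8) (.lf (nat_lit 3557069515) (dlOf (nat_lit 1) (nat_lit 0x800200020008128c82))) 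
(.lf (nat_lit 1677761483) (dlOf (nat_lit 1) (nat_lit 0x40040004001800be82))))))) (.nd (nat_lit 12) 
(.nd (nat_lit 7) (.nd (nat_lit 11) (.nd (nat_lit 8) 
(.lf (nat_lit 2751497291) (dlOf (nat_lit 1) (nat_lit 0x68008000400200020008002883))) 
(.lf (nat_lit 2415953739) (dlOf (nat_lit 1) (nat_lit 0x20008000800200060008003e83)))) 
(.nd (nat_lit 27) (.lf (nat_lit 298315) (dlOf (nat_lit 1) (nat_lit 0x20028006a01))) 
(.lf (nat_lit 3624176971) (dlOf (nat_lit 1) (nat_lit 0x740028146a01))))) (.nd (nat_lit 8) 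
(.nd (nat_lit 9) 
(.lf (nat_lit 134253771) (dlOf (nat_lit 2) (nat_lit 0x80000001a04001400200ec0008006402))) 
(.lf (nat_lit 2754645707) (dlOf (nat_lit 1) (nat_lit 0x4004000200180f7302)))) 
(.lf (nat_lit 268469707) (dlOf (nat_lit 1) (nat_lit 0x20028053601))))) (.nd (nat_lit 7) 
(.nd (nat_lit 28) (.nd (nat_lit 18) 
(.lf (nat_lit 604017739) (dlOf (nat_lit 1) (nat_lit 0x3c00200620008009302))) 
(.lf (nat_lit 2818872395) (dlOf (nat_lit 5) (nat_lit 0x1003001f80000004808002c014002a006000f002001680000004410000c00c006c00000010020001003001100000003a08037000200020008129302)))) 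
(.nd (nat_lit 8) 
(.lf (nat_lit 2952827979) (dlOf (nat_lit 5) (nat_lit 0x5480b403280000002f04015c02d00c90000000b41006a00b40005604034805a0002a0200520028009301))) 
(.lf (nat_lit 2952828235) (dlOf (nat_lit 1) (nat_lit 0x160028009901))))) (.nd (nat_lit 8) 
(.nd (nat_lit 27) 
(.lf (nat_lit 67146955) (dlOf (nat_lit 2) (nat_lit 0x340820067c02000e0008009501))) 
(.lf (nat_lit 6643815627) (dlOf (nat_lit 2) (nat_lit 0x580bc00cce040004004001c0008009502)))) 
(.lf (nat_lit 469800395) (dlOf (nat_lit 1) (nat_lit 0xac004001a0008009a82))))))) (.nd (nat_lit 18) 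
(.nd (nat_lit 26) (.nd (nat_lit 22) (.nd (nat_lit 7) (.nd (nat_lit 8) 
(.lf (nat_lit 3493363787) (dlOf (nat_lit 2) (nat_lit 0x380d0001604200005828120f80))) 
(.lf (nat_lit 1074299211) (dlOf (nat_lit 11) (nat_lit 0x2601e8001500801680f4000a604008007a0005202004003d000288100d600000012c0807e8000000940403580000004902012e0000002401006a0000000fc0801000f4000780403d8002059000081b0602)))) 
(.lf (nat_lit 1074299083) (dlOf (nat_lit 2) (nat_lit 0x1d01e8007340800080080140002001000081b0483)))) 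
(.nd (nat_lit 9) (.nd (nat_lit 24) 
(.lf (nat_lit 3494412363) (dlOf (nat_lit 2) (nat_lit 0x3b034001d810800ec046007601e003b00b801d8020000541800b000400540008220d02))) 
(.lf (nat_lit 21528651) (dlOf (nat_lit 1) (nat_lit 0x800400060008a40502)))) 
(.lf (nat_lit 41454155) (dlOf (nat_lit 1) (nat_lit 0x20019245281))))) (.nd (nat_lit 21) 
(.nd (nat_lit 7) (.nd (nat_lit 8) 
(.lf (nat_lit 2756214859) (dlOf (nat_lit 2) (nat_lit 0x3b034001d810800ec046007601e003b00b801d8020000561800b000400540008220d02))) 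
(.lf (nat_lit 1946714443) (dlOf (nat_lit 11) (nat_lit 0x2601f00016c0801680f8000b404008007c0005902004003e0002c0100d60000001480807e8000000a20403580000005002012e0000002781006a0000001180801000f8000860403d8002059000081b0602)))) 
(.lf (nat_lit 1946714315) (dlOf (nat_lit 2) (nat_lit 0x1d01f0007340800080080140002001000081b0483)))) 
(.nd (nat_lit 20) (.nd (nat_lit 27) 
(.lf (nat_lit 2754117707) (dlOf (nat_lit 2) (nat_lit 0x41088000000800300080004002001800080c1883))) 
(.lf (nat_lit 472416331) (dlOf (nat_lit 1) (nat_lit 0x800400020008980002)))) 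
(.lf (nat_lit 2755166283) (dlOf (nat_lit 2) (nat_lit 0x380d0001604200005828120f80)))))) 
(.nd (nat_lit 7) (.nd (nat_lit 20) (.nd (nat_lit 21) 
(.lf (nat_lit 9207883) (dlOf (nat_lit 1) (nat_lit 0x20028530601))) 
(.lf (nat_lit 49053771) (dlOf (nat_lit 1) (nat_lit 0x400400020009460002)))) (.nd (nat_lit 21) 
(.lf (nat_lit 10256459) (dlOf (nat_lit 1) (nat_lit 0x4004000200085c0f82))) 
(.lf (nat_lit 45908043) (dlOf (nat_lit 1) (nat_lit 0x400400020009360602))))) (.nd (nat_lit 26) 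
(.nd (nat_lit 8) (.lf (nat_lit 14450891) (dlOf (nat_lit 1) (nat_lit 0x40008003800200100008750483))) 
(.lf (nat_lit 36471755) (dlOf (nat_lit 1) (nat_lit 0x400400040019072882)))) (.nd (nat_lit 27) 
(.lf (nat_lit 4362895819) (dlOf (nat_lit 1) (nat_lit 0x4002000200081a0982))) 
(.lf (nat_lit 4228678091) (dlOf (nat_lit 1) (nat_lit 0x4002000200081a0982))))))))) 
(.nd (nat_lit 31) (.nd (nat_lit 21) (.nd (nat_lit 27) (.nd (nat_lit 6) (.nd (nat_lit 18) 
(.nd (nat_lit 8) (.nd (nat_lit 20) 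
(.lf (nat_lit 537428011) (dlOf (nat_lit 2) (nat_lit 0xe0817000d3804007800400640008090002))) 
(.lf (nat_lit 30965803) (dlOf (nat_lit 1) (nat_lit 0x400400020018e50b02)))) 
(.lf (nat_lit 536906027) (dlOf (nat_lit 1) (nat_lit 0x60018004b81)))) (.nd (nat_lit 19) 
(.nd (nat_lit 20) 
(.lf (nat_lit 1879343147) (dlOf (nat_lit 2) (nat_lit 0xc02a8036380800680080040002004000080e0a03))) 
(.lf (nat_lit 30703659) (dlOf (nat_lit 5) (nat_lit 0x75ac00039010004c8d800456b0000de08000eb580006e02005591c0187ad6800551a4000000c008800400120008e40e02)))) 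
(.nd (nat_lit 22) (.lf (nat_lit 18645035) (dlOf (nat_lit 1) (nat_lit 0x8008000400200020008960903))) 
(.lf (nat_lit 22839339) (dlOf (nat_lit 1) (nat_lit 0x20008b30601)))))) (.nd (nat_lit 7) 
(.nd (nat_lit 8) (.nd (nat_lit 9) 
(.lf (nat_lit 33849451) (dlOf (nat_lit 1) (nat_lit 0x80008f61b01))) 
(.lf (nat_lit 604017259) (dlOf (nat_lit 1) (nat_lit 0x8008008000200300008008983)))) 
(.lf (nat_lit 25461099) (dlOf (nat_lit 1) (nat_lit 0x2f0008013800200020008c10a03)))) 
(.nd (nat_lit 8) 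
(.lf (nat_lit 5972724971) (dlOf (nat_lit 2) (nat_lit 0x130000000640400dc00200180008006502))) 
(.nd (nat_lit 9) 
(.lf (nat_lit 1409322475) (dlOf (nat_lit 4) (nat_lit 0x20000000681000d0290000300800080000000004000800200140008006e82))) 
(.lf (nat_lit 604019691) (dlOf (nat_lit 3) (nat_lit 0xe00c0007005806ac022001a010000f007800700380028004001a0010026108000f00c0007805806b80220012010000d007800680380044006000a002000c00080008000009822806d00040a4e000800bf02))))))) 
(.nd (nat_lit 8) (.nd (nat_lit 18) (.nd (nat_lit 6) 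
(.lf (nat_lit 134774827) (dlOf (nat_lit 1) (nat_lit 0x600180b0e01))) (.nd (nat_lit 7) 
(.lf (nat_lit 134253675) (dlOf (nat_lit 1) (nat_lit 0x240018006081))) 
(.lf (nat_lit 469797099) (dlOf (nat_lit 1) (nat_lit 0xa0018004b01))))) (.nd (nat_lit 19) 
(.nd (nat_lit 26) (.lf (nat_lit 1208254507) (dlOf (nat_lit 1) (nat_lit 0x20002000400080b0402))) 
(.lf (nat_lit 2080669739) (dlOf (nat_lit 1) (nat_lit 0x20002000400080b0402)))) 
(.lf (nat_lit 471629867) (dlOf (nat_lit 2) (nat_lit 0x310e8000b80800080080020002000c0008360903))))) 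
(.nd (nat_lit 7) (.nd (nat_lit 19) 
(.lf (nat_lit 473989419) (dlOf (nat_lit 1) (nat_lit 0x400400040009000b02))) 
(.lf (nat_lit 470319403) (dlOf (nat_lit 1) (nat_lit 0x380080120002002000080c0503)))) 
(.nd (nat_lit 9) (.nd (nat_lit 11) 
(.lf (nat_lit 1476433323) (dlOf (nat_lit 1) (nat_lit 0xbc002001c0008009902))) 
(.lf (nat_lit 134253995) (dlOf (nat_lit 2) (nat_lit 0x14000000e00200460008006d01)))) 
(.lf (nat_lit 671128491) (dlOf (nat_lit 1) (nat_lit 0x2000800bd81))))))) (.nd (nat_lit 19) 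
(.nd (nat_lit 18) (.nd (nat_lit 23) (.nd (nat_lit 6) (.nd (nat_lit 22) 
(.lf (nat_lit 471892011) (dlOf (nat_lit 1) (nat_lit 0x4002000200086b0002))) 
(.lf (nat_lit 23101483) (dlOf (nat_lit 1) (nat_lit 0x20018b50601)))) 
(.lf (nat_lit 19959275) (dlOf (nat_lit 2) (nat_lit 0xca6d000038189d6e80)))) (.nd (nat_lit 20) 
(.nd (nat_lit 22) (.lf (nat_lit 27295787) (dlOf (nat_lit 1) (nat_lit 0x12a0028cd0801))) 
(.lf (nat_lit 14712875) (dlOf (nat_lit 5) (nat_lit 0x48000000320200a60000001881000ea9600075424003a906001c32d00100000000bc2800680000005c04013800200b20008770382)))) 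
(.lf (nat_lit 28344363) (dlOf (nat_lit 2) (nat_lit 0xea7d000951980021c1001280080004002000a0008d80783))))) 
(.nd (nat_lit 8) (.nd (nat_lit 9) (.nd (nat_lit 20) 
(.lf (nat_lit 27557931) (dlOf (nat_lit 1) (nat_lit 0x400200020008d00802))) 
(.lf (nat_lit 24412203) (dlOf (nat_lit 2) (nat_lit 0xb5de8003f8080040008000400200040008b90983)))) 
(.lf (nat_lit 23364139) (dlOf (nat_lit 1) (nat_lit 0x4c002000e0008b80e82)))) (.nd (nat_lit 6) 
(.lf (nat_lit 20220715) (dlOf (nat_lit 1) (nat_lit 0x4002000200089d5c02))) (.nd (nat_lit 20) 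
(.lf (nat_lit 2392427) (dlOf (nat_lit 1) (nat_lit 0x40008150701))) 
(.lf (nat_lit 3441003) (dlOf (nat_lit 2) (nat_lit 0x19d140002404007800200060008200702))))))) 
(.nd (nat_lit 20) (.nd (nat_lit 18) (.nd (nat_lit 23) (.nd (nat_lit 6) 
(.lf (nat_lit 2654251) (dlOf (nat_lit 7) (nat_lit 0x40a5d000a52a0006a94c000d47e0004a3e000e516000728ac001c61c003d4a8000e2020002a5e000252e0002a95000054a40002a3d00085158001ec30004a970001d4a40016a3d00065158001e820003a97000314a40014a3d000a5158001e420003a970001d4a40014a3d000a5158001e0200090008000c00200060008180b03))) 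
(.lf (nat_lit 69764587) (dlOf (nat_lit 1) (nat_lit 0x400400020018bf3602)))) (.nd (nat_lit 22) 
(.lf (nat_lit 11042859) (dlOf (nat_lit 1) (nat_lit 0xa400200800008660782))) 
(.lf (nat_lit 15237163) (dlOf (nat_lit 1) (nat_lit 0x2c002006400087c0682))))) (.nd (nat_lit 7) 
(.nd (nat_lit 23) (.lf (nat_lit 2916395) (dlOf (nat_lit 2) (nat_lit 0x38000000190181d0600))) 
(.lf (nat_lit 11305003) (dlOf (nat_lit 2) (nat_lit 0x2d1b40009604000400200020008690602)))) 
(.lf (nat_lit 19694507) (dlOf (nat_lit 1) (nat_lit 0x80080004002000200089d2683))))) 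
(.nd (nat_lit 24) (.nd (nat_lit 7) (.nd (nat_lit 28) 
(.lf (nat_lit 3964971) (dlOf (nat_lit 5) (nat_lit 0x40000004c020008000000210100010000001040800080000000004000800200020008260c02))) 
(.lf (nat_lit 1346142251) (dlOf (nat_lit 1) (nat_lit 0x8400400200008e60282)))) 
(.lf (nat_lit 8160683) (dlOf (nat_lit 1) (nat_lit 0x400200020008513602)))) (.nd (nat_lit 6) 
(.nd (nat_lit 7) (.lf (nat_lit 24674347) (dlOf (nat_lit 1) (nat_lit 0x18008000800200080008bb0b03))) 
(.lf (nat_lit 20747947) (dlOf (nat_lit 1) (nat_lit 0x4002000200089da002)))) 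
(.lf (nat_lit 54299499) (dlOf (nat_lit 1) (nat_lit 0x400400020009655c02)))))))) (.nd (nat_lit 28) 
(.nd (nat_lit 8) (.nd (nat_lit 21) (.nd (nat_lit 12) (.nd (nat_lit 18) (.nd (nat_lit 19) 
(.lf (nat_lit 2752544811) (dlOf (nat_lit 2) (nat_lit 0x1a0570000000402d4004002e0018020502))) 
(.lf (nat_lit 2886238251) (dlOf (nat_lit 1) (nat_lit 0x2400081a0601)))) 
(.lf (nat_lit 3422847019) (dlOf (nat_lit 2) (nat_lit 0xe8076017e30200040018120781)))) 
(.nd (nat_lit 6) (.lf (nat_lit 3422590123) (dlOf (nat_lit 2) (nat_lit 0x800e00307818009500))) 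
(.lf (nat_lit 2818871915) (dlOf (nat_lit 1) (nat_lit 0x20018128981))))) (.nd (nat_lit 10) 
(.nd (nat_lit 18) 
(.lf (nat_lit 2754117675) (dlOf (nat_lit 4) (nat_lit 0x5f0fc00398564000320801803f000ec1590000b0200250fc0000500800600080024002002400080c0d03))) 
(.lf (nat_lit 2754379819) (dlOf (nat_lit 1) (nat_lit 0x600280e0601)))) (.nd (nat_lit 6) 
(.lf (nat_lit 2754645035) (dlOf (nat_lit 1) (nat_lit 0x64004000c00180f6082))) 
(.lf (nat_lit 2754645227) (dlOf (nat_lit 3) (nat_lit 0x801140006c0400180380002d02000600280f6501)))))) 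
(.nd (nat_lit 27) (.nd (nat_lit 6) (.nd (nat_lit 11) 
(.lf (nat_lit 2684388267) (dlOf (nat_lit 1) (nat_lit 0x400200020008002682))) 
(.lf (nat_lit 6442490795) (dlOf (nat_lit 1) (nat_lit 0x12001800bd81)))) (.nd (nat_lit 26) 
(.lf (nat_lit 3221520875) (dlOf (nat_lit 4) (nat_lit 0x1a80f80004404009007c0001c02001c03e0000d818127300))) 
(.lf (nat_lit 6509855211) (dlOf (nat_lit 3) (nat_lit 0x25013000174080130098000b804004400400040008157302))))) 
(.nd (nat_lit 26) (.nd (nat_lit 9) 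
(.lf (nat_lit 3892347179) (dlOf (nat_lit 1) (nat_lit 0x800200020008000b02))) 
(.lf (nat_lit 3355476779) (dlOf (nat_lit 1) (nat_lit 0x400200020008002202)))) (.nd (nat_lit 7) 
(.lf (nat_lit 3422585643) (dlOf (nat_lit 1) (nat_lit 0x400200020008002202))) 
(.lf (nat_lit 2348844971) (dlOf (nat_lit 1) (nat_lit 0x10008000800200020008004303))))))) 
(.nd (nat_lit 7) (.nd (nat_lit 19) (.nd (nat_lit 10) (.nd (nat_lit 9) (.nd (nat_lit 18) 
(.lf (nat_lit 3490742315) (dlOf (nat_lit 2) (nat_lit 0x1a055c000000402d4004002e0018020502))) 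
(.lf (nat_lit 3020193835) (dlOf (nat_lit 8) (nat_lit 0x2203000019810166018004080a40104044000320602a4030005b01480318088001c0200003108003203000018010116018005580a402fc0440002f060094029004d0110000b81009200c00003004009000400020008150382)))) 
(.lf (nat_lit 2617279019) (dlOf (nat_lit 1) (nat_lit 0x40028001481)))) (.nd (nat_lit 6) 
(.lf (nat_lit 2483063851) (dlOf (nat_lit 2) (nat_lit 0x180140000000800f00080024002000e0008006083))) 
(.lf (nat_lit 2952828267) (dlOf (nat_lit 1) (nat_lit 0x20008009901))))) (.nd (nat_lit 21) 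
(.nd (nat_lit 9) (.lf (nat_lit 3624435755) (dlOf (nat_lit 1) (nat_lit 0x2400081a0601))) 
(.lf (nat_lit 4094198315) (dlOf (nat_lit 1) (nat_lit 0x20018018a01)))) (.nd (nat_lit 18) 
(.lf (nat_lit 3492315179) (dlOf (nat_lit 5) (nat_lit 0x121e600040aa000064100070798000300400443cc000c1540000b0200090f300018550000280800c0004005c00080c0c02))) 
(.lf (nat_lit 3492577323) (dlOf (nat_lit 1) (nat_lit 0x600280e0601)))))) (.nd (nat_lit 6) 
(.nd (nat_lit 8) (.nd (nat_lit 9) 
(.lf (nat_lit 4160787627) (dlOf (nat_lit 2) (nat_lit 0x805000b5e040018002001a0008009502))) 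
(.lf (nat_lit 4026566315) (dlOf (nat_lit 1) (nat_lit 0x3000400020008003a82)))) (.nd (nat_lit 9) 
(.lf (nat_lit 3691025835) (dlOf (nat_lit 3) (nat_lit 0x2100100296c0804f80000149e04116c002014a0008009902))) 
(.lf (nat_lit 2617279403) (dlOf (nat_lit 1) (nat_lit 0x400200020008002682))))) (.nd (nat_lit 8) 
(.nd (nat_lit 10) (.lf (nat_lit 3491004651) (dlOf (nat_lit 1) (nat_lit 0x20018046b81))) 
(.lf (nat_lit 4095771883) (dlOf (nat_lit 1) (nat_lit 0x200180e2e81)))) 
(.lf (nat_lit 2952829931) (dlOf (nat_lit 4) (nat_lit 0x160058012602a00040148029804c00a000a00b000000261060056016004a80a800040520106013007e00280280000009821801100000000002009c002800bf01))))))))) 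
(.nd (nat_lit 18) (.nd (nat_lit 26) (.nd (nat_lit 6) (.nd (nat_lit 5) (.nd (nat_lit 20) 
(.nd (nat_lit 7) (.nd (nat_lit 19) (.nd (nat_lit 11) 
(.lf (nat_lit 14721035) (dlOf (nat_lit 1) (nat_lit 0x48008000400200140008770003))) 
(.lf (nat_lit 6576711691) (dlOf (nat_lit 1) (nat_lit 0x20008004701)))) (.nd (nat_lit 21) 
(.lf (nat_lit 805871627) (dlOf (nat_lit 5) (nat_lit 0xd810c002e804027c05a000fa02025c02d0007b8100480168003c40800500080004002001000081d0083))) 
(.nd (nat_lit 23) 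
(.lf (nat_lit 19439627) (dlOf (nat_lit 1) (nat_lit 0x3f80080048002004c00089a0603))) 
(.lf (nat_lit 11051019) (dlOf (nat_lit 2) (nat_lit 0x9f3c002b004007c00200300008660082)))))) 
(.nd (nat_lit 8) (.nd (nat_lit 12) 
(.lf (nat_lit 50373771) (dlOf (nat_lit 1) (nat_lit 0x8004002200094c2b02))) 
(.lf (nat_lit 3355489419) (dlOf (nat_lit 1) (nat_lit 0x20018009501)))) 
(.lf (nat_lit 2818615691) (dlOf (nat_lit 1) (nat_lit 0x180002001e0008004e82))))) (.nd (nat_lit 7) 
(.nd (nat_lit 8) (.nd (nat_lit 9) 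
(.lf (nat_lit 10002443) (dlOf (nat_lit 5) (nat_lit 0x70691403134860163a4100a0d1f8008677000fa01400bb48a0021a43000fd20801f3c18017691400374860027a41003e5830015d11001d600800a80080048002006600085a0a03))) 
(.lf (nat_lit 11575819) (dlOf (nat_lit 2) (nat_lit 0x3fc5e000b28186c0d80)))) (.nd (nat_lit 19) 
(.lf (nat_lit 19964171) (dlOf (nat_lit 1) (nat_lit 0x4002000200089d0a82))) 
(.lf (nat_lit 1343791371) (dlOf (nat_lit 1) (nat_lit 0x400400020008370702))))) (.nd (nat_lit 8) 
(.lf (nat_lit 24158347) (dlOf (nat_lit 2) (nat_lit 0xa99e0001d818b80100))) (.nd (nat_lit 22) 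
(.lf (nat_lit 1345366411) (dlOf (nat_lit 1) (nat_lit 0xc00400020008b54e82))) 
(.lf (nat_lit 32549259) (dlOf (nat_lit 1) (nat_lit 0x400400020008ef4e82))))))) (.nd (nat_lit 23) 
(.nd (nat_lit 19) (.nd (nat_lit 7) 
(.lf (nat_lit 1610653995) (dlOf (nat_lit 2) (nat_lit 0x381240008c04000400200020008000b02))) 
(.nd (nat_lit 8) (.lf (nat_lit 48299) (dlOf (nat_lit 1) (nat_lit 0x200040004001800c202))) 
(.lf (nat_lit 2281743275) (dlOf (nat_lit 1) (nat_lit 0x60028002681))))) (.nd (nat_lit 21) 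
(.nd (nat_lit 27) (.lf (nat_lit 805871659) (dlOf (nat_lit 2) (nat_lit 0x1804f000000181d0b00))) 
(.lf (nat_lit 2819137579) (dlOf (nat_lit 1) (nat_lit 0x100080058002002800081a0683)))) 
(.lf (nat_lit 3492323371) (dlOf (nat_lit 1) (nat_lit 0x200080008002000600080c0c03))))) 
(.nd (nat_lit 22) (.nd (nat_lit 25) 
(.lf (nat_lit 26255403) (dlOf (nat_lit 1) (nat_lit 0x10008000400200040008c20983))) 
(.lf (nat_lit 59809835) (dlOf (nat_lit 1) (nat_lit 0x760019830901)))) (.nd (nat_lit 20) 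
(.lf (nat_lit 14721067) (dlOf (nat_lit 2) (nat_lit 0xa49300017818770380))) 
(.lf (nat_lit 13672491) (dlOf (nat_lit 2) (nat_lit 0x993430000c8080040008001c002000a0008740603))))))) 
(.nd (nat_lit 7) (.nd (nat_lit 19) (.nd (nat_lit 8) (.nd (nat_lit 10) (.nd (nat_lit 21) 
(.lf (nat_lit 25206859) (dlOf (nat_lit 5) (nat_lit 0xf00000002981005b0000001480803480000009204019c000000470200b20018bf0d01))) 
(.lf (nat_lit 44081227) (dlOf (nat_lit 1) (nat_lit 0x8008000c002000400092c0603)))) 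
(.lf (nat_lit 2952836171) (dlOf (nat_lit 5) (nat_lit 0x56005002e80000005e08015401400c20000001682005b0050000ac0802d80280005404004000400740018009302)))) 
(.nd (nat_lit 5) (.nd (nat_lit 9) 
(.lf (nat_lit 671129931) (dlOf (nat_lit 1) (nat_lit 0xc00280b0601))) 
(.lf (nat_lit 54569803) (dlOf (nat_lit 1) (nat_lit 0x15000800ac00200320009655c03)))) 
(.lf (nat_lit 2952836459) (dlOf (nat_lit 1) (nat_lit 0x20028009901))))) (.nd (nat_lit 22) 
(.nd (nat_lit 8) (.nd (nat_lit 21) 
(.lf (nat_lit 1611178059) (dlOf (nat_lit 1) (nat_lit 0x40002001e0008101502))) 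
(.lf (nat_lit 3492323403) (dlOf (nat_lit 2) (nat_lit 0x8809d000188180c1480)))) 
(.lf (nat_lit 3892879691) (dlOf (nat_lit 1) (nat_lit 0x20028280781)))) (.nd (nat_lit 5) 
(.nd (nat_lit 20) 
(.lf (nat_lit 3494420555) (dlOf (nat_lit 3) (nat_lit 0x420500016010093102800104000005408000400400060008220d02))) 
(.lf (nat_lit 47751243) (dlOf (nat_lit 1) (nat_lit 0x60029400001)))) 
(.lf (nat_lit 57190763) (dlOf (nat_lit 1) (nat_lit 0x8008000400200020009794e83)))))) 
(.nd (nat_lit 5) (.nd (nat_lit 9) (.nd (nat_lit 10) (.nd (nat_lit 19) 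
(.lf (nat_lit 671129803) (dlOf (nat_lit 3) (nat_lit 0x18058001d102000c02c000e78180b0480))) 
(.lf (nat_lit 3892879563) (dlOf (nat_lit 1) (nat_lit 0xe80018280481)))) (.nd (nat_lit 23) 
(.lf (nat_lit 4966098123) (dlOf (nat_lit 1) (nat_lit 0x20028002d81))) 
(.lf (nat_lit 8430795) (dlOf (nat_lit 1) (nat_lit 0x400400060008512d82))))) (.nd (nat_lit 8) 
(.lf (nat_lit 1476440779) (dlOf (nat_lit 1) (nat_lit 0x400200020008008c82))) (.nd (nat_lit 12) 
(.lf (nat_lit 57189323) (dlOf (nat_lit 1) (nat_lit 0x8008000400200040009792883))) 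
(.lf (nat_lit 1476441035) (dlOf (nat_lit 1) (nat_lit 0x10000400400008009202)))))) (.nd (nat_lit 29) 
(.nd (nat_lit 8) (.lf (nat_lit 45654251) (dlOf (nat_lit 1) (nat_lit 0x40029341e81))) 
(.nd (nat_lit 9) 
(.lf (nat_lit 19967467) (dlOf (nat_lit 2) (nat_lit 0x3a9f80000e040004004000200189d6e82))) 
(.lf (nat_lit 50373611) (dlOf (nat_lit 1) (nat_lit 0x600194c2881))))) (.nd (nat_lit 8) 
(.lf (nat_lit 4966098155) (dlOf (nat_lit 1) (nat_lit 0x20028002e81))) (.nd (nat_lit 9) 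
(.lf (nat_lit 537436651) (dlOf (nat_lit 1) (nat_lit 0x2c00400020008090d02))) 
(.lf (nat_lit 2952838123) (dlOf (nat_lit 4) (nat_lit 0x330138021807800cc0260072009002b002800c0000009841800e404e008e01e0044009801c002400d800a0058000002608600170000000000801c000800880020016000800bf03))))))))) 
(.nd (nat_lit 29) (.nd (nat_lit 27) (.nd (nat_lit 5) (.nd (nat_lit 19) (.nd (nat_lit 6) 
(.lf (nat_lit 68198411) (dlOf (nat_lit 1) (nat_lit 0xe0018450481))) 
(.lf (nat_lit 3556810827) (dlOf (nat_lit 1) (nat_lit 0x2e0008000001)))) (.nd (nat_lit 28) 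
(.lf (nat_lit 4362641419) (dlOf (nat_lit 1) (nat_lit 0x200180c0081))) 
(.lf (nat_lit 3557335051) (dlOf (nat_lit 14) (nat_lit 0x300610028f810096030802381800035e0802840c200b4060000d68200ba0308006340805d0184003120402900c2009c060000b702009803080250180002d00800500c2000440200300600001f81008c030801e81800002208023c0c20076060000070200a303080228180000180801f40c2014003800130110000001800c00080110002006200081c0483))))) 
(.nd (nat_lit 11) (.nd (nat_lit 19) 
(.lf (nat_lit 68198443) (dlOf (nat_lit 1) (nat_lit 0x540008450681))) (.nd (nat_lit 28) 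
(.lf (nat_lit 4362641451) (dlOf (nat_lit 1) (nat_lit 0x500080050002002c00080c0b03))) 
(.lf (nat_lit 3557335083) (dlOf (nat_lit 1) (nat_lit 0xe4002003e00081c0682))))) (.nd (nat_lit 7) 
(.lf (nat_lit 3288378411) (dlOf (nat_lit 1) (nat_lit 0x40028006081))) 
(.lf (nat_lit 4362119339) (dlOf (nat_lit 1) (nat_lit 0x20008004881)))))) (.nd (nat_lit 7) 
(.nd (nat_lit 8) (.nd (nat_lit 10) 
(.lf (nat_lit 470851595) (dlOf (nat_lit 2) (nat_lit 0xba0d4004880000179e080110002002200081c0482))) 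
(.lf (nat_lit 469804043) (dlOf (nat_lit 1) (nat_lit 0xa0028002881)))) (.nd (nat_lit 6) 
(.nd (nat_lit 11) (.lf (nat_lit 469804811) (dlOf (nat_lit 1) (nat_lit 0x800400040008003b82))) 
(.lf (nat_lit 3691032331) (dlOf (nat_lit 1) (nat_lit 0x28008001000200060008007483)))) 
(.lf (nat_lit 1543545163) (dlOf (nat_lit 1) (nat_lit 0xc00280b0601))))) (.nd (nat_lit 5) 
(.nd (nat_lit 6) 
(.lf (nat_lit 2617292427) (dlOf (nat_lit 8) (nat_lit 0x2000a000c0040003b8200090028001d8080038014000e204002400a000700200120050003181000800280018408004001400000040018004000e0018009e02))) 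
(.lf (nat_lit 1543545035) (dlOf (nat_lit 3) (nat_lit 0x18058001d102000c02c000e78180b0480)))) 
(.nd (nat_lit 8) (.lf (nat_lit 469805227) (dlOf (nat_lit 1) (nat_lit 0x400400020008004882))) 
(.nd (nat_lit 9) 
(.lf (nat_lit 3691034027) (dlOf (nat_lit 2) (nat_lit 0x880000149e0401ac00200060008009902))) 
(.lf (nat_lit 2348853163) (dlOf (nat_lit 2) (nat_lit 0x580d00003004005c00400100008004302)))))))) 
(.nd (nat_lit 6) (.nd (nat_lit 5) (.nd (nat_lit 11) (.nd (nat_lit 21) (.nd (nat_lit 27) 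
(.lf (nat_lit 1678286859) (dlOf (nat_lit 5) (nat_lit 0xd810c001c404027c05a0006d02025c02d000350100480168001900800500080004002001000081d0083))) 
(.lf (nat_lit 4228423691) (dlOf (nat_lit 1) (nat_lit 0x200180c0081)))) 
(.lf (nat_lit 4096303115) (dlOf (nat_lit 1) (nat_lit 0x800180f0001)))) (.nd (nat_lit 7) 
(.lf (nat_lit 3825248267) (dlOf (nat_lit 2) (nat_lit 0x30054008001600600090002a038004700))) 
(.lf (nat_lit 3825248395) (dlOf (nat_lit 1) (nat_lit 0x400400020018004802))))) (.nd (nat_lit 11) 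
(.nd (nat_lit 21) (.nd (nat_lit 27) 
(.lf (nat_lit 1678286891) (dlOf (nat_lit 2) (nat_lit 0x1804f000000181d0b00))) 
(.lf (nat_lit 4228423723) (dlOf (nat_lit 1) (nat_lit 0x500080050002002c00080c0b03)))) 
(.lf (nat_lit 2754125867) (dlOf (nat_lit 1) (nat_lit 0x1ec00080c0d01)))) (.nd (nat_lit 7) 
(.lf (nat_lit 2885725739) (dlOf (nat_lit 1) (nat_lit 0x80028007181))) 
(.lf (nat_lit 2885724587) (dlOf (nat_lit 1) (nat_lit 0x3400400560008004e82)))))) (.nd (nat_lit 11) 
(.nd (nat_lit 10) (.nd (nat_lit 8) (.nd (nat_lit 22) 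
(.lf (nat_lit 738762827) (dlOf (nat_lit 1) (nat_lit 0x48008001800200080008101503))) 
(.lf (nat_lit 2756223051) (dlOf (nat_lit 3) (nat_lit 0x421a0001681009310d000104000005608000400400060008220d02)))) 
(.lf (nat_lit 2755699019) (dlOf (nat_lit 2) (nat_lit 0xdf82c8000a2040004004000c00081b0602)))) 
(.nd (nat_lit 12) (.lf (nat_lit 2751505483) (dlOf (nat_lit 1) (nat_lit 0x1400400040008002882))) 
(.lf (nat_lit 604025931) (dlOf (nat_lit 3) (nat_lit 0x3203f0001781001301f80009008004000800b000200160008009303))))) 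
(.nd (nat_lit 5) (.nd (nat_lit 7) (.nd (nat_lit 9) 
(.lf (nat_lit 1946201419) (dlOf (nat_lit 2) (nat_lit 0x180a40002004001800400120008006a02))) 
(.lf (nat_lit 2080418635) (dlOf (nat_lit 1) (nat_lit 0x400200020008005c02)))) 
(.lf (nat_lit 1677769675) (dlOf (nat_lit 1) (nat_lit 0xc80080060002001a000800be83)))) 
(.nd (nat_lit 10) 
(.lf (nat_lit 604027883) (dlOf (nat_lit 3) (nat_lit 0xc801e00e600e000500380030018008c002004c20a005e00f007d0070003001c00340060046001000a000001304300790008001c00205a4000800bf03))) 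
(.lf (nat_lit 604024811) (dlOf (nat_lit 1) (nat_lit 0x400400020008007a82))))))))) (.nd (nat_lit 26) 
(.nd (nat_lit 21) (.nd (nat_lit 30) (.nd (nat_lit 27) (.nd (nat_lit 19) (.nd (nat_lit 8) 
(.nd (nat_lit 20) (.lf (nat_lit 38051851) (dlOf (nat_lit 1) (nat_lit 0x8008000400200020009120103))) 
(.nd (nat_lit 22) (.lf (nat_lit 26517515) (dlOf (nat_lit 1) (nat_lit 0x8008000400200020008c50003))) 
(.lf (nat_lit 30711819) (dlOf (nat_lit 1) (nat_lit 0x8008000400200020008e40503))))) 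
(.nd (nat_lit 6) (.lf (nat_lit 537174283) (dlOf (nat_lit 1) (nat_lit 0x20018047d01))) 
(.lf (nat_lit 306507) (dlOf (nat_lit 1) (nat_lit 0x20028006a01))))) (.nd (nat_lit 7) 
(.nd (nat_lit 6) 
(.lf (nat_lit 27041803) (dlOf (nat_lit 2) (nat_lit 0x1b023a0063c0200020018ca0481))) 
(.lf (nat_lit 35430475) (dlOf (nat_lit 1) (nat_lit 0x6a0019010001)))) (.nd (nat_lit 5) 
(.lf (nat_lit 537700747) (dlOf (nat_lit 1) (nat_lit 0xc800800a0002005400080f4e83))) 
(.lf (nat_lit 46967467) (dlOf (nat_lit 1) (nat_lit 0x20009385681)))))) (.nd (nat_lit 5) 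
(.nd (nat_lit 7) (.nd (nat_lit 8) 
(.lf (nat_lit 3087310859) (dlOf (nat_lit 2) (nat_lit 0x802c0000004000400400040008170482))) 
(.lf (nat_lit 671392011) (dlOf (nat_lit 2) (nat_lit 0x600f00523818187d00)))) (.nd (nat_lit 32) 
(.lf (nat_lit 671391883) (dlOf (nat_lit 2) (nat_lit 0x60050003d70200040028183d01))) 
(.lf (nat_lit 4966359179) (dlOf (nat_lit 1) (nat_lit 0x1200180c0f01))))) (.nd (nat_lit 6) 
(.lf (nat_lit 402956331) (dlOf (nat_lit 1) (nat_lit 0x8002000200080b0402))) 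
(.lf (nat_lit 135045483) (dlOf (nat_lit 1) (nat_lit 0x10002000800081b0702)))))) (.nd (nat_lit 28) 
(.nd (nat_lit 5) (.nd (nat_lit 6) (.nd (nat_lit 9) 
(.lf (nat_lit 3758399499) (dlOf (nat_lit 2) (nat_lit 0x8030003ba818170000))) 
(.lf (nat_lit 1074045451) (dlOf (nat_lit 1) (nat_lit 0xc00400160008090d82)))) (.nd (nat_lit 9) 
(.lf (nat_lit 3758399563) (dlOf (nat_lit 12) (nat_lit 0x11406000140220001c0200460180000d80802300c00006a04011c0600003202008c0300000d8100460180000680802300c0000320401040600001702008c0300000a0100030188000440801300c00000004007000200280008170682))) 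
(.lf (nat_lit 5905883723) (dlOf (nat_lit 1) (nat_lit 0x18008000400200060008158d03))))) 
(.nd (nat_lit 6) (.nd (nat_lit 9) 
(.lf (nat_lit 3758399531) (dlOf (nat_lit 8) (nat_lit 0x2203000018010166018004080a401040440002f0602a4030005b01480318088001c0200002e08003203000016810116018005580a402fc0440002c060094029004d0110000ac1009200c00003004009000400020008170382))) 
(.lf (nat_lit 1074045483) (dlOf (nat_lit 2) (nat_lit 0xb202700000018090e80)))) 
(.lf (nat_lit 3221529067) (dlOf (nat_lit 5) (nat_lit 0x25001f00dd00380730018031a0000001104011401f0000780812d80f8070001c00340000000e03023701f00d400380003608047800400240018127302))))) 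
(.nd (nat_lit 5) (.nd (nat_lit 6) (.nd (nat_lit 19) 
(.lf (nat_lit 3494158347) (dlOf (nat_lit 5) (nat_lit 0x602980010140001c09a000e03d002b204000402a00010140000409a000403d000401c00158c280040150001c0a6000a050000a026800280f400ac21400180a8001004d000901e80157c1803d800802fc002000c00081c0683))) 
(.lf (nat_lit 1343004683) (dlOf (nat_lit 9) (nat_lit 0x30048e018024300a611e000188dc000c39a01981c5000a78600b7123805b890c0220478000e23700040e880038734030838a016e1c10008b880014123800588f0002838a0011606017224700ba121804208f0001046e00081d100060e680630714030c382018a09400090408004545001e091c0084478000623700a50e2803a0704031812800160810008a0700c3123805c090c0104478000823700050e880028734033038a016c1c10007d8800bc123805e890c0278478000c1d100c90e2805b0704001ee18001c46e00021d100010e68003c8180468008018400200d80008130483)))) 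
(.nd (nat_lit 8) (.lf (nat_lit 5772714059) (dlOf (nat_lit 1) (nat_lit 0x400400040008090002))) 
(.lf (nat_lit 3490491723) (dlOf (nat_lit 2) (nat_lit 0x1010000040080020008001c00200040008006a03))))) 
(.nd (nat_lit 6) (.nd (nat_lit 27) 
(.lf (nat_lit 1879351339) (dlOf (nat_lit 8) (nat_lit 0x1202c0006815c001c0aa00020540001029001c013c007c09c00080070007188000402b8015015000d009e005e04e0007104001002b80100150006c09c000e106002e058000502b8002815400100a8000605100010270001d830002015c008c0a8004e05100210270001d420003815c00400a8003c05100220270001d020006815c00800a8004a05100190270001cc2000700080010002000800080f0b03))) 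
(.lf (nat_lit 1476698155) (dlOf (nat_lit 1) (nat_lit 0x240018140701)))) 
(.lf (nat_lit 3624185067) (dlOf (nat_lit 1) (nat_lit 0x2c00200160008146502))))))) (.nd (nat_lit 19) 
(.nd (nat_lit 5) (.nd (nat_lit 11) (.nd (nat_lit 7) 
(.lf (nat_lit 24420427) (dlOf (nat_lit 1) (nat_lit 0x400200020008b90f02))) (.nd (nat_lit 8) 
(.lf (nat_lit 20230859) (dlOf (nat_lit 1) (nat_lit 0x4002000200089d8c82))) 
(.lf (nat_lit 2400715) (dlOf (nat_lit 1) (nat_lit 0x220018150981))))) (.nd (nat_lit 6) 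
(.nd (nat_lit 7) (.lf (nat_lit 3493111819) (dlOf (nat_lit 2) (nat_lit 0x58028000288180f4700))) 
(.lf (nat_lit 5773765003) (dlOf (nat_lit 1) (nat_lit 0x200280e4e81)))) 
(.lf (nat_lit 20229835) (dlOf (nat_lit 1) (nat_lit 0x4004004600089d7302))))) (.nd (nat_lit 6) 
(.nd (nat_lit 7) (.nd (nat_lit 24) 
(.lf (nat_lit 44343339) (dlOf (nat_lit 1) (nat_lit 0x8004000400092f0b82))) 
(.lf (nat_lit 27566123) (dlOf (nat_lit 1) (nat_lit 0x400200020008d00802)))) 
(.lf (nat_lit 20231851) (dlOf (nat_lit 1) (nat_lit 0x4002000200089da002)))) (.nd (nat_lit 7) 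
(.lf (nat_lit 2400619) (dlOf (nat_lit 3) (nat_lit 0x3a91c0002a04004148e000120200400028150701))) 
(.lf (nat_lit 56929003) (dlOf (nat_lit 1) (nat_lit 0x400400020009795a02)))))) (.nd (nat_lit 20) 
(.nd (nat_lit 7) (.nd (nat_lit 5) (.nd (nat_lit 9) 
(.lf (nat_lit 28090379) (dlOf (nat_lit 1) (nat_lit 0x180018d50101))) 
(.lf (nat_lit 57453067) (dlOf (nat_lit 2) (nat_lit 0x5604000280200040009795001)))) 
(.lf (nat_lit 2924587) (dlOf (nat_lit 2) (nat_lit 0x48000000190181d0600)))) (.nd (nat_lit 6) 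
(.lf (nat_lit 23896203) (dlOf (nat_lit 1) (nat_lit 0x1800200020008b80102))) 
(.lf (nat_lit 19706571) (dlOf (nat_lit 1) (nat_lit 0x4002000200089d8c82))))) (.nd (nat_lit 12) 
(.nd (nat_lit 7) (.nd (nat_lit 24) 
(.lf (nat_lit 45916171) (dlOf (nat_lit 1) (nat_lit 0x400400020009370102))) 
(.lf (nat_lit 29138955) (dlOf (nat_lit 1) (nat_lit 0x70008005400200e60008dc0583)))) 
(.lf (nat_lit 12361867) (dlOf (nat_lit 1) (nat_lit 0x38002000a00086c0102)))) (.nd (nat_lit 5) 
(.lf (nat_lit 8173131) (dlOf (nat_lit 1) (nat_lit 0x40028519c01))) 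
(.lf (nat_lit 8173611) (dlOf (nat_lit 1) (nat_lit 0x100080404002010c000851a603)))))))) 
(.nd (nat_lit 27) (.nd (nat_lit 29) (.nd (nat_lit 6) (.nd (nat_lit 30) (.nd (nat_lit 5) 
(.lf (nat_lit 67941259) (dlOf (nat_lit 1) (nat_lit 0x40018339001))) 
(.lf (nat_lit 335847467) (dlOf (nat_lit 1) (nat_lit 0x8002000200080b0402)))) (.nd (nat_lit 11) 
(.lf (nat_lit 3557597195) (dlOf (nat_lit 1) (nat_lit 0x620008270101))) 
(.lf (nat_lit 1410115595) (dlOf (nat_lit 6) (nat_lit 0x10000000b004019005a00ce024007d010800980780068000000550a01ae02d009601200488084008403c0005408008c00000028810153016802880a8037000c00660030020000000138280090008019c002011800080f4703))))) 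
(.nd (nat_lit 9) (.nd (nat_lit 7) 
(.lf (nat_lit 4630814795) (dlOf (nat_lit 1) (nat_lit 0x1200280d0501))) 
(.lf (nat_lit 4362904011) (dlOf (nat_lit 2) (nat_lit 0x408e0003d02000200181a0981)))) 
(.nd (nat_lit 5) 
(.lf (nat_lit 3557077707) (dlOf (nat_lit 1) (nat_lit 0x3700080004002006e0008128c83))) 
(.lf (nat_lit 5436123883) (dlOf (nat_lit 3) (nat_lit 0xc0088000ac0800080c400050040010004001200080e5a02)))))) 
(.nd (nat_lit 28) (.nd (nat_lit 5) (.nd (nat_lit 10) (.nd (nat_lit 22) 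
(.lf (nat_lit 3825508363) (dlOf (nat_lit 2) (nat_lit 0x802c0000004000400400040008170482))) 
(.lf (nat_lit 2755960843) (dlOf (nat_lit 5) (nat_lit 0x602980010140001c09a000e03d0056f84000402a00010140000409a000403d000401c002b78280040150001c0a6000a050000a026800280f4015b81400180a8001004d000901e802b681803d800802fc002000c00081c0683)))) 
(.lf (nat_lit 2751767563) (dlOf (nat_lit 1) (nat_lit 0x400200020008002882)))) 
(.lf (nat_lit 2753863723) (dlOf (nat_lit 1) (nat_lit 0x400180a0981)))) (.nd (nat_lit 5) 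
(.nd (nat_lit 6) 
(.lf (nat_lit 3020201995) (dlOf (nat_lit 1) (nat_lit 0x8008000400200020008150003))) 
(.lf (nat_lit 5167685707) (dlOf (nat_lit 1) (nat_lit 0x60028100501)))) (.nd (nat_lit 9) 
(.lf (nat_lit 3020202027) (dlOf (nat_lit 2) (nat_lit 0x2700140002f0200120008150381))) 
(.lf (nat_lit 1946460715) (dlOf (nat_lit 2) (nat_lit 0xb202700000018090e80))))))) (.nd (nat_lit 5) 
(.nd (nat_lit 6) (.nd (nat_lit 7) (.nd (nat_lit 10) 
(.lf (nat_lit 470589451) (dlOf (nat_lit 9) (nat_lit 0x30048e018024300a611e000188dc000c39a01981c5000a78600b7123805b890c0220478000e23700040e880038734030838a016e1c10008d880014123800588f0002838a0011a06017224700ba121804208f0001046e00081d100060e680630714030c382018a09400090408004645001e091c0084478000623700a50e2803a0704031812800160810008c0700c3123805c090c0104478000823700050e880028734033038a016c1c10007d0800bc123805e890c0278478000c1d100c90e2805b0704001ee18001c46e00021d100010e68003c8180468008018400200d80008130483))) 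
(.lf (nat_lit 473736203) (dlOf (nat_lit 1) (nat_lit 0x1c00400040008fa2882)))) (.nd (nat_lit 8) 
(.lf (nat_lit 1543807115) (dlOf (nat_lit 2) (nat_lit 0x60050009710200040028183d01))) 
(.lf (nat_lit 738503051) (dlOf (nat_lit 1) (nat_lit 0x4c0008094e81))))) (.nd (nat_lit 8) 
(.nd (nat_lit 9) (.nd (nat_lit 22) 
(.lf (nat_lit 4765032523) (dlOf (nat_lit 1) (nat_lit 0x1200280d0501))) 
(.lf (nat_lit 474259531) (dlOf (nat_lit 1) (nat_lit 0x800190f1681)))) 
(.lf (nat_lit 3959726667) (dlOf (nat_lit 7) (nat_lit 0x8501f00b5003805b001802520000001184003201f008b803803180000002206021c03e01f200700d980000003c0c014807c002403c013700700770000000381000c407c022a00e0000d8200de0000000680803e0008049000209200008128d03)))) 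
(.nd (nat_lit 7) (.lf (nat_lit 1009036107) (dlOf (nat_lit 1) (nat_lit 0x400400020009005c02))) 
(.lf (nat_lit 4228686283) (dlOf (nat_lit 2) (nat_lit 0x40800003e02000200181a0981)))))) 
(.nd (nat_lit 8) (.nd (nat_lit 7) (.nd (nat_lit 28) 
(.lf (nat_lit 3422855211) (dlOf (nat_lit 2) (nat_lit 0x500ec02fc604001400400040008120782))) 
(.lf (nat_lit 1006936107) (dlOf (nat_lit 8) (nat_lit 0x1202c0006815c001c0aa00020540001029001c013c007c09c00080030007188000402b8015015000d009e005e04e0007104001002b80100150006c09c000e106002e058000502b8002815400100a8000605100010270001ec30002015c008c0a8004e05100210270001e820003815c00400a8003c05100220270001e420006815c00800a8004a05100190270001e02000700080010002000800080f0b03)))) 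
(.lf (nat_lit 1543807147) (dlOf (nat_lit 1) (nat_lit 0x560028184c01)))) (.nd (nat_lit 6) 
(.nd (nat_lit 7) 
(.lf (nat_lit 474259755) (dlOf (nat_lit 2) (nat_lit 0x682d001602040004002001000090f5a02))) 
(.lf (nat_lit 3959726507) (dlOf (nat_lit 1) (nat_lit 0x40018127181)))) 
(.lf (nat_lit 202154347) (dlOf (nat_lit 1) (nat_lit 0x10002000800081b0702)))))))))))

end

end Pool.Agent.Lib.MP_5854e1_co.Cz

namespace Pool.Agent.Lib.MP_5854e1_co.Cz

noncomputable section

noncomputable def tz153 : DT := (.nd (nat_lit 15) (.nd (nat_lit 18) (.nd (nat_lit 7) 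
(.nd (nat_lit 5) (.nd (nat_lit 13) (.nd (nat_lit 6) (.nd (nat_lit 9) (.nd (nat_lit 21) 
(.nd (nat_lit 24) (.nd (nat_lit 26) 
(.lf (nat_lit 1343291403) (dlOf (nat_lit 2) (nat_lit 0xba0d68048800000c78080110002002200081e0482))) 
(.lf (nat_lit 470876171) (dlOf (nat_lit 2) (nat_lit 0xa035000640e4000d000002f3c1801200080240002009e00081c0483)))) 
(.nd (nat_lit 19) 
(.lf (nat_lit 17891339) (dlOf (nat_lit 1) (nat_lit 0x10008004000200060008900583))) 
(.lf (nat_lit 18415627) (dlOf (nat_lit 1) (nat_lit 0x80028930001))))) (.nd (nat_lit 8) 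
(.nd (nat_lit 19) 
(.lf (nat_lit 14745611) (dlOf (nat_lit 1) (nat_lit 0x690008024c00200260008770003))) 
(.lf (nat_lit 19464203) (dlOf (nat_lit 1) (nat_lit 0x4004000400189a0602)))) (.nd (nat_lit 19) 
(.lf (nat_lit 10551563) (dlOf (nat_lit 1) (nat_lit 0x4002000200085f7d02))) 
(.lf (nat_lit 58261771) (dlOf (nat_lit 2) (nat_lit 0xeced00066760000101000180080018002004800097d7403)))))) 
(.nd (nat_lit 11) (.nd (nat_lit 10) (.nd (nat_lit 19) 
(.lf (nat_lit 2214658571) (dlOf (nat_lit 1) (nat_lit 0x1a0028001481))) 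
(.lf (nat_lit 50921995) (dlOf (nat_lit 1) (nat_lit 0x200294d8001)))) 
(.lf (nat_lit 2281772555) (dlOf (nat_lit 1) (nat_lit 0x38008001800200020008009c03)))) 
(.nd (nat_lit 8) 
(.lf (nat_lit 3758164491) (dlOf (nat_lit 1) (nat_lit 0x600080018002000200080d5003))) 
(.nd (nat_lit 26) (.lf (nat_lit 6174083851) (dlOf (nat_lit 1) (nat_lit 0x20008055b01))) 
(.lf (nat_lit 5704321803) (dlOf (nat_lit 1) (nat_lit 0xbc002004c0008055b02))))))) (.nd (nat_lit 8) 
(.nd (nat_lit 19) (.nd (nat_lit 20) (.nd (nat_lit 21) (.nd (nat_lit 23) 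
(.lf (nat_lit 2818637899) (dlOf (nat_lit 1) (nat_lit 0x20008080001))) 
(.lf (nat_lit 25231435) (dlOf (nat_lit 2) (nat_lit 0x5600000023818bf0d00)))) 
(.lf (nat_lit 14745675) (dlOf (nat_lit 1) (nat_lit 0x2a0008770681)))) (.nd (nat_lit 9) 
(.lf (nat_lit 1345388619) (dlOf (nat_lit 1) (nat_lit 0xa0008b90601))) 
(.lf (nat_lit 11600459) (dlOf (nat_lit 1) (nat_lit 0x5400200ea00086c1182))))) (.nd (nat_lit 21) 
(.nd (nat_lit 24) (.nd (nat_lit 26) 
(.lf (nat_lit 3494445131) (dlOf (nat_lit 5) (nat_lit 0x1d006800ee0210077008c044003c0002c0801ec01e000158100f7034007a810803cc046021a01e0001504009800f0000a008007800800d400200040008220d03))) 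
(.lf (nat_lit 2756247627) (dlOf (nat_lit 5) (nat_lit 0x1d006800ee0210077008c044003c0002d0801ec01e000160100f7034007a810803cc046021a01e0001584009800f0000a408007800800d400200040008220d03)))) 
(.lf (nat_lit 21561419) (dlOf (nat_lit 1) (nat_lit 0xf40008a40501)))) (.nd (nat_lit 11) 
(.lf (nat_lit 3492347979) (dlOf (nat_lit 3) (nat_lit 0x406a0000c80800081e00005e04001c004000800080c1482))) 
(.lf (nat_lit 7936075) (dlOf (nat_lit 1) (nat_lit 0x30004002a000851a682)))))) (.nd (nat_lit 10) 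
(.nd (nat_lit 11) (.nd (nat_lit 22) (.nd (nat_lit 26) 
(.lf (nat_lit 805372235) (dlOf (nat_lit 1) (nat_lit 0x20028090601))) 
(.lf (nat_lit 1677787467) (dlOf (nat_lit 1) (nat_lit 0x20028090601)))) 
(.lf (nat_lit 2755723595) (dlOf (nat_lit 1) (nat_lit 0x4004000200081b0602)))) 
(.lf (nat_lit 201398603) (dlOf (nat_lit 2) (nat_lit 0x2581040037a0401180040072000800ab82)))) 
(.nd (nat_lit 9) (.nd (nat_lit 26) 
(.lf (nat_lit 3489729867) (dlOf (nat_lit 1) (nat_lit 0x400400060018006a02))) 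
(.lf (nat_lit 1543572811) (dlOf (nat_lit 1) (nat_lit 0x20028146a01)))) (.nd (nat_lit 11) 
(.lf (nat_lit 671156043) (dlOf (nat_lit 1) (nat_lit 0x20028143e81))) 
(.lf (nat_lit 7933771) (dlOf (nat_lit 1) (nat_lit 0x18008000c00200060008517783)))))))) 
(.nd (nat_lit 30) (.nd (nat_lit 19) (.nd (nat_lit 6) (.nd (nat_lit 9) (.nd (nat_lit 10) 
(.nd (nat_lit 20) (.lf (nat_lit 14753803) (dlOf (nat_lit 1) (nat_lit 0x8008000800200020008770003))) 
(.lf (nat_lit 2752585739) (dlOf (nat_lit 1) (nat_lit 0x400400020008020482)))) 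
(.lf (nat_lit 3019973643) (dlOf (nat_lit 1) (nat_lit 0x200080d2881)))) (.nd (nat_lit 8) 
(.lf (nat_lit 4697695755) (dlOf (nat_lit 1) (nat_lit 0x7400200280008093682))) 
(.lf (nat_lit 536946443) (dlOf (nat_lit 1) (nat_lit 0x20028003b81))))) (.nd (nat_lit 8) 
(.nd (nat_lit 23) (.lf (nat_lit 2818646091) (dlOf (nat_lit 1) (nat_lit 0x2800200060008080002))) 
(.lf (nat_lit 25239627) (dlOf (nat_lit 2) (nat_lit 0x4800000023818bf0d00)))) 
(.lf (nat_lit 805380427) (dlOf (nat_lit 1) (nat_lit 0x5000400480008090602))))) (.nd (nat_lit 9) 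
(.nd (nat_lit 25) (.nd (nat_lit 6) 
(.lf (nat_lit 8988683) (dlOf (nat_lit 1) (nat_lit 0x8008000c00200020008514703))) 
(.lf (nat_lit 10035275) (dlOf (nat_lit 1) (nat_lit 0x4004000200085b0902)))) (.nd (nat_lit 22) 
(.lf (nat_lit 43589707) (dlOf (nat_lit 1) (nat_lit 0x10004001c00092a0002))) 
(.lf (nat_lit 47784011) (dlOf (nat_lit 1) (nat_lit 0x60029400001))))) (.nd (nat_lit 11) 
(.lf (nat_lit 2753110603) (dlOf (nat_lit 1) (nat_lit 0x10008006800200100008091183))) 
(.nd (nat_lit 21) (.lf (nat_lit 34155083) (dlOf (nat_lit 1) (nat_lit 0x400200060008fb5282))) 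
(.lf (nat_lit 32057931) (dlOf (nat_lit 1) (nat_lit 0x36400200ce0008ef5282))))))) (.nd (nat_lit 6) 
(.nd (nat_lit 11) (.nd (nat_lit 10) (.nd (nat_lit 31) 
(.lf (nat_lit 1343299595) (dlOf (nat_lit 2) (nat_lit 0x1500000063c02000800081e0481))) 
(.lf (nat_lit 3490783243) (dlOf (nat_lit 1) (nat_lit 0x400400020008020482)))) 
(.lf (nat_lit 3892388875) (dlOf (nat_lit 1) (nat_lit 0x6800200b80008102882)))) (.nd (nat_lit 20) 
(.lf (nat_lit 3623954443) (dlOf (nat_lit 1) (nat_lit 0x8004000e0008004702))) 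
(.lf (nat_lit 3492882443) (dlOf (nat_lit 4) (nat_lit 0x4c03a0005502007401d0002a01003101400230074013802c0005106000400180f4701))))) 
(.nd (nat_lit 8) (.nd (nat_lit 9) (.nd (nat_lit 29) 
(.lf (nat_lit 3492356171) (dlOf (nat_lit 3) (nat_lit 0x21e7000170100050f38000b00800180080044002000800080c1483))) 
(.lf (nat_lit 1881743435) (dlOf (nat_lit 1) (nat_lit 0xa0028fe0001)))) 
(.lf (nat_lit 3491308107) (dlOf (nat_lit 1) (nat_lit 0x10008006800200100008091183)))) 
(.nd (nat_lit 26) (.nd (nat_lit 27) 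
(.lf (nat_lit 3221299531) (dlOf (nat_lit 2) (nat_lit 0xcc0100000b0080070008007c002002a0008090603))) 
(.lf (nat_lit 1744904523) (dlOf (nat_lit 1) (nat_lit 0x4800200180008090d02)))) (.nd (nat_lit 27) 
(.lf (nat_lit 1677795659) (dlOf (nat_lit 1) (nat_lit 0x5000400480008090602))) 
(.lf (nat_lit 3959497035) (dlOf (nat_lit 2) (nat_lit 0xcc0100000ac080070008007c002002a0008090603))))))))) 
(.nd (nat_lit 19) (.nd (nat_lit 27) (.nd (nat_lit 22) (.nd (nat_lit 30) (.nd (nat_lit 8) 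
(.nd (nat_lit 20) (.lf (nat_lit 4563468331) (dlOf (nat_lit 1) (nat_lit 0x40028090001))) 
(.lf (nat_lit 28377131) (dlOf (nat_lit 1) (nat_lit 0x8008000400200020008d90903)))) 
(.lf (nat_lit 872490283) (dlOf (nat_lit 1) (nat_lit 0x8008000400200020008093183)))) 
(.nd (nat_lit 6) 
(.lf (nat_lit 3556835627) (dlOf (nat_lit 1) (nat_lit 0x8008000400200080008080b03))) 
(.nd (nat_lit 10) (.lf (nat_lit 3825271147) (dlOf (nat_lit 2) (nat_lit 0x201e000148180b0700))) 
(.lf (nat_lit 1409355115) (dlOf (nat_lit 1) (nat_lit 0x1c0018006b01)))))) (.nd (nat_lit 13) 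
(.nd (nat_lit 20) 
(.lf (nat_lit 14745643) (dlOf (nat_lit 12) (nat_lit 0x1475d6001896e80090000000640c0166bac00152dd0001882004daeb0000c0081cd57580005e040b5abac0002e02034f5d60001681009baeb0000b008031d7580003004008abac000120200b75d6000088100c3aeb000000080d68008011400206bc0008770383))) 
(.lf (nat_lit 13697067) (dlOf (nat_lit 3) (nat_lit 0x539a7000090040068e2a00066eb000a34b0000c8180020008000c002000a0008740603)))) 
(.nd (nat_lit 20) (.nd (nat_lit 21) 
(.lf (nat_lit 21045291) (dlOf (nat_lit 1) (nat_lit 0x20028a00b01))) 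
(.lf (nat_lit 14753835) (dlOf (nat_lit 4) (nat_lit 0xd3fc8000c40800fa560007d0ec00427fa000178300a83fd0000b8080028008000800200020008770383)))) 
(.lf (nat_lit 13705259) (dlOf (nat_lit 5) (nat_lit 0x48d380004c02001c69c0002581003b34e000120080f71c540006204000c00400da0018740602)))))) 
(.nd (nat_lit 6) (.nd (nat_lit 28) (.nd (nat_lit 9) (.nd (nat_lit 13) 
(.lf (nat_lit 3959488555) (dlOf (nat_lit 1) (nat_lit 0x8008000400200020008090003))) 
(.lf (nat_lit 3959496747) (dlOf (nat_lit 1) (nat_lit 0x20028090001)))) 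
(.lf (nat_lit 2281767467) (dlOf (nat_lit 1) (nat_lit 0xa0028001481)))) (.nd (nat_lit 8) 
(.nd (nat_lit 20) (.lf (nat_lit 4697686059) (dlOf (nat_lit 1) (nat_lit 0x40028090001))) 
(.lf (nat_lit 470876203) (dlOf (nat_lit 2) (nat_lit 0x2d61a8000258181c0680)))) 
(.lf (nat_lit 3691065131) (dlOf (nat_lit 1) (nat_lit 0xa8008003c00200320008007483))))) 
(.nd (nat_lit 9) (.nd (nat_lit 26) (.nd (nat_lit 31) 
(.lf (nat_lit 939589995) (dlOf (nat_lit 1) (nat_lit 0x200280b0701))) 
(.lf (nat_lit 3087073643) (dlOf (nat_lit 2) (nat_lit 0x201e000148180b0700)))) 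
(.lf (nat_lit 1812005227) (dlOf (nat_lit 1) (nat_lit 0x200280b0701)))) (.nd (nat_lit 8) 
(.nd (nat_lit 26) 
(.lf (nat_lit 1744898667) (dlOf (nat_lit 2) (nat_lit 0x1c05a000310200040018095381))) 
(.lf (nat_lit 5301668459) (dlOf (nat_lit 2) (nat_lit 0x30098000fc080020008000800200140008005383)))) 
(.nd (nat_lit 11) 
(.lf (nat_lit 3355509611) (dlOf (nat_lit 1) (nat_lit 0x80080004002000200080a2583))) 
(.lf (nat_lit 134290283) (dlOf (nat_lit 1) (nat_lit 0x1c0020010000800bc82)))))))) (.nd (nat_lit 21) 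
(.nd (nat_lit 30) (.nd (nat_lit 26) (.nd (nat_lit 13) (.nd (nat_lit 20) (.nd (nat_lit 22) 
(.lf (nat_lit 134807595) (dlOf (nat_lit 2) (nat_lit 0x20000000c8180c0c00))) 
(.lf (nat_lit 4784171) (dlOf (nat_lit 1) (nat_lit 0xc00282b0381)))) 
(.lf (nat_lit 10027051) (dlOf (nat_lit 5) (nat_lit 0x38730000520400243980002802000e1cc000060100070e600002c080008008000c002000a00085a0d03)))) 
(.lf (nat_lit 805904427) (dlOf (nat_lit 1) (nat_lit 0xc002000c00081e0e02)))) (.nd (nat_lit 6) 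
(.nd (nat_lit 9) (.lf (nat_lit 2756247595) (dlOf (nat_lit 1) (nat_lit 0x20018220a81))) 
(.lf (nat_lit 1008271915) (dlOf (nat_lit 2) (nat_lit 0x306f8000e4080038008000400200060008b18a03)))) 
(.nd (nat_lit 8) (.lf (nat_lit 474554475) (dlOf (nat_lit 1) (nat_lit 0x80080008002000600091a0a03))) 
(.lf (nat_lit 470360427) (dlOf (nat_lit 1) (nat_lit 0x40004001400080c0702)))))) (.nd (nat_lit 13) 
(.nd (nat_lit 8) (.nd (nat_lit 22) (.nd (nat_lit 26) 
(.lf (nat_lit 3892903979) (dlOf (nat_lit 1) (nat_lit 0x20008002800200060008290e03))) 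
(.lf (nat_lit 3557359659) (dlOf (nat_lit 1) (nat_lit 0x100080058002002800081c0683)))) 
(.lf (nat_lit 3494445099) (dlOf (nat_lit 1) (nat_lit 0x20018220a81)))) 
(.lf (nat_lit 1342767403) (dlOf (nat_lit 1) (nat_lit 0x4004000200080c0502)))) (.nd (nat_lit 6) 
(.nd (nat_lit 26) 
(.lf (nat_lit 3892912171) (dlOf (nat_lit 2) (nat_lit 0x60540001027800000100078008002000200260008290e03))) 
(.lf (nat_lit 4228456491) (dlOf (nat_lit 1) (nat_lit 0x200180d0e01)))) (.nd (nat_lit 8) 
(.lf (nat_lit 4095287403) (dlOf (nat_lit 1) (nat_lit 0x8008000c00200020008090a83))) 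
(.lf (nat_lit 1342775659) (dlOf (nat_lit 1) (nat_lit 0x40004001400080c0702))))))) (.nd (nat_lit 13) 
(.nd (nat_lit 22) (.nd (nat_lit 20) (.nd (nat_lit 9) 
(.lf (nat_lit 3492347947) (dlOf (nat_lit 3) (nat_lit 0x530118017e08b0001202014d0460060822c00044080034004000200080c0c02))) 
(.lf (nat_lit 44632619) (dlOf (nat_lit 3) (nat_lit 0x26d720008b02000f6ba00044019325180)))) 
(.nd (nat_lit 6) (.nd (nat_lit 26) 
(.lf (nat_lit 3493396523) (dlOf (nat_lit 3) (nat_lit 0x80200004481000501000021c0800580080044002000a0008130603))) 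
(.lf (nat_lit 2755199019) (dlOf (nat_lit 3) (nat_lit 0x8020000460100050100002280800580080044002000a0008130603)))) 
(.lf (nat_lit 45678699) (dlOf (nat_lit 1) (nat_lit 0x200029351e81))))) (.nd (nat_lit 9) 
(.nd (nat_lit 8) (.lf (nat_lit 24707115) (dlOf (nat_lit 1) (nat_lit 0x20018bb0b01))) 
(.lf (nat_lit 7934251) (dlOf (nat_lit 1) (nat_lit 0x2c0028518081)))) (.nd (nat_lit 6) 
(.lf (nat_lit 7936555) (dlOf (nat_lit 1) (nat_lit 0x40020006000851b302))) 
(.lf (nat_lit 7930475) (dlOf (nat_lit 1) (nat_lit 0x20028511801)))))) (.nd (nat_lit 20) 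
(.nd (nat_lit 9) (.nd (nat_lit 26) 
(.lf (nat_lit 3492356139) (dlOf (nat_lit 5) (nat_lit 0x261e600010aa00006410030879800402a8000180400381e60000b0100110f30002055000028080010004004a00180c0c02))) 
(.lf (nat_lit 2754158635) (dlOf (nat_lit 3) (nat_lit 0x4e0fc0000640802887e00002c04000c002000600080c0d02)))) 
(.lf (nat_lit 5774058027) (dlOf (nat_lit 1) (nat_lit 0x800180f8a01)))) (.nd (nat_lit 6) 
(.nd (nat_lit 9) 
(.lf (nat_lit 24715307) (dlOf (nat_lit 2) (nat_lit 0x1b2cc001c604000800200020008bb0b02))) 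
(.lf (nat_lit 20521515) (dlOf (nat_lit 1) (nat_lit 0x4002000800089d1482)))) 
(.lf (nat_lit 45686891) (dlOf (nat_lit 1) (nat_lit 0xe0009351e81))))))))) (.nd (nat_lit 8) 
(.nd (nat_lit 13) (.nd (nat_lit 30) (.nd (nat_lit 21) (.nd (nat_lit 26) (.nd (nat_lit 28) 
(.nd (nat_lit 27) 
(.lf (nat_lit 6442516619) (dlOf (nat_lit 1) (nat_lit 0x48008002800200140008090103))) 
(.lf (nat_lit 6576734347) (dlOf (nat_lit 2) (nat_lit 0x5001a001e0000001d8280b0100)))) 
(.nd (nat_lit 6) 
(.lf (nat_lit 805372043) (dlOf (nat_lit 2) (nat_lit 0x12026000200d40005c080010004000a0008090102))) 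
(.lf (nat_lit 805372107) (dlOf (nat_lit 2) (nat_lit 0x9a04f00123818090480))))) (.nd (nat_lit 5) 
(.nd (nat_lit 12) 
(.lf (nat_lit 6509625483) (dlOf (nat_lit 2) (nat_lit 0x55000000076040014002000e00080b0102))) 
(.lf (nat_lit 469831819) (dlOf (nat_lit 1) (nat_lit 0x8008002000200040008007d83)))) 
(.lf (nat_lit 2617311979) (dlOf (nat_lit 1) (nat_lit 0x80080004002000200080a2103))))) 
(.nd (nat_lit 6) (.nd (nat_lit 20) 
(.lf (nat_lit 10551435) (dlOf (nat_lit 1) (nat_lit 0x200185f3d01))) (.nd (nat_lit 22) 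
(.lf (nat_lit 3211403) (dlOf (nat_lit 1) (nat_lit 0x54002000e0008200102))) 
(.lf (nat_lit 24182923) (dlOf (nat_lit 1) (nat_lit 0x20028b80101))))) (.nd (nat_lit 5) 
(.nd (nat_lit 10) 
(.lf (nat_lit 10551499) (dlOf (nat_lit 1) (nat_lit 0x180080004002000200085f5a83))) 
(.lf (nat_lit 61408459) (dlOf (nat_lit 1) (nat_lit 0x580009922d81)))) (.nd (nat_lit 9) 
(.lf (nat_lit 7935211) (dlOf (nat_lit 1) (nat_lit 0x20028519501))) 
(.lf (nat_lit 57740011) (dlOf (nat_lit 1) (nat_lit 0x8008000400200020009795a03))))))) 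
(.nd (nat_lit 26) (.nd (nat_lit 27) (.nd (nat_lit 6) (.nd (nat_lit 11) 
(.lf (nat_lit 5905645707) (dlOf (nat_lit 2) (nat_lit 0x55000000076040014002000e00080b0102))) 
(.lf (nat_lit 3492874379) (dlOf (nat_lit 1) (nat_lit 0x80080004002000200080f4803)))) 
(.lf (nat_lit 3221291211) (dlOf (nat_lit 2) (nat_lit 0x601b800714080008008000400200080008090483)))) 
(.nd (nat_lit 6) (.nd (nat_lit 9) 
(.lf (nat_lit 1208025227) (dlOf (nat_lit 1) (nat_lit 0x4a0018090381))) 
(.lf (nat_lit 1744898699) (dlOf (nat_lit 1) (nat_lit 0x6e00080294002010a0008095483)))) 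
(.lf (nat_lit 3355514059) (dlOf (nat_lit 1) (nat_lit 0x80080004002000200080a9503))))) 
(.nd (nat_lit 6) (.nd (nat_lit 27) (.nd (nat_lit 32) 
(.lf (nat_lit 1677787275) (dlOf (nat_lit 2) (nat_lit 0x12026000200d40005c080010004000a0008090102))) 
(.lf (nat_lit 5972754571) (dlOf (nat_lit 2) (nat_lit 0x5001a001e0000001d8280b0100)))) 
(.nd (nat_lit 5) 
(.lf (nat_lit 5838536843) (dlOf (nat_lit 1) (nat_lit 0x48008002800200140008090103))) 
(.lf (nat_lit 6376983211) (dlOf (nat_lit 1) (nat_lit 0x20028095681))))) (.nd (nat_lit 5) 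
(.nd (nat_lit 27) (.lf (nat_lit 1677787339) (dlOf (nat_lit 2) (nat_lit 0x9a04f00123818090480))) 
(.lf (nat_lit 3959488715) (dlOf (nat_lit 2) (nat_lit 0x601b800714080008008000400200080008090483)))) 
(.lf (nat_lit 1543572715) (dlOf (nat_lit 1) (nat_lit 0x2400200120008146502))))))) (.nd (nat_lit 6) 
(.nd (nat_lit 26) (.nd (nat_lit 21) (.nd (nat_lit 28) (.nd (nat_lit 9) 
(.lf (nat_lit 5905653899) (dlOf (nat_lit 2) (nat_lit 0x400a0000ec0800080080014002000c00080b0103))) 
(.lf (nat_lit 1610688139) (dlOf (nat_lit 1) (nat_lit 0x20028093a01)))) (.nd (nat_lit 27) 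
(.lf (nat_lit 805380235) (dlOf (nat_lit 14) (nat_lit 0x802a0001700801880d4000620400cc0980002f0200ac04c005001a8000b81000201300003c0400800980001702006604c002c01a800058100198130000140400400a80000902005a0540000381002d02a0000180801681500000a0400e80a800020300026008800000180158008005400200580008090103))) 
(.lf (nat_lit 939597963) (dlOf (nat_lit 2) (nat_lit 0x3e404c004602100f300e0000ec1802200080008002007000080b0103))))) 
(.nd (nat_lit 9) (.nd (nat_lit 20) 
(.lf (nat_lit 3491831947) (dlOf (nat_lit 1) (nat_lit 0x400400020008090102))) 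
(.lf (nat_lit 3219595) (dlOf (nat_lit 2) (nat_lit 0x85030001d818200100)))) 
(.lf (nat_lit 7943819) (dlOf (nat_lit 1) (nat_lit 0x20028519e01))))) (.nd (nat_lit 5) 
(.nd (nat_lit 27) (.nd (nat_lit 29) 
(.lf (nat_lit 6509633675) (dlOf (nat_lit 2) (nat_lit 0x400a0000ec0800080080014002000c00080b0103))) 
(.lf (nat_lit 1677795467) (dlOf (nat_lit 14) (nat_lit 0x802a00016c0801880d4000620400cc0980002f0200ac04c005001a8000b81000201300003c0400800980001702006604c002c01a800054100198130000140400400a80000902005a0540000381002d02a0000180801681500000a0400e80a800020300026008800000180158008005400200580008090103)))) 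
(.nd (nat_lit 12) 
(.lf (nat_lit 1812013195) (dlOf (nat_lit 2) (nat_lit 0x3e404c004602100f300e0000ec1802200080008002007000080b0103))) 
(.lf (nat_lit 469840011) (dlOf (nat_lit 1) (nat_lit 0x8008000c00200060008007d83))))) 
(.nd (nat_lit 9) (.lf (nat_lit 2080448683) (dlOf (nat_lit 1) (nat_lit 0x4c004001a0008090602))) 
(.nd (nat_lit 10) (.lf (nat_lit 335620779) (dlOf (nat_lit 1) (nat_lit 0x60018095681))) 
(.lf (nat_lit 469837483) (dlOf (nat_lit 1) (nat_lit 0x6c004000e0008003a82))))))) (.nd (nat_lit 9) 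
(.nd (nat_lit 29) (.nd (nat_lit 5) 
(.lf (nat_lit 3221299403) (dlOf (nat_lit 2) (nat_lit 0x48053002401b802300800038a0c001000200180008090482))) 
(.nd (nat_lit 19) (.lf (nat_lit 20002027) (dlOf (nat_lit 1) (nat_lit 0x200189d9501))) 
(.lf (nat_lit 7943403) (dlOf (nat_lit 1) (nat_lit 0x400200020008519502))))) (.nd (nat_lit 26) 
(.lf (nat_lit 805380299) (dlOf (nat_lit 2) (nat_lit 0x2d013c007807000b202600123838090480))) 
(.nd (nat_lit 27) 
(.lf (nat_lit 1677795531) (dlOf (nat_lit 2) (nat_lit 0x2d013c007807000b202600123838090480))) 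
(.lf (nat_lit 3959496907) (dlOf (nat_lit 2) (nat_lit 0x48053002401b802300800038a0c001000200180008090482)))))) 
(.nd (nat_lit 19) (.nd (nat_lit 20) (.nd (nat_lit 26) 
(.lf (nat_lit 1476473547) (dlOf (nat_lit 1) (nat_lit 0x20008008c81))) 
(.lf (nat_lit 604058315) (dlOf (nat_lit 1) (nat_lit 0x20008008c81)))) 
(.lf (nat_lit 20001483) (dlOf (nat_lit 1) (nat_lit 0x4002000200089d8c82)))) (.nd (nat_lit 5) 
(.nd (nat_lit 20) (.lf (nat_lit 8991435) (dlOf (nat_lit 1) (nat_lit 0x20018518c81))) 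
(.lf (nat_lit 7942859) (dlOf (nat_lit 1) (nat_lit 0x20018518c81)))) (.nd (nat_lit 22) 
(.lf (nat_lit 473508587) (dlOf (nat_lit 1) (nat_lit 0x20018f55a01))) 
(.lf (nat_lit 49883883) (dlOf (nat_lit 1) (nat_lit 0x4002000200094c5a02))))))))) (.nd (nat_lit 11) 
(.nd (nat_lit 5) (.nd (nat_lit 9) (.nd (nat_lit 12) (.nd (nat_lit 6) (.nd (nat_lit 19) 
(.lf (nat_lit 4697694603) (dlOf (nat_lit 1) (nat_lit 0x14002001a0008091002))) 
(.lf (nat_lit 3491307915) (dlOf (nat_lit 1) (nat_lit 0x40018090781)))) (.nd (nat_lit 13) 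
(.lf (nat_lit 4697686475) (dlOf (nat_lit 1) (nat_lit 0x80018091101))) 
(.lf (nat_lit 2080448971) (dlOf (nat_lit 1) (nat_lit 0xc00400020008091102))))) (.nd (nat_lit 13) 
(.nd (nat_lit 19) 
(.lf (nat_lit 19992971) (dlOf (nat_lit 1) (nat_lit 0x218008004c002000600089d8383))) 
(.lf (nat_lit 7934347) (dlOf (nat_lit 1) (nat_lit 0x8008000400200020008518383)))) 
(.lf (nat_lit 7942539) (dlOf (nat_lit 1) (nat_lit 0x20028518381))))) (.nd (nat_lit 31) 
(.nd (nat_lit 6) (.lf (nat_lit 7944075) (dlOf (nat_lit 1) (nat_lit 0x40020002000851a302))) 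
(.nd (nat_lit 13) (.lf (nat_lit 50398155) (dlOf (nat_lit 1) (nat_lit 0x400194c2881))) 
(.lf (nat_lit 671163339) (dlOf (nat_lit 1) (nat_lit 0xc0028142881))))) (.nd (nat_lit 26) 
(.lf (nat_lit 4160820107) (dlOf (nat_lit 1) (nat_lit 0x2400400040018009002))) (.nd (nat_lit 28) 
(.lf (nat_lit 3422622603) (dlOf (nat_lit 1) (nat_lit 0x40018009001))) 
(.lf (nat_lit 2617316235) (dlOf (nat_lit 1) (nat_lit 0x4004000200180a9002))))))) (.nd (nat_lit 26) 
(.nd (nat_lit 6) (.nd (nat_lit 9) (.nd (nat_lit 13) 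
(.lf (nat_lit 1342247339) (dlOf (nat_lit 1) (nat_lit 0x8008002000200040008008483))) 
(.lf (nat_lit 1342255531) (dlOf (nat_lit 1) (nat_lit 0x20028008481)))) (.nd (nat_lit 10) 
(.lf (nat_lit 2281767851) (dlOf (nat_lit 1) (nat_lit 0x40028002681))) 
(.lf (nat_lit 8456107) (dlOf (nat_lit 1) (nat_lit 0x20008514301))))) (.nd (nat_lit 9) 
(.nd (nat_lit 10) (.lf (nat_lit 4295033323) (dlOf (nat_lit 1) (nat_lit 0x3000400100008017302))) 
(.lf (nat_lit 61933035) (dlOf (nat_lit 1) (nat_lit 0x800200020009923602)))) (.nd (nat_lit 24) 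
(.lf (nat_lit 36766699) (dlOf (nat_lit 1) (nat_lit 0x80009072881))) 
(.lf (nat_lit 53543915) (dlOf (nat_lit 1) (nat_lit 0x400195f2881)))))) (.nd (nat_lit 27) 
(.nd (nat_lit 13) (.nd (nat_lit 28) 
(.lf (nat_lit 5435884523) (dlOf (nat_lit 2) (nat_lit 0x400a005f88080068008002c002002c0008002883))) 
(.lf (nat_lit 3019965419) (dlOf (nat_lit 1) (nat_lit 0x800280d2881)))) 
(.lf (nat_lit 1140925419) (dlOf (nat_lit 1) (nat_lit 0x20028002881)))) (.nd (nat_lit 6) 
(.lf (nat_lit 2348877739) (dlOf (nat_lit 2) (nat_lit 0x380000003004007400200260008004302))) 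
(.nd (nat_lit 10) 
(.lf (nat_lit 2348876779) (dlOf (nat_lit 1) (nat_lit 0x128008003800200500008002883))) 
(.lf (nat_lit 469829611) (dlOf (nat_lit 1) (nat_lit 0x8008000400200020008004603)))))))) 
(.nd (nat_lit 26) (.nd (nat_lit 20) (.nd (nat_lit 28) (.nd (nat_lit 6) (.nd (nat_lit 5) 
(.lf (nat_lit 1610680715) (dlOf (nat_lit 1) (nat_lit 0x40028004e81))) 
(.lf (nat_lit 54593963) (dlOf (nat_lit 1) (nat_lit 0x20029654e81)))) (.nd (nat_lit 27) 
(.lf (nat_lit 3758164427) (dlOf (nat_lit 1) (nat_lit 0x380080004002001600080d4e83))) 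
(.nd (nat_lit 29) (.lf (nat_lit 134285771) (dlOf (nat_lit 2) (nat_lit 0x404a00b9c818004e80))) 
(.lf (nat_lit 3892382155) (dlOf (nat_lit 1) (nat_lit 0x20028104e81)))))) (.nd (nat_lit 9) 
(.nd (nat_lit 5) (.lf (nat_lit 3490253195) (dlOf (nat_lit 1) (nat_lit 0x800200020008004e82))) 
(.lf (nat_lit 5771430315) (dlOf (nat_lit 1) (nat_lit 0x30008001c00200020008004e83)))) 
(.nd (nat_lit 13) 
(.lf (nat_lit 4563471243) (dlOf (nat_lit 1) (nat_lit 0x8008007000200420008095c83))) 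
(.lf (nat_lit 4563479435) (dlOf (nat_lit 1) (nat_lit 0x40028095c81)))))) (.nd (nat_lit 5) 
(.nd (nat_lit 6) (.nd (nat_lit 12) 
(.lf (nat_lit 49351051) (dlOf (nat_lit 1) (nat_lit 0x80029464e81))) 
(.lf (nat_lit 7936395) (dlOf (nat_lit 1) (nat_lit 0x40040002000851af82)))) 
(.lf (nat_lit 37300683) (dlOf (nat_lit 1) (nat_lit 0x4004000200090d4e82)))) (.nd (nat_lit 13) 
(.lf (nat_lit 57739691) (dlOf (nat_lit 1) (nat_lit 0xa0029794e81))) (.nd (nat_lit 24) 
(.lf (nat_lit 1345923499) (dlOf (nat_lit 2) (nat_lit 0x41b200b2e0200020018e24e81))) 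
(.lf (nat_lit 20523435) (dlOf (nat_lit 1) (nat_lit 0x380080020002003c00089d4e83))))))) 
(.nd (nat_lit 5) (.nd (nat_lit 9) (.nd (nat_lit 6) (.nd (nat_lit 13) 
(.lf (nat_lit 3556837771) (dlOf (nat_lit 1) (nat_lit 0x4002001c0008084e82))) 
(.lf (nat_lit 2754685323) (dlOf (nat_lit 1) (nat_lit 0x200180f4e81)))) 
(.lf (nat_lit 3154184651) (dlOf (nat_lit 1) (nat_lit 0x16e0008104e81)))) (.nd (nat_lit 6) 
(.nd (nat_lit 12) (.lf (nat_lit 738274187) (dlOf (nat_lit 1) (nat_lit 0x400400020008095c82))) 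
(.lf (nat_lit 2885753739) (dlOf (nat_lit 1) (nat_lit 0x14002000a000800bc82)))) 
(.lf (nat_lit 5704321995) (dlOf (nat_lit 1) (nat_lit 0xa0008055d81))))) (.nd (nat_lit 9) 
(.nd (nat_lit 6) (.nd (nat_lit 10) 
(.lf (nat_lit 472451499) (dlOf (nat_lit 1) (nat_lit 0x8008000400200020008984e83))) 
(.lf (nat_lit 1543581099) (dlOf (nat_lit 1) (nat_lit 0x60008005000200140008146d03)))) 
(.lf (nat_lit 1543572971) (dlOf (nat_lit 1) (nat_lit 0x3000200020008146e82)))) (.nd (nat_lit 6) 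
(.nd (nat_lit 13) (.lf (nat_lit 2885753771) (dlOf (nat_lit 1) (nat_lit 0x1c0020012000800bd82))) 
(.lf (nat_lit 2885761963) (dlOf (nat_lit 1) (nat_lit 0x110002800bd81)))) 
(.lf (nat_lit 738274283) (dlOf (nat_lit 1) (nat_lit 0x400200020008095e82)))))))))) 
(.nd (nat_lit 13) (.nd (nat_lit 5) (.nd (nat_lit 6) (.nd (nat_lit 19) (.nd (nat_lit 26) 
(.nd (nat_lit 20) (.nd (nat_lit 27) (.nd (nat_lit 7) 
(.lf (nat_lit 2953117707) (dlOf (nat_lit 3) (nat_lit 0x400b80010058001802b0009015000580a4002404e001001e000c00b8001804c0014012001000500080010004800000c7c3400340540002027000500f0018e0180060008008400200100008140283))) 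
(.nd (nat_lit 8) (.lf (nat_lit 5637472395) (dlOf (nat_lit 1) (nat_lit 0x1000180f0f81))) 
(.lf (nat_lit 46467979) (dlOf (nat_lit 1) (nat_lit 0x400400020009385c82))))) (.nd (nat_lit 29) 
(.nd (nat_lit 30) 
(.lf (nat_lit 134545419) (dlOf (nat_lit 2) (nat_lit 0xb021800d440800e8008003400200060008070503))) 
(.lf (nat_lit 3355770891) (dlOf (nat_lit 1) (nat_lit 0x20008110081)))) 
(.lf (nat_lit 671416331) (dlOf (nat_lit 1) (nat_lit 0x20008002c00200060008190083))))) 
(.nd (nat_lit 21) (.nd (nat_lit 23) 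
(.lf (nat_lit 18153483) (dlOf (nat_lit 1) (nat_lit 0x400400060008910602))) 
(.lf (nat_lit 26542091) (dlOf (nat_lit 1) (nat_lit 0x400200020008c50002)))) (.nd (nat_lit 7) 
(.lf (nat_lit 62193675) (dlOf (nat_lit 1) (nat_lit 0x60009970081))) 
(.lf (nat_lit 3473547) (dlOf (nat_lit 1) (nat_lit 0x20018200101)))))) (.nd (nat_lit 27) 
(.nd (nat_lit 10) (.nd (nat_lit 20) 
(.lf (nat_lit 67436555) (dlOf (nat_lit 1) (nat_lit 0x6c002002e0008140482))) 
(.lf (nat_lit 68485131) (dlOf (nat_lit 1) (nat_lit 0x60018580501)))) 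
(.lf (nat_lit 2751792139) (dlOf (nat_lit 1) (nat_lit 0x20018002881)))) (.nd (nat_lit 28) 
(.nd (nat_lit 7) 
(.lf (nat_lit 201654283) (dlOf (nat_lit 2) (nat_lit 0xb021800b440800e8008003400200060008070503))) 
(.lf (nat_lit 5570363531) (dlOf (nat_lit 1) (nat_lit 0x40018100f01)))) (.nd (nat_lit 30) 
(.lf (nat_lit 2617573387) (dlOf (nat_lit 10) (nat_lit 0x98058006c02a000ac820005016001380a8002b00800140580015002000a02a000a20100020160005000809a80a8002700402ac0540013702000202a0009b0100f10150004d00801c8008000800200120008100083))) 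
(.nd (nat_lit 31) 
(.lf (nat_lit 1543831563) (dlOf (nat_lit 1) (nat_lit 0x20008002c00200060008190083))) 
(.lf (nat_lit 3691315211) (dlOf (nat_lit 3) (nat_lit 0x400b80010058001802b0009015000580a400240440010019000300a0006004800140120010005000800100048000017a63400340540002022000500c802f34180060008008400200100008140283)))))))) 
(.nd (nat_lit 28) (.nd (nat_lit 24) (.nd (nat_lit 7) (.nd (nat_lit 20) 
(.lf (nat_lit 2819424267) (dlOf (nat_lit 1) (nat_lit 0x1400400020008280082))) 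
(.lf (nat_lit 45940747) (dlOf (nat_lit 1) (nat_lit 0x20029370101)))) 
(.lf (nat_lit 8192395) (dlOf (nat_lit 1) (nat_lit 0x400200020008511002)))) (.nd (nat_lit 7) 
(.nd (nat_lit 9) (.lf (nat_lit 29163531) (dlOf (nat_lit 1) (nat_lit 0x8008000400200020008dd0603))) 
(.lf (nat_lit 57477643) (dlOf (nat_lit 1) (nat_lit 0x3c004000a0009795002)))) 
(.lf (nat_lit 20778379) (dlOf (nat_lit 1) (nat_lit 0x200289d6c81))))) (.nd (nat_lit 11) 
(.nd (nat_lit 7) (.nd (nat_lit 26) 
(.lf (nat_lit 1343029259) (dlOf (nat_lit 7) (nat_lit 0x2038a0014f02001c1d100040e280045c1000a8744001038a00261540008a8300130aa000450080078744001c38a000fb0400181d100090e28003dc1000980080004002004a0008130483))) 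
(.lf (nat_lit 470614027) (dlOf (nat_lit 7) (nat_lit 0x2038a0014f02001c1d100040e280046c1000a8744001038a00261540008c8300130aa000460080078744001c38a000fa0400181d100090e28003dc1000980080004002004a0008130483)))) 
(.lf (nat_lit 6377242763) (dlOf (nat_lit 1) (nat_lit 0x4004000200180c0f02)))) (.nd (nat_lit 7) 
(.nd (nat_lit 26) (.lf (nat_lit 1879902219) (dlOf (nat_lit 1) (nat_lit 0x4004000400083d4702))) 
(.lf (nat_lit 1410140171) (dlOf (nat_lit 2) (nat_lit 0x14c0be0004e02000600080f4701)))) 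
(.lf (nat_lit 1410140299) (dlOf (nat_lit 1) (nat_lit 0x29000280f4801))))))) (.nd (nat_lit 28) 
(.nd (nat_lit 19) (.nd (nat_lit 8) (.nd (nat_lit 7) (.nd (nat_lit 21) 
(.lf (nat_lit 1745158219) (dlOf (nat_lit 2) (nat_lit 0x118038004f01980058000000ac0c0008004003000080b0602))) 
(.lf (nat_lit 61145163) (dlOf (nat_lit 1) (nat_lit 0x400198c0001)))) 
(.lf (nat_lit 20255435) (dlOf (nat_lit 1) (nat_lit 0x4002000200089d8c82)))) (.nd (nat_lit 9) 
(.nd (nat_lit 20) 
(.lf (nat_lit 3221553483) (dlOf (nat_lit 2) (nat_lit 0x180380003804002800200120008138002))) 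
(.lf (nat_lit 3473739) (dlOf (nat_lit 1) (nat_lit 0x20018200601)))) 
(.lf (nat_lit 2751792971) (dlOf (nat_lit 1) (nat_lit 0x20008003e81))))) (.nd (nat_lit 22) 
(.nd (nat_lit 10) (.nd (nat_lit 23) 
(.lf (nat_lit 69009483) (dlOf (nat_lit 1) (nat_lit 0x20028860601))) 
(.lf (nat_lit 10289227) (dlOf (nat_lit 1) (nat_lit 0x280080078002005000085c0f83)))) 
(.lf (nat_lit 36504651) (dlOf (nat_lit 1) (nat_lit 0x20019072881)))) (.nd (nat_lit 8) 
(.lf (nat_lit 49086539) (dlOf (nat_lit 1) (nat_lit 0x340019460001))) (.nd (nat_lit 10) 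
(.lf (nat_lit 23920971) (dlOf (nat_lit 1) (nat_lit 0x800400020008b80602))) 
(.lf (nat_lit 40699211) (dlOf (nat_lit 1) (nat_lit 0x4004001c00091f3302))))))) (.nd (nat_lit 27) 
(.nd (nat_lit 26) (.nd (nat_lit 8) (.nd (nat_lit 29) 
(.lf (nat_lit 4563730507) (dlOf (nat_lit 1) (nat_lit 0x4002000200080d0502))) 
(.lf (nat_lit 5100601419) (dlOf (nat_lit 1) (nat_lit 0x300080014002000e00080f0603)))) 
(.lf (nat_lit 805634379) (dlOf (nat_lit 1) (nat_lit 0x20028158001)))) (.nd (nat_lit 21) 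
(.lf (nat_lit 872742987) (dlOf (nat_lit 2) (nat_lit 0x118038004f019800580000009e0c0008004003000080b0602))) 
(.lf (nat_lit 4096065611) (dlOf (nat_lit 1) (nat_lit 0x200080e0001))))) (.nd (nat_lit 7) 
(.nd (nat_lit 8) (.nd (nat_lit 19) 
(.lf (nat_lit 4697948235) (dlOf (nat_lit 1) (nat_lit 0x4002000200080d0502))) 
(.lf (nat_lit 472711243) (dlOf (nat_lit 1) (nat_lit 0x58008003400200380008a40003)))) 
(.lf (nat_lit 3624209739) (dlOf (nat_lit 1) (nat_lit 0x800200020008146a02)))) (.nd (nat_lit 26) 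
(.lf (nat_lit 5773263051) (dlOf (nat_lit 1) (nat_lit 0x4002000400080c1782))) 
(.lf (nat_lit 6377242827) (dlOf (nat_lit 1) (nat_lit 0x80080004002000200080c1b83)))))))) 
(.nd (nat_lit 7) (.nd (nat_lit 31) (.nd (nat_lit 19) (.nd (nat_lit 9) (.nd (nat_lit 26) 
(.nd (nat_lit 27) (.lf (nat_lit 1342505003) (dlOf (nat_lit 1) (nat_lit 0x400400020018040602))) 
(.lf (nat_lit 1745158187) (dlOf (nat_lit 3) (nat_lit 0x60064000250200e4032000120180b0400)))) 
(.nd (nat_lit 27) 
(.lf (nat_lit 872742955) (dlOf (nat_lit 3) (nat_lit 0x60064000260200e4032000128180b0400))) 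
(.nd (nat_lit 28) 
(.lf (nat_lit 201654315) (dlOf (nat_lit 2) (nat_lit 0x40088000740800380080020002000c0008070803))) 
(.lf (nat_lit 470089771) (dlOf (nat_lit 1) (nat_lit 0x400400020018040602)))))) (.nd (nat_lit 6) 
(.nd (nat_lit 10) 
(.lf (nat_lit 23396907) (dlOf (nat_lit 5) (nat_lit 0x64c8b001261c00003e08019322c00a58700000f020016c3800003c0804c61c00000e04005c004005a0008b80e82))) 
(.lf (nat_lit 331307) (dlOf (nat_lit 1) (nat_lit 0x40018007181)))) 
(.lf (nat_lit 46467947) (dlOf (nat_lit 1) (nat_lit 0x1c00200060009385c02))))) (.nd (nat_lit 21) 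
(.nd (nat_lit 6) (.nd (nat_lit 8) (.nd (nat_lit 24) 
(.lf (nat_lit 1900587) (dlOf (nat_lit 2) (nat_lit 0xc52e001c540800c0008004800200440008150003))) 
(.lf (nat_lit 18677803) (dlOf (nat_lit 1) (nat_lit 0xe800800ac00200300008960903)))) 
(.lf (nat_lit 46989611) (dlOf (nat_lit 1) (nat_lit 0x400400020009380b02)))) 
(.lf (nat_lit 69009515) (dlOf (nat_lit 1) (nat_lit 0x4c0018860a01)))) (.nd (nat_lit 6) 
(.nd (nat_lit 22) 
(.lf (nat_lit 3997739) (dlOf (nat_lit 2) (nat_lit 0x10247000144080018008000400200040008260c03))) 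
(.lf (nat_lit 16580651) (dlOf (nat_lit 1) (nat_lit 0x8004001000088c0782)))) (.nd (nat_lit 8) 
(.lf (nat_lit 1346175083) (dlOf (nat_lit 1) (nat_lit 0x400400020008e60a02))) 
(.lf (nat_lit 12386667) (dlOf (nat_lit 2) (nat_lit 0x340c40019f8e0003404005a00286c0701))))))) 
(.nd (nat_lit 26) (.nd (nat_lit 29) (.nd (nat_lit 19) (.nd (nat_lit 6) 
(.lf (nat_lit 2550464555) (dlOf (nat_lit 1) (nat_lit 0x600280c0c01))) 
(.lf (nat_lit 3489995627) (dlOf (nat_lit 1) (nat_lit 0x40020002000800bc82)))) (.nd (nat_lit 20) 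
(.lf (nat_lit 3492610091) (dlOf (nat_lit 7) (nat_lit 0xc643f80001002008e1fc000078103260fe0000300813887f0000160404e83f8000090200ce1fc05940ae000000104d380081ed0002136200080e0603))) 
(.lf (nat_lit 3493658667) (dlOf (nat_lit 2) (nat_lit 0x3028000100780005408000400400060008190802))))) 
(.nd (nat_lit 6) (.nd (nat_lit 27) 
(.lf (nat_lit 4026859563) (dlOf (nat_lit 2) (nat_lit 0xb6017004200b4000e4080004004002200080a0982))) 
(.lf (nat_lit 3892641835) (dlOf (nat_lit 1) (nat_lit 0x3f400400940008180382)))) 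
(.lf (nat_lit 4026859627) (dlOf (nat_lit 4) (nat_lit 0x806c0001702000a0360000581000401b000028080458008011400201a000080a1483))))) 
(.nd (nat_lit 27) (.nd (nat_lit 30) (.nd (nat_lit 19) 
(.lf (nat_lit 2483355691) (dlOf (nat_lit 3) (nat_lit 0x200500002c02001002a005a0140000ac1000480080080002001400080d0a83))) 
(.lf (nat_lit 2754412587) (dlOf (nat_lit 7) (nat_lit 0xc644220001302008e21100007810271108800030081930844000160404e8422000090200ce21105940a9000000104d380081ed0002136200080e0603)))) 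
(.nd (nat_lit 6) 
(.lf (nat_lit 3288662059) (dlOf (nat_lit 2) (nat_lit 0xb6017004200b4001fc080004004002200080a0982))) 
(.lf (nat_lit 3288662123) (dlOf (nat_lit 4) (nat_lit 0x806c0001702000a0360000581000401b000028080458008011400201a000080a1483))))) 
(.nd (nat_lit 28) 
(.lf (nat_lit 2349137963) (dlOf (nat_lit 3) (nat_lit 0x200500002f02001002a005a0140000b81000480080080002001400080d0a83))) 
(.lf (nat_lit 2617573419) (dlOf (nat_lit 4) (nat_lit 0x4005801bc202001e02c00da6810010016006cdc0801d8008013000200320008100783))))))) 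
(.nd (nat_lit 6) (.nd (nat_lit 8) (.nd (nat_lit 9) (.nd (nat_lit 26) (.nd (nat_lit 27) 
(.lf (nat_lit 805634219) (dlOf (nat_lit 1) (nat_lit 0x20018154c01))) 
(.lf (nat_lit 402981035) (dlOf (nat_lit 1) (nat_lit 0x8004000600180c1502)))) 
(.lf (nat_lit 335872171) (dlOf (nat_lit 1) (nat_lit 0x1c00180c1501)))) (.nd (nat_lit 19) 
(.lf (nat_lit 20256427) (dlOf (nat_lit 1) (nat_lit 0x4002000200089da002))) 
(.lf (nat_lit 20780715) (dlOf (nat_lit 1) (nat_lit 0x80080008002000200089da003))))) 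
(.nd (nat_lit 10) (.nd (nat_lit 19) 
(.lf (nat_lit 5503257003) (dlOf (nat_lit 1) (nat_lit 0x20004000800080e4e82))) 
(.lf (nat_lit 49088939) (dlOf (nat_lit 1) (nat_lit 0x20009464e81)))) (.nd (nat_lit 9) 
(.lf (nat_lit 8193451) (dlOf (nat_lit 1) (nat_lit 0x400200020008513602))) 
(.lf (nat_lit 2886010795) (dlOf (nat_lit 2) (nat_lit 0xf000000060080008008003000200020008144303)))))) 
(.nd (nat_lit 9) (.nd (nat_lit 10) (.nd (nat_lit 11) 
(.lf (nat_lit 46465259) (dlOf (nat_lit 1) (nat_lit 0x80009380a81))) 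
(.lf (nat_lit 8194283) (dlOf (nat_lit 2) (nat_lit 0x49b0000180200260008514b01)))) (.nd (nat_lit 8) 
(.nd (nat_lit 20) 
(.lf (nat_lit 3624209643) (dlOf (nat_lit 2) (nat_lit 0x180000004c04005c00200020008146502))) 
(.lf (nat_lit 20253931) (dlOf (nat_lit 3) (nat_lit 0x9af38004d76e000320400e2bcf000168189d6500)))) 
(.lf (nat_lit 3489992171) (dlOf (nat_lit 2) (nat_lit 0x222f00006818006e80))))) (.nd (nat_lit 8) 
(.nd (nat_lit 19) 
(.lf (nat_lit 5503257323) (dlOf (nat_lit 1) (nat_lit 0x100080004002000200080e5a03))) 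
(.nd (nat_lit 24) (.lf (nat_lit 40700651) (dlOf (nat_lit 1) (nat_lit 0x800291f5a01))) 
(.lf (nat_lit 57477867) (dlOf (nat_lit 1) (nat_lit 0x68008000400200020009795a03))))) 
(.nd (nat_lit 19) (.lf (nat_lit 2886009835) (dlOf (nat_lit 1) (nat_lit 0x20018142881))) 
(.lf (nat_lit 1880949739) (dlOf (nat_lit 1) (nat_lit 0x8008000400200020008d72883))))))))) 
(.nd (nat_lit 5) (.nd (nat_lit 28) (.nd (nat_lit 21) (.nd (nat_lit 26) (.nd (nat_lit 27) 
(.nd (nat_lit 20) (.nd (nat_lit 7) (.nd (nat_lit 10) 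
(.lf (nat_lit 5905915915) (dlOf (nat_lit 1) (nat_lit 0x40008160481))) 
(.lf (nat_lit 38085643) (dlOf (nat_lit 1) (nat_lit 0x400200120009132882)))) 
(.lf (nat_lit 21307531) (dlOf (nat_lit 2) (nat_lit 0x6eed40000d4080010008003c00200480008a30f03)))) 
(.nd (nat_lit 6) (.nd (nat_lit 23) 
(.lf (nat_lit 18161675) (dlOf (nat_lit 1) (nat_lit 0x400400020008910602))) 
(.lf (nat_lit 26550283) (dlOf (nat_lit 1) (nat_lit 0x8008000400200020008c50003)))) 
(.lf (nat_lit 43851851) (dlOf (nat_lit 2) (nat_lit 0x286070033b40801500080028002000400092a0003))))) 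
(.nd (nat_lit 30) (.nd (nat_lit 29) 
(.lf (nat_lit 134553611) (dlOf (nat_lit 2) (nat_lit 0x38086003510200160008070501))) 
(.lf (nat_lit 671424523) (dlOf (nat_lit 1) (nat_lit 0x1a0028190081)))) (.nd (nat_lit 6) 
(.lf (nat_lit 1745166475) (dlOf (nat_lit 3) (nat_lit 0x201700a800b00009010011005800044040010004000400080c0f02))) 
(.lf (nat_lit 3892650059) (dlOf (nat_lit 2) (nat_lit 0x80640004c04012800200d00008180682)))))) 
(.nd (nat_lit 27) (.nd (nat_lit 29) (.nd (nat_lit 31) 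
(.lf (nat_lit 67444747) (dlOf (nat_lit 1) (nat_lit 0xe0018140481))) 
(.lf (nat_lit 6509895691) (dlOf (nat_lit 1) (nat_lit 0x40008160481)))) (.nd (nat_lit 7) 
(.lf (nat_lit 2755993611) (dlOf (nat_lit 1) (nat_lit 0x200181c0681))) 
(.lf (nat_lit 4899283083) (dlOf (nat_lit 1) (nat_lit 0x400180f0f01))))) (.nd (nat_lit 31) 
(.nd (nat_lit 30) 
(.lf (nat_lit 201662475) (dlOf (nat_lit 2) (nat_lit 0x38086002d10200160008070501))) 
(.lf (nat_lit 5570371595) (dlOf (nat_lit 1) (nat_lit 0x400200020008110002)))) (.nd (nat_lit 6) 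
(.lf (nat_lit 2349146123) (dlOf (nat_lit 1) (nat_lit 0x18008000c002000600080d0483))) 
(.lf (nat_lit 2349146187) (dlOf (nat_lit 5) (nat_lit 0x7401c0005602000a02b001a00a80070034000aa0c005c04800100150002a0202040158001080800e000800a0002008800080d0d03))))))) 
(.nd (nat_lit 7) (.nd (nat_lit 9) (.nd (nat_lit 19) (.nd (nat_lit 20) 
(.lf (nat_lit 2433035) (dlOf (nat_lit 1) (nat_lit 0x60008008800200560008160683))) 
(.lf (nat_lit 62201867) (dlOf (nat_lit 2) (nat_lit 0x948a000c70200120009970081)))) (.nd (nat_lit 6) 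
(.lf (nat_lit 29171723) (dlOf (nat_lit 1) (nat_lit 0x3f80080048002004c0008dd0603))) 
(.lf (nat_lit 7151947) (dlOf (nat_lit 1) (nat_lit 0x1400184b0781))))) (.nd (nat_lit 6) 
(.nd (nat_lit 11) (.lf (nat_lit 58008075) (dlOf (nat_lit 1) (nat_lit 0x2600197a8001))) 
(.lf (nat_lit 57485835) (dlOf (nat_lit 1) (nat_lit 0x60029795001)))) 
(.lf (nat_lit 23405131) (dlOf (nat_lit 1) (nat_lit 0x8008000400200020008b81183))))) 
(.nd (nat_lit 6) (.nd (nat_lit 8) (.nd (nat_lit 9) 
(.lf (nat_lit 3481739) (dlOf (nat_lit 2) (nat_lit 0x125470001d818200100))) 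
(.lf (nat_lit 19740299) (dlOf (nat_lit 1) (nat_lit 0x200189d9e01)))) 
(.lf (nat_lit 2754947467) (dlOf (nat_lit 1) (nat_lit 0x200180f4e81)))) (.nd (nat_lit 8) 
(.nd (nat_lit 19) (.lf (nat_lit 20263627) (dlOf (nat_lit 1) (nat_lit 0x80080004002000200089d8c83))) 
(.lf (nat_lit 19739339) (dlOf (nat_lit 1) (nat_lit 0x200189d8c81)))) (.nd (nat_lit 10) 
(.lf (nat_lit 49097163) (dlOf (nat_lit 1) (nat_lit 0x400400020009464e82))) 
(.lf (nat_lit 8201675) (dlOf (nat_lit 1) (nat_lit 0x400200020008513602)))))))) (.nd (nat_lit 26) 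
(.nd (nat_lit 31) (.nd (nat_lit 19) (.nd (nat_lit 29) (.nd (nat_lit 30) 
(.lf (nat_lit 268771339) (dlOf (nat_lit 1) (nat_lit 0x7e0008140a01))) 
(.lf (nat_lit 1342513163) (dlOf (nat_lit 1) (nat_lit 0x20008000400200040008040483)))) 
(.nd (nat_lit 32) 
(.lf (nat_lit 1879384075) (dlOf (nat_lit 1) (nat_lit 0x10008000400200020008110a03))) 
(.lf (nat_lit 6174351371) (dlOf (nat_lit 1) (nat_lit 0x400200020008110002))))) (.nd (nat_lit 6) 
(.lf (nat_lit 5773271179) (dlOf (nat_lit 1) (nat_lit 0xe00280c0f81))) 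
(.lf (nat_lit 1346183243) (dlOf (nat_lit 3) (nat_lit 0x1e15f001f0af0029835c0070136004608b000ab05000b06c8000000800b0008001400200160008e60603))))) 
(.nd (nat_lit 6) (.nd (nat_lit 7) 
(.lf (nat_lit 3494191115) (dlOf (nat_lit 1) (nat_lit 0x200181c0681))) (.nd (nat_lit 10) 
(.lf (nat_lit 3490523531) (dlOf (nat_lit 1) (nat_lit 0x400200020008004e82))) 
(.lf (nat_lit 3624217995) (dlOf (nat_lit 1) (nat_lit 0x20008002400200100008146c83))))) 
(.nd (nat_lit 8) (.lf (nat_lit 2550472779) (dlOf (nat_lit 2) (nat_lit 0x16006000188180c1480))) 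
(.lf (nat_lit 3490524491) (dlOf (nat_lit 1) (nat_lit 0x40028006a01)))))) (.nd (nat_lit 27) 
(.nd (nat_lit 30) (.nd (nat_lit 6) 
(.lf (nat_lit 2483363851) (dlOf (nat_lit 1) (nat_lit 0x18008000c002000600080d0483))) 
(.lf (nat_lit 2483363915) (dlOf (nat_lit 5) (nat_lit 0x7401c0005d02000a02b001a00a80070034000b80c005c04800100150002d8202040158001240800e000800a0002008800080d0d03)))) 
(.nd (nat_lit 7) (.nd (nat_lit 11) 
(.lf (nat_lit 3557105675) (dlOf (nat_lit 1) (nat_lit 0x80018130001))) 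
(.lf (nat_lit 1410148363) (dlOf (nat_lit 2) (nat_lit 0x13c05f000270180f4700)))) 
(.lf (nat_lit 6241460363) (dlOf (nat_lit 3) (nat_lit 0x5804a000350200a8016002900a80148000000640c0008004000600080f0f02))))) 
(.nd (nat_lit 29) (.nd (nat_lit 22) (.nd (nat_lit 30) (.nd (nat_lit 31) 
(.lf (nat_lit 470097931) (dlOf (nat_lit 1) (nat_lit 0x20008000400200040008040483))) 
(.lf (nat_lit 2617581579) (dlOf (nat_lit 4) (nat_lit 0x480a8002b20400040580014002001202a0009c018100080)))) 
(.lf (nat_lit 1543839755) (dlOf (nat_lit 1) (nat_lit 0x1a0028190081)))) 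
(.lf (nat_lit 474292235) (dlOf (nat_lit 1) (nat_lit 0x2ae0009120001)))) (.nd (nat_lit 6) 
(.lf (nat_lit 1006968843) (dlOf (nat_lit 1) (nat_lit 0x10008000400200020008110a03))) 
(.lf (nat_lit 6377251019) (dlOf (nat_lit 1) (nat_lit 0x4002000200080c1b82)))))))) (.nd (nat_lit 19) 
(.nd (nat_lit 26) (.nd (nat_lit 6) (.nd (nat_lit 7) (.nd (nat_lit 20) (.nd (nat_lit 27) 
(.lf (nat_lit 5905915947) (dlOf (nat_lit 1) (nat_lit 0x400400020008160502))) 
(.lf (nat_lit 134553643) (dlOf (nat_lit 4) (nat_lit 0x36012c0be0084039604101e901f00cf00f4064c07200aa038018e01880a20050015402405a2011008b0080000a06007d010803440220001e04035e031002e01601450044000300c0030002000c0008070902)))) 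
(.lf (nat_lit 26550315) (dlOf (nat_lit 3) (nat_lit 0x36b1800375140000b0100132c6000354500002b0400040018c50381)))) 
(.nd (nat_lit 8) (.lf (nat_lit 20264619) (dlOf (nat_lit 1) (nat_lit 0x4002000200089da002))) 
(.lf (nat_lit 53815723) (dlOf (nat_lit 1) (nat_lit 0xc002000200095f4e82))))) (.nd (nat_lit 11) 
(.nd (nat_lit 8) (.lf (nat_lit 32841835) (dlOf (nat_lit 1) (nat_lit 0xc0018f30a01))) 
(.lf (nat_lit 6442787179) (dlOf (nat_lit 11) (nat_lit 0x101a000100c40006808002c068006603100030178000cc1800700d000480620003204000803400050188000c41000300c4000600400080620002f02000e0310001701000501880007c0800100d000c8064000c03100250178000782000300c800038040d1c004009400181b0702)))) 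
(.nd (nat_lit 7) (.lf (nat_lit 47524203) (dlOf (nat_lit 1) (nat_lit 0x1c0019404e81))) 
(.lf (nat_lit 3490000363) (dlOf (nat_lit 1) (nat_lit 0x220008006e81)))))) (.nd (nat_lit 28) 
(.nd (nat_lit 27) (.nd (nat_lit 31) 
(.lf (nat_lit 67444779) (dlOf (nat_lit 1) (nat_lit 0x540008140681))) 
(.lf (nat_lit 6509895723) (dlOf (nat_lit 1) (nat_lit 0x400400020008160502)))) (.nd (nat_lit 7) 
(.nd (nat_lit 31) 
(.lf (nat_lit 201662507) (dlOf (nat_lit 5) (nat_lit 0xf02580d0010801dc08200e603e001201e804e80e40048062005201a00270090065804400050280328086001c041002401d000094180648108033c0220001d0401bc0110000c018070800))) 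
(.lf (nat_lit 2349146155) (dlOf (nat_lit 6) (nat_lit 0xb6008002b0038000640801d001c0003102004002a00b8008003a0038000c0060002f08035a02a00900140046006006b8020011600f0193007004f803403000060002e10000801000690070000b4100850008026c002046800080d0a83)))) 
(.lf (nat_lit 2886018987) (dlOf (nat_lit 2) (nat_lit 0x1780000003004001800200060008144302))))) 
(.nd (nat_lit 31) (.nd (nat_lit 6) 
(.lf (nat_lit 474292267) (dlOf (nat_lit 1) (nat_lit 0x88008007c00202980009120303))) 
(.lf (nat_lit 5838807403) (dlOf (nat_lit 11) (nat_lit 0x101a000100c40006808002c068006603100030178000cc1800700d000480620003204000803400050188000c41000300c4000600400080620002f02000e0310001701000501880007c0800100d000c8064000c03100250178000782000300c800038040d1c004009400181b0702)))) 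
(.nd (nat_lit 27) 
(.lf (nat_lit 2483363883) (dlOf (nat_lit 6) (nat_lit 0xb6008002b00380005e0801d001c0002e02004002a00b8008003a0038000c0060002c08035a02a00900140046006006b8020011600f0193007004f803403000060002b10000801000690070000a8100850008026c002046800080d0a83))) 
(.nd (nat_lit 29) 
(.lf (nat_lit 2617581611) (dlOf (nat_lit 4) (nat_lit 0x402c00de101000b016006d340800600b00366e04002000200160008100782))) 
(.lf (nat_lit 3154452523) (dlOf (nat_lit 1) (nat_lit 0x3f4004009400081a0382)))))))) 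
(.nd (nat_lit 20) (.nd (nat_lit 21) (.nd (nat_lit 22) 
(.lf (nat_lit 59580459) (dlOf (nat_lit 1) (nat_lit 0x4002003c0009810902))) 
(.lf (nat_lit 21831723) (dlOf (nat_lit 1) (nat_lit 0x240028a70501)))) (.nd (nat_lit 6) 
(.nd (nat_lit 23) 
(.lf (nat_lit 2957355) (dlOf (nat_lit 2) (nat_lit 0x1e0d9001003280080030000540c0008002000a00081e0902))) 
(.lf (nat_lit 11345963) (dlOf (nat_lit 1) (nat_lit 0x20008690601)))) 
(.lf (nat_lit 40708843) (dlOf (nat_lit 1) (nat_lit 0x1400191f5a01))))) (.nd (nat_lit 7) 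
(.nd (nat_lit 21) (.nd (nat_lit 22) (.nd (nat_lit 23) 
(.lf (nat_lit 18685995) (dlOf (nat_lit 3) (nat_lit 0xd46fd0001701000e377800020080088008003400200240008960903))) 
(.lf (nat_lit 27074603) (dlOf (nat_lit 2) (nat_lit 0x46b5a00174690002f828ca0680)))) 
(.lf (nat_lit 22880299) (dlOf (nat_lit 1) (nat_lit 0xc0028b30601)))) 
(.lf (nat_lit 4005931) (dlOf (nat_lit 1) (nat_lit 0x8008000c00200060008260c03)))) (.nd (nat_lit 6) 
(.lf (nat_lit 6377250987) (dlOf (nat_lit 1) (nat_lit 0x18004001800180c1502))) (.nd (nat_lit 9) 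
(.lf (nat_lit 43853291) (dlOf (nat_lit 1) (nat_lit 0x600092a3601))) 
(.lf (nat_lit 48047083) (dlOf (nat_lit 1) (nat_lit 0x9e0019402881))))))))))) (.nd (nat_lit 13) 
(.nd (nat_lit 6) (.nd (nat_lit 18) (.nd (nat_lit 5) (.nd (nat_lit 27) (.nd (nat_lit 7) 
(.nd (nat_lit 28) (.nd (nat_lit 20) (.nd (nat_lit 10) (.nd (nat_lit 19) 
(.lf (nat_lit 27361291) (dlOf (nat_lit 2) (nat_lit 0x765a8017d4080008008000c00200060008cd0283))) 
(.lf (nat_lit 11108363) (dlOf (nat_lit 1) (nat_lit 0x8008000400200020008660083)))) 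
(.lf (nat_lit 6442550283) (dlOf (nat_lit 1) (nat_lit 0x1600180f2881)))) (.nd (nat_lit 22) 
(.lf (nat_lit 2752610315) (dlOf (nat_lit 1) (nat_lit 0x90008005c00200520008020483))) 
(.lf (nat_lit 47284235) (dlOf (nat_lit 1) (nat_lit 0x24600093c0001))))) (.nd (nat_lit 9) 
(.nd (nat_lit 19) 
(.lf (nat_lit 3490807819) (dlOf (nat_lit 1) (nat_lit 0x90008005c00200520008020483))) 
(.lf (nat_lit 1342799883) (dlOf (nat_lit 1) (nat_lit 0x4002000200080d0682)))) (.nd (nat_lit 8) 
(.lf (nat_lit 3556870667) (dlOf (nat_lit 2) (nat_lit 0xa00840005004000c004000800180d5002))) 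
(.lf (nat_lit 1342279435) (dlOf (nat_lit 1) (nat_lit 0x28008000800200060008007483)))))) 
(.nd (nat_lit 20) (.nd (nat_lit 26) (.nd (nat_lit 28) 
(.lf (nat_lit 5905678475) (dlOf (nat_lit 2) (nat_lit 0x80000000076040018002001400080b0102))) 
(.lf (nat_lit 805404811) (dlOf (nat_lit 2) (nat_lit 0x2a026001500d40005c080144004000e0008090102)))) 
(.nd (nat_lit 29) 
(.lf (nat_lit 6509658251) (dlOf (nat_lit 2) (nat_lit 0x80000000076040018002001400080b0102))) 
(.lf (nat_lit 1677820043) (dlOf (nat_lit 2) (nat_lit 0x2a026001500d40005c080144004000e0008090102))))) 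
(.nd (nat_lit 8) (.nd (nat_lit 11) 
(.lf (nat_lit 3244171) (dlOf (nat_lit 2) (nat_lit 0x147d00003b0200020028200101))) 
(.lf (nat_lit 3492907147) (dlOf (nat_lit 1) (nat_lit 0x230004000200080f4802)))) (.nd (nat_lit 9) 
(.lf (nat_lit 20025739) (dlOf (nat_lit 1) (nat_lit 0x4002000200089d8382))) 
(.lf (nat_lit 7968651) (dlOf (nat_lit 1) (nat_lit 0x40020002000851a302))))))) (.nd (nat_lit 10) 
(.nd (nat_lit 26) (.nd (nat_lit 7) (.nd (nat_lit 19) 
(.lf (nat_lit 4697718795) (dlOf (nat_lit 14) (nat_lit 0x806801bab02000e0340003019006ea81000400d0000803e01ba604002603400dcd01002201a006e640800680d00370a04003006801b4e02000c03400d9681000b01a006cb00800600d00365404003406801b2902002203400d9381000101a006c9008063000801bc002002c0008090003))) 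
(.lf (nat_lit 2819194891) (dlOf (nat_lit 1) (nat_lit 0x2a00281e0281)))) (.nd (nat_lit 8) 
(.lf (nat_lit 5771985035) (dlOf (nat_lit 5) (nat_lit 0x1029e000814e00060a68003050c0006c10019028c0003502001014f00060a700030534001828c000e1430001a0500070a780038538001829a000c14600070a1800304040005618001800400020018030f02))) 
(.lf (nat_lit 4697719179) (dlOf (nat_lit 5) (nat_lit 0x1403c0013002001401f0009381000b00f0004900800e80d00017a0400b000400020008091002))))) 
(.nd (nat_lit 7) (.nd (nat_lit 20) (.nd (nat_lit 22) 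
(.lf (nat_lit 470384651) (dlOf (nat_lit 1) (nat_lit 0x4002000200080d0682))) 
(.lf (nat_lit 474578955) (dlOf (nat_lit 2) (nat_lit 0x40668001280800080080004002000400091b0103)))) 
(.lf (nat_lit 471433227) (dlOf (nat_lit 2) (nat_lit 0x80b28001180800880080004002001400082f0503)))) 
(.lf (nat_lit 5301698699) (dlOf (nat_lit 5) (nat_lit 0x200fc001807c000a03a000601b800200000006c14001007400080000001a82000701f800400f8001c074000e037000a0000000d02800400fc002407c000e03a000701b8000ac200030008003000200020008030f03))))) 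
(.nd (nat_lit 29) (.nd (nat_lit 7) (.nd (nat_lit 8) 
(.lf (nat_lit 4697719819) (dlOf (nat_lit 1) (nat_lit 0x158008000c00200020008092883))) 
(.lf (nat_lit 134319371) (dlOf (nat_lit 1) (nat_lit 0x7800800cc002001c0008006683)))) 
(.lf (nat_lit 4697720459) (dlOf (nat_lit 1) (nat_lit 0x3000400100008093a02)))) (.nd (nat_lit 7) 
(.nd (nat_lit 8) (.lf (nat_lit 2080474123) (dlOf (nat_lit 1) (nat_lit 0x800400020008092882))) 
(.lf (nat_lit 3087107851) (dlOf (nat_lit 1) (nat_lit 0x20008143b81)))) 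
(.lf (nat_lit 2818671755) (dlOf (nat_lit 1) (nat_lit 0x18002000e00080d2b02))))))) (.nd (nat_lit 20) 
(.nd (nat_lit 31) (.nd (nat_lit 8) (.nd (nat_lit 7) (.nd (nat_lit 23) 
(.lf (nat_lit 52527147) (dlOf (nat_lit 1) (nat_lit 0x760019540901))) 
(.lf (nat_lit 27361323) (dlOf (nat_lit 1) (nat_lit 0x60008cd0801)))) 
(.lf (nat_lit 4764827819) (dlOf (nat_lit 1) (nat_lit 0x20008000400200060008012c83)))) 
(.nd (nat_lit 9) (.nd (nat_lit 11) 
(.lf (nat_lit 872513963) (dlOf (nat_lit 1) (nat_lit 0x18008001000200040008091003))) 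
(.lf (nat_lit 5771463083) (dlOf (nat_lit 1) (nat_lit 0x1c00200020008004e82)))) (.nd (nat_lit 10) 
(.lf (nat_lit 134323115) (dlOf (nat_lit 1) (nat_lit 0x3c001800bd81))) 
(.lf (nat_lit 201426859) (dlOf (nat_lit 1) (nat_lit 0x68008002400200080008004303)))))) 
(.nd (nat_lit 19) (.nd (nat_lit 7) (.nd (nat_lit 11) 
(.lf (nat_lit 3959521323) (dlOf (nat_lit 1) (nat_lit 0x400200020008090002))) 
(.lf (nat_lit 6442555435) (dlOf (nat_lit 1) (nat_lit 0x80080004002000200080fa603)))) 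
(.lf (nat_lit 4026630571) (dlOf (nat_lit 2) (nat_lit 0x200ac01478040070004000a0008017182)))) 
(.nd (nat_lit 21) (.nd (nat_lit 26) 
(.lf (nat_lit 3221848107) (dlOf (nat_lit 4) (nat_lit 0x4e00f8026801c000190400bc03e0000c01001401f0001003800500000001606004000081a0c01))) 
(.lf (nat_lit 3960045611) (dlOf (nat_lit 3) (nat_lit 0x5a01f0000640802e00f80002c040030004007000181a0d02)))) 
(.nd (nat_lit 26) 
(.lf (nat_lit 3492380715) (dlOf (nat_lit 5) (nat_lit 0x4a43cc017415a05b40aa011a8548055827400921350000c86012d0f302db855002e82a4019613a001509a800060280980798003c2b40b1215402080a9002484e80002c1404d43cc0b14154005b09d0000501801400081144002043400080c0c03))) 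
(.lf (nat_lit 2754183211) (dlOf (nat_lit 4) (nat_lit 0x9f0fc01a40564000320802883f0067a1590000b02005f0fc0000500800300080004002003200080c0d03))))))) 
(.nd (nat_lit 19) (.nd (nat_lit 23) (.nd (nat_lit 24) (.nd (nat_lit 26) 
(.lf (nat_lit 3490807851) (dlOf (nat_lit 2) (nat_lit 0xbc15800db0ab8000001013700080410002009e0008020503))) 
(.lf (nat_lit 2752610347) (dlOf (nat_lit 2) (nat_lit 0xbc15d00db0ae0000001013700080410002009e0008020503)))) 
(.lf (nat_lit 17924139) (dlOf (nat_lit 1) (nat_lit 0x40018900b01)))) (.nd (nat_lit 7) 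
(.nd (nat_lit 21) 
(.lf (nat_lit 13729835) (dlOf (nat_lit 2) (nat_lit 0x9e2ac0000c8080030008001c002000a0008740603))) 
(.lf (nat_lit 28409899) (dlOf (nat_lit 1) (nat_lit 0xe800800ac00200300008d90903)))) 
(.lf (nat_lit 49383851) (dlOf (nat_lit 1) (nat_lit 0x20019464e81))))) (.nd (nat_lit 9) 
(.nd (nat_lit 8) (.nd (nat_lit 21) 
(.lf (nat_lit 471433259) (dlOf (nat_lit 1) (nat_lit 0x4004000200082f0e02))) 
(.lf (nat_lit 24739883) (dlOf (nat_lit 2) (nat_lit 0x369400071818bb0b00)))) 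
(.lf (nat_lit 7967019) (dlOf (nat_lit 1) (nat_lit 0x200028518081)))) (.nd (nat_lit 26) 
(.lf (nat_lit 3491332651) (dlOf (nat_lit 2) (nat_lit 0x6008c802603d6000000400020028090e81))) 
(.lf (nat_lit 2753135147) (dlOf (nat_lit 2) (nat_lit 0x60092802603fa000000400020028090e81)))))))) 
(.nd (nat_lit 30) (.nd (nat_lit 5) (.nd (nat_lit 23) (.nd (nat_lit 29) (.nd (nat_lit 11) 
(.nd (nat_lit 26) (.nd (nat_lit 20) 
(.lf (nat_lit 2457611) (dlOf (nat_lit 5) (nat_lit 0xb4880007a40000bd1d0003676c00ac8100007488000da400005d1d0002e76c00ac610001b4880013a40000ad1d0005676c00ac21000074880005a400009d1d0004e76c00abe10001000400100018160682))) 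
(.lf (nat_lit 18186251) (dlOf (nat_lit 1) (nat_lit 0xc00400060008910602)))) (.nd (nat_lit 31) 
(.lf (nat_lit 470122507) (dlOf (nat_lit 1) (nat_lit 0xf800800b8002023e0008050a03))) 
(.lf (nat_lit 2617606155) (dlOf (nat_lit 5) (nat_lit 0x90058005802a000ac8200080160005400800180b000280040108054001380200180028100081))))) 
(.nd (nat_lit 7) (.lf (nat_lit 69569035) (dlOf (nat_lit 1) (nat_lit 0x20018b45001))) 
(.nd (nat_lit 9) (.lf (nat_lit 362891) (dlOf (nat_lit 1) (nat_lit 0x400200020008004e82))) 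
(.lf (nat_lit 54365067) (dlOf (nat_lit 1) (nat_lit 0x8008010c00200560009655c83)))))) 
(.nd (nat_lit 27) (.nd (nat_lit 26) (.nd (nat_lit 32) 
(.lf (nat_lit 537231371) (dlOf (nat_lit 6) (nat_lit 0x8c0a400a930200e406f000403300d1818805e40000013b08003e0000009c8100120290004d00801d01480050066003600800130000004a8200458008003c00200960008060483))) 
(.lf (nat_lit 4832198667) (dlOf (nat_lit 1) (nat_lit 0x80018110001)))) 
(.lf (nat_lit 604340235) (dlOf (nat_lit 5) (nat_lit 0x1c030000c016000500a800280440014020000e00f00090070002801800140060010002000700000189c580010044002401c0062104000c016002dc0100030038016bc080038008003400200080008180283)))) 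
(.nd (nat_lit 28) 
(.lf (nat_lit 671449099) (dlOf (nat_lit 1) (nat_lit 0x60008005c002001000081a0483))) 
(.lf (nat_lit 5234851851) (dlOf (nat_lit 1) (nat_lit 0x1400200060008100002)))))) (.nd (nat_lit 20) 
(.nd (nat_lit 7) (.nd (nat_lit 11) 
(.lf (nat_lit 42827787) (dlOf (nat_lit 1) (nat_lit 0x400400140019280002))) 
(.lf (nat_lit 8751115) (dlOf (nat_lit 1) (nat_lit 0x15800800c800200800008514703)))) 
(.lf (nat_lit 59083147) (dlOf (nat_lit 1) (nat_lit 0x200297e4e81)))) (.nd (nat_lit 21) 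
(.lf (nat_lit 27099147) (dlOf (nat_lit 1) (nat_lit 0x6c00400080008ca0482))) (.nd (nat_lit 24) 
(.lf (nat_lit 45973515) (dlOf (nat_lit 2) (nat_lit 0x1b10805f880801b800800b000200160009380003))) 
(.lf (nat_lit 29196299) (dlOf (nat_lit 1) (nat_lit 0x400400040018dd0602))))))) (.nd (nat_lit 24) 
(.nd (nat_lit 26) (.nd (nat_lit 8) 
(.lf (nat_lit 537231403) (dlOf (nat_lit 1) (nat_lit 0x200080018002003c0008060603))) 
(.lf (nat_lit 45973803) (dlOf (nat_lit 1) (nat_lit 0x100029380b01)))) (.nd (nat_lit 27) 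
(.lf (nat_lit 604340267) (dlOf (nat_lit 1) (nat_lit 0x400400020008180782))) (.nd (nat_lit 29) 
(.lf (nat_lit 2617606187) (dlOf (nat_lit 3) (nat_lit 0xc02c00da6810007016006cdc0800400080008002000c0008100783))) 
(.lf (nat_lit 3154477099) (dlOf (nat_lit 2) (nat_lit 0x1402b000018181a0380)))))) (.nd (nat_lit 7) 
(.nd (nat_lit 19) (.lf (nat_lit 27623467) (dlOf (nat_lit 1) (nat_lit 0x400400020018d00802))) 
(.lf (nat_lit 22904875) (dlOf (nat_lit 1) (nat_lit 0x400200020008b40782)))) (.nd (nat_lit 8) 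
(.lf (nat_lit 60654763) (dlOf (nat_lit 1) (nat_lit 0x180080004002000200098c2c03))) 
(.lf (nat_lit 56986027) (dlOf (nat_lit 1) (nat_lit 0x130008003400200020009794e83))))))) 
(.nd (nat_lit 27) (.nd (nat_lit 26) (.nd (nat_lit 20) (.nd (nat_lit 28) (.nd (nat_lit 5) 
(.nd (nat_lit 7) 
(.lf (nat_lit 3221585931) (dlOf (nat_lit 1) (nat_lit 0xd800800ec00200bc0008150503))) 
(.lf (nat_lit 1074102411) (dlOf (nat_lit 1) (nat_lit 0x40028090101)))) 
(.lf (nat_lit 3221585963) (dlOf (nat_lit 8) (nat_lit 0x165811c04a008a043a0440019020816900bc0005c140acc08e00020440001602008c02b0165013c043809a04c204b02e802380320118069808a04e6044000301b001400c8014c062054e00a000060c00230238000240800680c8000100407640ac05c203200ec00880000c180e3811c00a008c0150045017b022000e01040bf405e041802e02ac00a000000400020008003800200180008150903)))) 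
(.nd (nat_lit 32) 
(.lf (nat_lit 1342537739) (dlOf (nat_lit 1) (nat_lit 0xf800800b8002023e0008050a03))) 
(.lf (nat_lit 5637505035) (dlOf (nat_lit 1) (nat_lit 0x400400020008100002))))) (.nd (nat_lit 11) 
(.nd (nat_lit 5) 
(.lf (nat_lit 1346207755) (dlOf (nat_lit 7) (nat_lit 0x2033c01d5c04000c19e00e540200060cf007288100050ac0002833c01c9008000819e00e220200440cf0070f818e60000))) 
(.lf (nat_lit 1346207787) (dlOf (nat_lit 3) (nat_lit 0x6812c0000b02000c0cf00000018e60280)))) 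
(.nd (nat_lit 7) 
(.lf (nat_lit 3493169163) (dlOf (nat_lit 11) (nat_lit 0x40600004500827e8224000aa041478112000540201fe0c00002901001d05f82980224000a2080f70180033008b00027820008074018a036c002418000160bf04dc0460241022c04c810c0004e0e00240c00001301006306000000c080b6030000000040064004085c00180f4702))) 
(.lf (nat_lit 3493169291) (dlOf (nat_lit 3) (nat_lit 0xc81800003c02002c0c00001d8180f4800)))))) 
(.nd (nat_lit 5) (.nd (nat_lit 7) (.nd (nat_lit 29) 
(.lf (nat_lit 1409646603) (dlOf (nat_lit 6) (nat_lit 0x8c0a4004fe0200e406f000403300d1818c05e4000001cc08003e000000e50100120290007140801d01480050066003600800130000006ec200458008003c00200960008060483))) 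
(.lf (nat_lit 6241484811) (dlOf (nat_lit 1) (nat_lit 0x400400020008100002)))) 
(.lf (nat_lit 1946517643) (dlOf (nat_lit 1) (nat_lit 0x40028090101)))) (.nd (nat_lit 28) 
(.lf (nat_lit 3288694827) (dlOf (nat_lit 1) (nat_lit 0x80080004002000200080c0c03))) 
(.lf (nat_lit 1409646635) (dlOf (nat_lit 1) (nat_lit 0x200080018002003c0008060603)))))) 
(.nd (nat_lit 28) (.nd (nat_lit 5) (.nd (nat_lit 7) (.nd (nat_lit 26) 
(.lf (nat_lit 3355803659) (dlOf (nat_lit 4) (nat_lit 0x480b4002a804000405e0014002001202d0009c018120080))) 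
(.lf (nat_lit 3959783435) (dlOf (nat_lit 1) (nat_lit 0xd800800ec00200bc0008150503)))) 
(.lf (nat_lit 1208320139) (dlOf (nat_lit 2) (nat_lit 0x4031000120180c0f00)))) (.nd (nat_lit 26) 
(.lf (nat_lit 3355803691) (dlOf (nat_lit 2) (nat_lit 0x10017805f8c0802080080060002003e0008120783))) 
(.lf (nat_lit 3959783467) (dlOf (nat_lit 11) (nat_lit 0x201300006604005c08e0002f0204ac0470033023003e81100005c0c096c08e0078046002402280c90110011408206c602f01f60170000b0380500158098c09e007204d00510258135011c017808c03c004400af01900c800c4003002202aa00a000060b001c02780002c080290158013409e00aa0470177019002100440001214079c08e0310044007f0190000201803a81580bec06400b20110000183024402380698118007408a032c044006d021802b010401f807206c802f01fd01701b000500000028007800200280008150802))))) 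
(.nd (nat_lit 5) (.nd (nat_lit 7) (.nd (nat_lit 26) 
(.lf (nat_lit 1476755467) (dlOf (nat_lit 5) (nat_lit 0x1c030000c017000500b000280440014020000e00f000900700028018001400800100020007000002ef0580010044002401c00bb6040006007005a401000600b802d10080038008003400200080008180283))) 
(.lf (nat_lit 1543864331) (dlOf (nat_lit 1) (nat_lit 0x60008005c002001000081a0483)))) 
(.lf (nat_lit 2080735371) (dlOf (nat_lit 1) (nat_lit 0x200180c0f81)))) (.nd (nat_lit 8) 
(.lf (nat_lit 1476755499) (dlOf (nat_lit 1) (nat_lit 0x400400020008180782))) 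
(.lf (nat_lit 5772248363) (dlOf (nat_lit 1) (nat_lit 0x400200020008093182))))))))) 
(.nd (nat_lit 28) (.nd (nat_lit 31) (.nd (nat_lit 21) (.nd (nat_lit 23) (.nd (nat_lit 26) 
(.nd (nat_lit 18) 
(.lf (nat_lit 134840395) (dlOf (nat_lit 1) (nat_lit 0x80080004002000200080c1483))) 
(.nd (nat_lit 19) (.lf (nat_lit 5905940555) (dlOf (nat_lit 1) (nat_lit 0x20028160901))) 
(.lf (nat_lit 21856331) (dlOf (nat_lit 1) (nat_lit 0x6800801b800200e40008a70903))))) 
(.nd (nat_lit 29) (.nd (nat_lit 5) 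
(.lf (nat_lit 1140949067) (dlOf (nat_lit 1) (nat_lit 0x10008000800200080008020603))) 
(.lf (nat_lit 4362176619) (dlOf (nat_lit 1) (nat_lit 0x2000400020018004702)))) (.nd (nat_lit 7) 
(.lf (nat_lit 1677820235) (dlOf (nat_lit 1) (nat_lit 0x73800401160008090602))) 
(.lf (nat_lit 604078283) (dlOf (nat_lit 1) (nat_lit 0x400200020008010482)))))) (.nd (nat_lit 5) 
(.nd (nat_lit 18) (.nd (nat_lit 20) 
(.lf (nat_lit 12681291) (dlOf (nat_lit 1) (nat_lit 0x200186d0f01))) (.nd (nat_lit 24) 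
(.lf (nat_lit 43089995) (dlOf (nat_lit 1) (nat_lit 0x600292a0001))) 
(.lf (nat_lit 26312779) (dlOf (nat_lit 1) (nat_lit 0xe0028c30681))))) (.nd (nat_lit 25) 
(.lf (nat_lit 9273419) (dlOf (nat_lit 1) (nat_lit 0x18008005c00200020008530603))) 
(.lf (nat_lit 42827851) (dlOf (nat_lit 1) (nat_lit 0x20019280601))))) (.nd (nat_lit 7) 
(.nd (nat_lit 9) (.nd (nat_lit 11) 
(.lf (nat_lit 47284331) (dlOf (nat_lit 1) (nat_lit 0x200293c0a81))) 
(.lf (nat_lit 8489067) (dlOf (nat_lit 1) (nat_lit 0xa0028514701)))) 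
(.lf (nat_lit 8491627) (dlOf (nat_lit 1) (nat_lit 0x20008518981)))) 
(.lf (nat_lit 9012715) (dlOf (nat_lit 1) (nat_lit 0x20018513601)))))) (.nd (nat_lit 7) 
(.nd (nat_lit 24) (.nd (nat_lit 8) (.nd (nat_lit 19) 
(.lf (nat_lit 37060683) (dlOf (nat_lit 1) (nat_lit 0x4002005a0009090602))) 
(.lf (nat_lit 4030539) (dlOf (nat_lit 1) (nat_lit 0x2c0018270d01)))) (.nd (nat_lit 5) 
(.lf (nat_lit 69831499) (dlOf (nat_lit 1) (nat_lit 0xb18004024c0008cd5c02))) 
(.lf (nat_lit 3506539) (dlOf (nat_lit 3) (nat_lit 0x29a080004cd600084e9000126c000054200039a0800024040008004005c0018200702))))) 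
(.nd (nat_lit 18) (.nd (nat_lit 5) 
(.lf (nat_lit 53575755) (dlOf (nat_lit 1) (nat_lit 0x80080004002000200095f0003))) 
(.lf (nat_lit 52527211) (dlOf (nat_lit 1) (nat_lit 0x18008000800200040009541e83)))) 
(.nd (nat_lit 9) (.lf (nat_lit 32866379) (dlOf (nat_lit 1) (nat_lit 0x20018f30601))) 
(.lf (nat_lit 23429707) (dlOf (nat_lit 1) (nat_lit 0x20018b81181)))))) (.nd (nat_lit 5) 
(.nd (nat_lit 8) (.nd (nat_lit 18) 
(.lf (nat_lit 20026059) (dlOf (nat_lit 1) (nat_lit 0x80080004002000200089d8c83))) 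
(.lf (nat_lit 20288203) (dlOf (nat_lit 1) (nat_lit 0x4002000200089d8c82)))) 
(.lf (nat_lit 12419531) (dlOf (nat_lit 2) (nat_lit 0x80000000002000a00086c0981)))) (.nd (nat_lit 9) 
(.nd (nat_lit 8) (.lf (nat_lit 7967979) (dlOf (nat_lit 1) (nat_lit 0x8008001800200020008519503))) 
(.lf (nat_lit 19764715) (dlOf (nat_lit 1) (nat_lit 0x400289d9b81)))) (.nd (nat_lit 19) 
(.lf (nat_lit 36799467) (dlOf (nat_lit 1) (nat_lit 0x60019072881))) 
(.lf (nat_lit 49906667) (dlOf (nat_lit 1) (nat_lit 0x18004000600194c2882)))))))) (.nd (nat_lit 26) 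
(.nd (nat_lit 5) (.nd (nat_lit 8) (.nd (nat_lit 7) 
(.lf (nat_lit 6442551371) (dlOf (nat_lit 1) (nat_lit 0x200080f4701))) 
(.lf (nat_lit 2818932939) (dlOf (nat_lit 1) (nat_lit 0x20018130481)))) (.nd (nat_lit 9) 
(.nd (nat_lit 11) (.lf (nat_lit 3221324107) (dlOf (nat_lit 1) (nat_lit 0x20018090601))) 
(.lf (nat_lit 6442555723) (dlOf (nat_lit 1) (nat_lit 0x200280fab81)))) 
(.lf (nat_lit 3355546443) (dlOf (nat_lit 1) (nat_lit 0x200180a8f81))))) (.nd (nat_lit 9) 
(.nd (nat_lit 7) (.lf (nat_lit 6442551403) (dlOf (nat_lit 1) (nat_lit 0x4004000200080f4702))) 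
(.lf (nat_lit 3355546859) (dlOf (nat_lit 1) (nat_lit 0x8800800dc002002000080a9503)))) 
(.nd (nat_lit 8) (.lf (nat_lit 3892415211) (dlOf (nat_lit 1) (nat_lit 0x800200080008105a02))) 
(.lf (nat_lit 2818671595) (dlOf (nat_lit 1) (nat_lit 0x8c00080d2881)))))) (.nd (nat_lit 7) 
(.nd (nat_lit 8) (.nd (nat_lit 9) (.nd (nat_lit 18) 
(.lf (nat_lit 3960045643) (dlOf (nat_lit 1) (nat_lit 0xc00281a1881))) 
(.lf (nat_lit 6509920331) (dlOf (nat_lit 1) (nat_lit 0x20028160901)))) 
(.lf (nat_lit 3288433227) (dlOf (nat_lit 2) (nat_lit 0x2006c0098b0200060018018b01)))) 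
(.nd (nat_lit 10) (.lf (nat_lit 3959521611) (dlOf (nat_lit 1) (nat_lit 0x20018090601))) 
(.lf (nat_lit 3825306955) (dlOf (nat_lit 1) (nat_lit 0x20028146a01))))) (.nd (nat_lit 5) 
(.nd (nat_lit 29) 
(.lf (nat_lit 3422650571) (dlOf (nat_lit 1) (nat_lit 0x10008000400200020008013a83))) 
(.lf (nat_lit 2885779659) (dlOf (nat_lit 1) (nat_lit 0x20018065a81)))) (.nd (nat_lit 9) 
(.lf (nat_lit 3288433131) (dlOf (nat_lit 1) (nat_lit 0xa0008017301))) 
(.lf (nat_lit 2751824875) (dlOf (nat_lit 1) (nat_lit 0x20018002881)))))))) (.nd (nat_lit 27) 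
(.nd (nat_lit 8) (.nd (nat_lit 18) (.nd (nat_lit 5) (.nd (nat_lit 9) (.nd (nat_lit 19) 
(.lf (nat_lit 4563501131) (dlOf (nat_lit 1) (nat_lit 0x20400400420008090002))) 
(.lf (nat_lit 3492380747) (dlOf (nat_lit 4) (nat_lit 0x3d81e7001109d800884d80005c0c00703ce0002d0203d81e7001909b0000b01004800080788002019a00080c1483)))) 
(.lf (nat_lit 2416017995) (dlOf (nat_lit 2) (nat_lit 0x7800c0001e0200040018018d01)))) 
(.nd (nat_lit 7) (.lf (nat_lit 1881768043) (dlOf (nat_lit 1) (nat_lit 0x20029000a01))) 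
(.nd (nat_lit 9) (.lf (nat_lit 1409387755) (dlOf (nat_lit 1) (nat_lit 0x400400020008006502))) 
(.lf (nat_lit 3556870891) (dlOf (nat_lit 1) (nat_lit 0x108002041e00080d5a02)))))) (.nd (nat_lit 29) 
(.nd (nat_lit 30) (.lf (nat_lit 4563763275) (dlOf (nat_lit 1) (nat_lit 0x4004006c00080d0502))) 
(.lf (nat_lit 5637505099) (dlOf (nat_lit 1) (nat_lit 0x400400020008100502)))) (.nd (nat_lit 7) 
(.lf (nat_lit 6241484875) (dlOf (nat_lit 1) (nat_lit 0x400400020008100502))) 
(.lf (nat_lit 1879937739) (dlOf (nat_lit 1) (nat_lit 0x8002000200083d8c82)))))) (.nd (nat_lit 5) 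
(.nd (nat_lit 10) (.nd (nat_lit 7) 
(.lf (nat_lit 805405003) (dlOf (nat_lit 1) (nat_lit 0x73800401160008090602))) 
(.lf (nat_lit 4563504075) (dlOf (nat_lit 2) (nat_lit 0x1018800054080038008002800200080008095d83)))) 
(.nd (nat_lit 19) (.nd (nat_lit 26) 
(.lf (nat_lit 3489762635) (dlOf (nat_lit 1) (nat_lit 0x4004000c0018006a02))) 
(.lf (nat_lit 1946258763) (dlOf (nat_lit 2) (nat_lit 0x80380002004001c00200060008006a02)))) 
(.lf (nat_lit 3490286923) (dlOf (nat_lit 1) (nat_lit 0x1c0028006a01))))) (.nd (nat_lit 7) 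
(.nd (nat_lit 10) (.lf (nat_lit 1343062379) (dlOf (nat_lit 1) (nat_lit 0x80018150a01))) 
(.lf (nat_lit 3490024811) (dlOf (nat_lit 1) (nat_lit 0x400200020008006b02)))) (.nd (nat_lit 10) 
(.lf (nat_lit 3493954027) (dlOf (nat_lit 1) (nat_lit 0x2800081b0d01))) 
(.lf (nat_lit 1345422827) (dlOf (nat_lit 3) (nat_lit 0x20b28006c80800585940035a04002c00400080008bb3602))))))) 
(.nd (nat_lit 7) (.nd (nat_lit 26) (.nd (nat_lit 8) (.nd (nat_lit 18) 
(.lf (nat_lit 2013364299) (dlOf (nat_lit 1) (nat_lit 0x10008000800200080008020603))) 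
(.nd (nat_lit 29) (.lf (nat_lit 4697981003) (dlOf (nat_lit 1) (nat_lit 0x4004006c00080d0502))) 
(.lf (nat_lit 5234851915) (dlOf (nat_lit 1) (nat_lit 0x1b8002004a0008100502))))) (.nd (nat_lit 5) 
(.lf (nat_lit 939624267) (dlOf (nat_lit 2) (nat_lit 0x200000002c04000800400060018143e82))) 
(.lf (nat_lit 4160848235) (dlOf (nat_lit 1) (nat_lit 0x400400020008017582))))) (.nd (nat_lit 10) 
(.nd (nat_lit 5) 
(.lf (nat_lit 3154477131) (dlOf (nat_lit 2) (nat_lit 0x3015800a00000004a080030004007e00081a0682))) 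
(.lf (nat_lit 469862507) (dlOf (nat_lit 1) (nat_lit 0xc8008009c002000c0008004703)))) 
(.nd (nat_lit 8) 
(.lf (nat_lit 469865547) (dlOf (nat_lit 2) (nat_lit 0x2b04e800088080020008001c00200020008009303))) 
(.lf (nat_lit 469865803) (dlOf (nat_lit 1) (nat_lit 0x60028009901)))))) (.nd (nat_lit 5) 
(.nd (nat_lit 9) (.nd (nat_lit 8) 
(.lf (nat_lit 3623977163) (dlOf (nat_lit 1) (nat_lit 0x20018065a81))) 
(.lf (nat_lit 402751947) (dlOf (nat_lit 3) (nat_lit 0xd00900008a0400a8048000430200120008091101)))) 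
(.nd (nat_lit 10) (.lf (nat_lit 1007522507) (dlOf (nat_lit 1) (nat_lit 0x14002000200083d8c82))) 
(.lf (nat_lit 5838573259) (dlOf (nat_lit 1) (nat_lit 0x200180f7301))))) (.nd (nat_lit 8) 
(.lf (nat_lit 5838572779) (dlOf (nat_lit 2) (nat_lit 0x140310014017000480340005a0c0020002000e00080f6502))) 
(.nd (nat_lit 9) 
(.lf (nat_lit 1543605739) (dlOf (nat_lit 3) (nat_lit 0x200190000681000b00c800480000000008002800200120008146e82))) 
(.lf (nat_lit 469867499) (dlOf (nat_lit 2) (nat_lit 0x20161001004e8012e010005000800340020010000800bf03)))))))))) 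
(.nd (nat_lit 18) (.nd (nat_lit 6) (.nd (nat_lit 19) (.nd (nat_lit 7) (.nd (nat_lit 5) 
(.nd (nat_lit 10) (.nd (nat_lit 9) 
(.lf (nat_lit 5349387) (dlOf (nat_lit 1) (nat_lit 0x320018350281))) 
(.lf (nat_lit 3556878859) (dlOf (nat_lit 2) (nat_lit 0xd0028000a00801880080060002000200080d5003)))) 
(.nd (nat_lit 8) (.nd (nat_lit 26) 
(.lf (nat_lit 107531) (dlOf (nat_lit 1) (nat_lit 0x400400040008002882))) 
(.lf (nat_lit 5972796427) (dlOf (nat_lit 1) (nat_lit 0x400018142881)))) 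
(.lf (nat_lit 134327563) (dlOf (nat_lit 1) (nat_lit 0x1c00200040008006682))))) (.nd (nat_lit 20) 
(.nd (nat_lit 22) (.nd (nat_lit 23) (.nd (nat_lit 27) 
(.lf (nat_lit 5905686571) (dlOf (nat_lit 2) (nat_lit 0x9780000197e0400b8002002000080b0002))) 
(.lf (nat_lit 6039904299) (dlOf (nat_lit 1) (nat_lit 0x2800400320008020b02)))) 
(.lf (nat_lit 25272363) (dlOf (nat_lit 2) (nat_lit 0xc8351003513c80020974000560c000400200020008bf0a82)))) 
(.nd (nat_lit 21) (.lf (nat_lit 29466667) (dlOf (nat_lit 1) (nat_lit 0x800400100008e10782))) 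
(.lf (nat_lit 23175211) (dlOf (nat_lit 5) (nat_lit 0x10d8300015010138615800060080ad35f80002004045597e0000e0200020008b60901))))) 
(.nd (nat_lit 9) (.nd (nat_lit 21) 
(.lf (nat_lit 13738027) (dlOf (nat_lit 2) (nat_lit 0xf94440006404000800200060008740602))) 
(.lf (nat_lit 28418091) (dlOf (nat_lit 3) (nat_lit 0xd4ca70001701000e643000020080088008003400200240008d90903)))) 
(.nd (nat_lit 22) (.lf (nat_lit 11641387) (dlOf (nat_lit 1) (nat_lit 0x400086c0e81))) 
(.lf (nat_lit 41001515) (dlOf (nat_lit 1) (nat_lit 0x20029208a01))))))) (.nd (nat_lit 29) 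
(.nd (nat_lit 8) (.nd (nat_lit 31) (.nd (nat_lit 20) 
(.lf (nat_lit 5368815755) (dlOf (nat_lit 4) (nat_lit 0xc0140005009800200440008020000a00e000e0020000d8300020054001c028000e013000700880030040001c01c000340c000c015000900a0003804c0020022000c01000070070000ac3000500080090002000a0008030f03))) 
(.lf (nat_lit 3252363) (dlOf (nat_lit 2) (nat_lit 0x1e0a920003b0200060028200101)))) 
(.nd (nat_lit 10) (.lf (nat_lit 6509666443) (dlOf (nat_lit 2) (nat_lit 0x5060000001d8180b0100))) 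
(.lf (nat_lit 6576778379) (dlOf (nat_lit 1) (nat_lit 0x400018146181))))) (.nd (nat_lit 9) 
(.nd (nat_lit 10) 
(.lf (nat_lit 4697727371) (dlOf (nat_lit 2) (nat_lit 0x2009000534080018008000800200040008091003))) 
(.lf (nat_lit 1409396107) (dlOf (nat_lit 1) (nat_lit 0x2e0028006c81)))) (.nd (nat_lit 10) 
(.lf (nat_lit 59878283) (dlOf (nat_lit 1) (nat_lit 0x16000400720009845c82))) 
(.lf (nat_lit 20035467) (dlOf (nat_lit 1) (nat_lit 0x4002000200089da302)))))) (.nd (nat_lit 27) 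
(.nd (nat_lit 28) (.nd (nat_lit 26) 
(.lf (nat_lit 5905686667) (dlOf (nat_lit 2) (nat_lit 0x5060000001d8180b0100))) 
(.lf (nat_lit 1677828235) (dlOf (nat_lit 3) (nat_lit 0x2004c0010024000800d4005804a002c0240001705000c0120000540801e000800d400200440008090103)))) 
(.nd (nat_lit 5) 
(.lf (nat_lit 805413003) (dlOf (nat_lit 3) (nat_lit 0x2004c0010024000800d4005804a002c0240001705000c0120000580801e000800d400200440008090103))) 
(.lf (nat_lit 4026638763) (dlOf (nat_lit 2) (nat_lit 0x805c00a300200060028017181))))) 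
(.nd (nat_lit 26) (.nd (nat_lit 9) 
(.lf (nat_lit 2818679947) (dlOf (nat_lit 3) (nat_lit 0x40024002c00000003020011009000c00000000a0800d0002001a00080d2b02))) 
(.lf (nat_lit 5234600587) (dlOf (nat_lit 2) (nat_lit 0x2c02a000290200140018055481)))) 
(.nd (nat_lit 28) (.lf (nat_lit 5033271435) (dlOf (nat_lit 1) (nat_lit 0x4004000a0008030f02))) 
(.lf (nat_lit 5301706891) (dlOf (nat_lit 5) (nat_lit 0x2c07c0003602000603a001c01b8000d41000100f80006804002c07c0002b0200120008030f01)))))))) 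
(.nd (nat_lit 5) (.nd (nat_lit 20) (.nd (nat_lit 27) (.nd (nat_lit 24) (.nd (nat_lit 26) 
(.lf (nat_lit 805937163) (dlOf (nat_lit 2) (nat_lit 0x1c02e00ca702000200281f0a01))) 
(.lf (nat_lit 1678352395) (dlOf (nat_lit 2) (nat_lit 0x1c02e006fd02000200281f0a01)))) 
(.nd (nat_lit 9) (.lf (nat_lit 21602315) (dlOf (nat_lit 1) (nat_lit 0x8008000400200020008a50083))) 
(.lf (nat_lit 50962955) (dlOf (nat_lit 1) (nat_lit 0x80080004002000200094d8003))))) 
(.nd (nat_lit 26) (.nd (nat_lit 7) 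
(.lf (nat_lit 5771993099) (dlOf (nat_lit 4) (nat_lit 0x1080a00382c04009005001c1402000c02800df1818030000))) 
(.lf (nat_lit 5771993227) (dlOf (nat_lit 11) (nat_lit 0xa60280001d0100190140000809c000804c0016025000601180048088004c040002a0180001b08006901400198098011004a0068022001e00d801a00600006a180060050000c02600130128002808c00180440028020001600c0000d03801480a0001004c0002025000168300320140000b00800c00a0007004a000e0230008011000a0080005c0300002b0c009a028000068100150140000300801b80a00001404053000400160008030f02)))) 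
(.nd (nat_lit 21) 
(.lf (nat_lit 6375972875) (dlOf (nat_lit 4) (nat_lit 0x1080a003166040090050018b102000c02800c3c818030000))) 
(.lf (nat_lit 1009360907) (dlOf (nat_lit 1) (nat_lit 0x5c0009120001)))))) (.nd (nat_lit 22) 
(.nd (nat_lit 7) 
(.lf (nat_lit 3776523) (dlOf (nat_lit 2) (nat_lit 0x34960003000001d04100008008000400200100008220003))) 
(.nd (nat_lit 9) 
(.lf (nat_lit 12165259) (dlOf (nat_lit 1) (nat_lit 0x2480080004002002200086c0103))) 
(.lf (nat_lit 6377024139) (dlOf (nat_lit 1) (nat_lit 0x40028095481))))) (.nd (nat_lit 7) 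
(.lf (nat_lit 31039499) (dlOf (nat_lit 1) (nat_lit 0x400400060008e60602))) (.nd (nat_lit 9) 
(.lf (nat_lit 7975307) (dlOf (nat_lit 1) (nat_lit 0x40008518381))) 
(.lf (nat_lit 7976843) (dlOf (nat_lit 1) (nat_lit 0x40020002000851a302))))))) (.nd (nat_lit 27) 
(.nd (nat_lit 9) (.nd (nat_lit 28) (.nd (nat_lit 20) 
(.lf (nat_lit 3221856299) (dlOf (nat_lit 5) (nat_lit 0x17807c007401c007c00700160010017c000000190a00ee03e005200e0049003800a000800040000000c05005701f0042803800ac018001c002003b0000000582802f00f80004038015c00e000800000005020001000800bc002000600081a0c03))) 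
(.lf (nat_lit 18456619) (dlOf (nat_lit 1) (nat_lit 0x11c00400460008940902)))) (.nd (nat_lit 21) 
(.lf (nat_lit 1342808107) (dlOf (nat_lit 1) (nat_lit 0x4002000200080d0982))) 
(.lf (nat_lit 3492388907) (dlOf (nat_lit 3) (nat_lit 0x1e00a00012010052005000088080080008001c002000800080c0c03))))) 
(.nd (nat_lit 7) (.nd (nat_lit 10) 
(.lf (nat_lit 20554283) (dlOf (nat_lit 1) (nat_lit 0x1000289d1481))) 
(.lf (nat_lit 20557355) (dlOf (nat_lit 1) (nat_lit 0x600189d7181)))) 
(.lf (nat_lit 636587) (dlOf (nat_lit 1) (nat_lit 0x2002800a001))))) (.nd (nat_lit 26) 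
(.lf (nat_lit 134848555) (dlOf (nat_lit 5) (nat_lit 0xa80000000640801c800000030040130000000160200da0000000a0180c0c00))) 
(.nd (nat_lit 28) (.nd (nat_lit 29) 
(.lf (nat_lit 201957419) (dlOf (nat_lit 2) (nat_lit 0x1c80bc0004804000c002000800080c0d02))) 
(.lf (nat_lit 3960053803) (dlOf (nat_lit 4) (nat_lit 0x20007c002601c00980070000641804380f80050038012e00e0000b03000b0070000500803400080048002001000081a0d03)))) 
(.lf (nat_lit 470392875) (dlOf (nat_lit 1) (nat_lit 0x4002000200080d0982)))))))) (.nd (nat_lit 7) 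
(.nd (nat_lit 29) (.nd (nat_lit 28) (.nd (nat_lit 8) (.nd (nat_lit 20) (.nd (nat_lit 10) 
(.lf (nat_lit 25272395) (dlOf (nat_lit 3) (nat_lit 0x2013c8001240801b80000008e040034004003e0008bf0d02))) 
(.lf (nat_lit 8500299) (dlOf (nat_lit 5) (nat_lit 0x5e924000440200335090001201000ba408000880800151fc0003a04007c00400020018519302)))) 
(.nd (nat_lit 19) (.lf (nat_lit 53583947) (dlOf (nat_lit 1) (nat_lit 0x400195f0001))) 
(.lf (nat_lit 43622475) (dlOf (nat_lit 1) (nat_lit 0x200192a0001))))) (.nd (nat_lit 5) 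
(.lf (nat_lit 3221332299) (dlOf (nat_lit 11) (nat_lit 0x290000000640401580000003102003e020000170100ba029805f00dc06dc040031e0000001684000301b8350009004d4040009e01500ce0000000b028027014c013406e02e002000680000000ac20024814c012806e02d202001010000000a820018814c01b0040000290400a00200001201002901000008c088ba000809a400207120008090603))) 
(.nd (nat_lit 10) (.lf (nat_lit 59878251) (dlOf (nat_lit 1) (nat_lit 0x400400020009845c02))) 
(.lf (nat_lit 201434987) (dlOf (nat_lit 1) (nat_lit 0x1800400800018004002)))))) (.nd (nat_lit 9) 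
(.nd (nat_lit 10) (.nd (nat_lit 19) 
(.lf (nat_lit 3490816075) (dlOf (nat_lit 2) (nat_lit 0x1400a0001002801240100018008006400200580008020903))) 
(.lf (nat_lit 3492388939) (dlOf (nat_lit 6) (nat_lit 0x2202cc0006804008c002000320200020bf000105880008274002401c000310800020bf005805880050274002001c0002f0800600b8000150180c1480)))) 
(.nd (nat_lit 8) 
(.lf (nat_lit 469873739) (dlOf (nat_lit 4) (nat_lit 0x102ca00066020010165000200100190b2800088080008008007400200140008009303))) 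
(.lf (nat_lit 469873995) (dlOf (nat_lit 1) (nat_lit 0x60028009901))))) (.nd (nat_lit 8) 
(.nd (nat_lit 10) 
(.lf (nat_lit 2416026187) (dlOf (nat_lit 4) (nat_lit 0x4400300008c0805e00180003c04003000c0001c0200100018018d01))) 
(.lf (nat_lit 4697728587) (dlOf (nat_lit 1) (nat_lit 0x400400020008093802)))) 
(.lf (nat_lit 1346480971) (dlOf (nat_lit 1) (nat_lit 0x20018f65c01)))))) (.nd (nat_lit 8) 
(.nd (nat_lit 11) (.nd (nat_lit 19) (.nd (nat_lit 20) 
(.lf (nat_lit 6375448651) (dlOf (nat_lit 1) (nat_lit 0xc0008000001))) 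
(.lf (nat_lit 2752618571) (dlOf (nat_lit 2) (nat_lit 0x1400a0001002802864100018008006400200580008020903)))) 
(.lf (nat_lit 3960053835) (dlOf (nat_lit 3) (nat_lit 0xc02f0001481001d0170000000800700080024002003200081a1883)))) 
(.nd (nat_lit 5) (.lf (nat_lit 5972797515) (dlOf (nat_lit 1) (nat_lit 0x20028144701))) 
(.nd (nat_lit 9) (.lf (nat_lit 5972797547) (dlOf (nat_lit 1) (nat_lit 0x400400020008144702))) 
(.lf (nat_lit 5234600555) (dlOf (nat_lit 1) (nat_lit 0x20008001000200060008055383)))))) 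
(.nd (nat_lit 10) (.nd (nat_lit 27) (.nd (nat_lit 26) 
(.lf (nat_lit 805413195) (dlOf (nat_lit 2) (nat_lit 0x12e0130000000800b8008005c002002e0008090603))) 
(.lf (nat_lit 1677828427) (dlOf (nat_lit 2) (nat_lit 0x12e0130000000800b8008005c002002e0008090603)))) 
(.nd (nat_lit 30) (.lf (nat_lit 738304331) (dlOf (nat_lit 1) (nat_lit 0x800200020008090d02))) 
(.lf (nat_lit 3959529803) (dlOf (nat_lit 11) (nat_lit 0x290000000620401580000003002003e020000168100ba029805f00dc06dc040031e0000001604000301b8350009004d4040009e01500ce0000000ac28027014c013406e02e002000680000000a820024814c012806e02d202001010000000a420018814c01b0040000280400a00200001201002901000008c088ba000809a400207120008090603))))) 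
(.nd (nat_lit 9) (.nd (nat_lit 11) 
(.lf (nat_lit 1611244875) (dlOf (nat_lit 1) (nat_lit 0x20008123301))) 
(.lf (nat_lit 3825315147) (dlOf (nat_lit 1) (nat_lit 0xbc0028146a01)))) 
(.lf (nat_lit 939632459) (dlOf (nat_lit 1) (nat_lit 0x60018143e81))))))) (.nd (nat_lit 5) 
(.nd (nat_lit 30) (.nd (nat_lit 19) (.nd (nat_lit 26) (.nd (nat_lit 9) 
(.lf (nat_lit 805413067) (dlOf (nat_lit 2) (nat_lit 0x4500980048e040058002005c0008090482))) 
(.lf (nat_lit 20034251) (dlOf (nat_lit 1) (nat_lit 0x80080004002000400089d8c83)))) 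
(.nd (nat_lit 29) (.lf (nat_lit 6509666507) (dlOf (nat_lit 1) (nat_lit 0x400080b0481))) 
(.lf (nat_lit 604086475) (dlOf (nat_lit 1) (nat_lit 0x400200020008010482))))) (.nd (nat_lit 8) 
(.nd (nat_lit 9) (.lf (nat_lit 7975115) (dlOf (nat_lit 1) (nat_lit 0x400200020008518002))) 
(.lf (nat_lit 634571) (dlOf (nat_lit 1) (nat_lit 0x40018007301)))) 
(.lf (nat_lit 57256395) (dlOf (nat_lit 3) (nat_lit 0xed5de01508020012aef00000019794e80))))) 
(.nd (nat_lit 26) (.nd (nat_lit 8) (.nd (nat_lit 29) 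
(.lf (nat_lit 3221332171) (dlOf (nat_lit 2) (nat_lit 0xa8040001c50200200008090481))) 
(.lf (nat_lit 5905686731) (dlOf (nat_lit 1) (nat_lit 0x400080b0481)))) 
(.lf (nat_lit 5774090699) (dlOf (nat_lit 1) (nat_lit 0x64002001000080f7a82)))) (.nd (nat_lit 8) 
(.nd (nat_lit 27) 
(.lf (nat_lit 1677828299) (dlOf (nat_lit 2) (nat_lit 0x4500980048e040058002005c0008090482))) 
(.lf (nat_lit 3959529675) (dlOf (nat_lit 2) (nat_lit 0xa8040001c50200200008090481)))) 
(.lf (nat_lit 1543612875) (dlOf (nat_lit 1) (nat_lit 0x28008000c00200080008144e83)))))) 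
(.nd (nat_lit 28) (.nd (nat_lit 31) (.nd (nat_lit 8) 
(.lf (nat_lit 634091) (dlOf (nat_lit 4) (nat_lit 0xbda90007ed28000d01000876a40023b4a0021d9f000fea10000b820000f6a40043b4a0005d9f0002ea10000b4200028008013800200080008006503))) 
(.nd (nat_lit 9) 
(.lf (nat_lit 61973995) (dlOf (nat_lit 2) (nat_lit 0x1752d8005c8080020008000800200040009923603))) 
(.lf (nat_lit 36807659) (dlOf (nat_lit 1) (nat_lit 0x100009072881))))) (.nd (nat_lit 8) 
(.lf (nat_lit 3221332203) (dlOf (nat_lit 2) (nat_lit 0x3a0200004c018090480))) (.nd (nat_lit 9) 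
(.lf (nat_lit 3288441323) (dlOf (nat_lit 1) (nat_lit 0x10008000400200140008017303))) 
(.lf (nat_lit 2818679787) (dlOf (nat_lit 1) (nat_lit 0x3400280d2881)))))) (.nd (nat_lit 8) 
(.nd (nat_lit 9) (.nd (nat_lit 10) 
(.lf (nat_lit 805413099) (dlOf (nat_lit 1) (nat_lit 0xc00400080008090482))) 
(.lf (nat_lit 1409395947) (dlOf (nat_lit 1) (nat_lit 0x5000200100008006502)))) 
(.lf (nat_lit 3556879083) (dlOf (nat_lit 1) (nat_lit 0x4000080d5a01)))) (.nd (nat_lit 9) 
(.nd (nat_lit 10) (.lf (nat_lit 1946264043) (dlOf (nat_lit 1) (nat_lit 0x80008017301))) 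
(.lf (nat_lit 1345431019) (dlOf (nat_lit 3) (nat_lit 0x70b28006c80800305940035a04000c00400140018bb3602)))) 
(.lf (nat_lit 469875691) (dlOf (nat_lit 1) (nat_lit 0x40040002000800bf02))))))))) (.nd (nat_lit 19) 
(.nd (nat_lit 5) (.nd (nat_lit 29) (.nd (nat_lit 20) (.nd (nat_lit 31) (.nd (nat_lit 21) 
(.nd (nat_lit 7) (.nd (nat_lit 11) 
(.lf (nat_lit 1543872523) (dlOf (nat_lit 10) (nat_lit 0x9f808c02d8040015c01900f50030049000c0158000001e00c0190024000ed01001201600510098058804601d2020011f00c808580180270006006c000000eb08000401600030098058804601d4020012100c808000180260006008a000000e98802b000c81348018089c0060350000000e60400d50120005808c0037608025c0480017802000a0250002c0100050128000100800680080064002000600081a0483))) 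
(.lf (nat_lit 4295337995) (dlOf (nat_lit 1) (nat_lit 0x20008114701)))) 
(.lf (nat_lit 21340299) (dlOf (nat_lit 2) (nat_lit 0x71a8000a09200024478000350600040028a30f01)))) 
(.nd (nat_lit 22) 
(.lf (nat_lit 2465803) (dlOf (nat_lit 5) (nat_lit 0x18754000c392000e1c400070bb801590200018754000439200041c4002b18300060ea8003072400283880012177002b08400030ea8001872400103880010177002af848160680))) 
(.lf (nat_lit 6660107) (dlOf (nat_lit 1) (nat_lit 0x140008440581))))) (.nd (nat_lit 26) 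
(.nd (nat_lit 22) 
(.lf (nat_lit 3355811851) (dlOf (nat_lit 19) (nat_lit 0x508034002b00400e401a0015702002402f00aa0168043809c0230044018801f002c00e0068003403640140015410012802d005b01380328088066c03e012600d00b100500054c3006500bc014401a0015004008002f000a78100010178005100800800bc0028604008405e00d200d000a08200cc017804f00340028008003805e00cc00d0009f82009c017804780340027808000c05e0013a02011802f014b0168036807c03800140013808012202d001c00f803180280026e0c005005a0013602000c02f0009a8100030168004d0080310008015c00200900008120083))) 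
(.lf (nat_lit 3494223883) (dlOf (nat_lit 5) (nat_lit 0x610a80078850001840000e3106000e216000710a80070850002840000e30080006216000f10a80040850003440000e2f08000e216000910a80068850003440000e2e08000800181d0001)))) 
(.nd (nat_lit 27) (.nd (nat_lit 30) 
(.lf (nat_lit 6509928459) (dlOf (nat_lit 1) (nat_lit 0x58008002800200140008160483))) 
(.lf (nat_lit 3288702987) (dlOf (nat_lit 1) (nat_lit 0x280080004002000e00080c0803)))) 
(.lf (nat_lit 2617614347) (dlOf (nat_lit 6) (nat_lit 0x600580015902001402c000a801000a0160005000801300a8002700403d405e000000200280008100081)))))) 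
(.nd (nat_lit 6) (.nd (nat_lit 7) (.nd (nat_lit 11) 
(.lf (nat_lit 30777355) (dlOf (nat_lit 1) (nat_lit 0x10008004000200060008e50583))) 
(.lf (nat_lit 3493177355) (dlOf (nat_lit 1) (nat_lit 0x100080008002000200080f4703)))) 
(.lf (nat_lit 20294283) (dlOf (nat_lit 1) (nat_lit 0x180080014002000800089d5483)))) 
(.nd (nat_lit 7) (.nd (nat_lit 21) 
(.lf (nat_lit 43360331) (dlOf (nat_lit 3) (nat_lit 0x7a46006d2c08003d7f8019da040064002000a00092a0002))) 
(.lf (nat_lit 37068875) (dlOf (nat_lit 1) (nat_lit 0xc8002015c0009090602)))) 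
(.lf (nat_lit 20296395) (dlOf (nat_lit 1) (nat_lit 0x4002000200089d8c82)))))) (.nd (nat_lit 32) 
(.nd (nat_lit 26) (.nd (nat_lit 27) 
(.lf (nat_lit 805675019) (dlOf (nat_lit 3) (nat_lit 0xfc0aa0168302001805500afe018180500))) 
(.lf (nat_lit 671457291) (dlOf (nat_lit 10) (nat_lit 0x9f808c02d8040015c01b00f50030049000c01580000014f0c0190024000a481001201600510098058804601d2020011f00d808580180270006006c000000a288000401600030098058804601d4020012100d808000180260006008a000000a10802b000d81348018089c00603500000009d8400d50120005808c0025408025c048000e902000a025000240100050128000180800680080064002000600081a0483)))) 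
(.nd (nat_lit 22) 
(.lf (nat_lit 1678090251) (dlOf (nat_lit 3) (nat_lit 0xfc0aa0151402001805500a4c018180500))) 
(.lf (nat_lit 2756026379) (dlOf (nat_lit 5) (nat_lit 0x6115000788a4001842a0080c06000e22b0007115000708a4002842a0080b08000622b000f115000408a4003442a0080a08000e22b0009115000688a4003442a0080908000800181d0001))))) 
(.nd (nat_lit 6) (.nd (nat_lit 26) (.nd (nat_lit 30) 
(.lf (nat_lit 4832206859) (dlOf (nat_lit 1) (nat_lit 0x20008110001))) 
(.lf (nat_lit 5905948683) (dlOf (nat_lit 1) (nat_lit 0x58008002800200140008160483)))) 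
(.lf (nat_lit 4899315723) (dlOf (nat_lit 1) (nat_lit 0x160028100001)))) 
(.lf (nat_lit 5234860107) (dlOf (nat_lit 4) (nat_lit 0xd0068009403200060180010005800178200028068002c0300005d04002c01a002200c80016c1000f00080054002001e0008100503)))))) 
(.nd (nat_lit 29) (.nd (nat_lit 27) (.nd (nat_lit 6) (.nd (nat_lit 20) 
(.lf (nat_lit 3288703019) (dlOf (nat_lit 1) (nat_lit 0x54002005000080c0c02))) (.nd (nat_lit 22) 
(.lf (nat_lit 11903019) (dlOf (nat_lit 1) (nat_lit 0xa00286c0001))) 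
(.lf (nat_lit 16097323) (dlOf (nat_lit 1) (nat_lit 0x400200020008860802))))) (.nd (nat_lit 8) 
(.lf (nat_lit 20294251) (dlOf (nat_lit 1) (nat_lit 0x1c004000200089d5382))) 
(.lf (nat_lit 3490033003) (dlOf (nat_lit 1) (nat_lit 0x400200020008006b02))))) (.nd (nat_lit 26) 
(.nd (nat_lit 28) 
(.lf (nat_lit 3355811883) (dlOf (nat_lit 1) (nat_lit 0x18008002c00200080008120783))) 
(.lf (nat_lit 1476763691) (dlOf (nat_lit 1) (nat_lit 0x300028190901)))) (.nd (nat_lit 6) 
(.nd (nat_lit 30) 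
(.lf (nat_lit 2617614379) (dlOf (nat_lit 7) (nat_lit 0x802c00de1810014016006f080800100b0036a604000805801b4d02000a02c00d9b8100830178000000801580080028002009a0008100783))) 
(.lf (nat_lit 1543872555) (dlOf (nat_lit 2) (nat_lit 0x1808c0050040000e504002400081a0601)))) 
(.lf (nat_lit 2349182187) (dlOf (nat_lit 4) (nat_lit 0x200d00084066000403100130170000d82002500d0018806600a603100550170000b82000500d000e406600aa03100490170000b42000080080140002001400080f6503)))))) 
(.nd (nat_lit 30) (.nd (nat_lit 26) (.nd (nat_lit 27) (.nd (nat_lit 28) 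
(.lf (nat_lit 537239595) (dlOf (nat_lit 1) (nat_lit 0xc00400060008070802))) 
(.lf (nat_lit 805675051) (dlOf (nat_lit 4) (nat_lit 0x10138000200400100a60000f02001005300100098000381000200080040002000c0008180903)))) 
(.lf (nat_lit 671457323) (dlOf (nat_lit 2) (nat_lit 0x1808c0050040000b504002400081a0601)))) 
(.nd (nat_lit 27) (.lf (nat_lit 604348459) (dlOf (nat_lit 1) (nat_lit 0x300028190901))) 
(.lf (nat_lit 738566187) (dlOf (nat_lit 1) (nat_lit 0x100080004002000400080b0403))))) 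
(.nd (nat_lit 28) (.nd (nat_lit 26) (.nd (nat_lit 31) 
(.lf (nat_lit 1610981419) (dlOf (nat_lit 1) (nat_lit 0x100080004002000400080b0403))) 
(.lf (nat_lit 3758465067) (dlOf (nat_lit 1) (nat_lit 0x1f600181e0801)))) 
(.lf (nat_lit 1678090283) (dlOf (nat_lit 10) (nat_lit 0x37605500fd02a00ba814c02d40a403be04e010202600b1811404c007802de0370162018008780b4049c058005a02400b200b8082005804b0024026801100730050015001805b4000000102801ce05500f502980003c100f5015804380aa021805301590270064813006d8094036a03701e1019003a00c403ec0480454013011a00900de002805fc0000000e1c0024056004a029808c004c01140140000d08000805500070298000241005b015400640a6025804e005f025002580dc018002c000a0120000407001302b0042815400040a60000306000405500170298000041001e004c0000004000400200460008180802)))) 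
(.nd (nat_lit 6) 
(.lf (nat_lit 4026900523) (dlOf (nat_lit 3) (nat_lit 0x4c003000120100120018000880800400080008002007800080c0d03))) 
(.lf (nat_lit 1881514091) (dlOf (nat_lit 1) (nat_lit 0x8008004c002000c0008f40a03)))))))) 
(.nd (nat_lit 20) (.nd (nat_lit 28) (.nd (nat_lit 29) (.nd (nat_lit 6) (.nd (nat_lit 7) 
(.lf (nat_lit 42835979) (dlOf (nat_lit 1) (nat_lit 0x20019280001))) 
(.lf (nat_lit 19771275) (dlOf (nat_lit 1) (nat_lit 0x80080004002000200089d7783)))) 
(.nd (nat_lit 10) (.lf (nat_lit 893003) (dlOf (nat_lit 1) (nat_lit 0x20028030f81))) 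
(.lf (nat_lit 19772491) (dlOf (nat_lit 2) (nat_lit 0x14a5b000348189d9300))))) (.nd (nat_lit 5) 
(.nd (nat_lit 27) (.lf (nat_lit 537763851) (dlOf (nat_lit 1) (nat_lit 0x1400400040008170482))) 
(.lf (nat_lit 2819465227) (dlOf (nat_lit 4) (nat_lit 0x101b00189c0800280d800b7004001406c005af02000c00282a0281)))) 
(.nd (nat_lit 7) (.nd (nat_lit 27) 
(.lf (nat_lit 537763883) (dlOf (nat_lit 2) (nat_lit 0x10120001e4080018008004000200240008170603))) 
(.lf (nat_lit 2819465259) (dlOf (nat_lit 1) (nat_lit 0x4004000200082a0782)))) 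
(.lf (nat_lit 2754457259) (dlOf (nat_lit 1) (nat_lit 0x9400280f7281)))))) (.nd (nat_lit 5) 
(.nd (nat_lit 7) (.nd (nat_lit 21) (.nd (nat_lit 31) 
(.lf (nat_lit 1410179083) (dlOf (nat_lit 1) (nat_lit 0x1400400040008170482))) 
(.lf (nat_lit 3557662731) (dlOf (nat_lit 4) (nat_lit 0x101c002ef00800280e00169004001407000b4402000c00282a0281)))) 
(.lf (nat_lit 4096630795) (dlOf (nat_lit 1) (nat_lit 0x1b100080b2000207080008140a03)))) 
(.nd (nat_lit 26) (.lf (nat_lit 1879941259) (dlOf (nat_lit 2) (nat_lit 0x1700000001d818490100))) 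
(.lf (nat_lit 1007526027) (dlOf (nat_lit 2) (nat_lit 0x1700000001d818490100))))) (.nd (nat_lit 31) 
(.nd (nat_lit 8) 
(.lf (nat_lit 1410179115) (dlOf (nat_lit 2) (nat_lit 0x10120001ec080018008004000200240008170603))) 
(.lf (nat_lit 5772256555) (dlOf (nat_lit 1) (nat_lit 0x400200020008093182)))) (.nd (nat_lit 21) 
(.lf (nat_lit 3557662763) (dlOf (nat_lit 1) (nat_lit 0x4004000200082a0782))) 
(.lf (nat_lit 4096630827) (dlOf (nat_lit 2) (nat_lit 0x1580000000004005800200120008140d02))))))) 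
(.nd (nat_lit 7) (.nd (nat_lit 5) (.nd (nat_lit 21) (.nd (nat_lit 22) 
(.lf (nat_lit 27107339) (dlOf (nat_lit 2) (nat_lit 0x1b17060063c0200020008ca0481))) 
(.nd (nat_lit 23) 
(.lf (nat_lit 22913035) (dlOf (nat_lit 3) (nat_lit 0xd6fa000637ac0035a94002acd2000aa04001266900054c08005000800d400200760008b40083))) 
(.lf (nat_lit 31301643) (dlOf (nat_lit 1) (nat_lit 0x80028e80001))))) (.nd (nat_lit 6) 
(.nd (nat_lit 10) (.lf (nat_lit 25010187) (dlOf (nat_lit 1) (nat_lit 0x20008bd0a01))) 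
(.lf (nat_lit 45984779) (dlOf (nat_lit 1) (nat_lit 0x400400020009385f82)))) 
(.lf (nat_lit 4038731) (dlOf (nat_lit 1) (nat_lit 0x1c004007a0018270d02))))) (.nd (nat_lit 24) 
(.nd (nat_lit 8) 
(.lf (nat_lit 8234603) (dlOf (nat_lit 2) (nat_lit 0x119b8000cb7a0002d04000a0018513901))) 
(.lf (nat_lit 1941867) (dlOf (nat_lit 1) (nat_lit 0x8008000400200020008150703)))) (.nd (nat_lit 6) 
(.lf (nat_lit 27107371) (dlOf (nat_lit 1) (nat_lit 0x2c00200640008ca0682))) 
(.lf (nat_lit 52273259) (dlOf (nat_lit 1) (nat_lit 0x400200020009521b02)))))) (.nd (nat_lit 6) 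
(.nd (nat_lit 5) (.nd (nat_lit 9) (.nd (nat_lit 29) 
(.lf (nat_lit 471705995) (dlOf (nat_lit 1) (nat_lit 0x200283d4e81))) 
(.lf (nat_lit 1008576907) (dlOf (nat_lit 1) (nat_lit 0x400400020008dd4e82)))) 
(.lf (nat_lit 45984651) (dlOf (nat_lit 1) (nat_lit 0x1000400020009385c82)))) (.nd (nat_lit 8) 
(.lf (nat_lit 5773303979) (dlOf (nat_lit 1) (nat_lit 0xe00180c1501))) 
(.lf (nat_lit 473803179) (dlOf (nat_lit 1) (nat_lit 0x3c0018fa4e81))))) (.nd (nat_lit 22) 
(.nd (nat_lit 8) (.lf (nat_lit 18718923) (dlOf (nat_lit 1) (nat_lit 0x400200020008970482))) 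
(.lf (nat_lit 12427723) (dlOf (nat_lit 1) (nat_lit 0x2800086c0981)))) (.nd (nat_lit 10) 
(.lf (nat_lit 8237515) (dlOf (nat_lit 1) (nat_lit 0x400400020018518682))) 
(.lf (nat_lit 8234443) (dlOf (nat_lit 1) (nat_lit 0x20018513601))))))))))))

end

end Pool.Agent.Lib.MP_5854e1_co.Cz

namespace Pool.Agent.Lib.MP_5854e1_co.Cz

noncomputable section

noncomputable def tz154 : DT := (.nd (nat_lit 18) (.nd (nat_lit 16) (.nd (nat_lit 13) 
(.nd (nat_lit 30) (.nd (nat_lit 19) (.nd (nat_lit 6) (.nd (nat_lit 26) (.nd (nat_lit 23) 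
(.nd (nat_lit 10) (.nd (nat_lit 5) (.nd (nat_lit 7) 
(.lf (nat_lit 21102603) (dlOf (nat_lit 2) (nat_lit 0x80000001d2040034002001a0008a10482))) 
(.lf (nat_lit 6711017611) (dlOf (nat_lit 1) (nat_lit 0xc00400020008030f02)))) 
(.lf (nat_lit 4429316139) (dlOf (nat_lit 3) (nat_lit 0xe404e00a001c000300d801e000000020100048000000080200040018070801)))) 
(.nd (nat_lit 7) (.nd (nat_lit 8) 
(.lf (nat_lit 4697752587) (dlOf (nat_lit 1) (nat_lit 0x13c0008092881))) 
(.lf (nat_lit 671221515) (dlOf (nat_lit 2) (nat_lit 0x30170000b0080010008001000200060008143b83)))) 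
(.lf (nat_lit 2818704523) (dlOf (nat_lit 1) (nat_lit 0x400280d2b01))))) (.nd (nat_lit 5) 
(.nd (nat_lit 7) (.lf (nat_lit 25296907) (dlOf (nat_lit 1) (nat_lit 0xe80080090002004c0008bf0483))) 
(.lf (nat_lit 8524683) (dlOf (nat_lit 1) (nat_lit 0x18008000800200020008519003)))) (.nd (nat_lit 7) 
(.nd (nat_lit 20) 
(.lf (nat_lit 25296939) (dlOf (nat_lit 1) (nat_lit 0x98008004000200360008bf0a83))) 
(.lf (nat_lit 15859755) (dlOf (nat_lit 1) (nat_lit 0x1800400060008840802)))) 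
(.lf (nat_lit 49416619) (dlOf (nat_lit 1) (nat_lit 0x20009464e81)))))) (.nd (nat_lit 27) 
(.nd (nat_lit 5) (.nd (nat_lit 7) (.nd (nat_lit 8) 
(.lf (nat_lit 4362209291) (dlOf (nat_lit 1) (nat_lit 0x3c0008004701))) 
(.lf (nat_lit 335675659) (dlOf (nat_lit 2) (nat_lit 0xe00640017c040010002000e0008090a82)))) 
(.lf (nat_lit 5167513739) (dlOf (nat_lit 3) (nat_lit 0x160230001b0100100110000d4080038008000400200160008070f03)))) 
(.nd (nat_lit 9) (.lf (nat_lit 2483159211) (dlOf (nat_lit 1) (nat_lit 0x400200020008044c02))) 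
(.lf (nat_lit 6509694635) (dlOf (nat_lit 1) (nat_lit 0x140018147281))))) (.nd (nat_lit 29) 
(.nd (nat_lit 5) 
(.lf (nat_lit 2617376779) (dlOf (nat_lit 2) (nat_lit 0x100b002394040008004000600180a0002))) 
(.lf (nat_lit 2617377323) (dlOf (nat_lit 2) (nat_lit 0x1d0158000000802a0008000c002009c00080a1483)))) 
(.nd (nat_lit 8) (.lf (nat_lit 1006764043) (dlOf (nat_lit 1) (nat_lit 0x400200020008050a02))) 
(.lf (nat_lit 3154247947) (dlOf (nat_lit 1) (nat_lit 0x400400380018133a02))))))) (.nd (nat_lit 12) 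
(.nd (nat_lit 8) (.nd (nat_lit 23) (.nd (nat_lit 5) 
(.lf (nat_lit 2752643147) (dlOf (nat_lit 1) (nat_lit 0x10008001000200040008020903))) 
(.lf (nat_lit 52559979) (dlOf (nat_lit 1) (nat_lit 0x20009550a01)))) (.nd (nat_lit 22) 
(.lf (nat_lit 25296971) (dlOf (nat_lit 2) (nat_lit 0x11e458008b0e0000470400040028bf0d01))) 
(.lf (nat_lit 12714059) (dlOf (nat_lit 1) (nat_lit 0x4002000200086d0f02))))) (.nd (nat_lit 5) 
(.nd (nat_lit 7) (.lf (nat_lit 132427) (dlOf (nat_lit 1) (nat_lit 0x30008001c002000e0008003303))) 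
(.nd (nat_lit 9) (.lf (nat_lit 38930891) (dlOf (nat_lit 1) (nat_lit 0x400400020009194e82))) 
(.lf (nat_lit 4563536843) (dlOf (nat_lit 1) (nat_lit 0x78008001c002000a0008095d83))))) 
(.nd (nat_lit 9) (.lf (nat_lit 402784619) (dlOf (nat_lit 1) (nat_lit 0x180018090f81))) 
(.lf (nat_lit 537003883) (dlOf (nat_lit 1) (nat_lit 0x400400020018004002)))))) (.nd (nat_lit 5) 
(.nd (nat_lit 7) (.nd (nat_lit 8) (.nd (nat_lit 23) 
(.lf (nat_lit 136267) (dlOf (nat_lit 1) (nat_lit 0x320008009301))) 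
(.lf (nat_lit 8524875) (dlOf (nat_lit 4) (nat_lit 0x3ce880006743000330200063a200010008001229c0004404001800200020008519302)))) 
(.lf (nat_lit 805444939) (dlOf (nat_lit 1) (nat_lit 0x6000800140020058000811c903)))) 
(.lf (nat_lit 20058827) (dlOf (nat_lit 1) (nat_lit 0x80080004002000200089d8c83)))) (.nd (nat_lit 7) 
(.nd (nat_lit 9) (.lf (nat_lit 20058219) (dlOf (nat_lit 1) (nat_lit 0x4002000200089d7d82))) 
(.lf (nat_lit 8524395) (dlOf (nat_lit 1) (nat_lit 0x8008000400200020008518983)))) (.nd (nat_lit 8) 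
(.lf (nat_lit 20059371) (dlOf (nat_lit 1) (nat_lit 0xe00289d9501))) 
(.lf (nat_lit 8526827) (dlOf (nat_lit 4) (nat_lit 0x8fde00a5702000e744004e48100143a18012880800c8008000c0020006000851bf03)))))))) 
(.nd (nat_lit 21) (.nd (nat_lit 5) (.nd (nat_lit 27) (.nd (nat_lit 20) (.nd (nat_lit 6) 
(.nd (nat_lit 22) (.lf (nat_lit 42598411) (dlOf (nat_lit 1) (nat_lit 0x20019260001))) 
(.lf (nat_lit 21626891) (dlOf (nat_lit 1) (nat_lit 0x780080004002000a0008a50083)))) 
(.lf (nat_lit 805961803) (dlOf (nat_lit 4) (nat_lit 0x5813c000540404780ac001a04e0000982011102b0000340800b80080030002001a0008201483)))) 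
(.nd (nat_lit 6) (.nd (nat_lit 22) 
(.lf (nat_lit 26869771) (dlOf (nat_lit 2) (nat_lit 0x6a5a005ce818c80480))) 
(.lf (nat_lit 31064075) (dlOf (nat_lit 1) (nat_lit 0x40018e60601)))) 
(.lf (nat_lit 2753167947) (dlOf (nat_lit 1) (nat_lit 0x1220018091181))))) (.nd (nat_lit 6) 
(.nd (nat_lit 20) (.nd (nat_lit 26) 
(.lf (nat_lit 134873099) (dlOf (nat_lit 1) (nat_lit 0x58002001200080d0482))) 
(.lf (nat_lit 201981963) (dlOf (nat_lit 1) (nat_lit 0x58002001200080d0482)))) 
(.lf (nat_lit 471465995) (dlOf (nat_lit 1) (nat_lit 0xd8008000400200020008310603)))) 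
(.nd (nat_lit 26) 
(.lf (nat_lit 134873163) (dlOf (nat_lit 2) (nat_lit 0xbe031002c0088001581000080080018002000200080d0d03))) 
(.lf (nat_lit 201982027) (dlOf (nat_lit 2) (nat_lit 0xbe031002c00880013c1000080080018002000200080d0d03)))))) 
(.nd (nat_lit 22) (.nd (nat_lit 26) 
(.lf (nat_lit 805961771) (dlOf (nat_lit 9) (nat_lit 0xe4021007400380088008000570601c004200e500700288010000a80c038808401b400e004f0020000dc180700108036401c001400c00510020000cc200c201440604074000190400a6051005101d000060100bd814405e40740001604024c051011e01d0000501000c00080018002001c0008200c03))) 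
(.nd (nat_lit 29) (.lf (nat_lit 470417451) (dlOf (nat_lit 1) (nat_lit 0x90002000e00080e0a02))) 
(.lf (nat_lit 3154772011) (dlOf (nat_lit 2) (nat_lit 0x60540001027800000100078008002000200260008320e03))))) 
(.nd (nat_lit 20) (.nd (nat_lit 8) 
(.lf (nat_lit 21626923) (dlOf (nat_lit 1) (nat_lit 0x20018a50b81))) 
(.lf (nat_lit 46793003) (dlOf (nat_lit 1) (nat_lit 0x78008005c002005c0009380b03)))) 
(.nd (nat_lit 23) 
(.lf (nat_lit 5898283) (dlOf (nat_lit 2) (nat_lit 0x148bf80007a02000c0008400781))) 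
(.lf (nat_lit 14286891) (dlOf (nat_lit 1) (nat_lit 0x800400020008750002))))))) (.nd (nat_lit 20) 
(.nd (nat_lit 5) (.nd (nat_lit 6) (.nd (nat_lit 22) 
(.lf (nat_lit 472514571) (dlOf (nat_lit 1) (nat_lit 0x18004001200089b0102))) 
(.lf (nat_lit 15335435) (dlOf (nat_lit 2) (nat_lit 0x2098a0060802000400287e0481)))) 
(.nd (nat_lit 9) (.lf (nat_lit 53084235) (dlOf (nat_lit 1) (nat_lit 0x8008000400200020009570003))) 
(.lf (nat_lit 32115275) (dlOf (nat_lit 1) (nat_lit 0x1a000200d20008ef5282))))) (.nd (nat_lit 22) 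
(.nd (nat_lit 27) 
(.lf (nat_lit 2754215979) (dlOf (nat_lit 5) (nat_lit 0xf811000048040088088000220200520440001001002f0220000740800a00080028002000c00080c0d03))) 
(.lf (nat_lit 472514603) (dlOf (nat_lit 1) (nat_lit 0x1000189b0901)))) 
(.lf (nat_lit 6946859) (dlOf (nat_lit 2) (nat_lit 0x1497220007c02000c0008490781))))) 
(.nd (nat_lit 7) (.nd (nat_lit 5) (.nd (nat_lit 22) 
(.lf (nat_lit 3801099) (dlOf (nat_lit 5) (nat_lit 0x3c266000a0e80040602000209c000704cc00141d00080b060008144000209c000384cc00341d00080a080004144000209c000584cc00341d0008090800020008220001))) 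
(.lf (nat_lit 41549835) (dlOf (nat_lit 1) (nat_lit 0x60019240001)))) (.nd (nat_lit 6) 
(.lf (nat_lit 20578859) (dlOf (nat_lit 1) (nat_lit 0x1000289d1481))) 
(.lf (nat_lit 45744235) (dlOf (nat_lit 2) (nat_lit 0xd33f0000b0080028008000800200020009360a03))))) 
(.nd (nat_lit 6) (.nd (nat_lit 24) 
(.lf (nat_lit 12189835) (dlOf (nat_lit 1) (nat_lit 0x18002000200086c0102))) 
(.lf (nat_lit 28967051) (dlOf (nat_lit 1) (nat_lit 0x1780028da0481)))) 
(.lf (nat_lit 8000203) (dlOf (nat_lit 1) (nat_lit 0x400200020008518c82)))))))) (.nd (nat_lit 6) 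
(.nd (nat_lit 28) (.nd (nat_lit 5) (.nd (nat_lit 9) (.nd (nat_lit 11) 
(.lf (nat_lit 1140981771) (dlOf (nat_lit 1) (nat_lit 0x30008002800200220008040003))) 
(.nd (nat_lit 27) 
(.lf (nat_lit 1677858827) (dlOf (nat_lit 2) (nat_lit 0x1e02b00000008026000800080020046000811a603))) 
(.lf (nat_lit 3959560203) (dlOf (nat_lit 3) (nat_lit 0x8046004f98100020230027b40804d00080008002006a000811a603))))) 
(.nd (nat_lit 11) (.lf (nat_lit 3892445707) (dlOf (nat_lit 1) (nat_lit 0x20018118001))) 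
(.nd (nat_lit 27) 
(.lf (nat_lit 1677859339) (dlOf (nat_lit 1) (nat_lit 0x6000800140020058000811b283))) 
(.lf (nat_lit 3959560715) (dlOf (nat_lit 1) (nat_lit 0xe000811b281)))))) (.nd (nat_lit 27) 
(.nd (nat_lit 7) (.nd (nat_lit 11) 
(.lf (nat_lit 3221880875) (dlOf (nat_lit 10) (nat_lit 0xa4600e02cf00601768000000320c142801c01e60040154000000060182628038134401800140040039001026c00000002c1403a401c000150209f400e00ed0000000501001d80380002604022801c0000b0202a40000000381001a000000000080040008019000209d000081a0c03))) 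
(.lf (nat_lit 1677858859) (dlOf (nat_lit 1) (nat_lit 0x800803d800200a0000811a603)))) 
(.lf (nat_lit 5972821931) (dlOf (nat_lit 2) (nat_lit 0x280440005a04000400400020008144302)))) 
(.nd (nat_lit 10) (.nd (nat_lit 11) 
(.lf (nat_lit 3960078379) (dlOf (nat_lit 8) (nat_lit 0x3c407c015801c00180070008003002f000800640000000c8600020070000600806d80f802ac038001800c00ac002000980000002c14001401c000150200b800e0000a01000300700004c08002803800016040330004000200181a0d02))) 
(.lf (nat_lit 3959560235) (dlOf (nat_lit 1) (nat_lit 0x2b80020076000811a602)))) 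
(.lf (nat_lit 3959555115) (dlOf (nat_lit 1) (nat_lit 0x2800200020008112882)))))) (.nd (nat_lit 19) 
(.nd (nat_lit 11) (.nd (nat_lit 29) (.nd (nat_lit 5) 
(.lf (nat_lit 1344405515) (dlOf (nat_lit 6) (nat_lit 0x2092000e00100010e600046c080008908000446c00021c00008c830001121000088d800043a000021cc00010e00003e82800387380000004000400400100008760582))) 
(.lf (nat_lit 1343356971) (dlOf (nat_lit 1) (nat_lit 0x10a0018200801)))) (.nd (nat_lit 27) 
(.lf (nat_lit 1879179275) (dlOf (nat_lit 1) (nat_lit 0x400200020008050a02))) 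
(.lf (nat_lit 2013397003) (dlOf (nat_lit 1) (nat_lit 0x30008002800200220008040003))))) 
(.nd (nat_lit 7) (.nd (nat_lit 8) 
(.lf (nat_lit 3556903435) (dlOf (nat_lit 3) (nat_lit 0x30248000a40800b01240005004000c004003400080d5002))) 
(.lf (nat_lit 6241258251) (dlOf (nat_lit 1) (nat_lit 0x6400180d5b01)))) (.nd (nat_lit 9) 
(.lf (nat_lit 1345456523) (dlOf (nat_lit 1) (nat_lit 0x40028c34e81))) 
(.lf (nat_lit 6241258379) (dlOf (nat_lit 1) (nat_lit 0x80080028002001c00080d5c83)))))) 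
(.nd (nat_lit 5) (.nd (nat_lit 7) (.nd (nat_lit 21) 
(.lf (nat_lit 3557425163) (dlOf (nat_lit 1) (nat_lit 0x200281f0281))) 
(.lf (nat_lit 1344929803) (dlOf (nat_lit 1) (nat_lit 0x8008001c002000800089a0003)))) 
(.lf (nat_lit 3490318731) (dlOf (nat_lit 1) (nat_lit 0x8008000400200020008004e83)))) 
(.nd (nat_lit 26) (.nd (nat_lit 21) 
(.lf (nat_lit 1342832683) (dlOf (nat_lit 2) (nat_lit 0x20b88035000800a800800ac002007a00080e0a03))) 
(.lf (nat_lit 3492413483) (dlOf (nat_lit 6) (nat_lit 0xf381a407b00c803bc04401d901200180080000481407940d203cc06401dc02200eb0090000441004d40880002002026c0440000f8100910220000740800400080084002001800080c0c03)))) 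
(.nd (nat_lit 7) 
(.lf (nat_lit 3557425195) (dlOf (nat_lit 2) (nat_lit 0xa01d0001e00800b80080050002001c00081f0803))) 
(.lf (nat_lit 6377046187) (dlOf (nat_lit 1) (nat_lit 0x2800280a2c81)))))))) (.nd (nat_lit 26) 
(.nd (nat_lit 27) (.nd (nat_lit 19) (.nd (nat_lit 7) (.nd (nat_lit 20) 
(.lf (nat_lit 5368840267) (dlOf (nat_lit 1) (nat_lit 0x8008000400200020008040503))) 
(.lf (nat_lit 3490840651) (dlOf (nat_lit 1) (nat_lit 0x10008001000200040008020903)))) 
(.nd (nat_lit 8) (.lf (nat_lit 3221363915) (dlOf (nat_lit 1) (nat_lit 0x1d80040024000811c202))) 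
(.lf (nat_lit 1610744267) (dlOf (nat_lit 7) (nat_lit 0x172055003b02a005c80dc000406c018002200c400f0000f030074815401500a801d003700ed01100778078000741403200aa01900370001c82014b02a80a500dc0006e0803f00a601ea0350105010807400740002810025c0a6012203500af0108053807400000100130004006a0018091102))))) 
(.nd (nat_lit 9) (.nd (nat_lit 10) 
(.lf (nat_lit 3492413515) (dlOf (nat_lit 3) (nat_lit 0x2cc06800fc03280b6018c001409a02d0042004f0118000d03007681a002440ca01e606300f00210000c8200088008011c002000e00080c1483))) 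
(.lf (nat_lit 1345979467) (dlOf (nat_lit 1) (nat_lit 0x120018e22881)))) 
(.lf (nat_lit 3491365451) (dlOf (nat_lit 1) (nat_lit 0x1220018091181))))) (.nd (nat_lit 8) 
(.nd (nat_lit 5) (.nd (nat_lit 19) 
(.lf (nat_lit 5503057995) (dlOf (nat_lit 1) (nat_lit 0x8008000400200020008040503))) 
(.lf (nat_lit 5772017739) (dlOf (nat_lit 4) (nat_lit 0x4c050000650200ac02800032010001012800184080150008009000200780008040503)))) 
(.lf (nat_lit 3355579627) (dlOf (nat_lit 4) (nat_lit 0x1c032002730100020190013500800680c8000980400ec004008200080a9502)))) 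
(.nd (nat_lit 7) (.nd (nat_lit 9) 
(.lf (nat_lit 5774115147) (dlOf (nat_lit 1) (nat_lit 0x400200020008108802))) 
(.lf (nat_lit 3355579211) (dlOf (nat_lit 1) (nat_lit 0x200280a8f81)))) 
(.lf (nat_lit 1208093131) (dlOf (nat_lit 1) (nat_lit 0x400200020008094e82)))))) (.nd (nat_lit 27) 
(.nd (nat_lit 7) (.nd (nat_lit 8) (.nd (nat_lit 21) 
(.lf (nat_lit 1678377035) (dlOf (nat_lit 2) (nat_lit 0x5001300000018201880))) 
(.lf (nat_lit 4096393291) (dlOf (nat_lit 1) (nat_lit 0xc0018100601)))) 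
(.lf (nat_lit 3825339723) (dlOf (nat_lit 2) (nat_lit 0x20016000130200020028146a01)))) 
(.nd (nat_lit 5) (.nd (nat_lit 10) 
(.lf (nat_lit 1677853643) (dlOf (nat_lit 1) (nat_lit 0x20008112881))) (.nd (nat_lit 12) 
(.lf (nat_lit 1677854667) (dlOf (nat_lit 1) (nat_lit 0x80080008002000c0008114483))) 
(.lf (nat_lit 1677858763) (dlOf (nat_lit 1) (nat_lit 0x5800800080020050000811a603))))) 
(.lf (nat_lit 1409420523) (dlOf (nat_lit 1) (nat_lit 0x100018006501))))) (.nd (nat_lit 5) 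
(.nd (nat_lit 7) 
(.lf (nat_lit 6375997515) (dlOf (nat_lit 4) (nat_lit 0x404a0006a02002602800031010056014000184080150008009000200780008040503))) 
(.nd (nat_lit 8) (.lf (nat_lit 6107037899) (dlOf (nat_lit 1) (nat_lit 0x100028031781))) 
(.lf (nat_lit 3959555019) (dlOf (nat_lit 1) (nat_lit 0x100018112881))))) (.nd (nat_lit 7) 
(.lf (nat_lit 3959560555) (dlOf (nat_lit 1) (nat_lit 0x6c0040004000811ac02))) (.nd (nat_lit 10) 
(.lf (nat_lit 6377572843) (dlOf (nat_lit 1) (nat_lit 0x600180e4f01))) 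
(.lf (nat_lit 6375474667) (dlOf (nat_lit 1) (nat_lit 0x400200020008003602)))))))))) 
(.nd (nat_lit 5) (.nd (nat_lit 6) (.nd (nat_lit 19) (.nd (nat_lit 26) (.nd (nat_lit 9) 
(.nd (nat_lit 10) (.nd (nat_lit 8) (.nd (nat_lit 27) 
(.lf (nat_lit 4026671115) (dlOf (nat_lit 1) (nat_lit 0x10008024c00200ba0008020483))) 
(.lf (nat_lit 4697759755) (dlOf (nat_lit 1) (nat_lit 0x1000800e000200060008090003)))) 
(.lf (nat_lit 11673867) (dlOf (nat_lit 1) (nat_lit 0x3000803d8002010200086c0483)))) 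
(.nd (nat_lit 7) (.lf (nat_lit 4697760779) (dlOf (nat_lit 1) (nat_lit 0x1c0028092881))) 
(.lf (nat_lit 2818712715) (dlOf (nat_lit 3) (nat_lit 0x2402400100000000302000b009000600000000a0800ac002000800080d2b02))))) 
(.nd (nat_lit 7) (.nd (nat_lit 8) 
(.lf (nat_lit 11674123) (dlOf (nat_lit 2) (nat_lit 0xdff18806ff8bc0387bd50183de8006cc70400f6366001650c001600286c0d81))) 
(.lf (nat_lit 20065035) (dlOf (nat_lit 1) (nat_lit 0x200189d5b01)))) 
(.lf (nat_lit 1610753675) (dlOf (nat_lit 1) (nat_lit 0x20028093a01))))) (.nd (nat_lit 11) 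
(.nd (nat_lit 27) (.nd (nat_lit 31) 
(.lf (nat_lit 5435957259) (dlOf (nat_lit 2) (nat_lit 0x2807e001403e003e8028060a00))) 
(.lf (nat_lit 3288473611) (dlOf (nat_lit 1) (nat_lit 0x10008024c00200ba0008020483)))) 
(.nd (nat_lit 29) 
(.lf (nat_lit 2617384971) (dlOf (nat_lit 2) (nat_lit 0x501580640c080040008001c002002400080a0003))) 
(.lf (nat_lit 5301739531) (dlOf (nat_lit 2) (nat_lit 0x2807e001403e006a5828060a00))))) 
(.nd (nat_lit 8) (.nd (nat_lit 9) 
(.lf (nat_lit 469903371) (dlOf (nat_lit 2) (nat_lit 0x8423c0006e018004700))) 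
(.lf (nat_lit 3556911627) (dlOf (nat_lit 3) (nat_lit 0x2c09200029020060049000f0000000a010004000800e0002001c00080d5003)))) 
(.nd (nat_lit 7) (.lf (nat_lit 3959564555) (dlOf (nat_lit 1) (nat_lit 0x400400020008114b82))) 
(.lf (nat_lit 6241266571) (dlOf (nat_lit 1) (nat_lit 0x8004000200080d5c82))))))) (.nd (nat_lit 21) 
(.nd (nat_lit 26) (.nd (nat_lit 20) (.nd (nat_lit 22) 
(.lf (nat_lit 134881291) (dlOf (nat_lit 3) (nat_lit 0x604a0009023000500bc00100540007f08000e04a000102300000010006800800cc002004400080d0483))) 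
(.lf (nat_lit 21635083) (dlOf (nat_lit 1) (nat_lit 0x8008000400200020008a50083)))) (.nd (nat_lit 7) 
(.lf (nat_lit 31072267) (dlOf (nat_lit 1) (nat_lit 0xc00400060008e60602))) 
(.lf (nat_lit 1343889547) (dlOf (nat_lit 1) (nat_lit 0x8008014c002002c0008370483))))) 
(.nd (nat_lit 29) (.nd (nat_lit 27) 
(.lf (nat_lit 4362739723) (dlOf (nat_lit 1) (nat_lit 0x30004000200080e0a02))) 
(.lf (nat_lit 201990155) (dlOf (nat_lit 3) (nat_lit 0x604a0009023000500bc00100540007f08000e04a000102300000010006800800cc002004400080d0483)))) 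
(.nd (nat_lit 7) (.lf (nat_lit 4228521995) (dlOf (nat_lit 1) (nat_lit 0x30004000200080e0a02))) 
(.lf (nat_lit 738863499) (dlOf (nat_lit 1) (nat_lit 0x800200020008124e82)))))) (.nd (nat_lit 20) 
(.nd (nat_lit 23) (.nd (nat_lit 26) 
(.lf (nat_lit 3492421643) (dlOf (nat_lit 1) (nat_lit 0x780080038002001200080d0483))) 
(.lf (nat_lit 2754224139) (dlOf (nat_lit 1) (nat_lit 0x780080038002001200080d0483)))) 
(.lf (nat_lit 11149323) (dlOf (nat_lit 3) (nat_lit 0x1c2ad80056008000956c002a0040018004000e0008660082)))) 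
(.nd (nat_lit 22) (.nd (nat_lit 26) 
(.lf (nat_lit 3493470219) (dlOf (nat_lit 1) (nat_lit 0x20004000c0008140a02))) 
(.lf (nat_lit 2755272715) (dlOf (nat_lit 1) (nat_lit 0x20004000c0008140a02)))) 
(.lf (nat_lit 24780811) (dlOf (nat_lit 1) (nat_lit 0x28004000e0008bb0082))))))) (.nd (nat_lit 19) 
(.nd (nat_lit 28) (.nd (nat_lit 7) (.nd (nat_lit 9) (.nd (nat_lit 23) 
(.lf (nat_lit 3288473675) (dlOf (nat_lit 4) (nat_lit 0x13010002b780802d8080000401600adb04001600b0056c018020900))) 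
(.lf (nat_lit 25305163) (dlOf (nat_lit 4) (nat_lit 0xac8b000561c0000920803e722c01ef87000023820013c8b000f61c00008c0800fc004001c0008bf0d02)))) 
(.nd (nat_lit 20) 
(.lf (nat_lit 1073881675) (dlOf (nat_lit 10) (nat_lit 0xd40148003cc0806a00a4001d804019c0520001102003a029000068100d401480002c0800080a40000c0400680520000402005e02900001810102014800000080058008004c00200020008018d03))) 
(.lf (nat_lit 9577035) (dlOf (nat_lit 2) (nat_lit 0xca4d80000f018578d00))))) (.nd (nat_lit 8) 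
(.lf (nat_lit 20067019) (dlOf (nat_lit 1) (nat_lit 0x4002000200089d8c82))) (.nd (nat_lit 11) 
(.lf (nat_lit 3959563211) (dlOf (nat_lit 1) (nat_lit 0x40008112881))) 
(.lf (nat_lit 738339787) (dlOf (nat_lit 1) (nat_lit 0x20018095d81)))))) (.nd (nat_lit 31) 
(.nd (nat_lit 7) (.nd (nat_lit 8) 
(.lf (nat_lit 4563542091) (dlOf (nat_lit 1) (nat_lit 0x10c00400040018090002))) 
(.lf (nat_lit 805449035) (dlOf (nat_lit 1) (nat_lit 0x9800400040018116a02)))) (.nd (nat_lit 8) 
(.lf (nat_lit 5772551371) (dlOf (nat_lit 1) (nat_lit 0xc00400060008092d82))) 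
(.lf (nat_lit 4563545035) (dlOf (nat_lit 1) (nat_lit 0x1bc00400120008095d82))))) (.nd (nat_lit 27) 
(.nd (nat_lit 29) 
(.lf (nat_lit 2416058443) (dlOf (nat_lit 1) (nat_lit 0x8008000400200020008030f83))) 
(.lf (nat_lit 4026671179) (dlOf (nat_lit 4) (nat_lit 0x1301000158c0802d808000040160056004001600b002ae818020900)))) 
(.lf (nat_lit 2550276171) (dlOf (nat_lit 1) (nat_lit 0x8008000400200020008030f83)))))) 
(.nd (nat_lit 21) (.nd (nat_lit 8) (.nd (nat_lit 23) (.nd (nat_lit 26) 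
(.lf (nat_lit 134881355) (dlOf (nat_lit 2) (nat_lit 0x2180c4000ac04001c002001e00080d0d02))) 
(.lf (nat_lit 201990219) (dlOf (nat_lit 2) (nat_lit 0x2180c40009e04001c002001e00080d0d02)))) 
(.lf (nat_lit 42606667) (dlOf (nat_lit 1) (nat_lit 0x20029260601)))) (.nd (nat_lit 7) 
(.lf (nat_lit 50995531) (dlOf (nat_lit 1) (nat_lit 0x200094e8801))) 
(.lf (nat_lit 9057227) (dlOf (nat_lit 1) (nat_lit 0x1b000400e60008519202))))) (.nd (nat_lit 20) 
(.nd (nat_lit 26) (.nd (nat_lit 31) 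
(.lf (nat_lit 1344938059) (dlOf (nat_lit 3) (nat_lit 0x70000002340800100000010a04002c002000e00089a0602))) 
(.lf (nat_lit 3492421707) (dlOf (nat_lit 2) (nat_lit 0xa00e2802906b800cc0000005606000c00280d0d01)))) 
(.lf (nat_lit 2754224203) (dlOf (nat_lit 2) (nat_lit 0xa00eb8029070c00cc0000004f06000c00280d0d01)))) 
(.nd (nat_lit 8) (.lf (nat_lit 1345987659) (dlOf (nat_lit 1) (nat_lit 0xf80008e22881))) 
(.lf (nat_lit 12198219) (dlOf (nat_lit 1) (nat_lit 0x8004000200086c0602)))))))) (.nd (nat_lit 7) 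
(.nd (nat_lit 19) (.nd (nat_lit 26) (.nd (nat_lit 6) (.nd (nat_lit 22) (.nd (nat_lit 23) 
(.lf (nat_lit 2952929323) (dlOf (nat_lit 3) (nat_lit 0x2c803801420150001782001800e0000b8080310008000400200780008030383))) 
(.lf (nat_lit 25305131) (dlOf (nat_lit 2) (nat_lit 0x659150022c378000d010010800800f800200160008bf0a83)))) 
(.lf (nat_lit 12722219) (dlOf (nat_lit 1) (nat_lit 0x100080004002000200086e0a03)))) 
(.nd (nat_lit 8) (.lf (nat_lit 20066411) (dlOf (nat_lit 1) (nat_lit 0x8002000400089d7d82))) 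
(.lf (nat_lit 537012075) (dlOf (nat_lit 1) (nat_lit 0x40018004001))))) (.nd (nat_lit 27) 
(.nd (nat_lit 8) (.lf (nat_lit 604119083) (dlOf (nat_lit 1) (nat_lit 0x80008030381))) 
(.lf (nat_lit 3020038443) (dlOf (nat_lit 1) (nat_lit 0x5e00280f8301)))) (.nd (nat_lit 9) 
(.lf (nat_lit 3959568427) (dlOf (nat_lit 1) (nat_lit 0x40040002000811a602))) 
(.lf (nat_lit 2617385515) (dlOf (nat_lit 1) (nat_lit 0x1880080128002003a00080a1483)))))) 
(.nd (nat_lit 21) (.nd (nat_lit 26) (.nd (nat_lit 6) (.nd (nat_lit 27) 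
(.lf (nat_lit 537534507) (dlOf (nat_lit 2) (nat_lit 0x4c02c80000008011800800a0002003600080a0983))) 
(.lf (nat_lit 134881323) (dlOf (nat_lit 5) (nat_lit 0x4026000340200060120001401000500900009408003804c00000040054002005200080d0a82)))) 
(.lf (nat_lit 42606699) (dlOf (nat_lit 1) (nat_lit 0x400400020009260a02)))) (.nd (nat_lit 27) 
(.lf (nat_lit 1409949739) (dlOf (nat_lit 2) (nat_lit 0x4c02c80000008011800800a0002003600080a0983))) 
(.nd (nat_lit 28) 
(.lf (nat_lit 201990187) (dlOf (nat_lit 5) (nat_lit 0x40260002b0200060120001401000500900009408003804c00000040054002005200080d0a82))) 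
(.lf (nat_lit 3154780203) (dlOf (nat_lit 3) (nat_lit 0x2e0160000281000e03000020150007c066008a016002500a003c8014000001800e400400060018320e02)))))) 
(.nd (nat_lit 28) (.nd (nat_lit 8) (.nd (nat_lit 23) 
(.lf (nat_lit 2754224171) (dlOf (nat_lit 2) (nat_lit 0x8a21a000170180d0a80))) 
(.lf (nat_lit 11149355) (dlOf (nat_lit 3) (nat_lit 0x32ad806d3408003956c0366e04001400400060008660782)))) 
(.lf (nat_lit 8004395) (dlOf (nat_lit 1) (nat_lit 0xc400400c20018512202)))) (.nd (nat_lit 9) 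
(.nd (nat_lit 26) (.lf (nat_lit 3492421675) (dlOf (nat_lit 2) (nat_lit 0x8a205000158180d0a80))) 
(.lf (nat_lit 472522795) (dlOf (nat_lit 1) (nat_lit 0x200189b0901)))) 
(.lf (nat_lit 1345989163) (dlOf (nat_lit 2) (nat_lit 0x281b20008b0200020018e25181))))))) 
(.nd (nat_lit 8) (.nd (nat_lit 10) (.nd (nat_lit 6) (.nd (nat_lit 27) 
(.lf (nat_lit 4831977643) (dlOf (nat_lit 1) (nat_lit 0x400400020008062c82))) 
(.lf (nat_lit 5234630827) (dlOf (nat_lit 1) (nat_lit 0x8008000400200020008062c83)))) 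
(.nd (nat_lit 29) (.lf (nat_lit 3556911851) (dlOf (nat_lit 1) (nat_lit 0x214002009000080d5a02))) 
(.lf (nat_lit 4093782763) (dlOf (nat_lit 1) (nat_lit 0x10002000e0008005a02))))) (.nd (nat_lit 11) 
(.nd (nat_lit 6) (.lf (nat_lit 36316331) (dlOf (nat_lit 1) (nat_lit 0x8008001400200020009072c03))) 
(.nd (nat_lit 20) 
(.lf (nat_lit 3355587819) (dlOf (nat_lit 9) (nat_lit 0x480bc00a3e040010064004e6020004031002728100140190013500800500d0009380400280640004c02000e032000140100120178000000800f000800d0002001200080a9503))) 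
(.lf (nat_lit 20067563) (dlOf (nat_lit 2) (nat_lit 0x1f6cc0067e02002600189d9501))))) 
(.nd (nat_lit 26) (.lf (nat_lit 6576811243) (dlOf (nat_lit 1) (nat_lit 0x80018146501))) 
(.lf (nat_lit 1409428715) (dlOf (nat_lit 1) (nat_lit 0x20028006501)))))) (.nd (nat_lit 6) 
(.nd (nat_lit 9) (.nd (nat_lit 10) (.nd (nat_lit 26) 
(.lf (nat_lit 3758236075) (dlOf (nat_lit 1) (nat_lit 0x2020008106e81))) 
(.lf (nat_lit 3154256299) (dlOf (nat_lit 1) (nat_lit 0x2800200040008136e82)))) 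
(.lf (nat_lit 3221368235) (dlOf (nat_lit 1) (nat_lit 0x400400020008116d02)))) (.nd (nat_lit 10) 
(.lf (nat_lit 8004523) (dlOf (nat_lit 1) (nat_lit 0x20018512681))) 
(.lf (nat_lit 537012139) (dlOf (nat_lit 2) (nat_lit 0x1817c0001604005c00400100008004302))))) 
(.nd (nat_lit 9) (.nd (nat_lit 10) 
(.lf (nat_lit 1946296811) (dlOf (nat_lit 2) (nat_lit 0xb00a40000004001000400320008017302))) 
(.lf (nat_lit 6375482859) (dlOf (nat_lit 1) (nat_lit 0x400200020008003602)))) (.nd (nat_lit 11) 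
(.nd (nat_lit 21) 
(.lf (nat_lit 474096619) (dlOf (nat_lit 2) (nat_lit 0x819a003cb0200020019082881))) 
(.lf (nat_lit 4095878123) (dlOf (nat_lit 1) (nat_lit 0x400280e2881)))) 
(.lf (nat_lit 738339819) (dlOf (nat_lit 1) (nat_lit 0x8008000400200020008095e83)))))))))) 
(.nd (nat_lit 6) (.nd (nat_lit 5) (.nd (nat_lit 28) (.nd (nat_lit 13) (.nd (nat_lit 19) 
(.nd (nat_lit 7) (.nd (nat_lit 26) (.nd (nat_lit 9) (.nd (nat_lit 23) 
(.lf (nat_lit 4832034827) (dlOf (nat_lit 1) (nat_lit 0x1b8002008c0008090002))) 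
(.lf (nat_lit 25362443) (dlOf (nat_lit 1) (nat_lit 0x180018c00001)))) (.nd (nat_lit 11) 
(.lf (nat_lit 43189771) (dlOf (nat_lit 1) (nat_lit 0x600292a3681))) 
(.lf (nat_lit 2818776587) (dlOf (nat_lit 1) (nat_lit 0x8008005c0020012000812cd83))))) 
(.nd (nat_lit 27) (.nd (nat_lit 29) 
(.lf (nat_lit 3288530955) (dlOf (nat_lit 1) (nat_lit 0x8000400400008070502))) 
(.lf (nat_lit 4899143691) (dlOf (nat_lit 1) (nat_lit 0x1c0008090081)))) 
(.lf (nat_lit 5033361419) (dlOf (nat_lit 1) (nat_lit 0x20008090001))))) (.nd (nat_lit 11) 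
(.nd (nat_lit 8) (.lf (nat_lit 43189899) (dlOf (nat_lit 1) (nat_lit 0x200292a3a01))) 
(.lf (nat_lit 2349007243) (dlOf (nat_lit 1) (nat_lit 0x60028090781)))) (.nd (nat_lit 21) 
(.lf (nat_lit 54725003) (dlOf (nat_lit 1) (nat_lit 0x8008003c00200040009654e83))) 
(.lf (nat_lit 31656331) (dlOf (nat_lit 2) (nat_lit 0x1133f0003999c01612080008004002e0018e94e82)))))) 
(.nd (nat_lit 8) (.nd (nat_lit 22) (.nd (nat_lit 9) 
(.lf (nat_lit 2819293195) (dlOf (nat_lit 2) (nat_lit 0x302280134c080050008000800200020008220283))) 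
(.lf (nat_lit 2753233419) (dlOf (nat_lit 2) (nat_lit 0x681ff00110818090d80)))) (.nd (nat_lit 23) 
(.lf (nat_lit 21692427) (dlOf (nat_lit 2) (nat_lit 0xfb540007da8006a5828a60a00))) 
(.lf (nat_lit 13303819) (dlOf (nat_lit 1) (nat_lit 0x20008710a01))))) (.nd (nat_lit 7) 
(.nd (nat_lit 9) (.lf (nat_lit 8063243) (dlOf (nat_lit 2) (nat_lit 0x1caf2000e30200020028514b81))) 
(.lf (nat_lit 54201099) (dlOf (nat_lit 1) (nat_lit 0x8008000400200020009655b03)))) 
(.lf (nat_lit 54201227) (dlOf (nat_lit 1) (nat_lit 0x400400020009655c82)))))) (.nd (nat_lit 19) 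
(.nd (nat_lit 7) (.nd (nat_lit 27) (.nd (nat_lit 20) 
(.lf (nat_lit 604184587) (dlOf (nat_lit 2) (nat_lit 0xc80540000004013c00200360008080482))) 
(.lf (nat_lit 18030603) (dlOf (nat_lit 1) (nat_lit 0x400400020008900582)))) (.nd (nat_lit 10) 
(.lf (nat_lit 5033369611) (dlOf (nat_lit 1) (nat_lit 0x4800200080008090002))) 
(.lf (nat_lit 3959628811) (dlOf (nat_lit 2) (nat_lit 0x18000015d602000c0018112881))))) 
(.nd (nat_lit 8) (.nd (nat_lit 9) 
(.lf (nat_lit 3350667) (dlOf (nat_lit 1) (nat_lit 0x4000400060008200102))) 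
(.lf (nat_lit 1208167051) (dlOf (nat_lit 1) (nat_lit 0x400200020008095482)))) 
(.lf (nat_lit 8599435) (dlOf (nat_lit 1) (nat_lit 0x40020002000851a302))))) (.nd (nat_lit 20) 
(.nd (nat_lit 22) (.nd (nat_lit 26) 
(.lf (nat_lit 134946827) (dlOf (nat_lit 2) (nat_lit 0xb4036003848180e0000))) 
(.lf (nat_lit 202055691) (dlOf (nat_lit 2) (nat_lit 0xb40360065b0180e0000)))) 
(.lf (nat_lit 21700619) (dlOf (nat_lit 2) (nat_lit 0x5da00001ecf0001f50c01a960c002400400120008a60a02)))) 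
(.nd (nat_lit 7) (.nd (nat_lit 8) 
(.lf (nat_lit 22749195) (dlOf (nat_lit 6) (nat_lit 0x255f600169020002afb000b401000558200055408003ac1000395bc002296b00064b28002a58c002a4140029608001370200080008b20081))) 
(.lf (nat_lit 54209291) (dlOf (nat_lit 1) (nat_lit 0xdc00400660009655b02)))) 
(.lf (nat_lit 20656011) (dlOf (nat_lit 1) (nat_lit 0x200080004002000400089d7783))))))) 
(.nd (nat_lit 11) (.nd (nat_lit 19) (.nd (nat_lit 27) (.nd (nat_lit 30) (.nd (nat_lit 13) 
(.lf (nat_lit 2952986635) (dlOf (nat_lit 1) (nat_lit 0x50008000c00200100008080483))) 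
(.lf (nat_lit 2952994827) (dlOf (nat_lit 2) (nat_lit 0xe00200005c0802c0008016000200400008080483)))) 
(.nd (nat_lit 26) (.lf (nat_lit 4026728459) (dlOf (nat_lit 1) (nat_lit 0x8000400400008070502))) 
(.lf (nat_lit 5704450059) (dlOf (nat_lit 3) (nat_lit 0x1340180065d81009400c00329c080030008000c002001a0008080003))))) 
(.nd (nat_lit 13) (.nd (nat_lit 8) 
(.lf (nat_lit 6308429835) (dlOf (nat_lit 3) (nat_lit 0x1340180038901009400c001bf4080030008000c002001a0008080003))) 
(.lf (nat_lit 1006829835) (dlOf (nat_lit 1) (nat_lit 0x30008000c002000200080c0483)))) 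
(.nd (nat_lit 26) 
(.lf (nat_lit 5234696203) (dlOf (nat_lit 3) (nat_lit 0x2c030004b201001601800258c080030008001c002000600080a0a03))) 
(.lf (nat_lit 3691192331) (dlOf (nat_lit 1) (nat_lit 0x50008000c002001000080a0483)))))) 
(.nd (nat_lit 13) (.nd (nat_lit 20) (.nd (nat_lit 21) 
(.lf (nat_lit 1342898187) (dlOf (nat_lit 1) (nat_lit 0x220018100681))) 
(.lf (nat_lit 472580107) (dlOf (nat_lit 3) (nat_lit 0xb407c0067601002a03e0032e00800080080014002000200089c0003)))) 
(.nd (nat_lit 26) (.lf (nat_lit 1343946763) (dlOf (nat_lit 1) (nat_lit 0x20028380501))) 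
(.lf (nat_lit 4095410187) (dlOf (nat_lit 1) (nat_lit 0x200180b0a01))))) (.nd (nat_lit 20) 
(.nd (nat_lit 21) (.lf (nat_lit 1342906379) (dlOf (nat_lit 1) (nat_lit 0x400400020008100682))) 
(.lf (nat_lit 1345003531) (dlOf (nat_lit 1) (nat_lit 0x400189b0101)))) 
(.lf (nat_lit 1343954955) (dlOf (nat_lit 2) (nat_lit 0x42ca000490200060018380501)))))) 
(.nd (nat_lit 26) (.nd (nat_lit 8) (.nd (nat_lit 7) 
(.lf (nat_lit 3493013515) (dlOf (nat_lit 2) (nat_lit 0x6e018000270180f4700))) 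
(.lf (nat_lit 3624086667) (dlOf (nat_lit 1) (nat_lit 0x400200020008146182)))) (.nd (nat_lit 9) 
(.nd (nat_lit 10) (.lf (nat_lit 1345522059) (dlOf (nat_lit 1) (nat_lit 0x1e0008c94e81))) 
(.lf (nat_lit 3624078731) (dlOf (nat_lit 1) (nat_lit 0x400400020008146c82)))) 
(.lf (nat_lit 268635019) (dlOf (nat_lit 1) (nat_lit 0x4004000200080e5c82))))) (.nd (nat_lit 13) 
(.nd (nat_lit 9) (.nd (nat_lit 10) 
(.lf (nat_lit 3556972939) (dlOf (nat_lit 1) (nat_lit 0x80040002000812af82))) 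
(.lf (nat_lit 1543703947) (dlOf (nat_lit 3) (nat_lit 0x590160000640802e00b00003004006800200180008146c82)))) 
(.lf (nat_lit 4630711179) (dlOf (nat_lit 1) (nat_lit 0x400400020008095c82)))) (.nd (nat_lit 20) 
(.lf (nat_lit 1409493387) (dlOf (nat_lit 1) (nat_lit 0x4004004e0008004e82))) 
(.lf (nat_lit 4094896523) (dlOf (nat_lit 1) (nat_lit 0x20028054e81)))))))) (.nd (nat_lit 19) 
(.nd (nat_lit 8) (.nd (nat_lit 28) (.nd (nat_lit 11) (.nd (nat_lit 21) (.nd (nat_lit 23) 
(.lf (nat_lit 5570232363) (dlOf (nat_lit 1) (nat_lit 0x1c00200100008090302))) 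
(.lf (nat_lit 25362475) (dlOf (nat_lit 2) (nat_lit 0x132fc0006604000800200020008c00602)))) 
(.nd (nat_lit 9) (.lf (nat_lit 44236843) (dlOf (nat_lit 1) (nat_lit 0x8004000200092e0302))) 
(.lf (nat_lit 11739691) (dlOf (nat_lit 1) (nat_lit 0x54002000e00086c0e82))))) (.nd (nat_lit 26) 
(.nd (nat_lit 29) (.lf (nat_lit 5503126187) (dlOf (nat_lit 1) (nat_lit 0x400400020008095682))) 
(.lf (nat_lit 4966255275) (dlOf (nat_lit 1) (nat_lit 0x20028095681)))) (.nd (nat_lit 7) 
(.lf (nat_lit 2754809387) (dlOf (nat_lit 2) (nat_lit 0x3044800282200009e080010002000200080f7182))) 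
(.lf (nat_lit 6107114155) (dlOf (nat_lit 1) (nat_lit 0x20028095681)))))) (.nd (nat_lit 29) 
(.nd (nat_lit 7) (.nd (nat_lit 9) 
(.lf (nat_lit 5704450091) (dlOf (nat_lit 1) (nat_lit 0x38002000e0008080302))) 
(.lf (nat_lit 2617451051) (dlOf (nat_lit 1) (nat_lit 0x200280a1481)))) (.nd (nat_lit 10) 
(.lf (nat_lit 6711083179) (dlOf (nat_lit 1) (nat_lit 0xc00400060008090602))) 
(.lf (nat_lit 3489868971) (dlOf (nat_lit 2) (nat_lit 0xa1a300016018006280))))) (.nd (nat_lit 27) 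
(.nd (nat_lit 31) (.lf (nat_lit 6174212139) (dlOf (nat_lit 1) (nat_lit 0x1c00200100008090302))) 
(.lf (nat_lit 4026728491) (dlOf (nat_lit 4) (nat_lit 0x74806a04900340234018812600c008d4054012002900a80118125808008f8016000251200d200a0000f01000f01a8000740802200080050002003c0008070803)))) 
(.lf (nat_lit 6308429867) (dlOf (nat_lit 1) (nat_lit 0x38002000e0008080302)))))) (.nd (nat_lit 10) 
(.nd (nat_lit 7) (.nd (nat_lit 9) 
(.lf (nat_lit 4563607851) (dlOf (nat_lit 3) (nat_lit 0x7e02f00003010007017800000080078008006800200080008090b03))) 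
(.nd (nat_lit 27) 
(.lf (nat_lit 1141058347) (dlOf (nat_lit 4) (nat_lit 0x3404c001e60201dc026000e681000801300072c080030008001000200120008095c03))) 
(.lf (nat_lit 738405163) (dlOf (nat_lit 2) (nat_lit 0x302a800714080030008001400200020008095c03))))) 
(.nd (nat_lit 11) (.nd (nat_lit 9) 
(.lf (nat_lit 9634219) (dlOf (nat_lit 1) (nat_lit 0x20028577181))) 
(.lf (nat_lit 4160955307) (dlOf (nat_lit 1) (nat_lit 0x4002000200080a2682)))) (.nd (nat_lit 13) 
(.lf (nat_lit 2754808235) (dlOf (nat_lit 1) (nat_lit 0x200280f4e81))) 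
(.lf (nat_lit 2754816427) (dlOf (nat_lit 1) (nat_lit 0x200280f4e81)))))) (.nd (nat_lit 7) 
(.nd (nat_lit 11) (.nd (nat_lit 13) 
(.lf (nat_lit 2684556587) (dlOf (nat_lit 1) (nat_lit 0x10004000400080a9802))) 
(.lf (nat_lit 2684564779) (dlOf (nat_lit 2) (nat_lit 0xf0160000e40800a800800f4002001400080a9803)))) 
(.lf (nat_lit 1543712043) (dlOf (nat_lit 1) (nat_lit 0x20018146801)))) (.nd (nat_lit 13) 
(.nd (nat_lit 11) (.lf (nat_lit 2885879723) (dlOf (nat_lit 1) (nat_lit 0x20008144301))) 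
(.lf (nat_lit 2818772907) (dlOf (nat_lit 1) (nat_lit 0x10008001800200020008127983)))) 
(.nd (nat_lit 9) (.lf (nat_lit 8598955) (dlOf (nat_lit 1) (nat_lit 0x480028519901))) 
(.lf (nat_lit 5905786795) (dlOf (nat_lit 1) (nat_lit 0x1f20028144301)))))))) (.nd (nat_lit 26) 
(.nd (nat_lit 20) (.nd (nat_lit 21) (.nd (nat_lit 13) (.nd (nat_lit 22) (.nd (nat_lit 23) 
(.nd (nat_lit 28) 
(.lf (nat_lit 537591851) (dlOf (nat_lit 3) (nat_lit 0x24902f80009008114817c0004404016c004009000080c0d02))) 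
(.lf (nat_lit 1342898219) (dlOf (nat_lit 1) (nat_lit 0x60018100e01)))) 
(.lf (nat_lit 42663979) (dlOf (nat_lit 1) (nat_lit 0x400400020009270902)))) 
(.lf (nat_lit 21692459) (dlOf (nat_lit 3) (nat_lit 0x13eb88000a40800275c40005004007000400760018a60d02)))) 
(.nd (nat_lit 27) 
(.lf (nat_lit 537600043) (dlOf (nat_lit 2) (nat_lit 0x80b00004023000170280d0a80))) 
(.lf (nat_lit 134946859) (dlOf (nat_lit 2) (nat_lit 0x780e8000ac04019400200f600080e0602))))) 
(.nd (nat_lit 7) (.nd (nat_lit 23) 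
(.lf (nat_lit 1344995371) (dlOf (nat_lit 1) (nat_lit 0x200189b0901))) 
(.lf (nat_lit 11206699) (dlOf (nat_lit 3) (nat_lit 0x25bf100013c0801100000006404000400200380008670602)))) 
(.lf (nat_lit 36373675) (dlOf (nat_lit 1) (nat_lit 0x400200020009072c02))))) (.nd (nat_lit 13) 
(.nd (nat_lit 24) (.nd (nat_lit 9) 
(.lf (nat_lit 1769515) (dlOf (nat_lit 4) (nat_lit 0x503e2001e1e500020f0800685a8005015e000e0a3000e00a8000a83800a07c400082f2000417400070b5000a82bc008c14600020a10000e8700030c9004600000002008005400400020008130802))) 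
(.lf (nat_lit 3491430955) (dlOf (nat_lit 2) (nat_lit 0x6307ac0000004008800400b00008090e82)))) 
(.nd (nat_lit 21) (.lf (nat_lit 18546731) (dlOf (nat_lit 2) (nat_lit 0xe74400045018950780))) 
(.lf (nat_lit 29032491) (dlOf (nat_lit 1) (nat_lit 0x400200020008db0e02))))) (.nd (nat_lit 7) 
(.nd (nat_lit 22) 
(.lf (nat_lit 1777707) (dlOf (nat_lit 3) (nat_lit 0xb6000000040080012a98000000400b800200100008130802))) 
(.lf (nat_lit 22749227) (dlOf (nat_lit 3) (nat_lit 0xcb0400da6810002582006d00080048008000400200480008b20783)))) 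
(.lf (nat_lit 8069547) (dlOf (nat_lit 1) (nat_lit 0x7800400020018511002)))))) (.nd (nat_lit 30) 
(.nd (nat_lit 27) (.nd (nat_lit 9) (.nd (nat_lit 13) 
(.lf (nat_lit 4362797099) (dlOf (nat_lit 3) (nat_lit 0x1ec033000190100700198000c40801e8008006c00200880008100603))) 
(.lf (nat_lit 4362805291) (dlOf (nat_lit 15) (nat_lit 0x6d816000180a6037204f02a502082a780cc0410062011601400e40000000c84028380cc000620410740660003002008a0330000f8102a20198000780807980cc000380405e80660001b0201880330000d0101980198000640814400cc00030040ae4066000170204c20330000b01017b019800054080ea80cc0002804062c004017a0018100602)))) 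
(.lf (nat_lit 2753233451) (dlOf (nat_lit 2) (nat_lit 0x6307f40000004008800400b00008090e82)))) 
(.nd (nat_lit 13) (.nd (nat_lit 29) 
(.lf (nat_lit 470482987) (dlOf (nat_lit 1) (nat_lit 0x20018100d81))) 
(.lf (nat_lit 1007353899) (dlOf (nat_lit 1) (nat_lit 0x200282f0e01)))) 
(.lf (nat_lit 202055723) (dlOf (nat_lit 2) (nat_lit 0x780e80009e04019400200f600080e0602))))) 
(.nd (nat_lit 29) (.nd (nat_lit 13) (.nd (nat_lit 31) 
(.lf (nat_lit 1410007083) (dlOf (nat_lit 10) (nat_lit 0x11bc0be008e02a002101380009018182017c000460411a80be001405e005801380008818189817c009c05401bc0270001003031502f803480a8019404e0001f0604f605f0000e8101f802f80006c080b1817c0000e0400140be0000502043e00180c0c01))) 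
(.lf (nat_lit 3557490731) (dlOf (nat_lit 1) (nat_lit 0x20018220801)))) 
(.lf (nat_lit 1410015275) (dlOf (nat_lit 2) (nat_lit 0x80b00004023000158280d0a80)))) 
(.nd (nat_lit 7) (.nd (nat_lit 13) 
(.lf (nat_lit 4228579371) (dlOf (nat_lit 3) (nat_lit 0x1ec032000198100700190000c80801e8008006c00200880008100603))) 
(.lf (nat_lit 4228587563) (dlOf (nat_lit 15) (nat_lit 0x6d81440018098037204802a501d02a780c80410060011601400e40000000cc4028380c8000640410740640003102008a0320000f8102a20190000780807980c8000380405e80640001b0201880320000d0101980190000640814400c800030040ae4064000170204c20320000b01017b019000054080ea80c80002804062c004017a0018100602)))) 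
(.lf (nat_lit 4094364587) (dlOf (nat_lit 1) (nat_lit 0x100028055d01))))))))) (.nd (nat_lit 28) 
(.nd (nat_lit 13) (.nd (nat_lit 21) (.nd (nat_lit 8) (.nd (nat_lit 5) (.nd (nat_lit 9) 
(.nd (nat_lit 10) (.lf (nat_lit 4496490571) (dlOf (nat_lit 1) (nat_lit 0x400400020008090502))) 
(.lf (nat_lit 2818776139) (dlOf (nat_lit 1) (nat_lit 0xcc002812bf01)))) (.nd (nat_lit 27) 
(.lf (nat_lit 4362273355) (dlOf (nat_lit 5) (nat_lit 0xf0268000b8080278150000460403f80a80001e0201080540000e018018d00))) 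
(.lf (nat_lit 201523787) (dlOf (nat_lit 7) (nat_lit 0x8c0178001a00801800bc000ce0400c805e0006602010802f000210100310178001040801900bc0007e04000400400060008018d02))))) 
(.nd (nat_lit 7) 
(.lf (nat_lit 5905778795) (dlOf (nat_lit 1) (nat_lit 0x10008000c00200040008144703))) 
(.nd (nat_lit 10) (.lf (nat_lit 2885880043) (dlOf (nat_lit 1) (nat_lit 0x40028144b01))) 
(.lf (nat_lit 2818776299) (dlOf (nat_lit 1) (nat_lit 0x80040002000812c602)))))) (.nd (nat_lit 7) 
(.nd (nat_lit 5) (.lf (nat_lit 4362273099) (dlOf (nat_lit 1) (nat_lit 0x24002000c0008014c82))) 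
(.nd (nat_lit 10) (.lf (nat_lit 4362273131) (dlOf (nat_lit 1) (nat_lit 0xc00200040008015502))) 
(.lf (nat_lit 3221425515) (dlOf (nat_lit 1) (nat_lit 0x400200020008116b02))))) (.nd (nat_lit 9) 
(.nd (nat_lit 27) (.lf (nat_lit 3825402347) (dlOf (nat_lit 1) (nat_lit 0xa0008157301))) 
(.lf (nat_lit 1812136427) (dlOf (nat_lit 7) (nat_lit 0x24c03000ec00b007b004804a001002bc00401500000002e86009300c003b802c01b4012012800400af00100558000000b8180284000000520200ee00b0098002004f00080304000000510800a400400026010013005800108080400008002c00200160008157303)))) 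
(.lf (nat_lit 38994923) (dlOf (nat_lit 1) (nat_lit 0x140019192881)))))) (.nd (nat_lit 8) 
(.nd (nat_lit 9) (.nd (nat_lit 22) (.nd (nat_lit 19) 
(.lf (nat_lit 62062667) (dlOf (nat_lit 1) (nat_lit 0x20009940601))) 
(.lf (nat_lit 2754281547) (dlOf (nat_lit 1) (nat_lit 0x2c0004011c00080d0d02)))) (.nd (nat_lit 11) 
(.lf (nat_lit 58392651) (dlOf (nat_lit 1) (nat_lit 0x8004000200097e0002))) 
(.lf (nat_lit 8063051) (dlOf (nat_lit 1) (nat_lit 0x8008021000200700008514703))))) (.nd (nat_lit 5) 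
(.nd (nat_lit 7) (.lf (nat_lit 32180811) (dlOf (nat_lit 1) (nat_lit 0x400200020008ef5282))) 
(.lf (nat_lit 20124363) (dlOf (nat_lit 1) (nat_lit 0x4002000200089d8c82)))) 
(.lf (nat_lit 8061675) (dlOf (nat_lit 1) (nat_lit 0x8008017000200500008512103))))) (.nd (nat_lit 5) 
(.nd (nat_lit 7) (.lf (nat_lit 3342667) (dlOf (nat_lit 1) (nat_lit 0xa0028200601))) 
(.nd (nat_lit 11) 
(.lf (nat_lit 2753757643) (dlOf (nat_lit 3) (nat_lit 0x261d30001f01000f0e980000008003800800f8002000e0008090983))) 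
(.lf (nat_lit 36374987) (dlOf (nat_lit 1) (nat_lit 0x400400020009074e82))))) (.nd (nat_lit 10) 
(.lf (nat_lit 2294123) (dlOf (nat_lit 3) (nat_lit 0x960ec0006604002b0760001f0200360028150701))) 
(.lf (nat_lit 50005355) (dlOf (nat_lit 1) (nat_lit 0x200094c3481))))))) (.nd (nat_lit 29) 
(.nd (nat_lit 9) (.nd (nat_lit 19) (.nd (nat_lit 5) (.nd (nat_lit 23) 
(.lf (nat_lit 4496498763) (dlOf (nat_lit 6) (nat_lit 0xbc01a0002301007d00d00010c0801a00680008404016c038005401b00be00d0007806003280160003f0a01a201a01160050000d0100268008004000200320008090503))) 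
(.lf (nat_lit 58925131) (dlOf (nat_lit 1) (nat_lit 0x4004000200097e0002)))) (.nd (nat_lit 7) 
(.lf (nat_lit 13836651) (dlOf (nat_lit 1) (nat_lit 0x40008750a01))) 
(.lf (nat_lit 8598763) (dlOf (nat_lit 1) (nat_lit 0x8008000400200020008519503))))) (.nd (nat_lit 7) 
(.nd (nat_lit 24) (.lf (nat_lit 2826315) (dlOf (nat_lit 1) (nat_lit 0x400181c0d01))) 
(.lf (nat_lit 53157963) (dlOf (nat_lit 1) (nat_lit 0x8008000400200020009570003)))) 
(.lf (nat_lit 8070603) (dlOf (nat_lit 1) (nat_lit 0x20018513601))))) (.nd (nat_lit 7) 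
(.nd (nat_lit 5) (.nd (nat_lit 11) 
(.lf (nat_lit 9642571) (dlOf (nat_lit 2) (nat_lit 0x2a28c802d13600003c08001000400100018578d02))) 
(.lf (nat_lit 32189003) (dlOf (nat_lit 1) (nat_lit 0x18400200c60008ef5282)))) 
(.lf (nat_lit 8070763) (dlOf (nat_lit 2) (nat_lit 0x99400005a04000400200040008513902)))) 
(.nd (nat_lit 5) (.nd (nat_lit 8) 
(.lf (nat_lit 20132555) (dlOf (nat_lit 1) (nat_lit 0x4002000200089d8c82))) 
(.lf (nat_lit 8598475) (dlOf (nat_lit 1) (nat_lit 0x8008000800200020008519203)))) 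
(.lf (nat_lit 57877483) (dlOf (nat_lit 1) (nat_lit 0xc00400140009792882)))))) (.nd (nat_lit 8) 
(.nd (nat_lit 7) (.nd (nat_lit 10) (.nd (nat_lit 21) 
(.lf (nat_lit 537600075) (dlOf (nat_lit 2) (nat_lit 0x2d80b00003a02000200280d0d01))) 
(.lf (nat_lit 2754289739) (dlOf (nat_lit 2) (nat_lit 0x2500000004f02003c00180d0d01)))) 
(.lf (nat_lit 2818784331) (dlOf (nat_lit 1) (nat_lit 0x82001812bf01)))) (.nd (nat_lit 5) 
(.lf (nat_lit 3758305995) (dlOf (nat_lit 1) (nat_lit 0xc00400020018128c82))) 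
(.lf (nat_lit 2751670507) (dlOf (nat_lit 1) (nat_lit 0xc00400040008004b02))))) (.nd (nat_lit 7) 
(.nd (nat_lit 9) (.nd (nat_lit 12) 
(.lf (nat_lit 2755862859) (dlOf (nat_lit 2) (nat_lit 0x282120002b02000800081b0601))) 
(.lf (nat_lit 2818781515) (dlOf (nat_lit 2) (nat_lit 0xb01c0001980800980080020002000a0008128283)))) 
(.lf (nat_lit 2818781003) (dlOf (nat_lit 1) (nat_lit 0xc00400020008127782)))) (.nd (nat_lit 5) 
(.lf (nat_lit 2753765835) (dlOf (nat_lit 1) (nat_lit 0x60008090981))) 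
(.lf (nat_lit 3825410539) (dlOf (nat_lit 5) (nat_lit 0x20400b00a8004805880000005c0c03c801601a200900d00000000b41801f802c0004e0401100160002602016c0028157301)))))))) 
(.nd (nat_lit 26) (.nd (nat_lit 13) (.nd (nat_lit 27) (.nd (nat_lit 5) (.nd (nat_lit 8) 
(.nd (nat_lit 19) 
(.lf (nat_lit 1881342027) (dlOf (nat_lit 2) (nat_lit 0x2032800100080010008000400200020008ea0603))) 
(.lf (nat_lit 3492479051) (dlOf (nat_lit 1) (nat_lit 0x2c0004011c00080d0d02)))) 
(.lf (nat_lit 1342374219) (dlOf (nat_lit 1) (nat_lit 0x48008002800200120008014c83)))) 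
(.nd (nat_lit 7) (.lf (nat_lit 3491430507) (dlOf (nat_lit 1) (nat_lit 0x820018090001))) 
(.lf (nat_lit 1342374379) (dlOf (nat_lit 1) (nat_lit 0xa000400020018017302))))) (.nd (nat_lit 32) 
(.nd (nat_lit 5) 
(.lf (nat_lit 939721291) (dlOf (nat_lit 6) (nat_lit 0xcd00f8003d4080538000000be0403740000005d0201a00000002e01006000000016c0800800080018002002e0008158d03))) 
(.nd (nat_lit 8) (.lf (nat_lit 2013463787) (dlOf (nat_lit 1) (nat_lit 0x200008092e81))) 
(.lf (nat_lit 2013463531) (dlOf (nat_lit 3) (nat_lit 0x5001300685408076009802fc404001800400020018092882))))) 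
(.nd (nat_lit 8) (.nd (nat_lit 29) 
(.lf (nat_lit 4697817163) (dlOf (nat_lit 1) (nat_lit 0x40028090001))) 
(.lf (nat_lit 6308429899) (dlOf (nat_lit 3) (nat_lit 0x8001b000600d002d0064012c0160007208007e01b004b00c8025002c000de0c008400200080008080502)))) 
(.lf (nat_lit 5773132107) (dlOf (nat_lit 1) (nat_lit 0x8004000400080a6682)))))) (.nd (nat_lit 11) 
(.nd (nat_lit 27) (.nd (nat_lit 19) (.nd (nat_lit 20) 
(.lf (nat_lit 1342382155) (dlOf (nat_lit 1) (nat_lit 0x38008000400200020008020903))) 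
(.lf (nat_lit 1880301643) (dlOf (nat_lit 1) (nat_lit 0x20018820601)))) 
(.lf (nat_lit 3492487243) (dlOf (nat_lit 2) (nat_lit 0x2500000005602003c00180d0d01)))) 
(.nd (nat_lit 29) 
(.lf (nat_lit 4697825355) (dlOf (nat_lit 1) (nat_lit 0x20008005c00200460008090003))) 
(.lf (nat_lit 4160954443) (dlOf (nat_lit 1) (nat_lit 0x400180a0001))))) (.nd (nat_lit 10) 
(.nd (nat_lit 27) 
(.lf (nat_lit 268642763) (dlOf (nat_lit 1) (nat_lit 0x400080010002001000080e4e83))) 
(.lf (nat_lit 3624085963) (dlOf (nat_lit 1) (nat_lit 0x18c0028144e81)))) (.nd (nat_lit 5) 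
(.nd (nat_lit 7) (.lf (nat_lit 3489873227) (dlOf (nat_lit 1) (nat_lit 0x80040002000800c902))) 
(.lf (nat_lit 3489873099) (dlOf (nat_lit 1) (nat_lit 0x2000800c201)))) 
(.lf (nat_lit 3624087019) (dlOf (nat_lit 1) (nat_lit 0x400400020008146e82))))))) (.nd (nat_lit 8) 
(.nd (nat_lit 30) (.nd (nat_lit 5) (.nd (nat_lit 29) (.nd (nat_lit 31) 
(.lf (nat_lit 469966923) (dlOf (nat_lit 1) (nat_lit 0x38008000400200020008020903))) 
(.lf (nat_lit 2617450571) (dlOf (nat_lit 1) (nat_lit 0x200280a0001)))) (.nd (nat_lit 7) 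
(.lf (nat_lit 1008926795) (dlOf (nat_lit 1) (nat_lit 0x400400040008fe0602))) 
(.lf (nat_lit 3020108491) (dlOf (nat_lit 1) (nat_lit 0xc00400020018128c82))))) (.nd (nat_lit 19) 
(.nd (nat_lit 7) 
(.lf (nat_lit 1008926827) (dlOf (nat_lit 1) (nat_lit 0x8008000400200020008fe0a03))) 
(.lf (nat_lit 872613099) (dlOf (nat_lit 1) (nat_lit 0x400200020008092e82)))) (.nd (nat_lit 13) 
(.lf (nat_lit 472580203) (dlOf (nat_lit 1) (nat_lit 0x14002003200089c0a02))) 
(.lf (nat_lit 473636971) (dlOf (nat_lit 1) (nat_lit 0x100028f71e81)))))) (.nd (nat_lit 10) 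
(.nd (nat_lit 19) (.nd (nat_lit 9) 
(.lf (nat_lit 5704450123) (dlOf (nat_lit 3) (nat_lit 0x8001b000600d002d0064012c0160007208007e01b004b00c8025002c000de0c008400200080008080502))) 
(.lf (nat_lit 4228055627) (dlOf (nat_lit 1) (nat_lit 0xc00080018002001a0008018b03)))) 
(.nd (nat_lit 13) 
(.lf (nat_lit 1410007115) (dlOf (nat_lit 7) (nat_lit 0xe4817405c00b4034205705cf02900758128088c08002c003601c7019800500b800900500244022006700f80258070035802400fc0080001a0f00680198000cc080a0817403dc0b40274057056002900c70100036406c02e20330012017001380a00388044016a01f003400e0045804800a8010000321c02a805d007402d0095015c08bc0a4006c0400056019803a008800b003e00031100010057000180100010198000bc0802380080514002006000080c1483))) 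
(.lf (nat_lit 1410015307) (dlOf (nat_lit 2) (nat_lit 0x2d80b00004102000200280d0d01))))) 
(.nd (nat_lit 5) (.nd (nat_lit 13) 
(.lf (nat_lit 1543703627) (dlOf (nat_lit 2) (nat_lit 0x802e0007c818146080))) 
(.lf (nat_lit 1543711819) (dlOf (nat_lit 1) (nat_lit 0xc0018146081)))) (.nd (nat_lit 9) 
(.lf (nat_lit 1543703787) (dlOf (nat_lit 20) (nat_lit 0x7e02e003201400009c1006780b802040500002604004c02e0001281002b0000000900801180b8000440400f403e0001e02001602e0000e81003700f8000680801e807c0002e0400d803e0001602008401f0000a81003600f8000500801b007c0002604011003e0001202006e02e0000881003800f80003c0801c807c0001c0400d803e0000902000202e000c00f8000001009a8008004400200040008146503))) 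
(.lf (nat_lit 3556980459) (dlOf (nat_lit 1) (nat_lit 0x1c0040026000812a002))))))) (.nd (nat_lit 31) 
(.nd (nat_lit 11) (.nd (nat_lit 7) (.nd (nat_lit 13) 
(.lf (nat_lit 469958987) (dlOf (nat_lit 1) (nat_lit 0x48008002800200120008014c83))) 
(.lf (nat_lit 473637195) (dlOf (nat_lit 1) (nat_lit 0x140008f78801)))) 
(.lf (nat_lit 4764926411) (dlOf (nat_lit 1) (nat_lit 0x40028091101)))) (.nd (nat_lit 7) 
(.nd (nat_lit 13) 
(.lf (nat_lit 1543703883) (dlOf (nat_lit 1) (nat_lit 0x34000800e400200020008146a03))) 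
(.lf (nat_lit 1409494347) (dlOf (nat_lit 1) (nat_lit 0x20028006a01)))) 
(.lf (nat_lit 6241323979) (dlOf (nat_lit 1) (nat_lit 0x380080020002001400080d5d83))))) 
(.nd (nat_lit 5) (.nd (nat_lit 9) 
(.lf (nat_lit 4228055371) (dlOf (nat_lit 1) (nat_lit 0x24002000c0008014c82))) 
(.lf (nat_lit 3556970315) (dlOf (nat_lit 1) (nat_lit 0x20018127781)))) (.nd (nat_lit 7) 
(.nd (nat_lit 9) (.lf (nat_lit 4228055403) (dlOf (nat_lit 1) (nat_lit 0xc00200040008015502))) 
(.lf (nat_lit 3556980587) (dlOf (nat_lit 1) (nat_lit 0x2002812a301)))) 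
(.lf (nat_lit 4228055531) (dlOf (nat_lit 5) (nat_lit 0x1f027802f813409f40540006706003e04f0060026812c00a8000cc0c009009e04f802a0002082001b027813680a80007e08031400400180008017302))))))))))) 
(.nd (nat_lit 13) (.nd (nat_lit 16) (.nd (nat_lit 6) (.nd (nat_lit 5) (.nd (nat_lit 24) 
(.nd (nat_lit 31) (.nd (nat_lit 7) (.nd (nat_lit 26) (.nd (nat_lit 20) (.nd (nat_lit 29) 
(.nd (nat_lit 10) (.nd (nat_lit 11) 
(.lf (nat_lit 917515) (dlOf (nat_lit 1) (nat_lit 0x70008003c00200120008030483))) 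
(.lf (nat_lit 8783883) (dlOf (nat_lit 1) (nat_lit 0x3800400c60008514702)))) 
(.lf (nat_lit 38142987) (dlOf (nat_lit 1) (nat_lit 0x120009132881)))) (.nd (nat_lit 30) 
(.lf (nat_lit 537264139) (dlOf (nat_lit 1) (nat_lit 0x3800400140008070502))) 
(.lf (nat_lit 5905973259) (dlOf (nat_lit 3) (nat_lit 0x20250008c81000501280046008023000800b4002009e0008170483))))) 
(.nd (nat_lit 8) 
(.lf (nat_lit 1343619083) (dlOf (nat_lit 7) (nat_lit 0xa161000504e802e90100010584000413a00b8f04000a161000504e80020238016900c001c2c2000e09d0008047002d10180030584001413a00b3e040008161000404e80018238016360c0008002000400082c0282))) 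
(.lf (nat_lit 41287947) (dlOf (nat_lit 1) (nat_lit 0x140029237401))))) (.nd (nat_lit 19) 
(.nd (nat_lit 28) (.lf (nat_lit 4362469387) (dlOf (nat_lit 1) (nat_lit 0x80018090001))) 
(.lf (nat_lit 1409679371) (dlOf (nat_lit 1) (nat_lit 0x3800400140008070502)))) 
(.lf (nat_lit 68026379) (dlOf (nat_lit 1) (nat_lit 0x200183a0081))))) (.nd (nat_lit 8) 
(.nd (nat_lit 26) 
(.lf (nat_lit 1476788363) (dlOf (nat_lit 4) (nat_lit 0x4000e001ab020026007000c581000200380062408010800800bc002004800081a0483))) 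
(.lf (nat_lit 604373131) (dlOf (nat_lit 1) (nat_lit 0x38008003c002002400081a0483)))) 
(.nd (nat_lit 19) (.lf (nat_lit 403048843) (dlOf (nat_lit 1) (nat_lit 0x8004000600080e4e82))) 
(.lf (nat_lit 35522955) (dlOf (nat_lit 1) (nat_lit 0x400200020009014e82)))))) (.nd (nat_lit 26) 
(.nd (nat_lit 20) (.nd (nat_lit 22) (.nd (nat_lit 29) 
(.lf (nat_lit 3355836427) (dlOf (nat_lit 6) (nat_lit 0x6005e0015402001402f000a801000a0178005000801300b4002700403d4064000000200280008120081))) 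
(.lf (nat_lit 3892707339) (dlOf (nat_lit 2) (nat_lit 0x2050005e78181d0480)))) 
(.lf (nat_lit 3494248459) (dlOf (nat_lit 2) (nat_lit 0xc800000000040004002002200081e0082)))) 
(.nd (nat_lit 11) 
(.lf (nat_lit 3491102731) (dlOf (nat_lit 1) (nat_lit 0x40008000c00200140008060483))) 
(.lf (nat_lit 3493201931) (dlOf (nat_lit 5) (nat_lit 0xcc00e8001540806e8074000a804035803a000510201c802000f100f8001381001f000800a8002000800080f4703))))) 
(.nd (nat_lit 9) (.nd (nat_lit 20) (.nd (nat_lit 22) (.nd (nat_lit 27) 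
(.lf (nat_lit 6509953035) (dlOf (nat_lit 3) (nat_lit 0x20260008a81000501300045008023000800b4002009e0008170483))) 
(.lf (nat_lit 3154509835) (dlOf (nat_lit 2) (nat_lit 0x7a0118020005400c78080068004002800081f0482)))) 
(.lf (nat_lit 2756050955) (dlOf (nat_lit 2) (nat_lit 0xc800000000040004002002200081e0082)))) 
(.lf (nat_lit 2752905227) (dlOf (nat_lit 1) (nat_lit 0x40008000c00200140008060483)))) 
(.nd (nat_lit 7) 
(.lf (nat_lit 2754481675) (dlOf (nat_lit 2) (nat_lit 0x80800001402000200280f7001))) 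
(.lf (nat_lit 4095085195) (dlOf (nat_lit 1) (nat_lit 0x400400060008055482))))))) (.nd (nat_lit 21) 
(.nd (nat_lit 20) (.nd (nat_lit 7) (.nd (nat_lit 19) 
(.lf (nat_lit 25559051) (dlOf (nat_lit 1) (nat_lit 0x400400020008c10002))) 
(.lf (nat_lit 17694731) (dlOf (nat_lit 1) (nat_lit 0x400288f0501)))) 
(.lf (nat_lit 21364875) (dlOf (nat_lit 3) (nat_lit 0xbecc0006c04005b1c800132f1002a94d800f4538007a27a003d13b001e89c8023c36800361b0003cfad001f7d58009be700079eb80018f5a001e78c0000d4780028008006400200260008a30f03)))) 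
(.nd (nat_lit 19) (.nd (nat_lit 22) 
(.lf (nat_lit 26607627) (dlOf (nat_lit 1) (nat_lit 0x10008000400200020008c50003))) 
(.lf (nat_lit 55967755) (dlOf (nat_lit 1) (nat_lit 0x10008000800200020009700103)))) 
(.lf (nat_lit 27131915) (dlOf (nat_lit 2) (nat_lit 0x37a75000c7804000400400100008ca0482))))) 
(.nd (nat_lit 8) (.nd (nat_lit 7) 
(.lf (nat_lit 27656203) (dlOf (nat_lit 1) (nat_lit 0x8008000400200020008d10283))) (.nd (nat_lit 9) 
(.lf (nat_lit 23986315) (dlOf (nat_lit 1) (nat_lit 0x130008001400200700008b80103))) 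
(.lf (nat_lit 19796619) (dlOf (nat_lit 1) (nat_lit 0x4c800801d4002009600089d8c03))))) 
(.nd (nat_lit 7) (.lf (nat_lit 19792139) (dlOf (nat_lit 1) (nat_lit 0x200089d0a81))) 
(.nd (nat_lit 9) (.lf (nat_lit 19798411) (dlOf (nat_lit 1) (nat_lit 0x80080004002000200089daf83))) 
(.lf (nat_lit 19794827) (dlOf (nat_lit 1) (nat_lit 0x80080004002000200089d5c83)))))))) 
(.nd (nat_lit 28) (.nd (nat_lit 21) (.nd (nat_lit 31) (.nd (nat_lit 20) (.nd (nat_lit 7) 
(.lf (nat_lit 17694763) (dlOf (nat_lit 1) (nat_lit 0x2180080004002001a00088f0e03))) 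
(.lf (nat_lit 400299) (dlOf (nat_lit 3) (nat_lit 0x33a2800534080029d140028604001c004002a001800bd82)))) 
(.nd (nat_lit 22) 
(.lf (nat_lit 26607659) (dlOf (nat_lit 3) (nat_lit 0x1a8a00005804001d4500002b0200020018c50381))) 
(.lf (nat_lit 55967787) (dlOf (nat_lit 1) (nat_lit 0x400400020009700902))))) (.nd (nat_lit 26) 
(.nd (nat_lit 29) 
(.lf (nat_lit 3355836459) (dlOf (nat_lit 3) (nat_lit 0x2c02f00bf18101720190000000804a80080080002005a0008120783))) 
(.lf (nat_lit 2818965547) (dlOf (nat_lit 2) (nat_lit 0x380d4005460200020018130001)))) 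
(.nd (nat_lit 20) 
(.lf (nat_lit 3288727595) (dlOf (nat_lit 3) (nat_lit 0x48068009401f0001a02005b01a800000080300008022c002003000080d0a83))) 
(.lf (nat_lit 2752905259) (dlOf (nat_lit 1) (nat_lit 0x160008060601)))))) (.nd (nat_lit 24) 
(.nd (nat_lit 23) (.nd (nat_lit 7) 
(.lf (nat_lit 2753953835) (dlOf (nat_lit 1) (nat_lit 0x3000280a0981))) 
(.lf (nat_lit 2754481323) (dlOf (nat_lit 1) (nat_lit 0x200280f6281)))) (.nd (nat_lit 20) 
(.lf (nat_lit 11403307) (dlOf (nat_lit 2) (nat_lit 0x96465000080186a0800))) 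
(.lf (nat_lit 16646187) (dlOf (nat_lit 2) (nat_lit 0x24bea0007e02003a00188c0781))))) 
(.nd (nat_lit 12) (.nd (nat_lit 8) 
(.lf (nat_lit 28704811) (dlOf (nat_lit 1) (nat_lit 0x800400020008da0002))) 
(.lf (nat_lit 20319019) (dlOf (nat_lit 1) (nat_lit 0x4002000200089d5c02)))) (.nd (nat_lit 7) 
(.lf (nat_lit 19796523) (dlOf (nat_lit 1) (nat_lit 0x80080008002000400089d8983))) 
(.lf (nat_lit 19797675) (dlOf (nat_lit 1) (nat_lit 0x4002000200089da002))))))) (.nd (nat_lit 26) 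
(.nd (nat_lit 20) (.nd (nat_lit 30) (.nd (nat_lit 27) 
(.lf (nat_lit 2416312363) (dlOf (nat_lit 3) (nat_lit 0x5e80100005e0400ac048038600400090000000b81801300080038002000400080d0a83))) 
(.lf (nat_lit 2550530091) (dlOf (nat_lit 3) (nat_lit 0x5e8010000580400ac04c038600400090000000ac1801300080038002000400080d0a83)))) 
(.nd (nat_lit 29) (.lf (nat_lit 5637537835) (dlOf (nat_lit 1) (nat_lit 0x60018100301))) 
(.lf (nat_lit 4026925099) (dlOf (nat_lit 3) (nat_lit 0x48068009401f0001582005b01a800000080300008022c002003000080d0a83))))) 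
(.nd (nat_lit 7) (.nd (nat_lit 31) 
(.lf (nat_lit 1343619115) (dlOf (nat_lit 2) (nat_lit 0x705940010e04000c002000600082c0782))) 
(.lf (nat_lit 3491102763) (dlOf (nat_lit 1) (nat_lit 0x160008060601)))) 
(.lf (nat_lit 1344149163) (dlOf (nat_lit 2) (nat_lit 0xc094004a802001a00083da001))))) 
(.nd (nat_lit 27) (.nd (nat_lit 29) 
(.lf (nat_lit 2483421227) (dlOf (nat_lit 1) (nat_lit 0x200281b0001))) (.nd (nat_lit 32) 
(.lf (nat_lit 1946550315) (dlOf (nat_lit 10) (nat_lit 0x402e01df014800090100ed80a400b80500002204024a0290001001012501480007c0805300a40003a0402280520001b0200220290000501003b01480001c0808c80a40000a040040004000200080c0c02))) 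
(.lf (nat_lit 6241517611) (dlOf (nat_lit 1) (nat_lit 0x60018100301))))) (.nd (nat_lit 20) 
(.lf (nat_lit 5838864427) (dlOf (nat_lit 2) (nat_lit 0x406800d5202000200181d0a01))) 
(.lf (nat_lit 471203883) (dlOf (nat_lit 3) (nat_lit 0x60928002200801204940010e040070004000c00082c0782)))))))) 
(.nd (nat_lit 21) (.nd (nat_lit 26) (.nd (nat_lit 28) (.nd (nat_lit 8) (.nd (nat_lit 19) 
(.nd (nat_lit 20) (.lf (nat_lit 1611006027) (dlOf (nat_lit 2) (nat_lit 0x2021000000180b0600))) 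
(.lf (nat_lit 43384907) (dlOf (nat_lit 1) (nat_lit 0x4004000200092a0002)))) (.nd (nat_lit 22) 
(.lf (nat_lit 917579) (dlOf (nat_lit 1) (nat_lit 0x800200060008030f82))) 
(.lf (nat_lit 13500491) (dlOf (nat_lit 5) (nat_lit 0xf00000002601005b00000012c0803480000008404019c000000400200b20018730d01))))) 
(.nd (nat_lit 27) 
(.lf (nat_lit 4295360843) (dlOf (nat_lit 1) (nat_lit 0x80080044002000200081a0603))) 
(.lf (nat_lit 4429578571) (dlOf (nat_lit 1) (nat_lit 0x80080044002000200081a0603))))) 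
(.nd (nat_lit 7) (.nd (nat_lit 27) (.nd (nat_lit 29) 
(.lf (nat_lit 2416312395) (dlOf (nat_lit 2) (nat_lit 0x70100001080800300080004002000a00080d0d03))) 
(.lf (nat_lit 4026925131) (dlOf (nat_lit 6) (nat_lit 0x190100000980400c8080001c03a004300f800e8000000961008c4040000420205fe020000200100090100000fc0800100080010002000800080d0d03)))) 
(.lf (nat_lit 2550530123) (dlOf (nat_lit 2) (nat_lit 0x70100001240800300080004002000a00080d0d03)))) 
(.nd (nat_lit 8) (.lf (nat_lit 5773328587) (dlOf (nat_lit 1) (nat_lit 0x4002000200080c1782))) 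
(.lf (nat_lit 1344148427) (dlOf (nat_lit 1) (nat_lit 0x200283d9201)))))) (.nd (nat_lit 28) 
(.nd (nat_lit 27) (.nd (nat_lit 30) 
(.lf (nat_lit 4362469451) (dlOf (nat_lit 1) (nat_lit 0x40018090001))) 
(.lf (nat_lit 3288727627) (dlOf (nat_lit 6) (nat_lit 0x190100000a60400c8080001c03a004300f800e8000000a41008c4040000490205fe020000238100090100001180800100080010002000800080d0d03)))) 
(.nd (nat_lit 5) (.nd (nat_lit 29) 
(.lf (nat_lit 4496687179) (dlOf (nat_lit 1) (nat_lit 0x400400020008120502))) 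
(.lf (nat_lit 738590795) (dlOf (nat_lit 2) (nat_lit 0x2021000000180b0600)))) 
(.lf (nat_lit 2349203947) (dlOf (nat_lit 1) (nat_lit 0x200281b0d01))))) (.nd (nat_lit 31) 
(.nd (nat_lit 7) (.nd (nat_lit 10) 
(.lf (nat_lit 1946550347) (dlOf (nat_lit 4) (nat_lit 0x5cc04e000340201e8027000190100f40138000c408004800800d0002000200080c1483))) 
(.lf (nat_lit 471733323) (dlOf (nat_lit 1) (nat_lit 0x80080004002000200083d9303)))) 
(.lf (nat_lit 2080768203) (dlOf (nat_lit 1) (nat_lit 0x4c004004200080c1782)))) (.nd (nat_lit 5) 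
(.lf (nat_lit 4228251723) (dlOf (nat_lit 1) (nat_lit 0x40018090001))) (.nd (nat_lit 7) 
(.lf (nat_lit 4228251755) (dlOf (nat_lit 1) (nat_lit 0xd8008000c00200180008090003))) 
(.lf (nat_lit 2483421675) (dlOf (nat_lit 1) (nat_lit 0x200281b0d01)))))))) (.nd (nat_lit 5) 
(.nd (nat_lit 7) (.nd (nat_lit 20) (.nd (nat_lit 8) (.nd (nat_lit 19) 
(.lf (nat_lit 1881538635) (dlOf (nat_lit 4) (nat_lit 0x440e3002403d80050c10014838c00c80f6000cd0400540e3003503d8003301002a0008001800200580008f40603))) 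
(.lf (nat_lit 49152075) (dlOf (nat_lit 1) (nat_lit 0x400200020009460002)))) (.nd (nat_lit 9) 
(.lf (nat_lit 19799371) (dlOf (nat_lit 1) (nat_lit 0x4004000200089dc902))) 
(.lf (nat_lit 19795787) (dlOf (nat_lit 1) (nat_lit 0x300080004002000600089d7783))))) 
(.nd (nat_lit 19) (.lf (nat_lit 37093451) (dlOf (nat_lit 1) (nat_lit 0x400201360009090602))) 
(.nd (nat_lit 28) 
(.lf (nat_lit 4063307) (dlOf (nat_lit 3) (nat_lit 0x2b0b000009c0804d058002681c60138071009c032800088200220008024400200260008270d03))) 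
(.lf (nat_lit 1346240587) (dlOf (nat_lit 1) (nat_lit 0x400200020008e80002)))))) (.nd (nat_lit 8) 
(.nd (nat_lit 10) (.nd (nat_lit 19) 
(.lf (nat_lit 20320971) (dlOf (nat_lit 1) (nat_lit 0x4002000200089d8c82))) 
(.lf (nat_lit 19796683) (dlOf (nat_lit 1) (nat_lit 0x80080004002000200089d8c83)))) 
(.lf (nat_lit 19795659) (dlOf (nat_lit 1) (nat_lit 0x4002000200089d7302)))) (.nd (nat_lit 26) 
(.lf (nat_lit 1345194443) (dlOf (nat_lit 2) (nat_lit 0xb0b2805a08080010008001000200060008b04e83))) 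
(.lf (nat_lit 472779211) (dlOf (nat_lit 1) (nat_lit 0x20018b04e81)))))) (.nd (nat_lit 11) 
(.nd (nat_lit 8) (.nd (nat_lit 20) 
(.lf (nat_lit 2753953899) (dlOf (nat_lit 1) (nat_lit 0x18008002c002002000080a1483))) 
(.lf (nat_lit 58065003) (dlOf (nat_lit 1) (nat_lit 0x4004000200097b1e82)))) (.nd (nat_lit 9) 
(.nd (nat_lit 12) (.lf (nat_lit 3539307) (dlOf (nat_lit 1) (nat_lit 0x40008200701))) 
(.lf (nat_lit 19796331) (dlOf (nat_lit 1) (nat_lit 0x10008001c002000800089d8383)))) 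
(.lf (nat_lit 19792747) (dlOf (nat_lit 1) (nat_lit 0x80080020002000600089d2583))))) 
(.nd (nat_lit 9) (.nd (nat_lit 19) 
(.lf (nat_lit 20319467) (dlOf (nat_lit 2) (nat_lit 0x1bafc0005a040038004006600089d6502))) 
(.lf (nat_lit 19795179) (dlOf (nat_lit 1) (nat_lit 0x8004000200089d6502)))) (.nd (nat_lit 7) 
(.lf (nat_lit 19794539) (dlOf (nat_lit 2) (nat_lit 0x116e0003058400094080008002000600089d5382))) 
(.lf (nat_lit 57019115) (dlOf (nat_lit 1) (nat_lit 0x40019795a01))))))))) (.nd (nat_lit 5) 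
(.nd (nat_lit 6) (.nd (nat_lit 30) (.nd (nat_lit 20) (.nd (nat_lit 7) (.nd (nat_lit 21) 
(.nd (nat_lit 22) (.lf (nat_lit 6510018571) (dlOf (nat_lit 1) (nat_lit 0x400400020008180482))) 
(.lf (nat_lit 21430283) (dlOf (nat_lit 1) (nat_lit 0x400400020008a40002)))) (.nd (nat_lit 19) 
(.lf (nat_lit 15138827) (dlOf (nat_lit 2) (nat_lit 0xccd0c80051c200179e08009400400a600187c0482))) 
(.lf (nat_lit 15663115) (dlOf (nat_lit 1) (nat_lit 0x20018810281))))) (.nd (nat_lit 11) 
(.nd (nat_lit 8) 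
(.lf (nat_lit 54984843) (dlOf (nat_lit 3) (nat_lit 0xdc4c60029262001d12f0008494e0052495000190500232630000c008068000801a000200020009680f03))) 
(.lf (nat_lit 54985099) (dlOf (nat_lit 1) (nat_lit 0x720008035000202420009685d83)))) 
(.nd (nat_lit 9) (.lf (nat_lit 19863947) (dlOf (nat_lit 1) (nat_lit 0x80080004002000200089daf83))) 
(.lf (nat_lit 19860363) (dlOf (nat_lit 1) (nat_lit 0x4004000200089d5c82)))))) (.nd (nat_lit 21) 
(.nd (nat_lit 23) (.nd (nat_lit 7) 
(.lf (nat_lit 22478859) (dlOf (nat_lit 2) (nat_lit 0xa620002f004005000400600018ae0482))) 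
(.lf (nat_lit 2031755) (dlOf (nat_lit 2) (nat_lit 0x8a980001d818150100)))) (.nd (nat_lit 24) 
(.lf (nat_lit 9895947) (dlOf (nat_lit 1) (nat_lit 0x8008000400200020008590083))) 
(.lf (nat_lit 26673163) (dlOf (nat_lit 1) (nat_lit 0x400200020008c50002))))) (.nd (nat_lit 7) 
(.nd (nat_lit 19) (.lf (nat_lit 24576011) (dlOf (nat_lit 1) (nat_lit 0x20028ba0001))) 
(.lf (nat_lit 25100299) (dlOf (nat_lit 1) (nat_lit 0x12a0008be0801)))) 
(.lf (nat_lit 3604619) (dlOf (nat_lit 2) (nat_lit 0xb3263805992a002cc92c0003b0600120028200101)))))) 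
(.nd (nat_lit 32) (.nd (nat_lit 31) (.nd (nat_lit 22) (.nd (nat_lit 26) 
(.lf (nat_lit 1074200587) (dlOf (nat_lit 1) (nat_lit 0x40008001c002001600080d0483))) 
(.lf (nat_lit 1946615819) (dlOf (nat_lit 1) (nat_lit 0x40008001c002001600080d0483)))) 
(.lf (nat_lit 1346830347) (dlOf (nat_lit 1) (nat_lit 0x800400640009030102)))) (.nd (nat_lit 7) 
(.nd (nat_lit 10) (.lf (nat_lit 3491692555) (dlOf (nat_lit 1) (nat_lit 0x80028090001))) 
(.lf (nat_lit 3492742155) (dlOf (nat_lit 1) (nat_lit 0x4002000200080f2882)))) 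
(.lf (nat_lit 3288795275) (dlOf (nat_lit 1) (nat_lit 0x138008000c002000400080f4803))))) 
(.nd (nat_lit 29) (.nd (nat_lit 7) 
(.lf (nat_lit 5637603339) (dlOf (nat_lit 1) (nat_lit 0x20028120a01))) 
(.lf (nat_lit 5772345739) (dlOf (nat_lit 2) (nat_lit 0x204f800142600016004000e0018091001)))) 
(.nd (nat_lit 26) (.lf (nat_lit 5906038795) (dlOf (nat_lit 1) (nat_lit 0x400400020008180482))) 
(.lf (nat_lit 6241583115) (dlOf (nat_lit 1) (nat_lit 0x20028120a01))))))) (.nd (nat_lit 20) 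
(.nd (nat_lit 19) (.nd (nat_lit 26) (.nd (nat_lit 10) (.nd (nat_lit 22) 
(.lf (nat_lit 3624337483) (dlOf (nat_lit 1) (nat_lit 0x10000800d400200b00008160903))) 
(.lf (nat_lit 21430347) (dlOf (nat_lit 1) (nat_lit 0x400400020008a40502)))) (.nd (nat_lit 8) 
(.lf (nat_lit 38208587) (dlOf (nat_lit 1) (nat_lit 0x400200020009132882))) 
(.lf (nat_lit 50791755) (dlOf (nat_lit 1) (nat_lit 0x200094c3301))))) (.nd (nat_lit 27) 
(.lf (nat_lit 604438603) (dlOf (nat_lit 1) (nat_lit 0x20028280001))) (.nd (nat_lit 28) 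
(.lf (nat_lit 2886139979) (dlOf (nat_lit 1) (nat_lit 0x10000800d400200b00008160903))) 
(.lf (nat_lit 1007091787) (dlOf (nat_lit 2) (nat_lit 0xb00000000008006800800a000200a80008170683)))))) 
(.nd (nat_lit 24) (.nd (nat_lit 11) (.nd (nat_lit 22) 
(.lf (nat_lit 470745163) (dlOf (nat_lit 2) (nat_lit 0x202500013018170680))) 
(.lf (nat_lit 13566027) (dlOf (nat_lit 3) (nat_lit 0x201358001080801b800000080040034004003e0008730d02)))) 
(.lf (nat_lit 3492743243) (dlOf (nat_lit 1) (nat_lit 0x80080004002000200080f4703)))) 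
(.nd (nat_lit 7) (.nd (nat_lit 9) 
(.lf (nat_lit 21954635) (dlOf (nat_lit 1) (nat_lit 0x568008000800200800008a80f83))) 
(.lf (nat_lit 19863115) (dlOf (nat_lit 1) (nat_lit 0x4004000200089d9c02)))) 
(.lf (nat_lit 26149067) (dlOf (nat_lit 1) (nat_lit 0x400200020008c10482)))))) (.nd (nat_lit 8) 
(.nd (nat_lit 21) (.nd (nat_lit 19) 
(.lf (nat_lit 43450443) (dlOf (nat_lit 1) (nat_lit 0x4400292a0001))) (.nd (nat_lit 22) 
(.lf (nat_lit 43974731) (dlOf (nat_lit 2) (nat_lit 0x45798033b40800080080008002000400092a0003))) 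
(.lf (nat_lit 14614603) (dlOf (nat_lit 1) (nat_lit 0xc00200020008770682))))) (.nd (nat_lit 19) 
(.lf (nat_lit 37158987) (dlOf (nat_lit 1) (nat_lit 0x4002005a00090b0602))) (.nd (nat_lit 23) 
(.lf (nat_lit 473890891) (dlOf (nat_lit 2) (nat_lit 0xa014c00066818fc0600))) 
(.lf (nat_lit 62849099) (dlOf (nat_lit 1) (nat_lit 0x100080024002000600099a0003)))))) 
(.nd (nat_lit 21) (.nd (nat_lit 7) (.nd (nat_lit 26) 
(.lf (nat_lit 1344209227) (dlOf (nat_lit 2) (nat_lit 0x500ca0004f0200040018490601))) 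
(.lf (nat_lit 471793995) (dlOf (nat_lit 2) (nat_lit 0x500d8000480200040018490601)))) 
(.lf (nat_lit 3491693003) (dlOf (nat_lit 2) (nat_lit 0x420f002b1058000001000180080080002000c0008090983)))) 
(.nd (nat_lit 7) (.nd (nat_lit 9) 
(.lf (nat_lit 1345783115) (dlOf (nat_lit 1) (nat_lit 0x140028dd3301))) 
(.lf (nat_lit 20384587) (dlOf (nat_lit 1) (nat_lit 0x200089d5c01)))) 
(.lf (nat_lit 3493790155) (dlOf (nat_lit 2) (nat_lit 0x8800000000040004002000e00081b0982)))))))) 
(.nd (nat_lit 21) (.nd (nat_lit 26) (.nd (nat_lit 30) (.nd (nat_lit 8) (.nd (nat_lit 19) 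
(.nd (nat_lit 20) 
(.lf (nat_lit 2819031083) (dlOf (nat_lit 4) (nat_lit 0xa81a8000640400600d400060690001882006b0350000440801280080070002000a0008150383))) 
(.lf (nat_lit 26673195) (dlOf (nat_lit 3) (nat_lit 0x3cb1800225140000b010014ac6000214500002b0400040028c50381)))) 
(.lf (nat_lit 13565995) (dlOf (nat_lit 2) (nat_lit 0xc82d10035135800209240005c0c000400200020008730a82)))) 
(.nd (nat_lit 6) (.nd (nat_lit 20) 
(.lf (nat_lit 46596395) (dlOf (nat_lit 1) (nat_lit 0x40029380b01))) 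
(.lf (nat_lit 60227883) (dlOf (nat_lit 1) (nat_lit 0x20029840b01)))) 
(.lf (nat_lit 134676971) (dlOf (nat_lit 3) (nat_lit 0x1a04100002810005020800010080270008008400200660008090d03))))) 
(.nd (nat_lit 29) (.nd (nat_lit 19) (.nd (nat_lit 32) 
(.lf (nat_lit 1342636075) (dlOf (nat_lit 3) (nat_lit 0x4c249000511f800288c800083a40002a08006c249002711f809a88c402ac456000222800050f7007885e4000301c0060004000200180a0902))) 
(.lf (nat_lit 5637603371) (dlOf (nat_lit 2) (nat_lit 0xb007400b4000000290400600018120d01)))) 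
(.lf (nat_lit 1343160363) (dlOf (nat_lit 1) (nat_lit 0x280018180881)))) (.nd (nat_lit 7) 
(.lf (nat_lit 3892772907) (dlOf (nat_lit 1) (nat_lit 0x60008250901))) 
(.lf (nat_lit 4026997675) (dlOf (nat_lit 1) (nat_lit 0x4002000200080fbd82)))))) (.nd (nat_lit 28) 
(.nd (nat_lit 6) (.nd (nat_lit 7) (.nd (nat_lit 29) 
(.lf (nat_lit 4362534955) (dlOf (nat_lit 1) (nat_lit 0x4e00080004002005a0008090003))) 
(.lf (nat_lit 1678180395) (dlOf (nat_lit 1) (nat_lit 0x80080008002000200081a0003)))) 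
(.lf (nat_lit 2751924139) (dlOf (nat_lit 1) (nat_lit 0x60008000c00200640008004303)))) 
(.nd (nat_lit 9) 
(.lf (nat_lit 201785835) (dlOf (nat_lit 3) (nat_lit 0x1a04100002810005020800010080270008008400200660008090d03))) 
(.lf (nat_lit 2751923179) (dlOf (nat_lit 1) (nat_lit 0x400200020008002882))))) (.nd (nat_lit 27) 
(.nd (nat_lit 29) 
(.lf (nat_lit 3557228587) (dlOf (nat_lit 5) (nat_lit 0x40380001901001101f8000b80801f00e000024040010070000110200820028170381))) 
(.lf (nat_lit 6241583147) (dlOf (nat_lit 2) (nat_lit 0xb007400b4000000290400600018120d01)))) 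
(.nd (nat_lit 8) (.nd (nat_lit 19) 
(.lf (nat_lit 470220843) (dlOf (nat_lit 6) (nat_lit 0x3c4980060249000f124000808fc003047a00542320001118800387bc00c03a40002a1200322490000e81000f124800e08fc016c462003a22b00110c10000602800689240002e0400400000001002000200280a0801))) 
(.lf (nat_lit 470745131) (dlOf (nat_lit 4) (nat_lit 0x1a1e700130000000bc10002060001480000002e0400021e7000f00000000c10069000800e800200040008170383)))) 
(.lf (nat_lit 471269675) (dlOf (nat_lit 1) (nat_lit 0x80080004002000200082e0703))))))) 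
(.nd (nat_lit 8) (.nd (nat_lit 6) (.nd (nat_lit 19) (.nd (nat_lit 20) (.nd (nat_lit 26) 
(.lf (nat_lit 3492216875) (dlOf (nat_lit 1) (nat_lit 0x4004000200180b0e02))) 
(.lf (nat_lit 2754019371) (dlOf (nat_lit 1) (nat_lit 0xc004000200080b0d82)))) 
(.lf (nat_lit 11993131) (dlOf (nat_lit 1) (nat_lit 0xdc004002400086c0002)))) (.nd (nat_lit 7) 
(.nd (nat_lit 20) 
(.lf (nat_lit 11468843) (dlOf (nat_lit 3) (nat_lit 0x1b4521000080100e82908000200800e000800dc002004c00086a0803))) 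
(.lf (nat_lit 25100331) (dlOf (nat_lit 1) (nat_lit 0xc00400020018be0c02)))) 
(.lf (nat_lit 8328363) (dlOf (nat_lit 1) (nat_lit 0xa800200080008519502))))) (.nd (nat_lit 7) 
(.lf (nat_lit 3492743275) (dlOf (nat_lit 1) (nat_lit 0x200080f4701))) (.nd (nat_lit 12) 
(.lf (nat_lit 57608939) (dlOf (nat_lit 1) (nat_lit 0x20029795a01))) 
(.lf (nat_lit 19864299) (dlOf (nat_lit 1) (nat_lit 0x200189db981)))))) (.nd (nat_lit 7) 
(.nd (nat_lit 19) (.nd (nat_lit 26) 
(.lf (nat_lit 3493265771) (dlOf (nat_lit 1) (nat_lit 0x800008000400200c60008105503))) 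
(.lf (nat_lit 2755068267) (dlOf (nat_lit 1) (nat_lit 0x800008000400200c60008105503)))) 
(.nd (nat_lit 12) 
(.lf (nat_lit 24052075) (dlOf (nat_lit 2) (nat_lit 0x34338001a0a00003404005a0028b80701))) 
(.lf (nat_lit 19861867) (dlOf (nat_lit 1) (nat_lit 0x1600289d8381))))) (.nd (nat_lit 9) 
(.nd (nat_lit 6) 
(.lf (nat_lit 19860907) (dlOf (nat_lit 2) (nat_lit 0x43614001c6040004004000200189d6d02))) 
(.lf (nat_lit 23527915) (dlOf (nat_lit 1) (nat_lit 0x20028b80d01)))) (.nd (nat_lit 10) 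
(.lf (nat_lit 50267115) (dlOf (nat_lit 1) (nat_lit 0x200194c2881))) 
(.lf (nat_lit 3492743147) (dlOf (nat_lit 1) (nat_lit 0x200180f4601)))))))))) (.nd (nat_lit 5) 
(.nd (nat_lit 6) (.nd (nat_lit 7) (.nd (nat_lit 30) (.nd (nat_lit 22) (.nd (nat_lit 26) 
(.nd (nat_lit 16) (.nd (nat_lit 11) 
(.lf (nat_lit 6442852363) (dlOf (nat_lit 2) (nat_lit 0x15800000000040020002001800081e0082))) 
(.lf (nat_lit 8792075) (dlOf (nat_lit 1) (nat_lit 0x2800400020008514702)))) (.nd (nat_lit 20) 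
(.lf (nat_lit 2564107) (dlOf (nat_lit 2) (nat_lit 0xd5f400cea0200140018170001))) (.nd (nat_lit 23) 
(.lf (nat_lit 18292747) (dlOf (nat_lit 1) (nat_lit 0x38008001000200020008920003))) 
(.lf (nat_lit 9904139) (dlOf (nat_lit 1) (nat_lit 0x48008000400200080008590083)))))) 
(.nd (nat_lit 27) (.nd (nat_lit 31) 
(.lf (nat_lit 4362477579) (dlOf (nat_lit 2) (nat_lit 0xa033003c8818090000))) 
(.lf (nat_lit 6509961227) (dlOf (nat_lit 2) (nat_lit 0x1805c0022804005800400120008170482)))) 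
(.nd (nat_lit 29) (.lf (nat_lit 2617647115) (dlOf (nat_lit 1) (nat_lit 0x20008130081))) 
(.lf (nat_lit 3154518027) (dlOf (nat_lit 2) (nat_lit 0x20500031e0181f0480)))))) (.nd (nat_lit 23) 
(.nd (nat_lit 8) (.nd (nat_lit 20) 
(.lf (nat_lit 2756059147) (dlOf (nat_lit 2) (nat_lit 0x4c0000000002001400081e0081))) 
(.lf (nat_lit 24518667) (dlOf (nat_lit 1) (nat_lit 0x400400020008ba0002)))) 
(.lf (nat_lit 8267531) (dlOf (nat_lit 1) (nat_lit 0x40018513b81)))) (.nd (nat_lit 16) 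
(.nd (nat_lit 19) (.nd (nat_lit 21) 
(.lf (nat_lit 29761547) (dlOf (nat_lit 1) (nat_lit 0xa0018e30001))) 
(.lf (nat_lit 48635915) (dlOf (nat_lit 1) (nat_lit 0xc0019420001)))) 
(.lf (nat_lit 15605771) (dlOf (nat_lit 1) (nat_lit 0x400200020008810282)))) 
(.lf (nat_lit 15147019) (dlOf (nat_lit 2) (nat_lit 0xd9a19009c21f802f3c1000380080064002001800087c0483)))))) 
(.nd (nat_lit 29) (.nd (nat_lit 16) (.nd (nat_lit 27) (.nd (nat_lit 9) (.nd (nat_lit 20) 
(.lf (nat_lit 3494256651) (dlOf (nat_lit 2) (nat_lit 0x4c0000000002001400081e0081))) 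
(.lf (nat_lit 1343627275) (dlOf (nat_lit 8) (nat_lit 0x280600181c04001c00000bf702003407e005d201001203f000680a80169008007c0fc00b4402000a07e0059f01000203f002c6c0801580080014002001600082c0283)))) 
(.lf (nat_lit 1345202699) (dlOf (nat_lit 2) (nat_lit 0x12110801600000005008008400200160008b05002)))) 
(.nd (nat_lit 26) 
(.lf (nat_lit 3355844619) (dlOf (nat_lit 13) (nat_lit 0xc80d000c005e001e02d000d0050005502000800bc007005a0015304005402f000a801000f01780050c0801800bc0028004003005e0013c02001e02f0009d010001017802d80b40027008007405a0013702000e02f0009a8100110168004d00800800c80000004002c00400560008120082))) 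
(.lf (nat_lit 5838872587) (dlOf (nat_lit 2) (nat_lit 0x15800000000040020002001800081e0082))))) 
(.nd (nat_lit 10) 
(.lf (nat_lit 5637611531) (dlOf (nat_lit 1) (nat_lit 0x40008000800200420008120a03))) 
(.lf (nat_lit 1344742411) (dlOf (nat_lit 1) (nat_lit 0x10008001000200040008982883))))) 
(.nd (nat_lit 16) (.nd (nat_lit 27) (.nd (nat_lit 28) 
(.lf (nat_lit 5905981451) (dlOf (nat_lit 2) (nat_lit 0x1805c0023004005800400120008170482))) 
(.lf (nat_lit 1879449611) (dlOf (nat_lit 1) (nat_lit 0x400400020008150002)))) 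
(.lf (nat_lit 3892715531) (dlOf (nat_lit 2) (nat_lit 0x200b400f2004005e78281d0480)))) 
(.nd (nat_lit 26) 
(.lf (nat_lit 3892781067) (dlOf (nat_lit 2) (nat_lit 0x5800000a660200060018260281))) 
(.lf (nat_lit 6241591307) (dlOf (nat_lit 1) (nat_lit 0x40008000800200420008120a03))))))) 
(.nd (nat_lit 8) (.nd (nat_lit 21) (.nd (nat_lit 20) (.nd (nat_lit 19) 
(.lf (nat_lit 21373067) (dlOf (nat_lit 2) (nat_lit 0x2c8c0001b018a30f00))) (.nd (nat_lit 26) 
(.lf (nat_lit 1879974027) (dlOf (nat_lit 2) (nat_lit 0x200000003b0200080018490101))) 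
(.lf (nat_lit 1007558795) (dlOf (nat_lit 2) (nat_lit 0x200000003b0200080018490101))))) 
(.nd (nat_lit 16) (.lf (nat_lit 6377316491) (dlOf (nat_lit 2) (nat_lit 0x212e000120180c0f00))) 
(.lf (nat_lit 2039947) (dlOf (nat_lit 2) (nat_lit 0x153040003b0200020028150101))))) 
(.nd (nat_lit 10) (.nd (nat_lit 20) 
(.lf (nat_lit 23994507) (dlOf (nat_lit 1) (nat_lit 0x1000200020008b80102))) 
(.lf (nat_lit 12460171) (dlOf (nat_lit 2) (nat_lit 0x344040001d8186c0100)))) (.nd (nat_lit 16) 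
(.lf (nat_lit 57025675) (dlOf (nat_lit 2) (nat_lit 0x10a5a0000e019792b00))) 
(.lf (nat_lit 40313995) (dlOf (nat_lit 2) (nat_lit 0x24cc40002202000200191f2b01)))))) 
(.nd (nat_lit 11) (.nd (nat_lit 26) (.nd (nat_lit 16) 
(.lf (nat_lit 134619531) (dlOf (nat_lit 3) (nat_lit 0x10c0760074102000603b0039b818090780))) 
(.lf (nat_lit 5772353931) (dlOf (nat_lit 3) (nat_lit 0x709f000a04c0002c00800502780009c02002c0018091001)))) 
(.nd (nat_lit 28) (.lf (nat_lit 738599307) (dlOf (nat_lit 1) (nat_lit 0x200180c5d81))) 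
(.lf (nat_lit 4228260235) (dlOf (nat_lit 2) (nat_lit 0x8603200404818090780))))) (.nd (nat_lit 16) 
(.nd (nat_lit 21) 
(.lf (nat_lit 60172683) (dlOf (nat_lit 1) (nat_lit 0xc9800804e000200b00009844e83))) 
(.lf (nat_lit 473311627) (dlOf (nat_lit 1) (nat_lit 0x4400400080008e94e82)))) (.nd (nat_lit 10) 
(.lf (nat_lit 19872139) (dlOf (nat_lit 1) (nat_lit 0x4002000200089daf82))) 
(.lf (nat_lit 4027002251) (dlOf (nat_lit 1) (nat_lit 0x600180f6c81)))))))) (.nd (nat_lit 19) 
(.nd (nat_lit 20) (.nd (nat_lit 26) (.nd (nat_lit 28) (.nd (nat_lit 8) (.nd (nat_lit 9) 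
(.lf (nat_lit 34021451) (dlOf (nat_lit 1) (nat_lit 0x10400200180008f90602))) 
(.lf (nat_lit 134619723) (dlOf (nat_lit 1) (nat_lit 0x80018091181)))) (.nd (nat_lit 7) 
(.lf (nat_lit 40314187) (dlOf (nat_lit 1) (nat_lit 0x400191f3301))) 
(.lf (nat_lit 57027019) (dlOf (nat_lit 1) (nat_lit 0x400400020009794e82))))) (.nd (nat_lit 29) 
(.nd (nat_lit 8) 
(.lf (nat_lit 5637546059) (dlOf (nat_lit 2) (nat_lit 0x110074000e80400c400400540008100502))) 
(.lf (nat_lit 3624283467) (dlOf (nat_lit 1) (nat_lit 0x20028146a01)))) (.nd (nat_lit 16) 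
(.nd (nat_lit 21) 
(.lf (nat_lit 4026933323) (dlOf (nat_lit 3) (nat_lit 0x350100001080802b8080000800400bc004001000080d0d02))) 
(.lf (nat_lit 1881546827) (dlOf (nat_lit 5) (nat_lit 0xe01c6007807b000a182003703d8004ec08020838c01100f6000cd0400820e3004503d800330100260008000800200020008f40603)))) 
(.lf (nat_lit 1879515211) (dlOf (nat_lit 2) (nat_lit 0xb00000000008006800800a000200a80008190683)))))) 
(.nd (nat_lit 27) (.nd (nat_lit 29) (.nd (nat_lit 8) 
(.lf (nat_lit 3288735819) (dlOf (nat_lit 3) (nat_lit 0x350100001240802b80800008e0400bc004001000080d0d02))) 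
(.lf (nat_lit 2483429707) (dlOf (nat_lit 1) (nat_lit 0xc004011e00081b0602)))) (.nd (nat_lit 32) 
(.lf (nat_lit 1946558539) (dlOf (nat_lit 4) (nat_lit 0x20809c0006804013404e00032020016027000188180c1480))) 
(.lf (nat_lit 6241525835) (dlOf (nat_lit 2) (nat_lit 0x110074000e80400c400400540008100502))))) 
(.nd (nat_lit 32) (.nd (nat_lit 8) 
(.lf (nat_lit 201728587) (dlOf (nat_lit 1) (nat_lit 0x80018091181))) 
(.lf (nat_lit 2349211979) (dlOf (nat_lit 1) (nat_lit 0xc004011e00081b0602)))) (.nd (nat_lit 7) 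
(.lf (nat_lit 4496695371) (dlOf (nat_lit 6) (nat_lit 0xbc0320002481007d0190001180801a00c80008a04016c068005403300be019000780c003280460003f0a01a203201160110000d0100268008004000200320008120503))) 
(.lf (nat_lit 6375810251) (dlOf (nat_lit 1) (nat_lit 0x20018002d81))))))) (.nd (nat_lit 7) 
(.nd (nat_lit 16) (.nd (nat_lit 8) (.nd (nat_lit 21) 
(.lf (nat_lit 43393099) (dlOf (nat_lit 1) (nat_lit 0x14002000200092a0002))) 
(.lf (nat_lit 37101643) (dlOf (nat_lit 1) (nat_lit 0x4002000a0009090602)))) 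
(.lf (nat_lit 60173131) (dlOf (nat_lit 1) (nat_lit 0x40008000400200060009845c03)))) 
(.nd (nat_lit 24) (.lf (nat_lit 37167179) (dlOf (nat_lit 1) (nat_lit 0xc8002015c00090b0602))) 
(.lf (nat_lit 53944395) (dlOf (nat_lit 1) (nat_lit 0x20002000600095f0002))))) (.nd (nat_lit 9) 
(.nd (nat_lit 8) (.lf (nat_lit 43459787) (dlOf (nat_lit 1) (nat_lit 0x200192a2d81))) 
(.lf (nat_lit 3547595) (dlOf (nat_lit 1) (nat_lit 0x220018200981)))) (.nd (nat_lit 10) 
(.lf (nat_lit 20329163) (dlOf (nat_lit 1) (nat_lit 0x4002000200089d8c82))) 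
(.lf (nat_lit 2755014347) (dlOf (nat_lit 1) (nat_lit 0xa000280f7301))))))) (.nd (nat_lit 20) 
(.nd (nat_lit 8) (.nd (nat_lit 9) (.nd (nat_lit 7) (.nd (nat_lit 16) 
(.lf (nat_lit 13508683) (dlOf (nat_lit 2) (nat_lit 0x1026b00021018730d00))) 
(.lf (nat_lit 21962827) (dlOf (nat_lit 1) (nat_lit 0x400400020008a80f82)))) 
(.lf (nat_lit 61809867) (dlOf (nat_lit 1) (nat_lit 0x180019922d81)))) (.nd (nat_lit 16) 
(.lf (nat_lit 2752389707) (dlOf (nat_lit 1) (nat_lit 0x10004000e0008018d02))) 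
(.lf (nat_lit 2752455243) (dlOf (nat_lit 4) (nat_lit 0x170574000cc0400b82ba0003f02006215900011018018d00))))) 
(.nd (nat_lit 7) (.nd (nat_lit 26) 
(.lf (nat_lit 537796939) (dlOf (nat_lit 1) (nat_lit 0x200081b0601))) 
(.lf (nat_lit 1410212171) (dlOf (nat_lit 1) (nat_lit 0x200081b0601)))) (.nd (nat_lit 21) 
(.lf (nat_lit 4094568907) (dlOf (nat_lit 1) (nat_lit 0xf00080044002000c0008054e83))) 
(.lf (nat_lit 44968395) (dlOf (nat_lit 1) (nat_lit 0x400400020009324e82)))))) (.nd (nat_lit 7) 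
(.nd (nat_lit 21) (.nd (nat_lit 24) 
(.lf (nat_lit 43917387) (dlOf (nat_lit 2) (nat_lit 0x35798033b40800080080004002000200092a0003))) 
(.lf (nat_lit 60694603) (dlOf (nat_lit 1) (nat_lit 0x80080004002000200098c0003)))) 
(.nd (nat_lit 16) (.lf (nat_lit 1346248779) (dlOf (nat_lit 1) (nat_lit 0x4000400180008e80002))) 
(.lf (nat_lit 20914251) (dlOf (nat_lit 1) (nat_lit 0x200289f0601))))) (.nd (nat_lit 8) 
(.lf (nat_lit 20848843) (dlOf (nat_lit 1) (nat_lit 0x2c00289e3a81))) (.nd (nat_lit 9) 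
(.lf (nat_lit 2753503691) (dlOf (nat_lit 3) (nat_lit 0x2841200101d30001f0200071048002074c0000008016000200180008090982))) 
(.lf (nat_lit 58598347) (dlOf (nat_lit 1) (nat_lit 0x400297e2881))))))))) (.nd (nat_lit 16) 
(.nd (nat_lit 21) (.nd (nat_lit 28) (.nd (nat_lit 31) (.nd (nat_lit 9) (.nd (nat_lit 23) 
(.nd (nat_lit 6) (.nd (nat_lit 29) 
(.lf (nat_lit 1074143275) (dlOf (nat_lit 1) (nat_lit 0x1f800180c0d01))) 
(.lf (nat_lit 537272363) (dlOf (nat_lit 2) (nat_lit 0x300a8000250200020018070801)))) 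
(.lf (nat_lit 4362477675) (dlOf (nat_lit 1) (nat_lit 0x48008003400200180008090003)))) 
(.nd (nat_lit 20) 
(.lf (nat_lit 12984363) (dlOf (nat_lit 1) (nat_lit 0x180080008002000800086f0b03))) 
(.lf (nat_lit 26615851) (dlOf (nat_lit 5) (nat_lit 0x480000002f0200a60000001701000eb4e000759e4003abec001c3ae00100000000b02800680000005604013800200b20008c50382))))) 
(.nd (nat_lit 26) 
(.lf (nat_lit 134619691) (dlOf (nat_lit 2) (nat_lit 0x270062000000200020028090e81))) 
(.lf (nat_lit 201728555) (dlOf (nat_lit 2) (nat_lit 0x270062000000200020028090e81))))) 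
(.nd (nat_lit 26) (.nd (nat_lit 27) 
(.lf (nat_lit 3758497835) (dlOf (nat_lit 1) (nat_lit 0x580080010002000c0008220803))) 
(.nd (nat_lit 29) 
(.lf (nat_lit 3355844651) (dlOf (nat_lit 3) (nat_lit 0x202f00bf18100a3019000000080070008000c002009c0008120783))) 
(.nd (nat_lit 30) (.lf (nat_lit 2818973739) (dlOf (nat_lit 1) (nat_lit 0xe0028130001))) 
(.lf (nat_lit 3892715563) (dlOf (nat_lit 3) (nat_lit 0x1e40b400400030002f82000902d0001000c000b2080030004005800081d0682)))))) 
(.nd (nat_lit 9) (.nd (nat_lit 27) 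
(.lf (nat_lit 3288735787) (dlOf (nat_lit 2) (nat_lit 0xf601f0001a0180d0a80))) 
(.lf (nat_lit 2349211691) (dlOf (nat_lit 1) (nat_lit 0x4004000200181b0002)))) 
(.lf (nat_lit 2753438251) (dlOf (nat_lit 1) (nat_lit 0x20018090e81)))))) (.nd (nat_lit 26) 
(.nd (nat_lit 31) (.nd (nat_lit 32) (.nd (nat_lit 6) 
(.lf (nat_lit 1343627307) (dlOf (nat_lit 2) (nat_lit 0xa82c4000f4040028002000a00082c0782))) 
(.lf (nat_lit 1346773099) (dlOf (nat_lit 1) (nat_lit 0x8008000800200060009000a03)))) 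
(.nd (nat_lit 8) (.lf (nat_lit 5637546027) (dlOf (nat_lit 1) (nat_lit 0x160018100301))) 
(.lf (nat_lit 5772289323) (dlOf (nat_lit 1) (nat_lit 0x400200020008093182))))) (.nd (nat_lit 8) 
(.nd (nat_lit 9) (.lf (nat_lit 4026933291) (dlOf (nat_lit 2) (nat_lit 0xf601f000158180d0a80))) 
(.lf (nat_lit 3491635755) (dlOf (nat_lit 1) (nat_lit 0x20018090e81)))) 
(.lf (nat_lit 3490065707) (dlOf (nat_lit 1) (nat_lit 0x40018006801))))) (.nd (nat_lit 6) 
(.nd (nat_lit 20) (.lf (nat_lit 6241525803) (dlOf (nat_lit 1) (nat_lit 0x160018100301))) 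
(.lf (nat_lit 471212075) (dlOf (nat_lit 2) (nat_lit 0x260168002200800980080014002001a00082c0783)))) 
(.nd (nat_lit 9) (.lf (nat_lit 4228259947) (dlOf (nat_lit 1) (nat_lit 0x12000400240008090002))) 
(.lf (nat_lit 6376270443) (dlOf (nat_lit 2) (nat_lit 0x901d0000c4080010008001400200080008095383))))))) 
(.nd (nat_lit 6) (.nd (nat_lit 23) (.nd (nat_lit 7) (.nd (nat_lit 8) (.nd (nat_lit 26) 
(.lf (nat_lit 3492159531) (dlOf (nat_lit 1) (nat_lit 0x8002000400080a0982))) 
(.lf (nat_lit 2753962027) (dlOf (nat_lit 1) (nat_lit 0x8002000400080a0982)))) 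
(.lf (nat_lit 20327211) (dlOf (nat_lit 1) (nat_lit 0x4002000200089d5c02)))) (.nd (nat_lit 8) 
(.lf (nat_lit 53354667) (dlOf (nat_lit 3) (nat_lit 0x4929c000260400289620001002001000295a1501))) 
(.lf (nat_lit 8269739) (dlOf (nat_lit 1) (nat_lit 0x60028517981))))) (.nd (nat_lit 19) 
(.nd (nat_lit 20) (.nd (nat_lit 25) 
(.lf (nat_lit 15081515) (dlOf (nat_lit 2) (nat_lit 0x7a37c000a4040050004000600087b0802))) 
(.lf (nat_lit 48635947) (dlOf (nat_lit 1) (nat_lit 0x38008005000200020009420283)))) 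
(.lf (nat_lit 28713003) (dlOf (nat_lit 1) (nat_lit 0x20008da0001)))) (.nd (nat_lit 24) 
(.lf (nat_lit 11411499) (dlOf (nat_lit 4) (nat_lit 0x7a8da000d38980181a18000200c03d8e2a0000e020016686000040186a0800))) 
(.lf (nat_lit 28188715) (dlOf (nat_lit 1) (nat_lit 0x11c00400460008d70902)))))) (.nd (nat_lit 7) 
(.nd (nat_lit 8) (.nd (nat_lit 20) 
(.lf (nat_lit 48636011) (dlOf (nat_lit 1) (nat_lit 0x20029420a01))) (.nd (nat_lit 22) 
(.lf (nat_lit 37101675) (dlOf (nat_lit 1) (nat_lit 0x760009090a01))) 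
(.lf (nat_lit 49684587) (dlOf (nat_lit 3) (nat_lit 0x229ec00064040009460000150200020029480a01))))) 
(.nd (nat_lit 9) (.nd (nat_lit 11) 
(.lf (nat_lit 3547499) (dlOf (nat_lit 3) (nat_lit 0x392c80002a040040964000120200400028200701))) 
(.lf (nat_lit 57026923) (dlOf (nat_lit 1) (nat_lit 0xc00200020009794e82)))) 
(.lf (nat_lit 19800939) (dlOf (nat_lit 1) (nat_lit 0x600289d2581))))) (.nd (nat_lit 10) 
(.nd (nat_lit 8) (.lf (nat_lit 19806955) (dlOf (nat_lit 1) (nat_lit 0x200289db981))) 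
(.lf (nat_lit 2755535339) (dlOf (nat_lit 1) (nat_lit 0x200281b0d01)))) (.nd (nat_lit 24) 
(.lf (nat_lit 2755013867) (dlOf (nat_lit 4) (nat_lit 0x1310e8000d80800108bc0028456002222a001411480070874004842a0002e0c001022f0005115800608a80024452001821d001310a8000b430001800800a0002000c00080f6503))) 
(.lf (nat_lit 20327659) (dlOf (nat_lit 2) (nat_lit 0x33afc0005a04002c004006c00089d6502)))))))) 
(.nd (nat_lit 28) (.nd (nat_lit 19) (.nd (nat_lit 23) (.nd (nat_lit 29) (.nd (nat_lit 21) 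
(.nd (nat_lit 26) (.lf (nat_lit 6442917931) (dlOf (nat_lit 2) (nat_lit 0x803a00010018220a80))) 
(.lf (nat_lit 4362543147) (dlOf (nat_lit 1) (nat_lit 0x4200080004002004a0008090003)))) 
(.lf (nat_lit 19341355) (dlOf (nat_lit 1) (nat_lit 0x8008000800200020008980e03)))) (.nd (nat_lit 6) 
(.nd (nat_lit 26) 
(.lf (nat_lit 3892781099) (dlOf (nat_lit 3) (nat_lit 0x18144000c04800060160005883000102c000301180010e08003800400480018260782))) 
(.lf (nat_lit 1678188587) (dlOf (nat_lit 1) (nat_lit 0x4004000200181a0002)))) 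
(.lf (nat_lit 537338347) (dlOf (nat_lit 1) (nat_lit 0x61c00201cc0008090d02))))) (.nd (nat_lit 6) 
(.nd (nat_lit 8) (.lf (nat_lit 8856107) (dlOf (nat_lit 1) (nat_lit 0xe0028511481))) 
(.lf (nat_lit 60236075) (dlOf (nat_lit 1) (nat_lit 0x8008000400200020009840b03)))) 
(.lf (nat_lit 48701547) (dlOf (nat_lit 2) (nat_lit 0x2b04c0005804000c00200060009420a02))))) 
(.nd (nat_lit 11) (.nd (nat_lit 20) (.nd (nat_lit 6) 
(.lf (nat_lit 11477035) (dlOf (nat_lit 9) (nat_lit 0x4663c000531b000b189400fcc36001058600322bd0000a83000200000005004004cc6c0012625000630d802215e80004ae400020000000e8600013100000500808d9a1804c8d0a018862d0068309009215d004a8ae6015e528011828c808814600348a1201d63d9010e1ec000280000002034043cd0c01f851900be28c007e0f6c0001c100038c4c0000c020062686004028c80002010031000800b0002025800086a0803))) 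
(.lf (nat_lit 19866219) (dlOf (nat_lit 1) (nat_lit 0xa00289d1801)))) (.nd (nat_lit 21) 
(.lf (nat_lit 23011371) (dlOf (nat_lit 1) (nat_lit 0x40028b40781))) 
(.lf (nat_lit 25108523) (dlOf (nat_lit 1) (nat_lit 0x6000400140008be0c02))))) (.nd (nat_lit 6) 
(.nd (nat_lit 8) (.lf (nat_lit 19872427) (dlOf (nat_lit 1) (nat_lit 0x4002000200089db782))) 
(.lf (nat_lit 19869099) (dlOf (nat_lit 2) (nat_lit 0x29b0a000e302000200289d6d01)))) 
(.nd (nat_lit 24) (.lf (nat_lit 2754554219) (dlOf (nat_lit 1) (nat_lit 0x4004000200180f4e82))) 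
(.lf (nat_lit 19868011) (dlOf (nat_lit 1) (nat_lit 0x510008022c002019800089d4e83))))))) 
(.nd (nat_lit 26) (.nd (nat_lit 6) (.nd (nat_lit 20) (.nd (nat_lit 8) 
(.lf (nat_lit 4027001899) (dlOf (nat_lit 1) (nat_lit 0x200280f6081))) 
(.lf (nat_lit 1476862251) (dlOf (nat_lit 1) (nat_lit 0x140008280b01)))) (.nd (nat_lit 9) 
(.lf (nat_lit 1344217131) (dlOf (nat_lit 1) (nat_lit 0x200028520001))) 
(.lf (nat_lit 1345790507) (dlOf (nat_lit 2) (nat_lit 0x2a800000000040080002001e0008de8a02))))) 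
(.nd (nat_lit 8) (.nd (nat_lit 9) 
(.lf (nat_lit 4027002091) (dlOf (nat_lit 2) (nat_lit 0xa01a8000b40800380080014002001200080f6503))) 
(.lf (nat_lit 4027002603) (dlOf (nat_lit 1) (nat_lit 0x600180f7401)))) 
(.lf (nat_lit 3492751339) (dlOf (nat_lit 1) (nat_lit 0x80080010002000400080f4603))))) 
(.nd (nat_lit 29) (.nd (nat_lit 27) (.nd (nat_lit 6) 
(.lf (nat_lit 3557236779) (dlOf (nat_lit 10) (nat_lit 0x602200019010026035000c817400980b2001a0540033029800b814400980a0004c04e00260268017806400dc0040012000000178c004203c002281a801500c200a0060002f02f0026817401c00a800a4053002002880260140014809c001004d003800d002b006401040040002e1e012605d000402c801b8144000c0a0013004e00f6001005f8000000581c018c09c008e00201180000000ac180080008000300400780440001202005207200008810001011000000080290008000c00201340008170383))) 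
(.lf (nat_lit 1409753579) (dlOf (nat_lit 1) (nat_lit 0x61c00201cc0008090d02)))) (.nd (nat_lit 9) 
(.nd (nat_lit 19) (.lf (nat_lit 5838938155) (dlOf (nat_lit 2) (nat_lit 0x803a00010018220a80))) 
(.lf (nat_lit 471801899) (dlOf (nat_lit 1) (nat_lit 0x200028520001)))) 
(.lf (nat_lit 472328747) (dlOf (nat_lit 1) (nat_lit 0x800200020008985182))))) (.nd (nat_lit 6) 
(.nd (nat_lit 7) 
(.lf (nat_lit 3154583595) (dlOf (nat_lit 1) (nat_lit 0x8008000400200020008260783))) 
(.lf (nat_lit 6376860331) (dlOf (nat_lit 1) (nat_lit 0x400400020008095682)))) 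
(.lf (nat_lit 6376333419) (dlOf (nat_lit 1) (nat_lit 0x20018090181)))))))))))

end

end Pool.Agent.Lib.MP_5854e1_co.Cz
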