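import Pool.Agent.Lib.MP_5854e1_co.DecRow

/-!
# Sparse corrections
-/

set_option autoImplicit false
set_option maxRecDepth 100000

namespace Pool.Agent.Lib.MP_5854e1_co.Cz

noncomputable section

noncomputable def tz155 : DT := (.nd (nat_lit 13) (.nd (nat_lit 16) (.nd (nat_lit 6) 
(.nd (nat_lit 5) (.nd (nat_lit 18) (.nd (nat_lit 19) (.nd (nat_lit 30) (.nd (nat_lit 7) 
(.nd (nat_lit 20) (.nd (nat_lit 11) 
(.lf (nat_lit 67272715) (dlOf (nat_lit 1) (nat_lit 0x20018090081))) 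
(.lf (nat_lit 169995) (dlOf (nat_lit 1) (nat_lit 0x1000800080020008000800a603)))) (.nd (nat_lit 9) 
(.nd (nat_lit 10) (.lf (nat_lit 15892491) (dlOf (nat_lit 2) (nat_lit 0x4ee8004d30200020018840281))) 
(.lf (nat_lit 51545099) (dlOf (nat_lit 1) (nat_lit 0x20019512881)))) 
(.lf (nat_lit 11698699) (dlOf (nat_lit 2) (nat_lit 0x1cce3100f9717807537aa03b7bd001b7000000594280168008000c002001a00086c0d83))))) 
(.nd (nat_lit 8) (.nd (nat_lit 21) 
(.lf (nat_lit 5234655371) (dlOf (nat_lit 3) (nat_lit 0x2c05c006a0200001b0200060180000d0080070008001800200020008070f03))) 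
(.lf (nat_lit 2261131) (dlOf (nat_lit 2) (nat_lit 0x114b80014a52003151e8000ec180050008002000200140008150103)))) 
(.nd (nat_lit 12) (.lf (nat_lit 55740811) (dlOf (nat_lit 1) (nat_lit 0x4004000200096d4e82))) 
(.lf (nat_lit 170379) (dlOf (nat_lit 1) (nat_lit 0x40020002000800af82)))))) (.nd (nat_lit 28) 
(.nd (nat_lit 32) (.nd (nat_lit 8) 
(.lf (nat_lit 3288498187) (dlOf (nat_lit 1) (nat_lit 0xcc002002e0008030482))) 
(.lf (nat_lit 1610777867) (dlOf (nat_lit 1) (nat_lit 0xa800800a0002002c0008092f83)))) 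
(.nd (nat_lit 27) 
(.lf (nat_lit 5368872971) (dlOf (nat_lit 4) (nat_lit 0x2f002a017401400c70098062804402ac020018200e006a586000e0098002804401a9408000402a0008014000400980010044002401c00d460a00280028060a01))) 
(.lf (nat_lit 5503090699) (dlOf (nat_lit 4) (nat_lit 0x2f002a017401400c70098062804402ac020018200e003e806000e0098002804400f9e08000402a0008014000400980010044002401c007cb0a00280028060a01))))) 
(.nd (nat_lit 26) (.nd (nat_lit 11) (.nd (nat_lit 22) 
(.lf (nat_lit 4026695691) (dlOf (nat_lit 1) (nat_lit 0xcc002002e0008030482))) 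
(.lf (nat_lit 1346535435) (dlOf (nat_lit 1) (nat_lit 0x2ae0008fa0001)))) 
(.lf (nat_lit 3492972555) (dlOf (nat_lit 2) (nat_lit 0x662030002a0180f4700)))) (.nd (nat_lit 7) 
(.lf (nat_lit 3691151371) (dlOf (nat_lit 1) (nat_lit 0x20028050001))) 
(.lf (nat_lit 5704417419) (dlOf (nat_lit 2) (nat_lit 0x21803a009201a001a00c0024805c0124028000320a00120018070f01))))))) 
(.nd (nat_lit 20) (.nd (nat_lit 22) (.nd (nat_lit 26) (.nd (nat_lit 29) 
(.lf (nat_lit 134905867) (dlOf (nat_lit 2) (nat_lit 0x400bc000fe040004002000400080d0482))) 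
(.lf (nat_lit 3893002251) (dlOf (nat_lit 1) (nat_lit 0x2c004001600082c0002)))) 
(.lf (nat_lit 202014731) (dlOf (nat_lit 2) (nat_lit 0x400bc000fe040004002000400080d0482)))) 
(.nd (nat_lit 7) (.nd (nat_lit 24) 
(.lf (nat_lit 4882443) (dlOf (nat_lit 1) (nat_lit 0x80080004002000400082d0003))) 
(.lf (nat_lit 55214091) (dlOf (nat_lit 1) (nat_lit 0x1a00196d0001)))) 
(.lf (nat_lit 40536459) (dlOf (nat_lit 1) (nat_lit 0x4004000400091f4e82))))) (.nd (nat_lit 24) 
(.nd (nat_lit 21) (.lf (nat_lit 471498763) (dlOf (nat_lit 1) (nat_lit 0x400400020008310602))) 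
(.lf (nat_lit 3833867) (dlOf (nat_lit 1) (nat_lit 0x400200020008230082)))) (.nd (nat_lit 7) 
(.lf (nat_lit 58359819) (dlOf (nat_lit 2) (nat_lit 0x833e0000964c00049cc000a4d40056d8497e0000))) 
(.lf (nat_lit 28999819) (dlOf (nat_lit 1) (nat_lit 0xc40028da0481))))))) (.nd (nat_lit 20) 
(.nd (nat_lit 22) (.nd (nat_lit 28) (.nd (nat_lit 27) (.nd (nat_lit 8) 
(.lf (nat_lit 1678147595) (dlOf (nat_lit 1) (nat_lit 0x160004000400081a0002))) 
(.lf (nat_lit 4362502411) (dlOf (nat_lit 1) (nat_lit 0x20028090481)))) (.nd (nat_lit 9) 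
(.lf (nat_lit 3959848971) (dlOf (nat_lit 2) (nat_lit 0x2804600207018170000))) 
(.lf (nat_lit 201753099) (dlOf (nat_lit 2) (nat_lit 0x20094006202f00110828090d80))))) 
(.nd (nat_lit 8) (.nd (nat_lit 27) 
(.lf (nat_lit 4563828747) (dlOf (nat_lit 4) (nat_lit 0x802031006ee0102a70188037600804380c40000004006c002006800080f0a02))) 
(.lf (nat_lit 4698046475) (dlOf (nat_lit 4) (nat_lit 0x8020310049c0102a70188024d00804380c40000004006c002006800080f0a02)))) 
(.nd (nat_lit 7) (.lf (nat_lit 4094593803) (dlOf (nat_lit 1) (nat_lit 0x40018055b01))) 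
(.lf (nat_lit 805732747) (dlOf (nat_lit 2) (nat_lit 0x7b02b00202408023000800e0002001c00081a0783)))))) 
(.nd (nat_lit 7) (.nd (nat_lit 19) 
(.lf (nat_lit 1346797579) (dlOf (nat_lit 2) (nat_lit 0x4066800128080008008000400200040009010103))) 
(.lf (nat_lit 21921803) (dlOf (nat_lit 1) (nat_lit 0x20008a80481)))) (.nd (nat_lit 10) 
(.nd (nat_lit 19) 
(.lf (nat_lit 21397643) (dlOf (nat_lit 6) (nat_lit 0x22c28a001014200220748000d81804d85140074284003c139001e09b002303a40006a14016428a0003402016214f000190100820a2800d83a40005608004c00400080018a30f02))) 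
(.lf (nat_lit 24019083) (dlOf (nat_lit 1) (nat_lit 0x1000200020008b80102)))) 
(.lf (nat_lit 40273035) (dlOf (nat_lit 2) (nat_lit 0xccc40002202000200291f2b01)))))) 
(.nd (nat_lit 7) (.nd (nat_lit 24) (.nd (nat_lit 11) (.nd (nat_lit 19) 
(.lf (nat_lit 1343651851) (dlOf (nat_lit 1) (nat_lit 0x14002000200082d0282))) 
(.lf (nat_lit 3491659787) (dlOf (nat_lit 1) (nat_lit 0x20028090001)))) 
(.lf (nat_lit 3493234699) (dlOf (nat_lit 3) (nat_lit 0x800e8001540800b8074000a804000c002000200080f4702)))) 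
(.nd (nat_lit 21) (.nd (nat_lit 22) 
(.lf (nat_lit 26640395) (dlOf (nat_lit 1) (nat_lit 0x8008000400200020008c50003))) 
(.lf (nat_lit 22446091) (dlOf (nat_lit 2) (nat_lit 0x22ac3c002f004000800400400018ae0482)))) 
(.lf (nat_lit 24543243) (dlOf (nat_lit 1) (nat_lit 0x10008000800200040008ba0003))))) 
(.nd (nat_lit 8) (.nd (nat_lit 19) 
(.lf (nat_lit 3571851) (dlOf (nat_lit 1) (nat_lit 0x220028200101))) (.nd (nat_lit 26) 
(.lf (nat_lit 1344176267) (dlOf (nat_lit 2) (nat_lit 0x850000000ec0800080080020002000a0008490103))) 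
(.lf (nat_lit 471761035) (dlOf (nat_lit 2) (nat_lit 0x850000000ec0800080080020002000a0008490103))))) 
(.nd (nat_lit 22) (.lf (nat_lit 35555723) (dlOf (nat_lit 1) (nat_lit 0x400200020009014e82))) 
(.lf (nat_lit 56527243) (dlOf (nat_lit 1) (nat_lit 0x40019734e81)))))))) (.nd (nat_lit 19) 
(.nd (nat_lit 18) (.nd (nat_lit 26) (.nd (nat_lit 22) (.nd (nat_lit 31) (.nd (nat_lit 28) 
(.lf (nat_lit 6039961643) (dlOf (nat_lit 1) (nat_lit 0x20008001000200040008070783))) 
(.lf (nat_lit 1476558891) (dlOf (nat_lit 9) (nat_lit 0x800c00032020010000000168101360000000b0080c10000000560400140000002a0200080070000901003f0070028801c0002208000800e000000200020028050381)))) 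
(.nd (nat_lit 27) 
(.lf (nat_lit 2952953899) (dlOf (nat_lit 15) (nat_lit 0x10700e0000d0080ed007000066040564050034601c00cf00d800c005405b4008008e0030001906005701400b000700308036001801501840020000800c000621803500380102004000180202df00e0004006c0ce402a0002f06059401c007000d813500540005c0c050c038024401500560020000b4180580070014c02a0002c04017c01c005a00d80070054045c00800580030000c05006200e000e806c000240805f4038009601b0000882000700e0000400807a807000d803600fa01500560020000002001d8008002400200f20008030383))) 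
(.lf (nat_lit 4160913451) (dlOf (nat_lit 2) (nat_lit 0x80500006604000800200040008070602))))) 
(.nd (nat_lit 20) (.nd (nat_lit 21) (.nd (nat_lit 23) 
(.lf (nat_lit 1346535467) (dlOf (nat_lit 1) (nat_lit 0x88008007c00202980008fa0303))) 
(.lf (nat_lit 29524011) (dlOf (nat_lit 3) (nat_lit 0x10000002300801200000011404002c00200020008e10782)))) 
(.lf (nat_lit 14843947) (dlOf (nat_lit 1) (nat_lit 0x4004022e0008780882)))) 
(.lf (nat_lit 47349803) (dlOf (nat_lit 1) (nat_lit 0x8004000400093d0b82))))) (.nd (nat_lit 21) 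
(.nd (nat_lit 27) (.nd (nat_lit 28) 
(.lf (nat_lit 604143659) (dlOf (nat_lit 7) (nat_lit 0x100000003202017e000000178100a70000000b80800900000005604004400c01440000001502003100300778000000520801a800200520008030382))) 
(.lf (nat_lit 2483191851) (dlOf (nat_lit 1) (nat_lit 0x20008002000200020008070903)))) 
(.nd (nat_lit 28) 
(.lf (nat_lit 2348974123) (dlOf (nat_lit 3) (nat_lit 0xba0150080009402e003c016800000012840001015000180380002808000400200040008070802))) 
(.lf (nat_lit 3691151403) (dlOf (nat_lit 14) (nat_lit 0x230098001403a0003104006a026002300e80ff0010000600c018004e00e202600640128024808c004004401d201d000e00e00160064030402c00d0007039b0020065800c00980020008000000178e004a0138042809801c804a0058023002a011000b007c01ec03a0072016006a00381c0801002b000600c0001005e0000000b8680568098013c03a05f0004000168306c801301e18094055c03e01ae01d017c00e01d48058022c00e023c00400630008000b0482a78098094004a016002200ae00e0065805804fc0080060000000158702ef0130014005805200080002a06036e02602b00020000a4100628098003c04a018801d00bd00e01cb001002fc006000180c0004026008b01280200074013c038066200400bf001800048300628098021404a00ae022009100e80340070003002c009c0090310002005d000c0002224072004c00de025032000200000018025800802a400202040008050383)))))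 
(.nd (nat_lit 7) (.lf (nat_lit 69369899) (dlOf (nat_lit 1) (nat_lit 0x420018940281))) 
(.lf (nat_lit 2754780075) (dlOf (nat_lit 1) (nat_lit 0x2000280fbd81)))))) (.nd (nat_lit 7) 
(.nd (nat_lit 9) (.nd (nat_lit 20) (.nd (nat_lit 8) (.nd (nat_lit 21) 
(.lf (nat_lit 2818998315) (dlOf (nat_lit 2) (nat_lit 0x1201f8000c40801100080084002000c0008150383))) 
(.lf (nat_lit 19300395) (dlOf (nat_lit 1) (nat_lit 0x400200020008980e02)))) 
(.lf (nat_lit 3490090283) (dlOf (nat_lit 1) (nat_lit 0x400200020008006802)))) (.nd (nat_lit 23) 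
(.lf (nat_lit 1343651883) (dlOf (nat_lit 2) (nat_lit 0x31108000b80800080080020002000c00082d0903))) 
(.lf (nat_lit 26640427) (dlOf (nat_lit 3) (nat_lit 0x6ad0d000160100096868000ac0800300080030002001c0008c50383))))) 
(.nd (nat_lit 8) (.nd (nat_lit 26) 
(.lf (nat_lit 134644267) (dlOf (nat_lit 2) (nat_lit 0x8680c40000004000800400020008090e82))) 
(.lf (nat_lit 201753131) (dlOf (nat_lit 2) (nat_lit 0x8680c40000004000800400020008090e82)))) 
(.lf (nat_lit 429867) (dlOf (nat_lit 1) (nat_lit 0x8008000400200020008007483))))) (.nd (nat_lit 8) 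
(.nd (nat_lit 22) (.lf (nat_lit 1611038891) (dlOf (nat_lit 1) (nat_lit 0x8002000200080c1502))) 
(.lf (nat_lit 21397675) (dlOf (nat_lit 1) (nat_lit 0x60018a31501)))) (.nd (nat_lit 11) 
(.nd (nat_lit 27) 
(.lf (nat_lit 1678148011) (dlOf (nat_lit 3) (nat_lit 0x2a0560018009803a14100020158001c02600e8404000e00181a0781))) 
(.lf (nat_lit 3959849387) (dlOf (nat_lit 3) (nat_lit 0x78118000408a00e8504000204600742018170780)))) 
(.lf (nat_lit 872843691) (dlOf (nat_lit 1) (nat_lit 0x4004000200080e4e82))))))) (.nd (nat_lit 21) 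
(.nd (nat_lit 26) (.nd (nat_lit 20) (.nd (nat_lit 22) (.nd (nat_lit 27) (.nd (nat_lit 28) 
(.lf (nat_lit 3221913643) (dlOf (nat_lit 6) (nat_lit 0x1b101780003c0800500bc0001c0402f805e0000d0200b402f000048104b80178000000800a00080164002000e00081b0603))) 
(.lf (nat_lit 805994539) (dlOf (nat_lit 2) (nat_lit 0x18a05600590098000cc1005b800800b800200a60008210603)))) 
(.lf (nat_lit 134905899) (dlOf (nat_lit 1) (nat_lit 0x64002004400080d0a82)))) 
(.lf (nat_lit 21659691) (dlOf (nat_lit 1) (nat_lit 0x10008002c00200120008a60d03)))) 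
(.lf (nat_lit 10125355) (dlOf (nat_lit 1) (nat_lit 0x2400285b0501)))) (.nd (nat_lit 31) 
(.nd (nat_lit 27) 
(.lf (nat_lit 1678409771) (dlOf (nat_lit 2) (nat_lit 0x18a05600590098000c81005b800800b800200a60008210603))) 
(.lf (nat_lit 202014763) (dlOf (nat_lit 1) (nat_lit 0x64002004400080d0a82)))) (.nd (nat_lit 28) 
(.lf (nat_lit 3960111147) (dlOf (nat_lit 6) (nat_lit 0x1b101780003c0800500bc0001c0402f805e0000d0200b402f000048104b80178000000800a00080164002000e00081b0603))) 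
(.lf (nat_lit 4228546603) (dlOf (nat_lit 3) (nat_lit 0x3480540005402016c02a000198180f0c00)))))) 
(.nd (nat_lit 20) (.nd (nat_lit 7) (.nd (nat_lit 22) (.nd (nat_lit 26) 
(.lf (nat_lit 2785323) (dlOf (nat_lit 1) (nat_lit 0x200081b0d01))) 
(.lf (nat_lit 472547371) (dlOf (nat_lit 1) (nat_lit 0x8004000200089b0902)))) 
(.lf (nat_lit 15368235) (dlOf (nat_lit 1) (nat_lit 0x200287e0681)))) 
(.lf (nat_lit 36342187) (dlOf (nat_lit 1) (nat_lit 0x800200020009074e82)))) (.nd (nat_lit 9) 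
(.nd (nat_lit 22) 
(.lf (nat_lit 3833899) (dlOf (nat_lit 6) (nat_lit 0xa03e000718100030970006840c001007c0007606000a13f000a0970006840c001c07c0007508001813f000d0970004840c003007c0007408001a13f00080970005840c002c07c000730800040008230b01))) 
(.lf (nat_lit 24805419) (dlOf (nat_lit 2) (nat_lit 0x55fc00038c0803d80080068002000c0008bb0b03)))) 
(.lf (nat_lit 20611627) (dlOf (nat_lit 1) (nat_lit 0x400289d1481)))))))) (.nd (nat_lit 8) 
(.nd (nat_lit 26) (.nd (nat_lit 18) (.nd (nat_lit 30) (.nd (nat_lit 21) (.nd (nat_lit 10) 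
(.nd (nat_lit 19) 
(.lf (nat_lit 25329739) (dlOf (nat_lit 3) (nat_lit 0x1300000005302005000000023818bf0d00))) 
(.lf (nat_lit 134905931) (dlOf (nat_lit 2) (nat_lit 0x12a0310098008800158100338008007c002003200080d0d03)))) 
(.nd (nat_lit 5) (.lf (nat_lit 805473867) (dlOf (nat_lit 1) (nat_lit 0x20018117181))) 
(.lf (nat_lit 34243691) (dlOf (nat_lit 1) (nat_lit 0x30008001c00200020008fb2983))))) 
(.nd (nat_lit 9) (.nd (nat_lit 20) 
(.lf (nat_lit 52592715) (dlOf (nat_lit 4) (nat_lit 0x5965200160020026c12005460880322ca4014d4f6006aa69000ab05000a5948003340800900080090002002e0009550603))) 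
(.lf (nat_lit 24281163) (dlOf (nat_lit 1) (nat_lit 0x8008000400200020008b90f03)))) (.nd (nat_lit 7) 
(.lf (nat_lit 11698763) (dlOf (nat_lit 1) (nat_lit 0x80080004002000200086c1183))) 
(.lf (nat_lit 20091595) (dlOf (nat_lit 1) (nat_lit 0x4002000200089d8c82)))))) (.nd (nat_lit 7) 
(.nd (nat_lit 9) (.nd (nat_lit 19) 
(.lf (nat_lit 4026695755) (dlOf (nat_lit 2) (nat_lit 0x20808000e40160000004000c0008030f81))) 
(.lf (nat_lit 3492446283) (dlOf (nat_lit 2) (nat_lit 0x681eb0002b0180d0d00)))) (.nd (nat_lit 5) 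
(.lf (nat_lit 1342341707) (dlOf (nat_lit 1) (nat_lit 0x20028018b01))) 
(.lf (nat_lit 1610778219) (dlOf (nat_lit 3) (nat_lit 0x1805a0002381001202d000118080308008002c002007a0008093903))))) 
(.nd (nat_lit 5) (.nd (nat_lit 9) 
(.lf (nat_lit 3493494987) (dlOf (nat_lit 1) (nat_lit 0x400400020008155a82))) 
(.lf (nat_lit 3758265035) (dlOf (nat_lit 1) (nat_lit 0x738008007c00201200008128c83)))) 
(.lf (nat_lit 5772575979) (dlOf (nat_lit 1) (nat_lit 0x1c00200020008092e82)))))) (.nd (nat_lit 20) 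
(.nd (nat_lit 19) (.nd (nat_lit 5) (.nd (nat_lit 10) 
(.lf (nat_lit 59146315) (dlOf (nat_lit 1) (nat_lit 0x7c00197e0001))) 
(.lf (nat_lit 38175819) (dlOf (nat_lit 1) (nat_lit 0x8008000400200020009132883)))) 
(.lf (nat_lit 805732459) (dlOf (nat_lit 2) (nat_lit 0x2402b00353c0802380080018002000600081a0003)))) 
(.nd (nat_lit 23) (.lf (nat_lit 21921867) (dlOf (nat_lit 1) (nat_lit 0x400400020008a80f82))) 
(.nd (nat_lit 25) (.lf (nat_lit 13533259) (dlOf (nat_lit 2) (nat_lit 0x4800000020018730d00))) 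
(.lf (nat_lit 47087691) (dlOf (nat_lit 1) (nat_lit 0x8008000c002000400093a0603)))))) 
(.nd (nat_lit 21) (.nd (nat_lit 5) (.nd (nat_lit 24) 
(.lf (nat_lit 43941963) (dlOf (nat_lit 2) (nat_lit 0xaea000066738033b41000300080024002001400092a0003))) 
(.lf (nat_lit 60719179) (dlOf (nat_lit 1) (nat_lit 0x400198c0001)))) 
(.lf (nat_lit 14057579) (dlOf (nat_lit 1) (nat_lit 0x20018750281)))) (.nd (nat_lit 7) 
(.nd (nat_lit 19) (.lf (nat_lit 49709131) (dlOf (nat_lit 1) (nat_lit 0x400400020009480602))) 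
(.lf (nat_lit 1346273355) (dlOf (nat_lit 3) (nat_lit 0x38010001c00200ced040004004000b0008033b0100020008004800200060008e80003)))) 
(.lf (nat_lit 12484811) (dlOf (nat_lit 2) (nat_lit 0x943e0007c80800700080028002000c00086c0483))))))) 
(.nd (nat_lit 27) (.nd (nat_lit 5) (.nd (nat_lit 19) (.nd (nat_lit 9) (.nd (nat_lit 21) 
(.lf (nat_lit 3288498251) (dlOf (nat_lit 2) (nat_lit 0x20808000e40160000004000c0008030f81))) 
(.lf (nat_lit 69369931) (dlOf (nat_lit 1) (nat_lit 0x60008940601)))) 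
(.lf (nat_lit 4362240587) (dlOf (nat_lit 2) (nat_lit 0x5e0320000f018018d00)))) (.nd (nat_lit 7) 
(.nd (nat_lit 9) (.lf (nat_lit 2754248779) (dlOf (nat_lit 2) (nat_lit 0x681fd000278180d0d00))) 
(.lf (nat_lit 2752414283) (dlOf (nat_lit 14) (nat_lit 0x343fe032215d00a90ae0001a0180678574000ce0404302ba000660202be15d00870ae000108100868574000820400b42b80003f02030e24800071230000e4100ab856404082ae000230401e2159000110100a50fc00e9856409182ae0001e06020e1590000e0100b00ac80006c08002092c000000405c400400340008018d02)))) 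
(.lf (nat_lit 2755297483) (dlOf (nat_lit 1) (nat_lit 0x400400020008155a82))))) (.nd (nat_lit 7) 
(.nd (nat_lit 9) (.nd (nat_lit 18) 
(.lf (nat_lit 3556933739) (dlOf (nat_lit 1) (nat_lit 0x8008000c002000400080f1e83))) 
(.lf (nat_lit 1678147691) (dlOf (nat_lit 1) (nat_lit 0x10002000a00081a0002)))) 
(.lf (nat_lit 5435984491) (dlOf (nat_lit 1) (nat_lit 0x8008004400200020008095383)))) 
(.nd (nat_lit 9) 
(.lf (nat_lit 2751629547) (dlOf (nat_lit 1) (nat_lit 0x60008000400200060008004b03))) 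
(.lf (nat_lit 2214757099) (dlOf (nat_lit 1) (nat_lit 0x4004000200080a2102)))))) (.nd (nat_lit 28) 
(.nd (nat_lit 5) (.nd (nat_lit 7) (.nd (nat_lit 9) 
(.lf (nat_lit 202014795) (dlOf (nat_lit 2) (nat_lit 0x12a031009800880013c100338008007c002003200080d0d03))) 
(.lf (nat_lit 201491019) (dlOf (nat_lit 4) (nat_lit 0x680bc000cc0400d00940004202001002f0001f818018d00)))) 
(.lf (nat_lit 738623691) (dlOf (nat_lit 1) (nat_lit 0x18008000c002000400080c1b83)))) 
(.nd (nat_lit 7) (.lf (nat_lit 3959849067) (dlOf (nat_lit 1) (nat_lit 0x400200220008170002))) 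
(.lf (nat_lit 3959589099) (dlOf (nat_lit 1) (nat_lit 0x100008114b01))))) (.nd (nat_lit 5) 
(.nd (nat_lit 7) (.nd (nat_lit 29) 
(.lf (nat_lit 469926475) (dlOf (nat_lit 1) (nat_lit 0x8800400180008018d02))) 
(.lf (nat_lit 4228022859) (dlOf (nat_lit 1) (nat_lit 0x480080024002000e0008018b03)))) 
(.lf (nat_lit 5301765323) (dlOf (nat_lit 1) (nat_lit 0x44004003c0008092d82)))) (.nd (nat_lit 7) 
(.lf (nat_lit 6376557163) (dlOf (nat_lit 1) (nat_lit 0x1800400040018095382))) 
(.lf (nat_lit 1543671019) (dlOf (nat_lit 1) (nat_lit 0x4002000c0008146502)))))))) (.nd (nat_lit 5) 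
(.nd (nat_lit 7) (.nd (nat_lit 28) (.nd (nat_lit 12) (.nd (nat_lit 9) 
(.lf (nat_lit 21397835) (dlOf (nat_lit 1) (nat_lit 0x50008002800200240008a34c83))) 
(.lf (nat_lit 2751629131) (dlOf (nat_lit 1) (nat_lit 0xe0028003e81)))) (.nd (nat_lit 11) 
(.lf (nat_lit 168267) (dlOf (nat_lit 1) (nat_lit 0x20018008281))) 
(.lf (nat_lit 170315) (dlOf (nat_lit 1) (nat_lit 0x6001800ab81))))) (.nd (nat_lit 10) 
(.nd (nat_lit 26) 
(.lf (nat_lit 1342341451) (dlOf (nat_lit 1) (nat_lit 0x18008021000200580008014c83))) 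
(.lf (nat_lit 469926219) (dlOf (nat_lit 1) (nat_lit 0x18008021000200580008014c83)))) 
(.nd (nat_lit 19) (.lf (nat_lit 1543671115) (dlOf (nat_lit 1) (nat_lit 0x5400400020008146a02))) 
(.lf (nat_lit 3490352459) (dlOf (nat_lit 1) (nat_lit 0x40028006a01)))))) (.nd (nat_lit 20) 
(.nd (nat_lit 18) (.nd (nat_lit 19) 
(.lf (nat_lit 3491922379) (dlOf (nat_lit 3) (nat_lit 0x261c10001e81000f0e080000008003800800f8002000e0008090983))) 
(.lf (nat_lit 23757259) (dlOf (nat_lit 1) (nat_lit 0x40008b80981)))) (.nd (nat_lit 11) 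
(.lf (nat_lit 5772313035) (dlOf (nat_lit 4) (nat_lit 0x142640001c0200941310000a01004b098800024080098008000c00200340008091103))) 
(.lf (nat_lit 40274379) (dlOf (nat_lit 1) (nat_lit 0x4004000200091f4e82))))) (.nd (nat_lit 11) 
(.nd (nat_lit 26) 
(.lf (nat_lit 3491660235) (dlOf (nat_lit 2) (nat_lit 0x441e004620b0007102800000180260008009c00200060008090983))) 
(.lf (nat_lit 2753462731) (dlOf (nat_lit 2) (nat_lit 0x44480046220000710d000000180260008009c00200060008090983)))) 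
(.lf (nat_lit 41847243) (dlOf (nat_lit 1) (nat_lit 0x400400020009244e82)))))) (.nd (nat_lit 29) 
(.nd (nat_lit 18) (.nd (nat_lit 20) (.nd (nat_lit 7) 
(.lf (nat_lit 3489827179) (dlOf (nat_lit 1) (nat_lit 0x20008004e81))) (.nd (nat_lit 10) 
(.lf (nat_lit 469926379) (dlOf (nat_lit 1) (nat_lit 0x20008017d01))) 
(.lf (nat_lit 61507051) (dlOf (nat_lit 1) (nat_lit 0x18008000400200040009923603))))) 
(.nd (nat_lit 9) (.lf (nat_lit 3310059) (dlOf (nat_lit 1) (nat_lit 0x1e4004039c0008200d02))) 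
(.nd (nat_lit 21) (.lf (nat_lit 38962155) (dlOf (nat_lit 1) (nat_lit 0xc0029192881))) 
(.lf (nat_lit 36865003) (dlOf (nat_lit 1) (nat_lit 0x5e0009072881)))))) (.nd (nat_lit 19) 
(.nd (nat_lit 10) 
(.lf (nat_lit 3624305131) (dlOf (nat_lit 1) (nat_lit 0x28008000800200020008157303))) 
(.lf (nat_lit 1476822507) (dlOf (nat_lit 4) (nat_lit 0xd01a000600000047608004407a00100340007015000400800020018001000900080000008b83800280f40018054000000400020028203601)))) 
(.nd (nat_lit 7) 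
(.lf (nat_lit 3493757291) (dlOf (nat_lit 1) (nat_lit 0x80080004002000200081b0703))) 
(.nd (nat_lit 9) 
(.lf (nat_lit 3490611691) (dlOf (nat_lit 3) (nat_lit 0x2083cc000220200681e60000e018017300))) 
(.lf (nat_lit 61768683) (dlOf (nat_lit 1) (nat_lit 0x40019922881))))))) (.nd (nat_lit 7) 
(.nd (nat_lit 18) (.nd (nat_lit 11) (.nd (nat_lit 26) 
(.lf (nat_lit 1610776939) (dlOf (nat_lit 1) (nat_lit 0x20018090f81))) 
(.lf (nat_lit 2885845355) (dlOf (nat_lit 4) (nat_lit 0x100c0000bc0800580b8000c0300002904000a02d000300b80009c1000080080010002000600080b0703)))) 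
(.lf (nat_lit 2751633771) (dlOf (nat_lit 1) (nat_lit 0xc001800ac01)))) (.nd (nat_lit 20) 
(.lf (nat_lit 537821547) (dlOf (nat_lit 5) (nat_lit 0x38076000b0330000d01000e01d800200cc00032040014075001100000007c1000180000003c040068002000200081b0702))) 
(.lf (nat_lit 2755559787) (dlOf (nat_lit 1) (nat_lit 0x80080004002000200081b0703))))) 
(.nd (nat_lit 18) (.nd (nat_lit 9) 
(.lf (nat_lit 2751633899) (dlOf (nat_lit 1) (nat_lit 0x4001800b281))) (.nd (nat_lit 10) 
(.lf (nat_lit 1880261611) (dlOf (nat_lit 1) (nat_lit 0x200028802881))) 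
(.lf (nat_lit 1677887467) (dlOf (nat_lit 1) (nat_lit 0xc00200020008114602))))) (.nd (nat_lit 21) 
(.lf (nat_lit 2751890411) (dlOf (nat_lit 1) (nat_lit 0x400400020018002882))) 
(.lf (nat_lit 6377866219) (dlOf (nat_lit 1) (nat_lit 0x200280e2881)))))))))) (.nd (nat_lit 6) 
(.nd (nat_lit 5) (.nd (nat_lit 7) (.nd (nat_lit 28) (.nd (nat_lit 22) (.nd (nat_lit 26) 
(.nd (nat_lit 18) (.nd (nat_lit 19) (.nd (nat_lit 27) 
(.lf (nat_lit 6442680331) (dlOf (nat_lit 1) (nat_lit 0x20008140a01))) 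
(.lf (nat_lit 134447115) (dlOf (nat_lit 1) (nat_lit 0x180080028002003e0008020483)))) 
(.nd (nat_lit 10) 
(.lf (nat_lit 2819325963) (dlOf (nat_lit 1) (nat_lit 0x30008000400200080008240283))) 
(.lf (nat_lit 36406283) (dlOf (nat_lit 1) (nat_lit 0x20019072881))))) (.nd (nat_lit 20) 
(.lf (nat_lit 2588683) (dlOf (nat_lit 2) (nat_lit 0x360800030000033a8100008008000400200100008170003))) 
(.nd (nat_lit 21) (.lf (nat_lit 9928715) (dlOf (nat_lit 1) (nat_lit 0x8008000400200020008590083))) 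
(.lf (nat_lit 3637259) (dlOf (nat_lit 1) (nat_lit 0x10008000800200040008210683)))))) 
(.nd (nat_lit 27) (.nd (nat_lit 8) 
(.lf (nat_lit 2751693835) (dlOf (nat_lit 1) (nat_lit 0x20008002881))) 
(.lf (nat_lit 4899179275) (dlOf (nat_lit 1) (nat_lit 0x6400180d5b01)))) (.nd (nat_lit 29) 
(.lf (nat_lit 201555979) (dlOf (nat_lit 1) (nat_lit 0x180080028002003e0008020483))) 
(.lf (nat_lit 1812168715) (dlOf (nat_lit 3) (nat_lit 0x8a00b000eb01000c00c0022002c0000008004800400280008160482)))))) 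
(.nd (nat_lit 24) (.nd (nat_lit 20) (.nd (nat_lit 18) 
(.lf (nat_lit 12812299) (dlOf (nat_lit 1) (nat_lit 0x4004000200086e0002))) (.nd (nat_lit 21) 
(.lf (nat_lit 13074443) (dlOf (nat_lit 1) (nat_lit 0x28004000e00086f0082))) 
(.lf (nat_lit 15171595) (dlOf (nat_lit 2) (nat_lit 0x1b035600bcf02000200187c0481))))) 
(.nd (nat_lit 18) (.lf (nat_lit 15958027) (dlOf (nat_lit 1) (nat_lit 0x20018850281))) 
(.nd (nat_lit 19) (.lf (nat_lit 16220171) (dlOf (nat_lit 1) (nat_lit 0x180018870101))) 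
(.lf (nat_lit 14647307) (dlOf (nat_lit 1) (nat_lit 0x8008000400200020008770003)))))) 
(.nd (nat_lit 18) (.nd (nat_lit 19) (.nd (nat_lit 21) 
(.lf (nat_lit 30638091) (dlOf (nat_lit 1) (nat_lit 0x400200020008e40502))) 
(.lf (nat_lit 24346635) (dlOf (nat_lit 3) (nat_lit 0x4b0d0056e010007586802b68080020008005400200020008b90683)))) 
(.lf (nat_lit 22773771) (dlOf (nat_lit 1) (nat_lit 0x8008000800200020008b20083)))) 
(.nd (nat_lit 19) (.lf (nat_lit 30900235) (dlOf (nat_lit 1) (nat_lit 0x500028e50581))) 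
(.nd (nat_lit 20) (.lf (nat_lit 21987339) (dlOf (nat_lit 1) (nat_lit 0x1000200060008a80482))) 
(.lf (nat_lit 23035915) (dlOf (nat_lit 1) (nat_lit 0x400200020008b40082)))))))) (.nd (nat_lit 26) 
(.nd (nat_lit 27) (.nd (nat_lit 9) (.nd (nat_lit 11) (.nd (nat_lit 18) 
(.lf (nat_lit 1342406667) (dlOf (nat_lit 2) (nat_lit 0xd21cd000c2018020480))) 
(.lf (nat_lit 3491201035) (dlOf (nat_lit 2) (nat_lit 0x6157001d3818070500)))) 
(.lf (nat_lit 3493038091) (dlOf (nat_lit 5) (nat_lit 0x19c15000f40890002a82007905400060298024c1120005406010a0890002881016a046009a822c0009c0801e000403a600180f4702)))) 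
(.nd (nat_lit 29) 
(.lf (nat_lit 2416149003) (dlOf (nat_lit 2) (nat_lit 0xa00f801680280410000001650600040008090d81))) 
(.lf (nat_lit 4026761739) (dlOf (nat_lit 2) (nat_lit 0x5b80c80704056038402401b30068005942002f0008003c00200260008090d83))))) 
(.nd (nat_lit 29) (.nd (nat_lit 9) 
(.lf (nat_lit 1476624395) (dlOf (nat_lit 10) (nat_lit 0x301d001a100800100f000b540400580780050702000803c0024d01000401e00125c0800780f00081804013c078000d102006e03c0005f81009600b800c0058024800e010000600a9000000000280060008016400200aa00080a0483))) 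
(.lf (nat_lit 1476889099) (dlOf (nat_lit 4) (nat_lit 0x1403c000201b0003008c000540c000c03800029020016042000a01e000080e4000406c000a023000800e0000a03000780080038002000800082d5003)))) 
(.nd (nat_lit 10) 
(.lf (nat_lit 939753483) (dlOf (nat_lit 3) (nat_lit 0x8a00b000a281000c00c0022002c0000008004800400280008160482))) 
(.lf (nat_lit 5234721803) (dlOf (nat_lit 1) (nat_lit 0x200080004002000e00080d2883)))))) 
(.nd (nat_lit 18) (.nd (nat_lit 31) (.nd (nat_lit 30) 
(.lf (nat_lit 469991435) (dlOf (nat_lit 2) (nat_lit 0xd21cd00079818020480))) 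
(.lf (nat_lit 5838700555) (dlOf (nat_lit 1) (nat_lit 0x20008140a01)))) (.nd (nat_lit 11) 
(.lf (nat_lit 3691216907) (dlOf (nat_lit 12) (nat_lit 0x15403a007001c001f582003900e8006d8080f480740035e0407c003a001ad0201de01d000c681019f00e8005b80808f807403800380016804015401d01a100e000044100dc007406740380000e04036e01d00cf00e00003010102007406f8038026601800090078000002000e800800dc00201e800080a0483))) 
(.lf (nat_lit 4228614155) (dlOf (nat_lit 1) (nat_lit 0x180028114701))))) (.nd (nat_lit 11) 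
(.nd (nat_lit 19) (.lf (nat_lit 4228349963) (dlOf (nat_lit 1) (nat_lit 0x120028090001))) 
(.lf (nat_lit 473923595) (dlOf (nat_lit 2) (nat_lit 0x42c0002208d003a1828fc0000)))) 
(.lf (nat_lit 1946650635) (dlOf (nat_lit 2) (nat_lit 0x2d004c000c00e000270280f4700))))))) 
(.nd (nat_lit 9) (.nd (nat_lit 8) (.nd (nat_lit 10) (.nd (nat_lit 19) (.nd (nat_lit 26) 
(.lf (nat_lit 805798027) (dlOf (nat_lit 1) (nat_lit 0x78004000200081a0102))) 
(.lf (nat_lit 1678213259) (dlOf (nat_lit 1) (nat_lit 0x78004000200081a0102)))) 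
(.lf (nat_lit 2064523) (dlOf (nat_lit 2) (nat_lit 0x86a2b0001d818150100)))) (.nd (nat_lit 12) 
(.lf (nat_lit 604472459) (dlOf (nat_lit 4) (nat_lit 0x20060000c01e00010000000181800280c0000c03c00005040014030000700f00010000000000c0024002000600082d2b02))) 
(.nd (nat_lit 26) 
(.lf (nat_lit 2684589195) (dlOf (nat_lit 4) (nat_lit 0x11c40760044039000b502046e01d800054080ef80ec00000040634002020000080a9502))) 
(.lf (nat_lit 3422786699) (dlOf (nat_lit 4) (nat_lit 0x2bd01d8005c00815000ec002d4040a800760001502002e00080a9501)))))) 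
(.nd (nat_lit 11) (.nd (nat_lit 10) (.nd (nat_lit 19) 
(.lf (nat_lit 2550366603) (dlOf (nat_lit 1) (nat_lit 0xa0028090781))) 
(.lf (nat_lit 8094091) (dlOf (nat_lit 1) (nat_lit 0x400200020008511002)))) 
(.lf (nat_lit 8095115) (dlOf (nat_lit 1) (nat_lit 0x8008000400200020008513603)))) (.nd (nat_lit 22) 
(.lf (nat_lit 50563467) (dlOf (nat_lit 1) (nat_lit 0x4004000200094c4e82))) 
(.lf (nat_lit 54757771) (dlOf (nat_lit 1) (nat_lit 0x8008000400200020009654e83)))))) 
(.nd (nat_lit 11) (.nd (nat_lit 8) (.nd (nat_lit 10) 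
(.lf (nat_lit 8094347) (dlOf (nat_lit 1) (nat_lit 0x700018511a81))) (.nd (nat_lit 12) 
(.lf (nat_lit 4832069259) (dlOf (nat_lit 1) (nat_lit 0xc002000200080d3a02))) 
(.lf (nat_lit 3422787211) (dlOf (nat_lit 2) (nat_lit 0x3701d001b80bc00000080004002000200080a9e02))))) 
(.nd (nat_lit 18) (.lf (nat_lit 3557005195) (dlOf (nat_lit 1) (nat_lit 0x4002812a301))) 
(.lf (nat_lit 19896203) (dlOf (nat_lit 1) (nat_lit 0x4002000200089da302))))) (.nd (nat_lit 8) 
(.nd (nat_lit 26) (.lf (nat_lit 1745062539) (dlOf (nat_lit 1) (nat_lit 0x400400020008095482))) 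
(.nd (nat_lit 29) (.lf (nat_lit 5436050059) (dlOf (nat_lit 1) (nat_lit 0x2800200100008095482))) 
(.lf (nat_lit 4899179147) (dlOf (nat_lit 1) (nat_lit 0x4002000200080d5482))))) (.nd (nat_lit 26) 
(.lf (nat_lit 5100505995) (dlOf (nat_lit 1) (nat_lit 0x80080004002000200080d5c83))) 
(.lf (nat_lit 4899179403) (dlOf (nat_lit 1) (nat_lit 0x4004000200080d5c82)))))))) (.nd (nat_lit 28) 
(.nd (nat_lit 19) (.nd (nat_lit 26) (.nd (nat_lit 20) (.nd (nat_lit 21) (.nd (nat_lit 23) 
(.lf (nat_lit 134447147) (dlOf (nat_lit 1) (nat_lit 0x20018020501))) 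
(.lf (nat_lit 25395243) (dlOf (nat_lit 5) (nat_lit 0x1661580013c0810a32fc0006604122997e000320201e2cbf00018818c00600)))) 
(.lf (nat_lit 52658219) (dlOf (nat_lit 1) (nat_lit 0x4002003c0009560902)))) (.nd (nat_lit 7) 
(.nd (nat_lit 8) (.lf (nat_lit 18055211) (dlOf (nat_lit 1) (nat_lit 0x400200020008900b02))) 
(.lf (nat_lit 60260651) (dlOf (nat_lit 1) (nat_lit 0x1400400020019840b02)))) 
(.lf (nat_lit 20158123) (dlOf (nat_lit 1) (nat_lit 0x100080004002000200089da003))))) 
(.nd (nat_lit 29) (.nd (nat_lit 9) (.nd (nat_lit 27) 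
(.lf (nat_lit 4362305579) (dlOf (nat_lit 3) (nat_lit 0x9023000220080038118000f604000c004000c0008020602))) 
(.lf (nat_lit 201556011) (dlOf (nat_lit 1) (nat_lit 0x20018020501)))) (.nd (nat_lit 8) 
(.lf (nat_lit 3288564267) (dlOf (nat_lit 1) (nat_lit 0x40008090e81))) 
(.lf (nat_lit 2214822699) (dlOf (nat_lit 1) (nat_lit 0x1400280a2201))))) (.nd (nat_lit 7) 
(.nd (nat_lit 8) (.nd (nat_lit 18) 
(.lf (nat_lit 1812168747) (dlOf (nat_lit 2) (nat_lit 0x2c04c000470200160028160501))) 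
(.lf (nat_lit 2753003563) (dlOf (nat_lit 4) (nat_lit 0x3c039c0028000000280400320e70000e81002707400003008000800800b000200040008070803)))) 
(.lf (nat_lit 2885912875) (dlOf (nat_lit 1) (nat_lit 0x38008001000200060008144b83)))) 
(.nd (nat_lit 8) 
(.lf (nat_lit 4899179179) (dlOf (nat_lit 1) (nat_lit 0x80080004002000200080d5683))) 
(.lf (nat_lit 2754841003) (dlOf (nat_lit 1) (nat_lit 0x200180f4e81))))))) (.nd (nat_lit 23) 
(.nd (nat_lit 18) (.nd (nat_lit 22) 
(.lf (nat_lit 537624619) (dlOf (nat_lit 1) (nat_lit 0x200180e0601))) 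
(.lf (nat_lit 4948011) (dlOf (nat_lit 1) (nat_lit 0xc00282d0381)))) (.nd (nat_lit 7) 
(.nd (nat_lit 24) (.lf (nat_lit 6258731) (dlOf (nat_lit 1) (nat_lit 0xa0028420001))) 
(.lf (nat_lit 23035947) (dlOf (nat_lit 1) (nat_lit 0x40008001c00200120008b40783)))) 
(.lf (nat_lit 36669867) (dlOf (nat_lit 1) (nat_lit 0x400200040009074e82))))) (.nd (nat_lit 11) 
(.nd (nat_lit 20) (.nd (nat_lit 21) 
(.lf (nat_lit 13598763) (dlOf (nat_lit 2) (nat_lit 0x65c620022dea8000ac10010800800f800200160008730a83))) 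
(.lf (nat_lit 28278827) (dlOf (nat_lit 2) (nat_lit 0xeced00043818d80780)))) 
(.lf (nat_lit 14647339) (dlOf (nat_lit 5) (nat_lit 0x3f23a4002cf1000043e4001b1f000090f7c00064140078f120054786007e3b680230f7c000621002411d401a878900343c400331db401d87c800123df000178600c347500011e240230eee0002e0601ee0028770381)))) 
(.nd (nat_lit 7) (.lf (nat_lit 46107179) (dlOf (nat_lit 1) (nat_lit 0xa0029385181))) 
(.lf (nat_lit 48990635) (dlOf (nat_lit 1) (nat_lit 0x20019464e81))))))) (.nd (nat_lit 27) 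
(.nd (nat_lit 30) (.nd (nat_lit 9) (.nd (nat_lit 7) 
(.lf (nat_lit 2416410667) (dlOf (nat_lit 1) (nat_lit 0x400181b0001))) 
(.lf (nat_lit 4563632299) (dlOf (nat_lit 1) (nat_lit 0x40008002c002001600080a2c83)))) 
(.nd (nat_lit 29) (.lf (nat_lit 2416149035) (dlOf (nat_lit 1) (nat_lit 0x60028090e81))) 
(.lf (nat_lit 805536299) (dlOf (nat_lit 1) (nat_lit 0x360018127f81))))) (.nd (nat_lit 19) 
(.nd (nat_lit 9) (.nd (nat_lit 18) 
(.lf (nat_lit 1342406699) (dlOf (nat_lit 2) (nat_lit 0x481cd000a6818020500))) 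
(.lf (nat_lit 3491201067) (dlOf (nat_lit 5) (nat_lit 0x6d0280000280202501e800300af809e8540039427802a2138000809b800030300828540000060400842b80000002000c0018070901)))) 
(.lf (nat_lit 4026761771) (dlOf (nat_lit 1) (nat_lit 0x40008090e81)))) (.nd (nat_lit 20) 
(.lf (nat_lit 1410039851) (dlOf (nat_lit 1) (nat_lit 0x200180e0601))) 
(.lf (nat_lit 1343979563) (dlOf (nat_lit 1) (nat_lit 0x20018390b01)))))) (.nd (nat_lit 26) 
(.nd (nat_lit 8) (.nd (nat_lit 9) 
(.lf (nat_lit 939753515) (dlOf (nat_lit 2) (nat_lit 0x2c04c0009d0200160028160501))) 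
(.lf (nat_lit 2550366763) (dlOf (nat_lit 1) (nat_lit 0x60028090e81)))) (.nd (nat_lit 7) 
(.lf (nat_lit 3624370475) (dlOf (nat_lit 1) (nat_lit 0xf4002004a0008187902))) 
(.lf (nat_lit 4160979883) (dlOf (nat_lit 1) (nat_lit 0x1000180a2681))))) (.nd (nat_lit 19) 
(.nd (nat_lit 29) (.lf (nat_lit 469991467) (dlOf (nat_lit 2) (nat_lit 0x481cd000bc018020500))) 
(.lf (nat_lit 4228087851) (dlOf (nat_lit 3) (nat_lit 0x901f80022c0800380fc000fa04000c004000c0008020602)))) 
(.nd (nat_lit 18) (.lf (nat_lit 472612907) (dlOf (nat_lit 2) (nat_lit 0x40158000000189c0280))) 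
(.lf (nat_lit 473923627) (dlOf (nat_lit 2) (nat_lit 0x382580001604001400200060008fc0282))))))))) 
(.nd (nat_lit 18) (.nd (nat_lit 9) (.nd (nat_lit 8) (.nd (nat_lit 26) (.nd (nat_lit 21) 
(.nd (nat_lit 7) (.nd (nat_lit 20) 
(.lf (nat_lit 4160979019) (dlOf (nat_lit 1) (nat_lit 0x1600180a0001))) 
(.lf (nat_lit 43221067) (dlOf (nat_lit 1) (nat_lit 0x4002000200092a0002)))) 
(.lf (nat_lit 9666763) (dlOf (nat_lit 1) (nat_lit 0xc0018571781)))) (.nd (nat_lit 5) 
(.nd (nat_lit 28) (.lf (nat_lit 2850891) (dlOf (nat_lit 1) (nat_lit 0x1c004007a00181c0d02))) 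
(.lf (nat_lit 3492511819) (dlOf (nat_lit 2) (nat_lit 0x790f580118748000ac080010002000600080d0d02)))) 
(.lf (nat_lit 56852587) (dlOf (nat_lit 3) (nat_lit 0x2139800064040008936000150200020029770a01))))) 
(.nd (nat_lit 5) (.nd (nat_lit 7) (.nd (nat_lit 19) 
(.lf (nat_lit 5436047435) (dlOf (nat_lit 1) (nat_lit 0x168008007000200860008090003))) 
(.lf (nat_lit 2754314315) (dlOf (nat_lit 2) (nat_lit 0x790fe8011879c0009e080010002000600080d0d02)))) 
(.lf (nat_lit 3020128459) (dlOf (nat_lit 1) (nat_lit 0x8008000400200020008130483)))) 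
(.nd (nat_lit 7) 
(.lf (nat_lit 1009483883) (dlOf (nat_lit 1) (nat_lit 0x100080024002000200091a0a03))) 
(.nd (nat_lit 10) 
(.lf (nat_lit 2751695083) (dlOf (nat_lit 2) (nat_lit 0x203c8000600800300080010002000a0008004b03))) 
(.lf (nat_lit 5167613163) (dlOf (nat_lit 1) (nat_lit 0x358008015400200fa00080d2e83))))))) 
(.nd (nat_lit 5) (.nd (nat_lit 22) (.nd (nat_lit 21) (.nd (nat_lit 26) 
(.lf (nat_lit 1879277899) (dlOf (nat_lit 1) (nat_lit 0x1e000200c800080c0602))) 
(.lf (nat_lit 1006862667) (dlOf (nat_lit 1) (nat_lit 0x1e000200c800080c0602)))) 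
(.lf (nat_lit 2326859) (dlOf (nat_lit 4) (nat_lit 0xfd9dc000330202cacee000190100f06770000c408052800802e400201000008150603)))) 
(.nd (nat_lit 7) (.nd (nat_lit 26) 
(.lf (nat_lit 3494084939) (dlOf (nat_lit 2) (nat_lit 0x2821e0002c02000800081b0601))) 
(.lf (nat_lit 2755887435) (dlOf (nat_lit 1) (nat_lit 0x80080024002000200081b0603)))) 
(.lf (nat_lit 55282123) (dlOf (nat_lit 1) (nat_lit 0x4004000200096d4e82))))) (.nd (nat_lit 19) 
(.nd (nat_lit 10) (.nd (nat_lit 26) 
(.lf (nat_lit 805536235) (dlOf (nat_lit 4) (nat_lit 0x90000000338100090000001980802400000007e04008000400200008127302))) 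
(.lf (nat_lit 3825435115) (dlOf (nat_lit 5) (nat_lit 0x22400b002a004802600000005c0c040c0160104009007d0000000b418039802c0004e0401b0016000260200d00028157301)))) 
(.lf (nat_lit 3624111595) (dlOf (nat_lit 3) (nat_lit 0x14040000800a000200000001a0c0010080003401b001a00a0002800000000100020004000e0018146e82)))) 
(.nd (nat_lit 7) (.nd (nat_lit 23) 
(.lf (nat_lit 754027) (dlOf (nat_lit 1) (nat_lit 0x400200020008015502))) 
(.lf (nat_lit 9142635) (dlOf (nat_lit 1) (nat_lit 0x3000800a400200460008527583)))) 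
(.lf (nat_lit 3491463659) (dlOf (nat_lit 1) (nat_lit 0x20018090d01))))))) (.nd (nat_lit 29) 
(.nd (nat_lit 22) (.nd (nat_lit 11) (.nd (nat_lit 7) (.nd (nat_lit 20) 
(.lf (nat_lit 3288564299) (dlOf (nat_lit 1) (nat_lit 0x20018091181))) 
(.lf (nat_lit 9667147) (dlOf (nat_lit 3) (nat_lit 0xdc3a60000780801e1d3000038040004004000a0008578d02)))) 
(.lf (nat_lit 20157131) (dlOf (nat_lit 1) (nat_lit 0x80080004002000200089d8c83)))) (.nd (nat_lit 5) 
(.lf (nat_lit 20156107) (dlOf (nat_lit 1) (nat_lit 0x600189d7301))) (.nd (nat_lit 20) 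
(.lf (nat_lit 5436050027) (dlOf (nat_lit 2) (nat_lit 0x2804400054040018004002c0008095382))) 
(.lf (nat_lit 20154987) (dlOf (nat_lit 1) (nat_lit 0x8002000600089d5382)))))) (.nd (nat_lit 5) 
(.nd (nat_lit 8) (.lf (nat_lit 23298635) (dlOf (nat_lit 1) (nat_lit 0x800200020008b81182))) 
(.nd (nat_lit 10) (.lf (nat_lit 54758219) (dlOf (nat_lit 1) (nat_lit 0x800200020009655c02))) 
(.lf (nat_lit 8095563) (dlOf (nat_lit 1) (nat_lit 0x20018513e81))))) (.nd (nat_lit 8) 
(.lf (nat_lit 8098539) (dlOf (nat_lit 2) (nat_lit 0x19dd00001804000400400040008518e02))) 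
(.lf (nat_lit 8095723) (dlOf (nat_lit 1) (nat_lit 0x7e0028514601)))))) (.nd (nat_lit 5) 
(.nd (nat_lit 27) (.nd (nat_lit 26) (.nd (nat_lit 28) 
(.lf (nat_lit 537100875) (dlOf (nat_lit 3) (nat_lit 0xd012000c00840068000000680600ca00000021018018d00))) 
(.lf (nat_lit 4026761803) (dlOf (nat_lit 1) (nat_lit 0x20018091181)))) 
(.lf (nat_lit 1677951563) (dlOf (nat_lit 2) (nat_lit 0x140288000780801d8008005800200060008128d03)))) 
(.nd (nat_lit 28) (.lf (nat_lit 671318603) (dlOf (nat_lit 2) (nat_lit 0x4600500035818158d00))) 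
(.lf (nat_lit 3087237707) (dlOf (nat_lit 6) (nat_lit 0x8c0000003c0200ce00b0001d81002600a803c002c00800000003906006c00b0001c01005000d80000c080188008002000200460008158d03))))) 
(.nd (nat_lit 26) (.nd (nat_lit 27) 
(.lf (nat_lit 5100505707) (dlOf (nat_lit 2) (nat_lit 0x200bc00082040004004002400180d5382))) 
(.lf (nat_lit 1745062507) (dlOf (nat_lit 1) (nat_lit 0x400400020008095382)))) (.nd (nat_lit 7) 
(.lf (nat_lit 6376622699) (dlOf (nat_lit 1) (nat_lit 0x40028095381))) 
(.lf (nat_lit 5301830635) (dlOf (nat_lit 4) (nat_lit 0xe0110049401000300880249c0800300440120c04006400400060018092882)))))))) 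
(.nd (nat_lit 21) (.nd (nat_lit 19) (.nd (nat_lit 7) (.nd (nat_lit 20) (.nd (nat_lit 10) 
(.lf (nat_lit 1346863179) (dlOf (nat_lit 1) (nat_lit 0xa0029040001))) 
(.lf (nat_lit 496715) (dlOf (nat_lit 1) (nat_lit 0x80080004002000e0008009303)))) (.nd (nat_lit 25) 
(.lf (nat_lit 4095180875) (dlOf (nat_lit 3) (nat_lit 0x8000000010100480000000000801d00080080002000a0008070603))) 
(.lf (nat_lit 35094603) (dlOf (nat_lit 1) (nat_lit 0x10400200180008fd0602))))) (.nd (nat_lit 8) 
(.lf (nat_lit 8884939) (dlOf (nat_lit 1) (nat_lit 0x400200020008518c82))) (.nd (nat_lit 27) 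
(.lf (nat_lit 4362568139) (dlOf (nat_lit 1) (nat_lit 0x40018090981))) 
(.lf (nat_lit 4228350411) (dlOf (nat_lit 1) (nat_lit 0x40018090981)))))) (.nd (nat_lit 8) 
(.nd (nat_lit 26) (.nd (nat_lit 22) (.nd (nat_lit 23) 
(.lf (nat_lit 1343193163) (dlOf (nat_lit 1) (nat_lit 0x20018190681))) 
(.lf (nat_lit 59736139) (dlOf (nat_lit 1) (nat_lit 0x400400020009820602)))) 
(.lf (nat_lit 13598795) (dlOf (nat_lit 4) (nat_lit 0xae3180056f58000840803e78c601efbd600020020013e31800f6f580007e0800fc004001c0008730d02)))) 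
(.nd (nat_lit 5) (.nd (nat_lit 9) 
(.lf (nat_lit 1008698443) (dlOf (nat_lit 1) (nat_lit 0x420018f52881))) 
(.lf (nat_lit 2752479819) (dlOf (nat_lit 16) (nat_lit 0x4843fe029a1fe013a0f4803307a010702ba07b415c019d0a100a78504000d02003203fe079e15d01500ae00019c1806587fc0f302ba04da15c0003303000b0ae8001940808f87fc04943fc001e1e9041a0ae81ec857005d0284024c141000210700cb0ff801207a40f3c2ba002a142000208400ca0ff801e07f800903d2079c15d03710ae002a050800582820003f0e011415d0001f0100df0fc000e8780000c2be084615903e30ab803984e8012026a000230e00fe1f803d00ac818e055c0014274000220802d21f800070af8256056411e02ae00fe1350000f05009e0fc01f805640e642ae00281350000e04007d0fc01e6856401882ae0001b0604861570000d01014f09e800000080db000801840020a1e0008018d03)))) 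
(.lf (nat_lit 69173355) (dlOf (nat_lit 1) (nat_lit 0x2000188c0a01))))) (.nd (nat_lit 28) 
(.nd (nat_lit 20) (.lf (nat_lit 2752479563) (dlOf (nat_lit 1) (nat_lit 0xa0018014c81))) 
(.lf (nat_lit 2064715) (dlOf (nat_lit 1) (nat_lit 0x400400020008150602)))) (.nd (nat_lit 5) 
(.lf (nat_lit 3490677067) (dlOf (nat_lit 1) (nat_lit 0xa0018014c81))) 
(.lf (nat_lit 3490677227) (dlOf (nat_lit 5) (nat_lit 0x11b8798015c2a8002c152000110300940f300007808126079801442a80001c0404a61e600540aa00006c1009b8008009000201960008017303))))))) 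
(.nd (nat_lit 20) (.nd (nat_lit 7) (.nd (nat_lit 19) (.nd (nat_lit 22) 
(.lf (nat_lit 1009221707) (dlOf (nat_lit 5) (nat_lit 0x207180010388002860800041c60013b0200040e3000668100020718003300800700080030002001400090a0603))) 
(.lf (nat_lit 31948875) (dlOf (nat_lit 1) (nat_lit 0x400400020008eb0602)))) 
(.lf (nat_lit 53444683) (dlOf (nat_lit 1) (nat_lit 0x180080008002000200095d1503)))) 
(.nd (nat_lit 5) (.nd (nat_lit 8) 
(.lf (nat_lit 19894987) (dlOf (nat_lit 1) (nat_lit 0x4002000200089d8c82))) 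
(.lf (nat_lit 24084939) (dlOf (nat_lit 2) (nat_lit 0x80000000002000a0008b80981)))) 
(.lf (nat_lit 3492774891) (dlOf (nat_lit 1) (nat_lit 0x200180f2881))))) (.nd (nat_lit 7) 
(.nd (nat_lit 25) (.nd (nat_lit 24) 
(.lf (nat_lit 473923659) (dlOf (nat_lit 10) (nat_lit 0x460d7000ab8101710af8009857805fc1ae00c409b00610458005582803f057c01f81ae000cf0401f615f010206b800338100c7057c06601ae000cd04032015f019606b8003301003f057c01f81ae000cb04001415d0005e01000b06c800000080610008002000200d20008fc0603))) 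
(.lf (nat_lit 20938827) (dlOf (nat_lit 1) (nat_lit 0x2a00189f0601)))) (.nd (nat_lit 19) 
(.lf (nat_lit 37191755) (dlOf (nat_lit 1) (nat_lit 0x4002013600090b0602))) 
(.lf (nat_lit 46104651) (dlOf (nat_lit 1) (nat_lit 0xc0029380001))))) (.nd (nat_lit 9) 
(.lf (nat_lit 8357067) (dlOf (nat_lit 1) (nat_lit 0x800200020008512d82))) 
(.lf (nat_lit 20419275) (dlOf (nat_lit 1) (nat_lit 0x4002000200089d8c82)))))))))) (.nd (nat_lit 16) 
(.nd (nat_lit 26) (.nd (nat_lit 18) (.nd (nat_lit 19) (.nd (nat_lit 28) (.nd (nat_lit 6) 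
(.nd (nat_lit 23) (.nd (nat_lit 5) (.nd (nat_lit 7) (.nd (nat_lit 8) 
(.lf (nat_lit 56795147) (dlOf (nat_lit 1) (nat_lit 0x400400020009760102))) 
(.lf (nat_lit 2281878795) (dlOf (nat_lit 1) (nat_lit 0x200280a9681)))) 
(.lf (nat_lit 1745005195) (dlOf (nat_lit 1) (nat_lit 0x4004001a0008095482)))) (.nd (nat_lit 21) 
(.lf (nat_lit 6039969835) (dlOf (nat_lit 2) (nat_lit 0x10060000000200180008080601))) 
(.lf (nat_lit 56795179) (dlOf (nat_lit 1) (nat_lit 0x400400020009760902))))) (.nd (nat_lit 5) 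
(.nd (nat_lit 20) (.lf (nat_lit 10657803) (dlOf (nat_lit 1) (nat_lit 0x8008000c00200020008610083))) 
(.nd (nat_lit 21) (.lf (nat_lit 30580747) (dlOf (nat_lit 1) (nat_lit 0x40028e40501))) 
(.lf (nat_lit 15900683) (dlOf (nat_lit 1) (nat_lit 0x80008840281))))) (.nd (nat_lit 20) 
(.lf (nat_lit 29532203) (dlOf (nat_lit 5) (nat_lit 0x908e8002fc0801e0000001180401600000008b02005ca7d005108b80510000001140c06cc00200600008e10782))) 
(.lf (nat_lit 30580779) (dlOf (nat_lit 1) (nat_lit 0x2180080004002001a0008e40e03)))))) 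
(.nd (nat_lit 7) (.nd (nat_lit 5) (.nd (nat_lit 8) (.nd (nat_lit 9) 
(.lf (nat_lit 52600907) (dlOf (nat_lit 5) (nat_lit 0x131824002ec11006b594803529ec019d4d2001560a0060c12002a5948003641002cb0480245652000cd0400b6c1200955948003301001f800800b400200420009550603))) 
(.lf (nat_lit 9609803) (dlOf (nat_lit 2) (nat_lit 0x185190000f018578d00)))) 
(.lf (nat_lit 178507) (dlOf (nat_lit 1) (nat_lit 0xc0040002000800ab82)))) (.nd (nat_lit 8) 
(.lf (nat_lit 1745005163) (dlOf (nat_lit 1) (nat_lit 0x540028095381))) 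
(.lf (nat_lit 2269547) (dlOf (nat_lit 1) (nat_lit 0x400400020008150702))))) (.nd (nat_lit 5) 
(.nd (nat_lit 8) (.nd (nat_lit 20) 
(.lf (nat_lit 3758273227) (dlOf (nat_lit 1) (nat_lit 0x520008000400200b60008128c83))) 
(.lf (nat_lit 20099787) (dlOf (nat_lit 1) (nat_lit 0x4002000200089d8c82)))) 
(.lf (nat_lit 3758273483) (dlOf (nat_lit 1) (nat_lit 0x8008000400200020008129203)))) 
(.nd (nat_lit 8) 
(.lf (nat_lit 2281874155) (dlOf (nat_lit 1) (nat_lit 0x80080138002004400080a2103))) 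
(.lf (nat_lit 6576841195) (dlOf (nat_lit 1) (nat_lit 0x80008157301))))))) (.nd (nat_lit 7) 
(.nd (nat_lit 31) (.nd (nat_lit 8) (.nd (nat_lit 5) (.nd (nat_lit 9) 
(.lf (nat_lit 268607499) (dlOf (nat_lit 1) (nat_lit 0x7e00080b0a01))) 
(.lf (nat_lit 2013439499) (dlOf (nat_lit 1) (nat_lit 0x20028093681)))) 
(.lf (nat_lit 1476567083) (dlOf (nat_lit 7) (nat_lit 0x480000003402002200600a20000000cc10018801803bc00000032040008000000178100bf0000000b0080538000000560401a800200520008050382)))) 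
(.nd (nat_lit 11) 
(.lf (nat_lit 1344447755) (dlOf (nat_lit 1) (nat_lit 0x8008000400200020008802f83))) 
(.lf (nat_lit 805481739) (dlOf (nat_lit 2) (nat_lit 0xa029800078080078008001c00200060008116683))))) 
(.nd (nat_lit 20) (.nd (nat_lit 5) (.nd (nat_lit 21) 
(.lf (nat_lit 6711058443) (dlOf (nat_lit 4) (nat_lit 0x200b00008054000c00a00cd30600060160066901000100b003340080008008003400200080008060a03))) 
(.lf (nat_lit 3491930123) (dlOf (nat_lit 1) (nat_lit 0x8008001c00200060008090003)))) 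
(.lf (nat_lit 3624051051) (dlOf (nat_lit 4) (nat_lit 0x100c0000bc0800580b8000c0300002904000a02d000300900009c1000080080010002000600080b0703)))) 
(.nd (nat_lit 11) 
(.lf (nat_lit 3490881547) (dlOf (nat_lit 5) (nat_lit 0x1e234000e10100010f680068560002c284000920600041ed0002d01000e118000000080008008004000200a40008030483))) 
(.lf (nat_lit 3492980747) (dlOf (nat_lit 2) (nat_lit 0x104000000288180f4700)))))) (.nd (nat_lit 8) 
(.nd (nat_lit 9) 
(.lf (nat_lit 6174187659) (dlOf (nat_lit 1) (nat_lit 0x28008001c00200080008080f03))) 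
(.nd (nat_lit 10) 
(.lf (nat_lit 4563577483) (dlOf (nat_lit 2) (nat_lit 0x81080005204000400200020008095482))) 
(.lf (nat_lit 2013439627) (dlOf (nat_lit 1) (nat_lit 0x20028093a01))))) (.nd (nat_lit 6) 
(.nd (nat_lit 5) (.lf (nat_lit 5637318027) (dlOf (nat_lit 1) (nat_lit 0x200180d3601))) 
(.lf (nat_lit 805485483) (dlOf (nat_lit 1) (nat_lit 0x1a000802640020084000811bd83)))) 
(.nd (nat_lit 21) (.lf (nat_lit 2013438411) (dlOf (nat_lit 1) (nat_lit 0x20008091101))) 
(.lf (nat_lit 3491930571) (dlOf (nat_lit 1) (nat_lit 0x60008090981)))))))) (.nd (nat_lit 5) 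
(.nd (nat_lit 20) (.nd (nat_lit 21) (.nd (nat_lit 7) (.nd (nat_lit 22) 
(.lf (nat_lit 3221921803) (dlOf (nat_lit 2) (nat_lit 0x9805e0000002006e00081b0001))) 
(.lf (nat_lit 21667851) (dlOf (nat_lit 2) (nat_lit 0x284c200142608037b0100078008000c002001c0008a60a03)))) 
(.lf (nat_lit 3490359691) (dlOf (nat_lit 1) (nat_lit 0x400200020008004e82)))) (.nd (nat_lit 22) 
(.nd (nat_lit 6) 
(.lf (nat_lit 3492454411) (dlOf (nat_lit 4) (nat_lit 0x543da0007f0200061ed0002c8100050f680000008007800801b000200ba00080d0483))) 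
(.lf (nat_lit 3492454475) (dlOf (nat_lit 2) (nat_lit 0x5f87ac00a03a40005604005000080d0d01)))) 
(.nd (nat_lit 9) (.lf (nat_lit 15376395) (dlOf (nat_lit 2) (nat_lit 0x64c5003040187e0480))) 
(.lf (nat_lit 57321995) (dlOf (nat_lit 1) (nat_lit 0x800400040009795002)))))) (.nd (nat_lit 7) 
(.nd (nat_lit 23) (.nd (nat_lit 24) 
(.lf (nat_lit 3842059) (dlOf (nat_lit 1) (nat_lit 0xa0008230081))) 
(.lf (nat_lit 54173707) (dlOf (nat_lit 1) (nat_lit 0x400400020009640102)))) (.nd (nat_lit 6) 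
(.lf (nat_lit 45785099) (dlOf (nat_lit 1) (nat_lit 0x20029360001))) 
(.lf (nat_lit 10133579) (dlOf (nat_lit 1) (nat_lit 0x7a00285b0901))))) (.nd (nat_lit 6) 
(.nd (nat_lit 8) (.lf (nat_lit 8042123) (dlOf (nat_lit 1) (nat_lit 0xc00400020018519e02))) 
(.lf (nat_lit 56273291) (dlOf (nat_lit 1) (nat_lit 0x10008006400200100009734e83)))) 
(.nd (nat_lit 22) (.lf (nat_lit 20624075) (dlOf (nat_lit 1) (nat_lit 0x4002000200089d8c82))) 
(.lf (nat_lit 8041163) (dlOf (nat_lit 1) (nat_lit 0x400200020008518c82))))))) (.nd (nat_lit 30) 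
(.nd (nat_lit 23) (.nd (nat_lit 6) (.nd (nat_lit 20) (.nd (nat_lit 22) (.nd (nat_lit 27) 
(.lf (nat_lit 806002731) (dlOf (nat_lit 20) (nat_lit 0x8e8158000680417600ac00560550134029803b00ac00240480b000130001986058302b0291004c000640813280ac08ae0130001882015f0128000b0080198094000560406900ac0001f02044e0560000f01004502b0000740805d8158000380404080ac0001b02028e0560000d01017502b0000640814c0158000300407b00ac000170202880560000b01016702b000054080d201580002804017c0ac000000200180018210601))) 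
(.lf (nat_lit 134914091) (dlOf (nat_lit 1) (nat_lit 0xc002000400080e0602)))) 
(.lf (nat_lit 21667883) (dlOf (nat_lit 9) (nat_lit 0x12608000a00800d13080004e04001c9840002602001e4c2000e26080009410003130800149820000c0400064c10000581001a2610000280800193080001204008800200080008a60d02)))) 
(.lf (nat_lit 3842091) (dlOf (nat_lit 7) (nat_lit 0x404c8000a25f800692f8000c95400044a9000e24b80071258001c61c003c97e000e20200024c90002263800292fc000497a00024a8000824b0001d830004931c001c97a00164a8000624b0001d420003931c003097a00144a8000a24b0001d020003931c001c97a00144a8000a24b0001cc200090008000c00200060008230b03)))) 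
(.lf (nat_lit 34251883) (dlOf (nat_lit 1) (nat_lit 0x5400400200018fb2982)))) (.nd (nat_lit 6) 
(.nd (nat_lit 20) 
(.lf (nat_lit 11182123) (dlOf (nat_lit 2) (nat_lit 0x15f880009e04000c00400020018670602))) 
(.lf (nat_lit 10133547) (dlOf (nat_lit 1) (nat_lit 0x1600285b0501)))) 
(.lf (nat_lit 42639467) (dlOf (nat_lit 1) (nat_lit 0x8008034800200020009260a03))))) 
(.nd (nat_lit 7) (.nd (nat_lit 20) 
(.lf (nat_lit 3221921835) (dlOf (nat_lit 21) (nat_lit 0x3d014403d806a0003704032a05600640088000d81001781580003604070c0ac014c0110000c0201c102b005380440002e0805d40ac003e03500a5008801180280002c1005e00ac010e03500a6008801180280002a1007080ac007605100f301a80538044008c014000140a052405403d30170000401011a8150032405e040a02e000078303bd0178000380802f00bc11b805c0000d0405080540200017000030100e10150016405e086a02e0000583010e017823700b8000140801740a8079e02f0467017000024180878100010c0700000804033e040004301c00001c1003b0100010c070000060401ba05401a5020002b80e40138070089802f04900170055805c032002801ba00f00030000000005040e80087280002044a00081b0603)))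 
(.lf (nat_lit 1343922219) (dlOf (nat_lit 1) (nat_lit 0x400400080018380e02)))) (.nd (nat_lit 6) 
(.lf (nat_lit 3490364331) (dlOf (nat_lit 1) (nat_lit 0x10001800bd81))) 
(.lf (nat_lit 1611311851) (dlOf (nat_lit 1) (nat_lit 0x18008000400200060008125a03)))))))) 
(.nd (nat_lit 6) (.nd (nat_lit 5) (.nd (nat_lit 24) (.nd (nat_lit 28) (.nd (nat_lit 20) 
(.nd (nat_lit 7) (.nd (nat_lit 27) 
(.lf (nat_lit 1074176011) (dlOf (nat_lit 1) (nat_lit 0x200080d0481))) 
(.lf (nat_lit 2819006475) (dlOf (nat_lit 4) (nat_lit 0xa00fc01a1a0403a807e00d0c02003e03f00685818150000)))) 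
(.lf (nat_lit 1745267083) (dlOf (nat_lit 1) (nat_lit 0x5800080064002011a00080e4e83)))) 
(.nd (nat_lit 19) (.lf (nat_lit 47620107) (dlOf (nat_lit 1) (nat_lit 0x8008000c00200060009400003))) 
(.lf (nat_lit 14589963) (dlOf (nat_lit 1) (nat_lit 0x300080004002000c0008770003))))) 
(.nd (nat_lit 7) (.nd (nat_lit 9) (.nd (nat_lit 27) 
(.lf (nat_lit 4563836939) (dlOf (nat_lit 4) (nat_lit 0x1d8062002c01c006ee0200490188037600800200a401980040170004016c00080f0a02))) 
(.lf (nat_lit 4698054667) (dlOf (nat_lit 4) (nat_lit 0x1d8062002c01c0049c0200490188024d00800200a400e56040170004016c00080f0a02)))) 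
(.lf (nat_lit 1345235467) (dlOf (nat_lit 2) (nat_lit 0x4030a0002802000a0008b05001)))) 
(.nd (nat_lit 8) (.lf (nat_lit 2550573195) (dlOf (nat_lit 1) (nat_lit 0x200080f4801))) 
(.lf (nat_lit 3490098571) (dlOf (nat_lit 1) (nat_lit 0x1b00008006c81)))))) (.nd (nat_lit 7) 
(.nd (nat_lit 19) (.nd (nat_lit 22) 
(.lf (nat_lit 26648587) (dlOf (nat_lit 1) (nat_lit 0x690008024c00200260008c50003))) 
(.lf (nat_lit 22454283) (dlOf (nat_lit 2) (nat_lit 0x445878005e00800d000800bc00200040008ae0483)))) 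
(.nd (nat_lit 20) (.lf (nat_lit 17735691) (dlOf (nat_lit 1) (nat_lit 0x80080008002000200088f0503))) 
(.lf (nat_lit 22978571) (dlOf (nat_lit 1) (nat_lit 0x8008000400200020008b40083))))) 
(.nd (nat_lit 21) (.nd (nat_lit 8) 
(.lf (nat_lit 54960267) (dlOf (nat_lit 1) (nat_lit 0x52000202ce0009680f02))) 
(.lf (nat_lit 60205451) (dlOf (nat_lit 1) (nat_lit 0x28008000c00200020009844e83)))) 
(.nd (nat_lit 10) (.lf (nat_lit 24027275) (dlOf (nat_lit 1) (nat_lit 0x38002000a0008b80102))) 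
(.lf (nat_lit 57058443) (dlOf (nat_lit 2) (nat_lit 0x2d4b40001c02000e0019792b01))))))) 
(.nd (nat_lit 19) (.nd (nat_lit 23) (.nd (nat_lit 27) 
(.lf (nat_lit 5637578795) (dlOf (nat_lit 1) (nat_lit 0xc0008110b81))) (.nd (nat_lit 30) 
(.lf (nat_lit 2819006507) (dlOf (nat_lit 34) (nat_lit 0x40e40bce03f0001a020021039000981a81ac007e0003306026e0720029035006a01a42c0807e0003208024e072002c035001a81a42d0007e0003108063a07200d3038809d01a805780d20c8603f000180505cf03902ab01c40f0c0da090006c04ef03502c701a400280ce0a9605d000402c8020816000b809401da048047e01f818d00f8132c03200d00000001790000203b831a01c812a40e205fc06d03e803601aa81a811340d20032067001002f02160174061c0b2009a058002102580158128024007c050601a043600c812b00000005c4808700e4001c06903d001f8000b41809001c800f80e200a606a0075034827480fc00f80320002c0c08c80720001581002f01b00440088000540809b40e4007003f0001402019703900009c0805101c8007807e0002504000c072000201f8000901009a01c80be007e0001a04009a03f0000c81039003904a780fc0003008065c07e0001702001403f0000b01003201f8000540802900fc0002804014407e0001302039407206ee01f8000481036d81c81e3c07e00011040b4403f000080103e3039031180fc0001e0806b807e0000e02075603f000060104b601f80002c0827200fc000140400100e40a6803f0000482041f039003781c405040d40d9403f0004011000000280df800813140020c440008150383)))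 
(.lf (nat_lit 3892748331) (dlOf (nat_lit 2) (nat_lit 0x100e0000b804000400400020008220802))))) 
(.nd (nat_lit 20) (.lf (nat_lit 13017131) (dlOf (nat_lit 1) (nat_lit 0x200186f0b01))) 
(.lf (nat_lit 26648619) (dlOf (nat_lit 12) (nat_lit 0x1477340018964800900000005e0c0166e6800152c90001702004db9a0000b4081cd5cd000058040b5ae680002b02034f7340001501009bb9a0000a408031dcd00003004008ae68000120200b7734000088100c3b9a000000080d68008011400206bc0008c50383))))) 
(.nd (nat_lit 20) (.nd (nat_lit 21) 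
(.lf (nat_lit 42901547) (dlOf (nat_lit 1) (nat_lit 0x400400020009290902))) 
(.lf (nat_lit 11444267) (dlOf (nat_lit 3) (nat_lit 0x60000000a0080178b440004a040004004000800186a0802)))) 
(.nd (nat_lit 21) 
(.lf (nat_lit 14589995) (dlOf (nat_lit 3) (nat_lit 0x2124c0005e0400649260002e0200040028770381))) 
(.lf (nat_lit 4104235) (dlOf (nat_lit 2) (nat_lit 0x3800000019818280600))))))) (.nd (nat_lit 7) 
(.nd (nat_lit 25) (.nd (nat_lit 8) (.nd (nat_lit 29) (.nd (nat_lit 20) 
(.lf (nat_lit 1074176075) (dlOf (nat_lit 1) (nat_lit 0x200180d0d01))) 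
(.lf (nat_lit 26648651) (dlOf (nat_lit 1) (nat_lit 0x2a0008c50681)))) (.nd (nat_lit 5) 
(.lf (nat_lit 2819006539) (dlOf (nat_lit 3) (nat_lit 0xb20390000d4080d281c80002e04003800400940018150682))) 
(.lf (nat_lit 805740651) (dlOf (nat_lit 1) (nat_lit 0x700080014002000800081a0003))))) 
(.nd (nat_lit 5) (.nd (nat_lit 9) 
(.lf (nat_lit 537829707) (dlOf (nat_lit 8) (nat_lit 0x1740ea0004b02014a0000002501005303a8000800000092080240000000480201a40000001f8100c90000000f80805600000007a040074002000200081b0602))) 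
(.lf (nat_lit 19839819) (dlOf (nat_lit 1) (nat_lit 0x400189dbc81)))) 
(.lf (nat_lit 3493241195) (dlOf (nat_lit 1) (nat_lit 0x588008000400200940008105503))))) 
(.nd (nat_lit 10) (.nd (nat_lit 9) 
(.lf (nat_lit 43425867) (dlOf (nat_lit 1) (nat_lit 0x2400292a0001))) 
(.lf (nat_lit 44477003) (dlOf (nat_lit 1) (nat_lit 0x800400020009325282)))) (.nd (nat_lit 5) 
(.lf (nat_lit 38184011) (dlOf (nat_lit 1) (nat_lit 0x20019132881))) 
(.lf (nat_lit 38184043) (dlOf (nat_lit 1) (nat_lit 0x800200020009132982)))))) (.nd (nat_lit 8) 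
(.nd (nat_lit 19) (.nd (nat_lit 20) 
(.lf (nat_lit 1611047115) (dlOf (nat_lit 2) (nat_lit 0x403f000060180c1780))) 
(.lf (nat_lit 1343660235) (dlOf (nat_lit 2) (nat_lit 0x142c2000c09d00010470006501800c80080014002003000082e0483)))) 
(.nd (nat_lit 10) 
(.lf (nat_lit 18784459) (dlOf (nat_lit 1) (nat_lit 0xa0008000400200100008970483))) 
(.lf (nat_lit 61777099) (dlOf (nat_lit 1) (nat_lit 0x36000801cc002005a0009922d83))))) 
(.nd (nat_lit 5) (.nd (nat_lit 11) 
(.lf (nat_lit 5772321227) (dlOf (nat_lit 18) (nat_lit 0x3e827e01de132000228200bc09f805804c8000860803f427e01f01320001b02010909f808304c80006808043427e0208132000150200fb09f807884c80004608044427e020c132000100200c409f806084c80003e08015827e00a61320000e82011309f808484c80003808030c27e01821320000d02005809f802a04c80003208089c27c045a13101a70980000501808604c4000260400c42620001202027213e01430988000241006a84f80374262000000400740018091101))) 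
(.lf (nat_lit 40282571) (dlOf (nat_lit 1) (nat_lit 0x4004000200091f4e82)))) 
(.lf (nat_lit 5772321259) (dlOf (nat_lit 1) (nat_lit 0x180018091381)))))))) (.nd (nat_lit 27) 
(.nd (nat_lit 30) (.nd (nat_lit 29) (.nd (nat_lit 28) (.nd (nat_lit 6) (.nd (nat_lit 5) 
(.lf (nat_lit 4362510347) (dlOf (nat_lit 1) (nat_lit 0x60028090001))) 
(.lf (nat_lit 4362772523) (dlOf (nat_lit 4) (nat_lit 0x20056000570200aa02b0002a0100660158000cc0802380080188002003800080f0d03)))) 
(.nd (nat_lit 8) (.lf (nat_lit 4362248779) (dlOf (nat_lit 2) (nat_lit 0x4e0540000f018018d00))) 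
(.lf (nat_lit 4362248523) (dlOf (nat_lit 1) (nat_lit 0x6000800c000200180008014c83))))) 
(.nd (nat_lit 5) (.nd (nat_lit 7) 
(.lf (nat_lit 4630683659) (dlOf (nat_lit 3) (nat_lit 0x3a014004a881001400a00008010012a008005400200140008060a02))) 
(.lf (nat_lit 335719051) (dlOf (nat_lit 1) (nat_lit 0x18008000400200020008095483)))) 
(.nd (nat_lit 6) 
(.lf (nat_lit 4630683691) (dlOf (nat_lit 3) (nat_lit 0xcc0140001c81002a00a0000e00800400080050002001e0008060d03))) 
(.lf (nat_lit 335719019) (dlOf (nat_lit 1) (nat_lit 0xc00400020008095382)))))) (.nd (nat_lit 8) 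
(.nd (nat_lit 11) (.nd (nat_lit 6) (.nd (nat_lit 19) 
(.lf (nat_lit 2752684043) (dlOf (nat_lit 5) (nat_lit 0x1e24c000e10100010ff80068574002c284000920600041ff0002c01000e124000000080008008004000200a40008030483))) 
(.lf (nat_lit 2754256907) (dlOf (nat_lit 4) (nat_lit 0x543fe0007f0200061ff0002b8100050ff80000008007800801b000200ba00080d0483)))) 
(.lf (nat_lit 2754256971) (dlOf (nat_lit 2) (nat_lit 0x5f87f400a03ce0004f04005000080d0d01)))) 
(.nd (nat_lit 5) 
(.lf (nat_lit 2751641611) (dlOf (nat_lit 1) (nat_lit 0x20008005c002000c000800a603))) 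
(.lf (nat_lit 2751641643) (dlOf (nat_lit 1) (nat_lit 0x800803f800200a4000800a603))))) 
(.nd (nat_lit 5) (.nd (nat_lit 28) 
(.lf (nat_lit 604416395) (dlOf (nat_lit 1) (nat_lit 0x80028204e81))) 
(.lf (nat_lit 872851851) (dlOf (nat_lit 1) (nat_lit 0x60002001000080e4e82)))) (.nd (nat_lit 6) 
(.lf (nat_lit 604414251) (dlOf (nat_lit 1) (nat_lit 0x20028200b01))) (.nd (nat_lit 11) 
(.lf (nat_lit 2755043691) (dlOf (nat_lit 1) (nat_lit 0x588008000400200940008105503))) 
(.lf (nat_lit 2751641963) (dlOf (nat_lit 1) (nat_lit 0x36001800ac01)))))))) (.nd (nat_lit 28) 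
(.nd (nat_lit 5) (.nd (nat_lit 6) (.nd (nat_lit 7) 
(.lf (nat_lit 1678155787) (dlOf (nat_lit 1) (nat_lit 0x600281a0001))) 
(.lf (nat_lit 1141025675) (dlOf (nat_lit 1) (nat_lit 0x800800ac00200680008095c83)))) 
(.nd (nat_lit 7) (.nd (nat_lit 10) 
(.lf (nat_lit 5435990347) (dlOf (nat_lit 1) (nat_lit 0x60018090d01))) 
(.lf (nat_lit 3825380683) (dlOf (nat_lit 1) (nat_lit 0xe0028146a01)))) 
(.lf (nat_lit 1141025739) (dlOf (nat_lit 1) (nat_lit 0x20018095d81))))) (.nd (nat_lit 7) 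
(.nd (nat_lit 6) 
(.lf (nat_lit 1678417963) (dlOf (nat_lit 20) (nat_lit 0x8e8158000660417600ac00560550134029803b00ac00240480b000130001906058302b0291004c000620813280ac08ae0130001802015f0128000ac080198094000540406900ac0001f02044e0560000f01004502b0000740805d8158000380404080ac0001b02028e0560000d01017502b0000640814c0158000300407b00ac000170202880560000b01016702b000054080d201580002804017c0ac000000200180018210601))) 
(.lf (nat_lit 1677895787) (dlOf (nat_lit 2) (nat_lit 0xe0000001c20400b000200020008114702)))) 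
(.nd (nat_lit 8) (.lf (nat_lit 3288506539) (dlOf (nat_lit 2) (nat_lit 0x1203500263018044c00))) 
(.lf (nat_lit 1677895595) (dlOf (nat_lit 1) (nat_lit 0x20028114301)))))) (.nd (nat_lit 18) 
(.nd (nat_lit 7) (.nd (nat_lit 8) 
(.lf (nat_lit 6241299467) (dlOf (nat_lit 1) (nat_lit 0x4002000200080d5f82))) 
(.lf (nat_lit 6241299211) (dlOf (nat_lit 1) (nat_lit 0x1d400180d5b01)))) (.nd (nat_lit 5) 
(.lf (nat_lit 5704425611) (dlOf (nat_lit 2) (nat_lit 0x4046007a01d003f00d8010006000ec02e0078008003b0038000c838004000800ac002000a0008070f03))) 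
(.lf (nat_lit 4093815531) (dlOf (nat_lit 1) (nat_lit 0x80028005a01))))) (.nd (nat_lit 5) 
(.nd (nat_lit 6) (.lf (nat_lit 1946591243) (dlOf (nat_lit 1) (nat_lit 0x200080d0481))) 
(.lf (nat_lit 1946591307) (dlOf (nat_lit 1) (nat_lit 0x200180d0d01)))) (.nd (nat_lit 6) 
(.lf (nat_lit 6241558571) (dlOf (nat_lit 1) (nat_lit 0xc0008110b81))) 
(.lf (nat_lit 1410244971) (dlOf (nat_lit 5) (nat_lit 0x38077000b0330000d01000e01dc00200cc00032040014076001100000007c1000180000003c040068002000200081b0702)))))))) 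
(.nd (nat_lit 5) (.nd (nat_lit 28) (.nd (nat_lit 6) (.nd (nat_lit 31) (.nd (nat_lit 8) 
(.lf (nat_lit 6107078667) (dlOf (nat_lit 4) (nat_lit 0x200b00008054000c00a00758060006016003ab81000100b001d54080008008003400200080008060a03))) 
(.lf (nat_lit 738369803) (dlOf (nat_lit 2) (nat_lit 0x48130002b804003000400140008090a82)))) 
(.nd (nat_lit 10) 
(.lf (nat_lit 3960119307) (dlOf (nat_lit 2) (nat_lit 0x9805e0000002006e00081b0001))) 
(.lf (nat_lit 3959596043) (dlOf (nat_lit 2) (nat_lit 0x8800002bac04006c002000c0008112882))))) 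
(.nd (nat_lit 8) (.nd (nat_lit 7) (.nd (nat_lit 18) 
(.lf (nat_lit 201499211) (dlOf (nat_lit 7) (nat_lit 0x2c02f0003401000a01780019c0800a80bc000cc04001c0940004202002402f000208100150178000fc0800700080060002004a0008018d03))) 
(.lf (nat_lit 2886115915) (dlOf (nat_lit 6) (nat_lit 0x2580280006b0201220140003501000a00a00018c080490050000c20400cc014000390200920028158d01)))) 
(.lf (nat_lit 2885853387) (dlOf (nat_lit 2) (nat_lit 0x1f0000003a2040148002005a00080b0482)))) 
(.nd (nat_lit 31) 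
(.lf (nat_lit 738369867) (dlOf (nat_lit 1) (nat_lit 0x98008000400200040008090d03))) 
(.lf (nat_lit 2885853515) (dlOf (nat_lit 1) (nat_lit 0x200280b0601)))))) (.nd (nat_lit 6) 
(.nd (nat_lit 7) (.nd (nat_lit 19) 
(.lf (nat_lit 4764901387) (dlOf (nat_lit 3) (nat_lit 0x3a014006fa81001400a0000801001be808005400200140008060a02))) 
(.lf (nat_lit 472555531) (dlOf (nat_lit 1) (nat_lit 0x8008001c002000800089c0003)))) 
(.nd (nat_lit 9) (.lf (nat_lit 1543679371) (dlOf (nat_lit 1) (nat_lit 0x480028146c81))) 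
(.lf (nat_lit 3154294667) (dlOf (nat_lit 1) (nat_lit 0x2001815a301))))) (.nd (nat_lit 8) 
(.nd (nat_lit 7) (.nd (nat_lit 11) 
(.lf (nat_lit 4228031051) (dlOf (nat_lit 1) (nat_lit 0x38008001400200080008018b03))) 
(.lf (nat_lit 472296011) (dlOf (nat_lit 2) (nat_lit 0x2850c000000400bc004000a0008985282)))) 
(.lf (nat_lit 6377349323) (dlOf (nat_lit 1) (nat_lit 0x4004000200080c1b82)))) (.nd (nat_lit 10) 
(.lf (nat_lit 4228030795) (dlOf (nat_lit 1) (nat_lit 0x6000800c000200180008014c83))) 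
(.lf (nat_lit 1543679307) (dlOf (nat_lit 1) (nat_lit 0x8e0028146a01))))))) (.nd (nat_lit 7) 
(.nd (nat_lit 29) (.nd (nat_lit 28) (.nd (nat_lit 18) 
(.lf (nat_lit 202022955) (dlOf (nat_lit 1) (nat_lit 0xc002000400080e0602))) 
(.lf (nat_lit 4496728107) (dlOf (nat_lit 1) (nat_lit 0xa0028160481)))) (.nd (nat_lit 9) 
(.nd (nat_lit 30) 
(.lf (nat_lit 4764901419) (dlOf (nat_lit 3) (nat_lit 0xcc0140001c81002a00a0000e00800400080050002001e0008060d03))) 
(.lf (nat_lit 3691159595) (dlOf (nat_lit 15) (nat_lit 0x10700e8000c4080ed007400060040564050034601d00cf00e000c005805b4008008e0030001786005701400b000740308038001801601840020000800c0005c18035003a0102004000168202df00e800400700ce402c0002c06059401d007000e01350058000560c050c03a024401600560020000a8180580074014c02c0002904017c01d005a00e00070058045c00800580030000c05006200e800e8070000240805f403a009601c0000882000700e8000400807a807400d803800fa01600560020000002001d8008002400200f20008050383)))) 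
(.lf (nat_lit 2617418283) (dlOf (nat_lit 1) (nat_lit 0x4004000200080a1482))))) (.nd (nat_lit 19) 
(.nd (nat_lit 6) 
(.lf (nat_lit 1006805035) (dlOf (nat_lit 2) (nat_lit 0x308a000060080010008000c002000200080a0803))) 
(.lf (nat_lit 4228292715) (dlOf (nat_lit 1) (nat_lit 0x80028090001)))) (.nd (nat_lit 28) 
(.lf (nat_lit 3960119339) (dlOf (nat_lit 21) (nat_lit 0x3d014403d806a0003804032a05600640088000d81001781580003604070c0ac014c0110000c0201c102b005380440002e0805d40ac003e03500a5008801180280002c1005e00ac010e03500a6008801180280002a1007080ac007605100f301a80538044008c014000140a052405403d301700004c1011a8150032405e040a02e000078303bd0178000380802f00bc11b805c0000d0403840540059017821a80b8000180c0a100a8040002e0000582010e017823700b8000140801740a8079e02f0467017000024180878100010c0700000804033e040004301c00001c1003b0100010c070000060401ba05401a5020002b80e40138070089802f04900170055805c032002801ba00f00030000000005040e80087280002044a00081b0603))) 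
(.nd (nat_lit 30) 
(.lf (nat_lit 3154812971) (dlOf (nat_lit 6) (nat_lit 0x700c800400600006208001c032000a0180001782000700c00005c0800380640002204002c0320000f0200560008330b01))) 
(.lf (nat_lit 4228554795) (dlOf (nat_lit 10) (nat_lit 0xb780a8000ae0405c40540005402001602a0002981009d0150000e0080ba00a80006e0400d40540003602030e02a000198100320150000c80802d00a8000620400a8004001000180f0c02))))))) 
(.nd (nat_lit 6) (.nd (nat_lit 18) (.nd (nat_lit 12) 
(.lf (nat_lit 201499051) (dlOf (nat_lit 2) (nat_lit 0x1807600a340200040008017181))) 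
(.lf (nat_lit 3154293163) (dlOf (nat_lit 1) (nat_lit 0x20008158481)))) (.nd (nat_lit 8) 
(.lf (nat_lit 738631851) (dlOf (nat_lit 1) (nat_lit 0x124004005a00080c1502))) 
(.lf (nat_lit 201761195) (dlOf (nat_lit 1) (nat_lit 0x40018090781))))) (.nd (nat_lit 8) 
(.nd (nat_lit 10) (.lf (nat_lit 3154292971) (dlOf (nat_lit 1) (nat_lit 0x4400200020008158082))) 
(.lf (nat_lit 1543679211) (dlOf (nat_lit 1) (nat_lit 0x20028146501)))) (.nd (nat_lit 9) 
(.nd (nat_lit 29) (.lf (nat_lit 469934571) (dlOf (nat_lit 1) (nat_lit 0x20018017d01))) 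
(.lf (nat_lit 4228030955) (dlOf (nat_lit 2) (nat_lit 0xcc09e012002a00033028017300)))) 
(.lf (nat_lit 472818667) (dlOf (nat_lit 1) (nat_lit 0x20018b02881)))))))))) (.nd (nat_lit 5) 
(.nd (nat_lit 6) (.nd (nat_lit 18) (.nd (nat_lit 19) (.nd (nat_lit 11) (.nd (nat_lit 28) 
(.nd (nat_lit 7) (.lf (nat_lit 44277771) (dlOf (nat_lit 1) (nat_lit 0x24600092e0001))) 
(.nd (nat_lit 20) (.lf (nat_lit 2334859) (dlOf (nat_lit 1) (nat_lit 0x8008000400200020008150103))) 
(.lf (nat_lit 22257803) (dlOf (nat_lit 1) (nat_lit 0x20018ab3d01))))) (.nd (nat_lit 9) 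
(.nd (nat_lit 26) 
(.lf (nat_lit 1342414859) (dlOf (nat_lit 3) (nat_lit 0x100247000e501001a123800610080028008000400200560008020483))) 
(.nd (nat_lit 31) 
(.lf (nat_lit 469999627) (dlOf (nat_lit 3) (nat_lit 0x1002470009c81001a1238003cc080028008000400200560008020483))) 
(.lf (nat_lit 2617483275) (dlOf (nat_lit 1) (nat_lit 0x80080008002000400080c0283))))) 
(.nd (nat_lit 29) 
(.lf (nat_lit 2416157195) (dlOf (nat_lit 2) (nat_lit 0x150025010b012006a0084002ca0c003c00400040018090d82))) 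
(.lf (nat_lit 4026769931) (dlOf (nat_lit 3) (nat_lit 0x7c010008ec064055c02b02300120068007c0a6801a008c000000b287006700580039008024800802f4002003e0008090d83)))))) 
(.nd (nat_lit 7) (.nd (nat_lit 8) (.nd (nat_lit 10) 
(.lf (nat_lit 3493046283) (dlOf (nat_lit 4) (nat_lit 0x2403a00055020010022004300e8001501000b00a001bc03a0005104000e00180f4701))) 
(.lf (nat_lit 6308473867) (dlOf (nat_lit 1) (nat_lit 0x600080d5f81)))) 
(.lf (nat_lit 5100514059) (dlOf (nat_lit 1) (nat_lit 0x80080004002000200080d5b03)))) 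
(.nd (nat_lit 9) (.lf (nat_lit 2754849163) (dlOf (nat_lit 1) (nat_lit 0x4002000200080f4e82))) 
(.nd (nat_lit 26) (.lf (nat_lit 6308473739) (dlOf (nat_lit 1) (nat_lit 0x4004000200080d5c82))) 
(.lf (nat_lit 5570276235) (dlOf (nat_lit 1) (nat_lit 0x100080004002000200080d5c83))))))) 
(.nd (nat_lit 11) (.nd (nat_lit 20) (.nd (nat_lit 9) (.nd (nat_lit 26) 
(.lf (nat_lit 2819334155) (dlOf (nat_lit 1) (nat_lit 0x70008002c00200100008240283))) 
(.lf (nat_lit 3557531659) (dlOf (nat_lit 1) (nat_lit 0x70008002c00200100008240283)))) 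
(.lf (nat_lit 762379) (dlOf (nat_lit 1) (nat_lit 0x400200020008018002)))) (.nd (nat_lit 7) 
(.nd (nat_lit 10) (.lf (nat_lit 1343987723) (dlOf (nat_lit 1) (nat_lit 0x400400020008390582))) 
(.lf (nat_lit 50045963) (dlOf (nat_lit 1) (nat_lit 0xa00294c2881)))) (.nd (nat_lit 8) 
(.lf (nat_lit 12296331) (dlOf (nat_lit 1) (nat_lit 0x200286c0101))) 
(.lf (nat_lit 20689803) (dlOf (nat_lit 1) (nat_lit 0x180080018002000a00089d9003)))))) 
(.nd (nat_lit 7) (.nd (nat_lit 8) (.nd (nat_lit 9) 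
(.lf (nat_lit 134981643) (dlOf (nat_lit 3) (nat_lit 0x380940014f02001c04a000a68180f4700))) 
(.lf (nat_lit 8108555) (dlOf (nat_lit 1) (nat_lit 0x580080034002000e000851b283)))) 
(.lf (nat_lit 67877643) (dlOf (nat_lit 1) (nat_lit 0x2001833b981)))) (.nd (nat_lit 8) 
(.lf (nat_lit 67877003) (dlOf (nat_lit 1) (nat_lit 0x18002833a881))) (.nd (nat_lit 9) 
(.lf (nat_lit 4362840459) (dlOf (nat_lit 1) (nat_lit 0x800400020008114e82))) 
(.lf (nat_lit 202095499) (dlOf (nat_lit 1) (nat_lit 0x400180fbc81)))))))) (.nd (nat_lit 7) 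
(.nd (nat_lit 21) (.nd (nat_lit 28) (.nd (nat_lit 19) 
(.lf (nat_lit 9936907) (dlOf (nat_lit 1) (nat_lit 0x400200020008590082))) (.nd (nat_lit 20) 
(.lf (nat_lit 17801227) (dlOf (nat_lit 2) (nat_lit 0x95e4000230188f0500))) 
(.lf (nat_lit 14655499) (dlOf (nat_lit 1) (nat_lit 0x400200020008770002))))) (.nd (nat_lit 11) 
(.nd (nat_lit 27) 
(.lf (nat_lit 2416418827) (dlOf (nat_lit 5) (nat_lit 0x18048000c022000e00f0006006802b7c20002003c000801a00ade04000801200040088004803c002001a00adc08000401200030088003803c001c01a00ada08000800081c0681))) 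
(.lf (nat_lit 2550636555) (dlOf (nat_lit 5) (nat_lit 0x18048000c022000e00f000600680159020002003c000801a0056304000801200040088004803c002001a0056108000401200030088003803c001c01a0055f08000800081c0681)))) 
(.nd (nat_lit 9) 
(.lf (nat_lit 1946658827) (dlOf (nat_lit 3) (nat_lit 0x8000000a204013c05e01da02600e60070077802c0009c100008002000c00080f4702))) 
(.lf (nat_lit 1476897291) (dlOf (nat_lit 5) (nat_lit 0x26036001f0118000a81000b80fc00600380002904000403600020118000a01000700d80003e04010c004000800082d5002)))))) 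
(.nd (nat_lit 19) (.nd (nat_lit 22) (.nd (nat_lit 24) 
(.lf (nat_lit 2596875) (dlOf (nat_lit 5) (nat_lit 0x1d2200016900001b474000b9db00718840001d220001e900001b474000d9db00718040005d220001e900001b474000d9db00717840006d2200026900001b474000d9db00717048170000))) 
(.lf (nat_lit 19374091) (dlOf (nat_lit 1) (nat_lit 0x560008990581)))) 
(.lf (nat_lit 15179787) (dlOf (nat_lit 2) (nat_lit 0x6ca7e0000d2c40179e080018004000400087c0482)))) 
(.nd (nat_lit 8) 
(.lf (nat_lit 46112779) (dlOf (nat_lit 2) (nat_lit 0x7b108002d7f8001a95c001548c0006000005f88280048008002c00200360009380003))) 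
(.lf (nat_lit 19901195) (dlOf (nat_lit 1) (nat_lit 0x50002001600089d5b02)))))) (.nd (nat_lit 8) 
(.nd (nat_lit 10) (.nd (nat_lit 19) (.nd (nat_lit 26) 
(.lf (nat_lit 134717579) (dlOf (nat_lit 2) (nat_lit 0x3803b0001b018090100))) 
(.lf (nat_lit 201826443) (dlOf (nat_lit 2) (nat_lit 0x3803b0001b018090100)))) 
(.lf (nat_lit 2072715) (dlOf (nat_lit 2) (nat_lit 0x1e15e40003b0200060028150101)))) 
(.nd (nat_lit 21) 
(.lf (nat_lit 604480651) (dlOf (nat_lit 4) (nat_lit 0x400c0001003c000a0000000303000801800028078000c0000000506000c030000700f00028000000000c0038004001600182d2b02))) 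
(.lf (nat_lit 40346763) (dlOf (nat_lit 1) (nat_lit 0x10004000a00091f2b02))))) (.nd (nat_lit 9) 
(.lf (nat_lit 1074243979) (dlOf (nat_lit 1) (nat_lit 0x54002000e00080f4e82))) 
(.lf (nat_lit 1074248587) (dlOf (nat_lit 1) (nat_lit 0x1400280fbc81))))))) (.nd (nat_lit 18) 
(.nd (nat_lit 20) (.nd (nat_lit 9) (.nd (nat_lit 19) (.nd (nat_lit 27) (.nd (nat_lit 7) 
(.lf (nat_lit 4563640395) (dlOf (nat_lit 2) (nat_lit 0x84019006780b400a00560102015002c0090000cc2805e000800dc002008c00080b0603))) 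
(.lf (nat_lit 1409524171) (dlOf (nat_lit 1) (nat_lit 0xc00400a60008017102)))) (.nd (nat_lit 28) 
(.lf (nat_lit 6040035403) (dlOf (nat_lit 1) (nat_lit 0x400180b0001))) 
(.lf (nat_lit 4697858123) (dlOf (nat_lit 2) (nat_lit 0x84019006780b400a00560102015002c0090000c82805e000800dc002008c00080b0603))))) 
(.nd (nat_lit 24) (.nd (nat_lit 26) 
(.lf (nat_lit 3492520011) (dlOf (nat_lit 2) (nat_lit 0x1201eb00100e90001581000100080010002000400080d0d03))) 
(.lf (nat_lit 2754322507) (dlOf (nat_lit 2) (nat_lit 0x1201fd00100f380013c1000100080010002000400080d0d03)))) 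
(.lf (nat_lit 53190731) (dlOf (nat_lit 1) (nat_lit 0x118008000400200020009570003))))) 
(.nd (nat_lit 28) (.nd (nat_lit 29) (.nd (nat_lit 7) 
(.lf (nat_lit 23306827) (dlOf (nat_lit 1) (nat_lit 0x5400200ea0008b81182))) 
(.lf (nat_lit 8630987) (dlOf (nat_lit 1) (nat_lit 0x400200020008518c82)))) (.nd (nat_lit 26) 
(.lf (nat_lit 537109067) (dlOf (nat_lit 1) (nat_lit 0x100008018d01))) 
(.lf (nat_lit 1677959755) (dlOf (nat_lit 4) (nat_lit 0x2e051000901d00008c10065014401c4096013603a0000f03001a028800680e8000380800dc002000c0008128d02))))) 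
(.nd (nat_lit 27) (.lf (nat_lit 2416157259) (dlOf (nat_lit 1) (nat_lit 0xc00400080008091182))) 
(.lf (nat_lit 2550374987) (dlOf (nat_lit 1) (nat_lit 0xc00400080008091182)))))) (.nd (nat_lit 19) 
(.nd (nat_lit 24) (.nd (nat_lit 8) (.nd (nat_lit 9) 
(.lf (nat_lit 43229259) (dlOf (nat_lit 1) (nat_lit 0x200292a0001))) 
(.lf (nat_lit 9675339) (dlOf (nat_lit 4) (nat_lit 0x59df80004604033cefc0001e02001477e0000e018578d00)))) 
(.lf (nat_lit 3490947403) (dlOf (nat_lit 1) (nat_lit 0x400400020008048002)))) (.nd (nat_lit 7) 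
(.lf (nat_lit 22257995) (dlOf (nat_lit 1) (nat_lit 0x10008000800200040008ab8003))) (.nd (nat_lit 9) 
(.lf (nat_lit 22257867) (dlOf (nat_lit 1) (nat_lit 0x18008000400200020008ab5a83))) 
(.lf (nat_lit 20165323) (dlOf (nat_lit 1) (nat_lit 0x80080004002000200089d8c83)))))) 
(.nd (nat_lit 8) (.nd (nat_lit 9) 
(.lf (nat_lit 45850699) (dlOf (nat_lit 1) (nat_lit 0x800400040019360602))) (.nd (nat_lit 10) 
(.lf (nat_lit 58436171) (dlOf (nat_lit 1) (nat_lit 0x2a00297e5281))) 
(.lf (nat_lit 8107595) (dlOf (nat_lit 1) (nat_lit 0x400400020008519c02))))) (.nd (nat_lit 7) 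
(.lf (nat_lit 8105803) (dlOf (nat_lit 1) (nat_lit 0x60018517781))) (.nd (nat_lit 11) 
(.lf (nat_lit 8102347) (dlOf (nat_lit 1) (nat_lit 0x400200020008511102))) 
(.lf (nat_lit 58436043) (dlOf (nat_lit 1) (nat_lit 0x4004000200097e4e82)))))))) (.nd (nat_lit 21) 
(.nd (nat_lit 8) (.nd (nat_lit 26) (.nd (nat_lit 7) (.nd (nat_lit 23) 
(.lf (nat_lit 21995595) (dlOf (nat_lit 1) (nat_lit 0x28008007800200500008a80f83))) 
(.lf (nat_lit 13606987) (dlOf (nat_lit 19) (nat_lit 0x1d0e310160ef540009808074f8c405f7bd50002582003ce3101616f5400094080b0b7aa00049020299bd50002401006ddeb00011c0814a718c08337ac000460400efc6300b7deb000114100666f580008804014f8dc075fc63033cdeb0001081807bef580008204120f8c60861bd600020020326e3181abef580007e080c078c605c3bd60001f02021ce318104ef580007a0801278c600f1bd60001e020013e3180006808085f18c03e37ac000000400100028730d01)))) 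
(.lf (nat_lit 805806283) (dlOf (nat_lit 18) (nat_lit 0x31813c0178070015a02600124830007027800100e0012404c0024706001a0400012181002b0000008a80800f00000045004005c04c001fc020058026000f9010040027801f00e0023c04c001f00600d804c00ae0240057811c01a806a009003400ba012805a80900038e1c01900980134047004001a005000900038c10006009800b4048005b023800a80d4014c06800c0025005a012002b80180038a20017009800f0047005c01a804e0090003861000a8098007a035002a0128006f4180068110002e604003805a0009402001c02d0004981000e0168000000803a000800d8002002800081a0483)))) 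
(.nd (nat_lit 7) (.nd (nat_lit 9) 
(.lf (nat_lit 69181515) (dlOf (nat_lit 1) (nat_lit 0x600088c0601))) 
(.lf (nat_lit 2752488011) (dlOf (nat_lit 4) (nat_lit 0x839c000d00400141ce000420200500a50001c818018d00)))) 
(.lf (nat_lit 1678221515) (dlOf (nat_lit 18) (nat_lit 0x31813c0178070015a02600124830007027800100e0012404c0024706001a0400012181002b0000008a80800f00000045004005c04c001fa020058026000f9810040027801f00e0023c04c001f00600d804c00ae0240057811c01a806a009003400ba012805a80900038e1c01900980134047004001a005000900038c10006009800b4048005b023800a80d4014c06800c0025005a012002b80180038a20017009800f0047005c01a804e0090003861000a8098007a035002a0128006f4180068110002e204003805a0009402001c02d0004981000e0168000000803a000800d8002002800081a0483))))) 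
(.nd (nat_lit 29) (.nd (nat_lit 7) (.nd (nat_lit 12) 
(.lf (nat_lit 4698121547) (dlOf (nat_lit 1) (nat_lit 0x400400020008123302))) 
(.lf (nat_lit 505163) (dlOf (nat_lit 1) (nat_lit 0x20028009901)))) 
(.lf (nat_lit 3490685387) (dlOf (nat_lit 1) (nat_lit 0x20028017101)))) (.nd (nat_lit 26) 
(.lf (nat_lit 805806411) (dlOf (nat_lit 2) (nat_lit 0x800000000002003000081a0601))) 
(.nd (nat_lit 28) 
(.lf (nat_lit 1678221643) (dlOf (nat_lit 2) (nat_lit 0x800000000002003000081a0601))) 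
(.lf (nat_lit 872915275) (dlOf (nat_lit 1) (nat_lit 0x400200020008108802))))))) (.nd (nat_lit 7) 
(.nd (nat_lit 19) (.nd (nat_lit 20) (.nd (nat_lit 22) 
(.lf (nat_lit 1009229899) (dlOf (nat_lit 4) (nat_lit 0x440e3002403b00050c10014838c00c80ec000cd0400540e3003503b0003301002a00080018002005800090a0603))) 
(.lf (nat_lit 48734283) (dlOf (nat_lit 3) (nat_lit 0x3ebc00015549000a602001caf0000c55240028608016000400740019420602)))) 
(.lf (nat_lit 37199947) (dlOf (nat_lit 1) (nat_lit 0x4002000a00090b0602)))) (.nd (nat_lit 12) 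
(.nd (nat_lit 23) 
(.lf (nat_lit 473931851) (dlOf (nat_lit 2) (nat_lit 0x8857c00801ae001560400020018fc0601))) 
(.lf (nat_lit 12558411) (dlOf (nat_lit 1) (nat_lit 0x4004000200086d0f02)))) (.nd (nat_lit 8) 
(.lf (nat_lit 8369227) (dlOf (nat_lit 1) (nat_lit 0x60028519301))) 
(.lf (nat_lit 3492788555) (dlOf (nat_lit 1) (nat_lit 0x80080004002000200080fab83)))))) 
(.nd (nat_lit 8) (.nd (nat_lit 9) (.nd (nat_lit 26) 
(.lf (nat_lit 3493830859) (dlOf (nat_lit 1) (nat_lit 0x4002000600081b0482))) 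
(.lf (nat_lit 2755633355) (dlOf (nat_lit 1) (nat_lit 0x4002000600081b0482)))) 
(.lf (nat_lit 19903179) (dlOf (nat_lit 1) (nat_lit 0x4002000200089d8c82)))) (.nd (nat_lit 9) 
(.lf (nat_lit 24093131) (dlOf (nat_lit 1) (nat_lit 0x280008b80981))) (.nd (nat_lit 10) 
(.lf (nat_lit 57123787) (dlOf (nat_lit 1) (nat_lit 0x20019792881))) 
(.lf (nat_lit 3492788171) (dlOf (nat_lit 1) (nat_lit 0xe00180fa601)))))))))) (.nd (nat_lit 7) 
(.nd (nat_lit 18) (.nd (nat_lit 26) (.nd (nat_lit 6) (.nd (nat_lit 28) (.nd (nat_lit 19) 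
(.nd (nat_lit 8) (.nd (nat_lit 23) 
(.lf (nat_lit 3355680811) (dlOf (nat_lit 1) (nat_lit 0x200180c0b01))) 
(.lf (nat_lit 25403435) (dlOf (nat_lit 3) (nat_lit 0x53b0ac0009e04006997e0006c82000a6140000cc180020008000c002000a0008c00603)))) 
(.lf (nat_lit 2281939755) (dlOf (nat_lit 1) (nat_lit 0x400280a2201)))) (.nd (nat_lit 11) 
(.nd (nat_lit 20) 
(.lf (nat_lit 21733419) (dlOf (nat_lit 5) (nat_lit 0x384ec000520400242760002802000e13b0000601000709d80002c080008008000c002000a0008a60d03))) 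
(.lf (nat_lit 29073451) (dlOf (nat_lit 1) (nat_lit 0x8008000800200020008db0e03)))) 
(.lf (nat_lit 8108075) (dlOf (nat_lit 1) (nat_lit 0x40040002000851a602))))) (.nd (nat_lit 9) 
(.nd (nat_lit 8) (.lf (nat_lit 1342414891) (dlOf (nat_lit 1) (nat_lit 0x60018020501))) 
(.lf (nat_lit 3490947371) (dlOf (nat_lit 1) (nat_lit 0x140018047901)))) (.nd (nat_lit 30) 
(.lf (nat_lit 805544491) (dlOf (nat_lit 1) (nat_lit 0xc00400020018127f82))) 
(.lf (nat_lit 4026769963) (dlOf (nat_lit 5) (nat_lit 0x1d0080004c0160003604010c020007200580007c10043008001c80160001d04010c02000007818090e80)))))) 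
(.nd (nat_lit 19) (.nd (nat_lit 8) (.nd (nat_lit 9) 
(.lf (nat_lit 44277867) (dlOf (nat_lit 1) (nat_lit 0x200292e0a81))) 
(.lf (nat_lit 20163179) (dlOf (nat_lit 1) (nat_lit 0x1200289d5381)))) 
(.lf (nat_lit 1879286123) (dlOf (nat_lit 1) (nat_lit 0x50008002c002000200080c0703)))) 
(.nd (nat_lit 20) (.nd (nat_lit 21) 
(.lf (nat_lit 59482219) (dlOf (nat_lit 1) (nat_lit 0x20009800a01))) 
(.lf (nat_lit 1345036395) (dlOf (nat_lit 1) (nat_lit 0x400080040002002000089d1e83)))) 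
(.lf (nat_lit 45850731) (dlOf (nat_lit 1) (nat_lit 0x160009360a01)))))) (.nd (nat_lit 9) 
(.nd (nat_lit 28) (.nd (nat_lit 8) (.nd (nat_lit 11) 
(.lf (nat_lit 4496531499) (dlOf (nat_lit 1) (nat_lit 0xa00280d0481))) 
(.lf (nat_lit 2751707179) (dlOf (nat_lit 1) (nat_lit 0xa8008031400200a8000800a603)))) 
(.lf (nat_lit 2885921067) (dlOf (nat_lit 1) (nat_lit 0x80028144b81)))) (.nd (nat_lit 6) 
(.nd (nat_lit 19) (.lf (nat_lit 469999659) (dlOf (nat_lit 1) (nat_lit 0x60018020501))) 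
(.lf (nat_lit 472621099) (dlOf (nat_lit 1) (nat_lit 0x200189d0901)))) (.nd (nat_lit 8) 
(.lf (nat_lit 1009492075) (dlOf (nat_lit 1) (nat_lit 0x200291a0a01))) 
(.lf (nat_lit 1006870891) (dlOf (nat_lit 1) (nat_lit 0x50008002c002000200080c0703)))))) 
(.nd (nat_lit 10) (.nd (nat_lit 8) (.nd (nat_lit 19) 
(.lf (nat_lit 3288572459) (dlOf (nat_lit 5) (nat_lit 0x1d0080004c0160003604010c020007200580007c10043008001c80160001e04010c02000007818090e80))) 
(.lf (nat_lit 69968427) (dlOf (nat_lit 1) (nat_lit 0x700028e28a01)))) 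
(.lf (nat_lit 6644015915) (dlOf (nat_lit 1) (nat_lit 0x600180b2201)))) (.nd (nat_lit 6) 
(.lf (nat_lit 6509801003) (dlOf (nat_lit 1) (nat_lit 0x20008147181))) 
(.lf (nat_lit 5704492651) (dlOf (nat_lit 1) (nat_lit 0x50008005c002001800080d3903))))))) 
(.nd (nat_lit 19) (.nd (nat_lit 20) (.nd (nat_lit 21) (.nd (nat_lit 22) 
(.lf (nat_lit 805806123) (dlOf (nat_lit 1) (nat_lit 0x200281a0001))) 
(.lf (nat_lit 13082667) (dlOf (nat_lit 8) (nat_lit 0x3d494008ea3c0033514000fa4c00038c20016d494001ea3c000e2040025525000ca8a000384100125478009ea28004d4980003d830025a928001e80800c54940036a3c001f514000fa4c0001e42000e5494002ea3c001d514000ea4c0001e02003f80080038002000e00086f0b03)))) 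
(.nd (nat_lit 10) (.lf (nat_lit 19374123) (dlOf (nat_lit 1) (nat_lit 0xac0028990b01))) 
(.lf (nat_lit 57123883) (dlOf (nat_lit 1) (nat_lit 0x100029792881))))) (.nd (nat_lit 6) 
(.nd (nat_lit 21) (.nd (nat_lit 26) 
(.lf (nat_lit 3491209259) (dlOf (nat_lit 2) (nat_lit 0x3905b8000a00802200080150002002e0008070903))) 
(.lf (nat_lit 2753011755) (dlOf (nat_lit 12) (nat_lit 0x20438000c0080a4821c000560400a810e00e40000001402014c05881ab821c0004a08010c10e0001f0205d40870000f0100400ca8006821c041c0000001d0601e40870000e0102620000000300808f8000000060403680f6000000200ac0018070801)))) 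
(.nd (nat_lit 26) (.lf (nat_lit 3493306411) (dlOf (nat_lit 1) (nat_lit 0x100018110501))) 
(.lf (nat_lit 2755108907) (dlOf (nat_lit 1) (nat_lit 0x100018110501))))) (.nd (nat_lit 8) 
(.lf (nat_lit 37199979) (dlOf (nat_lit 1) (nat_lit 0x7600090b0a01))) 
(.lf (nat_lit 12034411) (dlOf (nat_lit 1) (nat_lit 0x80080010002000400086c0703)))))) 
(.nd (nat_lit 20) (.nd (nat_lit 28) (.nd (nat_lit 22) 
(.lf (nat_lit 17801259) (dlOf (nat_lit 1) (nat_lit 0x100080008002000200088f0e03))) 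
(.lf (nat_lit 13606955) (dlOf (nat_lit 3) (nat_lit 0x8538c4040bbd500015820083e31004e6f540005408004800401000018730a82)))) 
(.nd (nat_lit 11) (.lf (nat_lit 1880072235) (dlOf (nat_lit 1) (nat_lit 0x4004000200086b0002))) 
(.lf (nat_lit 3492788267) (dlOf (nat_lit 1) (nat_lit 0x200180fa601))))) (.nd (nat_lit 22) 
(.nd (nat_lit 6) (.lf (nat_lit 69181483) (dlOf (nat_lit 1) (nat_lit 0x4200188c0281))) 
(.lf (nat_lit 4095714923) (dlOf (nat_lit 1) (nat_lit 0x200280e3901)))) (.nd (nat_lit 23) 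
(.lf (nat_lit 6266923) (dlOf (nat_lit 1) (nat_lit 0x400400020018420002))) 
(.lf (nat_lit 14655531) (dlOf (nat_lit 3) (nat_lit 0x49260002f02000c49300017018770380)))))))) 
(.nd (nat_lit 6) (.nd (nat_lit 9) (.nd (nat_lit 31) (.nd (nat_lit 12) (.nd (nat_lit 18) 
(.lf (nat_lit 537108907) (dlOf (nat_lit 1) (nat_lit 0x20028017181))) 
(.lf (nat_lit 58171819) (dlOf (nat_lit 1) (nat_lit 0x200197c6e81)))) (.nd (nat_lit 8) 
(.lf (nat_lit 20166827) (dlOf (nat_lit 1) (nat_lit 0x400289da881))) 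
(.lf (nat_lit 8631723) (dlOf (nat_lit 1) (nat_lit 0x480028519901))))) (.nd (nat_lit 11) 
(.nd (nat_lit 26) (.lf (nat_lit 2416157099) (dlOf (nat_lit 1) (nat_lit 0x40028090781))) 
(.lf (nat_lit 2483265963) (dlOf (nat_lit 1) (nat_lit 0x900080010002000c0008090783)))) 
(.nd (nat_lit 26) (.lf (nat_lit 2147723691) (dlOf (nat_lit 1) (nat_lit 0xa0004000200080e4e82))) 
(.lf (nat_lit 6509799851) (dlOf (nat_lit 2) (nat_lit 0x401300519c080018008001000200020008144e83)))))) 
(.nd (nat_lit 19) (.nd (nat_lit 11) (.nd (nat_lit 8) 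
(.lf (nat_lit 20166315) (dlOf (nat_lit 1) (nat_lit 0x100080004002000200089da003))) 
(.lf (nat_lit 6040036267) (dlOf (nat_lit 1) (nat_lit 0x600180b2681)))) (.nd (nat_lit 26) 
(.lf (nat_lit 5100513963) (dlOf (nat_lit 1) (nat_lit 0x4004000200080d5682))) 
(.lf (nat_lit 4899187371) (dlOf (nat_lit 1) (nat_lit 0x200180d5681))))) (.nd (nat_lit 8) 
(.nd (nat_lit 18) (.lf (nat_lit 1008446123) (dlOf (nat_lit 1) (nat_lit 0x20028c95681))) 
(.lf (nat_lit 54504107) (dlOf (nat_lit 1) (nat_lit 0x20029655681)))) (.nd (nat_lit 11) 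
(.lf (nat_lit 19899307) (dlOf (nat_lit 1) (nat_lit 0x800289d2681))) 
(.lf (nat_lit 4362845099) (dlOf (nat_lit 1) (nat_lit 0xe002811bd81))))))) (.nd (nat_lit 8) 
(.nd (nat_lit 10) (.nd (nat_lit 9) 
(.lf (nat_lit 1678221547) (dlOf (nat_lit 2) (nat_lit 0x280b40013a040018004003200081a0482))) 
(.nd (nat_lit 11) 
(.lf (nat_lit 67871467) (dlOf (nat_lit 1) (nat_lit 0x10008000400200020008332103))) 
(.lf (nat_lit 2147724011) (dlOf (nat_lit 1) (nat_lit 0x4004000200080e5a02))))) (.nd (nat_lit 20) 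
(.nd (nat_lit 21) (.lf (nat_lit 67878123) (dlOf (nat_lit 1) (nat_lit 0x800800040020002000833c603))) 
(.lf (nat_lit 19643627) (dlOf (nat_lit 1) (nat_lit 0x4004000200089dc602)))) (.nd (nat_lit 12) 
(.lf (nat_lit 20163819) (dlOf (nat_lit 1) (nat_lit 0x4004000200089d6502))) 
(.lf (nat_lit 8109291) (dlOf (nat_lit 1) (nat_lit 0x800800dc0020028000851c603)))))) 
(.nd (nat_lit 18) (.nd (nat_lit 9) (.nd (nat_lit 10) (.nd (nat_lit 11) 
(.lf (nat_lit 1543741931) (dlOf (nat_lit 1) (nat_lit 0x40008001400200060008157303))) 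
(.lf (nat_lit 2751707627) (dlOf (nat_lit 1) (nat_lit 0x14800800700020012000800b283)))) 
(.lf (nat_lit 8627691) (dlOf (nat_lit 1) (nat_lit 0x20028513601)))) (.nd (nat_lit 19) 
(.lf (nat_lit 1610851307) (dlOf (nat_lit 1) (nat_lit 0xc0028092881))) 
(.lf (nat_lit 36414443) (dlOf (nat_lit 1) (nat_lit 0x40019072881))))) (.nd (nat_lit 10) 
(.nd (nat_lit 9) 
(.lf (nat_lit 3490685419) (dlOf (nat_lit 2) (nat_lit 0x60180000150200040028017301))) 
(.lf (nat_lit 604480491) (dlOf (nat_lit 2) (nat_lit 0x200c000000182d2880)))) (.nd (nat_lit 19) 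
(.lf (nat_lit 6375843307) (dlOf (nat_lit 1) (nat_lit 0x20008000400200020008003603))) 
(.lf (nat_lit 61842923) (dlOf (nat_lit 2) (nat_lit 0xb8540000204000800200660009923602))))))))))))

end

end Pool.Agent.Lib.MP_5854e1_co.Cz

namespace Pool.Agent.Lib.MP_5854e1_co.Cz

noncomputable section

noncomputable def tz156 : DT := (.nd (nat_lit 18) (.nd (nat_lit 13) (.nd (nat_lit 16) 
(.nd (nat_lit 28) (.nd (nat_lit 26) (.nd (nat_lit 6) (.nd (nat_lit 7) (.nd (nat_lit 19) 
(.nd (nat_lit 22) (.nd (nat_lit 8) (.nd (nat_lit 9) (.nd (nat_lit 10) 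
(.lf (nat_lit 44072975) (dlOf (nat_lit 1) (nat_lit 0x200192c0001))) 
(.lf (nat_lit 2818608143) (dlOf (nat_lit 7) (nat_lit 0x38018002c008000a0000002b03001100300014c0800d0018000a40400180700005102001600e0001681000200000004c080028008004800200240008005f83)))) 
(.lf (nat_lit 6039798287) (dlOf (nat_lit 1) (nat_lit 0x400400020008001482)))) (.nd (nat_lit 10) 
(.lf (nat_lit 6039802639) (dlOf (nat_lit 1) (nat_lit 0x20018008f81))) 
(.lf (nat_lit 536872719) (dlOf (nat_lit 1) (nat_lit 0x10002000c0008003b82))))) (.nd (nat_lit 21) 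
(.nd (nat_lit 20) (.lf (nat_lit 12582927) (dlOf (nat_lit 1) (nat_lit 0x4002000200086d0682))) 
(.lf (nat_lit 13631503) (dlOf (nat_lit 1) (nat_lit 0x400200020008730882)))) (.nd (nat_lit 10) 
(.lf (nat_lit 23068687) (dlOf (nat_lit 3) (nat_lit 0x2895e000208100034b08000ec080048008004800200800008b50103))) 
(.lf (nat_lit 56624143) (dlOf (nat_lit 1) (nat_lit 0x20019732881)))))) (.nd (nat_lit 21) 
(.nd (nat_lit 20) (.nd (nat_lit 22) 
(.lf (nat_lit 1611137039) (dlOf (nat_lit 8) (nat_lit 0x5029800080840014000009380600060210049a0100060298023e00800480c800eb004000c0a00075702000a050003a9810003019000f380800180080030002002600080f0a03))) 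
(.lf (nat_lit 55050255) (dlOf (nat_lit 1) (nat_lit 0x6000800a000200ba0009690003)))) 
(.lf (nat_lit 9961487) (dlOf (nat_lit 2) (nat_lit 0xea57000852b0025201000100080024002003200085a0a03)))) 
(.nd (nat_lit 15) (.nd (nat_lit 20) 
(.lf (nat_lit 19398671) (dlOf (nat_lit 1) (nat_lit 0x20018990a01))) 
(.lf (nat_lit 3670031) (dlOf (nat_lit 1) (nat_lit 0x6e0028210681)))) 
(.lf (nat_lit 11042831) (dlOf (nat_lit 17) (nat_lit 0x1087cd00413aa800c8f2c00f00000004f0800287cd00027010018cfe002624d80234f9a0098755003b00000011c28010682c002aff6009a7cd000f3df00041d540050000000460c00039fc01fc000000114100119f34000880401ccf9a005a7cb00203aa80169d4c00c0792000a0000002186003f3e68001080800080000007c040184f9a001675500240000000e0180021f340006a040008f9a00034020083a0b00019010085d058000bc0800680000004e040004000000000200740008660181)))))) 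
(.nd (nat_lit 9) (.nd (nat_lit 11) (.nd (nat_lit 10) (.nd (nat_lit 29) 
(.lf (nat_lit 5502927247) (dlOf (nat_lit 1) (nat_lit 0x400400020008001002))) 
(.lf (nat_lit 4966056335) (dlOf (nat_lit 1) (nat_lit 0x400400020018001002)))) 
(.lf (nat_lit 2147517839) (dlOf (nat_lit 2) (nat_lit 0x2005000a8818003600)))) (.nd (nat_lit 8) 
(.lf (nat_lit 134253711) (dlOf (nat_lit 3) (nat_lit 0x407e0002002000803f0000c018006180))) 
(.nd (nat_lit 12) 
(.lf (nat_lit 19926415) (dlOf (nat_lit 2) (nat_lit 0x114da0001802002c00089d6c81))) 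
(.lf (nat_lit 134258063) (dlOf (nat_lit 2) (nat_lit 0x2d800000cfc04003800200a6000800c902)))))) 
(.nd (nat_lit 8) (.nd (nat_lit 10) 
(.lf (nat_lit 19927695) (dlOf (nat_lit 1) (nat_lit 0x4002000200089d8c82))) 
(.lf (nat_lit 2684393103) (dlOf (nat_lit 1) (nat_lit 0x400400020018009e82)))) (.nd (nat_lit 11) 
(.nd (nat_lit 27) 
(.lf (nat_lit 2684355471) (dlOf (nat_lit 1) (nat_lit 0x28008002c00200140008002583))) 
(.lf (nat_lit 2281702287) (dlOf (nat_lit 1) (nat_lit 0x800400020008002582)))) 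
(.lf (nat_lit 2818575247) (dlOf (nat_lit 1) (nat_lit 0xc0028005c81))))))) (.nd (nat_lit 10) 
(.nd (nat_lit 20) (.nd (nat_lit 15) (.nd (nat_lit 8) 
(.lf (nat_lit 48758863) (dlOf (nat_lit 1) (nat_lit 0x1c002000e0009420702))) 
(.lf (nat_lit 2684359503) (dlOf (nat_lit 1) (nat_lit 0x10008000400200020008008f83)))) 
(.nd (nat_lit 21) (.nd (nat_lit 23) 
(.lf (nat_lit 3355476047) (dlOf (nat_lit 2) (nat_lit 0xc05e015480200020018000001))) 
(.lf (nat_lit 25198671) (dlOf (nat_lit 1) (nat_lit 0x40008bf0d01)))) 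
(.lf (nat_lit 14712911) (dlOf (nat_lit 5) (nat_lit 0x3d1f8001662400020000001103000aa87000951f800042080026a1c003347e00002020002a87000251f80000008000400200160008770702))))) 
(.nd (nat_lit 7) (.nd (nat_lit 9) (.nd (nat_lit 15) 
(.lf (nat_lit 13631567) (dlOf (nat_lit 1) (nat_lit 0x1c00200100008730d02))) 
(.lf (nat_lit 30441551) (dlOf (nat_lit 2) (nat_lit 0xac320008618800090ca00140000002f848e30200)))) 
(.lf (nat_lit 54004303) (dlOf (nat_lit 1) (nat_lit 0x4002000200095f5282)))) (.nd (nat_lit 8) 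
(.lf (nat_lit 19927759) (dlOf (nat_lit 1) (nat_lit 0x4002000200089d8c82))) 
(.lf (nat_lit 12059087) (dlOf (nat_lit 1) (nat_lit 0x10004000400086c0a02)))))) (.nd (nat_lit 7) 
(.nd (nat_lit 9) (.lf (nat_lit 19960911) (dlOf (nat_lit 1) (nat_lit 0x4004001800189d9302))) 
(.nd (nat_lit 29) (.lf (nat_lit 5502928463) (dlOf (nat_lit 1) (nat_lit 0x40008003881))) 
(.lf (nat_lit 4966057551) (dlOf (nat_lit 1) (nat_lit 0x400400020008003882))))) (.nd (nat_lit 8) 
(.nd (nat_lit 11) 
(.lf (nat_lit 5502928079) (dlOf (nat_lit 2) (nat_lit 0xd0090000000800c0008000800200040008002d83))) 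
(.lf (nat_lit 134221007) (dlOf (nat_lit 1) (nat_lit 0x400400020018006402)))) (.nd (nat_lit 9) 
(.lf (nat_lit 61343183) (dlOf (nat_lit 1) (nat_lit 0x20029923601))) 
(.lf (nat_lit 536872911) (dlOf (nat_lit 2) (nat_lit 0x405f00006818004480)))))))) (.nd (nat_lit 27) 
(.nd (nat_lit 15) (.nd (nat_lit 6) (.nd (nat_lit 7) (.nd (nat_lit 9) (.nd (nat_lit 19) 
(.lf (nat_lit 4362077199) (dlOf (nat_lit 1) (nat_lit 0x180028002881))) 
(.lf (nat_lit 2751988751) (dlOf (nat_lit 1) (nat_lit 0x400200020008002882)))) 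
(.lf (nat_lit 2752512527) (dlOf (nat_lit 1) (nat_lit 0x40008006800200100008018403)))) 
(.nd (nat_lit 31) (.lf (nat_lit 67109775) (dlOf (nat_lit 1) (nat_lit 0x20008002581))) 
(.lf (nat_lit 2214593423) (dlOf (nat_lit 1) (nat_lit 0x400400020008002582))))) (.nd (nat_lit 11) 
(.nd (nat_lit 10) (.lf (nat_lit 67113039) (dlOf (nat_lit 1) (nat_lit 0x3c002003c0008007d82))) 
(.lf (nat_lit 1140851791) (dlOf (nat_lit 1) (nat_lit 0x440018002881)))) (.nd (nat_lit 8) 
(.lf (nat_lit 4362082383) (dlOf (nat_lit 1) (nat_lit 0x2000800040020008000800a703))) 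
(.lf (nat_lit 2751469903) (dlOf (nat_lit 1) (nat_lit 0x2001800ab81)))))) (.nd (nat_lit 20) 
(.nd (nat_lit 6) (.nd (nat_lit 22) 
(.lf (nat_lit 1678278671) (dlOf (nat_lit 1) (nat_lit 0x1a800800a4002008200081d0083))) 
(.lf (nat_lit 2756214799) (dlOf (nat_lit 1) (nat_lit 0x400200020008220882)))) (.nd (nat_lit 8) 
(.lf (nat_lit 2754117711) (dlOf (nat_lit 1) (nat_lit 0xb0008005c002005200080c1903))) 
(.lf (nat_lit 5972725071) (dlOf (nat_lit 1) (nat_lit 0x20018006a01))))) (.nd (nat_lit 19) 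
(.nd (nat_lit 7) (.lf (nat_lit 68190223) (dlOf (nat_lit 1) (nat_lit 0x400200020008450482))) 
(.lf (nat_lit 2754644367) (dlOf (nat_lit 1) (nat_lit 0x200180f4e81)))) (.nd (nat_lit 6) 
(.lf (nat_lit 2755166223) (dlOf (nat_lit 1) (nat_lit 0x30008001c002000a0008120883))) 
(.lf (nat_lit 2755166287) (dlOf (nat_lit 3) (nat_lit 0x7c04400090218000b41000d81100005604000800200040008121002))))))) 
(.nd (nat_lit 6) (.nd (nat_lit 8) (.nd (nat_lit 19) (.nd (nat_lit 7) 
(.lf (nat_lit 3422552591) (dlOf (nat_lit 1) (nat_lit 0x1400400060008001482))) 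
(.lf (nat_lit 2885684367) (dlOf (nat_lit 1) (nat_lit 0x400400020008006182)))) (.nd (nat_lit 15) 
(.lf (nat_lit 738721807) (dlOf (nat_lit 8) (nat_lit 0x502980008084001400000ddc060006021006ec0100060298036700800480c8019a604000c0a000cd202000a050006670100030190025900800180080030002002600080f0a03))) 
(.lf (nat_lit 2886238223) (dlOf (nat_lit 2) (nat_lit 0x3a040000000181a0480))))) (.nd (nat_lit 7) 
(.nd (nat_lit 9) 
(.lf (nat_lit 3422590223) (dlOf (nat_lit 1) (nat_lit 0x38008002000200140008009683))) 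
(.nd (nat_lit 10) (.lf (nat_lit 6643782415) (dlOf (nat_lit 1) (nat_lit 0xe0002003c0008008f82))) 
(.lf (nat_lit 2348812047) (dlOf (nat_lit 1) (nat_lit 0x8004000c0018003b82))))) (.nd (nat_lit 11) 
(.lf (nat_lit 6643778447) (dlOf (nat_lit 1) (nat_lit 0x400400020008002582))) 
(.lf (nat_lit 1275104143) (dlOf (nat_lit 1) (nat_lit 0x4e0028005c81)))))) (.nd (nat_lit 8) 
(.nd (nat_lit 7) (.nd (nat_lit 9) 
(.lf (nat_lit 2348811343) (dlOf (nat_lit 1) (nat_lit 0xc0018002881))) 
(.lf (nat_lit 6106908239) (dlOf (nat_lit 2) (nat_lit 0x6801000044040008002000c0008003882)))) 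
(.lf (nat_lit 2885684431) (dlOf (nat_lit 1) (nat_lit 0x100018006401)))) (.nd (nat_lit 31) 
(.nd (nat_lit 12) (.lf (nat_lit 201328975) (dlOf (nat_lit 1) (nat_lit 0x2800200020008004d82))) 
(.lf (nat_lit 201365839) (dlOf (nat_lit 1) (nat_lit 0x38008005c002001c000800ab83)))) 
(.nd (nat_lit 9) (.lf (nat_lit 2885688655) (dlOf (nat_lit 1) (nat_lit 0x180020002000800c902))) 
(.lf (nat_lit 3422557007) (dlOf (nat_lit 1) (nat_lit 0x10008000400200020008008f83))))))))) 
(.nd (nat_lit 27) (.nd (nat_lit 10) (.nd (nat_lit 7) (.nd (nat_lit 6) (.nd (nat_lit 20) 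
(.nd (nat_lit 22) 
(.lf (nat_lit 805863439) (dlOf (nat_lit 1) (nat_lit 0x1a800800a4002008200081d0083))) 
(.lf (nat_lit 3494412303) (dlOf (nat_lit 1) (nat_lit 0x400200020008220882)))) (.nd (nat_lit 8) 
(.lf (nat_lit 3493363727) (dlOf (nat_lit 1) (nat_lit 0x30008001c002000a0008120883))) 
(.lf (nat_lit 1345847567) (dlOf (nat_lit 1) (nat_lit 0x2400400040008e03b02))))) (.nd (nat_lit 19) 
(.nd (nat_lit 8) (.lf (nat_lit 4563435599) (dlOf (nat_lit 1) (nat_lit 0xc0028000001))) 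
(.lf (nat_lit 4026534223) (dlOf (nat_lit 1) (nat_lit 0xa40028004d81)))) (.nd (nat_lit 20) 
(.lf (nat_lit 3492315215) (dlOf (nat_lit 1) (nat_lit 0xc00280c1581))) 
(.lf (nat_lit 3493363791) (dlOf (nat_lit 3) (nat_lit 0x7c04400090218000b01000d81100005404000800200040008121002)))))) 
(.nd (nat_lit 8) (.nd (nat_lit 6) (.nd (nat_lit 9) (.nd (nat_lit 12) 
(.lf (nat_lit 1342701711) (dlOf (nat_lit 1) (nat_lit 0x4002000200080c0102))) 
(.lf (nat_lit 1342181519) (dlOf (nat_lit 1) (nat_lit 0x400400020008007d82)))) 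
(.lf (nat_lit 1879052943) (dlOf (nat_lit 1) (nat_lit 0x20008008c81)))) 
(.lf (nat_lit 1342216399) (dlOf (nat_lit 1) (nat_lit 0x40040002000800a882)))) (.nd (nat_lit 9) 
(.nd (nat_lit 11) (.lf (nat_lit 4630512015) (dlOf (nat_lit 1) (nat_lit 0x400400020008001002))) 
(.lf (nat_lit 3490187663) (dlOf (nat_lit 1) (nat_lit 0x20018004e81)))) (.nd (nat_lit 6) 
(.lf (nat_lit 872450959) (dlOf (nat_lit 1) (nat_lit 0x20018005c81))) 
(.lf (nat_lit 1342182351) (dlOf (nat_lit 2) (nat_lit 0x82380092c040020004000a0008009202))))))) 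
(.nd (nat_lit 8) (.nd (nat_lit 26) (.nd (nat_lit 6) (.nd (nat_lit 9) 
(.lf (nat_lit 2952797199) (dlOf (nat_lit 1) (nat_lit 0x2001800bf01))) 
(.lf (nat_lit 2952797711) (dlOf (nat_lit 1) (nat_lit 0x2002800ce01)))) (.nd (nat_lit 7) 
(.nd (nat_lit 9) 
(.lf (nat_lit 1879053391) (dlOf (nat_lit 1) (nat_lit 0x8008000400200020008009303))) 
(.lf (nat_lit 268469839) (dlOf (nat_lit 1) (nat_lit 0x20028053881)))) 
(.lf (nat_lit 1342180559) (dlOf (nat_lit 1) (nat_lit 0x400200020008006402))))) (.nd (nat_lit 15) 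
(.nd (nat_lit 31) (.lf (nat_lit 872418319) (dlOf (nat_lit 1) (nat_lit 0x400200020008005f82))) 
(.lf (nat_lit 3019901967) (dlOf (nat_lit 1) (nat_lit 0x20028005f81)))) (.nd (nat_lit 11) 
(.lf (nat_lit 3556803599) (dlOf (nat_lit 1) (nat_lit 0x20008002881))) 
(.lf (nat_lit 3019934735) (dlOf (nat_lit 1) (nat_lit 0x8008000400200020008005f83)))))) 
(.nd (nat_lit 11) (.nd (nat_lit 6) (.nd (nat_lit 7) 
(.lf (nat_lit 2952795919) (dlOf (nat_lit 1) (nat_lit 0xa800800140020002000800a003))) 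
(.lf (nat_lit 4563436943) (dlOf (nat_lit 2) (nat_lit 0x18000001bd0200080008003601)))) 
(.lf (nat_lit 2415921103) (dlOf (nat_lit 1) (nat_lit 0x60008004481)))) (.nd (nat_lit 26) 
(.nd (nat_lit 15) (.lf (nat_lit 3489664399) (dlOf (nat_lit 1) (nat_lit 0x20008006c81))) 
(.lf (nat_lit 1342213519) (dlOf (nat_lit 1) (nat_lit 0xa0018006c81)))) (.nd (nat_lit 6) 
(.lf (nat_lit 1409289615) (dlOf (nat_lit 1) (nat_lit 0x100028006c81))) 
(.lf (nat_lit 2483031375) (dlOf (nat_lit 1) (nat_lit 0x20018006a01)))))))) (.nd (nat_lit 11) 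
(.nd (nat_lit 7) (.nd (nat_lit 8) (.nd (nat_lit 10) (.nd (nat_lit 19) 
(.lf (nat_lit 470843407) (dlOf (nat_lit 2) (nat_lit 0x5e1a8005ea0181c0480))) 
(.lf (nat_lit 3624435727) (dlOf (nat_lit 2) (nat_lit 0x3a040000000181a0480)))) (.nd (nat_lit 6) 
(.lf (nat_lit 469799951) (dlOf (nat_lit 2) (nat_lit 0x250470028c4080170008000800200100008009203))) 
(.lf (nat_lit 469767247) (dlOf (nat_lit 1) (nat_lit 0x6e0004033e0008009302))))) (.nd (nat_lit 6) 
(.nd (nat_lit 10) 
(.lf (nat_lit 1476952335) (dlOf (nat_lit 4) (nat_lit 0x14086000603d000401a000180a80018040001d50a0004043000301e800080d000140540006020000100a00010000003a21c000c000001c90200320028317401))) 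
(.lf (nat_lit 4160787727) (dlOf (nat_lit 2) (nat_lit 0x600a000000080018008001400200080008009683)))) 
(.lf (nat_lit 469800271) (dlOf (nat_lit 2) (nat_lit 0x3047001180080018008000400200060008009903))))) 
(.nd (nat_lit 6) (.nd (nat_lit 9) (.nd (nat_lit 12) 
(.lf (nat_lit 470286479) (dlOf (nat_lit 1) (nat_lit 0x4002000200080c0102))) 
(.lf (nat_lit 1476432015) (dlOf (nat_lit 1) (nat_lit 0xc0008007d81)))) (.nd (nat_lit 10) 
(.nd (nat_lit 26) 
(.lf (nat_lit 1476399759) (dlOf (nat_lit 1) (nat_lit 0x8008000400200020008008c83))) 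
(.lf (nat_lit 3690992271) (dlOf (nat_lit 1) (nat_lit 0xb80008008c81)))) 
(.lf (nat_lit 3623880335) (dlOf (nat_lit 1) (nat_lit 0x20028003a81))))) (.nd (nat_lit 8) 
(.nd (nat_lit 9) (.lf (nat_lit 1476399311) (dlOf (nat_lit 1) (nat_lit 0x180018008001))) 
(.lf (nat_lit 1476399823) (dlOf (nat_lit 1) (nat_lit 0x400200020008008c82)))) 
(.lf (nat_lit 3623884751) (dlOf (nat_lit 1) (nat_lit 0x4001800a601)))))) (.nd (nat_lit 6) 
(.nd (nat_lit 10) (.nd (nat_lit 7) (.nd (nat_lit 15) 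
(.lf (nat_lit 469768975) (dlOf (nat_lit 1) (nat_lit 0x4002800ba01))) 
(.lf (nat_lit 469801743) (dlOf (nat_lit 1) (nat_lit 0x2800800400020008000800ba03)))) 
(.nd (nat_lit 8) 
(.lf (nat_lit 6376393359) (dlOf (nat_lit 1) (nat_lit 0x8008000400200020008095483))) 
(.lf (nat_lit 4697656207) (dlOf (nat_lit 1) (nat_lit 0x3c0018005c81))))) (.nd (nat_lit 9) 
(.nd (nat_lit 15) 
(.lf (nat_lit 402656271) (dlOf (nat_lit 1) (nat_lit 0x4d8008036000201300008005f83))) 
(.lf (nat_lit 5771922447) (dlOf (nat_lit 1) (nat_lit 0x20028005f81)))) (.nd (nat_lit 15) 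
(.lf (nat_lit 1006640655) (dlOf (nat_lit 1) (nat_lit 0x2000800ce01))) 
(.lf (nat_lit 469802511) (dlOf (nat_lit 2) (nat_lit 0xc05080008008000800800080020008000800ce03)))))) 
(.nd (nat_lit 7) (.nd (nat_lit 8) (.nd (nat_lit 10) 
(.lf (nat_lit 1543510095) (dlOf (nat_lit 1) (nat_lit 0x90008001c002000c000800a703))) 
(.lf (nat_lit 469802063) (dlOf (nat_lit 1) (nat_lit 0x8008003c0020008000800bf83)))) 
(.nd (nat_lit 10) (.nd (nat_lit 29) 
(.lf (nat_lit 469768527) (dlOf (nat_lit 1) (nat_lit 0x40020002000800ab82))) 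
(.lf (nat_lit 1006639439) (dlOf (nat_lit 1) (nat_lit 0x40020002000800ab82)))) 
(.lf (nat_lit 4227861839) (dlOf (nat_lit 1) (nat_lit 0x20018006a01))))) (.nd (nat_lit 12) 
(.nd (nat_lit 15) 
(.lf (nat_lit 5771889615) (dlOf (nat_lit 1) (nat_lit 0x8008000400200040008005d83))) 
(.lf (nat_lit 5771922383) (dlOf (nat_lit 1) (nat_lit 0x8008000400200020008005d83)))) 
(.nd (nat_lit 8) (.lf (nat_lit 4227865807) (dlOf (nat_lit 1) (nat_lit 0x80040002001800c282))) 
(.lf (nat_lit 469801935) (dlOf (nat_lit 1) (nat_lit 0x1000800140020002000800bf03)))))))))) 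
(.nd (nat_lit 15) (.nd (nat_lit 19) (.nd (nat_lit 9) (.nd (nat_lit 6) (.nd (nat_lit 23) 
(.nd (nat_lit 10) (.nd (nat_lit 7) 
(.lf (nat_lit 1343291407) (dlOf (nat_lit 2) (nat_lit 0xa4054001af02000800281e0481))) 
(.lf (nat_lit 872481167) (dlOf (nat_lit 1) (nat_lit 0x20018091001)))) (.nd (nat_lit 11) 
(.lf (nat_lit 36766735) (dlOf (nat_lit 1) (nat_lit 0x4004004e0009072882))) 
(.lf (nat_lit 5167451151) (dlOf (nat_lit 1) (nat_lit 0x20028055f81))))) (.nd (nat_lit 21) 
(.nd (nat_lit 22) (.lf (nat_lit 9502735) (dlOf (nat_lit 1) (nat_lit 0x140018560481))) 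
(.nd (nat_lit 25) (.lf (nat_lit 13697039) (dlOf (nat_lit 1) (nat_lit 0x20028740101))) 
(.lf (nat_lit 47251471) (dlOf (nat_lit 1) (nat_lit 0x2000093c0001))))) (.nd (nat_lit 7) 
(.lf (nat_lit 15794191) (dlOf (nat_lit 2) (nat_lit 0x837e80022808000800800d800200200008830183))) 
(.lf (nat_lit 11600015) (dlOf (nat_lit 1) (nat_lit 0x8008021c00200fc00086c0103)))))) 
(.nd (nat_lit 26) (.nd (nat_lit 8) (.nd (nat_lit 7) 
(.lf (nat_lit 2818637903) (dlOf (nat_lit 1) (nat_lit 0x20008080001))) 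
(.lf (nat_lit 134286543) (dlOf (nat_lit 5) (nat_lit 0x260420001a8100030000000c4080010000000600400240940000002003e0008006401)))) 
(.nd (nat_lit 11) (.lf (nat_lit 3892381007) (dlOf (nat_lit 1) (nat_lit 0x80018103301))) 
(.lf (nat_lit 134290767) (dlOf (nat_lit 1) (nat_lit 0x4002000a000800c902))))) (.nd (nat_lit 7) 
(.nd (nat_lit 10) (.lf (nat_lit 201394511) (dlOf (nat_lit 1) (nat_lit 0x400200020008004d82))) 
(.lf (nat_lit 1543572815) (dlOf (nat_lit 1) (nat_lit 0xe0028146a01)))) 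
(.lf (nat_lit 2483097039) (dlOf (nat_lit 1) (nat_lit 0x48002005a0008006d02)))))) (.nd (nat_lit 8) 
(.nd (nat_lit 10) (.nd (nat_lit 7) (.nd (nat_lit 21) 
(.lf (nat_lit 2617311759) (dlOf (nat_lit 1) (nat_lit 0x4004000200080a1482))) 
(.lf (nat_lit 1008796175) (dlOf (nat_lit 1) (nat_lit 0x80008f87b81)))) (.nd (nat_lit 11) 
(.lf (nat_lit 19993231) (dlOf (nat_lit 1) (nat_lit 0x280080004002000c00089d8c83))) 
(.lf (nat_lit 1208027791) (dlOf (nat_lit 1) (nat_lit 0x20008000800200020008095483))))) 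
(.nd (nat_lit 26) (.nd (nat_lit 29) 
(.lf (nat_lit 4697687567) (dlOf (nat_lit 1) (nat_lit 0x20028093681))) 
(.lf (nat_lit 6308300303) (dlOf (nat_lit 2) (nat_lit 0xc00c000300200006c08000800400240018053682)))) 
(.lf (nat_lit 4496360975) (dlOf (nat_lit 1) (nat_lit 0x28008003000200080008053683))))) 
(.nd (nat_lit 27) (.nd (nat_lit 28) (.nd (nat_lit 22) 
(.lf (nat_lit 5368777615) (dlOf (nat_lit 1) (nat_lit 0x40018005c81))) 
(.lf (nat_lit 54594447) (dlOf (nat_lit 1) (nat_lit 0x400400020009655c82)))) (.nd (nat_lit 6) 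
(.lf (nat_lit 4563471119) (dlOf (nat_lit 1) (nat_lit 0x400400020008095b82))) 
(.lf (nat_lit 3019965391) (dlOf (nat_lit 1) (nat_lit 0x800280d2881))))) (.nd (nat_lit 6) 
(.nd (nat_lit 11) (.lf (nat_lit 3355509647) (dlOf (nat_lit 1) (nat_lit 0x4004000200080a2582))) 
(.lf (nat_lit 5033233295) (dlOf (nat_lit 1) (nat_lit 0x60018005c81)))) (.nd (nat_lit 10) 
(.lf (nat_lit 469834703) (dlOf (nat_lit 1) (nat_lit 0x48008001c002000e000800bf03))) 
(.lf (nat_lit 671156175) (dlOf (nat_lit 2) (nat_lit 0xf80200002004000400200040008144482)))))))) 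
(.nd (nat_lit 20) (.nd (nat_lit 26) (.nd (nat_lit 21) (.nd (nat_lit 6) (.nd (nat_lit 27) 
(.lf (nat_lit 1879638031) (dlOf (nat_lit 1) (nat_lit 0x60018280181))) 
(.lf (nat_lit 3892903951) (dlOf (nat_lit 3) (nat_lit 0x280800014032000a0180067483000100f80008064019c408004c004000e0018290782)))) 
(.lf (nat_lit 3494445135) (dlOf (nat_lit 3) (nat_lit 0x11c01e0001601009600f0000ac0801e000800e800200840008220d03)))) 
(.nd (nat_lit 9) (.nd (nat_lit 24) 
(.lf (nat_lit 11075599) (dlOf (nat_lit 2) (nat_lit 0x3a0e5800118080020008002800200020008660183))) 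
(.lf (nat_lit 27852815) (dlOf (nat_lit 1) (nat_lit 0x400400020008d30202)))) 
(.lf (nat_lit 61408783) (dlOf (nat_lit 1) (nat_lit 0x108004003a0009923682))))) (.nd (nat_lit 30) 
(.nd (nat_lit 6) (.nd (nat_lit 21) 
(.lf (nat_lit 201916431) (dlOf (nat_lit 2) (nat_lit 0x4041000a78180c0900))) 
(.lf (nat_lit 2754150415) (dlOf (nat_lit 1) (nat_lit 0x280080008002003000080c0903)))) 
(.lf (nat_lit 2756247631) (dlOf (nat_lit 3) (nat_lit 0x11c01e0001681009600f0000b00801e000800e800200840008220d03)))) 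
(.nd (nat_lit 8) (.nd (nat_lit 28) 
(.lf (nat_lit 1678311439) (dlOf (nat_lit 1) (nat_lit 0x80080004002000200081e0703))) 
(.lf (nat_lit 3557359631) (dlOf (nat_lit 2) (nat_lit 0xd818400000040004004000a00081c0482)))) 
(.lf (nat_lit 6378029327) (dlOf (nat_lit 2) (nat_lit 0x100a0001c6040010002000200080f3a02)))))) 
(.nd (nat_lit 8) (.nd (nat_lit 7) (.nd (nat_lit 26) (.nd (nat_lit 28) 
(.lf (nat_lit 3735567) (dlOf (nat_lit 6) (nat_lit 0x284fc002025c0014103000601f0000182000284fc002025c0016103000601f0000142000384fc002825c0012103000901f0000102000384fc001425c0016103000a01f00000c2000084b80000004000c00200080008220482))) 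
(.lf (nat_lit 3493396495) (dlOf (nat_lit 1) (nat_lit 0x20018130481)))) 
(.lf (nat_lit 2755198991) (dlOf (nat_lit 1) (nat_lit 0x20018130481)))) (.nd (nat_lit 9) 
(.lf (nat_lit 20518031) (dlOf (nat_lit 1) (nat_lit 0x2c00189d9501))) 
(.lf (nat_lit 7934607) (dlOf (nat_lit 1) (nat_lit 0x8008000400200020008518c83))))) 
(.nd (nat_lit 10) (.nd (nat_lit 22) 
(.lf (nat_lit 1345913103) (dlOf (nat_lit 1) (nat_lit 0x6400200180008e17402))) 
(.lf (nat_lit 58261775) (dlOf (nat_lit 4) (nat_lit 0x419c6001c002001ece3000ca8100066768004b3b00009e080030004000600197d7402)))) 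
(.nd (nat_lit 6) (.lf (nat_lit 7931279) (dlOf (nat_lit 1) (nat_lit 0x400200020008513602))) 
(.lf (nat_lit 7933775) (dlOf (nat_lit 1) (nat_lit 0x2c00400160008517782)))))))) (.nd (nat_lit 6) 
(.nd (nat_lit 19) (.nd (nat_lit 28) (.nd (nat_lit 23) (.nd (nat_lit 9) (.nd (nat_lit 10) 
(.nd (nat_lit 20) (.lf (nat_lit 21069839) (dlOf (nat_lit 1) (nat_lit 0x80004009a0008a00382))) 
(.lf (nat_lit 2752610319) (dlOf (nat_lit 2) (nat_lit 0x1215d0007c018020480)))) (.nd (nat_lit 20) 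
(.lf (nat_lit 1073841167) (dlOf (nat_lit 1) (nat_lit 0x5a0028002881))) 
(.lf (nat_lit 36799503) (dlOf (nat_lit 1) (nat_lit 0x40019072881))))) (.nd (nat_lit 7) 
(.lf (nat_lit 201431567) (dlOf (nat_lit 1) (nat_lit 0xe0001800b281))) 
(.lf (nat_lit 3355546511) (dlOf (nat_lit 1) (nat_lit 0x28002008400080a9082))))) (.nd (nat_lit 20) 
(.nd (nat_lit 21) (.nd (nat_lit 22) 
(.lf (nat_lit 25264143) (dlOf (nat_lit 1) (nat_lit 0x360008bf0881))) 
(.lf (nat_lit 12681231) (dlOf (nat_lit 1) (nat_lit 0x3a00086d0681)))) 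
(.lf (nat_lit 27361295) (dlOf (nat_lit 1) (nat_lit 0x8008000400200020008cd0283)))) 
(.nd (nat_lit 21) (.lf (nat_lit 13729807) (dlOf (nat_lit 1) (nat_lit 0x800200020008740102))) 
(.lf (nat_lit 15826959) (dlOf (nat_lit 2) (nat_lit 0xa151400116040018004000c0018830182)))))) 
(.nd (nat_lit 7) (.nd (nat_lit 8) (.nd (nat_lit 9) 
(.lf (nat_lit 3490807823) (dlOf (nat_lit 2) (nat_lit 0x12158000c4818020480))) 
(.lf (nat_lit 4697720335) (dlOf (nat_lit 1) (nat_lit 0x20028093681)))) (.nd (nat_lit 10) 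
(.lf (nat_lit 335642895) (dlOf (nat_lit 1) (nat_lit 0x20018090a81))) 
(.lf (nat_lit 1946258703) (dlOf (nat_lit 1) (nat_lit 0x1c00200060008006702))))) (.nd (nat_lit 8) 
(.lf (nat_lit 1342279823) (dlOf (nat_lit 1) (nat_lit 0x400080030002000c0008007d83))) 
(.nd (nat_lit 10) 
(.lf (nat_lit 5301698959) (dlOf (nat_lit 2) (nat_lit 0x480c400cce04001c00400200018035d82))) 
(.lf (nat_lit 6241224079) (dlOf (nat_lit 1) (nat_lit 0x1c00400120008053602))))))) (.nd (nat_lit 20) 
(.nd (nat_lit 29) (.nd (nat_lit 10) 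
(.lf (nat_lit 15302671) (dlOf (nat_lit 1) (nat_lit 0x200187d0181))) (.nd (nat_lit 11) 
(.lf (nat_lit 1346995215) (dlOf (nat_lit 1) (nat_lit 0xf0008006400200080009162883))) 
(.lf (nat_lit 69831695) (dlOf (nat_lit 2) (nat_lit 0x10b70001580800400080004002000a0008cd5f83))))) 
(.nd (nat_lit 26) (.nd (nat_lit 27) 
(.lf (nat_lit 805928975) (dlOf (nat_lit 1) (nat_lit 0x200281f0a01))) 
(.lf (nat_lit 3892936719) (dlOf (nat_lit 2) (nat_lit 0x4c02c003f80182a0a00)))) 
(.lf (nat_lit 1678344207) (dlOf (nat_lit 1) (nat_lit 0x200281f0a01))))) (.nd (nat_lit 21) 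
(.nd (nat_lit 10) (.lf (nat_lit 10059791) (dlOf (nat_lit 1) (nat_lit 0x4004000200085b0482))) 
(.lf (nat_lit 60394511) (dlOf (nat_lit 1) (nat_lit 0x1400200040009845f82)))) (.nd (nat_lit 7) 
(.lf (nat_lit 16351247) (dlOf (nat_lit 16) (nat_lit 0xa2b500039564000be080014ad4001056800092ac8001741800515ac000b2040008ad60005802000256b0002b8100072b58001540800915ac000a8040028ad60005202000c56b000288100092b5800115000009808002cad60004540000258200072b58001140800495a800066040018ad40003202002e56a000229f8000c0100008008000c00200020008890203))) 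
(.lf (nat_lit 7967375) (dlOf (nat_lit 1) (nat_lit 0x400200020008518c82))))))) (.nd (nat_lit 19) 
(.nd (nat_lit 27) (.nd (nat_lit 26) (.nd (nat_lit 7) (.nd (nat_lit 29) 
(.lf (nat_lit 4563501135) (dlOf (nat_lit 1) (nat_lit 0x2e000400d20008090002))) 
(.lf (nat_lit 1879146575) (dlOf (nat_lit 1) (nat_lit 0x20028031001)))) 
(.lf (nat_lit 1073842383) (dlOf (nat_lit 1) (nat_lit 0x1c00200060008004a02)))) (.nd (nat_lit 8) 
(.nd (nat_lit 9) 
(.lf (nat_lit 1140949071) (dlOf (nat_lit 2) (nat_lit 0xd80900000804000400400020018020682))) 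
(.lf (nat_lit 69306959) (dlOf (nat_lit 2) (nat_lit 0x508c000000080038008000c00200060008905283)))) 
(.lf (nat_lit 4093740367) (dlOf (nat_lit 2) (nat_lit 0x181840004a04000400400020018003302))))) 
(.nd (nat_lit 11) (.nd (nat_lit 20) (.nd (nat_lit 26) 
(.lf (nat_lit 2013364303) (dlOf (nat_lit 2) (nat_lit 0xd80900000804000400400020018020682))) 
(.lf (nat_lit 1006731343) (dlOf (nat_lit 1) (nat_lit 0x20028031001)))) 
(.lf (nat_lit 473006159) (dlOf (nat_lit 1) (nat_lit 0x20008bb0001)))) (.nd (nat_lit 7) 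
(.nd (nat_lit 9) (.lf (nat_lit 201431119) (dlOf (nat_lit 2) (nat_lit 0x603b0003d81800a700))) 
(.lf (nat_lit 1812041295) (dlOf (nat_lit 1) (nat_lit 0x20018147181)))) 
(.lf (nat_lit 738298319) (dlOf (nat_lit 1) (nat_lit 0x160028094e81)))))) (.nd (nat_lit 21) 
(.nd (nat_lit 7) (.nd (nat_lit 27) 
(.lf (nat_lit 67731535) (dlOf (nat_lit 2) (nat_lit 0xa01e0002f8182d0200))) (.nd (nat_lit 28) 
(.lf (nat_lit 201949263) (dlOf (nat_lit 1) (nat_lit 0x20008000c002000200080c1903))) 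
(.lf (nat_lit 3154739279) (dlOf (nat_lit 2) (nat_lit 0xc048000e01d000700b00017c180098008005800200020008310203))))) 
(.nd (nat_lit 8) (.lf (nat_lit 3154739407) (dlOf (nat_lit 1) (nat_lit 0x48002000e0008310502))) 
(.lf (nat_lit 50954703) (dlOf (nat_lit 1) (nat_lit 0x1e00294d7b01))))) (.nd (nat_lit 8) 
(.nd (nat_lit 26) (.lf (nat_lit 1881768015) (dlOf (nat_lit 1) (nat_lit 0x20029000701))) 
(.lf (nat_lit 2754183247) (dlOf (nat_lit 2) (nat_lit 0xc01f9000170180c1900)))) (.nd (nat_lit 7) 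
(.nd (nat_lit 9) (.lf (nat_lit 49907023) (dlOf (nat_lit 1) (nat_lit 0x18004002a00094c3302))) 
(.lf (nat_lit 7966543) (dlOf (nat_lit 1) (nat_lit 0x800200040008517782)))) 
(.lf (nat_lit 7964111) (dlOf (nat_lit 1) (nat_lit 0x8008000400200020008513603)))))))))) 
(.nd (nat_lit 15) (.nd (nat_lit 28) (.nd (nat_lit 7) (.nd (nat_lit 19) (.nd (nat_lit 10) 
(.nd (nat_lit 16) (.nd (nat_lit 6) 
(.lf (nat_lit 1057039) (dlOf (nat_lit 1) (nat_lit 0x40028067d01))) (.nd (nat_lit 12) 
(.lf (nat_lit 13639759) (dlOf (nat_lit 2) (nat_lit 0x2800000080040078002000c0008730d02))) 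
(.lf (nat_lit 67121231) (dlOf (nat_lit 1) (nat_lit 0x400080048002003a0008007d83))))) 
(.nd (nat_lit 20) (.nd (nat_lit 9) 
(.lf (nat_lit 21045263) (dlOf (nat_lit 1) (nat_lit 0x400400020008a00382))) 
(.lf (nat_lit 3758172687) (dlOf (nat_lit 1) (nat_lit 0x2600180d5081)))) (.nd (nat_lit 21) 
(.lf (nat_lit 13705231) (dlOf (nat_lit 1) (nat_lit 0x7c002001e0008740102))) 
(.lf (nat_lit 15802383) (dlOf (nat_lit 1) (nat_lit 0x400400040008830182)))))) (.nd (nat_lit 6) 
(.nd (nat_lit 8) (.lf (nat_lit 2754620943) (dlOf (nat_lit 1) (nat_lit 0x200180f7081))) 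
(.nd (nat_lit 26) (.lf (nat_lit 4294978831) (dlOf (nat_lit 1) (nat_lit 0x20008006701))) 
(.lf (nat_lit 3288345871) (dlOf (nat_lit 1) (nat_lit 0x400400020008006702))))) (.nd (nat_lit 12) 
(.nd (nat_lit 9) 
(.lf (nat_lit 671163471) (dlOf (nat_lit 1) (nat_lit 0x4c000809b4002025a0008142883))) 
(.lf (nat_lit 1610688079) (dlOf (nat_lit 1) (nat_lit 0xe8008000400200380008093883)))) 
(.nd (nat_lit 8) 
(.lf (nat_lit 603995215) (dlOf (nat_lit 2) (nat_lit 0xb00000004c08005000800780020060000800bf83))) 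
(.lf (nat_lit 603993423) (dlOf (nat_lit 2) (nat_lit 0x28000008b404000800200360008009902))))))) 
(.nd (nat_lit 16) (.nd (nat_lit 21) (.nd (nat_lit 10) (.nd (nat_lit 20) 
(.lf (nat_lit 1678254095) (dlOf (nat_lit 2) (nat_lit 0x5800000042040118002004200081c0482))) 
(.lf (nat_lit 5775375) (dlOf (nat_lit 2) (nat_lit 0xc0000005d02004400183d0201)))) (.nd (nat_lit 8) 
(.lf (nat_lit 2751996943) (dlOf (nat_lit 1) (nat_lit 0x400200020008002882))) 
(.lf (nat_lit 535823) (dlOf (nat_lit 1) (nat_lit 0x20008006701))))) (.nd (nat_lit 20) 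
(.nd (nat_lit 6) (.lf (nat_lit 19406863) (dlOf (nat_lit 1) (nat_lit 0x20028990a01))) 
(.lf (nat_lit 48767055) (dlOf (nat_lit 1) (nat_lit 0x20029420701)))) (.nd (nat_lit 8) 
(.lf (nat_lit 16261135) (dlOf (nat_lit 1) (nat_lit 0x400200020008880182))) 
(.lf (nat_lit 20458767) (dlOf (nat_lit 1) (nat_lit 0x200289d6701)))))) (.nd (nat_lit 21) 
(.nd (nat_lit 22) (.nd (nat_lit 26) 
(.lf (nat_lit 3892912143) (dlOf (nat_lit 4) (nat_lit 0x3802c0070a81001300c0033a408000807c019c40401e0004004c0008290782))) 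
(.lf (nat_lit 1678319631) (dlOf (nat_lit 1) (nat_lit 0x800800d0002000200081e0703)))) 
(.lf (nat_lit 21569551) (dlOf (nat_lit 1) (nat_lit 0x20028a40001)))) (.nd (nat_lit 20) 
(.nd (nat_lit 24) 
(.lf (nat_lit 11083791) (dlOf (nat_lit 3) (nat_lit 0x12c52003f4d000061288007089c0008c100520000000450200160018660181))) 
(.lf (nat_lit 27861007) (dlOf (nat_lit 17) (nat_lit 0x135728006282c000be0800155ca0024ae30002e8200015730003a830000b20800055cc00058020002ae6000850600015c10002ab98000d41800055040014ae60010506000150100022830000a40400415cc0006a15000d50600014418003a8300009804001d5cc0010a15000e50600012c180092b98000840400315ca0012a0b000198200095728005a82c000640800155ca0012a0b0001882001a572800a282c0006008001800400060018d30202)))) 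
(.nd (nat_lit 6) 
(.lf (nat_lit 3743759) (dlOf (nat_lit 5) (nat_lit 0x1098e00084bd000c254000312580000c10001098e000a4bd000c254000292580000a10002098e00124bd000a254000492580000810001c98e00144bd000c254000612580000610000400200180008220482))) 
(.lf (nat_lit 28909647) (dlOf (nat_lit 1) (nat_lit 0x8008000400200020008da0203)))))))) 
(.nd (nat_lit 9) (.nd (nat_lit 8) (.nd (nat_lit 6) (.nd (nat_lit 10) (.nd (nat_lit 16) 
(.lf (nat_lit 3892846735) (dlOf (nat_lit 1) (nat_lit 0x10008000400200020008280483))) 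
(.lf (nat_lit 11608207) (dlOf (nat_lit 1) (nat_lit 0x44c002019c00086c0102)))) (.nd (nat_lit 12) 
(.lf (nat_lit 57222287) (dlOf (nat_lit 1) (nat_lit 0x960029792b01))) 
(.lf (nat_lit 6643856527) (dlOf (nat_lit 1) (nat_lit 0x400400440008009502))))) (.nd (nat_lit 10) 
(.nd (nat_lit 27) (.lf (nat_lit 3221235919) (dlOf (nat_lit 1) (nat_lit 0x20028004a01))) 
(.lf (nat_lit 4429195471) (dlOf (nat_lit 1) (nat_lit 0x20008004a01)))) 
(.lf (nat_lit 2214606031) (dlOf (nat_lit 1) (nat_lit 0x140018009501))))) (.nd (nat_lit 11) 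
(.nd (nat_lit 16) (.nd (nat_lit 26) 
(.lf (nat_lit 3221758351) (dlOf (nat_lit 3) (nat_lit 0x4407c0070502003a03e0037d818170780))) 
(.lf (nat_lit 3959955855) (dlOf (nat_lit 3) (nat_lit 0x4407c00cb202003a03e00651018170780)))) 
(.nd (nat_lit 26) 
(.lf (nat_lit 3221299599) (dlOf (nat_lit 2) (nat_lit 0xe011801db404003c00200260008090782))) 
(.lf (nat_lit 3959497103) (dlOf (nat_lit 2) (nat_lit 0xe01180116a04003c00200260008090782))))) 
(.nd (nat_lit 10) (.nd (nat_lit 20) 
(.lf (nat_lit 31467919) (dlOf (nat_lit 1) (nat_lit 0x400200020008e94e82))) 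
(.lf (nat_lit 2754619791) (dlOf (nat_lit 1) (nat_lit 0x400180f4e81)))) (.nd (nat_lit 12) 
(.lf (nat_lit 19934607) (dlOf (nat_lit 2) (nat_lit 0x194da0001802000a00089d6c81))) 
(.lf (nat_lit 134233487) (dlOf (nat_lit 1) (nat_lit 0x4000800040020004000800c903))))))) 
(.nd (nat_lit 6) (.nd (nat_lit 16) (.nd (nat_lit 10) (.nd (nat_lit 20) 
(.lf (nat_lit 12943) (dlOf (nat_lit 1) (nat_lit 0x8008000400200020008008c83))) 
(.lf (nat_lit 19935887) (dlOf (nat_lit 1) (nat_lit 0x80080008002000200089d8c83)))) 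
(.lf (nat_lit 2281715343) (dlOf (nat_lit 1) (nat_lit 0xa80018009e81)))) (.nd (nat_lit 11) 
(.nd (nat_lit 19) (.lf (nat_lit 20001423) (dlOf (nat_lit 1) (nat_lit 0x4002000200089d8c82))) 
(.lf (nat_lit 7942799) (dlOf (nat_lit 1) (nat_lit 0x20028518c81)))) (.nd (nat_lit 8) 
(.lf (nat_lit 1208035983) (dlOf (nat_lit 1) (nat_lit 0x980080034002002a0008095483))) 
(.lf (nat_lit 54602639) (dlOf (nat_lit 1) (nat_lit 0x7c00200060009655c82)))))) (.nd (nat_lit 8) 
(.nd (nat_lit 11) (.nd (nat_lit 16) 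
(.lf (nat_lit 19935951) (dlOf (nat_lit 1) (nat_lit 0x80080004002000200089d8c83))) 
(.lf (nat_lit 7942863) (dlOf (nat_lit 1) (nat_lit 0x20018518c81)))) 
(.lf (nat_lit 3758172879) (dlOf (nat_lit 1) (nat_lit 0x2200180d5881)))) (.nd (nat_lit 10) 
(.lf (nat_lit 603995087) (dlOf (nat_lit 2) (nat_lit 0x380000000004008c00200bc000800bf02))) 
(.nd (nat_lit 16) (.lf (nat_lit 2348820431) (dlOf (nat_lit 1) (nat_lit 0xc0008004481))) 
(.lf (nat_lit 671164367) (dlOf (nat_lit 2) (nat_lit 0x400800008018144480))))))))) (.nd (nat_lit 30) 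
(.nd (nat_lit 6) (.nd (nat_lit 9) (.nd (nat_lit 7) (.nd (nat_lit 8) (.nd (nat_lit 10) 
(.lf (nat_lit 805838863) (dlOf (nat_lit 2) (nat_lit 0x5800000042040118002004200081c0482))) 
(.lf (nat_lit 402664463) (dlOf (nat_lit 1) (nat_lit 0x17000803d800200540008005f83)))) 
(.lf (nat_lit 2550148367) (dlOf (nat_lit 1) (nat_lit 0x400400020008006702)))) (.nd (nat_lit 8) 
(.lf (nat_lit 470294671) (dlOf (nat_lit 1) (nat_lit 0x80080004002000200080c0103))) 
(.lf (nat_lit 5167458703) (dlOf (nat_lit 1) (nat_lit 0xa0028054e81))))) (.nd (nat_lit 10) 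
(.nd (nat_lit 7) (.nd (nat_lit 8) 
(.lf (nat_lit 470295055) (dlOf (nat_lit 3) (nat_lit 0x56123808488f000d02a80021c06003223c0010b8180c0d80))) 
(.lf (nat_lit 469777167) (dlOf (nat_lit 2) (nat_lit 0x60274000e40400340040006000800ba02)))) 
(.lf (nat_lit 335620751) (dlOf (nat_lit 1) (nat_lit 0x20028095481)))) (.nd (nat_lit 26) 
(.lf (nat_lit 2952805903) (dlOf (nat_lit 4) (nat_lit 0x2f8010000320400ec008000180200380040000b81800ce00))) 
(.lf (nat_lit 1006648847) (dlOf (nat_lit 1) (nat_lit 0x18002800ce01)))))) (.nd (nat_lit 7) 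
(.nd (nat_lit 10) (.nd (nat_lit 8) (.nd (nat_lit 19) 
(.lf (nat_lit 4563476559) (dlOf (nat_lit 1) (nat_lit 0x10008000800200180008090003))) 
(.lf (nat_lit 474554447) (dlOf (nat_lit 1) (nat_lit 0x300080004002000200091a0703)))) 
(.lf (nat_lit 469776719) (dlOf (nat_lit 1) (nat_lit 0x40020002000800ab82)))) (.nd (nat_lit 9) 
(.nd (nat_lit 16) 
(.lf (nat_lit 469777487) (dlOf (nat_lit 2) (nat_lit 0x1004e80004c08006800800740020014000800bf83))) 
(.lf (nat_lit 469843023) (dlOf (nat_lit 2) (nat_lit 0x103f00004c080010008001c002000a000800bf83)))) 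
(.lf (nat_lit 4697695823) (dlOf (nat_lit 3) (nat_lit 0x10c0000001301002f008802080000004408005c00200520008093882))))) 
(.nd (nat_lit 12) (.nd (nat_lit 8) (.nd (nat_lit 26) 
(.lf (nat_lit 2415929551) (dlOf (nat_lit 1) (nat_lit 0x400400020008004a02))) 
(.lf (nat_lit 1006643407) (dlOf (nat_lit 1) (nat_lit 0x20008004a01)))) 
(.lf (nat_lit 5301610959) (dlOf (nat_lit 1) (nat_lit 0x160018004e81)))) (.nd (nat_lit 9) 
(.lf (nat_lit 469775823) (dlOf (nat_lit 2) (nat_lit 0xe09d0004047000080100050008002800200040008009b03))) 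
(.nd (nat_lit 16) 
(.lf (nat_lit 2952805327) (dlOf (nat_lit 2) (nat_lit 0x4016001e0000000000800280020032000800bf02))) 
(.lf (nat_lit 469842895) (dlOf (nat_lit 1) (nat_lit 0x20008000c002000a000800bf03)))))))) 
(.nd (nat_lit 6) (.nd (nat_lit 8) (.nd (nat_lit 9) (.nd (nat_lit 7) (.nd (nat_lit 10) 
(.lf (nat_lit 1879580687) (dlOf (nat_lit 1) (nat_lit 0x2e0018200281))) 
(.lf (nat_lit 2080386063) (dlOf (nat_lit 1) (nat_lit 0x400400020018005f82)))) 
(.lf (nat_lit 1342709903) (dlOf (nat_lit 1) (nat_lit 0x80080004002000200080c0103)))) 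
(.nd (nat_lit 10) 
(.lf (nat_lit 1342710287) (dlOf (nat_lit 3) (nat_lit 0x944780021902004423c0010a0180c0d80))) 
(.lf (nat_lit 6308308495) (dlOf (nat_lit 4) (nat_lit 0x2700c0000e80800a00600006e04000c0320044018003b0040000d8180030008006400200020008053683))))) 
(.nd (nat_lit 7) (.nd (nat_lit 9) (.nd (nat_lit 11) 
(.lf (nat_lit 1345922319) (dlOf (nat_lit 1) (nat_lit 0x400400020008e23002))) 
(.lf (nat_lit 1879059727) (dlOf (nat_lit 1) (nat_lit 0x20008006701)))) 
(.lf (nat_lit 2013276943) (dlOf (nat_lit 1) (nat_lit 0xe0018005b81)))) (.nd (nat_lit 10) 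
(.lf (nat_lit 3490195855) (dlOf (nat_lit 1) (nat_lit 0x20018004e81))) (.nd (nat_lit 11) 
(.lf (nat_lit 6375417231) (dlOf (nat_lit 1) (nat_lit 0xe0028003601))) 
(.lf (nat_lit 4227870095) (dlOf (nat_lit 3) (nat_lit 0x120000000580801a00000002a04013c002000c0008006c82))))))) 
(.nd (nat_lit 11) (.nd (nat_lit 12) (.nd (nat_lit 16) 
(.lf (nat_lit 3492290639) (dlOf (nat_lit 1) (nat_lit 0x200180c1581))) (.nd (nat_lit 19) 
(.lf (nat_lit 3556843599) (dlOf (nat_lit 1) (nat_lit 0x400400020008080002))) 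
(.lf (nat_lit 4095287375) (dlOf (nat_lit 1) (nat_lit 0x800200020008090502))))) (.nd (nat_lit 16) 
(.nd (nat_lit 26) 
(.lf (nat_lit 1476407375) (dlOf (nat_lit 1) (nat_lit 0xe800800c400200940008007d83))) 
(.lf (nat_lit 3690999887) (dlOf (nat_lit 1) (nat_lit 0x1c00200100008007d82)))) 
(.lf (nat_lit 1342255183) (dlOf (nat_lit 1) (nat_lit 0xd8002000a0008007d82))))) (.nd (nat_lit 9) 
(.nd (nat_lit 7) 
(.lf (nat_lit 1543518287) (dlOf (nat_lit 1) (nat_lit 0x10008000c0020008000800a703))) 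
(.lf (nat_lit 4227873999) (dlOf (nat_lit 1) (nat_lit 0x80040002001800c282)))) (.nd (nat_lit 8) 
(.nd (nat_lit 26) 
(.lf (nat_lit 1342254671) (dlOf (nat_lit 1) (nat_lit 0x700080004002001e0008007183))) 
(.lf (nat_lit 4227935823) (dlOf (nat_lit 1) (nat_lit 0x20018007181)))) 
(.lf (nat_lit 3690999631) (dlOf (nat_lit 1) (nat_lit 0xc800200200008007782))))))))) 
(.nd (nat_lit 19) (.nd (nat_lit 6) (.nd (nat_lit 26) (.nd (nat_lit 10) (.nd (nat_lit 16) 
(.nd (nat_lit 8) (.nd (nat_lit 20) 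
(.lf (nat_lit 21012495) (dlOf (nat_lit 1) (nat_lit 0x48008004c002000e0008a00383))) 
(.lf (nat_lit 15769615) (dlOf (nat_lit 1) (nat_lit 0x1000400120008830182)))) 
(.lf (nat_lit 10526991) (dlOf (nat_lit 1) (nat_lit 0x5800185f7d01)))) (.nd (nat_lit 21) 
(.lf (nat_lit 1879154703) (dlOf (nat_lit 1) (nat_lit 0x400200020008030882))) 
(.lf (nat_lit 10592271) (dlOf (nat_lit 1) (nat_lit 0x400400020018600082))))) (.nd (nat_lit 27) 
(.nd (nat_lit 9) (.nd (nat_lit 11) 
(.lf (nat_lit 4831880207) (dlOf (nat_lit 1) (nat_lit 0x100018002881))) 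
(.lf (nat_lit 1346481167) (dlOf (nat_lit 1) (nat_lit 0x20008f65f81)))) 
(.lf (nat_lit 1342221839) (dlOf (nat_lit 1) (nat_lit 0x800200020008007082)))) (.nd (nat_lit 11) 
(.lf (nat_lit 3892356111) (dlOf (nat_lit 1) (nat_lit 0x20028082881))) (.nd (nat_lit 16) 
(.lf (nat_lit 2818616335) (dlOf (nat_lit 9) (nat_lit 0xc00c00140040024000000158180028010000aa04000800c000540200180060002981001b0030001480800180380005a04009c0000001302001000000009018005f80))) 
(.lf (nat_lit 5234600975) (dlOf (nat_lit 1) (nat_lit 0x10008001400200040008055f83))))))) 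
(.nd (nat_lit 27) (.nd (nat_lit 7) (.nd (nat_lit 9) (.nd (nat_lit 10) 
(.lf (nat_lit 2483134479) (dlOf (nat_lit 1) (nat_lit 0x48008002800200260008020483))) 
(.nd (nat_lit 29) (.lf (nat_lit 3556811791) (dlOf (nat_lit 1) (nat_lit 0x20018002881))) 
(.lf (nat_lit 3019940879) (dlOf (nat_lit 1) (nat_lit 0x20028082881))))) 
(.lf (nat_lit 2214639119) (dlOf (nat_lit 1) (nat_lit 0xe0028009c01)))) (.nd (nat_lit 9) 
(.nd (nat_lit 11) 
(.lf (nat_lit 2755699087) (dlOf (nat_lit 2) (nat_lit 0x702c800000040004004000800081b0782))) 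
(.lf (nat_lit 2754652559) (dlOf (nat_lit 1) (nat_lit 0x4002000200080f4e82)))) 
(.lf (nat_lit 2214634383) (dlOf (nat_lit 1) (nat_lit 0x400200020008002582))))) (.nd (nat_lit 12) 
(.nd (nat_lit 16) 
(.lf (nat_lit 470851599) (dlOf (nat_lit 2) (nat_lit 0xa40480012302000800281c0481))) 
(.nd (nat_lit 28) 
(.lf (nat_lit 2348916751) (dlOf (nat_lit 1) (nat_lit 0x48008002800200260008020483))) 
(.lf (nat_lit 1006739471) (dlOf (nat_lit 1) (nat_lit 0x400200020008030882))))) (.nd (nat_lit 7) 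
(.lf (nat_lit 5838518799) (dlOf (nat_lit 1) (nat_lit 0x22001800b281))) 
(.lf (nat_lit 3691032719) (dlOf (nat_lit 1) (nat_lit 0x20008001000200060008007d83))))))) 
(.nd (nat_lit 8) (.nd (nat_lit 12) (.nd (nat_lit 23) (.nd (nat_lit 26) (.nd (nat_lit 7) 
(.lf (nat_lit 4563509327) (dlOf (nat_lit 1) (nat_lit 0x108008001c002001a0008090003))) 
(.lf (nat_lit 43215) (dlOf (nat_lit 1) (nat_lit 0x20028004a01)))) (.nd (nat_lit 21) 
(.lf (nat_lit 738238543) (dlOf (nat_lit 1) (nat_lit 0x40018000001))) 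
(.lf (nat_lit 471900239) (dlOf (nat_lit 1) (nat_lit 0xb8004000400086b0202))))) (.nd (nat_lit 20) 
(.lf (nat_lit 25206863) (dlOf (nat_lit 1) (nat_lit 0x11000200240008bf0d02))) 
(.lf (nat_lit 43032655) (dlOf (nat_lit 1) (nat_lit 0xa00192a0001))))) (.nd (nat_lit 10) 
(.nd (nat_lit 11) (.lf (nat_lit 20033615) (dlOf (nat_lit 1) (nat_lit 0x80080004002000200089d7d83))) 
(.lf (nat_lit 2348857423) (dlOf (nat_lit 1) (nat_lit 0x3c002800a701)))) 
(.lf (nat_lit 19969103) (dlOf (nat_lit 1) (nat_lit 0x8002000c00089d9302))))) (.nd (nat_lit 9) 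
(.nd (nat_lit 7) (.nd (nat_lit 10) 
(.lf (nat_lit 671197519) (dlOf (nat_lit 5) (nat_lit 0x100000000b81000900e000058080028070001801c0000504001e01c000f007000010100110008002c00200260008144d83))) 
(.lf (nat_lit 50373967) (dlOf (nat_lit 1) (nat_lit 0x2a00294c3301)))) (.nd (nat_lit 10) 
(.lf (nat_lit 61972943) (dlOf (nat_lit 1) (nat_lit 0x18008000400200020009921103))) 
(.lf (nat_lit 19967439) (dlOf (nat_lit 2) (nat_lit 0xa58780038c0800580080034002000600089d6d03))))) 
(.nd (nat_lit 16) (.nd (nat_lit 12) 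
(.lf (nat_lit 536913871) (dlOf (nat_lit 2) (nat_lit 0x205f00006818004480))) 
(.lf (nat_lit 536917967) (dlOf (nat_lit 1) (nat_lit 0x2001800a601)))) (.nd (nat_lit 10) 
(.lf (nat_lit 51487695) (dlOf (nat_lit 1) (nat_lit 0x20029512881))) 
(.lf (nat_lit 671197135) (dlOf (nat_lit 3) (nat_lit 0x803a000e01800080080001000000024100080046002e01d003200c000d80400074010003e0050001000000040380008008002800200060008144483)))))))) 
(.nd (nat_lit 21) (.nd (nat_lit 26) (.nd (nat_lit 6) (.nd (nat_lit 16) (.nd (nat_lit 27) 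
(.lf (nat_lit 805871631) (dlOf (nat_lit 5) (nat_lit 0x8880168004600814480b40020a04001005a0010002006e02d000788181d0080))) 
(.lf (nat_lit 2819137551) (dlOf (nat_lit 2) (nat_lit 0xd81a800000040004004000a00081a0482)))) 
(.lf (nat_lit 2819203087) (dlOf (nat_lit 1) (nat_lit 0x8008042000201a600081e0283)))) 
(.nd (nat_lit 27) (.nd (nat_lit 22) 
(.lf (nat_lit 1611178063) (dlOf (nat_lit 2) (nat_lit 0x9007e000df0200080008101701))) 
(.lf (nat_lit 3494420559) (dlOf (nat_lit 1) (nat_lit 0x8008000800200160008220d03)))) 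
(.nd (nat_lit 7) 
(.lf (nat_lit 3892879439) (dlOf (nat_lit 2) (nat_lit 0xc048000e01d000700b00017c180098008005800200020008280203))) 
(.lf (nat_lit 3892879567) (dlOf (nat_lit 1) (nat_lit 0x48002000e0008280502)))))) (.nd (nat_lit 30) 
(.nd (nat_lit 29) (.nd (nat_lit 32) 
(.lf (nat_lit 67674127) (dlOf (nat_lit 1) (nat_lit 0x600082d0001))) 
(.lf (nat_lit 4362641423) (dlOf (nat_lit 2) (nat_lit 0xcc0640008702000200180c0081)))) 
(.nd (nat_lit 6) (.lf (nat_lit 3154681871) (dlOf (nat_lit 1) (nat_lit 0x20028310001))) 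
(.lf (nat_lit 2756223055) (dlOf (nat_lit 1) (nat_lit 0x8008000800200160008220d03))))) 
(.nd (nat_lit 27) (.nd (nat_lit 28) 
(.lf (nat_lit 1678286863) (dlOf (nat_lit 5) (nat_lit 0x88801680021c0814480b4000f204001005a0007302006e02d000320181d0080))) 
(.lf (nat_lit 3557335055) (dlOf (nat_lit 1) (nat_lit 0x4800801e0002007000081c0483)))) 
(.nd (nat_lit 6) 
(.lf (nat_lit 4228423695) (dlOf (nat_lit 2) (nat_lit 0xcc0620011802000200180c0081))) 
(.lf (nat_lit 3960053839) (dlOf (nat_lit 6) (nat_lit 0x210170000b80800400bc0004604004005e001402e000110200330178000400800400bc0001a040120004001000181a1902))))))) 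
(.nd (nat_lit 20) (.nd (nat_lit 7) (.nd (nat_lit 16) (.nd (nat_lit 6) (.nd (nat_lit 24) 
(.lf (nat_lit 11051023) (dlOf (nat_lit 22) (nat_lit 0xe07cd0002781005e3e6800180000009c08009f4160004b020021a0b00025010015d058043e82400d73f801367cd002a0000001182808667f008d4000000450400a07cd000220100a83e680249f2c01187920034000000218400523e680010808009682c000820400db4160004002000d9fc0001f01002cd05800be8240007808003341200039020009a09005e3e680080000000700c00ccf9a00035020193a0b0066d048000c810072e82c022f4120002f04002584b00013810027d0580005008013682c0002204020c002019e0008660182))) 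
(.lf (nat_lit 27828239) (dlOf (nat_lit 17) (nat_lit 0x52c0800155ca0002a0b00014bb80017c20004ac0800955ca0034ae3000d50580017420002ab98000b20400154180005802001aa0c0002b8100025060001540800aab98006141800054040016ae60007506000148100052b9800354180005104001eae60014506000130100072b9800354180004b040004ae6000210100055058000cc080022b94001141600032040004a0b00018810016572800b282c0006008001c00400120018d30202)))) 
(.lf (nat_lit 52994127) (dlOf (nat_lit 1) (nat_lit 0x20029570001)))) (.nd (nat_lit 10) 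
(.nd (nat_lit 24) (.lf (nat_lit 2754191375) (dlOf (nat_lit 1) (nat_lit 0x14004000600080c0902))) 
(.lf (nat_lit 19505167) (dlOf (nat_lit 2) (nat_lit 0x951800000040004004000600189b0202)))) 
(.lf (nat_lit 69839887) (dlOf (nat_lit 1) (nat_lit 0x140018cd5f81))))) (.nd (nat_lit 6) 
(.nd (nat_lit 8) 
(.lf (nat_lit 57255055) (dlOf (nat_lit 4) (nat_lit 0x205770000980804b2bb80001a04000d5dc0000c0200020029792b01))) 
(.nd (nat_lit 9) (.lf (nat_lit 1009296783) (dlOf (nat_lit 1) (nat_lit 0x30002000200090e3602))) 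
(.lf (nat_lit 69839759) (dlOf (nat_lit 1) (nat_lit 0x8008000400200020008cd5c83))))) 
(.nd (nat_lit 9) (.lf (nat_lit 5774090703) (dlOf (nat_lit 1) (nat_lit 0x1600180f7b01))) 
(.lf (nat_lit 57254863) (dlOf (nat_lit 1) (nat_lit 0x20019792881)))))) (.nd (nat_lit 6) 
(.nd (nat_lit 7) (.nd (nat_lit 9) 
(.lf (nat_lit 16359439) (dlOf (nat_lit 1) (nat_lit 0x400400020008890202))) 
(.lf (nat_lit 58237455) (dlOf (nat_lit 2) (nat_lit 0x4296c00000040038004001e00097c7b82)))) 
(.nd (nat_lit 8) (.lf (nat_lit 7975567) (dlOf (nat_lit 1) (nat_lit 0x8008000400200020008518c83))) 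
(.lf (nat_lit 7975823) (dlOf (nat_lit 1) (nat_lit 0x18008001800200060008519083))))) 
(.nd (nat_lit 16) (.nd (nat_lit 26) 
(.lf (nat_lit 3493371983) (dlOf (nat_lit 1) (nat_lit 0x8008000400200020008121003))) 
(.lf (nat_lit 2755174479) (dlOf (nat_lit 1) (nat_lit 0x8008000400200020008121003)))) 
(.nd (nat_lit 10) (.lf (nat_lit 28942415) (dlOf (nat_lit 1) (nat_lit 0x800200020008da0202))) 
(.lf (nat_lit 49914959) (dlOf (nat_lit 1) (nat_lit 0x4004000200094c2882))))))))))) 
(.nd (nat_lit 15) (.nd (nat_lit 13) (.nd (nat_lit 28) (.nd (nat_lit 21) (.nd (nat_lit 27) 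
(.nd (nat_lit 6) (.nd (nat_lit 22) (.nd (nat_lit 7) (.nd (nat_lit 10) 
(.lf (nat_lit 67436559) (dlOf (nat_lit 1) (nat_lit 0x400200020008140482))) 
(.lf (nat_lit 51708943) (dlOf (nat_lit 1) (nat_lit 0x400200020009512882)))) 
(.lf (nat_lit 8656015) (dlOf (nat_lit 1) (nat_lit 0xc00400040008519502)))) (.nd (nat_lit 7) 
(.nd (nat_lit 20) (.lf (nat_lit 63176719) (dlOf (nat_lit 1) (nat_lit 0x80080008002000200099f0203))) 
(.lf (nat_lit 30670863) (dlOf (nat_lit 1) (nat_lit 0x8008000c00200020008e40783)))) 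
(.lf (nat_lit 46402447) (dlOf (nat_lit 2) (nat_lit 0x9f5fb00039019385c80))))) (.nd (nat_lit 19) 
(.nd (nat_lit 7) (.nd (nat_lit 16) 
(.lf (nat_lit 3825467471) (dlOf (nat_lit 1) (nat_lit 0xde0018160901))) 
(.lf (nat_lit 13959247) (dlOf (nat_lit 1) (nat_lit 0x400400020008750182)))) 
(.lf (nat_lit 5436080335) (dlOf (nat_lit 1) (nat_lit 0x400180c1b81)))) (.nd (nat_lit 7) 
(.nd (nat_lit 22) (.lf (nat_lit 9175119) (dlOf (nat_lit 1) (nat_lit 0x400400020018521702))) 
(.lf (nat_lit 13369423) (dlOf (nat_lit 1) (nat_lit 0x1800028721901)))) 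
(.lf (nat_lit 2752252111) (dlOf (nat_lit 1) (nat_lit 0x800400020008004a02)))))) (.nd (nat_lit 29) 
(.nd (nat_lit 16) (.nd (nat_lit 26) (.nd (nat_lit 7) 
(.lf (nat_lit 134479887) (dlOf (nat_lit 1) (nat_lit 0x60008030881))) 
(.lf (nat_lit 1208221839) (dlOf (nat_lit 1) (nat_lit 0x200080a2781)))) (.nd (nat_lit 10) 
(.lf (nat_lit 201588751) (dlOf (nat_lit 1) (nat_lit 0x60008030881))) 
(.lf (nat_lit 5570300943) (dlOf (nat_lit 1) (nat_lit 0x4004000200180d5f82))))) (.nd (nat_lit 6) 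
(.nd (nat_lit 26) 
(.lf (nat_lit 3355770895) (dlOf (nat_lit 2) (nat_lit 0x3800000000040028002002e0008110102))) 
(.lf (nat_lit 2349137935) (dlOf (nat_lit 2) (nat_lit 0x809403b4804003c004002c00080d0882)))) 
(.lf (nat_lit 1208287311) (dlOf (nat_lit 9) (nat_lit 0x1a20390002a81006601c8001500800300e403140040005304020002700ff00500008810006009c0003404011c04e0001602001c02700009810004013800044080540008022c00201ee00080b0683))))) 
(.nd (nat_lit 6) (.nd (nat_lit 9) (.nd (nat_lit 16) 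
(.lf (nat_lit 2819358735) (dlOf (nat_lit 3) (nat_lit 0xe07000030000001d01000181d000000040004002001a0008250202))) 
(.lf (nat_lit 2819424271) (dlOf (nat_lit 5) (nat_lit 0xc06f0005881000a023000381140004072002402100160100002242800f01c000780d6003c066001a0328016017c00780b8003c0490004023000701140088080003c03d001c01c800e80d400340420030020001e00c000220800058118002808a0012039000f010800a00800010e14007c00400480018280182)))) 
(.lf (nat_lit 2818842127) (dlOf (nat_lit 1) (nat_lit 0x12000802bc002010a000812ce03)))) 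
(.nd (nat_lit 7) (.nd (nat_lit 10) 
(.lf (nat_lit 1745158223) (dlOf (nat_lit 20) (nat_lit 0x341000000144081678000000a0040b240000004f02059e000000270102c90000001340817c8000000980403680000004b02065c0360323018819780880a8c03204040140237007809b8008000841c0b1c000000400205920000001d8103350000000e808164000000072040b240000003802059c0000001b8102ce0000000d80817f80000006a0409c40000003402005000000019810008000000000080148008003c002001800080b0683))) 
(.lf (nat_lit 2818841679) (dlOf (nat_lit 2) (nat_lit 0x8036000e01100000010000800800140020026000812bf83)))) 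
(.lf (nat_lit 2818841551) (dlOf (nat_lit 1) (nat_lit 0x400040014000812bf02))))))) (.nd (nat_lit 19) 
(.nd (nat_lit 20) (.nd (nat_lit 6) (.nd (nat_lit 7) (.nd (nat_lit 9) 
(.lf (nat_lit 6553615) (dlOf (nat_lit 1) (nat_lit 0x4004005c0008430782))) 
(.lf (nat_lit 23396879) (dlOf (nat_lit 3) (nat_lit 0x2f0e00014d02002d870000a5018b80d80)))) 
(.lf (nat_lit 23396495) (dlOf (nat_lit 1) (nat_lit 0x30008002c00200120008b80103)))) 
(.nd (nat_lit 9) (.lf (nat_lit 19136591) (dlOf (nat_lit 1) (nat_lit 0x8008000400200020008970203))) 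
(.lf (nat_lit 35981903) (dlOf (nat_lit 1) (nat_lit 0x20019015281))))) (.nd (nat_lit 7) 
(.nd (nat_lit 16) (.nd (nat_lit 24) 
(.lf (nat_lit 7602191) (dlOf (nat_lit 1) (nat_lit 0x4004005c00084c0782))) 
(.lf (nat_lit 24379407) (dlOf (nat_lit 1) (nat_lit 0x30008001800200080008b90683)))) 
(.lf (nat_lit 24444943) (dlOf (nat_lit 1) (nat_lit 0x180018ba0481)))) (.nd (nat_lit 6) 
(.lf (nat_lit 20189583) (dlOf (nat_lit 1) (nat_lit 0x200080070002000a00089d8383))) 
(.lf (nat_lit 20188623) (dlOf (nat_lit 2) (nat_lit 0x8ac3c001c604000c004000200089d6d02)))))) 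
(.nd (nat_lit 20) (.nd (nat_lit 16) (.nd (nat_lit 10) (.nd (nat_lit 23) 
(.lf (nat_lit 2754347023) (dlOf (nat_lit 1) (nat_lit 0x78008006c002003c00080d0883))) 
(.lf (nat_lit 11272207) (dlOf (nat_lit 1) (nat_lit 0x28008001400200020008680183)))) 
(.lf (nat_lit 36439055) (dlOf (nat_lit 1) (nat_lit 0x20019072881)))) (.nd (nat_lit 7) 
(.nd (nat_lit 23) 
(.lf (nat_lit 2754412559) (dlOf (nat_lit 2) (nat_lit 0x1841078000ec0800e00080004002002600080e0103))) 
(.lf (nat_lit 28114959) (dlOf (nat_lit 2) (nat_lit 0x154b4000000200040008d50201)))) 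
(.lf (nat_lit 57477519) (dlOf (nat_lit 1) (nat_lit 0x3000400380019794e82))))) (.nd (nat_lit 6) 
(.nd (nat_lit 7) (.lf (nat_lit 8128015) (dlOf (nat_lit 1) (nat_lit 0x20028513681))) 
(.lf (nat_lit 50070671) (dlOf (nat_lit 1) (nat_lit 0x4004000200094c2b02)))) (.nd (nat_lit 7) 
(.nd (nat_lit 8) (.lf (nat_lit 45875279) (dlOf (nat_lit 1) (nat_lit 0x20019360701))) 
(.lf (nat_lit 20778319) (dlOf (nat_lit 1) (nat_lit 0x108002003a00089d6a02)))) 
(.lf (nat_lit 50070479) (dlOf (nat_lit 1) (nat_lit 0x400080018002001600094c2883)))))))) 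
(.nd (nat_lit 26) (.nd (nat_lit 32) (.nd (nat_lit 6) (.nd (nat_lit 21) (.nd (nat_lit 19) 
(.lf (nat_lit 1342504975) (dlOf (nat_lit 1) (nat_lit 0xc00200020008040482))) 
(.lf (nat_lit 1344077839) (dlOf (nat_lit 1) (nat_lit 0x200283c0181)))) (.nd (nat_lit 16) 
(.lf (nat_lit 3492544527) (dlOf (nat_lit 1) (nat_lit 0x78008006c002003c00080d0883))) 
(.lf (nat_lit 3492610063) (dlOf (nat_lit 2) (nat_lit 0x1840fd0000ec0800e00080004002002600080e0103))))) 
(.nd (nat_lit 10) (.nd (nat_lit 27) 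
(.lf (nat_lit 1342439503) (dlOf (nat_lit 1) (nat_lit 0x400400020008031002))) (.nd (nat_lit 30) 
(.lf (nat_lit 3087269967) (dlOf (nat_lit 1) (nat_lit 0xde0018160901))) 
(.lf (nat_lit 4161011791) (dlOf (nat_lit 1) (nat_lit 0x1000180a0001))))) (.nd (nat_lit 7) 
(.lf (nat_lit 3624209743) (dlOf (nat_lit 1) (nat_lit 0x400200060008146a02))) 
(.lf (nat_lit 3489991887) (dlOf (nat_lit 2) (nat_lit 0x402ae000000200020008006401)))))) 
(.nd (nat_lit 10) (.nd (nat_lit 6) (.nd (nat_lit 7) 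
(.lf (nat_lit 5773197327) (dlOf (nat_lit 1) (nat_lit 0x200280b0001))) 
(.lf (nat_lit 5771692943) (dlOf (nat_lit 1) (nat_lit 0x20018005c81)))) (.nd (nat_lit 16) 
(.lf (nat_lit 5773197391) (dlOf (nat_lit 9) (nat_lit 0x3f84c0000ac040260260000550201601300002a0100260988000880806604c4000260401a02620001202017c131000088100b60988000400800380080094002000200080b0683))) 
(.nd (nat_lit 27) (.lf (nat_lit 4563730511) (dlOf (nat_lit 1) (nat_lit 0x200180d0501))) 
(.lf (nat_lit 4697948239) (dlOf (nat_lit 1) (nat_lit 0x200180d0501)))))) (.nd (nat_lit 11) 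
(.nd (nat_lit 9) (.lf (nat_lit 5773722639) (dlOf (nat_lit 1) (nat_lit 0x8004000200080e2882))) 
(.lf (nat_lit 5234755087) (dlOf (nat_lit 2) (nat_lit 0x180680006c040038002000c00080d3682)))) 
(.nd (nat_lit 29) 
(.lf (nat_lit 5771627535) (dlOf (nat_lit 1) (nat_lit 0x50008000800200160008005f83))) 
(.lf (nat_lit 6308498447) (dlOf (nat_lit 1) (nat_lit 0x400080d5f81))))))) (.nd (nat_lit 6) 
(.nd (nat_lit 30) (.nd (nat_lit 16) (.nd (nat_lit 7) 
(.lf (nat_lit 471072783) (dlOf (nat_lit 1) (nat_lit 0x20008260281))) 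
(.lf (nat_lit 474219919) (dlOf (nat_lit 1) (nat_lit 0x48004000200190e3602)))) (.nd (nat_lit 27) 
(.lf (nat_lit 2483355663) (dlOf (nat_lit 2) (nat_lit 0x80940347e04003c004002c00080d0882))) 
(.nd (nat_lit 31) (.lf (nat_lit 470089743) (dlOf (nat_lit 1) (nat_lit 0xc00200020008040482))) 
(.lf (nat_lit 2617573391) (dlOf (nat_lit 21) (nat_lit 0x82030000601780b600b80009e0c03a405e001c02e00190090001381802280bc0009a04062805c023e0290002382014d017000118080fb00b807180220004504008a02f0002201007801780010c0804000bc0008404001805e0004102021a02f00020010053017800300b80007c0804d405e0003c0201ae02f00670170000e01003600bc006805c0003504037802f000190101bc0178000bc0803f00bc0002c04074005e028002e0000a020001017800000080290008000400200140008100183)))))) 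
(.nd (nat_lit 10) (.nd (nat_lit 7) (.nd (nat_lit 20) 
(.lf (nat_lit 3557556239) (dlOf (nat_lit 8) (nat_lit 0xc0470006d0100bd037800f80d000a4056000bf0600f406800cb0248057012001b0076016a02100a7010001f8000001181c03b00ec002207400ef038007781ac026c0d2008c06800e50338079818803ac0be01dc05c0073025006e0124029c09001e404300ee020007c80f4038807601e00370083018007980a802dc0420128020010500c000b8000001166000380ce01c604900cc0240067808403000400008a0a00040490004301000a0378000280801880080090002000c0008260183))) 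
(.lf (nat_lit 6377177103) (dlOf (nat_lit 1) (nat_lit 0x200280b0001)))) 
(.lf (nat_lit 3557036687) (dlOf (nat_lit 1) (nat_lit 0x4800802b4002004c0008128c83)))) 
(.nd (nat_lit 21) (.lf (nat_lit 6375605263) (dlOf (nat_lit 1) (nat_lit 0x20028002881))) 
(.lf (nat_lit 6377702415) (dlOf (nat_lit 1) (nat_lit 0x8004000200080e2882)))))) (.nd (nat_lit 27) 
(.nd (nat_lit 9) (.nd (nat_lit 12) (.nd (nat_lit 16) 
(.lf (nat_lit 6241386575) (dlOf (nat_lit 1) (nat_lit 0x4004000200080d0002))) 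
(.lf (nat_lit 872742991) (dlOf (nat_lit 20) (nat_lit 0x341000000144081678000000a0040b240000004f02059e000000270102c90000001340817c8000000980403680000004b02065c0360323018819780880a8c03204040140237007809b8008000841c0b1c000000400205920000001d8103350000000e808164000000072040b240000003802059c0000001b8102ce0000000d80817f80000006a0409c40000003402005000000019810008000000000080148008003c002001800080b0683)))) 
(.lf (nat_lit 3557036111) (dlOf (nat_lit 1) (nat_lit 0xcc002004c0008127d82)))) (.nd (nat_lit 7) 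
(.lf (nat_lit 3557035855) (dlOf (nat_lit 3) (nat_lit 0x40380052b0100070308029340800180080140002006c0008127783))) 
(.lf (nat_lit 3557037775) (dlOf (nat_lit 1) (nat_lit 0x8002812a001))))) (.nd (nat_lit 16) 
(.nd (nat_lit 19) (.lf (nat_lit 470024271) (dlOf (nat_lit 1) (nat_lit 0x400400020008031002))) 
(.lf (nat_lit 6377177167) (dlOf (nat_lit 9) (nat_lit 0x3f8484000ac040260242000550201601210002a010026091000088080660488000260401a02440001202017c122000088100b60910000400800380080094002000200080b0683)))) 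
(.nd (nat_lit 9) 
(.lf (nat_lit 2080702543) (dlOf (nat_lit 9) (nat_lit 0x1a20390002a81006601c8001500800300e403140040005304020002700ff00500008810006009c0003404011c04e0001602001c02700009810004013800044080540008022c00201ee00080b0683))) 
(.lf (nat_lit 1008011855) (dlOf (nat_lit 1) (nat_lit 0xb8004007c0008985282))))))))) 
(.nd (nat_lit 27) (.nd (nat_lit 19) (.nd (nat_lit 28) (.nd (nat_lit 16) (.nd (nat_lit 29) 
(.nd (nat_lit 20) (.nd (nat_lit 6) (.nd (nat_lit 7) 
(.lf (nat_lit 25436175) (dlOf (nat_lit 1) (nat_lit 0x800200020008c00102))) 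
(.lf (nat_lit 1074012303) (dlOf (nat_lit 1) (nat_lit 0x400400020018090102)))) 
(.lf (nat_lit 35924559) (dlOf (nat_lit 1) (nat_lit 0x20019015281)))) (.nd (nat_lit 6) 
(.nd (nat_lit 7) 
(.lf (nat_lit 30679055) (dlOf (nat_lit 3) (nat_lit 0x2591a003f7810001c7d0001d19c00e4e08004000400100008e40782))) 
(.lf (nat_lit 20195727) (dlOf (nat_lit 1) (nat_lit 0x7000189d4e81)))) 
(.lf (nat_lit 26484815) (dlOf (nat_lit 1) (nat_lit 0x1000400040008c50702))))) (.nd (nat_lit 6) 
(.nd (nat_lit 10) (.nd (nat_lit 26) 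
(.lf (nat_lit 537141263) (dlOf (nat_lit 1) (nat_lit 0x80080010002003a0008030883))) 
(.lf (nat_lit 3825475599) (dlOf (nat_lit 2) (nat_lit 0x2a024002ba018160480)))) 
(.lf (nat_lit 4899220495) (dlOf (nat_lit 1) (nat_lit 0xe8004001200180d5f82)))) (.nd (nat_lit 7) 
(.lf (nat_lit 537141327) (dlOf (nat_lit 1) (nat_lit 0x400400020008031002))) 
(.lf (nat_lit 2751735759) (dlOf (nat_lit 4) (nat_lit 0xc10c0001102001c0860000801000f044800182200001a080004004000c0018004482)))))) 
(.nd (nat_lit 22) (.nd (nat_lit 30) (.nd (nat_lit 6) 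
(.lf (nat_lit 6509895695) (dlOf (nat_lit 1) (nat_lit 0x400400260008160482))) 
(.lf (nat_lit 6442787279) (dlOf (nat_lit 1) (nat_lit 0x200081b0a01)))) (.nd (nat_lit 29) 
(.lf (nat_lit 3221561359) (dlOf (nat_lit 1) (nat_lit 0x400200020008140482))) 
(.lf (nat_lit 5905915919) (dlOf (nat_lit 1) (nat_lit 0x400400260008160482))))) (.nd (nat_lit 6) 
(.nd (nat_lit 9) (.lf (nat_lit 23404559) (dlOf (nat_lit 1) (nat_lit 0x20018b80001))) 
(.lf (nat_lit 23405071) (dlOf (nat_lit 1) (nat_lit 0x80018b80d81)))) 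
(.lf (nat_lit 2755993679) (dlOf (nat_lit 1) (nat_lit 0x200181c0f81)))))) (.nd (nat_lit 26) 
(.nd (nat_lit 6) (.nd (nat_lit 7) (.nd (nat_lit 16) 
(.lf (nat_lit 1342447631) (dlOf (nat_lit 3) (nat_lit 0x3804a0022700800582500112e040010004000a0008030882))) 
(.lf (nat_lit 268771343) (dlOf (nat_lit 1) (nat_lit 0x60008003400200240008140a03)))) 
(.nd (nat_lit 8) (.lf (nat_lit 3493079183) (dlOf (nat_lit 1) (nat_lit 0xf4004002200080f4802))) 
(.lf (nat_lit 3489934735) (dlOf (nat_lit 2) (nat_lit 0x203d8000600800300080010002000a0008006c83))))) 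
(.nd (nat_lit 31) (.nd (nat_lit 16) 
(.lf (nat_lit 5637414991) (dlOf (nat_lit 1) (nat_lit 0x200180d0001))) 
(.lf (nat_lit 4563738703) (dlOf (nat_lit 1) (nat_lit 0x8008023c002006c00080d0503)))) 
(.nd (nat_lit 7) (.lf (nat_lit 3494191183) (dlOf (nat_lit 1) (nat_lit 0x200181c0f81))) 
(.lf (nat_lit 3490000079) (dlOf (nat_lit 1) (nat_lit 0x20008006401)))))) (.nd (nat_lit 31) 
(.nd (nat_lit 6) (.nd (nat_lit 7) 
(.lf (nat_lit 1409556495) (dlOf (nat_lit 1) (nat_lit 0x80080010002003a0008030883))) 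
(.lf (nat_lit 1946427535) (dlOf (nat_lit 1) (nat_lit 0x400400020018090102)))) 
(.lf (nat_lit 1409556559) (dlOf (nat_lit 1) (nat_lit 0x400400020008031002)))) (.nd (nat_lit 16) 
(.nd (nat_lit 7) (.lf (nat_lit 4093912079) (dlOf (nat_lit 1) (nat_lit 0xc00400040008002882))) 
(.lf (nat_lit 3557044367) (dlOf (nat_lit 1) (nat_lit 0x128008010800200ee0008127d83)))) 
(.nd (nat_lit 6) 
(.lf (nat_lit 2483363855) (dlOf (nat_lit 3) (nat_lit 0x9202500d208100470128068fc0800080080048002002c00080d0883))) 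
(.lf (nat_lit 2483363919) (dlOf (nat_lit 2) (nat_lit 0x220150002e0180d0d00)))))))) 
(.nd (nat_lit 20) (.nd (nat_lit 10) (.nd (nat_lit 6) (.nd (nat_lit 22) (.nd (nat_lit 26) 
(.lf (nat_lit 1343037455) (dlOf (nat_lit 1) (nat_lit 0x40018140101))) 
(.lf (nat_lit 3557629967) (dlOf (nat_lit 2) (nat_lit 0x28118002e204002000400020008280182)))) 
(.nd (nat_lit 16) (.lf (nat_lit 21766159) (dlOf (nat_lit 1) (nat_lit 0x400400020008a70482))) 
(.lf (nat_lit 21831695) (dlOf (nat_lit 1) (nat_lit 0x20028a70481))))) (.nd (nat_lit 22) 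
(.nd (nat_lit 24) (.lf (nat_lit 9183311) (dlOf (nat_lit 1) (nat_lit 0x800400040008530682))) 
(.lf (nat_lit 59514959) (dlOf (nat_lit 11) (nat_lit 0x1d33f0000d80805699f80006a0402b4cfc0003402024667d016933e00ba1650054cb2602d24e6016526a001c0fc80002c1c02d8cfa02165940000a8201b52ca0019935000022080310cfa0248594000080200c533e80921650000060800eccfa024a594000010200cd33e80671650000000800ec00200220009800702)))) 
(.lf (nat_lit 13377615) (dlOf (nat_lit 1) (nat_lit 0xb800400ac0018721902))))) (.nd (nat_lit 8) 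
(.nd (nat_lit 23) (.lf (nat_lit 36447247) (dlOf (nat_lit 1) (nat_lit 0x20009072881))) 
(.lf (nat_lit 61613071) (dlOf (nat_lit 1) (nat_lit 0x8008000400200020009922883)))) (.nd (nat_lit 7) 
(.lf (nat_lit 70001935) (dlOf (nat_lit 1) (nat_lit 0x40018e63001))) 
(.lf (nat_lit 67907471) (dlOf (nat_lit 1) (nat_lit 0x40018337781)))))) (.nd (nat_lit 6) 
(.nd (nat_lit 9) (.nd (nat_lit 24) (.nd (nat_lit 7) 
(.lf (nat_lit 39592975) (dlOf (nat_lit 1) (nat_lit 0x20019192881))) 
(.lf (nat_lit 50078863) (dlOf (nat_lit 2) (nat_lit 0x2c545000000194c2b00)))) (.nd (nat_lit 10) 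
(.lf (nat_lit 22814735) (dlOf (nat_lit 1) (nat_lit 0x390008000800200020008b30103))) 
(.lf (nat_lit 56370191) (dlOf (nat_lit 1) (nat_lit 0x20009732881))))) (.nd (nat_lit 7) 
(.nd (nat_lit 8) (.lf (nat_lit 8142351) (dlOf (nat_lit 1) (nat_lit 0x2001851ce01))) 
(.lf (nat_lit 8200975) (dlOf (nat_lit 1) (nat_lit 0x3000200240008512102)))) 
(.lf (nat_lit 54274959) (dlOf (nat_lit 1) (nat_lit 0x40019655c81))))) (.nd (nat_lit 7) 
(.nd (nat_lit 8) 
(.lf (nat_lit 1346183247) (dlOf (nat_lit 4) (nat_lit 0xa20af8095857804741ae024e09b012604580005c2801b057c02c01ae0001604006015f00a006b8000001002b0008006c00200520008e60703))) 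
(.nd (nat_lit 11) (.lf (nat_lit 1909071) (dlOf (nat_lit 1) (nat_lit 0x20018150601))) 
(.lf (nat_lit 8202575) (dlOf (nat_lit 1) (nat_lit 0xc0008514d81))))) (.nd (nat_lit 8) 
(.lf (nat_lit 8135887) (dlOf (nat_lit 1) (nat_lit 0x8008000c00200020008512d83))) 
(.lf (nat_lit 50078671) (dlOf (nat_lit 2) (nat_lit 0x24953c0292e0400e4004000600194c2882)))))))) 
(.nd (nat_lit 28) (.nd (nat_lit 16) (.nd (nat_lit 31) (.nd (nat_lit 29) (.nd (nat_lit 26) 
(.lf (nat_lit 134488079) (dlOf (nat_lit 1) (nat_lit 0x20028030881))) 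
(.lf (nat_lit 201596943) (dlOf (nat_lit 1) (nat_lit 0x20028030881)))) (.nd (nat_lit 6) 
(.lf (nat_lit 671358991) (dlOf (nat_lit 3) (nat_lit 0xa0094006004400bf8040006025005fa818160480))) 
(.lf (nat_lit 671359055) (dlOf (nat_lit 3) (nat_lit 0x4004a0054302001602500000018160900))))) 
(.nd (nat_lit 6) (.nd (nat_lit 19) 
(.lf (nat_lit 3892584463) (dlOf (nat_lit 1) (nat_lit 0x80080008002000c0008160003))) 
(.lf (nat_lit 2819366927) (dlOf (nat_lit 1) (nat_lit 0x1c002000a0008250202)))) (.nd (nat_lit 11) 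
(.lf (nat_lit 3892584527) (dlOf (nat_lit 8) (nat_lit 0x14066001a024000d011000e8058000c028001c70a000605400090198009809000440440040016000700a0007103000180cc000c0480008022001a00b000100500038414000c066000a0240007011000d0058000c028001c10a000a033000501200068088007402c0006014000e0050004019800200900008044003a016000300a0006fc2800100cc00360040008004003a0018160182))) 
(.lf (nat_lit 3959699535) (dlOf (nat_lit 1) (nat_lit 0x2002811a701)))))) (.nd (nat_lit 29) 
(.nd (nat_lit 26) (.nd (nat_lit 30) 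
(.lf (nat_lit 134553615) (dlOf (nat_lit 3) (nat_lit 0xd021800d440802a00ec0000004001000200480008070502))) 
(.lf (nat_lit 3355779087) (dlOf (nat_lit 2) (nat_lit 0x17000000000040030002000e0008110102)))) 
(.nd (nat_lit 6) (.nd (nat_lit 31) 
(.lf (nat_lit 201662479) (dlOf (nat_lit 3) (nat_lit 0xd021800b440802a00ec0000004001000200480008070502))) 
(.lf (nat_lit 2349146127) (dlOf (nat_lit 3) (nat_lit 0x9202500ed30100470128076900800080080048002002c00080d0883)))) 
(.lf (nat_lit 2349146191) (dlOf (nat_lit 2) (nat_lit 0x220150002a8180d0d00))))) (.nd (nat_lit 6) 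
(.nd (nat_lit 19) (.nd (nat_lit 26) 
(.lf (nat_lit 2818908175) (dlOf (nat_lit 1) (nat_lit 0x20008003c00200180008130003))) 
(.lf (nat_lit 3959758863) (dlOf (nat_lit 1) (nat_lit 0x400200020008140482)))) 
(.lf (nat_lit 2819432463) (dlOf (nat_lit 8) (nat_lit 0xc044000660100bd037800f80d000a4056000b10600f406500cb0230057011401b0072016a02100a7010001f8000001121c03b00ec002207400ef038007781ac03ac0d0013606600460328072819003cc0be01dc05c00ee0248039811c037008c014e04500f2020007c80f4038807201e00350083018007980a802dc0420128020010500c000b8000001106000380c801c604600cc022806780840300040000870a00040460004181000a0378000280801880080090002000c0008280183)))) 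
(.nd (nat_lit 7) 
(.lf (nat_lit 3892650063) (dlOf (nat_lit 1) (nat_lit 0x90008004800200600008180703))) 
(.lf (nat_lit 2818908367) (dlOf (nat_lit 2) (nat_lit 0x100c0000000200080008130481))))))) 
(.nd (nat_lit 6) (.nd (nat_lit 30) (.nd (nat_lit 16) (.nd (nat_lit 19) (.nd (nat_lit 26) 
(.lf (nat_lit 3087278095) (dlOf (nat_lit 2) (nat_lit 0x2a02400584818160480))) 
(.lf (nat_lit 470032399) (dlOf (nat_lit 3) (nat_lit 0x3804a003afc08005825001d78040010004000a0008030882)))) 
(.lf (nat_lit 471605263) (dlOf (nat_lit 1) (nat_lit 0x8002002a0008350282)))) (.nd (nat_lit 19) 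
(.lf (nat_lit 2617581583) (dlOf (nat_lit 21) (nat_lit 0x50017802b80b8036c0240004f0600fe02f00f90090001381000180bc016c0240004d0400d001200026010057017003700a4022c022000470600ba02e0002008800118100f000b804300220004504008402f00720090001101005400bc0254024000430400ba02f00450090001081000280bc0008204006405e0004002008402f0001f01003f0178000f00804b80bc00c405c01700120001c030058017803980480006a08035805e0156012000190200d6017805500480005e0802d005e007202e00ae0090000501802e80480000004026800400040018100182))) 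
(.lf (nat_lit 470622223) (dlOf (nat_lit 1) (nat_lit 0x40018140101))))) (.nd (nat_lit 26) 
(.nd (nat_lit 7) (.nd (nat_lit 10) 
(.lf (nat_lit 5773205519) (dlOf (nat_lit 1) (nat_lit 0x24004000400080b0002))) 
(.lf (nat_lit 6308506639) (dlOf (nat_lit 1) (nat_lit 0x10002004600080d5f82)))) 
(.lf (nat_lit 5771635599) (dlOf (nat_lit 1) (nat_lit 0x400400020018005c82)))) (.nd (nat_lit 7) 
(.nd (nat_lit 19) 
(.lf (nat_lit 1543774223) (dlOf (nat_lit 3) (nat_lit 0xa009400600440066304000602500330018160480))) 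
(.lf (nat_lit 6377185295) (dlOf (nat_lit 1) (nat_lit 0x24004000400080b0002)))) 
(.lf (nat_lit 6375613839) (dlOf (nat_lit 1) (nat_lit 0x3e0028003601)))))) (.nd (nat_lit 26) 
(.nd (nat_lit 16) (.nd (nat_lit 7) 
(.lf (nat_lit 5773205583) (dlOf (nat_lit 9) (nat_lit 0x50260000560200161300002a01004009f0000880802084c4000340401c826200013020154131000090100720988000440803304c40002004008c002003c00080b0682))) 
(.lf (nat_lit 4697891023) (dlOf (nat_lit 2) (nat_lit 0x6011000168180c1800)))) (.nd (nat_lit 8) 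
(.lf (nat_lit 4697956431) (dlOf (nat_lit 1) (nat_lit 0x8008023c002006c00080d0503))) 
(.lf (nat_lit 3624217935) (dlOf (nat_lit 4) (nat_lit 0x401140010088003a03e000901e000480dc002406a00120000000a070001022000500f8002407800140370000984000a01b8000440800c8008001800200020008146a03))))) 
(.nd (nat_lit 8) (.nd (nat_lit 19) 
(.lf (nat_lit 1543774287) (dlOf (nat_lit 3) (nat_lit 0x4004a00aec02001602500000018160900))) 
(.lf (nat_lit 6377185359) (dlOf (nat_lit 9) (nat_lit 0x50242000560200161210002a010040098800088080208488000340401c824400013020154122000090100720910000440803304880002004008c002003c00080b0682)))) 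
(.nd (nat_lit 7) 
(.lf (nat_lit 6376137039) (dlOf (nat_lit 2) (nat_lit 0x209f00002c080010008000800200020008090d03))) 
(.lf (nat_lit 5838807503) (dlOf (nat_lit 1) (nat_lit 0x200081b0a01)))))))))) (.nd (nat_lit 16) 
(.nd (nat_lit 13) (.nd (nat_lit 6) (.nd (nat_lit 20) (.nd (nat_lit 7) (.nd (nat_lit 26) 
(.nd (nat_lit 29) (.nd (nat_lit 8) 
(.lf (nat_lit 15499279) (dlOf (nat_lit 1) (nat_lit 0xa20028800281))) 
(.lf (nat_lit 298255) (dlOf (nat_lit 1) (nat_lit 0x20028006701)))) (.nd (nat_lit 27) 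
(.nd (nat_lit 28) 
(.lf (nat_lit 2684649487) (dlOf (nat_lit 2) (nat_lit 0x189019000114080aa8008002c00200820008100183))) 
(.lf (nat_lit 1879343119) (dlOf (nat_lit 1) (nat_lit 0x10000800d0002004200080e0483)))) 
(.lf (nat_lit 671383567) (dlOf (nat_lit 11) (nat_lit 0x13001300ed50100970098076a00800e8094015804401da604004802500590110076901002f009403aba04017804a01d4d02005002500ea60100210128075240800b809403a8604004804a01d3f0201f20028170881))))) 
(.nd (nat_lit 28) (.nd (nat_lit 27) 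
(.lf (nat_lit 2214887439) (dlOf (nat_lit 1) (nat_lit 0x30008002400200020008100183))) 
(.nd (nat_lit 30) 
(.lf (nat_lit 6644072463) (dlOf (nat_lit 2) (nat_lit 0x3008c0006a040010004000e00180d0382))) 
(.lf (nat_lit 3422846991) (dlOf (nat_lit 10) (nat_lit 0x1100580004f0200c803200023810011019000500ac0008c080ba00640004502000e02c00021010027019003700ac0007c0800400580003c0200700320001c0100190160000d4080820008000400200080008120183))))) 
(.nd (nat_lit 19) (.nd (nat_lit 29) 
(.lf (nat_lit 1543798799) (dlOf (nat_lit 11) (nat_lit 0x13001300d2281009700980690c0800e8094015804401a4104004802500590110068fc1002f0094033f00400a004a019f10200bc02500cf80100210128067b40800b8094033b804004804a019da0201f20028170881))) 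
(.lf (nat_lit 1006927887) (dlOf (nat_lit 1) (nat_lit 0x10000800d0002004200080e0483)))) 
(.lf (nat_lit 3557589007) (dlOf (nat_lit 1) (nat_lit 0x1c002000a0008270202)))))) (.nd (nat_lit 8) 
(.nd (nat_lit 21) (.nd (nat_lit 26) 
(.lf (nat_lit 1074036879) (dlOf (nat_lit 1) (nat_lit 0xa0028090101))) 
(.lf (nat_lit 1946452111) (dlOf (nat_lit 1) (nat_lit 0xa0028090101)))) 
(.lf (nat_lit 23363727) (dlOf (nat_lit 1) (nat_lit 0x20028b80101)))) (.nd (nat_lit 9) 
(.nd (nat_lit 11) (.lf (nat_lit 4563698063) (dlOf (nat_lit 1) (nat_lit 0x8004000a00180c5d82))) 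
(.lf (nat_lit 36473231) (dlOf (nat_lit 1) (nat_lit 0x40019074e81)))) (.nd (nat_lit 19) 
(.lf (nat_lit 5100571535) (dlOf (nat_lit 1) (nat_lit 0x800180d5c81))) 
(.lf (nat_lit 46959503) (dlOf (nat_lit 1) (nat_lit 0x60029385c81))))))) (.nd (nat_lit 19) 
(.nd (nat_lit 21) (.nd (nat_lit 10) (.nd (nat_lit 22) 
(.lf (nat_lit 471105551) (dlOf (nat_lit 1) (nat_lit 0x800400080008270202))) 
(.lf (nat_lit 30703631) (dlOf (nat_lit 2) (nat_lit 0x44c8d001fbc0802e80080030002006c0008e40783)))) 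
(.lf (nat_lit 39093263) (dlOf (nat_lit 1) (nat_lit 0x20019192881)))) (.nd (nat_lit 7) 
(.lf (nat_lit 24412175) (dlOf (nat_lit 1) (nat_lit 0x134002003e0008b90682))) 
(.lf (nat_lit 20222351) (dlOf (nat_lit 1) (nat_lit 0x4400289d8381))))) (.nd (nat_lit 23) 
(.nd (nat_lit 10) (.lf (nat_lit 471629839) (dlOf (nat_lit 2) (nat_lit 0x808e002c9818360280))) 
(.lf (nat_lit 56394767) (dlOf (nat_lit 1) (nat_lit 0x20009732881)))) (.nd (nat_lit 21) 
(.lf (nat_lit 10256399) (dlOf (nat_lit 3) (nat_lit 0x1e228076a008000ef5803734040048004000c00085c0882))) 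
(.lf (nat_lit 29130767) (dlOf (nat_lit 1) (nat_lit 0x20018dc0a01))))))) (.nd (nat_lit 19) 
(.nd (nat_lit 30) (.nd (nat_lit 8) (.nd (nat_lit 29) (.nd (nat_lit 20) 
(.lf (nat_lit 19169359) (dlOf (nat_lit 1) (nat_lit 0x800200020008970202))) 
(.lf (nat_lit 47480911) (dlOf (nat_lit 2) (nat_lit 0x4b04c0000004001c00400020019400002)))) 
(.nd (nat_lit 26) 
(.lf (nat_lit 671383631) (dlOf (nat_lit 8) (nat_lit 0xd401100013008055809404800440004b04002e0220002501010d01280a980880008008039004a02840220001f8200f101280ac00880007c0800c00440003d0200b40018171001))) 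
(.lf (nat_lit 3020193871) (dlOf (nat_lit 2) (nat_lit 0x2e00000000018150700))))) (.nd (nat_lit 7) 
(.lf (nat_lit 20221263) (dlOf (nat_lit 1) (nat_lit 0x4002000200089d6a02))) (.nd (nat_lit 9) 
(.lf (nat_lit 2392527) (dlOf (nat_lit 1) (nat_lit 0x20018150a01))) 
(.lf (nat_lit 2751760335) (dlOf (nat_lit 5) (nat_lit 0x140860000881000105c801782180002008003c10c0000f0200160890007044000034100060008002c00200140008004483)))))) 
(.nd (nat_lit 8) (.nd (nat_lit 26) (.nd (nat_lit 27) 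
(.lf (nat_lit 3758391375) (dlOf (nat_lit 1) (nat_lit 0x400400020008170702))) 
(.lf (nat_lit 1208254543) (dlOf (nat_lit 2) (nat_lit 0x1802700190050000881000280080014002001200080b0683)))) 
(.nd (nat_lit 29) 
(.lf (nat_lit 1543798863) (dlOf (nat_lit 8) (nat_lit 0xd401100014c08055809404800440005204002e0220002881010d01280a980880008e08039004a0284022000230200f101280ac00880008a0800c0044000440200b40018171001))) 
(.lf (nat_lit 2080669775) (dlOf (nat_lit 2) (nat_lit 0x1802700190050000881000280080014002001200080b0683))))) 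
(.nd (nat_lit 7) (.lf (nat_lit 3624176975) (dlOf (nat_lit 1) (nat_lit 0x420028146a01))) 
(.nd (nat_lit 26) (.lf (nat_lit 4026827215) (dlOf (nat_lit 1) (nat_lit 0x40028090a01))) 
(.lf (nat_lit 3288629711) (dlOf (nat_lit 1) (nat_lit 0x40028090a01))))))) (.nd (nat_lit 20) 
(.nd (nat_lit 7) (.nd (nat_lit 8) (.nd (nat_lit 10) 
(.lf (nat_lit 17596495) (dlOf (nat_lit 2) (nat_lit 0xadd880086ebc0009d0a00140000002f8488e0200))) 
(.lf (nat_lit 36471887) (dlOf (nat_lit 1) (nat_lit 0x60008000400200020009072883)))) 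
(.lf (nat_lit 6376161615) (dlOf (nat_lit 1) (nat_lit 0x30008001400200100008090d03)))) 
(.nd (nat_lit 27) 
(.lf (nat_lit 4362895823) (dlOf (nat_lit 2) (nat_lit 0x40b80001702000200181a0a01))) 
(.lf (nat_lit 4228678095) (dlOf (nat_lit 2) (nat_lit 0x40aa0001702000200181a0a01))))) 
(.nd (nat_lit 9) (.nd (nat_lit 7) (.nd (nat_lit 23) 
(.lf (nat_lit 1346142287) (dlOf (nat_lit 2) (nat_lit 0x430a6001e835c0002e08007000400200008e60702))) 
(.lf (nat_lit 45908047) (dlOf (nat_lit 1) (nat_lit 0x20019360701)))) 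
(.lf (nat_lit 14450895) (dlOf (nat_lit 1) (nat_lit 0x6000400180008750482)))) (.nd (nat_lit 10) 
(.lf (nat_lit 68979279) (dlOf (nat_lit 1) (nat_lit 0x18008003000200080008845283))) 
(.lf (nat_lit 8160847) (dlOf (nat_lit 1) (nat_lit 0xd8008003800200080008513883)))))))) 
(.nd (nat_lit 6) (.nd (nat_lit 27) (.nd (nat_lit 21) (.nd (nat_lit 29) (.nd (nat_lit 7) 
(.nd (nat_lit 8) 
(.lf (nat_lit 2214895631) (dlOf (nat_lit 2) (nat_lit 0x80028001140800d00080008002001a0008100183))) 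
(.lf (nat_lit 306447) (dlOf (nat_lit 1) (nat_lit 0x20028006701)))) (.nd (nat_lit 9) 
(.lf (nat_lit 4563706255) (dlOf (nat_lit 3) (nat_lit 0xd00f0019f80800180b8001403c0067d04000a00280c5d81))) 
(.lf (nat_lit 46967695) (dlOf (nat_lit 1) (nat_lit 0x400400020009385c82))))) (.nd (nat_lit 26) 
(.nd (nat_lit 10) (.nd (nat_lit 28) 
(.lf (nat_lit 2684657679) (dlOf (nat_lit 4) (nat_lit 0x80330002501001c019802e00b000082080d6c064007202b0001d828110100))) 
(.lf (nat_lit 2953093135) (dlOf (nat_lit 2) (nat_lit 0x300a000640080040008000c00200060008100183)))) 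
(.lf (nat_lit 1610916879) (dlOf (nat_lit 1) (nat_lit 0x40028092881)))) (.nd (nat_lit 30) 
(.lf (nat_lit 604282895) (dlOf (nat_lit 2) (nat_lit 0x301e0000ac080040008003400200020008130203))) 
(.lf (nat_lit 3825508367) (dlOf (nat_lit 3) (nat_lit 0x20028005c00001a4504000800a001900000690c100038008002c00200240008170883)))))) 
(.nd (nat_lit 25) (.nd (nat_lit 19) (.nd (nat_lit 7) 
(.lf (nat_lit 31761423) (dlOf (nat_lit 1) (nat_lit 0x8008000400200020008e92883))) 
(.lf (nat_lit 20230543) (dlOf (nat_lit 1) (nat_lit 0x4002000200089d8382)))) (.nd (nat_lit 20) 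
(.lf (nat_lit 15507471) (dlOf (nat_lit 1) (nat_lit 0x40028800281))) 
(.lf (nat_lit 29138959) (dlOf (nat_lit 1) (nat_lit 0x20028dc0a01))))) (.nd (nat_lit 8) 
(.nd (nat_lit 19) 
(.lf (nat_lit 62169103) (dlOf (nat_lit 1) (nat_lit 0x6000800a000200ba0009960003))) 
(.lf (nat_lit 45916175) (dlOf (nat_lit 1) (nat_lit 0x8008001000200020009370203)))) (.nd (nat_lit 7) 
(.lf (nat_lit 41197839) (dlOf (nat_lit 1) (nat_lit 0x20029223b01))) 
(.lf (nat_lit 52733327) (dlOf (nat_lit 1) (nat_lit 0x6400400340019573602))))))) (.nd (nat_lit 26) 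
(.nd (nat_lit 32) (.nd (nat_lit 29) 
(.lf (nat_lit 1476698127) (dlOf (nat_lit 2) (nat_lit 0x20045001400f00022c100010008003400200020008140183))) 
(.lf (nat_lit 3087310863) (dlOf (nat_lit 3) (nat_lit 0x20028005c00001daa04000800a00190000076a0100038008002c00200240008170883)))) 
(.nd (nat_lit 7) 
(.lf (nat_lit 5773238287) (dlOf (nat_lit 1) (nat_lit 0x15800802f000201ae00080b0003))) 
(.lf (nat_lit 5771668367) (dlOf (nat_lit 1) (nat_lit 0x100018005c81))))) (.nd (nat_lit 7) 
(.nd (nat_lit 19) (.nd (nat_lit 30) 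
(.lf (nat_lit 6644080655) (dlOf (nat_lit 1) (nat_lit 0x4004000200080e0482))) 
(.lf (nat_lit 3422855183) (dlOf (nat_lit 2) (nat_lit 0x189019000114080aa8008002c00200820008120183)))) 
(.lf (nat_lit 6377218063) (dlOf (nat_lit 1) (nat_lit 0x15800802f000201ae00080b0003)))) 
(.nd (nat_lit 8) (.lf (nat_lit 1543807119) (dlOf (nat_lit 1) (nat_lit 0x80008183e81))) 
(.lf (nat_lit 738503567) (dlOf (nat_lit 1) (nat_lit 0xe0028095c81))))))) (.nd (nat_lit 19) 
(.nd (nat_lit 29) (.nd (nat_lit 7) (.nd (nat_lit 20) 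
(.lf (nat_lit 1208262735) (dlOf (nat_lit 2) (nat_lit 0xa0138000880800180080034002001a00080b0683))) 
(.lf (nat_lit 9740367) (dlOf (nat_lit 1) (nat_lit 0x400400020018580502)))) (.nd (nat_lit 8) 
(.lf (nat_lit 268738767) (dlOf (nat_lit 1) (nat_lit 0x240028111b81))) (.nd (nat_lit 21) 
(.lf (nat_lit 6509863375) (dlOf (nat_lit 1) (nat_lit 0x40028157101))) 
(.lf (nat_lit 2400719) (dlOf (nat_lit 1) (nat_lit 0x4c00200c20008150a02)))))) (.nd (nat_lit 26) 
(.nd (nat_lit 27) (.lf (nat_lit 3758399567) (dlOf (nat_lit 2) (nat_lit 0x2e00000000018170700))) 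
(.lf (nat_lit 3087310927) (dlOf (nat_lit 1) (nat_lit 0x3400200080008171002)))) (.nd (nat_lit 27) 
(.lf (nat_lit 3825508431) (dlOf (nat_lit 1) (nat_lit 0x3400200080008171002))) (.nd (nat_lit 28) 
(.lf (nat_lit 738500687) (dlOf (nat_lit 1) (nat_lit 0x20028090001))) 
(.lf (nat_lit 2080677967) (dlOf (nat_lit 2) (nat_lit 0xa0138000880800180080034002001a00080b0683))))))) 
(.nd (nat_lit 20) (.nd (nat_lit 21) (.nd (nat_lit 26) 
(.lf (nat_lit 1343004751) (dlOf (nat_lit 1) (nat_lit 0xa8008004000200100008130d03))) 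
(.lf (nat_lit 470589519) (dlOf (nat_lit 1) (nat_lit 0xa8008004000200100008130d03)))) 
(.lf (nat_lit 53256271) (dlOf (nat_lit 1) (nat_lit 0x18008000c00200060009570003)))) 
(.nd (nat_lit 7) (.nd (nat_lit 9) 
(.lf (nat_lit 1346150479) (dlOf (nat_lit 2) (nat_lit 0x2029800220d70000b828e60700))) 
(.lf (nat_lit 8169039) (dlOf (nat_lit 3) (nat_lit 0x641780000e0100170bc0000000800a0008002000200080008513883)))) 
(.lf (nat_lit 1876175) (dlOf (nat_lit 1) (nat_lit 0x400400020008150482)))))))) (.nd (nat_lit 13) 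
(.nd (nat_lit 6) (.nd (nat_lit 21) (.nd (nat_lit 26) (.nd (nat_lit 22) (.nd (nat_lit 29) 
(.nd (nat_lit 10) (.nd (nat_lit 27) 
(.lf (nat_lit 3221585935) (dlOf (nat_lit 5) (nat_lit 0x180c802d080400e408c014d40200680460014c81004f02300000008011800801cc00201440008150503))) 
(.lf (nat_lit 3355803663) (dlOf (nat_lit 21) (nat_lit 0x50019002b80c4036c0240004f0600fe03200f90090001381000180c8016c0240004d0400d001200026010057018803700b0022c022000470600ba0310002008800118100f000c404300220004504008403200720090001101005400c80254024000430400ba03200450090001081000280c800082040064064000400200840320001f01003f0190000f00804b80c800c406201700120001c030058019003980480006a0803580640156012000190200d6019005500480005e0802d0064007203100ae0090000501802e80480000004026800400040018120182)))) 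
(.lf (nat_lit 8750095) (dlOf (nat_lit 1) (nat_lit 0x40028512881)))) (.nd (nat_lit 19) 
(.nd (nat_lit 28) (.lf (nat_lit 537231375) (dlOf (nat_lit 1) (nat_lit 0x80018060481))) 
(.lf (nat_lit 4026892303) (dlOf (nat_lit 2) (nat_lit 0xa018000538080058008003c002002000080c0903)))) 
(.lf (nat_lit 537755663) (dlOf (nat_lit 2) (nat_lit 0x50120000000800b00080054002001a0008160203))))) 
(.nd (nat_lit 7) (.nd (nat_lit 10) 
(.lf (nat_lit 22904847) (dlOf (nat_lit 1) (nat_lit 0x18008001000200060008b40183))) 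
(.lf (nat_lit 39158799) (dlOf (nat_lit 1) (nat_lit 0x400200020009192882)))) 
(.lf (nat_lit 21332367) (dlOf (nat_lit 1) (nat_lit 0x400200020008a35d82))))) (.nd (nat_lit 27) 
(.nd (nat_lit 28) (.nd (nat_lit 10) 
(.lf (nat_lit 67469327) (dlOf (nat_lit 1) (nat_lit 0xe0018160281))) 
(.lf (nat_lit 2751824911) (dlOf (nat_lit 1) (nat_lit 0x20018002881)))) (.nd (nat_lit 19) 
(.lf (nat_lit 1409646607) (dlOf (nat_lit 1) (nat_lit 0x80018060481))) 
(.lf (nat_lit 1410170895) (dlOf (nat_lit 2) (nat_lit 0x50120000000800b00080054002001a0008160203))))) 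
(.nd (nat_lit 20) (.nd (nat_lit 28) 
(.lf (nat_lit 3959783439) (dlOf (nat_lit 5) (nat_lit 0x1c811802c8604000c064015150200680460014981004f02300000008011800801cc00201440008150503))) 
(.lf (nat_lit 2617606159) (dlOf (nat_lit 20) (nat_lit 0x9c060000202f005601700013c1803300bc009405c0004e0400a402f0002681004d017004a80a40008e08023005c00260070002302009e017003e80440008a08012805e0004402011202f000101700010c1003200bc0008404005005e000410200da02f000200100640178000f80806100bc000780401d405e000380200ca02f0001a8100ad0178000c80805800bc0005e0400bc05e0001602012002f00170170000501000a8008007400200040008100183)))) 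
(.lf (nat_lit 471171087) (dlOf (nat_lit 1) (nat_lit 0xc00182a0181)))))) (.nd (nat_lit 7) 
(.nd (nat_lit 19) (.nd (nat_lit 11) (.nd (nat_lit 20) 
(.lf (nat_lit 4096099343) (dlOf (nat_lit 1) (nat_lit 0x8004000200080e2882))) 
(.lf (nat_lit 3493168143) (dlOf (nat_lit 1) (nat_lit 0x8f0008000800200d000080f2883)))) 
(.lf (nat_lit 20286479) (dlOf (nat_lit 1) (nat_lit 0x200289d5f81)))) (.nd (nat_lit 10) 
(.lf (nat_lit 15564815) (dlOf (nat_lit 1) (nat_lit 0x260028800281))) 
(.lf (nat_lit 1345160207) (dlOf (nat_lit 1) (nat_lit 0x8008033000200020008aa2883))))) 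
(.nd (nat_lit 11) (.nd (nat_lit 8) 
(.lf (nat_lit 23429263) (dlOf (nat_lit 1) (nat_lit 0x400200020008b80102))) 
(.lf (nat_lit 20287887) (dlOf (nat_lit 1) (nat_lit 0x80080004002000200089d8383)))) 
(.nd (nat_lit 20) (.lf (nat_lit 36538767) (dlOf (nat_lit 1) (nat_lit 0x20019074e81))) 
(.lf (nat_lit 33393039) (dlOf (nat_lit 1) (nat_lit 0x20008f54e81))))))) (.nd (nat_lit 28) 
(.nd (nat_lit 11) (.nd (nat_lit 22) (.nd (nat_lit 29) (.nd (nat_lit 19) 
(.lf (nat_lit 19234895) (dlOf (nat_lit 1) (nat_lit 0x400200020008970202))) 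
(.lf (nat_lit 884815) (dlOf (nat_lit 1) (nat_lit 0x400400020008031002)))) (.nd (nat_lit 26) 
(.lf (nat_lit 1610973263) (dlOf (nat_lit 3) (nat_lit 0xb8084006403a0000e040036021000900e8000281000300080008002001000080b0683))) 
(.lf (nat_lit 738558031) (dlOf (nat_lit 3) (nat_lit 0xb8084006403a0000e040036021000900e8000281000300080008002001000080b0683))))) 
(.nd (nat_lit 7) (.nd (nat_lit 20) 
(.lf (nat_lit 4554831) (dlOf (nat_lit 1) (nat_lit 0x60028290181))) 
(.lf (nat_lit 55935055) (dlOf (nat_lit 2) (nat_lit 0x9a5348000380800280080014002000600096f0703)))) 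
(.lf (nat_lit 13992143) (dlOf (nat_lit 1) (nat_lit 0x400200020008750482))))) (.nd (nat_lit 7) 
(.nd (nat_lit 19) 
(.lf (nat_lit 45451855) (dlOf (nat_lit 1) (nat_lit 0xa00080070002005a0009325283))) 
(.lf (nat_lit 36538959) (dlOf (nat_lit 1) (nat_lit 0x240029075281)))) 
(.lf (nat_lit 8751311) (dlOf (nat_lit 1) (nat_lit 0x20028514a01))))) (.nd (nat_lit 26) 
(.nd (nat_lit 27) (.nd (nat_lit 19) (.nd (nat_lit 29) 
(.lf (nat_lit 2416279631) (dlOf (nat_lit 1) (nat_lit 0x4004000200080d0d02))) 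
(.lf (nat_lit 4026892367) (dlOf (nat_lit 1) (nat_lit 0x980080004002000200080c1903)))) 
(.lf (nat_lit 1346207823) (dlOf (nat_lit 3) (nat_lit 0xd82be004e15e002d06b8022026c0104116000170a00060d70000b018e60700)))) 
(.nd (nat_lit 30) (.lf (nat_lit 2550497359) (dlOf (nat_lit 1) (nat_lit 0x4004000200080d0d02))) 
(.lf (nat_lit 5771722831) (dlOf (nat_lit 1) (nat_lit 0x300018000001))))) (.nd (nat_lit 7) 
(.nd (nat_lit 27) (.lf (nat_lit 335904847) (dlOf (nat_lit 1) (nat_lit 0x2000180d1701))) 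
(.lf (nat_lit 3154477135) (dlOf (nat_lit 1) (nat_lit 0xe00081a0701)))) (.nd (nat_lit 19) 
(.lf (nat_lit 2080735439) (dlOf (nat_lit 1) (nat_lit 0x100080004002000200080c1803))) 
(.lf (nat_lit 470646991) (dlOf (nat_lit 1) (nat_lit 0x400400080008150482)))))))) (.nd (nat_lit 6) 
(.nd (nat_lit 31) (.nd (nat_lit 20) (.nd (nat_lit 29) (.nd (nat_lit 7) (.nd (nat_lit 9) 
(.nd (nat_lit 21) (.lf (nat_lit 17670159) (dlOf (nat_lit 1) (nat_lit 0x8008000c002000200088f0783))) 
(.lf (nat_lit 15573007) (dlOf (nat_lit 1) (nat_lit 0xdc0028800281)))) 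
(.lf (nat_lit 4295342607) (dlOf (nat_lit 1) (nat_lit 0x5c001811b281)))) (.nd (nat_lit 8) 
(.lf (nat_lit 23437455) (dlOf (nat_lit 1) (nat_lit 0x800800cc002004a0008b80103))) 
(.lf (nat_lit 36546959) (dlOf (nat_lit 1) (nat_lit 0x20019074e81))))) (.nd (nat_lit 30) 
(.nd (nat_lit 10) 
(.lf (nat_lit 805675023) (dlOf (nat_lit 3) (nat_lit 0x300aa0168302001405500afe018180500))) 
(.lf (nat_lit 4966425615) (dlOf (nat_lit 1) (nat_lit 0x1e00180e2881)))) (.nd (nat_lit 26) 
(.lf (nat_lit 5905948687) (dlOf (nat_lit 2) (nat_lit 0x1301c00051408013000800ac00200560008160483))) 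
(.lf (nat_lit 1678090255) (dlOf (nat_lit 3) (nat_lit 0x300aa0151402001405500a4c018180500)))))) 
(.nd (nat_lit 24) (.nd (nat_lit 7) (.nd (nat_lit 19) 
(.lf (nat_lit 471179279) (dlOf (nat_lit 1) (nat_lit 0x800282b0281))) 
(.lf (nat_lit 45981711) (dlOf (nat_lit 1) (nat_lit 0x2e0029380001)))) 
(.lf (nat_lit 43361679) (dlOf (nat_lit 17) (nat_lit 0x8292e0023d02002b48c0011e01001da4b8008dc080bed25c0046604024292e002b48c001190201aea4b800dd2300046208054692e0023002030f49700117810026a4b8008b0080d8d25c0045604009692e0022902023349700114010007a898040525c0044c080012918001f2020011497000f7010019a460007480800f00080060002003000092a3603)))) 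
(.nd (nat_lit 7) (.nd (nat_lit 19) 
(.lf (nat_lit 22388751) (dlOf (nat_lit 1) (nat_lit 0x3000200020008ad0202))) 
(.lf (nat_lit 22913039) (dlOf (nat_lit 17) (nat_lit 0x108d480041668000ca58400f00000004f080028d4800027010018eb1002637680235a900098cd0003b00000011c2801075c8002b6d8001ed67004d6a4000433400050000000460c0003d6201fc00000011410011b520000880401cda90005ad4600206680016b33800c12bc000a0000002186003f6a40001080800080000007c040185a900016cd000240000000e01800235200006a040009a9000034020083d7200019010085eb90000bc0800680000004e040004000000000200740008b40181)))) 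
(.lf (nat_lit 20296079) (dlOf (nat_lit 1) (nat_lit 0x9800289d8381)))))) (.nd (nat_lit 28) 
(.nd (nat_lit 26) (.nd (nat_lit 27) 
(.lf (nat_lit 3758465039) (dlOf (nat_lit 1) (nat_lit 0x1e00181e0281))) 
(.lf (nat_lit 3355811855) (dlOf (nat_lit 30) (nat_lit 0xe00330075019009480c40198042026601e00a70090043004402100020008000000278900e30190005007809f002400700110019000802900000009c1802a006401ac012000268201d30090001300809900c4031005800aa029007c013003f8084041403c0098011009a004803100000008e24048006200f0030000a01300098084009403600bc019001100c009e805c011802a035601100810080046801c02cc006000461a024a03103a8008810700000008a0c03e4064019003100dd00f00d980480088022000440a020e032000400f01610048000c000000430801f603202350090001081000180c8000820402d80640004002018403200a40188006807806e4024038a0110001f0500420088000f40806900c8000c06201280120001e030052018802180440007608003006200060110001d020049018803a8044000720803000640258031001900f013f004806b8022000380a000201200350088000dc1000500480006c0401ec064004803100d20090000d41800880480006804005c062004c011000198200f0019004e007801d4024000320601fe03200f70090000bc1007c00c801dc062000160402f003200e401880f180480458022000140801f2032018a009000000100de000812d80020b780008120183))))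 
(.nd (nat_lit 9) 
(.lf (nat_lit 6509928463) (dlOf (nat_lit 2) (nat_lit 0x1301a80075808013000800ac00200560008160483))) 
(.lf (nat_lit 2751838735) (dlOf (nat_lit 1) (nat_lit 0xe8008000c0020062000800b283))))) 
(.nd (nat_lit 27) (.nd (nat_lit 29) 
(.lf (nat_lit 2416287759) (dlOf (nat_lit 1) (nat_lit 0x200280d0881))) 
(.lf (nat_lit 4026900495) (dlOf (nat_lit 2) (nat_lit 0x404000020148005381001a80080074002008c00080c0903)))) 
(.nd (nat_lit 26) (.lf (nat_lit 2550505487) (dlOf (nat_lit 1) (nat_lit 0x200280d0881))) 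
(.lf (nat_lit 2617614351) (dlOf (nat_lit 31) (nat_lit 0x1ae03002c501700013c1005a00c005ac05e056602e00027030033018008c80bc01e405c0004d06013202f0002601003b01780012c0816b80b8040c052000470401000300301017002200a40008c0c01fc060060802e0031014809000440008a1002f405e001802e0002202000601800af00bc05a405c0004306000c0300135017802e00b8000840c074c05e0004102044e02f000200101810178000fc080f980bc02e405c0003e04009c02f0001e8103370178000f00802000bc000720406c805e03ba02e0001c02002a0170000dc0807a80bc07cc05c0003504000c02f000198103180178000c80810600bc00062040cac05e0002f02020602f000170101ad0178000580814980bc017005c0001404013402f009c0170000441007b00bc000000402cc00400300018100182))))))) 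
(.nd (nat_lit 8) (.nd (nat_lit 26) (.nd (nat_lit 7) (.nd (nat_lit 21) (.nd (nat_lit 29) 
(.lf (nat_lit 6442819663) (dlOf (nat_lit 1) (nat_lit 0x380080018002000e00081c0f83))) 
(.lf (nat_lit 1610981455) (dlOf (nat_lit 3) (nat_lit 0x6026001000d40001c0803b00a6013404c00400108038007400014100610004001400080b0682)))) 
(.lf (nat_lit 48603215) (dlOf (nat_lit 1) (nat_lit 0x60019420701)))) (.nd (nat_lit 22) 
(.lf (nat_lit 2818941135) (dlOf (nat_lit 1) (nat_lit 0x40028130481))) 
(.lf (nat_lit 4563151) (dlOf (nat_lit 1) (nat_lit 0xc0018290481))))) (.nd (nat_lit 27) 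
(.nd (nat_lit 11) (.lf (nat_lit 4096106575) (dlOf (nat_lit 1) (nat_lit 0x2a00180e0001))) 
(.lf (nat_lit 2483402831) (dlOf (nat_lit 1) (nat_lit 0x400080034002001600080fa703)))) 
(.nd (nat_lit 28) 
(.lf (nat_lit 738566223) (dlOf (nat_lit 3) (nat_lit 0x6026001000d40001c0803b00a6013404c00400108038007400014100610004001400080b0682))) 
(.lf (nat_lit 5838839887) (dlOf (nat_lit 1) (nat_lit 0x380080018002000e00081c0f83)))))) 
(.nd (nat_lit 21) (.nd (nat_lit 22) 
(.lf (nat_lit 25534799) (dlOf (nat_lit 1) (nat_lit 0x400200020008c10802))) 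
(.lf (nat_lit 21340495) (dlOf (nat_lit 3) (nat_lit 0x91a88001d0080030d440002604000c00400140008a34c82)))) 
(.nd (nat_lit 7) (.lf (nat_lit 23437647) (dlOf (nat_lit 1) (nat_lit 0x400400020018b80602))) 
(.lf (nat_lit 20295119) (dlOf (nat_lit 1) (nat_lit 0x200289d6d01)))))))))))

end

end Pool.Agent.Lib.MP_5854e1_co.Cz

namespace Pool.Agent.Lib.MP_5854e1_co.Cz

noncomputable section

noncomputable def tz157 : DT := (.nd (nat_lit 16) (.nd (nat_lit 13) (.nd (nat_lit 18) 
(.nd (nat_lit 15) (.nd (nat_lit 19) (.nd (nat_lit 29) (.nd (nat_lit 6) (.nd (nat_lit 24) 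
(.nd (nat_lit 8) (.nd (nat_lit 9) 
(.lf (nat_lit 3624009743) (dlOf (nat_lit 2) (nat_lit 0x1c028000c005000140280a0200))) 
(.lf (nat_lit 5637277199) (dlOf (nat_lit 1) (nat_lit 0x4004000200080d3682)))) (.nd (nat_lit 7) 
(.lf (nat_lit 2617382159) (dlOf (nat_lit 1) (nat_lit 0x600280a9681))) 
(.lf (nat_lit 1409419663) (dlOf (nat_lit 1) (nat_lit 0x3000200340008004e82))))) (.nd (nat_lit 7) 
(.nd (nat_lit 20) (.nd (nat_lit 22) 
(.lf (nat_lit 25296911) (dlOf (nat_lit 1) (nat_lit 0x800400040018bf0882))) 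
(.lf (nat_lit 21102607) (dlOf (nat_lit 1) (nat_lit 0x40018a10481)))) 
(.lf (nat_lit 24248335) (dlOf (nat_lit 1) (nat_lit 0x20008001000200080008b90683)))) 
(.nd (nat_lit 8) (.lf (nat_lit 20058767) (dlOf (nat_lit 1) (nat_lit 0x80080004002000200089d8c83))) 
(.lf (nat_lit 20059023) (dlOf (nat_lit 1) (nat_lit 0x4004000200189d9082)))))) (.nd (nat_lit 10) 
(.nd (nat_lit 24) (.nd (nat_lit 8) 
(.lf (nat_lit 4563533903) (dlOf (nat_lit 1) (nat_lit 0xe0028090001))) 
(.lf (nat_lit 138063) (dlOf (nat_lit 1) (nat_lit 0x8002800bc81)))) (.nd (nat_lit 21) 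
(.lf (nat_lit 25296975) (dlOf (nat_lit 2) (nat_lit 0x1f916000bc3800011c1000f8008002c00200720008bf0d03))) 
(.lf (nat_lit 52559951) (dlOf (nat_lit 8) (nat_lit 0x1e982400fcc11007e5fd803dafe801ed6520102b28008553d803aa9a4003d3180001712000cc12000c5fd8008aca40002c0c02756520001102000ec1200085fd8013aca4000200c00198240010bfb002159480001018002b048009965200002040022c1200175fd80092ca4000000c002800400140019550702))))) 
(.nd (nat_lit 7) (.nd (nat_lit 8) 
(.lf (nat_lit 6509694031) (dlOf (nat_lit 1) (nat_lit 0x20028146081))) 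
(.lf (nat_lit 132431) (dlOf (nat_lit 1) (nat_lit 0x1000200040008003302)))) 
(.lf (nat_lit 3221363919) (dlOf (nat_lit 1) (nat_lit 0x6c0040004000811c282)))))) (.nd (nat_lit 26) 
(.nd (nat_lit 28) (.nd (nat_lit 6) (.nd (nat_lit 8) 
(.lf (nat_lit 4831972367) (dlOf (nat_lit 1) (nat_lit 0x80028055f81))) 
(.lf (nat_lit 671221519) (dlOf (nat_lit 1) (nat_lit 0x8008000c00200040008143b83)))) 
(.lf (nat_lit 1610745423) (dlOf (nat_lit 9) (nat_lit 0x1ce0150000980807000a80298052013c0090001283012d0150000900807800a80004604049005400c4029003000e80310000000441004ac054000210201d802a00020048000801009580a80003e04016c00406d40008093882)))) 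
(.nd (nat_lit 7) (.nd (nat_lit 30) 
(.lf (nat_lit 2952921103) (dlOf (nat_lit 2) (nat_lit 0x30010000260400cc00400320008020202))) 
(.lf (nat_lit 1879179279) (dlOf (nat_lit 1) (nat_lit 0x400200040008050a02)))) 
(.lf (nat_lit 805445007) (dlOf (nat_lit 1) (nat_lit 0x980080018002005a000811c903))))) 
(.nd (nat_lit 6) (.nd (nat_lit 7) (.nd (nat_lit 28) 
(.lf (nat_lit 2885812239) (dlOf (nat_lit 2) (nat_lit 0x1c026000c005000088280a0200))) 
(.lf (nat_lit 1006764047) (dlOf (nat_lit 1) (nat_lit 0x400200040008050a02)))) 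
(.lf (nat_lit 738331279) (dlOf (nat_lit 1) (nat_lit 0x1c00200020008095482)))) (.nd (nat_lit 7) 
(.nd (nat_lit 27) (.lf (nat_lit 1677859151) (dlOf (nat_lit 1) (nat_lit 0x4002811ab81))) 
(.lf (nat_lit 3959560527) (dlOf (nat_lit 2) (nat_lit 0x1f023001278080598008000400200b0000811ab83)))) 
(.lf (nat_lit 2080506831) (dlOf (nat_lit 1) (nat_lit 0x400200020008092882))))))) (.nd (nat_lit 26) 
(.nd (nat_lit 6) (.nd (nat_lit 21) (.nd (nat_lit 24) (.nd (nat_lit 27) 
(.lf (nat_lit 1342832655) (dlOf (nat_lit 1) (nat_lit 0x88008001c002001600080e0483))) 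
(.lf (nat_lit 134873103) (dlOf (nat_lit 3) (nat_lit 0xb404100d2281000902080690c0800300080008002004200080d0883)))) 
(.nd (nat_lit 20) (.lf (nat_lit 21626895) (dlOf (nat_lit 1) (nat_lit 0x8008000400200020008a50083))) 
(.lf (nat_lit 26869775) (dlOf (nat_lit 1) (nat_lit 0x140028c80481))))) (.nd (nat_lit 22) 
(.nd (nat_lit 24) 
(.lf (nat_lit 11141135) (dlOf (nat_lit 3) (nat_lit 0x1d81cb00da0dd0074866c0008c0c00c8000000450200040018660181))) 
(.lf (nat_lit 27918351) (dlOf (nat_lit 4) (nat_lit 0x11bf20010d8b00086b7000235400059a9e0010d3d00036638002303800637e80079bf2003cd8c001d6c5800f35e00079aee003cd6e001d6ac8000b5400069a9e003cd3e001e69e800f34ac0075a54003ccf6001e6708005b36000719ae000ecc7001d663000f25f400792f00008b2c003ed5000396a78013331c001140c0004002001a0008d40182)))) 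
(.nd (nat_lit 20) (.lf (nat_lit 15335439) (dlOf (nat_lit 1) (nat_lit 0x4a00287e0481))) 
(.lf (nat_lit 16384015) (dlOf (nat_lit 2) (nat_lit 0x633a0002200800e00080068002000c00088a0183)))))) 
(.nd (nat_lit 28) (.nd (nat_lit 7) 
(.lf (nat_lit 3221880911) (dlOf (nat_lit 4) (nat_lit 0x400280002e0400300ac001601e0000882000300f0000000800300080028002001c00081a1583))) 
(.lf (nat_lit 23724495) (dlOf (nat_lit 1) (nat_lit 0x400200020008b80a02)))) (.nd (nat_lit 20) 
(.nd (nat_lit 27) 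
(.lf (nat_lit 805961807) (dlOf (nat_lit 2) (nat_lit 0x4055008000500006c1000380080004002000a0008201583))) 
(.lf (nat_lit 5772017743) (dlOf (nat_lit 2) (nat_lit 0x530140001900800e800800a400200b40008040503)))) 
(.lf (nat_lit 1343881295) (dlOf (nat_lit 1) (nat_lit 0x60008370201)))))) (.nd (nat_lit 27) 
(.nd (nat_lit 6) (.nd (nat_lit 9) (.nd (nat_lit 10) 
(.lf (nat_lit 4362731535) (dlOf (nat_lit 1) (nat_lit 0x2e00080e0a01))) 
(.lf (nat_lit 2752119823) (dlOf (nat_lit 1) (nat_lit 0x20028002881)))) 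
(.lf (nat_lit 2752125455) (dlOf (nat_lit 1) (nat_lit 0x2002800b281)))) (.nd (nat_lit 21) 
(.lf (nat_lit 1678377039) (dlOf (nat_lit 2) (nat_lit 0x16c0ac005401300008028201900))) 
(.lf (nat_lit 2754216015) (dlOf (nat_lit 3) (nat_lit 0x80420001a0100060340001818c0006408000c002000800080c1902))))) 
(.nd (nat_lit 30) (.nd (nat_lit 28) 
(.lf (nat_lit 201981967) (dlOf (nat_lit 3) (nat_lit 0xb404100ed50100090208076a00800300080008002004200080d0883))) 
(.nd (nat_lit 29) 
(.lf (nat_lit 470417423) (dlOf (nat_lit 1) (nat_lit 0x88008001c002001600080e0483))) 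
(.lf (nat_lit 3154771983) (dlOf (nat_lit 4) (nat_lit 0x3802c003f781001300c001d0008000807c00e720401e0004004c0008320782))))) 
(.nd (nat_lit 6) (.lf (nat_lit 4228513807) (dlOf (nat_lit 1) (nat_lit 0x2e00080e0a01))) 
(.nd (nat_lit 28) 
(.lf (nat_lit 3960078415) (dlOf (nat_lit 3) (nat_lit 0x180e00004e04000403c0001002001a00081a1901))) 
(.lf (nat_lit 6375997519) (dlOf (nat_lit 2) (nat_lit 0x530140001840800e800800a400200b40008040503))))))))) 
(.nd (nat_lit 31) (.nd (nat_lit 19) (.nd (nat_lit 6) (.nd (nat_lit 32) (.nd (nat_lit 10) 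
(.nd (nat_lit 9) (.nd (nat_lit 20) 
(.lf (nat_lit 27426831) (dlOf (nat_lit 1) (nat_lit 0x40028ce0181))) 
(.lf (nat_lit 24281103) (dlOf (nat_lit 1) (nat_lit 0x8800200300008b90682)))) 
(.lf (nat_lit 201490959) (dlOf (nat_lit 1) (nat_lit 0xc0028018401)))) (.nd (nat_lit 7) 
(.lf (nat_lit 20089871) (dlOf (nat_lit 1) (nat_lit 0x2c004000400189d5f82))) 
(.lf (nat_lit 167311) (dlOf (nat_lit 1) (nat_lit 0x40018006c81))))) (.nd (nat_lit 29) 
(.nd (nat_lit 27) 
(.lf (nat_lit 5368872975) (dlOf (nat_lit 5) (nat_lit 0x1402a002c01300030088007804001a9610001002a00040140015009800080440018020000a00e006a506000900a000c004c00240220012010000900700352028006804c0018022000c01000060070035182000100080020002000e0008060a03))) 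
(.lf (nat_lit 5503090703) (dlOf (nat_lit 5) (nat_lit 0x1402a002c01300030088007804000fa010001002a00040140015009800080440018020000a00e003e786000900a000c004c002402200120100009007001f3428006804c0018022000c0100006007001f2c2000100080020002000e0008060a03)))) 
(.nd (nat_lit 7) (.lf (nat_lit 5167546383) (dlOf (nat_lit 1) (nat_lit 0x16400080a0a01))) 
(.lf (nat_lit 4832002447) (dlOf (nat_lit 1) (nat_lit 0x48008000400200020008085d83)))))) 
(.nd (nat_lit 8) (.nd (nat_lit 9) 
(.lf (nat_lit 52592719) (dlOf (nat_lit 11) (nat_lit 0x1d6098000d808056b04c0006a0402b582600034020246c12016960880ba2ca4054d65002d2a7b0165534801c26300002e1c02d98240216b290000b0201b55948019a9a4000220803118240248b29000080200c560900922ca4000080800ed824024ab29000010200cd60900672ca4000000800ec00200220009550702))) 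
(.lf (nat_lit 1007848015) (dlOf (nat_lit 1) (nat_lit 0x40008805281)))) (.nd (nat_lit 7) 
(.lf (nat_lit 1543671119) (dlOf (nat_lit 1) (nat_lit 0x580028146a01))) 
(.lf (nat_lit 1342341583) (dlOf (nat_lit 1) (nat_lit 0x20008004c00200100008017103)))))) 
(.nd (nat_lit 21) (.nd (nat_lit 26) (.nd (nat_lit 20) (.nd (nat_lit 22) (.nd (nat_lit 27) 
(.lf (nat_lit 805994511) (dlOf (nat_lit 1) (nat_lit 0xc0008001800200160008210103))) 
(.lf (nat_lit 134905871) (dlOf (nat_lit 3) (nat_lit 0x280a8000c03d00d2282000302a000100f403486080018002000e00080d0882)))) 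
(.lf (nat_lit 21659663) (dlOf (nat_lit 1) (nat_lit 0x8c002000a0008a60a02)))) 
(.lf (nat_lit 10125327) (dlOf (nat_lit 1) (nat_lit 0x200285b0481)))) (.nd (nat_lit 6) 
(.nd (nat_lit 27) 
(.lf (nat_lit 1678409743) (dlOf (nat_lit 1) (nat_lit 0xc0008001800200160008210103))) 
(.lf (nat_lit 202014735) (dlOf (nat_lit 3) (nat_lit 0x280aa000c03d00ed502000302a800100f403b50080018002000e00080d0882)))) 
(.lf (nat_lit 4362764367) (dlOf (nat_lit 2) (nat_lit 0x100cc000200400a8004000200080f1902))))) 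
(.nd (nat_lit 6) (.nd (nat_lit 8) (.nd (nat_lit 20) 
(.lf (nat_lit 27951119) (dlOf (nat_lit 2) (nat_lit 0x8a3a00045818d40180))) 
(.lf (nat_lit 16416783) (dlOf (nat_lit 4) (nat_lit 0x69f540040fa8002a00000044830003cfc80011f54002cfa800127a900073988002202800a9f54007cfa80008704000e00188a0181)))) 
(.lf (nat_lit 6378127631) (dlOf (nat_lit 1) (nat_lit 0x60018113b01)))) (.nd (nat_lit 23) 
(.lf (nat_lit 54165583) (dlOf (nat_lit 1) (nat_lit 0xc00400060009630702))) 
(.lf (nat_lit 45776975) (dlOf (nat_lit 1) (nat_lit 0xe0019360701))))))) (.nd (nat_lit 26) 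
(.nd (nat_lit 7) (.nd (nat_lit 6) (.nd (nat_lit 29) (.nd (nat_lit 19) 
(.lf (nat_lit 3490873359) (dlOf (nat_lit 3) (nat_lit 0x3008800d2281001e04400690c080128008000c002002a0008030883))) 
(.lf (nat_lit 3492446223) (dlOf (nat_lit 3) (nat_lit 0x2208a00d2281001e04500690c0800480080124002000e00080d0883)))) 
(.nd (nat_lit 28) 
(.lf (nat_lit 2684518415) (dlOf (nat_lit 3) (nat_lit 0x1d800b00023010001005800114080678008015400200020008080183))) 
(.lf (nat_lit 4026695695) (dlOf (nat_lit 1) (nat_lit 0x400400020008030882))))) (.nd (nat_lit 10) 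
(.nd (nat_lit 12) 
(.lf (nat_lit 3490873423) (dlOf (nat_lit 1) (nat_lit 0x38008000400200060008031003))) 
(.lf (nat_lit 3758264399) (dlOf (nat_lit 1) (nat_lit 0x20008000c00200040008127d83)))) 
(.lf (nat_lit 3892485199) (dlOf (nat_lit 1) (nat_lit 0xa001815bf81))))) (.nd (nat_lit 8) 
(.nd (nat_lit 6) (.nd (nat_lit 9) 
(.lf (nat_lit 3491397775) (dlOf (nat_lit 1) (nat_lit 0x20028090101))) 
(.lf (nat_lit 3758264975) (dlOf (nat_lit 1) (nat_lit 0x228008011400200940008128c83)))) 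
(.lf (nat_lit 3758266575) (dlOf (nat_lit 1) (nat_lit 0x10008000c0020002000812a883)))) 
(.nd (nat_lit 6) (.nd (nat_lit 9) 
(.lf (nat_lit 3221392783) (dlOf (nat_lit 1) (nat_lit 0x100008116c81))) 
(.lf (nat_lit 3355607951) (dlOf (nat_lit 1) (nat_lit 0x200180a2581)))) 
(.lf (nat_lit 3491922383) (dlOf (nat_lit 5) (nat_lit 0x203840001902000e1c20000c01001d0e100005c0800507080000004000800400960018090a02)))))) 
(.nd (nat_lit 9) (.nd (nat_lit 20) (.nd (nat_lit 29) (.nd (nat_lit 27) 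
(.lf (nat_lit 3288498191) (dlOf (nat_lit 1) (nat_lit 0x400400020008030882))) 
(.lf (nat_lit 3422715919) (dlOf (nat_lit 2) (nat_lit 0xa0190000f4080008008000c002000c0008070103)))) 
(.nd (nat_lit 6) 
(.lf (nat_lit 2754248719) (dlOf (nat_lit 3) (nat_lit 0x2208700ed501001e0438076a00800480080124002000e00080d0883))) 
(.lf (nat_lit 2755822031) (dlOf (nat_lit 1) (nat_lit 0x64004001a00081b0a02))))) (.nd (nat_lit 6) 
(.nd (nat_lit 7) 
(.lf (nat_lit 2752675855) (dlOf (nat_lit 3) (nat_lit 0x3008500ed501001e0428076a0080128008000c002002a0008030883))) 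
(.lf (nat_lit 2753200271) (dlOf (nat_lit 1) (nat_lit 0x20028090101)))) 
(.lf (nat_lit 2752675919) (dlOf (nat_lit 1) (nat_lit 0x38008000400200060008031003))))) 
(.nd (nat_lit 11) (.nd (nat_lit 8) 
(.lf (nat_lit 2214756879) (dlOf (nat_lit 1) (nat_lit 0x4004000200080a1482))) 
(.lf (nat_lit 2214757135) (dlOf (nat_lit 1) (nat_lit 0x30004002400080a2102)))) (.nd (nat_lit 6) 
(.lf (nat_lit 3020070415) (dlOf (nat_lit 1) (nat_lit 0x47800802040020108000812ce03))) 
(.lf (nat_lit 2751633999) (dlOf (nat_lit 1) (nat_lit 0x2002800b601))))))))) (.nd (nat_lit 6) 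
(.nd (nat_lit 15) (.nd (nat_lit 28) (.nd (nat_lit 24) (.nd (nat_lit 31) (.nd (nat_lit 20) 
(.nd (nat_lit 9) (.lf (nat_lit 1208352783) (dlOf (nat_lit 1) (nat_lit 0x2400280c0001))) 
(.nd (nat_lit 11) (.lf (nat_lit 134611471) (dlOf (nat_lit 1) (nat_lit 0x400400460008090d82))) 
(.lf (nat_lit 1745226255) (dlOf (nat_lit 1) (nat_lit 0x3000180e5081))))) (.nd (nat_lit 7) 
(.nd (nat_lit 9) (.lf (nat_lit 5636111) (dlOf (nat_lit 1) (nat_lit 0xc004000200083b0202))) 
(.lf (nat_lit 8259087) (dlOf (nat_lit 2) (nat_lit 0x99e80001b018513680)))) 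
(.lf (nat_lit 8261519) (dlOf (nat_lit 1) (nat_lit 0x20028517781))))) (.nd (nat_lit 10) 
(.nd (nat_lit 22) (.nd (nat_lit 26) 
(.lf (nat_lit 3355836431) (dlOf (nat_lit 31) (nat_lit 0x1ae03302c501880013c1005a00cc05ac064056603100027030033019808c80c801e40620004d0601320320002601003b01900012c0816b80c4040c058000470401000330301018802200b00008c0c01fc06606080310031016009000440008a1002f406400180310002202000601980af00c805a40620004306000c0330135019002e00c4000840c074c0640004102044e032000200101810190000fc080f980c802e40620003e04009c0320001e8103370190000f00802000c8000720406c806403ba0310001c02002a0188000dc0807a80c807cc0620003504000c032000198103180190000c80810600c800062040cac0640002f020206032000170101ad0190000580814980c8017006200014040134032009c0188000441007b00c8000000402cc00400300018120182))) 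
(.lf (nat_lit 3288727567) (dlOf (nat_lit 8) (nat_lit 0xc01a000880c003482080040068003203000d1f8200050190068340800780d8033e0040198064019df02004603600cee01000501b0067680800500080008002004000080d0883)))) 
(.lf (nat_lit 2756050959) (dlOf (nat_lit 1) (nat_lit 0x1200081e0081)))) (.nd (nat_lit 8) 
(.lf (nat_lit 2751857679) (dlOf (nat_lit 1) (nat_lit 0x20018002881))) 
(.lf (nat_lit 2754481423) (dlOf (nat_lit 1) (nat_lit 0x200080f6701)))))) (.nd (nat_lit 20) 
(.nd (nat_lit 8) (.nd (nat_lit 7) 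
(.lf (nat_lit 17694735) (dlOf (nat_lit 4) (nat_lit 0x478ce00e1502000292b006748100034958033880800280080024002000c00088f0783))) 
(.lf (nat_lit 19796623) (dlOf (nat_lit 1) (nat_lit 0x80080004002000200089d8c83)))) (.nd (nat_lit 9) 
(.nd (nat_lit 12) (.lf (nat_lit 21365135) (dlOf (nat_lit 1) (nat_lit 0x8008000400200020008a35d83))) 
(.lf (nat_lit 19796367) (dlOf (nat_lit 1) (nat_lit 0x80080004002000200089d8383)))) 
(.lf (nat_lit 19792783) (dlOf (nat_lit 1) (nat_lit 0x4004000200089d2582))))) (.nd (nat_lit 19) 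
(.nd (nat_lit 21) (.nd (nat_lit 25) 
(.lf (nat_lit 22413327) (dlOf (nat_lit 1) (nat_lit 0x400200020008ad0202))) 
(.lf (nat_lit 55967759) (dlOf (nat_lit 1) (nat_lit 0x8008000800200020009700203)))) 
(.lf (nat_lit 62259215) (dlOf (nat_lit 1) (nat_lit 0x8002009c0009990082)))) (.nd (nat_lit 21) 
(.lf (nat_lit 22937615) (dlOf (nat_lit 1) (nat_lit 0x40028b40181))) 
(.lf (nat_lit 25034767) (dlOf (nat_lit 1) (nat_lit 0x118002005a0008be0882))))))) (.nd (nat_lit 27) 
(.nd (nat_lit 30) (.nd (nat_lit 26) 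
(.lf (nat_lit 4563795983) (dlOf (nat_lit 2) (nat_lit 0x80cc00182040208004007600080e0082))) 
(.lf (nat_lit 2483421199) (dlOf (nat_lit 1) (nat_lit 0x800281b0001)))) (.nd (nat_lit 10) 
(.nd (nat_lit 22) 
(.lf (nat_lit 4026925071) (dlOf (nat_lit 8) (nat_lit 0xc01a000880c003b4c080040068003203000ed20200050190075b80800780d803a9a04019806401d4402004603600ea181000501b0074fc0800500080008002004000080d0883))) 
(.lf (nat_lit 3494248463) (dlOf (nat_lit 1) (nat_lit 0x1200081e0081)))) 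
(.lf (nat_lit 3493200911) (dlOf (nat_lit 1) (nat_lit 0x200180f2881))))) (.nd (nat_lit 10) 
(.nd (nat_lit 26) 
(.lf (nat_lit 4698013711) (dlOf (nat_lit 2) (nat_lit 0x80cc002a6040208004007600080e0082))) 
(.nd (nat_lit 31) (.lf (nat_lit 2080768015) (dlOf (nat_lit 1) (nat_lit 0x2400280c0001))) 
(.lf (nat_lit 4228251663) (dlOf (nat_lit 1) (nat_lit 0x5b0008001000200c60008090003))))) 
(.nd (nat_lit 7) (.nd (nat_lit 11) 
(.lf (nat_lit 403047439) (dlOf (nat_lit 1) (nat_lit 0x800180e2881))) 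
(.lf (nat_lit 5771758607) (dlOf (nat_lit 1) (nat_lit 0x400200020008005f82)))) 
(.lf (nat_lit 472777871) (dlOf (nat_lit 1) (nat_lit 0x20028b02b01))))))) (.nd (nat_lit 28) 
(.nd (nat_lit 7) (.nd (nat_lit 31) (.nd (nat_lit 9) (.nd (nat_lit 19) (.nd (nat_lit 22) 
(.lf (nat_lit 9863183) (dlOf (nat_lit 1) (nat_lit 0x20028580001))) 
(.lf (nat_lit 5668879) (dlOf (nat_lit 1) (nat_lit 0x4002000200083c0182)))) 
(.lf (nat_lit 22970383) (dlOf (nat_lit 1) (nat_lit 0x40018b40181)))) (.nd (nat_lit 8) 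
(.lf (nat_lit 134644239) (dlOf (nat_lit 2) (nat_lit 0x4e0310006c818090d80))) 
(.lf (nat_lit 19829519) (dlOf (nat_lit 1) (nat_lit 0x4004000200089d8f82))))) (.nd (nat_lit 26) 
(.nd (nat_lit 29) (.lf (nat_lit 6442876943) (dlOf (nat_lit 1) (nat_lit 0x1600081f0701))) 
(.lf (nat_lit 3758522383) (dlOf (nat_lit 3) (nat_lit 0x2c02e0004601000301700022c0800200080084002002a0008260183)))) 
(.nd (nat_lit 9) (.nd (nat_lit 10) 
(.lf (nat_lit 3288760335) (dlOf (nat_lit 2) (nat_lit 0x320170001040802c000801d8002000400080e0103))) 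
(.lf (nat_lit 2751890447) (dlOf (nat_lit 1) (nat_lit 0x20018002881)))) 
(.lf (nat_lit 2886107663) (dlOf (nat_lit 1) (nat_lit 0x40008158401)))))) (.nd (nat_lit 8) 
(.nd (nat_lit 10) (.nd (nat_lit 26) 
(.lf (nat_lit 134643855) (dlOf (nat_lit 3) (nat_lit 0x18805e0004a02011202f0001d018090100))) 
(.lf (nat_lit 201752719) (dlOf (nat_lit 3) (nat_lit 0x18805e0004a02011202f0001d018090100)))) 
(.lf (nat_lit 40273039) (dlOf (nat_lit 2) (nat_lit 0xa33c800399880004c080030004000200191f2b02)))) 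
(.nd (nat_lit 9) 
(.lf (nat_lit 21397903) (dlOf (nat_lit 3) (nat_lit 0x45b1001104f00010256002210a0033e04000509e000504ac009cc08000800400180008a35d82))) 
(.lf (nat_lit 60197775) (dlOf (nat_lit 1) (nat_lit 0x80080164002005e0009845c83)))))) 
(.nd (nat_lit 8) (.nd (nat_lit 10) (.nd (nat_lit 20) (.nd (nat_lit 26) 
(.lf (nat_lit 4026957839) (dlOf (nat_lit 2) (nat_lit 0x320170001040802c000801d8002000400080e0103))) 
(.lf (nat_lit 4228284431) (dlOf (nat_lit 1) (nat_lit 0x10008000400200020008090003)))) 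
(.lf (nat_lit 1343651855) (dlOf (nat_lit 2) (nat_lit 0x808e005940182d0280)))) (.nd (nat_lit 11) 
(.lf (nat_lit 473334799) (dlOf (nat_lit 1) (nat_lit 0x400400020008ef2882))) 
(.lf (nat_lit 5771791375) (dlOf (nat_lit 1) (nat_lit 0x400200020008005f82))))) (.nd (nat_lit 7) 
(.nd (nat_lit 10) (.lf (nat_lit 805732623) (dlOf (nat_lit 1) (nat_lit 0x1c002000600081a0482))) 
(.lf (nat_lit 1344701711) (dlOf (nat_lit 1) (nat_lit 0x60028983001)))) 
(.lf (nat_lit 3490089359) (dlOf (nat_lit 1) (nat_lit 0x400200020008004e82))))))) (.nd (nat_lit 8) 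
(.nd (nat_lit 15) (.nd (nat_lit 29) (.nd (nat_lit 7) (.nd (nat_lit 22) (.nd (nat_lit 20) 
(.lf (nat_lit 3288727631) (dlOf (nat_lit 3) (nat_lit 0x808000053020466020000238180d0d00))) 
(.lf (nat_lit 26607695) (dlOf (nat_lit 1) (nat_lit 0x400400020008c50702)))) (.nd (nat_lit 19) 
(.lf (nat_lit 48627791) (dlOf (nat_lit 1) (nat_lit 0x5800400060009420702))) 
(.lf (nat_lit 13500495) (dlOf (nat_lit 1) (nat_lit 0x11000200240008730d02))))) (.nd (nat_lit 12) 
(.nd (nat_lit 20) (.lf (nat_lit 1208352975) (dlOf (nat_lit 1) (nat_lit 0x400280c1b81))) 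
(.lf (nat_lit 14024911) (dlOf (nat_lit 3) (nat_lit 0x350e0002a3f00017c1000180000002404008c00400120018750482)))) 
(.nd (nat_lit 9) (.lf (nat_lit 19796175) (dlOf (nat_lit 1) (nat_lit 0x14004000600089d8002))) 
(.lf (nat_lit 19796687) (dlOf (nat_lit 1) (nat_lit 0x80080004002000200089d8c83)))))) 
(.nd (nat_lit 26) (.nd (nat_lit 21) (.nd (nat_lit 28) 
(.lf (nat_lit 1611006031) (dlOf (nat_lit 7) (nat_lit 0x32c053019601a80c38084062403a0000e080002035004701080003410064014c06100420000c0404d0053026c01a8139008409d003a0000a08008401d000048100630298064008400000080034004000400180b0682))) 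
(.lf (nat_lit 4026925135) (dlOf (nat_lit 3) (nat_lit 0x80800004c020466020000200180d0d00)))) 
(.lf (nat_lit 1881538639) (dlOf (nat_lit 8) (nat_lit 0x2b0710000fc08020038c0006c0401b01c6000a0e2003006c003581ec0001e1004581c600900e2011203d80001c1800603880000c0403741c601f607b000020200fd071809181ec0000008000800400100018f40702)))) 
(.nd (nat_lit 28) 
(.lf (nat_lit 738590799) (dlOf (nat_lit 7) (nat_lit 0x32c053019601a80c38084062403a0000e080002035004701080003410064014c06100420000c0404d0053026c01a8139008409d003a0000a08008401d000048100630298064008400000080034004000400180b0682))) 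
(.lf (nat_lit 1007026255) (dlOf (nat_lit 1) (nat_lit 0x8008000800200020008150183)))))) 
(.nd (nat_lit 19) (.nd (nat_lit 22) (.nd (nat_lit 20) 
(.lf (nat_lit 2818998351) (dlOf (nat_lit 1) (nat_lit 0x20008000c00200080008150703))) 
(.lf (nat_lit 26640463) (dlOf (nat_lit 2) (nat_lit 0x29c2a000260200040018c50701)))) 
(.nd (nat_lit 10) (.lf (nat_lit 48660559) (dlOf (nat_lit 1) (nat_lit 0x800200020009420702))) 
(.lf (nat_lit 38175823) (dlOf (nat_lit 1) (nat_lit 0x38008000c00200020009132883))))) 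
(.nd (nat_lit 10) (.nd (nat_lit 20) 
(.lf (nat_lit 21921871) (dlOf (nat_lit 1) (nat_lit 0x400400020008a81002))) 
(.lf (nat_lit 473858127) (dlOf (nat_lit 4) (nat_lit 0x201ae000160200020d70000a81000906b8000000800a0008005400200320008fc0703)))) 
(.lf (nat_lit 19829839) (dlOf (nat_lit 1) (nat_lit 0x900080004002000200089d9303)))))) 
(.nd (nat_lit 7) (.nd (nat_lit 10) (.nd (nat_lit 9) (.nd (nat_lit 15) 
(.lf (nat_lit 58065231) (dlOf (nat_lit 1) (nat_lit 0x400080020002000a00097b8a03))) 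
(.lf (nat_lit 25592143) (dlOf (nat_lit 1) (nat_lit 0x400200020008c10802)))) 
(.lf (nat_lit 19796815) (dlOf (nat_lit 1) (nat_lit 0x38008000c002000800089d8f83)))) 
(.nd (nat_lit 19) (.nd (nat_lit 15) 
(.lf (nat_lit 50726223) (dlOf (nat_lit 1) (nat_lit 0x24004000a00094c3302))) 
(.lf (nat_lit 57050447) (dlOf (nat_lit 1) (nat_lit 0x20019793301)))) (.nd (nat_lit 11) 
(.lf (nat_lit 50201935) (dlOf (nat_lit 1) (nat_lit 0x4002000200094c3302))) 
(.lf (nat_lit 19795279) (dlOf (nat_lit 1) (nat_lit 0x4004000200189d6a02)))))) (.nd (nat_lit 20) 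
(.nd (nat_lit 24) (.nd (nat_lit 9) (.nd (nat_lit 11) 
(.lf (nat_lit 537821647) (dlOf (nat_lit 1) (nat_lit 0x8a00081b0a01))) 
(.lf (nat_lit 1345194447) (dlOf (nat_lit 2) (nat_lit 0x490b28057ec080008008002c00200060008b04e83)))) 
(.lf (nat_lit 1345192911) (dlOf (nat_lit 1) (nat_lit 0x8008000400200020008b02883)))) 
(.nd (nat_lit 9) (.nd (nat_lit 10) 
(.lf (nat_lit 52822479) (dlOf (nat_lit 1) (nat_lit 0x140019571101))) 
(.lf (nat_lit 19795407) (dlOf (nat_lit 1) (nat_lit 0x800289d6d01)))) 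
(.lf (nat_lit 19796943) (dlOf (nat_lit 1) (nat_lit 0x400089d9201))))) (.nd (nat_lit 15) 
(.nd (nat_lit 10) (.lf (nat_lit 3539407) (dlOf (nat_lit 1) (nat_lit 0x20018200a01))) 
(.lf (nat_lit 20319695) (dlOf (nat_lit 2) (nat_lit 0x370b00038c080010008000c002000200089d6d03)))) 
(.nd (nat_lit 21) 
(.lf (nat_lit 43942351) (dlOf (nat_lit 2) (nat_lit 0x2b39c0003a040064004000c00092a1102))) 
(.lf (nat_lit 1346273743) (dlOf (nat_lit 11) (nat_lit 0x2801c0007e04001c00e0003d02000e0070001a8100060038000d008002801c0005404000800e0002002000a0070000e81000600380003008003001c0001204001800e0000002000c0018e81101)))))))))) 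
(.nd (nat_lit 15) (.nd (nat_lit 18) (.nd (nat_lit 19) (.nd (nat_lit 28) (.nd (nat_lit 26) 
(.nd (nat_lit 20) (.nd (nat_lit 23) (.nd (nat_lit 9) 
(.lf (nat_lit 21110799) (dlOf (nat_lit 1) (nat_lit 0x140018a10481))) 
(.lf (nat_lit 1610753551) (dlOf (nat_lit 1) (nat_lit 0xc00400060018093682)))) (.nd (nat_lit 11) 
(.lf (nat_lit 25305103) (dlOf (nat_lit 3) (nat_lit 0x2f22a01a4102000386f00d1f818bf0880))) 
(.lf (nat_lit 8529935) (dlOf (nat_lit 1) (nat_lit 0x400400020018514702))))) (.nd (nat_lit 7) 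
(.nd (nat_lit 6) (.lf (nat_lit 47325199) (dlOf (nat_lit 1) (nat_lit 0x78004002e00093d0082))) 
(.lf (nat_lit 13771087) (dlOf (nat_lit 1) (nat_lit 0x360028750801)))) (.nd (nat_lit 9) 
(.lf (nat_lit 11673743) (dlOf (nat_lit 1) (nat_lit 0x80080004002000200086c0103))) 
(.lf (nat_lit 20066959) (dlOf (nat_lit 1) (nat_lit 0x80080004002000200089d8c83)))))) 
(.nd (nat_lit 6) (.nd (nat_lit 31) (.nd (nat_lit 32) 
(.lf (nat_lit 1140989967) (dlOf (nat_lit 1) (nat_lit 0x60018050081))) 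
(.lf (nat_lit 5435957263) (dlOf (nat_lit 5) (nat_lit 0x300f8001c074000e035003e803000201f800280f80024074000a0350003000001f3c2800300fc002407c000e03a000701a801f342000380fc001807c001203a000901a801f2c200008008004000200020008060a03)))) 
(.nd (nat_lit 27) 
(.lf (nat_lit 2214731791) (dlOf (nat_lit 1) (nat_lit 0x30008002400200020008080183))) 
(.lf (nat_lit 3422691343) (dlOf (nat_lit 5) (nat_lit 0x12401600046020008033000190100060198000500800a80cc0002204000800400080008060182))))) 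
(.nd (nat_lit 7) (.nd (nat_lit 8) 
(.lf (nat_lit 2752651343) (dlOf (nat_lit 1) (nat_lit 0x20018031001))) 
(.lf (nat_lit 3959568719) (dlOf (nat_lit 1) (nat_lit 0x40040044001811ab82)))) 
(.lf (nat_lit 2751604687) (dlOf (nat_lit 4) (nat_lit 0x105c80008294000400a000110600380c9001c05c800e0294007000a000100800020bc00006818004480)))))) 
(.nd (nat_lit 6) (.nd (nat_lit 8) (.nd (nat_lit 30) (.nd (nat_lit 10) 
(.lf (nat_lit 5301739535) (dlOf (nat_lit 5) (nat_lit 0x300f8001c074000e037006a583000201f800280f80024074000a03700030000035282800300fc002407c000e03a000701b8035202000380fc001807c001203a000901b803518200008008004000200020008060a03))) 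
(.lf (nat_lit 939664399) (dlOf (nat_lit 1) (nat_lit 0x200028142881)))) (.nd (nat_lit 20) 
(.lf (nat_lit 2013405199) (dlOf (nat_lit 1) (nat_lit 0x60018050081))) 
(.lf (nat_lit 1343365135) (dlOf (nat_lit 1) (nat_lit 0x300018210281))))) (.nd (nat_lit 10) 
(.lf (nat_lit 3154256143) (dlOf (nat_lit 1) (nat_lit 0x10008000800200020008133b03))) 
(.nd (nat_lit 11) (.lf (nat_lit 2617390351) (dlOf (nat_lit 1) (nat_lit 0x800180a9681))) 
(.lf (nat_lit 805448975) (dlOf (nat_lit 1) (nat_lit 0x9800400040018116702)))))) (.nd (nat_lit 8) 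
(.nd (nat_lit 30) (.nd (nat_lit 27) 
(.lf (nat_lit 2416058447) (dlOf (nat_lit 1) (nat_lit 0x18008008c00200220008031003))) 
(.lf (nat_lit 2550276175) (dlOf (nat_lit 1) (nat_lit 0x18008008c00200220008031003)))) 
(.nd (nat_lit 9) (.lf (nat_lit 3490848847) (dlOf (nat_lit 1) (nat_lit 0x20018031001))) 
(.lf (nat_lit 5637285455) (dlOf (nat_lit 1) (nat_lit 0xc004000200080d3882))))) (.nd (nat_lit 9) 
(.lf (nat_lit 1409428815) (dlOf (nat_lit 3) (nat_lit 0xc02f80004008003017c0001c04004800400040018006a02))) 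
(.lf (nat_lit 3489807183) (dlOf (nat_lit 1) (nat_lit 0x2000800bc81))))))) (.nd (nat_lit 26) 
(.nd (nat_lit 21) (.nd (nat_lit 20) (.nd (nat_lit 23) (.nd (nat_lit 28) 
(.lf (nat_lit 134881295) (dlOf (nat_lit 3) (nat_lit 0x380f4002007001a4504000203d000301c00690c100008008000c002002000080d0883))) 
(.lf (nat_lit 5772025871) (dlOf (nat_lit 1) (nat_lit 0x20018040001)))) (.nd (nat_lit 6) 
(.lf (nat_lit 59383823) (dlOf (nat_lit 1) (nat_lit 0x4002000200097f0202))) 
(.lf (nat_lit 9052623) (dlOf (nat_lit 1) (nat_lit 0x800200680008511102))))) (.nd (nat_lit 10) 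
(.lf (nat_lit 10100751) (dlOf (nat_lit 1) (nat_lit 0xe80080004002002800085b0483))) 
(.lf (nat_lit 43656207) (dlOf (nat_lit 1) (nat_lit 0x8004000200092a2882))))) (.nd (nat_lit 23) 
(.nd (nat_lit 8) (.nd (nat_lit 24) 
(.lf (nat_lit 3492421647) (dlOf (nat_lit 1) (nat_lit 0x18008001c002001000080d0883))) 
(.lf (nat_lit 19537935) (dlOf (nat_lit 1) (nat_lit 0x80080004002000200089c0183)))) 
(.lf (nat_lit 36316431) (dlOf (nat_lit 1) (nat_lit 0x400200ce0009073002)))) (.nd (nat_lit 6) 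
(.nd (nat_lit 24) 
(.lf (nat_lit 11149327) (dlOf (nat_lit 14) (nat_lit 0xac56100052ad80013c100091584007cab60004e040080b04003557d8031156c0008c0c0550ab60004502009c56100262af8001101000b1584017cab60004304007c561000f2ad80010810001956c0007c0401e8ac20003802000855b0001a8100025820003956c0006408001d608000a55b000178200075820001956c000280800b000400240008660182))) 
(.lf (nat_lit 27926543) (dlOf (nat_lit 4) (nat_lit 0x16dfa00016fc80343540026da9e0038d3d001967b0003336001d598e0014cc6000a4bb8002305003337e80175bf200bed8c006f6c5803735b801a1ab200c4d5000996a7804134f801b9a7a00decf600306708037b36001b99ae00cccc700706630004a5dc00116440039bf400bad8b00656a8004d353c0099a7a0018cd8005d66b8038331c00114200044002004e0008d40182)))) 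
(.lf (nat_lit 45752399) (dlOf (nat_lit 1) (nat_lit 0xbc00200820009360702)))))) (.nd (nat_lit 28) 
(.nd (nat_lit 31) (.nd (nat_lit 6) 
(.lf (nat_lit 201990159) (dlOf (nat_lit 3) (nat_lit 0x380f4002007001daa04000203d000301c0076a0100008008000c002002000080d0883))) 
(.lf (nat_lit 1678385231) (dlOf (nat_lit 2) (nat_lit 0xe05600008018201900)))) (.nd (nat_lit 10) 
(.lf (nat_lit 2754224143) (dlOf (nat_lit 1) (nat_lit 0x18008001c002001000080d0883))) 
(.lf (nat_lit 2752128015) (dlOf (nat_lit 1) (nat_lit 0x20028002881))))) (.nd (nat_lit 20) 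
(.nd (nat_lit 30) 
(.lf (nat_lit 3154780175) (dlOf (nat_lit 2) (nat_lit 0xe016001fbc0800f80080054002009c0008320783))) 
(.lf (nat_lit 6376005647) (dlOf (nat_lit 1) (nat_lit 0x20018040001)))) (.nd (nat_lit 6) 
(.lf (nat_lit 4095352847) (dlOf (nat_lit 1) (nat_lit 0x400400020008090002))) 
(.lf (nat_lit 4095352911) (dlOf (nat_lit 1) (nat_lit 0x40008000400200020008090503)))))))) 
(.nd (nat_lit 30) (.nd (nat_lit 6) (.nd (nat_lit 10) (.nd (nat_lit 22) (.nd (nat_lit 31) 
(.nd (nat_lit 21) 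
(.lf (nat_lit 68034575) (dlOf (nat_lit 2) (nat_lit 0x500660004602000800183a0181))) 
(.lf (nat_lit 3022863) (dlOf (nat_lit 1) (nat_lit 0x4e0028200001)))) (.nd (nat_lit 9) 
(.lf (nat_lit 2617647119) (dlOf (nat_lit 2) (nat_lit 0x3800000000040028002002e0008130102))) 
(.lf (nat_lit 2752389647) (dlOf (nat_lit 7) (nat_lit 0x80860025d8100080430012e80800802180094c04001410c004a502001808900030440012501000702240028110004930400160018018401))))) 
(.nd (nat_lit 19) (.lf (nat_lit 5644303) (dlOf (nat_lit 1) (nat_lit 0x1800183b0201))) 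
(.nd (nat_lit 20) (.lf (nat_lit 13508623) (dlOf (nat_lit 1) (nat_lit 0x20008730881))) 
(.lf (nat_lit 22945807) (dlOf (nat_lit 2) (nat_lit 0x3a09d000118080020008002800200020008b40183)))))) 
(.nd (nat_lit 26) (.nd (nat_lit 7) 
(.lf (nat_lit 8273423) (dlOf (nat_lit 1) (nat_lit 0x1800800180020006000851ce03))) (.nd (nat_lit 8) 
(.lf (nat_lit 57025679) (dlOf (nat_lit 1) (nat_lit 0x400400020009792b02))) 
(.lf (nat_lit 43394447) (dlOf (nat_lit 2) (nat_lit 0xd76c003e4040004002000400092a3602))))) 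
(.nd (nat_lit 27) (.nd (nat_lit 28) 
(.lf (nat_lit 2751865871) (dlOf (nat_lit 1) (nat_lit 0x400200020008002882))) 
(.lf (nat_lit 872817679) (dlOf (nat_lit 1) (nat_lit 0x600280e2881)))) 
(.lf (nat_lit 2886083599) (dlOf (nat_lit 1) (nat_lit 0x20028142881)))))) (.nd (nat_lit 21) 
(.nd (nat_lit 8) (.nd (nat_lit 7) (.nd (nat_lit 19) 
(.lf (nat_lit 26615887) (dlOf (nat_lit 5) (nat_lit 0x3d7b4001661600020000001103000ab3e800957b400042080026cfa00335ed00002020002b3e800257b40000008000400200160008c50702))) 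
(.lf (nat_lit 59646031) (dlOf (nat_lit 1) (nat_lit 0xe0029820701)))) 
(.lf (nat_lit 2886084815) (dlOf (nat_lit 1) (nat_lit 0x20028144a01)))) (.nd (nat_lit 10) 
(.lf (nat_lit 4362477903) (dlOf (nat_lit 2) (nat_lit 0x3803200019818090600))) 
(.lf (nat_lit 872817999) (dlOf (nat_lit 1) (nat_lit 0x4002000200080e3302))))) (.nd (nat_lit 7) 
(.nd (nat_lit 10) (.lf (nat_lit 48635983) (dlOf (nat_lit 1) (nat_lit 0x3c002000e0009420702))) 
(.lf (nat_lit 19805263) (dlOf (nat_lit 1) (nat_lit 0x68004000400089d9302)))) (.nd (nat_lit 8) 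
(.lf (nat_lit 19800783) (dlOf (nat_lit 1) (nat_lit 0xe00189d2001))) 
(.lf (nat_lit 3547599) (dlOf (nat_lit 1) (nat_lit 0x4c00200c20008200a02))))))) (.nd (nat_lit 6) 
(.nd (nat_lit 8) (.nd (nat_lit 31) (.nd (nat_lit 10) (.nd (nat_lit 20) 
(.lf (nat_lit 1881546767) (dlOf (nat_lit 1) (nat_lit 0x20008002000200160008f40003))) 
(.lf (nat_lit 1343627279) (dlOf (nat_lit 1) (nat_lit 0x8002002a00082c0282)))) 
(.lf (nat_lit 5771766799) (dlOf (nat_lit 1) (nat_lit 0x400200020008005f82)))) (.nd (nat_lit 26) 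
(.nd (nat_lit 27) (.lf (nat_lit 4026933263) (dlOf (nat_lit 2) (nat_lit 0xc03200ea20180d0880))) 
(.lf (nat_lit 3355844623) (dlOf (nat_lit 36) (nat_lit 0x596033044401880013c1016b00cc0cc4064084003101b00090001382015780cc0e58064082a031018f0090001342011380cc0d8806403cc031000260300e801900012c0800a00c80009404112006204d202c00023820284019822400c4022c060045e02c003c00c802e004400c8020011a007011b0018001184817900cc11f406204c002c00d00148120004409e0000000450c026603301bc01900b200c4030005800044080478033032a01901d180c406bc05803240120002185021601981ab00c807ac062018e02c018f0090001082814a80c800082040e18064000400206dc0320001f81039701900cc80c4008c0220003e06030a03200180188000f41020280c800140620003c0401640320001c81017f019815d00c80bf806200140120001c04001d01900f880c40006e08042806400036020554033039b019019e80c403680240003508001603200100188000d01002a00c80006604108c064000320206ba032000188100d20190000c00821d80c80005e040a640640002e020600032037d0188000581020f80c80038062000140407340320000901016d01900df00c40002208005c06603dc032008b01880000018093000802cc00200cc0008120183))))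 
(.lf (nat_lit 3288735759) (dlOf (nat_lit 2) (nat_lit 0xc03200cef8180d0880))))) (.nd (nat_lit 19) 
(.nd (nat_lit 27) (.lf (nat_lit 3490064783) (dlOf (nat_lit 1) (nat_lit 0x20018004e81))) 
(.lf (nat_lit 1745234319) (dlOf (nat_lit 1) (nat_lit 0x7400280e4e81)))) (.nd (nat_lit 7) 
(.lf (nat_lit 1343103247) (dlOf (nat_lit 1) (nat_lit 0x20008150701))) 
(.lf (nat_lit 1345202575) (dlOf (nat_lit 1) (nat_lit 0x1e0008b04e81)))))) (.nd (nat_lit 8) 
(.nd (nat_lit 21) (.nd (nat_lit 22) (.nd (nat_lit 26) 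
(.lf (nat_lit 4026933327) (dlOf (nat_lit 2) (nat_lit 0xe010000100080190008007000200a800080d0d03))) 
(.lf (nat_lit 3288735823) (dlOf (nat_lit 2) (nat_lit 0xe01000011c080190008007000200a800080d0d03)))) 
(.lf (nat_lit 1346773071) (dlOf (nat_lit 1) (nat_lit 0x30008000400200020009000703)))) 
(.nd (nat_lit 19) 
(.lf (nat_lit 1881546831) (dlOf (nat_lit 6) (nat_lit 0xd01ec0006c04005c1c6001e07b00007820096071804881ec0000e0801ec1c6012807b000020200a4071805501ec0000008000c00400080008f40702))) 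
(.lf (nat_lit 1346248783) (dlOf (nat_lit 1) (nat_lit 0x60028e80001))))) (.nd (nat_lit 10) 
(.nd (nat_lit 7) (.lf (nat_lit 4228260175) (dlOf (nat_lit 2) (nat_lit 0x3803100019018090600))) 
(.lf (nat_lit 1346249167) (dlOf (nat_lit 11) (nat_lit 0x50038000fc08004001c0007a04000800e0003502000c0070001a0100080038000a808003001c0004004002400e0001d02000c0070000601000700380002408003001c0000004001000200040008e81102)))) 
(.nd (nat_lit 19) (.lf (nat_lit 5773862223) (dlOf (nat_lit 2) (nat_lit 0xe13f000128180e3300))) 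
(.lf (nat_lit 1881023823) (dlOf (nat_lit 1) (nat_lit 0x800800d800200920008dd3303))))))))) 
(.nd (nat_lit 26) (.nd (nat_lit 19) (.nd (nat_lit 6) (.nd (nat_lit 20) (.nd (nat_lit 29) 
(.nd (nat_lit 24) (.nd (nat_lit 27) (.nd (nat_lit 18) (.nd (nat_lit 31) 
(.lf (nat_lit 268607503) (dlOf (nat_lit 1) (nat_lit 0x600080034002002400080b0a03))) 
(.lf (nat_lit 6711058447) (dlOf (nat_lit 3) (nat_lit 0x800a00cd302000c016000400a80334810004800800dc00200100008060a03)))) 
(.lf (nat_lit 1074176015) (dlOf (nat_lit 1) (nat_lit 0x20008000c002000400080d0883)))) 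
(.nd (nat_lit 9) (.lf (nat_lit 5771537423) (dlOf (nat_lit 1) (nat_lit 0x400200020008005f82))) 
(.lf (nat_lit 2281873935) (dlOf (nat_lit 1) (nat_lit 0x4004000200080a1482))))) (.nd (nat_lit 10) 
(.nd (nat_lit 21) (.lf (nat_lit 25337871) (dlOf (nat_lit 1) (nat_lit 0x400200020008bf0882))) 
(.lf (nat_lit 27435023) (dlOf (nat_lit 2) (nat_lit 0x865380021c08000800800d800200200008ce0183)))) 
(.lf (nat_lit 54701071) (dlOf (nat_lit 2) (nat_lit 0x32a3000148080048008002800200100009655f83))))) 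
(.nd (nat_lit 18) (.nd (nat_lit 7) (.nd (nat_lit 9) 
(.lf (nat_lit 2684526607) (dlOf (nat_lit 2) (nat_lit 0xa0190000f4080008008000c002000c0008090103))) 
(.lf (nat_lit 2013439503) (dlOf (nat_lit 2) (nat_lit 0x10130001a8080058008001400200060008093683)))) 
(.lf (nat_lit 4832010639) (dlOf (nat_lit 1) (nat_lit 0x400200520008085d82)))) (.nd (nat_lit 27) 
(.lf (nat_lit 1611046927) (dlOf (nat_lit 2) (nat_lit 0x1204e000a01b80576c1000580080058002004a00080c0003))) 
(.lf (nat_lit 2819006479) (dlOf (nat_lit 2) (nat_lit 0x14003f00eb2818150000)))))) (.nd (nat_lit 7) 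
(.nd (nat_lit 24) (.nd (nat_lit 18) 
(.lf (nat_lit 3490881551) (dlOf (nat_lit 1) (nat_lit 0x120008001400200fe0008030883))) 
(.lf (nat_lit 5677071) (dlOf (nat_lit 2) (nat_lit 0x8417000458183c0180)))) (.nd (nat_lit 21) 
(.lf (nat_lit 30580751) (dlOf (nat_lit 4) (nat_lit 0x47234007ef020002dd2003a00100036e9001ce40800280080024002000c0008e40783))) 
(.lf (nat_lit 24289295) (dlOf (nat_lit 1) (nat_lit 0x88002004c0008b90682))))) (.nd (nat_lit 8) 
(.nd (nat_lit 10) (.lf (nat_lit 11706511) (dlOf (nat_lit 1) (nat_lit 0x4002000200086c0102))) 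
(.lf (nat_lit 20362383) (dlOf (nat_lit 1) (nat_lit 0x64004003200089d9502)))) (.nd (nat_lit 9) 
(.lf (nat_lit 3493241231) (dlOf (nat_lit 1) (nat_lit 0xc0028106181))) 
(.lf (nat_lit 20095887) (dlOf (nat_lit 2) (nat_lit 0x50000001c6040008002000200089d2582))))))) 
(.nd (nat_lit 18) (.nd (nat_lit 10) (.nd (nat_lit 20) (.nd (nat_lit 21) 
(.lf (nat_lit 25337935) (dlOf (nat_lit 1) (nat_lit 0x1c00200100008bf0d02))) 
(.lf (nat_lit 52600911) (dlOf (nat_lit 10) (nat_lit 0x4c11000228100d66090048304402857f6014ab2900f8594008229ec03d54d2000170e00b6c12008959480005810007b044011d7f60088b29001553480258000000221400198240074b2900008020001609006c2ca4000080801b98240144b290000102000259480000408061304804656520000004000e0019550701)))) 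
(.nd (nat_lit 7) 
(.lf (nat_lit 3490881615) (dlOf (nat_lit 1) (nat_lit 0xb000801cc002007e0008031003))) 
(.lf (nat_lit 9609423) (dlOf (nat_lit 1) (nat_lit 0x20028571801))))) (.nd (nat_lit 7) 
(.nd (nat_lit 8) (.lf (nat_lit 2013439567) (dlOf (nat_lit 1) (nat_lit 0x400200020008093882))) 
(.lf (nat_lit 805481807) (dlOf (nat_lit 1) (nat_lit 0x20018116a01)))) 
(.lf (nat_lit 805481935) (dlOf (nat_lit 1) (nat_lit 0x46000801c800200220008116d03))))) 
(.nd (nat_lit 21) (.nd (nat_lit 7) (.nd (nat_lit 8) 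
(.lf (nat_lit 2819006543) (dlOf (nat_lit 4) (nat_lit 0xde40000000402063a0000000101032203981b08000000000801fc00200220008150702))) 
(.lf (nat_lit 3624313167) (dlOf (nat_lit 2) (nat_lit 0x6801400034018154c80)))) 
(.lf (nat_lit 14065871) (dlOf (nat_lit 1) (nat_lit 0x20018750481)))) (.nd (nat_lit 22) 
(.lf (nat_lit 44474447) (dlOf (nat_lit 2) (nat_lit 0x399f80000004001c00400020019320002))) 
(.lf (nat_lit 48668751) (dlOf (nat_lit 1) (nat_lit 0x400200020009420702))))))) (.nd (nat_lit 20) 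
(.nd (nat_lit 21) (.nd (nat_lit 27) (.nd (nat_lit 24) (.nd (nat_lit 6) 
(.lf (nat_lit 3221921807) (dlOf (nat_lit 4) (nat_lit 0x4f01f0001300800300ec044005c0003604000e03e000000181b0100))) 
(.lf (nat_lit 42639439) (dlOf (nat_lit 1) (nat_lit 0x8008002c00200020009260703)))) 
(.nd (nat_lit 18) 
(.lf (nat_lit 21667855) (dlOf (nat_lit 2) (nat_lit 0xe4c200082608037b0100010008002400200320008a60a03))) 
(.lf (nat_lit 17735695) (dlOf (nat_lit 1) (nat_lit 0x200288f0781))))) (.nd (nat_lit 28) 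
(.nd (nat_lit 29) 
(.lf (nat_lit 134914063) (dlOf (nat_lit 2) (nat_lit 0xc001d8000ec0807c8008006c00200fe00080e0103))) 
(.lf (nat_lit 2819268623) (dlOf (nat_lit 1) (nat_lit 0x20018210181)))) 
(.lf (nat_lit 5772058639) (dlOf (nat_lit 5) (nat_lit 0xc14f00060a700018534002428600d4b08000214f00020a700050534001428600d4a08001014f000c0a700040534002828600d4808000a14f00060a700048534002428600d460800060008060a01))))) 
(.nd (nat_lit 6) (.nd (nat_lit 22) (.nd (nat_lit 23) 
(.lf (nat_lit 3492454415) (dlOf (nat_lit 1) (nat_lit 0x200280d0881))) 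
(.lf (nat_lit 11182095) (dlOf (nat_lit 1) (nat_lit 0x8008004000200240008670103)))) 
(.lf (nat_lit 15376399) (dlOf (nat_lit 1) (nat_lit 0x1400287e0481)))) (.nd (nat_lit 10) 
(.lf (nat_lit 3492454479) (dlOf (nat_lit 3) (nat_lit 0x4c46400f01eb0002b020022119003e07ac000a80800b0002000800080d0d02))) 
(.lf (nat_lit 19838031) (dlOf (nat_lit 1) (nat_lit 0x4002000200089d9302)))))) (.nd (nat_lit 18) 
(.nd (nat_lit 21) (.nd (nat_lit 7) (.nd (nat_lit 23) 
(.lf (nat_lit 1343922191) (dlOf (nat_lit 1) (nat_lit 0x400400100008380782))) 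
(.lf (nat_lit 10133519) (dlOf (nat_lit 1) (nat_lit 0x400285b0481)))) 
(.lf (nat_lit 60465551) (dlOf (nat_lit 1) (nat_lit 0x8008000400200020009875d83)))) (.nd (nat_lit 6) 
(.lf (nat_lit 16424975) (dlOf (nat_lit 4) (nat_lit 0x112aa00108e700043ea800b1f500020f8a00107a9000339880022438006255800792aa003c8e8001d473800f235000791a600027d5001a3ea000f1f140074f60003c7aa001e3d4800f1e540074f28001675d001c3ae000f1d340078e70000e731001d398000f0f8c00787bc000882c003e7d500393ea00131cc40010e0c0004002001a00088a0182))) 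
(.lf (nat_lit 29007951) (dlOf (nat_lit 1) (nat_lit 0x400200020008da0202))))) (.nd (nat_lit 10) 
(.nd (nat_lit 6) (.nd (nat_lit 21) 
(.lf (nat_lit 27172879) (dlOf (nat_lit 1) (nat_lit 0x20018cb0181))) 
(.lf (nat_lit 29270031) (dlOf (nat_lit 1) (nat_lit 0x8008000400200020008df0183)))) 
(.lf (nat_lit 14590031) (dlOf (nat_lit 1) (nat_lit 0x400200020008770702)))) (.nd (nat_lit 9) 
(.lf (nat_lit 1346282511) (dlOf (nat_lit 1) (nat_lit 0x400400020008e82882))) 
(.lf (nat_lit 8300047) (dlOf (nat_lit 1) (nat_lit 0x400200020008513682)))))))) (.nd (nat_lit 31) 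
(.nd (nat_lit 27) (.nd (nat_lit 11) (.nd (nat_lit 18) (.nd (nat_lit 28) 
(.lf (nat_lit 67280911) (dlOf (nat_lit 2) (nat_lit 0x5007e000460200080018090181))) 
(.lf (nat_lit 4630683663) (dlOf (nat_lit 3) (nat_lit 0x1801400110020025441000a8010012a0040020002000c0008060a02)))) 
(.nd (nat_lit 6) 
(.lf (nat_lit 1946591247) (dlOf (nat_lit 1) (nat_lit 0x20008000c002000400080d0883))) 
(.lf (nat_lit 1410245071) (dlOf (nat_lit 1) (nat_lit 0x8a00081b0a01))))) (.nd (nat_lit 7) 
(.nd (nat_lit 6) (.nd (nat_lit 9) 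
(.lf (nat_lit 604417039) (dlOf (nat_lit 10) (nat_lit 0xe006000144080090030000a004002c0180004f0200040090002701000a0060001300800b80e8006c06e0036034001e0150001102000d010c0094074004a037001f01a001700a8008c040000430c001603a0001f010023021801300e8009806e000403400250100000cc280090008007c00200260008205f83))) 
(.lf (nat_lit 1677900303) (dlOf (nat_lit 1) (nat_lit 0x2680080220002003a000811b283)))) 
(.lf (nat_lit 1677899855) (dlOf (nat_lit 10) (nat_lit 0x1b02a800534080058154002860400380ac001c053000e00980047c18007815800480a6001e0130008f03000d02b0008014c00300260011d06001e05600110298007804c002380c000c0a60011b0200200530008481001e009800000080110008002c0020002000811a703)))) 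
(.nd (nat_lit 9) 
(.lf (nat_lit 1677895823) (dlOf (nat_lit 2) (nat_lit 0x80000001404003000200100008114802))) 
(.lf (nat_lit 1141025423) (dlOf (nat_lit 1) (nat_lit 0x20008095481)))))) (.nd (nat_lit 8) 
(.nd (nat_lit 32) (.nd (nat_lit 6) (.nd (nat_lit 18) 
(.lf (nat_lit 202022927) (dlOf (nat_lit 2) (nat_lit 0xc001d8000ec0807c8008006c00200fe00080e0103))) 
(.lf (nat_lit 738631695) (dlOf (nat_lit 2) (nat_lit 0x1204e000a01b805ce41000580080058002004a00080c0003)))) 
(.lf (nat_lit 738631887) (dlOf (nat_lit 2) (nat_lit 0x203f0006f8180c1b80)))) (.nd (nat_lit 19) 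
(.nd (nat_lit 28) 
(.lf (nat_lit 6107078671) (dlOf (nat_lit 3) (nat_lit 0x800a0075802000c016000400a801d5c10004800800dc00200100008060a03))) 
(.lf (nat_lit 4764901391) (dlOf (nat_lit 3) (nat_lit 0x1801400110020037d41000a801001be8040020002000c0008060a02)))) 
(.lf (nat_lit 6376038415) (dlOf (nat_lit 5) (nat_lit 0xc140000609f800184f80024268007d0080002140000209f800504f80014268007cf080010140000c09f800404f80028268007cd08000a140000609f800484f80024268007cb0800060008060a01))))) 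
(.nd (nat_lit 6) (.nd (nat_lit 7) 
(.lf (nat_lit 738372367) (dlOf (nat_lit 1) (nat_lit 0xe000800a000200380008095b83))) 
(.lf (nat_lit 738632079) (dlOf (nat_lit 10) (nat_lit 0x18138000c06e0067e04001205a000102b80199c1000f016800200ae000e0050033303000302b8000801400cca0800180b40066402001205a000302b80165410008016800280ae0012005002ca03000902d0002815c00b260800400b40012057000900280164818034800800dc002001000080c5d83)))) 
(.lf (nat_lit 1543679311) (dlOf (nat_lit 1) (nat_lit 0x80028146a01)))))) (.nd (nat_lit 6) 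
(.nd (nat_lit 19) (.nd (nat_lit 9) (.nd (nat_lit 10) (.nd (nat_lit 18) 
(.lf (nat_lit 2752684047) (dlOf (nat_lit 1) (nat_lit 0x120008001400200fe0008030883))) 
(.lf (nat_lit 2756091919) (dlOf (nat_lit 1) (nat_lit 0x1a00281f0781)))) 
(.lf (nat_lit 2751898639) (dlOf (nat_lit 1) (nat_lit 0x400200020008002882)))) 
(.lf (nat_lit 2886115855) (dlOf (nat_lit 8) (nat_lit 0x30028004c4020050037000601a801f8000009760c03c407c004a037000801a801b00000097410003006e002a0140025882000600a00129c0801680dc0030028004a604002e037000b00a0012941005e80080124002003e0008158403)))) 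
(.nd (nat_lit 27) (.nd (nat_lit 20) (.nd (nat_lit 21) 
(.lf (nat_lit 3557466127) (dlOf (nat_lit 1) (nat_lit 0x400400020008210182))) 
(.lf (nat_lit 2754256911) (dlOf (nat_lit 1) (nat_lit 0x200280d0881)))) 
(.lf (nat_lit 4095385615) (dlOf (nat_lit 1) (nat_lit 0x600080008002002a00080a0083)))) 
(.nd (nat_lit 28) 
(.lf (nat_lit 3960119311) (dlOf (nat_lit 4) (nat_lit 0x4f01f0001300800300ec044005c0003604000e03e000000181b0100))) 
(.lf (nat_lit 3154812943) (dlOf (nat_lit 3) (nat_lit 0x500c8033d4080018064019dc04000400400020008330a02)))))) 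
(.nd (nat_lit 7) (.nd (nat_lit 27) (.nd (nat_lit 9) (.nd (nat_lit 19) 
(.lf (nat_lit 2752684111) (dlOf (nat_lit 1) (nat_lit 0xb000801cc002007e0008031003))) 
(.lf (nat_lit 2754256975) (dlOf (nat_lit 3) (nat_lit 0x4c49400f01fd00027820022125003e07f40009a0800b0002000800080d0d02)))) 
(.lf (nat_lit 6509735503) (dlOf (nat_lit 1) (nat_lit 0x400400020008147182)))) (.nd (nat_lit 8) 
(.lf (nat_lit 3154292815) (dlOf (nat_lit 1) (nat_lit 0x60028157d81))) 
(.lf (nat_lit 2886115663) (dlOf (nat_lit 2) (nat_lit 0x6801300005818154c80))))) (.nd (nat_lit 10) 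
(.lf (nat_lit 2752161999) (dlOf (nat_lit 1) (nat_lit 0x190008009400200540008004a03))) 
(.lf (nat_lit 2214769871) (dlOf (nat_lit 1) (nat_lit 0x1400280a9501)))))))))) (.nd (nat_lit 13) 
(.nd (nat_lit 15) (.nd (nat_lit 18) (.nd (nat_lit 19) (.nd (nat_lit 6) (.nd (nat_lit 7) 
(.nd (nat_lit 10) (.nd (nat_lit 31) (.nd (nat_lit 20) (.nd (nat_lit 21) 
(.lf (nat_lit 21168143) (dlOf (nat_lit 1) (nat_lit 0x20018a10481))) 
(.lf (nat_lit 10682383) (dlOf (nat_lit 1) (nat_lit 0x3000200020008610202)))) 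
(.lf (nat_lit 5439503) (dlOf (nat_lit 2) (nat_lit 0x4afdc0011804000400400620018370182)))) 
(.nd (nat_lit 8) (.nd (nat_lit 26) 
(.lf (nat_lit 4026728463) (dlOf (nat_lit 1) (nat_lit 0x20028070501))) 
(.lf (nat_lit 3288530959) (dlOf (nat_lit 1) (nat_lit 0x20028070501)))) 
(.lf (nat_lit 2818775823) (dlOf (nat_lit 2) (nat_lit 0x400d8000e40400dc0040006000812ba02))))) 
(.nd (nat_lit 11) (.nd (nat_lit 20) 
(.lf (nat_lit 69403663) (dlOf (nat_lit 1) (nat_lit 0x8008000400200020008962883))) 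
(.lf (nat_lit 51577871) (dlOf (nat_lit 1) (nat_lit 0x400200020009512882)))) (.nd (nat_lit 22) 
(.lf (nat_lit 5771561999) (dlOf (nat_lit 1) (nat_lit 0x8008000400200020008005f83))) 
(.lf (nat_lit 54725647) (dlOf (nat_lit 4) (nat_lit 0xe73a0002b01001039d00014c080079ce8000a404004c002000a0009655f82)))))) 
(.nd (nat_lit 8) (.nd (nat_lit 20) (.nd (nat_lit 26) 
(.lf (nat_lit 1879244943) (dlOf (nat_lit 1) (nat_lit 0x100080004002000200080c0103))) 
(.lf (nat_lit 1006829711) (dlOf (nat_lit 1) (nat_lit 0x100080004002000200080c0103)))) 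
(.lf (nat_lit 11731087) (dlOf (nat_lit 1) (nat_lit 0x800800cc002004a00086c0103)))) (.nd (nat_lit 9) 
(.nd (nat_lit 10) (.lf (nat_lit 4764926351) (dlOf (nat_lit 1) (nat_lit 0x400400020008091002))) 
(.lf (nat_lit 3624078735) (dlOf (nat_lit 1) (nat_lit 0x40028146c81)))) (.nd (nat_lit 20) 
(.lf (nat_lit 54725519) (dlOf (nat_lit 1) (nat_lit 0x1400400080009655c82))) 
(.lf (nat_lit 1345522575) (dlOf (nat_lit 1) (nat_lit 0x800400040008c95c82))))))) (.nd (nat_lit 8) 
(.nd (nat_lit 26) (.nd (nat_lit 7) (.nd (nat_lit 28) 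
(.lf (nat_lit 6442647631) (dlOf (nat_lit 1) (nat_lit 0x400400020008121002))) 
(.lf (nat_lit 4563599439) (dlOf (nat_lit 1) (nat_lit 0x400400020008090002)))) 
(.lf (nat_lit 5905778895) (dlOf (nat_lit 1) (nat_lit 0x320018144a01)))) (.nd (nat_lit 29) 
(.nd (nat_lit 7) (.lf (nat_lit 5838667855) (dlOf (nat_lit 1) (nat_lit 0x400400020008121002))) 
(.lf (nat_lit 3556971215) (dlOf (nat_lit 1) (nat_lit 0x34004000e0008128c82)))) (.nd (nat_lit 21) 
(.lf (nat_lit 6375538767) (dlOf (nat_lit 1) (nat_lit 0x340018000001))) 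
(.lf (nat_lit 1008926799) (dlOf (nat_lit 2) (nat_lit 0x1038c0000004001000400060008fe0702)))))) 
(.nd (nat_lit 7) (.nd (nat_lit 10) (.nd (nat_lit 21) 
(.lf (nat_lit 9634127) (dlOf (nat_lit 3) (nat_lit 0x61688001d0080048b440002604000c00400140008574c82))) 
(.lf (nat_lit 11731279) (dlOf (nat_lit 1) (nat_lit 0x4004000200186c0602)))) (.nd (nat_lit 11) 
(.lf (nat_lit 57869647) (dlOf (nat_lit 1) (nat_lit 0x48008004800200100009793303))) 
(.lf (nat_lit 3624078671) (dlOf (nat_lit 1) (nat_lit 0x1c00400060018146a02))))) (.nd (nat_lit 10) 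
(.nd (nat_lit 9) 
(.lf (nat_lit 2753757647) (dlOf (nat_lit 5) (nat_lit 0x203a80001902000e1d40000c01001d0ea00005c0800507500000004000800400960018090a02))) 
(.lf (nat_lit 2885878735) (dlOf (nat_lit 1) (nat_lit 0xa20028142881)))) (.nd (nat_lit 11) 
(.lf (nat_lit 2818774479) (dlOf (nat_lit 1) (nat_lit 0x2d80080130002005c0008129b03))) 
(.lf (nat_lit 6509759951) (dlOf (nat_lit 1) (nat_lit 0x200080010002000c0008146d03)))))))) 
(.nd (nat_lit 21) (.nd (nat_lit 6) (.nd (nat_lit 10) (.nd (nat_lit 26) (.nd (nat_lit 22) 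
(.nd (nat_lit 27) (.lf (nat_lit 537591823) (dlOf (nat_lit 2) (nat_lit 0x24054000a78180c0900))) 
(.lf (nat_lit 134938639) (dlOf (nat_lit 2) (nat_lit 0x3603b007901b0000ec100b2800801e400200b600080e0103)))) 
(.lf (nat_lit 21692431) (dlOf (nat_lit 5) (nat_lit 0x3da80005ed30004f690001bb4000d4b080007da80005ed300037690001fb4000d4a080003daa0008ed40003f6980013b48000fda00008ea180352030002f698000bb48000dda00008ea1803518200020008002800200180008a60a03)))) 
(.nd (nat_lit 27) (.lf (nat_lit 1410007055) (dlOf (nat_lit 1) (nat_lit 0xe4004005400080c0882))) 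
(.lf (nat_lit 202047503) (dlOf (nat_lit 2) (nat_lit 0x3603b007901b0000ec100b2800801e400200b600080e0103))))) 
(.nd (nat_lit 8) (.nd (nat_lit 23) 
(.lf (nat_lit 1008403471) (dlOf (nat_lit 1) (nat_lit 0x20028bb2881))) 
(.lf (nat_lit 43713551) (dlOf (nat_lit 1) (nat_lit 0x200292a2881)))) 
(.lf (nat_lit 3490385167) (dlOf (nat_lit 1) (nat_lit 0x20004011e0008006702))))) (.nd (nat_lit 7) 
(.nd (nat_lit 23) 
(.lf (nat_lit 537591887) (dlOf (nat_lit 3) (nat_lit 0x1880a40003402000a052000190180c1900))) 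
(.lf (nat_lit 9109583) (dlOf (nat_lit 1) (nat_lit 0x10008000400200020008521703)))) 
(.nd (nat_lit 11) (.lf (nat_lit 9109711) (dlOf (nat_lit 1) (nat_lit 0x8008000800200020008523c03))) 
(.lf (nat_lit 2752186575) (dlOf (nat_lit 1) (nat_lit 0x20008004a01)))))) (.nd (nat_lit 22) 
(.nd (nat_lit 7) (.nd (nat_lit 6) (.nd (nat_lit 8) 
(.lf (nat_lit 472580111) (dlOf (nat_lit 2) (nat_lit 0x380f800cb202000200189c0001))) 
(.lf (nat_lit 36373775) (dlOf (nat_lit 1) (nat_lit 0x400200bc0009073002)))) 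
(.lf (nat_lit 45809743) (dlOf (nat_lit 1) (nat_lit 0x400200020009360702)))) (.nd (nat_lit 9) 
(.lf (nat_lit 37423503) (dlOf (nat_lit 1) (nat_lit 0x200190d4e81))) 
(.lf (nat_lit 54201231) (dlOf (nat_lit 1) (nat_lit 0x400400020009655c82))))) (.nd (nat_lit 7) 
(.nd (nat_lit 6) (.nd (nat_lit 20) 
(.lf (nat_lit 15400975) (dlOf (nat_lit 1) (nat_lit 0x80080004002000200087f0183))) 
(.lf (nat_lit 16449551) (dlOf (nat_lit 2) (nat_lit 0x92700002200800100080008002001400088a0183)))) 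
(.lf (nat_lit 8067407) (dlOf (nat_lit 1) (nat_lit 0x40020002000851ab82)))) (.nd (nat_lit 11) 
(.lf (nat_lit 8061327) (dlOf (nat_lit 1) (nat_lit 0x20008511001))) 
(.lf (nat_lit 57346447) (dlOf (nat_lit 1) (nat_lit 0xb00019794e81)))))))) (.nd (nat_lit 6) 
(.nd (nat_lit 30) (.nd (nat_lit 20) (.nd (nat_lit 24) (.nd (nat_lit 7) (.nd (nat_lit 10) 
(.lf (nat_lit 2555919) (dlOf (nat_lit 5) (nat_lit 0x114b80008a52000c51e800328ac0000c1000114b8000aa52000c51e8002a8ac0000a1000214b80012a52000a51e8004a8ac0000810001d4b80014a52000c51e800628ac0000610000400200180008170482))) 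
(.lf (nat_lit 2751923215) (dlOf (nat_lit 1) (nat_lit 0x400200020008002882)))) 
(.lf (nat_lit 69667215) (dlOf (nat_lit 1) (nat_lit 0x400200020008b94e82)))) (.nd (nat_lit 7) 
(.nd (nat_lit 10) (.lf (nat_lit 21954575) (dlOf (nat_lit 1) (nat_lit 0x400200020008a80882))) 
(.lf (nat_lit 50791439) (dlOf (nat_lit 1) (nat_lit 0xa00194c2881)))) 
(.lf (nat_lit 54984847) (dlOf (nat_lit 1) (nat_lit 0x20019681001))))) (.nd (nat_lit 21) 
(.nd (nat_lit 22) (.nd (nat_lit 7) 
(.lf (nat_lit 2752970767) (dlOf (nat_lit 2) (nat_lit 0x205c8004d604000400400080008070502))) 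
(.lf (nat_lit 60230543) (dlOf (nat_lit 1) (nat_lit 0x1400400020019845c82)))) (.nd (nat_lit 19) 
(.lf (nat_lit 22478863) (dlOf (nat_lit 1) (nat_lit 0x20018ae0481))) 
(.lf (nat_lit 23003151) (dlOf (nat_lit 2) (nat_lit 0x5680000008a040018002001e0008b40182))))) 
(.nd (nat_lit 8) (.nd (nat_lit 10) 
(.lf (nat_lit 11993103) (dlOf (nat_lit 1) (nat_lit 0x200080034002000a00086c0003))) 
(.lf (nat_lit 473367567) (dlOf (nat_lit 1) (nat_lit 0x20008ef2881)))) (.nd (nat_lit 7) 
(.lf (nat_lit 58130703) (dlOf (nat_lit 1) (nat_lit 0x1c00297c3b01))) 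
(.lf (nat_lit 54463375) (dlOf (nat_lit 1) (nat_lit 0x160009655c81))))))) (.nd (nat_lit 31) 
(.nd (nat_lit 26) (.nd (nat_lit 22) 
(.lf (nat_lit 1074200591) (dlOf (nat_lit 1) (nat_lit 0x300080018002001a00080d0883))) 
(.lf (nat_lit 1346830351) (dlOf (nat_lit 1) (nat_lit 0x8008000400200020009030203)))) 
(.nd (nat_lit 7) (.nd (nat_lit 28) 
(.lf (nat_lit 1678180367) (dlOf (nat_lit 1) (nat_lit 0x200080004002000400081a0003))) 
(.lf (nat_lit 1946615823) (dlOf (nat_lit 1) (nat_lit 0x300080018002001a00080d0883)))) 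
(.lf (nat_lit 6376327823) (dlOf (nat_lit 1) (nat_lit 0x400200020008095482))))) (.nd (nat_lit 7) 
(.nd (nat_lit 10) (.nd (nat_lit 11) 
(.lf (nat_lit 3491168271) (dlOf (nat_lit 2) (nat_lit 0x205c8004f204000400400080008070502))) 
(.lf (nat_lit 3492743183) (dlOf (nat_lit 2) (nat_lit 0xc00e8001540800800080038002001800080f4703)))) 
(.lf (nat_lit 3492742159) (dlOf (nat_lit 1) (nat_lit 0x200180f2881)))) (.nd (nat_lit 26) 
(.lf (nat_lit 3221684367) (dlOf (nat_lit 1) (nat_lit 0x28002000e0008170102))) 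
(.lf (nat_lit 3959881871) (dlOf (nat_lit 1) (nat_lit 0x28002000e0008170102))))))) (.nd (nat_lit 19) 
(.nd (nat_lit 27) (.nd (nat_lit 7) (.nd (nat_lit 21) 
(.lf (nat_lit 604438607) (dlOf (nat_lit 1) (nat_lit 0x20028280001))) 
(.lf (nat_lit 48693327) (dlOf (nat_lit 1) (nat_lit 0x8008000c00200040009420703)))) (.nd (nat_lit 8) 
(.nd (nat_lit 26) (.lf (nat_lit 805765327) (dlOf (nat_lit 1) (nat_lit 0x4002000400081a0482))) 
(.lf (nat_lit 1678180559) (dlOf (nat_lit 1) (nat_lit 0x4002000400081a0482)))) 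
(.lf (nat_lit 8851407) (dlOf (nat_lit 1) (nat_lit 0x400200020008517a82))))) (.nd (nat_lit 8) 
(.nd (nat_lit 22) (.nd (nat_lit 26) 
(.lf (nat_lit 2819031119) (dlOf (nat_lit 1) (nat_lit 0x27800200240008150702))) 
(.lf (nat_lit 1007091791) (dlOf (nat_lit 1) (nat_lit 0x60018170701)))) 
(.lf (nat_lit 474415183) (dlOf (nat_lit 1) (nat_lit 0x400200020009160002)))) (.nd (nat_lit 10) 
(.lf (nat_lit 471269711) (dlOf (nat_lit 1) (nat_lit 0x200282e0801))) 
(.lf (nat_lit 2080834895) (dlOf (nat_lit 5) (nat_lit 0x60140000a008037002c0004a0400480520001502001a0290000a0180e3300)))))) 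
(.nd (nat_lit 21) (.nd (nat_lit 7) (.nd (nat_lit 20) 
(.lf (nat_lit 470745167) (dlOf (nat_lit 9) (nat_lit 0x341ec00310f3800205ec00182f20004000000130500290f6001e879c00182f20002000000128400220f3801485ec001412a00140350001104001a0f60010879c00202fc000e17b00030bc8000842800b07b0000400400300000000402000a00000001010004000000000080070008022c002005c0008170703))) 
(.nd (nat_lit 25) (.lf (nat_lit 18808911) (dlOf (nat_lit 1) (nat_lit 0x8008000400200020008970203))) 
(.lf (nat_lit 52363343) (dlOf (nat_lit 1) (nat_lit 0xe0029530701))))) (.nd (nat_lit 8) 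
(.lf (nat_lit 68092111) (dlOf (nat_lit 1) (nat_lit 0x4002003200083e0482))) 
(.lf (nat_lit 3491693007) (dlOf (nat_lit 1) (nat_lit 0xc00200080008090a02))))) (.nd (nat_lit 7) 
(.nd (nat_lit 8) (.nd (nat_lit 9) 
(.lf (nat_lit 473890895) (dlOf (nat_lit 2) (nat_lit 0x18214c0000b018fc0700))) 
(.lf (nat_lit 62851663) (dlOf (nat_lit 2) (nat_lit 0x9d0400000040004004000400099a5282)))) 
(.lf (nat_lit 50267471) (dlOf (nat_lit 2) (nat_lit 0x1a3a18000340800700080138002000a00094c3303)))) 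
(.nd (nat_lit 8) (.lf (nat_lit 3080399) (dlOf (nat_lit 1) (nat_lit 0x400400020008200482))) 
(.lf (nat_lit 3493790159) (dlOf (nat_lit 1) (nat_lit 0x1600081b0a01))))))))) (.nd (nat_lit 28) 
(.nd (nat_lit 18) (.nd (nat_lit 29) (.nd (nat_lit 24) (.nd (nat_lit 27) (.nd (nat_lit 8) 
(.nd (nat_lit 20) (.lf (nat_lit 4295196687) (dlOf (nat_lit 1) (nat_lit 0x3000080a0681))) 
(.lf (nat_lit 15958031) (dlOf (nat_lit 3) (nat_lit 0x199500014c8e00085890004603000432a000224080018008003c002001a0008850383)))) 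
(.nd (nat_lit 6) (.lf (nat_lit 36406543) (dlOf (nat_lit 1) (nat_lit 0x1d000200840009073002))) 
(.lf (nat_lit 4424015) (dlOf (nat_lit 1) (nat_lit 0x1000400060008290802))))) (.nd (nat_lit 26) 
(.nd (nat_lit 32) 
(.lf (nat_lit 134447119) (dlOf (nat_lit 4) (nat_lit 0x1100bc0031a04006805e0018c02001802f000c4818020480))) 
(.lf (nat_lit 4429414415) (dlOf (nat_lit 1) (nat_lit 0x3000080a0681)))) 
(.lf (nat_lit 201555983) (dlOf (nat_lit 4) (nat_lit 0xd00bc001f804008805e000fa02001802f0007c018020480))))) 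
(.nd (nat_lit 7) (.nd (nat_lit 6) (.nd (nat_lit 9) 
(.lf (nat_lit 25395215) (dlOf (nat_lit 1) (nat_lit 0x400400020008c00102))) 
(.lf (nat_lit 20157967) (dlOf (nat_lit 1) (nat_lit 0x8004000200089d9c02)))) (.nd (nat_lit 20) 
(.lf (nat_lit 63144015) (dlOf (nat_lit 2) (nat_lit 0x9a26a0000380800280080014002000600099e0703))) 
(.lf (nat_lit 28541007) (dlOf (nat_lit 1) (nat_lit 0x8008000400200020008da0203))))) 
(.nd (nat_lit 11) (.nd (nat_lit 8) 
(.lf (nat_lit 23298191) (dlOf (nat_lit 1) (nat_lit 0x400200020008b80102))) 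
(.lf (nat_lit 20156815) (dlOf (nat_lit 1) (nat_lit 0x80080018002000200089d8383)))) (.nd (nat_lit 9) 
(.lf (nat_lit 58952079) (dlOf (nat_lit 1) (nat_lit 0x200197e4e81))) 
(.lf (nat_lit 54758287) (dlOf (nat_lit 2) (nat_lit 0xb3408000fc08001800800f000200060009655c83))))))) 
(.nd (nat_lit 26) (.nd (nat_lit 32) (.nd (nat_lit 9) 
(.lf (nat_lit 537624591) (dlOf (nat_lit 2) (nat_lit 0x8d0180000f408036800800c0002003200080e0103))) 
(.lf (nat_lit 671318543) (dlOf (nat_lit 6) (nat_lit 0x5804c000c01d002630200440130003008c00d803a004601800040028013142801980980014046004001d001a00c00068040003800a001000200130000013104000100140096204009003a0034018000500280129818001800800b4002001a0008158403)))) 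
(.nd (nat_lit 6) (.nd (nat_lit 7) 
(.lf (nat_lit 5905811471) (dlOf (nat_lit 1) (nat_lit 0x400200020008144702))) 
(.lf (nat_lit 4832067983) (dlOf (nat_lit 1) (nat_lit 0x600280d1001)))) 
(.lf (nat_lit 4832068687) (dlOf (nat_lit 1) (nat_lit 0x200180d2881))))) (.nd (nat_lit 20) 
(.nd (nat_lit 7) 
(.lf (nat_lit 1812168719) (dlOf (nat_lit 2) (nat_lit 0x1d0058007580800580080064002004c0008160483))) 
(.lf (nat_lit 4899176591) (dlOf (nat_lit 1) (nat_lit 0x88008036c002014e00080d0403)))) 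
(.nd (nat_lit 6) (.nd (nat_lit 19) 
(.lf (nat_lit 2752741391) (dlOf (nat_lit 1) (nat_lit 0x20028030881))) 
(.lf (nat_lit 2755362831) (dlOf (nat_lit 1) (nat_lit 0xc0018170481)))) 
(.lf (nat_lit 2752741455) (dlOf (nat_lit 4) (nat_lit 0x1401ca000400200820e50001f81003e0728000f8080138008003000200580008031003))))))) 
(.nd (nat_lit 19) (.nd (nat_lit 29) (.nd (nat_lit 22) (.nd (nat_lit 21) 
(.lf (nat_lit 67600463) (dlOf (nat_lit 1) (nat_lit 0x40008240201))) 
(.lf (nat_lit 44531791) (dlOf (nat_lit 1) (nat_lit 0x700029320001)))) (.nd (nat_lit 6) 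
(.lf (nat_lit 24608783) (dlOf (nat_lit 5) (nat_lit 0x6bbd00065d28003ad140000c0c000d77a000cba500075a280001418001af50001977a0012ba500095a280001020002aef4002174a0012b45000358d80000c2000200080004002000c0008ba0483))) 
(.lf (nat_lit 48726095) (dlOf (nat_lit 3) (nat_lit 0x640000000f0200155e000003819420700))))) 
(.nd (nat_lit 26) (.nd (nat_lit 8) 
(.lf (nat_lit 1611104271) (dlOf (nat_lit 1) (nat_lit 0x40002000200080e0082))) 
(.lf (nat_lit 1745322255) (dlOf (nat_lit 1) (nat_lit 0x3c0028113b01)))) (.nd (nat_lit 7) 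
(.lf (nat_lit 738689039) (dlOf (nat_lit 1) (nat_lit 0x40002000200080e0082))) 
(.lf (nat_lit 2886172815) (dlOf (nat_lit 2) (nat_lit 0x10000000000200180008183e01)))))) 
(.nd (nat_lit 7) (.nd (nat_lit 20) (.nd (nat_lit 22) 
(.lf (nat_lit 17793039) (dlOf (nat_lit 3) (nat_lit 0x25c670070a810001e398001d12801932080040004001000088f0782))) 
(.nd (nat_lit 23) (.lf (nat_lit 21987343) (dlOf (nat_lit 1) (nat_lit 0x20028a80881))) 
(.lf (nat_lit 13598735) (dlOf (nat_lit 3) (nat_lit 0x2f8c401da6020003bd500ed2018730880))))) 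
(.nd (nat_lit 6) (.nd (nat_lit 10) 
(.lf (nat_lit 23035919) (dlOf (nat_lit 2) (nat_lit 0x8980000460200020008b40181))) 
(.lf (nat_lit 56591375) (dlOf (nat_lit 1) (nat_lit 0x400200020009732882)))) 
(.lf (nat_lit 14647375) (dlOf (nat_lit 2) (nat_lit 0x148df00023778000941000b8008000800200360008770703))))) 
(.nd (nat_lit 8) (.nd (nat_lit 6) 
(.lf (nat_lit 8358031) (dlOf (nat_lit 1) (nat_lit 0x20018514801))) 
(.lf (nat_lit 19894991) (dlOf (nat_lit 1) (nat_lit 0x4002000200089d8c82)))) (.nd (nat_lit 10) 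
(.lf (nat_lit 19894671) (dlOf (nat_lit 1) (nat_lit 0x2400289d8381))) 
(.lf (nat_lit 19893647) (dlOf (nat_lit 1) (nat_lit 0x80080004002000200089d6c83)))))))) 
(.nd (nat_lit 30) (.nd (nat_lit 6) (.nd (nat_lit 20) (.nd (nat_lit 7) (.nd (nat_lit 9) 
(.nd (nat_lit 26) 
(.lf (nat_lit 939753487) (dlOf (nat_lit 2) (nat_lit 0x1d0058005140800580080064002004c0008160483))) 
(.lf (nat_lit 469991439) (dlOf (nat_lit 3) (nat_lit 0x981cd0009c81000b0e88003e80800a800800c400200fc0008020483)))) 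
(.lf (nat_lit 5234722319) (dlOf (nat_lit 1) (nat_lit 0x4002000200080d3682)))) (.nd (nat_lit 8) 
(.nd (nat_lit 18) (.lf (nat_lit 4563632271) (dlOf (nat_lit 1) (nat_lit 0x200280a2781))) 
(.lf (nat_lit 470253711) (dlOf (nat_lit 1) (nat_lit 0x200080c0101)))) 
(.lf (nat_lit 474187151) (dlOf (nat_lit 2) (nat_lit 0x705c8004620400c0002003200090e3602))))) 
(.nd (nat_lit 8) (.nd (nat_lit 18) (.nd (nat_lit 19) 
(.lf (nat_lit 471040015) (dlOf (nat_lit 5) (nat_lit 0x102c2000209d000460200040b08009023800180fc0008b0600021610006047000081f8001140c000c2c2000809d0004047000081f80011210004c004009a0018250382))) 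
(.lf (nat_lit 471564303) (dlOf (nat_lit 1) (nat_lit 0x10002000a0008330182)))) 
(.lf (nat_lit 471826447) (dlOf (nat_lit 1) (nat_lit 0x30008000800200120008520003)))) 
(.lf (nat_lit 473661711) (dlOf (nat_lit 3) (nat_lit 0x40e000074408002870000392040030002000a0008f97402))))) 
(.nd (nat_lit 18) (.nd (nat_lit 7) (.nd (nat_lit 9) (.nd (nat_lit 26) 
(.lf (nat_lit 4697849935) (dlOf (nat_lit 1) (nat_lit 0x400280a1701))) 
(.lf (nat_lit 3020128335) (dlOf (nat_lit 1) (nat_lit 0x8008000400200020008130183)))) 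
(.lf (nat_lit 5234722383) (dlOf (nat_lit 2) (nat_lit 0x20190000e8180d3880)))) (.nd (nat_lit 10) 
(.lf (nat_lit 2617475279) (dlOf (nat_lit 2) (nat_lit 0x2004000a5a02000400180b3c01))) 
(.lf (nat_lit 5234721999) (dlOf (nat_lit 1) (nat_lit 0x400280d2d81))))) (.nd (nat_lit 7) 
(.nd (nat_lit 19) 
(.lf (nat_lit 1009221711) (dlOf (nat_lit 4) (nat_lit 0x481c6000360200080760000181002e0718000000800080080004002000400090a0703))) 
(.nd (nat_lit 21) (.lf (nat_lit 471826511) (dlOf (nat_lit 1) (nat_lit 0x400200060008520182))) 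
(.lf (nat_lit 473923663) (dlOf (nat_lit 5) (nat_lit 0x10e857c02102bc044a0d7004f06b008f826c04ac116000160c035015f01c006b80005410012857c00741ae0001204045215f022d06b800000100458008006000201580008fc0703))))) 
(.nd (nat_lit 8) (.lf (nat_lit 471826639) (dlOf (nat_lit 1) (nat_lit 0x400400020008520482))) 
(.lf (nat_lit 872907215) (dlOf (nat_lit 1) (nat_lit 0x180080004002000400080f7b03))))))) 
(.nd (nat_lit 6) (.nd (nat_lit 31) (.nd (nat_lit 18) (.nd (nat_lit 10) (.nd (nat_lit 19) 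
(.lf (nat_lit 1342406671) (dlOf (nat_lit 3) (nat_lit 0x981cd000e501000b0e88006340800a800800c400200fc0008020483))) 
(.lf (nat_lit 1410039823) (dlOf (nat_lit 2) (nat_lit 0x8d0180000f408036800800c0002003200080e0103)))) 
(.lf (nat_lit 5771594767) (dlOf (nat_lit 1) (nat_lit 0x400200020008005f82)))) (.nd (nat_lit 7) 
(.lf (nat_lit 1345815055) (dlOf (nat_lit 1) (nat_lit 0x40018e07b81))) 
(.lf (nat_lit 1342668943) (dlOf (nat_lit 1) (nat_lit 0x200080c0101))))) (.nd (nat_lit 20) 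
(.nd (nat_lit 7) (.nd (nat_lit 10) 
(.lf (nat_lit 3691216911) (dlOf (nat_lit 2) (nat_lit 0x1000e8000000802380080504002020400080a0483))) 
(.lf (nat_lit 3492774927) (dlOf (nat_lit 1) (nat_lit 0x200180f2881)))) (.nd (nat_lit 9) 
(.lf (nat_lit 3489897871) (dlOf (nat_lit 1) (nat_lit 0x2c004000c000800c902))) 
(.lf (nat_lit 4160979855) (dlOf (nat_lit 1) (nat_lit 0x200280a2581))))) (.nd (nat_lit 18) 
(.nd (nat_lit 19) (.lf (nat_lit 3490938895) (dlOf (nat_lit 1) (nat_lit 0x20028030881))) 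
(.lf (nat_lit 3493560335) (dlOf (nat_lit 1) (nat_lit 0xc0018170481)))) 
(.lf (nat_lit 3491201039) (dlOf (nat_lit 3) (nat_lit 0x16854c004f20400482a80025d0200020028070501)))))) 
(.nd (nat_lit 7) (.nd (nat_lit 18) (.nd (nat_lit 20) 
(.lf (nat_lit 4160979023) (dlOf (nat_lit 1) (nat_lit 0x1800180a0001))) 
(.lf (nat_lit 3490938959) (dlOf (nat_lit 4) (nat_lit 0x14016a000470200820b50002301003e05a800114080138008003000200580008031003)))) 
(.nd (nat_lit 9) 
(.lf (nat_lit 4095180879) (dlOf (nat_lit 5) (nat_lit 0xb585780000c0401342bc0000502014a0000000101001e0af0000000801b00080020002003c0008070683))) 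
(.lf (nat_lit 1346341455) (dlOf (nat_lit 2) (nat_lit 0x20814000c352000214500010398000d82001b00080058002006e0008f05283))))) 
(.nd (nat_lit 8) 
(.lf (nat_lit 3557003983) (dlOf (nat_lit 1) (nat_lit 0x4b00080004002006e0008128c83))) 
(.nd (nat_lit 9) (.lf (nat_lit 3624111567) (dlOf (nat_lit 1) (nat_lit 0x80028146d01))) 
(.lf (nat_lit 1344766927) (dlOf (nat_lit 2) (nat_lit 0x1853400cf204003c004000a0008982882)))))))))) 
(.nd (nat_lit 15) (.nd (nat_lit 18) (.nd (nat_lit 29) (.nd (nat_lit 20) (.nd (nat_lit 10) 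
(.nd (nat_lit 19) (.nd (nat_lit 6) (.nd (nat_lit 21) 
(.lf (nat_lit 1073946639) (dlOf (nat_lit 1) (nat_lit 0x360018030881))) (.nd (nat_lit 24) 
(.lf (nat_lit 44245007) (dlOf (nat_lit 1) (nat_lit 0x2000092e0001))) 
(.lf (nat_lit 27467791) (dlOf (nat_lit 2) (nat_lit 0xa2bb800110040018004000c0018ce0182))))) 
(.nd (nat_lit 12) (.lf (nat_lit 6576873551) (dlOf (nat_lit 1) (nat_lit 0x20028171001))) 
(.lf (nat_lit 8597583) (dlOf (nat_lit 1) (nat_lit 0x2c8008001400200240008517d83))))) 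
(.nd (nat_lit 26) 
(.lf (nat_lit 134946831) (dlOf (nat_lit 3) (nat_lit 0x6037000208101c201d800300dc073806c038a01700b00000000ec2808f00081c10002032000080e0103))) 
(.nd (nat_lit 27) 
(.lf (nat_lit 1410015247) (dlOf (nat_lit 3) (nat_lit 0x2405d000a02a000601080348a0c006c0ba002c054001802100690c180038008009c002003000080d0883))) 
(.lf (nat_lit 202055695) (dlOf (nat_lit 3) (nat_lit 0x6037000208101c201d800300dc073806c038a01700b00000000ec2808f00081c10002032000080e0103)))))) 
(.nd (nat_lit 7) (.nd (nat_lit 8) (.nd (nat_lit 9) 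
(.lf (nat_lit 5771570191) (dlOf (nat_lit 1) (nat_lit 0x400200020008005f82))) 
(.lf (nat_lit 3422762511) (dlOf (nat_lit 4) (nat_lit 0x3806400a7802000c0320053301000101980297c0803b000800d0002001800080a9c03)))) 
(.lf (nat_lit 1409494287) (dlOf (nat_lit 1) (nat_lit 0x20028006701)))) (.nd (nat_lit 6) 
(.nd (nat_lit 8) (.lf (nat_lit 2617455759) (dlOf (nat_lit 1) (nat_lit 0x200280a9501))) 
(.lf (nat_lit 3489869199) (dlOf (nat_lit 1) (nat_lit 0x60008000400200060008006c83)))) 
(.nd (nat_lit 8) (.lf (nat_lit 3489873103) (dlOf (nat_lit 1) (nat_lit 0xc001800c281))) 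
(.lf (nat_lit 1409494479) (dlOf (nat_lit 1) (nat_lit 0x20028006d01))))))) (.nd (nat_lit 22) 
(.nd (nat_lit 7) (.nd (nat_lit 10) (.nd (nat_lit 19) 
(.lf (nat_lit 471015439) (dlOf (nat_lit 1) (nat_lit 0x400028240281))) 
(.lf (nat_lit 3493535759) (dlOf (nat_lit 2) (nat_lit 0x10178000be04000400400040018160202)))) 
(.nd (nat_lit 11) (.lf (nat_lit 68887567) (dlOf (nat_lit 1) (nat_lit 0x4002000200087e2882))) 
(.lf (nat_lit 20130831) (dlOf (nat_lit 1) (nat_lit 0x80080004002000400089d5f83))))) 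
(.nd (nat_lit 6) (.nd (nat_lit 11) 
(.lf (nat_lit 20132239) (dlOf (nat_lit 1) (nat_lit 0x200189d8381))) 
(.lf (nat_lit 37431695) (dlOf (nat_lit 1) (nat_lit 0x10002000400090d4e82)))) 
(.lf (nat_lit 20131279) (dlOf (nat_lit 1) (nat_lit 0x200189d6d01))))) (.nd (nat_lit 6) 
(.nd (nat_lit 10) (.nd (nat_lit 21) 
(.lf (nat_lit 22749199) (dlOf (nat_lit 5) (nat_lit 0xb560800b4adc005356d0028258401452bc000560a003aadc00082af8000956c0005e0c0025608000e55b0000a0200215820000440800c8008005800200020008b20183))) 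
(.lf (nat_lit 16457743) (dlOf (nat_lit 2) (nat_lit 0x84a5000440188a0180)))) 
(.lf (nat_lit 56304655) (dlOf (nat_lit 1) (nat_lit 0x20009732881)))) (.nd (nat_lit 8) 
(.nd (nat_lit 10) (.lf (nat_lit 47390799) (dlOf (nat_lit 1) (nat_lit 0xc00093e1701))) 
(.lf (nat_lit 8074319) (dlOf (nat_lit 1) (nat_lit 0x400200020008519302)))) 
(.lf (nat_lit 8071503) (dlOf (nat_lit 1) (nat_lit 0x2e0018514d81))))))) (.nd (nat_lit 26) 
(.nd (nat_lit 11) (.nd (nat_lit 19) (.nd (nat_lit 9) 
(.lf (nat_lit 537076751) (dlOf (nat_lit 1) (nat_lit 0x20028002881))) 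
(.lf (nat_lit 3087213071) (dlOf (nat_lit 1) (nat_lit 0x160018158401)))) (.nd (nat_lit 8) 
(.nd (nat_lit 27) 
(.lf (nat_lit 537600015) (dlOf (nat_lit 3) (nat_lit 0x2405d000a02a0006011403b540c006c0ba002c05400180228076a0180038008009c002003000080d0883))) 
(.lf (nat_lit 2819301391) (dlOf (nat_lit 1) (nat_lit 0x78008004800200140008230383)))) 
(.lf (nat_lit 1879777551) (dlOf (nat_lit 1) (nat_lit 0x40018370701))))) (.nd (nat_lit 6) 
(.nd (nat_lit 9) (.lf (nat_lit 5905786895) (dlOf (nat_lit 1) (nat_lit 0x400200020008144702))) 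
(.lf (nat_lit 537082383) (dlOf (nat_lit 1) (nat_lit 0x2002800b281)))) (.nd (nat_lit 7) 
(.lf (nat_lit 537081935) (dlOf (nat_lit 1) (nat_lit 0x20002800a701))) (.nd (nat_lit 9) 
(.lf (nat_lit 537077967) (dlOf (nat_lit 1) (nat_lit 0x20028004a01))) 
(.lf (nat_lit 2818783951) (dlOf (nat_lit 2) (nat_lit 0x201b0028bc08011000800040020054000812b983))))))) 
(.nd (nat_lit 6) (.nd (nat_lit 19) (.nd (nat_lit 9) (.nd (nat_lit 28) 
(.lf (nat_lit 604184591) (dlOf (nat_lit 2) (nat_lit 0x5001100000018080480))) 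
(.lf (nat_lit 1946361871) (dlOf (nat_lit 1) (nat_lit 0x360018030881)))) 
(.lf (nat_lit 5167588879) (dlOf (nat_lit 1) (nat_lit 0x4002005000080d3682)))) (.nd (nat_lit 20) 
(.lf (nat_lit 3154845711) (dlOf (nat_lit 2) (nat_lit 0x604700000018350200))) 
(.lf (nat_lit 2755338255) (dlOf (nat_lit 2) (nat_lit 0x10178000be04000400400040018160202))))) 
(.nd (nat_lit 7) (.nd (nat_lit 10) (.nd (nat_lit 20) 
(.lf (nat_lit 5972893775) (dlOf (nat_lit 1) (nat_lit 0x20028171001))) 
(.lf (nat_lit 4094894159) (dlOf (nat_lit 1) (nat_lit 0x20028050001)))) 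
(.lf (nat_lit 2885887055) (dlOf (nat_lit 1) (nat_lit 0x20028142881)))) (.nd (nat_lit 10) 
(.nd (nat_lit 11) (.lf (nat_lit 2885886927) (dlOf (nat_lit 1) (nat_lit 0xfc0028142881))) 
(.lf (nat_lit 738405327) (dlOf (nat_lit 2) (nat_lit 0x602a0000a818095d80)))) 
(.lf (nat_lit 2885887951) (dlOf (nat_lit 1) (nat_lit 0xc00400020018144482)))))))) (.nd (nat_lit 6) 
(.nd (nat_lit 22) (.nd (nat_lit 26) (.nd (nat_lit 21) (.nd (nat_lit 7) (.nd (nat_lit 20) 
(.lf (nat_lit 3624345615) (dlOf (nat_lit 3) (nat_lit 0xd01a000880000348a08000c06c0018034001500000690c1800680080058002005c0008170883))) 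
(.lf (nat_lit 9904143) (dlOf (nat_lit 1) (nat_lit 0x400200020008590082)))) 
(.lf (nat_lit 3490130319) (dlOf (nat_lit 1) (nat_lit 0x400400020018004e82)))) (.nd (nat_lit 10) 
(.lf (nat_lit 19341327) (dlOf (nat_lit 1) (nat_lit 0x400200020008980782))) 
(.lf (nat_lit 52896783) (dlOf (nat_lit 1) (nat_lit 0x20029572881))))) (.nd (nat_lit 27) 
(.nd (nat_lit 10) (.nd (nat_lit 29) 
(.lf (nat_lit 4362543119) (dlOf (nat_lit 1) (nat_lit 0x410008000800200720008090003))) 
(.lf (nat_lit 1678188559) (dlOf (nat_lit 1) (nat_lit 0x4004000200181a0002)))) 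
(.lf (nat_lit 2751931407) (dlOf (nat_lit 1) (nat_lit 0x20018002881)))) (.nd (nat_lit 21) 
(.nd (nat_lit 8) 
(.lf (nat_lit 2886148111) (dlOf (nat_lit 3) (nat_lit 0xd01a0008800003b5408000c06c001803400150000076a01800680080058002005c0008170883))) 
(.lf (nat_lit 6376333583) (dlOf (nat_lit 2) (nat_lit 0x4a1200004e018090a80)))) (.nd (nat_lit 10) 
(.lf (nat_lit 1009197071) (dlOf (nat_lit 1) (nat_lit 0x20029090201))) 
(.lf (nat_lit 473375759) (dlOf (nat_lit 1) (nat_lit 0x20008ef2881))))))) (.nd (nat_lit 19) 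
(.nd (nat_lit 7) (.nd (nat_lit 9) 
(.lf (nat_lit 14098447) (dlOf (nat_lit 1) (nat_lit 0x60018750001))) 
(.lf (nat_lit 58139151) (dlOf (nat_lit 1) (nat_lit 0x600197c7b81)))) 
(.lf (nat_lit 57091215) (dlOf (nat_lit 1) (nat_lit 0xc00029792b01)))) (.nd (nat_lit 20) 
(.nd (nat_lit 23) 
(.lf (nat_lit 21962767) (dlOf (nat_lit 3) (nat_lit 0x1c7380690c08000e1c003078040048004000c0008a80882))) 
(.lf (nat_lit 13574159) (dlOf (nat_lit 1) (nat_lit 0x400400020008730882)))) (.nd (nat_lit 8) 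
(.lf (nat_lit 23011343) (dlOf (nat_lit 3) (nat_lit 0x1d813a00da094807484300008c0c00c8000000450200040018b40181))) 
(.lf (nat_lit 6234383) (dlOf (nat_lit 1) (nat_lit 0x20028420701))))))) (.nd (nat_lit 20) 
(.nd (nat_lit 26) (.nd (nat_lit 7) (.nd (nat_lit 27) (.nd (nat_lit 28) 
(.lf (nat_lit 1611079759) (dlOf (nat_lit 3) (nat_lit 0x200e0001140800080a80006c040040002001000080d0502))) 
(.lf (nat_lit 1879515215) (dlOf (nat_lit 1) (nat_lit 0x60018190701)))) 
(.lf (nat_lit 1476862031) (dlOf (nat_lit 1) (nat_lit 0x8008000400200020008280003)))) 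
(.nd (nat_lit 8) (.lf (nat_lit 3492751567) (dlOf (nat_lit 1) (nat_lit 0x200280f4a01))) 
(.lf (nat_lit 57092559) (dlOf (nat_lit 1) (nat_lit 0xe0029794e81))))) (.nd (nat_lit 22) 
(.nd (nat_lit 27) (.lf (nat_lit 3557236815) (dlOf (nat_lit 1) (nat_lit 0xc00200180008170702))) 
(.lf (nat_lit 738664527) (dlOf (nat_lit 3) (nat_lit 0x200e0001200800080a800070040040002001000080d0502)))) 
(.lf (nat_lit 474423375) (dlOf (nat_lit 1) (nat_lit 0x400200020009160002))))) (.nd (nat_lit 19) 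
(.nd (nat_lit 22) (.nd (nat_lit 27) 
(.lf (nat_lit 4095156303) (dlOf (nat_lit 1) (nat_lit 0x440028070681))) 
(.lf (nat_lit 6376857679) (dlOf (nat_lit 1) (nat_lit 0x1800400020008090002)))) 
(.lf (nat_lit 14098511) (dlOf (nat_lit 1) (nat_lit 0x40018750181)))) (.nd (nat_lit 7) 
(.nd (nat_lit 9) (.lf (nat_lit 25108559) (dlOf (nat_lit 1) (nat_lit 0x160018be1581))) 
(.lf (nat_lit 1346316879) (dlOf (nat_lit 3) (nat_lit 0x302d0000616600070ac00030558003028a00120cf000204b0001820c000c0e6001201c000600d0000d85800505a000182b0000214b00090a28004833c0018038000000c00440028f05281)))) 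
(.lf (nat_lit 2753503695) (dlOf (nat_lit 5) (nat_lit 0x420a0000c8100020ea00006008001882800103a80001704001a20a000d0ea00000010004000801c000200180008090a03)))))))) 
(.nd (nat_lit 19) (.nd (nat_lit 26) (.nd (nat_lit 29) (.nd (nat_lit 18) (.nd (nat_lit 7) 
(.nd (nat_lit 11) (.nd (nat_lit 23) 
(.lf (nat_lit 1342414863) (dlOf (nat_lit 2) (nat_lit 0x111238006340801e0008009000200fe0008020483))) 
(.lf (nat_lit 25403407) (dlOf (nat_lit 1) (nat_lit 0x20028c00101)))) (.nd (nat_lit 6) 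
(.lf (nat_lit 20163599) (dlOf (nat_lit 1) (nat_lit 0x400289d5f81))) 
(.lf (nat_lit 36940367) (dlOf (nat_lit 1) (nat_lit 0x20019075281))))) (.nd (nat_lit 8) 
(.nd (nat_lit 20) (.lf (nat_lit 23306383) (dlOf (nat_lit 1) (nat_lit 0x8008021c00200fc0008b80103))) 
(.lf (nat_lit 62103695) (dlOf (nat_lit 1) (nat_lit 0x20019951001)))) 
(.lf (nat_lit 20165007) (dlOf (nat_lit 1) (nat_lit 0x100080004002000200089d8383))))) 
(.nd (nat_lit 8) (.nd (nat_lit 6) 
(.lf (nat_lit 1342677135) (dlOf (nat_lit 1) (nat_lit 0x4002000200080c0102))) (.nd (nat_lit 22) 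
(.lf (nat_lit 44539983) (dlOf (nat_lit 1) (nat_lit 0x320029320001))) 
(.lf (nat_lit 48734287) (dlOf (nat_lit 7) (nat_lit 0x22ea920003f0200f35490001e81000daa480003c0804e57800266a92000070400115e00038aa480001810007d52400000040008004000a0009420702))))) 
(.nd (nat_lit 6) (.lf (nat_lit 3490163087) (dlOf (nat_lit 1) (nat_lit 0x20018004e81))) 
(.nd (nat_lit 11) (.lf (nat_lit 40346959) (dlOf (nat_lit 1) (nat_lit 0x4004000200091f3302))) 
(.lf (nat_lit 3490164047) (dlOf (nat_lit 1) (nat_lit 0x28008002000200020008006a03))))))) 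
(.nd (nat_lit 8) (.nd (nat_lit 9) (.nd (nat_lit 6) 
(.lf (nat_lit 6308473871) (dlOf (nat_lit 1) (nat_lit 0x600080d5f81))) 
(.lf (nat_lit 6040035407) (dlOf (nat_lit 1) (nat_lit 0x600180b0001)))) (.nd (nat_lit 10) 
(.nd (nat_lit 27) 
(.lf (nat_lit 537109007) (dlOf (nat_lit 4) (nat_lit 0x500be0049402002805f0024981000202f801248080078008017800200260008018403))) 
(.lf (nat_lit 671326735) (dlOf (nat_lit 1) (nat_lit 0x8004001e0018158402)))) 
(.lf (nat_lit 5234730511) (dlOf (nat_lit 1) (nat_lit 0x200180d3681))))) (.nd (nat_lit 6) 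
(.nd (nat_lit 18) (.lf (nat_lit 6174253455) (dlOf (nat_lit 1) (nat_lit 0x4004000200080d1002))) 
(.lf (nat_lit 4027031951) (dlOf (nat_lit 1) (nat_lit 0x400181b0781)))) (.nd (nat_lit 7) 
(.lf (nat_lit 537108815) (dlOf (nat_lit 1) (nat_lit 0x174002000a0008014c82))) 
(.lf (nat_lit 3892555727) (dlOf (nat_lit 1) (nat_lit 0xe0018157a81))))))) (.nd (nat_lit 31) 
(.nd (nat_lit 6) (.nd (nat_lit 7) (.nd (nat_lit 8) (.nd (nat_lit 20) 
(.lf (nat_lit 469999631) (dlOf (nat_lit 2) (nat_lit 0x111238003e80801e0008009000200fe0008020483))) 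
(.lf (nat_lit 471048207) (dlOf (nat_lit 4) (nat_lit 0x21047000581f80011608001c11c000607e0004502000404700022408010800800b4002002c0008250383)))) 
(.lf (nat_lit 471310607) (dlOf (nat_lit 1) (nat_lit 0x9200182e0701)))) (.nd (nat_lit 18) 
(.lf (nat_lit 5570273423) (dlOf (nat_lit 1) (nat_lit 0xa00180d0401))) 
(.lf (nat_lit 470261903) (dlOf (nat_lit 1) (nat_lit 0x4002000200080c0102))))) (.nd (nat_lit 8) 
(.nd (nat_lit 9) 
(.lf (nat_lit 1009229903) (dlOf (nat_lit 8) (nat_lit 0x2b0710000fc08020038c0006c0401b01c6000a0e2003006c803581d80001e1004581c600900e2011203b00001c1800603880000c0403741c601f6076000018200fd071809181d800000080008004001000190a0702))) 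
(.lf (nat_lit 5704492623) (dlOf (nat_lit 1) (nat_lit 0x10004000600180d3882)))) (.nd (nat_lit 7) 
(.lf (nat_lit 1409524047) (dlOf (nat_lit 1) (nat_lit 0x174002000a0008014c82))) 
(.lf (nat_lit 738438095) (dlOf (nat_lit 2) (nat_lit 0x4012000150200040018095d81)))))) 
(.nd (nat_lit 6) (.nd (nat_lit 7) (.nd (nat_lit 9) (.nd (nat_lit 27) 
(.lf (nat_lit 3020136463) (dlOf (nat_lit 1) (nat_lit 0x40028130001))) 
(.lf (nat_lit 2349047823) (dlOf (nat_lit 1) (nat_lit 0x32400400a80008090002)))) 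
(.lf (nat_lit 3288572431) (dlOf (nat_lit 2) (nat_lit 0xf4020000a6818090d80)))) (.nd (nat_lit 8) 
(.lf (nat_lit 2886181007) (dlOf (nat_lit 1) (nat_lit 0x60008183e01))) 
(.lf (nat_lit 3288834447) (dlOf (nat_lit 1) (nat_lit 0x400181b0781))))) (.nd (nat_lit 9) 
(.nd (nat_lit 12) 
(.lf (nat_lit 2885921103) (dlOf (nat_lit 4) (nat_lit 0x301040002c040018082000c000000028200100208000100800f00080024002002a0008144d83))) 
(.lf (nat_lit 2751707471) (dlOf (nat_lit 1) (nat_lit 0x18002800ab81)))) (.nd (nat_lit 7) 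
(.lf (nat_lit 2751707727) (dlOf (nat_lit 1) (nat_lit 0x10001800b601))) 
(.lf (nat_lit 2885920719) (dlOf (nat_lit 3) (nat_lit 0x2c07c001003500080000000441800b010c009407c003e03a001f01b800180d4007c028003e010001e005000d000000020240008002000c0008144482)))))))) 
(.nd (nat_lit 21) (.nd (nat_lit 6) (.nd (nat_lit 18) (.nd (nat_lit 22) (.nd (nat_lit 7) 
(.nd (nat_lit 9) (.lf (nat_lit 2819334159) (dlOf (nat_lit 1) (nat_lit 0x800400040008240282))) 
(.lf (nat_lit 67871247) (dlOf (nat_lit 1) (nat_lit 0x20008331481)))) 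
(.lf (nat_lit 67877007) (dlOf (nat_lit 1) (nat_lit 0xe002833a881)))) (.nd (nat_lit 10) 
(.lf (nat_lit 22781967) (dlOf (nat_lit 3) (nat_lit 0x215b80014ada0002b02000356e0000b8080050008002000200040008b20183))) 
(.lf (nat_lit 38511631) (dlOf (nat_lit 1) (nat_lit 0x20009132881))))) (.nd (nat_lit 20) 
(.nd (nat_lit 9) (.nd (nat_lit 22) 
(.lf (nat_lit 17801231) (dlOf (nat_lit 3) (nat_lit 0x39e3380385408003512801932040138004001800088f0782))) 
(.lf (nat_lit 13606927) (dlOf (nat_lit 3) (nat_lit 0x155c62009cdea807698100587188028b7aa01da40400b80028730881)))) 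
(.lf (nat_lit 2752487951) (dlOf (nat_lit 10) (nat_lit 0x15072801314080018394009880400f014a00480050025d820031052801100140097408002414a004b102000a0e50008052800a0284007c00a004a60800100a500280028012941002502c80028014000c0090024a03003f059000680280020012004930601820018018401)))) 
(.nd (nat_lit 7) (.lf (nat_lit 10461199) (dlOf (nat_lit 1) (nat_lit 0x400285e0a01))) 
(.lf (nat_lit 31435151) (dlOf (nat_lit 1) (nat_lit 0x400200020008e94e82)))))) (.nd (nat_lit 20) 
(.nd (nat_lit 7) (.nd (nat_lit 8) 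
(.lf (nat_lit 59482191) (dlOf (nat_lit 8) (nat_lit 0x1e8cfa00fc67c007e333003d999401ecb2801025930085273003a9350003c7e40001612000c67d000c333000896500002a0c0274b280001102000e67d000833300139650000200c0018cfa001066600212ca00000c1800299f40098b280000204002267d001733300091650000000c002800400140019800702))) 
(.lf (nat_lit 202095439) (dlOf (nat_lit 1) (nat_lit 0x200280fbc81)))) 
(.lf (nat_lit 9150671) (dlOf (nat_lit 2) (nat_lit 0x14a400041f40014b408000c00200020008523c02)))) 
(.nd (nat_lit 23) (.nd (nat_lit 26) 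
(.lf (nat_lit 5773172815) (dlOf (nat_lit 1) (nat_lit 0xcc004000c00080b0682))) 
(.lf (nat_lit 6377152591) (dlOf (nat_lit 1) (nat_lit 0xcc004000c00080b0682)))) 
(.lf (nat_lit 10199119) (dlOf (nat_lit 1) (nat_lit 0x1500080440002009c00085c1003)))))) 
(.nd (nat_lit 24) (.nd (nat_lit 6) (.nd (nat_lit 8) (.nd (nat_lit 10) 
(.lf (nat_lit 1345036303) (dlOf (nat_lit 1) (nat_lit 0x200189d0201))) 
(.lf (nat_lit 36414479) (dlOf (nat_lit 1) (nat_lit 0x20019072881)))) (.nd (nat_lit 20) 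
(.lf (nat_lit 7053583) (dlOf (nat_lit 1) (nat_lit 0x2600184b0701))) 
(.lf (nat_lit 473669903) (dlOf (nat_lit 3) (nat_lit 0xc23b000e881000a11d8007240800c8008006400200020008f97403))))) 
(.nd (nat_lit 11) (.nd (nat_lit 27) 
(.lf (nat_lit 4096499791) (dlOf (nat_lit 1) (nat_lit 0x18008001c00200020008120503))) 
(.lf (nat_lit 1009492047) (dlOf (nat_lit 1) (nat_lit 0x200291a0701)))) (.nd (nat_lit 8) 
(.lf (nat_lit 41921103) (dlOf (nat_lit 1) (nat_lit 0x400400020009245282))) 
(.lf (nat_lit 8108367) (dlOf (nat_lit 1) (nat_lit 0x800800080020002000851ab83)))))) 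
(.nd (nat_lit 12) (.nd (nat_lit 20) (.nd (nat_lit 10) 
(.lf (nat_lit 53452815) (dlOf (nat_lit 1) (nat_lit 0x8008005c002001400095e0083))) 
(.lf (nat_lit 61580303) (dlOf (nat_lit 1) (nat_lit 0x20029922881)))) (.nd (nat_lit 22) 
(.lf (nat_lit 29073423) (dlOf (nat_lit 1) (nat_lit 0x400200020008db0782))) 
(.lf (nat_lit 58433551) (dlOf (nat_lit 1) (nat_lit 0x1800297e0001))))) (.nd (nat_lit 8) 
(.nd (nat_lit 6) (.lf (nat_lit 19641999) (dlOf (nat_lit 1) (nat_lit 0x4004000400089d9e82))) 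
(.lf (nat_lit 19903183) (dlOf (nat_lit 1) (nat_lit 0x4002000200089d8c82)))) (.nd (nat_lit 7) 
(.lf (nat_lit 19643151) (dlOf (nat_lit 1) (nat_lit 0x800080008002000400089dba03))) 
(.lf (nat_lit 19902863) (dlOf (nat_lit 1) (nat_lit 0x2600289d8381))))))))))))

end

end Pool.Agent.Lib.MP_5854e1_co.Cz

namespace Pool.Agent.Lib.MP_5854e1_co.Cz

noncomputable section

noncomputable def tz158 : DT := (.nd (nat_lit 13) (.nd (nat_lit 16) (.nd (nat_lit 11) 
(.nd (nat_lit 17) (.nd (nat_lit 28) (.nd (nat_lit 9) (.nd (nat_lit 19) (.nd (nat_lit 8) 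
(.nd (nat_lit 22) (.nd (nat_lit 7) (.nd (nat_lit 20) 
(.lf (nat_lit 10747951) (dlOf (nat_lit 1) (nat_lit 0x100008620601))) 
(.lf (nat_lit 11796527) (dlOf (nat_lit 1) (nat_lit 0x600186c0001)))) 
(.lf (nat_lit 4966056111) (dlOf (nat_lit 1) (nat_lit 0x8008000400200020008000603)))) 
(.nd (nat_lit 7) (.nd (nat_lit 21) 
(.lf (nat_lit 12582959) (dlOf (nat_lit 1) (nat_lit 0x200186d0981))) 
(.lf (nat_lit 23068719) (dlOf (nat_lit 3) (nat_lit 0x214e000200100090a70000e00800d00080024002001c0008b50683)))) 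
(.lf (nat_lit 56624303) (dlOf (nat_lit 1) (nat_lit 0x400200020009732c02))))) (.nd (nat_lit 6) 
(.nd (nat_lit 18) (.lf (nat_lit 1048879) (dlOf (nat_lit 1) (nat_lit 0x400400020008068402))) 
(.lf (nat_lit 2752774447) (dlOf (nat_lit 1) (nat_lit 0x20028048401)))) (.nd (nat_lit 7) 
(.lf (nat_lit 42991983) (dlOf (nat_lit 1) (nat_lit 0x4002000200092a0f82))) 
(.lf (nat_lit 5435819503) (dlOf (nat_lit 1) (nat_lit 0x20008003800200020008003603)))))) 
(.nd (nat_lit 6) (.nd (nat_lit 20) (.nd (nat_lit 21) (.nd (nat_lit 26) 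
(.lf (nat_lit 134742063) (dlOf (nat_lit 2) (nat_lit 0x18a03b000ac8180a0980))) 
(.lf (nat_lit 201850927) (dlOf (nat_lit 2) (nat_lit 0x18a03b000638180a0980)))) (.nd (nat_lit 18) 
(.lf (nat_lit 15204399) (dlOf (nat_lit 10) (nat_lit 0x9238d403b9bec00020820205e3500d9efb000080080daf8d40635bec0001f02015de350047efb00007a0804b38d401c1bec0115b8a009351300006e10030f8d400dfbec004eb8a002c51300006c100392e28024944c0001a820006a260000d008096f1a8001b7d80135beb0116b8a0084d13000000140054004006600187c0702))) 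
(.lf (nat_lit 2754347055) (dlOf (nat_lit 2) (nat_lit 0x200000000d0180d0b00))))) (.nd (nat_lit 7) 
(.nd (nat_lit 18) (.lf (nat_lit 30933039) (dlOf (nat_lit 1) (nat_lit 0x8008000800200040008e50b83))) 
(.lf (nat_lit 27000879) (dlOf (nat_lit 2) (nat_lit 0x500000001f018ca0700)))) (.nd (nat_lit 10) 
(.lf (nat_lit 58196399) (dlOf (nat_lit 1) (nat_lit 0x1000197c6e81))) 
(.lf (nat_lit 8127919) (dlOf (nat_lit 1) (nat_lit 0x400200020008513602)))))) (.nd (nat_lit 23) 
(.nd (nat_lit 26) (.nd (nat_lit 22) 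
(.lf (nat_lit 134742127) (dlOf (nat_lit 5) (nat_lit 0xc6043007501f80006c100548104022007a00a20380000583009f020804400f400014080254082011003d000201c0000201801a80080008002003a00080a1583))) 
(.lf (nat_lit 55050351) (dlOf (nat_lit 6) (nat_lit 0x898c00024c4000525d000492940020926000060a00064c60006262000392e8001c94a000e4930000285000a263000612f0000c97400144a50007249800010280039318000498800224bc00092528004124c0000614001098c00024c4001225e0000001805f800801ec002000c0009690c83)))) 
(.nd (nat_lit 27) (.lf (nat_lit 3288858735) (dlOf (nat_lit 1) (nat_lit 0x6c00081c1581))) 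
(.lf (nat_lit 201850991) (dlOf (nat_lit 5) (nat_lit 0xc6043007501f80006c100548104022007a00a20380000583009f020804400f400014080254082011003d000201c0000201801a80080008002003a00080a1583))))) 
(.nd (nat_lit 7) (.lf (nat_lit 8917103) (dlOf (nat_lit 1) (nat_lit 0xa0018517d81))) 
(.lf (nat_lit 28836079) (dlOf (nat_lit 1) (nat_lit 0x400200020008da0602))))))) (.nd (nat_lit 8) 
(.nd (nat_lit 6) (.nd (nat_lit 7) (.nd (nat_lit 10) 
(.lf (nat_lit 2752512559) (dlOf (nat_lit 1) (nat_lit 0x20018018b01))) 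
(.lf (nat_lit 1207961135) (dlOf (nat_lit 1) (nat_lit 0x60028003781)))) (.nd (nat_lit 12) 
(.lf (nat_lit 2751465135) (dlOf (nat_lit 1) (nat_lit 0x1c0028003a81))) 
(.lf (nat_lit 19928751) (dlOf (nat_lit 1) (nat_lit 0x4002000200089da002))))) (.nd (nat_lit 26) 
(.nd (nat_lit 29) (.lf (nat_lit 5502928495) (dlOf (nat_lit 1) (nat_lit 0x400400020008003982))) 
(.lf (nat_lit 4966057583) (dlOf (nat_lit 1) (nat_lit 0x400400020008003982)))) (.nd (nat_lit 7) 
(.lf (nat_lit 6106908271) (dlOf (nat_lit 1) (nat_lit 0x400400020008003982))) 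
(.lf (nat_lit 2751465199) (dlOf (nat_lit 1) (nat_lit 0x400400080008003b02)))))) (.nd (nat_lit 7) 
(.nd (nat_lit 26) (.nd (nat_lit 10) 
(.lf (nat_lit 19661615) (dlOf (nat_lit 1) (nat_lit 0x800289d2201))) (.nd (nat_lit 29) 
(.lf (nat_lit 1073743663) (dlOf (nat_lit 1) (nat_lit 0x400400020008003d82))) 
(.lf (nat_lit 536872751) (dlOf (nat_lit 1) (nat_lit 0x400400020008003d82))))) (.nd (nat_lit 31) 
(.lf (nat_lit 201328431) (dlOf (nat_lit 1) (nat_lit 0x400400020008003d82))) 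
(.lf (nat_lit 2348812079) (dlOf (nat_lit 1) (nat_lit 0x400400020008003d82))))) (.nd (nat_lit 6) 
(.nd (nat_lit 10) (.lf (nat_lit 2214593455) (dlOf (nat_lit 1) (nat_lit 0x1a0028002681))) 
(.lf (nat_lit 2751989679) (dlOf (nat_lit 1) (nat_lit 0x60028004381)))) (.nd (nat_lit 10) 
(.lf (nat_lit 2751726575) (dlOf (nat_lit 1) (nat_lit 0x20018002881))) 
(.lf (nat_lit 2031) (dlOf (nat_lit 1) (nat_lit 0x8008000400200020008004603)))))))) 
(.nd (nat_lit 27) (.nd (nat_lit 8) (.nd (nat_lit 6) (.nd (nat_lit 18) (.nd (nat_lit 19) 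
(.lf (nat_lit 1344274479) (dlOf (nat_lit 1) (nat_lit 0x400200020008560482))) 
(.lf (nat_lit 1881669679) (dlOf (nat_lit 1) (nat_lit 0x80028fc0a81)))) (.nd (nat_lit 21) 
(.lf (nat_lit 1342963759) (dlOf (nat_lit 1) (nat_lit 0x2800200260008120e82))) 
(.lf (nat_lit 3492544559) (dlOf (nat_lit 2) (nat_lit 0x200000000d0180d0b00))))) (.nd (nat_lit 7) 
(.lf (nat_lit 4027056239) (dlOf (nat_lit 1) (nat_lit 0x6c00081c1581))) (.nd (nat_lit 19) 
(.lf (nat_lit 1346371823) (dlOf (nat_lit 1) (nat_lit 0x400400020018f60a82))) 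
(.lf (nat_lit 1345847535) (dlOf (nat_lit 1) (nat_lit 0x2000400060008e01e82)))))) (.nd (nat_lit 7) 
(.nd (nat_lit 29) (.nd (nat_lit 9) 
(.lf (nat_lit 3490971951) (dlOf (nat_lit 2) (nat_lit 0xb060000010080070008000c00200120008047a03))) 
(.lf (nat_lit 2415920943) (dlOf (nat_lit 1) (nat_lit 0x400400020008003d82)))) (.nd (nat_lit 6) 
(.lf (nat_lit 4026533679) (dlOf (nat_lit 1) (nat_lit 0x20028003d81))) 
(.lf (nat_lit 4026533743) (dlOf (nat_lit 1) (nat_lit 0xa800400040008004082))))) (.nd (nat_lit 9) 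
(.lf (nat_lit 3557036463) (dlOf (nat_lit 2) (nat_lit 0x400c000200200040008128481))) 
(.nd (nat_lit 18) 
(.lf (nat_lit 1342183343) (dlOf (nat_lit 2) (nat_lit 0x1011c00064020008002800a401))) 
(.lf (nat_lit 3557037999) (dlOf (nat_lit 3) (nat_lit 0x4022000358100010110001a808003000800d8002002c000812a403))))))) 
(.nd (nat_lit 18) (.nd (nat_lit 6) (.nd (nat_lit 8) (.nd (nat_lit 7) (.nd (nat_lit 19) 
(.lf (nat_lit 471859247) (dlOf (nat_lit 1) (nat_lit 0x400200020008540482))) 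
(.lf (nat_lit 3154640943) (dlOf (nat_lit 2) (nat_lit 0x40168001c0a0001c023000901100010050000a8140070004004000182f0802)))) 
(.lf (nat_lit 1476399279) (dlOf (nat_lit 1) (nat_lit 0x1a0018007e01)))) (.nd (nat_lit 29) 
(.lf (nat_lit 469763887) (dlOf (nat_lit 1) (nat_lit 0x400400020008003d82))) 
(.lf (nat_lit 1006634799) (dlOf (nat_lit 1) (nat_lit 0x400400020008003d82))))) (.nd (nat_lit 7) 
(.lf (nat_lit 474480751) (dlOf (nat_lit 1) (nat_lit 0x400200020009171d02))) 
(.lf (nat_lit 1476399343) (dlOf (nat_lit 1) (nat_lit 0x8008000400200020008008083))))) 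
(.nd (nat_lit 20) (.nd (nat_lit 10) (.nd (nat_lit 6) 
(.lf (nat_lit 3691249711) (dlOf (nat_lit 9) (nat_lit 0x80140001401000b00d80007c0800300b80010054000c02200060108003006400180300001c0c000c02e0006015000280880018042000c019000600c00006c3000280b80020054000c0220006010800200640018030000180c000c02e0006015000300880018042000c019000600c00005c3000200b80014054000c0220006010800300640018030000140c000c02e0006015000300880018042000c019000500c00004c3000e80080004002000200080e0903))) 
(.lf (nat_lit 4161012463) (dlOf (nat_lit 1) (nat_lit 0xe00180a2101)))) (.nd (nat_lit 26) 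
(.lf (nat_lit 5773722735) (dlOf (nat_lit 1) (nat_lit 0x400280e2a01))) 
(.lf (nat_lit 6377702511) (dlOf (nat_lit 1) (nat_lit 0x400280e2a01))))) (.nd (nat_lit 19) 
(.nd (nat_lit 7) (.lf (nat_lit 471072815) (dlOf (nat_lit 1) (nat_lit 0x2800200020008260902))) 
(.lf (nat_lit 1007944879) (dlOf (nat_lit 1) (nat_lit 0x300080004002001400088c2c03)))) 
(.nd (nat_lit 26) 
(.lf (nat_lit 5773197359) (dlOf (nat_lit 1) (nat_lit 0x9000800c4002002600080b0483))) 
(.lf (nat_lit 6377177135) (dlOf (nat_lit 1) (nat_lit 0x9000800c4002002600080b0483))))))))) 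
(.nd (nat_lit 18) (.nd (nat_lit 19) (.nd (nat_lit 26) (.nd (nat_lit 27) (.nd (nat_lit 20) 
(.nd (nat_lit 21) 
(.lf (nat_lit 5368840239) (dlOf (nat_lit 1) (nat_lit 0x130008051000203760008040383))) 
(.lf (nat_lit 10616879) (dlOf (nat_lit 2) (nat_lit 0x21d600023818600600)))) (.nd (nat_lit 6) 
(.lf (nat_lit 3490840623) (dlOf (nat_lit 1) (nat_lit 0x1380028020581))) 
(.lf (nat_lit 57803887) (dlOf (nat_lit 1) (nat_lit 0x8008000400200020009792a03))))) 
(.nd (nat_lit 7) (.nd (nat_lit 28) 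
(.lf (nat_lit 5503057967) (dlOf (nat_lit 1) (nat_lit 0x130008051000203760008040383))) 
(.lf (nat_lit 2013397039) (dlOf (nat_lit 5) (nat_lit 0x500180190000000230400380060001101003000000004c0802680000001804015000200440008040382)))) 
(.lf (nat_lit 4697753007) (dlOf (nat_lit 2) (nat_lit 0xf0148003900800c8008000400200140008093603))))) 
(.nd (nat_lit 7) (.nd (nat_lit 29) (.nd (nat_lit 32) 
(.lf (nat_lit 1140981807) (dlOf (nat_lit 5) (nat_lit 0x500180190000000230400380060001101003000000004c0802680000001804015000200440008040382))) 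
(.lf (nat_lit 5435949103) (dlOf (nat_lit 1) (nat_lit 0x100080010002000a0008050d03)))) 
(.nd (nat_lit 20) 
(.lf (nat_lit 5301731375) (dlOf (nat_lit 1) (nat_lit 0x100080010002000a0008050d03))) 
(.lf (nat_lit 2752643119) (dlOf (nat_lit 1) (nat_lit 0x1380028020581))))) (.nd (nat_lit 6) 
(.lf (nat_lit 474088623) (dlOf (nat_lit 7) (nat_lit 0x2102000085a000282cc000216300040a28000850c000c28400160cf000b00b80050054000be280030408001c166000900b8001741800985a400482d0002c0180002c8300200b400015c0800285a0001c2cc0005204009e16900030b3000b8060000960c005800400140009082c02))) 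
(.nd (nat_lit 28) (.lf (nat_lit 738328815) (dlOf (nat_lit 1) (nat_lit 0x20018090a81))) 
(.lf (nat_lit 3154247919) (dlOf (nat_lit 1) (nat_lit 0x80028131e81))))))) (.nd (nat_lit 30) 
(.nd (nat_lit 20) (.nd (nat_lit 22) (.nd (nat_lit 6) 
(.lf (nat_lit 470417455) (dlOf (nat_lit 3) (nat_lit 0x102e6007ac020006173003d58180e0a00))) 
(.lf (nat_lit 537526383) (dlOf (nat_lit 1) (nat_lit 0xb80080044002000400080a1583)))) 
(.nd (nat_lit 21) (.lf (nat_lit 21626927) (dlOf (nat_lit 2) (nat_lit 0x5da200099818a50d00))) 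
(.lf (nat_lit 6946863) (dlOf (nat_lit 1) (nat_lit 0x800400040008490802))))) (.nd (nat_lit 7) 
(.nd (nat_lit 22) 
(.lf (nat_lit 26869807) (dlOf (nat_lit 2) (nat_lit 0xda96800036040008004002c0018c80702))) 
(.lf (nat_lit 5898287) (dlOf (nat_lit 1) (nat_lit 0x800400040008400802)))) 
(.lf (nat_lit 60424367) (dlOf (nat_lit 1) (nat_lit 0x10008003800200080009852d83))))) 
(.nd (nat_lit 26) (.nd (nat_lit 21) (.nd (nat_lit 27) 
(.lf (nat_lit 3221880879) (dlOf (nat_lit 4) (nat_lit 0x2500000002702012c0000001181009300000008408004000800b8002002e00081a0e83))) 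
(.lf (nat_lit 5772017711) (dlOf (nat_lit 2) (nat_lit 0xe002800017018040380)))) 
(.lf (nat_lit 3492413487) (dlOf (nat_lit 1) (nat_lit 0x900080030002005e00080c0e83)))) 
(.nd (nat_lit 27) (.nd (nat_lit 6) 
(.lf (nat_lit 3557425199) (dlOf (nat_lit 1) (nat_lit 0x200081f0901))) 
(.lf (nat_lit 1409941615) (dlOf (nat_lit 1) (nat_lit 0xb80080044002000400080a1583)))) 
(.nd (nat_lit 28) 
(.lf (nat_lit 3960078383) (dlOf (nat_lit 2) (nat_lit 0x1f80000001c040004002001600081a0f02))) 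
(.lf (nat_lit 6375997487) (dlOf (nat_lit 2) (nat_lit 0xe002800015818040380)))))))) 
(.nd (nat_lit 26) (.nd (nat_lit 21) (.nd (nat_lit 30) (.nd (nat_lit 20) 
(.lf (nat_lit 6442844207) (dlOf (nat_lit 3) (nat_lit 0x100c8005c062007d704003c031003ea0181d0a00))) 
(.nd (nat_lit 22) (.lf (nat_lit 9830447) (dlOf (nat_lit 1) (nat_lit 0x80008580381))) 
(.lf (nat_lit 30801967) (dlOf (nat_lit 1) (nat_lit 0x8008000400200020008e50b83))))) 
(.nd (nat_lit 27) (.nd (nat_lit 28) 
(.lf (nat_lit 1611005999) (dlOf (nat_lit 5) (nat_lit 0x35805301ab01a80f88084075803a0024908035805301ab01a80f48084075c03a002470803d805501ed01b80140088003c03c0009d0803fe05501fd01b8002381000600080164002000200080b0483))) 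
(.lf (nat_lit 5637537839) (dlOf (nat_lit 1) (nat_lit 0x800200220008100382)))) (.nd (nat_lit 29) 
(.lf (nat_lit 3355836463) (dlOf (nat_lit 2) (nat_lit 0x1005e0007c0200120008120d81))) 
(.lf (nat_lit 3892707375) (dlOf (nat_lit 5) (nat_lit 0xc02f000208100b7029008c00bc047c0060003e06005c0640001b81000101700000008006000800a8002000e00081d0703)))))) 
(.nd (nat_lit 6) (.nd (nat_lit 7) (.nd (nat_lit 8) 
(.lf (nat_lit 16646191) (dlOf (nat_lit 1) (nat_lit 0x200080004002000200088c0803))) 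
(.lf (nat_lit 8258351) (dlOf (nat_lit 1) (nat_lit 0xa0028512201)))) (.nd (nat_lit 9) 
(.lf (nat_lit 19796143) (dlOf (nat_lit 1) (nat_lit 0x18004000600089d7e02))) 
(.lf (nat_lit 19797679) (dlOf (nat_lit 1) (nat_lit 0x4002000200089da002))))) (.nd (nat_lit 8) 
(.nd (nat_lit 9) (.lf (nat_lit 5773853807) (dlOf (nat_lit 1) (nat_lit 0x4004003c00080e2a02))) 
(.lf (nat_lit 19796591) (dlOf (nat_lit 1) (nat_lit 0x80080004002000400089d8983)))) 
(.lf (nat_lit 19796335) (dlOf (nat_lit 1) (nat_lit 0x10008001c002000a00089d8383)))))) 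
(.nd (nat_lit 27) (.nd (nat_lit 28) (.nd (nat_lit 6) (.nd (nat_lit 7) 
(.lf (nat_lit 67502127) (dlOf (nat_lit 1) (nat_lit 0x600081a0901))) 
(.lf (nat_lit 4362469807) (dlOf (nat_lit 1) (nat_lit 0x3500080010002004e0008090783)))) 
(.lf (nat_lit 2753953903) (dlOf (nat_lit 1) (nat_lit 0x1200180a1581)))) (.nd (nat_lit 32) 
(.lf (nat_lit 1946550319) (dlOf (nat_lit 1) (nat_lit 0x24002000c00080c0e82))) 
(.lf (nat_lit 6241517615) (dlOf (nat_lit 1) (nat_lit 0x800200220008100382))))) (.nd (nat_lit 30) 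
(.nd (nat_lit 29) (.nd (nat_lit 20) 
(.lf (nat_lit 2617638959) (dlOf (nat_lit 1) (nat_lit 0x2000200120008110682))) 
(.lf (nat_lit 471203887) (dlOf (nat_lit 3) (nat_lit 0x4409d0003b0100190a7000000080010008003c002002000082c0803)))) 
(.nd (nat_lit 28) 
(.lf (nat_lit 738590767) (dlOf (nat_lit 5) (nat_lit 0x35805301ab01a80f88084075803a0024908035805301ab01a80f48084075c03a002470803d805501ed01b80140088003c03c0009d0803fe05501fd01b8002381000600080164002000200080b0483))) 
(.lf (nat_lit 3154509871) (dlOf (nat_lit 3) (nat_lit 0xb60168049005e0003e04001c0140001b8181f0700))))) 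
(.nd (nat_lit 6) (.lf (nat_lit 4228252079) (dlOf (nat_lit 1) (nat_lit 0x20018090781))) 
(.nd (nat_lit 10) (.lf (nat_lit 4228251759) (dlOf (nat_lit 1) (nat_lit 0xc0018090001))) 
(.lf (nat_lit 6377833583) (dlOf (nat_lit 1) (nat_lit 0x4004004000080e2a02)))))))))) 
(.nd (nat_lit 28) (.nd (nat_lit 6) (.nd (nat_lit 8) (.nd (nat_lit 17) (.nd (nat_lit 26) 
(.nd (nat_lit 27) 
(.lf (nat_lit 536877103) (dlOf (nat_lit 1) (nat_lit 0xc80080394002011a000800a603))) 
(.lf (nat_lit 4429191215) (dlOf (nat_lit 1) (nat_lit 0x2002800a601)))) (.nd (nat_lit 7) 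
(.nd (nat_lit 27) (.lf (nat_lit 4362082351) (dlOf (nat_lit 1) (nat_lit 0x28002001c000800a602))) 
(.lf (nat_lit 2348816431) (dlOf (nat_lit 1) (nat_lit 0x40040002000800a602)))) 
(.lf (nat_lit 3959426735) (dlOf (nat_lit 1) (nat_lit 0xbc0028007281))))) (.nd (nat_lit 7) 
(.nd (nat_lit 9) 
(.lf (nat_lit 2751600687) (dlOf (nat_lit 1) (nat_lit 0x8008051c00200fe000800a603))) 
(.nd (nat_lit 12) (.lf (nat_lit 58853935) (dlOf (nat_lit 1) (nat_lit 0x400297e5181))) 
(.lf (nat_lit 3959560751) (dlOf (nat_lit 2) (nat_lit 0x1b0230002e00801a000800240020068000811b303))))) 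
(.nd (nat_lit 9) (.nd (nat_lit 10) 
(.lf (nat_lit 137391) (dlOf (nat_lit 1) (nat_lit 0x40040002001800a882))) 
(.lf (nat_lit 2754481327) (dlOf (nat_lit 2) (nat_lit 0x7006600150200000641000080080018002000600080f6283)))) 
(.lf (nat_lit 2754743983) (dlOf (nat_lit 1) (nat_lit 0x200080008002000400080f7283)))))) 
(.nd (nat_lit 10) (.nd (nat_lit 18) (.nd (nat_lit 9) (.nd (nat_lit 22) 
(.lf (nat_lit 36702639) (dlOf (nat_lit 1) (nat_lit 0x80019074e81))) 
(.lf (nat_lit 57674159) (dlOf (nat_lit 1) (nat_lit 0xc00400020009794e82)))) (.nd (nat_lit 7) 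
(.lf (nat_lit 2818575151) (dlOf (nat_lit 1) (nat_lit 0x400400020018005c02))) 
(.lf (nat_lit 138159) (dlOf (nat_lit 3) (nat_lit 0x106820006274800193600029a0c0020d04000c4e9000d26c00050c1800180080028002001a000800bd83))))) 
(.nd (nat_lit 12) (.nd (nat_lit 17) 
(.lf (nat_lit 54790575) (dlOf (nat_lit 1) (nat_lit 0x10008000400200020009654e83))) 
(.lf (nat_lit 49154479) (dlOf (nat_lit 1) (nat_lit 0x1a0029464e81)))) 
(.lf (nat_lit 19667375) (dlOf (nat_lit 1) (nat_lit 0x3400289daf81))))) (.nd (nat_lit 17) 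
(.nd (nat_lit 26) (.nd (nat_lit 27) 
(.lf (nat_lit 4294970799) (dlOf (nat_lit 1) (nat_lit 0x400400020008006d02))) 
(.lf (nat_lit 134221231) (dlOf (nat_lit 1) (nat_lit 0x8008000400200020008006d03)))) 
(.nd (nat_lit 7) (.lf (nat_lit 603987247) (dlOf (nat_lit 1) (nat_lit 0x800800040020002000800c703))) 
(.lf (nat_lit 3288337839) (dlOf (nat_lit 1) (nat_lit 0x8008000400200020008006d03))))) 
(.nd (nat_lit 18) (.lf (nat_lit 3221360047) (dlOf (nat_lit 1) (nat_lit 0x400400020008116d02))) 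
(.lf (nat_lit 19795375) (dlOf (nat_lit 1) (nat_lit 0x80080004002000200089d6d03))))))) 
(.nd (nat_lit 26) (.nd (nat_lit 7) (.nd (nat_lit 10) (.nd (nat_lit 8) (.nd (nat_lit 9) 
(.lf (nat_lit 6255) (dlOf (nat_lit 1) (nat_lit 0x62001800a881))) 
(.lf (nat_lit 5368711791) (dlOf (nat_lit 1) (nat_lit 0x280028005381)))) 
(.lf (nat_lit 1073748335) (dlOf (nat_lit 1) (nat_lit 0xc001800ad01)))) (.nd (nat_lit 8) 
(.nd (nat_lit 9) (.lf (nat_lit 20192367) (dlOf (nat_lit 1) (nat_lit 0x80080014002000200089dc103))) 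
(.lf (nat_lit 19795567) (dlOf (nat_lit 1) (nat_lit 0x280080004002000600089d7183)))) 
(.lf (nat_lit 134221167) (dlOf (nat_lit 1) (nat_lit 0x60018006b01))))) (.nd (nat_lit 19) 
(.nd (nat_lit 9) (.nd (nat_lit 12) 
(.lf (nat_lit 37882351) (dlOf (nat_lit 1) (nat_lit 0xc002000200090d4f02))) 
(.lf (nat_lit 4429191663) (dlOf (nat_lit 1) (nat_lit 0x2002800b281)))) (.nd (nat_lit 18) 
(.lf (nat_lit 54529007) (dlOf (nat_lit 1) (nat_lit 0x400400020009655f02))) 
(.lf (nat_lit 46402543) (dlOf (nat_lit 1) (nat_lit 0x60019385f01))))) (.nd (nat_lit 8) 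
(.lf (nat_lit 49810159) (dlOf (nat_lit 1) (nat_lit 0x10004000200094c5a02))) (.nd (nat_lit 17) 
(.lf (nat_lit 54266863) (dlOf (nat_lit 1) (nat_lit 0xc0019655f01))) 
(.lf (nat_lit 20581359) (dlOf (nat_lit 1) (nat_lit 0x800189d5f01))))))) (.nd (nat_lit 30) 
(.nd (nat_lit 9) (.nd (nat_lit 7) (.nd (nat_lit 10) 
(.lf (nat_lit 4362082671) (dlOf (nat_lit 1) (nat_lit 0x80040002001800ad02))) 
(.lf (nat_lit 2885688687) (dlOf (nat_lit 1) (nat_lit 0x4000800340020018000800c903)))) 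
(.nd (nat_lit 27) 
(.lf (nat_lit 4362082799) (dlOf (nat_lit 1) (nat_lit 0x1000800800020020000800b283))) 
(.lf (nat_lit 2348816879) (dlOf (nat_lit 1) (nat_lit 0x14000800b281))))) (.nd (nat_lit 8) 
(.lf (nat_lit 2754481903) (dlOf (nat_lit 1) (nat_lit 0x80080014002000a00080f7403))) 
(.nd (nat_lit 29) (.lf (nat_lit 4496559087) (dlOf (nat_lit 1) (nat_lit 0x10004000200180e5f02))) 
(.lf (nat_lit 738462703) (dlOf (nat_lit 2) (nat_lit 0x240b4000400200020018095f01)))))) 
(.nd (nat_lit 7) (.nd (nat_lit 12) (.nd (nat_lit 8) 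
(.lf (nat_lit 1677854831) (dlOf (nat_lit 1) (nat_lit 0x80028114781))) 
(.lf (nat_lit 3288337775) (dlOf (nat_lit 1) (nat_lit 0xd8008001000200040008006b03)))) 
(.nd (nat_lit 27) 
(.lf (nat_lit 1677859183) (dlOf (nat_lit 1) (nat_lit 0x800800300020002000811ad03))) 
(.lf (nat_lit 3959560559) (dlOf (nat_lit 1) (nat_lit 0x12001811ad01))))) (.nd (nat_lit 8) 
(.lf (nat_lit 3288337647) (dlOf (nat_lit 1) (nat_lit 0x400400020008006502))) (.nd (nat_lit 27) 
(.lf (nat_lit 1677859311) (dlOf (nat_lit 1) (nat_lit 0x680080018002005c000811b283))) 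
(.lf (nat_lit 3959560687) (dlOf (nat_lit 1) (nat_lit 0xa000811b281))))))))) (.nd (nat_lit 8) 
(.nd (nat_lit 31) (.nd (nat_lit 26) (.nd (nat_lit 6) (.nd (nat_lit 7) (.nd (nat_lit 17) 
(.lf (nat_lit 1880885807) (dlOf (nat_lit 1) (nat_lit 0xa0018c35181))) 
(.lf (nat_lit 5234625071) (dlOf (nat_lit 1) (nat_lit 0x40018055181)))) 
(.lf (nat_lit 805444783) (dlOf (nat_lit 1) (nat_lit 0x2001811c201)))) (.nd (nat_lit 7) 
(.lf (nat_lit 1342183535) (dlOf (nat_lit 3) (nat_lit 0x30047002a98080090584003413a005208e0052383800a880))) 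
(.nd (nat_lit 10) 
(.lf (nat_lit 1342183663) (dlOf (nat_lit 2) (nat_lit 0x18274000e804000c004000a000800a902))) 
(.lf (nat_lit 1879051503) (dlOf (nat_lit 1) (nat_lit 0x20028006501)))))) (.nd (nat_lit 7) 
(.nd (nat_lit 9) (.nd (nat_lit 29) 
(.lf (nat_lit 469768239) (dlOf (nat_lit 1) (nat_lit 0x40040002000800a602))) 
(.lf (nat_lit 1006639151) (dlOf (nat_lit 1) (nat_lit 0x40040002000800a602)))) (.nd (nat_lit 17) 
(.lf (nat_lit 472648239) (dlOf (nat_lit 1) (nat_lit 0x400089e5181))) 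
(.lf (nat_lit 473041455) (dlOf (nat_lit 2) (nat_lit 0x6047c0011804000400400060018c35182))))) 
(.nd (nat_lit 17) (.lf (nat_lit 1409289391) (dlOf (nat_lit 1) (nat_lit 0x10002000c0008006282))) 
(.lf (nat_lit 1543638191) (dlOf (nat_lit 1) (nat_lit 0x8008000c00200040008146283)))))) 
(.nd (nat_lit 10) (.nd (nat_lit 9) (.nd (nat_lit 6) (.nd (nat_lit 29) 
(.lf (nat_lit 2415925295) (dlOf (nat_lit 1) (nat_lit 0x800801b4002005e000800a603))) 
(.lf (nat_lit 4026538031) (dlOf (nat_lit 1) (nat_lit 0x800801100020074000800a603)))) 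
(.lf (nat_lit 3557038191) (dlOf (nat_lit 6) (nat_lit 0xb80e0006404400aa6040016061000502280028088014bc0c002808a00a5d02007a061000a02d80098114006c070005e022000300d8029703002c818401640c00042038003b01100291c2000c8008000c002002e000812a883)))) 
(.nd (nat_lit 6) (.nd (nat_lit 7) 
(.lf (nat_lit 4026538543) (dlOf (nat_lit 1) (nat_lit 0x40040018001800b302))) 
(.lf (nat_lit 3690994351) (dlOf (nat_lit 1) (nat_lit 0x8001800b781)))) 
(.lf (nat_lit 2952796911) (dlOf (nat_lit 1) (nat_lit 0x800800040020002000800b983))))) 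
(.nd (nat_lit 6) (.nd (nat_lit 7) 
(.lf (nat_lit 3489664047) (dlOf (nat_lit 1) (nat_lit 0x200028006081))) (.nd (nat_lit 9) 
(.lf (nat_lit 2483031215) (dlOf (nat_lit 1) (nat_lit 0x8004000c0018006282))) 
(.lf (nat_lit 3087011503) (dlOf (nat_lit 1) (nat_lit 0x800800a800200100008007283))))) 
(.nd (nat_lit 7) (.nd (nat_lit 9) 
(.lf (nat_lit 3489664111) (dlOf (nat_lit 1) (nat_lit 0x220028006081))) 
(.lf (nat_lit 4227862127) (dlOf (nat_lit 1) (nat_lit 0x180018007181)))) 
(.lf (nat_lit 2550140143) (dlOf (nat_lit 1) (nat_lit 0x400400020008006502))))))) (.nd (nat_lit 10) 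
(.nd (nat_lit 9) (.nd (nat_lit 26) (.nd (nat_lit 6) (.nd (nat_lit 21) 
(.lf (nat_lit 5771626927) (dlOf (nat_lit 1) (nat_lit 0x30008000800200020008004e83))) 
(.lf (nat_lit 5773724079) (dlOf (nat_lit 1) (nat_lit 0x8008000400200ec00080e4e83)))) 
(.lf (nat_lit 2415925743) (dlOf (nat_lit 1) (nat_lit 0x2002800b281)))) (.nd (nat_lit 6) 
(.nd (nat_lit 17) 
(.lf (nat_lit 6377703855) (dlOf (nat_lit 1) (nat_lit 0x8008000400200ec00080e4e83))) 
(.lf (nat_lit 335940015) (dlOf (nat_lit 1) (nat_lit 0x28008001c002000200080e4e83)))) 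
(.lf (nat_lit 469768559) (dlOf (nat_lit 1) (nat_lit 0x2001800ad01))))) (.nd (nat_lit 7) 
(.nd (nat_lit 12) (.nd (nat_lit 18) 
(.lf (nat_lit 872418095) (dlOf (nat_lit 1) (nat_lit 0x1000400140018005c02))) 
(.lf (nat_lit 6241389359) (dlOf (nat_lit 1) (nat_lit 0x8e00280d5c01)))) 
(.lf (nat_lit 805444399) (dlOf (nat_lit 1) (nat_lit 0x1000800380020056000811bc83)))) 
(.nd (nat_lit 6) (.lf (nat_lit 5301603247) (dlOf (nat_lit 1) (nat_lit 0x400200020008005d02))) 
(.lf (nat_lit 5771627503) (dlOf (nat_lit 1) (nat_lit 0x20028005f01)))))) (.nd (nat_lit 26) 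
(.nd (nat_lit 29) (.nd (nat_lit 27) (.nd (nat_lit 31) 
(.lf (nat_lit 1342180783) (dlOf (nat_lit 1) (nat_lit 0x400400020018006d02))) 
(.lf (nat_lit 3489664431) (dlOf (nat_lit 1) (nat_lit 0x520028006d01)))) 
(.lf (nat_lit 2550140335) (dlOf (nat_lit 1) (nat_lit 0x400400020008006d02)))) (.nd (nat_lit 17) 
(.lf (nat_lit 1879051695) (dlOf (nat_lit 1) (nat_lit 0x8008000400200020008006d03))) 
(.lf (nat_lit 805440943) (dlOf (nat_lit 1) (nat_lit 0x4c00200140008116d02))))) (.nd (nat_lit 29) 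
(.nd (nat_lit 7) (.lf (nat_lit 2483031343) (dlOf (nat_lit 1) (nat_lit 0x40018006881))) 
(.nd (nat_lit 9) (.lf (nat_lit 1409289647) (dlOf (nat_lit 1) (nat_lit 0x400400020008006d02))) 
(.lf (nat_lit 3557035951) (dlOf (nat_lit 2) (nat_lit 0x401c0000940800100080268002006a0008127a03))))) 
(.nd (nat_lit 6) (.nd (nat_lit 27) 
(.lf (nat_lit 1946160559) (dlOf (nat_lit 1) (nat_lit 0x400400020008006d02))) 
(.lf (nat_lit 4227861935) (dlOf (nat_lit 1) (nat_lit 0x400400020008006d02)))) 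
(.lf (nat_lit 4227865967) (dlOf (nat_lit 1) (nat_lit 0x18008000c0020004000800c903)))))))))) 
(.nd (nat_lit 18) (.nd (nat_lit 8) (.nd (nat_lit 17) (.nd (nat_lit 28) (.nd (nat_lit 20) 
(.nd (nat_lit 19) (.nd (nat_lit 6) (.nd (nat_lit 7) 
(.lf (nat_lit 3959488559) (dlOf (nat_lit 1) (nat_lit 0x8008000400200020008090003))) 
(.lf (nat_lit 48301231) (dlOf (nat_lit 3) (nat_lit 0x1b33f0001640800799f8000ae0400a800400020019402c02)))) 
(.nd (nat_lit 7) (.lf (nat_lit 12648559) (dlOf (nat_lit 1) (nat_lit 0x8008002c002001e00086d1583))) 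
(.lf (nat_lit 1208025327) (dlOf (nat_lit 1) (nat_lit 0x1c00400100018090a82))))) (.nd (nat_lit 9) 
(.nd (nat_lit 29) 
(.lf (nat_lit 134807599) (dlOf (nat_lit 6) (nat_lit 0x8101d8000b80801600ec0005a0402100760002b02019e03b0001501002801d80003008047000803bc002000200080c0e83))) 
(.lf (nat_lit 3892903983) (dlOf (nat_lit 1) (nat_lit 0x11800400020008290e82)))) (.nd (nat_lit 6) 
(.lf (nat_lit 593455) (dlOf (nat_lit 1) (nat_lit 0xc00400020018007182))) 
(.lf (nat_lit 61408879) (dlOf (nat_lit 1) (nat_lit 0x10008000400200020009923983)))))) 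
(.nd (nat_lit 10) (.nd (nat_lit 6) (.nd (nat_lit 19) 
(.lf (nat_lit 17891375) (dlOf (nat_lit 2) (nat_lit 0x206ac0001c04000c00200080008900b82))) 
(.lf (nat_lit 26804271) (dlOf (nat_lit 3) (nat_lit 0x15b1c02d6d520002f8200396a900016408018800800b000200420008c70903)))) 
(.nd (nat_lit 7) (.lf (nat_lit 19994735) (dlOf (nat_lit 1) (nat_lit 0x24002000200089da882))) 
(.lf (nat_lit 7934191) (dlOf (nat_lit 1) (nat_lit 0x2e0028518081))))) (.nd (nat_lit 7) 
(.nd (nat_lit 6) 
(.lf (nat_lit 2754678319) (dlOf (nat_lit 3) (nat_lit 0x170074000a804012c03a0005102000c00180f7181))) 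
(.lf (nat_lit 20520047) (dlOf (nat_lit 1) (nat_lit 0x2200189dc101)))) (.nd (nat_lit 21) 
(.lf (nat_lit 55641263) (dlOf (nat_lit 3) (nat_lit 0x256750001480800d3a9400c5c620004b04008800296d2c01))) 
(.lf (nat_lit 36766895) (dlOf (nat_lit 1) (nat_lit 0x1d800200fc0009072c02))))))) (.nd (nat_lit 31) 
(.nd (nat_lit 6) (.nd (nat_lit 9) (.nd (nat_lit 26) 
(.lf (nat_lit 1343291439) (dlOf (nat_lit 5) (nat_lit 0x6009c000340401180000001402000a19d000030100050ce80000408001800802b800200a000081e0703))) 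
(.lf (nat_lit 470876207) (dlOf (nat_lit 4) (nat_lit 0x40c1c80001c0206740e40000d81000b0000000540802d8008016c002004400081c0703)))) 
(.lf (nat_lit 1879114287) (dlOf (nat_lit 1) (nat_lit 0x2000400040008018002)))) (.nd (nat_lit 7) 
(.lf (nat_lit 1342249071) (dlOf (nat_lit 3) (nat_lit 0x30a7000201f80154c08004c29c002607e0052382800a880))) 
(.nd (nat_lit 27) (.lf (nat_lit 872482031) (dlOf (nat_lit 1) (nat_lit 0x400400120018092e82))) 
(.lf (nat_lit 2080441583) (dlOf (nat_lit 1) (nat_lit 0x10008000c00200060008092e83)))))) 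
(.nd (nat_lit 9) (.nd (nat_lit 7) (.nd (nat_lit 21) 
(.lf (nat_lit 3557359663) (dlOf (nat_lit 10) (nat_lit 0x20050001501000300280009c0800080140004c0400040920001e02003e04900d202400208084040402400540000000d050123024001b00a0009804e019a01700ad00b0096804802e40160184005005e0000000504804d8124044009000aa02100d100000004c200208048000040400300d000480670048024801e01200004042003c02000230000000003801b80080208002014600081c0703))) 
(.lf (nat_lit 3492347951) (dlOf (nat_lit 1) (nat_lit 0x140008002c002002400080c0e83)))) 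
(.lf (nat_lit 4160820399) (dlOf (nat_lit 1) (nat_lit 0x8008000400200020008009503)))) 
(.nd (nat_lit 10) (.nd (nat_lit 11) 
(.lf (nat_lit 2617311791) (dlOf (nat_lit 1) (nat_lit 0x600180a1481))) 
(.lf (nat_lit 3556837935) (dlOf (nat_lit 1) (nat_lit 0x20008085181)))) 
(.lf (nat_lit 2617316911) (dlOf (nat_lit 1) (nat_lit 0x40008001c002000c00080a9c03))))))) 
(.nd (nat_lit 28) (.nd (nat_lit 20) (.nd (nat_lit 6) (.nd (nat_lit 7) 
(.lf (nat_lit 4899143727) (dlOf (nat_lit 1) (nat_lit 0x10008000800200040008090d03))) 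
(.lf (nat_lit 36373679) (dlOf (nat_lit 1) (nat_lit 0x6400200a80009072c02)))) (.nd (nat_lit 7) 
(.nd (nat_lit 21) (.lf (nat_lit 30081135) (dlOf (nat_lit 1) (nat_lit 0x40028e30481))) 
(.lf (nat_lit 48955503) (dlOf (nat_lit 1) (nat_lit 0x8008000400200020009452483)))) 
(.lf (nat_lit 2818776303) (dlOf (nat_lit 1) (nat_lit 0x240040008000812c602))))) (.nd (nat_lit 21) 
(.nd (nat_lit 24) (.nd (nat_lit 9) 
(.lf (nat_lit 1769519) (dlOf (nat_lit 2) (nat_lit 0x905a80006204001000400080008130882))) 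
(.lf (nat_lit 2753233455) (dlOf (nat_lit 2) (nat_lit 0x9507f400000040034004008c0008090e82)))) 
(.nd (nat_lit 19) (.lf (nat_lit 18022447) (dlOf (nat_lit 1) (nat_lit 0x20008900b81))) 
(.lf (nat_lit 18546735) (dlOf (nat_lit 2) (nat_lit 0x193580000004000c002000a0008950802))))) 
(.nd (nat_lit 6) (.nd (nat_lit 9) 
(.lf (nat_lit 8067119) (dlOf (nat_lit 1) (nat_lit 0x800801f0002007c000851a603))) 
(.lf (nat_lit 20644399) (dlOf (nat_lit 1) (nat_lit 0x200289d1481)))) 
(.lf (nat_lit 24313967) (dlOf (nat_lit 1) (nat_lit 0x1400400020008b91582)))))) (.nd (nat_lit 19) 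
(.nd (nat_lit 9) (.nd (nat_lit 6) (.nd (nat_lit 26) 
(.lf (nat_lit 6308429871) (dlOf (nat_lit 5) (nat_lit 0x500100002e02024602e0123016804080b004b4056009402a0047014800e80a0009004e0148026002a01280168088011c03e025e01e003100e8036806c015c030021801100a50040024001c01c800a007400200d600080808000000565c0404032000c0090000602002e00c80002808014800800d000200ae0008080383))) 
(.lf (nat_lit 5704450095) (dlOf (nat_lit 5) (nat_lit 0x500100003102024602e0123016804080b004b4056009402a0047014800e80a0009004e0148026002a01280168088011c03e025e01e003100e8036806c015c030021801100a50040024001c01c8006007400200d6000808080000005c5c0404032000c0090000602002e00c80002808014800800d000200ae0008080383)))) 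
(.lf (nat_lit 3556970735) (dlOf (nat_lit 1) (nat_lit 0x10e0028128081)))) (.nd (nat_lit 11) 
(.nd (nat_lit 26) (.lf (nat_lit 3087204911) (dlOf (nat_lit 1) (nat_lit 0xe0018158b01))) 
(.lf (nat_lit 469959215) (dlOf (nat_lit 1) (nat_lit 0x360008018b01)))) 
(.lf (nat_lit 1345522223) (dlOf (nat_lit 1) (nat_lit 0x120008c95181))))) (.nd (nat_lit 26) 
(.nd (nat_lit 9) (.lf (nat_lit 1342898223) (dlOf (nat_lit 1) (nat_lit 0x20018101001))) 
(.lf (nat_lit 3491430959) (dlOf (nat_lit 2) (nat_lit 0x9507ac00000040034004008c0008090e82)))) 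
(.nd (nat_lit 27) (.nd (nat_lit 31) 
(.lf (nat_lit 1410007087) (dlOf (nat_lit 7) (nat_lit 0x404b0001b01000f0258000d408001012c000680401380be0003202029205f00930180000c41003100c00006004008c00400a000080c0e82))) 
(.lf (nat_lit 3557490735) (dlOf (nat_lit 1) (nat_lit 0x60008220901)))) 
(.lf (nat_lit 470482991) (dlOf (nat_lit 1) (nat_lit 0x20018101001)))))))) (.nd (nat_lit 6) 
(.nd (nat_lit 10) (.nd (nat_lit 7) (.nd (nat_lit 9) (.nd (nat_lit 19) (.nd (nat_lit 21) 
(.lf (nat_lit 1677787439) (dlOf (nat_lit 2) (nat_lit 0xa0288000e00802180080010002001a0008090503))) 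
(.lf (nat_lit 10551599) (dlOf (nat_lit 1) (nat_lit 0x24004000800085f8402)))) 
(.lf (nat_lit 4096327983) (dlOf (nat_lit 1) (nat_lit 0x800180f5a01)))) (.nd (nat_lit 17) 
(.lf (nat_lit 5033233199) (dlOf (nat_lit 1) (nat_lit 0x60018005c01))) 
(.lf (nat_lit 1345522479) (dlOf (nat_lit 1) (nat_lit 0xc00400060008c95c02))))) (.nd (nat_lit 19) 
(.nd (nat_lit 9) (.nd (nat_lit 17) 
(.lf (nat_lit 1610680751) (dlOf (nat_lit 1) (nat_lit 0x40008004e81))) 
(.lf (nat_lit 31656367) (dlOf (nat_lit 1) (nat_lit 0xa0028e94e81)))) 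
(.lf (nat_lit 2885753775) (dlOf (nat_lit 1) (nat_lit 0x18002000e000800bd82)))) (.nd (nat_lit 11) 
(.lf (nat_lit 51052975) (dlOf (nat_lit 1) (nat_lit 0x4000194f6e81))) (.nd (nat_lit 20) 
(.lf (nat_lit 592303) (dlOf (nat_lit 1) (nat_lit 0x20028004e81))) 
(.lf (nat_lit 51972527) (dlOf (nat_lit 1) (nat_lit 0x400400020009514e82))))))) (.nd (nat_lit 11) 
(.nd (nat_lit 9) (.nd (nat_lit 12) (.nd (nat_lit 26) 
(.lf (nat_lit 6308300207) (dlOf (nat_lit 1) (nat_lit 0x3c00200160008053602))) 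
(.lf (nat_lit 4899014063) (dlOf (nat_lit 1) (nat_lit 0x400200020008053602)))) 
(.lf (nat_lit 3691058607) (dlOf (nat_lit 1) (nat_lit 0x100028009901)))) (.nd (nat_lit 7) 
(.nd (nat_lit 17) (.lf (nat_lit 671156015) (dlOf (nat_lit 1) (nat_lit 0x20028143d81))) 
(.lf (nat_lit 2885879599) (dlOf (nat_lit 1) (nat_lit 0x8008000400200020008143d83)))) 
(.lf (nat_lit 7935919) (dlOf (nat_lit 1) (nat_lit 0xc80080004002000e000851a403))))) 
(.nd (nat_lit 7) (.nd (nat_lit 29) 
(.lf (nat_lit 1543572783) (dlOf (nat_lit 1) (nat_lit 0x140008146881))) 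
(.lf (nat_lit 4227927343) (dlOf (nat_lit 1) (nat_lit 0x340028006881)))) (.nd (nat_lit 9) 
(.nd (nat_lit 17) 
(.lf (nat_lit 1543572911) (dlOf (nat_lit 1) (nat_lit 0x8008000400200040008146d03))) 
(.lf (nat_lit 3624078767) (dlOf (nat_lit 1) (nat_lit 0x8008000400200020008146d03)))) 
(.lf (nat_lit 7933871) (dlOf (nat_lit 1) (nat_lit 0x10008000800200080008517a03))))))) 
(.nd (nat_lit 7) (.nd (nat_lit 17) (.nd (nat_lit 27) (.nd (nat_lit 10) (.nd (nat_lit 19) 
(.lf (nat_lit 3825271151) (dlOf (nat_lit 1) (nat_lit 0x80004001600080b0782))) 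
(.lf (nat_lit 25756015) (dlOf (nat_lit 1) (nat_lit 0x20008001c002000c0008c10a03)))) 
(.lf (nat_lit 50398575) (dlOf (nat_lit 1) (nat_lit 0xa00294c3481)))) (.nd (nat_lit 9) 
(.nd (nat_lit 10) (.lf (nat_lit 3087073647) (dlOf (nat_lit 1) (nat_lit 0x38002001000080b0782))) 
(.lf (nat_lit 134290799) (dlOf (nat_lit 2) (nat_lit 0x400ec009c60400b00020054000800c902)))) 
(.lf (nat_lit 2885753711) (dlOf (nat_lit 1) (nat_lit 0x94000800bc81))))) (.nd (nat_lit 19) 
(.nd (nat_lit 21) (.lf (nat_lit 67305839) (dlOf (nat_lit 1) (nat_lit 0x4002000200080b0a02))) 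
(.lf (nat_lit 2753757551) (dlOf (nat_lit 3) (nat_lit 0xa073c01c2c04001039e00cee02002e0018090781)))) 
(.nd (nat_lit 9) (.nd (nat_lit 20) 
(.lf (nat_lit 4096459119) (dlOf (nat_lit 1) (nat_lit 0x2400200080008115802))) 
(.lf (nat_lit 14352751) (dlOf (nat_lit 1) (nat_lit 0xc00200060008750a02)))) 
(.lf (nat_lit 20644719) (dlOf (nat_lit 1) (nat_lit 0x200289d2581)))))) (.nd (nat_lit 30) 
(.nd (nat_lit 9) (.nd (nat_lit 21) (.nd (nat_lit 19) 
(.lf (nat_lit 1006830063) (dlOf (nat_lit 2) (nat_lit 0x96065001198180c0d80))) 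
(.lf (nat_lit 2753233391) (dlOf (nat_lit 4) (nat_lit 0x2c3fe0022a02000a1ff0011301000b0ae8007e8080010008003800200080008090d83)))) 
(.nd (nat_lit 17) 
(.lf (nat_lit 11600367) (dlOf (nat_lit 3) (nat_lit 0x4c3d38008cc080239e9c0045e040014004002c00186c0d82))) 
(.lf (nat_lit 11731439) (dlOf (nat_lit 2) (nat_lit 0x88899001198186c0d80))))) (.nd (nat_lit 11) 
(.lf (nat_lit 36373487) (dlOf (nat_lit 1) (nat_lit 0x20029072881))) (.nd (nat_lit 17) 
(.lf (nat_lit 59837423) (dlOf (nat_lit 1) (nat_lit 0x400400020009845f02))) 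
(.lf (nat_lit 54725615) (dlOf (nat_lit 1) (nat_lit 0x800400020009655f02)))))) (.nd (nat_lit 31) 
(.nd (nat_lit 9) (.lf (nat_lit 1879245295) (dlOf (nat_lit 2) (nat_lit 0x96061001198180c0d80))) 
(.nd (nat_lit 11) (.lf (nat_lit 1275134959) (dlOf (nat_lit 1) (nat_lit 0x400400020008092882))) 
(.lf (nat_lit 5368777711) (dlOf (nat_lit 1) (nat_lit 0x20028005f01))))) (.nd (nat_lit 10) 
(.nd (nat_lit 12) 
(.lf (nat_lit 3491430895) (dlOf (nat_lit 4) (nat_lit 0x2c3da0022a02000a1ed0011301000b0ac0007f0080010008003800200080008090d83))) 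
(.lf (nat_lit 3556970991) (dlOf (nat_lit 1) (nat_lit 0x380018128681)))) 
(.lf (nat_lit 4160951791) (dlOf (nat_lit 1) (nat_lit 0x78008000c002000400080a9c03))))))))) 
(.nd (nat_lit 19) (.nd (nat_lit 28) (.nd (nat_lit 21) (.nd (nat_lit 31) (.nd (nat_lit 17) 
(.nd (nat_lit 27) (.nd (nat_lit 20) 
(.lf (nat_lit 4832165935) (dlOf (nat_lit 1) (nat_lit 0x4004000200080f0482))) 
(.lf (nat_lit 9764911) (dlOf (nat_lit 1) (nat_lit 0x20028580381)))) (.nd (nat_lit 7) 
(.lf (nat_lit 1208287279) (dlOf (nat_lit 2) (nat_lit 0x1a029000d0060001f81000b00080060002002a00080b0483))) 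
(.lf (nat_lit 738525359) (dlOf (nat_lit 1) (nat_lit 0x80080004002000200080a2d83))))) 
(.nd (nat_lit 8) (.nd (nat_lit 22) 
(.lf (nat_lit 537329711) (dlOf (nat_lit 1) (nat_lit 0x40018090001))) 
(.lf (nat_lit 21430319) (dlOf (nat_lit 1) (nat_lit 0x100018a40381)))) 
(.lf (nat_lit 60230447) (dlOf (nat_lit 1) (nat_lit 0x1800400020019845c02))))) (.nd (nat_lit 26) 
(.nd (nat_lit 17) (.nd (nat_lit 8) 
(.lf (nat_lit 2282029103) (dlOf (nat_lit 1) (nat_lit 0x60008110681))) 
(.lf (nat_lit 3221553455) (dlOf (nat_lit 1) (nat_lit 0x40018137a01)))) (.nd (nat_lit 6) 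
(.lf (nat_lit 6442909743) (dlOf (nat_lit 1) (nat_lit 0x20028220b01))) 
(.lf (nat_lit 3221684335) (dlOf (nat_lit 1) (nat_lit 0x8008000400200020008170003))))) 
(.nd (nat_lit 6) (.nd (nat_lit 27) 
(.lf (nat_lit 3288662063) (dlOf (nat_lit 2) (nat_lit 0x1402e000ac8180a0980))) 
(.lf (nat_lit 2349137967) (dlOf (nat_lit 1) (nat_lit 0x4002000200080d0b02)))) 
(.lf (nat_lit 3288662127) (dlOf (nat_lit 8) (nat_lit 0x100300000d81000901b0000640800480d80003004000406c000c0340000582000501b000580d00001408002406c001a0340000482000901b000500d000010080004004000a00080a1582)))))) 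
(.nd (nat_lit 6) (.nd (nat_lit 20) (.nd (nat_lit 9) 
(.lf (nat_lit 15138863) (dlOf (nat_lit 7) (nat_lit 0x1da190001f0100150000000dc0800300000006a040018dfa0000a02000e6fd0000081000400000000008001000800a0002001a00087c0703))) 
(.lf (nat_lit 35981871) (dlOf (nat_lit 1) (nat_lit 0xc00200040009015182)))) (.nd (nat_lit 22) 
(.lf (nat_lit 62193711) (dlOf (nat_lit 5) (nat_lit 0x121d0000c0df80078650001809c0007b0800021d000070df80058650001809c0007a08000c1d0000a0df80058650002009c000790800021d000060df80040650002809c000780800080029970d01))) 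
(.lf (nat_lit 16056367) (dlOf (nat_lit 1) (nat_lit 0x540008860901))))) (.nd (nat_lit 7) 
(.nd (nat_lit 26) (.lf (nat_lit 2424943) (dlOf (nat_lit 1) (nat_lit 0x6c0008161581))) 
(.lf (nat_lit 2753888367) (dlOf (nat_lit 1) (nat_lit 0x4002000200080a1582)))) (.nd (nat_lit 9) 
(.lf (nat_lit 23396847) (dlOf (nat_lit 2) (nat_lit 0x2779160107c38000544100010008000400200580008b80d83))) 
(.lf (nat_lit 20253679) (dlOf (nat_lit 1) (nat_lit 0xc00289d5f01))))))) (.nd (nat_lit 26) 
(.nd (nat_lit 6) (.nd (nat_lit 29) (.nd (nat_lit 7) 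
(.lf (nat_lit 1342636079) (dlOf (nat_lit 3) (nat_lit 0x87480005404002449200122310000c0280a0900))) 
(.lf (nat_lit 402981039) (dlOf (nat_lit 1) (nat_lit 0x4002000200080c1582)))) (.nd (nat_lit 30) 
(.lf (nat_lit 5100601391) (dlOf (nat_lit 1) (nat_lit 0x4004000200080f0482))) 
(.lf (nat_lit 4026859567) (dlOf (nat_lit 2) (nat_lit 0x1402e000638180a0980))))) (.nd (nat_lit 8) 
(.nd (nat_lit 21) 
(.lf (nat_lit 4026859631) (dlOf (nat_lit 8) (nat_lit 0x100300000d81000901b0000640800480d80003004000406c000c0340000582000501b000580d00001408002406c001a0340000482000901b000500d000010080004004000a00080a1582))) 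
(.lf (nat_lit 3492085871) (dlOf (nat_lit 1) (nat_lit 0x4002000200080a1582)))) (.nd (nat_lit 10) 
(.lf (nat_lit 5234819439) (dlOf (nat_lit 1) (nat_lit 0x400280f5801))) 
(.lf (nat_lit 3489992047) (dlOf (nat_lit 1) (nat_lit 0x9c004001c0008006b02)))))) (.nd (nat_lit 17) 
(.nd (nat_lit 9) (.nd (nat_lit 27) 
(.lf (nat_lit 2483355695) (dlOf (nat_lit 1) (nat_lit 0x4002000200080d0b02))) 
(.lf (nat_lit 2080702511) (dlOf (nat_lit 2) (nat_lit 0x1a029000d0060001f81000b00080060002002a00080b0483)))) 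
(.lf (nat_lit 4096067119) (dlOf (nat_lit 1) (nat_lit 0x38008001c002000800080e3783)))) 
(.nd (nat_lit 30) (.nd (nat_lit 29) 
(.lf (nat_lit 470220847) (dlOf (nat_lit 4) (nat_lit 0xd0924002c47e0001d04002e2490000e01001612480006c0800180080008002000e00080a0883))) 
(.lf (nat_lit 1007091759) (dlOf (nat_lit 2) (nat_lit 0x4000000a7018170480)))) (.nd (nat_lit 27) 
(.lf (nat_lit 3557228591) (dlOf (nat_lit 1) (nat_lit 0x20028170481))) 
(.lf (nat_lit 5838929967) (dlOf (nat_lit 1) (nat_lit 0x20028220b01)))))))) (.nd (nat_lit 17) 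
(.nd (nat_lit 20) (.nd (nat_lit 11) (.nd (nat_lit 26) (.nd (nat_lit 23) (.nd (nat_lit 28) 
(.lf (nat_lit 2949167) (dlOf (nat_lit 2) (nat_lit 0x6c0000001002000200181e0901))) 
(.lf (nat_lit 3492610095) (dlOf (nat_lit 6) (nat_lit 0x1581fb008a0b28001581000187ec003c2ca000550403181fc000098101780fe000048080c307f00002004008c004003c00080e0682)))) 
(.lf (nat_lit 11337775) (dlOf (nat_lit 3) (nat_lit 0xe00c0005a0400170a40000e0200100028690681)))) 
(.nd (nat_lit 9) 
(.lf (nat_lit 2754412591) (dlOf (nat_lit 6) (nat_lit 0x158210008a0b4800158100018840003c2d20005504031821100009810178108800048080c308440002004008c004003c00080e0682))) 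
(.lf (nat_lit 67961391) (dlOf (nat_lit 1) (nat_lit 0x400400020008331482))))) (.nd (nat_lit 7) 
(.nd (nat_lit 10) (.lf (nat_lit 38603311) (dlOf (nat_lit 2) (nat_lit 0x254300046019135180))) 
(.lf (nat_lit 537726511) (dlOf (nat_lit 2) (nat_lit 0x9017c0009c040020002000200080f7182)))) 
(.nd (nat_lit 6) (.lf (nat_lit 1345128879) (dlOf (nat_lit 1) (nat_lit 0x20018a44e81))) 
(.lf (nat_lit 38603247) (dlOf (nat_lit 1) (nat_lit 0x800200020009134f02)))))) (.nd (nat_lit 10) 
(.nd (nat_lit 8) (.nd (nat_lit 21) 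
(.lf (nat_lit 27066415) (dlOf (nat_lit 5) (nat_lit 0x3f64740008204002f23a0004002047791d017fc410000f81000fe47401428d2000370401040018ca0701))) 
(.lf (nat_lit 2755461167) (dlOf (nat_lit 1) (nat_lit 0x400400020008190902)))) (.nd (nat_lit 6) 
(.nd (nat_lit 7) (.lf (nat_lit 1900847) (dlOf (nat_lit 1) (nat_lit 0x210008044000200b60008150503))) 
(.lf (nat_lit 37554607) (dlOf (nat_lit 1) (nat_lit 0xc002000200090d4e82)))) 
(.lf (nat_lit 12386671) (dlOf (nat_lit 1) (nat_lit 0x200086c0781))))) (.nd (nat_lit 6) 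
(.nd (nat_lit 7) (.lf (nat_lit 20780847) (dlOf (nat_lit 1) (nat_lit 0x2400289da101))) 
(.lf (nat_lit 8193455) (dlOf (nat_lit 1) (nat_lit 0x400200020008513602)))) (.nd (nat_lit 7) 
(.nd (nat_lit 12) (.lf (nat_lit 50136175) (dlOf (nat_lit 1) (nat_lit 0x200294c2a01))) 
(.lf (nat_lit 20780143) (dlOf (nat_lit 1) (nat_lit 0xe00289d9401)))) 
(.lf (nat_lit 8194031) (dlOf (nat_lit 1) (nat_lit 0x20018514601))))))) (.nd (nat_lit 6) 
(.nd (nat_lit 11) (.nd (nat_lit 22) (.nd (nat_lit 26) (.nd (nat_lit 20) 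
(.lf (nat_lit 1343160367) (dlOf (nat_lit 1) (nat_lit 0x20008000400200060008180d03))) 
(.lf (nat_lit 52363311) (dlOf (nat_lit 1) (nat_lit 0x80019530301)))) (.nd (nat_lit 9) 
(.lf (nat_lit 470745135) (dlOf (nat_lit 2) (nat_lit 0xba00000053808004800801d0002004e0008170483))) 
(.lf (nat_lit 2752447023) (dlOf (nat_lit 1) (nat_lit 0x1c0028018b01))))) (.nd (nat_lit 23) 
(.lf (nat_lit 5177391) (dlOf (nat_lit 8) (nat_lit 0x1a30380007c0403bd7ee000370200a6bf70001b0100465fb8000d4080072fdc000660401a981c0001a02012ec0e01015fb8000001000200080104002000c0008320703))) 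
(.lf (nat_lit 13565999) (dlOf (nat_lit 1) (nat_lit 0x800200020008730b02))))) (.nd (nat_lit 24) 
(.nd (nat_lit 8) (.lf (nat_lit 3492743343) (dlOf (nat_lit 1) (nat_lit 0x400280f4901))) 
(.lf (nat_lit 49220015) (dlOf (nat_lit 1) (nat_lit 0x20009464e81)))) (.nd (nat_lit 7) 
(.lf (nat_lit 54463279) (dlOf (nat_lit 1) (nat_lit 0x180009655c01))) 
(.lf (nat_lit 19860911) (dlOf (nat_lit 1) (nat_lit 0x200189d6d01)))))) (.nd (nat_lit 7) 
(.nd (nat_lit 8) (.nd (nat_lit 9) (.nd (nat_lit 11) 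
(.lf (nat_lit 6376325231) (dlOf (nat_lit 1) (nat_lit 0x38002003c0008090182))) 
(.lf (nat_lit 3492743279) (dlOf (nat_lit 1) (nat_lit 0x64002000600080f4782)))) 
(.lf (nat_lit 6376327791) (dlOf (nat_lit 1) (nat_lit 0x1680008095381)))) (.nd (nat_lit 20) 
(.lf (nat_lit 24052079) (dlOf (nat_lit 3) (nat_lit 0x770ba0185e020017a21000948e8060ec1001300080028002000a0008b80783))) 
(.nd (nat_lit 21) (.lf (nat_lit 3491692911) (dlOf (nat_lit 1) (nat_lit 0x20008090781))) 
(.lf (nat_lit 3493790063) (dlOf (nat_lit 2) (nat_lit 0x4c00000e1602007600181b0781)))))) 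
(.nd (nat_lit 10) (.nd (nat_lit 8) 
(.lf (nat_lit 19857647) (dlOf (nat_lit 1) (nat_lit 0x200089d0a81))) 
(.lf (nat_lit 54463471) (dlOf (nat_lit 1) (nat_lit 0xc80029655f01)))) (.nd (nat_lit 11) 
(.lf (nat_lit 5772346607) (dlOf (nat_lit 1) (nat_lit 0x400200020008092e82))) 
(.lf (nat_lit 2754546927) (dlOf (nat_lit 2) (nat_lit 0xb03c8000d80800200080010002000a00080f6503))))))))))) 
(.nd (nat_lit 17) (.nd (nat_lit 8) (.nd (nat_lit 18) (.nd (nat_lit 6) (.nd (nat_lit 19) 
(.nd (nat_lit 9) (.nd (nat_lit 20) (.nd (nat_lit 16) (.nd (nat_lit 7) 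
(.lf (nat_lit 27271215) (dlOf (nat_lit 1) (nat_lit 0x8008000400200020008cc0903))) 
(.lf (nat_lit 37758127) (dlOf (nat_lit 1) (nat_lit 0x8002000200090d2c02)))) (.nd (nat_lit 27) 
(.lf (nat_lit 1677795375) (dlOf (nat_lit 2) (nat_lit 0x3404e004d1818090000))) 
(.lf (nat_lit 3959496751) (dlOf (nat_lit 2) (nat_lit 0x201e004d1818090000))))) (.nd (nat_lit 22) 
(.nd (nat_lit 16) (.lf (nat_lit 5772419119) (dlOf (nat_lit 1) (nat_lit 0x20018090001))) 
(.lf (nat_lit 1343299631) (dlOf (nat_lit 4) (nat_lit 0x902b8003a0e40000d0200420000000500800d00000002604005c002002c00081e0702)))) 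
(.nd (nat_lit 23) (.lf (nat_lit 22028335) (dlOf (nat_lit 1) (nat_lit 0x20018a90701))) 
(.lf (nat_lit 13639727) (dlOf (nat_lit 2) (nat_lit 0x3000000034040088002000e0008730b02)))))) 
(.nd (nat_lit 11) (.nd (nat_lit 7) (.nd (nat_lit 16) 
(.lf (nat_lit 1207969327) (dlOf (nat_lit 3) (nat_lit 0x4809c0003804001004e0001b0200280018003781))) 
(.lf (nat_lit 6106981935) (dlOf (nat_lit 1) (nat_lit 0x1000200060008003782)))) (.nd (nat_lit 12) 
(.lf (nat_lit 2415929007) (dlOf (nat_lit 1) (nat_lit 0x80028003a81))) 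
(.lf (nat_lit 1342191279) (dlOf (nat_lit 1) (nat_lit 0x4001800a001))))) (.nd (nat_lit 10) 
(.nd (nat_lit 12) 
(.lf (nat_lit 41953839) (dlOf (nat_lit 2) (nat_lit 0x312b40011604000400400120009245182))) 
(.lf (nat_lit 4362091055) (dlOf (nat_lit 1) (nat_lit 0x4001800b301)))) (.nd (nat_lit 7) 
(.nd (nat_lit 20) 
(.lf (nat_lit 2885758511) (dlOf (nat_lit 2) (nat_lit 0x100e80048000000540400040018007181))) 
(.lf (nat_lit 2754686511) (dlOf (nat_lit 3) (nat_lit 0x2d0074000a804008c0400004e02000600180f7181)))) 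
(.lf (nat_lit 939536047) (dlOf (nat_lit 2) (nat_lit 0x40340003c0200120018007281))))))) 
(.nd (nat_lit 31) (.nd (nat_lit 16) (.nd (nat_lit 21) (.nd (nat_lit 25) 
(.lf (nat_lit 21504047) (dlOf (nat_lit 2) (nat_lit 0x259a20002e0200020028a40381))) 
(.lf (nat_lit 55058479) (dlOf (nat_lit 3) (nat_lit 0x4102000401e8001d81000104b4001407a0007504001400296a0d01)))) 
(.nd (nat_lit 9) (.lf (nat_lit 27795503) (dlOf (nat_lit 1) (nat_lit 0x8008001c00200100008d20903))) 
(.lf (nat_lit 20459055) (dlOf (nat_lit 1) (nat_lit 0x200289d7181))))) (.nd (nat_lit 26) 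
(.nd (nat_lit 27) 
(.lf (nat_lit 1611210799) (dlOf (nat_lit 3) (nat_lit 0x101140005a040040000000000200440008110601))) 
(.lf (nat_lit 134815791) (dlOf (nat_lit 5) (nat_lit 0xa80760002e02005a03b0001681000a01d8000ac0802600ec0005404014c004000a00180c0e82)))) 
(.lf (nat_lit 738795567) (dlOf (nat_lit 3) (nat_lit 0x1011400058040040000000000200440008110601))))) 
(.nd (nat_lit 26) (.nd (nat_lit 28) (.nd (nat_lit 27) 
(.lf (nat_lit 3221757999) (dlOf (nat_lit 1) (nat_lit 0xa0008170001))) 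
(.lf (nat_lit 2819104815) (dlOf (nat_lit 6) (nat_lit 0x2e046008602280658084000360c000c042000190205120740172039801b0114007007201560000000a85004a03a004d0118042008a010803900fe0108000502800e0118009c08a014402100b901000000020012000800b4002002400081a0703)))) 
(.nd (nat_lit 7) 
(.lf (nat_lit 3492290607) (dlOf (nat_lit 2) (nat_lit 0x21023001101160003104005e00080c0e81))) 
(.lf (nat_lit 3491307695) (dlOf (nat_lit 1) (nat_lit 0x60028090301))))) (.nd (nat_lit 7) 
(.nd (nat_lit 21) 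
(.lf (nat_lit 3288866863) (dlOf (nat_lit 2) (nat_lit 0x3801800180000075f04000400281d0a01))) 
(.lf (nat_lit 2754093103) (dlOf (nat_lit 1) (nat_lit 0x200180c0f01)))) 
(.lf (nat_lit 2753110191) (dlOf (nat_lit 1) (nat_lit 0x60028090301))))))) (.nd (nat_lit 16) 
(.nd (nat_lit 12) (.nd (nat_lit 11) (.nd (nat_lit 9) (.nd (nat_lit 26) 
(.lf (nat_lit 134750319) (dlOf (nat_lit 1) (nat_lit 0x800080a1581))) 
(.lf (nat_lit 201859183) (dlOf (nat_lit 1) (nat_lit 0x800080a1581)))) 
(.lf (nat_lit 6375351919) (dlOf (nat_lit 1) (nat_lit 0x40028003981)))) (.nd (nat_lit 7) 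
(.lf (nat_lit 4362086511) (dlOf (nat_lit 1) (nat_lit 0x40002000c0008004782))) (.nd (nat_lit 9) 
(.lf (nat_lit 2754620655) (dlOf (nat_lit 1) (nat_lit 0x4004000200180f6502))) 
(.lf (nat_lit 6377450223) (dlOf (nat_lit 1) (nat_lit 0x1a00280e5a01)))))) (.nd (nat_lit 27) 
(.nd (nat_lit 7) (.nd (nat_lit 10) 
(.lf (nat_lit 1342191727) (dlOf (nat_lit 2) (nat_lit 0x4804e802a980800300080008002000a000800a883))) 
(.lf (nat_lit 20462703) (dlOf (nat_lit 1) (nat_lit 0x8004000400189dc102)))) 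
(.lf (nat_lit 1342189807) (dlOf (nat_lit 1) (nat_lit 0x800200020008008082)))) (.nd (nat_lit 26) 
(.lf (nat_lit 1476409455) (dlOf (nat_lit 8) (nat_lit 0x4a005c028000e00a40000055303003a00c0039005c0f180220040010012100780c4003801e800e004e002004600000297848015806002a402e0744011000a008008a003c061401c013c007003000200130008003800000a5c140018020005298100c100b8078801c0148e08000402e00100070051f820078000000000081690008053000209b2000800a883))) 
(.lf (nat_lit 3691001967) (dlOf (nat_lit 5) (nat_lit 0x3002e0075016003780a8000405200da0220027010802e806400fc03000c800900650028029785003380b0014c01200fe0050052e83006d016003680a801980440090021006000c801f8060002002800d400900a8002801a8000014b828005405c00e202a0083014804e808802c8042002e02000b300d8055006400d4030016c01400b1009000d0044037800a017a002003400080291c780170008002000203da000800a883)))))) 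
(.nd (nat_lit 28) (.nd (nat_lit 7) (.nd (nat_lit 10) (.nd (nat_lit 20) 
(.lf (nat_lit 537469039) (dlOf (nat_lit 1) (nat_lit 0x5800080a1581))) 
(.lf (nat_lit 68755567) (dlOf (nat_lit 1) (nat_lit 0x100028731d01)))) 
(.lf (nat_lit 604060783) (dlOf (nat_lit 1) (nat_lit 0x680040002000800c102)))) (.nd (nat_lit 24) 
(.lf (nat_lit 2171119) (dlOf (nat_lit 1) (nat_lit 0x100018150481))) 
(.lf (nat_lit 18948335) (dlOf (nat_lit 1) (nat_lit 0x400200020008970602))))) (.nd (nat_lit 19) 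
(.nd (nat_lit 7) (.nd (nat_lit 9) 
(.lf (nat_lit 1342257263) (dlOf (nat_lit 5) (nat_lit 0x2416100160a7000d8274002c11c007207e0055305000303f0029500800181f8014a40401882c2008814e003b047003181f8016405400a470a0032002800a881))) 
(.lf (nat_lit 2617320047) (dlOf (nat_lit 1) (nat_lit 0x400280a1801)))) 
(.lf (nat_lit 4697695471) (dlOf (nat_lit 1) (nat_lit 0x4c00200120008092e82)))) (.nd (nat_lit 20) 
(.lf (nat_lit 1409884271) (dlOf (nat_lit 1) (nat_lit 0x5800080a1581))) 
(.lf (nat_lit 3491307631) (dlOf (nat_lit 1) (nat_lit 0x18008000400200020008090003)))))))) 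
(.nd (nat_lit 16) (.nd (nat_lit 26) (.nd (nat_lit 19) (.nd (nat_lit 28) (.nd (nat_lit 6) 
(.nd (nat_lit 27) 
(.lf (nat_lit 537141295) (dlOf (nat_lit 1) (nat_lit 0x800800cc00200120008030c83))) 
(.lf (nat_lit 134488111) (dlOf (nat_lit 1) (nat_lit 0x100018030c81)))) (.nd (nat_lit 7) 
(.lf (nat_lit 2818849903) (dlOf (nat_lit 1) (nat_lit 0x3a000812c101))) 
(.lf (nat_lit 2818849519) (dlOf (nat_lit 2) (nat_lit 0x4036004c481812b980))))) (.nd (nat_lit 7) 
(.nd (nat_lit 29) (.lf (nat_lit 402923567) (dlOf (nat_lit 1) (nat_lit 0x4004000200080b0482))) 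
(.lf (nat_lit 3087278127) (dlOf (nat_lit 3) (nat_lit 0x800160001602004000b00002818160580)))) 
(.lf (nat_lit 4563673263) (dlOf (nat_lit 2) (nat_lit 0xe01a00002c080240008001c002002000080c1583))))) 
(.nd (nat_lit 20) (.nd (nat_lit 6) (.nd (nat_lit 7) 
(.lf (nat_lit 3492552751) (dlOf (nat_lit 1) (nat_lit 0x700080038002003e00080e0683))) 
(.lf (nat_lit 36447407) (dlOf (nat_lit 1) (nat_lit 0x64002015a0009072c02)))) 
(.lf (nat_lit 19673839) (dlOf (nat_lit 1) (nat_lit 0x200189d8e81)))) (.nd (nat_lit 23) 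
(.nd (nat_lit 24) 
(.lf (nat_lit 5773205551) (dlOf (nat_lit 16) (nat_lit 0x3d21310011b8101bf0988008a80802184c4004500409a8262002260203fc131001108100650988008100800d04c4003f4040614262001f302001013f0005881013209f80a604c8000c0000007e0600081320001501004309900009c0802684fc01d42640001804008e1320000b8101b90988000000800100080250002000200080b0483))) 
(.lf (nat_lit 18620463) (dlOf (nat_lit 1) (nat_lit 0x20018950801)))) 
(.lf (nat_lit 27009071) (dlOf (nat_lit 7) (nat_lit 0x1dd850001f0100150000000dc0800300000006a04001994e0000a02000eca70000081000400000000008001000800a0002001a0008ca0703)))))) 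
(.nd (nat_lit 28) (.nd (nat_lit 9) (.nd (nat_lit 27) (.nd (nat_lit 19) 
(.lf (nat_lit 3825475631) (dlOf (nat_lit 3) (nat_lit 0x800160001602004000b00002818160580))) 
(.lf (nat_lit 2754355247) (dlOf (nat_lit 1) (nat_lit 0x700080038002003e00080e0683)))) 
(.nd (nat_lit 6) (.lf (nat_lit 201596975) (dlOf (nat_lit 1) (nat_lit 0x100018030c81))) 
(.lf (nat_lit 2349080687) (dlOf (nat_lit 1) (nat_lit 0xc002000200080a1582))))) (.nd (nat_lit 10) 
(.nd (nat_lit 11) 
(.lf (nat_lit 6509830703) (dlOf (nat_lit 3) (nat_lit 0x2a008c000bc04001c04c002e0170002e028158000))) 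
(.lf (nat_lit 69478959) (dlOf (nat_lit 2) (nat_lit 0xc067000230080048008001000200100008a25183)))) 
(.lf (nat_lit 202124847) (dlOf (nat_lit 1) (nat_lit 0xc002000400080f7182))))) (.nd (nat_lit 29) 
(.nd (nat_lit 6) (.nd (nat_lit 30) 
(.lf (nat_lit 335814703) (dlOf (nat_lit 1) (nat_lit 0x4004000200080b0482))) 
(.lf (nat_lit 1409556527) (dlOf (nat_lit 1) (nat_lit 0x800800cc00200120008030c83)))) 
(.lf (nat_lit 2483298415) (dlOf (nat_lit 1) (nat_lit 0xc002000200080a1582)))) (.nd (nat_lit 19) 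
(.nd (nat_lit 6) (.lf (nat_lit 6241397295) (dlOf (nat_lit 1) (nat_lit 0x4002000400080d5182))) 
(.lf (nat_lit 1946427503) (dlOf (nat_lit 1) (nat_lit 0x400400020008090002)))) (.nd (nat_lit 20) 
(.lf (nat_lit 4096532527) (dlOf (nat_lit 1) (nat_lit 0x138004002a0008120382))) 
(.lf (nat_lit 6377185327) (dlOf (nat_lit 16) (nat_lit 0x3d21220011b8101bf0910008a8080218488004500409a8244002260203fc1220010e8100650910008180800d0488003f8040614244001f20200101320005881013209900a6048c000c0000007e060008123000120100430918000880802684c801d42460001404008e123000090101b90910000000800100080250002000200080b0483)))))))) 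
(.nd (nat_lit 19) (.nd (nat_lit 26) (.nd (nat_lit 29) (.nd (nat_lit 6) (.nd (nat_lit 9) 
(.nd (nat_lit 20) 
(.lf (nat_lit 134553647) (dlOf (nat_lit 4) (nat_lit 0x6e04200014010024021000380440003c080064022000180200280008070901))) 
(.lf (nat_lit 62201903) (dlOf (nat_lit 8) (nat_lit 0x30a5b000652d00032964003d4a20094a4f002651e000428a8001c61c00414b6004aa5900145288012a93c0049478000aa2a0007106000c52d8004a9440015478001aa2a0007084002d52d800ca96400054a2005ea4f000d51d0007a8a0000f618004d4b60022a59001f5278001a8e8002d4500007a0a003ca5b001452c8011a93c00394740020a280003c85001652d800a2964008d49e001ca3a00125140001e0280a300080288002076e0009970d03)))) 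
(.lf (nat_lit 35990063) (dlOf (nat_lit 1) (nat_lit 0x40019015181)))) 
(.lf (nat_lit 40182895) (dlOf (nat_lit 1) (nat_lit 0x400191f2a01)))) (.nd (nat_lit 27) 
(.nd (nat_lit 6) 
(.lf (nat_lit 5905915951) (dlOf (nat_lit 1) (nat_lit 0x8008000800200260008160583))) 
(.lf (nat_lit 5100609647) (dlOf (nat_lit 1) (nat_lit 0x760008100a81)))) (.nd (nat_lit 28) 
(.lf (nat_lit 3892650031) (dlOf (nat_lit 2) (nat_lit 0x380640013a04000800400020018180482))) 
(.lf (nat_lit 6308569135) (dlOf (nat_lit 2) (nat_lit 0xc202a000100f8000b8100010008001000200020008100383)))))) 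
(.nd (nat_lit 27) (.nd (nat_lit 28) (.nd (nat_lit 9) 
(.lf (nat_lit 6509895727) (dlOf (nat_lit 1) (nat_lit 0x8008000800200260008160583))) 
(.lf (nat_lit 2754948655) (dlOf (nat_lit 4) (nat_lit 0x28003a000540200e801d0002881004d01000013808015800800f8002000400080f7183)))) 
(.nd (nat_lit 30) 
(.lf (nat_lit 2483363887) (dlOf (nat_lit 3) (nat_lit 0x1b015000f8060012001c0002506003402500310070000001000800080008002000600080d0b03))) 
(.lf (nat_lit 5704589359) (dlOf (nat_lit 2) (nat_lit 0xc202a000100f8000ac100010008001000200020008100383))))) 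
(.nd (nat_lit 6) (.nd (nat_lit 31) 
(.lf (nat_lit 201662511) (dlOf (nat_lit 6) (nat_lit 0x120110001601000b0088000ac080080044000540400280220002902001e0110000d818070880))) 
(.lf (nat_lit 2349146159) (dlOf (nat_lit 3) (nat_lit 0x1b015000f8060012001c0002606003402500310070000001000800080008002000600080d0b03)))) 
(.lf (nat_lit 474292335) (dlOf (nat_lit 5) (nat_lit 0x1045c0010225000b105800206c80000c10000c45c000c2250003105800106c80000a10001c45c0008225000b105800506c80000810002045c00042250009105800406c80000610002000400080019120c82)))))) 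
(.nd (nat_lit 20) (.nd (nat_lit 10) (.nd (nat_lit 21) 
(.lf (nat_lit 30220335) (dlOf (nat_lit 1) (nat_lit 0x400200020008e30002))) (.nd (nat_lit 23) 
(.lf (nat_lit 2957359) (dlOf (nat_lit 2) (nat_lit 0x160d9000203280060030000540c0018002000e00081e0902))) 
(.lf (nat_lit 11345967) (dlOf (nat_lit 4) (nat_lit 0x29210000601000549080001808002a4800000004000800200920008690682))))) 
(.nd (nat_lit 7) (.lf (nat_lit 537734703) (dlOf (nat_lit 1) (nat_lit 0x8004000400080f7182))) 
(.lf (nat_lit 34415791) (dlOf (nat_lit 1) (nat_lit 0x400400020008fb2c02))))) (.nd (nat_lit 6) 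
(.nd (nat_lit 21) 
(.lf (nat_lit 27074607) (dlOf (nat_lit 10) (nat_lit 0x92323a03b988200020820205c8e80d9e20800080080daf23a06358820001f02015dc8e8047e2080007a0804b323a01c18820115ad6809351a40006e10030f23a00df882004ead6802c51a40006c100392b5a02494690001a820006a348000d008096e474001b10401358810116ad68084d1a40000014005400400660018ca0702))) 
(.nd (nat_lit 23) (.lf (nat_lit 8200239) (dlOf (nat_lit 1) (nat_lit 0x180018510001))) 
(.lf (nat_lit 16588847) (dlOf (nat_lit 1) (nat_lit 0x4002000200088c0802))))) 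
(.lf (nat_lit 50144367) (dlOf (nat_lit 1) (nat_lit 0x10004000200094c2a02)))))))) (.nd (nat_lit 11) 
(.nd (nat_lit 28) (.nd (nat_lit 9) (.nd (nat_lit 16) (.nd (nat_lit 7) (.nd (nat_lit 6) 
(.lf (nat_lit 2752782639) (dlOf (nat_lit 1) (nat_lit 0x20028048401))) (.nd (nat_lit 21) 
(.lf (nat_lit 47194479) (dlOf (nat_lit 1) (nat_lit 0x200193b5801))) 
(.lf (nat_lit 3154287) (dlOf (nat_lit 1) (nat_lit 0x4000201040008200782))))) (.nd (nat_lit 10) 
(.nd (nat_lit 21) 
(.lf (nat_lit 1074012655) (dlOf (nat_lit 2) (nat_lit 0x30148008980801880080010002007a0008090d83))) 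
(.lf (nat_lit 23339503) (dlOf (nat_lit 1) (nat_lit 0x8008000400200020008b80d83)))) 
(.lf (nat_lit 1140860399) (dlOf (nat_lit 1) (nat_lit 0x400400020008003602))))) (.nd (nat_lit 31) 
(.nd (nat_lit 7) (.lf (nat_lit 25764207) (dlOf (nat_lit 1) (nat_lit 0x800400040008c10a02))) 
(.nd (nat_lit 18) (.lf (nat_lit 11608559) (dlOf (nat_lit 1) (nat_lit 0x4002000200086c0d82))) 
(.lf (nat_lit 23405039) (dlOf (nat_lit 1) (nat_lit 0x60008009c00200480008b80d83))))) 
(.nd (nat_lit 6) (.nd (nat_lit 10) 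
(.lf (nat_lit 3959497007) (dlOf (nat_lit 5) (nat_lit 0x190100000e80800e808000072040060040000370200ae02e0001b018090500))) 
(.lf (nat_lit 3892389167) (dlOf (nat_lit 1) (nat_lit 0x30008000800200200008103203)))) 
(.lf (nat_lit 6442787183) (dlOf (nat_lit 1) (nat_lit 0x200281b0781)))))) (.nd (nat_lit 10) 
(.nd (nat_lit 16) (.nd (nat_lit 18) (.nd (nat_lit 6) 
(.lf (nat_lit 2281710511) (dlOf (nat_lit 1) (nat_lit 0x40028002681))) 
(.lf (nat_lit 2751472623) (dlOf (nat_lit 1) (nat_lit 0x20018002881)))) (.nd (nat_lit 12) 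
(.lf (nat_lit 2885952495) (dlOf (nat_lit 1) (nat_lit 0x620028142881))) 
(.lf (nat_lit 2818847727) (dlOf (nat_lit 2) (nat_lit 0x500fc014b004000400400420008129202))))) 
(.nd (nat_lit 7) 
(.lf (nat_lit 20521839) (dlOf (nat_lit 4) (nat_lit 0x2bf100038c080015f88001c2040012fc40007b02000a00289d2581))) 
(.lf (nat_lit 3892388847) (dlOf (nat_lit 1) (nat_lit 0x20018102881))))) (.nd (nat_lit 6) 
(.nd (nat_lit 7) 
(.lf (nat_lit 2886018863) (dlOf (nat_lit 1) (nat_lit 0x10008000c00200020008143d83))) 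
(.lf (nat_lit 2886018991) (dlOf (nat_lit 1) (nat_lit 0x10008001000200020008144383)))) 
(.nd (nat_lit 18) (.nd (nat_lit 26) 
(.lf (nat_lit 10223) (dlOf (nat_lit 1) (nat_lit 0x8008000400200020008004603))) 
(.lf (nat_lit 4362086383) (dlOf (nat_lit 3) (nat_lit 0x200000003202002602800000018004600)))) 
(.lf (nat_lit 8136687) (dlOf (nat_lit 2) (nat_lit 0x159fb00019018514600))))))) (.nd (nat_lit 27) 
(.nd (nat_lit 6) (.nd (nat_lit 10) (.nd (nat_lit 7) 
(.lf (nat_lit 1346380079) (dlOf (nat_lit 1) (nat_lit 0x400200020008f60b02))) (.nd (nat_lit 16) 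
(.lf (nat_lit 1345855919) (dlOf (nat_lit 1) (nat_lit 0x480080008002000e0008e06e83))) 
(.lf (nat_lit 1880695215) (dlOf (nat_lit 2) (nat_lit 0x2037c0000004001c00400080008b36e82))))) 
(.nd (nat_lit 7) (.lf (nat_lit 3019973935) (dlOf (nat_lit 1) (nat_lit 0x1800080d3201))) 
(.nd (nat_lit 16) 
(.lf (nat_lit 1342191535) (dlOf (nat_lit 2) (nat_lit 0x204700019008002800800040020004000800a403))) 
(.lf (nat_lit 1342257071) (dlOf (nat_lit 1) (nat_lit 0x1280020016000800a402)))))) (.nd (nat_lit 9) 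
(.nd (nat_lit 18) 
(.lf (nat_lit 1342710255) (dlOf (nat_lit 6) (nat_lit 0x2123801488f007ec2a802fa151010604a0008f028104855006182a20328137019807a008b0250042c006002330c041815401870a8800604dc048c12800231080002247002911e00fe055005dc2a202de137016f07a00860250031c0060022f100032247000711e0008b4100848008031000205f000080c0d83))) 
(.lf (nat_lit 1946427887) (dlOf (nat_lit 2) (nat_lit 0x30148008980801880080010002007a0008090d83)))) 
(.nd (nat_lit 16) (.lf (nat_lit 1344807919) (dlOf (nat_lit 1) (nat_lit 0x60028982881))) 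
(.lf (nat_lit 3019973615) (dlOf (nat_lit 1) (nat_lit 0x2600180d2881)))))) (.nd (nat_lit 6) 
(.nd (nat_lit 10) (.nd (nat_lit 12) 
(.lf (nat_lit 4697694639) (dlOf (nat_lit 1) (nat_lit 0x14002001a0008091002))) 
(.lf (nat_lit 1476407727) (dlOf (nat_lit 2) (nat_lit 0x5c03600010018008480)))) (.nd (nat_lit 9) 
(.nd (nat_lit 12) 
(.lf (nat_lit 6308308399) (dlOf (nat_lit 1) (nat_lit 0x480080014002000c0008053603))) 
(.lf (nat_lit 3691066799) (dlOf (nat_lit 1) (nat_lit 0x1a0008009901)))) 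
(.lf (nat_lit 1476409263) (dlOf (nat_lit 2) (nat_lit 0x28000000c20400140020020000800a402))))) 
(.nd (nat_lit 7) (.nd (nat_lit 16) 
(.lf (nat_lit 3154387311) (dlOf (nat_lit 1) (nat_lit 0xa20008160a01))) (.nd (nat_lit 26) 
(.lf (nat_lit 5234827631) (dlOf (nat_lit 1) (nat_lit 0x80080080002001000080f5803))) 
(.lf (nat_lit 5838807407) (dlOf (nat_lit 1) (nat_lit 0x380080008002000400081b0783))))) 
(.nd (nat_lit 9) 
(.lf (nat_lit 470295023) (dlOf (nat_lit 6) (nat_lit 0x2123801488f007ec2a802fa151010604a0008f028104855006182a20328137019807a008b0250042c00e002330c041815401870a8800604dc048c12800231080002247002911e00fe055005dc2a202de137016f07a00860250031c00e0022f100032247000711e0008b4100848008031000205f000080c0d83))) 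
(.lf (nat_lit 469772271) (dlOf (nat_lit 2) (nat_lit 0x2024c00121168000c8100020008001000200060008004603)))))))) 
(.nd (nat_lit 28) (.nd (nat_lit 6) (.nd (nat_lit 9) (.nd (nat_lit 18) (.nd (nat_lit 10) 
(.nd (nat_lit 22) (.lf (nat_lit 36710831) (dlOf (nat_lit 1) (nat_lit 0x20019074e81))) 
(.lf (nat_lit 57682351) (dlOf (nat_lit 1) (nat_lit 0x800400040009794e82)))) 
(.lf (nat_lit 2754620847) (dlOf (nat_lit 1) (nat_lit 0x200180f6d01)))) (.nd (nat_lit 16) 
(.lf (nat_lit 3221498287) (dlOf (nat_lit 1) (nat_lit 0x1c00200100008114e82))) (.nd (nat_lit 21) 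
(.lf (nat_lit 39135663) (dlOf (nat_lit 1) (nat_lit 0x20019194e81))) 
(.lf (nat_lit 2754947503) (dlOf (nat_lit 1) (nat_lit 0x200180f4e81)))))) (.nd (nat_lit 16) 
(.nd (nat_lit 7) (.nd (nat_lit 18) 
(.lf (nat_lit 3892325167) (dlOf (nat_lit 1) (nat_lit 0x2000400020018005c02))) 
(.lf (nat_lit 60042031) (dlOf (nat_lit 1) (nat_lit 0x40029845c01)))) 
(.lf (nat_lit 537672623) (dlOf (nat_lit 4) (nat_lit 0x503b000501d4001c0e2000e07000070310003818400100000014e0e0014076000a301000803b00050c0800680080010002001600080fbd83)))) 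
(.nd (nat_lit 18) 
(.lf (nat_lit 54602543) (dlOf (nat_lit 1) (nat_lit 0x24800800c4002002a0009655c03))) 
(.lf (nat_lit 60107567) (dlOf (nat_lit 1) (nat_lit 0x300019845c01)))))) (.nd (nat_lit 9) 
(.nd (nat_lit 12) (.nd (nat_lit 7) 
(.lf (nat_lit 51390831) (dlOf (nat_lit 1) (nat_lit 0x3000400060009514e82))) (.nd (nat_lit 16) 
(.lf (nat_lit 33303023) (dlOf (nat_lit 1) (nat_lit 0xc0028f54f01))) 
(.lf (nat_lit 38611439) (dlOf (nat_lit 1) (nat_lit 0x400200020009134f02))))) (.nd (nat_lit 7) 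
(.lf (nat_lit 4362090863) (dlOf (nat_lit 1) (nat_lit 0xc0040002001800ad02))) (.nd (nat_lit 26) 
(.lf (nat_lit 536885743) (dlOf (nat_lit 1) (nat_lit 0x2002800b281))) 
(.lf (nat_lit 201341423) (dlOf (nat_lit 1) (nat_lit 0x4000800040020004000800b283)))))) 
(.nd (nat_lit 18) (.nd (nat_lit 16) (.nd (nat_lit 19) 
(.lf (nat_lit 5033176047) (dlOf (nat_lit 1) (nat_lit 0x400400020008005f02))) 
(.lf (nat_lit 20458479) (dlOf (nat_lit 1) (nat_lit 0x400289d5f01)))) 
(.lf (nat_lit 54602735) (dlOf (nat_lit 1) (nat_lit 0x980080040002001a0009655f03)))) 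
(.nd (nat_lit 12) 
(.lf (nat_lit 738470895) (dlOf (nat_lit 2) (nat_lit 0x581680008004003400400020018095f02))) 
(.lf (nat_lit 2818849775) (dlOf (nat_lit 1) (nat_lit 0xe000800b000200d2000812bf03))))))) 
(.nd (nat_lit 26) (.nd (nat_lit 7) (.nd (nat_lit 6) (.nd (nat_lit 12) 
(.lf (nat_lit 5771438895) (dlOf (nat_lit 1) (nat_lit 0xc00400020018005c02))) 
(.lf (nat_lit 3489938223) (dlOf (nat_lit 1) (nat_lit 0x10001800bc81)))) (.nd (nat_lit 9) 
(.lf (nat_lit 3490004335) (dlOf (nat_lit 1) (nat_lit 0x20004001c000800c902))) 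
(.lf (nat_lit 4563479407) (dlOf (nat_lit 1) (nat_lit 0x40028095c01))))) (.nd (nat_lit 9) 
(.nd (nat_lit 19) (.nd (nat_lit 27) 
(.lf (nat_lit 268446127) (dlOf (nat_lit 1) (nat_lit 0x300018004e81))) 
(.lf (nat_lit 4697631151) (dlOf (nat_lit 1) (nat_lit 0x60028004e81)))) 
(.lf (nat_lit 1346906543) (dlOf (nat_lit 1) (nat_lit 0x400190a4e81)))) (.nd (nat_lit 6) 
(.lf (nat_lit 1476407215) (dlOf (nat_lit 1) (nat_lit 0x3a0008007a01))) 
(.lf (nat_lit 5771635695) (dlOf (nat_lit 1) (nat_lit 0x40018005f01)))))) (.nd (nat_lit 30) 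
(.nd (nat_lit 6) (.nd (nat_lit 7) 
(.lf (nat_lit 5301676847) (dlOf (nat_lit 1) (nat_lit 0x40018005c01))) (.nd (nat_lit 12) 
(.lf (nat_lit 5167393199) (dlOf (nat_lit 1) (nat_lit 0x140018004e81))) 
(.lf (nat_lit 469842351) (dlOf (nat_lit 2) (nat_lit 0x2130001ef01800af80))))) (.nd (nat_lit 7) 
(.lf (nat_lit 469776751) (dlOf (nat_lit 1) (nat_lit 0x80040002000800ad02))) (.nd (nat_lit 9) 
(.lf (nat_lit 469776879) (dlOf (nat_lit 1) (nat_lit 0x40040002000800b282))) 
(.lf (nat_lit 5167459311) (dlOf (nat_lit 1) (nat_lit 0x160018055f01)))))) (.nd (nat_lit 31) 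
(.nd (nat_lit 6) 
(.lf (nat_lit 1543581103) (dlOf (nat_lit 1) (nat_lit 0x600080024002000c0008146d03))) 
(.nd (nat_lit 12) (.lf (nat_lit 1543581039) (dlOf (nat_lit 1) (nat_lit 0xc0028146b01))) 
(.lf (nat_lit 1409301871) (dlOf (nat_lit 1) (nat_lit 0x240040012000800c902))))) (.nd (nat_lit 9) 
(.nd (nat_lit 10) 
(.lf (nat_lit 4093913519) (dlOf (nat_lit 1) (nat_lit 0x80080004002007a0008004e83))) 
(.lf (nat_lit 4227870127) (dlOf (nat_lit 1) (nat_lit 0x20028006d01)))) 
(.lf (nat_lit 3690999727) (dlOf (nat_lit 1) (nat_lit 0x20028007a01)))))))))) (.nd (nat_lit 16) 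
(.nd (nat_lit 28) (.nd (nat_lit 8) (.nd (nat_lit 18) (.nd (nat_lit 19) (.nd (nat_lit 22) 
(.nd (nat_lit 26) (.nd (nat_lit 23) 
(.lf (nat_lit 4966195247) (dlOf (nat_lit 1) (nat_lit 0x40008040381))) 
(.lf (nat_lit 25305135) (dlOf (nat_lit 2) (nat_lit 0x339150000d018bf0b00)))) (.nd (nat_lit 6) 
(.lf (nat_lit 5033304111) (dlOf (nat_lit 1) (nat_lit 0x40008040381))) 
(.lf (nat_lit 3959564527) (dlOf (nat_lit 1) (nat_lit 0x400400020008114b82))))) (.nd (nat_lit 6) 
(.nd (nat_lit 7) (.lf (nat_lit 29499439) (dlOf (nat_lit 1) (nat_lit 0x40018e10801))) 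
(.lf (nat_lit 48374959) (dlOf (nat_lit 2) (nat_lit 0x10d018000590200020009402c01)))) 
(.lf (nat_lit 56762479) (dlOf (nat_lit 2) (nat_lit 0x92b80005404000400200040009741d02))))) 
(.nd (nat_lit 26) (.nd (nat_lit 22) (.nd (nat_lit 6) (.nd (nat_lit 20) 
(.lf (nat_lit 134881327) (dlOf (nat_lit 2) (nat_lit 0x8013000138180d0b00))) 
(.lf (nat_lit 26877999) (dlOf (nat_lit 1) (nat_lit 0x48002000c0008c80702)))) 
(.lf (nat_lit 537534575) (dlOf (nat_lit 1) (nat_lit 0x900080028002002a00080a1583)))) 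
(.nd (nat_lit 21) (.lf (nat_lit 21635119) (dlOf (nat_lit 1) (nat_lit 0x60018a50d01))) 
(.lf (nat_lit 15343663) (dlOf (nat_lit 2) (nat_lit 0xd2338000680800100080014002000e00087e0703))))) 
(.nd (nat_lit 21) (.nd (nat_lit 27) 
(.lf (nat_lit 1678385199) (dlOf (nat_lit 1) (nat_lit 0x20018200f01))) 
(.lf (nat_lit 201990191) (dlOf (nat_lit 2) (nat_lit 0x8013000120180d0b00)))) 
(.lf (nat_lit 2754224175) (dlOf (nat_lit 2) (nat_lit 0x10eb0000680800380080024002001400080d0b03)))))) 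
(.nd (nat_lit 20) (.nd (nat_lit 27) (.nd (nat_lit 19) (.nd (nat_lit 21) (.nd (nat_lit 26) 
(.lf (nat_lit 5905981487) (dlOf (nat_lit 1) (nat_lit 0x5800200080008170c82))) 
(.lf (nat_lit 6509961263) (dlOf (nat_lit 1) (nat_lit 0x5800200080008170c82)))) 
(.lf (nat_lit 6692911) (dlOf (nat_lit 1) (nat_lit 0x280018440b81)))) (.nd (nat_lit 6) 
(.lf (nat_lit 59645999) (dlOf (nat_lit 1) (nat_lit 0x80019820301))) 
(.lf (nat_lit 3022959) (dlOf (nat_lit 1) (nat_lit 0x20028200001))))) (.nd (nat_lit 30) 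
(.nd (nat_lit 6) 
(.lf (nat_lit 4496695343) (dlOf (nat_lit 5) (nat_lit 0x11e03400cb019807c00c80150060018a0230001005008901900004c0803c80d0005006401240230000603000301900002c0808080080030002005a0008120383))) 
(.lf (nat_lit 134619247) (dlOf (nat_lit 2) (nat_lit 0x3c03b00671818090000)))) (.nd (nat_lit 29) 
(.lf (nat_lit 3355844655) (dlOf (nat_lit 3) (nat_lit 0x402f0003e01000301780005c0804d8008003800201700008120d83))) 
(.lf (nat_lit 3892715567) (dlOf (nat_lit 13) (nat_lit 0x42802d000c80bc0f680060004106079c05a001501a005900bc0e2000600040080aca05a009c02a806080d0091005e0a260030001f05022602d00f9800c0007a0800040b40003c0203ac064000803100bc01800cf00b4031805901b102a806f815001e809a0380034004a01780b980a005b0028003c00602f20018000dc7008e019003240c004fa05a00cc02c807d815401140a8001404d010801a005680bc0314050018001402420018000d860005019003100b4001c05900d602a0015000c0006a1400040b4000340200f005400010810028016000008080dc01900ce00b4031405900db02a8069815001b009a0110045006001c005d80d0023005e04b802e004e01600a780a00bd800604b8002011900000000080153800801e8002001800081d0703))))))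 
(.nd (nat_lit 21) (.nd (nat_lit 23) 
(.lf (nat_lit 2752913455) (dlOf (nat_lit 3) (nat_lit 0xa21200060fd000305540018270000db08000a21200050fd000305540018270000d90800160028060601))) 
(.nd (nat_lit 24) 
(.lf (nat_lit 9838639) (dlOf (nat_lit 3) (nat_lit 0x1760eb00a4074c005038e00e21780001a0400100f0000d076803483a600de1c8000e0be0000ac280168008051000200220008580383))) 
(.lf (nat_lit 26615855) (dlOf (nat_lit 1) (nat_lit 0x68008001c002000c0008c50483))))) 
(.nd (nat_lit 7) (.lf (nat_lit 7741487) (dlOf (nat_lit 1) (nat_lit 0x2800184d0b81))) 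
(.lf (nat_lit 20848815) (dlOf (nat_lit 1) (nat_lit 0x4004000200089e2d82))))))) (.nd (nat_lit 6) 
(.nd (nat_lit 11) (.nd (nat_lit 9) (.nd (nat_lit 18) 
(.lf (nat_lit 3758236079) (dlOf (nat_lit 2) (nat_lit 0x200700285c080040008001000200060008106e83))) 
(.lf (nat_lit 201728431) (dlOf (nat_lit 3) (nat_lit 0x1bc07600cec02006c03b00674818090780)))) 
(.nd (nat_lit 7) (.lf (nat_lit 537012015) (dlOf (nat_lit 1) (nat_lit 0x40018003d81))) 
(.lf (nat_lit 537012143) (dlOf (nat_lit 1) (nat_lit 0x60028004381))))) (.nd (nat_lit 21) 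
(.nd (nat_lit 10) (.lf (nat_lit 39201199) (dlOf (nat_lit 1) (nat_lit 0x20009194e81))) 
(.lf (nat_lit 3221368239) (dlOf (nat_lit 1) (nat_lit 0x400400020008116d02)))) (.nd (nat_lit 7) 
(.lf (nat_lit 20589359) (dlOf (nat_lit 1) (nat_lit 0x200189d5c01))) 
(.lf (nat_lit 49424815) (dlOf (nat_lit 1) (nat_lit 0x20019464e81)))))) (.nd (nat_lit 26) 
(.nd (nat_lit 9) (.nd (nat_lit 11) (.nd (nat_lit 18) 
(.lf (nat_lit 11674095) (dlOf (nat_lit 2) (nat_lit 0x17deb0005440800480080008002000800086c0d83))) 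
(.lf (nat_lit 134619631) (dlOf (nat_lit 8) (nat_lit 0x2603b0011b81001801d801500bc004540800440760022902002a03b00114010002025000200ec01b405e002260600b402f0010f8100420178007c80802b0008012800200600008090d83)))) 
(.nd (nat_lit 7) 
(.lf (nat_lit 3221367151) (dlOf (nat_lit 2) (nat_lit 0xc01c014640200020018114e81))) 
(.lf (nat_lit 39463407) (dlOf (nat_lit 1) (nat_lit 0x140029194f01))))) (.nd (nat_lit 10) 
(.lf (nat_lit 36316143) (dlOf (nat_lit 1) (nat_lit 0x400200020009072882))) 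
(.lf (nat_lit 5905721327) (dlOf (nat_lit 1) (nat_lit 0x20028144601))))) (.nd (nat_lit 7) 
(.nd (nat_lit 11) (.lf (nat_lit 2755797359) (dlOf (nat_lit 1) (nat_lit 0x8002000200081b0782))) 
(.lf (nat_lit 3959568751) (dlOf (nat_lit 1) (nat_lit 0x34002000c000811ad02)))) (.nd (nat_lit 9) 
(.lf (nat_lit 201728495) (dlOf (nat_lit 8) (nat_lit 0x2603b0011b81001801d801500bc004540800440760022902002a03b00114010002025000200ec01b405e002260600b402f001118100420178007cc0802b0008012800200600008090d83))) 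
(.lf (nat_lit 1677862895) (dlOf (nat_lit 1) (nat_lit 0x4000400080018114602)))))))) 
(.nd (nat_lit 27) (.nd (nat_lit 19) (.nd (nat_lit 26) (.nd (nat_lit 7) (.nd (nat_lit 18) 
(.nd (nat_lit 20) 
(.lf (nat_lit 2416058415) (dlOf (nat_lit 1) (nat_lit 0xf0008015c00200440008030c83))) 
(.lf (nat_lit 1343365167) (dlOf (nat_lit 1) (nat_lit 0x20008000c00200060008210903)))) 
(.nd (nat_lit 20) 
(.lf (nat_lit 5637546031) (dlOf (nat_lit 3) (nat_lit 0x1400940005c04026004e013a026008b012805c8090024803c011601d009300d8057806801d8030014c01700610000000ac58030800801d800200180008100383))) 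
(.lf (nat_lit 3491110959) (dlOf (nat_lit 3) (nat_lit 0xa1fd00060f40003057c0018270000cd08000a1fd00050f40003057c0018270000cb0800160028060601))))) 
(.nd (nat_lit 10) (.lf (nat_lit 1342319023) (dlOf (nat_lit 1) (nat_lit 0x20018004e81))) 
(.lf (nat_lit 5637285295) (dlOf (nat_lit 1) (nat_lit 0x4000280d3601))))) (.nd (nat_lit 6) 
(.nd (nat_lit 9) (.nd (nat_lit 18) 
(.lf (nat_lit 5167521839) (dlOf (nat_lit 1) (nat_lit 0x150008003c00200960008080383))) 
(.lf (nat_lit 6241525807) (dlOf (nat_lit 3) (nat_lit 0x1400980006204027404e011602600b9012804c0090024803c011601d009300d8057806801d8030014c01700610000000b858030800801d800200180008100383)))) 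
(.lf (nat_lit 5704395311) (dlOf (nat_lit 1) (nat_lit 0x40018055181)))) (.nd (nat_lit 8) 
(.lf (nat_lit 6241263727) (dlOf (nat_lit 1) (nat_lit 0x3200180d0181))) 
(.lf (nat_lit 6241266543) (dlOf (nat_lit 1) (nat_lit 0x8004000200080d5c02)))))) (.nd (nat_lit 7) 
(.nd (nat_lit 18) (.nd (nat_lit 6) 
(.lf (nat_lit 3492421679) (dlOf (nat_lit 2) (nat_lit 0x10e20000680800380080024002001400080d0b03))) 
(.lf (nat_lit 1409949807) (dlOf (nat_lit 1) (nat_lit 0x900080028002002a00080a1583)))) 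
(.nd (nat_lit 8) (.lf (nat_lit 3490587183) (dlOf (nat_lit 1) (nat_lit 0x10004000a0008018002))) 
(.lf (nat_lit 3493732655) (dlOf (nat_lit 1) (nat_lit 0x14002000400081b0502))))) (.nd (nat_lit 6) 
(.nd (nat_lit 8) (.lf (nat_lit 1881810095) (dlOf (nat_lit 1) (nat_lit 0x400400040009042c02))) 
(.lf (nat_lit 3490326959) (dlOf (nat_lit 1) (nat_lit 0x400400020008004e82)))) 
(.lf (nat_lit 3492685807) (dlOf (nat_lit 4) (nat_lit 0x210d0001884c001022200061010001984000310d0005084c0014222000c1010001904001a0868000b008018000800c0002001600080f4603)))))) 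
(.nd (nat_lit 29) (.nd (nat_lit 26) (.nd (nat_lit 6) (.nd (nat_lit 30) 
(.lf (nat_lit 2550276143) (dlOf (nat_lit 1) (nat_lit 0xf0008015c00200440008030c83))) 
(.lf (nat_lit 1476534319) (dlOf (nat_lit 2) (nat_lit 0x601f800238080020008000c00200120008040d03)))) 
(.nd (nat_lit 7) (.lf (nat_lit 5772025967) (dlOf (nat_lit 1) (nat_lit 0x20028040c81))) 
(.lf (nat_lit 402793455) (dlOf (nat_lit 1) (nat_lit 0x400400020008092882))))) (.nd (nat_lit 7) 
(.nd (nat_lit 9) 
(.lf (nat_lit 471212079) (dlOf (nat_lit 3) (nat_lit 0x6403f0001d80803201f800000040044004004a00082c0802))) 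
(.nd (nat_lit 11) 
(.lf (nat_lit 2617385519) (dlOf (nat_lit 2) (nat_lit 0xe0158005800803c80080094002000c00080a1483))) 
(.lf (nat_lit 473049647) (dlOf (nat_lit 2) (nat_lit 0x2208f800230080048008002000200020008c35183))))) 
(.nd (nat_lit 8) 
(.lf (nat_lit 474096815) (dlOf (nat_lit 9) (nat_lit 0xa881000882d000381450020067800102c8004c02e00660150002f8700491020018068400442d000161450012067801802c800b00e60002017002400a8001744800785a4006c030000590400240180002b8100080b4800a0060000a40800c42d200760180002582000b0b40000cc0801985a0007002e000300400600019082c01))) 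
(.lf (nat_lit 473311663) (dlOf (nat_lit 1) (nat_lit 0x900080030002000e0008e94e83)))))) 
(.nd (nat_lit 18) (.nd (nat_lit 6) (.nd (nat_lit 7) (.nd (nat_lit 8) 
(.lf (nat_lit 3154780207) (dlOf (nat_lit 1) (nat_lit 0xc0008320e81))) 
(.lf (nat_lit 1006772527) (dlOf (nat_lit 1) (nat_lit 0x18008000400200060008068403)))) 
(.lf (nat_lit 3154256303) (dlOf (nat_lit 1) (nat_lit 0x60018136e81)))) (.nd (nat_lit 7) 
(.lf (nat_lit 6376005743) (dlOf (nat_lit 1) (nat_lit 0x20028040c81))) 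
(.lf (nat_lit 2080515055) (dlOf (nat_lit 1) (nat_lit 0x20028092881))))) (.nd (nat_lit 6) 
(.nd (nat_lit 7) (.nd (nat_lit 9) 
(.lf (nat_lit 3154518063) (dlOf (nat_lit 5) (nat_lit 0xc02f000208100b7029008c00bc047c0060003e06005c0640001b81000101700000008006000800a8002000e00081f0703))) 
(.lf (nat_lit 6376794671) (dlOf (nat_lit 1) (nat_lit 0x8002002a0008095182)))) 
(.lf (nat_lit 4228260271) (dlOf (nat_lit 5) (nat_lit 0x280c8010ca0400140640086402000a032004318100050190021800800480080024002000e0008090783)))) 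
(.nd (nat_lit 10) (.lf (nat_lit 4228259951) (dlOf (nat_lit 1) (nat_lit 0x23c00400ec0008090002))) 
(.lf (nat_lit 6377841775) (dlOf (nat_lit 1) (nat_lit 0x4004000200080e2a02))))))))) 
(.nd (nat_lit 18) (.nd (nat_lit 7) (.nd (nat_lit 26) (.nd (nat_lit 20) (.nd (nat_lit 28) 
(.nd (nat_lit 19) (.nd (nat_lit 8) (.nd (nat_lit 23) 
(.lf (nat_lit 6442655791) (dlOf (nat_lit 1) (nat_lit 0x240008120c81))) 
(.lf (nat_lit 25370671) (dlOf (nat_lit 1) (nat_lit 0x400400020008c00682)))) 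
(.lf (nat_lit 5905786671) (dlOf (nat_lit 1) (nat_lit 0x3e0018143d81)))) (.nd (nat_lit 27) 
(.lf (nat_lit 537600047) (dlOf (nat_lit 1) (nat_lit 0xc002000c00080d0b02))) 
(.lf (nat_lit 134946863) (dlOf (nat_lit 5) (nat_lit 0x80230002881000702d0004013000200000003206001c05a0001881005b0000000b4080218008000c002013c00080e0683))))) 
(.nd (nat_lit 21) (.nd (nat_lit 6) (.nd (nat_lit 29) 
(.lf (nat_lit 1342382127) (dlOf (nat_lit 2) (nat_lit 0x5624700029018020580))) 
(.lf (nat_lit 5100478511) (dlOf (nat_lit 1) (nat_lit 0x4002000200080a0d02)))) 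
(.lf (nat_lit 3489868911) (dlOf (nat_lit 1) (nat_lit 0xe0018006081)))) (.nd (nat_lit 19) 
(.lf (nat_lit 3491962927) (dlOf (nat_lit 1) (nat_lit 0x40018090001))) 
(.lf (nat_lit 3492487215) (dlOf (nat_lit 1) (nat_lit 0x200080d0b01)))))) (.nd (nat_lit 23) 
(.nd (nat_lit 9) (.nd (nat_lit 19) 
(.lf (nat_lit 18030639) (dlOf (nat_lit 1) (nat_lit 0x800400040008900b82))) 
(.lf (nat_lit 18554927) (dlOf (nat_lit 8) (nat_lit 0x245780002e0100032bc0001680800498d0000a8040008af00003802000c0000001201001e00000008408002927800000040060004000e0008950802)))) 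
(.lf (nat_lit 3491439151) (dlOf (nat_lit 1) (nat_lit 0x4000200060008090e82)))) (.nd (nat_lit 9) 
(.nd (nat_lit 22) (.lf (nat_lit 26419247) (dlOf (nat_lit 1) (nat_lit 0x400200060008c40d02))) 
(.lf (nat_lit 47390767) (dlOf (nat_lit 1) (nat_lit 0xc00293e0a81)))) 
(.lf (nat_lit 11739695) (dlOf (nat_lit 2) (nat_lit 0x40000000fc0800880080078002001200086c0e83)))))) 
(.nd (nat_lit 19) (.nd (nat_lit 32) (.nd (nat_lit 9) (.nd (nat_lit 27) 
(.lf (nat_lit 604184623) (dlOf (nat_lit 8) (nat_lit 0x26803f000501800060000000360c001406c0001902002e045005f01f800100d00020000000150800be04500ee01f809a00d800b800000014080008000000068100020228000080800401140010088005c03f000c01b0000002002a0008016400200280008080703))) 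
(.lf (nat_lit 469966895) (dlOf (nat_lit 2) (nat_lit 0x5624700029018020580)))) 
(.lf (nat_lit 738404911) (dlOf (nat_lit 1) (nat_lit 0x8008000400200040008095183)))) 
(.nd (nat_lit 6) (.nd (nat_lit 28) 
(.lf (nat_lit 4496498735) (dlOf (nat_lit 5) (nat_lit 0x11e01c00cb00d807c00680150030018a00b0001005008900d00004c0803c80700050034012400b0000603000300d00002c0808080080030002005a0008090383))) 
(.lf (nat_lit 5838676015) (dlOf (nat_lit 1) (nat_lit 0x240008120c81)))) 
(.lf (nat_lit 6643983215) (dlOf (nat_lit 1) (nat_lit 0x280080014002000400080b2583))))) 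
(.nd (nat_lit 29) (.nd (nat_lit 27) 
(.lf (nat_lit 1410015279) (dlOf (nat_lit 1) (nat_lit 0xc002000c00080d0b02))) 
(.lf (nat_lit 202055727) (dlOf (nat_lit 5) (nat_lit 0x80210002881000702d8004013000200000003206001c05b0001881005b0000000b4080218008000c002013c00080e0683)))) 
(.nd (nat_lit 9) (.lf (nat_lit 2754289711) (dlOf (nat_lit 1) (nat_lit 0x200080d0b01))) 
(.lf (nat_lit 2753241647) (dlOf (nat_lit 1) (nat_lit 0x4000200060008090e82))))))) (.nd (nat_lit 30) 
(.nd (nat_lit 6) (.nd (nat_lit 10) (.nd (nat_lit 8) 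
(.lf (nat_lit 13836463) (dlOf (nat_lit 1) (nat_lit 0x20028750281))) 
(.lf (nat_lit 51061167) (dlOf (nat_lit 1) (nat_lit 0x4004000200094f6e82)))) (.nd (nat_lit 9) 
(.lf (nat_lit 2684564655) (dlOf (nat_lit 1) (nat_lit 0x1400080054002002c00080a9503))) 
(.lf (nat_lit 805514927) (dlOf (nat_lit 2) (nat_lit 0x400000005018117280))))) (.nd (nat_lit 11) 
(.nd (nat_lit 9) 
(.lf (nat_lit 11739631) (dlOf (nat_lit 2) (nat_lit 0x818880046604000c002000200086c0d82))) 
(.lf (nat_lit 36381679) (dlOf (nat_lit 1) (nat_lit 0x180009072881)))) (.nd (nat_lit 8) 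
(.lf (nat_lit 20658927) (dlOf (nat_lit 1) (nat_lit 0x80080004002000200089db983))) 
(.lf (nat_lit 4630719471) (dlOf (nat_lit 1) (nat_lit 0x400400020008095f02)))))) (.nd (nat_lit 10) 
(.nd (nat_lit 28) (.nd (nat_lit 8) 
(.lf (nat_lit 6040003311) (dlOf (nat_lit 1) (nat_lit 0x280080014002000400080b2103))) 
(.lf (nat_lit 1141058543) (dlOf (nat_lit 3) (nat_lit 0x136026000200100960130000fc080020008002400200140008095f03)))) 
(.nd (nat_lit 19) (.lf (nat_lit 4094897135) (dlOf (nat_lit 1) (nat_lit 0x40028055f01))) 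
(.lf (nat_lit 4094372847) (dlOf (nat_lit 1) (nat_lit 0x80080078002001a0008055f03))))) 
(.nd (nat_lit 6) (.nd (nat_lit 8) 
(.lf (nat_lit 1344480431) (dlOf (nat_lit 2) (nat_lit 0x1811a00025818802c00))) 
(.lf (nat_lit 5905786799) (dlOf (nat_lit 1) (nat_lit 0x20028144381)))) (.nd (nat_lit 8) 
(.lf (nat_lit 3355653359) (dlOf (nat_lit 1) (nat_lit 0x13800800a0002006c00080a9503))) 
(.lf (nat_lit 4160959983) (dlOf (nat_lit 1) (nat_lit 0x3800080a9c01)))))))) (.nd (nat_lit 19) 
(.nd (nat_lit 21) (.nd (nat_lit 26) (.nd (nat_lit 6) (.nd (nat_lit 27) 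
(.lf (nat_lit 1879515183) (dlOf (nat_lit 2) (nat_lit 0x4000000a7018190480))) 
(.lf (nat_lit 3892781103) (dlOf (nat_lit 2) (nat_lit 0x40168001c0a0001c023000901100010050000a814007000400400018260802)))) 
(.nd (nat_lit 9) (.lf (nat_lit 21438575) (dlOf (nat_lit 1) (nat_lit 0x400400020008a40c82))) 
(.lf (nat_lit 43460207) (dlOf (nat_lit 1) (nat_lit 0x4004000200092a3982))))) (.nd (nat_lit 8) 
(.nd (nat_lit 20) (.nd (nat_lit 32) 
(.lf (nat_lit 67575855) (dlOf (nat_lit 1) (nat_lit 0x10008000400200040008220803))) 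
(.lf (nat_lit 4362543151) (dlOf (nat_lit 1) (nat_lit 0x1c004000e0018090002)))) 
(.lf (nat_lit 4095156271) (dlOf (nat_lit 1) (nat_lit 0x80018070481)))) (.nd (nat_lit 29) 
(.lf (nat_lit 4362543407) (dlOf (nat_lit 1) (nat_lit 0x60028090501))) 
(.lf (nat_lit 1678188847) (dlOf (nat_lit 1) (nat_lit 0x600281a0501)))))) (.nd (nat_lit 6) 
(.nd (nat_lit 7) (.nd (nat_lit 22) 
(.lf (nat_lit 2564143) (dlOf (nat_lit 1) (nat_lit 0x40028170a01))) 
(.lf (nat_lit 15147055) (dlOf (nat_lit 5) (nat_lit 0x24d0c800380000007c0801100000003702006e0000001a8100330000000000800200080180002000e00087c0703)))) 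
(.lf (nat_lit 23535791) (dlOf (nat_lit 1) (nat_lit 0x20028b80301)))) (.nd (nat_lit 23) 
(.lf (nat_lit 3612783) (dlOf (nat_lit 1) (nat_lit 0x6c0008211581))) 
(.lf (nat_lit 28778607) (dlOf (nat_lit 1) (nat_lit 0x400200020008da0482)))))) (.nd (nat_lit 21) 
(.nd (nat_lit 26) (.nd (nat_lit 28) (.nd (nat_lit 20) 
(.lf (nat_lit 5185583) (dlOf (nat_lit 1) (nat_lit 0x8008000400200020008320703))) 
(.lf (nat_lit 27205679) (dlOf (nat_lit 1) (nat_lit 0x1d40028cc0901)))) (.nd (nat_lit 6) 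
(.lf (nat_lit 1880039471) (dlOf (nat_lit 1) (nat_lit 0x44002017a0008540482))) 
(.lf (nat_lit 5772354799) (dlOf (nat_lit 1) (nat_lit 0x400200020008092e82))))) (.nd (nat_lit 6) 
(.nd (nat_lit 9) (.lf (nat_lit 470753327) (dlOf (nat_lit 1) (nat_lit 0x20028170481))) 
(.lf (nat_lit 2752455215) (dlOf (nat_lit 1) (nat_lit 0x20018018b01)))) 
(.lf (nat_lit 2753503599) (dlOf (nat_lit 3) (nat_lit 0x6873c002c37600e1604001220700010e78033b8100040008015000200080008090783))))) 
(.nd (nat_lit 6) (.nd (nat_lit 8) (.nd (nat_lit 11) 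
(.lf (nat_lit 25108527) (dlOf (nat_lit 1) (nat_lit 0x48008004400200180008be0e83))) 
(.lf (nat_lit 3492751407) (dlOf (nat_lit 2) (nat_lit 0xc03a0000002000200280f4701)))) 
(.lf (nat_lit 19871023) (dlOf (nat_lit 1) (nat_lit 0x38008005c002000400089d9883)))) 
(.nd (nat_lit 7) (.lf (nat_lit 19866223) (dlOf (nat_lit 1) (nat_lit 0xa800201a000089d1802))) 
(.lf (nat_lit 3492750319) (dlOf (nat_lit 1) (nat_lit 0x400080004002000400080f2883)))))))))))

end

end Pool.Agent.Lib.MP_5854e1_co.Cz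

namespace Pool.Agent.Lib.MP_5854e1_co.Cz

noncomputable section

noncomputable def tz159 : DT := (.nd (nat_lit 16) (.nd (nat_lit 18) (.nd (nat_lit 13) 
(.nd (nat_lit 28) (.nd (nat_lit 17) (.nd (nat_lit 19) (.nd (nat_lit 11) (.nd (nat_lit 6) 
(.nd (nat_lit 20) (.nd (nat_lit 8) (.nd (nat_lit 9) 
(.lf (nat_lit 14712879) (dlOf (nat_lit 1) (nat_lit 0x68008001c002000c0008770483))) 
(.lf (nat_lit 738231855) (dlOf (nat_lit 1) (nat_lit 0x20008000800200080008003783)))) 
(.lf (nat_lit 4227375) (dlOf (nat_lit 1) (nat_lit 0x28004005a0008290702)))) (.nd (nat_lit 22) 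
(.lf (nat_lit 2752544815) (dlOf (nat_lit 1) (nat_lit 0x3800200140008020582))) 
(.lf (nat_lit 13664303) (dlOf (nat_lit 1) (nat_lit 0x400400020008740682))))) (.nd (nat_lit 10) 
(.nd (nat_lit 8) 
(.lf (nat_lit 3355476719) (dlOf (nat_lit 2) (nat_lit 0x380b80010204000800400020018002102))) 
(.lf (nat_lit 5502960623) (dlOf (nat_lit 1) (nat_lit 0x1400400040008002882)))) (.nd (nat_lit 9) 
(.lf (nat_lit 2684392943) (dlOf (nat_lit 1) (nat_lit 0xa0018009c01))) 
(.lf (nat_lit 4362110959) (dlOf (nat_lit 2) (nat_lit 0x280a80006404001000400200018004602)))))) 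
(.nd (nat_lit 7) (.nd (nat_lit 10) (.nd (nat_lit 22) (.nd (nat_lit 23) 
(.lf (nat_lit 2818607663) (dlOf (nat_lit 1) (nat_lit 0xa0018005181))) 
(.lf (nat_lit 41978415) (dlOf (nat_lit 1) (nat_lit 0x400400060009245182)))) 
(.lf (nat_lit 37784111) (dlOf (nat_lit 1) (nat_lit 0xc004000200190d5182)))) (.nd (nat_lit 26) 
(.lf (nat_lit 671125039) (dlOf (nat_lit 7) (nat_lit 0x1b0028004d40800800140021e04044804c021c01d012700c00870040043c00a0162002010f000000160380cc00980010040033801d01b200c00cd80400134012033c005019b00100d00000000ae24031400a0005202021201000000018007180))) 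
(.lf (nat_lit 2885717551) (dlOf (nat_lit 2) (nat_lit 0x1400310002a018007180))))) (.nd (nat_lit 6) 
(.nd (nat_lit 10) (.lf (nat_lit 36735407) (dlOf (nat_lit 1) (nat_lit 0x20019074e81))) 
(.lf (nat_lit 134258095) (dlOf (nat_lit 1) (nat_lit 0x40040048000800cc02)))) 
(.lf (nat_lit 1275104239) (dlOf (nat_lit 1) (nat_lit 0xd80008005f01)))))) (.nd (nat_lit 22) 
(.nd (nat_lit 23) (.nd (nat_lit 27) (.nd (nat_lit 24) 
(.lf (nat_lit 1074298927) (dlOf (nat_lit 1) (nat_lit 0x1400281b0001))) 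
(.lf (nat_lit 17334319) (dlOf (nat_lit 1) (nat_lit 0x4002000200088e0002)))) (.nd (nat_lit 26) 
(.lf (nat_lit 2819129391) (dlOf (nat_lit 2) (nat_lit 0xb8000000280400ec004006e00081a0702))) 
(.lf (nat_lit 2886238255) (dlOf (nat_lit 1) (nat_lit 0x2200081a0601))))) (.nd (nat_lit 10) 
(.nd (nat_lit 20) (.lf (nat_lit 11042863) (dlOf (nat_lit 1) (nat_lit 0x40028660d81))) 
(.lf (nat_lit 26771503) (dlOf (nat_lit 1) (nat_lit 0x40018c70901)))) (.nd (nat_lit 7) 
(.lf (nat_lit 8947247) (dlOf (nat_lit 1) (nat_lit 0x400400020008513782))) 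
(.lf (nat_lit 59278511) (dlOf (nat_lit 3) (nat_lit 0x2000000290100010c90000900800180080008002000400097e2c03)))))) 
(.nd (nat_lit 21) (.nd (nat_lit 20) (.nd (nat_lit 25) 
(.lf (nat_lit 21528623) (dlOf (nat_lit 4) (nat_lit 0x36e880005c04045bb54021bda800015820018de38000300800c800803fc00200100008a40383))) 
(.lf (nat_lit 55083055) (dlOf (nat_lit 8) (nat_lit 0x304c6000626280031310003c97800944ba002625380041254001c61c004098c004a4c4001425e001292e8004894e000a4950007106000c263000492f0001494e001a4950007084002d263000c93100004978005e4ba000d2528007924c000ec18004c98c00224c4001f25d00019294002c926000750a003c4c60014262001192e8003894a00204930003a050016263000a1310008c974001c4a500122498001cc280a300080288002076e00096a0d03)))) 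
(.lf (nat_lit 30965807) (dlOf (nat_lit 1) (nat_lit 0x2000400040018e50b82)))) (.nd (nat_lit 6) 
(.lf (nat_lit 15237167) (dlOf (nat_lit 5) (nat_lit 0x7100000003e0200081ab005a0000000dc1002600000006a0401a00000000002001c00087c0701))) 
(.nd (nat_lit 10) (.lf (nat_lit 48791663) (dlOf (nat_lit 1) (nat_lit 0xd400200220009432482))) 
(.lf (nat_lit 49841263) (dlOf (nat_lit 1) (nat_lit 0x4004000200094c2a02)))))))) (.nd (nat_lit 26) 
(.nd (nat_lit 23) (.nd (nat_lit 7) (.nd (nat_lit 9) (.nd (nat_lit 19) 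
(.lf (nat_lit 2281865263) (dlOf (nat_lit 1) (nat_lit 0x60008090681))) 
(.lf (nat_lit 3221913647) (dlOf (nat_lit 9) (nat_lit 0x2680e0019802c0005604000e040002d01c002e0058000aa0c011007000540160002a0200010170000880803600b8000260400d805c0001202006402e000088100320170000400800c800800ac00200b600081b0683)))) 
(.lf (nat_lit 134382127) (dlOf (nat_lit 2) (nat_lit 0xe81280008404000800200020008018002)))) 
(.nd (nat_lit 8) (.lf (nat_lit 35816623) (dlOf (nat_lit 1) (nat_lit 0x20019012c01))) 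
(.lf (nat_lit 40536495) (dlOf (nat_lit 1) (nat_lit 0x8004000600091f4e82))))) (.nd (nat_lit 20) 
(.nd (nat_lit 19) 
(.lf (nat_lit 29524015) (dlOf (nat_lit 2) (nat_lit 0x28000000540200040008e10801))) 
(.lf (nat_lit 15368239) (dlOf (nat_lit 2) (nat_lit 0x82a28000680800300080020002000200087e0703)))) 
(.nd (nat_lit 6) (.nd (nat_lit 22) 
(.lf (nat_lit 26378287) (dlOf (nat_lit 1) (nat_lit 0x4800400020008c40d02))) 
(.lf (nat_lit 47349807) (dlOf (nat_lit 6) (nat_lit 0x2af4c001c60400097a60006bbc0003b0200055e98002aef0000ea0800117a60008bbc0003a0200065e98004aef0000e608002c004006000093d0d02)))) 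
(.lf (nat_lit 11698671) (dlOf (nat_lit 1) (nat_lit 0x60008009c002004800086c0d83)))))) 
(.nd (nat_lit 8) (.nd (nat_lit 27) (.nd (nat_lit 11) (.nd (nat_lit 19) 
(.lf (nat_lit 2752675887) (dlOf (nat_lit 1) (nat_lit 0x400400020008030c82))) 
(.lf (nat_lit 1678409775) (dlOf (nat_lit 1) (nat_lit 0x80018210681)))) 
(.lf (nat_lit 1677887535) (dlOf (nat_lit 1) (nat_lit 0x20018114701)))) (.nd (nat_lit 9) 
(.nd (nat_lit 19) 
(.lf (nat_lit 3422715951) (dlOf (nat_lit 2) (nat_lit 0x60100000b4080108008002c002000c0008070683))) 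
(.lf (nat_lit 3960111151) (dlOf (nat_lit 9) (nat_lit 0x2680e0019802c0005604000e040002d01c002e0058000aa0c011007000540160002a0200010170000880803600b8000260400d805c0001202006402e000088100320170000400800c800800ac00200b600081b0683)))) 
(.lf (nat_lit 1812106799) (dlOf (nat_lit 2) (nat_lit 0x4e01d0002a018147180))))) (.nd (nat_lit 7) 
(.nd (nat_lit 6) (.lf (nat_lit 2214757167) (dlOf (nat_lit 1) (nat_lit 0x1a00280a2201))) 
(.lf (nat_lit 2885845359) (dlOf (nat_lit 1) (nat_lit 0xa80080044002001000080b0783)))) 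
(.nd (nat_lit 9) (.lf (nat_lit 2751633903) (dlOf (nat_lit 1) (nat_lit 0x2002800b281))) 
(.lf (nat_lit 1677886447) (dlOf (nat_lit 1) (nat_lit 0x400400020018112882)))))))) (.nd (nat_lit 30) 
(.nd (nat_lit 8) (.nd (nat_lit 9) (.nd (nat_lit 6) (.nd (nat_lit 17) 
(.lf (nat_lit 470843439) (dlOf (nat_lit 5) (nat_lit 0x2600000002a04015c0000001402000221d0000101000310e800004080018008011800200ac00081c0703))) 
(.nd (nat_lit 26) (.lf (nat_lit 805994543) (dlOf (nat_lit 1) (nat_lit 0x80018210681))) 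
(.lf (nat_lit 3154804783) (dlOf (nat_lit 2) (nat_lit 0x1601b800400640001c08000400200420008330b82))))) 
(.nd (nat_lit 7) (.lf (nat_lit 2952830063) (dlOf (nat_lit 1) (nat_lit 0x88000800c101))) 
(.lf (nat_lit 470319343) (dlOf (nat_lit 2) (nat_lit 0x5e1f20003f0180c0480))))) (.nd (nat_lit 10) 
(.nd (nat_lit 11) 
(.lf (nat_lit 469926447) (dlOf (nat_lit 1) (nat_lit 0x20008013c00200360008018b03))) 
(.nd (nat_lit 17) (.lf (nat_lit 3019934255) (dlOf (nat_lit 1) (nat_lit 0x20028005181))) 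
(.lf (nat_lit 1007847983) (dlOf (nat_lit 1) (nat_lit 0x280028805181))))) (.nd (nat_lit 6) 
(.lf (nat_lit 469796527) (dlOf (nat_lit 1) (nat_lit 0x3400200020008003a82))) 
(.lf (nat_lit 474121839) (dlOf (nat_lit 1) (nat_lit 0x200190e3981)))))) (.nd (nat_lit 6) 
(.nd (nat_lit 9) (.nd (nat_lit 7) 
(.lf (nat_lit 2416083247) (dlOf (nat_lit 1) (nat_lit 0x7800400100018048402))) 
(.lf (nat_lit 3154284975) (dlOf (nat_lit 2) (nat_lit 0x1811c0008804000800400060018158482)))) 
(.nd (nat_lit 26) (.lf (nat_lit 4697656111) (dlOf (nat_lit 1) (nat_lit 0x120018005c01))) 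
(.lf (nat_lit 872450863) (dlOf (nat_lit 1) (nat_lit 0x20018005c01))))) (.nd (nat_lit 11) 
(.nd (nat_lit 7) 
(.lf (nat_lit 2617279343) (dlOf (nat_lit 2) (nat_lit 0x380ac0010e04000800400020018002582))) 
(.lf (nat_lit 469796847) (dlOf (nat_lit 4) (nat_lit 0x141c50001a81001d0e30000c80800087140000004006800400300008004602)))) 
(.nd (nat_lit 12) (.nd (nat_lit 32) 
(.lf (nat_lit 402689007) (dlOf (nat_lit 1) (nat_lit 0x20008000c00200060008005f03))) 
(.lf (nat_lit 4697656303) (dlOf (nat_lit 1) (nat_lit 0x1c00400020018005f02)))) 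
(.lf (nat_lit 2952829935) (dlOf (nat_lit 1) (nat_lit 0xf000800180020018000800bf03))))))) 
(.nd (nat_lit 17) (.nd (nat_lit 6) (.nd (nat_lit 19) (.nd (nat_lit 7) 
(.lf (nat_lit 3490742319) (dlOf (nat_lit 1) (nat_lit 0x3800200140008020582))) 
(.lf (nat_lit 1342216111) (dlOf (nat_lit 1) (nat_lit 0x18008000c0020016000800a403)))) 
(.nd (nat_lit 21) (.nd (nat_lit 26) 
(.lf (nat_lit 3624435759) (dlOf (nat_lit 1) (nat_lit 0x2200081a0601))) 
(.lf (nat_lit 3557326895) (dlOf (nat_lit 6) (nat_lit 0x60210000f01001702480430120032c0420001a0605120740172039801b0120007007601560000000a05004a03a004d01240420090010803b00fe01080004c2800e0124009c090014402100b901000000020012000800b4002002400081c0703)))) 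
(.lf (nat_lit 3492315183) (dlOf (nat_lit 3) (nat_lit 0x641fa000168100020fd0000a80800a80080020002002600080c0e83))))) 
(.nd (nat_lit 10) (.nd (nat_lit 7) 
(.lf (nat_lit 1342216303) (dlOf (nat_lit 9) (nat_lit 0x1d8274003411c008c07e0055303002203f0029500801181f8014a404015413a00b208e006f03f002a00a80148e1000040fc00a3f02003207e0051f01000403f00264c0800101f80131004004c004008e001800a882))) 
(.lf (nat_lit 1345880559) (dlOf (nat_lit 1) (nat_lit 0x1a0028e07401)))) (.nd (nat_lit 26) 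
(.lf (nat_lit 5773493359) (dlOf (nat_lit 1) (nat_lit 0x4004000200080e2a02))) 
(.lf (nat_lit 6377473135) (dlOf (nat_lit 1) (nat_lit 0x4004000200080e2a02)))))) (.nd (nat_lit 31) 
(.nd (nat_lit 6) (.nd (nat_lit 7) 
(.lf (nat_lit 1342341679) (dlOf (nat_lit 1) (nat_lit 0xa0008018001))) (.nd (nat_lit 8) 
(.lf (nat_lit 6241290927) (dlOf (nat_lit 1) (nat_lit 0x400280d5681))) 
(.lf (nat_lit 5637309871) (dlOf (nat_lit 1) (nat_lit 0x4800280d3601))))) (.nd (nat_lit 7) 
(.lf (nat_lit 1346535535) (dlOf (nat_lit 5) (nat_lit 0x1045c0010225000b106800206880000c10000c45c000c2250003106800106880000a10001c45c0008225000b106800506880000810002045c00042250009106800406880000610002000400080018fa0c82))) 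
(.lf (nat_lit 5637309423) (dlOf (nat_lit 1) (nat_lit 0x400280d2881))))) (.nd (nat_lit 6) 
(.nd (nat_lit 9) (.nd (nat_lit 20) 
(.lf (nat_lit 4160913455) (dlOf (nat_lit 1) (nat_lit 0xe0018070681))) 
(.lf (nat_lit 3490873391) (dlOf (nat_lit 1) (nat_lit 0x400400020008030c82)))) 
(.lf (nat_lit 4228022831) (dlOf (nat_lit 5) (nat_lit 0x15e0310001201008301880008c0801c00c40003c0400640620001d0200040028018001)))) 
(.nd (nat_lit 8) (.lf (nat_lit 3491397743) (dlOf (nat_lit 1) (nat_lit 0x400400020008090002))) 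
(.lf (nat_lit 3491922287) (dlOf (nat_lit 1) (nat_lit 0x2800400100008090782))))))))) 
(.nd (nat_lit 17) (.nd (nat_lit 9) (.nd (nat_lit 6) (.nd (nat_lit 19) (.nd (nat_lit 8) 
(.nd (nat_lit 20) (.nd (nat_lit 7) 
(.lf (nat_lit 2755698735) (dlOf (nat_lit 2) (nat_lit 0x482c803b16040008004000400081b0002))) 
(.lf (nat_lit 10526895) (dlOf (nat_lit 1) (nat_lit 0x1400185f4c81)))) (.nd (nat_lit 21) 
(.nd (nat_lit 26) 
(.lf (nat_lit 1343266863) (dlOf (nat_lit 1) (nat_lit 0x180080004002000400081e0703))) 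
(.lf (nat_lit 470851631) (dlOf (nat_lit 5) (nat_lit 0x60088000360401180000001502000a19b000030100050cd80000408001800802b800200a000081c0703)))) 
(.lf (nat_lit 28352559) (dlOf (nat_lit 1) (nat_lit 0x20018d80801))))) (.nd (nat_lit 11) 
(.nd (nat_lit 22) 
(.lf (nat_lit 671129903) (dlOf (nat_lit 2) (nat_lit 0x40078001940800200080010002000e00080b0503))) 
(.lf (nat_lit 2755698991) (dlOf (nat_lit 4) (nat_lit 0x828164000650200100b2000320101b905900018c08008800800e0002004000081b0503)))) 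
(.nd (nat_lit 7) (.lf (nat_lit 1342221615) (dlOf (nat_lit 1) (nat_lit 0xa0028006881))) 
(.lf (nat_lit 36743599) (dlOf (nat_lit 1) (nat_lit 0x40019074e81)))))) (.nd (nat_lit 21) 
(.nd (nat_lit 22) (.nd (nat_lit 26) 
(.lf (nat_lit 2819137583) (dlOf (nat_lit 10) (nat_lit 0x2005000158100030028000a00800080140004e04007c08c01a404500410108080804800a80000001b0a00020460000c810123022801b00a0009804e019a01600ad00a8096804802e40160184005005e0000000544804d8118044008a00aa02100d1000000050200208048000040400300ca00480640048023001e01140004042003c02000230000000003801b80080208002014600081a0703))) 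
(.lf (nat_lit 3557335087) (dlOf (nat_lit 6) (nat_lit 0x80000001381000302400028084000340800a4090005003b00320140017000000028100238090011003b008700000004c18004800000004040384002008400081c0702)))) 
(.lf (nat_lit 21536815) (dlOf (nat_lit 1) (nat_lit 0x80008a40381)))) (.nd (nat_lit 22) 
(.nd (nat_lit 23) (.lf (nat_lit 3492323375) (dlOf (nat_lit 1) (nat_lit 0x2ca00080c0e81))) 
(.lf (nat_lit 11051055) (dlOf (nat_lit 1) (nat_lit 0x20028660d81)))) 
(.lf (nat_lit 15245359) (dlOf (nat_lit 1) (nat_lit 0x4200287c0701)))))) (.nd (nat_lit 10) 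
(.nd (nat_lit 7) (.nd (nat_lit 8) 
(.lf (nat_lit 12623983) (dlOf (nat_lit 1) (nat_lit 0x4004000200086d1582))) 
(.lf (nat_lit 25731439) (dlOf (nat_lit 1) (nat_lit 0x28008001c00200100008c10a03)))) 
(.lf (nat_lit 1880137967) (dlOf (nat_lit 1) (nat_lit 0x80018740601)))) (.nd (nat_lit 12) 
(.nd (nat_lit 26) (.lf (nat_lit 42095) (dlOf (nat_lit 1) (nat_lit 0x400400020008002a02))) 
(.lf (nat_lit 4898989167) (dlOf (nat_lit 1) (nat_lit 0x80018002a01)))) (.nd (nat_lit 11) 
(.lf (nat_lit 3691033711) (dlOf (nat_lit 1) (nat_lit 0x21400201bc0008009402))) 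
(.lf (nat_lit 8436847) (dlOf (nat_lit 1) (nat_lit 0x40020002000851c102))))))) (.nd (nat_lit 6) 
(.nd (nat_lit 10) (.nd (nat_lit 26) (.nd (nat_lit 11) 
(.lf (nat_lit 20488751) (dlOf (nat_lit 1) (nat_lit 0x4c004000a00189d1482))) (.nd (nat_lit 23) 
(.lf (nat_lit 3758139951) (dlOf (nat_lit 1) (nat_lit 0x40028085181))) 
(.lf (nat_lit 41986607) (dlOf (nat_lit 1) (nat_lit 0x420029245181))))) (.nd (nat_lit 27) 
(.lf (nat_lit 872458799) (dlOf (nat_lit 1) (nat_lit 0x420018005181))) 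
(.lf (nat_lit 3154160175) (dlOf (nat_lit 1) (nat_lit 0x40028085181))))) (.nd (nat_lit 7) 
(.nd (nat_lit 19) (.lf (nat_lit 4295011887) (dlOf (nat_lit 1) (nat_lit 0x40018007181))) 
(.lf (nat_lit 20491823) (dlOf (nat_lit 1) (nat_lit 0x90004002e00089d7182)))) 
(.lf (nat_lit 2348853167) (dlOf (nat_lit 1) (nat_lit 0x28008001c002000a0008004383))))) 
(.nd (nat_lit 8) (.nd (nat_lit 10) (.nd (nat_lit 7) 
(.lf (nat_lit 19968623) (dlOf (nat_lit 1) (nat_lit 0x4004000200189d8982))) 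
(.lf (nat_lit 3355484911) (dlOf (nat_lit 1) (nat_lit 0x400200020008002102)))) (.nd (nat_lit 26) 
(.lf (nat_lit 42735) (dlOf (nat_lit 1) (nat_lit 0x8008001000200120008003b03))) 
(.lf (nat_lit 469804783) (dlOf (nat_lit 1) (nat_lit 0x400400020008003b02))))) (.nd (nat_lit 10) 
(.nd (nat_lit 7) (.lf (nat_lit 2617287535) (dlOf (nat_lit 1) (nat_lit 0x400200020008002582))) 
(.lf (nat_lit 872459247) (dlOf (nat_lit 1) (nat_lit 0x420018005f01)))) (.nd (nat_lit 26) 
(.lf (nat_lit 42991) (dlOf (nat_lit 1) (nat_lit 0x60028004601))) (.nd (nat_lit 27) 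
(.lf (nat_lit 4362119151) (dlOf (nat_lit 1) (nat_lit 0x20018004601))) 
(.lf (nat_lit 469805039) (dlOf (nat_lit 1) (nat_lit 0x20018004601))))))))) (.nd (nat_lit 26) 
(.nd (nat_lit 7) (.nd (nat_lit 19) (.nd (nat_lit 9) (.nd (nat_lit 31) (.nd (nat_lit 22) 
(.nd (nat_lit 6) (.lf (nat_lit 4429357103) (dlOf (nat_lit 1) (nat_lit 0x400400020008090002))) 
(.lf (nat_lit 8567919) (dlOf (nat_lit 1) (nat_lit 0x2001851c101)))) (.nd (nat_lit 23) 
(.lf (nat_lit 1346543663) (dlOf (nat_lit 6) (nat_lit 0x10124000e2020006225000610680018688000ec0c000844a000c20d00050d10001d4180020894001c41a000e1a20003a03000411700038894002841a00121a200039848fb0d00))) 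
(.lf (nat_lit 29532207) (dlOf (nat_lit 1) (nat_lit 0x1c002001a0008e10802))))) (.nd (nat_lit 8) 
(.nd (nat_lit 29) 
(.lf (nat_lit 2147655727) (dlOf (nat_lit 1) (nat_lit 0x80080004002000200080b0483))) 
(.lf (nat_lit 2684526639) (dlOf (nat_lit 2) (nat_lit 0x60100000b4080108008002c002000c0008090683)))) 
(.lf (nat_lit 4026704175) (dlOf (nat_lit 1) (nat_lit 0x8c00400020018048402))))) (.nd (nat_lit 11) 
(.nd (nat_lit 27) 
(.lf (nat_lit 1342349871) (dlOf (nat_lit 2) (nat_lit 0x30714000ce04000400400060008018002))) 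
(.lf (nat_lit 134390319) (dlOf (nat_lit 9) (nat_lit 0x8804a00560178001a41001c0128004c092009002f00034030040025002a80bc000ce0800ac094008a02f00033020046025000c0118015405e004a02a0002204003902500010124004408c009202f001f015000108280210128015805e0004104004c04a003f0178001001000f0008030800200040008018003)))) 
(.lf (nat_lit 54700591) (dlOf (nat_lit 1) (nat_lit 0x2c00200040009655182))))) (.nd (nat_lit 28) 
(.nd (nat_lit 21) (.nd (nat_lit 27) 
(.lf (nat_lit 3221921839) (dlOf (nat_lit 12) (nat_lit 0x32e03800d800b000158101bc8100068007001a001600500000001542013e810001dc070016e0160002a0303de020000500e0000a608011005c0002202004a02e0000b810043017000058080850150002007e00b002e000098300f302a002d014000dc07e00a002e000090400430170000440807e8150011c05c000100408a200181b0681))) 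
(.lf (nat_lit 134914095) (dlOf (nat_lit 1) (nat_lit 0x9000080e0681)))) 
(.lf (nat_lit 15376431) (dlOf (nat_lit 2) (nat_lit 0xd931400034040008004002c00187e0702)))) 
(.nd (nat_lit 6) (.nd (nat_lit 21) 
(.lf (nat_lit 806002735) (dlOf (nat_lit 2) (nat_lit 0x7013c0050070001602600007038210680))) 
(.lf (nat_lit 3492454447) (dlOf (nat_lit 1) (nat_lit 0x1000080d0b01)))) 
(.lf (nat_lit 3491405935) (dlOf (nat_lit 1) (nat_lit 0x8008000400200020008090003)))))) 
(.nd (nat_lit 8) (.nd (nat_lit 22) (.nd (nat_lit 6) (.nd (nat_lit 25) 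
(.lf (nat_lit 1344447663) (dlOf (nat_lit 2) (nat_lit 0xf08700050234002805e00025838802c00))) 
(.lf (nat_lit 35824815) (dlOf (nat_lit 1) (nat_lit 0x20019012c01)))) 
(.lf (nat_lit 175343) (dlOf (nat_lit 1) (nat_lit 0x400400020008006502)))) (.nd (nat_lit 19) 
(.lf (nat_lit 48407727) (dlOf (nat_lit 1) (nat_lit 0x20029402c01))) 
(.lf (nat_lit 32154799) (dlOf (nat_lit 2) (nat_lit 0x24ae00025818ef2c00))))) (.nd (nat_lit 6) 
(.nd (nat_lit 9) (.lf (nat_lit 5637318063) (dlOf (nat_lit 1) (nat_lit 0x3000280d3601))) 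
(.lf (nat_lit 671262639) (dlOf (nat_lit 1) (nat_lit 0x780028144381)))) (.nd (nat_lit 9) 
(.nd (nat_lit 19) (.lf (nat_lit 939696623) (dlOf (nat_lit 1) (nat_lit 0x2a0028157d01))) 
(.lf (nat_lit 3491406319) (dlOf (nat_lit 2) (nat_lit 0x603da002260200040018090d81)))) 
(.lf (nat_lit 46312431) (dlOf (nat_lit 1) (nat_lit 0x400400020009385f02))))))) (.nd (nat_lit 27) 
(.nd (nat_lit 8) (.nd (nat_lit 19) (.nd (nat_lit 6) 
(.lf (nat_lit 4899119151) (dlOf (nat_lit 2) (nat_lit 0x234034000a01900015828080380))) 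
(.nd (nat_lit 10) 
(.lf (nat_lit 4899119215) (dlOf (nat_lit 2) (nat_lit 0x400e0000c80800a8008001000200020008080c83))) 
(.lf (nat_lit 3020078191) (dlOf (nat_lit 1) (nat_lit 0x4c002812c101))))) (.nd (nat_lit 21) 
(.nd (nat_lit 29) 
(.lf (nat_lit 67805231) (dlOf (nat_lit 2) (nat_lit 0x800000001c040010002000200082f0b82))) 
(.lf (nat_lit 1678417967) (dlOf (nat_lit 2) (nat_lit 0x7013c0050070001602600007038210680)))) 
(.lf (nat_lit 2754256943) (dlOf (nat_lit 1) (nat_lit 0x1000080d0b01))))) (.nd (nat_lit 7) 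
(.nd (nat_lit 6) (.nd (nat_lit 10) 
(.lf (nat_lit 4362248495) (dlOf (nat_lit 1) (nat_lit 0x100028014901))) 
(.lf (nat_lit 6509735215) (dlOf (nat_lit 1) (nat_lit 0x1580028146881)))) 
(.lf (nat_lit 2751641967) (dlOf (nat_lit 1) (nat_lit 0x3e001800ad01)))) (.nd (nat_lit 6) 
(.nd (nat_lit 9) (.lf (nat_lit 3020076463) (dlOf (nat_lit 1) (nat_lit 0x220028129901))) 
(.lf (nat_lit 1677895599) (dlOf (nat_lit 1) (nat_lit 0x20018114381)))) 
(.lf (nat_lit 2753208815) (dlOf (nat_lit 2) (nat_lit 0x603fe002260200040018090d81)))))) 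
(.nd (nat_lit 9) (.nd (nat_lit 19) (.nd (nat_lit 7) (.nd (nat_lit 8) 
(.lf (nat_lit 1275240495) (dlOf (nat_lit 1) (nat_lit 0x80080004002000200080b0483))) 
(.lf (nat_lit 4228030767) (dlOf (nat_lit 1) (nat_lit 0x100028014901)))) 
(.lf (nat_lit 3154293167) (dlOf (nat_lit 2) (nat_lit 0x6811c00080700004404005e0018158481)))) 
(.nd (nat_lit 28) (.nd (nat_lit 29) 
(.lf (nat_lit 202022959) (dlOf (nat_lit 1) (nat_lit 0x9000080e0681))) 
(.lf (nat_lit 3960119343) (dlOf (nat_lit 12) (nat_lit 0x32e03800d800b000158101bc8100068007001a001600500000001542013e810001dc070016e0160002a0303de020000500e0000a608011005c0002202004a02e0000b810043017000058080850150002007e00b002e000098300f302a002d014000dc07e00a002e000090400430170000440807e8150011c05c000100408a200181b0681)))) 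
(.lf (nat_lit 3154812975) (dlOf (nat_lit 5) (nat_lit 0xb802b805c80dc02fc06c00da020006e00f805f006402e4030004a009000070800a401b803a808003140320000c06016c05700b701b805e80d801c804000e601f00bc00c805c006000700120000a1000f2057009c010004e007c03b003201d00180010004800000300318008018000204380008330b83))))) 
(.nd (nat_lit 10) (.nd (nat_lit 8) (.nd (nat_lit 28) 
(.lf (nat_lit 1812111919) (dlOf (nat_lit 2) (nat_lit 0x400000002f018158000))) 
(.lf (nat_lit 4228031023) (dlOf (nat_lit 3) (nat_lit 0x302480009008006013400040560001e0400020008018001)))) 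
(.lf (nat_lit 2617422639) (dlOf (nat_lit 1) (nat_lit 0x200180a8f81)))) (.nd (nat_lit 6) 
(.lf (nat_lit 6375515695) (dlOf (nat_lit 1) (nat_lit 0xc00200020008003782))) 
(.lf (nat_lit 474130031) (dlOf (nat_lit 1) (nat_lit 0x1a00090e3981)))))))))) (.nd (nat_lit 13) 
(.nd (nat_lit 8) (.nd (nat_lit 26) (.nd (nat_lit 19) (.nd (nat_lit 23) (.nd (nat_lit 9) 
(.nd (nat_lit 6) (.nd (nat_lit 17) (.nd (nat_lit 7) 
(.lf (nat_lit 3087302703) (dlOf (nat_lit 1) (nat_lit 0x20028170c81))) 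
(.lf (nat_lit 1344570543) (dlOf (nat_lit 1) (nat_lit 0x260018862c01)))) (.nd (nat_lit 20) 
(.lf (nat_lit 4295393327) (dlOf (nat_lit 3) (nat_lit 0x1b00b00038014012b008001c02c0018005004ab8281c0a00))) 
(.lf (nat_lit 22446127) (dlOf (nat_lit 1) (nat_lit 0x80018ae0601))))) (.nd (nat_lit 17) 
(.lf (nat_lit 3494150255) (dlOf (nat_lit 1) (nat_lit 0x200080010002000800081c1583))) 
(.nd (nat_lit 28) 
(.lf (nat_lit 3221651567) (dlOf (nat_lit 2) (nat_lit 0x811801a9e04004c00400340008170002))) 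
(.lf (nat_lit 805732463) (dlOf (nat_lit 1) (nat_lit 0x188004001c00081a0002)))))) (.nd (nat_lit 30) 
(.nd (nat_lit 10) (.nd (nat_lit 17) 
(.lf (nat_lit 23364143) (dlOf (nat_lit 1) (nat_lit 0xc00200040008b80e82))) 
(.lf (nat_lit 134644271) (dlOf (nat_lit 2) (nat_lit 0x21a03100000018090e80)))) 
(.lf (nat_lit 298543) (dlOf (nat_lit 1) (nat_lit 0x400400020008007182)))) (.nd (nat_lit 10) 
(.nd (nat_lit 11) 
(.lf (nat_lit 3221520943) (dlOf (nat_lit 10) (nat_lit 0x7403e00c70070067003002f80000002408005603e00bf007005f803002c80000002308001003e009f007000e8000000440c00a807c017000e00ae0000000801800700f80003e04008007c015c00e00a40000000781800d00f80010078016000e00a30000000742004f80000003804001c07c013c00e000100000006c180278008009000200440008128003))) 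
(.lf (nat_lit 5771659823) (dlOf (nat_lit 1) (nat_lit 0x400200060008005182)))) 
(.lf (nat_lit 1610909231) (dlOf (nat_lit 1) (nat_lit 0x400400040018093782)))))) (.nd (nat_lit 20) 
(.nd (nat_lit 7) (.nd (nat_lit 9) 
(.lf (nat_lit 44335151) (dlOf (nat_lit 6) (nat_lit 0x218b40014c1e000e304000e63e00073138002183c001cb700007b08000463e00013138004983c0014b700007a08000863e00023138004183c0020b700007908000c63e00053138004183c0024b700007808000400092f0d01))) 
(.lf (nat_lit 42371631) (dlOf (nat_lit 1) (nat_lit 0x600029245181)))) (.nd (nat_lit 6) 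
(.nd (nat_lit 12) 
(.lf (nat_lit 42239151) (dlOf (nat_lit 1) (nat_lit 0x1100080060002001e0009242c03))) 
(.lf (nat_lit 8688815) (dlOf (nat_lit 1) (nat_lit 0x8008000400200020008519503)))) 
(.lf (nat_lit 8815343) (dlOf (nat_lit 1) (nat_lit 0xc00200040008512102))))) (.nd (nat_lit 6) 
(.nd (nat_lit 7) (.lf (nat_lit 30703663) (dlOf (nat_lit 1) (nat_lit 0x30002001e0008e40e82))) 
(.lf (nat_lit 11829423) (dlOf (nat_lit 1) (nat_lit 0x200286c0301)))) (.nd (nat_lit 17) 
(.nd (nat_lit 21) (.lf (nat_lit 9732207) (dlOf (nat_lit 1) (nat_lit 0x400400020008580c82))) 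
(.lf (nat_lit 62161007) (dlOf (nat_lit 5) (nat_lit 0x30e8000286fc0018328000c04e000030400020e8000206fc0018328000050600081d000010df80050650002409c000040800021d000040df80038650002009c000030800060009960c81)))) 
(.lf (nat_lit 14057583) (dlOf (nat_lit 2) (nat_lit 0xf8d400a910200020018750281))))))) 
(.nd (nat_lit 10) (.nd (nat_lit 21) (.nd (nat_lit 24) (.nd (nat_lit 9) 
(.lf (nat_lit 819247) (dlOf (nat_lit 1) (nat_lit 0x540008020581))) 
(.lf (nat_lit 3490611759) (dlOf (nat_lit 28) (nat_lit 0x1c462005a230000360200590f681320560000d208008445a00a61ed007f0f6000a878c03303a802c81d300010e5012d056008c42ae017215101700a100a8050401b426802c2000000340e004c0f68130056000e42ae000670600961ed02620ac001e855c000cc0c01683da008a1d402630ac0015055c00f8284000440a016e158000218100520f6803f87b000343c600a81e1002b0ef005b875003903a600281ca00200b2012d856008c02ae003415101550a100a7050400b0000000421e00941ed00390ea0130856000fc284000410800901ed00340ea0130056007d82ae017c142001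50a08001003000b88c0000780400b44600003b02005a2300001c81002e118000108700007008080c3cc014a1e200830e5805285940a382a804aa15200a309d005284d40294000000241203e01e600390f20070878800403be01481cd007f0e58070859402a42aa04fc15402440a9005384e8028826a01c2000000118d01c60f300088734097c2a80322152007c09d001104b8000441807cc3cc00801e400720e5813e855009102a4000200a03741e600280e6812a855001b42a4004e13a0000f8500440fd800407a407943cc00741e4001d0e68036072c00142b40016155026f0aa011b85480074274011e1350000f0c01d90f3000e079400a43c800b61cb02700aa0115054801f426a0001d0e001c1e401f10a9000070100df8798095c2a80001b0400242300000781002d11800002c0801008c00000e0400e04680070233003709e800000180c8000805e000208600008018003)))) 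
(.nd (nat_lit 20) (.lf (nat_lit 17596463) (dlOf (nat_lit 1) (nat_lit 0x21200088e0001))) 
(.lf (nat_lit 22839343) (dlOf (nat_lit 4) (nat_lit 0x2dca000060100056e500001808002b7240000004000800200920008b30682))))) 
(.nd (nat_lit 23) 
(.lf (nat_lit 3492577327) (dlOf (nat_lit 2) (nat_lit 0x20070001440800880080010002000c00080e0683))) 
(.lf (nat_lit 11305007) (dlOf (nat_lit 1) (nat_lit 0x24004000c0018690682))))) (.nd (nat_lit 6) 
(.nd (nat_lit 11) (.nd (nat_lit 17) 
(.lf (nat_lit 1345094831) (dlOf (nat_lit 5) (nat_lit 0x1b05a400a02cc006c01d000290300500b4803585a0020c2ce00ea166008805e802d0074032c0380004b0e0050169000198100170b48000c00825c00080014002000600089e2c03))) 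
(.lf (nat_lit 34505903) (dlOf (nat_lit 2) (nat_lit 0x896660004b0200020018fb2c01)))) 
(.nd (nat_lit 7) (.lf (nat_lit 537693231) (dlOf (nat_lit 1) (nat_lit 0x1c00280f6081))) 
(.lf (nat_lit 537693871) (dlOf (nat_lit 1) (nat_lit 0xe00080070002001e00080f7283))))) 
(.nd (nat_lit 7) (.lf (nat_lit 57574511) (dlOf (nat_lit 1) (nat_lit 0x40019792a01))) 
(.lf (nat_lit 5772182767) (dlOf (nat_lit 1) (nat_lit 0x18008000400200040008092e83))))))) 
(.nd (nat_lit 28) (.nd (nat_lit 29) (.nd (nat_lit 17) (.nd (nat_lit 6) 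
(.lf (nat_lit 69502127) (dlOf (nat_lit 2) (nat_lit 0x10b0000174080020008001c00200040008a82c03))) 
(.lf (nat_lit 2349105263) (dlOf (nat_lit 1) (nat_lit 0x18004000200080a1582)))) (.nd (nat_lit 9) 
(.lf (nat_lit 68583471) (dlOf (nat_lit 1) (nat_lit 0x100080004002000400085e0803))) 
(.lf (nat_lit 201753135) (dlOf (nat_lit 2) (nat_lit 0x21a03100000018090e80))))) (.nd (nat_lit 9) 
(.nd (nat_lit 6) (.nd (nat_lit 19) 
(.lf (nat_lit 3825500207) (dlOf (nat_lit 1) (nat_lit 0x20028170c81))) 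
(.lf (nat_lit 2754379823) (dlOf (nat_lit 2) (nat_lit 0x20070001440800880080010002000c00080e0683)))) 
(.lf (nat_lit 2755952751) (dlOf (nat_lit 1) (nat_lit 0x200080010002000800081c1583)))) 
(.nd (nat_lit 10) 
(.lf (nat_lit 3959718447) (dlOf (nat_lit 1) (nat_lit 0x18008024800200c00008128b03))) 
(.lf (nat_lit 2754907695) (dlOf (nat_lit 2) (nat_lit 0x13e0a50002a0180f7180)))))) (.nd (nat_lit 29) 
(.nd (nat_lit 6) 
(.lf (nat_lit 3557195823) (dlOf (nat_lit 1) (nat_lit 0x40008001c00200040008160d03))) 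
(.nd (nat_lit 10) (.nd (nat_lit 27) 
(.lf (nat_lit 2483322991) (dlOf (nat_lit 1) (nat_lit 0x18004000200080a1582))) 
(.lf (nat_lit 5838766191) (dlOf (nat_lit 1) (nat_lit 0x80080004002000200081b0003)))) 
(.lf (nat_lit 3557069935) (dlOf (nat_lit 1) (nat_lit 0x9400200100008129402))))) (.nd (nat_lit 27) 
(.nd (nat_lit 7) (.nd (nat_lit 31) 
(.lf (nat_lit 5167677487) (dlOf (nat_lit 1) (nat_lit 0x150008003c00200960008100383))) 
(.lf (nat_lit 3020193839) (dlOf (nat_lit 2) (nat_lit 0x19006200720250005f028150480)))) 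
(.lf (nat_lit 6241419439) (dlOf (nat_lit 1) (nat_lit 0x200280e2d81)))) (.nd (nat_lit 9) 
(.lf (nat_lit 1006927919) (dlOf (nat_lit 1) (nat_lit 0x480080044002005a00080e0a03))) 
(.lf (nat_lit 6375769647) (dlOf (nat_lit 1) (nat_lit 0x2000400080008003782)))))))) (.nd (nat_lit 7) 
(.nd (nat_lit 29) (.nd (nat_lit 17) (.nd (nat_lit 19) (.nd (nat_lit 6) (.nd (nat_lit 26) 
(.lf (nat_lit 3221520687) (dlOf (nat_lit 1) (nat_lit 0x1c0008124901))) 
(.lf (nat_lit 4362371375) (dlOf (nat_lit 1) (nat_lit 0x2000200020008048402)))) 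
(.lf (nat_lit 3288629615) (dlOf (nat_lit 2) (nat_lit 0x1403400120190060ec100198008000c00200580008090783)))) 
(.nd (nat_lit 9) (.lf (nat_lit 50103599) (dlOf (nat_lit 1) (nat_lit 0x4e00294c3201))) 
(.lf (nat_lit 46959407) (dlOf (nat_lit 1) (nat_lit 0x80029385c01))))) (.nd (nat_lit 6) 
(.nd (nat_lit 11) (.lf (nat_lit 20353839) (dlOf (nat_lit 1) (nat_lit 0x1c00189d8f81))) 
(.lf (nat_lit 60197679) (dlOf (nat_lit 1) (nat_lit 0x800400020009845c02)))) (.nd (nat_lit 10) 
(.nd (nat_lit 19) 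
(.lf (nat_lit 21397871) (dlOf (nat_lit 1) (nat_lit 0x7800800c0002002e0008a35803))) 
(.lf (nat_lit 3491660143) (dlOf (nat_lit 1) (nat_lit 0x2800400180008090782)))) 
(.lf (nat_lit 19828079) (dlOf (nat_lit 1) (nat_lit 0x400289d6b01)))))) (.nd (nat_lit 9) 
(.nd (nat_lit 26) (.nd (nat_lit 6) 
(.lf (nat_lit 537166127) (dlOf (nat_lit 2) (nat_lit 0x1302f8012580800b8008008c00200180008048403))) 
(.lf (nat_lit 4026827119) (dlOf (nat_lit 2) (nat_lit 0x180b4019dc040030004000a0008090782)))) 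
(.nd (nat_lit 20) (.lf (nat_lit 3959718191) (dlOf (nat_lit 1) (nat_lit 0x1c0008124901))) 
(.lf (nat_lit 2752807215) (dlOf (nat_lit 2) (nat_lit 0x20220025e818048400))))) (.nd (nat_lit 10) 
(.nd (nat_lit 26) (.lf (nat_lit 5100571439) (dlOf (nat_lit 1) (nat_lit 0x400180d5c01))) 
(.lf (nat_lit 4899244847) (dlOf (nat_lit 1) (nat_lit 0x4002000200080d5c02)))) 
(.lf (nat_lit 2751891247) (dlOf (nat_lit 1) (nat_lit 0x1a000400940008003d82)))))) (.nd (nat_lit 6) 
(.nd (nat_lit 30) (.nd (nat_lit 10) (.nd (nat_lit 11) (.nd (nat_lit 26) 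
(.lf (nat_lit 805732783) (dlOf (nat_lit 4) (nat_lit 0x7b02b0031804c010ca0801240ac0086402009c056000c00980218c100028008001c002000800081a0783))) 
(.lf (nat_lit 4362502575) (dlOf (nat_lit 1) (nat_lit 0x8008000400200020008090783)))) 
(.lf (nat_lit 20351407) (dlOf (nat_lit 1) (nat_lit 0x80080004002000200089d4e83)))) 
(.nd (nat_lit 17) (.lf (nat_lit 8160687) (dlOf (nat_lit 1) (nat_lit 0x400200020008513602))) 
(.lf (nat_lit 8291759) (dlOf (nat_lit 1) (nat_lit 0x400200020008513602))))) (.nd (nat_lit 11) 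
(.nd (nat_lit 26) 
(.lf (nat_lit 3221651887) (dlOf (nat_lit 4) (nat_lit 0x140118006808a008650400300460043201000a02300218c0800300080060002001a0008170783))) 
(.nd (nat_lit 27) (.lf (nat_lit 1678148015) (dlOf (nat_lit 1) (nat_lit 0xa00181a0781))) 
(.lf (nat_lit 3959849391) (dlOf (nat_lit 4) (nat_lit 0x920230038b808005811801c4c04003008a00e240200080028170781))))) 
(.nd (nat_lit 20) (.lf (nat_lit 1141148079) (dlOf (nat_lit 1) (nat_lit 0x1c0018124e81))) 
(.lf (nat_lit 1345620399) (dlOf (nat_lit 1) (nat_lit 0x20008d74e81)))))) (.nd (nat_lit 9) 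
(.nd (nat_lit 11) (.nd (nat_lit 17) 
(.lf (nat_lit 23364079) (dlOf (nat_lit 3) (nat_lit 0x24da0c00462040084000001510200320018b80d81))) 
(.nd (nat_lit 26) 
(.lf (nat_lit 134644207) (dlOf (nat_lit 5) (nat_lit 0x690178008a808019012801b005e0022604006204a0010f8100450250007c80800d800800b800200da0008090d83))) 
(.lf (nat_lit 201753071) (dlOf (nat_lit 5) (nat_lit 0x690178008a808019012801b005e0022604006204a001118100450250007cc0800d800800b800200da0008090d83))))) 
(.nd (nat_lit 12) (.nd (nat_lit 20) 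
(.lf (nat_lit 38570479) (dlOf (nat_lit 1) (nat_lit 0x400200020009134f02))) 
(.lf (nat_lit 33327599) (dlOf (nat_lit 1) (nat_lit 0x220018f54f01)))) 
(.lf (nat_lit 8165871) (dlOf (nat_lit 1) (nat_lit 0x4001851b281))))) (.nd (nat_lit 22) 
(.nd (nat_lit 26) (.lf (nat_lit 5100571631) (dlOf (nat_lit 1) (nat_lit 0xa00280d5f01))) 
(.lf (nat_lit 4899245039) (dlOf (nat_lit 1) (nat_lit 0x4004000200080d5f02)))) (.nd (nat_lit 17) 
(.lf (nat_lit 46959599) (dlOf (nat_lit 1) (nat_lit 0x20029385f01))) 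
(.lf (nat_lit 46566383) (dlOf (nat_lit 1) (nat_lit 0x40019385f01))))))))) (.nd (nat_lit 29) 
(.nd (nat_lit 20) (.nd (nat_lit 28) (.nd (nat_lit 8) (.nd (nat_lit 6) (.nd (nat_lit 22) 
(.lf (nat_lit 44343343) (dlOf (nat_lit 6) (nat_lit 0x298f8001c6040008c7c00066270003d82000531f0002989c000f4080010c7c00086270003c82000631f0004989c000f008002c004006000092f0d02))) 
(.lf (nat_lit 6594607) (dlOf (nat_lit 1) (nat_lit 0xc00200060008430e82)))) (.nd (nat_lit 19) 
(.nd (nat_lit 27) (.lf (nat_lit 3221659759) (dlOf (nat_lit 1) (nat_lit 0x20018170001))) 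
(.lf (nat_lit 134652015) (dlOf (nat_lit 1) (nat_lit 0x400400020008090002)))) 
(.lf (nat_lit 53387375) (dlOf (nat_lit 1) (nat_lit 0xe00295b0c81))))) (.nd (nat_lit 9) 
(.nd (nat_lit 6) 
(.lf (nat_lit 4362510767) (dlOf (nat_lit 1) (nat_lit 0x18008000400200020008090783))) 
(.nd (nat_lit 7) (.lf (nat_lit 2400623) (dlOf (nat_lit 1) (nat_lit 0x200018150781))) 
(.lf (nat_lit 1074045423) (dlOf (nat_lit 4) (nat_lit 0x5c052002370200300290011501001b01480089808012000800b4002003c0008090d83))))) 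
(.nd (nat_lit 6) (.lf (nat_lit 46967599) (dlOf (nat_lit 1) (nat_lit 0x800400040009385c02))) 
(.nd (nat_lit 19) (.lf (nat_lit 54832111) (dlOf (nat_lit 1) (nat_lit 0x60009655f01))) 
(.lf (nat_lit 46967791) (dlOf (nat_lit 1) (nat_lit 0x20009385f01))))))) (.nd (nat_lit 17) 
(.nd (nat_lit 30) (.nd (nat_lit 26) (.nd (nat_lit 27) 
(.lf (nat_lit 6711189551) (dlOf (nat_lit 1) (nat_lit 0x4004000200080b0482))) 
(.lf (nat_lit 402956335) (dlOf (nat_lit 3) (nat_lit 0x3c00d0011b81002701200128038003e6080010004000400080b0482)))) 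
(.lf (nat_lit 335847471) (dlOf (nat_lit 3) (nat_lit 0x3c00d0011b81002701300128038003e4080010004000400080b0482)))) 
(.nd (nat_lit 7) (.nd (nat_lit 8) 
(.lf (nat_lit 3492585519) (dlOf (nat_lit 2) (nat_lit 0x41fb0002b0180e0680))) 
(.lf (nat_lit 1543807279) (dlOf (nat_lit 1) (nat_lit 0x130008017800200920008187a03)))) 
(.lf (nat_lit 1344578735) (dlOf (nat_lit 1) (nat_lit 0x240018862c01))))) (.nd (nat_lit 19) 
(.nd (nat_lit 6) (.lf (nat_lit 3557204015) (dlOf (nat_lit 1) (nat_lit 0x3c00400160008160d02))) 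
(.lf (nat_lit 1409720815) (dlOf (nat_lit 1) (nat_lit 0x8008000400200020008090d83)))) 
(.nd (nat_lit 9) (.lf (nat_lit 5772321839) (dlOf (nat_lit 1) (nat_lit 0x14004002a0008092882))) 
(.lf (nat_lit 3490619951) (dlOf (nat_lit 2) (nat_lit 0x1608b00000018018000))))))) (.nd (nat_lit 8) 
(.nd (nat_lit 17) (.nd (nat_lit 21) (.nd (nat_lit 19) 
(.lf (nat_lit 22323247) (dlOf (nat_lit 2) (nat_lit 0x214500020018ac0600))) 
(.lf (nat_lit 5773238319) (dlOf (nat_lit 1) (nat_lit 0x200080b0481)))) (.nd (nat_lit 6) 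
(.lf (nat_lit 7643183) (dlOf (nat_lit 1) (nat_lit 0xc002000600084c0e82))) 
(.lf (nat_lit 62169199) (dlOf (nat_lit 6) (nat_lit 0x94b60002a5900055278004a8e80021450000060a0006a5b000652c8003a93c001d474000ea280000285000a52d80062944000d49e0014a3a000751400001028003a96c00054b20022a51000951d000428a0000061400114b60002a5900125288000001805f800801ec002000c0009960c83))))) 
(.nd (nat_lit 9) (.nd (nat_lit 6) (.nd (nat_lit 23) 
(.lf (nat_lit 22454319) (dlOf (nat_lit 1) (nat_lit 0x100008ae0601))) 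
(.lf (nat_lit 30842927) (dlOf (nat_lit 2) (nat_lit 0x3f6140001c040064004001a0018e50b82)))) 
(.lf (nat_lit 45523055) (dlOf (nat_lit 2) (nat_lit 0x119f80005004000800200040009331d02)))) 
(.nd (nat_lit 10) 
(.lf (nat_lit 60205615) (dlOf (nat_lit 1) (nat_lit 0x20008002400200100009845183))) 
(.lf (nat_lit 20360751) (dlOf (nat_lit 1) (nat_lit 0xc00089d7181)))))) (.nd (nat_lit 6) 
(.nd (nat_lit 7) (.lf (nat_lit 8174895) (dlOf (nat_lit 1) (nat_lit 0x5000800080020004000851c703))) 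
(.nd (nat_lit 10) (.lf (nat_lit 39102895) (dlOf (nat_lit 1) (nat_lit 0x80019194e81))) 
(.lf (nat_lit 8299951) (dlOf (nat_lit 1) (nat_lit 0x400200020008513602))))) (.nd (nat_lit 11) 
(.nd (nat_lit 7) (.lf (nat_lit 3491668335) (dlOf (nat_lit 1) (nat_lit 0x400200040008090782))) 
(.lf (nat_lit 50111471) (dlOf (nat_lit 1) (nat_lit 0x200094c2881)))) (.nd (nat_lit 17) 
(.nd (nat_lit 19) (.lf (nat_lit 473213423) (dlOf (nat_lit 1) (nat_lit 0x300028dd4f01))) 
(.lf (nat_lit 33335791) (dlOf (nat_lit 1) (nat_lit 0x60028f54f01)))) 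
(.lf (nat_lit 473344495) (dlOf (nat_lit 1) (nat_lit 0x180008ef4f01)))))))) (.nd (nat_lit 27) 
(.nd (nat_lit 17) (.nd (nat_lit 31) (.nd (nat_lit 8) (.nd (nat_lit 9) 
(.lf (nat_lit 5167685679) (dlOf (nat_lit 8) (nat_lit 0x200500006204000801c005e00d00050020000ac1801f80500180008000280400b4014004500200009c1002180500004a04012002800024020022014000f00200004c1000580080064002000c0008100383))) 
(.lf (nat_lit 537701935) (dlOf (nat_lit 1) (nat_lit 0x24002000200080f7182)))) (.nd (nat_lit 6) 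
(.lf (nat_lit 4899253039) (dlOf (nat_lit 1) (nat_lit 0x4004000200080d5c02))) 
(.lf (nat_lit 1946460655) (dlOf (nat_lit 4) (nat_lit 0x5c052002370200300290011501001b01480089808012000800b4002003c0008090d83))))) 
(.nd (nat_lit 30) (.nd (nat_lit 6) 
(.lf (nat_lit 2754388015) (dlOf (nat_lit 2) (nat_lit 0x42100002b0180e0680))) 
(.lf (nat_lit 2751767535) (dlOf (nat_lit 1) (nat_lit 0xc00200020008002882)))) (.nd (nat_lit 26) 
(.lf (nat_lit 3758399535) (dlOf (nat_lit 2) (nat_lit 0x19006200720250005e828170480))) 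
(.lf (nat_lit 3825508399) (dlOf (nat_lit 1) (nat_lit 0x1400200080008170c82)))))) (.nd (nat_lit 9) 
(.nd (nat_lit 7) (.nd (nat_lit 8) 
(.lf (nat_lit 805740655) (dlOf (nat_lit 1) (nat_lit 0x600080014002000e00081a0003))) 
(.lf (nat_lit 1611047279) (dlOf (nat_lit 6) (nat_lit 0x900280156c08016801400ab004001c00a00557020014005002aa81000202d0015140800080080264002001600080c5803)))) 
(.nd (nat_lit 6) (.lf (nat_lit 872851887) (dlOf (nat_lit 1) (nat_lit 0x4004000200080e4e82))) 
(.lf (nat_lit 537305583) (dlOf (nat_lit 1) (nat_lit 0x8008000400200020008090d83))))) 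
(.nd (nat_lit 10) (.nd (nat_lit 11) 
(.lf (nat_lit 2752422447) (dlOf (nat_lit 1) (nat_lit 0x560028018b01))) 
(.lf (nat_lit 604416559) (dlOf (nat_lit 1) (nat_lit 0x4400400040018205182)))) (.nd (nat_lit 7) 
(.lf (nat_lit 4096173615) (dlOf (nat_lit 1) (nat_lit 0x14004000c00080e3782))) 
(.lf (nat_lit 4026969775) (dlOf (nat_lit 1) (nat_lit 0x800180f7281))))))) (.nd (nat_lit 8) 
(.nd (nat_lit 26) (.nd (nat_lit 17) 
(.lf (nat_lit 3087310895) (dlOf (nat_lit 1) (nat_lit 0x1400200080008170c82))) (.nd (nat_lit 30) 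
(.lf (nat_lit 2819006511) (dlOf (nat_lit 9) (nat_lit 0x6600e4001e6020148072000f10102950390007340800a81c8032c07e000a10406d4072011b01f8001f81015d81c8048007e0002a0403e40720000c01020003900005c0800e8008008800200180008150483))) 
(.lf (nat_lit 3892748335) (dlOf (nat_lit 2) (nat_lit 0x2008c0005c04002c00400100018220902))))) 
(.nd (nat_lit 9) (.nd (nat_lit 19) 
(.lf (nat_lit 6107209775) (dlOf (nat_lit 1) (nat_lit 0x4004000200080b0482))) 
(.lf (nat_lit 6377218095) (dlOf (nat_lit 1) (nat_lit 0x200080b0481)))) (.nd (nat_lit 11) 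
(.lf (nat_lit 3959726639) (dlOf (nat_lit 7) (nat_lit 0x801c009ad02000200e004d60100020070026a40803480380135004002c01c009a002016e00e004cf018128b00))) 
(.lf (nat_lit 738503215) (dlOf (nat_lit 1) (nat_lit 0x40028095181)))))) (.nd (nat_lit 6) 
(.nd (nat_lit 17) (.nd (nat_lit 7) 
(.lf (nat_lit 671392047) (dlOf (nat_lit 2) (nat_lit 0x7802c0047013000f008c01fc03a00a2018004d00800298020016400a0086002003600000131c5000100080158002001a0008188403))) 
(.lf (nat_lit 1009035695) (dlOf (nat_lit 1) (nat_lit 0x400400020009004e82)))) (.nd (nat_lit 21) 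
(.lf (nat_lit 1745267119) (dlOf (nat_lit 1) (nat_lit 0x4004000200080e4e82))) 
(.lf (nat_lit 6377875887) (dlOf (nat_lit 1) (nat_lit 0x4004000200080e4e82))))) (.nd (nat_lit 7) 
(.nd (nat_lit 17) (.lf (nat_lit 4228686191) (dlOf (nat_lit 1) (nat_lit 0x1400081a0781))) 
(.lf (nat_lit 738632047) (dlOf (nat_lit 6) (nat_lit 0x9002802c100801680140160204001c00a00b000200140050057f01000202d002bb80800080080264002001600080c5803)))) 
(.lf (nat_lit 738503663) (dlOf (nat_lit 1) (nat_lit 0x40028095f01)))))))))) (.nd (nat_lit 13) 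
(.nd (nat_lit 17) (.nd (nat_lit 18) (.nd (nat_lit 6) (.nd (nat_lit 20) (.nd (nat_lit 27) 
(.nd (nat_lit 8) (.nd (nat_lit 9) (.nd (nat_lit 19) 
(.lf (nat_lit 1140949039) (dlOf (nat_lit 2) (nat_lit 0x50130001f80800580080080002000e0008020483))) 
(.lf (nat_lit 3492380719) (dlOf (nat_lit 1) (nat_lit 0x1400080c0e81)))) 
(.lf (nat_lit 69306927) (dlOf (nat_lit 2) (nat_lit 0x804600011804002c00400040008905182)))) 
(.nd (nat_lit 9) (.lf (nat_lit 2952888623) (dlOf (nat_lit 1) (nat_lit 0x20008010701))) 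
(.nd (nat_lit 10) (.lf (nat_lit 5637245743) (dlOf (nat_lit 1) (nat_lit 0x40018055c01))) 
(.lf (nat_lit 6442551087) (dlOf (nat_lit 1) (nat_lit 0x4004000200080f3d82)))))) (.nd (nat_lit 26) 
(.nd (nat_lit 19) (.nd (nat_lit 28) 
(.lf (nat_lit 6576767023) (dlOf (nat_lit 2) (nat_lit 0xa00d00020000023a8100058008001c002000a00080d0a03))) 
(.lf (nat_lit 2013364271) (dlOf (nat_lit 2) (nat_lit 0x50130001f80800580080080002000e0008020483)))) 
(.lf (nat_lit 3892936751) (dlOf (nat_lit 5) (nat_lit 0x1203700100100008007c0044032001c01800007050017010000b80640001808003406e0044020002200f8011006400800300000a0a000402100120100009007c004c032002001800020048000003000380080008002001800082a0b83)))) 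
(.nd (nat_lit 7) (.lf (nat_lit 3959521327) (dlOf (nat_lit 1) (nat_lit 0x400200020008090002))) 
(.lf (nat_lit 5838572975) (dlOf (nat_lit 1) (nat_lit 0x80080004002000200080f6d03)))))) 
(.nd (nat_lit 19) (.nd (nat_lit 21) (.nd (nat_lit 22) (.nd (nat_lit 26) 
(.lf (nat_lit 3490807855) (dlOf (nat_lit 3) (nat_lit 0x1340f68087056005d02ae0002006031c1ed01120ac00006c100138008004800200b00008020583))) 
(.lf (nat_lit 2752610351) (dlOf (nat_lit 3) (nat_lit 0x1340ff8087057405d02b80002006031c1ff01120ae80006c100138008004800200b00008020583)))) 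
(.lf (nat_lit 5341231) (dlOf (nat_lit 1) (nat_lit 0x400200020008350902)))) (.nd (nat_lit 8) 
(.lf (nat_lit 2754711087) (dlOf (nat_lit 2) (nat_lit 0x88074000a8040010002000600080f7182))) 
(.lf (nat_lit 3244335) (dlOf (nat_lit 1) (nat_lit 0xa80080020002000e0008200503))))) 
(.nd (nat_lit 7) (.nd (nat_lit 9) (.nd (nat_lit 21) 
(.lf (nat_lit 26837039) (dlOf (nat_lit 2) (nat_lit 0xd4fe00006c0800100080014002000e0008c80703))) 
(.lf (nat_lit 28934191) (dlOf (nat_lit 1) (nat_lit 0x40018da0001)))) 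
(.lf (nat_lit 60394031) (dlOf (nat_lit 1) (nat_lit 0x20009845181)))) (.nd (nat_lit 11) 
(.lf (nat_lit 2753135023) (dlOf (nat_lit 5) (nat_lit 0x3e0fc803a880800b07e401d340400403f200e980200841f90074b818090780))) 
(.lf (nat_lit 39422383) (dlOf (nat_lit 1) (nat_lit 0x20019194e81))))))) (.nd (nat_lit 8) 
(.nd (nat_lit 7) (.nd (nat_lit 19) (.nd (nat_lit 20) (.nd (nat_lit 11) 
(.lf (nat_lit 335642735) (dlOf (nat_lit 1) (nat_lit 0x24004000c0008090182))) 
(.lf (nat_lit 100463) (dlOf (nat_lit 1) (nat_lit 0x20018004781)))) (.nd (nat_lit 23) 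
(.lf (nat_lit 38895727) (dlOf (nat_lit 1) (nat_lit 0x400400020009182482))) 
(.lf (nat_lit 47284335) (dlOf (nat_lit 5) (nat_lit 0x2bbc00065d200032d100000c0c000d7a6000cba400045a200001418001af4c00057780010ba400085a2000010200022e9000116880000304000800093c0c81))))) 
(.nd (nat_lit 20) (.nd (nat_lit 26) 
(.lf (nat_lit 537493615) (dlOf (nat_lit 1) (nat_lit 0x4004000200080a1582))) 
(.lf (nat_lit 1409908847) (dlOf (nat_lit 1) (nat_lit 0x4004000200080a1582)))) (.nd (nat_lit 11) 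
(.lf (nat_lit 45711471) (dlOf (nat_lit 1) (nat_lit 0x8008000400200020009352483))) 
(.lf (nat_lit 7968879) (dlOf (nat_lit 1) (nat_lit 0x26001851a881)))))) (.nd (nat_lit 26) 
(.nd (nat_lit 9) (.lf (nat_lit 2684453103) (dlOf (nat_lit 1) (nat_lit 0x80028014501))) 
(.lf (nat_lit 39946991) (dlOf (nat_lit 1) (nat_lit 0x1800191f5a01)))) (.nd (nat_lit 10) 
(.lf (nat_lit 335642863) (dlOf (nat_lit 1) (nat_lit 0x8400200240008090a82))) 
(.lf (nat_lit 2080474351) (dlOf (nat_lit 1) (nat_lit 0x400200020008092e82)))))) (.nd (nat_lit 9) 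
(.nd (nat_lit 20) (.nd (nat_lit 28) (.nd (nat_lit 12) 
(.lf (nat_lit 37849583) (dlOf (nat_lit 1) (nat_lit 0x800190d4f01))) 
(.lf (nat_lit 6442555887) (dlOf (nat_lit 1) (nat_lit 0x80080014002000200080fb283)))) 
(.nd (nat_lit 7) 
(.lf (nat_lit 1476493679) (dlOf (nat_lit 1) (nat_lit 0x8008000400200020008010a03))) 
(.lf (nat_lit 3556870639) (dlOf (nat_lit 1) (nat_lit 0x1200280d4f01))))) (.nd (nat_lit 19) 
(.nd (nat_lit 7) (.lf (nat_lit 43090287) (dlOf (nat_lit 1) (nat_lit 0x5200092a0f81))) 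
(.lf (nat_lit 11633135) (dlOf (nat_lit 1) (nat_lit 0x80080004002000200086c0d83)))) 
(.nd (nat_lit 26) 
(.lf (nat_lit 3491332591) (dlOf (nat_lit 4) (nat_lit 0x408468002370201f82340011501010811a0008980804c0008032c00200300008090d83))) 
(.lf (nat_lit 2753135087) (dlOf (nat_lit 4) (nat_lit 0x408498002370201f824c001150101081260008980804c0008032c00200300008090d83)))))) 
(.nd (nat_lit 11) (.nd (nat_lit 10) (.nd (nat_lit 19) 
(.lf (nat_lit 939623407) (dlOf (nat_lit 1) (nat_lit 0x20018142881))) 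
(.lf (nat_lit 1611236335) (dlOf (nat_lit 1) (nat_lit 0x60008122881)))) 
(.lf (nat_lit 6442551279) (dlOf (nat_lit 2) (nat_lit 0x3c01a001780c8006c062005602f00290120000c82801c80080110002001400080f4603)))) 
(.nd (nat_lit 20) (.nd (nat_lit 22) 
(.lf (nat_lit 5637245935) (dlOf (nat_lit 1) (nat_lit 0x8008000400200020008055f03))) 
(.lf (nat_lit 54627311) (dlOf (nat_lit 1) (nat_lit 0xc00400020019655f02)))) 
(.lf (nat_lit 59870191) (dlOf (nat_lit 1) (nat_lit 0x300019845f01)))))))) (.nd (nat_lit 19) 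
(.nd (nat_lit 28) (.nd (nat_lit 23) (.nd (nat_lit 26) (.nd (nat_lit 21) (.nd (nat_lit 29) 
(.lf (nat_lit 3221585967) (dlOf (nat_lit 7) (nat_lit 0x740470001701001f0238000b008004013c004408e0000c0400f60320000401008701900000c08019011c018408c00d402f0009017001f80500000014002c00200560008150902))) 
(.lf (nat_lit 537231407) (dlOf (nat_lit 1) (nat_lit 0x80028060601)))) (.nd (nat_lit 6) 
(.lf (nat_lit 36014639) (dlOf (nat_lit 1) (nat_lit 0x40019015181))) 
(.lf (nat_lit 2457711) (dlOf (nat_lit 1) (nat_lit 0x2c0008161581))))) (.nd (nat_lit 30) 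
(.nd (nat_lit 9) 
(.lf (nat_lit 4899307567) (dlOf (nat_lit 2) (nat_lit 0x17805e0002e02001a0008100381))) 
(.lf (nat_lit 2754973231) (dlOf (nat_lit 1) (nat_lit 0x10008000c002000800080f7183)))) 
(.nd (nat_lit 27) 
(.lf (nat_lit 3288694831) (dlOf (nat_lit 1) (nat_lit 0x400080030002000400080c0e83))) 
(.lf (nat_lit 3959783471) (dlOf (nat_lit 3) (nat_lit 0xa0238000dc0801a00bc00a4028000000400140008150881)))))) 
(.nd (nat_lit 21) (.nd (nat_lit 11) (.nd (nat_lit 9) 
(.lf (nat_lit 9797679) (dlOf (nat_lit 2) (nat_lit 0x24eac0002b0200020028580381))) 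
(.lf (nat_lit 8749615) (dlOf (nat_lit 1) (nat_lit 0x20028511481)))) (.nd (nat_lit 6) 
(.lf (nat_lit 59083183) (dlOf (nat_lit 1) (nat_lit 0x8004000200097e4e82))) 
(.lf (nat_lit 8756335) (dlOf (nat_lit 1) (nat_lit 0x4002851c101))))) (.nd (nat_lit 20) 
(.nd (nat_lit 22) (.lf (nat_lit 27623471) (dlOf (nat_lit 1) (nat_lit 0x20018d00901))) 
(.lf (nat_lit 15040559) (dlOf (nat_lit 1) (nat_lit 0x80080004002000200087b0903)))) (.nd (nat_lit 9) 
(.lf (nat_lit 62226479) (dlOf (nat_lit 1) (nat_lit 0x400400020009980a82))) 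
(.lf (nat_lit 45451823) (dlOf (nat_lit 2) (nat_lit 0x2432d80011804000800400220019325182))))))) 
(.nd (nat_lit 26) (.nd (nat_lit 27) (.nd (nat_lit 6) (.nd (nat_lit 30) 
(.lf (nat_lit 4563763247) (dlOf (nat_lit 2) (nat_lit 0x6006a02e602900850138000801802300080280002014400080d0383))) 
(.lf (nat_lit 5637505071) (dlOf (nat_lit 1) (nat_lit 0x800200020008100382)))) 
(.lf (nat_lit 5637505135) (dlOf (nat_lit 1) (nat_lit 0xc0008100c81)))) (.nd (nat_lit 29) 
(.lf (nat_lit 4697980975) (dlOf (nat_lit 2) (nat_lit 0x6006a02e602900850138000801802300080280002014400080d0383))) 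
(.lf (nat_lit 5234851887) (dlOf (nat_lit 6) (nat_lit 0x1800a8000c408052005401cc0260002b0400100150001401000f00a80009c0800200540004a040004004000c0018100382))))) 
(.nd (nat_lit 29) (.nd (nat_lit 27) 
(.lf (nat_lit 1409646639) (dlOf (nat_lit 1) (nat_lit 0x80028060601))) 
(.lf (nat_lit 2617606191) (dlOf (nat_lit 1) (nat_lit 0x20028100d81)))) (.nd (nat_lit 6) 
(.nd (nat_lit 32) (.lf (nat_lit 1946517551) (dlOf (nat_lit 1) (nat_lit 0x1c00400100018090002))) 
(.lf (nat_lit 6241484847) (dlOf (nat_lit 1) (nat_lit 0x800200020008100382)))) 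
(.lf (nat_lit 6241484911) (dlOf (nat_lit 1) (nat_lit 0xc0008100c81))))))) (.nd (nat_lit 21) 
(.nd (nat_lit 7) (.nd (nat_lit 20) (.nd (nat_lit 9) (.nd (nat_lit 22) 
(.lf (nat_lit 884783) (dlOf (nat_lit 1) (nat_lit 0x800400020018030c82))) 
(.lf (nat_lit 21856303) (dlOf (nat_lit 2) (nat_lit 0x12eab400029018a70580)))) 
(.lf (nat_lit 38636079) (dlOf (nat_lit 2) (nat_lit 0x18e800008c0200020009135181)))) 
(.nd (nat_lit 24) (.lf (nat_lit 10321967) (dlOf (nat_lit 1) (nat_lit 0x200185d0701))) 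
(.lf (nat_lit 27099183) (dlOf (nat_lit 7) (nat_lit 0x1efb0a0008e8a00cf0000000f818002f6140278000000370400c60000001b01008f0000000d40801d0000000680402a00000000002006e0018ca0701))))) 
(.nd (nat_lit 10) 
(.lf (nat_lit 1007524015) (dlOf (nat_lit 1) (nat_lit 0x80080004002000200083da883))) 
(.lf (nat_lit 34440367) (dlOf (nat_lit 2) (nat_lit 0x39862001099700025828fb2c00))))) 
(.nd (nat_lit 6) (.nd (nat_lit 11) (.nd (nat_lit 20) 
(.lf (nat_lit 11370543) (dlOf (nat_lit 1) (nat_lit 0x40018690681))) 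
(.lf (nat_lit 16613423) (dlOf (nat_lit 1) (nat_lit 0x400188c0801)))) (.nd (nat_lit 7) 
(.lf (nat_lit 36538927) (dlOf (nat_lit 1) (nat_lit 0x40019075181))) 
(.lf (nat_lit 19765679) (dlOf (nat_lit 1) (nat_lit 0x1600289daf81))))) (.nd (nat_lit 7) 
(.lf (nat_lit 54364783) (dlOf (nat_lit 1) (nat_lit 0x20019655381))) (.nd (nat_lit 9) 
(.lf (nat_lit 45973743) (dlOf (nat_lit 1) (nat_lit 0xa40029380a81))) 
(.lf (nat_lit 19763951) (dlOf (nat_lit 2) (nat_lit 0xd53e0001f02000200189d8e81))))))))) 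
(.nd (nat_lit 28) (.nd (nat_lit 6) (.nd (nat_lit 18) (.nd (nat_lit 9) (.nd (nat_lit 26) 
(.nd (nat_lit 7) (.nd (nat_lit 19) 
(.lf (nat_lit 134447151) (dlOf (nat_lit 3) (nat_lit 0x82012805f005e0002004020604a017d01780006c1001e000800f800200a80008020583))) 
(.lf (nat_lit 537624623) (dlOf (nat_lit 4) (nat_lit 0x130000001300800980000007404004c0000003702000c00080e0681)))) 
(.nd (nat_lit 10) (.lf (nat_lit 50563503) (dlOf (nat_lit 1) (nat_lit 0x8004000400094c4e82))) 
(.lf (nat_lit 8095151) (dlOf (nat_lit 1) (nat_lit 0x400200020008513602))))) (.nd (nat_lit 27) 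
(.nd (nat_lit 20) (.lf (nat_lit 2755887151) (dlOf (nat_lit 1) (nat_lit 0x34002000600081b0002))) 
(.lf (nat_lit 2752741423) (dlOf (nat_lit 2) (nat_lit 0xc050000074080070008007800200700008030c83)))) 
(.nd (nat_lit 29) 
(.lf (nat_lit 201556015) (dlOf (nat_lit 3) (nat_lit 0x82012805f005e0002004020604a017d01780006c1001e000800f800200a80008020583))) 
(.lf (nat_lit 1812168751) (dlOf (nat_lit 11) (nat_lit 0x1d40000005a0200be0000002c81002e005800180100008e08000c016000420200fa01800ab005801b8010000820c01e40300004002015600b007e002001d00000007e0c00d00000003902010c0180001a81003000000001408003000800e0002005a0008160583)))))) 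
(.nd (nat_lit 32) (.nd (nat_lit 10) (.nd (nat_lit 11) 
(.lf (nat_lit 3288564271) (dlOf (nat_lit 1) (nat_lit 0x400200060008090e82))) 
(.lf (nat_lit 58952239) (dlOf (nat_lit 1) (nat_lit 0x200197e5181)))) 
(.lf (nat_lit 202083887) (dlOf (nat_lit 1) (nat_lit 0x3380080004002000600080f7183)))) 
(.nd (nat_lit 7) (.nd (nat_lit 10) 
(.lf (nat_lit 5436049967) (dlOf (nat_lit 3) (nat_lit 0x24011000af01001000880050c080258008012c00200400008095183))) 
(.lf (nat_lit 4362833455) (dlOf (nat_lit 1) (nat_lit 0x9000400040008117182)))) 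
(.lf (nat_lit 4899179183) (dlOf (nat_lit 1) (nat_lit 0x80080004002000200080d5683)))))) 
(.nd (nat_lit 21) (.nd (nat_lit 19) (.nd (nat_lit 8) (.nd (nat_lit 9) 
(.lf (nat_lit 9928751) (dlOf (nat_lit 1) (nat_lit 0x60018590d01))) 
(.lf (nat_lit 38242863) (dlOf (nat_lit 1) (nat_lit 0x800400040009135182)))) 
(.lf (nat_lit 2886172975) (dlOf (nat_lit 3) (nat_lit 0x5c088001e04300a701f000a00f0003806e00040350025e86001601b8012a0080218008029800200c20008188403)))) 
(.nd (nat_lit 7) (.nd (nat_lit 20) 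
(.lf (nat_lit 13598767) (dlOf (nat_lit 2) (nat_lit 0x33c620000d018730b00))) 
(.lf (nat_lit 14647343) (dlOf (nat_lit 1) (nat_lit 0x9800200720008770482)))) 
(.lf (nat_lit 56591535) (dlOf (nat_lit 1) (nat_lit 0x8008000400200020009732c03))))) 
(.nd (nat_lit 7) (.nd (nat_lit 19) (.nd (nat_lit 22) 
(.lf (nat_lit 27754543) (dlOf (nat_lit 1) (nat_lit 0x10008000400200040008d20903))) 
(.lf (nat_lit 48726063) (dlOf (nat_lit 1) (nat_lit 0xa0019420301)))) (.nd (nat_lit 9) 
(.lf (nat_lit 28278831) (dlOf (nat_lit 2) (nat_lit 0x1a9ac0000004000c002000a0008d80802))) 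
(.lf (nat_lit 8356399) (dlOf (nat_lit 1) (nat_lit 0xa0028511481))))) (.nd (nat_lit 8) 
(.nd (nat_lit 9) (.lf (nat_lit 32474287) (dlOf (nat_lit 1) (nat_lit 0x260018ef2c01))) 
(.lf (nat_lit 19895983) (dlOf (nat_lit 1) (nat_lit 0x4002000200089da002)))) 
(.lf (nat_lit 19893167) (dlOf (nat_lit 1) (nat_lit 0x3e00289d5d01))))))) (.nd (nat_lit 7) 
(.nd (nat_lit 8) (.nd (nat_lit 21) (.nd (nat_lit 9) (.nd (nat_lit 18) 
(.lf (nat_lit 4899176559) (dlOf (nat_lit 1) (nat_lit 0x200280d0181))) 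
(.lf (nat_lit 21463151) (dlOf (nat_lit 1) (nat_lit 0x900008a40c81)))) 
(.lf (nat_lit 4832069231) (dlOf (nat_lit 1) (nat_lit 0x80080008002000200080d3983)))) 
(.nd (nat_lit 10) (.nd (nat_lit 18) 
(.lf (nat_lit 44269679) (dlOf (nat_lit 5) (nat_lit 0x16a48000551d0002a898001d25c0000c100012a48000b51d0006a898002525c0000a10001aa48000f51d000aa898004d25c00008100006a48000d51d0008a898004525c00006100004002000600092e0c82))) 
(.lf (nat_lit 3637359) (dlOf (nat_lit 1) (nat_lit 0x260028211581)))) 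
(.lf (nat_lit 50037871) (dlOf (nat_lit 1) (nat_lit 0xa00294c2a01))))) (.nd (nat_lit 11) 
(.nd (nat_lit 18) (.lf (nat_lit 14385519) (dlOf (nat_lit 1) (nat_lit 0x800200040008750a02))) 
(.nd (nat_lit 19) 
(.lf (nat_lit 201818479) (dlOf (nat_lit 2) (nat_lit 0x801d8033b808018000800e400200180008090783))) 
(.lf (nat_lit 24084847) (dlOf (nat_lit 1) (nat_lit 0x20008b80781))))) (.nd (nat_lit 9) 
(.lf (nat_lit 8100207) (dlOf (nat_lit 1) (nat_lit 0x40040002000851ad02))) 
(.lf (nat_lit 4899179375) (dlOf (nat_lit 1) (nat_lit 0x400280d5c01)))))) (.nd (nat_lit 11) 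
(.nd (nat_lit 8) (.nd (nat_lit 10) 
(.lf (nat_lit 28803311) (dlOf (nat_lit 1) (nat_lit 0x400400020018da0602))) 
(.lf (nat_lit 8094959) (dlOf (nat_lit 1) (nat_lit 0x40018512e81)))) (.nd (nat_lit 10) 
(.nd (nat_lit 19) (.lf (nat_lit 2751693807) (dlOf (nat_lit 1) (nat_lit 0x20008002881))) 
(.lf (nat_lit 36406255) (dlOf (nat_lit 1) (nat_lit 0x800200280009072882)))) 
(.lf (nat_lit 8095727) (dlOf (nat_lit 2) (nat_lit 0x39fb00019018514600))))) (.nd (nat_lit 20) 
(.nd (nat_lit 9) (.nd (nat_lit 12) 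
(.lf (nat_lit 38242799) (dlOf (nat_lit 1) (nat_lit 0x400200020009134f02))) 
(.lf (nat_lit 2751699439) (dlOf (nat_lit 1) (nat_lit 0x2001800b281)))) 
(.lf (nat_lit 54758383) (dlOf (nat_lit 2) (nat_lit 0x226b0000c8080080008007000200020009655f03)))) 
(.nd (nat_lit 12) (.nd (nat_lit 19) 
(.lf (nat_lit 39029231) (dlOf (nat_lit 1) (nat_lit 0x20019194f01))) 
(.lf (nat_lit 33262063) (dlOf (nat_lit 1) (nat_lit 0x40028f54f01)))) 
(.lf (nat_lit 8100335) (dlOf (nat_lit 1) (nat_lit 0x2000851b281)))))))) (.nd (nat_lit 27) 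
(.nd (nat_lit 18) (.nd (nat_lit 31) (.nd (nat_lit 30) (.nd (nat_lit 6) (.nd (nat_lit 7) 
(.lf (nat_lit 805536303) (dlOf (nat_lit 2) (nat_lit 0xd0288000740800c8008005000200100008128003))) 
(.lf (nat_lit 4563632303) (dlOf (nat_lit 1) (nat_lit 0x1200080a2d81)))) 
(.lf (nat_lit 4563632495) (dlOf (nat_lit 1) (nat_lit 0x580080030002001400080a7603)))) 
(.nd (nat_lit 19) 
(.lf (nat_lit 1342406703) (dlOf (nat_lit 16) (nat_lit 0x2d21cd0002a8100ac0e6800150080588734000a60409943a200341cd00050e580c60714039c382000520a01481cd000288100840e68001400805287340009e0402d839a0003702013e1cd0001b0100990e68000d4081158744006c39a02a41c500c00e08000d0200530734000660402b439a000320201421cd000188100a20e68000140806d8008048c00205860008020583))) 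
(.nd (nat_lit 20) 
(.lf (nat_lit 1410039855) (dlOf (nat_lit 4) (nat_lit 0x130000001300800980000007404004c0000003702000c00080e0681))) 
(.lf (nat_lit 1343979567) (dlOf (nat_lit 4) (nat_lit 0x42086000603c000158100128260008410c004a078002103b0001542001082a40006c040020004002a0018390b82)))))) 
(.nd (nat_lit 6) (.nd (nat_lit 9) (.nd (nat_lit 19) 
(.lf (nat_lit 3490938927) (dlOf (nat_lit 2) (nat_lit 0xc050000074080070008007800200700008030c83))) 
(.lf (nat_lit 3557523503) (dlOf (nat_lit 1) (nat_lit 0x1a800801a000200c60008240903)))) 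
(.lf (nat_lit 4026761775) (dlOf (nat_lit 1) (nat_lit 0x400200060008090e82)))) 
(.lf (nat_lit 3489893615) (dlOf (nat_lit 1) (nat_lit 0x660008006501))))) (.nd (nat_lit 7) 
(.nd (nat_lit 19) (.nd (nat_lit 20) (.nd (nat_lit 26) 
(.lf (nat_lit 2416410671) (dlOf (nat_lit 1) (nat_lit 0xa00181b0001))) 
(.lf (nat_lit 3557261359) (dlOf (nat_lit 1) (nat_lit 0x300028190901)))) 
(.lf (nat_lit 3491201071) (dlOf (nat_lit 4) (nat_lit 0x3a0a00000a00800504e0000180401ac2a0000030200180018070901)))) 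
(.nd (nat_lit 9) (.lf (nat_lit 4095705135) (dlOf (nat_lit 1) (nat_lit 0xc00180e0001))) 
(.lf (nat_lit 1346341423) (dlOf (nat_lit 2) (nat_lit 0x2510280008000001180800c000200280008f05182))))) 
(.nd (nat_lit 6) (.nd (nat_lit 11) 
(.lf (nat_lit 1345814959) (dlOf (nat_lit 1) (nat_lit 0x40018e06e81))) 
(.lf (nat_lit 4563896751) (dlOf (nat_lit 1) (nat_lit 0x160018124e81)))) (.nd (nat_lit 8) 
(.lf (nat_lit 1345814767) (dlOf (nat_lit 1) (nat_lit 0x64004000c0018e01e82))) 
(.lf (nat_lit 1342669295) (dlOf (nat_lit 2) (nat_lit 0xa2137001198180c0d80))))))) (.nd (nat_lit 30) 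
(.nd (nat_lit 6) (.nd (nat_lit 18) (.nd (nat_lit 26) 
(.lf (nat_lit 939753519) (dlOf (nat_lit 11) (nat_lit 0x1d40000005a0200be0000002c81002e005800180100008e08000c016000420200fa01800ab005801b8010000820c01e40300004002015600b007e002001d00000007e0c00d00000003902010c0180001a81003000000001408003000800e0002005a0008160583))) 
(.lf (nat_lit 469991471) (dlOf (nat_lit 16) (nat_lit 0x2d21cd0002a8100ac0e6800150080588734000a60409943a200341cd00050e580c60714039c382000520a01481cd000288100840e68001400805287340009e0402d839a0003702013e1cd0001b0100990e68000d4081158744006c39a02a41c500c00e08000d0200530734000660402b439a000320201421cd000188100a20e68000140806d8008048c00205860008020583)))) 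
(.nd (nat_lit 7) (.lf (nat_lit 473923631) (dlOf (nat_lit 1) (nat_lit 0x40008fc0301))) 
(.lf (nat_lit 472876207) (dlOf (nat_lit 1) (nat_lit 0x340028b52c01))))) (.nd (nat_lit 7) 
(.nd (nat_lit 9) (.lf (nat_lit 2550366319) (dlOf (nat_lit 1) (nat_lit 0x140008090001))) 
(.lf (nat_lit 5234722415) (dlOf (nat_lit 1) (nat_lit 0x200080010002000400080d3983)))) 
(.nd (nat_lit 8) (.lf (nat_lit 5234722031) (dlOf (nat_lit 1) (nat_lit 0x2200080d2e81))) 
(.lf (nat_lit 470254063) (dlOf (nat_lit 2) (nat_lit 0xa2137001198180c0d80)))))) (.nd (nat_lit 8) 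
(.nd (nat_lit 9) (.nd (nat_lit 19) 
(.lf (nat_lit 1476624431) (dlOf (nat_lit 9) (nat_lit 0x500780001c0200ee03c005d01c8000681002580f00002e04012407800460390000a02018e01e000800e4000260800980780001102003803c0000801002b01e000080e400000080004002000200080a0702))) 
(.nd (nat_lit 26) 
(.lf (nat_lit 5773164591) (dlOf (nat_lit 1) (nat_lit 0x80080004002000200080b0483))) 
(.lf (nat_lit 6377144367) (dlOf (nat_lit 1) (nat_lit 0x80080004002000200080b0483))))) 
(.nd (nat_lit 6) (.lf (nat_lit 1543733807) (dlOf (nat_lit 2) (nat_lit 0x200500035018158000))) 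
(.lf (nat_lit 4160979695) (dlOf (nat_lit 1) (nat_lit 0x1400180a2101))))) (.nd (nat_lit 6) 
(.nd (nat_lit 7) 
(.lf (nat_lit 3624370479) (dlOf (nat_lit 1) (nat_lit 0x8008002400200600008187a03))) 
(.lf (nat_lit 5771594159) (dlOf (nat_lit 1) (nat_lit 0x60028004e81)))) 
(.lf (nat_lit 3624111471) (dlOf (nat_lit 1) (nat_lit 0xa0008146b01))))))))) (.nd (nat_lit 18) 
(.nd (nat_lit 6) (.nd (nat_lit 19) (.nd (nat_lit 28) (.nd (nat_lit 20) (.nd (nat_lit 30) 
(.nd (nat_lit 24) (.nd (nat_lit 7) (.nd (nat_lit 8) 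
(.lf (nat_lit 6644015663) (dlOf (nat_lit 1) (nat_lit 0x400180b1481))) 
(.lf (nat_lit 4429291823) (dlOf (nat_lit 1) (nat_lit 0x10008000400200060008048403)))) 
(.nd (nat_lit 8) (.lf (nat_lit 35759279) (dlOf (nat_lit 1) (nat_lit 0x20019012c01))) 
(.lf (nat_lit 6576778671) (dlOf (nat_lit 1) (nat_lit 0x400400020008146d02))))) (.nd (nat_lit 9) 
(.nd (nat_lit 21) (.lf (nat_lit 25272367) (dlOf (nat_lit 1) (nat_lit 0x800200020008bf0b02))) 
(.lf (nat_lit 23175215) (dlOf (nat_lit 6) (nat_lit 0x26d83000150100256158000600806435f80002004009dafc000ecbf0000782002565f80003808001000800e400200120008b60903)))) 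
(.lf (nat_lit 58829359) (dlOf (nat_lit 1) (nat_lit 0x400297e5181))))) (.nd (nat_lit 8) 
(.nd (nat_lit 9) (.nd (nat_lit 26) 
(.lf (nat_lit 5905686575) (dlOf (nat_lit 2) (nat_lit 0x4000006550180b0000))) 
(.lf (nat_lit 3959529519) (dlOf (nat_lit 5) (nat_lit 0x1000f00268c0807100980130c04038804c009850201c4026004b8818090000)))) 
(.lf (nat_lit 1073848879) (dlOf (nat_lit 1) (nat_lit 0x160018018b01)))) (.nd (nat_lit 9) 
(.nd (nat_lit 10) (.lf (nat_lit 5905686831) (dlOf (nat_lit 2) (nat_lit 0x264000000378180b0500))) 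
(.lf (nat_lit 1812049199) (dlOf (nat_lit 1) (nat_lit 0x740028146881)))) 
(.lf (nat_lit 5972797231) (dlOf (nat_lit 1) (nat_lit 0x400400020008143d82)))))) (.nd (nat_lit 11) 
(.nd (nat_lit 17) (.nd (nat_lit 22) (.nd (nat_lit 24) 
(.lf (nat_lit 2752618543) (dlOf (nat_lit 2) (nat_lit 0x7e0000000d818020580))) 
(.lf (nat_lit 17932335) (dlOf (nat_lit 1) (nat_lit 0x8008000400200020008900b83)))) 
(.lf (nat_lit 30515247) (dlOf (nat_lit 1) (nat_lit 0x780080004002000c0008e30003)))) 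
(.lf (nat_lit 18063407) (dlOf (nat_lit 2) (nat_lit 0x3e9f80000e0200020018900b81)))) 
(.nd (nat_lit 10) (.nd (nat_lit 7) 
(.lf (nat_lit 36940335) (dlOf (nat_lit 1) (nat_lit 0x20019075181))) 
(.lf (nat_lit 49523119) (dlOf (nat_lit 1) (nat_lit 0x20009464e81)))) (.nd (nat_lit 17) 
(.lf (nat_lit 2754719279) (dlOf (nat_lit 1) (nat_lit 0x4002000200080f7182))) 
(.lf (nat_lit 2754850351) (dlOf (nat_lit 3) (nat_lit 0x130074000a80400b80400004e02000400180f7181))))))) 
(.nd (nat_lit 17) (.nd (nat_lit 11) (.nd (nat_lit 20) (.nd (nat_lit 27) 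
(.lf (nat_lit 4630618159) (dlOf (nat_lit 1) (nat_lit 0x400400020008020482))) 
(.lf (nat_lit 4764835887) (dlOf (nat_lit 1) (nat_lit 0x400400020008020482)))) 
(.lf (nat_lit 3490816047) (dlOf (nat_lit 2) (nat_lit 0x7e0000000d818020580)))) (.nd (nat_lit 7) 
(.nd (nat_lit 8) (.lf (nat_lit 3489770543) (dlOf (nat_lit 1) (nat_lit 0x300028006081))) 
(.lf (nat_lit 5637253935) (dlOf (nat_lit 6) (nat_lit 0xe0054002b804007002a0015a02000e015000aa8100010010002640800080080013004000c00400020018055c02)))) 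
(.lf (nat_lit 1346480559) (dlOf (nat_lit 1) (nat_lit 0x20018f64e81))))) (.nd (nat_lit 27) 
(.nd (nat_lit 9) (.nd (nat_lit 30) 
(.lf (nat_lit 4563640367) (dlOf (nat_lit 3) (nat_lit 0x10805c0009d02008802e000470180b0480))) 
(.lf (nat_lit 1342414895) (dlOf (nat_lit 12) (nat_lit 0x16712380014c08060091c0664478025e1c50002903014b123800144080ae091c000a004057048e000370202ac2470001b01015a1238000d40805d891c06b047802141c50001a0300e21238000cc080bb091c0006404057048e0003102141e0028020581)))) 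
(.lf (nat_lit 805544495) (dlOf (nat_lit 10) (nat_lit 0x3e409e01b403800f00130003d418088814403e0096020403a00f500d000090200bc8144055809602ca03a015100d00008c200320144013409600ae03a003a00d0000882005181440230096012c03a008900d000080200578144003c096013e03a007500d00007c200ba0144054009602f403a013c00d000078200b181440520096023a046014d01d009800cc04c00340001d0c002e051000901d00006c100500008064c00203960008128003)))) 
(.nd (nat_lit 26) 
(.lf (nat_lit 4697858095) (dlOf (nat_lit 3) (nat_lit 0x10805c0009d02008802e000470180b0480))) 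
(.nd (nat_lit 30) 
(.lf (nat_lit 469999663) (dlOf (nat_lit 12) (nat_lit 0x16712380014c08060091c0664478025e1c50002903014b123800144080ae091c000a004057048e000370202ac2470001b01015a1238000d40805d891c06b047802141c50001a0300e21238000cc080bb091c0006404057048e0003102141e0028020581))) 
(.lf (nat_lit 3691225135) (dlOf (nat_lit 1) (nat_lit 0x800180b0901)))))))) (.nd (nat_lit 20) 
(.nd (nat_lit 26) (.nd (nat_lit 27) (.nd (nat_lit 28) (.nd (nat_lit 29) 
(.lf (nat_lit 3221856303) (dlOf (nat_lit 1) (nat_lit 0xc4002004000081a0e82))) 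
(.lf (nat_lit 537501743) (dlOf (nat_lit 1) (nat_lit 0x40002003000080a0982)))) 
(.lf (nat_lit 1342808111) (dlOf (nat_lit 1) (nat_lit 0x4002000200080d0982)))) (.nd (nat_lit 29) 
(.lf (nat_lit 134848559) (dlOf (nat_lit 2) (nat_lit 0x88076002a036000f00b8000a81802600080014002002000080c0e83))) 
(.lf (nat_lit 3892944943) (dlOf (nat_lit 2) (nat_lit 0x1601b800400640001c080004002004200082a0b82))))) 
(.nd (nat_lit 9) (.nd (nat_lit 17) (.nd (nat_lit 27) 
(.lf (nat_lit 1409916975) (dlOf (nat_lit 1) (nat_lit 0x40002003000080a0982))) 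
(.lf (nat_lit 470392879) (dlOf (nat_lit 1) (nat_lit 0x4002000200080d0982)))) 
(.lf (nat_lit 3557531695) (dlOf (nat_lit 9) (nat_lit 0x10308000a00800101e000100e400060610005021000280fc0003814002c0f000020720007030800301780014084000a03f0000d86000503c000501c8000c0c2000605e000b01f8000602800381e000180e4000a05e0007021000480fc0002e14001c0f00010072000703080010178000c084000e03f0000a06000703c000281c8001c0c2000c05e0006021000200fc000261800140e40014061000501f800000180080008007000200160008240903)))) 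
(.nd (nat_lit 8) (.lf (nat_lit 202092079) (dlOf (nat_lit 1) (nat_lit 0xb000080f7181))) 
(.lf (nat_lit 69839663) (dlOf (nat_lit 1) (nat_lit 0x400400020008cd5c02)))))) (.nd (nat_lit 9) 
(.nd (nat_lit 8) (.nd (nat_lit 10) (.nd (nat_lit 17) 
(.lf (nat_lit 26845231) (dlOf (nat_lit 2) (nat_lit 0x4aee001b50500006c100008008001000200060008c80703))) 
(.lf (nat_lit 10199087) (dlOf (nat_lit 1) (nat_lit 0x4004000200085c0c82)))) 
(.lf (nat_lit 20556847) (dlOf (nat_lit 1) (nat_lit 0x20004001000089d6082)))) (.nd (nat_lit 7) 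
(.lf (nat_lit 8109359) (dlOf (nat_lit 1) (nat_lit 0x40040002000851c702))) 
(.lf (nat_lit 39430575) (dlOf (nat_lit 1) (nat_lit 0x20009194e81))))) (.nd (nat_lit 7) 
(.nd (nat_lit 8) (.nd (nat_lit 11) 
(.lf (nat_lit 20554287) (dlOf (nat_lit 1) (nat_lit 0x600289d1481))) 
(.lf (nat_lit 1880730159) (dlOf (nat_lit 1) (nat_lit 0x400200020008b55182)))) 
(.lf (nat_lit 20556591) (dlOf (nat_lit 1) (nat_lit 0x200189d5c01)))) 
(.lf (nat_lit 20557487) (dlOf (nat_lit 1) (nat_lit 0x4002000200089d7282))))))) (.nd (nat_lit 8) 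
(.nd (nat_lit 28) (.nd (nat_lit 7) (.nd (nat_lit 9) (.nd (nat_lit 20) 
(.lf (nat_lit 44277871) (dlOf (nat_lit 5) (nat_lit 0x26270006307800316e00000c0c000cc7c000c60f00042dc0000141800198f80004c4e001060f00082dc00001020002183c0010b700000304000800092e0c81))) 
(.lf (nat_lit 24354927) (dlOf (nat_lit 1) (nat_lit 0x8008002c002001e0008b91583)))) 
(.nd (nat_lit 11) (.lf (nat_lit 7976559) (dlOf (nat_lit 1) (nat_lit 0x400400120008519c82))) 
(.lf (nat_lit 6576778863) (dlOf (nat_lit 1) (nat_lit 0x800400020008147182))))) (.nd (nat_lit 21) 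
(.nd (nat_lit 17) (.lf (nat_lit 1677828335) (dlOf (nat_lit 2) (nat_lit 0x1e03a00047018090480))) 
(.lf (nat_lit 9150703) (dlOf (nat_lit 1) (nat_lit 0x400200020008524502)))) (.nd (nat_lit 9) 
(.lf (nat_lit 41001199) (dlOf (nat_lit 1) (nat_lit 0x20029201e81))) 
(.lf (nat_lit 39955183) (dlOf (nat_lit 1) (nat_lit 0xc0002001c00091f5a02)))))) (.nd (nat_lit 10) 
(.nd (nat_lit 27) (.nd (nat_lit 7) 
(.lf (nat_lit 1342808175) (dlOf (nat_lit 1) (nat_lit 0x82c004016e00180d1582))) 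
(.lf (nat_lit 3557013743) (dlOf (nat_lit 2) (nat_lit 0x90088000e8040014004000a000812a902)))) 
(.nd (nat_lit 21) (.lf (nat_lit 470392943) (dlOf (nat_lit 1) (nat_lit 0x82c004016e00180d1582))) 
(.lf (nat_lit 1009361007) (dlOf (nat_lit 5) (nat_lit 0x80ac00020530007028000301340000c1000080a600060500003026800014180008158000c0a6000e050000802680001020002014c001c0a0000a04d00001839120c80))))) 
(.nd (nat_lit 7) (.nd (nat_lit 9) 
(.lf (nat_lit 5773567087) (dlOf (nat_lit 1) (nat_lit 0x4004000200080e2a02))) 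
(.lf (nat_lit 5704492655) (dlOf (nat_lit 1) (nat_lit 0x4004000200080d3982)))) (.nd (nat_lit 26) 
(.lf (nat_lit 4697728239) (dlOf (nat_lit 1) (nat_lit 0x400400020008092e82))) 
(.lf (nat_lit 2080482543) (dlOf (nat_lit 1) (nat_lit 0x4d80080004002008e0008092e83))))))) 
(.nd (nat_lit 11) (.nd (nat_lit 7) (.nd (nat_lit 19) (.nd (nat_lit 17) (.nd (nat_lit 27) 
(.lf (nat_lit 5435924847) (dlOf (nat_lit 1) (nat_lit 0x80080014002000a0008035803))) 
(.lf (nat_lit 5301707119) (dlOf (nat_lit 1) (nat_lit 0x80080014002000a0008035803)))) 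
(.lf (nat_lit 4432239) (dlOf (nat_lit 1) (nat_lit 0x20028290a01)))) (.nd (nat_lit 9) 
(.lf (nat_lit 7971183) (dlOf (nat_lit 1) (nat_lit 0x40028510f81))) 
(.lf (nat_lit 20554607) (dlOf (nat_lit 1) (nat_lit 0xc002000600089d2582))))) (.nd (nat_lit 26) 
(.nd (nat_lit 21) (.lf (nat_lit 4026769903) (dlOf (nat_lit 2) (nat_lit 0x2e040000a8818090d80))) 
(.lf (nat_lit 23306735) (dlOf (nat_lit 3) (nat_lit 0x4c69d8008cc08023b4ec0045e040014004002c0018b80d82)))) 
(.nd (nat_lit 9) (.lf (nat_lit 3288572399) (dlOf (nat_lit 2) (nat_lit 0x2e040000a8818090d80))) 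
(.lf (nat_lit 5972797423) (dlOf (nat_lit 1) (nat_lit 0x20028144601)))))) (.nd (nat_lit 9) 
(.nd (nat_lit 19) (.nd (nat_lit 22) 
(.lf (nat_lit 3556878831) (dlOf (nat_lit 1) (nat_lit 0x400280d4f01))) 
(.lf (nat_lit 37857775) (dlOf (nat_lit 1) (nat_lit 0x8002000400090d4f02)))) 
(.lf (nat_lit 738830831) (dlOf (nat_lit 2) (nat_lit 0x4015c001ca04000400400060018124f02)))) 
(.nd (nat_lit 27) (.nd (nat_lit 28) 
(.lf (nat_lit 4899187695) (dlOf (nat_lit 1) (nat_lit 0x4004000200180d5f02))) 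
(.lf (nat_lit 4630752239) (dlOf (nat_lit 1) (nat_lit 0x20028095f01)))) (.nd (nat_lit 17) 
(.lf (nat_lit 5771471855) (dlOf (nat_lit 1) (nat_lit 0x720018005f01))) 
(.lf (nat_lit 738438127) (dlOf (nat_lit 3) (nat_lit 0x702d0001000800101680007e04003000400320018095f02))))))))) 
(.nd (nat_lit 17) (.nd (nat_lit 26) (.nd (nat_lit 24) (.nd (nat_lit 30) (.nd (nat_lit 29) 
(.nd (nat_lit 11) (.nd (nat_lit 6) (.nd (nat_lit 8) 
(.lf (nat_lit 892975) (dlOf (nat_lit 1) (nat_lit 0x400400020008030c82))) 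
(.lf (nat_lit 4563247) (dlOf (nat_lit 1) (nat_lit 0x40028290701)))) 
(.lf (nat_lit 2465903) (dlOf (nat_lit 1) (nat_lit 0xc0008161581)))) (.nd (nat_lit 7) 
(.lf (nat_lit 38644271) (dlOf (nat_lit 2) (nat_lit 0x50e2000874000046029135180))) 
(.lf (nat_lit 8763567) (dlOf (nat_lit 1) (nat_lit 0x2002851a881))))) (.nd (nat_lit 27) 
(.lf (nat_lit 805675055) (dlOf (nat_lit 3) (nat_lit 0x2e055000c02980003c1000b804c0001c04007c00400300008180902))) 
(.nd (nat_lit 28) 
(.lf (nat_lit 671457327) (dlOf (nat_lit 2) (nat_lit 0x2809000170040034004002c00081a0602))) 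
(.lf (nat_lit 5234860079) (dlOf (nat_lit 7) (nat_lit 0x280600034014000e00700050000000ac2002880600188014000280400c2018004f00500009c1002d80600004a0400f403000024020040018000100500004c100028008006000200080008100383)))))) 
(.nd (nat_lit 7) (.nd (nat_lit 31) (.nd (nat_lit 32) 
(.lf (nat_lit 1610981423) (dlOf (nat_lit 2) (nat_lit 0x301b8002380800480080004002001e00080b0483))) 
(.lf (nat_lit 5905948719) (dlOf (nat_lit 5) (nat_lit 0x1780000005a0200b80000002b81000b01280011c08013005c0007e04000c00400320008160582)))) 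
(.nd (nat_lit 27) (.lf (nat_lit 3758465071) (dlOf (nat_lit 1) (nat_lit 0x200281e0901))) 
(.lf (nat_lit 3355811887) (dlOf (nat_lit 1) (nat_lit 0x1e0028120d81))))) (.nd (nat_lit 6) 
(.lf (nat_lit 5772255407) (dlOf (nat_lit 1) (nat_lit 0x60008090601))) (.nd (nat_lit 8) 
(.lf (nat_lit 1345694447) (dlOf (nat_lit 1) (nat_lit 0x148008004c00201420008dd5a03))) 
(.lf (nat_lit 3492653039) (dlOf (nat_lit 2) (nat_lit 0x1221a000198180f4600))))))) (.nd (nat_lit 7) 
(.nd (nat_lit 19) (.nd (nat_lit 9) 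
(.lf (nat_lit 30777391) (dlOf (nat_lit 2) (nat_lit 0x204740001c04000c00200080008e50b82))) 
(.lf (nat_lit 60140079) (dlOf (nat_lit 1) (nat_lit 0x800200140009845182)))) (.nd (nat_lit 20) 
(.lf (nat_lit 17670191) (dlOf (nat_lit 1) (nat_lit 0x600288f0e81))) (.nd (nat_lit 22) 
(.lf (nat_lit 27107375) (dlOf (nat_lit 5) (nat_lit 0x7100000003e02000811d005a0000000dc1002600000006a0401a00000000002001c0008ca0701))) 
(.lf (nat_lit 22913071) (dlOf (nat_lit 1) (nat_lit 0x40028b40d81)))))) (.nd (nat_lit 6) 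
(.nd (nat_lit 8) (.lf (nat_lit 54894767) (dlOf (nat_lit 1) (nat_lit 0x70008002000200100009662d83))) 
(.lf (nat_lit 59091375) (dlOf (nat_lit 1) (nat_lit 0x4004000200097e4e82)))) (.nd (nat_lit 8) 
(.lf (nat_lit 28680431) (dlOf (nat_lit 1) (nat_lit 0x400200020008da0602))) (.nd (nat_lit 9) 
(.lf (nat_lit 23437807) (dlOf (nat_lit 2) (nat_lit 0x88ebe00119818b80d80))) 
(.lf (nat_lit 54373359) (dlOf (nat_lit 1) (nat_lit 0x80080110002003c0009655f03)))))))) 
(.nd (nat_lit 27) (.nd (nat_lit 29) (.nd (nat_lit 30) (.nd (nat_lit 31) 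
(.lf (nat_lit 67477551) (dlOf (nat_lit 1) (nat_lit 0xc0028170901))) 
(.lf (nat_lit 6509928495) (dlOf (nat_lit 5) (nat_lit 0x1780000005a0200b80000002b81000b01300011c08013005c0007e04000c00400320008160582)))) 
(.nd (nat_lit 28) 
(.lf (nat_lit 3288703023) (dlOf (nat_lit 2) (nat_lit 0x370090000d40801a80080068002001e00080c0e83))) 
(.lf (nat_lit 1409654831) (dlOf (nat_lit 1) (nat_lit 0x8008000400200020008070903))))) 
(.nd (nat_lit 9) (.nd (nat_lit 30) 
(.lf (nat_lit 4899315759) (dlOf (nat_lit 2) (nat_lit 0x238060013202f009a0160000b8180020008002c002000e0008100383))) 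
(.lf (nat_lit 1678090287) (dlOf (nat_lit 2) (nat_lit 0x5f00130002005000044100008008007c00200020008180883)))) 
(.lf (nat_lit 2754981423) (dlOf (nat_lit 2) (nat_lit 0x18c03a0005402000200180f7181))))) 
(.nd (nat_lit 9) (.nd (nat_lit 28) 
(.lf (nat_lit 738566191) (dlOf (nat_lit 2) (nat_lit 0x301b8002380800480080004002001e00080b0483))) 
(.nd (nat_lit 30) 
(.lf (nat_lit 2617614383) (dlOf (nat_lit 2) (nat_lit 0x100580007c0200120008100d81))) 
(.lf (nat_lit 1543872559) (dlOf (nat_lit 2) (nat_lit 0x28090001d0040034004002c00081a0602))))) 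
(.lf (nat_lit 473279023) (dlOf (nat_lit 2) (nat_lit 0x20dc00046018e35180)))))) (.nd (nat_lit 19) 
(.nd (nat_lit 8) (.nd (nat_lit 22) (.nd (nat_lit 28) (.nd (nat_lit 9) 
(.lf (nat_lit 2596911) (dlOf (nat_lit 1) (nat_lit 0x3e0018170a01))) 
(.lf (nat_lit 1074245167) (dlOf (nat_lit 1) (nat_lit 0xc00080f7181)))) (.nd (nat_lit 20) 
(.lf (nat_lit 805806127) (dlOf (nat_lit 1) (nat_lit 0x600080008002003200081a0003))) 
(.lf (nat_lit 3491209263) (dlOf (nat_lit 2) (nat_lit 0x2c0b700014018070900))))) (.nd (nat_lit 20) 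
(.nd (nat_lit 21) (.lf (nat_lit 21471279) (dlOf (nat_lit 1) (nat_lit 0x20028a40381))) 
(.lf (nat_lit 15179823) (dlOf (nat_lit 5) (nat_lit 0x2d60000001f010022b2e000b00000006e080046cb80003502002165c00010000000001000400080200002003600087c0703)))) 
(.nd (nat_lit 7) (.lf (nat_lit 30908463) (dlOf (nat_lit 1) (nat_lit 0x20008e50b81))) 
(.lf (nat_lit 33006767) (dlOf (nat_lit 1) (nat_lit 0x100018f52c01)))))) (.nd (nat_lit 7) 
(.nd (nat_lit 26) (.nd (nat_lit 28) 
(.lf (nat_lit 5906080047) (dlOf (nat_lit 1) (nat_lit 0x200281a8401))) 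
(.lf (nat_lit 805806383) (dlOf (nat_lit 1) (nat_lit 0x50004001400081a0502)))) 
(.lf (nat_lit 2886181167) (dlOf (nat_lit 2) (nat_lit 0xf00f80097a04000800200100008188402)))) 
(.nd (nat_lit 6) (.nd (nat_lit 9) 
(.lf (nat_lit 1745330607) (dlOf (nat_lit 1) (nat_lit 0x18008000400200060008116e83))) 
(.lf (nat_lit 506799) (dlOf (nat_lit 1) (nat_lit 0x20008000c0020008000800bd83)))) 
(.lf (nat_lit 1476897263) (dlOf (nat_lit 1) (nat_lit 0x4004000600182d4f02)))))) (.nd (nat_lit 8) 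
(.nd (nat_lit 21) (.nd (nat_lit 6) (.nd (nat_lit 20) (.nd (nat_lit 22) 
(.lf (nat_lit 1880072239) (dlOf (nat_lit 1) (nat_lit 0x80080004002000200086b0003))) 
(.lf (nat_lit 13606959) (dlOf (nat_lit 3) (nat_lit 0x3b8c40037bd50001202010ce31000068080028008008800200e00008730b03)))) 
(.lf (nat_lit 27238447) (dlOf (nat_lit 1) (nat_lit 0xc0028cc0901)))) 
(.lf (nat_lit 42968687) (dlOf (nat_lit 1) (nat_lit 0x200192a3981)))) (.nd (nat_lit 6) 
(.nd (nat_lit 7) 
(.lf (nat_lit 28287023) (dlOf (nat_lit 8) (nat_lit 0x24b0e0002e01000358700016808004af28000a804000961c0003802000c0000001201001e00000008408002a8cc00000040060004000e0008d80802))) 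
(.lf (nat_lit 19904175) (dlOf (nat_lit 1) (nat_lit 0x4002000200089da002)))) 
(.lf (nat_lit 12558447) (dlOf (nat_lit 2) (nat_lit 0x10e5800030040010002000c00086d1582))))) 
(.nd (nat_lit 6) (.nd (nat_lit 7) 
(.lf (nat_lit 46113071) (dlOf (nat_lit 3) (nat_lit 0x1748c00003010004a460000140800b00080058002001c0009380b03))) 
(.nd (nat_lit 9) (.lf (nat_lit 36678063) (dlOf (nat_lit 1) (nat_lit 0x400200020009074e82))) 
(.lf (nat_lit 2754591663) (dlOf (nat_lit 3) (nat_lit 0x801e40029c0400440f20014302002400280fbd81))))) 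
(.nd (nat_lit 11) (.nd (nat_lit 21) 
(.lf (nat_lit 42967407) (dlOf (nat_lit 1) (nat_lit 0x180080008002000200092a0f83))) 
(.lf (nat_lit 24093039) (dlOf (nat_lit 2) (nat_lit 0x568840307604000800200020008b80782)))) 
(.lf (nat_lit 3492788591) (dlOf (nat_lit 1) (nat_lit 0xc00180fad01)))))))))))

end

end Pool.Agent.Lib.MP_5854e1_co.Cz

namespace Pool.Agent.Lib.MP_5854e1_co.Cz

noncomputable section

noncomputable def tz160 : DT := (.nd (nat_lit 2) (.nd (nat_lit 6) (.nd (nat_lit 18) 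
(.nd (nat_lit 19) (.nd (nat_lit 10) (.nd (nat_lit 16) (.nd (nat_lit 5) (.nd (nat_lit 20) 
(.nd (nat_lit 9) (.nd (nat_lit 8) 
(.lf (nat_lit 12599298) (dlOf (nat_lit 1) (nat_lit 0x180080020002000200086d0003))) 
(.lf (nat_lit 46153986) (dlOf (nat_lit 1) (nat_lit 0x1400400080009380a82)))) (.nd (nat_lit 11) 
(.lf (nat_lit 8409602) (dlOf (nat_lit 1) (nat_lit 0x40018518681))) 
(.lf (nat_lit 2751486466) (dlOf (nat_lit 1) (nat_lit 0x2002800b281))))) (.nd (nat_lit 7) 
(.nd (nat_lit 8) (.lf (nat_lit 22036482) (dlOf (nat_lit 1) (nat_lit 0x8008000400200020008a90003))) 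
(.lf (nat_lit 40911106) (dlOf (nat_lit 1) (nat_lit 0x8800400040009203582)))) 
(.lf (nat_lit 24133762) (dlOf (nat_lit 1) (nat_lit 0x400400020008b80102))))) (.nd (nat_lit 8) 
(.nd (nat_lit 7) (.nd (nat_lit 24) 
(.lf (nat_lit 470827042) (dlOf (nat_lit 1) (nat_lit 0xe0008006c002002600081c0603))) 
(.lf (nat_lit 17842210) (dlOf (nat_lit 1) (nat_lit 0x7600288f0d01)))) (.nd (nat_lit 27) 
(.lf (nat_lit 4362094754) (dlOf (nat_lit 1) (nat_lit 0x20018004881))) 
(.lf (nat_lit 469780642) (dlOf (nat_lit 1) (nat_lit 0x220018004881))))) (.nd (nat_lit 12) 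
(.nd (nat_lit 7) (.lf (nat_lit 4764746018) (dlOf (nat_lit 1) (nat_lit 0x3800400e60008000a82))) 
(.lf (nat_lit 2550155682) (dlOf (nat_lit 1) (nat_lit 0xc0028004e81)))) (.nd (nat_lit 26) 
(.lf (nat_lit 536893730) (dlOf (nat_lit 1) (nat_lit 0x2002800ab81))) 
(.lf (nat_lit 4362098978) (dlOf (nat_lit 1) (nat_lit 0x2002800ab81))))))) (.nd (nat_lit 27) 
(.nd (nat_lit 5) (.nd (nat_lit 20) (.nd (nat_lit 7) 
(.lf (nat_lit 8475138) (dlOf (nat_lit 1) (nat_lit 0x20018518681))) 
(.lf (nat_lit 5972770946) (dlOf (nat_lit 1) (nat_lit 0x200280b0101)))) (.nd (nat_lit 22) 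
(.lf (nat_lit 1343307778) (dlOf (nat_lit 3) (nat_lit 0x4e42b600bd302004815b005e20181e0000))) 
(.lf (nat_lit 22102018) (dlOf (nat_lit 1) (nat_lit 0x400200020008a90002))))) (.nd (nat_lit 7) 
(.nd (nat_lit 20) (.lf (nat_lit 3825287202) (dlOf (nat_lit 2) (nat_lit 0x27a01f00bf10180b0000))) 
(.lf (nat_lit 17907746) (dlOf (nat_lit 1) (nat_lit 0x18008000400200040008900a83)))) 
(.lf (nat_lit 1342265506) (dlOf (nat_lit 1) (nat_lit 0x50008005c0020046000800a883))))) 
(.nd (nat_lit 8) (.nd (nat_lit 26) (.nd (nat_lit 28) 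
(.lf (nat_lit 6576750722) (dlOf (nat_lit 1) (nat_lit 0x200280b0101))) 
(.lf (nat_lit 939606146) (dlOf (nat_lit 4) (nat_lit 0x2a004c014e022009600e804880700009410003c04400049020076026002e00e00008410033000800c8002003200080b0103)))) 
(.lf (nat_lit 1812021378) (dlOf (nat_lit 4) (nat_lit 0x2a004c014e022009600e804880700009410003c04400049020076026002e00e00008c10033000800c8002003200080b0103)))) 
(.nd (nat_lit 5) (.nd (nat_lit 32) 
(.lf (nat_lit 402735490) (dlOf (nat_lit 1) (nat_lit 0x234004000c0008091002))) 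
(.lf (nat_lit 4697702786) (dlOf (nat_lit 1) (nat_lit 0xa0008002c002009e0008091003)))) 
(.lf (nat_lit 5234575778) (dlOf (nat_lit 1) (nat_lit 0x1000400020008054e82))))))) (.nd (nat_lit 7) 
(.nd (nat_lit 8) (.nd (nat_lit 5) (.nd (nat_lit 9) (.nd (nat_lit 12) 
(.lf (nat_lit 2818655234) (dlOf (nat_lit 1) (nat_lit 0x200280d2881))) 
(.lf (nat_lit 3691009026) (dlOf (nat_lit 3) (nat_lit 0x8060008700400400300043702006c0008009201)))) 
(.nd (nat_lit 26) 
(.lf (nat_lit 6308316674) (dlOf (nat_lit 4) (nat_lit 0xfc0300003a02006a018001d0040000d81002400600006a04003c00200280008053682))) 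
(.lf (nat_lit 4496377346) (dlOf (nat_lit 1) (nat_lit 0x700080088002003c0008053683))))) 
(.nd (nat_lit 9) (.nd (nat_lit 26) 
(.lf (nat_lit 2952811554) (dlOf (nat_lit 3) (nat_lit 0x780600139e0400200300000002004e0008009201))) 
(.lf (nat_lit 604001314) (dlOf (nat_lit 1) (nat_lit 0x400400020008009202)))) 
(.lf (nat_lit 268518946) (dlOf (nat_lit 1) (nat_lit 0x60008053701))))) (.nd (nat_lit 12) 
(.nd (nat_lit 5) (.nd (nat_lit 26) 
(.lf (nat_lit 4026550018) (dlOf (nat_lit 1) (nat_lit 0x20018003b81))) 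
(.lf (nat_lit 2348828418) (dlOf (nat_lit 1) (nat_lit 0x18008000800200040008003b83)))) 
(.lf (nat_lit 2952810274) (dlOf (nat_lit 1) (nat_lit 0x29000800e000200020008007483)))) 
(.nd (nat_lit 5) (.nd (nat_lit 26) 
(.lf (nat_lit 1342199554) (dlOf (nat_lit 1) (nat_lit 0x2002800a001))) 
(.lf (nat_lit 469784322) (dlOf (nat_lit 1) (nat_lit 0x4002800a001)))) 
(.lf (nat_lit 6039819554) (dlOf (nat_lit 1) (nat_lit 0x800400140008009782)))))) (.nd (nat_lit 5) 
(.nd (nat_lit 8) (.nd (nat_lit 12) (.nd (nat_lit 11) 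
(.lf (nat_lit 1610696322) (dlOf (nat_lit 2) (nat_lit 0x81680005804002000400140008093a02))) 
(.lf (nat_lit 2885701250) (dlOf (nat_lit 1) (nat_lit 0x10008001000200080008007183)))) 
(.nd (nat_lit 16) 
(.lf (nat_lit 2684376706) (dlOf (nat_lit 2) (nat_lit 0x150058001ec080058008005400200100008009d83))) 
(.lf (nat_lit 20010626) (dlOf (nat_lit 1) (nat_lit 0x10008004c002000800089d9d83))))) 
(.nd (nat_lit 9) (.nd (nat_lit 12) 
(.lf (nat_lit 2483047810) (dlOf (nat_lit 2) (nat_lit 0x500a8000c050001a018000300800068038001c018000a00300030000000cc400280008014000200180008006c03))) 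
(.lf (nat_lit 4227947906) (dlOf (nat_lit 1) (nat_lit 0x12001800c901)))) 
(.lf (nat_lit 469845890) (dlOf (nat_lit 1) (nat_lit 0xe0018004181))))) (.nd (nat_lit 16) 
(.nd (nat_lit 9) (.nd (nat_lit 11) 
(.lf (nat_lit 4160771234) (dlOf (nat_lit 1) (nat_lit 0x20018009501))) 
(.lf (nat_lit 671108258) (dlOf (nat_lit 2) (nat_lit 0xf017000090080128008000c00200320008006283)))) 
(.lf (nat_lit 671108770) (dlOf (nat_lit 4) (nat_lit 0xa00c0000d008005007400062040024010000270200020018007201)))) 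
(.nd (nat_lit 8) (.lf (nat_lit 4697703586) (dlOf (nat_lit 1) (nat_lit 0x6400200220008092b82))) 
(.nd (nat_lit 26) 
(.lf (nat_lit 6308316578) (dlOf (nat_lit 6) (nat_lit 0x3200c8005700801d8064002b60400a80320015a0200640180004c81003200c000260080068008005400200340008053603))) 
(.lf (nat_lit 5570119074) (dlOf (nat_lit 1) (nat_lit 0xc00018053601))))))))) (.nd (nat_lit 5) 
(.nd (nat_lit 16) (.nd (nat_lit 22) (.nd (nat_lit 28) (.nd (nat_lit 23) (.nd (nat_lit 8) 
(.nd (nat_lit 26) 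
(.lf (nat_lit 1611153410) (dlOf (nat_lit 5) (nat_lit 0xa02b002381040174080000c03000310150033a828005014000a808a004604400080190032d8200018140001808a000c04400010190032d02000900000000004000400400e400180f0002))) 
(.lf (nat_lit 738738178) (dlOf (nat_lit 5) (nat_lit 0xa02b002381040174080000c0300031015001d0428005014000a808a00460440008019001c24200018140001808a000c0440001019001c1c2000900000000004000400400e400180f0002)))) 
(.lf (nat_lit 67649794) (dlOf (nat_lit 1) (nat_lit 0x4e00182d0701)))) (.nd (nat_lit 7) 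
(.lf (nat_lit 61359618) (dlOf (nat_lit 1) (nat_lit 0x80009923681))) (.nd (nat_lit 8) 
(.lf (nat_lit 44580994) (dlOf (nat_lit 1) (nat_lit 0x8008000400200020009320303))) 
(.lf (nat_lit 8931202) (dlOf (nat_lit 1) (nat_lit 0x40008514181)))))) (.nd (nat_lit 29) 
(.nd (nat_lit 7) 
(.lf (nat_lit 1342717954) (dlOf (nat_lit 1) (nat_lit 0x380080024002001e00080c0003))) 
(.lf (nat_lit 3490209154) (dlOf (nat_lit 1) (nat_lit 0xc002800c901)))) (.nd (nat_lit 26) 
(.lf (nat_lit 805847042) (dlOf (nat_lit 2) (nat_lit 0x100000000000400ac002008a00081c0002))) 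
(.lf (nat_lit 1946697730) (dlOf (nat_lit 1) (nat_lit 0x380080054002000800081b0003)))))) 
(.nd (nat_lit 21) (.nd (nat_lit 23) (.nd (nat_lit 24) 
(.lf (nat_lit 4734978) (dlOf (nat_lit 1) (nat_lit 0x200282b0001))) 
(.lf (nat_lit 55066626) (dlOf (nat_lit 4) (nat_lit 0x4098c000a4c4000825e000412e8002894a0012495000b24980644c3800813180008988000e4bc000825d0002929c002494a001449500072498064444000d1318000894e000849500c368396a0000)))) 
(.lf (nat_lit 13123586) (dlOf (nat_lit 1) (nat_lit 0x18008001000200040008700003)))) 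
(.nd (nat_lit 7) (.nd (nat_lit 8) 
(.lf (nat_lit 24657922) (dlOf (nat_lit 1) (nat_lit 0x400400020008bb0002))) 
(.lf (nat_lit 57166594) (dlOf (nat_lit 1) (nat_lit 0x20009795a81)))) 
(.lf (nat_lit 49826178) (dlOf (nat_lit 1) (nat_lit 0x1c800194c4e81)))))) (.nd (nat_lit 27) 
(.nd (nat_lit 21) (.nd (nat_lit 26) 
(.lf (nat_lit 805912578) (dlOf (nat_lit 1) (nat_lit 0x8004000e00081e0002))) 
(.lf (nat_lit 1678327810) (dlOf (nat_lit 1) (nat_lit 0x8004000e00081e0002)))) (.nd (nat_lit 9) 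
(.nd (nat_lit 20) (.lf (nat_lit 1881751554) (dlOf (nat_lit 1) (nat_lit 0x1c00400100008ff0002))) 
(.lf (nat_lit 16334850) (dlOf (nat_lit 1) (nat_lit 0x180080040002003c0008890003)))) 
(.lf (nat_lit 57231874) (dlOf (nat_lit 1) (nat_lit 0x8008000800200040009795003))))) 
(.nd (nat_lit 26) (.nd (nat_lit 29) 
(.lf (nat_lit 134823938) (dlOf (nat_lit 1) (nat_lit 0xf80080018002000e00080c0003))) 
(.lf (nat_lit 2819178498) (dlOf (nat_lit 1) (nat_lit 0x80080008002000400081d0003)))) 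
(.nd (nat_lit 22) 
(.lf (nat_lit 201932802) (dlOf (nat_lit 1) (nat_lit 0xf80080018002000e00080c0003))) 
(.lf (nat_lit 474562562) (dlOf (nat_lit 1) (nat_lit 0x3e00091a0001))))))) (.nd (nat_lit 27) 
(.nd (nat_lit 16) (.nd (nat_lit 21) (.nd (nat_lit 26) (.nd (nat_lit 8) (.nd (nat_lit 9) 
(.nd (nat_lit 22) 
(.lf (nat_lit 1611153442) (dlOf (nat_lit 6) (nat_lit 0x4f0150000c808011010801ec054006e02900420048000bc2007080a8006c0120002e0400f002a0000b0100750150000500817800080224002005e00080f0b83))) 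
(.lf (nat_lit 4735010) (dlOf (nat_lit 1) (nat_lit 0x4002000400082b0182)))) 
(.lf (nat_lit 50872866) (dlOf (nat_lit 1) (nat_lit 0x80080048002001c00094d8703)))) 
(.lf (nat_lit 1589538) (dlOf (nat_lit 1) (nat_lit 0x80080004002000200080f7803)))) (.nd (nat_lit 28) 
(.lf (nat_lit 4362616866) (dlOf (nat_lit 1) (nat_lit 0x100080008002000400080b0a03))) 
(.lf (nat_lit 3557310498) (dlOf (nat_lit 3) (nat_lit 0x500fc001ce0419a00c205da060000728281c0600))))) 
(.nd (nat_lit 20) (.nd (nat_lit 25) 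
(.lf (nat_lit 15220770) (dlOf (nat_lit 2) (nat_lit 0x22a3a40016a04000c004000400087c0602))) 
(.lf (nat_lit 48775202) (dlOf (nat_lit 2) (nat_lit 0x581f000420500001f029420180)))) 
(.lf (nat_lit 45629474) (dlOf (nat_lit 3) (nat_lit 0x170b260005302002659300028819340180))))) 
(.nd (nat_lit 20) (.nd (nat_lit 7) 
(.lf (nat_lit 50938402) (dlOf (nat_lit 2) (nat_lit 0x2e55000092a78013501000c80080098002002600094d8703))) 
(.lf (nat_lit 609442) (dlOf (nat_lit 1) (nat_lit 0x400400be0008006282)))) (.nd (nat_lit 21) 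
(.lf (nat_lit 26820642) (dlOf (nat_lit 2) (nat_lit 0x7a0fb005ea018c70700))) 
(.lf (nat_lit 3751970) (dlOf (nat_lit 3) (nat_lit 0x6551006648100012a8803320080010008002000200040008220a03)))))) 
(.nd (nat_lit 26) (.nd (nat_lit 16) (.nd (nat_lit 28) 
(.lf (nat_lit 2819112994) (dlOf (nat_lit 25) (nat_lit 0x180dc0031e0403c00d4010c069001d01f800380740016e1001940d400040690005b0206c7035034281a40016a08042c0d402bc0690005a0201b803500ac81a4001660802f80d400bc06900059020109035005601a4001620801540d4000b002000206a0005701000a035002981a40001e0801d40d400200690000682005503500002c0806281a803c40d20000a04001406a00004810072035000681a4000100800640d40000702002a06a000030101fa03500c701a40000a0801c40d400080690000202016f035001a81a4000060805b00d40000202003606a00030348000041003581a8000c0d20000004001800281a0601))) 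
(.lf (nat_lit 3624419362) (dlOf (nat_lit 1) (nat_lit 0x80080004002002400081a0503)))) 
(.lf (nat_lit 3892920354) (dlOf (nat_lit 1) (nat_lit 0x20028290d01)))) (.nd (nat_lit 28) 
(.nd (nat_lit 31) 
(.lf (nat_lit 738738210) (dlOf (nat_lit 6) (nat_lit 0x4f0150000c808011010801ec054006e02900420048000bc2007080a8006c0120002e0400f002a0000b0100750150000500817800080224002005e00080f0b83))) 
(.lf (nat_lit 2886221858) (dlOf (nat_lit 1) (nat_lit 0x80080004002002400081a0503)))) 
(.nd (nat_lit 16) 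
(.lf (nat_lit 4228399138) (dlOf (nat_lit 1) (nat_lit 0x100080008002000400080b0a03))) 
(.lf (nat_lit 474562594) (dlOf (nat_lit 2) (nat_lit 0x5c2ac002213b00110668000f81800e80080004002000c00091a0183))))))))) 
(.nd (nat_lit 16) (.nd (nat_lit 5) (.nd (nat_lit 28) (.nd (nat_lit 7) (.nd (nat_lit 20) 
(.nd (nat_lit 27) (.nd (nat_lit 9) 
(.lf (nat_lit 4295245826) (dlOf (nat_lit 1) (nat_lit 0x480080044002002600080c0003))) 
(.lf (nat_lit 5905859074) (dlOf (nat_lit 1) (nat_lit 0x100028157f81)))) (.nd (nat_lit 30) 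
(.lf (nat_lit 4429463554) (dlOf (nat_lit 1) (nat_lit 0x480080044002002600080c0003))) 
(.lf (nat_lit 3355721730) (dlOf (nat_lit 1) (nat_lit 0xd0008004c002000a00080d0003))))) 
(.nd (nat_lit 21) (.nd (nat_lit 19) 
(.lf (nat_lit 22298626) (dlOf (nat_lit 1) (nat_lit 0x400400020018ac0002))) 
(.lf (nat_lit 60571650) (dlOf (nat_lit 1) (nat_lit 0x200098b0001)))) (.nd (nat_lit 8) 
(.lf (nat_lit 24395778) (dlOf (nat_lit 1) (nat_lit 0x8008000400200020008b90003))) 
(.lf (nat_lit 3424514) (dlOf (nat_lit 1) (nat_lit 0xa00008200481)))))) (.nd (nat_lit 11) 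
(.nd (nat_lit 8) (.nd (nat_lit 10) 
(.lf (nat_lit 2375810) (dlOf (nat_lit 2) (nat_lit 0x2a60d8000bc080040008000400200040008150103))) 
(.lf (nat_lit 67916930) (dlOf (nat_lit 1) (nat_lit 0x40018339501)))) 
(.lf (nat_lit 280450) (dlOf (nat_lit 1) (nat_lit 0x20028004181)))) (.nd (nat_lit 8) 
(.nd (nat_lit 19) 
(.lf (nat_lit 2754891394) (dlOf (nat_lit 5) (nat_lit 0xf04300014c080160218000a00400741120030088000268200080448002822000000080034004001200080f7182))) 
(.lf (nat_lit 537677442) (dlOf (nat_lit 1) (nat_lit 0x2e000280f7181)))) 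
(.lf (nat_lit 4899228546) (dlOf (nat_lit 1) (nat_lit 0x800080d5c01)))))) (.nd (nat_lit 26) 
(.nd (nat_lit 20) (.nd (nat_lit 22) (.nd (nat_lit 27) 
(.lf (nat_lit 4563681282) (dlOf (nat_lit 12) (nat_lit 0x3940660172e02000803300a180100d901980507c0800580cc0283a0400200660140a02005c03300a0401000f019804ff00806800cc027f40400c4066013f8020092033009fb01000f019804fd408008000800fc002002c00080c0003))) 
(.lf (nat_lit 4697899010) (dlOf (nat_lit 12) (nat_lit 0x394066015d00201b203300a1781000b0198050b40800200cc028400400200660140c02005c03300a040100d001980501c0800780cc0280a0400c40660140202009203300a0001000f019804ffc08008000800fc002002c00080c0003)))) 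
(.lf (nat_lit 3494133762) (dlOf (nat_lit 4) (nat_lit 0x502a0003014c00200a201a4006000e04500d1f01000302280676c08011800800c0002003a00081b0003)))) 
(.nd (nat_lit 19) (.lf (nat_lit 1343504386) (dlOf (nat_lit 1) (nat_lit 0x3000400080008280002))) 
(.nd (nat_lit 27) (.lf (nat_lit 1344028674) (dlOf (nat_lit 1) (nat_lit 0x4004000200083a0002))) 
(.lf (nat_lit 5773213698) (dlOf (nat_lit 2) (nat_lit 0x209780327008006000800d8002002c00080b0003)))))) 
(.nd (nat_lit 29) (.nd (nat_lit 19) (.nd (nat_lit 30) 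
(.lf (nat_lit 2617524226) (dlOf (nat_lit 1) (nat_lit 0xd0008004c002000a00080d0003))) 
(.lf (nat_lit 3691266050) (dlOf (nat_lit 2) (nat_lit 0x6805400d0c04002c00400480018110002)))) 
(.lf (nat_lit 3557572610) (dlOf (nat_lit 3) (nat_lit 0x3019400240c60057a040016065002b9818270000)))) 
(.nd (nat_lit 30) (.nd (nat_lit 27) 
(.lf (nat_lit 3020177410) (dlOf (nat_lit 1) (nat_lit 0x40028150001))) 
(.lf (nat_lit 1006911490) (dlOf (nat_lit 5) (nat_lit 0x102a00020144001009c01bb2060006057000602a00020144001009c01bb108000e057000902a00050144001809c01bb008000e057000902a00058144001c09c01baf08002600080e0001)))) 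
(.nd (nat_lit 19) (.lf (nat_lit 2080653314) (dlOf (nat_lit 1) (nat_lit 0x4004000200080a0002))) 
(.lf (nat_lit 6377193474) (dlOf (nat_lit 2) (nat_lit 0x2090001bcc08006000800d8002002c00080b0003)))))))) 
(.nd (nat_lit 28) (.nd (nat_lit 20) (.nd (nat_lit 21) (.nd (nat_lit 22) (.nd (nat_lit 27) 
(.nd (nat_lit 32) (.lf (nat_lit 67387426) (dlOf (nat_lit 1) (nat_lit 0x2ac00080f0181))) 
(.lf (nat_lit 4362354722) (dlOf (nat_lit 2) (nat_lit 0x180320019018800000100240008002800200380008030c03)))) 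
(.lf (nat_lit 3422830626) (dlOf (nat_lit 1) (nat_lit 0xfa00180f0681)))) 
(.lf (nat_lit 12861474) (dlOf (nat_lit 1) (nat_lit 0x600080034002000800086e0a03)))) 
(.nd (nat_lit 10) (.nd (nat_lit 23) 
(.lf (nat_lit 2375714) (dlOf (nat_lit 2) (nat_lit 0x34c170027600001629f8000000c001400400060008150002))) 
(.lf (nat_lit 44318754) (dlOf (nat_lit 1) (nat_lit 0x44004002800092f0802)))) 
(.lf (nat_lit 19682338) (dlOf (nat_lit 2) (nat_lit 0x15418004c502000600289d9201))))) 
(.nd (nat_lit 7) (.nd (nat_lit 19) 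
(.lf (nat_lit 22298658) (dlOf (nat_lit 1) (nat_lit 0x400400020018ac0482))) (.nd (nat_lit 21) 
(.lf (nat_lit 27017250) (dlOf (nat_lit 3) (nat_lit 0x91b4fc00d52fc004097900072830012ec28002c40800b8008009800200320008ca0603))) 
(.lf (nat_lit 45891618) (dlOf (nat_lit 3) (nat_lit 0x5a394000cfea000430400279f70001f019360180))))) 
(.nd (nat_lit 8) (.lf (nat_lit 20207266) (dlOf (nat_lit 1) (nat_lit 0x100080014002000a00089d9f83))) 
(.nd (nat_lit 10) (.lf (nat_lit 8147362) (dlOf (nat_lit 1) (nat_lit 0x200028518381))) 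
(.lf (nat_lit 8144290) (dlOf (nat_lit 1) (nat_lit 0x400200020008513602))))))) (.nd (nat_lit 26) 
(.nd (nat_lit 7) (.nd (nat_lit 10) 
(.lf (nat_lit 1342455842) (dlOf (nat_lit 1) (nat_lit 0xb000400080008030982))) 
(.lf (nat_lit 5772166178) (dlOf (nat_lit 1) (nat_lit 0x20028092881)))) (.nd (nat_lit 27) 
(.lf (nat_lit 4563681442) (dlOf (nat_lit 4) (nat_lit 0x8680cc0001004001c06600004020004033000010180c1400))) 
(.lf (nat_lit 4697899170) (dlOf (nat_lit 9) (nat_lit 0x680d0000400405280660001f0200100340000b81000f01a0000580800080cc0001c04023c066000090200bc0330000401011a019800000080100008001c002006800080c1383))))) 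
(.nd (nat_lit 27) (.nd (nat_lit 9) 
(.lf (nat_lit 3020177442) (dlOf (nat_lit 1) (nat_lit 0x400400020018150182))) 
(.lf (nat_lit 1946436130) (dlOf (nat_lit 1) (nat_lit 0x400400020008090d82)))) (.nd (nat_lit 29) 
(.lf (nat_lit 470040610) (dlOf (nat_lit 1) (nat_lit 0xb000400080008030982))) 
(.lf (nat_lit 4228136994) (dlOf (nat_lit 2) (nat_lit 0x180310019018000000100240008002800200380008030c03)))))))) 
(.nd (nat_lit 28) (.nd (nat_lit 29) (.nd (nat_lit 20) (.nd (nat_lit 24) (.nd (nat_lit 5) 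
(.nd (nat_lit 21) 
(.lf (nat_lit 4362420226) (dlOf (nat_lit 3) (nat_lit 0xc0640168202003803200b10818070000))) 
(.lf (nat_lit 48578562) (dlOf (nat_lit 1) (nat_lit 0x80019410001)))) (.nd (nat_lit 19) 
(.lf (nat_lit 2349154338) (dlOf (nat_lit 1) (nat_lit 0x4c004000c00080e0482))) 
(.lf (nat_lit 5062690) (dlOf (nat_lit 1) (nat_lit 0x20028300601))))) (.nd (nat_lit 7) 
(.nd (nat_lit 5) (.lf (nat_lit 25509890) (dlOf (nat_lit 1) (nat_lit 0x920008c10001))) 
(.lf (nat_lit 27607074) (dlOf (nat_lit 2) (nat_lit 0x6d0a00534018d00680)))) (.nd (nat_lit 8) 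
(.lf (nat_lit 19745922) (dlOf (nat_lit 1) (nat_lit 0x1200189d6101))) 
(.lf (nat_lit 21315970) (dlOf (nat_lit 1) (nat_lit 0x20018a35a81)))))) (.nd (nat_lit 19) 
(.nd (nat_lit 5) (.lf (nat_lit 37044226) (dlOf (nat_lit 1) (nat_lit 0x20019080001))) 
(.nd (nat_lit 22) 
(.lf (nat_lit 9781282) (dlOf (nat_lit 2) (nat_lit 0x7d9d40008c04000400400020008580182))) 
(.lf (nat_lit 55918626) (dlOf (nat_lit 1) (nat_lit 0x600096f0181))))) (.nd (nat_lit 10) 
(.nd (nat_lit 22) (.lf (nat_lit 10305538) (dlOf (nat_lit 1) (nat_lit 0x4002000200085d0002))) 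
(.lf (nat_lit 14499842) (dlOf (nat_lit 1) (nat_lit 0x8008000400200020008760003)))) (.nd (nat_lit 7) 
(.lf (nat_lit 50152450) (dlOf (nat_lit 1) (nat_lit 0x200294c2881))) 
(.lf (nat_lit 8215682) (dlOf (nat_lit 1) (nat_lit 0x2000851c181))))))) (.nd (nat_lit 5) 
(.nd (nat_lit 26) (.nd (nat_lit 27) (.nd (nat_lit 30) 
(.lf (nat_lit 537214978) (dlOf (nat_lit 2) (nat_lit 0x1816800c7c04003c00400040008060002))) 
(.lf (nat_lit 1610956802) (dlOf (nat_lit 1) (nat_lit 0x4200280a0001)))) 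
(.lf (nat_lit 671432706) (dlOf (nat_lit 1) (nat_lit 0x20008190001)))) (.nd (nat_lit 19) 
(.nd (nat_lit 30) 
(.lf (nat_lit 604323842) (dlOf (nat_lit 1) (nat_lit 0x8008003400200020008160003))) 
(.lf (nat_lit 1678065666) (dlOf (nat_lit 1) (nat_lit 0x240008160001)))) 
(.lf (nat_lit 2755477506) (dlOf (nat_lit 2) (nat_lit 0x407e0152502001a00281a0001))))) 
(.nd (nat_lit 19) (.nd (nat_lit 27) 
(.lf (nat_lit 3758440482) (dlOf (nat_lit 1) (nat_lit 0x8004000200081c0602))) 
(.lf (nat_lit 671432738) (dlOf (nat_lit 11) (nat_lit 0x46025000200100220128000f80801180940007a04008c04a00012020046025000088100170128000400801180940001e04008c04a0000d02004602500003010023012800004080028008003c002000e0008190883)))) 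
(.nd (nat_lit 7) (.lf (nat_lit 2754428962) (dlOf (nat_lit 1) (nat_lit 0x2bc004010200080e0482))) 
(.lf (nat_lit 537742498) (dlOf (nat_lit 1) (nat_lit 0xa0008005c002009600080f6283))))))) 
(.nd (nat_lit 26) (.nd (nat_lit 5) (.nd (nat_lit 27) (.nd (nat_lit 30) (.nd (nat_lit 29) 
(.lf (nat_lit 2416263170) (dlOf (nat_lit 1) (nat_lit 0x3b000806ec002028000080c0003))) 
(.lf (nat_lit 805650434) (dlOf (nat_lit 1) (nat_lit 0x240008160001)))) (.nd (nat_lit 19) 
(.lf (nat_lit 1346715650) (dlOf (nat_lit 1) (nat_lit 0x400400020008ff0002))) 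
(.lf (nat_lit 3493675010) (dlOf (nat_lit 2) (nat_lit 0x407e0169402001a00281a0001))))) 
(.nd (nat_lit 7) (.nd (nat_lit 29) 
(.lf (nat_lit 2550480898) (dlOf (nat_lit 1) (nat_lit 0x3b000806ec002028000080c0003))) 
(.lf (nat_lit 6308577282) (dlOf (nat_lit 1) (nat_lit 0x20008110001)))) 
(.lf (nat_lit 5773279362) (dlOf (nat_lit 1) (nat_lit 0x4004000200180c0e02))))) (.nd (nat_lit 19) 
(.nd (nat_lit 27) (.nd (nat_lit 7) 
(.lf (nat_lit 4563746850) (dlOf (nat_lit 4) (nat_lit 0x403c0002b0200040320000f0100230198000000800600080004002007000080d0183))) 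
(.lf (nat_lit 3490007458) (dlOf (nat_lit 1) (nat_lit 0x20018004e81)))) (.nd (nat_lit 29) 
(.lf (nat_lit 4697964578) (dlOf (nat_lit 4) (nat_lit 0x403c0002b0200040320000f0100230198000000800600080004002007000080d0183))) 
(.lf (nat_lit 4161093666) (dlOf (nat_lit 6) (nat_lit 0x5202b000200d8001241000180ac0010036000460400d402b00260148027806c0007e0c0040056001001a0001c02006a015802780680006808001c00400640018120502))))) 
(.nd (nat_lit 7) (.nd (nat_lit 20) 
(.lf (nat_lit 3492626466) (dlOf (nat_lit 1) (nat_lit 0x2bc004010200080e0482))) 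
(.lf (nat_lit 1346191394) (dlOf (nat_lit 12) (nat_lit 0x882c0002e0d9001604e00009c1800a058000241b2000260400101600001281000a0b00000480806f0558037c19a018609600ea0428000382001b8558012419a006a0960037042800034200448334022010a0000c040004156000058100190ab001b033401d412c000c08d008704280002828012855800e019a00aa096004b042800024200008558006819a000000400020028e60181)))) 
(.lf (nat_lit 3490532514) (dlOf (nat_lit 1) (nat_lit 0x40008002000200060008006283)))))) 
(.nd (nat_lit 27) (.nd (nat_lit 5) (.nd (nat_lit 7) (.nd (nat_lit 32) 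
(.lf (nat_lit 1409630210) (dlOf (nat_lit 2) (nat_lit 0x18168017a604003c00400040008060002))) 
(.lf (nat_lit 5704597506) (dlOf (nat_lit 1) (nat_lit 0x20008110001)))) 
(.lf (nat_lit 6241468546) (dlOf (nat_lit 1) (nat_lit 0x7a00280f0e81)))) (.nd (nat_lit 19) 
(.nd (nat_lit 29) (.lf (nat_lit 2483372066) (dlOf (nat_lit 1) (nat_lit 0x4c004000c00080e0482))) 
(.lf (nat_lit 3020242978) (dlOf (nat_lit 2) (nat_lit 0x5a600a0005a8181a0600)))) 
(.lf (nat_lit 4096606242) (dlOf (nat_lit 4) (nat_lit 0x5004c0005e0400140260002e0200180000000a018140b80))))) 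
(.nd (nat_lit 29) (.nd (nat_lit 5) (.nd (nat_lit 30) 
(.lf (nat_lit 2617589762) (dlOf (nat_lit 8) (nat_lit 0xfa02c002f0068023841002b00b004100540054020005c0050023682000300bc035805c000602900cf0090042004400e2a140248024007130200c001200381810001009001bfc0808080bc00500520270012002a004801a702000c8008000800200100008100003))) 
(.lf (nat_lit 1543847938) (dlOf (nat_lit 1) (nat_lit 0x20008190001)))) 
(.lf (nat_lit 1543847970) (dlOf (nat_lit 11) (nat_lit 0x46025000200100220128000f80801180940007a04008c04a00012020046025000088100170128000400801180940001e04008c04a0000d02004602500003010023012800004080028008003c002000e0008190883)))) 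
(.nd (nat_lit 5) (.nd (nat_lit 7) (.nd (nat_lit 30) 
(.lf (nat_lit 3154460674) (dlOf (nat_lit 1) (nat_lit 0x40002001000081a0002))) 
(.lf (nat_lit 4228202498) (dlOf (nat_lit 3) (nat_lit 0xc0620151302003803100a57018070000)))) 
(.lf (nat_lit 1007508866) (dlOf (nat_lit 1) (nat_lit 0x5c00183dc901)))) 
(.lf (nat_lit 3154460706) (dlOf (nat_lit 1) (nat_lit 0x2000400b200081a0182)))))))))) 
(.nd (nat_lit 16) (.nd (nat_lit 18) (.nd (nat_lit 30) (.nd (nat_lit 5) (.nd (nat_lit 10) 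
(.nd (nat_lit 11) (.nd (nat_lit 8) (.nd (nat_lit 20) 
(.lf (nat_lit 2754101314) (dlOf (nat_lit 1) (nat_lit 0x12000800f000200fe00080c1883))) 
(.lf (nat_lit 2755149890) (dlOf (nat_lit 2) (nat_lit 0x1021000080780002c08000400400020008120e02)))) 
(.nd (nat_lit 20) 
(.lf (nat_lit 2755674434) (dlOf (nat_lit 4) (nat_lit 0x1400a30002781006d06280330048000580802001d0013c0c5000150281b0600))) 
(.lf (nat_lit 24133954) (dlOf (nat_lit 5) (nat_lit 0x18ebf001370a00013010007bafc00096040049d7e00048020084e0600034b90000a810010000800e000200260008b80603))))) 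
(.nd (nat_lit 7) (.nd (nat_lit 12) 
(.lf (nat_lit 32524866) (dlOf (nat_lit 1) (nat_lit 0x2e0018ef5201))) 
(.lf (nat_lit 4362099266) (dlOf (nat_lit 8) (nat_lit 0x74053002e023804480cc00ec05a0001d0800740330000e010033029801d811c01d0066004a02d0000d84001e02e0022014c00f408e01100330000c04000e02d00210148013008c001a0450087019800700c8007c05a00200160000a88000301980005008014816c00d40a4007a046007501980004420016000800080020006000800b503)))) 
(.nd (nat_lit 8) (.lf (nat_lit 8931522) (dlOf (nat_lit 1) (nat_lit 0x4004000e0008514982))) 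
(.lf (nat_lit 402672578) (dlOf (nat_lit 1) (nat_lit 0x1e0028005d81)))))) (.nd (nat_lit 8) 
(.nd (nat_lit 7) (.nd (nat_lit 9) 
(.lf (nat_lit 536888386) (dlOf (nat_lit 1) (nat_lit 0x80080088002002a0008002883))) 
(.lf (nat_lit 1009272386) (dlOf (nat_lit 1) (nat_lit 0x200290e3801)))) (.nd (nat_lit 11) 
(.lf (nat_lit 47727810) (dlOf (nat_lit 1) (nat_lit 0x400200020009402d02))) 
(.lf (nat_lit 2754628802) (dlOf (nat_lit 1) (nat_lit 0x200280f6381))))) (.nd (nat_lit 9) 
(.lf (nat_lit 134241602) (dlOf (nat_lit 3) (nat_lit 0x1003b0027481000e01d80136008024800800d0002000a000800c903))) 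
(.nd (nat_lit 12) 
(.lf (nat_lit 6576686914) (dlOf (nat_lit 2) (nat_lit 0x130000000640400dc00200180008003e02))) 
(.lf (nat_lit 22338) (dlOf (nat_lit 1) (nat_lit 0x40040002001800a102))))))) (.nd (nat_lit 7) 
(.nd (nat_lit 10) (.nd (nat_lit 8) 
(.lf (nat_lit 471351394) (dlOf (nat_lit 1) (nat_lit 0x80080004002004000082e0483))) 
(.nd (nat_lit 11) 
(.lf (nat_lit 24133986) (dlOf (nat_lit 1) (nat_lit 0x50008000c00200060008b80703))) 
(.lf (nat_lit 536893794) (dlOf (nat_lit 1) (nat_lit 0x4002000a000800ab82))))) (.nd (nat_lit 11) 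
(.lf (nat_lit 38290530) (dlOf (nat_lit 1) (nat_lit 0x400200020009132982))) (.nd (nat_lit 26) 
(.lf (nat_lit 2952813666) (dlOf (nat_lit 3) (nat_lit 0x3600d0001500800c8068000a60400740020006000800c002))) 
(.lf (nat_lit 604003426) (dlOf (nat_lit 5) (nat_lit 0x400e0005d0200080070002601000300380012808000801c000840400180040006000800c002)))))) 
(.nd (nat_lit 8) (.nd (nat_lit 20) 
(.lf (nat_lit 17318114) (dlOf (nat_lit 6) (nat_lit 0x24854c000298100202a60000d408046953800054040054a9e0002102007455000362a78000741000080080008002000200088e0583))) 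
(.lf (nat_lit 28852450) (dlOf (nat_lit 2) (nat_lit 0x2227e00005404000800200060008da0582)))) 
(.nd (nat_lit 9) (.nd (nat_lit 27) 
(.lf (nat_lit 4362099170) (dlOf (nat_lit 2) (nat_lit 0x62019802fdc08022000800180020014000800b283))) 
(.lf (nat_lit 201349602) (dlOf (nat_lit 1) (nat_lit 0x18008000c0020002000800b283)))) 
(.lf (nat_lit 2752005090) (dlOf (nat_lit 1) (nat_lit 0x20018002881))))))) (.nd (nat_lit 27) 
(.nd (nat_lit 31) (.nd (nat_lit 7) (.nd (nat_lit 8) 
(.lf (nat_lit 1346914882) (dlOf (nat_lit 3) (nat_lit 0xe09c0001201000303e0000840800500080024002000200090a5203))) 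
(.nd (nat_lit 26) (.lf (nat_lit 1342201154) (dlOf (nat_lit 1) (nat_lit 0x480040002000800c902))) 
(.lf (nat_lit 1409310018) (dlOf (nat_lit 1) (nat_lit 0x6002800c901))))) (.nd (nat_lit 5) 
(.lf (nat_lit 1345864130) (dlOf (nat_lit 1) (nat_lit 0x20028e07001))) (.nd (nat_lit 21) 
(.lf (nat_lit 1346388194) (dlOf (nat_lit 6) (nat_lit 0x281d000170e6000887100050380000e092000f03f8008f03000e824800940fe0023304002e092002503f8008c4100078740004c39800181c4000e0e00001824800240fe0022f0c00701d000350e60019871000cc3800022d08000a0028f60a81))) 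
(.lf (nat_lit 1344291042) (dlOf (nat_lit 2) (nat_lit 0x221d00170cb80168000000540c0004002000600086b0582)))))) 
(.nd (nat_lit 19) (.nd (nat_lit 5) (.nd (nat_lit 10) 
(.lf (nat_lit 3493871938) (dlOf (nat_lit 4) (nat_lit 0x1400a60002b01006d069803300480005a0802781a601000b8000158281b0600))) 
(.lf (nat_lit 4093658434) (dlOf (nat_lit 1) (nat_lit 0x20028003301)))) 
(.lf (nat_lit 3492829282) (dlOf (nat_lit 1) (nat_lit 0x200280fa801)))) (.nd (nat_lit 5) 
(.nd (nat_lit 20) 
(.lf (nat_lit 3492298818) (dlOf (nat_lit 3) (nat_lit 0x83ce0001b0200221e7000000180c1400))) 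
(.lf (nat_lit 3493347394) (dlOf (nat_lit 2) (nat_lit 0x1021000080780002e08000400400020008120e02)))) 
(.lf (nat_lit 3221766242) (dlOf (nat_lit 2) (nat_lit 0x402f00001818181380)))))) (.nd (nat_lit 7) 
(.nd (nat_lit 8) (.nd (nat_lit 5) 
(.lf (nat_lit 3959963714) (dlOf (nat_lit 1) (nat_lit 0x5c00200340008180d02))) (.nd (nat_lit 12) 
(.lf (nat_lit 3623897186) (dlOf (nat_lit 1) (nat_lit 0xac0028004701))) 
(.lf (nat_lit 3623901282) (dlOf (nat_lit 1) (nat_lit 0x70002800a801))))) (.nd (nat_lit 9) 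
(.nd (nat_lit 12) (.lf (nat_lit 4227878210) (dlOf (nat_lit 1) (nat_lit 0xe400400280008006902))) 
(.lf (nat_lit 4227882306) (dlOf (nat_lit 5) (nat_lit 0x6d019001a30080170100016c064006860400e8032003358100050190019840801600080020002003e000800c903)))) 
(.lf (nat_lit 3691009858) (dlOf (nat_lit 3) (nat_lit 0x7402a0006b02001e0100001c81800a100))))) 
(.nd (nat_lit 9) (.nd (nat_lit 5) (.nd (nat_lit 26) 
(.lf (nat_lit 1476415682) (dlOf (nat_lit 1) (nat_lit 0xa0008007f01))) 
(.lf (nat_lit 3691008194) (dlOf (nat_lit 2) (nat_lit 0x60074000de040004004009a0008007f02)))) 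
(.nd (nat_lit 8) (.lf (nat_lit 1207977186) (dlOf (nat_lit 2) (nat_lit 0x403000020818002e00))) 
(.lf (nat_lit 4227878370) (dlOf (nat_lit 1) (nat_lit 0x7c004006e0008006e02))))) (.nd (nat_lit 8) 
(.nd (nat_lit 11) 
(.lf (nat_lit 3422569154) (dlOf (nat_lit 2) (nat_lit 0x401b800014080038008001400200080008001f03))) 
(.lf (nat_lit 6377458370) (dlOf (nat_lit 1) (nat_lit 0x4004000200080e5802)))) 
(.lf (nat_lit 1275087810) (dlOf (nat_lit 1) (nat_lit 0x2a0008005d81)))))))) (.nd (nat_lit 5) 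
(.nd (nat_lit 28) (.nd (nat_lit 19) (.nd (nat_lit 9) (.nd (nat_lit 26) (.nd (nat_lit 8) 
(.lf (nat_lit 1327170) (dlOf (nat_lit 3) (nat_lit 0x10a1600082071804a01c402340ca00006080126160009207180088000000000c0088004002200180b0782))) 
(.lf (nat_lit 2376002) (dlOf (nat_lit 2) (nat_lit 0x14305c007d800004aa7e00205368000cc200010008003000200080008150603)))) 
(.nd (nat_lit 27) (.lf (nat_lit 67387458) (dlOf (nat_lit 1) (nat_lit 0x200180f0581))) 
(.lf (nat_lit 2349088834) (dlOf (nat_lit 2) (nat_lit 0x70110000800801480080070002001200080a0d03))))) 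
(.nd (nat_lit 8) (.nd (nat_lit 11) 
(.lf (nat_lit 5905859138) (dlOf (nat_lit 1) (nat_lit 0x100028158c81))) 
(.lf (nat_lit 59001410) (dlOf (nat_lit 1) (nat_lit 0x1000297e5201)))) 
(.lf (nat_lit 2754894658) (dlOf (nat_lit 1) (nat_lit 0x800280fbc81))))) (.nd (nat_lit 20) 
(.nd (nat_lit 23) (.lf (nat_lit 802882) (dlOf (nat_lit 1) (nat_lit 0x20028020781))) 
(.lf (nat_lit 9191490) (dlOf (nat_lit 1) (nat_lit 0x8008000400200020008530583)))) (.nd (nat_lit 7) 
(.lf (nat_lit 10240066) (dlOf (nat_lit 3) (nat_lit 0x5c2d10001e01002b1358000e40800300080048002001600085c0e03))) 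
(.lf (nat_lit 47989954) (dlOf (nat_lit 1) (nat_lit 0x20029402d01)))))) (.nd (nat_lit 20) 
(.nd (nat_lit 7) (.nd (nat_lit 26) 
(.lf (nat_lit 1342455874) (dlOf (nat_lit 6) (nat_lit 0x1b06f40002e040488492023e1f000c10e3804b86f40002c100074492014a1c700970de80005418012071c005437a0001304027c2490059124000488f8016447a00b22310059115802c87c805083e000b21ef00590f4805e071c016438c01221bd00020de000000700088008025c00201b00008030e03))) 
(.lf (nat_lit 470040642) (dlOf (nat_lit 6) (nat_lit 0x910924047c3e001821c700970de80005c2000e8924029438e012e1bd0000b0300360de80005408012071c005437a0001304027c2490059124000488f8016447a00b22310059115802c87cc05083e000b21ef00590f4805e071c016438c01221bd00020de000000700088008025c00201b00008030e03)))) 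
(.nd (nat_lit 10) (.lf (nat_lit 4563681474) (dlOf (nat_lit 1) (nat_lit 0x400280c1b01))) 
(.nd (nat_lit 21) (.lf (nat_lit 1346651330) (dlOf (nat_lit 1) (nat_lit 0x2c00200020008fe2d02))) 
(.lf (nat_lit 472138946) (dlOf (nat_lit 1) (nat_lit 0x3e0008862d01)))))) (.nd (nat_lit 21) 
(.nd (nat_lit 26) 
(.lf (nat_lit 5773213762) (dlOf (nat_lit 2) (nat_lit 0x1427e005c1320000b8280b0580))) 
(.lf (nat_lit 6377193538) (dlOf (nat_lit 2) (nat_lit 0x14264005c1230000b8280b0580)))) 
(.nd (nat_lit 8) (.lf (nat_lit 1346125890) (dlOf (nat_lit 2) (nat_lit 0x3a14c000aa018e60600))) 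
(.lf (nat_lit 3493087042) (dlOf (nat_lit 5) (nat_lit 0x2b02a000b01440006c0800080a800060510001a82000502e8002817000780b00034057002e02a000d814c009c0a20026050002e0270011013400b008a004c03f002601e801600b8006804e0036021001600e000d80680068016004c0000001714000f02e8003817000200ae0002054000b028000580f400b005c002e02d0027013801080700005a280058004000400180f3e02))))))) 
(.nd (nat_lit 10) (.nd (nat_lit 7) (.nd (nat_lit 19) (.nd (nat_lit 8) 
(.lf (nat_lit 2483306594) (dlOf (nat_lit 1) (nat_lit 0x18008001c002001000080a1383))) 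
(.lf (nat_lit 2376034) (dlOf (nat_lit 3) (nat_lit 0x84c170022600001e29f80002a0c008d82e0024c00000d53f001429b400024100040004001a0008150702)))) 
(.nd (nat_lit 11) (.nd (nat_lit 23) 
(.lf (nat_lit 17580130) (dlOf (nat_lit 1) (nat_lit 0x4000088e0481))) 
(.lf (nat_lit 59523170) (dlOf (nat_lit 1) (nat_lit 0x60400401660009800902)))) 
(.lf (nat_lit 1410095202) (dlOf (nat_lit 4) (nat_lit 0x503b800501d8001c0e2000e07000070318003818400100000013f0e00140770009b81000803b8004d00800680080010002001600080fa803))))) 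
(.nd (nat_lit 8) (.nd (nat_lit 9) (.nd (nat_lit 11) 
(.lf (nat_lit 4697899234) (dlOf (nat_lit 7) (nat_lit 0x1802a00020120000c82000900a800200480003008001002a000a0120000582000500a800500480001408000c02a000e0120000482000600a80030048000100800fc004002200080c1b02))) 
(.lf (nat_lit 19683554) (dlOf (nat_lit 1) (nat_lit 0x200289da881)))) 
(.lf (nat_lit 8147682) (dlOf (nat_lit 1) (nat_lit 0x400200020008518c82)))) (.nd (nat_lit 19) 
(.nd (nat_lit 20) (.lf (nat_lit 2885960674) (dlOf (nat_lit 1) (nat_lit 0x20018142881))) 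
(.lf (nat_lit 3493086178) (dlOf (nat_lit 1) (nat_lit 0x4002000200080f2882)))) 
(.lf (nat_lit 40649698) (dlOf (nat_lit 1) (nat_lit 0x8400291f2881)))))) (.nd (nat_lit 19) 
(.nd (nat_lit 8) (.nd (nat_lit 7) (.nd (nat_lit 21) 
(.lf (nat_lit 1880376418) (dlOf (nat_lit 1) (nat_lit 0x4004000200088c2982))) 
(.lf (nat_lit 1345602658) (dlOf (nat_lit 2) (nat_lit 0x704b0001680800e8008004c00200200008d72983)))) 
(.lf (nat_lit 43271394) (dlOf (nat_lit 1) (nat_lit 0x2380080004002003c00092a2e03)))) 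
(.nd (nat_lit 9) 
(.lf (nat_lit 3489943010) (dlOf (nat_lit 2) (nat_lit 0x403d800024080018008000800200020008006e03))) 
(.nd (nat_lit 11) (.lf (nat_lit 3493091298) (dlOf (nat_lit 2) (nat_lit 0x1480510057d8180fa600))) 
(.lf (nat_lit 2818854882) (dlOf (nat_lit 1) (nat_lit 0x60028127a81)))))) (.nd (nat_lit 20) 
(.nd (nat_lit 11) (.nd (nat_lit 21) 
(.lf (nat_lit 55329890) (dlOf (nat_lit 1) (nat_lit 0x400096d2981))) 
(.lf (nat_lit 1345078370) (dlOf (nat_lit 1) (nat_lit 0x4002000200089e2982)))) 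
(.lf (nat_lit 19684450) (dlOf (nat_lit 1) (nat_lit 0x8002000200089dc002)))) (.nd (nat_lit 8) 
(.lf (nat_lit 35406946) (dlOf (nat_lit 1) (nat_lit 0x800400080009012982))) 
(.lf (nat_lit 50087266) (dlOf (nat_lit 7) (nat_lit 0x149ce8000660400a4e7400031020052744000c3a18000b0100081d1000020040018e880000f02004874400083a180129ce8000000c0008004001a00094c3402))))))))) 
(.nd (nat_lit 5) (.nd (nat_lit 28) (.nd (nat_lit 21) (.nd (nat_lit 29) (.nd (nat_lit 7) 
(.nd (nat_lit 8) (.nd (nat_lit 9) 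
(.lf (nat_lit 12664898) (dlOf (nat_lit 1) (nat_lit 0x200186d0d01))) 
(.lf (nat_lit 59066946) (dlOf (nat_lit 1) (nat_lit 0x20004000e00097e5202)))) 
(.lf (nat_lit 1208041794) (dlOf (nat_lit 1) (nat_lit 0x80028090c01)))) (.nd (nat_lit 9) 
(.lf (nat_lit 609474) (dlOf (nat_lit 1) (nat_lit 0x400400120008006382))) 
(.lf (nat_lit 347842) (dlOf (nat_lit 1) (nat_lit 0x1400400040018007282))))) (.nd (nat_lit 8) 
(.nd (nat_lit 10) (.nd (nat_lit 19) 
(.lf (nat_lit 2752593986) (dlOf (nat_lit 3) (nat_lit 0x2687f401283ce000030400a01fd004f0f38000001001a0008002400200020008020783))) 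
(.lf (nat_lit 537477186) (dlOf (nat_lit 2) (nat_lit 0x2302f80008c0802280080124002009400080a0d03)))) 
(.nd (nat_lit 31) 
(.lf (nat_lit 671171650) (dlOf (nat_lit 1) (nat_lit 0x8008011400200480008142883))) 
(.lf (nat_lit 2818655298) (dlOf (nat_lit 1) (nat_lit 0x4004000200080d2882))))) (.nd (nat_lit 27) 
(.nd (nat_lit 30) 
(.lf (nat_lit 604062018) (dlOf (nat_lit 1) (nat_lit 0x200080004002001e0008010703))) 
(.lf (nat_lit 3825287490) (dlOf (nat_lit 12) (nat_lit 0x9e01f000900b80015c10018007c0010036005a017000200983018000000ac14062403e008601b016b00b80015418148807c098803605180170002a03002d00f8005005c0009c0800f003e00300170002682001900f80013008141007c095c03604f80170002483008b00f8027005c0008e08009003e00040170002302004800f8002805c00086080da800214ac00080b0602)))) 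
(.lf (nat_lit 1812021570) (dlOf (nat_lit 2) (nat_lit 0xc0000002b0180b0600)))))) (.nd (nat_lit 8) 
(.nd (nat_lit 18) (.nd (nat_lit 7) 
(.lf (nat_lit 3752002) (dlOf (nat_lit 2) (nat_lit 0x192a40000a4080050008005800200100008220d03))) 
(.nd (nat_lit 20) (.lf (nat_lit 48317634) (dlOf (nat_lit 1) (nat_lit 0x400400040009402d02))) 
(.lf (nat_lit 36783298) (dlOf (nat_lit 1) (nat_lit 0xe0004004c0019072d02))))) (.nd (nat_lit 7) 
(.lf (nat_lit 32328258) (dlOf (nat_lit 1) (nat_lit 0x400200020008ef5202))) (.nd (nat_lit 19) 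
(.lf (nat_lit 61162690) (dlOf (nat_lit 1) (nat_lit 0x4002000200098c2d02))) 
(.lf (nat_lit 32326850) (dlOf (nat_lit 2) (nat_lit 0xa405000094080018008000c00200080008ef2d03)))))) 
(.nd (nat_lit 10) (.nd (nat_lit 18) 
(.lf (nat_lit 3227970) (dlOf (nat_lit 2) (nat_lit 0x1e1d140006404000400400020018200602))) 
(.nd (nat_lit 19) 
(.lf (nat_lit 3490114) (dlOf (nat_lit 5) (nat_lit 0x923f80000e80809a9d1400064040230e8a0003102001674500018018200600))) 
(.lf (nat_lit 53297474) (dlOf (nat_lit 1) (nat_lit 0x60029585f81))))) (.nd (nat_lit 9) 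
(.lf (nat_lit 49890626) (dlOf (nat_lit 1) (nat_lit 0x400194c3301))) 
(.lf (nat_lit 7952194) (dlOf (nat_lit 4) (nat_lit 0xd15ac000a204003cad00000c02001e53d000c24480000810018800800280020002000851a103))))))) 
(.nd (nat_lit 8) (.nd (nat_lit 7) (.nd (nat_lit 10) (.nd (nat_lit 18) (.nd (nat_lit 19) 
(.lf (nat_lit 3490791490) (dlOf (nat_lit 3) (nat_lit 0x2687ac01283a4000030400a01eb004f0e90000001001a0008002400200020008020783))) 
(.lf (nat_lit 1409892418) (dlOf (nat_lit 2) (nat_lit 0xc02f80008c0800a8008009c00200f800080a0e03)))) 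
(.lf (nat_lit 3154460738) (dlOf (nat_lit 3) (nat_lit 0xc0ac0001602000a000000018181a0580)))) 
(.nd (nat_lit 9) (.nd (nat_lit 21) 
(.lf (nat_lit 872498242) (dlOf (nat_lit 1) (nat_lit 0x38008000400200020008092883))) 
(.lf (nat_lit 6377522242) (dlOf (nat_lit 1) (nat_lit 0x4004000200080e2882)))) 
(.lf (nat_lit 4697704002) (dlOf (nat_lit 1) (nat_lit 0x20028093801))))) (.nd (nat_lit 10) 
(.nd (nat_lit 19) (.nd (nat_lit 11) 
(.lf (nat_lit 5637488834) (dlOf (nat_lit 1) (nat_lit 0x12c004001e00180f1702))) 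
(.lf (nat_lit 469846210) (dlOf (nat_lit 1) (nat_lit 0xa0018004981)))) (.nd (nat_lit 26) 
(.lf (nat_lit 5773279426) (dlOf (nat_lit 1) (nat_lit 0x200180c1701))) 
(.lf (nat_lit 6377259202) (dlOf (nat_lit 1) (nat_lit 0x600180c1b01))))) (.nd (nat_lit 11) 
(.lf (nat_lit 1344881858) (dlOf (nat_lit 1) (nat_lit 0x240008982d01))) (.nd (nat_lit 18) 
(.lf (nat_lit 1342262466) (dlOf (nat_lit 1) (nat_lit 0x310002052e0008006382))) 
(.lf (nat_lit 3490532546) (dlOf (nat_lit 1) (nat_lit 0xe0008006381))))))) (.nd (nat_lit 26) 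
(.nd (nat_lit 27) (.nd (nat_lit 19) (.nd (nat_lit 29) 
(.lf (nat_lit 4563484994) (dlOf (nat_lit 4) (nat_lit 0xe01a0002807c00740240001c0600340120000c01000b0090000500800d80080168002008e0008090c03))) 
(.lf (nat_lit 2952872258) (dlOf (nat_lit 1) (nat_lit 0xc00400020008010702)))) 
(.lf (nat_lit 1342783810) (dlOf (nat_lit 1) (nat_lit 0x28008000c002000400080c0603)))) 
(.nd (nat_lit 7) (.nd (nat_lit 31) 
(.lf (nat_lit 939606338) (dlOf (nat_lit 2) (nat_lit 0xc000000278180b0600))) 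
(.lf (nat_lit 3087089986) (dlOf (nat_lit 12) (nat_lit 0x9e01f000900b80014010018007c0010036005a0170002009830180000009e14062403e008601b016b00b80013818148807c098803605180170002683002d00f8005005c0008e0800f003e00300170002302001900f80011408141007c095c03604f80170002103008b00f8027005c0008008009003e00040170001f82004800f8002805c00078080da800214ac00080b0602)))) 
(.nd (nat_lit 19) 
(.lf (nat_lit 4697702850) (dlOf (nat_lit 2) (nat_lit 0x60090000000800a000800f000200400008091083))) 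
(.lf (nat_lit 5774066114) (dlOf (nat_lit 1) (nat_lit 0x4004000200080f7a82)))))) (.nd (nat_lit 7) 
(.nd (nat_lit 10) 
(.lf (nat_lit 470368578) (dlOf (nat_lit 1) (nat_lit 0x28008000c002000400080c0603))) 
(.nd (nat_lit 18) (.lf (nat_lit 3019982146) (dlOf (nat_lit 1) (nat_lit 0x4002000200080d3302))) 
(.lf (nat_lit 4093986114) (dlOf (nat_lit 1) (nat_lit 0x400400020008003302))))) (.nd (nat_lit 9) 
(.lf (nat_lit 1543589314) (dlOf (nat_lit 1) (nat_lit 0x60018146d01))) 
(.lf (nat_lit 469849026) (dlOf (nat_lit 1) (nat_lit 0x80080014002001e0008009203)))))))) 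
(.nd (nat_lit 8) (.nd (nat_lit 18) (.nd (nat_lit 7) (.nd (nat_lit 10) (.nd (nat_lit 9) 
(.nd (nat_lit 19) (.lf (nat_lit 47267938) (dlOf (nat_lit 1) (nat_lit 0x14002000600093c0782))) 
(.lf (nat_lit 28917858) (dlOf (nat_lit 1) (nat_lit 0x78008000400200100008da0483)))) 
(.lf (nat_lit 20009570) (dlOf (nat_lit 1) (nat_lit 0x400289d8981)))) (.nd (nat_lit 26) 
(.nd (nat_lit 20) 
(.lf (nat_lit 6308316770) (dlOf (nat_lit 1) (nat_lit 0x258008010c002001c0008053903))) 
(.lf (nat_lit 43075170) (dlOf (nat_lit 1) (nat_lit 0x1000292a3901)))) (.nd (nat_lit 30) 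
(.lf (nat_lit 4496377442) (dlOf (nat_lit 1) (nat_lit 0x1d8008011c002002e0008053903))) 
(.lf (nat_lit 5570119266) (dlOf (nat_lit 1) (nat_lit 0x140018053901)))))) (.nd (nat_lit 9) 
(.nd (nat_lit 10) (.nd (nat_lit 19) 
(.lf (nat_lit 18956514) (dlOf (nat_lit 2) (nat_lit 0x5292e40005404001000400060008970582))) 
(.lf (nat_lit 17383650) (dlOf (nat_lit 4) (nat_lit 0x52578000a80800a92c4000420400f49620001d02000200188e0581)))) 
(.lf (nat_lit 6241207522) (dlOf (nat_lit 1) (nat_lit 0x2700080038002000a0008052e03)))) 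
(.nd (nat_lit 27) (.lf (nat_lit 3556854498) (dlOf (nat_lit 1) (nat_lit 0x200180d5981))) 
(.lf (nat_lit 3154201314) (dlOf (nat_lit 1) (nat_lit 0xf000200880008105982)))))) (.nd (nat_lit 7) 
(.nd (nat_lit 19) (.nd (nat_lit 26) (.nd (nat_lit 27) 
(.lf (nat_lit 4563746914) (dlOf (nat_lit 2) (nat_lit 0x80cc010ca040030004001200080d0782))) 
(.lf (nat_lit 2818916450) (dlOf (nat_lit 1) (nat_lit 0x300080024002000e0008130283)))) 
(.lf (nat_lit 3691331682) (dlOf (nat_lit 3) (nat_lit 0x680b00038056001c02a000d0148001008800280360010009000c002800800080038000001d514000e0140003004800400080034000001d20800020008160481)))) 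
(.nd (nat_lit 10) (.nd (nat_lit 21) 
(.lf (nat_lit 52248674) (dlOf (nat_lit 1) (nat_lit 0x400400020019521982))) 
(.lf (nat_lit 1346191458) (dlOf (nat_lit 2) (nat_lit 0xfa16000a106c80268270000000c002400400100008e60902)))) 
(.lf (nat_lit 44909666) (dlOf (nat_lit 1) (nat_lit 0x20019322981))))) (.nd (nat_lit 21) 
(.nd (nat_lit 10) (.nd (nat_lit 20) 
(.lf (nat_lit 17645794) (dlOf (nat_lit 3) (nat_lit 0x50a9c0002a02000e54f0000e8188e0580))) 
(.lf (nat_lit 6111458) (dlOf (nat_lit 2) (nat_lit 0x1600000015018420580)))) 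
(.lf (nat_lit 5772231906) (dlOf (nat_lit 1) (nat_lit 0x400400020008092e02)))) (.nd (nat_lit 19) 
(.nd (nat_lit 20) 
(.lf (nat_lit 19218658) (dlOf (nat_lit 2) (nat_lit 0x267438800220240005408000c00400340018970582))) 
(.lf (nat_lit 28655842) (dlOf (nat_lit 2) (nat_lit 0x1455d801869ed00015028da0580)))) 
(.lf (nat_lit 7160034) (dlOf (nat_lit 2) (nat_lit 0x16000000150184b0580))))))) (.nd (nat_lit 28) 
(.nd (nat_lit 9) (.nd (nat_lit 11) (.nd (nat_lit 18) (.nd (nat_lit 26) 
(.lf (nat_lit 1744912738) (dlOf (nat_lit 1) (nat_lit 0x7400400300018090e82))) 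
(.lf (nat_lit 3825287522) (dlOf (nat_lit 3) (nat_lit 0x1d00f8001807800140360002906000c01f000138180b0700)))) 
(.lf (nat_lit 3490146) (dlOf (nat_lit 3) (nat_lit 0x7e0dc0006804024d10a011681100ae3a2800054180098008003000200260008200703)))) 
(.nd (nat_lit 20) 
(.lf (nat_lit 57231714) (dlOf (nat_lit 2) (nat_lit 0x3b3b002cce040034002000e0009794e82))) 
(.lf (nat_lit 37308770) (dlOf (nat_lit 1) (nat_lit 0x200190d4e81))))) (.nd (nat_lit 20) 
(.nd (nat_lit 10) (.nd (nat_lit 18) 
(.lf (nat_lit 536953826) (dlOf (nat_lit 1) (nat_lit 0x1a0008012c00200720008002883))) 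
(.lf (nat_lit 34423778) (dlOf (nat_lit 1) (nat_lit 0x20008fb2881)))) 
(.lf (nat_lit 4362164194) (dlOf (nat_lit 16) (nat_lit 0x500cc00ac804004c06600563020038033002b081001801980157c08015811c006c0660055b04001e033002a90100120198010f80800900cc008780400480660043b0201080330021d0100280198010d00800600cc007aa040090066003ce020006033001e681002501980000008035000800040020056000800a603)))) 
(.nd (nat_lit 7) (.lf (nat_lit 20007778) (dlOf (nat_lit 1) (nat_lit 0x780080004002000800089d5c03))) 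
(.lf (nat_lit 36783074) (dlOf (nat_lit 1) (nat_lit 0x20019072881)))))) (.nd (nat_lit 10) 
(.nd (nat_lit 29) (.nd (nat_lit 22) 
(.lf (nat_lit 1476477282) (dlOf (nat_lit 1) (nat_lit 0x400400020008010902))) 
(.lf (nat_lit 3493937506) (dlOf (nat_lit 1) (nat_lit 0x80080050002001600081b0703)))) 
(.nd (nat_lit 11) 
(.lf (nat_lit 3087090018) (dlOf (nat_lit 3) (nat_lit 0x1d00f8001807800140360002906000c01f000138180b0700))) 
(.lf (nat_lit 6377523554) (dlOf (nat_lit 1) (nat_lit 0x200180e4e81))))) (.nd (nat_lit 7) 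
(.nd (nat_lit 26) (.lf (nat_lit 1342262626) (dlOf (nat_lit 1) (nat_lit 0x7400400280008006a82))) 
(.lf (nat_lit 4227943778) (dlOf (nat_lit 1) (nat_lit 0x20018006a81)))) 
(.lf (nat_lit 469850082) (dlOf (nat_lit 1) (nat_lit 0x48008003c0020042000800a603)))))))))) 
(.nd (nat_lit 5) (.nd (nat_lit 16) (.nd (nat_lit 28) (.nd (nat_lit 19) (.nd (nat_lit 6) 
(.nd (nat_lit 18) (.nd (nat_lit 8) (.nd (nat_lit 20) (.nd (nat_lit 9) 
(.lf (nat_lit 5368728582) (dlOf (nat_lit 1) (nat_lit 0x20018005f81))) 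
(.lf (nat_lit 8409606) (dlOf (nat_lit 1) (nat_lit 0x60018518681)))) (.nd (nat_lit 7) 
(.lf (nat_lit 11550726) (dlOf (nat_lit 1) (nat_lit 0x11000186b0001))) 
(.lf (nat_lit 47202438) (dlOf (nat_lit 1) (nat_lit 0x200193b0f01))))) (.nd (nat_lit 9) 
(.lf (nat_lit 604000518) (dlOf (nat_lit 1) (nat_lit 0x400200020008008082))) (.nd (nat_lit 26) 
(.lf (nat_lit 1610631942) (dlOf (nat_lit 1) (nat_lit 0x200018005b01))) 
(.lf (nat_lit 1275087622) (dlOf (nat_lit 1) (nat_lit 0x20028005b01)))))) (.nd (nat_lit 21) 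
(.nd (nat_lit 20) (.nd (nat_lit 27) 
(.lf (nat_lit 4362354694) (dlOf (nat_lit 1) (nat_lit 0xe8008005000200440008030583))) 
(.lf (nat_lit 3422830598) (dlOf (nat_lit 1) (nat_lit 0xa00180f0001)))) 
(.lf (nat_lit 18104326) (dlOf (nat_lit 3) (nat_lit 0x125880027008002127c0011a04003000400260018910582)))) 
(.nd (nat_lit 7) (.nd (nat_lit 10) 
(.lf (nat_lit 3424262) (dlOf (nat_lit 2) (nat_lit 0xadcc80763c080060008002000200140008200003))) 
(.lf (nat_lit 20204550) (dlOf (nat_lit 1) (nat_lit 0x200289d5f81)))) 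
(.lf (nat_lit 11812998) (dlOf (nat_lit 1) (nat_lit 0x8002000200086c0102)))))) (.nd (nat_lit 9) 
(.nd (nat_lit 7) (.nd (nat_lit 18) (.nd (nat_lit 11) 
(.lf (nat_lit 14696518) (dlOf (nat_lit 2) (nat_lit 0x1c93b000e8998006249400441f0800070200008008001400200020008770603))) 
(.lf (nat_lit 1811961926) (dlOf (nat_lit 1) (nat_lit 0x2001800a681)))) (.nd (nat_lit 20) 
(.lf (nat_lit 67387462) (dlOf (nat_lit 1) (nat_lit 0x20002000e00080f0602))) 
(.lf (nat_lit 26492998) (dlOf (nat_lit 2) (nat_lit 0x7418c0003604000400400020018c50602))))) 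
(.nd (nat_lit 10) (.nd (nat_lit 18) 
(.lf (nat_lit 2755674310) (dlOf (nat_lit 1) (nat_lit 0x1600281b0401))) 
(.lf (nat_lit 2375878) (dlOf (nat_lit 2) (nat_lit 0x160b800068080498008000800201040008150403)))) 
(.lf (nat_lit 51397830) (dlOf (nat_lit 1) (nat_lit 0x3c0009512d01))))) (.nd (nat_lit 29) 
(.nd (nat_lit 8) (.nd (nat_lit 10) 
(.lf (nat_lit 9716294) (dlOf (nat_lit 1) (nat_lit 0x20028578d01))) 
(.lf (nat_lit 8406598) (dlOf (nat_lit 1) (nat_lit 0x400200020008513802)))) 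
(.lf (nat_lit 5368728390) (dlOf (nat_lit 1) (nat_lit 0x400400020008005c02)))) (.nd (nat_lit 7) 
(.nd (nat_lit 26) 
(.lf (nat_lit 5905859142) (dlOf (nat_lit 3) (nat_lit 0x98094000bc04002004a0005c0200060018158d01))) 
(.lf (nat_lit 3959702086) (dlOf (nat_lit 6) (nat_lit 0x1600e0003006000b0000000460c002c01c0002202001600e000b0000000801000580000003a04002c0000001c0200020008128d01)))) 
(.lf (nat_lit 2751743942) (dlOf (nat_lit 1) (nat_lit 0x9c004001c0008004402))))))) (.nd (nat_lit 22) 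
(.nd (nat_lit 6) (.nd (nat_lit 24) (.nd (nat_lit 7) (.nd (nat_lit 8) (.nd (nat_lit 9) 
(.nd (nat_lit 29) 
(.lf (nat_lit 4362616838) (dlOf (nat_lit 3) (nat_lit 0x1600c8019d404004406600cb602000c00180b0001))) 
(.lf (nat_lit 1678262278) (dlOf (nat_lit 4) (nat_lit 0x7601480050088002804300140198033a82006e014c0018098000e0480008023800400d40034068004e0060065b0700030000000000804880080050002005600081c0003)))) 
(.lf (nat_lit 604520966) (dlOf (nat_lit 2) (nat_lit 0xe03d000901a000480a80024040000e00c0008004800400000027c1c0020004002600182e8002)))) 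
(.lf (nat_lit 604520710) (dlOf (nat_lit 3) (nat_lit 0x5803c0005602000403000020000000001001f8008001c002000200082e3583)))) 
(.lf (nat_lit 537411718) (dlOf (nat_lit 1) (nat_lit 0x8008000400200020008090103)))) 
(.nd (nat_lit 20) (.nd (nat_lit 7) 
(.lf (nat_lit 19415046) (dlOf (nat_lit 3) (nat_lit 0xa559000b00100032ab0002700800500080040002000a00089a0583))) 
(.lf (nat_lit 19682438) (dlOf (nat_lit 1) (nat_lit 0x8800189d9501)))) (.nd (nat_lit 23) 
(.lf (nat_lit 18366470) (dlOf (nat_lit 1) (nat_lit 0x400400020008930002))) 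
(.lf (nat_lit 26755078) (dlOf (nat_lit 1) (nat_lit 0x8008000400200020008c70283)))))) 
(.nd (nat_lit 9) (.nd (nat_lit 7) (.nd (nat_lit 18) 
(.lf (nat_lit 2754101318) (dlOf (nat_lit 6) (nat_lit 0x1de1f9000ad010167125005c891402bc46a0005806036224a008612280015c101a707e4000aa04097c42206c61f900d30fb002187ac05483c602a416901520a9801485480548276025e136005a0000001505803b000804b800209e200080c1883))) 
(.lf (nat_lit 10240070) (dlOf (nat_lit 3) (nat_lit 0x690b440002a0400285a20001002001200085c0e81)))) 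
(.lf (nat_lit 1851846) (dlOf (nat_lit 2) (nat_lit 0x14c000000400200060018150901)))) 
(.nd (nat_lit 11) (.lf (nat_lit 1851974) (dlOf (nat_lit 2) (nat_lit 0x18a1950001c018151100))) 
(.lf (nat_lit 34097734) (dlOf (nat_lit 1) (nat_lit 0x10008000800200140008fb5203)))))) 
(.nd (nat_lit 24) (.nd (nat_lit 23) (.nd (nat_lit 6) (.nd (nat_lit 18) 
(.lf (nat_lit 4734982) (dlOf (nat_lit 1) (nat_lit 0x80080008002000200082b0003))) 
(.lf (nat_lit 6045702) (dlOf (nat_lit 1) (nat_lit 0x20008420001)))) 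
(.lf (nat_lit 4735046) (dlOf (nat_lit 1) (nat_lit 0x38002001e00082b0602)))) (.nd (nat_lit 6) 
(.nd (nat_lit 21) 
(.lf (nat_lit 13123590) (dlOf (nat_lit 1) (nat_lit 0x20008001000200060008700403))) 
(.lf (nat_lit 15220742) (dlOf (nat_lit 2) (nat_lit 0x5e775003338187c0000)))) 
(.lf (nat_lit 13385798) (dlOf (nat_lit 2) (nat_lit 0x2c9a180160a5200385190061284802c0f6c01c07b2001200000027078721880))))) 
(.nd (nat_lit 7) (.nd (nat_lit 9) (.nd (nat_lit 25) 
(.lf (nat_lit 21512198) (dlOf (nat_lit 1) (nat_lit 0x700008a40001))) 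
(.lf (nat_lit 55066630) (dlOf (nat_lit 1) (nat_lit 0x400296a0001)))) 
(.lf (nat_lit 58212870) (dlOf (nat_lit 7) (nat_lit 0xb612800670920016004000384a000af010017c25000d6124001c6080007094000e102001d8420010c200001c410006610800430800006504002e00297c7b01)))) 
(.nd (nat_lit 6) (.lf (nat_lit 23609478) (dlOf (nat_lit 1) (nat_lit 0x800200020008b80102))) 
(.lf (nat_lit 58212806) (dlOf (nat_lit 6) (nat_lit 0x1c0000011102002f842001bc2000040410000e10000200040053084000fd0200158420007c20000000100220008007c002020400097c7003)))))))) 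
(.nd (nat_lit 26) (.nd (nat_lit 6) (.nd (nat_lit 11) (.nd (nat_lit 30) (.nd (nat_lit 18) 
(.lf (nat_lit 805847046) (dlOf (nat_lit 4) (nat_lit 0x760148005008800280430014019801d042006e014c0018098000e0480008023800400d40034068004e006003848700030000000000804880080050002005600081c0003))) 
(.nd (nat_lit 27) 
(.lf (nat_lit 4563681286) (dlOf (nat_lit 6) (nat_lit 0x1501a00515c0800200cc027ac04002c066013d0020002033009e401000a019804f180800f0008004c002000e00080c0003))) 
(.lf (nat_lit 4697899014) (dlOf (nat_lit 6) (nat_lit 0x1501a0051d00800200cc0279e04002c066013c9020002033009df81000a019804ef40800f0008004c002000e00080c0003))))) 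
(.nd (nat_lit 9) (.nd (nat_lit 19) 
(.lf (nat_lit 1879326726) (dlOf (nat_lit 1) (nat_lit 0x800080e0001))) 
(.lf (nat_lit 5773213702) (dlOf (nat_lit 6) (nat_lit 0x8012f0065f8100570978032e40804404bc0195604034425e00caa02002612f006530180b0000)))) 
(.lf (nat_lit 3494134278) (dlOf (nat_lit 3) (nat_lit 0x11021000514080088174000e6040014004002800081b0d82))))) 
(.nd (nat_lit 9) (.nd (nat_lit 7) (.nd (nat_lit 27) 
(.lf (nat_lit 6710905862) (dlOf (nat_lit 1) (nat_lit 0x20028005f81))) 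
(.lf (nat_lit 5771381766) (dlOf (nat_lit 1) (nat_lit 0x400400020008005f82)))) 
(.lf (nat_lit 3489680518) (dlOf (nat_lit 1) (nat_lit 0x24002000c0008006102)))) (.nd (nat_lit 8) 
(.lf (nat_lit 2952814086) (dlOf (nat_lit 2) (nat_lit 0x200d800080440000008003800400a6000800cd02))) 
(.nd (nat_lit 18) (.lf (nat_lit 5771381510) (dlOf (nat_lit 1) (nat_lit 0x20028005b01))) 
(.lf (nat_lit 1880902406) (dlOf (nat_lit 1) (nat_lit 0x100008c95b01))))))) (.nd (nat_lit 7) 
(.nd (nat_lit 18) (.nd (nat_lit 9) (.nd (nat_lit 10) (.nd (nat_lit 21) 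
(.lf (nat_lit 3494395974) (dlOf (nat_lit 2) (nat_lit 0x3e00000027818211880))) 
(.lf (nat_lit 3492298822) (dlOf (nat_lit 3) (nat_lit 0x3c3d00007a0201961e7000000180c1400)))) 
(.lf (nat_lit 2550156358) (dlOf (nat_lit 1) (nat_lit 0x1c0028006081)))) 
(.lf (nat_lit 1342718534) (dlOf (nat_lit 3) (nat_lit 0x2190e280014408007071400098040004004000400080c1102)))) 
(.nd (nat_lit 9) (.nd (nat_lit 21) 
(.lf (nat_lit 1342455878) (dlOf (nat_lit 2) (nat_lit 0x13c24900000018030e80))) 
(.lf (nat_lit 3492036678) (dlOf (nat_lit 1) (nat_lit 0x200080a0e01)))) 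
(.lf (nat_lit 1881426502) (dlOf (nat_lit 11) (nat_lit 0xe4280003213b007f071003901e800f40f00005f0a000e140000709d80208388011c0f4007e0780002e850064071802601ec000b20800f81c6000a0e2006103d80015c1800e038c00580f6000520401040e30035070003c81ec000960c00040f4000350200640e2003003d0000cc1002a838800040f4000310400f40e2007d03d0000c010022000800d400200540008f05203))))) 
(.nd (nat_lit 8) (.nd (nat_lit 11) (.nd (nat_lit 18) 
(.lf (nat_lit 3493871814) (dlOf (nat_lit 1) (nat_lit 0x1600281b0401))) 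
(.lf (nat_lit 4563681478) (dlOf (nat_lit 3) (nat_lit 0x880500009e0400900280000702001c00080c1b81)))) 
(.lf (nat_lit 3493087430) (dlOf (nat_lit 2) (nat_lit 0x5c02f000020180f4980)))) (.nd (nat_lit 9) 
(.lf (nat_lit 1342718406) (dlOf (nat_lit 8) (nat_lit 0x470aa000605440009c0801142a800a8151000268200110aa00010c080120550000840400302a800141510001f02000b0aa00110544000780800a02a80003702000200180c0901))) 
(.nd (nat_lit 10) 
(.lf (nat_lit 1342200774) (dlOf (nat_lit 1) (nat_lit 0x3000800040020002000800be03))) 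
(.lf (nat_lit 2952810438) (dlOf (nat_lit 1) (nat_lit 0x1e0008007a81)))))))) (.nd (nat_lit 29) 
(.nd (nat_lit 19) (.nd (nat_lit 8) (.nd (nat_lit 10) (.nd (nat_lit 6) 
(.lf (nat_lit 471089158) (dlOf (nat_lit 1) (nat_lit 0x800400080008270002))) 
(.lf (nat_lit 470040646) (dlOf (nat_lit 2) (nat_lit 0x13c24900000018030e80)))) (.nd (nat_lit 7) 
(.lf (nat_lit 469783558) (dlOf (nat_lit 3) (nat_lit 0x1a0470028d00800482380146604010800400380008009202))) 
(.lf (nat_lit 2617267846) (dlOf (nat_lit 8) (nat_lit 0x2400a00076020012005000388100090028001c0080048014000c604002400a0006102000e0060000f0100090168005001400000080034004000e0008009e02))))) 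
(.nd (nat_lit 9) (.lf (nat_lit 472925446) (dlOf (nat_lit 1) (nat_lit 0x40028b52f81))) 
(.lf (nat_lit 1543522054) (dlOf (nat_lit 3) (nat_lit 0x1e02e0001201000f0170000880801080080008002003e0008003b83))))) 
(.nd (nat_lit 6) (.nd (nat_lit 7) (.nd (nat_lit 18) 
(.lf (nat_lit 470302726) (dlOf (nat_lit 1) (nat_lit 0x380080024002001e00080c0003))) 
(.lf (nat_lit 471613446) (dlOf (nat_lit 1) (nat_lit 0x180080024002000c0008360283)))) 
(.lf (nat_lit 1409826950) (dlOf (nat_lit 1) (nat_lit 0x400200020008090102)))) (.nd (nat_lit 7) 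
(.nd (nat_lit 8) 
(.lf (nat_lit 470303302) (dlOf (nat_lit 3) (nat_lit 0x2190e280014408007071400098040004004000400080c1102))) 
(.lf (nat_lit 473449798) (dlOf (nat_lit 1) (nat_lit 0x148008004c00201420008f53303)))) 
(.lf (nat_lit 470303174) (dlOf (nat_lit 8) (nat_lit 0x470aa000605440009c0801142a800a8151000268200110aa00010c080120550000840400302a800141510001f02000b0aa00110544000780800a02a80003702000200180c0901)))))) 
(.nd (nat_lit 30) (.nd (nat_lit 27) (.nd (nat_lit 6) (.nd (nat_lit 7) 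
(.lf (nat_lit 3020177414) (dlOf (nat_lit 1) (nat_lit 0x1400400020018150002))) 
(.lf (nat_lit 5167661190) (dlOf (nat_lit 2) (nat_lit 0xe01300040010000c81000300080030002001600080f0e03)))) 
(.lf (nat_lit 3020177478) (dlOf (nat_lit 2) (nat_lit 0x180340003804000400400080018150602)))) 
(.nd (nat_lit 8) (.nd (nat_lit 18) 
(.lf (nat_lit 1007173638) (dlOf (nat_lit 1) (nat_lit 0x60028210281))) 
(.lf (nat_lit 1006911494) (dlOf (nat_lit 1) (nat_lit 0x800080e0001)))) 
(.lf (nat_lit 5301619462) (dlOf (nat_lit 2) (nat_lit 0x1d00a0000b8080070008009400200500008005b03))))) 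
(.nd (nat_lit 18) (.nd (nat_lit 6) 
(.lf (nat_lit 4228399110) (dlOf (nat_lit 3) (nat_lit 0x1600c400e820400440640070902000c00180b0001))) 
(.nd (nat_lit 7) (.lf (nat_lit 4227878214) (dlOf (nat_lit 1) (nat_lit 0x60028006981))) 
(.lf (nat_lit 4227881926) (dlOf (nat_lit 6) (nat_lit 0x2a80800021402011a03200104810006020005980c80041008007c08000202020136040009f01900080010080800803ac0020012000800be03))))) 
(.nd (nat_lit 7) (.nd (nat_lit 19) 
(.lf (nat_lit 4228136966) (dlOf (nat_lit 1) (nat_lit 0xe8008005000200440008030583))) 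
(.lf (nat_lit 6377193478) (dlOf (nat_lit 6) (nat_lit 0x801200038a810057090001c3008044048000e06040344240007010200261200037f8180b0000)))) 
(.lf (nat_lit 6241403014) (dlOf (nat_lit 1) (nat_lit 0x4004000200080e2282))))))))) 
(.nd (nat_lit 18) (.nd (nat_lit 6) (.nd (nat_lit 8) (.nd (nat_lit 19) (.nd (nat_lit 27) 
(.nd (nat_lit 22) (.nd (nat_lit 20) 
(.lf (nat_lit 1677803526) (dlOf (nat_lit 1) (nat_lit 0x72800403f00008090002))) 
(.lf (nat_lit 11616262) (dlOf (nat_lit 1) (nat_lit 0xc00286c0001)))) (.nd (nat_lit 7) 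
(.lf (nat_lit 46222342) (dlOf (nat_lit 1) (nat_lit 0x60019385f81))) 
(.lf (nat_lit 4276358) (dlOf (nat_lit 1) (nat_lit 0x800400040008290282))))) (.nd (nat_lit 9) 
(.nd (nat_lit 7) (.nd (nat_lit 26) 
(.lf (nat_lit 1208041478) (dlOf (nat_lit 1) (nat_lit 0x20018090001))) 
(.lf (nat_lit 2080456710) (dlOf (nat_lit 1) (nat_lit 0x20018090001)))) 
(.lf (nat_lit 2818655366) (dlOf (nat_lit 1) (nat_lit 0x20002001000080d2b02)))) (.nd (nat_lit 26) 
(.lf (nat_lit 3355525638) (dlOf (nat_lit 1) (nat_lit 0x37800200ec00080a1482))) 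
(.lf (nat_lit 2617328134) (dlOf (nat_lit 1) (nat_lit 0x37800200ec00080a1482)))))) (.nd (nat_lit 28) 
(.nd (nat_lit 23) (.nd (nat_lit 9) (.nd (nat_lit 22) 
(.lf (nat_lit 1678327814) (dlOf (nat_lit 1) (nat_lit 0x200181e0401))) 
(.lf (nat_lit 2756263942) (dlOf (nat_lit 1) (nat_lit 0x400400020018230002)))) 
(.lf (nat_lit 50938374) (dlOf (nat_lit 4) (nat_lit 0x6546000968100032a30004080800895400007a04011c00400a800194d8002)))) 
(.nd (nat_lit 7) (.nd (nat_lit 10) 
(.lf (nat_lit 31014918) (dlOf (nat_lit 1) (nat_lit 0x400400020008e60582))) 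
(.lf (nat_lit 60378118) (dlOf (nat_lit 1) (nat_lit 0x20029845f81)))) 
(.lf (nat_lit 9000582) (dlOf (nat_lit 1) (nat_lit 0x20028519e01))))) (.nd (nat_lit 29) 
(.nd (nat_lit 20) (.lf (nat_lit 3494461446) (dlOf (nat_lit 1) (nat_lit 0x400400020018230002))) 
(.lf (nat_lit 1343832070) (dlOf (nat_lit 1) (nat_lit 0x1c0008370001)))) (.nd (nat_lit 7) 
(.lf (nat_lit 805912582) (dlOf (nat_lit 1) (nat_lit 0x200181e0401))) 
(.lf (nat_lit 4094247046) (dlOf (nat_lit 1) (nat_lit 0x68008000400200060008023b03))))))) 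
(.nd (nat_lit 9) (.nd (nat_lit 10) (.nd (nat_lit 7) 
(.lf (nat_lit 50938118) (dlOf (nat_lit 1) (nat_lit 0x200194d3581))) (.nd (nat_lit 26) 
(.lf (nat_lit 4697702790) (dlOf (nat_lit 1) (nat_lit 0x3a0008091001))) 
(.lf (nat_lit 2080457094) (dlOf (nat_lit 2) (nat_lit 0x2a039000af018091000))))) (.nd (nat_lit 12) 
(.nd (nat_lit 21) (.lf (nat_lit 55657734) (dlOf (nat_lit 1) (nat_lit 0x4002000200096d2f82))) 
(.lf (nat_lit 36783366) (dlOf (nat_lit 1) (nat_lit 0x80019072f81)))) 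
(.lf (nat_lit 2617332998) (dlOf (nat_lit 1) (nat_lit 0x24002001000080a9602))))) (.nd (nat_lit 7) 
(.nd (nat_lit 22) (.nd (nat_lit 19) 
(.lf (nat_lit 5637229318) (dlOf (nat_lit 1) (nat_lit 0x20028055b01))) 
(.lf (nat_lit 60377862) (dlOf (nat_lit 1) (nat_lit 0x40029845b01)))) (.nd (nat_lit 23) 
(.lf (nat_lit 474041094) (dlOf (nat_lit 1) (nat_lit 0x400400020009005b02))) 
(.lf (nat_lit 46222086) (dlOf (nat_lit 1) (nat_lit 0xc0019385b01))))) (.nd (nat_lit 10) 
(.lf (nat_lit 20007814) (dlOf (nat_lit 1) (nat_lit 0x2100080004002003200089d5c03))) 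
(.lf (nat_lit 4362160006) (dlOf (nat_lit 1) (nat_lit 0x20018004181))))))) (.nd (nat_lit 26) 
(.nd (nat_lit 10) (.nd (nat_lit 9) (.nd (nat_lit 7) (.nd (nat_lit 8) 
(.lf (nat_lit 14762054) (dlOf (nat_lit 2) (nat_lit 0x67b10000e818770600))) 
(.lf (nat_lit 23675206) (dlOf (nat_lit 1) (nat_lit 0xa0008005c00200320008b80603)))) 
(.lf (nat_lit 4697702854) (dlOf (nat_lit 2) (nat_lit 0x9b00900000008010800800a800200f60008091103)))) 
(.nd (nat_lit 7) (.nd (nat_lit 19) 
(.lf (nat_lit 11616838) (dlOf (nat_lit 2) (nat_lit 0x7151b2021a79b000c3890000e81800100080010002000600086c1103))) 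
(.lf (nat_lit 3491316294) (dlOf (nat_lit 2) (nat_lit 0x341ed00160ac000098100020008000400200020008091103)))) 
(.lf (nat_lit 1342264006) (dlOf (nat_lit 1) (nat_lit 0x540008008c81))))) (.nd (nat_lit 12) 
(.nd (nat_lit 9) (.nd (nat_lit 8) 
(.lf (nat_lit 2818655302) (dlOf (nat_lit 1) (nat_lit 0x1800280d2881))) 
(.lf (nat_lit 2818655558) (dlOf (nat_lit 1) (nat_lit 0x600280d3301)))) (.nd (nat_lit 23) 
(.lf (nat_lit 268518982) (dlOf (nat_lit 1) (nat_lit 0x800400020008053802))) 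
(.lf (nat_lit 8472134) (dlOf (nat_lit 1) (nat_lit 0x10008000400200080008513803))))) 
(.nd (nat_lit 7) (.nd (nat_lit 23) 
(.lf (nat_lit 1342264390) (dlOf (nat_lit 1) (nat_lit 0x25000200480008009302))) 
(.lf (nat_lit 8475718) (dlOf (nat_lit 1) (nat_lit 0x40018519301)))) 
(.lf (nat_lit 20012230) (dlOf (nat_lit 1) (nat_lit 0x200089dc201)))))) (.nd (nat_lit 28) 
(.nd (nat_lit 19) (.nd (nat_lit 7) 
(.lf (nat_lit 604061766) (dlOf (nat_lit 1) (nat_lit 0x20028010081))) 
(.lf (nat_lit 604061894) (dlOf (nat_lit 2) (nat_lit 0x400e0000002006c0008010401)))) 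
(.nd (nat_lit 9) (.nd (nat_lit 21) 
(.lf (nat_lit 3960029254) (dlOf (nat_lit 4) (nat_lit 0x628114015c084017e03f00570198001542006f815003fc08a00f604200f401f804400cc000a81403b008c003404300320200001441800f80080088002007e00081a1883))) 
(.lf (nat_lit 2754166854) (dlOf (nat_lit 3) (nat_lit 0x60fc8001540801087e4003c3d60002180000b0b4800104ec000a8140024004006200180c1882)))) 
(.lf (nat_lit 2753118790) (dlOf (nat_lit 2) (nat_lit 0x341ff00160ae800098100020008000400200020008091103))))) 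
(.nd (nat_lit 7) (.nd (nat_lit 8) (.nd (nat_lit 10) 
(.lf (nat_lit 1409892422) (dlOf (nat_lit 1) (nat_lit 0x12000800bc002004e00080a0e03))) 
(.lf (nat_lit 469849158) (dlOf (nat_lit 1) (nat_lit 0xa0008004c00200080008009303)))) 
(.lf (nat_lit 3691069766) (dlOf (nat_lit 1) (nat_lit 0x340028010781)))) (.nd (nat_lit 8) 
(.lf (nat_lit 1409371334) (dlOf (nat_lit 1) (nat_lit 0x8008000400200020008006383))) 
(.lf (nat_lit 2080457158) (dlOf (nat_lit 2) (nat_lit 0x1301c8000000800800080030002006c0008091103)))))))) 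
(.nd (nat_lit 28) (.nd (nat_lit 23) (.nd (nat_lit 6) (.nd (nat_lit 7) (.nd (nat_lit 11) 
(.nd (nat_lit 19) (.lf (nat_lit 24461318) (dlOf (nat_lit 1) (nat_lit 0x8008000400200020008ba0003))) 
(.lf (nat_lit 21839878) (dlOf (nat_lit 1) (nat_lit 0x400400020008a70002)))) 
(.lf (nat_lit 346118) (dlOf (nat_lit 1) (nat_lit 0x40018004701)))) (.nd (nat_lit 8) 
(.lf (nat_lit 20791430) (dlOf (nat_lit 1) (nat_lit 0x4002000200089e2282))) 
(.lf (nat_lit 36522374) (dlOf (nat_lit 1) (nat_lit 0x40019074e81))))) (.nd (nat_lit 10) 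
(.nd (nat_lit 8) (.nd (nat_lit 9) 
(.lf (nat_lit 53297222) (dlOf (nat_lit 2) (nat_lit 0xd258800138080080008011800200180009581683))) 
(.lf (nat_lit 38095430) (dlOf (nat_lit 2) (nat_lit 0x3c130c000be040004004000e0019135202)))) 
(.lf (nat_lit 8210758) (dlOf (nat_lit 2) (nat_lit 0x93600000e04000800400020018514d02)))) 
(.nd (nat_lit 8) (.nd (nat_lit 19) 
(.lf (nat_lit 20272198) (dlOf (nat_lit 1) (nat_lit 0x100080004002000200089d9303))) 
(.lf (nat_lit 8213574) (dlOf (nat_lit 1) (nat_lit 0x20018519301)))) 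
(.lf (nat_lit 19748678) (dlOf (nat_lit 1) (nat_lit 0xf200189da181)))))) (.nd (nat_lit 19) 
(.nd (nat_lit 20) (.nd (nat_lit 24) 
(.lf (nat_lit 10829830) (dlOf (nat_lit 1) (nat_lit 0x8008000400200020008630003))) 
(.lf (nat_lit 27607046) (dlOf (nat_lit 1) (nat_lit 0x1a0028d00281)))) (.nd (nat_lit 6) 
(.nd (nat_lit 7) (.lf (nat_lit 16072710) (dlOf (nat_lit 1) (nat_lit 0x800400020008860282))) 
(.lf (nat_lit 11878534) (dlOf (nat_lit 1) (nat_lit 0x80080004002000200086c0103)))) 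
(.lf (nat_lit 26558534) (dlOf (nat_lit 2) (nat_lit 0x1caa0400e94c20062a2900444bd80006c200008008001400200020008c50603))))) 
(.nd (nat_lit 21) (.nd (nat_lit 6) 
(.lf (nat_lit 14499846) (dlOf (nat_lit 1) (nat_lit 0x1c00400080018760002))) 
(.lf (nat_lit 13451334) (dlOf (nat_lit 2) (nat_lit 0x30343002114840009c080038004001c0018721882)))) 
(.nd (nat_lit 7) (.nd (nat_lit 9) 
(.lf (nat_lit 29179910) (dlOf (nat_lit 3) (nat_lit 0x1d5c80016ae3000b0020001567800270080008008001000200020008dd0583))) 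
(.lf (nat_lit 12403206) (dlOf (nat_lit 1) (nat_lit 0x4004000200086c0d82)))) 
(.lf (nat_lit 33376646) (dlOf (nat_lit 1) (nat_lit 0x20028f54e81))))))) (.nd (nat_lit 27) 
(.nd (nat_lit 29) (.nd (nat_lit 6) (.nd (nat_lit 7) (.nd (nat_lit 19) 
(.lf (nat_lit 4563746822) (dlOf (nat_lit 1) (nat_lit 0x4004002800180d0002))) 
(.lf (nat_lit 1346191366) (dlOf (nat_lit 4) (nat_lit 0x10ac0001033c003c10600e8006000e158000206780258410002036400000040004004000e0008e60002)))) 
(.lf (nat_lit 5637488774) (dlOf (nat_lit 3) (nat_lit 0x2c013000580900006808004803a000e019000600c000c000000064100040002001a00080f0e02)))) 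
(.nd (nat_lit 21) (.lf (nat_lit 4563746886) (dlOf (nat_lit 2) (nat_lit 0x40290004b0180d0480))) 
(.lf (nat_lit 3492102214) (dlOf (nat_lit 2) (nat_lit 0x5022c0004004001c002000e00080a0e02))))) 
(.nd (nat_lit 7) (.nd (nat_lit 6) 
(.lf (nat_lit 4095036166) (dlOf (nat_lit 1) (nat_lit 0x20028055b01))) 
(.lf (nat_lit 2953134150) (dlOf (nat_lit 1) (nat_lit 0x21000800e800200020008160083)))) 
(.nd (nat_lit 8) (.lf (nat_lit 872759430) (dlOf (nat_lit 2) (nat_lit 0x6016000130180c0e00))) 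
(.lf (nat_lit 1880967558) (dlOf (nat_lit 1) (nat_lit 0x200008d74e81)))))) (.nd (nat_lit 6) 
(.nd (nat_lit 7) (.nd (nat_lit 8) 
(.lf (nat_lit 4697964550) (dlOf (nat_lit 1) (nat_lit 0x4004002800180d0002))) (.nd (nat_lit 9) 
(.lf (nat_lit 5772231942) (dlOf (nat_lit 1) (nat_lit 0x60018092f81))) 
(.lf (nat_lit 5771709190) (dlOf (nat_lit 1) (nat_lit 0x10008000c00200040008005b03))))) 
(.nd (nat_lit 29) (.lf (nat_lit 402997382) (dlOf (nat_lit 1) (nat_lit 0x400180c0e01))) 
(.lf (nat_lit 5234835590) (dlOf (nat_lit 3) (nat_lit 0xf401400036020052017000900a00018020000640c0018004000c00180f0e02))))) 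
(.nd (nat_lit 29) (.nd (nat_lit 26) 
(.lf (nat_lit 4697964614) (dlOf (nat_lit 2) (nat_lit 0x40290004b0180d0480))) 
(.lf (nat_lit 3691331654) (dlOf (nat_lit 1) (nat_lit 0x21000800e800200020008160083)))) 
(.nd (nat_lit 31) (.lf (nat_lit 1006977094) (dlOf (nat_lit 1) (nat_lit 0x400400020008121882))) 
(.lf (nat_lit 3154460742) (dlOf (nat_lit 1) (nat_lit 0x200181a0601)))))))))) (.nd (nat_lit 28) 
(.nd (nat_lit 16) (.nd (nat_lit 18) (.nd (nat_lit 9) (.nd (nat_lit 26) (.nd (nat_lit 7) 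
(.nd (nat_lit 21) (.nd (nat_lit 8) (.nd (nat_lit 29) 
(.lf (nat_lit 3221766182) (dlOf (nat_lit 1) (nat_lit 0x4000200080008180902))) 
(.lf (nat_lit 5906120742) (dlOf (nat_lit 1) (nat_lit 0x400281c0581)))) 
(.lf (nat_lit 544038) (dlOf (nat_lit 1) (nat_lit 0x8008000c00200020008006803)))) (.nd (nat_lit 20) 
(.lf (nat_lit 15220774) (dlOf (nat_lit 3) (nat_lit 0x1748ea0005b810091475000000080100008032400200a600087c0603))) 
(.lf (nat_lit 16269350) (dlOf (nat_lit 1) (nat_lit 0xc4004000a0008880602))))) (.nd (nat_lit 8) 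
(.nd (nat_lit 11) (.lf (nat_lit 47202470) (dlOf (nat_lit 1) (nat_lit 0x34002001000093b1482))) 
(.lf (nat_lit 8407206) (dlOf (nat_lit 1) (nat_lit 0x60018514881)))) 
(.lf (nat_lit 8405414) (dlOf (nat_lit 1) (nat_lit 0xf0008000400200020008511003))))) 
(.nd (nat_lit 21) (.nd (nat_lit 27) (.nd (nat_lit 8) 
(.lf (nat_lit 6510100518) (dlOf (nat_lit 1) (nat_lit 0x400281c0581))) 
(.lf (nat_lit 4362098982) (dlOf (nat_lit 1) (nat_lit 0x2002800ab81)))) (.nd (nat_lit 30) 
(.lf (nat_lit 2886221862) (dlOf (nat_lit 2) (nat_lit 0x60130001f8181a0580))) 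
(.lf (nat_lit 3959963686) (dlOf (nat_lit 1) (nat_lit 0x4000200080008180902))))) (.nd (nat_lit 20) 
(.lf (nat_lit 2754101286) (dlOf (nat_lit 2) (nat_lit 0x309300004a040020004002000080c0b82))) 
(.lf (nat_lit 2755149862) (dlOf (nat_lit 2) (nat_lit 0x202200005018120a00)))))) (.nd (nat_lit 6) 
(.nd (nat_lit 7) (.nd (nat_lit 10) (.nd (nat_lit 19) 
(.lf (nat_lit 45107750) (dlOf (nat_lit 1) (nat_lit 0x220019325181))) 
(.lf (nat_lit 20466214) (dlOf (nat_lit 1) (nat_lit 0x200189d5181)))) 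
(.lf (nat_lit 2147501606) (dlOf (nat_lit 1) (nat_lit 0x4002003c0008003702)))) (.nd (nat_lit 10) 
(.lf (nat_lit 5368728486) (dlOf (nat_lit 1) (nat_lit 0x8008000400200020008005d03))) 
(.lf (nat_lit 8931238) (dlOf (nat_lit 1) (nat_lit 0xe0008514301))))) (.nd (nat_lit 7) 
(.nd (nat_lit 19) (.nd (nat_lit 20) 
(.lf (nat_lit 738215526) (dlOf (nat_lit 2) (nat_lit 0x4044000801d00029028003900))) 
(.lf (nat_lit 61884006) (dlOf (nat_lit 4) (nat_lit 0x71c2a00041020040ced000198100126768000c8080058008000800200660009923903)))) 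
(.lf (nat_lit 52971110) (dlOf (nat_lit 3) (nat_lit 0x9f776004f38200279818000b418013ce080005804000800400080009573902)))) 
(.nd (nat_lit 8) (.nd (nat_lit 10) 
(.lf (nat_lit 57166566) (dlOf (nat_lit 1) (nat_lit 0x20009795981))) 
(.lf (nat_lit 536889062) (dlOf (nat_lit 1) (nat_lit 0x20028003a81)))) 
(.lf (nat_lit 39863270) (dlOf (nat_lit 1) (nat_lit 0x1c00191f2881))))))) (.nd (nat_lit 21) 
(.nd (nat_lit 26) (.nd (nat_lit 6) (.nd (nat_lit 9) (.nd (nat_lit 24) 
(.lf (nat_lit 10240038) (dlOf (nat_lit 2) (nat_lit 0xca8a00007408010000801e4002004200085c0a03))) 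
(.lf (nat_lit 27017254) (dlOf (nat_lit 2) (nat_lit 0x1bf61400162040050004002a0018ca0602)))) 
(.nd (nat_lit 7) (.lf (nat_lit 54807078) (dlOf (nat_lit 1) (nat_lit 0x800400020009655182))) 
(.lf (nat_lit 280486) (dlOf (nat_lit 1) (nat_lit 0x400400020008004302))))) (.nd (nat_lit 7) 
(.lf (nat_lit 59523174) (dlOf (nat_lit 2) (nat_lit 0x18000000000080128008000c002006e0009800983))) 
(.nd (nat_lit 29) 
(.lf (nat_lit 3221504486) (dlOf (nat_lit 4) (nat_lit 0x14c01c0002202002200e00010010005007000074080010008000800200020008127303))) 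
(.lf (nat_lit 5905859046) (dlOf (nat_lit 5) (nat_lit 0x12025001200b801444100080094005002e004c9040012025000500b80131c10006805c00964040004004002c0018157d02)))))) 
(.nd (nat_lit 11) (.nd (nat_lit 7) (.nd (nat_lit 27) 
(.lf (nat_lit 1678000166) (dlOf (nat_lit 6) (nat_lit 0x7803800100180002204001400e00010810001007000080080070038000c0000001e04001200e0008000000074100208008011c002000a0008130583))) 
(.lf (nat_lit 1812217894) (dlOf (nat_lit 5) (nat_lit 0x920000001781006e00c0006802c01e80000002a0600b8018005b0000000a410032806000012040034004001c0018180582)))) 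
(.lf (nat_lit 68961446) (dlOf (nat_lit 1) (nat_lit 0x20018842c01)))) (.nd (nat_lit 6) 
(.nd (nat_lit 7) 
(.lf (nat_lit 738478886) (dlOf (nat_lit 2) (nat_lit 0x5015000484080008008000c00200040008095c03))) 
(.lf (nat_lit 4496575398) (dlOf (nat_lit 2) (nat_lit 0x6034000000180e5d00)))) 
(.lf (nat_lit 2751748198) (dlOf (nat_lit 1) (nat_lit 0xa001800a801)))))) (.nd (nat_lit 19) 
(.nd (nat_lit 6) (.nd (nat_lit 7) (.nd (nat_lit 23) 
(.lf (nat_lit 19152934) (dlOf (nat_lit 1) (nat_lit 0x480018970001))) 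
(.lf (nat_lit 44318758) (dlOf (nat_lit 1) (nat_lit 0x400292f0981)))) 
(.lf (nat_lit 20205222) (dlOf (nat_lit 1) (nat_lit 0x6000089d7201)))) (.nd (nat_lit 7) 
(.lf (nat_lit 2376038) (dlOf (nat_lit 8) (nat_lit 0x3460b8009b00000bd4fc00015060034c170013600000d29f8000280c002d82e000ac00000e53f000329b4000261000bd82e003ec00001e53f000c29b4000241000a182e001ec00002e53f000a29b40002210005182e0028c00001753f0007a9b4000201000c14fc000030200100018150701))) 
(.lf (nat_lit 20204518) (dlOf (nat_lit 1) (nat_lit 0x400289d5e81))))) (.nd (nat_lit 7) 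
(.nd (nat_lit 6) (.nd (nat_lit 9) 
(.lf (nat_lit 2754363430) (dlOf (nat_lit 2) (nat_lit 0x501fa0000d8180e0500))) 
(.lf (nat_lit 41699878) (dlOf (nat_lit 1) (nat_lit 0x120008000400200020009245183)))) 
(.lf (nat_lit 19682918) (dlOf (nat_lit 3) (nat_lit 0x1156e0006ab68014d80800b95b400a6b02003600289d9c01)))) 
(.nd (nat_lit 11) (.lf (nat_lit 8144294) (dlOf (nat_lit 1) (nat_lit 0x400200020008513602))) 
(.lf (nat_lit 19684774) (dlOf (nat_lit 1) (nat_lit 0x80080004002000200089dcb83)))))))) 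
(.nd (nat_lit 18) (.nd (nat_lit 24) (.nd (nat_lit 19) (.nd (nat_lit 23) (.nd (nat_lit 6) 
(.nd (nat_lit 8) (.lf (nat_lit 36783270) (dlOf (nat_lit 1) (nat_lit 0x1c004001e0009072c02))) 
(.lf (nat_lit 4362160038) (dlOf (nat_lit 2) (nat_lit 0x20000000b818004300)))) (.nd (nat_lit 7) 
(.lf (nat_lit 3825287526) (dlOf (nat_lit 3) (nat_lit 0x5a00f801d006c006002e0002906007e01f003500d800a005c0004e0c0124002000c00080b0702))) 
(.nd (nat_lit 11) (.lf (nat_lit 1744912614) (dlOf (nat_lit 1) (nat_lit 0x10002003c0008090a82))) 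
(.lf (nat_lit 4362160358) (dlOf (nat_lit 2) (nat_lit 0x420000000b018004b00)))))) (.nd (nat_lit 7) 
(.nd (nat_lit 9) (.lf (nat_lit 15810598) (dlOf (nat_lit 1) (nat_lit 0x13c0028830601))) 
(.lf (nat_lit 46221862) (dlOf (nat_lit 1) (nat_lit 0x60019385181)))) (.nd (nat_lit 8) 
(.lf (nat_lit 8472742) (dlOf (nat_lit 1) (nat_lit 0x400400460008514882))) 
(.lf (nat_lit 8470950) (dlOf (nat_lit 1) (nat_lit 0x400200020008511002)))))) (.nd (nat_lit 27) 
(.nd (nat_lit 6) (.nd (nat_lit 8) (.nd (nat_lit 20) 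
(.lf (nat_lit 2754166822) (dlOf (nat_lit 1) (nat_lit 0x1d0008009400200c000080c0b83))) 
(.lf (nat_lit 1654822) (dlOf (nat_lit 1) (nat_lit 0x5800400040008110582)))) 
(.lf (nat_lit 609574) (dlOf (nat_lit 1) (nat_lit 0x400400100008006802)))) (.nd (nat_lit 7) 
(.lf (nat_lit 537477222) (dlOf (nat_lit 1) (nat_lit 0x8004000400080a1302))) 
(.lf (nat_lit 7952614) (dlOf (nat_lit 2) (nat_lit 0x1ca9800aa4020014002851a881))))) 
(.nd (nat_lit 26) (.nd (nat_lit 29) 
(.lf (nat_lit 134823974) (dlOf (nat_lit 1) (nat_lit 0xc00080c0b81))) 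
(.lf (nat_lit 3892920358) (dlOf (nat_lit 1) (nat_lit 0x1e000800ac00200e60008290d83)))) 
(.lf (nat_lit 201932838) (dlOf (nat_lit 1) (nat_lit 0xc00080c0b81)))))) (.nd (nat_lit 21) 
(.nd (nat_lit 22) (.nd (nat_lit 7) (.nd (nat_lit 20) 
(.lf (nat_lit 16859174) (dlOf (nat_lit 1) (nat_lit 0x200288e0001))) 
(.lf (nat_lit 26296358) (dlOf (nat_lit 1) (nat_lit 0x20028c30281)))) 
(.lf (nat_lit 58804902) (dlOf (nat_lit 1) (nat_lit 0x200097e5601)))) (.nd (nat_lit 8) 
(.nd (nat_lit 20) 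
(.lf (nat_lit 21053478) (dlOf (nat_lit 2) (nat_lit 0x21bea0004dec00026a580017c1802380080068002011c0008a00903))) 
(.lf (nat_lit 22102054) (dlOf (nat_lit 2) (nat_lit 0x23b040011c2c0002a0400020008a90581)))) 
(.lf (nat_lit 54610726) (dlOf (nat_lit 1) (nat_lit 0x20009655c01))))) (.nd (nat_lit 10) 
(.nd (nat_lit 6) 
(.lf (nat_lit 23150630) (dlOf (nat_lit 2) (nat_lit 0x713c80009c080088008003c00200060008b60783))) 
(.nd (nat_lit 8) (.lf (nat_lit 20009062) (dlOf (nat_lit 1) (nat_lit 0x200089d7d81))) 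
(.lf (nat_lit 57231718) (dlOf (nat_lit 2) (nat_lit 0x26b3b402bf604000400200020009794e82))))) 
(.nd (nat_lit 7) 
(.lf (nat_lit 61949542) (dlOf (nat_lit 3) (nat_lit 0x15358000cc08007b0200000004000400200060009923902))) 
(.nd (nat_lit 11) (.lf (nat_lit 61424870) (dlOf (nat_lit 1) (nat_lit 0x400200060009922e02))) 
(.lf (nat_lit 20532454) (dlOf (nat_lit 1) (nat_lit 0x8004000200089d6502)))))))) (.nd (nat_lit 20) 
(.nd (nat_lit 27) (.nd (nat_lit 9) (.nd (nat_lit 29) (.nd (nat_lit 19) 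
(.lf (nat_lit 3221569574) (dlOf (nat_lit 1) (nat_lit 0x20008140581))) 
(.lf (nat_lit 5062694) (dlOf (nat_lit 2) (nat_lit 0x7f33c800093440017e08007c004003e0008300602)))) 
(.nd (nat_lit 26) (.nd (nat_lit 30) 
(.lf (nat_lit 537215014) (dlOf (nat_lit 3) (nat_lit 0x20000001a0100030000000c80800180080028002000c0008060583))) 
(.lf (nat_lit 3758440486) (dlOf (nat_lit 2) (nat_lit 0x4060000e702000c00181c0601)))) 
(.lf (nat_lit 604323878) (dlOf (nat_lit 1) (nat_lit 0xe800800c000200040008160603))))) 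
(.nd (nat_lit 7) (.nd (nat_lit 19) 
(.lf (nat_lit 42289702) (dlOf (nat_lit 1) (nat_lit 0x20029245181))) 
(.lf (nat_lit 19745318) (dlOf (nat_lit 1) (nat_lit 0x80080008002000200089d5183)))) 
(.lf (nat_lit 8734630) (dlOf (nat_lit 1) (nat_lit 0x400400020008514302))))) (.nd (nat_lit 29) 
(.nd (nat_lit 7) (.nd (nat_lit 31) 
(.lf (nat_lit 201670694) (dlOf (nat_lit 1) (nat_lit 0x400400020008080982))) 
(.lf (nat_lit 2349154342) (dlOf (nat_lit 3) (nat_lit 0x2b0038000bc04001005400a2010007500700016c1801180080010002005200080e0503)))) 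
(.lf (nat_lit 1208303782) (dlOf (nat_lit 1) (nat_lit 0x600180c1481)))) (.nd (nat_lit 7) 
(.nd (nat_lit 26) (.lf (nat_lit 671432742) (dlOf (nat_lit 1) (nat_lit 0x4800200200008190902))) 
(.lf (nat_lit 3959767078) (dlOf (nat_lit 1) (nat_lit 0x20008140581)))) 
(.lf (nat_lit 738541734) (dlOf (nat_lit 1) (nat_lit 0x4004000a00180a2c02)))))) (.nd (nat_lit 19) 
(.nd (nat_lit 8) (.nd (nat_lit 7) (.nd (nat_lit 9) 
(.lf (nat_lit 30752806) (dlOf (nat_lit 1) (nat_lit 0x300008e50a81))) 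
(.lf (nat_lit 45435430) (dlOf (nat_lit 4) (nat_lit 0x3ccea0004601005167500022c08024b3a80011204000800400060019325182)))) 
(.lf (nat_lit 20271782) (dlOf (nat_lit 1) (nat_lit 0x4002000200089d8c82)))) (.nd (nat_lit 6) 
(.lf (nat_lit 3490086) (dlOf (nat_lit 2) (nat_lit 0xde7450001f818200500))) 
(.lf (nat_lit 3490150) (dlOf (nat_lit 2) (nat_lit 0x249fc000032040018004000e0008200702))))) 
(.nd (nat_lit 7) (.nd (nat_lit 6) (.nd (nat_lit 23) 
(.lf (nat_lit 69025830) (dlOf (nat_lit 1) (nat_lit 0x2400400080018880202))) 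
(.lf (nat_lit 10305574) (dlOf (nat_lit 2) (nat_lit 0x339fa000150185d0580)))) 
(.lf (nat_lit 52248678) (dlOf (nat_lit 1) (nat_lit 0x20029521981)))) (.nd (nat_lit 8) 
(.lf (nat_lit 33376934) (dlOf (nat_lit 1) (nat_lit 0x18008000400200020008f55603))) 
(.nd (nat_lit 21) (.lf (nat_lit 2753380774) (dlOf (nat_lit 1) (nat_lit 0x400400020008090782))) 
(.lf (nat_lit 8208806) (dlOf (nat_lit 1) (nat_lit 0x400200020008511002)))))))))) (.nd (nat_lit 27) 
(.nd (nat_lit 16) (.nd (nat_lit 18) (.nd (nat_lit 8) (.nd (nat_lit 9) (.nd (nat_lit 19) 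
(.nd (nat_lit 10) (.lf (nat_lit 2952810534) (dlOf (nat_lit 1) (nat_lit 0xa0008007b01))) 
(.lf (nat_lit 3489680422) (dlOf (nat_lit 1) (nat_lit 0x420008006081)))) (.nd (nat_lit 20) 
(.lf (nat_lit 3492298790) (dlOf (nat_lit 2) (nat_lit 0x308d00001c040020004002000080c0b82))) 
(.lf (nat_lit 3493347366) (dlOf (nat_lit 2) (nat_lit 0x202200005018120a00))))) (.nd (nat_lit 7) 
(.nd (nat_lit 10) (.lf (nat_lit 1345341990) (dlOf (nat_lit 1) (nat_lit 0xc0028b55181))) 
(.lf (nat_lit 335562278) (dlOf (nat_lit 2) (nat_lit 0x201300000018003700)))) 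
(.lf (nat_lit 1345342118) (dlOf (nat_lit 2) (nat_lit 0x204e00011408009000800e400200120008b55603))))) 
(.nd (nat_lit 7) (.nd (nat_lit 19) 
(.lf (nat_lit 3489680678) (dlOf (nat_lit 2) (nat_lit 0x4034800090080010008000400200040008006803))) 
(.lf (nat_lit 3490204966) (dlOf (nat_lit 2) (nat_lit 0x208b00012018006800)))) (.nd (nat_lit 9) 
(.lf (nat_lit 3489679782) (dlOf (nat_lit 1) (nat_lit 0x20018004e81))) 
(.lf (nat_lit 6710905766) (dlOf (nat_lit 1) (nat_lit 0x400400020008005d02)))))) (.nd (nat_lit 21) 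
(.nd (nat_lit 7) (.nd (nat_lit 29) 
(.lf (nat_lit 1342455846) (dlOf (nat_lit 6) (nat_lit 0x2d11e0061855002a02a2015c0f4001c04a0000802801508f000a42a80001f040002247002911e005f055002ac2a2016813700b407a005c025001900060001d10014e15400b00a880568250000380c02742a800d8151006509b8032825000036100044004001e0018030a02))) 
(.nd (nat_lit 31) 
(.lf (nat_lit 805584934) (dlOf (nat_lit 6) (nat_lit 0x7803800100180002204001400e00010810001007000080080070038000c0000001e04001200e0008000000074100208008011c002000a0008130583))) 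
(.lf (nat_lit 2953068582) (dlOf (nat_lit 1) (nat_lit 0x5400280f0701))))) (.nd (nat_lit 26) 
(.lf (nat_lit 4563681446) (dlOf (nat_lit 15) (nat_lit 0x3f40330001301004101a003500cc000440806a4066000210200020120001001020501980007c080e900d007b8066011601f0000e83019301a002f007c0002e0802200660000e020002033000068100fb0198000280802a80cc00012040708066000080200780330000181020c0198000000803b800802d0002017a00080c1483))) 
(.nd (nat_lit 29) (.lf (nat_lit 4630790310) (dlOf (nat_lit 1) (nat_lit 0x18004002200080c1482))) 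
(.lf (nat_lit 5167661222) (dlOf (nat_lit 1) (nat_lit 0x4004006200080f1382)))))) (.nd (nat_lit 19) 
(.nd (nat_lit 7) (.nd (nat_lit 6) 
(.lf (nat_lit 1881426470) (dlOf (nat_lit 2) (nat_lit 0xa07900046018f05180))) 
(.lf (nat_lit 1345602662) (dlOf (nat_lit 3) (nat_lit 0x1a0960002d01000204b00015c0800f8008004400200220008d72983)))) 
(.nd (nat_lit 10) 
(.lf (nat_lit 3493087398) (dlOf (nat_lit 2) (nat_lit 0x202200006808000800800cc002001400080f4883))) 
(.lf (nat_lit 1345602726) (dlOf (nat_lit 2) (nat_lit 0x104e0001d8080040008000c00200020008d72c03))))) 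
(.nd (nat_lit 6) (.nd (nat_lit 20) 
(.lf (nat_lit 3492560934) (dlOf (nat_lit 2) (nat_lit 0x501e80000d8180e0500))) 
(.lf (nat_lit 1346125862) (dlOf (nat_lit 3) (nat_lit 0xb828a0002902001016800640a280009c100538008012c00200e60008e60203)))) 
(.lf (nat_lit 1346125926) (dlOf (nat_lit 3) (nat_lit 0x180d9000070100090a68000000800a0008004000200280008e60983))))))) 
(.nd (nat_lit 10) (.nd (nat_lit 18) (.nd (nat_lit 6) (.nd (nat_lit 7) (.nd (nat_lit 19) 
(.lf (nat_lit 1343307814) (dlOf (nat_lit 3) (nat_lit 0x54056801e42b20152147000203c0003382000f05ac0019a040004004000200181e0602))) 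
(.lf (nat_lit 3492364326) (dlOf (nat_lit 1) (nat_lit 0x1d0008009400200c000080c0b83)))) 
(.lf (nat_lit 1342263974) (dlOf (nat_lit 1) (nat_lit 0x40018008c81)))) (.nd (nat_lit 7) 
(.nd (nat_lit 8) (.lf (nat_lit 1409892454) (dlOf (nat_lit 1) (nat_lit 0xae00080a1381))) 
(.lf (nat_lit 4563485030) (dlOf (nat_lit 1) (nat_lit 0x34002004a0008090e82)))) (.nd (nat_lit 8) 
(.lf (nat_lit 4563484902) (dlOf (nat_lit 1) (nat_lit 0x148008006400200cc0008090a83))) 
(.lf (nat_lit 2483110374) (dlOf (nat_lit 1) (nat_lit 0xc00400040008017302)))))) (.nd (nat_lit 30) 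
(.nd (nat_lit 6) (.nd (nat_lit 26) 
(.lf (nat_lit 2416263206) (dlOf (nat_lit 1) (nat_lit 0x3e00180c0b81))) 
(.lf (nat_lit 2483372070) (dlOf (nat_lit 3) (nat_lit 0x2b0038000bc04001005400a2010007500700016c1801180080010002005200080e0503)))) 
(.lf (nat_lit 4563746918) (dlOf (nat_lit 2) (nat_lit 0x5007800000040048002002a00080d0782)))) 
(.nd (nat_lit 19) (.nd (nat_lit 7) (.nd (nat_lit 26) 
(.lf (nat_lit 1342521382) (dlOf (nat_lit 10) (nat_lit 0x439e00081cd00060e580050714000aa10002439e00061cb00020e2800150180070744009c38a000530400021d100020e6800148100018744000a00400043a200021cf00040e6800487140006e1000583a2001c1c50001a8200040e78000d00800187440006404009c00400de0018040582))) 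
(.lf (nat_lit 1409630246) (dlOf (nat_lit 3) (nat_lit 0x20000001a0100030000000c80800180080028002000c0008060583)))) 
(.lf (nat_lit 3490007462) (dlOf (nat_lit 1) (nat_lit 0x400200020008004e82)))) (.nd (nat_lit 6) 
(.lf (nat_lit 1346191398) (dlOf (nat_lit 2) (nat_lit 0x110ac000a833c005c1060002706000a0018e60201))) 
(.lf (nat_lit 1346191462) (dlOf (nat_lit 4) (nat_lit 0x2c9858016381b200560d805a504e02df82340001c1415fc2c00b160d903da04e026782340001810160c2c00aba0d9024004e021b823400000100f0c00414840008e60982))))))) 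
(.nd (nat_lit 26) (.nd (nat_lit 7) (.nd (nat_lit 18) 
(.lf (nat_lit 1342262566) (dlOf (nat_lit 1) (nat_lit 0x100018006801))) (.nd (nat_lit 19) 
(.lf (nat_lit 3490008358) (dlOf (nat_lit 1) (nat_lit 0x120008016800200040008006803))) 
(.lf (nat_lit 3490532646) (dlOf (nat_lit 1) (nat_lit 0x120008006801))))) (.nd (nat_lit 9) 
(.lf (nat_lit 1342262438) (dlOf (nat_lit 2) (nat_lit 0xe11b80019008001000800d8002001c0008006283))) 
(.lf (nat_lit 1342262950) (dlOf (nat_lit 1) (nat_lit 0x7400400280008007202))))) (.nd (nat_lit 7) 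
(.nd (nat_lit 8) (.nd (nat_lit 29) 
(.lf (nat_lit 4630595110) (dlOf (nat_lit 1) (nat_lit 0x400400fc0008003702))) 
(.lf (nat_lit 6241207846) (dlOf (nat_lit 9) (nat_lit 0x5000a002d001001440060001606000e0140008002000054100028050001000800014040040014000f00200004410004005000280080001004000c014000900200000c1000380500024008000020400060140008002000000100110008008000200020008053703)))) 
(.lf (nat_lit 1409371430) (dlOf (nat_lit 1) (nat_lit 0xa80080030002000c0008006803)))) 
(.nd (nat_lit 6) (.lf (nat_lit 1409371302) (dlOf (nat_lit 1) (nat_lit 0x6c00400040008006282))) 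
(.lf (nat_lit 1946242278) (dlOf (nat_lit 1) (nat_lit 0x800200020008006502)))))))) (.nd (nat_lit 18) 
(.nd (nat_lit 7) (.nd (nat_lit 6) (.nd (nat_lit 16) (.nd (nat_lit 9) (.nd (nat_lit 19) 
(.lf (nat_lit 473972774) (dlOf (nat_lit 1) (nat_lit 0x380008ff0781))) 
(.lf (nat_lit 3624419366) (dlOf (nat_lit 2) (nat_lit 0x60140001f8181a0580)))) 
(.lf (nat_lit 5771381286) (dlOf (nat_lit 1) (nat_lit 0x20028005181)))) (.nd (nat_lit 9) 
(.nd (nat_lit 19) (.lf (nat_lit 471941158) (dlOf (nat_lit 1) (nat_lit 0x4002000200086d0a82))) 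
(.lf (nat_lit 471416870) (dlOf (nat_lit 1) (nat_lit 0x1c00082f0d81)))) 
(.lf (nat_lit 6375425574) (dlOf (nat_lit 2) (nat_lit 0x213400000018003700))))) (.nd (nat_lit 8) 
(.nd (nat_lit 9) (.nd (nat_lit 10) 
(.lf (nat_lit 474562662) (dlOf (nat_lit 2) (nat_lit 0x815600110a18001081000e80080004002000c00091a0983))) 
(.lf (nat_lit 469851238) (dlOf (nat_lit 4) (nat_lit 0x6c09d001a04700008810022827401b811c0002004009809d007804700006010054000803340020006000800c083)))) 
(.lf (nat_lit 3154134630) (dlOf (nat_lit 2) (nat_lit 0x30000000000200240018003901)))) 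
(.nd (nat_lit 26) (.nd (nat_lit 9) 
(.lf (nat_lit 3087090022) (dlOf (nat_lit 3) (nat_lit 0x5a00f801d006c006002e0002906007e01f003500d800a005c0004e0c0124002000c00080b0702))) 
(.lf (nat_lit 4160836454) (dlOf (nat_lit 1) (nat_lit 0xe0018008f81)))) (.nd (nat_lit 10) 
(.lf (nat_lit 4227947366) (dlOf (nat_lit 1) (nat_lit 0x22000800600020016000800bc83))) 
(.lf (nat_lit 3691009894) (dlOf (nat_lit 1) (nat_lit 0x4c002800a301))))))) (.nd (nat_lit 16) 
(.nd (nat_lit 9) (.nd (nat_lit 6) 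
(.lf (nat_lit 4227882150) (dlOf (nat_lit 1) (nat_lit 0x8008007c0020002000800c203))) 
(.nd (nat_lit 8) 
(.lf (nat_lit 3691010278) (dlOf (nat_lit 1) (nat_lit 0x1b000800e80020048000800a883))) 
(.lf (nat_lit 469785062) (dlOf (nat_lit 1) (nat_lit 0x2002800b281))))) (.nd (nat_lit 26) 
(.lf (nat_lit 5771381670) (dlOf (nat_lit 1) (nat_lit 0x400400020008005d02))) (.nd (nat_lit 29) 
(.lf (nat_lit 4764748710) (dlOf (nat_lit 1) (nat_lit 0x400400020008005d02))) 
(.lf (nat_lit 5301619622) (dlOf (nat_lit 2) (nat_lit 0x101f00000008013000800e800200a40008005d03)))))) 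
(.nd (nat_lit 6) (.nd (nat_lit 8) (.nd (nat_lit 9) 
(.lf (nat_lit 1007764646) (dlOf (nat_lit 1) (nat_lit 0x8002000200087a2c02))) 
(.lf (nat_lit 4227944102) (dlOf (nat_lit 1) (nat_lit 0xc0008007201)))) (.nd (nat_lit 9) 
(.lf (nat_lit 3087090086) (dlOf (nat_lit 2) (nat_lit 0x202000c210180b0780))) 
(.lf (nat_lit 5234576294) (dlOf (nat_lit 1) (nat_lit 0x580080074002001c0008055d03))))) 
(.nd (nat_lit 21) 
(.lf (nat_lit 1543588326) (dlOf (nat_lit 1) (nat_lit 0x10b8008047400201c40008144e83))) 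
(.nd (nat_lit 26) (.lf (nat_lit 5773543910) (dlOf (nat_lit 1) (nat_lit 0x3400180e4e81))) 
(.lf (nat_lit 6377523686) (dlOf (nat_lit 1) (nat_lit 0x600180e4e81)))))))) (.nd (nat_lit 16) 
(.nd (nat_lit 26) (.nd (nat_lit 7) (.nd (nat_lit 8) 
(.lf (nat_lit 939802662) (dlOf (nat_lit 5) (nat_lit 0x920000001781006e00c0006802c01e80000002a0600b8018005b0000000a410032806000012040034004001c0018180582))) 
(.lf (nat_lit 6308514598) (dlOf (nat_lit 1) (nat_lit 0x4002000200080d5c02)))) (.nd (nat_lit 6) 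
(.lf (nat_lit 4697899174) (dlOf (nat_lit 5) (nat_lit 0x601a0000800800280cc0003e0400180680001502001e033000030180c1380))) 
(.lf (nat_lit 4697899238) (dlOf (nat_lit 11) (nat_lit 0x3ac068013401501160090007000c001c610019c068012c0150007102005401a00498054001c208025002a000e002006c0150005d01006500a80021c0803d005401e80240007b04011e015007c0090001e81004d805401d00240007904012e01500750090001e01003180084ad0002009200080c1b83))))) 
(.nd (nat_lit 6) (.nd (nat_lit 7) (.nd (nat_lit 19) 
(.lf (nat_lit 470040614) (dlOf (nat_lit 6) (nat_lit 0x2d11e0061855002a02a2015c0f4001c04a0000802801508f000a42a80001f040002247002911e005f055002ac2a2016813700b407a005c0250019000e0001d10014e15400b00a880568250000380c02742a800d8151006509b8032825000036100044004001e0018030a02))) 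
(.lf (nat_lit 1007435814) (dlOf (nat_lit 1) (nat_lit 0x10008006000200280008360783)))) 
(.lf (nat_lit 4765008038) (dlOf (nat_lit 1) (nat_lit 0x8004000200080c1382)))) (.nd (nat_lit 8) 
(.lf (nat_lit 474236518) (dlOf (nat_lit 1) (nat_lit 0x80080004002000800090e3903))) 
(.lf (nat_lit 3154395494) (dlOf (nat_lit 1) (nat_lit 0xc00200040008160982)))))) (.nd (nat_lit 26) 
(.nd (nat_lit 7) (.nd (nat_lit 6) (.nd (nat_lit 29) 
(.lf (nat_lit 2550480934) (dlOf (nat_lit 1) (nat_lit 0x3e00180c0b81))) 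
(.lf (nat_lit 4161093670) (dlOf (nat_lit 2) (nat_lit 0xaa02b001c0148000c81002a800801f000200420008120603)))) 
(.lf (nat_lit 4697964646) (dlOf (nat_lit 2) (nat_lit 0x5007800000040048002002a00080d0782)))) 
(.nd (nat_lit 10) (.lf (nat_lit 5234835622) (dlOf (nat_lit 1) (nat_lit 0x200180f1381))) 
(.lf (nat_lit 3624225958) (dlOf (nat_lit 1) (nat_lit 0x100028146281))))) (.nd (nat_lit 11) 
(.nd (nat_lit 30) (.nd (nat_lit 19) (.nd (nat_lit 22) 
(.lf (nat_lit 470106150) (dlOf (nat_lit 10) (nat_lit 0x439e00081cd00060e580050714000aa10002439e00061cb00020e2800150180070744009c38a000530400021d100020e6800148100018744000a00400043a200021cf00040e6800487140006e1000583a2001c1c50001a8200040e78000d00800187440006404009c00400de0018040582))) 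
(.lf (nat_lit 474300454) (dlOf (nat_lit 1) (nat_lit 0x10008001400200140009130983)))) 
(.lf (nat_lit 471679014) (dlOf (nat_lit 1) (nat_lit 0x200080010002000600083c0603)))) 
(.nd (nat_lit 7) 
(.lf (nat_lit 1543847974) (dlOf (nat_lit 2) (nat_lit 0x1000940000004002c00200160008190902))) 
(.lf (nat_lit 2080719014) (dlOf (nat_lit 1) (nat_lit 0x4004000200080c1382))))) (.nd (nat_lit 8) 
(.lf (nat_lit 473254438) (dlOf (nat_lit 2) (nat_lit 0x808400045818e35180))) 
(.lf (nat_lit 1007504678) (dlOf (nat_lit 1) (nat_lit 0xe8008005c002003600083d6803))))))))))))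

end

end Pool.Agent.Lib.MP_5854e1_co.Cz

namespace Pool.Agent.Lib.MP_5854e1_co.Cz

noncomputable section

noncomputable def tz161 : DT := (.nd (nat_lit 16) (.nd (nat_lit 18) (.nd (nat_lit 28) 
(.nd (nat_lit 2) (.nd (nat_lit 5) (.nd (nat_lit 19) (.nd (nat_lit 10) (.nd (nat_lit 20) 
(.nd (nat_lit 11) (.nd (nat_lit 6) 
(.lf (nat_lit 14696458) (dlOf (nat_lit 1) (nat_lit 0x400200020008770002))) 
(.lf (nat_lit 21194) (dlOf (nat_lit 1) (nat_lit 0xae0018008c81)))) (.nd (nat_lit 8) 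
(.nd (nat_lit 27) (.lf (nat_lit 6509578250) (dlOf (nat_lit 1) (nat_lit 0x660028004701))) 
(.lf (nat_lit 1811957770) (dlOf (nat_lit 1) (nat_lit 0xca0028004701)))) 
(.lf (nat_lit 201345290) (dlOf (nat_lit 1) (nat_lit 0x8008000400200020008004b83))))) 
(.nd (nat_lit 21) (.nd (nat_lit 22) 
(.lf (nat_lit 68173834) (dlOf (nat_lit 1) (nat_lit 0xc0018430101))) 
(.lf (nat_lit 47202314) (dlOf (nat_lit 1) (nat_lit 0x200080004002000400093b0003)))) 
(.nd (nat_lit 7) (.nd (nat_lit 8) 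
(.lf (nat_lit 28327946) (dlOf (nat_lit 1) (nat_lit 0x400400020008d80282))) 
(.lf (nat_lit 40911114) (dlOf (nat_lit 1) (nat_lit 0x80004000c0009203682)))) 
(.lf (nat_lit 24133770) (dlOf (nat_lit 1) (nat_lit 0x8008000400200440008b80103)))))) 
(.nd (nat_lit 7) (.nd (nat_lit 9) (.nd (nat_lit 11) 
(.lf (nat_lit 6039819530) (dlOf (nat_lit 1) (nat_lit 0xa0018009601))) 
(.lf (nat_lit 4294987018) (dlOf (nat_lit 1) (nat_lit 0x400400020008006682)))) 
(.lf (nat_lit 6576686858) (dlOf (nat_lit 1) (nat_lit 0x1000200100008003b82)))) (.nd (nat_lit 9) 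
(.nd (nat_lit 6) (.lf (nat_lit 3288358282) (dlOf (nat_lit 1) (nat_lit 0x6002800c901))) 
(.lf (nat_lit 67130570) (dlOf (nat_lit 2) (nat_lit 0x3a0208019f0080248008000400200200008009503)))) 
(.nd (nat_lit 26) (.lf (nat_lit 2684376714) (dlOf (nat_lit 1) (nat_lit 0x20028009e01))) 
(.lf (nat_lit 2214614666) (dlOf (nat_lit 1) (nat_lit 0x40018009e01))))))) (.nd (nat_lit 22) 
(.nd (nat_lit 31) (.nd (nat_lit 7) (.nd (nat_lit 8) 
(.lf (nat_lit 26755082) (dlOf (nat_lit 1) (nat_lit 0x60028c70281))) 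
(.lf (nat_lit 604520714) (dlOf (nat_lit 1) (nat_lit 0x180080004002000200082e3683)))) 
(.nd (nat_lit 6) (.lf (nat_lit 61359754) (dlOf (nat_lit 1) (nat_lit 0x1c00400340019923a02))) 
(.lf (nat_lit 604520906) (dlOf (nat_lit 1) (nat_lit 0x2000082e7a81))))) (.nd (nat_lit 6) 
(.nd (nat_lit 26) 
(.lf (nat_lit 2819112970) (dlOf (nat_lit 23) (nat_lit 0x9701a8001806c0198022000a78301b203500a701a40029208047c0d4010a061000e021000c00f0044406c0132022000a286000203500050c0807301a800980c2001604200e201b002d00880028414049c0d400c403600bc0110004ec1805881a8002720401d40d40013702015e06a003b0348004d01000301a800280d20013104022206a00a70348004a81007981a802480d20012604015406a0008a8100050350004500802f81a8002200404d40d40010d02003e06a000800100aa0350003d80803581a8001e004015c0d4000ed0200cc06a00380348003a41007801a8001c8040050004006800181a0482))) 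
(.lf (nat_lit 2886221834) (dlOf (nat_lit 3) (nat_lit 0x670220031810001f806c007202d004300d0021804c01ec000001450e00ba0440059020003b80d800f8034008201300700000005083000280080020002001c00081a0483)))) 
(.nd (nat_lit 21) (.lf (nat_lit 3959963722) (dlOf (nat_lit 2) (nat_lit 0xc03c0000a818180e80))) 
(.lf (nat_lit 2754101322) (dlOf (nat_lit 2) (nat_lit 0x12c1f9000000180c1880)))))) (.nd (nat_lit 23) 
(.nd (nat_lit 6) (.nd (nat_lit 24) 
(.lf (nat_lit 4734986) (dlOf (nat_lit 1) (nat_lit 0x200282b0001))) 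
(.lf (nat_lit 55066634) (dlOf (nat_lit 2) (nat_lit 0x49600015902001200196a0081)))) 
(.lf (nat_lit 21512266) (dlOf (nat_lit 1) (nat_lit 0x30008001400200040008a40503)))) 
(.nd (nat_lit 6) (.nd (nat_lit 20) 
(.lf (nat_lit 15220746) (dlOf (nat_lit 1) (nat_lit 0x18004000600087c0482))) 
(.lf (nat_lit 30949386) (dlOf (nat_lit 1) (nat_lit 0xc0018e50581)))) 
(.lf (nat_lit 49826506) (dlOf (nat_lit 1) (nat_lit 0x2d0004000e00194c5802))))))) (.nd (nat_lit 19) 
(.nd (nat_lit 8) (.nd (nat_lit 10) (.nd (nat_lit 22) (.nd (nat_lit 6) 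
(.lf (nat_lit 26230826) (dlOf (nat_lit 1) (nat_lit 0x180080028002000e0008c20903))) 
(.lf (nat_lit 3422569066) (dlOf (nat_lit 2) (nat_lit 0x5c80000006404000400400020018001802)))) 
(.nd (nat_lit 21) (.lf (nat_lit 13647914) (dlOf (nat_lit 1) (nat_lit 0x40018740601))) 
(.lf (nat_lit 15745066) (dlOf (nat_lit 1) (nat_lit 0x400400020008830702))))) (.nd (nat_lit 6) 
(.nd (nat_lit 7) 
(.lf (nat_lit 2754628650) (dlOf (nat_lit 1) (nat_lit 0x100080014002000c00080f6083))) 
(.lf (nat_lit 3288353962) (dlOf (nat_lit 1) (nat_lit 0x20018006281)))) 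
(.lf (nat_lit 5435836010) (dlOf (nat_lit 2) (nat_lit 0x28074000090200020028003901))))) 
(.nd (nat_lit 7) (.nd (nat_lit 6) (.nd (nat_lit 11) 
(.lf (nat_lit 3355465002) (dlOf (nat_lit 1) (nat_lit 0x20008009801))) 
(.lf (nat_lit 604003626) (dlOf (nat_lit 1) (nat_lit 0x2001800c601)))) 
(.lf (nat_lit 50349418) (dlOf (nat_lit 2) (nat_lit 0x85690001f8194c3480)))) (.nd (nat_lit 9) 
(.nd (nat_lit 10) 
(.lf (nat_lit 8405418) (dlOf (nat_lit 1) (nat_lit 0x110008000400200020008511003))) 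
(.lf (nat_lit 8406442) (dlOf (nat_lit 1) (nat_lit 0x400200020008513602)))) (.nd (nat_lit 6) 
(.lf (nat_lit 1610632106) (dlOf (nat_lit 1) (nat_lit 0x20008005d01))) 
(.lf (nat_lit 5435835370) (dlOf (nat_lit 1) (nat_lit 0x20018002881))))))) (.nd (nat_lit 21) 
(.nd (nat_lit 26) (.nd (nat_lit 6) 
(.lf (nat_lit 1611153450) (dlOf (nat_lit 2) (nat_lit 0x52042002401500100024000340c0110004009c00080f0c82))) 
(.lf (nat_lit 21512298) (dlOf (nat_lit 1) (nat_lit 0xa8008000400200020008a40783)))) 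
(.nd (nat_lit 27) (.nd (nat_lit 29) 
(.lf (nat_lit 4362616874) (dlOf (nat_lit 1) (nat_lit 0x8008005c002001400080b0a03))) 
(.lf (nat_lit 1678262314) (dlOf (nat_lit 2) (nat_lit 0x28017003840181c0a00)))) 
(.lf (nat_lit 738738218) (dlOf (nat_lit 2) (nat_lit 0x52042002401500100024000320c0110004009c00080f0c82))))) 
(.nd (nat_lit 6) (.nd (nat_lit 22) (.nd (nat_lit 23) 
(.lf (nat_lit 2754101290) (dlOf (nat_lit 20) (nat_lit 0x2251260038892c01b448a00c4237006211b00009028117093001d449600d8245006111b802908d8000441408a84980072245006111b803080000004010089849800a8245006111b80007c180f709300003c0407884980001d02038824c0000d8100311260000680800088400060408001220100270fc000207d800703e8000c15f00f90ac8031055c001829a00401350000c8b002e0fc008085640003008008c420003a2040061100801b87e001bc3e800021e201050ac80328534002827400aa135001709400005c580050840001440200761f8001e0fa007c0564017c2ae00bc14d000a09d0000584001d87e00002a04011c3f002041590000a02002e0fc00158564000260800b43f00000b0200a224c000028100061260000080801e07fc02403f00244159000809d0000002011c80082180002118400080c0d03)))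 
(.nd (nat_lit 24) 
(.lf (nat_lit 11026474) (dlOf (nat_lit 2) (nat_lit 0xc6fc4000330200020028660701))) 
(.lf (nat_lit 27803690) (dlOf (nat_lit 1) (nat_lit 0x68008000800200080008d20783))))) 
(.lf (nat_lit 15220778) (dlOf (nat_lit 1) (nat_lit 0x9c00400e800087c0682)))) (.nd (nat_lit 7) 
(.lf (nat_lit 61359722) (dlOf (nat_lit 3) (nat_lit 0x39291801e548a00d4a3400605198000cc20003a96c0000004008400200080009923902))) 
(.lf (nat_lit 44581866) (dlOf (nat_lit 1) (nat_lit 0x20029322881)))))))) (.nd (nat_lit 5) 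
(.nd (nat_lit 6) (.nd (nat_lit 21) (.nd (nat_lit 22) (.nd (nat_lit 11) (.nd (nat_lit 26) 
(.lf (nat_lit 2819112974) (dlOf (nat_lit 7) (nat_lit 0x3406a0055c8101120350004e80806b81a8002520400e40d40012002010806a0008601007e0350003f808041800800e0002002600081a0483))) 
(.lf (nat_lit 2886221838) (dlOf (nat_lit 1) (nat_lit 0x200181a0481)))) (.nd (nat_lit 7) 
(.lf (nat_lit 5368728590) (dlOf (nat_lit 1) (nat_lit 0x400200020008005f82))) 
(.lf (nat_lit 1275087758) (dlOf (nat_lit 1) (nat_lit 0xb60028005c81))))) (.nd (nat_lit 25) 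
(.nd (nat_lit 23) 
(.lf (nat_lit 2756198414) (dlOf (nat_lit 1) (nat_lit 0x8008000400200020008210803))) 
(.lf (nat_lit 13123598) (dlOf (nat_lit 1) (nat_lit 0x380080024002000c0008700683)))) 
(.nd (nat_lit 7) (.lf (nat_lit 47727886) (dlOf (nat_lit 1) (nat_lit 0x1c0029403001))) 
(.lf (nat_lit 46153870) (dlOf (nat_lit 1) (nat_lit 0x22400202660009380402)))))) (.nd (nat_lit 19) 
(.nd (nat_lit 25) (.nd (nat_lit 7) 
(.lf (nat_lit 19942670) (dlOf (nat_lit 1) (nat_lit 0x80080004002000200089d6683))) 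
(.lf (nat_lit 19943822) (dlOf (nat_lit 1) (nat_lit 0x200189d8381)))) (.nd (nat_lit 20) 
(.lf (nat_lit 60835086) (dlOf (nat_lit 1) (nat_lit 0x200098c3001))) 
(.lf (nat_lit 36717838) (dlOf (nat_lit 1) (nat_lit 0x19c00200020009073002))))) (.nd (nat_lit 7) 
(.nd (nat_lit 22) 
(.lf (nat_lit 19415054) (dlOf (nat_lit 1) (nat_lit 0x980080004002000200089a0a03))) 
(.lf (nat_lit 15220750) (dlOf (nat_lit 3) (nat_lit 0x1475002ae40803623a8001fc04007800400b200087c0482)))) 
(.nd (nat_lit 8) (.lf (nat_lit 20469390) (dlOf (nat_lit 1) (nat_lit 0x4002000200089d9e82))) 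
(.lf (nat_lit 61359502) (dlOf (nat_lit 2) (nat_lit 0xc52d0007c8080188008002000200280009923603))))))) 
(.nd (nat_lit 8) (.nd (nat_lit 10) (.nd (nat_lit 11) (.nd (nat_lit 19) 
(.lf (nat_lit 16793678) (dlOf (nat_lit 2) (nat_lit 0x106ac0011004000c002000800088e0182))) 
(.lf (nat_lit 2754101326) (dlOf (nat_lit 3) (nat_lit 0xd1228000d00800f09280006404005c004003200180c1902)))) 
(.nd (nat_lit 9) 
(.lf (nat_lit 4362098766) (dlOf (nat_lit 1) (nat_lit 0x3800800540020018000800a703))) 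
(.lf (nat_lit 58739278) (dlOf (nat_lit 1) (nat_lit 0xc002000600097e5282))))) (.nd (nat_lit 7) 
(.lf (nat_lit 2214614606) (dlOf (nat_lit 1) (nat_lit 0x60028009c01))) (.nd (nat_lit 11) 
(.lf (nat_lit 61359310) (dlOf (nat_lit 2) (nat_lit 0x9476000ca290001d829922d80))) 
(.lf (nat_lit 134241486) (dlOf (nat_lit 1) (nat_lit 0x88008002c0020008000800c283)))))) 
(.nd (nat_lit 7) (.nd (nat_lit 10) (.nd (nat_lit 9) (.nd (nat_lit 19) 
(.lf (nat_lit 3162446) (dlOf (nat_lit 2) (nat_lit 0x44b200019018200600))) 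
(.lf (nat_lit 1074282830) (dlOf (nat_lit 3) (nat_lit 0x290000001300800380000007e040224002000200081b0602)))) 
(.lf (nat_lit 19942222) (dlOf (nat_lit 1) (nat_lit 0x4002000200089d5c02)))) (.nd (nat_lit 26) 
(.lf (nat_lit 4831855950) (dlOf (nat_lit 1) (nat_lit 0x400400020008003302))) 
(.lf (nat_lit 4496311630) (dlOf (nat_lit 1) (nat_lit 0x20018003301))))) (.nd (nat_lit 9) 
(.nd (nat_lit 26) (.lf (nat_lit 4831857102) (dlOf (nat_lit 1) (nat_lit 0x11c00200500008004e82))) 
(.lf (nat_lit 2885700046) (dlOf (nat_lit 1) (nat_lit 0x44004007c0008004e82)))) (.nd (nat_lit 11) 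
(.lf (nat_lit 4362093518) (dlOf (nat_lit 1) (nat_lit 0x14002000c0008002882))) 
(.lf (nat_lit 5368728526) (dlOf (nat_lit 2) (nat_lit 0x16402600b801000003028005d80)))))))) 
(.nd (nat_lit 9) (.nd (nat_lit 6) (.nd (nat_lit 20) (.nd (nat_lit 8) (.nd (nat_lit 22) 
(.lf (nat_lit 1678262318) (dlOf (nat_lit 3) (nat_lit 0xfe0440039981000c00b801bf40800100080008002000200081c0a03))) 
(.lf (nat_lit 55066670) (dlOf (nat_lit 3) (nat_lit 0x894e0004495000730200012620001900802000080008002001600096a0d03)))) 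
(.nd (nat_lit 7) (.lf (nat_lit 1073760558) (dlOf (nat_lit 1) (nat_lit 0x40028004b81))) 
(.lf (nat_lit 2147501486) (dlOf (nat_lit 2) (nat_lit 0x880000029c04001c002002c0008003602))))) 
(.nd (nat_lit 22) (.nd (nat_lit 24) 
(.lf (nat_lit 2752528430) (dlOf (nat_lit 5) (nat_lit 0x82d0000a15d00180a100008418018083c020c3fe00261e900250ae80430570021c284000200c000e1ff00050ae800f05080003a0c012c3fe00921e9004e0a10000701801d8008009c00200020008020583))) 
(.lf (nat_lit 17842222) (dlOf (nat_lit 2) (nat_lit 0x8000000078188f0e80)))) 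
(.lf (nat_lit 13647918) (dlOf (nat_lit 1) (nat_lit 0x2e0028740601))))) (.nd (nat_lit 11) 
(.nd (nat_lit 23) (.nd (nat_lit 19) 
(.lf (nat_lit 38813806) (dlOf (nat_lit 1) (nat_lit 0x2400200080009162482))) 
(.lf (nat_lit 35143790) (dlOf (nat_lit 2) (nat_lit 0xc5fe0005940800e0008001c00200140008fe2483)))) 
(.nd (nat_lit 20) (.lf (nat_lit 12599406) (dlOf (nat_lit 2) (nat_lit 0xa011000000186d1500))) 
(.lf (nat_lit 47202414) (dlOf (nat_lit 2) (nat_lit 0xac0e00025fb80000010006800800b4002004e00093b0a83))))) 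
(.nd (nat_lit 8) (.nd (nat_lit 7) 
(.lf (nat_lit 134237294) (dlOf (nat_lit 1) (nat_lit 0x400400020008006082))) 
(.lf (nat_lit 536889582) (dlOf (nat_lit 1) (nat_lit 0x28008000c00200080008004b83)))) 
(.nd (nat_lit 26) (.lf (nat_lit 536893806) (dlOf (nat_lit 1) (nat_lit 0x2002800ac81))) 
(.lf (nat_lit 201349486) (dlOf (nat_lit 1) (nat_lit 0x2002800ac81))))))) (.nd (nat_lit 7) 
(.nd (nat_lit 10) (.nd (nat_lit 8) (.nd (nat_lit 20) 
(.lf (nat_lit 6039814702) (dlOf (nat_lit 1) (nat_lit 0x20028001481))) 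
(.lf (nat_lit 40911406) (dlOf (nat_lit 1) (nat_lit 0x6400400220009208a82)))) (.nd (nat_lit 11) 
(.lf (nat_lit 3422569262) (dlOf (nat_lit 1) (nat_lit 0x100028002201))) 
(.lf (nat_lit 19942190) (dlOf (nat_lit 1) (nat_lit 0x4002000200089d5c02))))) (.nd (nat_lit 11) 
(.nd (nat_lit 27) 
(.lf (nat_lit 2147501614) (dlOf (nat_lit 2) (nat_lit 0x1c0000000002000a0008003781))) 
(.lf (nat_lit 1207977518) (dlOf (nat_lit 2) (nat_lit 0x701380006c080018008006800200060008003783)))) 
(.nd (nat_lit 19) 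
(.lf (nat_lit 671108654) (dlOf (nat_lit 2) (nat_lit 0x6018001500000015c100030008005c002000e0008007183))) 
(.lf (nat_lit 20467246) (dlOf (nat_lit 1) (nat_lit 0x9400089d7181)))))) (.nd (nat_lit 6) 
(.nd (nat_lit 8) (.lf (nat_lit 19945134) (dlOf (nat_lit 1) (nat_lit 0xc002000200089da002))) 
(.nd (nat_lit 11) (.lf (nat_lit 6643798958) (dlOf (nat_lit 1) (nat_lit 0x20008009181))) 
(.lf (nat_lit 2885704622) (dlOf (nat_lit 2) (nat_lit 0xa0300008017800300b8002805a0016005000b001000380000029e1c000c004000a001800bd82))))) 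
(.nd (nat_lit 8) (.lf (nat_lit 6576686830) (dlOf (nat_lit 1) (nat_lit 0x6c0018003b01))) 
(.nd (nat_lit 31) 
(.lf (nat_lit 4429203438) (dlOf (nat_lit 1) (nat_lit 0x10008000400200020008004603))) 
(.lf (nat_lit 6576687086) (dlOf (nat_lit 1) (nat_lit 0x520028004601)))))))))) (.nd (nat_lit 11) 
(.nd (nat_lit 5) (.nd (nat_lit 2) (.nd (nat_lit 12) (.nd (nat_lit 26) (.nd (nat_lit 21) 
(.nd (nat_lit 9) 
(.lf (nat_lit 3624419338) (dlOf (nat_lit 3) (nat_lit 0x670228031810001f806c007202d004300d8021805001ec000001d60e00ba0450059020003b80d800f80360082014007000000074c3000280080020002001c00081a0483))) 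
(.lf (nat_lit 1342718474) (dlOf (nat_lit 1) (nat_lit 0x400080c0d81)))) (.nd (nat_lit 6) 
(.lf (nat_lit 3492298762) (dlOf (nat_lit 1) (nat_lit 0x200180c0801))) 
(.lf (nat_lit 3492298826) (dlOf (nat_lit 6) (nat_lit 0x250464003822d0001a0200c5119003f08b4000640807943ce0002e0205161e70001601011a0fe0000a808034000800d400201e200080c1483))))) 
(.nd (nat_lit 6) (.nd (nat_lit 20) 
(.lf (nat_lit 3557310474) (dlOf (nat_lit 1) (nat_lit 0x180080004002000600081c0483))) 
(.lf (nat_lit 4095229962) (dlOf (nat_lit 2) (nat_lit 0x207f00a34818080000)))) 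
(.lf (nat_lit 5838489290) (dlOf (nat_lit 1) (nat_lit 0x140018003a81))))) (.nd (nat_lit 6) 
(.nd (nat_lit 7) (.nd (nat_lit 9) 
(.lf (nat_lit 1476415754) (dlOf (nat_lit 1) (nat_lit 0x400200020008008082))) 
(.lf (nat_lit 2952812298) (dlOf (nat_lit 2) (nat_lit 0x9001a004500a000000100988008002c0020002000800a003)))) 
(.lf (nat_lit 3691009930) (dlOf (nat_lit 1) (nat_lit 0x24002800a301)))) (.nd (nat_lit 7) 
(.nd (nat_lit 8) (.lf (nat_lit 3691008074) (dlOf (nat_lit 1) (nat_lit 0x11800400de0008007d82))) 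
(.lf (nat_lit 469782858) (dlOf (nat_lit 1) (nat_lit 0x8008000400200020008008283)))) 
(.lf (nat_lit 3691008202) (dlOf (nat_lit 1) (nat_lit 0x298008014c00200200008008003)))))) 
(.nd (nat_lit 10) (.nd (nat_lit 6) (.nd (nat_lit 9) (.nd (nat_lit 22) 
(.lf (nat_lit 3624419342) (dlOf (nat_lit 1) (nat_lit 0x200181a0481))) 
(.lf (nat_lit 3494395918) (dlOf (nat_lit 1) (nat_lit 0x8008000400200020008210803)))) 
(.lf (nat_lit 470303246) (dlOf (nat_lit 1) (nat_lit 0x400080c0d81)))) (.nd (nat_lit 27) 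
(.nd (nat_lit 8) 
(.lf (nat_lit 3492298830) (dlOf (nat_lit 17) (nat_lit 0x40f58000f00838787a00004e0417383d000026020dcc1e8000d0af800094103c407a000c427000024040f081e80001181078f0f4000088082b307a00004204019c3d00001e0201801e80000c81006c0f400004c0800587a0000240403303d0000110200761e80000181000209c0000040801b0938012449602782490118123803d88a800e43fe03501fd00340fd800a07bc00043d001dc1e200110ef808c873c01f4340022a16b007e0b38042059400d82be035015e00820ae0071056805d02a4033e14f009b0a680b184f006f826e0176135011d095003f0490043823c0202115008100000000100002000816ec002007c00080c1503))) 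
(.lf (nat_lit 1946698062) (dlOf (nat_lit 3) (nat_lit 0x2900000014c0800380000008c040224002000200081b0602)))) 
(.nd (nat_lit 12) 
(.lf (nat_lit 3154657358) (dlOf (nat_lit 2) (nat_lit 0x10040001401f001300c8002141800c8008008000200260008310183))) 
(.lf (nat_lit 3691008078) (dlOf (nat_lit 2) (nat_lit 0x601d00235018007d80)))))) (.nd (nat_lit 7) 
(.nd (nat_lit 26) (.nd (nat_lit 27) 
(.lf (nat_lit 5100291406) (dlOf (nat_lit 1) (nat_lit 0x30008000400200020008003303))) 
(.lf (nat_lit 6308250958) (dlOf (nat_lit 1) (nat_lit 0x400400020008003302)))) 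
(.lf (nat_lit 5704271182) (dlOf (nat_lit 1) (nat_lit 0x800400020018003302)))) (.nd (nat_lit 6) 
(.lf (nat_lit 2617267854) (dlOf (nat_lit 12) (nat_lit 0x8000c0003102003e006000180100150030000bc0800580180005c04007c00c0002d02003e0060000301001f0030000140801a80180000804007c00c0000302003600600001010021003000000080048008002400200360008009e83))) 
(.nd (nat_lit 8) (.lf (nat_lit 1009272014) (dlOf (nat_lit 1) (nat_lit 0x200190e2d81))) 
(.lf (nat_lit 469784014) (dlOf (nat_lit 1) (nat_lit 0x70008001400200040008009b03)))))))) 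
(.nd (nat_lit 9) (.nd (nat_lit 29) (.nd (nat_lit 2) (.nd (nat_lit 21) 
(.lf (nat_lit 3557310506) (dlOf (nat_lit 1) (nat_lit 0x200281c0681))) (.nd (nat_lit 31) 
(.lf (nat_lit 1344815146) (dlOf (nat_lit 1) (nat_lit 0x20018980001))) 
(.lf (nat_lit 3492298794) (dlOf (nat_lit 5) (nat_lit 0x808d00004804005c3cc000190200341e60000b01001e0f30000500800680080094002005800080c0c03))))) 
(.nd (nat_lit 7) (.nd (nat_lit 10) 
(.lf (nat_lit 3490725934) (dlOf (nat_lit 5) (nat_lit 0x82c8000a15800180a10000841801807e8020c3da00261d400250ac0043055c021c284000200c000e1ed00050ac000f05080003a0c012c3da00921d4004e0a10000701801d8008009c00200020008020583))) 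
(.lf (nat_lit 469783598) (dlOf (nat_lit 3) (nat_lit 0x3408e0051a0100070470028cc0801e8008000c002002c0008009203)))) 
(.lf (nat_lit 4630528430) (dlOf (nat_lit 1) (nat_lit 0x3800400e60008001002))))) (.nd (nat_lit 31) 
(.nd (nat_lit 2) (.lf (nat_lit 805847082) (dlOf (nat_lit 1) (nat_lit 0x200281c0a01))) 
(.nd (nat_lit 30) 
(.lf (nat_lit 805847086) (dlOf (nat_lit 2) (nat_lit 0x6b002e00cb702000200081c0a01))) 
(.lf (nat_lit 1879588910) (dlOf (nat_lit 1) (nat_lit 0x80008003400200060008210883))))) 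
(.nd (nat_lit 7) (.nd (nat_lit 8) 
(.lf (nat_lit 4228399150) (dlOf (nat_lit 1) (nat_lit 0x200180b0a01))) 
(.lf (nat_lit 4093658414) (dlOf (nat_lit 1) (nat_lit 0x20028003201)))) 
(.lf (nat_lit 4160771246) (dlOf (nat_lit 1) (nat_lit 0x20018009501)))))) (.nd (nat_lit 7) 
(.nd (nat_lit 10) (.nd (nat_lit 2) 
(.lf (nat_lit 4094181930) (dlOf (nat_lit 1) (nat_lit 0x8008000400200020008018983))) 
(.nd (nat_lit 26) (.lf (nat_lit 1342718510) (dlOf (nat_lit 1) (nat_lit 0x16600080c0e81))) 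
(.lf (nat_lit 470303278) (dlOf (nat_lit 1) (nat_lit 0x16600080c0e81))))) (.nd (nat_lit 26) 
(.nd (nat_lit 8) (.lf (nat_lit 4563420718) (dlOf (nat_lit 2) (nat_lit 0x202c00009818003780))) 
(.lf (nat_lit 1476417326) (dlOf (nat_lit 1) (nat_lit 0xc002001a000800a102)))) (.nd (nat_lit 2) 
(.lf (nat_lit 1009272426) (dlOf (nat_lit 2) (nat_lit 0x602a000198190e3900))) 
(.lf (nat_lit 335562286) (dlOf (nat_lit 1) (nat_lit 0x60018003781)))))) (.nd (nat_lit 2) 
(.nd (nat_lit 6) (.lf (nat_lit 3691008682) (dlOf (nat_lit 1) (nat_lit 0xdc0008008c81))) 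
(.nd (nat_lit 12) 
(.lf (nat_lit 4026549994) (dlOf (nat_lit 1) (nat_lit 0x1280080050002001a0008003b03))) 
(.lf (nat_lit 1342199530) (dlOf (nat_lit 1) (nat_lit 0x40040002000800a002))))) (.nd (nat_lit 6) 
(.lf (nat_lit 2415937198) (dlOf (nat_lit 1) (nat_lit 0x200028003a81))) (.nd (nat_lit 12) 
(.lf (nat_lit 1006651118) (dlOf (nat_lit 1) (nat_lit 0x400400020008003b02))) 
(.lf (nat_lit 1342199534) (dlOf (nat_lit 1) (nat_lit 0xc0001800a001))))))))) (.nd (nat_lit 8) 
(.nd (nat_lit 2) (.nd (nat_lit 6) (.nd (nat_lit 5) (.nd (nat_lit 7) 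
(.lf (nat_lit 1543522314) (dlOf (nat_lit 6) (nat_lit 0x340080002f0100db016003100740330030018201000c4004002f00080374000000580e030202c001b01180c48074060c0300306010018600400040014060c004030e0000002b89006e0040001480805c00400000004003400400020018004702))) 
(.nd (nat_lit 26) 
(.lf (nat_lit 1342200970) (dlOf (nat_lit 2) (nat_lit 0x11130004068c0181c0800dc0020006000800c202))) 
(.lf (nat_lit 4227882122) (dlOf (nat_lit 1) (nat_lit 0x80040006001800c202))))) (.nd (nat_lit 26) 
(.nd (nat_lit 9) (.lf (nat_lit 2550156330) (dlOf (nat_lit 1) (nat_lit 0xc00400040008006082))) 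
(.lf (nat_lit 5771381290) (dlOf (nat_lit 1) (nat_lit 0x30008002000200100008005183)))) 
(.nd (nat_lit 7) 
(.lf (nat_lit 2483047466) (dlOf (nat_lit 3) (nat_lit 0x2017000100a80004050000201800030080001003800080180008003000b608000a0070005ac0805f80080200002000e0008006083))) 
(.lf (nat_lit 2483047594) (dlOf (nat_lit 1) (nat_lit 0x18008000800200040008006283)))))) 
(.nd (nat_lit 7) (.nd (nat_lit 10) (.nd (nat_lit 26) 
(.lf (nat_lit 1476417642) (dlOf (nat_lit 1) (nat_lit 0xa000801580020040000800a883))) 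
(.lf (nat_lit 3691010154) (dlOf (nat_lit 2) (nat_lit 0xa00000000004021c00200d0000800a882)))) 
(.lf (nat_lit 1409305706) (dlOf (nat_lit 1) (nat_lit 0x40028006081)))) (.nd (nat_lit 5) 
(.nd (nat_lit 9) 
(.lf (nat_lit 3489680586) (dlOf (nat_lit 1) (nat_lit 0x68008000c002000e0008006383))) 
(.lf (nat_lit 2952813258) (dlOf (nat_lit 1) (nat_lit 0x4c002800b981)))) 
(.lf (nat_lit 1476417770) (dlOf (nat_lit 2) (nat_lit 0x28000000e804002c002000c000800a902)))))) 
(.nd (nat_lit 7) (.nd (nat_lit 5) (.nd (nat_lit 6) (.nd (nat_lit 26) 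
(.lf (nat_lit 5773478414) (dlOf (nat_lit 1) (nat_lit 0x4004000200080e5082))) 
(.lf (nat_lit 6377458190) (dlOf (nat_lit 1) (nat_lit 0x4004000200080e5082)))) (.nd (nat_lit 19) 
(.lf (nat_lit 1345342030) (dlOf (nat_lit 1) (nat_lit 0x120028b55281))) 
(.lf (nat_lit 472402510) (dlOf (nat_lit 2) (nat_lit 0xf833400080ea0001b0400060018985281))))) 
(.nd (nat_lit 10) (.nd (nat_lit 26) 
(.lf (nat_lit 1476417646) (dlOf (nat_lit 1) (nat_lit 0x2001800a881))) 
(.lf (nat_lit 3691010158) (dlOf (nat_lit 3) (nat_lit 0x6e00d80291c0800c00000000004004400200be000800a882)))) 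
(.lf (nat_lit 1342196846) (dlOf (nat_lit 1) (nat_lit 0x20028006081))))) (.nd (nat_lit 12) 
(.nd (nat_lit 6) (.lf (nat_lit 1409305742) (dlOf (nat_lit 1) (nat_lit 0x2c00200140008006182))) 
(.nd (nat_lit 9) (.lf (nat_lit 1342196942) (dlOf (nat_lit 1) (nat_lit 0x60018006401))) 
(.lf (nat_lit 6377458382) (dlOf (nat_lit 1) (nat_lit 0x8004000200080e5882))))) (.nd (nat_lit 5) 
(.lf (nat_lit 469785294) (dlOf (nat_lit 1) (nat_lit 0xa002800b981))) (.nd (nat_lit 6) 
(.lf (nat_lit 3691010734) (dlOf (nat_lit 2) (nat_lit 0x28000000a604002c002000e000800b782))) 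
(.lf (nat_lit 2952813294) (dlOf (nat_lit 1) (nat_lit 0x1480020036000800b982)))))))) 
(.nd (nat_lit 26) (.nd (nat_lit 9) (.nd (nat_lit 2) (.nd (nat_lit 19) (.nd (nat_lit 6) 
(.lf (nat_lit 1879067914) (dlOf (nat_lit 1) (nat_lit 0x400400020008006682))) 
(.lf (nat_lit 1342200266) (dlOf (nat_lit 2) (nat_lit 0x1704e8003d4080040008006c002000c000800b083)))) 
(.nd (nat_lit 20) (.lf (nat_lit 1346914698) (dlOf (nat_lit 1) (nat_lit 0xc002000200090a4e82))) 
(.lf (nat_lit 1880639882) (dlOf (nat_lit 1) (nat_lit 0x8008000400200020008b04e83))))) 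
(.nd (nat_lit 5) (.nd (nat_lit 10) 
(.lf (nat_lit 1342200078) (dlOf (nat_lit 1) (nat_lit 0x40020002000800aa82))) 
(.lf (nat_lit 3489680654) (dlOf (nat_lit 1) (nat_lit 0x28008004000200040008006683)))) 
(.nd (nat_lit 6) (.nd (nat_lit 27) 
(.lf (nat_lit 3489680686) (dlOf (nat_lit 1) (nat_lit 0x20008002000200060008006883))) 
(.lf (nat_lit 2550156590) (dlOf (nat_lit 1) (nat_lit 0x20028006881)))) 
(.lf (nat_lit 3489680750) (dlOf (nat_lit 1) (nat_lit 0x28008005000200080008006b03)))))) 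
(.nd (nat_lit 29) (.nd (nat_lit 2) 
(.lf (nat_lit 4697639690) (dlOf (nat_lit 1) (nat_lit 0x40018005b01))) (.nd (nat_lit 7) 
(.lf (nat_lit 5771381518) (dlOf (nat_lit 2) (nat_lit 0xd00d800000080018008001c00200080008005b03))) 
(.lf (nat_lit 5771381646) (dlOf (nat_lit 1) (nat_lit 0x400400020008005c82))))) (.nd (nat_lit 5) 
(.lf (nat_lit 2013285326) (dlOf (nat_lit 2) (nat_lit 0x4c00000017018005d80))) (.nd (nat_lit 6) 
(.lf (nat_lit 2013285166) (dlOf (nat_lit 3) (nat_lit 0x8005000e381000a0028006f40800880080028002000e0008005c03))) 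
(.lf (nat_lit 2952810350) (dlOf (nat_lit 2) (nat_lit 0x38070009480400cc00200ee0008007782))))))) 
(.nd (nat_lit 5) (.nd (nat_lit 6) (.nd (nat_lit 2) (.nd (nat_lit 7) 
(.lf (nat_lit 469780746) (dlOf (nat_lit 1) (nat_lit 0x20028004b81))) 
(.lf (nat_lit 6241143178) (dlOf (nat_lit 1) (nat_lit 0x1c002000a0008004e82)))) 
(.lf (nat_lit 5301619598) (dlOf (nat_lit 2) (nat_lit 0xc80f80000004000400400120008005c82)))) 
(.nd (nat_lit 7) (.nd (nat_lit 10) 
(.lf (nat_lit 469784910) (dlOf (nat_lit 1) (nat_lit 0x8002800ab81))) 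
(.lf (nat_lit 4227882318) (dlOf (nat_lit 1) (nat_lit 0x3000800180020010000800c903)))) 
(.lf (nat_lit 5301619662) (dlOf (nat_lit 5) (nat_lit 0x7101f000580dc0004408008407c000080200f203e001201b8000181002c80f800000040038004001c0008005d82))))) 
(.nd (nat_lit 6) (.nd (nat_lit 7) 
(.lf (nat_lit 469785902) (dlOf (nat_lit 1) (nat_lit 0x4002800c681))) 
(.lf (nat_lit 4227878318) (dlOf (nat_lit 1) (nat_lit 0x20018006d01)))) (.nd (nat_lit 2) 
(.lf (nat_lit 469784938) (dlOf (nat_lit 1) (nat_lit 0x4002800ac01))) (.nd (nat_lit 12) 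
(.lf (nat_lit 1409304942) (dlOf (nat_lit 1) (nat_lit 0x38008006c00200020008004e83))) 
(.lf (nat_lit 469784942) (dlOf (nat_lit 1) (nat_lit 0x380020002000800ac82))))))))))) 
(.nd (nat_lit 5) (.nd (nat_lit 28) (.nd (nat_lit 6) (.nd (nat_lit 2) (.nd (nat_lit 21) 
(.nd (nat_lit 20) (.nd (nat_lit 26) (.nd (nat_lit 11) 
(.lf (nat_lit 2281979914) (dlOf (nat_lit 1) (nat_lit 0x200180d0481))) 
(.lf (nat_lit 280586) (dlOf (nat_lit 1) (nat_lit 0x400400020008004702)))) (.nd (nat_lit 27) 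
(.lf (nat_lit 4362354698) (dlOf (nat_lit 4) (nat_lit 0x681040013804001c06c00180310004682002700d0001005000118080224004000a0008030582))) 
(.lf (nat_lit 1812217866) (dlOf (nat_lit 2) (nat_lit 0x60000001d204000c00200060008180482))))) 
(.nd (nat_lit 19) (.lf (nat_lit 30687242) (dlOf (nat_lit 1) (nat_lit 0x40018e40481))) 
(.lf (nat_lit 27017226) (dlOf (nat_lit 3) (nat_lit 0x11f57c00dda7e001d6040021d5f000e9818ca0480))))) 
(.nd (nat_lit 7) (.nd (nat_lit 8) (.nd (nat_lit 25) 
(.lf (nat_lit 10764298) (dlOf (nat_lit 1) (nat_lit 0x180018620481))) 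
(.lf (nat_lit 44318730) (dlOf (nat_lit 1) (nat_lit 0x400292f0081)))) 
(.lf (nat_lit 19682570) (dlOf (nat_lit 2) (nat_lit 0x12c10000b4040004002000200089d9602)))) 
(.nd (nat_lit 8) (.lf (nat_lit 23871626) (dlOf (nat_lit 1) (nat_lit 0xc00200020008b80102))) 
(.lf (nat_lit 33311114) (dlOf (nat_lit 1) (nat_lit 0x20018f54e81)))))) (.nd (nat_lit 8) 
(.nd (nat_lit 20) (.nd (nat_lit 26) (.nd (nat_lit 21) (.nd (nat_lit 27) 
(.lf (nat_lit 4295245838) (dlOf (nat_lit 2) (nat_lit 0x60260008c0180c0080))) (.nd (nat_lit 29) 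
(.lf (nat_lit 4429463566) (dlOf (nat_lit 2) (nat_lit 0x6027000438180c0080))) 
(.lf (nat_lit 671367182) (dlOf (nat_lit 1) (nat_lit 0x180008170881))))) (.nd (nat_lit 19) 
(.lf (nat_lit 44318734) (dlOf (nat_lit 1) (nat_lit 0x800192f0081))) 
(.lf (nat_lit 11288590) (dlOf (nat_lit 2) (nat_lit 0x1cac2003e55f0002b028680180))))) 
(.nd (nat_lit 30) (.nd (nat_lit 31) 
(.lf (nat_lit 4362354702) (dlOf (nat_lit 1) (nat_lit 0x400200140008030a02))) 
(.lf (nat_lit 2214871054) (dlOf (nat_lit 3) (nat_lit 0x803c0004c040004026000200f000118280e0200)))) 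
(.lf (nat_lit 1141129230) (dlOf (nat_lit 1) (nat_lit 0x40028110081))))) (.nd (nat_lit 9) 
(.nd (nat_lit 19) (.lf (nat_lit 1327118) (dlOf (nat_lit 1) (nat_lit 0x200180b0481))) 
(.lf (nat_lit 29114382) (dlOf (nat_lit 1) (nat_lit 0x1c00400060018dc0a02)))) (.nd (nat_lit 7) 
(.lf (nat_lit 43271694) (dlOf (nat_lit 1) (nat_lit 0x1000292a3681))) 
(.lf (nat_lit 20731534) (dlOf (nat_lit 1) (nat_lit 0x4002000200089d9e82)))))) (.nd (nat_lit 9) 
(.nd (nat_lit 7) (.nd (nat_lit 19) 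
(.lf (nat_lit 36979982) (dlOf (nat_lit 1) (nat_lit 0x20019073001))) 
(.lf (nat_lit 35407118) (dlOf (nat_lit 1) (nat_lit 0x60019013001)))) (.nd (nat_lit 10) 
(.lf (nat_lit 1851790) (dlOf (nat_lit 1) (nat_lit 0x20018150781))) 
(.lf (nat_lit 8144270) (dlOf (nat_lit 1) (nat_lit 0x400200020008513602))))) (.nd (nat_lit 22) 
(.nd (nat_lit 7) (.lf (nat_lit 2818856718) (dlOf (nat_lit 1) (nat_lit 0x2001812a001))) 
(.lf (nat_lit 738478990) (dlOf (nat_lit 1) (nat_lit 0x800400020018095c82)))) (.nd (nat_lit 19) 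
(.lf (nat_lit 54807438) (dlOf (nat_lit 1) (nat_lit 0x44004007a0009655c82))) 
(.lf (nat_lit 46943118) (dlOf (nat_lit 1) (nat_lit 0x20029385c81)))))))) (.nd (nat_lit 2) 
(.nd (nat_lit 8) (.nd (nat_lit 21) (.nd (nat_lit 26) (.nd (nat_lit 19) 
(.lf (nat_lit 671367242) (dlOf (nat_lit 1) (nat_lit 0x1300080020002010a0008170f03))) 
(.lf (nat_lit 9191498) (dlOf (nat_lit 1) (nat_lit 0x400400020008530602)))) (.nd (nat_lit 11) 
(.lf (nat_lit 2349088842) (dlOf (nat_lit 3) (nat_lit 0x260230000b010008011800014080008008005c002000600080a0e83))) 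
(.lf (nat_lit 2751748170) (dlOf (nat_lit 2) (nat_lit 0x704e0003b804000c002000c000800a682))))) 
(.nd (nat_lit 7) (.lf (nat_lit 23347786) (dlOf (nat_lit 1) (nat_lit 0x20018b81181))) 
(.nd (nat_lit 10) (.lf (nat_lit 2375882) (dlOf (nat_lit 1) (nat_lit 0x20018150481))) 
(.lf (nat_lit 19684554) (dlOf (nat_lit 1) (nat_lit 0xc002000200089dc202)))))) (.nd (nat_lit 7) 
(.nd (nat_lit 32) (.nd (nat_lit 21) 
(.lf (nat_lit 29638986) (dlOf (nat_lit 1) (nat_lit 0x200018e30781))) 
(.lf (nat_lit 2376010) (dlOf (nat_lit 1) (nat_lit 0xd000200100008150602)))) (.nd (nat_lit 26) 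
(.lf (nat_lit 5905858890) (dlOf (nat_lit 1) (nat_lit 0x258008013400200480008154c03))) 
(.lf (nat_lit 6509838666) (dlOf (nat_lit 1) (nat_lit 0x258008013400200480008154c03))))) 
(.nd (nat_lit 9) (.lf (nat_lit 2754891210) (dlOf (nat_lit 1) (nat_lit 0x8004000200180f6d02))) 
(.nd (nat_lit 10) (.lf (nat_lit 50086858) (dlOf (nat_lit 1) (nat_lit 0x80080008002000600094c2883))) 
(.lf (nat_lit 2751743946) (dlOf (nat_lit 6) (nat_lit 0x449000011020006248000311980010000000200c00044900002233000300000003c180018930000c46e000623600007030001126000088dc000446c0000d0600020008004481))))))) 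
(.nd (nat_lit 7) (.nd (nat_lit 19) (.nd (nat_lit 20) 
(.lf (nat_lit 67387470) (dlOf (nat_lit 2) (nat_lit 0x1581140001604000c002000600080f0702))) 
(.nd (nat_lit 23) (.lf (nat_lit 1327182) (dlOf (nat_lit 1) (nat_lit 0xe00080b0901))) 
(.lf (nat_lit 26493006) (dlOf (nat_lit 1) (nat_lit 0x128008008c00200080008c50703))))) 
(.nd (nat_lit 9) (.nd (nat_lit 20) 
(.lf (nat_lit 9191502) (dlOf (nat_lit 1) (nat_lit 0x8008001000200060008530683))) 
(.lf (nat_lit 10240078) (dlOf (nat_lit 3) (nat_lit 0x28327000110100311688000600800200080008002000200085c0f83)))) 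
(.lf (nat_lit 58477134) (dlOf (nat_lit 1) (nat_lit 0x400197e5281))))) (.nd (nat_lit 11) 
(.nd (nat_lit 9) (.nd (nat_lit 19) 
(.lf (nat_lit 2375886) (dlOf (nat_lit 4) (nat_lit 0x72c1b001238100145368006cc0802b305c00ed80000c0a7e00655368005c42000b0008012c00200460008150483))) 
(.lf (nat_lit 4362879182) (dlOf (nat_lit 1) (nat_lit 0x54004001200081a0482)))) (.nd (nat_lit 8) 
(.lf (nat_lit 20206286) (dlOf (nat_lit 1) (nat_lit 0x4002000200089d8c82))) 
(.lf (nat_lit 2751743950) (dlOf (nat_lit 1) (nat_lit 0x20008004481))))) (.nd (nat_lit 19) 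
(.nd (nat_lit 9) 
(.lf (nat_lit 42224078) (dlOf (nat_lit 2) (nat_lit 0x5333802f10080098008000800200060009244e83))) 
(.lf (nat_lit 4496575438) (dlOf (nat_lit 9) (nat_lit 0x50190003008c0003608001c0680034032000c0118000601801b00c8005004400080210000a83001d0190000500801600c800a40440001104003a032000080100280110000340800f80c800000040f0c00400b200080e5d82)))) 
(.nd (nat_lit 20) (.lf (nat_lit 36456910) (dlOf (nat_lit 1) (nat_lit 0x20029074e81))) 
(.lf (nat_lit 68962766) (dlOf (nat_lit 1) (nat_lit 0x400400020008844e82))))))))) (.nd (nat_lit 26) 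
(.nd (nat_lit 27) (.nd (nat_lit 2) (.nd (nat_lit 6) (.nd (nat_lit 19) (.nd (nat_lit 30) 
(.lf (nat_lit 4563681290) (dlOf (nat_lit 7) (nat_lit 0x2d00d0044402a00c401200c8e83009e00a806468081ff80cc028d20400940660146802000a03400a2381000a0198050e40802c00080154002000800080c0003))) 
(.lf (nat_lit 1342455818) (dlOf (nat_lit 2) (nat_lit 0x8478001520200100008030481)))) 
(.lf (nat_lit 1346125834) (dlOf (nat_lit 1) (nat_lit 0x60008004c00200260008e60003)))) 
(.lf (nat_lit 1342455882) (dlOf (nat_lit 2) (nat_lit 0x74492000250200020028030f01)))) 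
(.nd (nat_lit 8) (.nd (nat_lit 29) (.nd (nat_lit 6) (.nd (nat_lit 7) (.nd (nat_lit 20) 
(.lf (nat_lit 4563681294) (dlOf (nat_lit 2) (nat_lit 0x2e03300a348180c0000))) 
(.lf (nat_lit 1343504398) (dlOf (nat_lit 1) (nat_lit 0x400400020008280182)))) 
(.lf (nat_lit 3489942670) (dlOf (nat_lit 1) (nat_lit 0x8008000400200020008006183)))) 
(.lf (nat_lit 1342455886) (dlOf (nat_lit 2) (nat_lit 0x318924011c38e000000400020018030f81)))) 
(.nd (nat_lit 30) (.lf (nat_lit 2953068558) (dlOf (nat_lit 1) (nat_lit 0x200280f0201))) 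
(.lf (nat_lit 1879326734) (dlOf (nat_lit 1) (nat_lit 0x2600080e0401))))) (.nd (nat_lit 7) 
(.nd (nat_lit 6) (.lf (nat_lit 1344554254) (dlOf (nat_lit 1) (nat_lit 0x400200020008863002))) 
(.lf (nat_lit 3494134094) (dlOf (nat_lit 5) (nat_lit 0xb02a00014808002815000240a60054050000238300210280001180800881300005a04034c004017200181b0602)))) 
(.nd (nat_lit 9) 
(.lf (nat_lit 4563681678) (dlOf (nat_lit 4) (nat_lit 0xfb00cc001402a0067e04005e0330033e8100200198016500804000080090002009200080c5d83))) 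
(.lf (nat_lit 1880902542) (dlOf (nat_lit 1) (nat_lit 0x20028c95c81))))))) (.nd (nat_lit 6) 
(.nd (nat_lit 2) (.nd (nat_lit 29) 
(.lf (nat_lit 4697899018) (dlOf (nat_lit 7) (nat_lit 0x2d00d0044402a00c401200e3503009e00a80719c0800280d0028c8040ffc0660144c02004a03300a2581000a0198050a00802c00080154002000800080c0003))) 
(.lf (nat_lit 939802634) (dlOf (nat_lit 2) (nat_lit 0x60000002f004000c00200060008180482)))) 
(.nd (nat_lit 19) (.nd (nat_lit 29) 
(.lf (nat_lit 4697899022) (dlOf (nat_lit 2) (nat_lit 0x2e03300a260180c0000))) 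
(.lf (nat_lit 2013544462) (dlOf (nat_lit 1) (nat_lit 0x40028110081)))) 
(.lf (nat_lit 5773213710) (dlOf (nat_lit 2) (nat_lit 0x7c12f0065d8180b0000))))) (.nd (nat_lit 7) 
(.nd (nat_lit 8) 
(.lf (nat_lit 5773213774) (dlOf (nat_lit 9) (nat_lit 0x7604c0000ac040068260000550200641300002a0100df09880006c0806284f803fc262000130400ae13e007b0988000481005f84f803d0262000110400ae13e0088098800040100010008003c002002c00080b0683))) 
(.lf (nat_lit 3624160590) (dlOf (nat_lit 4) (nat_lit 0x1203e000601b80020000000280c001c07c00120370000982000801b8000440800180080174002003e0008146a03)))) 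
(.nd (nat_lit 2) 
(.lf (nat_lit 4697899210) (dlOf (nat_lit 2) (nat_lit 0x1005000034040020002000e00080c1782))) 
(.lf (nat_lit 4697899214) (dlOf (nat_lit 6) (nat_lit 0x50011000190100570088000b8080178044000560400580220002a020004000000050180c1800))))))) 
(.nd (nat_lit 2) (.nd (nat_lit 29) (.nd (nat_lit 6) (.nd (nat_lit 19) 
(.lf (nat_lit 470040586) (dlOf (nat_lit 2) (nat_lit 0x8478001520200100008030481))) 
(.nd (nat_lit 20) 
(.lf (nat_lit 3557572618) (dlOf (nat_lit 2) (nat_lit 0x40920000002000a0008270081))) 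
(.lf (nat_lit 471613450) (dlOf (nat_lit 10) (nat_lit 0xd0584007c29c001808e0030883005b0b0802c8538016413a00c008e004f016001840280248584008029c0060a04000a16100030a70003023800c060c01a42c200d814e006804e80338238011c058006000a000608e002dd01008e0b080450538023013a012608e00010160016e42800f023800b5a0400102c2000c09d00020470016a8180008008006c00200080008360283))))) 
(.nd (nat_lit 30) 
(.lf (nat_lit 470040650) (dlOf (nat_lit 2) (nat_lit 0x74492000260200020028030f01))) 
(.lf (nat_lit 1543782474) (dlOf (nat_lit 1) (nat_lit 0x1300080020002010a0008170f03))))) 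
(.nd (nat_lit 9) (.nd (nat_lit 6) (.nd (nat_lit 27) 
(.lf (nat_lit 5167661066) (dlOf (nat_lit 1) (nat_lit 0x9a00080f0001))) 
(.lf (nat_lit 4228136970) (dlOf (nat_lit 4) (nat_lit 0x680e80013804001c06c00180300004682002700d0001005000118080224004000a0008030582)))) 
(.lf (nat_lit 4096540746) (dlOf (nat_lit 2) (nat_lit 0x16a06800021018120500)))) (.nd (nat_lit 7) 
(.lf (nat_lit 1009011466) (dlOf (nat_lit 1) (nat_lit 0x380019005b01))) 
(.lf (nat_lit 6376671882) (dlOf (nat_lit 1) (nat_lit 0x400200020008095482)))))) (.nd (nat_lit 19) 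
(.nd (nat_lit 6) (.nd (nat_lit 29) 
(.lf (nat_lit 1543782414) (dlOf (nat_lit 1) (nat_lit 0x180008170881))) (.nd (nat_lit 30) 
(.lf (nat_lit 1006911502) (dlOf (nat_lit 1) (nat_lit 0x2600080e0401))) 
(.lf (nat_lit 4228136974) (dlOf (nat_lit 1) (nat_lit 0x400200140008030a02))))) (.nd (nat_lit 7) 
(.lf (nat_lit 470040654) (dlOf (nat_lit 2) (nat_lit 0x318924011c38e000000400020018030f81))) 
(.lf (nat_lit 3557053134) (dlOf (nat_lit 1) (nat_lit 0x18c00400600008128c82))))) (.nd (nat_lit 30) 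
(.nd (nat_lit 8) (.lf (nat_lit 471613454) (dlOf (nat_lit 1) (nat_lit 0x400400020008360282))) 
(.nd (nat_lit 21) (.lf (nat_lit 1008485646) (dlOf (nat_lit 1) (nat_lit 0x20028d13001))) 
(.lf (nat_lit 473711886) (dlOf (nat_lit 1) (nat_lit 0x160018fa3001))))) (.nd (nat_lit 6) 
(.lf (nat_lit 6377193486) (dlOf (nat_lit 2) (nat_lit 0x7c120003890180b0000))) (.nd (nat_lit 7) 
(.lf (nat_lit 6377193550) (dlOf (nat_lit 9) (nat_lit 0x760484000ac040068242000550200641210002a0100df09100006c0806284c403fc244000130400ae131007b0910000481005f84c403d0244000110400ae1310088091000040100010008003c002002c00080b0683))) 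
(.lf (nat_lit 4228661454) (dlOf (nat_lit 1) (nat_lit 0x54004001200081a0482)))))))))) 
(.nd (nat_lit 2) (.nd (nat_lit 28) (.nd (nat_lit 7) (.nd (nat_lit 19) (.nd (nat_lit 6) 
(.nd (nat_lit 26) (.nd (nat_lit 21) 
(.lf (nat_lit 671367210) (dlOf (nat_lit 1) (nat_lit 0xe0008004000200a80008170b03))) 
(.lf (nat_lit 2375722) (dlOf (nat_lit 2) (nat_lit 0x2305c00798000006a7e00065368068742000600080014002000e0008150003)))) 
(.nd (nat_lit 9) (.lf (nat_lit 1678000170) (dlOf (nat_lit 1) (nat_lit 0x1000400020008130602))) 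
(.lf (nat_lit 6509838890) (dlOf (nat_lit 1) (nat_lit 0x120028157f81))))) (.nd (nat_lit 9) 
(.lf (nat_lit 3892592746) (dlOf (nat_lit 1) (nat_lit 0x400400020008160282))) (.nd (nat_lit 10) 
(.lf (nat_lit 20204138) (dlOf (nat_lit 1) (nat_lit 0xc00200c600089d5382))) 
(.lf (nat_lit 52708970) (dlOf (nat_lit 1) (nat_lit 0x2c0009573901)))))) (.nd (nat_lit 20) 
(.nd (nat_lit 21) (.nd (nat_lit 22) 
(.lf (nat_lit 9191466) (dlOf (nat_lit 1) (nat_lit 0x80080018002000c0008530403))) 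
(.lf (nat_lit 30162986) (dlOf (nat_lit 1) (nat_lit 0x3e0028e30001)))) 
(.lf (nat_lit 2900010) (dlOf (nat_lit 1) (nat_lit 0x24002000800081d0602)))) (.nd (nat_lit 23) 
(.lf (nat_lit 18628650) (dlOf (nat_lit 1) (nat_lit 0x20028960881))) 
(.lf (nat_lit 27017258) (dlOf (nat_lit 1) (nat_lit 0xc00400040018ca0682)))))) (.nd (nat_lit 6) 
(.nd (nat_lit 8) (.nd (nat_lit 9) 
(.lf (nat_lit 49038506) (dlOf (nat_lit 1) (nat_lit 0x20019462c01))) 
(.lf (nat_lit 20207274) (dlOf (nat_lit 1) (nat_lit 0x4002000200089da002)))) (.nd (nat_lit 9) 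
(.lf (nat_lit 1610891690) (dlOf (nat_lit 3) (nat_lit 0x5006a0015602004003500066818091000))) 
(.lf (nat_lit 2885961642) (dlOf (nat_lit 2) (nat_lit 0x100000000600800180080064002001c0008144303))))) 
(.nd (nat_lit 8) (.lf (nat_lit 134496490) (dlOf (nat_lit 1) (nat_lit 0x400400020008046b82))) 
(.nd (nat_lit 9) 
(.lf (nat_lit 6509838826) (dlOf (nat_lit 9) (nat_lit 0x2f0098011c02e0005d0400a4026004700b80017010030009800e402e000510400b2026004200b80014010033809800a003c009c0170002603006c013002e805c000940801c804c00ae01700024020074013000b807801b002e0004206000e0018157301))) 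
(.lf (nat_lit 282602) (dlOf (nat_lit 1) (nat_lit 0x140028007a81))))))) (.nd (nat_lit 27) 
(.nd (nat_lit 6) (.nd (nat_lit 29) (.nd (nat_lit 32) (.nd (nat_lit 8) 
(.lf (nat_lit 1342980138) (dlOf (nat_lit 1) (nat_lit 0x8008008400200040008120c03))) 
(.lf (nat_lit 3557052714) (dlOf (nat_lit 1) (nat_lit 0x460028128081)))) (.nd (nat_lit 7) 
(.lf (nat_lit 5637423146) (dlOf (nat_lit 1) (nat_lit 0x4004000200080e0a02))) 
(.lf (nat_lit 4563681450) (dlOf (nat_lit 7) (nat_lit 0x1401a0000800804200cc0003e04000806800015020040033000050100150198000100800900cc00000040074004002800080c1482))))) 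
(.nd (nat_lit 9) (.lf (nat_lit 805584938) (dlOf (nat_lit 1) (nat_lit 0x1000400020008130602))) 
(.lf (nat_lit 1881426474) (dlOf (nat_lit 4) (nat_lit 0x6838400400f2001e0780004603000d070800701e400380f00008b06001a0e1001003c800781e0001120c002000400040018f05182))))) 
(.nd (nat_lit 7) 
(.lf (nat_lit 1346125930) (dlOf (nat_lit 1) (nat_lit 0x10008005800200220008e60a03))) 
(.lf (nat_lit 3490988266) (dlOf (nat_lit 1) (nat_lit 0x20018046b81))))) (.nd (nat_lit 19) 
(.nd (nat_lit 8) (.nd (nat_lit 29) 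
(.lf (nat_lit 1543782442) (dlOf (nat_lit 1) (nat_lit 0xe0008004000200a80008170b03))) 
(.lf (nat_lit 1006911530) (dlOf (nat_lit 1) (nat_lit 0x80080004002000200080e0a03)))) 
(.lf (nat_lit 3624160554) (dlOf (nat_lit 1) (nat_lit 0x7c004006a0018146802)))) (.nd (nat_lit 20) 
(.lf (nat_lit 470564906) (dlOf (nat_lit 5) (nat_lit 0x13e15400880a880458250004000e0005108013e15400860a8800384dc00141e80116094004d00380013c300310550017c2a2001a0f4002a04a0000dc20047855002302a200080f4006404a0000d820013800800ec00200020008120d03))) 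
(.nd (nat_lit 26) 
(.lf (nat_lit 5773213738) (dlOf (nat_lit 1) (nat_lit 0x80080004002000200080b0403))) 
(.lf (nat_lit 6377193514) (dlOf (nat_lit 1) (nat_lit 0x80080004002000200080b0403)))))))) 
(.nd (nat_lit 21) (.nd (nat_lit 27) (.nd (nat_lit 31) (.nd (nat_lit 20) (.nd (nat_lit 28) 
(.nd (nat_lit 8) (.nd (nat_lit 23) 
(.lf (nat_lit 537149486) (dlOf (nat_lit 8) (nat_lit 0x340000000c80800e00000006204002400000030020254000000178101430000000b80801a800000024040004000000110200100018030c01))) 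
(.lf (nat_lit 25444398) (dlOf (nat_lit 2) (nat_lit 0xb4aa600019018c00600)))) 
(.lf (nat_lit 5905858862) (dlOf (nat_lit 1) (nat_lit 0x100028154901)))) (.nd (nat_lit 26) 
(.lf (nat_lit 1879326766) (dlOf (nat_lit 1) (nat_lit 0x4004000200080e0a02))) 
(.lf (nat_lit 1409564718) (dlOf (nat_lit 8) (nat_lit 0x340000000bc0800e00000005c0400240000002d020254000000160101430000000ac0801a800000024040004000000110200100018030c01))))) 
(.nd (nat_lit 9) (.nd (nat_lit 19) 
(.lf (nat_lit 30687278) (dlOf (nat_lit 2) (nat_lit 0x54690001f818e40e80))) 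
(.lf (nat_lit 10240046) (dlOf (nat_lit 17) (nat_lit 0xb0000000660404645a202cc00000019020118168805a8000000620803745a2018400000018020222168808c00000005e0809885a200b80000001702011b168800d00000005a0805e85a20176000000160200711688000a8080460b44000520400085a200160000000c02007f168800048080420b44000220400145a2000040200262d10000181001a0000000000801880080030002002400085c0c03)))) 
(.lf (nat_lit 1851950) (dlOf (nat_lit 5) (nat_lit 0x1c3e2000e17400090578003828c000781000503e2002a174001a057800c028c0007410000c0000002302002a1f1001c0ba000682bc0060146000000800160028150e81))))) 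
(.nd (nat_lit 30) (.nd (nat_lit 9) (.nd (nat_lit 6) 
(.lf (nat_lit 6509838638) (dlOf (nat_lit 1) (nat_lit 0x100028154901))) 
(.lf (nat_lit 2483306606) (dlOf (nat_lit 6) (nat_lit 0x130128000380800200940001a04002c04a0000c02003a0250000581000b0128000000800300080098002002200080a1503)))) 
(.nd (nat_lit 11) 
(.lf (nat_lit 6509838894) (dlOf (nat_lit 3) (nat_lit 0x98098000bc04002004c0005c0200060018158001))) 
(.lf (nat_lit 2751748654) (dlOf (nat_lit 1) (nat_lit 0x8a001800b301))))) (.nd (nat_lit 6) 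
(.nd (nat_lit 9) 
(.lf (nat_lit 3825483822) (dlOf (nat_lit 4) (nat_lit 0x12c03a00180190001782004800e8000b8080030090000580400d000400120008170c02))) 
(.lf (nat_lit 3221504558) (dlOf (nat_lit 6) (nat_lit 0x1600e0003006000b0000000460c002c01c0002202001600e000b0000000801000580000003a04002c0000001c0200020008128001)))) 
(.nd (nat_lit 8) 
(.lf (nat_lit 3489942638) (dlOf (nat_lit 1) (nat_lit 0x8008041c00200d40008006083))) 
(.lf (nat_lit 3489941870) (dlOf (nat_lit 1) (nat_lit 0x60028004e81))))))) (.nd (nat_lit 26) 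
(.nd (nat_lit 8) (.nd (nat_lit 28) 
(.lf (nat_lit 671367214) (dlOf (nat_lit 26) (nat_lit 0x7802e05140140000d01002f80b81a300500003304027002e084f01400550000000640c021805c110202800090138000c4182b180b802ec05609d00280001803088201702bd00ac0c2c05001aa027000a005812e801c0d8c00804a6000000178806fa017025580ac070405002a602700560058163801c0bfc00802ce00000017080347017006980ac00200500002d06053a02e02650140000b01000c007c0005604000c03e0002a02000800c0001401000d00600009c0800600300004a040ab805c003402b056f0140000601800100a00002604199c050001601f00630000000481844a00a002a004a076801f0000883003a0140000400815480a0016c0000000f04015a028000068102e401400002c080e580a0000140406a4050000090207ea02e010a015818100a0000000c045c004013e0008170c02))) 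
(.nd (nat_lit 29) 
(.lf (nat_lit 1476673582) (dlOf (nat_lit 1) (nat_lit 0x180080040002000c0008100883))) 
(.nd (nat_lit 31) 
(.lf (nat_lit 939802670) (dlOf (nat_lit 1) (nat_lit 0x8008000400200020008180683))) 
(.lf (nat_lit 3087286318) (dlOf (nat_lit 4) (nat_lit 0x12c03a00180190001902004800e8000c40800300900005e0400d000400120008170c02)))))) 
(.nd (nat_lit 7) (.nd (nat_lit 19) 
(.lf (nat_lit 134496558) (dlOf (nat_lit 1) (nat_lit 0xc00200080008047a02))) 
(.lf (nat_lit 135020846) (dlOf (nat_lit 1) (nat_lit 0x4004001800081b0502)))) 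
(.lf (nat_lit 3624159662) (dlOf (nat_lit 1) (nat_lit 0x20004007a0018144e82))))) (.nd (nat_lit 29) 
(.nd (nat_lit 6) (.nd (nat_lit 8) 
(.lf (nat_lit 1543782446) (dlOf (nat_lit 26) (nat_lit 0x3001f0001a01000300f8000cc0801e00b81450050000310400be02e068c0140000c01009c00b8213c050015400000017830086017044080a0002404e0002e060ac602e00bb015827400a00005a0c220805c0af402b030b014006a809c002801604ba00703630020129800000058201be805c095602b01c101400a9809c0158016058e00702ff00200b3800000056200d1c05c01a602b00080140000a81814e80b809940500002904000800c0001401000d00600009c0800600300004a040ab805c003402b056f0140000601800100a00002604199c050001601f00630000000481844a00a002a004a076801f0000883003a0140000400815480a0016c0000000f04015a028000068102e401400002c080e580a0000140406a4050000090207ea02e010a015818100a0000000c045c004013e0008170c02))) 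
(.lf (nat_lit 4496575278) (dlOf (nat_lit 2) (nat_lit 0xa034000a88180e5c00)))) 
(.lf (nat_lit 2349088878) (dlOf (nat_lit 6) (nat_lit 0x130128000380800200940001a04002c04a0000c02003a0250000581000b0128000000800300080098002002200080a1503)))) 
(.nd (nat_lit 7) (.nd (nat_lit 30) 
(.lf (nat_lit 738476078) (dlOf (nat_lit 1) (nat_lit 0x20008090001))) 
(.lf (nat_lit 1812217902) (dlOf (nat_lit 1) (nat_lit 0x8008000400200020008180683)))) 
(.lf (nat_lit 738478510) (dlOf (nat_lit 1) (nat_lit 0x60028094e81))))))) (.nd (nat_lit 7) 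
(.nd (nat_lit 8) (.nd (nat_lit 19) (.nd (nat_lit 6) 
(.lf (nat_lit 44318766) (dlOf (nat_lit 2) (nat_lit 0x989c000be040018002002000092f0d02))) 
(.lf (nat_lit 20207214) (dlOf (nat_lit 1) (nat_lit 0x2180080018002014e00089d9c83)))) 
(.nd (nat_lit 20) (.nd (nat_lit 26) 
(.lf (nat_lit 3492560942) (dlOf (nat_lit 4) (nat_lit 0x807c0002b01000303e80001c08062857000000040010004000600080e0602))) 
(.lf (nat_lit 2754363438) (dlOf (nat_lit 4) (nat_lit 0x807a0002781000303d80001c08062854800000040010004000600080e0602)))) 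
(.lf (nat_lit 1346125870) (dlOf (nat_lit 3) (nat_lit 0x7028a0000b02000814500005018e60280))))) 
(.nd (nat_lit 12) (.nd (nat_lit 9) 
(.lf (nat_lit 2375982) (dlOf (nat_lit 2) (nat_lit 0x24c17002c53f0000d0100090008003400200260008150503))) 
(.lf (nat_lit 8143662) (dlOf (nat_lit 1) (nat_lit 0x40028512201)))) (.nd (nat_lit 6) 
(.lf (nat_lit 20731694) (dlOf (nat_lit 1) (nat_lit 0x200289da101))) 
(.lf (nat_lit 2754894702) (dlOf (nat_lit 1) (nat_lit 0xa00280fbc81)))))) (.nd (nat_lit 11) 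
(.nd (nat_lit 8) (.nd (nat_lit 6) 
(.lf (nat_lit 8148142) (dlOf (nat_lit 1) (nat_lit 0x140028519501))) 
(.lf (nat_lit 3493086958) (dlOf (nat_lit 1) (nat_lit 0x5b4002018400080f3b02)))) (.nd (nat_lit 10) 
(.lf (nat_lit 40125422) (dlOf (nat_lit 1) (nat_lit 0x200080004002000200091f2883))) 
(.lf (nat_lit 3493087214) (dlOf (nat_lit 2) (nat_lit 0xa02a0000c8080018008005c002000800080f4603))))) 
(.nd (nat_lit 6) (.nd (nat_lit 8) 
(.lf (nat_lit 3493087406) (dlOf (nat_lit 1) (nat_lit 0x80008009c002001e00080f4903))) 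
(.lf (nat_lit 2754894766) (dlOf (nat_lit 1) (nat_lit 0x14004000e00080fbd82)))) (.nd (nat_lit 12) 
(.lf (nat_lit 57428718) (dlOf (nat_lit 1) (nat_lit 0x28008001c00200020009795a03))) 
(.nd (nat_lit 20) (.lf (nat_lit 19684078) (dlOf (nat_lit 1) (nat_lit 0x4002000200089db982))) 
(.lf (nat_lit 8149742) (dlOf (nat_lit 1) (nat_lit 0x40020002000851b982)))))))))))) (.nd (nat_lit 2) 
(.nd (nat_lit 5) (.nd (nat_lit 30) (.nd (nat_lit 7) (.nd (nat_lit 18) (.nd (nat_lit 6) 
(.nd (nat_lit 23) (.nd (nat_lit 8) (.nd (nat_lit 20) (.nd (nat_lit 22) 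
(.lf (nat_lit 134823946) (dlOf (nat_lit 1) (nat_lit 0xbc004001a00080c0802))) 
(.lf (nat_lit 474562570) (dlOf (nat_lit 3) (nat_lit 0x615800da58100170ab8000000801d8008017c002001400091a0003)))) 
(.lf (nat_lit 2755215370) (dlOf (nat_lit 1) (nat_lit 0x260018130481)))) (.nd (nat_lit 12) 
(.lf (nat_lit 4563484938) (dlOf (nat_lit 2) (nat_lit 0x620090005340800d8008002800200780008090a83))) 
(.lf (nat_lit 20009226) (dlOf (nat_lit 1) (nat_lit 0x6800289d8081))))) (.nd (nat_lit 8) 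
(.nd (nat_lit 20) (.nd (nat_lit 21) 
(.lf (nat_lit 12664842) (dlOf (nat_lit 1) (nat_lit 0x10004000a00086d0682))) 
(.lf (nat_lit 14761994) (dlOf (nat_lit 1) (nat_lit 0x20008003400200040008770003)))) 
(.lf (nat_lit 26296330) (dlOf (nat_lit 2) (nat_lit 0x806500000004000400400100018c30002)))) 
(.nd (nat_lit 9) (.lf (nat_lit 10567946) (dlOf (nat_lit 1) (nat_lit 0x1800285f7d01))) 
(.lf (nat_lit 59853578) (dlOf (nat_lit 1) (nat_lit 0x80019845b01)))))) (.nd (nat_lit 19) 
(.nd (nat_lit 32) (.nd (nat_lit 8) 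
(.lf (nat_lit 469849162) (dlOf (nat_lit 3) (nat_lit 0x402c4004c11c000200400200b1000c0470000741001000080080002004a0008009303))) 
(.lf (nat_lit 3087089994) (dlOf (nat_lit 3) (nat_lit 0x2807c0018036000a0000002783000200f8002806c001402e0004d06000a00280b0601)))) 
(.nd (nat_lit 27) (.lf (nat_lit 4563484746) (dlOf (nat_lit 1) (nat_lit 0x40018090001))) 
(.lf (nat_lit 4697702474) (dlOf (nat_lit 1) (nat_lit 0x40018090001))))) (.nd (nat_lit 21) 
(.nd (nat_lit 27) 
(.lf (nat_lit 537477194) (dlOf (nat_lit 5) (nat_lit 0x2a05700e3026004b80e80002c0c03480ba006405700fc026001f80e80150018000140a022004c00002810082026000010080d1800800d8002001a00080a0e83))) 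
(.lf (nat_lit 134824010) (dlOf (nat_lit 1) (nat_lit 0xc0008004c002002c00080c1483)))) 
(.lf (nat_lit 2754166858) (dlOf (nat_lit 1) (nat_lit 0x400180c1881)))))) (.nd (nat_lit 20) 
(.nd (nat_lit 26) (.nd (nat_lit 28) (.nd (nat_lit 8) (.nd (nat_lit 19) 
(.lf (nat_lit 537214986) (dlOf (nat_lit 2) (nat_lit 0x20700009c818060480))) 
(.lf (nat_lit 2965514) (dlOf (nat_lit 1) (nat_lit 0x16800200a600081e0502)))) 
(.lf (nat_lit 19745546) (dlOf (nat_lit 1) (nat_lit 0x13200189d5b01)))) (.nd (nat_lit 6) 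
(.lf (nat_lit 805650442) (dlOf (nat_lit 1) (nat_lit 0x2000800fc00201280008160483))) 
(.nd (nat_lit 27) 
(.lf (nat_lit 4563746890) (dlOf (nat_lit 2) (nat_lit 0x4c0188000e00800700080030002001400080d0503))) 
(.lf (nat_lit 4697964618) (dlOf (nat_lit 2) (nat_lit 0x4c0188000d80800700080030002001400080d0503)))))) 
(.nd (nat_lit 27) (.nd (nat_lit 29) (.nd (nat_lit 31) 
(.lf (nat_lit 4362420234) (dlOf (nat_lit 1) (nat_lit 0xc0008070501))) 
(.lf (nat_lit 6509903882) (dlOf (nat_lit 1) (nat_lit 0x10008002000200100008160483)))) 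
(.lf (nat_lit 604323850) (dlOf (nat_lit 1) (nat_lit 0x400400020018160002)))) (.nd (nat_lit 29) 
(.lf (nat_lit 2617589770) (dlOf (nat_lit 1) (nat_lit 0x1e0028100081))) 
(.lf (nat_lit 3154460682) (dlOf (nat_lit 2) (nat_lit 0x640a80008022002d00a0010441800800080020002002000081a0003)))))) 
(.nd (nat_lit 6) (.nd (nat_lit 8) (.nd (nat_lit 22) 
(.lf (nat_lit 26558474) (dlOf (nat_lit 1) (nat_lit 0x400200020008c50002))) 
(.lf (nat_lit 30752778) (dlOf (nat_lit 1) (nat_lit 0x680008e50581)))) (.nd (nat_lit 11) 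
(.lf (nat_lit 58016010) (dlOf (nat_lit 1) (nat_lit 0x200297a3681))) 
(.lf (nat_lit 20273418) (dlOf (nat_lit 1) (nat_lit 0x200089daa01))))) (.nd (nat_lit 9) 
(.lf (nat_lit 3490122) (dlOf (nat_lit 2) (nat_lit 0xc33a28000c8080258008029c00200e60008200603))) 
(.lf (nat_lit 20269898) (dlOf (nat_lit 1) (nat_lit 0x4002000200089d5c02))))))) (.nd (nat_lit 8) 
(.nd (nat_lit 27) (.nd (nat_lit 21) (.nd (nat_lit 6) (.nd (nat_lit 22) 
(.lf (nat_lit 5100617866) (dlOf (nat_lit 1) (nat_lit 0x8008001400200040008100f03))) 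
(.lf (nat_lit 21315722) (dlOf (nat_lit 5) (nat_lit 0x8428a00036020142a7300a90b380a8853c02381b8011009800aa046000b8218001000400032100010145000409c800304d000201d20002e08000e145000309c800104d000101d20002d0800020018a30f01)))) 
(.lf (nat_lit 604061898) (dlOf (nat_lit 1) (nat_lit 0x400200020008010482)))) (.nd (nat_lit 6) 
(.nd (nat_lit 20) (.lf (nat_lit 18956426) (dlOf (nat_lit 1) (nat_lit 0x20018970481))) 
(.lf (nat_lit 3227786) (dlOf (nat_lit 1) (nat_lit 0x800807b000202e20008200103)))) 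
(.lf (nat_lit 7951050) (dlOf (nat_lit 1) (nat_lit 0x10008000400200020008518c83))))) 
(.nd (nat_lit 29) (.nd (nat_lit 6) (.nd (nat_lit 19) 
(.lf (nat_lit 6576750730) (dlOf (nat_lit 1) (nat_lit 0x200180b0101))) 
(.lf (nat_lit 470368394) (dlOf (nat_lit 1) (nat_lit 0x124004003000080c0102)))) 
(.lf (nat_lit 469845706) (dlOf (nat_lit 1) (nat_lit 0x40008003a81)))) (.nd (nat_lit 6) 
(.nd (nat_lit 10) 
(.lf (nat_lit 939606154) (dlOf (nat_lit 6) (nat_lit 0x1f809800fc044008201d004200e0001282002180980118044009801d004a00e000180440008614011804c0090022004b00e80240070000821000c804c006201c0001d8200060130010807000070080038004000a00080b0102))) 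
(.lf (nat_lit 2818655370) (dlOf (nat_lit 1) (nat_lit 0x80080004002000200080d2b03)))) 
(.lf (nat_lit 3087089866) (dlOf (nat_lit 2) (nat_lit 0x2e01f001300d8008805c0039e0c00ac002000a00080b0482)))))) 
(.nd (nat_lit 6) (.nd (nat_lit 12) (.nd (nat_lit 19) (.nd (nat_lit 21) 
(.lf (nat_lit 3154200970) (dlOf (nat_lit 1) (nat_lit 0x800200020008104e82))) 
(.lf (nat_lit 31541642) (dlOf (nat_lit 1) (nat_lit 0x60028e94e81)))) 
(.lf (nat_lit 69814666) (dlOf (nat_lit 1) (nat_lit 0xc0018c74e81)))) (.nd (nat_lit 10) 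
(.lf (nat_lit 67195274) (dlOf (nat_lit 1) (nat_lit 0x400200020008008382))) 
(.lf (nat_lit 20012426) (dlOf (nat_lit 1) (nat_lit 0x4002000200089dc902))))) (.nd (nat_lit 18) 
(.nd (nat_lit 19) (.lf (nat_lit 2818656714) (dlOf (nat_lit 1) (nat_lit 0x1000180d4e81))) 
(.lf (nat_lit 57231818) (dlOf (nat_lit 2) (nat_lit 0x68676005884080198008013c002002a0009794e83)))) 
(.nd (nat_lit 9) (.lf (nat_lit 69552586) (dlOf (nat_lit 1) (nat_lit 0xe0018b44e81))) 
(.lf (nat_lit 8209354) (dlOf (nat_lit 1) (nat_lit 0x400200020008512882)))))))) (.nd (nat_lit 29) 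
(.nd (nat_lit 18) (.nd (nat_lit 8) (.nd (nat_lit 19) (.nd (nat_lit 9) (.nd (nat_lit 11) 
(.lf (nat_lit 3221307402) (dlOf (nat_lit 1) (nat_lit 0x20018090001))) 
(.lf (nat_lit 3623962634) (dlOf (nat_lit 1) (nat_lit 0x400080018002000c0008004703)))) 
(.lf (nat_lit 3556854282) (dlOf (nat_lit 3) (nat_lit 0x78124000500400180920002702002400080d5001)))) 
(.nd (nat_lit 6) (.nd (nat_lit 7) 
(.lf (nat_lit 3493412874) (dlOf (nat_lit 1) (nat_lit 0x260018130481))) 
(.lf (nat_lit 1342783626) (dlOf (nat_lit 1) (nat_lit 0x124004003000080c0102)))) (.nd (nat_lit 21) 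
(.lf (nat_lit 3221831754) (dlOf (nat_lit 4) (nat_lit 0x3d0054020602300f3010c087008003ca0380001505000f021800181000004e08000808c0002402006800281a1481))) 
(.lf (nat_lit 3492364362) (dlOf (nat_lit 2) (nat_lit 0x6c3f80002a02000600180c1481)))))) 
(.nd (nat_lit 6) (.nd (nat_lit 7) (.nd (nat_lit 10) 
(.lf (nat_lit 1342265610) (dlOf (nat_lit 1) (nat_lit 0x9800800580020068000800aa03))) 
(.lf (nat_lit 1409371402) (dlOf (nat_lit 1) (nat_lit 0x10008000c00200020008006683)))) 
(.lf (nat_lit 5772493194) (dlOf (nat_lit 1) (nat_lit 0x400200020008091002)))) (.nd (nat_lit 9) 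
(.lf (nat_lit 3691069770) (dlOf (nat_lit 1) (nat_lit 0x320028010781))) 
(.lf (nat_lit 1342266186) (dlOf (nat_lit 1) (nat_lit 0x48008003c0020042000800bc83)))))) 
(.nd (nat_lit 27) (.nd (nat_lit 26) (.nd (nat_lit 6) (.nd (nat_lit 11) 
(.lf (nat_lit 1346191370) (dlOf (nat_lit 2) (nat_lit 0xc1600065a818e60000))) 
(.lf (nat_lit 3493152778) (dlOf (nat_lit 2) (nat_lit 0xc81180004e02000600180f4701)))) 
(.lf (nat_lit 5637488842) (dlOf (nat_lit 1) (nat_lit 0xd00080044002004400080f1783)))) 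
(.nd (nat_lit 6) (.nd (nat_lit 11) 
(.lf (nat_lit 1409630218) (dlOf (nat_lit 2) (nat_lit 0x2070000e5018060480))) 
(.lf (nat_lit 1410156554) (dlOf (nat_lit 2) (nat_lit 0xd502f800138080090008017c002004000080f4703)))) 
(.lf (nat_lit 3288678474) (dlOf (nat_lit 1) (nat_lit 0x1c004001600080c1482))))) (.nd (nat_lit 7) 
(.nd (nat_lit 8) (.nd (nat_lit 26) 
(.lf (nat_lit 3355787274) (dlOf (nat_lit 1) (nat_lit 0x1f0008003400200180008110003))) 
(.lf (nat_lit 5570379786) (dlOf (nat_lit 1) (nat_lit 0x400200020008110002)))) 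
(.lf (nat_lit 5771709194) (dlOf (nat_lit 2) (nat_lit 0x402540000004002000400020018005b02)))) 
(.nd (nat_lit 6) 
(.lf (nat_lit 1208303754) (dlOf (nat_lit 2) (nat_lit 0x100c40004e040014004000800180c0f02))) 
(.nd (nat_lit 19) (.lf (nat_lit 1208303818) (dlOf (nat_lit 1) (nat_lit 0x178004007a00080c1b82))) 
(.lf (nat_lit 5773279434) (dlOf (nat_lit 1) (nat_lit 0x80080004002008c00080c1783)))))))) 
(.nd (nat_lit 28) (.nd (nat_lit 27) (.nd (nat_lit 6) (.nd (nat_lit 18) (.nd (nat_lit 7) 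
(.lf (nat_lit 1678327818) (dlOf (nat_lit 1) (nat_lit 0x200081e0681))) 
(.lf (nat_lit 5972770954) (dlOf (nat_lit 1) (nat_lit 0x200180b0101)))) (.nd (nat_lit 26) 
(.lf (nat_lit 5905924106) (dlOf (nat_lit 1) (nat_lit 0x10008002000200100008160483))) 
(.lf (nat_lit 1678065674) (dlOf (nat_lit 1) (nat_lit 0x2000800fc00201280008160483))))) 
(.nd (nat_lit 7) 
(.lf (nat_lit 3825287498) (dlOf (nat_lit 3) (nat_lit 0x2807c0018036000a0000002b03000200f8002806c001402e0005406000a00280b0601))) 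
(.lf (nat_lit 3825287370) (dlOf (nat_lit 2) (nat_lit 0x2e01f001300d8008805c0039e0c00ac002000a00080b0482))))) 
(.nd (nat_lit 6) (.nd (nat_lit 7) (.nd (nat_lit 9) 
(.lf (nat_lit 3892658186) (dlOf (nat_lit 2) (nat_lit 0x970288026bc0800b8008002c00200140008180003))) 
(.lf (nat_lit 6039885322) (dlOf (nat_lit 2) (nat_lit 0x140230006010802fdc100008008005c00200120008009c03)))) 
(.nd (nat_lit 18) 
(.lf (nat_lit 1812021386) (dlOf (nat_lit 6) (nat_lit 0x1f809800fc044008201d004200e0001282002180980118044009801d004a00e000180440008614011804c0090022004b00e80240070000821000c804c006201c0001d8200060130010807000070080038004000a00080b0102))) 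
(.lf (nat_lit 1745174666) (dlOf (nat_lit 2) (nat_lit 0x1780580004e040008002000200080c0f02))))) 
(.nd (nat_lit 8) (.lf (nat_lit 3960029258) (dlOf (nat_lit 1) (nat_lit 0x200181a1881))) 
(.lf (nat_lit 1744912714) (dlOf (nat_lit 1) (nat_lit 0x8008000400200020008090c83)))))) 
(.nd (nat_lit 18) (.nd (nat_lit 10) (.nd (nat_lit 6) 
(.lf (nat_lit 4227942794) (dlOf (nat_lit 1) (nat_lit 0x100018004e81))) (.nd (nat_lit 8) 
(.lf (nat_lit 4095295562) (dlOf (nat_lit 2) (nat_lit 0x842e0017200000022828090500))) 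
(.lf (nat_lit 4227947338) (dlOf (nat_lit 16) (nat_lit 0x158100006c06400b0404001e0320057d81000a019002b7c0800980c8015bc04007006400adc0200300320056d01001201900275c0800900c8013a6040048064009d2020108032004e881002801900272c0800600c8012d604009006400964020006032004b181002501900000008035000800040020056000800bc83))))) 
(.nd (nat_lit 7) (.nd (nat_lit 8) 
(.lf (nat_lit 4160837130) (dlOf (nat_lit 1) (nat_lit 0xc00018009c01))) 
(.lf (nat_lit 4227943690) (dlOf (nat_lit 2) (nat_lit 0x280c80000004004000200580008006682)))) 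
(.lf (nat_lit 4227943818) (dlOf (nat_lit 2) (nat_lit 0x420000000b018006c80))))) (.nd (nat_lit 26) 
(.nd (nat_lit 6) (.nd (nat_lit 27) 
(.lf (nat_lit 6174359562) (dlOf (nat_lit 1) (nat_lit 0x400200020008110002))) 
(.lf (nat_lit 4161093642) (dlOf (nat_lit 1) (nat_lit 0x20018120081)))) 
(.lf (nat_lit 4026875978) (dlOf (nat_lit 1) (nat_lit 0x2e00280c1881)))) (.nd (nat_lit 7) 
(.lf (nat_lit 4228202506) (dlOf (nat_lit 1) (nat_lit 0xc0008070501))) 
(.lf (nat_lit 6241468554) (dlOf (nat_lit 5) (nat_lit 0xe9009c010404c03260250001b03008b013802f0094000680807b804e00d402601fa00e807d807008140320352018005500b00e1005402200260078012000100101060000000643000040340002d02004e00080f0f01))))))))) 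
(.nd (nat_lit 18) (.nd (nat_lit 28) (.nd (nat_lit 8) (.nd (nat_lit 19) (.nd (nat_lit 6) 
(.nd (nat_lit 7) (.nd (nat_lit 22) 
(.lf (nat_lit 27344938) (dlOf (nat_lit 1) (nat_lit 0x20028cd0781))) 
(.lf (nat_lit 14762026) (dlOf (nat_lit 1) (nat_lit 0x60018770381)))) 
(.lf (nat_lit 20009642) (dlOf (nat_lit 1) (nat_lit 0x4002000200089d8c82)))) (.nd (nat_lit 20) 
(.nd (nat_lit 7) 
(.lf (nat_lit 4496377450) (dlOf (nat_lit 1) (nat_lit 0xc000800c400200200008053903))) 
(.lf (nat_lit 18956522) (dlOf (nat_lit 1) (nat_lit 0x18008000400200020008970603)))) 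
(.nd (nat_lit 12) (.lf (nat_lit 47267946) (dlOf (nat_lit 1) (nat_lit 0x600293c0781))) 
(.lf (nat_lit 20009066) (dlOf (nat_lit 1) (nat_lit 0x4002000200089d7d82)))))) (.nd (nat_lit 26) 
(.nd (nat_lit 23) (.nd (nat_lit 29) 
(.lf (nat_lit 3221831722) (dlOf (nat_lit 3) (nat_lit 0x14807c000190200a203e0000b0181a0c00))) 
(.lf (nat_lit 537477162) (dlOf (nat_lit 3) (nat_lit 0x2e0590001981001e02c8000200800a80080188002012a00080a0983)))) 
(.lf (nat_lit 42549290) (dlOf (nat_lit 3) (nat_lit 0xb3a08000a4080041d040004e04010c004000a0009260202)))) 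
(.nd (nat_lit 21) (.nd (nat_lit 29) 
(.lf (nat_lit 201932842) (dlOf (nat_lit 1) (nat_lit 0x4004002800080c0d02))) 
(.lf (nat_lit 3960029226) (dlOf (nat_lit 2) (nat_lit 0x603e0000b0181a0d00)))) 
(.lf (nat_lit 2754166826) (dlOf (nat_lit 6) (nat_lit 0x1607e0000320400b43f00001802004a1f80000b8100090fc0000580801507e000028040008004000e00080c0d02)))))) 
(.nd (nat_lit 6) (.nd (nat_lit 7) (.nd (nat_lit 11) (.nd (nat_lit 26) 
(.lf (nat_lit 1744912682) (dlOf (nat_lit 1) (nat_lit 0x20008090b01))) 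
(.lf (nat_lit 5435900202) (dlOf (nat_lit 1) (nat_lit 0x60028015a01)))) 
(.lf (nat_lit 4362160426) (dlOf (nat_lit 1) (nat_lit 0x10008015800200020008004b83)))) 
(.nd (nat_lit 9) (.lf (nat_lit 8471978) (dlOf (nat_lit 1) (nat_lit 0x400200020008513602))) 
(.nd (nat_lit 26) 
(.lf (nat_lit 536954794) (dlOf (nat_lit 2) (nat_lit 0x4017c0002a04000c00400060008004302))) 
(.lf (nat_lit 4362160042) (dlOf (nat_lit 1) (nat_lit 0x180018004301)))))) (.nd (nat_lit 7) 
(.nd (nat_lit 9) (.nd (nat_lit 10) 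
(.lf (nat_lit 57231722) (dlOf (nat_lit 2) (nat_lit 0x36768021b3b002bf608007000400700019794e82))) 
(.lf (nat_lit 2818655594) (dlOf (nat_lit 1) (nat_lit 0x700080050002003400080d3483)))) 
(.lf (nat_lit 536954730) (dlOf (nat_lit 1) (nat_lit 0x13800800a4002002a0008004003)))) 
(.nd (nat_lit 11) 
(.lf (nat_lit 2753118698) (dlOf (nat_lit 1) (nat_lit 0x8008000400200020008090d03))) 
(.lf (nat_lit 57231850) (dlOf (nat_lit 1) (nat_lit 0x10008000c00200060009794f03))))))) 
(.nd (nat_lit 6) (.nd (nat_lit 27) (.nd (nat_lit 8) (.nd (nat_lit 19) (.nd (nat_lit 20) 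
(.lf (nat_lit 1344356394) (dlOf (nat_lit 1) (nat_lit 0x2400400320008740002))) 
(.lf (nat_lit 1343307818) (dlOf (nat_lit 5) (nat_lit 0x112025e000540207ae12f000228101850978000fc0800304bc00078040004002000a00081e0682)))) 
(.nd (nat_lit 21) 
(.lf (nat_lit 1409892394) (dlOf (nat_lit 3) (nat_lit 0x2e0590001f81001e02c8000440800a80080188002012a00080a0983))) 
(.lf (nat_lit 3492364330) (dlOf (nat_lit 3) (nat_lit 0x590f30000640802d07980002c0400b4004007200080c0c02))))) 
(.nd (nat_lit 7) (.lf (nat_lit 1342263594) (dlOf (nat_lit 1) (nat_lit 0x40018008081))) 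
(.lf (nat_lit 1342264746) (dlOf (nat_lit 3) (nat_lit 0x11090028f008003884801474040030004000c0008009902))))) 
(.nd (nat_lit 8) (.nd (nat_lit 9) (.nd (nat_lit 10) 
(.lf (nat_lit 1009336362) (dlOf (nat_lit 1) (nat_lit 0xc00290f0a01))) 
(.lf (nat_lit 2080457770) (dlOf (nat_lit 1) (nat_lit 0x8008000400200020008092883)))) 
(.lf (nat_lit 5774066218) (dlOf (nat_lit 1) (nat_lit 0x4002000200080f8982)))) (.nd (nat_lit 10) 
(.lf (nat_lit 469846314) (dlOf (nat_lit 1) (nat_lit 0x80008001400200360008004b83))) 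
(.lf (nat_lit 4160836906) (dlOf (nat_lit 1) (nat_lit 0x100018009801)))))) (.nd (nat_lit 7) 
(.nd (nat_lit 8) (.nd (nat_lit 9) 
(.lf (nat_lit 1543588970) (dlOf (nat_lit 1) (nat_lit 0x10008000400200020008146083))) 
(.nd (nat_lit 27) (.lf (nat_lit 5100357226) (dlOf (nat_lit 1) (nat_lit 0x80008053901))) 
(.lf (nat_lit 6308316778) (dlOf (nat_lit 1) (nat_lit 0x3800200020008053902))))) (.nd (nat_lit 30) 
(.lf (nat_lit 4697702762) (dlOf (nat_lit 1) (nat_lit 0xc00200940008090f02))) 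
(.lf (nat_lit 1476477290) (dlOf (nat_lit 1) (nat_lit 0x400400020008010a02))))) (.nd (nat_lit 8) 
(.nd (nat_lit 10) 
(.lf (nat_lit 4563484906) (dlOf (nat_lit 1) (nat_lit 0xe8008006800200d20008090a83))) 
(.lf (nat_lit 1342262506) (dlOf (nat_lit 3) (nat_lit 0x50f98000b80802387cc0005a0400a0004003e0008006502)))) 
(.nd (nat_lit 9) (.nd (nat_lit 19) 
(.lf (nat_lit 2483110378) (dlOf (nat_lit 1) (nat_lit 0xc00400040008017302))) 
(.lf (nat_lit 3491316202) (dlOf (nat_lit 1) (nat_lit 0x8008000400200020008090d03)))) 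
(.lf (nat_lit 469851114) (dlOf (nat_lit 2) (nat_lit 0x20f380295c0800580080028002000c000800bf03)))))))) 
(.nd (nat_lit 26) (.nd (nat_lit 6) (.nd (nat_lit 28) (.nd (nat_lit 19) (.nd (nat_lit 20) 
(.nd (nat_lit 29) 
(.lf (nat_lit 3221569578) (dlOf (nat_lit 5) (nat_lit 0xc08c000cf02000a0560002029000280d80014056000c01e000500880030028001800c000c910000c0560006029000280d80018056000c01e000600880030028001800c000c810000c05100059018140600))) 
(.lf (nat_lit 3758440490) (dlOf (nat_lit 1) (nat_lit 0x200281c0681)))) (.nd (nat_lit 7) 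
(.nd (nat_lit 9) (.lf (nat_lit 9781290) (dlOf (nat_lit 1) (nat_lit 0x40018580301))) 
(.lf (nat_lit 58016298) (dlOf (nat_lit 8) (nat_lit 0xc5ee000180100072f70000bc0800497b80005c040020bdc0002d02000e5ee000028100082f70000080800497b800000040028002001200097a8982)))) 
(.lf (nat_lit 20272554) (dlOf (nat_lit 1) (nat_lit 0x200089d9901))))) (.nd (nat_lit 22) 
(.lf (nat_lit 9257002) (dlOf (nat_lit 1) (nat_lit 0x40018530401))) (.nd (nat_lit 23) 
(.lf (nat_lit 5062698) (dlOf (nat_lit 8) (nat_lit 0x5f33100017c080049988000ba040250cf200186620002c02000733c800a19880034b2002ba4e3000226f810c9344000a818001ccf200126620000a020009331000038080049988000020400d4004004c0008300682))) 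
(.lf (nat_lit 13451306) (dlOf (nat_lit 4) (nat_lit 0x3d8624000a20401e83120004f0200201890001b818720d00)))))) 
(.nd (nat_lit 29) (.nd (nat_lit 10) 
(.lf (nat_lit 2416263210) (dlOf (nat_lit 1) (nat_lit 0x800180c0d01))) 
(.lf (nat_lit 3490008106) (dlOf (nat_lit 1) (nat_lit 0x400200020008006082)))) (.nd (nat_lit 27) 
(.nd (nat_lit 30) 
(.lf (nat_lit 805650474) (dlOf (nat_lit 3) (nat_lit 0x502a80030138001806e000c02b0006012000280480018014000a0060006488000402a80030138001c06e000c02b0006012000300480018014000c00600064088160600))) 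
(.lf (nat_lit 6174359594) (dlOf (nat_lit 1) (nat_lit 0x400200020008110302)))) 
(.lf (nat_lit 4161093674) (dlOf (nat_lit 3) (nat_lit 0x6001b00480000000541005300ac0074052000120400560018120701)))))) 
(.nd (nat_lit 20) (.nd (nat_lit 7) (.nd (nat_lit 8) 
(.lf (nat_lit 1881489514) (dlOf (nat_lit 1) (nat_lit 0x20028f11a81))) 
(.lf (nat_lit 25510250) (dlOf (nat_lit 4) (nat_lit 0x6b0e0001281001558700008c080012c38000440400e800400020018c10a02)))) 
(.nd (nat_lit 19) (.lf (nat_lit 19218666) (dlOf (nat_lit 1) (nat_lit 0x1000200100008970602))) 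
(.lf (nat_lit 17645802) (dlOf (nat_lit 1) (nat_lit 0x4c00188e0601))))) (.nd (nat_lit 19) 
(.nd (nat_lit 9) 
(.lf (nat_lit 13975658) (dlOf (nat_lit 2) (nat_lit 0x3a49800514080008008000800200040008750283))) 
(.lf (nat_lit 20269674) (dlOf (nat_lit 1) (nat_lit 0x8002000200089d5382)))) (.nd (nat_lit 7) 
(.lf (nat_lit 1346191466) (dlOf (nat_lit 1) (nat_lit 0x2800200120008e60a02))) 
(.lf (nat_lit 5773279466) (dlOf (nat_lit 1) (nat_lit 0x80080004002000200080c1e03))))))) 
(.nd (nat_lit 27) (.nd (nat_lit 28) (.nd (nat_lit 29) (.nd (nat_lit 32) 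
(.lf (nat_lit 67452970) (dlOf (nat_lit 1) (nat_lit 0x1d8008000800200300008140683))) 
(.lf (nat_lit 4362420266) (dlOf (nat_lit 7) (nat_lit 0x24205c015802a011a014c05680a4029c0470038021001301040634066011a03201c301680ac8090042003002a0000000080d0018023800780cc0001e0801640b0000805100790238001810800100700004037002401b000400d0065c06601240320070018800100bc0001c3008180660000d020002054000f0298007811c010806600140240000405001d02e00000c080078008001800202280008070803)))) 
(.nd (nat_lit 6) 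
(.lf (nat_lit 1678065706) (dlOf (nat_lit 3) (nat_lit 0x502a80030138001806e000c02b0006012000280480018014000a0060006b88000402a80030138001c06e000c02b0006012000300480018014000c0060006b088160600))) 
(.lf (nat_lit 2751808490) (dlOf (nat_lit 1) (nat_lit 0x20028002881))))) (.nd (nat_lit 19) 
(.nd (nat_lit 7) (.lf (nat_lit 2483372074) (dlOf (nat_lit 1) (nat_lit 0x18002000400080e0602))) 
(.lf (nat_lit 335888554) (dlOf (nat_lit 1) (nat_lit 0x1000180c1481)))) (.nd (nat_lit 6) 
(.lf (nat_lit 4096606250) (dlOf (nat_lit 2) (nat_lit 0x60130000d018140c80))) 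
(.lf (nat_lit 4095559274) (dlOf (nat_lit 1) (nat_lit 0x200280e3901)))))) (.nd (nat_lit 28) 
(.nd (nat_lit 29) (.nd (nat_lit 30) 
(.lf (nat_lit 2349154346) (dlOf (nat_lit 1) (nat_lit 0x18002000400080e0602))) 
(.lf (nat_lit 5570379818) (dlOf (nat_lit 1) (nat_lit 0x400200020008110302)))) (.nd (nat_lit 8) 
(.lf (nat_lit 3959767082) (dlOf (nat_lit 5) (nat_lit 0xc08c000dd02000a0560002029000280d80014056000c01e000500880030028001800c000d710000c0560006029000280d80018056000c01e000600880030028001800c000d610000c05100060018140600))) 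
(.lf (nat_lit 2886027562) (dlOf (nat_lit 1) (nat_lit 0x3b000402460008144b82))))) (.nd (nat_lit 29) 
(.lf (nat_lit 2617589802) (dlOf (nat_lit 10) (nat_lit 0x1f00100000bc080d100800005c0406700400002d02008e020000160101880100000a4080b880800004e0406480400001f0203420200000f01007a01000007408002800800ac002004c0008100703))) 
(.nd (nat_lit 30) (.lf (nat_lit 1006977066) (dlOf (nat_lit 2) (nat_lit 0x2606500028818120d00))) 
(.lf (nat_lit 4228202538) (dlOf (nat_lit 2) (nat_lit 0x580c80006e04006400400780008070882)))))))))) 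
(.nd (nat_lit 5) (.nd (nat_lit 28) (.nd (nat_lit 6) (.nd (nat_lit 19) (.nd (nat_lit 26) 
(.nd (nat_lit 7) (.nd (nat_lit 8) (.nd (nat_lit 18) 
(.lf (nat_lit 39930382) (dlOf (nat_lit 1) (nat_lit 0x400291f5081))) 
(.lf (nat_lit 40192526) (dlOf (nat_lit 1) (nat_lit 0x2c00291f5081)))) 
(.lf (nat_lit 10567950) (dlOf (nat_lit 1) (nat_lit 0x11e00285f7d01)))) (.nd (nat_lit 8) 
(.lf (nat_lit 20273806) (dlOf (nat_lit 1) (nat_lit 0x200089db681))) 
(.lf (nat_lit 46222222) (dlOf (nat_lit 1) (nat_lit 0xe0029385c81))))) (.nd (nat_lit 31) 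
(.nd (nat_lit 7) (.nd (nat_lit 30) 
(.lf (nat_lit 604323854) (dlOf (nat_lit 1) (nat_lit 0x2e0008160181))) 
(.lf (nat_lit 1678065678) (dlOf (nat_lit 1) (nat_lit 0x40008160481)))) 
(.lf (nat_lit 4899291534) (dlOf (nat_lit 1) (nat_lit 0x6400180f5d81)))) (.nd (nat_lit 22) 
(.lf (nat_lit 6509903886) (dlOf (nat_lit 1) (nat_lit 0x30008003000200120008160483))) 
(.lf (nat_lit 2756001806) (dlOf (nat_lit 1) (nat_lit 0xa0004000e00081d0402)))))) (.nd (nat_lit 21) 
(.nd (nat_lit 9) (.nd (nat_lit 26) (.nd (nat_lit 29) 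
(.lf (nat_lit 134823950) (dlOf (nat_lit 2) (nat_lit 0x801e8026380800a00080024002001a00080c0803))) 
(.lf (nat_lit 2819178510) (dlOf (nat_lit 1) (nat_lit 0x200281d0181)))) 
(.lf (nat_lit 201932814) (dlOf (nat_lit 2) (nat_lit 0x801e800fd00800a00080024002001a00080c0803)))) 
(.nd (nat_lit 7) (.lf (nat_lit 608782) (dlOf (nat_lit 1) (nat_lit 0x4004002c0008005082))) 
(.lf (nat_lit 9000590) (dlOf (nat_lit 1) (nat_lit 0x20028519e81))))) (.nd (nat_lit 22) 
(.nd (nat_lit 7) (.nd (nat_lit 18) 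
(.lf (nat_lit 27869198) (dlOf (nat_lit 3) (nat_lit 0x7ab9400555c60016ad300195058004282400193e400049770002f87000257300012c080190008004400200040008d30203))) 
(.lf (nat_lit 29179918) (dlOf (nat_lit 1) (nat_lit 0x7800200020008dd0a02)))) 
(.lf (nat_lit 20534926) (dlOf (nat_lit 1) (nat_lit 0x71c002006800089d9e82)))) (.nd (nat_lit 8) 
(.lf (nat_lit 16334862) (dlOf (nat_lit 2) (nat_lit 0xcad4000856800032ac800411d4000be10000400200160008890202))) 
(.lf (nat_lit 58278158) (dlOf (nat_lit 2) (nat_lit 0x72bbc0038004000c004000600197d7402))))))) 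
(.nd (nat_lit 19) (.nd (nat_lit 20) (.nd (nat_lit 26) (.nd (nat_lit 9) (.nd (nat_lit 27) 
(.nd (nat_lit 21) 
(.lf (nat_lit 16859214) (dlOf (nat_lit 3) (nat_lit 0x15e3380030008000f19c0010e040084004000e00088e0182))) 
(.lf (nat_lit 14762062) (dlOf (nat_lit 3) (nat_lit 0x48df0001281000546f8000800800d0008005800200020008770703)))) 
(.nd (nat_lit 8) (.lf (nat_lit 3892658254) (dlOf (nat_lit 2) (nat_lit 0x804600005818180700))) 
(.lf (nat_lit 1208041806) (dlOf (nat_lit 2) (nat_lit 0x6901c800000080160008002000200160008090d03))))) 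
(.nd (nat_lit 10) 
(.lf (nat_lit 58804814) (dlOf (nat_lit 1) (nat_lit 0x180080004002000600097e5283))) 
(.lf (nat_lit 85582) (dlOf (nat_lit 1) (nat_lit 0xc0018007181))))) (.nd (nat_lit 7) 
(.nd (nat_lit 8) 
(.lf (nat_lit 3288678478) (dlOf (nat_lit 3) (nat_lit 0x2006a0003d0200080350001e0180c1500))) 
(.nd (nat_lit 10) (.lf (nat_lit 2348892494) (dlOf (nat_lit 1) (nat_lit 0x4c004000e0008014c82))) 
(.lf (nat_lit 67196238) (dlOf (nat_lit 1) (nat_lit 0x460018009901))))) (.nd (nat_lit 27) 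
(.nd (nat_lit 30) (.lf (nat_lit 604061902) (dlOf (nat_lit 1) (nat_lit 0x800200020008010482))) 
(.lf (nat_lit 3825287374) (dlOf (nat_lit 3) (nat_lit 0x150088061403e02e801b016700b809300340128000001d10c00a2022018000f80b7806c058802e024e00d004300000073c300090008028c002018000080b0483)))) 
(.lf (nat_lit 1812021454) (dlOf (nat_lit 4) (nat_lit 0x176024009600f805e006803040000023c0800ae024001188100860000008b40800280080120002007800080b0483)))))) 
(.nd (nat_lit 9) (.nd (nat_lit 7) (.nd (nat_lit 12) 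
(.lf (nat_lit 1392718) (dlOf (nat_lit 1) (nat_lit 0x4002001800080c0f82))) 
(.lf (nat_lit 20009038) (dlOf (nat_lit 1) (nat_lit 0x200189d7d81)))) (.nd (nat_lit 18) 
(.lf (nat_lit 3227854) (dlOf (nat_lit 2) (nat_lit 0x2279300123818200480))) 
(.lf (nat_lit 3489998) (dlOf (nat_lit 1) (nat_lit 0x400400020008200482))))) (.nd (nat_lit 8) 
(.nd (nat_lit 10) 
(.lf (nat_lit 45435470) (dlOf (nat_lit 5) (nat_lit 0x141718800104080173a940cc1c620003e040002cea0001b810024000000000080d500080660002021a0009325283))) 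
(.lf (nat_lit 20010574) (dlOf (nat_lit 1) (nat_lit 0x200089d9c01)))) 
(.lf (nat_lit 20007758) (dlOf (nat_lit 1) (nat_lit 0x4002000200089d5c02)))))) (.nd (nat_lit 7) 
(.nd (nat_lit 27) (.nd (nat_lit 20) (.nd (nat_lit 21) 
(.lf (nat_lit 3221831758) (dlOf (nat_lit 1) (nat_lit 0x200081a1501))) 
(.lf (nat_lit 44646478) (dlOf (nat_lit 1) (nat_lit 0xa40019320001)))) 
(.lf (nat_lit 41500750) (dlOf (nat_lit 1) (nat_lit 0xc40019240001)))) (.nd (nat_lit 26) 
(.lf (nat_lit 134824014) (dlOf (nat_lit 3) (nat_lit 0x1a40620003d02000a031000000180c1500))) 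
(.nd (nat_lit 29) 
(.lf (nat_lit 201932878) (dlOf (nat_lit 2) (nat_lit 0x100dc0006804000c002000200080c1902))) 
(.lf (nat_lit 3960029262) (dlOf (nat_lit 1) (nat_lit 0x200181a1901)))))) (.nd (nat_lit 8) 
(.nd (nat_lit 10) (.lf (nat_lit 608974) (dlOf (nat_lit 1) (nat_lit 0x400400340008005882))) 
(.lf (nat_lit 19748558) (dlOf (nat_lit 1) (nat_lit 0x2a00189da001)))) (.nd (nat_lit 20) 
(.lf (nat_lit 50938318) (dlOf (nat_lit 1) (nat_lit 0x30002000a00094d7b02))) 
(.lf (nat_lit 2753118670) (dlOf (nat_lit 3) (nat_lit 0x161fa0000c8100070fd0000600800a80080074002000e0008090a03)))))))) 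
(.nd (nat_lit 6) (.nd (nat_lit 26) (.nd (nat_lit 7) (.nd (nat_lit 18) (.nd (nat_lit 8) 
(.nd (nat_lit 29) (.lf (nat_lit 4563484686) (dlOf (nat_lit 1) (nat_lit 0x3a0008090001))) 
(.lf (nat_lit 1879130126) (dlOf (nat_lit 1) (nat_lit 0x1080008020481)))) 
(.lf (nat_lit 4563484942) (dlOf (nat_lit 2) (nat_lit 0xab009000534080118008007800200ee0008090a83)))) 
(.nd (nat_lit 22) (.lf (nat_lit 805650446) (dlOf (nat_lit 1) (nat_lit 0x40008160481))) 
(.lf (nat_lit 3494199310) (dlOf (nat_lit 1) (nat_lit 0xa0004000e00081d0402))))) (.nd (nat_lit 8) 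
(.nd (nat_lit 12) 
(.lf (nat_lit 4563487374) (dlOf (nat_lit 2) (nat_lit 0xc80000005204000400200020008095482))) 
(.lf (nat_lit 1342265998) (dlOf (nat_lit 1) (nat_lit 0x80040024000800b682)))) (.nd (nat_lit 9) 
(.nd (nat_lit 11) 
(.lf (nat_lit 4697702798) (dlOf (nat_lit 2) (nat_lit 0xcb009000534080118008007400200ee0008091003))) 
(.lf (nat_lit 1342261646) (dlOf (nat_lit 1) (nat_lit 0x74004002a0008004e82)))) 
(.lf (nat_lit 5637229454) (dlOf (nat_lit 1) (nat_lit 0xd80080050002001e0008055c83)))))) 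
(.nd (nat_lit 10) (.nd (nat_lit 11) (.nd (nat_lit 19) 
(.lf (nat_lit 2617589774) (dlOf (nat_lit 4) (nat_lit 0x7c008800114080c78048000860404c4024000e01100070048000e01805d8008022000200200008100183))) 
(.lf (nat_lit 4094509070) (dlOf (nat_lit 1) (nat_lit 0x4c0018050001)))) (.nd (nat_lit 7) 
(.lf (nat_lit 3556854286) (dlOf (nat_lit 1) (nat_lit 0x200280d5081))) 
(.lf (nat_lit 4227942798) (dlOf (nat_lit 1) (nat_lit 0x20018004e81))))) (.nd (nat_lit 9) 
(.nd (nat_lit 7) (.nd (nat_lit 12) 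
(.lf (nat_lit 5704338446) (dlOf (nat_lit 1) (nat_lit 0x100008005c002001a0008055f83))) 
(.lf (nat_lit 469851150) (dlOf (nat_lit 1) (nat_lit 0x50008005c0020046000800bf03)))) 
(.lf (nat_lit 3556852878) (dlOf (nat_lit 1) (nat_lit 0x200180d2b01)))) (.nd (nat_lit 27) 
(.lf (nat_lit 6241207822) (dlOf (nat_lit 2) (nat_lit 0x36013000c0010000d8100118008005c00200040008053683))) 
(.lf (nat_lit 6375425550) (dlOf (nat_lit 1) (nat_lit 0x20018003681))))))) (.nd (nat_lit 30) 
(.nd (nat_lit 7) (.nd (nat_lit 26) (.nd (nat_lit 8) (.nd (nat_lit 27) 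
(.lf (nat_lit 2416263246) (dlOf (nat_lit 3) (nat_lit 0x200f0001a0100010078000c8080038008002c002000600080c1903))) 
(.lf (nat_lit 2550480974) (dlOf (nat_lit 1) (nat_lit 0x14004000200180c1502)))) 
(.lf (nat_lit 4563485006) (dlOf (nat_lit 8) (nat_lit 0x164019804300c8063003c021401d01d300a810400480004c1805c40660146032019a00f008b0074078002a04280120001206018d01980d3007800044080604066034201e0001082019801980d780780003e080014024000060201d801501dc0090000001006e80080004002007e0008090d03)))) 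
(.nd (nat_lit 8) (.nd (nat_lit 9) 
(.lf (nat_lit 3154460750) (dlOf (nat_lit 2) (nat_lit 0x2d02c0052015800ac0a60058046000b02180168100024c0740144035007d01800038094024c042006a01e002200d0042005c0048026012600d00930040008000000016480068002002400081a0702))) 
(.lf (nat_lit 473254478) (dlOf (nat_lit 2) (nat_lit 0x283300000004001c00400080008e35282)))) 
(.lf (nat_lit 2483110222) (dlOf (nat_lit 1) (nat_lit 0x4c004000e0008014c82))))) (.nd (nat_lit 9) 
(.nd (nat_lit 19) (.nd (nat_lit 31) 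
(.lf (nat_lit 939606222) (dlOf (nat_lit 4) (nat_lit 0x176024009600f805e006803040000023c0800ae024001188100860000008b40800280080120002007800080b0483))) 
(.lf (nat_lit 3087089870) (dlOf (nat_lit 3) (nat_lit 0x150088061403e02e801b016700b809300340128000001d10c00a2022018000f80b7806c058802e024e00d004300000073c300090008028c002018000080b0483)))) 
(.lf (nat_lit 470368462) (dlOf (nat_lit 2) (nat_lit 0x4039a00201c50011e0280c0480)))) 
(.nd (nat_lit 8) (.lf (nat_lit 469845710) (dlOf (nat_lit 1) (nat_lit 0x800400240008003a82))) 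
(.lf (nat_lit 5234576334) (dlOf (nat_lit 5) (nat_lit 0x2030000601700008084000480c00fc060007e02e003f0108000841801e80c000f405c004c0210001003000a0108000000800a00080010002001a0008055d83)))))) 
(.nd (nat_lit 7) (.nd (nat_lit 8) (.nd (nat_lit 20) (.nd (nat_lit 19) 
(.lf (nat_lit 3691069518) (dlOf (nat_lit 1) (nat_lit 0x2a800401a60008010182))) 
(.lf (nat_lit 3492364366) (dlOf (nat_lit 5) (nat_lit 0x103d0000240200601e8000118100030f40000880800087a000000040004002000200080c1502)))) 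
(.nd (nat_lit 18) 
(.lf (nat_lit 1343832142) (dlOf (nat_lit 2) (nat_lit 0x48568000f2040040004001c0008370182))) 
(.lf (nat_lit 1346191438) (dlOf (nat_lit 2) (nat_lit 0x780d900000018e60680))))) (.nd (nat_lit 9) 
(.nd (nat_lit 26) (.lf (nat_lit 1342262606) (dlOf (nat_lit 1) (nat_lit 0x140018006a01))) 
(.lf (nat_lit 1409371470) (dlOf (nat_lit 3) (nat_lit 0xd02f80004008007017c0001c040038004002e0018006a02)))) 
(.lf (nat_lit 5704338254) (dlOf (nat_lit 4) (nat_lit 0x340320015a02000c0180004c81000200c000260080018008003800200280008055c03))))) 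
(.nd (nat_lit 8) (.nd (nat_lit 9) (.nd (nat_lit 18) 
(.lf (nat_lit 1342783694) (dlOf (nat_lit 2) (nat_lit 0x4039a00201c50011e0280c0480))) 
(.lf (nat_lit 2080719054) (dlOf (nat_lit 2) (nat_lit 0x80c40004c04000c004000200180c1802)))) 
(.lf (nat_lit 1342264014) (dlOf (nat_lit 1) (nat_lit 0x40018008c81)))) (.nd (nat_lit 9) 
(.lf (nat_lit 3491316174) (dlOf (nat_lit 3) (nat_lit 0x161e80000c8100070f40000600800a80080074002000e0008090a03))) 
(.lf (nat_lit 5704338382) (dlOf (nat_lit 9) (nat_lit 0x6601d003200d8030006400d802c006c00f002e0058000b43001b8064000580400dc03600a200b0001582005600d8029806401b40160002a0600e201b004100c803e802c000520c00e003600fc00b0000302004600d8025806401000160000206006801b00470058000001001f800800d800200500008055d83))))))))) 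
(.nd (nat_lit 28) (.nd (nat_lit 19) (.nd (nat_lit 20) (.nd (nat_lit 18) (.nd (nat_lit 8) 
(.nd (nat_lit 21) (.nd (nat_lit 6) 
(.lf (nat_lit 5972770862) (dlOf (nat_lit 1) (nat_lit 0x200180b0001))) 
(.lf (nat_lit 12664942) (dlOf (nat_lit 2) (nat_lit 0xa69c000000186d1500)))) (.nd (nat_lit 10) 
(.lf (nat_lit 23150638) (dlOf (nat_lit 3) (nat_lit 0x60000000a0080178d440004a04000400400080018b60902))) 
(.lf (nat_lit 39928878) (dlOf (nat_lit 1) (nat_lit 0x3200191f2881))))) (.nd (nat_lit 7) 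
(.nd (nat_lit 10) (.lf (nat_lit 2755739950) (dlOf (nat_lit 1) (nat_lit 0x9800401ac00081b0502))) 
(.lf (nat_lit 134303022) (dlOf (nat_lit 1) (nat_lit 0x20028006881)))) (.nd (nat_lit 6) 
(.lf (nat_lit 4362160046) (dlOf (nat_lit 1) (nat_lit 0x20018004381))) 
(.lf (nat_lit 4362164206) (dlOf (nat_lit 2) (nat_lit 0x400cc00a8a0400140040026000800a602)))))) 
(.nd (nat_lit 26) (.nd (nat_lit 8) (.nd (nat_lit 29) 
(.lf (nat_lit 3221569582) (dlOf (nat_lit 1) (nat_lit 0x1000400020018140602))) 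
(.lf (nat_lit 5905924142) (dlOf (nat_lit 13) (nat_lit 0x4180940008e0401c404a0004602010e025008b00b800114100438094022402e00044040106025000900b80010c1001300940008204020c04a000400201060250001f0100830128000e80804180940007004001804a0003602001003800600128047005c0006a0c014400400060008160582)))) 
(.lf (nat_lit 5369054510) (dlOf (nat_lit 1) (nat_lit 0x800080e3201)))) (.nd (nat_lit 27) 
(.nd (nat_lit 31) 
(.lf (nat_lit 4362420270) (dlOf (nat_lit 6) (nat_lit 0x5a019800048081bb011c058c05a007200000008030170023800580cc087005a00e0024000600000003c2831100cc0001c041dd80660000d0200740008070801))) 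
(.lf (nat_lit 6509903918) (dlOf (nat_lit 13) (nat_lit 0x4180980008e0401c404c0004602010e026008b00b800114100438098022402e00044040106026000900b80010c1001300980008204020c04c000400201060260001f0100830130000e80804180980007004001804c0003602001003500600130047005c0006a0c014400400060008160582)))) 
(.nd (nat_lit 29) 
(.lf (nat_lit 2349154350) (dlOf (nat_lit 4) (nat_lit 0x19601500f30040080401c0003a06005802a0000a0100060150000803800000080388004003000080e0602))) 
(.lf (nat_lit 3959767086) (dlOf (nat_lit 1) (nat_lit 0x1000400020018140602))))))) (.nd (nat_lit 24) 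
(.nd (nat_lit 21) (.nd (nat_lit 23) (.nd (nat_lit 29) 
(.lf (nat_lit 68239406) (dlOf (nat_lit 1) (nat_lit 0x28002000400084a0882))) 
(.lf (nat_lit 2752593966) (dlOf (nat_lit 8) (nat_lit 0x150ff8000880802487fc00903d2000210401f01ff0001001002b0ff8000780801707fc005c3d20001d04008a1ff002f0f48000701001907fc0003604002c004003c0018020582)))) 
(.nd (nat_lit 22) (.lf (nat_lit 9519150) (dlOf (nat_lit 1) (nat_lit 0x1000400020018560702))) 
(.lf (nat_lit 13713454) (dlOf (nat_lit 2) (nat_lit 0x6c3db00018818740600))))) (.nd (nat_lit 6) 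
(.nd (nat_lit 22) (.lf (nat_lit 11616814) (dlOf (nat_lit 1) (nat_lit 0x1000286c0e81))) 
(.lf (nat_lit 40976942) (dlOf (nat_lit 1) (nat_lit 0x6000400580009208a82)))) 
(.lf (nat_lit 11616366) (dlOf (nat_lit 1) (nat_lit 0x2a00186c0001))))) (.nd (nat_lit 9) 
(.nd (nat_lit 6) (.nd (nat_lit 18) 
(.lf (nat_lit 26296366) (dlOf (nat_lit 1) (nat_lit 0x80008c30401))) 
(.lf (nat_lit 20267054) (dlOf (nat_lit 1) (nat_lit 0x200089d0001)))) 
(.lf (nat_lit 20009070) (dlOf (nat_lit 1) (nat_lit 0x4002000200089d7d82)))) (.nd (nat_lit 7) 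
(.nd (nat_lit 11) 
(.lf (nat_lit 58016302) (dlOf (nat_lit 4) (nat_lit 0x60bda0004502000e5ed000218100042f680000008024000800dc002002200097a8a83))) 
(.lf (nat_lit 20007470) (dlOf (nat_lit 1) (nat_lit 0xa00189d5181)))) 
(.lf (nat_lit 20011694) (dlOf (nat_lit 1) (nat_lit 0x4002000200089db782))))))) (.nd (nat_lit 18) 
(.nd (nat_lit 29) (.nd (nat_lit 7) (.nd (nat_lit 6) (.nd (nat_lit 23) (.nd (nat_lit 26) 
(.lf (nat_lit 3221831726) (dlOf (nat_lit 1) (nat_lit 0x200181a0e01))) 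
(.lf (nat_lit 4362682414) (dlOf (nat_lit 1) (nat_lit 0x1a00180d0f81)))) 
(.lf (nat_lit 42549294) (dlOf (nat_lit 3) (nat_lit 0x333a080002c0800e1d040001404001c004000a0009260282)))) 
(.lf (nat_lit 7952494) (dlOf (nat_lit 1) (nat_lit 0x40040002000851a882)))) (.nd (nat_lit 6) 
(.nd (nat_lit 8) (.lf (nat_lit 609966) (dlOf (nat_lit 1) (nat_lit 0x800400020008007282))) 
(.lf (nat_lit 8996782) (dlOf (nat_lit 1) (nat_lit 0x80018514381)))) 
(.lf (nat_lit 58278126) (dlOf (nat_lit 1) (nat_lit 0x200197d6e81))))) (.nd (nat_lit 26) 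
(.nd (nat_lit 6) 
(.lf (nat_lit 3892920366) (dlOf (nat_lit 8) (nat_lit 0xcc02d0030000c0007e08036c0b400820030001b02000702d0000a008036816801040060002004019805a00090240020800c0001e0c00180b2001e0000000382008602d000010080008008006400200b00008290e83))) 
(.lf (nat_lit 537477230) (dlOf (nat_lit 6) (nat_lit 0x1a805d012d02a007981140001c0c02180ba02a805400f50228000341804b017405380a801e20450000603007302e80a7815003e808a0000b06024a05400e20228000001002a800803dc002009a00080a1503)))) 
(.nd (nat_lit 20) (.nd (nat_lit 22) 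
(.lf (nat_lit 3960029230) (dlOf (nat_lit 1) (nat_lit 0x200181a0e01))) 
(.lf (nat_lit 2756263982) (dlOf (nat_lit 4) (nat_lit 0x420000000a00801e03dc00046040188000000000200360018230601)))) 
(.lf (nat_lit 2755215406) (dlOf (nat_lit 1) (nat_lit 0x20028130681)))))) (.nd (nat_lit 7) 
(.nd (nat_lit 21) (.nd (nat_lit 9) (.nd (nat_lit 22) 
(.lf (nat_lit 42811438) (dlOf (nat_lit 1) (nat_lit 0x20019280281))) 
(.lf (nat_lit 21839918) (dlOf (nat_lit 1) (nat_lit 0x20008a70581)))) 
(.lf (nat_lit 537742894) (dlOf (nat_lit 2) (nat_lit 0x1d02f8001380800980080014002006600080f7183)))) 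
(.nd (nat_lit 6) (.nd (nat_lit 25) 
(.lf (nat_lit 2965550) (dlOf (nat_lit 3) (nat_lit 0xb6000000040080011444000000400b8002001000081e0902))) 
(.lf (nat_lit 36519982) (dlOf (nat_lit 1) (nat_lit 0x20019070001)))) 
(.lf (nat_lit 8210030) (dlOf (nat_lit 1) (nat_lit 0x40028513981))))) (.nd (nat_lit 6) 
(.nd (nat_lit 8) (.lf (nat_lit 34423982) (dlOf (nat_lit 1) (nat_lit 0x2c00400020008fb2c02))) 
(.nd (nat_lit 22) (.lf (nat_lit 36522414) (dlOf (nat_lit 1) (nat_lit 0x20019074e81))) 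
(.lf (nat_lit 57493934) (dlOf (nat_lit 1) (nat_lit 0xa0029794e81))))) (.nd (nat_lit 8) 
(.lf (nat_lit 57494254) (dlOf (nat_lit 1) (nat_lit 0x8008001400200020009795a03))) 
(.lf (nat_lit 8212974) (dlOf (nat_lit 1) (nat_lit 0x20018518681)))))))) (.nd (nat_lit 27) 
(.nd (nat_lit 26) (.nd (nat_lit 18) (.nd (nat_lit 10) (.nd (nat_lit 19) 
(.lf (nat_lit 3490791470) (dlOf (nat_lit 8) (nat_lit 0x150f68000880802487b400903a8000210401f01ed0001001002b0f68000780801707b4005c3a80001d04008a1ed002f0ea0000701001907b40003604002c004003c0018020582))) 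
(.nd (nat_lit 20) 
(.lf (nat_lit 3494461486) (dlOf (nat_lit 4) (nat_lit 0x420000000b80801e03dc00046040188000000000200360018230601))) 
(.lf (nat_lit 3493412910) (dlOf (nat_lit 1) (nat_lit 0x20028130681))))) (.nd (nat_lit 6) 
(.lf (nat_lit 1342265134) (dlOf (nat_lit 1) (nat_lit 0x9c0020004000800a102))) 
(.lf (nat_lit 1342264430) (dlOf (nat_lit 1) (nat_lit 0x74004003a0008009402))))) (.nd (nat_lit 6) 
(.nd (nat_lit 7) (.nd (nat_lit 19) 
(.lf (nat_lit 3492102190) (dlOf (nat_lit 1) (nat_lit 0x1c004001000080a0982))) 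
(.lf (nat_lit 1343045678) (dlOf (nat_lit 3) (nat_lit 0x6249000288100050bc80013c080070008000c00200160008140603)))) 
(.lf (nat_lit 1880967598) (dlOf (nat_lit 1) (nat_lit 0x8008000400200020008d74e83)))) 
(.nd (nat_lit 7) 
(.lf (nat_lit 4563746926) (dlOf (nat_lit 3) (nat_lit 0xf6033000028100940198000000800500080040002006000080d0c03))) 
(.lf (nat_lit 1346191598) (dlOf (nat_lit 1) (nat_lit 0x1000400040008e61e82)))))) (.nd (nat_lit 6) 
(.nd (nat_lit 8) (.nd (nat_lit 9) 
(.lf (nat_lit 2483372078) (dlOf (nat_lit 4) (nat_lit 0x19601500f30040080401c0004106005802a0000a0100060150000803800000080388004003000080e0602))) 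
(.lf (nat_lit 6241207854) (dlOf (nat_lit 4) (nat_lit 0x1601400060028000b01000a0050003800a0002a040012014000f0028000101001080080004002000a0008053783)))) 
(.nd (nat_lit 7) 
(.lf (nat_lit 5704338222) (dlOf (nat_lit 2) (nat_lit 0xb8064002a6040088002002c0008055c02))) 
(.lf (nat_lit 6241207726) (dlOf (nat_lit 30) (nat_lit 0xb000a0056801002c00060016106015a01400af0020051800c002b80c02b0028015400400a300180056818057005002ac0080146003000ac8300a800a0053801002a0006001550600020140009a0100a900a0003c4080018050001ce04011002800880040007202000300a00036808000804c0017c0402e4026000bd02018401300b500100027410059004c02a00040009904017401300b200100026010055804c02a80040009704012e01300990010002541005c004c02a80040008e0400f4013007c00100022410011804c00380040008704015401300b000100021810040804c01f8004000820400ee013000160100aa00980009808055004c000420402a8026000200201540130000e81001400980003c0800180500010004000000400b60028053601))))) 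
(.nd (nat_lit 11) (.nd (nat_lit 20) 
(.lf (nat_lit 1409892462) (dlOf (nat_lit 6) (nat_lit 0x1a805d012d02a007981080001c0c02180ba02a805400f50210000341804b017405380a801e20420000603007302e80a7815003e80840000b06024a05400e20210000001002a800803dc002009a00080a1503))) 
(.lf (nat_lit 4095295598) (dlOf (nat_lit 1) (nat_lit 0x52000800c400200f60008090c03)))) 
(.nd (nat_lit 7) (.lf (nat_lit 3556854126) (dlOf (nat_lit 1) (nat_lit 0x1800280d4e81))) 
(.lf (nat_lit 3556854510) (dlOf (nat_lit 1) (nat_lit 0x8004002000080d5a02))))))) (.nd (nat_lit 6) 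
(.nd (nat_lit 29) (.nd (nat_lit 7) (.nd (nat_lit 18) 
(.lf (nat_lit 3691069486) (dlOf (nat_lit 1) (nat_lit 0x20028010001))) (.nd (nat_lit 19) 
(.lf (nat_lit 474300462) (dlOf (nat_lit 5) (nat_lit 0x21128002882c0010364000650600042250005105800206c8000c80c000445c00042250007105800306c8000c410000845c00082250007105800306c8000be10000800400060009130d02))) 
(.lf (nat_lit 470630446) (dlOf (nat_lit 3) (nat_lit 0x6249000250100050c1000120080070008000c00200160008140603))))) 
(.nd (nat_lit 26) (.lf (nat_lit 1476477102) (dlOf (nat_lit 1) (nat_lit 0xc00400020008010282))) 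
(.lf (nat_lit 3691069614) (dlOf (nat_lit 1) (nat_lit 0xc00400020008010282))))) (.nd (nat_lit 8) 
(.nd (nat_lit 18) (.lf (nat_lit 4228464686) (dlOf (nat_lit 1) (nat_lit 0x1a00180d0f81))) 
(.nd (nat_lit 21) 
(.lf (nat_lit 4228202542) (dlOf (nat_lit 9) (nat_lit 0xbc032000090100a302a806b013406e0098025e04b0177020000f00ec04e80640154031006d01800b000b003680480228018000800b00948000000203801dc080018c032002701600003c180020174019c0a2002c040000101d802280e8000c06e0032036000601a000280cc0980064019a031006a018000080bc00040280000e1c03860320000681008e0260000240800081540034098000e040000018300c2019000000080080008000400202600008070903))) 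
(.lf (nat_lit 1009074222) (dlOf (nat_lit 1) (nat_lit 0x80019050d01))))) (.nd (nat_lit 7) 
(.lf (nat_lit 4227943726) (dlOf (nat_lit 1) (nat_lit 0x9000200540008006882))) 
(.lf (nat_lit 4227942830) (dlOf (nat_lit 4) (nat_lit 0x90098064740800580000310404000809e014690200080018004e81)))))) 
(.nd (nat_lit 9) (.nd (nat_lit 7) (.nd (nat_lit 19) 
(.lf (nat_lit 4697964654) (dlOf (nat_lit 3) (nat_lit 0xf6033000028100940198000000800500080040002006000080d0c03))) 
(.nd (nat_lit 26) (.lf (nat_lit 5773279342) (dlOf (nat_lit 1) (nat_lit 0x600280c0a81))) 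
(.lf (nat_lit 6377259118) (dlOf (nat_lit 1) (nat_lit 0x600280c0a81))))) (.nd (nat_lit 19) 
(.lf (nat_lit 1476477166) (dlOf (nat_lit 1) (nat_lit 0x20028010701))) 
(.lf (nat_lit 474562798) (dlOf (nat_lit 2) (nat_lit 0x1c0ab801c240800f800800c8002000400091a1e83))))) 
(.nd (nat_lit 8) (.nd (nat_lit 10) 
(.lf (nat_lit 3154201326) (dlOf (nat_lit 1) (nat_lit 0x20028105a01))) 
(.lf (nat_lit 469845742) (dlOf (nat_lit 1) (nat_lit 0x30004000e0008003b02)))) (.nd (nat_lit 11) 
(.lf (nat_lit 5773804526) (dlOf (nat_lit 1) (nat_lit 0xc004000600080e2882))) 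
(.lf (nat_lit 469851118) (dlOf (nat_lit 1) (nat_lit 0x6800800740020058000800bf03))))))))))))

end

end Pool.Agent.Lib.MP_5854e1_co.Cz

namespace Pool.Agent.Lib.MP_5854e1_co.Cz

noncomputable section

noncomputable def tz162 : DT := (.nd (nat_lit 16) (.nd (nat_lit 3) (.nd (nat_lit 6) 
(.nd (nat_lit 5) (.nd (nat_lit 18) (.nd (nat_lit 26) (.nd (nat_lit 19) (.nd (nat_lit 32) 
(.nd (nat_lit 21) (.nd (nat_lit 10) (.nd (nat_lit 27) 
(.lf (nat_lit 2952937474) (dlOf (nat_lit 11) (nat_lit 0x91016006580a801b800001daa06011802c00bd0150034000003b500c005005401d7a02014e01c005700200750c10012000c037900401a0036013c00400b6001806f1c1802b0010018c00601bc604000200400d99010054002006c980800380100364a04002c00400300018030002))) 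
(.lf (nat_lit 2013413378) (dlOf (nat_lit 2) (nat_lit 0xc00c000000200060008060001)))) 
(.lf (nat_lit 59919362) (dlOf (nat_lit 1) (nat_lit 0x20019845f01)))) (.nd (nat_lit 7) 
(.lf (nat_lit 23216130) (dlOf (nat_lit 1) (nat_lit 0x2c0008b70001))) 
(.lf (nat_lit 44187778) (dlOf (nat_lit 1) (nat_lit 0x200192d0e01))))) (.nd (nat_lit 7) 
(.nd (nat_lit 27) 
(.lf (nat_lit 5368856578) (dlOf (nat_lit 2) (nat_lit 0x1d801001bc804002000400160018040002))) 
(.lf (nat_lit 5503074306) (dlOf (nat_lit 2) (nat_lit 0x1d80100128004002000400160018040002)))) 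
(.nd (nat_lit 10) 
(.lf (nat_lit 4563553154) (dlOf (nat_lit 2) (nat_lit 0xe014004f0088004ec1004400080334002000a0008095c03))) 
(.lf (nat_lit 6442600322) (dlOf (nat_lit 1) (nat_lit 0xc00180f4181)))))) (.nd (nat_lit 30) 
(.nd (nat_lit 7) (.nd (nat_lit 20) 
(.lf (nat_lit 134889474) (dlOf (nat_lit 1) (nat_lit 0x80004000200080d0002))) 
(.lf (nat_lit 60440578) (dlOf (nat_lit 1) (nat_lit 0x20019860001)))) 
(.lf (nat_lit 673666) (dlOf (nat_lit 1) (nat_lit 0x20008004181)))) (.nd (nat_lit 28) 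
(.lf (nat_lit 3221897218) (dlOf (nat_lit 1) (nat_lit 0xa00281b0001))) 
(.lf (nat_lit 1342849026) (dlOf (nat_lit 2) (nat_lit 0x21a300c888180f0000)))))) (.nd (nat_lit 29) 
(.nd (nat_lit 8) (.nd (nat_lit 19) (.nd (nat_lit 30) 
(.lf (nat_lit 2214739970) (dlOf (nat_lit 1) (nat_lit 0x40008001000200020008080003))) 
(.lf (nat_lit 1140998146) (dlOf (nat_lit 2) (nat_lit 0xc00c000000200060008060001)))) 
(.nd (nat_lit 28) (.lf (nat_lit 201998338) (dlOf (nat_lit 1) (nat_lit 0x80004000200080d0002))) 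
(.lf (nat_lit 470433794) (dlOf (nat_lit 2) (nat_lit 0x21b300e2f0180f0000))))) (.nd (nat_lit 7) 
(.lf (nat_lit 473579778) (dlOf (nat_lit 2) (nat_lit 0x60b6000203e8001be08015400400180018f63582))) 
(.nd (nat_lit 10) 
(.lf (nat_lit 2617398146) (dlOf (nat_lit 2) (nat_lit 0x100000040408006800800d8002002e00080a9003))) 
(.lf (nat_lit 201475970) (dlOf (nat_lit 1) (nat_lit 0x20028004181)))))) (.nd (nat_lit 27) 
(.nd (nat_lit 7) (.nd (nat_lit 28) 
(.lf (nat_lit 604127234) (dlOf (nat_lit 4) (nat_lit 0xd00c003980580760022001e00000ed504001000c00368058075c022001a00000ed404000e00b007690080b28008012400209900008030003))) 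
(.lf (nat_lit 5167529986) (dlOf (nat_lit 1) (nat_lit 0x8008000400200020008080003)))) 
(.lf (nat_lit 4899094658) (dlOf (nat_lit 1) (nat_lit 0x560018070e01)))) (.nd (nat_lit 7) 
(.nd (nat_lit 9) (.lf (nat_lit 3960094722) (dlOf (nat_lit 1) (nat_lit 0xa00281b0001))) 
(.lf (nat_lit 6378111490) (dlOf (nat_lit 1) (nat_lit 0x1520018117b01)))) 
(.lf (nat_lit 738347650) (dlOf (nat_lit 1) (nat_lit 0x20028095481))))))) (.nd (nat_lit 31) 
(.nd (nat_lit 22) (.nd (nat_lit 19) (.nd (nat_lit 32) (.nd (nat_lit 9) 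
(.lf (nat_lit 201736578) (dlOf (nat_lit 1) (nat_lit 0x8008000c00200060008090783))) 
(.lf (nat_lit 20335490) (dlOf (nat_lit 1) (nat_lit 0x4002000200089d5c02)))) (.nd (nat_lit 7) 
(.lf (nat_lit 4362486018) (dlOf (nat_lit 1) (nat_lit 0x3400200020008090482))) 
(.lf (nat_lit 4362486146) (dlOf (nat_lit 11) (nat_lit 0x25811c000c05a00ec504009e047000a016803b101002c011c002c05a00ebf04001402d0075f01004b023800500b401d7808002008e00eb9020096047000a016803ad410025811c002805a00eb4040094047000a016803ab81002c811c01c280400dc002004e0008090782))))) 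
(.nd (nat_lit 23) (.nd (nat_lit 8) 
(.lf (nat_lit 52314114) (dlOf (nat_lit 1) (nat_lit 0x400400020009520002))) 
(.lf (nat_lit 18759938) (dlOf (nat_lit 1) (nat_lit 0x400400020008970702)))) (.nd (nat_lit 20) 
(.lf (nat_lit 42876930) (dlOf (nat_lit 1) (nat_lit 0x8008000800200020009280003))) 
(.lf (nat_lit 10371074) (dlOf (nat_lit 1) (nat_lit 0x4002000200085d0002)))))) (.nd (nat_lit 23) 
(.nd (nat_lit 20) (.nd (nat_lit 24) 
(.lf (nat_lit 1346781186) (dlOf (nat_lit 1) (nat_lit 0x3e0009000001))) 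
(.lf (nat_lit 54935554) (dlOf (nat_lit 1) (nat_lit 0x20029670001)))) (.nd (nat_lit 9) 
(.lf (nat_lit 5652482) (dlOf (nat_lit 1) (nat_lit 0x8004000600083b0002))) 
(.lf (nat_lit 8275458) (dlOf (nat_lit 1) (nat_lit 0x400200020008513682))))) (.nd (nat_lit 25) 
(.nd (nat_lit 20) 
(.lf (nat_lit 12992514) (dlOf (nat_lit 9) (nat_lit 0x14c7e000862800022dc8071801800318fc001cc5000085b900e2f03000331f800298a0000cb7201bd306006c62200aa881000d31c8004188802846080034c72013f9020014636000730d8040941001198f0000000400c0004003a00186f0002))) 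
(.lf (nat_lit 30818306) (dlOf (nat_lit 1) (nat_lit 0x40018e50001)))) (.nd (nat_lit 10) 
(.lf (nat_lit 48644098) (dlOf (nat_lit 1) (nat_lit 0x40019420001))) 
(.lf (nat_lit 46550018) (dlOf (nat_lit 1) (nat_lit 0x20008000400200020009385f03))))))) 
(.nd (nat_lit 19) (.nd (nat_lit 27) (.nd (nat_lit 28) (.nd (nat_lit 26) 
(.lf (nat_lit 3221635074) (dlOf (nat_lit 1) (nat_lit 0x50008000c00200080008170003))) 
(.lf (nat_lit 3288743938) (dlOf (nat_lit 2) (nat_lit 0xa0000000000200ec00080d0001)))) 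
(.nd (nat_lit 7) 
(.lf (nat_lit 4026941442) (dlOf (nat_lit 2) (nat_lit 0xa0000000000200ec00080d0001))) 
(.lf (nat_lit 2416331906) (dlOf (nat_lit 1) (nat_lit 0x4002000400080f6102))))) (.nd (nat_lit 26) 
(.nd (nat_lit 29) 
(.lf (nat_lit 3355852802) (dlOf (nat_lit 1) (nat_lit 0x58008005800200080008130003))) 
(.lf (nat_lit 2818981890) (dlOf (nat_lit 1) (nat_lit 0x20018140001)))) (.nd (nat_lit 29) 
(.lf (nat_lit 2617655298) (dlOf (nat_lit 1) (nat_lit 0x70004002c0008130002))) 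
(.lf (nat_lit 4228268034) (dlOf (nat_lit 2) (nat_lit 0x20200034a0080038008001800200280008090003)))))) 
(.nd (nat_lit 8) (.nd (nat_lit 9) (.nd (nat_lit 10) 
(.lf (nat_lit 3492694018) (dlOf (nat_lit 4) (nat_lit 0xb8100002c03a0005504004801d0002881000801000013c0800280080014002000a00080f4703))) 
(.lf (nat_lit 3492692994) (dlOf (nat_lit 1) (nat_lit 0x200080f2881)))) 
(.lf (nat_lit 3493741058) (dlOf (nat_lit 3) (nat_lit 0x22c08400143020084042000660181b0d80)))) 
(.nd (nat_lit 7) 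
(.lf (nat_lit 3492693762) (dlOf (nat_lit 2) (nat_lit 0x800cc00280400000a0280f3b80))) 
(.lf (nat_lit 3492693890) (dlOf (nat_lit 1) (nat_lit 0x200080f4181)))))))) (.nd (nat_lit 18) 
(.nd (nat_lit 31) (.nd (nat_lit 20) (.nd (nat_lit 29) (.nd (nat_lit 21) (.nd (nat_lit 23) 
(.nd (nat_lit 26) (.lf (nat_lit 268582946) (dlOf (nat_lit 1) (nat_lit 0x40018090181))) 
(.lf (nat_lit 1140998178) (dlOf (nat_lit 2) (nat_lit 0x30044000400200040008060b81)))) 
(.lf (nat_lit 25313314) (dlOf (nat_lit 2) (nat_lit 0x5586d000a2018bf0900)))) (.nd (nat_lit 19) 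
(.lf (nat_lit 14827554) (dlOf (nat_lit 2) (nat_lit 0x20344000698640084b420040581001f27600109250008480000383e1001f1ef000074480028008000400200020008780603))) 
(.lf (nat_lit 15351842) (dlOf (nat_lit 2) (nat_lit 0x1392b5801211d8001a8080008004000400187e0602))))) 
(.nd (nat_lit 9) (.nd (nat_lit 7) 
(.lf (nat_lit 2013413410) (dlOf (nat_lit 2) (nat_lit 0x30044000400200040008060b81))) 
(.lf (nat_lit 805461154) (dlOf (nat_lit 1) (nat_lit 0x2000811c201)))) (.nd (nat_lit 8) 
(.lf (nat_lit 671237794) (dlOf (nat_lit 1) (nat_lit 0x1000400ec0008143a82))) 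
(.lf (nat_lit 738347938) (dlOf (nat_lit 1) (nat_lit 0x20018095c81)))))) (.nd (nat_lit 21) 
(.nd (nat_lit 19) (.nd (nat_lit 22) 
(.lf (nat_lit 26361890) (dlOf (nat_lit 2) (nat_lit 0x80000000402000e0008c40601))) (.nd (nat_lit 23) 
(.lf (nat_lit 22167586) (dlOf (nat_lit 1) (nat_lit 0x20008aa0c01))) 
(.lf (nat_lit 47333410) (dlOf (nat_lit 1) (nat_lit 0x800093d0801))))) (.nd (nat_lit 22) 
(.lf (nat_lit 5773082658) (dlOf (nat_lit 1) (nat_lit 0x4004000200080a0782))) 
(.lf (nat_lit 22691874) (dlOf (nat_lit 1) (nat_lit 0xa0008b10681))))) (.nd (nat_lit 8) 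
(.nd (nat_lit 19) 
(.lf (nat_lit 62013474) (dlOf (nat_lit 1) (nat_lit 0x1600080004002000c0009930783))) 
(.lf (nat_lit 45760546) (dlOf (nat_lit 2) (nat_lit 0xb73ee005b93a002dc0b00049f0800b4f220032783002d3be00169dc800b40000003e1200020019360181)))) 
(.nd (nat_lit 7) (.lf (nat_lit 20070690) (dlOf (nat_lit 1) (nat_lit 0x4002000200089d0a82))) 
(.lf (nat_lit 20073378) (dlOf (nat_lit 2) (nat_lit 0x7843400070040004004000400089d5c82))))))) 
(.nd (nat_lit 27) (.nd (nat_lit 26) (.nd (nat_lit 19) (.nd (nat_lit 28) 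
(.lf (nat_lit 2684502050) (dlOf (nat_lit 1) (nat_lit 0x160018080501))) 
(.lf (nat_lit 4026679330) (dlOf (nat_lit 1) (nat_lit 0x78004000c0008030982)))) 
(.lf (nat_lit 3221897250) (dlOf (nat_lit 2) (nat_lit 0x50138007009800162080058002000200081b0482)))) 
(.nd (nat_lit 30) (.lf (nat_lit 2214740002) (dlOf (nat_lit 1) (nat_lit 0x60008080501))) 
(.lf (nat_lit 3288481826) (dlOf (nat_lit 1) (nat_lit 0x78004000c0008030982))))) (.nd (nat_lit 9) 
(.nd (nat_lit 30) (.nd (nat_lit 7) 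
(.lf (nat_lit 2281848866) (dlOf (nat_lit 1) (nat_lit 0x8800800cc00200260008080503))) 
(.lf (nat_lit 6576819362) (dlOf (nat_lit 1) (nat_lit 0x8008000400200020008146283)))) 
(.nd (nat_lit 19) (.lf (nat_lit 3624026146) (dlOf (nat_lit 1) (nat_lit 0x2c002000200080b0002))) 
(.lf (nat_lit 3960094754) (dlOf (nat_lit 2) (nat_lit 0x50138007009800162080058002000200081b0482))))) 
(.nd (nat_lit 8) (.nd (nat_lit 11) 
(.lf (nat_lit 3355591202) (dlOf (nat_lit 1) (nat_lit 0x200180a1481))) 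
(.lf (nat_lit 3959577122) (dlOf (nat_lit 2) (nat_lit 0x1a80bc016f2040168002001e000811b282)))) 
(.lf (nat_lit 3355595554) (dlOf (nat_lit 1) (nat_lit 0x580080014002002800080a8f83))))))) 
(.nd (nat_lit 28) (.nd (nat_lit 19) (.nd (nat_lit 20) (.nd (nat_lit 8) (.nd (nat_lit 9) 
(.nd (nat_lit 29) 
(.lf (nat_lit 6442860578) (dlOf (nat_lit 1) (nat_lit 0x1e800800c8002007400081e0783))) 
(.lf (nat_lit 537280546) (dlOf (nat_lit 6) (nat_lit 0x1802a800e00c40000c0800700aa003a0310000282001602a800780c40000808005406200003020038055001f01880000010003800800a8002000a0008070683)))) 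
(.lf (nat_lit 134627874) (dlOf (nat_lit 2) (nat_lit 0x581040000204000400200020008090d82)))) 
(.nd (nat_lit 7) (.lf (nat_lit 4362486050) (dlOf (nat_lit 1) (nat_lit 0x180028090501))) 
(.lf (nat_lit 134627746) (dlOf (nat_lit 1) (nat_lit 0x1000200100008090782))))) (.nd (nat_lit 21) 
(.nd (nat_lit 22) (.lf (nat_lit 26624034) (dlOf (nat_lit 1) (nat_lit 0x20018c50181))) 
(.lf (nat_lit 5652514) (dlOf (nat_lit 1) (nat_lit 0x4004000200083b0682)))) (.nd (nat_lit 9) 
(.lf (nat_lit 32915490) (dlOf (nat_lit 2) (nat_lit 0xea430001e018f40700))) 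
(.lf (nat_lit 2755022370) (dlOf (nat_lit 1) (nat_lit 0xe8002002800080f7182)))))) (.nd (nat_lit 22) 
(.nd (nat_lit 23) (.lf (nat_lit 17711138) (dlOf (nat_lit 1) (nat_lit 0x200188f0d01))) 
(.lf (nat_lit 42876962) (dlOf (nat_lit 1) (nat_lit 0x400200040009280182)))) (.nd (nat_lit 7) 
(.nd (nat_lit 23) 
(.lf (nat_lit 21905442) (dlOf (nat_lit 1) (nat_lit 0x28008002800200120008a80983))) 
(.lf (nat_lit 13516834) (dlOf (nat_lit 1) (nat_lit 0x5400200240008730902)))) 
(.lf (nat_lit 8275362) (dlOf (nat_lit 1) (nat_lit 0x8008000400200020008513603)))))) 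
(.nd (nat_lit 26) (.nd (nat_lit 30) (.nd (nat_lit 7) (.nd (nat_lit 27) 
(.lf (nat_lit 4563812386) (dlOf (nat_lit 1) (nat_lit 0xa8008002c002000a00080f0b83))) 
(.lf (nat_lit 4698030114) (dlOf (nat_lit 1) (nat_lit 0xa8008002c002000a00080f0b83)))) 
(.lf (nat_lit 805716386) (dlOf (nat_lit 1) (nat_lit 0xc002000400081a0782)))) (.nd (nat_lit 22) 
(.lf (nat_lit 5637554210) (dlOf (nat_lit 1) (nat_lit 0x400400060018100182))) (.nd (nat_lit 31) 
(.lf (nat_lit 1346781218) (dlOf (nat_lit 2) (nat_lit 0x5c2ac002213b00110668000f81800e80080004002000c0009000183))) 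
(.lf (nat_lit 3494264866) (dlOf (nat_lit 1) (nat_lit 0x2700080110002006600081e0783)))))) 
(.nd (nat_lit 29) (.nd (nat_lit 19) 
(.lf (nat_lit 1409695778) (dlOf (nat_lit 6) (nat_lit 0x1802a800e00c40000c0800700aa003a0310000282001602a800780c40000808005406200003020038055001f01880000010003800800a8002000a0008070683))) 
(.lf (nat_lit 1410220066) (dlOf (nat_lit 1) (nat_lit 0x800281b0001)))) (.nd (nat_lit 8) 
(.lf (nat_lit 6241533986) (dlOf (nat_lit 1) (nat_lit 0x400400060018100182))) 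
(.lf (nat_lit 4228268322) (dlOf (nat_lit 1) (nat_lit 0x180028090501))))))))) (.nd (nat_lit 7) 
(.nd (nat_lit 30) (.nd (nat_lit 5) (.nd (nat_lit 19) (.nd (nat_lit 26) (.nd (nat_lit 23) 
(.nd (nat_lit 27) (.nd (nat_lit 20) (.nd (nat_lit 29) 
(.lf (nat_lit 2416066626) (dlOf (nat_lit 2) (nat_lit 0x480900010042001a020001100f800200280007214003400400020008030e02))) 
(.lf (nat_lit 5100421186) (dlOf (nat_lit 1) (nat_lit 0x20028070581)))) 
(.lf (nat_lit 24264770) (dlOf (nat_lit 1) (nat_lit 0x800400020008b90e02)))) (.nd (nat_lit 9) 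
(.lf (nat_lit 2550284354) (dlOf (nat_lit 2) (nat_lit 0x480980010042001a020001100f800200280007214003400400020008030e02))) 
(.lf (nat_lit 134627906) (dlOf (nat_lit 1) (nat_lit 0x8008001400200060008091083))))) 
(.nd (nat_lit 8) (.nd (nat_lit 20) (.nd (nat_lit 22) 
(.lf (nat_lit 25313346) (dlOf (nat_lit 6) (nat_lit 0x1c908092645803c30e00006a06024791600f0c380001a41005be45803f70e00002904022591600fac3800008810086645803670e0000000400080018bf0c01))) 
(.lf (nat_lit 12730434) (dlOf (nat_lit 1) (nat_lit 0x4004000200186e0d02)))) 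
(.lf (nat_lit 62013506) (dlOf (nat_lit 1) (nat_lit 0xe0019931681)))) (.nd (nat_lit 9) 
(.lf (nat_lit 62013762) (dlOf (nat_lit 1) (nat_lit 0x20029935f81))) 
(.lf (nat_lit 8537922) (dlOf (nat_lit 2) (nat_lit 0x1a2700005a04003800400660008513e02)))))) 
(.nd (nat_lit 8) (.nd (nat_lit 9) 
(.lf (nat_lit 604127298) (dlOf (nat_lit 1) (nat_lit 0xf00080024002000e0008030583))) 
(.nd (nat_lit 18) (.lf (nat_lit 2617393730) (dlOf (nat_lit 1) (nat_lit 0x34004000e00080a1582))) 
(.lf (nat_lit 201736770) (dlOf (nat_lit 1) (nat_lit 0x8008001400200060008091083))))) 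
(.nd (nat_lit 27) (.lf (nat_lit 4362223938) (dlOf (nat_lit 1) (nat_lit 0x800400020008014c02))) 
(.nd (nat_lit 28) 
(.lf (nat_lit 2885828930) (dlOf (nat_lit 2) (nat_lit 0x4340000004f02000200180b0601))) 
(.lf (nat_lit 469909826) (dlOf (nat_lit 1) (nat_lit 0x300004018e0008014c02))))))) (.nd (nat_lit 20) 
(.nd (nat_lit 25) (.nd (nat_lit 26) (.nd (nat_lit 27) 
(.lf (nat_lit 805978178) (dlOf (nat_lit 1) (nat_lit 0x1000028201401))) 
(.lf (nat_lit 134889538) (dlOf (nat_lit 2) (nat_lit 0x5b0054000c2040004004000200180d0c02)))) 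
(.lf (nat_lit 201998402) (dlOf (nat_lit 2) (nat_lit 0x5b0058000c8040004004000200180d0c02)))) 
(.nd (nat_lit 8) (.lf (nat_lit 38423106) (dlOf (nat_lit 1) (nat_lit 0x180009135201))) 
(.lf (nat_lit 51003714) (dlOf (nat_lit 1) (nat_lit 0x4400094e8701))))) (.nd (nat_lit 8) 
(.nd (nat_lit 9) 
(.lf (nat_lit 10108994) (dlOf (nat_lit 2) (nat_lit 0x2deb00000c0800300080014002002a00085b0783))) 
(.lf (nat_lit 52054594) (dlOf (nat_lit 1) (nat_lit 0x800400060009515202)))) 
(.lf (nat_lit 12468546) (dlOf (nat_lit 1) (nat_lit 0x200286c0601)))))) (.nd (nat_lit 20) 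
(.nd (nat_lit 21) (.nd (nat_lit 10) (.nd (nat_lit 18) 
(.lf (nat_lit 2952937570) (dlOf (nat_lit 7) (nat_lit 0x14002d0003e8100a00168001f00804f00b4000ea04007c05a0007402014602d0003981000a0168004800800000080008004002a0008030d02))) 
(.lf (nat_lit 17186914) (dlOf (nat_lit 1) (nat_lit 0x4004000200088e0482)))) (.nd (nat_lit 9) 
(.lf (nat_lit 38159458) (dlOf (nat_lit 1) (nat_lit 0x10008000400200880009132983))) 
(.lf (nat_lit 2617398882) (dlOf (nat_lit 1) (nat_lit 0x880080020002001e00080a9c03))))) 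
(.nd (nat_lit 8) (.nd (nat_lit 10) 
(.lf (nat_lit 2506850) (dlOf (nat_lit 1) (nat_lit 0x640008161281))) 
(.lf (nat_lit 60965986) (dlOf (nat_lit 1) (nat_lit 0x4004000200198c2982)))) (.nd (nat_lit 19) 
(.lf (nat_lit 23478626) (dlOf (nat_lit 1) (nat_lit 0x20008b80701))) 
(.lf (nat_lit 3031394) (dlOf (nat_lit 2) (nat_lit 0x64a00000a818200700)))))) (.nd (nat_lit 9) 
(.nd (nat_lit 10) (.nd (nat_lit 21) 
(.lf (nat_lit 52314210) (dlOf (nat_lit 1) (nat_lit 0x20029521981))) 
(.lf (nat_lit 20856930) (dlOf (nat_lit 1) (nat_lit 0x3400189e1981)))) 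
(.lf (nat_lit 38945890) (dlOf (nat_lit 2) (nat_lit 0xb04c0009c04000400200040009192982)))) 
(.nd (nat_lit 8) (.lf (nat_lit 8275554) (dlOf (nat_lit 1) (nat_lit 0x180018513901))) 
(.nd (nat_lit 11) (.lf (nat_lit 8278882) (dlOf (nat_lit 1) (nat_lit 0x9c0028518f81))) 
(.lf (nat_lit 20073314) (dlOf (nat_lit 1) (nat_lit 0x1680080004002001400089d5c03)))))))) 
(.nd (nat_lit 28) (.nd (nat_lit 11) (.nd (nat_lit 18) (.nd (nat_lit 19) (.nd (nat_lit 26) 
(.lf (nat_lit 5368856642) (dlOf (nat_lit 2) (nat_lit 0x6002600180100005007000284180078008002400200440008040483))) 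
(.lf (nat_lit 3288481858) (dlOf (nat_lit 3) (nat_lit 0x1000d40007e04011006a000360200100018030e01)))) 
(.lf (nat_lit 1678393410) (dlOf (nat_lit 3) (nat_lit 0x160014000f402006800a00077018201880)))) 
(.nd (nat_lit 5) 
(.lf (nat_lit 3288744002) (dlOf (nat_lit 8) (nat_lit 0x29010000c807400980160006a060054020001100e8013802c000d20c002401e0006102003000b000148100300100017002c0004408003c0400001c02003202000170058000001000880080024002004000080d0c03))) 
(.lf (nat_lit 1208369250) (dlOf (nat_lit 1) (nat_lit 0x80080004002000200080d1c83))))) 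
(.nd (nat_lit 5) (.nd (nat_lit 8) 
(.lf (nat_lit 3959577154) (dlOf (nat_lit 12) (nat_lit 0x10302a8057814402c809400b204900d301a8048007c00f003c01b4012005700300238000000622801e80aa00a20510016025003300d4006006200c401f006000900140018018c0000003012008c0550036028801c00d40005e0c02640ac0028052008b019004080440005c1001dc0ac00e20550072019003600c4011805e000c02b00060148042004401b00200002d12007002f0001601005c02b004f815401380a20048032005e01880240044010c02000940060000308008302b0019815401340a400640360095018800e80bc02280220112010004b0030000104802f015800c80aa000a036008c018800e80bc0290022011c0100000187006902b004d8154015c0a400a6051003d01b0029004400d0020000800a005200300000848007015801840aa00ea0510014024803800d401bc068004c010005d0030000004002c80080894002065a000811b503))) 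
(.nd (nat_lit 12) (.lf (nat_lit 3221376322) (dlOf (nat_lit 2) (nat_lit 0x5c00000015018116900))) 
(.lf (nat_lit 3221380418) (dlOf (nat_lit 10) (nat_lit 0x3902a00168100015c070003202e009f00b001a082801080e000cec04000805e0066b02004a02f0033081002f0178019800801200bc00cbe04009405e0059a02002802f002c78100240178016340802d800802580020006000811c903))))) 
(.lf (nat_lit 3221380450) (dlOf (nat_lit 4) (nat_lit 0x500bc00ccc04002005e0066402001402f002f481811c900))))) 
(.nd (nat_lit 18) (.nd (nat_lit 8) (.nd (nat_lit 19) (.nd (nat_lit 27) 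
(.lf (nat_lit 4026679362) (dlOf (nat_lit 3) (nat_lit 0x1000d40007e04011006a000360200100018030e01))) 
(.lf (nat_lit 1476542530) (dlOf (nat_lit 1) (nat_lit 0xc0028050581)))) (.nd (nat_lit 21) 
(.lf (nat_lit 6376013890) (dlOf (nat_lit 5) (nat_lit 0x109f000104d000414080008280000413f000209f000204d000412100014280000a13f000709f000384d000410100010280000813f000609f000304d00040e10000400400080008051702))) 
(.lf (nat_lit 1344946242) (dlOf (nat_lit 2) (nat_lit 0xa0bd000aa0189a0600))))) (.nd (nat_lit 26) 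
(.nd (nat_lit 27) (.lf (nat_lit 1342325058) (dlOf (nat_lit 1) (nat_lit 0x300004018e0008014c02))) 
(.lf (nat_lit 3624026434) (dlOf (nat_lit 2) (nat_lit 0x4340000005602000200180b0601)))) 
(.lf (nat_lit 4228006210) (dlOf (nat_lit 1) (nat_lit 0x800400020008014c02))))) (.nd (nat_lit 5) 
(.nd (nat_lit 10) 
(.lf (nat_lit 4026941506) (dlOf (nat_lit 8) (nat_lit 0x9007800190080148080006403a004c00b0003083002a01000088074009c0160006006003000b000148100300100017002c0004408003c0400001c02003202000170058000001000880080024002004000080d0c03))) 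
(.lf (nat_lit 4095624258) (dlOf (nat_lit 1) (nat_lit 0x800803dc00200c000080e2883)))) 
(.nd (nat_lit 8) (.nd (nat_lit 11) 
(.lf (nat_lit 3557703778) (dlOf (nat_lit 3) (nat_lit 0xb01c0007240800800e0002ee040004004001c00182c0482))) 
(.lf (nat_lit 3493222498) (dlOf (nat_lit 1) (nat_lit 0x4002000200080fa802)))) 
(.lf (nat_lit 3493740898) (dlOf (nat_lit 1) (nat_lit 0x20000800b4002009c00081b0703)))))))) 
(.nd (nat_lit 5) (.nd (nat_lit 10) (.nd (nat_lit 11) (.nd (nat_lit 8) (.nd (nat_lit 18) 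
(.lf (nat_lit 13779138) (dlOf (nat_lit 1) (nat_lit 0x10008000800200040008750403))) 
(.nd (nat_lit 19) (.lf (nat_lit 14041282) (dlOf (nat_lit 1) (nat_lit 0x8008000400200020008750403))) 
(.lf (nat_lit 5773344962) (dlOf (nat_lit 1) (nat_lit 0x4002000200080c1702))))) (.nd (nat_lit 18) 
(.lf (nat_lit 11682242) (dlOf (nat_lit 1) (nat_lit 0x16800801b4002008e00086c0903))) 
(.nd (nat_lit 27) (.lf (nat_lit 4362486210) (dlOf (nat_lit 2) (nat_lit 0x920560001a818090900))) 
(.lf (nat_lit 4228268482) (dlOf (nat_lit 2) (nat_lit 0x9204f0001a818090900)))))) (.nd (nat_lit 9) 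
(.nd (nat_lit 18) (.lf (nat_lit 6442600642) (dlOf (nat_lit 1) (nat_lit 0xe00180f4981))) 
(.lf (nat_lit 3492694210) (dlOf (nat_lit 1) (nat_lit 0x200080f4981)))) (.nd (nat_lit 21) 
(.nd (nat_lit 24) (.lf (nat_lit 4093790914) (dlOf (nat_lit 1) (nat_lit 0x20028005801))) 
(.lf (nat_lit 50481858) (dlOf (nat_lit 1) (nat_lit 0x5e00194c5801)))) 
(.lf (nat_lit 6377589442) (dlOf (nat_lit 1) (nat_lit 0x200280e5801)))))) (.nd (nat_lit 11) 
(.nd (nat_lit 18) (.nd (nat_lit 19) 
(.lf (nat_lit 48383170) (dlOf (nat_lit 1) (nat_lit 0x2d800401140009402d02))) (.nd (nat_lit 21) 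
(.lf (nat_lit 47858882) (dlOf (nat_lit 1) (nat_lit 0x400200020009402d02))) 
(.lf (nat_lit 58344642) (dlOf (nat_lit 1) (nat_lit 0x1200097e2d01))))) (.nd (nat_lit 8) 
(.lf (nat_lit 33440962) (dlOf (nat_lit 1) (nat_lit 0x80018f52d01))) 
(.lf (nat_lit 8279490) (dlOf (nat_lit 2) (nat_lit 0x1aea000080080018008000c00200040008519a03))))) 
(.nd (nat_lit 9) (.nd (nat_lit 27) 
(.lf (nat_lit 6509710530) (dlOf (nat_lit 1) (nat_lit 0x80028146381))) (.nd (nat_lit 32) 
(.lf (nat_lit 1543654594) (dlOf (nat_lit 2) (nat_lit 0x802500019018146380))) 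
(.lf (nat_lit 5838621890) (dlOf (nat_lit 1) (nat_lit 0xa00180f6381))))) 
(.lf (nat_lit 5838622402) (dlOf (nat_lit 1) (nat_lit 0x200080f7281)))))) (.nd (nat_lit 8) 
(.nd (nat_lit 18) (.nd (nat_lit 19) (.nd (nat_lit 20) 
(.lf (nat_lit 6439138) (dlOf (nat_lit 2) (nat_lit 0x43acc0021864001099800015038420580))) 
(.lf (nat_lit 7487714) (dlOf (nat_lit 2) (nat_lit 0xb63fd000150184b0580)))) (.nd (nat_lit 20) 
(.lf (nat_lit 4096409826) (dlOf (nat_lit 2) (nat_lit 0x2422a000160200020028111b01))) 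
(.nd (nat_lit 21) 
(.lf (nat_lit 1343897826) (dlOf (nat_lit 2) (nat_lit 0x82f80005404000800400080018370582))) 
(.lf (nat_lit 28983522) (dlOf (nat_lit 2) (nat_lit 0x5f14380046a0f00484f68000800000054100040004001a0018da0582)))))) 
(.nd (nat_lit 10) (.nd (nat_lit 9) (.nd (nat_lit 20) 
(.lf (nat_lit 7225570) (dlOf (nat_lit 2) (nat_lit 0x3a3fd000150184b0580))) 
(.lf (nat_lit 6176994) (dlOf (nat_lit 2) (nat_lit 0xf5948007299800015028420580)))) 
(.lf (nat_lit 1345211106) (dlOf (nat_lit 4) (nat_lit 0x582ca00037020002165000088100050b2800018080088008005000200080008b05983)))) 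
(.nd (nat_lit 11) 
(.lf (nat_lit 8799458) (dlOf (nat_lit 2) (nat_lit 0x146bc000a2040018002002a0008512e02))) 
(.lf (nat_lit 2755022050) (dlOf (nat_lit 8) (nat_lit 0xa40a800540510029027000581140006c1000e80a8005c05300320288016014000d009c006404d003a022801b80f4005c072001403800200058000d45801b015000bc0a60068051002c0280018013800c409a006e045003801e8007002c0006824002c0780003002001c05d003602a0017014c00dc0a2005805000350270015813400e408a000a041000801f801c00f4003805c0006021000200e000080680030016003a0000001511000902f00009c0800601780004604002c004000a00080f6502)))))) 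
(.nd (nat_lit 18) (.nd (nat_lit 9) (.nd (nat_lit 10) (.nd (nat_lit 11) 
(.lf (nat_lit 1342325218) (dlOf (nat_lit 1) (nat_lit 0x20018017301))) 
(.lf (nat_lit 3221375458) (dlOf (nat_lit 2) (nat_lit 0x7200000b97818114e80)))) 
(.lf (nat_lit 3221376482) (dlOf (nat_lit 1) (nat_lit 0x200080080002008c0008116e03)))) 
(.nd (nat_lit 10) (.lf (nat_lit 671237090) (dlOf (nat_lit 2) (nat_lit 0x20250081d018142880))) 
(.lf (nat_lit 153570) (dlOf (nat_lit 2) (nat_lit 0x200a3002ad81800a600))))) (.nd (nat_lit 28) 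
(.nd (nat_lit 9) (.nd (nat_lit 22) 
(.lf (nat_lit 4362486242) (dlOf (nat_lit 2) (nat_lit 0x80530000a018090c00))) 
(.lf (nat_lit 21381602) (dlOf (nat_lit 1) (nat_lit 0x70008007800200040008a37303)))) 
(.lf (nat_lit 2751874018) (dlOf (nat_lit 1) (nat_lit 0x400200020008002882)))) (.nd (nat_lit 9) 
(.nd (nat_lit 19) (.lf (nat_lit 4228268514) (dlOf (nat_lit 2) (nat_lit 0x804c0000a018090c00))) 
(.lf (nat_lit 3490595298) (dlOf (nat_lit 2) (nat_lit 0x30f30000700801300080090002006a0008017303)))) 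
(.lf (nat_lit 872825826) (dlOf (nat_lit 1) (nat_lit 0x7200280e2881)))))))))) (.nd (nat_lit 5) 
(.nd (nat_lit 28) (.nd (nat_lit 19) (.nd (nat_lit 6) (.nd (nat_lit 29) (.nd (nat_lit 21) 
(.nd (nat_lit 32) (.nd (nat_lit 7) (.nd (nat_lit 18) 
(.lf (nat_lit 9584650) (dlOf (nat_lit 1) (nat_lit 0x20018570001))) 
(.lf (nat_lit 67518474) (dlOf (nat_lit 1) (nat_lit 0x9400081c0281)))) 
(.lf (nat_lit 21381258) (dlOf (nat_lit 5) (nat_lit 0x27dad008fed5002ef6a0018bb4c005bda4000deca001cf5100177a8600b1ccc005cde38008ec98004dbd00058dd900186a38000d870008727401eddcc0106ec8006e74a8007b9bc021dcb200f6df100196f40002b764005db7800f6d6900194f1801e25a801ed2c0000321c012ddaa004aed4001df69800d7b480067d4300017050098ed5001ff6a000cfb4c005bda4002fea18000b42809680080494002011e0008a30f03)))) 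
(.nd (nat_lit 8) (.nd (nat_lit 27) 
(.lf (nat_lit 5368856586) (dlOf (nat_lit 1) (nat_lit 0x20018040001))) 
(.lf (nat_lit 5503074314) (dlOf (nat_lit 1) (nat_lit 0x20018040001)))) 
(.lf (nat_lit 4429332746) (dlOf (nat_lit 1) (nat_lit 0x20028090481))))) (.nd (nat_lit 20) 
(.nd (nat_lit 18) (.nd (nat_lit 23) 
(.lf (nat_lit 52576266) (dlOf (nat_lit 3) (nat_lit 0x32ca00396e0400057f40012b2900025940000001803b80080050002008c0009550003))) 
(.lf (nat_lit 44187658) (dlOf (nat_lit 4) (nat_lit 0x1695c01bf002000b4ae00df6010006a57006fac0800080080004002000200092d0003)))) 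
(.lf (nat_lit 15089674) (dlOf (nat_lit 23) (nat_lit 0x63eb8019440800f256004ed1d404e67d7003d3eb00101eb000ecebe0098733003200701b04ac00da255c00052aa05fe8ea021c474821b9f5c0d7cfac06d47d400723e281391eb00940f5603427a902733af80fc1d7809f8e6604ec732002339800030f9001e07be02be3dd0031f9400644ac000a255c08651d405fe7d7020e3eb010f9f500070f8a02487ac00033d580121ea404ecebe024473301153990018f068023a56004911d404e47d7000c3eb00081eb00080ebe00b07330031c87005a4ac003223a806c0fae010e7d600473d600099eac0078ebe00047330031b0800024ac009123a8006d1d204fc7d701b03eb00c29f500160f5800ba7ab004c3af80061d780310e66019e73200751ee8018cc680fc1f5c0030e660062904010e958020e47501af9f5c0030f58007a75f01b03998018a03010e1f5c006ce6600625040026958000347501281f5c0174e66006220800288ea01b43eb80186c1008aa3a809d8fae019e7330030c0300783eb8018480810fa3a80da8fae030a733002dc83001c47500391f5c00b600800911d403427d7002d50200013eb80168c080119f5c00b4004057cfae00ea733002c30200103778015e808008237c0080dde005740400c000287b0281))))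 
(.nd (nat_lit 8) (.lf (nat_lit 24264714) (dlOf (nat_lit 1) (nat_lit 0x40018b90681))) 
(.lf (nat_lit 20074762) (dlOf (nat_lit 1) (nat_lit 0x800289d8081)))))) (.nd (nat_lit 18) 
(.nd (nat_lit 26) (.nd (nat_lit 7) 
(.lf (nat_lit 4966203402) (dlOf (nat_lit 1) (nat_lit 0x8008000400200020008040003))) 
(.lf (nat_lit 1610761866) (dlOf (nat_lit 2) (nat_lit 0x280b40002c0200060028093a01)))) 
(.nd (nat_lit 8) 
(.lf (nat_lit 5033312266) (dlOf (nat_lit 1) (nat_lit 0x8008000400200020008040003))) 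
(.lf (nat_lit 3959572746) (dlOf (nat_lit 1) (nat_lit 0x20028114b81))))) (.nd (nat_lit 8) 
(.nd (nat_lit 20) 
(.lf (nat_lit 537280522) (dlOf (nat_lit 2) (nat_lit 0x1604b001b018000000100220008004400200660008070503))) 
(.lf (nat_lit 2752921610) (dlOf (nat_lit 1) (nat_lit 0x400200020008060482)))) 
(.lf (nat_lit 1678131466) (dlOf (nat_lit 1) (nat_lit 0x47800401e600081a0482)))))) (.nd (nat_lit 18) 
(.nd (nat_lit 26) (.nd (nat_lit 27) (.nd (nat_lit 23) 
(.lf (nat_lit 5368856650) (dlOf (nat_lit 5) (nat_lit 0x1e201300c900800019010068805405fc02803bc01301b400880f8004007c001c015a005000308700a400a80ae805006b402602d001101a200800d28038014400a000600e01ce015013d00a00dd804c06e4022037601001be0070000883001b80080344002002c0008040503))) 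
(.lf (nat_lit 25313354) (dlOf (nat_lit 4) (nat_lit 0x28f9160136c3800011c10098e458043b0e0000460401619160094c380001141001c8008004000202820008bf0d03)))) 
(.nd (nat_lit 29) 
(.lf (nat_lit 5503074378) (dlOf (nat_lit 5) (nat_lit 0x1a2015017f00a00ef004c06d002203e001001f000700568014000d41c029002a02ba01401ad00980b400440688020034a00e00510028001a438078804c0324020000610401ce015013d00a00dd804c06e4022037601001be0070000883001b80080344002002c0008040503))) 
(.lf (nat_lit 4966203466) (dlOf (nat_lit 2) (nat_lit 0x800e800108080010008001000200020008040503))))) 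
(.nd (nat_lit 10) (.nd (nat_lit 30) 
(.lf (nat_lit 5033312330) (dlOf (nat_lit 2) (nat_lit 0x800e800114080010008001000200020008040503))) 
(.lf (nat_lit 6107054154) (dlOf (nat_lit 2) (nat_lit 0x29002c00d801400025828040500)))) 
(.lf (nat_lit 3825355850) (dlOf (nat_lit 1) (nat_lit 0x400400020008146082))))) (.nd (nat_lit 9) 
(.nd (nat_lit 7) (.nd (nat_lit 8) 
(.lf (nat_lit 3288744010) (dlOf (nat_lit 4) (nat_lit 0x40040000298100250200001480800080800008a04003c004000c00080d0d02))) 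
(.lf (nat_lit 17187146) (dlOf (nat_lit 1) (nat_lit 0x8600288e0781)))) 
(.lf (nat_lit 4362486218) (dlOf (nat_lit 2) (nat_lit 0x2a02d00011018090980)))) (.nd (nat_lit 7) 
(.nd (nat_lit 12) (.lf (nat_lit 20335434) (dlOf (nat_lit 1) (nat_lit 0x4002000200089d5c02))) 
(.lf (nat_lit 2755025738) (dlOf (nat_lit 2) (nat_lit 0x148051002a90180fbc80)))) 
(.lf (nat_lit 2755022538) (dlOf (nat_lit 1) (nat_lit 0xf0008002c002000a00080f7303))))))) 
(.nd (nat_lit 21) (.nd (nat_lit 27) (.nd (nat_lit 20) (.nd (nat_lit 6) (.nd (nat_lit 22) 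
(.lf (nat_lit 67780618) (dlOf (nat_lit 1) (nat_lit 0x4004000200082e0482))) 
(.lf (nat_lit 21643274) (dlOf (nat_lit 1) (nat_lit 0x400200020008a50082)))) 
(.lf (nat_lit 1678393418) (dlOf (nat_lit 2) (nat_lit 0x600a00077018201880)))) (.nd (nat_lit 6) 
(.nd (nat_lit 18) 
(.lf (nat_lit 31080458) (dlOf (nat_lit 1) (nat_lit 0x20008001000200080008e70003))) 
(.lf (nat_lit 14565386) (dlOf (nat_lit 1) (nat_lit 0x8008001000200020008770003)))) 
(.lf (nat_lit 10109002) (dlOf (nat_lit 1) (nat_lit 0x200285b0881))))) (.nd (nat_lit 6) 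
(.nd (nat_lit 29) (.nd (nat_lit 26) 
(.lf (nat_lit 134889482) (dlOf (nat_lit 2) (nat_lit 0x200178001fc0800480080034002002e00080d0483))) 
(.lf (nat_lit 201998346) (dlOf (nat_lit 2) (nat_lit 0x200178001fc0800480080034002002e00080d0483)))) 
(.nd (nat_lit 18) 
(.lf (nat_lit 3892985866) (dlOf (nat_lit 1) (nat_lit 0x100080004002000400082c0003))) 
(.lf (nat_lit 2819506186) (dlOf (nat_lit 1) (nat_lit 0x200082c0001))))) (.nd (nat_lit 26) 
(.lf (nat_lit 134889546) (dlOf (nat_lit 3) (nat_lit 0x320188001580801880c4000a8040040002000600080d0d02))) 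
(.lf (nat_lit 201998410) (dlOf (nat_lit 3) (nat_lit 0x3201880013c0801880c40009a040040002000600080d0d02)))))) 
(.nd (nat_lit 7) (.nd (nat_lit 18) (.nd (nat_lit 20) 
(.lf (nat_lit 48906250) (dlOf (nat_lit 1) (nat_lit 0xc00400040009440002))) 
(.lf (nat_lit 3817482) (dlOf (nat_lit 1) (nat_lit 0x80018230081)))) (.nd (nat_lit 8) 
(.nd (nat_lit 22) 
(.lf (nat_lit 53362698) (dlOf (nat_lit 4) (nat_lit 0x1129c02e2804002c94e017130200084a7000224a805c481000a00080004002001600095a0003))) 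
(.lf (nat_lit 15613962) (dlOf (nat_lit 1) (nat_lit 0x400400020018810282)))) 
(.lf (nat_lit 8279306) (dlOf (nat_lit 1) (nat_lit 0x1800200ea0008519602))))) (.nd (nat_lit 8) 
(.nd (nat_lit 10) (.nd (nat_lit 18) 
(.lf (nat_lit 12206218) (dlOf (nat_lit 1) (nat_lit 0x4002000200086c0102))) 
(.lf (nat_lit 12468362) (dlOf (nat_lit 1) (nat_lit 0x4400086c0101)))) 
(.lf (nat_lit 2754497674) (dlOf (nat_lit 1) (nat_lit 0x400280f6181)))) (.nd (nat_lit 6) 
(.nd (nat_lit 9) (.lf (nat_lit 57559434) (dlOf (nat_lit 1) (nat_lit 0x40029794e81))) 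
(.lf (nat_lit 19811210) (dlOf (nat_lit 1) (nat_lit 0x4002000200089d5c02)))) 
(.lf (nat_lit 8015818) (dlOf (nat_lit 1) (nat_lit 0x1580018517a81)))))))) (.nd (nat_lit 26) 
(.nd (nat_lit 31) (.nd (nat_lit 27) (.nd (nat_lit 6) (.nd (nat_lit 18) 
(.lf (nat_lit 1346519050) (dlOf (nat_lit 1) (nat_lit 0x20008f80001))) (.nd (nat_lit 20) 
(.lf (nat_lit 1346781194) (dlOf (nat_lit 3) (nat_lit 0x615800bf18100170ab8000000801d8008017c00200140009000003))) 
(.lf (nat_lit 1343635466) (dlOf (nat_lit 10) (nat_lit 0xd0584007c29c001808e005d303005b0b0802c8538016413a00c008e004f018802e94280248584008029c00b9f04000a16100030a7000302380172c0c01a42c200d814e006804e80338238011c06200b950a000608e005a301008e0b080450538023013a012608e0001018802d142800f0238016800400102c2000c09d0002047002cfc180008008006c002000800082d0283))))) 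
(.nd (nat_lit 8) (.nd (nat_lit 19) 
(.lf (nat_lit 268582986) (dlOf (nat_lit 2) (nat_lit 0x74804802f000e000420400760008090501))) 
(.lf (nat_lit 805978186) (dlOf (nat_lit 3) (nat_lit 0x15004b013001c0000a81004501580002604002000400660008201482)))) 
(.lf (nat_lit 4563553098) (dlOf (nat_lit 1) (nat_lit 0x60008095c01))))) (.nd (nat_lit 8) 
(.nd (nat_lit 6) (.nd (nat_lit 7) 
(.lf (nat_lit 1476542474) (dlOf (nat_lit 2) (nat_lit 0x40000000002003e0008050001))) 
(.lf (nat_lit 5234638986) (dlOf (nat_lit 3) (nat_lit 0x2006000080040001b02020e01680fc80a807dc03c000320600560018070f01)))) 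
(.lf (nat_lit 5772559562) (dlOf (nat_lit 1) (nat_lit 0x20008092d81)))) (.nd (nat_lit 20) 
(.lf (nat_lit 4697768330) (dlOf (nat_lit 2) (nat_lit 0x1001500560090005341006680080220002000a0008091003))) 
(.lf (nat_lit 5772558730) (dlOf (nat_lit 2) (nat_lit 0x28000001600200080008091001)))))) 
(.nd (nat_lit 18) (.nd (nat_lit 27) (.nd (nat_lit 6) (.nd (nat_lit 7) 
(.lf (nat_lit 2952937482) (dlOf (nat_lit 2) (nat_lit 0x2080100369604004c004001e0008030002))) 
(.lf (nat_lit 3492956298) (dlOf (nat_lit 1) (nat_lit 0x200080008002000400080f4803)))) 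
(.lf (nat_lit 6711033930) (dlOf (nat_lit 2) (nat_lit 0x29002c00d801400021028040500)))) 
(.nd (nat_lit 8) (.lf (nat_lit 4160897034) (dlOf (nat_lit 1) (nat_lit 0x400200080008060082))) 
(.lf (nat_lit 3087157002) (dlOf (nat_lit 1) (nat_lit 0x18008000400200020008143b83))))) 
(.nd (nat_lit 11) (.nd (nat_lit 6) (.nd (nat_lit 10) 
(.lf (nat_lit 3491119114) (dlOf (nat_lit 1) (nat_lit 0x400200020008060482))) 
(.lf (nat_lit 3492693002) (dlOf (nat_lit 1) (nat_lit 0x200080f2881)))) 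
(.lf (nat_lit 4026941514) (dlOf (nat_lit 4) (nat_lit 0x400400002601002502000012c0800080800007c04003c004000c00080d0d02)))) 
(.nd (nat_lit 6) (.nd (nat_lit 7) 
(.lf (nat_lit 3490073866) (dlOf (nat_lit 1) (nat_lit 0x8008000400200020008006683))) 
(.lf (nat_lit 3490072970) (dlOf (nat_lit 1) (nat_lit 0x40018004e81)))) 
(.lf (nat_lit 3492694218) (dlOf (nat_lit 1) (nat_lit 0x80080014002000a00080f4983))))))) 
(.nd (nat_lit 18) (.nd (nat_lit 8) (.nd (nat_lit 6) (.nd (nat_lit 9) 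
(.lf (nat_lit 3691134986) (dlOf (nat_lit 2) (nat_lit 0x18807400000040080004007e0018050002))) 
(.lf (nat_lit 4094312970) (dlOf (nat_lit 1) (nat_lit 0x40028037b01)))) (.nd (nat_lit 10) 
(.nd (nat_lit 19) 
(.lf (nat_lit 5167530058) (dlOf (nat_lit 5) (nat_lit 0xb00a0002c046007801a00032030056014003d8068000bc0801a405000da01a0002e82006201400016c0800a00080030002000a0008080503))) 
(.lf (nat_lit 4228530250) (dlOf (nat_lit 4) (nat_lit 0x900620002a0201540320000981001e0190000340800e80080004002000e00080f1483)))) 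
(.lf (nat_lit 1543654474) (dlOf (nat_lit 2) (nat_lit 0xa02500081018146080))))) (.nd (nat_lit 7) 
(.nd (nat_lit 20) (.lf (nat_lit 1007304970) (dlOf (nat_lit 1) (nat_lit 0x400182e0701))) 
(.lf (nat_lit 473579786) (dlOf (nat_lit 5) (nat_lit 0xc2d80002005000070200020b60000340800183e8001000a0000c0400120fa000b0028000001004f0008005000200060008f63683)))) 
(.nd (nat_lit 10) (.nd (nat_lit 11) 
(.lf (nat_lit 872563082) (dlOf (nat_lit 1) (nat_lit 0x8008001400200040008091003))) 
(.lf (nat_lit 1543653770) (dlOf (nat_lit 2) (nat_lit 0x160250085e818144e80)))) 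
(.lf (nat_lit 1543654794) (dlOf (nat_lit 2) (nat_lit 0x80190000d818146c80)))))) (.nd (nat_lit 6) 
(.nd (nat_lit 7) (.nd (nat_lit 8) (.nd (nat_lit 27) 
(.lf (nat_lit 1409695754) (dlOf (nat_lit 2) (nat_lit 0x1604b001b018000000100220008004400200660008070503))) 
(.lf (nat_lit 3154526218) (dlOf (nat_lit 2) (nat_lit 0x6002c003280181f0480)))) 
(.lf (nat_lit 4228268298) (dlOf (nat_lit 1) (nat_lit 0x700080054002007a0008090483)))) 
(.nd (nat_lit 8) (.nd (nat_lit 10) 
(.lf (nat_lit 6377324682) (dlOf (nat_lit 2) (nat_lit 0x11097801204b80004e080004004000200080c0f02))) 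
(.lf (nat_lit 472794250) (dlOf (nat_lit 1) (nat_lit 0x20028b02b01)))) 
(.lf (nat_lit 471748490) (dlOf (nat_lit 1) (nat_lit 0x880080004002000200083d7783))))) 
(.nd (nat_lit 7) 
(.lf (nat_lit 1946566730) (dlOf (nat_lit 3) (nat_lit 0x7000000031020032000000178180c1480))) 
(.nd (nat_lit 8) (.nd (nat_lit 19) 
(.lf (nat_lit 1007042762) (dlOf (nat_lit 1) (nat_lit 0xd400200020008150482))) 
(.lf (nat_lit 6377324746) (dlOf (nat_lit 1) (nat_lit 0x3600280c1b81)))) 
(.lf (nat_lit 4228268490) (dlOf (nat_lit 2) (nat_lit 0x2a02c00011018090980))))))))) 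
(.nd (nat_lit 28) (.nd (nat_lit 18) (.nd (nat_lit 30) (.nd (nat_lit 20) (.nd (nat_lit 26) 
(.nd (nat_lit 8) (.nd (nat_lit 19) 
(.lf (nat_lit 4831985706) (dlOf (nat_lit 1) (nat_lit 0x400400020008070402))) (.nd (nat_lit 22) 
(.lf (nat_lit 27934762) (dlOf (nat_lit 1) (nat_lit 0x29c0018d40701))) 
(.lf (nat_lit 15351850) (dlOf (nat_lit 1) (nat_lit 0x800087e0681))))) (.nd (nat_lit 7) 
(.nd (nat_lit 6) (.lf (nat_lit 537020714) (dlOf (nat_lit 1) (nat_lit 0x260008004b81))) 
(.lf (nat_lit 134368618) (dlOf (nat_lit 1) (nat_lit 0x20028006b01)))) (.nd (nat_lit 9) 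
(.lf (nat_lit 8536490) (dlOf (nat_lit 1) (nat_lit 0x400200020008511002))) 
(.lf (nat_lit 671238058) (dlOf (nat_lit 4) (nat_lit 0x100170000c01000a012000800840002e08000c0460010020000a00b800028180018008005c002002a0008144303)))))) 
(.nd (nat_lit 19) (.nd (nat_lit 27) (.nd (nat_lit 9) 
(.lf (nat_lit 604127274) (dlOf (nat_lit 1) (nat_lit 0x800200240008030382))) 
(.lf (nat_lit 6509710890) (dlOf (nat_lit 1) (nat_lit 0x20008147181)))) (.nd (nat_lit 32) 
(.lf (nat_lit 2348957738) (dlOf (nat_lit 1) (nat_lit 0x20008000800200040008060603))) 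
(.lf (nat_lit 6643925034) (dlOf (nat_lit 2) (nat_lit 0x40540000002001e0028080601))))) 
(.nd (nat_lit 21) (.lf (nat_lit 67780650) (dlOf (nat_lit 1) (nat_lit 0xa00182e0d81))) 
(.lf (nat_lit 2754232362) (dlOf (nat_lit 1) (nat_lit 0x2400180d0a01)))))) (.nd (nat_lit 21) 
(.nd (nat_lit 6) (.lf (nat_lit 47333418) (dlOf (nat_lit 1) (nat_lit 0xa800093d0b01))) 
(.nd (nat_lit 8) (.lf (nat_lit 59918954) (dlOf (nat_lit 1) (nat_lit 0x28008000400200020009845383))) 
(.lf (nat_lit 13779306) (dlOf (nat_lit 2) (nat_lit 0x3e348000f15c0000008000400200060008750a02))))) 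
(.nd (nat_lit 19) (.nd (nat_lit 7) 
(.lf (nat_lit 20073514) (dlOf (nat_lit 3) (nat_lit 0xcbcf0006a0100165e780034c0800680080054002000800089d6083))) 
(.lf (nat_lit 20075178) (dlOf (nat_lit 1) (nat_lit 0x80080004002000200089d8c83)))) 
(.nd (nat_lit 22) 
(.lf (nat_lit 3817514) (dlOf (nat_lit 3) (nat_lit 0x498e00064bd00030820002263800192f4000be080058004001a0008230b02))) 
(.lf (nat_lit 24789034) (dlOf (nat_lit 5) (nat_lit 0x35a500006d1a00116830005afe000190200035a50000ad1a00196830006afe00018c20001da50002ad1a00116830009afe00018420004da500016d1a00156830009afe00017c2000c80080004002000c0008bb0b03))))))) 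
(.nd (nat_lit 26) (.nd (nat_lit 6) (.nd (nat_lit 27) (.nd (nat_lit 19) 
(.lf (nat_lit 5368856618) (dlOf (nat_lit 2) (nat_lit 0x6201b00006018040300))) 
(.lf (nat_lit 3221897258) (dlOf (nat_lit 2) (nat_lit 0x25c0178000000804800080090002009e00081b0603)))) 
(.nd (nat_lit 8) (.lf (nat_lit 5503074346) (dlOf (nat_lit 2) (nat_lit 0x6201b00006018040300))) 
(.lf (nat_lit 3355595562) (dlOf (nat_lit 1) (nat_lit 0x200180a8f81))))) (.nd (nat_lit 9) 
(.nd (nat_lit 27) 
(.lf (nat_lit 5368856682) (dlOf (nat_lit 1) (nat_lit 0xd0008017000200560008040783))) 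
(.lf (nat_lit 5503074410) (dlOf (nat_lit 1) (nat_lit 0xd0008017000200560008040783)))) 
(.lf (nat_lit 1610761834) (dlOf (nat_lit 2) (nat_lit 0x1802d00011c08000800800d000200080008093903))))) 
(.nd (nat_lit 6) (.nd (nat_lit 19) (.nd (nat_lit 29) (.nd (nat_lit 27) 
(.lf (nat_lit 3288481834) (dlOf (nat_lit 1) (nat_lit 0x820008030b01))) 
(.lf (nat_lit 3422699562) (dlOf (nat_lit 1) (nat_lit 0x1568008052c0020a500008060703)))) 
(.nd (nat_lit 10) (.lf (nat_lit 3959576618) (dlOf (nat_lit 2) (nat_lit 0x602f002a681811a600))) 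
(.lf (nat_lit 3959571498) (dlOf (nat_lit 2) (nat_lit 0x8400000ae8818112880))))) (.nd (nat_lit 27) 
(.lf (nat_lit 1678393386) (dlOf (nat_lit 12) (nat_lit 0x12e81080ad801c024a0000002b8302680210138803802fc0000005606052604202dc00700488000000aa0c0f8c084083c00e00f30000001501800a8108012801c0005304036c0420211007011480300e680000003708012204200d70070000d810132010809c001c018a0000001a830293021016e803800068080d6c084071a00e0378006003900101230000000330a0026042003f0070000c4100048008041800201260008200d03))) 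
(.lf (nat_lit 3960094762) (dlOf (nat_lit 2) (nat_lit 0x25c0178000000804800080090002009e00081b0603))))) 
(.nd (nat_lit 8) 
(.lf (nat_lit 6107054186) (dlOf (nat_lit 1) (nat_lit 0x380080004002000c0008040783))) 
(.lf (nat_lit 3959576938) (dlOf (nat_lit 7) (nat_lit 0x2a02000011c0801480f80004a0400c007c0002402004e03e0001181002701f0000880801380f8000420400300040042000811ac02))))))) 
(.nd (nat_lit 6) (.nd (nat_lit 19) (.nd (nat_lit 20) (.nd (nat_lit 30) (.nd (nat_lit 21) 
(.lf (nat_lit 537280554) (dlOf (nat_lit 2) (nat_lit 0xe00b0000280200040018070801))) 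
(.lf (nat_lit 2506794) (dlOf (nat_lit 1) (nat_lit 0x60008160981)))) (.nd (nat_lit 27) 
(.lf (nat_lit 3221635114) (dlOf (nat_lit 1) (nat_lit 0x20028170001))) 
(.lf (nat_lit 3355852842) (dlOf (nat_lit 2) (nat_lit 0xbc02e00027818130600))))) (.nd (nat_lit 21) 
(.lf (nat_lit 26624042) (dlOf (nat_lit 1) (nat_lit 0x10008000800200040008c50383))) 
(.lf (nat_lit 37109802) (dlOf (nat_lit 1) (nat_lit 0x400290a0901))))) (.nd (nat_lit 20) 
(.nd (nat_lit 7) 
(.lf (nat_lit 11419690) (dlOf (nat_lit 2) (nat_lit 0x162bd0000a80800400080008002000200086a0803))) 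
(.lf (nat_lit 19812778) (dlOf (nat_lit 1) (nat_lit 0x400089d8401)))) (.nd (nat_lit 10) 
(.lf (nat_lit 20857002) (dlOf (nat_lit 1) (nat_lit 0x3200189e2c81))) 
(.lf (nat_lit 37635242) (dlOf (nat_lit 1) (nat_lit 0x400290d2c01)))))) (.nd (nat_lit 9) 
(.nd (nat_lit 7) (.nd (nat_lit 8) (.nd (nat_lit 10) 
(.lf (nat_lit 42877034) (dlOf (nat_lit 1) (nat_lit 0x20019280a01))) 
(.lf (nat_lit 19811434) (dlOf (nat_lit 1) (nat_lit 0x200289d6081)))) 
(.lf (nat_lit 2755543402) (dlOf (nat_lit 2) (nat_lit 0x401b000052040004004000400181b0702)))) 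
(.nd (nat_lit 26) (.lf (nat_lit 134627818) (dlOf (nat_lit 1) (nat_lit 0x800200020008090d02))) 
(.lf (nat_lit 201736682) (dlOf (nat_lit 1) (nat_lit 0x800200020008090d02))))) (.nd (nat_lit 11) 
(.nd (nat_lit 7) (.lf (nat_lit 8275562) (dlOf (nat_lit 1) (nat_lit 0x104004002e0018513902))) 
(.lf (nat_lit 19809002) (dlOf (nat_lit 1) (nat_lit 0x80080188002005600089d2103)))) 
(.nd (nat_lit 20) (.lf (nat_lit 46549610) (dlOf (nat_lit 1) (nat_lit 0x8008000c002000c0009385383))) 
(.lf (nat_lit 20335210) (dlOf (nat_lit 1) (nat_lit 0x8002000200089d5382)))))))) (.nd (nat_lit 26) 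
(.nd (nat_lit 19) (.nd (nat_lit 29) (.nd (nat_lit 30) (.nd (nat_lit 6) 
(.lf (nat_lit 4697768362) (dlOf (nat_lit 17) (nat_lit 0x1c034000300a80100048002cc0c008c06800163020086015002000900053410023005403100240014c0400de015006d00900052c10019005400d80240014a040082012000a281003a00a800d00480028608009402a00480120009d82003800a801d80480027208001802a000dd02018e0150006c81008100a800360080618048001ae0400bc024000d6020008015001b009000334100330008019800200780008091003))) 
(.nd (nat_lit 7) 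
(.lf (nat_lit 6711033962) (dlOf (nat_lit 1) (nat_lit 0x380080004002000c0008040783))) 
(.lf (nat_lit 4563553258) (dlOf (nat_lit 1) (nat_lit 0x400400020018095e82))))) (.nd (nat_lit 9) 
(.nd (nat_lit 18) (.lf (nat_lit 1343373354) (dlOf (nat_lit 1) (nat_lit 0x400200020008210782))) 
(.lf (nat_lit 5637554218) (dlOf (nat_lit 1) (nat_lit 0x180008100301)))) 
(.lf (nat_lit 5637293610) (dlOf (nat_lit 1) (nat_lit 0x4600180d3701))))) (.nd (nat_lit 31) 
(.nd (nat_lit 7) (.nd (nat_lit 18) 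
(.lf (nat_lit 5100421162) (dlOf (nat_lit 1) (nat_lit 0x8008000400200020008070403))) 
(.lf (nat_lit 805716010) (dlOf (nat_lit 1) (nat_lit 0x80080004002000200081a0003)))) 
(.lf (nat_lit 939673258) (dlOf (nat_lit 2) (nat_lit 0x1002c000d604000400200020008143a82)))) 
(.nd (nat_lit 27) (.nd (nat_lit 30) 
(.lf (nat_lit 2952937514) (dlOf (nat_lit 12) (nat_lit 0x11a0020000cc080b28010000640404a8008000310202900040001801008300e002d00100005e08015404a00f401c00670020013800c0005c1005f80080002d0200e8004000160100fb0020000600800880100001a0404e8008000000200bc0028030381))) 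
(.lf (nat_lit 4026679338) (dlOf (nat_lit 1) (nat_lit 0x820008030b01)))) 
(.lf (nat_lit 4160897066) (dlOf (nat_lit 2) (nat_lit 0x4280140002a04000800400240018060702)))))) 
(.nd (nat_lit 6) (.nd (nat_lit 20) (.nd (nat_lit 21) (.nd (nat_lit 29) 
(.lf (nat_lit 1342849066) (dlOf (nat_lit 5) (nat_lit 0x2045e0018226000c1070005868c000c810002045e001e22600101070008068c000c610002845e002222600121070007068c000c210002c45e001c22600101070007868c000be100018004000800080f0b02))) 
(.lf (nat_lit 805978154) (dlOf (nat_lit 4) (nat_lit 0xec00e0002b810048021004c8038000a8080174084015e00e008c006000300000006610022800400100018200c02)))) 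
(.lf (nat_lit 3492429866) (dlOf (nat_lit 1) (nat_lit 0x2400180d0a01)))) 
(.lf (nat_lit 5773082666) (dlOf (nat_lit 1) (nat_lit 0x600080010002000200080a0a03)))) 
(.nd (nat_lit 8) (.nd (nat_lit 21) 
(.lf (nat_lit 1343897834) (dlOf (nat_lit 3) (nat_lit 0x409980035c08002051c0014804001000200020008370602))) 
(.lf (nat_lit 3493478634) (dlOf (nat_lit 1) (nat_lit 0x6c0018156b81)))) (.nd (nat_lit 9) 
(.lf (nat_lit 3490595306) (dlOf (nat_lit 3) (nat_lit 0x803cc0002202000a1e60000d818017300))) 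
(.lf (nat_lit 1344163818) (dlOf (nat_lit 1) (nat_lit 0x5e00283d7a81))))))) (.nd (nat_lit 18) 
(.nd (nat_lit 19) (.nd (nat_lit 6) (.nd (nat_lit 27) (.nd (nat_lit 29) 
(.lf (nat_lit 2483175466) (dlOf (nat_lit 1) (nat_lit 0x20008000800200040008060603))) 
(.lf (nat_lit 5167530026) (dlOf (nat_lit 1) (nat_lit 0x10002000e0008080302)))) (.nd (nat_lit 30) 
(.lf (nat_lit 2617393194) (dlOf (nat_lit 1) (nat_lit 0xac00280a0001))) 
(.lf (nat_lit 3691135018) (dlOf (nat_lit 2) (nat_lit 0x100e8000b00804c8008000400200c40008050383))))) 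
(.nd (nat_lit 7) (.nd (nat_lit 27) 
(.lf (nat_lit 4630659178) (dlOf (nat_lit 1) (nat_lit 0x400400020008040782))) 
(.lf (nat_lit 4764876906) (dlOf (nat_lit 1) (nat_lit 0x400400020008040782)))) 
(.lf (nat_lit 469909994) (dlOf (nat_lit 1) (nat_lit 0x20018017d01))))) (.nd (nat_lit 21) 
(.nd (nat_lit 27) (.lf (nat_lit 3557441578) (dlOf (nat_lit 1) (nat_lit 0x2000400020008200702))) 
(.nd (nat_lit 29) 
(.lf (nat_lit 470433834) (dlOf (nat_lit 5) (nat_lit 0x2045e0018226000c106000586cc000ca10002045e001e2260010106000806cc000c810002845e00222260012106000706cc000c410002c45e001c2260010106000786cc000be100018004000800080f0b02))) 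
(.lf (nat_lit 3154788394) (dlOf (nat_lit 1) (nat_lit 0x6c002000c0008320d82))))) (.nd (nat_lit 7) 
(.lf (nat_lit 473580074) (dlOf (nat_lit 1) (nat_lit 0x140008f68981))) 
(.lf (nat_lit 6378111402) (dlOf (nat_lit 1) (nat_lit 0x1c0028116e81)))))) (.nd (nat_lit 27) 
(.nd (nat_lit 29) (.nd (nat_lit 31) 
(.lf (nat_lit 1409695786) (dlOf (nat_lit 3) (nat_lit 0x4402e8018815c00b00a4005c0330001f84003302e8011015c00740a4003e0330013015800000280108008002400200220008070883))) 
(.lf (nat_lit 3557179434) (dlOf (nat_lit 4) (nat_lit 0x2f00e00004a040008070000230200a0045009c01c000088100270008009000200020008140903)))) 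
(.nd (nat_lit 32) 
(.lf (nat_lit 1946566698) (dlOf (nat_lit 5) (nat_lit 0xb4052000240200880290001001002b01480007c0802480a40003a04000c004000200180c0c02))) 
(.lf (nat_lit 6241533994) (dlOf (nat_lit 1) (nat_lit 0x180008100301))))) (.nd (nat_lit 6) 
(.nd (nat_lit 7) 
(.lf (nat_lit 3154526250) (dlOf (nat_lit 26) (nat_lit 0x2440a80006e02026e06401f603001fb016806f00b200b805501a702a000701340a40068004402f0002017010300a0096c028076a003001700100017c70034019003480c0020a05a013302c8011815402a40a8044803400e30140111005004d40060005d14070805a017b01781a9000c000b20c0e580b4009202f034b0018001601801780e0000ac04029c0b4000550205fa0540078023819c80e0053402a000c00b00c9002000150300190010000a60405140080005102008005402a10020001401015000100009c0405640080004d02000205a029f00200012810000811c0008e040a4408e05640460105022008c810c001408204ba0380002286005b0238018011802a80580004406000e0380002081033c0160000fc08000811800180580003e04011002c0001b01038502d008900bc0d44006000320600be05a001b0178023000c000620c003405e0002e02003e054001b0020000001008680080248002009400081f0683)))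 
(.lf (nat_lit 6376278698) (dlOf (nat_lit 1) (nat_lit 0x60028095681)))) (.nd (nat_lit 8) 
(.lf (nat_lit 470696042) (dlOf (nat_lit 1) (nat_lit 0x8008000400200020008150283))) 
(.lf (nat_lit 472794474) (dlOf (nat_lit 2) (nat_lit 0x200b28000d40800d80080058002000a0008b03483))))))))))) 
(.nd (nat_lit 3) (.nd (nat_lit 5) (.nd (nat_lit 6) (.nd (nat_lit 18) (.nd (nat_lit 30) 
(.nd (nat_lit 24) (.nd (nat_lit 19) (.nd (nat_lit 27) (.nd (nat_lit 21) (.nd (nat_lit 26) 
(.lf (nat_lit 2953003010) (dlOf (nat_lit 2) (nat_lit 0x5000e000000080090008000c00200400008080003))) 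
(.lf (nat_lit 604192770) (dlOf (nat_lit 2) (nat_lit 0x403c00331018080000)))) 
(.lf (nat_lit 14893058) (dlOf (nat_lit 1) (nat_lit 0x9e0008790001)))) (.nd (nat_lit 31) 
(.lf (nat_lit 4697833474) (dlOf (nat_lit 1) (nat_lit 0x200280a0001))) 
(.lf (nat_lit 2550349826) (dlOf (nat_lit 1) (nat_lit 0x400400020008090002))))) (.nd (nat_lit 8) 
(.nd (nat_lit 20) (.lf (nat_lit 11223042) (dlOf (nat_lit 2) (nat_lit 0x205610038a818670000))) 
(.lf (nat_lit 45826050) (dlOf (nat_lit 1) (nat_lit 0x8a0019360001)))) 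
(.lf (nat_lit 5980418) (dlOf (nat_lit 1) (nat_lit 0x400400020018420702))))) (.nd (nat_lit 7) 
(.nd (nat_lit 19) (.nd (nat_lit 8) (.nd (nat_lit 20) 
(.lf (nat_lit 52641794) (dlOf (nat_lit 1) (nat_lit 0xd800800a000200500009560003))) 
(.lf (nat_lit 24330242) (dlOf (nat_lit 1) (nat_lit 0x400200020008b90002)))) 
(.lf (nat_lit 22233346) (dlOf (nat_lit 1) (nat_lit 0x580018ab7101)))) (.nd (nat_lit 21) 
(.lf (nat_lit 21708802) (dlOf (nat_lit 1) (nat_lit 0x20028a60001))) 
(.lf (nat_lit 28000258) (dlOf (nat_lit 1) (nat_lit 0x60008d50001))))) (.nd (nat_lit 8) 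
(.nd (nat_lit 9) (.lf (nat_lit 23806082) (dlOf (nat_lit 1) (nat_lit 0x400200020008b80102))) 
(.lf (nat_lit 20663938) (dlOf (nat_lit 1) (nat_lit 0x200189d7181)))) (.nd (nat_lit 9) 
(.lf (nat_lit 20143490) (dlOf (nat_lit 1) (nat_lit 0x20004000800089dc902))) 
(.lf (nat_lit 20138882) (dlOf (nat_lit 2) (nat_lit 0x1ebd0001d4080010008000c002000200089d5c03))))))) 
(.nd (nat_lit 26) (.nd (nat_lit 7) (.nd (nat_lit 9) (.nd (nat_lit 19) 
(.lf (nat_lit 1476608002) (dlOf (nat_lit 3) (nat_lit 0x100d8017ee04006c06c00b9102000a00080a0001))) 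
(.lf (nat_lit 1343963138) (dlOf (nat_lit 1) (nat_lit 0x20028380001)))) 
(.lf (nat_lit 4026745346) (dlOf (nat_lit 1) (nat_lit 0x700008090d81)))) (.nd (nat_lit 8) 
(.lf (nat_lit 4160968322) (dlOf (nat_lit 2) (nat_lit 0x100ac0000004000c004000800080a9d82))) 
(.nd (nat_lit 9) 
(.lf (nat_lit 3221446018) (dlOf (nat_lit 5) (nat_lit 0x248118001808a00120380033f0300040230019f4080048118000408a0059504000204600050228016501002e800801c00020012000811c903))) 
(.lf (nat_lit 3489880962) (dlOf (nat_lit 1) (nat_lit 0x800800040020002000800bc83)))))) 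
(.nd (nat_lit 7) (.nd (nat_lit 9) (.nd (nat_lit 19) (.nd (nat_lit 27) 
(.lf (nat_lit 3288547330) (dlOf (nat_lit 1) (nat_lit 0x80008090001))) 
(.lf (nat_lit 1812152322) (dlOf (nat_lit 2) (nat_lit 0x700e002ff0080008008001800200180008160003)))) 
(.lf (nat_lit 3557507074) (dlOf (nat_lit 1) (nat_lit 0x500018230001)))) 
(.lf (nat_lit 3288547842) (dlOf (nat_lit 1) (nat_lit 0x700008090d81)))) (.nd (nat_lit 9) 
(.lf (nat_lit 3288547714) (dlOf (nat_lit 1) (nat_lit 0x30008002000200160008090783))) 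
(.lf (nat_lit 3556986754) (dlOf (nat_lit 2) (nat_lit 0x203f00521818127780))))))) (.nd (nat_lit 20) 
(.nd (nat_lit 30) (.nd (nat_lit 21) (.nd (nat_lit 7) (.nd (nat_lit 22) (.nd (nat_lit 26) 
(.lf (nat_lit 6442926082) (dlOf (nat_lit 1) (nat_lit 0x180028230001))) 
(.lf (nat_lit 738672642) (dlOf (nat_lit 2) (nat_lit 0xc00a0096c02000400080d0001)))) 
(.lf (nat_lit 55001090) (dlOf (nat_lit 1) (nat_lit 0x20029680001)))) 
(.lf (nat_lit 477058) (dlOf (nat_lit 1) (nat_lit 0x4004000a0008004182)))) (.nd (nat_lit 22) 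
(.lf (nat_lit 1009205250) (dlOf (nat_lit 1) (nat_lit 0x280080030002000a00090a0003))) 
(.nd (nat_lit 23) (.lf (nat_lit 6766594) (dlOf (nat_lit 1) (nat_lit 0x400400020008460002))) 
(.lf (nat_lit 15155202) (dlOf (nat_lit 1) (nat_lit 0x4004000200087c0002)))))) (.nd (nat_lit 26) 
(.nd (nat_lit 7) (.nd (nat_lit 19) 
(.lf (nat_lit 1611087874) (dlOf (nat_lit 2) (nat_lit 0xc00a0041a02000400080d0001))) 
(.lf (nat_lit 1343176706) (dlOf (nat_lit 3) (nat_lit 0x600000d2281005f0f3801200000307808017400400640018190002)))) 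
(.lf (nat_lit 3221700994) (dlOf (nat_lit 1) (nat_lit 0x3000400020008170782)))) (.nd (nat_lit 27) 
(.lf (nat_lit 3557244930) (dlOf (nat_lit 3) (nat_lit 0x11807001a4502001c03800d21818170000))) 
(.lf (nat_lit 5838946306) (dlOf (nat_lit 1) (nat_lit 0x180028230001)))))) (.nd (nat_lit 21) 
(.nd (nat_lit 19) (.nd (nat_lit 8) (.nd (nat_lit 22) 
(.lf (nat_lit 471285762) (dlOf (nat_lit 1) (nat_lit 0x280080014002000800082e0003))) 
(.lf (nat_lit 5718018) (dlOf (nat_lit 1) (nat_lit 0x5e00083d0001)))) 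
(.lf (nat_lit 471286018) (dlOf (nat_lit 1) (nat_lit 0x200080010002000600082e0703)))) 
(.nd (nat_lit 7) 
(.lf (nat_lit 23019522) (dlOf (nat_lit 4) (nat_lit 0x1d60800d7e02000eb040065f81000158200092b7001856080008004000a0008b40002))) 
(.lf (nat_lit 6242434) (dlOf (nat_lit 1) (nat_lit 0x100018420481))))) (.nd (nat_lit 19) 
(.nd (nat_lit 9) (.nd (nat_lit 22) 
(.lf (nat_lit 3620866) (dlOf (nat_lit 3) (nat_lit 0x44b20021b0100052590010cc0800300080034002001e0008210003))) 
(.lf (nat_lit 7815170) (dlOf (nat_lit 1) (nat_lit 0x4004000200084f0002)))) 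
(.lf (nat_lit 58147330) (dlOf (nat_lit 5) (nat_lit 0x1d84a000cc248005801000861280043092000e304002d8420017c200000df600006fa600071080033842001ac2000019410010800800d4002000400097c7b03)))) 
(.nd (nat_lit 23) (.lf (nat_lit 473907202) (dlOf (nat_lit 1) (nat_lit 0x20028fc0001))) 
(.lf (nat_lit 29310978) (dlOf (nat_lit 1) (nat_lit 0x8008000c002000a0008df0003)))))))) 
(.nd (nat_lit 18) (.nd (nat_lit 10) (.nd (nat_lit 30) (.nd (nat_lit 27) (.nd (nat_lit 20) 
(.nd (nat_lit 9) (.lf (nat_lit 56836162) (dlOf (nat_lit 1) (nat_lit 0x20029770601))) 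
(.lf (nat_lit 42158658) (dlOf (nat_lit 1) (nat_lit 0x180009245201)))) (.nd (nat_lit 8) 
(.nd (nat_lit 19) 
(.lf (nat_lit 2752725058) (dlOf (nat_lit 3) (nat_lit 0x907f400343ce000070400441fd001c0f3800000100008008007400200180008030e03))) 
(.lf (nat_lit 5980226) (dlOf (nat_lit 1) (nat_lit 0x420008420001)))) 
(.lf (nat_lit 9650498) (dlOf (nat_lit 2) (nat_lit 0xd3f80010d80800d0008000800200100008574c03))))) 
(.nd (nat_lit 26) (.nd (nat_lit 32) 
(.lf (nat_lit 134430786) (dlOf (nat_lit 1) (nat_lit 0x20008000400200020008020783))) 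
(.lf (nat_lit 4429398082) (dlOf (nat_lit 1) (nat_lit 0x200280a0d01)))) (.nd (nat_lit 19) 
(.lf (nat_lit 201539650) (dlOf (nat_lit 1) (nat_lit 0x20008000400200020008020783))) 
(.lf (nat_lit 472596546) (dlOf (nat_lit 1) (nat_lit 0x200089c0601)))))) (.nd (nat_lit 28) 
(.nd (nat_lit 7) (.nd (nat_lit 26) 
(.lf (nat_lit 1073954882) (dlOf (nat_lit 1) (nat_lit 0x20008030e01))) 
(.lf (nat_lit 3288547394) (dlOf (nat_lit 1) (nat_lit 0x60028090001)))) 
(.lf (nat_lit 1611350466) (dlOf (nat_lit 1) (nat_lit 0x30008005400200280008137a83)))) 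
(.nd (nat_lit 8) (.nd (nat_lit 20) 
(.lf (nat_lit 1946370114) (dlOf (nat_lit 1) (nat_lit 0x20008030e01))) 
(.lf (nat_lit 3490922562) (dlOf (nat_lit 3) (nat_lit 0x907ac00343a4000070400441eb001c0e9000000100008008007400200180008030e03)))) 
(.lf (nat_lit 3494068546) (dlOf (nat_lit 4) (nat_lit 0x310d00018444000ac08001421e000a1070001682008d0878042841c00056080004004000600181b0602)))))) 
(.nd (nat_lit 8) (.nd (nat_lit 20) (.nd (nat_lit 7) 
(.lf (nat_lit 2885895234) (dlOf (nat_lit 1) (nat_lit 0x6000808d800201ee0008142883))) 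
(.nd (nat_lit 11) (.lf (nat_lit 42157250) (dlOf (nat_lit 1) (nat_lit 0x400400020009242d02))) 
(.lf (nat_lit 3490401474) (dlOf (nat_lit 1) (nat_lit 0x20008006381))))) (.nd (nat_lit 21) 
(.lf (nat_lit 55788738) (dlOf (nat_lit 1) (nat_lit 0x800196d2d01))) 
(.lf (nat_lit 1345537218) (dlOf (nat_lit 1) (nat_lit 0x8008000400200020008d12d03))))) 
(.nd (nat_lit 7) (.nd (nat_lit 9) (.nd (nat_lit 11) 
(.lf (nat_lit 2818790722) (dlOf (nat_lit 1) (nat_lit 0x60018129901))) 
(.lf (nat_lit 3489881410) (dlOf (nat_lit 4) (nat_lit 0x607f0004c3f6006820400181fa0027481000f0fd0013600801400080038002000c000800c903)))) 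
(.lf (nat_lit 671303490) (dlOf (nat_lit 20) (nat_lit 0x7e02e003201400009c1006780b802040500002604004c02e0001281002b0000000900801180b8000440400f403e0001e02001602e0000e81003700f8000680801e807c0002e0400d803e0001602008401f0000a81003600f8000500801b007c0002604011003e0001202006e02e0000881003800f80003c0801c807c0001c0400d803e0000902000202e000c00f8000001009a8008004400200040008143e03)))) 
(.nd (nat_lit 9) (.lf (nat_lit 2818790850) (dlOf (nat_lit 1) (nat_lit 0x1400400060018129a02))) 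
(.lf (nat_lit 2751678402) (dlOf (nat_lit 1) (nat_lit 0x400200020008004402))))))) (.nd (nat_lit 19) 
(.nd (nat_lit 29) (.nd (nat_lit 20) (.nd (nat_lit 7) 
(.lf (nat_lit 2572354) (dlOf (nat_lit 4) (nat_lit 0x594ba00029020010a5e0000601000252e00002c0800100080004002001c0008170d03))) 
(.nd (nat_lit 9) (.lf (nat_lit 477378) (dlOf (nat_lit 1) (nat_lit 0x400400140008004982))) 
(.lf (nat_lit 1074220738) (dlOf (nat_lit 1) (nat_lit 0x200080028002001e00080f7283))))) 
(.nd (nat_lit 8) (.nd (nat_lit 21) 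
(.lf (nat_lit 471285826) (dlOf (nat_lit 1) (nat_lit 0x80080004002000200082e0003))) 
(.lf (nat_lit 24592450) (dlOf (nat_lit 1) (nat_lit 0x20028ba0d01)))) 
(.lf (nat_lit 3493282114) (dlOf (nat_lit 1) (nat_lit 0x400400020008104c02))))) (.nd (nat_lit 30) 
(.nd (nat_lit 8) (.nd (nat_lit 10) 
(.lf (nat_lit 738672706) (dlOf (nat_lit 2) (nat_lit 0xa002a0004e8180d0480))) 
(.lf (nat_lit 604456002) (dlOf (nat_lit 1) (nat_lit 0x4004000200082d2882)))) 
(.lf (nat_lit 2755084610) (dlOf (nat_lit 1) (nat_lit 0x400400020008104c02)))) (.nd (nat_lit 9) 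
(.nd (nat_lit 26) 
(.lf (nat_lit 1611087938) (dlOf (nat_lit 1) (nat_lit 0x2280080070002007800080d0483))) 
(.lf (nat_lit 1678196802) (dlOf (nat_lit 1) (nat_lit 0x200281a0001)))) 
(.lf (nat_lit 1880574530) (dlOf (nat_lit 1) (nat_lit 0x18008000400200020008a45203)))))) 
(.nd (nat_lit 21) (.nd (nat_lit 28) (.nd (nat_lit 20) (.nd (nat_lit 23) 
(.lf (nat_lit 21971010) (dlOf (nat_lit 7) (nat_lit 0x6e458002b0e00003f040019aaf000dd2a8000e4100056458002b0e0000300400079160004c3800001c10006e458002b0e00000604002b916001bc380000001000900080034002003a0008a80e03))) 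
(.lf (nat_lit 13582402) (dlOf (nat_lit 4) (nat_lit 0x15c630016deb00018410006718c00637ac00060040025c63001bdeb00008810001000800c0002002e0008730c03)))) 
(.nd (nat_lit 8) (.lf (nat_lit 52379714) (dlOf (nat_lit 1) (nat_lit 0x400400020009530602))) 
(.lf (nat_lit 2048322) (dlOf (nat_lit 2) (nat_lit 0x1e33b80006604000400400020018150602))))) 
(.nd (nat_lit 8) (.nd (nat_lit 26) 
(.lf (nat_lit 1343176770) (dlOf (nat_lit 11) (nat_lit 0x20f38000f008004879c000760400643d8000c1e70001d0200060f38000e40801300000002a0402a000000007020158000000030100220000000080801b8000000020401bc15e00f402800ac0000000001800900080244002006c0008190583))) 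
(.lf (nat_lit 1007632450) (dlOf (nat_lit 1) (nat_lit 0x20028560581)))) 
(.lf (nat_lit 6376341826) (dlOf (nat_lit 1) (nat_lit 0xc00200020008090c02))))) (.nd (nat_lit 8) 
(.nd (nat_lit 9) (.lf (nat_lit 12533826) (dlOf (nat_lit 1) (nat_lit 0x200286d0d01))) 
(.nd (nat_lit 25) 
(.lf (nat_lit 70208066) (dlOf (nat_lit 1) (nat_lit 0x18008000800200060009025203))) 
(.lf (nat_lit 36653634) (dlOf (nat_lit 1) (nat_lit 0x8008000400200040009075203))))) 
(.nd (nat_lit 10) (.nd (nat_lit 9) 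
(.lf (nat_lit 472858946) (dlOf (nat_lit 2) (nat_lit 0x1c2ca004e902000a0028b28701))) 
(.lf (nat_lit 19876674) (dlOf (nat_lit 1) (nat_lit 0x4002000200089d5c02)))) (.nd (nat_lit 24) 
(.lf (nat_lit 40846658) (dlOf (nat_lit 1) (nat_lit 0x1400191f3301))) 
(.lf (nat_lit 57623874) (dlOf (nat_lit 1) (nat_lit 0x1a0019793301)))))))))) (.nd (nat_lit 18) 
(.nd (nat_lit 6) (.nd (nat_lit 28) (.nd (nat_lit 21) (.nd (nat_lit 26) (.nd (nat_lit 7) 
(.nd (nat_lit 19) (.lf (nat_lit 63127586) (dlOf (nat_lit 1) (nat_lit 0x600099e0181))) 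
(.lf (nat_lit 537608226) (dlOf (nat_lit 1) (nat_lit 0x78004007400080d0902)))) (.nd (nat_lit 8) 
(.lf (nat_lit 671303330) (dlOf (nat_lit 1) (nat_lit 0x1000400360008143a82))) 
(.lf (nat_lit 39012770) (dlOf (nat_lit 1) (nat_lit 0x400200020009194e82))))) (.nd (nat_lit 8) 
(.nd (nat_lit 9) (.nd (nat_lit 29) 
(.lf (nat_lit 201539618) (dlOf (nat_lit 1) (nat_lit 0x400400020008020482))) 
(.lf (nat_lit 1812152354) (dlOf (nat_lit 1) (nat_lit 0xc0018160481)))) 
(.lf (nat_lit 3288547874) (dlOf (nat_lit 1) (nat_lit 0x400200060008090d82)))) (.nd (nat_lit 7) 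
(.lf (nat_lit 6107119906) (dlOf (nat_lit 2) (nat_lit 0x5c015000af818090a80))) 
(.lf (nat_lit 3288547746) (dlOf (nat_lit 5) (nat_lit 0xf005c001a02d003a2020028016801d0c0802100b8008c05a0073a04004402e0012016801ce41001b8008004800200920008090783)))))) 
(.nd (nat_lit 19) (.nd (nat_lit 7) (.nd (nat_lit 22) 
(.lf (nat_lit 52641826) (dlOf (nat_lit 7) (nat_lit 0x738c00059c5e00017040004e300000b0100a77180000440800a38c00002004005dc600000402001ee3000001019560700))) 
(.lf (nat_lit 14893090) (dlOf (nat_lit 1) (nat_lit 0x8008000c00200080008790183)))) 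
(.lf (nat_lit 20141730) (dlOf (nat_lit 1) (nat_lit 0x200089d9f81)))) (.nd (nat_lit 8) 
(.nd (nat_lit 10) (.lf (nat_lit 45826082) (dlOf (nat_lit 2) (nat_lit 0x348e00020019360180))) 
(.lf (nat_lit 32195618) (dlOf (nat_lit 1) (nat_lit 0x20028ef2881)))) (.nd (nat_lit 9) 
(.lf (nat_lit 54214946) (dlOf (nat_lit 1) (nat_lit 0xb400203ac0009650a82))) 
(.lf (nat_lit 54217506) (dlOf (nat_lit 1) (nat_lit 0x2c0019655c01))))))) (.nd (nat_lit 30) 
(.nd (nat_lit 27) (.nd (nat_lit 7) (.nd (nat_lit 8) 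
(.lf (nat_lit 2953003042) (dlOf (nat_lit 2) (nat_lit 0x10b00e0055806c0016a08019400400f60008080602))) 
(.lf (nat_lit 268648738) (dlOf (nat_lit 1) (nat_lit 0xd000180e0a81)))) 
(.lf (nat_lit 805523106) (dlOf (nat_lit 1) (nat_lit 0x980008117201)))) (.nd (nat_lit 19) 
(.lf (nat_lit 939737122) (dlOf (nat_lit 1) (nat_lit 0xc0018160481))) (.nd (nat_lit 21) 
(.lf (nat_lit 1007370274) (dlOf (nat_lit 1) (nat_lit 0x3800200560008300a82))) 
(.lf (nat_lit 472596514) (dlOf (nat_lit 3) (nat_lit 0x2c2c0001c09c0001382004b046800048080008008000c002000400089c0183)))))) 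
(.nd (nat_lit 19) (.nd (nat_lit 20) (.nd (nat_lit 26) 
(.lf (nat_lit 1476608034) (dlOf (nat_lit 3) (nat_lit 0x3a0000007281001201b0002800801b80080148002000200080a0603))) 
(.lf (nat_lit 3691200546) (dlOf (nat_lit 3) (nat_lit 0x380a8118004c019c02503e501180a9808811f803a07c201c03e000d03260010193c00601e0001000728b000a000000000083da0008269c002136200080a0603)))) 
(.lf (nat_lit 1343438882) (dlOf (nat_lit 1) (nat_lit 0x60018240681)))) (.nd (nat_lit 20) 
(.nd (nat_lit 31) (.lf (nat_lit 1410023458) (dlOf (nat_lit 1) (nat_lit 0x78004007400080d0902))) 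
(.lf (nat_lit 3557507106) (dlOf (nat_lit 2) (nat_lit 0x403b000101c000100dc0004040000101d000200d40010066000890e00040018230781)))) 
(.lf (nat_lit 1343963170) (dlOf (nat_lit 1) (nat_lit 0xc00400060008380d02))))))) (.nd (nat_lit 21) 
(.nd (nat_lit 12) (.nd (nat_lit 8) (.nd (nat_lit 7) 
(.lf (nat_lit 60506210) (dlOf (nat_lit 1) (nat_lit 0x100029880781))) 
(.lf (nat_lit 216290) (dlOf (nat_lit 1) (nat_lit 0x20008006501)))) (.nd (nat_lit 22) 
(.nd (nat_lit 26) (.lf (nat_lit 1879261538) (dlOf (nat_lit 2) (nat_lit 0x8007000178180c0700))) 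
(.lf (nat_lit 1006846306) (dlOf (nat_lit 2) (nat_lit 0x8003000178180c0700)))) 
(.lf (nat_lit 3494068578) (dlOf (nat_lit 1) (nat_lit 0x4002000200081b0702))))) (.nd (nat_lit 7) 
(.nd (nat_lit 9) 
(.lf (nat_lit 2818792546) (dlOf (nat_lit 12) (nat_lit 0x1c01b00058088000ba08008006c00240220002e0200080390007810800c407e00054060028072001b021001d80fc00480360005308001606f002201b001980d0004404400051080026036001c01a00008088000a00c005406c0092022000260200300110001280800100d800c0044000480400580220002101003301b001200880007a0800480040094001812c002))) 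
(.nd (nat_lit 10) 
(.lf (nat_lit 3556987490) (dlOf (nat_lit 1) (nat_lit 0x8008000400200020008128983))) 
(.lf (nat_lit 2684573282) (dlOf (nat_lit 1) (nat_lit 0x180080078002002200080a9c03))))) 
(.nd (nat_lit 8) 
(.lf (nat_lit 2818790114) (dlOf (nat_lit 1) (nat_lit 0xe90008000c00200fe0008128c83))) 
(.lf (nat_lit 3959642082) (dlOf (nat_lit 5) (nat_lit 0x3008c0018045002b20200120230009811400ac608008c08c0048045002b0820017023000c011400abe0801100040058001811a602)))))) 
(.nd (nat_lit 7) (.nd (nat_lit 19) (.nd (nat_lit 8) (.nd (nat_lit 10) 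
(.lf (nat_lit 56836194) (dlOf (nat_lit 1) (nat_lit 0x20019770901))) 
(.lf (nat_lit 1344488546) (dlOf (nat_lit 1) (nat_lit 0x400400020018802982)))) 
(.lf (nat_lit 1008943458) (dlOf (nat_lit 1) (nat_lit 0x400200020009000e82)))) (.nd (nat_lit 10) 
(.nd (nat_lit 20) (.lf (nat_lit 7028834) (dlOf (nat_lit 1) (nat_lit 0x200284b0481))) 
(.lf (nat_lit 45826146) (dlOf (nat_lit 1) (nat_lit 0xe80009360901)))) 
(.lf (nat_lit 62604386) (dlOf (nat_lit 1) (nat_lit 0x1800299a2981))))) (.nd (nat_lit 8) 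
(.nd (nat_lit 19) (.nd (nat_lit 20) 
(.lf (nat_lit 6504674) (dlOf (nat_lit 2) (nat_lit 0x100b01c05757e003f6b94020059a00d7a9d005614be0002a0c00020028420581))) 
(.lf (nat_lit 7553250) (dlOf (nat_lit 2) (nat_lit 0x83fd000150184b0580)))) 
(.lf (nat_lit 4096475362) (dlOf (nat_lit 1) (nat_lit 0x40028111b01)))) (.nd (nat_lit 23) 
(.lf (nat_lit 1344488418) (dlOf (nat_lit 1) (nat_lit 0x40018802881))) 
(.lf (nat_lit 61031394) (dlOf (nat_lit 1) (nat_lit 0x110002000400098c2882)))))))) (.nd (nat_lit 28) 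
(.nd (nat_lit 19) (.nd (nat_lit 29) (.nd (nat_lit 20) (.nd (nat_lit 21) (.nd (nat_lit 22) 
(.nd (nat_lit 27) (.lf (nat_lit 6442926114) (dlOf (nat_lit 1) (nat_lit 0x800400020008230482))) 
(.lf (nat_lit 134692898) (dlOf (nat_lit 1) (nat_lit 0x8008000c00200040008090003)))) 
(.lf (nat_lit 21446690) (dlOf (nat_lit 2) (nat_lit 0x300000008a04005c00200040008a40182)))) 
(.nd (nat_lit 22) 
(.lf (nat_lit 2572322) (dlOf (nat_lit 4) (nat_lit 0x1a97800154b8008ea04002aa4700399810018523801cc80800c0008008000200100008170a03))) 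
(.lf (nat_lit 48709666) (dlOf (nat_lit 2) (nat_lit 0x1bf75000dfab8006fc280037d3e0001464000bddd00030ed30020764801bb8680091c0a0003e1400060029420181))))) 
(.nd (nat_lit 6) (.nd (nat_lit 21) 
(.lf (nat_lit 26689570) (dlOf (nat_lit 2) (nat_lit 0x257310024b08000b57cc0091dd80048ecb002475b000fba600095c7c0048e24002470e801537e80099b180050d5a00286a8001334f80091a280054cd8002a6638016b29c00ad86a0048a6100244cd8000a5ec00912f00001c30000a0018c60601))) 
(.lf (nat_lit 49758242) (dlOf (nat_lit 1) (nat_lit 0x4002000400094a0182)))) 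
(.lf (nat_lit 35078242) (dlOf (nat_lit 1) (nat_lit 0x40018fd0901))))) (.nd (nat_lit 31) 
(.nd (nat_lit 6) (.nd (nat_lit 26) 
(.lf (nat_lit 1611087906) (dlOf (nat_lit 2) (nat_lit 0x7f02700190134007006e0001e06000200280d0181))) 
(.lf (nat_lit 738672674) (dlOf (nat_lit 2) (nat_lit 0x7f02700190134007006e0001e06000200280d0181)))) 
(.lf (nat_lit 604457314) (dlOf (nat_lit 1) (nat_lit 0x1e00282d4e81)))) (.nd (nat_lit 7) 
(.nd (nat_lit 20) 
(.lf (nat_lit 2754035746) (dlOf (nat_lit 2) (nat_lit 0x131260000b00800900080004002000400080b0a83))) 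
(.lf (nat_lit 2752987170) (dlOf (nat_lit 2) (nat_lit 0x35044000000080198008004400200260008070683)))) 
(.lf (nat_lit 3959898530) (dlOf (nat_lit 5) (nat_lit 0x5c0460029022803a1410016811800ac08a00e84040076045007418100280230013011401d0008001c00400020018170782)))))) 
(.nd (nat_lit 23) (.nd (nat_lit 6) (.nd (nat_lit 7) (.nd (nat_lit 8) 
(.lf (nat_lit 17776674) (dlOf (nat_lit 1) (nat_lit 0x4004000c00188f0d02))) 
(.lf (nat_lit 19876642) (dlOf (nat_lit 1) (nat_lit 0x4002000200089d5c02)))) 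
(.lf (nat_lit 39799202) (dlOf (nat_lit 1) (nat_lit 0x1400191f4e81)))) (.nd (nat_lit 8) 
(.lf (nat_lit 8345186) (dlOf (nat_lit 1) (nat_lit 0x400400020008519c02))) 
(.lf (nat_lit 19876706) (dlOf (nat_lit 1) (nat_lit 0x4002000200089d5c02))))) (.nd (nat_lit 6) 
(.nd (nat_lit 8) (.nd (nat_lit 20) 
(.lf (nat_lit 59719714) (dlOf (nat_lit 1) (nat_lit 0x20019820181))) 
(.lf (nat_lit 14630946) (dlOf (nat_lit 1) (nat_lit 0xc0008770181)))) 
(.lf (nat_lit 46088482) (dlOf (nat_lit 2) (nat_lit 0x292918001680200020029380a81)))) 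
(.nd (nat_lit 10) (.lf (nat_lit 12533858) (dlOf (nat_lit 1) (nat_lit 0x800286d1281))) 
(.lf (nat_lit 62866530) (dlOf (nat_lit 1) (nat_lit 0x4002000200099a2982))))))) (.nd (nat_lit 6) 
(.nd (nat_lit 26) (.nd (nat_lit 7) (.nd (nat_lit 19) (.nd (nat_lit 20) 
(.lf (nat_lit 3492233250) (dlOf (nat_lit 2) (nat_lit 0x1d0aa000010080040008000c002000800080b0b03))) 
(.lf (nat_lit 3491184674) (dlOf (nat_lit 2) (nat_lit 0x35045800000080198008004400200260008070683)))) 
(.lf (nat_lit 1343176738) (dlOf (nat_lit 8) (nat_lit 0x9000000094080068884001033a0002404001822100050ce80050000000460c005c15e00020020054202001c0d3800082bc00300000001d08001a1a70000e01000c00000003c0801400080194002002c0008190183)))) 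
(.lf (nat_lit 4027010210) (dlOf (nat_lit 1) (nat_lit 0x200180f6281)))) (.nd (nat_lit 19) 
(.nd (nat_lit 20) (.nd (nat_lit 29) 
(.lf (nat_lit 5838946338) (dlOf (nat_lit 1) (nat_lit 0x800400020008230482))) 
(.lf (nat_lit 1007108130) (dlOf (nat_lit 2) (nat_lit 0x5c04800340000000e828180600)))) 
(.lf (nat_lit 4095164450) (dlOf (nat_lit 1) (nat_lit 0x40028070201)))) (.nd (nat_lit 8) 
(.lf (nat_lit 4096737314) (dlOf (nat_lit 1) (nat_lit 0x60018160481))) 
(.lf (nat_lit 472858914) (dlOf (nat_lit 2) (nat_lit 0x30b28026a00801800080008002005e0008b28003)))))) 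
(.nd (nat_lit 7) (.nd (nat_lit 27) (.nd (nat_lit 8) 
(.lf (nat_lit 1880573026) (dlOf (nat_lit 1) (nat_lit 0x40028a42981))) 
(.lf (nat_lit 2416394594) (dlOf (nat_lit 1) (nat_lit 0xc002000400081b0702)))) (.nd (nat_lit 11) 
(.lf (nat_lit 2550612322) (dlOf (nat_lit 1) (nat_lit 0xc002000400081b0702))) 
(.lf (nat_lit 1476872546) (dlOf (nat_lit 1) (nat_lit 0x40004000800082d4e82))))) (.nd (nat_lit 9) 
(.lf (nat_lit 3490660834) (dlOf (nat_lit 3) (nat_lit 0x3d0f300008808022079800038040180004003c0018017302))) 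
(.nd (nat_lit 19) (.lf (nat_lit 5773935586) (dlOf (nat_lit 1) (nat_lit 0x3400280e2881))) 
(.lf (nat_lit 3492758498) (dlOf (nat_lit 1) (nat_lit 0x4002000200080f2882)))))))))) 
(.nd (nat_lit 18) (.nd (nat_lit 30) (.nd (nat_lit 6) (.nd (nat_lit 21) (.nd (nat_lit 27) 
(.nd (nat_lit 5) (.nd (nat_lit 19) (.nd (nat_lit 29) (.nd (nat_lit 7) 
(.lf (nat_lit 4295180298) (dlOf (nat_lit 1) (nat_lit 0x4004000200080a0682))) 
(.lf (nat_lit 2147696778) (dlOf (nat_lit 4) (nat_lit 0x8800a00001408040005000006040328028000000200f600280c0f01)))) 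
(.nd (nat_lit 26) 
(.lf (nat_lit 2953003018) (dlOf (nat_lit 4) (nat_lit 0x3a01c0009501002500e00043408095806c001d204009000200b40008080482))) 
(.lf (nat_lit 604192778) (dlOf (nat_lit 2) (nat_lit 0xae018000a1018080480))))) (.nd (nat_lit 20) 
(.lf (nat_lit 21708810) (dlOf (nat_lit 1) (nat_lit 0x8004000e0008a60a02))) 
(.lf (nat_lit 5980170) (dlOf (nat_lit 1) (nat_lit 0x40008420001))))) (.nd (nat_lit 24) 
(.nd (nat_lit 20) (.lf (nat_lit 604192810) (dlOf (nat_lit 1) (nat_lit 0x9000400160008080682))) 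
(.lf (nat_lit 2752725034) (dlOf (nat_lit 1) (nat_lit 0x1a0008030b01)))) (.nd (nat_lit 19) 
(.lf (nat_lit 25378858) (dlOf (nat_lit 2) (nat_lit 0x41306c0006604006800200280008c00602))) 
(.lf (nat_lit 21708842) (dlOf (nat_lit 6) (nat_lit 0xfe67800c7220011778e0009bc6000ad930016a7940001a180007b200003bc600005020004ec800016f180001208006778e0007bc60000102000fde380016c980000208010c002006a0008a60c82)))))) 
(.nd (nat_lit 9) (.nd (nat_lit 29) (.nd (nat_lit 19) 
(.lf (nat_lit 4429398026) (dlOf (nat_lit 1) (nat_lit 0x4004000200080a0682))) 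
(.lf (nat_lit 470499338) (dlOf (nat_lit 1) (nat_lit 0x1000400040008110582)))) (.nd (nat_lit 5) 
(.lf (nat_lit 939737098) (dlOf (nat_lit 2) (nat_lit 0xc005800080000029c08006800200260008160482))) 
(.lf (nat_lit 939737130) (dlOf (nat_lit 1) (nat_lit 0x20018160501))))) (.nd (nat_lit 12) 
(.nd (nat_lit 5) 
(.lf (nat_lit 671303434) (dlOf (nat_lit 10) (nat_lit 0x1500f80016808002807c000b00400b803e0005702002a01f0002b01002e00f80015008012807c000820400a003e0004002002a01f0001a8100070170000b0080318008013800200100008143b83))) 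
(.lf (nat_lit 671303594) (dlOf (nat_lit 4) (nat_lit 0x3601700170078000601001380780002e040010058003401700160078000281800d00080004002001e0008144303)))) 
(.nd (nat_lit 8) 
(.lf (nat_lit 2818789898) (dlOf (nat_lit 1) (nat_lit 0xf8008000400200020008128683))) 
(.lf (nat_lit 2818791178) (dlOf (nat_lit 1) (nat_lit 0x2002812a001))))))) (.nd (nat_lit 7) 
(.nd (nat_lit 20) (.nd (nat_lit 5) (.nd (nat_lit 22) 
(.lf (nat_lit 52641802) (dlOf (nat_lit 1) (nat_lit 0x70008000c002002a0009560103))) 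
(.lf (nat_lit 56836106) (dlOf (nat_lit 1) (nat_lit 0x20019770001)))) 
(.lf (nat_lit 52641834) (dlOf (nat_lit 1) (nat_lit 0xd8008004800200500009560903)))) 
(.nd (nat_lit 8) (.nd (nat_lit 9) 
(.lf (nat_lit 54217738) (dlOf (nat_lit 1) (nat_lit 0x1000200560009655f82))) 
(.lf (nat_lit 41107978) (dlOf (nat_lit 1) (nat_lit 0x160029227b01)))) 
(.lf (nat_lit 20139274) (dlOf (nat_lit 1) (nat_lit 0x1480080010002003200089d6683))))) 
(.nd (nat_lit 20) (.nd (nat_lit 5) (.nd (nat_lit 19) 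
(.lf (nat_lit 2310282) (dlOf (nat_lit 1) (nat_lit 0x400200040008150102))) 
(.lf (nat_lit 23806090) (dlOf (nat_lit 1) (nat_lit 0x8008000800200020008b80103)))) 
(.lf (nat_lit 2753773994) (dlOf (nat_lit 1) (nat_lit 0x8004003e0008090782)))) (.nd (nat_lit 5) 
(.nd (nat_lit 19) 
(.lf (nat_lit 36915594) (dlOf (nat_lit 2) (nat_lit 0x198c00177a04000c00200060009074e82))) 
(.lf (nat_lit 37439882) (dlOf (nat_lit 1) (nat_lit 0x14002000200090d4e82)))) 
(.lf (nat_lit 20141482) (dlOf (nat_lit 1) (nat_lit 0x150008001c002000800089d9903))))))) 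
(.nd (nat_lit 11) (.nd (nat_lit 5) (.nd (nat_lit 27) (.nd (nat_lit 10) (.nd (nat_lit 20) 
(.lf (nat_lit 37961802) (dlOf (nat_lit 1) (nat_lit 0x2200190f0601))) 
(.lf (nat_lit 22233162) (dlOf (nat_lit 1) (nat_lit 0x400400020008ab1482)))) 
(.lf (nat_lit 20665418) (dlOf (nat_lit 1) (nat_lit 0x380080008002000c00089d9303)))) 
(.nd (nat_lit 26) (.nd (nat_lit 28) 
(.lf (nat_lit 134430794) (dlOf (nat_lit 1) (nat_lit 0x100028020881))) 
(.lf (nat_lit 4697833546) (dlOf (nat_lit 1) (nat_lit 0x400180a1681)))) 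
(.lf (nat_lit 201539658) (dlOf (nat_lit 1) (nat_lit 0x100028020881))))) (.nd (nat_lit 7) 
(.nd (nat_lit 8) (.nd (nat_lit 19) 
(.lf (nat_lit 56836202) (dlOf (nat_lit 2) (nat_lit 0x4cf8000320200020019770a01))) 
(.lf (nat_lit 45826154) (dlOf (nat_lit 1) (nat_lit 0x90002000c0009360a02)))) 
(.lf (nat_lit 13844842) (dlOf (nat_lit 1) (nat_lit 0x1c0008750a01)))) (.nd (nat_lit 8) 
(.lf (nat_lit 5167596778) (dlOf (nat_lit 1) (nat_lit 0x1c00280d2e81))) 
(.lf (nat_lit 9650666) (dlOf (nat_lit 1) (nat_lit 0x1c0028577d01)))))) (.nd (nat_lit 8) 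
(.nd (nat_lit 5) (.nd (nat_lit 9) 
(.lf (nat_lit 8083530) (dlOf (nat_lit 2) (nat_lit 0x99a18003b80400340040004001851a682))) 
(.lf (nat_lit 4362817098) (dlOf (nat_lit 1) (nat_lit 0x40028117181)))) (.nd (nat_lit 26) 
(.lf (nat_lit 216298) (dlOf (nat_lit 1) (nat_lit 0x2c00080074002003a0008006503))) 
(.lf (nat_lit 6509776106) (dlOf (nat_lit 1) (nat_lit 0x400400020008146502))))) (.nd (nat_lit 12) 
(.nd (nat_lit 9) (.lf (nat_lit 2885896522) (dlOf (nat_lit 1) (nat_lit 0x80018144d81))) 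
(.lf (nat_lit 20138826) (dlOf (nat_lit 1) (nat_lit 0x80080004002000200089d5c03)))) 
(.nd (nat_lit 20) (.lf (nat_lit 219978) (dlOf (nat_lit 2) (nat_lit 0x1400c0058201800bc80))) 
(.lf (nat_lit 20142922) (dlOf (nat_lit 1) (nat_lit 0x1c00089dbc81)))))))) (.nd (nat_lit 5) 
(.nd (nat_lit 7) (.nd (nat_lit 26) (.nd (nat_lit 27) (.nd (nat_lit 6) 
(.lf (nat_lit 1342914570) (dlOf (nat_lit 1) (nat_lit 0x1000400040008110582))) 
(.lf (nat_lit 3221445450) (dlOf (nat_lit 5) (nat_lit 0x3008c00180450056f82001202300098114015bc08008c08c00480450056e020017023000c0114015b40801100040058001811bc82)))) 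
(.nd (nat_lit 29) 
(.lf (nat_lit 1476608010) (dlOf (nat_lit 6) (nat_lit 0x93005c049002c00b0007000600300848000003c01405740300258017036b0088102803c092001c0186007012d000000758380478060038002e063401101b300780ee003801bc00e000c000000e987011500b80720058013800e022c000000e604009a00000071c08191800808a80020bee00080a0483))) 
(.lf (nat_lit 6308446218) (dlOf (nat_lit 1) (nat_lit 0x1600180a0a01))))) (.nd (nat_lit 31) 
(.nd (nat_lit 6) (.nd (nat_lit 27) 
(.lf (nat_lit 5704466442) (dlOf (nat_lit 1) (nat_lit 0x1600180a0a01))) 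
(.lf (nat_lit 1812152330) (dlOf (nat_lit 2) (nat_lit 0xc00580008000003be08006800200260008160482)))) 
(.lf (nat_lit 6241340234) (dlOf (nat_lit 1) (nat_lit 0x4004000200080d5c02)))) (.nd (nat_lit 8) 
(.nd (nat_lit 9) 
(.lf (nat_lit 3691200522) (dlOf (nat_lit 11) (nat_lit 0x920150007800807180100408006001da04033602c020b01500950088016403202bc00901740000007583001900b0029c05400020090003000000750200a680b006fc05401c6022000a010808a00240130000001d30c03ae02a009e0110006008402a4032001cc08012400400af0018006ec1002b801001cc006001b2040110004000ce01000500e0007001c01740060017806009800180a0481))) 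
(.lf (nat_lit 3288547850) (dlOf (nat_lit 1) (nat_lit 0x800200220008090d82)))) 
(.lf (nat_lit 3556987146) (dlOf (nat_lit 1) (nat_lit 0x20028128081)))))) (.nd (nat_lit 8) 
(.nd (nat_lit 9) (.nd (nat_lit 6) (.nd (nat_lit 10) 
(.lf (nat_lit 4228597898) (dlOf (nat_lit 1) (nat_lit 0x180028114801))) 
(.lf (nat_lit 3489881226) (dlOf (nat_lit 1) (nat_lit 0x2000800c201)))) 
(.lf (nat_lit 6376079562) (dlOf (nat_lit 1) (nat_lit 0x24004002c0008075a02)))) (.nd (nat_lit 10) 
(.nd (nat_lit 20) (.lf (nat_lit 1208175242) (dlOf (nat_lit 1) (nat_lit 0x400200020008095482))) 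
(.lf (nat_lit 6376606346) (dlOf (nat_lit 1) (nat_lit 0x400200020008095482)))) 
(.lf (nat_lit 4160968330) (dlOf (nat_lit 2) (nat_lit 0x160158001806800048080110004003c00080a9e02))))) 
(.nd (nat_lit 26) (.nd (nat_lit 10) (.nd (nat_lit 28) 
(.lf (nat_lit 1610826122) (dlOf (nat_lit 2) (nat_lit 0x2035000b0018091000))) 
(.lf (nat_lit 4026745226) (dlOf (nat_lit 1) (nat_lit 0x48008002c002001c0008090783)))) 
(.lf (nat_lit 5637358986) (dlOf (nat_lit 1) (nat_lit 0x4002000400080d3602)))) (.nd (nat_lit 11) 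
(.lf (nat_lit 3288547722) (dlOf (nat_lit 1) (nat_lit 0x48008002c002001c0008090783))) 
(.lf (nat_lit 1543719306) (dlOf (nat_lit 1) (nat_lit 0x400200020008144e82))))))) (.nd (nat_lit 28) 
(.nd (nat_lit 8) (.nd (nat_lit 9) (.nd (nat_lit 27) 
(.lf (nat_lit 3288547370) (dlOf (nat_lit 1) (nat_lit 0x80028090001))) 
(.lf (nat_lit 1812152362) (dlOf (nat_lit 1) (nat_lit 0x20018160501)))) (.nd (nat_lit 6) 
(.lf (nat_lit 1611350570) (dlOf (nat_lit 2) (nat_lit 0xe80000002604018c00200400008138982))) 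
(.lf (nat_lit 5436033642) (dlOf (nat_lit 1) (nat_lit 0x8008000400200020008095383))))) 
(.nd (nat_lit 6) (.nd (nat_lit 7) 
(.lf (nat_lit 3422769962) (dlOf (nat_lit 1) (nat_lit 0x7000180a8f81))) (.nd (nat_lit 26) 
(.lf (nat_lit 1610826154) (dlOf (nat_lit 3) (nat_lit 0x6813000e406a0015604009a03500066818091000))) 
(.lf (nat_lit 3288547754) (dlOf (nat_lit 2) (nat_lit 0x3017001d00080008008001800200260008090783))))) 
(.lf (nat_lit 3288547818) (dlOf (nat_lit 1) (nat_lit 0x178008003800200220008090d03))))) 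
(.nd (nat_lit 12) (.nd (nat_lit 19) (.nd (nat_lit 6) (.nd (nat_lit 20) 
(.lf (nat_lit 1476608042) (dlOf (nat_lit 15) (nat_lit 0x25a045010101b002080d0000da0c00d808a0006902004c045000338100c2022800180d4000405e0002021000330400cd022800188080568114000c20402e408a0006002013603f001f01b000080b40120000000240800180000001181005501f802080d8000400000022060246045011001f806900d800f0000000210800480000001001001e00000007c0802f0114034407e005403600230000000002000a000800f8002004800080a0683))) 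
(.lf (nat_lit 3490922538) (dlOf (nat_lit 1) (nat_lit 0x1a0008030b01)))) 
(.lf (nat_lit 4026745322) (dlOf (nat_lit 1) (nat_lit 0x178008003800200220008090d03)))) 
(.nd (nat_lit 26) (.nd (nat_lit 27) 
(.lf (nat_lit 1343963178) (dlOf (nat_lit 1) (nat_lit 0x20028380d81))) 
(.lf (nat_lit 5773148202) (dlOf (nat_lit 1) (nat_lit 0x4e00080a0a01)))) 
(.lf (nat_lit 4095426602) (dlOf (nat_lit 1) (nat_lit 0x80080004002000200080b0c83))))) 
(.nd (nat_lit 6) (.nd (nat_lit 8) 
(.lf (nat_lit 3556987562) (dlOf (nat_lit 1) (nat_lit 0xc000800a0002005a0008128c83))) 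
(.lf (nat_lit 3556988842) (dlOf (nat_lit 2) (nat_lit 0x80880002c04000c0040004001812a382)))) 
(.nd (nat_lit 7) (.nd (nat_lit 11) 
(.lf (nat_lit 3556986986) (dlOf (nat_lit 2) (nat_lit 0x1180fc008cc0400e400200280008127d82))) 
(.lf (nat_lit 3556989034) (dlOf (nat_lit 2) (nat_lit 0x480fc00000040160004002a000812a882)))) 
(.lf (nat_lit 3556989162) (dlOf (nat_lit 4) (nat_lit 0x480e0000e80400080700006202000203800040110000001003d000800d80020040000812a903))))))))) 
(.nd (nat_lit 28) (.nd (nat_lit 29) (.nd (nat_lit 19) (.nd (nat_lit 20) (.nd (nat_lit 22) 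
(.nd (nat_lit 31) (.nd (nat_lit 6) (.nd (nat_lit 8) 
(.lf (nat_lit 19349514) (dlOf (nat_lit 1) (nat_lit 0x20008001400200020008990583))) 
(.lf (nat_lit 8868618) (dlOf (nat_lit 1) (nat_lit 0x60028518f81)))) 
(.lf (nat_lit 1074220618) (dlOf (nat_lit 1) (nat_lit 0x2800280f7181)))) (.nd (nat_lit 5) 
(.lf (nat_lit 6510034954) (dlOf (nat_lit 2) (nat_lit 0xa004c001680200020018190581))) 
(.nd (nat_lit 7) (.lf (nat_lit 6442926122) (dlOf (nat_lit 1) (nat_lit 0x20028230601))) 
(.lf (nat_lit 3221701034) (dlOf (nat_lit 1) (nat_lit 0xa0008001800200240008170783)))))) 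
(.nd (nat_lit 25) (.nd (nat_lit 5) 
(.lf (nat_lit 21446730) (dlOf (nat_lit 2) (nat_lit 0x3d7a0001c018a40500))) 
(.lf (nat_lit 21446698) (dlOf (nat_lit 1) (nat_lit 0x600080038002001e0008a40303)))) 
(.nd (nat_lit 21) 
(.lf (nat_lit 55001098) (dlOf (nat_lit 5) (nat_lit 0xa4b100222538048001000512c4001094e011ff0400224a7008ff01000425380477c0800b00080010002000c0009680003))) 
(.lf (nat_lit 48709642) (dlOf (nat_lit 1) (nat_lit 0x8004000c0019420002)))))) (.nd (nat_lit 6) 
(.nd (nat_lit 7) (.nd (nat_lit 21) 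
(.lf (nat_lit 9912330) (dlOf (nat_lit 1) (nat_lit 0x28008000400200060008590083))) 
(.lf (nat_lit 3620874) (dlOf (nat_lit 1) (nat_lit 0x48008004c00200200008210683)))) (.nd (nat_lit 5) 
(.lf (nat_lit 68635018) (dlOf (nat_lit 1) (nat_lit 0x5a0028664e81))) 
(.lf (nat_lit 20401066) (dlOf (nat_lit 1) (nat_lit 0x8002001200089d5d02))))) (.nd (nat_lit 5) 
(.nd (nat_lit 21) (.lf (nat_lit 35078218) (dlOf (nat_lit 1) (nat_lit 0x140018fd0601))) 
(.lf (nat_lit 37175370) (dlOf (nat_lit 1) (nat_lit 0x8200090b0601)))) 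
(.lf (nat_lit 43468394) (dlOf (nat_lit 1) (nat_lit 0x14004000200092a3902)))))) (.nd (nat_lit 21) 
(.nd (nat_lit 6) (.nd (nat_lit 5) (.nd (nat_lit 7) (.nd (nat_lit 25) 
(.lf (nat_lit 5193738) (dlOf (nat_lit 1) (nat_lit 0x8a0018320481))) 
(.lf (nat_lit 38748170) (dlOf (nat_lit 1) (nat_lit 0x80019140001)))) 
(.lf (nat_lit 2048138) (dlOf (nat_lit 1) (nat_lit 0x800807b000202e20008150103)))) 
(.lf (nat_lit 13582378) (dlOf (nat_lit 1) (nat_lit 0x20018730a01)))) (.nd (nat_lit 23) 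
(.lf (nat_lit 21971018) (dlOf (nat_lit 1) (nat_lit 0xe400400620018a80f02))) 
(.lf (nat_lit 13582410) (dlOf (nat_lit 1) (nat_lit 0x5000400020008730d02))))) (.nd (nat_lit 7) 
(.nd (nat_lit 6) (.nd (nat_lit 8) 
(.lf (nat_lit 8341002) (dlOf (nat_lit 1) (nat_lit 0x400400080018513682))) 
(.lf (nat_lit 19878154) (dlOf (nat_lit 1) (nat_lit 0x4004000400189d8082)))) (.nd (nat_lit 9) 
(.lf (nat_lit 25116746) (dlOf (nat_lit 2) (nat_lit 0x5729500015018be1480))) 
(.lf (nat_lit 3097162) (dlOf (nat_lit 1) (nat_lit 0x240018201181))))) (.nd (nat_lit 5) 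
(.nd (nat_lit 6) (.lf (nat_lit 19881354) (dlOf (nat_lit 1) (nat_lit 0x8008000c002000200089dc903))) 
(.lf (nat_lit 19878602) (dlOf (nat_lit 1) (nat_lit 0x200089d8c81)))) (.nd (nat_lit 10) 
(.lf (nat_lit 8339882) (dlOf (nat_lit 1) (nat_lit 0x400200020008511002))) 
(.lf (nat_lit 8340906) (dlOf (nat_lit 1) (nat_lit 0x400200020008513602)))))))) (.nd (nat_lit 5) 
(.nd (nat_lit 26) (.nd (nat_lit 6) (.nd (nat_lit 31) (.nd (nat_lit 32) 
(.lf (nat_lit 1611087882) (dlOf (nat_lit 7) (nat_lit 0x40b4004a0570014017800a801400fae1000300b4002405700080178004001400fac1000100b400240570002017801f5018001815c00f560400080ae0006005003ca020005002800f8008034000801e4002018200080d0003))) 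
(.lf (nat_lit 5906055178) (dlOf (nat_lit 2) (nat_lit 0xa004a001680200020018190581)))) 
(.lf (nat_lit 3758571530) (dlOf (nat_lit 2) (nat_lit 0x4802a005e78182b0280)))) 
(.lf (nat_lit 1611087946) (dlOf (nat_lit 20) (nat_lit 0x400f4000f00401200640004b0201f8032000230100fd01900011408013010400088040360064000430201d206201fb0300050017c16240b008da057049802b0086814c13c80a20b9805002c602781f6013018bc09408f80490cde02400568118076408a08e4044000c02181bf8108149808209c8040006d01c828d80e0119006a0e72033063d019026b80c41654060059402d03df016028980a8148c0520058026000801281e3009002c4046041e020000300e0078005c141c02c0b7000d03820048002001c0a0800c08e2003050200100db80040de80000004260004405801b00190001041000700c8000800418100ac112c04807b1020839c01000104070056203000990148000fc38089016003e00060003c0400300090001d010173015016b80240006e0800580b60a8405801c102b82cc015800600a2027c04c01bb02500d1812425dc090032404502e7021834d810811ec082085c04001a801f005680f406b80740c5203900f901c013080d4002006400020310259018006000ac1f5c0540c98029001e0120047804c027001e0c0800e06b40048191000c0068004034800102ff0000000d91820f80a801c00120003504063c056018002400078108123c08202a804001f4015003080a403000120003410036c02a00550048000b0100e80104000407e000220415860480010020802c00fc014407a00a803b005600800006c305a180080f6c00214b400080d0503))))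 
(.nd (nat_lit 27) (.nd (nat_lit 7) 
(.lf (nat_lit 2752987146) (dlOf (nat_lit 1) (nat_lit 0x5c00400100008070502))) 
(.lf (nat_lit 604456074) (dlOf (nat_lit 1) (nat_lit 0x8004000200182d2b02)))) (.nd (nat_lit 6) 
(.nd (nat_lit 31) 
(.lf (nat_lit 738672650) (dlOf (nat_lit 7) (nat_lit 0x40b4004a0570014017800a801401aa41000300b4002405700080178004001401aa21000100b40024057000201780353c18001815c01a7e0400080ae0006005006950200050028025e808034000801e4002018200080d0003))) 
(.lf (nat_lit 2886156298) (dlOf (nat_lit 1) (nat_lit 0x940028170481)))) 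
(.lf (nat_lit 738672714) (dlOf (nat_lit 20) (nat_lit 0x400f4000f00403f0064000490201fa0320002401002602080011c0806c00c80008c0403a40c403f606000a002f82c4816011b40ae0930056010d0298279014417300a0058c04f03ec0260317812811f009219bc04800ad02300ec811411c80880018043037f02102930104139008000da039051b01c023200d41ce40660c7a03204d701882ca80c00b2805a07be02c0513015029180a400b004c001002503c60120058808c083c040000601c00f000b8283805816e001a070400900040038141001811c40060a0400201b700081bd00000008ac000880b003600320002202000e01900010c0802400c8000840418100ac112c04807b1020839c01000104070056203000990148000fc3800c0024000780405cc05405ae0090001c82001602d82a1016007040ae0b300560018028809f013006ec0940346049097702400c901140b9c0860d36042047b0208217010006a007c015a03d01ae01d031480e403e407004c20350008019000080c40964060018002b07d7015032600a40078048011e013009c007830200381ad00120644003001a00100d200040bfc0000003846083e02a00700048000dc10089016003e00060003604063c056018002400078108123c08202a804001f4015003080a403000120003410036c02a00550048000b0100e80104000407e000220415860480010020802c00fc014407a00a803b005600800006c305a180080f6c00214b400080d0503))))))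 
(.nd (nat_lit 6) (.nd (nat_lit 21) (.nd (nat_lit 20) 
(.lf (nat_lit 2886156330) (dlOf (nat_lit 1) (nat_lit 0x1400400060018170b02))) 
(.lf (nat_lit 2752987178) (dlOf (nat_lit 3) (nat_lit 0x530000000a0080218000000180400a400200140008070802)))) 
(.nd (nat_lit 7) 
(.lf (nat_lit 2754035754) (dlOf (nat_lit 2) (nat_lit 0x4512600009008005800800a4002000400080b0d03))) 
(.lf (nat_lit 2754567082) (dlOf (nat_lit 3) (nat_lit 0x803c8008a80800401e40042a04000c004001600180fbd02))))) 
(.nd (nat_lit 8) (.nd (nat_lit 26) 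
(.lf (nat_lit 1611087978) (dlOf (nat_lit 5) (nat_lit 0x21816800d40ae00800050071883000b02d0005815c001400a00e3006001805a000c02b8004801401c5e0c00300b4001605700080028038b8180e000080350002000200080d0783))) 
(.lf (nat_lit 738672746) (dlOf (nat_lit 5) (nat_lit 0x21816800d40ae00800050040603000b02d0005815c001400a0080b06001805a000c02b80048014010140c00300b400160570008002802024180e000080350002000200080d0783)))) 
(.nd (nat_lit 10) 
(.lf (nat_lit 1678197098) (dlOf (nat_lit 1) (nat_lit 0x80080008002000200081a0703))) 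
(.lf (nat_lit 604456298) (dlOf (nat_lit 1) (nat_lit 0x80080004002000200082d3483)))))))) 
(.nd (nat_lit 5) (.nd (nat_lit 27) (.nd (nat_lit 19) (.nd (nat_lit 8) (.nd (nat_lit 20) 
(.lf (nat_lit 3020374026) (dlOf (nat_lit 2) (nat_lit 0x4802a0031e0182b0280))) 
(.lf (nat_lit 3491184650) (dlOf (nat_lit 1) (nat_lit 0x5c00400100008070502)))) (.nd (nat_lit 7) 
(.lf (nat_lit 3490139402) (dlOf (nat_lit 1) (nat_lit 0x880080004002000c0008006683))) 
(.lf (nat_lit 4094118282) (dlOf (nat_lit 1) (nat_lit 0xc004000e0008004e82))))) (.nd (nat_lit 21) 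
(.nd (nat_lit 6) (.lf (nat_lit 1343176714) (dlOf (nat_lit 1) (nat_lit 0x40028190001))) 
(.lf (nat_lit 1343176778) (dlOf (nat_lit 2) (nat_lit 0x1387b000643ce000000400820008190681)))) 
(.nd (nat_lit 7) (.lf (nat_lit 1345274378) (dlOf (nat_lit 1) (nat_lit 0x5400400680008b37b02))) 
(.lf (nat_lit 1346324874) (dlOf (nat_lit 1) (nat_lit 0x9c00402040008f04e82)))))) (.nd (nat_lit 6) 
(.nd (nat_lit 21) (.nd (nat_lit 9) 
(.lf (nat_lit 3624353802) (dlOf (nat_lit 1) (nat_lit 0x940028170481))) 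
(.lf (nat_lit 1476872714) (dlOf (nat_lit 1) (nat_lit 0xc002005600082d5002)))) (.nd (nat_lit 19) 
(.lf (nat_lit 1009205258) (dlOf (nat_lit 1) (nat_lit 0x800190a0001))) 
(.lf (nat_lit 473907210) (dlOf (nat_lit 1) (nat_lit 0xe0008fc0001))))) (.nd (nat_lit 7) 
(.nd (nat_lit 8) 
(.lf (nat_lit 470761546) (dlOf (nat_lit 1) (nat_lit 0x10008000400200040008170683))) 
(.lf (nat_lit 6376341834) (dlOf (nat_lit 2) (nat_lit 0x1b09000009c0800200080014002000e0008090c83)))) 
(.nd (nat_lit 8) (.nd (nat_lit 20) 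
(.lf (nat_lit 1476872906) (dlOf (nat_lit 1) (nat_lit 0x200282d5801))) 
(.lf (nat_lit 473385674) (dlOf (nat_lit 1) (nat_lit 0x400400020008f55802)))) 
(.lf (nat_lit 1476871114) (dlOf (nat_lit 1) (nat_lit 0x2200282d2881))))))) (.nd (nat_lit 31) 
(.nd (nat_lit 19) (.nd (nat_lit 26) (.nd (nat_lit 6) 
(.lf (nat_lit 805781546) (dlOf (nat_lit 1) (nat_lit 0x100080004002000200081a0003))) 
(.lf (nat_lit 805781866) (dlOf (nat_lit 1) (nat_lit 0x80080008002000200081a0703)))) 
(.nd (nat_lit 21) (.lf (nat_lit 5838946346) (dlOf (nat_lit 1) (nat_lit 0x20028230601))) 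
(.lf (nat_lit 1009205290) (dlOf (nat_lit 1) (nat_lit 0x280080028002000a00090a0203))))) 
(.nd (nat_lit 6) (.nd (nat_lit 26) 
(.lf (nat_lit 1343176746) (dlOf (nat_lit 5) (nat_lit 0x581e700400bf0000b010011079c00582fc00f40000001583003000000001808006000000006040010004000a0008190382))) 
(.lf (nat_lit 1007632426) (dlOf (nat_lit 1) (nat_lit 0x800400040018560382)))) 
(.lf (nat_lit 6376341738) (dlOf (nat_lit 1) (nat_lit 0x40008002c00200320008090a83))))) 
(.nd (nat_lit 6) (.nd (nat_lit 8) (.nd (nat_lit 20) (.nd (nat_lit 21) 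
(.lf (nat_lit 3624353834) (dlOf (nat_lit 1) (nat_lit 0x1400400060018170b02))) 
(.lf (nat_lit 3492233258) (dlOf (nat_lit 2) (nat_lit 0x408d00004c040020004007c00180b0e02)))) 
(.lf (nat_lit 3491184682) (dlOf (nat_lit 3) (nat_lit 0x10450000fc0800202280000004001c00200060008070882)))) 
(.lf (nat_lit 3490139434) (dlOf (nat_lit 2) (nat_lit 0x41160001e0200060028006801)))) 
(.nd (nat_lit 7) (.lf (nat_lit 3490139498) (dlOf (nat_lit 1) (nat_lit 0x400200020008006b02))) 
(.nd (nat_lit 8) (.lf (nat_lit 3490139370) (dlOf (nat_lit 1) (nat_lit 0xdc0008006501))) 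
(.lf (nat_lit 3490660842) (dlOf (nat_lit 5) (nat_lit 0x20c1e6000110100900f3000078080478798000380402143cc0001b02000a0028017301))))))))))))

end

end Pool.Agent.Lib.MP_5854e1_co.Cz
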