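import Pool.Agent.Lib.MP_5854e1_co.DecRow

/-!
# Sparse corrections
-/

set_option autoImplicit false
set_option maxRecDepth 100000

namespace Pool.Agent.Lib.MP_5854e1_co.Cz

noncomputable section

noncomputable def tz163 : DT := (.nd (nat_lit 3) (.nd (nat_lit 5) (.nd (nat_lit 18) 
(.nd (nat_lit 16) (.nd (nat_lit 6) (.nd (nat_lit 27) (.nd (nat_lit 21) (.nd (nat_lit 26) 
(.nd (nat_lit 19) (.nd (nat_lit 30) (.nd (nat_lit 20) 
(.lf (nat_lit 2952937478) (dlOf (nat_lit 3) (nat_lit 0x9600400ddf01010e002006d38080090008006000200300008030003))) 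
(.lf (nat_lit 30556166) (dlOf (nat_lit 2) (nat_lit 0x457c000270080008008000800200040008e40483)))) 
(.nd (nat_lit 8) 
(.lf (nat_lit 5368856582) (dlOf (nat_lit 2) (nat_lit 0x1b00a801a005000b8022003000e001b002806d38280048008001400200120008040003))) 
(.lf (nat_lit 3221376262) (dlOf (nat_lit 2) (nat_lit 0x1602f00012818116680))))) (.nd (nat_lit 7) 
(.nd (nat_lit 20) 
(.lf (nat_lit 3221897222) (dlOf (nat_lit 3) (nat_lit 0x18811800f1004024c08c0000002000200081b0001))) 
(.lf (nat_lit 31080454) (dlOf (nat_lit 1) (nat_lit 0x90002001a0008e70002)))) 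
(.lf (nat_lit 9066118) (dlOf (nat_lit 1) (nat_lit 0x8008001000200020008519e03))))) (.nd (nat_lit 8) 
(.nd (nat_lit 28) 
(.lf (nat_lit 604127238) (dlOf (nat_lit 2) (nat_lit 0xe00b000480000369c080004002002a0008030002))) 
(.nd (nat_lit 29) (.lf (nat_lit 2483175430) (dlOf (nat_lit 1) (nat_lit 0xd800400140018060002))) 
(.lf (nat_lit 5167529990) (dlOf (nat_lit 2) (nat_lit 0x980a003788040014004000a0018080002))))) 
(.lf (nat_lit 872563974) (dlOf (nat_lit 1) (nat_lit 0x8008000400200020008092f83))))) 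
(.nd (nat_lit 8) (.nd (nat_lit 19) (.nd (nat_lit 7) 
(.lf (nat_lit 44187654) (dlOf (nat_lit 1) (nat_lit 0x200292d0001))) 
(.lf (nat_lit 20076166) (dlOf (nat_lit 1) (nat_lit 0x7c004001200089d9e02)))) (.nd (nat_lit 20) 
(.lf (nat_lit 23740422) (dlOf (nat_lit 1) (nat_lit 0x8008000400200020008b80003))) 
(.lf (nat_lit 45760518) (dlOf (nat_lit 1) (nat_lit 0x20019360001))))) (.nd (nat_lit 7) 
(.nd (nat_lit 22) (.lf (nat_lit 35800326) (dlOf (nat_lit 1) (nat_lit 0x400200020009012f82))) 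
(.lf (nat_lit 48383238) (dlOf (nat_lit 1) (nat_lit 0x20009402f81)))) 
(.lf (nat_lit 20073350) (dlOf (nat_lit 1) (nat_lit 0x3a00080004002000600089d5c03)))))) 
(.nd (nat_lit 30) (.nd (nat_lit 28) (.nd (nat_lit 26) (.nd (nat_lit 8) 
(.lf (nat_lit 4966203398) (dlOf (nat_lit 1) (nat_lit 0x2c0018040001))) 
(.lf (nat_lit 671237894) (dlOf (nat_lit 2) (nat_lit 0x100250002b818143b80)))) (.nd (nat_lit 29) 
(.lf (nat_lit 2348957702) (dlOf (nat_lit 1) (nat_lit 0xd800400140018060002))) 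
(.lf (nat_lit 5033312262) (dlOf (nat_lit 1) (nat_lit 0x2c0018040001))))) (.nd (nat_lit 7) 
(.nd (nat_lit 8) (.lf (nat_lit 470958086) (dlOf (nat_lit 1) (nat_lit 0x1000400020008210282))) 
(.lf (nat_lit 473579782) (dlOf (nat_lit 1) (nat_lit 0x2400400180008f63582)))) 
(.lf (nat_lit 3154264198) (dlOf (nat_lit 1) (nat_lit 0x400200020008143b02))))) (.nd (nat_lit 19) 
(.nd (nat_lit 8) (.nd (nat_lit 7) 
(.lf (nat_lit 5503074310) (dlOf (nat_lit 2) (nat_lit 0x1b00a801a005000b8022003000e001b002805f88280048008001400200120008040003))) 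
(.lf (nat_lit 3892461702) (dlOf (nat_lit 1) (nat_lit 0x400200020008143b02)))) (.nd (nat_lit 10) 
(.lf (nat_lit 3959572742) (dlOf (nat_lit 2) (nat_lit 0x2040a6000e30200020028114b81))) 
(.lf (nat_lit 1275217158) (dlOf (nat_lit 1) (nat_lit 0x20028092f81))))) (.nd (nat_lit 7) 
(.nd (nat_lit 26) 
(.lf (nat_lit 3892985862) (dlOf (nat_lit 3) (nat_lit 0x2054001f028800b813c027080c00040580000002000c00282c0001))) 
(.lf (nat_lit 3960094726) (dlOf (nat_lit 3) (nat_lit 0x18811801a2a04024c08c0000002000200081b0001)))) 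
(.lf (nat_lit 6377062534) (dlOf (nat_lit 1) (nat_lit 0x1d400080a2281))))))) (.nd (nat_lit 19) 
(.nd (nat_lit 7) (.nd (nat_lit 20) (.nd (nat_lit 8) (.nd (nat_lit 23) (.nd (nat_lit 26) 
(.lf (nat_lit 1476542534) (dlOf (nat_lit 1) (nat_lit 0x58008002c002001a0008050603))) 
(.lf (nat_lit 604127302) (dlOf (nat_lit 3) (nat_lit 0x90218000740800d804801bc0000001c0400120008030601)))) 
(.lf (nat_lit 25313350) (dlOf (nat_lit 2) (nat_lit 0xbfc8b0048e1c00002e080074004000a0008bf0c82)))) 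
(.lf (nat_lit 39994694) (dlOf (nat_lit 1) (nat_lit 0x15400191f3301)))) (.nd (nat_lit 9) 
(.lf (nat_lit 24264774) (dlOf (nat_lit 1) (nat_lit 0x20028b90e01))) 
(.lf (nat_lit 9585222) (dlOf (nat_lit 2) (nat_lit 0x5a74c0000f018578d00))))) (.nd (nat_lit 8) 
(.nd (nat_lit 10) 
(.lf (nat_lit 13779142) (dlOf (nat_lit 1) (nat_lit 0x30008000400200060008750403))) 
(.lf (nat_lit 1543654598) (dlOf (nat_lit 2) (nat_lit 0x1202500030110000c8100068008002400200120008146383)))) 
(.nd (nat_lit 10) 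
(.lf (nat_lit 3221380038) (dlOf (nat_lit 5) (nat_lit 0x2600bc0042204018405e0021002004402f001028100a501780080808014000801b00020018000811be03))) 
(.lf (nat_lit 3959576518) (dlOf (nat_lit 2) (nat_lit 0x6802f002a501811a600)))))) (.nd (nat_lit 20) 
(.nd (nat_lit 26) (.nd (nat_lit 7) (.nd (nat_lit 8) 
(.lf (nat_lit 4866118) (dlOf (nat_lit 2) (nat_lit 0x203ef000b000000070100280008002c002000800082d0603))) 
(.lf (nat_lit 51003718) (dlOf (nat_lit 1) (nat_lit 0x34004001a00094e8702)))) 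
(.lf (nat_lit 9065158) (dlOf (nat_lit 1) (nat_lit 0x400200020008518c82)))) (.nd (nat_lit 28) 
(.nd (nat_lit 29) 
(.lf (nat_lit 4362747974) (dlOf (nat_lit 2) (nat_lit 0x5680cc0009c040004004001a00080f1882))) 
(.lf (nat_lit 1678393414) (dlOf (nat_lit 2) (nat_lit 0x4580ac009e05300fe01900a5804c00600000004e0a008e0028201881)))) 
(.nd (nat_lit 7) 
(.lf (nat_lit 1409957958) (dlOf (nat_lit 1) (nat_lit 0x80080004002000200080a0e03))) 
(.lf (nat_lit 6378111430) (dlOf (nat_lit 2) (nat_lit 0xb01d000868080048008000800200160008117003)))))) 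
(.nd (nat_lit 9) (.nd (nat_lit 7) 
(.lf (nat_lit 5773082694) (dlOf (nat_lit 1) (nat_lit 0x400080a1681))) (.nd (nat_lit 24) 
(.lf (nat_lit 41567430) (dlOf (nat_lit 2) (nat_lit 0x3c000000060080008008000400200020009242d03))) 
(.lf (nat_lit 58344646) (dlOf (nat_lit 4) (nat_lit 0x1299f000fcb2a0002e04002a67e0019333800796540003a0c0054cf800c4666003a332809616500000010074c00400f000197e2d02))))) 
(.nd (nat_lit 11) (.nd (nat_lit 26) 
(.lf (nat_lit 3491381830) (dlOf (nat_lit 2) (nat_lit 0x1d06d800098080008008000400200020008091103))) 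
(.lf (nat_lit 2753184326) (dlOf (nat_lit 2) (nat_lit 0x1d066800098080008008000400200020008091103)))) 
(.lf (nat_lit 1345997382) (dlOf (nat_lit 1) (nat_lit 0x8e0008e25201)))))))) (.nd (nat_lit 28) 
(.nd (nat_lit 21) (.nd (nat_lit 6) (.nd (nat_lit 27) (.nd (nat_lit 19) (.nd (nat_lit 7) 
(.nd (nat_lit 23) 
(.lf (nat_lit 2755870726) (dlOf (nat_lit 4) (nat_lit 0x1103c8076940800101e403b460400440f201d4202001800281b0001))) 
(.lf (nat_lit 29573126) (dlOf (nat_lit 1) (nat_lit 0x400200020008e20282)))) 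
(.lf (nat_lit 9650310) (dlOf (nat_lit 1) (nat_lit 0x800400180018570e02)))) (.nd (nat_lit 8) 
(.lf (nat_lit 21708806) (dlOf (nat_lit 2) (nat_lit 0x8d6900024b40002f010014800800d400200820008a60583))) 
(.lf (nat_lit 9126150) (dlOf (nat_lit 1) (nat_lit 0x20028524801))))) (.nd (nat_lit 19) 
(.nd (nat_lit 7) (.nd (nat_lit 8) 
(.lf (nat_lit 1812152326) (dlOf (nat_lit 2) (nat_lit 0xd00e00028000017f808002c002000e0008160002))) 
(.lf (nat_lit 2818789638) (dlOf (nat_lit 1) (nat_lit 0x20028128081)))) 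
(.lf (nat_lit 1275281542) (dlOf (nat_lit 2) (nat_lit 0xc00a000000080030008000c002000600080c0e03)))) 
(.nd (nat_lit 11) (.lf (nat_lit 2819309574) (dlOf (nat_lit 1) (nat_lit 0x1400400060018230282))) 
(.lf (nat_lit 134957062) (dlOf (nat_lit 1) (nat_lit 0xc0004001c00080f4702)))))) (.nd (nat_lit 7) 
(.nd (nat_lit 10) (.nd (nat_lit 11) 
(.lf (nat_lit 13320262) (dlOf (nat_lit 3) (nat_lit 0x8000000a204019d2a800c88d2006246280331f88019cf8800c0793005b3b5002d9d300168e5e00b6715005a375802d9a580160d0c00063db000270e8721880))) 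
(.lf (nat_lit 1677940806) (dlOf (nat_lit 1) (nat_lit 0x8800800040020002000811a683)))) 
(.lf (nat_lit 2885895238) (dlOf (nat_lit 1) (nat_lit 0x80028142881)))) (.nd (nat_lit 8) 
(.nd (nat_lit 9) (.lf (nat_lit 9126086) (dlOf (nat_lit 1) (nat_lit 0x1c0028523901))) 
(.lf (nat_lit 217798) (dlOf (nat_lit 1) (nat_lit 0x400200020008008c82)))) 
(.lf (nat_lit 3288547782) (dlOf (nat_lit 1) (nat_lit 0x40028090901)))))) (.nd (nat_lit 7) 
(.nd (nat_lit 9) (.nd (nat_lit 8) 
(.lf (nat_lit 28000262) (dlOf (nat_lit 1) (nat_lit 0x240008d50001))) (.nd (nat_lit 19) 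
(.lf (nat_lit 31671558) (dlOf (nat_lit 1) (nat_lit 0x9800400220008e92f82))) 
(.lf (nat_lit 36390150) (dlOf (nat_lit 1) (nat_lit 0x20019072f81))))) (.nd (nat_lit 6) 
(.lf (nat_lit 2753774086) (dlOf (nat_lit 3) (nat_lit 0x4384001680200061c20000e018090d80))) 
(.nd (nat_lit 11) (.lf (nat_lit 23282246) (dlOf (nat_lit 2) (nat_lit 0xec1900027818b81100))) 
(.lf (nat_lit 32197190) (dlOf (nat_lit 1) (nat_lit 0x1c0018ef5201)))))) (.nd (nat_lit 9) 
(.nd (nat_lit 8) (.nd (nat_lit 20) 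
(.lf (nat_lit 23281798) (dlOf (nat_lit 1) (nat_lit 0x8008000800200140008b80103))) 
(.lf (nat_lit 11747462) (dlOf (nat_lit 1) (nat_lit 0x4002003800086c0102)))) 
(.lf (nat_lit 36915590) (dlOf (nat_lit 1) (nat_lit 0x4002000e0009074e82)))) (.nd (nat_lit 6) 
(.nd (nat_lit 8) (.lf (nat_lit 20141702) (dlOf (nat_lit 1) (nat_lit 0x4002000400089d9e02))) 
(.lf (nat_lit 8082310) (dlOf (nat_lit 1) (nat_lit 0x400400020008519002)))) 
(.lf (nat_lit 20140742) (dlOf (nat_lit 1) (nat_lit 0x1200080028002005200089d8c83))))))) 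
(.nd (nat_lit 29) (.nd (nat_lit 30) (.nd (nat_lit 6) (.nd (nat_lit 8) (.nd (nat_lit 20) 
(.lf (nat_lit 2416132102) (dlOf (nat_lit 1) (nat_lit 0x400400020008090002))) 
(.lf (nat_lit 471023622) (dlOf (nat_lit 1) (nat_lit 0x1000200020008240282)))) 
(.lf (nat_lit 402867462) (dlOf (nat_lit 1) (nat_lit 0x20028092f81)))) (.nd (nat_lit 27) 
(.lf (nat_lit 2416132678) (dlOf (nat_lit 1) (nat_lit 0x9c00400360018091102))) 
(.lf (nat_lit 2550350406) (dlOf (nat_lit 1) (nat_lit 0x9c00400360018091102))))) (.nd (nat_lit 11) 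
(.nd (nat_lit 19) 
(.lf (nat_lit 5704466438) (dlOf (nat_lit 2) (nat_lit 0xc036000bc02000c00280a0581))) 
(.lf (nat_lit 1343963142) (dlOf (nat_lit 1) (nat_lit 0x20028380481)))) (.nd (nat_lit 7) 
(.lf (nat_lit 3493021702) (dlOf (nat_lit 2) (nat_lit 0x30460002822c0009e080010002000200080f4702))) 
(.lf (nat_lit 1409506182) (dlOf (nat_lit 1) (nat_lit 0x40040002000800bc82)))))) (.nd (nat_lit 27) 
(.nd (nat_lit 8) (.nd (nat_lit 30) 
(.lf (nat_lit 2953003014) (dlOf (nat_lit 2) (nat_lit 0x1700700000004017800400ae0008080002))) 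
(.lf (nat_lit 4026744838) (dlOf (nat_lit 1) (nat_lit 0x80008090001)))) (.nd (nat_lit 6) 
(.lf (nat_lit 4094905094) (dlOf (nat_lit 1) (nat_lit 0x20028055b01))) 
(.lf (nat_lit 4026745286) (dlOf (nat_lit 1) (nat_lit 0x40028090901))))) (.nd (nat_lit 7) 
(.nd (nat_lit 19) (.nd (nat_lit 30) 
(.lf (nat_lit 939737094) (dlOf (nat_lit 2) (nat_lit 0xd00e0002800000cce08002c002000e0008160002))) 
(.lf (nat_lit 6308446214) (dlOf (nat_lit 2) (nat_lit 0xc036000bd02000c00280a0581)))) 
(.lf (nat_lit 3154853894) (dlOf (nat_lit 5) (nat_lit 0x1800002bec040008000015ed02000a04f001000a004e841000300140261a04003800400020018350002)))) 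
(.nd (nat_lit 9) (.lf (nat_lit 6377128070) (dlOf (nat_lit 1) (nat_lit 0x4002000200080a2282))) 
(.lf (nat_lit 4160968326) (dlOf (nat_lit 2) (nat_lit 0x680ac0004804002c004002400080a9e02))))))))) 
(.nd (nat_lit 6) (.nd (nat_lit 16) (.nd (nat_lit 21) (.nd (nat_lit 19) (.nd (nat_lit 26) 
(.nd (nat_lit 22) (.nd (nat_lit 20) 
(.lf (nat_lit 6442860550) (dlOf (nat_lit 1) (nat_lit 0x400181e0001))) 
(.lf (nat_lit 1343635462) (dlOf (nat_lit 1) (nat_lit 0x180080024002000c00082d0283)))) 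
(.nd (nat_lit 23) (.lf (nat_lit 3494264838) (dlOf (nat_lit 1) (nat_lit 0x200181e0001))) 
(.lf (nat_lit 12992518) (dlOf (nat_lit 1) (nat_lit 0x3c002000e00086f0002))))) (.nd (nat_lit 27) 
(.nd (nat_lit 22) (.nd (nat_lit 28) 
(.lf (nat_lit 4362485766) (dlOf (nat_lit 2) (nat_lit 0x2023801e48080038008001800200280008090003))) 
(.lf (nat_lit 3557179398) (dlOf (nat_lit 1) (nat_lit 0x400200020008140002)))) 
(.lf (nat_lit 2756067334) (dlOf (nat_lit 1) (nat_lit 0x200181e0001)))) (.nd (nat_lit 28) 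
(.lf (nat_lit 3959832582) (dlOf (nat_lit 1) (nat_lit 0x50008000c00200080008170003))) 
(.lf (nat_lit 5838880774) (dlOf (nat_lit 1) (nat_lit 0x400181e0001)))))) (.nd (nat_lit 24) 
(.nd (nat_lit 7) (.nd (nat_lit 20) 
(.lf (nat_lit 68042758) (dlOf (nat_lit 1) (nat_lit 0xa00183b0001))) 
(.lf (nat_lit 39731206) (dlOf (nat_lit 1) (nat_lit 0x200091e0001)))) 
(.lf (nat_lit 5773344902) (dlOf (nat_lit 1) (nat_lit 0xa00180c0e01)))) (.nd (nat_lit 7) 
(.nd (nat_lit 8) (.lf (nat_lit 22953990) (dlOf (nat_lit 1) (nat_lit 0x260008b40001))) 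
(.lf (nat_lit 18759942) (dlOf (nat_lit 1) (nat_lit 0xa0018970701)))) 
(.lf (nat_lit 60705158) (dlOf (nat_lit 1) (nat_lit 0x400198c4e81)))))) (.nd (nat_lit 24) 
(.nd (nat_lit 9) (.nd (nat_lit 7) (.nd (nat_lit 10) 
(.lf (nat_lit 15089670) (dlOf (nat_lit 1) (nat_lit 0x20008000c002000600087b0283))) 
(.lf (nat_lit 3492692998) (dlOf (nat_lit 1) (nat_lit 0x200080f2881)))) 
(.lf (nat_lit 1345210758) (dlOf (nat_lit 1) (nat_lit 0x20018b04e81)))) (.nd (nat_lit 11) 
(.lf (nat_lit 69616134) (dlOf (nat_lit 1) (nat_lit 0x400400020008b77b02))) 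
(.lf (nat_lit 3493222918) (dlOf (nat_lit 1) (nat_lit 0x400180fb281))))) (.nd (nat_lit 7) 
(.nd (nat_lit 8) (.lf (nat_lit 20335622) (dlOf (nat_lit 1) (nat_lit 0x200289d5f81))) 
(.lf (nat_lit 52839686) (dlOf (nat_lit 1) (nat_lit 0x8008000400200020009572f83)))) 
(.nd (nat_lit 22) (.lf (nat_lit 19284102) (dlOf (nat_lit 1) (nat_lit 0x400200020008970482))) 
(.lf (nat_lit 23478406) (dlOf (nat_lit 1) (nat_lit 0x20028b80101))))))) (.nd (nat_lit 21) 
(.nd (nat_lit 26) (.nd (nat_lit 32) (.nd (nat_lit 7) (.nd (nat_lit 9) 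
(.lf (nat_lit 3491708934) (dlOf (nat_lit 1) (nat_lit 0x400400020008090002))) 
(.lf (nat_lit 1476872710) (dlOf (nat_lit 1) (nat_lit 0x200282d5001)))) 
(.lf (nat_lit 1881096326) (dlOf (nat_lit 1) (nat_lit 0x120008e13b01)))) (.nd (nat_lit 28) 
(.nd (nat_lit 29) (.lf (nat_lit 6442926086) (dlOf (nat_lit 1) (nat_lit 0x20028230001))) 
(.lf (nat_lit 5906055174) (dlOf (nat_lit 2) (nat_lit 0x401700014818190580)))) 
(.lf (nat_lit 5637619718) (dlOf (nat_lit 4) (nat_lit 0xc01a000bd02001400d0005b8100030068000a40800c000803dc00200080008120583))))) 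
(.nd (nat_lit 29) (.nd (nat_lit 27) (.nd (nat_lit 28) 
(.lf (nat_lit 6510034950) (dlOf (nat_lit 2) (nat_lit 0x401700011818190580))) 
(.lf (nat_lit 3557244934) (dlOf (nat_lit 1) (nat_lit 0x3800800c000200220008170003)))) 
(.lf (nat_lit 5838946310) (dlOf (nat_lit 1) (nat_lit 0x20028230001)))) (.nd (nat_lit 11) 
(.lf (nat_lit 6241599494) (dlOf (nat_lit 4) (nat_lit 0xc01a000bc02001400d0005b81000300680008c0800c000803dc00200080008120583))) 
(.lf (nat_lit 1946634246) (dlOf (nat_lit 1) (nat_lit 0x15400280f4701)))))) (.nd (nat_lit 19) 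
(.nd (nat_lit 10) (.nd (nat_lit 9) (.nd (nat_lit 20) 
(.lf (nat_lit 27738118) (dlOf (nat_lit 1) (nat_lit 0x500080028002000a0008d20283))) 
(.lf (nat_lit 24592390) (dlOf (nat_lit 1) (nat_lit 0x60008ba0001)))) 
(.lf (nat_lit 58147334) (dlOf (nat_lit 1) (nat_lit 0x200197c7b01)))) (.nd (nat_lit 8) 
(.lf (nat_lit 473383942) (dlOf (nat_lit 1) (nat_lit 0x5400400020018f52882))) 
(.lf (nat_lit 52905222) (dlOf (nat_lit 1) (nat_lit 0x8008000400200020009572f83))))) 
(.nd (nat_lit 8) (.nd (nat_lit 9) (.nd (nat_lit 22) 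
(.lf (nat_lit 2755608582) (dlOf (nat_lit 2) (nat_lit 0xf1148007885403b4a080074004012a00181b0002))) 
(.lf (nat_lit 25116678) (dlOf (nat_lit 2) (nat_lit 0x3c3800199c080010008000400200020008be0403)))) 
(.lf (nat_lit 1345274374) (dlOf (nat_lit 1) (nat_lit 0x800400040018b37b02)))) (.nd (nat_lit 7) 
(.lf (nat_lit 54479622) (dlOf (nat_lit 1) (nat_lit 0x200009655b01))) 
(.lf (nat_lit 19876742) (dlOf (nat_lit 1) (nat_lit 0x4002000200089d5c02)))))))) (.nd (nat_lit 19) 
(.nd (nat_lit 16) (.nd (nat_lit 7) (.nd (nat_lit 9) (.nd (nat_lit 20) (.nd (nat_lit 26) 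
(.lf (nat_lit 4026941510) (dlOf (nat_lit 2) (nat_lit 0x290100014802c0002e0800b4004004800080d0c82))) 
(.lf (nat_lit 3288744006) (dlOf (nat_lit 2) (nat_lit 0x290100014802c0002e0800b4004004800080d0c82)))) 
(.nd (nat_lit 8) 
(.lf (nat_lit 26624070) (dlOf (nat_lit 2) (nat_lit 0x8a98400312f60001b04000a0018c50601))) 
(.lf (nat_lit 11944262) (dlOf (nat_lit 1) (nat_lit 0x200186c0601))))) (.nd (nat_lit 26) 
(.lf (nat_lit 134627910) (dlOf (nat_lit 4) (nat_lit 0x41c023007a00a80004e0802e0094018004600b8017805880300004c100008094000240200ca0018091101))) 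
(.lf (nat_lit 201736774) (dlOf (nat_lit 4) (nat_lit 0x41c023007a00a80004e0802e0094018004600b8017805880300004c100008094000240200ca0018091101))))) 
(.nd (nat_lit 30) (.nd (nat_lit 8) 
(.lf (nat_lit 14041286) (dlOf (nat_lit 1) (nat_lit 0x8008000400200020008750403))) (.nd (nat_lit 21) 
(.lf (nat_lit 4362486214) (dlOf (nat_lit 16) (nat_lit 0x8f00ac020c049007c01580670088000a61000100ac001002b0002902024d02b00028150045c092013602b00f40110001442804081580184056000500400060440002501005c0000001040809181540290098000204400d60150090809402f003a02520000002007024702b00888124019805601920220001e04012d02b00098124000700800140ba046805600b402a007f812400480860024040002c018803b00ac002404e018e0220001b8a009a02b0000d80812c815803a00a8024604900a6015807f80880006a1406e40ac010a0490059015802f8088000681003b40ac00033020364056008802480000010099000804c800209520008090903))) 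
(.lf (nat_lit 69616070) (dlOf (nat_lit 1) (nat_lit 0x400400020008b77002))))) (.nd (nat_lit 26) 
(.lf (nat_lit 3221635526) (dlOf (nat_lit 2) (nat_lit 0x3a80f8000400400a0004000e0008170902))) 
(.nd (nat_lit 28) 
(.lf (nat_lit 3959833030) (dlOf (nat_lit 2) (nat_lit 0x3a80f8000400400a0004000e0008170902))) 
(.lf (nat_lit 4228268486) (dlOf (nat_lit 16) (nat_lit 0x8f009e020c042007c01500670088000a610001009e001002a0002902024d02780028134045c084013602a00f401100014428040813c01840540005004000603d0002501005c000000104080918138029008a000203d00d60148090809402f003a02520000002007024702780888108019805401920220001e04012d02780098108000700800140ac046804f00b4026807f810800480780024039002c018003b00a8002404e018e0220001b8a009a0278000d80812c813c03a009a024604200a6015007f80880006a1406e409e010a0420059015002f8088000681003b409e0003302036404f008802100000010099000804c800209520008090903))))))) 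
(.nd (nat_lit 20) (.nd (nat_lit 8) (.nd (nat_lit 7) (.nd (nat_lit 9) 
(.lf (nat_lit 3557244998) (dlOf (nat_lit 2) (nat_lit 0x1400140003604002400400140018170602))) 
(.lf (nat_lit 472336966) (dlOf (nat_lit 1) (nat_lit 0x20028985201)))) 
(.lf (nat_lit 1344750790) (dlOf (nat_lit 1) (nat_lit 0x20028982d01)))) (.nd (nat_lit 26) 
(.lf (nat_lit 805781830) (dlOf (nat_lit 3) (nat_lit 0x50110001808600032040012048000a0238000b01000680080018002000800081a0603))) 
(.lf (nat_lit 1678197062) (dlOf (nat_lit 3) (nat_lit 0x50110001808600033040012048000a0238000b41000680080018002000800081a0603))))) 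
(.nd (nat_lit 7) (.nd (nat_lit 9) (.nd (nat_lit 25) 
(.lf (nat_lit 3620934) (dlOf (nat_lit 2) (nat_lit 0x50000000c008007000800f800200300008210e03))) 
(.lf (nat_lit 37175366) (dlOf (nat_lit 1) (nat_lit 0x80080018002000400090b0603)))) 
(.lf (nat_lit 2755084870) (dlOf (nat_lit 1) (nat_lit 0x20028108801)))) (.nd (nat_lit 8) 
(.lf (nat_lit 47662278) (dlOf (nat_lit 7) (nat_lit 0x53af00041d524000500800a2bc000fd54900013020093af0004ad52400030080012bc0000354900008020058af0002b55240000a080162bc000a154900440000000001800380080020002000c0009402d03))) 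
(.lf (nat_lit 58147270) (dlOf (nat_lit 6) (nat_lit 0x200000001110200178420011c2000040410000e10800070800010004000f8420007e810003c20000000080030008013c002001e00097c7003))))))) 
(.nd (nat_lit 16) (.nd (nat_lit 20) (.nd (nat_lit 31) (.nd (nat_lit 7) 
(.lf (nat_lit 42876998) (dlOf (nat_lit 1) (nat_lit 0x400400020009280602))) (.nd (nat_lit 8) 
(.lf (nat_lit 19815110) (dlOf (nat_lit 1) (nat_lit 0x580080004002001200089db983))) 
(.lf (nat_lit 19811782) (dlOf (nat_lit 2) (nat_lit 0x2561e000e302000200289d6d01))))) 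
(.nd (nat_lit 9) (.nd (nat_lit 26) 
(.lf (nat_lit 2819506246) (dlOf (nat_lit 1) (nat_lit 0x2600080008002007c00082c0083))) 
(.lf (nat_lit 3557703750) (dlOf (nat_lit 1) (nat_lit 0x2600080008002007c00082c0083)))) 
(.lf (nat_lit 2752397894) (dlOf (nat_lit 22) (nat_lit 0x3a82ba000690201b815d00ee0ae0001a0100580574000ce0403802ba000660201b015d004b0ae0001101006d857403b42b80004204013415d000208100db0ae805885700008008030c2ba0003f02004c15d0001f010009102005d05a405642b2039215700012040068102004185a405742b203a0157000118401620ac800088080100564000420405642b2039e157000100201350ac80007c08095856406782ae0001e0402ce15901c40ab80007410073856404402ae0001c0401921590000d8100420ab800068080038008009400200b60008018d03))))) 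
(.nd (nat_lit 9) (.nd (nat_lit 8) (.nd (nat_lit 10) 
(.lf (nat_lit 14565446) (dlOf (nat_lit 2) (nat_lit 0xc98a0001d02007c0028770601))) 
(.lf (nat_lit 471749702) (dlOf (nat_lit 2) (nat_lit 0x4057000270183d9300)))) (.nd (nat_lit 26) 
(.lf (nat_lit 3493740870) (dlOf (nat_lit 2) (nat_lit 0xa814c0008e040020004002800081b0602))) 
(.lf (nat_lit 2755543366) (dlOf (nat_lit 1) (nat_lit 0x4004000200181b0602))))) (.nd (nat_lit 11) 
(.nd (nat_lit 26) 
(.lf (nat_lit 3491643974) (dlOf (nat_lit 2) (nat_lit 0x301100004c04000400400040008091102))) 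
(.lf (nat_lit 2753446470) (dlOf (nat_lit 2) (nat_lit 0x301100004c04000400400040008091102)))) 
(.lf (nat_lit 31345222) (dlOf (nat_lit 1) (nat_lit 0x3e0028e95201)))))) (.nd (nat_lit 28) 
(.nd (nat_lit 8) (.nd (nat_lit 20) 
(.lf (nat_lit 21971014) (dlOf (nat_lit 2) (nat_lit 0xe4580003004001000400080018a80e82))) 
(.nd (nat_lit 21) 
(.lf (nat_lit 14630982) (dlOf (nat_lit 3) (nat_lit 0x13a400000740800e52000003804001c002000e0008770602))) 
(.lf (nat_lit 20922438) (dlOf (nat_lit 1) (nat_lit 0x100080004002000200089f0583))))) 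
(.nd (nat_lit 7) (.lf (nat_lit 19876678) (dlOf (nat_lit 1) (nat_lit 0x4002000200089d5c02))) 
(.lf (nat_lit 3097030) (dlOf (nat_lit 1) (nat_lit 0x80028200901))))) (.nd (nat_lit 26) 
(.nd (nat_lit 29) 
(.lf (nat_lit 1343176774) (dlOf (nat_lit 14) (nat_lit 0x24c442012e21f00960f60042879c02d433a00d219b008d0c2800b860c020430000c20000000e0a01bf11080e4087c071c3d8035e1e701de0ce80c8066c06f030a0362180018b00000006c48013879c0440000000180400a41ec00790f3802005f80002a0c02e43d8015e1e700220c0002585f80184000000140a00b61ec00290c0002485f8000260c01643d80010185000088200a20f380004008003879c0001e0400243d80000b020188000000020100b410f8048066c02c43000170000000018400030f380000008018000800fc00200180008190603))) 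
(.lf (nat_lit 1880047686) (dlOf (nat_lit 1) (nat_lit 0x1400400020008560602)))) (.nd (nat_lit 8) 
(.lf (nat_lit 1007632454) (dlOf (nat_lit 1) (nat_lit 0xfc00400280008560602))) 
(.lf (nat_lit 6376341830) (dlOf (nat_lit 3) (nat_lit 0xc120000138100b4090000090080020008001c00200100008090c83)))))))))) 
(.nd (nat_lit 16) (.nd (nat_lit 18) (.nd (nat_lit 27) (.nd (nat_lit 30) (.nd (nat_lit 23) 
(.nd (nat_lit 19) (.nd (nat_lit 26) (.nd (nat_lit 6) (.nd (nat_lit 7) 
(.lf (nat_lit 2952937510) (dlOf (nat_lit 1) (nat_lit 0x8008011000200420008030283))) 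
(.lf (nat_lit 35800230) (dlOf (nat_lit 1) (nat_lit 0x40009012c01)))) 
(.lf (nat_lit 38945894) (dlOf (nat_lit 1) (nat_lit 0x98008005000200180009192983)))) 
(.nd (nat_lit 7) (.nd (nat_lit 28) 
(.lf (nat_lit 604127270) (dlOf (nat_lit 1) (nat_lit 0x2400200040008030282))) 
(.lf (nat_lit 2483175462) (dlOf (nat_lit 1) (nat_lit 0xc0008060581)))) 
(.lf (nat_lit 4899094694) (dlOf (nat_lit 1) (nat_lit 0x800400020008071382))))) (.nd (nat_lit 8) 
(.nd (nat_lit 9) (.lf (nat_lit 22691878) (dlOf (nat_lit 1) (nat_lit 0x24004001c0008b10802))) 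
(.lf (nat_lit 36325926) (dlOf (nat_lit 1) (nat_lit 0x80008004c00200220009075183)))) 
(.nd (nat_lit 9) (.lf (nat_lit 675110) (dlOf (nat_lit 1) (nat_lit 0x1000400020008006802))) 
(.lf (nat_lit 20597542) (dlOf (nat_lit 1) (nat_lit 0x4002000200089d5c02)))))) (.nd (nat_lit 7) 
(.nd (nat_lit 25) (.nd (nat_lit 6) 
(.lf (nat_lit 8538406) (dlOf (nat_lit 2) (nat_lit 0x33f800038c080010008000c00200020008514b83))) 
(.lf (nat_lit 8543334) (dlOf (nat_lit 1) (nat_lit 0xc000851c081)))) (.nd (nat_lit 9) 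
(.lf (nat_lit 47333414) (dlOf (nat_lit 1) (nat_lit 0x3800093d0a81))) 
(.lf (nat_lit 42093094) (dlOf (nat_lit 1) (nat_lit 0xa0019245181))))) (.nd (nat_lit 8) 
(.nd (nat_lit 10) (.lf (nat_lit 9584806) (dlOf (nat_lit 1) (nat_lit 0x400400020008571382))) 
(.lf (nat_lit 48383142) (dlOf (nat_lit 5) (nat_lit 0x6f9a003a7410002f8200173a080071c2400140000005d0600407410002a0100163a080011408001800800ec00200160009402c03)))) 
(.lf (nat_lit 8536486) (dlOf (nat_lit 1) (nat_lit 0x20018511001)))))) (.nd (nat_lit 28) 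
(.nd (nat_lit 8) (.nd (nat_lit 19) (.nd (nat_lit 26) 
(.lf (nat_lit 5368856614) (dlOf (nat_lit 2) (nat_lit 0xb00540018008000a90400040018040201))) 
(.lf (nat_lit 3288481830) (dlOf (nat_lit 4) (nat_lit 0x60036000b0158000901000c80d80004604001406c000130200560028030a01)))) 
(.lf (nat_lit 3221897254) (dlOf (nat_lit 5) (nat_lit 0x4002b0001c8080048154000de04001c0ac0001b020012051000000181b0500)))) 
(.nd (nat_lit 6) 
(.lf (nat_lit 1610761510) (dlOf (nat_lit 1) (nat_lit 0x200080008002000e0008093183))) 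
(.lf (nat_lit 1677871078) (dlOf (nat_lit 1) (nat_lit 0x100028114581))))) (.nd (nat_lit 6) 
(.nd (nat_lit 8) (.nd (nat_lit 19) 
(.lf (nat_lit 4026679334) (dlOf (nat_lit 4) (nat_lit 0x60036000b0158000901000c80d80004604001406c000130200560028030a01))) 
(.lf (nat_lit 3557441574) (dlOf (nat_lit 1) (nat_lit 0x8008000400200020008200603)))) 
(.lf (nat_lit 3490336038) (dlOf (nat_lit 1) (nat_lit 0x60018006801)))) (.nd (nat_lit 10) 
(.lf (nat_lit 1344946278) (dlOf (nat_lit 3) (nat_lit 0x6414d007906c800a036000d00fa006807c000070500250a680000008016800800ec002001800089a0983))) 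
(.lf (nat_lit 1880245350) (dlOf (nat_lit 2) (nat_lit 0x201c40005a0200080018802981))))))) 
(.nd (nat_lit 28) (.nd (nat_lit 8) (.nd (nat_lit 29) (.nd (nat_lit 26) (.nd (nat_lit 30) 
(.lf (nat_lit 2281848870) (dlOf (nat_lit 1) (nat_lit 0x10008001000200060008080603))) 
(.lf (nat_lit 5503074342) (dlOf (nat_lit 2) (nat_lit 0xb00540018008000a90400040018040201)))) 
(.lf (nat_lit 2348957734) (dlOf (nat_lit 1) (nat_lit 0xc0008060581)))) (.nd (nat_lit 6) 
(.nd (nat_lit 26) 
(.lf (nat_lit 3892985894) (dlOf (nat_lit 2) (nat_lit 0x1540580002602006a00282c0781))) 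
(.lf (nat_lit 3960094758) (dlOf (nat_lit 5) (nat_lit 0x4002b0001c8080048154000de04001c0ac0001b020012051000000181b0500)))) 
(.lf (nat_lit 671238374) (dlOf (nat_lit 2) (nat_lit 0x801b0000d818144b00))))) (.nd (nat_lit 9) 
(.nd (nat_lit 11) (.lf (nat_lit 1275217190) (dlOf (nat_lit 1) (nat_lit 0x20028093181))) 
(.lf (nat_lit 134368550) (dlOf (nat_lit 1) (nat_lit 0x20028006801)))) (.nd (nat_lit 7) 
(.lf (nat_lit 671237926) (dlOf (nat_lit 1) (nat_lit 0x10002000e0008143d02))) 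
(.lf (nat_lit 201476006) (dlOf (nat_lit 1) (nat_lit 0x20028004301)))))) (.nd (nat_lit 29) 
(.nd (nat_lit 6) (.nd (nat_lit 7) 
(.lf (nat_lit 470433830) (dlOf (nat_lit 4) (nat_lit 0x3c466001022d0000a8200181188000140800708b400000040004002001c00080f0902))) 
(.nd (nat_lit 8) (.lf (nat_lit 1543654566) (dlOf (nat_lit 1) (nat_lit 0xc0008146281))) 
(.lf (nat_lit 4697768358) (dlOf (nat_lit 1) (nat_lit 0xa8002003c0008091002))))) (.nd (nat_lit 7) 
(.lf (nat_lit 1476542566) (dlOf (nat_lit 1) (nat_lit 0x240028050d01))) 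
(.lf (nat_lit 5838621926) (dlOf (nat_lit 5) (nat_lit 0x50188000d40800380d00014062004802f0001683000801a0000300800300d000080620000b04013600280f6501))))) 
(.nd (nat_lit 7) (.nd (nat_lit 8) 
(.lf (nat_lit 3154788390) (dlOf (nat_lit 2) (nat_lit 0x90160004b40801a0008006c002008c0008320d83))) 
(.lf (nat_lit 2080523558) (dlOf (nat_lit 1) (nat_lit 0x400200020008093182)))) (.nd (nat_lit 8) 
(.nd (nat_lit 9) (.lf (nat_lit 5234639014) (dlOf (nat_lit 1) (nat_lit 0xc004000e0018071482))) 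
(.lf (nat_lit 1007831718) (dlOf (nat_lit 1) (nat_lit 0x400200020008805602)))) 
(.lf (nat_lit 6378111398) (dlOf (nat_lit 1) (nat_lit 0x1c0028116e81)))))))) (.nd (nat_lit 19) 
(.nd (nat_lit 31) (.nd (nat_lit 22) (.nd (nat_lit 9) (.nd (nat_lit 29) (.nd (nat_lit 7) 
(.nd (nat_lit 20) 
(.lf (nat_lit 1409695782) (dlOf (nat_lit 2) (nat_lit 0x2028800280c80004e08002800200040008070782))) 
(.lf (nat_lit 1458214) (dlOf (nat_lit 1) (nat_lit 0x4004000200080d0582)))) 
(.lf (nat_lit 51791014) (dlOf (nat_lit 1) (nat_lit 0x2dc00200400009512c02)))) (.nd (nat_lit 28) 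
(.nd (nat_lit 30) 
(.lf (nat_lit 537280550) (dlOf (nat_lit 2) (nat_lit 0x2028800280c80002608002800200040008070782))) 
(.lf (nat_lit 5905989670) (dlOf (nat_lit 2) (nat_lit 0x3800b8000a8080020008000800200020008180583)))) 
(.lf (nat_lit 805716006) (dlOf (nat_lit 1) (nat_lit 0x80080004002000200081a0003))))) 
(.nd (nat_lit 6) (.nd (nat_lit 7) 
(.lf (nat_lit 5771774502) (dlOf (nat_lit 1) (nat_lit 0xc00400020008005182))) 
(.lf (nat_lit 20337318) (dlOf (nat_lit 1) (nat_lit 0x4002000200089d8c82)))) (.nd (nat_lit 7) 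
(.lf (nat_lit 52840038) (dlOf (nat_lit 1) (nat_lit 0x1c0019573901))) 
(.lf (nat_lit 8802278) (dlOf (nat_lit 1) (nat_lit 0xc000800f4002008e0008517a83)))))) 
(.nd (nat_lit 6) (.nd (nat_lit 7) (.nd (nat_lit 9) 
(.lf (nat_lit 12992550) (dlOf (nat_lit 6) (nat_lit 0x2198f00048af40001504008c63c001031280169834000260c0110c78001e5ad0000282001831e0000100800298f00000404001c00400e800186f0902))) 
(.lf (nat_lit 47598118) (dlOf (nat_lit 1) (nat_lit 0x420029405181)))) 
(.lf (nat_lit 474368422) (dlOf (nat_lit 1) (nat_lit 0x20029164e81)))) (.nd (nat_lit 7) 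
(.nd (nat_lit 21) 
(.lf (nat_lit 1346781286) (dlOf (nat_lit 2) (nat_lit 0x815600110a18001081000e80080004002000c0009000983))) 
(.lf (nat_lit 48644198) (dlOf (nat_lit 1) (nat_lit 0xa0019420981)))) 
(.lf (nat_lit 21381606) (dlOf (nat_lit 4) (nat_lit 0xb6140051a6e0002f040002d9000016810004699000064080130008002000200620008a37303)))))) 
(.nd (nat_lit 26) (.nd (nat_lit 10) (.nd (nat_lit 22) (.nd (nat_lit 30) 
(.lf (nat_lit 6442860582) (dlOf (nat_lit 1) (nat_lit 0xe00081e0901))) 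
(.lf (nat_lit 3221635110) (dlOf (nat_lit 2) (nat_lit 0x4046006a5818170000)))) 
(.lf (nat_lit 3494264870) (dlOf (nat_lit 6) (nat_lit 0x9814c00040a0000140400260540008028800c013800a408a001000b000098500a002a004c8144000c08a0001206000405400050288000441000700e40000a04003c004003800181e0902)))) 
(.nd (nat_lit 6) (.lf (nat_lit 3490073894) (dlOf (nat_lit 2) (nat_lit 0x408b00012018006800))) 
(.lf (nat_lit 2416332006) (dlOf (nat_lit 1) (nat_lit 0x180080004002000400080f6503))))) 
(.nd (nat_lit 27) (.nd (nat_lit 7) (.nd (nat_lit 22) 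
(.lf (nat_lit 6509969446) (dlOf (nat_lit 2) (nat_lit 0x3800b8000a8080020008000800200020008180583))) 
(.lf (nat_lit 2756067366) (dlOf (nat_lit 2) (nat_lit 0x580e40000a040044002000a00081e0902)))) 
(.lf (nat_lit 2755021990) (dlOf (nat_lit 4) (nat_lit 0x40440001901002602f0006817000080b20026040000200b0000542800a817800680b80001404013400280f6281)))) 
(.nd (nat_lit 6) 
(.lf (nat_lit 3154526246) (dlOf (nat_lit 2) (nat_lit 0x10f02a0099814404d8098027003300ae0028002c428046800802e0002022800081f0603))) 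
(.lf (nat_lit 3959832678) (dlOf (nat_lit 1) (nat_lit 0x400400020008170002))))))) (.nd (nat_lit 8) 
(.nd (nat_lit 23) (.nd (nat_lit 21) (.nd (nat_lit 22) 
(.lf (nat_lit 17711142) (dlOf (nat_lit 1) (nat_lit 0xe00088f0d81))) 
(.lf (nat_lit 21905446) (dlOf (nat_lit 1) (nat_lit 0x98008007c002000a0008a80a03)))) 
(.nd (nat_lit 6) 
(.lf (nat_lit 41830950) (dlOf (nat_lit 1) (nat_lit 0x1c0008000400200020009245183))) 
(.lf (nat_lit 19808486) (dlOf (nat_lit 1) (nat_lit 0x200089d0a81))))) (.nd (nat_lit 6) 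
(.nd (nat_lit 20) (.lf (nat_lit 13516838) (dlOf (nat_lit 1) (nat_lit 0x12c00200780008730902))) 
(.lf (nat_lit 10371110) (dlOf (nat_lit 2) (nat_lit 0x4c7f0000150185d0580)))) (.nd (nat_lit 9) 
(.lf (nat_lit 59654246) (dlOf (nat_lit 1) (nat_lit 0x70002000a0009820982))) 
(.lf (nat_lit 61752934) (dlOf (nat_lit 2) (nat_lit 0x43a96c000000400f4004015c0019923902)))))) 
(.nd (nat_lit 6) (.nd (nat_lit 10) (.nd (nat_lit 9) 
(.lf (nat_lit 537805094) (dlOf (nat_lit 1) (nat_lit 0x2000281b0501))) 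
(.lf (nat_lit 2754501414) (dlOf (nat_lit 1) (nat_lit 0x8004001400180fbc82)))) (.nd (nat_lit 7) 
(.lf (nat_lit 5772297510) (dlOf (nat_lit 1) (nat_lit 0x400200020008093182))) 
(.lf (nat_lit 8275366) (dlOf (nat_lit 1) (nat_lit 0x400200020008513602))))) (.nd (nat_lit 9) 
(.lf (nat_lit 3490595302) (dlOf (nat_lit 4) (nat_lit 0x4703cc000220202581e60001001013a0f300007408030000800e400200d40008017303))) 
(.nd (nat_lit 10) (.lf (nat_lit 3492692966) (dlOf (nat_lit 1) (nat_lit 0x200080f2881))) 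
(.lf (nat_lit 3492693990) (dlOf (nat_lit 2) (nat_lit 0x80800001402000200280f4581))))))))) 
(.nd (nat_lit 18) (.nd (nat_lit 28) (.nd (nat_lit 20) (.nd (nat_lit 8) (.nd (nat_lit 6) 
(.nd (nat_lit 9) (.nd (nat_lit 24) (.nd (nat_lit 29) 
(.lf (nat_lit 3288547366) (dlOf (nat_lit 1) (nat_lit 0xb80008090001))) 
(.lf (nat_lit 604192806) (dlOf (nat_lit 3) (nat_lit 0x1403a001400c802800480031e0c0008078000110201c20018080601)))) 
(.nd (nat_lit 19) 
(.lf (nat_lit 52641830) (dlOf (nat_lit 2) (nat_lit 0x27188000000803400080020002003e0009560783))) 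
(.lf (nat_lit 21708838) (dlOf (nat_lit 1) (nat_lit 0x80008017c00200740008a60c03))))) 
(.nd (nat_lit 11) 
(.lf (nat_lit 3288547878) (dlOf (nat_lit 2) (nat_lit 0x501b0000140800700080014002001c0008090e03))) 
(.nd (nat_lit 21) (.lf (nat_lit 1745046054) (dlOf (nat_lit 1) (nat_lit 0x500028095181))) 
(.lf (nat_lit 31672870) (dlOf (nat_lit 1) (nat_lit 0x40018e95181)))))) (.nd (nat_lit 7) 
(.lf (nat_lit 4295180390) (dlOf (nat_lit 1) (nat_lit 0x4004000200080a1382))) (.nd (nat_lit 11) 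
(.lf (nat_lit 2147696870) (dlOf (nat_lit 1) (nat_lit 0xc00180c1d81))) 
(.lf (nat_lit 671303910) (dlOf (nat_lit 2) (nat_lit 0x402c0000c018144b00)))))) (.nd (nat_lit 9) 
(.nd (nat_lit 6) (.nd (nat_lit 10) 
(.lf (nat_lit 3959638310) (dlOf (nat_lit 1) (nat_lit 0x12000200100008114b82))) 
(.lf (nat_lit 216358) (dlOf (nat_lit 1) (nat_lit 0x180080030002000a0008006803)))) (.nd (nat_lit 21) 
(.lf (nat_lit 3288547814) (dlOf (nat_lit 2) (nat_lit 0xc036000201900000c100130008008800200860008090c83))) 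
(.lf (nat_lit 23282150) (dlOf (nat_lit 1) (nat_lit 0x400200020008b80c82))))) (.nd (nat_lit 6) 
(.nd (nat_lit 7) (.lf (nat_lit 671303462) (dlOf (nat_lit 2) (nat_lit 0x4c01400000018143d00))) 
(.nd (nat_lit 27) (.lf (nat_lit 5905794982) (dlOf (nat_lit 1) (nat_lit 0x34800400140008144302))) 
(.lf (nat_lit 671303590) (dlOf (nat_lit 1) (nat_lit 0x3800200140008144302))))) 
(.lf (nat_lit 738413542) (dlOf (nat_lit 1) (nat_lit 0x400200020008095e82)))))) (.nd (nat_lit 7) 
(.nd (nat_lit 11) (.nd (nat_lit 19) (.nd (nat_lit 6) 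
(.lf (nat_lit 2752725030) (dlOf (nat_lit 2) (nat_lit 0x403fe0001c0200060018030a01))) 
(.lf (nat_lit 45302886) (dlOf (nat_lit 1) (nat_lit 0x400200020009322982)))) (.nd (nat_lit 22) 
(.lf (nat_lit 18563110) (dlOf (nat_lit 1) (nat_lit 0x60018950781))) 
(.lf (nat_lit 5980198) (dlOf (nat_lit 1) (nat_lit 0x8008000400200020008420003))))) 
(.nd (nat_lit 22) (.nd (nat_lit 6) 
(.lf (nat_lit 20138790) (dlOf (nat_lit 1) (nat_lit 0x4002000200089d5c02))) 
(.lf (nat_lit 20667494) (dlOf (nat_lit 1) (nat_lit 0x4e00189dc081)))) (.nd (nat_lit 21) 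
(.lf (nat_lit 47925798) (dlOf (nat_lit 1) (nat_lit 0x400200020009405182))) 
(.lf (nat_lit 41634342) (dlOf (nat_lit 1) (nat_lit 0x1d8008000400200020009245183)))))) 
(.nd (nat_lit 6) (.nd (nat_lit 8) (.nd (nat_lit 11) 
(.lf (nat_lit 20140710) (dlOf (nat_lit 1) (nat_lit 0x80080004002000200089d8c83))) 
(.lf (nat_lit 36915878) (dlOf (nat_lit 1) (nat_lit 0x8008000400200020009075603)))) 
(.lf (nat_lit 8077734) (dlOf (nat_lit 1) (nat_lit 0x400200020008511002)))) (.nd (nat_lit 21) 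
(.nd (nat_lit 23) (.lf (nat_lit 1262054) (dlOf (nat_lit 1) (nat_lit 0x200180a7301))) 
(.lf (nat_lit 9650662) (dlOf (nat_lit 2) (nat_lit 0xc72600259018577d00)))) 
(.lf (nat_lit 11747814) (dlOf (nat_lit 1) (nat_lit 0x80080004002000200086c0c83))))))) 
(.nd (nat_lit 31) (.nd (nat_lit 10) (.nd (nat_lit 21) (.nd (nat_lit 8) (.nd (nat_lit 27) 
(.lf (nat_lit 6174228518) (dlOf (nat_lit 1) (nat_lit 0x4004000200080a0a82))) 
(.lf (nat_lit 1476608038) (dlOf (nat_lit 4) (nat_lit 0x14086000a019000cb82000c01b0002740802301140000004000c002002000080a0602)))) 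
(.lf (nat_lit 4630727462) (dlOf (nat_lit 1) (nat_lit 0x10008000400200020008095c03)))) 
(.nd (nat_lit 6) (.nd (nat_lit 7) 
(.lf (nat_lit 1345011750) (dlOf (nat_lit 1) (nat_lit 0x80080018002001000089d0783))) 
(.lf (nat_lit 472074918) (dlOf (nat_lit 1) (nat_lit 0x20028805601)))) 
(.lf (nat_lit 1008943334) (dlOf (nat_lit 1) (nat_lit 0x8008000400200020009000a83))))) 
(.nd (nat_lit 6) (.nd (nat_lit 26) 
(.lf (nat_lit 402867494) (dlOf (nat_lit 1) (nat_lit 0x20028093181))) 
(.lf (nat_lit 2080589094) (dlOf (nat_lit 1) (nat_lit 0x400200020008093182)))) (.nd (nat_lit 7) 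
(.nd (nat_lit 9) 
(.lf (nat_lit 1344488550) (dlOf (nat_lit 2) (nat_lit 0x20074000b404000c00200020008802982))) 
(.lf (nat_lit 2013480550) (dlOf (nat_lit 2) (nat_lit 0x8c0260019010800118100008008000c00200020008093903)))) 
(.lf (nat_lit 5637358822) (dlOf (nat_lit 1) (nat_lit 0x8002000200080d2e02)))))) (.nd (nat_lit 26) 
(.nd (nat_lit 6) (.nd (nat_lit 7) (.nd (nat_lit 9) (.nd (nat_lit 20) 
(.lf (nat_lit 2953003046) (dlOf (nat_lit 12) (nat_lit 0x72807000200360012019000400c0002dc2007900700090036000b60401ea01c002400d8002cc10082007000c8036000b10400100000004e81010100e0019806c0001a080354038006001b0000502008800e0000240807b007000980360000804018201c000008100f000e000f006c00000080d94004016a0018080602))) 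
(.lf (nat_lit 3490922534) (dlOf (nat_lit 2) (nat_lit 0x403da0001c0200060018030a01)))) 
(.lf (nat_lit 4026745382) (dlOf (nat_lit 2) (nat_lit 0x501b0000140800700080014002001c0008090e03)))) 
(.lf (nat_lit 4026745254) (dlOf (nat_lit 2) (nat_lit 0x20170033a4080008008001800200260008090783)))) 
(.nd (nat_lit 7) (.nd (nat_lit 8) 
(.lf (nat_lit 2416132198) (dlOf (nat_lit 1) (nat_lit 0x800803a800200d60008090003))) 
(.lf (nat_lit 3494068582) (dlOf (nat_lit 1) (nat_lit 0xc004000200081b0702)))) 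
(.lf (nat_lit 4026745318) (dlOf (nat_lit 2) (nat_lit 0xc036000201900000c100130008008800200860008090c83))))) 
(.nd (nat_lit 6) (.nd (nat_lit 9) (.nd (nat_lit 19) (.nd (nat_lit 27) 
(.lf (nat_lit 2483240998) (dlOf (nat_lit 1) (nat_lit 0x70008006c002003a0008090003))) 
(.lf (nat_lit 3691200550) (dlOf (nat_lit 10) (nat_lit 0x1180980108044002a004001b001801d0000001ce14009c008005e0030007302002a0020017000c001c60800dc008007e00300070820037002001f000c0001a0800d4008006a0030000502002b0020001800c000120800a40080058003000040200230020014000c00000080040002000200080a0602)))) 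
(.lf (nat_lit 3557507110) (dlOf (nat_lit 7) (nat_lit 0x40378003016c001c06c000a0340002084000c02d800380d800140680004006001406f000902d800300d8003c0680003e08000a06f000602d800180d800140680003d08000206f0001b01000b037800780d00000008001c004002c0018230882)))) 
(.lf (nat_lit 4094904870) (dlOf (nat_lit 1) (nat_lit 0xc0028055181)))) (.nd (nat_lit 8) 
(.lf (nat_lit 3556989158) (dlOf (nat_lit 2) (nat_lit 0x36045000f00d80296c10054000801400020006000812a883))) 
(.lf (nat_lit 4095952358) (dlOf (nat_lit 1) (nat_lit 0x80080004002000200080e3603)))))))) 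
(.nd (nat_lit 19) (.nd (nat_lit 28) (.nd (nat_lit 21) (.nd (nat_lit 7) (.nd (nat_lit 26) 
(.nd (nat_lit 27) (.nd (nat_lit 29) 
(.lf (nat_lit 3221700646) (dlOf (nat_lit 2) (nat_lit 0x12046000702280352c1002c0008000c00200600008170003))) 
(.lf (nat_lit 1611087910) (dlOf (nat_lit 6) (nat_lit 0x200570009e01000302d0001015c000c00a0013206001605a000b02b80030014002620c001c0b40016057000978200080028000000800a800800a800200e400080d0203)))) 
(.lf (nat_lit 134692902) (dlOf (nat_lit 1) (nat_lit 0x8008000400200020008090003)))) 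
(.nd (nat_lit 20) 
(.lf (nat_lit 738672678) (dlOf (nat_lit 6) (nat_lit 0x200570009781000302d0001015c000c00a0012306001605a000b02b80030014002440c001c0b40016057000900200080028000000800a800800a800200e400080d0203))) 
(.lf (nat_lit 2752987174) (dlOf (nat_lit 2) (nat_lit 0x2810e000130200100018070781))))) 
(.nd (nat_lit 27) (.nd (nat_lit 8) 
(.lf (nat_lit 55001254) (dlOf (nat_lit 1) (nat_lit 0x300019681481))) 
(.lf (nat_lit 477094) (dlOf (nat_lit 1) (nat_lit 0x400400180008004302)))) (.nd (nat_lit 26) 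
(.lf (nat_lit 134693286) (dlOf (nat_lit 1) (nat_lit 0x240018090781))) 
(.lf (nat_lit 3959898534) (dlOf (nat_lit 1) (nat_lit 0x60028170781)))))) (.nd (nat_lit 20) 
(.nd (nat_lit 22) (.nd (nat_lit 26) 
(.lf (nat_lit 2572326) (dlOf (nat_lit 1) (nat_lit 0x20018170a01))) 
(.lf (nat_lit 2754035750) (dlOf (nat_lit 2) (nat_lit 0xd1260000440800280080004002000200080b0b03)))) 
(.lf (nat_lit 15155238) (dlOf (nat_lit 3) (nat_lit 0x4e1ab0005f81001c0c58002dc0800400080020002000e00087c0603)))) 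
(.nd (nat_lit 22) (.lf (nat_lit 3620902) (dlOf (nat_lit 1) (nat_lit 0xc400200400008210902))) 
(.lf (nat_lit 24592422) (dlOf (nat_lit 2) (nat_lit 0x660d80329c080028008001000200040008ba0a03)))))) 
(.nd (nat_lit 26) (.nd (nat_lit 8) (.nd (nat_lit 20) 
(.lf (nat_lit 5637619750) (dlOf (nat_lit 1) (nat_lit 0x8008005400200100008120c03))) 
(.nd (nat_lit 31) 
(.lf (nat_lit 1343701030) (dlOf (nat_lit 1) (nat_lit 0x20008001000200060008330603))) 
(.lf (nat_lit 3491184678) (dlOf (nat_lit 2) (nat_lit 0x28114000270200100018070781))))) 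
(.nd (nat_lit 9) 
(.lf (nat_lit 3490139430) (dlOf (nat_lit 2) (nat_lit 0x1045800090080028008000400200040008006803))) 
(.lf (nat_lit 5771840294) (dlOf (nat_lit 1) (nat_lit 0x100018005c01))))) (.nd (nat_lit 6) 
(.nd (nat_lit 27) 
(.lf (nat_lit 6241599526) (dlOf (nat_lit 1) (nat_lit 0x8008005400200100008120c03))) 
(.nd (nat_lit 30) (.lf (nat_lit 3154591782) (dlOf (nat_lit 1) (nat_lit 0x400200020008270782))) 
(.lf (nat_lit 4228333606) (dlOf (nat_lit 1) (nat_lit 0x10008000400200020008090003))))) 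
(.nd (nat_lit 7) (.nd (nat_lit 9) 
(.lf (nat_lit 1009205350) (dlOf (nat_lit 1) (nat_lit 0xf4004001000190a0982))) 
(.lf (nat_lit 4096214630) (dlOf (nat_lit 1) (nat_lit 0x300080004002000200080e3903)))) 
(.lf (nat_lit 471285990) (dlOf (nat_lit 1) (nat_lit 0x80080004002000200082e0583))))))) 
(.nd (nat_lit 21) (.nd (nat_lit 6) (.nd (nat_lit 23) (.nd (nat_lit 7) (.nd (nat_lit 20) 
(.lf (nat_lit 17776678) (dlOf (nat_lit 1) (nat_lit 0x38004001000088f0d82))) 
(.lf (nat_lit 69156902) (dlOf (nat_lit 1) (nat_lit 0x4004000200088c0202)))) 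
(.lf (nat_lit 34555046) (dlOf (nat_lit 1) (nat_lit 0x8008000400200020008fb2c03)))) (.nd (nat_lit 7) 
(.nd (nat_lit 20) (.lf (nat_lit 13582374) (dlOf (nat_lit 1) (nat_lit 0x400200020008730902))) 
(.lf (nat_lit 10436646) (dlOf (nat_lit 1) (nat_lit 0x3000285d0581)))) 
(.lf (nat_lit 47136934) (dlOf (nat_lit 1) (nat_lit 0x4004001400093b1482))))) (.nd (nat_lit 7) 
(.nd (nat_lit 8) (.lf (nat_lit 14631014) (dlOf (nat_lit 1) (nat_lit 0x8004000c0018770d02))) 
(.lf (nat_lit 6376341862) (dlOf (nat_lit 1) (nat_lit 0x8008001400200160008090e83)))) 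
(.nd (nat_lit 8) 
(.lf (nat_lit 6376341734) (dlOf (nat_lit 2) (nat_lit 0xeb090000238080010008001000200140008090a83))) 
(.lf (nat_lit 3490660838) (dlOf (nat_lit 8) (nat_lit 0x161e6000120100150f3000088080040798000400400243cc0001f0200181e60000e8100160f300006c0800707980003404014c004000e0018017302)))))) 
(.nd (nat_lit 7) (.nd (nat_lit 6) (.nd (nat_lit 8) 
(.lf (nat_lit 1346325030) (dlOf (nat_lit 1) (nat_lit 0x400400060008f05182))) (.nd (nat_lit 9) 
(.lf (nat_lit 472858918) (dlOf (nat_lit 1) (nat_lit 0x6800400440008b28082))) 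
(.lf (nat_lit 2754566950) (dlOf (nat_lit 1) (nat_lit 0xc004002a00180fbc82))))) (.nd (nat_lit 9) 
(.nd (nat_lit 27) (.lf (nat_lit 2755608678) (dlOf (nat_lit 1) (nat_lit 0x64004001000081b0002))) 
(.lf (nat_lit 473907302) (dlOf (nat_lit 2) (nat_lit 0xb40d900007018fc0980)))) 
(.lf (nat_lit 19876454) (dlOf (nat_lit 1) (nat_lit 0x200189d5381))))) (.nd (nat_lit 8) 
(.nd (nat_lit 20) 
(.lf (nat_lit 32457894) (dlOf (nat_lit 3) (nat_lit 0x55490002f810007aef8001500800280080004002000e0008ef2c03))) 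
(.nd (nat_lit 22) (.lf (nat_lit 37700774) (dlOf (nat_lit 1) (nat_lit 0xc004000200090d2c02))) 
(.lf (nat_lit 41895078) (dlOf (nat_lit 1) (nat_lit 0x400400020009242c02))))) (.nd (nat_lit 9) 
(.lf (nat_lit 8339878) (dlOf (nat_lit 1) (nat_lit 0x400200020008511002))) 
(.lf (nat_lit 19874726) (dlOf (nat_lit 1) (nat_lit 0x600189d2601))))))))))) (.nd (nat_lit 16) 
(.nd (nat_lit 5) (.nd (nat_lit 6) (.nd (nat_lit 18) (.nd (nat_lit 27) (.nd (nat_lit 20) 
(.nd (nat_lit 26) (.nd (nat_lit 11) (.nd (nat_lit 23) 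
(.lf (nat_lit 2416066574) (dlOf (nat_lit 1) (nat_lit 0x20018030881))) 
(.lf (nat_lit 25313294) (dlOf (nat_lit 3) (nat_lit 0xde45402fc404000b0da008da0200180008bf0881)))) 
(.nd (nat_lit 8) (.lf (nat_lit 57297422) (dlOf (nat_lit 1) (nat_lit 0x20029795081))) 
(.lf (nat_lit 805457166) (dlOf (nat_lit 1) (nat_lit 0x80008116681))))) (.nd (nat_lit 19) 
(.nd (nat_lit 30) 
(.lf (nat_lit 2214739982) (dlOf (nat_lit 2) (nat_lit 0x2c04400220200001c028080180))) 
(.lf (nat_lit 1140998158) (dlOf (nat_lit 1) (nat_lit 0x20018060a01)))) (.nd (nat_lit 8) 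
(.lf (nat_lit 3557441550) (dlOf (nat_lit 1) (nat_lit 0x40028200181))) 
(.lf (nat_lit 4094312718) (dlOf (nat_lit 1) (nat_lit 0x80028033a01)))))) (.nd (nat_lit 9) 
(.nd (nat_lit 8) (.nd (nat_lit 19) 
(.lf (nat_lit 5390350) (dlOf (nat_lit 1) (nat_lit 0x20008360181))) 
(.lf (nat_lit 22691854) (dlOf (nat_lit 1) (nat_lit 0xf00008b10201)))) 
(.lf (nat_lit 11682062) (dlOf (nat_lit 1) (nat_lit 0x800803a8002009e00086c0483)))) 
(.nd (nat_lit 10) (.lf (nat_lit 11682318) (dlOf (nat_lit 1) (nat_lit 0x80080004002000200086c0d83))) 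
(.lf (nat_lit 20076046) (dlOf (nat_lit 1) (nat_lit 0xa8002000800089d9c02)))))) (.nd (nat_lit 26) 
(.nd (nat_lit 28) (.nd (nat_lit 19) (.nd (nat_lit 8) 
(.lf (nat_lit 2281848846) (dlOf (nat_lit 1) (nat_lit 0x40008080181))) 
(.lf (nat_lit 3892461838) (dlOf (nat_lit 1) (nat_lit 0x400200020008147402)))) (.nd (nat_lit 29) 
(.lf (nat_lit 134889486) (dlOf (nat_lit 2) (nat_lit 0x1003000c258180d0880))) 
(.lf (nat_lit 3892985870) (dlOf (nat_lit 2) (nat_lit 0x6047000000182c0180))))) (.nd (nat_lit 29) 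
(.nd (nat_lit 30) (.lf (nat_lit 2550284302) (dlOf (nat_lit 1) (nat_lit 0x20018030881))) 
(.lf (nat_lit 1476542478) (dlOf (nat_lit 1) (nat_lit 0x80028050001)))) (.nd (nat_lit 31) 
(.lf (nat_lit 2013413390) (dlOf (nat_lit 1) (nat_lit 0x20018060a01))) 
(.lf (nat_lit 4160897038) (dlOf (nat_lit 1) (nat_lit 0x20008060181)))))) (.nd (nat_lit 8) 
(.nd (nat_lit 19) (.nd (nat_lit 9) 
(.lf (nat_lit 3422699534) (dlOf (nat_lit 4) (nat_lit 0x360330001c0100020190000bc0800980cc0002204000c002000a0008060182))) 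
(.lf (nat_lit 3959577102) (dlOf (nat_lit 1) (nat_lit 0x13000800f80020030000811b283)))) 
(.nd (nat_lit 28) (.lf (nat_lit 201998350) (dlOf (nat_lit 2) (nat_lit 0x1003000de20180d0880))) 
(.lf (nat_lit 3154788366) (dlOf (nat_lit 2) (nat_lit 0xa6016001fbc0800c000800dc002001e0008320783))))) 
(.nd (nat_lit 7) 
(.lf (nat_lit 738347790) (dlOf (nat_lit 10) (nat_lit 0x816800140ae001605200010280003812c003408e0004034000301700008010000642400040ae001605200090258001811c001000a000310a001605700200290000c0100058148009808e0030034000178300040290003011c004c0680002e06000403400016810006029000060080008168000408e0001204000c0520017023800400d0000000c004000400400018095b02))) 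
(.nd (nat_lit 9) (.lf (nat_lit 1543653774) (dlOf (nat_lit 2) (nat_lit 0x80250085e818144e80))) 
(.lf (nat_lit 738347918) (dlOf (nat_lit 1) (nat_lit 0x400200020008095c82)))))))) (.nd (nat_lit 28) 
(.nd (nat_lit 22) (.nd (nat_lit 7) (.nd (nat_lit 9) (.nd (nat_lit 26) 
(.lf (nat_lit 537280526) (dlOf (nat_lit 2) (nat_lit 0x3c03000000018070500))) 
(.lf (nat_lit 3288743950) (dlOf (nat_lit 1) (nat_lit 0x2600080110002008400080d0883)))) 
(.nd (nat_lit 11) 
(.lf (nat_lit 2752397838) (dlOf (nat_lit 7) (nat_lit 0x14490004bc0200102480025d8100561240012e8080160920009620400b8490004b002009e24800253018018400))) 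
(.lf (nat_lit 50743822) (dlOf (nat_lit 1) (nat_lit 0x80080004002000200094c5083))))) 
(.nd (nat_lit 8) (.lf (nat_lit 19811470) (dlOf (nat_lit 1) (nat_lit 0x4002000200089d6182))) 
(.nd (nat_lit 26) 
(.lf (nat_lit 134627726) (dlOf (nat_lit 1) (nat_lit 0x38008002400200080008090783))) 
(.lf (nat_lit 201736590) (dlOf (nat_lit 1) (nat_lit 0x38008002400200080008090783)))))) 
(.nd (nat_lit 23) (.nd (nat_lit 7) (.nd (nat_lit 20) 
(.lf (nat_lit 21905422) (dlOf (nat_lit 1) (nat_lit 0x8008000400200020008a80883))) 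
(.lf (nat_lit 22953998) (dlOf (nat_lit 2) (nat_lit 0x2c4fa000380200080028b40181)))) 
(.lf (nat_lit 21381518) (dlOf (nat_lit 2) (nat_lit 0x1675b800cf804006c00400060008a35d82)))) 
(.nd (nat_lit 8) (.nd (nat_lit 20) (.nd (nat_lit 21) 
(.lf (nat_lit 12992526) (dlOf (nat_lit 2) (nat_lit 0x4c300002c02000400286f0081))) 
(.lf (nat_lit 15089678) (dlOf (nat_lit 2) (nat_lit 0x3d3eb8017d40800380080058002001200087b0283)))) 
(.lf (nat_lit 30818318) (dlOf (nat_lit 1) (nat_lit 0x40018e50a01)))) 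
(.lf (nat_lit 46549774) (dlOf (nat_lit 1) (nat_lit 0x60009385b01)))))) (.nd (nat_lit 20) 
(.nd (nat_lit 7) (.nd (nat_lit 26) 
(.lf (nat_lit 4026941454) (dlOf (nat_lit 1) (nat_lit 0x2600080110002008400080d0883))) 
(.nd (nat_lit 27) (.lf (nat_lit 1409695758) (dlOf (nat_lit 2) (nat_lit 0x3c03000000018070500))) 
(.lf (nat_lit 3154526222) (dlOf (nat_lit 1) (nat_lit 0x800800c0002001600081f0483))))) 
(.nd (nat_lit 11) 
(.lf (nat_lit 5772296590) (dlOf (nat_lit 3) (nat_lit 0x40988005800800804bc00138040018002000a0008091002))) 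
(.lf (nat_lit 3490072974) (dlOf (nat_lit 1) (nat_lit 0x20018004e81))))) (.nd (nat_lit 8) 
(.nd (nat_lit 9) (.lf (nat_lit 1343635470) (dlOf (nat_lit 1) (nat_lit 0x4004000200082d0282))) 
(.nd (nat_lit 11) (.lf (nat_lit 3491643918) (dlOf (nat_lit 1) (nat_lit 0x400400020008090d82))) 
(.lf (nat_lit 1345735182) (dlOf (nat_lit 1) (nat_lit 0xc0028dd5081))))) (.nd (nat_lit 7) 
(.lf (nat_lit 471750414) (dlOf (nat_lit 1) (nat_lit 0x1000283da001))) 
(.lf (nat_lit 471748494) (dlOf (nat_lit 1) (nat_lit 0x4002000200083d7782)))))))) (.nd (nat_lit 26) 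
(.nd (nat_lit 7) (.nd (nat_lit 18) (.nd (nat_lit 19) (.nd (nat_lit 20) (.nd (nat_lit 8) 
(.nd (nat_lit 23) (.lf (nat_lit 4026679374) (dlOf (nat_lit 1) (nat_lit 0x80004000a0008030f82))) 
(.lf (nat_lit 25313358) (dlOf (nat_lit 6) (nat_lit 0x470de000510202cb9160134c3800011c10048e45800cb0e00004604013d916003cc3800011410003e4580008804003400400240008bf0d02)))) 
(.lf (nat_lit 3221380430) (dlOf (nat_lit 6) (nat_lit 0x4005e0066e02002002f003360100100178017b00800800bc00bd204004005e005be020004000811c901)))) 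
(.nd (nat_lit 8) (.nd (nat_lit 22) 
(.lf (nat_lit 11681870) (dlOf (nat_lit 1) (nat_lit 0x200086c0001))) 
(.lf (nat_lit 24264782) (dlOf (nat_lit 1) (nat_lit 0x80018b90f81)))) 
(.lf (nat_lit 20073294) (dlOf (nat_lit 1) (nat_lit 0x200189d5c01))))) (.nd (nat_lit 28) 
(.nd (nat_lit 22) 
(.lf (nat_lit 134889550) (dlOf (nat_lit 2) (nat_lit 0x8201880015808014000800bc002001800080d0d03))) 
(.lf (nat_lit 55197774) (dlOf (nat_lit 1) (nat_lit 0x2800196d0001)))) (.nd (nat_lit 21) 
(.lf (nat_lit 805978190) (dlOf (nat_lit 9) (nat_lit 0x2700140003202006200a00018810184005002700180006008025c0140002e0201ec00a0001601014c0050000ac08019804806000140036006000150300d40050000a4080428008012c00200a40008201503))) 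
(.lf (nat_lit 1344946254) (dlOf (nat_lit 1) (nat_lit 0x200289a0681)))))) (.nd (nat_lit 8) 
(.nd (nat_lit 30) (.nd (nat_lit 9) 
(.lf (nat_lit 29769806) (dlOf (nat_lit 2) (nat_lit 0x1e745000214080020008002000200080008e30183))) 
(.lf (nat_lit 36063822) (dlOf (nat_lit 1) (nat_lit 0x20019015281)))) (.nd (nat_lit 28) 
(.lf (nat_lit 1074151502) (dlOf (nat_lit 3) (nat_lit 0x4c0270001a01001c0138000c80800b000800bc002001400080c1903))) 
(.lf (nat_lit 4026941518) (dlOf (nat_lit 8) (nat_lit 0x24c080003a00a0002602005602000012c0802a00280009404007001400048020112020008a0058001081001a8080000800401fc0400003e02011400280d0d01))))) 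
(.nd (nat_lit 10) (.lf (nat_lit 21381454) (dlOf (nat_lit 1) (nat_lit 0x400200020008a34c82))) 
(.nd (nat_lit 12) 
(.lf (nat_lit 5773870414) (dlOf (nat_lit 2) (nat_lit 0x12f09f80b204c80004408000c002000800080e3302))) 
(.lf (nat_lit 8803662) (dlOf (nat_lit 1) (nat_lit 0x58008002800200020008519903))))))) 
(.nd (nat_lit 9) (.nd (nat_lit 11) (.nd (nat_lit 18) 
(.lf (nat_lit 3624026318) (dlOf (nat_lit 2) (nat_lit 0x401b000e88180b0480))) (.nd (nat_lit 27) 
(.lf (nat_lit 4295377102) (dlOf (nat_lit 1) (nat_lit 0xd000281a0481))) 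
(.lf (nat_lit 4429594830) (dlOf (nat_lit 1) (nat_lit 0xd000281a0481))))) (.nd (nat_lit 8) 
(.lf (nat_lit 3221380302) (dlOf (nat_lit 2) (nat_lit 0x203e0004001811c280))) 
(.lf (nat_lit 38947278) (dlOf (nat_lit 1) (nat_lit 0x8008002000200380009194e83))))) 
(.nd (nat_lit 8) (.nd (nat_lit 19) (.nd (nat_lit 10) 
(.lf (nat_lit 50744014) (dlOf (nat_lit 1) (nat_lit 0x80080004002000200094c5883))) 
(.lf (nat_lit 805457614) (dlOf (nat_lit 1) (nat_lit 0x20008117301)))) (.nd (nat_lit 24) 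
(.lf (nat_lit 40520398) (dlOf (nat_lit 1) (nat_lit 0x4004000200091f5882))) 
(.lf (nat_lit 57297614) (dlOf (nat_lit 1) (nat_lit 0x20029795881))))) (.nd (nat_lit 10) 
(.nd (nat_lit 12) (.lf (nat_lit 20073422) (dlOf (nat_lit 1) (nat_lit 0x14004000a00089d5d82))) 
(.lf (nat_lit 3221380046) (dlOf (nat_lit 3) (nat_lit 0x820178004d40802c80bc002680400880040012000811be82)))) 
(.lf (nat_lit 8277966) (dlOf (nat_lit 1) (nat_lit 0x400200020008517a82))))))) (.nd (nat_lit 28) 
(.nd (nat_lit 30) (.nd (nat_lit 29) (.nd (nat_lit 7) (.nd (nat_lit 18) 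
(.lf (nat_lit 201998414) (dlOf (nat_lit 2) (nat_lit 0x8201880013c08014000800bc002001800080d0d03))) 
(.lf (nat_lit 4362485838) (dlOf (nat_lit 2) (nat_lit 0x2e047003c8818090000)))) 
(.lf (nat_lit 4362486222) (dlOf (nat_lit 8) (nat_lit 0xea05300920238001011801b005a000200800e20530086023803100b40003e0c00800a6008c0470000f02007c029804a011c01bc05a0001d0600f2053008f0238000701003c014c023808e00d602d0000d8300980238000380800a800800e800200580008090a03)))) 
(.nd (nat_lit 7) (.nd (nat_lit 8) 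
(.lf (nat_lit 604127310) (dlOf (nat_lit 4) (nat_lit 0x19c0000000402000a02f003e00000000810052800000000040148004000c0018030702))) 
(.lf (nat_lit 2755805518) (dlOf (nat_lit 2) (nat_lit 0x222b000200181b0600)))) 
(.lf (nat_lit 2885828814) (dlOf (nat_lit 2) (nat_lit 0x401a000e88180b0480))))) (.nd (nat_lit 27) 
(.nd (nat_lit 18) (.nd (nat_lit 19) 
(.lf (nat_lit 3288481870) (dlOf (nat_lit 1) (nat_lit 0x80004000a0008030f82))) 
(.lf (nat_lit 1678393422) (dlOf (nat_lit 1) (nat_lit 0x24004002a0008201902)))) 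
(.lf (nat_lit 3288744014) (dlOf (nat_lit 8) (nat_lit 0x24c080003a00a000298200560200001480802a0028000a20400700140004f020112020008a0058001241001a80800008e0401fc0400004502011400280d0d01)))) 
(.nd (nat_lit 7) 
(.lf (nat_lit 3959576654) (dlOf (nat_lit 3) (nat_lit 0x5f0178005100801a80bc002860401800040002000811a702))) 
(.nd (nat_lit 8) (.lf (nat_lit 3959572686) (dlOf (nat_lit 2) (nat_lit 0x2805100016018114a00))) 
(.lf (nat_lit 3959571406) (dlOf (nat_lit 4) (nat_lit 0x70000015da02003800000aeb81001c000005744080070008004000200560008112883))))))) 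
(.nd (nat_lit 11) (.nd (nat_lit 30) (.nd (nat_lit 7) (.nd (nat_lit 8) 
(.lf (nat_lit 474366030) (dlOf (nat_lit 1) (nat_lit 0x8008016000200020009160003))) 
(.lf (nat_lit 472794446) (dlOf (nat_lit 1) (nat_lit 0xc00200040008b03302)))) 
(.lf (nat_lit 1007042766) (dlOf (nat_lit 1) (nat_lit 0x20018150481)))) (.nd (nat_lit 7) 
(.nd (nat_lit 18) 
(.lf (nat_lit 4228530254) (dlOf (nat_lit 3) (nat_lit 0x604000400160000c010017010001e00580002a04000600180f1501))) 
(.lf (nat_lit 4228268110) (dlOf (nat_lit 2) (nat_lit 0x2e04000693818090000)))) 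
(.lf (nat_lit 4228268494) (dlOf (nat_lit 8) (nat_lit 0xea04c0092020000100fc01b0058000200800e204c0086020003100b00003e0c0080098008c0400000f02007c026004a010001bc0580001d0600f204c008f0200000701003c0130023808000d602c0000d8300980200000380800a800800e800200580008090a03))))) 
(.nd (nat_lit 7) (.nd (nat_lit 8) (.nd (nat_lit 10) 
(.lf (nat_lit 1007831630) (dlOf (nat_lit 1) (nat_lit 0x20028805281))) 
(.lf (nat_lit 5838622286) (dlOf (nat_lit 1) (nat_lit 0x4004000200080f7182)))) 
(.lf (nat_lit 1543654734) (dlOf (nat_lit 4) (nat_lit 0x6801180010080003003000060050000a84007601180098080005c03000280050000984001c00280004808002000800b800200380008146a03)))) 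
(.nd (nat_lit 21) (.nd (nat_lit 29) 
(.lf (nat_lit 3556920014) (dlOf (nat_lit 1) (nat_lit 0x200080d5881))) 
(.lf (nat_lit 4093790926) (dlOf (nat_lit 1) (nat_lit 0x8008001c00200060008005883)))) 
(.lf (nat_lit 6377589454) (dlOf (nat_lit 1) (nat_lit 0x4004000200080e5882))))))))) 
(.nd (nat_lit 19) (.nd (nat_lit 28) (.nd (nat_lit 20) (.nd (nat_lit 27) (.nd (nat_lit 6) 
(.nd (nat_lit 26) (.nd (nat_lit 32) (.nd (nat_lit 18) 
(.lf (nat_lit 25313326) (dlOf (nat_lit 1) (nat_lit 0x8008000c00200060008bf0b03))) 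
(.lf (nat_lit 537280558) (dlOf (nat_lit 18) (nat_lit 0x228816000040ae04f8051038d01f81b280c804c800e0002b0c05d6058000502b8000a01002201600004e0400ec0ba000260205e607200a2034832701741aec0b00494057061802a000a8128180408a01a8032027d017001a80ac003004a001401c0010000800e00000004a3c06f40b0000240205cc0580001101010b02c0000840803301600004004145c0ba0a8e0580000f02015302c0000700802181600002e040d0c0b004f005100b301e012480c80002a10006009c016403c0000a02008602880001408064016007e80a202740320000103000803a0000000802a8008033c00200020008070803)))) 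
(.nd (nat_lit 8) 
(.lf (nat_lit 5368856622) (dlOf (nat_lit 3) (nat_lit 0x208054000260400c002a00060140004007000000180240008006c00200700008040383))) 
(.lf (nat_lit 4295115054) (dlOf (nat_lit 1) (nat_lit 0x20800200720008090502))))) (.nd (nat_lit 29) 
(.lf (nat_lit 67256366) (dlOf (nat_lit 2) (nat_lit 0x81b200440d3000506000068104000ac100060002000e0008080682))) 
(.lf (nat_lit 604127278) (dlOf (nat_lit 2) (nat_lit 0x600a800600000004808000800200260008030402))))) 
(.nd (nat_lit 8) (.nd (nat_lit 18) 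
(.lf (nat_lit 44187758) (dlOf (nat_lit 2) (nat_lit 0x552b800000040084002000a00092d0a82))) 
(.lf (nat_lit 2506862) (dlOf (nat_lit 1) (nat_lit 0x40008161501)))) (.nd (nat_lit 7) 
(.lf (nat_lit 1678131566) (dlOf (nat_lit 1) (nat_lit 0x188004017c00181a0782))) 
(.lf (nat_lit 149486) (dlOf (nat_lit 1) (nat_lit 0x400200080008004602)))))) (.nd (nat_lit 6) 
(.nd (nat_lit 7) (.nd (nat_lit 18) (.nd (nat_lit 26) 
(.lf (nat_lit 5503074350) (dlOf (nat_lit 3) (nat_lit 0x208054000260400c002a00060140004007000000180240008006c00200700008040383))) 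
(.lf (nat_lit 2348957742) (dlOf (nat_lit 1) (nat_lit 0x80028060601)))) 
(.lf (nat_lit 3355852846) (dlOf (nat_lit 1) (nat_lit 0x40008130681)))) (.nd (nat_lit 8) 
(.lf (nat_lit 6576819886) (dlOf (nat_lit 1) (nat_lit 0x40018147281))) 
(.lf (nat_lit 671238062) (dlOf (nat_lit 2) (nat_lit 0xc00500001818144380))))) (.nd (nat_lit 7) 
(.nd (nat_lit 26) 
(.lf (nat_lit 134627694) (dlOf (nat_lit 1) (nat_lit 0x8008000c00200060008090783))) 
(.lf (nat_lit 201736558) (dlOf (nat_lit 1) (nat_lit 0x8008000c00200060008090783)))) 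
(.nd (nat_lit 9) (.lf (nat_lit 3959572718) (dlOf (nat_lit 2) (nat_lit 0x2c0510001c018114b80))) 
(.lf (nat_lit 671237870) (dlOf (nat_lit 2) (nat_lit 0x1601280004808003000800e4002005a0008143b03))))))) 
(.nd (nat_lit 21) (.nd (nat_lit 22) (.nd (nat_lit 6) (.nd (nat_lit 18) 
(.lf (nat_lit 2752659502) (dlOf (nat_lit 3) (nat_lit 0x3c067001700d8000bc1001380880005c04003c00400020008030c02))) 
(.lf (nat_lit 68567086) (dlOf (nat_lit 1) (nat_lit 0x800185c0701)))) 
(.lf (nat_lit 43139566) (dlOf (nat_lit 1) (nat_lit 0x2000292a1381)))) (.nd (nat_lit 18) 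
(.nd (nat_lit 24) 
(.lf (nat_lit 47333422) (dlOf (nat_lit 5) (nat_lit 0x7b498004da300026d0400155fb00032040003b498001da300012d04000b5fb0003184000ab4980055a30001ed0400115fb00030840006b4980035a300022d0400135fb0002f8493d0d00))) 
(.lf (nat_lit 30556206) (dlOf (nat_lit 2) (nat_lit 0x643800007818e40e80)))) 
(.lf (nat_lit 30818350) (dlOf (nat_lit 1) (nat_lit 0x40018e50b81))))) (.nd (nat_lit 7) 
(.nd (nat_lit 9) (.lf (nat_lit 15876142) (dlOf (nat_lit 1) (nat_lit 0x20018840881))) 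
(.lf (nat_lit 11682350) (dlOf (nat_lit 14) (nat_lit 0x15c630007deb0000fc10006718c002b7ac0003d040013c63000adeb0000d810006718c003b7ac00034040023c63000fdeb0000a810002f18c00177ac00023040013c63000bdeb00008010004f18c0003a04002b8c60001a020013c630000c81005ce3180126f58000180800ab8c60009bd60000482000fe3180076f580000008000c00400a200186c0e82)))) 
(.nd (nat_lit 9) (.lf (nat_lit 3293358) (dlOf (nat_lit 1) (nat_lit 0x360008200301))) 
(.lf (nat_lit 20077230) (dlOf (nat_lit 1) (nat_lit 0x4002000200089db782))))))) (.nd (nat_lit 29) 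
(.nd (nat_lit 30) (.nd (nat_lit 31) (.nd (nat_lit 6) (.nd (nat_lit 7) 
(.lf (nat_lit 4563550254) (dlOf (nat_lit 2) (nat_lit 0x28054030be0400a8004003c0008090002))) 
(.lf (nat_lit 4563552686) (dlOf (nat_lit 1) (nat_lit 0x90008012000200060008094e83)))) 
(.lf (nat_lit 268583022) (dlOf (nat_lit 1) (nat_lit 0x1880080048002001e0008090c03)))) 
(.nd (nat_lit 26) (.nd (nat_lit 27) 
(.lf (nat_lit 2416066606) (dlOf (nat_lit 3) (nat_lit 0x6880200005e0400500100002e0200140028030c01))) 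
(.lf (nat_lit 2550284334) (dlOf (nat_lit 3) (nat_lit 0x688024000580400500120002b0200140028030c01)))) 
(.lf (nat_lit 2483175470) (dlOf (nat_lit 1) (nat_lit 0x80028060601))))) (.nd (nat_lit 18) 
(.nd (nat_lit 10) 
(.lf (nat_lit 3490857006) (dlOf (nat_lit 3) (nat_lit 0x3c067001700d8000b01001380880005604003c00400020008030c02))) 
(.lf (nat_lit 5838621742) (dlOf (nat_lit 1) (nat_lit 0x400180f6081)))) (.nd (nat_lit 6) 
(.lf (nat_lit 1409695790) (dlOf (nat_lit 23) (nat_lit 0x5f40b00076051002501f801d80c8000561000c80ce02f2058001602b8046015001100a2000804a000d02280070108015006c00a203200b700e0001805c001400e001c000000140e016902c00009c0807801c8067c0ba03ba058019302a00c701080004a1401440b000024020016058000110100ba02c000084080108160000400400480ba010a058000f02a0001010800240000001e0a025805d012302c0000741000e017402040b00001c04000805d0000c01004002c00005c0803c0160003c0a200380320000a83000802c004580f0000280802840b0000205100040190000241800d80c8000100400d00a2000070200680510000281006202c000380c80000408002c0a200120320000082005003a003181ac018c0d000c20520004000000000280808008015400200340008070903)))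 
(.lf (nat_lit 1346781422) (dlOf (nat_lit 2) (nat_lit 0x1c0ab8032d80800f800800c800200040009001e83)))))) 
(.nd (nat_lit 8) (.nd (nat_lit 10) (.nd (nat_lit 6) (.nd (nat_lit 18) 
(.lf (nat_lit 2952937518) (dlOf (nat_lit 14) (nat_lit 0xa600e005e00100004e08029803800aa004000130200ac00e003400100004a0800c40080001e02014e00400bd00180007410043801000f80060001c040038004000a00180006c1000a006c025000801520030000d03008c002001a000c00032080108036014a00400ae0018000601802980100002e04004c0080000d020140004001f00180000010014800803a800200220008030403))) 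
(.lf (nat_lit 3154526254) (dlOf (nat_lit 1) (nat_lit 0xa0008005c002003e00081f0703)))) 
(.lf (nat_lit 5234638958) (dlOf (nat_lit 1) (nat_lit 0x400400180018070a82)))) (.nd (nat_lit 21) 
(.lf (nat_lit 4093789230) (dlOf (nat_lit 1) (nat_lit 0x84004008e0008002882))) 
(.lf (nat_lit 6377587758) (dlOf (nat_lit 1) (nat_lit 0x20004000800080e2882))))) (.nd (nat_lit 6) 
(.nd (nat_lit 10) (.lf (nat_lit 805716270) (dlOf (nat_lit 1) (nat_lit 0x4002000400081a0502))) 
(.lf (nat_lit 872826158) (dlOf (nat_lit 1) (nat_lit 0x6400280e3201)))) (.nd (nat_lit 7) 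
(.lf (nat_lit 805716334) (dlOf (nat_lit 1) (nat_lit 0x188004017c00181a0782))) 
(.lf (nat_lit 6375752686) (dlOf (nat_lit 2) (nat_lit 0x14050007f10200020018002881)))))))) 
(.nd (nat_lit 18) (.nd (nat_lit 20) (.nd (nat_lit 6) (.nd (nat_lit 26) (.nd (nat_lit 21) 
(.lf (nat_lit 3221897262) (dlOf (nat_lit 10) (nat_lit 0xf81580002e0400500140001402067c02f000078101970178000380813d00bc0001a04016005e0000c02006002f000a01700278050000160c0d2005e0032014000048203e6017800000082c0000800a8002084600081b0603))) 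
(.lf (nat_lit 1344946222) (dlOf (nat_lit 4) (nat_lit 0x685a40003004018c2d20000f0200c6145000000189a0280)))) 
(.nd (nat_lit 27) 
(.lf (nat_lit 67780654) (dlOf (nat_lit 3) (nat_lit 0x215100020a58000f01000b00000001e040088002002800082e0e82))) 
(.nd (nat_lit 28) 
(.lf (nat_lit 3960094766) (dlOf (nat_lit 10) (nat_lit 0xf81580002e0400500140001402067c02f000078101970178000380813d00bc0001a0400c005e001402e004f00a0000301802c00bc00016040d2005e0032014000048203e6017800000082c0000800a8002084600081b0603))) 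
(.lf (nat_lit 3154788398) (dlOf (nat_lit 5) (nat_lit 0xdc056000070201b602c0000301001c0160000080804b80b00000004041000400320018320e82)))))) 
(.nd (nat_lit 7) (.nd (nat_lit 9) (.nd (nat_lit 26) 
(.lf (nat_lit 537542766) (dlOf (nat_lit 1) (nat_lit 0x400280a1501))) 
(.lf (nat_lit 1409957998) (dlOf (nat_lit 1) (nat_lit 0x400280a1501)))) 
(.lf (nat_lit 9066094) (dlOf (nat_lit 1) (nat_lit 0x20018519c81)))) (.nd (nat_lit 9) 
(.lf (nat_lit 57297390) (dlOf (nat_lit 1) (nat_lit 0x40029794f01))) 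
(.lf (nat_lit 2752136174) (dlOf (nat_lit 1) (nat_lit 0x400200020008002882)))))) (.nd (nat_lit 8) 
(.nd (nat_lit 9) (.nd (nat_lit 24) 
(.lf (nat_lit 10108974) (dlOf (nat_lit 2) (nat_lit 0x143e50001a8185b0580))) 
(.lf (nat_lit 26886190) (dlOf (nat_lit 1) (nat_lit 0x20028c80701)))) 
(.lf (nat_lit 473580078) (dlOf (nat_lit 3) (nat_lit 0x308d80010c08002046c0000004017000400120018f68a82)))) 
(.nd (nat_lit 7) (.nd (nat_lit 22) 
(.lf (nat_lit 20600622) (dlOf (nat_lit 1) (nat_lit 0xc002000600089da102))) 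
(.lf (nat_lit 8017710) (dlOf (nat_lit 1) (nat_lit 0x10002851a101)))) 
(.lf (nat_lit 39471534) (dlOf (nat_lit 1) (nat_lit 0x8008000800200020009194e83)))))) 
(.nd (nat_lit 21) (.nd (nat_lit 30) (.nd (nat_lit 24) (.nd (nat_lit 6) (.nd (nat_lit 27) 
(.lf (nat_lit 68042798) (dlOf (nat_lit 1) (nat_lit 0x4004000200083b0682))) 
(.lf (nat_lit 1007566894) (dlOf (nat_lit 1) (nat_lit 0x8002000200084a0982)))) 
(.lf (nat_lit 471749614) (dlOf (nat_lit 1) (nat_lit 0x600283d9201)))) (.nd (nat_lit 22) 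
(.lf (nat_lit 59654190) (dlOf (nat_lit 2) (nat_lit 0x25174006e00000000029820280))) 
(.lf (nat_lit 21905454) (dlOf (nat_lit 1) (nat_lit 0x40028a80c01))))) (.nd (nat_lit 6) 
(.nd (nat_lit 7) (.nd (nat_lit 9) 
(.lf (nat_lit 1879982126) (dlOf (nat_lit 1) (nat_lit 0x8002000200084a0982))) 
(.lf (nat_lit 3490595374) (dlOf (nat_lit 22) (nat_lit 0x3a82b0000690201b815800ee0ab8001a0100580560000ce0403802b0000660201b0158004b0ab8001101006d856003b42ae00042040134158000208100db0ac0058855c0008008030c2b00003f02004c1580001f0100090f1005d059405642a80392152000120400680f10041859405742a803a0152000118401620aa000088080100550000420405642a8039e152000100201350aa00007c08095855006782a40001e0402ce15401c40a900007410073855004402a40001c0401921540000d8100420a9000068080038008009400200b60008018003)))) 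
(.lf (nat_lit 5772296622) (dlOf (nat_lit 2) (nat_lit 0x5412f0004b018091000)))) (.nd (nat_lit 7) 
(.lf (nat_lit 4095623534) (dlOf (nat_lit 1) (nat_lit 0x400280e0f81))) 
(.lf (nat_lit 5772297454) (dlOf (nat_lit 1) (nat_lit 0x400200bc0008092e82)))))) (.nd (nat_lit 7) 
(.nd (nat_lit 20) (.nd (nat_lit 6) (.nd (nat_lit 8) 
(.lf (nat_lit 11419694) (dlOf (nat_lit 1) (nat_lit 0x180080008002000400086a0803))) 
(.lf (nat_lit 3492693806) (dlOf (nat_lit 1) (nat_lit 0x300080008002000600080f3d83)))) 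
(.lf (nat_lit 53362798) (dlOf (nat_lit 1) (nat_lit 0x200195a0a81)))) (.nd (nat_lit 8) 
(.nd (nat_lit 28) 
(.lf (nat_lit 4079662) (dlOf (nat_lit 3) (nat_lit 0x2913a4014c9b00002c0400b24e9005a26c0000a8100020008006800200160008280603))) 
(.lf (nat_lit 1346256942) (dlOf (nat_lit 1) (nat_lit 0xee0008e80001)))) 
(.lf (nat_lit 2755543342) (dlOf (nat_lit 1) (nat_lit 0x1600081b0501))))) (.nd (nat_lit 6) 
(.nd (nat_lit 10) (.lf (nat_lit 40782254) (dlOf (nat_lit 1) (nat_lit 0x1800291f4e81))) 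
(.lf (nat_lit 19811758) (dlOf (nat_lit 2) (nat_lit 0x1d61e000e302000200289d6d01)))) 
(.nd (nat_lit 11) (.lf (nat_lit 19813102) (dlOf (nat_lit 1) (nat_lit 0x80080008002000400089d8e03))) 
(.lf (nat_lit 1345211118) (dlOf (nat_lit 5) (nat_lit 0x48594000200400042ca0000f02000c165000070100200b28000240800980080090002000e0008b05a03)))))))))) 
(.nd (nat_lit 5) (.nd (nat_lit 18) (.nd (nat_lit 28) (.nd (nat_lit 8) (.nd (nat_lit 29) 
(.nd (nat_lit 9) (.nd (nat_lit 23) (.nd (nat_lit 6) 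
(.lf (nat_lit 52641806) (dlOf (nat_lit 1) (nat_lit 0x78008000400200160009560203))) 
(.lf (nat_lit 2310350) (dlOf (nat_lit 3) (nat_lit 0x5a3e00247020026d7e00121818150480)))) 
(.nd (nat_lit 19) 
(.lf (nat_lit 12795918) (dlOf (nat_lit 3) (nat_lit 0xa63c0000281000231e0000000800100080008002000400086e0403))) 
(.lf (nat_lit 11223054) (dlOf (nat_lit 3) (nat_lit 0x24ac2001055f000208200082af8000ec0800180080030002006a0008670103))))) 
(.nd (nat_lit 7) (.nd (nat_lit 11) 
(.lf (nat_lit 51069454) (dlOf (nat_lit 1) (nat_lit 0x400294f7b01))) 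
(.lf (nat_lit 40061454) (dlOf (nat_lit 1) (nat_lit 0x4002000200091f5082)))) (.nd (nat_lit 6) 
(.lf (nat_lit 8607374) (dlOf (nat_lit 1) (nat_lit 0x20028519e81))) 
(.lf (nat_lit 20140750) (dlOf (nat_lit 1) (nat_lit 0x80080004002000200089d8c83)))))) 
(.nd (nat_lit 6) (.nd (nat_lit 27) (.nd (nat_lit 11) 
(.lf (nat_lit 604192782) (dlOf (nat_lit 3) (nat_lit 0x7e00b0005001c00180000013a06008201600370000000001002980080398002001a0008080483))) 
(.lf (nat_lit 5905795086) (dlOf (nat_lit 1) (nat_lit 0x400200020008144702)))) (.nd (nat_lit 7) 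
(.lf (nat_lit 1812152334) (dlOf (nat_lit 3) (nat_lit 0x5802c0028012002e000000ef83003f005800000080068008006800200300008160483))) 
(.lf (nat_lit 2885895822) (dlOf (nat_lit 1) (nat_lit 0x8008000400200020008143a83))))) 
(.nd (nat_lit 10) (.nd (nat_lit 19) 
(.lf (nat_lit 4832051278) (dlOf (nat_lit 1) (nat_lit 0xc00180b1681))) 
(.lf (nat_lit 537608270) (dlOf (nat_lit 1) (nat_lit 0x4a00080d0d01)))) 
(.lf (nat_lit 2885895246) (dlOf (nat_lit 1) (nat_lit 0xa0028142881)))))) (.nd (nat_lit 19) 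
(.nd (nat_lit 20) (.nd (nat_lit 6) (.nd (nat_lit 12) 
(.lf (nat_lit 3288547726) (dlOf (nat_lit 2) (nat_lit 0x203600010190000001000680080030002001c0008090783))) 
(.lf (nat_lit 8606094) (dlOf (nat_lit 1) (nat_lit 0x20028518381)))) 
(.lf (nat_lit 54741454) (dlOf (nat_lit 1) (nat_lit 0x8e800804f800201700009654e83)))) 
(.nd (nat_lit 6) (.nd (nat_lit 7) 
(.lf (nat_lit 28524814) (dlOf (nat_lit 1) (nat_lit 0x800400020018da0702))) 
(.lf (nat_lit 20138894) (dlOf (nat_lit 1) (nat_lit 0x200289d5c81)))) 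
(.lf (nat_lit 1261902) (dlOf (nat_lit 1) (nat_lit 0x200280a4c81))))) (.nd (nat_lit 7) 
(.nd (nat_lit 9) (.nd (nat_lit 10) 
(.lf (nat_lit 738935054) (dlOf (nat_lit 2) (nat_lit 0x202d00038c0800080080008002001a0008153a03))) 
(.lf (nat_lit 36390158) (dlOf (nat_lit 1) (nat_lit 0x400200020009073002)))) 
(.lf (nat_lit 54217486) (dlOf (nat_lit 2) (nat_lit 0x180f400064040018004001a0009655b02)))) 
(.nd (nat_lit 6) (.nd (nat_lit 22) 
(.lf (nat_lit 37439886) (dlOf (nat_lit 1) (nat_lit 0x200190d4e81))) 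
(.lf (nat_lit 33245582) (dlOf (nat_lit 1) (nat_lit 0xc00200020008f54e82)))) 
(.lf (nat_lit 1611350478) (dlOf (nat_lit 1) (nat_lit 0x8c004001c0018137b02))))))) (.nd (nat_lit 9) 
(.nd (nat_lit 26) (.nd (nat_lit 7) (.nd (nat_lit 27) 
(.lf (nat_lit 2953003022) (dlOf (nat_lit 20) (nat_lit 0x7400e002ae40804d0070012bc0402c00380015802012001c000ab0100280098005380806d807000a0036001480400fc01c002300d8005181004800b802b00300013a0401aa01c002300d8004a41005c007000940360011a0401ea01c0008601009e00e0003f80804d8070001b604001c0280007d02000e0140003d81009a00e0012806c000ae080308038004a01b000018200b200e0000040801100b8020c058015801c004800d80058060020c01e0072009008e0000000004021e000803d4002003e0008080483))) 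
(.nd (nat_lit 29) 
(.lf (nat_lit 1476608014) (dlOf (nat_lit 3) (nat_lit 0x44017001100b00080000003960c005802e02d6011000100000000018001800800f4002005400080a0483))) 
(.lf (nat_lit 6308446222) (dlOf (nat_lit 2) (nat_lit 0x900d8002002c01290080018002000600080a0a02))))) 
(.nd (nat_lit 8) (.lf (nat_lit 3624094862) (dlOf (nat_lit 1) (nat_lit 0x100008146181))) 
(.lf (nat_lit 4026745230) (dlOf (nat_lit 2) (nat_lit 0x203600010190000001000680080030002001c0008090783))))) 
(.nd (nat_lit 31) (.nd (nat_lit 6) (.nd (nat_lit 8) 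
(.lf (nat_lit 5704466446) (dlOf (nat_lit 2) (nat_lit 0x900d8002002c01bd8080018002000600080a0a02))) 
(.lf (nat_lit 6378176782) (dlOf (nat_lit 1) (nat_lit 0x400200020008127402)))) 
(.lf (nat_lit 1410023502) (dlOf (nat_lit 1) (nat_lit 0x4a00080d0d01)))) (.nd (nat_lit 19) 
(.lf (nat_lit 3691200526) (dlOf (nat_lit 3) (nat_lit 0x10088003960400b0058000202a00060000000001800080080008002005000080a0483))) 
(.nd (nat_lit 20) (.lf (nat_lit 3557507086) (dlOf (nat_lit 1) (nat_lit 0x1400400060018230302))) 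
(.lf (nat_lit 4095426574) (dlOf (nat_lit 1) (nat_lit 0x5600080b0a01))))))) (.nd (nat_lit 7) 
(.nd (nat_lit 6) (.nd (nat_lit 10) 
(.lf (nat_lit 4026745358) (dlOf (nat_lit 1) (nat_lit 0x800200220008090d82))) 
(.lf (nat_lit 4160968206) (dlOf (nat_lit 1) (nat_lit 0x14004000800080a9c02)))) (.nd (nat_lit 11) 
(.lf (nat_lit 3556987470) (dlOf (nat_lit 1) (nat_lit 0x8008000400200020008128983))) 
(.lf (nat_lit 472074830) (dlOf (nat_lit 1) (nat_lit 0x800400020018805282))))) (.nd (nat_lit 27) 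
(.nd (nat_lit 6) (.nd (nat_lit 20) 
(.lf (nat_lit 268651406) (dlOf (nat_lit 1) (nat_lit 0xc80080060002002a00080e5c83))) 
(.lf (nat_lit 4094905230) (dlOf (nat_lit 1) (nat_lit 0x20028055c81)))) 
(.lf (nat_lit 268651470) (dlOf (nat_lit 4) (nat_lit 0x2a0280000d81001a0140000600800680a00002a04001c004000200180e5d82)))) 
(.nd (nat_lit 8) (.lf (nat_lit 4160968334) (dlOf (nat_lit 1) (nat_lit 0x200080a9e81))) 
(.lf (nat_lit 5771578254) (dlOf (nat_lit 1) (nat_lit 0x4c00401f80008005c82)))))))) (.nd (nat_lit 6) 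
(.nd (nat_lit 21) (.nd (nat_lit 27) (.nd (nat_lit 19) (.nd (nat_lit 8) (.nd (nat_lit 26) 
(.lf (nat_lit 1611087886) (dlOf (nat_lit 3) (nat_lit 0x16005003c881000d00280100008011000800c400200b600080d0003))) 
(.lf (nat_lit 4362551310) (dlOf (nat_lit 1) (nat_lit 0x10008000400200020008090003)))) 
(.lf (nat_lit 68633870) (dlOf (nat_lit 1) (nat_lit 0x80028663001)))) (.nd (nat_lit 9) 
(.lf (nat_lit 23019534) (dlOf (nat_lit 2) (nat_lit 0x156ada00021818b40180))) 
(.lf (nat_lit 2752463374) (dlOf (nat_lit 1) (nat_lit 0x1c002000a0008018402))))) (.nd (nat_lit 19) 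
(.nd (nat_lit 9) (.nd (nat_lit 30) 
(.lf (nat_lit 738672654) (dlOf (nat_lit 3) (nat_lit 0x160050069381000d00280266c08011000800c400200b600080d0003))) 
(.lf (nat_lit 3959898126) (dlOf (nat_lit 1) (nat_lit 0x80008004000200020008170003)))) 
(.lf (nat_lit 4698098190) (dlOf (nat_lit 1) (nat_lit 0x800200060008125082)))) (.nd (nat_lit 8) 
(.lf (nat_lit 6376341518) (dlOf (nat_lit 1) (nat_lit 0x880008090001))) 
(.lf (nat_lit 6376341774) (dlOf (nat_lit 4) (nat_lit 0x90988021848801bc2420016006002c121000af010008091000364080018008009c00200560008090a83)))))) 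
(.nd (nat_lit 10) (.nd (nat_lit 9) (.nd (nat_lit 20) (.nd (nat_lit 8) 
(.lf (nat_lit 19349518) (dlOf (nat_lit 1) (nat_lit 0x20028990a01))) 
(.lf (nat_lit 1345274126) (dlOf (nat_lit 1) (nat_lit 0xb00008b33a01)))) (.nd (nat_lit 22) 
(.lf (nat_lit 12533774) (dlOf (nat_lit 1) (nat_lit 0x180080004002000200086d0683))) 
(.lf (nat_lit 25116686) (dlOf (nat_lit 1) (nat_lit 0x40008be0801))))) (.nd (nat_lit 8) 
(.nd (nat_lit 12) 
(.lf (nat_lit 1345274382) (dlOf (nat_lit 2) (nat_lit 0x78594014d204000400400800018b37b02))) 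
(.lf (nat_lit 19878414) (dlOf (nat_lit 1) (nat_lit 0x4c004000800089d8682)))) 
(.lf (nat_lit 46091022) (dlOf (nat_lit 3) (nat_lit 0x95a4c0006404013ed26000310200020029385b01))))) 
(.nd (nat_lit 8) (.nd (nat_lit 9) 
(.lf (nat_lit 473384078) (dlOf (nat_lit 2) (nat_lit 0x102d8000240200020028f52b01))) 
(.nd (nat_lit 19) 
(.lf (nat_lit 20403854) (dlOf (nat_lit 1) (nat_lit 0x200080008002000200089d9e83))) 
(.lf (nat_lit 19879566) (dlOf (nat_lit 1) (nat_lit 0x3400189d9e81))))) (.nd (nat_lit 7) 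
(.nd (nat_lit 22) (.lf (nat_lit 36652302) (dlOf (nat_lit 1) (nat_lit 0x8008000400200040009073003))) 
(.lf (nat_lit 49235214) (dlOf (nat_lit 1) (nat_lit 0x20009463001)))) 
(.lf (nat_lit 2754567566) (dlOf (nat_lit 1) (nat_lit 0xa4002000c00080fc902))))))) (.nd (nat_lit 28) 
(.nd (nat_lit 21) (.nd (nat_lit 19) (.nd (nat_lit 8) (.nd (nat_lit 26) 
(.lf (nat_lit 1611087950) (dlOf (nat_lit 2) (nat_lit 0x1f0150000e00802300080308002026c00080d0503))) 
(.lf (nat_lit 738672718) (dlOf (nat_lit 2) (nat_lit 0x1f0150000e80802300080308002026c00080d0503)))) 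
(.lf (nat_lit 604456270) (dlOf (nat_lit 1) (nat_lit 0xc002000600082d3302)))) (.nd (nat_lit 7) 
(.nd (nat_lit 20) 
(.lf (nat_lit 13582414) (dlOf (nat_lit 2) (nat_lit 0x12dc630097deb000100100020008002000200140008730d03))) 
(.lf (nat_lit 14630990) (dlOf (nat_lit 1) (nat_lit 0x20008770701)))) (.nd (nat_lit 9) 
(.lf (nat_lit 2048206) (dlOf (nat_lit 2) (nat_lit 0x22d2900123818150480))) 
(.lf (nat_lit 39799502) (dlOf (nat_lit 1) (nat_lit 0x1000191f5881)))))) (.nd (nat_lit 8) 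
(.nd (nat_lit 12) (.nd (nat_lit 22) 
(.lf (nat_lit 46088270) (dlOf (nat_lit 2) (nat_lit 0x6d62100c24819380000))) 
(.lf (nat_lit 25116750) (dlOf (nat_lit 1) (nat_lit 0x1000400020018be1502)))) 
(.lf (nat_lit 19877966) (dlOf (nat_lit 1) (nat_lit 0x4002000200089d7d82)))) (.nd (nat_lit 7) 
(.nd (nat_lit 10) (.lf (nat_lit 3096910) (dlOf (nat_lit 1) (nat_lit 0x20018200601))) 
(.lf (nat_lit 40322382) (dlOf (nat_lit 1) (nat_lit 0x4004000400091f3302)))) 
(.lf (nat_lit 19876814) (dlOf (nat_lit 1) (nat_lit 0x13c004000800089d5d82)))))) (.nd (nat_lit 19) 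
(.nd (nat_lit 7) (.nd (nat_lit 20) (.nd (nat_lit 21) 
(.lf (nat_lit 3557245006) (dlOf (nat_lit 4) (nat_lit 0xa00000000402005c000000010100210000000000800c0008007c00200460008170703))) 
(.lf (nat_lit 472334414) (dlOf (nat_lit 1) (nat_lit 0x20028980001)))) 
(.lf (nat_lit 471285838) (dlOf (nat_lit 1) (nat_lit 0x200182e0181)))) (.nd (nat_lit 8) 
(.lf (nat_lit 1476872910) (dlOf (nat_lit 1) (nat_lit 0x400182d5881))) 
(.lf (nat_lit 1476871118) (dlOf (nat_lit 1) (nat_lit 0x1c00282d2881))))) (.nd (nat_lit 26) 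
(.nd (nat_lit 7) (.nd (nat_lit 9) 
(.lf (nat_lit 1343176782) (dlOf (nat_lit 7) (nat_lit 0x6224a00430f60028079c00c42fc00120000001285001a0f60000800800282bc00016040374000000040200ba000000010100d20000000000800c800801bc00200760008190703))) 
(.lf (nat_lit 1346325070) (dlOf (nat_lit 9) (nat_lit 0x3a01c0002281001c00e0001100800185a0000820402342d0015401c0001f02001d00e0000f00800905a000042cc002a01c000100d0000dc2000485a0008c03800035040032168001b00e000000100ce0008017000200020008f05283)))) 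
(.lf (nat_lit 5772362702) (dlOf (nat_lit 1) (nat_lit 0x40008092881)))) (.nd (nat_lit 8) 
(.nd (nat_lit 29) 
(.lf (nat_lit 470761550) (dlOf (nat_lit 2) (nat_lit 0x605f000000080098008005c002001a0008170703))) 
(.lf (nat_lit 1007632462) (dlOf (nat_lit 1) (nat_lit 0xd60008560701)))) 
(.lf (nat_lit 6376341838) (dlOf (nat_lit 7) (nat_lit 0x7b099003a048c0003808028426401301230000d020018099000c848c000220802402440000802010e131009209100001c1005a04c40300244000000400520018090d01))))))))) 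
(.nd (nat_lit 28) (.nd (nat_lit 18) (.nd (nat_lit 7) (.nd (nat_lit 26) (.nd (nat_lit 21) 
(.nd (nat_lit 23) (.nd (nat_lit 27) 
(.lf (nat_lit 1073954862) (dlOf (nat_lit 3) (nat_lit 0x1c0000002f02002e00000009018030c00))) 
(.lf (nat_lit 134430766) (dlOf (nat_lit 6) (nat_lit 0x3404a0018023000880bc001c0540002108010a04a007802480420118025005e010e02a000100500040150000780800f0128007408c002e02f000b015000074200268128012c08c00b802f00500150000702002a80080074002000c0008020583)))) 
(.nd (nat_lit 6) 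
(.lf (nat_lit 25378862) (dlOf (nat_lit 24) (nat_lit 0x38961a001a0000002902000b5e7801f2c340008000000510601acb0d00d600000014010001af3c027161a0034986004800000013c2002aac34000980400297e000041020648c1b000198102c460d801025d800064080b4583600031020004bc9003f5848000b41000a306c00c96120002c0400b0b09000150100d60000000a008001000000048040028000000200200b4c1b0000f81003060d80007008002b06c000320401d0000000050201a20000000201005200000000c080298000000020402717e001440fa001302680f080000000010025c00200280008c00602))) 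
(.lf (nat_lit 60506222) (dlOf (nat_lit 1) (nat_lit 0x1a0029880c01))))) (.nd (nat_lit 19) 
(.nd (nat_lit 8) 
(.lf (nat_lit 52641838) (dlOf (nat_lit 1) (nat_lit 0x2d800800a000200a20009560a03))) 
(.lf (nat_lit 23281966) (dlOf (nat_lit 1) (nat_lit 0x400200020008b80502)))) (.nd (nat_lit 22) 
(.lf (nat_lit 11223086) (dlOf (nat_lit 2) (nat_lit 0xc157c0008404000800200040008670682))) 
(.lf (nat_lit 15417390) (dlOf (nat_lit 1) (nat_lit 0xc00287f0901)))))) (.nd (nat_lit 27) 
(.nd (nat_lit 6) (.nd (nat_lit 20) 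
(.lf (nat_lit 604192814) (dlOf (nat_lit 1) (nat_lit 0x20018080701))) 
(.lf (nat_lit 2752725038) (dlOf (nat_lit 1) (nat_lit 0x20018030c01)))) 
(.lf (nat_lit 3288547694) (dlOf (nat_lit 1) (nat_lit 0x1a8008004400200260008090783)))) 
(.nd (nat_lit 29) 
(.lf (nat_lit 201539630) (dlOf (nat_lit 6) (nat_lit 0x3404a0018023000880bc001c0540002108010a04a007802480420118025005e010e02a000100500040150000780800f0128007408c002e02f000b015000074200268128012c08c00b802f00500150000702002a80080074002000c0008020583))) 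
(.lf (nat_lit 1812152366) (dlOf (nat_lit 15) (nat_lit 0x70068000920400600160004602008001800970058001141000f8060025c0160004404009a00b0002181009a0058001040804d802c000800402380160003e02012800b0001d01006a0000000e40804a002c000700400400160003602006c018008e0058002001001900000003508003800b00640000000c01000c000800e000200280008160583)))))) 
(.nd (nat_lit 21) (.nd (nat_lit 30) (.nd (nat_lit 6) (.nd (nat_lit 9) 
(.lf (nat_lit 39537070) (dlOf (nat_lit 1) (nat_lit 0x8008000c00200020009194e83))) 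
(.lf (nat_lit 671303598) (dlOf (nat_lit 2) (nat_lit 0x880200000604001400200040008144382)))) 
(.lf (nat_lit 671303406) (dlOf (nat_lit 2) (nat_lit 0x1a02e001500f800d004c000280c019c004003a0008143b02)))) 
(.nd (nat_lit 6) (.nd (nat_lit 11) 
(.lf (nat_lit 3288547758) (dlOf (nat_lit 2) (nat_lit 0x2017001d00080008008001800200260008090783))) 
(.lf (nat_lit 3221440942) (dlOf (nat_lit 4) (nat_lit 0x800002e840400040000174002000200000b97818114e80)))) 
(.lf (nat_lit 3288547822) (dlOf (nat_lit 2) (nat_lit 0x1701b0005940804b00080008002003c0008090d83))))) 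
(.nd (nat_lit 8) (.nd (nat_lit 6) 
(.lf (nat_lit 2754825902) (dlOf (nat_lit 1) (nat_lit 0x14c00280f7281))) 
(.lf (nat_lit 57363182) (dlOf (nat_lit 1) (nat_lit 0x400400020009795a02)))) (.nd (nat_lit 19) 
(.nd (nat_lit 20) (.lf (nat_lit 69421486) (dlOf (nat_lit 1) (nat_lit 0x8008000400200020008964e83))) 
(.lf (nat_lit 36915630) (dlOf (nat_lit 1) (nat_lit 0xa000400020019074e82)))) 
(.lf (nat_lit 37439918) (dlOf (nat_lit 1) (nat_lit 0x200190d4e81))))))) (.nd (nat_lit 21) 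
(.nd (nat_lit 29) (.nd (nat_lit 22) (.nd (nat_lit 9) (.nd (nat_lit 7) 
(.lf (nat_lit 6442926126) (dlOf (nat_lit 2) (nat_lit 0x20c0000002e0200160008230601))) 
(.lf (nat_lit 3221701038) (dlOf (nat_lit 1) (nat_lit 0x60028170781)))) (.nd (nat_lit 6) 
(.lf (nat_lit 1074220718) (dlOf (nat_lit 1) (nat_lit 0x400180f7281))) 
(.lf (nat_lit 50809582) (dlOf (nat_lit 5) (nat_lit 0x8d6fa003cb7c001e4e7000f847c007c23200120310007015801400000005420008023e00781190000f0200595bc8032a7280014236007011600060808000402800884040001c040144002002c00094c5a02))))) 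
(.nd (nat_lit 6) (.nd (nat_lit 20) (.nd (nat_lit 23) 
(.lf (nat_lit 21970990) (dlOf (nat_lit 5) (nat_lit 0x35639c0006604005b1ce000320200419160042c3800000c1000ae458000f1ce002987000000038a80c00))) 
(.lf (nat_lit 13582382) (dlOf (nat_lit 1) (nat_lit 0x20018730b01)))) 
(.lf (nat_lit 23019566) (dlOf (nat_lit 1) (nat_lit 0x80028b40781)))) 
(.lf (nat_lit 21446766) (dlOf (nat_lit 1) (nat_lit 0x20028a40c01))))) (.nd (nat_lit 26) 
(.nd (nat_lit 27) (.lf (nat_lit 1611087918) (dlOf (nat_lit 1) (nat_lit 0x5000180d0381))) 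
(.lf (nat_lit 2819047470) (dlOf (nat_lit 2) (nat_lit 0x806c001580200020018180d01)))) 
(.nd (nat_lit 20) (.nd (nat_lit 31) 
(.lf (nat_lit 738672686) (dlOf (nat_lit 1) (nat_lit 0x5000180d0381))) 
(.lf (nat_lit 2886156334) (dlOf (nat_lit 8) (nat_lit 0x9202c008600f809b0070044403602420040093001806c0000000641c04c0038010001b010d002003c800c01d4000000310a000201c00080020000c01000180b0000c038001e01b003a00a801c8010012000600720000001787000100e0014806c000c0060001806000601c000600d800048100ce807008b8036046200300008838170c00)))) 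
(.lf (nat_lit 2752987182) (dlOf (nat_lit 3) (nat_lit 0x9021c0004a04005c10e0001e02002a0028070801)))))) 
(.nd (nat_lit 19) (.nd (nat_lit 20) (.nd (nat_lit 23) 
(.lf (nat_lit 2572334) (dlOf (nat_lit 1) (nat_lit 0x40008170a01))) 
(.lf (nat_lit 27738158) (dlOf (nat_lit 1) (nat_lit 0x400200020008d20882)))) (.nd (nat_lit 10) 
(.lf (nat_lit 3620910) (dlOf (nat_lit 1) (nat_lit 0x2c800200a80008210982))) 
(.lf (nat_lit 41370670) (dlOf (nat_lit 1) (nat_lit 0xd80009242881))))) (.nd (nat_lit 6) 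
(.nd (nat_lit 7) (.lf (nat_lit 46091054) (dlOf (nat_lit 1) (nat_lit 0x40019385c01))) 
(.lf (nat_lit 19880622) (dlOf (nat_lit 1) (nat_lit 0x18800800d4002006a00089db783)))) 
(.nd (nat_lit 12) (.lf (nat_lit 12533870) (dlOf (nat_lit 2) (nat_lit 0xa249000000186d1500))) 
(.lf (nat_lit 19877998) (dlOf (nat_lit 1) (nat_lit 0x4002000200089d7d82)))))))) (.nd (nat_lit 26) 
(.nd (nat_lit 8) (.nd (nat_lit 18) (.nd (nat_lit 30) (.nd (nat_lit 9) 
(.lf (nat_lit 939737134) (dlOf (nat_lit 15) (nat_lit 0x70068000920400600160004602008001800970058001141000f8060025c0160004404009a00b0002181009a0058001040804d802c000800402380160003e02012800b0001d01006a0000000e40804a002c000700400400160003602006c018008e0058002001001900000003508003800b00640000000c01000c000800e000200280008160583))) 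
(.nd (nat_lit 27) 
(.lf (nat_lit 2416132654) (dlOf (nat_lit 2) (nat_lit 0x5010000000080018008000400200040008090e83))) 
(.lf (nat_lit 2550350382) (dlOf (nat_lit 2) (nat_lit 0x5010000000080018008000400200040008090e83))))) 
(.nd (nat_lit 10) (.nd (nat_lit 20) 
(.lf (nat_lit 1342390318) (dlOf (nat_lit 12) (nat_lit 0x1090c008c478004a1d100280e280015420019091c0040486007a23c004211b801b0744011439a004c1c500120e0800605cc000a62400d448e003823c000a0e880128714000a41000b048e000e243001d11e001008dc00743ee00621d100290e6800e07140028382000501200441c5000258100261238012874400ac38a0003706002a23c0001b01002e1238006090c00e8478007e23700310e880208734008c38a002a1c10001a88002a123801388f000c83a200521c50001a0400231238000cc08015891c001c486003a23c001f11b8010874400a039a00381c5000a0e08000c8400fd8008011000205e40008020583))) 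
(.lf (nat_lit 3490922542) (dlOf (nat_lit 1) (nat_lit 0x20018030c01)))) (.nd (nat_lit 6) 
(.lf (nat_lit 3490401326) (dlOf (nat_lit 1) (nat_lit 0x240028006081))) 
(.lf (nat_lit 3489877102) (dlOf (nat_lit 1) (nat_lit 0x400400020008006082)))))) (.nd (nat_lit 19) 
(.nd (nat_lit 20) 
(.lf (nat_lit 3624353838) (dlOf (nat_lit 8) (nat_lit 0x9202c008600f809b0074044403802420040093001806c00000005e1c04c003a010001c010d002003c800c01d40000002e0a000201d00080020000b41000180b0000c03a001e01c003a00b001c8010012000600720000001607000100e80148070000c0060001806000601d000600e000048100ce807408b8038046200300008838170c00))) 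
(.lf (nat_lit 3491184686) (dlOf (nat_lit 2) (nat_lit 0x40045000094080018008001800200040008070903)))) 
(.nd (nat_lit 6) 
(.lf (nat_lit 1343176750) (dlOf (nat_lit 8) (nat_lit 0x5a0000000b0100050f3800b00000002a0800203ce00400000000a0200060f3801080000002608000400000004020022000000018100090f3800008080140008011800200060008190403))) 
(.lf (nat_lit 3492759278) (dlOf (nat_lit 1) (nat_lit 0x80080004002000200080f3b03)))))) 
(.nd (nat_lit 7) (.nd (nat_lit 11) (.nd (nat_lit 6) (.nd (nat_lit 18) 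
(.lf (nat_lit 3494068526) (dlOf (nat_lit 1) (nat_lit 0x2800281b0501))) 
(.lf (nat_lit 805781806) (dlOf (nat_lit 1) (nat_lit 0x100080008002000400081a0503)))) 
(.lf (nat_lit 4026745198) (dlOf (nat_lit 1) (nat_lit 0x1a8008004400200260008090783)))) 
(.nd (nat_lit 18) (.nd (nat_lit 27) 
(.lf (nat_lit 3489876334) (dlOf (nat_lit 1) (nat_lit 0xe0028004e81))) 
(.lf (nat_lit 3624094062) (dlOf (nat_lit 1) (nat_lit 0x1800400020018144e82)))) 
(.lf (nat_lit 1476872558) (dlOf (nat_lit 1) (nat_lit 0x400182d4e81))))) (.nd (nat_lit 29) 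
(.nd (nat_lit 6) (.lf (nat_lit 6711099822) (dlOf (nat_lit 2) (nat_lit 0x5c015000af818091000))) 
(.nd (nat_lit 9) (.lf (nat_lit 3624095214) (dlOf (nat_lit 1) (nat_lit 0x80018146f01))) 
(.lf (nat_lit 3493020654) (dlOf (nat_lit 1) (nat_lit 0x80080088002000800080f2883))))) 
(.nd (nat_lit 6) 
(.lf (nat_lit 4026745262) (dlOf (nat_lit 1) (nat_lit 0x78008007400200180008090783))) 
(.nd (nat_lit 10) 
(.lf (nat_lit 4026745326) (dlOf (nat_lit 2) (nat_lit 0x1701b0005940804b00080008002003c0008090d83))) 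
(.lf (nat_lit 4160968174) (dlOf (nat_lit 1) (nat_lit 0x20008000c002000e00080a9c03)))))))) 
(.nd (nat_lit 11) (.nd (nat_lit 18) (.nd (nat_lit 10) (.nd (nat_lit 7) (.nd (nat_lit 27) 
(.lf (nat_lit 1946370094) (dlOf (nat_lit 3) (nat_lit 0x1c0000002c02002e00000009018030c00))) 
(.lf (nat_lit 469975086) (dlOf (nat_lit 12) (nat_lit 0x1090c008c478004a1d100280e280015420019091c0040486007a23c004211b801b0744011439a004c1c500120e0800605c4000a62400d448e003823c000a0e880128714000a41000b048e000e243001d11e001008dc00743ee00621d100290e6800e07140028382000501200441c5000258100261238012874400ac38a0003706002a23c0001b01002e1238006090c00e8478007e23700310e880208734008c38a002a1c10001a88002a123801388f000c83a200521c50001a0400231238000cc08015891c001c486003a23c001f11b8010874400a039a00381c5000a0e08000c8400fd8008011000205e40008020583)))) 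
(.lf (nat_lit 474169518) (dlOf (nat_lit 1) (nat_lit 0x200290e0601)))) (.nd (nat_lit 6) 
(.lf (nat_lit 3556988718) (dlOf (nat_lit 1) (nat_lit 0x14004000c000812a102))) 
(.lf (nat_lit 3020117102) (dlOf (nat_lit 1) (nat_lit 0x30008000800200080008129403))))) 
(.nd (nat_lit 31) (.nd (nat_lit 21) 
(.lf (nat_lit 5838946350) (dlOf (nat_lit 2) (nat_lit 0x20c000000280200160008230601))) 
(.lf (nat_lit 1009205294) (dlOf (nat_lit 2) (nat_lit 0x220e1000120190a0280)))) (.nd (nat_lit 8) 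
(.lf (nat_lit 4095164462) (dlOf (nat_lit 1) (nat_lit 0x44004002c0008070402))) 
(.lf (nat_lit 4228333870) (dlOf (nat_lit 2) (nat_lit 0x4380000008c04000400400020008090502)))))) 
(.nd (nat_lit 6) (.nd (nat_lit 7) (.nd (nat_lit 18) 
(.lf (nat_lit 4228597806) (dlOf (nat_lit 1) (nat_lit 0x40028114701))) 
(.lf (nat_lit 1946634286) (dlOf (nat_lit 1) (nat_lit 0x2800280f4701)))) (.nd (nat_lit 8) 
(.nd (nat_lit 12) (.lf (nat_lit 6376606382) (dlOf (nat_lit 1) (nat_lit 0x380018095681))) 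
(.lf (nat_lit 3556989614) (dlOf (nat_lit 8) (nat_lit 0x1b01c800a00de00a003f001701a0001502001b01c8016807e000530400d603f000288100cb01f8001400804180fc0009c0400a00e400ea03f0002282008801f8000e408075800804040020012000812b783)))) 
(.lf (nat_lit 4630727598) (dlOf (nat_lit 1) (nat_lit 0x400400020008095d02))))) (.nd (nat_lit 9) 
(.nd (nat_lit 8) 
(.lf (nat_lit 3556989038) (dlOf (nat_lit 5) (nat_lit 0x807000aa6020046072000501f800900e0008004400a470800020380000a810024022800080880000008001c002009a000812a882))) 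
(.lf (nat_lit 6376343918) (dlOf (nat_lit 1) (nat_lit 0x260018094e81)))) (.nd (nat_lit 7) 
(.lf (nat_lit 6376344174) (dlOf (nat_lit 1) (nat_lit 0x160018095381))) 
(.lf (nat_lit 6377917166) (dlOf (nat_lit 2) (nat_lit 0x12848c0003c040008004000e00080e5a02))))))))))))

end

end Pool.Agent.Lib.MP_5854e1_co.Cz

namespace Pool.Agent.Lib.MP_5854e1_co.Cz

noncomputable section

noncomputable def tz164 : DT := (.nd (nat_lit 17) (.nd (nat_lit 16) (.nd (nat_lit 6) 
(.nd (nat_lit 2) (.nd (nat_lit 18) (.nd (nat_lit 19) (.nd (nat_lit 28) (.nd (nat_lit 26) 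
(.nd (nat_lit 30) (.nd (nat_lit 27) 
(.lf (nat_lit 2147501699) (dlOf (nat_lit 1) (nat_lit 0x20028003a01))) 
(.lf (nat_lit 4966073987) (dlOf (nat_lit 1) (nat_lit 0xc00400020008003a02)))) (.nd (nat_lit 7) 
(.lf (nat_lit 5502944771) (dlOf (nat_lit 1) (nat_lit 0x8008000400200020008003683))) 
(.lf (nat_lit 5502944899) (dlOf (nat_lit 1) (nat_lit 0x8008000400200020008003a03))))) 
(.nd (nat_lit 8) (.nd (nat_lit 27) 
(.lf (nat_lit 2751486467) (dlOf (nat_lit 1) (nat_lit 0x540040002000800b282))) 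
(.lf (nat_lit 1811962371) (dlOf (nat_lit 1) (nat_lit 0x40040002000800b282)))) (.nd (nat_lit 9) 
(.lf (nat_lit 2751482115) (dlOf (nat_lit 1) (nat_lit 0x20028004b81))) 
(.lf (nat_lit 2348828419) (dlOf (nat_lit 1) (nat_lit 0x10008000c00200040008003b83)))))) 
(.nd (nat_lit 8) (.nd (nat_lit 7) (.nd (nat_lit 10) 
(.lf (nat_lit 470827011) (dlOf (nat_lit 1) (nat_lit 0x6ac004033600081c0002))) 
(.lf (nat_lit 4026549251) (dlOf (nat_lit 1) (nat_lit 0x800400020018002882)))) 
(.lf (nat_lit 2550156419) (dlOf (nat_lit 1) (nat_lit 0x80028006101)))) (.nd (nat_lit 9) 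
(.nd (nat_lit 7) (.lf (nat_lit 1476417795) (dlOf (nat_lit 1) (nat_lit 0x10000800a981))) 
(.lf (nat_lit 3691009411) (dlOf (nat_lit 1) (nat_lit 0x460008009901)))) (.nd (nat_lit 29) 
(.lf (nat_lit 2415937283) (dlOf (nat_lit 1) (nat_lit 0x400400020008003b82))) 
(.lf (nat_lit 4026550019) (dlOf (nat_lit 1) (nat_lit 0x80080068002000c0008003b83))))))) 
(.nd (nat_lit 21) (.nd (nat_lit 22) (.nd (nat_lit 26) (.nd (nat_lit 7) 
(.lf (nat_lit 1074282499) (dlOf (nat_lit 1) (nat_lit 0x380080054002000800081b0003))) 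
(.lf (nat_lit 8930947) (dlOf (nat_lit 1) (nat_lit 0x280008513a01)))) (.nd (nat_lit 8) 
(.nd (nat_lit 28) 
(.lf (nat_lit 1678262275) (dlOf (nat_lit 2) (nat_lit 0x100000000000400ac002008a00081c0002))) 
(.lf (nat_lit 3557310467) (dlOf (nat_lit 1) (nat_lit 0x200281c0001)))) 
(.lf (nat_lit 604520707) (dlOf (nat_lit 1) (nat_lit 0x4c00082e3581))))) (.nd (nat_lit 24) 
(.lf (nat_lit 4734979) (dlOf (nat_lit 1) (nat_lit 0x200282b0001))) (.nd (nat_lit 25) 
(.lf (nat_lit 21512195) (dlOf (nat_lit 1) (nat_lit 0x20008a40001))) 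
(.lf (nat_lit 55066627) (dlOf (nat_lit 7) (nat_lit 0x104c60002262000312f0002c974000a4a700022528003124c0322c1c004098c00104c4000325e000392e8001094e00164a5000924a8005924c0322a20004898c00044c4000125e000312e8001894a001449500082498064443800893180008988000c4bc000b25d0005129c001c92a018700c00104c6000a262000112f0002892a0186f0800044c600bd58196a0000)))))) 
(.nd (nat_lit 10) (.nd (nat_lit 20) (.nd (nat_lit 22) 
(.lf (nat_lit 2637827) (dlOf (nat_lit 4) (nat_lit 0xa28f4038c404003d30401bd602001e98200dea818180000))) 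
(.nd (nat_lit 23) (.lf (nat_lit 6832131) (dlOf (nat_lit 1) (nat_lit 0xa40008470001))) 
(.lf (nat_lit 48775171) (dlOf (nat_lit 1) (nat_lit 0x3a0009420001))))) 
(.lf (nat_lit 7880707) (dlOf (nat_lit 1) (nat_lit 0xa40008500001)))) (.nd (nat_lit 7) 
(.lf (nat_lit 1881687043) (dlOf (nat_lit 1) (nat_lit 0x18008000400200020008fe2883))) 
(.nd (nat_lit 23) (.lf (nat_lit 52971139) (dlOf (nat_lit 1) (nat_lit 0x400400060019573a02))) 
(.lf (nat_lit 61359747) (dlOf (nat_lit 1) (nat_lit 0x400400020009923a02)))))))) (.nd (nat_lit 28) 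
(.nd (nat_lit 21) (.nd (nat_lit 29) (.nd (nat_lit 27) (.nd (nat_lit 26) 
(.lf (nat_lit 4295245827) (dlOf (nat_lit 8) (nat_lit 0x320110045003800780040355e0c002800e000400100d5682000100b8002004c0353208000402e000401300030088002001c034aa1000b400e0178a02001e00700bb1810018003805d700800100080030002000400080c0003))) 
(.lf (nat_lit 67387395) (dlOf (nat_lit 1) (nat_lit 0xdc002019600080f0002)))) (.nd (nat_lit 30) 
(.lf (nat_lit 4429463555) (dlOf (nat_lit 8) (nat_lit 0x3201100450038007800403c3e0c002800e000400100f0e82000400b8000805803c0e08000802e000201600030088002001c03b701000b400e01aed02001e00700d64010018003806b040800100080030002000400080c0003))) 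
(.lf (nat_lit 3355721731) (dlOf (nat_lit 1) (nat_lit 0x3c002001600080d0002))))) (.nd (nat_lit 7) 
(.nd (nat_lit 30) (.lf (nat_lit 2684633091) (dlOf (nat_lit 1) (nat_lit 0x400280f0001))) 
(.lf (nat_lit 3758374915) (dlOf (nat_lit 2) (nat_lit 0x403000020110036101000a0008006c002003a0008160003)))) 
(.lf (nat_lit 537677443) (dlOf (nat_lit 1) (nat_lit 0x2c00280f7181))))) (.nd (nat_lit 9) 
(.nd (nat_lit 7) (.nd (nat_lit 19) 
(.lf (nat_lit 3424259) (dlOf (nat_lit 4) (nat_lit 0xded4807694080056e6403b1e04002f73201d6d0201100028200001))) 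
(.lf (nat_lit 2755411971) (dlOf (nat_lit 1) (nat_lit 0x9000801fc002004c0008180003)))) 
(.lf (nat_lit 2375811) (dlOf (nat_lit 1) (nat_lit 0x100028150101)))) (.nd (nat_lit 7) 
(.nd (nat_lit 8) (.lf (nat_lit 2376195) (dlOf (nat_lit 2) (nat_lit 0x4017000a6818150d80))) 
(.lf (nat_lit 50088707) (dlOf (nat_lit 2) (nat_lit 0xadefc60003102000200094c5a81)))) 
(.lf (nat_lit 2754891395) (dlOf (nat_lit 4) (nat_lit 0x6810c0005302003208600028010019044800902200009a080014004001400180f7182)))))) 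
(.nd (nat_lit 31) (.nd (nat_lit 27) (.nd (nat_lit 20) (.nd (nat_lit 29) 
(.lf (nat_lit 4563681283) (dlOf (nat_lit 27) (nat_lit 0x2e00d00355e04004406801aad0200b003400cda01008f01a004b00540260024019160600c4034003b00a801980480322a0c01740680066015002f0090064441801c80d0031d60401740680094015003f0090061c01801680d000d402a005a01200c3783003c019805d600803d80cc02e7404020c066017380200dc03300b9b81007b019805cd80804380cc02e6a0401ec0660172f02003003400b5a01001301a000c80cc02d520800b0068000a03300b5402007b019805a9c0800780cc0287404005c0660143802003203300a1b01001001980502c0800980d0028080400340680140102000400280c0001))) 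
(.lf (nat_lit 1879326723) (dlOf (nat_lit 5) (nat_lit 0x102a00020144001009c01865060006057000602a00020144001009c0186408000e057000902a00050144001809c0186308000e057000902a00058144001c09c0186208002600080e0001)))) 
(.lf (nat_lit 1343504387) (dlOf (nat_lit 1) (nat_lit 0xc000200800008280002)))) (.nd (nat_lit 7) 
(.lf (nat_lit 4697899011) (dlOf (nat_lit 27) (nat_lit 0x2e00d003c3e04004406801e1d0200b003400e9481008f01a004b0054026002401c630600c4034003b00a80198048038c40c01740680066015002f0090071781801c80d0038a00401740680094015003f009006f581801680d000d402a005a01200dea83007b0198057700804180cc02bb40401b8066015d90200f603300aec01008701980575c0803d80cc02ba20400f0066015ca02003003400aa801001301a000c80cc02a860800b0068000a03300aa102007b0198055040800b80cc0285404003c0660142902003203300a130100100198050240800980d0027f6040034068013f702000400280c0001))) 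
(.lf (nat_lit 1009011075) (dlOf (nat_lit 1) (nat_lit 0x1a0019004e81))))) (.nd (nat_lit 26) 
(.nd (nat_lit 7) (.nd (nat_lit 19) 
(.lf (nat_lit 2953068547) (dlOf (nat_lit 2) (nat_lit 0x400000161c040010004002600080f0002))) 
(.lf (nat_lit 3493609475) (dlOf (nat_lit 1) (nat_lit 0x9000801fc002004c0008180003)))) 
(.lf (nat_lit 3624160643) (dlOf (nat_lit 2) (nat_lit 0x390200000340802600080204002000a0008146c03)))) 
(.nd (nat_lit 27) (.lf (nat_lit 3020177411) (dlOf (nat_lit 1) (nat_lit 0x20018150001))) 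
(.lf (nat_lit 2617524227) (dlOf (nat_lit 1) (nat_lit 0x3c002001600080d0002)))))))) 
(.nd (nat_lit 18) (.nd (nat_lit 10) (.nd (nat_lit 26) (.nd (nat_lit 22) (.nd (nat_lit 9) 
(.nd (nat_lit 27) 
(.lf (nat_lit 805847047) (dlOf (nat_lit 3) (nat_lit 0x24000017e102002c000000000181c0000))) 
(.lf (nat_lit 3624419335) (dlOf (nat_lit 1) (nat_lit 0x680080168002003c00081a0483)))) 
(.nd (nat_lit 8) (.lf (nat_lit 1345864199) (dlOf (nat_lit 1) (nat_lit 0x260028e07b01))) 
(.lf (nat_lit 5771381511) (dlOf (nat_lit 1) (nat_lit 0x1800400320018005b02))))) (.nd (nat_lit 19) 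
(.nd (nat_lit 23) (.lf (nat_lit 22036487) (dlOf (nat_lit 1) (nat_lit 0x8008000400200020008a90003))) 
(.lf (nat_lit 30425095) (dlOf (nat_lit 1) (nat_lit 0x6800200440008e30002)))) (.nd (nat_lit 21) 
(.lf (nat_lit 21512199) (dlOf (nat_lit 1) (nat_lit 0x440008a40001))) 
(.lf (nat_lit 15220743) (dlOf (nat_lit 2) (nat_lit 0x6775003338187c0000)))))) (.nd (nat_lit 9) 
(.nd (nat_lit 7) (.nd (nat_lit 8) (.nd (nat_lit 27) 
(.lf (nat_lit 1678262279) (dlOf (nat_lit 3) (nat_lit 0x2400001b4d02002c000000000181c0000))) 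
(.lf (nat_lit 2886221831) (dlOf (nat_lit 1) (nat_lit 0x680080168002003c00081a0483)))) 
(.lf (nat_lit 67649799) (dlOf (nat_lit 1) (nat_lit 0x2200182d0701)))) (.nd (nat_lit 8) 
(.lf (nat_lit 1409826951) (dlOf (nat_lit 1) (nat_lit 0x100018090101))) 
(.lf (nat_lit 69224839) (dlOf (nat_lit 1) (nat_lit 0xc0018904e81))))) (.nd (nat_lit 28) 
(.nd (nat_lit 11) 
(.lf (nat_lit 604520967) (dlOf (nat_lit 2) (nat_lit 0x1c07a0012034000801500040080001c018000e00900080000004f8380008008000c002000600082e8003))) 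
(.lf (nat_lit 2751486471) (dlOf (nat_lit 1) (nat_lit 0x4000800b281)))) (.nd (nat_lit 7) 
(.lf (nat_lit 5301619463) (dlOf (nat_lit 2) (nat_lit 0x100140011008800500380005c0c01c800401200018005b02))) 
(.lf (nat_lit 872434311) (dlOf (nat_lit 1) (nat_lit 0x40018005481))))))) (.nd (nat_lit 12) 
(.nd (nat_lit 9) (.nd (nat_lit 7) (.nd (nat_lit 8) 
(.lf (nat_lit 2147501063) (dlOf (nat_lit 2) (nat_lit 0x4005000e86040008004000e0018002882))) 
(.lf (nat_lit 2754628871) (dlOf (nat_lit 1) (nat_lit 0x200280f6681)))) (.nd (nat_lit 8) 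
(.lf (nat_lit 473449607) (dlOf (nat_lit 4) (nat_lit 0x101f40002602000c0fa000128100090a9000383e80048124000240600340028f52b01))) 
(.lf (nat_lit 4227878279) (dlOf (nat_lit 1) (nat_lit 0x2400200400008006c82))))) (.nd (nat_lit 26) 
(.nd (nat_lit 7) 
(.lf (nat_lit 5502944775) (dlOf (nat_lit 1) (nat_lit 0x8008000800200020008003683))) 
(.lf (nat_lit 8406663) (dlOf (nat_lit 1) (nat_lit 0x20028513a01)))) (.nd (nat_lit 8) 
(.lf (nat_lit 5435835911) (dlOf (nat_lit 2) (nat_lit 0x3001f000030080078008000400200260008003683))) 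
(.lf (nat_lit 3691007751) (dlOf (nat_lit 2) (nat_lit 0x240074007e804020000400040008007482)))))) 
(.nd (nat_lit 7) (.nd (nat_lit 27) (.nd (nat_lit 9) 
(.lf (nat_lit 1342198791) (dlOf (nat_lit 2) (nat_lit 0x25047001270080488008002000200be0008009203))) 
(.lf (nat_lit 2684376583) (dlOf (nat_lit 1) (nat_lit 0x400200020008009c02)))) (.nd (nat_lit 8) 
(.lf (nat_lit 469783559) (dlOf (nat_lit 2) (nat_lit 0x250470028c4080488008002000200be0008009203))) 
(.lf (nat_lit 3355464967) (dlOf (nat_lit 3) (nat_lit 0x60188000340800100c40000204000400400020008009602))))) 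
(.nd (nat_lit 9) (.nd (nat_lit 27) 
(.lf (nat_lit 1409309831) (dlOf (nat_lit 1) (nat_lit 0x2002800c201))) 
(.lf (nat_lit 4227882119) (dlOf (nat_lit 1) (nat_lit 0x2002800c201)))) 
(.lf (nat_lit 2684376711) (dlOf (nat_lit 1) (nat_lit 0x40028009e01))))))) (.nd (nat_lit 20) 
(.nd (nat_lit 28) (.nd (nat_lit 10) (.nd (nat_lit 31) (.nd (nat_lit 19) (.nd (nat_lit 21) 
(.lf (nat_lit 4362354695) (dlOf (nat_lit 1) (nat_lit 0x30008003000200060008030583))) 
(.lf (nat_lit 10764295) (dlOf (nat_lit 1) (nat_lit 0x400200040008620482)))) 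
(.lf (nat_lit 17580039) (dlOf (nat_lit 1) (nat_lit 0x68002004400088e0002)))) (.nd (nat_lit 27) 
(.lf (nat_lit 2684633095) (dlOf (nat_lit 1) (nat_lit 0xc00400b600180f0002))) 
(.lf (nat_lit 3355721735) (dlOf (nat_lit 1) (nat_lit 0x70004002200080d0002))))) (.nd (nat_lit 7) 
(.nd (nat_lit 9) (.lf (nat_lit 2818858247) (dlOf (nat_lit 1) (nat_lit 0x30002812c601))) 
(.lf (nat_lit 2885961479) (dlOf (nat_lit 1) (nat_lit 0x4400200280008143b82)))) (.nd (nat_lit 9) 
(.lf (nat_lit 19682439) (dlOf (nat_lit 1) (nat_lit 0xc200089d9501))) 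
(.lf (nat_lit 1610892935) (dlOf (nat_lit 1) (nat_lit 0x2a0018093a01)))))) (.nd (nat_lit 26) 
(.nd (nat_lit 27) (.nd (nat_lit 22) 
(.lf (nat_lit 4563681287) (dlOf (nat_lit 10) (nat_lit 0x4601200c8b01000600a800600480322a08002c02401913020008034000400a80058048032220c002002a001a01200c3802000600a80050048030de08002402a001c01200c36820004009005ec00808680cc02e5e04017c004005a00080c0002))) 
(.lf (nat_lit 3494133767) (dlOf (nat_lit 1) (nat_lit 0x60002002000081b0002)))) (.nd (nat_lit 32) 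
(.lf (nat_lit 402931719) (dlOf (nat_lit 1) (nat_lit 0x400080004002000200080b0003))) 
(.lf (nat_lit 4697899015) (dlOf (nat_lit 10) (nat_lit 0x4601200e3181000600a80060048038c408002c02401c60020008034000400a80058048038bc0c002002a001a01200deb02000600a80050048037aa08002402a001c01200de9820004009006c6c0808680cc02ba204017c004005a00080c0002))))) 
(.nd (nat_lit 27) (.nd (nat_lit 7) 
(.lf (nat_lit 335822855) (dlOf (nat_lit 1) (nat_lit 0x400080004002000200080b0003))) 
(.lf (nat_lit 5167661191) (dlOf (nat_lit 3) (nat_lit 0x28078027801a00160010001b030214009811600080006408000c004001e00180f0e02)))) 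
(.nd (nat_lit 29) (.lf (nat_lit 2617524231) (dlOf (nat_lit 1) (nat_lit 0x70004002200080d0002))) 
(.lf (nat_lit 4228136967) (dlOf (nat_lit 1) (nat_lit 0x30008003000200060008030583))))))) 
(.nd (nat_lit 19) (.nd (nat_lit 24) (.nd (nat_lit 28) (.nd (nat_lit 9) 
(.lf (nat_lit 47464455) (dlOf (nat_lit 1) (nat_lit 0x4004000200093f0002))) 
(.lf (nat_lit 3424775) (dlOf (nat_lit 1) (nat_lit 0x20004001a0008200d82)))) (.nd (nat_lit 26) 
(.lf (nat_lit 1343504391) (dlOf (nat_lit 2) (nat_lit 0x3604e8029a0080058008008000200100008280003))) 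
(.lf (nat_lit 471089159) (dlOf (nat_lit 3) (nat_lit 0x3013a001608e0053e8200060470029b0080018008001c00200040008270003))))) 
(.nd (nat_lit 10) (.nd (nat_lit 22) 
(.lf (nat_lit 18104327) (dlOf (nat_lit 1) (nat_lit 0x38008004800200100008910583))) 
(.lf (nat_lit 22298631) (dlOf (nat_lit 1) (nat_lit 0x1b80018ac0001)))) 
(.lf (nat_lit 20204551) (dlOf (nat_lit 1) (nat_lit 0x200289d5f81))))) (.nd (nat_lit 21) 
(.nd (nat_lit 7) (.nd (nat_lit 22) 
(.lf (nat_lit 471613447) (dlOf (nat_lit 4) (nat_lit 0x58584001429c000e09d0001047001840200090584001429c001609d0002047001800200060584001829c001009d000c0470016e42002500080104002004a0008360283))) 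
(.lf (nat_lit 22822919) (dlOf (nat_lit 1) (nat_lit 0x8008000400200020008b30003)))) 
(.lf (nat_lit 1851783) (dlOf (nat_lit 1) (nat_lit 0x20028150781)))) (.nd (nat_lit 26) 
(.lf (nat_lit 3493609479) (dlOf (nat_lit 1) (nat_lit 0x400400020018180482))) 
(.lf (nat_lit 2755411975) (dlOf (nat_lit 1) (nat_lit 0x400400020018180482))))))))) 
(.nd (nat_lit 28) (.nd (nat_lit 9) (.nd (nat_lit 18) (.nd (nat_lit 19) (.nd (nat_lit 11) 
(.nd (nat_lit 22) (.nd (nat_lit 27) 
(.lf (nat_lit 4362093635) (dlOf (nat_lit 1) (nat_lit 0x20028002881))) 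
(.lf (nat_lit 201344067) (dlOf (nat_lit 2) (nat_lit 0xc05e015d30200020018002881)))) 
(.nd (nat_lit 2) (.lf (nat_lit 4210883) (dlOf (nat_lit 1) (nat_lit 0x3c00400520008290402))) 
(.lf (nat_lit 39863623) (dlOf (nat_lit 1) (nat_lit 0xae00191f3301))))) (.nd (nat_lit 10) 
(.nd (nat_lit 7) (.lf (nat_lit 4362094915) (dlOf (nat_lit 1) (nat_lit 0x60028004d01))) 
(.lf (nat_lit 67131843) (dlOf (nat_lit 2) (nat_lit 0x700380296c08000800801800020006000800af83)))) 
(.nd (nat_lit 2) 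
(.lf (nat_lit 134241603) (dlOf (nat_lit 1) (nat_lit 0x1000800080020002000800c903))) 
(.lf (nat_lit 134241607) (dlOf (nat_lit 1) (nat_lit 0x40040006000800c902)))))) (.nd (nat_lit 21) 
(.nd (nat_lit 30) (.nd (nat_lit 32) 
(.lf (nat_lit 67649603) (dlOf (nat_lit 1) (nat_lit 0x5a00182d0001))) 
(.lf (nat_lit 4362616899) (dlOf (nat_lit 1) (nat_lit 0x80080004002000200080b0d03)))) 
(.nd (nat_lit 2) (.lf (nat_lit 1678262339) (dlOf (nat_lit 2) (nat_lit 0x10000000168181c0d00))) 
(.lf (nat_lit 3221766215) (dlOf (nat_lit 2) (nat_lit 0xf000000098080008008007800200440008180e03))))) 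
(.nd (nat_lit 2) (.nd (nat_lit 7) 
(.lf (nat_lit 2754101315) (dlOf (nat_lit 1) (nat_lit 0x8000400c400080c1882))) 
(.lf (nat_lit 58212803) (dlOf (nat_lit 4) (nat_lit 0x100000022204006708400318400008082000fc210003f40801d00080068002000c00097c7003)))) 
(.nd (nat_lit 7) 
(.lf (nat_lit 2754101319) (dlOf (nat_lit 3) (nat_lit 0x1e03f2001550201621f9000000180c1880))) 
(.lf (nat_lit 41436359) (dlOf (nat_lit 1) (nat_lit 0x100019242d01))))))) (.nd (nat_lit 2) 
(.nd (nat_lit 21) (.nd (nat_lit 7) (.nd (nat_lit 11) 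
(.lf (nat_lit 10240067) (dlOf (nat_lit 1) (nat_lit 0x10008001c002000e00085c0e03))) 
(.lf (nat_lit 2751748163) (dlOf (nat_lit 1) (nat_lit 0xa000800a681)))) (.nd (nat_lit 20) 
(.lf (nat_lit 42222787) (dlOf (nat_lit 1) (nat_lit 0x20029242d01))) 
(.lf (nat_lit 51659971) (dlOf (nat_lit 1) (nat_lit 0x400400020009512d02))))) (.nd (nat_lit 8) 
(.nd (nat_lit 7) (.lf (nat_lit 2753839171) (dlOf (nat_lit 1) (nat_lit 0x200080a0d01))) 
(.lf (nat_lit 2375875) (dlOf (nat_lit 1) (nat_lit 0x15800400a80008150402)))) (.nd (nat_lit 19) 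
(.lf (nat_lit 2376003) (dlOf (nat_lit 1) (nat_lit 0x48008002000200100008150603))) 
(.lf (nat_lit 19677507) (dlOf (nat_lit 1) (nat_lit 0x4002000200089d0c02)))))) (.nd (nat_lit 8) 
(.nd (nat_lit 20) (.nd (nat_lit 24) 
(.lf (nat_lit 9191495) (dlOf (nat_lit 1) (nat_lit 0x18008000400200020008530603))) 
(.lf (nat_lit 59523143) (dlOf (nat_lit 3) (nat_lit 0xf4cfa004a67c005d2ca0007964c01089cc006e4d4000ad060007269800238080100008001400200140009800603)))) 
(.lf (nat_lit 1851463) (dlOf (nat_lit 1) (nat_lit 0x20018150001)))) (.nd (nat_lit 11) 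
(.lf (nat_lit 134496583) (dlOf (nat_lit 1) (nat_lit 0x400400020008047f02))) 
(.lf (nat_lit 2751744327) (dlOf (nat_lit 2) (nat_lit 0x224700006818004d00))))))) (.nd (nat_lit 21) 
(.nd (nat_lit 2) (.nd (nat_lit 10) (.nd (nat_lit 7) (.nd (nat_lit 8) 
(.lf (nat_lit 2751486531) (dlOf (nat_lit 8) (nat_lit 0x1020a000180100081050000bc08003882800180000002e04001020a00016810011105000280000000a080020414001a1d400001020008105000607500000008002c0040006001800b502))) 
(.lf (nat_lit 2885704515) (dlOf (nat_lit 1) (nat_lit 0x2800800180020010000800bc83)))) 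
(.lf (nat_lit 1275087811) (dlOf (nat_lit 2) (nat_lit 0x1c0000000002000a0008005d81)))) 
(.nd (nat_lit 18) (.nd (nat_lit 26) 
(.lf (nat_lit 1207977539) (dlOf (nat_lit 1) (nat_lit 0x20018003801))) 
(.lf (nat_lit 5435835971) (dlOf (nat_lit 2) (nat_lit 0xe03e00008818003800)))) 
(.lf (nat_lit 1610892867) (dlOf (nat_lit 1) (nat_lit 0x100028093801))))) (.nd (nat_lit 8) 
(.nd (nat_lit 10) (.nd (nat_lit 26) 
(.lf (nat_lit 5905859143) (dlOf (nat_lit 1) (nat_lit 0x400400160008158d02))) 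
(.lf (nat_lit 3959702087) (dlOf (nat_lit 1) (nat_lit 0x18008000400200020008128d03)))) 
(.lf (nat_lit 1610892871) (dlOf (nat_lit 1) (nat_lit 0x100028093801)))) (.nd (nat_lit 7) 
(.lf (nat_lit 1275087687) (dlOf (nat_lit 2) (nat_lit 0x880000029c04001c002002c0008005c02))) 
(.nd (nat_lit 18) 
(.lf (nat_lit 5368728519) (dlOf (nat_lit 4) (nat_lit 0x90098002804000044080038026000e01000004820008009800100400000008000400400020018005d82))) 
(.lf (nat_lit 4496575431) (dlOf (nat_lit 9) (nat_lit 0xa80d0008c066002a03200120180000742000f80d000940660014032000e0180002008c00038140084068007e0330017019001580c00078046000180a00680320000b0100030190000500800c80c8000220400040640000f02003803200020110000001000580080034002004800080e5d83))))))) 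
(.nd (nat_lit 19) (.nd (nat_lit 7) (.nd (nat_lit 2) (.nd (nat_lit 8) 
(.lf (nat_lit 3162691) (dlOf (nat_lit 1) (nat_lit 0x20028201101))) 
(.lf (nat_lit 2754894659) (dlOf (nat_lit 1) (nat_lit 0x800280fbc81)))) 
(.lf (nat_lit 23347783) (dlOf (nat_lit 1) (nat_lit 0x400200020008b81102)))) (.nd (nat_lit 10) 
(.lf (nat_lit 19944131) (dlOf (nat_lit 1) (nat_lit 0x4002000200089d8c82))) 
(.lf (nat_lit 2754629315) (dlOf (nat_lit 3) (nat_lit 0xa02400020100000a810002808000032040040002003000080f7282))))) 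
(.nd (nat_lit 10) (.nd (nat_lit 18) 
(.lf (nat_lit 12075587) (dlOf (nat_lit 1) (nat_lit 0x4002000200086c1102))) 
(.lf (nat_lit 8143427) (dlOf (nat_lit 1) (nat_lit 0x400200020008511582)))) (.nd (nat_lit 23) 
(.nd (nat_lit 24) (.lf (nat_lit 69748291) (dlOf (nat_lit 1) (nat_lit 0x840018bf3801))) 
(.lf (nat_lit 52971075) (dlOf (nat_lit 1) (nat_lit 0x20029573801)))) 
(.lf (nat_lit 61359683) (dlOf (nat_lit 1) (nat_lit 0x400400020009923802)))))))) (.nd (nat_lit 7) 
(.nd (nat_lit 27) (.nd (nat_lit 19) (.nd (nat_lit 31) (.nd (nat_lit 29) (.nd (nat_lit 2) 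
(.lf (nat_lit 1342455875) (dlOf (nat_lit 2) (nat_lit 0x41248005871c0000008000800200200008030e02))) 
(.lf (nat_lit 1342197831) (dlOf (nat_lit 1) (nat_lit 0x16c0018007d81)))) (.nd (nat_lit 9) 
(.lf (nat_lit 1879326787) (dlOf (nat_lit 1) (nat_lit 0x80080004002000200080e0d03))) 
(.lf (nat_lit 6174295619) (dlOf (nat_lit 1) (nat_lit 0x400280d3801))))) (.nd (nat_lit 2) 
(.nd (nat_lit 8) 
(.lf (nat_lit 2483306563) (dlOf (nat_lit 1) (nat_lit 0x20008002c002002400080a0e03))) 
(.lf (nat_lit 3493087043) (dlOf (nat_lit 6) (nat_lit 0x7a0540035029801e014400cc0a0006e04e003a026801f011400fc07a00520390029005800080000006c2c00900a80034051002b0228000d41801d015000c00a60074051002e028001d013800d809a0074045003a01e8015802c0006824006c0ba000c05c000202b8019015000b00a6006e051002e028001c813800d809a0074045000401f801d00f4004005c004c021002a00e00060068002c01600260000001592000802f0000900800200080004002000e00080f3e03)))) 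
(.nd (nat_lit 8) 
(.lf (nat_lit 3492036679) (dlOf (nat_lit 1) (nat_lit 0x400080030002001e00080a0e03))) 
(.lf (nat_lit 4093658439) (dlOf (nat_lit 1) (nat_lit 0x100028003301)))))) (.nd (nat_lit 18) 
(.nd (nat_lit 2) (.nd (nat_lit 21) 
(.lf (nat_lit 805847107) (dlOf (nat_lit 2) (nat_lit 0x10000000168181c0d00))) 
(.lf (nat_lit 3492298819) (dlOf (nat_lit 2) (nat_lit 0x12c1e7000000180c1400)))) 
(.lf (nat_lit 3492298823) (dlOf (nat_lit 3) (nat_lit 0xd1168000d00800f08c80006404005c004003200180c1482)))) 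
(.nd (nat_lit 2) (.nd (nat_lit 20) 
(.lf (nat_lit 1879851075) (dlOf (nat_lit 1) (nat_lit 0x80018390e81))) 
(.lf (nat_lit 1346125891) (dlOf (nat_lit 3) (nat_lit 0x505340048e0401e029800e814b00d406b800550180008008000400200020008e60603)))) 
(.lf (nat_lit 1346125895) (dlOf (nat_lit 1) (nat_lit 0x80008e60601)))))) (.nd (nat_lit 10) 
(.nd (nat_lit 20) (.nd (nat_lit 18) 
(.lf (nat_lit 4228399171) (dlOf (nat_lit 1) (nat_lit 0x80080004002000200080b0d03))) 
(.nd (nat_lit 29) 
(.lf (nat_lit 470040643) (dlOf (nat_lit 2) (nat_lit 0x41248005871c0000008000800200200008030e02))) 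
(.lf (nat_lit 1006911555) (dlOf (nat_lit 1) (nat_lit 0x80080004002000200080e0d03))))) 
(.nd (nat_lit 2) (.nd (nat_lit 26) 
(.lf (nat_lit 5773213763) (dlOf (nat_lit 3) (nat_lit 0x7027e0003e02035c13f01f709900005c100020008005c002003e00080b0583))) 
(.lf (nat_lit 6377193539) (dlOf (nat_lit 3) (nat_lit 0x702640003e02035c13201f709180005c100020008005c002003e00080b0583)))) 
(.nd (nat_lit 26) 
(.lf (nat_lit 5773213767) (dlOf (nat_lit 2) (nat_lit 0x8827c001e131000078280b0600))) 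
(.lf (nat_lit 6377193543) (dlOf (nat_lit 2) (nat_lit 0x88262001e122000078280b0600)))))) 
(.nd (nat_lit 8) (.nd (nat_lit 9) 
(.lf (nat_lit 2550156355) (dlOf (nat_lit 1) (nat_lit 0x1c0028006081))) 
(.lf (nat_lit 474236483) (dlOf (nat_lit 1) (nat_lit 0x2c00290e3801)))) (.nd (nat_lit 2) 
(.nd (nat_lit 12) (.lf (nat_lit 4227878211) (dlOf (nat_lit 1) (nat_lit 0xc00400140008006982))) 
(.lf (nat_lit 4227882307) (dlOf (nat_lit 2) (nat_lit 0x590190019880801b000801e80020040000800c903)))) 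
(.lf (nat_lit 4227882311) (dlOf (nat_lit 1) (nat_lit 0x18000800200020052000800c903))))))) 
(.nd (nat_lit 9) (.nd (nat_lit 18) (.nd (nat_lit 11) (.nd (nat_lit 19) 
(.lf (nat_lit 6375358915) (dlOf (nat_lit 1) (nat_lit 0x20018001081))) 
(.lf (nat_lit 1009271235) (dlOf (nat_lit 1) (nat_lit 0x180080010002000800090e1083)))) 
(.nd (nat_lit 12) 
(.lf (nat_lit 1346390467) (dlOf (nat_lit 1) (nat_lit 0x8008000400200020008f64e83))) 
(.nd (nat_lit 26) 
(.lf (nat_lit 1476417987) (dlOf (nat_lit 2) (nat_lit 0x807400a5a020028002800af81))) 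
(.lf (nat_lit 3691010499) (dlOf (nat_lit 10) (nat_lit 0x180740153e04007003a00040040052882000900e8029400800500740149e04001003a00a4602000601d0051e01000300e8028ec0800300740133604003c03800991020060000800af81)))))) 
(.nd (nat_lit 2) (.nd (nat_lit 8) 
(.lf (nat_lit 4563681475) (dlOf (nat_lit 1) (nat_lit 0x1c002001200080c1b82))) 
(.lf (nat_lit 5772165571) (dlOf (nat_lit 2) (nat_lit 0x1208e0000e0080020008003400200160008091083)))) 
(.nd (nat_lit 10) (.lf (nat_lit 4697899207) (dlOf (nat_lit 2) (nat_lit 0x20140000d0180c1780))) 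
(.nd (nat_lit 11) 
(.lf (nat_lit 473711815) (dlOf (nat_lit 1) (nat_lit 0x8008000400200040008fa2d03))) 
(.lf (nat_lit 3624160455) (dlOf (nat_lit 3) (nat_lit 0xb01b000080000006408002c06c0002034000c00000008c180028008000400200500008146383))))))) 
(.nd (nat_lit 2) (.nd (nat_lit 8) (.nd (nat_lit 11) (.nd (nat_lit 18) 
(.lf (nat_lit 1879069379) (dlOf (nat_lit 1) (nat_lit 0x400200020008008c82))) 
(.lf (nat_lit 3557053123) (dlOf (nat_lit 1) (nat_lit 0x400200020008128c82)))) 
(.lf (nat_lit 1342200515) (dlOf (nat_lit 1) (nat_lit 0x40020002000800b982)))) (.nd (nat_lit 29) 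
(.nd (nat_lit 32) (.lf (nat_lit 402672579) (dlOf (nat_lit 1) (nat_lit 0x60018005d81))) 
(.lf (nat_lit 4697639875) (dlOf (nat_lit 2) (nat_lit 0x202c0000a018005d80)))) (.nd (nat_lit 10) 
(.lf (nat_lit 2080394179) (dlOf (nat_lit 2) (nat_lit 0x7013800070080018008006800200060008005d83))) 
(.lf (nat_lit 2952810435) (dlOf (nat_lit 1) (nat_lit 0x7400200100008007a82)))))) (.nd (nat_lit 26) 
(.nd (nat_lit 8) (.lf (nat_lit 1342197447) (dlOf (nat_lit 1) (nat_lit 0x220018007301))) 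
(.nd (nat_lit 27) 
(.lf (nat_lit 6710905799) (dlOf (nat_lit 4) (nat_lit 0xc0140000e81000200a000070080008054000c00a000190400020018005d81))) 
(.lf (nat_lit 2013285319) (dlOf (nat_lit 1) (nat_lit 0x1800200020008005d82))))) (.nd (nat_lit 8) 
(.lf (nat_lit 4227878599) (dlOf (nat_lit 1) (nat_lit 0x20018007301))) (.nd (nat_lit 12) 
(.lf (nat_lit 5301619655) (dlOf (nat_lit 3) (nat_lit 0x6603e0001101000101f000024080008008006000200360008005d83))) 
(.lf (nat_lit 4227881927) (dlOf (nat_lit 1) (nat_lit 0x3800800540020018000800be83))))))))))) 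
(.nd (nat_lit 28) (.nd (nat_lit 6) (.nd (nat_lit 18) (.nd (nat_lit 19) (.nd (nat_lit 20) 
(.nd (nat_lit 26) (.nd (nat_lit 31) (.nd (nat_lit 2) (.nd (nat_lit 22) 
(.lf (nat_lit 44122115) (dlOf (nat_lit 1) (nat_lit 0x200192c0001))) 
(.lf (nat_lit 14761987) (dlOf (nat_lit 1) (nat_lit 0x1780080148002004c0008770003)))) 
(.lf (nat_lit 536954631) (dlOf (nat_lit 1) (nat_lit 0x6400400040008003b82)))) (.nd (nat_lit 2) 
(.nd (nat_lit 7) (.lf (nat_lit 6576751107) (dlOf (nat_lit 1) (nat_lit 0x200280b0d81))) 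
(.lf (nat_lit 6576750723) (dlOf (nat_lit 1) (nat_lit 0x1800280b0101)))) 
(.lf (nat_lit 3221307399) (dlOf (nat_lit 1) (nat_lit 0x20018090001))))) (.nd (nat_lit 7) 
(.nd (nat_lit 2) (.nd (nat_lit 9) 
(.lf (nat_lit 4362164227) (dlOf (nat_lit 1) (nat_lit 0x22000800600020016000800a603))) 
(.lf (nat_lit 3825287683) (dlOf (nat_lit 7) (nat_lit 0x2b401d015900c80028060000fa0c056403a02ac01900020000001f0180b1007405640320007504011401d00a100c8001d0100b2807405700320007304015a01d009600c800000100040008030800200d200080b0d83)))) 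
(.nd (nat_lit 27) (.lf (nat_lit 604061703) (dlOf (nat_lit 1) (nat_lit 0x400200020008010002))) 
(.lf (nat_lit 3959504903) (dlOf (nat_lit 1) (nat_lit 0x20018090001))))) (.nd (nat_lit 9) 
(.nd (nat_lit 27) (.lf (nat_lit 5972770947) (dlOf (nat_lit 1) (nat_lit 0x1800280b0101))) 
(.lf (nat_lit 1812021379) (dlOf (nat_lit 2) (nat_lit 0x809800240440004a04001200280b0101)))) 
(.lf (nat_lit 6106990211) (dlOf (nat_lit 1) (nat_lit 0x60008002800200360008003a03)))))) 
(.nd (nat_lit 21) (.nd (nat_lit 2) (.nd (nat_lit 22) (.nd (nat_lit 24) 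
(.lf (nat_lit 9519107) (dlOf (nat_lit 1) (nat_lit 0x18008001000200120008560003))) 
(.lf (nat_lit 26296323) (dlOf (nat_lit 1) (nat_lit 0x16800400880008c30002)))) 
(.lf (nat_lit 47267843) (dlOf (nat_lit 1) (nat_lit 0x4004008c00093c0002)))) 
(.lf (nat_lit 9519111) (dlOf (nat_lit 1) (nat_lit 0x8008000800200020008560003)))) (.nd (nat_lit 2) 
(.nd (nat_lit 9) (.lf (nat_lit 20008067) (dlOf (nat_lit 1) (nat_lit 0x1600189d6101))) 
(.lf (nat_lit 61949571) (dlOf (nat_lit 2) (nat_lit 0x1860b000054080078008008c00200040009923a03)))) 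
(.lf (nat_lit 20011783) (dlOf (nat_lit 1) (nat_lit 0x1080080004002002600089db983)))))) 
(.nd (nat_lit 2) (.nd (nat_lit 24) (.nd (nat_lit 29) (.nd (nat_lit 26) 
(.lf (nat_lit 134823939) (dlOf (nat_lit 2) (nat_lit 0xa000000810180c0000))) 
(.lf (nat_lit 201932803) (dlOf (nat_lit 2) (nat_lit 0xa000000ca0180c0000)))) (.nd (nat_lit 30) 
(.lf (nat_lit 2819178499) (dlOf (nat_lit 3) (nat_lit 0x80720004035000400fc017a80c00180e4001406a000801f802f201800b0008000c002001200081d0003))) 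
(.lf (nat_lit 3892920323) (dlOf (nat_lit 1) (nat_lit 0x400018290001))))) (.nd (nat_lit 9) 
(.nd (nat_lit 20) (.lf (nat_lit 21577731) (dlOf (nat_lit 1) (nat_lit 0x40018a50001))) 
(.lf (nat_lit 28917763) (dlOf (nat_lit 1) (nat_lit 0x60008da0001)))) (.nd (nat_lit 8) 
(.lf (nat_lit 23675395) (dlOf (nat_lit 1) (nat_lit 0x4c0008b80d81))) 
(.lf (nat_lit 57232131) (dlOf (nat_lit 12) (nat_lit 0x49d830578de480166ee005177581167b6100dcdab8942ed2c251766e0046edc0005744015fba000035ba00214dc8041e6748003b17c0fd939410f6000000189102a8da58000c0084706d2c0003c042e819da0d54cec0000a02026067680004c08086b3b400024044d519da244ccec0000882008d6768037b3b000020080c219da05e6cec0000782014a6768000140802833b40000004006400200e00009795a82)))))) 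
(.nd (nat_lit 9) (.nd (nat_lit 29) (.nd (nat_lit 8) 
(.lf (nat_lit 16334855) (dlOf (nat_lit 1) (nat_lit 0x280080010002001e0008890003))) 
(.lf (nat_lit 609543) (dlOf (nat_lit 1) (nat_lit 0x400400360008006682)))) (.nd (nat_lit 26) 
(.lf (nat_lit 1611218951) (dlOf (nat_lit 1) (nat_lit 0x80028110001))) 
(.lf (nat_lit 738803719) (dlOf (nat_lit 1) (nat_lit 0x80028110001))))) (.nd (nat_lit 10) 
(.lf (nat_lit 50938375) (dlOf (nat_lit 4) (nat_lit 0x615180025a040018a8c0010202002455000032a78000f41000f000803f4002000200094d8003))) 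
(.lf (nat_lit 7951879) (dlOf (nat_lit 1) (nat_lit 0x200080038002000a0008519c03))))))) 
(.nd (nat_lit 2) (.nd (nat_lit 26) (.nd (nat_lit 19) (.nd (nat_lit 27) (.nd (nat_lit 7) 
(.lf (nat_lit 3221569539) (dlOf (nat_lit 1) (nat_lit 0x1c0028140001))) 
(.lf (nat_lit 3489923) (dlOf (nat_lit 1) (nat_lit 0x400200020008200102)))) (.nd (nat_lit 30) 
(.lf (nat_lit 134561795) (dlOf (nat_lit 1) (nat_lit 0x240008012800200a20008080003))) 
(.lf (nat_lit 3355787267) (dlOf (nat_lit 2) (nat_lit 0x1009400f3a04003c00400020008110002))))) 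
(.nd (nat_lit 20) (.lf (nat_lit 59588611) (dlOf (nat_lit 1) (nat_lit 0xe0029810001))) 
(.lf (nat_lit 14499843) (dlOf (nat_lit 1) (nat_lit 0x8008000400200020008760003))))) 
(.nd (nat_lit 29) (.nd (nat_lit 8) (.nd (nat_lit 19) 
(.lf (nat_lit 201670659) (dlOf (nat_lit 1) (nat_lit 0x240008012800200a20008080003))) 
(.lf (nat_lit 69025795) (dlOf (nat_lit 1) (nat_lit 0x60028880001)))) 
(.lf (nat_lit 69552899) (dlOf (nat_lit 2) (nat_lit 0x85011403dc0000003104000a0008b45a81)))) 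
(.nd (nat_lit 30) (.nd (nat_lit 8) (.nd (nat_lit 19) 
(.lf (nat_lit 604323843) (dlOf (nat_lit 1) (nat_lit 0x10008007c00200240008160003))) 
(.lf (nat_lit 2755477507) (dlOf (nat_lit 1) (nat_lit 0x14004000800081a0002)))) 
(.lf (nat_lit 2751809283) (dlOf (nat_lit 1) (nat_lit 0x400400020008003b82)))) (.nd (nat_lit 27) 
(.lf (nat_lit 1678065667) (dlOf (nat_lit 1) (nat_lit 0x2c0008160001))) 
(.lf (nat_lit 3959767043) (dlOf (nat_lit 1) (nat_lit 0x1c0028140001))))))) (.nd (nat_lit 19) 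
(.nd (nat_lit 20) (.nd (nat_lit 27) (.nd (nat_lit 8) 
(.lf (nat_lit 537214983) (dlOf (nat_lit 1) (nat_lit 0x400400020018060482))) 
(.lf (nat_lit 347399) (dlOf (nat_lit 1) (nat_lit 0x4004002a0018006682)))) (.nd (nat_lit 31) 
(.lf (nat_lit 671432711) (dlOf (nat_lit 2) (nat_lit 0x360250024f018190000))) 
(.lf (nat_lit 2818916359) (dlOf (nat_lit 2) (nat_lit 0x11035001518080060008003c00200040008130003))))) 
(.nd (nat_lit 8) (.nd (nat_lit 21) 
(.lf (nat_lit 5586951) (dlOf (nat_lit 1) (nat_lit 0xe00183a0281))) 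
(.lf (nat_lit 16072711) (dlOf (nat_lit 1) (nat_lit 0x10000400580008860282)))) 
(.lf (nat_lit 20273415) (dlOf (nat_lit 1) (nat_lit 0x400289daa01))))) (.nd (nat_lit 20) 
(.nd (nat_lit 21) (.nd (nat_lit 24) 
(.lf (nat_lit 5062663) (dlOf (nat_lit 1) (nat_lit 0x100080004002002c0008300003))) 
(.lf (nat_lit 21839879) (dlOf (nat_lit 1) (nat_lit 0x980008a70001)))) 
(.lf (nat_lit 15548423) (dlOf (nat_lit 1) (nat_lit 0x1be0028800281)))) (.nd (nat_lit 7) 
(.nd (nat_lit 21) (.lf (nat_lit 10305543) (dlOf (nat_lit 1) (nat_lit 0x80080004002000200085d0003))) 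
(.lf (nat_lit 29179911) (dlOf (nat_lit 1) (nat_lit 0x40028dd0581)))) 
(.lf (nat_lit 8215175) (dlOf (nat_lit 1) (nat_lit 0x6002851b681)))))))) (.nd (nat_lit 19) 
(.nd (nat_lit 7) (.nd (nat_lit 31) (.nd (nat_lit 22) (.nd (nat_lit 23) (.nd (nat_lit 8) 
(.lf (nat_lit 671171651) (dlOf (nat_lit 1) (nat_lit 0xcf8008037c00202280008142883))) 
(.lf (nat_lit 5972771139) (dlOf (nat_lit 1) (nat_lit 0x200280b0601)))) (.nd (nat_lit 20) 
(.lf (nat_lit 25247811) (dlOf (nat_lit 1) (nat_lit 0x20018bf0c01))) 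
(.lf (nat_lit 26296387) (dlOf (nat_lit 1) (nat_lit 0x20018c30581))))) (.nd (nat_lit 2) 
(.nd (nat_lit 18) (.lf (nat_lit 14762051) (dlOf (nat_lit 1) (nat_lit 0x220018770581))) 
(.lf (nat_lit 55918659) (dlOf (nat_lit 2) (nat_lit 0x2098e000a88196f0600)))) 
(.lf (nat_lit 14762055) (dlOf (nat_lit 1) (nat_lit 0x400400040008770602))))) (.nd (nat_lit 8) 
(.nd (nat_lit 2) (.lf (nat_lit 3288678467) (dlOf (nat_lit 1) (nat_lit 0x2e00280c1401))) 
(.nd (nat_lit 26) 
(.lf (nat_lit 3355525703) (dlOf (nat_lit 2) (nat_lit 0x100b80008e040014002000a00080a1582))) 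
(.lf (nat_lit 2348892743) (dlOf (nat_lit 1) (nat_lit 0x20018018d01))))) (.nd (nat_lit 26) 
(.lf (nat_lit 6576750915) (dlOf (nat_lit 1) (nat_lit 0x200280b0601))) (.nd (nat_lit 27) 
(.lf (nat_lit 3825287491) (dlOf (nat_lit 3) (nat_lit 0x1003e001201b000400b80015818001007c000402e0005404000600280b0601))) 
(.lf (nat_lit 2348892483) (dlOf (nat_lit 1) (nat_lit 0x20008000400200020008014c03))))))) 
(.nd (nat_lit 12) (.nd (nat_lit 26) (.nd (nat_lit 10) 
(.lf (nat_lit 6576750787) (dlOf (nat_lit 1) (nat_lit 0x9000280b0401))) 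
(.lf (nat_lit 55657667) (dlOf (nat_lit 1) (nat_lit 0x20002001e00096d2d02)))) (.nd (nat_lit 8) 
(.nd (nat_lit 27) (.nd (nat_lit 31) 
(.lf (nat_lit 5972771011) (dlOf (nat_lit 1) (nat_lit 0x9000280b0401))) 
(.lf (nat_lit 3825287363) (dlOf (nat_lit 4) (nat_lit 0x3007c0004c0400e403e0002502008201f000120180b0400)))) 
(.lf (nat_lit 1812021443) (dlOf (nat_lit 2) (nat_lit 0xac04a006001b000120280b0400)))) 
(.lf (nat_lit 1677803971) (dlOf (nat_lit 2) (nat_lit 0x380000006e0400e400200020008090902))))) 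
(.nd (nat_lit 8) (.nd (nat_lit 18) 
(.lf (nat_lit 20009667) (dlOf (nat_lit 1) (nat_lit 0x4002000200089d8c82))) 
(.lf (nat_lit 20271811) (dlOf (nat_lit 1) (nat_lit 0x4002000200089d8c82)))) (.nd (nat_lit 10) 
(.lf (nat_lit 20011459) (dlOf (nat_lit 1) (nat_lit 0x8008000c002000600089daf83))) (.nd (nat_lit 18) 
(.lf (nat_lit 67196355) (dlOf (nat_lit 1) (nat_lit 0x460018009a01))) 
(.lf (nat_lit 349635) (dlOf (nat_lit 1) (nat_lit 0x8008000400200020008009a03)))))))) 
(.nd (nat_lit 20) (.nd (nat_lit 2) (.nd (nat_lit 29) (.nd (nat_lit 18) 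
(.lf (nat_lit 3221831747) (dlOf (nat_lit 1) (nat_lit 0x200181a1401))) 
(.lf (nat_lit 13451331) (dlOf (nat_lit 1) (nat_lit 0x6c002000a0008721882)))) (.nd (nat_lit 26) 
(.lf (nat_lit 537477187) (dlOf (nat_lit 1) (nat_lit 0x12000800bc002004e00080a0d03))) 
(.lf (nat_lit 3960029251) (dlOf (nat_lit 1) (nat_lit 0x200181a1881))))) (.nd (nat_lit 7) 
(.nd (nat_lit 18) (.nd (nat_lit 27) 
(.lf (nat_lit 3221831751) (dlOf (nat_lit 1) (nat_lit 0x200181a1481))) 
(.lf (nat_lit 134824007) (dlOf (nat_lit 2) (nat_lit 0x100dc0006804000c002000200080c1482)))) 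
(.lf (nat_lit 9257031) (dlOf (nat_lit 1) (nat_lit 0x20028530601)))) 
(.lf (nat_lit 55132359) (dlOf (nat_lit 1) (nat_lit 0x800296b5901))))) (.nd (nat_lit 8) 
(.nd (nat_lit 9) (.nd (nat_lit 7) 
(.lf (nat_lit 4014147) (dlOf (nat_lit 1) (nat_lit 0x480080010002000a0008270c03))) 
(.lf (nat_lit 58540227) (dlOf (nat_lit 1) (nat_lit 0x200197e0781)))) (.nd (nat_lit 10) 
(.lf (nat_lit 7952963) (dlOf (nat_lit 5) (nat_lit 0x956000038040038ab00001b0200185580000c0100062ac0001155c000280800240040010000851b502))) 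
(.lf (nat_lit 43599427) (dlOf (nat_lit 1) (nat_lit 0x5a00192a3801))))) (.nd (nat_lit 2) 
(.nd (nat_lit 7) (.lf (nat_lit 7951171) (dlOf (nat_lit 1) (nat_lit 0x200008518f81))) 
(.lf (nat_lit 12403139) (dlOf (nat_lit 1) (nat_lit 0x1100080004002000200086c0903)))) 
(.nd (nat_lit 7) (.lf (nat_lit 8210759) (dlOf (nat_lit 2) (nat_lit 0xc4d800003818514d00))) 
(.lf (nat_lit 7952327) (dlOf (nat_lit 1) (nat_lit 0x8002000c000851a602))))))))) (.nd (nat_lit 2) 
(.nd (nat_lit 6) (.nd (nat_lit 26) (.nd (nat_lit 18) (.nd (nat_lit 7) (.nd (nat_lit 27) 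
(.lf (nat_lit 4563484675) (dlOf (nat_lit 1) (nat_lit 0x98008009800200440008090003))) 
(.lf (nat_lit 4697702403) (dlOf (nat_lit 2) (nat_lit 0x9e0330070b018090000)))) (.nd (nat_lit 8) 
(.nd (nat_lit 9) 
(.lf (nat_lit 939606147) (dlOf (nat_lit 2) (nat_lit 0x809800240440004a04001200280b0101))) 
(.lf (nat_lit 5100357251) (dlOf (nat_lit 1) (nat_lit 0x20028053a01)))) 
(.lf (nat_lit 1346455939) (dlOf (nat_lit 1) (nat_lit 0x8c0018f64e81))))) (.nd (nat_lit 20) 
(.nd (nat_lit 7) (.nd (nat_lit 27) 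
(.lf (nat_lit 805650435) (dlOf (nat_lit 1) (nat_lit 0x2c0008160001))) 
(.lf (nat_lit 1476739075) (dlOf (nat_lit 1) (nat_lit 0x8008000400200080008160003)))) 
(.lf (nat_lit 5771708803) (dlOf (nat_lit 2) (nat_lit 0x204a806d38080010008000c00200040008004e83)))) 
(.nd (nat_lit 19) 
(.lf (nat_lit 1343569923) (dlOf (nat_lit 1) (nat_lit 0x18008004400200060008290003))) 
(.nd (nat_lit 31) 
(.lf (nat_lit 1346191363) (dlOf (nat_lit 5) (nat_lit 0x2033c01d7c0401942b000c80cf007570200650ac002f033c008812c00e2206000a16000658818e60000))) 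
(.lf (nat_lit 3493675011) (dlOf (nat_lit 1) (nat_lit 0x14004000800081a0002))))))) (.nd (nat_lit 8) 
(.nd (nat_lit 18) (.nd (nat_lit 7) (.nd (nat_lit 19) 
(.lf (nat_lit 471941123) (dlOf (nat_lit 1) (nat_lit 0x200286d0001))) 
(.lf (nat_lit 474562563) (dlOf (nat_lit 1) (nat_lit 0x3800291a0001)))) 
(.lf (nat_lit 469851267) (dlOf (nat_lit 1) (nat_lit 0x9800800580020068000800c183)))) 
(.nd (nat_lit 20) 
(.lf (nat_lit 474300419) (dlOf (nat_lit 1) (nat_lit 0x200080020002004e0009130003))) 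
(.lf (nat_lit 471154691) (dlOf (nat_lit 1) (nat_lit 0x8004000800182a0002))))) (.nd (nat_lit 7) 
(.nd (nat_lit 9) 
(.lf (nat_lit 3691331843) (dlOf (nat_lit 2) (nat_lit 0x1c000005510200160008160701))) 
(.lf (nat_lit 3556854531) (dlOf (nat_lit 1) (nat_lit 0x4004000200080d5a82)))) (.nd (nat_lit 10) 
(.nd (nat_lit 11) 
(.lf (nat_lit 872497539) (dlOf (nat_lit 1) (nat_lit 0x1000801fc002006a0008091003))) 
(.lf (nat_lit 1946241411) (dlOf (nat_lit 1) (nat_lit 0x3400200020008004e82)))) 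
(.lf (nat_lit 4227943811) (dlOf (nat_lit 2) (nat_lit 0x100000000c0200020018006c01))))))) 
(.nd (nat_lit 27) (.nd (nat_lit 30) (.nd (nat_lit 8) (.nd (nat_lit 18) 
(.lf (nat_lit 2952872003) (dlOf (nat_lit 1) (nat_lit 0x2a800401a60008010082))) (.nd (nat_lit 31) 
(.lf (nat_lit 4563746883) (dlOf (nat_lit 2) (nat_lit 0x140290004c0180d0480))) 
(.lf (nat_lit 2416263235) (dlOf (nat_lit 1) (nat_lit 0x180080004002004000080c1883))))) 
(.nd (nat_lit 7) 
(.lf (nat_lit 2483110211) (dlOf (nat_lit 1) (nat_lit 0x20008000400200020008014c03))) 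
(.lf (nat_lit 805388739) (dlOf (nat_lit 2) (nat_lit 0x380000006e0400e400200020008090902))))) 
(.nd (nat_lit 9) (.nd (nat_lit 10) (.nd (nat_lit 21) 
(.lf (nat_lit 1409892419) (dlOf (nat_lit 3) (nat_lit 0xe05f0001201001502f80008c0800b800800dc00200f200080a0e03))) 
(.lf (nat_lit 3492364355) (dlOf (nat_lit 1) (nat_lit 0x400180c1401)))) 
(.lf (nat_lit 3556852803) (dlOf (nat_lit 1) (nat_lit 0x4004000200080d2882)))) (.nd (nat_lit 7) 
(.lf (nat_lit 5637229379) (dlOf (nat_lit 4) (nat_lit 0x10015000a0020003800c002c20c005402800140020004e82000100a000400080011c0800b400400200018055c02))) 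
(.nd (nat_lit 8) (.lf (nat_lit 3556854467) (dlOf (nat_lit 1) (nat_lit 0xa00180d5801))) 
(.lf (nat_lit 5637229507) (dlOf (nat_lit 4) (nat_lit 0x1601500060028000b01000a0054003800a0002a040012015000f0028000101001080080004002000a0008055d83))))))) 
(.nd (nat_lit 7) (.nd (nat_lit 8) (.nd (nat_lit 9) 
(.lf (nat_lit 3087089731) (dlOf (nat_lit 1) (nat_lit 0x400080b0001))) (.nd (nat_lit 10) 
(.lf (nat_lit 469848643) (dlOf (nat_lit 2) (nat_lit 0x1087401486040014004002a0008008982))) 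
(.lf (nat_lit 472991299) (dlOf (nat_lit 1) (nat_lit 0x20028bb3801))))) (.nd (nat_lit 19) 
(.lf (nat_lit 3087089987) (dlOf (nat_lit 3) (nat_lit 0x1003e001201b000400b80013c18001007c000402e0004d04000600280b0601))) 
(.lf (nat_lit 1009336643) (dlOf (nat_lit 1) (nat_lit 0x400190f5f81))))) (.nd (nat_lit 29) 
(.nd (nat_lit 8) 
(.lf (nat_lit 4697702595) (dlOf (nat_lit 1) (nat_lit 0x10008003000200300008090783))) 
(.lf (nat_lit 5771447235) (dlOf (nat_lit 1) (nat_lit 0xe30008042c002019e0008005d83)))) 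
(.nd (nat_lit 18) (.nd (nat_lit 31) 
(.lf (nat_lit 939606211) (dlOf (nat_lit 2) (nat_lit 0xac04a006001b000128280b0400))) 
(.lf (nat_lit 3087089859) (dlOf (nat_lit 4) (nat_lit 0x3007c0004e0400e403e0002602008201f000128180b0400)))) 
(.lf (nat_lit 6377259203) (dlOf (nat_lit 1) (nat_lit 0x4004000200180c1b82)))))))) (.nd (nat_lit 6) 
(.nd (nat_lit 29) (.nd (nat_lit 8) (.nd (nat_lit 27) (.nd (nat_lit 7) 
(.lf (nat_lit 1409630215) (dlOf (nat_lit 1) (nat_lit 0x400400020018060482))) 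
(.lf (nat_lit 5637488775) (dlOf (nat_lit 5) (nat_lit 0xe90098010404a03260240001b03008b013002f0090000680807b804c00d402501fa00e807d80700814032035201801c200b0044005000f002600aa012000100101060000000643000040340002d02004e00080f0e01)))) 
(.nd (nat_lit 30) 
(.lf (nat_lit 2617589767) (dlOf (nat_lit 11) (nat_lit 0x13c008003432040a0404001a1502053e02000cfb810185010005f8c08115808002f9a04080805e01e202e029f00900808044027c012007080a01ae02f00050170017804800d680c006005e006930200a602c002088102b10100000000803c0008009800200080008100003))) 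
(.nd (nat_lit 31) (.lf (nat_lit 1543847943) (dlOf (nat_lit 2) (nat_lit 0x3602500519818190000))) 
(.lf (nat_lit 3691331591) (dlOf (nat_lit 1) (nat_lit 0x1000200220008160002)))))) (.nd (nat_lit 7) 
(.nd (nat_lit 9) (.nd (nat_lit 18) 
(.lf (nat_lit 1342262535) (dlOf (nat_lit 1) (nat_lit 0x160018006681))) 
(.lf (nat_lit 3490532615) (dlOf (nat_lit 1) (nat_lit 0xc00400260008006682)))) 
(.lf (nat_lit 469845767) (dlOf (nat_lit 3) (nat_lit 0x642370003201000111e00009008018000801dc00200120008003b83)))) 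
(.nd (nat_lit 11) 
(.lf (nat_lit 4697702791) (dlOf (nat_lit 2) (nat_lit 0xc1009000534080210008009400200ee0008091003))) 
(.lf (nat_lit 3556854151) (dlOf (nat_lit 1) (nat_lit 0x200080d4e81)))))) (.nd (nat_lit 7) 
(.nd (nat_lit 18) (.nd (nat_lit 8) 
(.lf (nat_lit 4096344071) (dlOf (nat_lit 1) (nat_lit 0x4004000200080f0002))) 
(.lf (nat_lit 4227943687) (dlOf (nat_lit 1) (nat_lit 0xc0018006681)))) (.nd (nat_lit 26) 
(.nd (nat_lit 27) (.lf (nat_lit 2953134087) (dlOf (nat_lit 1) (nat_lit 0x1000200220008160002))) 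
(.lf (nat_lit 4161093639) (dlOf (nat_lit 1) (nat_lit 0x360008120001)))) 
(.lf (nat_lit 3154460679) (dlOf (nat_lit 1) (nat_lit 0x200181a0001))))) (.nd (nat_lit 8) 
(.nd (nat_lit 9) (.nd (nat_lit 26) 
(.lf (nat_lit 5234835591) (dlOf (nat_lit 4) (nat_lit 0x1401a0001b01020900d00d3006409b802e04be0140091009800c0034089401000a8000000190800020048000b40801280080294002000200080f0e03))) 
(.nd (nat_lit 27) 
(.lf (nat_lit 872759431) (dlOf (nat_lit 2) (nat_lit 0x1780580004e040008002000200080c0e02))) 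
(.lf (nat_lit 2080718983) (dlOf (nat_lit 2) (nat_lit 0x100c40004e040014004000800180c0e02))))) 
(.lf (nat_lit 1007505031) (dlOf (nat_lit 1) (nat_lit 0x5a00183d7181)))) (.nd (nat_lit 27) 
(.lf (nat_lit 872497543) (dlOf (nat_lit 1) (nat_lit 0x40028091001))) 
(.lf (nat_lit 2080457095) (dlOf (nat_lit 3) (nat_lit 0x2c0720015e020006039000ab018091000))))))) 
(.nd (nat_lit 26) (.nd (nat_lit 30) (.nd (nat_lit 7) (.nd (nat_lit 27) 
(.lf (nat_lit 4563746887) (dlOf (nat_lit 2) (nat_lit 0x26c0520001a02001400080d0481))) 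
(.nd (nat_lit 31) 
(.lf (nat_lit 4697964615) (dlOf (nat_lit 2) (nat_lit 0x200c40011a040078004000200080d0482))) 
(.lf (nat_lit 2550480967) (dlOf (nat_lit 3) (nat_lit 0x200f0001a0100010078000c8080038008002c002000600080c1483))))) 
(.nd (nat_lit 9) 
(.lf (nat_lit 4697702855) (dlOf (nat_lit 2) (nat_lit 0x7009000000080208008009800200980008091103))) 
(.lf (nat_lit 5234576327) (dlOf (nat_lit 6) (nat_lit 0x405c0002502000a03000070170000841000380840000604001005c000c02100000820001018000100900000008004800400300018055d82))))) 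
(.nd (nat_lit 7) (.nd (nat_lit 8) 
(.lf (nat_lit 1346191431) (dlOf (nat_lit 3) (nat_lit 0x5a02be004815e017306b80050358013413600a208b000ad06001e0ae8002f8080548008005400200b40008e60603))) 
(.nd (nat_lit 18) 
(.lf (nat_lit 5637229383) (dlOf (nat_lit 30) (nat_lit 0xb000a8056801002c00060016106015a01500af0020051800c002b80c02b002a015400400a300180056818057005402ac0080146003000ac8300a800a8053801002a0006001550600020150009a0100a900a8003a8080018054001ca04011002a00880040007202000300a8003680805c80500017c040004028000bc02018401400b500100027410059005002a00040009904017401400b200100026010055805002a80040009704012e01400990010002541005c005002a80040008e0400f4014007c00100022410011805000380040008704015401400b000100021810040805001f8004000820400ee014000188100aa00a0000ac0805500500004c0402a8028000250201540140001101001400a0000500800180540010004000000400b60028055c01))) 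
(.lf (nat_lit 5771709255) (dlOf (nat_lit 2) (nat_lit 0x68254002ca04000c00200040008005c02))))) 
(.nd (nat_lit 9) (.lf (nat_lit 5773279431) (dlOf (nat_lit 1) (nat_lit 0x190004000c00080c1782))) 
(.lf (nat_lit 1342264007) (dlOf (nat_lit 1) (nat_lit 0x40018008c81)))))) (.nd (nat_lit 7) 
(.nd (nat_lit 10) (.nd (nat_lit 8) 
(.lf (nat_lit 1409892423) (dlOf (nat_lit 3) (nat_lit 0x18805f000138100c202f8000980801680080050002007200080a0e03))) 
(.lf (nat_lit 3691069767) (dlOf (nat_lit 1) (nat_lit 0x2c0028010781)))) (.nd (nat_lit 9) 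
(.nd (nat_lit 21) (.lf (nat_lit 2080457799) (dlOf (nat_lit 1) (nat_lit 0x400400020008092882))) 
(.lf (nat_lit 6377522247) (dlOf (nat_lit 1) (nat_lit 0x80080050002000200080e2883)))) 
(.lf (nat_lit 2617333319) (dlOf (nat_lit 1) (nat_lit 0x200280a9c01))))) (.nd (nat_lit 8) 
(.nd (nat_lit 19) 
(.lf (nat_lit 2080719047) (dlOf (nat_lit 1) (nat_lit 0x18008001c002000600080c1783))) 
(.lf (nat_lit 6377259207) (dlOf (nat_lit 1) (nat_lit 0x200180c1b81)))) (.nd (nat_lit 9) 
(.nd (nat_lit 11) 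
(.lf (nat_lit 2080457159) (dlOf (nat_lit 2) (nat_lit 0x900e40002e04003400400280008091102))) 
(.lf (nat_lit 4094511559) (dlOf (nat_lit 1) (nat_lit 0x8008000400200020008054e83)))) 
(.lf (nat_lit 5704338375) (dlOf (nat_lit 7) (nat_lit 0x50036002601900030058000b018002006c0068032002400b0001503000300d8001802c00008080014036002a019001800580000c18006006c0020032001c00b0000103000400580000008064000800b8002000a0008055d83))))))))))) 
(.nd (nat_lit 16) (.nd (nat_lit 2) (.nd (nat_lit 19) (.nd (nat_lit 6) (.nd (nat_lit 18) 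
(.nd (nat_lit 26) (.nd (nat_lit 30) (.nd (nat_lit 20) (.nd (nat_lit 7) (.nd (nat_lit 21) 
(.lf (nat_lit 21118979) (dlOf (nat_lit 1) (nat_lit 0x38008002000200040008a10003))) 
(.lf (nat_lit 44187651) (dlOf (nat_lit 3) (nat_lit 0x1695c01e120200054ae00f080192d0000)))) 
(.nd (nat_lit 9) (.lf (nat_lit 44187779) (dlOf (nat_lit 1) (nat_lit 0x4004000200092d0e02))) 
(.lf (nat_lit 4697769603) (dlOf (nat_lit 1) (nat_lit 0x20028093a01))))) (.nd (nat_lit 23) 
(.nd (nat_lit 10) (.lf (nat_lit 1196035) (dlOf (nat_lit 1) (nat_lit 0x8008000400200020008090003))) 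
(.lf (nat_lit 51528707) (dlOf (nat_lit 1) (nat_lit 0x400200020009512882)))) (.nd (nat_lit 7) 
(.lf (nat_lit 47333379) (dlOf (nat_lit 2) (nat_lit 0x1b460061c00800600080014002000a00093d0003))) 
(.lf (nat_lit 9584771) (dlOf (nat_lit 1) (nat_lit 0x60028570e01)))))) (.nd (nat_lit 27) 
(.nd (nat_lit 7) (.nd (nat_lit 11) 
(.lf (nat_lit 5368856579) (dlOf (nat_lit 2) (nat_lit 0x3200540004028000e0110026007006d382000d0008002800200240008040003))) 
(.lf (nat_lit 5905729539) (dlOf (nat_lit 1) (nat_lit 0x400200020008144702)))) 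
(.lf (nat_lit 1610761859) (dlOf (nat_lit 1) (nat_lit 0x400200020008093a02)))) (.nd (nat_lit 9) 
(.nd (nat_lit 28) 
(.lf (nat_lit 5503074307) (dlOf (nat_lit 2) (nat_lit 0x3200540004028000e0110026007005f882000d0008002800200240008040003))) 
(.lf (nat_lit 1476542467) (dlOf (nat_lit 1) (nat_lit 0x8008001c00200320008050003)))) 
(.lf (nat_lit 3624026627) (dlOf (nat_lit 1) (nat_lit 0x600080b0d81)))))) (.nd (nat_lit 27) 
(.nd (nat_lit 29) (.nd (nat_lit 21) 
(.lf (nat_lit 67256323) (dlOf (nat_lit 1) (nat_lit 0x40018080001))) 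
(.lf (nat_lit 69353475) (dlOf (nat_lit 1) (nat_lit 0x400400020008940002)))) (.nd (nat_lit 22) 
(.lf (nat_lit 5167529987) (dlOf (nat_lit 3) (nat_lit 0x402e00dd802000401700000018080000))) 
(.lf (nat_lit 2755805187) (dlOf (nat_lit 2) (nat_lit 0x888ac03b4a0402b0004001400081b0002))))) 
(.nd (nat_lit 7) (.nd (nat_lit 8) 
(.lf (nat_lit 3691134979) (dlOf (nat_lit 1) (nat_lit 0x240028050001))) 
(.lf (nat_lit 2617398019) (dlOf (nat_lit 1) (nat_lit 0x600080038002002a00080a8f83)))) 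
(.nd (nat_lit 9) 
(.lf (nat_lit 1543654787) (dlOf (nat_lit 2) (nat_lit 0x19806400040060000d0400180018146c01))) 
(.lf (nat_lit 2617398147) (dlOf (nat_lit 3) (nat_lit 0x80b0002160400200580010702002c00080a9001))))))) 
(.nd (nat_lit 31) (.nd (nat_lit 24) (.nd (nat_lit 7) (.nd (nat_lit 23) 
(.lf (nat_lit 1346781187) (dlOf (nat_lit 1) (nat_lit 0x380029000001))) 
(.lf (nat_lit 12992515) (dlOf (nat_lit 8) (nat_lit 0x143200076e00800218fc0198c5000c25b900e3183001a31f801598a00094b7201c6206000663f0016314000316e4038bc0c0010c7e00ca62800582dc806f581800998fc00acc5000405b900dea83001831f800e18a0037a60801c4004031c00186f0002)))) 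
(.lf (nat_lit 8799875) (dlOf (nat_lit 1) (nat_lit 0x800200160008513a02)))) (.nd (nat_lit 9) 
(.nd (nat_lit 20) (.lf (nat_lit 29769731) (dlOf (nat_lit 1) (nat_lit 0x60018e30001))) 
(.lf (nat_lit 26624003) (dlOf (nat_lit 1) (nat_lit 0x20018c50001)))) 
(.lf (nat_lit 23478787) (dlOf (nat_lit 1) (nat_lit 0x8000800d000200040008b80d83))))) 
(.nd (nat_lit 27) (.nd (nat_lit 26) 
(.lf (nat_lit 4026941443) (dlOf (nat_lit 2) (nat_lit 0x8c0000000002005000080d0001))) 
(.nd (nat_lit 28) 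
(.lf (nat_lit 3288743939) (dlOf (nat_lit 2) (nat_lit 0x8c0000000002005000080d0001))) 
(.nd (nat_lit 30) 
(.lf (nat_lit 2483437571) (dlOf (nat_lit 5) (nat_lit 0x60340002019800200c4000405800b7e08000a0340004019800080c4001005800b7d08000c0340006019800500c4001c05800b7c08000c0340009018800400b0016f20c0008004000600081c0002))) 
(.lf (nat_lit 3557179395) (dlOf (nat_lit 1) (nat_lit 0x400200020008140002)))))) (.nd (nat_lit 7) 
(.nd (nat_lit 26) 
(.lf (nat_lit 2818981891) (dlOf (nat_lit 4) (nat_lit 0x806c0152502000403600a9181000801b005488080190008007400200300008140003))) 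
(.lf (nat_lit 2349219843) (dlOf (nat_lit 5) (nat_lit 0x60340002019800200c4000405c005ee08000a0340004019800080c4001005c005ed08000c0340006019800500c4001c05c005ec08000c0340009018800400b800bd20c0008004000600081c0002)))) 
(.lf (nat_lit 3959832963) (dlOf (nat_lit 1) (nat_lit 0x1080080004002000e0008170783))))))) 
(.nd (nat_lit 30) (.nd (nat_lit 20) (.nd (nat_lit 8) (.nd (nat_lit 7) 
(.lf (nat_lit 25313347) (dlOf (nat_lit 9) (nat_lit 0x20b242030b916014ac38000761bc01f6b440006a0a01c991600b1c380007d688000d20c00430e0000680200f9916008dc380000a01007164580004804034322c017f8700001102001cc8b00006c08061645802c30e0000000400100018bf0c01))) 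
(.nd (nat_lit 9) 
(.lf (nat_lit 48383171) (dlOf (nat_lit 11) (nat_lit 0x50e820002802006280c00503a0800098100039d040003e040048e820001d02001a7410000e0100073a0800060080041d0400020040014e820000e0200400000000281003f000000000080088008000400200120009402d03))) 
(.lf (nat_lit 8803011) (dlOf (nat_lit 1) (nat_lit 0x10008000400200020008518c83))))) 
(.nd (nat_lit 9) (.lf (nat_lit 403064131) (dlOf (nat_lit 1) (nat_lit 0x4004002400180e3302))) 
(.nd (nat_lit 27) (.lf (nat_lit 149315) (dlOf (nat_lit 2) (nat_lit 0x2a0000001b018003e00))) 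
(.lf (nat_lit 3087157059) (dlOf (nat_lit 1) (nat_lit 0x400400020008143e02)))))) (.nd (nat_lit 12) 
(.nd (nat_lit 18) (.nd (nat_lit 21) 
(.lf (nat_lit 13779139) (dlOf (nat_lit 1) (nat_lit 0x8008000800200020008750403))) 
(.lf (nat_lit 28459203) (dlOf (nat_lit 1) (nat_lit 0x8008027c00200900008da0483)))) (.nd (nat_lit 7) 
(.lf (nat_lit 58081603) (dlOf (nat_lit 1) (nat_lit 0xa600197b8701))) 
(.lf (nat_lit 14041283) (dlOf (nat_lit 1) (nat_lit 0x8008000400200020008750403))))) 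
(.nd (nat_lit 8) (.nd (nat_lit 18) 
(.lf (nat_lit 20075203) (dlOf (nat_lit 1) (nat_lit 0x80080004002000400089d8c83))) 
(.lf (nat_lit 20337347) (dlOf (nat_lit 1) (nat_lit 0x4002000200089d8c82)))) 
(.lf (nat_lit 20076995) (dlOf (nat_lit 1) (nat_lit 0x1a00080180002002800089daf83)))))) 
(.nd (nat_lit 26) (.nd (nat_lit 31) (.nd (nat_lit 10) (.nd (nat_lit 18) 
(.lf (nat_lit 1476542531) (dlOf (nat_lit 1) (nat_lit 0xa0018050581))) 
(.lf (nat_lit 1074151491) (dlOf (nat_lit 1) (nat_lit 0x180080004002000200080c1883)))) 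
(.lf (nat_lit 5637293123) (dlOf (nat_lit 1) (nat_lit 0x200280d2881)))) (.nd (nat_lit 8) 
(.nd (nat_lit 18) 
(.lf (nat_lit 4026679363) (dlOf (nat_lit 1) (nat_lit 0x10008002400200040008030e03))) 
(.lf (nat_lit 4026941507) (dlOf (nat_lit 4) (nat_lit 0x380040015401d00e80058001841802580800130016000600400aa02000560058000881000080080130002001e00080d0c03)))) 
(.lf (nat_lit 3221380419) (dlOf (nat_lit 2) (nat_lit 0xa405e00662020002000811c901))))) 
(.nd (nat_lit 8) (.nd (nat_lit 10) (.nd (nat_lit 18) 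
(.lf (nat_lit 3288481859) (dlOf (nat_lit 1) (nat_lit 0x10008002400200040008030e03))) 
(.lf (nat_lit 3288744003) (dlOf (nat_lit 4) (nat_lit 0x380040015401d00e80058001a81802580800130016000690400aa02000560058000881000080080130002001e00080d0c03)))) 
(.lf (nat_lit 3959571523) (dlOf (nat_lit 1) (nat_lit 0x20018112881)))) (.nd (nat_lit 10) 
(.lf (nat_lit 3959572803) (dlOf (nat_lit 2) (nat_lit 0x40a20001002000e0008114d01))) 
(.lf (nat_lit 4094051651) (dlOf (nat_lit 1) (nat_lit 0x6800400320018003302)))))))) (.nd (nat_lit 6) 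
(.nd (nat_lit 18) (.nd (nat_lit 28) (.nd (nat_lit 24) (.nd (nat_lit 9) (.nd (nat_lit 22) 
(.lf (nat_lit 42614787) (dlOf (nat_lit 1) (nat_lit 0xa0009260001))) 
(.lf (nat_lit 4866051) (dlOf (nat_lit 1) (nat_lit 0x80080004002000200082d0003)))) 
(.lf (nat_lit 49957379) (dlOf (nat_lit 1) (nat_lit 0x400194c5001)))) (.nd (nat_lit 7) 
(.nd (nat_lit 20) (.lf (nat_lit 21643267) (dlOf (nat_lit 1) (nat_lit 0xc400400220008a50002))) 
(.lf (nat_lit 26886147) (dlOf (nat_lit 1) (nat_lit 0x1000400040008c80002)))) 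
(.lf (nat_lit 30032003) (dlOf (nat_lit 1) (nat_lit 0x400200020008e30482))))) (.nd (nat_lit 20) 
(.nd (nat_lit 26) (.nd (nat_lit 29) 
(.lf (nat_lit 1342849027) (dlOf (nat_lit 3) (nat_lit 0x3444c001a20e00010d180645818006089800303460187004000200180f0001))) 
(.lf (nat_lit 1879719939) (dlOf (nat_lit 1) (nat_lit 0x8008000400200020008330003)))) 
(.nd (nat_lit 21) 
(.lf (nat_lit 470433795) (dlOf (nat_lit 3) (nat_lit 0x3444c001a20c00010d980718c180060898003036601bd604000200180f0001))) 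
(.lf (nat_lit 4096409603) (dlOf (nat_lit 1) (nat_lit 0x20028110001))))) (.nd (nat_lit 27) 
(.lf (nat_lit 4095361027) (dlOf (nat_lit 1) (nat_lit 0x80080004002000200080a0003))) 
(.lf (nat_lit 1008353283) (dlOf (nat_lit 1) (nat_lit 0x20018b60001)))))) (.nd (nat_lit 20) 
(.nd (nat_lit 24) (.nd (nat_lit 8) (.nd (nat_lit 9) 
(.lf (nat_lit 3492694019) (dlOf (nat_lit 3) (nat_lit 0x90100000a804004c080008401d000288280f4700))) 
(.lf (nat_lit 2752397827) (dlOf (nat_lit 2) (nat_lit 0xb1238000a00800b8008005400200740008017f83)))) 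
(.lf (nat_lit 3492693763) (dlOf (nat_lit 3) (nat_lit 0xe40cc003e0400000c82001b0200000500800100080018002000600080f3b83)))) 
(.nd (nat_lit 7) (.nd (nat_lit 21) 
(.lf (nat_lit 59654147) (dlOf (nat_lit 2) (nat_lit 0x47e90064b819820000))) 
(.lf (nat_lit 53362691) (dlOf (nat_lit 1) (nat_lit 0x380080020002000800095a0003)))) 
(.lf (nat_lit 53362819) (dlOf (nat_lit 1) (nat_lit 0x200095a0e01))))) (.nd (nat_lit 21) 
(.nd (nat_lit 8) (.nd (nat_lit 23) 
(.lf (nat_lit 39731203) (dlOf (nat_lit 1) (nat_lit 0x80080018002000200091e0003))) 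
(.lf (nat_lit 14565379) (dlOf (nat_lit 1) (nat_lit 0x3800200020008770002)))) (.nd (nat_lit 7) 
(.lf (nat_lit 18759939) (dlOf (nat_lit 1) (nat_lit 0x20018970701))) 
(.lf (nat_lit 4095623555) (dlOf (nat_lit 1) (nat_lit 0x8008030c00200a000080e1003))))) 
(.nd (nat_lit 7) (.nd (nat_lit 23) 
(.lf (nat_lit 2755543555) (dlOf (nat_lit 2) (nat_lit 0x11c066008c01f800f0070000e60c0004002000200081b0d82))) 
(.lf (nat_lit 12468739) (dlOf (nat_lit 1) (nat_lit 0xa00086c0d81)))) 
(.lf (nat_lit 12468355) (dlOf (nat_lit 1) (nat_lit 0x2e00086c0101))))))) (.nd (nat_lit 28) 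
(.nd (nat_lit 26) (.nd (nat_lit 7) (.nd (nat_lit 20) (.nd (nat_lit 9) (.nd (nat_lit 27) 
(.lf (nat_lit 537542723) (dlOf (nat_lit 1) (nat_lit 0x80080004002000200080a0d03))) 
(.lf (nat_lit 134889539) (dlOf (nat_lit 3) (nat_lit 0x10b00a8001840804080c4000ba040004002000200080d0c02)))) 
(.lf (nat_lit 23740995) (dlOf (nat_lit 1) (nat_lit 0x400200020008b81102)))) (.nd (nat_lit 18) 
(.lf (nat_lit 45760579) (dlOf (nat_lit 2) (nat_lit 0x1f8160011e019360600))) 
(.lf (nat_lit 14565443) (dlOf (nat_lit 1) (nat_lit 0x60028770581))))) (.nd (nat_lit 9) 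
(.lf (nat_lit 34489539) (dlOf (nat_lit 1) (nat_lit 0x400400020008fb2d02))) 
(.lf (nat_lit 676547) (dlOf (nat_lit 1) (nat_lit 0x400200020008008c82))))) (.nd (nat_lit 8) 
(.nd (nat_lit 27) (.nd (nat_lit 29) 
(.lf (nat_lit 4362747971) (dlOf (nat_lit 1) (nat_lit 0xc004000400080f1882))) 
(.lf (nat_lit 1678393411) (dlOf (nat_lit 5) (nat_lit 0x3200a0007b01009000900018408035815800c80260004f0400d605600230298001381000a0008001400200860008201883)))) 
(.lf (nat_lit 201998403) (dlOf (nat_lit 3) (nat_lit 0x10b00b0001900804080c4000ba040004002000200080d0c02)))) 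
(.nd (nat_lit 7) 
(.lf (nat_lit 2752397635) (dlOf (nat_lit 2) (nat_lit 0x207e80147804000400400020008014c02))) 
(.lf (nat_lit 2754497987) (dlOf (nat_lit 1) (nat_lit 0x20008000c002000400080f6d03)))))) 
(.nd (nat_lit 32) (.nd (nat_lit 8) (.nd (nat_lit 7) (.nd (nat_lit 21) 
(.lf (nat_lit 805978179) (dlOf (nat_lit 2) (nat_lit 0x600a00077018201400))) 
(.lf (nat_lit 1344946243) (dlOf (nat_lit 3) (nat_lit 0x6906c8009240800c0534003e0040004004000a00089a0602)))) 
(.lf (nat_lit 1344164547) (dlOf (nat_lit 1) (nat_lit 0x4002000200083d8c82)))) (.nd (nat_lit 7) 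
(.nd (nat_lit 10) 
(.lf (nat_lit 3490595139) (dlOf (nat_lit 2) (nat_lit 0x207a00094e04000400400020008014c02))) 
(.lf (nat_lit 472794435) (dlOf (nat_lit 1) (nat_lit 0x78002000c0008b03302)))) 
(.lf (nat_lit 473579971) (dlOf (nat_lit 1) (nat_lit 0x10008000800200020008f67a83))))) 
(.nd (nat_lit 7) (.nd (nat_lit 20) (.nd (nat_lit 26) 
(.lf (nat_lit 5772034115) (dlOf (nat_lit 5) (nat_lit 0x10a68001050c003ea08000829e000414e00020a68002050c003e810001429e000a14e00070a68003850c003e610001029e000814e00060a68003050c003e410000400400080008051802))) 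
(.lf (nat_lit 6376013891) (dlOf (nat_lit 5) (nat_lit 0x10280000813f000409f000384d00023e10000c27e000c13e000709a000478180028500002027e001013e000809a000474200018500001427e000e13e000809a000470200008008000c002000a0008051783)))) 
(.lf (nat_lit 5773082691) (dlOf (nat_lit 1) (nat_lit 0x80080004002000200080a1683)))) 
(.nd (nat_lit 8) (.lf (nat_lit 5772296387) (dlOf (nat_lit 1) (nat_lit 0x4000200020008090782))) 
(.lf (nat_lit 6378111427) (dlOf (nat_lit 1) (nat_lit 0x40004000e0018117002))))))))) 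
(.nd (nat_lit 30) (.nd (nat_lit 29) (.nd (nat_lit 18) (.nd (nat_lit 9) (.nd (nat_lit 20) 
(.nd (nat_lit 19) (.nd (nat_lit 6) (.nd (nat_lit 8) 
(.lf (nat_lit 6643924999) (dlOf (nat_lit 1) (nat_lit 0x400400020008080002))) 
(.lf (nat_lit 134368519) (dlOf (nat_lit 1) (nat_lit 0x20028006681)))) 
(.lf (nat_lit 25313351) (dlOf (nat_lit 3) (nat_lit 0x246458006f0e00003804012f9160063c3800005c100298008006000200c20008bf0c83)))) 
(.nd (nat_lit 21) 
(.lf (nat_lit 470433799) (dlOf (nat_lit 2) (nat_lit 0x988b402e720400b8004005600080f0002))) 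
(.lf (nat_lit 27934727) (dlOf (nat_lit 1) (nat_lit 0x400400020008d40002))))) (.nd (nat_lit 7) 
(.nd (nat_lit 19) (.lf (nat_lit 1196039) (dlOf (nat_lit 1) (nat_lit 0x20018090481))) 
(.lf (nat_lit 24788999) (dlOf (nat_lit 1) (nat_lit 0xc00200040008bb0002)))) (.nd (nat_lit 8) 
(.lf (nat_lit 9584775) (dlOf (nat_lit 5) (nat_lit 0x99dc0001b01010d1e78000c808004690c001b482000da3f0009d1c800267700005c14008f48a001ba43000cd20800568fc002f476001da39000bcee000264940005a20009000400240018570e02))) 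
(.lf (nat_lit 11682183) (dlOf (nat_lit 1) (nat_lit 0x80080004002000200086c0783)))))) 
(.nd (nat_lit 7) (.nd (nat_lit 6) (.nd (nat_lit 8) 
(.lf (nat_lit 57297415) (dlOf (nat_lit 1) (nat_lit 0x40019795001))) 
(.lf (nat_lit 20077319) (dlOf (nat_lit 1) (nat_lit 0x200289db981)))) (.nd (nat_lit 21) 
(.lf (nat_lit 9585223) (dlOf (nat_lit 3) (nat_lit 0x10e980002402003874c0000f018578d00))) 
(.lf (nat_lit 11682375) (dlOf (nat_lit 1) (nat_lit 0x200286c1101))))) (.nd (nat_lit 11) 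
(.nd (nat_lit 6) 
(.lf (nat_lit 20076167) (dlOf (nat_lit 1) (nat_lit 0x1380080008002001a00089d9e03))) 
(.lf (nat_lit 9065159) (dlOf (nat_lit 1) (nat_lit 0x400200020008518c82)))) (.nd (nat_lit 28) 
(.lf (nat_lit 2147633799) (dlOf (nat_lit 1) (nat_lit 0x20028095481))) 
(.lf (nat_lit 4563552903) (dlOf (nat_lit 2) (nat_lit 0x200000005204003000200040008095482))))))) 
(.nd (nat_lit 7) (.nd (nat_lit 19) (.nd (nat_lit 21) (.nd (nat_lit 6) 
(.lf (nat_lit 6509969415) (dlOf (nat_lit 1) (nat_lit 0x400200020008180002))) 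
(.lf (nat_lit 54935623) (dlOf (nat_lit 1) (nat_lit 0x3800400020009670602)))) (.nd (nat_lit 22) 
(.lf (nat_lit 44449799) (dlOf (nat_lit 1) (nat_lit 0x400400020009310002))) 
(.lf (nat_lit 15089671) (dlOf (nat_lit 1) (nat_lit 0x600287b0281))))) (.nd (nat_lit 21) 
(.nd (nat_lit 20) (.lf (nat_lit 42876935) (dlOf (nat_lit 1) (nat_lit 0x400200040009280002))) 
(.lf (nat_lit 22953991) (dlOf (nat_lit 1) (nat_lit 0xc800800b8002001c0008b40003)))) 
(.nd (nat_lit 6) (.lf (nat_lit 15613959) (dlOf (nat_lit 1) (nat_lit 0x400400020018810282))) 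
(.lf (nat_lit 19813959) (dlOf (nat_lit 1) (nat_lit 0x200289d9c01)))))) (.nd (nat_lit 6) 
(.nd (nat_lit 11) (.nd (nat_lit 26) 
(.lf (nat_lit 134627719) (dlOf (nat_lit 1) (nat_lit 0x8008000c00200060008090783))) 
(.lf (nat_lit 201736583) (dlOf (nat_lit 1) (nat_lit 0x8008000c00200060008090783)))) 
(.lf (nat_lit 474368391) (dlOf (nat_lit 1) (nat_lit 0x400400020009164e82)))) (.nd (nat_lit 11) 
(.lf (nat_lit 4362486215) (dlOf (nat_lit 4) (nat_lit 0x170238000880800b811c0003e04005c08e004402d0000b028090980))) 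
(.lf (nat_lit 19814855) (dlOf (nat_lit 1) (nat_lit 0x200289db001))))))) (.nd (nat_lit 6) 
(.nd (nat_lit 26) (.nd (nat_lit 7) (.nd (nat_lit 8) (.nd (nat_lit 27) 
(.lf (nat_lit 2684502023) (dlOf (nat_lit 3) (nat_lit 0x70198033240800980cc0199004000800200040008080002))) 
(.lf (nat_lit 4966203399) (dlOf (nat_lit 1) (nat_lit 0x2c0018040001)))) 
(.lf (nat_lit 671237895) (dlOf (nat_lit 3) (nat_lit 0x5804a0005a02003c0250002a018143b80)))) 
(.nd (nat_lit 8) 
(.lf (nat_lit 5234638983) (dlOf (nat_lit 2) (nat_lit 0xa0168000c4080058008001000200160008070f03))) 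
(.lf (nat_lit 805716359) (dlOf (nat_lit 1) (nat_lit 0x2e400401a000081a0782))))) (.nd (nat_lit 31) 
(.nd (nat_lit 7) (.nd (nat_lit 27) 
(.lf (nat_lit 5167529991) (dlOf (nat_lit 4) (nat_lit 0x680a00378804001002e00dd8020006027000400b8000001000080080014002000a0008080003))) 
(.lf (nat_lit 5033312263) (dlOf (nat_lit 1) (nat_lit 0x2c0018040001)))) (.nd (nat_lit 8) 
(.lf (nat_lit 4899094663) (dlOf (nat_lit 2) (nat_lit 0x20048000d8080020008000400200060008070e03))) 
(.lf (nat_lit 738347399) (dlOf (nat_lit 1) (nat_lit 0x40018094e81))))) (.nd (nat_lit 10) 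
(.nd (nat_lit 18) (.lf (nat_lit 2755805191) (dlOf (nat_lit 1) (nat_lit 0x800081b0001))) 
(.lf (nat_lit 2756067335) (dlOf (nat_lit 2) (nat_lit 0x502880576c0801200080068002004a00081e0003)))) 
(.lf (nat_lit 2752136199) (dlOf (nat_lit 1) (nat_lit 0x400200020008002882)))))) (.nd (nat_lit 8) 
(.nd (nat_lit 19) (.nd (nat_lit 26) 
(.lf (nat_lit 5100421191) (dlOf (nat_lit 1) (nat_lit 0x8008007c00200080008070603))) 
(.lf (nat_lit 604127303) (dlOf (nat_lit 1) (nat_lit 0x8008001000200500008030603)))) 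
(.nd (nat_lit 9) (.lf (nat_lit 805978183) (dlOf (nat_lit 1) (nat_lit 0x24004002a0008201482))) 
(.lf (nat_lit 2752397895) (dlOf (nat_lit 20) (nat_lit 0x7807fc06c42ba000690401ce1ff00080fa808207a404103d0035a15d01b40ae00010558033828401bc141000340900db0ff80d78574009c2b8000670601b61ff01b00ae80058570000cc0c03c03fe00201e901b10ae808605700090284000440a003215d00780ae00010c10016080c039c3fe003c1fe00010f9803a87a404142d0035c15d01b40ae006785080374282000421401ba1ff008b0f480d88574000820c03543fe01261e901a90ae80c405700038284000400a01f4204009d0fc007d05a4076c2b203a8157004409d004704d4000481c004c42201f220400980fc001187d801743e800581e000fa0b480ec856407542ae008613a008d09a80008c5800c0810013440200be1f8007b0fa000506c000642d2036015900c50ab804f054800782740002214000c21000900fc000b07d807382b203981570001005004f0fc00e3056401f82ae0001f060080210000b0fd804107e000403ec038415901be0ab800c85480003c1c023842000c81f801b50ac80d5855c00e02a4009e1350000e8601b30ab8000700803107e006c82b20001b04002e24b001e09e8000001008e800805a80020c180008018d03)))))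 
(.nd (nat_lit 7) (.nd (nat_lit 18) 
(.lf (nat_lit 1007305031) (dlOf (nat_lit 1) (nat_lit 0x3000182e0781))) 
(.lf (nat_lit 2752397639) (dlOf (nat_lit 2) (nat_lit 0xc1fa004e5018014c00)))) 
(.lf (nat_lit 738347975) (dlOf (nat_lit 2) (nat_lit 0x58082003c0320000e828095d80))))))) 
(.nd (nat_lit 6) (.nd (nat_lit 28) (.nd (nat_lit 18) (.nd (nat_lit 29) (.nd (nat_lit 26) 
(.nd (nat_lit 27) 
(.lf (nat_lit 5368856583) (dlOf (nat_lit 2) (nat_lit 0x6800a800a80500004022001200e002f002806d38280170008004c002002a0008040003))) 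
(.lf (nat_lit 5503074311) (dlOf (nat_lit 2) (nat_lit 0x6800a800a80500004022001200e002f002805f88280170008004c002002a0008040003)))) 
(.lf (nat_lit 1140998151) (dlOf (nat_lit 2) (nat_lit 0xc000001a90200060008060581)))) 
(.nd (nat_lit 9) 
(.lf (nat_lit 5905729543) (dlOf (nat_lit 1) (nat_lit 0x8008000400200020008144703))) 
(.lf (nat_lit 1610761735) (dlOf (nat_lit 1) (nat_lit 0x18008031000200e80008093683))))) 
(.nd (nat_lit 26) (.nd (nat_lit 7) 
(.lf (nat_lit 5905989639) (dlOf (nat_lit 1) (nat_lit 0x400200020008180002))) 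
(.lf (nat_lit 3221635463) (dlOf (nat_lit 1) (nat_lit 0x400400020008170782)))) (.nd (nat_lit 27) 
(.lf (nat_lit 1678131591) (dlOf (nat_lit 1) (nat_lit 0x2e400401a000081a0782))) 
(.lf (nat_lit 3959832967) (dlOf (nat_lit 1) (nat_lit 0x400400020008170782)))))) (.nd (nat_lit 18) 
(.nd (nat_lit 9) (.nd (nat_lit 8) (.nd (nat_lit 19) 
(.lf (nat_lit 2013413383) (dlOf (nat_lit 2) (nat_lit 0xc000001a10200060008060581))) 
(.lf (nat_lit 1342849031) (dlOf (nat_lit 2) (nat_lit 0x988b402bb60400b8004005600080f0002)))) 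
(.lf (nat_lit 5838621959) (dlOf (nat_lit 1) (nat_lit 0xa00180f6681)))) (.nd (nat_lit 21) 
(.lf (nat_lit 4094312967) (dlOf (nat_lit 1) (nat_lit 0x400200020008037b02))) 
(.lf (nat_lit 6378111495) (dlOf (nat_lit 1) (nat_lit 0x10008000400200020008117b03))))) 
(.nd (nat_lit 7) (.nd (nat_lit 20) 
(.lf (nat_lit 3494264839) (dlOf (nat_lit 2) (nat_lit 0x5028805ce40801200080068002004a00081e0003))) 
(.lf (nat_lit 1343635463) (dlOf (nat_lit 4) (nat_lit 0x58584001429c000e09d0001047002e94200090584001429c001609d0002047002e54200060584001829c001009d000c047002d142002500080104002004a00082d0283)))) 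
(.nd (nat_lit 8) 
(.lf (nat_lit 5773344903) (dlOf (nat_lit 2) (nat_lit 0x1109e001204ec0004e080004004000200080c0e02))) 
(.lf (nat_lit 5772296583) (dlOf (nat_lit 3) (nat_lit 0x1e131000b001000b0978002700800600080020002000c0008091003))))))) 
(.nd (nat_lit 18) (.nd (nat_lit 10) (.nd (nat_lit 7) (.nd (nat_lit 22) 
(.lf (nat_lit 6241271879) (dlOf (nat_lit 1) (nat_lit 0x200280d0001))) 
(.lf (nat_lit 1346519111) (dlOf (nat_lit 1) (nat_lit 0x10008001000200160008f80603)))) 
(.nd (nat_lit 9) (.lf (nat_lit 3221375431) (dlOf (nat_lit 2) (nat_lit 0x9000000b97818114e80))) 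
(.lf (nat_lit 3221380039) (dlOf (nat_lit 3) (nat_lit 0x5f0178004d40801a80bc002680401800040002000811be82))))) 
(.nd (nat_lit 11) (.nd (nat_lit 26) 
(.lf (nat_lit 5637293127) (dlOf (nat_lit 1) (nat_lit 0x4004000200080d2882))) 
(.lf (nat_lit 3959571527) (dlOf (nat_lit 10) (nat_lit 0x5c0000057900802e000002bba040170000015d50200cc00000aea01005d00000574c0802e000002ba4040170000015d10200b603e00a2501000201f005124080018008000c002002e0008112883)))) 
(.nd (nat_lit 7) 
(.lf (nat_lit 3221380423) (dlOf (nat_lit 2) (nat_lit 0xc00bc00b3c040070002008c000811c902))) 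
(.lf (nat_lit 1543654599) (dlOf (nat_lit 4) (nat_lit 0x202500050110006804c000680c00180560014025000a009800080000006410002c04a0014022000e00980008c1800d80080020002005a0008146383)))))) 
(.nd (nat_lit 26) (.nd (nat_lit 19) (.nd (nat_lit 7) 
(.lf (nat_lit 4026941511) (dlOf (nat_lit 2) (nat_lit 0x2a0100014802c0002e0800b8004003e00080d0c82))) 
(.lf (nat_lit 3490073799) (dlOf (nat_lit 1) (nat_lit 0x8008000400200020008006383)))) 
(.nd (nat_lit 8) (.lf (nat_lit 5772296263) (dlOf (nat_lit 1) (nat_lit 0xa0018090001))) 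
(.lf (nat_lit 3490595143) (dlOf (nat_lit 2) (nat_lit 0xc1e800219818014c00))))) (.nd (nat_lit 7) 
(.nd (nat_lit 28) 
(.lf (nat_lit 3288744007) (dlOf (nat_lit 2) (nat_lit 0x2a0100014802c0002e0800b8004003e00080d0c82))) 
(.lf (nat_lit 1946566727) (dlOf (nat_lit 3) (nat_lit 0x4c0270001a01001c0138000c80800b000800bc002001400080c1483)))) 
(.lf (nat_lit 4228268487) (dlOf (nat_lit 4) (nat_lit 0x170200000880800b81000003804005c080004402c0000b028090980))))))))) 
(.nd (nat_lit 6) (.nd (nat_lit 2) (.nd (nat_lit 18) (.nd (nat_lit 28) (.nd (nat_lit 21) 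
(.nd (nat_lit 9) (.nd (nat_lit 19) (.nd (nat_lit 22) 
(.lf (nat_lit 604192771) (dlOf (nat_lit 2) (nat_lit 0x101e0019880800c8008000800200460008080003))) 
(.lf (nat_lit 2755870723) (dlOf (nat_lit 3) (nat_lit 0xc03c8076940800881e403a84040030004000200081b0002)))) 
(.nd (nat_lit 10) 
(.lf (nat_lit 21708803) (dlOf (nat_lit 3) (nat_lit 0x3fb50001fda400438820014ed300202808007000800dc00200700008a60003))) 
(.lf (nat_lit 35341315) (dlOf (nat_lit 1) (nat_lit 0x60019012881))))) (.nd (nat_lit 7) 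
(.nd (nat_lit 20) 
(.lf (nat_lit 3288547843) (dlOf (nat_lit 1) (nat_lit 0xa00080024002001e0008090d83))) 
(.lf (nat_lit 9650691) (dlOf (nat_lit 1) (nat_lit 0x100018577f81)))) 
(.lf (nat_lit 2684572547) (dlOf (nat_lit 1) (nat_lit 0xc00280a9001))))) (.nd (nat_lit 22) 
(.nd (nat_lit 24) (.nd (nat_lit 19) 
(.lf (nat_lit 44253187) (dlOf (nat_lit 1) (nat_lit 0x3680080010002000800092e0003))) 
(.lf (nat_lit 11223043) (dlOf (nat_lit 2) (nat_lit 0x1056100380818670000)))) (.nd (nat_lit 7) 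
(.lf (nat_lit 52641795) (dlOf (nat_lit 1) (nat_lit 0x128008006400200760009560003))) 
(.lf (nat_lit 62079107) (dlOf (nat_lit 1) (nat_lit 0x400400020019950e02))))) (.nd (nat_lit 7) 
(.nd (nat_lit 20) 
(.lf (nat_lit 14893059) (dlOf (nat_lit 1) (nat_lit 0x10008000800200020008790003))) 
(.lf (nat_lit 32718851) (dlOf (nat_lit 1) (nat_lit 0x20018f00001)))) 
(.lf (nat_lit 23806083) (dlOf (nat_lit 1) (nat_lit 0x400200380008b80102)))))) (.nd (nat_lit 7) 
(.nd (nat_lit 30) (.nd (nat_lit 9) (.nd (nat_lit 27) 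
(.lf (nat_lit 2953003011) (dlOf (nat_lit 3) (nat_lit 0x4c00d0019880802100700000004011400400520008080002))) 
(.lf (nat_lit 939737091) (dlOf (nat_lit 2) (nat_lit 0x700e00199c080008008001800200180008160003)))) 
(.lf (nat_lit 2483241475) (dlOf (nat_lit 1) (nat_lit 0x8008000400200020008090d83)))) 
(.nd (nat_lit 22) (.nd (nat_lit 19) 
(.lf (nat_lit 1476608003) (dlOf (nat_lit 2) (nat_lit 0x400d8017ee040004004000400080a0002))) 
(.lf (nat_lit 3557507075) (dlOf (nat_lit 1) (nat_lit 0x640018230001)))) (.nd (nat_lit 9) 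
(.lf (nat_lit 1346585603) (dlOf (nat_lit 1) (nat_lit 0x8008000800200040008fe2883))) 
(.lf (nat_lit 3494068739) (dlOf (nat_lit 1) (nat_lit 0x200181b0d81)))))) (.nd (nat_lit 8) 
(.nd (nat_lit 9) (.lf (nat_lit 1346584707) (dlOf (nat_lit 1) (nat_lit 0x1a0018fe0301))) 
(.nd (nat_lit 12) (.lf (nat_lit 5637359235) (dlOf (nat_lit 1) (nat_lit 0x1e00180d3a01))) 
(.lf (nat_lit 4160968323) (dlOf (nat_lit 3) (nat_lit 0x2402b000c801002c01580000008006800800b0002005c00080a9d83))))) 
(.nd (nat_lit 9) 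
(.lf (nat_lit 4026745219) (dlOf (nat_lit 2) (nat_lit 0x20170033ac080050008002800200240008090783))) 
(.lf (nat_lit 3489880963) (dlOf (nat_lit 1) (nat_lit 0x800800040020002000800bc83))))))) 
(.nd (nat_lit 20) (.nd (nat_lit 24) (.nd (nat_lit 27) (.nd (nat_lit 19) (.nd (nat_lit 26) 
(.lf (nat_lit 1611087875) (dlOf (nat_lit 4) (nat_lit 0x702d0004015c000800a007d006000e05a001002b8002801400f9e0c00200b4000c0570001002801f2c1801b80080168002021c00080d0003))) 
(.lf (nat_lit 3557244931) (dlOf (nat_lit 1) (nat_lit 0xc0018170001)))) 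
(.lf (nat_lit 1343176707) (dlOf (nat_lit 1) (nat_lit 0x40028190001)))) (.nd (nat_lit 9) 
(.nd (nat_lit 26) (.lf (nat_lit 2819047427) (dlOf (nat_lit 1) (nat_lit 0x3c00400040008180002))) 
(.lf (nat_lit 738672643) (dlOf (nat_lit 4) (nat_lit 0x702d0004015c000800a00d4b06000e05a001002b8002801401a940c00200b4000c05700010028035181801b80080168002021c00080d0003)))) 
(.lf (nat_lit 134693379) (dlOf (nat_lit 2) (nat_lit 0x150208000600800900080040002000a0008090d83))))) 
(.nd (nat_lit 22) (.nd (nat_lit 19) 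
(.lf (nat_lit 19349507) (dlOf (nat_lit 1) (nat_lit 0x600008990001))) 
(.lf (nat_lit 53428227) (dlOf (nat_lit 1) (nat_lit 0xc004000600095d0002)))) (.nd (nat_lit 8) 
(.lf (nat_lit 55001091) (dlOf (nat_lit 3) (nat_lit 0x898c018a4a7008fb8200022538047b40800500080030002000e0009680003))) 
(.lf (nat_lit 57101059) (dlOf (nat_lit 1) (nat_lit 0x60029795a81)))))) (.nd (nat_lit 23) 
(.nd (nat_lit 9) (.nd (nat_lit 19) (.nd (nat_lit 21) 
(.lf (nat_lit 22495235) (dlOf (nat_lit 1) (nat_lit 0x800400020018af0002))) 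
(.lf (nat_lit 3620867) (dlOf (nat_lit 2) (nat_lit 0x22590010d8080068008015400200180008210003)))) 
(.lf (nat_lit 69156867) (dlOf (nat_lit 1) (nat_lit 0x4004000200088c0002)))) (.nd (nat_lit 7) 
(.lf (nat_lit 58147331) (dlOf (nat_lit 1) (nat_lit 0x600197c7b01))) 
(.lf (nat_lit 8344451) (dlOf (nat_lit 1) (nat_lit 0x3f8008038400201a00008519003))))) 
(.nd (nat_lit 10) (.nd (nat_lit 19) 
(.lf (nat_lit 9912323) (dlOf (nat_lit 2) (nat_lit 0x5d14805744080020008000400200040008590003))) 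
(.nd (nat_lit 21) (.lf (nat_lit 14630915) (dlOf (nat_lit 1) (nat_lit 0x20008770001))) 
(.lf (nat_lit 29310979) (dlOf (nat_lit 9) (nat_lit 0x16fd8001354400119b400640060006dfc00036a900013544000d9920063f080002d8e00016a88018f010001332400c72040005bf80006d5200026a88000b32400c6c100005bf80006d5200026a00018cc1800137f00005b1c0004d52000266d0018a020000b36800c36040004004002a0018df0002))))) 
(.nd (nat_lit 7) (.lf (nat_lit 43467779) (dlOf (nat_lit 1) (nat_lit 0x800292a2881))) 
(.lf (nat_lit 43468419) (dlOf (nat_lit 1) (nat_lit 0x5800800d0002001e00092a3a03)))))))) 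
(.nd (nat_lit 28) (.nd (nat_lit 18) (.nd (nat_lit 9) (.nd (nat_lit 20) (.nd (nat_lit 8) 
(.nd (nat_lit 7) (.nd (nat_lit 19) 
(.lf (nat_lit 1812152327) (dlOf (nat_lit 1) (nat_lit 0x4800800c400200120008160003))) 
(.lf (nat_lit 28000263) (dlOf (nat_lit 1) (nat_lit 0x380018d50001)))) 
(.lf (nat_lit 1275281543) (dlOf (nat_lit 4) (nat_lit 0x8800a00001408040005000006040328028000000200f600280c0e01)))) 
(.nd (nat_lit 11) (.lf (nat_lit 36390151) (dlOf (nat_lit 1) (nat_lit 0x20019072f81))) 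
(.lf (nat_lit 216327) (dlOf (nat_lit 1) (nat_lit 0x20018006681))))) (.nd (nat_lit 7) 
(.nd (nat_lit 19) (.lf (nat_lit 30621703) (dlOf (nat_lit 1) (nat_lit 0x2e0008e40481))) 
(.lf (nat_lit 22757383) (dlOf (nat_lit 1) (nat_lit 0x20028b20001)))) (.nd (nat_lit 21) 
(.lf (nat_lit 9650311) (dlOf (nat_lit 3) (nat_lit 0x212ba001048a3000136f8000c81800164940005a040028002001e0008570e02))) 
(.lf (nat_lit 62079111) (dlOf (nat_lit 1) (nat_lit 0x20008000400200020009950e03)))))) 
(.nd (nat_lit 7) (.nd (nat_lit 8) (.nd (nat_lit 19) 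
(.lf (nat_lit 2755871239) (dlOf (nat_lit 1) (nat_lit 0x400181b0d81))) 
(.lf (nat_lit 51069447) (dlOf (nat_lit 4) (nat_lit 0x316fa000cb7c006070200125bc8029e008001ade4014cc040054004000800194f7b02)))) 
(.nd (nat_lit 10) (.lf (nat_lit 8082183) (dlOf (nat_lit 1) (nat_lit 0x400400020008518f82))) 
(.lf (nat_lit 5905794823) (dlOf (nat_lit 1) (nat_lit 0x20028143b81))))) (.nd (nat_lit 10) 
(.lf (nat_lit 1208175239) (dlOf (nat_lit 1) (nat_lit 0x400200020008095482))) 
(.lf (nat_lit 216711) (dlOf (nat_lit 1) (nat_lit 0x40028007181)))))) (.nd (nat_lit 20) 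
(.nd (nat_lit 29) (.nd (nat_lit 7) (.nd (nat_lit 9) 
(.lf (nat_lit 67584007) (dlOf (nat_lit 1) (nat_lit 0x40008230281))) 
(.lf (nat_lit 24068615) (dlOf (nat_lit 1) (nat_lit 0x400400020008b80d82)))) 
(.lf (nat_lit 55001223) (dlOf (nat_lit 3) (nat_lit 0xc9780003102001a4c6000525e0000c01001b0008005800200040009680f03)))) 
(.nd (nat_lit 26) (.nd (nat_lit 31) 
(.lf (nat_lit 1611087879) (dlOf (nat_lit 5) (nat_lit 0x1a05a001002b8007001400fa00c001c0b40012057000d002801f3c180080168001c0ae0014005003e683000d02d0007015c002c00a007cb06002800280d0001))) 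
(.lf (nat_lit 3758571527) (dlOf (nat_lit 1) (nat_lit 0x200282b0281)))) 
(.lf (nat_lit 738672647) (dlOf (nat_lit 5) (nat_lit 0x1a05a001002b8007001401a960c001c0b40012057000d002803528180080168001c0ae0014005006a403000d02d0007015c002c00a00d4606002800280d0001))))) 
(.nd (nat_lit 8) (.nd (nat_lit 9) (.nd (nat_lit 19) 
(.lf (nat_lit 22495239) (dlOf (nat_lit 1) (nat_lit 0x1000400020008af0482))) 
(.lf (nat_lit 18825223) (dlOf (nat_lit 1) (nat_lit 0x3400200080008970002)))) 
(.lf (nat_lit 58147335) (dlOf (nat_lit 1) (nat_lit 0x400097c7b01)))) (.nd (nat_lit 7) 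
(.lf (nat_lit 8346887) (dlOf (nat_lit 1) (nat_lit 0x40020002000851c602))) 
(.lf (nat_lit 39799175) (dlOf (nat_lit 1) (nat_lit 0x4004000200091f4e82))))))) (.nd (nat_lit 27) 
(.nd (nat_lit 26) (.nd (nat_lit 8) (.nd (nat_lit 19) 
(.lf (nat_lit 2953003015) (dlOf (nat_lit 2) (nat_lit 0x198070000000401f800400080008080002))) 
(.lf (nat_lit 1343963143) (dlOf (nat_lit 1) (nat_lit 0x1c0018380481)))) (.nd (nat_lit 7) 
(.lf (nat_lit 268651271) (dlOf (nat_lit 2) (nat_lit 0xb0140000180800480080078002000e00080e5b03))) 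
(.lf (nat_lit 2416132487) (dlOf (nat_lit 1) (nat_lit 0x18008084800202440008090783))))) 
(.nd (nat_lit 7) (.nd (nat_lit 18) 
(.lf (nat_lit 5704466439) (dlOf (nat_lit 9) (nat_lit 0x1300c80500058000801200169060010019009900b00028024002d00c006003200167020052019000300b000598100040064002c6040038036000bc02002600a0000c01000100500005c0801a80080028002000a00080a0583))) 
(.lf (nat_lit 3020374023) (dlOf (nat_lit 1) (nat_lit 0x200282b0281)))) 
(.lf (nat_lit 335760007) (dlOf (nat_lit 1) (nat_lit 0x20028095481))))) (.nd (nat_lit 7) 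
(.nd (nat_lit 30) (.nd (nat_lit 19) 
(.lf (nat_lit 939737095) (dlOf (nat_lit 1) (nat_lit 0x4800800c400200120008160003))) 
(.lf (nat_lit 3154853895) (dlOf (nat_lit 1) (nat_lit 0x20008350001)))) (.nd (nat_lit 29) 
(.lf (nat_lit 1476608007) (dlOf (nat_lit 2) (nat_lit 0xd80d8017f8040048004000800080a0002))) 
(.lf (nat_lit 6308446215) (dlOf (nat_lit 9) (nat_lit 0x1300c80500058000801200169060010019009900b00028024002d00c006003200167020052019000300b000598100040064002c6040038036000bd02002600a0000e8100010050000700801a80080028002000a00080a0583))))) 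
(.nd (nat_lit 8) (.lf (nat_lit 6376606343) (dlOf (nat_lit 1) (nat_lit 0x400200020008095482))) 
(.nd (nat_lit 11) 
(.lf (nat_lit 2550350215) (dlOf (nat_lit 1) (nat_lit 0x18008084800202440008090783))) 
(.lf (nat_lit 1476872583) (dlOf (nat_lit 1) (nat_lit 0x200282d4e81))))))))) (.nd (nat_lit 18) 
(.nd (nat_lit 7) (.nd (nat_lit 19) (.nd (nat_lit 8) (.nd (nat_lit 21) (.nd (nat_lit 22) 
(.nd (nat_lit 26) (.lf (nat_lit 5368922179) (dlOf (nat_lit 1) (nat_lit 0x180018090001))) 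
(.lf (nat_lit 4496506947) (dlOf (nat_lit 2) (nat_lit 0x1600d0000000800180080004002000400080a1783)))) 
(.lf (nat_lit 63127619) (dlOf (nat_lit 2) (nat_lit 0x203f4000a88199e0600)))) (.nd (nat_lit 2) 
(.nd (nat_lit 9) (.lf (nat_lit 4095951939) (dlOf (nat_lit 1) (nat_lit 0x4004000200080e2882))) 
(.lf (nat_lit 2753774147) (dlOf (nat_lit 2) (nat_lit 0xc3b2000240200020018091101)))) 
(.lf (nat_lit 23282247) (dlOf (nat_lit 1) (nat_lit 0x8008000400200020008b81103))))) 
(.nd (nat_lit 9) (.nd (nat_lit 10) (.nd (nat_lit 20) 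
(.lf (nat_lit 1008943427) (dlOf (nat_lit 1) (nat_lit 0x20019000c01))) 
(.lf (nat_lit 22233411) (dlOf (nat_lit 1) (nat_lit 0x20018ab7f01)))) 
(.lf (nat_lit 3489881411) (dlOf (nat_lit 2) (nat_lit 0x30fe0019e40801180080100002003e000800c903)))) 
(.nd (nat_lit 2) 
(.lf (nat_lit 671303491) (dlOf (nat_lit 2) (nat_lit 0x1500f8007004c0004008011000200300008143e02))) 
(.lf (nat_lit 8607559) (dlOf (nat_lit 1) (nat_lit 0x4002851a181)))))) (.nd (nat_lit 28) 
(.nd (nat_lit 22) (.nd (nat_lit 21) 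
(.lf (nat_lit 537608259) (dlOf (nat_lit 2) (nat_lit 0x3402d800174080108008013c002000e00080d0c03))) 
(.nd (nat_lit 26) (.lf (nat_lit 2834499) (dlOf (nat_lit 2) (nat_lit 0x52000000210181c0c00))) 
(.lf (nat_lit 2754297923) (dlOf (nat_lit 1) (nat_lit 0x100080008002000400080d0c03))))) 
(.nd (nat_lit 2) (.lf (nat_lit 33245763) (dlOf (nat_lit 1) (nat_lit 0xc00400060008f55202))) 
(.lf (nat_lit 7029063) (dlOf (nat_lit 1) (nat_lit 0x800184b0781))))) (.nd (nat_lit 21) 
(.nd (nat_lit 20) 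
(.lf (nat_lit 1410023491) (dlOf (nat_lit 2) (nat_lit 0x3402d800174080108008013c002000e00080d0c03))) 
(.lf (nat_lit 5773148227) (dlOf (nat_lit 1) (nat_lit 0x15c00280a1681)))) (.nd (nat_lit 2) 
(.nd (nat_lit 26) 
(.lf (nat_lit 3492495427) (dlOf (nat_lit 1) (nat_lit 0x100080008002000400080d0c03))) 
(.lf (nat_lit 472596547) (dlOf (nat_lit 3) (nat_lit 0x7009c0038046801a8230004920c04842c001e609c00fa0468007c01800600080048002000400089c0603)))) 
(.lf (nat_lit 472596551) (dlOf (nat_lit 1) (nat_lit 0x1e00289c0601))))))) (.nd (nat_lit 2) 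
(.nd (nat_lit 8) (.nd (nat_lit 9) (.nd (nat_lit 10) 
(.lf (nat_lit 5980355) (dlOf (nat_lit 1) (nat_lit 0x60028420481))) 
(.lf (nat_lit 473121987) (dlOf (nat_lit 2) (nat_lit 0x5f04d001d822800700f4000230600020018d12d01)))) 
(.nd (nat_lit 20) (.lf (nat_lit 3020116675) (dlOf (nat_lit 1) (nat_lit 0x80018128c81))) 
(.lf (nat_lit 20140739) (dlOf (nat_lit 1) (nat_lit 0x80080004002000200089d8c83))))) 
(.nd (nat_lit 11) (.nd (nat_lit 19) 
(.lf (nat_lit 2753774019) (dlOf (nat_lit 5) (nat_lit 0x68748000400400183a40001f02000e1d20000f0100080e900000008002000801d0002001c0008090903))) 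
(.lf (nat_lit 738935235) (dlOf (nat_lit 1) (nat_lit 0x40008157001)))) (.nd (nat_lit 23) 
(.lf (nat_lit 3556989379) (dlOf (nat_lit 1) (nat_lit 0xa800800a4002006a000812af83))) 
(.lf (nat_lit 8608195) (dlOf (nat_lit 1) (nat_lit 0x40020002000851af82)))))) (.nd (nat_lit 8) 
(.nd (nat_lit 9) (.lf (nat_lit 5772099783) (dlOf (nat_lit 1) (nat_lit 0x24004002c0008075902))) 
(.nd (nat_lit 20) (.lf (nat_lit 217799) (dlOf (nat_lit 1) (nat_lit 0x400200020008008c82))) 
(.lf (nat_lit 20140743) (dlOf (nat_lit 1) (nat_lit 0xe00080004002004200089d8c83))))) 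
(.nd (nat_lit 26) (.nd (nat_lit 9) 
(.lf (nat_lit 3221441991) (dlOf (nat_lit 1) (nat_lit 0x80018116d01))) 
(.lf (nat_lit 268651463) (dlOf (nat_lit 2) (nat_lit 0xb006c0003a040080004003400180e5d82)))) 
(.nd (nat_lit 27) (.lf (nat_lit 1409502663) (dlOf (nat_lit 1) (nat_lit 0x12c0028006d01))) 
(.lf (nat_lit 1543720391) (dlOf (nat_lit 1) (nat_lit 0x740028146d01)))))))) (.nd (nat_lit 19) 
(.nd (nat_lit 2) (.nd (nat_lit 20) (.nd (nat_lit 10) (.nd (nat_lit 24) 
(.lf (nat_lit 1009205315) (dlOf (nat_lit 1) (nat_lit 0x2c004000400190a0602))) 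
(.lf (nat_lit 19349571) (dlOf (nat_lit 1) (nat_lit 0x20028990e81)))) (.nd (nat_lit 8) 
(.lf (nat_lit 1476871235) (dlOf (nat_lit 1) (nat_lit 0x4004000200082d2882))) 
(.lf (nat_lit 2751940419) (dlOf (nat_lit 1) (nat_lit 0x400200020008003e02))))) (.nd (nat_lit 9) 
(.nd (nat_lit 7) (.nd (nat_lit 21) 
(.lf (nat_lit 35078211) (dlOf (nat_lit 1) (nat_lit 0x80018fd0601))) 
(.lf (nat_lit 37175363) (dlOf (nat_lit 1) (nat_lit 0x200090b0601)))) 
(.lf (nat_lit 58147267) (dlOf (nat_lit 3) (nat_lit 0x100000008081000a0000003f40800c000800cc002000200097c7003)))) 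
(.nd (nat_lit 10) (.lf (nat_lit 12010051) (dlOf (nat_lit 1) (nat_lit 0x200086c1101))) 
(.lf (nat_lit 43468355) (dlOf (nat_lit 1) (nat_lit 0x4004000200092a3802)))))) (.nd (nat_lit 7) 
(.nd (nat_lit 20) (.nd (nat_lit 10) 
(.lf (nat_lit 134692935) (dlOf (nat_lit 1) (nat_lit 0x1a0028090001))) 
(.lf (nat_lit 1476871239) (dlOf (nat_lit 1) (nat_lit 0x80080004002000200082d2883)))) 
(.nd (nat_lit 21) (.lf (nat_lit 35078215) (dlOf (nat_lit 1) (nat_lit 0x400400020008fd0602))) 
(.nd (nat_lit 25) 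
(.lf (nat_lit 3620935) (dlOf (nat_lit 2) (nat_lit 0x944400549920003204003a0008210e01))) 
(.lf (nat_lit 37175367) (dlOf (nat_lit 1) (nat_lit 0x80080014002000400090b0603)))))) 
(.nd (nat_lit 8) (.nd (nat_lit 11) 
(.lf (nat_lit 47662279) (dlOf (nat_lit 2) (nat_lit 0x1aa48000a00800b8008001800200080009402d03))) 
(.lf (nat_lit 3490139335) (dlOf (nat_lit 1) (nat_lit 0x400200060008006382)))) (.nd (nat_lit 29) 
(.lf (nat_lit 3490139591) (dlOf (nat_lit 1) (nat_lit 0x40018006d01))) 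
(.lf (nat_lit 4027010503) (dlOf (nat_lit 2) (nat_lit 0x8009000000040008004000400080f6d02))))))) 
(.nd (nat_lit 21) (.nd (nat_lit 2) (.nd (nat_lit 20) (.nd (nat_lit 22) (.nd (nat_lit 23) 
(.lf (nat_lit 1343176771) (dlOf (nat_lit 16) (nat_lit 0xf10f38001080805800000007e04006849402241ec010f0f3808c8614042830001e617e000b01d004800000007820017049401ca1ec00fb0f380480600031c2fc01560000001d8600ec0f60077879c010c30a01b218000c70bf0000e82807587b004a43ce0208185010d0c0004d05f80140000000390c00021e700020c00000e010003079c0006e0402e800000030020150000000178100ad00000002c080638000000140403300000000702014a000000030100c20000000000800f000801d800200440008190583))) 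
(.lf (nat_lit 59719747) (dlOf (nat_lit 2) (nat_lit 0x11f800049204000c00400040009820602)))) 
(.lf (nat_lit 13582403) (dlOf (nat_lit 4) (nat_lit 0x54f18c02f77ac00061040007c63001ddeb00018010010f18c00b77ac000220400540018730c01)))) 
(.nd (nat_lit 7) (.lf (nat_lit 14630979) (dlOf (nat_lit 1) (nat_lit 0x8004000a0018770582))) 
(.lf (nat_lit 3491709379) (dlOf (nat_lit 5) (nat_lit 0x1a0e0000106a400c0000000200600300000000f81000a0e00000780800787000000004022000200180008090902))))) 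
(.nd (nat_lit 27) (.nd (nat_lit 20) 
(.lf (nat_lit 1343176775) (dlOf (nat_lit 4) (nat_lit 0x13c0000001802003c1ec00470000000501000187b0000220400f8002004a0008190602))) 
(.lf (nat_lit 14630983) (dlOf (nat_lit 1) (nat_lit 0xa0018770601)))) (.nd (nat_lit 10) 
(.lf (nat_lit 6376341575) (dlOf (nat_lit 1) (nat_lit 0x2a0008090001))) 
(.lf (nat_lit 5772362823) (dlOf (nat_lit 1) (nat_lit 0x800400020008092882)))))) (.nd (nat_lit 7) 
(.nd (nat_lit 2) (.lf (nat_lit 472858947) (dlOf (nat_lit 1) (nat_lit 0x400400080008b28702))) 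
(.nd (nat_lit 8) (.lf (nat_lit 25116743) (dlOf (nat_lit 1) (nat_lit 0x40028be1481))) 
(.lf (nat_lit 472858951) (dlOf (nat_lit 1) (nat_lit 0x8008000c00200040008b28703))))) 
(.nd (nat_lit 8) (.nd (nat_lit 9) 
(.lf (nat_lit 32457923) (dlOf (nat_lit 1) (nat_lit 0x40018ef2d01))) 
(.lf (nat_lit 19878595) (dlOf (nat_lit 1) (nat_lit 0x4002000200089d8c82)))) (.nd (nat_lit 11) 
(.nd (nat_lit 22) (.lf (nat_lit 1345274307) (dlOf (nat_lit 1) (nat_lit 0x3c0008b37001))) 
(.lf (nat_lit 24068547) (dlOf (nat_lit 1) (nat_lit 0x110008000400200020008b80903)))) 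
(.lf (nat_lit 19880387) (dlOf (nat_lit 2) (nat_lit 0x16329c014b4040044004001200089daf82))))))))))))

end

end Pool.Agent.Lib.MP_5854e1_co.Cz

namespace Pool.Agent.Lib.MP_5854e1_co.Cz

noncomputable section

noncomputable def tz165 : DT := (.nd (nat_lit 2) (.nd (nat_lit 17) (.nd (nat_lit 18) 
(.nd (nat_lit 16) (.nd (nat_lit 7) (.nd (nat_lit 19) (.nd (nat_lit 10) (.nd (nat_lit 6) 
(.nd (nat_lit 9) (.lf (nat_lit 52445219) (dlOf (nat_lit 1) (nat_lit 0x28004000e0009530182))) 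
(.nd (nat_lit 12) 
(.lf (nat_lit 5773478435) (dlOf (nat_lit 2) (nat_lit 0x80500002602000400180e5101))) 
(.lf (nat_lit 2348833315) (dlOf (nat_lit 1) (nat_lit 0x1800800080020004000800b283))))) 
(.nd (nat_lit 8) (.nd (nat_lit 11) 
(.lf (nat_lit 30425187) (dlOf (nat_lit 1) (nat_lit 0x400008e30481))) 
(.lf (nat_lit 3623897187) (dlOf (nat_lit 1) (nat_lit 0x740028004701)))) (.nd (nat_lit 11) 
(.lf (nat_lit 46154083) (dlOf (nat_lit 1) (nat_lit 0x20029380e81))) 
(.lf (nat_lit 2415941987) (dlOf (nat_lit 1) (nat_lit 0x20001800ab81)))))) (.nd (nat_lit 28) 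
(.nd (nat_lit 11) (.nd (nat_lit 6) 
(.lf (nat_lit 3355464995) (dlOf (nat_lit 8) (nat_lit 0x390030000c00801d00180005e0400f800c0002e020074006000168100390030000140801c0018000040400e000c000000200520018009781))) 
(.lf (nat_lit 61884003) (dlOf (nat_lit 2) (nat_lit 0x56768000cc0800c0008000c002003c0009923903)))) 
(.nd (nat_lit 26) (.lf (nat_lit 671108131) (dlOf (nat_lit 1) (nat_lit 0x6a0008006081))) 
(.lf (nat_lit 3288353827) (dlOf (nat_lit 1) (nat_lit 0x3a0028006081))))) (.nd (nat_lit 8) 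
(.nd (nat_lit 27) 
(.lf (nat_lit 3489680419) (dlOf (nat_lit 2) (nat_lit 0x201f8005880801580080030002000c0008006083))) 
(.lf (nat_lit 2550156323) (dlOf (nat_lit 1) (nat_lit 0x40028006081)))) (.nd (nat_lit 6) 
(.lf (nat_lit 5772428579) (dlOf (nat_lit 1) (nat_lit 0x400400020008093102))) 
(.lf (nat_lit 4227882339) (dlOf (nat_lit 2) (nat_lit 0x3f01900199408022800800180020014000800c903))))))) 
(.nd (nat_lit 31) (.nd (nat_lit 22) (.nd (nat_lit 20) (.nd (nat_lit 9) (.nd (nat_lit 26) 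
(.lf (nat_lit 1611153443) (dlOf (nat_lit 6) (nat_lit 0x700150000c80802f010801980540022029009e004801000000005e1401f00540002e0200cc02a0000b01006e015000050080ff000808f800200ac00080f0b83))) 
(.lf (nat_lit 738738211) (dlOf (nat_lit 6) (nat_lit 0x700150000c80802f010801980540022029009e004801000000005e1401f00540002e0200cc02a0000b01006e015000050080ff000808f800200ac00080f0b83)))) 
(.lf (nat_lit 50872867) (dlOf (nat_lit 1) (nat_lit 0x80080034002000e00094d8703)))) 
(.nd (nat_lit 21) (.lf (nat_lit 9977891) (dlOf (nat_lit 1) (nat_lit 0x200085a0b81))) 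
(.lf (nat_lit 45629475) (dlOf (nat_lit 2) (nat_lit 0x6164c000a204000800400060019340182))))) 
(.nd (nat_lit 21) (.nd (nat_lit 25) 
(.lf (nat_lit 21512227) (dlOf (nat_lit 2) (nat_lit 0xc99d30059cc6803280000008a0c000c00200140008a40182))) 
(.lf (nat_lit 55066659) (dlOf (nat_lit 2) (nat_lit 0x187d80002602000600196a0881)))) 
(.lf (nat_lit 15220771) (dlOf (nat_lit 4) (nat_lit 0x508ea0005b81003247500028008006a3a80000004000c004002e00087c0602))))) 
(.nd (nat_lit 26) (.nd (nat_lit 6) (.nd (nat_lit 28) 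
(.lf (nat_lit 2819112995) (dlOf (nat_lit 2) (nat_lit 0x1006a003e0348002d41000080080004002000200081a0603))) 
(.lf (nat_lit 3624419363) (dlOf (nat_lit 4) (nat_lit 0x100e800158080010074000aa0400580800000002000400181a0501)))) 
(.lf (nat_lit 3221766243) (dlOf (nat_lit 6) (nat_lit 0x100460009021800880bc0004c0c00400ac002204e000e01a80008418000811c004405e0000e04007202f0000181000401700000008014000800a4002005e0008181383)))) 
(.nd (nat_lit 27) (.lf (nat_lit 3557310499) (dlOf (nat_lit 1) (nat_lit 0x18004000600081c0602))) 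
(.lf (nat_lit 2886221859) (dlOf (nat_lit 4) (nat_lit 0x100e0002b0080010070001560400580800000002000400181a0501))))))) 
(.nd (nat_lit 8) (.nd (nat_lit 6) (.nd (nat_lit 10) (.nd (nat_lit 19) (.nd (nat_lit 20) 
(.lf (nat_lit 33573539) (dlOf (nat_lit 1) (nat_lit 0x720028f55601))) 
(.lf (nat_lit 36719267) (dlOf (nat_lit 1) (nat_lit 0xc00200020009075602)))) 
(.lf (nat_lit 1346914979) (dlOf (nat_lit 1) (nat_lit 0x200290a5601)))) (.nd (nat_lit 30) 
(.nd (nat_lit 28) 
(.lf (nat_lit 671108771) (dlOf (nat_lit 7) (nat_lit 0xc058000401d002100c000180400068000000340a003602c000b01180120074007c030003c010000a0000000c830001000000062040034058002401d0018004000b8008006c0000002f0a00060080001501000300400009c080078008001c00200120008007203))) 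
(.lf (nat_lit 939544227) (dlOf (nat_lit 1) (nat_lit 0x4400400040008007202)))) (.nd (nat_lit 26) 
(.lf (nat_lit 5905600163) (dlOf (nat_lit 1) (nat_lit 0x40028007201))) 
(.lf (nat_lit 3959443107) (dlOf (nat_lit 1) (nat_lit 0x80028007201)))))) (.nd (nat_lit 10) 
(.nd (nat_lit 11) 
(.lf (nat_lit 1476415715) (dlOf (nat_lit 1) (nat_lit 0x360008000400200020008008083))) 
(.nd (nat_lit 12) (.lf (nat_lit 4362094819) (dlOf (nat_lit 1) (nat_lit 0x2400200400008004b02))) 
(.lf (nat_lit 1342200035) (dlOf (nat_lit 2) (nat_lit 0x102740154e04004c0020010000800a882))))) 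
(.nd (nat_lit 11) (.lf (nat_lit 6106924259) (dlOf (nat_lit 1) (nat_lit 0x400200020008002e02))) 
(.nd (nat_lit 12) 
(.lf (nat_lit 3489680611) (dlOf (nat_lit 4) (nat_lit 0x280ce0002702000c0670001301000603380009408023800800b800200740008006503))) 
(.lf (nat_lit 1342201059) (dlOf (nat_lit 1) (nat_lit 0x10e001800c581))))))) (.nd (nat_lit 10) 
(.nd (nat_lit 9) (.nd (nat_lit 6) (.nd (nat_lit 27) 
(.lf (nat_lit 3489679779) (dlOf (nat_lit 1) (nat_lit 0x20018004e81))) 
(.lf (nat_lit 2013284771) (dlOf (nat_lit 1) (nat_lit 0x60018004e81)))) 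
(.lf (nat_lit 1409305059) (dlOf (nat_lit 1) (nat_lit 0x80080088002002a0008004e83)))) 
(.nd (nat_lit 6) (.nd (nat_lit 26) 
(.lf (nat_lit 1342200739) (dlOf (nat_lit 1) (nat_lit 0x40020002000800bd02))) 
(.lf (nat_lit 4227881891) (dlOf (nat_lit 1) (nat_lit 0xc002800bd01)))) 
(.lf (nat_lit 2752005091) (dlOf (nat_lit 1) (nat_lit 0x20018002881))))) (.nd (nat_lit 12) 
(.nd (nat_lit 6) (.nd (nat_lit 11) 
(.lf (nat_lit 5502944675) (dlOf (nat_lit 1) (nat_lit 0x400400020008003602))) 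
(.lf (nat_lit 6442470819) (dlOf (nat_lit 1) (nat_lit 0x400200020008006d02)))) 
(.lf (nat_lit 1409306083) (dlOf (nat_lit 2) (nat_lit 0x80a40003d0200060018006e01)))) 
(.nd (nat_lit 11) 
(.lf (nat_lit 3691009443) (dlOf (nat_lit 2) (nat_lit 0x9001b004500a800000100988008002c00200020008009903))) 
(.nd (nat_lit 26) 
(.lf (nat_lit 134241699) (dlOf (nat_lit 2) (nat_lit 0x1c06200027020002002800cb01))) 
(.lf (nat_lit 4227882403) (dlOf (nat_lit 4) (nat_lit 0xdc0320003301001e0190000900803080c80000004001c004009a000800cb02))))))))) 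
(.nd (nat_lit 6) (.nd (nat_lit 11) (.nd (nat_lit 24) (.nd (nat_lit 30) (.nd (nat_lit 19) 
(.nd (nat_lit 20) 
(.lf (nat_lit 14762019) (dlOf (nat_lit 3) (nat_lit 0x2800000002c0800e00000001404003c00200020008770182))) 
(.lf (nat_lit 47267875) (dlOf (nat_lit 3) (nat_lit 0xa57880028ba90002b0200115e20002aea400022080008004003800193c0182)))) 
(.lf (nat_lit 36257827) (dlOf (nat_lit 2) (nat_lit 0x650f00023019050180)))) (.nd (nat_lit 7) 
(.nd (nat_lit 19) (.lf (nat_lit 1343307811) (dlOf (nat_lit 1) (nat_lit 0x14004017a00081e0602))) 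
(.lf (nat_lit 3892920355) (dlOf (nat_lit 3) (nat_lit 0x1e016000b28100050238002f80801a8008006800201320008290d83)))) 
(.nd (nat_lit 26) 
(.lf (nat_lit 3221307555) (dlOf (nat_lit 2) (nat_lit 0x1409e0013f02000a0018090201))) 
(.lf (nat_lit 3959505059) (dlOf (nat_lit 2) (nat_lit 0x1409e0013202000a0018090201)))))) 
(.nd (nat_lit 19) (.nd (nat_lit 7) (.nd (nat_lit 20) 
(.lf (nat_lit 23150627) (dlOf (nat_lit 2) (nat_lit 0x613c8000940800280080004002000a0008b60703))) 
(.lf (nat_lit 28393507) (dlOf (nat_lit 1) (nat_lit 0x7c0028d90681)))) 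
(.lf (nat_lit 16859299) (dlOf (nat_lit 1) (nat_lit 0x264004016600088e0482)))) (.nd (nat_lit 9) 
(.nd (nat_lit 20) (.lf (nat_lit 29966371) (dlOf (nat_lit 1) (nat_lit 0x400200020008e30002))) 
(.lf (nat_lit 24723491) (dlOf (nat_lit 1) (nat_lit 0x400200020008bb0882)))) 
(.lf (nat_lit 50938403) (dlOf (nat_lit 3) (nat_lit 0x20a9e004e602003c550000d2a78013501000300080064002000a00094d8703)))))) 
(.nd (nat_lit 9) (.nd (nat_lit 7) (.nd (nat_lit 19) (.nd (nat_lit 26) 
(.lf (nat_lit 134302755) (dlOf (nat_lit 1) (nat_lit 0x400400080018006082))) 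
(.lf (nat_lit 2885766179) (dlOf (nat_lit 1) (nat_lit 0x20018006081)))) 
(.lf (nat_lit 609315) (dlOf (nat_lit 1) (nat_lit 0x580008006081)))) (.nd (nat_lit 8) 
(.nd (nat_lit 27) (.lf (nat_lit 4362160291) (dlOf (nat_lit 1) (nat_lit 0x60018004881))) 
(.lf (nat_lit 469846179) (dlOf (nat_lit 1) (nat_lit 0x120018004881)))) 
(.lf (nat_lit 1946242467) (dlOf (nat_lit 1) (nat_lit 0x1a0028006d01))))) (.nd (nat_lit 10) 
(.nd (nat_lit 7) (.lf (nat_lit 201415203) (dlOf (nat_lit 1) (nat_lit 0x40020006000800b282))) 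
(.nd (nat_lit 8) (.lf (nat_lit 1008814755) (dlOf (nat_lit 1) (nat_lit 0x80028fa5601))) 
(.lf (nat_lit 5637229475) (dlOf (nat_lit 2) (nat_lit 0x36014000c0010000e0100118008005c00200040008055c83))))) 
(.nd (nat_lit 20) 
(.lf (nat_lit 2885766819) (dlOf (nat_lit 2) (nat_lit 0x900dc0005404000800200320008007202))) 
(.lf (nat_lit 2754694819) (dlOf (nat_lit 2) (nat_lit 0x150140000a80800200080010002000a00080f7203))))))) 
(.nd (nat_lit 28) (.nd (nat_lit 19) (.nd (nat_lit 22) (.nd (nat_lit 7) (.nd (nat_lit 9) 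
(.lf (nat_lit 26296419) (dlOf (nat_lit 1) (nat_lit 0x400400020018c30d02))) 
(.lf (nat_lit 3355525731) (dlOf (nat_lit 1) (nat_lit 0x3e00080a1781)))) 
(.lf (nat_lit 1744914915) (dlOf (nat_lit 1) (nat_lit 0x38008000400200020008094e83)))) 
(.nd (nat_lit 26) (.nd (nat_lit 20) 
(.lf (nat_lit 4276323) (dlOf (nat_lit 1) (nat_lit 0x400400040008290282))) 
(.lf (nat_lit 47267939) (dlOf (nat_lit 1) (nat_lit 0x2200093c0781)))) (.nd (nat_lit 7) 
(.lf (nat_lit 2755740003) (dlOf (nat_lit 1) (nat_lit 0x10004000400081b0702))) 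
(.lf (nat_lit 2755739875) (dlOf (nat_lit 2) (nat_lit 0x680000008e02000400181b0481)))))) 
(.nd (nat_lit 7) (.nd (nat_lit 8) 
(.lf (nat_lit 537477219) (dlOf (nat_lit 1) (nat_lit 0xae00080a1281))) (.nd (nat_lit 20) 
(.lf (nat_lit 57231715) (dlOf (nat_lit 2) (nat_lit 0x2ced0013676000000100048008002400200360009794e83))) 
(.lf (nat_lit 37308771) (dlOf (nat_lit 1) (nat_lit 0x200190d4e81))))) (.nd (nat_lit 12) 
(.lf (nat_lit 23675107) (dlOf (nat_lit 1) (nat_lit 0x400400020018b80482))) 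
(.lf (nat_lit 7950563) (dlOf (nat_lit 1) (nat_lit 0x100028518081)))))) (.nd (nat_lit 7) 
(.nd (nat_lit 31) (.nd (nat_lit 10) 
(.lf (nat_lit 1409892451) (dlOf (nat_lit 6) (nat_lit 0x3940d600380520001302001b02c000d00fc000400800fc0b0000e0320000e82000902c00268144003c07e001c0320000b84000b0288000000802f000801b4002005000080a1383))) 
(.nd (nat_lit 26) 
(.lf (nat_lit 1342264419) (dlOf (nat_lit 1) (nat_lit 0xa0008004c00200080008009403))) 
(.lf (nat_lit 469849187) (dlOf (nat_lit 1) (nat_lit 0x25000200480008009402))))) (.nd (nat_lit 8) 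
(.lf (nat_lit 2617328227) (dlOf (nat_lit 1) (nat_lit 0x3e00080a1781))) (.nd (nat_lit 11) 
(.lf (nat_lit 3493937507) (dlOf (nat_lit 1) (nat_lit 0x200281b0701))) 
(.lf (nat_lit 3556854115) (dlOf (nat_lit 1) (nat_lit 0x1600180d4e81)))))) (.nd (nat_lit 8) 
(.nd (nat_lit 9) (.nd (nat_lit 22) 
(.lf (nat_lit 4563484899) (dlOf (nat_lit 1) (nat_lit 0x178008007400201680008090a83))) 
(.lf (nat_lit 3493937379) (dlOf (nat_lit 2) (nat_lit 0x900000008e02000200181b0481)))) 
(.lf (nat_lit 3154201315) (dlOf (nat_lit 1) (nat_lit 0x80002000c0008105982)))) (.nd (nat_lit 9) 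
(.nd (nat_lit 27) (.lf (nat_lit 3556854243) (dlOf (nat_lit 1) (nat_lit 0x4004000200080d4e82))) 
(.lf (nat_lit 1543588323) (dlOf (nat_lit 1) (nat_lit 0x8008011400200480008144e83)))) 
(.lf (nat_lit 469849059) (dlOf (nat_lit 1) (nat_lit 0x40004000e0008009202))))))))) 
(.nd (nat_lit 28) (.nd (nat_lit 16) (.nd (nat_lit 19) (.nd (nat_lit 26) (.nd (nat_lit 23) 
(.nd (nat_lit 6) (.nd (nat_lit 8) 
(.lf (nat_lit 22298659) (dlOf (nat_lit 1) (nat_lit 0x10008001400200060008ac0483))) 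
(.lf (nat_lit 2375971) (dlOf (nat_lit 2) (nat_lit 0xc6000000d0080048008001c00200180008150503)))) 
(.nd (nat_lit 7) (.nd (nat_lit 8) 
(.lf (nat_lit 4832118371) (dlOf (nat_lit 1) (nat_lit 0x3400180d3901))) 
(.lf (nat_lit 5905858915) (dlOf (nat_lit 1) (nat_lit 0x20028155201)))) 
(.lf (nat_lit 2818856419) (dlOf (nat_lit 1) (nat_lit 0x400400020008129b02))))) (.nd (nat_lit 20) 
(.nd (nat_lit 21) (.lf (nat_lit 12861475) (dlOf (nat_lit 1) (nat_lit 0x200286e0a01))) 
(.lf (nat_lit 44318755) (dlOf (nat_lit 3) (nat_lit 0x718e0003cc420001404000c638000631080004c1000400080030002001200092f0883)))) 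
(.nd (nat_lit 21) 
(.lf (nat_lit 26492963) (dlOf (nat_lit 3) (nat_lit 0x8b91d004400000002c1000600000000e04001c00200020008c50182))) 
(.lf (nat_lit 62144547) (dlOf (nat_lit 2) (nat_lit 0x604c0002b019960180)))))) (.nd (nat_lit 30) 
(.nd (nat_lit 6) (.nd (nat_lit 32) 
(.lf (nat_lit 67387427) (dlOf (nat_lit 1) (nat_lit 0x200080f0181))) 
(.lf (nat_lit 4362354723) (dlOf (nat_lit 3) (nat_lit 0xa0330000e010011019000880c40000008000400400160018030c02)))) 
(.nd (nat_lit 8) (.lf (nat_lit 67387491) (dlOf (nat_lit 1) (nat_lit 0x28008000c002000600080f0d03))) 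
(.lf (nat_lit 6509838691) (dlOf (nat_lit 1) (nat_lit 0x80028154f01))))) (.nd (nat_lit 27) 
(.nd (nat_lit 29) (.lf (nat_lit 1141129251) (dlOf (nat_lit 1) (nat_lit 0x14800200440008110482))) 
(.lf (nat_lit 1678000163) (dlOf (nat_lit 1) (nat_lit 0x60028130501)))) 
(.lf (nat_lit 1812217891) (dlOf (nat_lit 1) (nat_lit 0x3c00400120008180502)))))) (.nd (nat_lit 22) 
(.nd (nat_lit 20) (.nd (nat_lit 6) 
(.lf (nat_lit 36455587) (dlOf (nat_lit 1) (nat_lit 0x5000200180009072c02))) 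
(.lf (nat_lit 19682147) (dlOf (nat_lit 1) (nat_lit 0xc004000600089d8f82)))) (.nd (nat_lit 21) 
(.nd (nat_lit 23) (.lf (nat_lit 18628643) (dlOf (nat_lit 1) (nat_lit 0x40028960681))) 
(.lf (nat_lit 27017251) (dlOf (nat_lit 2) (nat_lit 0x175d8500058818ca0600)))) 
(.lf (nat_lit 3948579) (dlOf (nat_lit 1) (nat_lit 0x400200020008260b02))))) (.nd (nat_lit 6) 
(.nd (nat_lit 7) (.nd (nat_lit 20) 
(.lf (nat_lit 13385763) (dlOf (nat_lit 2) (nat_lit 0x19900002d404000800400040008720b02))) 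
(.lf (nat_lit 24920099) (dlOf (nat_lit 1) (nat_lit 0x18008000c00200080008bd0b83)))) 
(.lf (nat_lit 8147363) (dlOf (nat_lit 1) (nat_lit 0x40028518381)))) (.nd (nat_lit 7) 
(.lf (nat_lit 50087267) (dlOf (nat_lit 7) (nat_lit 0x6473a0001981002f39d0000c40801b9d100060e860002c040008744000078100153f780151d100000c080044e740000002005200294c3401))) 
(.lf (nat_lit 8147683) (dlOf (nat_lit 1) (nat_lit 0x400200020008518c82))))))) (.nd (nat_lit 19) 
(.nd (nat_lit 21) (.nd (nat_lit 26) (.nd (nat_lit 27) (.nd (nat_lit 6) 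
(.lf (nat_lit 3221569571) (dlOf (nat_lit 1) (nat_lit 0x20018140501))) 
(.lf (nat_lit 25510243) (dlOf (nat_lit 1) (nat_lit 0x20008000800200060008c10903)))) 
(.nd (nat_lit 29) (.lf (nat_lit 134561827) (dlOf (nat_lit 1) (nat_lit 0x400400020008080882))) 
(.nd (nat_lit 30) 
(.lf (nat_lit 671432739) (dlOf (nat_lit 4) (nat_lit 0x52025002ab01003601280151808022009400a8a0400a0002002c0008190902))) 
(.lf (nat_lit 3892658211) (dlOf (nat_lit 5) (nat_lit 0x2ac0c8015605a002e029000180bc000161001f80c8006e05a00030290000281803e8168021802800f20030000383003a032003a811c00c008c00be0440034017000000280040008004c002001c0008180183)))))) 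
(.nd (nat_lit 29) (.nd (nat_lit 31) 
(.lf (nat_lit 67452963) (dlOf (nat_lit 1) (nat_lit 0xc8008000800200340008140603))) 
(.lf (nat_lit 6509903907) (dlOf (nat_lit 1) (nat_lit 0x20028160481)))) (.nd (nat_lit 27) 
(.lf (nat_lit 1678065699) (dlOf (nat_lit 1) (nat_lit 0x20008160501))) 
(.lf (nat_lit 3959767075) (dlOf (nat_lit 1) (nat_lit 0x20018140501)))))) (.nd (nat_lit 24) 
(.nd (nat_lit 6) 
(.lf (nat_lit 11878435) (dlOf (nat_lit 3) (nat_lit 0x418e2a007cd02020c715003e58186c0000))) 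
(.nd (nat_lit 8) (.lf (nat_lit 44384355) (dlOf (nat_lit 1) (nat_lit 0xc0009301b81))) 
(.lf (nat_lit 69552483) (dlOf (nat_lit 1) (nat_lit 0x71c00400680008b44e82))))) (.nd (nat_lit 7) 
(.nd (nat_lit 9) (.lf (nat_lit 27607075) (dlOf (nat_lit 1) (nat_lit 0x20018d00681))) 
(.lf (nat_lit 58016291) (dlOf (nat_lit 1) (nat_lit 0x200197a8701)))) 
(.lf (nat_lit 61162659) (dlOf (nat_lit 1) (nat_lit 0x4002000200098c2c02)))))) (.nd (nat_lit 20) 
(.nd (nat_lit 21) (.nd (nat_lit 23) 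
(.lf (nat_lit 5062691) (dlOf (nat_lit 2) (nat_lit 0x8d99e402dccc400924e300022688002fc200068008001400200760008300603))) 
(.lf (nat_lit 13451299) (dlOf (nat_lit 1) (nat_lit 0x8008000400200020008720b03)))) (.nd (nat_lit 7) 
(.lf (nat_lit 53297187) (dlOf (nat_lit 2) (nat_lit 0x2098c000190200040019580781))) 
(.lf (nat_lit 32328355) (dlOf (nat_lit 1) (nat_lit 0x400200020008ef5602))))) (.nd (nat_lit 6) 
(.nd (nat_lit 22) (.lf (nat_lit 18694179) (dlOf (nat_lit 1) (nat_lit 0x400200060008960682))) 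
(.lf (nat_lit 39665699) (dlOf (nat_lit 3) (nat_lit 0xb943c00c4a0e004a4120002283006f2090000f80800100080018002000200091b0183)))) 
(.nd (nat_lit 8) (.lf (nat_lit 69025891) (dlOf (nat_lit 1) (nat_lit 0x400400020008880902))) 
(.lf (nat_lit 48056675) (dlOf (nat_lit 1) (nat_lit 0x400400020009404e82)))))))) (.nd (nat_lit 27) 
(.nd (nat_lit 31) (.nd (nat_lit 30) (.nd (nat_lit 16) (.nd (nat_lit 6) (.nd (nat_lit 7) 
(.lf (nat_lit 805584931) (dlOf (nat_lit 1) (nat_lit 0x60028130501))) 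
(.lf (nat_lit 4563681443) (dlOf (nat_lit 14) (nat_lit 0x30198000580805380cc0002004016c0660000e020014033000058100ee0198000200800300cc0000e0400300660000602018a033000028100db0198000100806c00cc00006040148066000020201600330000081001601980000008011000800b0002004200080c1403)))) 
(.lf (nat_lit 268714083) (dlOf (nat_lit 1) (nat_lit 0x200280f1981)))) (.nd (nat_lit 29) 
(.lf (nat_lit 4563746851) (dlOf (nat_lit 9) (nat_lit 0x3180cc0003e04001c0660001e0200280330000901000d019800300780002208001c0660001002005a032001c01880118078000140c001c0660000602000e033003801900040078000000c01a4004002200180d0182))) 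
(.lf (nat_lit 805650467) (dlOf (nat_lit 1) (nat_lit 0x20008160501))))) (.nd (nat_lit 6) 
(.nd (nat_lit 16) (.nd (nat_lit 20) 
(.lf (nat_lit 1342980131) (dlOf (nat_lit 1) (nat_lit 0x8008004c00200040008120b03))) 
(.lf (nat_lit 1346125859) (dlOf (nat_lit 4) (nat_lit 0x6b06c80009c0802b03640004c04001828600060cd00007028e60180)))) 
(.lf (nat_lit 1879392291) (dlOf (nat_lit 1) (nat_lit 0x400200020008120b02)))) (.nd (nat_lit 7) 
(.nd (nat_lit 11) (.lf (nat_lit 1346125923) (dlOf (nat_lit 1) (nat_lit 0x400400020008e60902))) 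
(.lf (nat_lit 1410095203) (dlOf (nat_lit 4) (nat_lit 0x8078001303b800b81d800540e200280700015031800a818400100c000200000009f89001c03b8004dc0800981dc0026804001c004001200080fa802)))) 
(.lf (nat_lit 6241468643) (dlOf (nat_lit 1) (nat_lit 0x388008000400200a600080f1d83)))))) 
(.nd (nat_lit 6) (.nd (nat_lit 7) (.nd (nat_lit 10) (.nd (nat_lit 16) 
(.lf (nat_lit 2953068579) (dlOf (nat_lit 2) (nat_lit 0x690030015180800c80080068002001600080f0703))) 
(.lf (nat_lit 3020242979) (dlOf (nat_lit 2) (nat_lit 0x15c060000b702002c00181a0601)))) 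
(.lf (nat_lit 3490532387) (dlOf (nat_lit 1) (nat_lit 0x400008006081)))) (.nd (nat_lit 12) 
(.lf (nat_lit 3490007459) (dlOf (nat_lit 1) (nat_lit 0x400200020008004e82))) 
(.lf (nat_lit 3557054883) (dlOf (nat_lit 1) (nat_lit 0x30002812af81))))) (.nd (nat_lit 7) 
(.nd (nat_lit 8) (.nd (nat_lit 16) 
(.lf (nat_lit 2483306595) (dlOf (nat_lit 2) (nat_lit 0x60280000b8180a1380))) 
(.lf (nat_lit 2953134179) (dlOf (nat_lit 3) (nat_lit 0x680b00038056001c02a000d0148001009c00280340010009000c0028008000800380000014414000e0130003004800400080034000001410800020008160481)))) 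
(.lf (nat_lit 3557114211) (dlOf (nat_lit 1) (nat_lit 0x8008000400200020008130903)))) 
(.nd (nat_lit 8) (.lf (nat_lit 4094509283) (dlOf (nat_lit 1) (nat_lit 0x1980018050a81))) 
(.nd (nat_lit 9) 
(.lf (nat_lit 3489943011) (dlOf (nat_lit 2) (nat_lit 0xd03d800028080018008001000200040008006e03))) 
(.lf (nat_lit 3493087203) (dlOf (nat_lit 1) (nat_lit 0x4002000200080f4582)))))))) (.nd (nat_lit 29) 
(.nd (nat_lit 7) (.nd (nat_lit 16) (.nd (nat_lit 10) 
(.lf (nat_lit 470564899) (dlOf (nat_lit 1) (nat_lit 0x8008004c00200040008120b03))) 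
(.lf (nat_lit 3624160291) (dlOf (nat_lit 2) (nat_lit 0x40000002c4040024002001c0008146082)))) 
(.nd (nat_lit 6) (.nd (nat_lit 26) 
(.lf (nat_lit 4697964579) (dlOf (nat_lit 9) (nat_lit 0x3180cc0003e04001c0660001e0200280330000901000d019800300780002208001c0660001002005a032001c01880118078000140c001c0660000602000e033003801900040078000000c01a4004002200180d0182))) 
(.lf (nat_lit 2617589795) (dlOf (nat_lit 3) (nat_lit 0xb0080000d40400040400006202000c0008100501)))) 
(.lf (nat_lit 3691331683) (dlOf (nat_lit 3) (nat_lit 0x180b0002000a000c002000ea83000601100048014003a208005000400040018160482))))) 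
(.nd (nat_lit 26) (.nd (nat_lit 6) 
(.lf (nat_lit 4697899171) (dlOf (nat_lit 15) (nat_lit 0x3f40330001201004101a003500cc000440806a4066000210200020120001001020501980007c080e900d007b8066011601f0000e03019301a002f007c0002e0802200660000e020002033000068100fb019800028080e100cc00012040154066000080200780330000181020c0198000000803b800802d0002017a00080c1383))) 
(.lf (nat_lit 4697899235) (dlOf (nat_lit 1) (nat_lit 0x4002001200080c1b02)))) (.nd (nat_lit 10) 
(.lf (nat_lit 4765008035) (dlOf (nat_lit 1) (nat_lit 0x18004002200080c1382))) 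
(.lf (nat_lit 472138915) (dlOf (nat_lit 1) (nat_lit 0x400400020008862c02)))))) (.nd (nat_lit 16) 
(.nd (nat_lit 26) (.nd (nat_lit 6) (.nd (nat_lit 30) 
(.lf (nat_lit 939802659) (dlOf (nat_lit 1) (nat_lit 0x3c00400120008180502))) 
(.lf (nat_lit 2013544483) (dlOf (nat_lit 1) (nat_lit 0x14800200440008110482)))) 
(.lf (nat_lit 5234771555) (dlOf (nat_lit 1) (nat_lit 0x3400180d3901)))) (.nd (nat_lit 6) 
(.nd (nat_lit 19) 
(.lf (nat_lit 4228136995) (dlOf (nat_lit 3) (nat_lit 0xa0320000f810011018800880c00000008000400400160018030c02))) 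
(.lf (nat_lit 1007435811) (dlOf (nat_lit 1) (nat_lit 0x29c0028360681)))) 
(.lf (nat_lit 5301878883) (dlOf (nat_lit 2) (nat_lit 0x40044001c6040010004000400180d1b82))))) 
(.nd (nat_lit 7) (.nd (nat_lit 26) 
(.lf (nat_lit 4161093667) (dlOf (nat_lit 6) (nat_lit 0x280ac0009204000c0560004602001202b000e0148009806c0007e0c00140560003802001e02b001500d0000d0100018008009800200040008120503))) 
(.nd (nat_lit 31) (.lf (nat_lit 1006977059) (dlOf (nat_lit 1) (nat_lit 0x400200020008120b02))) 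
(.lf (nat_lit 3154460707) (dlOf (nat_lit 6) (nat_lit 0x80320000c8100ba03100600168030c0aa00380520057026806200d0023804c0012022001c00d805d0050027800c0180003000d00100002c6803b816801d40aa00ea034007d00a0001001801dc0060000a0c0086055004101a002b80500000e0c02280b40114055005801a004580b801bc05400dc026003600a004d800800000200058004000200081a0182))))) 
(.nd (nat_lit 19) (.lf (nat_lit 2080719011) (dlOf (nat_lit 1) (nat_lit 0x600180c1381))) 
(.lf (nat_lit 6377259171) (dlOf (nat_lit 2) (nat_lit 0x305340002a040004004000600180c1402)))))))))) 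
(.nd (nat_lit 16) (.nd (nat_lit 18) (.nd (nat_lit 26) (.nd (nat_lit 7) (.nd (nat_lit 6) 
(.nd (nat_lit 19) (.nd (nat_lit 24) (.nd (nat_lit 9) 
(.lf (nat_lit 2281848867) (dlOf (nat_lit 5) (nat_lit 0x48090000bc0400380480005d0200140240002d810007012000168080010008003000200140008080503))) 
(.lf (nat_lit 3355596323) (dlOf (nat_lit 2) (nat_lit 0x4c018802998080b08008076c002005a00080a9c03)))) 
(.nd (nat_lit 20) (.nd (nat_lit 23) 
(.lf (nat_lit 16924707) (dlOf (nat_lit 1) (nat_lit 0x4002000200088e0002))) 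
(.lf (nat_lit 25313315) (dlOf (nat_lit 21) (nat_lit 0x98650008100800a6330001a862001e204028986d000af810046c89803f61b4002ba08014b226023586d000ae020135c368005640801ae1b4002ae04009b0da0014802027f86d000a2010002c3680050c080a9e1b40028404052b0da0014102028186d0009e810045c368004f0080a561b40027404001f0da0013902000b9130146c368004e01007a61b40026e040007226028d86d0009a8200eec368004d00802280080044002001a0008bf0903)))) 
(.lf (nat_lit 22167587) (dlOf (nat_lit 1) (nat_lit 0x20028aa0c01))))) (.nd (nat_lit 21) 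
(.nd (nat_lit 22) (.nd (nat_lit 27) 
(.lf (nat_lit 805978147) (dlOf (nat_lit 1) (nat_lit 0x20008200b01))) 
(.lf (nat_lit 3892985891) (dlOf (nat_lit 1) (nat_lit 0x180080010002000800082c0603)))) 
(.lf (nat_lit 13254691) (dlOf (nat_lit 1) (nat_lit 0x400400020018710b82)))) (.nd (nat_lit 23) 
(.lf (nat_lit 3492429859) (dlOf (nat_lit 2) (nat_lit 0x18110002b2040020004000600080d0902))) 
(.lf (nat_lit 27934755) (dlOf (nat_lit 1) (nat_lit 0x400400020018d40582)))))) (.nd (nat_lit 28) 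
(.nd (nat_lit 8) (.lf (nat_lit 24264803) (dlOf (nat_lit 2) (nat_lit 0xd0bd0000f818b91380))) 
(.nd (nat_lit 10) (.lf (nat_lit 59918691) (dlOf (nat_lit 1) (nat_lit 0x400400020009844e82))) 
(.lf (nat_lit 3221380451) (dlOf (nat_lit 1) (nat_lit 0x17000800f4002002e000811c903))))) 
(.nd (nat_lit 19) (.nd (nat_lit 22) 
(.lf (nat_lit 2952937571) (dlOf (nat_lit 8) (nat_lit 0x52405a0007d02029c02d0003e0100230168001ec0802280b4000f404052005a0007502004802d0003a0101480168001cc080078008002000200120008030d03))) 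
(.lf (nat_lit 1346519139) (dlOf (nat_lit 2) (nat_lit 0x40e00005340800500080008002000c0008f80d83)))) 
(.lf (nat_lit 1344946275) (dlOf (nat_lit 1) (nat_lit 0x10004001400089a0902)))))) (.nd (nat_lit 9) 
(.nd (nat_lit 6) (.nd (nat_lit 8) (.nd (nat_lit 10) 
(.lf (nat_lit 9584803) (dlOf (nat_lit 1) (nat_lit 0x10008000400200040008571383))) 
(.lf (nat_lit 48383139) (dlOf (nat_lit 2) (nat_lit 0x32741000538480017c100140008001400200160009402c03)))) 
(.lf (nat_lit 3221380515) (dlOf (nat_lit 14) (nat_lit 0x1000a80010050003c020000f00fc017c070003802e008a00b0001d8380050150005008000075040096054000b020803380bc002405c00d0014000388500080178001a80800480bc000d004013c05e000670200fa02f0003301005601780018c0802480bc000c404011c05e002002e000308200490178001800802201440024094003a035000900f800480480005a1401200a80088040004b01f800e80e0013c066004e02f002201700000038175000801f4002004c000811cb03)))) 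
(.nd (nat_lit 10) (.lf (nat_lit 9585123) (dlOf (nat_lit 1) (nat_lit 0x2c0008577d01))) 
(.lf (nat_lit 3221376483) (dlOf (nat_lit 2) (nat_lit 0xc0080001002f001a0170000f4180030008001000200020008116e03))))) 
(.nd (nat_lit 19) (.nd (nat_lit 6) (.nd (nat_lit 10) 
(.lf (nat_lit 36850339) (dlOf (nat_lit 1) (nat_lit 0x10008000c00200040009075603))) 
(.lf (nat_lit 6576819875) (dlOf (nat_lit 1) (nat_lit 0x10008000400200020008147203)))) 
(.lf (nat_lit 671237091) (dlOf (nat_lit 3) (nat_lit 0x1804a0104002000c0250081d018142880)))) 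
(.nd (nat_lit 23) (.lf (nat_lit 36326051) (dlOf (nat_lit 1) (nat_lit 0x20019075601))) 
(.lf (nat_lit 44714659) (dlOf (nat_lit 1) (nat_lit 0x300029325601))))))) (.nd (nat_lit 27) 
(.nd (nat_lit 28) (.nd (nat_lit 19) (.nd (nat_lit 29) (.nd (nat_lit 20) 
(.lf (nat_lit 2214740003) (dlOf (nat_lit 5) (nat_lit 0x28098000bc04003004c0005d02000e0260002d810006013000168080060008002800200100008080503))) 
(.lf (nat_lit 68304931) (dlOf (nat_lit 1) (nat_lit 0x20018500701)))) (.nd (nat_lit 6) 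
(.lf (nat_lit 604127267) (dlOf (nat_lit 11) (nat_lit 0x405e00024020184045001201f80108078006c0000002008007c0450000f81001a022800078080528114004403c000801c0000e8300a6022801f807800040000001c0600060450000d8100210228000540802e0114000c03c00100000000783003f0228000380800b0008006c00200560008030183))) 
(.lf (nat_lit 604127331) (dlOf (nat_lit 1) (nat_lit 0x660008030d01))))) (.nd (nat_lit 21) 
(.lf (nat_lit 1678393379) (dlOf (nat_lit 1) (nat_lit 0x20008200b01))) 
(.lf (nat_lit 2754232355) (dlOf (nat_lit 2) (nat_lit 0x18110002a8040020004000600080d0902))))) 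
(.nd (nat_lit 6) (.nd (nat_lit 29) 
(.lf (nat_lit 4630659107) (dlOf (nat_lit 1) (nat_lit 0x8008000400200020008040183))) 
(.lf (nat_lit 5167530019) (dlOf (nat_lit 1) (nat_lit 0x1000200040008080182)))) (.nd (nat_lit 7) 
(.lf (nat_lit 1409957987) (dlOf (nat_lit 2) (nat_lit 0x2a0358000980800d00080078002000200080a1383))) 
(.lf (nat_lit 872563683) (dlOf (nat_lit 1) (nat_lit 0xa0018092881)))))) (.nd (nat_lit 11) 
(.nd (nat_lit 29) (.nd (nat_lit 6) (.nd (nat_lit 28) 
(.lf (nat_lit 3422699555) (dlOf (nat_lit 1) (nat_lit 0xc00400160008060502))) 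
(.lf (nat_lit 4764876835) (dlOf (nat_lit 1) (nat_lit 0x8008000400200020008040183)))) 
(.lf (nat_lit 3691135075) (dlOf (nat_lit 1) (nat_lit 0x49c00202ee0008050d02)))) (.nd (nat_lit 6) 
(.nd (nat_lit 31) (.lf (nat_lit 1007304739) (dlOf (nat_lit 1) (nat_lit 0x4002000200082e0002))) 
(.lf (nat_lit 3154788387) (dlOf (nat_lit 2) (nat_lit 0xa0190002f4080140008002400200400008320d83)))) 
(.lf (nat_lit 4228006371) (dlOf (nat_lit 1) (nat_lit 0x40018017301))))) (.nd (nat_lit 6) 
(.nd (nat_lit 8) (.nd (nat_lit 32) 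
(.lf (nat_lit 1543654435) (dlOf (nat_lit 2) (nat_lit 0x202500020818146080))) 
(.lf (nat_lit 5838621731) (dlOf (nat_lit 1) (nat_lit 0x800180f6081)))) 
(.lf (nat_lit 3959576867) (dlOf (nat_lit 2) (nat_lit 0x603e0005781811ab80)))) (.nd (nat_lit 7) 
(.lf (nat_lit 1007831395) (dlOf (nat_lit 1) (nat_lit 0x10008001000200020008804e83))) 
(.lf (nat_lit 738872035) (dlOf (nat_lit 1) (nat_lit 0x3a0008125981)))))))) (.nd (nat_lit 28) 
(.nd (nat_lit 6) (.nd (nat_lit 26) (.nd (nat_lit 20) (.nd (nat_lit 23) (.nd (nat_lit 29) 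
(.lf (nat_lit 6442860579) (dlOf (nat_lit 1) (nat_lit 0x4000281e0781))) 
(.lf (nat_lit 537280547) (dlOf (nat_lit 2) (nat_lit 0x1205100009018070700)))) (.nd (nat_lit 8) 
(.lf (nat_lit 12992547) (dlOf (nat_lit 2) (nat_lit 0x43110000800800400080084002002600086f0783))) 
(.lf (nat_lit 8803619) (dlOf (nat_lit 1) (nat_lit 0x20018519781))))) (.nd (nat_lit 21) 
(.nd (nat_lit 24) (.lf (nat_lit 9846819) (dlOf (nat_lit 2) (nat_lit 0x6200000022818580180))) 
(.lf (nat_lit 26624035) (dlOf (nat_lit 1) (nat_lit 0x400200020008c50182)))) 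
(.lf (nat_lit 11943971) (dlOf (nat_lit 1) (nat_lit 0x400286c0001))))) (.nd (nat_lit 30) 
(.nd (nat_lit 9) (.nd (nat_lit 22) 
(.lf (nat_lit 2349219875) (dlOf (nat_lit 1) (nat_lit 0x1080080034002006800081c0903))) 
(.lf (nat_lit 2756067363) (dlOf (nat_lit 1) (nat_lit 0x2700080110002006600081e0883)))) 
(.lf (nat_lit 2755022371) (dlOf (nat_lit 1) (nat_lit 0xa000800b8002001400080f7183)))) 
(.nd (nat_lit 27) (.nd (nat_lit 29) 
(.lf (nat_lit 3288743971) (dlOf (nat_lit 3) (nat_lit 0x4600180057408007000c002ae04008c004004200080d0902))) 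
(.lf (nat_lit 1678131235) (dlOf (nat_lit 3) (nat_lit 0x13c0560098029804c004c00f9a0c03200ac015c05300af009801f2c1801100080010002000200081a0003)))) 
(.lf (nat_lit 3959832611) (dlOf (nat_lit 3) (nat_lit 0x39c08c01ae04500d6021806b8108035c08000f803f00da019801f34380700118035808a01ac04300d6021006b010001f007e006603800d7019801f2c400388008015400200080008170003)))))) 
(.nd (nat_lit 7) (.nd (nat_lit 20) (.nd (nat_lit 8) 
(.lf (nat_lit 2819506275) (dlOf (nat_lit 3) (nat_lit 0xb01b0004e00800800d8001d0040004004001c00182c0482))) 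
(.nd (nat_lit 11) (.lf (nat_lit 1678131555) (dlOf (nat_lit 1) (nat_lit 0x44002001e00081a0702))) 
(.lf (nat_lit 46549347) (dlOf (nat_lit 1) (nat_lit 0x400400020009384e82))))) (.nd (nat_lit 21) 
(.nd (nat_lit 22) (.nd (nat_lit 25) 
(.lf (nat_lit 18759779) (dlOf (nat_lit 1) (nat_lit 0x400400020008970482))) 
(.lf (nat_lit 52314211) (dlOf (nat_lit 4) (nat_lit 0x59d40165f020008cea00b1d81000f675004e1008005000800f000200240009521983)))) 
(.lf (nat_lit 14565475) (dlOf (nat_lit 1) (nat_lit 0x400400020018770d02)))) 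
(.lf (nat_lit 20856931) (dlOf (nat_lit 1) (nat_lit 0x1400289e1981))))) (.nd (nat_lit 8) 
(.nd (nat_lit 9) (.nd (nat_lit 19) 
(.lf (nat_lit 11944163) (dlOf (nat_lit 1) (nat_lit 0x2600080004002003a00086c0483))) 
(.lf (nat_lit 2755543267) (dlOf (nat_lit 2) (nat_lit 0x540000008e02001000181b0481)))) 
(.lf (nat_lit 8278755) (dlOf (nat_lit 1) (nat_lit 0x8008000400200020008518c83)))) (.nd (nat_lit 11) 
(.lf (nat_lit 4362486243) (dlOf (nat_lit 3) (nat_lit 0xd00470000d8100290298037011c0002808004800400080018090c02))) 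
(.lf (nat_lit 19810787) (dlOf (nat_lit 1) (nat_lit 0x4004002400189d4e82))))))) (.nd (nat_lit 6) 
(.nd (nat_lit 26) (.nd (nat_lit 19) (.nd (nat_lit 29) 
(.lf (nat_lit 5637554211) (dlOf (nat_lit 2) (nat_lit 0x101280010c0800600080018002000e0008100183))) 
(.nd (nat_lit 30) 
(.lf (nat_lit 805716003) (dlOf (nat_lit 1) (nat_lit 0x80080004002000200081a0003))) 
(.lf (nat_lit 4026941475) (dlOf (nat_lit 3) (nat_lit 0x4600180056008007000c002a404008c004004200080d0902))))) 
(.nd (nat_lit 7) (.nd (nat_lit 8) 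
(.lf (nat_lit 3493740579) (dlOf (nat_lit 4) (nat_lit 0x780fc0309604003c0a6017e20200d6051001001f8000001005d000801dc002001000081b0003))) 
(.lf (nat_lit 3493740835) (dlOf (nat_lit 1) (nat_lit 0x10008001c002000200081b0503)))) 
(.lf (nat_lit 3492694179) (dlOf (nat_lit 1) (nat_lit 0x200080f4881))))) (.nd (nat_lit 27) 
(.nd (nat_lit 29) (.nd (nat_lit 30) 
(.lf (nat_lit 2483437603) (dlOf (nat_lit 1) (nat_lit 0x1080080034002006800081c0903))) 
(.lf (nat_lit 1409695779) (dlOf (nat_lit 2) (nat_lit 0x1205100012818070700)))) 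
(.lf (nat_lit 6241533987) (dlOf (nat_lit 2) (nat_lit 0x101300010c0800600080018002000e0008100183)))) 
(.nd (nat_lit 29) (.nd (nat_lit 7) 
(.lf (nat_lit 5838880803) (dlOf (nat_lit 1) (nat_lit 0x1e800800c8002007400081e0883))) 
(.lf (nat_lit 472269987) (dlOf (nat_lit 1) (nat_lit 0xc00200020008922c02)))) (.nd (nat_lit 20) 
(.lf (nat_lit 3154526243) (dlOf (nat_lit 3) (nat_lit 0x34a05400050288044013002c8066000b20809e60540405028820901300ff4066055601602e40028002c43005d80080104002009c00081f0603))) 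
(.lf (nat_lit 1008091171) (dlOf (nat_lit 1) (nat_lit 0x80080004002000200089c0183))))))) 
(.nd (nat_lit 7) (.nd (nat_lit 8) (.nd (nat_lit 10) (.nd (nat_lit 27) 
(.lf (nat_lit 3557703779) (dlOf (nat_lit 5) (nat_lit 0x8070001d1020014038000e481001001c0005dc0800500e000000040018004001600182c0482))) 
(.lf (nat_lit 470696035) (dlOf (nat_lit 1) (nat_lit 0x20008150281)))) 
(.lf (nat_lit 1344164963) (dlOf (nat_lit 2) (nat_lit 0x4059000270183d9400)))) (.nd (nat_lit 19) 
(.lf (nat_lit 805716323) (dlOf (nat_lit 1) (nat_lit 0x44002001e00081a0702))) (.nd (nat_lit 20) 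
(.lf (nat_lit 3490595171) (dlOf (nat_lit 1) (nat_lit 0x80018014f01))) 
(.lf (nat_lit 3493740899) (dlOf (nat_lit 2) (nat_lit 0x62051000d0228000d01000480080018002004c00081b0703)))))) 
(.nd (nat_lit 9) (.nd (nat_lit 11) (.nd (nat_lit 19) 
(.lf (nat_lit 4228268515) (dlOf (nat_lit 3) (nat_lit 0xd00400000d810029026003701000002808004800400080018090c02))) 
(.lf (nat_lit 3490595299) (dlOf (nat_lit 1) (nat_lit 0xe0008006c002004c0008017303)))) 
(.lf (nat_lit 6376278499) (dlOf (nat_lit 1) (nat_lit 0x60028094e81)))) (.nd (nat_lit 8) 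
(.lf (nat_lit 1345211107) (dlOf (nat_lit 2) (nat_lit 0x150b28000dc080040008003000200080008b05983))) 
(.nd (nat_lit 19) (.lf (nat_lit 872825827) (dlOf (nat_lit 1) (nat_lit 0x6a00280e2881))) 
(.lf (nat_lit 472794083) (dlOf (nat_lit 1) (nat_lit 0x8008001800200060008b02883)))))))))) 
(.nd (nat_lit 18) (.nd (nat_lit 28) (.nd (nat_lit 24) (.nd (nat_lit 6) (.nd (nat_lit 26) 
(.nd (nat_lit 25) (.nd (nat_lit 9) 
(.lf (nat_lit 537608227) (dlOf (nat_lit 2) (nat_lit 0xa024000a10180d0900))) 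
(.lf (nat_lit 2818792995) (dlOf (nat_lit 1) (nat_lit 0x7000800e00020022000812cf83)))) 
(.nd (nat_lit 21) 
(.lf (nat_lit 37961763) (dlOf (nat_lit 1) (nat_lit 0x480080004002000200090f0183))) 
(.lf (nat_lit 44253219) (dlOf (nat_lit 2) (nat_lit 0x4c62f00012fe0001581000300080028002000200092e0183))))) 
(.nd (nat_lit 27) (.nd (nat_lit 29) 
(.lf (nat_lit 4362289187) (dlOf (nat_lit 1) (nat_lit 0xa0028020501))) 
(.lf (nat_lit 604192803) (dlOf (nat_lit 2) (nat_lit 0x1e4042014301e00a580e4001400c0330004000a0008080602)))) 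
(.nd (nat_lit 31) 
(.lf (nat_lit 201539619) (dlOf (nat_lit 1) (nat_lit 0x70008004400200100008020483))) 
(.lf (nat_lit 2349023267) (dlOf (nat_lit 2) (nat_lit 0x8000011f604001000200180008090002)))))) 
(.nd (nat_lit 8) (.nd (nat_lit 21) (.nd (nat_lit 27) 
(.lf (nat_lit 4295180387) (dlOf (nat_lit 1) (nat_lit 0x4002000200080a1382))) 
(.lf (nat_lit 4429398115) (dlOf (nat_lit 1) (nat_lit 0x4004000200080a1282)))) 
(.lf (nat_lit 14893155) (dlOf (nat_lit 1) (nat_lit 0x900028790d01)))) (.nd (nat_lit 7) 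
(.nd (nat_lit 10) (.lf (nat_lit 39012707) (dlOf (nat_lit 1) (nat_lit 0x400400020009194e82))) 
(.lf (nat_lit 2818790755) (dlOf (nat_lit 1) (nat_lit 0x2400400400008129902)))) 
(.lf (nat_lit 8083427) (dlOf (nat_lit 1) (nat_lit 0x4001851a601)))))) (.nd (nat_lit 25) 
(.nd (nat_lit 20) (.nd (nat_lit 6) (.nd (nat_lit 10) 
(.lf (nat_lit 16990243) (dlOf (nat_lit 1) (nat_lit 0x4002000200088e0002))) 
(.lf (nat_lit 32195619) (dlOf (nat_lit 1) (nat_lit 0x20028ef2881)))) 
(.lf (nat_lit 25903203) (dlOf (nat_lit 1) (nat_lit 0x20028c10281)))) (.nd (nat_lit 6) 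
(.nd (nat_lit 7) 
(.lf (nat_lit 20141603) (dlOf (nat_lit 1) (nat_lit 0x10000801dc002004400089d9c03))) 
(.lf (nat_lit 20142499) (dlOf (nat_lit 1) (nat_lit 0x4002000200089daf82)))) 
(.lf (nat_lit 22233187) (dlOf (nat_lit 1) (nat_lit 0x400400020008ab1d02))))) (.nd (nat_lit 6) 
(.nd (nat_lit 7) (.nd (nat_lit 19) 
(.lf (nat_lit 52641827) (dlOf (nat_lit 2) (nat_lit 0x1e7180000440803880080048002001a0009560703))) 
(.lf (nat_lit 60506147) (dlOf (nat_lit 2) (nat_lit 0x8a4600017819880180)))) 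
(.lf (nat_lit 62079139) (dlOf (nat_lit 1) (nat_lit 0x400400480009951382)))) (.nd (nat_lit 7) 
(.nd (nat_lit 19) 
(.lf (nat_lit 56836195) (dlOf (nat_lit 2) (nat_lit 0x6592000224d80018fc4000640c001000200020009770902))) 
(.lf (nat_lit 59457635) (dlOf (nat_lit 1) (nat_lit 0xa00297f1981)))) 
(.lf (nat_lit 57363171) (dlOf (nat_lit 1) (nat_lit 0x40029795981))))))) (.nd (nat_lit 19) 
(.nd (nat_lit 8) (.nd (nat_lit 26) (.nd (nat_lit 29) (.nd (nat_lit 20) 
(.lf (nat_lit 1476608035) (dlOf (nat_lit 3) (nat_lit 0x206039033a01b00028010005811400000040010002002e00080a0602))) 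
(.lf (nat_lit 1343438883) (dlOf (nat_lit 1) (nat_lit 0x60018240681)))) (.nd (nat_lit 30) 
(.lf (nat_lit 2953003043) (dlOf (nat_lit 32) (nat_lit 0x83a01c0005b81027e00e0002d80800100700f6803604b0019029a0020127000c0174002000b50c00d401c0005a0101c600e0002cc0808480700016404079c038000b102030001c0005801011700e0002bc0803580700015c040014000000a902006c0000005401012e00000029c0800c80000014c040018034000a40200160000005081002d017004b00b4051c0300314017014800b00d38050063c0240368011012a008008780340628016014400100a3000000280680d480000013c0406980000009d02006401a000088101da00e000034080600070000160409c40380000a02050a01c0000401017c00e00001c0813080700000a0409040380000402014001c0000181011300e000008080dc807000002040a0803800000020fa20028080601))) 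
(.lf (nat_lit 4026744867) (dlOf (nat_lit 1) (nat_lit 0x20028090001))))) (.nd (nat_lit 6) 
(.nd (nat_lit 29) 
(.lf (nat_lit 3691200547) (dlOf (nat_lit 20) (nat_lit 0x1e804c00e8025008401100370084023003a000201c00150020009800c01d0000000e71208c80040463001800394100590010001c804027c008013a003000718200570020030000c001c408009400800460030007082005f00000029408033800000148040014000000a102029002d00ce01500a480a40344040011e00a015100300918000001401c01800000009d02006a004003400180003410029001002bc0060000b0400220030000501003a002001a000c000100802b80080112003000028200ae0020056000c000080800040060000102009a02600740020037800c02b00000000008005400180a0601))) 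
(.lf (nat_lit 4228071459) (dlOf (nat_lit 1) (nat_lit 0xa0028020501)))) 
(.lf (nat_lit 3556987107) (dlOf (nat_lit 1) (nat_lit 0x20028128081))))) (.nd (nat_lit 7) 
(.nd (nat_lit 22) (.lf (nat_lit 2617458979) (dlOf (nat_lit 2) (nat_lit 0x202c002570180b5400))) 
(.lf (nat_lit 3494068515) (dlOf (nat_lit 1) (nat_lit 0x1c00281b0501)))) (.nd (nat_lit 10) 
(.nd (nat_lit 6) 
(.lf (nat_lit 4026745251) (dlOf (nat_lit 2) (nat_lit 0x30170033a4080008008001800200260008090783))) 
(.lf (nat_lit 3624094179) (dlOf (nat_lit 1) (nat_lit 0x6000808d800201ee0008144e83)))) 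
(.nd (nat_lit 11) (.lf (nat_lit 3556988323) (dlOf (nat_lit 1) (nat_lit 0x20028129901))) 
(.lf (nat_lit 3489881507) (dlOf (nat_lit 4) (nat_lit 0x1107f000703f6000760400201fc0003881001c0fe00000008001800800180020008000800cb03))))))) 
(.nd (nat_lit 21) (.nd (nat_lit 27) (.nd (nat_lit 26) 
(.lf (nat_lit 1342914595) (dlOf (nat_lit 1) (nat_lit 0x6c0028110b81))) (.nd (nat_lit 31) 
(.lf (nat_lit 1410023459) (dlOf (nat_lit 2) (nat_lit 0xa024000a10180d0900))) 
(.lf (nat_lit 3557507107) (dlOf (nat_lit 2) (nat_lit 0x10248002808400000080024004000c0008230782))))) 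
(.nd (nat_lit 29) (.lf (nat_lit 470499363) (dlOf (nat_lit 1) (nat_lit 0x6c0028110b81))) 
(.lf (nat_lit 3154853923) (dlOf (nat_lit 1) (nat_lit 0x680080044002002c0008350603))))) 
(.nd (nat_lit 27) (.nd (nat_lit 7) 
(.lf (nat_lit 1345011747) (dlOf (nat_lit 1) (nat_lit 0x8008000c002001200089d0703))) 
(.nd (nat_lit 9) (.lf (nat_lit 4096475299) (dlOf (nat_lit 1) (nat_lit 0x400200080008111382))) 
(.lf (nat_lit 1346063011) (dlOf (nat_lit 1) (nat_lit 0x6c00200040008e25602))))) (.nd (nat_lit 6) 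
(.nd (nat_lit 29) 
(.lf (nat_lit 472596515) (dlOf (nat_lit 4) (nat_lit 0x2585800144138014808d007004600009c2001c82700004c04000c11a0001202001e00089c0181))) 
(.lf (nat_lit 1009467427) (dlOf (nat_lit 1) (nat_lit 0x400200060009180182)))) 
(.lf (nat_lit 472596579) (dlOf (nat_lit 3) (nat_lit 0x82580005804000410a0002a02000600189c0901)))))))) 
(.nd (nat_lit 19) (.nd (nat_lit 30) (.nd (nat_lit 21) (.nd (nat_lit 29) (.nd (nat_lit 7) 
(.nd (nat_lit 22) 
(.lf (nat_lit 470237219) (dlOf (nat_lit 2) (nat_lit 0x6c3a40002a02000200280b0801))) 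
(.lf (nat_lit 21446691) (dlOf (nat_lit 2) (nat_lit 0x5880000008a04006800200120008a40182)))) 
(.lf (nat_lit 68635299) (dlOf (nat_lit 1) (nat_lit 0x80028665601)))) (.nd (nat_lit 31) 
(.nd (nat_lit 6) 
(.lf (nat_lit 738672675) (dlOf (nat_lit 13) (nat_lit 0x13a04d0001581001d0268000a80800781300090090002003500013830004026001080d40004c08026809c006c04d002301b800080180440138022409a00da048005101b80007c200518138026809a00da048005401b80007820047013800a409a0001d04003204d0018026001000d4000140c01f409c014004d005101b8000181800b81380000a04023409c003a04d004a01b8000001802c8008044c00201ee00080d0183))) 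
(.lf (nat_lit 604457315) (dlOf (nat_lit 1) (nat_lit 0x2400282d4e81)))) (.nd (nat_lit 20) 
(.nd (nat_lit 22) (.lf (nat_lit 3020374051) (dlOf (nat_lit 1) (nat_lit 0x2200282b0681))) 
(.lf (nat_lit 2756132899) (dlOf (nat_lit 1) (nat_lit 0x300018200b81)))) 
(.lf (nat_lit 2752987171) (dlOf (nat_lit 2) (nat_lit 0x70438000480800180080008002000a0008070703)))))) 
(.nd (nat_lit 26) (.nd (nat_lit 20) 
(.lf (nat_lit 36126755) (dlOf (nat_lit 1) (nat_lit 0x400400020009030182))) 
(.lf (nat_lit 16203811) (dlOf (nat_lit 1) (nat_lit 0x800400020008870702)))) (.nd (nat_lit 6) 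
(.nd (nat_lit 27) 
(.lf (nat_lit 2754035747) (dlOf (nat_lit 1) (nat_lit 0xa80080010002000600080b0a83))) 
(.lf (nat_lit 1009205283) (dlOf (nat_lit 1) (nat_lit 0x600090a0181)))) 
(.lf (nat_lit 1009205347) (dlOf (nat_lit 1) (nat_lit 0x4004000200090a0902)))))) (.nd (nat_lit 28) 
(.nd (nat_lit 26) (.nd (nat_lit 27) (.nd (nat_lit 31) 
(.lf (nat_lit 1611087907) (dlOf (nat_lit 13) (nat_lit 0x13a04d0001581001d0268000a80800781300090090002003500013830004026001080d40004c08026809c006c04d002301b800080180440138022409a00da048005101b80007c200518138026809a00da048005401b80007820047013800a409a0001d04003204d0018026001000d4000140c01f409c014004d005101b8000181800b81380000a04023409c003a04d004a01b8000001802c8008044c00201ee00080d0183))) 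
(.lf (nat_lit 3758571555) (dlOf (nat_lit 1) (nat_lit 0x2200282b0681)))) 
(.lf (nat_lit 3892789283) (dlOf (nat_lit 1) (nat_lit 0x40028270681)))) (.nd (nat_lit 7) 
(.nd (nat_lit 27) 
(.lf (nat_lit 1678196771) (dlOf (nat_lit 3) (nat_lit 0x2220560009029800f804c00f9a0c044c0ac0012053001b009801f2c1800b00080020002001000081a0003))) 
(.lf (nat_lit 3959898147) (dlOf (nat_lit 3) (nat_lit 0x160046009c022800e810c0078084003a033003e68500af023004e81140078086003c042001d019801f2c28066000800b400204140008170003)))) 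
(.lf (nat_lit 3959898531) (dlOf (nat_lit 1) (nat_lit 0xa0008001800200240008170783))))) 
(.nd (nat_lit 6) (.nd (nat_lit 20) (.nd (nat_lit 21) (.nd (nat_lit 22) 
(.lf (nat_lit 3557244963) (dlOf (nat_lit 1) (nat_lit 0x800200060008170182))) 
(.lf (nat_lit 3494330403) (dlOf (nat_lit 1) (nat_lit 0x300018200b81)))) 
(.lf (nat_lit 3492233251) (dlOf (nat_lit 2) (nat_lit 0x1311a0000b00800900080004002000400080b0b83)))) 
(.lf (nat_lit 3491184675) (dlOf (nat_lit 2) (nat_lit 0x70450000940800180080008002000a0008070703)))) 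
(.nd (nat_lit 8) (.lf (nat_lit 6377917155) (dlOf (nat_lit 1) (nat_lit 0xc00180e5981))) 
(.lf (nat_lit 1476872675) (dlOf (nat_lit 1) (nat_lit 0x4004000200082d4e82))))))) (.nd (nat_lit 6) 
(.nd (nat_lit 20) (.nd (nat_lit 21) (.nd (nat_lit 28) (.nd (nat_lit 22) 
(.lf (nat_lit 9388067) (dlOf (nat_lit 1) (nat_lit 0x18008000800200060008550583))) 
(.lf (nat_lit 21970979) (dlOf (nat_lit 1) (nat_lit 0xd0008008400200420008a80983)))) 
(.nd (nat_lit 26) 
(.lf (nat_lit 1343176739) (dlOf (nat_lit 3) (nat_lit 0x12110800386740004808002c33a000230200020028190181))) 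
(.lf (nat_lit 470761507) (dlOf (nat_lit 3) (nat_lit 0x50b180008008007058c0003a04003000400040018170182))))) 
(.nd (nat_lit 7) (.nd (nat_lit 8) 
(.lf (nat_lit 4096737315) (dlOf (nat_lit 1) (nat_lit 0x1a0018160481))) 
(.lf (nat_lit 2754566947) (dlOf (nat_lit 1) (nat_lit 0x3000800bc002003400080fbc83)))) 
(.lf (nat_lit 36653731) (dlOf (nat_lit 1) (nat_lit 0x8008000400200040009075603))))) 
(.nd (nat_lit 23) (.nd (nat_lit 7) 
(.lf (nat_lit 52379683) (dlOf (nat_lit 1) (nat_lit 0x100029530181))) 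
(.lf (nat_lit 2755608739) (dlOf (nat_lit 1) (nat_lit 0x600181b0201)))) (.nd (nat_lit 22) 
(.lf (nat_lit 10436643) (dlOf (nat_lit 1) (nat_lit 0xc004000400085d0502))) 
(.lf (nat_lit 14630947) (dlOf (nat_lit 6) (nat_lit 0x79c200018000000160800c00000000a02000f384000048100089c2000020080034e10000000400dc00200160008770182)))))) 
(.nd (nat_lit 28) (.nd (nat_lit 12) (.nd (nat_lit 21) (.nd (nat_lit 22) (.nd (nat_lit 24) 
(.lf (nat_lit 69156963) (dlOf (nat_lit 1) (nat_lit 0x4004000200088c0902))) 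
(.lf (nat_lit 18825315) (dlOf (nat_lit 2) (nat_lit 0x12ac8004e0080040008001c00200080008970483)))) 
(.lf (nat_lit 14631011) (dlOf (nat_lit 3) (nat_lit 0x4ce3000166280011313000b00300019c600014c50002ac08001400200060008770d02)))) 
(.nd (nat_lit 23) (.lf (nat_lit 20922467) (dlOf (nat_lit 1) (nat_lit 0x4004000800089f0d82))) 
(.lf (nat_lit 12533859) (dlOf (nat_lit 1) (nat_lit 0x400286d1281))))) (.nd (nat_lit 7) 
(.lf (nat_lit 19877987) (dlOf (nat_lit 1) (nat_lit 0x8002000400089d7d82))) (.nd (nat_lit 9) 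
(.lf (nat_lit 19878115) (dlOf (nat_lit 1) (nat_lit 0x24004000400189d8082))) 
(.lf (nat_lit 19880675) (dlOf (nat_lit 1) (nat_lit 0x4002000200089db982)))))) (.nd (nat_lit 7) 
(.nd (nat_lit 26) 
(.lf (nat_lit 1343176803) (dlOf (nat_lit 8) (nat_lit 0xc0af001104c8005801000a026000141100016039000a683000b1030004ec0800180f80027204000c16600020ab000304b80018218000c0ec000d90a00021aa00030598001025c001010c00080760006c0500040578003340801900080170002009e0008190d03))) 
(.nd (nat_lit 29) (.lf (nat_lit 470761571) (dlOf (nat_lit 1) (nat_lit 0x60028170d01))) 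
(.lf (nat_lit 1007632483) (dlOf (nat_lit 1) (nat_lit 0x400200020008560d02))))) (.nd (nat_lit 8) 
(.nd (nat_lit 10) 
(.lf (nat_lit 6376341731) (dlOf (nat_lit 1) (nat_lit 0x40008009c00200140008090a83))) 
(.lf (nat_lit 5772362979) (dlOf (nat_lit 1) (nat_lit 0xc00400020008092e02)))) (.nd (nat_lit 9) 
(.lf (nat_lit 3490660835) (dlOf (nat_lit 3) (nat_lit 0x28798000440400103cc0001c0200020028017301))) 
(.lf (nat_lit 3492758499) (dlOf (nat_lit 1) (nat_lit 0x4002000200080f2882)))))))))))) 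
(.nd (nat_lit 17) (.nd (nat_lit 18) (.nd (nat_lit 16) (.nd (nat_lit 19) (.nd (nat_lit 11) 
(.nd (nat_lit 8) (.nd (nat_lit 9) (.nd (nat_lit 6) (.nd (nat_lit 20) 
(.lf (nat_lit 473972775) (dlOf (nat_lit 1) (nat_lit 0x1800400020008ff0782))) 
(.lf (nat_lit 470827047) (dlOf (nat_lit 1) (nat_lit 0x2200181c0681)))) 
(.lf (nat_lit 30425191) (dlOf (nat_lit 1) (nat_lit 0x400400040018e30482)))) (.nd (nat_lit 28) 
(.nd (nat_lit 32) (.lf (nat_lit 1140868647) (dlOf (nat_lit 1) (nat_lit 0x220008003701))) 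
(.lf (nat_lit 5435835943) (dlOf (nat_lit 3) (nat_lit 0x5e03e0000781000901f0000000800100080008002001a0008003703)))) 
(.nd (nat_lit 7) (.lf (nat_lit 4630529575) (dlOf (nat_lit 1) (nat_lit 0x120028003701))) 
(.lf (nat_lit 1476417191) (dlOf (nat_lit 1) (nat_lit 0x40020002000800a002)))))) (.nd (nat_lit 6) 
(.nd (nat_lit 7) (.nd (nat_lit 10) 
(.lf (nat_lit 67129639) (dlOf (nat_lit 1) (nat_lit 0x8008001c00200040008008083))) 
(.lf (nat_lit 5435835687) (dlOf (nat_lit 1) (nat_lit 0x300080054002004a0008003183)))) 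
(.lf (nat_lit 5435835815) (dlOf (nat_lit 2) (nat_lit 0x403e00097018003600)))) (.nd (nat_lit 10) 
(.nd (nat_lit 26) (.lf (nat_lit 3493871975) (dlOf (nat_lit 2) (nat_lit 0x1a20a0000138181b0700))) 
(.lf (nat_lit 2755674471) (dlOf (nat_lit 2) (nat_lit 0x1a20a0000138181b0700)))) 
(.lf (nat_lit 4898964839) (dlOf (nat_lit 1) (nat_lit 0x400200020008003482)))))) (.nd (nat_lit 7) 
(.nd (nat_lit 8) (.nd (nat_lit 28) (.nd (nat_lit 9) 
(.lf (nat_lit 3288353831) (dlOf (nat_lit 1) (nat_lit 0x1280080054002001a0008006083))) 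
(.lf (nat_lit 2751486503) (dlOf (nat_lit 1) (nat_lit 0x800800040020002000800b283)))) 
(.nd (nat_lit 26) (.lf (nat_lit 2550156327) (dlOf (nat_lit 1) (nat_lit 0x240018006081))) 
(.lf (nat_lit 2483047463) (dlOf (nat_lit 1) (nat_lit 0x600080028002000c0008006083))))) 
(.nd (nat_lit 9) 
(.lf (nat_lit 3489680679) (dlOf (nat_lit 2) (nat_lit 0x180900000004001400400020018006802))) 
(.nd (nat_lit 26) (.lf (nat_lit 134241063) (dlOf (nat_lit 1) (nat_lit 0xc000800bc81))) 
(.lf (nat_lit 4227881767) (dlOf (nat_lit 1) (nat_lit 0xe80040024000800bc82)))))) (.nd (nat_lit 8) 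
(.nd (nat_lit 9) (.nd (nat_lit 10) 
(.lf (nat_lit 469784807) (dlOf (nat_lit 1) (nat_lit 0x6001800a881))) 
(.lf (nat_lit 2754628839) (dlOf (nat_lit 1) (nat_lit 0xc00080038002001e00080f6503)))) 
(.lf (nat_lit 2754629351) (dlOf (nat_lit 1) (nat_lit 0x200280f7401)))) (.nd (nat_lit 6) 
(.nd (nat_lit 10) (.lf (nat_lit 36719015) (dlOf (nat_lit 1) (nat_lit 0x20019074e81))) 
(.lf (nat_lit 4227882407) (dlOf (nat_lit 8) (nat_lit 0x7404c002e020004480c800ec0580001c0800740320000d810033026001d810001d0064004a02c0000d04001e02a8022013000f408001100320000c04000e0298021012c013007e001a03e0087019000700c4007c05800200160000a08000301900004c08014815000d4096007a03f007501900004420016000800080020006000800cb83)))) 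
(.lf (nat_lit 4227878375) (dlOf (nat_lit 1) (nat_lit 0x60028006e81))))))) (.nd (nat_lit 21) 
(.nd (nat_lit 27) (.nd (nat_lit 30) (.nd (nat_lit 6) (.nd (nat_lit 9) 
(.lf (nat_lit 9977895) (dlOf (nat_lit 3) (nat_lit 0x2d8e80009e0100090bc0004bc0800200080038002000400085a0c03))) 
(.lf (nat_lit 50872871) (dlOf (nat_lit 1) (nat_lit 0x18008000c002000200094d8803)))) 
(.lf (nat_lit 8931175) (dlOf (nat_lit 1) (nat_lit 0x140008514001)))) (.nd (nat_lit 31) 
(.nd (nat_lit 20) 
(.lf (nat_lit 1611153447) (dlOf (nat_lit 2) (nat_lit 0x3014000000040038004001400080f0c02))) 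
(.lf (nat_lit 1343766567) (dlOf (nat_lit 1) (nat_lit 0x40018360781)))) (.nd (nat_lit 6) 
(.lf (nat_lit 3221766183) (dlOf (nat_lit 1) (nat_lit 0x50008009000200700008180903))) 
(.lf (nat_lit 3221766247) (dlOf (nat_lit 2) (nat_lit 0x10050000080400c800400020008181382)))))) 
(.nd (nat_lit 6) (.nd (nat_lit 30) (.nd (nat_lit 31) 
(.lf (nat_lit 738738215) (dlOf (nat_lit 2) (nat_lit 0x3014000000040038004001400080f0c02))) 
(.lf (nat_lit 2886221863) (dlOf (nat_lit 6) (nat_lit 0x860220066010001b405a000e02000db00d0066004c00082180104080008202d004100d0030004c0008010001806c000380200120400001781000f01b0000000800780080010002002000081a0583)))) 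
(.nd (nat_lit 26) 
(.lf (nat_lit 3624419367) (dlOf (nat_lit 6) (nat_lit 0x860228066010001b405a000e02000db00d8066005000082180104080008202d004100d803000500008010001806c000380200120400001781000f01b0000000800780080010002002000081a0583))) 
(.lf (nat_lit 3959963687) (dlOf (nat_lit 1) (nat_lit 0x50008009000200700008180903))))) 
(.nd (nat_lit 9) (.lf (nat_lit 3959963751) (dlOf (nat_lit 1) (nat_lit 0x800200020008181402))) 
(.lf (nat_lit 5771905639) (dlOf (nat_lit 1) (nat_lit 0x400200020008005382)))))) (.nd (nat_lit 28) 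
(.nd (nat_lit 6) (.nd (nat_lit 23) (.nd (nat_lit 8) 
(.lf (nat_lit 2754101287) (dlOf (nat_lit 2) (nat_lit 0x3609280004604006800400da00180c0c82))) 
(.lf (nat_lit 20466471) (dlOf (nat_lit 1) (nat_lit 0x600289d5c01)))) (.nd (nat_lit 22) 
(.lf (nat_lit 11026471) (dlOf (nat_lit 3) (nat_lit 0x105f88000a60400a64d6000330200040028660601))) 
(.lf (nat_lit 15220775) (dlOf (nat_lit 1) (nat_lit 0x28008026400200ea00087c0683))))) 
(.nd (nat_lit 7) (.lf (nat_lit 48775271) (dlOf (nat_lit 2) (nat_lit 0x9652000130200020019420981))) 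
(.lf (nat_lit 28852455) (dlOf (nat_lit 1) (nat_lit 0x40028da0601))))) (.nd (nat_lit 6) 
(.nd (nat_lit 26) (.nd (nat_lit 31) 
(.lf (nat_lit 1344815143) (dlOf (nat_lit 1) (nat_lit 0x800400680008980002))) 
(.lf (nat_lit 3492298791) (dlOf (nat_lit 1) (nat_lit 0x80080014002005600080c0c03)))) 
(.lf (nat_lit 472399911) (dlOf (nat_lit 1) (nat_lit 0x800400680008980002)))) (.nd (nat_lit 7) 
(.lf (nat_lit 1009271143) (dlOf (nat_lit 1) (nat_lit 0x4002000200090e0f02))) 
(.lf (nat_lit 1881687015) (dlOf (nat_lit 1) (nat_lit 0x20008fe2881)))))))) (.nd (nat_lit 6) 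
(.nd (nat_lit 20) (.nd (nat_lit 27) (.nd (nat_lit 24) (.nd (nat_lit 19) (.nd (nat_lit 8) 
(.lf (nat_lit 3825287207) (dlOf (nat_lit 2) (nat_lit 0x4006c001402e0000004003400280b0001))) 
(.lf (nat_lit 4563484967) (dlOf (nat_lit 2) (nat_lit 0xb90090005340800f8008007000200f00008090a83)))) 
(.nd (nat_lit 21) 
(.lf (nat_lit 42549287) (dlOf (nat_lit 2) (nat_lit 0x29d040004e04012c00400200009260202))) 
(.lf (nat_lit 3492364327) (dlOf (nat_lit 1) (nat_lit 0x80080004002000600080c0c03))))) 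
(.nd (nat_lit 21) (.nd (nat_lit 9) 
(.lf (nat_lit 21053479) (dlOf (nat_lit 24) (nat_lit 0xc6fa800a37d00009bd8000adeb00016698005a58c000be1800b9bea0010df400196f60001b7ac0099a96001a9630002e8600066fa8004b7b0000d9a60005906001cdf500046f60008352c00099a60005808003edf500186f60012b52c00799a600057080022df500236f60007b52c00499a600055080044df500106f6000db52c00559a600054080012df5000f6fa0008b52c001da94001ad4600096698001483000cb7d40069bd8002ed4b00106698001442000ab7d40069bd80024d4b00126698001302000637d4001dbd8000edeb00036a58003b5280005a8c0002cd3000c66800012c40000b52c00399a60004a040032d4b0001b8100196a58000d808018b7d4008dbd80066d4b00306698000cc2000b37d40071bd80034d4b00106698000c820007b7d40085bd8001ad4b00116698000c42000d37d40041bd8001ed4b000e6698000c020000b52c00024040065a960000a020034d4b000048100196a58000080800d352c0000204014400400180018a00902))) 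
(.lf (nat_lit 58804775) (dlOf (nat_lit 1) (nat_lit 0x200097e5181)))) (.nd (nat_lit 22) 
(.lf (nat_lit 52510759) (dlOf (nat_lit 1) (nat_lit 0x1c0009540781))) 
(.lf (nat_lit 23150631) (dlOf (nat_lit 2) (nat_lit 0x613c8000a00800280080010002000e0008b60783)))))) 
(.nd (nat_lit 10) (.nd (nat_lit 19) 
(.lf (nat_lit 474038311) (dlOf (nat_lit 1) (nat_lit 0x1a0029000001))) (.nd (nat_lit 26) 
(.lf (nat_lit 3892920359) (dlOf (nat_lit 2) (nat_lit 0x88016000b2818290d80))) 
(.lf (nat_lit 201932839) (dlOf (nat_lit 3) (nat_lit 0x600500008c08005000000040040058002003a00080c0c82))))) 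
(.nd (nat_lit 9) 
(.lf (nat_lit 469849127) (dlOf (nat_lit 2) (nat_lit 0x20470028c40800080080008002000c0008009203))) 
(.nd (nat_lit 26) 
(.lf (nat_lit 6308316711) (dlOf (nat_lit 9) (nat_lit 0x7300c8000802801d0012000160600480190000a81003800c8019802800022080068032004a00a0000802002600c80010028000060800700140000202000c0190000081002d0050000000800d80080080002000a0008053703))) 
(.lf (nat_lit 4496377383) (dlOf (nat_lit 5) (nat_lit 0x31007001d4036002801a006600c00001c20006807000a003600300180000303000100d000004080028070006c036003801a001200c000000200170008000c00200480008053703))))))) 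
(.nd (nat_lit 21) (.nd (nat_lit 23) (.nd (nat_lit 22) (.nd (nat_lit 26) 
(.lf (nat_lit 1343307815) (dlOf (nat_lit 4) (nat_lit 0x19a025e000540200141ad000258102ed0978001140823400080c0c00212de00081e0683))) 
(.lf (nat_lit 4094771239) (dlOf (nat_lit 1) (nat_lit 0x40018050001)))) 
(.lf (nat_lit 55656487) (dlOf (nat_lit 1) (nat_lit 0x1a00196d0001)))) (.nd (nat_lit 7) 
(.lf (nat_lit 26296359) (dlOf (nat_lit 1) (nat_lit 0x100080004002015c0008c30283))) 
(.lf (nat_lit 59853223) (dlOf (nat_lit 1) (nat_lit 0x20009844e81))))) (.nd (nat_lit 7) 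
(.nd (nat_lit 9) (.lf (nat_lit 1345404967) (dlOf (nat_lit 1) (nat_lit 0x60028bb0001))) 
(.lf (nat_lit 40976935) (dlOf (nat_lit 1) (nat_lit 0x228004005a0009208802)))) 
(.lf (nat_lit 7952039) (dlOf (nat_lit 1) (nat_lit 0xa002851a001)))))) (.nd (nat_lit 10) 
(.nd (nat_lit 28) (.nd (nat_lit 8) (.nd (nat_lit 7) (.nd (nat_lit 22) 
(.lf (nat_lit 4831922791) (dlOf (nat_lit 1) (nat_lit 0x400400020008055382))) 
(.lf (nat_lit 54610535) (dlOf (nat_lit 2) (nat_lit 0x45450001d819655380)))) 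
(.lf (nat_lit 4362160359) (dlOf (nat_lit 1) (nat_lit 0x4002000c0008004b02)))) (.nd (nat_lit 20) 
(.nd (nat_lit 27) 
(.lf (nat_lit 3825287527) (dlOf (nat_lit 3) (nat_lit 0x2e900f814580780be8036017601a025800b805f80580b08020028400c012d0000000a44817b007c0a2c03c060a01b026600b806200580a2c020047600c014d00000009c4001380080228002014600080b0703))) 
(.lf (nat_lit 1812021607) (dlOf (nat_lit 2) (nat_lit 0x5404a006601b0001a8280b0700)))) 
(.lf (nat_lit 3228007) (dlOf (nat_lit 2) (nat_lit 0x6000000019818200700))))) (.nd (nat_lit 27) 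
(.nd (nat_lit 7) (.lf (nat_lit 1409375079) (dlOf (nat_lit 1) (nat_lit 0x2001800bc81))) 
(.nd (nat_lit 11) 
(.lf (nat_lit 2483110375) (dlOf (nat_lit 1) (nat_lit 0x28008003000200100008017303))) 
(.lf (nat_lit 3556854247) (dlOf (nat_lit 1) (nat_lit 0x1800280d4e81))))) (.nd (nat_lit 8) 
(.lf (nat_lit 474562663) (dlOf (nat_lit 2) (nat_lit 0x50ab0001080801000080004002001000091a0983))) 
(.nd (nat_lit 31) 
(.lf (nat_lit 939606375) (dlOf (nat_lit 2) (nat_lit 0x5404a006601b0001a8280b0700))) 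
(.lf (nat_lit 3087090023) (dlOf (nat_lit 3) (nat_lit 0x2e900f814580780be8036017601a025800b805f80580b08020028400c012d0000000a44817b007c0a2c03c060a01b026600b806200580a2c020047600c014d00000009c4001380080228002014600080b0703))))))) 
(.nd (nat_lit 8) (.nd (nat_lit 7) (.nd (nat_lit 11) 
(.lf (nat_lit 1342264423) (dlOf (nat_lit 3) (nat_lit 0x402c4004c11c000200400200b1000c0470000741001000080080002004a0008009403))) 
(.lf (nat_lit 469851239) (dlOf (nat_lit 1) (nat_lit 0x98008008c0020064000800c083)))) 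
(.nd (nat_lit 19) (.lf (nat_lit 1342263015) (dlOf (nat_lit 1) (nat_lit 0xa0018007401))) 
(.lf (nat_lit 610023) (dlOf (nat_lit 1) (nat_lit 0x400400140008007402))))) (.nd (nat_lit 9) 
(.nd (nat_lit 7) (.nd (nat_lit 21) 
(.lf (nat_lit 2818655591) (dlOf (nat_lit 1) (nat_lit 0x200180d3481))) 
(.lf (nat_lit 5773542759) (dlOf (nat_lit 1) (nat_lit 0xa00180e3481)))) 
(.lf (nat_lit 4697703911) (dlOf (nat_lit 1) (nat_lit 0x200008093601)))) (.nd (nat_lit 26) 
(.lf (nat_lit 4026615655) (dlOf (nat_lit 1) (nat_lit 0x20018004001))) 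
(.lf (nat_lit 469845863) (dlOf (nat_lit 1) (nat_lit 0x100018004001))))))))) (.nd (nat_lit 16) 
(.nd (nat_lit 6) (.nd (nat_lit 7) (.nd (nat_lit 22) (.nd (nat_lit 27) (.nd (nat_lit 8) 
(.nd (nat_lit 19) (.nd (nat_lit 26) 
(.lf (nat_lit 4295245863) (dlOf (nat_lit 1) (nat_lit 0x1400080068002002c00080c0983))) 
(.lf (nat_lit 604258343) (dlOf (nat_lit 1) (nat_lit 0x80018100701)))) 
(.lf (nat_lit 11288615) (dlOf (nat_lit 2) (nat_lit 0xb53aa000400200080018680601)))) 
(.lf (nat_lit 3489946407) (dlOf (nat_lit 1) (nat_lit 0x408008023c0020108000800bc83)))) 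
(.nd (nat_lit 8) (.nd (nat_lit 20) 
(.lf (nat_lit 4429463591) (dlOf (nat_lit 1) (nat_lit 0x1400080068002002c00080c0983))) 
(.lf (nat_lit 1007960103) (dlOf (nat_lit 1) (nat_lit 0x1000188c0001)))) 
(.lf (nat_lit 6308514599) (dlOf (nat_lit 1) (nat_lit 0x4002000200080d5c02))))) (.nd (nat_lit 20) 
(.nd (nat_lit 21) (.nd (nat_lit 24) 
(.lf (nat_lit 12861479) (dlOf (nat_lit 1) (nat_lit 0x200286e0a01))) 
(.lf (nat_lit 63193127) (dlOf (nat_lit 1) (nat_lit 0x200299f0781)))) 
(.lf (nat_lit 48513063) (dlOf (nat_lit 1) (nat_lit 0x80019400001)))) (.nd (nat_lit 21) 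
(.nd (nat_lit 23) (.lf (nat_lit 5521447) (dlOf (nat_lit 1) (nat_lit 0x20018390901))) 
(.lf (nat_lit 30687271) (dlOf (nat_lit 1) (nat_lit 0x20018e40d81)))) 
(.lf (nat_lit 32784423) (dlOf (nat_lit 1) (nat_lit 0x60028f10201)))))) (.nd (nat_lit 11) 
(.nd (nat_lit 8) (.nd (nat_lit 27) 
(.lf (nat_lit 4563681447) (dlOf (nat_lit 14) (nat_lit 0xae033000130100400198000880804a00cc000420403380660001f0200e803400d10198000741003080d00002e0400e0068000160200980340000a8100310198000340806280cc0001404025c066000090200100330000401006501980000008003000800a8002003c00080c1483))) 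
(.lf (nat_lit 4697899175) (dlOf (nat_lit 7) (nat_lit 0x1401a0000800804200cc0003e04000806800015020040033000050100150198000100800900cc00000040074004002800080c1382)))) 
(.nd (nat_lit 9) (.nd (nat_lit 20) 
(.lf (nat_lit 3557053863) (dlOf (nat_lit 1) (nat_lit 0x20018129901))) 
(.lf (nat_lit 20207015) (dlOf (nat_lit 1) (nat_lit 0x100002009600089d9902)))) 
(.lf (nat_lit 20206503) (dlOf (nat_lit 1) (nat_lit 0x200089d9101))))) (.nd (nat_lit 8) 
(.nd (nat_lit 9) (.lf (nat_lit 3493087399) (dlOf (nat_lit 2) (nat_lit 0x520440000d8180f4880))) 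
(.lf (nat_lit 20205223) (dlOf (nat_lit 1) (nat_lit 0x400189d7201)))) (.nd (nat_lit 10) 
(.nd (nat_lit 19) 
(.lf (nat_lit 1009011111) (dlOf (nat_lit 2) (nat_lit 0x101840190c04000400400060019004e82))) 
(.lf (nat_lit 49039783) (dlOf (nat_lit 1) (nat_lit 0x400200020009464e82)))) 
(.lf (nat_lit 19680679) (dlOf (nat_lit 1) (nat_lit 0x200189d6d01))))))) (.nd (nat_lit 19) 
(.nd (nat_lit 31) (.nd (nat_lit 8) (.nd (nat_lit 7) (.nd (nat_lit 10) 
(.lf (nat_lit 5100554855) (dlOf (nat_lit 2) (nat_lit 0x3405a000402a00120140000ec1800180080020002000600080d5383))) 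
(.lf (nat_lit 1610892903) (dlOf (nat_lit 2) (nat_lit 0x1c0b4000470200020018093901)))) 
(.lf (nat_lit 4630790375) (dlOf (nat_lit 1) (nat_lit 0x80080004002000200080c1d83)))) 
(.nd (nat_lit 9) (.nd (nat_lit 21) 
(.lf (nat_lit 5905858919) (dlOf (nat_lit 1) (nat_lit 0x80028155201))) 
(.lf (nat_lit 2376039) (dlOf (nat_lit 15) (nat_lit 0x332c3c0003204089982e0418c00021c53f008fa9b40002a1007c982e0416c00022053f00ce29b4000281007fd82e03cac00020153f00fca9b40002610086582e043ac00021a53f010ba9b40002410065d82e03cec0001ed53f00f429b40002210088d82e03f6c00022453f010ba9b40002010025d4fc0000c020038c170008600008b29f8000160c004d8000054a7e0000382011360b810e29f8008d4da00003060034c1701a553f000008100ca29f80000204005582e0022c00001553f000000180098008002000200100008150703)))) 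
(.lf (nat_lit 280423) (dlOf (nat_lit 1) (nat_lit 0x800400020008004002))))) (.nd (nat_lit 26) 
(.nd (nat_lit 8) (.nd (nat_lit 11) 
(.lf (nat_lit 3490988263) (dlOf (nat_lit 1) (nat_lit 0x98008000400200100008046b83))) 
(.lf (nat_lit 3493087463) (dlOf (nat_lit 1) (nat_lit 0x4400080f4b01)))) 
(.lf (nat_lit 3221504487) (dlOf (nat_lit 2) (nat_lit 0x8c0000002202000a0008127301)))) 
(.nd (nat_lit 7) (.nd (nat_lit 8) 
(.lf (nat_lit 2349088871) (dlOf (nat_lit 1) (nat_lit 0x4004000a00080a1402))) 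
(.lf (nat_lit 6509838695) (dlOf (nat_lit 1) (nat_lit 0x120028155201)))) 
(.lf (nat_lit 2885961959) (dlOf (nat_lit 1) (nat_lit 0x60008000c002000a0008144b03)))))) 
(.nd (nat_lit 27) (.nd (nat_lit 20) (.nd (nat_lit 24) (.nd (nat_lit 8) 
(.lf (nat_lit 9191527) (dlOf (nat_lit 1) (nat_lit 0x400400020008530d82))) 
(.lf (nat_lit 4362879335) (dlOf (nat_lit 1) (nat_lit 0x30002000400081a0702)))) (.nd (nat_lit 7) 
(.lf (nat_lit 17580135) (dlOf (nat_lit 1) (nat_lit 0x4004000400188e0482))) 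
(.lf (nat_lit 19677415) (dlOf (nat_lit 1) (nat_lit 0x4002000200089d0a82))))) (.nd (nat_lit 9) 
(.lf (nat_lit 1346125927) (dlOf (nat_lit 2) (nat_lit 0xc29a00180d900007028e60980))) 
(.lf (nat_lit 1880902247) (dlOf (nat_lit 1) (nat_lit 0x40028c95381))))) (.nd (nat_lit 8) 
(.nd (nat_lit 7) (.nd (nat_lit 26) 
(.lf (nat_lit 5773213799) (dlOf (nat_lit 2) (nat_lit 0x3e13c000000180b0d80))) 
(.lf (nat_lit 6377193575) (dlOf (nat_lit 2) (nat_lit 0x3e12f000000180b0d80)))) 
(.lf (nat_lit 6376145127) (dlOf (nat_lit 1) (nat_lit 0x400400020008090a82)))) (.nd (nat_lit 26) 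
(.lf (nat_lit 135020903) (dlOf (nat_lit 1) (nat_lit 0x1c004001200081b0702))) (.nd (nat_lit 28) 
(.lf (nat_lit 202129767) (dlOf (nat_lit 1) (nat_lit 0x1c004001200081b0702))) 
(.lf (nat_lit 4228661607) (dlOf (nat_lit 1) (nat_lit 0x30002000400081a0702))))))))) 
(.nd (nat_lit 28) (.nd (nat_lit 21) (.nd (nat_lit 22) (.nd (nat_lit 23) (.nd (nat_lit 7) 
(.nd (nat_lit 26) 
(.lf (nat_lit 537215015) (dlOf (nat_lit 7) (nat_lit 0x5c0cc008a0000002982001f0000001400803c80000009e0400380000003d02004a0000001a8100040000000c8080050008000400200140008060583))) 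
(.lf (nat_lit 4362420263) (dlOf (nat_lit 2) (nat_lit 0x603300006818070780)))) 
(.lf (nat_lit 1208303783) (dlOf (nat_lit 1) (nat_lit 0x200280c1481)))) (.nd (nat_lit 6) 
(.lf (nat_lit 59588647) (dlOf (nat_lit 2) (nat_lit 0x7000000010080020008000400200020009810783))) 
(.lf (nat_lit 8734567) (dlOf (nat_lit 1) (nat_lit 0x8008000400200020008514003))))) (.nd (nat_lit 6) 
(.nd (nat_lit 7) (.nd (nat_lit 23) 
(.lf (nat_lit 5062695) (dlOf (nat_lit 1) (nat_lit 0x20018300681))) 
(.lf (nat_lit 13451303) (dlOf (nat_lit 1) (nat_lit 0xc0008720c81)))) 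
(.lf (nat_lit 21315751) (dlOf (nat_lit 1) (nat_lit 0x1400400020008a31482)))) (.nd (nat_lit 7) 
(.lf (nat_lit 47008359) (dlOf (nat_lit 1) (nat_lit 0xf800200a00009385382))) 
(.lf (nat_lit 21315815) (dlOf (nat_lit 1) (nat_lit 0x8008000400200020008a31d83)))))) 
(.nd (nat_lit 19) (.nd (nat_lit 6) (.nd (nat_lit 11) 
(.lf (nat_lit 58016295) (dlOf (nat_lit 2) (nat_lit 0x2000000340197a8800))) 
(.lf (nat_lit 45435431) (dlOf (nat_lit 5) (nat_lit 0x233a8001800400199d40008c020014cea00045810005675000224080010008001400200380009325183)))) 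
(.nd (nat_lit 8) (.nd (nat_lit 20) 
(.lf (nat_lit 2753904743) (dlOf (nat_lit 1) (nat_lit 0x4004000200080a1402))) 
(.lf (nat_lit 37044327) (dlOf (nat_lit 1) (nat_lit 0xa0019081981)))) 
(.lf (nat_lit 3490151) (dlOf (nat_lit 3) (nat_lit 0x538370001981015e3f800006408007000800d4002001e0008200703))))) 
(.nd (nat_lit 7) (.nd (nat_lit 20) 
(.lf (nat_lit 70074407) (dlOf (nat_lit 2) (nat_lit 0x382c00002c0200040028e90781))) 
(.lf (nat_lit 16597031) (dlOf (nat_lit 1) (nat_lit 0xe00088c0781)))) (.nd (nat_lit 8) 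
(.lf (nat_lit 8213159) (dlOf (nat_lit 1) (nat_lit 0x400200020008518c82))) 
(.lf (nat_lit 8208807) (dlOf (nat_lit 1) (nat_lit 0x400200020008511002))))))) (.nd (nat_lit 30) 
(.nd (nat_lit 26) (.nd (nat_lit 7) (.nd (nat_lit 27) 
(.lf (nat_lit 4563746855) (dlOf (nat_lit 1) (nat_lit 0x580080028002001000080d0283))) 
(.lf (nat_lit 4697964583) (dlOf (nat_lit 1) (nat_lit 0x580080028002001000080d0283)))) 
(.lf (nat_lit 402997415) (dlOf (nat_lit 1) (nat_lit 0x1000180c1381)))) (.nd (nat_lit 21) 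
(.nd (nat_lit 31) (.lf (nat_lit 470106151) (dlOf (nat_lit 1) (nat_lit 0x37800400160008040582))) 
(.lf (nat_lit 2617589799) (dlOf (nat_lit 20) (nat_lit 0x1a806205b202b0015010014f8030000b8100704056037800c0002d82017901580178080057c0180005a0600d00200002c0102d701000015c0805780ac02ac0180005604002e0310241015813b00a80b3804e02ac023026e011015f8080038403e022c01c02a900600fe8028000a82c0c2804000053020556020000290102e1010000144080200080000a0040b200400004f0200020200002681000501000012c0805d80ac003805001c002303b1010002b8074004c016000470c05a60200001006000118100d400800008a040290042002e01e00020820008010000060080178008070c00200aa0008100603)))) 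
(.nd (nat_lit 9) (.lf (nat_lit 1009074215) (dlOf (nat_lit 1) (nat_lit 0x180029050a81))) 
(.lf (nat_lit 473254439) (dlOf (nat_lit 2) (nat_lit 0xc1080008b0200020018e35181)))))) 
(.nd (nat_lit 29) (.nd (nat_lit 6) (.nd (nat_lit 8) (.nd (nat_lit 26) 
(.lf (nat_lit 1342521383) (dlOf (nat_lit 1) (nat_lit 0x37800400160008040582))) 
(.lf (nat_lit 1409630247) (dlOf (nat_lit 7) (nat_lit 0x5c0cc008a0000002982001f0000001400803c80000009e0400380000003d02004a0000001a8100040000000c8080050008000400200140008060583)))) 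
(.lf (nat_lit 3490008359) (dlOf (nat_lit 1) (nat_lit 0x20008006801)))) 
(.lf (nat_lit 1346191463) (dlOf (nat_lit 9) (nat_lit 0x42c2c002160d900fd04e007f02340001c1000842c001540d900d10468000341805d0364000180403881b20000b02026c160013306c8093827004d411a0000a08019e0d9004004e00320234000120c02f82c000c608d000030200cd06c8000000802000080004002000a0008e60983)))) 
(.nd (nat_lit 6) (.nd (nat_lit 26) 
(.lf (nat_lit 4161093671) (dlOf (nat_lit 2) (nat_lit 0x3d802b01670148000c8100280008049400201360008120603))) 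
(.lf (nat_lit 4228202535) (dlOf (nat_lit 2) (nat_lit 0x603200011018070780)))) 
(.lf (nat_lit 1881489511) (dlOf (nat_lit 1) (nat_lit 0x80028f11981))))))))) (.nd (nat_lit 16) 
(.nd (nat_lit 6) (.nd (nat_lit 28) (.nd (nat_lit 18) (.nd (nat_lit 19) (.nd (nat_lit 30) 
(.nd (nat_lit 20) (.nd (nat_lit 26) 
(.lf (nat_lit 2281848871) (dlOf (nat_lit 2) (nat_lit 0x18808c000740400a400400140008080602))) 
(.nd (nat_lit 27) 
(.lf (nat_lit 604127271) (dlOf (nat_lit 4) (nat_lit 0x101140006204000c08a0003002001204500015818030280))) 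
(.lf (nat_lit 2348957735) (dlOf (nat_lit 2) (nat_lit 0x48000000aa04003c00400080008060582))))) 
(.nd (nat_lit 10) (.nd (nat_lit 7) 
(.lf (nat_lit 30556199) (dlOf (nat_lit 1) (nat_lit 0x400200020008e40d82))) 
(.lf (nat_lit 3293607) (dlOf (nat_lit 1) (nat_lit 0x180018200781)))) (.nd (nat_lit 9) 
(.lf (nat_lit 20073511) (dlOf (nat_lit 1) (nat_lit 0x20008002c002000a00089d6083))) 
(.lf (nat_lit 20076071) (dlOf (nat_lit 1) (nat_lit 0xa8002000400089d9c02)))))) (.nd (nat_lit 11) 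
(.nd (nat_lit 26) 
(.lf (nat_lit 6039945255) (dlOf (nat_lit 3) (nat_lit 0x1c0000001401000801a800480d000100000000006002c0008070601))) 
(.nd (nat_lit 27) 
(.lf (nat_lit 1140998183) (dlOf (nat_lit 2) (nat_lit 0x1d000000170040014002001a0008060c02))) 
(.lf (nat_lit 3422699559) (dlOf (nat_lit 2) (nat_lit 0x602200000018060600))))) (.nd (nat_lit 7) 
(.nd (nat_lit 8) 
(.lf (nat_lit 1744980519) (dlOf (nat_lit 2) (nat_lit 0x4016800798080018008001400200060008095183))) 
(.lf (nat_lit 3221379879) (dlOf (nat_lit 1) (nat_lit 0x500080060002002e000811bc83)))) 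
(.lf (nat_lit 3221380519) (dlOf (nat_lit 12) (nat_lit 0x10302a8057814402c809400b204900d301a8048007c00f003c01b4012005700300238000000622801e80aa00a20510016025003300d4006006200c401f006000900140018018c0000003012008c0550036028801c00d40005e0c02640ac0028052008b019004080440005c1001dc0ac00e20550072019003600c4011805e000c02b00060148042004401b00200002d12007002f0001601005c02b004f815401380a20048032005e01880240044010c02000940060000308008302b0019815401340a400640360095018800e80bc02280220112010004b0030000104802f015800c80aa000a036008c018800e80bc0290022011c0100000187006902b004d8154015c0a400a6051003d01b0029004400d0020000800a005200300000848007015801840aa00ea0510014024803800d401bc068004c010005d0030000004002c80080894002065a000811cb83)))))) 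
(.nd (nat_lit 22) (.nd (nat_lit 21) (.nd (nat_lit 20) (.nd (nat_lit 26) 
(.lf (nat_lit 3221897255) (dlOf (nat_lit 2) (nat_lit 0x14b02b00130044000e408003c002000600081b0502))) 
(.lf (nat_lit 3960094759) (dlOf (nat_lit 2) (nat_lit 0x14b02b00130044000e408003c002000600081b0502)))) 
(.lf (nat_lit 10108967) (dlOf (nat_lit 1) (nat_lit 0x400285b0501)))) (.nd (nat_lit 7) 
(.lf (nat_lit 11157543) (dlOf (nat_lit 1) (nat_lit 0x8008000c002001a0008660603))) 
(.lf (nat_lit 36326055) (dlOf (nat_lit 1) (nat_lit 0x400200be0009075602))))) (.nd (nat_lit 20) 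
(.nd (nat_lit 23) (.lf (nat_lit 21643303) (dlOf (nat_lit 1) (nat_lit 0x400200020008a50a82))) 
(.lf (nat_lit 46809127) (dlOf (nat_lit 1) (nat_lit 0x120008002400200380009380003)))) 
(.lf (nat_lit 22691879) (dlOf (nat_lit 6) (nat_lit 0x25bea0014dec00076a58004334c0004a10001dbea0008dec000e6a58004b34c0004810001dbea000cdec000f6a58004b34c00046100031bea0012dec000a6a58005334c000441000300000000f02003c0028b10801)))))) 
(.nd (nat_lit 20) (.nd (nat_lit 27) (.nd (nat_lit 29) (.nd (nat_lit 22) 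
(.lf (nat_lit 1074151463) (dlOf (nat_lit 1) (nat_lit 0x280080028002000600080c0c83))) 
(.lf (nat_lit 12992551) (dlOf (nat_lit 1) (nat_lit 0x800286f0981)))) (.nd (nat_lit 7) 
(.lf (nat_lit 537280551) (dlOf (nat_lit 6) (nat_lit 0x1e028800a80c8000280800080a20001302003005100100190000141000f01440058064000040400040510002019000008100018008007800200060008070783))) 
(.lf (nat_lit 2754501799) (dlOf (nat_lit 1) (nat_lit 0x400280fc201))))) (.nd (nat_lit 7) 
(.nd (nat_lit 19) (.lf (nat_lit 3892723751) (dlOf (nat_lit 1) (nat_lit 0x4004000600181e0782))) 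
(.lf (nat_lit 2819506215) (dlOf (nat_lit 2) (nat_lit 0x201b0000000801800080004002003600082c0003)))) 
(.lf (nat_lit 738607271) (dlOf (nat_lit 4) (nat_lit 0x501540004c0400280aa0000e020020055000901b8000001001300080078002001a00080c1483))))) 
(.nd (nat_lit 19) (.nd (nat_lit 21) (.nd (nat_lit 22) 
(.lf (nat_lit 2752921639) (dlOf (nat_lit 2) (nat_lit 0x8807900029818060580))) 
(.lf (nat_lit 55984167) (dlOf (nat_lit 1) (nat_lit 0x20029700781)))) (.nd (nat_lit 22) 
(.lf (nat_lit 37109799) (dlOf (nat_lit 2) (nat_lit 0x189940002502001400190a0781))) 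
(.lf (nat_lit 32915495) (dlOf (nat_lit 1) (nat_lit 0xc00200080008f40782))))) (.nd (nat_lit 7) 
(.nd (nat_lit 8) 
(.lf (nat_lit 22954023) (dlOf (nat_lit 3) (nat_lit 0x20000002601001fa790000c8080148008010400200200008b40603))) 
(.lf (nat_lit 54414119) (dlOf (nat_lit 1) (nat_lit 0x30008001400200180009655c03)))) 
(.lf (nat_lit 37636519) (dlOf (nat_lit 1) (nat_lit 0x200090d4e81))))))) (.nd (nat_lit 26) 
(.nd (nat_lit 29) (.nd (nat_lit 18) (.nd (nat_lit 7) (.nd (nat_lit 21) 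
(.lf (nat_lit 1342849063) (dlOf (nat_lit 1) (nat_lit 0x600280f0981))) 
(.lf (nat_lit 1344946215) (dlOf (nat_lit 1) (nat_lit 0x44004003c00089a0202)))) 
(.lf (nat_lit 3490335143) (dlOf (nat_lit 1) (nat_lit 0x400200020008004e82)))) (.nd (nat_lit 7) 
(.nd (nat_lit 11) (.lf (nat_lit 3491119143) (dlOf (nat_lit 2) (nat_lit 0x8807b00029818060580))) 
(.lf (nat_lit 3493222439) (dlOf (nat_lit 1) (nat_lit 0x200180fa601)))) 
(.lf (nat_lit 1344165287) (dlOf (nat_lit 1) (nat_lit 0x1000283d9901))))) (.nd (nat_lit 30) 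
(.nd (nat_lit 18) (.nd (nat_lit 19) 
(.lf (nat_lit 2952937511) (dlOf (nat_lit 5) (nat_lit 0x58005a000310202c002d0001801015f0168000b4080af80b40005604001c00400020008030282))) 
(.lf (nat_lit 805978151) (dlOf (nat_lit 2) (nat_lit 0x2a8038000a804004800200420008200c02)))) 
(.lf (nat_lit 805716007) (dlOf (nat_lit 1) (nat_lit 0x200081a0001)))) (.nd (nat_lit 27) 
(.nd (nat_lit 7) 
(.lf (nat_lit 1881554983) (dlOf (nat_lit 3) (nat_lit 0x20e200005010016071800000080108008002c00200480008f50783))) 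
(.lf (nat_lit 1880245415) (dlOf (nat_lit 2) (nat_lit 0xa02b0002f818802c00)))) (.nd (nat_lit 31) 
(.lf (nat_lit 2013413415) (dlOf (nat_lit 2) (nat_lit 0x1d00000016a040014002001a0008060c02))) 
(.lf (nat_lit 4160897063) (dlOf (nat_lit 2) (nat_lit 0x11002c013601400460090027800c0006610003c00400060008060602))))))) 
(.nd (nat_lit 31) (.nd (nat_lit 19) (.nd (nat_lit 8) (.nd (nat_lit 18) 
(.lf (nat_lit 473055271) (dlOf (nat_lit 1) (nat_lit 0x60028c90001))) 
(.lf (nat_lit 1409695783) (dlOf (nat_lit 6) (nat_lit 0x1e028800a80c8000500800080a20002702003005100100190000681000f0144005806400019040004051000201900005c100018008007800200060008070783)))) 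
(.lf (nat_lit 2080523559) (dlOf (nat_lit 1) (nat_lit 0x400200020008093182)))) (.nd (nat_lit 9) 
(.nd (nat_lit 21) (.lf (nat_lit 470433831) (dlOf (nat_lit 1) (nat_lit 0x600280f0981))) 
(.lf (nat_lit 472530983) (dlOf (nat_lit 5) (nat_lit 0x18204000168100191020000b00800b081000042d200004040034204000000189b0780)))) 
(.lf (nat_lit 473580071) (dlOf (nat_lit 4) (nat_lit 0x1c23200101180003402000908c80019808003846400000040134004003a0018f68802))))) 
(.nd (nat_lit 18) (.nd (nat_lit 19) (.nd (nat_lit 27) 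
(.lf (nat_lit 2483175463) (dlOf (nat_lit 2) (nat_lit 0x48000000aa04003c00400080008060582))) 
(.lf (nat_lit 3691135015) (dlOf (nat_lit 1) (nat_lit 0x15800200060008050282)))) 
(.lf (nat_lit 3154788391) (dlOf (nat_lit 3) (nat_lit 0x6402c001650200020320005e818320d80)))) 
(.nd (nat_lit 27) (.lf (nat_lit 3557179431) (dlOf (nat_lit 1) (nat_lit 0x60018140881))) 
(.lf (nat_lit 3154526247) (dlOf (nat_lit 2) (nat_lit 0x36a054017201c000150100040008006c002003c00081f0683)))))))) 
(.nd (nat_lit 8) (.nd (nat_lit 28) (.nd (nat_lit 19) (.nd (nat_lit 7) (.nd (nat_lit 30) 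
(.nd (nat_lit 9) 
(.lf (nat_lit 38945895) (dlOf (nat_lit 2) (nat_lit 0x53044000b404002800200500009192982))) 
(.lf (nat_lit 604392039) (dlOf (nat_lit 1) (nat_lit 0x20028205381)))) (.nd (nat_lit 27) 
(.lf (nat_lit 5368856679) (dlOf (nat_lit 1) (nat_lit 0x20018040781))) 
(.lf (nat_lit 5503074407) (dlOf (nat_lit 1) (nat_lit 0x20018040781))))) (.nd (nat_lit 10) 
(.nd (nat_lit 11) 
(.lf (nat_lit 44187879) (dlOf (nat_lit 2) (nat_lit 0x2ebfc000e002000200292d1b81))) 
(.lf (nat_lit 671238375) (dlOf (nat_lit 3) (nat_lit 0x900d8007000c00200000001906000a01b000700180010000000300c000c00400020018144b02)))) 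
(.lf (nat_lit 6509710567) (dlOf (nat_lit 1) (nat_lit 0x400400020008146502))))) (.nd (nat_lit 9) 
(.nd (nat_lit 18) (.nd (nat_lit 20) 
(.lf (nat_lit 537542759) (dlOf (nat_lit 1) (nat_lit 0xc400280a1401))) 
(.lf (nat_lit 45760615) (dlOf (nat_lit 3) (nat_lit 0xf8160002101000239b800800000002608000400400020019360982)))) 
(.nd (nat_lit 7) 
(.lf (nat_lit 42877031) (dlOf (nat_lit 2) (nat_lit 0xab6900055370000130400020019280981))) 
(.lf (nat_lit 19815655) (dlOf (nat_lit 1) (nat_lit 0x200289dc601))))) (.nd (nat_lit 7) 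
(.nd (nat_lit 10) 
(.lf (nat_lit 46811751) (dlOf (nat_lit 2) (nat_lit 0x99880006c04000400400020019385382))) 
(.lf (nat_lit 19813991) (dlOf (nat_lit 1) (nat_lit 0x4002000200089d9c02)))) 
(.lf (nat_lit 19813095) (dlOf (nat_lit 1) (nat_lit 0x80080008002000400089d8d03)))))) 
(.nd (nat_lit 27) (.nd (nat_lit 22) (.nd (nat_lit 10) (.nd (nat_lit 19) 
(.lf (nat_lit 2952937575) (dlOf (nat_lit 5) (nat_lit 0x330168001f40801900b4000f80400cc05a0007502006402d00039818030d00))) 
(.lf (nat_lit 1344946279) (dlOf (nat_lit 2) (nat_lit 0x5614d004f06c8000381000b80080048002001600089a0983)))) 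
(.lf (nat_lit 1880245351) (dlOf (nat_lit 2) (nat_lit 0x18388000b404000800400120008802982)))) 
(.nd (nat_lit 18) 
(.lf (nat_lit 1346519143) (dlOf (nat_lit 11) (nat_lit 0x789180020484001023b001411b000907400058398001c1c4000f0e00005344000108d800103a000101ce00010e6000087100028a14005048c0018242000c11d800c88d800643a000381cc00140e2000a870000286200044124002807f0009d820015049000d01fc0027208003848c001a242000a11d800988d800443a0002a1cc000d0e2000687000034124002207f0006c8a0011049000a81fc001b008002048c0014242000b11d800708d800283a000081cc000a0e200058700001ae200020484001023b000311b00068740001c39800061c400060e000033c3800809180030484001623b001711b000a8740006839800201c400110e00003344000800080010002001c0008f80d83))) 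
(.lf (nat_lit 1346781287) (dlOf (nat_lit 2) (nat_lit 0x50ab000108080100008000400200100009000983))))) 
(.nd (nat_lit 11) (.nd (nat_lit 7) (.nd (nat_lit 9) 
(.lf (nat_lit 1007042663) (dlOf (nat_lit 1) (nat_lit 0x80028150281))) 
(.lf (nat_lit 4697769575) (dlOf (nat_lit 1) (nat_lit 0x20028093901)))) 
(.lf (nat_lit 5234639079) (dlOf (nat_lit 1) (nat_lit 0x10008000400200020008071d83)))) 
(.nd (nat_lit 7) (.nd (nat_lit 18) 
(.lf (nat_lit 473057895) (dlOf (nat_lit 1) (nat_lit 0x13000400080008c95382))) 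
(.lf (nat_lit 5771774567) (dlOf (nat_lit 1) (nat_lit 0x8000400020008005382)))) 
(.lf (nat_lit 5838622439) (dlOf (nat_lit 1) (nat_lit 0xe00180f7401))))))) (.nd (nat_lit 18) 
(.nd (nat_lit 11) (.nd (nat_lit 9) (.nd (nat_lit 7) (.nd (nat_lit 26) 
(.lf (nat_lit 3624026471) (dlOf (nat_lit 3) (nat_lit 0x4301000218048007401b00860090000a4200390090004c03600e4012000138380b0700))) 
(.lf (nat_lit 2885828967) (dlOf (nat_lit 3) (nat_lit 0x4301000218048007401a008600b8000a4200390090004c03400e4017000138380b0700)))) 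
(.lf (nat_lit 1342325223) (dlOf (nat_lit 1) (nat_lit 0x60008017301)))) (.nd (nat_lit 26) 
(.lf (nat_lit 6442600295) (dlOf (nat_lit 1) (nat_lit 0xc00180f4001))) 
(.lf (nat_lit 201475943) (dlOf (nat_lit 1) (nat_lit 0x20028004001))))) (.nd (nat_lit 7) 
(.nd (nat_lit 10) (.lf (nat_lit 3221375335) (dlOf (nat_lit 1) (nat_lit 0xa0008114e81))) 
(.lf (nat_lit 3221376359) (dlOf (nat_lit 4) (nat_lit 0x5080f8000440400e007c000210200ca00000004818116a80)))) 
(.nd (nat_lit 9) (.nd (nat_lit 10) 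
(.lf (nat_lit 3959577063) (dlOf (nat_lit 2) (nat_lit 0x202f005be01811b280))) 
(.lf (nat_lit 3221376487) (dlOf (nat_lit 2) (nat_lit 0x40a20001002000e0008116e81)))) 
(.lf (nat_lit 4563553255) (dlOf (nat_lit 1) (nat_lit 0x20028095e81)))))) (.nd (nat_lit 7) 
(.nd (nat_lit 10) (.nd (nat_lit 19) 
(.lf (nat_lit 25575783) (dlOf (nat_lit 2) (nat_lit 0xd7940003e0200060008c10981))) 
(.lf (nat_lit 2752397671) (dlOf (nat_lit 1) (nat_lit 0x80018015201)))) (.nd (nat_lit 9) 
(.nd (nat_lit 11) 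
(.lf (nat_lit 472794471) (dlOf (nat_lit 4) (nat_lit 0x582ca00035020002165000088100050b2800018080088008005000200080008b03483))) 
(.lf (nat_lit 2754501991) (dlOf (nat_lit 1) (nat_lit 0x180080010002000400080fc903)))) 
(.lf (nat_lit 3492693863) (dlOf (nat_lit 1) (nat_lit 0x200080f4001))))) (.nd (nat_lit 9) 
(.nd (nat_lit 19) 
(.lf (nat_lit 21381607) (dlOf (nat_lit 5) (nat_lit 0x32a60001952fe0005e040008d4200644c0002f25fc000b80c00892fe0004402000ad1f0000e818a37300))) 
(.nd (nat_lit 26) 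
(.lf (nat_lit 3490595303) (dlOf (nat_lit 11) (nat_lit 0x414230009b1170000bc1010a08c002a045c0002d040158230000158100aa1180000a80808a08c0000500403704600002602001024b001511a001b07ec003c3de07741e6004f0f1000d877c01ec39a004216501640ae005d856806f42a8001214d016f09d001084d4000483c006449c006024b000511d801c08a800943fe018c1fb00a30f781f9879806a03c8034e1e200dc0ef80d40734013839600401a000d70b280d38570047c2b404fc15402880a900050534069c27403501350013097000904a8003423c007a115000111a000a0fd800307bc0eec3cc00761e200e70e6801c059404602b800c415a01cd0aa00b684e80004028005c49c002424b0004123800088ec001045400221ff000c0fd801c07bc0fcc3cc02f81e400740f10023877c043c39a00461a000f40b280a90570004c2b4037615400720a980d384e80020254000a11e00c9000000074b80ff0008070c0020f2c0008017303))) 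
(.lf (nat_lit 2752397799) (dlOf (nat_lit 1) (nat_lit 0x80018017d01))))) (.nd (nat_lit 12) 
(.lf (nat_lit 3492692967) (dlOf (nat_lit 1) (nat_lit 0x200080f2881))) 
(.lf (nat_lit 1344164839) (dlOf (nat_lit 1) (nat_lit 0x600283d9201))))))))) (.nd (nat_lit 18) 
(.nd (nat_lit 28) (.nd (nat_lit 6) (.nd (nat_lit 19) (.nd (nat_lit 9) (.nd (nat_lit 7) 
(.nd (nat_lit 21) 
(.lf (nat_lit 604192807) (dlOf (nat_lit 1) (nat_lit 0x90008029800200320008080683))) 
(.lf (nat_lit 52641831) (dlOf (nat_lit 8) (nat_lit 0x5b8c40005a04007dc620002c020070e31000150100017188000a40817eb8c400459d400004040192e31000018100047188000080802e8008005800201e00009560783)))) 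
(.lf (nat_lit 3288547495) (dlOf (nat_lit 1) (nat_lit 0x8008001800200260008090283)))) 
(.nd (nat_lit 7) (.nd (nat_lit 11) 
(.lf (nat_lit 3288547879) (dlOf (nat_lit 1) (nat_lit 0x700080024002002a0008090e03))) 
(.lf (nat_lit 8608295) (dlOf (nat_lit 1) (nat_lit 0x84000851b281)))) 
(.lf (nat_lit 1141066663) (dlOf (nat_lit 1) (nat_lit 0x60018095d01))))) (.nd (nat_lit 20) 
(.nd (nat_lit 21) (.nd (nat_lit 23) 
(.lf (nat_lit 21708839) (dlOf (nat_lit 19) (nat_lit 0x21bed40060f698027bb4800133060111db503aced4007a7698059bb480489d9e027fea180aa74fc002641c03dfb6a007bdaa03b5ed400aef69808ebb4804afd9e027eea180a274fc0026220003fb54063bda80028ed3001a76900207b3c03cbd430131e9f8004c03806e76d4055fb6001dddaa0378ed40012f68006dfb3c0217d92000bebd0010751005cfa86024dd3f00a3e6c005df35c014399801bbc9b008adce00f86e680569bc601fedb600fc6da000ca77404093b6017c00000097970012eda800bf6a80a97b5000bbda60160ea1801b74fc0025c180527b5401cfda800c1ed30040769003aba86001290a0003d4300094010007ed30004980804a7698019fa860012404018fdb503d8ed501df76a01193b4c087bda400a5ed0003f767810c3a8600123100771daa0390ed4020276981013b480057da000fcecf01fbf50c002441c0e9fb54069bda80395ed301b6f690006bb40010bd9e037aea18004843809af6d40e8bb540767da8028eed3014f7690037fb4003edd9e00e2ea401a9f50c004f9b0008bc9b0025e45800e27740024034005fb4c001dda40097ea180047c18013755000202040007b200075d8e00048020068de38000000806d800819d800204100008a60c03)))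 
(.lf (nat_lit 13320231) (dlOf (nat_lit 1) (nat_lit 0x8008000400200020008720c83)))) 
(.lf (nat_lit 11223079) (dlOf (nat_lit 1) (nat_lit 0x20008670601)))) (.nd (nat_lit 7) 
(.lf (nat_lit 39534631) (dlOf (nat_lit 1) (nat_lit 0x60019190001))) (.nd (nat_lit 8) 
(.lf (nat_lit 8082087) (dlOf (nat_lit 1) (nat_lit 0x400200020008518c82))) 
(.lf (nat_lit 8077735) (dlOf (nat_lit 1) (nat_lit 0x400200020008511002))))))) (.nd (nat_lit 7) 
(.nd (nat_lit 8) (.nd (nat_lit 10) (.nd (nat_lit 19) 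
(.lf (nat_lit 14893159) (dlOf (nat_lit 1) (nat_lit 0x400400020008790d02))) 
(.lf (nat_lit 45826151) (dlOf (nat_lit 3) (nat_lit 0xc6a1000374fe0018a47800d8be4006c484003622c00021060010a4800004c080010008000800200020009360983)))) 
(.lf (nat_lit 20141159) (dlOf (nat_lit 1) (nat_lit 0x1800089d9401)))) (.nd (nat_lit 9) 
(.lf (nat_lit 2310503) (dlOf (nat_lit 2) (nat_lit 0x20b83b00019818150700))) 
(.lf (nat_lit 20142951) (dlOf (nat_lit 1) (nat_lit 0x200189dbc81))))) (.nd (nat_lit 26) 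
(.nd (nat_lit 8) (.nd (nat_lit 11) 
(.lf (nat_lit 9650407) (dlOf (nat_lit 1) (nat_lit 0x8008000400200020008571b83))) 
(.lf (nat_lit 671303911) (dlOf (nat_lit 3) (nat_lit 0x590160000640802e00b00003004006800200180008144b02)))) 
(.lf (nat_lit 1262055) (dlOf (nat_lit 1) (nat_lit 0x400180a7301)))) (.nd (nat_lit 9) 
(.nd (nat_lit 29) 
(.lf (nat_lit 3288547815) (dlOf (nat_lit 1) (nat_lit 0x180008003c00200260008090c83))) 
(.lf (nat_lit 3825418727) (dlOf (nat_lit 1) (nat_lit 0x1000200040008157302)))) (.nd (nat_lit 11) 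
(.lf (nat_lit 2751677415) (dlOf (nat_lit 1) (nat_lit 0xc0018002881))) 
(.lf (nat_lit 738413543) (dlOf (nat_lit 1) (nat_lit 0x400200020008095e82)))))))) (.nd (nat_lit 29) 
(.nd (nat_lit 31) (.nd (nat_lit 19) (.nd (nat_lit 26) (.nd (nat_lit 27) 
(.lf (nat_lit 5637357607) (dlOf (nat_lit 1) (nat_lit 0x5400180d0001))) 
(.lf (nat_lit 1476608039) (dlOf (nat_lit 1) (nat_lit 0x80080004002006600080a0683)))) 
(.lf (nat_lit 5704466471) (dlOf (nat_lit 4) (nat_lit 0x28016000b402003801b0005481001300d8000000800880080170002000600080a0c03)))) 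
(.nd (nat_lit 6) (.nd (nat_lit 20) 
(.lf (nat_lit 1345011751) (dlOf (nat_lit 4) (nat_lit 0x17859800142ac0002096000160300790b4803d85a002082b0010c145007c00e8000102800b04f400000040068004000600189d0782))) 
(.lf (nat_lit 1343963175) (dlOf (nat_lit 1) (nat_lit 0xf0008008c00200300008380d83)))) 
(.lf (nat_lit 472596583) (dlOf (nat_lit 2) (nat_lit 0x830b0002a0270015811a0000006003000189c0981))))) 
(.nd (nat_lit 6) (.nd (nat_lit 7) 
(.lf (nat_lit 3557507111) (dlOf (nat_lit 6) (nat_lit 0x80f000060720003030800281780014084000a03f0000e06000502f00018108000807e0001b060002078000603900010178002007e00018080006072000102f00018108001807e00014080008072000401f800000100028008007000200040008230903))) 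
(.nd (nat_lit 8) 
(.lf (nat_lit 3556988583) (dlOf (nat_lit 1) (nat_lit 0x10008000c002000c000812a003))) 
(.lf (nat_lit 3489881511) (dlOf (nat_lit 10) (nat_lit 0xe1fd000180100020fe8000bc0801187f40005c0400843fa0002d0200381fd0000301001c0fe8000100800e07f400183d00000304003e1fd000010100190fe8000000800e800800040020002000800cb83))))) 
(.nd (nat_lit 8) (.lf (nat_lit 3556987111) (dlOf (nat_lit 1) (nat_lit 0x20028128081))) 
(.nd (nat_lit 10) (.lf (nat_lit 3624094183) (dlOf (nat_lit 1) (nat_lit 0x80028144e81))) 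
(.lf (nat_lit 3489877479) (dlOf (nat_lit 1) (nat_lit 0x20028006e81))))))) (.nd (nat_lit 7) 
(.nd (nat_lit 9) (.nd (nat_lit 20) (.nd (nat_lit 26) 
(.lf (nat_lit 6308446247) (dlOf (nat_lit 4) (nat_lit 0x28016000b102003801b0005481001300d8000000800880080170002000600080a0c03))) 
(.lf (nat_lit 6241337383) (dlOf (nat_lit 1) (nat_lit 0x5400180d0001)))) 
(.lf (nat_lit 1880309799) (dlOf (nat_lit 1) (nat_lit 0x18008000400200060008830783)))) 
(.nd (nat_lit 8) (.nd (nat_lit 11) 
(.lf (nat_lit 4026745383) (dlOf (nat_lit 1) (nat_lit 0x700080024002002a0008090e03))) 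
(.lf (nat_lit 6241339943) (dlOf (nat_lit 1) (nat_lit 0x200280d5181)))) 
(.lf (nat_lit 4094905127) (dlOf (nat_lit 1) (nat_lit 0x1800400040008055c02))))) (.nd (nat_lit 6) 
(.nd (nat_lit 8) 
(.lf (nat_lit 4026744999) (dlOf (nat_lit 1) (nat_lit 0x8008001800200260008090283))) 
(.lf (nat_lit 4026745255) (dlOf (nat_lit 1) (nat_lit 0x6e0028090781)))) (.nd (nat_lit 8) 
(.lf (nat_lit 4096475367) (dlOf (nat_lit 1) (nat_lit 0x20028111b81))) 
(.lf (nat_lit 4026745319) (dlOf (nat_lit 1) (nat_lit 0x180008003c00200260008090c83)))))))) 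
(.nd (nat_lit 30) (.nd (nat_lit 6) (.nd (nat_lit 21) (.nd (nat_lit 20) (.nd (nat_lit 7) 
(.nd (nat_lit 25) 
(.lf (nat_lit 6510034983) (dlOf (nat_lit 2) (nat_lit 0x804c000270200020018190e01))) 
(.lf (nat_lit 34029607) (dlOf (nat_lit 1) (nat_lit 0x20008f90201)))) 
(.lf (nat_lit 201802151) (dlOf (nat_lit 2) (nat_lit 0x2a007600cea0200060018090781)))) 
(.nd (nat_lit 7) (.nd (nat_lit 19) 
(.lf (nat_lit 2752987175) (dlOf (nat_lit 2) (nat_lit 0x15043800050080060008000800200140008070783))) 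
(.lf (nat_lit 23019559) (dlOf (nat_lit 5) (nat_lit 0x2560800055020008b04001156f00013410020a72800cc0000004c04009a9d3015621a809e90d0000640c001400400340008b40602)))) 
(.lf (nat_lit 47662247) (dlOf (nat_lit 2) (nat_lit 0x26bc000055de0013aa480017c1800b80080018002000e0009402c03))))) 
(.nd (nat_lit 7) (.nd (nat_lit 22) (.nd (nat_lit 27) 
(.lf (nat_lit 2754035751) (dlOf (nat_lit 2) (nat_lit 0x1d0ac800010080040008000c002000800080b0c03))) 
(.lf (nat_lit 1009205287) (dlOf (nat_lit 1) (nat_lit 0x280080028002000a00090a0203)))) 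
(.lf (nat_lit 15155239) (dlOf (nat_lit 1) (nat_lit 0x138002003800087c0682)))) (.nd (nat_lit 8) 
(.lf (nat_lit 472337063) (dlOf (nat_lit 1) (nat_lit 0x48002001e0008985602))) (.nd (nat_lit 9) 
(.lf (nat_lit 2754563495) (dlOf (nat_lit 1) (nat_lit 0x12600080f6d01))) 
(.lf (nat_lit 2754567079) (dlOf (nat_lit 4) (nat_lit 0x1e0790011501000603c8008740800281e40042a040004004001800180fbd02))))))) 
(.nd (nat_lit 19) (.nd (nat_lit 8) (.nd (nat_lit 20) (.nd (nat_lit 21) 
(.lf (nat_lit 738672743) (dlOf (nat_lit 5) (nat_lit 0x1005a001002b80070014010ca0c001c0b40024057001200280219018005816800180b2000c057000b00280030010010c61400380b4000e057000502900070014010c0100004004000200080d0782))) 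
(.lf (nat_lit 48709735) (dlOf (nat_lit 4) (nat_lit 0xdcf4000ac040136e78001372500018ee00010818019dcf4008ddbc0018ed3001e75200004c200050008000800200020009420983)))) 
(.lf (nat_lit 3620967) (dlOf (nat_lit 2) (nat_lit 0xca220000502000a0028211381)))) (.nd (nat_lit 7) 
(.nd (nat_lit 9) (.lf (nat_lit 43467111) (dlOf (nat_lit 1) (nat_lit 0x4002000200092a0f02))) 
(.lf (nat_lit 477031) (dlOf (nat_lit 1) (nat_lit 0x400400100008004002)))) 
(.lf (nat_lit 47662055) (dlOf (nat_lit 4) (nat_lit 0x573e002bc8100077bf8013a40800a5518009b004007800400160009402882))))) 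
(.nd (nat_lit 7) (.nd (nat_lit 20) (.nd (nat_lit 12) 
(.lf (nat_lit 59719783) (dlOf (nat_lit 2) (nat_lit 0x6cf220000e0200040029820981))) 
(.lf (nat_lit 19877991) (dlOf (nat_lit 1) (nat_lit 0xc002000600089d7d82)))) (.nd (nat_lit 8) 
(.lf (nat_lit 473907303) (dlOf (nat_lit 1) (nat_lit 0x60008fc0981))) 
(.lf (nat_lit 2048359) (dlOf (nat_lit 2) (nat_lit 0x6000000019818150700))))) (.nd (nat_lit 9) 
(.lf (nat_lit 19878119) (dlOf (nat_lit 1) (nat_lit 0x8004000600189d8082))) 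
(.lf (nat_lit 19877607) (dlOf (nat_lit 1) (nat_lit 0x1800189d7401))))))) (.nd (nat_lit 29) 
(.nd (nat_lit 31) (.nd (nat_lit 7) (.nd (nat_lit 8) (.nd (nat_lit 9) 
(.lf (nat_lit 5637619751) (dlOf (nat_lit 7) (nat_lit 0x400340011902000401a0008c0100010130004480800480900021a04001404c00100240008602000100d0003e0080138008009400200200008120c03))) 
(.lf (nat_lit 1346325031) (dlOf (nat_lit 5) (nat_lit 0x10b300030008004059c00142cc000c01b000600d00023020006059c00242cc000801b000500d00022c20004859c00102cc001001b000600d000224200018008009800200100008f05183)))) 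
(.lf (nat_lit 1345798439) (dlOf (nat_lit 1) (nat_lit 0x3000400300008df8102)))) (.nd (nat_lit 6) 
(.lf (nat_lit 1344750759) (dlOf (nat_lit 1) (nat_lit 0x20028982c01))) 
(.lf (nat_lit 5772362727) (dlOf (nat_lit 1) (nat_lit 0x8008000400200020008092883))))) 
(.nd (nat_lit 7) (.nd (nat_lit 20) (.nd (nat_lit 21) 
(.lf (nat_lit 3221700647) (dlOf (nat_lit 5) (nat_lit 0x40118002808a00d4b04000c0460007022803528100030118002408a00d4804000c0460008022803518100068008000c00200080008170003))) 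
(.lf (nat_lit 3492233255) (dlOf (nat_lit 2) (nat_lit 0xd11a0000440800280080004002000200080b0c03)))) 
(.lf (nat_lit 3491184679) (dlOf (nat_lit 2) (nat_lit 0x150450000a0080060008000800200140008070783)))) 
(.nd (nat_lit 6) 
(.lf (nat_lit 3221701031) (dlOf (nat_lit 5) (nat_lit 0x5c046002902280219410016811800ac08a008640400760450043181002802300130114010c008001c00400020018170782))) 
(.lf (nat_lit 3490660839) (dlOf (nat_lit 8) (nat_lit 0xb4a1e60001201058b0f3000088082db87980004004016c3cc0001e020af81e60000e8100150f30000700802007980003604003000400040018017302)))))) 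
(.nd (nat_lit 19) (.nd (nat_lit 26) (.nd (nat_lit 6) (.nd (nat_lit 27) 
(.lf (nat_lit 5906055207) (dlOf (nat_lit 2) (nat_lit 0x804a000270200020018190e01))) 
(.lf (nat_lit 3892789287) (dlOf (nat_lit 1) (nat_lit 0x20028270781)))) 
(.lf (nat_lit 1611087975) (dlOf (nat_lit 5) (nat_lit 0x1005a001002b8007001401d0a0c001c0b400240570012002803a1018005816800180b2000c057000b0028003001001d061400380b4000e05700050290007001401d00100004004000200080d0782)))) 
(.nd (nat_lit 7) 
(.lf (nat_lit 6241599527) (dlOf (nat_lit 7) (nat_lit 0x400340010702000401a0008301000101380040408002809c002004a000fe0400120250007e81000100d0003ac080138008009400200200008120c03))) 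
(.nd (nat_lit 27) 
(.lf (nat_lit 1678197159) (dlOf (nat_lit 2) (nat_lit 0x3180ac0048013007188281a0780))) 
(.lf (nat_lit 3959898535) (dlOf (nat_lit 7) (nat_lit 0x25008c00ea502014a0460075201012d02300990114010008400e2033007188400cb0230066811400a408400e3006016004600b2022800b010801c5e0c02e408c0176045001d0210038b81804a000802b400204940008170783)))))) 
(.nd (nat_lit 6) (.nd (nat_lit 8) (.nd (nat_lit 9) 
(.lf (nat_lit 1880047655) (dlOf (nat_lit 1) (nat_lit 0x10008000800200040008560283))) 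
(.lf (nat_lit 4094642727) (dlOf (nat_lit 1) (nat_lit 0x800200020008055182)))) 
(.lf (nat_lit 6376341799) (dlOf (nat_lit 2) (nat_lit 0x1013100170910005801000380080058002003a0008090a83)))) 
(.nd (nat_lit 8) (.nd (nat_lit 26) 
(.lf (nat_lit 1880047719) (dlOf (nat_lit 1) (nat_lit 0x400400020008560d02))) 
(.lf (nat_lit 6376341607) (dlOf (nat_lit 1) (nat_lit 0x3000400880008090102)))) 
(.lf (nat_lit 6376343911) (dlOf (nat_lit 1) (nat_lit 0x160018094e81))))))))))))

end

end Pool.Agent.Lib.MP_5854e1_co.Cz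

namespace Pool.Agent.Lib.MP_5854e1_co.Cz

noncomputable section

noncomputable def tz166 : DT := (.nd (nat_lit 17) (.nd (nat_lit 16) (.nd (nat_lit 18) 
(.nd (nat_lit 26) (.nd (nat_lit 19) (.nd (nat_lit 30) (.nd (nat_lit 7) (.nd (nat_lit 5) 
(.nd (nat_lit 20) (.nd (nat_lit 22) 
(.lf (nat_lit 10502155) (dlOf (nat_lit 1) (nat_lit 0x80080008002000200085e0a03))) 
(.lf (nat_lit 14696459) (dlOf (nat_lit 1) (nat_lit 0x8008000400200020008770003)))) 
(.lf (nat_lit 17842187) (dlOf (nat_lit 1) (nat_lit 0x80080038002000200088f0503)))) 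
(.nd (nat_lit 20) (.lf (nat_lit 27279403) (dlOf (nat_lit 1) (nat_lit 0x20018cc0801))) 
(.nd (nat_lit 21) 
(.lf (nat_lit 13647915) (dlOf (nat_lit 2) (nat_lit 0x4a220030465003022d8000c8180018008000c00200040008740603))) 
(.lf (nat_lit 28327979) (dlOf (nat_lit 2) (nat_lit 0x28a7d001353600021c1001a0008001c002000a0008d80783)))))) 
(.nd (nat_lit 6) (.nd (nat_lit 8) (.nd (nat_lit 10) 
(.lf (nat_lit 2952810635) (dlOf (nat_lit 1) (nat_lit 0xe40008007d81))) 
(.lf (nat_lit 134237323) (dlOf (nat_lit 1) (nat_lit 0x20028006181)))) (.nd (nat_lit 5) 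
(.lf (nat_lit 19943819) (dlOf (nat_lit 1) (nat_lit 0x200189d8381))) 
(.lf (nat_lit 2684371883) (dlOf (nat_lit 1) (nat_lit 0x5a0028002681))))) (.nd (nat_lit 8) 
(.nd (nat_lit 9) 
(.lf (nat_lit 24133835) (dlOf (nat_lit 2) (nat_lit 0x97508007cc0800700080028002000c0008b80483))) 
(.lf (nat_lit 19944139) (dlOf (nat_lit 1) (nat_lit 0x4002000200089d8c82)))) (.nd (nat_lit 5) 
(.lf (nat_lit 6710905803) (dlOf (nat_lit 1) (nat_lit 0x240008005d81))) 
(.lf (nat_lit 2114027) (dlOf (nat_lit 1) (nat_lit 0x1e4004039c0008150d02))))))) (.nd (nat_lit 9) 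
(.nd (nat_lit 7) (.nd (nat_lit 5) (.nd (nat_lit 6) 
(.lf (nat_lit 1346387979) (dlOf (nat_lit 1) (nat_lit 0x20028f60001))) 
(.lf (nat_lit 5637162315) (dlOf (nat_lit 1) (nat_lit 0xc0008003301)))) (.nd (nat_lit 6) 
(.lf (nat_lit 5772428587) (dlOf (nat_lit 1) (nat_lit 0x8008000400200020008093183))) 
(.lf (nat_lit 1342196075) (dlOf (nat_lit 1) (nat_lit 0x3c00200040008004e82))))) (.nd (nat_lit 8) 
(.nd (nat_lit 11) 
(.lf (nat_lit 3355464843) (dlOf (nat_lit 2) (nat_lit 0xf018000d00000014608005800200480008009502))) 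
(.lf (nat_lit 1342196875) (dlOf (nat_lit 1) (nat_lit 0x40018006181)))) 
(.lf (nat_lit 1342200203) (dlOf (nat_lit 2) (nat_lit 0x30274008d80400040020006000800af82))))) 
(.nd (nat_lit 5) (.nd (nat_lit 10) (.nd (nat_lit 7) 
(.lf (nat_lit 1610632011) (dlOf (nat_lit 1) (nat_lit 0x94004000c0008005c02))) 
(.lf (nat_lit 1879069387) (dlOf (nat_lit 1) (nat_lit 0x20008008c81)))) (.nd (nat_lit 12) 
(.lf (nat_lit 4026550091) (dlOf (nat_lit 1) (nat_lit 0x20018003e81))) 
(.lf (nat_lit 1342199627) (dlOf (nat_lit 1) (nat_lit 0x140040002000800a202))))) (.nd (nat_lit 7) 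
(.nd (nat_lit 8) 
(.lf (nat_lit 3355460139) (dlOf (nat_lit 1) (nat_lit 0x27800800cc002002a0008001483))) 
(.lf (nat_lit 3355460395) (dlOf (nat_lit 2) (nat_lit 0x67017000000080c3000802a8002092e0008002203)))) 
(.lf (nat_lit 5771381419) (dlOf (nat_lit 1) (nat_lit 0x20028005681))))))) (.nd (nat_lit 5) 
(.nd (nat_lit 21) (.nd (nat_lit 7) (.nd (nat_lit 27) (.nd (nat_lit 20) 
(.lf (nat_lit 1611153419) (dlOf (nat_lit 1) (nat_lit 0xc00280f0a01))) 
(.lf (nat_lit 9977867) (dlOf (nat_lit 1) (nat_lit 0x20008000c002000a00085a0a03)))) 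
(.nd (nat_lit 28) 
(.lf (nat_lit 2819112971) (dlOf (nat_lit 14) (nat_lit 0x3006a0055a010096035002381a4002460802840d400b4069000908200ba0350003e80805d01a8001f00402900d4009c0690006e820098035002501a4001ae0800500d4000520200300690002681008c035001e81a40003808023c0d400760690000b8200a3035002281a40002a0801f40d4014003600130110000001800c00080110002006200081a0483))) 
(.lf (nat_lit 3624419339) (dlOf (nat_lit 4) (nat_lit 0x3a045002f020001980d80058036001e01400300000007583000d811400b40800062036000100a00178000003a61406e8080038a03601a600a00d2000000398100018002000400081a0482))))) 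
(.nd (nat_lit 6) (.nd (nat_lit 8) (.lf (nat_lit 542859) (dlOf (nat_lit 1) (nat_lit 0x20018004801))) 
(.lf (nat_lit 1346914699) (dlOf (nat_lit 1) (nat_lit 0x8008000c002000200090a4e83)))) 
(.lf (nat_lit 1589451) (dlOf (nat_lit 1) (nat_lit 0x2600280f5a81))))) (.nd (nat_lit 6) 
(.nd (nat_lit 7) (.nd (nat_lit 22) 
(.lf (nat_lit 19415051) (dlOf (nat_lit 1) (nat_lit 0x80080004002000200089a0603))) 
(.lf (nat_lit 48775179) (dlOf (nat_lit 2) (nat_lit 0x5080801d0c0800180080008002001a0009420003)))) 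
(.nd (nat_lit 8) (.lf (nat_lit 61359755) (dlOf (nat_lit 1) (nat_lit 0x5400400100009923a02))) 
(.lf (nat_lit 61359499) (dlOf (nat_lit 1) (nat_lit 0xe800400280009923602))))) (.nd (nat_lit 8) 
(.nd (nat_lit 22) 
(.lf (nat_lit 3492298827) (dlOf (nat_lit 8) (nat_lit 0x45c464006822d0001a02009e119000808b4000640800d846400031020012232000178103560f38022857400342760002e0606aa1e7000160100480fe0000a8080390008043c0020aa600080c1483))) 
(.lf (nat_lit 48775243) (dlOf (nat_lit 1) (nat_lit 0x400400020009420602)))) 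
(.lf (nat_lit 20466507) (dlOf (nat_lit 1) (nat_lit 0x4004006e00089d5c02)))))) (.nd (nat_lit 22) 
(.nd (nat_lit 28) (.nd (nat_lit 6) (.nd (nat_lit 27) 
(.lf (nat_lit 3221766187) (dlOf (nat_lit 2) (nat_lit 0x980000000004013c00200500008180982))) 
(.lf (nat_lit 2819113003) (dlOf (nat_lit 1) (nat_lit 0xe4002003e00081a0682)))) 
(.lf (nat_lit 1074282859) (dlOf (nat_lit 2) (nat_lit 0xd00000007c0800100080064002000c00081b0703)))) 
(.nd (nat_lit 21) 
(.lf (nat_lit 805847083) (dlOf (nat_lit 3) (nat_lit 0xfe0440066481000c00b80329c0800100080008002000200081c0a03))) 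
(.lf (nat_lit 3492298795) (dlOf (nat_lit 18) (nat_lit 0x13308d00004804099446800022020070234000108101b611a000080080db08d00003e0406484680001d02001c2340000e01018911a00006c0803008d0000340400203f6024c1ef020a0f3009f079004b83c4004a1df004a0e68094056809542a8033415200b10a6808684e803a026a000191a00981ef020c0f3001b879003242b404ae15400b20a6802c84e8032c26a0001810003c1ef02020f30049079000183c4045c154018e0a9000204d40002c1c080c3cc003c1e402360aa000050180ab08d0000140405e84680000702035e2340000281000911a0000100802a80080318002041400080c0c03))))) 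
(.nd (nat_lit 7) (.nd (nat_lit 9) 
(.lf (nat_lit 55066667) (dlOf (nat_lit 2) (nat_lit 0x2c98c0000502000200296a0b81))) 
(.lf (nat_lit 56117803) (dlOf (nat_lit 1) (nat_lit 0x3c0019735181)))) 
(.lf (nat_lit 46680747) (dlOf (nat_lit 1) (nat_lit 0x400400020019385682))))))) (.nd (nat_lit 6) 
(.nd (nat_lit 27) (.nd (nat_lit 5) (.nd (nat_lit 11) (.nd (nat_lit 10) (.nd (nat_lit 19) 
(.lf (nat_lit 68173835) (dlOf (nat_lit 1) (nat_lit 0xc0018430101))) (.nd (nat_lit 21) 
(.lf (nat_lit 3557310475) (dlOf (nat_lit 1) (nat_lit 0x78008001c002001000081c0483))) 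
(.lf (nat_lit 2754101259) (dlOf (nat_lit 1) (nat_lit 0x200180c0801))))) (.nd (nat_lit 7) 
(.lf (nat_lit 1140868107) (dlOf (nat_lit 1) (nat_lit 0x60018002881))) 
(.lf (nat_lit 67131275) (dlOf (nat_lit 1) (nat_lit 0x8008001c0020004000800a303))))) 
(.nd (nat_lit 12) (.nd (nat_lit 8) 
(.lf (nat_lit 3825223691) (dlOf (nat_lit 1) (nat_lit 0x8008000400200020008004703))) 
(.lf (nat_lit 4362094859) (dlOf (nat_lit 1) (nat_lit 0x20018004b81)))) (.nd (nat_lit 9) 
(.lf (nat_lit 4362098699) (dlOf (nat_lit 1) (nat_lit 0x40020004000800a602))) 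
(.lf (nat_lit 4362099211) (dlOf (nat_lit 1) (nat_lit 0x2001800b281)))))) (.nd (nat_lit 12) 
(.nd (nat_lit 21) (.nd (nat_lit 29) 
(.lf (nat_lit 4362616875) (dlOf (nat_lit 1) (nat_lit 0x200180b0a01))) 
(.lf (nat_lit 1678262315) (dlOf (nat_lit 2) (nat_lit 0x6b002e0070a02000200081c0a01)))) 
(.lf (nat_lit 2754101291) (dlOf (nat_lit 5) (nat_lit 0x809300004804005c3f0000190200341f80000b01001e0fc0000500800680080094002005800080c0d03)))) 
(.nd (nat_lit 7) 
(.lf (nat_lit 4362098731) (dlOf (nat_lit 1) (nat_lit 0x2780080508002008a000800a603))) 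
(.lf (nat_lit 67129771) (dlOf (nat_lit 1) (nat_lit 0xe0008008481)))))) (.nd (nat_lit 12) 
(.nd (nat_lit 19) (.nd (nat_lit 5) (.nd (nat_lit 28) 
(.lf (nat_lit 1811957771) (dlOf (nat_lit 2) (nat_lit 0x120000006e018004700))) 
(.lf (nat_lit 1543522315) (dlOf (nat_lit 3) (nat_lit 0xc50160053807402fc030016601000c30040019801402bc004018c0000002c0800ba0160002008c02fc03a017001800bb008005d802000cc00a017600200bc00000015c480040008001c002000c0008004703)))) 
(.nd (nat_lit 7) (.lf (nat_lit 3422569259) (dlOf (nat_lit 1) (nat_lit 0x5a0028002201))) 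
(.lf (nat_lit 2617263019) (dlOf (nat_lit 2) (nat_lit 0x67015800000080c3000802a8002092e0008002683))))) 
(.nd (nat_lit 31) (.nd (nat_lit 22) 
(.lf (nat_lit 738738187) (dlOf (nat_lit 1) (nat_lit 0xc00280f0a01))) 
(.lf (nat_lit 474497035) (dlOf (nat_lit 1) (nat_lit 0x2a0009190101)))) (.nd (nat_lit 5) 
(.lf (nat_lit 2886221835) (dlOf (nat_lit 4) (nat_lit 0x3a044002f020001980d80058034001e01300300000005143000d811000b40800062036000100980178000002841406e8080038a03601a600980d2000000276100018002000400081a0482))) 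
(.lf (nat_lit 3959963691) (dlOf (nat_lit 2) (nat_lit 0x980000000004013c00200500008180982)))))) 
(.nd (nat_lit 5) (.nd (nat_lit 9) (.nd (nat_lit 7) 
(.lf (nat_lit 469783563) (dlOf (nat_lit 2) (nat_lit 0xc0470028c40800600080014002001a0008009203))) 
(.lf (nat_lit 2617267339) (dlOf (nat_lit 1) (nat_lit 0x1c00200060008009502)))) (.nd (nat_lit 8) 
(.lf (nat_lit 2617267851) (dlOf (nat_lit 9) (nat_lit 0xae00500440020001dc1002b8014000ec04016400a00020040003882005b0028001c00802b8014000c604016800a0006102002a00600007010012016802a801400000080008002001a0008009e02))) 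
(.lf (nat_lit 3691009931) (dlOf (nat_lit 1) (nat_lit 0x1480020036000800a302))))) (.nd (nat_lit 7) 
(.nd (nat_lit 28) (.lf (nat_lit 201349163) (dlOf (nat_lit 1) (nat_lit 0x1f00020076000800a602))) 
(.lf (nat_lit 469784619) (dlOf (nat_lit 1) (nat_lit 0x8008000c0020004000800a603)))) 
(.lf (nat_lit 3959446443) (dlOf (nat_lit 1) (nat_lit 0x18002800bd81))))))) (.nd (nat_lit 7) 
(.nd (nat_lit 8) (.nd (nat_lit 19) (.nd (nat_lit 9) (.nd (nat_lit 11) 
(.lf (nat_lit 2617262155) (dlOf (nat_lit 13) (nat_lit 0x280ac037ee040040058016df02002002c00b6e010010016005b480800800b002d90040040058016bf02002002c00b5f010010016005ae00800800b002d5a040040058016ac02002002c00b55810010016005aa808003800800c400200580008000003))) 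
(.lf (nat_lit 2751486027) (dlOf (nat_lit 1) (nat_lit 0x800800040020002000800a683)))) 
(.lf (nat_lit 2754629195) (dlOf (nat_lit 2) (nat_lit 0xc03a0000002000200280f7181)))) 
(.nd (nat_lit 27) (.nd (nat_lit 21) 
(.lf (nat_lit 2756198475) (dlOf (nat_lit 1) (nat_lit 0x20018211481))) 
(.lf (nat_lit 2754101323) (dlOf (nat_lit 2) (nat_lit 0x4783f20000002000200280c1881)))) 
(.nd (nat_lit 10) (.lf (nat_lit 472399947) (dlOf (nat_lit 1) (nat_lit 0x3e0018980001))) 
(.lf (nat_lit 1009271883) (dlOf (nat_lit 1) (nat_lit 0x18008000c002000800090e2883)))))) 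
(.nd (nat_lit 11) (.nd (nat_lit 10) 
(.lf (nat_lit 1946698091) (dlOf (nat_lit 2) (nat_lit 0xd00000007c0800100080064002000c00081b0703))) 
(.lf (nat_lit 473449835) (dlOf (nat_lit 1) (nat_lit 0x80028f53481)))) (.nd (nat_lit 12) 
(.nd (nat_lit 5) 
(.lf (nat_lit 872434507) (dlOf (nat_lit 2) (nat_lit 0xe016800594080008008001000200020008005c03))) 
(.lf (nat_lit 1409304939) (dlOf (nat_lit 2) (nat_lit 0x4017c025e004000400400040018004e82)))) 
(.nd (nat_lit 27) 
(.lf (nat_lit 4362099051) (dlOf (nat_lit 1) (nat_lit 0x800800040020002000800ac03))) 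
(.lf (nat_lit 201349483) (dlOf (nat_lit 1) (nat_lit 0x30001800ac01))))))) (.nd (nat_lit 5) 
(.nd (nat_lit 10) (.nd (nat_lit 11) 
(.lf (nat_lit 4362093515) (dlOf (nat_lit 2) (nat_lit 0x40198046300803a0008001000200400008002883))) 
(.nd (nat_lit 12) 
(.lf (nat_lit 5301619659) (dlOf (nat_lit 3) (nat_lit 0x6c07c0000a02003603e000401d0000181000d0008004c002003e0008005d83))) 
(.lf (nat_lit 2885704651) (dlOf (nat_lit 1) (nat_lit 0x800800080020004000800be83))))) 
(.nd (nat_lit 8) (.lf (nat_lit 67130571) (dlOf (nat_lit 1) (nat_lit 0x14002002c0008009502))) 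
(.nd (nat_lit 12) (.lf (nat_lit 4362094539) (dlOf (nat_lit 1) (nat_lit 0x60028004481))) 
(.lf (nat_lit 4362098635) (dlOf (nat_lit 1) (nat_lit 0x1c000800380020022000800a603)))))) 
(.nd (nat_lit 8) (.nd (nat_lit 9) (.nd (nat_lit 11) 
(.lf (nat_lit 67130603) (dlOf (nat_lit 1) (nat_lit 0x1400400240008009502))) 
(.lf (nat_lit 469785835) (dlOf (nat_lit 2) (nat_lit 0x30274014020400040020006000800c602)))) 
(.nd (nat_lit 11) (.lf (nat_lit 604001003) (dlOf (nat_lit 1) (nat_lit 0xc0028008e01))) 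
(.lf (nat_lit 6377458411) (dlOf (nat_lit 1) (nat_lit 0x4004000200080e5a02))))) (.nd (nat_lit 9) 
(.nd (nat_lit 10) (.lf (nat_lit 1409827307) (dlOf (nat_lit 1) (nat_lit 0x2c00400020008090d02))) 
(.lf (nat_lit 3556787691) (dlOf (nat_lit 4) (nat_lit 0x80030008940800080180040e04000400c001720200360018003601)))) 
(.lf (nat_lit 2752005099) (dlOf (nat_lit 1) (nat_lit 0x20018002881))))))))) (.nd (nat_lit 28) 
(.nd (nat_lit 5) (.nd (nat_lit 19) (.nd (nat_lit 6) (.nd (nat_lit 20) (.nd (nat_lit 27) 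
(.nd (nat_lit 7) (.nd (nat_lit 22) 
(.lf (nat_lit 2684633099) (dlOf (nat_lit 1) (nat_lit 0xa00280f0081))) 
(.lf (nat_lit 12861451) (dlOf (nat_lit 1) (nat_lit 0x200286e0001)))) 
(.lf (nat_lit 2375819) (dlOf (nat_lit 2) (nat_lit 0x18ebf40001d818150100)))) (.nd (nat_lit 26) 
(.lf (nat_lit 671367179) (dlOf (nat_lit 3) (nat_lit 0x7c04c001d0020012026000e7018170480))) 
(.lf (nat_lit 1812217867) (dlOf (nat_lit 3) (nat_lit 0x80260003e8100010130001ec0800400080030002001c0008180483))))) 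
(.nd (nat_lit 21) (.nd (nat_lit 22) 
(.lf (nat_lit 18104331) (dlOf (nat_lit 1) (nat_lit 0x128008003800200180008910603))) 
(.lf (nat_lit 30687243) (dlOf (nat_lit 2) (nat_lit 0x974200024818e40500)))) (.nd (nat_lit 7) 
(.lf (nat_lit 3424267) (dlOf (nat_lit 1) (nat_lit 0x80004001e0008200002))) 
(.lf (nat_lit 2754891403) (dlOf (nat_lit 1) (nat_lit 0x200180f7181)))))) (.nd (nat_lit 8) 
(.nd (nat_lit 9) (.nd (nat_lit 24) 
(.lf (nat_lit 43270219) (dlOf (nat_lit 1) (nat_lit 0x600292a0001))) 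
(.lf (nat_lit 26493003) (dlOf (nat_lit 1) (nat_lit 0xc00200020008c50682)))) (.nd (nat_lit 7) 
(.lf (nat_lit 3959702091) (dlOf (nat_lit 1) (nat_lit 0x28008000400200040008128d03))) 
(.lf (nat_lit 20206283) (dlOf (nat_lit 1) (nat_lit 0x4002000200089d8c82))))) (.nd (nat_lit 26) 
(.nd (nat_lit 21) 
(.lf (nat_lit 5905858891) (dlOf (nat_lit 1) (nat_lit 0x8008006c00200200008154c83))) 
(.lf (nat_lit 2376011) (dlOf (nat_lit 4) (nat_lit 0x14182e001cc00005e53f003b29b40006610010982e0016c00005253f005129b4000641000198000018a7e00135368000c418007800800d800200260008150603)))) 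
(.nd (nat_lit 11) 
(.lf (nat_lit 6509838667) (dlOf (nat_lit 1) (nat_lit 0x8008006c00200200008154c83))) 
(.lf (nat_lit 2751748427) (dlOf (nat_lit 1) (nat_lit 0x80080004002008e000800ab83))))))) 
(.nd (nat_lit 6) (.nd (nat_lit 7) (.nd (nat_lit 8) (.nd (nat_lit 9) (.nd (nat_lit 20) 
(.lf (nat_lit 2819375115) (dlOf (nat_lit 1) (nat_lit 0x620008250101))) 
(.lf (nat_lit 27017227) (dlOf (nat_lit 2) (nat_lit 0xd9d85009c4ea0018f0100038008006400200180008ca0483)))) 
(.lf (nat_lit 1851915) (dlOf (nat_lit 1) (nat_lit 0x60028150d81)))) (.nd (nat_lit 20) 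
(.lf (nat_lit 51134731) (dlOf (nat_lit 1) (nat_lit 0x80009507401))) 
(.lf (nat_lit 1851659) (dlOf (nat_lit 1) (nat_lit 0x20028150481))))) (.nd (nat_lit 8) 
(.nd (nat_lit 21) (.lf (nat_lit 4362879115) (dlOf (nat_lit 1) (nat_lit 0x90004001a00081a0102))) 
(.lf (nat_lit 23871627) (dlOf (nat_lit 1) (nat_lit 0x248008000400200220008b80103)))) 
(.nd (nat_lit 10) (.lf (nat_lit 8143243) (dlOf (nat_lit 1) (nat_lit 0x400200020008511002))) 
(.lf (nat_lit 8144267) (dlOf (nat_lit 1) (nat_lit 0x4c0028513601)))))) (.nd (nat_lit 7) 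
(.nd (nat_lit 24) (.nd (nat_lit 20) 
(.lf (nat_lit 49037387) (dlOf (nat_lit 1) (nat_lit 0x20029460001))) 
(.lf (nat_lit 10240075) (dlOf (nat_lit 1) (nat_lit 0x104002006200085c0f82)))) (.nd (nat_lit 8) 
(.lf (nat_lit 59523147) (dlOf (nat_lit 5) (nat_lit 0x130cfa002e67c006b2ca00351398019c9a8001560a006067d002a2ca0003641002c99f40244b28000cd0400b667d00952ca0003301001f800800b400200420009800603))) 
(.lf (nat_lit 17580363) (dlOf (nat_lit 1) (nat_lit 0x1800800c0002006000088e0783))))) 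
(.nd (nat_lit 26) 
(.lf (nat_lit 135020747) (dlOf (nat_lit 1) (nat_lit 0x80080004002000200081b0483))) 
(.nd (nat_lit 27) (.lf (nat_lit 4362879179) (dlOf (nat_lit 1) (nat_lit 0x118002007a00081a0482))) 
(.lf (nat_lit 202129611) (dlOf (nat_lit 1) (nat_lit 0x80080004002000200081b0483)))))))) 
(.nd (nat_lit 21) (.nd (nat_lit 6) (.nd (nat_lit 7) (.nd (nat_lit 23) (.nd (nat_lit 19) 
(.lf (nat_lit 1678000171) (dlOf (nat_lit 2) (nat_lit 0x400440011004001c004000e0008130602))) 
(.lf (nat_lit 802859) (dlOf (nat_lit 1) (nat_lit 0x300018020501)))) (.nd (nat_lit 20) 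
(.lf (nat_lit 25444395) (dlOf (nat_lit 2) (nat_lit 0xfaa980006604000800200060008c00602))) 
(.lf (nat_lit 30687275) (dlOf (nat_lit 1) (nat_lit 0x10008000800200020008e40e03))))) 
(.nd (nat_lit 8) (.nd (nat_lit 29) (.nd (nat_lit 32) 
(.lf (nat_lit 1208238251) (dlOf (nat_lit 1) (nat_lit 0xc004000800080a2c82))) 
(.lf (nat_lit 5503205547) (dlOf (nat_lit 1) (nat_lit 0x100080004002000200080a2c83)))) 
(.lf (nat_lit 4966334635) (dlOf (nat_lit 1) (nat_lit 0xc004000200080a2c82)))) (.nd (nat_lit 9) 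
(.lf (nat_lit 1851819) (dlOf (nat_lit 1) (nat_lit 0x320018150781))) 
(.lf (nat_lit 2885961643) (dlOf (nat_lit 2) (nat_lit 0x100d000880000003008011c00200360008144302)))))) 
(.nd (nat_lit 8) (.nd (nat_lit 7) 
(.lf (nat_lit 2349088875) (dlOf (nat_lit 1) (nat_lit 0x14002001000080a1482))) (.nd (nat_lit 24) 
(.lf (nat_lit 281323) (dlOf (nat_lit 1) (nat_lit 0x20018005a01))) 
(.lf (nat_lit 50612971) (dlOf (nat_lit 1) (nat_lit 0x600080028002000200094c5a03))))) 
(.nd (nat_lit 9) (.lf (nat_lit 5905859051) (dlOf (nat_lit 1) (nat_lit 0x120028157d01))) 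
(.lf (nat_lit 1610892267) (dlOf (nat_lit 1) (nat_lit 0x140028092881)))))) (.nd (nat_lit 19) 
(.nd (nat_lit 11) (.nd (nat_lit 6) (.nd (nat_lit 7) 
(.lf (nat_lit 23347755) (dlOf (nat_lit 1) (nat_lit 0x40008b80e81))) 
(.lf (nat_lit 20207275) (dlOf (nat_lit 1) (nat_lit 0x200080010002000400089da003)))) 
(.lf (nat_lit 3424619) (dlOf (nat_lit 3) (nat_lit 0x96e640006604002b7320001f0200360028200701)))) 
(.nd (nat_lit 9) (.lf (nat_lit 20204779) (dlOf (nat_lit 2) (nat_lit 0x2bcf000168189d6500))) 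
(.nd (nat_lit 20) (.lf (nat_lit 40127211) (dlOf (nat_lit 1) (nat_lit 0xa00091f5a01))) 
(.lf (nat_lit 57953003) (dlOf (nat_lit 1) (nat_lit 0x40029795a01)))))) (.nd (nat_lit 7) 
(.nd (nat_lit 23) (.nd (nat_lit 26) 
(.lf (nat_lit 2900011) (dlOf (nat_lit 2) (nat_lit 0x2c000000190181d0600))) 
(.lf (nat_lit 2754363435) (dlOf (nat_lit 1) (nat_lit 0x8002000c00080e0602)))) 
(.lf (nat_lit 11288619) (dlOf (nat_lit 4) (nat_lit 0x62b08002957c00e88080014ac2000255f003a18200072b08002957c00e7408000800400260018680782)))) 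
(.nd (nat_lit 6) (.nd (nat_lit 8) 
(.lf (nat_lit 8144555) (dlOf (nat_lit 1) (nat_lit 0x2620018513a81))) 
(.lf (nat_lit 49039787) (dlOf (nat_lit 1) (nat_lit 0x20009464e81)))) 
(.lf (nat_lit 8145131) (dlOf (nat_lit 1) (nat_lit 0x8008000400200020008514b03)))))))) 
(.nd (nat_lit 27) (.nd (nat_lit 6) (.nd (nat_lit 30) (.nd (nat_lit 5) (.nd (nat_lit 26) 
(.nd (nat_lit 29) 
(.lf (nat_lit 4563681291) (dlOf (nat_lit 6) (nat_lit 0x14019805cd00800280cc02e66040114066014390200c6033009f581005a019804fa40803b8008003c002003200080c0003))) 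
(.lf (nat_lit 2953068555) (dlOf (nat_lit 1) (nat_lit 0x80080004002000200080f0103)))) 
(.lf (nat_lit 3020177419) (dlOf (nat_lit 1) (nat_lit 0x40028150001)))) (.nd (nat_lit 7) 
(.lf (nat_lit 805584939) (dlOf (nat_lit 2) (nat_lit 0x400440011604001c004000e0008130602))) 
(.lf (nat_lit 4563681451) (dlOf (nat_lit 2) (nat_lit 0x1040660002302000c00280c1501))))) 
(.nd (nat_lit 19) (.nd (nat_lit 20) (.nd (nat_lit 29) 
(.lf (nat_lit 1342455819) (dlOf (nat_lit 5) (nat_lit 0x6091c00204780011704000a23c00020e280045410003891c001c478000fb040006247000611e0003dc100360008003c00200ba0008030483))) 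
(.lf (nat_lit 1879326731) (dlOf (nat_lit 1) (nat_lit 0x600280e0001)))) 
(.lf (nat_lit 1343504395) (dlOf (nat_lit 1) (nat_lit 0xc00400020018280082)))) (.nd (nat_lit 5) 
(.lf (nat_lit 1344028683) (dlOf (nat_lit 1) (nat_lit 0x4004000200083a0602))) (.nd (nat_lit 21) 
(.lf (nat_lit 1342980139) (dlOf (nat_lit 10) (nat_lit 0x32e15401a90a880098250000a20c02482a8011a151000278200020aa000138080008550000880400082a80003f0200041540001c0100620aa002a85440006e0801682a800ae1510001b0200050aa00008544000660800b800400240008120c02))) 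
(.lf (nat_lit 3492560939) (dlOf (nat_lit 1) (nat_lit 0x8002000c00080e0602))))))) (.nd (nat_lit 31) 
(.nd (nat_lit 29) (.nd (nat_lit 19) (.nd (nat_lit 22) 
(.lf (nat_lit 1342455883) (dlOf (nat_lit 2) (nat_lit 0x87c00000004002c004000c0008030f82))) 
(.lf (nat_lit 1346650187) (dlOf (nat_lit 2) (nat_lit 0x10074015de04000400200040008fe0002)))) 
(.lf (nat_lit 1342980171) (dlOf (nat_lit 2) (nat_lit 0x8a24900010818121480)))) (.nd (nat_lit 5) 
(.nd (nat_lit 7) (.lf (nat_lit 1880375371) (dlOf (nat_lit 1) (nat_lit 0x7600288c0001))) 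
(.lf (nat_lit 5167661259) (dlOf (nat_lit 1) (nat_lit 0x1800080f1781)))) 
(.lf (nat_lit 5100554859) (dlOf (nat_lit 2) (nat_lit 0x100a800082040010004001200180d5382))))) 
(.nd (nat_lit 5) (.nd (nat_lit 9) 
(.lf (nat_lit 3557054667) (dlOf (nat_lit 1) (nat_lit 0xc6002812a881))) 
(.lf (nat_lit 3557053131) (dlOf (nat_lit 1) (nat_lit 0x8008000c00200040008128c83)))) 
(.nd (nat_lit 7) (.nd (nat_lit 8) 
(.lf (nat_lit 2483306603) (dlOf (nat_lit 1) (nat_lit 0x14002001000080a1482))) 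
(.lf (nat_lit 3494134123) (dlOf (nat_lit 4) (nat_lit 0x100a8000a051000a0228000d0180010114000640400240a80016053000102800007c1800e80080118002001200081b0703)))) 
(.lf (nat_lit 3490988267) (dlOf (nat_lit 1) (nat_lit 0x20018046b81))))))) (.nd (nat_lit 30) 
(.nd (nat_lit 5) (.nd (nat_lit 26) (.nd (nat_lit 29) 
(.lf (nat_lit 4697899019) (dlOf (nat_lit 6) (nat_lit 0x140198057580800280cc02baa040114066014280200c6033009f901005a019804fc00803b8008003c002003200080c0003))) 
(.lf (nat_lit 939802635) (dlOf (nat_lit 3) (nat_lit 0x80260005d8100010130002e40800400080030002001c0008180483)))) 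
(.nd (nat_lit 6) (.nd (nat_lit 19) (.nd (nat_lit 29) 
(.lf (nat_lit 470040587) (dlOf (nat_lit 5) (nat_lit 0x6091c00204780011b04000a23c00020e280046410003891c001c478000fa040006247000611e0003dc100360008003c00200ba0008030483))) 
(.lf (nat_lit 1006911499) (dlOf (nat_lit 1) (nat_lit 0x600280e0001)))) 
(.lf (nat_lit 471613451) (dlOf (nat_lit 1) (nat_lit 0x20028360281)))) 
(.lf (nat_lit 470040651) (dlOf (nat_lit 2) (nat_lit 0x87c00000004002c004000c0008030f82))))) 
(.nd (nat_lit 19) (.nd (nat_lit 7) 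
(.lf (nat_lit 1006911531) (dlOf (nat_lit 1) (nat_lit 0x4004000200080e0a02))) 
(.lf (nat_lit 4697899179) (dlOf (nat_lit 4) (nat_lit 0x8680cc0001004001c06600004020004033000010180c1500)))) 
(.nd (nat_lit 20) 
(.lf (nat_lit 470564907) (dlOf (nat_lit 1) (nat_lit 0x8008008400200040008120d03))) 
(.lf (nat_lit 471613483) (dlOf (nat_lit 1) (nat_lit 0x20028360901)))))) (.nd (nat_lit 7) 
(.nd (nat_lit 6) (.nd (nat_lit 5) (.nd (nat_lit 31) 
(.lf (nat_lit 1543782411) (dlOf (nat_lit 3) (nat_lit 0x7c04c001d0020012026000e7018170480))) 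
(.lf (nat_lit 3691266059) (dlOf (nat_lit 1) (nat_lit 0x1100028110101)))) 
(.lf (nat_lit 1476673579) (dlOf (nat_lit 3) (nat_lit 0x100fc000fc040034000000000200040018100801)))) 
(.nd (nat_lit 26) 
(.lf (nat_lit 5773213771) (dlOf (nat_lit 2) (nat_lit 0x209f000504c40001e080030004001400080b0602))) 
(.lf (nat_lit 6377193547) (dlOf (nat_lit 2) (nat_lit 0x2098800504880001e080030004001400080b0602))))) 
(.nd (nat_lit 11) (.nd (nat_lit 6) 
(.lf (nat_lit 4228661387) (dlOf (nat_lit 1) (nat_lit 0x90004001a00081a0102))) 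
(.lf (nat_lit 4228661451) (dlOf (nat_lit 1) (nat_lit 0x118002007a00081a0482)))) (.nd (nat_lit 8) 
(.lf (nat_lit 6376671883) (dlOf (nat_lit 1) (nat_lit 0x400200020008095482))) 
(.lf (nat_lit 3624160651) (dlOf (nat_lit 1) (nat_lit 0x60008000c002000a0008146c83)))))))))) 
(.nd (nat_lit 18) (.nd (nat_lit 6) (.nd (nat_lit 5) (.nd (nat_lit 27) (.nd (nat_lit 20) 
(.nd (nat_lit 21) (.nd (nat_lit 9) (.nd (nat_lit 7) (.nd (nat_lit 19) 
(.lf (nat_lit 12664843) (dlOf (nat_lit 1) (nat_lit 0xc00086d0681))) 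
(.lf (nat_lit 805912587) (dlOf (nat_lit 1) (nat_lit 0x200081e0681)))) 
(.lf (nat_lit 5972770955) (dlOf (nat_lit 2) (nat_lit 0x7f000000076040028002000e00080b0102)))) 
(.nd (nat_lit 10) 
(.lf (nat_lit 3556854283) (dlOf (nat_lit 2) (nat_lit 0x340920002802000200080d5001))) 
(.lf (nat_lit 9000459) (dlOf (nat_lit 1) (nat_lit 0x800400020008519c02))))) (.nd (nat_lit 7) 
(.nd (nat_lit 8) (.lf (nat_lit 14761995) (dlOf (nat_lit 1) (nat_lit 0x8008000400200020008770003))) 
(.lf (nat_lit 10567947) (dlOf (nat_lit 1) (nat_lit 0x10600285f7d01)))) (.nd (nat_lit 8) 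
(.lf (nat_lit 18956427) (dlOf (nat_lit 1) (nat_lit 0x400200020008970482))) 
(.lf (nat_lit 31541643) (dlOf (nat_lit 1) (nat_lit 0x80028e94e81)))))) (.nd (nat_lit 7) 
(.nd (nat_lit 19) (.nd (nat_lit 22) 
(.lf (nat_lit 1343307787) (dlOf (nat_lit 2) (nat_lit 0x2284bc00c4a040048004002a00081e0482))) 
(.lf (nat_lit 47267851) (dlOf (nat_lit 1) (nat_lit 0xd0002005400093c0002)))) (.nd (nat_lit 8) 
(.lf (nat_lit 3751947) (dlOf (nat_lit 2) (nat_lit 0xcaa2007410200140018220001))) 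
(.lf (nat_lit 58278155) (dlOf (nat_lit 1) (nat_lit 0x3c002000a00097d7402))))) (.nd (nat_lit 9) 
(.nd (nat_lit 22) (.lf (nat_lit 3227787) (dlOf (nat_lit 1) (nat_lit 0x10008001800200040008200103))) 
(.lf (nat_lit 24199307) (dlOf (nat_lit 1) (nat_lit 0x20008001c00200020008b80103)))) 
(.nd (nat_lit 12) (.lf (nat_lit 43075211) (dlOf (nat_lit 1) (nat_lit 0x200292a3a01))) 
(.lf (nat_lit 20534923) (dlOf (nat_lit 1) (nat_lit 0x600289d9e01))))))) (.nd (nat_lit 7) 
(.nd (nat_lit 30) (.nd (nat_lit 19) 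
(.lf (nat_lit 471941131) (dlOf (nat_lit 6) (nat_lit 0x2092000e00100010e600045c080008908000446c00021c00008a830001121000088d800043a000021cc00010e00003ec28003873800000040004004001000086d0582))) 
(.nd (nat_lit 20) (.nd (nat_lit 22) 
(.lf (nat_lit 201932811) (dlOf (nat_lit 1) (nat_lit 0xbc004001a00080c0802))) 
(.lf (nat_lit 474562571) (dlOf (nat_lit 1) (nat_lit 0x1000191a0001)))) 
(.lf (nat_lit 471416843) (dlOf (nat_lit 1) (nat_lit 0x200282f0501))))) (.nd (nat_lit 19) 
(.nd (nat_lit 8) (.lf (nat_lit 3959504907) (dlOf (nat_lit 1) (nat_lit 0x20018090001))) 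
(.lf (nat_lit 4227943691) (dlOf (nat_lit 2) (nat_lit 0x500640001e0200500008006681)))) 
(.nd (nat_lit 26) (.lf (nat_lit 5771968523) (dlOf (nat_lit 1) (nat_lit 0x300018020001))) 
(.lf (nat_lit 6375948299) (dlOf (nat_lit 1) (nat_lit 0x300018020001)))))) (.nd (nat_lit 10) 
(.nd (nat_lit 26) (.nd (nat_lit 28) 
(.lf (nat_lit 6576750731) (dlOf (nat_lit 2) (nat_lit 0x7f000000076040028002000e00080b0102))) 
(.lf (nat_lit 939606155) (dlOf (nat_lit 3) (nat_lit 0x1c0220002501020501300cb008802c404202ec01d01d200e0000ec280508008065800206bc00080b0103)))) 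
(.lf (nat_lit 1812021387) (dlOf (nat_lit 3) (nat_lit 0x1c0220002501020501300cb008802c404202ec01d01d200e0000ec280508008065800206bc00080b0103)))) 
(.nd (nat_lit 9) (.nd (nat_lit 8) 
(.lf (nat_lit 6039884939) (dlOf (nat_lit 1) (nat_lit 0x20018009501))) 
(.lf (nat_lit 4227943819) (dlOf (nat_lit 1) (nat_lit 0x4002000c0008006c82)))) (.nd (nat_lit 26) 
(.lf (nat_lit 4160837259) (dlOf (nat_lit 1) (nat_lit 0x2a0018009e01))) 
(.lf (nat_lit 6643865227) (dlOf (nat_lit 1) (nat_lit 0x1800200020008009e02)))))))) 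
(.nd (nat_lit 30) (.nd (nat_lit 22) (.nd (nat_lit 7) (.nd (nat_lit 27) (.nd (nat_lit 21) 
(.lf (nat_lit 537477163) (dlOf (nat_lit 7) (nat_lit 0x1205f0003681000302f8001900801201640004e0401a40b2000150200c60590000801010402c800000080348008018400200c200080a0983))) 
(.lf (nat_lit 2754166827) (dlOf (nat_lit 3) (nat_lit 0x590fc0000640802d07e00002c0400b4004007200080c0d02)))) 
(.nd (nat_lit 9) (.lf (nat_lit 134823979) (dlOf (nat_lit 1) (nat_lit 0x200080c0c01))) 
(.lf (nat_lit 2281783851) (dlOf (nat_lit 1) (nat_lit 0x60028001481))))) (.nd (nat_lit 10) 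
(.lf (nat_lit 2885770155) (dlOf (nat_lit 1) (nat_lit 0xdc002800bd81))) (.nd (nat_lit 26) 
(.lf (nat_lit 536954795) (dlOf (nat_lit 2) (nat_lit 0x1017c00016040094004000e0008004302))) 
(.lf (nat_lit 4362160043) (dlOf (nat_lit 3) (nat_lit 0x88000000300400300000000b02005c0018004301)))))) 
(.nd (nat_lit 25) (.nd (nat_lit 20) (.nd (nat_lit 21) 
(.lf (nat_lit 21053483) (dlOf (nat_lit 1) (nat_lit 0x1000400060018a00b02))) 
(.lf (nat_lit 14762027) (dlOf (nat_lit 3) (nat_lit 0x2023a80005e0401cd1d40002e02001c0018770381)))) 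
(.lf (nat_lit 13713451) (dlOf (nat_lit 2) (nat_lit 0x1e52100081ed80008f64000640c000c00200060008740602)))) 
(.nd (nat_lit 7) (.lf (nat_lit 46219563) (dlOf (nat_lit 1) (nat_lit 0xa8004001a0009380b02))) 
(.nd (nat_lit 8) (.lf (nat_lit 46221995) (dlOf (nat_lit 1) (nat_lit 0xc0019385681))) 
(.lf (nat_lit 46221739) (dlOf (nat_lit 1) (nat_lit 0x180080020002000c0009384e83))))))) 
(.nd (nat_lit 8) (.nd (nat_lit 28) (.nd (nat_lit 26) (.nd (nat_lit 27) 
(.lf (nat_lit 3221831723) (dlOf (nat_lit 5) (nat_lit 0x17c03e00c000700190030000320c025807c011800e0000c0200d401f006500380324018018e0000000b04009501f004780380002808005c002006e00081a0c02))) 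
(.lf (nat_lit 3892920363) (dlOf (nat_lit 3) (nat_lit 0x2e0160000281000e03000020150007c066008a016002500a003c8014000001800e400400060018290e02)))) 
(.lf (nat_lit 3960029227) (dlOf (nat_lit 3) (nat_lit 0x14807c000190200a203e0000b0181a0d00)))) 
(.nd (nat_lit 19) 
(.lf (nat_lit 1343307819) (dlOf (nat_lit 4) (nat_lit 0x7825e0004b02008c12f000228100190978001080800d800800ac002008000081e0683))) 
(.nd (nat_lit 21) 
(.lf (nat_lit 1409892395) (dlOf (nat_lit 7) (nat_lit 0x1205f0007d01000302f8003c4080120164000460401a40b20000e0200c60590000381010402c800000080348008018400200c200080a0983))) 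
(.lf (nat_lit 3492364331) (dlOf (nat_lit 5) (nat_lit 0x7807980003204023c3cc000180200d01e60000b01007a0f30000500800100080024002005600080c0c03)))))) 
(.nd (nat_lit 7) (.nd (nat_lit 9) (.nd (nat_lit 10) 
(.lf (nat_lit 2013348139) (dlOf (nat_lit 1) (nat_lit 0x140028000b01))) 
(.lf (nat_lit 1409371435) (dlOf (nat_lit 1) (nat_lit 0x8008001c00200040008006803)))) 
(.lf (nat_lit 4160832299) (dlOf (nat_lit 1) (nat_lit 0x140018002201)))) (.nd (nat_lit 9) 
(.nd (nat_lit 10) 
(.lf (nat_lit 5637228971) (dlOf (nat_lit 1) (nat_lit 0x98008000c002000c0008054e83))) 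
(.lf (nat_lit 1342264747) (dlOf (nat_lit 3) (nat_lit 0x51090028e80800088480147204000400400080008009902)))) 
(.lf (nat_lit 5771447211) (dlOf (nat_lit 1) (nat_lit 0x8008001800200040008005d03)))))))) 
(.nd (nat_lit 7) (.nd (nat_lit 26) (.nd (nat_lit 8) (.nd (nat_lit 5) (.nd (nat_lit 20) 
(.nd (nat_lit 21) 
(.lf (nat_lit 3221831755) (dlOf (nat_lit 5) (nat_lit 0x488114005407e0002e0400f6045000160100170230014810c01140800070038000150400660230000900801300080010002000600081a1483))) 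
(.lf (nat_lit 3492364363) (dlOf (nat_lit 3) (nat_lit 0x9c0f38000b808043079c00058040004004000600080c1482)))) 
(.nd (nat_lit 11) (.lf (nat_lit 47792203) (dlOf (nat_lit 1) (nat_lit 0xa0029400001))) 
(.lf (nat_lit 7952459) (dlOf (nat_lit 1) (nat_lit 0xc00040008000851a682))))) (.nd (nat_lit 9) 
(.nd (nat_lit 12) (.lf (nat_lit 2952872043) (dlOf (nat_lit 1) (nat_lit 0x560028010281))) 
(.lf (nat_lit 20009067) (dlOf (nat_lit 1) (nat_lit 0x4004000600089d7d82)))) 
(.lf (nat_lit 1610696299) (dlOf (nat_lit 2) (nat_lit 0x681680008e04005400400020018093902))))) 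
(.nd (nat_lit 28) (.nd (nat_lit 10) (.nd (nat_lit 20) 
(.lf (nat_lit 6576750923) (dlOf (nat_lit 1) (nat_lit 0x400280b0601))) 
(.lf (nat_lit 3227979) (dlOf (nat_lit 1) (nat_lit 0x8008000400200020008200603)))) 
(.lf (nat_lit 609611) (dlOf (nat_lit 1) (nat_lit 0x400400120008006a02)))) (.nd (nat_lit 10) 
(.nd (nat_lit 19) 
(.lf (nat_lit 3087089995) (dlOf (nat_lit 7) (nat_lit 0x80007c02bc02e0005004027401f010f00d807d005c001c0000004f0800ec01f003e00b8001381009b007c045403602020170002683000300f80011c0800c007c00078040060004000400180b0602))) 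
(.lf (nat_lit 1342783819) (dlOf (nat_lit 2) (nat_lit 0x3a118800120080010008000c002000200080c0603)))) 
(.lf (nat_lit 3489746251) (dlOf (nat_lit 1) (nat_lit 0x20028006a01)))))) (.nd (nat_lit 28) 
(.nd (nat_lit 8) (.nd (nat_lit 9) 
(.lf (nat_lit 3960029259) (dlOf (nat_lit 1) (nat_lit 0x200181a1881))) 
(.lf (nat_lit 2348892747) (dlOf (nat_lit 1) (nat_lit 0x20018018d01)))) (.nd (nat_lit 30) 
(.lf (nat_lit 604062027) (dlOf (nat_lit 1) (nat_lit 0xc00400020008010802))) (.nd (nat_lit 31) 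
(.lf (nat_lit 5972771147) (dlOf (nat_lit 1) (nat_lit 0x400280b0601))) 
(.lf (nat_lit 3825287499) (dlOf (nat_lit 7) (nat_lit 0x80007c02bc02e0005704027401f010f00d807d005c001c000000560800ec01f003e00b8001541009b007c045403602020170002a03000300f8001380800c007c00086040060004000400180b0602)))))) 
(.nd (nat_lit 5) (.nd (nat_lit 8) (.nd (nat_lit 10) 
(.lf (nat_lit 474038347) (dlOf (nat_lit 1) (nat_lit 0x1a0029000001))) 
(.lf (nat_lit 469849163) (dlOf (nat_lit 4) (nat_lit 0x103440005c02008808e000603f0000901000582c4000c13a00ae08e002803f000088201b180080104002000e0008009303)))) 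
(.lf (nat_lit 470368587) (dlOf (nat_lit 2) (nat_lit 0x3a11880013c080010008000c002000200080c0603)))) 
(.nd (nat_lit 9) (.nd (nat_lit 11) 
(.lf (nat_lit 474562667) (dlOf (nat_lit 1) (nat_lit 0x38004002400091a0a02))) 
(.lf (nat_lit 469846123) (dlOf (nat_lit 1) (nat_lit 0x14004001a0008004702)))) 
(.lf (nat_lit 469848683) (dlOf (nat_lit 4) (nat_lit 0x621d0052301000210e8029080800108740147804007400400700008008982))))))) 
(.nd (nat_lit 8) (.nd (nat_lit 26) (.nd (nat_lit 5) (.nd (nat_lit 9) (.nd (nat_lit 31) 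
(.lf (nat_lit 939606219) (dlOf (nat_lit 2) (nat_lit 0x580480023c02003600080b0481))) 
(.lf (nat_lit 3087089867) (dlOf (nat_lit 4) (nat_lit 0x1500b80074808002806c010402e006a000000e883000100f8024805c0039e08011c002005600080b0482)))) 
(.lf (nat_lit 20009675) (dlOf (nat_lit 1) (nat_lit 0x4002000200089d8c82)))) (.nd (nat_lit 9) 
(.lf (nat_lit 20010219) (dlOf (nat_lit 2) (nat_lit 0x3b660033f0189d9500))) 
(.lf (nat_lit 57756395) (dlOf (nat_lit 2) (nat_lit 0x32f48000a8080008008000400200020009795a03))))) 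
(.nd (nat_lit 5) (.nd (nat_lit 27) (.nd (nat_lit 30) 
(.lf (nat_lit 604061899) (dlOf (nat_lit 1) (nat_lit 0x400200020008010482))) 
(.lf (nat_lit 3825287371) (dlOf (nat_lit 4) (nat_lit 0x1500b80074808002806c010402e006a000000e883000100f8024805c0039e08011c002005600080b0482)))) 
(.lf (nat_lit 1812021451) (dlOf (nat_lit 2) (nat_lit 0x580480023c02003600080b0481)))) 
(.nd (nat_lit 9) 
(.lf (nat_lit 474562795) (dlOf (nat_lit 2) (nat_lit 0x40ab801bec0800700080004002000400091a1e83))) 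
(.lf (nat_lit 473516779) (dlOf (nat_lit 1) (nat_lit 0x100028f55a01)))))) (.nd (nat_lit 11) 
(.nd (nat_lit 5) (.nd (nat_lit 10) (.nd (nat_lit 26) 
(.lf (nat_lit 4697702859) (dlOf (nat_lit 12) (nat_lit 0xb019800980c8009803c011801d006500a806e0048006001e0003c0e006e0330004019002b007802e403a016401500f00090000e83001100cc00e803c0003904013e03300b100f0000dc1000500d0003403e0002d0400b8034005600f805b005403800240002a0800d80120001201003d01a001f007c021c02a01fa012000118401e600a810900480001808043c0240000b02009601500f800900000010026000801c000200080008091103))) 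
(.lf (nat_lit 2080457163) (dlOf (nat_lit 2) (nat_lit 0x2480e40002804000400400560008091102)))) 
(.lf (nat_lit 1610696139) (dlOf (nat_lit 1) (nat_lit 0x20028093601)))) (.nd (nat_lit 9) 
(.lf (nat_lit 2755740139) (dlOf (nat_lit 1) (nat_lit 0x2800081b0d01))) (.nd (nat_lit 21) 
(.lf (nat_lit 55657451) (dlOf (nat_lit 1) (nat_lit 0x4002000200096d2882))) 
(.lf (nat_lit 36783083) (dlOf (nat_lit 1) (nat_lit 0x4002000e0009072882)))))) (.nd (nat_lit 19) 
(.nd (nat_lit 5) (.nd (nat_lit 21) 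
(.lf (nat_lit 738281931) (dlOf (nat_lit 1) (nat_lit 0x40028094e81))) 
(.lf (nat_lit 6377523659) (dlOf (nat_lit 1) (nat_lit 0x4004000200080e4e82)))) 
(.lf (nat_lit 469851115) (dlOf (nat_lit 9) (nat_lit 0xd0f380295c08006879c014ac04005413a0051502003009d0028701001904e800482380097008005c13a001208e0025b82001704e800482380024048004b506002c09d000a0470012d010028000802ac0020056000800bf03)))) 
(.nd (nat_lit 20) 
(.lf (nat_lit 57231819) (dlOf (nat_lit 4) (nat_lit 0x1399da0168202009cced00afd8100026768000000800c8008003c00200260009794e83))) 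
(.lf (nat_lit 37308875) (dlOf (nat_lit 1) (nat_lit 0x4004000200090d4e82))))))))) (.nd (nat_lit 28) 
(.nd (nat_lit 6) (.nd (nat_lit 26) (.nd (nat_lit 24) (.nd (nat_lit 29) (.nd (nat_lit 5) 
(.nd (nat_lit 7) (.nd (nat_lit 21) 
(.lf (nat_lit 3221569547) (dlOf (nat_lit 1) (nat_lit 0x200008140481))) 
(.lf (nat_lit 2441227) (dlOf (nat_lit 1) (nat_lit 0xe0018160681)))) 
(.lf (nat_lit 1208303755) (dlOf (nat_lit 2) (nat_lit 0x3400c40004804000c004000600180c0f02)))) 
(.nd (nat_lit 8) (.lf (nat_lit 3489835) (dlOf (nat_lit 1) (nat_lit 0x20018200001))) 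
(.lf (nat_lit 46481707) (dlOf (nat_lit 1) (nat_lit 0x8008000400200020009380b03))))) 
(.nd (nat_lit 27) (.nd (nat_lit 5) 
(.lf (nat_lit 537214987) (dlOf (nat_lit 6) (nat_lit 0x14000000a78101870000004ec0801500000027204001006600134020006052000801980018020002540c01ac00400060008060482))) 
(.lf (nat_lit 537215019) (dlOf (nat_lit 1) (nat_lit 0x20028060601)))) (.nd (nat_lit 7) 
(.lf (nat_lit 671432715) (dlOf (nat_lit 1) (nat_lit 0x18008002c00200060008190083))) 
(.lf (nat_lit 1745174667) (dlOf (nat_lit 2) (nat_lit 0x90016000120180c0f00)))))) (.nd (nat_lit 19) 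
(.nd (nat_lit 22) (.nd (nat_lit 8) 
(.lf (nat_lit 26558475) (dlOf (nat_lit 1) (nat_lit 0x8008000400200020008c50003))) 
(.lf (nat_lit 20270859) (dlOf (nat_lit 1) (nat_lit 0x200089d7481)))) (.nd (nat_lit 7) 
(.lf (nat_lit 22364171) (dlOf (nat_lit 1) (nat_lit 0x8008000c00200020008ad0083))) 
(.lf (nat_lit 21315723) (dlOf (nat_lit 4) (nat_lit 0x2028a0012139000809a000483a40006c10002428a0002142000b09c800504d0002c1d2000340a0014145000909c800484d0002c1d20002b08002c0028a30f01))))) 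
(.nd (nat_lit 20) (.nd (nat_lit 5) 
(.lf (nat_lit 53297163) (dlOf (nat_lit 1) (nat_lit 0xa0019580001))) 
(.lf (nat_lit 21839915) (dlOf (nat_lit 1) (nat_lit 0x160028a70501)))) (.nd (nat_lit 21) 
(.lf (nat_lit 27082763) (dlOf (nat_lit 2) (nat_lit 0xa1d140063c0200020018ca0481))) 
(.lf (nat_lit 29179915) (dlOf (nat_lit 1) (nat_lit 0x400200020008dd0602))))))) (.nd (nat_lit 5) 
(.nd (nat_lit 27) (.nd (nat_lit 7) (.nd (nat_lit 32) 
(.lf (nat_lit 67452939) (dlOf (nat_lit 2) (nat_lit 0x28000000c7804011c00200c60008140482))) 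
(.lf (nat_lit 4362420235) (dlOf (nat_lit 1) (nat_lit 0xc0008070501)))) 
(.lf (nat_lit 4899291275) (dlOf (nat_lit 1) (nat_lit 0x4004000200080f0f02)))) (.nd (nat_lit 29) 
(.lf (nat_lit 5570379787) (dlOf (nat_lit 1) (nat_lit 0x400200020008110002))) 
(.lf (nat_lit 3959767051) (dlOf (nat_lit 1) (nat_lit 0x200008140481))))) (.nd (nat_lit 27) 
(.nd (nat_lit 29) 
(.lf (nat_lit 4362420267) (dlOf (nat_lit 9) (nat_lit 0xbc033000090100a302e006b015006e00a6025e0520177023800f010804e80660154032006d01880b000b403680480228018000800b00948000000203801dc08e018c033002701680003c180338160005808e00020420045020800200fc000c0700032036000501a013000cc033406400d40310006018000080bc00040280000e1c03860330000681008e02980002008000817000340a6000e047000018300c2019800000080080008000400202600008070803))) 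
(.lf (nat_lit 1678065707) (dlOf (nat_lit 1) (nat_lit 0x10002000e0008160602)))) (.nd (nat_lit 7) 
(.lf (nat_lit 2349154347) (dlOf (nat_lit 2) (nat_lit 0x27c054032801000500070000e81800b80080048002002200080e0603))) 
(.lf (nat_lit 4496638123) (dlOf (nat_lit 1) (nat_lit 0x80080004002000200080f2c83))))))) 
(.nd (nat_lit 19) (.nd (nat_lit 8) (.nd (nat_lit 21) (.nd (nat_lit 10) (.nd (nat_lit 26) 
(.lf (nat_lit 3892658251) (dlOf (nat_lit 1) (nat_lit 0x40018180681))) 
(.lf (nat_lit 3288678475) (dlOf (nat_lit 1) (nat_lit 0x10004000e00080c1482)))) 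
(.lf (nat_lit 38093899) (dlOf (nat_lit 1) (nat_lit 0x8008000400200020009132883)))) (.nd (nat_lit 7) 
(.lf (nat_lit 35995723) (dlOf (nat_lit 1) (nat_lit 0x320019010001))) 
(.lf (nat_lit 20271819) (dlOf (nat_lit 1) (nat_lit 0x4002000200089d8c82))))) (.nd (nat_lit 5) 
(.nd (nat_lit 7) (.nd (nat_lit 20) 
(.lf (nat_lit 2818916683) (dlOf (nat_lit 1) (nat_lit 0x40028130801))) 
(.lf (nat_lit 3490123) (dlOf (nat_lit 4) (nat_lit 0xfce8a000320202ca745000188100f03a28000c008052800802e400201000008200603)))) 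
(.lf (nat_lit 1074086347) (dlOf (nat_lit 1) (nat_lit 0x400200020008090982)))) 
(.lf (nat_lit 25510251) (dlOf (nat_lit 3) (nat_lit 0x42c38002d60e001c987000120300025870000880800780080014002000a0008c10a03))))) 
(.nd (nat_lit 5) (.nd (nat_lit 7) (.nd (nat_lit 20) 
(.lf (nat_lit 21839947) (dlOf (nat_lit 1) (nat_lit 0x7a0028a70901))) 
(.lf (nat_lit 4014155) (dlOf (nat_lit 1) (nat_lit 0x40018270d01)))) (.nd (nat_lit 10) 
(.lf (nat_lit 8212939) (dlOf (nat_lit 1) (nat_lit 0x20018518681))) 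
(.lf (nat_lit 8209867) (dlOf (nat_lit 1) (nat_lit 0x20018513601))))) (.nd (nat_lit 9) 
(.nd (nat_lit 8) (.lf (nat_lit 69025899) (dlOf (nat_lit 1) (nat_lit 0xc00400020008880a02))) 
(.lf (nat_lit 12403051) (dlOf (nat_lit 1) (nat_lit 0x4004000200086c0702)))) (.nd (nat_lit 10) 
(.lf (nat_lit 47008363) (dlOf (nat_lit 1) (nat_lit 0x140029385381))) 
(.lf (nat_lit 8210027) (dlOf (nat_lit 2) (nat_lit 0x4cdc0002d0200020018513901)))))))) 
(.nd (nat_lit 26) (.nd (nat_lit 6) (.nd (nat_lit 29) (.nd (nat_lit 19) (.nd (nat_lit 7) 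
(.lf (nat_lit 3493152779) (dlOf (nat_lit 2) (nat_lit 0xd4156017608c00bc0458001381800080080008002000c00080f4703))) 
(.lf (nat_lit 5637488779) (dlOf (nat_lit 1) (nat_lit 0x7a00280f0f81)))) (.nd (nat_lit 5) 
(.lf (nat_lit 1346191371) (dlOf (nat_lit 2) (nat_lit 0x42c0002208d00676028e60000))) 
(.lf (nat_lit 1346191403) (dlOf (nat_lit 2) (nat_lit 0x382580001604001400200060008e60282))))) 
(.nd (nat_lit 5) (.nd (nat_lit 7) 
(.lf (nat_lit 6174359563) (dlOf (nat_lit 1) (nat_lit 0x400200020008110002))) 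
(.lf (nat_lit 5100617867) (dlOf (nat_lit 1) (nat_lit 0x20018100f01)))) (.nd (nat_lit 30) 
(.lf (nat_lit 805650475) (dlOf (nat_lit 1) (nat_lit 0x10002000e0008160602))) 
(.lf (nat_lit 1879392299) (dlOf (nat_lit 2) (nat_lit 0x907b80038184000a208000c00200020008120c02)))))) 
(.nd (nat_lit 7) (.nd (nat_lit 8) (.nd (nat_lit 5) 
(.lf (nat_lit 1346191435) (dlOf (nat_lit 10) (nat_lit 0x460d7000ab8101710af8009857805fc1ae00c409b00610458005582803f057c01f81ae000cf0401f615f010206b800338100c7057c06601ae000cd04032015f019606b8003301003f057c01f81ae000cb04001415d0005e81000b06c800000080610008002000200d20008e60603))) 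
(.lf (nat_lit 1881489515) (dlOf (nat_lit 1) (nat_lit 0x20028f11b01)))) (.nd (nat_lit 10) 
(.lf (nat_lit 2953134411) (dlOf (nat_lit 1) (nat_lit 0x1480008160781))) 
(.lf (nat_lit 3490532683) (dlOf (nat_lit 1) (nat_lit 0xe0008006a01))))) (.nd (nat_lit 9) 
(.nd (nat_lit 19) (.lf (nat_lit 402997451) (dlOf (nat_lit 1) (nat_lit 0x1000180c1781))) 
(.lf (nat_lit 5773279435) (dlOf (nat_lit 1) (nat_lit 0x200180c1781)))) (.nd (nat_lit 5) 
(.lf (nat_lit 1879921355) (dlOf (nat_lit 1) (nat_lit 0x14002000200083d8c82))) 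
(.lf (nat_lit 1345669867) (dlOf (nat_lit 1) (nat_lit 0x8008000400200020008dd5a03))))))) 
(.nd (nat_lit 27) (.nd (nat_lit 5) (.nd (nat_lit 7) (.nd (nat_lit 11) (.nd (nat_lit 19) 
(.lf (nat_lit 1409630219) (dlOf (nat_lit 6) (nat_lit 0x14000000f001018700000073008015000000394040010066001c5020006052000801980018020003760c01ac00400060008060482))) 
(.lf (nat_lit 4096606219) (dlOf (nat_lit 1) (nat_lit 0x20018140a01)))) 
(.lf (nat_lit 1410156555) (dlOf (nat_lit 3) (nat_lit 0x260530002a01017402f8001380801600080d60002011c00080f4703)))) 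
(.nd (nat_lit 6) 
(.lf (nat_lit 6241468555) (dlOf (nat_lit 4) (nat_lit 0x3a02700060128000d810004009c000680400cc0000003202008c00280f0f01))) 
(.lf (nat_lit 1946501579) (dlOf (nat_lit 1) (nat_lit 0x400200020008090982))))) (.nd (nat_lit 6) 
(.nd (nat_lit 30) 
(.lf (nat_lit 2483372075) (dlOf (nat_lit 2) (nat_lit 0x27c054032801000500070001041800b80080048002002200080e0603))) 
(.lf (nat_lit 1409630251) (dlOf (nat_lit 1) (nat_lit 0x20028060601)))) 
(.lf (nat_lit 3557114219) (dlOf (nat_lit 1) (nat_lit 0x7c004000c0008130a02))))) (.nd (nat_lit 30) 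
(.nd (nat_lit 5) (.nd (nat_lit 6) 
(.lf (nat_lit 2617589771) (dlOf (nat_lit 19) (nat_lit 0x508034002ba0400e401a0015c02002402c00aa0150043809c0230044018801f002c00e0068003403640140015910012802a005b01380328088066c03e012600d00b10050005603006500b0014401a0015004008002c000a78100010160005100800800b00028604008405800d200d000a08200cc016004f00340028008003805800cc00d0009f82009c016004780340027808000c0580013a02011802c014b0150036807c03800140013808012202a001c00f803180280026e0c00500540013602000c02c0009a8100030150004d0080310008015c00200900008100083))) 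
(.nd (nat_lit 7) 
(.lf (nat_lit 3154460747) (dlOf (nat_lit 2) (nat_lit 0x80640004a04012800200d000081a0682))) 
(.lf (nat_lit 1007506123) (dlOf (nat_lit 1) (nat_lit 0x8002000200083d8c82))))) (.nd (nat_lit 7) 
(.lf (nat_lit 2617589803) (dlOf (nat_lit 10) (nat_lit 0x1001a01bcc02000802c00de18100250160009003403784080244040000c00a00ddd82000a005006ee40801f80b0046001a01b630402e202c014d006806d34100b300b004cc01a01b3704000802c008a0100000001008e00080ad800202800008100783))) 
(.lf (nat_lit 473778603) (dlOf (nat_lit 1) (nat_lit 0x40028fa4e81))))) (.nd (nat_lit 6) 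
(.nd (nat_lit 5) (.nd (nat_lit 29) 
(.lf (nat_lit 1543847947) (dlOf (nat_lit 1) (nat_lit 0x18008002c00200060008190083))) 
(.lf (nat_lit 4228202507) (dlOf (nat_lit 1) (nat_lit 0xc0008070501)))) 
(.lf (nat_lit 4228202539) (dlOf (nat_lit 3) (nat_lit 0x14040000080100100190000380800e8008008800200220008070903)))) 
(.nd (nat_lit 7) (.lf (nat_lit 3691331915) (dlOf (nat_lit 1) (nat_lit 0x840008160781))) 
(.lf (nat_lit 3691331787) (dlOf (nat_lit 1) (nat_lit 0x420008160481))))))))))) (.nd (nat_lit 5) 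
(.nd (nat_lit 6) (.nd (nat_lit 18) (.nd (nat_lit 16) (.nd (nat_lit 27) (.nd (nat_lit 30) 
(.nd (nat_lit 20) (.nd (nat_lit 7) (.nd (nat_lit 19) (.nd (nat_lit 9) 
(.lf (nat_lit 2952937483) (dlOf (nat_lit 1) (nat_lit 0x8008000400200020008030003))) 
(.lf (nat_lit 805457419) (dlOf (nat_lit 1) (nat_lit 0x100028117001)))) (.nd (nat_lit 22) 
(.lf (nat_lit 67780619) (dlOf (nat_lit 1) (nat_lit 0x600182e0501))) 
(.lf (nat_lit 21643275) (dlOf (nat_lit 1) (nat_lit 0x400200020008a50082))))) (.nd (nat_lit 10) 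
(.lf (nat_lit 2244747) (dlOf (nat_lit 2) (nat_lit 0x50e880028700001432a000a04f0001d848150100))) 
(.lf (nat_lit 148619) (dlOf (nat_lit 1) (nat_lit 0x1c0018002b01))))) (.nd (nat_lit 19) 
(.nd (nat_lit 8) (.nd (nat_lit 9) 
(.lf (nat_lit 47333387) (dlOf (nat_lit 1) (nat_lit 0xc00093d0081))) 
(.lf (nat_lit 11682315) (dlOf (nat_lit 2) (nat_lit 0x6f38c40375c5e01bedea809b6f40002ca100030004001a00086c0d82)))) 
(.lf (nat_lit 11682059) (dlOf (nat_lit 1) (nat_lit 0x80080004002000200086c0483)))) (.nd (nat_lit 7) 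
(.lf (nat_lit 58343435) (dlOf (nat_lit 2) (nat_lit 0x3ccf8001e665000f2c9802b6c1800280080010002001200097e0003))) 
(.lf (nat_lit 12206219) (dlOf (nat_lit 1) (nat_lit 0x18002000200086c0102)))))) (.nd (nat_lit 28) 
(.nd (nat_lit 7) (.nd (nat_lit 26) (.nd (nat_lit 29) 
(.lf (nat_lit 5368856587) (dlOf (nat_lit 3) (nat_lit 0x8800a01bc902003801500da5818040000))) 
(.lf (nat_lit 1610760203) (dlOf (nat_lit 1) (nat_lit 0x980008090001)))) 
(.lf (nat_lit 3288481803) (dlOf (nat_lit 1) (nat_lit 0x60018030481)))) (.nd (nat_lit 8) 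
(.lf (nat_lit 1610761867) (dlOf (nat_lit 2) (nat_lit 0xc02d0000b0080048008000c00200040008093a03))) 
(.lf (nat_lit 1610760587) (dlOf (nat_lit 1) (nat_lit 0x1c00400080008091002))))) (.nd (nat_lit 29) 
(.nd (nat_lit 19) (.lf (nat_lit 1346519051) (dlOf (nat_lit 1) (nat_lit 0x400200100008f80002))) 
(.lf (nat_lit 1342849035) (dlOf (nat_lit 1) (nat_lit 0x200180f0081)))) (.nd (nat_lit 7) 
(.lf (nat_lit 4026679307) (dlOf (nat_lit 1) (nat_lit 0x60018030481))) 
(.lf (nat_lit 4094839179) (dlOf (nat_lit 1) (nat_lit 0x14c00400060008054e82))))))) 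
(.nd (nat_lit 29) (.nd (nat_lit 8) (.nd (nat_lit 26) (.nd (nat_lit 19) 
(.lf (nat_lit 5503074315) (dlOf (nat_lit 3) (nat_lit 0x8800a0185002003801500bf1818040000))) 
(.lf (nat_lit 134889483) (dlOf (nat_lit 3) (nat_lit 0x8094012602f0003f8200020178001640800900080028002004a00080d0483)))) 
(.nd (nat_lit 28) 
(.lf (nat_lit 201998347) (dlOf (nat_lit 3) (nat_lit 0x8094012602f0003f82000201780015c0800900080028002004a00080d0483))) 
(.lf (nat_lit 470433803) (dlOf (nat_lit 1) (nat_lit 0x200180f0081))))) (.nd (nat_lit 7) 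
(.lf (nat_lit 4429332747) (dlOf (nat_lit 1) (nat_lit 0x20028090481))) (.nd (nat_lit 9) 
(.lf (nat_lit 1543654795) (dlOf (nat_lit 3) (nat_lit 0x900c8007000c00200000001906000a019000700180010000000300c000c00400020018146c82))) 
(.lf (nat_lit 2617398155) (dlOf (nat_lit 1) (nat_lit 0x580080020002002a00080a9003)))))) 
(.nd (nat_lit 31) (.nd (nat_lit 7) (.nd (nat_lit 26) 
(.lf (nat_lit 4966203403) (dlOf (nat_lit 1) (nat_lit 0xa0018040001))) 
(.lf (nat_lit 5033312267) (dlOf (nat_lit 1) (nat_lit 0xa0018040001)))) 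
(.lf (nat_lit 5234638987) (dlOf (nat_lit 3) (nat_lit 0x3e0200001b010010016800800a80006408001400400100018070f02)))) 
(.nd (nat_lit 8) (.nd (nat_lit 9) 
(.lf (nat_lit 3959576587) (dlOf (nat_lit 2) (nat_lit 0x10202f0000001811a600))) 
(.lf (nat_lit 3959577099) (dlOf (nat_lit 3) (nat_lit 0x17e02f005fe010041017802ca80803a0008048c00200c0000811b283)))) 
(.lf (nat_lit 3154264331) (dlOf (nat_lit 1) (nat_lit 0x3400400040008147402))))))) (.nd (nat_lit 30) 
(.nd (nat_lit 31) (.nd (nat_lit 19) (.nd (nat_lit 23) (.nd (nat_lit 20) 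
(.lf (nat_lit 939737099) (dlOf (nat_lit 2) (nat_lit 0xb0058000000800700080020002002a0008160483))) 
(.lf (nat_lit 18038795) (dlOf (nat_lit 1) (nat_lit 0x400400020008900582)))) (.nd (nat_lit 8) 
(.lf (nat_lit 30621707) (dlOf (nat_lit 1) (nat_lit 0x8008000800200020008e40503))) 
(.lf (nat_lit 28524811) (dlOf (nat_lit 1) (nat_lit 0x1c00400020008da0702))))) (.nd (nat_lit 20) 
(.nd (nat_lit 21) 
(.lf (nat_lit 21708811) (dlOf (nat_lit 5) (nat_lit 0x7076a80313b500163da600a0ed20008750c01a961400bbb540021da8000fed30035281801776a80037b500027da6006a3030015ec800334c0800a8008004800200660008a60a03))) 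
(.lf (nat_lit 11223051) (dlOf (nat_lit 1) (nat_lit 0x40008670081)))) (.nd (nat_lit 10) 
(.lf (nat_lit 22757387) (dlOf (nat_lit 1) (nat_lit 0x20028b20081))) 
(.lf (nat_lit 54217739) (dlOf (nat_lit 1) (nat_lit 0x8002003a0009655f82)))))) (.nd (nat_lit 7) 
(.nd (nat_lit 8) (.nd (nat_lit 20) (.nd (nat_lit 28) 
(.lf (nat_lit 6442663947) (dlOf (nat_lit 1) (nat_lit 0xc0028130481))) 
(.lf (nat_lit 2953003019) (dlOf (nat_lit 1) (nat_lit 0x3c0008080481)))) 
(.lf (nat_lit 2752725003) (dlOf (nat_lit 1) (nat_lit 0x20008030481)))) 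
(.lf (nat_lit 2818792203) (dlOf (nat_lit 2) (nat_lit 0x801a0029440801d80080048002006e000812b983)))) 
(.nd (nat_lit 8) (.nd (nat_lit 12) 
(.lf (nat_lit 2147696779) (dlOf (nat_lit 2) (nat_lit 0x7005000000040080004000600080c0f02))) 
(.lf (nat_lit 2818789515) (dlOf (nat_lit 1) (nat_lit 0x30008011400200140008127d83)))) 
(.nd (nat_lit 9) (.lf (nat_lit 2349023627) (dlOf (nat_lit 1) (nat_lit 0x60028090781))) 
(.lf (nat_lit 2281919371) (dlOf (nat_lit 1) (nat_lit 0x4004000200080a9002))))))) (.nd (nat_lit 27) 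
(.nd (nat_lit 31) (.nd (nat_lit 8) (.nd (nat_lit 19) 
(.lf (nat_lit 5704466443) (dlOf (nat_lit 2) (nat_lit 0x801b00010058037b01000480080020002000400080a0a03))) 
(.nd (nat_lit 20) (.lf (nat_lit 1345011723) (dlOf (nat_lit 1) (nat_lit 0x18004001200089d0102))) 
(.lf (nat_lit 1343963147) (dlOf (nat_lit 2) (nat_lit 0x80b2800124080088008000400200140008380503))))) 
(.lf (nat_lit 1611350283) (dlOf (nat_lit 1) (nat_lit 0x20018133a01)))) (.nd (nat_lit 7) 
(.nd (nat_lit 9) (.lf (nat_lit 3490922507) (dlOf (nat_lit 1) (nat_lit 0x20008030481))) 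
(.lf (nat_lit 4026745355) (dlOf (nat_lit 2) (nat_lit 0x3fc03601b10158005941005a0008007000200040008090d83)))) 
(.nd (nat_lit 26) 
(.lf (nat_lit 4026745227) (dlOf (nat_lit 1) (nat_lit 0x50008002c00200100008090783))) 
(.lf (nat_lit 3288547723) (dlOf (nat_lit 1) (nat_lit 0x58008002800200140008090783)))))) 
(.nd (nat_lit 26) (.nd (nat_lit 7) (.nd (nat_lit 29) 
(.lf (nat_lit 1476608011) (dlOf (nat_lit 2) (nat_lit 0xc80580000004013c002003600080a0482))) 
(.lf (nat_lit 6308446219) (dlOf (nat_lit 2) (nat_lit 0x801b00010058025201000480080020002000400080a0a03)))) 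
(.lf (nat_lit 5771577739) (dlOf (nat_lit 1) (nat_lit 0x240028004e81)))) (.nd (nat_lit 29) 
(.nd (nat_lit 31) (.lf (nat_lit 5838684171) (dlOf (nat_lit 1) (nat_lit 0xc0028130481))) 
(.lf (nat_lit 3691200523) (dlOf (nat_lit 2) (nat_lit 0xe0020000380802c00080160002004000080a0483)))) 
(.nd (nat_lit 7) 
(.lf (nat_lit 1812152331) (dlOf (nat_lit 2) (nat_lit 0xb0058000000800700080020002002a0008160483))) 
(.lf (nat_lit 6376606347) (dlOf (nat_lit 1) (nat_lit 0x8008000400200020008095483))))))))) 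
(.nd (nat_lit 19) (.nd (nat_lit 16) (.nd (nat_lit 22) (.nd (nat_lit 26) (.nd (nat_lit 20) 
(.nd (nat_lit 7) (.nd (nat_lit 21) 
(.lf (nat_lit 537280523) (dlOf (nat_lit 1) (nat_lit 0x20028070501))) 
(.lf (nat_lit 2506763) (dlOf (nat_lit 1) (nat_lit 0x21c00400ba0008160682)))) 
(.lf (nat_lit 8803467) (dlOf (nat_lit 1) (nat_lit 0x100008519501)))) (.nd (nat_lit 23) 
(.lf (nat_lit 1343635467) (dlOf (nat_lit 1) (nat_lit 0x200282d0281))) 
(.lf (nat_lit 26624011) (dlOf (nat_lit 1) (nat_lit 0x48008000400200140008c50003))))) 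
(.nd (nat_lit 28) (.nd (nat_lit 7) (.nd (nat_lit 8) 
(.lf (nat_lit 2349219851) (dlOf (nat_lit 5) (nat_lit 0x1406800080330006018800080b8015be100008068000a0330007018800300b8015bc100008068000c033000a018800400b8015b810000c06800080330009018800400b8015b4100004004000600081c0682))) 
(.lf (nat_lit 1678131467) (dlOf (nat_lit 1) (nat_lit 0x128004005a00081a0482)))) 
(.lf (nat_lit 2755022219) (dlOf (nat_lit 1) (nat_lit 0x4400080f6c81)))) (.nd (nat_lit 27) 
(.nd (nat_lit 30) 
(.lf (nat_lit 2483437579) (dlOf (nat_lit 5) (nat_lit 0x1406800080330006018800080b000ac8100008068000a0330007018800300b000ac6100008068000c033000a018800400b000ac210000c06800080330009018800400b000abe100004004000600081c0682))) 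
(.lf (nat_lit 1409695755) (dlOf (nat_lit 1) (nat_lit 0x20028070501)))) 
(.lf (nat_lit 3154526219) (dlOf (nat_lit 2) (nat_lit 0x200b400f20040031e0281f0480)))))) 
(.nd (nat_lit 7) (.nd (nat_lit 20) (.nd (nat_lit 26) (.nd (nat_lit 31) 
(.lf (nat_lit 1346781195) (dlOf (nat_lit 1) (nat_lit 0x100019000001))) 
(.lf (nat_lit 3494264843) (dlOf (nat_lit 2) (nat_lit 0x25800000000040080002001e00081e0082)))) 
(.lf (nat_lit 2756067339) (dlOf (nat_lit 2) (nat_lit 0x25800000000040080002001e00081e0082)))) 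
(.nd (nat_lit 23) (.lf (nat_lit 24526859) (dlOf (nat_lit 1) (nat_lit 0x20028ba0001))) 
(.lf (nat_lit 16138251) (dlOf (nat_lit 1) (nat_lit 0x20028870101))))) (.nd (nat_lit 8) 
(.lf (nat_lit 21381259) (dlOf (nat_lit 6) (nat_lit 0xaaed5002176a000ebb4c0077da40038ea18000d82802af6a802dfb500065da6002fed20000d42001476a8000fb500003404015fdaa0047ed40020769800e3b48007dd430001585001ded5000028080c70008039c002011a0008a30f03))) 
(.lf (nat_lit 46549899) (dlOf (nat_lit 1) (nat_lit 0x400400020009385c82)))))) (.nd (nat_lit 20) 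
(.nd (nat_lit 21) (.nd (nat_lit 27) (.nd (nat_lit 7) 
(.lf (nat_lit 55001099) (dlOf (nat_lit 2) (nat_lit 0x1129c023be04012c00400680009680002))) 
(.lf (nat_lit 477323) (dlOf (nat_lit 1) (nat_lit 0x960008004801)))) (.nd (nat_lit 26) 
(.lf (nat_lit 3624353803) (dlOf (nat_lit 1) (nat_lit 0x4004000c0008170482))) 
(.lf (nat_lit 2886156299) (dlOf (nat_lit 1) (nat_lit 0x4004000c0008170482))))) (.nd (nat_lit 22) 
(.lf (nat_lit 2572299) (dlOf (nat_lit 2) (nat_lit 0x3e5238033a8080170008029c00200120008170003))) 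
(.lf (nat_lit 15155211) (dlOf (nat_lit 2) (nat_lit 0x3b86ac0179e040010002000400087c0482))))) 
(.nd (nat_lit 31) (.nd (nat_lit 21) 
(.lf (nat_lit 9912331) (dlOf (nat_lit 1) (nat_lit 0x8008000400200020008590083))) 
(.lf (nat_lit 3620875) (dlOf (nat_lit 1) (nat_lit 0x60008008800200560008210683)))) 
(.nd (nat_lit 26) 
(.lf (nat_lit 3491184651) (dlOf (nat_lit 1) (nat_lit 0x20008000800200060008070503))) 
(.lf (nat_lit 2752987147) (dlOf (nat_lit 1) (nat_lit 0x20008000800200060008070503))))))) 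
(.nd (nat_lit 7) (.nd (nat_lit 21) (.nd (nat_lit 16) (.nd (nat_lit 20) 
(.lf (nat_lit 3557703691) (dlOf (nat_lit 1) (nat_lit 0x200082c0001))) 
(.lf (nat_lit 39731211) (dlOf (nat_lit 1) (nat_lit 0xc004000e00091e0102)))) (.nd (nat_lit 20) 
(.lf (nat_lit 17776651) (dlOf (nat_lit 1) (nat_lit 0x8004000400088f0502))) 
(.lf (nat_lit 23019531) (dlOf (nat_lit 3) (nat_lit 0x1c58200054c08000ac10002a0040018004000e0008b40082))))) 
(.nd (nat_lit 28) (.nd (nat_lit 16) (.nd (nat_lit 22) 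
(.lf (nat_lit 11419659) (dlOf (nat_lit 1) (nat_lit 0x200186a0501))) 
(.lf (nat_lit 15613963) (dlOf (nat_lit 1) (nat_lit 0x400400020018810282)))) 
(.lf (nat_lit 25116683) (dlOf (nat_lit 1) (nat_lit 0x8008000400200020008be0803)))) (.nd (nat_lit 8) 
(.nd (nat_lit 9) (.lf (nat_lit 3492693003) (dlOf (nat_lit 1) (nat_lit 0x200080f2881))) 
(.lf (nat_lit 1345210891) (dlOf (nat_lit 2) (nat_lit 0x400000014018b05000)))) 
(.lf (nat_lit 3492693771) (dlOf (nat_lit 4) (nat_lit 0xa00cc0001902003e0660000b0100170200000500800080080018002000600080f3b83)))))) 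
(.nd (nat_lit 20) (.nd (nat_lit 8) (.nd (nat_lit 10) 
(.lf (nat_lit 6376341643) (dlOf (nat_lit 1) (nat_lit 0x80080014002001c0008090383))) 
(.lf (nat_lit 472794251) (dlOf (nat_lit 1) (nat_lit 0x20028b02b01)))) (.nd (nat_lit 11) 
(.lf (nat_lit 5772296587) (dlOf (nat_lit 3) (nat_lit 0x102620008130000b00200040978002700801380080064002000c0008091003))) 
(.lf (nat_lit 57559435) (dlOf (nat_lit 1) (nat_lit 0x1c00400060009794e82))))) (.nd (nat_lit 21) 
(.nd (nat_lit 16) (.nd (nat_lit 22) 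
(.lf (nat_lit 6377324683) (dlOf (nat_lit 1) (nat_lit 0x600080c0f01))) 
(.lf (nat_lit 6176907) (dlOf (nat_lit 1) (nat_lit 0x400400020008420482)))) 
(.lf (nat_lit 2048139) (dlOf (nat_lit 1) (nat_lit 0x10008001800200040008150103)))) (.nd (nat_lit 8) 
(.lf (nat_lit 12468363) (dlOf (nat_lit 1) (nat_lit 0x20008000c002000400086c0103))) 
(.lf (nat_lit 54413707) (dlOf (nat_lit 1) (nat_lit 0x4800400080019654e82))))))))) (.nd (nat_lit 18) 
(.nd (nat_lit 28) (.nd (nat_lit 24) (.nd (nat_lit 26) (.nd (nat_lit 27) (.nd (nat_lit 9) 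
(.nd (nat_lit 8) 
(.lf (nat_lit 5368856651) (dlOf (nat_lit 3) (nat_lit 0xd8015004400a002e804c00b002200da010006f00700340014000c21c018c02a0078014005400980118044019002000a600e000e00280018038026800800ec00200600008040503))) 
(.nd (nat_lit 10) 
(.lf (nat_lit 13779275) (dlOf (nat_lit 1) (nat_lit 0x10008000400200020008750803))) 
(.lf (nat_lit 40518987) (dlOf (nat_lit 1) (nat_lit 0x3a00291f3301))))) (.nd (nat_lit 7) 
(.nd (nat_lit 16) (.lf (nat_lit 9585227) (dlOf (nat_lit 2) (nat_lit 0x3074c0000f018578d00))) 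
(.lf (nat_lit 9650763) (dlOf (nat_lit 2) (nat_lit 0x1e874c0000f018578d00)))) 
(.lf (nat_lit 216779) (dlOf (nat_lit 1) (nat_lit 0x400400020008007302))))) (.nd (nat_lit 30) 
(.nd (nat_lit 8) 
(.lf (nat_lit 134889547) (dlOf (nat_lit 2) (nat_lit 0x1a80620005602000e00280d0d01))) 
(.lf (nat_lit 134368587) (dlOf (nat_lit 1) (nat_lit 0x20028006a01)))) (.nd (nat_lit 16) 
(.lf (nat_lit 5503074379) (dlOf (nat_lit 3) (nat_lit 0xd8015004400a002e804c00b002200da010006f00700340014000d41c018c02a0078014005400980118044019002000a600e000e0028001a438026800800ec00200600008040503))) 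
(.lf (nat_lit 5503139915) (dlOf (nat_lit 1) (nat_lit 0x14a0018090001)))))) (.nd (nat_lit 7) 
(.nd (nat_lit 19) (.nd (nat_lit 9) 
(.lf (nat_lit 604127307) (dlOf (nat_lit 1) (nat_lit 0x40008030681))) 
(.lf (nat_lit 4362224203) (dlOf (nat_lit 1) (nat_lit 0x9c00400260008018d02)))) (.nd (nat_lit 27) 
(.lf (nat_lit 1678393419) (dlOf (nat_lit 1) (nat_lit 0x8008000c00200180008201883))) 
(.lf (nat_lit 201998411) (dlOf (nat_lit 2) (nat_lit 0x1a80620004f02000e00280d0d01))))) 
(.nd (nat_lit 9) (.nd (nat_lit 8) (.nd (nat_lit 16) 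
(.lf (nat_lit 2885828811) (dlOf (nat_lit 1) (nat_lit 0x7a00180b0481))) 
(.lf (nat_lit 1275281611) (dlOf (nat_lit 1) (nat_lit 0x44004000c00080c1782)))) 
(.lf (nat_lit 2753774027) (dlOf (nat_lit 3) (nat_lit 0x70e98000f808004074c000000401c000200060008090982)))) 
(.nd (nat_lit 10) (.nd (nat_lit 11) 
(.lf (nat_lit 3959571403) (dlOf (nat_lit 5) (nat_lit 0x880178046300800480bc022c204005005e0116002002c02f008af018112880))) 
(.lf (nat_lit 738347979) (dlOf (nat_lit 1) (nat_lit 0x800200040008095d82)))) 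
(.lf (nat_lit 3959576523) (dlOf (nat_lit 1) (nat_lit 0x2001811a601))))))) (.nd (nat_lit 16) 
(.nd (nat_lit 9) (.nd (nat_lit 10) (.nd (nat_lit 21) 
(.lf (nat_lit 25313355) (dlOf (nat_lit 19) (nat_lit 0x1d0c8a8160e1bc000a608074f22a05f786f0002902003cc8a816161bc000a2080b0b0de0005002029986f0002781006dc380001380814a645808330e00004d0400ef91600b7c380001301006661c00009604014f242075f916033cc380001241807be1c00009004120f22c086187000023820326c8b01abe1c00008c080c0722c05c38700002282021cc8b0104e1c00008808012722c00f187000021820013c8b00006808085e45803e30e0000000400100028bf0d01))) 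
(.lf (nat_lit 52576331) (dlOf (nat_lit 1) (nat_lit 0x20019550601)))) 
(.lf (nat_lit 55198795) (dlOf (nat_lit 1) (nat_lit 0x28008000c002000600096d2883)))) 
(.nd (nat_lit 7) (.lf (nat_lit 20597579) (dlOf (nat_lit 1) (nat_lit 0x4002000200089d5c02))) 
(.nd (nat_lit 8) (.lf (nat_lit 20075211) (dlOf (nat_lit 1) (nat_lit 0x80080004002000200089d8c83))) 
(.lf (nat_lit 20073419) (dlOf (nat_lit 1) (nat_lit 0x4004000200189d5d82)))))) (.nd (nat_lit 19) 
(.nd (nat_lit 20) (.nd (nat_lit 23) 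
(.lf (nat_lit 56836171) (dlOf (nat_lit 1) (nat_lit 0xac0019770601))) 
(.lf (nat_lit 31670347) (dlOf (nat_lit 1) (nat_lit 0x50008004400200280008e90003)))) 
(.nd (nat_lit 7) (.lf (nat_lit 22233419) (dlOf (nat_lit 1) (nat_lit 0x400400020008ab8002))) 
(.lf (nat_lit 20140747) (dlOf (nat_lit 1) (nat_lit 0x80080004002000200089d8c83))))) 
(.nd (nat_lit 10) (.lf (nat_lit 53166155) (dlOf (nat_lit 1) (nat_lit 0x400400020009570002))) 
(.nd (nat_lit 12) (.lf (nat_lit 32195659) (dlOf (nat_lit 1) (nat_lit 0x20028ef2881))) 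
(.lf (nat_lit 20665419) (dlOf (nat_lit 2) (nat_lit 0x3f52d8001a40800080080008002000200089d9303)))))))) 
(.nd (nat_lit 30) (.nd (nat_lit 29) (.nd (nat_lit 26) (.nd (nat_lit 7) (.nd (nat_lit 27) 
(.lf (nat_lit 2416066635) (dlOf (nat_lit 1) (nat_lit 0x800200020008030f82))) 
(.lf (nat_lit 2550284363) (dlOf (nat_lit 1) (nat_lit 0x800200020008030f82)))) 
(.lf (nat_lit 268651467) (dlOf (nat_lit 1) (nat_lit 0x180080008002000200080e5d83)))) 
(.nd (nat_lit 9) (.nd (nat_lit 27) 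
(.lf (nat_lit 4630659147) (dlOf (nat_lit 1) (nat_lit 0x400400020008040502))) 
(.lf (nat_lit 4764876875) (dlOf (nat_lit 1) (nat_lit 0x400400020008040502)))) 
(.lf (nat_lit 469910091) (dlOf (nat_lit 1) (nat_lit 0x24004000c0008018d02))))) (.nd (nat_lit 26) 
(.nd (nat_lit 8) (.nd (nat_lit 19) (.nd (nat_lit 31) 
(.lf (nat_lit 5100421195) (dlOf (nat_lit 1) (nat_lit 0x300080014002000e0008070603))) 
(.lf (nat_lit 2952937547) (dlOf (nat_lit 4) (nat_lit 0x3bc008000320201de0040000b81003800200005008029000800e400200aa0008030683)))) 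
(.lf (nat_lit 805978187) (dlOf (nat_lit 2) (nat_lit 0x4181580002604000400400180008201482)))) 
(.lf (nat_lit 805457227) (dlOf (nat_lit 1) (nat_lit 0x580028116a01)))) (.nd (nat_lit 16) 
(.lf (nat_lit 5167530059) (dlOf (nat_lit 1) (nat_lit 0x60028080501))) 
(.lf (nat_lit 1007894603) (dlOf (nat_lit 1) (nat_lit 0x20018840601)))))) (.nd (nat_lit 8) 
(.nd (nat_lit 7) (.nd (nat_lit 16) (.nd (nat_lit 19) 
(.lf (nat_lit 1346519115) (dlOf (nat_lit 1) (nat_lit 0x1f000200a20008f80602))) 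
(.lf (nat_lit 4228530251) (dlOf (nat_lit 2) (nat_lit 0x2032000098180f1480)))) 
(.lf (nat_lit 5773148235) (dlOf (nat_lit 1) (nat_lit 0x15400280a1681)))) (.nd (nat_lit 9) 
(.lf (nat_lit 3624026315) (dlOf (nat_lit 1) (nat_lit 0x7a00180b0481))) 
(.lf (nat_lit 3556987595) (dlOf (nat_lit 1) (nat_lit 0x9c80080044002009a0008128c83))))) 
(.nd (nat_lit 10) (.nd (nat_lit 7) (.nd (nat_lit 9) 
(.lf (nat_lit 5774131531) (dlOf (nat_lit 1) (nat_lit 0x400200020008108802))) 
(.lf (nat_lit 4094905163) (dlOf (nat_lit 1) (nat_lit 0x400400de0008055c02)))) 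
(.lf (nat_lit 3491905995) (dlOf (nat_lit 1) (nat_lit 0x40028090981)))) (.nd (nat_lit 16) 
(.lf (nat_lit 1543654731) (dlOf (nat_lit 1) (nat_lit 0x80028146a01))) 
(.lf (nat_lit 3490401611) (dlOf (nat_lit 1) (nat_lit 0x400200020008006a02)))))))) (.nd (nat_lit 16) 
(.nd (nat_lit 19) (.nd (nat_lit 8) (.nd (nat_lit 7) (.nd (nat_lit 22) (.nd (nat_lit 26) 
(.lf (nat_lit 4026941515) (dlOf (nat_lit 5) (nat_lit 0x1780800004c02006a0400002581005a010002d802c000840800040400004002011200280d0d01))) 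
(.lf (nat_lit 3288744011) (dlOf (nat_lit 5) (nat_lit 0x1780800005302006a0400002901005a010002d802c000920800040400004702011200280d0d01)))) 
(.lf (nat_lit 54935627) (dlOf (nat_lit 1) (nat_lit 0x1400400020009670602)))) (.nd (nat_lit 10) 
(.lf (nat_lit 20337355) (dlOf (nat_lit 1) (nat_lit 0x4002000200089d8c82))) 
(.lf (nat_lit 2755022539) (dlOf (nat_lit 2) (nat_lit 0x202200006808000800800cc002001400080f7303))))) 
(.nd (nat_lit 10) (.nd (nat_lit 27) 
(.lf (nat_lit 4295377227) (dlOf (nat_lit 1) (nat_lit 0x100080014002000200081a0603))) 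
(.lf (nat_lit 4429594955) (dlOf (nat_lit 1) (nat_lit 0x100080014002000200081a0603)))) 
(.nd (nat_lit 11) (.lf (nat_lit 4094051659) (dlOf (nat_lit 1) (nat_lit 0xc0018003301))) 
(.lf (nat_lit 3624291659) (dlOf (nat_lit 1) (nat_lit 0x100028146a01)))))) (.nd (nat_lit 28) 
(.nd (nat_lit 7) (.nd (nat_lit 23) (.nd (nat_lit 8) 
(.lf (nat_lit 2752397899) (dlOf (nat_lit 12) (nat_lit 0x59857401a82b80006804009c15d000330100910ae801d8570000840801382ba0004102009c15d0001f8100081240000e40805c056402282ae000230400d0159000110101180ac8098855c0003c0801fc2b2009c1570000e0200680ac80006c08000800800f8002002a0008018d03))) 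
(.lf (nat_lit 18760011) (dlOf (nat_lit 1) (nat_lit 0x20018970781)))) (.nd (nat_lit 24) 
(.lf (nat_lit 43925579) (dlOf (nat_lit 2) (nat_lit 0x166738033b40800f80080004002001e00092a0003))) 
(.lf (nat_lit 60702795) (dlOf (nat_lit 1) (nat_lit 0x200198c0001))))) (.nd (nat_lit 9) 
(.lf (nat_lit 20857035) (dlOf (nat_lit 1) (nat_lit 0xac004006400089e3a82))) 
(.lf (nat_lit 19815115) (dlOf (nat_lit 1) (nat_lit 0x200289db981))))) (.nd (nat_lit 7) 
(.nd (nat_lit 8) (.lf (nat_lit 1346256971) (dlOf (nat_lit 1) (nat_lit 0x320028e80001))) 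
(.nd (nat_lit 9) (.lf (nat_lit 471747915) (dlOf (nat_lit 1) (nat_lit 0x80080004002000200083d6a03))) 
(.lf (nat_lit 3492693835) (dlOf (nat_lit 1) (nat_lit 0x300080004002000600080f3e83))))) 
(.nd (nat_lit 8) (.lf (nat_lit 5773344971) (dlOf (nat_lit 1) (nat_lit 0x4c004000400080c1782))) 
(.lf (nat_lit 3490595275) (dlOf (nat_lit 1) (nat_lit 0x20008017101))))))) (.nd (nat_lit 8) 
(.nd (nat_lit 20) (.nd (nat_lit 19) (.nd (nat_lit 22) (.nd (nat_lit 26) 
(.lf (nat_lit 1611087947) (dlOf (nat_lit 1) (nat_lit 0x218008006c002008000080d0503))) 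
(.lf (nat_lit 738672715) (dlOf (nat_lit 1) (nat_lit 0x218008006c002008000080d0503)))) 
(.lf (nat_lit 1346846795) (dlOf (nat_lit 1) (nat_lit 0x400400020009040002)))) (.nd (nat_lit 9) 
(.nd (nat_lit 22) (.nd (nat_lit 26) 
(.lf (nat_lit 1343176779) (dlOf (nat_lit 2) (nat_lit 0x202800012818190680))) 
(.lf (nat_lit 470761547) (dlOf (nat_lit 1) (nat_lit 0x20018170681)))) 
(.lf (nat_lit 13582411) (dlOf (nat_lit 2) (nat_lit 0x14e31801bef580008008003000400180008730d02)))) 
(.nd (nat_lit 7) 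
(.lf (nat_lit 2752463435) (dlOf (nat_lit 6) (nat_lit 0x630fc00008c0804287e00004404050c3f00001e0201301f80000e01006b0fc00006c080058008002800200060008018d03))) 
(.lf (nat_lit 19878603) (dlOf (nat_lit 1) (nat_lit 0x4002000200089d8c82)))))) (.nd (nat_lit 10) 
(.nd (nat_lit 19) (.lf (nat_lit 37175371) (dlOf (nat_lit 1) (nat_lit 0x8002012000090b0602))) 
(.nd (nat_lit 21) (.lf (nat_lit 43991115) (dlOf (nat_lit 1) (nat_lit 0x4002000200092a0002))) 
(.lf (nat_lit 46088267) (dlOf (nat_lit 2) (nat_lit 0x8962100bf0819380000))))) (.nd (nat_lit 9) 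
(.lf (nat_lit 8344651) (dlOf (nat_lit 1) (nat_lit 0x20028519301))) 
(.lf (nat_lit 4095690315) (dlOf (nat_lit 1) (nat_lit 0x4004000200080e3802)))))) (.nd (nat_lit 7) 
(.nd (nat_lit 19) (.nd (nat_lit 9) (.nd (nat_lit 27) 
(.lf (nat_lit 2416394571) (dlOf (nat_lit 2) (nat_lit 0x26011000250181b0600))) 
(.lf (nat_lit 2550612299) (dlOf (nat_lit 2) (nat_lit 0x26011000288181b0600)))) 
(.lf (nat_lit 20400971) (dlOf (nat_lit 1) (nat_lit 0x4004000200089d5c02)))) (.nd (nat_lit 20) 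
(.lf (nat_lit 472858955) (dlOf (nat_lit 1) (nat_lit 0x800400020018b28802))) 
(.lf (nat_lit 2048331) (dlOf (nat_lit 1) (nat_lit 0x8008000400200020008150603))))) 
(.nd (nat_lit 11) (.nd (nat_lit 9) (.nd (nat_lit 21) 
(.lf (nat_lit 3491709387) (dlOf (nat_lit 3) (nat_lit 0x283e800101c10001e8200070fa000207040000008016000200180008090982))) 
(.lf (nat_lit 2755609035) (dlOf (nat_lit 2) (nat_lit 0x8800000000040004002000e00081b0982)))) 
(.lf (nat_lit 1476871115) (dlOf (nat_lit 1) (nat_lit 0x2000282d2881)))) (.nd (nat_lit 21) 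
(.lf (nat_lit 604457419) (dlOf (nat_lit 1) (nat_lit 0x1e00282d4e81))) 
(.lf (nat_lit 57100747) (dlOf (nat_lit 3) (nat_lit 0x3577805420080052bbc0000004003c004000a0009794e82)))))))))) 
(.nd (nat_lit 16) (.nd (nat_lit 30) (.nd (nat_lit 19) (.nd (nat_lit 7) (.nd (nat_lit 18) 
(.nd (nat_lit 6) (.nd (nat_lit 26) (.nd (nat_lit 23) (.nd (nat_lit 8) 
(.lf (nat_lit 2952937515) (dlOf (nat_lit 16) (nat_lit 0x2280040001a01001400e014a80100006608140400800032020a5400400120008000c41005a00700c700080003004001c02a01e701400f70094076404806de01c007600d80eb805407f800e002a003008c000807500000005e2c047004a04b201c000170200c100e000100100005a08014803803be0040001602011b00e025a001000d000600018060212004002d0018000481001f00700b78008014600300008830003001800040080090010000120401fc038050e00400210018000001814580081ae0002050e0008030383))) 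
(.lf (nat_lit 4563553067) (dlOf (nat_lit 1) (nat_lit 0x2c00400020008095c02)))) (.nd (nat_lit 20) 
(.lf (nat_lit 25313323) (dlOf (nat_lit 3) (nat_lit 0x85322a040b86f0001a020083c8a804e61bc0006608004800401000018bf0a82))) 
(.lf (nat_lit 15876139) (dlOf (nat_lit 1) (nat_lit 0x20018840801))))) (.nd (nat_lit 8) 
(.nd (nat_lit 29) (.lf (nat_lit 67256363) (dlOf (nat_lit 1) (nat_lit 0x800400040008080602))) 
(.lf (nat_lit 604127275) (dlOf (nat_lit 10) (nat_lit 0x7c0000001901001d0000000c0080b880000005e0405440000002e02000c0000001681000b00a800100000005408003002a00180000001482005a00b00004408007805800000040004002000c0008030382)))) 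
(.lf (nat_lit 2617398571) (dlOf (nat_lit 1) (nat_lit 0x200180a9801))))) (.nd (nat_lit 8) 
(.nd (nat_lit 9) (.lf (nat_lit 52576363) (dlOf (nat_lit 1) (nat_lit 0x3800400060009550a02))) 
(.lf (nat_lit 8540779) (dlOf (nat_lit 1) (nat_lit 0x400200020008518982)))) 
(.lf (nat_lit 39994731) (dlOf (nat_lit 1) (nat_lit 0x2800191f3481))))) (.nd (nat_lit 22) 
(.nd (nat_lit 20) (.nd (nat_lit 26) 
(.lf (nat_lit 537280555) (dlOf (nat_lit 23) (nat_lit 0x5f40b00076051002501f801d80c8000561000c80ce02f2058001602b8046015001100a2000804a000e02280068108015006c00a203200b700e00018050001400e001c000000140e016902c00009c0807801c8067c0ba03ba058019302a00c701140004a1401440b000024020016058000110100ba02c000084080108160000400404b00ba02460580000f02001202e80428160003c0a8000404500090000000742800e017402040b00001c04000805d0000c01004002c00005c0803c0160003c0a200380320000a83000802c004580f00002808006c064000090201420580001028800200c8000100c00d00a2000070200680510000281006202c000380c80000408002c0a200120320000082005003a003181ac018c0d000c20520004000000000280808008015400200340008070803)))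 
(.lf (nat_lit 3154526251) (dlOf (nat_lit 3) (nat_lit 0x1e40b400400030002f82000902d0001000c000b2080030004005800081f0682)))) 
(.lf (nat_lit 26624043) (dlOf (nat_lit 2) (nat_lit 0xaa2800016018c50380)))) (.nd (nat_lit 24) 
(.nd (nat_lit 21) 
(.lf (nat_lit 12992555) (dlOf (nat_lit 8) (nat_lit 0x3e331801118fc00ccc5000445b900062d800038c2801498fc00dcc5000625b900202c880038fc0001c4140034c7e008662800252dc8003841800098fc0128c50008c5b90003d83000831f801c98a000dcb720007a06003e63f001f314001216e4000f20c0078c7e0066628003f2dc8001e01801080080008002000800086f0b03))) 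
(.lf (nat_lit 15089707) (dlOf (nat_lit 2) (nat_lit 0xa6fd0002d0187b0800)))) (.nd (nat_lit 20) 
(.lf (nat_lit 54935595) (dlOf (nat_lit 1) (nat_lit 0x40019670401))) 
(.lf (nat_lit 30818347) (dlOf (nat_lit 1) (nat_lit 0x40018e50b01))))))) (.nd (nat_lit 9) 
(.nd (nat_lit 11) (.nd (nat_lit 12) (.nd (nat_lit 26) 
(.lf (nat_lit 4697769195) (dlOf (nat_lit 1) (nat_lit 0x20018092e81))) 
(.lf (nat_lit 872563947) (dlOf (nat_lit 1) (nat_lit 0x400200020008092e82)))) 
(.lf (nat_lit 20075755) (dlOf (nat_lit 1) (nat_lit 0x200189d9501)))) (.nd (nat_lit 6) 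
(.lf (nat_lit 412075) (dlOf (nat_lit 1) (nat_lit 0x400400020008004e82))) 
(.lf (nat_lit 2755022059) (dlOf (nat_lit 5) (nat_lit 0x2b02a000b01440006c0800080a800060510001a82000502e8002817000780b00034057002e02a000d814c009c0a20026050002e0270011013400b008a004c03f002601e801600b8006804e0036021001600e000d80680068016004c0000001714000f02e8003817000200ae0002054000b028000580f400b005c002e02d0027013801080700005a280058004000400180f6502))))) 
(.nd (nat_lit 6) (.nd (nat_lit 8) (.nd (nat_lit 20) 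
(.lf (nat_lit 2147633835) (dlOf (nat_lit 1) (nat_lit 0x20028095681))) 
(.lf (nat_lit 473057963) (dlOf (nat_lit 1) (nat_lit 0xc00400020008c95682)))) 
(.lf (nat_lit 671238059) (dlOf (nat_lit 5) (nat_lit 0x100000003804001c040000c0090000d0200010108003805c00100120001806000a017000100000002c100028008006800200280008144303)))) 
(.nd (nat_lit 8) (.lf (nat_lit 2755022571) (dlOf (nat_lit 2) (nat_lit 0x5c02f000020180f7400))) 
(.nd (nat_lit 11) (.lf (nat_lit 38945771) (dlOf (nat_lit 1) (nat_lit 0x2000201ee0009192882))) 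
(.lf (nat_lit 738348011) (dlOf (nat_lit 1) (nat_lit 0x400200020008095e82)))))))) (.nd (nat_lit 18) 
(.nd (nat_lit 21) (.nd (nat_lit 28) (.nd (nat_lit 8) (.nd (nat_lit 20) 
(.lf (nat_lit 537542699) (dlOf (nat_lit 1) (nat_lit 0x4004000200080a0982))) 
(.lf (nat_lit 10108971) (dlOf (nat_lit 1) (nat_lit 0x1200185b0501)))) 
(.lf (nat_lit 46809387) (dlOf (nat_lit 1) (nat_lit 0x1b000800a800200280009380b03)))) 
(.nd (nat_lit 26) 
(.lf (nat_lit 805978155) (dlOf (nat_lit 13) (nat_lit 0x6a8084040600e000d00000015c180ca810807a801c000540400e400e0002981001a0070000f4080278038000700406f808403ec00e001b006001500000006e10000c084002c00e0001b0201af02100f20038076401802a600000019840066007000100000006408015401c0003102030c0000001601001a00700001c08033800801c4002008c0008200c03))) 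
(.nd (nat_lit 29) 
(.lf (nat_lit 470433835) (dlOf (nat_lit 8) (nat_lit 0x4445e0012226000b106000606cc00102da000e30a001a22f000d11300010830001c40c000c45e0012226000b106000606cc001c210002045e000a2260004106000306cc000f610000c45e00182260010106000786cc000f410000445e00202260011106000606cc000f210003c44c001420c000e0d98001e01800200080020002005c00080f0b03))) 
(.lf (nat_lit 3154788395) (dlOf (nat_lit 3) (nat_lit 0x15005800a800a0000604001006000d702a0033013002040940152033008401880310058003402800520050008001000000500498008004c002001e0008320e03)))))) 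
(.nd (nat_lit 6) (.nd (nat_lit 22) 
(.lf (nat_lit 3817515) (dlOf (nat_lit 1) (nat_lit 0x3000400260008230b02))) 
(.lf (nat_lit 24789035) (dlOf (nat_lit 8) (nat_lit 0x3da50008ed1a0033683000fafe00038c20016da50001ed1a000e2040025694000cb41800384100125a34009ed06004d5fc0003b030025b4a0001d40800c5a500036d1a001f683000fafe0001d02000e5a50002ed1a001d683000eafe0001cc2003f80080038002000e0008bb0b03)))) 
(.nd (nat_lit 7) (.nd (nat_lit 10) 
(.lf (nat_lit 23740779) (dlOf (nat_lit 1) (nat_lit 0x8008001000200040008b80703))) 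
(.lf (nat_lit 49956203) (dlOf (nat_lit 1) (nat_lit 0x200294c3481)))) 
(.lf (nat_lit 61490667) (dlOf (nat_lit 1) (nat_lit 0x1740029923601)))))) (.nd (nat_lit 6) 
(.nd (nat_lit 20) (.nd (nat_lit 7) (.nd (nat_lit 24) 
(.lf (nat_lit 11419691) (dlOf (nat_lit 1) (nat_lit 0x780080004002000400086a0803))) 
(.lf (nat_lit 28196907) (dlOf (nat_lit 2) (nat_lit 0x454b6000000200060018d70901)))) 
(.lf (nat_lit 53362859) (dlOf (nat_lit 3) (nat_lit 0xa25380004c0800592c400020040024004000800095a1502)))) 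
(.nd (nat_lit 22) (.nd (nat_lit 7) 
(.lf (nat_lit 4079659) (dlOf (nat_lit 1) (nat_lit 0x800400040018280602))) 
(.lf (nat_lit 20857003) (dlOf (nat_lit 1) (nat_lit 0x6300080334002022600089e2c83)))) 
(.nd (nat_lit 9) 
(.lf (nat_lit 14565419) (dlOf (nat_lit 3) (nat_lit 0x2931002749260002f0400104c400017018770380))) 
(.lf (nat_lit 8274475) (dlOf (nat_lit 1) (nat_lit 0x9c0018511481)))))) (.nd (nat_lit 8) 
(.nd (nat_lit 11) (.nd (nat_lit 20) 
(.lf (nat_lit 42877035) (dlOf (nat_lit 1) (nat_lit 0x8008034800200020009280a03))) 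
(.lf (nat_lit 52314219) (dlOf (nat_lit 1) (nat_lit 0x4400400060009521b02)))) 
(.lf (nat_lit 19814507) (dlOf (nat_lit 1) (nat_lit 0x400289da881)))) (.nd (nat_lit 7) 
(.nd (nat_lit 9) (.lf (nat_lit 2754501995) (dlOf (nat_lit 1) (nat_lit 0xa00080fc901))) 
(.lf (nat_lit 19809131) (dlOf (nat_lit 1) (nat_lit 0x80080170002005000089d2583)))) 
(.lf (nat_lit 472794091) (dlOf (nat_lit 1) (nat_lit 0x20018b02881)))))))) (.nd (nat_lit 31) 
(.nd (nat_lit 7) (.nd (nat_lit 18) (.nd (nat_lit 28) (.nd (nat_lit 26) (.nd (nat_lit 27) 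
(.lf (nat_lit 5368856619) (dlOf (nat_lit 1) (nat_lit 0x80018040301))) 
(.lf (nat_lit 5503074347) (dlOf (nat_lit 1) (nat_lit 0x80018040301)))) (.nd (nat_lit 19) 
(.lf (nat_lit 1140998187) (dlOf (nat_lit 1) (nat_lit 0x8008000400200040008060d03))) 
(.lf (nat_lit 1678393387) (dlOf (nat_lit 4) (nat_lit 0xec00e0002b810048021004c8038000a8080174084015e00e008c006000300000006610022800400100018200d02))))) 
(.nd (nat_lit 19) (.nd (nat_lit 29) 
(.lf (nat_lit 1476542507) (dlOf (nat_lit 1) (nat_lit 0x80008050381))) 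
(.lf (nat_lit 2013413419) (dlOf (nat_lit 1) (nat_lit 0x8008000400200040008060d03)))) 
(.nd (nat_lit 26) 
(.lf (nat_lit 1342849067) (dlOf (nat_lit 8) (nat_lit 0x4445e0012226000b1070006068c00102da000e30a001a22f000d11300010838001c40c000c45e0012226000b1070006068c001c210002045e000a22600041070003068c000ec10000c45e001822600101070007868c000ea10000445e002022600111070006068c000e810003c44c001420e000e0d18001cc1800200080020002005c00080f0b03))) 
(.lf (nat_lit 1409957931) (dlOf (nat_lit 1) (nat_lit 0x4004000200080a0982)))))) (.nd (nat_lit 20) 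
(.nd (nat_lit 32) (.nd (nat_lit 6) 
(.lf (nat_lit 1074151467) (dlOf (nat_lit 5) (nat_lit 0xb4052000240200880290001001002b01480007c0802480a40003a04000c004000200180c0d02))) 
(.lf (nat_lit 1346781291) (dlOf (nat_lit 1) (nat_lit 0x3800400240009000a02)))) (.nd (nat_lit 26) 
(.lf (nat_lit 5637554219) (dlOf (nat_lit 1) (nat_lit 0xa0018100301))) 
(.lf (nat_lit 6241533995) (dlOf (nat_lit 1) (nat_lit 0xa0018100301))))) (.nd (nat_lit 29) 
(.lf (nat_lit 1343635499) (dlOf (nat_lit 1) (nat_lit 0x200282d0901))) 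
(.lf (nat_lit 1880506411) (dlOf (nat_lit 1) (nat_lit 0xb8004003200089b0902)))))) (.nd (nat_lit 26) 
(.nd (nat_lit 8) (.nd (nat_lit 6) 
(.lf (nat_lit 6174163115) (dlOf (nat_lit 1) (nat_lit 0x400400040008062c82))) (.nd (nat_lit 11) 
(.lf (nat_lit 1346781419) (dlOf (nat_lit 2) (nat_lit 0x40ab803288080070008000400200040009001e83))) 
(.lf (nat_lit 5905729771) (dlOf (nat_lit 1) (nat_lit 0x2a0018144b01))))) (.nd (nat_lit 9) 
(.lf (nat_lit 1346258411) (dlOf (nat_lit 1) (nat_lit 0x50008000400200020008e83603))) 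
(.lf (nat_lit 5773607915) (dlOf (nat_lit 1) (nat_lit 0x3400180e2881))))) (.nd (nat_lit 6) 
(.nd (nat_lit 8) (.lf (nat_lit 5704401067) (dlOf (nat_lit 1) (nat_lit 0x400400020008062c82))) 
(.lf (nat_lit 1812089259) (dlOf (nat_lit 1) (nat_lit 0x20028144e81)))) (.nd (nat_lit 8) 
(.nd (nat_lit 9) (.lf (nat_lit 1677871339) (dlOf (nat_lit 1) (nat_lit 0x20008114b01))) 
(.lf (nat_lit 6377589483) (dlOf (nat_lit 1) (nat_lit 0x4004000200080e5a02)))) 
(.lf (nat_lit 6375491051) (dlOf (nat_lit 1) (nat_lit 0x400200020008003602))))))) (.nd (nat_lit 18) 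
(.nd (nat_lit 8) (.nd (nat_lit 19) (.nd (nat_lit 10) (.nd (nat_lit 28) 
(.lf (nat_lit 3422699563) (dlOf (nat_lit 1) (nat_lit 0x2a0008008c00201900008060783))) 
(.lf (nat_lit 3691135019) (dlOf (nat_lit 3) (nat_lit 0x2c803a01420160001602001800e8000ac080310008000400200780008050383)))) 
(.lf (nat_lit 3959571499) (dlOf (nat_lit 2) (nat_lit 0x4000015d102000e0018112881)))) 
(.nd (nat_lit 26) 
(.lf (nat_lit 3221897259) (dlOf (nat_lit 2) (nat_lit 0x3ce0178000000802c8008008c002009600081b0603))) 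
(.nd (nat_lit 28) 
(.lf (nat_lit 3960094763) (dlOf (nat_lit 2) (nat_lit 0x3ce0178000000802c8008008c002009600081b0603))) 
(.lf (nat_lit 4228530219) (dlOf (nat_lit 1) (nat_lit 0x400180f0c01)))))) (.nd (nat_lit 6) 
(.nd (nat_lit 7) (.lf (nat_lit 3221379883) (dlOf (nat_lit 2) (nat_lit 0x6802f0057981811bc80))) 
(.lf (nat_lit 3221376427) (dlOf (nat_lit 2) (nat_lit 0x2040a6000e30200020028116d01)))) 
(.nd (nat_lit 7) 
(.lf (nat_lit 3221375339) (dlOf (nat_lit 7) (nat_lit 0xc02980515808032014c028980400840a60144a02001602f008b78100030178045b40800500bc022d604004400200060008114e82))) 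
(.lf (nat_lit 3959577067) (dlOf (nat_lit 3) (nat_lit 0x1d00bc016f804006405e00b79020006001811b281)))))) 
(.nd (nat_lit 19) (.nd (nat_lit 26) (.nd (nat_lit 27) 
(.lf (nat_lit 4026941483) (dlOf (nat_lit 2) (nat_lit 0x26040003b00f8000ac1000880080410002001200080d0a83))) 
(.lf (nat_lit 3355852843) (dlOf (nat_lit 2) (nat_lit 0x1202e00027818130600)))) (.nd (nat_lit 6) 
(.nd (nat_lit 27) 
(.lf (nat_lit 3288743979) (dlOf (nat_lit 2) (nat_lit 0x26040003b00f8000d01000880080410002001200080d0a83))) 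
(.lf (nat_lit 3959832619) (dlOf (nat_lit 1) (nat_lit 0x20028170001)))) 
(.lf (nat_lit 4228268139) (dlOf (nat_lit 1) (nat_lit 0x120028090001))))) (.nd (nat_lit 6) 
(.nd (nat_lit 9) (.lf (nat_lit 3493740587) (dlOf (nat_lit 1) (nat_lit 0x10c004000c00081b0002))) 
(.lf (nat_lit 3490595371) (dlOf (nat_lit 2) (nat_lit 0x1a15400035818017f80)))) (.nd (nat_lit 8) 
(.lf (nat_lit 3492693739) (dlOf (nat_lit 2) (nat_lit 0x2a0400000f8180f3b00))) (.nd (nat_lit 20) 
(.lf (nat_lit 3490595307) (dlOf (nat_lit 4) (nat_lit 0x2e03cc000220201701e60000e01008b0f300006c080048008001c00200160008017303))) 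
(.lf (nat_lit 3493741035) (dlOf (nat_lit 1) (nat_lit 0x200281b0d01)))))))))) (.nd (nat_lit 18) 
(.nd (nat_lit 7) (.nd (nat_lit 28) (.nd (nat_lit 21) (.nd (nat_lit 26) (.nd (nat_lit 6) 
(.nd (nat_lit 8) (.nd (nat_lit 19) 
(.lf (nat_lit 25378859) (dlOf (nat_lit 2) (nat_lit 0x9960d8000cc080040008001c002000a0008c00603))) 
(.lf (nat_lit 537608235) (dlOf (nat_lit 2) (nat_lit 0x19c05b00a10118000b81000380080024002000e00080d0a83)))) 
(.lf (nat_lit 2281915179) (dlOf (nat_lit 1) (nat_lit 0x600280a2201)))) (.nd (nat_lit 8) 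
(.lf (nat_lit 5905795179) (dlOf (nat_lit 1) (nat_lit 0xe0028144701))) 
(.lf (nat_lit 1261931) (dlOf (nat_lit 1) (nat_lit 0x4002000200080a5502))))) (.nd (nat_lit 27) 
(.nd (nat_lit 6) (.lf (nat_lit 4362289195) (dlOf (nat_lit 1) (nat_lit 0x800200040008020602))) 
(.lf (nat_lit 2755871083) (dlOf (nat_lit 3) (nat_lit 0x1a03c8000d00800b01e400064040010004002a00181b0702)))) 
(.nd (nat_lit 9) (.lf (nat_lit 1812152363) (dlOf (nat_lit 2) (nat_lit 0x201c00023018160500))) 
(.lf (nat_lit 202067499) (dlOf (nat_lit 1) (nat_lit 0xc0004001c00080f7182)))))) (.nd (nat_lit 19) 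
(.nd (nat_lit 6) (.nd (nat_lit 8) 
(.lf (nat_lit 52641835) (dlOf (nat_lit 1) (nat_lit 0x20019560901))) 
(.lf (nat_lit 20138795) (dlOf (nat_lit 1) (nat_lit 0x4002000200089d5c02)))) (.nd (nat_lit 22) 
(.lf (nat_lit 52641899) (dlOf (nat_lit 1) (nat_lit 0x90008000400200160009561e83))) 
(.lf (nat_lit 56836203) (dlOf (nat_lit 1) (nat_lit 0x1c004001e0009770a02))))) (.nd (nat_lit 8) 
(.nd (nat_lit 20) 
(.lf (nat_lit 11223083) (dlOf (nat_lit 4) (nat_lit 0x65630002b01000a00000013c0800100000006404001800200600008670602))) 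
(.lf (nat_lit 29048875) (dlOf (nat_lit 1) (nat_lit 0x400200020008db0e02)))) 
(.lf (nat_lit 8079659) (dlOf (nat_lit 2) (nat_lit 0xd2bc80038c0800c800800b8002000e0008514b83)))))) 
(.nd (nat_lit 26) (.nd (nat_lit 19) (.nd (nat_lit 20) (.nd (nat_lit 30) 
(.lf (nat_lit 939737131) (dlOf (nat_lit 2) (nat_lit 0x201c0004e018160500))) 
(.lf (nat_lit 6308446251) (dlOf (nat_lit 5) (nat_lit 0x1700e80008064044002c0002906003e01d000200c80678058000500c0018036000200b0000602000a00580002c0808d8008006c002000e00080a0d03)))) 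
(.lf (nat_lit 1343438891) (dlOf (nat_lit 1) (nat_lit 0x8008000400200020008240803)))) 
(.nd (nat_lit 20) (.lf (nat_lit 1345011755) (dlOf (nat_lit 1) (nat_lit 0x1000189d0901))) 
(.lf (nat_lit 1343963179) (dlOf (nat_lit 1) (nat_lit 0x400400020008380e02))))) (.nd (nat_lit 27) 
(.nd (nat_lit 6) (.nd (nat_lit 19) 
(.lf (nat_lit 5704466475) (dlOf (nat_lit 5) (nat_lit 0x1700e80008064044002c0002906003e01d000200c80678058000500c0018036000200b0000602000a00580002c0808d8008006c002000e00080a0d03))) 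
(.lf (nat_lit 1410023467) (dlOf (nat_lit 2) (nat_lit 0x19c05b00a10118000ac1000380080024002000e00080d0a83)))) 
(.lf (nat_lit 3556986987) (dlOf (nat_lit 2) (nat_lit 0x1100fc008cc04000c00200140008127d82)))) 
(.nd (nat_lit 20) (.lf (nat_lit 4228071467) (dlOf (nat_lit 1) (nat_lit 0x800200040008020602))) 
(.lf (nat_lit 471023659) (dlOf (nat_lit 1) (nat_lit 0x20018240801))))))) (.nd (nat_lit 8) 
(.nd (nat_lit 6) (.nd (nat_lit 26) (.nd (nat_lit 9) 
(.lf (nat_lit 36390059) (dlOf (nat_lit 1) (nat_lit 0x380009072c01))) 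
(.lf (nat_lit 218795) (dlOf (nat_lit 1) (nat_lit 0x4001800a001)))) (.nd (nat_lit 10) 
(.lf (nat_lit 335760043) (dlOf (nat_lit 1) (nat_lit 0x20028095681))) 
(.lf (nat_lit 2751678123) (dlOf (nat_lit 1) (nat_lit 0xe40018003a81))))) (.nd (nat_lit 9) 
(.nd (nat_lit 10) (.lf (nat_lit 2751678699) (dlOf (nat_lit 1) (nat_lit 0x2000400080008004b02))) 
(.nd (nat_lit 12) (.lf (nat_lit 5167596779) (dlOf (nat_lit 1) (nat_lit 0x2000280d2e81))) 
(.lf (nat_lit 8606955) (dlOf (nat_lit 1) (nat_lit 0x50008000800200020008519503))))) 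
(.nd (nat_lit 24) (.lf (nat_lit 215787) (dlOf (nat_lit 1) (nat_lit 0x18008001c00200020008005a03))) 
(.lf (nat_lit 50547435) (dlOf (nat_lit 1) (nat_lit 0x1a00194c5a01)))))) (.nd (nat_lit 30) 
(.nd (nat_lit 10) (.nd (nat_lit 6) (.nd (nat_lit 11) 
(.lf (nat_lit 8077739) (dlOf (nat_lit 1) (nat_lit 0x400200020008511002))) 
(.lf (nat_lit 40061355) (dlOf (nat_lit 1) (nat_lit 0x400191f4e81)))) 
(.lf (nat_lit 1262059) (dlOf (nat_lit 1) (nat_lit 0x80080078002004600080a7303)))) (.nd (nat_lit 9) 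
(.lf (nat_lit 20141483) (dlOf (nat_lit 1) (nat_lit 0x68008001c002001400089d9903))) 
(.lf (nat_lit 671303595) (dlOf (nat_lit 4) (nat_lit 0x100f001f805c009801e00140000000d04000600f001f805c00f401e0001806000201e003f00b801e803c000160c0070004001e0008144302))))) 
(.nd (nat_lit 6) (.nd (nat_lit 9) (.nd (nat_lit 12) 
(.lf (nat_lit 3288547755) (dlOf (nat_lit 2) (nat_lit 0x20360001019000000100030008001c00200160008090783))) 
(.lf (nat_lit 3556987307) (dlOf (nat_lit 1) (nat_lit 0x10008013800200160008128483)))) 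
(.nd (nat_lit 10) (.lf (nat_lit 3221445547) (dlOf (nat_lit 1) (nat_lit 0x1c0020002000811bd82))) 
(.lf (nat_lit 3959637931) (dlOf (nat_lit 2) (nat_lit 0x80000000a818114300))))) (.nd (nat_lit 26) 
(.lf (nat_lit 4026745323) (dlOf (nat_lit 1) (nat_lit 0x180008003c00200320008090d03))) 
(.lf (nat_lit 3288547819) (dlOf (nat_lit 1) (nat_lit 0x180008003c00200320008090d03)))))))) 
(.nd (nat_lit 19) (.nd (nat_lit 8) (.nd (nat_lit 26) (.nd (nat_lit 10) (.nd (nat_lit 21) 
(.lf (nat_lit 3892789291) (dlOf (nat_lit 1) (nat_lit 0x100008006400200060008270903))) 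
(.lf (nat_lit 3492233259) (dlOf (nat_lit 2) (nat_lit 0x4511a00009008005800800a4002000400080b0e03)))) 
(.nd (nat_lit 6) (.lf (nat_lit 1074220587) (dlOf (nat_lit 1) (nat_lit 0x15400280f7181))) 
(.lf (nat_lit 3490139371) (dlOf (nat_lit 2) (nat_lit 0x80458000c8080020008006400200040008006503))))) 
(.nd (nat_lit 28) (.nd (nat_lit 20) 
(.lf (nat_lit 1678196779) (dlOf (nat_lit 1) (nat_lit 0x1880080004002002e00081a0003))) 
(.lf (nat_lit 2752987179) (dlOf (nat_lit 2) (nat_lit 0x40043800094080018008001800200040008070803)))) 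
(.nd (nat_lit 6) 
(.lf (nat_lit 3557244971) (dlOf (nat_lit 4) (nat_lit 0xa81840005e0400600c200060600001702006b0308000440801280080070002000a0008170383))) 
(.lf (nat_lit 1009205355) (dlOf (nat_lit 1) (nat_lit 0x8008004c002000c00090a0a03)))))) 
(.nd (nat_lit 7) (.nd (nat_lit 11) (.nd (nat_lit 26) 
(.lf (nat_lit 3493282155) (dlOf (nat_lit 1) (nat_lit 0x9e0008000400201680008105503))) 
(.lf (nat_lit 2755084651) (dlOf (nat_lit 1) (nat_lit 0x9e0008000400201680008105503)))) 
(.nd (nat_lit 6) 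
(.lf (nat_lit 3490139435) (dlOf (nat_lit 2) (nat_lit 0x40458000840800b8008002000200220008006803))) 
(.lf (nat_lit 604457323) (dlOf (nat_lit 1) (nat_lit 0x2000282d4e81))))) (.nd (nat_lit 6) 
(.nd (nat_lit 11) (.lf (nat_lit 3493282219) (dlOf (nat_lit 1) (nat_lit 0x20028107181))) 
(.lf (nat_lit 4698098091) (dlOf (nat_lit 1) (nat_lit 0x960028124e81)))) (.nd (nat_lit 26) 
(.lf (nat_lit 537346539) (dlOf (nat_lit 1) (nat_lit 0x180008090d01))) 
(.lf (nat_lit 1409761771) (dlOf (nat_lit 1) (nat_lit 0x180008090d01))))))) (.nd (nat_lit 6) 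
(.nd (nat_lit 21) (.nd (nat_lit 20) (.nd (nat_lit 22) 
(.lf (nat_lit 1343176747) (dlOf (nat_lit 4) (nat_lit 0x1a1e700130000000b010002060c01480000002b0400021e7000f00000000c10069000800e800200040008190383))) 
(.lf (nat_lit 13582379) (dlOf (nat_lit 2) (nat_lit 0x77aa0002b0200020018730a81)))) 
(.nd (nat_lit 22) (.lf (nat_lit 1344225323) (dlOf (nat_lit 1) (nat_lit 0xa0028520001))) 
(.nd (nat_lit 23) 
(.lf (nat_lit 23019563) (dlOf (nat_lit 2) (nat_lit 0x3ac1002fc604003000400020008b40782))) 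
(.lf (nat_lit 14630955) (dlOf (nat_lit 2) (nat_lit 0x19000000062040010004000e0008770382)))))) 
(.nd (nat_lit 7) (.nd (nat_lit 9) 
(.lf (nat_lit 25116715) (dlOf (nat_lit 2) (nat_lit 0x573a00028818be0c00))) 
(.lf (nat_lit 46090795) (dlOf (nat_lit 2) (nat_lit 0x3f621000ac019385180)))) (.nd (nat_lit 9) 
(.lf (nat_lit 2754567339) (dlOf (nat_lit 1) (nat_lit 0x200180fc201))) (.nd (nat_lit 20) 
(.lf (nat_lit 19876523) (dlOf (nat_lit 1) (nat_lit 0x1600189d5681))) 
(.lf (nat_lit 54479531) (dlOf (nat_lit 1) (nat_lit 0x8008000400200020009655683))))))) 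
(.nd (nat_lit 8) (.nd (nat_lit 27) (.nd (nat_lit 9) 
(.lf (nat_lit 19877995) (dlOf (nat_lit 1) (nat_lit 0x4002000200089d7d82))) 
(.lf (nat_lit 2754563691) (dlOf (nat_lit 1) (nat_lit 0x4800280f7181)))) (.nd (nat_lit 20) 
(.lf (nat_lit 6376341611) (dlOf (nat_lit 1) (nat_lit 0x1400200120008090182))) 
(.lf (nat_lit 473907307) (dlOf (nat_lit 1) (nat_lit 0x400400020008fc0a02))))) (.nd (nat_lit 7) 
(.lf (nat_lit 24068459) (dlOf (nat_lit 1) (nat_lit 0x400400020008b80702))) (.nd (nat_lit 9) 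
(.lf (nat_lit 3490660843) (dlOf (nat_lit 4) (nat_lit 0x3403cc000220201881e60000e0100900f300006c080088008000800200100008017303))) 
(.lf (nat_lit 3492758507) (dlOf (nat_lit 1) (nat_lit 0x4002000200080f2882))))))))))))

end

end Pool.Agent.Lib.MP_5854e1_co.Cz

namespace Pool.Agent.Lib.MP_5854e1_co.Cz

noncomputable section

noncomputable def tz167 : DT := (.nd (nat_lit 16) (.nd (nat_lit 18) (.nd (nat_lit 17) 
(.nd (nat_lit 5) (.nd (nat_lit 6) (.nd (nat_lit 19) (.nd (nat_lit 7) (.nd (nat_lit 10) 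
(.nd (nat_lit 20) (.lf (nat_lit 12599311) (dlOf (nat_lit 1) (nat_lit 0x88002004c00086d0682))) 
(.nd (nat_lit 21) (.lf (nat_lit 13647887) (dlOf (nat_lit 1) (nat_lit 0x300018740101))) 
(.lf (nat_lit 15745039) (dlOf (nat_lit 1) (nat_lit 0x8008000800200060008830183))))) 
(.nd (nat_lit 8) (.nd (nat_lit 12) 
(.lf (nat_lit 2754629135) (dlOf (nat_lit 1) (nat_lit 0x24004000c00080f7082))) 
(.lf (nat_lit 2952814095) (dlOf (nat_lit 5) (nat_lit 0x2b007001480360001904009401c0000c01004d00e0000806c0002e08008c03800015020002001800ce01)))) 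
(.lf (nat_lit 2754628879) (dlOf (nat_lit 1) (nat_lit 0x200280f6701))))) (.nd (nat_lit 8) 
(.nd (nat_lit 9) (.nd (nat_lit 23) 
(.lf (nat_lit 6576687247) (dlOf (nat_lit 1) (nat_lit 0x20018004801))) 
(.lf (nat_lit 8407183) (dlOf (nat_lit 1) (nat_lit 0xc00400020008514802)))) (.nd (nat_lit 26) 
(.lf (nat_lit 1476416143) (dlOf (nat_lit 1) (nat_lit 0x400200020008008c82))) 
(.lf (nat_lit 3691008655) (dlOf (nat_lit 1) (nat_lit 0x10002000a0008008c82))))) (.nd (nat_lit 10) 
(.lf (nat_lit 19943823) (dlOf (nat_lit 1) (nat_lit 0x200189d8381))) (.nd (nat_lit 20) 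
(.lf (nat_lit 3489680783) (dlOf (nat_lit 2) (nat_lit 0x1500fc0003604001000400260018006c82))) 
(.lf (nat_lit 19942799) (dlOf (nat_lit 2) (nat_lit 0x54da0001802002600089d6c81))))))) 
(.nd (nat_lit 21) (.nd (nat_lit 28) (.nd (nat_lit 22) (.nd (nat_lit 10) (.nd (nat_lit 26) 
(.lf (nat_lit 2819112975) (dlOf (nat_lit 1) (nat_lit 0x4800801e0002007000081a0483))) 
(.lf (nat_lit 1678262287) (dlOf (nat_lit 2) (nat_lit 0x26000000108181c0480)))) 
(.lf (nat_lit 2752005135) (dlOf (nat_lit 1) (nat_lit 0x20018002881)))) (.nd (nat_lit 7) 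
(.lf (nat_lit 5783567) (dlOf (nat_lit 1) (nat_lit 0x4002000200083e0182))) 
(.lf (nat_lit 46680975) (dlOf (nat_lit 1) (nat_lit 0x120019385c81))))) (.nd (nat_lit 7) 
(.nd (nat_lit 10) (.lf (nat_lit 805847055) (dlOf (nat_lit 2) (nat_lit 0x26000000108181c0480))) 
(.lf (nat_lit 5771906063) (dlOf (nat_lit 1) (nat_lit 0x20018005f81)))) (.nd (nat_lit 26) 
(.lf (nat_lit 1342718095) (dlOf (nat_lit 1) (nat_lit 0x4002000200080c0102))) 
(.lf (nat_lit 470302863) (dlOf (nat_lit 1) (nat_lit 0x4002000200080c0102)))))) (.nd (nat_lit 10) 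
(.nd (nat_lit 9) (.nd (nat_lit 22) 
(.lf (nat_lit 11026447) (dlOf (nat_lit 1) (nat_lit 0x120008660181))) 
(.lf (nat_lit 15220751) (dlOf (nat_lit 1) (nat_lit 0x60004006c00087c0482)))) 
(.lf (nat_lit 49826319) (dlOf (nat_lit 1) (nat_lit 0x1c00194c5081)))) (.nd (nat_lit 24) 
(.lf (nat_lit 1344816143) (dlOf (nat_lit 1) (nat_lit 0x1800200660008982882))) 
(.lf (nat_lit 52970511) (dlOf (nat_lit 1) (nat_lit 0x80029572881))))))) (.nd (nat_lit 26) 
(.nd (nat_lit 7) (.nd (nat_lit 10) (.nd (nat_lit 22) (.nd (nat_lit 29) 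
(.lf (nat_lit 3355459663) (dlOf (nat_lit 2) (nat_lit 0x2602f00aa4018000000))) 
(.lf (nat_lit 1744846927) (dlOf (nat_lit 1) (nat_lit 0x120018000001)))) (.nd (nat_lit 19) 
(.lf (nat_lit 30425167) (dlOf (nat_lit 2) (nat_lit 0x3c320008e188000be08001800400040018e30202))) 
(.lf (nat_lit 48775247) (dlOf (nat_lit 1) (nat_lit 0x20019420701))))) (.nd (nat_lit 8) 
(.lf (nat_lit 1342196815) (dlOf (nat_lit 1) (nat_lit 0x14800800a800200440008006083))) 
(.nd (nat_lit 28) 
(.lf (nat_lit 4831855951) (dlOf (nat_lit 1) (nat_lit 0x8008011c002003c0008003303))) 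
(.lf (nat_lit 5100291407) (dlOf (nat_lit 1) (nat_lit 0x40018003301)))))) (.nd (nat_lit 9) 
(.nd (nat_lit 10) (.nd (nat_lit 11) 
(.lf (nat_lit 4210895) (dlOf (nat_lit 1) (nat_lit 0x60028290481))) 
(.lf (nat_lit 8931535) (dlOf (nat_lit 1) (nat_lit 0x40008514a01)))) 
(.lf (nat_lit 134241487) (dlOf (nat_lit 1) (nat_lit 0x30001800c281)))) (.nd (nat_lit 8) 
(.lf (nat_lit 19944143) (dlOf (nat_lit 1) (nat_lit 0x4002000200089d8c82))) 
(.lf (nat_lit 2952813519) (dlOf (nat_lit 2) (nat_lit 0xa00000000004021c00200d0000800bf02)))))) 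
(.nd (nat_lit 10) (.nd (nat_lit 11) (.nd (nat_lit 19) (.nd (nat_lit 12) 
(.lf (nat_lit 2617262159) (dlOf (nat_lit 1) (nat_lit 0x18008000800200080008000003))) 
(.lf (nat_lit 3691008079) (dlOf (nat_lit 1) (nat_lit 0x1e0008007d81)))) (.nd (nat_lit 20) 
(.lf (nat_lit 2754101327) (dlOf (nat_lit 3) (nat_lit 0x80fc8000b80800287e400058040034004009200080c1902))) 
(.lf (nat_lit 471351375) (dlOf (nat_lit 1) (nat_lit 0x600082e0201))))) (.nd (nat_lit 7) 
(.nd (nat_lit 8) (.lf (nat_lit 5838493775) (dlOf (nat_lit 1) (nat_lit 0x14001800a701))) 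
(.lf (nat_lit 469784911) (dlOf (nat_lit 1) (nat_lit 0x800800040020002000800ab83)))) 
(.lf (nat_lit 604003279) (dlOf (nat_lit 1) (nat_lit 0xa000801580020040000800bf03))))) 
(.nd (nat_lit 12) (.nd (nat_lit 8) (.nd (nat_lit 9) 
(.lf (nat_lit 1409305679) (dlOf (nat_lit 1) (nat_lit 0x90008009400200060008006083))) 
(.lf (nat_lit 2754629199) (dlOf (nat_lit 1) (nat_lit 0xa00080014002000800080f7183)))) 
(.lf (nat_lit 4496311631) (dlOf (nat_lit 1) (nat_lit 0x20018003301)))) (.nd (nat_lit 7) 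
(.lf (nat_lit 604003407) (dlOf (nat_lit 2) (nat_lit 0x280000002604002c002000c000800bf82))) 
(.nd (nat_lit 8) 
(.lf (nat_lit 4227882191) (dlOf (nat_lit 1) (nat_lit 0x800800040020002000800c283))) 
(.lf (nat_lit 469784015) (dlOf (nat_lit 2) (nat_lit 0x4047000080080260008016c002005c0008009b03))))))))) 
(.nd (nat_lit 28) (.nd (nat_lit 19) (.nd (nat_lit 12) (.nd (nat_lit 10) (.nd (nat_lit 11) 
(.nd (nat_lit 9) (.lf (nat_lit 13647919) (dlOf (nat_lit 1) (nat_lit 0x6400400400018740682))) 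
(.lf (nat_lit 3355460143) (dlOf (nat_lit 1) (nat_lit 0x18008000800200080008001483)))) 
(.nd (nat_lit 6) (.lf (nat_lit 1610631727) (dlOf (nat_lit 1) (nat_lit 0x280018005181))) 
(.lf (nat_lit 5368728559) (dlOf (nat_lit 1) (nat_lit 0x20018005f01))))) (.nd (nat_lit 7) 
(.nd (nat_lit 27) (.lf (nat_lit 5905600047) (dlOf (nat_lit 1) (nat_lit 0x660028007181))) 
(.lf (nat_lit 671108655) (dlOf (nat_lit 6) (nat_lit 0x340080002f0100db016003100740330030018201000c4004002f00080374000000580e030202c001b01180c48074060c0300306010018600400040014060c004030e0000002b89006e0040001480805c00400000004003400400020018007182)))) 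
(.lf (nat_lit 134237615) (dlOf (nat_lit 1) (nat_lit 0x8008000400200020008006d03))))) 
(.nd (nat_lit 6) (.nd (nat_lit 10) (.nd (nat_lit 7) 
(.lf (nat_lit 536893487) (dlOf (nat_lit 1) (nat_lit 0x800803ac00200f6000800a603))) 
(.lf (nat_lit 2885704623) (dlOf (nat_lit 2) (nat_lit 0x7018000400bc001005c001202d000a00280058008001c0000014f0e0024002800bd81)))) 
(.nd (nat_lit 20) (.lf (nat_lit 22191) (dlOf (nat_lit 1) (nat_lit 0x1800800080020006000800a003))) 
(.lf (nat_lit 19945135) (dlOf (nat_lit 1) (nat_lit 0x4002000200089da002))))) (.nd (nat_lit 7) 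
(.nd (nat_lit 27) 
(.lf (nat_lit 4362099055) (dlOf (nat_lit 1) (nat_lit 0x800800040020002000800ad03))) 
(.lf (nat_lit 201349487) (dlOf (nat_lit 1) (nat_lit 0x800800600020002000800ad03)))) 
(.lf (nat_lit 6643799535) (dlOf (nat_lit 1) (nat_lit 0x20028009c01)))))) (.nd (nat_lit 21) 
(.nd (nat_lit 29) (.nd (nat_lit 9) (.nd (nat_lit 20) 
(.lf (nat_lit 55066671) (dlOf (nat_lit 7) (nat_lit 0x81318001898800084bc000325d00061254001c614001097600024a700080000003881800492f00024000000e104000e4c6000726280019310000497800164ba000d2498001d8300011310004897400064930003a83000a2630001cc08053800800b8002001200096a0d03))) 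
(.lf (nat_lit 30949423) (dlOf (nat_lit 2) (nat_lit 0x3ecc20000e0200020018e50b81)))) 
(.nd (nat_lit 8) (.lf (nat_lit 8930863) (dlOf (nat_lit 1) (nat_lit 0x4e0008513781))) 
(.lf (nat_lit 46680879) (dlOf (nat_lit 1) (nat_lit 0x140019385c01))))) (.nd (nat_lit 27) 
(.nd (nat_lit 7) 
(.lf (nat_lit 1678262319) (dlOf (nat_lit 2) (nat_lit 0x120044000201d801ccc1000680080200002000200081c0a03))) 
(.lf (nat_lit 2752006063) (dlOf (nat_lit 1) (nat_lit 0xc0028004381)))) (.nd (nat_lit 26) 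
(.lf (nat_lit 2819113007) (dlOf (nat_lit 6) (nat_lit 0x80000001401000302280028084000360800a408a00500390032014001700000002a10023808a0110039008700000005018004800000004040384002008400081a0702))) 
(.lf (nat_lit 2886221871) (dlOf (nat_lit 1) (nat_lit 0x14e00081a0601)))))) (.nd (nat_lit 11) 
(.nd (nat_lit 6) (.nd (nat_lit 7) 
(.lf (nat_lit 15220783) (dlOf (nat_lit 2) (nat_lit 0xc80000006a04007c00400d600087c0702))) 
(.lf (nat_lit 58212783) (dlOf (nat_lit 1) (nat_lit 0x200297c6e81)))) 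
(.lf (nat_lit 36192367) (dlOf (nat_lit 1) (nat_lit 0x8008003c002000c0009042483)))) (.nd (nat_lit 6) 
(.nd (nat_lit 8) (.lf (nat_lit 20469935) (dlOf (nat_lit 1) (nat_lit 0x200289da881))) 
(.lf (nat_lit 20466095) (dlOf (nat_lit 1) (nat_lit 0x2400089d4e81)))) 
(.lf (nat_lit 57166575) (dlOf (nat_lit 1) (nat_lit 0x20009795a01))))))) (.nd (nat_lit 27) 
(.nd (nat_lit 19) (.nd (nat_lit 10) (.nd (nat_lit 8) (.nd (nat_lit 9) 
(.lf (nat_lit 2952810543) (dlOf (nat_lit 1) (nat_lit 0x440028007c01))) 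
(.lf (nat_lit 3019917871) (dlOf (nat_lit 1) (nat_lit 0x600018005181)))) 
(.lf (nat_lit 1346388271) (dlOf (nat_lit 1) (nat_lit 0x10002000e0008f60b02)))) (.nd (nat_lit 7) 
(.nd (nat_lit 6) 
(.lf (nat_lit 1342198831) (dlOf (nat_lit 2) (nat_lit 0xc0470012700800f0008003c002002a0008009203))) 
(.lf (nat_lit 1409305711) (dlOf (nat_lit 1) (nat_lit 0x20028006081)))) (.nd (nat_lit 8) 
(.lf (nat_lit 2415937199) (dlOf (nat_lit 1) (nat_lit 0x1c0028003a81))) 
(.lf (nat_lit 1342197167) (dlOf (nat_lit 1) (nat_lit 0x20028006d01)))))) (.nd (nat_lit 7) 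
(.nd (nat_lit 9) (.nd (nat_lit 21) 
(.lf (nat_lit 3557310511) (dlOf (nat_lit 1) (nat_lit 0x80080030002000800081c0703))) 
(.lf (nat_lit 3492298799) (dlOf (nat_lit 8) (nat_lit 0xb88d0000640400f846800031020050234000180100110f18000b40801e88d00005604018446800181e30001502001911a0000a40800a00080028002000200080c0e83)))) 
(.lf (nat_lit 1342718511) (dlOf (nat_lit 1) (nat_lit 0x1000180c0e81)))) (.nd (nat_lit 6) 
(.lf (nat_lit 1346914735) (dlOf (nat_lit 2) (nat_lit 0x1c11a00b8302000200190a4e81))) 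
(.lf (nat_lit 1342718447) (dlOf (nat_lit 4) (nat_lit 0x480aa002105440047808012426e00233020090154001188180c0d80)))))) 
(.nd (nat_lit 6) (.nd (nat_lit 10) (.nd (nat_lit 9) (.nd (nat_lit 19) 
(.lf (nat_lit 470827055) (dlOf (nat_lit 1) (nat_lit 0x180080004002000400081c0703))) 
(.lf (nat_lit 3624419375) (dlOf (nat_lit 1) (nat_lit 0x14e00081a0601)))) 
(.lf (nat_lit 470303279) (dlOf (nat_lit 1) (nat_lit 0x1000180c0e81)))) (.nd (nat_lit 7) 
(.lf (nat_lit 939544111) (dlOf (nat_lit 1) (nat_lit 0xca0028007181))) (.nd (nat_lit 11) 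
(.lf (nat_lit 1476417455) (dlOf (nat_lit 2) (nat_lit 0x78000000c204004c0020014000800a402))) 
(.lf (nat_lit 1476415407) (dlOf (nat_lit 1) (nat_lit 0xa0008007a01)))))) (.nd (nat_lit 7) 
(.nd (nat_lit 30) (.nd (nat_lit 8) 
(.lf (nat_lit 473449583) (dlOf (nat_lit 1) (nat_lit 0x72800800b400201f00008f52a03))) 
(.lf (nat_lit 469784943) (dlOf (nat_lit 1) (nat_lit 0x40040002000800ad02)))) (.nd (nat_lit 26) 
(.lf (nat_lit 1476417647) (dlOf (nat_lit 1) (nat_lit 0x2000800a881))) 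
(.lf (nat_lit 3691010159) (dlOf (nat_lit 2) (nat_lit 0x48806c0148e040024002005c000800a882))))) 
(.nd (nat_lit 9) 
(.lf (nat_lit 470303215) (dlOf (nat_lit 4) (nat_lit 0x480aa002105440047808012426e00233020090154001188180c0d80))) 
(.nd (nat_lit 26) (.lf (nat_lit 5771381743) (dlOf (nat_lit 1) (nat_lit 0x400400020008005f02))) 
(.lf (nat_lit 5301619695) (dlOf (nat_lit 2) (nat_lit 0x1403a00004818005f00)))))))))) 
(.nd (nat_lit 5) (.nd (nat_lit 26) (.nd (nat_lit 6) (.nd (nat_lit 23) (.nd (nat_lit 27) 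
(.nd (nat_lit 7) (.nd (nat_lit 20) (.nd (nat_lit 28) 
(.lf (nat_lit 2684502031) (dlOf (nat_lit 5) (nat_lit 0x12401600046020008033000190100060198000500800a80cc0002204000800400080008080182))) 
(.lf (nat_lit 4026679311) (dlOf (nat_lit 1) (nat_lit 0x400400020008030882)))) (.nd (nat_lit 24) 
(.lf (nat_lit 5390351) (dlOf (nat_lit 2) (nat_lit 0x499880011204000400400620018360182))) 
(.lf (nat_lit 22167567) (dlOf (nat_lit 1) (nat_lit 0x40028aa0a01))))) (.nd (nat_lit 8) 
(.lf (nat_lit 20075151) (dlOf (nat_lit 1) (nat_lit 0x80080004002000200089d8c83))) (.nd (nat_lit 12) 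
(.lf (nat_lit 805457295) (dlOf (nat_lit 1) (nat_lit 0x20008116c81))) 
(.lf (nat_lit 3221380495) (dlOf (nat_lit 3) (nat_lit 0x12002f0033381003e0178019900801b800800d00020052000811c903)))))) 
(.nd (nat_lit 31) (.nd (nat_lit 8) (.nd (nat_lit 19) 
(.lf (nat_lit 2013413391) (dlOf (nat_lit 3) (nat_lit 0x801401bea04000c00a00df402000a0018060a01))) 
(.lf (nat_lit 134889487) (dlOf (nat_lit 3) (nat_lit 0x2804100d2281003702080690c080188008002c002001c00080d0883)))) 
(.lf (nat_lit 134368527) (dlOf (nat_lit 1) (nat_lit 0x20028006701)))) (.nd (nat_lit 7) 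
(.nd (nat_lit 19) 
(.lf (nat_lit 2281848847) (dlOf (nat_lit 2) (nat_lit 0x1c0380004502002a0018080181))) 
(.lf (nat_lit 2819244047) (dlOf (nat_lit 1) (nat_lit 0x400400020008200182)))) 
(.lf (nat_lit 3355591567) (dlOf (nat_lit 1) (nat_lit 0x400080a2581)))))) (.nd (nat_lit 19) 
(.nd (nat_lit 20) (.nd (nat_lit 21) 
(.lf (nat_lit 25313295) (dlOf (nat_lit 3) (nat_lit 0x155915009cc37806904100586454028b0de01a3f0400b80028bf0881))) 
(.lf (nat_lit 27410447) (dlOf (nat_lit 1) (nat_lit 0x1000400120008ce0182)))) (.nd (nat_lit 7) 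
(.lf (nat_lit 30556175) (dlOf (nat_lit 1) (nat_lit 0x8008000c00200020008e40783))) 
(.lf (nat_lit 11681935) (dlOf (nat_lit 1) (nat_lit 0x4002000200086c0102))))) (.nd (nat_lit 20) 
(.nd (nat_lit 24) (.lf (nat_lit 11157519) (dlOf (nat_lit 1) (nat_lit 0x400400020008660182))) 
(.lf (nat_lit 27934735) (dlOf (nat_lit 2) (nat_lit 0x8a2800046018d40180)))) (.nd (nat_lit 10) 
(.lf (nat_lit 10108943) (dlOf (nat_lit 1) (nat_lit 0x200285b0481))) 
(.lf (nat_lit 43664399) (dlOf (nat_lit 1) (nat_lit 0x200292a2881))))))) (.nd (nat_lit 19) 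
(.nd (nat_lit 7) (.nd (nat_lit 21) (.nd (nat_lit 28) 
(.lf (nat_lit 2147631183) (dlOf (nat_lit 1) (nat_lit 0x20028090001))) 
(.lf (nat_lit 4026679375) (dlOf (nat_lit 1) (nat_lit 0x8004009a0008031002)))) 
(.lf (nat_lit 52576335) (dlOf (nat_lit 8) (nat_lit 0x356090025304402317f60124bfa008b5948047aca0021d4f6008ca690000b88001c5fd80102ca40002c0802ed65200011020046bfb0036594800040100102fec00cd65200004040006bfb003459480000810011afec006d6520000004015e0019550701)))) 
(.nd (nat_lit 8) (.nd (nat_lit 11) 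
(.lf (nat_lit 13779151) (dlOf (nat_lit 2) (nat_lit 0x13d580039cc80008316000000600080008750481))) 
(.lf (nat_lit 6442600655) (dlOf (nat_lit 1) (nat_lit 0xa00180f4a01)))) 
(.lf (nat_lit 150991) (dlOf (nat_lit 1) (nat_lit 0x40028006d01))))) (.nd (nat_lit 20) 
(.nd (nat_lit 29) (.nd (nat_lit 7) 
(.lf (nat_lit 134889551) (dlOf (nat_lit 3) (nat_lit 0x2f80c4000ac0400b00620005402000200080d0d01))) 
(.lf (nat_lit 673999) (dlOf (nat_lit 1) (nat_lit 0x20008004a01)))) (.nd (nat_lit 8) 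
(.lf (nat_lit 805978191) (dlOf (nat_lit 2) (nat_lit 0x10012000800500006c1001980080008002000a0008201583))) 
(.lf (nat_lit 1611285839) (dlOf (nat_lit 1) (nat_lit 0xc00400040018123302))))) (.nd (nat_lit 21) 
(.lf (nat_lit 5773082703) (dlOf (nat_lit 1) (nat_lit 0x80080004002000200080a1703))) 
(.lf (nat_lit 45760591) (dlOf (nat_lit 1) (nat_lit 0x5800400060009360702))))))) (.nd (nat_lit 27) 
(.nd (nat_lit 30) (.nd (nat_lit 6) (.nd (nat_lit 7) (.nd (nat_lit 31) 
(.lf (nat_lit 67256335) (dlOf (nat_lit 2) (nat_lit 0x20d90001d818080100))) 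
(.lf (nat_lit 2214739983) (dlOf (nat_lit 2) (nat_lit 0x800c8001140800d00080008002001a0008080183)))) 
(.lf (nat_lit 6509710735) (dlOf (nat_lit 1) (nat_lit 0x2a0018146c81)))) (.nd (nat_lit 21) 
(.lf (nat_lit 604127311) (dlOf (nat_lit 1) (nat_lit 0x30008000800200380008030703))) 
(.lf (nat_lit 69353551) (dlOf (nat_lit 1) (nat_lit 0xc00400020018940702))))) (.nd (nat_lit 6) 
(.nd (nat_lit 7) (.nd (nat_lit 31) 
(.lf (nat_lit 1140998159) (dlOf (nat_lit 3) (nat_lit 0x8014012a204000c00a0095002000a0018060a01))) 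
(.lf (nat_lit 3288481807) (dlOf (nat_lit 1) (nat_lit 0x400400020008030882)))) 
(.lf (nat_lit 6241271951) (dlOf (nat_lit 1) (nat_lit 0x3000180d0401)))) (.nd (nat_lit 19) 
(.lf (nat_lit 3288481871) (dlOf (nat_lit 1) (nat_lit 0x8004009a0008031002))) 
(.lf (nat_lit 1678393423) (dlOf (nat_lit 2) (nat_lit 0x980ac000100200060008201901)))))) 
(.nd (nat_lit 11) (.nd (nat_lit 28) (.nd (nat_lit 6) (.nd (nat_lit 19) 
(.lf (nat_lit 3422699535) (dlOf (nat_lit 7) (nat_lit 0x61002c0008c0400140160004502000c032000200100340190000f00800100cc0005e040058066000140200860028060181))) 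
(.lf (nat_lit 201998351) (dlOf (nat_lit 3) (nat_lit 0x2804100ed50100370208076a0080188008002c002001c00080d0883)))) 
(.lf (nat_lit 201998415) (dlOf (nat_lit 3) (nat_lit 0x2f80c40009e0400b00620004d02000200080d0d01)))) 
(.nd (nat_lit 6) (.nd (nat_lit 9) 
(.lf (nat_lit 3154788367) (dlOf (nat_lit 2) (nat_lit 0xde016001fbc08026800800f000200380008320783))) 
(.lf (nat_lit 2617393679) (dlOf (nat_lit 1) (nat_lit 0x400080a1481)))) 
(.lf (nat_lit 1009401935) (dlOf (nat_lit 1) (nat_lit 0x18008001000200220009160003))))) 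
(.nd (nat_lit 6) (.nd (nat_lit 7) 
(.lf (nat_lit 5838621967) (dlOf (nat_lit 1) (nat_lit 0xc00180f6701))) (.nd (nat_lit 9) 
(.lf (nat_lit 1543653775) (dlOf (nat_lit 2) (nat_lit 0xc0250085e818144e80))) 
(.lf (nat_lit 473058191) (dlOf (nat_lit 1) (nat_lit 0x20028c95c81))))) (.nd (nat_lit 7) 
(.nd (nat_lit 8) 
(.lf (nat_lit 3959577167) (dlOf (nat_lit 2) (nat_lit 0xa002f001a01700000010004000800240020094000811b603))) 
(.lf (nat_lit 3959576911) (dlOf (nat_lit 2) (nat_lit 0x2200bc0093e0403f80020022000811ab82)))) 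
(.lf (nat_lit 201476303) (dlOf (nat_lit 1) (nat_lit 0x20028004a01)))))))) (.nd (nat_lit 29) 
(.nd (nat_lit 31) (.nd (nat_lit 23) (.nd (nat_lit 7) (.nd (nat_lit 32) (.nd (nat_lit 19) 
(.nd (nat_lit 26) (.lf (nat_lit 268582959) (dlOf (nat_lit 1) (nat_lit 0xc40028090381))) 
(.lf (nat_lit 67256367) (dlOf (nat_lit 2) (nat_lit 0xe85b00005a04007800200020008080682)))) 
(.lf (nat_lit 17449007) (dlOf (nat_lit 1) (nat_lit 0x4002000200088e0002)))) (.nd (nat_lit 9) 
(.nd (nat_lit 27) 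
(.lf (nat_lit 5368856623) (dlOf (nat_lit 7) (nat_lit 0x1c0020000b80800180b4041802a039801401b900880c48038033000a009e0010001587001900a8000a80800c8054000402800013040022015000a0070000301000c8054000000400f0002000c0008040382))) 
(.lf (nat_lit 5503074351) (dlOf (nat_lit 7) (nat_lit 0x30158083005407300280372011018900700660014013c002000340e00320150001981001c0020000ac0800c8054000402800013040022015000a0070000301000c8054000000400f0002000c0008040382)))) 
(.lf (nat_lit 4563552815) (dlOf (nat_lit 1) (nat_lit 0x5c004002e0018095182))))) (.nd (nat_lit 6) 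
(.nd (nat_lit 8) (.lf (nat_lit 678063) (dlOf (nat_lit 1) (nat_lit 0x1e002800a881))) 
(.lf (nat_lit 36850095) (dlOf (nat_lit 1) (nat_lit 0x8008000c00200040009074e83)))) 
(.lf (nat_lit 473579759) (dlOf (nat_lit 1) (nat_lit 0x2000400060008f61e82))))) (.nd (nat_lit 20) 
(.nd (nat_lit 22) (.nd (nat_lit 6) 
(.lf (nat_lit 25313327) (dlOf (nat_lit 3) (nat_lit 0x3b22a003786f0001382010cc8a800068080028008008800200e00008bf0b03))) 
(.lf (nat_lit 44188015) (dlOf (nat_lit 1) (nat_lit 0x200192d5801)))) (.nd (nat_lit 7) 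
(.nd (nat_lit 19) (.lf (nat_lit 14827567) (dlOf (nat_lit 1) (nat_lit 0xc00018780d01))) 
(.lf (nat_lit 15351855) (dlOf (nat_lit 2) (nat_lit 0x4545001b23a0000681000080080010002000600087e0703)))) 
(.lf (nat_lit 48383151) (dlOf (nat_lit 6) (nat_lit 0x6f9a0024741000238480017c180101d0400040000005d0400480000002c8100233a0800148080029d040009604006c00200240009402c02))))) 
(.nd (nat_lit 6) (.nd (nat_lit 24) 
(.lf (nat_lit 47333423) (dlOf (nat_lit 5) (nat_lit 0x25a4c001ad1800096820009afd8001d8200025a4c0012d18000d6820007afd8001d420005da4c0032d1800116820009afd8001d020002da4c0016d1800116820009afd8001cc2000080080004002000200093d0d03))) 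
(.lf (nat_lit 30556207) (dlOf (nat_lit 1) (nat_lit 0x60028e40e81)))) 
(.lf (nat_lit 11682287) (dlOf (nat_lit 2) (nat_lit 0x638c60031bd6000a88286c0d80)))))) 
(.nd (nat_lit 28) (.nd (nat_lit 8) (.nd (nat_lit 9) (.nd (nat_lit 19) 
(.lf (nat_lit 3288481839) (dlOf (nat_lit 1) (nat_lit 0x80080030002000e0008030c83))) 
(.lf (nat_lit 3221897263) (dlOf (nat_lit 2) (nat_lit 0x76043001601c0001541002a000800f8002000e00081b0683)))) 
(.lf (nat_lit 2147633711) (dlOf (nat_lit 1) (nat_lit 0x20028095181)))) (.nd (nat_lit 6) 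
(.lf (nat_lit 3221376431) (dlOf (nat_lit 1) (nat_lit 0x20028116d01))) 
(.lf (nat_lit 3221375343) (dlOf (nat_lit 3) (nat_lit 0x4c0a60145602009602f008cd818114e80))))) 
(.nd (nat_lit 27) (.nd (nat_lit 32) 
(.lf (nat_lit 2416066607) (dlOf (nat_lit 1) (nat_lit 0x20008000c00200080008030c83))) 
(.lf (nat_lit 6711033903) (dlOf (nat_lit 1) (nat_lit 0x400400080008040382)))) (.nd (nat_lit 6) 
(.lf (nat_lit 2550284335) (dlOf (nat_lit 1) (nat_lit 0x20008000c00200080008030c83))) 
(.lf (nat_lit 2617398511) (dlOf (nat_lit 1) (nat_lit 0x600080044002003000080a9503))))))) 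
(.nd (nat_lit 26) (.nd (nat_lit 28) (.nd (nat_lit 7) (.nd (nat_lit 27) 
(.lf (nat_lit 4831985711) (dlOf (nat_lit 1) (nat_lit 0x400400020008070482))) 
(.lf (nat_lit 4966203439) (dlOf (nat_lit 2) (nat_lit 0xd40200002b0200040028040381)))) 
(.nd (nat_lit 6) (.lf (nat_lit 671238063) (dlOf (nat_lit 2) (nat_lit 0xe00500001818144380))) 
(.lf (nat_lit 5905729519) (dlOf (nat_lit 1) (nat_lit 0x20028144601))))) (.nd (nat_lit 31) 
(.nd (nat_lit 6) (.nd (nat_lit 19) 
(.lf (nat_lit 5100421167) (dlOf (nat_lit 1) (nat_lit 0x400400020008070482))) 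
(.lf (nat_lit 805978159) (dlOf (nat_lit 1) (nat_lit 0x120028200e81)))) 
(.lf (nat_lit 5234639215) (dlOf (nat_lit 1) (nat_lit 0x40028075801)))) (.nd (nat_lit 30) 
(.lf (nat_lit 2952937519) (dlOf (nat_lit 1) (nat_lit 0x1000200040008030482))) 
(.lf (nat_lit 4026679343) (dlOf (nat_lit 1) (nat_lit 0x80080030002000e0008030c83)))))) 
(.nd (nat_lit 27) (.nd (nat_lit 6) (.nd (nat_lit 28) 
(.lf (nat_lit 604127279) (dlOf (nat_lit 1) (nat_lit 0xa0018030481))) 
(.lf (nat_lit 5167530031) (dlOf (nat_lit 8) (nat_lit 0x200a000068040008046005e022000500c8000b81801f80a00180032000280400b4028004500c80009c1002180a00004a04012005000024020022028000f00c80004c1000580080064002000c0008080383)))) 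
(.nd (nat_lit 7) (.lf (nat_lit 2755805551) (dlOf (nat_lit 1) (nat_lit 0x10002000200081b0782))) 
(.nd (nat_lit 9) (.lf (nat_lit 4094312943) (dlOf (nat_lit 1) (nat_lit 0x400400020008037402))) 
(.lf (nat_lit 1677871087) (dlOf (nat_lit 1) (nat_lit 0x20018114601)))))) (.nd (nat_lit 19) 
(.nd (nat_lit 30) 
(.lf (nat_lit 5033312303) (dlOf (nat_lit 2) (nat_lit 0xd40200002e0200040028040381))) 
(.lf (nat_lit 6107054127) (dlOf (nat_lit 1) (nat_lit 0x400400080008040382)))) (.nd (nat_lit 28) 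
(.lf (nat_lit 3960094767) (dlOf (nat_lit 2) (nat_lit 0x76043001601c0001541002a000800f8002000e00081b0683))) 
(.lf (nat_lit 3154788399) (dlOf (nat_lit 2) (nat_lit 0x381680006c040018004000c0008320e82)))))))))) 
(.nd (nat_lit 17) (.nd (nat_lit 5) (.nd (nat_lit 6) (.nd (nat_lit 28) (.nd (nat_lit 24) 
(.nd (nat_lit 29) (.nd (nat_lit 21) (.nd (nat_lit 26) (.nd (nat_lit 27) 
(.lf (nat_lit 4295245839) (dlOf (nat_lit 2) (nat_lit 0xa0260008c0180c0080))) 
(.lf (nat_lit 4429463567) (dlOf (nat_lit 2) (nat_lit 0xa027000438180c0080)))) (.nd (nat_lit 7) 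
(.lf (nat_lit 67387407) (dlOf (nat_lit 1) (nat_lit 0x200080f0001))) 
(.lf (nat_lit 5570317199) (dlOf (nat_lit 1) (nat_lit 0xa00180d5c81))))) (.nd (nat_lit 10) 
(.nd (nat_lit 19) (.lf (nat_lit 44318735) (dlOf (nat_lit 1) (nat_lit 0x78004002e00092f0082))) 
(.lf (nat_lit 11288591) (dlOf (nat_lit 3) (nat_lit 0x20ac2001455f0002b0200032b08000b8080050008002000200040008680183)))) 
(.lf (nat_lit 36455439) (dlOf (nat_lit 1) (nat_lit 0x50002001a0009072882))))) (.nd (nat_lit 26) 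
(.nd (nat_lit 7) (.nd (nat_lit 27) 
(.lf (nat_lit 3758374927) (dlOf (nat_lit 1) (nat_lit 0xa00008160301))) 
(.lf (nat_lit 671367183) (dlOf (nat_lit 7) (nat_lit 0x4d804c03b5404025c02601da802010a01f00ed301008a00f8076900802780a001fc03e01d4304001a0280068f818170880)))) 
(.lf (nat_lit 5905858959) (dlOf (nat_lit 1) (nat_lit 0x400400020018156182)))) (.nd (nat_lit 19) 
(.lf (nat_lit 1812217871) (dlOf (nat_lit 2) (nat_lit 0x20098000f604001000400140018180482))) 
(.lf (nat_lit 2754363407) (dlOf (nat_lit 2) (nat_lit 0x50448000f40800a00080040002002c00080e0103)))))) 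
(.nd (nat_lit 22) (.nd (nat_lit 10) (.nd (nat_lit 7) 
(.lf (nat_lit 60571663) (dlOf (nat_lit 1) (nat_lit 0x8008005c002001400098b0083))) 
(.lf (nat_lit 20205967) (dlOf (nat_lit 1) (nat_lit 0x8002000200089d8382)))) (.nd (nat_lit 11) 
(.lf (nat_lit 51659791) (dlOf (nat_lit 1) (nat_lit 0x400200020009512882))) 
(.lf (nat_lit 20204559) (dlOf (nat_lit 1) (nat_lit 0x200289d5f81))))) (.nd (nat_lit 20) 
(.nd (nat_lit 7) (.lf (nat_lit 23347215) (dlOf (nat_lit 1) (nat_lit 0x8008000c00200020008b80003))) 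
(.lf (nat_lit 54807439) (dlOf (nat_lit 1) (nat_lit 0x40029655c81)))) (.nd (nat_lit 23) 
(.lf (nat_lit 22298639) (dlOf (nat_lit 1) (nat_lit 0x400400020018ac0082))) 
(.lf (nat_lit 30687247) (dlOf (nat_lit 3) (nat_lit 0x39c8d001fbc08003519c00e4e04013800400180008e40782))))))) 
(.nd (nat_lit 27) (.nd (nat_lit 20) (.nd (nat_lit 19) (.nd (nat_lit 29) (.nd (nat_lit 30) 
(.lf (nat_lit 4563681295) (dlOf (nat_lit 3) (nat_lit 0xc03300b9c81000d019805084080050008000c002000c00080c0003))) 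
(.lf (nat_lit 1342455823) (dlOf (nat_lit 2) (nat_lit 0x2842a80089c0200160008030881)))) 
(.lf (nat_lit 1879326735) (dlOf (nat_lit 5) (nat_lit 0x140ae000a0540006028800301380000c1000180ae000e0540007028800381380000a1000280ae00080540007028800381380000810001c0b0000a057000602a00040144001c09c000030a001400080e0481)))) 
(.lf (nat_lit 3492560911) (dlOf (nat_lit 2) (nat_lit 0x50460000f40800a00080040002002c00080e0103)))) 
(.nd (nat_lit 7) (.nd (nat_lit 11) 
(.lf (nat_lit 1343504399) (dlOf (nat_lit 2) (nat_lit 0xc424001618d00046028280180))) 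
(.lf (nat_lit 3493087247) (dlOf (nat_lit 1) (nat_lit 0x10008000c002000a00080f4703)))) 
(.lf (nat_lit 3493087375) (dlOf (nat_lit 2) (nat_lit 0x16811000060040054002001000080f4802))))) 
(.nd (nat_lit 26) (.nd (nat_lit 29) (.nd (nat_lit 19) 
(.lf (nat_lit 4697899023) (dlOf (nat_lit 3) (nat_lit 0xc03300aed81000d0198050c4080050008000c002000c00080c0003))) 
(.lf (nat_lit 5773213711) (dlOf (nat_lit 7) (nat_lit 0xc12f0065d8100290978032e00802684bc0196e04001825e00cb402002e12f0064f8100060978000000802200080004002004200080b0003)))) 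
(.nd (nat_lit 7) 
(.lf (nat_lit 939802639) (dlOf (nat_lit 2) (nat_lit 0x200980017204001000400140018180482))) 
(.lf (nat_lit 6308514703) (dlOf (nat_lit 1) (nat_lit 0x400180d5c81))))) (.nd (nat_lit 29) 
(.nd (nat_lit 30) 
(.lf (nat_lit 470040591) (dlOf (nat_lit 2) (nat_lit 0x2842a800ebf0200160008030881))) 
(.lf (nat_lit 1543782415) (dlOf (nat_lit 7) (nat_lit 0x4d804c0348a04025c02601a4302010a01f00d2081008a00f8068fc0802780a001fc03e019dc04001a028003bf018170880)))) 
(.nd (nat_lit 19) 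
(.lf (nat_lit 1006911503) (dlOf (nat_lit 5) (nat_lit 0x140ae000a0540006028800301380000c1000180ae000e0540007028800381380000a1000280ae00080540007028800381380000810001c0b0000a057000602a00040144001c09c000030a001400080e0481))) 
(.lf (nat_lit 6377193487) (dlOf (nat_lit 7) (nat_lit 0xc12000389010029090001c2c08026848000e140400182400070702002e1200037b0100060900000000802200080004002004200080b0003)))))))) 
(.nd (nat_lit 20) (.nd (nat_lit 26) (.nd (nat_lit 27) (.nd (nat_lit 11) (.nd (nat_lit 23) 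
(.lf (nat_lit 17580111) (dlOf (nat_lit 2) (nat_lit 0x3dd88008eebc000be080018004000400188e0202))) 
(.lf (nat_lit 59523151) (dlOf (nat_lit 10) (nat_lit 0x467c000228100d633e804819f00284ccc014a59400f82c98082139803d49a8000160e00b667d00892ca0000541000799f0011cccc0088594001526a0025800000022140018cfa00745940000802000133e806c1650000060801b8cfa0144594000010200022ca0000040806119f40464b280000004000e0019800701)))) 
(.nd (nat_lit 7) (.lf (nat_lit 35932751) (dlOf (nat_lit 1) (nat_lit 0x20019015281))) 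
(.lf (nat_lit 280783) (dlOf (nat_lit 1) (nat_lit 0x20028004a01))))) (.nd (nat_lit 29) 
(.nd (nat_lit 7) (.lf (nat_lit 402931791) (dlOf (nat_lit 1) (nat_lit 0x4004000200080b0682))) 
(.lf (nat_lit 4697899215) (dlOf (nat_lit 2) (nat_lit 0x5e014000168180c1800)))) (.nd (nat_lit 28) 
(.lf (nat_lit 671367247) (dlOf (nat_lit 4) (nat_lit 0xa8094082c03e0004004036e01f0001f81018c00f8000f80801b80080128002001e0008171003))) 
(.lf (nat_lit 3087286351) (dlOf (nat_lit 1) (nat_lit 0x400400020008171002)))))) (.nd (nat_lit 30) 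
(.nd (nat_lit 7) (.lf (nat_lit 335822927) (dlOf (nat_lit 1) (nat_lit 0x4004000200080b0682))) 
(.nd (nat_lit 9) 
(.lf (nat_lit 6509838799) (dlOf (nat_lit 1) (nat_lit 0x800800bc00200220008157103))) 
(.lf (nat_lit 2751742927) (dlOf (nat_lit 1) (nat_lit 0xa0018002881))))) (.nd (nat_lit 27) 
(.nd (nat_lit 29) 
(.lf (nat_lit 5436096591) (dlOf (nat_lit 2) (nat_lit 0x40044001c6040010004000400180d1702))) 
(.lf (nat_lit 3825483855) (dlOf (nat_lit 1) (nat_lit 0x400400020008171002)))) 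
(.lf (nat_lit 1543782479) (dlOf (nat_lit 4) (nat_lit 0xa8094082c03e0004704036e01f0002301018c00f8001140801b80080128002001e0008171003)))))) 
(.nd (nat_lit 8) (.nd (nat_lit 28) (.nd (nat_lit 7) (.nd (nat_lit 19) 
(.lf (nat_lit 68436047) (dlOf (nat_lit 2) (nat_lit 0xa0200002f818570200))) 
(.lf (nat_lit 45891663) (dlOf (nat_lit 1) (nat_lit 0x1c002000e0009360702)))) 
(.lf (nat_lit 14434511) (dlOf (nat_lit 1) (nat_lit 0x400200020008750482)))) (.nd (nat_lit 21) 
(.nd (nat_lit 26) 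
(.lf (nat_lit 5773213775) (dlOf (nat_lit 12) (nat_lit 0x3904c0000ac0401d4260000550200781300002a01007709f004984c4000440801682620001b0200c61310000d01011a0988000580807804f804382620001304032e13e01a10988000481006e84f804042620001104014013e00df098800040100268008014800205c600080b0683))) 
(.lf (nat_lit 6377193551) (dlOf (nat_lit 12) (nat_lit 0x390484000ac0401d4242000550200781210002a01007709880498488000440801682440001b0200c61220000d01011a0910000580807804c404382440001304032e13101a10910000481006e84c404042440001104014013100df091000040100268008014800205c600080b0683)))) 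
(.lf (nat_lit 1346125903) (dlOf (nat_lit 4) (nat_lit 0x201ae000170200020d70000b01000906b8000000800a0008005400200320008e60703))))) 
(.nd (nat_lit 19) (.nd (nat_lit 10) 
(.lf (nat_lit 9716047) (dlOf (nat_lit 1) (nat_lit 0x400400020008574c82))) 
(.lf (nat_lit 20204879) (dlOf (nat_lit 1) (nat_lit 0x4004000200089d6a02)))) (.nd (nat_lit 7) 
(.lf (nat_lit 1851727) (dlOf (nat_lit 1) (nat_lit 0x20018150601))) 
(.lf (nat_lit 50086863) (dlOf (nat_lit 1) (nat_lit 0x1c002000600094c2882)))))))) (.nd (nat_lit 8) 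
(.nd (nat_lit 19) (.nd (nat_lit 31) (.nd (nat_lit 7) (.nd (nat_lit 22) (.nd (nat_lit 29) 
(.nd (nat_lit 20) 
(.lf (nat_lit 1409564719) (dlOf (nat_lit 1) (nat_lit 0x18008000c00200020008030c83))) 
(.lf (nat_lit 1327151) (dlOf (nat_lit 1) (nat_lit 0x5400080b0581)))) (.nd (nat_lit 9) 
(.lf (nat_lit 537149487) (dlOf (nat_lit 1) (nat_lit 0x18008000c00200020008030c83))) 
(.lf (nat_lit 5905859119) (dlOf (nat_lit 1) (nat_lit 0x8008015000200480008158b03))))) 
(.nd (nat_lit 21) (.lf (nat_lit 12861487) (dlOf (nat_lit 1) (nat_lit 0x200286e0a01))) 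
(.lf (nat_lit 14958639) (dlOf (nat_lit 1) (nat_lit 0x48004000200087a0d02))))) (.nd (nat_lit 27) 
(.lf (nat_lit 4563681455) (dlOf (nat_lit 2) (nat_lit 0x22015000088180c1580))) (.nd (nat_lit 28) 
(.lf (nat_lit 1208238255) (dlOf (nat_lit 1) (nat_lit 0x4004000200080a2d82))) 
(.lf (nat_lit 4697899183) (dlOf (nat_lit 1) (nat_lit 0x3c00280c1581)))))) (.nd (nat_lit 9) 
(.nd (nat_lit 6) (.nd (nat_lit 26) 
(.lf (nat_lit 3087286319) (dlOf (nat_lit 1) (nat_lit 0x8008000400200020008170c83))) 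
(.lf (nat_lit 3825483823) (dlOf (nat_lit 1) (nat_lit 0x8008000400200020008170c83)))) 
(.nd (nat_lit 27) 
(.lf (nat_lit 2483306607) (dlOf (nat_lit 1) (nat_lit 0x200080040002000600080a1583))) 
(.lf (nat_lit 2349088879) (dlOf (nat_lit 1) (nat_lit 0x200080040002000600080a1583))))) 
(.nd (nat_lit 26) 
(.lf (nat_lit 3221504559) (dlOf (nat_lit 1) (nat_lit 0x18008000400200020008128003))) 
(.nd (nat_lit 27) (.lf (nat_lit 6509838895) (dlOf (nat_lit 1) (nat_lit 0x400400160008158002))) 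
(.lf (nat_lit 3959702063) (dlOf (nat_lit 1) (nat_lit 0x20028128b01))))))) (.nd (nat_lit 20) 
(.nd (nat_lit 21) (.nd (nat_lit 23) 
(.lf (nat_lit 1342980143) (dlOf (nat_lit 1) (nat_lit 0x20018120e81))) 
(.lf (nat_lit 9191471) (dlOf (nat_lit 1) (nat_lit 0x8008000400200020008530483)))) (.nd (nat_lit 26) 
(.nd (nat_lit 28) (.lf (nat_lit 2900015) (dlOf (nat_lit 1) (nat_lit 0x20008000c002000400081d0683))) 
(.lf (nat_lit 3492560943) (dlOf (nat_lit 2) (nat_lit 0x981f4000a204001c002006000080e0682)))) 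
(.lf (nat_lit 2754363439) (dlOf (nat_lit 2) (nat_lit 0x981ec000a204001c002006000080e0682))))) 
(.nd (nat_lit 28) (.nd (nat_lit 7) (.nd (nat_lit 24) 
(.lf (nat_lit 10240047) (dlOf (nat_lit 1) (nat_lit 0x4004000200185c0c82))) 
(.lf (nat_lit 27017263) (dlOf (nat_lit 5) (nat_lit 0x24ec2800380000007c0801100000003702006e0000001a8100330000000000800200080180002000e0008ca0703)))) 
(.nd (nat_lit 25) (.lf (nat_lit 68961455) (dlOf (nat_lit 1) (nat_lit 0x20018842c01))) 
(.lf (nat_lit 35407023) (dlOf (nat_lit 1) (nat_lit 0x400200020009012c02))))) (.nd (nat_lit 9) 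
(.nd (nat_lit 26) 
(.lf (nat_lit 5773213743) (dlOf (nat_lit 2) (nat_lit 0x4109f802384c8000fc080004002001800080b0482))) 
(.lf (nat_lit 6377193519) (dlOf (nat_lit 2) (nat_lit 0x410990023848c000fc080004002001800080b0482)))) 
(.lf (nat_lit 1880902191) (dlOf (nat_lit 1) (nat_lit 0x20028c95181))))))) (.nd (nat_lit 11) 
(.nd (nat_lit 20) (.nd (nat_lit 6) (.nd (nat_lit 19) 
(.lf (nat_lit 201605423) (dlOf (nat_lit 1) (nat_lit 0x120028048401))) 
(.lf (nat_lit 202129711) (dlOf (nat_lit 1) (nat_lit 0x4004001800081b0502)))) (.nd (nat_lit 26) 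
(.lf (nat_lit 2550415727) (dlOf (nat_lit 1) (nat_lit 0x640008090781))) 
(.lf (nat_lit 3154395503) (dlOf (nat_lit 1) (nat_lit 0x400200020008160a02))))) (.nd (nat_lit 7) 
(.nd (nat_lit 6) (.lf (nat_lit 2752790831) (dlOf (nat_lit 2) (nat_lit 0xa0890024b018048400))) 
(.lf (nat_lit 3424623) (dlOf (nat_lit 1) (nat_lit 0xc00400040018200782)))) (.nd (nat_lit 10) 
(.lf (nat_lit 41173423) (dlOf (nat_lit 1) (nat_lit 0x400400020009226e82))) 
(.lf (nat_lit 8144303) (dlOf (nat_lit 1) (nat_lit 0x400200020008513602)))))) (.nd (nat_lit 7) 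
(.nd (nat_lit 27) (.nd (nat_lit 6) 
(.lf (nat_lit 54807343) (dlOf (nat_lit 1) (nat_lit 0xc00400020009655c02))) 
(.lf (nat_lit 3489941871) (dlOf (nat_lit 1) (nat_lit 0x60028004e81)))) (.nd (nat_lit 26) 
(.lf (nat_lit 6308514607) (dlOf (nat_lit 1) (nat_lit 0x2200280d5c01))) 
(.lf (nat_lit 5570317103) (dlOf (nat_lit 1) (nat_lit 0x600180d5c01))))) (.nd (nat_lit 6) 
(.nd (nat_lit 9) (.lf (nat_lit 19683759) (dlOf (nat_lit 1) (nat_lit 0x3800289daf81))) 
(.nd (nat_lit 19) (.lf (nat_lit 2754894767) (dlOf (nat_lit 1) (nat_lit 0x18004000a00080fbd82))) 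
(.lf (nat_lit 537680815) (dlOf (nat_lit 1) (nat_lit 0x200280fbd81))))) (.nd (nat_lit 9) 
(.lf (nat_lit 58477039) (dlOf (nat_lit 1) (nat_lit 0x200297e4f01))) 
(.lf (nat_lit 738479087) (dlOf (nat_lit 2) (nat_lit 0xb02d000100080030008001c00200040008095f03))))))))) 
(.nd (nat_lit 6) (.nd (nat_lit 28) (.nd (nat_lit 22) (.nd (nat_lit 26) (.nd (nat_lit 20) 
(.nd (nat_lit 5) (.nd (nat_lit 21) 
(.lf (nat_lit 3355852815) (dlOf (nat_lit 5) (nat_lit 0x500640004a020012032000218100040190001080800280c80008204002800400140008130102))) 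
(.lf (nat_lit 2506767) (dlOf (nat_lit 1) (nat_lit 0x80028160681)))) 
(.lf (nat_lit 3355852847) (dlOf (nat_lit 2) (nat_lit 0xe00c002c80000005a08001c002001c0008130682)))) 
(.nd (nat_lit 10) 
(.lf (nat_lit 35012623) (dlOf (nat_lit 2) (nat_lit 0x309e800098080008008000400200060008fc0203))) 
(.lf (nat_lit 20335631) (dlOf (nat_lit 1) (nat_lit 0x400289d5f81))))) (.nd (nat_lit 9) 
(.nd (nat_lit 10) (.nd (nat_lit 29) 
(.lf (nat_lit 3288743951) (dlOf (nat_lit 1) (nat_lit 0x400080d0881))) 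
(.lf (nat_lit 1678131215) (dlOf (nat_lit 1) (nat_lit 0x80080004002000200081a0003)))) 
(.lf (nat_lit 2751874063) (dlOf (nat_lit 1) (nat_lit 0x20018002881)))) (.nd (nat_lit 5) 
(.nd (nat_lit 7) 
(.lf (nat_lit 2752397839) (dlOf (nat_lit 4) (nat_lit 0x102480025d81000a1240012e80800089200094c04000c00200040008018402))) 
(.lf (nat_lit 604392335) (dlOf (nat_lit 1) (nat_lit 0x20018205c81)))) 
(.lf (nat_lit 2751874991) (dlOf (nat_lit 1) (nat_lit 0xa0028004381)))))) (.nd (nat_lit 19) 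
(.nd (nat_lit 21) (.nd (nat_lit 5) (.nd (nat_lit 7) 
(.lf (nat_lit 38159375) (dlOf (nat_lit 1) (nat_lit 0x20019132881))) 
(.lf (nat_lit 21381519) (dlOf (nat_lit 3) (nat_lit 0x5d6e0033f0100c5eb700016e1000cf80808e400400020008a35d82)))) 
(.lf (nat_lit 54935599) (dlOf (nat_lit 1) (nat_lit 0x18008000400200020009670483)))) 
(.nd (nat_lit 5) (.nd (nat_lit 20) 
(.lf (nat_lit 6701071) (dlOf (nat_lit 1) (nat_lit 0x800200040008440a02))) 
(.lf (nat_lit 7749647) (dlOf (nat_lit 1) (nat_lit 0x8002000400084d0a02)))) 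
(.lf (nat_lit 15089711) (dlOf (nat_lit 1) (nat_lit 0x1200287b0901))))) (.nd (nat_lit 9) 
(.nd (nat_lit 5) (.nd (nat_lit 10) 
(.lf (nat_lit 22953999) (dlOf (nat_lit 3) (nat_lit 0x7ec7c00094bf000611f800708dc0008c100520000000450200160018b40181))) 
(.lf (nat_lit 57558031) (dlOf (nat_lit 1) (nat_lit 0x9800200220009792882)))) 
(.lf (nat_lit 21905455) (dlOf (nat_lit 1) (nat_lit 0x400400020008a80c82)))) (.nd (nat_lit 7) 
(.lf (nat_lit 8275471) (dlOf (nat_lit 1) (nat_lit 0xc004000e0018513682))) 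
(.lf (nat_lit 8277903) (dlOf (nat_lit 1) (nat_lit 0x8008000400200020008517783))))))) 
(.nd (nat_lit 19) (.nd (nat_lit 26) (.nd (nat_lit 11) (.nd (nat_lit 5) 
(.lf (nat_lit 4026941455) (dlOf (nat_lit 1) (nat_lit 0x400080d0881))) 
(.lf (nat_lit 5637554223) (dlOf (nat_lit 2) (nat_lit 0x11e02500015818100380)))) (.nd (nat_lit 7) 
(.lf (nat_lit 5771774991) (dlOf (nat_lit 1) (nat_lit 0x38008000400200080008005f83))) 
(.lf (nat_lit 3490072975) (dlOf (nat_lit 1) (nat_lit 0x20018004e81))))) (.nd (nat_lit 5) 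
(.nd (nat_lit 10) 
(.lf (nat_lit 2617655311) (dlOf (nat_lit 2) (nat_lit 0x17000000000040030002000e0008130102))) 
(.lf (nat_lit 4094051343) (dlOf (nat_lit 1) (nat_lit 0x8008000800200180008002883)))) 
(.nd (nat_lit 27) (.lf (nat_lit 6241533999) (dlOf (nat_lit 2) (nat_lit 0x11e02600017018100380))) 
(.lf (nat_lit 3154526255) (dlOf (nat_lit 13) (nat_lit 0x42802d000c80bc0f680060004106079c05a001501a005900bc0e2000600040080aca05a009c02a806080d0091005e0a260030001f05022602d00f9800c0007a0800040b40003c0203ac064000803100bc01800cf00b4031805901b102a806f815001e809a0380034004a01780b980a005b0028003c00602f20018000dc7008e019003240c004fa05a00cc02c807d815401140a8001404d010801a005680bc0314050018001402420018000d860005019003100b4001c05900d602a0015000c0006a1400040b4000340200f005400011010028016000008080dc01900ce00b4031405900db02a8069815001b009a0110045006001c005d80d0023005e04b802e004e01600a780a00bd800604b8002011900000000080153800801e8002001800081f0703)))))) 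
(.nd (nat_lit 8) (.nd (nat_lit 26) (.nd (nat_lit 9) 
(.lf (nat_lit 1879982127) (dlOf (nat_lit 1) (nat_lit 0x200184a0981))) 
(.lf (nat_lit 3490595375) (dlOf (nat_lit 20) (nat_lit 0x7807b406c42b0000690401ce1ed00080f18082075004103a6035a15801b40ab80010544033828401bc141000340900db0f680d78560009c2ae000670601b61ed01b00ac0005855c000cc0c03c03da00201d401b10ac0086055c0090284000440a003215800780ab80010c1007387b400783d800581e100010ef003a875004142c8035c15801b40ab806785080374282000421401ba1ed008b0ea00d88560000820c03543da01261d401a90ac00c4055c0038284000400a013a1e600fa0f1007d0594076c2a803a8152004409d004704d4000481c004c3f801301e600230f2007c878801743be00581cb00fa0b280ec855007542a4008613a008d09a80008c58005092c01343de00be1e600180f1003d877c00642ca013c15c01b00aa0062854800782740002214000c1fb00900f3000b079007382a803981520001005004f0f300e3055001f82a40001f0600801fb000b0f48041079800403c8003215c01c20aa00df05480003c1c02383f600c81e600380ae00da855006ac2a4009e1350000e8601b30a900007008031079806c82a80001b04002e233001e09e8000001008e800805a80020c180008018003))))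 
(.nd (nat_lit 7) (.lf (nat_lit 1007566895) (dlOf (nat_lit 1) (nat_lit 0x200184a0981))) 
(.lf (nat_lit 471750831) (dlOf (nat_lit 1) (nat_lit 0xc00283da881))))) (.nd (nat_lit 5) 
(.nd (nat_lit 7) 
(.lf (nat_lit 3492693775) (dlOf (nat_lit 2) (nat_lit 0x7006600150200000641000080080018002000600080f3b83))) 
(.lf (nat_lit 1345210767) (dlOf (nat_lit 1) (nat_lit 0x28008002400200100008b04e83)))) 
(.nd (nat_lit 7) 
(.lf (nat_lit 3493740847) (dlOf (nat_lit 1) (nat_lit 0x19800800a000200a400081b0503))) 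
(.lf (nat_lit 4095623599) (dlOf (nat_lit 1) (nat_lit 0xa00180e1001)))))))) (.nd (nat_lit 19) 
(.nd (nat_lit 5) (.nd (nat_lit 8) (.nd (nat_lit 25) (.nd (nat_lit 7) (.nd (nat_lit 20) 
(.lf (nat_lit 1074151503) (dlOf (nat_lit 1) (nat_lit 0x80080064002000600080c1903))) 
(.lf (nat_lit 9846863) (dlOf (nat_lit 1) (nat_lit 0x20018580501)))) 
(.lf (nat_lit 14041295) (dlOf (nat_lit 1) (nat_lit 0x20008003000200020008750483)))) 
(.nd (nat_lit 9) (.nd (nat_lit 22) 
(.lf (nat_lit 61227087) (dlOf (nat_lit 1) (nat_lit 0xc004000600098e0702))) 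
(.lf (nat_lit 48644175) (dlOf (nat_lit 1) (nat_lit 0xe0019420701)))) 
(.lf (nat_lit 42355279) (dlOf (nat_lit 1) (nat_lit 0x420019245281))))) (.nd (nat_lit 10) 
(.nd (nat_lit 7) (.nd (nat_lit 27) 
(.lf (nat_lit 4362486095) (dlOf (nat_lit 1) (nat_lit 0x80028090601))) 
(.lf (nat_lit 4228268367) (dlOf (nat_lit 1) (nat_lit 0x80028090601)))) 
(.lf (nat_lit 21381583) (dlOf (nat_lit 1) (nat_lit 0x18c00400d80008a37102)))) (.nd (nat_lit 21) 
(.lf (nat_lit 4094051663) (dlOf (nat_lit 1) (nat_lit 0x1c00400140018003302))) 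
(.lf (nat_lit 5773870415) (dlOf (nat_lit 2) (nat_lit 0x204fc00282640002504000200180e3301)))))) 
(.nd (nat_lit 29) (.nd (nat_lit 7) (.nd (nat_lit 20) 
(.lf (nat_lit 3221635183) (dlOf (nat_lit 1) (nat_lit 0x400400020008170002))) 
(.lf (nat_lit 9846895) (dlOf (nat_lit 1) (nat_lit 0x570008021400201cc0008580c83)))) 
(.nd (nat_lit 9) (.lf (nat_lit 19284207) (dlOf (nat_lit 1) (nat_lit 0x400200020008970602))) 
(.lf (nat_lit 8798959) (dlOf (nat_lit 4) (nat_lit 0x2da700038c080016d38001c204001369c0007602000a0028512101))))) 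
(.nd (nat_lit 8) (.lf (nat_lit 805716079) (dlOf (nat_lit 1) (nat_lit 0x200281a0001))) 
(.nd (nat_lit 26) (.lf (nat_lit 1611022703) (dlOf (nat_lit 1) (nat_lit 0x200180c5801))) 
(.lf (nat_lit 738607471) (dlOf (nat_lit 1) (nat_lit 0x200180c5801))))))) (.nd (nat_lit 30) 
(.nd (nat_lit 27) (.nd (nat_lit 20) (.nd (nat_lit 22) 
(.lf (nat_lit 42877007) (dlOf (nat_lit 1) (nat_lit 0x8008002c00200020009280703))) 
(.lf (nat_lit 21905487) (dlOf (nat_lit 1) (nat_lit 0x1500080440002009c0008a81003)))) 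
(.nd (nat_lit 7) (.lf (nat_lit 18759759) (dlOf (nat_lit 1) (nat_lit 0x400200020008970202))) 
(.lf (nat_lit 43925967) (dlOf (nat_lit 2) (nat_lit 0x56738000740800780080018002000c00092a1103))))) 
(.nd (nat_lit 7) (.nd (nat_lit 8) 
(.lf (nat_lit 2819506255) (dlOf (nat_lit 1) (nat_lit 0x80080004002000200082c0203))) 
(.lf (nat_lit 472794447) (dlOf (nat_lit 1) (nat_lit 0x60008008c00200100008b03303)))) 
(.nd (nat_lit 26) 
(.lf (nat_lit 2819506383) (dlOf (nat_lit 2) (nat_lit 0x501b0005e40800f00080020002004400082c0503))) 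
(.lf (nat_lit 470696143) (dlOf (nat_lit 1) (nat_lit 0x400200020008150482)))))) (.nd (nat_lit 5) 
(.nd (nat_lit 21) (.nd (nat_lit 7) 
(.lf (nat_lit 3557703759) (dlOf (nat_lit 1) (nat_lit 0x80080004002000200082c0203))) 
(.lf (nat_lit 3557703887) (dlOf (nat_lit 2) (nat_lit 0x501c0005380800f00080020002004400082c0503)))) 
(.nd (nat_lit 8) (.lf (nat_lit 3492694223) (dlOf (nat_lit 1) (nat_lit 0x200080f4a01))) 
(.lf (nat_lit 1346257359) (dlOf (nat_lit 10) (nat_lit 0x30038000fc08003801c0007a04001800e0003402000c0070001501000500380008008003001c0003a04001800e0000c02000c00700004810006003800000080070008002c00200040008e81103))))) 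
(.nd (nat_lit 8) (.nd (nat_lit 9) 
(.lf (nat_lit 5772297455) (dlOf (nat_lit 1) (nat_lit 0x400200020008092e82))) 
(.lf (nat_lit 3492693743) (dlOf (nat_lit 2) (nat_lit 0xe0420000b0180f3b00)))) 
(.lf (nat_lit 3492693999) (dlOf (nat_lit 5) (nat_lit 0x30066008d02e800380fc00400440003308008e066008f02e801f015001640a2009e04e000a022801980fc00c80440003210001005e001002400028100001407a0002c08001606900010120000ac1004b8008025c002013400080f4603)))))))))) 
(.nd (nat_lit 5) (.nd (nat_lit 17) (.nd (nat_lit 28) (.nd (nat_lit 19) (.nd (nat_lit 18) 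
(.nd (nat_lit 9) (.nd (nat_lit 6) (.nd (nat_lit 22) (.nd (nat_lit 8) 
(.lf (nat_lit 16859151) (dlOf (nat_lit 1) (nat_lit 0x1800088e0001))) 
(.lf (nat_lit 1208041743) (dlOf (nat_lit 2) (nat_lit 0x94039000b0018090a80)))) (.nd (nat_lit 20) 
(.lf (nat_lit 12664847) (dlOf (nat_lit 1) (nat_lit 0x300080018002000800086d0683))) 
(.lf (nat_lit 15810575) (dlOf (nat_lit 1) (nat_lit 0x400400040008830182))))) (.nd (nat_lit 8) 
(.nd (nat_lit 10) 
(.lf (nat_lit 4362164303) (dlOf (nat_lit 9) (nat_lit 0x1a00cc0028c04001c0660012702000a0330008f8100030198004780800080cc0023a0400200660011c0200020330008d8100070198000000805a0008000c002000c000800a703))) 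
(.lf (nat_lit 671171663) (dlOf (nat_lit 1) (nat_lit 0x20008142881)))) (.nd (nat_lit 7) 
(.lf (nat_lit 2348892495) (dlOf (nat_lit 2) (nat_lit 0xc0140001d00801d8008000400200020008014c83))) 
(.lf (nat_lit 1677803983) (dlOf (nat_lit 2) (nat_lit 0x40aa000170200020018090a01)))))) 
(.nd (nat_lit 7) (.nd (nat_lit 20) (.nd (nat_lit 30) 
(.lf (nat_lit 4496377359) (dlOf (nat_lit 2) (nat_lit 0xe01a00000018053680))) 
(.lf (nat_lit 5570119183) (dlOf (nat_lit 1) (nat_lit 0x80018053681)))) 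
(.lf (nat_lit 43075087) (dlOf (nat_lit 1) (nat_lit 0x200292a3681)))) (.nd (nat_lit 8) 
(.nd (nat_lit 11) (.lf (nat_lit 20009615) (dlOf (nat_lit 1) (nat_lit 0x4002000200089d8c82))) 
(.lf (nat_lit 1208044175) (dlOf (nat_lit 2) (nat_lit 0x4501c8000000800400080008002004e0008095483)))) 
(.lf (nat_lit 46222223) (dlOf (nat_lit 1) (nat_lit 0x180029385c81)))))) (.nd (nat_lit 20) 
(.nd (nat_lit 26) (.nd (nat_lit 7) (.nd (nat_lit 27) 
(.lf (nat_lit 5905924111) (dlOf (nat_lit 2) (nat_lit 0x1012800514080028008004800200240008160483))) 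
(.lf (nat_lit 3355787279) (dlOf (nat_lit 2) (nat_lit 0xc000000000200060008110101)))) 
(.lf (nat_lit 23412879) (dlOf (nat_lit 1) (nat_lit 0x400200020008b80102)))) (.nd (nat_lit 32) 
(.nd (nat_lit 7) 
(.lf (nat_lit 604323855) (dlOf (nat_lit 2) (nat_lit 0x20045001400e800220100010008003400200020008160183))) 
(.lf (nat_lit 69552527) (dlOf (nat_lit 1) (nat_lit 0x400200020008b44e82)))) (.nd (nat_lit 31) 
(.lf (nat_lit 4362420239) (dlOf (nat_lit 2) (nat_lit 0xa003300a4c018070500))) 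
(.lf (nat_lit 6509903887) (dlOf (nat_lit 2) (nat_lit 0x1013000758080028008004800200240008160483)))))) 
(.nd (nat_lit 24) (.nd (nat_lit 6) (.nd (nat_lit 8) 
(.lf (nat_lit 41239055) (dlOf (nat_lit 1) (nat_lit 0x20029227b81))) 
(.lf (nat_lit 41238799) (dlOf (nat_lit 1) (nat_lit 0x20029223b01)))) (.nd (nat_lit 9) 
(.lf (nat_lit 1392719) (dlOf (nat_lit 1) (nat_lit 0x4004000200080c1002))) 
(.lf (nat_lit 45435471) (dlOf (nat_lit 4) (nat_lit 0x4938c40007a040115c620003702013ce3100070000000d81000480080038002006e0009325283))))) 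
(.nd (nat_lit 7) (.lf (nat_lit 51725327) (dlOf (nat_lit 1) (nat_lit 0x20019512881))) 
(.nd (nat_lit 8) (.lf (nat_lit 20271247) (dlOf (nat_lit 1) (nat_lit 0x200089d7d81))) 
(.lf (nat_lit 20271503) (dlOf (nat_lit 1) (nat_lit 0x200089d8381)))))))) (.nd (nat_lit 21) 
(.nd (nat_lit 24) (.nd (nat_lit 30) (.nd (nat_lit 8) (.nd (nat_lit 26) 
(.lf (nat_lit 134823951) (dlOf (nat_lit 1) (nat_lit 0x60004000600080c0882))) 
(.lf (nat_lit 201932815) (dlOf (nat_lit 1) (nat_lit 0xc0004002800080c0902)))) 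
(.lf (nat_lit 609551) (dlOf (nat_lit 1) (nat_lit 0x4004000a0008006702)))) (.nd (nat_lit 6) 
(.lf (nat_lit 3892920335) (dlOf (nat_lit 2) (nat_lit 0xe0160038540800f80080054002009c0008290783))) 
(.nd (nat_lit 26) (.lf (nat_lit 3221831759) (dlOf (nat_lit 1) (nat_lit 0x200181a1581))) 
(.lf (nat_lit 3960029263) (dlOf (nat_lit 1) (nat_lit 0x10002000600081a1902)))))) (.nd (nat_lit 8) 
(.nd (nat_lit 18) (.lf (nat_lit 22626319) (dlOf (nat_lit 1) (nat_lit 0x1c00400040008b00282))) 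
(.lf (nat_lit 21839887) (dlOf (nat_lit 1) (nat_lit 0x40028a70481)))) (.nd (nat_lit 6) 
(.lf (nat_lit 29966607) (dlOf (nat_lit 1) (nat_lit 0x400200300008e30702))) 
(.lf (nat_lit 50938319) (dlOf (nat_lit 1) (nat_lit 0x114002001400094d7b02)))))) (.nd (nat_lit 22) 
(.nd (nat_lit 18) (.nd (nat_lit 6) (.nd (nat_lit 23) 
(.lf (nat_lit 2703375) (dlOf (nat_lit 1) (nat_lit 0x100004002a0008190702))) 
(.lf (nat_lit 27869199) (dlOf (nat_lit 24) (nat_lit 0x8ae500095058000a82400093e000024250002f8500085718001ab4400054280010a0b0001504800127c0000ba18002d5cc002ca0c0002c82000c5730004a854000941800058060012ae6000350600015c10000ab9800055a8002aa15000250600015420005ab98002d5a80004a15000650600015020005ab9800315a8002ca15000150600014820005ab9800255a80032a150004506000144200042b9800055a8001aa15000f50600013020005ab9800255a8001ea15001450600012c20002ab980008c04001d5cc00045020010ae6000150600010810003ab980007804000542a0003a02000eae60001b01000557280042b4c0029428000ea0b0001984000e5728003ab4c002d4280016a0b000190400025728000ab4c00394280010a0b000188400055728000a85000254160003006000eae5000040100065728000140801c00080030002001c0008d30203))))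 
(.lf (nat_lit 2754166863) (dlOf (nat_lit 1) (nat_lit 0x200280c1901)))) (.nd (nat_lit 7) 
(.lf (nat_lit 28131343) (dlOf (nat_lit 1) (nat_lit 0x400200020008d60182))) 
(.lf (nat_lit 36522383) (dlOf (nat_lit 1) (nat_lit 0x40019074e81))))) (.nd (nat_lit 7) 
(.nd (nat_lit 8) (.nd (nat_lit 18) 
(.lf (nat_lit 16334863) (dlOf (nat_lit 17) (nat_lit 0x295a80028ab2000247500011ee80017c2001295a80068ad00012559000d23a8001742000295ac000b20400148ec0005802001a4760002b81000223b0001540800a95ac00608ec0005404001656b000723b0001481000515ac00348ec0005104001e56b001423b0001301000715ac00348ec0004b04000456b0002281000523a8000cc0800215a800108ea00032040004475000188100162b5000b11d40006008001c00400120018890202))) 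
(.lf (nat_lit 15548431) (dlOf (nat_lit 1) (nat_lit 0x560028800281)))) 
(.lf (nat_lit 58278159) (dlOf (nat_lit 1) (nat_lit 0x200097d7401)))) (.nd (nat_lit 6) 
(.nd (nat_lit 9) (.lf (nat_lit 57230479) (dlOf (nat_lit 2) (nat_lit 0x8eca700013019792b00))) 
(.lf (nat_lit 7950991) (dlOf (nat_lit 1) (nat_lit 0x10008000400200020008518c83)))) 
(.lf (nat_lit 7947727) (dlOf (nat_lit 1) (nat_lit 0x1a0028513601)))))))) (.nd (nat_lit 26) 
(.nd (nat_lit 18) (.nd (nat_lit 7) (.nd (nat_lit 9) (.nd (nat_lit 8) 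
(.lf (nat_lit 1345405967) (dlOf (nat_lit 1) (nat_lit 0x20028bb2881))) (.nd (nat_lit 10) 
(.lf (nat_lit 4563484943) (dlOf (nat_lit 2) (nat_lit 0x5a01500d000900053410037000800c0002014e0008090a83))) 
(.lf (nat_lit 1342262543) (dlOf (nat_lit 1) (nat_lit 0xe0018006701))))) (.nd (nat_lit 6) 
(.nd (nat_lit 27) (.lf (nat_lit 5100357135) (dlOf (nat_lit 1) (nat_lit 0x580018053681))) 
(.lf (nat_lit 6308316687) (dlOf (nat_lit 2) (nat_lit 0x5c00c002f00200006c080054004001e0018053682)))) 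
(.lf (nat_lit 4697704015) (dlOf (nat_lit 4) (nat_lit 0x880320032011000130200360088000880801080a400042040020004001a0008093882))))) 
(.nd (nat_lit 6) (.nd (nat_lit 8) (.nd (nat_lit 9) 
(.lf (nat_lit 1342263439) (dlOf (nat_lit 1) (nat_lit 0x800400240008007d82))) 
(.lf (nat_lit 4563487375) (dlOf (nat_lit 1) (nat_lit 0x1a0018095481)))) 
(.lf (nat_lit 4697702799) (dlOf (nat_lit 2) (nat_lit 0x610090005340800d8008002800200760008091003)))) 
(.nd (nat_lit 8) (.lf (nat_lit 4697702607) (dlOf (nat_lit 1) (nat_lit 0x400200420008090882))) 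
(.lf (nat_lit 805388751) (dlOf (nat_lit 2) (nat_lit 0x40aa000170200020018090a01)))))) 
(.nd (nat_lit 30) (.nd (nat_lit 6) (.nd (nat_lit 27) 
(.lf (nat_lit 4563746831) (dlOf (nat_lit 2) (nat_lit 0x4033006a78180d0000))) 
(.lf (nat_lit 4697964559) (dlOf (nat_lit 2) (nat_lit 0x4033003ea0180d0000)))) (.nd (nat_lit 27) 
(.lf (nat_lit 4563746895) (dlOf (nat_lit 3) (nat_lit 0x3580a4000920400b40520002002000400280d0501))) 
(.lf (nat_lit 4697964623) (dlOf (nat_lit 3) (nat_lit 0x3580a40008c0400b40520002002000400280d0501))))) 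
(.nd (nat_lit 19) (.nd (nat_lit 27) 
(.lf (nat_lit 4026875919) (dlOf (nat_lit 1) (nat_lit 0x800080c0901))) 
(.lf (nat_lit 4161093647) (dlOf (nat_lit 1) (nat_lit 0x20018120181)))) (.nd (nat_lit 6) 
(.nd (nat_lit 8) (.lf (nat_lit 1344094223) (dlOf (nat_lit 1) (nat_lit 0x10002000a00083c0182))) 
(.lf (nat_lit 3490532623) (dlOf (nat_lit 1) (nat_lit 0x800400020008006702)))) 
(.lf (nat_lit 1346191439) (dlOf (nat_lit 5) (nat_lit 0x10e857c02102bc044a0d7004f06b008f826c04ac116000170c035015f01c006b80005810012857c00741ae0001204045215f022d06b800000100458008006000201580008e60703))))))) 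
(.nd (nat_lit 27) (.nd (nat_lit 29) (.nd (nat_lit 6) (.nd (nat_lit 7) (.nd (nat_lit 9) 
(.lf (nat_lit 3557376015) (dlOf (nat_lit 1) (nat_lit 0x10004000a00081d0182))) 
(.lf (nat_lit 3556854287) (dlOf (nat_lit 1) (nat_lit 0x20002001000080d5082)))) 
(.lf (nat_lit 3556852879) (dlOf (nat_lit 1) (nat_lit 0x200280d2b01)))) (.nd (nat_lit 10) 
(.lf (nat_lit 2483110223) (dlOf (nat_lit 2) (nat_lit 0xc01400004c0801d8008000400200020008014c83))) 
(.lf (nat_lit 1409371471) (dlOf (nat_lit 2) (nat_lit 0x302f800040080060008001400200080008006a03))))) 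
(.nd (nat_lit 6) (.nd (nat_lit 10) (.nd (nat_lit 18) 
(.lf (nat_lit 872497551) (dlOf (nat_lit 1) (nat_lit 0x78008003000200220008091003))) 
(.lf (nat_lit 6241468815) (dlOf (nat_lit 1) (nat_lit 0x1c002000c00080f5d82)))) 
(.lf (nat_lit 6241207695) (dlOf (nat_lit 7) (nat_lit 0x1805000040080002003000aa03000300a0000800c002a608000c02600020020004a020003009800080080012608000c02600020020004802000200a0001800c0000008000c00400020008053602)))) 
(.nd (nat_lit 8) (.lf (nat_lit 4096344143) (dlOf (nat_lit 1) (nat_lit 0x4004000200080f1702))) 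
(.lf (nat_lit 3019982159) (dlOf (nat_lit 1) (nat_lit 0x4002000200080d3302)))))) (.nd (nat_lit 29) 
(.nd (nat_lit 6) (.nd (nat_lit 10) 
(.lf (nat_lit 2617589775) (dlOf (nat_lit 30) (nat_lit 0xe00300075017809480b80198042026601e00a70090043004402100020008000000278900e30178005007809f002400700110019000802900000009c1802a005e01ac012000268201d30090001300802a80c804c805c0188029007c013003f8084041403c0098011009a004803100000008e24048005c00f002d000a01300098084009403600bc019001100c009e805c011802a035601100810080046801c02cc006000461a024a02e03a8008810700000008a0c03e405e019002e00dd00f00d980480088022000440a020e02f000400f01610048000c000000430801f602f02350090001081000180bc000820402d805e0004002018402f00a40170006807806e4024038a0110001f0500420088000f40806900bc000c05c01280120001e030052017002180440007608003005c00060110001d020049017003a80440007208030005e025802e001900f013f004806b8022000380a000201200350088000dc1000500480006c0401ec05e004802e00d20090000d41800880480006804005c05c004c011000198200f0017804e007801d4024000320601fe02f00f70090000bc1007c00bc01dc05c000160402f002f00e401700f180480458022000140801f202f018a009000000100de000812d80020b780008100183)))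 
(.lf (nat_lit 472990735) (dlOf (nat_lit 1) (nat_lit 0x1000400040008bb2882)))) (.nd (nat_lit 7) 
(.nd (nat_lit 8) 
(.lf (nat_lit 473254479) (dlOf (nat_lit 2) (nat_lit 0x783300000004000c00400200018e35282))) 
(.lf (nat_lit 3691069775) (dlOf (nat_lit 1) (nat_lit 0x20018010801)))) 
(.lf (nat_lit 469846223) (dlOf (nat_lit 1) (nat_lit 0x100018004a01))))) (.nd (nat_lit 7) 
(.nd (nat_lit 6) (.lf (nat_lit 4228202511) (dlOf (nat_lit 2) (nat_lit 0xa003200afe018070500))) 
(.nd (nat_lit 8) 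
(.lf (nat_lit 3154460751) (dlOf (nat_lit 1) (nat_lit 0x900080048002006000081a0703))) 
(.lf (nat_lit 4227943759) (dlOf (nat_lit 1) (nat_lit 0x20018006a01))))) (.nd (nat_lit 8) 
(.lf (nat_lit 2080719055) (dlOf (nat_lit 1) (nat_lit 0x400180c1801))) 
(.lf (nat_lit 1007504847) (dlOf (nat_lit 1) (nat_lit 0x5a00183d6d01))))))))) (.nd (nat_lit 6) 
(.nd (nat_lit 18) (.nd (nat_lit 27) (.nd (nat_lit 8) (.nd (nat_lit 23) (.nd (nat_lit 26) 
(.nd (nat_lit 9) (.nd (nat_lit 11) 
(.lf (nat_lit 2953003023) (dlOf (nat_lit 1) (nat_lit 0x16000800e000200da0008080483))) 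
(.lf (nat_lit 5905795087) (dlOf (nat_lit 1) (nat_lit 0x400200020008144702)))) 
(.lf (nat_lit 1262095) (dlOf (nat_lit 1) (nat_lit 0x100080028002000200080a7b83)))) 
(.nd (nat_lit 28) 
(.lf (nat_lit 604192783) (dlOf (nat_lit 2) (nat_lit 0x200580000004008400400240008080482))) 
(.lf (nat_lit 5704466447) (dlOf (nat_lit 2) (nat_lit 0x2006c01bd8040024002000e00080a0a02))))) 
(.nd (nat_lit 19) (.nd (nat_lit 20) 
(.lf (nat_lit 10698767) (dlOf (nat_lit 1) (nat_lit 0x18008000400200020008610203))) 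
(.lf (nat_lit 30621711) (dlOf (nat_lit 1) (nat_lit 0x20028e40781)))) (.nd (nat_lit 10) 
(.lf (nat_lit 11223055) (dlOf (nat_lit 3) (nat_lit 0x110ac2000410200ba55f0001d818670100))) 
(.lf (nat_lit 61555727) (dlOf (nat_lit 1) (nat_lit 0x40029922881)))))) (.nd (nat_lit 7) 
(.nd (nat_lit 11) (.lf (nat_lit 36390159) (dlOf (nat_lit 1) (nat_lit 0x120009073001))) 
(.lf (nat_lit 3490401551) (dlOf (nat_lit 1) (nat_lit 0x20008006701)))) (.nd (nat_lit 9) 
(.nd (nat_lit 10) (.lf (nat_lit 37439887) (dlOf (nat_lit 1) (nat_lit 0x200190d4e81))) 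
(.lf (nat_lit 43206031) (dlOf (nat_lit 1) (nat_lit 0x800292a3601)))) 
(.lf (nat_lit 1141066639) (dlOf (nat_lit 1) (nat_lit 0x1400400100008095c82)))))) (.nd (nat_lit 30) 
(.nd (nat_lit 19) (.nd (nat_lit 8) (.nd (nat_lit 9) 
(.lf (nat_lit 939737103) (dlOf (nat_lit 1) (nat_lit 0x60008000800200360008160483))) 
(.lf (nat_lit 2818792975) (dlOf (nat_lit 2) (nat_lit 0x3980fc000320400e80020024000812ce02)))) 
(.lf (nat_lit 2818792207) (dlOf (nat_lit 2) (nat_lit 0x8088000e404000c0040004001812ba02)))) 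
(.nd (nat_lit 20) (.nd (nat_lit 26) 
(.lf (nat_lit 2819309583) (dlOf (nat_lit 2) (nat_lit 0x403b000101c000100dc0004049000401d800080e000100660008c0e00040018230381))) 
(.lf (nat_lit 3154853903) (dlOf (nat_lit 1) (nat_lit 0x8008000400200060008350203)))) 
(.lf (nat_lit 471547919) (dlOf (nat_lit 1) (nat_lit 0x20028330181))))) (.nd (nat_lit 9) 
(.nd (nat_lit 29) (.nd (nat_lit 10) 
(.lf (nat_lit 1476608015) (dlOf (nat_lit 2) (nat_lit 0x50011000000180a0480))) 
(.lf (nat_lit 5771578383) (dlOf (nat_lit 1) (nat_lit 0x8008000400200020008005f83)))) 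
(.nd (nat_lit 26) 
(.lf (nat_lit 6308446223) (dlOf (nat_lit 2) (nat_lit 0x2006c01290040024002000e00080a0a02))) 
(.lf (nat_lit 1812152335) (dlOf (nat_lit 1) (nat_lit 0x60008000800200360008160483))))) 
(.nd (nat_lit 7) 
(.lf (nat_lit 3959642639) (dlOf (nat_lit 1) (nat_lit 0x250008033c002004e000811b283))) 
(.lf (nat_lit 4160968335) (dlOf (nat_lit 1) (nat_lit 0x14004000c00080a9e82))))))) (.nd (nat_lit 19) 
(.nd (nat_lit 10) (.nd (nat_lit 26) (.nd (nat_lit 7) (.nd (nat_lit 20) 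
(.lf (nat_lit 1342652431) (dlOf (nat_lit 1) (nat_lit 0x10200080b0201))) 
(.lf (nat_lit 9912335) (dlOf (nat_lit 1) (nat_lit 0x8008000400200020008590083)))) 
(.lf (nat_lit 55001487) (dlOf (nat_lit 1) (nat_lit 0x1000400040009685d82)))) (.nd (nat_lit 27) 
(.lf (nat_lit 4362551311) (dlOf (nat_lit 1) (nat_lit 0x10008000400200020008090003))) 
(.lf (nat_lit 470237199) (dlOf (nat_lit 1) (nat_lit 0x10200080b0201))))) (.nd (nat_lit 21) 
(.nd (nat_lit 11) (.lf (nat_lit 2751939599) (dlOf (nat_lit 1) (nat_lit 0x400200020008002882))) 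
(.lf (nat_lit 5771840527) (dlOf (nat_lit 1) (nat_lit 0x400200020008005f82)))) (.nd (nat_lit 7) 
(.lf (nat_lit 5773935631) (dlOf (nat_lit 1) (nat_lit 0x8008000c002000200080e2883))) 
(.lf (nat_lit 57099407) (dlOf (nat_lit 3) (nat_lit 0x14aee000130100065770000340800b8008000400200120009792b03)))))) 
(.nd (nat_lit 20) (.nd (nat_lit 7) (.nd (nat_lit 8) (.nd (nat_lit 10) 
(.lf (nat_lit 17776655) (dlOf (nat_lit 2) (nat_lit 0x1a70400c9902000600288f0781))) 
(.lf (nat_lit 3492758543) (dlOf (nat_lit 1) (nat_lit 0x200180f2881)))) 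
(.lf (nat_lit 6376341775) (dlOf (nat_lit 4) (nat_lit 0x2884880154242001600400041200004e0100e90900002300800f00080078002003a0008090a83)))) 
(.nd (nat_lit 11) (.lf (nat_lit 19878543) (dlOf (nat_lit 1) (nat_lit 0x4002000200089d8c82))) 
(.lf (nat_lit 6376344207) (dlOf (nat_lit 1) (nat_lit 0x8800800b800200200008095483))))) 
(.nd (nat_lit 10) (.nd (nat_lit 8) 
(.lf (nat_lit 23019535) (dlOf (nat_lit 14) (nat_lit 0xab04005656e00013c1000fac1000495b80004e0400c4b0400402ad801a95480008c0c05516080004502009cadc002656d0001101002fac1000595b80004304001eb04003e56e00010810001ac100007c0401e95b800038020008b040001a8100075820001156c00064080015608000e55b000178200035820003956c000280800b000400240008b40182))) 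
(.lf (nat_lit 6242575) (dlOf (nat_lit 1) (nat_lit 0x300028420701)))) (.nd (nat_lit 11) 
(.lf (nat_lit 43992079) (dlOf (nat_lit 1) (nat_lit 0x400292a2881))) 
(.lf (nat_lit 54479887) (dlOf (nat_lit 1) (nat_lit 0x20009655f81)))))))) (.nd (nat_lit 18) 
(.nd (nat_lit 8) (.nd (nat_lit 11) (.nd (nat_lit 12) (.nd (nat_lit 20) (.nd (nat_lit 19) 
(.lf (nat_lit 335757391) (dlOf (nat_lit 1) (nat_lit 0x20028090001))) 
(.lf (nat_lit 2834511) (dlOf (nat_lit 1) (nat_lit 0x200181c0d01)))) (.nd (nat_lit 21) 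
(.lf (nat_lit 5773148239) (dlOf (nat_lit 1) (nat_lit 0x200280a1701))) 
(.lf (nat_lit 45826127) (dlOf (nat_lit 1) (nat_lit 0x8008000c00200040009360703))))) 
(.nd (nat_lit 7) (.nd (nat_lit 10) 
(.lf (nat_lit 8605775) (dlOf (nat_lit 1) (nat_lit 0x40008517d81))) 
(.lf (nat_lit 8082511) (dlOf (nat_lit 1) (nat_lit 0x8008000400200020008519303)))) 
(.lf (nat_lit 3556987599) (dlOf (nat_lit 1) (nat_lit 0xe90008000c00200fe0008128c83))))) 
(.nd (nat_lit 7) (.nd (nat_lit 9) (.nd (nat_lit 10) 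
(.lf (nat_lit 3959642191) (dlOf (nat_lit 6) (nat_lit 0x80230004a0080050118001c08a0011f040016046000a022800478100040118002408a0011d040014046000a0228004701001f800800400020002000811a703))) 
(.lf (nat_lit 2818792527) (dlOf (nat_lit 4) (nat_lit 0x480d80002604000806c0000502000203600040110000001003d000800d80020040000812bf83)))) 
(.lf (nat_lit 36915791) (dlOf (nat_lit 1) (nat_lit 0x20019075281)))) (.nd (nat_lit 10) 
(.lf (nat_lit 3556989135) (dlOf (nat_lit 1) (nat_lit 0x7c002006e000812a882))) 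
(.lf (nat_lit 3489881295) (dlOf (nat_lit 1) (nat_lit 0x36001800c281)))))) (.nd (nat_lit 7) 
(.nd (nat_lit 31) (.nd (nat_lit 10) (.nd (nat_lit 20) 
(.lf (nat_lit 7029071) (dlOf (nat_lit 1) (nat_lit 0x800184b0801))) 
(.lf (nat_lit 5980495) (dlOf (nat_lit 1) (nat_lit 0x80018420801)))) 
(.lf (nat_lit 20139343) (dlOf (nat_lit 1) (nat_lit 0x200189d6a01)))) (.nd (nat_lit 9) 
(.lf (nat_lit 2818790735) (dlOf (nat_lit 1) (nat_lit 0x60018129901))) (.nd (nat_lit 11) 
(.lf (nat_lit 3556988751) (dlOf (nat_lit 1) (nat_lit 0x80040006001812a202))) 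
(.lf (nat_lit 3556986703) (dlOf (nat_lit 1) (nat_lit 0x180080024002000c0008127783)))))) 
(.nd (nat_lit 10) (.nd (nat_lit 9) 
(.lf (nat_lit 2753774031) (dlOf (nat_lit 5) (nat_lit 0x60750000320400083a8000180200281d40000b81001a0ea000000080088008013400200060008090a03))) 
(.lf (nat_lit 2818792399) (dlOf (nat_lit 2) (nat_lit 0x480fc00000040160004002a000812bf02)))) 
(.nd (nat_lit 11) (.lf (nat_lit 8603087) (dlOf (nat_lit 1) (nat_lit 0x20018513601))) 
(.nd (nat_lit 26) (.lf (nat_lit 3221441999) (dlOf (nat_lit 1) (nat_lit 0x12000200100008116d02))) 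
(.lf (nat_lit 1543720399) (dlOf (nat_lit 1) (nat_lit 0x50008002c00200260008146d03)))))))) 
(.nd (nat_lit 7) (.nd (nat_lit 19) (.nd (nat_lit 20) (.nd (nat_lit 8) (.nd (nat_lit 22) 
(.lf (nat_lit 3557245007) (dlOf (nat_lit 1) (nat_lit 0x27800200240008170702))) 
(.lf (nat_lit 21446735) (dlOf (nat_lit 1) (nat_lit 0x400400020018a40502)))) 
(.lf (nat_lit 3490139471) (dlOf (nat_lit 1) (nat_lit 0x20028006a01)))) (.nd (nat_lit 26) 
(.nd (nat_lit 31) (.lf (nat_lit 1345798479) (dlOf (nat_lit 2) (nat_lit 0xe00000000018df8a00))) 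
(.lf (nat_lit 3493282127) (dlOf (nat_lit 1) (nat_lit 0x400400020008104c82)))) 
(.lf (nat_lit 2755084623) (dlOf (nat_lit 1) (nat_lit 0x400400020008104c82))))) (.nd (nat_lit 20) 
(.nd (nat_lit 8) (.nd (nat_lit 22) 
(.lf (nat_lit 1343176783) (dlOf (nat_lit 9) (nat_lit 0x341ec00310f38002060000182fc0004000000130500290f6001e879c00182fc0002000000128400220f380148600001412a001403a0001104001a0f60010879c002030a000e18000030bf0000842800b07b0000400400300000000402000a00000001010004000000000080070008022c002005c0008190703))) 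
(.lf (nat_lit 13582415) (dlOf (nat_lit 2) (nat_lit 0xb5c630009deb000100100028008007400200340008730d03)))) 
(.lf (nat_lit 3096911) (dlOf (nat_lit 1) (nat_lit 0x20018200601)))) (.nd (nat_lit 9) 
(.nd (nat_lit 22) 
(.lf (nat_lit 18825295) (dlOf (nat_lit 2) (nat_lit 0x10000000be04000c00200060008970202))) 
(.lf (nat_lit 14630991) (dlOf (nat_lit 1) (nat_lit 0x1000400040008770702)))) 
(.lf (nat_lit 1346325071) (dlOf (nat_lit 4) (nat_lit 0x1e168001500e000300680006c0c002c2d00003402001a168001200e0000001001d0008007c00200160008f05283)))))) 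
(.nd (nat_lit 26) (.nd (nat_lit 8) (.nd (nat_lit 9) (.nd (nat_lit 11) 
(.lf (nat_lit 805781711) (dlOf (nat_lit 2) (nat_lit 0x80e00048e04000c002000200081a0482))) 
(.lf (nat_lit 477391) (dlOf (nat_lit 1) (nat_lit 0x4004000a0008004a02)))) 
(.lf (nat_lit 19878607) (dlOf (nat_lit 1) (nat_lit 0x4002000200089d8c82)))) (.nd (nat_lit 19) 
(.lf (nat_lit 12009935) (dlOf (nat_lit 1) (nat_lit 0x400286c0a01))) 
(.lf (nat_lit 3491709391) (dlOf (nat_lit 5) (nat_lit 0x41f50000c8100020e10000600800187d400103840001704001a1f5000d0e100000010004000801c000200180008090a03))))) 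
(.nd (nat_lit 30) (.nd (nat_lit 8) 
(.lf (nat_lit 4362551503) (dlOf (nat_lit 1) (nat_lit 0x20028090481))) 
(.lf (nat_lit 2755609039) (dlOf (nat_lit 1) (nat_lit 0x1600081b0a01)))) (.nd (nat_lit 27) 
(.lf (nat_lit 1678196943) (dlOf (nat_lit 2) (nat_lit 0x80e00048e04000c002000200081a0482))) 
(.lf (nat_lit 4228333775) (dlOf (nat_lit 1) (nat_lit 0x20028090481)))))))))) (.nd (nat_lit 18) 
(.nd (nat_lit 17) (.nd (nat_lit 6) (.nd (nat_lit 27) (.nd (nat_lit 8) (.nd (nat_lit 9) 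
(.nd (nat_lit 19) (.nd (nat_lit 20) 
(.lf (nat_lit 27344943) (dlOf (nat_lit 1) (nat_lit 0x80018cd0901))) 
(.lf (nat_lit 1343307823) (dlOf (nat_lit 3) (nat_lit 0x120720000680800e84bc0000004004000400a400081e0702)))) 
(.nd (nat_lit 26) 
(.lf (nat_lit 537477167) (dlOf (nat_lit 3) (nat_lit 0x9c0590001381005402c800080080118008009000200aa00080a0983))) 
(.lf (nat_lit 1409892399) (dlOf (nat_lit 3) (nat_lit 0x9c0590001181005402c800078080118008009000200aa00080a0983))))) 
(.nd (nat_lit 11) (.lf (nat_lit 2483110447) (dlOf (nat_lit 1) (nat_lit 0x20018018001))) 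
(.nd (nat_lit 21) 
(.lf (nat_lit 1346980399) (dlOf (nat_lit 1) (nat_lit 0x40008002400200020009105183))) 
(.lf (nat_lit 69814831) (dlOf (nat_lit 1) (nat_lit 0xc0018c75181)))))) (.nd (nat_lit 20) 
(.nd (nat_lit 7) (.lf (nat_lit 5637229359) (dlOf (nat_lit 2) (nat_lit 0x2004000ae018055c00))) 
(.nd (nat_lit 9) (.lf (nat_lit 54610351) (dlOf (nat_lit 1) (nat_lit 0x400200040009654e82))) 
(.lf (nat_lit 4362160047) (dlOf (nat_lit 1) (nat_lit 0x20018004381))))) (.nd (nat_lit 9) 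
(.lf (nat_lit 20009391) (dlOf (nat_lit 1) (nat_lit 0x4002000200089d8482))) (.nd (nat_lit 19) 
(.lf (nat_lit 20005807) (dlOf (nat_lit 1) (nat_lit 0xa00289d2681))) 
(.lf (nat_lit 7947183) (dlOf (nat_lit 1) (nat_lit 0x80028512681))))))) (.nd (nat_lit 10) 
(.nd (nat_lit 9) (.nd (nat_lit 26) (.nd (nat_lit 29) 
(.lf (nat_lit 134823983) (dlOf (nat_lit 7) (nat_lit 0x2d01d8000b80800300ec018406c00080170001683001601d8000ac0803100ec008c06c00560170001503001901b0000300800100d8000140401e0004000a00180c0e82))) 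
(.lf (nat_lit 3892920367) (dlOf (nat_lit 1) (nat_lit 0xc0008290e81)))) 
(.lf (nat_lit 3960029231) (dlOf (nat_lit 1) (nat_lit 0x200181a0f01)))) (.nd (nat_lit 19) 
(.lf (nat_lit 5033249327) (dlOf (nat_lit 1) (nat_lit 0x40018005181))) 
(.lf (nat_lit 472468015) (dlOf (nat_lit 3) (nat_lit 0x1c1380008c02000809c00045818985180))))) 
(.nd (nat_lit 7) (.nd (nat_lit 8) (.nd (nat_lit 9) 
(.lf (nat_lit 671171631) (dlOf (nat_lit 1) (nat_lit 0x40028142881))) 
(.lf (nat_lit 2885766703) (dlOf (nat_lit 1) (nat_lit 0x400080018002000c0008007183)))) 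
(.lf (nat_lit 2818655535) (dlOf (nat_lit 1) (nat_lit 0xa00180d3201)))) (.nd (nat_lit 26) 
(.lf (nat_lit 6308316591) (dlOf (nat_lit 2) (nat_lit 0x500c800568080010008005400200340008053603))) 
(.nd (nat_lit 30) 
(.lf (nat_lit 4496377263) (dlOf (nat_lit 2) (nat_lit 0x300e00051c0800200080010002000c0008053603))) 
(.lf (nat_lit 5570119087) (dlOf (nat_lit 1) (nat_lit 0x1a0018053601)))))))) (.nd (nat_lit 8) 
(.nd (nat_lit 7) (.nd (nat_lit 19) (.nd (nat_lit 9) (.nd (nat_lit 10) 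
(.lf (nat_lit 47267951) (dlOf (nat_lit 1) (nat_lit 0x2200093c0c81))) 
(.lf (nat_lit 469851247) (dlOf (nat_lit 1) (nat_lit 0x2e000801880020080000800c103)))) 
(.lf (nat_lit 3355525743) (dlOf (nat_lit 1) (nat_lit 0x400080010002001400080a1803)))) 
(.nd (nat_lit 26) (.lf (nat_lit 537477231) (dlOf (nat_lit 1) (nat_lit 0x34002006e00080a1582))) 
(.lf (nat_lit 1409892463) (dlOf (nat_lit 1) (nat_lit 0x34002006e00080a1582))))) (.nd (nat_lit 9) 
(.nd (nat_lit 21) (.nd (nat_lit 22) (.nd (nat_lit 26) 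
(.lf (nat_lit 4563484911) (dlOf (nat_lit 1) (nat_lit 0xa0008002c002009e0008090a83))) 
(.lf (nat_lit 335626479) (dlOf (nat_lit 1) (nat_lit 0x234004000c0008090a82)))) 
(.lf (nat_lit 3493937391) (dlOf (nat_lit 1) (nat_lit 0x24002000800081b0482)))) 
(.lf (nat_lit 18956527) (dlOf (nat_lit 1) (nat_lit 0x50008000400200020008970603)))) 
(.nd (nat_lit 11) (.lf (nat_lit 8995567) (dlOf (nat_lit 1) (nat_lit 0x20028512101))) 
(.lf (nat_lit 3556854511) (dlOf (nat_lit 1) (nat_lit 0x600280d5a01)))))) (.nd (nat_lit 11) 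
(.nd (nat_lit 7) (.nd (nat_lit 9) 
(.lf (nat_lit 7946607) (dlOf (nat_lit 1) (nat_lit 0x80018510f81))) (.nd (nat_lit 12) 
(.lf (nat_lit 4160832367) (dlOf (nat_lit 1) (nat_lit 0xe0018002581))) 
(.lf (nat_lit 3355530095) (dlOf (nat_lit 1) (nat_lit 0xe600280a8f81))))) (.nd (nat_lit 9) 
(.lf (nat_lit 872497647) (dlOf (nat_lit 1) (nat_lit 0x18008000400200020008091383))) 
(.lf (nat_lit 37307375) (dlOf (nat_lit 1) (nat_lit 0x800290d2881))))) (.nd (nat_lit 26) 
(.nd (nat_lit 19) (.nd (nat_lit 22) 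
(.lf (nat_lit 5637229551) (dlOf (nat_lit 1) (nat_lit 0x20028055f01))) 
(.lf (nat_lit 46222319) (dlOf (nat_lit 1) (nat_lit 0x40008002000200460009385f03)))) 
(.lf (nat_lit 60378095) (dlOf (nat_lit 1) (nat_lit 0x20029845f01)))) (.nd (nat_lit 7) 
(.lf (nat_lit 3556854127) (dlOf (nat_lit 1) (nat_lit 0xf000080d4e81))) (.nd (nat_lit 9) 
(.lf (nat_lit 3556854255) (dlOf (nat_lit 1) (nat_lit 0x200280d4f01))) 
(.lf (nat_lit 469851119) (dlOf (nat_lit 3) (nat_lit 0x21e7005530100010f380291c0800b000800380020048000800bf03))))))))) 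
(.nd (nat_lit 28) (.nd (nat_lit 26) (.nd (nat_lit 6) (.nd (nat_lit 20) (.nd (nat_lit 7) 
(.nd (nat_lit 8) (.lf (nat_lit 12795951) (dlOf (nat_lit 1) (nat_lit 0x4004007000186e0a02))) 
(.lf (nat_lit 671303471) (dlOf (nat_lit 2) (nat_lit 0x8807c00034040010004000c0008143d82)))) 
(.lf (nat_lit 671303599) (dlOf (nat_lit 2) (nat_lit 0x980200000604000400400040008144382)))) 
(.nd (nat_lit 7) (.nd (nat_lit 19) 
(.lf (nat_lit 18038831) (dlOf (nat_lit 1) (nat_lit 0x8008000800200040008900b83))) 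
(.lf (nat_lit 18563119) (dlOf (nat_lit 3) (nat_lit 0x39948000cc04000493c0000002000c0008950801)))) 
(.lf (nat_lit 22233263) (dlOf (nat_lit 1) (nat_lit 0x140018ab4c81))))) (.nd (nat_lit 7) 
(.nd (nat_lit 10) (.nd (nat_lit 20) 
(.lf (nat_lit 7028847) (dlOf (nat_lit 1) (nat_lit 0x200184b0481))) 
(.lf (nat_lit 60506223) (dlOf (nat_lit 1) (nat_lit 0xe0029880c81)))) 
(.lf (nat_lit 50021487) (dlOf (nat_lit 1) (nat_lit 0x1600294c2a01)))) (.nd (nat_lit 8) 
(.lf (nat_lit 6040011503) (dlOf (nat_lit 1) (nat_lit 0x180080018002000600080b2103))) 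
(.lf (nat_lit 1262063) (dlOf (nat_lit 2) (nat_lit 0x1580a0067c02003600080a7401)))))) 
(.nd (nat_lit 8) (.nd (nat_lit 7) (.nd (nat_lit 27) 
(.lf (nat_lit 604192815) (dlOf (nat_lit 1) (nat_lit 0x640028080701))) (.nd (nat_lit 29) 
(.lf (nat_lit 5570248751) (dlOf (nat_lit 1) (nat_lit 0x200180a0d01))) 
(.lf (nat_lit 1812152367) (dlOf (nat_lit 8) (nat_lit 0x110000000b4040028000000590200140000002b81002300580011c0801d002c000820400f8016001600400050000000fc1800500000007204001800200540008160582))))) 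
(.nd (nat_lit 9) 
(.lf (nat_lit 3288547503) (dlOf (nat_lit 1) (nat_lit 0x80080028002002c0008090303))) 
(.lf (nat_lit 4362817199) (dlOf (nat_lit 1) (nat_lit 0x180028117281))))) (.nd (nat_lit 9) 
(.nd (nat_lit 7) (.nd (nat_lit 21) 
(.lf (nat_lit 67322223) (dlOf (nat_lit 1) (nat_lit 0x4002002600080b0a02))) 
(.lf (nat_lit 2753773935) (dlOf (nat_lit 3) (nat_lit 0x5073c01c2c04000839e00cee0200060008090781)))) 
(.lf (nat_lit 3288547823) (dlOf (nat_lit 1) (nat_lit 0x2600080020002000a0008090d83)))) 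
(.nd (nat_lit 6) (.lf (nat_lit 1141066543) (dlOf (nat_lit 1) (nat_lit 0x40018095c01))) 
(.lf (nat_lit 6643991407) (dlOf (nat_lit 1) (nat_lit 0x180080018002000600080b2583))))))) 
(.nd (nat_lit 29) (.nd (nat_lit 7) (.nd (nat_lit 11) (.nd (nat_lit 8) 
(.lf (nat_lit 1476608047) (dlOf (nat_lit 8) (nat_lit 0xa0360000f01013401f800280b400300000001a06002e045005f01f800100d00020000000140800be04500ee01f809a00d800b800000013080008000000068100020228000080800401140010088005c03f000c01b0000002002a00080164002002800080a0703))) 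
(.lf (nat_lit 3556987183) (dlOf (nat_lit 1) (nat_lit 0x20028128081)))) (.nd (nat_lit 6) 
(.nd (nat_lit 9) (.lf (nat_lit 3490401327) (dlOf (nat_lit 1) (nat_lit 0x260028006081))) 
(.lf (nat_lit 335759919) (dlOf (nat_lit 1) (nat_lit 0x20028095181)))) 
(.lf (nat_lit 3556989039) (dlOf (nat_lit 6) (nat_lit 0xd011002a980800081c8000c0de000a045000501f800280e000600680006022000500d80297840002006c014ba0400080de0008045000401f800400e0006c0680006022000400d8029703801981c800a407e005e038003201100291c20001000800b00020006000812a883))))) 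
(.nd (nat_lit 8) (.nd (nat_lit 20) 
(.lf (nat_lit 1344488623) (dlOf (nat_lit 2) (nat_lit 0x2e11a00025818802c00))) 
(.lf (nat_lit 473121967) (dlOf (nat_lit 2) (nat_lit 0xe609a00025818d12c00)))) (.nd (nat_lit 9) 
(.lf (nat_lit 3489877423) (dlOf (nat_lit 1) (nat_lit 0x2e0008019800200720008006d03))) 
(.lf (nat_lit 3556986799) (dlOf (nat_lit 1) (nat_lit 0x400400040008127a02)))))) (.nd (nat_lit 8) 
(.nd (nat_lit 31) (.nd (nat_lit 27) 
(.lf (nat_lit 6174228527) (dlOf (nat_lit 1) (nat_lit 0x200180a0d01))) 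
(.lf (nat_lit 939737135) (dlOf (nat_lit 8) (nat_lit 0x110000000b4040028000000590200140000002b81002300580011c0801d002c000820400f8016001600400050000000fc1800500000007204001800200540008160582)))) 
(.nd (nat_lit 7) (.lf (nat_lit 4026744879) (dlOf (nat_lit 1) (nat_lit 0x14800400860008090002))) 
(.lf (nat_lit 4026745007) (dlOf (nat_lit 1) (nat_lit 0x80080028002002c0008090303))))) 
(.nd (nat_lit 6) (.nd (nat_lit 11) 
(.lf (nat_lit 4026745263) (dlOf (nat_lit 3) (nat_lit 0x402e006760100550170033a4080180008012c002001a0008090783))) 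
(.lf (nat_lit 4094904751) (dlOf (nat_lit 1) (nat_lit 0x400400a00008054e82)))) (.nd (nat_lit 9) 
(.nd (nat_lit 10) 
(.lf (nat_lit 4026745327) (dlOf (nat_lit 1) (nat_lit 0x2600080020002000a0008090d83))) 
(.lf (nat_lit 4160968175) (dlOf (nat_lit 1) (nat_lit 0x400400b000180a9c02)))) 
(.lf (nat_lit 4094905327) (dlOf (nat_lit 1) (nat_lit 0x40028055f01))))))))) (.nd (nat_lit 28) 
(.nd (nat_lit 17) (.nd (nat_lit 20) (.nd (nat_lit 26) (.nd (nat_lit 19) (.nd (nat_lit 30) 
(.nd (nat_lit 9) (.nd (nat_lit 21) 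
(.lf (nat_lit 537215023) (dlOf (nat_lit 1) (nat_lit 0x20008060601))) 
(.lf (nat_lit 44384303) (dlOf (nat_lit 1) (nat_lit 0xc0029300a81)))) 
(.lf (nat_lit 35998255) (dlOf (nat_lit 1) (nat_lit 0x40019015181)))) (.nd (nat_lit 6) 
(.nd (nat_lit 29) 
(.lf (nat_lit 3221569583) (dlOf (nat_lit 3) (nat_lit 0xc0560006029000300d80018056000e01e000600880030028001800c000cd10000c0560006029000300d80018056000c01e000600880030028001800c000cb1000040028140601))) 
(.lf (nat_lit 5905924143) (dlOf (nat_lit 3) (nat_lit 0x1300b8000fc0800280940000a040044002002c0008160582)))) 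
(.lf (nat_lit 1074086255) (dlOf (nat_lit 1) (nat_lit 0x100028090781))))) (.nd (nat_lit 7) 
(.nd (nat_lit 9) 
(.lf (nat_lit 5062703) (dlOf (nat_lit 8) (nat_lit 0x1a19e40007c0403bccc4000370200a66620001b0100463310000d4080071988000660401a8cf20001b02012e67901013310000001000200080104002000c0008300703))) 
(.nd (nat_lit 10) (.lf (nat_lit 38619695) (dlOf (nat_lit 1) (nat_lit 0x800400180009135182))) 
(.lf (nat_lit 537742895) (dlOf (nat_lit 2) (nat_lit 0xd502f800138080090008017c002004000080f7183))))) 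
(.nd (nat_lit 6) (.lf (nat_lit 34423983) (dlOf (nat_lit 2) (nat_lit 0x46b3300025818fb2c00))) 
(.lf (nat_lit 38619631) (dlOf (nat_lit 1) (nat_lit 0x400200020009134f02)))))) (.nd (nat_lit 29) 
(.nd (nat_lit 31) (.nd (nat_lit 32) 
(.lf (nat_lit 67452975) (dlOf (nat_lit 3) (nat_lit 0x10b800004c0803f800000000040010002000e0008140702))) 
(.lf (nat_lit 4362420271) (dlOf (nat_lit 2) (nat_lit 0x14580cc000220401cc00400a20018070882)))) 
(.nd (nat_lit 30) 
(.lf (nat_lit 6509903919) (dlOf (nat_lit 3) (nat_lit 0x1300b8000fc0800280980000a040044002002c0008160582))) 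
(.lf (nat_lit 3288678447) (dlOf (nat_lit 3) (nat_lit 0x1d300b80006a040e9005c0003402000400080c0e81))))) 
(.nd (nat_lit 6) (.nd (nat_lit 27) 
(.lf (nat_lit 1678065711) (dlOf (nat_lit 5) (nat_lit 0x180aa000c04e000501b800300ac0018048000c012000600500030018001b62000140aa000c04e000601b800300ac0018048000c012000600500030018001b22000040ac000d302000405400045818160600))) 
(.lf (nat_lit 3959767087) (dlOf (nat_lit 3) (nat_lit 0xc0560006029000300d80018056000e01e000600880030028001800c000db10000c0560006029000300d80018056000c01e000600880030028001800c000d91000040028140601)))) 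
(.lf (nat_lit 2753904751) (dlOf (nat_lit 1) (nat_lit 0x4004000200080a1582)))))) (.nd (nat_lit 6) 
(.nd (nat_lit 7) (.nd (nat_lit 21) (.nd (nat_lit 23) 
(.lf (nat_lit 1392687) (dlOf (nat_lit 1) (nat_lit 0x8004000200180c0c82))) 
(.lf (nat_lit 9781295) (dlOf (nat_lit 1) (nat_lit 0x40008580381)))) 
(.lf (nat_lit 3489839) (dlOf (nat_lit 2) (nat_lit 0x674500ec5818200000)))) 
(.lf (nat_lit 39143855) (dlOf (nat_lit 1) (nat_lit 0x20009194e81)))) (.nd (nat_lit 8) 
(.nd (nat_lit 19) (.lf (nat_lit 41238767) (dlOf (nat_lit 1) (nat_lit 0x20029221e81))) 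
(.lf (nat_lit 20791535) (dlOf (nat_lit 1) (nat_lit 0x1c00289e4501)))) (.nd (nat_lit 9) 
(.lf (nat_lit 33376751) (dlOf (nat_lit 1) (nat_lit 0x2800400080018f54f02))) 
(.lf (nat_lit 47530991) (dlOf (nat_lit 1) (nat_lit 0x400400020019402882))))))) (.nd (nat_lit 19) 
(.nd (nat_lit 26) (.nd (nat_lit 29) (.nd (nat_lit 6) 
(.lf (nat_lit 58147247) (dlOf (nat_lit 1) (nat_lit 0x4004000400197c6e82))) 
(.lf (nat_lit 476271) (dlOf (nat_lit 1) (nat_lit 0x400400320008002a02)))) (.nd (nat_lit 27) 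
(.lf (nat_lit 1611087919) (dlOf (nat_lit 3) (nat_lit 0x600ac029004100d3020001d00c0000401000740ae000604a00050018000301807180080954002047800080d0383))) 
(.lf (nat_lit 2819047471) (dlOf (nat_lit 1) (nat_lit 0x40008001c00200040008180d03))))) 
(.nd (nat_lit 6) (.nd (nat_lit 8) 
(.lf (nat_lit 738672687) (dlOf (nat_lit 3) (nat_lit 0x600ac029004100d3020001d00c0000401000740ae000604a00050018000301807180080954002047800080d0383))) 
(.lf (nat_lit 1678197039) (dlOf (nat_lit 1) (nat_lit 0x8008000c002000200081a0503)))) 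
(.lf (nat_lit 604456047) (dlOf (nat_lit 1) (nat_lit 0x80080010002000200082d2a03))))) 
(.nd (nat_lit 7) (.nd (nat_lit 9) 
(.lf (nat_lit 25116719) (dlOf (nat_lit 3) (nat_lit 0x39130001c888000d41000867100005404000c004000a0018be0e82))) 
(.nd (nat_lit 11) (.lf (nat_lit 2752463407) (dlOf (nat_lit 1) (nat_lit 0x400400020018018b02))) 
(.lf (nat_lit 54479407) (dlOf (nat_lit 1) (nat_lit 0x20029655181))))) (.nd (nat_lit 10) 
(.nd (nat_lit 6) (.lf (nat_lit 36653487) (dlOf (nat_lit 1) (nat_lit 0x8008000400200040009074e83))) 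
(.lf (nat_lit 19878127) (dlOf (nat_lit 1) (nat_lit 0x4004000400189d8082)))) (.nd (nat_lit 20) 
(.lf (nat_lit 32457903) (dlOf (nat_lit 1) (nat_lit 0x40028ef2c01))) 
(.lf (nat_lit 37700783) (dlOf (nat_lit 1) (nat_lit 0x4002000200090d2c02)))))))) (.nd (nat_lit 30) 
(.nd (nat_lit 29) (.nd (nat_lit 26) (.nd (nat_lit 27) 
(.lf (nat_lit 4563746863) (dlOf (nat_lit 1) (nat_lit 0x800180d0381))) (.nd (nat_lit 31) 
(.lf (nat_lit 4697964591) (dlOf (nat_lit 1) (nat_lit 0x800180d0381))) 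
(.lf (nat_lit 2550480943) (dlOf (nat_lit 1) (nat_lit 0x800280c0e81))))) (.nd (nat_lit 9) 
(.nd (nat_lit 22) (.lf (nat_lit 2617589807) (dlOf (nat_lit 1) (nat_lit 0x1e0028100d81))) 
(.lf (nat_lit 474300463) (dlOf (nat_lit 6) (nat_lit 0x10124000e20200062250006105800186c8000f60c000844a000c20b00050d90001e8180020894001c416000e1b20003c83000411700038894002841600121b20003c049130d00)))) 
(.nd (nat_lit 6) (.lf (nat_lit 473254447) (dlOf (nat_lit 2) (nat_lit 0x81080008b0200020018e35181))) 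
(.lf (nat_lit 473385711) (dlOf (nat_lit 1) (nat_lit 0x40028f55a01)))))) (.nd (nat_lit 19) 
(.nd (nat_lit 27) (.nd (nat_lit 26) 
(.lf (nat_lit 805650479) (dlOf (nat_lit 5) (nat_lit 0x180aa000c04e000501b800300ac0018048000c0120006005000300180019a2000140aa000c04e000601b800300ac0018048000c012000600500030018001962000040ac000c502000405400044018160600))) 
(.lf (nat_lit 3020242991) (dlOf (nat_lit 1) (nat_lit 0x4004000200181a0702)))) (.nd (nat_lit 21) 
(.lf (nat_lit 3154460719) (dlOf (nat_lit 2) (nat_lit 0x380640013a040008004000200181a0482))) 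
(.lf (nat_lit 1009074223) (dlOf (nat_lit 1) (nat_lit 0x400200020009050d02))))) (.nd (nat_lit 7) 
(.lf (nat_lit 1007632431) (dlOf (nat_lit 1) (nat_lit 0x44002017a0008560482))) 
(.lf (nat_lit 1007507631) (dlOf (nat_lit 1) (nat_lit 0xf80080004002000200083da883)))))) 
(.nd (nat_lit 17) (.nd (nat_lit 26) (.nd (nat_lit 19) (.nd (nat_lit 6) 
(.lf (nat_lit 3492102191) (dlOf (nat_lit 1) (nat_lit 0x1c004001000080a0982))) 
(.lf (nat_lit 5637489007) (dlOf (nat_lit 1) (nat_lit 0x400080f5801)))) (.nd (nat_lit 9) 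
(.lf (nat_lit 1346191407) (dlOf (nat_lit 1) (nat_lit 0x40008e60301))) 
(.lf (nat_lit 1880967727) (dlOf (nat_lit 1) (nat_lit 0x20018d75181))))) (.nd (nat_lit 6) 
(.nd (nat_lit 27) (.lf (nat_lit 1409630255) (dlOf (nat_lit 1) (nat_lit 0x20008060601))) 
(.lf (nat_lit 4228202543) (dlOf (nat_lit 3) (nat_lit 0x70040000078100a90190000340801a8008002800200760008070903)))) 
(.lf (nat_lit 6241468783) (dlOf (nat_lit 1) (nat_lit 0x400080f5801))))) (.nd (nat_lit 6) 
(.nd (nat_lit 7) (.nd (nat_lit 9) 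
(.lf (nat_lit 1343176751) (dlOf (nat_lit 2) (nat_lit 0xba00000053808004800801d0002004e0008190483))) 
(.lf (nat_lit 1346325039) (dlOf (nat_lit 2) (nat_lit 0x185980011804001000200060008f05182)))) 
(.lf (nat_lit 1880574383) (dlOf (nat_lit 1) (nat_lit 0x20028a44e81)))) (.nd (nat_lit 7) 
(.nd (nat_lit 10) (.lf (nat_lit 6376341615) (dlOf (nat_lit 1) (nat_lit 0x3400400600008090182))) 
(.lf (nat_lit 5773935727) (dlOf (nat_lit 1) (nat_lit 0x200180e2a01)))) 
(.lf (nat_lit 6376341743) (dlOf (nat_lit 1) (nat_lit 0x80008007000200480008090a83)))))))))))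

end

end Pool.Agent.Lib.MP_5854e1_co.Cz

namespace Pool.Agent.Lib.MP_5854e1_co.Cz

noncomputable section

noncomputable def tz168 : DT := (.nd (nat_lit 2) (.nd (nat_lit 3) (.nd (nat_lit 5) (.nd (nat_lit 6) 
(.nd (nat_lit 18) (.nd (nat_lit 7) (.nd (nat_lit 19) (.nd (nat_lit 20) (.nd (nat_lit 8) 
(.nd (nat_lit 23) (.nd (nat_lit 10) 
(.lf (nat_lit 5100322818) (dlOf (nat_lit 1) (nat_lit 0x24004001e0018050002))) 
(.lf (nat_lit 2751513602) (dlOf (nat_lit 1) (nat_lit 0x20018002881)))) (.nd (nat_lit 9) 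
(.lf (nat_lit 12632066) (dlOf (nat_lit 1) (nat_lit 0x4002000200086d0002))) 
(.lf (nat_lit 8442370) (dlOf (nat_lit 1) (nat_lit 0x38008005000200020008518683))))) 
(.nd (nat_lit 9) (.lf (nat_lit 5771411714) (dlOf (nat_lit 1) (nat_lit 0xac0018000a81))) 
(.lf (nat_lit 201377538) (dlOf (nat_lit 2) (nat_lit 0x1c082000470200020018003b81))))) 
(.nd (nat_lit 22) 
(.lf (nat_lit 1343275010) (dlOf (nat_lit 1) (nat_lit 0x80080004002000200081e0003))) 
(.nd (nat_lit 23) (.nd (nat_lit 24) 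
(.lf (nat_lit 5292034) (dlOf (nat_lit 1) (nat_lit 0xa20018340001))) 
(.lf (nat_lit 22069250) (dlOf (nat_lit 1) (nat_lit 0x400200020008a90002)))) 
(.lf (nat_lit 13680642) (dlOf (nat_lit 1) (nat_lit 0x220028740001)))))) (.nd (nat_lit 20) 
(.nd (nat_lit 8) (.nd (nat_lit 27) 
(.lf (nat_lit 4362649602) (dlOf (nat_lit 6) (nat_lit 0x2c05600f0901001702b00784008013801c03c0e0400c400001d1f02005004100280190040e81004f80080130002016200080c0003))) 
(.lf (nat_lit 4228431874) (dlOf (nat_lit 6) (nat_lit 0x2c04f00d5d010017027806ae008013801c035320400c4000019c402005003a00280188042f41004f80080130002016200080c0003)))) 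
(.nd (nat_lit 27) (.lf (nat_lit 67682562) (dlOf (nat_lit 1) (nat_lit 0x110002004000082d0702))) 
(.lf (nat_lit 3154690306) (dlOf (nat_lit 3) (nat_lit 0xd0160025d40800300b00000004000800200220008310702))))) 
(.nd (nat_lit 31) (.nd (nat_lit 10) 
(.lf (nat_lit 10010626) (dlOf (nat_lit 1) (nat_lit 0x480080018002001400085a0003))) 
(.lf (nat_lit 56148994) (dlOf (nat_lit 1) (nat_lit 0x400200020009732882)))) (.nd (nat_lit 26) 
(.lf (nat_lit 3491282946) (dlOf (nat_lit 1) (nat_lit 0x20018080001))) 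
(.lf (nat_lit 2753085442) (dlOf (nat_lit 1) (nat_lit 0x20018080001))))))) (.nd (nat_lit 10) 
(.nd (nat_lit 8) (.nd (nat_lit 9) (.nd (nat_lit 26) 
(.lf (nat_lit 6576717954) (dlOf (nat_lit 1) (nat_lit 0x8800080b0101))) 
(.lf (nat_lit 5972738178) (dlOf (nat_lit 1) (nat_lit 0x8800080b0101)))) 
(.lf (nat_lit 5234543234) (dlOf (nat_lit 1) (nat_lit 0x1a0008055481)))) (.nd (nat_lit 26) 
(.lf (nat_lit 6710938498) (dlOf (nat_lit 1) (nat_lit 0xc00400060008005c02))) (.nd (nat_lit 28) 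
(.lf (nat_lit 5033216898) (dlOf (nat_lit 1) (nat_lit 0x400400020008005c02))) 
(.lf (nat_lit 4764781442) (dlOf (nat_lit 1) (nat_lit 0x800400060008005c02)))))) (.nd (nat_lit 11) 
(.nd (nat_lit 8) (.nd (nat_lit 28) 
(.lf (nat_lit 6039852162) (dlOf (nat_lit 2) (nat_lit 0x30080003aa04001000400040008009502))) 
(.lf (nat_lit 4160803970) (dlOf (nat_lit 1) (nat_lit 0x400400020008009502)))) 
(.lf (nat_lit 4026582914) (dlOf (nat_lit 1) (nat_lit 0x280080048002001a0008004183)))) 
(.nd (nat_lit 20) (.nd (nat_lit 28) 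
(.lf (nat_lit 3288391042) (dlOf (nat_lit 1) (nat_lit 0x44001800c901))) 
(.lf (nat_lit 1409342850) (dlOf (nat_lit 1) (nat_lit 0x26e000800c901)))) 
(.lf (nat_lit 19979650) (dlOf (nat_lit 1) (nat_lit 0x300080018002000400089dc903))))))) 
(.nd (nat_lit 21) (.nd (nat_lit 28) (.nd (nat_lit 23) (.nd (nat_lit 7) (.nd (nat_lit 26) 
(.lf (nat_lit 1745141762) (dlOf (nat_lit 1) (nat_lit 0x3200080b0001))) 
(.lf (nat_lit 1812250626) (dlOf (nat_lit 1) (nat_lit 0xc002000600081b0002)))) 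
(.lf (nat_lit 4496608130) (dlOf (nat_lit 1) (nat_lit 0x280080004002000400080e5c03)))) 
(.nd (nat_lit 19) (.nd (nat_lit 20) 
(.lf (nat_lit 12894210) (dlOf (nat_lit 6) (nat_lit 0x6a3c00055140005a4c006ec8180015478000aa28000549800dd8830007a92800354780022a28000b49800dd8040004a9280035478001ea28000b49800dd7840006a8e003a140800080080008002000a00086e0003))) 
(.lf (nat_lit 26525698) (dlOf (nat_lit 2) (nat_lit 0x27ca200d22818c50000)))) 
(.lf (nat_lit 13418498) (dlOf (nat_lit 1) (nat_lit 0x2480080084002021c0008720003))))) 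
(.nd (nat_lit 26) (.nd (nat_lit 20) (.nd (nat_lit 29) 
(.lf (nat_lit 1476706306) (dlOf (nat_lit 1) (nat_lit 0xcc002001c0008150002))) 
(.lf (nat_lit 939835394) (dlOf (nat_lit 1) (nat_lit 0xc002000600081b0002)))) 
(.lf (nat_lit 1343537154) (dlOf (nat_lit 1) (nat_lit 0x160028290001)))) (.nd (nat_lit 27) 
(.lf (nat_lit 872726530) (dlOf (nat_lit 1) (nat_lit 0x3200080b0001))) (.nd (nat_lit 29) 
(.lf (nat_lit 2617556994) (dlOf (nat_lit 2) (nat_lit 0x1c0580035102000200280f0001))) 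
(.lf (nat_lit 3154427906) (dlOf (nat_lit 1) (nat_lit 0x400400020008170002))))))) (.nd (nat_lit 20) 
(.nd (nat_lit 22) (.nd (nat_lit 26) (.nd (nat_lit 7) 
(.lf (nat_lit 3492593666) (dlOf (nat_lit 2) (nat_lit 0xd787e800e2a040004004000200180e0002))) 
(.lf (nat_lit 19713154) (dlOf (nat_lit 1) (nat_lit 0x160004003a00089d6102)))) (.nd (nat_lit 28) 
(.lf (nat_lit 2754396162) (dlOf (nat_lit 2) (nat_lit 0xd7883c0197e040004004000200180e0002))) 
(.lf (nat_lit 4096573442) (dlOf (nat_lit 1) (nat_lit 0x30008000400200060008130003))))) 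
(.nd (nat_lit 19) (.nd (nat_lit 24) 
(.lf (nat_lit 6602754) (dlOf (nat_lit 1) (nat_lit 0x8002000c0008430002))) 
(.lf (nat_lit 23379970) (dlOf (nat_lit 1) (nat_lit 0x20008001000200060008b80003)))) 
(.lf (nat_lit 15515650) (dlOf (nat_lit 1) (nat_lit 0x4000400100018800002))))) (.nd (nat_lit 19) 
(.nd (nat_lit 7) (.nd (nat_lit 23) 
(.lf (nat_lit 37011458) (dlOf (nat_lit 1) (nat_lit 0x10008000400200020009080003))) 
(.lf (nat_lit 62177282) (dlOf (nat_lit 1) (nat_lit 0x100080010002001c0009970003)))) 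
(.lf (nat_lit 20237186) (dlOf (nat_lit 1) (nat_lit 0x4002000200089d5c02)))) (.nd (nat_lit 7) 
(.nd (nat_lit 26) 
(.lf (nat_lit 3493642242) (dlOf (nat_lit 4) (nat_lit 0x140f60168c02000e07b00020378003002c02c420c00140f6015fb02000c0028190001))) 
(.lf (nat_lit 2755444738) (dlOf (nat_lit 4) (nat_lit 0x140f20151d02000e07900020378003002c0295c0c00140f20149702000c0028190001)))) 
(.lf (nat_lit 8180098) (dlOf (nat_lit 1) (nat_lit 0x400200020008518382)))))))) (.nd (nat_lit 10) 
(.nd (nat_lit 29) (.nd (nat_lit 18) (.nd (nat_lit 19) (.nd (nat_lit 8) (.nd (nat_lit 12) 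
(.lf (nat_lit 4362127426) (dlOf (nat_lit 2) (nat_lit 0x140ac000e30200020028004701))) 
(.lf (nat_lit 4362131522) (dlOf (nat_lit 1) (nat_lit 0xa800800340020018000800a683)))) 
(.lf (nat_lit 3493904706) (dlOf (nat_lit 1) (nat_lit 0x200181b0601)))) (.nd (nat_lit 20) 
(.nd (nat_lit 26) 
(.lf (nat_lit 3494428738) (dlOf (nat_lit 2) (nat_lit 0xc0840024023001400f0000e01800a8008004800200240008220c03))) 
(.lf (nat_lit 474529858) (dlOf (nat_lit 1) (nat_lit 0x500080038002001000091a0603)))) 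
(.lf (nat_lit 3493380162) (dlOf (nat_lit 2) (nat_lit 0x120340002818c003c0840024023000900f00005c2802800080070002000e0008120e03))))) 
(.nd (nat_lit 19) (.nd (nat_lit 7) (.nd (nat_lit 20) 
(.lf (nat_lit 12894274) (dlOf (nat_lit 1) (nat_lit 0xd00080030002002c00086e0d03))) 
(.lf (nat_lit 26525762) (dlOf (nat_lit 1) (nat_lit 0xa8008005000200840008c50583)))) 
(.lf (nat_lit 5771676610) (dlOf (nat_lit 1) (nat_lit 0x20018005d81)))) (.nd (nat_lit 23) 
(.nd (nat_lit 20) (.lf (nat_lit 21807170) (dlOf (nat_lit 1) (nat_lit 0x20028a70781))) 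
(.lf (nat_lit 1346158658) (dlOf (nat_lit 2) (nat_lit 0x19c14c00ca06b800550100108008000800200080008e60603)))) 
(.nd (nat_lit 25) (.lf (nat_lit 9224258) (dlOf (nat_lit 1) (nat_lit 0x400200060008530582))) 
(.lf (nat_lit 42778690) (dlOf (nat_lit 1) (nat_lit 0xcc00200140009280602))))))) (.nd (nat_lit 30) 
(.nd (nat_lit 8) (.nd (nat_lit 18) (.nd (nat_lit 20) 
(.lf (nat_lit 2756231234) (dlOf (nat_lit 2) (nat_lit 0xc0840024023001400f0000d81800a8008004800200240008220c03))) 
(.lf (nat_lit 2755182658) (dlOf (nat_lit 2) (nat_lit 0x120340002818c003c0840024023000900f0000582802800080070002000e0008120e03)))) 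
(.lf (nat_lit 872726594) (dlOf (nat_lit 1) (nat_lit 0x90002000200080b0582)))) (.nd (nat_lit 9) 
(.nd (nat_lit 22) (.lf (nat_lit 3087057218) (dlOf (nat_lit 2) (nat_lit 0x22a000000278180b0600))) 
(.lf (nat_lit 2755707202) (dlOf (nat_lit 5) (nat_lit 0x942260002781001610a8001080801b88a4019842a00040040012224000150181b0600)))) 
(.lf (nat_lit 5167434562) (dlOf (nat_lit 1) (nat_lit 0x20018055c01))))) (.nd (nat_lit 27) 
(.nd (nat_lit 7) (.nd (nat_lit 8) 
(.lf (nat_lit 4026843202) (dlOf (nat_lit 8) (nat_lit 0x11602e00b70168000801004680b80003e0401e005c00b002d0000982009c01700003c0804100b8000180402b005c012402d000058200b3017003f80b400014080040004014800080a0d02))) 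
(.lf (nat_lit 3825254722) (dlOf (nat_lit 2) (nat_lit 0x22a0000002b0180b0600)))) 
(.lf (nat_lit 1611186370) (dlOf (nat_lit 1) (nat_lit 0x2c0028105801)))) (.nd (nat_lit 7) 
(.nd (nat_lit 9) (.lf (nat_lit 1745141826) (dlOf (nat_lit 1) (nat_lit 0x90002000200080b0582))) 
(.lf (nat_lit 6039847490) (dlOf (nat_lit 1) (nat_lit 0x20008000400200040008001583)))) 
(.lf (nat_lit 2080426946) (dlOf (nat_lit 1) (nat_lit 0x400200020008005d82))))))) (.nd (nat_lit 7) 
(.nd (nat_lit 26) (.nd (nat_lit 8) (.nd (nat_lit 9) (.nd (nat_lit 27) 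
(.lf (nat_lit 5100323906) (dlOf (nat_lit 1) (nat_lit 0x100080060002002a0008052883))) 
(.lf (nat_lit 6308283458) (dlOf (nat_lit 1) (nat_lit 0x100080024002000c0008052883)))) 
(.lf (nat_lit 6308283970) (dlOf (nat_lit 2) (nat_lit 0x201800013818053800)))) (.nd (nat_lit 18) 
(.lf (nat_lit 57722178) (dlOf (nat_lit 1) (nat_lit 0x30008002000200020009793303))) 
(.lf (nat_lit 56935746) (dlOf (nat_lit 1) (nat_lit 0x110008000400200080009793303))))) 
(.nd (nat_lit 9) (.nd (nat_lit 27) 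
(.lf (nat_lit 4898997314) (dlOf (nat_lit 1) (nat_lit 0x200080024002000a0008052883))) 
(.nd (nat_lit 30) 
(.lf (nat_lit 4496344130) (dlOf (nat_lit 1) (nat_lit 0x80080030002000c0008052883))) 
(.lf (nat_lit 5570085954) (dlOf (nat_lit 1) (nat_lit 0x18008001400200040008052883))))) 
(.lf (nat_lit 4496344642) (dlOf (nat_lit 1) (nat_lit 0x20028053801))))) (.nd (nat_lit 8) 
(.nd (nat_lit 11) (.nd (nat_lit 18) (.nd (nat_lit 19) 
(.lf (nat_lit 33604802) (dlOf (nat_lit 1) (nat_lit 0x8008000400200020008f52d03))) 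
(.lf (nat_lit 47760578) (dlOf (nat_lit 1) (nat_lit 0x260009402d01)))) 
(.lf (nat_lit 32294082) (dlOf (nat_lit 1) (nat_lit 0x8008000800200020008ef2d03)))) 
(.nd (nat_lit 18) (.lf (nat_lit 3288386754) (dlOf (nat_lit 1) (nat_lit 0x100018006381))) 
(.lf (nat_lit 314562) (dlOf (nat_lit 1) (nat_lit 0x20028006381))))) (.nd (nat_lit 27) 
(.nd (nat_lit 9) (.nd (nat_lit 26) 
(.lf (nat_lit 5100324290) (dlOf (nat_lit 1) (nat_lit 0x20008000800200060008053603))) 
(.lf (nat_lit 4898997698) (dlOf (nat_lit 1) (nat_lit 0x20008000800200040008053603)))) 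
(.lf (nat_lit 2751776706) (dlOf (nat_lit 1) (nat_lit 0x400200020008004402)))) (.nd (nat_lit 30) 
(.lf (nat_lit 4496344514) (dlOf (nat_lit 1) (nat_lit 0x38008000800200080008053603))) 
(.lf (nat_lit 5570086338) (dlOf (nat_lit 1) (nat_lit 0x28008000400200040008053603))))))))) 
(.nd (nat_lit 18) (.nd (nat_lit 7) (.nd (nat_lit 26) (.nd (nat_lit 6) (.nd (nat_lit 20) 
(.nd (nat_lit 19) (.nd (nat_lit 21) 
(.lf (nat_lit 5100322850) (dlOf (nat_lit 1) (nat_lit 0x8008000400200020008050003))) 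
(.lf (nat_lit 52477986) (dlOf (nat_lit 1) (nat_lit 0x400400020019540702)))) (.nd (nat_lit 22) 
(.lf (nat_lit 1342750754) (dlOf (nat_lit 1) (nat_lit 0x80080004002000200080c0003))) 
(.nd (nat_lit 24) 
(.lf (nat_lit 3494428706) (dlOf (nat_lit 2) (nat_lit 0x200b4003ce0400a8004003a0008220902))) 
(.lf (nat_lit 21544994) (dlOf (nat_lit 2) (nat_lit 0x210276000460200120008a40181)))))) 
(.nd (nat_lit 19) (.lf (nat_lit 47235106) (dlOf (nat_lit 1) (nat_lit 0x80080004002000200093c0183))) 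
(.nd (nat_lit 21) (.nd (nat_lit 24) 
(.lf (nat_lit 10010658) (dlOf (nat_lit 4) (nat_lit 0x3d85d400780000000e0400441750000601002e0ea0000000800300080058002013000085a0b83))) 
(.lf (nat_lit 26787874) (dlOf (nat_lit 12) (nat_lit 0x236a9002f540808035480385aa2018ad4f00b96950009a5e4017a8140275aa4013ad5100046a7802f3c18006b5480179c040015aa4000ed51005e402004d6a9002ef408002b5480176e040025aa400bae02004ed52005d68100406a9002d140800535480167e04012c00400060018c70702)))) 
(.lf (nat_lit 3493380130) (dlOf (nat_lit 1) (nat_lit 0xc00400020008120982)))))) (.nd (nat_lit 8) 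
(.nd (nat_lit 10) (.nd (nat_lit 20) 
(.lf (nat_lit 1346420834) (dlOf (nat_lit 1) (nat_lit 0x30002001a0008f60102))) 
(.lf (nat_lit 47235170) (dlOf (nat_lit 1) (nat_lit 0x100080008002000400093c0783)))) 
(.nd (nat_lit 20) (.lf (nat_lit 38323298) (dlOf (nat_lit 1) (nat_lit 0x400200020009132982))) 
(.lf (nat_lit 56149090) (dlOf (nat_lit 1) (nat_lit 0x400400020009732982))))) (.nd (nat_lit 10) 
(.nd (nat_lit 11) (.lf (nat_lit 939573602) (dlOf (nat_lit 1) (nat_lit 0x200280b0701))) 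
(.lf (nat_lit 4831889762) (dlOf (nat_lit 1) (nat_lit 0x20018054e81)))) 
(.lf (nat_lit 3490237794) (dlOf (nat_lit 1) (nat_lit 0x400200020008006a82)))))) (.nd (nat_lit 29) 
(.nd (nat_lit 6) (.nd (nat_lit 30) (.nd (nat_lit 22) 
(.lf (nat_lit 201900066) (dlOf (nat_lit 1) (nat_lit 0xc004000600080b0a82))) 
(.lf (nat_lit 474529826) (dlOf (nat_lit 22) (nat_lit 0x15c12c00b0085005e03a802f81cc00fc0340004e0a00b4096005b042803101d401880e6008401a0002685004404680012c0801e023400d80fa0004a04007a08d003603e8001241000a82580008c0401a412c00d4085007103a803681cc00fc034000430a00d2096006a042803781d401c00e6007a01a0002105007e05780398254011011a00fc00f00020840032046801581f4000800800f011a006c07d0001f8201d404b00ea821407400ea03a6073009f00d0000f82805482580007a0403e412c01f408500fa03a807c01cc00a00340003c0a009409600410398000ec100090258000740401cc12c0003902005209600230398000e010024825800a011a008c0730001b83009604b004881cc0006a0800d812c002408d000198291a0180)))) 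
(.nd (nat_lit 19) 
(.lf (nat_lit 1543553058) (dlOf (nat_lit 2) (nat_lit 0x1809002fc4040004004006400180b0002))) 
(.lf (nat_lit 3557343266) (dlOf (nat_lit 1) (nat_lit 0x4002000200081c0602))))) (.nd (nat_lit 12) 
(.lf (nat_lit 474529890) (dlOf (nat_lit 1) (nat_lit 0x280080004002000e00091a0903))) 
(.lf (nat_lit 67162210) (dlOf (nat_lit 1) (nat_lit 0x2000200140008007d82))))) (.nd (nat_lit 6) 
(.nd (nat_lit 19) (.nd (nat_lit 27) 
(.lf (nat_lit 3825254434) (dlOf (nat_lit 1) (nat_lit 0x180080018002000400080b0003))) 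
(.lf (nat_lit 1811988514) (dlOf (nat_lit 2) (nat_lit 0x1012805f8808012800800d8002004000080b0003)))) 
(.nd (nat_lit 20) 
(.lf (nat_lit 2756231202) (dlOf (nat_lit 2) (nat_lit 0x200b4003f20400a8004003a0008220902))) 
(.lf (nat_lit 2755182626) (dlOf (nat_lit 1) (nat_lit 0xc00400020008120982))))) (.nd (nat_lit 8) 
(.nd (nat_lit 28) 
(.lf (nat_lit 738771042) (dlOf (nat_lit 1) (nat_lit 0x18008000400200020008101c83))) 
(.lf (nat_lit 3154690146) (dlOf (nat_lit 2) (nat_lit 0x1602c00000018310480)))) 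
(.lf (nat_lit 1811988834) (dlOf (nat_lit 1) (nat_lit 0x200280b0701))))))) (.nd (nat_lit 10) 
(.nd (nat_lit 6) (.nd (nat_lit 8) (.nd (nat_lit 11) 
(.lf (nat_lit 18923682) (dlOf (nat_lit 1) (nat_lit 0x10008000400200020008970483))) 
(.lf (nat_lit 1476450466) (dlOf (nat_lit 1) (nat_lit 0x2002800a881)))) (.nd (nat_lit 9) 
(.lf (nat_lit 5234543010) (dlOf (nat_lit 1) (nat_lit 0x90008004000200040008054e83))) 
(.nd (nat_lit 11) (.lf (nat_lit 19973026) (dlOf (nat_lit 1) (nat_lit 0x1000289d2601))) 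
(.lf (nat_lit 5167434658) (dlOf (nat_lit 1) (nat_lit 0x20018055c81)))))) (.nd (nat_lit 21) 
(.nd (nat_lit 8) 
(.lf (nat_lit 1346420962) (dlOf (nat_lit 6) (nat_lit 0x43a000341c4000e0a90007853c00501ea000807f0011e06000b0a90019853c004660800442a4003014f000303f8008c418003074000483880008152001178300190e8001d07100045a08003400400020008f60a82))) 
(.nd (nat_lit 11) (.lf (nat_lit 2348860386) (dlOf (nat_lit 1) (nat_lit 0x40028002881))) 
(.lf (nat_lit 580578) (dlOf (nat_lit 1) (nat_lit 0xc0020012000800bf02))))) (.nd (nat_lit 19) 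
(.nd (nat_lit 24) (.lf (nat_lit 1344323810) (dlOf (nat_lit 1) (nat_lit 0x200286b0581))) 
(.lf (nat_lit 18923746) (dlOf (nat_lit 4) (nat_lit 0x2898600344b9000150200152630000840800093140000004001000200020008970582)))) 
(.lf (nat_lit 28885218) (dlOf (nat_lit 2) (nat_lit 0xca58006b4fc0000a8100008008001000200060008da0583)))))) 
(.nd (nat_lit 9) (.nd (nat_lit 8) (.nd (nat_lit 11) 
(.lf (nat_lit 53527714) (dlOf (nat_lit 1) (nat_lit 0x4004000200095f2b82))) 
(.lf (nat_lit 134274210) (dlOf (nat_lit 1) (nat_lit 0x2000800c201)))) (.nd (nat_lit 6) 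
(.nd (nat_lit 11) 
(.lf (nat_lit 268486050) (dlOf (nat_lit 1) (nat_lit 0x18008001000200040008053603))) 
(.lf (nat_lit 3489717666) (dlOf (nat_lit 2) (nat_lit 0x81f400020f98001d81000380080028002000c000800cb03)))) 
(.lf (nat_lit 8445410) (dlOf (nat_lit 1) (nat_lit 0xa00040042000851cd02))))) (.nd (nat_lit 11) 
(.nd (nat_lit 6) (.nd (nat_lit 26) 
(.lf (nat_lit 4026582690) (dlOf (nat_lit 1) (nat_lit 0xb000800fc00200900008003a83))) 
(.lf (nat_lit 2348861090) (dlOf (nat_lit 1) (nat_lit 0x800200020008003a82)))) 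
(.lf (nat_lit 8439778) (dlOf (nat_lit 1) (nat_lit 0x20028514581)))) (.nd (nat_lit 26) 
(.lf (nat_lit 5905632930) (dlOf (nat_lit 1) (nat_lit 0x800200020008007202))) (.nd (nat_lit 30) 
(.lf (nat_lit 2885734050) (dlOf (nat_lit 1) (nat_lit 0x6000800ac00200400008007203))) 
(.lf (nat_lit 3959475874) (dlOf (nat_lit 1) (nat_lit 0xb80008007201))))))))) (.nd (nat_lit 28) 
(.nd (nat_lit 24) (.nd (nat_lit 6) (.nd (nat_lit 31) (.nd (nat_lit 7) (.nd (nat_lit 8) 
(.nd (nat_lit 21) 
(.lf (nat_lit 1678032930) (dlOf (nat_lit 2) (nat_lit 0x4b00d800000080220008009c00200240008140c03))) 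
(.lf (nat_lit 14991394) (dlOf (nat_lit 1) (nat_lit 0xe00087a0601)))) 
(.lf (nat_lit 5905891618) (dlOf (nat_lit 1) (nat_lit 0x20008000400200080008154303)))) 
(.nd (nat_lit 8) (.lf (nat_lit 315042) (dlOf (nat_lit 1) (nat_lit 0x20028007201))) 
(.lf (nat_lit 8177058) (dlOf (nat_lit 1) (nat_lit 0x400200020008513602))))) (.nd (nat_lit 8) 
(.nd (nat_lit 19) (.nd (nat_lit 30) 
(.lf (nat_lit 2282012706) (dlOf (nat_lit 1) (nat_lit 0x8800800cc00200260008100503))) 
(.lf (nat_lit 3355754530) (dlOf (nat_lit 1) (nat_lit 0x4004000200080f0682)))) 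
(.lf (nat_lit 2819407906) (dlOf (nat_lit 1) (nat_lit 0x230008009c00200260008260503)))) 
(.lf (nat_lit 6509871394) (dlOf (nat_lit 1) (nat_lit 0x800400040008154302))))) (.nd (nat_lit 7) 
(.nd (nat_lit 8) (.nd (nat_lit 10) 
(.lf (nat_lit 42778722) (dlOf (nat_lit 1) (nat_lit 0x20029280901))) 
(.lf (nat_lit 38585442) (dlOf (nat_lit 1) (nat_lit 0x400200020009132982)))) (.nd (nat_lit 19) 
(.lf (nat_lit 6442762594) (dlOf (nat_lit 5) (nat_lit 0x5017000e008c004c044000c00d0001a040010017000700340006608002805c003001000040068000c81800a004000060040010004000200181b0702))) 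
(.lf (nat_lit 1884514) (dlOf (nat_lit 2) (nat_lit 0x4a350000a818150700))))) (.nd (nat_lit 8) 
(.lf (nat_lit 8180450) (dlOf (nat_lit 1) (nat_lit 0x400200020008518c82))) (.nd (nat_lit 9) 
(.lf (nat_lit 3221537250) (dlOf (nat_lit 3) (nat_lit 0x1800e000110100090000000700802100080010002001a0008127303))) 
(.lf (nat_lit 34391010) (dlOf (nat_lit 1) (nat_lit 0x40018fb2881))))))) (.nd (nat_lit 21) 
(.nd (nat_lit 22) (.nd (nat_lit 19) 
(.lf (nat_lit 26525730) (dlOf (nat_lit 9) (nat_lit 0x15b29c0004804009594e00023020009b69000465a00007410001329c000260401340000000b0200b80000000501002b00000001c0801d00000000004039c002001c0008c50182))) 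
(.nd (nat_lit 20) 
(.lf (nat_lit 59555874) (dlOf (nat_lit 8) (nat_lit 0x99f7001443f8007a02c008d014004874100021f90000583001021fc0002a0400050fe014e80b000088200164058000400800ca02c000060400450160000202003687f00000019810700))) 
(.lf (nat_lit 27050018) (dlOf (nat_lit 1) (nat_lit 0x90008005c00200220008ca0603))))) 
(.nd (nat_lit 6) (.nd (nat_lit 7) 
(.lf (nat_lit 21807138) (dlOf (nat_lit 1) (nat_lit 0x20028a70481))) 
(.lf (nat_lit 21283234) (dlOf (nat_lit 1) (nat_lit 0x10008000400200020008a36b83)))) 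
(.lf (nat_lit 30195938) (dlOf (nat_lit 6) (nat_lit 0x248af50002981002057a8000d408046abdc000540400555f000021020074af9003657c000074100008008000800200020008e30583))))) 
(.nd (nat_lit 7) (.nd (nat_lit 9) (.nd (nat_lit 20) 
(.lf (nat_lit 27574306) (dlOf (nat_lit 2) (nat_lit 0x36c58001aa7c014d008000800200020008d00682))) 
(.lf (nat_lit 24428578) (dlOf (nat_lit 1) (nat_lit 0x400400020008ba0a02)))) 
(.lf (nat_lit 23380514) (dlOf (nat_lit 2) (nat_lit 0x17915000b6018b80d80)))) (.nd (nat_lit 6) 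
(.nd (nat_lit 8) (.lf (nat_lit 20240034) (dlOf (nat_lit 1) (nat_lit 0x80080014002000400089d9f83))) 
(.lf (nat_lit 23380386) (dlOf (nat_lit 5) (nat_lit 0x30c898019644400bf0da000d1bf00148d6001d102800e671000a322600559110028c36801d0c20017644c00c3222005d86d000c8df8015c6d400ae2b00073a0c000fd1b0029c898011644400a70da004b1bf00168da801ce4300080008001c00200080008b80783)))) 
(.lf (nat_lit 19185890) (dlOf (nat_lit 2) (nat_lit 0x13fe80079e440054aca000654300015048970580))))))) 
(.nd (nat_lit 6) (.nd (nat_lit 29) (.nd (nat_lit 8) (.nd (nat_lit 19) (.nd (nat_lit 26) 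
(.lf (nat_lit 268746786) (dlOf (nat_lit 1) (nat_lit 0x40018120181))) 
(.lf (nat_lit 2617557026) (dlOf (nat_lit 1) (nat_lit 0x400280f0681)))) 
(.lf (nat_lit 1346158626) (dlOf (nat_lit 2) (nat_lit 0xb2850c033819a0000e0400020018e60181)))) 
(.nd (nat_lit 27) 
(.lf (nat_lit 1409597730) (dlOf (nat_lit 3) (nat_lit 0x3a05f0051a81002102f8028ac0800e00080004002002e0008047803))) 
(.lf (nat_lit 1543815458) (dlOf (nat_lit 3) (nat_lit 0x160000052f01000b000002970080010008001800200260008187803))))) 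
(.nd (nat_lit 30) (.nd (nat_lit 26) 
(.lf (nat_lit 805617698) (dlOf (nat_lit 2) (nat_lit 0x4b00d800000080220008009c00200240008140c03))) 
(.nd (nat_lit 27) 
(.lf (nat_lit 3020210210) (dlOf (nat_lit 2) (nat_lit 0x1701b801180c4008c05e004602c00230128011807c008c01e004400d00230048011800c0003a28000400400020018160602))) 
(.lf (nat_lit 3154427938) (dlOf (nat_lit 1) (nat_lit 0x360008170581))))) (.nd (nat_lit 19) 
(.lf (nat_lit 1946468386) (dlOf (nat_lit 1) (nat_lit 0x800400020008090002))) 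
(.lf (nat_lit 4096573474) (dlOf (nat_lit 1) (nat_lit 0x1480080004002002a0008130803)))))) 
(.nd (nat_lit 20) (.nd (nat_lit 7) (.nd (nat_lit 8) 
(.lf (nat_lit 268746850) (dlOf (nat_lit 1) (nat_lit 0x12c00401320018120782))) (.nd (nat_lit 11) 
(.lf (nat_lit 5838782818) (dlOf (nat_lit 5) (nat_lit 0x5017000e008c004c044000c00d0001a040010017000700340006608002805c003001000040068000c81800a004000060040010004000200181b0702))) 
(.lf (nat_lit 3489974626) (dlOf (nat_lit 1) (nat_lit 0x400200020008004e82))))) (.nd (nat_lit 10) 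
(.lf (nat_lit 4697932002) (dlOf (nat_lit 7) (nat_lit 0x380b4001803e0001904004202f00030168003007c000300c001005a000201f0000582000800f8000280800280bc001805a001001f0000483000700f8000200800400080004002001c00080c1b03))) 
(.lf (nat_lit 5772199138) (dlOf (nat_lit 2) (nat_lit 0x580a00001404000400400020018092e02))))) 
(.nd (nat_lit 10) (.nd (nat_lit 7) 
(.lf (nat_lit 3493120098) (dlOf (nat_lit 1) (nat_lit 0x200180f4701))) 
(.lf (nat_lit 471646434) (dlOf (nat_lit 26) (nat_lit 0xee42c6000c15500380a1036604c001c024e010c0e6003f06106f182f4013815e00be0a7013404f80018208013c070006202f07b1012006d00000005440003817a0002902006616100140a7003e82740004c0c00c013a002208e000128200120b2835b85841b2829c0d4a09d0664047000084283468584190c29c0d2c09d064f047000080203410584197029c0d1409d064504700007c2034485841b3029c00a60da069904e835e823801d80fc022e02c0000e87067a0b0833e853819a013a0cd208e0000e04054b0b082630538156013a0a4208e0000d84065b0b08320853819a813a0c3408e0000d0401400b0816505380e0013a001208e0000a0405ef0b082b58538187c13a0001206006e161000f0a7002e8274000200c04a813a0000f0206e016102f90a701d282740ba811c0000e080a4e16104cb0a702ad0274008c11c0000d080a78161051a0a702f10274000140c0ea42c2061214e03a904e80002418128858400a029c04e409d0000383054c0b08026853815a413a0000606001a161009d0a700a98274000060c11fc2c2068014e04d904e800008182838584114c29c0a5c09d02ea047000004202a40584142429c0aea09d04ec04700000020110000805bc00205de0008370583))))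 
(.nd (nat_lit 19) 
(.lf (nat_lit 1007993954) (dlOf (nat_lit 2) (nat_lit 0x5838c0005404000800200020008922982))) 
(.lf (nat_lit 1880933474) (dlOf (nat_lit 1) (nat_lit 0x20028d12981)))))))))) (.nd (nat_lit 5) 
(.nd (nat_lit 28) (.nd (nat_lit 18) (.nd (nat_lit 26) (.nd (nat_lit 22) (.nd (nat_lit 6) 
(.nd (nat_lit 7) (.nd (nat_lit 8) 
(.lf (nat_lit 4831890442) (dlOf (nat_lit 1) (nat_lit 0xa0028055f81))) 
(.lf (nat_lit 8439562) (dlOf (nat_lit 1) (nat_lit 0x8008000800200020008513b83)))) (.nd (nat_lit 19) 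
(.lf (nat_lit 41994634) (dlOf (nat_lit 1) (nat_lit 0x100019244e81))) 
(.lf (nat_lit 60344714) (dlOf (nat_lit 1) (nat_lit 0x8008000800200040009844e83))))) 
(.nd (nat_lit 7) (.nd (nat_lit 8) 
(.lf (nat_lit 536926282) (dlOf (nat_lit 3) (nat_lit 0x580a2002003f000d0190004801c003b810002809600360300000002800a680))) 
(.lf (nat_lit 2146634) (dlOf (nat_lit 1) (nat_lit 0x2400400080018150602)))) (.nd (nat_lit 8) 
(.lf (nat_lit 134270154) (dlOf (nat_lit 1) (nat_lit 0x20008006381))) 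
(.lf (nat_lit 536922058) (dlOf (nat_lit 2) (nat_lit 0x600500007018004480)))))) (.nd (nat_lit 19) 
(.nd (nat_lit 20) (.nd (nat_lit 21) 
(.lf (nat_lit 29409290) (dlOf (nat_lit 1) (nat_lit 0x800400060008e00282))) 
(.lf (nat_lit 14729226) (dlOf (nat_lit 1) (nat_lit 0x80080004002001c0008770003)))) (.nd (nat_lit 7) 
(.lf (nat_lit 30457866) (dlOf (nat_lit 1) (nat_lit 0x5e0018e30001))) 
(.lf (nat_lit 49334666) (dlOf (nat_lit 1) (nat_lit 0xa0029464e81))))) (.nd (nat_lit 6) 
(.nd (nat_lit 21) 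
(.lf (nat_lit 21544970) (dlOf (nat_lit 2) (nat_lit 0x50a8800304d800581ce004a0e0006c7048a40000))) 
(.lf (nat_lit 48807946) (dlOf (nat_lit 1) (nat_lit 0x40029430101)))) 
(.lf (nat_lit 21545034) (dlOf (nat_lit 13) (nat_lit 0x7284ec0338254004610d0003903000209d8001c4080b084ec00d02540006f04003213b000370102580a2810e050808742720054136007b09a011783a4000c218079028a037c14201a209c80f483a4000c01000cc2ce00640dc000504900190218000bc100a1024c00042020002b78000458900612acc00202aa019412600bf0720002803c000701c03c024c0003602032a145000409d80a184e400e4268011412a009308680f383a4000441c046c27601f012a007708680006c1827b0008055400200120008a40503)))))) 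
(.nd (nat_lit 7) (.nd (nat_lit 6) (.nd (nat_lit 9) (.nd (nat_lit 10) 
(.lf (nat_lit 4362649610) (dlOf (nat_lit 1) (nat_lit 0xb8002004a00080c0082))) 
(.lf (nat_lit 2751513610) (dlOf (nat_lit 1) (nat_lit 0x20018002881)))) 
(.lf (nat_lit 4362131978) (dlOf (nat_lit 2) (nat_lit 0x18033005fe01800b280)))) (.nd (nat_lit 8) 
(.nd (nat_lit 11) (.nd (nat_lit 20) 
(.lf (nat_lit 2756231242) (dlOf (nat_lit 2) (nat_lit 0x5c03c0002d02000c0008220d01))) 
(.lf (nat_lit 2755182666) (dlOf (nat_lit 1) (nat_lit 0x40028120f01)))) 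
(.lf (nat_lit 4362131530) (dlOf (nat_lit 13) (nat_lit 0x1b40b804e00330011202005702e012d80cc0044608045c0660022102061a0330011001017001980087c080d980cc0042a0400b0066002090201140330010401008201980081c0801b017001100a6006a04700a40198007702002180cc0037604070406600000020006001800a681)))) 
(.nd (nat_lit 22) (.lf (nat_lit 3825254730) (dlOf (nat_lit 1) (nat_lit 0x2c00280b0601))) 
(.lf (nat_lit 2755707210) (dlOf (nat_lit 2) (nat_lit 0x16215000200181b0600)))))) (.nd (nat_lit 11) 
(.nd (nat_lit 10) (.nd (nat_lit 30) 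
(.lf (nat_lit 4496343434) (dlOf (nat_lit 1) (nat_lit 0x400400020008051002))) 
(.lf (nat_lit 5570085258) (dlOf (nat_lit 1) (nat_lit 0x400400020008051002)))) 
(.lf (nat_lit 6106957194) (dlOf (nat_lit 1) (nat_lit 0x400400020008003602)))) (.nd (nat_lit 27) 
(.nd (nat_lit 20) (.lf (nat_lit 3288385930) (dlOf (nat_lit 2) (nat_lit 0x602b008fb818004e80))) 
(.lf (nat_lit 2754660746) (dlOf (nat_lit 1) (nat_lit 0x80080008002000200080f4e83)))) 
(.nd (nat_lit 8) (.lf (nat_lit 5033216650) (dlOf (nat_lit 1) (nat_lit 0x340018005481))) 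
(.lf (nat_lit 1275120010) (dlOf (nat_lit 1) (nat_lit 0xc0018004e81)))))))) (.nd (nat_lit 24) 
(.nd (nat_lit 29) (.nd (nat_lit 6) (.nd (nat_lit 7) 
(.lf (nat_lit 13418506) (dlOf (nat_lit 1) (nat_lit 0x1800800cc002002c0008720803))) 
(.nd (nat_lit 20) (.lf (nat_lit 5503238282) (dlOf (nat_lit 1) (nat_lit 0x68002000e00080c0f02))) 
(.lf (nat_lit 3457162) (dlOf (nat_lit 1) (nat_lit 0x400200040008200102))))) (.nd (nat_lit 19) 
(.nd (nat_lit 20) (.lf (nat_lit 1208270922) (dlOf (nat_lit 1) (nat_lit 0xc004001800080b0602))) 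
(.lf (nat_lit 9748554) (dlOf (nat_lit 1) (nat_lit 0x3000400300018580502)))) 
(.lf (nat_lit 9224266) (dlOf (nat_lit 1) (nat_lit 0x18008001000200080008530603))))) 
(.nd (nat_lit 26) (.nd (nat_lit 6) (.nd (nat_lit 27) 
(.lf (nat_lit 3758407690) (dlOf (nat_lit 1) (nat_lit 0x9400400140018170002))) 
(.lf (nat_lit 6040109066) (dlOf (nat_lit 1) (nat_lit 0x600280f0481)))) 
(.lf (nat_lit 5905891914) (dlOf (nat_lit 1) (nat_lit 0x50004002c0008158d02)))) (.nd (nat_lit 6) 
(.nd (nat_lit 7) 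
(.lf (nat_lit 1678032906) (dlOf (nat_lit 12) (nat_lit 0xd02100030088010001c007400c001e0020033800000138180058044006400e002c006000d0010003400400b20000004d86000802100130038001340801d0084003c02200b0007000500100012c10002c084008000e0020006800c801001880000008d0a0024042000d0110026803800280080008c08006200e001d002002c0000001160c00200840008a0200a6042008b007000214100050108011c01c0008404011c042000d01100648038001060c010800403140008140582))) 
(.lf (nat_lit 738511242) (dlOf (nat_lit 1) (nat_lit 0xa0018094e81)))) 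
(.lf (nat_lit 3959734858) (dlOf (nat_lit 6) (nat_lit 0x6800e000118100790070000880801a00380003c0400c801c004a0000000e02001400700006c0801180080024002003c0008128d03)))))) 
(.nd (nat_lit 20) (.nd (nat_lit 7) (.nd (nat_lit 6) (.nd (nat_lit 9) 
(.lf (nat_lit 23379978) (dlOf (nat_lit 1) (nat_lit 0x100080020002000a0008b80003))) 
(.lf (nat_lit 19715594) (dlOf (nat_lit 2) (nat_lit 0x18f48002800000c0e04001200189d9c01)))) 
(.lf (nat_lit 21807178) (dlOf (nat_lit 1) (nat_lit 0x10008000400200020008a70883)))) 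
(.nd (nat_lit 19) (.nd (nat_lit 6) 
(.lf (nat_lit 21282954) (dlOf (nat_lit 3) (nat_lit 0x1427e0001b0100537640034b01805357ca00eabd800465498003aa4004d14e6003ca70007351c00488f0003c876c01ee3a200761b180828b0003d04f8000321e00020028a30f01))) 
(.lf (nat_lit 21283274) (dlOf (nat_lit 1) (nat_lit 0x400400020008a37102)))) (.nd (nat_lit 21) 
(.lf (nat_lit 26001546) (dlOf (nat_lit 1) (nat_lit 0x400400020008c10282))) 
(.lf (nat_lit 23904394) (dlOf (nat_lit 1) (nat_lit 0x400200020008b80102)))))) (.nd (nat_lit 8) 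
(.nd (nat_lit 21) (.nd (nat_lit 19) 
(.lf (nat_lit 26525706) (dlOf (nat_lit 1) (nat_lit 0x8008014c00200be0008c50003))) 
(.lf (nat_lit 27049994) (dlOf (nat_lit 2) (nat_lit 0x1eb12001940080020008008c00200520008ca0483)))) 
(.nd (nat_lit 6) 
(.lf (nat_lit 24952842) (dlOf (nat_lit 2) (nat_lit 0x76bf000000080008008000c00200020008bd0583))) 
(.lf (nat_lit 58509898) (dlOf (nat_lit 1) (nat_lit 0x19200297e5281))))) (.nd (nat_lit 6) 
(.nd (nat_lit 19) (.lf (nat_lit 60082570) (dlOf (nat_lit 1) (nat_lit 0x80019844e81))) 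
(.lf (nat_lit 33343882) (dlOf (nat_lit 1) (nat_lit 0x40028f54e81)))) 
(.lf (nat_lit 20237130) (dlOf (nat_lit 1) (nat_lit 0x4002000200089d5c02)))))))) (.nd (nat_lit 6) 
(.nd (nat_lit 26) (.nd (nat_lit 7) (.nd (nat_lit 18) (.nd (nat_lit 11) (.nd (nat_lit 8) 
(.lf (nat_lit 3492331530) (dlOf (nat_lit 1) (nat_lit 0x100080008002000400080c0803))) 
(.lf (nat_lit 1343799562) (dlOf (nat_lit 1) (nat_lit 0x40018370701)))) (.nd (nat_lit 20) 
(.lf (nat_lit 3623929866) (dlOf (nat_lit 3) (nat_lit 0x1402200057020094031004b01780015010003000800cc00200ce0008004703))) 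
(.lf (nat_lit 3492857866) (dlOf (nat_lit 2) (nat_lit 0x940400004e02000600180f4701))))) 
(.nd (nat_lit 27) (.nd (nat_lit 29) 
(.lf (nat_lit 5637455882) (dlOf (nat_lit 1) (nat_lit 0x1480080004002008800080f0003))) 
(.lf (nat_lit 805617674) (dlOf (nat_lit 12) (nat_lit 0xd02100030088010001c007400c001e0020033800000138180058044006400e002c006000d0010003400400b20000004d86000802100130038001340801d0084003c02200b0007000500100012c10002c084008000e0020006800c801001880000008d0a0024042000d0110026803800280080008c08006200e001d002002c0000001160c00200840008a0200a6042008b007000214100050108011c01c0008404011c042000d01100648038001060c010800403140008140582)))) 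
(.lf (nat_lit 1476706314) (dlOf (nat_lit 3) (nat_lit 0x80fc0004a040010036000000200020028150081))))) 
(.nd (nat_lit 8) (.nd (nat_lit 10) 
(.lf (nat_lit 6308544650) (dlOf (nat_lit 2) (nat_lit 0x2080800006404000c004000600080f0f02))) 
(.lf (nat_lit 3489713290) (dlOf (nat_lit 1) (nat_lit 0x8008000400202d00008006183)))) 
(.nd (nat_lit 10) (.nd (nat_lit 11) 
(.lf (nat_lit 5100323210) (dlOf (nat_lit 1) (nat_lit 0x800400020008051002))) 
(.lf (nat_lit 3490236810) (dlOf (nat_lit 1) (nat_lit 0x400200020008004e82)))) 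
(.lf (nat_lit 5100324234) (dlOf (nat_lit 1) (nat_lit 0x320018053601)))))) (.nd (nat_lit 19) 
(.nd (nat_lit 18) (.nd (nat_lit 7) 
(.lf (nat_lit 2483080458) (dlOf (nat_lit 1) (nat_lit 0x400400020018006682))) (.nd (nat_lit 8) 
(.lf (nat_lit 1006684298) (dlOf (nat_lit 1) (nat_lit 0x8008003800200020008004803))) 
(.lf (nat_lit 4095787402) (dlOf (nat_lit 1) (nat_lit 0x2200180e1001))))) (.nd (nat_lit 7) 
(.lf (nat_lit 6241435658) (dlOf (nat_lit 1) (nat_lit 0x1480080004002008800080f0003))) 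
(.nd (nat_lit 29) (.lf (nat_lit 335855754) (dlOf (nat_lit 1) (nat_lit 0xc004000600080c0f02))) 
(.lf (nat_lit 6241435786) (dlOf (nat_lit 3) (nat_lit 0xc011002b0068009002e000360600b001901620000000c8100058008008c002000200080f0f03)))))) 
(.nd (nat_lit 30) (.nd (nat_lit 8) (.nd (nat_lit 10) 
(.lf (nat_lit 474529802) (dlOf (nat_lit 2) (nat_lit 0x5409600da58191a0000))) 
(.lf (nat_lit 473744394) (dlOf (nat_lit 2) (nat_lit 0x1c1b2006730200020018fa2881)))) 
(.lf (nat_lit 3154690314) (dlOf (nat_lit 6) (nat_lit 0x280b0012c604000c0580095e02003602c002420101100160012000801680b0008fe04001c00200280008310702)))) 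
(.nd (nat_lit 18) (.nd (nat_lit 27) 
(.lf (nat_lit 3557343242) (dlOf (nat_lit 5) (nat_lit 0x2e80e0003c0040130070001d602006e038000e98100a001c00073008032000801a800200ba00081c0483))) 
(.lf (nat_lit 4228431882) (dlOf (nat_lit 1) (nat_lit 0xb8002004a00080c0082)))) 
(.lf (nat_lit 3557605386) (dlOf (nat_lit 2) (nat_lit 0x4092000000200020028270081))))))) 
(.nd (nat_lit 8) (.nd (nat_lit 18) (.nd (nat_lit 21) (.nd (nat_lit 7) (.nd (nat_lit 26) 
(.lf (nat_lit 3494428746) (dlOf (nat_lit 2) (nat_lit 0x5c03c0002c02000c0008220d01))) 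
(.lf (nat_lit 474529866) (dlOf (nat_lit 1) (nat_lit 0x1c002000e00091a0602)))) 
(.lf (nat_lit 4095262922) (dlOf (nat_lit 1) (nat_lit 0x140028081b81)))) (.nd (nat_lit 19) 
(.lf (nat_lit 471908426) (dlOf (nat_lit 1) (nat_lit 0x14002000200086b0102))) (.nd (nat_lit 20) 
(.lf (nat_lit 3492331594) (dlOf (nat_lit 3) (nat_lit 0xc06c8000d00801d036400064040008002000400080c1482))) 
(.lf (nat_lit 3493380170) (dlOf (nat_lit 1) (nat_lit 0x40028120f01)))))) (.nd (nat_lit 26) 
(.nd (nat_lit 7) (.nd (nat_lit 19) 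
(.lf (nat_lit 268746826) (dlOf (nat_lit 2) (nat_lit 0x74809802f0036000450400760008120501))) 
(.lf (nat_lit 1346158666) (dlOf (nat_lit 4) (nat_lit 0x5b06b8005580804005300019e040474298000cd0200020018e60601)))) 
(.lf (nat_lit 4697931978) (dlOf (nat_lit 4) (nat_lit 0x80b0000340400080580001902000202c0000c0180c1780)))) 
(.nd (nat_lit 7) (.nd (nat_lit 27) 
(.lf (nat_lit 2483339338) (dlOf (nat_lit 1) (nat_lit 0x2c002001200080c1482))) 
(.lf (nat_lit 2080686154) (dlOf (nat_lit 1) (nat_lit 0xc004001800080b0602)))) 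
(.lf (nat_lit 335855818) (dlOf (nat_lit 1) (nat_lit 0x200280c1b81)))))) (.nd (nat_lit 7) 
(.nd (nat_lit 10) (.nd (nat_lit 19) 
(.lf (nat_lit 3087057226) (dlOf (nat_lit 1) (nat_lit 0x2c00280b0601))) (.nd (nat_lit 20) 
(.lf (nat_lit 3154690378) (dlOf (nat_lit 2) (nat_lit 0x602c00086818310780))) 
(.lf (nat_lit 1343799626) (dlOf (nat_lit 1) (nat_lit 0x17a0018370781))))) (.nd (nat_lit 18) 
(.nd (nat_lit 27) (.lf (nat_lit 1409338698) (dlOf (nat_lit 2) (nat_lit 0x205f00006818006980))) 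
(.lf (nat_lit 4227910986) (dlOf (nat_lit 1) (nat_lit 0x5000400020018006982)))) 
(.lf (nat_lit 3489975626) (dlOf (nat_lit 4) (nat_lit 0xc1120001102001c0890000801000f0460001822c0001a080004004000c0018006982))))) 
(.nd (nat_lit 11) (.nd (nat_lit 12) 
(.lf (nat_lit 469812170) (dlOf (nat_lit 2) (nat_lit 0x388f0031ce040010004000a0018002882))) 
(.lf (nat_lit 3691041738) (dlOf (nat_lit 1) (nat_lit 0x400400100018009202)))) (.nd (nat_lit 26) 
(.lf (nat_lit 1342233546) (dlOf (nat_lit 1) (nat_lit 0x40040002000800be82))) (.nd (nat_lit 27) 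
(.lf (nat_lit 1409342410) (dlOf (nat_lit 1) (nat_lit 0x400200b6000800be82))) 
(.lf (nat_lit 4227914698) (dlOf (nat_lit 4) (nat_lit 0xe8064001380200960320009b0100ca0190004d008013000800900020038000800be83)))))))))) 
(.nd (nat_lit 6) (.nd (nat_lit 18) (.nd (nat_lit 26) (.nd (nat_lit 8) (.nd (nat_lit 23) 
(.nd (nat_lit 7) (.nd (nat_lit 19) 
(.lf (nat_lit 52477994) (dlOf (nat_lit 1) (nat_lit 0x400400020009540902))) 
(.lf (nat_lit 21545002) (dlOf (nat_lit 3) (nat_lit 0x10be5000028100025f2800000080048008007c00200480008a40303)))) 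
(.nd (nat_lit 9) 
(.lf (nat_lit 134270122) (dlOf (nat_lit 2) (nat_lit 0x1c082000470200020018006281))) 
(.lf (nat_lit 1342233258) (dlOf (nat_lit 1) (nat_lit 0x2001800b781))))) (.nd (nat_lit 21) 
(.nd (nat_lit 24) (.lf (nat_lit 9486378) (dlOf (nat_lit 1) (nat_lit 0xc0028560601))) 
(.lf (nat_lit 26263594) (dlOf (nat_lit 1) (nat_lit 0x8004000a0008c20902)))) (.nd (nat_lit 9) 
(.lf (nat_lit 28360746) (dlOf (nat_lit 1) (nat_lit 0x20028d90881))) 
(.lf (nat_lit 44616234) (dlOf (nat_lit 1) (nat_lit 0x20029325181)))))) (.nd (nat_lit 7) 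
(.nd (nat_lit 9) (.nd (nat_lit 10) 
(.lf (nat_lit 4026583338) (dlOf (nat_lit 2) (nat_lit 0x4a01a800000080070008002c00200500008004b83))) 
(.lf (nat_lit 4160804138) (dlOf (nat_lit 1) (nat_lit 0x160018009801)))) 
(.lf (nat_lit 2281755434) (dlOf (nat_lit 1) (nat_lit 0x180018008f81)))) (.nd (nat_lit 10) 
(.lf (nat_lit 5100323242) (dlOf (nat_lit 1) (nat_lit 0x400400020008051002))) (.nd (nat_lit 11) 
(.lf (nat_lit 8439210) (dlOf (nat_lit 1) (nat_lit 0x400200020008513602))) 
(.lf (nat_lit 19975594) (dlOf (nat_lit 2) (nat_lit 0x56c280038c0800080080004002000200089d6d03))))))) 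
(.nd (nat_lit 8) (.nd (nat_lit 19) (.nd (nat_lit 9) (.nd (nat_lit 27) 
(.lf (nat_lit 68206634) (dlOf (nat_lit 1) (nat_lit 0x1d8008000800200300008450683))) 
(.lf (nat_lit 470859818) (dlOf (nat_lit 3) (nat_lit 0x7c0b180348554032c28402a413100d005f003a0254018810400040000002a0800260b1803185540334284029613100cb05f003602540168104000420e002e00181c0681)))) 
(.nd (nat_lit 10) (.lf (nat_lit 69257770) (dlOf (nat_lit 1) (nat_lit 0x400400020008905182))) 
(.lf (nat_lit 4898997802) (dlOf (nat_lit 1) (nat_lit 0x60028053701))))) (.nd (nat_lit 29) 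
(.nd (nat_lit 28) 
(.lf (nat_lit 4362649642) (dlOf (nat_lit 3) (nat_lit 0x110000000040800b800000000040058002006600080c0b02))) 
(.lf (nat_lit 3557343274) (dlOf (nat_lit 3) (nat_lit 0x2e0490003681003d024801a012000042080004002000800081c0682)))) 
(.nd (nat_lit 7) 
(.lf (nat_lit 4228431914) (dlOf (nat_lit 3) (nat_lit 0x110000000040800b800000000040058002006600080c0b02))) 
(.lf (nat_lit 4095262890) (dlOf (nat_lit 1) (nat_lit 0x8c00200500008081482)))))) (.nd (nat_lit 7) 
(.nd (nat_lit 9) (.nd (nat_lit 10) 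
(.lf (nat_lit 3154690346) (dlOf (nat_lit 3) (nat_lit 0x3f40580047b02001202c00000018310700))) 
(.lf (nat_lit 3288386858) (dlOf (nat_lit 1) (nat_lit 0x1a0018006801)))) 
(.lf (nat_lit 469813034) (dlOf (nat_lit 1) (nat_lit 0x20028003d81)))) (.nd (nat_lit 10) 
(.nd (nat_lit 30) (.lf (nat_lit 4496343466) (dlOf (nat_lit 1) (nat_lit 0x20008051001))) 
(.lf (nat_lit 5570085290) (dlOf (nat_lit 1) (nat_lit 0x8008002c00200020008051003)))) 
(.lf (nat_lit 4898997674) (dlOf (nat_lit 1) (nat_lit 0x20008000800200020008053603))))))) 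
(.nd (nat_lit 28) (.nd (nat_lit 23) (.nd (nat_lit 7) (.nd (nat_lit 26) (.nd (nat_lit 31) 
(.lf (nat_lit 1745141802) (dlOf (nat_lit 1) (nat_lit 0x4980080348002002600080b0403))) 
(.lf (nat_lit 3892625450) (dlOf (nat_lit 3) (nat_lit 0xf80000002004002c0a2001c02400005828170900)))) 
(.lf (nat_lit 5570347050) (dlOf (nat_lit 1) (nat_lit 0x4004000200080f0402)))) (.nd (nat_lit 8) 
(.nd (nat_lit 9) (.lf (nat_lit 21282986) (dlOf (nat_lit 1) (nat_lit 0x800200060008a31482))) 
(.lf (nat_lit 20240042) (dlOf (nat_lit 1) (nat_lit 0x4002000200089da002)))) 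
(.lf (nat_lit 20763562) (dlOf (nat_lit 1) (nat_lit 0x7200189d9101))))) (.nd (nat_lit 19) 
(.nd (nat_lit 20) (.lf (nat_lit 27574314) (dlOf (nat_lit 1) (nat_lit 0x1000400020018d00802))) 
(.lf (nat_lit 26525738) (dlOf (nat_lit 2) (nat_lit 0x46c70001b4580005608006c002004e0008c50382)))) 
(.nd (nat_lit 20) (.nd (nat_lit 22) 
(.lf (nat_lit 42778666) (dlOf (nat_lit 1) (nat_lit 0x400200020009280202))) 
(.lf (nat_lit 13418538) (dlOf (nat_lit 5) (nat_lit 0x11b7880014408000d7700009e04001ade2000370200072d80001b018720d00)))) 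
(.lf (nat_lit 27050026) (dlOf (nat_lit 1) (nat_lit 0x200080008002000c0008ca0683)))))) 
(.nd (nat_lit 26) (.nd (nat_lit 29) (.nd (nat_lit 19) (.nd (nat_lit 7) 
(.lf (nat_lit 1342488618) (dlOf (nat_lit 1) (nat_lit 0x400200020008040602))) 
(.lf (nat_lit 4563714218) (dlOf (nat_lit 1) (nat_lit 0x800280c1481)))) (.nd (nat_lit 31) 
(.lf (nat_lit 1346158634) (dlOf (nat_lit 3) (nat_lit 0x2102800e05a000942cc002a1450024067801080700005218002c40a002416600060a2800a033c0060038000270a006e0028e60201))) 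
(.lf (nat_lit 3493642282) (dlOf (nat_lit 2) (nat_lit 0xd8000000000200040028190801))))) 
(.nd (nat_lit 30) 
(.lf (nat_lit 2953101354) (dlOf (nat_lit 2) (nat_lit 0x1805000c000c000000400040008120701))) 
(.nd (nat_lit 32) (.lf (nat_lit 1879359530) (dlOf (nat_lit 1) (nat_lit 0x200180f0b01))) 
(.lf (nat_lit 6174326826) (dlOf (nat_lit 1) (nat_lit 0x4004000200080f0402)))))) (.nd (nat_lit 27) 
(.nd (nat_lit 8) 
(.lf (nat_lit 872726570) (dlOf (nat_lit 1) (nat_lit 0x4980080348002002600080b0403))) 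
(.lf (nat_lit 1409597738) (dlOf (nat_lit 1) (nat_lit 0x8008000c00200040008047883)))) 
(.nd (nat_lit 29) (.nd (nat_lit 30) 
(.lf (nat_lit 470073386) (dlOf (nat_lit 1) (nat_lit 0x400200020008040602))) 
(.lf (nat_lit 5838782506) (dlOf (nat_lit 1) (nat_lit 0x8e00281b0001)))) 
(.lf (nat_lit 1006944298) (dlOf (nat_lit 1) (nat_lit 0x200180f0b01)))))))) (.nd (nat_lit 18) 
(.nd (nat_lit 28) (.nd (nat_lit 8) (.nd (nat_lit 19) (.nd (nat_lit 7) (.nd (nat_lit 21) 
(.lf (nat_lit 47235178) (dlOf (nat_lit 1) (nat_lit 0xa00193c0781))) 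
(.lf (nat_lit 19972202) (dlOf (nat_lit 1) (nat_lit 0x7c00189d0181)))) 
(.lf (nat_lit 19978986) (dlOf (nat_lit 1) (nat_lit 0x4002000200089db982)))) (.nd (nat_lit 9) 
(.nd (nat_lit 10) (.lf (nat_lit 21545066) (dlOf (nat_lit 2) (nat_lit 0xabe500384818a40780))) 
(.lf (nat_lit 56149098) (dlOf (nat_lit 1) (nat_lit 0xa0019732981)))) 
(.lf (nat_lit 60344938) (dlOf (nat_lit 1) (nat_lit 0x480080024002001a0009845383))))) 
(.nd (nat_lit 7) (.nd (nat_lit 9) 
(.lf (nat_lit 3288386922) (dlOf (nat_lit 1) (nat_lit 0x140018006b01))) 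
(.lf (nat_lit 8439658) (dlOf (nat_lit 1) (nat_lit 0x20028514001)))) (.nd (nat_lit 9) 
(.lf (nat_lit 11583978) (dlOf (nat_lit 1) (nat_lit 0x200286c0d01))) (.nd (nat_lit 10) 
(.lf (nat_lit 604036074) (dlOf (nat_lit 1) (nat_lit 0x40040002001800bf02))) 
(.lf (nat_lit 4362131434) (dlOf (nat_lit 2) (nat_lit 0x8500cc00ab00400040040016001800a602))))))) 
(.nd (nat_lit 11) (.nd (nat_lit 7) (.nd (nat_lit 9) (.nd (nat_lit 22) 
(.lf (nat_lit 3154690154) (dlOf (nat_lit 3) (nat_lit 0x5005800a8602000e01800533018310480))) 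
(.lf (nat_lit 474529898) (dlOf (nat_lit 2) (nat_lit 0x800300002f02000200091a0a01)))) 
(.lf (nat_lit 1342231146) (dlOf (nat_lit 1) (nat_lit 0xc0028008981)))) (.nd (nat_lit 9) 
(.lf (nat_lit 5100323306) (dlOf (nat_lit 1) (nat_lit 0x2800200260008051382))) (.nd (nat_lit 10) 
(.lf (nat_lit 1476449258) (dlOf (nat_lit 1) (nat_lit 0x20018009201))) 
(.lf (nat_lit 469817322) (dlOf (nat_lit 1) (nat_lit 0x364004030c000800a602)))))) (.nd (nat_lit 29) 
(.nd (nat_lit 7) (.nd (nat_lit 8) 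
(.lf (nat_lit 5704305258) (dlOf (nat_lit 1) (nat_lit 0x800400020008055382))) 
(.lf (nat_lit 3490237802) (dlOf (nat_lit 1) (nat_lit 0x400200020008006b02)))) 
(.lf (nat_lit 6710938602) (dlOf (nat_lit 1) (nat_lit 0x400400020008005e82)))) (.nd (nat_lit 26) 
(.nd (nat_lit 27) 
(.lf (nat_lit 6174067306) (dlOf (nat_lit 1) (nat_lit 0x10008000400200020008055383))) 
(.lf (nat_lit 5234543210) (dlOf (nat_lit 1) (nat_lit 0xc00400c60008055382)))) 
(.lf (nat_lit 5301652074) (dlOf (nat_lit 1) (nat_lit 0x400200020008005382))))))) (.nd (nat_lit 30) 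
(.nd (nat_lit 7) (.nd (nat_lit 9) (.nd (nat_lit 8) (.nd (nat_lit 20) 
(.lf (nat_lit 59555946) (dlOf (nat_lit 1) (nat_lit 0x20029811e81))) 
(.lf (nat_lit 45924458) (dlOf (nat_lit 1) (nat_lit 0xc0019371e81)))) 
(.lf (nat_lit 6442762602) (dlOf (nat_lit 2) (nat_lit 0x1809c001001a0003104000400181b0701)))) 
(.nd (nat_lit 19) (.lf (nat_lit 20236906) (dlOf (nat_lit 1) (nat_lit 0x8002000200089d5382))) 
(.nd (nat_lit 20) 
(.lf (nat_lit 46975594) (dlOf (nat_lit 2) (nat_lit 0x1286f40007604014000400a00019385382))) 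
(.lf (nat_lit 20761194) (dlOf (nat_lit 1) (nat_lit 0x80080014002000200089d5383)))))) 
(.nd (nat_lit 8) (.nd (nat_lit 21) 
(.lf (nat_lit 537182442) (dlOf (nat_lit 1) (nat_lit 0x400400020008046b82))) 
(.lf (nat_lit 19185898) (dlOf (nat_lit 1) (nat_lit 0x190008000400200020008970603)))) 
(.nd (nat_lit 9) 
(.lf (nat_lit 6509871594) (dlOf (nat_lit 9) (nat_lit 0xf0130003005c000ba08004004c000c0170002e02000700b80014408007005c000a004006402e0004c0200300170002501001400b8001200800d80d4006c064002402f00500130017805c007c000000420c003e0028157301))) 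
(.lf (nat_lit 315370) (dlOf (nat_lit 1) (nat_lit 0x20028007a81)))))) (.nd (nat_lit 7) 
(.nd (nat_lit 8) (.nd (nat_lit 19) (.nd (nat_lit 26) 
(.lf (nat_lit 4026843242) (dlOf (nat_lit 1) (nat_lit 0x180080028002004800080a1483))) 
(.lf (nat_lit 3288645738) (dlOf (nat_lit 1) (nat_lit 0x180080028002004800080a1483)))) 
(.lf (nat_lit 1346158698) (dlOf (nat_lit 1) (nat_lit 0xc8004002a0008e60a02)))) (.nd (nat_lit 10) 
(.lf (nat_lit 5838782826) (dlOf (nat_lit 2) (nat_lit 0x1809c001001a0003104000400181b0701))) 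
(.lf (nat_lit 3490504042) (dlOf (nat_lit 1) (nat_lit 0x2002800c901))))) (.nd (nat_lit 8) 
(.nd (nat_lit 28) (.lf (nat_lit 3825516778) (dlOf (nat_lit 1) (nat_lit 0x400400020008186b82))) 
(.lf (nat_lit 1409597674) (dlOf (nat_lit 1) (nat_lit 0x3800200120008046b82)))) (.nd (nat_lit 26) 
(.lf (nat_lit 3221537258) (dlOf (nat_lit 2) (nat_lit 0x4e00000011018127300))) 
(.lf (nat_lit 3959734762) (dlOf (nat_lit 2) (nat_lit 0x5a00000513818127d00))))))))))) 
(.nd (nat_lit 5) (.nd (nat_lit 3) (.nd (nat_lit 18) (.nd (nat_lit 26) (.nd (nat_lit 19) 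
(.nd (nat_lit 7) (.nd (nat_lit 6) (.nd (nat_lit 8) 
(.lf (nat_lit 26263558) (dlOf (nat_lit 1) (nat_lit 0x1980080014002007c0008c20003))) 
(.nd (nat_lit 20) (.lf (nat_lit 3892364550) (dlOf (nat_lit 1) (nat_lit 0x40028082f81))) 
(.lf (nat_lit 61916422) (dlOf (nat_lit 1) (nat_lit 0x40009922f81))))) (.nd (nat_lit 9) 
(.lf (nat_lit 14729286) (dlOf (nat_lit 3) (nat_lit 0x3439800a1ec40003a080060f620001c0200060008770601))) 
(.nd (nat_lit 23) 
(.lf (nat_lit 6308283974) (dlOf (nat_lit 2) (nat_lit 0x180600004a04004000200080008053802))) 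
(.lf (nat_lit 8439366) (dlOf (nat_lit 1) (nat_lit 0x400200020008513802)))))) (.nd (nat_lit 29) 
(.nd (nat_lit 20) (.nd (nat_lit 8) 
(.lf (nat_lit 8439430) (dlOf (nat_lit 1) (nat_lit 0x18008001000200020008513a03))) 
(.lf (nat_lit 8439686) (dlOf (nat_lit 1) (nat_lit 0x20028514181)))) (.nd (nat_lit 6) 
(.lf (nat_lit 19975814) (dlOf (nat_lit 1) (nat_lit 0x3a00189d7181))) 
(.lf (nat_lit 3195078) (dlOf (nat_lit 1) (nat_lit 0x10008000800200040008200403))))) 
(.nd (nat_lit 27) (.nd (nat_lit 8) 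
(.lf (nat_lit 5100324486) (dlOf (nat_lit 1) (nat_lit 0x400400020008053a02))) 
(.lf (nat_lit 4026582918) (dlOf (nat_lit 1) (nat_lit 0x100008008800200460008004183)))) 
(.nd (nat_lit 6) (.lf (nat_lit 6308284038) (dlOf (nat_lit 1) (nat_lit 0x400400020008053a02))) 
(.lf (nat_lit 671137990) (dlOf (nat_lit 1) (nat_lit 0x400280b0401))))))) (.nd (nat_lit 20) 
(.nd (nat_lit 21) (.nd (nat_lit 6) 
(.lf (nat_lit 1342750854) (dlOf (nat_lit 1) (nat_lit 0x8002000200080c0102))) (.nd (nat_lit 28) 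
(.lf (nat_lit 4767814) (dlOf (nat_lit 2) (nat_lit 0x180000003a040004002000200082b0602))) 
(.lf (nat_lit 3494428742) (dlOf (nat_lit 2) (nat_lit 0x66034003a810801f404600d801e00150000000982806b000800f8002004a0008220c83))))) 
(.nd (nat_lit 7) (.nd (nat_lit 8) 
(.lf (nat_lit 19447814) (dlOf (nat_lit 3) (nat_lit 0x1cad20016568000b002000129d8002700800080080010002000200089a0583))) 
(.lf (nat_lit 1344849158) (dlOf (nat_lit 1) (nat_lit 0xc00400080008982f82)))) 
(.lf (nat_lit 23642246) (dlOf (nat_lit 1) (nat_lit 0x400200020008b80102))))) (.nd (nat_lit 23) 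
(.nd (nat_lit 31) (.nd (nat_lit 8) 
(.lf (nat_lit 1343799302) (dlOf (nat_lit 1) (nat_lit 0x380028370001))) 
(.lf (nat_lit 39372038) (dlOf (nat_lit 1) (nat_lit 0x20019192f81)))) (.nd (nat_lit 6) 
(.lf (nat_lit 3491282950) (dlOf (nat_lit 1) (nat_lit 0x8008000400200020008080003))) 
(.lf (nat_lit 3493380166) (dlOf (nat_lit 1) (nat_lit 0x40028120e81))))) (.nd (nat_lit 7) 
(.nd (nat_lit 21) (.lf (nat_lit 26787846) (dlOf (nat_lit 1) (nat_lit 0x60028c70281))) 
(.lf (nat_lit 45662214) (dlOf (nat_lit 1) (nat_lit 0x120029350001)))) 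
(.lf (nat_lit 14205062) (dlOf (nat_lit 1) (nat_lit 0x20028750281))))))) (.nd (nat_lit 31) 
(.nd (nat_lit 7) (.nd (nat_lit 6) (.nd (nat_lit 8) (.nd (nat_lit 10) 
(.lf (nat_lit 67682310) (dlOf (nat_lit 2) (nat_lit 0x642e800341490026c0282d0000))) 
(.lf (nat_lit 5167434758) (dlOf (nat_lit 1) (nat_lit 0x40018055f81)))) 
(.lf (nat_lit 6375392518) (dlOf (nat_lit 1) (nat_lit 0x20028002f81)))) (.nd (nat_lit 29) 
(.nd (nat_lit 10) 
(.lf (nat_lit 69257798) (dlOf (nat_lit 3) (nat_lit 0xf04600098058007e0000002f83000f00000017408001000800d800200080008905203))) 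
(.lf (nat_lit 5570086470) (dlOf (nat_lit 1) (nat_lit 0x400400020008053802)))) (.nd (nat_lit 9) 
(.lf (nat_lit 4898997318) (dlOf (nat_lit 1) (nat_lit 0x18008000400200020008052883))) 
(.lf (nat_lit 4898997830) (dlOf (nat_lit 2) (nat_lit 0x2005c0004a04000400200020008053802)))))) 
(.nd (nat_lit 9) (.nd (nat_lit 6) (.nd (nat_lit 8) 
(.lf (nat_lit 470335622) (dlOf (nat_lit 1) (nat_lit 0x8002000200080c0102))) 
(.lf (nat_lit 4764780934) (dlOf (nat_lit 1) (nat_lit 0xe0028004e81)))) 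
(.lf (nat_lit 1543553222) (dlOf (nat_lit 1) (nat_lit 0x400280b0401)))) (.nd (nat_lit 27) 
(.lf (nat_lit 4898997894) (dlOf (nat_lit 1) (nat_lit 0x400400020008053a02))) (.nd (nat_lit 30) 
(.lf (nat_lit 4496344710) (dlOf (nat_lit 1) (nat_lit 0x400400020008053a02))) 
(.lf (nat_lit 5570086534) (dlOf (nat_lit 1) (nat_lit 0x400400020008053a02))))))) (.nd (nat_lit 19) 
(.nd (nat_lit 8) (.nd (nat_lit 6) (.nd (nat_lit 7) 
(.lf (nat_lit 2751513606) (dlOf (nat_lit 1) (nat_lit 0x20018002881))) 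
(.lf (nat_lit 2214647430) (dlOf (nat_lit 1) (nat_lit 0xa0028009e01)))) (.nd (nat_lit 10) 
(.lf (nat_lit 2755707078) (dlOf (nat_lit 1) (nat_lit 0x100080004002001000081b0403))) 
(.lf (nat_lit 3288386758) (dlOf (nat_lit 1) (nat_lit 0x50008002800200340008006383))))) 
(.nd (nat_lit 7) (.nd (nat_lit 20) 
(.lf (nat_lit 3154168582) (dlOf (nat_lit 1) (nat_lit 0x60028085b01))) 
(.lf (nat_lit 4094741254) (dlOf (nat_lit 2) (nat_lit 0x408b0000bc0800400080010002000c0008055b03)))) 
(.nd (nat_lit 9) (.nd (nat_lit 20) 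
(.lf (nat_lit 3288385926) (dlOf (nat_lit 3) (nat_lit 0x802e008fd810005017004748080158008005800200bc0008004e83))) 
(.lf (nat_lit 4094740870) (dlOf (nat_lit 2) (nat_lit 0xa08b006d38080068008000800200160008054e83)))) 
(.lf (nat_lit 2348861318) (dlOf (nat_lit 1) (nat_lit 0x20028004181)))))) (.nd (nat_lit 6) 
(.nd (nat_lit 20) (.nd (nat_lit 21) 
(.lf (nat_lit 3154690054) (dlOf (nat_lit 3) (nat_lit 0x40160012580813380b0007d00400a800200540008310002))) 
(.lf (nat_lit 4096311302) (dlOf (nat_lit 1) (nat_lit 0x4004000200080f0002)))) 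
(.lf (nat_lit 2753085446) (dlOf (nat_lit 1) (nat_lit 0x8008000400200020008080003)))) 
(.nd (nat_lit 21) (.nd (nat_lit 8) 
(.lf (nat_lit 2756231238) (dlOf (nat_lit 2) (nat_lit 0x66034003a810801f404600d801e00150000000942806b000800f8002004a0008220c83))) 
(.lf (nat_lit 3154690374) (dlOf (nat_lit 2) (nat_lit 0x802c0023d818310700)))) (.nd (nat_lit 20) 
(.lf (nat_lit 2754134086) (dlOf (nat_lit 4) (nat_lit 0x2560ce0147065800a8274000b00c04d019c032c0cb001a03d80015c1800283a0000aa040004004000a00180c1882))) 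
(.lf (nat_lit 2755182662) (dlOf (nat_lit 1) (nat_lit 0x40028120e81))))))))) (.nd (nat_lit 6) 
(.nd (nat_lit 19) (.nd (nat_lit 23) (.nd (nat_lit 26) (.nd (nat_lit 8) (.nd (nat_lit 27) 
(.lf (nat_lit 805617670) (dlOf (nat_lit 5) (nat_lit 0x10110010803800140000009c06000202200190070002581000c010800fc01c002e0040004683000f007000214080008008010c00200f40008140583))) 
(.lf (nat_lit 6040109062) (dlOf (nat_lit 1) (nat_lit 0x4002022e00080f0002)))) (.nd (nat_lit 9) 
(.lf (nat_lit 52741382) (dlOf (nat_lit 1) (nat_lit 0x18008000400200020009572f83))) 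
(.lf (nat_lit 313094) (dlOf (nat_lit 1) (nat_lit 0x20028003b81))))) (.nd (nat_lit 27) 
(.nd (nat_lit 8) 
(.lf (nat_lit 1678032902) (dlOf (nat_lit 5) (nat_lit 0x10110010803800140000009c06000202200190070002581000c010800fc01c002e0040004683000f007000214080008008010c00200f40008140583))) 
(.lf (nat_lit 1409597702) (dlOf (nat_lit 1) (nat_lit 0x5400400140008047202)))) (.nd (nat_lit 7) 
(.lf (nat_lit 3154427910) (dlOf (nat_lit 2) (nat_lit 0x100900004044013840400140018170001))) 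
(.lf (nat_lit 1009041542) (dlOf (nat_lit 2) (nat_lit 0x2017c0005c04003800400120019012282)))))) 
(.nd (nat_lit 21) (.nd (nat_lit 8) (.nd (nat_lit 20) 
(.lf (nat_lit 12894214) (dlOf (nat_lit 3) (nat_lit 0x552300752810002a918038c40800100080018002000c00086e0003))) 
(.lf (nat_lit 26525702) (dlOf (nat_lit 1) (nat_lit 0x24002003e0008c50002)))) 
(.lf (nat_lit 60082950) (dlOf (nat_lit 1) (nat_lit 0x40019845b01)))) (.nd (nat_lit 7) 
(.nd (nat_lit 20) (.lf (nat_lit 10797062) (dlOf (nat_lit 1) (nat_lit 0x8008000400200020008630003))) 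
(.lf (nat_lit 62177286) (dlOf (nat_lit 1) (nat_lit 0x100009970001)))) 
(.lf (nat_lit 49596806) (dlOf (nat_lit 1) (nat_lit 0x40029464e81)))))) (.nd (nat_lit 20) 
(.nd (nat_lit 8) (.nd (nat_lit 26) (.nd (nat_lit 21) 
(.lf (nat_lit 21807110) (dlOf (nat_lit 1) (nat_lit 0x800400ae0008a70002))) 
(.lf (nat_lit 3492593670) (dlOf (nat_lit 1) (nat_lit 0x400080044002003e00080e0003)))) 
(.nd (nat_lit 28) 
(.lf (nat_lit 2754396166) (dlOf (nat_lit 1) (nat_lit 0x400080044002003e00080e0003))) 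
(.lf (nat_lit 4096573446) (dlOf (nat_lit 1) (nat_lit 0x400400020018130002))))) (.nd (nat_lit 7) 
(.nd (nat_lit 10) (.lf (nat_lit 17613062) (dlOf (nat_lit 1) (nat_lit 0x3a00188e0701))) 
(.lf (nat_lit 32294150) (dlOf (nat_lit 1) (nat_lit 0x20028ef2f81)))) 
(.lf (nat_lit 57461126) (dlOf (nat_lit 1) (nat_lit 0x300080030002000a0009794e83))))) 
(.nd (nat_lit 7) (.nd (nat_lit 10) (.nd (nat_lit 21) 
(.lf (nat_lit 1344061446) (dlOf (nat_lit 1) (nat_lit 0x4004000a00183b0002))) 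
(.lf (nat_lit 29147142) (dlOf (nat_lit 3) (nat_lit 0xab02000b001000357f8002700800500080040002000a0008dd0583)))) 
(.lf (nat_lit 473744390) (dlOf (nat_lit 2) (nat_lit 0x1c1b2006740200020018fa2881)))) 
(.nd (nat_lit 27) (.lf (nat_lit 2753347718) (dlOf (nat_lit 1) (nat_lit 0x20018090101))) 
(.lf (nat_lit 471646342) (dlOf (nat_lit 2) (nat_lit 0x7c0470004300800600080030002002e0008370483))))))) 
(.nd (nat_lit 8) (.nd (nat_lit 27) (.nd (nat_lit 20) (.nd (nat_lit 9) (.nd (nat_lit 19) 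
(.lf (nat_lit 3758407750) (dlOf (nat_lit 2) (nat_lit 0x8006800070080008008001000200020008170603))) 
(.lf (nat_lit 42778694) (dlOf (nat_lit 1) (nat_lit 0x40019280601)))) 
(.lf (nat_lit 23380550) (dlOf (nat_lit 1) (nat_lit 0xcc00400060008b81102)))) (.nd (nat_lit 7) 
(.nd (nat_lit 19) 
(.lf (nat_lit 26525766) (dlOf (nat_lit 5) (nat_lit 0x1a6fd001336300121aa00014d3e001966c0001b31c018594e002cc350000e0800d66ad001ab388058d94e0001b0600e6ca7000050100196538000100802b80080130002000c0008c50603))) 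
(.lf (nat_lit 1346158662) (dlOf (nat_lit 2) (nat_lit 0x49853002781ae0015a0400040028e60601)))) 
(.lf (nat_lit 20239046) (dlOf (nat_lit 1) (nat_lit 0x4002000200089d8c82))))) (.nd (nat_lit 26) 
(.nd (nat_lit 30) 
(.lf (nat_lit 4429496390) (dlOf (nat_lit 2) (nat_lit 0x18809c0009c04000c002000400080f1882))) 
(.lf (nat_lit 1208270918) (dlOf (nat_lit 1) (nat_lit 0x30004000e00080b0582)))) (.nd (nat_lit 7) 
(.nd (nat_lit 28) 
(.lf (nat_lit 2349121606) (dlOf (nat_lit 3) (nat_lit 0x120280008781007800000015c0800080080010002000800080c1883))) 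
(.lf (nat_lit 2080686150) (dlOf (nat_lit 1) (nat_lit 0x30004000e00080b0582)))) 
(.lf (nat_lit 473744582) (dlOf (nat_lit 3) (nat_lit 0x54857c02b81ae01a809b00d204580002020065057c03241ae0000004005e0028fa2d01)))))) 
(.nd (nat_lit 32) (.nd (nat_lit 7) (.nd (nat_lit 12) 
(.lf (nat_lit 56935750) (dlOf (nat_lit 1) (nat_lit 0x1000400020009793302))) 
(.lf (nat_lit 8705350) (dlOf (nat_lit 1) (nat_lit 0x8008000400200020008519903)))) (.nd (nat_lit 9) 
(.lf (nat_lit 23380422) (dlOf (nat_lit 2) (nat_lit 0x4ee1100020018b80900))) 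
(.lf (nat_lit 19712966) (dlOf (nat_lit 1) (nat_lit 0xc004000200189d5d82))))) (.nd (nat_lit 26) 
(.nd (nat_lit 29) (.lf (nat_lit 6442762566) (dlOf (nat_lit 1) (nat_lit 0x4002000200081b0602))) 
(.lf (nat_lit 5905891654) (dlOf (nat_lit 1) (nat_lit 0x200018154c01)))) (.nd (nat_lit 27) 
(.lf (nat_lit 6509871430) (dlOf (nat_lit 1) (nat_lit 0x200018154c01))) 
(.lf (nat_lit 5838782790) (dlOf (nat_lit 1) (nat_lit 0x4002000200081b0602))))))))) (.nd (nat_lit 6) 
(.nd (nat_lit 26) (.nd (nat_lit 19) (.nd (nat_lit 28) (.nd (nat_lit 18) (.nd (nat_lit 8) 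
(.nd (nat_lit 21) (.lf (nat_lit 5292046) (dlOf (nat_lit 1) (nat_lit 0x200080020002000c0008340283))) 
(.lf (nat_lit 15777806) (dlOf (nat_lit 1) (nat_lit 0x60028830181)))) 
(.lf (nat_lit 36750606) (dlOf (nat_lit 1) (nat_lit 0xc00400020009073002)))) (.nd (nat_lit 23) 
(.nd (nat_lit 7) (.lf (nat_lit 2282012686) (dlOf (nat_lit 1) (nat_lit 0x40008100181))) 
(.lf (nat_lit 671400078) (dlOf (nat_lit 1) (nat_lit 0x200028183d81)))) (.nd (nat_lit 9) 
(.lf (nat_lit 12894222) (dlOf (nat_lit 2) (nat_lit 0x2a91800014080010008000c002001000086e0403))) 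
(.lf (nat_lit 43304462) (dlOf (nat_lit 1) (nat_lit 0x4004000200092a3682)))))) (.nd (nat_lit 7) 
(.nd (nat_lit 8) (.nd (nat_lit 18) 
(.lf (nat_lit 6174064654) (dlOf (nat_lit 1) (nat_lit 0x400400020008050002))) 
(.lf (nat_lit 805617678) (dlOf (nat_lit 12) (nat_lit 0x1300440075e01008a02a0005006c01d420802000a8001201b0074b02000900d803a3808004806c01c5a04002403600e2202000200a006618100650088032c40800700440193e04000401400c8502013a04c00330168030ac100250008002000200460008140a03)))) 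
(.nd (nat_lit 10) (.lf (nat_lit 5234543374) (dlOf (nat_lit 1) (nat_lit 0x20008055b01))) 
(.lf (nat_lit 2952845070) (dlOf (nat_lit 1) (nat_lit 0x1c0040010000800a002))))) (.nd (nat_lit 9) 
(.nd (nat_lit 10) 
(.lf (nat_lit 4563714446) (dlOf (nat_lit 3) (nat_lit 0x6e02e003b00f0019f81000500b800cfa0400ec00400b800180c5d82))) 
(.lf (nat_lit 3489717646) (dlOf (nat_lit 2) (nat_lit 0x190dd0019f808001800800140020002000800c903)))) 
(.lf (nat_lit 3489717134) (dlOf (nat_lit 1) (nat_lit 0x86000800bc81)))))) (.nd (nat_lit 18) 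
(.nd (nat_lit 7) (.nd (nat_lit 20) (.nd (nat_lit 21) 
(.lf (nat_lit 21544974) (dlOf (nat_lit 1) (nat_lit 0x50008000c00200480008a40003))) 
(.lf (nat_lit 19447822) (dlOf (nat_lit 1) (nat_lit 0x78002000200089a0a02)))) (.nd (nat_lit 9) 
(.lf (nat_lit 45662222) (dlOf (nat_lit 1) (nat_lit 0x160029350201))) 
(.lf (nat_lit 58245646) (dlOf (nat_lit 1) (nat_lit 0x14002002800097c7b02))))) (.nd (nat_lit 8) 
(.lf (nat_lit 20502158) (dlOf (nat_lit 1) (nat_lit 0x4002000200089d9e82))) (.nd (nat_lit 9) 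
(.lf (nat_lit 3490236814) (dlOf (nat_lit 1) (nat_lit 0x400200020008004e82))) 
(.lf (nat_lit 46713742) (dlOf (nat_lit 1) (nat_lit 0x400400020009385c82)))))) (.nd (nat_lit 24) 
(.nd (nat_lit 22) (.nd (nat_lit 27) 
(.lf (nat_lit 1343012878) (dlOf (nat_lit 1) (nat_lit 0x8008000400200020008130883))) 
(.lf (nat_lit 2819407886) (dlOf (nat_lit 1) (nat_lit 0x20028260181)))) 
(.lf (nat_lit 13418510) (dlOf (nat_lit 1) (nat_lit 0xc0018720801)))) (.nd (nat_lit 7) 
(.nd (nat_lit 8) (.lf (nat_lit 29147150) (dlOf (nat_lit 1) (nat_lit 0x98008000400200020008dd0a03))) 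
(.lf (nat_lit 51167502) (dlOf (nat_lit 1) (nat_lit 0x8008000400200020009507403)))) 
(.lf (nat_lit 20764302) (dlOf (nat_lit 1) (nat_lit 0x4002000200089d9e82))))))) (.nd (nat_lit 28) 
(.nd (nat_lit 29) (.nd (nat_lit 7) (.nd (nat_lit 8) (.nd (nat_lit 18) 
(.lf (nat_lit 4362649614) (dlOf (nat_lit 2) (nat_lit 0x404f000438180c0080))) 
(.lf (nat_lit 3422863374) (dlOf (nat_lit 2) (nat_lit 0x50190000ec080058008000800200240008130103)))) 
(.lf (nat_lit 2214646542) (dlOf (nat_lit 1) (nat_lit 0xd20018008f81)))) (.nd (nat_lit 8) 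
(.lf (nat_lit 2214647438) (dlOf (nat_lit 1) (nat_lit 0x40028009e81))) 
(.lf (nat_lit 3288385934) (dlOf (nat_lit 1) (nat_lit 0x10008000800200060008004e83))))) 
(.nd (nat_lit 10) (.nd (nat_lit 9) (.nd (nat_lit 18) 
(.lf (nat_lit 4898996238) (dlOf (nat_lit 1) (nat_lit 0x28008000400200020008050003))) 
(.lf (nat_lit 1678032910) (dlOf (nat_lit 12) (nat_lit 0x1300440044b81008a02a0005006c010f80802000a8001201b0043882000900d80214c08004806c01010040024036007fd02000200a00396810065008801c1008007004400dec040004014006f102013a04c0033016801a70100250008002000200460008140a03)))) 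
(.lf (nat_lit 3959734798) (dlOf (nat_lit 2) (nat_lit 0x80000093c040048004002c0008128402)))) 
(.nd (nat_lit 7) (.nd (nat_lit 11) 
(.lf (nat_lit 2751775758) (dlOf (nat_lit 1) (nat_lit 0x400400020008002882))) 
(.lf (nat_lit 604036110) (dlOf (nat_lit 1) (nat_lit 0x2002800bf01)))) 
(.lf (nat_lit 604032910) (dlOf (nat_lit 1) (nat_lit 0x20018007781)))))) (.nd (nat_lit 19) 
(.nd (nat_lit 7) (.nd (nat_lit 8) (.nd (nat_lit 9) 
(.lf (nat_lit 470859790) (dlOf (nat_lit 1) (nat_lit 0x200181c0481))) 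
(.lf (nat_lit 6375654926) (dlOf (nat_lit 1) (nat_lit 0x20018003681)))) 
(.lf (nat_lit 5704305422) (dlOf (nat_lit 1) (nat_lit 0x40028055b01)))) (.nd (nat_lit 8) 
(.lf (nat_lit 1543815310) (dlOf (nat_lit 1) (nat_lit 0x200028183d81))) (.nd (nat_lit 10) 
(.lf (nat_lit 3154168718) (dlOf (nat_lit 1) (nat_lit 0x40028085c81))) 
(.lf (nat_lit 3557085070) (dlOf (nat_lit 1) (nat_lit 0x100018127781)))))) (.nd (nat_lit 29) 
(.nd (nat_lit 18) 
(.lf (nat_lit 3557343246) (dlOf (nat_lit 3) (nat_lit 0x44038000e581000701c000000080148008005c002006200081c0483))) 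
(.lf (nat_lit 470597646) (dlOf (nat_lit 1) (nat_lit 0x8008000400200020008130883)))) 
(.nd (nat_lit 8) (.nd (nat_lit 30) 
(.lf (nat_lit 3154690062) (dlOf (nat_lit 1) (nat_lit 0x180008310001))) 
(.lf (nat_lit 4228431886) (dlOf (nat_lit 2) (nat_lit 0x40480008c0180c0080)))) 
(.lf (nat_lit 3154690318) (dlOf (nat_lit 6) (nat_lit 0x33e02c002408102530160012000812280b0008fe0409140580047e0204e802c00080038011ec1001b800800cc002009e0008310703)))))))) 
(.nd (nat_lit 18) (.nd (nat_lit 7) (.nd (nat_lit 19) (.nd (nat_lit 9) (.nd (nat_lit 8) 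
(.lf (nat_lit 16826446) (dlOf (nat_lit 2) (nat_lit 0x359680011004000c002000200088e0182))) 
(.lf (nat_lit 2483080526) (dlOf (nat_lit 1) (nat_lit 0x400400020008006a02)))) (.nd (nat_lit 10) 
(.lf (nat_lit 58772046) (dlOf (nat_lit 1) (nat_lit 0x4004000200097e5282))) (.nd (nat_lit 26) 
(.lf (nat_lit 6308283982) (dlOf (nat_lit 1) (nat_lit 0x400400020008053882))) 
(.lf (nat_lit 4898997838) (dlOf (nat_lit 1) (nat_lit 0x8008028c002014c0008053883)))))) 
(.nd (nat_lit 22) (.nd (nat_lit 26) (.nd (nat_lit 20) 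
(.lf (nat_lit 42516558) (dlOf (nat_lit 1) (nat_lit 0x30008008c002006c0009260683))) 
(.lf (nat_lit 1343799374) (dlOf (nat_lit 2) (nat_lit 0x1c11c000790200120008370181)))) 
(.nd (nat_lit 27) 
(.lf (nat_lit 67682382) (dlOf (nat_lit 2) (nat_lit 0x20b100060564000de080008004000400082d0182))) 
(.lf (nat_lit 3154690126) (dlOf (nat_lit 8) (nat_lit 0x114c058000b5020fd002c0005901050c0160002c40803000600010e0400600be03fc05701f601b80ff80640cd003002760090004286002d00c0002100821180b0000160400e400402060018310182))))) 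
(.nd (nat_lit 24) (.nd (nat_lit 26) 
(.lf (nat_lit 3494428750) (dlOf (nat_lit 7) (nat_lit 0xe0000000c80822001a007a40c6088404200ff0148213808c0bac03c07e801702080040000b0401af00a415b803c0002b04001e0f0013603501da01a0094c0c6000604a03ba021001e00d800ec064001002c0029014800280940e9804604d801e039200b81ad80200068002071000000015110155014800300780005208012005200a4023005e00f0000a01808e0008008400200020008220d03))) 
(.lf (nat_lit 2756231246) (dlOf (nat_lit 7) (nat_lit 0xe0000000cc0822001a007a40c6088404200ff0148213808c0bac03c07e801702080040000b4401af00a415b803c0002c04001e0f0013603501da01a0094c0c6000604a03ba021001e00d800ec064001002c0029014800280940e9804604d801e039200b81ad80200068002071000000015910155014800300780005408012005200a4023005e00f0000a41808e0008008400200020008220d03)))) 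
(.lf (nat_lit 21545038) (dlOf (nat_lit 1) (nat_lit 0xb000800c0002007c0008a40503)))))) 
(.nd (nat_lit 8) (.nd (nat_lit 27) (.nd (nat_lit 9) (.nd (nat_lit 19) 
(.lf (nat_lit 2755707086) (dlOf (nat_lit 3) (nat_lit 0xe10a8007340800208240038a040058002002000081b0482))) 
(.lf (nat_lit 4095262926) (dlOf (nat_lit 1) (nat_lit 0x20018081b81)))) 
(.lf (nat_lit 1073792718) (dlOf (nat_lit 1) (nat_lit 0xc00400080018003a82)))) (.nd (nat_lit 9) 
(.nd (nat_lit 26) 
(.lf (nat_lit 939573454) (dlOf (nat_lit 2) (nat_lit 0x4c048002801f0011e0280b0480))) 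
(.lf (nat_lit 1811988686) (dlOf (nat_lit 2) (nat_lit 0x4c048002801f0011e0280b0480)))) 
(.lf (nat_lit 473483982) (dlOf (nat_lit 1) (nat_lit 0x20028f55881))))) (.nd (nat_lit 9) 
(.nd (nat_lit 10) (.lf (nat_lit 872466894) (dlOf (nat_lit 1) (nat_lit 0x20018004e81))) 
(.nd (nat_lit 20) (.lf (nat_lit 1342229966) (dlOf (nat_lit 1) (nat_lit 0x520018006d01))) 
(.lf (nat_lit 19975630) (dlOf (nat_lit 1) (nat_lit 0x3c00189d6d01))))) (.nd (nat_lit 10) 
(.nd (nat_lit 26) (.lf (nat_lit 5234543566) (dlOf (nat_lit 1) (nat_lit 0x800200040008055d82))) 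
(.lf (nat_lit 5704305614) (dlOf (nat_lit 1) (nat_lit 0x200018055d81)))) 
(.lf (nat_lit 4362131406) (dlOf (nat_lit 2) (nat_lit 0x1001980155408001000800100020002000800a603))))))) 
(.nd (nat_lit 20) (.nd (nat_lit 28) (.nd (nat_lit 19) (.nd (nat_lit 9) (.nd (nat_lit 29) 
(.lf (nat_lit 1208270926) (dlOf (nat_lit 2) (nat_lit 0x100260002a8180b0680))) 
(.lf (nat_lit 1745141838) (dlOf (nat_lit 1) (nat_lit 0x200080b0681)))) 
(.lf (nat_lit 35965518) (dlOf (nat_lit 1) (nat_lit 0x78008001c00200060009015283)))) 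
(.nd (nat_lit 22) (.lf (nat_lit 9224270) (dlOf (nat_lit 1) (nat_lit 0xa0008530681))) 
(.nd (nat_lit 23) (.lf (nat_lit 21807182) (dlOf (nat_lit 1) (nat_lit 0x400200020008a70902))) 
(.lf (nat_lit 13418574) (dlOf (nat_lit 2) (nat_lit 0x2787c00178c00003c5e0001a038721900)))))) 
(.nd (nat_lit 29) (.nd (nat_lit 7) 
(.lf (nat_lit 2483339342) (dlOf (nat_lit 7) (nat_lit 0xc0280001e8100290140000f00800500a00007604012c050000370200a00280001b01004d0140000d40800300080008002001000080c1503))) 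
(.lf (nat_lit 3489975758) (dlOf (nat_lit 1) (nat_lit 0x40018006d01)))) (.nd (nat_lit 27) 
(.lf (nat_lit 872726606) (dlOf (nat_lit 1) (nat_lit 0x200080b0681))) 
(.lf (nat_lit 2080686158) (dlOf (nat_lit 2) (nat_lit 0x100260002a8180b0680)))))) (.nd (nat_lit 7) 
(.nd (nat_lit 9) (.nd (nat_lit 22) 
(.lf (nat_lit 26525774) (dlOf (nat_lit 2) (nat_lit 0x16c2000094080090008004c00200620008c50703))) 
(.lf (nat_lit 47497294) (dlOf (nat_lit 1) (nat_lit 0x60029400001)))) (.nd (nat_lit 21) 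
(.lf (nat_lit 52218446) (dlOf (nat_lit 2) (nat_lit 0x41010000a819515280))) 
(.lf (nat_lit 33344078) (dlOf (nat_lit 2) (nat_lit 0xecee00076020000d828f55280))))) 
(.nd (nat_lit 8) (.nd (nat_lit 9) 
(.lf (nat_lit 3457230) (dlOf (nat_lit 3) (nat_lit 0x4efc002470200268da00121818200480))) 
(.lf (nat_lit 20239054) (dlOf (nat_lit 1) (nat_lit 0x4002000200089d8c82)))) 
(.lf (nat_lit 1345635278) (dlOf (nat_lit 1) (nat_lit 0xc0028dd2881))))))))) (.nd (nat_lit 18) 
(.nd (nat_lit 28) (.nd (nat_lit 26) (.nd (nat_lit 8) (.nd (nat_lit 23) (.nd (nat_lit 3) 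
(.nd (nat_lit 6) (.nd (nat_lit 19) (.nd (nat_lit 9) 
(.lf (nat_lit 22069286) (dlOf (nat_lit 2) (nat_lit 0x22bd100015018a90580))) 
(.lf (nat_lit 3758148134) (dlOf (nat_lit 1) (nat_lit 0x10008000400200060008085183)))) 
(.nd (nat_lit 20) 
(.lf (nat_lit 134791206) (dlOf (nat_lit 1) (nat_lit 0x80080004002000200080b0b83))) 
(.lf (nat_lit 22593574) (dlOf (nat_lit 1) (nat_lit 0x600018b00881))))) (.nd (nat_lit 7) 
(.lf (nat_lit 3892364902) (dlOf (nat_lit 7) (nat_lit 0xa011c00d008800052040060047000288100540238018811800cc088006e043003102080011828003811c0008a0400c40d0006203f00310090000b41800680fc0005804000400400420018083902))) 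
(.nd (nat_lit 10) (.lf (nat_lit 16826598) (dlOf (nat_lit 1) (nat_lit 0x800088e0581))) 
(.lf (nat_lit 52454) (dlOf (nat_lit 1) (nat_lit 0x20018006501)))))) (.nd (nat_lit 22) 
(.nd (nat_lit 7) 
(.lf (nat_lit 4831887406) (dlOf (nat_lit 1) (nat_lit 0x8008007800200020008050003))) 
(.lf (nat_lit 4831890094) (dlOf (nat_lit 1) (nat_lit 0x400400020008055682)))) (.nd (nat_lit 20) 
(.lf (nat_lit 23117870) (dlOf (nat_lit 4) (nat_lit 0x7ad7e000d65e0018306c000200c03d997e0000e020016c1b00004818b60900))) 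
(.lf (nat_lit 5292078) (dlOf (nat_lit 1) (nat_lit 0x530008001400200900008340883)))))) 
(.nd (nat_lit 20) (.nd (nat_lit 7) (.nd (nat_lit 3) 
(.lf (nat_lit 42516582) (dlOf (nat_lit 1) (nat_lit 0xc00400020009260982))) 
(.lf (nat_lit 48807982) (dlOf (nat_lit 1) (nat_lit 0x20029430a01)))) (.nd (nat_lit 10) 
(.lf (nat_lit 8440038) (dlOf (nat_lit 1) (nat_lit 0x20028514b01))) 
(.lf (nat_lit 8439014) (dlOf (nat_lit 1) (nat_lit 0x400400020008512e02))))) (.nd (nat_lit 3) 
(.nd (nat_lit 9) (.lf (nat_lit 26787878) (dlOf (nat_lit 1) (nat_lit 0x780080024002000c0008c70703))) 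
(.lf (nat_lit 60344870) (dlOf (nat_lit 1) (nat_lit 0x10008000400200040009845183)))) 
(.nd (nat_lit 7) 
(.lf (nat_lit 13680686) (dlOf (nat_lit 3) (nat_lit 0x434e0001280800e9c5400062040004004001e0018740602))) 
(.lf (nat_lit 12107950) (dlOf (nat_lit 1) (nat_lit 0x800286c0301))))))) (.nd (nat_lit 10) 
(.nd (nat_lit 6) (.nd (nat_lit 7) (.nd (nat_lit 9) 
(.lf (nat_lit 8440102) (dlOf (nat_lit 2) (nat_lit 0x895e4001c604000c00400020008514b82))) 
(.lf (nat_lit 60345126) (dlOf (nat_lit 1) (nat_lit 0x8008000800200040009845c03)))) 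
(.lf (nat_lit 8438182) (dlOf (nat_lit 1) (nat_lit 0x400200020008511002)))) (.nd (nat_lit 3) 
(.nd (nat_lit 9) (.lf (nat_lit 671138150) (dlOf (nat_lit 1) (nat_lit 0x10002000a00080b0702))) 
(.lf (nat_lit 19975014) (dlOf (nat_lit 1) (nat_lit 0x200089d5c01)))) 
(.lf (nat_lit 57721838) (dlOf (nat_lit 1) (nat_lit 0x40008001800200020009792883))))) 
(.nd (nat_lit 7) (.nd (nat_lit 11) (.nd (nat_lit 3) 
(.lf (nat_lit 2147534118) (dlOf (nat_lit 1) (nat_lit 0x20018003181))) 
(.lf (nat_lit 19977518) (dlOf (nat_lit 1) (nat_lit 0x18002000400089d9882)))) (.nd (nat_lit 29) 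
(.lf (nat_lit 4295019814) (dlOf (nat_lit 1) (nat_lit 0x400200020008006802))) 
(.lf (nat_lit 5905632550) (dlOf (nat_lit 1) (nat_lit 0x20028006801))))) (.nd (nat_lit 3) 
(.nd (nat_lit 6) (.lf (nat_lit 8439718) (dlOf (nat_lit 1) (nat_lit 0xb20028514301))) 
(.lf (nat_lit 19975654) (dlOf (nat_lit 1) (nat_lit 0x400189d6e81)))) 
(.lf (nat_lit 575470) (dlOf (nat_lit 1) (nat_lit 0x118008003c002001c0008004603))))))) 
(.nd (nat_lit 3) (.nd (nat_lit 8) (.nd (nat_lit 6) (.nd (nat_lit 20) (.nd (nat_lit 7) 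
(.lf (nat_lit 2756231206) (dlOf (nat_lit 15) (nat_lit 0x15019c00480820016022001400d80093020005019c00700440024b04000a0670012501000b0110009140800c819800100ba005403f0b42017009580b40034044001401c000ff87000d033001080fc0010044001601c000ff040002033000880fc0040044001c01c000fe0400060110007ec0800880fc003c044001e01c000fd03001101f85b080b82d4005a0028026001001100070070003f21800640cc005403f000f01100060070003f010004c0cc004a03f000e01100060070003ee1000240cc000c022000fb02000c033000a80fc003404c000c022000600e0007d4282d0800802c400200780008220903))) 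
(.lf (nat_lit 3288386726) (dlOf (nat_lit 6) (nat_lit 0x101a8001580801100d4004c068000a02a0002383002101a000b80a80008c08000406a0014034000e0150000e01800280d80004404078c004001e0018006282)))) 
(.nd (nat_lit 21) 
(.lf (nat_lit 2753085478) (dlOf (nat_lit 3) (nat_lit 0x1a2110001f010006108800000080010008002c002000c0008080983))) 
(.lf (nat_lit 2755182630) (dlOf (nat_lit 5) (nat_lit 0x140d8001206700090208000808800180360000b0a0006022000300d80002810001019c0000e0400080d80000002003c0028120a01))))) 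
(.nd (nat_lit 7) (.nd (nat_lit 9) 
(.lf (nat_lit 604036198) (dlOf (nat_lit 1) (nat_lit 0x4000800180020008000800c083))) 
(.lf (nat_lit 738248294) (dlOf (nat_lit 2) (nat_lit 0x28027000800dc0000008001400400060008003902)))) 
(.lf (nat_lit 6106957030) (dlOf (nat_lit 1) (nat_lit 0x400200020008002e02))))) (.nd (nat_lit 7) 
(.nd (nat_lit 10) (.nd (nat_lit 6) 
(.lf (nat_lit 2755707174) (dlOf (nat_lit 1) (nat_lit 0x4004000200181b0502))) 
(.lf (nat_lit 2755707238) (dlOf (nat_lit 1) (nat_lit 0x38008005c002002c00081b0703)))) 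
(.nd (nat_lit 29) (.lf (nat_lit 3288386854) (dlOf (nat_lit 1) (nat_lit 0x80018006801))) 
(.lf (nat_lit 1677774118) (dlOf (nat_lit 1) (nat_lit 0x400400020008006802))))) (.nd (nat_lit 6) 
(.nd (nat_lit 11) (.lf (nat_lit 6643831718) (dlOf (nat_lit 1) (nat_lit 0x80018009101))) 
(.lf (nat_lit 1275120550) (dlOf (nat_lit 1) (nat_lit 0x10008000400200040008005d03)))) 
(.lf (nat_lit 2751513574) (dlOf (nat_lit 1) (nat_lit 0x400200020008002882)))))) (.nd (nat_lit 31) 
(.nd (nat_lit 9) (.nd (nat_lit 6) (.nd (nat_lit 7) 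
(.lf (nat_lit 1811988782) (dlOf (nat_lit 1) (nat_lit 0x580080014002003000080b0503))) 
(.lf (nat_lit 1811988654) (dlOf (nat_lit 1) (nat_lit 0x200280b0301)))) 
(.lf (nat_lit 67682414) (dlOf (nat_lit 1) (nat_lit 0x1d000182d0481)))) (.nd (nat_lit 6) 
(.nd (nat_lit 10) (.lf (nat_lit 4362132014) (dlOf (nat_lit 1) (nat_lit 0x44001800b301))) 
(.lf (nat_lit 1677774382) (dlOf (nat_lit 1) (nat_lit 0x60008007181)))) 
(.lf (nat_lit 4898997870) (dlOf (nat_lit 1) (nat_lit 0x20028053981))))) (.nd (nat_lit 8) 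
(.nd (nat_lit 9) (.nd (nat_lit 19) 
(.lf (nat_lit 6643826734) (dlOf (nat_lit 1) (nat_lit 0x800400020008000002))) 
(.lf (nat_lit 2755182638) (dlOf (nat_lit 1) (nat_lit 0x180080108002000a0008120c03)))) 
(.lf (nat_lit 2885733934) (dlOf (nat_lit 2) (nat_lit 0x201880015008015800800b400200a80008007183)))) 
(.nd (nat_lit 7) (.lf (nat_lit 3288386862) (dlOf (nat_lit 1) (nat_lit 0x520008006881))) 
(.nd (nat_lit 9) 
(.lf (nat_lit 3288385966) (dlOf (nat_lit 2) (nat_lit 0x4017000100ac0240008000800400280008004e82))) 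
(.lf (nat_lit 2751514542) (dlOf (nat_lit 1) (nat_lit 0x8008002000200040008004383))))))))) 
(.nd (nat_lit 27) (.nd (nat_lit 31) (.nd (nat_lit 32) (.nd (nat_lit 3) (.nd (nat_lit 7) 
(.nd (nat_lit 19) (.lf (nat_lit 1880145958) (dlOf (nat_lit 1) (nat_lit 0x400200020008760a82))) 
(.lf (nat_lit 1879621670) (dlOf (nat_lit 2) (nat_lit 0x1200000009018250880)))) 
(.lf (nat_lit 1346946214) (dlOf (nat_lit 3) (nat_lit 0x701630002f8100020b1800a00d0000ba080014002000a0009102c02)))) 
(.nd (nat_lit 6) (.lf (nat_lit 268485038) (dlOf (nat_lit 1) (nat_lit 0xd00018051001))) 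
(.nd (nat_lit 9) 
(.lf (nat_lit 1346420846) (dlOf (nat_lit 1) (nat_lit 0x30008007c00200160008f60183))) 
(.lf (nat_lit 1342231150) (dlOf (nat_lit 1) (nat_lit 0x80028008981)))))) (.nd (nat_lit 7) 
(.nd (nat_lit 3) 
(.lf (nat_lit 4563453542) (dlOf (nat_lit 2) (nat_lit 0x20330008018000600ac000000c001c004000c0018003902))) 
(.nd (nat_lit 26) 
(.lf (nat_lit 6174064686) (dlOf (nat_lit 1) (nat_lit 0x8008001800200020008050003))) 
(.lf (nat_lit 5704302638) (dlOf (nat_lit 1) (nat_lit 0x20008050001))))) (.nd (nat_lit 3) 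
(.lf (nat_lit 5704305638) (dlOf (nat_lit 1) (nat_lit 0x60028055e81))) (.nd (nat_lit 26) 
(.lf (nat_lit 6174067374) (dlOf (nat_lit 1) (nat_lit 0x400400020008055682))) 
(.lf (nat_lit 5704305326) (dlOf (nat_lit 1) (nat_lit 0x400400020008055682))))))) (.nd (nat_lit 7) 
(.nd (nat_lit 20) (.nd (nat_lit 6) (.nd (nat_lit 22) 
(.lf (nat_lit 3557343270) (dlOf (nat_lit 1) (nat_lit 0x400181c0601))) 
(.lf (nat_lit 3494428710) (dlOf (nat_lit 15) (nat_lit 0x15019c00480820016022001400d8008d020005019c00700440023304000a0670011901000b0110008b40800c819800100ba005403f0b42017009580b40034044001401c000f687000d033001080fc0010044001601c000f6040002033000880fc0040044001c01c000f50400060110007a40800880fc003c044001e01c000f403001101f85b080b82d4005a0028026001001100070070003ce1800640cc005403f000f01100060070003cc10004c0cc004a03f000e01100060070003ca1000240cc000c022000f202000c033000a80fc003404c000c022000600e00078c282d0800802c400200780008220903)))) 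
(.nd (nat_lit 8) 
(.lf (nat_lit 2952846438) (dlOf (nat_lit 2) (nat_lit 0x5900d0000a008002000800fc0020008000800c083))) 
(.lf (nat_lit 4093692262) (dlOf (nat_lit 1) (nat_lit 0x18008000c00200060008004e83))))) 
(.nd (nat_lit 3) (.nd (nat_lit 21) 
(.lf (nat_lit 3491282982) (dlOf (nat_lit 2) (nat_lit 0x1f42b8000000200300008080981))) 
(.lf (nat_lit 3493380134) (dlOf (nat_lit 5) (nat_lit 0x140d8001206700090208000808800180360000b0a0006022000300d80002810001019c0000e0400080d80000002003c0028120a01)))) 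
(.lf (nat_lit 3493380142) (dlOf (nat_lit 1) (nat_lit 0x180080108002000a0008120c03))))) 
(.nd (nat_lit 3) (.nd (nat_lit 6) (.nd (nat_lit 9) 
(.lf (nat_lit 3489717670) (dlOf (nat_lit 5) (nat_lit 0x287d40005c0400083ea000060200041f5000020100010fa80000008002800800100020018000800cb83))) 
(.lf (nat_lit 4026582950) (dlOf (nat_lit 1) (nat_lit 0xc0018004301)))) 
(.lf (nat_lit 4094741478) (dlOf (nat_lit 1) (nat_lit 0x38008003c00200120008055e83)))) 
(.nd (nat_lit 6) (.lf (nat_lit 4026582958) (dlOf (nat_lit 1) (nat_lit 0x120018004381))) 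
(.nd (nat_lit 8) (.lf (nat_lit 4026582766) (dlOf (nat_lit 1) (nat_lit 0x5c0008003b01))) 
(.lf (nat_lit 4026587118) (dlOf (nat_lit 1) (nat_lit 0x36002800a601)))))))) (.nd (nat_lit 11) 
(.nd (nat_lit 6) (.nd (nat_lit 3) (.nd (nat_lit 8) (.nd (nat_lit 7) 
(.lf (nat_lit 474529830) (dlOf (nat_lit 1) (nat_lit 0x800091a0201))) 
(.lf (nat_lit 1476448934) (dlOf (nat_lit 1) (nat_lit 0x400200020008008c82)))) (.nd (nat_lit 10) 
(.lf (nat_lit 471908646) (dlOf (nat_lit 1) (nat_lit 0x80080004002000200086b0703))) 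
(.lf (nat_lit 6375392550) (dlOf (nat_lit 1) (nat_lit 0x20028003181))))) (.nd (nat_lit 7) 
(.nd (nat_lit 19) (.lf (nat_lit 5234540590) (dlOf (nat_lit 1) (nat_lit 0xa800200020008050002))) 
(.lf (nat_lit 474529838) (dlOf (nat_lit 2) (nat_lit 0x1682700003a040014004000c00091a0282)))) 
(.lf (nat_lit 939573422) (dlOf (nat_lit 1) (nat_lit 0x200280b0301))))) (.nd (nat_lit 8) 
(.nd (nat_lit 19) (.lf (nat_lit 6376439910) (dlOf (nat_lit 1) (nat_lit 0x80018090101))) 
(.nd (nat_lit 22) 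
(.lf (nat_lit 3154690150) (dlOf (nat_lit 4) (nat_lit 0x3016002a1808007006400a003000a78040026019001500c0029981000c8008000c002000c0008310483))) 
(.lf (nat_lit 474529894) (dlOf (nat_lit 2) (nat_lit 0x5c12c0022074000e0398001081800880080008002001600091a0983))))) 
(.nd (nat_lit 3) (.lf (nat_lit 1543553382) (dlOf (nat_lit 1) (nat_lit 0x10002000a00080b0702))) 
(.lf (nat_lit 5771936110) (dlOf (nat_lit 2) (nat_lit 0x12000001822040028002005a0008017602)))))) 
(.nd (nat_lit 8) (.nd (nat_lit 3) (.nd (nat_lit 6) 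
(.lf (nat_lit 472435238) (dlOf (nat_lit 2) (nat_lit 0x4160000804e00022c100028008000c00200040008985183))) 
(.nd (nat_lit 9) (.lf (nat_lit 469817446) (dlOf (nat_lit 1) (nat_lit 0x4e001800a801))) 
(.lf (nat_lit 4227911270) (dlOf (nat_lit 2) (nat_lit 0x1409e000e30200020028007181))))) 
(.nd (nat_lit 7) (.lf (nat_lit 469817902) (dlOf (nat_lit 1) (nat_lit 0x9e001800b301))) 
(.lf (nat_lit 5234543278) (dlOf (nat_lit 1) (nat_lit 0x400400020008055682))))) (.nd (nat_lit 7) 
(.nd (nat_lit 29) (.lf (nat_lit 402705190) (dlOf (nat_lit 1) (nat_lit 0xc0008005c01))) 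
(.lf (nat_lit 2013317926) (dlOf (nat_lit 1) (nat_lit 0x40008005c01)))) (.nd (nat_lit 3) 
(.lf (nat_lit 402705318) (dlOf (nat_lit 1) (nat_lit 0x340028005d01))) 
(.lf (nat_lit 472435118) (dlOf (nat_lit 1) (nat_lit 0x10008000c00200060008984e83))))))))) 
(.nd (nat_lit 3) (.nd (nat_lit 30) (.nd (nat_lit 21) (.nd (nat_lit 27) (.nd (nat_lit 32) 
(.nd (nat_lit 19) (.nd (nat_lit 7) 
(.lf (nat_lit 314662) (dlOf (nat_lit 1) (nat_lit 0x20028006801))) 
(.lf (nat_lit 335855782) (dlOf (nat_lit 1) (nat_lit 0x4002000200080c1482)))) (.nd (nat_lit 6) 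
(.lf (nat_lit 59555878) (dlOf (nat_lit 2) (nat_lit 0x1b4400001a0300000008008400200380009810782))) 
(.lf (nat_lit 42778726) (dlOf (nat_lit 2) (nat_lit 0x80000000004004000400260019280982))))) 
(.nd (nat_lit 7) (.nd (nat_lit 8) 
(.lf (nat_lit 4362387494) (dlOf (nat_lit 1) (nat_lit 0x100018050581))) (.nd (nat_lit 9) 
(.lf (nat_lit 6442762534) (dlOf (nat_lit 1) (nat_lit 0x200181b0501))) 
(.lf (nat_lit 4899261222) (dlOf (nat_lit 1) (nat_lit 0x200080d5c01))))) (.nd (nat_lit 6) 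
(.lf (nat_lit 6711197862) (dlOf (nat_lit 1) (nat_lit 0x8004000200080c1382))) 
(.lf (nat_lit 6711197926) (dlOf (nat_lit 2) (nat_lit 0x6201c000718180c1b80)))))) (.nd (nat_lit 6) 
(.nd (nat_lit 26) (.nd (nat_lit 7) (.nd (nat_lit 19) 
(.lf (nat_lit 2282012710) (dlOf (nat_lit 1) (nat_lit 0x10008001000200060008100603))) 
(.lf (nat_lit 2819407910) (dlOf (nat_lit 2) (nat_lit 0x103780039c080050008007400200040008260603)))) 
(.lf (nat_lit 402964646) (dlOf (nat_lit 1) (nat_lit 0x4004000200080c1382)))) (.nd (nat_lit 8) 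
(.lf (nat_lit 470073382) (dlOf (nat_lit 10) (nat_lit 0x891c000aa04001848e000223c0002a020002123800408f0000a608000848e000a23c00028020004123800088f000102e2000370600042470001b01000f123800188f000142e20003506000224700010b88000d01000185c40006404006000400040008040582))) 
(.nd (nat_lit 10) 
(.lf (nat_lit 4496608038) (dlOf (nat_lit 1) (nat_lit 0x28008000c002000600080e5c03))) 
(.lf (nat_lit 2885994278) (dlOf (nat_lit 1) (nat_lit 0x20008000400200040008143d03)))))) 
(.nd (nat_lit 7) (.nd (nat_lit 26) 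
(.lf (nat_lit 135053670) (dlOf (nat_lit 1) (nat_lit 0x4002008e00081b0702))) 
(.lf (nat_lit 202162534) (dlOf (nat_lit 1) (nat_lit 0x4002008e00081b0702)))) (.nd (nat_lit 28) 
(.lf (nat_lit 4966367462) (dlOf (nat_lit 1) (nat_lit 0x4002000200080c1d82))) 
(.lf (nat_lit 4697932006) (dlOf (nat_lit 8) (nat_lit 0x2701a800280d0005005e004002d00230158003807c00900360038016001000900010024001c628001805e004202d001500f80008048001c410001c05a001001f000708200020168001ec0800100bc002405a000601f00020090001e82000880bc005405a002a01f00040090001e42000a80bc006005a003201f00010090001e02005680080250002049400080c1b83))))))) 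
(.nd (nat_lit 9) (.nd (nat_lit 8) (.nd (nat_lit 19) (.nd (nat_lit 20) (.nd (nat_lit 23) 
(.lf (nat_lit 6602790) (dlOf (nat_lit 1) (nat_lit 0x40008000400200200008430d83))) 
(.lf (nat_lit 14991398) (dlOf (nat_lit 1) (nat_lit 0x200187a0781)))) 
(.lf (nat_lit 7651366) (dlOf (nat_lit 1) (nat_lit 0x400080004002002000084c0d83)))) 
(.lf (nat_lit 2754396198) (dlOf (nat_lit 10) (nat_lit 0x11b109002287e803c42aa01ea1380003904010e109000087e800143c801ba1ae00d30d600758554004c2a801b815000d709c002c0000000de280030424000250200282120001101000f109000307e800102700002106000a21200010010013109000807e800402700001c06009221200220fd001a855400d02700001b08001621200090aa000000100350008019000200ba00080e0503)))) 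
(.nd (nat_lit 6) (.nd (nat_lit 7) 
(.lf (nat_lit 3457318) (dlOf (nat_lit 1) (nat_lit 0x4002000a0008200502))) 
(.lf (nat_lit 8177062) (dlOf (nat_lit 1) (nat_lit 0x400200020008513602)))) 
(.lf (nat_lit 8180070) (dlOf (nat_lit 1) (nat_lit 0x20018518381))))) (.nd (nat_lit 7) 
(.nd (nat_lit 19) (.lf (nat_lit 49596966) (dlOf (nat_lit 1) (nat_lit 0x80029465181))) 
(.nd (nat_lit 20) (.lf (nat_lit 19712550) (dlOf (nat_lit 1) (nat_lit 0x800289d5181))) 
(.lf (nat_lit 41732646) (dlOf (nat_lit 1) (nat_lit 0x130008000400200020009245183))))) 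
(.nd (nat_lit 6) (.lf (nat_lit 20239014) (dlOf (nat_lit 1) (nat_lit 0x4002000200089d8c82))) 
(.lf (nat_lit 56935398) (dlOf (nat_lit 1) (nat_lit 0x2e0019792881))))))) (.nd (nat_lit 7) 
(.nd (nat_lit 27) (.nd (nat_lit 6) (.nd (nat_lit 8) (.nd (nat_lit 19) 
(.lf (nat_lit 1342488614) (dlOf (nat_lit 10) (nat_lit 0x891c000aa04001848e000223c0002a020002123800408f0000a608000848e000a23c00028020004123800088f000102e6000370600042470001b01000f123800188f000142e60003506000224700010b98000d01000185cc0006404006000400040008040582))) 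
(.lf (nat_lit 3492593702) (dlOf (nat_lit 10) (nat_lit 0x11b0fe802287a003c42be01ea138000390400dd1248069891c04383fa00021e800050e78075857c004c2bc01b815000d709c002c0000000de2800303fa000250200281fd0001101000f0fe800307a000102700002106000a1fd000100100130fe800807a000402700001c0600921fd00220f4001a857c00d02700001b0800161fd00090af000000100350008019000200ba00080e0503)))) 
(.lf (nat_lit 5905891622) (dlOf (nat_lit 1) (nat_lit 0x800400040008154602)))) (.nd (nat_lit 9) 
(.lf (nat_lit 1346158694) (dlOf (nat_lit 4) (nat_lit 0x7214d004806c801403600001c0c00c429a007e0d90000602002f0a6801e0364000000800f800400120008e60982))) 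
(.lf (nat_lit 1610925670) (dlOf (nat_lit 2) (nat_lit 0x4d02d0001180800c0008002800200080008093903))))) 
(.nd (nat_lit 26) (.nd (nat_lit 8) (.nd (nat_lit 28) 
(.lf (nat_lit 3355754534) (dlOf (nat_lit 7) (nat_lit 0xc050000202000012820003015800980a0004c0400002406000202b0013014000a0080000440c002404e0001c0200260250000a8100070120000080802100080038002000600080f0803))) 
(.lf (nat_lit 4161060902) (dlOf (nat_lit 3) (nat_lit 0x600d8000400800280ac0001c040018004000200080f0802)))) 
(.lf (nat_lit 5772199206) (dlOf (nat_lit 1) (nat_lit 0x500028093181)))) (.nd (nat_lit 29) 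
(.lf (nat_lit 5838782502) (dlOf (nat_lit 1) (nat_lit 0x200281b0001))) 
(.lf (nat_lit 4228169766) (dlOf (nat_lit 1) (nat_lit 0x100018050581)))))) (.nd (nat_lit 28) 
(.nd (nat_lit 8) (.nd (nat_lit 6) 
(.lf (nat_lit 6107218086) (dlOf (nat_lit 1) (nat_lit 0x400280c1481))) 
(.lf (nat_lit 5369020646) (dlOf (nat_lit 2) (nat_lit 0x3c804e000e302000e00080c1b81)))) 
(.nd (nat_lit 29) 
(.lf (nat_lit 3221537254) (dlOf (nat_lit 7) (nat_lit 0xc0070004003000100000002406002000e000b00600060000000440c001801c000600c000b0000000801800380380003e04002001c000c00c00050000000741800c00380003604010800400040018127302))) 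
(.lf (nat_lit 5905891814) (dlOf (nat_lit 3) (nat_lit 0x8017002888100030128001805c00964080018004000a0008157d02))))) 
(.nd (nat_lit 26) (.nd (nat_lit 10) (.nd (nat_lit 27) 
(.lf (nat_lit 5637456038) (dlOf (nat_lit 1) (nat_lit 0x4004000200080f1382))) 
(.lf (nat_lit 6308544678) (dlOf (nat_lit 1) (nat_lit 0x200280f1481)))) 
(.lf (nat_lit 3624193190) (dlOf (nat_lit 3) (nat_lit 0x1202c000d0150000b01000080000002e04002c004000e0018146282)))) 
(.nd (nat_lit 29) 
(.lf (nat_lit 5704564902) (dlOf (nat_lit 1) (nat_lit 0x80080004002000200080f1383))) 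
(.lf (nat_lit 6241435814) (dlOf (nat_lit 1) (nat_lit 0x980080004002001800080f1483)))))))) 
(.nd (nat_lit 21) (.nd (nat_lit 26) (.nd (nat_lit 29) (.nd (nat_lit 23) (.nd (nat_lit 6) 
(.nd (nat_lit 7) (.nd (nat_lit 9) 
(.lf (nat_lit 1208270894) (dlOf (nat_lit 1) (nat_lit 0x2400180b0401))) 
(.lf (nat_lit 314926) (dlOf (nat_lit 1) (nat_lit 0xc00400940008007182)))) 
(.lf (nat_lit 313262) (dlOf (nat_lit 1) (nat_lit 0x400400020008004382)))) (.nd (nat_lit 22) 
(.lf (nat_lit 268746862) (dlOf (nat_lit 1) (nat_lit 0x1880080048002001e0008120c03))) 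
(.lf (nat_lit 38060142) (dlOf (nat_lit 1) (nat_lit 0x20029122481))))) (.nd (nat_lit 19) 
(.nd (nat_lit 22) (.lf (nat_lit 26525742) (dlOf (nat_lit 1) (nat_lit 0x11800200680008c50402))) 
(.lf (nat_lit 30720046) (dlOf (nat_lit 1) (nat_lit 0x800400020008e40e82)))) (.nd (nat_lit 24) 
(.lf (nat_lit 42778670) (dlOf (nat_lit 1) (nat_lit 0x60029280281))) 
(.lf (nat_lit 59555886) (dlOf (nat_lit 1) (nat_lit 0x280080010002002c0009810a03)))))) 
(.nd (nat_lit 8) (.nd (nat_lit 6) 
(.lf (nat_lit 1745141806) (dlOf (nat_lit 2) (nat_lit 0xaa0330000e8180b0400))) 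
(.lf (nat_lit 4026843246) (dlOf (nat_lit 12) (nat_lit 0x101b00003c080030100002006c00180340004019000080c00010056001a02900007070004020000780d800140680002032001d018000080ac00340520000d0e000c040000101b000380d0003006400640300007015800500a4000181c0038080001a036002001a000a80c80104060002202b001301480002c3800080d80000e04000406c000050200180360000201000101b00000c0800080d800002040078068000a0320014018000480a4000001000f4004001200180a1502)))) 
(.nd (nat_lit 27) 
(.lf (nat_lit 537182510) (dlOf (nat_lit 4) (nat_lit 0x1640be004a002000a05f0024c01001c02f8012580800f0008001800200100008048403))) 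
(.nd (nat_lit 28) 
(.lf (nat_lit 671400238) (dlOf (nat_lit 3) (nat_lit 0x1b0000013240800180000098e04002c00200280008188402))) 
(.lf (nat_lit 3087319342) (dlOf (nat_lit 2) (nat_lit 0x1005801480000097e08000400400040008188402))))))) 
(.nd (nat_lit 28) (.nd (nat_lit 30) (.nd (nat_lit 7) (.nd (nat_lit 20) 
(.lf (nat_lit 2214903854) (dlOf (nat_lit 1) (nat_lit 0x40028110681))) 
(.lf (nat_lit 68468782) (dlOf (nat_lit 2) (nat_lit 0x200000001e04003c00200040008580e82)))) 
(.lf (nat_lit 2753347758) (dlOf (nat_lit 1) (nat_lit 0x40018090301)))) (.nd (nat_lit 6) 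
(.nd (nat_lit 8) (.lf (nat_lit 3422863406) (dlOf (nat_lit 1) (nat_lit 0x1c004001a0008130682))) 
(.lf (nat_lit 3825516846) (dlOf (nat_lit 2) (nat_lit 0x8100a8000e4080040008001000200080008187a03)))) 
(.lf (nat_lit 3288645742) (dlOf (nat_lit 12) (nat_lit 0x101b00003c080030100002006c00180340004019000080c00010056001a02900007070004020000780d800140680002032001d018000080ac00340520000d0e000c040000101b000380d0003006400640300007015800500a4000181c0038080001a036002001a000a80c80104060002202b001301480002c3800080d80000e04000406c000050200180360000201000101b00000c0800080d800002040078068000a0320014018000480a4000001000f4004001200180a1502))))) 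
(.nd (nat_lit 8) (.nd (nat_lit 9) (.nd (nat_lit 27) 
(.lf (nat_lit 872726574) (dlOf (nat_lit 2) (nat_lit 0xaa0330000e8180b0400))) 
(.lf (nat_lit 2080686126) (dlOf (nat_lit 1) (nat_lit 0x2400180b0401)))) 
(.lf (nat_lit 6375654958) (dlOf (nat_lit 1) (nat_lit 0x20028003781)))) (.nd (nat_lit 27) 
(.lf (nat_lit 1409597742) (dlOf (nat_lit 2) (nat_lit 0x2d02f80002c080008008006800200020008047a03))) 
(.nd (nat_lit 32) 
(.lf (nat_lit 1543815470) (dlOf (nat_lit 2) (nat_lit 0xe0000000a804000800200040008187a02))) 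
(.lf (nat_lit 5838782766) (dlOf (nat_lit 2) (nat_lit 0x134068000202e000328281b0500)))))))) 
(.nd (nat_lit 19) (.nd (nat_lit 20) (.nd (nat_lit 22) (.nd (nat_lit 6) 
(.lf (nat_lit 27574318) (dlOf (nat_lit 1) (nat_lit 0x48004000e0018d00882))) 
(.lf (nat_lit 2753871982) (dlOf (nat_lit 4) (nat_lit 0x101e80001c0400240f40000b02000407a000000180a1500)))) 
(.nd (nat_lit 8) (.nd (nat_lit 9) 
(.lf (nat_lit 6602798) (dlOf (nat_lit 2) (nat_lit 0x1892688000380800c80080020002013e0008430e83))) 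
(.lf (nat_lit 23380526) (dlOf (nat_lit 16) (nat_lit 0x1f645800ff0e00003f04003f9160001f01004cc8b001d61c00007a0800ff22c00878700001b02004cc8b0027e1c00006808010f22c00a587000015020036c8b001f61c00004608011f22c000200200699160000f81004fc8b0000780801c645800bb0e00001c04009f9160000d010095c8b003ae1c0000180801ab22c00718700000482004fc8b002761c000000080004004004e0018b80e82)))) 
(.lf (nat_lit 56935726) (dlOf (nat_lit 1) (nat_lit 0x20019793201))))) (.nd (nat_lit 6) 
(.nd (nat_lit 24) 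
(.lf (nat_lit 7651374) (dlOf (nat_lit 2) (nat_lit 0x1895330000380800c80080020002013e00084c0e83))) 
(.lf (nat_lit 24428590) (dlOf (nat_lit 1) (nat_lit 0x10008000400200020008ba0a03)))) 
(.lf (nat_lit 20239982) (dlOf (nat_lit 1) (nat_lit 0x258008005c00200d200089d9c83))))) 
(.nd (nat_lit 8) (.nd (nat_lit 20) (.nd (nat_lit 9) (.nd (nat_lit 10) 
(.lf (nat_lit 2932782) (dlOf (nat_lit 1) (nat_lit 0x5600181d0601))) 
(.lf (nat_lit 36488238) (dlOf (nat_lit 1) (nat_lit 0x400400020019072882)))) 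
(.lf (nat_lit 36489774) (dlOf (nat_lit 1) (nat_lit 0x660009075181)))) (.nd (nat_lit 31) 
(.lf (nat_lit 1346158638) (dlOf (nat_lit 8) (nat_lit 0x20528000480400902d0003c16600240a28033033c01940380000b0a00020cf000100e00002810021033c0108038000090400860cf004100e00002010001033c0000e040114284008e0cf003e00e0000001801880080080002001c0008e60283))) 
(.lf (nat_lit 3493642286) (dlOf (nat_lit 2) (nat_lit 0x47000000000080028008001400200020008190803))))) 
(.nd (nat_lit 6) (.nd (nat_lit 7) 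
(.lf (nat_lit 50119982) (dlOf (nat_lit 1) (nat_lit 0x34004000200094c3202))) 
(.lf (nat_lit 20761518) (dlOf (nat_lit 1) (nat_lit 0x2c00289d5d01)))) 
(.lf (nat_lit 8181614) (dlOf (nat_lit 1) (nat_lit 0x2001851a301)))))))))))

end

end Pool.Agent.Lib.MP_5854e1_co.Cz

namespace Pool.Agent.Lib.MP_5854e1_co.Cz

noncomputable section

noncomputable def tz169 : DT := (.nd (nat_lit 2) (.nd (nat_lit 3) (.nd (nat_lit 5) 
(.nd (nat_lit 30) (.nd (nat_lit 18) (.nd (nat_lit 26) (.nd (nat_lit 8) (.nd (nat_lit 21) 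
(.nd (nat_lit 9) (.nd (nat_lit 25) 
(.lf (nat_lit 21544963) (dlOf (nat_lit 2) (nat_lit 0xc14f006fa818a40000))) 
(.lf (nat_lit 55099395) (dlOf (nat_lit 1) (nat_lit 0x200196b0001)))) 
(.lf (nat_lit 2281756163) (dlOf (nat_lit 1) (nat_lit 0x400400020008009c02)))) (.nd (nat_lit 19) 
(.lf (nat_lit 14729219) (dlOf (nat_lit 1) (nat_lit 0x8008000400200020008770003))) (.nd (nat_lit 20) 
(.lf (nat_lit 19447811) (dlOf (nat_lit 1) (nat_lit 0x80080004002000200089a0003))) 
(.lf (nat_lit 45662211) (dlOf (nat_lit 1) (nat_lit 0x120029350001)))))) (.nd (nat_lit 6) 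
(.nd (nat_lit 7) (.nd (nat_lit 9) 
(.lf (nat_lit 30458115) (dlOf (nat_lit 1) (nat_lit 0x380018e30701))) 
(.lf (nat_lit 19972867) (dlOf (nat_lit 1) (nat_lit 0x18002000400089d2102)))) 
(.lf (nat_lit 5100323203) (dlOf (nat_lit 1) (nat_lit 0x80080058002002a0008051003)))) 
(.nd (nat_lit 19) (.lf (nat_lit 2415970115) (dlOf (nat_lit 1) (nat_lit 0x400400020018003e02))) 
(.lf (nat_lit 575299) (dlOf (nat_lit 2) (nat_lit 0x200000006c04018800200100008003e02)))))) 
(.nd (nat_lit 31) (.nd (nat_lit 19) (.nd (nat_lit 6) 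
(.lf (nat_lit 4496343427) (dlOf (nat_lit 1) (nat_lit 0x2800200080008051002))) (.nd (nat_lit 10) 
(.lf (nat_lit 4898996291) (dlOf (nat_lit 1) (nat_lit 0xc00200020008050002))) 
(.lf (nat_lit 4898997315) (dlOf (nat_lit 1) (nat_lit 0x20028052881))))) (.nd (nat_lit 27) 
(.nd (nat_lit 6) 
(.lf (nat_lit 4362649603) (dlOf (nat_lit 9) (nat_lit 0xa804a01160070098001800f000802f400001e1f0a018a00000f0e8100cb02b00784808065015803c2004032000001db802008c00000edb01000300000747c0800600c401f8e0402fc00400f400080c0002))) 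
(.lf (nat_lit 67682371) (dlOf (nat_lit 1) (nat_lit 0x2a00182d0001)))) (.nd (nat_lit 7) 
(.lf (nat_lit 474529859) (dlOf (nat_lit 2) (nat_lit 0x4260960213042002a020c08300e8044c073001300c8008f03001d80080080002000600091a0603))) 
(.lf (nat_lit 738771139) (dlOf (nat_lit 1) (nat_lit 0x2c0028105801)))))) (.nd (nat_lit 6) 
(.nd (nat_lit 21) (.lf (nat_lit 2753085443) (dlOf (nat_lit 1) (nat_lit 0x20018080001))) 
(.lf (nat_lit 2755182595) (dlOf (nat_lit 1) (nat_lit 0x60018120001)))) (.nd (nat_lit 21) 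
(.nd (nat_lit 22) 
(.lf (nat_lit 3154690115) (dlOf (nat_lit 7) (nat_lit 0x2180b0008700401080580043702007c02c0021b01001c0160010cc0800580b00009c0401a4058000000200040008310001))) 
(.lf (nat_lit 2756231235) (dlOf (nat_lit 3) (nat_lit 0x2700f0000e40800101a00074084003601e0001b038220c00)))) 
(.lf (nat_lit 2754134083) (dlOf (nat_lit 1) (nat_lit 0x4600080c1881))))))) (.nd (nat_lit 6) 
(.nd (nat_lit 26) (.nd (nat_lit 19) (.nd (nat_lit 9) (.nd (nat_lit 20) (.nd (nat_lit 27) 
(.lf (nat_lit 2953101315) (dlOf (nat_lit 1) (nat_lit 0x8008000800200020008120003))) 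
(.lf (nat_lit 402964483) (dlOf (nat_lit 1) (nat_lit 0x180002002000080c0002)))) 
(.lf (nat_lit 62177283) (dlOf (nat_lit 3) (nat_lit 0x2194000702700718c100008138038c404001800400140019970002)))) 
(.nd (nat_lit 7) (.lf (nat_lit 2408963) (dlOf (nat_lit 1) (nat_lit 0x400200020008150d82))) 
(.lf (nat_lit 52741763) (dlOf (nat_lit 1) (nat_lit 0x100019573a01))))) (.nd (nat_lit 23) 
(.nd (nat_lit 7) 
(.lf (nat_lit 2819407875) (dlOf (nat_lit 2) (nat_lit 0x2010c0161a04006c00400400018260002))) 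
(.lf (nat_lit 537710211) (dlOf (nat_lit 1) (nat_lit 0x400180f7181)))) (.nd (nat_lit 22) 
(.nd (nat_lit 24) (.lf (nat_lit 42778627) (dlOf (nat_lit 1) (nat_lit 0x1400402da0019280002))) 
(.lf (nat_lit 59555843) (dlOf (nat_lit 2) (nat_lit 0x2405006568080148008001800200860009810003)))) 
(.lf (nat_lit 13418499) (dlOf (nat_lit 1) (nat_lit 0xb4002001a0008720002)))))) (.nd (nat_lit 27) 
(.nd (nat_lit 29) (.nd (nat_lit 7) 
(.lf (nat_lit 335855619) (dlOf (nat_lit 1) (nat_lit 0x180002002000080c0002))) 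
(.lf (nat_lit 6509871491) (dlOf (nat_lit 1) (nat_lit 0x208008000400200440008155a83)))) 
(.nd (nat_lit 19) (.lf (nat_lit 2755969027) (dlOf (nat_lit 1) (nat_lit 0x4002000200081c0002))) 
(.lf (nat_lit 2755444739) (dlOf (nat_lit 3) (nat_lit 0x403c8054740800101e40295c04000c00400040018190002))))) 
(.nd (nat_lit 31) (.nd (nat_lit 19) 
(.lf (nat_lit 471121923) (dlOf (nat_lit 1) (nat_lit 0x20018270001))) 
(.lf (nat_lit 1007468547) (dlOf (nat_lit 1) (nat_lit 0x80080004002000200083c0003)))) 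
(.nd (nat_lit 28) 
(.lf (nat_lit 6644088835) (dlOf (nat_lit 2) (nat_lit 0x80000181c040048002000200080f0002))) 
(.lf (nat_lit 2617556995) (dlOf (nat_lit 1) (nat_lit 0x4004000200180f0002))))))) (.nd (nat_lit 7) 
(.nd (nat_lit 19) (.nd (nat_lit 9) (.nd (nat_lit 21) 
(.lf (nat_lit 26525763) (dlOf (nat_lit 3) (nat_lit 0x13db080006c860001e0200016430000ec080198008011400200080008c50583))) 
(.lf (nat_lit 24428611) (dlOf (nat_lit 1) (nat_lit 0x8008000400200020008ba0d03)))) 
(.lf (nat_lit 52741699) (dlOf (nat_lit 1) (nat_lit 0x340019573801)))) (.nd (nat_lit 22) 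
(.lf (nat_lit 42778691) (dlOf (nat_lit 4) (nat_lit 0x91c1c0038971000aa02002d0000004dc08003800000128040044002000c0009280602))) 
(.lf (nat_lit 13418563) (dlOf (nat_lit 3) (nat_lit 0x100000013c0800080000009c04007800200080008721882))))) 
(.nd (nat_lit 9) (.nd (nat_lit 10) 
(.lf (nat_lit 4697931971) (dlOf (nat_lit 1) (nat_lit 0x600180c1701))) 
(.lf (nat_lit 31769795) (dlOf (nat_lit 2) (nat_lit 0x44a5800012818e92d00)))) (.nd (nat_lit 8) 
(.lf (nat_lit 20239043) (dlOf (nat_lit 1) (nat_lit 0x4002000200089d8c82))) 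
(.lf (nat_lit 2751776707) (dlOf (nat_lit 1) (nat_lit 0x400200020008004402)))))))) (.nd (nat_lit 18) 
(.nd (nat_lit 26) (.nd (nat_lit 6) (.nd (nat_lit 7) (.nd (nat_lit 19) 
(.lf (nat_lit 6308282371) (dlOf (nat_lit 1) (nat_lit 0x20028050001))) (.nd (nat_lit 21) 
(.lf (nat_lit 3491282947) (dlOf (nat_lit 1) (nat_lit 0x20018080001))) 
(.lf (nat_lit 3493380099) (dlOf (nat_lit 1) (nat_lit 0x60018120001))))) (.nd (nat_lit 8) 
(.lf (nat_lit 3892364931) (dlOf (nat_lit 1) (nat_lit 0x800400040018083a02))) (.nd (nat_lit 28) 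
(.lf (nat_lit 6039851907) (dlOf (nat_lit 4) (nat_lit 0x10046000c020000700e8008bc1800900740043804002403a002180200200018009001))) 
(.lf (nat_lit 4160803715) (dlOf (nat_lit 4) (nat_lit 0x1001d0011401001000e8008700800080740043004002c00400020018009002)))))) 
(.nd (nat_lit 10) (.nd (nat_lit 8) (.nd (nat_lit 19) 
(.lf (nat_lit 1880145987) (dlOf (nat_lit 1) (nat_lit 0x400200020008760e82))) 
(.lf (nat_lit 3494428739) (dlOf (nat_lit 3) (nat_lit 0x2700f0000ec0800101a00074084003601e0001c038220c00)))) 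
(.lf (nat_lit 1346421059) (dlOf (nat_lit 2) (nat_lit 0x811700009818f60c00)))) (.nd (nat_lit 7) 
(.lf (nat_lit 3892364867) (dlOf (nat_lit 1) (nat_lit 0x40028083801))) (.nd (nat_lit 8) 
(.lf (nat_lit 1346946243) (dlOf (nat_lit 1) (nat_lit 0xe0019102d01))) 
(.lf (nat_lit 3489713603) (dlOf (nat_lit 1) (nat_lit 0xe000401580008006d02))))))) (.nd (nat_lit 9) 
(.nd (nat_lit 19) (.nd (nat_lit 10) 
(.lf (nat_lit 5570085251) (dlOf (nat_lit 1) (nat_lit 0x10008000400200020008051003))) 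
(.nd (nat_lit 12) 
(.lf (nat_lit 3288386947) (dlOf (nat_lit 6) (nat_lit 0x3806a000380200020350000c81000101a8000440800100180001804002c06a0000002000a0028006c01))) 
(.lf (nat_lit 4227915139) (dlOf (nat_lit 1) (nat_lit 0x40040002000800c902))))) (.nd (nat_lit 6) 
(.lf (nat_lit 4228431875) (dlOf (nat_lit 9) (nat_lit 0x32c09e01aba02019404f00d5c01002a0128045801c0260006003c00200bd000006abc2806280000355a04032000001a5502008c00000d288100030000067100800600c0020a00402fc00400f400080c0002))) 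
(.nd (nat_lit 7) 
(.lf (nat_lit 6375915843) (dlOf (nat_lit 2) (nat_lit 0x12000000cf8040028002005a0008015f82))) 
(.lf (nat_lit 4095262915) (dlOf (nat_lit 1) (nat_lit 0x400200020008081b82)))))) (.nd (nat_lit 6) 
(.nd (nat_lit 8) (.nd (nat_lit 28) 
(.lf (nat_lit 6106957443) (dlOf (nat_lit 1) (nat_lit 0x100018003a01))) 
(.lf (nat_lit 6375392899) (dlOf (nat_lit 1) (nat_lit 0x400400020008003a02)))) 
(.lf (nat_lit 5704305539) (dlOf (nat_lit 1) (nat_lit 0x60008055c01)))) (.nd (nat_lit 7) 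
(.lf (nat_lit 6375392835) (dlOf (nat_lit 1) (nat_lit 0x400400020008003802))) (.nd (nat_lit 27) 
(.lf (nat_lit 1409342403) (dlOf (nat_lit 3) (nat_lit 0x580a2002003f000d0190004801c0037410002809600360300000002800be00))) 
(.lf (nat_lit 4227914691) (dlOf (nat_lit 13) (nat_lit 0x1b40aa04e00320010782005702a812d80c80041c08045c0640020c02061a03200105810170019000828080d980c8004000400b0064001f4020114032000f98100820190007c80801b01540110098006a04000a40190006e82002180c80034c04070406400000020006001800be01)))))))) 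
(.nd (nat_lit 31) (.nd (nat_lit 27) (.nd (nat_lit 6) (.nd (nat_lit 7) (.nd (nat_lit 19) 
(.lf (nat_lit 1343537155) (dlOf (nat_lit 1) (nat_lit 0x500080024002001c0008290003))) 
(.lf (nat_lit 1346158595) (dlOf (nat_lit 2) (nat_lit 0x6a14c0070a018e60000)))) 
(.lf (nat_lit 5905891715) (dlOf (nat_lit 1) (nat_lit 0x208008000400200440008155a83)))) 
(.nd (nat_lit 8) 
(.lf (nat_lit 1346158659) (dlOf (nat_lit 4) (nat_lit 0x9706c80091c0813a8530062829604ec0d7000aa03002d0a60012835c001e808000800400040008e60602))) 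
(.lf (nat_lit 1409597763) (dlOf (nat_lit 1) (nat_lit 0x40028047f01))))) (.nd (nat_lit 28) 
(.nd (nat_lit 6) (.nd (nat_lit 29) 
(.lf (nat_lit 1208270851) (dlOf (nat_lit 1) (nat_lit 0x200280b0001))) 
(.lf (nat_lit 6040109059) (dlOf (nat_lit 2) (nat_lit 0x4000006070180f0000)))) 
(.lf (nat_lit 1208270915) (dlOf (nat_lit 2) (nat_lit 0x7e029001c01400005c100190008003c002001800080b0583)))) 
(.nd (nat_lit 6) (.nd (nat_lit 26) 
(.lf (nat_lit 1476706307) (dlOf (nat_lit 1) (nat_lit 0xa0018150001))) 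
(.lf (nat_lit 2080686083) (dlOf (nat_lit 1) (nat_lit 0x200280b0001)))) 
(.lf (nat_lit 2080686147) (dlOf (nat_lit 2) (nat_lit 0x7e029001c01400005c100190008003c002001800080b0583)))))) 
(.nd (nat_lit 26) (.nd (nat_lit 7) (.nd (nat_lit 28) (.nd (nat_lit 27) 
(.lf (nat_lit 3758407683) (dlOf (nat_lit 1) (nat_lit 0x400200020008170002))) 
(.lf (nat_lit 3355754499) (dlOf (nat_lit 1) (nat_lit 0x1e00080f0001)))) (.nd (nat_lit 19) 
(.lf (nat_lit 3494166531) (dlOf (nat_lit 1) (nat_lit 0x4002000200081c0002))) 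
(.lf (nat_lit 3493642243) (dlOf (nat_lit 3) (nat_lit 0x403d805a300800101ec02c4204000c00400040018190002))))) 
(.nd (nat_lit 6) 
(.lf (nat_lit 3624193411) (dlOf (nat_lit 2) (nat_lit 0x3000000034080020008002c00200100008146c03))) 
(.lf (nat_lit 3489979331) (dlOf (nat_lit 2) (nat_lit 0x90228003740400040040006000800be02))))) 
(.nd (nat_lit 6) (.nd (nat_lit 19) (.nd (nat_lit 7) 
(.lf (nat_lit 3691298819) (dlOf (nat_lit 1) (nat_lit 0x4800400040008120002))) 
(.lf (nat_lit 3557085315) (dlOf (nat_lit 1) (nat_lit 0x100018127d81)))) (.nd (nat_lit 21) 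
(.lf (nat_lit 3557605379) (dlOf (nat_lit 1) (nat_lit 0x20018270001))) 
(.lf (nat_lit 4096573443) (dlOf (nat_lit 1) (nat_lit 0x680080004002000a0008130003))))) 
(.nd (nat_lit 7) (.lf (nat_lit 3288645699) (dlOf (nat_lit 2) (nat_lit 0x202d000100180a0e00))) 
(.nd (nat_lit 8) (.lf (nat_lit 3557085891) (dlOf (nat_lit 1) (nat_lit 0x20018128c81))) 
(.lf (nat_lit 3557086659) (dlOf (nat_lit 1) (nat_lit 0x40028129a01)))))))))) (.nd (nat_lit 18) 
(.nd (nat_lit 6) (.nd (nat_lit 19) (.nd (nat_lit 7) (.nd (nat_lit 22) (.nd (nat_lit 9) 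
(.nd (nat_lit 10) (.nd (nat_lit 21) 
(.lf (nat_lit 68206627) (dlOf (nat_lit 1) (nat_lit 0xc8008000800200340008450603))) 
(.lf (nat_lit 28360739) (dlOf (nat_lit 1) (nat_lit 0x40028d90681)))) 
(.lf (nat_lit 3288386595) (dlOf (nat_lit 1) (nat_lit 0x380008006081)))) (.nd (nat_lit 10) 
(.lf (nat_lit 2751519267) (dlOf (nat_lit 1) (nat_lit 0x2000800b281))) 
(.lf (nat_lit 6308283939) (dlOf (nat_lit 1) (nat_lit 0x400400020008053702))))) (.nd (nat_lit 21) 
(.nd (nat_lit 23) (.lf (nat_lit 5292067) (dlOf (nat_lit 1) (nat_lit 0x220018340681))) 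
(.nd (nat_lit 25) (.lf (nat_lit 13680675) (dlOf (nat_lit 1) (nat_lit 0xa0018740481))) 
(.lf (nat_lit 47235107) (dlOf (nat_lit 3) (nat_lit 0xb3ac000e1788008eba900155c88001582000b2f10000220400dc004006000093c0182))))) 
(.nd (nat_lit 20) 
(.lf (nat_lit 14729251) (dlOf (nat_lit 2) (nat_lit 0x778d40000b0200020018770181))) 
(.lf (nat_lit 15777827) (dlOf (nat_lit 1) (nat_lit 0x8008000400200020008830583)))))) 
(.nd (nat_lit 8) (.nd (nat_lit 10) (.nd (nat_lit 9) 
(.lf (nat_lit 18923683) (dlOf (nat_lit 1) (nat_lit 0x10008000400200020008970483))) 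
(.lf (nat_lit 36752035) (dlOf (nat_lit 1) (nat_lit 0x8008000400200020009075603)))) 
(.nd (nat_lit 20) 
(.lf (nat_lit 2885734051) (dlOf (nat_lit 2) (nat_lit 0x490188000a8080108008009000200ae0008007203))) 
(.lf (nat_lit 2754662051) (dlOf (nat_lit 2) (nat_lit 0x12803a0002a02001200180f7201))))) 
(.nd (nat_lit 10) (.nd (nat_lit 11) 
(.lf (nat_lit 5100323235) (dlOf (nat_lit 1) (nat_lit 0x20018051001))) 
(.lf (nat_lit 5234543011) (dlOf (nat_lit 1) (nat_lit 0x200080004002000e0008054e83)))) 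
(.nd (nat_lit 11) 
(.lf (nat_lit 4898997667) (dlOf (nat_lit 2) (nat_lit 0xc0380008e0200020018053601))) 
(.lf (nat_lit 3489713571) (dlOf (nat_lit 1) (nat_lit 0xac004003a0008006d02))))))) (.nd (nat_lit 26) 
(.nd (nat_lit 20) (.nd (nat_lit 21) (.nd (nat_lit 22) 
(.lf (nat_lit 134791203) (dlOf (nat_lit 1) (nat_lit 0xc004000600080b0b82))) (.nd (nat_lit 24) 
(.lf (nat_lit 3494428707) (dlOf (nat_lit 18) (nat_lit 0x206033810401040274044010201b0011a0400de033803c810401c4044005601b0011984009d033801100880046408068c0ce02c0041006c0110008c418174819c0bac082030c022017d00d8008c02017c019c0be8082035402201a100d8008bc2006f819c007408200e2022001400d8008b8200d1819c049408200900220011683000a020800878080d7819801980ba00c205c01c201f815f00b8079c05a0002026005a01100418070003002a001ed14036006601d501f800200b8002c044005c01c000f60501a10168007a408188019806400ba031005c019d02b819200fc029c05c016a02d0012013800a809806a804403a401c000f40b023001700f600b4003ce080b800cc02c205d015902e00ab815c0bd007e005602e00380168002009c0630044036a01c006200a80078010003cc30051005c03ae02d000f202001d01700050098003c608000800400320018220902)))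 
(.lf (nat_lit 21544995) (dlOf (nat_lit 4) (nat_lit 0x37013b01ba09500a084340008c0c04f4276024212a00c3086804d00100204000000450a01d013b00ef09500358434000700c01bc00200f00008a40182))))) 
(.nd (nat_lit 25) (.lf (nat_lit 3492331555) (dlOf (nat_lit 1) (nat_lit 0xc00080c0b01))) 
(.lf (nat_lit 36225059) (dlOf (nat_lit 1) (nat_lit 0x400400020009050182))))) (.nd (nat_lit 22) 
(.nd (nat_lit 21) 
(.lf (nat_lit 3491282979) (dlOf (nat_lit 3) (nat_lit 0x1a1fc0001f0100060fe000000080010008002c002000c0008080883))) 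
(.lf (nat_lit 3493380131) (dlOf (nat_lit 3) (nat_lit 0xd07a8004819c00340820010022000a00d8000a42800483d400280ce0018041000b0110006806c0004e14000c00400220018120982)))) 
(.nd (nat_lit 23) (.lf (nat_lit 24690723) (dlOf (nat_lit 1) (nat_lit 0x120028bb0881))) 
(.lf (nat_lit 16302115) (dlOf (nat_lit 1) (nat_lit 0x400080010002002e0008880583)))))) 
(.nd (nat_lit 29) (.nd (nat_lit 27) (.nd (nat_lit 7) 
(.lf (nat_lit 3557343267) (dlOf (nat_lit 1) (nat_lit 0xa00181c0601))) 
(.lf (nat_lit 69782179) (dlOf (nat_lit 1) (nat_lit 0x20028c75601)))) (.nd (nat_lit 22) 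
(.lf (nat_lit 201900067) (dlOf (nat_lit 1) (nat_lit 0x200180b0a81))) 
(.lf (nat_lit 474529827) (dlOf (nat_lit 11) (nat_lit 0x8c12c004a085002203a801381cc0009c10005012c0022085000f03a800981cc0009a10000411a0004902010a096008b042804181d402200e60004308032c096019404280c581d406480e6021001a00021050001046800100080cc0258066410a0002083019603a80ce81cc006c034003a0150001f07009304b004a821402480ea012a0730001e04000604b0000e0080080258002c10a0003304000c00191a0181))))) 
(.nd (nat_lit 20) (.nd (nat_lit 21) (.nd (nat_lit 22) 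
(.lf (nat_lit 3959996451) (dlOf (nat_lit 1) (nat_lit 0x2f400200200008190a82))) 
(.lf (nat_lit 2756231203) (dlOf (nat_lit 18) (nat_lit 0x206033810401040274044010201b001260400de033803c810401c4044005601b0012584009d033801100880049408068c0ce02c0041006c01100092418174819c0bac082030c022017d00d8009202017c019c0be8082035402201a100d80091c2006f819c007408200e2022001400d800918200d1819c049408200900220012283000a0208008cc080d7819801980ba00c205c01c201f815f00b8079c05a0002026005a01100418070003002a001ff14036006601d501f800200b8002c044005c01c000ff0501a10168007ec08188019806400ba031005c019d02b819200fc029c05c016a02d0012013800a809806a804403a401c000fd0b023001700f600b4003f2080b800cc02c205d015902e00ab815c0bd007e005602e00380168002009c0630044036a01c006200a80078010003f030051005c03ae02d000fb02001d01700050098003ea08000800400320018220902)))) 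
(.lf (nat_lit 2754134051) (dlOf (nat_lit 1) (nat_lit 0xc00080c0b01)))) (.nd (nat_lit 21) 
(.lf (nat_lit 2753085475) (dlOf (nat_lit 2) (nat_lit 0x2c82a4000000200020018080801))) 
(.lf (nat_lit 2755182627) (dlOf (nat_lit 3) (nat_lit 0xd07a8004819c00340820010022000a00d8000a42800483d400280ce0018041000b0110006806c0004e14000c00400220018120982)))))))) 
(.nd (nat_lit 11) (.nd (nat_lit 9) (.nd (nat_lit 8) (.nd (nat_lit 10) (.nd (nat_lit 7) 
(.lf (nat_lit 14205027) (dlOf (nat_lit 1) (nat_lit 0x20028750281))) 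
(.lf (nat_lit 4831887587) (dlOf (nat_lit 1) (nat_lit 0x400400060008050a82)))) (.nd (nat_lit 26) 
(.lf (nat_lit 5100324067) (dlOf (nat_lit 1) (nat_lit 0xc00200020008052e02))) 
(.lf (nat_lit 4898997475) (dlOf (nat_lit 1) (nat_lit 0x8008000400200020008052e03))))) 
(.nd (nat_lit 7) (.nd (nat_lit 10) 
(.lf (nat_lit 1346421091) (dlOf (nat_lit 2) (nat_lit 0xb801c0005e04001400200060008f60e82))) 
(.lf (nat_lit 4093691235) (dlOf (nat_lit 1) (nat_lit 0x4a000400e40008003402)))) (.nd (nat_lit 23) 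
(.lf (nat_lit 604034531) (dlOf (nat_lit 2) (nat_lit 0x203c00034018009b00))) 
(.lf (nat_lit 8443363) (dlOf (nat_lit 2) (nat_lit 0x24d70000f018519b00)))))) (.nd (nat_lit 7) 
(.nd (nat_lit 26) (.nd (nat_lit 29) 
(.lf (nat_lit 5502977635) (dlOf (nat_lit 1) (nat_lit 0x540018003901))) 
(.lf (nat_lit 4966106723) (dlOf (nat_lit 1) (nat_lit 0x8c0018003901)))) 
(.lf (nat_lit 738248291) (dlOf (nat_lit 1) (nat_lit 0x8008000400200020008003903)))) 
(.nd (nat_lit 8) (.nd (nat_lit 10) 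
(.lf (nat_lit 19972835) (dlOf (nat_lit 1) (nat_lit 0x8e00189d2101))) 
(.lf (nat_lit 19977955) (dlOf (nat_lit 1) (nat_lit 0x800189da001)))) (.nd (nat_lit 26) 
(.lf (nat_lit 4026581987) (dlOf (nat_lit 1) (nat_lit 0x48008003c002008a0008002883))) 
(.lf (nat_lit 6106956771) (dlOf (nat_lit 1) (nat_lit 0x400400020008002882))))))) (.nd (nat_lit 32) 
(.nd (nat_lit 7) (.nd (nat_lit 19) (.nd (nat_lit 9) 
(.lf (nat_lit 4227909987) (dlOf (nat_lit 1) (nat_lit 0x8000400020008004e82))) 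
(.lf (nat_lit 19979107) (dlOf (nat_lit 1) (nat_lit 0x2400189dbc81)))) (.nd (nat_lit 10) 
(.lf (nat_lit 62441827) (dlOf (nat_lit 1) (nat_lit 0x4004000200099a4e82))) 
(.lf (nat_lit 3490237795) (dlOf (nat_lit 1) (nat_lit 0x400200020008006a82))))) (.nd (nat_lit 8) 
(.nd (nat_lit 9) (.lf (nat_lit 134270179) (dlOf (nat_lit 1) (nat_lit 0x400400020008006502))) 
(.lf (nat_lit 1342230243) (dlOf (nat_lit 1) (nat_lit 0x20028007381)))) 
(.lf (nat_lit 469817827) (dlOf (nat_lit 1) (nat_lit 0x1380020004000800b282))))) (.nd (nat_lit 30) 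
(.nd (nat_lit 27) (.nd (nat_lit 7) 
(.lf (nat_lit 4831889763) (dlOf (nat_lit 1) (nat_lit 0x20018054e81))) 
(.lf (nat_lit 4831889891) (dlOf (nat_lit 1) (nat_lit 0x8008004400200120008054e83)))) 
(.nd (nat_lit 9) 
(.lf (nat_lit 5234543075) (dlOf (nat_lit 1) (nat_lit 0x80080048002000c0008054e83))) 
(.lf (nat_lit 5234543587) (dlOf (nat_lit 1) (nat_lit 0x400400020008055e82))))) (.nd (nat_lit 9) 
(.nd (nat_lit 26) 
(.lf (nat_lit 6174067171) (dlOf (nat_lit 1) (nat_lit 0x18008001400200040008054e83))) 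
(.lf (nat_lit 5704305123) (dlOf (nat_lit 1) (nat_lit 0x100080024002000c0008054e83)))) 
(.lf (nat_lit 5704305635) (dlOf (nat_lit 1) (nat_lit 0x400400020008055e82)))))))) (.nd (nat_lit 28) 
(.nd (nat_lit 23) (.nd (nat_lit 6) (.nd (nat_lit 19) (.nd (nat_lit 26) (.nd (nat_lit 29) 
(.lf (nat_lit 2282012707) (dlOf (nat_lit 5) (nat_lit 0x48044000bc0400380220005d0200140110002d810007008800168080010008003000200140008100503))) 
(.lf (nat_lit 6040109091) (dlOf (nat_lit 2) (nat_lit 0x550118000a80801780080118002001000080f0583)))) 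
(.nd (nat_lit 27) (.nd (nat_lit 29) 
(.lf (nat_lit 4362387491) (dlOf (nat_lit 1) (nat_lit 0x400200080008050502))) 
(.lf (nat_lit 1678032931) (dlOf (nat_lit 5) (nat_lit 0x881100005404000c05a0000202001a01b0000081001300d8000000804a0008013800200a80008140c03)))) 
(.lf (nat_lit 6644088867) (dlOf (nat_lit 2) (nat_lit 0x60000002d0180f0580))))) (.nd (nat_lit 7) 
(.nd (nat_lit 20) (.lf (nat_lit 21807139) (dlOf (nat_lit 1) (nat_lit 0x8008000400200020008a70483))) 
(.lf (nat_lit 18661411) (dlOf (nat_lit 1) (nat_lit 0x7c0028960681)))) (.nd (nat_lit 8) 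
(.lf (nat_lit 52218531) (dlOf (nat_lit 2) (nat_lit 0x204040004c04000400400040009515602))) 
(.lf (nat_lit 8177059) (dlOf (nat_lit 1) (nat_lit 0x400200020008513602)))))) (.nd (nat_lit 7) 
(.nd (nat_lit 25) (.nd (nat_lit 29) 
(.lf (nat_lit 1208270947) (dlOf (nat_lit 1) (nat_lit 0x4c004001c00080b0d82))) 
(.lf (nat_lit 1745141859) (dlOf (nat_lit 1) (nat_lit 0x4004000200080b0d82)))) 
(.lf (nat_lit 33865827) (dlOf (nat_lit 1) (nat_lit 0x80028f61981)))) (.nd (nat_lit 8) 
(.nd (nat_lit 9) 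
(.lf (nat_lit 6442762467) (dlOf (nat_lit 1) (nat_lit 0x3400080278002000200081b0483))) 
(.lf (nat_lit 8180451) (dlOf (nat_lit 1) (nat_lit 0x400200020008518c82)))) 
(.lf (nat_lit 3221537251) (dlOf (nat_lit 2) (nat_lit 0xb400e00011018127300)))))) (.nd (nat_lit 24) 
(.nd (nat_lit 19) (.nd (nat_lit 7) 
(.lf (nat_lit 9748515) (dlOf (nat_lit 3) (nat_lit 0x3ad050014e5ac001b264005242100023040019cb580b680000008a0802f400200200008580182))) 
(.lf (nat_lit 46451619) (dlOf (nat_lit 1) (nat_lit 0x20009385c81)))) (.nd (nat_lit 6) 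
(.nd (nat_lit 20) (.lf (nat_lit 42778659) (dlOf (nat_lit 1) (nat_lit 0x12000200040009280182))) 
(.lf (nat_lit 45924387) (dlOf (nat_lit 1) (nat_lit 0x2e0029370701)))) 
(.lf (nat_lit 42778723) (dlOf (nat_lit 1) (nat_lit 0x400200020009280902))))) (.nd (nat_lit 20) 
(.nd (nat_lit 7) (.nd (nat_lit 19) 
(.lf (nat_lit 27574307) (dlOf (nat_lit 6) (nat_lit 0x8464c014fa040019a2800a6c020004e1c00057040002b62c0019adc000ad2000046850002b3fc00159ae0002ab7000354f8029ac50001b820000db160008d6e0003690000233fc00059ae00a6a0c000ce1c00056b70002b428001957e000cab700055578002aa7c014d01c003000400060008d00682))) 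
(.lf (nat_lit 59555875) (dlOf (nat_lit 2) (nat_lit 0xb43f8000000800a80080078002004e0009810703)))) 
(.lf (nat_lit 59032739) (dlOf (nat_lit 1) (nat_lit 0x800197e2c01)))) (.nd (nat_lit 6) 
(.lf (nat_lit 26525731) (dlOf (nat_lit 3) (nat_lit 0x146ca70001201008b65380008c080370008009000200660008c50183))) 
(.lf (nat_lit 26525795) (dlOf (nat_lit 2) (nat_lit 0x6a674800580080028008004c00200220008c50d03))))))) 
(.nd (nat_lit 26) (.nd (nat_lit 31) (.nd (nat_lit 7) (.nd (nat_lit 19) (.nd (nat_lit 29) 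
(.lf (nat_lit 1342488611) (dlOf (nat_lit 1) (nat_lit 0xa800806ec00201cc0008040503))) 
(.lf (nat_lit 805617699) (dlOf (nat_lit 5) (nat_lit 0x881100005404000c05a0000202001a01b0000081001300d8000000804a0008013800200a80008140c03)))) 
(.lf (nat_lit 1346158627) (dlOf (nat_lit 10) (nat_lit 0x1981b2000270200a40d9000130100990a1803104ec013427200d80cd0000704001d0a1800034080078334000180400282860000b0200d0143000909d80250334000140c00bc286000090200b2143001309d800e8334000000c004400400180008e60182)))) 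
(.nd (nat_lit 27) 
(.lf (nat_lit 5637456035) (dlOf (nat_lit 1) (nat_lit 0x980080004002001800080f1383))) 
(.lf (nat_lit 402964643) (dlOf (nat_lit 1) (nat_lit 0x4002000200080c1382))))) (.nd (nat_lit 6) 
(.nd (nat_lit 7) (.lf (nat_lit 3489975587) (dlOf (nat_lit 1) (nat_lit 0x9c00400040008006802))) 
(.lf (nat_lit 6711197859) (dlOf (nat_lit 1) (nat_lit 0x400280c1381)))) (.nd (nat_lit 8) 
(.lf (nat_lit 3492069475) (dlOf (nat_lit 2) (nat_lit 0xe857000006040014004000e00180a1382))) 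
(.nd (nat_lit 9) 
(.lf (nat_lit 3489974627) (dlOf (nat_lit 1) (nat_lit 0x380080008002000c0008004e83))) 
(.lf (nat_lit 3489979235) (dlOf (nat_lit 1) (nat_lit 0x2001800bc81))))))) (.nd (nat_lit 6) 
(.nd (nat_lit 31) (.nd (nat_lit 7) 
(.lf (nat_lit 470073379) (dlOf (nat_lit 1) (nat_lit 0xa800806ec00201cc0008040503))) 
(.nd (nat_lit 9) (.lf (nat_lit 5704564899) (dlOf (nat_lit 1) (nat_lit 0x200280f1381))) 
(.lf (nat_lit 472173219) (dlOf (nat_lit 1) (nat_lit 0x4002000200088c5602))))) (.nd (nat_lit 19) 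
(.nd (nat_lit 29) 
(.lf (nat_lit 3691298851) (dlOf (nat_lit 1) (nat_lit 0x28008002400200080008120583))) 
(.lf (nat_lit 4228169763) (dlOf (nat_lit 1) (nat_lit 0x400200080008050502)))) 
(.lf (nat_lit 4095524899) (dlOf (nat_lit 1) (nat_lit 0x4004000200080d0482))))) (.nd (nat_lit 27) 
(.nd (nat_lit 11) (.lf (nat_lit 872726627) (dlOf (nat_lit 1) (nat_lit 0x4004000200080b0d82))) 
(.lf (nat_lit 1410123875) (dlOf (nat_lit 1) (nat_lit 0x400180f4701)))) (.nd (nat_lit 7) 
(.nd (nat_lit 22) (.lf (nat_lit 2080686179) (dlOf (nat_lit 1) (nat_lit 0x4c004001c00080b0d82))) 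
(.lf (nat_lit 474267747) (dlOf (nat_lit 1) (nat_lit 0x800400040009100d82)))) 
(.lf (nat_lit 5838782691) (dlOf (nat_lit 1) (nat_lit 0x3400080278002000200081b0483)))))))))) 
(.nd (nat_lit 18) (.nd (nat_lit 26) (.nd (nat_lit 6) (.nd (nat_lit 5) (.nd (nat_lit 7) 
(.nd (nat_lit 19) (.nd (nat_lit 11) (.nd (nat_lit 8) (.nd (nat_lit 20) 
(.lf (nat_lit 14729227) (dlOf (nat_lit 1) (nat_lit 0xa8008000400200280008770003))) 
(.lf (nat_lit 1343275019) (dlOf (nat_lit 2) (nat_lit 0xdc0000031e0181e0480)))) 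
(.lf (nat_lit 19972363) (dlOf (nat_lit 1) (nat_lit 0x104002000e00089d0a82)))) (.nd (nat_lit 8) 
(.nd (nat_lit 20) 
(.lf (nat_lit 3623929867) (dlOf (nat_lit 6) (nat_lit 0x8680b8044405a018802400fd00d807d806003e802a00ac01201130088061802c02f000c021200200580008001606008200b8041805a018202400f800d8078806003bc02a00a601201090088060802c02c000c020c002005400080015c6011380c404e405e01aa0000002a83022d01880a180bc0430020006200a00dd000000150280d380c4000a20400b400400180018004702))) 
(.lf (nat_lit 3492857867) (dlOf (nat_lit 4) (nat_lit 0x5100e8001500802a8074000a204000804001d201f000270280f4700)))) 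
(.lf (nat_lit 4831890187) (dlOf (nat_lit 1) (nat_lit 0x5c0018055b01))))) (.nd (nat_lit 21) 
(.nd (nat_lit 20) 
(.lf (nat_lit 805879819) (dlOf (nat_lit 1) (nat_lit 0xa80080004002001000081d0083))) 
(.lf (nat_lit 3491282955) (dlOf (nat_lit 1) (nat_lit 0x540018080001)))) (.nd (nat_lit 9) 
(.nd (nat_lit 22) (.lf (nat_lit 19447819) (dlOf (nat_lit 1) (nat_lit 0x4002000200089a0602))) 
(.lf (nat_lit 48807947) (dlOf (nat_lit 1) (nat_lit 0x20029430101)))) 
(.lf (nat_lit 40421899) (dlOf (nat_lit 1) (nat_lit 0x200291f5001)))))) (.nd (nat_lit 8) 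
(.nd (nat_lit 11) (.nd (nat_lit 19) (.nd (nat_lit 28) 
(.lf (nat_lit 6576717963) (dlOf (nat_lit 1) (nat_lit 0x600280b0101))) 
(.lf (nat_lit 939573387) (dlOf (nat_lit 2) (nat_lit 0x90130000ec0800500080004002002600080b0103)))) 
(.lf (nat_lit 537444491) (dlOf (nat_lit 1) (nat_lit 0x60028090101)))) (.nd (nat_lit 9) 
(.lf (nat_lit 3221276811) (dlOf (nat_lit 1) (nat_lit 0x400200020008004802))) 
(.lf (nat_lit 5234543243) (dlOf (nat_lit 1) (nat_lit 0x20018055481))))) (.nd (nat_lit 30) 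
(.nd (nat_lit 9) (.lf (nat_lit 49334667) (dlOf (nat_lit 1) (nat_lit 0xa0029464e81))) 
(.lf (nat_lit 4831890315) (dlOf (nat_lit 1) (nat_lit 0x8008000400200020008055c83)))) 
(.nd (nat_lit 11) (.lf (nat_lit 6039851915) (dlOf (nat_lit 1) (nat_lit 0x400400040018009002))) 
(.lf (nat_lit 6174067595) (dlOf (nat_lit 1) (nat_lit 0x400400020008055c82))))))) (.nd (nat_lit 20) 
(.nd (nat_lit 21) (.nd (nat_lit 7) (.nd (nat_lit 8) 
(.lf (nat_lit 8439851) (dlOf (nat_lit 1) (nat_lit 0x8008000400200020008514703))) 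
(.lf (nat_lit 4160799531) (dlOf (nat_lit 1) (nat_lit 0x100018002201)))) (.nd (nat_lit 9) 
(.lf (nat_lit 6308282539) (dlOf (nat_lit 1) (nat_lit 0x20028050601))) 
(.lf (nat_lit 46713515) (dlOf (nat_lit 1) (nat_lit 0x20029385681))))) (.nd (nat_lit 19) 
(.nd (nat_lit 22) (.lf (nat_lit 52477995) (dlOf (nat_lit 1) (nat_lit 0x2800400020009540902))) 
(.lf (nat_lit 14729259) (dlOf (nat_lit 1) (nat_lit 0x8800400020008770382)))) 
(.lf (nat_lit 3492331563) (dlOf (nat_lit 7) (nat_lit 0xe9036c0008118009e08b000120301d106d80008230011c1160002206023e0db0001001012106d80007c08044836c0003a0400201b60001b02001000180c0c01))))) 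
(.nd (nat_lit 19) (.nd (nat_lit 7) (.nd (nat_lit 21) 
(.lf (nat_lit 13680683) (dlOf (nat_lit 2) (nat_lit 0x6438a8000c80800d8008007000200260008740603))) 
(.lf (nat_lit 19972139) (dlOf (nat_lit 1) (nat_lit 0x600289d0001)))) 
(.lf (nat_lit 19979691) (dlOf (nat_lit 1) (nat_lit 0x7800189dcc01)))) (.nd (nat_lit 22) 
(.nd (nat_lit 24) 
(.lf (nat_lit 10010667) (dlOf (nat_lit 6) (nat_lit 0x2073000052040010398000280200081cc000060100050e600002c08002873000010040054002001000085a0d02))) 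
(.lf (nat_lit 26787883) (dlOf (nat_lit 1) (nat_lit 0x20018c70801)))) 
(.lf (nat_lit 14204971) (dlOf (nat_lit 1) (nat_lit 0xa0028750001))))))) (.nd (nat_lit 28) 
(.nd (nat_lit 20) (.nd (nat_lit 5) (.nd (nat_lit 7) (.nd (nat_lit 8) (.nd (nat_lit 23) 
(.lf (nat_lit 3355492427) (dlOf (nat_lit 2) (nat_lit 0x30178056b0080010008000400200040008000003))) 
(.lf (nat_lit 25215051) (dlOf (nat_lit 2) (nat_lit 0x1027900024818bf0d00)))) 
(.lf (nat_lit 2146635) (dlOf (nat_lit 1) (nat_lit 0xa0028150601)))) 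
(.lf (nat_lit 536921803) (dlOf (nat_lit 1) (nat_lit 0x20018003a81)))) (.nd (nat_lit 7) 
(.lf (nat_lit 42516587) (dlOf (nat_lit 1) (nat_lit 0x4004000a0009260a02))) 
(.lf (nat_lit 40422123) (dlOf (nat_lit 1) (nat_lit 0x438004028e00091f5a02))))) (.nd (nat_lit 5) 
(.nd (nat_lit 7) (.nd (nat_lit 8) 
(.lf (nat_lit 11584075) (dlOf (nat_lit 1) (nat_lit 0x300002018e00086c1182))) 
(.lf (nat_lit 30458187) (dlOf (nat_lit 1) (nat_lit 0x3c0018e30781)))) 
(.lf (nat_lit 53529035) (dlOf (nat_lit 1) (nat_lit 0x4004000200095f4e82)))) (.nd (nat_lit 7) 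
(.lf (nat_lit 60344939) (dlOf (nat_lit 1) (nat_lit 0x2400400080009845382))) 
(.lf (nat_lit 19972331) (dlOf (nat_lit 1) (nat_lit 0x8400189d0a81)))))) (.nd (nat_lit 7) 
(.nd (nat_lit 21) (.nd (nat_lit 8) 
(.lf (nat_lit 3494428747) (dlOf (nat_lit 6) (nat_lit 0x3540d0006206300e2021003300a40290046012e01e007800b8000b03803580a4017c03c0002b04017a068004d031806581080268046011201e00cb00b802b802000700000002a1000c0029000148100600148000a0080a08008012000200340008220d03))) 
(.nd (nat_lit 22) (.lf (nat_lit 3087057227) (dlOf (nat_lit 1) (nat_lit 0x1400280b0601))) 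
(.lf (nat_lit 3493904715) (dlOf (nat_lit 1) (nat_lit 0x4004000200081b0602))))) (.nd (nat_lit 5) 
(.nd (nat_lit 19) (.lf (nat_lit 1881194571) (dlOf (nat_lit 1) (nat_lit 0x400400040008e40602))) 
(.lf (nat_lit 3492331595) (dlOf (nat_lit 4) (nat_lit 0x2380d9008306a0014027c000680c02a41b201360d400680648000c818006836400062040010002000400080c1482)))) 
(.lf (nat_lit 1881194603) (dlOf (nat_lit 1) (nat_lit 0x8008000400200020008e40a03))))) 
(.nd (nat_lit 5) (.nd (nat_lit 8) 
(.lf (nat_lit 3087057099) (dlOf (nat_lit 1) (nat_lit 0x400080b0481))) (.nd (nat_lit 9) 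
(.lf (nat_lit 5100323275) (dlOf (nat_lit 1) (nat_lit 0x400200020008051102))) 
(.lf (nat_lit 1476449227) (dlOf (nat_lit 1) (nat_lit 0x400200020008009202))))) (.nd (nat_lit 11) 
(.lf (nat_lit 4026581995) (dlOf (nat_lit 3) (nat_lit 0x802e009348100050170048f4080158008005800200bc0008002883))) 
(.lf (nat_lit 2952846315) (dlOf (nat_lit 2) (nat_lit 0x804c00982040020004000a000800bf02)))))))) 
(.nd (nat_lit 31) (.nd (nat_lit 6) (.nd (nat_lit 7) (.nd (nat_lit 20) (.nd (nat_lit 5) 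
(.lf (nat_lit 1678295051) (dlOf (nat_lit 1) (nat_lit 0xa80080004002001000081d0083))) 
(.nd (nat_lit 8) 
(.lf (nat_lit 4362649643) (dlOf (nat_lit 3) (nat_lit 0x10e0000004ec0800a800000000040084002004c00080c0b02))) 
(.lf (nat_lit 474005803) (dlOf (nat_lit 1) (nat_lit 0x80029000b01))))) (.nd (nat_lit 8) 
(.nd (nat_lit 27) 
(.lf (nat_lit 68206603) (dlOf (nat_lit 2) (nat_lit 0x2800000179e04011c00200c60008450482))) 
(.lf (nat_lit 470859787) (dlOf (nat_lit 2) (nat_lit 0x15000000bcf02000800081c0481)))) 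
(.lf (nat_lit 6376440075) (dlOf (nat_lit 3) (nat_lit 0x612f0004e810005097800238080008008000c00200020008090a83))))) 
(.nd (nat_lit 29) (.nd (nat_lit 5) (.nd (nat_lit 8) 
(.lf (nat_lit 1409859723) (dlOf (nat_lit 1) (nat_lit 0x60028090101))) 
(.lf (nat_lit 5704305547) (dlOf (nat_lit 1) (nat_lit 0x8008000400200020008055c83)))) 
(.lf (nat_lit 201377451) (dlOf (nat_lit 1) (nat_lit 0xa40018003a81)))) (.nd (nat_lit 5) 
(.nd (nat_lit 27) (.lf (nat_lit 5972738187) (dlOf (nat_lit 1) (nat_lit 0x600280b0101))) 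
(.lf (nat_lit 1811988619) (dlOf (nat_lit 2) (nat_lit 0x90130000ec0800500080004002002600080b0103)))) 
(.lf (nat_lit 4898997675) (dlOf (nat_lit 2) (nat_lit 0x40380008e0200020018053601)))))) 
(.nd (nat_lit 5) (.nd (nat_lit 7) (.nd (nat_lit 8) 
(.lf (nat_lit 738246731) (dlOf (nat_lit 1) (nat_lit 0x400200020008000002))) (.nd (nat_lit 28) 
(.lf (nat_lit 1275120459) (dlOf (nat_lit 1) (nat_lit 0x1c8008004800200120008005c03))) 
(.lf (nat_lit 2080426827) (dlOf (nat_lit 1) (nat_lit 0x28008000800200020008005c03))))) 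
(.nd (nat_lit 8) (.lf (nat_lit 6106957003) (dlOf (nat_lit 1) (nat_lit 0x20028002d81))) 
(.nd (nat_lit 9) (.lf (nat_lit 4898997707) (dlOf (nat_lit 1) (nat_lit 0xd4002005c0008053602))) 
(.lf (nat_lit 5704305611) (dlOf (nat_lit 1) (nat_lit 0x400400020008055d82)))))) (.nd (nat_lit 9) 
(.nd (nat_lit 19) (.nd (nat_lit 11) 
(.lf (nat_lit 6376440043) (dlOf (nat_lit 1) (nat_lit 0x120018090a81))) 
(.lf (nat_lit 201378027) (dlOf (nat_lit 1) (nat_lit 0x20008004b01)))) (.nd (nat_lit 7) 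
(.lf (nat_lit 474529899) (dlOf (nat_lit 1) (nat_lit 0x40004001800091a0a02))) 
(.lf (nat_lit 474530027) (dlOf (nat_lit 2) (nat_lit 0x180960037d8191a1e80))))) (.nd (nat_lit 8) 
(.lf (nat_lit 473484011) (dlOf (nat_lit 1) (nat_lit 0x20028f55a01))) (.nd (nat_lit 11) 
(.lf (nat_lit 4630561771) (dlOf (nat_lit 1) (nat_lit 0xe0028002881))) 
(.lf (nat_lit 604036075) (dlOf (nat_lit 1) (nat_lit 0x2002800bf01)))))))) (.nd (nat_lit 27) 
(.nd (nat_lit 6) (.nd (nat_lit 8) (.nd (nat_lit 10) (.nd (nat_lit 20) 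
(.lf (nat_lit 2754134027) (dlOf (nat_lit 1) (nat_lit 0x100080008002000400080c0803))) 
(.lf (nat_lit 2753085451) (dlOf (nat_lit 1) (nat_lit 0x540018080001)))) (.nd (nat_lit 5) 
(.lf (nat_lit 2751513611) (dlOf (nat_lit 1) (nat_lit 0x20018002881))) 
(.lf (nat_lit 3288386603) (dlOf (nat_lit 1) (nat_lit 0x680080010002004c0008006083))))) 
(.nd (nat_lit 5) (.nd (nat_lit 10) 
(.lf (nat_lit 2754660747) (dlOf (nat_lit 1) (nat_lit 0x780080004002000e00080f4e83))) 
(.lf (nat_lit 3288386955) (dlOf (nat_lit 1) (nat_lit 0x18008000800200300008006c83)))) 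
(.lf (nat_lit 3556819243) (dlOf (nat_lit 1) (nat_lit 0x8008000400200020008080b03))))) 
(.nd (nat_lit 8) (.nd (nat_lit 5) (.nd (nat_lit 7) 
(.lf (nat_lit 2756231243) (dlOf (nat_lit 6) (nat_lit 0x3540d0006206300e2021003300a40290046012e01e007800b8000b43803580a4017c03c0002c04017a068004d031806581080268046011201e00cb00b802b802000700000002b1000c0029000150100600148000a4080a08008012000200340008220d03))) 
(.lf (nat_lit 3825254603) (dlOf (nat_lit 1) (nat_lit 0x400080b0481)))) 
(.lf (nat_lit 2751514859) (dlOf (nat_lit 2) (nat_lit 0x1500fc0003604001000400260018004b02)))) 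
(.nd (nat_lit 10) (.nd (nat_lit 22) 
(.lf (nat_lit 3825254731) (dlOf (nat_lit 1) (nat_lit 0x1400280b0601))) 
(.lf (nat_lit 2755707211) (dlOf (nat_lit 3) (nat_lit 0x6842a0003f0200142150001f0181b0600)))) 
(.lf (nat_lit 3288386891) (dlOf (nat_lit 1) (nat_lit 0x100018006a01)))))) (.nd (nat_lit 11) 
(.nd (nat_lit 5) (.nd (nat_lit 6) 
(.lf (nat_lit 3154690315) (dlOf (nat_lit 3) (nat_lit 0xf40580047d02007202c0023d818310700))) 
(.nd (nat_lit 7) (.lf (nat_lit 6643826763) (dlOf (nat_lit 1) (nat_lit 0x100028000001))) 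
(.lf (nat_lit 3691041739) (dlOf (nat_lit 1) (nat_lit 0x400400020018009202))))) (.nd (nat_lit 7) 
(.nd (nat_lit 8) 
(.lf (nat_lit 4228431915) (dlOf (nat_lit 3) (nat_lit 0x10e0000004cc0800a800000000040084002004c00080c0b02))) 
(.lf (nat_lit 3154690347) (dlOf (nat_lit 3) (nat_lit 0xc00580047b02004c02c00000018310700)))) 
(.lf (nat_lit 3691042219) (dlOf (nat_lit 1) (nat_lit 0x180080004002000a0008009903))))) 
(.nd (nat_lit 7) (.nd (nat_lit 5) (.nd (nat_lit 6) 
(.lf (nat_lit 3691040523) (dlOf (nat_lit 1) (nat_lit 0x20028007481))) 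
(.lf (nat_lit 3154168651) (dlOf (nat_lit 1) (nat_lit 0x7a0008085c01)))) 
(.lf (nat_lit 4227914603) (dlOf (nat_lit 2) (nat_lit 0x15019002be408001000800100020002000800bc83)))) 
(.nd (nat_lit 5) (.nd (nat_lit 28) 
(.lf (nat_lit 2885732747) (dlOf (nat_lit 1) (nat_lit 0x20028004e81))) 
(.lf (nat_lit 3154168203) (dlOf (nat_lit 1) (nat_lit 0x20028084e81)))) 
(.lf (nat_lit 3959479211) (dlOf (nat_lit 1) (nat_lit 0x8008001c0020002000800bd83))))))))) 
(.nd (nat_lit 5) (.nd (nat_lit 19) (.nd (nat_lit 30) (.nd (nat_lit 20) (.nd (nat_lit 6) 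
(.nd (nat_lit 7) (.nd (nat_lit 21) (.nd (nat_lit 23) 
(.lf (nat_lit 2755969035) (dlOf (nat_lit 1) (nat_lit 0x2a00081c0681))) 
(.lf (nat_lit 12894219) (dlOf (nat_lit 1) (nat_lit 0x200080008002000a00086e0003)))) 
(.lf (nat_lit 6602763) (dlOf (nat_lit 1) (nat_lit 0x60018430501)))) 
(.lf (nat_lit 21282955) (dlOf (nat_lit 3) (nat_lit 0x109200006a0400717ca0004bd8001c5480009a9cc0006410000c00400040008a30f02)))) 
(.nd (nat_lit 7) (.nd (nat_lit 8) 
(.lf (nat_lit 2483339339) (dlOf (nat_lit 2) (nat_lit 0x42015803a80a4020404e00e60140001a0480c1480))) 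
(.lf (nat_lit 4899261259) (dlOf (nat_lit 1) (nat_lit 0x200080d5c01)))) 
(.lf (nat_lit 2818888395) (dlOf (nat_lit 1) (nat_lit 0x20018128c81))))) (.nd (nat_lit 7) 
(.nd (nat_lit 21) (.nd (nat_lit 23) 
(.lf (nat_lit 2752823307) (dlOf (nat_lit 1) (nat_lit 0x80018050081))) 
(.lf (nat_lit 26525707) (dlOf (nat_lit 1) (nat_lit 0x8008000400200020008c50003)))) (.nd (nat_lit 8) 
(.lf (nat_lit 7651339) (dlOf (nat_lit 1) (nat_lit 0x600184c0501))) 
(.lf (nat_lit 41206027) (dlOf (nat_lit 1) (nat_lit 0x20019223a01))))) (.nd (nat_lit 6) 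
(.lf (nat_lit 2754922891) (dlOf (nat_lit 1) (nat_lit 0x4002000200080f4e82))) 
(.lf (nat_lit 20239051) (dlOf (nat_lit 1) (nat_lit 0x4002000200089d8c82)))))) (.nd (nat_lit 6) 
(.nd (nat_lit 7) (.nd (nat_lit 20) (.nd (nat_lit 22) 
(.lf (nat_lit 3758407691) (dlOf (nat_lit 1) (nat_lit 0x8008000400200020008170003))) 
(.lf (nat_lit 3494166539) (dlOf (nat_lit 1) (nat_lit 0x2a00081c0681)))) (.nd (nat_lit 31) 
(.lf (nat_lit 1343537163) (dlOf (nat_lit 1) (nat_lit 0x3800401580008290102))) 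
(.lf (nat_lit 3491020811) (dlOf (nat_lit 1) (nat_lit 0x80018050081))))) (.nd (nat_lit 8) 
(.nd (nat_lit 26) (.lf (nat_lit 5503238283) (dlOf (nat_lit 1) (nat_lit 0x400280c0f01))) 
(.lf (nat_lit 6241435787) (dlOf (nat_lit 3) (nat_lit 0x400680006a0400d00000003202001e00080f0f01)))) 
(.lf (nat_lit 5637456267) (dlOf (nat_lit 1) (nat_lit 0xc004000200080f5d82))))) (.nd (nat_lit 27) 
(.nd (nat_lit 7) 
(.lf (nat_lit 1409597771) (dlOf (nat_lit 4) (nat_lit 0x2e000000100100270000000740800f800000038040138002000c0008048002))) 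
(.nd (nat_lit 8) (.lf (nat_lit 3557085899) (dlOf (nat_lit 1) (nat_lit 0x20018128c81))) 
(.lf (nat_lit 3221537227) (dlOf (nat_lit 1) (nat_lit 0x800200020008127102))))) (.nd (nat_lit 9) 
(.nd (nat_lit 26) (.lf (nat_lit 1208270923) (dlOf (nat_lit 1) (nat_lit 0x8004000200080b0602))) 
(.lf (nat_lit 2080686155) (dlOf (nat_lit 1) (nat_lit 0x8004000200080b0602)))) 
(.lf (nat_lit 3959734859) (dlOf (nat_lit 10) (nat_lit 0x5bc01c023200c014100000008c18086003803400000002204020000e00ca000000084100f9003807140000001e04023200e00f70000000701007a0038000360403540000001a0200f400000004010095000000010080060008007800200240008128d03))))))) 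
(.nd (nat_lit 7) (.nd (nat_lit 6) (.nd (nat_lit 24) (.nd (nat_lit 9) (.nd (nat_lit 26) 
(.lf (nat_lit 1343012875) (dlOf (nat_lit 7) (nat_lit 0x4091c0014486000a23c000a11b80048734003838a0014f0c0002243000311e000208dc001439a0011708000c24700010e6800387140028128001150800180940008a0100071238002090c0010478000a23700070e680030714001f618001048e0002243000311e000288dc001439a00141c500060e08003dc380180008000400200460008130483))) 
(.lf (nat_lit 470597643) (dlOf (nat_lit 7) (nat_lit 0x4091c0014486000a23c000a11b80048734003838a0014f0c0002243000311e000208dc001439a0011b08000c24700010e6800387140028128001190800180940008c0100071238002090c0010478000a23700070e680030714001f418001048e0002243000311e000288dc001439a00141c500060e08003dc380180008000400200460008130483)))) 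
(.lf (nat_lit 67950091) (dlOf (nat_lit 1) (nat_lit 0x400200020008339c02)))) (.nd (nat_lit 20) 
(.lf (nat_lit 17612811) (dlOf (nat_lit 1) (nat_lit 0x5e00188e0001))) (.nd (nat_lit 21) 
(.lf (nat_lit 27049995) (dlOf (nat_lit 2) (nat_lit 0x6cb308000d89000c7808001800400040008ca0482))) 
(.lf (nat_lit 29147147) (dlOf (nat_lit 1) (nat_lit 0x8008000400200020008dd0603)))))) 
(.nd (nat_lit 8) (.nd (nat_lit 20) (.nd (nat_lit 21) 
(.lf (nat_lit 9224267) (dlOf (nat_lit 1) (nat_lit 0x180080010002000a0008530603))) 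
(.lf (nat_lit 36487243) (dlOf (nat_lit 1) (nat_lit 0x460019070001)))) (.nd (nat_lit 21) 
(.lf (nat_lit 10272843) (dlOf (nat_lit 1) (nat_lit 0x80080008002000200085c0f83))) 
(.lf (nat_lit 1346158667) (dlOf (nat_lit 2) (nat_lit 0xa014c00066818e60600))))) (.nd (nat_lit 27) 
(.lf (nat_lit 4362912075) (dlOf (nat_lit 2) (nat_lit 0x402000f8000000000281a0600))) 
(.lf (nat_lit 4228694347) (dlOf (nat_lit 2) (nat_lit 0x402600f8000000000281a0600)))))) 
(.nd (nat_lit 21) (.nd (nat_lit 6) (.nd (nat_lit 8) (.nd (nat_lit 27) 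
(.lf (nat_lit 4362911883) (dlOf (nat_lit 1) (nat_lit 0x104004002e00081a0102))) 
(.lf (nat_lit 4228694155) (dlOf (nat_lit 1) (nat_lit 0x104004002e00081a0102)))) 
(.lf (nat_lit 2753347979) (dlOf (nat_lit 1) (nat_lit 0x160018090781)))) (.nd (nat_lit 27) 
(.lf (nat_lit 4362911947) (dlOf (nat_lit 1) (nat_lit 0x200181a0481))) 
(.lf (nat_lit 4228694219) (dlOf (nat_lit 1) (nat_lit 0x200181a0481))))) (.nd (nat_lit 10) 
(.nd (nat_lit 8) (.lf (nat_lit 23904395) (dlOf (nat_lit 1) (nat_lit 0x1800200020008b80102))) 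
(.lf (nat_lit 8176011) (dlOf (nat_lit 1) (nat_lit 0x400200020008511002)))) (.nd (nat_lit 9) 
(.lf (nat_lit 19715211) (dlOf (nat_lit 3) (nat_lit 0x64552000f88100172a90002bc080078008002c002000e00089d9503))) 
(.lf (nat_lit 19715723) (dlOf (nat_lit 1) (nat_lit 0x80080004002000c00089d9e03)))))))) 
(.nd (nat_lit 21) (.nd (nat_lit 31) (.nd (nat_lit 28) (.nd (nat_lit 9) (.nd (nat_lit 19) 
(.lf (nat_lit 26525739) (dlOf (nat_lit 5) (nat_lit 0x3f3634002da2a000497e001b4bd000925e40005e140079a2c0054d13007e680802325e40005c100241b1c01a8d16003468a8033340401d92fc0012979000160600c36c7000134580231a1a0002b0601ee0028c50381))) 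
(.nd (nat_lit 20) 
(.lf (nat_lit 13418539) (dlOf (nat_lit 3) (nat_lit 0x1bb788002cb600025f1e00051060010f1700012018720d00))) 
(.lf (nat_lit 22855723) (dlOf (nat_lit 1) (nat_lit 0x9c004001e0008b30602))))) (.nd (nat_lit 6) 
(.lf (nat_lit 60082859) (dlOf (nat_lit 1) (nat_lit 0x20009845681))) (.nd (nat_lit 7) 
(.lf (nat_lit 46975595) (dlOf (nat_lit 2) (nat_lit 0x150de8001040800a80080018002001c0009385383))) 
(.lf (nat_lit 5436132075) (dlOf (nat_lit 1) (nat_lit 0x50008004c002000200080e5a03)))))) 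
(.nd (nat_lit 26) (.nd (nat_lit 7) (.nd (nat_lit 29) 
(.lf (nat_lit 1342488619) (dlOf (nat_lit 3) (nat_lit 0x868c001b6040004346000d90200020028040601))) 
(.lf (nat_lit 1879359531) (dlOf (nat_lit 1) (nat_lit 0x400080f0b01)))) 
(.lf (nat_lit 1880410539) (dlOf (nat_lit 1) (nat_lit 0x20008000800200020008924e83)))) 
(.nd (nat_lit 29) 
(.lf (nat_lit 470073387) (dlOf (nat_lit 3) (nat_lit 0x86cc0019a040004366000cb0200020028040601))) 
(.lf (nat_lit 1006944299) (dlOf (nat_lit 1) (nat_lit 0x400080f0b01)))))) (.nd (nat_lit 6) 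
(.nd (nat_lit 8) (.nd (nat_lit 26) (.nd (nat_lit 27) (.nd (nat_lit 28) 
(.lf (nat_lit 3758407723) (dlOf (nat_lit 2) (nat_lit 0x2700140002c0200120008170381))) 
(.lf (nat_lit 4026843179) (dlOf (nat_lit 2) (nat_lit 0x1a02d000390180a0980)))) 
(.lf (nat_lit 3892625451) (dlOf (nat_lit 1) (nat_lit 0x2a0018170981)))) 
(.lf (nat_lit 3288645675) (dlOf (nat_lit 2) (nat_lit 0x1a02d0007f0180a0980)))) (.nd (nat_lit 9) 
(.lf (nat_lit 3825516843) (dlOf (nat_lit 1) (nat_lit 0x60028187901))) 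
(.lf (nat_lit 2818887467) (dlOf (nat_lit 1) (nat_lit 0x100018127481))))) (.nd (nat_lit 26) 
(.nd (nat_lit 7) 
(.lf (nat_lit 4026843243) (dlOf (nat_lit 1) (nat_lit 0x1000080034002007200080a1483))) 
(.nd (nat_lit 10) 
(.lf (nat_lit 3221537259) (dlOf (nat_lit 4) (nat_lit 0xba007005c003002040000002206017400e00020000000701005480380003604002c004001a0008127302))) 
(.lf (nat_lit 3489975787) (dlOf (nat_lit 2) (nat_lit 0x106b00008318000814e000200400006848006e80))))) 
(.nd (nat_lit 7) 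
(.lf (nat_lit 3288645739) (dlOf (nat_lit 1) (nat_lit 0x1000080034002007200080a1483))) 
(.nd (nat_lit 27) (.lf (nat_lit 6509871595) (dlOf (nat_lit 1) (nat_lit 0x20018157301))) 
(.lf (nat_lit 3959734763) (dlOf (nat_lit 2) (nat_lit 0x3800000513818127d00)))))))) (.nd (nat_lit 7) 
(.nd (nat_lit 23) (.nd (nat_lit 28) (.nd (nat_lit 8) (.nd (nat_lit 26) 
(.lf (nat_lit 2932779) (dlOf (nat_lit 2) (nat_lit 0x5a000000190181d0600))) 
(.lf (nat_lit 2754396203) (dlOf (nat_lit 2) (nat_lit 0xf854800000040004004000200080e0602)))) 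
(.lf (nat_lit 19710763) (dlOf (nat_lit 1) (nat_lit 0x200189d2201)))) (.nd (nat_lit 19) 
(.lf (nat_lit 3492069419) (dlOf (nat_lit 1) (nat_lit 0x400180a0981))) 
(.lf (nat_lit 3492593707) (dlOf (nat_lit 2) (nat_lit 0xf857000000040004004000200080e0602))))) 
(.nd (nat_lit 6) (.nd (nat_lit 19) 
(.lf (nat_lit 27574315) (dlOf (nat_lit 3) (nat_lit 0x16048001f8080023024000f8040004004000a0008d00802))) 
(.nd (nat_lit 22) (.lf (nat_lit 11321387) (dlOf (nat_lit 1) (nat_lit 0x20008690601))) 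
(.lf (nat_lit 15515691) (dlOf (nat_lit 1) (nat_lit 0xe0018800801))))) 
(.lf (nat_lit 12370283) (dlOf (nat_lit 1) (nat_lit 0x4004000200086c0702))))) (.nd (nat_lit 8) 
(.nd (nat_lit 6) (.nd (nat_lit 9) 
(.lf (nat_lit 1009041579) (dlOf (nat_lit 1) (nat_lit 0x1c00200060009012c82))) 
(.lf (nat_lit 20240043) (dlOf (nat_lit 1) (nat_lit 0x4002000200089da002)))) 
(.lf (nat_lit 8177899) (dlOf (nat_lit 2) (nat_lit 0x109b00001802002c0008514b01)))) (.nd (nat_lit 9) 
(.nd (nat_lit 10) (.lf (nat_lit 49072555) (dlOf (nat_lit 1) (nat_lit 0x20009464e81))) 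
(.lf (nat_lit 8177067) (dlOf (nat_lit 1) (nat_lit 0x400200020008513602)))) (.nd (nat_lit 11) 
(.lf (nat_lit 19710891) (dlOf (nat_lit 1) (nat_lit 0xc400400c200189d2682))) 
(.lf (nat_lit 2754927531) (dlOf (nat_lit 1) (nat_lit 0x200280fbd81))))))))))) (.nd (nat_lit 5) 
(.nd (nat_lit 3) (.nd (nat_lit 18) (.nd (nat_lit 28) (.nd (nat_lit 6) (.nd (nat_lit 19) 
(.nd (nat_lit 10) (.nd (nat_lit 7) (.nd (nat_lit 24) 
(.lf (nat_lit 47235079) (dlOf (nat_lit 1) (nat_lit 0x3200193c0001))) 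
(.lf (nat_lit 30457863) (dlOf (nat_lit 1) (nat_lit 0x5a0018e30001)))) 
(.lf (nat_lit 8444551) (dlOf (nat_lit 1) (nat_lit 0x2001851b681)))) (.nd (nat_lit 7) 
(.nd (nat_lit 27) 
(.lf (nat_lit 3288386823) (dlOf (nat_lit 1) (nat_lit 0x8008001c00200020008006683))) 
(.lf (nat_lit 2885733639) (dlOf (nat_lit 1) (nat_lit 0x400400020018006682)))) 
(.lf (nat_lit 19975303) (dlOf (nat_lit 1) (nat_lit 0x1e00189d6181))))) (.nd (nat_lit 20) 
(.nd (nat_lit 24) (.nd (nat_lit 8) 
(.lf (nat_lit 4362649607) (dlOf (nat_lit 1) (nat_lit 0x400280c0001))) 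
(.lf (nat_lit 67682567) (dlOf (nat_lit 1) (nat_lit 0x5800182d0701)))) (.nd (nat_lit 21) 
(.lf (nat_lit 21544967) (dlOf (nat_lit 2) (nat_lit 0xc14f006fa818a40000))) 
(.lf (nat_lit 19447815) (dlOf (nat_lit 1) (nat_lit 0x400289a0581))))) (.nd (nat_lit 7) 
(.nd (nat_lit 9) 
(.lf (nat_lit 10010631) (dlOf (nat_lit 11) (nat_lit 0xc0e60005a4080058730002d004000c3980016702004a1e0000a28100070f00005100801807800019e040004398000470200041cc0001e8100140e600007408007873000038040184002000c00085a0582))) 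
(.lf (nat_lit 58245639) (dlOf (nat_lit 3) (nat_lit 0x7948a00a78020010a46000d5228029981002300080074002001200097c7b03)))) 
(.lf (nat_lit 20499079) (dlOf (nat_lit 1) (nat_lit 0x400189d5481)))))) (.nd (nat_lit 10) 
(.nd (nat_lit 19) (.nd (nat_lit 8) (.nd (nat_lit 9) 
(.lf (nat_lit 38846535) (dlOf (nat_lit 1) (nat_lit 0xe0019170601))) 
(.lf (nat_lit 11584071) (dlOf (nat_lit 1) (nat_lit 0x3c002001400086c1102)))) 
(.lf (nat_lit 19972423) (dlOf (nat_lit 1) (nat_lit 0xdc002004a00089d0c82)))) (.nd (nat_lit 7) 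
(.lf (nat_lit 2756231239) (dlOf (nat_lit 3) (nat_lit 0x1100d000a804200030148032008c015003c002a0000001286000a01180008c0806d8008012000200400008220c83))) 
(.nd (nat_lit 22) (.lf (nat_lit 1611186375) (dlOf (nat_lit 1) (nat_lit 0x20018105881))) 
(.lf (nat_lit 55099591) (dlOf (nat_lit 1) (nat_lit 0x5600296b5901)))))) (.nd (nat_lit 27) 
(.nd (nat_lit 7) (.nd (nat_lit 19) 
(.lf (nat_lit 4898997319) (dlOf (nat_lit 1) (nat_lit 0x800400020008052882))) 
(.lf (nat_lit 33080391) (dlOf (nat_lit 1) (nat_lit 0x1000400020008f52882)))) 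
(.lf (nat_lit 3288387015) (dlOf (nat_lit 2) (nat_lit 0x1806a000560200060008006d01)))) 
(.nd (nat_lit 9) (.nd (nat_lit 30) 
(.lf (nat_lit 4496344135) (dlOf (nat_lit 1) (nat_lit 0x400400020008052882))) 
(.lf (nat_lit 5570085959) (dlOf (nat_lit 1) (nat_lit 0x400400020008052882)))) 
(.lf (nat_lit 6106957383) (dlOf (nat_lit 1) (nat_lit 0x120018003801))))))) (.nd (nat_lit 6) 
(.nd (nat_lit 10) (.nd (nat_lit 30) (.nd (nat_lit 7) (.nd (nat_lit 8) 
(.lf (nat_lit 471908359) (dlOf (nat_lit 1) (nat_lit 0x200286b0001))) 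
(.lf (nat_lit 3154690311) (dlOf (nat_lit 2) (nat_lit 0xc02c0023d818310700)))) 
(.lf (nat_lit 470335623) (dlOf (nat_lit 1) (nat_lit 0x4004000400080c0102)))) (.nd (nat_lit 7) 
(.nd (nat_lit 9) (.lf (nat_lit 4228431879) (dlOf (nat_lit 1) (nat_lit 0x400280c0001))) 
(.lf (nat_lit 1345896967) (dlOf (nat_lit 1) (nat_lit 0x1c0028e07b01)))) 
(.lf (nat_lit 1342750855) (dlOf (nat_lit 1) (nat_lit 0x4004000400080c0102))))) (.nd (nat_lit 7) 
(.nd (nat_lit 9) (.nd (nat_lit 8) 
(.lf (nat_lit 5234543623) (dlOf (nat_lit 1) (nat_lit 0x8008001c00200080008055f83))) 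
(.lf (nat_lit 268485895) (dlOf (nat_lit 1) (nat_lit 0x20008001800200080008052f83)))) 
(.nd (nat_lit 27) (.lf (nat_lit 268486151) (dlOf (nat_lit 1) (nat_lit 0x3c004000a0008053682))) 
(.lf (nat_lit 6308283911) (dlOf (nat_lit 1) (nat_lit 0x400400020008053682))))) (.nd (nat_lit 8) 
(.nd (nat_lit 26) 
(.lf (nat_lit 1342229639) (dlOf (nat_lit 1) (nat_lit 0x6f000800e000200240008006183))) 
(.lf (nat_lit 1409338503) (dlOf (nat_lit 1) (nat_lit 0x60028006181)))) 
(.lf (nat_lit 4026582919) (dlOf (nat_lit 3) (nat_lit 0xe02b000098100060158000480802b8008011000200580008004183)))))) 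
(.nd (nat_lit 27) (.nd (nat_lit 29) (.nd (nat_lit 7) (.nd (nat_lit 8) 
(.lf (nat_lit 3494428743) (dlOf (nat_lit 3) (nat_lit 0x1100d000a804200030148032008c015003c002a0000001306000a0118000900806d8008012000200400008220c83))) 
(.lf (nat_lit 1409338695) (dlOf (nat_lit 2) (nat_lit 0x405f00006818006980)))) 
(.lf (nat_lit 1342231495) (dlOf (nat_lit 1) (nat_lit 0x40028009201)))) (.nd (nat_lit 7) 
(.nd (nat_lit 10) (.lf (nat_lit 1881194567) (dlOf (nat_lit 1) (nat_lit 0x1c0008e40601))) 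
(.lf (nat_lit 5100323911) (dlOf (nat_lit 1) (nat_lit 0x8008000400200020008052883)))) 
(.lf (nat_lit 5100323015) (dlOf (nat_lit 1) (nat_lit 0x40018050801))))) (.nd (nat_lit 8) 
(.nd (nat_lit 10) (.nd (nat_lit 19) 
(.lf (nat_lit 5234540615) (dlOf (nat_lit 1) (nat_lit 0x10000400960008050002))) 
(.lf (nat_lit 3154690119) (dlOf (nat_lit 2) (nat_lit 0x4e80b0000660400c400200a40008310082)))) 
(.lf (nat_lit 6308283463) (dlOf (nat_lit 1) (nat_lit 0x8008000400200020008052883)))) 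
(.nd (nat_lit 9) (.nd (nat_lit 19) 
(.lf (nat_lit 6376440135) (dlOf (nat_lit 1) (nat_lit 0x140018090c81))) 
(.lf (nat_lit 3154690375) (dlOf (nat_lit 2) (nat_lit 0x5e02c00000018310780)))) 
(.lf (nat_lit 4227914567) (dlOf (nat_lit 2) (nat_lit 0x2200320057d01800bc80)))))))) 
(.nd (nat_lit 30) (.nd (nat_lit 6) (.nd (nat_lit 28) (.nd (nat_lit 19) (.nd (nat_lit 8) 
(.nd (nat_lit 21) (.nd (nat_lit 22) 
(.lf (nat_lit 68468743) (dlOf (nat_lit 1) (nat_lit 0x400400020008580482))) 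
(.lf (nat_lit 22331399) (dlOf (nat_lit 1) (nat_lit 0x400400020008ac0002)))) 
(.lf (nat_lit 24428551) (dlOf (nat_lit 1) (nat_lit 0x220018ba0001)))) (.nd (nat_lit 7) 
(.nd (nat_lit 9) (.lf (nat_lit 314631) (dlOf (nat_lit 1) (nat_lit 0x20028006681))) 
(.lf (nat_lit 2885994247) (dlOf (nat_lit 1) (nat_lit 0x400400020008143b82)))) 
(.lf (nat_lit 23380359) (dlOf (nat_lit 1) (nat_lit 0x40008053c00201860008b80783))))) 
(.nd (nat_lit 20) (.nd (nat_lit 21) (.nd (nat_lit 22) 
(.lf (nat_lit 17612807) (dlOf (nat_lit 1) (nat_lit 0x5a00188e0001))) 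
(.lf (nat_lit 13418503) (dlOf (nat_lit 1) (nat_lit 0x40008011800200520008720403)))) 
(.lf (nat_lit 28098567) (dlOf (nat_lit 2) (nat_lit 0x12bb800b3204003000400060018d50002)))) 
(.nd (nat_lit 7) (.lf (nat_lit 2755444743) (dlOf (nat_lit 1) (nat_lit 0x80018190001))) 
(.lf (nat_lit 50119815) (dlOf (nat_lit 1) (nat_lit 0x600294c2b01)))))) (.nd (nat_lit 27) 
(.nd (nat_lit 29) 
(.lf (nat_lit 4563714055) (dlOf (nat_lit 8) (nat_lit 0x802f00050168002007c0322c0c001405e000e02d000600f8064541800280bc002003e0191304000a02f00080168004007c032220c001805e0187002000a02f00070168003807c030de0c002005e000602d000b00f8061b41801200080008002000c00080c0003))) 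
(.nd (nat_lit 31) 
(.lf (nat_lit 805617671) (dlOf (nat_lit 2) (nat_lit 0x80380018000000920400100008140581))) 
(.lf (nat_lit 2953101319) (dlOf (nat_lit 2) (nat_lit 0x8401400080030017d41000b000800bc002000a0008120003))))) 
(.nd (nat_lit 7) (.nd (nat_lit 26) 
(.lf (nat_lit 4697931783) (dlOf (nat_lit 8) (nat_lit 0x802f00050168002007c038c60c001405e000e02d000600f8071881800280bc002003e01c6004000a02f00080168004007c038bc0c001805e01bd602000a02f00070168003807c037aa0c002005e000602d000b00f806f4c1801200080008002000c00080c0003))) 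
(.lf (nat_lit 3154427911) (dlOf (nat_lit 1) (nat_lit 0x1140008170001)))) 
(.lf (nat_lit 402964615) (dlOf (nat_lit 1) (nat_lit 0xc004000600080c0e02)))))) (.nd (nat_lit 24) 
(.nd (nat_lit 26) (.nd (nat_lit 7) (.nd (nat_lit 10) 
(.lf (nat_lit 9224263) (dlOf (nat_lit 1) (nat_lit 0x20018530601))) 
(.lf (nat_lit 314439) (dlOf (nat_lit 1) (nat_lit 0x20028006081)))) 
(.lf (nat_lit 6711197895) (dlOf (nat_lit 1) (nat_lit 0x8004000400080c1782)))) (.nd (nat_lit 8) 
(.lf (nat_lit 474267719) (dlOf (nat_lit 1) (nat_lit 0x20019100601))) 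
(.lf (nat_lit 6509871431) (dlOf (nat_lit 1) (nat_lit 0x20028154c01))))) (.nd (nat_lit 9) 
(.nd (nat_lit 8) (.nd (nat_lit 19) 
(.lf (nat_lit 26525767) (dlOf (nat_lit 2) (nat_lit 0x306c20000b21800028080108002006c0008c50602))) 
(.lf (nat_lit 21807175) (dlOf (nat_lit 1) (nat_lit 0x20028a70881)))) 
(.lf (nat_lit 56935751) (dlOf (nat_lit 1) (nat_lit 0x3c00400060009793302)))) (.nd (nat_lit 7) 
(.lf (nat_lit 23380551) (dlOf (nat_lit 1) (nat_lit 0x8008000400200020008b81103))) 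
(.lf (nat_lit 20239047) (dlOf (nat_lit 1) (nat_lit 0x4002000200089d8c82))))))) (.nd (nat_lit 28) 
(.nd (nat_lit 27) (.nd (nat_lit 6) (.nd (nat_lit 7) 
(.lf (nat_lit 1678032903) (dlOf (nat_lit 2) (nat_lit 0x80380018000000920400100008140581))) 
(.nd (nat_lit 32) (.lf (nat_lit 1074053255) (dlOf (nat_lit 1) (nat_lit 0x400400020008090102))) 
(.lf (nat_lit 5369020551) (dlOf (nat_lit 1) (nat_lit 0x68002000e00080c0e02))))) (.nd (nat_lit 8) 
(.lf (nat_lit 3288645703) (dlOf (nat_lit 5) (nat_lit 0x14c05c0001e0200b202e000090100520170000440803080b80001e040134004014600080a0e02))) 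
(.nd (nat_lit 26) (.lf (nat_lit 5905891655) (dlOf (nat_lit 1) (nat_lit 0x20028154c01))) 
(.lf (nat_lit 3825516871) (dlOf (nat_lit 1) (nat_lit 0x8008000400200020008187f03)))))) 
(.nd (nat_lit 29) (.nd (nat_lit 6) (.nd (nat_lit 31) 
(.lf (nat_lit 1208270855) (dlOf (nat_lit 2) (nat_lit 0x60250038a8180b0000))) 
(.lf (nat_lit 3355754503) (dlOf (nat_lit 1) (nat_lit 0x400280f0001)))) 
(.lf (nat_lit 1208270919) (dlOf (nat_lit 1) (nat_lit 0x900080118002003c00080b0603)))) 
(.nd (nat_lit 7) (.lf (nat_lit 6040109063) (dlOf (nat_lit 1) (nat_lit 0xc004000200080f0002))) 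
(.lf (nat_lit 6107218055) (dlOf (nat_lit 1) (nat_lit 0x80080004002000200080c0f03)))))) 
(.nd (nat_lit 6) (.nd (nat_lit 7) (.nd (nat_lit 20) (.nd (nat_lit 8) 
(.lf (nat_lit 2080686087) (dlOf (nat_lit 2) (nat_lit 0x60250065f8180b0000))) 
(.lf (nat_lit 1543815431) (dlOf (nat_lit 1) (nat_lit 0x580028187281)))) (.nd (nat_lit 19) 
(.lf (nat_lit 1343537159) (dlOf (nat_lit 3) (nat_lit 0x81f8009ca0400080fc004d30200480008290001))) 
(.lf (nat_lit 3493642247) (dlOf (nat_lit 1) (nat_lit 0x80018190001))))) (.nd (nat_lit 26) 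
(.nd (nat_lit 27) 
(.lf (nat_lit 5637456007) (dlOf (nat_lit 3) (nat_lit 0xc011002b0068009002e000360600b001901620000000c8100058008008c002000200080f0e03))) 
(.lf (nat_lit 6308544647) (dlOf (nat_lit 1) (nat_lit 0x4004000200080f0f02)))) (.nd (nat_lit 29) 
(.lf (nat_lit 5704564871) (dlOf (nat_lit 2) (nat_lit 0x2080800006404000c004000600080f0e02))) 
(.lf (nat_lit 1946468487) (dlOf (nat_lit 1) (nat_lit 0x400400020008090102)))))) (.nd (nat_lit 21) 
(.nd (nat_lit 8) 
(.lf (nat_lit 2080686151) (dlOf (nat_lit 1) (nat_lit 0x900080118002003c00080b0603))) 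
(.nd (nat_lit 9) 
(.lf (nat_lit 3489975623) (dlOf (nat_lit 3) (nat_lit 0x5823000101160000e04000e08c0006045800034100020008001800200040008006983))) 
(.lf (nat_lit 3489979207) (dlOf (nat_lit 1) (nat_lit 0x2002800bc81))))) (.nd (nat_lit 10) 
(.nd (nat_lit 19) (.lf (nat_lit 3492069447) (dlOf (nat_lit 1) (nat_lit 0x18002000400080a0e02))) 
(.lf (nat_lit 1346158663) (dlOf (nat_lit 2) (nat_lit 0x1300a60098035c002b408006800400060008e60602)))) 
(.lf (nat_lit 1345635399) (dlOf (nat_lit 1) (nat_lit 0x12c002002e0008dd2882))))))))) 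
(.nd (nat_lit 18) (.nd (nat_lit 6) (.nd (nat_lit 19) (.nd (nat_lit 27) (.nd (nat_lit 7) 
(.nd (nat_lit 10) (.nd (nat_lit 20) (.nd (nat_lit 9) (.nd (nat_lit 22) 
(.lf (nat_lit 25214991) (dlOf (nat_lit 1) (nat_lit 0x20008bf0881))) 
(.lf (nat_lit 21020687) (dlOf (nat_lit 1) (nat_lit 0x700008a00381)))) 
(.lf (nat_lit 536926735) (dlOf (nat_lit 1) (nat_lit 0x2a002800b281)))) (.nd (nat_lit 21) 
(.lf (nat_lit 1343275023) (dlOf (nat_lit 2) (nat_lit 0x2000000c7e040020002002600081e0482))) 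
(.lf (nat_lit 15777807) (dlOf (nat_lit 1) (nat_lit 0x28008000800200060008830183))))) 
(.nd (nat_lit 8) (.lf (nat_lit 2147533839) (dlOf (nat_lit 1) (nat_lit 0x40018002881))) 
(.lf (nat_lit 3288386831) (dlOf (nat_lit 1) (nat_lit 0x280080048002001a0008006703))))) 
(.nd (nat_lit 8) (.lf (nat_lit 11583631) (dlOf (nat_lit 1) (nat_lit 0xf4002007c00086c0102))) 
(.nd (nat_lit 11) (.lf (nat_lit 5100323215) (dlOf (nat_lit 1) (nat_lit 0x400400060018051002))) 
(.lf (nat_lit 2483079567) (dlOf (nat_lit 1) (nat_lit 0x11c0028004e81)))))) (.nd (nat_lit 7) 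
(.nd (nat_lit 11) (.nd (nat_lit 30) 
(.lf (nat_lit 2818622479) (dlOf (nat_lit 1) (nat_lit 0x40028082881))) 
(.lf (nat_lit 3892364303) (dlOf (nat_lit 1) (nat_lit 0x60028082881)))) (.nd (nat_lit 9) 
(.lf (nat_lit 402705423) (dlOf (nat_lit 1) (nat_lit 0x6a0008000400200540008005f83))) 
(.lf (nat_lit 2348866063) (dlOf (nat_lit 1) (nat_lit 0x40040002001800b282))))) (.nd (nat_lit 9) 
(.nd (nat_lit 10) (.lf (nat_lit 5570085263) (dlOf (nat_lit 1) (nat_lit 0x400400020008051002))) 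
(.lf (nat_lit 134270351) (dlOf (nat_lit 1) (nat_lit 0x20008006c81)))) 
(.lf (nat_lit 6643827599) (dlOf (nat_lit 1) (nat_lit 0x800400020008002582)))))) (.nd (nat_lit 26) 
(.nd (nat_lit 21) (.nd (nat_lit 10) (.nd (nat_lit 20) 
(.lf (nat_lit 805879823) (dlOf (nat_lit 4) (nat_lit 0x280b0002802e0011804000c02d000800100020168003c40807b80080060002000800081d0083))) 
(.lf (nat_lit 10010639) (dlOf (nat_lit 10) (nat_lit 0x14398009480200061cc004a38100010e6002514080030730012860400083ac000c1ca00060e2800285e000fa01000043ac000a1ca00090e2800405e000f9e100004394000a1c500080bc001f34180008758001439400121c500070bc001f2c20000872800796040008004000a00085a0a02)))) 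
(.lf (nat_lit 60345359) (dlOf (nat_lit 1) (nat_lit 0x80080234002005c0009845f83)))) (.nd (nat_lit 9) 
(.nd (nat_lit 20) (.lf (nat_lit 11059215) (dlOf (nat_lit 1) (nat_lit 0x400400020018660182))) 
(.lf (nat_lit 3493380111) (dlOf (nat_lit 2) (nat_lit 0x9007001c0e04000c00200060008120882)))) 
(.lf (nat_lit 58245647) (dlOf (nat_lit 1) (nat_lit 0x60004002000097c7b82))))) (.nd (nat_lit 28) 
(.nd (nat_lit 20) (.nd (nat_lit 29) 
(.lf (nat_lit 4362649615) (dlOf (nat_lit 2) (nat_lit 0x2c809e0008702001c00180c0081))) 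
(.lf (nat_lit 1678295055) (dlOf (nat_lit 4) (nat_lit 0x280b0002802e0008704000c02d000398100020168001900807b80080060002000800081d0083)))) 
(.lf (nat_lit 2755182607) (dlOf (nat_lit 2) (nat_lit 0x9007000fc404000c00200060008120882)))) 
(.nd (nat_lit 27) (.lf (nat_lit 3557343247) (dlOf (nat_lit 2) (nat_lit 0x1e038000000181c0480))) 
(.nd (nat_lit 30) (.lf (nat_lit 3154690063) (dlOf (nat_lit 1) (nat_lit 0x3c00400200008310002))) 
(.lf (nat_lit 4228431887) (dlOf (nat_lit 2) (nat_lit 0x2c80900011802001c00180c0081)))))))) 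
(.nd (nat_lit 8) (.nd (nat_lit 19) (.nd (nat_lit 26) (.nd (nat_lit 7) (.nd (nat_lit 9) 
(.lf (nat_lit 1881194575) (dlOf (nat_lit 2) (nat_lit 0x1038c0000004001000400060008e40702))) 
(.lf (nat_lit 6308283983) (dlOf (nat_lit 1) (nat_lit 0x100080074002001a0008053883)))) 
(.lf (nat_lit 4026583247) (dlOf (nat_lit 1) (nat_lit 0x100018004a01)))) (.nd (nat_lit 9) 
(.nd (nat_lit 28) (.lf (nat_lit 6643826767) (dlOf (nat_lit 1) (nat_lit 0x160028000001))) 
(.lf (nat_lit 2080424015) (dlOf (nat_lit 1) (nat_lit 0x60018000001)))) 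
(.lf (nat_lit 4496344655) (dlOf (nat_lit 2) (nat_lit 0x1280680004c04001c004000a0018053882))))) 
(.nd (nat_lit 7) (.nd (nat_lit 20) (.nd (nat_lit 26) 
(.lf (nat_lit 3494428751) (dlOf (nat_lit 4) (nat_lit 0x40d00006042002800f0000b01800100a4006403c0002b04000c042000600f0000a81000800080164002003e0008220d03))) 
(.lf (nat_lit 2756231247) (dlOf (nat_lit 4) (nat_lit 0x40d00006042002800f0000b41800100a4006403c0002c04000c042000600f0000ac1000800080164002003e0008220d03)))) 
(.nd (nat_lit 26) 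
(.lf (nat_lit 3493380175) (dlOf (nat_lit 3) (nat_lit 0x381a4004c088000c02400050100000b02000301a40058088001002400080100000a8200198008001c002004e0008121003))) 
(.lf (nat_lit 2755182671) (dlOf (nat_lit 3) (nat_lit 0x381a4004c088000c02400050100000b42000301a40058088001002400080100000ac200198008001c002004e0008121003))))) 
(.nd (nat_lit 20) (.nd (nat_lit 26) 
(.lf (nat_lit 1342750927) (dlOf (nat_lit 1) (nat_lit 0x80080004002000200080c0483))) 
(.lf (nat_lit 470335695) (dlOf (nat_lit 1) (nat_lit 0x80080004002000200080c0483)))) 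
(.lf (nat_lit 4095262927) (dlOf (nat_lit 1) (nat_lit 0x400200020008081b82)))))) (.nd (nat_lit 7) 
(.nd (nat_lit 10) (.nd (nat_lit 11) (.nd (nat_lit 19) 
(.lf (nat_lit 16826703) (dlOf (nat_lit 1) (nat_lit 0x4004000200088e0802))) 
(.lf (nat_lit 3154690383) (dlOf (nat_lit 2) (nat_lit 0x2cc0580000002000a0008310801)))) 
(.lf (nat_lit 536922447) (dlOf (nat_lit 1) (nat_lit 0x280018004d81)))) (.nd (nat_lit 12) 
(.nd (nat_lit 28) 
(.lf (nat_lit 3288386895) (dlOf (nat_lit 1) (nat_lit 0x50008002800200360008006a03))) 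
(.lf (nat_lit 2483080527) (dlOf (nat_lit 1) (nat_lit 0x400400500008006a02)))) (.nd (nat_lit 20) 
(.lf (nat_lit 1342233935) (dlOf (nat_lit 1) (nat_lit 0x2c001800c901))) 
(.lf (nat_lit 19979599) (dlOf (nat_lit 1) (nat_lit 0x8c00189dc901)))))) (.nd (nat_lit 10) 
(.nd (nat_lit 11) (.lf (nat_lit 1342231503) (dlOf (nat_lit 1) (nat_lit 0x60008009201))) 
(.lf (nat_lit 4094741455) (dlOf (nat_lit 2) (nat_lit 0xa07c00006c0800280080004002000a0008055d83)))) 
(.nd (nat_lit 9) (.lf (nat_lit 19975631) (dlOf (nat_lit 2) (nat_lit 0x15b0a000e302000600189d6d01))) 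
(.nd (nat_lit 26) (.lf (nat_lit 536922063) (dlOf (nat_lit 2) (nat_lit 0x205f00006818004480))) 
(.lf (nat_lit 4362127311) (dlOf (nat_lit 1) (nat_lit 0x5000400020018004482))))))))) 
(.nd (nat_lit 30) (.nd (nat_lit 19) (.nd (nat_lit 26) (.nd (nat_lit 20) (.nd (nat_lit 22) 
(.nd (nat_lit 29) (.nd (nat_lit 10) 
(.lf (nat_lit 2282012687) (dlOf (nat_lit 2) (nat_lit 0x1c0120004502002a0018100181))) 
(.lf (nat_lit 312335) (dlOf (nat_lit 1) (nat_lit 0x20028002881)))) (.nd (nat_lit 28) 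
(.lf (nat_lit 2684665871) (dlOf (nat_lit 2) (nat_lit 0x1780000000004002400200160008130102))) 
(.lf (nat_lit 805617679) (dlOf (nat_lit 1) (nat_lit 0x8e0028140a01))))) (.nd (nat_lit 7) 
(.lf (nat_lit 12894223) (dlOf (nat_lit 5) (nat_lit 0x12a3c000b5140007a4c0000181800254940012a3c000b5140007a4c0000142000454940022a3c00135140006a4c00001020003d494001ea3c00135140007a4c00000c2000d00080038002000800086e0483))) 
(.lf (nat_lit 23380111) (dlOf (nat_lit 1) (nat_lit 0x8008000400200020008b80103))))) 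
(.nd (nat_lit 7) (.nd (nat_lit 24) 
(.lf (nat_lit 9748559) (dlOf (nat_lit 1) (nat_lit 0x10008000400200020008580503))) 
(.lf (nat_lit 26525775) (dlOf (nat_lit 2) (nat_lit 0x14d8400026430000941000b8008000800200360008c50703)))) 
(.nd (nat_lit 6) (.lf (nat_lit 20238735) (dlOf (nat_lit 1) (nat_lit 0x80080004002000200089d8383))) 
(.lf (nat_lit 13942991) (dlOf (nat_lit 1) (nat_lit 0x20008750481)))))) (.nd (nat_lit 29) 
(.nd (nat_lit 27) (.lf (nat_lit 2483339279) (dlOf (nat_lit 1) (nat_lit 0x280004000200080c0882))) 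
(.lf (nat_lit 2349121551) (dlOf (nat_lit 1) (nat_lit 0x1bc00080c0901)))) (.nd (nat_lit 6) 
(.nd (nat_lit 32) (.lf (nat_lit 872726543) (dlOf (nat_lit 1) (nat_lit 0x800080b0001))) 
(.lf (nat_lit 5167693839) (dlOf (nat_lit 1) (nat_lit 0x10008000800200020008110083)))) 
(.lf (nat_lit 872726607) (dlOf (nat_lit 2) (nat_lit 0x2680d801280620094022005800c8028805000084140018004000a00080b0682)))))) 
(.nd (nat_lit 21) (.nd (nat_lit 20) (.nd (nat_lit 22) (.nd (nat_lit 26) 
(.lf (nat_lit 2819407887) (dlOf (nat_lit 2) (nat_lit 0x2810c002e204002000400020008260182))) 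
(.lf (nat_lit 470597647) (dlOf (nat_lit 1) (nat_lit 0x8008000400200020008130883)))) 
(.lf (nat_lit 21807119) (dlOf (nat_lit 1) (nat_lit 0xe8008000400200280008a70483)))) 
(.nd (nat_lit 6) (.lf (nat_lit 10272783) (dlOf (nat_lit 1) (nat_lit 0x200185c0881))) 
(.lf (nat_lit 14467279) (dlOf (nat_lit 1) (nat_lit 0x400400020008750482))))) (.nd (nat_lit 22) 
(.nd (nat_lit 23) 
(.lf (nat_lit 2754396175) (dlOf (nat_lit 4) (nat_lit 0x104980003d02004620f0001d8100041260000e00800700080024002002600080e0103))) 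
(.lf (nat_lit 11321359) (dlOf (nat_lit 1) (nat_lit 0x390008000800200020008690103)))) 
(.nd (nat_lit 7) (.lf (nat_lit 15515663) (dlOf (nat_lit 1) (nat_lit 0x2000400200018800282))) 
(.lf (nat_lit 33343887) (dlOf (nat_lit 1) (nat_lit 0x40028f54e81))))))) (.nd (nat_lit 28) 
(.nd (nat_lit 26) (.nd (nat_lit 6) (.nd (nat_lit 32) 
(.lf (nat_lit 1745141775) (dlOf (nat_lit 1) (nat_lit 0x800080b0001))) 
(.lf (nat_lit 6040109071) (dlOf (nat_lit 1) (nat_lit 0x4004000200080f0482)))) (.nd (nat_lit 29) 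
(.lf (nat_lit 1208270927) (dlOf (nat_lit 9) (nat_lit 0xa1013000154080518098000a80401d004c00053020004000000288100ad01380008808025809c0002c04013804e000130200e0027000090180b0680))) 
(.lf (nat_lit 1745141839) (dlOf (nat_lit 2) (nat_lit 0x2680d801280620094022005800c8028805000084140018004000a00080b0682))))) 
(.nd (nat_lit 9) (.nd (nat_lit 27) 
(.lf (nat_lit 1678032911) (dlOf (nat_lit 1) (nat_lit 0x8e0028140a01))) 
(.lf (nat_lit 3422863375) (dlOf (nat_lit 4) (nat_lit 0x80330002501001c019802e00b000082080d6c064007202b0001d828130100)))) 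
(.lf (nat_lit 3959734799) (dlOf (nat_lit 1) (nat_lit 0xc00200160008128402))))) (.nd (nat_lit 27) 
(.nd (nat_lit 6) (.nd (nat_lit 21) 
(.lf (nat_lit 1343012879) (dlOf (nat_lit 1) (nat_lit 0x8008000400200020008130883))) 
(.lf (nat_lit 3492593679) (dlOf (nat_lit 4) (nat_lit 0x104680003d0200461fa0001d81000411a0000e00800700080024002002600080e0103)))) 
(.nd (nat_lit 7) (.lf (nat_lit 1346158671) (dlOf (nat_lit 2) (nat_lit 0x18214c0000b818e60700))) 
(.lf (nat_lit 3489975503) (dlOf (nat_lit 1) (nat_lit 0x3a0008006401))))) (.nd (nat_lit 26) 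
(.nd (nat_lit 10) 
(.lf (nat_lit 1476706319) (dlOf (nat_lit 2) (nat_lit 0x301e0000ac080040008003400200020008150203))) 
(.lf (nat_lit 5771676687) (dlOf (nat_lit 1) (nat_lit 0x400200020008005f82)))) (.nd (nat_lit 6) 
(.nd (nat_lit 7) 
(.lf (nat_lit 3691298831) (dlOf (nat_lit 2) (nat_lit 0x300a800660080040008000c00200060008120183))) 
(.lf (nat_lit 1543815311) (dlOf (nat_lit 1) (nat_lit 0x7800400100008183e82)))) 
(.lf (nat_lit 2080686159) (dlOf (nat_lit 9) (nat_lit 0xa1013000154080518098000a80401d004c00053020004000000288100ad01380008808025809c0002c04013804e000130200e0027000090180b0680)))))))))) 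
(.nd (nat_lit 18) (.nd (nat_lit 6) (.nd (nat_lit 3) (.nd (nat_lit 19) (.nd (nat_lit 8) 
(.nd (nat_lit 29) (.nd (nat_lit 10) (.nd (nat_lit 20) 
(.lf (nat_lit 52477991) (dlOf (nat_lit 1) (nat_lit 0x1000400060009540782))) 
(.lf (nat_lit 19972135) (dlOf (nat_lit 1) (nat_lit 0x600289d0001)))) 
(.lf (nat_lit 8442919) (dlOf (nat_lit 1) (nat_lit 0x8008001000200020008519203)))) (.nd (nat_lit 7) 
(.lf (nat_lit 2013317671) (dlOf (nat_lit 1) (nat_lit 0x20028005181))) (.nd (nat_lit 9) 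
(.lf (nat_lit 6308282535) (dlOf (nat_lit 1) (nat_lit 0x20028050581))) 
(.lf (nat_lit 2751514279) (dlOf (nat_lit 1) (nat_lit 0x38008005c002000a0008003a83)))))) 
(.nd (nat_lit 7) (.nd (nat_lit 9) (.nd (nat_lit 12) 
(.lf (nat_lit 268485927) (dlOf (nat_lit 1) (nat_lit 0x20008001000200060008053183))) 
(.lf (nat_lit 19977511) (dlOf (nat_lit 1) (nat_lit 0x380080020002000c00089d9803)))) 
(.nd (nat_lit 10) (.lf (nat_lit 1275120423) (dlOf (nat_lit 1) (nat_lit 0x1000400120018005c02))) 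
(.lf (nat_lit 2751514407) (dlOf (nat_lit 1) (nat_lit 0x20008000400200040008003d03))))) 
(.nd (nat_lit 12) (.nd (nat_lit 26) 
(.lf (nat_lit 6308283815) (dlOf (nat_lit 1) (nat_lit 0x40028053601))) 
(.lf (nat_lit 4898997671) (dlOf (nat_lit 2) (nat_lit 0x40380008e0200020018053601)))) 
(.lf (nat_lit 3691042215) (dlOf (nat_lit 1) (nat_lit 0x1c00400100008009902)))))) (.nd (nat_lit 22) 
(.nd (nat_lit 20) (.nd (nat_lit 8) (.nd (nat_lit 21) 
(.lf (nat_lit 3557343271) (dlOf (nat_lit 1) (nat_lit 0x4004000200181c0682))) 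
(.lf (nat_lit 11059239) (dlOf (nat_lit 1) (nat_lit 0xc00400040018660602)))) 
(.lf (nat_lit 470335783) (dlOf (nat_lit 1) (nat_lit 0x80080004002000200080c0503)))) 
(.nd (nat_lit 7) (.nd (nat_lit 9) 
(.lf (nat_lit 10010663) (dlOf (nat_lit 2) (nat_lit 0xe0e5000885e000278080050004009000085a0c02))) 
(.lf (nat_lit 60344871) (dlOf (nat_lit 1) (nat_lit 0x10008000400200040009845183)))) 
(.lf (nat_lit 37276071) (dlOf (nat_lit 1) (nat_lit 0x4002005600090d4e82))))) (.nd (nat_lit 21) 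
(.nd (nat_lit 28) (.nd (nat_lit 20) (.nd (nat_lit 24) 
(.lf (nat_lit 2756231207) (dlOf (nat_lit 2) (nat_lit 0x40ce0004041000ae828220980))) 
(.lf (nat_lit 21544999) (dlOf (nat_lit 1) (nat_lit 0x8008000400200020008a40283)))) 
(.lf (nat_lit 39370791) (dlOf (nat_lit 1) (nat_lit 0x60019190001)))) (.nd (nat_lit 31) 
(.lf (nat_lit 1346945063) (dlOf (nat_lit 1) (nat_lit 0x40019100001))) 
(.lf (nat_lit 3494428711) (dlOf (nat_lit 2) (nat_lit 0x40ce0004041000a6028220980))))) 
(.nd (nat_lit 24) 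
(.lf (nat_lit 48807975) (dlOf (nat_lit 2) (nat_lit 0xfaf00005d5240004e08000800400020019430782))) 
(.lf (nat_lit 32030759) (dlOf (nat_lit 1) (nat_lit 0xa0008ee0781))))))) (.nd (nat_lit 11) 
(.nd (nat_lit 19) (.nd (nat_lit 26) (.nd (nat_lit 8) (.nd (nat_lit 7) 
(.lf (nat_lit 3355492911) (dlOf (nat_lit 1) (nat_lit 0x20028001481))) 
(.lf (nat_lit 5100322991) (dlOf (nat_lit 1) (nat_lit 0x8008000c00200020008050603)))) 
(.nd (nat_lit 21) 
(.lf (nat_lit 939573551) (dlOf (nat_lit 1) (nat_lit 0x580080014002003000080b0503))) 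
(.lf (nat_lit 10535215) (dlOf (nat_lit 1) (nat_lit 0x60004000c00185f8402))))) (.nd (nat_lit 7) 
(.nd (nat_lit 27) 
(.lf (nat_lit 68206639) (dlOf (nat_lit 3) (nat_lit 0x106f0000500803f800000000040010002000e0008450702))) 
(.lf (nat_lit 470859823) (dlOf (nat_lit 4) (nat_lit 0x902b8003a0e40000d8200420000000540800d00000002804005c002002c00081c0702)))) 
(.nd (nat_lit 8) (.lf (nat_lit 5570085039) (dlOf (nat_lit 1) (nat_lit 0x400400020008050602))) 
(.lf (nat_lit 4898997679) (dlOf (nat_lit 2) (nat_lit 0x100380008e0200020018053601)))))) 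
(.nd (nat_lit 24) (.nd (nat_lit 7) 
(.lf (nat_lit 3557343279) (dlOf (nat_lit 2) (nat_lit 0x10090004a01600020028000501800080080004002000c00081c0703))) 
(.lf (nat_lit 1344849071) (dlOf (nat_lit 1) (nat_lit 0x400400040008982c02)))) (.nd (nat_lit 20) 
(.nd (nat_lit 22) (.lf (nat_lit 17350703) (dlOf (nat_lit 1) (nat_lit 0xc00288e0001))) 
(.lf (nat_lit 21545007) (dlOf (nat_lit 3) (nat_lit 0x100a7800d0524034828400de137000e0758000b8280bb05140520284002813600710748000ac200168008051000200220008a40383)))) 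
(.lf (nat_lit 26787887) (dlOf (nat_lit 1) (nat_lit 0x28008005800200100008c70903)))))) 
(.nd (nat_lit 26) (.nd (nat_lit 7) (.nd (nat_lit 10) (.nd (nat_lit 19) 
(.lf (nat_lit 41994799) (dlOf (nat_lit 1) (nat_lit 0x8004002a0009245182))) 
(.lf (nat_lit 20498991) (dlOf (nat_lit 1) (nat_lit 0x4002000400089d5182)))) 
(.lf (nat_lit 20500015) (dlOf (nat_lit 1) (nat_lit 0xa00289d7181)))) (.nd (nat_lit 8) 
(.lf (nat_lit 1879101103) (dlOf (nat_lit 1) (nat_lit 0x8008003800200020008007283))) 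
(.lf (nat_lit 54577583) (dlOf (nat_lit 1) (nat_lit 0x6c00400040009654e82))))) (.nd (nat_lit 27) 
(.nd (nat_lit 7) (.nd (nat_lit 10) 
(.lf (nat_lit 3556821551) (dlOf (nat_lit 1) (nat_lit 0x40028085181))) 
(.lf (nat_lit 2754661935) (dlOf (nat_lit 2) (nat_lit 0x940400004e02000600180f7181)))) 
(.lf (nat_lit 1677773231) (dlOf (nat_lit 1) (nat_lit 0x4e0008004e81)))) (.nd (nat_lit 7) 
(.nd (nat_lit 10) 
(.lf (nat_lit 472435247) (dlOf (nat_lit 3) (nat_lit 0xa09c0004601000204e00022c080050008000c00200020008985183))) 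
(.lf (nat_lit 2885733935) (dlOf (nat_lit 3) (nat_lit 0x1402200057020094031004b01780015010003000800cc00200ce0008007183)))) 
(.lf (nat_lit 3154168239) (dlOf (nat_lit 1) (nat_lit 0x10004000e0008084e82)))))))) (.nd (nat_lit 8) 
(.nd (nat_lit 11) (.nd (nat_lit 27) (.nd (nat_lit 9) (.nd (nat_lit 3) (.nd (nat_lit 7) 
(.lf (nat_lit 1881194599) (dlOf (nat_lit 1) (nat_lit 0x20018e40981))) 
(.lf (nat_lit 5100324071) (dlOf (nat_lit 2) (nat_lit 0x14038000450200120018052e01)))) 
(.lf (nat_lit 47235183) (dlOf (nat_lit 1) (nat_lit 0x100080008002000400093c0c83)))) 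
(.nd (nat_lit 7) (.nd (nat_lit 26) 
(.lf (nat_lit 5100324463) (dlOf (nat_lit 1) (nat_lit 0x8008000800200020008053983))) 
(.lf (nat_lit 4898997871) (dlOf (nat_lit 1) (nat_lit 0x400400020008053982)))) 
(.lf (nat_lit 2751514351) (dlOf (nat_lit 1) (nat_lit 0x24002000c0008003b02))))) (.nd (nat_lit 3) 
(.nd (nat_lit 7) 
(.lf (nat_lit 474529895) (dlOf (nat_lit 19) (nat_lit 0xdc108009a0160002b02007f04b00012808034825801880e6000480400de096006a03980011c1003f82580008a0401a412c00c40730002202008504b003f01cc000860806f412c037e08401c103a00de01cc0008410009412c0004102006e096003703980010010004025800240e60003e0400fe09600330420000f01001482580007604001812c000380200460960001b81003204b0007021000940e60003306004a0960000b81006900b00004c0801500080008002000e00091a0983))) 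
(.nd (nat_lit 10) (.lf (nat_lit 5771411687) (dlOf (nat_lit 1) (nat_lit 0x5c0018000a81))) 
(.lf (nat_lit 4966106343) (dlOf (nat_lit 1) (nat_lit 0x40018002e01))))) (.nd (nat_lit 9) 
(.lf (nat_lit 3691041903) (dlOf (nat_lit 1) (nat_lit 0x40008000400200040008009403))) 
(.nd (nat_lit 26) (.lf (nat_lit 6308284015) (dlOf (nat_lit 1) (nat_lit 0x400400020008053982))) 
(.lf (nat_lit 5570086511) (dlOf (nat_lit 1) (nat_lit 0x400400020008053982))))))) (.nd (nat_lit 30) 
(.nd (nat_lit 9) (.nd (nat_lit 3) 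
(.lf (nat_lit 575719) (dlOf (nat_lit 1) (nat_lit 0xc0004019c0008004b02))) 
(.lf (nat_lit 8445039) (dlOf (nat_lit 1) (nat_lit 0x8008000c0020006000851c103)))) (.nd (nat_lit 20) 
(.lf (nat_lit 46713447) (dlOf (nat_lit 1) (nat_lit 0xf0008008000200340009385383))) 
(.nd (nat_lit 21) 
(.lf (nat_lit 60344935) (dlOf (nat_lit 1) (nat_lit 0x10008000400200040009845383))) 
(.lf (nat_lit 20499047) (dlOf (nat_lit 1) (nat_lit 0x1c000800ec002003a00089d5383)))))) 
(.nd (nat_lit 26) (.nd (nat_lit 7) (.nd (nat_lit 29) 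
(.lf (nat_lit 5368760935) (dlOf (nat_lit 2) (nat_lit 0x1c024000000200040028005381))) 
(.lf (nat_lit 3758148199) (dlOf (nat_lit 1) (nat_lit 0x20008085381)))) (.nd (nat_lit 3) 
(.lf (nat_lit 4026583271) (dlOf (nat_lit 1) (nat_lit 0x18008000800200300008004b03))) 
(.lf (nat_lit 1342232815) (dlOf (nat_lit 2) (nat_lit 0xc09d000d03f0001d0100020008000c002000c000800a903))))) 
(.nd (nat_lit 27) (.lf (nat_lit 3556821607) (dlOf (nat_lit 1) (nat_lit 0x2000400020008085382))) 
(.nd (nat_lit 28) (.lf (nat_lit 1275120231) (dlOf (nat_lit 1) (nat_lit 0x2c00400020008005382))) 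
(.lf (nat_lit 2080426599) (dlOf (nat_lit 1) (nat_lit 0x7400400340008005382)))))))) 
(.nd (nat_lit 28) (.nd (nat_lit 7) (.nd (nat_lit 26) (.nd (nat_lit 3) (.nd (nat_lit 20) 
(.lf (nat_lit 671138151) (dlOf (nat_lit 3) (nat_lit 0xe68000000520407280000002702000200180b0701))) 
(.lf (nat_lit 3195239) (dlOf (nat_lit 1) (nat_lit 0x40018200701)))) 
(.lf (nat_lit 19979631) (dlOf (nat_lit 1) (nat_lit 0x28008002c002001a00089dc903)))) 
(.nd (nat_lit 9) (.nd (nat_lit 22) 
(.lf (nat_lit 3825254759) (dlOf (nat_lit 3) (nat_lit 0x49806c0005204028003600d200c000138280b0700))) 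
(.lf (nat_lit 2755707239) (dlOf (nat_lit 11) (nat_lit 0x111148000cc0801a88740006404007c43a0003102012e21d00018010042117806108b402fc44c019421700014840004117804f08b4010c4500136226005c10b80009c2804588a4023842a000250400ec22900a610a8000781003b08a4021442a0001d0400f0229008810a8000701000a8008010c002007200081b0703)))) 
(.lf (nat_lit 3288390503) (dlOf (nat_lit 1) (nat_lit 0x6001800bc81))))) (.nd (nat_lit 3) 
(.nd (nat_lit 9) (.lf (nat_lit 11583975) (dlOf (nat_lit 1) (nat_lit 0x27800200bc00086c0c82))) 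
(.lf (nat_lit 2751513575) (dlOf (nat_lit 1) (nat_lit 0x30008004c00200080008002883)))) 
(.nd (nat_lit 9) (.nd (nat_lit 11) 
(.lf (nat_lit 11583983) (dlOf (nat_lit 2) (nat_lit 0x1a72d001198186c0d80))) 
(.lf (nat_lit 40421871) (dlOf (nat_lit 1) (nat_lit 0x200291f4f01)))) 
(.lf (nat_lit 60345327) (dlOf (nat_lit 1) (nat_lit 0x560008028800200880009845f03)))))) 
(.nd (nat_lit 3) (.nd (nat_lit 27) (.nd (nat_lit 9) (.nd (nat_lit 22) 
(.lf (nat_lit 5100323175) (dlOf (nat_lit 1) (nat_lit 0x40028050f01))) 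
(.lf (nat_lit 3493904743) (dlOf (nat_lit 2) (nat_lit 0xf801c000148181b0700)))) 
(.lf (nat_lit 4026582887) (dlOf (nat_lit 1) (nat_lit 0x10800400320008004002)))) (.nd (nat_lit 7) 
(.nd (nat_lit 26) 
(.lf (nat_lit 3087057255) (dlOf (nat_lit 3) (nat_lit 0x49806c0005204028003600d200c000138280b0700))) 
(.lf (nat_lit 1543553383) (dlOf (nat_lit 3) (nat_lit 0xe68000000520407280000002702000200180b0701)))) 
(.lf (nat_lit 6375392231) (dlOf (nat_lit 2) (nat_lit 0x340280012013001fc0100478008009c00200020008002883))))) 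
(.nd (nat_lit 9) (.nd (nat_lit 10) 
(.lf (nat_lit 4095263087) (dlOf (nat_lit 1) (nat_lit 0x2400200080008085802))) (.nd (nat_lit 26) 
(.lf (nat_lit 1342233967) (dlOf (nat_lit 1) (nat_lit 0x100040004001800c902))) 
(.lf (nat_lit 4227915119) (dlOf (nat_lit 2) (nat_lit 0x4880c800cc40400680040008000800c902))))) 
(.nd (nat_lit 7) (.lf (nat_lit 4160799599) (dlOf (nat_lit 1) (nat_lit 0x140018002581))) 
(.lf (nat_lit 3154168815) (dlOf (nat_lit 1) (nat_lit 0x40028085f01))))))))) (.nd (nat_lit 3) 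
(.nd (nat_lit 6) (.nd (nat_lit 27) (.nd (nat_lit 19) (.nd (nat_lit 21) (.nd (nat_lit 11) 
(.nd (nat_lit 20) (.nd (nat_lit 26) 
(.lf (nat_lit 1879359527) (dlOf (nat_lit 1) (nat_lit 0x200080f0981))) 
(.lf (nat_lit 4362387495) (dlOf (nat_lit 2) (nat_lit 0x1004001e8000000000400580008050581)))) 
(.lf (nat_lit 22331431) (dlOf (nat_lit 1) (nat_lit 0x400400020008ac0482)))) 
(.lf (nat_lit 313383) (dlOf (nat_lit 1) (nat_lit 0x20028004701)))) (.nd (nat_lit 20) 
(.nd (nat_lit 22) (.lf (nat_lit 27574311) (dlOf (nat_lit 1) (nat_lit 0x8008000800200020008d00703))) 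
(.lf (nat_lit 6602791) (dlOf (nat_lit 2) (nat_lit 0x564d100097018430d80)))) (.nd (nat_lit 23) 
(.lf (nat_lit 7651367) (dlOf (nat_lit 2) (nat_lit 0x56a66000970184c0d80))) 
(.lf (nat_lit 32817191) (dlOf (nat_lit 1) (nat_lit 0x10008000400200020008f20783)))))) 
(.nd (nat_lit 20) (.nd (nat_lit 21) 
(.lf (nat_lit 59555879) (dlOf (nat_lit 14) (nat_lit 0x1233ee04e28b8067c44002a421f8131501800de80a043c3a0803a1c24000482400ec3f400331f90000b45801f67dc0aa11700d5a88005eb43f025c2030021501400047e004893a080461c24000482400983f4008d1f90000b0602832200119d018004400000015830740440025aa0301218e8200383f20001504034e44001e2a030035c00000029060844880034640600001c102f4a2000f6901807de3f400650000000182025a22000a5901800983f400002830015cfb801da2e80305112000288008f64060013a02c0800fc0115274104331fa01a80fc806147ae0000416003c8ba00bc4448002a200177101800027e0055c3a080d60fd0024c7e40000310066c80c02773a0800008101e922000141018000010400b2889060144001e4a0300834fc0020c741003c39b80009c24002c7e800ce3d70123000000000500b78008088000205de0009810783)))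 
(.nd (nat_lit 26) (.lf (nat_lit 3492593703) (dlOf (nat_lit 2) (nat_lit 0x12c1fd000390180e0500))) 
(.lf (nat_lit 2754396199) (dlOf (nat_lit 2) (nat_lit 0x12c212000390180e0500))))) (.nd (nat_lit 7) 
(.nd (nat_lit 9) 
(.lf (nat_lit 1346158631) (dlOf (nat_lit 4) (nat_lit 0x10598000c28a001a0cf00014830011102800a8598002428a002e0cf001b00e00009c280008070000140400d800400020008e60202))) 
(.lf (nat_lit 52218407) (dlOf (nat_lit 1) (nat_lit 0x20009515181)))) (.nd (nat_lit 10) 
(.lf (nat_lit 8180135) (dlOf (nat_lit 1) (nat_lit 0x20018518401))) 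
(.lf (nat_lit 8177063) (dlOf (nat_lit 1) (nat_lit 0x400200020008513602))))))) (.nd (nat_lit 26) 
(.nd (nat_lit 28) (.nd (nat_lit 29) (.nd (nat_lit 30) 
(.lf (nat_lit 2282012711) (dlOf (nat_lit 2) (nat_lit 0x188040000820400a400400140008100602))) 
(.lf (nat_lit 3355754535) (dlOf (nat_lit 1) (nat_lit 0xc00080f0801)))) 
(.lf (nat_lit 3892625447) (dlOf (nat_lit 1) (nat_lit 0x60008170881)))) (.nd (nat_lit 7) 
(.lf (nat_lit 4161060903) (dlOf (nat_lit 3) (nat_lit 0x401b000080100010158000380800080080004002000200080f0803))) 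
(.lf (nat_lit 4697931943) (dlOf (nat_lit 1) (nat_lit 0x800280c1381))))) (.nd (nat_lit 29) 
(.nd (nat_lit 7) (.nd (nat_lit 8) 
(.lf (nat_lit 5838782503) (dlOf (nat_lit 1) (nat_lit 0x200281b0001))) 
(.lf (nat_lit 5838782759) (dlOf (nat_lit 1) (nat_lit 0x200181b0501)))) 
(.lf (nat_lit 473744551) (dlOf (nat_lit 1) (nat_lit 0xd0008000400200640008fa2c03)))) 
(.nd (nat_lit 7) (.nd (nat_lit 30) 
(.lf (nat_lit 1006944295) (dlOf (nat_lit 1) (nat_lit 0x200080f0981))) 
(.lf (nat_lit 4228169767) (dlOf (nat_lit 2) (nat_lit 0x1004c01e8000000000400580008050581)))) 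
(.lf (nat_lit 738511783) (dlOf (nat_lit 1) (nat_lit 0x20008095d01))))))) (.nd (nat_lit 7) 
(.nd (nat_lit 19) (.nd (nat_lit 20) (.nd (nat_lit 26) (.nd (nat_lit 21) 
(.lf (nat_lit 1208270951) (dlOf (nat_lit 2) (nat_lit 0x1a0128013805400000080058004003000080b0d82))) 
(.lf (nat_lit 3492069479) (dlOf (nat_lit 1) (nat_lit 0x200180a1381)))) (.nd (nat_lit 27) 
(.lf (nat_lit 3288645735) (dlOf (nat_lit 1) (nat_lit 0x1200080a1381))) 
(.lf (nat_lit 2080686183) (dlOf (nat_lit 2) (nat_lit 0x1a0128013805400000080058004003000080b0d82))))) 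
(.nd (nat_lit 8) (.lf (nat_lit 60082791) (dlOf (nat_lit 1) (nat_lit 0xc000800f0002004a0009845383))) 
(.lf (nat_lit 3457383) (dlOf (nat_lit 2) (nat_lit 0x20bb9900019818200700))))) (.nd (nat_lit 8) 
(.nd (nat_lit 20) (.lf (nat_lit 42778727) (dlOf (nat_lit 2) (nat_lit 0x1200000000019280980))) 
(.lf (nat_lit 6078567) (dlOf (nat_lit 1) (nat_lit 0x400400020008420482)))) (.nd (nat_lit 26) 
(.lf (nat_lit 135053671) (dlOf (nat_lit 2) (nat_lit 0x2000000000181b0700))) 
(.lf (nat_lit 202162535) (dlOf (nat_lit 2) (nat_lit 0x2000000000181b0700)))))) (.nd (nat_lit 26) 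
(.nd (nat_lit 27) (.nd (nat_lit 8) (.nd (nat_lit 22) 
(.lf (nat_lit 5369020647) (dlOf (nat_lit 3) (nat_lit 0x29009c001c604008404c000d802000600080c1b81))) 
(.lf (nat_lit 21283047) (dlOf (nat_lit 1) (nat_lit 0x10008000400200140008a31d83)))) 
(.lf (nat_lit 3221537255) (dlOf (nat_lit 6) (nat_lit 0xb7e00e04cf006021b8000000480c163801c0b1600c055d000000088182d280380f6801804800000001003059300702bf8030160c0000001d06005600e0000d818127300)))) 
(.nd (nat_lit 28) 
(.lf (nat_lit 4966367463) (dlOf (nat_lit 1) (nat_lit 0x80080004002000200080c1d83))) 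
(.lf (nat_lit 6308544743) (dlOf (nat_lit 1) (nat_lit 0x4004000200180f1d82))))) (.nd (nat_lit 8) 
(.nd (nat_lit 27) (.nd (nat_lit 29) 
(.lf (nat_lit 335855847) (dlOf (nat_lit 1) (nat_lit 0x200280c1d81))) 
(.lf (nat_lit 6241435879) (dlOf (nat_lit 1) (nat_lit 0x4004000200080f1d82)))) 
(.lf (nat_lit 6107218151) (dlOf (nat_lit 1) (nat_lit 0x8004000200080c1d82)))) (.nd (nat_lit 9) 
(.lf (nat_lit 3959734759) (dlOf (nat_lit 1) (nat_lit 0x60028127d01))) 
(.lf (nat_lit 473744359) (dlOf (nat_lit 4) (nat_lit 0x1036400cf00400182ac001e0cd002748200030668013600801300080034002001c0008fa2883)))))))) 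
(.nd (nat_lit 21) (.nd (nat_lit 29) (.nd (nat_lit 7) (.nd (nat_lit 23) (.nd (nat_lit 26) 
(.nd (nat_lit 6) (.nd (nat_lit 9) (.nd (nat_lit 27) (.nd (nat_lit 28) 
(.lf (nat_lit 4295278639) (dlOf (nat_lit 1) (nat_lit 0x4004000200080f0e82))) 
(.lf (nat_lit 268746799) (dlOf (nat_lit 1) (nat_lit 0xc40028120381)))) 
(.lf (nat_lit 1208270895) (dlOf (nat_lit 1) (nat_lit 0x400180b0481)))) 
(.lf (nat_lit 21283375) (dlOf (nat_lit 1) (nat_lit 0x10008000400200020008a38003)))) 
(.lf (nat_lit 318575) (dlOf (nat_lit 1) (nat_lit 0x2002800c101)))) (.nd (nat_lit 6) 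
(.nd (nat_lit 28) (.lf (nat_lit 2214903855) (dlOf (nat_lit 1) (nat_lit 0xc0028110681))) 
(.lf (nat_lit 2483339311) (dlOf (nat_lit 2) (nat_lit 0x600d0001a8180c0e80)))) 
(.lf (nat_lit 3288645743) (dlOf (nat_lit 1) (nat_lit 0x4004000200080a1582))))) (.nd (nat_lit 19) 
(.lf (nat_lit 26525743) (dlOf (nat_lit 1) (nat_lit 0x9800200720008c50482))) (.nd (nat_lit 20) 
(.lf (nat_lit 9224239) (dlOf (nat_lit 1) (nat_lit 0x5c00400020018530482))) 
(.lf (nat_lit 27050031) (dlOf (nat_lit 5) (nat_lit 0x2d60000001f010022a7a800b00000006e0800469ea000350200214f50001000000000100040008020000200360008ca0703)))))) 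
(.nd (nat_lit 8) (.nd (nat_lit 6) (.nd (nat_lit 10) 
(.lf (nat_lit 317615) (dlOf (nat_lit 1) (nat_lit 0x4002800a881))) 
(.lf (nat_lit 34391215) (dlOf (nat_lit 1) (nat_lit 0x8008000400200020008fb2c03)))) 
(.lf (nat_lit 6442762479) (dlOf (nat_lit 1) (nat_lit 0x8004000200081b0482)))) (.nd (nat_lit 20) 
(.lf (nat_lit 313775) (dlOf (nat_lit 1) (nat_lit 0x400400a80008004e82))) 
(.lf (nat_lit 39111087) (dlOf (nat_lit 1) (nat_lit 0x400400020009194e82)))))) (.nd (nat_lit 8) 
(.nd (nat_lit 6) (.nd (nat_lit 9) 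
(.lf (nat_lit 2080686127) (dlOf (nat_lit 1) (nat_lit 0x400180b0481))) 
(.lf (nat_lit 738511407) (dlOf (nat_lit 1) (nat_lit 0x800200040008095182)))) 
(.lf (nat_lit 4026843247) (dlOf (nat_lit 1) (nat_lit 0x4004000200080a1582)))) (.nd (nat_lit 9) 
(.nd (nat_lit 27) 
(.lf (nat_lit 537182511) (dlOf (nat_lit 1) (nat_lit 0x170008002800200040008048403))) 
(.nd (nat_lit 28) 
(.lf (nat_lit 671400239) (dlOf (nat_lit 2) (nat_lit 0x8000004c70200020028188401))) 
(.lf (nat_lit 3087319343) (dlOf (nat_lit 1) (nat_lit 0x3800400060018188402))))) 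
(.lf (nat_lit 738511663) (dlOf (nat_lit 1) (nat_lit 0x400400020008095c02)))))) (.nd (nat_lit 19) 
(.nd (nat_lit 6) (.nd (nat_lit 20) (.nd (nat_lit 22) 
(.lf (nat_lit 27574319) (dlOf (nat_lit 1) (nat_lit 0x3c00200060008d00902))) 
(.lf (nat_lit 6602799) (dlOf (nat_lit 2) (nat_lit 0x2409a20000e0200120008430e81)))) 
(.nd (nat_lit 9) (.nd (nat_lit 22) 
(.lf (nat_lit 62177327) (dlOf (nat_lit 3) (nat_lit 0x419400040270001ec1000106fc001409c0007a0400140029970d01))) 
(.lf (nat_lit 7651375) (dlOf (nat_lit 2) (nat_lit 0x2414cc0000e02001200084c0e81)))) 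
(.lf (nat_lit 2754924079) (dlOf (nat_lit 2) (nat_lit 0x182200009c040008002000400080f7182))))) 
(.nd (nat_lit 7) (.nd (nat_lit 10) 
(.lf (nat_lit 23380079) (dlOf (nat_lit 1) (nat_lit 0x8008007000200240008b80003))) 
(.lf (nat_lit 56935535) (dlOf (nat_lit 1) (nat_lit 0x20019792a01)))) 
(.lf (nat_lit 23380463) (dlOf (nat_lit 2) (nat_lit 0x17c38000544080048008000800200080008b80d83))))) 
(.nd (nat_lit 8) (.nd (nat_lit 20) (.nd (nat_lit 26) 
(.lf (nat_lit 3492593711) (dlOf (nat_lit 4) (nat_lit 0x343f6000560200221fc0000981000f0fe00004008004800800cc002004600080e0683))) 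
(.lf (nat_lit 2754396207) (dlOf (nat_lit 4) (nat_lit 0x34420000560200222110000981000f10880004008004800800cc002004600080e0683)))) 
(.nd (nat_lit 6) 
(.lf (nat_lit 2755444783) (dlOf (nat_lit 1) (nat_lit 0x8008000400200020008190903))) 
(.lf (nat_lit 45924463) (dlOf (nat_lit 1) (nat_lit 0xd400200220009372482))))) (.nd (nat_lit 6) 
(.nd (nat_lit 7) (.lf (nat_lit 20764463) (dlOf (nat_lit 1) (nat_lit 0x200289da101))) 
(.lf (nat_lit 8177071) (dlOf (nat_lit 1) (nat_lit 0x400200020008513602)))) 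
(.lf (nat_lit 33343983) (dlOf (nat_lit 1) (nat_lit 0x40028f54f01)))))))))))

end

end Pool.Agent.Lib.MP_5854e1_co.Cz
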