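import Pool.Agent.Lib.MP_5854e1_co.DecRow

/-!
# Sparse corrections
-/

set_option autoImplicit false
set_option maxRecDepth 100000

namespace Pool.Agent.Lib.MP_5854e1_co.Cz

noncomputable section

noncomputable def tz170 : DT := (.nd (nat_lit 3) (.nd (nat_lit 2) (.nd (nat_lit 6) 
(.nd (nat_lit 18) (.nd (nat_lit 5) (.nd (nat_lit 28) (.nd (nat_lit 22) (.nd (nat_lit 11) 
(.nd (nat_lit 19) (.nd (nat_lit 9) 
(.lf (nat_lit 26329090) (dlOf (nat_lit 1) (nat_lit 0x20018c30001))) 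
(.lf (nat_lit 8507906) (dlOf (nat_lit 1) (nat_lit 0x400400020018518682)))) (.nd (nat_lit 21) 
(.lf (nat_lit 1678360578) (dlOf (nat_lit 1) (nat_lit 0x380080038002002e00081f0003))) 
(.lf (nat_lit 27901954) (dlOf (nat_lit 1) (nat_lit 0x28008000400200040008d40003))))) 
(.nd (nat_lit 12) (.nd (nat_lit 9) 
(.lf (nat_lit 1677838466) (dlOf (nat_lit 1) (nat_lit 0x18008000400200020008114783))) 
(.lf (nat_lit 1208076930) (dlOf (nat_lit 1) (nat_lit 0x400400020008095482)))) (.nd (nat_lit 7) 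
(.lf (nat_lit 1677842434) (dlOf (nat_lit 1) (nat_lit 0xe80080040002001a000811a603))) 
(.lf (nat_lit 3221347714) (dlOf (nat_lit 1) (nat_lit 0x48004000a001811c902)))))) (.nd (nat_lit 8) 
(.nd (nat_lit 19) (.nd (nat_lit 20) 
(.lf (nat_lit 23183362) (dlOf (nat_lit 1) (nat_lit 0x40028b60001))) 
(.lf (nat_lit 47300610) (dlOf (nat_lit 1) (nat_lit 0x10004000200093d0002)))) (.nd (nat_lit 11) 
(.nd (nat_lit 20) (.lf (nat_lit 21610498) (dlOf (nat_lit 2) (nat_lit 0x9d7a00b97818a50000))) 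
(.lf (nat_lit 16367618) (dlOf (nat_lit 22) (nat_lit 0xe56b000623b0019001000311d800c7e040018ad6000c4760031e82002d2b58012923000588ec0063c06004856b0018246000a91d800c720c0018ad6000c4760031b8200192b5800a9230001c8ec0063606002256b000723b0018cc1000115ac00c5a040074ad6000848c003148200072b58018a00800195ac00c4a04008cad6001048c003110200202b58018800800115ac00c3e04001cad60061d02000e56b0030e01002a2b58001123000c36080070ad60061802002456a0030401000523b0016a008017800800b400200020008890003)))) 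
(.lf (nat_lit 7981058) (dlOf (nat_lit 1) (nat_lit 0x20008001800200080008514703))))) 
(.nd (nat_lit 7) (.nd (nat_lit 9) 
(.lf (nat_lit 7980290) (dlOf (nat_lit 1) (nat_lit 0x500080024002000a0008512f03))) 
(.lf (nat_lit 39963394) (dlOf (nat_lit 1) (nat_lit 0x600291f5a81)))) 
(.lf (nat_lit 7980930) (dlOf (nat_lit 1) (nat_lit 0x400400020008514182)))))) (.nd (nat_lit 26) 
(.nd (nat_lit 27) (.nd (nat_lit 19) (.nd (nat_lit 20) 
(.lf (nat_lit 4563517442) (dlOf (nat_lit 2) (nat_lit 0x20178060ec0800e0008006000200420008090003))) 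
(.lf (nat_lit 1343340546) (dlOf (nat_lit 1) (nat_lit 0x560018200001)))) (.nd (nat_lit 20) 
(.lf (nat_lit 805945346) (dlOf (nat_lit 1) (nat_lit 0x380080038002002e00081f0003))) 
(.lf (nat_lit 3491348482) (dlOf (nat_lit 2) (nat_lit 0x5857001abc04004400400940008090002))))) 
(.nd (nat_lit 9) (.nd (nat_lit 8) 
(.lf (nat_lit 5772001282) (dlOf (nat_lit 1) (nat_lit 0x38008000800200020008030003))) 
(.lf (nat_lit 402769154) (dlOf (nat_lit 1) (nat_lit 0x400400020008092f02)))) (.nd (nat_lit 31) 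
(.lf (nat_lit 939640578) (dlOf (nat_lit 1) (nat_lit 0x40028143b81))) 
(.lf (nat_lit 3087124226) (dlOf (nat_lit 1) (nat_lit 0x8008000400200020008143b83)))))) 
(.nd (nat_lit 19) (.nd (nat_lit 7) (.nd (nat_lit 8) 
(.lf (nat_lit 2617360386) (dlOf (nat_lit 1) (nat_lit 0xbe00180a0001))) 
(.lf (nat_lit 2080490754) (dlOf (nat_lit 1) (nat_lit 0x400400020008092f02)))) (.nd (nat_lit 8) 
(.lf (nat_lit 335661698) (dlOf (nat_lit 1) (nat_lit 0x400400020008095482))) 
(.lf (nat_lit 5704371074) (dlOf (nat_lit 2) (nat_lit 0x600c800558080030008005800200060008055c03))))) 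
(.nd (nat_lit 21) (.nd (nat_lit 7) 
(.lf (nat_lit 6375981058) (dlOf (nat_lit 1) (nat_lit 0x38008000800200020008030003))) 
(.lf (nat_lit 6375981186) (dlOf (nat_lit 1) (nat_lit 0x10c002000c0008030e02)))) (.nd (nat_lit 8) 
(.lf (nat_lit 4096376834) (dlOf (nat_lit 1) (nat_lit 0x10002000a0008100002))) 
(.lf (nat_lit 473547010) (dlOf (nat_lit 1) (nat_lit 0xc00200020008f63582)))))))) (.nd (nat_lit 19) 
(.nd (nat_lit 26) (.nd (nat_lit 8) (.nd (nat_lit 10) (.nd (nat_lit 20) 
(.lf (nat_lit 63029282) (dlOf (nat_lit 1) (nat_lit 0x4002000200099c0182))) 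
(.lf (nat_lit 1163298) (dlOf (nat_lit 1) (nat_lit 0x60018080501)))) 
(.lf (nat_lit 1881261090) (dlOf (nat_lit 1) (nat_lit 0x2000400040008e82882)))) (.nd (nat_lit 7) 
(.nd (nat_lit 20) (.lf (nat_lit 6406434) (dlOf (nat_lit 1) (nat_lit 0x140018420701))) 
(.lf (nat_lit 20037922) (dlOf (nat_lit 1) (nat_lit 0x80080004002000200089d0a83)))) (.nd (nat_lit 9) 
(.lf (nat_lit 1208076706) (dlOf (nat_lit 1) (nat_lit 0x3880018094e81))) 
(.lf (nat_lit 939640738) (dlOf (nat_lit 1) (nat_lit 0x20018144281)))))) (.nd (nat_lit 8) 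
(.nd (nat_lit 7) (.nd (nat_lit 9) 
(.lf (nat_lit 2214707234) (dlOf (nat_lit 3) (nat_lit 0x808c0002604000404c000202300007828040700))) 
(.lf (nat_lit 6509678114) (dlOf (nat_lit 1) (nat_lit 0x4c0018147181)))) 
(.lf (nat_lit 1677838498) (dlOf (nat_lit 1) (nat_lit 0x20008000800200020008114883)))) 
(.nd (nat_lit 11) (.nd (nat_lit 10) 
(.lf (nat_lit 6376505634) (dlOf (nat_lit 1) (nat_lit 0xc000400120008090a82))) 
(.lf (nat_lit 2080490786) (dlOf (nat_lit 1) (nat_lit 0x20018093101)))) (.nd (nat_lit 7) 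
(.lf (nat_lit 1677842722) (dlOf (nat_lit 1) (nat_lit 0x6002811ab81))) 
(.lf (nat_lit 335661474) (dlOf (nat_lit 1) (nat_lit 0x26c0018094e81))))))) (.nd (nat_lit 21) 
(.nd (nat_lit 26) (.nd (nat_lit 7) (.nd (nat_lit 20) (.nd (nat_lit 27) 
(.lf (nat_lit 805945378) (dlOf (nat_lit 3) (nat_lit 0x802d000178100060168000b80800500080010002001800081f0b83))) 
(.lf (nat_lit 3892953122) (dlOf (nat_lit 10) (nat_lit 0x4402a0003813c0050098001a04a0042019800100c4001c048000e022000500e8001806c019402c00c6014000ff8c004702a00018144003009e000804c000d025002280cc000803600b8016005900a0007f4480188150000409e001404a00040120002808800e0028001fc0c000c0540006027800280cc00280480014022000b00e80079c300020090000c03a001e604007e0190009001004c00c8004600801880640022e040104032001160200ae00282a0a81)))) 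
(.lf (nat_lit 5881890) (dlOf (nat_lit 1) (nat_lit 0xc00400020008400702)))) (.nd (nat_lit 8) 
(.lf (nat_lit 60407970) (dlOf (nat_lit 2) (nat_lit 0x528f0000a004003c00400080009852b82))) 
(.lf (nat_lit 3491348898) (dlOf (nat_lit 2) (nat_lit 0x70fd001d0c08004000800cc00200020008090783))))) 
(.nd (nat_lit 27) (.nd (nat_lit 29) 
(.lf (nat_lit 4362715170) (dlOf (nat_lit 2) (nat_lit 0x180168000000801980080060002004000080e0b83))) 
(.lf (nat_lit 1678360610) (dlOf (nat_lit 3) (nat_lit 0x802d000178100060168000b80800500080010002001800081f0b83)))) 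
(.nd (nat_lit 30) 
(.lf (nat_lit 3154755618) (dlOf (nat_lit 2) (nat_lit 0x40480001302000a0028320d01))) 
(.lf (nat_lit 4228497442) (dlOf (nat_lit 2) (nat_lit 0x180160000000801980080060002004000080e0b83)))))) 
(.nd (nat_lit 22) (.nd (nat_lit 23) 
(.lf (nat_lit 2736162) (dlOf (nat_lit 1) (nat_lit 0x200181a0b81))) 
(.lf (nat_lit 11124770) (dlOf (nat_lit 1) (nat_lit 0x100008660501)))) (.nd (nat_lit 8) 
(.nd (nat_lit 23) (.lf (nat_lit 6930466) (dlOf (nat_lit 1) (nat_lit 0xc00400020008490702))) 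
(.lf (nat_lit 48873506) (dlOf (nat_lit 2) (nat_lit 0x2e0f80002a819440180)))) 
(.lf (nat_lit 7984418) (dlOf (nat_lit 1) (nat_lit 0x29000803e400202600008519783)))))))) 
(.nd (nat_lit 5) (.nd (nat_lit 29) (.nd (nat_lit 19) (.nd (nat_lit 21) (.nd (nat_lit 26) 
(.nd (nat_lit 22) (.nd (nat_lit 27) 
(.lf (nat_lit 6442827778) (dlOf (nat_lit 2) (nat_lit 0x2019000200bc01d0a080004004002a00081d0002))) 
(.lf (nat_lit 3355820034) (dlOf (nat_lit 8) (nat_lit 0xde02f002200680360c1002680bc04b405a01d402b01530150060802801afc1401e406401a8031002b016008f004805fc02200cbf0a016c0120065e010136019003080b0052c02400c2b0600f00320061401007c015800080480000008011400400420008120002)))) 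
(.lf (nat_lit 12959746) (dlOf (nat_lit 4) (nat_lit 0x552500e30010003a9280717808000d494037a6040018004000800086f0002)))) 
(.nd (nat_lit 27) 
(.lf (nat_lit 3288711170) (dlOf (nat_lit 3) (nat_lit 0x140000013d02006401e000000180c0000))) 
(.lf (nat_lit 2617622530) (dlOf (nat_lit 5) (nat_lit 0x29002c0047081002b018803780b006e4054008da0606ac02e002b014802d004400e2a0c02c4060070202f00b5014801a70180070008001000200180008100003))))) 
(.nd (nat_lit 20) (.nd (nat_lit 22) 
(.lf (nat_lit 61194242) (dlOf (nat_lit 1) (nat_lit 0x400198d0001))) 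
(.lf (nat_lit 48611330) (dlOf (nat_lit 1) (nat_lit 0x20019420001)))) (.nd (nat_lit 7) 
(.lf (nat_lit 7716866) (dlOf (nat_lit 1) (nat_lit 0x400184d0001))) 
(.lf (nat_lit 3522690) (dlOf (nat_lit 2) (nat_lit 0x2a3430000bc080040008000400200040008200103)))))) 
(.nd (nat_lit 22) (.nd (nat_lit 26) (.nd (nat_lit 10) 
(.lf (nat_lit 42844162) (dlOf (nat_lit 1) (nat_lit 0x400400020009280002))) 
(.lf (nat_lit 3492660226) (dlOf (nat_lit 1) (nat_lit 0x200180f2881)))) (.nd (nat_lit 31) 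
(.lf (nat_lit 1410187266) (dlOf (nat_lit 1) (nat_lit 0x40018180001))) 
(.lf (nat_lit 3557670914) (dlOf (nat_lit 1) (nat_lit 0x9000800e8002001a00082a0003))))) 
(.nd (nat_lit 21) (.nd (nat_lit 23) 
(.lf (nat_lit 22921218) (dlOf (nat_lit 3) (nat_lit 0x220000065f810066de20000000800800080010002000c0008b40003))) 
(.lf (nat_lit 14532610) (dlOf (nat_lit 2) (nat_lit 0x546f8000000800580080014002001c0008760003)))) 
(.nd (nat_lit 8) (.lf (nat_lit 15581186) (dlOf (nat_lit 1) (nat_lit 0x1e0028800001))) 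
(.lf (nat_lit 8242946) (dlOf (nat_lit 1) (nat_lit 0x10008000400200020008513b83))))))) 
(.nd (nat_lit 28) (.nd (nat_lit 19) (.nd (nat_lit 26) 
(.lf (nat_lit 1610989570) (dlOf (nat_lit 7) (nat_lit 0x30100035a808022808001ad20400e0040009e9020080020004f28100220100025800800e0080012be040044004003800080b0002))) 
(.nd (nat_lit 27) 
(.lf (nat_lit 1678098434) (dlOf (nat_lit 8) (nat_lit 0x5a022000e80b402d040801400880167d02005a0440021021800480b002c420c014c088015fb0200a204400af6810001016800380b00295c08002005a0149702004e0018180001))) 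
(.lf (nat_lit 738574338) (dlOf (nat_lit 7) (nat_lit 0x3010001f0408022808000f800400e00400044802008002000222010022010000f3c0800e008000794040044004003800080b0002))))) 
(.nd (nat_lit 7) (.nd (nat_lit 27) 
(.lf (nat_lit 537772034) (dlOf (nat_lit 1) (nat_lit 0x40018180001))) 
(.lf (nat_lit 2819473410) (dlOf (nat_lit 1) (nat_lit 0x9000800e8002001a00082a0003)))) 
(.lf (nat_lit 2754464130) (dlOf (nat_lit 1) (nat_lit 0x200180f4e81))))) (.nd (nat_lit 30) 
(.nd (nat_lit 26) (.nd (nat_lit 32) 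
(.lf (nat_lit 805683202) (dlOf (nat_lit 8) (nat_lit 0x1016800380b002c4208002005a015fb0200b4044001d01680544c10028011002a1c0400b4088004204300090160052b81802981100292e0401440880147e02004e0018180001))) 
(.lf (nat_lit 5100650498) (dlOf (nat_lit 1) (nat_lit 0x20028110001)))) 
(.lf (nat_lit 1007009794) (dlOf (nat_lit 1) (nat_lit 0x13800400380008140002)))) (.nd (nat_lit 21) 
(.nd (nat_lit 31) (.lf (nat_lit 1879425026) (dlOf (nat_lit 1) (nat_lit 0x13800400380008140002))) 
(.lf (nat_lit 4026908674) (dlOf (nat_lit 3) (nat_lit 0x14000001ce02006401e000000180c0000)))) 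
(.lf (nat_lit 1881522178) (dlOf (nat_lit 3) (nat_lit 0x1381c601c8b02000a0e0000503c006e681000c0008003400200340008f40003))))))) 
(.nd (nat_lit 22) (.nd (nat_lit 29) (.nd (nat_lit 25) (.nd (nat_lit 26) (.nd (nat_lit 7) 
(.lf (nat_lit 1342554146) (dlOf (nat_lit 2) (nat_lit 0x50e38000a40800580080050002001c0008050c03))) 
(.lf (nat_lit 11911586) (dlOf (nat_lit 1) (nat_lit 0x12d00081214002054200086c0783)))) 
(.nd (nat_lit 27) 
(.lf (nat_lit 3288711202) (dlOf (nat_lit 3) (nat_lit 0x400000015020020000000000180c0b00))) 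
(.lf (nat_lit 470138914) (dlOf (nat_lit 2) (nat_lit 0x50e38000a40800580080050002001c0008050c03))))) 
(.nd (nat_lit 10) 
(.lf (nat_lit 33931298) (dlOf (nat_lit 2) (nat_lit 0x107380003004000800200060008f80702))) 
(.lf (nat_lit 51233826) (dlOf (nat_lit 1) (nat_lit 0x7e0009512881))))) (.nd (nat_lit 26) 
(.nd (nat_lit 27) (.nd (nat_lit 28) 
(.lf (nat_lit 1610989602) (dlOf (nat_lit 2) (nat_lit 0x26052000a60180b0200))) 
(.lf (nat_lit 4026908706) (dlOf (nat_lit 3) (nat_lit 0x40000000e020020000000000180c0b00)))) 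
(.lf (nat_lit 3892690978) (dlOf (nat_lit 2) (nat_lit 0x1408e00c1b02000200281c0701)))) 
(.nd (nat_lit 7) (.lf (nat_lit 738574370) (dlOf (nat_lit 2) (nat_lit 0x26052000ae8180b0200))) 
(.lf (nat_lit 2754464162) (dlOf (nat_lit 1) (nat_lit 0x200180f4e81)))))) (.nd (nat_lit 20) 
(.nd (nat_lit 26) (.nd (nat_lit 31) 
(.lf (nat_lit 1346748450) (dlOf (nat_lit 22) (nat_lit 0x15c12c00b0085005e03a802f81cc00fc03e0004e0a00b4096005b042803101d401880e6008401f0002685004404680012c0801e023400d80fa0004a04007a08d003603e8001241000a82580008c0401a412c00d4085007103a803681cc00fc03e000430a00d2096006a042803781d401c00e6007a01f0002105007e05780398254011011a00fc01400020840032046801581f4000800800f011a006c07d0001f8201d404b00ea821407400ea03a6073009f00f8000f82805482580007a0403e412c01f408500fa03a807c01cc00a003e0003c0a009409600410398000ec100090258000740401cc12c0003902005209600230398000e010024825800a011a008c0730001b83009604b004881cc0006a0800d812c002408d00019829000180))) 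
(.lf (nat_lit 3494232098) (dlOf (nat_lit 4) (nat_lit 0x20144000c0a0000204e000101e801f5c20002815000300a20014050000602700020134000407a007d60c0028054000502980020144000c0a0000204e000101e801f503000a800800d8002000600081d0a03)))) 
(.lf (nat_lit 2756034594) (dlOf (nat_lit 4) (nat_lit 0x20144000c0a0000204e000101e80354820002815000300a20014050000602700020134000407a00d510c0028054000502980020144000c0a0000204e000101e80353c3000a800800d8002000600081d0a03)))) 
(.nd (nat_lit 8) (.nd (nat_lit 21) 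
(.lf (nat_lit 30785570) (dlOf (nat_lit 1) (nat_lit 0x1a0008e50a81))) 
(.lf (nat_lit 49659938) (dlOf (nat_lit 1) (nat_lit 0x400400020009480182)))) (.nd (nat_lit 7) 
(.lf (nat_lit 8246562) (dlOf (nat_lit 1) (nat_lit 0x40028519781))) 
(.lf (nat_lit 8242594) (dlOf (nat_lit 1) (nat_lit 0x400200020008513602))))))))) (.nd (nat_lit 18) 
(.nd (nat_lit 10) (.nd (nat_lit 26) (.nd (nat_lit 5) (.nd (nat_lit 11) (.nd (nat_lit 19) 
(.nd (nat_lit 20) (.nd (nat_lit 21) 
(.lf (nat_lit 25280578) (dlOf (nat_lit 1) (nat_lit 0x20008bf0c01))) 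
(.lf (nat_lit 10600514) (dlOf (nat_lit 3) (nat_lit 0xa65000117010007328000000080080008000800200060008600d83)))) 
(.lf (nat_lit 17940546) (dlOf (nat_lit 1) (nat_lit 0xe0018900e01)))) (.nd (nat_lit 7) 
(.nd (nat_lit 9) (.lf (nat_lit 134856770) (dlOf (nat_lit 1) (nat_lit 0x8004002600180d0c02))) 
(.lf (nat_lit 3491349058) (dlOf (nat_lit 3) (nat_lit 0x260f60000480803a87b000203c200461ca00230a0801184d000000140004004009a0018091082)))) 
(.lf (nat_lit 5772001474) (dlOf (nat_lit 3) (nat_lit 0xa4028000150100210138000a008014000800cc00200a40008031b03))))) 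
(.nd (nat_lit 7) (.nd (nat_lit 9) 
(.lf (nat_lit 671205698) (dlOf (nat_lit 1) (nat_lit 0x4000400220008144d02))) 
(.lf (nat_lit 20040514) (dlOf (nat_lit 1) (nat_lit 0x4002000200089d5c02)))) (.nd (nat_lit 8) 
(.lf (nat_lit 7981250) (dlOf (nat_lit 1) (nat_lit 0x400400020008514982))) 
(.lf (nat_lit 5234609090) (dlOf (nat_lit 1) (nat_lit 0x80018055d81)))))) (.nd (nat_lit 7) 
(.nd (nat_lit 8) (.nd (nat_lit 9) 
(.lf (nat_lit 645218) (dlOf (nat_lit 1) (nat_lit 0x20008000c0020008000800a803))) 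
(.lf (nat_lit 1208076898) (dlOf (nat_lit 1) (nat_lit 0x400400020008095382)))) (.nd (nat_lit 9) 
(.lf (nat_lit 3493970274) (dlOf (nat_lit 1) (nat_lit 0x80080004002000200081b0703))) 
(.lf (nat_lit 20040546) (dlOf (nat_lit 1) (nat_lit 0x300080008002000200089d5c03))))) 
(.nd (nat_lit 20) (.nd (nat_lit 23) 
(.lf (nat_lit 1344389346) (dlOf (nat_lit 2) (nat_lit 0x5500000005404000800400300018740582))) 
(.lf (nat_lit 44155106) (dlOf (nat_lit 1) (nat_lit 0x6200292d1b01)))) (.nd (nat_lit 9) 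
(.lf (nat_lit 7454946) (dlOf (nat_lit 2) (nat_lit 0x1bc3fd000150184b0580))) 
(.lf (nat_lit 7983842) (dlOf (nat_lit 1) (nat_lit 0x8008000400200020008518c83))))))) 
(.nd (nat_lit 31) (.nd (nat_lit 11) (.nd (nat_lit 7) (.nd (nat_lit 27) 
(.lf (nat_lit 1409925186) (dlOf (nat_lit 1) (nat_lit 0x4002000200080a0e02))) 
(.lf (nat_lit 201965634) (dlOf (nat_lit 1) (nat_lit 0x8004002600180d0c02)))) (.nd (nat_lit 5) 
(.lf (nat_lit 473547202) (dlOf (nat_lit 1) (nat_lit 0x1c0018f67a81))) 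
(.lf (nat_lit 1140965602) (dlOf (nat_lit 2) (nat_lit 0x60000000b018031b00))))) (.nd (nat_lit 5) 
(.nd (nat_lit 8) 
(.lf (nat_lit 473025090) (dlOf (nat_lit 2) (nat_lit 0x1823e0005f0200080008c35201))) 
(.lf (nat_lit 1677838658) (dlOf (nat_lit 1) (nat_lit 0x40028114d01)))) 
(.lf (nat_lit 335661666) (dlOf (nat_lit 1) (nat_lit 0x400400020008095382))))) (.nd (nat_lit 9) 
(.nd (nat_lit 8) (.nd (nat_lit 27) 
(.lf (nat_lit 2483142722) (dlOf (nat_lit 16) (nat_lit 0xb002a012001400018060000840c01380500004102006202e0049015806380a800e805201700280017013805b8060012c02e0146010001700780480038012401a012600c000d00580258024017c00600ca0000001e11007a015007d00a000ec0300003b06009a02a00c501400460060000740c003805600a402a00230148007009c00d4020001c00f0007005800a80000007220003c054000380200460280001901009c0140000b00800b00a0000560401900500002502008002800140080000881000f80a00004204004c05400620280000c82007b015004380a000000080060004008e0008030e02))) 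
(.lf (nat_lit 2348924994) (dlOf (nat_lit 16) (nat_lit 0xb002a012001400018060000840c01380500004102006202c0049015806380a800e805201700280017013805b8060012c02e0146010001700780480038012401a012600c000d00580258020017c00600ca0000001e11007a015007d00a000ec0300003b06009a02a00c501400460060000740c003805600a402a00230148007009c00d4020001c00f0007005800a80000007220003c054000380200460280001901009c0140000bc0800b00a00005c0401900500002502008002800140080000881000f80a00004204004c05400620280000c82007b015004380a000000080060004008e0008030e02)))) 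
(.nd (nat_lit 5) (.lf (nat_lit 3959540034) (dlOf (nat_lit 1) (nat_lit 0x40028114d01))) 
(.lf (nat_lit 2755772770) (dlOf (nat_lit 1) (nat_lit 0x80080050002001600081b0703))))) 
(.nd (nat_lit 5) (.nd (nat_lit 11) 
(.lf (nat_lit 2753151554) (dlOf (nat_lit 3) (nat_lit 0x260ff00004408004080c01d43fc00461df00230a0801184d000000140004004009a0018091082))) 
(.lf (nat_lit 3959544386) (dlOf (nat_lit 3) (nat_lit 0x2009c0003102003e0260000001811b500)))) 
(.lf (nat_lit 3556887266) (dlOf (nat_lit 1) (nat_lit 0x200280d5981))))))) (.nd (nat_lit 26) 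
(.nd (nat_lit 19) (.nd (nat_lit 8) (.nd (nat_lit 5) (.nd (nat_lit 7) 
(.lf (nat_lit 5905695810) (dlOf (nat_lit 1) (nat_lit 0x400400020008142882))) 
(.lf (nat_lit 32621762) (dlOf (nat_lit 2) (nat_lit 0x5a0280004a04000400400020018ef2d02)))) 
(.nd (nat_lit 7) (.lf (nat_lit 33670242) (dlOf (nat_lit 1) (nat_lit 0x8008000400200020008f52983))) 
(.lf (nat_lit 6576787170) (dlOf (nat_lit 1) (nat_lit 0x1e0018147381))))) (.nd (nat_lit 11) 
(.nd (nat_lit 9) (.lf (nat_lit 116034) (dlOf (nat_lit 1) (nat_lit 0x400400020008003302))) 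
(.lf (nat_lit 536987458) (dlOf (nat_lit 1) (nat_lit 0x8008000400200020008003e03)))) 
(.nd (nat_lit 12) (.lf (nat_lit 805424450) (dlOf (nat_lit 1) (nat_lit 0x20028116901))) 
(.lf (nat_lit 3221347650) (dlOf (nat_lit 2) (nat_lit 0x301c001a0808001000800040020004000811c903)))))) 
(.nd (nat_lit 5) (.nd (nat_lit 7) 
(.lf (nat_lit 49923138) (dlOf (nat_lit 1) (nat_lit 0x4004000200094c2882))) (.nd (nat_lit 20) 
(.lf (nat_lit 32097474) (dlOf (nat_lit 1) (nat_lit 0x400200060008ef2d02))) 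
(.lf (nat_lit 47826114) (dlOf (nat_lit 1) (nat_lit 0x40009402d01))))) (.nd (nat_lit 11) 
(.nd (nat_lit 20) (.lf (nat_lit 38388834) (dlOf (nat_lit 1) (nat_lit 0x1b000200c20009132982))) 
(.lf (nat_lit 62506082) (dlOf (nat_lit 1) (nat_lit 0x1200299a2981)))) (.nd (nat_lit 7) 
(.lf (nat_lit 7986274) (dlOf (nat_lit 2) (nat_lit 0x24b00003301851c000))) 
(.lf (nat_lit 642274) (dlOf (nat_lit 4) (nat_lit 0xe144000309c000204cc00101d000035080010144000b099800583a0000680c00242880012138000a099800403a00005410002800400080008006502))))))) 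
(.nd (nat_lit 8) (.nd (nat_lit 11) (.nd (nat_lit 27) (.nd (nat_lit 30) 
(.lf (nat_lit 2751579202) (dlOf (nat_lit 1) (nat_lit 0x68008003400200020008002883))) 
(.lf (nat_lit 1677837378) (dlOf (nat_lit 1) (nat_lit 0x800400020008112882)))) 
(.lf (nat_lit 3959538754) (dlOf (nat_lit 1) (nat_lit 0x10008000400200020008112883)))) 
(.nd (nat_lit 7) (.lf (nat_lit 3825323074) (dlOf (nat_lit 1) (nat_lit 0xea0018146081))) 
(.lf (nat_lit 1812057282) (dlOf (nat_lit 1) (nat_lit 0x800400220018146382))))) (.nd (nat_lit 9) 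
(.nd (nat_lit 11) (.lf (nat_lit 4093756738) (dlOf (nat_lit 1) (nat_lit 0x80028003301))) 
(.lf (nat_lit 6509677890) (dlOf (nat_lit 1) (nat_lit 0x20028146901)))) (.nd (nat_lit 5) 
(.lf (nat_lit 469878594) (dlOf (nat_lit 2) (nat_lit 0x202500006404000c00200020008003e02))) 
(.lf (nat_lit 469882850) (dlOf (nat_lit 2) (nat_lit 0x3e1c7002ad81800a600)))))))) (.nd (nat_lit 21) 
(.nd (nat_lit 5) (.nd (nat_lit 27) (.nd (nat_lit 22) (.nd (nat_lit 7) (.nd (nat_lit 19) 
(.nd (nat_lit 20) 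
(.lf (nat_lit 1610989634) (dlOf (nat_lit 2) (nat_lit 0x120154006406e0002022000130380b0580))) 
(.lf (nat_lit 1425474) (dlOf (nat_lit 4) (nat_lit 0x900000006008000858000081c60038071001a03280005820013058000a41c60000004004e00280c0e01)))) 
(.lf (nat_lit 901186) (dlOf (nat_lit 1) (nat_lit 0x18008000800200040008030e03)))) 
(.lf (nat_lit 59098306) (dlOf (nat_lit 1) (nat_lit 0x800297e2d01)))) (.nd (nat_lit 20) 
(.nd (nat_lit 8) 
(.lf (nat_lit 1346748482) (dlOf (nat_lit 1) (nat_lit 0x50008003800200100009000603))) 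
(.lf (nat_lit 21348674) (dlOf (nat_lit 2) (nat_lit 0xaa6d004e6818a34c00)))) (.nd (nat_lit 7) 
(.lf (nat_lit 47562818) (dlOf (nat_lit 1) (nat_lit 0x5a0029400001))) 
(.lf (nat_lit 47563970) (dlOf (nat_lit 1) (nat_lit 0x40009402d01)))))) (.nd (nat_lit 29) 
(.nd (nat_lit 7) (.nd (nat_lit 10) 
(.lf (nat_lit 474333250) (dlOf (nat_lit 5) (nat_lit 0x2242000111b000087300004380001170800021c00007d810001121000088d80004398000f706000222e0001112800206c80000c0c000400200100009150d82))) 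
(.lf (nat_lit 5772264514) (dlOf (nat_lit 1) (nat_lit 0x4800803ec00200c40008092883)))) 
(.lf (nat_lit 5773312194) (dlOf (nat_lit 1) (nat_lit 0x4002000200080c1702)))) (.nd (nat_lit 7) 
(.nd (nat_lit 8) 
(.lf (nat_lit 738574402) (dlOf (nat_lit 2) (nat_lit 0x120154006406e0002022000128380b0580))) 
(.lf (nat_lit 2886059842) (dlOf (nat_lit 1) (nat_lit 0x3800200100008143e02)))) 
(.lf (nat_lit 2080751810) (dlOf (nat_lit 1) (nat_lit 0x200180c1701)))))) (.nd (nat_lit 19) 
(.nd (nat_lit 26) (.nd (nat_lit 10) (.nd (nat_lit 22) 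
(.lf (nat_lit 1476771938) (dlOf (nat_lit 3) (nat_lit 0x8060001002e0016016000800880040040000c01e000c00e0008002000400080018000001c9140012017000bb8181a0480))) 
(.lf (nat_lit 1346748514) (dlOf (nat_lit 1) (nat_lit 0x280080004002000e0009000903)))) 
(.lf (nat_lit 38126690) (dlOf (nat_lit 1) (nat_lit 0x400200640009132982)))) (.nd (nat_lit 7) 
(.lf (nat_lit 872792162) (dlOf (nat_lit 1) (nat_lit 0x4002000200080d1b02))) (.nd (nat_lit 8) 
(.lf (nat_lit 4765108962) (dlOf (nat_lit 1) (nat_lit 0x60028125981))) 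
(.lf (nat_lit 2751841250) (dlOf (nat_lit 1) (nat_lit 0x400200020008002882)))))) (.nd (nat_lit 7) 
(.nd (nat_lit 8) (.lf (nat_lit 55428194) (dlOf (nat_lit 1) (nat_lit 0x200096d2981))) 
(.nd (nat_lit 26) (.lf (nat_lit 1879949666) (dlOf (nat_lit 1) (nat_lit 0x4e0018490701))) 
(.lf (nat_lit 1007534434) (dlOf (nat_lit 1) (nat_lit 0x4e0018490701))))) (.nd (nat_lit 20) 
(.lf (nat_lit 30261474) (dlOf (nat_lit 4) (nat_lit 0x55220000a80800aa918000420400f548c0001d0200020018e30581))) 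
(.lf (nat_lit 6144226) (dlOf (nat_lit 2) (nat_lit 0x699800015018420580))))))) (.nd (nat_lit 7) 
(.nd (nat_lit 20) (.nd (nat_lit 28) (.nd (nat_lit 22) (.nd (nat_lit 23) 
(.lf (nat_lit 2753937474) (dlOf (nat_lit 1) (nat_lit 0x600180a0d01))) 
(.lf (nat_lit 44417090) (dlOf (nat_lit 1) (nat_lit 0x560009310d81)))) 
(.lf (nat_lit 48611394) (dlOf (nat_lit 1) (nat_lit 0x20029420601)))) (.nd (nat_lit 5) 
(.lf (nat_lit 3492134978) (dlOf (nat_lit 1) (nat_lit 0x18000800a8002002600080a0e03))) 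
(.nd (nat_lit 10) (.lf (nat_lit 3492135010) (dlOf (nat_lit 1) (nat_lit 0x200280a1381))) 
(.lf (nat_lit 1009108066) (dlOf (nat_lit 1) (nat_lit 0x1880080674002015a0009082983)))))) 
(.nd (nat_lit 5) (.nd (nat_lit 8) (.nd (nat_lit 19) 
(.lf (nat_lit 53856834) (dlOf (nat_lit 1) (nat_lit 0x1e00095f5201))) 
(.lf (nat_lit 62769730) (dlOf (nat_lit 1) (nat_lit 0x800800c0002002600099a5203)))) 
(.nd (nat_lit 22) 
(.lf (nat_lit 3522882) (dlOf (nat_lit 2) (nat_lit 0x141a08007ccd6004a4e9002026c0000c8200010008003000200080008200603))) 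
(.lf (nat_lit 58048834) (dlOf (nat_lit 4) (nat_lit 0x390c8001a863003410200034300013a408004a180009b0040050004000c00097b8702))))) 
(.nd (nat_lit 8) (.nd (nat_lit 10) 
(.lf (nat_lit 49660002) (dlOf (nat_lit 1) (nat_lit 0x400200020009480902))) 
(.lf (nat_lit 8248418) (dlOf (nat_lit 2) (nat_lit 0x15438000cc0400080020002000851c002)))) 
(.lf (nat_lit 3522914) (dlOf (nat_lit 3) (nat_lit 0x846820022335801e13a40002a0c008cd04002466b000d2748014136000024100040004001a0008200702)))))) 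
(.nd (nat_lit 9) (.nd (nat_lit 5) (.nd (nat_lit 11) (.nd (nat_lit 19) 
(.lf (nat_lit 1009108162) (dlOf (nat_lit 4) (nat_lit 0x8c1c600040e20001402003407180007c0803b038c0000a0402bc00400920009082d02))) 
(.lf (nat_lit 32359618) (dlOf (nat_lit 2) (nat_lit 0xb33e000196500004b26000250600020018ef2d01)))) 
(.lf (nat_lit 2754989250) (dlOf (nat_lit 1) (nat_lit 0xc00080f6381)))) (.nd (nat_lit 19) 
(.lf (nat_lit 28688610) (dlOf (nat_lit 2) (nat_lit 0x4b4fc0000a8080008008000c00200080008da0583))) 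
(.lf (nat_lit 7192802) (dlOf (nat_lit 2) (nat_lit 0x63fd000150184b0580))))) (.nd (nat_lit 8) 
(.nd (nat_lit 5) (.lf (nat_lit 2754465474) (dlOf (nat_lit 1) (nat_lit 0x200280f7281))) 
(.lf (nat_lit 2754465506) (dlOf (nat_lit 1) (nat_lit 0x1c00280f7381)))) (.nd (nat_lit 10) 
(.lf (nat_lit 19780546) (dlOf (nat_lit 1) (nat_lit 0x4002000200089d9202))) 
(.lf (nat_lit 3492665282) (dlOf (nat_lit 1) (nat_lit 0x4004000200080fa602)))))))))) 
(.nd (nat_lit 5) (.nd (nat_lit 6) (.nd (nat_lit 18) (.nd (nat_lit 19) (.nd (nat_lit 28) 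
(.nd (nat_lit 8) (.nd (nat_lit 7) (.nd (nat_lit 9) 
(.lf (nat_lit 54643718) (dlOf (nat_lit 1) (nat_lit 0x800400020009655f82))) 
(.lf (nat_lit 8507910) (dlOf (nat_lit 1) (nat_lit 0x400400020018518682)))) 
(.lf (nat_lit 5503041670) (dlOf (nat_lit 1) (nat_lit 0x1c00400080008030e02)))) (.nd (nat_lit 7) 
(.nd (nat_lit 10) (.lf (nat_lit 41009414) (dlOf (nat_lit 1) (nat_lit 0x40009203581))) 
(.lf (nat_lit 35767558) (dlOf (nat_lit 1) (nat_lit 0x20019012f81)))) 
(.lf (nat_lit 20040582) (dlOf (nat_lit 1) (nat_lit 0x500080004002000400089d5c03))))) 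
(.nd (nat_lit 7) (.nd (nat_lit 8) (.nd (nat_lit 21) 
(.lf (nat_lit 268550150) (dlOf (nat_lit 1) (nat_lit 0x20028060001))) 
(.lf (nat_lit 3491872774) (dlOf (nat_lit 1) (nat_lit 0x100018090001)))) (.nd (nat_lit 10) 
(.lf (nat_lit 4094806790) (dlOf (nat_lit 1) (nat_lit 0x40028055b01))) 
(.lf (nat_lit 3492923142) (dlOf (nat_lit 1) (nat_lit 0x200280f3b81))))) (.nd (nat_lit 26) 
(.nd (nat_lit 27) 
(.lf (nat_lit 2952904838) (dlOf (nat_lit 2) (nat_lit 0x601c000200d800a80100161c0c020400400020018010282))) 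
(.lf (nat_lit 1476509830) (dlOf (nat_lit 2) (nat_lit 0x1101e00266c0803d00080010002000c0008010283)))) 
(.lf (nat_lit 3691102342) (dlOf (nat_lit 2) (nat_lit 0x4800000000040020002001a0008010282)))))) 
(.nd (nat_lit 26) (.nd (nat_lit 7) (.nd (nat_lit 8) (.nd (nat_lit 21) 
(.lf (nat_lit 805945350) (dlOf (nat_lit 1) (nat_lit 0x200281f0581))) 
(.lf (nat_lit 2736134) (dlOf (nat_lit 1) (nat_lit 0x400281a0581)))) 
(.lf (nat_lit 7980294) (dlOf (nat_lit 1) (nat_lit 0x20028512f81)))) (.nd (nat_lit 9) 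
(.nd (nat_lit 21) 
(.lf (nat_lit 5772001414) (dlOf (nat_lit 2) (nat_lit 0x20280002011800100600005a0c008400400160008030f02))) 
(.lf (nat_lit 23707782) (dlOf (nat_lit 1) (nat_lit 0x800200020008b80102)))) 
(.lf (nat_lit 20567686) (dlOf (nat_lit 1) (nat_lit 0x40002000800089d9e02))))) (.nd (nat_lit 27) 
(.nd (nat_lit 29) (.nd (nat_lit 28) 
(.lf (nat_lit 4362715142) (dlOf (nat_lit 1) (nat_lit 0x200180e0581))) 
(.lf (nat_lit 3557408774) (dlOf (nat_lit 1) (nat_lit 0x1a00181f0281)))) (.nd (nat_lit 20) 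
(.lf (nat_lit 1678360582) (dlOf (nat_lit 1) (nat_lit 0x200281f0581))) 
(.lf (nat_lit 2753150982) (dlOf (nat_lit 2) (nat_lit 0x5854800f6a04004400400940008090002))))) 
(.nd (nat_lit 7) (.nd (nat_lit 8) 
(.lf (nat_lit 4228497414) (dlOf (nat_lit 1) (nat_lit 0x200180e0581))) 
(.lf (nat_lit 473547014) (dlOf (nat_lit 1) (nat_lit 0x8800400040008f63582)))) 
(.lf (nat_lit 6375981190) (dlOf (nat_lit 2) (nat_lit 0x1002800620130034809401040460080020004100c0000b4300050008005c00200600008030e03))))))) 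
(.nd (nat_lit 19) (.nd (nat_lit 30) (.nd (nat_lit 21) (.nd (nat_lit 26) (.nd (nat_lit 22) 
(.lf (nat_lit 6442827782) (dlOf (nat_lit 4) (nat_lit 0x1601a003b7c0800400c801d4a04000805e00e3102001e00181d0001))) 
(.lf (nat_lit 29736966) (dlOf (nat_lit 1) (nat_lit 0x8008000400200020008e30003)))) 
(.nd (nat_lit 27) 
(.lf (nat_lit 3020275718) (dlOf (nat_lit 1) (nat_lit 0x580080048002000400081f0283))) 
(.lf (nat_lit 470138886) (dlOf (nat_lit 3) (nat_lit 0x161d1000b00100050e88003640800c000800e400200480008050583))))) 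
(.nd (nat_lit 7) 
(.lf (nat_lit 1009108230) (dlOf (nat_lit 1) (nat_lit 0x10008047800200d00009082f83))) 
(.nd (nat_lit 22) 
(.lf (nat_lit 11911302) (dlOf (nat_lit 2) (nat_lit 0xaea2800394980001d8286c0100))) 
(.lf (nat_lit 41271430) (dlOf (nat_lit 1) (nat_lit 0x5c0008011400200b40009233b03)))))) 
(.nd (nat_lit 26) (.nd (nat_lit 29) (.nd (nat_lit 8) 
(.lf (nat_lit 1342554118) (dlOf (nat_lit 3) (nat_lit 0x161d1000b00100050e88003640800c000800e400200480008050583))) 
(.lf (nat_lit 5772788998) (dlOf (nat_lit 1) (nat_lit 0x20028092f81)))) (.nd (nat_lit 21) 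
(.lf (nat_lit 4026908678) (dlOf (nat_lit 2) (nat_lit 0xc02000080080017f808001c004000400080c0402))) 
(.lf (nat_lit 1881522182) (dlOf (nat_lit 1) (nat_lit 0x16000800d800200540008f40003))))) 
(.nd (nat_lit 27) 
(.lf (nat_lit 3288711174) (dlOf (nat_lit 2) (nat_lit 0xc0200008008000cce08001c004000400080c0402))) 
(.lf (nat_lit 5838848006) (dlOf (nat_lit 4) (nat_lit 0x1601a0022e80800400c80110004000805e0080c02001e00181d0001)))))) 
(.nd (nat_lit 10) (.nd (nat_lit 26) (.nd (nat_lit 27) (.nd (nat_lit 28) 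
(.lf (nat_lit 537772038) (dlOf (nat_lit 1) (nat_lit 0x4c800800b000200520008180003))) 
(.lf (nat_lit 1343078406) (dlOf (nat_lit 1) (nat_lit 0x40008150001)))) (.nd (nat_lit 7) 
(.lf (nat_lit 2819473414) (dlOf (nat_lit 1) (nat_lit 0x6800800f8002001800082a0003))) 
(.lf (nat_lit 5773312134) (dlOf (nat_lit 1) (nat_lit 0x4002000200080c0e02))))) (.nd (nat_lit 31) 
(.lf (nat_lit 1410187270) (dlOf (nat_lit 1) (nat_lit 0x4c800800b000200520008180003))) 
(.lf (nat_lit 3557670918) (dlOf (nat_lit 1) (nat_lit 0x6800800f8002001800082a0003))))) 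
(.nd (nat_lit 11) (.nd (nat_lit 8) (.nd (nat_lit 20) 
(.lf (nat_lit 3492660230) (dlOf (nat_lit 1) (nat_lit 0x200180f2881))) 
(.lf (nat_lit 1880998918) (dlOf (nat_lit 1) (nat_lit 0x400400020008dd2882)))) 
(.lf (nat_lit 55428358) (dlOf (nat_lit 1) (nat_lit 0x200096d2f81)))) (.nd (nat_lit 8) 
(.nd (nat_lit 9) (.lf (nat_lit 45992966) (dlOf (nat_lit 1) (nat_lit 0x40029385f81))) 
(.lf (nat_lit 2754465286) (dlOf (nat_lit 1) (nat_lit 0x200080f7001)))) 
(.lf (nat_lit 8248582) (dlOf (nat_lit 1) (nat_lit 0x4001851c601)))))))) (.nd (nat_lit 21) 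
(.nd (nat_lit 26) (.nd (nat_lit 7) (.nd (nat_lit 11) (.nd (nat_lit 9) (.nd (nat_lit 18) 
(.lf (nat_lit 4697735238) (dlOf (nat_lit 1) (nat_lit 0x88008003000200300008090003))) 
(.lf (nat_lit 1610989638) (dlOf (nat_lit 1) (nat_lit 0x38004003e00080b0582)))) 
(.lf (nat_lit 3491349062) (dlOf (nat_lit 16) (nat_lit 0x100f68000a40802887b40005004082c3f40d4a1ed001509a00009c1803108d0056845202ca1fa00910f700ba07b400643c2015c1de00e00ea00630728056833e02b416600c70b20036056c00f02b202b8158005d0ab800b0544000429802e4142012c09a00ad04b40010246000262c003a1ed00250ea000c0590005c2b600361420001285001e0fd001287b400883a80044164001d0a1000984d00004818014c3da000230200261ed000100101610f680007c0805507b4000340404243da000190200261ed0000c0100130f68000440803687b40000a0404dc3da016a1d4003e0ab806b85080000010011c002003c0008091102)))) 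
(.nd (nat_lit 8) 
(.lf (nat_lit 51235398) (dlOf (nat_lit 11) (nat_lit 0xfac1200906088038aca401fd6500106a7b00935348035a630000b81c01dd8240114c1100645948037aca001f54f60118a69006f4c600016838036b04c01dd82200aebfc0074595003129ec01894d2000520c0064c130030608801a2ff00099654004aa7b003053480012c3000bb04c000840400118200006a7a000198200866080046ac9c02214f4010ca68000120400916080048ac9c02554f4012ea680001104008d608004a2c9c02394f4012aa6800024c58000842803cb04001f164e00f8a7a007b5340006262c0003e14008000400020019515202))) 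
(.nd (nat_lit 27) (.lf (nat_lit 5905697094) (dlOf (nat_lit 1) (nat_lit 0x400400020008144d02))) 
(.lf (nat_lit 671205702) (dlOf (nat_lit 2) (nat_lit 0x500000000004003400200060008144d02)))))) 
(.nd (nat_lit 8) (.nd (nat_lit 9) 
(.lf (nat_lit 4571334) (dlOf (nat_lit 3) (nat_lit 0xc6270005c010003313800028080008008000400200040008290403))) 
(.lf (nat_lit 805424838) (dlOf (nat_lit 1) (nat_lit 0x20028117301)))) (.nd (nat_lit 9) 
(.lf (nat_lit 3491348934) (dlOf (nat_lit 1) (nat_lit 0x40018090901))) (.nd (nat_lit 10) 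
(.lf (nat_lit 3221347270) (dlOf (nat_lit 1) (nat_lit 0x800800040020002000811be03))) 
(.lf (nat_lit 5905696710) (dlOf (nat_lit 1) (nat_lit 0x140018144401))))))) (.nd (nat_lit 29) 
(.nd (nat_lit 28) (.nd (nat_lit 7) (.nd (nat_lit 9) 
(.lf (nat_lit 2348924998) (dlOf (nat_lit 3) (nat_lit 0x7d015007280a000280300001506002002a00760140000401000f8008005c002002c0008030e83))) 
(.lf (nat_lit 3288449606) (dlOf (nat_lit 3) (nat_lit 0x200ac0096204000805c0049b0200120028018801)))) 
(.lf (nat_lit 6509678278) (dlOf (nat_lit 1) (nat_lit 0x400400020008147302)))) (.nd (nat_lit 7) 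
(.nd (nat_lit 19) 
(.lf (nat_lit 2483142726) (dlOf (nat_lit 3) (nat_lit 0x7d015007280a000280300001406002002a00760140000401000f8008005c002002c0008030e83))) 
(.lf (nat_lit 1409925190) (dlOf (nat_lit 1) (nat_lit 0xf00080028002000600080a0e03)))) 
(.lf (nat_lit 2617365702) (dlOf (nat_lit 2) (nat_lit 0x30160001380800100080004002000400080a9503))))) 
(.nd (nat_lit 20) (.nd (nat_lit 8) (.nd (nat_lit 18) 
(.lf (nat_lit 3960062022) (dlOf (nat_lit 4) (nat_lit 0x780114065c08401ba03f00a0019803b8024000aa1401680a8023404c010e02280d08108040407e01be033006301280498024000a82001c808c00ea043003c0200001441804e0008007c00203b000081a1883))) 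
(.lf (nat_lit 738574406) (dlOf (nat_lit 1) (nat_lit 0x38004003e00080b0582)))) 
(.lf (nat_lit 604094790) (dlOf (nat_lit 1) (nat_lit 0x20018010781)))) (.nd (nat_lit 7) 
(.nd (nat_lit 9) 
(.lf (nat_lit 2753151046) (dlOf (nat_lit 1) (nat_lit 0x78008003400200200008090003))) 
(.lf (nat_lit 2753151558) (dlOf (nat_lit 16) (nat_lit 0x100ff8000a40802887fc0005004082c41e0d4a1ff001509a00009c180310930056847c02ca20f00191018048880005d03fe015c1f300e00f48063077c056836802b416a00c70b4001e057805702ba00ba15c00160ab00360544000429802e4142012c09a00ad04b4001024e000262c003a1ff00250f4800c05a0005c2a200361420001285001e107801287fc00883d20044168001d0a1000984d00004818014c3fe000230200261ff000100101610ff80007c0805507fc000340404243fe000190200261ff0000c0100130ff8000440803687fc0000a0404dc3fe016a1e9003e0ae006b85080000010011c002003c0008091102)))) 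
(.lf (nat_lit 2753151430) (dlOf (nat_lit 1) (nat_lit 0x40018090901))))))) (.nd (nat_lit 18) 
(.nd (nat_lit 9) (.nd (nat_lit 7) (.nd (nat_lit 8) 
(.lf (nat_lit 2754199622) (dlOf (nat_lit 7) (nat_lit 0x14f11000b90868000b00806d4440038621a0002b8200801120007082401b43a600561c7002808480008000000aa1802b0448008a209003d0ef0041074c011038e006a1bf00400848020841c01140000005412001a2240002901004511200008424000a208003c002001a00080c1882))) 
(.lf (nat_lit 23707974) (dlOf (nat_lit 1) (nat_lit 0x800200040008b80602)))) 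
(.lf (nat_lit 1881260230) (dlOf (nat_lit 1) (nat_lit 0x860008e80801)))) (.nd (nat_lit 19) 
(.nd (nat_lit 8) (.lf (nat_lit 11649606) (dlOf (nat_lit 1) (nat_lit 0xc004000200186c1102))) 
(.lf (nat_lit 20040518) (dlOf (nat_lit 1) (nat_lit 0x4002000200089d5c02)))) (.nd (nat_lit 22) 
(.lf (nat_lit 1345964614) (dlOf (nat_lit 2) (nat_lit 0x4200000019818e25200))) 
(.lf (nat_lit 41536070) (dlOf (nat_lit 3) (nat_lit 0x487e8000520200f63f400025819245200)))))) 
(.nd (nat_lit 20) (.nd (nat_lit 22) (.nd (nat_lit 7) 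
(.lf (nat_lit 3492134982) (dlOf (nat_lit 2) (nat_lit 0x1c08b000118180a0e00))) 
(.lf (nat_lit 1009108166) (dlOf (nat_lit 11) (nat_lit 0x15c1c6002a0e2000203b0000a018000838c011c1c400be0760001303006007180007c080ee038c00800ec0001d0403560e3001603b00006010092838c00501c4007a0760000803000203b000038080ce838c00201c400420760000283011a071801c81d80000408062c1c6000a0e2000406c804b81d8000001010b800400320019082d02)))) 
(.nd (nat_lit 8) (.lf (nat_lit 57002694) (dlOf (nat_lit 1) (nat_lit 0x200019795801))) 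
(.lf (nat_lit 23445958) (dlOf (nat_lit 2) (nat_lit 0x22c280008004004800200320008b80902))))) 
(.nd (nat_lit 7) (.nd (nat_lit 10) 
(.lf (nat_lit 37077062) (dlOf (nat_lit 1) (nat_lit 0x8008001800200040009090603))) 
(.lf (nat_lit 20304966) (dlOf (nat_lit 1) (nat_lit 0x600089d9301)))) (.nd (nat_lit 19) 
(.lf (nat_lit 3522758) (dlOf (nat_lit 2) (nat_lit 0x1341000068080498008000800201040008200403))) 
(.lf (nat_lit 20824262) (dlOf (nat_lit 1) (nat_lit 0x600189e3901))))))))) (.nd (nat_lit 18) 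
(.nd (nat_lit 7) (.nd (nat_lit 26) (.nd (nat_lit 19) (.nd (nat_lit 6) (.nd (nat_lit 9) 
(.nd (nat_lit 24) (.lf (nat_lit 6039912486) (dlOf (nat_lit 1) (nat_lit 0x20008030601))) 
(.lf (nat_lit 16891942) (dlOf (nat_lit 1) (nat_lit 0x4002000200088e0002)))) (.nd (nat_lit 8) 
(.lf (nat_lit 1208076838) (dlOf (nat_lit 1) (nat_lit 0x3580018095181))) 
(.lf (nat_lit 5905696550) (dlOf (nat_lit 1) (nat_lit 0x40008143d01))))) (.nd (nat_lit 9) 
(.nd (nat_lit 12) (.nd (nat_lit 20) 
(.lf (nat_lit 12697702) (dlOf (nat_lit 1) (nat_lit 0xde00086d1301))) 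
(.lf (nat_lit 24232038) (dlOf (nat_lit 1) (nat_lit 0x8008001000200020008b91383)))) 
(.lf (nat_lit 20041830) (dlOf (nat_lit 1) (nat_lit 0xa00289d7d81)))) (.nd (nat_lit 8) 
(.lf (nat_lit 1345439334) (dlOf (nat_lit 4) (nat_lit 0x2ac2ca0003302015e165000190100aa0b28000c4080070008001c002003c0008bb3903))) 
(.lf (nat_lit 4563520358) (dlOf (nat_lit 1) (nat_lit 0x40008095c01)))))) (.nd (nat_lit 21) 
(.nd (nat_lit 11) (.nd (nat_lit 22) (.nd (nat_lit 27) 
(.lf (nat_lit 1879687206) (dlOf (nat_lit 1) (nat_lit 0x100080060002002800082d0783))) 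
(.lf (nat_lit 3892953126) (dlOf (nat_lit 4) (nat_lit 0x402c0002014000ff82000600b00030050003fa08000409e0002014000fe0282a0a80)))) 
(.lf (nat_lit 21610534) (dlOf (nat_lit 1) (nat_lit 0x20028a50a81)))) (.nd (nat_lit 8) 
(.lf (nat_lit 47827494) (dlOf (nat_lit 1) (nat_lit 0x1000200100009405182))) 
(.lf (nat_lit 3490303270) (dlOf (nat_lit 2) (nat_lit 0x480900004804000c00200020008006802))))) 
(.nd (nat_lit 22) (.nd (nat_lit 6) (.nd (nat_lit 23) 
(.lf (nat_lit 3492397094) (dlOf (nat_lit 1) (nat_lit 0x80080004002000200080c0b83))) 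
(.lf (nat_lit 11124774) (dlOf (nat_lit 2) (nat_lit 0xbbf100014c080068008007400200060008660603)))) 
(.lf (nat_lit 53069414) (dlOf (nat_lit 2) (nat_lit 0x29ce00023019573900)))) (.nd (nat_lit 20) 
(.lf (nat_lit 48873510) (dlOf (nat_lit 1) (nat_lit 0x6a0019440201))) 
(.lf (nat_lit 24756262) (dlOf (nat_lit 1) (nat_lit 0xa0028bb0901))))))) (.nd (nat_lit 8) 
(.nd (nat_lit 27) (.nd (nat_lit 31) (.nd (nat_lit 9) 
(.lf (nat_lit 5435932710) (dlOf (nat_lit 1) (nat_lit 0x400400020018040202))) 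
(.lf (nat_lit 335661606) (dlOf (nat_lit 1) (nat_lit 0x1d60018095181)))) (.nd (nat_lit 19) 
(.lf (nat_lit 2214707238) (dlOf (nat_lit 1) (nat_lit 0x40008040881))) 
(.lf (nat_lit 2754199590) (dlOf (nat_lit 1) (nat_lit 0x80080004002000200080c0b83))))) 
(.nd (nat_lit 19) (.nd (nat_lit 9) 
(.lf (nat_lit 5301714982) (dlOf (nat_lit 1) (nat_lit 0x400400020018040202))) 
(.lf (nat_lit 2617360934) (dlOf (nat_lit 1) (nat_lit 0x4004000200080a1482)))) (.nd (nat_lit 21) 
(.lf (nat_lit 3154755622) (dlOf (nat_lit 2) (nat_lit 0x640a20016302000a0018320d81))) 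
(.lf (nat_lit 1009369126) (dlOf (nat_lit 1) (nat_lit 0x8008000400200020009130983)))))) 
(.nd (nat_lit 6) (.nd (nat_lit 11) 
(.lf (nat_lit 2080490790) (dlOf (nat_lit 1) (nat_lit 0x20008093181))) (.nd (nat_lit 27) 
(.lf (nat_lit 1409404198) (dlOf (nat_lit 2) (nat_lit 0x3817c0004804002c00400180018006802))) 
(.lf (nat_lit 1812057382) (dlOf (nat_lit 1) (nat_lit 0x200028146801))))) (.nd (nat_lit 9) 
(.nd (nat_lit 11) (.lf (nat_lit 3691102566) (dlOf (nat_lit 1) (nat_lit 0x400400020008010982))) 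
(.lf (nat_lit 1677842790) (dlOf (nat_lit 1) (nat_lit 0x800800040020002000811ab83)))) 
(.nd (nat_lit 30) (.lf (nat_lit 2751580006) (dlOf (nat_lit 1) (nat_lit 0x20028004001))) 
(.lf (nat_lit 1677838182) (dlOf (nat_lit 1) (nat_lit 0x400400020008114002)))))))) (.nd (nat_lit 6) 
(.nd (nat_lit 8) (.nd (nat_lit 26) (.nd (nat_lit 9) (.nd (nat_lit 10) 
(.lf (nat_lit 44155046) (dlOf (nat_lit 1) (nat_lit 0x8004000200092d1382))) 
(.lf (nat_lit 48350374) (dlOf (nat_lit 1) (nat_lit 0xc00200340009402c02)))) 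
(.lf (nat_lit 116390) (dlOf (nat_lit 1) (nat_lit 0x800200020008003a82)))) (.nd (nat_lit 27) 
(.nd (nat_lit 9) 
(.lf (nat_lit 1409404070) (dlOf (nat_lit 1) (nat_lit 0x28008002000200020008006283))) 
(.lf (nat_lit 5972805286) (dlOf (nat_lit 1) (nat_lit 0x20018143a81)))) (.nd (nat_lit 10) 
(.lf (nat_lit 4764844198) (dlOf (nat_lit 1) (nat_lit 0x400400020008031482))) 
(.lf (nat_lit 474072230) (dlOf (nat_lit 6) (nat_lit 0x1e168000a0b300018560001419e000209600020398005005c002c02a0005d10000a16900070b400030060000b20c00042d200058020026169001b0b3000a0060000a80c00282d20024166000a00c000114180128008005c00200080009082c03)))))) 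
(.nd (nat_lit 29) (.nd (nat_lit 10) (.nd (nat_lit 9) 
(.lf (nat_lit 8503718) (dlOf (nat_lit 1) (nat_lit 0x178008000400200020008511003))) 
(.lf (nat_lit 5637262246) (dlOf (nat_lit 1) (nat_lit 0x480028055d01)))) (.nd (nat_lit 19) 
(.lf (nat_lit 469878694) (dlOf (nat_lit 1) (nat_lit 0xa0028004301))) 
(.lf (nat_lit 7980966) (dlOf (nat_lit 1) (nat_lit 0x20008514301))))) (.nd (nat_lit 30) 
(.nd (nat_lit 19) (.lf (nat_lit 939640742) (dlOf (nat_lit 1) (nat_lit 0x1c00400060008144302))) 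
(.lf (nat_lit 2752104358) (dlOf (nat_lit 1) (nat_lit 0x20028004301)))) (.nd (nat_lit 9) 
(.lf (nat_lit 1610727846) (dlOf (nat_lit 1) (nat_lit 0x800200020008091002))) 
(.lf (nat_lit 5905696678) (dlOf (nat_lit 1) (nat_lit 0x2680028144301))))))) (.nd (nat_lit 10) 
(.nd (nat_lit 26) (.nd (nat_lit 29) (.nd (nat_lit 27) 
(.lf (nat_lit 1073856998) (dlOf (nat_lit 2) (nat_lit 0x380a40000004012400400280008017d02))) 
(.lf (nat_lit 4697735654) (dlOf (nat_lit 1) (nat_lit 0x20018091301)))) (.nd (nat_lit 8) 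
(.lf (nat_lit 5905696998) (dlOf (nat_lit 1) (nat_lit 0x400400020008144b02))) 
(.lf (nat_lit 1610727910) (dlOf (nat_lit 1) (nat_lit 0x400400060008091302))))) (.nd (nat_lit 8) 
(.lf (nat_lit 2617361126) (dlOf (nat_lit 1) (nat_lit 0xc400180a2101))) (.nd (nat_lit 9) 
(.lf (nat_lit 1946272230) (dlOf (nat_lit 2) (nat_lit 0x2602900000018017300))) 
(.lf (nat_lit 2751579110) (dlOf (nat_lit 1) (nat_lit 0x20008002881)))))) (.nd (nat_lit 28) 
(.nd (nat_lit 8) (.nd (nat_lit 9) 
(.lf (nat_lit 20565222) (dlOf (nat_lit 1) (nat_lit 0x200080004002000200089d6503))) 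
(.lf (nat_lit 6509678310) (dlOf (nat_lit 1) (nat_lit 0x20028147401)))) (.nd (nat_lit 11) 
(.lf (nat_lit 61457894) (dlOf (nat_lit 1) (nat_lit 0x400400020009923602))) 
(.lf (nat_lit 3221343718) (dlOf (nat_lit 1) (nat_lit 0x40028116e81))))) (.nd (nat_lit 26) 
(.nd (nat_lit 8) (.lf (nat_lit 805424870) (dlOf (nat_lit 1) (nat_lit 0x400400020008117402))) 
(.lf (nat_lit 805424614) (dlOf (nat_lit 1) (nat_lit 0x40028116e81)))) (.nd (nat_lit 11) 
(.lf (nat_lit 6375458278) (dlOf (nat_lit 1) (nat_lit 0x400400020008003602))) 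
(.lf (nat_lit 1543622118) (dlOf (nat_lit 1) (nat_lit 0x4000400220008146e82))))))))) 
(.nd (nat_lit 21) (.nd (nat_lit 30) (.nd (nat_lit 26) (.nd (nat_lit 23) (.nd (nat_lit 28) 
(.nd (nat_lit 19) (.lf (nat_lit 1425446) (dlOf (nat_lit 1) (nat_lit 0x200180c0a01))) 
(.lf (nat_lit 901158) (dlOf (nat_lit 1) (nat_lit 0xc00400020008030a02)))) (.nd (nat_lit 32) 
(.lf (nat_lit 805683238) (dlOf (nat_lit 2) (nat_lit 0xe01300011018180780))) 
(.lf (nat_lit 5100650534) (dlOf (nat_lit 1) (nat_lit 0x18008001400200080008110203))))) 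
(.nd (nat_lit 9) 
(.lf (nat_lit 12959782) (dlOf (nat_lit 3) (nat_lit 0x1a9180005408002548c0000a0400b4002000200086f0902))) 
(.nd (nat_lit 10) (.lf (nat_lit 42322470) (dlOf (nat_lit 1) (nat_lit 0x20029245181))) 
(.lf (nat_lit 8767014) (dlOf (nat_lit 1) (nat_lit 0x640028513701)))))) (.nd (nat_lit 27) 
(.nd (nat_lit 20) 
(.lf (nat_lit 4362453030) (dlOf (nat_lit 2) (nat_lit 0x1e052001c023000044100008008003c00200180008080983))) 
(.nd (nat_lit 29) (.lf (nat_lit 68534310) (dlOf (nat_lit 2) (nat_lit 0x40de000000185b0780))) 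
(.lf (nat_lit 2752888870) (dlOf (nat_lit 1) (nat_lit 0x40008000400200020008060583))))) 
(.nd (nat_lit 8) (.nd (nat_lit 28) 
(.lf (nat_lit 201703462) (dlOf (nat_lit 1) (nat_lit 0x400200100008080982))) 
(.lf (nat_lit 2617622566) (dlOf (nat_lit 2) (nat_lit 0x40188001500801d8008006c00200bc0008100603)))) 
(.lf (nat_lit 2886060326) (dlOf (nat_lit 1) (nat_lit 0x740028144b81)))))) (.nd (nat_lit 27) 
(.nd (nat_lit 6) (.nd (nat_lit 20) (.nd (nat_lit 22) 
(.lf (nat_lit 1678098470) (dlOf (nat_lit 2) (nat_lit 0xe01300006818180780))) 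
(.lf (nat_lit 1346748454) (dlOf (nat_lit 1) (nat_lit 0x80009000201)))) 
(.lf (nat_lit 3491086374) (dlOf (nat_lit 1) (nat_lit 0x40008000400200020008060583)))) 
(.nd (nat_lit 8) (.nd (nat_lit 7) 
(.lf (nat_lit 1346748518) (dlOf (nat_lit 2) (nat_lit 0x5c12c0022074000e039800108180088008000800200160009000983))) 
(.lf (nat_lit 1879949542) (dlOf (nat_lit 1) (nat_lit 0x640018490481)))) (.nd (nat_lit 11) 
(.lf (nat_lit 1343078758) (dlOf (nat_lit 2) (nat_lit 0x4000000360200660008150981))) 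
(.lf (nat_lit 4094544230) (dlOf (nat_lit 1) (nat_lit 0x80028054e81)))))) (.nd (nat_lit 28) 
(.nd (nat_lit 6) (.nd (nat_lit 26) 
(.lf (nat_lit 3355820070) (dlOf (nat_lit 1) (nat_lit 0x40028120601))) 
(.lf (nat_lit 3959799846) (dlOf (nat_lit 2) (nat_lit 0x70230000e80800280080004002000c0008160983)))) 
(.lf (nat_lit 1208336614) (dlOf (nat_lit 1) (nat_lit 0x200280c1d81)))) (.nd (nat_lit 7) 
(.nd (nat_lit 8) 
(.lf (nat_lit 4228235302) (dlOf (nat_lit 6) (nat_lit 0x6802601aa01000314058000140600fc04c03a4020006d80b0000260c15940640001102043c0320000801000501900003c0802a8008015000200f20008080983))) 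
(.lf (nat_lit 5772789030) (dlOf (nat_lit 1) (nat_lit 0x20028093181)))) 
(.lf (nat_lit 5772788134) (dlOf (nat_lit 1) (nat_lit 0x400400020018091002))))))) (.nd (nat_lit 19) 
(.nd (nat_lit 8) (.nd (nat_lit 20) (.nd (nat_lit 6) (.nd (nat_lit 22) 
(.lf (nat_lit 10862630) (dlOf (nat_lit 1) (nat_lit 0x300008640881))) 
(.lf (nat_lit 48611366) (dlOf (nat_lit 1) (nat_lit 0x90008005c00200160009420203)))) 
(.lf (nat_lit 1881522278) (dlOf (nat_lit 1) (nat_lit 0x20002000e0008f40982)))) (.nd (nat_lit 7) 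
(.lf (nat_lit 7716902) (dlOf (nat_lit 1) (nat_lit 0x4002000200084d0a82))) 
(.lf (nat_lit 20304550) (dlOf (nat_lit 1) (nat_lit 0x4002000200089d8c82))))) (.nd (nat_lit 6) 
(.nd (nat_lit 9) (.lf (nat_lit 3522854) (dlOf (nat_lit 1) (nat_lit 0x20008200501))) 
(.lf (nat_lit 20302630) (dlOf (nat_lit 1) (nat_lit 0x38004003200189d5c02)))) (.nd (nat_lit 7) 
(.lf (nat_lit 3522918) (dlOf (nat_lit 8) (nat_lit 0x34341000999ac00bc9d2000150600346820013335800d13a4000280c002cd04000a66b000e27480031360000261000bcd04003e66b001e274800c1360000241000a0d04001e66b002e274800a136000022100050d04002866b001727480079360000201000c09d2000030200100018200701))) 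
(.lf (nat_lit 1009107942) (dlOf (nat_lit 1) (nat_lit 0x340009082881)))))) (.nd (nat_lit 9) 
(.nd (nat_lit 7) (.nd (nat_lit 6) (.nd (nat_lit 10) 
(.lf (nat_lit 16629798) (dlOf (nat_lit 1) (nat_lit 0x2c004004200088c0782))) 
(.lf (nat_lit 8246310) (dlOf (nat_lit 1) (nat_lit 0x20018519201)))) 
(.lf (nat_lit 19782758) (dlOf (nat_lit 1) (nat_lit 0x2c00289dc081)))) (.nd (nat_lit 10) 
(.lf (nat_lit 2754464166) (dlOf (nat_lit 1) (nat_lit 0x200180f4e81))) 
(.lf (nat_lit 8242598) (dlOf (nat_lit 1) (nat_lit 0x400200020008513602))))) (.nd (nat_lit 6) 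
(.nd (nat_lit 20) (.lf (nat_lit 32360998) (dlOf (nat_lit 1) (nat_lit 0x1e0018ef5181))) 
(.lf (nat_lit 41798182) (dlOf (nat_lit 2) (nat_lit 0x110120008b0200040029245181)))) 
(.nd (nat_lit 7) (.lf (nat_lit 8246886) (dlOf (nat_lit 1) (nat_lit 0x48008000800200020008519c03))) 
(.nd (nat_lit 10) (.lf (nat_lit 3492660198) (dlOf (nat_lit 1) (nat_lit 0x200180f2881))) 
(.lf (nat_lit 3492661222) (dlOf (nat_lit 1) (nat_lit 0x200080f4581)))))))))))) (.nd (nat_lit 2) 
(.nd (nat_lit 18) (.nd (nat_lit 26) (.nd (nat_lit 5) (.nd (nat_lit 19) (.nd (nat_lit 8) 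
(.nd (nat_lit 28) (.nd (nat_lit 20) (.nd (nat_lit 21) 
(.lf (nat_lit 25280522) (dlOf (nat_lit 1) (nat_lit 0x8008002000200020008bf0483))) (.nd (nat_lit 24) 
(.lf (nat_lit 44154890) (dlOf (nat_lit 1) (nat_lit 0x4e00292d0001))) 
(.lf (nat_lit 27377674) (dlOf (nat_lit 1) (nat_lit 0x20018cd0281))))) 
(.lf (nat_lit 24231946) (dlOf (nat_lit 1) (nat_lit 0x298008018400200960008b90683)))) 
(.nd (nat_lit 30) (.nd (nat_lit 7) 
(.lf (nat_lit 6711001098) (dlOf (nat_lit 1) (nat_lit 0xc20008030001))) 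
(.lf (nat_lit 6711001226) (dlOf (nat_lit 1) (nat_lit 0xc00400060008030f02)))) (.nd (nat_lit 20) 
(.lf (nat_lit 4160864266) (dlOf (nat_lit 1) (nat_lit 0xc0028030481))) 
(.lf (nat_lit 3490824202) (dlOf (nat_lit 1) (nat_lit 0x20028020481)))))) (.nd (nat_lit 7) 
(.nd (nat_lit 10) (.nd (nat_lit 6) 
(.lf (nat_lit 5905697034) (dlOf (nat_lit 1) (nat_lit 0x400400020008144b82))) 
(.lf (nat_lit 1342298954) (dlOf (nat_lit 2) (nat_lit 0x3e1c70058201800bc80)))) (.nd (nat_lit 11) 
(.lf (nat_lit 8508746) (dlOf (nat_lit 1) (nat_lit 0x400200020008519902))) 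
(.lf (nat_lit 3489779018) (dlOf (nat_lit 2) (nat_lit 0x8050003e01600008028006980))))) 
(.nd (nat_lit 6) (.nd (nat_lit 28) 
(.lf (nat_lit 3221347722) (dlOf (nat_lit 1) (nat_lit 0x268008055400201be000811c903))) 
(.lf (nat_lit 805428618) (dlOf (nat_lit 1) (nat_lit 0x2002811c901)))) (.nd (nat_lit 9) 
(.lf (nat_lit 4697735626) (dlOf (nat_lit 9) (nat_lit 0xc02e000600f00010074000780c009805c002a01e000800e8000e81800380780007204000805c000401e0001b82000c0178000a80800280bc0004604006805a001801500030090000301800300540000004002c00400160018091102))) 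
(.lf (nat_lit 4697736138) (dlOf (nat_lit 1) (nat_lit 0x18008001000200020008092883))))))) 
(.nd (nat_lit 28) (.nd (nat_lit 9) (.nd (nat_lit 6) (.nd (nat_lit 23) 
(.lf (nat_lit 21610506) (dlOf (nat_lit 1) (nat_lit 0x580080004002000c0008a50083))) 
(.lf (nat_lit 13221898) (dlOf (nat_lit 1) (nat_lit 0x20008710581)))) (.nd (nat_lit 27) 
(.lf (nat_lit 3221864522) (dlOf (nat_lit 4) (nat_lit 0x10048000b808002002400058040670086030804000b101c0000a81800300080020002006a00081a1483))) 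
(.lf (nat_lit 134856778) (dlOf (nat_lit 1) (nat_lit 0x10004000c00080d0d02))))) (.nd (nat_lit 7) 
(.nd (nat_lit 8) (.lf (nat_lit 7980618) (dlOf (nat_lit 1) (nat_lit 0x40018513801))) 
(.lf (nat_lit 645962) (dlOf (nat_lit 2) (nat_lit 0x1c03880260194016080800040040002000800bc82)))) 
(.lf (nat_lit 33145802) (dlOf (nat_lit 2) (nat_lit 0x267e000b5018f52880))))) (.nd (nat_lit 6) 
(.nd (nat_lit 7) (.nd (nat_lit 21) (.nd (nat_lit 27) 
(.lf (nat_lit 805945354) (dlOf (nat_lit 2) (nat_lit 0x260070001cc0800080080034002000800081f0583))) 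
(.lf (nat_lit 5772001290) (dlOf (nat_lit 1) (nat_lit 0x1680080100002009c0008030003)))) 
(.lf (nat_lit 1344913418) (dlOf (nat_lit 1) (nat_lit 0x800400020008990002)))) 
(.lf (nat_lit 3491348874) (dlOf (nat_lit 1) (nat_lit 0x20028090781)))) (.nd (nat_lit 7) 
(.nd (nat_lit 9) 
(.lf (nat_lit 3492397130) (dlOf (nat_lit 5) (nat_lit 0x421028000d00803508140006404000440a0002f02003a20f00170fa000a043c000c1f600060ef003d0000000a83000a80080128002000800080c1483))) 
(.lf (nat_lit 3491349066) (dlOf (nat_lit 1) (nat_lit 0x3400400100018091182)))) 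
(.lf (nat_lit 3491348938) (dlOf (nat_lit 3) (nat_lit 0xb07f0004c3ce0003d0400541fc001a0f38000001000a0008009c00200900008090983))))))) 
(.nd (nat_lit 30) (.nd (nat_lit 21) (.nd (nat_lit 7) (.nd (nat_lit 19) (.nd (nat_lit 22) 
(.lf (nat_lit 17940522) (dlOf (nat_lit 1) (nat_lit 0x68008003400200040008900b03))) 
(.lf (nat_lit 30523434) (dlOf (nat_lit 1) (nat_lit 0x40028e30001)))) (.nd (nat_lit 6) 
(.lf (nat_lit 21610538) (dlOf (nat_lit 1) (nat_lit 0x20028a50b01))) 
(.lf (nat_lit 25804906) (dlOf (nat_lit 1) (nat_lit 0x160028c10281))))) (.nd (nat_lit 6) 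
(.nd (nat_lit 8) 
(.lf (nat_lit 805424810) (dlOf (nat_lit 1) (nat_lit 0x18008000400200020008117283))) 
(.lf (nat_lit 8503722) (dlOf (nat_lit 1) (nat_lit 0x1b8008000400200020008511003)))) 
(.nd (nat_lit 8) (.lf (nat_lit 805424874) (dlOf (nat_lit 1) (nat_lit 0x400400020008117402))) 
(.lf (nat_lit 4697736682) (dlOf (nat_lit 1) (nat_lit 0x34002000e0008093602)))))) (.nd (nat_lit 6) 
(.nd (nat_lit 9) (.nd (nat_lit 20) 
(.lf (nat_lit 11124778) (dlOf (nat_lit 1) (nat_lit 0x28008001c00200100008660703))) 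
(.lf (nat_lit 24756266) (dlOf (nat_lit 3) (nat_lit 0x12f50000577a00061040004bd400025de80017c100078008004400200080008bb0b03)))) 
(.nd (nat_lit 7) (.lf (nat_lit 41009706) (dlOf (nat_lit 1) (nat_lit 0x154002006c0009208982))) 
(.lf (nat_lit 20042410) (dlOf (nat_lit 1) (nat_lit 0x4002000200089d8c82))))) (.nd (nat_lit 20) 
(.nd (nat_lit 7) (.lf (nat_lit 36290666) (dlOf (nat_lit 1) (nat_lit 0x400400020009061e82))) 
(.lf (nat_lit 61456874) (dlOf (nat_lit 2) (nat_lit 0x2a5a0001e019921380)))) (.nd (nat_lit 9) 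
(.lf (nat_lit 20041834) (dlOf (nat_lit 1) (nat_lit 0x400189d7d81))) 
(.lf (nat_lit 7980650) (dlOf (nat_lit 2) (nat_lit 0x109700002d0200240028513901))))))) 
(.nd (nat_lit 7) (.nd (nat_lit 11) (.nd (nat_lit 29) (.nd (nat_lit 21) 
(.lf (nat_lit 3221864490) (dlOf (nat_lit 4) (nat_lit 0x26001f00bb8038000320809c407c02f800e0000b0201590070000500814600080754002028200081a0c03))) 
(.lf (nat_lit 3492397098) (dlOf (nat_lit 1) (nat_lit 0x280080020002000400080c0c03)))) 
(.nd (nat_lit 10) 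
(.lf (nat_lit 3892953130) (dlOf (nat_lit 10) (nat_lit 0xe0000002a81004202b802180dc011806c0010020000800f802c0064014c030000310e008c0190001801003102b801900dc00d006c000401f004f00c802500600005e18011803200820180000b02000702b80030080001c03e00b8019005700c0000442801180640004030000100400820180000701002500c80002c0802500080020002002200082a0b03))) 
(.lf (nat_lit 5905695786) (dlOf (nat_lit 1) (nat_lit 0x8008000400200020008142883))))) 
(.nd (nat_lit 6) (.nd (nat_lit 8) 
(.lf (nat_lit 1208076842) (dlOf (nat_lit 1) (nat_lit 0x400400020008095182))) 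
(.lf (nat_lit 5905697066) (dlOf (nat_lit 1) (nat_lit 0x400400020008144b82)))) 
(.lf (nat_lit 6174132842) (dlOf (nat_lit 1) (nat_lit 0x8008000400200020008055383))))) 
(.nd (nat_lit 6) (.nd (nat_lit 9) 
(.lf (nat_lit 4026646954) (dlOf (nat_lit 1) (nat_lit 0x800400060008017182))) 
(.lf (nat_lit 5905696682) (dlOf (nat_lit 1) (nat_lit 0x21c0028144301)))) (.nd (nat_lit 8) 
(.lf (nat_lit 1344389354) (dlOf (nat_lit 1) (nat_lit 0x20028740601))) (.nd (nat_lit 10) 
(.lf (nat_lit 3491348970) (dlOf (nat_lit 2) (nat_lit 0x981ea00001818090d00))) 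
(.lf (nat_lit 1610728938) (dlOf (nat_lit 1) (nat_lit 0x8008001000200040008093603))))))))) 
(.nd (nat_lit 30) (.nd (nat_lit 7) (.nd (nat_lit 29) (.nd (nat_lit 6) (.nd (nat_lit 5) 
(.nd (nat_lit 8) 
(.lf (nat_lit 4362715146) (dlOf (nat_lit 10) (nat_lit 0xc064002050201aa02a000d481007202b0001015001ac0560007d0600e4056001502a003500ac000f80c02440ac011602b0003d8200cf02b000c8150033805600040220003a8400f602b0022015003d40560014028002d0110001cc2800081580003e04040c000000000200bc00180e0581))) 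
(.lf (nat_lit 473547018) (dlOf (nat_lit 1) (nat_lit 0x23800800a000200060008f63683)))) 
(.nd (nat_lit 9) 
(.lf (nat_lit 471449642) (dlOf (nat_lit 2) (nat_lit 0x3c0b10001054801c02380007a0c000800400060008300b02))) 
(.lf (nat_lit 335661610) (dlOf (nat_lit 1) (nat_lit 0x400400020008095182))))) (.nd (nat_lit 8) 
(.nd (nat_lit 28) (.lf (nat_lit 201965642) (dlOf (nat_lit 1) (nat_lit 0x10004000c00080d0d02))) 
(.lf (nat_lit 470401098) (dlOf (nat_lit 1) (nat_lit 0x4004000200080d0e82)))) 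
(.lf (nat_lit 6509677898) (dlOf (nat_lit 1) (nat_lit 0x400400020008146982))))) (.nd (nat_lit 6) 
(.nd (nat_lit 8) (.nd (nat_lit 20) 
(.lf (nat_lit 5301714954) (dlOf (nat_lit 1) (nat_lit 0x40018040001))) 
(.lf (nat_lit 2752626698) (dlOf (nat_lit 1) (nat_lit 0x20028020481)))) (.nd (nat_lit 5) 
(.lf (nat_lit 2751580426) (dlOf (nat_lit 1) (nat_lit 0x400400020008004b82))) 
(.lf (nat_lit 2751580458) (dlOf (nat_lit 1) (nat_lit 0x400400020008004b82))))) (.nd (nat_lit 5) 
(.nd (nat_lit 9) 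
(.lf (nat_lit 2751584330) (dlOf (nat_lit 3) (nat_lit 0x1b0438007700802c87e8030c2a8001d3040004002800a681))) 
(.lf (nat_lit 2753151562) (dlOf (nat_lit 1) (nat_lit 0x3400400100018091182)))) 
(.lf (nat_lit 2751584618) (dlOf (nat_lit 1) (nat_lit 0x1000800040020002000800ac03)))))) 
(.nd (nat_lit 5) (.nd (nat_lit 6) (.nd (nat_lit 11) (.nd (nat_lit 8) 
(.lf (nat_lit 5033279626) (dlOf (nat_lit 1) (nat_lit 0x800400060008030f02))) 
(.lf (nat_lit 2753151370) (dlOf (nat_lit 1) (nat_lit 0x20028090781)))) (.nd (nat_lit 10) 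
(.nd (nat_lit 19) 
(.lf (nat_lit 2754726282) (dlOf (nat_lit 1) (nat_lit 0x980080040002002200080f4e83))) 
(.lf (nat_lit 738838922) (dlOf (nat_lit 1) (nat_lit 0x400200020008124e82)))) 
(.lf (nat_lit 6509677962) (dlOf (nat_lit 1) (nat_lit 0x400400020008146c82))))) (.nd (nat_lit 9) 
(.lf (nat_lit 2753151434) (dlOf (nat_lit 3) (nat_lit 0xb0844004c3f20003e040054211001a0fc8000001000a0008009c00200900008090983))) 
(.nd (nat_lit 10) (.lf (nat_lit 2751579082) (dlOf (nat_lit 1) (nat_lit 0x20008002881))) 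
(.lf (nat_lit 2751580106) (dlOf (nat_lit 6) (nat_lit 0x882180002204003449000220860000802001104300003c08008022400441100000e0400200890011044000034100058008001c00200020008004483)))))) 
(.nd (nat_lit 6) (.nd (nat_lit 8) (.nd (nat_lit 9) 
(.lf (nat_lit 4764844202) (dlOf (nat_lit 1) (nat_lit 0x20018031481))) 
(.lf (nat_lit 6509678250) (dlOf (nat_lit 1) (nat_lit 0x400400020008147282)))) 
(.lf (nat_lit 2751580074) (dlOf (nat_lit 1) (nat_lit 0x400200020008004302)))) (.nd (nat_lit 8) 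
(.lf (nat_lit 6509678314) (dlOf (nat_lit 1) (nat_lit 0x400400020008147402))) (.nd (nat_lit 10) 
(.lf (nat_lit 2753151466) (dlOf (nat_lit 2) (nat_lit 0x981fc00001818090d00))) 
(.lf (nat_lit 6509678058) (dlOf (nat_lit 1) (nat_lit 0x400400020008146e82)))))))) (.nd (nat_lit 5) 
(.nd (nat_lit 11) (.nd (nat_lit 19) (.nd (nat_lit 7) (.nd (nat_lit 27) 
(.lf (nat_lit 5435932682) (dlOf (nat_lit 1) (nat_lit 0x40018040001))) 
(.lf (nat_lit 6107021322) (dlOf (nat_lit 1) (nat_lit 0xc20008030001)))) 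
(.lf (nat_lit 3691102346) (dlOf (nat_lit 1) (nat_lit 0x2000200300008010282)))) (.nd (nat_lit 27) 
(.nd (nat_lit 6) 
(.lf (nat_lit 1678360586) (dlOf (nat_lit 2) (nat_lit 0x260070001cc0800080080034002000800081f0583))) 
(.lf (nat_lit 4095328330) (dlOf (nat_lit 2) (nat_lit 0x2b05c802b0290016c0f6009006900022848090500)))) 
(.nd (nat_lit 31) 
(.lf (nat_lit 6375981066) (dlOf (nat_lit 1) (nat_lit 0x1680080100002009c0008030003))) 
(.lf (nat_lit 4228497418) (dlOf (nat_lit 10) (nat_lit 0xc062002040201aa029000d08100720278001013401ac0540007d0600e404f0015026803500a8000f80c024409e011602a0003d8200cf027800c8134033805400040220003a8400f602780220134002805c01ea02a002d0110001cc28000813c0003404040c000000000200bc00180e0581)))))) 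
(.nd (nat_lit 8) (.nd (nat_lit 6) (.nd (nat_lit 27) 
(.lf (nat_lit 1677842954) (dlOf (nat_lit 1) (nat_lit 0x300040004001811b282))) 
(.lf (nat_lit 3959544330) (dlOf (nat_lit 1) (nat_lit 0x26002811b281)))) 
(.lf (nat_lit 1677842506) (dlOf (nat_lit 2) (nat_lit 0x80154003b80400140040008000811a682)))) 
(.nd (nat_lit 6) (.nd (nat_lit 27) 
(.lf (nat_lit 1677838602) (dlOf (nat_lit 1) (nat_lit 0x8008000400200020008114b83))) 
(.lf (nat_lit 3959539978) (dlOf (nat_lit 1) (nat_lit 0x8008000400200020008114b83)))) 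
(.lf (nat_lit 1543621962) (dlOf (nat_lit 3) (nat_lit 0x200e800280600002408005003a004001800130040000401800b8008001800200080008146983)))))) 
(.nd (nat_lit 8) (.nd (nat_lit 11) (.nd (nat_lit 6) (.nd (nat_lit 10) 
(.lf (nat_lit 3960061994) (dlOf (nat_lit 9) (nat_lit 0x56a03e012c00700a20030030c0000001908056a03e01300070000601015f80f8035801c0001704054003e0109007008f8030027c000000160803dc03e01290070000541015580f8045c01c0001404020a03e006000700004c100bb803804b80180120000000000381a0d00))) 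
(.lf (nat_lit 1677837354) (dlOf (nat_lit 1) (nat_lit 0x400400020008112882)))) 
(.lf (nat_lit 4095328362) (dlOf (nat_lit 1) (nat_lit 0x30008002c00200060008090783)))) 
(.nd (nat_lit 7) (.nd (nat_lit 27) 
(.lf (nat_lit 3825323050) (dlOf (nat_lit 1) (nat_lit 0x8008000400200020008146083))) 
(.lf (nat_lit 1812057130) (dlOf (nat_lit 2) (nat_lit 0x601100028074001a808001c004001e0018146082)))) 
(.nd (nat_lit 27) 
(.lf (nat_lit 3825323178) (dlOf (nat_lit 1) (nat_lit 0x8008000400200020008146283))) 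
(.lf (nat_lit 1812057258) (dlOf (nat_lit 1) (nat_lit 0x40028146281)))))) (.nd (nat_lit 7) 
(.nd (nat_lit 10) (.nd (nat_lit 27) 
(.lf (nat_lit 1677838634) (dlOf (nat_lit 1) (nat_lit 0x400400020008114b82))) 
(.lf (nat_lit 3959540010) (dlOf (nat_lit 1) (nat_lit 0x400400020008114b82)))) 
(.lf (nat_lit 2080490794) (dlOf (nat_lit 1) (nat_lit 0x20018093181)))) (.nd (nat_lit 6) 
(.lf (nat_lit 5570150826) (dlOf (nat_lit 1) (nat_lit 0x400200060008051002))) (.nd (nat_lit 10) 
(.lf (nat_lit 1946272234) (dlOf (nat_lit 3) (nat_lit 0x270148003bc0809500a40000004006c004000a0018017302))) 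
(.lf (nat_lit 1543622122) (dlOf (nat_lit 2) (nat_lit 0x500000000004003400200060008146e82)))))))))) 
(.nd (nat_lit 28) (.nd (nat_lit 21) (.nd (nat_lit 29) (.nd (nat_lit 5) (.nd (nat_lit 26) 
(.nd (nat_lit 22) (.nd (nat_lit 6) (.nd (nat_lit 8) 
(.lf (nat_lit 134594570) (dlOf (nat_lit 1) (nat_lit 0x280018080001))) 
(.lf (nat_lit 17154314) (dlOf (nat_lit 1) (nat_lit 0x4002003000088e0702)))) 
(.lf (nat_lit 1208336586) (dlOf (nat_lit 1) (nat_lit 0x200180c1b81)))) (.nd (nat_lit 6) 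
(.nd (nat_lit 7) (.lf (nat_lit 12959754) (dlOf (nat_lit 1) (nat_lit 0xe800086f0081))) 
(.lf (nat_lit 21348490) (dlOf (nat_lit 2) (nat_lit 0x517ca000abd800455b4002d0248018c118000320a002c0008a30f01)))) 
(.lf (nat_lit 55951434) (dlOf (nat_lit 1) (nat_lit 0xc004000a00096f0602))))) (.nd (nat_lit 27) 
(.nd (nat_lit 6) (.lf (nat_lit 3288711178) (dlOf (nat_lit 2) (nat_lit 0x10024000000180c0800))) 
(.lf (nat_lit 3288711242) (dlOf (nat_lit 6) (nat_lit 0x3603f001a012800d0084022803c003401b000d00a8001804000b80120003410012e01e000800d8000c8100128078000620400240000002402006a040000098180c1480)))) 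
(.nd (nat_lit 7) (.lf (nat_lit 201703434) (dlOf (nat_lit 1) (nat_lit 0x280018080001))) 
(.lf (nat_lit 2349189514) (dlOf (nat_lit 1) (nat_lit 0x4200180f4e81)))))) (.nd (nat_lit 19) 
(.nd (nat_lit 26) (.nd (nat_lit 27) 
(.lf (nat_lit 6442827818) (dlOf (nat_lit 1) (nat_lit 0x4004000200181d0a02))) 
(.lf (nat_lit 3355820074) (dlOf (nat_lit 15) (nat_lit 0x81802b000178104500158000b80822a80ac0005a0406a00560002c02009602b000158104180158000a4080bd80ac000500410300560002702000202b0001081040a01580007c0821000ac0003c0409b00560001d02004e02b0000e01003501500006c080b90008001400200ca0008120703)))) 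
(.lf (nat_lit 3288711210) (dlOf (nat_lit 4) (nat_lit 0xb00780004804006c03c000220200060120000e8180c0c00)))) 
(.nd (nat_lit 10) (.nd (nat_lit 22) 
(.lf (nat_lit 27115562) (dlOf (nat_lit 2) (nat_lit 0x310e0000a804001800400040008ca0682))) 
(.lf (nat_lit 22921258) (dlOf (nat_lit 5) (nat_lit 0x151ed3800068040a8f69c00033020535b4e00019010011da70000c40801c0008004400200400008b40703)))) 
(.nd (nat_lit 6) (.lf (nat_lit 56476842) (dlOf (nat_lit 1) (nat_lit 0x400400020009732c02))) 
(.lf (nat_lit 69059690) (dlOf (nat_lit 1) (nat_lit 0x7000088a2981))))))) (.nd (nat_lit 26) 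
(.nd (nat_lit 19) (.nd (nat_lit 30) (.nd (nat_lit 5) 
(.lf (nat_lit 4832215050) (dlOf (nat_lit 1) (nat_lit 0x80080004002008a0008110003))) 
(.lf (nat_lit 537247786) (dlOf (nat_lit 1) (nat_lit 0x28008001400200020008070803)))) 
(.nd (nat_lit 6) 
(.lf (nat_lit 1610989578) (dlOf (nat_lit 1) (nat_lit 0x380080024002001400080b0003))) 
(.lf (nat_lit 1610989642) (dlOf (nat_lit 2) (nat_lit 0x2400c0000000800900080048002006000080b0603))))) 
(.nd (nat_lit 5) (.nd (nat_lit 27) 
(.lf (nat_lit 537772042) (dlOf (nat_lit 1) (nat_lit 0x20028180481))) 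
(.lf (nat_lit 2819473418) (dlOf (nat_lit 8) (nat_lit 0xf03c000581c800540d40004069000a02f00028108003807e0063e0e00280780007039000c01a800140c2001a05e0002025800680fc00340360062f10000805b000501b000b00d000940440062708000a06f000402d800100f0000406c002c034000d0110018503000d008800b7004002806c0012022002d782000101b0016180803180080030002000200082a0283)))) 
(.lf (nat_lit 2819473450) (dlOf (nat_lit 1) (nat_lit 0x600082a0781))))) (.nd (nat_lit 27) 
(.nd (nat_lit 30) (.nd (nat_lit 20) (.nd (nat_lit 22) 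
(.lf (nat_lit 4899323914) (dlOf (nat_lit 1) (nat_lit 0x4004002a0008110082))) 
(.lf (nat_lit 2756034570) (dlOf (nat_lit 2) (nat_lit 0x280a80087f02000200281d0001)))) 
(.lf (nat_lit 2752888842) (dlOf (nat_lit 3) (nat_lit 0x8c085000a28100260428005080800380080034002000e0008060483)))) 
(.nd (nat_lit 5) (.lf (nat_lit 1678098442) (dlOf (nat_lit 1) (nat_lit 0x20008180501))) 
(.lf (nat_lit 1678098474) (dlOf (nat_lit 6) (nat_lit 0x5780aa044e05401b202980d6814805ac09c01ea04c003b024818c01140268086041803c011901b805e80c4074c060008002f032b016814980b0040c02e0132016013500900c08044001802003e600a004e004019b801803d800000010320602056016902a80ee814c0acc09c03e604c02c5025004e010c01e406e05ae032000c018802e00b000a80480608013005c009005c80280001c3c04800260000d020100056000602a805a0138035c0940066037007f00980030048000101c01100ac0206032003100980000c1806b00080024002001e0008180803))))) 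
(.nd (nat_lit 5) (.nd (nat_lit 6) 
(.lf (nat_lit 738574346) (dlOf (nat_lit 1) (nat_lit 0x380080024002001400080b0003))) 
(.lf (nat_lit 738574410) (dlOf (nat_lit 2) (nat_lit 0x2400c0000000800900080048002006000080b0603)))) 
(.nd (nat_lit 7) (.lf (nat_lit 2886060330) (dlOf (nat_lit 1) (nat_lit 0x60028144b81))) 
(.lf (nat_lit 2886059946) (dlOf (nat_lit 1) (nat_lit 0x20008144301)))))))) (.nd (nat_lit 5) 
(.nd (nat_lit 6) (.nd (nat_lit 22) (.nd (nat_lit 7) (.nd (nat_lit 9) 
(.lf (nat_lit 12435466) (dlOf (nat_lit 1) (nat_lit 0x4e00086c0001))) 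
(.lf (nat_lit 2754465290) (dlOf (nat_lit 1) (nat_lit 0x200080f7001)))) 
(.lf (nat_lit 62769546) (dlOf (nat_lit 1) (nat_lit 0x1400299a4e81)))) (.nd (nat_lit 19) 
(.nd (nat_lit 9) (.lf (nat_lit 32882698) (dlOf (nat_lit 1) (nat_lit 0x100028f30001))) 
(.lf (nat_lit 23446026) (dlOf (nat_lit 3) (nat_lit 0x200000053808000800000266040070002000a0008b80d82)))) 
(.nd (nat_lit 7) (.lf (nat_lit 16629770) (dlOf (nat_lit 1) (nat_lit 0x200288c0281))) 
(.lf (nat_lit 8246410) (dlOf (nat_lit 1) (nat_lit 0x20018519501)))))) (.nd (nat_lit 8) 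
(.nd (nat_lit 7) (.lf (nat_lit 37077066) (dlOf (nat_lit 1) (nat_lit 0x820009090601))) 
(.nd (nat_lit 10) (.lf (nat_lit 3522762) (dlOf (nat_lit 1) (nat_lit 0x20018200481))) 
(.lf (nat_lit 2754469066) (dlOf (nat_lit 1) (nat_lit 0x1200280fc201))))) (.nd (nat_lit 9) 
(.nd (nat_lit 10) (.lf (nat_lit 3522890) (dlOf (nat_lit 1) (nat_lit 0xd000200100008200602))) 
(.lf (nat_lit 19780938) (dlOf (nat_lit 1) (nat_lit 0x80080008002000200089d9903)))) 
(.lf (nat_lit 20302666) (dlOf (nat_lit 1) (nat_lit 0x200189d5c01)))))) (.nd (nat_lit 9) 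
(.nd (nat_lit 6) (.nd (nat_lit 7) (.nd (nat_lit 19) 
(.lf (nat_lit 19251242) (dlOf (nat_lit 2) (nat_lit 0x219d000c7c04000800200060008970002))) 
(.lf (nat_lit 16629802) (dlOf (nat_lit 4) (nat_lit 0x26000000448100010000002200800200000010e040028002001400088c0782)))) 
(.lf (nat_lit 11911338) (dlOf (nat_lit 1) (nat_lit 0x400286c0281)))) (.nd (nat_lit 7) 
(.nd (nat_lit 8) 
(.lf (nat_lit 48611434) (dlOf (nat_lit 2) (nat_lit 0x3b04c0005e04000400400040019420a02))) 
(.lf (nat_lit 50185578) (dlOf (nat_lit 1) (nat_lit 0x400294c3481)))) 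
(.lf (nat_lit 19251434) (dlOf (nat_lit 1) (nat_lit 0x48008001800200280008970603))))) 
(.nd (nat_lit 11) (.nd (nat_lit 19) 
(.lf (nat_lit 23446058) (dlOf (nat_lit 1) (nat_lit 0x40002000a0008b80e82))) 
(.lf (nat_lit 2755510826) (dlOf (nat_lit 1) (nat_lit 0x400281b0e81)))) (.nd (nat_lit 6) 
(.nd (nat_lit 7) (.lf (nat_lit 20302634) (dlOf (nat_lit 1) (nat_lit 0xfc002007200089d5c02))) 
(.lf (nat_lit 2754465450) (dlOf (nat_lit 1) (nat_lit 0x80080004002000200080f7283)))) 
(.lf (nat_lit 20302442) (dlOf (nat_lit 1) (nat_lit 0x10002000200089d5382)))))))) (.nd (nat_lit 31) 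
(.nd (nat_lit 6) (.nd (nat_lit 29) (.nd (nat_lit 26) (.nd (nat_lit 20) (.nd (nat_lit 22) 
(.lf (nat_lit 1342554122) (dlOf (nat_lit 17) (nat_lit 0x650e8803507140074382001600600101d100080e780008734001c38a000e1c1000af85000e0e88002873c002bc0800a83a2003e1c5000d0e080056018036074400ec38a0015704008a1d1001d0e7801d87140004382001560800b01d1002c0e6802d871400ec382004c1730006c8500520e8800f073c00cc38a000d80600101d100090e780008734002c38a00081c10006b8500350e88001073c001ac0801483a2000d502007e1d100030e7800d873400d038a00341c100190b980033c300308744003c39a007c1c500140e0800338200228744007839e00421cd003b0e2800f87040019a1401483a2000a1c5000660200380e880032c08015000800d0002030e0008050583))) 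
(.lf (nat_lit 1346748426) (dlOf (nat_lit 2) (nat_lit 0x5409600bf1819000000)))) 
(.lf (nat_lit 1343602698) (dlOf (nat_lit 1) (nat_lit 0x6c004000600082b0282)))) (.nd (nat_lit 5) 
(.nd (nat_lit 19) 
(.lf (nat_lit 470138890) (dlOf (nat_lit 17) (nat_lit 0x650e8803507140074382001600600101d100080e780008734001c38a000e1c1000af85000e0e88002873c002bc0800a83a2003e1c5000d0e080056018036074400ec38a0015704008a1d1001d0e7801d87140004382001560800b01d1002c0e6802d871400ec382004c1710006c8500520e8800f073c00cc38a000d80600101d100090e780008734002c38a00081c10006b8500350e88001073c001ac0801483a2000d502007e1d100030e7800d873400d038a00341c100190b880033c300308744003c39a007c1c500140e0800338200228744007839e00421cd003b0e2800f87040019a1401483a2000a1c5000660200380e880032c08015000800d0002030e0008050583))) 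
(.lf (nat_lit 1410187274) (dlOf (nat_lit 1) (nat_lit 0x20028180481)))) 
(.lf (nat_lit 472237226) (dlOf (nat_lit 1) (nat_lit 0x20018922c01))))) (.nd (nat_lit 5) 
(.nd (nat_lit 21) (.lf (nat_lit 805683210) (dlOf (nat_lit 1) (nat_lit 0x20008180501))) 
(.lf (nat_lit 1881522186) (dlOf (nat_lit 3) (nat_lit 0x380780067581000103c8033a4080288008004000200100008f40003)))) 
(.nd (nat_lit 26) (.nd (nat_lit 30) 
(.lf (nat_lit 805683242) (dlOf (nat_lit 2) (nat_lit 0x1d805600010098000dc10341800809c800205000008180883))) 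
(.lf (nat_lit 1879425066) (dlOf (nat_lit 1) (nat_lit 0x1000400040008140602)))) 
(.lf (nat_lit 1007009834) (dlOf (nat_lit 1) (nat_lit 0x1000400040008140602)))))) (.nd (nat_lit 26) 
(.nd (nat_lit 5) (.nd (nat_lit 21) (.nd (nat_lit 22) 
(.lf (nat_lit 5637521482) (dlOf (nat_lit 1) (nat_lit 0x7a0008100501))) 
(.lf (nat_lit 1346748490) (dlOf (nat_lit 1) (nat_lit 0x1c002000e0009000602)))) 
(.lf (nat_lit 1881522250) (dlOf (nat_lit 1) (nat_lit 0x70008001000200320008f40603)))) 
(.nd (nat_lit 22) 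
(.lf (nat_lit 1476771946) (dlOf (nat_lit 1) (nat_lit 0x380080018002000600081a0483))) 
(.lf (nat_lit 1346748522) (dlOf (nat_lit 2) (nat_lit 0x8003a0002f0200020009000a01))))) 
(.nd (nat_lit 7) (.lf (nat_lit 6241501258) (dlOf (nat_lit 1) (nat_lit 0x7a0008100501))) 
(.nd (nat_lit 20) (.lf (nat_lit 470663370) (dlOf (nat_lit 1) (nat_lit 0x80008150481))) 
(.lf (nat_lit 6377291978) (dlOf (nat_lit 1) (nat_lit 0x4002000200080c1b82))))))) (.nd (nat_lit 6) 
(.nd (nat_lit 26) (.nd (nat_lit 20) (.nd (nat_lit 10) (.nd (nat_lit 22) 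
(.lf (nat_lit 4026908682) (dlOf (nat_lit 5) (nat_lit 0x60240021b8100020120010d8080020090008660400740480000002000c00280c0801))) 
(.lf (nat_lit 3494232074) (dlOf (nat_lit 2) (nat_lit 0x280a800ea402000200281d0001)))) 
(.nd (nat_lit 7) (.lf (nat_lit 3492660234) (dlOf (nat_lit 1) (nat_lit 0x200180f2881))) 
(.lf (nat_lit 3490045322) (dlOf (nat_lit 2) (nat_lit 0x203c00067e020014002800c901))))) 
(.nd (nat_lit 5) (.nd (nat_lit 11) 
(.lf (nat_lit 3491086346) (dlOf (nat_lit 3) (nat_lit 0x8c088000eb01002604400074c0800380080034002000e0008060483))) 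
(.lf (nat_lit 3493185546) (dlOf (nat_lit 2) (nat_lit 0x1822c0009c040008002000400080f4702)))) 
(.lf (nat_lit 3493708330) (dlOf (nat_lit 1) (nat_lit 0x400281b0e81))))) (.nd (nat_lit 5) 
(.nd (nat_lit 19) (.nd (nat_lit 29) 
(.lf (nat_lit 2617622538) (dlOf (nat_lit 4) (nat_lit 0x3c0620015c02000602a0009c010089017800000080398008008c00201440008100083))) 
(.lf (nat_lit 3154493450) (dlOf (nat_lit 2) (nat_lit 0x1408e0068602000200281c0281)))) 
(.lf (nat_lit 3557670922) (dlOf (nat_lit 8) (nat_lit 0xf03c000581c800540c20004060000a02f00028114003807e00bd30e002807800070390002819000600c2001a05e0002021000680fc003403600bc410000805b000501c000b00d0009404400bbc08000a06f000402d800080e0000806c002c034000d011002ea43000500e0002404400b48040034022005a201000101c002c6c0803180080030002000200082a0283)))) 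
(.nd (nat_lit 19) 
(.lf (nat_lit 2617622570) (dlOf (nat_lit 11) (nat_lit 0x748068001e0310001782023401a0000b80811a80d00005a0402a00680002c0204960340001481023e01a00009c0812400d00003e0409300680001e0201200340000e81006901980006c0803e80080868002019a0008100703))) 
(.lf (nat_lit 3557670954) (dlOf (nat_lit 1) (nat_lit 0x600082a0781)))))) (.nd (nat_lit 5) 
(.nd (nat_lit 30) (.nd (nat_lit 27) 
(.lf (nat_lit 2416296010) (dlOf (nat_lit 1) (nat_lit 0x300080004002000c00080d0d03))) 
(.lf (nat_lit 2550513738) (dlOf (nat_lit 1) (nat_lit 0x300080004002000c00080d0d03)))) 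
(.nd (nat_lit 7) (.lf (nat_lit 3492134986) (dlOf (nat_lit 1) (nat_lit 0x200280a0e81))) 
(.lf (nat_lit 4094544330) (dlOf (nat_lit 1) (nat_lit 0x8008000400200020008054e83))))) 
(.nd (nat_lit 8) (.nd (nat_lit 7) 
(.lf (nat_lit 3492135018) (dlOf (nat_lit 1) (nat_lit 0x1200180a1481))) 
(.lf (nat_lit 3624258794) (dlOf (nat_lit 1) (nat_lit 0xc0008146501)))) (.nd (nat_lit 10) 
(.lf (nat_lit 3492660202) (dlOf (nat_lit 1) (nat_lit 0x200180f2881))) 
(.lf (nat_lit 3492661226) (dlOf (nat_lit 1) (nat_lit 0x200080004002001200080f4603)))))))))) 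
(.nd (nat_lit 5) (.nd (nat_lit 6) (.nd (nat_lit 18) (.nd (nat_lit 31) (.nd (nat_lit 19) 
(.nd (nat_lit 7) (.nd (nat_lit 8) (.nd (nat_lit 9) 
(.lf (nat_lit 939639822) (dlOf (nat_lit 1) (nat_lit 0x40008142881))) 
(.lf (nat_lit 1073857038) (dlOf (nat_lit 7) (nat_lit 0x480290024f8100260148012780801480a40092a0400bc05200494020048029002498100210148012480800f00080080002001e0008018403)))) 
(.lf (nat_lit 939640590) (dlOf (nat_lit 1) (nat_lit 0x40028143b81)))) (.nd (nat_lit 8) 
(.lf (nat_lit 5771477134) (dlOf (nat_lit 1) (nat_lit 0x20028000401))) 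
(.lf (nat_lit 5234609038) (dlOf (nat_lit 1) (nat_lit 0x1c0018055c81))))) (.nd (nat_lit 7) 
(.nd (nat_lit 8) (.nd (nat_lit 20) 
(.lf (nat_lit 11124750) (dlOf (nat_lit 2) (nat_lit 0xfcf9a00187cb00021828660180))) 
(.lf (nat_lit 16367630) (dlOf (nat_lit 2) (nat_lit 0x695a80028ad0001c4750002f838890200)))) 
(.lf (nat_lit 47826190) (dlOf (nat_lit 1) (nat_lit 0x140029403001)))) (.nd (nat_lit 8) 
(.lf (nat_lit 29999246) (dlOf (nat_lit 1) (nat_lit 0x160018e30481))) 
(.lf (nat_lit 738838926) (dlOf (nat_lit 1) (nat_lit 0x400200020008124e82)))))) (.nd (nat_lit 8) 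
(.nd (nat_lit 9) (.nd (nat_lit 7) (.nd (nat_lit 26) 
(.lf (nat_lit 3493445646) (dlOf (nat_lit 1) (nat_lit 0x20028140a01))) 
(.lf (nat_lit 2755248142) (dlOf (nat_lit 1) (nat_lit 0x20028140a01)))) 
(.lf (nat_lit 3489782926) (dlOf (nat_lit 1) (nat_lit 0x2002800c201)))) (.nd (nat_lit 11) 
(.lf (nat_lit 4026647054) (dlOf (nat_lit 1) (nat_lit 0x20008018401))) 
(.lf (nat_lit 3556887054) (dlOf (nat_lit 1) (nat_lit 0x9000280d5081))))) (.nd (nat_lit 7) 
(.nd (nat_lit 9) (.lf (nat_lit 2952904974) (dlOf (nat_lit 1) (nat_lit 0xc0008010701))) 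
(.lf (nat_lit 3087124238) (dlOf (nat_lit 1) (nat_lit 0x8c0018143b81)))) (.nd (nat_lit 10) 
(.nd (nat_lit 26) 
(.lf (nat_lit 3355562894) (dlOf (nat_lit 2) (nat_lit 0x50090000000800600080014002001200080a9003))) 
(.lf (nat_lit 2617365390) (dlOf (nat_lit 1) (nat_lit 0xce00280a9001)))) 
(.lf (nat_lit 2751580046) (dlOf (nat_lit 1) (nat_lit 0x7400400200008004202))))))) (.nd (nat_lit 26) 
(.nd (nat_lit 20) (.nd (nat_lit 29) (.nd (nat_lit 27) (.nd (nat_lit 7) (.nd (nat_lit 28) 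
(.lf (nat_lit 6442827790) (dlOf (nat_lit 4) (nat_lit 0x80c40004004001c0640000502002e0330003019000180bc000000c002c004002600081d0402))) 
(.lf (nat_lit 1342554126) (dlOf (nat_lit 1) (nat_lit 0x2800400020008050a02)))) 
(.lf (nat_lit 36555150) (dlOf (nat_lit 1) (nat_lit 0x20019074e81)))) (.nd (nat_lit 30) 
(.lf (nat_lit 134594574) (dlOf (nat_lit 1) (nat_lit 0x60008080181))) 
(.lf (nat_lit 3355820046) (dlOf (nat_lit 9) (nat_lit 0x14e032000270101a6018814500440008a080060064002e017021200900038024000861002580640004202009603100f50088000f81004f80c40754024000380401260320001a8100930190000000805c0008077400200f40008120183))))) 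
(.nd (nat_lit 28) (.nd (nat_lit 19) (.nd (nat_lit 30) 
(.lf (nat_lit 537247758) (dlOf (nat_lit 1) (nat_lit 0x20028070501))) 
(.lf (nat_lit 1610989582) (dlOf (nat_lit 2) (nat_lit 0x20052004ea0180b0000)))) 
(.lf (nat_lit 2819473422) (dlOf (nat_lit 1) (nat_lit 0x38008005c002000600082a0283)))) 
(.nd (nat_lit 30) 
(.lf (nat_lit 805683214) (dlOf (nat_lit 6) (nat_lit 0x70158029f20400180ac014f202003e05600a6801000402b0052fc080a4004c00000040024002000a0008180502))) 
(.lf (nat_lit 4026908686) (dlOf (nat_lit 2) (nat_lit 0x5e040001fa0180c0800)))))) (.nd (nat_lit 19) 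
(.nd (nat_lit 8) (.nd (nat_lit 22) 
(.lf (nat_lit 11911182) (dlOf (nat_lit 2) (nat_lit 0x6a2800094980038a8286c0000))) 
(.lf (nat_lit 16105486) (dlOf (nat_lit 1) (nat_lit 0x2c0008870201)))) 
(.lf (nat_lit 41271566) (dlOf (nat_lit 1) (nat_lit 0x1a00080134002000e0009237403)))) 
(.nd (nat_lit 8) (.nd (nat_lit 23) 
(.lf (nat_lit 22921230) (dlOf (nat_lit 3) (nat_lit 0x108000000228100326a40000b5180008608000c004001c0008b40182))) 
(.lf (nat_lit 14532622) (dlOf (nat_lit 1) (nat_lit 0x20008760181)))) 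
(.lf (nat_lit 8246542) (dlOf (nat_lit 1) (nat_lit 0x40028519681)))))) (.nd (nat_lit 28) 
(.nd (nat_lit 27) (.nd (nat_lit 29) 
(.lf (nat_lit 3288711182) (dlOf (nat_lit 2) (nat_lit 0x5e040004c70180c0800))) 
(.lf (nat_lit 1678098446) (dlOf (nat_lit 6) (nat_lit 0x7015802cc00400180ac0165902003e05600b1f01000402b0058a4080a4004c00000040024002000a0008180502)))) 
(.nd (nat_lit 29) (.nd (nat_lit 32) 
(.lf (nat_lit 201703438) (dlOf (nat_lit 1) (nat_lit 0x60008080181))) 
(.lf (nat_lit 4496670734) (dlOf (nat_lit 1) (nat_lit 0x60028110001)))) 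
(.lf (nat_lit 738574350) (dlOf (nat_lit 2) (nat_lit 0x200520021f8180b0000))))) (.nd (nat_lit 27) 
(.nd (nat_lit 19) (.lf (nat_lit 1409662990) (dlOf (nat_lit 1) (nat_lit 0x20028070501))) 
(.lf (nat_lit 3557670926) (dlOf (nat_lit 1) (nat_lit 0x38008005c002000600082a0283)))) 
(.nd (nat_lit 30) (.nd (nat_lit 31) 
(.lf (nat_lit 470138894) (dlOf (nat_lit 1) (nat_lit 0x2800400020008050a02))) 
(.lf (nat_lit 2617622542) (dlOf (nat_lit 26) (nat_lit 0x17c060036c02e0002782012c01800ef80bc056405c0004e060096030016f01780da80b80009a0c0180060020802f000260201e101700011c080f500b8004c05200240110002303022a017008c004400f0000000450600e802e00022010004019005b00c006ec05e021c02e0085014807380480008012000430e000a030012c017808d00b8000840c058805e000410201fa02f000200101340178000fc0803980bc06f005c008a0110001f03002a0178000f00800380c8006406002ea02f010c017000080a403d4024009401100170048000e04001680bc03ec05c0003704020402f00c90170000d4100b180bc000640404c005e0003102021e02f000178100b20178000b80805a80bc0002c04049c05e000140202da02f017f0170000001003900080298002001e0008100183))))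 
(.lf (nat_lit 5838848014) (dlOf (nat_lit 4) (nat_lit 0x80c40004004001c0640000502002e0330003019000180bc000000c002c004002600081d0402)))))))) 
(.nd (nat_lit 26) (.nd (nat_lit 18) (.nd (nat_lit 20) (.nd (nat_lit 30) (.nd (nat_lit 8) 
(.nd (nat_lit 19) (.nd (nat_lit 22) 
(.lf (nat_lit 16891982) (dlOf (nat_lit 1) (nat_lit 0xc004000800088e0182))) 
(.lf (nat_lit 12697678) (dlOf (nat_lit 1) (nat_lit 0x4004000200186d0f82)))) 
(.lf (nat_lit 134856782) (dlOf (nat_lit 1) (nat_lit 0x280080040002000200080d0d03)))) 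
(.lf (nat_lit 805424462) (dlOf (nat_lit 1) (nat_lit 0x8008000c00200040008116a03)))) 
(.nd (nat_lit 7) (.nd (nat_lit 8) (.nd (nat_lit 19) 
(.lf (nat_lit 1881260110) (dlOf (nat_lit 4) (nat_lit 0xb0310005017c019da08002c0c4001405f0067602000d0310006017c019c608003800400220018e80002))) 
(.lf (nat_lit 3221864526) (dlOf (nat_lit 9) (nat_lit 0x2a300500009c0810100280004c0408dc0140002502065c00a0001201032300500008c081978028000440404dc0140002102059205502ff028816781380b3809a059204a02ce024817c80d409c4068068202703350130167808c0b20044059201f02c900f006d004800a0020058e00600080000000009009f8008045c0020a4200081a1503)))) 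
(.lf (nat_lit 3221343566) (dlOf (nat_lit 1) (nat_lit 0x20008116a01)))) (.nd (nat_lit 9) 
(.lf (nat_lit 5368824014) (dlOf (nat_lit 1) (nat_lit 0x180018031b81))) 
(.lf (nat_lit 5905696462) (dlOf (nat_lit 1) (nat_lit 0x8008000400200020008143a83)))))) 
(.nd (nat_lit 7) (.nd (nat_lit 8) (.nd (nat_lit 9) 
(.lf (nat_lit 26329166) (dlOf (nat_lit 1) (nat_lit 0x800400020008c30702))) 
(.lf (nat_lit 53594702) (dlOf (nat_lit 1) (nat_lit 0x4002000200095f5282)))) 
(.lf (nat_lit 20040526) (dlOf (nat_lit 1) (nat_lit 0x4002000200089d5c02)))) (.nd (nat_lit 8) 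
(.lf (nat_lit 3260622) (dlOf (nat_lit 2) (nat_lit 0x2251100123818200480))) (.nd (nat_lit 11) 
(.lf (nat_lit 3491348942) (dlOf (nat_lit 5) (nat_lit 0xdc3fa01a81e800400af800d84e0003826e000190a00581fd00e30f40004857c000300c006c3fa01921e8003e0af800c84e00002e1000f83fa01ce1e800740af0000001800280080170002001c0008090a03))) 
(.lf (nat_lit 36817358) (dlOf (nat_lit 1) (nat_lit 0x400200020009074e82))))))) (.nd (nat_lit 28) 
(.nd (nat_lit 20) (.nd (nat_lit 24) (.nd (nat_lit 27) 
(.lf (nat_lit 1610989646) (dlOf (nat_lit 2) (nat_lit 0x30298000280800200080014002000400080b0683))) 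
(.lf (nat_lit 1745207374) (dlOf (nat_lit 1) (nat_lit 0x4002000200080d1682)))) (.nd (nat_lit 19) 
(.lf (nat_lit 29737038) (dlOf (nat_lit 2) (nat_lit 0x3c8d0002c8080028008004c002002e0008e30183))) 
(.lf (nat_lit 51232846) (dlOf (nat_lit 1) (nat_lit 0x1a0019510001))))) (.nd (nat_lit 7) 
(.nd (nat_lit 19) 
(.lf (nat_lit 58048846) (dlOf (nat_lit 10) (nat_lit 0x54328000c408004a194000600400290ca0002f0200188650001701000a4328000b40800421940000c0400250ca000050200148650000101000c4328000000800280080024002000200097b8983))) 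
(.lf (nat_lit 1950030) (dlOf (nat_lit 2) (nat_lit 0x299300019818150600)))) 
(.lf (nat_lit 3522766) (dlOf (nat_lit 4) (nat_lit 0x726860012381001426c00068c0802b1a0800eccd600c04e9006526c0005cc2000b0008012c00200460008200483))))) 
(.nd (nat_lit 29) (.nd (nat_lit 27) 
(.lf (nat_lit 2416296014) (dlOf (nat_lit 3) (nat_lit 0x7c04000055020048020000210180d0d00))) 
(.lf (nat_lit 2550513742) (dlOf (nat_lit 3) (nat_lit 0x7c0400005c020048020000248180d0d00)))) 
(.nd (nat_lit 21) 
(.lf (nat_lit 4026908750) (dlOf (nat_lit 3) (nat_lit 0x1203f000901280368078000c0360024015000300800020024000681c028803c000c01b000190280c1900))) 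
(.lf (nat_lit 1881522254) (dlOf (nat_lit 2) (nat_lit 0x4d038c0000004001800400120008f40682))))))) 
(.nd (nat_lit 29) (.nd (nat_lit 8) (.nd (nat_lit 27) (.nd (nat_lit 18) (.nd (nat_lit 28) 
(.lf (nat_lit 5435932750) (dlOf (nat_lit 1) (nat_lit 0x40028040501))) 
(.lf (nat_lit 2483142734) (dlOf (nat_lit 6) (nat_lit 0x40280001201000a0140000880800980a0000420400a40500001f02002a02a008d01400028060000300c001c004001c0008030f82)))) 
(.lf (nat_lit 3288711246) (dlOf (nat_lit 7) (nat_lit 0x90100000f408007008000078040134026000390200a00130001b8100070098000d408028004c00068040004004002000080c1502)))) 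
(.nd (nat_lit 19) 
(.lf (nat_lit 2348925006) (dlOf (nat_lit 6) (nat_lit 0x40280001201000a0140000880800980a0000420400a40500001f02002a02a008d01400028060000300c001c004001c0008030f82))) 
(.lf (nat_lit 201965646) (dlOf (nat_lit 1) (nat_lit 0x280080040002000200080d0d03))))) 
(.nd (nat_lit 7) (.nd (nat_lit 10) 
(.lf (nat_lit 3557146958) (dlOf (nat_lit 2) (nat_lit 0x120000000e818130800))) 
(.lf (nat_lit 6509677902) (dlOf (nat_lit 1) (nat_lit 0x400400020008146a02)))) (.nd (nat_lit 27) 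
(.lf (nat_lit 6509678030) (dlOf (nat_lit 1) (nat_lit 0x40018146d01))) 
(.lf (nat_lit 1543622094) (dlOf (nat_lit 1) (nat_lit 0x220008146d01)))))) (.nd (nat_lit 7) 
(.nd (nat_lit 19) (.nd (nat_lit 18) 
(.lf (nat_lit 5301715022) (dlOf (nat_lit 1) (nat_lit 0x40028040501))) 
(.lf (nat_lit 738574414) (dlOf (nat_lit 2) (nat_lit 0x30298000280800200080014002000400080b0683)))) 
(.nd (nat_lit 21) 
(.lf (nat_lit 3960062030) (dlOf (nat_lit 3) (nat_lit 0x600240005c0400640120002c02000400081a1901))) 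
(.lf (nat_lit 2754199630) (dlOf (nat_lit 3) (nat_lit 0x821a0001a01000210d0000c80800180080074002001200080c1903))))) 
(.nd (nat_lit 9) (.nd (nat_lit 8) 
(.lf (nat_lit 6375981262) (dlOf (nat_lit 2) (nat_lit 0x1e0250001e018031800))) 
(.lf (nat_lit 2753151438) (dlOf (nat_lit 5) (nat_lit 0xdc42401a81fa00400aa800d84e0003826e000190a005821200e30fd00048554000300c006c42401921fa003e0aa800c84e00002e1000f842401ce1fa00740aa0000001800280080170002001c0008090a03)))) 
(.nd (nat_lit 27) (.nd (nat_lit 30) 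
(.lf (nat_lit 2751580110) (dlOf (nat_lit 5) (nat_lit 0xc10c0001102000208600007810002044000038080028224000c1100000d0400060018004481))) 
(.lf (nat_lit 1677838286) (dlOf (nat_lit 1) (nat_lit 0x40028114481)))) 
(.lf (nat_lit 3959539662) (dlOf (nat_lit 1) (nat_lit 0x100080014002000a0008114483))))))))) 
(.nd (nat_lit 28) (.nd (nat_lit 21) (.nd (nat_lit 26) (.nd (nat_lit 30) (.nd (nat_lit 8) 
(.nd (nat_lit 18) (.nd (nat_lit 6) 
(.lf (nat_lit 47300654) (dlOf (nat_lit 1) (nat_lit 0x2c004001600093d0d02))) 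
(.lf (nat_lit 12697710) (dlOf (nat_lit 2) (nat_lit 0x42d1000070186d1500)))) (.nd (nat_lit 20) 
(.lf (nat_lit 537247790) (dlOf (nat_lit 2) (nat_lit 0x1700a8000250200080028070801))) 
(.lf (nat_lit 1425454) (dlOf (nat_lit 1) (nat_lit 0x10004000200180c0c02))))) (.nd (nat_lit 6) 
(.nd (nat_lit 7) (.lf (nat_lit 6576786734) (dlOf (nat_lit 1) (nat_lit 0x20028146881))) 
(.lf (nat_lit 116654) (dlOf (nat_lit 1) (nat_lit 0x20028004381)))) 
(.lf (nat_lit 6442567662) (dlOf (nat_lit 2) (nat_lit 0x38068001c032000c0178000c81800900080060002000200080f4603))))) 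
(.nd (nat_lit 27) (.nd (nat_lit 7) 
(.lf (nat_lit 1611253038) (dlOf (nat_lit 1) (nat_lit 0x10008000400200020008123203))) 
(.nd (nat_lit 10) (.lf (nat_lit 5905696942) (dlOf (nat_lit 1) (nat_lit 0x400400020008144902))) 
(.lf (nat_lit 3221347502) (dlOf (nat_lit 1) (nat_lit 0x40040002000811c202))))) (.nd (nat_lit 6) 
(.nd (nat_lit 18) (.lf (nat_lit 3892953134) (dlOf (nat_lit 2) (nat_lit 0x6019000000182a0b80))) 
(.lf (nat_lit 3355820078) (dlOf (nat_lit 2) (nat_lit 0x4064008a02b00000028120780)))) 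
(.lf (nat_lit 3355558510) (dlOf (nat_lit 1) (nat_lit 0xce00180a1801)))))) (.nd (nat_lit 7) 
(.nd (nat_lit 11) (.nd (nat_lit 30) (.nd (nat_lit 19) 
(.lf (nat_lit 2348924974) (dlOf (nat_lit 6) (nat_lit 0x5840000002f0201fa0000001701000200f0000140800400a801d0050000030401c602800000018030c00))) 
(.lf (nat_lit 67747886) (dlOf (nat_lit 1) (nat_lit 0x20002001e00082e0e82)))) (.nd (nat_lit 6) 
(.lf (nat_lit 1678098478) (dlOf (nat_lit 20) (nat_lit 0x3c01580005e0400ec0ac0002e0200da0560001681001102b0000b00800d815800340aa000120404ce05500f902a00e4814c000c0a4013404e00e40260071812800c8092000a047013b022805d810c035006e03500310014018009f80b4071c058013a01601af0090099002800cc01003840060170000000040b0108815400c40a8041605301cf0270036013004f409401d404500d601b80d280c400f805e006a02d0158016002e00ac000c048022001601fb009002b8040017401402ac006012c00000003ca00ad8158010c0aa007a054011b02980448148018009c007c04c014f025000780dc056006400ce0310052016807e00b00068048041401300950050009002002ec00c0000e24026e056015a02a80c5014c0270094010e032009e017803400b003740560022029007d01201ee804c027c020032600a00a300400b700180001a3c00700ac0000c0201200560000581001f02500002808010815800980aa0108053007102700a48128011808a0270032009a0188054804c0024024005c006000048b00650250000200800581280000e0400380940000402025a03200001810063025004b80c80000208001c08a002803200d6009800000181eb8008072000204dc0008180803)))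 
(.lf (nat_lit 5435932782) (dlOf (nat_lit 1) (nat_lit 0x20028040c01))))) (.nd (nat_lit 6) 
(.nd (nat_lit 27) 
(.lf (nat_lit 2751584302) (dlOf (nat_lit 1) (nat_lit 0x800800840020026000800a603))) 
(.lf (nat_lit 3959543854) (dlOf (nat_lit 1) (nat_lit 0x2002811a601)))) 
(.lf (nat_lit 6509677678) (dlOf (nat_lit 1) (nat_lit 0x400400020008146082))))) (.nd (nat_lit 6) 
(.nd (nat_lit 8) (.nd (nat_lit 27) 
(.lf (nat_lit 3825323182) (dlOf (nat_lit 1) (nat_lit 0x8c0018146281))) 
(.lf (nat_lit 1812057262) (dlOf (nat_lit 1) (nat_lit 0x40028146281)))) 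
(.lf (nat_lit 5972805550) (dlOf (nat_lit 1) (nat_lit 0x20028144381)))) (.nd (nat_lit 8) 
(.lf (nat_lit 2751579886) (dlOf (nat_lit 1) (nat_lit 0x400400020008003b02))) 
(.lf (nat_lit 3288449518) (dlOf (nat_lit 1) (nat_lit 0x80018017381))))))) (.nd (nat_lit 20) 
(.nd (nat_lit 25) (.nd (nat_lit 18) (.nd (nat_lit 22) 
(.lf (nat_lit 27377710) (dlOf (nat_lit 1) (nat_lit 0x20028cd0881))) 
(.lf (nat_lit 23183406) (dlOf (nat_lit 3) (nat_lit 0x1b4ab6000080100e855b0000240800e000800dc002004c0008b60903)))) 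
(.nd (nat_lit 6) 
(.lf (nat_lit 2753937454) (dlOf (nat_lit 2) (nat_lit 0x8284000d002000600280a0981))) 
(.lf (nat_lit 2753937518) (dlOf (nat_lit 3) (nat_lit 0x403f80000c0200321fc000058180a1500))))) 
(.nd (nat_lit 19) (.nd (nat_lit 18) 
(.lf (nat_lit 52543534) (dlOf (nat_lit 1) (nat_lit 0x8008000c00200020009550283))) 
(.lf (nat_lit 48611374) (dlOf (nat_lit 2) (nat_lit 0x57aa3800090080008008001800200020009420283)))) 
(.nd (nat_lit 7) (.lf (nat_lit 36552750) (dlOf (nat_lit 1) (nat_lit 0x400400020019070002))) 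
(.lf (nat_lit 36555182) (dlOf (nat_lit 1) (nat_lit 0x20019074e81)))))) (.nd (nat_lit 18) 
(.nd (nat_lit 6) (.nd (nat_lit 10) 
(.lf (nat_lit 45727790) (dlOf (nat_lit 2) (nat_lit 0x8a4300012019360280))) 
(.lf (nat_lit 20565038) (dlOf (nat_lit 1) (nat_lit 0x200189d6081)))) (.nd (nat_lit 12) 
(.lf (nat_lit 24232046) (dlOf (nat_lit 2) (nat_lit 0x244ba000401c00000028b91500))) 
(.lf (nat_lit 20041838) (dlOf (nat_lit 1) (nat_lit 0x600189d7d81))))) (.nd (nat_lit 9) 
(.nd (nat_lit 19) 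
(.lf (nat_lit 3522606) (dlOf (nat_lit 2) (nat_lit 0x8682001b33580762c1000500080014002000e0008200003))) 
(.lf (nat_lit 16629806) (dlOf (nat_lit 1) (nat_lit 0x200288c0801)))) (.nd (nat_lit 6) 
(.lf (nat_lit 2754989742) (dlOf (nat_lit 1) (nat_lit 0x8004000200080f7282))) 
(.lf (nat_lit 8247150) (dlOf (nat_lit 1) (nat_lit 0x800800040020002000851a303)))))))) 
(.nd (nat_lit 27) (.nd (nat_lit 18) (.nd (nat_lit 10) (.nd (nat_lit 19) (.nd (nat_lit 7) 
(.nd (nat_lit 30) 
(.lf (nat_lit 2483142702) (dlOf (nat_lit 6) (nat_lit 0x5840000002c0201fa0000001581000200e8000140800400a801d0050000030401c602800000018030c00))) 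
(.lf (nat_lit 5704368174) (dlOf (nat_lit 1) (nat_lit 0x2f8004014a0008050002)))) 
(.lf (nat_lit 1342294446) (dlOf (nat_lit 1) (nat_lit 0x80028004e81)))) (.nd (nat_lit 6) 
(.lf (nat_lit 3557408814) (dlOf (nat_lit 1) (nat_lit 0x200081f0881))) 
(.lf (nat_lit 1342816366) (dlOf (nat_lit 1) (nat_lit 0x80080004002000200080d1503))))) 
(.nd (nat_lit 7) (.nd (nat_lit 8) 
(.lf (nat_lit 1345963054) (dlOf (nat_lit 1) (nat_lit 0x6c0008e22881))) 
(.lf (nat_lit 1342295342) (dlOf (nat_lit 1) (nat_lit 0xe0028006881)))) 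
(.lf (nat_lit 805428398) (dlOf (nat_lit 1) (nat_lit 0x40040002000811c202))))) (.nd (nat_lit 6) 
(.nd (nat_lit 29) (.nd (nat_lit 7) (.nd (nat_lit 22) 
(.lf (nat_lit 1409663022) (dlOf (nat_lit 1) (nat_lit 0x1400200100008070902))) 
(.lf (nat_lit 1346748462) (dlOf (nat_lit 2) (nat_lit 0x1682700003a040014004000c0009000282)))) 
(.lf (nat_lit 3491610798) (dlOf (nat_lit 1) (nat_lit 0x2d000200180008090302)))) (.nd (nat_lit 7) 
(.nd (nat_lit 30) 
(.lf (nat_lit 805683246) (dlOf (nat_lit 14) (nat_lit 0x3c02b0000bc0804681580005a04046c0ac0002c020654055038602a015d014c0c000a4066204e001402681cd81300e6809601d0049010a0238211811405b408606ba03c039601b800580d006f0062052a03000b2017821d80b4107c058003a02400d200e014c805c0d8802c06ac012036e008802a00400e5c014030a008040500300f70000000207c06480aa001405301b0027006d0130063c06e031e0120000786044802b01d181540bf80a606fa0520420027019e81301110094037c043041501b800800d0112006402c8031000e01600f88090079802c08fa01301eb00900cc80280060010000a006008b000000038a802e01580900026004600a0000683008b02b00003008019015800016040a100ac0478055017f029816b01380aa8098059604a02af01b809980c4089c02c05e40130216009000b8000000123003400260000802045e05601af02a813480c8030006204c001300c700900000c3013c004c000000409ec00402000008180902)))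 
(.lf (nat_lit 1879425070) (dlOf (nat_lit 3) (nat_lit 0x6056c000a40400e82b6002e10b00027828140600)))) 
(.lf (nat_lit 1879949486) (dlOf (nat_lit 1) (nat_lit 0x3e0018490301))))) (.nd (nat_lit 7) 
(.nd (nat_lit 8) 
(.lf (nat_lit 3492135022) (dlOf (nat_lit 5) (nat_lit 0x902280001c0400401140000d02000808a0000601001504500002c0800280080078002001c00080a1503))) 
(.nd (nat_lit 19) (.lf (nat_lit 3557146990) (dlOf (nat_lit 1) (nat_lit 0x20018130a01))) 
(.lf (nat_lit 1343078766) (dlOf (nat_lit 1) (nat_lit 0x8008000400200060008150a03))))) 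
(.nd (nat_lit 8) (.lf (nat_lit 1881522414) (dlOf (nat_lit 1) (nat_lit 0x1e0008f41e81))) 
(.lf (nat_lit 3492660206) (dlOf (nat_lit 1) (nat_lit 0x200180f2881))))))) (.nd (nat_lit 6) 
(.nd (nat_lit 19) (.nd (nat_lit 8) (.nd (nat_lit 29) 
(.lf (nat_lit 2617622574) (dlOf (nat_lit 2) (nat_lit 0x1580bc00000040014004001e0008100782))) 
(.lf (nat_lit 1007009838) (dlOf (nat_lit 3) (nat_lit 0x60540000960400e82a0002e11400024028140600)))) 
(.nd (nat_lit 9) (.nd (nat_lit 10) 
(.lf (nat_lit 939641134) (dlOf (nat_lit 1) (nat_lit 0x400400020018144b82))) 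
(.lf (nat_lit 2617365806) (dlOf (nat_lit 1) (nat_lit 0x80080008002000400080a9883)))) 
(.lf (nat_lit 3087124270) (dlOf (nat_lit 1) (nat_lit 0x8008000400200020008143d83))))) 
(.nd (nat_lit 18) (.nd (nat_lit 9) (.nd (nat_lit 21) 
(.lf (nat_lit 3154755630) (dlOf (nat_lit 1) (nat_lit 0x78008006c00200440008320e83))) 
(.lf (nat_lit 1009369134) (dlOf (nat_lit 5) (nat_lit 0x8056000502800018134000ca0c00100ac0006053000802800028134000c81000100ac000c053000802800038134000c410001c0ac000e053000802800040134000be10000400400020009130d02)))) 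
(.lf (nat_lit 473547310) (dlOf (nat_lit 1) (nat_lit 0x40008001c00200020008f68a83)))) 
(.nd (nat_lit 7) (.lf (nat_lit 1007534382) (dlOf (nat_lit 1) (nat_lit 0x240018490501))) 
(.lf (nat_lit 1007534254) (dlOf (nat_lit 1) (nat_lit 0x3e0018490301)))))) (.nd (nat_lit 19) 
(.nd (nat_lit 7) (.nd (nat_lit 9) 
(.lf (nat_lit 5301715054) (dlOf (nat_lit 1) (nat_lit 0x20028040c01))) 
(.lf (nat_lit 2617361006) (dlOf (nat_lit 1) (nat_lit 0x280080030002001200080a1803)))) 
(.nd (nat_lit 9) (.lf (nat_lit 4697736686) (dlOf (nat_lit 1) (nat_lit 0x40028093601))) 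
(.lf (nat_lit 403031022) (dlOf (nat_lit 1) (nat_lit 0x1000180e2881))))) (.nd (nat_lit 26) 
(.nd (nat_lit 7) (.nd (nat_lit 8) 
(.lf (nat_lit 5772001390) (dlOf (nat_lit 3) (nat_lit 0xc025000070100030120000000800300080024002004c0008030a83))) 
(.lf (nat_lit 5772263790) (dlOf (nat_lit 1) (nat_lit 0x20028090f81)))) 
(.lf (nat_lit 5774098670) (dlOf (nat_lit 1) (nat_lit 0x200080010002000e00080f1e83)))) 
(.nd (nat_lit 29) 
(.lf (nat_lit 470401134) (dlOf (nat_lit 1) (nat_lit 0x80080004002000200080d1503))) 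
(.lf (nat_lit 6375981166) (dlOf (nat_lit 3) (nat_lit 0xc0250000a8100030120000000800300080024002004c0008030a83))))))))))))

end

end Pool.Agent.Lib.MP_5854e1_co.Cz

namespace Pool.Agent.Lib.MP_5854e1_co.Cz

noncomputable section

noncomputable def tz171 : DT := (.nd (nat_lit 5) (.nd (nat_lit 3) (.nd (nat_lit 6) (.nd (nat_lit 2) 
(.nd (nat_lit 18) (.nd (nat_lit 26) (.nd (nat_lit 10) (.nd (nat_lit 19) (.nd (nat_lit 20) 
(.nd (nat_lit 31) (.lf (nat_lit 5771476995) (dlOf (nat_lit 1) (nat_lit 0x400400020008000002))) 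
(.lf (nat_lit 3623993347) (dlOf (nat_lit 1) (nat_lit 0x20028080001)))) 
(.lf (nat_lit 47300611) (dlOf (nat_lit 3) (nat_lit 0x85a080032bf6019160400035fb00c8a8193d0000)))) 
(.nd (nat_lit 24) (.nd (nat_lit 27) 
(.lf (nat_lit 805945347) (dlOf (nat_lit 1) (nat_lit 0x800181f0001))) 
(.lf (nat_lit 5772001283) (dlOf (nat_lit 1) (nat_lit 0xa0002005c0008030002)))) (.nd (nat_lit 21) 
(.lf (nat_lit 21610499) (dlOf (nat_lit 2) (nat_lit 0x97af40172f0200080008a50001))) 
(.lf (nat_lit 27901955) (dlOf (nat_lit 1) (nat_lit 0x5800803a000200ec0008d40003)))))) 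
(.nd (nat_lit 8) (.nd (nat_lit 9) 
(.lf (nat_lit 115715) (dlOf (nat_lit 1) (nat_lit 0xc00400020008002882))) 
(.lf (nat_lit 805424643) (dlOf (nat_lit 1) (nat_lit 0x20028117001)))) (.nd (nat_lit 7) 
(.nd (nat_lit 9) (.lf (nat_lit 805424387) (dlOf (nat_lit 1) (nat_lit 0x400400020008116602))) 
(.lf (nat_lit 939640579) (dlOf (nat_lit 2) (nat_lit 0x6013000060080038008000400200020008143b83)))) 
(.lf (nat_lit 3221343619) (dlOf (nat_lit 1) (nat_lit 0x20028116c01)))))) (.nd (nat_lit 19) 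
(.nd (nat_lit 10) (.nd (nat_lit 27) 
(.lf (nat_lit 2483142659) (dlOf (nat_lit 1) (nat_lit 0x20018030001))) (.nd (nat_lit 29) 
(.lf (nat_lit 2348924931) (dlOf (nat_lit 1) (nat_lit 0x20018030001))) 
(.lf (nat_lit 2885795843) (dlOf (nat_lit 1) (nat_lit 0x20028080001))))) (.nd (nat_lit 7) 
(.nd (nat_lit 9) (.lf (nat_lit 5972804611) (dlOf (nat_lit 1) (nat_lit 0x400400020008142882))) 
(.lf (nat_lit 6509678083) (dlOf (nat_lit 1) (nat_lit 0x14004000c0008147002)))) (.nd (nat_lit 27) 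
(.lf (nat_lit 6509677699) (dlOf (nat_lit 1) (nat_lit 0x2e0018146101))) 
(.lf (nat_lit 1812057219) (dlOf (nat_lit 1) (nat_lit 0x24004000c0008146102)))))) (.nd (nat_lit 32) 
(.nd (nat_lit 21) (.nd (nat_lit 27) 
(.lf (nat_lit 1678360579) (dlOf (nat_lit 1) (nat_lit 0x800181f0001))) 
(.lf (nat_lit 4228497411) (dlOf (nat_lit 3) (nat_lit 0xbc062003802b003a082001102980088128000807e0026032000a016001c242800680080088002001000080e0003)))) 
(.lf (nat_lit 1009369091) (dlOf (nat_lit 1) (nat_lit 0x10004001e0009130002)))) (.nd (nat_lit 7) 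
(.nd (nat_lit 27) 
(.lf (nat_lit 4362715139) (dlOf (nat_lit 3) (nat_lit 0xbc064003802c0067502001102d00088144000808c0026033000a0168032d82800680080088002001000080e0003))) 
(.lf (nat_lit 6375981059) (dlOf (nat_lit 1) (nat_lit 0xa0002005c0008030002)))) 
(.lf (nat_lit 6375981187) (dlOf (nat_lit 2) (nat_lit 0x20280002011800100600005a0c008400400160008030e02))))))) 
(.nd (nat_lit 28) (.nd (nat_lit 20) (.nd (nat_lit 31) (.nd (nat_lit 19) (.nd (nat_lit 21) 
(.lf (nat_lit 12959747) (dlOf (nat_lit 7) (nat_lit 0xad49803c0e040382a4a005d51e002ea4c00718c18058d494003ea3c002749800e31030010a928071780806254940042a3c001b49800deb0300a0a92806f540800b00080098002001000086f0003))) 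
(.lf (nat_lit 2473987) (dlOf (nat_lit 1) (nat_lit 0x400400020008160002)))) (.nd (nat_lit 23) 
(.lf (nat_lit 537772035) (dlOf (nat_lit 1) (nat_lit 0x400400020008180002))) 
(.lf (nat_lit 42844163) (dlOf (nat_lit 1) (nat_lit 0x400400020009280002))))) (.nd (nat_lit 26) 
(.nd (nat_lit 19) (.lf (nat_lit 3221602307) (dlOf (nat_lit 1) (nat_lit 0x40008160001))) 
(.lf (nat_lit 2819473411) (dlOf (nat_lit 2) (nat_lit 0x30110000000800f000800bc002003000082a0003)))) 
(.nd (nat_lit 27) 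
(.lf (nat_lit 3288711171) (dlOf (nat_lit 5) (nat_lit 0xa0000004f80800680000027a040034000001070200de01e000000180c0000))) 
(.lf (nat_lit 3959799811) (dlOf (nat_lit 1) (nat_lit 0x40008160001)))))) (.nd (nat_lit 21) 
(.nd (nat_lit 22) (.nd (nat_lit 19) 
(.lf (nat_lit 1425411) (dlOf (nat_lit 1) (nat_lit 0xc004000600080c0002))) 
(.lf (nat_lit 18726915) (dlOf (nat_lit 1) (nat_lit 0x140028970001)))) (.nd (nat_lit 10) 
(.lf (nat_lit 55951363) (dlOf (nat_lit 1) (nat_lit 0x20002001400096f0002))) 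
(.lf (nat_lit 47563779) (dlOf (nat_lit 1) (nat_lit 0xb8008007400200360009402883))))) 
(.nd (nat_lit 9) (.nd (nat_lit 7) 
(.lf (nat_lit 4046851) (dlOf (nat_lit 1) (nat_lit 0x20018270001))) 
(.lf (nat_lit 3522691) (dlOf (nat_lit 1) (nat_lit 0x100028200101)))) (.nd (nat_lit 10) 
(.lf (nat_lit 2755510787) (dlOf (nat_lit 2) (nat_lit 0x300198022c07e002801c000398381b0d80))) 
(.lf (nat_lit 20305411) (dlOf (nat_lit 1) (nat_lit 0x200089d9c01))))))) (.nd (nat_lit 26) 
(.nd (nat_lit 29) (.nd (nat_lit 7) (.nd (nat_lit 8) 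
(.lf (nat_lit 5637521411) (dlOf (nat_lit 1) (nat_lit 0x80028100001))) 
(.lf (nat_lit 3492660995) (dlOf (nat_lit 1) (nat_lit 0x200180f3b81)))) 
(.lf (nat_lit 5772263811) (dlOf (nat_lit 1) (nat_lit 0x8008039400200b60008091003)))) 
(.nd (nat_lit 21) (.nd (nat_lit 30) 
(.lf (nat_lit 5100650499) (dlOf (nat_lit 1) (nat_lit 0xa0028110001))) 
(.lf (nat_lit 4026908675) (dlOf (nat_lit 5) (nat_lit 0xa0000007400800680000039c040034000001990200de01e000000180c0000)))) 
(.lf (nat_lit 1881522179) (dlOf (nat_lit 2) (nat_lit 0x1d07580325c0800700080008002001c0008f40003))))) 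
(.nd (nat_lit 31) (.nd (nat_lit 19) (.nd (nat_lit 27) 
(.lf (nat_lit 6241501187) (dlOf (nat_lit 1) (nat_lit 0x80028100001))) 
(.lf (nat_lit 5838848003) (dlOf (nat_lit 2) (nat_lit 0x2019000200bc010ca080004004002a00081d0002)))) 
(.lf (nat_lit 1410187267) (dlOf (nat_lit 1) (nat_lit 0x400400020008180002)))) (.nd (nat_lit 11) 
(.nd (nat_lit 19) 
(.lf (nat_lit 2617622531) (dlOf (nat_lit 1) (nat_lit 0x290008004c002013e0008100003))) 
(.lf (nat_lit 3557670915) (dlOf (nat_lit 2) (nat_lit 0x30110000000800f000800bc002003000082a0003)))) 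
(.lf (nat_lit 2483410947) (dlOf (nat_lit 1) (nat_lit 0x200280fa601)))))))) (.nd (nat_lit 18) 
(.nd (nat_lit 29) (.nd (nat_lit 19) (.nd (nat_lit 7) (.nd (nat_lit 20) (.nd (nat_lit 27) 
(.lf (nat_lit 1140965383) (dlOf (nat_lit 1) (nat_lit 0x18008000400200020008030003))) 
(.lf (nat_lit 2617360391) (dlOf (nat_lit 1) (nat_lit 0xe000180a0001)))) (.nd (nat_lit 8) 
(.lf (nat_lit 17940487) (dlOf (nat_lit 1) (nat_lit 0xa0018900001))) 
(.lf (nat_lit 20044551) (dlOf (nat_lit 1) (nat_lit 0x200189db981))))) (.nd (nat_lit 21) 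
(.lf (nat_lit 6711001223) (dlOf (nat_lit 1) (nat_lit 0x8008000400200020008030f03))) 
(.lf (nat_lit 44155015) (dlOf (nat_lit 1) (nat_lit 0x10004000200092d0e02))))) (.nd (nat_lit 22) 
(.nd (nat_lit 7) (.nd (nat_lit 23) 
(.lf (nat_lit 2736135) (dlOf (nat_lit 1) (nat_lit 0x200281a0581))) 
(.lf (nat_lit 27901959) (dlOf (nat_lit 1) (nat_lit 0x38008000800200080008d40003)))) 
(.lf (nat_lit 5772001415) (dlOf (nat_lit 5) (nat_lit 0xc405e004e02d0026015801880a800980520062025003700d80140060009802e0052016002600a8013004c0098024004c00d00270058013002400f8008004c00100250000000d49800080bc000c05a003a02a0034012801a806c0020024001800b004e0020000d04000100a800a404a007201b002e00b001f0010000541400f804a0000c0205320028030f01)))) 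
(.nd (nat_lit 20) (.lf (nat_lit 21610503) (dlOf (nat_lit 2) (nat_lit 0x3d7a00b9c818a50000))) 
(.nd (nat_lit 23) (.lf (nat_lit 24756231) (dlOf (nat_lit 1) (nat_lit 0x70004001e0008bb0002))) 
(.lf (nat_lit 16367623) (dlOf (nat_lit 1) (nat_lit 0x1000400260008890002))))))) (.nd (nat_lit 11) 
(.nd (nat_lit 7) (.nd (nat_lit 8) 
(.lf (nat_lit 2013380615) (dlOf (nat_lit 1) (nat_lit 0x18008000400200020008030003))) 
(.lf (nat_lit 536987399) (dlOf (nat_lit 1) (nat_lit 0x400400020008003b82)))) (.nd (nat_lit 26) 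
(.lf (nat_lit 4966170759) (dlOf (nat_lit 1) (nat_lit 0x800400060008030e02))) 
(.lf (nat_lit 6107021447) (dlOf (nat_lit 1) (nat_lit 0xc00400060008030e02))))) (.nd (nat_lit 10) 
(.nd (nat_lit 26) (.lf (nat_lit 939640839) (dlOf (nat_lit 1) (nat_lit 0x1400400020008144702))) 
(.lf (nat_lit 5972805639) (dlOf (nat_lit 1) (nat_lit 0x1400200020008144702)))) (.nd (nat_lit 7) 
(.lf (nat_lit 805424391) (dlOf (nat_lit 1) (nat_lit 0x8008000400200020008116683))) 
(.lf (nat_lit 805428359) (dlOf (nat_lit 1) (nat_lit 0x6002811c201))))))) (.nd (nat_lit 20) 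
(.nd (nat_lit 27) (.nd (nat_lit 26) (.nd (nat_lit 10) (.nd (nat_lit 29) 
(.lf (nat_lit 1342554119) (dlOf (nat_lit 5) (nat_lit 0x1c3a200081c10008d8200010e8800187040023208001c3a2000a1c10007d0200070e880028704001ee080090002002c0008050582))) 
(.lf (nat_lit 4026908679) (dlOf (nat_lit 2) (nat_lit 0x44020005fe0180c0400)))) (.nd (nat_lit 19) 
(.lf (nat_lit 1344652295) (dlOf (nat_lit 1) (nat_lit 0x2c0028922881))) 
(.lf (nat_lit 3492660231) (dlOf (nat_lit 1) (nat_lit 0x4002000200080f2882))))) (.nd (nat_lit 29) 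
(.nd (nat_lit 30) (.lf (nat_lit 4362452999) (dlOf (nat_lit 1) (nat_lit 0x140008080001))) 
(.lf (nat_lit 3288711175) (dlOf (nat_lit 2) (nat_lit 0x44020003338180c0400)))) (.nd (nat_lit 7) 
(.lf (nat_lit 604356615) (dlOf (nat_lit 1) (nat_lit 0xe00081a0001))) 
(.lf (nat_lit 2754464135) (dlOf (nat_lit 1) (nat_lit 0xe00180f4e81)))))) (.nd (nat_lit 26) 
(.nd (nat_lit 28) (.nd (nat_lit 30) 
(.lf (nat_lit 134594567) (dlOf (nat_lit 1) (nat_lit 0xc800800d400200460008080003))) 
(.lf (nat_lit 3355820039) (dlOf (nat_lit 5) (nat_lit 0x1802f006c201002900780343008008003c01a16040050056000000200300028120001)))) 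
(.lf (nat_lit 1476771847) (dlOf (nat_lit 1) (nat_lit 0xe00081a0001)))) (.nd (nat_lit 31) 
(.nd (nat_lit 22) (.nd (nat_lit 28) 
(.lf (nat_lit 201703431) (dlOf (nat_lit 1) (nat_lit 0xc800800d400200460008080003))) 
(.lf (nat_lit 470138887) (dlOf (nat_lit 5) (nat_lit 0x1c3a200081c10008b8200010e8800187040022a08001c3a2000a1c10007d8200070e880028704001ee080090002002c0008050582)))) 
(.lf (nat_lit 474333191) (dlOf (nat_lit 1) (nat_lit 0x400400020009150002)))) (.nd (nat_lit 29) 
(.lf (nat_lit 2617622535) (dlOf (nat_lit 2) (nat_lit 0x7400c0036805e007080400140008100001))) 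
(.lf (nat_lit 4228235271) (dlOf (nat_lit 1) (nat_lit 0x140008080001))))))) (.nd (nat_lit 10) 
(.nd (nat_lit 19) (.nd (nat_lit 28) (.nd (nat_lit 8) 
(.lf (nat_lit 2752888839) (dlOf (nat_lit 2) (nat_lit 0x81e4001f4040018004004a0018060482))) 
(.lf (nat_lit 20306183) (dlOf (nat_lit 1) (nat_lit 0x200289daa01)))) (.nd (nat_lit 31) 
(.lf (nat_lit 1343602695) (dlOf (nat_lit 1) (nat_lit 0x200282b0281))) 
(.lf (nat_lit 3491086343) (dlOf (nat_lit 2) (nat_lit 0x81ec0031a040018004004a0018060482))))) 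
(.nd (nat_lit 7) (.nd (nat_lit 22) 
(.lf (nat_lit 10338311) (dlOf (nat_lit 1) (nat_lit 0x200085d0001))) 
(.lf (nat_lit 22921223) (dlOf (nat_lit 1) (nat_lit 0x1a0028b40001)))) 
(.lf (nat_lit 45992327) (dlOf (nat_lit 1) (nat_lit 0x400400020019384e82))))) (.nd (nat_lit 7) 
(.nd (nat_lit 8) (.nd (nat_lit 19) 
(.lf (nat_lit 43369479) (dlOf (nat_lit 1) (nat_lit 0xc00192a2881))) 
(.lf (nat_lit 56476679) (dlOf (nat_lit 1) (nat_lit 0x20009732881)))) 
(.lf (nat_lit 2754989319) (dlOf (nat_lit 1) (nat_lit 0x2c00080f6681)))) (.nd (nat_lit 9) 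
(.lf (nat_lit 8246407) (dlOf (nat_lit 1) (nat_lit 0x20018519501))) 
(.lf (nat_lit 20303495) (dlOf (nat_lit 1) (nat_lit 0x200289d7181))))))))) (.nd (nat_lit 2) 
(.nd (nat_lit 18) (.nd (nat_lit 7) (.nd (nat_lit 29) (.nd (nat_lit 31) (.nd (nat_lit 9) 
(.nd (nat_lit 19) (.nd (nat_lit 21) 
(.lf (nat_lit 25280579) (dlOf (nat_lit 1) (nat_lit 0x8008000800200020008bf0c03))) 
(.lf (nat_lit 52543555) (dlOf (nat_lit 2) (nat_lit 0x40a43000aa019550600)))) 
(.lf (nat_lit 21610563) (dlOf (nat_lit 5) (nat_lit 0xbdaa0005ed30003f6800027a86001f508000fdaa0007ed30004f6800013a86001f4080015daa000bed30005f6800027a86001f3080015daa0005ed30006f6800023a86001f20800e40008a51801)))) 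
(.nd (nat_lit 8) (.lf (nat_lit 7980611) (dlOf (nat_lit 1) (nat_lit 0x1000400020008513802))) 
(.lf (nat_lit 46254915) (dlOf (nat_lit 1) (nat_lit 0x60019385c01))))) (.nd (nat_lit 8) 
(.nd (nat_lit 27) (.lf (nat_lit 2483142723) (dlOf (nat_lit 1) (nat_lit 0x20028030e01))) 
(.lf (nat_lit 2348924995) (dlOf (nat_lit 1) (nat_lit 0x20028030e01)))) (.nd (nat_lit 10) 
(.lf (nat_lit 3288449347) (dlOf (nat_lit 2) (nat_lit 0x50118013180800600080004002000a0008014c03))) 
(.lf (nat_lit 3221347651) (dlOf (nat_lit 1) (nat_lit 0x800800400020002000811c903)))))) 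
(.nd (nat_lit 10) (.nd (nat_lit 8) (.nd (nat_lit 26) 
(.lf (nat_lit 537509955) (dlOf (nat_lit 1) (nat_lit 0xf00080028002000600080a0d03))) 
(.lf (nat_lit 3960062019) (dlOf (nat_lit 2) (nat_lit 0x18024000aa040014002000600081a1882)))) 
(.lf (nat_lit 4026646851) (dlOf (nat_lit 2) (nat_lit 0x501180296c0800600080004002000a0008014c03)))) 
(.nd (nat_lit 9) (.nd (nat_lit 8) 
(.lf (nat_lit 6375457859) (dlOf (nat_lit 1) (nat_lit 0x400400020008002882))) 
(.lf (nat_lit 1611253059) (dlOf (nat_lit 1) (nat_lit 0xe0018123301)))) (.nd (nat_lit 26) 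
(.lf (nat_lit 5100389955) (dlOf (nat_lit 1) (nat_lit 0x40028053801))) 
(.lf (nat_lit 4899063363) (dlOf (nat_lit 1) (nat_lit 0x1000400020008053802))))))) (.nd (nat_lit 8) 
(.nd (nat_lit 9) (.nd (nat_lit 12) (.nd (nat_lit 21) 
(.lf (nat_lit 474072259) (dlOf (nat_lit 13) (nat_lit 0x142d20002802004616900020b400098560003c28a00080c7006100c0000983000f853000101ae0002304001016900070b3000400600003a0c00080300001b020002169000200c00006010003859800400300001004000216900020b3000100600001c0c00082d20008168001600c000014180088060000040400080300000102004401800000019082d00))) 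
(.lf (nat_lit 48350403) (dlOf (nat_lit 3) (nat_lit 0x200000000a0400f0000000000200040009402d01)))) 
(.lf (nat_lit 3355563203) (dlOf (nat_lit 1) (nat_lit 0x2c002000800080a9502)))) (.nd (nat_lit 11) 
(.lf (nat_lit 20042435) (dlOf (nat_lit 1) (nat_lit 0x4002000200089d8c82))) 
(.lf (nat_lit 57264835) (dlOf (nat_lit 1) (nat_lit 0x4e0029795801))))) (.nd (nat_lit 9) 
(.nd (nat_lit 19) (.lf (nat_lit 1881260483) (dlOf (nat_lit 1) (nat_lit 0x18004000e0008e81082))) 
(.lf (nat_lit 473547203) (dlOf (nat_lit 1) (nat_lit 0x20028f67a81)))) (.nd (nat_lit 10) 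
(.nd (nat_lit 12) 
(.lf (nat_lit 20564931) (dlOf (nat_lit 3) (nat_lit 0x13a40000a808002e8c8000ce3000046dd000108389d5d80))) 
(.lf (nat_lit 805428163) (dlOf (nat_lit 2) (nat_lit 0x80154003740400140040008000811be02)))) 
(.lf (nat_lit 3087124419) (dlOf (nat_lit 1) (nat_lit 0x8008000400200020008144403))))))) 
(.nd (nat_lit 20) (.nd (nat_lit 28) (.nd (nat_lit 23) (.nd (nat_lit 7) (.nd (nat_lit 26) 
(.lf (nat_lit 1610989635) (dlOf (nat_lit 2) (nat_lit 0x1b80aa008a054007f01b802180d80214044011401e004d00c8004002c0004c200084004002c00080b0582))) 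
(.lf (nat_lit 738574403) (dlOf (nat_lit 2) (nat_lit 0x1b80aa008a054007f01b802180d80214044011401e004d00c8004002c0004a200084004002c00080b0582)))) 
(.lf (nat_lit 19780547) (dlOf (nat_lit 1) (nat_lit 0x80080004002000200089d9203)))) (.nd (nat_lit 9) 
(.nd (nat_lit 19) 
(.lf (nat_lit 48611395) (dlOf (nat_lit 2) (nat_lit 0xf16088008f0080028008000c00200040009420603))) 
(.lf (nat_lit 13484099) (dlOf (nat_lit 1) (nat_lit 0x20018730c01)))) 
(.lf (nat_lit 8767043) (dlOf (nat_lit 1) (nat_lit 0x100018513801))))) (.nd (nat_lit 27) 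
(.nd (nat_lit 21) (.nd (nat_lit 22) (.nd (nat_lit 29) 
(.lf (nat_lit 2416296003) (dlOf (nat_lit 2) (nat_lit 0x88000000c004007c004002000080d0c02))) 
(.lf (nat_lit 4026908739) (dlOf (nat_lit 2) (nat_lit 0xe000000000180c1880)))) 
(.lf (nat_lit 1346748483) (dlOf (nat_lit 2) (nat_lit 0x4260960213042002a020c08300e8044c073001300f0008f03001d8008008000200060009000603)))) 
(.lf (nat_lit 3492134979) (dlOf (nat_lit 1) (nat_lit 0x20008003c002002200080a0e03)))) 
(.nd (nat_lit 7) (.nd (nat_lit 22) 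
(.lf (nat_lit 2550513731) (dlOf (nat_lit 2) (nat_lit 0x88000000d204007c004002000080d0c02))) 
(.lf (nat_lit 474333251) (dlOf (nat_lit 1) (nat_lit 0x20019150d81)))) 
(.lf (nat_lit 2080751811) (dlOf (nat_lit 1) (nat_lit 0x200180c1701)))))) (.nd (nat_lit 7) 
(.nd (nat_lit 23) (.nd (nat_lit 8) (.nd (nat_lit 21) 
(.lf (nat_lit 1425475) (dlOf (nat_lit 1) (nat_lit 0x1c002001400080c0e02))) 
(.lf (nat_lit 37077059) (dlOf (nat_lit 1) (nat_lit 0x20009090601)))) 
(.lf (nat_lit 3522883) (dlOf (nat_lit 1) (nat_lit 0x48008002000200100008200603)))) (.nd (nat_lit 9) 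
(.nd (nat_lit 21) (.lf (nat_lit 47562819) (dlOf (nat_lit 1) (nat_lit 0x5a0029400001))) 
(.lf (nat_lit 49659971) (dlOf (nat_lit 1) (nat_lit 0x800400020009480602)))) 
(.lf (nat_lit 12436035) (dlOf (nat_lit 1) (nat_lit 0x4002000200086c1102))))) (.nd (nat_lit 8) 
(.nd (nat_lit 9) (.lf (nat_lit 3522755) (dlOf (nat_lit 1) (nat_lit 0x15800400a80008200402))) 
(.lf (nat_lit 20304579) (dlOf (nat_lit 1) (nat_lit 0x4002000200089d8c82)))) (.nd (nat_lit 11) 
(.lf (nat_lit 1950147) (dlOf (nat_lit 1) (nat_lit 0x8008000c00200060008150903))) 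
(.lf (nat_lit 1881000387) (dlOf (nat_lit 1) (nat_lit 0x2e0018dd4e81)))))))) (.nd (nat_lit 30) 
(.nd (nat_lit 26) (.nd (nat_lit 8) (.nd (nat_lit 20) (.nd (nat_lit 9) (.nd (nat_lit 18) 
(.lf (nat_lit 134856775) (dlOf (nat_lit 1) (nat_lit 0x18004002c00180d0c82))) 
(.lf (nat_lit 53329991) (dlOf (nat_lit 1) (nat_lit 0x8008000400200020009590603)))) (.nd (nat_lit 7) 
(.lf (nat_lit 23446087) (dlOf (nat_lit 1) (nat_lit 0x400200020008b81102))) 
(.lf (nat_lit 805424839) (dlOf (nat_lit 1) (nat_lit 0x20008000800200020008117303))))) 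
(.nd (nat_lit 21) (.nd (nat_lit 7) 
(.lf (nat_lit 55951431) (dlOf (nat_lit 1) (nat_lit 0x800080004002000c00096f0603))) 
(.lf (nat_lit 47563975) (dlOf (nat_lit 1) (nat_lit 0x40009402d01)))) (.nd (nat_lit 9) 
(.lf (nat_lit 37077063) (dlOf (nat_lit 1) (nat_lit 0x8008001400200040009090603))) 
(.lf (nat_lit 11649607) (dlOf (nat_lit 1) (nat_lit 0x4002000200086c1102)))))) (.nd (nat_lit 7) 
(.nd (nat_lit 10) (.nd (nat_lit 11) 
(.lf (nat_lit 4563517767) (dlOf (nat_lit 2) (nat_lit 0x100178000000801b00080034002002e0008090c83))) 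
(.lf (nat_lit 671205703) (dlOf (nat_lit 3) (nat_lit 0x800d80003408001806c0000004000800400220018144d02)))) 
(.lf (nat_lit 805424455) (dlOf (nat_lit 2) (nat_lit 0x80a2000030200040028116981)))) 
(.nd (nat_lit 9) (.lf (nat_lit 805423559) (dlOf (nat_lit 1) (nat_lit 0x800400040018114e82))) 
(.lf (nat_lit 20040647) (dlOf (nat_lit 2) (nat_lit 0x2ccd0000e8189d5d80)))))) (.nd (nat_lit 10) 
(.nd (nat_lit 27) (.nd (nat_lit 8) 
(.lf (nat_lit 2483142727) (dlOf (nat_lit 1) (nat_lit 0x20018030f01))) 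
(.lf (nat_lit 2751580487) (dlOf (nat_lit 2) (nat_lit 0x260c800006818004d00)))) (.nd (nat_lit 19) 
(.lf (nat_lit 2348924999) (dlOf (nat_lit 1) (nat_lit 0x20018030f01))) 
(.lf (nat_lit 201965639) (dlOf (nat_lit 1) (nat_lit 0x18004002c00180d0c82))))) (.nd (nat_lit 7) 
(.nd (nat_lit 11) (.lf (nat_lit 2751579207) (dlOf (nat_lit 1) (nat_lit 0x400400020008002882))) 
(.lf (nat_lit 2754726983) (dlOf (nat_lit 1) (nat_lit 0x200280f6081)))) (.nd (nat_lit 19) 
(.lf (nat_lit 1009108167) (dlOf (nat_lit 2) (nat_lit 0x5907180007c0801b8008002800200700009082d03))) 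
(.lf (nat_lit 69059783) (dlOf (nat_lit 1) (nat_lit 0x800188a2d01))))))) (.nd (nat_lit 28) 
(.nd (nat_lit 31) (.nd (nat_lit 10) (.nd (nat_lit 7) 
(.lf (nat_lit 1677838663) (dlOf (nat_lit 1) (nat_lit 0xa0028114d01))) 
(.lf (nat_lit 5905696967) (dlOf (nat_lit 1) (nat_lit 0x3e0018144981)))) (.nd (nat_lit 26) 
(.lf (nat_lit 5905695815) (dlOf (nat_lit 1) (nat_lit 0x400400020008142882))) 
(.lf (nat_lit 1677837383) (dlOf (nat_lit 1) (nat_lit 0x8008000400200020008112883))))) 
(.nd (nat_lit 27) (.nd (nat_lit 9) (.nd (nat_lit 18) 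
(.lf (nat_lit 3221864519) (dlOf (nat_lit 3) (nat_lit 0x600240005c0400640120002c02000400081a1481))) 
(.lf (nat_lit 3288711239) (dlOf (nat_lit 3) (nat_lit 0x1203f000901280368078000c0360024015000300800020024000681c028803c000c01b000190280c1480)))) 
(.lf (nat_lit 3288449607) (dlOf (nat_lit 1) (nat_lit 0x6c0028018801)))) (.nd (nat_lit 8) 
(.nd (nat_lit 10) 
(.lf (nat_lit 3960062023) (dlOf (nat_lit 1) (nat_lit 0x200080074002008a00081a1883))) 
(.lf (nat_lit 3959538759) (dlOf (nat_lit 1) (nat_lit 0x8008000400200020008112883)))) 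
(.lf (nat_lit 3959540039) (dlOf (nat_lit 1) (nat_lit 0xa0008000400200160008114d03)))))) 
(.nd (nat_lit 10) (.nd (nat_lit 18) (.nd (nat_lit 7) (.nd (nat_lit 21) 
(.lf (nat_lit 1409925191) (dlOf (nat_lit 1) (nat_lit 0x1c002001600080a0e02))) 
(.lf (nat_lit 3492397127) (dlOf (nat_lit 3) (nat_lit 0x82050001a0100021028000c80800180080074002001200080c1483)))) 
(.lf (nat_lit 6375981255) (dlOf (nat_lit 2) (nat_lit 0x280940006804002000200280008031782)))) 
(.nd (nat_lit 29) 
(.lf (nat_lit 3492134983) (dlOf (nat_lit 9) (nat_lit 0x38118000408b000138200110460002022c0004c0801fc118012208b000120200080460004822c0004608000c1160002002002c08c000c0458000781000b0230003c1160001204002a08c00010458000441001b80080184002000200080a0e03))) 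
(.lf (nat_lit 1881522247) (dlOf (nat_lit 2) (nat_lit 0x1e0e3000a3818f40600))))) (.nd (nat_lit 7) 
(.nd (nat_lit 26) 
(.lf (nat_lit 3489779015) (dlOf (nat_lit 3) (nat_lit 0x802c0001002000202800007818006980))) 
(.lf (nat_lit 1543621959) (dlOf (nat_lit 2) (nat_lit 0x100c0000400800d0008001000200020008146983)))) 
(.nd (nat_lit 8) (.lf (nat_lit 3489782983) (dlOf (nat_lit 1) (nat_lit 0x16001800c201))) 
(.nd (nat_lit 18) (.lf (nat_lit 1409404359) (dlOf (nat_lit 1) (nat_lit 0x400200020008006d02))) 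
(.lf (nat_lit 3624259015) (dlOf (nat_lit 1) (nat_lit 0x2e0028146d01))))))))))) (.nd (nat_lit 2) 
(.nd (nat_lit 6) (.nd (nat_lit 18) (.nd (nat_lit 7) (.nd (nat_lit 23) (.nd (nat_lit 19) 
(.nd (nat_lit 8) (.nd (nat_lit 9) 
(.lf (nat_lit 3492923403) (dlOf (nat_lit 2) (nat_lit 0x108050001e016000288280f4700))) 
(.lf (nat_lit 3959544331) (dlOf (nat_lit 1) (nat_lit 0xa002811b281)))) 
(.lf (nat_lit 4563517707) (dlOf (nat_lit 2) (nat_lit 0x2a0178005940801280080064002001c0008090a83)))) 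
(.nd (nat_lit 27) (.nd (nat_lit 20) 
(.lf (nat_lit 21610507) (dlOf (nat_lit 1) (nat_lit 0x48008000400200080008a50083))) 
(.lf (nat_lit 3784715) (dlOf (nat_lit 1) (nat_lit 0x400400020008220002)))) (.nd (nat_lit 26) 
(.lf (nat_lit 134856715) (dlOf (nat_lit 1) (nat_lit 0x10004000600080d0482))) 
(.lf (nat_lit 201965579) (dlOf (nat_lit 1) (nat_lit 0x10004000600080d0482)))))) (.nd (nat_lit 21) 
(.nd (nat_lit 11) (.nd (nat_lit 22) 
(.lf (nat_lit 26853387) (dlOf (nat_lit 2) (nat_lit 0x17a9680173a04002400400080008c80482))) 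
(.lf (nat_lit 31047691) (dlOf (nat_lit 1) (nat_lit 0x400400020008e60602)))) 
(.lf (nat_lit 9029643) (dlOf (nat_lit 1) (nat_lit 0x20028514701)))) (.nd (nat_lit 19) 
(.lf (nat_lit 27377675) (dlOf (nat_lit 1) (nat_lit 0xc00200120008cd0282))) (.nd (nat_lit 24) 
(.lf (nat_lit 44679179) (dlOf (nat_lit 2) (nat_lit 0x400000157c080008008001000200040009320003))) 
(.lf (nat_lit 27901963) (dlOf (nat_lit 1) (nat_lit 0x20018d40081))))))) (.nd (nat_lit 8) 
(.nd (nat_lit 21) (.nd (nat_lit 10) 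
(.lf (nat_lit 5368823947) (dlOf (nat_lit 2) (nat_lit 0x2017004c0040000d41000500080014002002c0008030f03))) 
(.nd (nat_lit 19) (.lf (nat_lit 2818688139) (dlOf (nat_lit 1) (nat_lit 0x3c00280d2b01))) 
(.lf (nat_lit 1611252875) (dlOf (nat_lit 2) (nat_lit 0x160570000e818122b00))))) (.nd (nat_lit 19) 
(.nd (nat_lit 20) (.lf (nat_lit 2753675403) (dlOf (nat_lit 1) (nat_lit 0x800400020008090102))) 
(.lf (nat_lit 3260555) (dlOf (nat_lit 2) (nat_lit 0x984960001d818200100)))) 
(.lf (nat_lit 12173451) (dlOf (nat_lit 1) (nat_lit 0x1c002000200086c0102))))) (.nd (nat_lit 10) 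
(.nd (nat_lit 11) (.nd (nat_lit 20) 
(.lf (nat_lit 5772001675) (dlOf (nat_lit 1) (nat_lit 0x20018035d81))) 
(.lf (nat_lit 7979403) (dlOf (nat_lit 1) (nat_lit 0x20008511001)))) 
(.lf (nat_lit 2754726283) (dlOf (nat_lit 1) (nat_lit 0x200180f4e81)))) (.nd (nat_lit 9) 
(.nd (nat_lit 11) (.lf (nat_lit 7980427) (dlOf (nat_lit 1) (nat_lit 0x8008002800200060008513603))) 
(.lf (nat_lit 3221343627) (dlOf (nat_lit 1) (nat_lit 0x20028116c81)))) (.nd (nat_lit 27) 
(.lf (nat_lit 2751580043) (dlOf (nat_lit 1) (nat_lit 0x400400020008004182))) 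
(.lf (nat_lit 3959539595) (dlOf (nat_lit 1) (nat_lit 0x400400020008114182)))))))) (.nd (nat_lit 30) 
(.nd (nat_lit 29) (.nd (nat_lit 21) (.nd (nat_lit 7) (.nd (nat_lit 19) (.nd (nat_lit 20) 
(.lf (nat_lit 2617622539) (dlOf (nat_lit 13) (nat_lit 0xc80c400c0058001e02a000d0050005642000800b000700540015804005402c000a801000f01600050c0801800b0002800400300580013c02001e02c0009d010001016002d80a8002700800740540013702000e02c0009a8100110150004d00800800bc0000004002c00400560008100082))) 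
(.lf (nat_lit 1425419) (dlOf (nat_lit 1) (nat_lit 0x70008003c002001200080c0483)))) 
(.lf (nat_lit 22921227) (dlOf (nat_lit 2) (nat_lit 0xb528002a604007c00200300008b40082)))) 
(.nd (nat_lit 8) (.lf (nat_lit 21348491) (dlOf (nat_lit 1) (nat_lit 0x1a0028a30f01))) 
(.lf (nat_lit 379275) (dlOf (nat_lit 1) (nat_lit 0x400200020008004e82))))) (.nd (nat_lit 7) 
(.nd (nat_lit 8) (.nd (nat_lit 20) 
(.lf (nat_lit 10862603) (dlOf (nat_lit 1) (nat_lit 0x400200020008640102))) 
(.lf (nat_lit 7716875) (dlOf (nat_lit 1) (nat_lit 0x1400084d0581)))) 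
(.lf (nat_lit 8242955) (dlOf (nat_lit 1) (nat_lit 0x20028513b81)))) (.nd (nat_lit 8) 
(.lf (nat_lit 3522699) (dlOf (nat_lit 2) (nat_lit 0x18e65f0001d818200100))) 
(.lf (nat_lit 62769547) (dlOf (nat_lit 1) (nat_lit 0x4004000200099a4e82)))))) (.nd (nat_lit 26) 
(.nd (nat_lit 19) (.nd (nat_lit 28) (.nd (nat_lit 32) 
(.lf (nat_lit 537247755) (dlOf (nat_lit 1) (nat_lit 0x38008000800200020008070503))) 
(.lf (nat_lit 4832215051) (dlOf (nat_lit 1) (nat_lit 0x1b8002008c0008110002)))) 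
(.lf (nat_lit 805683211) (dlOf (nat_lit 1) (nat_lit 0x40018180501)))) 
(.lf (nat_lit 2819473419) (dlOf (nat_lit 7) (nat_lit 0x903c000501c800480d4000e069000203080030178001c0960014042000b01f8000806c00c7c2800080f0000403f0031c0200090378003016c002806c002e034000501100189c2800100d000c42040020044005b802000e03600090110016bc1001f000801b4002001000082a0283)))) 
(.nd (nat_lit 9) (.nd (nat_lit 20) (.nd (nat_lit 22) 
(.lf (nat_lit 4899323915) (dlOf (nat_lit 1) (nat_lit 0x1c0008110081))) 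
(.lf (nat_lit 2756034571) (dlOf (nat_lit 6) (nat_lit 0x900a8003e0510043f82001a02a0010814c00780a0002804d002601e80203028011015000780a60010051002b0280013013400bc07a0080b0c0034054001b0298017014000ac09a005e03d0040505001c02a000d814c00bc0a0005004d003001e8020242805100080518002076e00081d0003)))) 
(.lf (nat_lit 2752888843) (dlOf (nat_lit 2) (nat_lit 0x5b0428004ec080010008000400200040008060483)))) 
(.lf (nat_lit 2754465291) (dlOf (nat_lit 1) (nat_lit 0x200080f7001)))))) (.nd (nat_lit 20) 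
(.nd (nat_lit 26) (.nd (nat_lit 21) (.nd (nat_lit 22) (.nd (nat_lit 27) 
(.lf (nat_lit 4026908683) (dlOf (nat_lit 2) (nat_lit 0x10024000000180c0800))) 
(.lf (nat_lit 3355820043) (dlOf (nat_lit 16) (nat_lit 0x1000a4002b40400b0054001570200220340006017805400b40528054014000a000aa05001701680ed00a801e00140015306012c02f000a801000101780053c0800d80bc0028204000c068015e02f000a00200350178004fc0800180d0006005e0013c04002e02f0174016802980a800b80140013808017c02d010e0150004dc1001c80b402880540013604000602f00410168004d01008d00c8000000400d000400040008120082)))) 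
(.lf (nat_lit 3494232075) (dlOf (nat_lit 6) (nat_lit 0x900a8003e0510075202001a02a0010814c00780a0002804d002601e8038c428011015000780a60010051002b0280013013400bc07a00e300c0034054001b0298017014000ac09a005e03d0071785001c02a000d814c00bc0a0005004d003001e8038b82805100080518002076e00081d0003)))) 
(.nd (nat_lit 10) (.lf (nat_lit 1881522187) (dlOf (nat_lit 1) (nat_lit 0x4800400120008f40002))) 
(.lf (nat_lit 3492660235) (dlOf (nat_lit 1) (nat_lit 0x200180f2881))))) (.nd (nat_lit 28) 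
(.nd (nat_lit 29) 
(.lf (nat_lit 3288711179) (dlOf (nat_lit 5) (nat_lit 0x6024004e7010002012002734080020090013940400740480000002000c00280c0801))) 
(.lf (nat_lit 1678098443) (dlOf (nat_lit 1) (nat_lit 0x40018180501)))) (.nd (nat_lit 19) 
(.lf (nat_lit 1409662987) (dlOf (nat_lit 1) (nat_lit 0x38008000800200020008070503))) 
(.lf (nat_lit 3557670923) (dlOf (nat_lit 7) (nat_lit 0x903c000501c800080c80024061000703000030178002808a000e042000b01f8000806c017a62800080f0000403f005e68200090378003016c0028070002e0340005011002ef02800100d00176c04001c0700012022005a4020008011002d100801f000801b4002001000082a0283)))))) 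
(.nd (nat_lit 7) (.nd (nat_lit 11) 
(.lf (nat_lit 3491086347) (dlOf (nat_lit 2) (nat_lit 0x5b044000730080010008000400200040008060483))) 
(.nd (nat_lit 19) (.lf (nat_lit 3493185547) (dlOf (nat_lit 2) (nat_lit 0x1d608b000270180f4700))) 
(.lf (nat_lit 1344129035) (dlOf (nat_lit 1) (nat_lit 0x1200083d4701))))) (.nd (nat_lit 8) 
(.lf (nat_lit 3493185675) (dlOf (nat_lit 1) (nat_lit 0x200280f4801))) 
(.lf (nat_lit 6376769931) (dlOf (nat_lit 1) (nat_lit 0x20028094e81)))))))) (.nd (nat_lit 30) 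
(.nd (nat_lit 18) (.nd (nat_lit 19) (.nd (nat_lit 12) (.nd (nat_lit 26) (.nd (nat_lit 27) 
(.lf (nat_lit 2416033867) (dlOf (nat_lit 1) (nat_lit 0x20008020901))) 
(.lf (nat_lit 2550251595) (dlOf (nat_lit 1) (nat_lit 0x20008020901)))) (.nd (nat_lit 27) 
(.lf (nat_lit 2483142731) (dlOf (nat_lit 2) (nat_lit 0x6014000094080038008002800200060008030f83))) 
(.lf (nat_lit 2348925003) (dlOf (nat_lit 2) (nat_lit 0x6014000094080038008002800200060008030f83))))) 
(.nd (nat_lit 8) (.nd (nat_lit 7) (.nd (nat_lit 23) 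
(.lf (nat_lit 469881931) (dlOf (nat_lit 2) (nat_lit 0x1408e00011018009300))) 
(.lf (nat_lit 8508491) (dlOf (nat_lit 2) (nat_lit 0xe58900011018519300)))) 
(.lf (nat_lit 20042443) (dlOf (nat_lit 1) (nat_lit 0x4002000200089d8c82)))) (.nd (nat_lit 10) 
(.lf (nat_lit 2751584587) (dlOf (nat_lit 1) (nat_lit 0x800800040020002000800ab83))) 
(.lf (nat_lit 8508747) (dlOf (nat_lit 1) (nat_lit 0x400200020008519902)))))) (.nd (nat_lit 24) 
(.nd (nat_lit 7) (.nd (nat_lit 26) 
(.lf (nat_lit 134856779) (dlOf (nat_lit 2) (nat_lit 0xc806200620110002b0280d0d00))) 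
(.lf (nat_lit 201965643) (dlOf (nat_lit 2) (nat_lit 0xc80620062011000278280d0d00)))) 
(.lf (nat_lit 473547211) (dlOf (nat_lit 1) (nat_lit 0x40018f67a81)))) (.nd (nat_lit 8) 
(.nd (nat_lit 9) (.lf (nat_lit 53067851) (dlOf (nat_lit 1) (nat_lit 0x20029570001))) 
(.lf (nat_lit 56216139) (dlOf (nat_lit 1) (nat_lit 0x400400020009735282)))) 
(.lf (nat_lit 50970955) (dlOf (nat_lit 1) (nat_lit 0x8002000200094e8802)))))) (.nd (nat_lit 20) 
(.nd (nat_lit 7) (.nd (nat_lit 19) 
(.lf (nat_lit 738574411) (dlOf (nat_lit 2) (nat_lit 0x40000000ac080118008007400200dc00080b0603))) 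
(.nd (nat_lit 22) (.lf (nat_lit 42844235) (dlOf (nat_lit 1) (nat_lit 0x20029280601))) 
(.lf (nat_lit 13484107) (dlOf (nat_lit 2) (nat_lit 0x6000000020018730d00))))) (.nd (nat_lit 27) 
(.lf (nat_lit 4295344331) (dlOf (nat_lit 1) (nat_lit 0x200081a0481))) 
(.lf (nat_lit 4429562059) (dlOf (nat_lit 1) (nat_lit 0x200081a0481))))) (.nd (nat_lit 21) 
(.nd (nat_lit 7) (.nd (nat_lit 22) 
(.lf (nat_lit 1425483) (dlOf (nat_lit 1) (nat_lit 0x8002000600080c0f82))) 
(.lf (nat_lit 55951435) (dlOf (nat_lit 2) (nat_lit 0x760980050c0800800080078002002600096f0603)))) 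
(.lf (nat_lit 18727115) (dlOf (nat_lit 1) (nat_lit 0x400200020008970482)))) (.nd (nat_lit 7) 
(.nd (nat_lit 8) (.lf (nat_lit 37077067) (dlOf (nat_lit 1) (nat_lit 0x800201200009090602))) 
(.lf (nat_lit 3522891) (dlOf (nat_lit 4) (nat_lit 0x140d04001c66b005e274803b136000064100108d04001666b00522748051136000062100018cd600184e9001326c0000c018007800800d800200260008200603)))) 
(.lf (nat_lit 20304587) (dlOf (nat_lit 1) (nat_lit 0x4002000200089d8c82))))))) (.nd (nat_lit 26) 
(.nd (nat_lit 19) (.nd (nat_lit 11) (.nd (nat_lit 18) (.nd (nat_lit 9) 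
(.lf (nat_lit 1881260107) (dlOf (nat_lit 2) (nat_lit 0x1817c019da040014004000a0008e80002))) 
(.lf (nat_lit 1073857099) (dlOf (nat_lit 2) (nat_lit 0x202900000018018d00)))) (.nd (nat_lit 21) 
(.lf (nat_lit 1610989643) (dlOf (nat_lit 2) (nat_lit 0x40000000a8080118008007400200dc00080b0603))) 
(.lf (nat_lit 1881522251) (dlOf (nat_lit 5) (nat_lit 0x39038c002860402001c60013b0200e20e300066810071071800330080110008002400200560008f40603))))) 
(.nd (nat_lit 7) (.lf (nat_lit 5905696843) (dlOf (nat_lit 1) (nat_lit 0x20028144701))) 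
(.lf (nat_lit 3221347531) (dlOf (nat_lit 1) (nat_lit 0x10c004004e001811c202))))) (.nd (nat_lit 7) 
(.nd (nat_lit 8) (.nd (nat_lit 21) 
(.lf (nat_lit 3221864523) (dlOf (nat_lit 5) (nat_lit 0x8e04c000e022800200fc003004a0200009000170500ff0048000b008068810c0198080000c038000150300c501c0000a40801e000800cc002000200081a1483))) 
(.lf (nat_lit 3492397131) (dlOf (nat_lit 6) (nat_lit 0xa888140006804036440a000320200442050001881009c0e08000b80804e070400058040044004004400180c1482)))) 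
(.lf (nat_lit 1611253067) (dlOf (nat_lit 1) (nat_lit 0x66800802b800202f60008123303)))) 
(.nd (nat_lit 8) 
(.lf (nat_lit 5772001483) (dlOf (nat_lit 1) (nat_lit 0xc80080090002001c0008031b83))) 
(.lf (nat_lit 5774098891) (dlOf (nat_lit 1) (nat_lit 0xc002000200080f7a82)))))) (.nd (nat_lit 8) 
(.nd (nat_lit 19) (.nd (nat_lit 9) 
(.lf (nat_lit 1677838411) (dlOf (nat_lit 1) (nat_lit 0x20028114701))) 
(.lf (nat_lit 3288449611) (dlOf (nat_lit 1) (nat_lit 0x280028018b01)))) (.nd (nat_lit 21) 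
(.lf (nat_lit 3960062027) (dlOf (nat_lit 2) (nat_lit 0x1c0050001ec0800a000800d000200bc00081a1883))) 
(.lf (nat_lit 4096376907) (dlOf (nat_lit 3) (nat_lit 0x8000000010100480000000000801d00080080002000a0008100603))))) 
(.nd (nat_lit 12) (.nd (nat_lit 7) 
(.lf (nat_lit 3825323339) (dlOf (nat_lit 1) (nat_lit 0xd80028146a01))) 
(.lf (nat_lit 1946272203) (dlOf (nat_lit 1) (nat_lit 0x20018017101)))) (.nd (nat_lit 27) 
(.lf (nat_lit 1677842763) (dlOf (nat_lit 1) (nat_lit 0x40040002000811ab82))) 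
(.lf (nat_lit 3959544139) (dlOf (nat_lit 1) (nat_lit 0x40040002000811ab82))))))))) 
(.nd (nat_lit 18) (.nd (nat_lit 26) (.nd (nat_lit 21) (.nd (nat_lit 7) (.nd (nat_lit 19) 
(.nd (nat_lit 8) (.nd (nat_lit 23) 
(.lf (nat_lit 3623993359) (dlOf (nat_lit 1) (nat_lit 0x8008000400200020008080483))) 
(.lf (nat_lit 25280527) (dlOf (nat_lit 1) (nat_lit 0x400400020008bf0882)))) (.nd (nat_lit 6) 
(.lf (nat_lit 4563520271) (dlOf (nat_lit 1) (nat_lit 0x20028095b81))) 
(.lf (nat_lit 13746511) (dlOf (nat_lit 1) (nat_lit 0x400200020008750802))))) (.nd (nat_lit 22) 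
(.nd (nat_lit 29) (.lf (nat_lit 134856719) (dlOf (nat_lit 1) (nat_lit 0x10004001800080d0882))) 
(.lf (nat_lit 3892953103) (dlOf (nat_lit 3) (nat_lit 0x500c801d3008001806400e8a040004004000200082a0a02)))) 
(.lf (nat_lit 21610511) (dlOf (nat_lit 1) (nat_lit 0x400200020008a50082))))) (.nd (nat_lit 10) 
(.nd (nat_lit 6) (.nd (nat_lit 22) 
(.lf (nat_lit 5234609039) (dlOf (nat_lit 1) (nat_lit 0xa0018055c81))) 
(.lf (nat_lit 54643599) (dlOf (nat_lit 1) (nat_lit 0x20029655c81)))) 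
(.lf (nat_lit 4697736143) (dlOf (nat_lit 1) (nat_lit 0xc0018092881)))) (.nd (nat_lit 8) 
(.lf (nat_lit 3355563215) (dlOf (nat_lit 2) (nat_lit 0x480640004c02000200080a9501))) 
(.nd (nat_lit 27) (.lf (nat_lit 5905696719) (dlOf (nat_lit 1) (nat_lit 0x400400020008144482))) 
(.lf (nat_lit 671205327) (dlOf (nat_lit 3) (nat_lit 0x200e800280600002408005003a004001800130040000401800b8008001800200080008144483))))))) 
(.nd (nat_lit 19) (.nd (nat_lit 6) (.nd (nat_lit 7) 
(.lf (nat_lit 3492922383) (dlOf (nat_lit 1) (nat_lit 0x200280f2881))) 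
(.lf (nat_lit 20042383) (dlOf (nat_lit 1) (nat_lit 0x4002000200089d8c82)))) (.nd (nat_lit 8) 
(.lf (nat_lit 52543567) (dlOf (nat_lit 2) (nat_lit 0x6a430000b819550700))) (.nd (nat_lit 9) 
(.lf (nat_lit 11649359) (dlOf (nat_lit 1) (nat_lit 0x1c00286c0601))) 
(.lf (nat_lit 20043599) (dlOf (nat_lit 1) (nat_lit 0x1800189da201)))))) (.nd (nat_lit 11) 
(.nd (nat_lit 20) 
(.lf (nat_lit 27901967) (dlOf (nat_lit 4) (nat_lit 0x7f288003f6fe0018d50000e6a78000b4800005a260024cc70004607000c6a80007353c0021a560002d2a000c66380022c2800535400031a9e0002d130011663800228200050008002000200020008d40183))) 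
(.nd (nat_lit 23) (.lf (nat_lit 24756239) (dlOf (nat_lit 1) (nat_lit 0xc0018bb0081))) 
(.lf (nat_lit 16367631) (dlOf (nat_lit 17) (nat_lit 0x132b5000611d4000be080014ad400245680002e8200012b5800391d8000b2080004ad60005802000256b000823b00015c1000295ac000c8ec0005504001456b001023b0001501000211d8000a4040040ad6000648c000d23b0001441800391d80009804001cad6001048c000e23b00012c1800915ac0008a040030ad40012475000198200092b5000591d400064080014ad400124750001882001a2b5000a11d40006008001800400060018890202))))) 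
(.nd (nat_lit 6) 
(.lf (nat_lit 7986703) (dlOf (nat_lit 2) (nat_lit 0x4927c0004004000c004000e000851ce02))) 
(.lf (nat_lit 7981263) (dlOf (nat_lit 1) (nat_lit 0x400400020008514a02))))))) (.nd (nat_lit 31) 
(.nd (nat_lit 11) (.nd (nat_lit 28) (.nd (nat_lit 19) (.nd (nat_lit 10) 
(.lf (nat_lit 5435932687) (dlOf (nat_lit 1) (nat_lit 0x400400020018040002))) 
(.lf (nat_lit 4496409615) (dlOf (nat_lit 1) (nat_lit 0x8008000400200020008052883)))) 
(.nd (nat_lit 27) (.lf (nat_lit 4362715151) (dlOf (nat_lit 1) (nat_lit 0x164004006600080e0a02))) 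
(.lf (nat_lit 201965583) (dlOf (nat_lit 1) (nat_lit 0x10004001800080d0882))))) (.nd (nat_lit 10) 
(.nd (nat_lit 20) (.lf (nat_lit 5301714959) (dlOf (nat_lit 1) (nat_lit 0x400400020018040002))) 
(.lf (nat_lit 1007796239) (dlOf (nat_lit 2) (nat_lit 0x1038c0004c040004002000600087b0202)))) 
(.lf (nat_lit 469877775) (dlOf (nat_lit 1) (nat_lit 0xa0028002881))))) (.nd (nat_lit 6) 
(.nd (nat_lit 8) 
(.lf (nat_lit 1677838479) (dlOf (nat_lit 2) (nat_lit 0x280000001404002000200020008114802))) 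
(.lf (nat_lit 738838927) (dlOf (nat_lit 1) (nat_lit 0x400200020008124e82)))) (.nd (nat_lit 7) 
(.lf (nat_lit 4362197071) (dlOf (nat_lit 1) (nat_lit 0x2001800a701))) (.nd (nat_lit 8) 
(.lf (nat_lit 1543621839) (dlOf (nat_lit 1) (nat_lit 0x400200060008146402))) 
(.lf (nat_lit 738314703) (dlOf (nat_lit 1) (nat_lit 0x60028094e81))))))) (.nd (nat_lit 19) 
(.nd (nat_lit 29) (.nd (nat_lit 7) (.nd (nat_lit 27) 
(.lf (nat_lit 2483142735) (dlOf (nat_lit 1) (nat_lit 0x100080004002000a0008031003))) 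
(.lf (nat_lit 2348925007) (dlOf (nat_lit 1) (nat_lit 0x100080004002000a0008031003)))) 
(.lf (nat_lit 2617365711) (dlOf (nat_lit 1) (nat_lit 0x200080a9501)))) (.nd (nat_lit 6) 
(.lf (nat_lit 2885795855) (dlOf (nat_lit 1) (nat_lit 0x8008000400200020008080483))) 
(.nd (nat_lit 7) 
(.lf (nat_lit 3959540047) (dlOf (nat_lit 1) (nat_lit 0x18008000800200040008114d83))) 
(.lf (nat_lit 2751580111) (dlOf (nat_lit 5) (nat_lit 0x200860000881002d0430000400800802180001e040040112002408800006828004480)))))) 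
(.nd (nat_lit 6) (.nd (nat_lit 21) (.nd (nat_lit 30) 
(.lf (nat_lit 3154755599) (dlOf (nat_lit 2) (nat_lit 0x5814400eee04003800400080008320782))) 
(.lf (nat_lit 4228497423) (dlOf (nat_lit 1) (nat_lit 0x164004006600080e0a02)))) 
(.lf (nat_lit 2754199567) (dlOf (nat_lit 1) (nat_lit 0xe00080c0901)))) (.nd (nat_lit 21) 
(.lf (nat_lit 3960062031) (dlOf (nat_lit 2) (nat_lit 0x280120002e02000400081a1901))) 
(.lf (nat_lit 4096376911) (dlOf (nat_lit 5) (nat_lit 0xb584d00000c0401342680000502014a0000000101001e09a0000000801b00080020002003c0008100683)))))))) 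
(.nd (nat_lit 28) (.nd (nat_lit 29) (.nd (nat_lit 8) (.nd (nat_lit 19) (.nd (nat_lit 6) 
(.nd (nat_lit 22) (.nd (nat_lit 31) 
(.lf (nat_lit 1208336399) (dlOf (nat_lit 1) (nat_lit 0x3200280c0001))) 
(.lf (nat_lit 3355820047) (dlOf (nat_lit 31) (nat_lit 0x3280cc038c064029e0310149014800580980038036027a012009c00880318024007c0020004f1401340320060018803880a4073c0240004e0801a8032000f018806b00480009a0c027406402200120002602003201900012c080ac00c404b405802700290087008804b80240050000000470c02b6031001c018001080a401b40320022018001b00b809b8044024002000f0007003b0018001185010500c402a405207ba01100d6000000114200d400c8019c062013402901a50090001102013380c8010c062004c029000d00b810880480568022000430c035e032000901480fd8048000840c0050064000410201f2032003d01880188048000800c04c8064012a031005d00900c980440007c1000cc064002403100a30088000f4180e100c802ec062005c029015600900b700440007814017002401ba0110001d8200110088000e80801f0048027802200039040392032011b018804200a4082c02403140110001c05001a0188001804801f40220003706000a0320001b0100e4019001f00c401b0024000350600ae012009f0088000cc1009d80c8011805201d401200070000000c82009f80c80148062006a01200017830003019004480c40002c08071c06401f8031015800900340044000281002ec064000110202e0032012c009000000100e400080f5c00204dc0008120183))))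 
(.lf (nat_lit 4571151) (dlOf (nat_lit 1) (nat_lit 0x400200020008290002)))) (.nd (nat_lit 7) 
(.lf (nat_lit 55951439) (dlOf (nat_lit 2) (nat_lit 0x2b04400157f40014a7b04ed534800038200370008025c002004200096f0703))) 
(.lf (nat_lit 4571343) (dlOf (nat_lit 1) (nat_lit 0x24004001c0018290482))))) (.nd (nat_lit 9) 
(.nd (nat_lit 20) (.lf (nat_lit 15581199) (dlOf (nat_lit 1) (nat_lit 0x900028800281))) 
(.lf (nat_lit 22921231) (dlOf (nat_lit 22) (nat_lit 0xe0d480002781005e6a4000180000009c08009fae40004b020021d7200025010015eb90043f5c000d7ac40136d48002a00000011828086758808d4000000450400a0d48000220100a86a40024b51801192bc0034000000218400526a40001080800975c8000820400dbae40004002000dd620001f01002ceb9000bf5c000078080033ae000039020009d70005e6a400080000000700c00cda9000035020193d720066eb80000c810072f5c8022fae00002f040025bc400013810027eb90000500801375c80002204020c002019e0008b40182)))) 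
(.lf (nat_lit 8242703) (dlOf (nat_lit 1) (nat_lit 0x20028513681))))) (.nd (nat_lit 20) 
(.nd (nat_lit 6) (.nd (nat_lit 11) 
(.lf (nat_lit 21348751) (dlOf (nat_lit 2) (nat_lit 0x96c40067c0200140008a35d81))) 
(.lf (nat_lit 36555151) (dlOf (nat_lit 1) (nat_lit 0x20019074e81)))) 
(.lf (nat_lit 25542991) (dlOf (nat_lit 1) (nat_lit 0x20018c10801)))) (.nd (nat_lit 6) 
(.nd (nat_lit 7) (.lf (nat_lit 41271567) (dlOf (nat_lit 1) (nat_lit 0xb8004001c0019237402))) 
(.lf (nat_lit 20304271) (dlOf (nat_lit 1) (nat_lit 0x4004000200189d8382)))) 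
(.lf (nat_lit 20303311) (dlOf (nat_lit 1) (nat_lit 0x400080014002000800089d6d03)))))) 
(.nd (nat_lit 26) (.nd (nat_lit 6) (.nd (nat_lit 19) 
(.lf (nat_lit 537247759) (dlOf (nat_lit 1) (nat_lit 0x40028070501))) (.nd (nat_lit 27) 
(.lf (nat_lit 537772047) (dlOf (nat_lit 1) (nat_lit 0x20028180481))) 
(.lf (nat_lit 2819473423) (dlOf (nat_lit 1) (nat_lit 0x9000800e4002000e00082a0283))))) 
(.nd (nat_lit 7) 
(.lf (nat_lit 1610989647) (dlOf (nat_lit 5) (nat_lit 0x84814c04a4098022e035012c01080980074035803000c000a01770000000384008f814c0510042025c000000060302a002980f701300aac06a056a02102b500e815f806004140140000a0e013e05300c301080480000000000c00a8004059c00180b0682))) 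
(.lf (nat_lit 2818949327) (dlOf (nat_lit 1) (nat_lit 0x28008005000200060008130483))))) 
(.nd (nat_lit 11) (.nd (nat_lit 6) 
(.lf (nat_lit 2751841295) (dlOf (nat_lit 1) (nat_lit 0x400200020008002882))) 
(.lf (nat_lit 738574415) (dlOf (nat_lit 5) (nat_lit 0x84814c04a4098022e035012c01080980074035803000c000a01770000000384008f814c0510042025c000000060302a002980f701300aac06a056a02102b500e815f806004140140000a0e013e05300c301080480000000000c00a8004059c00180b0682)))) 
(.nd (nat_lit 8) 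
(.lf (nat_lit 2754465295) (dlOf (nat_lit 1) (nat_lit 0x200080004002001200080f7083))) 
(.lf (nat_lit 2754989327) (dlOf (nat_lit 1) (nat_lit 0x8004000200080f6702))))))) (.nd (nat_lit 27) 
(.nd (nat_lit 29) (.nd (nat_lit 19) (.nd (nat_lit 26) 
(.lf (nat_lit 2416295951) (dlOf (nat_lit 1) (nat_lit 0x200180d0881))) 
(.lf (nat_lit 1409662991) (dlOf (nat_lit 1) (nat_lit 0x40028070501)))) (.nd (nat_lit 31) 
(.lf (nat_lit 1410187279) (dlOf (nat_lit 1) (nat_lit 0x20028180481))) 
(.lf (nat_lit 3557670927) (dlOf (nat_lit 1) (nat_lit 0x9000800e4002000e00082a0283))))) 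
(.nd (nat_lit 6) (.nd (nat_lit 21) 
(.lf (nat_lit 4026908687) (dlOf (nat_lit 2) (nat_lit 0x80400012702000200080c0901))) 
(.lf (nat_lit 1881522191) (dlOf (nat_lit 1) (nat_lit 0x4002000a0008f40002)))) (.nd (nat_lit 21) 
(.lf (nat_lit 4026908751) (dlOf (nat_lit 2) (nat_lit 0x48084021003c00b60090001a0380c1900))) 
(.lf (nat_lit 1881522255) (dlOf (nat_lit 10) (nat_lit 0x4e0e30001f81020b0718000d8080c5838c0006a0403101c6000340203960e3000078101dd07180001c08028038c0000c0407641c6002807b000020201d8071801301ec0000008000c00400360008f40702)))))) 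
(.nd (nat_lit 26) (.nd (nat_lit 7) (.nd (nat_lit 10) 
(.lf (nat_lit 2550513679) (dlOf (nat_lit 1) (nat_lit 0x200180d0881))) 
(.lf (nat_lit 5772788751) (dlOf (nat_lit 1) (nat_lit 0x40028092881)))) (.nd (nat_lit 6) 
(.lf (nat_lit 3624257935) (dlOf (nat_lit 1) (nat_lit 0xa0008144e81))) 
(.lf (nat_lit 3624259023) (dlOf (nat_lit 1) (nat_lit 0x180028146d01))))) (.nd (nat_lit 29) 
(.nd (nat_lit 19) 
(.lf (nat_lit 2617622543) (dlOf (nat_lit 36) (nat_lit 0x596030044401700013c1016b00c00cc405e084002e01b00090001382015780c00e5805e082a02e018f0090001342011380c00d8805e03cc02e000260300e801780012c0800a00bc0009404112005c04d202900023820284018022400b8022c05a045e029003c00c802e004400c8020011a007011b0018001184806800c80bc806008fa02e02600148120004409e0000000450c026603001bc01780b200b8030005200044080478030032a01781d180b806bc05203240120002185021601801ab00bc07ac05c018e029018f0090001082814a80bc00082040e1805e000400206dc02f0001f81039701780cc80b8008c0220003e06030a02f00180170000f41020280bc001405c0003c04016402f0001c81017f018015d00bc0bf805c00140120001c04001d01780f880b80006e08042805e00036020554030039b017819e80b803680240003508001602f00100170000d01002a00bc0006604108c05e000320206ba02f000188100d20178000c00821d80bc0005e040a6405e0002e02060002f037d0170000581020f80bc003805c0001404073402f0000901016d01780df00b80002208005c06003dc02f008b01700000018093000802cc00200cc0008100183)))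 
(.lf (nat_lit 470663183) (dlOf (nat_lit 1) (nat_lit 0x40008150001)))) (.nd (nat_lit 6) 
(.lf (nat_lit 2080751631) (dlOf (nat_lit 1) (nat_lit 0x3200280c0001))) 
(.lf (nat_lit 6376767567) (dlOf (nat_lit 1) (nat_lit 0x20028090001))))))))))) (.nd (nat_lit 3) 
(.nd (nat_lit 2) (.nd (nat_lit 18) (.nd (nat_lit 19) (.nd (nat_lit 7) (.nd (nat_lit 28) 
(.nd (nat_lit 20) (.nd (nat_lit 22) (.nd (nat_lit 8) (.nd (nat_lit 21) 
(.lf (nat_lit 2348924963) (dlOf (nat_lit 1) (nat_lit 0x20028030981))) 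
(.lf (nat_lit 10600483) (dlOf (nat_lit 1) (nat_lit 0x2400400500018600482)))) 
(.lf (nat_lit 1677842723) (dlOf (nat_lit 1) (nat_lit 0x4002811ab81)))) (.nd (nat_lit 6) 
(.nd (nat_lit 24) (.lf (nat_lit 12697635) (dlOf (nat_lit 1) (nat_lit 0xc000086d0901))) 
(.lf (nat_lit 63029283) (dlOf (nat_lit 1) (nat_lit 0x4002000200099c0182)))) 
(.lf (nat_lit 2755772771) (dlOf (nat_lit 1) (nat_lit 0x200281b0701))))) (.nd (nat_lit 21) 
(.nd (nat_lit 24) 
(.lf (nat_lit 9551907) (dlOf (nat_lit 2) (nat_lit 0x2000c000aa04000c00400060018560582))) 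
(.lf (nat_lit 26329123) (dlOf (nat_lit 2) (nat_lit 0xc52d000070080108008009000200040008c30183)))) 
(.lf (nat_lit 28426275) (dlOf (nat_lit 1) (nat_lit 0x400200060008d90682))))) (.nd (nat_lit 27) 
(.nd (nat_lit 6) (.nd (nat_lit 8) 
(.lf (nat_lit 2483142691) (dlOf (nat_lit 1) (nat_lit 0x20028030981))) 
(.lf (nat_lit 3489778979) (dlOf (nat_lit 1) (nat_lit 0x4800400100008006802)))) (.nd (nat_lit 8) 
(.lf (nat_lit 1345439331) (dlOf (nat_lit 3) (nat_lit 0xa01650001981005f0b28000c8080048008002000200520008bb3903))) 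
(.lf (nat_lit 3489778019) (dlOf (nat_lit 1) (nat_lit 0x20018004e81))))) (.nd (nat_lit 26) 
(.nd (nat_lit 6) 
(.lf (nat_lit 4697736483) (dlOf (nat_lit 4) (nat_lit 0x20056000c02700070090000a41800280bc000804e000a0120001403002400900002c080ed80080584002005a0008093103))) 
(.lf (nat_lit 1476509795) (dlOf (nat_lit 1) (nat_lit 0x60008010281)))) (.nd (nat_lit 21) 
(.lf (nat_lit 3691102307) (dlOf (nat_lit 3) (nat_lit 0x30000004e40800080000026e04005800200320008010282))) 
(.lf (nat_lit 471973987) (dlOf (nat_lit 1) (nat_lit 0x8180080054002017e0008740483))))))) 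
(.nd (nat_lit 6) (.nd (nat_lit 8) (.nd (nat_lit 10) (.nd (nat_lit 11) 
(.lf (nat_lit 4630626467) (dlOf (nat_lit 1) (nat_lit 0x400400020008031382))) (.nd (nat_lit 26) 
(.lf (nat_lit 116899) (dlOf (nat_lit 1) (nat_lit 0x20028004881))) 
(.lf (nat_lit 5972805795) (dlOf (nat_lit 1) (nat_lit 0x400400020008144882))))) (.nd (nat_lit 9) 
(.lf (nat_lit 474072227) (dlOf (nat_lit 2) (nat_lit 0x82d00006166000200b80017c180078008000400200040009082c03))) 
(.lf (nat_lit 2754727587) (dlOf (nat_lit 2) (nat_lit 0x380a000054040004004000800180f7202))))) 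
(.nd (nat_lit 9) (.nd (nat_lit 10) 
(.lf (nat_lit 4697735587) (dlOf (nat_lit 1) (nat_lit 0xc80080038002003c0008091003))) 
(.lf (nat_lit 3221347747) (dlOf (nat_lit 1) (nat_lit 0x800800080020002000811cb03)))) 
(.nd (nat_lit 27) (.lf (nat_lit 5905696675) (dlOf (nat_lit 1) (nat_lit 0x2640028144301))) 
(.lf (nat_lit 671205283) (dlOf (nat_lit 1) (nat_lit 0xb400400120008144302)))))) (.nd (nat_lit 11) 
(.nd (nat_lit 8) (.nd (nat_lit 21) 
(.lf (nat_lit 2755772643) (dlOf (nat_lit 2) (nat_lit 0x900000008e02000200181b0481))) 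
(.lf (nat_lit 44155107) (dlOf (nat_lit 1) (nat_lit 0x6400292d1b01)))) (.nd (nat_lit 10) 
(.lf (nat_lit 3288449507) (dlOf (nat_lit 1) (nat_lit 0x400400020018017302))) 
(.lf (nat_lit 469882339) (dlOf (nat_lit 1) (nat_lit 0x20018009b01))))) (.nd (nat_lit 26) 
(.nd (nat_lit 10) (.nd (nat_lit 28) 
(.lf (nat_lit 3221342691) (dlOf (nat_lit 1) (nat_lit 0x10008000400200020008114e83))) 
(.lf (nat_lit 805423587) (dlOf (nat_lit 1) (nat_lit 0x800400020008114e82)))) 
(.lf (nat_lit 3489779171) (dlOf (nat_lit 1) (nat_lit 0x40008006e01)))) (.nd (nat_lit 8) 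
(.lf (nat_lit 3556887267) (dlOf (nat_lit 1) (nat_lit 0xa00280d5981))) 
(.lf (nat_lit 6509677027) (dlOf (nat_lit 1) (nat_lit 0x400400020008144e82)))))))) (.nd (nat_lit 21) 
(.nd (nat_lit 29) (.nd (nat_lit 6) (.nd (nat_lit 26) (.nd (nat_lit 22) 
(.lf (nat_lit 134856739) (dlOf (nat_lit 1) (nat_lit 0x200280d0901))) 
(.lf (nat_lit 21610531) (dlOf (nat_lit 1) (nat_lit 0x720028a50881)))) (.nd (nat_lit 27) 
(.lf (nat_lit 4362715171) (dlOf (nat_lit 2) (nat_lit 0x3c00b400000040018004000400080e0b82))) 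
(.lf (nat_lit 201965603) (dlOf (nat_lit 1) (nat_lit 0x200280d0901))))) (.nd (nat_lit 7) 
(.nd (nat_lit 10) 
(.lf (nat_lit 56215907) (dlOf (nat_lit 1) (nat_lit 0x2000800d800200280009734e83))) 
(.lf (nat_lit 642403) (dlOf (nat_lit 1) (nat_lit 0x20028006a81)))) 
(.lf (nat_lit 1343865059) (dlOf (nat_lit 1) (nat_lit 0x400400020008370582))))) (.nd (nat_lit 26) 
(.nd (nat_lit 27) (.nd (nat_lit 30) 
(.lf (nat_lit 805945379) (dlOf (nat_lit 2) (nat_lit 0x50168000b80801100080008002004600081f0b83))) 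
(.lf (nat_lit 1879687203) (dlOf (nat_lit 1) (nat_lit 0x29c00282d0681)))) 
(.lf (nat_lit 3892953123) (dlOf (nat_lit 6) (nat_lit 0x840540009027800301280108066001a0310015012000b0088001403a000c01b007100b00368050003fe2c00c00a8001fe02007405400020288000813c0020094007403300020188004006c016402c00aa014000fe89003302a001d8050003f808001c0a8000a0510007027800600900030044000a01d000400d80028050003ce2001ac004000800082a0a82)))) 
(.nd (nat_lit 27) (.nd (nat_lit 20) 
(.lf (nat_lit 1678360611) (dlOf (nat_lit 2) (nat_lit 0x50168000b80801100080008002004600081f0b83))) 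
(.lf (nat_lit 4095328291) (dlOf (nat_lit 1) (nat_lit 0x400400020008090182)))) (.nd (nat_lit 30) 
(.lf (nat_lit 3154755619) (dlOf (nat_lit 2) (nat_lit 0xc051000200b000594100008008000c002001e0008320d83))) 
(.lf (nat_lit 4228497443) (dlOf (nat_lit 2) (nat_lit 0x3c00b000000040018004000400080e0b82))))))) 
(.nd (nat_lit 20) (.nd (nat_lit 22) (.nd (nat_lit 28) 
(.lf (nat_lit 2736163) (dlOf (nat_lit 12) (nat_lit 0x13291c004146a00056040018aa60002901000d5530001440800daa980007c0400b154c0003c020014aa60001b0100085530000d4080042a980006804009148e000ea3500008820026523800228d4000200800640000000002000e00181a0b81))) 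
(.lf (nat_lit 1881784355) (dlOf (nat_lit 1) (nat_lit 0x400200060009020182)))) (.nd (nat_lit 10) 
(.lf (nat_lit 48873507) (dlOf (nat_lit 3) (nat_lit 0x301f00005402001abfa00028819440180))) 
(.lf (nat_lit 57263139) (dlOf (nat_lit 1) (nat_lit 0x6c0009792881))))) (.nd (nat_lit 7) 
(.nd (nat_lit 8) (.nd (nat_lit 23) 
(.lf (nat_lit 24756259) (dlOf (nat_lit 2) (nat_lit 0x1979c0018bb700010028bb0880))) 
(.lf (nat_lit 16367651) (dlOf (nat_lit 1) (nat_lit 0x10008001c00200100008890703)))) 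
(.lf (nat_lit 7980835) (dlOf (nat_lit 1) (nat_lit 0x1c0018513d01)))) (.nd (nat_lit 6) 
(.nd (nat_lit 9) (.lf (nat_lit 7981219) (dlOf (nat_lit 1) (nat_lit 0x40028514881))) 
(.lf (nat_lit 1345964707) (dlOf (nat_lit 1) (nat_lit 0x40028e25601)))) 
(.lf (nat_lit 7983843) (dlOf (nat_lit 1) (nat_lit 0x20028518c81)))))))) (.nd (nat_lit 26) 
(.nd (nat_lit 21) (.nd (nat_lit 30) (.nd (nat_lit 19) (.nd (nat_lit 29) (.nd (nat_lit 7) 
(.nd (nat_lit 20) (.nd (nat_lit 24) 
(.lf (nat_lit 134594595) (dlOf (nat_lit 1) (nat_lit 0x400200100008080882))) 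
(.lf (nat_lit 17154083) (dlOf (nat_lit 1) (nat_lit 0x4002000200088e0002)))) 
(.lf (nat_lit 9814051) (dlOf (nat_lit 2) (nat_lit 0x1000000114080018008001000200060008580183)))) 
(.lf (nat_lit 380323) (dlOf (nat_lit 1) (nat_lit 0x20028006d01)))) (.nd (nat_lit 28) 
(.lf (nat_lit 4832215075) (dlOf (nat_lit 1) (nat_lit 0x800400060008110182))) 
(.lf (nat_lit 805683235) (dlOf (nat_lit 1) (nat_lit 0x1000200020008180702))))) (.nd (nat_lit 6) 
(.lf (nat_lit 22921251) (dlOf (nat_lit 2) (nat_lit 0xdda70001840800a8008004c00200100008b40503))) 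
(.lf (nat_lit 47038563) (dlOf (nat_lit 1) (nat_lit 0x8008000400200020009391983))))) 
(.nd (nat_lit 28) (.nd (nat_lit 29) 
(.lf (nat_lit 3221602339) (dlOf (nat_lit 2) (nat_lit 0x70230000e80800280080004002000c0008160883))) 
(.lf (nat_lit 1610989603) (dlOf (nat_lit 2) (nat_lit 0x340400014d02000200280b0201)))) 
(.nd (nat_lit 6) (.nd (nat_lit 22) (.nd (nat_lit 29) (.nd (nat_lit 32) 
(.lf (nat_lit 1342554147) (dlOf (nat_lit 3) (nat_lit 0x50e6800a071c000c2fa0004179000148400040bc80009c0800080080038002002c0008050c03))) 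
(.lf (nat_lit 5637521443) (dlOf (nat_lit 2) (nat_lit 0xc00c000380200020008100181)))) 
(.lf (nat_lit 4026908707) (dlOf (nat_lit 2) (nat_lit 0x401e000000180c0b00)))) 
(.lf (nat_lit 1346748451) (dlOf (nat_lit 11) (nat_lit 0x8c12c004a085002203a801381cc0009c10005012c0022085000f03a800981cc0009a10000411a0004902010a096008b042804181d402200e60004308032c096019404280c581d406480e6021001f00021050001046800100080cc0258066410a0002083019603a80ce81cc006c03e003a01a0001f07009304b004a821402480ea012a0730001e04000604b0000e0080080258002c10a0003304000c0019000181)))) 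
(.lf (nat_lit 1476771939) (dlOf (nat_lit 4) (nat_lit 0xc00b80008044000401e000800e000100200010000003a21800080300018017000700b00008044000801e000400e00010038001001000080040004000000e48a001000b8005dc0800f80080130002006600081a0483)))))) 
(.nd (nat_lit 7) (.nd (nat_lit 12) (.nd (nat_lit 23) (.nd (nat_lit 8) 
(.lf (nat_lit 25018403) (dlOf (nat_lit 1) (nat_lit 0x400200020008bd0b82))) 
(.lf (nat_lit 3522851) (dlOf (nat_lit 2) (nat_lit 0xc3358000d0080048008001c00200180008200503)))) 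
(.nd (nat_lit 20) 
(.lf (nat_lit 48611363) (dlOf (nat_lit 5) (nat_lit 0x86090001aca40008c0800198240002b2900022820041c6880215cbc001eb0400531dc004276980213b24010980e0082bf000415f30020af64010563600842f00041110002103e00008438009d82200360f8001b0280000f8180140008000800200020009420183))) 
(.lf (nat_lit 16105507) (dlOf (nat_lit 1) (nat_lit 0x800400060008870702))))) (.nd (nat_lit 6) 
(.nd (nat_lit 10) (.lf (nat_lit 8247843) (dlOf (nat_lit 1) (nat_lit 0x100020002000851b282))) 
(.lf (nat_lit 20305443) (dlOf (nat_lit 1) (nat_lit 0x180080004002000200089d9c03)))) 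
(.lf (nat_lit 19780707) (dlOf (nat_lit 1) (nat_lit 0x200189d9401))))) (.nd (nat_lit 6) 
(.nd (nat_lit 9) (.nd (nat_lit 20) 
(.lf (nat_lit 32359587) (dlOf (nat_lit 2) (nat_lit 0x133f00017c0800c8008000800200100008ef2c03))) 
(.lf (nat_lit 41796771) (dlOf (nat_lit 1) (nat_lit 0x20019242c01)))) 
(.lf (nat_lit 32361123) (dlOf (nat_lit 1) (nat_lit 0x1a0018ef5601)))) (.nd (nat_lit 19) 
(.lf (nat_lit 11911395) (dlOf (nat_lit 2) (nat_lit 0xf510000470186c0480))) 
(.lf (nat_lit 3493708003) (dlOf (nat_lit 2) (nat_lit 0x1200000011c040014002000c00081b0482))))))) 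
(.nd (nat_lit 27) (.nd (nat_lit 31) (.nd (nat_lit 29) (.nd (nat_lit 7) 
(.lf (nat_lit 4362453027) (dlOf (nat_lit 6) (nat_lit 0x2aa05c01660298110011c054805a02a60180000805024002380003c0808800cc0001c0404780660000d020008053000702380000c1000b0008003400200100008080803))) 
(.lf (nat_lit 69059747) (dlOf (nat_lit 1) (nat_lit 0x200288a2c01)))) (.nd (nat_lit 6) 
(.nd (nat_lit 28) (.lf (nat_lit 1678098467) (dlOf (nat_lit 1) (nat_lit 0x1000200020008180702))) 
(.lf (nat_lit 6241501219) (dlOf (nat_lit 2) (nat_lit 0xc00c000380200020008100181)))) 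
(.lf (nat_lit 604356707) (dlOf (nat_lit 3) (nat_lit 0x8060001002c0016015000800880040040000c01e000c00e000800180040008001800000138140012016000740181a0480))))) 
(.nd (nat_lit 7) (.nd (nat_lit 10) (.nd (nat_lit 21) 
(.lf (nat_lit 3288711203) (dlOf (nat_lit 2) (nat_lit 0x401e000000180c0b00))) 
(.lf (nat_lit 2753937443) (dlOf (nat_lit 1) (nat_lit 0x1e00280a0901)))) 
(.lf (nat_lit 2754989091) (dlOf (nat_lit 1) (nat_lit 0x4400080f6081)))) (.nd (nat_lit 6) 
(.lf (nat_lit 2754464163) (dlOf (nat_lit 1) (nat_lit 0x200180f4e81))) (.nd (nat_lit 8) 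
(.lf (nat_lit 2755510499) (dlOf (nat_lit 2) (nat_lit 0x1200000011c040014002000c00081b0482))) 
(.lf (nat_lit 2751841251) (dlOf (nat_lit 1) (nat_lit 0x400200020008002882))))))) (.nd (nat_lit 7) 
(.nd (nat_lit 28) (.nd (nat_lit 29) 
(.lf (nat_lit 201703459) (dlOf (nat_lit 2) (nat_lit 0x480c40005004000c00200080008080802))) 
(.nd (nat_lit 30) 
(.lf (nat_lit 738574371) (dlOf (nat_lit 2) (nat_lit 0x340400015e02000200280b0201))) 
(.lf (nat_lit 3959799843) (dlOf (nat_lit 2) (nat_lit 0xaa02f00000018160800))))) (.nd (nat_lit 31) 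
(.nd (nat_lit 6) 
(.lf (nat_lit 470138915) (dlOf (nat_lit 3) (nat_lit 0x50e6800a071c000c30a0004182000148400040c100009c0800080080038002002c0008050c03))) 
(.lf (nat_lit 470663267) (dlOf (nat_lit 1) (nat_lit 0x2000400080008150282)))) (.nd (nat_lit 29) 
(.lf (nat_lit 2617622563) (dlOf (nat_lit 2) (nat_lit 0xc01a0001a8080070008000400200100008100503))) 
(.lf (nat_lit 4228235299) (dlOf (nat_lit 2) (nat_lit 0x1e04b001c01f800044100008008003c00200180008080883)))))) 
(.nd (nat_lit 19) (.nd (nat_lit 29) 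
(.lf (nat_lit 472237219) (dlOf (nat_lit 1) (nat_lit 0x70008001c00200100008922c03))) 
(.lf (nat_lit 1009108131) (dlOf (nat_lit 4) (nat_lit 0x5c0ea00200730002f8200060718001640800f838c000a804022800400900009082c02)))) 
(.nd (nat_lit 9) (.lf (nat_lit 473810083) (dlOf (nat_lit 1) (nat_lit 0x800200060008fa2c02))) 
(.lf (nat_lit 473811619) (dlOf (nat_lit 1) (nat_lit 0x38008001400200020008fa5603))))))))) 
(.nd (nat_lit 28) (.nd (nat_lit 21) (.nd (nat_lit 19) (.nd (nat_lit 7) (.nd (nat_lit 26) 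
(.nd (nat_lit 31) (.nd (nat_lit 27) 
(.lf (nat_lit 4295082023) (dlOf (nat_lit 1) (nat_lit 0x10008000800200060008050583))) 
(.lf (nat_lit 4429299751) (dlOf (nat_lit 1) (nat_lit 0x10008000800200060008050583)))) 
(.nd (nat_lit 6) 
(.lf (nat_lit 3355820071) (dlOf (nat_lit 23) (nat_lit 0x10170001580800480d009e805c06d602b001a006000154200ba80b8000a804035405c004a02b000298203400158001440800280b80dec0560005004015402e00b1016806980a80009e0c00040540004e0204e00340272017016180b40d58056065602a00e4013804b807c01c4038002600a000268904e30158001300823b80ac000960412680560004a02037002b0002481036f0158001200802f00ac0008c04001805c000202b0002202015f017003c80b413c0056034a02a003600e8058802c000801800cc05c07f402b0001f8202640158000f80800500b800f00560003c0400020240001d0100370158000000800480080358002001e0008120603))) 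
(.lf (nat_lit 2818688359) (dlOf (nat_lit 1) (nat_lit 0x200280d3481))))) (.nd (nat_lit 10) 
(.nd (nat_lit 20) 
(.lf (nat_lit 1678098471) (dlOf (nat_lit 2) (nat_lit 0xc0ac000e01300006828180780))) 
(.lf (nat_lit 2752888871) (dlOf (nat_lit 3) (nat_lit 0x141640005a02001e07900029818060580)))) 
(.nd (nat_lit 6) 
(.lf (nat_lit 3825323047) (dlOf (nat_lit 1) (nat_lit 0x8008000400200020008146083))) 
(.lf (nat_lit 4496410215) (dlOf (nat_lit 1) (nat_lit 0x400400020008053902)))))) (.nd (nat_lit 8) 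
(.nd (nat_lit 11) (.nd (nat_lit 18) 
(.lf (nat_lit 1140965607) (dlOf (nat_lit 1) (nat_lit 0x8008000400200020008031b83))) 
(.lf (nat_lit 1208336615) (dlOf (nat_lit 1) (nat_lit 0x800280c1d81)))) (.nd (nat_lit 10) 
(.lf (nat_lit 3959539943) (dlOf (nat_lit 1) (nat_lit 0x20028114b01))) 
(.lf (nat_lit 6576786663) (dlOf (nat_lit 1) (nat_lit 0xa0018146501))))) (.nd (nat_lit 10) 
(.nd (nat_lit 6) (.lf (nat_lit 46254503) (dlOf (nat_lit 1) (nat_lit 0x80019384e81))) 
(.lf (nat_lit 21348839) (dlOf (nat_lit 3) (nat_lit 0x454da00024020002a6d0000e818a37300)))) 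
(.nd (nat_lit 9) 
(.lf (nat_lit 3221347751) (dlOf (nat_lit 3) (nat_lit 0x2009c0003102003e0260000001811cb80))) 
(.lf (nat_lit 5905696679) (dlOf (nat_lit 1) (nat_lit 0x2620028144301))))))) (.nd (nat_lit 22) 
(.nd (nat_lit 26) (.nd (nat_lit 25) (.nd (nat_lit 27) 
(.lf (nat_lit 3221864487) (dlOf (nat_lit 3) (nat_lit 0xd80f8005c01c0001904001203e00190070000601000b80080048002005200081a0c03))) 
(.lf (nat_lit 3892953127) (dlOf (nat_lit 2) (nat_lit 0x4019000178182a0b00)))) (.nd (nat_lit 6) 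
(.lf (nat_lit 50970919) (dlOf (nat_lit 1) (nat_lit 0xc002000200094e8102))) 
(.lf (nat_lit 42844263) (dlOf (nat_lit 1) (nat_lit 0x280080018002000a0009280983))))) 
(.nd (nat_lit 6) (.nd (nat_lit 9) 
(.lf (nat_lit 3960061991) (dlOf (nat_lit 2) (nat_lit 0x3600d0000e8181a0c80))) 
(.lf (nat_lit 2753151527) (dlOf (nat_lit 2) (nat_lit 0x581fc00000018090e00)))) 
(.lf (nat_lit 2752104295) (dlOf (nat_lit 1) (nat_lit 0x400400020018004002))))) (.nd (nat_lit 9) 
(.nd (nat_lit 18) 
(.lf (nat_lit 21610535) (dlOf (nat_lit 3) (nat_lit 0x2ebd00001408001f5e80000004004c00200400008a50a82))) 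
(.nd (nat_lit 23) 
(.lf (nat_lit 22921255) (dlOf (nat_lit 16) (nat_lit 0x81d83047fda700b50000000980c0adf69c00ec000000258201a6da700012008000f2d4082b6c80943b4e005dd9b800100200146d380007e0400a7788000370204a5d84024ae5b00106f2c05cf7940387bad0253d9d81116ce005c9b92047c9d3021c4e5813c8000000642c03cc00000030020367bcb00016010015de200090000000300801d778800014020009bc40000201019fde200000c080466f100000204099778803a9bbe01ccda40000001800e000800e000200de0008b40603))) 
(.lf (nat_lit 14532647) (dlOf (nat_lit 1) (nat_lit 0x20028760881))))) (.nd (nat_lit 6) 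
(.lf (nat_lit 46779175) (dlOf (nat_lit 1) (nat_lit 0x10004000a0019385c02))) 
(.lf (nat_lit 46778983) (dlOf (nat_lit 3) (nat_lit 0x15fb8001040800129e00007604002400400080009385382))))))) 
(.nd (nat_lit 22) (.nd (nat_lit 7) (.nd (nat_lit 18) (.nd (nat_lit 9) (.nd (nat_lit 23) 
(.lf (nat_lit 2754199591) (dlOf (nat_lit 1) (nat_lit 0x200280c0c81))) 
(.lf (nat_lit 11124775) (dlOf (nat_lit 2) (nat_lit 0x75f88000a6040040004004c0018660602)))) 
(.lf (nat_lit 53594663) (dlOf (nat_lit 1) (nat_lit 0x1000295f5181)))) (.nd (nat_lit 6) 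
(.lf (nat_lit 27639847) (dlOf (nat_lit 1) (nat_lit 0x400200020008d10902))) (.nd (nat_lit 8) 
(.lf (nat_lit 20304999) (dlOf (nat_lit 1) (nat_lit 0x8002000200089d9402))) 
(.lf (nat_lit 3522919) (dlOf (nat_lit 15) (nat_lit 0x3315e400032040898d04041866b021c274808f93600002a1007c8d04041666b022027480ce1360000281007fcd0403ca66b020127480fc936000026100864d04043a66b021a274810b93600002410065cd0403ce66b01ed27480f413600002210088cd0403f666b0224274810b93600002010025c9d20000c0200386820008335808b13a4000160c004ccd600544e900003820113341010e13a4008c9b00000306003468201a5274800008100ca13a400002040054d04002266b0015274800000180098008002000200100008200703)))))) 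
(.nd (nat_lit 19) (.nd (nat_lit 6) 
(.lf (nat_lit 11911591) (dlOf (nat_lit 4) (nat_lit 0x800001c62040084586001621400a30000033a81800380d40000004058c002005e00086c0782))) 
(.lf (nat_lit 2754989799) (dlOf (nat_lit 1) (nat_lit 0xa00080f7401)))) (.nd (nat_lit 18) 
(.lf (nat_lit 20564391) (dlOf (nat_lit 1) (nat_lit 0x400289d4e81))) (.nd (nat_lit 20) 
(.lf (nat_lit 2754464167) (dlOf (nat_lit 1) (nat_lit 0x10002000400080f4e82))) 
(.lf (nat_lit 37603751) (dlOf (nat_lit 1) (nat_lit 0x80080004002000200090d4e83))))))) 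
(.nd (nat_lit 9) (.nd (nat_lit 18) (.nd (nat_lit 6) (.nd (nat_lit 19) 
(.lf (nat_lit 6406183) (dlOf (nat_lit 1) (nat_lit 0x100018420001))) 
(.lf (nat_lit 48873511) (dlOf (nat_lit 1) (nat_lit 0x30008000400200020009440203)))) 
(.lf (nat_lit 6406247) (dlOf (nat_lit 1) (nat_lit 0x140008420481)))) (.nd (nat_lit 6) 
(.nd (nat_lit 8) (.lf (nat_lit 7716903) (dlOf (nat_lit 1) (nat_lit 0x1e00184d0b01))) 
(.lf (nat_lit 58048807) (dlOf (nat_lit 1) (nat_lit 0x4002000200097b8102)))) 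
(.lf (nat_lit 48611431) (dlOf (nat_lit 2) (nat_lit 0x2060900004c080028008001400200060009420983))))) 
(.nd (nat_lit 6) (.nd (nat_lit 7) (.nd (nat_lit 8) 
(.lf (nat_lit 23446055) (dlOf (nat_lit 1) (nat_lit 0x10008001400200040008b80e03))) 
(.lf (nat_lit 7980839) (dlOf (nat_lit 1) (nat_lit 0x20028513d01)))) 
(.lf (nat_lit 58575527) (dlOf (nat_lit 1) (nat_lit 0x200297e5601)))) (.nd (nat_lit 7) 
(.lf (nat_lit 7980903) (dlOf (nat_lit 1) (nat_lit 0x400400020008514002))) 
(.lf (nat_lit 39963367) (dlOf (nat_lit 1) (nat_lit 0xf000191f5981)))))))) (.nd (nat_lit 26) 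
(.nd (nat_lit 18) (.nd (nat_lit 7) (.nd (nat_lit 8) (.nd (nat_lit 9) 
(.lf (nat_lit 3492923431) (dlOf (nat_lit 1) (nat_lit 0x200280f4701))) 
(.lf (nat_lit 3491349031) (dlOf (nat_lit 2) (nat_lit 0x581ea00000018090e00)))) (.nd (nat_lit 6) 
(.lf (nat_lit 805428007) (dlOf (nat_lit 1) (nat_lit 0x2002811bc81))) 
(.lf (nat_lit 805428071) (dlOf (nat_lit 1) (nat_lit 0x2001811bc81))))) (.nd (nat_lit 8) 
(.nd (nat_lit 6) 
(.lf (nat_lit 805424807) (dlOf (nat_lit 1) (nat_lit 0x18008000400200020008117203))) 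
(.lf (nat_lit 6711001319) (dlOf (nat_lit 1) (nat_lit 0x800400020008031d82)))) (.nd (nat_lit 9) 
(.lf (nat_lit 4697735591) (dlOf (nat_lit 1) (nat_lit 0x40008091001))) (.nd (nat_lit 27) 
(.lf (nat_lit 5637262247) (dlOf (nat_lit 1) (nat_lit 0x580028055d01))) 
(.lf (nat_lit 5234609063) (dlOf (nat_lit 1) (nat_lit 0x60018055d01))))))) (.nd (nat_lit 31) 
(.nd (nat_lit 6) (.nd (nat_lit 19) (.nd (nat_lit 27) 
(.lf (nat_lit 805683239) (dlOf (nat_lit 2) (nat_lit 0xc0ac000e01300011028180780))) 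
(.lf (nat_lit 1476771879) (dlOf (nat_lit 1) (nat_lit 0x4002000200081a0002)))) 
(.lf (nat_lit 1346224167) (dlOf (nat_lit 1) (nat_lit 0x20018e70781)))) (.nd (nat_lit 8) 
(.lf (nat_lit 1346748519) (dlOf (nat_lit 19) (nat_lit 0xdc108009a01b0002b02007f04b00012808034825801880e6000480400de096006a03980011c1003f82580008a0401a412c00c40730002202008504b003f01cc000860806f412c037e08401c103a00de01cc0008410009412c0004102006e096003703980010010004025800240e60003e0400fe09600330420000f01001482580007604001812c000380200460960001b81003204b0007021000940e60003306004a0960000b81006900d80004c0801500080008002000e0009000983))) 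
(.lf (nat_lit 1343078759) (dlOf (nat_lit 1) (nat_lit 0x4a0008150981))))) (.nd (nat_lit 6) 
(.nd (nat_lit 10) (.nd (nat_lit 20) 
(.lf (nat_lit 4026908711) (dlOf (nat_lit 2) (nat_lit 0x480680014010001a004000100380c0c80))) 
(.lf (nat_lit 3491086375) (dlOf (nat_lit 3) (nat_lit 0x141800005a02001e07b00029818060580)))) 
(.lf (nat_lit 3490040871) (dlOf (nat_lit 1) (nat_lit 0xe0018006081)))) 
(.lf (nat_lit 3492135015) (dlOf (nat_lit 1) (nat_lit 0x2200180a1381)))))) (.nd (nat_lit 6) 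
(.nd (nat_lit 18) (.nd (nat_lit 19) (.nd (nat_lit 7) 
(.lf (nat_lit 2617365799) (dlOf (nat_lit 1) (nat_lit 0x80080008002000200080a9803))) 
(.lf (nat_lit 4630626471) (dlOf (nat_lit 1) (nat_lit 0x20018031381)))) (.nd (nat_lit 9) 
(.nd (nat_lit 21) (.lf (nat_lit 3557408807) (dlOf (nat_lit 1) (nat_lit 0x200281f0701))) 
(.lf (nat_lit 1009369127) (dlOf (nat_lit 1) (nat_lit 0x3fc0009130981)))) 
(.lf (nat_lit 473547303) (dlOf (nat_lit 1) (nat_lit 0x5000800a000200060008f68803))))) 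
(.nd (nat_lit 7) (.nd (nat_lit 19) 
(.lf (nat_lit 2617622567) (dlOf (nat_lit 13) (nat_lit 0xa40560005d02019203101a00158001701003980ac000b60402740560005a02004e02b0002c0100120158001580806780c4032c05601bc02a0002a0300ca01a00014c0801200d0000a204003c0560004b02001c034007701580011c1000900ac0008c040028004005c0008100602))) 
(.lf (nat_lit 1007534119) (dlOf (nat_lit 1) (nat_lit 0x60018490001)))) (.nd (nat_lit 8) 
(.lf (nat_lit 1009108135) (dlOf (nat_lit 2) (nat_lit 0xb038800081ba0052075004803980017c200018008004c00200240009082c03))) 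
(.lf (nat_lit 472238503) (dlOf (nat_lit 1) (nat_lit 0x260028924e81)))))) (.nd (nat_lit 7) 
(.nd (nat_lit 9) (.nd (nat_lit 21) 
(.lf (nat_lit 1409925223) (dlOf (nat_lit 1) (nat_lit 0x200180a1381))) 
(.lf (nat_lit 472498279) (dlOf (nat_lit 1) (nat_lit 0x800400020008991982)))) (.nd (nat_lit 10) 
(.nd (nat_lit 18) (.lf (nat_lit 5704370791) (dlOf (nat_lit 1) (nat_lit 0x400400020008055382))) 
(.lf (nat_lit 6376770151) (dlOf (nat_lit 1) (nat_lit 0x40028095381)))) 
(.lf (nat_lit 4095854183) (dlOf (nat_lit 1) (nat_lit 0x2000180e3901))))) (.nd (nat_lit 8) 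
(.nd (nat_lit 19) (.lf (nat_lit 4764844263) (dlOf (nat_lit 1) (nat_lit 0x800400020008031d82))) 
(.lf (nat_lit 6375981287) (dlOf (nat_lit 1) (nat_lit 0x48002000e0008031b82)))) (.nd (nat_lit 9) 
(.lf (nat_lit 1946272231) (dlOf (nat_lit 2) (nat_lit 0x19014800090080010008001000200160008017303))) 
(.lf (nat_lit 1009107943) (dlOf (nat_lit 1) (nat_lit 0x23800800a800200780009082883)))))))))) 
(.nd (nat_lit 2) (.nd (nat_lit 30) (.nd (nat_lit 18) (.nd (nat_lit 19) (.nd (nat_lit 8) 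
(.nd (nat_lit 28) (.nd (nat_lit 21) (.nd (nat_lit 11) 
(.lf (nat_lit 12697643) (dlOf (nat_lit 1) (nat_lit 0x200186d0981))) 
(.lf (nat_lit 2751584299) (dlOf (nat_lit 1) (nat_lit 0x40040002000800a602)))) (.nd (nat_lit 22) 
(.lf (nat_lit 27377707) (dlOf (nat_lit 3) (nat_lit 0x8a970003801000253e800090080038008004c00200140008cd0803))) 
(.lf (nat_lit 23183403) (dlOf (nat_lit 2) (nat_lit 0x5455b000040080060008012800200500008b60903))))) 
(.nd (nat_lit 27) (.nd (nat_lit 29) 
(.lf (nat_lit 2416033835) (dlOf (nat_lit 1) (nat_lit 0x1c0018020501))) 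
(.lf (nat_lit 2952904747) (dlOf (nat_lit 2) (nat_lit 0x20150000806000aa008001800400060008010002)))) 
(.lf (nat_lit 2550251563) (dlOf (nat_lit 1) (nat_lit 0x1c0018020501))))) (.nd (nat_lit 6) 
(.nd (nat_lit 7) (.nd (nat_lit 10) 
(.lf (nat_lit 59883819) (dlOf (nat_lit 1) (nat_lit 0x400400020009840b02))) 
(.lf (nat_lit 872531243) (dlOf (nat_lit 1) (nat_lit 0x8008000400200020008093183)))) 
(.lf (nat_lit 2617365419) (dlOf (nat_lit 2) (nat_lit 0x50090000000800600080014002001200080a9103)))) 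
(.nd (nat_lit 7) (.nd (nat_lit 9) 
(.lf (nat_lit 4697735531) (dlOf (nat_lit 1) (nat_lit 0x28008002c00200280008090f83))) 
(.lf (nat_lit 2617365355) (dlOf (nat_lit 1) (nat_lit 0x200180a8f81)))) (.nd (nat_lit 9) 
(.lf (nat_lit 805424619) (dlOf (nat_lit 1) (nat_lit 0xa0028116e81))) 
(.lf (nat_lit 469883883) (dlOf (nat_lit 3) (nat_lit 0x1c29c004b702001208e0025a01800bf00))))))) 
(.nd (nat_lit 20) (.nd (nat_lit 26) (.nd (nat_lit 6) 
(.lf (nat_lit 134856747) (dlOf (nat_lit 1) (nat_lit 0xc00180d0a81))) (.nd (nat_lit 7) 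
(.lf (nat_lit 61458027) (dlOf (nat_lit 1) (nat_lit 0x20029923901))) 
(.lf (nat_lit 642283) (dlOf (nat_lit 4) (nat_lit 0x110a2000104e0000826600160e80001b04000c0a2000604e0003026600180e8000170400030740000b4080008008004400200040008006503))))) 
(.nd (nat_lit 21) (.nd (nat_lit 28) 
(.lf (nat_lit 201965611) (dlOf (nat_lit 1) (nat_lit 0xc00180d0a81))) 
(.lf (nat_lit 3154755627) (dlOf (nat_lit 3) (nat_lit 0x401440000c0400800a2000c04f00080198003808800000100024004001e0008320e02)))) 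
(.lf (nat_lit 2754199595) (dlOf (nat_lit 1) (nat_lit 0x280080020002000400080c0d03))))) 
(.nd (nat_lit 6) (.nd (nat_lit 21) (.nd (nat_lit 24) 
(.lf (nat_lit 471449643) (dlOf (nat_lit 1) (nat_lit 0x20018300b01))) 
(.lf (nat_lit 18464811) (dlOf (nat_lit 2) (nat_lit 0x4498c000000200060018940901)))) 
(.lf (nat_lit 3784747) (dlOf (nat_lit 1) (nat_lit 0x10008000400200060008220a03)))) (.nd (nat_lit 9) 
(.lf (nat_lit 7981291) (dlOf (nat_lit 2) (nat_lit 0x24a00000c018514b00))) 
(.lf (nat_lit 7980779) (dlOf (nat_lit 1) (nat_lit 0x4800200820008513b02))))))) (.nd (nat_lit 21) 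
(.nd (nat_lit 8) (.nd (nat_lit 28) (.nd (nat_lit 6) (.nd (nat_lit 22) 
(.lf (nat_lit 537247787) (dlOf (nat_lit 1) (nat_lit 0x1400200100008070802))) 
(.lf (nat_lit 12959787) (dlOf (nat_lit 8) (nat_lit 0x6354940042a3c000e304019d525000ca4c0003881005dd494001c20402d2a4a000d51e0019a4c0001ec18065d49400129300007a0401815250008a8f00075260000f20c02eaa4a000b51e000da4c0001e01800900080048002001800086f0b03)))) 
(.nd (nat_lit 19) (.nd (nat_lit 20) 
(.lf (nat_lit 604356715) (dlOf (nat_lit 1) (nat_lit 0x380080018002000600081a0483))) 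
(.lf (nat_lit 55951467) (dlOf (nat_lit 1) (nat_lit 0x4004000200196f0a02)))) 
(.lf (nat_lit 42844267) (dlOf (nat_lit 1) (nat_lit 0x400400020009280a02))))) (.nd (nat_lit 27) 
(.nd (nat_lit 29) (.lf (nat_lit 2416295979) (dlOf (nat_lit 1) (nat_lit 0x1800080d0a81))) 
(.lf (nat_lit 805683243) (dlOf (nat_lit 7) (nat_lit 0x7802a80868150035c0a600fc05200e90270036013000180940378045004501b802280c40018060037802d01d001600400048014c014026a00600010000000408800c81380001e0405340ac00ce053000e027000d013005b00940314032014001600fb004c00180140000e12038c013000068100410250000240808f80c80000604011400200420008180902)))) 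
(.nd (nat_lit 26) (.lf (nat_lit 2550513707) (dlOf (nat_lit 1) (nat_lit 0x1800080d0a81))) 
(.lf (nat_lit 2617622571) (dlOf (nat_lit 13) (nat_lit 0x100c403798040054062002802c00de1820023018800380b003784080050062002802c00ddd82000f016006ee80800100c40377204000406201b5302000e031000d016006d341000100b00368804003805801b3702000602f004e681008c017800000080480008026000200b40008100783)))))) 
(.nd (nat_lit 20) (.nd (nat_lit 6) (.nd (nat_lit 9) 
(.lf (nat_lit 335923627) (dlOf (nat_lit 1) (nat_lit 0x44002000200080e4e82))) 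
(.lf (nat_lit 2886059947) (dlOf (nat_lit 2) (nat_lit 0xa01a0000c018144300)))) 
(.lf (nat_lit 2751841259) (dlOf (nat_lit 1) (nat_lit 0x400200020008002882)))) (.nd (nat_lit 6) 
(.nd (nat_lit 7) 
(.lf (nat_lit 60145963) (dlOf (nat_lit 2) (nat_lit 0x14abb8000000400f400400840019840b02))) 
(.lf (nat_lit 56478123) (dlOf (nat_lit 1) (nat_lit 0x20019734e81)))) 
(.lf (nat_lit 1950059) (dlOf (nat_lit 2) (nat_lit 0x24c9800054080008008000800200040008150703)))))) 
(.nd (nat_lit 6) (.nd (nat_lit 19) (.nd (nat_lit 7) (.nd (nat_lit 9) 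
(.lf (nat_lit 11911211) (dlOf (nat_lit 2) (nat_lit 0x2baa2801bd4980038a8286c0000))) 
(.lf (nat_lit 23446059) (dlOf (nat_lit 1) (nat_lit 0x54002000e0008b80e82)))) 
(.lf (nat_lit 472238507) (dlOf (nat_lit 1) (nat_lit 0x240028924e81)))) (.nd (nat_lit 7) 
(.nd (nat_lit 20) (.lf (nat_lit 11386923) (dlOf (nat_lit 1) (nat_lit 0xc0028690601))) 
(.lf (nat_lit 16629803) (dlOf (nat_lit 3) (nat_lit 0x10000002240801200000010e04002c002000200088c0782)))) 
(.lf (nat_lit 2754464171) (dlOf (nat_lit 1) (nat_lit 0x4002000200080f4e82))))) (.nd (nat_lit 7) 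
(.nd (nat_lit 8) 
(.lf (nat_lit 48611435) (dlOf (nat_lit 2) (nat_lit 0xd6098000b0080028008000800200020009420a03))) 
(.lf (nat_lit 12435819) (dlOf (nat_lit 1) (nat_lit 0x4002000200086c0702)))) (.nd (nat_lit 9) 
(.nd (nat_lit 10) (.lf (nat_lit 20824299) (dlOf (nat_lit 1) (nat_lit 0x400189e4401))) 
(.lf (nat_lit 20303083) (dlOf (nat_lit 3) (nat_lit 0x17098000c808003bafc0005a0400cc004007c00089d6502)))) 
(.lf (nat_lit 57002731) (dlOf (nat_lit 1) (nat_lit 0xc00200060009795a02)))))))) (.nd (nat_lit 29) 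
(.nd (nat_lit 8) (.nd (nat_lit 6) (.nd (nat_lit 18) (.nd (nat_lit 21) (.nd (nat_lit 26) 
(.lf (nat_lit 3221864491) (dlOf (nat_lit 5) (nat_lit 0x9c807c030e00e0184006002380100320000000190a04e803e004200e00c48038000300c09a007c032c00e00c8006003180000002c1009b007c032c00e00010020000501803700080060002000600081a0c03))) 
(.lf (nat_lit 3557408811) (dlOf (nat_lit 1) (nat_lit 0x200081f0801)))) 
(.lf (nat_lit 3492397099) (dlOf (nat_lit 13) (nat_lit 0x3d4207000120101eb1038000880809b081c000400404e440e0001f0201422070000e81004a10380006c08023883c012c38000020000000c8300441078026870000140000001806008c1c00000b01000d10780250700000c00000014060240207000028100031038000100800080080080002000200080c0c03)))) 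
(.nd (nat_lit 21) (.nd (nat_lit 26) 
(.lf (nat_lit 3355820075) (dlOf (nat_lit 3) (nat_lit 0xc00bc02fc60400080640000002004e0028120781))) 
(.lf (nat_lit 3288711211) (dlOf (nat_lit 6) (nat_lit 0xae01e0001201004200f000088080210078000320400080000001602000c012000038180c0c00)))) 
(.lf (nat_lit 3492134955) (dlOf (nat_lit 1) (nat_lit 0x3000280a0981))))) (.nd (nat_lit 7) 
(.nd (nat_lit 21) (.lf (nat_lit 1346748523) (dlOf (nat_lit 1) (nat_lit 0x4000400180009000a02))) 
(.lf (nat_lit 3492135019) (dlOf (nat_lit 1) (nat_lit 0x18008002c002002000080a1483)))) 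
(.nd (nat_lit 10) (.lf (nat_lit 1346748651) (dlOf (nat_lit 2) (nat_lit 0x1809600651019001e80))) 
(.nd (nat_lit 26) 
(.lf (nat_lit 1342295275) (dlOf (nat_lit 2) (nat_lit 0x202500006404000c00200020008006502))) 
(.lf (nat_lit 1409404139) (dlOf (nat_lit 1) (nat_lit 0x8008000400200020008006503))))))) 
(.nd (nat_lit 7) (.nd (nat_lit 9) (.nd (nat_lit 6) 
(.lf (nat_lit 3557146923) (dlOf (nat_lit 1) (nat_lit 0x1000400040008130702))) (.nd (nat_lit 10) 
(.lf (nat_lit 3489778027) (dlOf (nat_lit 1) (nat_lit 0x20018004e81))) 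
(.lf (nat_lit 3490041195) (dlOf (nat_lit 1) (nat_lit 0x1c004000a0008006b02))))) (.nd (nat_lit 11) 
(.lf (nat_lit 3355562859) (dlOf (nat_lit 1) (nat_lit 0xe00180a8f81))) 
(.lf (nat_lit 5771479915) (dlOf (nat_lit 1) (nat_lit 0x400400020008005c02))))) (.nd (nat_lit 27) 
(.nd (nat_lit 28) 
(.lf (nat_lit 3221343723) (dlOf (nat_lit 1) (nat_lit 0xa0008000400200160008116e83))) 
(.lf (nat_lit 3489779179) (dlOf (nat_lit 2) (nat_lit 0x402e00006818006e80)))) (.nd (nat_lit 6) 
(.lf (nat_lit 3355562923) (dlOf (nat_lit 1) (nat_lit 0xce00280a9101))) 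
(.lf (nat_lit 1543622123) (dlOf (nat_lit 3) (nat_lit 0x800c8000340800180640000004000800400220018146e82))))))) 
(.nd (nat_lit 6) (.nd (nat_lit 7) (.nd (nat_lit 27) (.nd (nat_lit 11) (.nd (nat_lit 26) 
(.lf (nat_lit 4026908715) (dlOf (nat_lit 4) (nat_lit 0xb00780004804006c03c000220200060120000e8180c0d00))) 
(.lf (nat_lit 1678098475) (dlOf (nat_lit 14) (nat_lit 0x8d02b0000bc0808d81580005c0400f00ac0002d020654055038602a015d014c0c000a4066204e001402681cd81300e6809601d0049010a0238211811405b408606ba03c039601b800580d006f0062052a03000b2017821d80b4107c058003a02400d200e014c805c0d8802c06ac012036e008802a00400e5c014030a008040500300f70000000207c06480aa001405301b0027006d0130063c06e031e0120000786044802b01d181540bf80a606fa0520420027019e81301110094037c043041501b800800d0112006402c8031000e01600f88090079802c08fa01301eb00900cc80280060010000a006008b000000038a802e01580900026004600a0000683008b02b0000300801901580001604034002600009020508056023c02a80bf814c0b5809c055404c02cb025015780dc04cc062044e01602f2009810b0048005c0000000818045e05601af02a813480c8030006204c001300c700900000c3013c004c000000409ec00402000008180802))))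 
(.lf (nat_lit 1677842475) (dlOf (nat_lit 1) (nat_lit 0x780080094002005e000811a603)))) 
(.nd (nat_lit 11) (.nd (nat_lit 26) 
(.lf (nat_lit 3892953131) (dlOf (nat_lit 6) (nat_lit 0x700c800400600006208001c032000a0180001782000700c00005c0800380640002204002c0320000e02005600082a0b01))) 
(.lf (nat_lit 3960061995) (dlOf (nat_lit 4) (nat_lit 0x26001f00bb8038000320809c407c02f800e0000b0201590070000500814600080754002028200081a0d03)))) 
(.lf (nat_lit 3959543851) (dlOf (nat_lit 1) (nat_lit 0x40040002000811a602))))) (.nd (nat_lit 9) 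
(.nd (nat_lit 28) (.lf (nat_lit 1610727851) (dlOf (nat_lit 1) (nat_lit 0x800200020008091002))) 
(.lf (nat_lit 4026646955) (dlOf (nat_lit 3) (nat_lit 0x200ac0148c04000805c00a300200120028017181)))) 
(.nd (nat_lit 8) (.lf (nat_lit 6376770219) (dlOf (nat_lit 1) (nat_lit 0x20028095681))) 
(.nd (nat_lit 26) (.lf (nat_lit 5905696683) (dlOf (nat_lit 1) (nat_lit 0x19c0028144301))) 
(.lf (nat_lit 1677838251) (dlOf (nat_lit 1) (nat_lit 0x60028114301))))))) (.nd (nat_lit 7) 
(.nd (nat_lit 11) (.nd (nat_lit 9) (.nd (nat_lit 18) 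
(.lf (nat_lit 1880211563) (dlOf (nat_lit 2) (nat_lit 0x1038c0004c040004002000600087b1b02))) 
(.lf (nat_lit 1881522283) (dlOf (nat_lit 1) (nat_lit 0xa00080054002002e0008f40a03)))) 
(.lf (nat_lit 1610729067) (dlOf (nat_lit 2) (nat_lit 0x1202d00011c080070008001000200060008093903)))) 
(.nd (nat_lit 26) (.lf (nat_lit 5905696875) (dlOf (nat_lit 1) (nat_lit 0x400400020008144702))) 
(.lf (nat_lit 1677838443) (dlOf (nat_lit 1) (nat_lit 0x400400020008114702))))) (.nd (nat_lit 9) 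
(.nd (nat_lit 8) (.lf (nat_lit 1881522411) (dlOf (nat_lit 1) (nat_lit 0x400200080008f41e82))) 
(.lf (nat_lit 1946272235) (dlOf (nat_lit 2) (nat_lit 0x98052000000200020018017301)))) 
(.nd (nat_lit 19) (.lf (nat_lit 4093756395) (dlOf (nat_lit 1) (nat_lit 0x300018002881))) 
(.lf (nat_lit 1611252715) (dlOf (nat_lit 1) (nat_lit 0x20028122881))))))))) (.nd (nat_lit 18) 
(.nd (nat_lit 7) (.nd (nat_lit 11) (.nd (nat_lit 19) (.nd (nat_lit 20) (.nd (nat_lit 21) 
(.nd (nat_lit 8) (.nd (nat_lit 9) 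
(.lf (nat_lit 29474863) (dlOf (nat_lit 1) (nat_lit 0x400200020008e10802))) 
(.lf (nat_lit 3355563567) (dlOf (nat_lit 1) (nat_lit 0x100080004002000200080a9c03)))) 
(.nd (nat_lit 26) (.lf (nat_lit 5905696559) (dlOf (nat_lit 1) (nat_lit 0x400400020008143d82))) 
(.lf (nat_lit 2751579951) (dlOf (nat_lit 1) (nat_lit 0x400400020008003d82))))) (.nd (nat_lit 23) 
(.nd (nat_lit 6) 
(.lf (nat_lit 23183407) (dlOf (nat_lit 3) (nat_lit 0x7655b00004008062aad80001e040060004000e0008b60902))) 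
(.lf (nat_lit 3491873135) (dlOf (nat_lit 1) (nat_lit 0x8008014000200fa0008090783)))) 
(.nd (nat_lit 24) (.lf (nat_lit 10600495) (dlOf (nat_lit 1) (nat_lit 0x80018600601))) 
(.lf (nat_lit 27377711) (dlOf (nat_lit 1) (nat_lit 0x20018cd0901)))))) (.nd (nat_lit 28) 
(.nd (nat_lit 22) (.lf (nat_lit 17940527) (dlOf (nat_lit 1) (nat_lit 0x20018900b81))) 
(.lf (nat_lit 47300655) (dlOf (nat_lit 1) (nat_lit 0x80080004002001000093d0d03)))) (.nd (nat_lit 6) 
(.nd (nat_lit 26) (.lf (nat_lit 1343340591) (dlOf (nat_lit 1) (nat_lit 0x1b20018200901))) 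
(.lf (nat_lit 470925359) (dlOf (nat_lit 1) (nat_lit 0xe0028200901)))) 
(.lf (nat_lit 1880211567) (dlOf (nat_lit 1) (nat_lit 0x40002000400087b1d02)))))) (.nd (nat_lit 21) 
(.nd (nat_lit 26) (.nd (nat_lit 29) 
(.lf (nat_lit 134856751) (dlOf (nat_lit 1) (nat_lit 0xc004000200180d0b02))) 
(.lf (nat_lit 3892953135) (dlOf (nat_lit 5) (nat_lit 0xb802b805c80dc02fc06c00da020006e00f805f006402e4030004a009000070800a401b803a808003140320000c06016c05700b701b805e80d801c804000e601f00bc00c805c006000700120000a1000f2057009c010004e007c03b003201d001800100048000003003180080180002043800082a0b83)))) 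
(.nd (nat_lit 20) (.lf (nat_lit 201965615) (dlOf (nat_lit 1) (nat_lit 0xc004000200180d0b02))) 
(.lf (nat_lit 471449647) (dlOf (nat_lit 4) (nat_lit 0x42086000603c000158100128260008410c004a078002103b0001542001082a40006c040020004002a0018300b82))))) 
(.nd (nat_lit 6) (.nd (nat_lit 26) 
(.lf (nat_lit 3492397103) (dlOf (nat_lit 1) (nat_lit 0x100080008002000200080c0e83))) 
(.lf (nat_lit 1009369135) (dlOf (nat_lit 6) (nat_lit 0x8014000e3020002056000302980070140001809a0007b080004056000302980040140001809a0007a08000a056000602980048140002009a0007908000c056000602980038140002809a000780800020009130d01)))) 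
(.lf (nat_lit 36290671) (dlOf (nat_lit 1) (nat_lit 0x8008003c002000c0009062483)))))) 
(.nd (nat_lit 8) (.nd (nat_lit 9) (.nd (nat_lit 27) (.nd (nat_lit 30) 
(.lf (nat_lit 2751584303) (dlOf (nat_lit 1) (nat_lit 0x12800800d40020010000800a603))) 
(.lf (nat_lit 1677842479) (dlOf (nat_lit 1) (nat_lit 0x6c0020032000811a602)))) 
(.lf (nat_lit 3959543855) (dlOf (nat_lit 1) (nat_lit 0x2001811a601)))) (.nd (nat_lit 6) 
(.nd (nat_lit 20) (.lf (nat_lit 54643247) (dlOf (nat_lit 1) (nat_lit 0x20019655181))) 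
(.lf (nat_lit 473025071) (dlOf (nat_lit 1) (nat_lit 0x60008c35181)))) 
(.lf (nat_lit 6509678191) (dlOf (nat_lit 1) (nat_lit 0x200018147181))))) (.nd (nat_lit 6) 
(.nd (nat_lit 19) (.nd (nat_lit 22) 
(.lf (nat_lit 5234608943) (dlOf (nat_lit 1) (nat_lit 0xc0018055c01))) 
(.lf (nat_lit 54643503) (dlOf (nat_lit 1) (nat_lit 0x800400020009655c02)))) 
(.lf (nat_lit 46779183) (dlOf (nat_lit 1) (nat_lit 0x400400020009385c02)))) (.nd (nat_lit 26) 
(.lf (nat_lit 3489779055) (dlOf (nat_lit 2) (nat_lit 0x80bc0000a04000400200020008006b02))) 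
(.lf (nat_lit 6509677935) (dlOf (nat_lit 1) (nat_lit 0x140018146b01))))))) (.nd (nat_lit 10) 
(.nd (nat_lit 9) (.nd (nat_lit 6) (.nd (nat_lit 19) 
(.lf (nat_lit 2754726319) (dlOf (nat_lit 1) (nat_lit 0x200280f4e81))) (.nd (nat_lit 20) 
(.lf (nat_lit 38390191) (dlOf (nat_lit 1) (nat_lit 0x8008000400200020009134e83))) 
(.lf (nat_lit 39438767) (dlOf (nat_lit 1) (nat_lit 0xc00200020009194e82))))) (.nd (nat_lit 8) 
(.lf (nat_lit 473546991) (dlOf (nat_lit 1) (nat_lit 0x64004000c0018f61e82))) (.nd (nat_lit 11) 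
(.lf (nat_lit 1073857007) (dlOf (nat_lit 1) (nat_lit 0x40028017d01))) 
(.lf (nat_lit 58837487) (dlOf (nat_lit 1) (nat_lit 0x8e00197e4f01)))))) (.nd (nat_lit 8) 
(.nd (nat_lit 11) (.lf (nat_lit 20562671) (dlOf (nat_lit 1) (nat_lit 0x19800400c400089d2102))) 
(.lf (nat_lit 39963375) (dlOf (nat_lit 1) (nat_lit 0x400191f5a01)))) (.nd (nat_lit 11) 
(.nd (nat_lit 26) (.lf (nat_lit 115695) (dlOf (nat_lit 1) (nat_lit 0x400200020008002882))) 
(.lf (nat_lit 5972804591) (dlOf (nat_lit 1) (nat_lit 0xa0018142881)))) 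
(.lf (nat_lit 4831955951) (dlOf (nat_lit 1) (nat_lit 0x20028055f01)))))) (.nd (nat_lit 21) 
(.nd (nat_lit 8) (.nd (nat_lit 6) 
(.lf (nat_lit 474072239) (dlOf (nat_lit 7) (nat_lit 0x82d0001a16600140ac00008558000c28600340cf000700b80048054000be2000102cc00040170002e8200010b4800485a000100300005906000e1680002b8100030b30001480800905a400382cc000815f00150a60002052c001828a000a0d700030398000806000096240088004000a0019082c02))) 
(.lf (nat_lit 2080490735) (dlOf (nat_lit 1) (nat_lit 0x20008092e81)))) (.nd (nat_lit 26) 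
(.nd (nat_lit 28) 
(.lf (nat_lit 3221343663) (dlOf (nat_lit 1) (nat_lit 0x8008000400200020008116d03))) 
(.lf (nat_lit 805424559) (dlOf (nat_lit 1) (nat_lit 0x8008000400200020008116d03)))) 
(.lf (nat_lit 6509677999) (dlOf (nat_lit 1) (nat_lit 0x400400020008146d02))))) (.nd (nat_lit 6) 
(.nd (nat_lit 22) (.lf (nat_lit 35767471) (dlOf (nat_lit 1) (nat_lit 0x20019012c01))) 
(.lf (nat_lit 48350383) (dlOf (nat_lit 2) (nat_lit 0x240000004b02000a0009402c01)))) 
(.nd (nat_lit 8) (.nd (nat_lit 9) 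
(.lf (nat_lit 7980271) (dlOf (nat_lit 1) (nat_lit 0x800400080018512e82))) 
(.lf (nat_lit 7980783) (dlOf (nat_lit 1) (nat_lit 0x20028513b01)))) 
(.lf (nat_lit 20043247) (dlOf (nat_lit 1) (nat_lit 0x100080020002000800089d9c03)))))))) 
(.nd (nat_lit 21) (.nd (nat_lit 29) (.nd (nat_lit 19) (.nd (nat_lit 30) (.nd (nat_lit 9) 
(.nd (nat_lit 26) (.lf (nat_lit 6442827823) (dlOf (nat_lit 1) (nat_lit 0xce00081d0a01))) 
(.lf (nat_lit 2617622575) (dlOf (nat_lit 3) (nat_lit 0x402c0003e0100030160000700804d8008003800201700008100d83)))) 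
(.nd (nat_lit 8) (.lf (nat_lit 42322479) (dlOf (nat_lit 1) (nat_lit 0x800400140009245182))) 
(.lf (nat_lit 60148527) (dlOf (nat_lit 1) (nat_lit 0x950008021800200540009845c03))))) 
(.nd (nat_lit 6) (.nd (nat_lit 26) 
(.lf (nat_lit 3355820079) (dlOf (nat_lit 1) (nat_lit 0x1c0008120d81))) 
(.lf (nat_lit 3288711215) (dlOf (nat_lit 8) (nat_lit 0x1600fc01a004e018a01e01310090000d82002b80fc026804e001602100f600f000d806c05780240052009000b000802280000006a2400e004e018c01e013e0090000d01804f0078025c0240002e0400100110001681002600f007580480005608016804c019a01e000200d80b7004802cc0220028009000150680c0e80)))) 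
(.lf (nat_lit 5637521519) (dlOf (nat_lit 1) (nat_lit 0x20028100c81))))) (.nd (nat_lit 20) 
(.nd (nat_lit 6) (.lf (nat_lit 17678383) (dlOf (nat_lit 1) (nat_lit 0x18004000200088f0e82))) 
(.lf (nat_lit 1343078767) (dlOf (nat_lit 2) (nat_lit 0x400000001818150a00)))) (.nd (nat_lit 22) 
(.lf (nat_lit 27115567) (dlOf (nat_lit 1) (nat_lit 0x420028ca0701))) 
(.lf (nat_lit 22921263) (dlOf (nat_lit 1) (nat_lit 0x20028b40d81)))))) (.nd (nat_lit 26) 
(.nd (nat_lit 30) (.nd (nat_lit 8) 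
(.lf (nat_lit 805683247) (dlOf (nat_lit 6) (nat_lit 0xa802a800c8150025c0a600fe04e005802600280128035808a00060370042018800280c0035805a016802c005d0090021002800fc00c000101e012a05500b8029807c813801cc09801b604a00ab022802d80dc01c8062015402d00ae01600340058011402400ba000000078d005d02b0018814c015c09400ae032003901600f0004c0001c1800080ac0116032010c0098000341803700c8000060400d000200040008180902))) 
(.lf (nat_lit 2818949423) (dlOf (nat_lit 1) (nat_lit 0x400200020008130702)))) (.nd (nat_lit 31) 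
(.lf (nat_lit 1610989615) (dlOf (nat_lit 3) (nat_lit 0x2a8154029806e0009d04009e055009f01b8002381000080080020002001c00080b0483))) 
(.lf (nat_lit 3758473263) (dlOf (nat_lit 1) (nat_lit 0x20008001c002000a00081f0903))))) 
(.nd (nat_lit 27) (.nd (nat_lit 6) (.nd (nat_lit 30) 
(.lf (nat_lit 4899323951) (dlOf (nat_lit 1) (nat_lit 0x10008000800200040008110d03))) 
(.lf (nat_lit 1678098479) (dlOf (nat_lit 4) (nat_lit 0x64098008804a000700900080018000261000440ac007005300640190174004c009c014000110a0014056006e005000040100d40008040400201c80008180883)))) 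
(.lf (nat_lit 6241501295) (dlOf (nat_lit 1) (nat_lit 0x20028100c81)))) (.nd (nat_lit 7) 
(.lf (nat_lit 738574383) (dlOf (nat_lit 3) (nat_lit 0x2a8154029806e0009d04009e055009f01b8002381000080080020002001c00080b0483))) 
(.lf (nat_lit 2886059951) (dlOf (nat_lit 1) (nat_lit 0x1c0028144381))))))) (.nd (nat_lit 20) 
(.nd (nat_lit 6) (.nd (nat_lit 22) (.nd (nat_lit 26) 
(.lf (nat_lit 1881522223) (dlOf (nat_lit 1) (nat_lit 0x7400200300008f40302))) 
(.lf (nat_lit 2753937455) (dlOf (nat_lit 2) (nat_lit 0x20508001a004000c004000400080a0982)))) 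
(.nd (nat_lit 7) 
(.lf (nat_lit 23446063) (dlOf (nat_lit 2) (nat_lit 0x40000000fc080088008007800200120008b80e83))) 
(.lf (nat_lit 23445935) (dlOf (nat_lit 1) (nat_lit 0x60028b80781))))) (.nd (nat_lit 8) 
(.nd (nat_lit 7) (.lf (nat_lit 3492135023) (dlOf (nat_lit 1) (nat_lit 0x1200180a1581))) 
(.lf (nat_lit 19251439) (dlOf (nat_lit 1) (nat_lit 0x400400020018970602)))) (.nd (nat_lit 9) 
(.lf (nat_lit 23445999) (dlOf (nat_lit 2) (nat_lit 0x82edc0046604000c00200020008b80d82))) 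
(.lf (nat_lit 3492661231) (dlOf (nat_lit 2) (nat_lit 0x815000080440003204000600180f4601)))))) 
(.nd (nat_lit 9) (.nd (nat_lit 8) (.nd (nat_lit 19) 
(.lf (nat_lit 3522607) (dlOf (nat_lit 2) (nat_lit 0x21a080078cd600064e9000626c00762c2000600080014002000e0008200003))) 
(.lf (nat_lit 16629807) (dlOf (nat_lit 2) (nat_lit 0x280000005402000400088c0801)))) 
(.lf (nat_lit 3522863) (dlOf (nat_lit 2) (nat_lit 0x24682002c2748000d0100090008003400200260008200503)))) 
(.nd (nat_lit 11) (.lf (nat_lit 8241711) (dlOf (nat_lit 1) (nat_lit 0x1a0028511481))) 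
(.lf (nat_lit 45468207) (dlOf (nat_lit 1) (nat_lit 0x20019325181)))))))))))

end

end Pool.Agent.Lib.MP_5854e1_co.Cz

namespace Pool.Agent.Lib.MP_5854e1_co.Cz

noncomputable section

noncomputable def tz172 : DT := (.nd (nat_lit 5) (.nd (nat_lit 16) (.nd (nat_lit 6) 
(.nd (nat_lit 3) (.nd (nat_lit 19) (.nd (nat_lit 30) (.nd (nat_lit 8) (.nd (nat_lit 29) 
(.nd (nat_lit 18) (.nd (nat_lit 21) 
(.lf (nat_lit 5423106) (dlOf (nat_lit 1) (nat_lit 0x160028370001))) 
(.lf (nat_lit 62046210) (dlOf (nat_lit 1) (nat_lit 0x140019940001)))) 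
(.lf (nat_lit 33996802) (dlOf (nat_lit 1) (nat_lit 0x220018f90001)))) (.nd (nat_lit 18) 
(.nd (nat_lit 27) (.lf (nat_lit 5100453890) (dlOf (nat_lit 1) (nat_lit 0x20028090001))) 
(.lf (nat_lit 5234671618) (dlOf (nat_lit 1) (nat_lit 0x18008002000200280008080003)))) 
(.lf (nat_lit 2819014658) (dlOf (nat_lit 2) (nat_lit 0xa01b0076a0080208008002800200400008150003))))) 
(.nd (nat_lit 21) (.nd (nat_lit 18) 
(.lf (nat_lit 2348990850) (dlOf (nat_lit 1) (nat_lit 0x400200020008090782))) (.nd (nat_lit 27) 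
(.lf (nat_lit 4362518914) (dlOf (nat_lit 1) (nat_lit 0x28008001800200180008090783))) 
(.lf (nat_lit 201769346) (dlOf (nat_lit 2) (nat_lit 0x21805801c2804000c00400040008090782))))) 
(.nd (nat_lit 7) (.lf (nat_lit 57068290) (dlOf (nat_lit 1) (nat_lit 0x28008001c00200380009795a83))) 
(.lf (nat_lit 2755051906) (dlOf (nat_lit 1) (nat_lit 0x480080024002001a0008105a83)))))) 
(.nd (nat_lit 26) (.nd (nat_lit 18) (.nd (nat_lit 9) (.nd (nat_lit 10) 
(.lf (nat_lit 5637324802) (dlOf (nat_lit 1) (nat_lit 0x5000180d0001))) 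
(.lf (nat_lit 1610793986) (dlOf (nat_lit 1) (nat_lit 0x10800200320008092882)))) 
(.lf (nat_lit 1610794498) (dlOf (nat_lit 1) (nat_lit 0x100008093681)))) (.nd (nat_lit 7) 
(.nd (nat_lit 28) 
(.lf (nat_lit 3221667842) (dlOf (nat_lit 1) (nat_lit 0x190008002000200820008170003))) 
(.lf (nat_lit 5637586946) (dlOf (nat_lit 1) (nat_lit 0x48008009c002000c0008110003)))) 
(.lf (nat_lit 3493249410) (dlOf (nat_lit 1) (nat_lit 0x480080024002001a0008105a83))))) 
(.nd (nat_lit 27) (.nd (nat_lit 7) (.nd (nat_lit 29) 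
(.lf (nat_lit 3557212162) (dlOf (nat_lit 3) (nat_lit 0x3501c0069140800780e00348604000c00400040008170002))) 
(.lf (nat_lit 6241566722) (dlOf (nat_lit 1) (nat_lit 0x48008009c002000c0008110003)))) 
(.lf (nat_lit 1678164354) (dlOf (nat_lit 4) (nat_lit 0x81080197204016008400cb10201a4042006550181a0780)))) 
(.nd (nat_lit 7) (.nd (nat_lit 11) 
(.lf (nat_lit 4228300802) (dlOf (nat_lit 9) (nat_lit 0x7010001abc04005c08000d2e0200160400069681000a0200034a008005010001a4e04002808000988020022040004c00100100200025fc0802180080134002004e0008090003))) 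
(.lf (nat_lit 3959609346) (dlOf (nat_lit 2) (nat_lit 0x8045002b581811a600)))) 
(.lf (nat_lit 3422733186) (dlOf (nat_lit 1) (nat_lit 0x400180a2581))))))) (.nd (nat_lit 21) 
(.nd (nat_lit 20) (.nd (nat_lit 26) (.nd (nat_lit 22) (.nd (nat_lit 28) 
(.lf (nat_lit 134922242) (dlOf (nat_lit 3) (nat_lit 0xb004c011b4040850076091403600f100b801c5418181800811a000212de00080e0003))) 
(.lf (nat_lit 5772066818) (dlOf (nat_lit 1) (nat_lit 0xc00200040008060002)))) 
(.lf (nat_lit 21676034) (dlOf (nat_lit 2) (nat_lit 0x80000087102000a0008a60001)))) (.nd (nat_lit 7) 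
(.nd (nat_lit 28) 
(.lf (nat_lit 202031106) (dlOf (nat_lit 3) (nat_lit 0xb004c01afc040850076091403600f100b8032fc18181800811a000212de00080e0003))) 
(.lf (nat_lit 6376046594) (dlOf (nat_lit 1) (nat_lit 0xc00200040008060002)))) 
(.lf (nat_lit 2752169858) (dlOf (nat_lit 1) (nat_lit 0x20004011e0008004182))))) (.nd (nat_lit 26) 
(.nd (nat_lit 18) (.nd (nat_lit 28) 
(.lf (nat_lit 1753090) (dlOf (nat_lit 4) (nat_lit 0x4a6d00b4101000553f000429b400581ae0162106000ec17000753f0004a9b402bf60c019400400420008130002))) 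
(.lf (nat_lit 1343930370) (dlOf (nat_lit 1) (nat_lit 0xa0008380001)))) 
(.lf (nat_lit 1344192514) (dlOf (nat_lit 1) (nat_lit 0x18008000c00200040008490003)))) 
(.nd (nat_lit 7) 
(.lf (nat_lit 4095393794) (dlOf (nat_lit 1) (nat_lit 0x1e80080004002002c00080a0003))) 
(.lf (nat_lit 2753216898) (dlOf (nat_lit 2) (nat_lit 0x221f800655018090780)))))) (.nd (nat_lit 20) 
(.nd (nat_lit 10) (.nd (nat_lit 24) 
(.lf (nat_lit 472563714) (dlOf (nat_lit 1) (nat_lit 0xc00189c0001))) 
(.lf (nat_lit 19578882) (dlOf (nat_lit 1) (nat_lit 0x8008000c002000a00089c0003)))) (.nd (nat_lit 7) 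
(.lf (nat_lit 69911554) (dlOf (nat_lit 1) (nat_lit 0x1f800800d800200540008e12883))) 
(.lf (nat_lit 2754530434) (dlOf (nat_lit 1) (nat_lit 0x8a00180f6101))))) (.nd (nat_lit 8) 
(.nd (nat_lit 9) (.nd (nat_lit 18) 
(.lf (nat_lit 3850242) (dlOf (nat_lit 1) (nat_lit 0x200018240001))) 
(.lf (nat_lit 20889602) (dlOf (nat_lit 1) (nat_lit 0x800189f0001)))) (.nd (nat_lit 7) 
(.lf (nat_lit 8049154) (dlOf (nat_lit 1) (nat_lit 0x800400020008518682))) 
(.lf (nat_lit 8046210) (dlOf (nat_lit 1) (nat_lit 0x8008000400200040008513a03))))) (.nd (nat_lit 7) 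
(.nd (nat_lit 9) (.lf (nat_lit 473612546) (dlOf (nat_lit 1) (nat_lit 0x18004000c0008f63582))) 
(.lf (nat_lit 8045314) (dlOf (nat_lit 1) (nat_lit 0x400400020008512102)))) 
(.lf (nat_lit 8049026) (dlOf (nat_lit 1) (nat_lit 0x10008000c00200040008518383)))))))) 
(.nd (nat_lit 8) (.nd (nat_lit 18) (.nd (nat_lit 31) (.nd (nat_lit 19) (.nd (nat_lit 20) 
(.nd (nat_lit 9) (.nd (nat_lit 26) 
(.lf (nat_lit 4832018442) (dlOf (nat_lit 1) (nat_lit 0x80080154002006c0008090003))) 
(.lf (nat_lit 1275248650) (dlOf (nat_lit 1) (nat_lit 0x5a00280c0001)))) 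
(.lf (nat_lit 2013447690) (dlOf (nat_lit 1) (nat_lit 0x18008001000200060008093683)))) 
(.nd (nat_lit 21) 
(.lf (nat_lit 22200330) (dlOf (nat_lit 2) (nat_lit 0x152e20008d0200080018aa0581))) 
(.lf (nat_lit 24297482) (dlOf (nat_lit 1) (nat_lit 0x20018b90681))))) (.nd (nat_lit 20) 
(.nd (nat_lit 21) (.nd (nat_lit 26) 
(.lf (nat_lit 134922250) (dlOf (nat_lit 2) (nat_lit 0x13c03b003828180e0000))) 
(.lf (nat_lit 202031114) (dlOf (nat_lit 2) (nat_lit 0x13c03b006590180e0000)))) 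
(.lf (nat_lit 15384586) (dlOf (nat_lit 1) (nat_lit 0x700080014002000c00087e0483)))) 
(.nd (nat_lit 21) (.lf (nat_lit 60473354) (dlOf (nat_lit 2) (nat_lit 0x4a3c00ad6019870000))) 
(.lf (nat_lit 16433162) (dlOf (nat_lit 1) (nat_lit 0x200288a0001)))))) (.nd (nat_lit 28) 
(.nd (nat_lit 7) (.nd (nat_lit 9) (.nd (nat_lit 19) 
(.lf (nat_lit 2147663882) (dlOf (nat_lit 1) (nat_lit 0x5a00280c0001))) 
(.lf (nat_lit 2819276810) (dlOf (nat_lit 1) (nat_lit 0x80028220281)))) 
(.lf (nat_lit 3959609866) (dlOf (nat_lit 3) (nat_lit 0x58118017008a004204300609830024022802ca80801a000800780020012000811b283)))) 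
(.nd (nat_lit 10) (.lf (nat_lit 2147664010) (dlOf (nat_lit 1) (nat_lit 0x10004000400080c0f02))) 
(.lf (nat_lit 2684540042) (dlOf (nat_lit 2) (nat_lit 0xa0190013600800600080018002000200080a9503))))) 
(.nd (nat_lit 9) (.nd (nat_lit 27) 
(.lf (nat_lit 2416099338) (dlOf (nat_lit 1) (nat_lit 0x20028060481))) 
(.lf (nat_lit 2550317066) (dlOf (nat_lit 1) (nat_lit 0x20028060481)))) (.nd (nat_lit 10) 
(.lf (nat_lit 2483208714) (dlOf (nat_lit 1) (nat_lit 0x20018090d81))) 
(.lf (nat_lit 4095919626) (dlOf (nat_lit 1) (nat_lit 0x800280e3681))))))) (.nd (nat_lit 19) 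
(.nd (nat_lit 20) (.nd (nat_lit 7) (.nd (nat_lit 9) 
(.lf (nat_lit 2819014666) (dlOf (nat_lit 2) (nat_lit 0x280d800000040014004000c0008150002))) 
(.lf (nat_lit 8836618) (dlOf (nat_lit 1) (nat_lit 0x20018519c01)))) (.nd (nat_lit 11) 
(.lf (nat_lit 21414026) (dlOf (nat_lit 3) (nat_lit 0x2498400160a00001b02002c52b800b2934025898400104c1003c04f0000c82800780080004002002c0008a30f03))) 
(.lf (nat_lit 8833162) (dlOf (nat_lit 1) (nat_lit 0x400200020008514802))))) (.nd (nat_lit 22) 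
(.nd (nat_lit 24) (.lf (nat_lit 9879562) (dlOf (nat_lit 1) (nat_lit 0xa80028590081))) 
(.lf (nat_lit 26656778) (dlOf (nat_lit 1) (nat_lit 0x400200220008c50002)))) 
(.lf (nat_lit 22462474) (dlOf (nat_lit 2) (nat_lit 0x93614002f004000c00200120008ae0482))))) 
(.nd (nat_lit 9) (.nd (nat_lit 21) (.nd (nat_lit 23) 
(.lf (nat_lit 5160970) (dlOf (nat_lit 1) (nat_lit 0x20018320481))) 
(.lf (nat_lit 47104010) (dlOf (nat_lit 1) (nat_lit 0x200293a0001)))) (.nd (nat_lit 7) 
(.lf (nat_lit 15646730) (dlOf (nat_lit 2) (nat_lit 0xce86005b10200100018810281))) 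
(.lf (nat_lit 19848330) (dlOf (nat_lit 1) (nat_lit 0x400189dc201))))) (.nd (nat_lit 7) 
(.nd (nat_lit 11) (.lf (nat_lit 2755576330) (dlOf (nat_lit 1) (nat_lit 0x200181b0d81))) 
(.lf (nat_lit 1345243658) (dlOf (nat_lit 2) (nat_lit 0x1c00000014018b05000)))) 
(.lf (nat_lit 19846794) (dlOf (nat_lit 1) (nat_lit 0x3c002001c00089d9e02))))))) (.nd (nat_lit 11) 
(.nd (nat_lit 31) (.nd (nat_lit 10) (.nd (nat_lit 19) (.nd (nat_lit 20) 
(.lf (nat_lit 8569226) (dlOf (nat_lit 2) (nat_lit 0xc2dc0004e018511000))) 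
(.lf (nat_lit 5772591498) (dlOf (nat_lit 2) (nat_lit 0x6000000b0018091000)))) (.nd (nat_lit 7) 
(.lf (nat_lit 473612554) (dlOf (nat_lit 5) (nat_lit 0x1e152001107d000a02480001c0c000c1f40000d0200040fa0000601000207d000000080378008004000200020008f63683))) 
(.lf (nat_lit 8044938) (dlOf (nat_lit 1) (nat_lit 0x80028511001))))) (.nd (nat_lit 7) 
(.lf (nat_lit 671270666) (dlOf (nat_lit 1) (nat_lit 0x30008002800200200008143b83))) 
(.nd (nat_lit 9) 
(.lf (nat_lit 8570250) (dlOf (nat_lit 2) (nat_lit 0x316100091c080018008000400200020008513603))) 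
(.lf (nat_lit 186250) (dlOf (nat_lit 1) (nat_lit 0x24001800a301)))))) (.nd (nat_lit 7) 
(.nd (nat_lit 10) (.nd (nat_lit 12) 
(.lf (nat_lit 2281882378) (dlOf (nat_lit 1) (nat_lit 0x4600080a2101))) 
(.lf (nat_lit 3355628298) (dlOf (nat_lit 1) (nat_lit 0x3000280a8f81)))) (.nd (nat_lit 9) 
(.lf (nat_lit 2281886986) (dlOf (nat_lit 1) (nat_lit 0xa0002015400080a9602))) 
(.lf (nat_lit 2751907594) (dlOf (nat_lit 1) (nat_lit 0x20018003b81))))) (.nd (nat_lit 9) 
(.nd (nat_lit 27) (.lf (nat_lit 2483208586) (dlOf (nat_lit 1) (nat_lit 0x1c0008090781))) 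
(.lf (nat_lit 2348990858) (dlOf (nat_lit 1) (nat_lit 0x1c0008090781)))) 
(.lf (nat_lit 2617430922) (dlOf (nat_lit 1) (nat_lit 0x200180a9001)))))) (.nd (nat_lit 20) 
(.nd (nat_lit 18) (.nd (nat_lit 28) (.nd (nat_lit 7) 
(.lf (nat_lit 2751645962) (dlOf (nat_lit 1) (nat_lit 0x58004004c0018004b82))) 
(.lf (nat_lit 1611319690) (dlOf (nat_lit 1) (nat_lit 0x20018124e81)))) (.nd (nat_lit 9) 
(.lf (nat_lit 6377621898) (dlOf (nat_lit 1) (nat_lit 0x1bc00280e4e81))) 
(.lf (nat_lit 3020083082) (dlOf (nat_lit 3) (nat_lit 0x1780d40086e04005806a004360200020028127781))))) 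
(.nd (nat_lit 9) (.nd (nat_lit 10) 
(.lf (nat_lit 604424586) (dlOf (nat_lit 1) (nat_lit 0x20018204e81))) 
(.lf (nat_lit 19848586) (dlOf (nat_lit 1) (nat_lit 0x4002000200089dc902)))) 
(.lf (nat_lit 19843978) (dlOf (nat_lit 1) (nat_lit 0x4002000200089d5c02))))) (.nd (nat_lit 7) 
(.nd (nat_lit 10) (.lf (nat_lit 8046858) (dlOf (nat_lit 1) (nat_lit 0x8008000400200020008514b83))) 
(.lf (nat_lit 20106506) (dlOf (nat_lit 1) (nat_lit 0x280080004002000200089d6683)))) 
(.nd (nat_lit 25) (.nd (nat_lit 26) 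
(.lf (nat_lit 1345505674) (dlOf (nat_lit 1) (nat_lit 0x80028c94e81))) 
(.lf (nat_lit 473090442) (dlOf (nat_lit 1) (nat_lit 0xc00400040018c94e82)))) (.nd (nat_lit 19) 
(.lf (nat_lit 57854346) (dlOf (nat_lit 1) (nat_lit 0x20029794e81))) 
(.lf (nat_lit 37407114) (dlOf (nat_lit 1) (nat_lit 0x2b800200b400090d4e82)))))))))) 
(.nd (nat_lit 30) (.nd (nat_lit 9) (.nd (nat_lit 29) (.nd (nat_lit 19) (.nd (nat_lit 23) 
(.nd (nat_lit 8) (.nd (nat_lit 18) 
(.lf (nat_lit 18006082) (dlOf (nat_lit 1) (nat_lit 0x40018900e01))) (.nd (nat_lit 25) 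
(.lf (nat_lit 471253058) (dlOf (nat_lit 1) (nat_lit 0x80080004002000200082e0003))) 
(.lf (nat_lit 35045442) (dlOf (nat_lit 1) (nat_lit 0x400400020008fd0602))))) (.nd (nat_lit 7) 
(.lf (nat_lit 40289602) (dlOf (nat_lit 1) (nat_lit 0x4004000200091f3302))) 
(.lf (nat_lit 4362518978) (dlOf (nat_lit 3) (nat_lit 0x9002b0002881005a0158000d40800c0008002400200780008090903))))) 
(.nd (nat_lit 21) (.nd (nat_lit 3) 
(.lf (nat_lit 25346114) (dlOf (nat_lit 1) (nat_lit 0x40018bf0c01))) 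
(.lf (nat_lit 25346122) (dlOf (nat_lit 1) (nat_lit 0xc00400140018bf0d02)))) (.nd (nat_lit 7) 
(.nd (nat_lit 20) (.lf (nat_lit 14860354) (dlOf (nat_lit 1) (nat_lit 0x1a0008790581))) 
(.lf (nat_lit 62046274) (dlOf (nat_lit 1) (nat_lit 0x120009940581)))) 
(.lf (nat_lit 60998850) (dlOf (nat_lit 1) (nat_lit 0x40002000800098c2d02)))))) (.nd (nat_lit 21) 
(.nd (nat_lit 23) (.nd (nat_lit 18) 
(.lf (nat_lit 4362780738) (dlOf (nat_lit 1) (nat_lit 0xc002000200080f1882))) 
(.lf (nat_lit 52346946) (dlOf (nat_lit 1) (nat_lit 0x400400020009530602)))) (.nd (nat_lit 3) 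
(.lf (nat_lit 10141762) (dlOf (nat_lit 1) (nat_lit 0x200080098002000600085b0783))) 
(.lf (nat_lit 10141770) (dlOf (nat_lit 1) (nat_lit 0x200285b0881))))) (.nd (nat_lit 3) 
(.nd (nat_lit 10) (.lf (nat_lit 472563778) (dlOf (nat_lit 1) (nat_lit 0x4002000200089c0602))) 
(.lf (nat_lit 8045634) (dlOf (nat_lit 1) (nat_lit 0x10008001800200040008512883)))) (.nd (nat_lit 7) 
(.lf (nat_lit 25083978) (dlOf (nat_lit 2) (nat_lit 0x3b13c8000d008017000800a400200a60008be1483))) 
(.lf (nat_lit 8049098) (dlOf (nat_lit 1) (nat_lit 0x8008000800200040008518683))))))) 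
(.nd (nat_lit 8) (.nd (nat_lit 3) (.nd (nat_lit 27) (.nd (nat_lit 19) 
(.lf (nat_lit 5167562818) (dlOf (nat_lit 1) (nat_lit 0x5000180c0d81))) 
(.lf (nat_lit 2754265154) (dlOf (nat_lit 1) (nat_lit 0x4002000200080d0c02)))) (.nd (nat_lit 7) 
(.lf (nat_lit 2819014722) (dlOf (nat_lit 1) (nat_lit 0x80018150581))) 
(.lf (nat_lit 3154301122) (dlOf (nat_lit 1) (nat_lit 0x100008157f01))))) (.nd (nat_lit 27) 
(.nd (nat_lit 7) (.lf (nat_lit 2754265162) (dlOf (nat_lit 1) (nat_lit 0x4004000200080d0d02))) 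
(.lf (nat_lit 872596682) (dlOf (nat_lit 1) (nat_lit 0x1a0028092d81)))) (.nd (nat_lit 18) 
(.lf (nat_lit 5234671690) (dlOf (nat_lit 5) (nat_lit 0xe80ac000c804003805e00dc02b00180108001781802d00ac000ba0401400560005b02002e0018080501))) 
(.lf (nat_lit 738639946) (dlOf (nat_lit 2) (nat_lit 0x3480540003802000a00080d0501)))))) 
(.nd (nat_lit 7) (.nd (nat_lit 3) (.nd (nat_lit 18) (.nd (nat_lit 22) 
(.lf (nat_lit 2885861698) (dlOf (nat_lit 2) (nat_lit 0x21a000000278180b0600))) 
(.lf (nat_lit 2755838274) (dlOf (nat_lit 4) (nat_lit 0x31178001842c0009e080014222000a109000160200850888046842400054080004004000600181b0602)))) 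
(.lf (nat_lit 537837890) (dlOf (nat_lit 1) (nat_lit 0xc002000600081b0602)))) 
(.lf (nat_lit 3020084554) (dlOf (nat_lit 3) (nat_lit 0x100ac0146a04000c07a009820200020028129901)))) 
(.nd (nat_lit 3) (.nd (nat_lit 18) 
(.lf (nat_lit 2753216962) (dlOf (nat_lit 4) (nat_lit 0x221f80000f8100190fc0000780800887e00000004000800400320008090902))) 
(.lf (nat_lit 805749186) (dlOf (nat_lit 5) (nat_lit 0x3e0108000a6040360084000520202ba042000288101480210000d4080270008007c002001a00081a0903)))) 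
(.lf (nat_lit 805749194) (dlOf (nat_lit 2) (nat_lit 0x6013000000181a0980))))))) (.nd (nat_lit 8) 
(.nd (nat_lit 18) (.nd (nat_lit 29) (.nd (nat_lit 10) (.nd (nat_lit 23) 
(.lf (nat_lit 201507394) (dlOf (nat_lit 1) (nat_lit 0x60018018c81))) 
(.lf (nat_lit 8569410) (dlOf (nat_lit 1) (nat_lit 0x3e0008511581)))) (.nd (nat_lit 3) 
(.lf (nat_lit 181954) (dlOf (nat_lit 1) (nat_lit 0x80018003a81))) 
(.lf (nat_lit 8050250) (dlOf (nat_lit 1) (nat_lit 0x8008000400200020008519c03))))) 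
(.nd (nat_lit 12) (.nd (nat_lit 11) 
(.lf (nat_lit 2753217090) (dlOf (nat_lit 3) (nat_lit 0x2003fc000110200ca1fe00570f40000001000e8008021000200060008091083))) 
(.lf (nat_lit 1007864386) (dlOf (nat_lit 1) (nat_lit 0xf4002000a0008805202)))) (.nd (nat_lit 3) 
(.lf (nat_lit 2751650370) (dlOf (nat_lit 14) (nat_lit 0x447e003821401bc10900348840006840800101e000090da804f05a401c42ae032e15401350a90005053401c427801ba135004c08a8000c47802e08fc001c428047c2120038108003607e800403ec00221e000d30da801605ac03782d20098163000a0ab80dd055004302a4006214d00d709a803504b8012c22a0003024045421200330fd00de05500005e0c08e042401541fa01aa0aa80c904e00005c1008c842402fa1fa01a50aa80bc855000182a0000c14f019109c000404dc019c0000002d1200322120000381023610900a587e806a82aa032e138000030400a3109000014081168848004842203221fa01870aa80bc04e0000081408dc424002c21101800fd00bc055402f8270000030a0478212001b10880cd07e806a42aa0322138000010500040aa80000408116084806443f4015216901c10aa000000200a600080b4800209b2000800b503)))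 
(.lf (nat_lit 2751650378) (dlOf (nat_lit 2) (nat_lit 0x281078000e40800480080020002003a000800b583)))))) 
(.nd (nat_lit 3) (.nd (nat_lit 26) (.nd (nat_lit 27) 
(.lf (nat_lit 537313858) (dlOf (nat_lit 1) (nat_lit 0x71000801bc00202d60008091083))) 
(.lf (nat_lit 134660674) (dlOf (nat_lit 3) (nat_lit 0x10805c006e00d000090200170078013002c0000008000c004001e0018091082)))) 
(.nd (nat_lit 11) 
(.lf (nat_lit 201769538) (dlOf (nat_lit 3) (nat_lit 0x10805c006e00d000088200170070013002c0000008000c004001e0018091082))) 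
(.lf (nat_lit 1008650818) (dlOf (nat_lit 1) (nat_lit 0x400400040008ef5202))))) (.nd (nat_lit 7) 
(.lf (nat_lit 2755576394) (dlOf (nat_lit 1) (nat_lit 0x4004000200181b1182))) (.nd (nat_lit 11) 
(.lf (nat_lit 19845834) (dlOf (nat_lit 1) (nat_lit 0x80080004002000200089d8c83))) 
(.lf (nat_lit 39766730) (dlOf (nat_lit 1) (nat_lit 0xc00291f5801))))))) (.nd (nat_lit 11) 
(.nd (nat_lit 7) (.nd (nat_lit 29) (.nd (nat_lit 19) 
(.lf (nat_lit 8570690) (dlOf (nat_lit 1) (nat_lit 0x20018513e01))) 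
(.lf (nat_lit 8046402) (dlOf (nat_lit 1) (nat_lit 0x800400020008513e02)))) (.nd (nat_lit 27) 
(.lf (nat_lit 537052994) (dlOf (nat_lit 1) (nat_lit 0x5c00200100008003e02))) 
(.lf (nat_lit 671270722) (dlOf (nat_lit 2) (nat_lit 0x2e0140000980800a8008005c002000a0008143e03))))) 
(.nd (nat_lit 3) 
(.lf (nat_lit 186306) (dlOf (nat_lit 2) (nat_lit 0x1a60b800da9f8015f40800d00020046000800a602))) 
(.lf (nat_lit 8046538) (dlOf (nat_lit 1) (nat_lit 0x20028514481))))) (.nd (nat_lit 3) 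
(.nd (nat_lit 18) 
(.lf (nat_lit 738380610) (dlOf (nat_lit 1) (nat_lit 0x120008005c002005c0008095c03))) 
(.lf (nat_lit 19843906) (dlOf (nat_lit 1) (nat_lit 0x4002000200089d5c02)))) (.nd (nat_lit 10) 
(.lf (nat_lit 2416368458) (dlOf (nat_lit 2) (nat_lit 0x3f808801fc02e00b0404000200280fbc81))) 
(.lf (nat_lit 8048458) (dlOf (nat_lit 1) (nat_lit 0x30008000400200060008517783)))))))) 
(.nd (nat_lit 31) (.nd (nat_lit 18) (.nd (nat_lit 3) (.nd (nat_lit 28) (.nd (nat_lit 27) 
(.nd (nat_lit 32) (.lf (nat_lit 1073922114) (dlOf (nat_lit 1) (nat_lit 0x60028020781))) 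
(.lf (nat_lit 5368889410) (dlOf (nat_lit 1) (nat_lit 0x18c0008080d81)))) 
(.lf (nat_lit 5503107138) (dlOf (nat_lit 1) (nat_lit 0x18c0008080d81)))) (.nd (nat_lit 19) 
(.nd (nat_lit 7) (.lf (nat_lit 1946337346) (dlOf (nat_lit 1) (nat_lit 0x60028020781))) 
(.lf (nat_lit 5637326274) (dlOf (nat_lit 1) (nat_lit 0x200180d3601)))) (.nd (nat_lit 9) 
(.lf (nat_lit 1344979010) (dlOf (nat_lit 3) (nat_lit 0xbc17a0008029000aa0200140000002500800800080014002002200089a0603))) 
(.lf (nat_lit 1881852482) (dlOf (nat_lit 1) (nat_lit 0x4004000200090a5202)))))) (.nd (nat_lit 7) 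
(.nd (nat_lit 19) (.nd (nat_lit 26) 
(.lf (nat_lit 6308413514) (dlOf (nat_lit 1) (nat_lit 0x800801e000200760008080503))) 
(.lf (nat_lit 5704433738) (dlOf (nat_lit 1) (nat_lit 0x800801e000200760008080503)))) 
(.nd (nat_lit 21) 
(.lf (nat_lit 1409990730) (dlOf (nat_lit 5) (nat_lit 0x16e05d00b302b8061814802580660003408017c05d00c502b8066814803240660094022009200f8000c830032017400100b400ec0570018029002c00cc000c04400a401f00550000000c4400320174013c0ae00a4033001a00f802780000005e1400a0004001400180c1482))) 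
(.lf (nat_lit 1344979018) (dlOf (nat_lit 4) (nat_lit 0xc029000af81000f0000002340800500000010a040020002005400089a0602))))) 
(.nd (nat_lit 22) (.lf (nat_lit 1610793162) (dlOf (nat_lit 1) (nat_lit 0x60028090881))) 
(.lf (nat_lit 1346552010) (dlOf (nat_lit 1) (nat_lit 0x20018fc5a01)))))) (.nd (nat_lit 29) 
(.nd (nat_lit 3) (.nd (nat_lit 8) (.nd (nat_lit 9) 
(.lf (nat_lit 1074184258) (dlOf (nat_lit 1) (nat_lit 0x2600280d0c01))) 
(.lf (nat_lit 1409729090) (dlOf (nat_lit 1) (nat_lit 0x71000801bc00202d60008091083)))) 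
(.lf (nat_lit 1410253122) (dlOf (nat_lit 4) (nat_lit 0xb80ec002a0650002982014c00000011c0804c00000008c040118002005000081b0602)))) 
(.nd (nat_lit 7) (.nd (nat_lit 8) 
(.lf (nat_lit 5838913610) (dlOf (nat_lit 1) (nat_lit 0x6a0028211481))) 
(.lf (nat_lit 1410253130) (dlOf (nat_lit 2) (nat_lit 0x38076000290181b0600)))) 
(.lf (nat_lit 5773377738) (dlOf (nat_lit 1) (nat_lit 0xf00080004002000a00080c1783))))) 
(.nd (nat_lit 3) (.nd (nat_lit 27) (.nd (nat_lit 7) 
(.lf (nat_lit 1946599490) (dlOf (nat_lit 1) (nat_lit 0x2600280d0c01))) 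
(.lf (nat_lit 1678164418) (dlOf (nat_lit 5) (nat_lit 0x3e0108000a6040360084000520202ba042000288101480210000d4080270008007c002001a00081a0903)))) 
(.nd (nat_lit 9) 
(.lf (nat_lit 6377357506) (dlOf (nat_lit 2) (nat_lit 0x3808000030040014004000400080c1b02))) 
(.lf (nat_lit 1745275586) (dlOf (nat_lit 1) (nat_lit 0x1e00280e5801))))) (.nd (nat_lit 7) 
(.lf (nat_lit 1611055178) (dlOf (nat_lit 2) (nat_lit 0x3480540003602000a00080d0501))) 
(.lf (nat_lit 1678164426) (dlOf (nat_lit 2) (nat_lit 0x6013000000181a0980))))))) (.nd (nat_lit 28) 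
(.nd (nat_lit 18) (.nd (nat_lit 7) (.nd (nat_lit 3) 
(.lf (nat_lit 3959609410) (dlOf (nat_lit 1) (nat_lit 0x5680080044002002a000811a683))) 
(.nd (nat_lit 8) 
(.lf (nat_lit 3959609418) (dlOf (nat_lit 19) (nat_lit 0x808e0022202000404602440228067810c001c0840020a08022a046033102280bc810c03d00840020908003c046030e02280df010c031c0840020808014204602ff02280dd810c02f80840020708000e056000f01900048044003b80c01e009c004e04d006401a800760180018138003ae04031009c018804d000ea02002702a813b814409ac09c050204d000202500f880d4023006803a801e000e9880011026800744080140138003a004064009c030e04d000e782000302700070c0800e01380038004004009c001bc02008004e000dd81018102300000008028800801140020166000811a683))) 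
(.lf (nat_lit 3221409098) (dlOf (nat_lit 1) (nat_lit 0x440028116981))))) (.nd (nat_lit 11) 
(.nd (nat_lit 10) 
(.lf (nat_lit 3959604170) (dlOf (nat_lit 1) (nat_lit 0x8008001000200180008112883))) 
(.lf (nat_lit 3959605194) (dlOf (nat_lit 2) (nat_lit 0x700000001c040054002001a0008114482)))) 
(.nd (nat_lit 9) 
(.lf (nat_lit 3221408202) (dlOf (nat_lit 2) (nat_lit 0x3a03e0026000005ce410025000800c4002003a0008114e83))) 
(.lf (nat_lit 3221412810) (dlOf (nat_lit 5) (nat_lit 0x5202280044008041811400080840010f0400f40450008701007302280043408054000801d400200d2000811be83)))))) 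
(.nd (nat_lit 26) (.nd (nat_lit 3) 
(.lf (nat_lit 3221668290) (dlOf (nat_lit 2) (nat_lit 0x1007000078080008008010400200780008170903))) 
(.nd (nat_lit 7) (.lf (nat_lit 3221667914) (dlOf (nat_lit 1) (nat_lit 0xc00400020018170002))) 
(.lf (nat_lit 3221668298) (dlOf (nat_lit 2) (nat_lit 0x10178000f4080120008007000200300008170983))))) 
(.nd (nat_lit 3) 
(.lf (nat_lit 3959865794) (dlOf (nat_lit 2) (nat_lit 0x1007000078080008008010400200780008170903))) 
(.nd (nat_lit 7) (.lf (nat_lit 3959865418) (dlOf (nat_lit 1) (nat_lit 0xc00400020018170002))) 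
(.lf (nat_lit 3959865802) (dlOf (nat_lit 2) (nat_lit 0x10178000f8080120008007000200300008170983))))))) 
(.nd (nat_lit 8) (.nd (nat_lit 3) (.nd (nat_lit 9) 
(.lf (nat_lit 3492462658) (dlOf (nat_lit 1) (nat_lit 0x4002000200080d0c02))) (.nd (nat_lit 10) 
(.lf (nat_lit 3491414594) (dlOf (nat_lit 3) (nat_lit 0x2003d8000120200ca1ec00570e98000001000e8008021000200060008091083))) 
(.lf (nat_lit 4095657538) (dlOf (nat_lit 1) (nat_lit 0x400080e3801))))) (.nd (nat_lit 9) 
(.lf (nat_lit 3492462666) (dlOf (nat_lit 1) (nat_lit 0x4004000200080d0d02))) (.nd (nat_lit 10) 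
(.lf (nat_lit 3493773898) (dlOf (nat_lit 1) (nat_lit 0x4004000200181b1182))) 
(.lf (nat_lit 4160935498) (dlOf (nat_lit 1) (nat_lit 0x4004000200080a9c02)))))) (.nd (nat_lit 7) 
(.nd (nat_lit 3) 
(.lf (nat_lit 3624059202) (dlOf (nat_lit 2) (nat_lit 0x9b0000000ac040120002008800080b0602))) 
(.nd (nat_lit 9) 
(.lf (nat_lit 3489844554) (dlOf (nat_lit 4) (nat_lit 0x1063800082a0000400a000110600380d7001c063800e02a0007000a000100800020ca00006818006980))) 
(.lf (nat_lit 3490110282) (dlOf (nat_lit 1) (nat_lit 0x8008001c0020002000800bc83))))) 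
(.nd (nat_lit 9) (.nd (nat_lit 18) 
(.lf (nat_lit 3491414466) (dlOf (nat_lit 4) (nat_lit 0x221e60000f8100190f30000780800887980000004000800400320008090902))) 
(.lf (nat_lit 4228301250) (dlOf (nat_lit 3) (nat_lit 0x9002a0002881005a0150000d40800c0008002400200780008090903)))) 
(.lf (nat_lit 4094872514) (dlOf (nat_lit 1) (nat_lit 0x18002000e0008055d82)))))))))) 
(.nd (nat_lit 3) (.nd (nat_lit 6) (.nd (nat_lit 18) (.nd (nat_lit 28) (.nd (nat_lit 7) 
(.nd (nat_lit 21) (.nd (nat_lit 23) (.nd (nat_lit 10) (.nd (nat_lit 27) 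
(.lf (nat_lit 537640962) (dlOf (nat_lit 2) (nat_lit 0x18d0258032fc0800d80080020002003c00080e0003))) 
(.lf (nat_lit 2819342338) (dlOf (nat_lit 1) (nat_lit 0x8008000400200020008250003)))) 
(.lf (nat_lit 2751710210) (dlOf (nat_lit 1) (nat_lit 0x20008002881)))) (.nd (nat_lit 9) 
(.lf (nat_lit 47431682) (dlOf (nat_lit 1) (nat_lit 0x8008000c002000200093f0003))) (.nd (nat_lit 10) 
(.lf (nat_lit 9683458) (dlOf (nat_lit 1) (nat_lit 0x10000400300018577f82))) 
(.lf (nat_lit 8640002) (dlOf (nat_lit 1) (nat_lit 0x3c002001c0008519c02)))))) (.nd (nat_lit 20) 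
(.nd (nat_lit 19) (.nd (nat_lit 22) 
(.lf (nat_lit 19120130) (dlOf (nat_lit 1) (nat_lit 0x23000200980008970002))) 
(.lf (nat_lit 14925826) (dlOf (nat_lit 1) (nat_lit 0x20018790001)))) 
(.lf (nat_lit 11255810) (dlOf (nat_lit 3) (nat_lit 0x3956c01a64040058ab6000000200020028680001)))) 
(.nd (nat_lit 9) (.lf (nat_lit 32751618) (dlOf (nat_lit 1) (nat_lit 0x100018f10001))) 
(.lf (nat_lit 41140738) (dlOf (nat_lit 1) (nat_lit 0x8008001800200060009227b03)))))) 
(.nd (nat_lit 8) (.nd (nat_lit 26) (.nd (nat_lit 20) 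
(.lf (nat_lit 2343042) (dlOf (nat_lit 1) (nat_lit 0x18008000c00200020008150103))) 
(.lf (nat_lit 9683074) (dlOf (nat_lit 1) (nat_lit 0x20018570e01)))) (.nd (nat_lit 9) 
(.lf (nat_lit 5436063874) (dlOf (nat_lit 1) (nat_lit 0x14002000c00080a2182))) 
(.lf (nat_lit 202100354) (dlOf (nat_lit 1) (nat_lit 0x4004000200080f7182))))) (.nd (nat_lit 11) 
(.nd (nat_lit 19) (.nd (nat_lit 20) 
(.lf (nat_lit 1677967746) (dlOf (nat_lit 2) (nat_lit 0x1803500252818125a80))) 
(.lf (nat_lit 1294722) (dlOf (nat_lit 1) (nat_lit 0x400280a5a81)))) 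
(.lf (nat_lit 8110466) (dlOf (nat_lit 1) (nat_lit 0x20008511001)))) (.nd (nat_lit 9) 
(.lf (nat_lit 3221478786) (dlOf (nat_lit 1) (nat_lit 0x2001811c901))) 
(.lf (nat_lit 20171650) (dlOf (nat_lit 1) (nat_lit 0x4002000200089d5c02))))))) (.nd (nat_lit 27) 
(.nd (nat_lit 7) (.nd (nat_lit 19) (.nd (nat_lit 10) (.nd (nat_lit 22) 
(.lf (nat_lit 4563648514) (dlOf (nat_lit 1) (nat_lit 0xc004000600180b0002))) 
(.lf (nat_lit 3494100994) (dlOf (nat_lit 3) (nat_lit 0xc03d8069000800881ec033b6040030004000200081b0002)))) 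
(.lf (nat_lit 1346618370) (dlOf (nat_lit 1) (nat_lit 0x20008fe2881)))) (.nd (nat_lit 20) 
(.lf (nat_lit 1410056194) (dlOf (nat_lit 2) (nat_lit 0x18d025801c540800d80080020002003c00080e0003))) 
(.lf (nat_lit 1343995906) (dlOf (nat_lit 1) (nat_lit 0x4c004000200183a0002))))) (.nd (nat_lit 8) 
(.lf (nat_lit 1879294082) (dlOf (nat_lit 1) (nat_lit 0x4002000200080c0102))) (.nd (nat_lit 9) 
(.lf (nat_lit 805552514) (dlOf (nat_lit 2) (nat_lit 0x180350051d018125a80))) 
(.lf (nat_lit 3493054338) (dlOf (nat_lit 1) (nat_lit 0x8004000200080f4182)))))) (.nd (nat_lit 26) 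
(.nd (nat_lit 30) (.lf (nat_lit 4697866242) (dlOf (nat_lit 1) (nat_lit 0xc004000600180b0002))) 
(.lf (nat_lit 1476640770) (dlOf (nat_lit 1) (nat_lit 0x2600180c0001)))) (.nd (nat_lit 29) 
(.nd (nat_lit 19) 
(.lf (nat_lit 3691233282) (dlOf (nat_lit 1) (nat_lit 0x80080004002000200080c0003))) 
(.lf (nat_lit 471580674) (dlOf (nat_lit 1) (nat_lit 0x20008003400200020008340003)))) 
(.nd (nat_lit 7) 
(.lf (nat_lit 1008976130) (dlOf (nat_lit 2) (nat_lit 0xa0318008017c002ca08001000400280019000a82))) 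
(.lf (nat_lit 1006878850) (dlOf (nat_lit 1) (nat_lit 0x4002000200080c0102)))))))) (.nd (nat_lit 27) 
(.nd (nat_lit 22) (.nd (nat_lit 21) (.nd (nat_lit 23) (.nd (nat_lit 26) (.nd (nat_lit 28) 
(.lf (nat_lit 1611120642) (dlOf (nat_lit 1) (nat_lit 0x7800080e0001))) 
(.lf (nat_lit 1342685186) (dlOf (nat_lit 2) (nat_lit 0x27844c00441a30065f8280c0000)))) 
(.lf (nat_lit 3288842242) (dlOf (nat_lit 1) (nat_lit 0x200281b0001)))) (.nd (nat_lit 7) 
(.lf (nat_lit 42450946) (dlOf (nat_lit 1) (nat_lit 0x400400020009250002))) 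
(.lf (nat_lit 8898434) (dlOf (nat_lit 1) (nat_lit 0xc00400020008514182))))) (.nd (nat_lit 20) 
(.nd (nat_lit 10) 
(.lf (nat_lit 10993666) (dlOf (nat_lit 2) (nat_lit 0x51f340000004005c00400200018650002))) 
(.lf (nat_lit 1344783362) (dlOf (nat_lit 1) (nat_lit 0x1c00400060008982882)))) (.nd (nat_lit 9) 
(.lf (nat_lit 3653634) (dlOf (nat_lit 1) (nat_lit 0x320028210001))) 
(.lf (nat_lit 1345831426) (dlOf (nat_lit 3) (nat_lit 0x12115000308a000580100060454001c604017c00400060018e07b02)))))) 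
(.nd (nat_lit 19) (.nd (nat_lit 24) (.nd (nat_lit 26) 
(.lf (nat_lit 3494363138) (dlOf (nat_lit 1) (nat_lit 0x400400020018210002))) 
(.lf (nat_lit 2756165634) (dlOf (nat_lit 1) (nat_lit 0x400400020018210002)))) 
(.lf (nat_lit 55033858) (dlOf (nat_lit 1) (nat_lit 0x7700080008002004c0009690003)))) 
(.nd (nat_lit 8) (.nd (nat_lit 20) (.nd (nat_lit 23) 
(.lf (nat_lit 22003714) (dlOf (nat_lit 1) (nat_lit 0x400200020008a90002))) 
(.lf (nat_lit 47169538) (dlOf (nat_lit 1) (nat_lit 0x1600293b0001)))) 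
(.lf (nat_lit 14663682) (dlOf (nat_lit 1) (nat_lit 0x20008001800200020008770003)))) 
(.nd (nat_lit 7) (.lf (nat_lit 16761090) (dlOf (nat_lit 1) (nat_lit 0x9600188e0701))) 
(.lf (nat_lit 8373634) (dlOf (nat_lit 1) (nat_lit 0x800400bc0018513582))))))) (.nd (nat_lit 26) 
(.nd (nat_lit 30) (.nd (nat_lit 7) 
(.lf (nat_lit 2819080194) (dlOf (nat_lit 1) (nat_lit 0x11800800d400200720008190003))) 
(.lf (nat_lit 134725762) (dlOf (nat_lit 1) (nat_lit 0x28008004000200220008090103)))) 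
(.nd (nat_lit 8) 
(.lf (nat_lit 3892822018) (dlOf (nat_lit 2) (nat_lit 0x10000014da04000c004001c0008280002))) 
(.lf (nat_lit 3892822274) (dlOf (nat_lit 2) (nat_lit 0x1600700512018280700))))) (.nd (nat_lit 28) 
(.nd (nat_lit 7) (.lf (nat_lit 738705410) (dlOf (nat_lit 1) (nat_lit 0x7800080e0001))) 
(.lf (nat_lit 201834626) (dlOf (nat_lit 1) (nat_lit 0x28008004000200220008090103)))) 
(.nd (nat_lit 8) (.nd (nat_lit 19) 
(.lf (nat_lit 3154624514) (dlOf (nat_lit 1) (nat_lit 0x200182d0001))) 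
(.lf (nat_lit 473939970) (dlOf (nat_lit 1) (nat_lit 0x4c004002c0008fc0002)))) 
(.lf (nat_lit 470270210) (dlOf (nat_lit 4) (nat_lit 0x82226003f0f90001f0100188898000f604004844c0007a02003800080c0481)))))))) 
(.nd (nat_lit 28) (.nd (nat_lit 18) (.nd (nat_lit 27) (.nd (nat_lit 21) (.nd (nat_lit 7) 
(.nd (nat_lit 8) 
(.lf (nat_lit 10207298) (dlOf (nat_lit 3) (nat_lit 0x81688000f00801389ac00072040010002000800085c0e02))) 
(.lf (nat_lit 1294658) (dlOf (nat_lit 1) (nat_lit 0xc00280a4c01)))) (.nd (nat_lit 10) 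
(.lf (nat_lit 9158850) (dlOf (nat_lit 1) (nat_lit 0x8008000400200020008523903))) 
(.lf (nat_lit 58967234) (dlOf (nat_lit 1) (nat_lit 0xd4004001600197e2d02))))) (.nd (nat_lit 11) 
(.nd (nat_lit 8) 
(.lf (nat_lit 2754330690) (dlOf (nat_lit 2) (nat_lit 0x2c1fd000e0f38000881000680080010002005000080d0c03))) 
(.lf (nat_lit 19650370) (dlOf (nat_lit 1) (nat_lit 0x200289da101)))) (.nd (nat_lit 7) 
(.lf (nat_lit 45337154) (dlOf (nat_lit 1) (nat_lit 0x1e0009325201))) 
(.lf (nat_lit 19651266) (dlOf (nat_lit 1) (nat_lit 0x200189db981)))))) (.nd (nat_lit 12) 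
(.nd (nat_lit 8) (.nd (nat_lit 26) 
(.lf (nat_lit 134463554) (dlOf (nat_lit 2) (nat_lit 0x4603800000018030e00))) 
(.lf (nat_lit 201572418) (dlOf (nat_lit 2) (nat_lit 0x4603800000018030e00)))) (.nd (nat_lit 11) 
(.lf (nat_lit 671334722) (dlOf (nat_lit 2) (nat_lit 0x1801b0021c018154c00))) 
(.lf (nat_lit 2885929282) (dlOf (nat_lit 1) (nat_lit 0x78008002800200180008144d03))))) 
(.nd (nat_lit 9) (.nd (nat_lit 7) 
(.lf (nat_lit 2818823490) (dlOf (nat_lit 1) (nat_lit 0x20018129901))) 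
(.lf (nat_lit 2818823618) (dlOf (nat_lit 3) (nat_lit 0xc00400012010001002000080080008008000800200020008129a03)))) 
(.nd (nat_lit 8) (.lf (nat_lit 2818824898) (dlOf (nat_lit 1) (nat_lit 0x580040020000812b982))) 
(.lf (nat_lit 202103746) (dlOf (nat_lit 1) (nat_lit 0x600180fbe01))))))) (.nd (nat_lit 24) 
(.nd (nat_lit 21) (.nd (nat_lit 8) (.nd (nat_lit 19) 
(.lf (nat_lit 1678229570) (dlOf (nat_lit 3) (nat_lit 0xb204f000188100050070000a80800b80080068002003400081b0d03))) 
(.lf (nat_lit 68141122) (dlOf (nat_lit 1) (nat_lit 0x20018400581)))) 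
(.lf (nat_lit 4362584386) (dlOf (nat_lit 2) (nat_lit 0x25a05a0141028809d8104000560c0110004003a0018090602)))) 
(.nd (nat_lit 8) (.nd (nat_lit 20) 
(.lf (nat_lit 2605122) (dlOf (nat_lit 3) (nat_lit 0x20e88000300800207440001604000800200040008170d02))) 
(.lf (nat_lit 3653698) (dlOf (nat_lit 1) (nat_lit 0x2c00200040008210e02)))) 
(.lf (nat_lit 2755641666) (dlOf (nat_lit 3) (nat_lit 0x2066007d01f80013c1000b813000054040014002000400081b0602))))) 
(.nd (nat_lit 9) (.nd (nat_lit 7) 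
(.lf (nat_lit 61325378) (dlOf (nat_lit 1) (nat_lit 0x60019920001))) (.nd (nat_lit 20) 
(.lf (nat_lit 59229378) (dlOf (nat_lit 1) (nat_lit 0x1800297e2d01))) 
(.lf (nat_lit 33014978) (dlOf (nat_lit 1) (nat_lit 0x400400020008f52d02))))) (.nd (nat_lit 8) 
(.lf (nat_lit 32492098) (dlOf (nat_lit 2) (nat_lit 0x2b5d80017c0800300080028002000a0008ef5203))) 
(.nd (nat_lit 10) (.lf (nat_lit 19909442) (dlOf (nat_lit 1) (nat_lit 0x4002000200089d5c02))) 
(.lf (nat_lit 19912514) (dlOf (nat_lit 1) (nat_lit 0x14002001000089da102)))))))) (.nd (nat_lit 8) 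
(.nd (nat_lit 9) (.nd (nat_lit 26) (.nd (nat_lit 21) (.nd (nat_lit 18) 
(.lf (nat_lit 1342423106) (dlOf (nat_lit 2) (nat_lit 0x41bd00003018020780))) 
(.lf (nat_lit 5637652546) (dlOf (nat_lit 1) (nat_lit 0x400200020008140d82)))) (.nd (nat_lit 7) 
(.lf (nat_lit 3492528194) (dlOf (nat_lit 2) (nat_lit 0x2c1eb000e0e90000881000680080010002005000080d0c03))) 
(.lf (nat_lit 3493054658) (dlOf (nat_lit 1) (nat_lit 0xa00080f4981))))) (.nd (nat_lit 7) 
(.nd (nat_lit 18) (.lf (nat_lit 470007874) (dlOf (nat_lit 2) (nat_lit 0x41bd00003018020780))) 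
(.lf (nat_lit 6241632322) (dlOf (nat_lit 1) (nat_lit 0x400200020008140d82)))) 
(.lf (nat_lit 3020144834) (dlOf (nat_lit 1) (nat_lit 0x20018130401))))) (.nd (nat_lit 21) 
(.nd (nat_lit 11) 
(.lf (nat_lit 805552706) (dlOf (nat_lit 4) (nat_lit 0x9402600de00a005520200170098026c008018804c0135c04003400400020008128502))) 
(.nd (nat_lit 19) 
(.lf (nat_lit 1880345154) (dlOf (nat_lit 1) (nat_lit 0x18008004000200040008865203))) 
(.lf (nat_lit 1880869442) (dlOf (nat_lit 1) (nat_lit 0xa0018c35201))))) (.nd (nat_lit 26) 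
(.lf (nat_lit 1345571394) (dlOf (nat_lit 1) (nat_lit 0x400400020008d75202))) 
(.lf (nat_lit 473156162) (dlOf (nat_lit 2) (nat_lit 0x203340005a04000800400040018d75202)))))) 
(.nd (nat_lit 18) (.nd (nat_lit 26) (.nd (nat_lit 20) 
(.lf (nat_lit 1879294274) (dlOf (nat_lit 1) (nat_lit 0x4004000200080c0602))) 
(.lf (nat_lit 3490955586) (dlOf (nat_lit 1) (nat_lit 0x400200020008047f02)))) (.nd (nat_lit 9) 
(.nd (nat_lit 29) (.lf (nat_lit 1543749954) (dlOf (nat_lit 2) (nat_lit 0x18019004e7818154c00))) 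
(.lf (nat_lit 1006879042) (dlOf (nat_lit 1) (nat_lit 0x4004000200080c0602)))) 
(.lf (nat_lit 3557021506) (dlOf (nat_lit 1) (nat_lit 0x59800807f40020110000812a103))))) 
(.nd (nat_lit 7) (.nd (nat_lit 19) 
(.lf (nat_lit 4228366658) (dlOf (nat_lit 2) (nat_lit 0x25a0530141025009d80e8000540c0110004003a0018090602))) 
(.lf (nat_lit 3493839170) (dlOf (nat_lit 2) (nat_lit 0x1520660002b0181b0600)))) (.nd (nat_lit 26) 
(.lf (nat_lit 1342685634) (dlOf (nat_lit 6) (nat_lit 0x24c1280004e0201140940002681003904a00010c080020250000840403641280003e02001e00080c0901))) 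
(.lf (nat_lit 470270402) (dlOf (nat_lit 6) (nat_lit 0x24c1280004e0201140940002681003904a00010c080020250000840403641280003e02001e00080c0901))))))))) 
(.nd (nat_lit 28) (.nd (nat_lit 19) (.nd (nat_lit 7) (.nd (nat_lit 23) (.nd (nat_lit 6) 
(.nd (nat_lit 27) (.nd (nat_lit 10) (.nd (nat_lit 21) 
(.lf (nat_lit 1141096458) (dlOf (nat_lit 1) (nat_lit 0x4002000200080d0002))) 
(.lf (nat_lit 56868874) (dlOf (nat_lit 2) (nat_lit 0x224e00010fc803b0a08000400200160009770002)))) 
(.lf (nat_lit 2751710218) (dlOf (nat_lit 1) (nat_lit 0x20008002881)))) (.nd (nat_lit 9) 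
(.nd (nat_lit 18) (.lf (nat_lit 3355688970) (dlOf (nat_lit 1) (nat_lit 0x28002000200080c0282))) 
(.lf (nat_lit 2819080202) (dlOf (nat_lit 22) (nat_lit 0x9800000d0c0400a40f002e407200e3037803301a802100bc005005b005802581bb010803ac07e00c203c00e401b00ab80d000c803006a40f0054c0720210037801001b807040d401a006101b502f00a9016c06700961ea80420053020010100fc0628078001a03b001d01b80c180d800d006a04e4034012901600c700a80688044049a01b001100d0018fcb802f01e005940e401a606f00da0350015018402740bc006e05b007f025870c8108004c080027003f008501e01c200d80608068011a02c01810110092806c00c784401f80f00450072009c0350056817802a4096099c042018e01f800a00d802000680063912019c078020703900ba81bc024c0d4020205e009702d8073012c318c084029a03f00cf01e00af00d807ac068000402c00110110061806c00c6c3c03140f0035e072012d037803581a800d80c2019a05e00e8025874b8108043007e004e036016801a00c9806c00c6630024c0e4000206a004001f8018a4180e481c802480d4021a03f00314030099039000a80fc057c06c0062506042e072009303500d800fc00c440c05b00e4006c06f005f035008200fc050806c00c00340030d860237039003301a804f007e0061806001c0720030901000701f801840080e501c801c40d401a803f002dc8300650350016c00803281c802240d401a603f002d503007c0350016800804c81c802340d400d803f002c303001d0350015d4080b60008001000201440008190283))))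 
(.lf (nat_lit 2281952778) (dlOf (nat_lit 1) (nat_lit 0x9600180a9c01))))) (.nd (nat_lit 8) 
(.nd (nat_lit 9) (.lf (nat_lit 1141096522) (dlOf (nat_lit 1) (nat_lit 0x4004005600180d0502))) 
(.lf (nat_lit 671334986) (dlOf (nat_lit 2) (nat_lit 0x600500035818158d00)))) (.nd (nat_lit 9) 
(.lf (nat_lit 1677967690) (dlOf (nat_lit 3) (nat_lit 0x302b0015004c014860800040ac00a420200020028124c01))) 
(.lf (nat_lit 20171594) (dlOf (nat_lit 1) (nat_lit 0x4002000200089d5c02)))))) (.nd (nat_lit 18) 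
(.nd (nat_lit 6) (.nd (nat_lit 20) 
(.lf (nat_lit 10731530) (dlOf (nat_lit 2) (nat_lit 0x223f80003a4080058008001c00200120008620483))) 
(.lf (nat_lit 26460170) (dlOf (nat_lit 1) (nat_lit 0x18008000400200020008c50003)))) 
(.nd (nat_lit 9) (.lf (nat_lit 63160394) (dlOf (nat_lit 1) (nat_lit 0xc004000a00099e0602))) 
(.lf (nat_lit 9683530) (dlOf (nat_lit 3) (nat_lit 0x701c0003902000277e0000f018578d00))))) 
(.nd (nat_lit 20) (.lf (nat_lit 48742410) (dlOf (nat_lit 1) (nat_lit 0xc0029420001))) 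
(.nd (nat_lit 21) (.lf (nat_lit 9945098) (dlOf (nat_lit 1) (nat_lit 0x8008000400200020008590083))) 
(.lf (nat_lit 45596682) (dlOf (nat_lit 1) (nat_lit 0x28008000400200020009340003))))))) 
(.nd (nat_lit 26) (.nd (nat_lit 8) (.nd (nat_lit 9) (.nd (nat_lit 18) 
(.lf (nat_lit 6576914570) (dlOf (nat_lit 1) (nat_lit 0x2400181a3d01))) 
(.lf (nat_lit 134725770) (dlOf (nat_lit 3) (nat_lit 0x580ec0008c04002c076000360200020018090101)))) 
(.lf (nat_lit 61326986) (dlOf (nat_lit 1) (nat_lit 0x1000400300019923a02)))) (.nd (nat_lit 11) 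
(.lf (nat_lit 1610858890) (dlOf (nat_lit 1) (nat_lit 0xc00200020008091002))) (.nd (nat_lit 20) 
(.lf (nat_lit 2147731850) (dlOf (nat_lit 1) (nat_lit 0x200180e4e81))) 
(.lf (nat_lit 36948362) (dlOf (nat_lit 1) (nat_lit 0x8008000800200060009074e83)))))) 
(.nd (nat_lit 29) (.nd (nat_lit 18) (.nd (nat_lit 27) 
(.lf (nat_lit 5436063882) (dlOf (nat_lit 1) (nat_lit 0x200180a2501))) 
(.lf (nat_lit 2349056138) (dlOf (nat_lit 1) (nat_lit 0x10008000400200040008090103)))) 
(.lf (nat_lit 201834634) (dlOf (nat_lit 3) (nat_lit 0x580ec0008c04002c076000360200020018090101)))) 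
(.nd (nat_lit 6) (.lf (nat_lit 5972934794) (dlOf (nat_lit 1) (nat_lit 0x2400181a3d01))) 
(.nd (nat_lit 8) (.lf (nat_lit 2885928650) (dlOf (nat_lit 1) (nat_lit 0x1a0028143a81))) 
(.lf (nat_lit 2885928906) (dlOf (nat_lit 2) (nat_lit 0x200f800022040028002000c0008144482)))))))) 
(.nd (nat_lit 20) (.nd (nat_lit 6) (.nd (nat_lit 18) (.nd (nat_lit 7) 
(.lf (nat_lit 537640970) (dlOf (nat_lit 2) (nat_lit 0xde04b006590180e0000))) 
(.lf (nat_lit 23838858) (dlOf (nat_lit 1) (nat_lit 0x40008b80101)))) (.nd (nat_lit 21) 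
(.lf (nat_lit 9420810) (dlOf (nat_lit 1) (nat_lit 0x8008000400200020008550483))) 
(.lf (nat_lit 11517962) (dlOf (nat_lit 1) (nat_lit 0x200186b0001))))) (.nd (nat_lit 7) 
(.lf (nat_lit 30130250) (dlOf (nat_lit 1) (nat_lit 0xc00200020008e30102))) (.nd (nat_lit 9) 
(.lf (nat_lit 19909834) (dlOf (nat_lit 1) (nat_lit 0x1b00080060002001e00089d6383))) 
(.lf (nat_lit 19911370) (dlOf (nat_lit 1) (nat_lit 0xa0008004c002002800089d8c83)))))) 
(.nd (nat_lit 21) (.nd (nat_lit 18) (.nd (nat_lit 22) 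
(.lf (nat_lit 18595850) (dlOf (nat_lit 1) (nat_lit 0x1ec00200200008950282))) 
(.lf (nat_lit 31178762) (dlOf (nat_lit 2) (nat_lit 0x2ead68052780800b0008004000200240008e70003)))) 
(.nd (nat_lit 22) (.lf (nat_lit 10469386) (dlOf (nat_lit 1) (nat_lit 0x4004000600085e0582))) 
(.lf (nat_lit 14663690) (dlOf (nat_lit 1) (nat_lit 0x400200020008770002))))) (.nd (nat_lit 6) 
(.nd (nat_lit 8) (.nd (nat_lit 23) 
(.lf (nat_lit 2755379210) (dlOf (nat_lit 1) (nat_lit 0xe400400600008170482))) 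
(.lf (nat_lit 29081610) (dlOf (nat_lit 1) (nat_lit 0x20008001400200020008dc0583)))) 
(.lf (nat_lit 8112394) (dlOf (nat_lit 1) (nat_lit 0x20018514b81)))) (.nd (nat_lit 8) 
(.lf (nat_lit 8112202) (dlOf (nat_lit 1) (nat_lit 0x280028514701))) 
(.lf (nat_lit 8114506) (dlOf (nat_lit 1) (nat_lit 0x15000400020018518282)))))))) (.nd (nat_lit 6) 
(.nd (nat_lit 19) (.nd (nat_lit 7) (.nd (nat_lit 18) (.nd (nat_lit 20) 
(.lf (nat_lit 2013511690) (dlOf (nat_lit 1) (nat_lit 0x4002000200080d0002))) (.nd (nat_lit 26) 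
(.lf (nat_lit 1343471626) (dlOf (nat_lit 1) (nat_lit 0x540008260281))) 
(.lf (nat_lit 471056394) (dlOf (nat_lit 1) (nat_lit 0x8008000800200040008260283))))) 
(.nd (nat_lit 8) (.nd (nat_lit 9) 
(.lf (nat_lit 3154624522) (dlOf (nat_lit 1) (nat_lit 0xc00182d0001))) 
(.lf (nat_lit 1342685706) (dlOf (nat_lit 1) (nat_lit 0x200280c0d81)))) 
(.lf (nat_lit 1342685450) (dlOf (nat_lit 3) (nat_lit 0x388898000fc04008444c0007902000c00080c0481))))) 
(.nd (nat_lit 26) (.nd (nat_lit 11) 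
(.lf (nat_lit 5772657034) (dlOf (nat_lit 1) (nat_lit 0x400200020008091002))) 
(.lf (nat_lit 3490171274) (dlOf (nat_lit 1) (nat_lit 0x800200020008004e82)))) (.nd (nat_lit 8) 
(.lf (nat_lit 2483273866) (dlOf (nat_lit 1) (nat_lit 0x10008000400200040008090103))) 
(.lf (nat_lit 872661386) (dlOf (nat_lit 3) (nat_lit 0x100e4007c0360009c040008039002200d800234100050008014400200040008091003)))))) 
(.nd (nat_lit 20) (.nd (nat_lit 26) (.nd (nat_lit 9) 
(.lf (nat_lit 1342947338) (dlOf (nat_lit 1) (nat_lit 0x20028110581))) 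
(.lf (nat_lit 3492796938) (dlOf (nat_lit 1) (nat_lit 0x380080004002000200080fb283)))) 
(.nd (nat_lit 27) (.lf (nat_lit 1410056202) (dlOf (nat_lit 2) (nat_lit 0xde04b003828180e0000))) 
(.lf (nat_lit 470532106) (dlOf (nat_lit 1) (nat_lit 0x20028110581))))) (.nd (nat_lit 26) 
(.nd (nat_lit 31) (.lf (nat_lit 1346093066) (dlOf (nat_lit 1) (nat_lit 0xa0018e30001))) 
(.lf (nat_lit 3493576714) (dlOf (nat_lit 1) (nat_lit 0xe400400600008170482)))) (.nd (nat_lit 18) 
(.lf (nat_lit 471580682) (dlOf (nat_lit 1) (nat_lit 0x6c00400060008340282))) 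
(.lf (nat_lit 473939978) (dlOf (nat_lit 9) (nat_lit 0xbc2b00086002003a158003b0678020ac100060560008c19e00829040038158002a0678020a01001d0560008019e0082204000a0cf0040701002d0ac0030033c00ffa0800042b000060cf003fc828fc0000))))))) 
(.nd (nat_lit 27) (.nd (nat_lit 7) (.nd (nat_lit 20) (.nd (nat_lit 8) 
(.lf (nat_lit 4563648586) (dlOf (nat_lit 4) (nat_lit 0x5000c802a002a00fa01200019830056019000180c0014002a015e01200019040096019000080ac004c03e016e01500bd0090000c42804580080038002005c00080b0603))) 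
(.lf (nat_lit 805552458) (dlOf (nat_lit 3) (nat_lit 0x302b0015004c0095c0800040ac004ad0200020028124c01)))) 
(.nd (nat_lit 18) (.lf (nat_lit 4095459402) (dlOf (nat_lit 1) (nat_lit 0x4004000200080c1482))) 
(.lf (nat_lit 4095197258) (dlOf (nat_lit 1) (nat_lit 0x400200020008070602))))) (.nd (nat_lit 8) 
(.nd (nat_lit 10) (.lf (nat_lit 3020144842) (dlOf (nat_lit 1) (nat_lit 0x400200020008130482))) 
(.lf (nat_lit 3489909962) (dlOf (nat_lit 1) (nat_lit 0x800400020008006382)))) 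
(.lf (nat_lit 3492791242) (dlOf (nat_lit 1) (nat_lit 0x4004000200080f2882))))) (.nd (nat_lit 30) 
(.nd (nat_lit 18) (.nd (nat_lit 7) 
(.lf (nat_lit 4697866314) (dlOf (nat_lit 4) (nat_lit 0x5000c802a002a00fa01200019030056019000180c0014002a015e01200018840096019000080ac004c03e016e01500bd0090000c02804580080038002005c00080b0603))) 
(.lf (nat_lit 5234737354) (dlOf (nat_lit 1) (nat_lit 0x200280d0881)))) (.nd (nat_lit 19) 
(.lf (nat_lit 1009238090) (dlOf (nat_lit 2) (nat_lit 0x120e3000f03b00050c1000600080038002001000090a0603))) 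
(.lf (nat_lit 1007665226) (dlOf (nat_lit 1) (nat_lit 0x200186b0101))))) (.nd (nat_lit 8) 
(.nd (nat_lit 7) (.lf (nat_lit 2013511754) (dlOf (nat_lit 1) (nat_lit 0x4004005600180d0502))) 
(.lf (nat_lit 5772657866) (dlOf (nat_lit 1) (nat_lit 0x160028092d81)))) (.nd (nat_lit 10) 
(.lf (nat_lit 6376112458) (dlOf (nat_lit 1) (nat_lit 0xa0018090c81))) 
(.lf (nat_lit 3624127818) (dlOf (nat_lit 3) (nat_lit 0x600f80008020000a0000000883001f01f001000dc0074062003a0150020008000040280120008006800200020008146983))))))))))) 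
(.nd (nat_lit 3) (.nd (nat_lit 16) (.nd (nat_lit 7) (.nd (nat_lit 18) (.nd (nat_lit 19) 
(.nd (nat_lit 6) (.nd (nat_lit 8) (.nd (nat_lit 20) (.nd (nat_lit 11) (.nd (nat_lit 31) 
(.lf (nat_lit 1476575266) (dlOf (nat_lit 2) (nat_lit 0x58086003e02c0016009000b002800640000001c0a00580028060601))) 
(.lf (nat_lit 3624058914) (dlOf (nat_lit 2) (nat_lit 0xd8028004200500bf10280b0000)))) 
(.lf (nat_lit 186402) (dlOf (nat_lit 1) (nat_lit 0x2001800a601)))) (.nd (nat_lit 22) 
(.lf (nat_lit 26394658) (dlOf (nat_lit 2) (nat_lit 0x36a680000e818c40600))) 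
(.lf (nat_lit 22200354) (dlOf (nat_lit 2) (nat_lit 0x9d5e000f4d20000a41000080080020002000c0008aa0c03))))) 
(.nd (nat_lit 26) (.nd (nat_lit 9) 
(.lf (nat_lit 939704610) (dlOf (nat_lit 1) (nat_lit 0x20018154301))) 
(.lf (nat_lit 3355628322) (dlOf (nat_lit 1) (nat_lit 0x1800280a8f81)))) (.nd (nat_lit 27) 
(.lf (nat_lit 5435998498) (dlOf (nat_lit 2) (nat_lit 0xa0088005a40800a00080060002006e0008090a83))) 
(.lf (nat_lit 738378018) (dlOf (nat_lit 7) (nat_lit 0x10130002ba040098098002a035000ac02000202600055c080098130002ac0400340980034035000678200020248002580805c0008029c00200480008090a83)))))) 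
(.nd (nat_lit 10) (.nd (nat_lit 11) (.nd (nat_lit 8) (.nd (nat_lit 20) 
(.lf (nat_lit 4630691938) (dlOf (nat_lit 1) (nat_lit 0xc0018071b01))) 
(.lf (nat_lit 28491874) (dlOf (nat_lit 1) (nat_lit 0x400400020008da0482)))) 
(.lf (nat_lit 2755838306) (dlOf (nat_lit 1) (nat_lit 0x4002000200081b0702)))) (.nd (nat_lit 9) 
(.nd (nat_lit 28) (.lf (nat_lit 3221408098) (dlOf (nat_lit 2) (nat_lit 0x1000000000018114e80))) 
(.lf (nat_lit 3489843554) (dlOf (nat_lit 1) (nat_lit 0x20018004e81)))) 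
(.lf (nat_lit 738380642) (dlOf (nat_lit 1) (nat_lit 0x5a0028095c01))))) (.nd (nat_lit 25) 
(.nd (nat_lit 8) (.nd (nat_lit 12) 
(.lf (nat_lit 1610794594) (dlOf (nat_lit 2) (nat_lit 0x1005a000502b80011c1003f00080074002006e0008093903))) 
(.lf (nat_lit 2684540514) (dlOf (nat_lit 1) (nat_lit 0x4004000200080a9c02)))) 
(.lf (nat_lit 805490018) (dlOf (nat_lit 1) (nat_lit 0x40018116a81)))) (.nd (nat_lit 20) 
(.nd (nat_lit 23) (.lf (nat_lit 35832930) (dlOf (nat_lit 1) (nat_lit 0x2a0019012981))) 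
(.lf (nat_lit 60998754) (dlOf (nat_lit 1) (nat_lit 0xd8004004800198c2982)))) 
(.lf (nat_lit 38978658) (dlOf (nat_lit 1) (nat_lit 0x400400060009192982))))))) (.nd (nat_lit 21) 
(.nd (nat_lit 26) (.nd (nat_lit 20) (.nd (nat_lit 6) (.nd (nat_lit 28) 
(.lf (nat_lit 134922274) (dlOf (nat_lit 1) (nat_lit 0xe4002005600080e0482))) 
(.lf (nat_lit 5772066850) (dlOf (nat_lit 1) (nat_lit 0x20028060b81)))) 
(.lf (nat_lit 38454370) (dlOf (nat_lit 1) (nat_lit 0x10008000c00200040009132983)))) 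
(.nd (nat_lit 9) (.lf (nat_lit 1343930402) (dlOf (nat_lit 1) (nat_lit 0x80018380d01))) 
(.lf (nat_lit 3491414562) (dlOf (nat_lit 3) (nat_lit 0x40f68008940800707a80000204000c002001e0008090d82))))) 
(.nd (nat_lit 29) (.nd (nat_lit 28) 
(.lf (nat_lit 202031138) (dlOf (nat_lit 1) (nat_lit 0xe4002005600080e0482))) 
(.lf (nat_lit 470466594) (dlOf (nat_lit 1) (nat_lit 0x20028100a81)))) (.nd (nat_lit 20) 
(.lf (nat_lit 6376046626) (dlOf (nat_lit 1) (nat_lit 0x20028060b81))) 
(.lf (nat_lit 4095393826) (dlOf (nat_lit 1) (nat_lit 0x2500080004002004800080a0803)))))) 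
(.nd (nat_lit 20) (.nd (nat_lit 30) (.nd (nat_lit 22) 
(.lf (nat_lit 472563746) (dlOf (nat_lit 1) (nat_lit 0xe00289c0181))) 
(.lf (nat_lit 15384610) (dlOf (nat_lit 2) (nat_lit 0x2302b5800f9230001a8080008004000a00087e0602)))) 
(.nd (nat_lit 6) 
(.lf (nat_lit 1344978978) (dlOf (nat_lit 4) (nat_lit 0xb8580005c138002808d001a03e801101f00004e1400242c0001209c000c03e800a81f00004c1000080fa001a07c00030180000481801b00080030002002600089a0183))) 
(.lf (nat_lit 1344979042) (dlOf (nat_lit 3) (nat_lit 0x680ab0005850c01ac19a00d4096006b042803601d401a40e60002d0e00f815600700a1800884ec02e019a00be0cb007904b0043821400341060106075007d0398000ac5003a80080020002000200089a0903))))) 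
(.nd (nat_lit 11) (.nd (nat_lit 8) 
(.lf (nat_lit 45793314) (dlOf (nat_lit 2) (nat_lit 0x541890001f019360180))) 
(.lf (nat_lit 8048930) (dlOf (nat_lit 1) (nat_lit 0x220028518081)))) (.nd (nat_lit 10) 
(.lf (nat_lit 8050978) (dlOf (nat_lit 1) (nat_lit 0x80040004000851ab82))) 
(.lf (nat_lit 8052002) (dlOf (nat_lit 1) (nat_lit 0x4000851c601)))))))) (.nd (nat_lit 28) 
(.nd (nat_lit 8) (.nd (nat_lit 23) (.nd (nat_lit 22) (.nd (nat_lit 9) 
(.lf (nat_lit 1074184226) (dlOf (nat_lit 1) (nat_lit 0x1000280d0901))) 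
(.lf (nat_lit 134660642) (dlOf (nat_lit 3) (nat_lit 0x4a02f0010381001001e8000040800f8008003c00200260008090d83)))) 
(.nd (nat_lit 19) (.lf (nat_lit 56016930) (dlOf (nat_lit 1) (nat_lit 0x400200020009710182))) 
(.lf (nat_lit 5160994) (dlOf (nat_lit 1) (nat_lit 0x380080018002000a0008320603))))) 
(.nd (nat_lit 21) (.nd (nat_lit 12) 
(.lf (nat_lit 47628322) (dlOf (nat_lit 1) (nat_lit 0x400200020009400002))) 
(.lf (nat_lit 8835106) (dlOf (nat_lit 1) (nat_lit 0x460008517b01)))) (.nd (nat_lit 25) 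
(.lf (nat_lit 15122466) (dlOf (nat_lit 1) (nat_lit 0x8004000200087c0602))) 
(.lf (nat_lit 48676898) (dlOf (nat_lit 2) (nat_lit 0x381f000220500001f029420180)))))) 
(.nd (nat_lit 6) (.nd (nat_lit 21) (.nd (nat_lit 19) 
(.lf (nat_lit 1678164258) (dlOf (nat_lit 2) (nat_lit 0x203b000230181a0500))) 
(.lf (nat_lit 30327074) (dlOf (nat_lit 1) (nat_lit 0x260018e30701)))) (.nd (nat_lit 9) 
(.lf (nat_lit 8312098) (dlOf (nat_lit 1) (nat_lit 0x580008519781))) 
(.lf (nat_lit 19843874) (dlOf (nat_lit 1) (nat_lit 0x80080004002000200089d5c03))))) 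
(.nd (nat_lit 11) (.nd (nat_lit 19) 
(.lf (nat_lit 23511394) (dlOf (nat_lit 1) (nat_lit 0x8008000400200020008b80703))) 
(.lf (nat_lit 537837922) (dlOf (nat_lit 2) (nat_lit 0x2819800068040004004001600081b0702)))) 
(.lf (nat_lit 57067874) (dlOf (nat_lit 1) (nat_lit 0xc00400040019794e82)))))) (.nd (nat_lit 19) 
(.nd (nat_lit 26) (.nd (nat_lit 8) (.nd (nat_lit 21) 
(.lf (nat_lit 1346813986) (dlOf (nat_lit 5) (nat_lit 0x21430002b01000a0a180015408003050c000a804001c10a000510200040019020181))) 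
(.lf (nat_lit 3492200482) (dlOf (nat_lit 1) (nat_lit 0x100080008002000400080b0b03)))) 
(.lf (nat_lit 805749026) (dlOf (nat_lit 2) (nat_lit 0x203b000248181a0500)))) (.nd (nat_lit 29) 
(.nd (nat_lit 9) 
(.lf (nat_lit 3557212194) (dlOf (nat_lit 1) (nat_lit 0x780080018002001a0008170183))) 
(.lf (nat_lit 1409729058) (dlOf (nat_lit 1) (nat_lit 0x18004000e0018090d82)))) (.nd (nat_lit 6) 
(.lf (nat_lit 1946599458) (dlOf (nat_lit 1) (nat_lit 0x1000280d0901))) 
(.lf (nat_lit 1008125026) (dlOf (nat_lit 1) (nat_lit 0x200189e2981)))))) (.nd (nat_lit 21) 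
(.nd (nat_lit 6) 
(.lf (nat_lit 1410252834) (dlOf (nat_lit 2) (nat_lit 0x401c002fc4040088002004600081b0002))) 
(.lf (nat_lit 1410253154) (dlOf (nat_lit 2) (nat_lit 0xb2077004c0330000d01000700080164002003800081b0703)))) 
(.nd (nat_lit 9) 
(.lf (nat_lit 4096704546) (dlOf (nat_lit 1) (nat_lit 0x800800c8002003c0008160483))) 
(.lf (nat_lit 3493773858) (dlOf (nat_lit 2) (nat_lit 0x100cc0007302000200181b0d81)))))))) 
(.nd (nat_lit 6) (.nd (nat_lit 18) (.nd (nat_lit 20) (.nd (nat_lit 8) (.nd (nat_lit 9) 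
(.nd (nat_lit 11) 
(.lf (nat_lit 474136738) (dlOf (nat_lit 6) (nat_lit 0x3824800340fe0004a040012092001e03f80010c10008824800140fe000410400320000001f810006049000601fc00076080074002002600090e0582))) 
(.lf (nat_lit 3758282914) (dlOf (nat_lit 1) (nat_lit 0x2001812a881)))) 
(.lf (nat_lit 8570530) (dlOf (nat_lit 1) (nat_lit 0x1400200140008513a82)))) (.nd (nat_lit 9) 
(.nd (nat_lit 11) (.lf (nat_lit 2483208610) (dlOf (nat_lit 1) (nat_lit 0x20028090781))) 
(.lf (nat_lit 738380194) (dlOf (nat_lit 1) (nat_lit 0xc0028094e81)))) (.nd (nat_lit 11) 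
(.lf (nat_lit 2684539810) (dlOf (nat_lit 1) (nat_lit 0x80080004002000200080a9103))) 
(.lf (nat_lit 738380706) (dlOf (nat_lit 1) (nat_lit 0x110008008000200460008095c83)))))) 
(.nd (nat_lit 8) (.nd (nat_lit 9) 
(.lf (nat_lit 60473506) (dlOf (nat_lit 3) (nat_lit 0x4a8f00002604002948c000100200100029871401))) 
(.lf (nat_lit 20108962) (dlOf (nat_lit 1) (nat_lit 0x2600189d9f81)))) (.nd (nat_lit 22) 
(.nd (nat_lit 11) 
(.lf (nat_lit 3491414434) (dlOf (nat_lit 6) (nat_lit 0xc01e3003a20100140fd0032878c00e860801583c60073a0200761e30039c8100390f3001bf4080110008013000200920008090783))) 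
(.lf (nat_lit 37407138) (dlOf (nat_lit 1) (nat_lit 0xe00090d4e81)))) (.nd (nat_lit 10) 
(.lf (nat_lit 8049058) (dlOf (nat_lit 1) (nat_lit 0x8008001400200060008518383))) 
(.lf (nat_lit 8045986) (dlOf (nat_lit 1) (nat_lit 0x400200020008513602))))))) (.nd (nat_lit 28) 
(.nd (nat_lit 19) (.nd (nat_lit 22) (.nd (nat_lit 27) 
(.lf (nat_lit 3221668258) (dlOf (nat_lit 2) (nat_lit 0x803800dfa04003c00400280008170782))) 
(.lf (nat_lit 134660514) (dlOf (nat_lit 6) (nat_lit 0x1300ec005c06c002a017003a203003101d801780d801bc02e0074306000c017003a001001a01d800c00d8007802e0073a06000203b000600b801ce4100268008001c002004a0008090783)))) 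
(.lf (nat_lit 21414306) (dlOf (nat_lit 1) (nat_lit 0x40018a36b81)))) 
(.lf (nat_lit 43958690) (dlOf (nat_lit 1) (nat_lit 0x4002000200092a1002)))) (.nd (nat_lit 8) 
(.nd (nat_lit 9) (.nd (nat_lit 10) 
(.lf (nat_lit 5773377698) (dlOf (nat_lit 1) (nat_lit 0x200280c1381))) 
(.lf (nat_lit 1344717986) (dlOf (nat_lit 2) (nat_lit 0x40a68001e4080020008004c00200060008982b83)))) 
(.lf (nat_lit 1344719522) (dlOf (nat_lit 2) (nat_lit 0x405e8000e00800b00080004002000a0008985603)))) 
(.nd (nat_lit 19) (.nd (nat_lit 26) 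
(.lf (nat_lit 805749154) (dlOf (nat_lit 11) (nat_lit 0x190154011500400a40aa00560120045382002302a802800480114a0801340140089002008c00a0044481003e02b0021d0080298158010e60400700aa00a004a00500090020401802901580198026007ff04027a0420017007001bf41001480080030002004000081a0783))) 
(.lf (nat_lit 1409728930) (dlOf (nat_lit 3) (nat_lit 0xb0060007440200240300039d018090780)))) 
(.lf (nat_lit 3490628002) (dlOf (nat_lit 1) (nat_lit 0x400200020008016b82))))))) (.nd (nat_lit 8) 
(.nd (nat_lit 18) (.nd (nat_lit 10) (.nd (nat_lit 19) (.nd (nat_lit 21) 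
(.lf (nat_lit 4496474338) (dlOf (nat_lit 1) (nat_lit 0x60028081b01))) 
(.lf (nat_lit 6471906) (dlOf (nat_lit 2) (nat_lit 0xd390000300000005408001800200020008420582)))) 
(.nd (nat_lit 9) 
(.lf (nat_lit 29016290) (dlOf (nat_lit 2) (nat_lit 0x20a9600005404001000200060008da0582))) 
(.lf (nat_lit 8049378) (dlOf (nat_lit 1) (nat_lit 0x8008000400200020008518c83))))) 
(.nd (nat_lit 11) (.nd (nat_lit 19) 
(.lf (nat_lit 2684540130) (dlOf (nat_lit 1) (nat_lit 0x480080004002000200080a9503))) 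
(.lf (nat_lit 8049890) (dlOf (nat_lit 1) (nat_lit 0x110008000c002001a0008519503)))) 
(.nd (nat_lit 19) 
(.lf (nat_lit 1543687394) (dlOf (nat_lit 2) (nat_lit 0x2009800080080028008000400200060008146503))) 
(.lf (nat_lit 707810) (dlOf (nat_lit 2) (nat_lit 0x80000006a04016000200100008006502)))))) 
(.nd (nat_lit 19) (.nd (nat_lit 10) (.nd (nat_lit 26) 
(.lf (nat_lit 1343668450) (dlOf (nat_lit 26) (nat_lit 0xee42c6000c15500380a1036604c401c0250010c0e7003f06106f182f8013815e00be0a7013404f80018208013c07c006203507b1015006d00000005440003817c0002902006616100140a7003e82740004c0c00c013a002208e000128200120b2835b85841b2829c0d4a09d0664047000084283468584190c29c0d2c09d064f047000080203410584197029c0d1409d064504700007c2034485841b3029c00a60da069904e835e823801d80fc022e0310000e87067a0b0833e853819a013a0cd208e0000e04054b0b082630538156013a0a4208e0000d84065b0b08320853819a813a0c3408e0000d0401400b0816505380e0013a001208e0000a0405ef0b082b58538187c13a0001206006e161000f0a7002e8274000200c04a813a0000f0206e016102f90a701d282740ba811c0000e080a4e16104cb0a702ad0274008c11c0000d080a78161051a0a702f10274000140c0ea42c2061214e03a904e80002418128858400a029c04e409d0000383054c0b08026853815a413a0000606001a161009d0a700a98274000060c11fc2c2068014e04d904e800008182838584114c29c0a5c09d02ea047000004202a40584142429c0aea09d04ec04700000020110000805bc00205de00082e0583)))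 
(.lf (nat_lit 68600034) (dlOf (nat_lit 2) (nat_lit 0xbe08300015018600580)))) (.nd (nat_lit 11) 
(.lf (nat_lit 5772854498) (dlOf (nat_lit 1) (nat_lit 0x400400020008092e02))) 
(.lf (nat_lit 2416364770) (dlOf (nat_lit 5) (nat_lit 0x402000036020016012000400880068040001c01e001800e00090068000d430006004800140220002010000900780008038002801a000340c001e01200050088003803c002001a0002a08003a00280f6501))))) 
(.nd (nat_lit 9) (.nd (nat_lit 20) 
(.lf (nat_lit 7258338) (dlOf (nat_lit 2) (nat_lit 0x83fd000150184b0580))) 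
(.lf (nat_lit 6209762) (dlOf (nat_lit 2) (nat_lit 0xc1330004c00000015028420580)))) 
(.lf (nat_lit 19841762) (dlOf (nat_lit 1) (nat_lit 0x200189d2101)))))) (.nd (nat_lit 9) 
(.nd (nat_lit 11) (.nd (nat_lit 26) 
(.lf (nat_lit 134398434) (dlOf (nat_lit 1) (nat_lit 0x20018017301))) (.nd (nat_lit 28) 
(.lf (nat_lit 1812120034) (dlOf (nat_lit 6) (nat_lit 0x3440160188009008900200618000000ba1000a40160040009002000000017018018802c00c40120004004002f00000014420003002c0004012000c000000280300260058001100801400080040002000c0008157303))) 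
(.lf (nat_lit 4228039138) (dlOf (nat_lit 4) (nat_lit 0x2180540006602028402a000208100830150000fc0800400080108002003e0008017303))))) 
(.nd (nat_lit 10) 
(.lf (nat_lit 2751650274) (dlOf (nat_lit 2) (nat_lit 0xcd10880303808002000800140020010000800b283))) 
(.nd (nat_lit 19) (.lf (nat_lit 3020086754) (dlOf (nat_lit 2) (nat_lit 0x300350052c01812cd00))) 
(.lf (nat_lit 8052194) (dlOf (nat_lit 1) (nat_lit 0x40040002000851cd02)))))) (.nd (nat_lit 10) 
(.nd (nat_lit 11) (.lf (nat_lit 872858594) (dlOf (nat_lit 1) (nat_lit 0x1a00280e2881))) 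
(.lf (nat_lit 711650) (dlOf (nat_lit 1) (nat_lit 0xc0020010000800bf02)))) (.nd (nat_lit 11) 
(.nd (nat_lit 19) (.lf (nat_lit 1677903842) (dlOf (nat_lit 1) (nat_lit 0x580018114581))) 
(.lf (nat_lit 8046562) (dlOf (nat_lit 1) (nat_lit 0x20008514581)))) 
(.lf (nat_lit 8048610) (dlOf (nat_lit 1) (nat_lit 0x400400020008517a82))))))))) (.nd (nat_lit 18) 
(.nd (nat_lit 6) (.nd (nat_lit 28) (.nd (nat_lit 7) (.nd (nat_lit 19) (.nd (nat_lit 20) 
(.nd (nat_lit 26) (.nd (nat_lit 27) 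
(.lf (nat_lit 4832084002) (dlOf (nat_lit 1) (nat_lit 0x1400180d0001))) 
(.lf (nat_lit 134463522) (dlOf (nat_lit 1) (nat_lit 0x1c00400100008030982)))) (.nd (nat_lit 9) 
(.lf (nat_lit 201572386) (dlOf (nat_lit 1) (nat_lit 0x1c00400100008030982))) 
(.lf (nat_lit 3288580642) (dlOf (nat_lit 5) (nat_lit 0x601000098048005c01f00310068005b020009810000040400014f040006040000801200140088000060c00580800034024003b0110005007c0000210000800400c40018090d82))))) 
(.nd (nat_lit 22) 
(.lf (nat_lit 26460194) (dlOf (nat_lit 3) (nat_lit 0x147f8000160400163fc0000002002a0028c50181))) 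
(.lf (nat_lit 30654498) (dlOf (nat_lit 1) (nat_lit 0x40028e40d01))))) (.nd (nat_lit 20) 
(.nd (nat_lit 22) 
(.lf (nat_lit 537640994) (dlOf (nat_lit 3) (nat_lit 0x17c0a400206020002052001010180e0480))) 
(.lf (nat_lit 4964386) (dlOf (nat_lit 2) (nat_lit 0xd8cf2008866200292070000701801100080024002000200082e0603)))) 
(.lf (nat_lit 45858850) (dlOf (nat_lit 2) (nat_lit 0x3d7780007c04001000400040009360182))))) 
(.nd (nat_lit 8) (.nd (nat_lit 9) 
(.lf (nat_lit 62111906) (dlOf (nat_lit 1) (nat_lit 0x40029951381))) (.nd (nat_lit 11) 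
(.lf (nat_lit 20174498) (dlOf (nat_lit 1) (nat_lit 0x80080014002000400089d9f83))) 
(.lf (nat_lit 6509809314) (dlOf (nat_lit 1) (nat_lit 0x2000200440008147202))))) (.nd (nat_lit 29) 
(.lf (nat_lit 3288580514) (dlOf (nat_lit 6) (nat_lit 0xe00f003f781007a01f804c809c01fc04c00e8021006c00f003a004801d002200a2009003a208006f013803c8098019c03c00dc012006f008801d0c2803d80fc027004e00fa026006b00f0039004801bc0220073a0c00f003f005f0138041809801dc03c00c8012006c008801ce4300900008014c002042a0008090783))) 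
(.lf (nat_lit 1677967778) (dlOf (nat_lit 2) (nat_lit 0x120560022c818126b80)))))) (.nd (nat_lit 27) 
(.nd (nat_lit 19) (.nd (nat_lit 8) (.nd (nat_lit 20) 
(.lf (nat_lit 4563648546) (dlOf (nat_lit 2) (nat_lit 0x9101a000000080288008007000200ca00080b0203))) 
(.lf (nat_lit 1343471650) (dlOf (nat_lit 1) (nat_lit 0xa0028260681)))) 
(.lf (nat_lit 3490955554) (dlOf (nat_lit 8) (nat_lit 0x2c11200a5402002a0890052901004204480291c0800f02240147a040040118001208b0051a8200020460028b40800d8230004811600a2b0400280028047801)))) 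
(.nd (nat_lit 21) 
(.lf (nat_lit 1410056226) (dlOf (nat_lit 3) (nat_lit 0x17c0a400205020002052001010180e0480))) 
(.lf (nat_lit 1345044514) (dlOf (nat_lit 5) (nat_lit 0x20b40000d808002859800280360001104000e1670000801000d0b3800000080138008000c002000e00089d0703))))) 
(.nd (nat_lit 10) (.nd (nat_lit 7) (.nd (nat_lit 30) 
(.lf (nat_lit 4697866274) (dlOf (nat_lit 2) (nat_lit 0x9101a000000080288008007000200ca00080b0203))) 
(.lf (nat_lit 1476640802) (dlOf (nat_lit 1) (nat_lit 0x200080c0681)))) 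
(.lf (nat_lit 5772132514) (dlOf (nat_lit 1) (nat_lit 0x20008090581)))) (.nd (nat_lit 9) 
(.lf (nat_lit 473678882) (dlOf (nat_lit 1) (nat_lit 0x20018fa2881))) 
(.lf (nat_lit 4161000994) (dlOf (nat_lit 1) (nat_lit 0x80080004002000200080a9c03))))))) 
(.nd (nat_lit 7) (.nd (nat_lit 21) (.nd (nat_lit 9) (.nd (nat_lit 10) 
(.lf (nat_lit 134989922) (dlOf (nat_lit 1) (nat_lit 0x4004000200080f4702))) 
(.lf (nat_lit 2818825314) (dlOf (nat_lit 10) (nat_lit 0x680d8000ba04003c06c0005c0200300360002881001c01b0001400800780d80009804002406c0004a0200140360002401006501b0000f40800f80d8000000400200040052001812c002)))) 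
(.nd (nat_lit 8) (.lf (nat_lit 4832085602) (dlOf (nat_lit 1) (nat_lit 0x90002000200080d3902))) 
(.lf (nat_lit 4899195746) (dlOf (nat_lit 1) (nat_lit 0x4002000200080d5c02))))) (.nd (nat_lit 8) 
(.nd (nat_lit 10) (.nd (nat_lit 20) 
(.lf (nat_lit 44286050) (dlOf (nat_lit 1) (nat_lit 0x100080010002000800092e0783))) 
(.lf (nat_lit 28557410) (dlOf (nat_lit 2) (nat_lit 0x1581000724080040008001c00200080008da0483)))) 
(.lf (nat_lit 49005666) (dlOf (nat_lit 1) (nat_lit 0x20019462981)))) (.nd (nat_lit 20) 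
(.lf (nat_lit 2343266) (dlOf (nat_lit 4) (nat_lit 0x9f0760003402001b83b00019810009c1d8000780801c000800a800200160008150703))) 
(.lf (nat_lit 11780450) (dlOf (nat_lit 1) (nat_lit 0x4002000400086c0702)))))) (.nd (nat_lit 19) 
(.nd (nat_lit 8) (.nd (nat_lit 20) 
(.lf (nat_lit 474203362) (dlOf (nat_lit 1) (nat_lit 0x200290e2e01))) 
(.lf (nat_lit 43238626) (dlOf (nat_lit 1) (nat_lit 0x200292a2e01)))) (.nd (nat_lit 26) 
(.nd (nat_lit 27) 
(.lf (nat_lit 805552610) (dlOf (nat_lit 4) (nat_lit 0x18038000cc04001801c0003f0200d6051005601d0000881000d80080020002004e0008127303))) 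
(.lf (nat_lit 671334882) (dlOf (nat_lit 2) (nat_lit 0x201700000018157d00)))) 
(.lf (nat_lit 1543750114) (dlOf (nat_lit 1) (nat_lit 0x20008157301))))) (.nd (nat_lit 9) 
(.nd (nat_lit 10) (.nd (nat_lit 23) 
(.lf (nat_lit 17547490) (dlOf (nat_lit 4) (nat_lit 0x992bc00054040054962000210200724b10000e8188e0580))) 
(.lf (nat_lit 9158882) (dlOf (nat_lit 2) (nat_lit 0x52484007e204000c00200020008524202)))) 
(.lf (nat_lit 5772133602) (dlOf (nat_lit 2) (nat_lit 0x185180001c04001000400040008092e02)))) 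
(.nd (nat_lit 8) (.nd (nat_lit 10) 
(.lf (nat_lit 19649250) (dlOf (nat_lit 1) (nat_lit 0x200189d8c81))) 
(.lf (nat_lit 19648226) (dlOf (nat_lit 1) (nat_lit 0x400189d7381)))) 
(.lf (nat_lit 36422626) (dlOf (nat_lit 1) (nat_lit 0x40019072881)))))))) (.nd (nat_lit 19) 
(.nd (nat_lit 21) (.nd (nat_lit 28) (.nd (nat_lit 24) (.nd (nat_lit 26) (.nd (nat_lit 6) 
(.nd (nat_lit 22) (.lf (nat_lit 1611120674) (dlOf (nat_lit 1) (nat_lit 0x20002001200080e0802))) 
(.lf (nat_lit 13090850) (dlOf (nat_lit 2) (nat_lit 0x462200042d50000801000580080054002003600086f0783)))) 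
(.lf (nat_lit 514018) (dlOf (nat_lit 2) (nat_lit 0xf815e00500a3002ad82800a600)))) (.nd (nat_lit 29) 
(.lf (nat_lit 201834530) (dlOf (nat_lit 3) (nat_lit 0x4086002c03f004a402003d0208025140800480080008002001e0008090003))) 
(.lf (nat_lit 738705442) (dlOf (nat_lit 1) (nat_lit 0x20002001200080e0802))))) (.nd (nat_lit 6) 
(.nd (nat_lit 9) (.nd (nat_lit 20) 
(.lf (nat_lit 55033890) (dlOf (nat_lit 1) (nat_lit 0xa0019690181))) 
(.lf (nat_lit 26722338) (dlOf (nat_lit 13) (nat_lit 0x3bd83a00e8c1c004a60c801dafc801dd7e20078bf000cf5f400372f9c01c17b600b0bda00935e500332f08034975e0094b9700235c7802b2cdc015163e0098b1d005b58e00092c6c038562c01a2b15000158700692afc034956e01a4a9f00cd54b0062aa54033d502018aa8000d2514806d28a0026d336014297b00cd4bc003ba5dc00412e201a40fb00d20298069013800038a001c17d0009abca00205cb8038aa5801c550200e2a2900164cd801a25ec000362001517940001a0200d0bca0000c0100c3587002a2c1c01a130e0001506000cc1900a75870024261c000280c00cd61c0001302003eb0e000090100085870000440804f2c380002004004161c0000f020064bd000165e500000010045800801e000201440008c60603))))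 
(.lf (nat_lit 50840098) (dlOf (nat_lit 2) (nat_lit 0x9d100014e86004d404003000194d8701)))) 
(.nd (nat_lit 25) (.lf (nat_lit 21479522) (dlOf (nat_lit 1) (nat_lit 0x240028a40781))) 
(.lf (nat_lit 55033954) (dlOf (nat_lit 2) (nat_lit 0x725d006190080158008004800200640009690783)))))) 
(.nd (nat_lit 31) (.nd (nat_lit 6) (.nd (nat_lit 9) 
(.lf (nat_lit 1879556130) (dlOf (nat_lit 1) (nat_lit 0xc004000600081e0602))) 
(.lf (nat_lit 1342685730) (dlOf (nat_lit 2) (nat_lit 0x3a094001170180c0d80)))) 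
(.lf (nat_lit 1342685282) (dlOf (nat_lit 1) (nat_lit 0x400080c0001)))) (.nd (nat_lit 8) 
(.nd (nat_lit 26) (.nd (nat_lit 27) 
(.lf (nat_lit 2416427042) (dlOf (nat_lit 4) (nat_lit 0x30080001003401aa408001c02000d5102000401200020088000803c000c01a00d4f08006000281d0a01))) 
(.lf (nat_lit 2550644770) (dlOf (nat_lit 4) (nat_lit 0x30080001003400fae08001c020007d602000401200020088000803c000c01a007d408006000281d0a01)))) 
(.lf (nat_lit 3557277730) (dlOf (nat_lit 22) (nat_lit 0x98000018360400a40f002e407200e30378033018402100bc005005b0376022802c010803ac07e01c8038006101b00ab80d0017aa3006a40f0054c0720210037801001b803400c8038206101b502f00a9016c3d5008a00a6043019c021010100fc00740720306038003401b80c500d8003406a04e4034012901600c700a80688044049a01b001100d002f50b802f01e005940e401a606f002a032006d018402740bc006e05b0e190228009810c01fc084027003f038401c004280d80608068011a02c01810110092806c0179e4401f80f00450072009c03080568178133808a0152042018e01f800a00e0020006800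bce12019c078020703900ba81bc024c0c2020205e009702d863181140398084029a03f015e01c006780d807ac068000402c00110110061806c017923c03140f0035e072012d037801b019001ac0c2019a05e0e9702280740108043007e004e038016801a00c9806c0179030024c0e40002061004001f802ef8180e481c802480c2021a03f005de830099039000a80fc057c07000bb806042e072009303080d800fc0176e0c05b00e4006c06f005f030808200fc050807000c0034005d70602370390033018404f007e00bad06001c072005d381000701f802e94080328184016920407280e400e206100d401f802d141803281c802240c201a603f0059f83007c030802cd40804c81c802340c200d803f0058d83001d030802c28080b60008001000201440008190703)))) 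
(.nd (nat_lit 6) 
(.lf (nat_lit 3624386850) (dlOf (nat_lit 9) (nat_lit 0x3002a00aa602006e028004201300210090014c03600fe015003f00900210008014bc1c011c04c008e024005301180058084013c036008e019003e0090029703800200f8000c06e00460000052a03000a01f000480dc008c00000a520600d203e006901b8023805400e401400720060052385000401b8028f40800380f800000040018004013c0008187802))) 
(.lf (nat_lit 3490172258) (dlOf (nat_lit 1) (nat_lit 0x60028006a81))))))) (.nd (nat_lit 23) 
(.nd (nat_lit 11) (.nd (nat_lit 6) (.nd (nat_lit 26) 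
(.lf (nat_lit 2605090) (dlOf (nat_lit 1) (nat_lit 0x3400400e80008170a02))) 
(.lf (nat_lit 1009238050) (dlOf (nat_lit 2) (nat_lit 0x60448001040800100080024002001a00090a0183)))) 
(.lf (nat_lit 1881653346) (dlOf (nat_lit 5) (nat_lit 0x502b0001014c00200a0000e04d00c3284000502b0001814c00200a0000e04d00c3204000702b0003814c00100a0000804d00c3184000702b0003814c00100a0000604d00c31048fa0780)))) 
(.nd (nat_lit 6) (.nd (nat_lit 8) 
(.lf (nat_lit 20434082) (dlOf (nat_lit 2) (nat_lit 0x103e20005102001c00189d6281))) 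
(.lf (nat_lit 472369570) (dlOf (nat_lit 1) (nat_lit 0x50004000a0008984e82)))) 
(.lf (nat_lit 40356194) (dlOf (nat_lit 1) (nat_lit 0x38008008400200e600091f4e83))))) 
(.nd (nat_lit 22) (.nd (nat_lit 20) (.nd (nat_lit 24) 
(.lf (nat_lit 10993698) (dlOf (nat_lit 1) (nat_lit 0xf000200a80008650682))) 
(.lf (nat_lit 27770914) (dlOf (nat_lit 2) (nat_lit 0xb5400005a9e0002cc700269838d20680)))) 
(.lf (nat_lit 45596706) (dlOf (nat_lit 1) (nat_lit 0x40019340181)))) (.nd (nat_lit 6) 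
(.nd (nat_lit 25) (.lf (nat_lit 15188002) (dlOf (nat_lit 2) (nat_lit 0xe6750005a8187c0600))) 
(.lf (nat_lit 48742434) (dlOf (nat_lit 2) (nat_lit 0x24ea30001f019420180)))) 
(.lf (nat_lit 33014882) (dlOf (nat_lit 1) (nat_lit 0x800400060008f52982))))))) (.nd (nat_lit 8) 
(.nd (nat_lit 20) (.nd (nat_lit 28) (.nd (nat_lit 6) (.nd (nat_lit 7) 
(.lf (nat_lit 68141090) (dlOf (nat_lit 1) (nat_lit 0x2ac0008400181))) 
(.lf (nat_lit 51365026) (dlOf (nat_lit 1) (nat_lit 0x10008000c00200020009512b83)))) 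
(.lf (nat_lit 30392546) (dlOf (nat_lit 4) (nat_lit 0x9a9100005404005548c00021020072a460000e818e30580)))) 
(.nd (nat_lit 6) (.nd (nat_lit 9) 
(.lf (nat_lit 1343209506) (dlOf (nat_lit 1) (nat_lit 0x1c002000a00081a0602))) 
(.lf (nat_lit 3490693666) (dlOf (nat_lit 1) (nat_lit 0x10008001000200080008017f03)))) 
(.lf (nat_lit 1880080482) (dlOf (nat_lit 1) (nat_lit 0x1000186b0481))))) (.nd (nat_lit 21) 
(.nd (nat_lit 22) (.lf (nat_lit 10469410) (dlOf (nat_lit 1) (nat_lit 0x200085e0c01))) 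
(.nd (nat_lit 23) (.lf (nat_lit 23052322) (dlOf (nat_lit 1) (nat_lit 0x20018b50481))) 
(.lf (nat_lit 14663714) (dlOf (nat_lit 1) (nat_lit 0x20018770181))))) (.nd (nat_lit 6) 
(.lf (nat_lit 473940002) (dlOf (nat_lit 18) (nat_lit 0x82c00bf60d9000138200020b002f383640004c0806201b2000250203600d9000118100f804b0000800801082580003c0400bc1b2000120202581560b8409d856284e405d419a01a009600d004280d501d406940e60000e10028215607f809d82d804e405b019a020609600c5042807201d402680e60000d1001de1560b4d09d809d8334025c12c012808500da03a800030300b705580f0c2760192096000058300d00ab059484ec29a8272022e0cd008504b00420214058c0ea02b4073000050801e60ab013c04ec11bc272045c0cd01bb04b00dd8214000121801c02ac00c20960014042800801d40000c1001b819a00004020074156002d04b0000081009285582e3427602f20cd00b804b006a0214047c0ea000000c008c0028fc0181))) 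
(.lf (nat_lit 473940066) (dlOf (nat_lit 2) (nat_lit 0x295036400c41b00000004000e0008fc0901)))))) 
(.nd (nat_lit 6) (.nd (nat_lit 11) (.nd (nat_lit 7) 
(.lf (nat_lit 3490693410) (dlOf (nat_lit 1) (nat_lit 0x20028014301))) (.nd (nat_lit 21) 
(.lf (nat_lit 3490693538) (dlOf (nat_lit 1) (nat_lit 0x400200020008016b82))) 
(.lf (nat_lit 61850018) (dlOf (nat_lit 1) (nat_lit 0x20019921001))))) (.nd (nat_lit 20) 
(.lf (nat_lit 6376376738) (dlOf (nat_lit 1) (nat_lit 0xc0018094e81))) 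
(.lf (nat_lit 58706338) (dlOf (nat_lit 1) (nat_lit 0x200197e4e81))))) (.nd (nat_lit 7) 
(.nd (nat_lit 9) (.lf (nat_lit 2755641698) (dlOf (nat_lit 1) (nat_lit 0x1000181b0701))) 
(.lf (nat_lit 19909474) (dlOf (nat_lit 1) (nat_lit 0x4002000200089d5c02)))) (.nd (nat_lit 9) 
(.lf (nat_lit 3490693602) (dlOf (nat_lit 1) (nat_lit 0x1000400020018017302))) 
(.lf (nat_lit 56607714) (dlOf (nat_lit 1) (nat_lit 0xc0029732881)))))))))) (.nd (nat_lit 16) 
(.nd (nat_lit 6) (.nd (nat_lit 19) (.nd (nat_lit 29) (.nd (nat_lit 18) (.nd (nat_lit 7) 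
(.nd (nat_lit 9) (.nd (nat_lit 10) (.nd (nat_lit 20) 
(.lf (nat_lit 14860330) (dlOf (nat_lit 1) (nat_lit 0x20018790381))) 
(.lf (nat_lit 68337706) (dlOf (nat_lit 2) (nat_lit 0x7068000220080048008003c00200080008550783)))) 
(.lf (nat_lit 183338) (dlOf (nat_lit 1) (nat_lit 0x40018006081)))) (.nd (nat_lit 8) 
(.nd (nat_lit 10) (.lf (nat_lit 134398506) (dlOf (nat_lit 1) (nat_lit 0x60018017f81))) 
(.lf (nat_lit 3422737962) (dlOf (nat_lit 1) (nat_lit 0x4004000200080a9c02)))) 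
(.lf (nat_lit 59951914) (dlOf (nat_lit 1) (nat_lit 0x400400020009845c02))))) (.nd (nat_lit 10) 
(.nd (nat_lit 23) (.nd (nat_lit 26) 
(.lf (nat_lit 402833834) (dlOf (nat_lit 1) (nat_lit 0x60018091001))) 
(.lf (nat_lit 201507242) (dlOf (nat_lit 4) (nat_lit 0x807600a3002000603b0051401000301d80289c080008008000c00200020008017183)))) 
(.lf (nat_lit 8569258) (dlOf (nat_lit 1) (nat_lit 0x20008511001)))) (.nd (nat_lit 8) 
(.lf (nat_lit 34784426) (dlOf (nat_lit 1) (nat_lit 0x100018fb2c01))) 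
(.lf (nat_lit 8570282) (dlOf (nat_lit 1) (nat_lit 0x400200020008513602)))))) (.nd (nat_lit 28) 
(.nd (nat_lit 22) (.nd (nat_lit 26) 
(.lf (nat_lit 134660650) (dlOf (nat_lit 3) (nat_lit 0x2a018801280440006c080040062000340200020028090e81))) 
(.lf (nat_lit 201769514) (dlOf (nat_lit 3) (nat_lit 0x2a018801280440006c080040062000340200020028090e81)))) 
(.nd (nat_lit 7) (.lf (nat_lit 41339434) (dlOf (nat_lit 1) (nat_lit 0x20019245181))) 
(.lf (nat_lit 21414058) (dlOf (nat_lit 1) (nat_lit 0x1000400040018a31482))))) (.nd (nat_lit 8) 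
(.nd (nat_lit 21) (.nd (nat_lit 22) 
(.lf (nat_lit 3624321066) (dlOf (nat_lit 1) (nat_lit 0x7c004001e0018160502))) 
(.lf (nat_lit 1346813994) (dlOf (nat_lit 2) (nat_lit 0x181b2000000200040019020201)))) 
(.lf (nat_lit 3492200490) (dlOf (nat_lit 1) (nat_lit 0x9000800a4002001000080b0e03)))) 
(.lf (nat_lit 3490106666) (dlOf (nat_lit 2) (nat_lit 0x10116000230200020018006801)))))) 
(.nd (nat_lit 31) (.nd (nat_lit 26) (.nd (nat_lit 7) (.nd (nat_lit 28) 
(.lf (nat_lit 6039978026) (dlOf (nat_lit 2) (nat_lit 0x40540000002001e00280a0601))) 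
(.lf (nat_lit 5234671658) (dlOf (nat_lit 1) (nat_lit 0x68008000400200100008080303)))) 
(.nd (nat_lit 8) 
(.lf (nat_lit 6174195882) (dlOf (nat_lit 1) (nat_lit 0x8008004c00200040008081483))) 
(.lf (nat_lit 671270826) (dlOf (nat_lit 3) (nat_lit 0x1a0170000c01000500b800028080098008002800200340008144303))))) 
(.nd (nat_lit 28) (.nd (nat_lit 11) 
(.lf (nat_lit 4899127338) (dlOf (nat_lit 1) (nat_lit 0x400400020018080302))) 
(.lf (nat_lit 1677903914) (dlOf (nat_lit 1) (nat_lit 0x40018114701)))) (.nd (nat_lit 7) 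
(.lf (nat_lit 2080555050) (dlOf (nat_lit 1) (nat_lit 0x20018090001))) 
(.lf (nat_lit 872595882) (dlOf (nat_lit 1) (nat_lit 0x400400060008091002)))))) (.nd (nat_lit 18) 
(.nd (nat_lit 7) (.nd (nat_lit 10) 
(.lf (nat_lit 2952970282) (dlOf (nat_lit 1) (nat_lit 0x60008060881))) 
(.lf (nat_lit 2751644714) (dlOf (nat_lit 1) (nat_lit 0x400400020008002882)))) (.nd (nat_lit 9) 
(.lf (nat_lit 3758282154) (dlOf (nat_lit 1) (nat_lit 0x10004000a0018129902))) 
(.lf (nat_lit 4094872490) (dlOf (nat_lit 2) (nat_lit 0x300a80000004002800400500008055d02))))) 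
(.nd (nat_lit 20) (.nd (nat_lit 21) 
(.lf (nat_lit 2886123562) (dlOf (nat_lit 1) (nat_lit 0x7c004001e0018160502))) 
(.lf (nat_lit 2754002986) (dlOf (nat_lit 2) (nat_lit 0x1022000080080088008002c002000a00080b0d03)))) 
(.lf (nat_lit 2752954410) (dlOf (nat_lit 5) (nat_lit 0x110fc8000b00800307f4003c280000280400d01fa003c0aa802a04e0000180c00302a0000030200300018070801))))))) 
(.nd (nat_lit 20) (.nd (nat_lit 18) (.nd (nat_lit 21) (.nd (nat_lit 26) (.nd (nat_lit 27) 
(.lf (nat_lit 537575466) (dlOf (nat_lit 5) (nat_lit 0x66817c000480403640be000220200fa05f0001001008402f80007c08029800800d8002006a00080c0d03))) 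
(.lf (nat_lit 134922282) (dlOf (nat_lit 1) (nat_lit 0x48002002a00080e0602)))) (.nd (nat_lit 27) 
(.nd (nat_lit 28) 
(.lf (nat_lit 4362780714) (dlOf (nat_lit 10) (nat_lit 0xc902b001e01240480056005a0220002b8400e102b009e80ac000ac0803480ac027c02b0002a82020c02b0053012409d8056037a0220002a04002302b0001815001e805600037060006056000f0158000d81006f0158011c092027202b00010110000d42006981580240092027c02b00190110000d0200a9015804640a801d804901be0158060808800066140280004013e00180f0d02))) 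
(.lf (nat_lit 1409990698) (dlOf (nat_lit 2) (nat_lit 0xcc05f000120180c0c00)))) 
(.lf (nat_lit 202031146) (dlOf (nat_lit 1) (nat_lit 0x48002002a00080e0602))))) (.nd (nat_lit 23) 
(.nd (nat_lit 28) (.lf (nat_lit 2801706) (dlOf (nat_lit 1) (nat_lit 0x80080004002000200081b0d03))) 
(.lf (nat_lit 1344978986) (dlOf (nat_lit 4) (nat_lit 0x1f42d20036158000a067800680740005210023c2d2015c15800130a28001033c0004e1000682b00001f02000200289a0201)))) 
(.lf (nat_lit 11190314) (dlOf (nat_lit 1) (nat_lit 0x60018670601))))) (.nd (nat_lit 21) 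
(.nd (nat_lit 8) (.nd (nat_lit 22) 
(.lf (nat_lit 1343143978) (dlOf (nat_lit 3) (nat_lit 0x40000000e81000e1250000700801380080088002000a0008160903))) 
(.lf (nat_lit 30326826) (dlOf (nat_lit 1) (nat_lit 0xc0018e30001)))) 
(.lf (nat_lit 5772330282) (dlOf (nat_lit 1) (nat_lit 0x400200020008093182)))) (.nd (nat_lit 7) 
(.lf (nat_lit 11452458) (dlOf (nat_lit 1) (nat_lit 0x8004000400086a0802))) 
(.lf (nat_lit 19845802) (dlOf (nat_lit 2) (nat_lit 0xda9e0098e02002000289d8c81)))))) 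
(.nd (nat_lit 21) (.nd (nat_lit 9) (.nd (nat_lit 18) (.nd (nat_lit 27) 
(.lf (nat_lit 1753130) (dlOf (nat_lit 3) (nat_lit 0x2c0d7000150101720000000400802a8008014800202f40008130803))) 
(.lf (nat_lit 5773115434) (dlOf (nat_lit 1) (nat_lit 0x400180a0a01)))) 
(.lf (nat_lit 14598186) (dlOf (nat_lit 1) (nat_lit 0x2800400020008770382)))) (.nd (nat_lit 26) 
(.lf (nat_lit 3491414570) (dlOf (nat_lit 3) (nat_lit 0x370f5801407480006c0800203d6000340200080028090e81))) 
(.lf (nat_lit 2753217066) (dlOf (nat_lit 3) (nat_lit 0x370fe8014079c0006c0800203fa000340200080028090e81))))) 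
(.nd (nat_lit 7) (.nd (nat_lit 8) (.nd (nat_lit 12) 
(.lf (nat_lit 45793322) (dlOf (nat_lit 1) (nat_lit 0xa0029360201))) 
(.lf (nat_lit 8048682) (dlOf (nat_lit 1) (nat_lit 0x10008000400200040008517b83)))) (.nd (nat_lit 9) 
(.lf (nat_lit 8050986) (dlOf (nat_lit 1) (nat_lit 0x3800800040020008000851ab83))) 
(.lf (nat_lit 8045354) (dlOf (nat_lit 1) (nat_lit 0x8008000400200040008512203))))) 
(.nd (nat_lit 10) (.lf (nat_lit 8044970) (dlOf (nat_lit 1) (nat_lit 0x8008000400200020008511003))) 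
(.lf (nat_lit 8045994) (dlOf (nat_lit 1) (nat_lit 0x400200020008513602)))))))) (.nd (nat_lit 8) 
(.nd (nat_lit 19) (.nd (nat_lit 27) (.nd (nat_lit 11) (.nd (nat_lit 9) 
(.lf (nat_lit 14073962) (dlOf (nat_lit 1) (nat_lit 0x400200020008750282))) (.nd (nat_lit 10) 
(.lf (nat_lit 2214773354) (dlOf (nat_lit 2) (nat_lit 0xc10090025801002ec0020003206000400180a1801))) 
(.lf (nat_lit 1610794602) (dlOf (nat_lit 2) (nat_lit 0x502b80011c0802c0008001000200260008093903))))) 
(.nd (nat_lit 7) (.nd (nat_lit 18) 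
(.lf (nat_lit 59951722) (dlOf (nat_lit 1) (nat_lit 0x400200020009845382))) 
(.lf (nat_lit 46582378) (dlOf (nat_lit 1) (nat_lit 0x10008001000200020009385383)))) 
(.lf (nat_lit 805490410) (dlOf (nat_lit 1) (nat_lit 0x5c0018117401))))) (.nd (nat_lit 7) 
(.nd (nat_lit 10) (.nd (nat_lit 11) 
(.lf (nat_lit 2281882218) (dlOf (nat_lit 2) (nat_lit 0x770090062804000064080004002000600080a1802))) 
(.lf (nat_lit 1745013354) (dlOf (nat_lit 1) (nat_lit 0x8008000400200020008095383)))) 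
(.lf (nat_lit 3422738026) (dlOf (nat_lit 1) (nat_lit 0x4004000200080a9c02)))) (.nd (nat_lit 9) 
(.lf (nat_lit 1275248874) (dlOf (nat_lit 1) (nat_lit 0x4004000200080c1e02))) 
(.lf (nat_lit 4160930538) (dlOf (nat_lit 1) (nat_lit 0x80080144002003e00080a2103)))))) 
(.nd (nat_lit 9) (.nd (nat_lit 20) (.nd (nat_lit 18) 
(.lf (nat_lit 1879752810) (dlOf (nat_lit 1) (nat_lit 0x1040018370481))) 
(.lf (nat_lit 42909802) (dlOf (nat_lit 1) (nat_lit 0x160019291e81)))) (.nd (nat_lit 27) 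
(.lf (nat_lit 2755575914) (dlOf (nat_lit 1) (nat_lit 0x8008035800200e000081b0003))) 
(.lf (nat_lit 473874538) (dlOf (nat_lit 1) (nat_lit 0x7c00400300008fc0a02))))) (.nd (nat_lit 7) 
(.nd (nat_lit 10) 
(.lf (nat_lit 8307306) (dlOf (nat_lit 2) (nat_lit 0xa9bf100259f3c0006c08006800400080008511802))) 
(.lf (nat_lit 8050282) (dlOf (nat_lit 1) (nat_lit 0xc0018519c01)))) (.nd (nat_lit 10) 
(.lf (nat_lit 8049386) (dlOf (nat_lit 2) (nat_lit 0x19dd00003c04000800200060008518d82))) 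
(.lf (nat_lit 8308458) (dlOf (nat_lit 1) (nat_lit 0x2c00400040018513b02))))))) (.nd (nat_lit 26) 
(.nd (nat_lit 7) (.nd (nat_lit 9) (.nd (nat_lit 10) 
(.lf (nat_lit 8051050) (dlOf (nat_lit 1) (nat_lit 0x1800800080020004000851ac03))) 
(.lf (nat_lit 3490368874) (dlOf (nat_lit 1) (nat_lit 0x20008006b01)))) (.nd (nat_lit 10) 
(.lf (nat_lit 8045418) (dlOf (nat_lit 1) (nat_lit 0x8008003000200080008512583))) (.nd (nat_lit 19) 
(.lf (nat_lit 537053034) (dlOf (nat_lit 1) (nat_lit 0x400200020008004002))) 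
(.lf (nat_lit 8046442) (dlOf (nat_lit 1) (nat_lit 0x20008514001)))))) (.nd (nat_lit 30) 
(.nd (nat_lit 9) (.nd (nat_lit 18) 
(.lf (nat_lit 134398442) (dlOf (nat_lit 2) (nat_lit 0x128000000220200600028017301))) 
(.lf (nat_lit 134660586) (dlOf (nat_lit 1) (nat_lit 0x58004002e0018090d02)))) 
(.lf (nat_lit 20106218) (dlOf (nat_lit 1) (nat_lit 0x4004000200089d5e82)))) (.nd (nat_lit 9) 
(.nd (nat_lit 10) (.lf (nat_lit 1342357994) (dlOf (nat_lit 1) (nat_lit 0x2000400040018017302))) 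
(.lf (nat_lit 5637326314) (dlOf (nat_lit 1) (nat_lit 0x14002000400080d3602)))) 
(.lf (nat_lit 1610793962) (dlOf (nat_lit 1) (nat_lit 0x520008092881)))))) (.nd (nat_lit 9) 
(.nd (nat_lit 28) (.nd (nat_lit 7) 
(.lf (nat_lit 3825388906) (dlOf (nat_lit 1) (nat_lit 0x20028146b01))) (.nd (nat_lit 18) 
(.lf (nat_lit 1812120042) (dlOf (nat_lit 16) (nat_lit 0x9f00c010d802c070801203a600401b2000000174280440060089c016038000901d400200d88000000b8140214000000540202680000002901022500580e300240778008038a0000002884022800580e10024078000803860000002804014000000013808126002c012401203fc00401e000000013020125802c080c00803d80000002503024c00580f48010000900807bc030046800b01da00200ed00000008410008c0160003f02001400b0001e8101820000000e40806e00000000e04011c00400040008157302))) 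
(.lf (nat_lit 201769450) (dlOf (nat_lit 1) (nat_lit 0x58004002e0018090d02))))) (.nd (nat_lit 7) 
(.lf (nat_lit 6241306986) (dlOf (nat_lit 1) (nat_lit 0xa00180d4e81))) (.nd (nat_lit 29) 
(.lf (nat_lit 469942762) (dlOf (nat_lit 1) (nat_lit 0x8008000400200020008017d03))) 
(.lf (nat_lit 4228039146) (dlOf (nat_lit 5) (nat_lit 0xc300a8000ce0407780540006602032202a0002081018b0150000fc0801380080038002016e0008017303)))))) 
(.nd (nat_lit 7) (.nd (nat_lit 18) 
(.lf (nat_lit 1677903722) (dlOf (nat_lit 1) (nat_lit 0x560018114001))) 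
(.lf (nat_lit 2751907690) (dlOf (nat_lit 1) (nat_lit 0x4c0018004001)))) (.nd (nat_lit 11) 
(.lf (nat_lit 5301781482) (dlOf (nat_lit 1) (nat_lit 0x1e0028092881))) (.nd (nat_lit 12) 
(.lf (nat_lit 1141033962) (dlOf (nat_lit 1) (nat_lit 0x400200020008095e82))) 
(.lf (nat_lit 3020086250) (dlOf (nat_lit 1) (nat_lit 0x2001812bf01)))))))))) (.nd (nat_lit 28) 
(.nd (nat_lit 6) (.nd (nat_lit 18) (.nd (nat_lit 19) (.nd (nat_lit 21) (.nd (nat_lit 7) 
(.nd (nat_lit 9) 
(.lf (nat_lit 25411626) (dlOf (nat_lit 2) (nat_lit 0x8a65f8000cc080018008002800200100008c00603))) 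
(.lf (nat_lit 3288580650) (dlOf (nat_lit 1) (nat_lit 0x40008001400200120008090e83)))) 
(.lf (nat_lit 5033410986) (dlOf (nat_lit 2) (nat_lit 0x4006000ab018091000)))) (.nd (nat_lit 7) 
(.nd (nat_lit 20) (.lf (nat_lit 2753806378) (dlOf (nat_lit 1) (nat_lit 0x40018090001))) 
(.lf (nat_lit 7585834) (dlOf (nat_lit 1) (nat_lit 0x4004000400084b0002)))) 
(.lf (nat_lit 20174506) (dlOf (nat_lit 1) (nat_lit 0x4002000200089da002))))) (.nd (nat_lit 21) 
(.nd (nat_lit 20) (.nd (nat_lit 22) 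
(.lf (nat_lit 537641002) (dlOf (nat_lit 2) (nat_lit 0x1c052000000180e0600))) 
(.lf (nat_lit 13353002) (dlOf (nat_lit 2) (nat_lit 0x2018900028818720d00)))) 
(.lf (nat_lit 18595882) (dlOf (nat_lit 1) (nat_lit 0x28004002e0008950782)))) (.nd (nat_lit 23) 
(.lf (nat_lit 2754330666) (dlOf (nat_lit 1) (nat_lit 0x5600180d0a01))) 
(.lf (nat_lit 11255850) (dlOf (nat_lit 1) (nat_lit 0x8008000400200020008680703)))))) 
(.nd (nat_lit 21) (.nd (nat_lit 22) (.nd (nat_lit 7) (.nd (nat_lit 26) 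
(.lf (nat_lit 1611120682) (dlOf (nat_lit 2) (nat_lit 0x68168001005e0001004000200280e0b01))) 
(.lf (nat_lit 201834538) (dlOf (nat_lit 1) (nat_lit 0x38008006c00200060008090003)))) 
(.lf (nat_lit 134726058) (dlOf (nat_lit 2) (nat_lit 0x203b003a0818090780)))) (.nd (nat_lit 20) 
(.nd (nat_lit 23) 
(.lf (nat_lit 55033898) (dlOf (nat_lit 1) (nat_lit 0x28008003400200260009690303))) 
(.lf (nat_lit 13090858) (dlOf (nat_lit 5) (nat_lit 0x14c20000a5b900032820001314000218400010b720006406000863f0003314000398400018b720006208000e61000072dc80017c1000680080034002000600086f0b03)))) 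
(.lf (nat_lit 30916650) (dlOf (nat_lit 2) (nat_lit 0xd5c180004408006000800f0002002c0008e50b03))))) 
(.nd (nat_lit 7) (.nd (nat_lit 9) (.nd (nat_lit 20) 
(.lf (nat_lit 27770922) (dlOf (nat_lit 3) (nat_lit 0x6d4c000440100066a80009331c00000080010004001a0008d20782))) 
(.lf (nat_lit 37208106) (dlOf (nat_lit 1) (nat_lit 0x400290c0901)))) 
(.lf (nat_lit 40878634) (dlOf (nat_lit 3) (nat_lit 0x167380009408000b39c0004804000400200020009208982)))) 
(.nd (nat_lit 10) (.lf (nat_lit 8372650) (dlOf (nat_lit 1) (nat_lit 0x20008511001))) 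
(.lf (nat_lit 8373674) (dlOf (nat_lit 1) (nat_lit 0x400200020008513602))))))) (.nd (nat_lit 7) 
(.nd (nat_lit 10) (.nd (nat_lit 8) (.nd (nat_lit 9) (.nd (nat_lit 18) 
(.lf (nat_lit 44286058) (dlOf (nat_lit 1) (nat_lit 0x600292e0781))) 
(.lf (nat_lit 55033962) (dlOf (nat_lit 1) (nat_lit 0x4004005a0019690782)))) 
(.lf (nat_lit 20171370) (dlOf (nat_lit 1) (nat_lit 0x80080008002000200089d5383)))) 
(.nd (nat_lit 11) (.lf (nat_lit 9159018) (dlOf (nat_lit 1) (nat_lit 0x40018527481))) 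
(.lf (nat_lit 8116586) (dlOf (nat_lit 1) (nat_lit 0x40040002000851ac02))))) (.nd (nat_lit 8) 
(.nd (nat_lit 9) (.nd (nat_lit 18) 
(.lf (nat_lit 49005674) (dlOf (nat_lit 1) (nat_lit 0x23000200020009462982))) 
(.lf (nat_lit 47694954) (dlOf (nat_lit 1) (nat_lit 0x400400020009402982)))) 
(.lf (nat_lit 61326954) (dlOf (nat_lit 1) (nat_lit 0x6c0029923901)))) (.nd (nat_lit 11) 
(.lf (nat_lit 604489066) (dlOf (nat_lit 1) (nat_lit 0x180080004002000400082d3483))) 
(.lf (nat_lit 3221474666) (dlOf (nat_lit 1) (nat_lit 0x3000200120008116b02)))))) (.nd (nat_lit 8) 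
(.nd (nat_lit 20) (.nd (nat_lit 18) 
(.lf (nat_lit 6576914666) (dlOf (nat_lit 1) (nat_lit 0x4004000200081a6b82))) 
(.lf (nat_lit 6510067946) (dlOf (nat_lit 1) (nat_lit 0x4004000200081a6b82)))) (.nd (nat_lit 9) 
(.nd (nat_lit 21) 
(.lf (nat_lit 22266090) (dlOf (nat_lit 1) (nat_lit 0x18008000400200020008ab6b83))) 
(.lf (nat_lit 62111978) (dlOf (nat_lit 1) (nat_lit 0xa40009951e01)))) 
(.lf (nat_lit 8114922) (dlOf (nat_lit 2) (nat_lit 0x1873100010018518d80))))) (.nd (nat_lit 9) 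
(.nd (nat_lit 26) 
(.lf (nat_lit 671334890) (dlOf (nat_lit 2) (nat_lit 0x1a0120022805c0000008003400400120008157d02))) 
(.lf (nat_lit 3288580586) (dlOf (nat_lit 1) (nat_lit 0x3400200120008090d02)))) (.nd (nat_lit 10) 
(.lf (nat_lit 2751710186) (dlOf (nat_lit 1) (nat_lit 0x400200020008002882))) 
(.lf (nat_lit 3892563946) (dlOf (nat_lit 2) (nat_lit 0x801c002918080018008001000200020008157a83)))))))) 
(.nd (nat_lit 26) (.nd (nat_lit 31) (.nd (nat_lit 18) (.nd (nat_lit 6) (.nd (nat_lit 20) 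
(.lf (nat_lit 402898986) (dlOf (nat_lit 1) (nat_lit 0x200080a0a01))) 
(.lf (nat_lit 1343471658) (dlOf (nat_lit 2) (nat_lit 0x30538003811c0008804006c0018260781)))) 
(.nd (nat_lit 7) (.lf (nat_lit 1346618474) (dlOf (nat_lit 1) (nat_lit 0x2c0018fe2981))) 
(.lf (nat_lit 805552618) (dlOf (nat_lit 25) (nat_lit 0x10080009802200260070001a01800801080e3001c047200c025e00000019c200238108019c080081802203e900701800030069c008067600000033070022011000300380009408000c01c0004602005000e0002281000202100178088002801c0004206000a042038b007000104100a781080dfc04406d600e033400200ec80000007e1400a001c0003e02004c00e0001e8100c00288012812c0080084013e03a000118402d8028801d812c0ac0074021201a000110400190210000840804f014401c80740001e04021205100e101d00228068000380c00740a20001b02001e000000070100110000000300800a0000000160400500000000602002800000001010014000000004080348038000000400bc00400060008127302))))) 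
(.nd (nat_lit 9) (.nd (nat_lit 20) 
(.lf (nat_lit 1881653290) (dlOf (nat_lit 1) (nat_lit 0xe0018fa0301))) 
(.lf (nat_lit 1343733802) (dlOf (nat_lit 2) (nat_lit 0x4612500045818350780)))) 
(.lf (nat_lit 1342685738) (dlOf (nat_lit 1) (nat_lit 0x3e00080c0e81))))) (.nd (nat_lit 6) 
(.nd (nat_lit 10) (.nd (nat_lit 7) (.nd (nat_lit 9) 
(.lf (nat_lit 3492528170) (dlOf (nat_lit 1) (nat_lit 0x5600180d0a01))) 
(.lf (nat_lit 4026778154) (dlOf (nat_lit 1) (nat_lit 0x40008001400200120008090e83)))) 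
(.lf (nat_lit 3624386730) (dlOf (nat_lit 2) (nat_lit 0x20040004e7818184c00)))) (.nd (nat_lit 8) 
(.lf (nat_lit 3489909802) (dlOf (nat_lit 1) (nat_lit 0x20028006081))) 
(.lf (nat_lit 3490172202) (dlOf (nat_lit 1) (nat_lit 0x400200020008006802))))) (.nd (nat_lit 7) 
(.lf (nat_lit 3489910122) (dlOf (nat_lit 1) (nat_lit 0x4004000a0018006b02))) (.nd (nat_lit 8) 
(.lf (nat_lit 3490955498) (dlOf (nat_lit 1) (nat_lit 0xc00400080018046b82))) 
(.lf (nat_lit 4026778090) (dlOf (nat_lit 1) (nat_lit 0x3400200120008090d02))))))) (.nd (nat_lit 6) 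
(.nd (nat_lit 29) (.nd (nat_lit 9) (.nd (nat_lit 19) (.nd (nat_lit 18) 
(.lf (nat_lit 471056426) (dlOf (nat_lit 1) (nat_lit 0x8008000400200020008260783))) 
(.lf (nat_lit 1409794090) (dlOf (nat_lit 1) (nat_lit 0x400400020018090002)))) (.nd (nat_lit 31) 
(.lf (nat_lit 1410056234) (dlOf (nat_lit 2) (nat_lit 0x1c052000000180e0600))) 
(.lf (nat_lit 3557539882) (dlOf (nat_lit 1) (nat_lit 0x1ce0018260701))))) (.nd (nat_lit 7) 
(.lf (nat_lit 470270506) (dlOf (nat_lit 1) (nat_lit 0x3e00080c0e81))) 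
(.lf (nat_lit 3557021610) (dlOf (nat_lit 1) (nat_lit 0x2000812a381))))) (.nd (nat_lit 32) 
(.nd (nat_lit 18) (.lf (nat_lit 1946402858) (dlOf (nat_lit 1) (nat_lit 0x20028070881))) 
(.lf (nat_lit 4095197226) (dlOf (nat_lit 1) (nat_lit 0x20018070401)))) (.nd (nat_lit 8) 
(.lf (nat_lit 5301846058) (dlOf (nat_lit 2) (nat_lit 0x10098003004000064080024004004600180a0a02))) 
(.lf (nat_lit 6241372970) (dlOf (nat_lit 1) (nat_lit 0x200180d5c01)))))) (.nd (nat_lit 7) 
(.nd (nat_lit 21) (.nd (nat_lit 9) 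
(.lf (nat_lit 3557021802) (dlOf (nat_lit 1) (nat_lit 0x40020004000812a882))) 
(.lf (nat_lit 5704500842) (dlOf (nat_lit 1) (nat_lit 0x4004001200080d3902)))) (.nd (nat_lit 18) 
(.lf (nat_lit 6378209386) (dlOf (nat_lit 1) (nat_lit 0x400400020008121e82))) 
(.lf (nat_lit 1009238122) (dlOf (nat_lit 1) (nat_lit 0x1e80080030002002800090a0a03))))) 
(.nd (nat_lit 8) (.nd (nat_lit 10) 
(.lf (nat_lit 3557021930) (dlOf (nat_lit 1) (nat_lit 0x200008008c002003e000812a903))) 
(.lf (nat_lit 872662250) (dlOf (nat_lit 1) (nat_lit 0x400400020008092e82)))) 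
(.lf (nat_lit 3557020138) (dlOf (nat_lit 1) (nat_lit 0x8008000400200020008128683)))))))))))

end

end Pool.Agent.Lib.MP_5854e1_co.Cz

namespace Pool.Agent.Lib.MP_5854e1_co.Cz

noncomputable section

noncomputable def tz173 : DT := (.nd (nat_lit 3) (.nd (nat_lit 18) (.nd (nat_lit 5) 
(.nd (nat_lit 16) (.nd (nat_lit 19) (.nd (nat_lit 30) (.nd (nat_lit 6) (.nd (nat_lit 28) 
(.nd (nat_lit 20) (.nd (nat_lit 7) (.nd (nat_lit 21) (.nd (nat_lit 26) 
(.lf (nat_lit 2147663875) (dlOf (nat_lit 1) (nat_lit 0x2d8002000400080c0002))) 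
(.lf (nat_lit 604160003) (dlOf (nat_lit 3) (nat_lit 0xa00f0006c07200420360047503000501f80237c08037000800e000200040008060003)))) 
(.lf (nat_lit 56803331) (dlOf (nat_lit 1) (nat_lit 0x400400020009760002)))) 
(.lf (nat_lit 183427) (dlOf (nat_lit 1) (nat_lit 0x20018006101)))) (.nd (nat_lit 8) 
(.nd (nat_lit 21) (.lf (nat_lit 26394627) (dlOf (nat_lit 2) (nat_lit 0x4c0a006c2018c40000))) 
(.lf (nat_lit 11714563) (dlOf (nat_lit 1) (nat_lit 0x1400286c0001)))) 
(.lf (nat_lit 28492035) (dlOf (nat_lit 1) (nat_lit 0x960018da0701))))) (.nd (nat_lit 8) 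
(.nd (nat_lit 9) (.nd (nat_lit 27) 
(.lf (nat_lit 2952970243) (dlOf (nat_lit 1) (nat_lit 0x800200080008060002))) 
(.lf (nat_lit 5234671619) (dlOf (nat_lit 2) (nat_lit 0x4405400ddc0200080008080001)))) 
(.lf (nat_lit 2483208707) (dlOf (nat_lit 1) (nat_lit 0x400400020008090d82)))) (.nd (nat_lit 7) 
(.lf (nat_lit 2617430787) (dlOf (nat_lit 1) (nat_lit 0x600280a8f81))) 
(.lf (nat_lit 939704707) (dlOf (nat_lit 1) (nat_lit 0x10008000800200040008155a83)))))) 
(.nd (nat_lit 7) (.nd (nat_lit 23) (.nd (nat_lit 9) (.nd (nat_lit 20) 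
(.lf (nat_lit 5301780547) (dlOf (nat_lit 1) (nat_lit 0x48004005a0008090002))) 
(.lf (nat_lit 18006083) (dlOf (nat_lit 1) (nat_lit 0x20004000a0008900e82)))) 
(.lf (nat_lit 186947) (dlOf (nat_lit 1) (nat_lit 0xfc00401fe000800b502)))) (.nd (nat_lit 8) 
(.nd (nat_lit 20) (.lf (nat_lit 25346115) (dlOf (nat_lit 1) (nat_lit 0x8008022000200fe0008bf0c03))) 
(.lf (nat_lit 43171907) (dlOf (nat_lit 2) (nat_lit 0x154ae00d9b8192a0000)))) 
(.lf (nat_lit 8570691) (dlOf (nat_lit 2) (nat_lit 0x2a918000d8080030008001400200160008513e03))))) 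
(.nd (nat_lit 20) (.nd (nat_lit 8) 
(.lf (nat_lit 183491) (dlOf (nat_lit 1) (nat_lit 0x260018006381))) 
(.lf (nat_lit 186307) (dlOf (nat_lit 4) (nat_lit 0x1d4fc00b01020014c17001953f002be81000229f8015e404005c0020002000800a602)))) 
(.nd (nat_lit 10) (.lf (nat_lit 28491971) (dlOf (nat_lit 1) (nat_lit 0x5a0028da0481))) 
(.lf (nat_lit 55755971) (dlOf (nat_lit 1) (nat_lit 0xc004001200096d2d02))))))) (.nd (nat_lit 7) 
(.nd (nat_lit 9) (.nd (nat_lit 26) (.nd (nat_lit 6) (.nd (nat_lit 10) 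
(.lf (nat_lit 1346551811) (dlOf (nat_lit 1) (nat_lit 0x380008fc0001))) 
(.lf (nat_lit 1610793987) (dlOf (nat_lit 1) (nat_lit 0x80028092881)))) 
(.lf (nat_lit 3624059203) (dlOf (nat_lit 1) (nat_lit 0x280080024002000e00080b0603)))) 
(.nd (nat_lit 6) (.nd (nat_lit 10) 
(.lf (nat_lit 1275248643) (dlOf (nat_lit 1) (nat_lit 0x2d8002000400080c0002))) 
(.lf (nat_lit 6241307651) (dlOf (nat_lit 1) (nat_lit 0x4002000200080d5f82)))) 
(.lf (nat_lit 5704433731) (dlOf (nat_lit 1) (nat_lit 0x20008080481))))) (.nd (nat_lit 10) 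
(.nd (nat_lit 6) 
(.lf (nat_lit 3624059395) (dlOf (nat_lit 5) (nat_lit 0x400e8006001000380000007d06000401d000300780058010001c0000007c08000c01d000b00200088000000ea0c003003a0022004000f0000001cc18016800800fc002004200080b0d83))) 
(.lf (nat_lit 3491938883) (dlOf (nat_lit 2) (nat_lit 0xc38e000240200020018091101)))) 
(.nd (nat_lit 8) 
(.lf (nat_lit 3422737923) (dlOf (nat_lit 1) (nat_lit 0x480080020002000c00080a9c03))) 
(.lf (nat_lit 5905762051) (dlOf (nat_lit 1) (nat_lit 0x20028143b81)))))) (.nd (nat_lit 10) 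
(.nd (nat_lit 27) (.nd (nat_lit 9) 
(.lf (nat_lit 3491938755) (dlOf (nat_lit 5) (nat_lit 0x68700000400400183800001f02000e1c00000f0100080e000000008002000801d0002001c0008090903))) 
(.lf (nat_lit 3221412803) (dlOf (nat_lit 19) (nat_lit 0x808e0020d02000404602440228067810c001c084001f508022a046033102280bc810c03d0084001f408003c046030e02280df010c031c084001f308014204602ff02280dd810c02f8084001f20800f004e0027026803200d40038c0c000c09c001c502018804e00c402680070810013815409dc0a204d604e02810268001012807c406a011803401d400f0007044000881340037e0400a009c001be02032004e01870268006f4100038158003c0640012011000dd0300030270006b80800e01380035604004009c001a702008004e000d301018102300000008028800801140020166000811be03)))) 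
(.nd (nat_lit 6) 
(.lf (nat_lit 1812119939) (dlOf (nat_lit 1) (nat_lit 0x10008000800200040008155a83))) 
(.lf (nat_lit 3624059075) (dlOf (nat_lit 2) (nat_lit 0x28000000340400a4002002e00080b0402))))) 
(.nd (nat_lit 8) (.nd (nat_lit 27) 
(.lf (nat_lit 1610794627) (dlOf (nat_lit 2) (nat_lit 0x680b40032057000c0028000bc180010008007400200a40008093a03))) 
(.lf (nat_lit 2013447811) (dlOf (nat_lit 1) (nat_lit 0x60028093a01)))) (.nd (nat_lit 12) 
(.lf (nat_lit 1543687555) (dlOf (nat_lit 2) (nat_lit 0x2f80640001a04005800400720018146c02))) 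
(.lf (nat_lit 3221413251) (dlOf (nat_lit 3) (nat_lit 0xc08c00060430033e82000401c0019f00801f800800a80020026000811c903)))))))) 
(.nd (nat_lit 21) (.nd (nat_lit 20) (.nd (nat_lit 27) (.nd (nat_lit 6) (.nd (nat_lit 7) 
(.lf (nat_lit 13287427) (dlOf (nat_lit 1) (nat_lit 0x400200020008710002))) 
(.lf (nat_lit 707971) (dlOf (nat_lit 1) (nat_lit 0x20018006c01)))) 
(.lf (nat_lit 1879752771) (dlOf (nat_lit 1) (nat_lit 0x20008370001)))) (.nd (nat_lit 26) 
(.lf (nat_lit 134922243) (dlOf (nat_lit 5) (nat_lit 0xa70098023680800d00ec00e2a04000c0760071402001403b003898180e0000))) 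
(.lf (nat_lit 202031107) (dlOf (nat_lit 5) (nat_lit 0xa70098035f80800d00ec0197e04000c07600cbd02001403b0065e0180e0000))))) 
(.nd (nat_lit 26) (.nd (nat_lit 25) (.nd (nat_lit 22) (.nd (nat_lit 23) 
(.lf (nat_lit 1753091) (dlOf (nat_lit 4) (nat_lit 0x7305c00314fc000ca6d00b4103000453f000629b402c4208002d82e0012a7e00035368057ec180438008142c002014c0008130003))) 
(.lf (nat_lit 10141699) (dlOf (nat_lit 1) (nat_lit 0x200285b0001)))) 
(.lf (nat_lit 22724611) (dlOf (nat_lit 1) (nat_lit 0x8008000400200020008b10003)))) (.nd (nat_lit 6) 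
(.lf (nat_lit 35308547) (dlOf (nat_lit 1) (nat_lit 0x20009012881))) 
(.lf (nat_lit 35310019) (dlOf (nat_lit 1) (nat_lit 0x40029014e81))))) (.nd (nat_lit 7) 
(.nd (nat_lit 6) 
(.lf (nat_lit 4095393795) (dlOf (nat_lit 1) (nat_lit 0x2d0008000c002004200080a0003))) 
(.lf (nat_lit 4095393859) (dlOf (nat_lit 1) (nat_lit 0x80080004002000200080a1803)))) 
(.nd (nat_lit 8) (.lf (nat_lit 6377095299) (dlOf (nat_lit 1) (nat_lit 0x8002000600080a2202))) 
(.lf (nat_lit 2753216899) (dlOf (nat_lit 2) (nat_lit 0x21f80064f818090780))))))) (.nd (nat_lit 6) 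
(.nd (nat_lit 20) (.nd (nat_lit 31) (.nd (nat_lit 7) 
(.lf (nat_lit 19578883) (dlOf (nat_lit 9) (nat_lit 0x14ab80011f580010ebe00bd506000695800033eb80011f58000ce6600bd40800028ea00013eb002f3c100011ccc0179c0400052b000067d700023eb00009ccc017921000052b000067d700023d6002f2018001256000051d400047d700023af802ef4200009d7c0175c040004004002a00189c0002))) 
(.lf (nat_lit 36358531) (dlOf (nat_lit 1) (nat_lit 0x20019074e81)))) (.nd (nat_lit 26) 
(.lf (nat_lit 3492462595) (dlOf (nat_lit 1) (nat_lit 0xf000800d0002006600080d0003))) 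
(.lf (nat_lit 2754265091) (dlOf (nat_lit 1) (nat_lit 0xf000800d0002006600080d0003))))) 
(.nd (nat_lit 7) (.nd (nat_lit 8) 
(.lf (nat_lit 8049155) (dlOf (nat_lit 1) (nat_lit 0x400200020008518682))) 
(.lf (nat_lit 473612547) (dlOf (nat_lit 1) (nat_lit 0xe0028f63581)))) (.nd (nat_lit 8) 
(.lf (nat_lit 8051843) (dlOf (nat_lit 1) (nat_lit 0x40020002000851c182))) 
(.lf (nat_lit 8044931) (dlOf (nat_lit 1) (nat_lit 0x8008001400200060008511003)))))) 
(.nd (nat_lit 7) (.nd (nat_lit 20) (.nd (nat_lit 26) 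
(.lf (nat_lit 1344979011) (dlOf (nat_lit 25) (nat_lit 0xd58580030029a049e0d9018206c00c78270064811a036a08c019903e80ab01f00049224014411a00a407d0012402013f0b0005e8364020c138028c08d00ed04600a381f4018c0f800ca0300012388001d046800281f40048a08014411a00a407d0010f820051046802881f4003f80800200fa001f80200a2160005304e002901f4003ee0c00c811a006807d000fa8202690b000fa85340a48138052808d0034046014d81f409600f8001202f000f80800510b000288270013c11a00a407d000f78400040000007a4080a6855804f428601be13b011e09c80d7033404a012c0256085012203a809201cc0038e2400282ac002e0750013039800718180098558002819a0004096002a03a801501cc0038a1401280ea001bf020192156004d0a18038825804d40ea026c073000de85003d03a802181cc003780800300fa001b702008e163007005e801800a4002a80c001017a00100290007a0200040c800460000001280800040fa000070200a208d005203e802581d4000000c0128004001000089a0602))) 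
(.lf (nat_lit 472563779) (dlOf (nat_lit 1) (nat_lit 0x1000080034002000600089c0603)))) 
(.nd (nat_lit 22) (.lf (nat_lit 45793347) (dlOf (nat_lit 2) (nat_lit 0x1361890011e019360600))) 
(.lf (nat_lit 8044611) (dlOf (nat_lit 1) (nat_lit 0x80018510001))))) (.nd (nat_lit 8) 
(.lf (nat_lit 4096442563) (dlOf (nat_lit 1) (nat_lit 0x40018111701))) (.nd (nat_lit 12) 
(.lf (nat_lit 23773635) (dlOf (nat_lit 4) (nat_lit 0x1d60200051020002b010001b8100095808000d4080010008002400200160008b80903))) 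
(.lf (nat_lit 8049091) (dlOf (nat_lit 1) (nat_lit 0x5c0008034c00200d00008518683))))))))) 
(.nd (nat_lit 28) (.nd (nat_lit 20) (.nd (nat_lit 29) (.nd (nat_lit 6) (.nd (nat_lit 9) 
(.nd (nat_lit 10) (.nd (nat_lit 19) 
(.lf (nat_lit 63160323) (dlOf (nat_lit 1) (nat_lit 0x20002001400099e0002))) 
(.lf (nat_lit 15450115) (dlOf (nat_lit 5) (nat_lit 0x52b000028ea00013eb802f5018001256000111d400047d700023d600009d7c0004e6600bc80c00067d60001399002ef410001a55c0175a040014002001e00087f0002)))) 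
(.lf (nat_lit 55297027) (dlOf (nat_lit 1) (nat_lit 0x4004000200096d2882)))) (.nd (nat_lit 7) 
(.lf (nat_lit 2343427) (dlOf (nat_lit 1) (nat_lit 0x18008000c00200020008150d83))) 
(.lf (nat_lit 61589123) (dlOf (nat_lit 1) (nat_lit 0x400200020009923a02))))) (.nd (nat_lit 7) 
(.nd (nat_lit 26) (.lf (nat_lit 134463555) (dlOf (nat_lit 1) (nat_lit 0x100028030e01))) 
(.lf (nat_lit 201572419) (dlOf (nat_lit 1) (nat_lit 0x100028030e01)))) (.nd (nat_lit 21) 
(.lf (nat_lit 42190019) (dlOf (nat_lit 1) (nat_lit 0x20019242d01))) 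
(.lf (nat_lit 61064387) (dlOf (nat_lit 3) (nat_lit 0x667d0001281001a33e8000939800046080054004000800098c2d02)))))) 
(.nd (nat_lit 31) (.nd (nat_lit 26) (.nd (nat_lit 9) 
(.lf (nat_lit 537640963) (dlOf (nat_lit 1) (nat_lit 0xb80080050002003e00080e0003))) 
(.lf (nat_lit 671334915) (dlOf (nat_lit 1) (nat_lit 0x120018157f81)))) (.nd (nat_lit 7) 
(.lf (nat_lit 1812185091) (dlOf (nat_lit 1) (nat_lit 0x1a8008017c002007e0008170003))) 
(.lf (nat_lit 1677967747) (dlOf (nat_lit 3) (nat_lit 0x3406a004a602001801b0021f818125a80))))) 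
(.nd (nat_lit 6) (.nd (nat_lit 10) 
(.lf (nat_lit 2755903491) (dlOf (nat_lit 4) (nat_lit 0x502a0003014c00200a201da506000e04500ed181000302280750808011800800c0002003a00081b0003))) 
(.lf (nat_lit 2751710211) (dlOf (nat_lit 1) (nat_lit 0x20008002881)))) 
(.lf (nat_lit 2754330691) (dlOf (nat_lit 5) (nat_lit 0x10f38001780800287f4000ba0400143fa0005b0200881fd003b0f38000881000c80080010002002c00080d0c03)))))) 
(.nd (nat_lit 19) (.nd (nat_lit 21) (.nd (nat_lit 6) (.nd (nat_lit 7) 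
(.lf (nat_lit 26460163) (dlOf (nat_lit 1) (nat_lit 0x8008000c00200020008c50003))) 
(.lf (nat_lit 9683331) (dlOf (nat_lit 1) (nat_lit 0x20028575a81)))) 
(.lf (nat_lit 1294659) (dlOf (nat_lit 1) (nat_lit 0xc00280a4c01)))) (.nd (nat_lit 9) 
(.nd (nat_lit 22) (.lf (nat_lit 62111747) (dlOf (nat_lit 1) (nat_lit 0x400200020009950002))) 
(.lf (nat_lit 24363011) (dlOf (nat_lit 1) (nat_lit 0x400200020008b90002)))) (.nd (nat_lit 6) 
(.lf (nat_lit 41140739) (dlOf (nat_lit 1) (nat_lit 0x20019227b01))) 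
(.lf (nat_lit 20173507) (dlOf (nat_lit 1) (nat_lit 0x4002000200089d8c82)))))) (.nd (nat_lit 6) 
(.nd (nat_lit 21) (.nd (nat_lit 22) 
(.lf (nat_lit 18595843) (dlOf (nat_lit 1) (nat_lit 0x2800800dc002003e0008950003))) 
(.lf (nat_lit 22790147) (dlOf (nat_lit 2) (nat_lit 0x756e001bbc0800180080014002000c0008b20003)))) 
(.lf (nat_lit 29081603) (dlOf (nat_lit 1) (nat_lit 0x600008dc0001)))) (.nd (nat_lit 11) 
(.lf (nat_lit 29081667) (dlOf (nat_lit 1) (nat_lit 0x20028dc0e81))) 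
(.lf (nat_lit 8112195) (dlOf (nat_lit 1) (nat_lit 0x260028514701))))))) (.nd (nat_lit 6) 
(.nd (nat_lit 30) (.nd (nat_lit 29) (.nd (nat_lit 7) (.nd (nat_lit 27) 
(.lf (nat_lit 4563648515) (dlOf (nat_lit 5) (nat_lit 0x400680024032001100f800880540347610003c068001e032000e00f8002805403472100088068003a032001d00f800f00540058024019dc0a000c032000900f8067681004880080048002006c00080b0003))) 
(.lf (nat_lit 4697866243) (dlOf (nat_lit 5) (nat_lit 0x400680024032001100f8008805403b4010003c068001e032000e00f8002805403b3c100088068003a032001d00f800f0054005802401d430a000c032000900f8074fc1004880080048002006c00080b0003)))) 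
(.lf (nat_lit 4764976771) (dlOf (nat_lit 1) (nat_lit 0x60008006400200180008093a03)))) 
(.nd (nat_lit 7) (.nd (nat_lit 9) 
(.lf (nat_lit 939769859) (dlOf (nat_lit 1) (nat_lit 0x1a8008017c002007e0008170003))) 
(.lf (nat_lit 5234738691) (dlOf (nat_lit 1) (nat_lit 0x4004000200180d3682)))) 
(.lf (nat_lit 805552515) (dlOf (nat_lit 3) (nat_lit 0x3406a00a3b02001801b004ea018125a80))))) 
(.nd (nat_lit 10) (.nd (nat_lit 31) (.nd (nat_lit 21) 
(.lf (nat_lit 1410056195) (dlOf (nat_lit 1) (nat_lit 0xb80080050002003e00080e0003))) 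
(.lf (nat_lit 1345044483) (dlOf (nat_lit 1) (nat_lit 0xe80080010002000200089d0003)))) 
(.nd (nat_lit 29) 
(.lf (nat_lit 3557539843) (dlOf (nat_lit 1) (nat_lit 0x48008003000200020008260003))) 
(.lf (nat_lit 4094410755) (dlOf (nat_lit 1) (nat_lit 0x20018050001))))) (.nd (nat_lit 26) 
(.lf (nat_lit 6174262275) (dlOf (nat_lit 1) (nat_lit 0x4004000200080d2882))) 
(.lf (nat_lit 5704500227) (dlOf (nat_lit 1) (nat_lit 0x4004000200080d2882)))))) (.nd (nat_lit 27) 
(.nd (nat_lit 29) (.nd (nat_lit 7) (.nd (nat_lit 9) 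
(.lf (nat_lit 3492528195) (dlOf (nat_lit 5) (nat_lit 0x10e90001780800287ac000ba0400143d60005b0200881eb003b0e90000881000c80080010002002c00080d0c03))) 
(.lf (nat_lit 5704500803) (dlOf (nat_lit 1) (nat_lit 0x200280d3801)))) 
(.lf (nat_lit 3557022147) (dlOf (nat_lit 1) (nat_lit 0x18004000c000812af82)))) (.nd (nat_lit 7) 
(.nd (nat_lit 8) (.lf (nat_lit 6174262851) (dlOf (nat_lit 1) (nat_lit 0x4004000200080d3802))) 
(.lf (nat_lit 4094411075) (dlOf (nat_lit 1) (nat_lit 0x1000400fc0008050c02)))) 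
(.lf (nat_lit 3020144835) (dlOf (nat_lit 1) (nat_lit 0x20018130401))))) (.nd (nat_lit 7) 
(.nd (nat_lit 19) (.nd (nat_lit 21) 
(.lf (nat_lit 402899267) (dlOf (nat_lit 1) (nat_lit 0x4004000200080a5f82))) 
(.lf (nat_lit 1008976195) (dlOf (nat_lit 5) (nat_lit 0x280c8000270200100640000481000403200001408001019000000040010004001a0019000c02)))) 
(.lf (nat_lit 6376112451) (dlOf (nat_lit 8) (nat_lit 0xc276001611000016020009088000380000005608002c2200002a02001611000010000000a41000884400004000000050400161100000101000f088000300000000008000400400040018090c02)))) 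
(.nd (nat_lit 11) 
(.lf (nat_lit 5772132803) (dlOf (nat_lit 2) (nat_lit 0xc144002208e0000e0100050008000c002001a0008091083))) 
(.lf (nat_lit 1008978371) (dlOf (nat_lit 1) (nat_lit 0x100009004e81))))))))) (.nd (nat_lit 21) 
(.nd (nat_lit 29) (.nd (nat_lit 16) (.nd (nat_lit 8) (.nd (nat_lit 19) (.nd (nat_lit 12) 
(.nd (nat_lit 22) (.lf (nat_lit 470990883) (dlOf (nat_lit 1) (nat_lit 0x400200020008230582))) 
(.lf (nat_lit 22200355) (dlOf (nat_lit 4) (nat_lit 0x7d5e000b4d20000a410006269000050040015348000270200680018aa0c01)))) 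
(.nd (nat_lit 7) 
(.lf (nat_lit 186403) (dlOf (nat_lit 3) (nat_lit 0x1035c00a940400081ae00543020004001800a601))) 
(.lf (nat_lit 2281886883) (dlOf (nat_lit 1) (nat_lit 0x9c002000400080a9502))))) (.nd (nat_lit 20) 
(.nd (nat_lit 6) (.nd (nat_lit 26) 
(.lf (nat_lit 1342881827) (dlOf (nat_lit 1) (nat_lit 0x20028100b81))) 
(.lf (nat_lit 3557474339) (dlOf (nat_lit 3) (nat_lit 0x800c0060a8100020248029b00800300080024002000c0008220683)))) 
(.lf (nat_lit 30064739) (dlOf (nat_lit 1) (nat_lit 0x400400020008e30482)))) (.nd (nat_lit 7) 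
(.lf (nat_lit 10141731) (dlOf (nat_lit 1) (nat_lit 0x200285b0481))) 
(.lf (nat_lit 60473507) (dlOf (nat_lit 1) (nat_lit 0x20008000400200040009871403)))))) 
(.nd (nat_lit 6) (.nd (nat_lit 7) 
(.lf (nat_lit 3489844515) (dlOf (nat_lit 1) (nat_lit 0x20008006801))) (.nd (nat_lit 26) 
(.lf (nat_lit 182691) (dlOf (nat_lit 1) (nat_lit 0x400400040008004e82))) 
(.lf (nat_lit 5436000675) (dlOf (nat_lit 2) (nat_lit 0x8004401b1c040030004000e0008094e82))))) 
(.nd (nat_lit 11) (.nd (nat_lit 27) 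
(.lf (nat_lit 4295147875) (dlOf (nat_lit 1) (nat_lit 0x180018090701))) 
(.lf (nat_lit 4429365603) (dlOf (nat_lit 1) (nat_lit 0x180018090701)))) (.nd (nat_lit 9) 
(.lf (nat_lit 3489843555) (dlOf (nat_lit 1) (nat_lit 0x1000200020008004e82))) 
(.lf (nat_lit 3221412707) (dlOf (nat_lit 1) (nat_lit 0x180080044002001c000811bc83))))))) 
(.nd (nat_lit 7) (.nd (nat_lit 26) (.nd (nat_lit 23) (.nd (nat_lit 6) (.nd (nat_lit 28) 
(.lf (nat_lit 134463523) (dlOf (nat_lit 1) (nat_lit 0x800400240008030982))) 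
(.lf (nat_lit 1476640803) (dlOf (nat_lit 1) (nat_lit 0x200080c0681)))) 
(.lf (nat_lit 3624126819) (dlOf (nat_lit 1) (nat_lit 0x20018144e81)))) (.nd (nat_lit 20) 
(.lf (nat_lit 25411619) (dlOf (nat_lit 1) (nat_lit 0x40028c00481))) 
(.lf (nat_lit 26460195) (dlOf (nat_lit 2) (nat_lit 0x2e6560001d0200040028c50181))))) 
(.nd (nat_lit 6) (.nd (nat_lit 27) 
(.lf (nat_lit 4362321955) (dlOf (nat_lit 1) (nat_lit 0x4004001a0018020502))) 
(.lf (nat_lit 201572387) (dlOf (nat_lit 1) (nat_lit 0x800400240008030982)))) 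
(.lf (nat_lit 1543749987) (dlOf (nat_lit 1) (nat_lit 0x80008000800200360008154f03))))) 
(.nd (nat_lit 6) (.nd (nat_lit 12) (.nd (nat_lit 19) 
(.lf (nat_lit 58967203) (dlOf (nat_lit 1) (nat_lit 0x5c004000400197e2c02))) 
(.lf (nat_lit 55297187) (dlOf (nat_lit 1) (nat_lit 0x4004000200096d2c02)))) 
(.lf (nat_lit 67884195) (dlOf (nat_lit 1) (nat_lit 0x400400020008339502)))) (.nd (nat_lit 8) 
(.lf (nat_lit 5704500451) (dlOf (nat_lit 1) (nat_lit 0x4002000200080d2e02))) (.nd (nat_lit 9) 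
(.lf (nat_lit 4496542179) (dlOf (nat_lit 1) (nat_lit 0x80080030002000c00080e4e83))) 
(.lf (nat_lit 6711133155) (dlOf (nat_lit 1) (nat_lit 0x400400020008092882)))))))) (.nd (nat_lit 6) 
(.nd (nat_lit 8) (.nd (nat_lit 32) (.nd (nat_lit 9) (.nd (nat_lit 16) 
(.lf (nat_lit 1879228451) (dlOf (nat_lit 1) (nat_lit 0x200180b0881))) 
(.lf (nat_lit 4228104227) (dlOf (nat_lit 1) (nat_lit 0x4004001a0018020502)))) 
(.lf (nat_lit 805490211) (dlOf (nat_lit 1) (nat_lit 0x180018117181)))) (.nd (nat_lit 26) 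
(.nd (nat_lit 27) 
(.lf (nat_lit 4832018467) (dlOf (nat_lit 1) (nat_lit 0x800800f400200420008090183))) 
(.lf (nat_lit 5234671651) (dlOf (nat_lit 4) (nat_lit 0x7c02f0046016002080a40008c0c01d806400da031007e017803680b001d4052003a00400022860003016801500a800fc046000380600840028080181)))) 
(.lf (nat_lit 4899127331) (dlOf (nat_lit 3) (nat_lit 0x4a01c00070000001141000180640008604000400200040008080182))))) 
(.nd (nat_lit 7) (.nd (nat_lit 9) (.nd (nat_lit 11) 
(.lf (nat_lit 2755838243) (dlOf (nat_lit 1) (nat_lit 0x1c00281b0501))) 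
(.lf (nat_lit 2751650083) (dlOf (nat_lit 1) (nat_lit 0xe002800ab81)))) 
(.lf (nat_lit 2684539683) (dlOf (nat_lit 1) (nat_lit 0x200080008002000800080a8f83)))) 
(.nd (nat_lit 9) 
(.lf (nat_lit 738380195) (dlOf (nat_lit 1) (nat_lit 0x40008000400200020008094e83))) 
(.lf (nat_lit 2885928867) (dlOf (nat_lit 1) (nat_lit 0x20018144301)))))) (.nd (nat_lit 8) 
(.nd (nat_lit 7) (.nd (nat_lit 9) (.nd (nat_lit 10) 
(.lf (nat_lit 4095459427) (dlOf (nat_lit 1) (nat_lit 0x4004000200080c1d02))) 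
(.lf (nat_lit 3020084323) (dlOf (nat_lit 3) (nat_lit 0x3405c000200200840270000e018129400)))) 
(.lf (nat_lit 2013447779) (dlOf (nat_lit 1) (nat_lit 0x60028093901)))) (.nd (nat_lit 9) 
(.lf (nat_lit 5234738403) (dlOf (nat_lit 1) (nat_lit 0x28004001e00180d2e02))) (.nd (nat_lit 11) 
(.lf (nat_lit 2818822883) (dlOf (nat_lit 1) (nat_lit 0x330008017000200720008128c83))) 
(.lf (nat_lit 3154303715) (dlOf (nat_lit 1) (nat_lit 0x8001815b981)))))) (.nd (nat_lit 11) 
(.nd (nat_lit 9) (.nd (nat_lit 16) 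
(.lf (nat_lit 4228039139) (dlOf (nat_lit 2) (nat_lit 0x2802a0001f818017300))) 
(.lf (nat_lit 671334883) (dlOf (nat_lit 2) (nat_lit 0xe01700000018157d00)))) 
(.lf (nat_lit 671269859) (dlOf (nat_lit 1) (nat_lit 0x5d000801b800201500008142883)))) 
(.nd (nat_lit 7) (.lf (nat_lit 805490019) (dlOf (nat_lit 1) (nat_lit 0xc0018116a81))) 
(.lf (nat_lit 3959609827) (dlOf (nat_lit 2) (nat_lit 0x102180301008012800800480020040000811b283)))))))) 
(.nd (nat_lit 20) (.nd (nat_lit 16) (.nd (nat_lit 7) (.nd (nat_lit 6) (.nd (nat_lit 19) 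
(.lf (nat_lit 10666019) (dlOf (nat_lit 1) (nat_lit 0x20008001000200080008610903))) 
(.nd (nat_lit 26) 
(.lf (nat_lit 1344978979) (dlOf (nat_lit 7) (nat_lit 0x17a0b000890270068811a011008c01ca03e811381f000a8060000270e02b016000ea04e00b48234001c118035207d021903e003080c00004c1c03402c0008208d010503e808c01f00004a1004b02340001f0201b211a0000f0100820b00005023404b00fa026c07c000401800004828026000801fc002000200089a0183))) 
(.lf (nat_lit 472563747) (dlOf (nat_lit 4) (nat_lit 0x28c0fa012c07c0001382008303e803e01f00004c08001c0fa0001202000e00289c0181))))) 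
(.nd (nat_lit 19) (.lf (nat_lit 14860387) (dlOf (nat_lit 1) (nat_lit 0x400200020008790d02))) 
(.nd (nat_lit 26) 
(.lf (nat_lit 1344979043) (dlOf (nat_lit 3) (nat_lit 0x90ab0001850c002419a0012096000a042800481d4000c0e60002d0e0036156000e0a180218334008412c0046085002603a801301cc000561c01e8004008c00189a0902))) 
(.lf (nat_lit 472563811) (dlOf (nat_lit 3) (nat_lit 0x40e60002c02000407500010398000a81000a00080060002001000089c0903)))))) 
(.nd (nat_lit 19) (.nd (nat_lit 22) 
(.lf (nat_lit 60998819) (dlOf (nat_lit 1) (nat_lit 0x44002000800098c2c02))) 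
(.lf (nat_lit 31638691) (dlOf (nat_lit 1) (nat_lit 0x1c00200060008e92c02)))) (.nd (nat_lit 9) 
(.lf (nat_lit 36357283) (dlOf (nat_lit 1) (nat_lit 0x20019072c01))) 
(.lf (nat_lit 36358819) (dlOf (nat_lit 1) (nat_lit 0x8008000400200ec0009075603)))))) 
(.nd (nat_lit 19) (.nd (nat_lit 6) (.nd (nat_lit 7) (.nd (nat_lit 22) 
(.lf (nat_lit 27508771) (dlOf (nat_lit 3) (nat_lit 0x45198000840800228cc0003a04003800400040008cf0582))) 
(.lf (nat_lit 14925859) (dlOf (nat_lit 2) (nat_lit 0xc262800070080108008009000200040008790183)))) 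
(.lf (nat_lit 61064355) (dlOf (nat_lit 1) (nat_lit 0x80080004002000200098c2c03)))) (.nd (nat_lit 8) 
(.lf (nat_lit 44286051) (dlOf (nat_lit 1) (nat_lit 0x80080018002002a00092e0783))) 
(.lf (nat_lit 1008976227) (dlOf (nat_lit 1) (nat_lit 0x20019000e81))))) (.nd (nat_lit 31) 
(.nd (nat_lit 6) (.lf (nat_lit 2867235) (dlOf (nat_lit 1) (nat_lit 0x14002000200081c0902))) 
(.lf (nat_lit 36422627) (dlOf (nat_lit 1) (nat_lit 0x40019072881)))) (.nd (nat_lit 26) 
(.lf (nat_lit 3492528163) (dlOf (nat_lit 2) (nat_lit 0x4222000ae0180d0900))) 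
(.lf (nat_lit 2754330659) (dlOf (nat_lit 2) (nat_lit 0x4237000ab8180d0900))))))) (.nd (nat_lit 7) 
(.nd (nat_lit 22) (.nd (nat_lit 6) (.nd (nat_lit 10) (.nd (nat_lit 16) 
(.lf (nat_lit 45793315) (dlOf (nat_lit 2) (nat_lit 0x51862401bc0800003e04005e0029360181))) 
(.lf (nat_lit 3915811) (dlOf (nat_lit 7) (nat_lit 0x2956000149100005104000e5580004244000311c8000780c001cab0000648800072390000d81800195600018910000c4720001a8300032440000d00800300000000004000800400100018250b82)))) 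
(.lf (nat_lit 473678883) (dlOf (nat_lit 1) (nat_lit 0x20018fa2881)))) (.nd (nat_lit 8) 
(.lf (nat_lit 28557411) (dlOf (nat_lit 1) (nat_lit 0x800400020018da0482))) 
(.lf (nat_lit 37407075) (dlOf (nat_lit 1) (nat_lit 0x4004000200090d4e82))))) (.nd (nat_lit 6) 
(.nd (nat_lit 9) (.lf (nat_lit 24297507) (dlOf (nat_lit 1) (nat_lit 0x20018b90901))) 
(.nd (nat_lit 11) (.lf (nat_lit 8049187) (dlOf (nat_lit 1) (nat_lit 0xc00200040008518882))) 
(.lf (nat_lit 8051235) (dlOf (nat_lit 1) (nat_lit 0x180080018002000a000851b283))))) 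
(.nd (nat_lit 8) (.lf (nat_lit 24297571) (dlOf (nat_lit 1) (nat_lit 0x400200020008b91382))) 
(.lf (nat_lit 8048995) (dlOf (nat_lit 1) (nat_lit 0x18008001800200080008518383)))))) 
(.nd (nat_lit 9) (.nd (nat_lit 8) (.nd (nat_lit 10) 
(.lf (nat_lit 62111907) (dlOf (nat_lit 1) (nat_lit 0x20009951381))) 
(.lf (nat_lit 58442915) (dlOf (nat_lit 1) (nat_lit 0x4004000200097e2c02)))) (.nd (nat_lit 10) 
(.lf (nat_lit 37407139) (dlOf (nat_lit 1) (nat_lit 0x1000090d4e81))) 
(.lf (nat_lit 8045987) (dlOf (nat_lit 1) (nat_lit 0x20008513601))))) (.nd (nat_lit 16) 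
(.nd (nat_lit 6) (.nd (nat_lit 19) 
(.lf (nat_lit 36883107) (dlOf (nat_lit 1) (nat_lit 0xc00400020009075602))) 
(.lf (nat_lit 62573219) (dlOf (nat_lit 1) (nat_lit 0x200099a5601)))) 
(.lf (nat_lit 8049379) (dlOf (nat_lit 1) (nat_lit 0x8008000400200020008518c83)))) (.nd (nat_lit 10) 
(.lf (nat_lit 53725859) (dlOf (nat_lit 1) (nat_lit 0x200095f5601))) 
(.lf (nat_lit 2754858659) (dlOf (nat_lit 1) (nat_lit 0x200180f7201)))))))))) (.nd (nat_lit 5) 
(.nd (nat_lit 16) (.nd (nat_lit 6) (.nd (nat_lit 28) (.nd (nat_lit 21) (.nd (nat_lit 23) 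
(.nd (nat_lit 7) (.nd (nat_lit 22) 
(.lf (nat_lit 4362518531) (dlOf (nat_lit 1) (nat_lit 0x20018090001))) 
(.lf (nat_lit 21413891) (dlOf (nat_lit 1) (nat_lit 0xe0028a30001)))) 
(.lf (nat_lit 1678164355) (dlOf (nat_lit 2) (nat_lit 0x80420064f8181a0780)))) (.nd (nat_lit 7) 
(.nd (nat_lit 9) (.lf (nat_lit 26656771) (dlOf (nat_lit 1) (nat_lit 0x8008000400200020008c50003))) 
(.lf (nat_lit 8837635) (dlOf (nat_lit 1) (nat_lit 0x1c0020002000851b282)))) 
(.lf (nat_lit 8832643) (dlOf (nat_lit 1) (nat_lit 0x18004006a0018513a02))))) (.nd (nat_lit 7) 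
(.nd (nat_lit 22) (.nd (nat_lit 19) 
(.lf (nat_lit 44482563) (dlOf (nat_lit 1) (nat_lit 0x40009320001))) 
(.lf (nat_lit 12500995) (dlOf (nat_lit 1) (nat_lit 0x4004000200086d0002)))) (.nd (nat_lit 8) 
(.lf (nat_lit 40289283) (dlOf (nat_lit 1) (nat_lit 0x600291f2881))) 
(.lf (nat_lit 57068291) (dlOf (nat_lit 2) (nat_lit 0x638c80199bf70090da5801ee2340682fc2030d7cd00018869795a80))))) 
(.nd (nat_lit 8) (.nd (nat_lit 10) 
(.lf (nat_lit 19841667) (dlOf (nat_lit 1) (nat_lit 0x7600189d1981))) 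
(.lf (nat_lit 19846787) (dlOf (nat_lit 1) (nat_lit 0x4004000200089d9d82)))) 
(.lf (nat_lit 2755051907) (dlOf (nat_lit 1) (nat_lit 0x58008003400200180008105a83)))))) 
(.nd (nat_lit 26) (.nd (nat_lit 7) (.nd (nat_lit 8) (.nd (nat_lit 22) 
(.lf (nat_lit 5637586947) (dlOf (nat_lit 3) (nat_lit 0x1001a001600000e8f820004006804994080008008009c00200340008110003))) 
(.lf (nat_lit 1346813955) (dlOf (nat_lit 1) (nat_lit 0x400200020009020002)))) 
(.lf (nat_lit 5772330243) (dlOf (nat_lit 1) (nat_lit 0x8008000400200020008092f03)))) 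
(.nd (nat_lit 8) (.lf (nat_lit 5773377667) (dlOf (nat_lit 1) (nat_lit 0x200280c0e01))) 
(.nd (nat_lit 10) 
(.lf (nat_lit 3493249411) (dlOf (nat_lit 1) (nat_lit 0x58008003400200180008105a83))) 
(.lf (nat_lit 3490106755) (dlOf (nat_lit 2) (nat_lit 0x40a100006818006c00)))))) (.nd (nat_lit 19) 
(.nd (nat_lit 29) (.lf (nat_lit 3557212163) (dlOf (nat_lit 1) (nat_lit 0x20028170001))) 
(.nd (nat_lit 30) 
(.lf (nat_lit 3020341251) (dlOf (nat_lit 2) (nat_lit 0x401d802c34080060008008c00200060008260003))) 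
(.lf (nat_lit 6241566723) (dlOf (nat_lit 3) (nat_lit 0x1001a001600000ce20200040068047dc080008008009c00200340008110003))))) 
(.nd (nat_lit 9) 
(.lf (nat_lit 471777283) (dlOf (nat_lit 1) (nat_lit 0x18008000c00200040008490003))) 
(.lf (nat_lit 1410253315) (dlOf (nat_lit 9) (nat_lit 0x330158036808c017404000d401d000a6840020015800380000028608000405600080000009c820021039001680ac0084050000c02200010000003642800580ac001b0040068056000ce02002002b000668100200158003300801200080048002002e00081b0d83))))))) 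
(.nd (nat_lit 26) (.nd (nat_lit 21) (.nd (nat_lit 20) (.nd (nat_lit 22) 
(.lf (nat_lit 59686979) (dlOf (nat_lit 1) (nat_lit 0x800200040009820602))) 
(.lf (nat_lit 13549635) (dlOf (nat_lit 1) (nat_lit 0x400201120008730c02)))) (.nd (nat_lit 7) 
(.nd (nat_lit 19) (.lf (nat_lit 35045443) (dlOf (nat_lit 1) (nat_lit 0x400400020008fd0602))) 
(.lf (nat_lit 52346947) (dlOf (nat_lit 1) (nat_lit 0x8008000400200020009530603)))) 
(.lf (nat_lit 3491676611) (dlOf (nat_lit 9) (nat_lit 0xc2070001381000610380009808005081c0004804001840e000220200221c000020df000106a4000400c002c3800001f02000c1c00000f0100110e000000008027800801c400200260008090903))))) 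
(.nd (nat_lit 7) (.nd (nat_lit 8) (.nd (nat_lit 10) 
(.lf (nat_lit 3493773379) (dlOf (nat_lit 1) (nat_lit 0x8004000200181b0002))) 
(.lf (nat_lit 57066563) (dlOf (nat_lit 1) (nat_lit 0x8008000c00200020009792883)))) 
(.lf (nat_lit 1881590595) (dlOf (nat_lit 1) (nat_lit 0x20018f65c01)))) (.nd (nat_lit 8) 
(.lf (nat_lit 41862339) (dlOf (nat_lit 1) (nat_lit 0x400200020009242d02))) 
(.lf (nat_lit 8308675) (dlOf (nat_lit 1) (nat_lit 0x70008001c00200060008514403)))))) 
(.nd (nat_lit 8) (.nd (nat_lit 19) (.nd (nat_lit 27) (.nd (nat_lit 28) 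
(.lf (nat_lit 1678164035) (dlOf (nat_lit 1) (nat_lit 0x200281a0001))) 
(.lf (nat_lit 3557212227) (dlOf (nat_lit 1) (nat_lit 0x400200020008170582)))) 
(.lf (nat_lit 3959865411) (dlOf (nat_lit 3) (nat_lit 0x1010000fb604002c05e007c70200020018170001)))) 
(.nd (nat_lit 7) 
(.lf (nat_lit 473874499) (dlOf (nat_lit 2) (nat_lit 0x340a6804103640048e08001000400040018fc0602))) 
(.lf (nat_lit 1410252995) (dlOf (nat_lit 3) (nat_lit 0x503800009c08002000000034040028004000c00081b0402))))) 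
(.nd (nat_lit 10) (.nd (nat_lit 7) 
(.lf (nat_lit 1410253123) (dlOf (nat_lit 3) (nat_lit 0x190000001180800200000008a04004c004000400181b0602))) 
(.lf (nat_lit 2753479107) (dlOf (nat_lit 9) (nat_lit 0xc21c0001381000610e00009808005087000048040018438000220200221d200020e8000106f8000400c002c3a40001f02000c1d20000f0100110e900000008027800801c400200260008090903)))) 
(.nd (nat_lit 9) (.lf (nat_lit 872858947) (dlOf (nat_lit 1) (nat_lit 0x4004000400080e3302))) 
(.lf (nat_lit 2751907651) (dlOf (nat_lit 1) (nat_lit 0x400400020008003e02)))))))) (.nd (nat_lit 19) 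
(.nd (nat_lit 6) (.nd (nat_lit 28) (.nd (nat_lit 7) (.nd (nat_lit 24) (.nd (nat_lit 21) 
(.nd (nat_lit 27) (.nd (nat_lit 22) 
(.lf (nat_lit 3758604291) (dlOf (nat_lit 4) (nat_lit 0x20300031f8100030180018f00800180c000c6604000400400120018310002))) 
(.lf (nat_lit 4702211) (dlOf (nat_lit 1) (nat_lit 0x80080004002000200082b0003)))) (.nd (nat_lit 9) 
(.lf (nat_lit 2819080195) (dlOf (nat_lit 2) (nat_lit 0x2006a00000018190000))) 
(.lf (nat_lit 201835011) (dlOf (nat_lit 7) (nat_lit 0x36020800600fc00a807a00169060062041000201e8000a41001581040003a0400ac082001a03d0000e02002b02080006c080180104000340400b8004004c0008090d82))))) 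
(.nd (nat_lit 20) 
(.lf (nat_lit 10993667) (dlOf (nat_lit 5) (nat_lit 0xc95100064a400031f400018eb00169508000a95100064a400011f400018eb00169408000c95100064a400031f400018eb00169208000a95100064a400029f400018eb0016910800060018650001))) 
(.lf (nat_lit 3653635) (dlOf (nat_lit 5) (nat_lit 0x5da90001ed28002f67c0013a84005ee080007da90003ed28003f67c001ba84005ed08000bda90001ed28005767c002ba84005ec08000fda90008ed28004f67c0027a84005e90800160018210001))))) 
(.nd (nat_lit 20) (.nd (nat_lit 9) 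
(.lf (nat_lit 55033859) (dlOf (nat_lit 1) (nat_lit 0x20019690001))) 
(.lf (nat_lit 61326851) (dlOf (nat_lit 1) (nat_lit 0x420009923681)))) (.nd (nat_lit 22) 
(.lf (nat_lit 26722307) (dlOf (nat_lit 2) (nat_lit 0x4c1e0046f818c60000))) 
(.lf (nat_lit 22528003) (dlOf (nat_lit 1) (nat_lit 0x8008006c00200020008af0003)))))) 
(.nd (nat_lit 10) (.nd (nat_lit 26) 
(.lf (nat_lit 134725763) (dlOf (nat_lit 9) (nat_lit 0xc80940004b02017004a0002501001b0250001240804c00ec0008c0402440940003d0200d204a0001d0100940250000e00801700000006204011800400f40018090102))) 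
(.nd (nat_lit 27) (.lf (nat_lit 4362584195) (dlOf (nat_lit 1) (nat_lit 0x1000200140008090102))) 
(.lf (nat_lit 201834627) (dlOf (nat_lit 9) (nat_lit 0xc80940004b02017004a0002501001b0250001240804c00ec0008c0402440940003d0200d204a0001d0100940250000e00801700000006204011800400f40018090102))))) 
(.nd (nat_lit 9) (.lf (nat_lit 515203) (dlOf (nat_lit 1) (nat_lit 0x800800040020002000800c183))) 
(.lf (nat_lit 1074253443) (dlOf (nat_lit 1) (nat_lit 0x18008000c002000600080f7183)))))) 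
(.nd (nat_lit 26) (.nd (nat_lit 21) (.nd (nat_lit 7) 
(.lf (nat_lit 4027039747) (dlOf (nat_lit 1) (nat_lit 0x200281b0001))) 
(.lf (nat_lit 1342685571) (dlOf (nat_lit 1) (nat_lit 0x200180c0781)))) (.nd (nat_lit 10) 
(.lf (nat_lit 1881653251) (dlOf (nat_lit 1) (nat_lit 0x1b20008fa0001))) 
(.lf (nat_lit 1344783363) (dlOf (nat_lit 1) (nat_lit 0x1800400040008982882))))) (.nd (nat_lit 7) 
(.nd (nat_lit 27) 
(.lf (nat_lit 3020406787) (dlOf (nat_lit 4) (nat_lit 0x2030005ea010003018002f3c0800180c00179004000400400120018310002))) 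
(.nd (nat_lit 31) 
(.lf (nat_lit 1007140867) (dlOf (nat_lit 1) (nat_lit 0x200080138002019400081c0003))) 
(.lf (nat_lit 3154624515) (dlOf (nat_lit 1) (nat_lit 0x4004001000182d0002))))) 
(.lf (nat_lit 4228366467) (dlOf (nat_lit 1) (nat_lit 0x1000200140008090102)))))) (.nd (nat_lit 23) 
(.nd (nat_lit 8) (.nd (nat_lit 21) (.nd (nat_lit 22) 
(.lf (nat_lit 134725699) (dlOf (nat_lit 1) (nat_lit 0x20028090001))) 
(.lf (nat_lit 21479491) (dlOf (nat_lit 1) (nat_lit 0x8008000400200020008a40483)))) 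
(.lf (nat_lit 69713987) (dlOf (nat_lit 1) (nat_lit 0x10008000400200020008bd0603)))) 
(.nd (nat_lit 7) (.nd (nat_lit 9) 
(.lf (nat_lit 3624386883) (dlOf (nat_lit 1) (nat_lit 0x800200040008187f02))) 
(.lf (nat_lit 509763) (dlOf (nat_lit 2) (nat_lit 0x380000001b018003e00)))) 
(.lf (nat_lit 1345831363) (dlOf (nat_lit 1) (nat_lit 0x20028e07001))))) (.nd (nat_lit 9) 
(.nd (nat_lit 10) 
(.lf (nat_lit 9945155) (dlOf (nat_lit 5) (nat_lit 0x3075800043a600061ca0008f8300050eb000107280023c0800283ac00061ca0008e8200070eb0002872800238080004002002a0008591782))) 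
(.lf (nat_lit 43500611) (dlOf (nat_lit 1) (nat_lit 0x100080004002000200092a2883)))) 
(.nd (nat_lit 7) (.lf (nat_lit 8898115) (dlOf (nat_lit 1) (nat_lit 0x20008000800200040008513803))) 
(.lf (nat_lit 8901315) (dlOf (nat_lit 2) (nat_lit 0x31d100094e04004000400020008518c82))))))) 
(.nd (nat_lit 20) (.nd (nat_lit 21) (.nd (nat_lit 26) (.nd (nat_lit 6) 
(.lf (nat_lit 17809411) (dlOf (nat_lit 1) (nat_lit 0x200288f0001))) 
(.lf (nat_lit 13615171) (dlOf (nat_lit 1) (nat_lit 0x8008003c00200020008730c03)))) (.nd (nat_lit 7) 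
(.lf (nat_lit 68141059) (dlOf (nat_lit 1) (nat_lit 0xdc00201960008400002))) 
(.lf (nat_lit 6376376963) (dlOf (nat_lit 1) (nat_lit 0x400200020008095482))))) (.nd (nat_lit 6) 
(.nd (nat_lit 8) (.nd (nat_lit 22) 
(.lf (nat_lit 11517955) (dlOf (nat_lit 2) (nat_lit 0x10ae80168302000800186b0001))) 
(.lf (nat_lit 15712259) (dlOf (nat_lit 1) (nat_lit 0x800400020018820002)))) 
(.lf (nat_lit 19912963) (dlOf (nat_lit 1) (nat_lit 0x200289da981)))) (.nd (nat_lit 7) 
(.lf (nat_lit 24101443) (dlOf (nat_lit 1) (nat_lit 0x400200020008b81102))) 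
(.lf (nat_lit 19911363) (dlOf (nat_lit 1) (nat_lit 0x80080004002000200089d8c83)))))) 
(.nd (nat_lit 28) (.nd (nat_lit 6) (.nd (nat_lit 7) 
(.lf (nat_lit 2753544707) (dlOf (nat_lit 1) (nat_lit 0x20028090d81))) 
(.lf (nat_lit 2753544323) (dlOf (nat_lit 1) (nat_lit 0x30008000400200020008090103)))) 
(.lf (nat_lit 52412483) (dlOf (nat_lit 2) (nat_lit 0x319d2001540200020009530601)))) 
(.nd (nat_lit 7) (.nd (nat_lit 8) 
(.lf (nat_lit 473939971) (dlOf (nat_lit 12) (nat_lit 0x1b8560010019e0089904006e1580044b8100380ac002b833c011120800542b000825020016158004120100270ac00208c080008560002c19e00821040022158000506780207c1001c05600103a0400e02b00081c0200741580043067801ff4100220008008c00200a20008fc0003))) 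
(.lf (nat_lit 471843075) (dlOf (nat_lit 1) (nat_lit 0x10008000400200020008520703)))) 
(.lf (nat_lit 3491741827) (dlOf (nat_lit 1) (nat_lit 0x8008001000200020008090103)))))))) 
(.nd (nat_lit 16) (.nd (nat_lit 19) (.nd (nat_lit 29) (.nd (nat_lit 6) (.nd (nat_lit 28) 
(.nd (nat_lit 23) (.nd (nat_lit 20) 
(.lf (nat_lit 1074184227) (dlOf (nat_lit 1) (nat_lit 0x10004000200180d0902))) 
(.lf (nat_lit 56016931) (dlOf (nat_lit 1) (nat_lit 0x400200020009710182)))) (.nd (nat_lit 21) 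
(.lf (nat_lit 29802531) (dlOf (nat_lit 1) (nat_lit 0x400200020008e30002))) 
(.lf (nat_lit 48676899) (dlOf (nat_lit 2) (nat_lit 0x1781f000900500001f029420180))))) 
(.nd (nat_lit 7) (.nd (nat_lit 9) 
(.lf (nat_lit 1346813987) (dlOf (nat_lit 4) (nat_lit 0x9850c000ac0400342ac0080143001204b0001501800d8214000a204000400400040019020182))) 
(.lf (nat_lit 2416365091) (dlOf (nat_lit 1) (nat_lit 0xe00080f7181)))) 
(.lf (nat_lit 474401443) (dlOf (nat_lit 1) (nat_lit 0x40019165601))))) (.nd (nat_lit 8) 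
(.nd (nat_lit 9) (.nd (nat_lit 20) 
(.lf (nat_lit 17219683) (dlOf (nat_lit 1) (nat_lit 0x4002000200088e0482))) 
(.lf (nat_lit 35045475) (dlOf (nat_lit 1) (nat_lit 0x400400380008fd0902)))) 
(.lf (nat_lit 1476839011) (dlOf (nat_lit 1) (nat_lit 0x40018203901)))) (.nd (nat_lit 7) 
(.lf (nat_lit 57067875) (dlOf (nat_lit 1) (nat_lit 0x8004000e0009794e82))) (.nd (nat_lit 11) 
(.lf (nat_lit 4362519011) (dlOf (nat_lit 2) (nat_lit 0x460470000d818090c00))) 
(.lf (nat_lit 57068003) (dlOf (nat_lit 1) (nat_lit 0x60019794e81))))))) (.nd (nat_lit 31) 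
(.nd (nat_lit 26) (.nd (nat_lit 6) 
(.lf (nat_lit 1611055139) (dlOf (nat_lit 1) (nat_lit 0x80080004002000200080d0183))) 
(.lf (nat_lit 537313379) (dlOf (nat_lit 1) (nat_lit 0x100028090001)))) (.nd (nat_lit 27) 
(.lf (nat_lit 1946599459) (dlOf (nat_lit 1) (nat_lit 0x10004000200180d0902))) (.nd (nat_lit 28) 
(.lf (nat_lit 738639907) (dlOf (nat_lit 1) (nat_lit 0x80080004002000200080d0183))) 
(.lf (nat_lit 1007075363) (dlOf (nat_lit 2) (nat_lit 0xc0dd0000e818170180)))))) (.nd (nat_lit 6) 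
(.nd (nat_lit 21) (.nd (nat_lit 26) 
(.lf (nat_lit 2819014691) (dlOf (nat_lit 1) (nat_lit 0x1400400020008150182))) 
(.lf (nat_lit 3154559011) (dlOf (nat_lit 2) (nat_lit 0x808e000520200060018230581)))) 
(.lf (nat_lit 2754002979) (dlOf (nat_lit 2) (nat_lit 0x200d20002b02000200180b0a81)))) 
(.nd (nat_lit 7) (.lf (nat_lit 2819014755) (dlOf (nat_lit 1) (nat_lit 0xa0008150d01))) 
(.lf (nat_lit 4228301283) (dlOf (nat_lit 2) (nat_lit 0x460400000d818090c00))))))) (.nd (nat_lit 20) 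
(.nd (nat_lit 21) (.nd (nat_lit 7) (.nd (nat_lit 6) (.nd (nat_lit 8) 
(.lf (nat_lit 9355299) (dlOf (nat_lit 1) (nat_lit 0x80004009a0008540802))) 
(.lf (nat_lit 1410253091) (dlOf (nat_lit 1) (nat_lit 0x200080054002000c00081b0503)))) 
(.lf (nat_lit 47104099) (dlOf (nat_lit 1) (nat_lit 0x180080008002000200093a0d83)))) 
(.nd (nat_lit 8) (.nd (nat_lit 9) 
(.lf (nat_lit 51299491) (dlOf (nat_lit 1) (nat_lit 0xc800802c0002011a0009512c03))) 
(.lf (nat_lit 51301027) (dlOf (nat_lit 1) (nat_lit 0x400200020009515602)))) 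
(.lf (nat_lit 3490628003) (dlOf (nat_lit 1) (nat_lit 0x400200020008016b82))))) (.nd (nat_lit 6) 
(.nd (nat_lit 7) (.lf (nat_lit 19843875) (dlOf (nat_lit 1) (nat_lit 0x80080004002000200089d5c03))) 
(.lf (nat_lit 19841699) (dlOf (nat_lit 1) (nat_lit 0x10002000e00089d1c82)))) (.nd (nat_lit 10) 
(.nd (nat_lit 7) (.lf (nat_lit 19841635) (dlOf (nat_lit 1) (nat_lit 0x3200189d1781))) 
(.lf (nat_lit 19847907) (dlOf (nat_lit 1) (nat_lit 0x4002000200089db982)))) (.nd (nat_lit 23) 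
(.lf (nat_lit 70174307) (dlOf (nat_lit 1) (nat_lit 0x20018fa3901))) 
(.lf (nat_lit 61785699) (dlOf (nat_lit 1) (nat_lit 0x1000400040009923902))))))) (.nd (nat_lit 7) 
(.nd (nat_lit 21) (.nd (nat_lit 24) (.nd (nat_lit 8) 
(.lf (nat_lit 14598179) (dlOf (nat_lit 2) (nat_lit 0x19c2000000080018008001400200080008770183))) 
(.lf (nat_lit 2015523) (dlOf (nat_lit 1) (nat_lit 0x20028150501)))) (.nd (nat_lit 6) 
(.lf (nat_lit 52346915) (dlOf (nat_lit 1) (nat_lit 0x400400020009530182))) 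
(.lf (nat_lit 52346979) (dlOf (nat_lit 1) (nat_lit 0x400400280009530902))))) (.nd (nat_lit 9) 
(.nd (nat_lit 22) 
(.lf (nat_lit 473874467) (dlOf (nat_lit 2) (nat_lit 0x70286001813b000a09c800d83340001c10001c00400240008fc0182))) 
(.lf (nat_lit 25083939) (dlOf (nat_lit 1) (nat_lit 0x1d0008024c002015a0008be0b03)))) 
(.lf (nat_lit 8313379) (dlOf (nat_lit 1) (nat_lit 0x80020002000851b282))))) (.nd (nat_lit 26) 
(.nd (nat_lit 6) (.lf (nat_lit 3491676323) (dlOf (nat_lit 1) (nat_lit 0x400400020018090202))) 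
(.lf (nat_lit 8311523) (dlOf (nat_lit 1) (nat_lit 0x8008000400200020008518c83)))) (.nd (nat_lit 27) 
(.lf (nat_lit 2753478819) (dlOf (nat_lit 1) (nat_lit 0x400400020018090202))) 
(.lf (nat_lit 6377357475) (dlOf (nat_lit 2) (nat_lit 0x400b80002a040004004000400180c1402)))))))) 
(.nd (nat_lit 19) (.nd (nat_lit 28) (.nd (nat_lit 24) (.nd (nat_lit 26) (.nd (nat_lit 21) 
(.nd (nat_lit 6) (.nd (nat_lit 7) 
(.lf (nat_lit 537378851) (dlOf (nat_lit 3) (nat_lit 0x481480024066007cd0400060520006019801f2c100090008004400200200008090003))) 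
(.lf (nat_lit 8898723) (dlOf (nat_lit 1) (nat_lit 0x600080034002000a0008514883)))) 
(.lf (nat_lit 4702307) (dlOf (nat_lit 1) (nat_lit 0xa00182b0d01)))) (.nd (nat_lit 23) 
(.lf (nat_lit 36159523) (dlOf (nat_lit 2) (nat_lit 0x6aa400023019030180))) 
(.lf (nat_lit 10993699) (dlOf (nat_lit 1) (nat_lit 0xf00008650701))))) (.nd (nat_lit 7) 
(.nd (nat_lit 6) 
(.lf (nat_lit 3959930915) (dlOf (nat_lit 3) (nat_lit 0x424080007cd0201e4040003e5818170000))) 
(.lf (nat_lit 1678229603) (dlOf (nat_lit 1) (nat_lit 0x144002004c00081b1282)))) (.nd (nat_lit 8) 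
(.lf (nat_lit 2886189219) (dlOf (nat_lit 1) (nat_lit 0x1f80080034002001a0008184603))) 
(.lf (nat_lit 201834915) (dlOf (nat_lit 2) (nat_lit 0x203b00675018090780)))))) (.nd (nat_lit 21) 
(.nd (nat_lit 6) (.nd (nat_lit 9) (.nd (nat_lit 20) 
(.lf (nat_lit 55033891) (dlOf (nat_lit 4) (nat_lit 0x484b0000424f00015810006127c0005e040004960000110200060009690181))) 
(.lf (nat_lit 30916643) (dlOf (nat_lit 1) (nat_lit 0xc002000e0008e50a82)))) 
(.lf (nat_lit 50840099) (dlOf (nat_lit 2) (nat_lit 0x163a2000f1d0c009a8080004004005600194d8702)))) 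
(.lf (nat_lit 55033955) (dlOf (nat_lit 1) (nat_lit 0x3800400120009690782)))) (.nd (nat_lit 6) 
(.nd (nat_lit 7) (.nd (nat_lit 20) 
(.lf (nat_lit 27770915) (dlOf (nat_lit 2) (nat_lit 0x5aa00002d4f00269828d20680))) 
(.lf (nat_lit 24625187) (dlOf (nat_lit 1) (nat_lit 0x134004007a0008ba0a02)))) 
(.lf (nat_lit 62376611) (dlOf (nat_lit 1) (nat_lit 0x4002000200099a5602)))) (.nd (nat_lit 7) 
(.lf (nat_lit 23576931) (dlOf (nat_lit 1) (nat_lit 0x3000400020018b80702))) 
(.lf (nat_lit 23576803) (dlOf (nat_lit 2) (nat_lit 0x3d8000008e02000a0008b80481))))))) 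
(.nd (nat_lit 6) (.nd (nat_lit 27) (.nd (nat_lit 31) (.nd (nat_lit 26) 
(.lf (nat_lit 1879556131) (dlOf (nat_lit 1) (nat_lit 0xc004000400081e0602))) 
(.lf (nat_lit 1409794083) (dlOf (nat_lit 1) (nat_lit 0x400400020018090002)))) (.nd (nat_lit 20) 
(.lf (nat_lit 2416427043) (dlOf (nat_lit 1) (nat_lit 0x200181d0a01))) 
(.lf (nat_lit 3491217443) (dlOf (nat_lit 1) (nat_lit 0x400200020008080882))))) (.nd (nat_lit 7) 
(.nd (nat_lit 8) (.lf (nat_lit 2550644771) (dlOf (nat_lit 1) (nat_lit 0x200181d0a01))) 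
(.lf (nat_lit 3624386851) (dlOf (nat_lit 2) (nat_lit 0x1803e00527018187800)))) 
(.lf (nat_lit 472369571) (dlOf (nat_lit 1) (nat_lit 0xc0008984e81))))) (.nd (nat_lit 8) 
(.nd (nat_lit 11) (.nd (nat_lit 21) 
(.lf (nat_lit 805814371) (dlOf (nat_lit 7) (nat_lit 0x81580004c04002c0aa00040120001102000202a8002814c001005600080100001084001302980007c0801d015800400aa00280130000e83001302980005c0803680080064002006800081b1383))) 
(.lf (nat_lit 1881653347) (dlOf (nat_lit 1) (nat_lit 0x360008fa0781)))) 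
(.lf (nat_lit 1946667107) (dlOf (nat_lit 1) (nat_lit 0x18008000c002000600080f4703)))) 
(.nd (nat_lit 7) (.lf (nat_lit 3490172259) (dlOf (nat_lit 1) (nat_lit 0x20028006a81))) 
(.nd (nat_lit 26) (.lf (nat_lit 1342685667) (dlOf (nat_lit 1) (nat_lit 0x600080c0c01))) 
(.lf (nat_lit 470270435) (dlOf (nat_lit 1) (nat_lit 0x600080c0c01)))))))) (.nd (nat_lit 25) 
(.nd (nat_lit 6) (.nd (nat_lit 23) (.nd (nat_lit 24) (.nd (nat_lit 26) 
(.lf (nat_lit 1032227) (dlOf (nat_lit 2) (nat_lit 0x400000013018050c00))) 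
(.lf (nat_lit 68141091) (dlOf (nat_lit 1) (nat_lit 0x20008400181)))) (.nd (nat_lit 7) 
(.lf (nat_lit 17809443) (dlOf (nat_lit 2) (nat_lit 0x46e3500136fb00029c080010002006c00088f0d82))) 
(.lf (nat_lit 19914147) (dlOf (nat_lit 1) (nat_lit 0x84002000200089dcb02))))) (.nd (nat_lit 22) 
(.lf (nat_lit 9420835) (dlOf (nat_lit 1) (nat_lit 0x20018550581))) 
(.lf (nat_lit 13615139) (dlOf (nat_lit 1) (nat_lit 0xc00200020008730902))))) (.nd (nat_lit 7) 
(.lf (nat_lit 68141155) (dlOf (nat_lit 1) (nat_lit 0x28008000c00200060008400d03))) 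
(.lf (nat_lit 5772395747) (dlOf (nat_lit 1) (nat_lit 0x20018092e01))))) (.nd (nat_lit 7) 
(.nd (nat_lit 6) (.nd (nat_lit 10) 
(.lf (nat_lit 52412451) (dlOf (nat_lit 3) (nat_lit 0x16b8140004e040009c0a000260200020019530181))) 
(.lf (nat_lit 39830563) (dlOf (nat_lit 1) (nat_lit 0x4004005c00091f2882)))) 
(.lf (nat_lit 41929059) (dlOf (nat_lit 1) (nat_lit 0x400400020009244e82)))) (.nd (nat_lit 10) 
(.nd (nat_lit 8) (.lf (nat_lit 36686499) (dlOf (nat_lit 1) (nat_lit 0x19c00200020009075602))) 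
(.lf (nat_lit 58706339) (dlOf (nat_lit 1) (nat_lit 0x200197e4e81)))) (.nd (nat_lit 20) 
(.lf (nat_lit 36684963) (dlOf (nat_lit 1) (nat_lit 0x20019072c01))) 
(.lf (nat_lit 37733539) (dlOf (nat_lit 1) (nat_lit 0x4004001c00090d2c02))))))))))) 
(.nd (nat_lit 16) (.nd (nat_lit 19) (.nd (nat_lit 5) (.nd (nat_lit 6) (.nd (nat_lit 18) 
(.nd (nat_lit 27) (.nd (nat_lit 29) (.nd (nat_lit 23) (.nd (nat_lit 21) 
(.lf (nat_lit 2416099339) (dlOf (nat_lit 1) (nat_lit 0x38000201e00008060482))) 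
(.lf (nat_lit 52609035) (dlOf (nat_lit 1) (nat_lit 0xb20019560101)))) (.nd (nat_lit 20) 
(.lf (nat_lit 25346059) (dlOf (nat_lit 1) (nat_lit 0x60028bf0481))) 
(.lf (nat_lit 43171851) (dlOf (nat_lit 5) (nat_lit 0x1752b8037860400ca95c01bc20200634ae00da701002ea57006d30080368008009400200be00092a0003))))) 
(.nd (nat_lit 10) (.nd (nat_lit 11) 
(.lf (nat_lit 4832018443) (dlOf (nat_lit 1) (nat_lit 0x80018090001))) 
(.lf (nat_lit 2751649803) (dlOf (nat_lit 1) (nat_lit 0x3a000800a601)))) (.nd (nat_lit 7) 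
(.lf (nat_lit 1610793995) (dlOf (nat_lit 1) (nat_lit 0x40008000400200020008092883))) 
(.lf (nat_lit 3020083083) (dlOf (nat_lit 3) (nat_lit 0x480d4008700400f406a004370200020028127781)))))) 
(.nd (nat_lit 29) (.nd (nat_lit 7) (.nd (nat_lit 9) 
(.lf (nat_lit 2550317067) (dlOf (nat_lit 1) (nat_lit 0x38000201e00008060482))) 
(.lf (nat_lit 5773642251) (dlOf (nat_lit 1) (nat_lit 0x8580080718002019e00080e5003)))) 
(.nd (nat_lit 10) (.lf (nat_lit 2348990859) (dlOf (nat_lit 1) (nat_lit 0xa0008090781))) 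
(.lf (nat_lit 1543687563) (dlOf (nat_lit 1) (nat_lit 0x10008000400200040008146c83))))) 
(.nd (nat_lit 7) (.nd (nat_lit 10) (.nd (nat_lit 26) 
(.lf (nat_lit 5234671627) (dlOf (nat_lit 1) (nat_lit 0x1400200060008080002))) 
(.lf (nat_lit 5301780491) (dlOf (nat_lit 3) (nat_lit 0xc0110064601000c00880322c0800f0008002000200500008090003)))) 
(.lf (nat_lit 5301781515) (dlOf (nat_lit 2) (nat_lit 0x80044011d4040030004000e0008092882)))) 
(.lf (nat_lit 3154301323) (dlOf (nat_lit 2) (nat_lit 0x2808e004a70200320008158381)))))) 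
(.nd (nat_lit 30) (.nd (nat_lit 22) (.nd (nat_lit 9) (.nd (nat_lit 20) 
(.lf (nat_lit 537313291) (dlOf (nat_lit 1) (nat_lit 0x60028090001))) 
(.lf (nat_lit 26656779) (dlOf (nat_lit 1) (nat_lit 0x8008000800200020008c50003)))) 
(.lf (nat_lit 201769483) (dlOf (nat_lit 2) (nat_lit 0xc00000125018090d80)))) (.nd (nat_lit 23) 
(.nd (nat_lit 7) (.lf (nat_lit 22462475) (dlOf (nat_lit 1) (nat_lit 0xc00400040008ae0482))) 
(.lf (nat_lit 21414027) (dlOf (nat_lit 3) (nat_lit 0x5a4c20001a81002c52b8004a93400bd4940058a38002c261001b930400064180030004000a0008a30f02)))) 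
(.nd (nat_lit 21) (.lf (nat_lit 13025291) (dlOf (nat_lit 1) (nat_lit 0x200086f0081))) 
(.lf (nat_lit 15122443) (dlOf (nat_lit 2) (nat_lit 0xdc5f5005e78187c0480)))))) (.nd (nat_lit 7) 
(.nd (nat_lit 8) (.nd (nat_lit 26) 
(.lf (nat_lit 5637586955) (dlOf (nat_lit 1) (nat_lit 0x40008110081))) 
(.lf (nat_lit 6241566731) (dlOf (nat_lit 1) (nat_lit 0x40008110081)))) 
(.lf (nat_lit 1678164235) (dlOf (nat_lit 1) (nat_lit 0x4004000200081a0482)))) (.nd (nat_lit 8) 
(.lf (nat_lit 1343668363) (dlOf (nat_lit 3) (nat_lit 0x842c2007c09d000d58200950b080062c0800200080014002002c00082e0483))) 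
(.nd (nat_lit 11) (.lf (nat_lit 3221668235) (dlOf (nat_lit 1) (nat_lit 0x400400020018170782))) 
(.lf (nat_lit 4026976651) (dlOf (nat_lit 1) (nat_lit 0xc00280f4e81)))))))) (.nd (nat_lit 26) 
(.nd (nat_lit 28) (.nd (nat_lit 23) (.nd (nat_lit 10) (.nd (nat_lit 11) 
(.lf (nat_lit 38191179) (dlOf (nat_lit 1) (nat_lit 0x680019130001))) 
(.lf (nat_lit 186443) (dlOf (nat_lit 2) (nat_lit 0x41ae0021d020002001800a681)))) (.nd (nat_lit 8) 
(.lf (nat_lit 38192203) (dlOf (nat_lit 1) (nat_lit 0x8008000400200020009132883))) 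
(.lf (nat_lit 183627) (dlOf (nat_lit 1) (nat_lit 0x40018006a01))))) (.nd (nat_lit 7) 
(.nd (nat_lit 9) 
(.lf (nat_lit 25346123) (dlOf (nat_lit 2) (nat_lit 0x1e00000011c080030008008000200580008bf0d03))) 
(.lf (nat_lit 9617995) (dlOf (nat_lit 3) (nat_lit 0x209b0000230200d0519000426c000078100008008000800200020008578d03)))) 
(.lf (nat_lit 28491979) (dlOf (nat_lit 1) (nat_lit 0xe0018da0481))))) (.nd (nat_lit 29) 
(.nd (nat_lit 7) (.lf (nat_lit 3624059211) (dlOf (nat_lit 1) (nat_lit 0x200280b0601))) 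
(.nd (nat_lit 8) 
(.lf (nat_lit 3624059083) (dlOf (nat_lit 2) (nat_lit 0x1f0000003a2040148002005a00080b0482))) 
(.lf (nat_lit 3491938763) (dlOf (nat_lit 3) (nat_lit 0x70e08000f4080040704000000401c000200060008090982))))) 
(.nd (nat_lit 9) (.nd (nat_lit 30) 
(.lf (nat_lit 5234671691) (dlOf (nat_lit 1) (nat_lit 0x1b8002004a0008080502))) 
(.lf (nat_lit 6308413515) (dlOf (nat_lit 1) (nat_lit 0x400400020008080502)))) 
(.lf (nat_lit 939704907) (dlOf (nat_lit 4) (nat_lit 0x38000000be04002c012038e0000002e820017004806d8000000b808003c00200460008158d02)))))) 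
(.nd (nat_lit 9) (.nd (nat_lit 8) (.nd (nat_lit 10) (.nd (nat_lit 22) 
(.lf (nat_lit 5704433739) (dlOf (nat_lit 1) (nat_lit 0x400400020008080502))) 
(.lf (nat_lit 474136651) (dlOf (nat_lit 2) (nat_lit 0xe0b400da58190e0000)))) (.nd (nat_lit 7) 
(.lf (nat_lit 3020084299) (dlOf (nat_lit 10) (nat_lit 0x5e01e803280ec016406c00b4034004c018002500ac017404800aa0220001788005d01e802d00ec003006c00b0034004c018002380ac016804800aa0220001688003301e803180ac01b80480002b0600ce02b00730120000a81000100f40005004020c0000002402010a0000001101007c0000000800803e80000003a0400d000400120018129302))) 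
(.lf (nat_lit 872596683) (dlOf (nat_lit 1) (nat_lit 0xc00400060008092d82))))) (.nd (nat_lit 7) 
(.nd (nat_lit 27) (.lf (nat_lit 3825388875) (dlOf (nat_lit 1) (nat_lit 0x20028146a01))) 
(.lf (nat_lit 1543687499) (dlOf (nat_lit 1) (nat_lit 0x220018146a01)))) 
(.lf (nat_lit 2753741259) (dlOf (nat_lit 1) (nat_lit 0x40028090981))))) (.nd (nat_lit 7) 
(.nd (nat_lit 11) (.nd (nat_lit 28) 
(.lf (nat_lit 201507403) (dlOf (nat_lit 8) (nat_lit 0x8809400dc03b00d90178001a01803900bc000ce04018809400f002f0003302006d025005980bc000840800a409400f202f00020820061025003a00bc0007e08008805e0003e02001c0028018d01))) 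
(.lf (nat_lit 469942859) (dlOf (nat_lit 1) (nat_lit 0x10008005800200040008018d03)))) 
(.nd (nat_lit 12) (.lf (nat_lit 472304203) (dlOf (nat_lit 1) (nat_lit 0x40018985281))) 
(.lf (nat_lit 3959609931) (dlOf (nat_lit 3) (nat_lit 0xc0430002281005602280000008018000800880020048000811b603))))) 
(.nd (nat_lit 10) (.nd (nat_lit 11) 
(.lf (nat_lit 2751644619) (dlOf (nat_lit 2) (nat_lit 0x1213d00948018002880))) 
(.lf (nat_lit 738380747) (dlOf (nat_lit 2) (nat_lit 0x2015000054080068008001c002004a0008095d83)))) 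
(.lf (nat_lit 2751645643) (dlOf (nat_lit 1) (nat_lit 0x800400360008004482)))))))) (.nd (nat_lit 18) 
(.nd (nat_lit 31) (.nd (nat_lit 8) (.nd (nat_lit 26) (.nd (nat_lit 9) (.nd (nat_lit 20) 
(.lf (nat_lit 52609067) (dlOf (nat_lit 1) (nat_lit 0x200019560901))) 
(.lf (nat_lit 24297515) (dlOf (nat_lit 1) (nat_lit 0x20018b90981)))) 
(.lf (nat_lit 8569387) (dlOf (nat_lit 1) (nat_lit 0x20008511481)))) (.nd (nat_lit 6) 
(.nd (nat_lit 11) (.lf (nat_lit 68337707) (dlOf (nat_lit 1) (nat_lit 0x2e0018550781))) 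
(.lf (nat_lit 1677903915) (dlOf (nat_lit 1) (nat_lit 0x40018114701)))) 
(.lf (nat_lit 1543687403) (dlOf (nat_lit 2) (nat_lit 0x2e0140000980800a8008005c002000a0008146503))))) 
(.nd (nat_lit 7) (.nd (nat_lit 9) (.nd (nat_lit 10) 
(.lf (nat_lit 2277739) (dlOf (nat_lit 2) (nat_lit 0x1b3b80002404007800200060008150702))) 
(.lf (nat_lit 183659) (dlOf (nat_lit 1) (nat_lit 0x1c0018006b01)))) 
(.lf (nat_lit 537053035) (dlOf (nat_lit 1) (nat_lit 0x8008000400200020008004003)))) 
(.nd (nat_lit 6) (.nd (nat_lit 27) 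
(.lf (nat_lit 537053099) (dlOf (nat_lit 1) (nat_lit 0x400400020008004302))) 
(.lf (nat_lit 671270827) (dlOf (nat_lit 3) (nat_lit 0x60170000c01000300b80002c080040008001800200160008144303)))) 
(.lf (nat_lit 1812120043) (dlOf (nat_lit 8) (nat_lit 0xce00580548024026400801600000002e8400ce005805500240264008015e0000002e0400a200000014808064802c02a8012008000400be00000014420045802c00180080004c04001200b0002401002b0058001080803580080060002000e0008157303)))))) 
(.nd (nat_lit 6) (.nd (nat_lit 12) (.nd (nat_lit 9) 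
(.lf (nat_lit 6643957803) (dlOf (nat_lit 2) (nat_lit 0x100600000002001800080a0601))) 
(.nd (nat_lit 27) (.lf (nat_lit 2483208747) (dlOf (nat_lit 1) (nat_lit 0x1400200040008090e82))) 
(.lf (nat_lit 2348991019) (dlOf (nat_lit 1) (nat_lit 0x1400200040008090e82))))) (.nd (nat_lit 7) 
(.lf (nat_lit 2751649835) (dlOf (nat_lit 1) (nat_lit 0x40040002000800a602))) (.nd (nat_lit 11) 
(.lf (nat_lit 3758282155) (dlOf (nat_lit 11) (nat_lit 0x600300052d81000601e8029440800380ac0149e04002c04800a4502000c0240051e0100040120028e40800600e0000c04e000e0260051a0300020170007809c01466080024070001e02e0011013800280980145410000404e00a280200340028129901))) 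
(.lf (nat_lit 3221413291) (dlOf (nat_lit 2) (nat_lit 0x60450001c81811cc00)))))) (.nd (nat_lit 7) 
(.nd (nat_lit 9) 
(.lf (nat_lit 3494035819) (dlOf (nat_lit 2) (nat_lit 0x142300003202002600181b0701))) 
(.nd (nat_lit 11) 
(.lf (nat_lit 4160930667) (dlOf (nat_lit 1) (nat_lit 0x80080138002003c00080a2583))) 
(.lf (nat_lit 3221412715) (dlOf (nat_lit 1) (nat_lit 0x20002002a000811bc82))))) (.nd (nat_lit 8) 
(.lf (nat_lit 4093823723) (dlOf (nat_lit 1) (nat_lit 0x800200020008005a02))) (.nd (nat_lit 9) 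
(.lf (nat_lit 4228039147) (dlOf (nat_lit 5) (nat_lit 0x3e00540006702020802a000330100eb0150001040807f80a80007e04007c00200480008017302))) 
(.lf (nat_lit 3020086251) (dlOf (nat_lit 3) (nat_lit 0x2ec078000203b006101a800100c00020054001202300240090013083806080f0015c06a001402a000e011801304200248008008000200b8000812bf03)))))))) 
(.nd (nat_lit 26) (.nd (nat_lit 28) (.nd (nat_lit 20) (.nd (nat_lit 9) (.nd (nat_lit 21) 
(.lf (nat_lit 2819014699) (dlOf (nat_lit 5) (nat_lit 0x2203f0001881000201b0000a40801f00d80002404001006c000110200820028150381))) 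
(.lf (nat_lit 19316779) (dlOf (nat_lit 1) (nat_lit 0x400200020008980e02)))) 
(.lf (nat_lit 134660651) (dlOf (nat_lit 2) (nat_lit 0x38062001e0110001b028090e80)))) 
(.nd (nat_lit 6) (.nd (nat_lit 7) 
(.lf (nat_lit 26656811) (dlOf (nat_lit 4) (nat_lit 0xd70f0000b80800fba6c0085c3e003edfc000160300a870f8000ac080028008000800200020008c50383))) 
(.lf (nat_lit 39242155) (dlOf (nat_lit 1) (nat_lit 0x8008000400200020009194e83)))) 
(.lf (nat_lit 14073963) (dlOf (nat_lit 1) (nat_lit 0x20028750281))))) (.nd (nat_lit 7) 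
(.nd (nat_lit 8) (.nd (nat_lit 21) 
(.lf (nat_lit 5637586987) (dlOf (nat_lit 1) (nat_lit 0x80080058002000c0008110b83))) 
(.lf (nat_lit 3492200491) (dlOf (nat_lit 2) (nat_lit 0x1022000080080088008002c002000a00080b0e03)))) 
(.lf (nat_lit 1881588011) (dlOf (nat_lit 1) (nat_lit 0x440008f60b01)))) (.nd (nat_lit 6) 
(.lf (nat_lit 3493249451) (dlOf (nat_lit 1) (nat_lit 0x40018107181))) 
(.lf (nat_lit 2416364779) (dlOf (nat_lit 3) (nat_lit 0x1a01200080088005003c002801a0002e08000201200040088002003c001c01a0002d08000a00080f6501)))))) 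
(.nd (nat_lit 28) (.nd (nat_lit 8) (.nd (nat_lit 9) (.nd (nat_lit 20) 
(.lf (nat_lit 2754002987) (dlOf (nat_lit 1) (nat_lit 0x600280b0d81))) 
(.lf (nat_lit 2752954411) (dlOf (nat_lit 3) (nat_lit 0x10540000060400702a4000000200240018070801)))) 
(.lf (nat_lit 201769515) (dlOf (nat_lit 2) (nat_lit 0x38062001e0110001b028090e80)))) 
(.nd (nat_lit 7) (.lf (nat_lit 604422443) (dlOf (nat_lit 1) (nat_lit 0x1000400040008200b02))) 
(.lf (nat_lit 1678164395) (dlOf (nat_lit 1) (nat_lit 0xa00281a0781))))) (.nd (nat_lit 6) 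
(.nd (nat_lit 29) 
(.lf (nat_lit 3557212203) (dlOf (nat_lit 2) (nat_lit 0x1201f8000b80801100080084002000c0008170383))) 
(.lf (nat_lit 6241566763) (dlOf (nat_lit 1) (nat_lit 0x80080058002000c0008110b83)))) 
(.nd (nat_lit 7) (.lf (nat_lit 1409728619) (dlOf (nat_lit 1) (nat_lit 0x100028090001))) 
(.lf (nat_lit 4094085867) (dlOf (nat_lit 1) (nat_lit 0x400400020008005a02))))))))) 
(.nd (nat_lit 21) (.nd (nat_lit 6) (.nd (nat_lit 5) (.nd (nat_lit 27) (.nd (nat_lit 7) 
(.nd (nat_lit 20) (.nd (nat_lit 18) (.nd (nat_lit 23) 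
(.lf (nat_lit 21676043) (dlOf (nat_lit 2) (nat_lit 0x72608037b0080080008004c00200320008a60a03))) 
(.lf (nat_lit 13287435) (dlOf (nat_lit 1) (nat_lit 0x400400020008710a02)))) 
(.lf (nat_lit 47104011) (dlOf (nat_lit 1) (nat_lit 0x2200193a0001)))) (.nd (nat_lit 9) 
(.lf (nat_lit 1753099) (dlOf (nat_lit 1) (nat_lit 0x420018130501))) 
(.lf (nat_lit 2753217035) (dlOf (nat_lit 2) (nat_lit 0xa83fe002210200160028090d81))))) 
(.nd (nat_lit 8) (.lf (nat_lit 17481867) (dlOf (nat_lit 1) (nat_lit 0x4004000200088e0482))) 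
(.nd (nat_lit 10) (.lf (nat_lit 1611319691) (dlOf (nat_lit 1) (nat_lit 0xe0008124e81))) 
(.lf (nat_lit 707979) (dlOf (nat_lit 1) (nat_lit 0xc0004019c0008006c82)))))) (.nd (nat_lit 18) 
(.nd (nat_lit 26) (.nd (nat_lit 28) 
(.lf (nat_lit 134922251) (dlOf (nat_lit 2) (nat_lit 0x3e03b003848180e0000))) 
(.lf (nat_lit 5772066827) (dlOf (nat_lit 4) (nat_lit 0x18c02800b401300670094032c046017602200c0010005d006001a961c0040050000c02600080100002806001a9410006404c0018025000401180070080003403000d460a005e0028060a01)))) 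
(.nd (nat_lit 28) (.lf (nat_lit 202031115) (dlOf (nat_lit 2) (nat_lit 0x3e03b0065b0180e0000))) 
(.lf (nat_lit 6376046603) (dlOf (nat_lit 4) (nat_lit 0x18c02800b401300670094032c046017602200c0010005d006000fa01c0040050000c02600080100002806000f9e10006404c00180250004011800700800034030007cb0a005e0028060a01))))) 
(.nd (nat_lit 7) (.lf (nat_lit 5772328971) (dlOf (nat_lit 1) (nat_lit 0x20008090001))) 
(.lf (nat_lit 5772329355) (dlOf (nat_lit 2) (nat_lit 0x404f8002c004000400400100018091002)))))) 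
(.nd (nat_lit 20) (.nd (nat_lit 26) (.nd (nat_lit 10) (.nd (nat_lit 22) 
(.lf (nat_lit 537575467) (dlOf (nat_lit 2) (nat_lit 0xcc05f000120180c0d00))) 
(.lf (nat_lit 21676075) (dlOf (nat_lit 9) (nat_lit 0x413080010982000290400104c20001401000c26100009c0800213080004c04007098400324c10001282000426100031304000180800089820000b02001e4c200005018a60d00)))) 
(.lf (nat_lit 707627) (dlOf (nat_lit 1) (nat_lit 0x400200020008006082)))) (.nd (nat_lit 27) 
(.lf (nat_lit 1409990699) (dlOf (nat_lit 7) (nat_lit 0x81c0be017e05e0001202020602f804e8178000440804b40be0002002026605f0000f81008102f80007408006017c000360400ac002000a00080c0c02))) 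
(.lf (nat_lit 4228562987) (dlOf (nat_lit 5) (nat_lit 0x54c09e023c04201ae01500758088000ae10054c09e037e02a0092011000150180a9813c0464084034802a00e50110000dc200ac013c026409a035c02a00f40110000cc2000b800800dc002001200080f0c03))))) 
(.nd (nat_lit 9) (.nd (nat_lit 23) (.nd (nat_lit 7) 
(.lf (nat_lit 1753131) (dlOf (nat_lit 3) (nat_lit 0x835c0005404028c000000100200040008130801))) 
(.lf (nat_lit 6377095339) (dlOf (nat_lit 1) (nat_lit 0x44004000c00180a2c82)))) (.nd (nat_lit 22) 
(.lf (nat_lit 10141739) (dlOf (nat_lit 1) (nat_lit 0x600085b0501))) 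
(.lf (nat_lit 14336043) (dlOf (nat_lit 1) (nat_lit 0x80028750001))))) (.nd (nat_lit 26) 
(.lf (nat_lit 3491414571) (dlOf (nat_lit 2) (nat_lit 0x41eb0001b018090e80))) 
(.lf (nat_lit 2753217067) (dlOf (nat_lit 2) (nat_lit 0x41fd0001b018090e80))))))) (.nd (nat_lit 26) 
(.nd (nat_lit 18) (.nd (nat_lit 5) (.nd (nat_lit 7) (.nd (nat_lit 9) 
(.lf (nat_lit 43696203) (dlOf (nat_lit 1) (nat_lit 0x980080044002002200092a0003))) 
(.lf (nat_lit 3491414603) (dlOf (nat_lit 2) (nat_lit 0xac1ec00000018091180)))) 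
(.lf (nat_lit 35310027) (dlOf (nat_lit 1) (nat_lit 0x400400020009014e82)))) 
(.lf (nat_lit 34260075) (dlOf (nat_lit 1) (nat_lit 0x400200020008fb2982)))) (.nd (nat_lit 8) 
(.nd (nat_lit 20) (.nd (nat_lit 23) 
(.lf (nat_lit 21938251) (dlOf (nat_lit 1) (nat_lit 0x400200020008a80f82))) 
(.lf (nat_lit 13549643) (dlOf (nat_lit 2) (nat_lit 0x600000020018730d00)))) 
(.lf (nat_lit 52346955) (dlOf (nat_lit 1) (nat_lit 0x400400020009530602)))) (.nd (nat_lit 5) 
(.lf (nat_lit 3491676619) (dlOf (nat_lit 3) (nat_lit 0x507040007a04000441e000220b000410280040704000436400101aa000108780000038020800800d0002002c0008090983))) 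
(.lf (nat_lit 1344192875) (dlOf (nat_lit 2) (nat_lit 0x202c40001502001e0018490701)))))) 
(.nd (nat_lit 8) (.nd (nat_lit 7) (.nd (nat_lit 9) (.nd (nat_lit 27) 
(.lf (nat_lit 1409990731) (dlOf (nat_lit 4) (nat_lit 0xfe02e8055016803b40ae021e05200f601980028088000681801fc0ba0100057008b029004280cc0004044000320a00c605d005f02b8000814800d0066002e022004600f80230000000621c008c004000a00080c1482))) 
(.lf (nat_lit 4228563019) (dlOf (nat_lit 3) (nat_lit 0x120400000981000f01f0000000800a80080090002000800080f1483)))) 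
(.lf (nat_lit 2753217099) (dlOf (nat_lit 2) (nat_lit 0xac1fe00000018091180)))) (.nd (nat_lit 20) 
(.lf (nat_lit 68075723) (dlOf (nat_lit 1) (nat_lit 0x80080004002000200083e0483))) 
(.lf (nat_lit 6377357515) (dlOf (nat_lit 1) (nat_lit 0x200280c1b81))))) (.nd (nat_lit 20) 
(.nd (nat_lit 10) 
(.lf (nat_lit 1410253131) (dlOf (nat_lit 8) (nat_lit 0x1740ec0005202014a0000002881005303b00008000000a00802400000004f0201a4000000230100c900000011408056000000088040074002000200081b0602))) 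
(.lf (nat_lit 738903371) (dlOf (nat_lit 2) (nat_lit 0x2816800050040004004000e0008123302)))) 
(.nd (nat_lit 5) 
(.lf (nat_lit 2753479115) (dlOf (nat_lit 3) (nat_lit 0x5074c0007c0400044480002220000410d0004074c000438e00101bf000108480000038020800800d0002002c0008090983))) 
(.lf (nat_lit 471777643) (dlOf (nat_lit 2) (nat_lit 0x202c40001502001e0018490701)))))))) 
(.nd (nat_lit 22) (.nd (nat_lit 6) (.nd (nat_lit 5) (.nd (nat_lit 18) (.nd (nat_lit 10) 
(.nd (nat_lit 26) 
(.lf (nat_lit 3492462603) (dlOf (nat_lit 1) (nat_lit 0x1680080118002009e00080d0483))) 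
(.lf (nat_lit 2754265099) (dlOf (nat_lit 1) (nat_lit 0x1680080118002009e00080d0483)))) 
(.lf (nat_lit 69911563) (dlOf (nat_lit 1) (nat_lit 0xf800800c800200540008e12883)))) 
(.nd (nat_lit 7) (.lf (nat_lit 1345243659) (dlOf (nat_lit 2) (nat_lit 0xc00000014018b05000))) 
(.nd (nat_lit 9) (.lf (nat_lit 19844235) (dlOf (nat_lit 1) (nat_lit 0x200189d6181))) 
(.lf (nat_lit 19841675) (dlOf (nat_lit 1) (nat_lit 0x7000189d1a81)))))) (.nd (nat_lit 11) 
(.nd (nat_lit 20) 
(.lf (nat_lit 11452459) (dlOf (nat_lit 1) (nat_lit 0x180080008002000600086a0803))) 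
(.nd (nat_lit 26) (.lf (nat_lit 4112427) (dlOf (nat_lit 2) (nat_lit 0x4800000019818280600))) 
(.lf (nat_lit 473874475) (dlOf (nat_lit 1) (nat_lit 0x8400400200008fc0282))))) (.nd (nat_lit 7) 
(.lf (nat_lit 2754530859) (dlOf (nat_lit 1) (nat_lit 0x1a00180f7181))) (.nd (nat_lit 8) 
(.lf (nat_lit 54446763) (dlOf (nat_lit 1) (nat_lit 0x20029655681))) 
(.lf (nat_lit 36358571) (dlOf (nat_lit 1) (nat_lit 0x400200020009074e82))))))) (.nd (nat_lit 9) 
(.nd (nat_lit 26) (.nd (nat_lit 5) (.nd (nat_lit 31) 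
(.lf (nat_lit 1344979019) (dlOf (nat_lit 5) (nat_lit 0x180000009602000e00000046810008000000214080048000001080400b8002004c00089a0602))) 
(.lf (nat_lit 3492462667) (dlOf (nat_lit 2) (nat_lit 0x2487ac000ac04000c004001200180d0d02)))) 
(.lf (nat_lit 3493773419) (dlOf (nat_lit 1) (nat_lit 0x400281b0001)))) (.nd (nat_lit 7) 
(.nd (nat_lit 27) 
(.lf (nat_lit 2754265163) (dlOf (nat_lit 2) (nat_lit 0x2487f40009e04000c004001200180d0d02))) 
(.lf (nat_lit 472563787) (dlOf (nat_lit 3) (nat_lit 0x70000002340800100000010a04002c002000e00089c0602)))) 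
(.lf (nat_lit 473612747) (dlOf (nat_lit 1) (nat_lit 0xac004002c0008f67a82))))) (.nd (nat_lit 8) 
(.nd (nat_lit 7) (.nd (nat_lit 26) 
(.lf (nat_lit 3493773899) (dlOf (nat_lit 1) (nat_lit 0x4002000200081b1182))) 
(.lf (nat_lit 2755576395) (dlOf (nat_lit 1) (nat_lit 0x4002000200081b1182)))) 
(.lf (nat_lit 19845835) (dlOf (nat_lit 1) (nat_lit 0x200289d8c81)))) (.nd (nat_lit 18) 
(.lf (nat_lit 20630347) (dlOf (nat_lit 1) (nat_lit 0x4002000200089d5c02))) 
(.lf (nat_lit 54446923) (dlOf (nat_lit 1) (nat_lit 0x60029655c01))))))) (.nd (nat_lit 5) 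
(.nd (nat_lit 18) (.nd (nat_lit 7) (.nd (nat_lit 6) 
(.lf (nat_lit 8049931) (dlOf (nat_lit 1) (nat_lit 0x10008000400200040008519683))) (.nd (nat_lit 8) 
(.lf (nat_lit 8046667) (dlOf (nat_lit 1) (nat_lit 0x8008003c002000a0008514703))) 
(.lf (nat_lit 8051019) (dlOf (nat_lit 1) (nat_lit 0x40040002000851ab82))))) (.nd (nat_lit 12) 
(.lf (nat_lit 23773643) (dlOf (nat_lit 2) (nat_lit 0x12c040000004001c00400200018b80982))) 
(.lf (nat_lit 8049099) (dlOf (nat_lit 1) (nat_lit 0x8008000800200040008518683))))) (.nd (nat_lit 8) 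
(.nd (nat_lit 6) (.lf (nat_lit 25083915) (dlOf (nat_lit 1) (nat_lit 0x8008000400200020008be0803))) 
(.lf (nat_lit 25083979) (dlOf (nat_lit 6) (nat_lit 0x8a6e800500000001d0200230000000e00806b0ef401c474e009c3a500951ad80040d4401a057a03dc279010312e802307e40006824009849a0003102007e351004e1268000bc100b0800803d4002050e0008be1483)))) 
(.nd (nat_lit 9) (.lf (nat_lit 50251083) (dlOf (nat_lit 1) (nat_lit 0x200194c3301))) 
(.lf (nat_lit 8308555) (dlOf (nat_lit 1) (nat_lit 0x1000400040018513e82)))))) (.nd (nat_lit 6) 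
(.nd (nat_lit 7) (.nd (nat_lit 8) (.nd (nat_lit 11) 
(.lf (nat_lit 25083947) (dlOf (nat_lit 14) (nat_lit 0x2e6d06000567d0003b36800258880186bfe00c15fc0006af68054532801f04a8001e220000510e00014458000da0c0006bfe0004f040379683001eafe000114100cada0c000880406f6d0600415fc000218200f4b42000108080795a10000820403fed08000400200fd6830001f810143b418035d7f0000700804eed0600396770017b368066d7f000b699400dd377005c12a0000dc3805fda0c0096cee005366d00b1afe001cd32801f44a8000360c025568300a0afe0000b01001c8008032c00200bc0008be0c03))) 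
(.lf (nat_lit 8050731) (dlOf (nat_lit 1) (nat_lit 0x800800040020002000851a603)))) 
(.lf (nat_lit 8046891) (dlOf (nat_lit 1) (nat_lit 0x60028514b81)))) (.nd (nat_lit 9) 
(.nd (nat_lit 10) (.lf (nat_lit 8044971) (dlOf (nat_lit 1) (nat_lit 0x400200020008511002))) 
(.lf (nat_lit 8045995) (dlOf (nat_lit 1) (nat_lit 0x20008513601)))) (.nd (nat_lit 8) 
(.lf (nat_lit 8046251) (dlOf (nat_lit 1) (nat_lit 0xc0018513a81))) 
(.lf (nat_lit 8048555) (dlOf (nat_lit 1) (nat_lit 0xc00400040008517982)))))) (.nd (nat_lit 7) 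
(.nd (nat_lit 8) (.lf (nat_lit 8046187) (dlOf (nat_lit 1) (nat_lit 0x180080008002000a0008513903))) 
(.nd (nat_lit 18) (.lf (nat_lit 23773547) (dlOf (nat_lit 1) (nat_lit 0x8008000800200020008b80703))) 
(.lf (nat_lit 24035691) (dlOf (nat_lit 1) (nat_lit 0x400400020008b80702))))) (.nd (nat_lit 8) 
(.nd (nat_lit 9) (.lf (nat_lit 8051947) (dlOf (nat_lit 1) (nat_lit 0x800800040020002000851c603))) 
(.lf (nat_lit 8045291) (dlOf (nat_lit 1) (nat_lit 0x8008002000200060008512103)))) 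
(.lf (nat_lit 8051691) (dlOf (nat_lit 1) (nat_lit 0x800800040020004000851bf03)))))))))) 
(.nd (nat_lit 6) (.nd (nat_lit 5) (.nd (nat_lit 21) (.nd (nat_lit 27) (.nd (nat_lit 19) 
(.nd (nat_lit 26) (.nd (nat_lit 23) (.nd (nat_lit 28) (.nd (nat_lit 20) 
(.lf (nat_lit 537116683) (dlOf (nat_lit 2) (nat_lit 0x201500000004012800400320008020482))) 
(.lf (nat_lit 18071563) (dlOf (nat_lit 1) (nat_lit 0x18c0008900581)))) (.nd (nat_lit 9) 
(.lf (nat_lit 2416427019) (dlOf (nat_lit 5) (nat_lit 0x201200040088004003c001001a0080c08001001200080088006003c001c01a0080b080018012000b0088003803c002401a0080a080018012000c0088005003c002c01a0080908000400081d0001))) 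
(.lf (nat_lit 4026778123) (dlOf (nat_lit 2) (nat_lit 0xdd0100086c04803d001f01e5006800594200460008014000201940008090d83))))) 
(.nd (nat_lit 18) (.nd (nat_lit 20) 
(.lf (nat_lit 12828683) (dlOf (nat_lit 1) (nat_lit 0x200286e0001))) 
(.lf (nat_lit 26460171) (dlOf (nat_lit 1) (nat_lit 0x300080004002000c0008c50003)))) 
(.nd (nat_lit 20) (.lf (nat_lit 13090827) (dlOf (nat_lit 1) (nat_lit 0xe00286f0081))) 
(.lf (nat_lit 30916619) (dlOf (nat_lit 1) (nat_lit 0x2e0008e50581)))))) (.nd (nat_lit 29) 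
(.nd (nat_lit 28) 
(.lf (nat_lit 1141096459) (dlOf (nat_lit 2) (nat_lit 0x20130035440800300080018002000400080d0003))) 
(.lf (nat_lit 1409531915) (dlOf (nat_lit 2) (nat_lit 0x201500000004012800400320008020482)))) 
(.nd (nat_lit 10) (.nd (nat_lit 30) 
(.lf (nat_lit 604225547) (dlOf (nat_lit 1) (nat_lit 0xa00280c0281))) 
(.lf (nat_lit 3825451019) (dlOf (nat_lit 1) (nat_lit 0x130008001c00200340008160483)))) 
(.lf (nat_lit 2751710219) (dlOf (nat_lit 1) (nat_lit 0x20008002881)))))) (.nd (nat_lit 20) 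
(.nd (nat_lit 7) (.nd (nat_lit 8) 
(.lf (nat_lit 9158667) (dlOf (nat_lit 1) (nat_lit 0x20018520001))) 
(.lf (nat_lit 51101963) (dlOf (nat_lit 1) (nat_lit 0x120029507401)))) 
(.lf (nat_lit 4094413707) (dlOf (nat_lit 1) (nat_lit 0x400400020008055c82)))) (.nd (nat_lit 18) 
(.nd (nat_lit 22) (.nd (nat_lit 24) 
(.lf (nat_lit 1343995915) (dlOf (nat_lit 1) (nat_lit 0xd80080004002000200083a0603))) 
(.lf (nat_lit 18595851) (dlOf (nat_lit 4) (nat_lit 0x1670b0033c81000539c80029bf40020d4600043e10033104000d38580138c080068008010800200240008950283)))) 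
(.lf (nat_lit 31178763) (dlOf (nat_lit 1) (nat_lit 0x38008001000200020008e70003)))) 
(.nd (nat_lit 7) (.lf (nat_lit 14663691) (dlOf (nat_lit 1) (nat_lit 0x8008000400200020008770003))) 
(.lf (nat_lit 2080907) (dlOf (nat_lit 2) (nat_lit 0x98a2b0001d818150100))))))) (.nd (nat_lit 26) 
(.nd (nat_lit 28) (.nd (nat_lit 7) 
(.lf (nat_lit 2819342347) (dlOf (nat_lit 1) (nat_lit 0x80004000e0008250102))) (.nd (nat_lit 9) 
(.lf (nat_lit 134725771) (dlOf (nat_lit 1) (nat_lit 0x20018090101))) 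
(.lf (nat_lit 5503175307) (dlOf (nat_lit 1) (nat_lit 0x14004000e0008095482))))) (.nd (nat_lit 31) 
(.nd (nat_lit 30) 
(.lf (nat_lit 939769867) (dlOf (nat_lit 3) (nat_lit 0x400b0008c810004005800460080128008003000200180008170483))) 
(.lf (nat_lit 2013511691) (dlOf (nat_lit 2) (nat_lit 0x2013001f580800300080018002000400080d0003)))) 
(.nd (nat_lit 18) 
(.lf (nat_lit 3087253515) (dlOf (nat_lit 1) (nat_lit 0x130008001c00200340008160483))) 
(.lf (nat_lit 2550644747) (dlOf (nat_lit 5) (nat_lit 0x201200040088004003c001001a00e3108001001200080088006003c001c01a00e30080018012000b0088003803c002401a00e2f080018012000c0088005003c002c01a00e2e08000400081d0001)))))) 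
(.nd (nat_lit 7) (.nd (nat_lit 8) (.nd (nat_lit 20) 
(.lf (nat_lit 1812185099) (dlOf (nat_lit 3) (nat_lit 0x400b0008a810004005800450080128008003000200180008170483))) 
(.lf (nat_lit 471056395) (dlOf (nat_lit 1) (nat_lit 0x3c0028260281)))) 
(.lf (nat_lit 2886189323) (dlOf (nat_lit 1) (nat_lit 0x600008187d01)))) (.nd (nat_lit 8) 
(.nd (nat_lit 9) (.lf (nat_lit 201834635) (dlOf (nat_lit 1) (nat_lit 0x20018090101))) 
(.lf (nat_lit 6376639115) (dlOf (nat_lit 1) (nat_lit 0x400400020008095482)))) 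
(.lf (nat_lit 4496542603) (dlOf (nat_lit 1) (nat_lit 0x4004000200080e5c82))))))) (.nd (nat_lit 18) 
(.nd (nat_lit 28) (.nd (nat_lit 7) (.nd (nat_lit 19) (.nd (nat_lit 23) 
(.lf (nat_lit 52674571) (dlOf (nat_lit 1) (nat_lit 0x80019560101))) 
(.lf (nat_lit 10731531) (dlOf (nat_lit 2) (nat_lit 0x171fc0001d204000400200060008620482)))) 
(.nd (nat_lit 23) (.lf (nat_lit 2754330635) (dlOf (nat_lit 1) (nat_lit 0xc002000c00080d0482))) 
(.lf (nat_lit 11255819) (dlOf (nat_lit 6) (nat_lit 0x24aa400165020002552000b20100052ad80057c08007158c001cab600223d500061e800028f34002b8140028ab6001370200080008680081))))) 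
(.nd (nat_lit 8) (.lf (nat_lit 2343051) (dlOf (nat_lit 1) (nat_lit 0x20018150101))) 
(.lf (nat_lit 2754857355) (dlOf (nat_lit 1) (nat_lit 0x200180f4e81))))) (.nd (nat_lit 31) 
(.nd (nat_lit 19) (.nd (nat_lit 26) 
(.lf (nat_lit 1881391115) (dlOf (nat_lit 1) (nat_lit 0x800400040018f00002))) 
(.lf (nat_lit 1008975883) (dlOf (nat_lit 1) (nat_lit 0x800400040009000002)))) 
(.lf (nat_lit 472629259) (dlOf (nat_lit 1) (nat_lit 0x400189d0101)))) (.nd (nat_lit 7) 
(.lf (nat_lit 3492528139) (dlOf (nat_lit 1) (nat_lit 0xc002000c00080d0482))) (.nd (nat_lit 11) 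
(.lf (nat_lit 3492003979) (dlOf (nat_lit 1) (nat_lit 0x800400020008090102))) 
(.lf (nat_lit 3493054603) (dlOf (nat_lit 1) (nat_lit 0x9000080f4801))))))) (.nd (nat_lit 19) 
(.nd (nat_lit 10) (.nd (nat_lit 20) (.nd (nat_lit 22) (.nd (nat_lit 28) 
(.lf (nat_lit 2605067) (dlOf (nat_lit 5) (nat_lit 0x3c388000a177007188200020e48007071000142ee00e300600081d500020e48003871000342ee00e2f0800041d500020e48005871000342ee00e2e0800020008170001))) 
(.lf (nat_lit 1881653259) (dlOf (nat_lit 1) (nat_lit 0x5c0008fa0001)))) 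
(.lf (nat_lit 15187979) (dlOf (nat_lit 2) (nat_lit 0xd85f5005e78187c0480)))) 
(.lf (nat_lit 3653643) (dlOf (nat_lit 5) (nat_lit 0xbb520007da5000becf80037508015be100007b52000dda50005ecf8002f508015bc10001bb520013da5000aecf80057508015b8100007b520005da50009ecf8004f508015b410001000400100018210682)))) 
(.nd (nat_lit 7) (.lf (nat_lit 1344783371) (dlOf (nat_lit 1) (nat_lit 0xc0008982881))) 
(.lf (nat_lit 61326987) (dlOf (nat_lit 1) (nat_lit 0x8008000400200020009923a03))))) 
(.nd (nat_lit 7) (.nd (nat_lit 20) 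
(.lf (nat_lit 24100875) (dlOf (nat_lit 1) (nat_lit 0x4e0008b80001))) (.nd (nat_lit 23) 
(.lf (nat_lit 473939979) (dlOf (nat_lit 7) (nat_lit 0x2033c0111204000c19e0082b0200060cf004140100050ac0002833c0104408000819e007fd0200440cf003fd018fc0000))) 
(.lf (nat_lit 46120971) (dlOf (nat_lit 2) (nat_lit 0xf5fb801d48080018008000c00200020009380003))))) 
(.nd (nat_lit 20) 
(.lf (nat_lit 57657739) (dlOf (nat_lit 1) (nat_lit 0x38008003800200100009794e83))) 
(.lf (nat_lit 54512011) (dlOf (nat_lit 1) (nat_lit 0x400400020009654e82)))))))) (.nd (nat_lit 28) 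
(.nd (nat_lit 19) (.nd (nat_lit 24) (.nd (nat_lit 18) (.nd (nat_lit 32) (.nd (nat_lit 26) 
(.lf (nat_lit 1073987627) (dlOf (nat_lit 2) (nat_lit 0x2602700012818070800))) 
(.lf (nat_lit 3825451051) (dlOf (nat_lit 1) (nat_lit 0x3400400020008160502)))) (.nd (nat_lit 7) 
(.lf (nat_lit 4362321963) (dlOf (nat_lit 3) (nat_lit 0x101180011004000408c0007c0200060028020601))) 
(.lf (nat_lit 5570284203) (dlOf (nat_lit 1) (nat_lit 0x4004000200080d5682))))) (.nd (nat_lit 26) 
(.nd (nat_lit 22) 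
(.lf (nat_lit 2819080235) (dlOf (nat_lit 2) (nat_lit 0x2d808c000000200020028190801))) 
(.lf (nat_lit 13090859) (dlOf (nat_lit 8) (nat_lit 0x38cf4000e6630015314000718400090b72001a5b0000d2c880049060001c6200048c7e000e6280010308000116e4001c4100058c7e00166280009308000316e4001c2100074c50003261000192dc8001ec1800c18fc000f404003cc7e000a628000a308000216e4000f2100054c7e000662800083080001e0180058008001800200ba00086f0b03)))) 
(.nd (nat_lit 7) 
(.lf (nat_lit 1678229547) (dlOf (nat_lit 2) (nat_lit 0x28140000e4040010004000e00081b0982))) 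
(.lf (nat_lit 2886189227) (dlOf (nat_lit 2) (nat_lit 0x200400021c018184c00)))))) (.nd (nat_lit 20) 
(.nd (nat_lit 18) (.nd (nat_lit 21) 
(.lf (nat_lit 25411627) (dlOf (nat_lit 5) (nat_lit 0x498560005302001cc2b0002901003b61580013c080f732fc0006404000c00400da0018c00602))) 
(.lf (nat_lit 52674603) (dlOf (nat_lit 1) (nat_lit 0x80019560901)))) 
(.lf (nat_lit 55033899) (dlOf (nat_lit 1) (nat_lit 0x2c800400a80009690302)))) (.nd (nat_lit 7) 
(.nd (nat_lit 23) 
(.lf (nat_lit 18071595) (dlOf (nat_lit 1) (nat_lit 0x480080004002000e0008900b03))) 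
(.lf (nat_lit 26460203) (dlOf (nat_lit 3) (nat_lit 0x228a0000580400654500002b0200040028c50381)))) 
(.lf (nat_lit 20174507) (dlOf (nat_lit 1) (nat_lit 0x4002000200089da002)))))) (.nd (nat_lit 21) 
(.nd (nat_lit 18) (.nd (nat_lit 20) 
(.lf (nat_lit 537641003) (dlOf (nat_lit 2) (nat_lit 0x4e052000000180e0600))) (.nd (nat_lit 22) 
(.lf (nat_lit 18595883) (dlOf (nat_lit 2) (nat_lit 0x8e880008a02000a0008950781))) 
(.lf (nat_lit 14401579) (dlOf (nat_lit 1) (nat_lit 0x40028750001))))) (.nd (nat_lit 20) 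
(.lf (nat_lit 17809451) (dlOf (nat_lit 2) (nat_lit 0x3c69000060188f0e00))) 
(.lf (nat_lit 23052331) (dlOf (nat_lit 2) (nat_lit 0x16d380009004000c00400020018b50602))))) 
(.nd (nat_lit 20) (.nd (nat_lit 23) 
(.lf (nat_lit 2754330667) (dlOf (nat_lit 1) (nat_lit 0x200180d0a81))) 
(.lf (nat_lit 11255851) (dlOf (nat_lit 5) (nat_lit 0x2c55b00bf18100072af8002956c00e88080008ac2001255f00082ad801d0c18003957c00e7404019400200420008680782)))) 
(.nd (nat_lit 11) (.nd (nat_lit 18) 
(.lf (nat_lit 2755379243) (dlOf (nat_lit 1) (nat_lit 0x800200060008170602))) 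
(.lf (nat_lit 25149483) (dlOf (nat_lit 1) (nat_lit 0x400400020008be0c02)))) 
(.lf (nat_lit 8116267) (dlOf (nat_lit 1) (nat_lit 0x40040002000851a602))))))) (.nd (nat_lit 30) 
(.nd (nat_lit 27) (.nd (nat_lit 18) (.nd (nat_lit 29) 
(.lf (nat_lit 4563648555) (dlOf (nat_lit 1) (nat_lit 0x168008006c002002600080b0403))) 
(.lf (nat_lit 2953035819) (dlOf (nat_lit 1) (nat_lit 0x80080004002000200080c0803)))) 
(.nd (nat_lit 29) (.lf (nat_lit 2416427051) (dlOf (nat_lit 1) (nat_lit 0x200281d0a01))) 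
(.lf (nat_lit 805814315) (dlOf (nat_lit 2) (nat_lit 0x28140001fc040010004000e00081b0982))))) 
(.nd (nat_lit 21) (.nd (nat_lit 29) 
(.lf (nat_lit 4697866283) (dlOf (nat_lit 1) (nat_lit 0x168008006c002002600080b0403))) 
(.lf (nat_lit 3087253547) (dlOf (nat_lit 1) (nat_lit 0x3400400020008160502)))) (.nd (nat_lit 8) 
(.lf (nat_lit 473940011) (dlOf (nat_lit 3) (nat_lit 0x6812c0000b02000c0cf00000018fc0280))) 
(.lf (nat_lit 1008976171) (dlOf (nat_lit 1) (nat_lit 0x20019000b01)))))) (.nd (nat_lit 19) 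
(.nd (nat_lit 11) (.nd (nat_lit 18) 
(.lf (nat_lit 4228104235) (dlOf (nat_lit 3) (nat_lit 0x100fc0011604000407e0007e0200060028020601))) 
(.lf (nat_lit 1343733803) (dlOf (nat_lit 3) (nat_lit 0x609280022c08012049400114040070004000c0008350782)))) 
(.nd (nat_lit 7) (.lf (nat_lit 3490172203) (dlOf (nat_lit 1) (nat_lit 0x400200020008006802))) 
(.lf (nat_lit 6308481707) (dlOf (nat_lit 1) (nat_lit 0x200280d5681))))) (.nd (nat_lit 31) 
(.nd (nat_lit 21) (.lf (nat_lit 1410056235) (dlOf (nat_lit 2) (nat_lit 0x4e052000000180e0600))) 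
(.lf (nat_lit 1345044523) (dlOf (nat_lit 1) (nat_lit 0x8004000200089d0902)))) (.nd (nat_lit 20) 
(.lf (nat_lit 3492528171) (dlOf (nat_lit 1) (nat_lit 0x200180d0a81))) 
(.lf (nat_lit 3493576747) (dlOf (nat_lit 1) (nat_lit 0x800200060008170602))))))))) (.nd (nat_lit 8) 
(.nd (nat_lit 20) (.nd (nat_lit 26) (.nd (nat_lit 24) (.nd (nat_lit 27) (.nd (nat_lit 7) 
(.nd (nat_lit 19) 
(.lf (nat_lit 4563648587) (dlOf (nat_lit 2) (nat_lit 0x16806400ac01500510090000cc1801180080010002000800080b0603))) 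
(.lf (nat_lit 3492528203) (dlOf (nat_lit 2) (nat_lit 0x13e1eb00980e90001581001f0008005c002006e00080d0d03)))) 
(.lf (nat_lit 8901323) (dlOf (nat_lit 1) (nat_lit 0x400200020008518c82)))) (.nd (nat_lit 9) 
(.nd (nat_lit 28) (.lf (nat_lit 134463563) (dlOf (nat_lit 1) (nat_lit 0x400400020008030f82))) 
(.lf (nat_lit 4697866315) (dlOf (nat_lit 2) (nat_lit 0x16806400ac01500510090000c81801180080010002000800080b0603)))) 
(.lf (nat_lit 671334987) (dlOf (nat_lit 3) (nat_lit 0x3400a0006b02001c00500035018158d00))))) 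
(.nd (nat_lit 5) (.nd (nat_lit 7) (.nd (nat_lit 19) 
(.lf (nat_lit 63160395) (dlOf (nat_lit 2) (nat_lit 0x733f00050c0800800080078002002600099e0603))) 
(.lf (nat_lit 21741643) (dlOf (nat_lit 1) (nat_lit 0x400400020008a70902)))) (.nd (nat_lit 18) 
(.lf (nat_lit 19649227) (dlOf (nat_lit 1) (nat_lit 0x200189d8c81))) 
(.lf (nat_lit 19911371) (dlOf (nat_lit 1) (nat_lit 0x80080004002000200089d8c83))))) 
(.nd (nat_lit 9) (.nd (nat_lit 21) 
(.lf (nat_lit 63160427) (dlOf (nat_lit 1) (nat_lit 0x4004000200199e0a02))) 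
(.lf (nat_lit 56868971) (dlOf (nat_lit 1) (nat_lit 0x60029770a01)))) 
(.lf (nat_lit 19645035) (dlOf (nat_lit 1) (nat_lit 0x80080004002000200089d1803)))))) 
(.nd (nat_lit 28) (.nd (nat_lit 7) (.nd (nat_lit 9) (.nd (nat_lit 19) 
(.lf (nat_lit 201572427) (dlOf (nat_lit 1) (nat_lit 0x400400020008030f82))) 
(.lf (nat_lit 2754330699) (dlOf (nat_lit 2) (nat_lit 0x13e1fd00980f380013c1001f0008005c002006e00080d0d03)))) 
(.lf (nat_lit 1677967947) (dlOf (nat_lit 3) (nat_lit 0x60144000460400e80a2002003a0000f028128d00)))) 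
(.nd (nat_lit 5) 
(.lf (nat_lit 4362584267) (dlOf (nat_lit 1) (nat_lit 0xb800800b800200360008090483))) 
(.lf (nat_lit 2751711467) (dlOf (nat_lit 1) (nat_lit 0x20018004b01))))) (.nd (nat_lit 5) 
(.nd (nat_lit 7) 
(.lf (nat_lit 1009238091) (dlOf (nat_lit 5) (nat_lit 0xe01c60078076000a182003703b0004ec08020838c01100ec000cd0400820e3004503b0003301002600080008002000200090a0603))) 
(.nd (nat_lit 9) 
(.lf (nat_lit 4228366539) (dlOf (nat_lit 1) (nat_lit 0xb800800b800200360008090483))) 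
(.lf (nat_lit 3557020363) (dlOf (nat_lit 1) (nat_lit 0x400200020008128c82))))) (.nd (nat_lit 10) 
(.lf (nat_lit 3557019883) (dlOf (nat_lit 1) (nat_lit 0x5a0028128081))) 
(.lf (nat_lit 872662251) (dlOf (nat_lit 1) (nat_lit 0x8008000400200020008092e83))))))) 
(.nd (nat_lit 19) (.nd (nat_lit 9) (.nd (nat_lit 23) (.nd (nat_lit 25) 
(.lf (nat_lit 4095197259) (dlOf (nat_lit 1) (nat_lit 0xc0018070601))) 
(.lf (nat_lit 35110987) (dlOf (nat_lit 1) (nat_lit 0x20028fd0601)))) (.nd (nat_lit 5) 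
(.lf (nat_lit 43499595) (dlOf (nat_lit 1) (nat_lit 0x400080038002001000092a0003))) 
(.lf (nat_lit 32751723) (dlOf (nat_lit 1) (nat_lit 0xc0018f10a01))))) (.nd (nat_lit 5) 
(.nd (nat_lit 7) 
(.lf (nat_lit 9683531) (dlOf (nat_lit 4) (nat_lit 0x15cefc0002302020077e0000f0100123bf000070080008008000400200020008578d03))) 
(.lf (nat_lit 20173515) (dlOf (nat_lit 1) (nat_lit 0x4002000200089d8c82)))) 
(.lf (nat_lit 6376639083) (dlOf (nat_lit 1) (nat_lit 0x400400020008095382))))) (.nd (nat_lit 21) 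
(.nd (nat_lit 18) (.nd (nat_lit 26) 
(.lf (nat_lit 5773181003) (dlOf (nat_lit 1) (nat_lit 0x60008005c002001000080b0603))) 
(.lf (nat_lit 6377160779) (dlOf (nat_lit 1) (nat_lit 0x60008005c002001000080b0603)))) 
(.nd (nat_lit 22) (.lf (nat_lit 44023883) (dlOf (nat_lit 1) (nat_lit 0x1e00192b1681))) 
(.lf (nat_lit 31440971) (dlOf (nat_lit 1) (nat_lit 0x8008000400200020008e90003))))) 
(.nd (nat_lit 11) (.nd (nat_lit 9) 
(.lf (nat_lit 25149515) (dlOf (nat_lit 1) (nat_lit 0xa000200460008be1482))) 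
(.lf (nat_lit 8115787) (dlOf (nat_lit 1) (nat_lit 0x400400020008519c02)))) (.nd (nat_lit 5) 
(.lf (nat_lit 8117323) (dlOf (nat_lit 1) (nat_lit 0x800800100020008000851bf03))) 
(.lf (nat_lit 8117483) (dlOf (nat_lit 1) (nat_lit 0x800800040020002000851c603)))))))) 
(.nd (nat_lit 19) (.nd (nat_lit 30) (.nd (nat_lit 5) (.nd (nat_lit 20) (.nd (nat_lit 10) 
(.lf (nat_lit 2343243) (dlOf (nat_lit 1) (nat_lit 0x20018150601))) 
(.lf (nat_lit 4698129739) (dlOf (nat_lit 1) (nat_lit 0x2b00080360002020c0008123303)))) 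
(.nd (nat_lit 21) (.lf (nat_lit 9683275) (dlOf (nat_lit 1) (nat_lit 0x80080084002000e0008574c83))) 
(.lf (nat_lit 28557643) (dlOf (nat_lit 1) (nat_lit 0x400400020008da0782))))) (.nd (nat_lit 7) 
(.lf (nat_lit 2755903851) (dlOf (nat_lit 4) (nat_lit 0x100a8000a051000a0228000d0180010114000640400240a80016053000102800007c1800e80080118002001200081b0703))) 
(.nd (nat_lit 18) 
(.lf (nat_lit 805552619) (dlOf (nat_lit 5) (nat_lit 0x3001c0006702003600e0003301000a0070001040800e00380007e04003400400140008127302))) 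
(.lf (nat_lit 537379307) (dlOf (nat_lit 1) (nat_lit 0x20028090d01)))))) (.nd (nat_lit 7) 
(.nd (nat_lit 18) (.nd (nat_lit 5) 
(.lf (nat_lit 3490955595) (dlOf (nat_lit 1) (nat_lit 0x40018048001))) 
(.lf (nat_lit 3494101355) (dlOf (nat_lit 3) (nat_lit 0x1a03d8000d00800b01ec00064040010004002a00181b0702)))) 
(.nd (nat_lit 26) (.lf (nat_lit 4027040107) (dlOf (nat_lit 1) (nat_lit 0xc002000200081b0702))) 
(.lf (nat_lit 3288842603) (dlOf (nat_lit 1) (nat_lit 0xc002000200081b0702))))) (.nd (nat_lit 5) 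
(.lf (nat_lit 1543750091) (dlOf (nat_lit 2) (nat_lit 0x20120015808400c002e000000600040028157101))) 
(.nd (nat_lit 10) (.lf (nat_lit 1409794539) (dlOf (nat_lit 1) (nat_lit 0x20028090d01))) 
(.lf (nat_lit 3624127979) (dlOf (nat_lit 3) (nat_lit 0xc040000600000003410001810000000040034004002e0018146e82))))))) 
(.nd (nat_lit 5) (.nd (nat_lit 18) (.nd (nat_lit 9) (.nd (nat_lit 12) 
(.lf (nat_lit 23839051) (dlOf (nat_lit 1) (nat_lit 0x20008b80601))) 
(.lf (nat_lit 8114507) (dlOf (nat_lit 1) (nat_lit 0x800400060018518282)))) 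
(.lf (nat_lit 46910283) (dlOf (nat_lit 1) (nat_lit 0x20029385c01)))) (.nd (nat_lit 20) 
(.nd (nat_lit 7) (.lf (nat_lit 3492796747) (dlOf (nat_lit 1) (nat_lit 0x1c004000200080fab82))) 
(.lf (nat_lit 3492791243) (dlOf (nat_lit 1) (nat_lit 0x200280f2881)))) (.nd (nat_lit 26) 
(.lf (nat_lit 3493839179) (dlOf (nat_lit 1) (nat_lit 0x200181b0601))) 
(.lf (nat_lit 2755641675) (dlOf (nat_lit 1) (nat_lit 0x200081b0601)))))) (.nd (nat_lit 7) 
(.nd (nat_lit 9) (.nd (nat_lit 22) 
(.lf (nat_lit 3129707) (dlOf (nat_lit 1) (nat_lit 0x8008000400200020008200703))) 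
(.lf (nat_lit 24101227) (dlOf (nat_lit 1) (nat_lit 0x400200020008b80702)))) 
(.lf (nat_lit 4094413675) (dlOf (nat_lit 1) (nat_lit 0x400400020008055c02)))) (.nd (nat_lit 18) 
(.nd (nat_lit 20) (.lf (nat_lit 36422635) (dlOf (nat_lit 1) (nat_lit 0x20019072881))) 
(.lf (nat_lit 35374059) (dlOf (nat_lit 1) (nat_lit 0x260019012881)))) (.nd (nat_lit 9) 
(.lf (nat_lit 61851115) (dlOf (nat_lit 6) (nat_lit 0x199c60022502000ace30010581000267180081c08004b3b400159d8001b204000eced00076760006b4100028008000c00200040009923603))) 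
(.lf (nat_lit 56607723) (dlOf (nat_lit 1) (nat_lit 0x40029732881))))))))))))

end

end Pool.Agent.Lib.MP_5854e1_co.Cz

namespace Pool.Agent.Lib.MP_5854e1_co.Cz

noncomputable section

noncomputable def tz174 : DT := (.nd (nat_lit 5) (.nd (nat_lit 6) (.nd (nat_lit 16) 
(.nd (nat_lit 0) (.nd (nat_lit 26) (.nd (nat_lit 21) (.nd (nat_lit 29) (.nd (nat_lit 19) 
(.nd (nat_lit 11) (.nd (nat_lit 20) 
(.lf (nat_lit 12763142) (dlOf (nat_lit 1) (nat_lit 0x10008000c002000a00086e0003))) 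
(.nd (nat_lit 22) 
(.lf (nat_lit 1343406086) (dlOf (nat_lit 1) (nat_lit 0x8008000400200020008220003))) 
(.lf (nat_lit 22200326) (dlOf (nat_lit 1) (nat_lit 0x20018aa0581))))) (.nd (nat_lit 9) 
(.lf (nat_lit 8833030) (dlOf (nat_lit 1) (nat_lit 0x60018514701))) 
(.lf (nat_lit 182790) (dlOf (nat_lit 1) (nat_lit 0x220018005001))))) (.nd (nat_lit 18) 
(.nd (nat_lit 22) (.nd (nat_lit 23) 
(.lf (nat_lit 134922246) (dlOf (nat_lit 2) (nat_lit 0x13203b0037e8180e0000))) 
(.lf (nat_lit 59424774) (dlOf (nat_lit 4) (nat_lit 0x4e82014f802000874100a6681000f3a0804e8408005000800f0002002400097f0003)))) 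
(.lf (nat_lit 21676038) (dlOf (nat_lit 1) (nat_lit 0x120008a60581)))) (.nd (nat_lit 10) 
(.nd (nat_lit 22) (.lf (nat_lit 3491676166) (dlOf (nat_lit 1) (nat_lit 0x18c00400400008090002))) 
(.lf (nat_lit 14598150) (dlOf (nat_lit 1) (nat_lit 0x400008033800201ae0008770003)))) 
(.lf (nat_lit 39764998) (dlOf (nat_lit 1) (nat_lit 0x200291f2881)))))) (.nd (nat_lit 7) 
(.nd (nat_lit 30) (.nd (nat_lit 9) (.nd (nat_lit 18) 
(.lf (nat_lit 5234671622) (dlOf (nat_lit 2) (nat_lit 0x600ac0378804002c004000c0008080002))) 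
(.lf (nat_lit 2819014662) (dlOf (nat_lit 1) (nat_lit 0x1180080014002000a0008150003)))) 
(.lf (nat_lit 2684535302) (dlOf (nat_lit 1) (nat_lit 0x4004000200080a1482)))) (.nd (nat_lit 9) 
(.nd (nat_lit 10) (.lf (nat_lit 1879228422) (dlOf (nat_lit 1) (nat_lit 0x200180b0001))) 
(.lf (nat_lit 1610793990) (dlOf (nat_lit 1) (nat_lit 0x38008000400200020008092883)))) 
(.lf (nat_lit 1610794502) (dlOf (nat_lit 1) (nat_lit 0x180028093681))))) (.nd (nat_lit 10) 
(.nd (nat_lit 8) (.lf (nat_lit 2818752646) (dlOf (nat_lit 1) (nat_lit 0x20018113b01))) 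
(.lf (nat_lit 805749126) (dlOf (nat_lit 2) (nat_lit 0xa60420037c8181a0780)))) (.nd (nat_lit 9) 
(.lf (nat_lit 2684540038) (dlOf (nat_lit 1) (nat_lit 0x1c00280a9501))) 
(.lf (nat_lit 2013447814) (dlOf (nat_lit 1) (nat_lit 0x60028093a01))))))) (.nd (nat_lit 8) 
(.nd (nat_lit 7) (.nd (nat_lit 9) (.nd (nat_lit 18) (.nd (nat_lit 19) 
(.lf (nat_lit 15908870) (dlOf (nat_lit 2) (nat_lit 0x4a14004d30200060018840281))) 
(.lf (nat_lit 23773190) (dlOf (nat_lit 1) (nat_lit 0xb000400ea0008b80002)))) 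
(.lf (nat_lit 24035334) (dlOf (nat_lit 1) (nat_lit 0x20018b80001)))) (.nd (nat_lit 12) 
(.lf (nat_lit 8045062) (dlOf (nat_lit 1) (nat_lit 0x8008000400200020008511483))) 
(.lf (nat_lit 8049158) (dlOf (nat_lit 1) (nat_lit 0xc00200040008518682))))) (.nd (nat_lit 9) 
(.nd (nat_lit 20) (.lf (nat_lit 23511174) (dlOf (nat_lit 1) (nat_lit 0x8008000400200020008b80103))) 
(.lf (nat_lit 11976838) (dlOf (nat_lit 1) (nat_lit 0x8002000200086c0102)))) 
(.lf (nat_lit 8046214) (dlOf (nat_lit 1) (nat_lit 0x400400020008513a02))))) (.nd (nat_lit 7) 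
(.nd (nat_lit 12) (.nd (nat_lit 19) (.nd (nat_lit 23) 
(.lf (nat_lit 35833094) (dlOf (nat_lit 1) (nat_lit 0x40019012f81))) 
(.lf (nat_lit 60998918) (dlOf (nat_lit 1) (nat_lit 0xc80080078002000800098c2f83)))) 
(.lf (nat_lit 36357382) (dlOf (nat_lit 1) (nat_lit 0x800200020009072f82)))) (.nd (nat_lit 10) 
(.lf (nat_lit 8048902) (dlOf (nat_lit 1) (nat_lit 0x280028518081))) 
(.lf (nat_lit 8049926) (dlOf (nat_lit 1) (nat_lit 0x60018519601))))) (.nd (nat_lit 19) 
(.nd (nat_lit 18) (.lf (nat_lit 20105606) (dlOf (nat_lit 1) (nat_lit 0x4002000200089d4e82))) 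
(.lf (nat_lit 57067910) (dlOf (nat_lit 1) (nat_lit 0x1800400060019794e82)))) (.nd (nat_lit 9) 
(.lf (nat_lit 62835078) (dlOf (nat_lit 1) (nat_lit 0x4002000200099a4e82))) 
(.lf (nat_lit 19843974) (dlOf (nat_lit 1) (nat_lit 0x4002000200089d5c02)))))))) (.nd (nat_lit 29) 
(.nd (nat_lit 27) (.nd (nat_lit 18) (.nd (nat_lit 7) (.nd (nat_lit 10) 
(.lf (nat_lit 67289094) (dlOf (nat_lit 1) (nat_lit 0xa00180a0001))) 
(.lf (nat_lit 69911558) (dlOf (nat_lit 1) (nat_lit 0x880080090002003e0008e12883)))) 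
(.lf (nat_lit 5435998342) (dlOf (nat_lit 1) (nat_lit 0x3c00200480008090382)))) (.nd (nat_lit 8) 
(.lf (nat_lit 4362518534) (dlOf (nat_lit 9) (nat_lit 0x7011c00f6a04005c08e00798020016047003cb81000a023801e4808005011c00f2204002808e003ed020022047001f3010010023800f940802180080134002004e0008090003))) 
(.lf (nat_lit 4362518790) (dlOf (nat_lit 1) (nat_lit 0x1c0008090481))))) (.nd (nat_lit 8) 
(.nd (nat_lit 9) (.nd (nat_lit 10) 
(.lf (nat_lit 202031110) (dlOf (nat_lit 2) (nat_lit 0x13203b006538180e0000))) 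
(.lf (nat_lit 473091078) (dlOf (nat_lit 1) (nat_lit 0x20028c95f81)))) 
(.lf (nat_lit 3422732806) (dlOf (nat_lit 1) (nat_lit 0x4004000200080a1482)))) (.nd (nat_lit 10) 
(.lf (nat_lit 473612550) (dlOf (nat_lit 4) (nat_lit 0x401f40006102000a0fa0002f81000107d0000000801b0008007000200060008f63583))) 
(.lf (nat_lit 3422737670) (dlOf (nat_lit 1) (nat_lit 0x200080a9601)))))) (.nd (nat_lit 8) 
(.nd (nat_lit 18) (.nd (nat_lit 7) (.nd (nat_lit 10) 
(.lf (nat_lit 1006813190) (dlOf (nat_lit 1) (nat_lit 0x200180b0001))) 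
(.lf (nat_lit 5301781510) (dlOf (nat_lit 2) (nat_lit 0x300440124e04003000400120008092882)))) 
(.lf (nat_lit 6377095302) (dlOf (nat_lit 1) (nat_lit 0x280080014002000a00080a2283)))) 
(.nd (nat_lit 7) (.nd (nat_lit 10) 
(.lf (nat_lit 3959865350) (dlOf (nat_lit 1) (nat_lit 0x190008002000200820008170003))) 
(.lf (nat_lit 604425222) (dlOf (nat_lit 3) (nat_lit 0x5200c00028010001006000138080090008009800200360008205f83)))) 
(.lf (nat_lit 6377357446) (dlOf (nat_lit 1) (nat_lit 0x200280c0f01))))) (.nd (nat_lit 18) 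
(.nd (nat_lit 7) (.nd (nat_lit 20) 
(.lf (nat_lit 738380550) (dlOf (nat_lit 4) (nat_lit 0x202b8000c808001816400100ae001a0520001783000102b8000b80800b000800ac00200bc0008095b03))) 
(.lf (nat_lit 4094872326) (dlOf (nat_lit 1) (nat_lit 0x2000401ee0008055b02)))) 
(.lf (nat_lit 738380678) (dlOf (nat_lit 1) (nat_lit 0x10008001000200060008095c03)))) 
(.nd (nat_lit 7) (.nd (nat_lit 9) 
(.lf (nat_lit 4228301062) (dlOf (nat_lit 1) (nat_lit 0x1c0008090481))) 
(.lf (nat_lit 604424966) (dlOf (nat_lit 1) (nat_lit 0x20028205b01)))) 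
(.lf (nat_lit 1678164358) (dlOf (nat_lit 2) (nat_lit 0xa6042006518181a0780)))))))) 
(.nd (nat_lit 19) (.nd (nat_lit 29) (.nd (nat_lit 7) (.nd (nat_lit 21) (.nd (nat_lit 18) 
(.nd (nat_lit 9) (.lf (nat_lit 12763143) (dlOf (nat_lit 1) (nat_lit 0x4004000400086e0002))) 
(.lf (nat_lit 43173383) (dlOf (nat_lit 1) (nat_lit 0x4004000200192a3682)))) (.nd (nat_lit 20) 
(.lf (nat_lit 13025287) (dlOf (nat_lit 1) (nat_lit 0x600286f0001))) 
(.lf (nat_lit 18268167) (dlOf (nat_lit 1) (nat_lit 0x80028920001))))) (.nd (nat_lit 9) 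
(.nd (nat_lit 23) (.lf (nat_lit 2277383) (dlOf (nat_lit 1) (nat_lit 0x40028150001))) 
(.lf (nat_lit 10665991) (dlOf (nat_lit 1) (nat_lit 0x1c0018610001)))) 
(.lf (nat_lit 3491938823) (dlOf (nat_lit 3) (nat_lit 0x435a001680200061ad0000b818090d80))))) 
(.nd (nat_lit 8) (.nd (nat_lit 18) (.nd (nat_lit 20) 
(.lf (nat_lit 1275248775) (dlOf (nat_lit 1) (nat_lit 0x10004000400080c0e02))) 
(.lf (nat_lit 9617543) (dlOf (nat_lit 2) (nat_lit 0xb87800006404000800400060018570e02)))) 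
(.lf (nat_lit 21414023) (dlOf (nat_lit 2) (nat_lit 0x293080006a04000c00400020018a30f02)))) 
(.nd (nat_lit 9) 
(.lf (nat_lit 3493249415) (dlOf (nat_lit 4) (nat_lit 0x8040000200200080200000f8100010100000700800880080080002002e0008105b83))) 
(.lf (nat_lit 3422737287) (dlOf (nat_lit 1) (nat_lit 0x4004000200180a9002)))))) (.nd (nat_lit 8) 
(.nd (nat_lit 9) (.nd (nat_lit 11) (.nd (nat_lit 28) 
(.lf (nat_lit 6039977991) (dlOf (nat_lit 1) (nat_lit 0x4004000200080a0002))) 
(.lf (nat_lit 5234671623) (dlOf (nat_lit 2) (nat_lit 0x3015806f10080050008002000200120008080003)))) 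
(.lf (nat_lit 5905762311) (dlOf (nat_lit 1) (nat_lit 0x400200020008144702)))) (.nd (nat_lit 7) 
(.lf (nat_lit 805490183) (dlOf (nat_lit 1) (nat_lit 0x580018117001))) 
(.lf (nat_lit 3758283399) (dlOf (nat_lit 2) (nat_lit 0x300350026301812b680))))) (.nd (nat_lit 7) 
(.nd (nat_lit 9) (.lf (nat_lit 805489927) (dlOf (nat_lit 1) (nat_lit 0x8008001000200020008116683))) 
(.lf (nat_lit 738380551) (dlOf (nat_lit 1) (nat_lit 0x200080034002004c0008095b03)))) 
(.nd (nat_lit 18) (.lf (nat_lit 939704711) (dlOf (nat_lit 1) (nat_lit 0x20028155b81))) 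
(.nd (nat_lit 26) (.lf (nat_lit 805749127) (dlOf (nat_lit 2) (nat_lit 0xe80420037c8181a0780))) 
(.lf (nat_lit 1678164359) (dlOf (nat_lit 2) (nat_lit 0xe8042006518181a0780)))))))) 
(.nd (nat_lit 21) (.nd (nat_lit 26) (.nd (nat_lit 20) (.nd (nat_lit 9) (.nd (nat_lit 10) 
(.lf (nat_lit 134922247) (dlOf (nat_lit 4) (nat_lit 0x400ec00e2404003c0760070802000203b0037b0180e0000))) 
(.lf (nat_lit 38454279) (dlOf (nat_lit 1) (nat_lit 0x8008000400200020009132883)))) 
(.lf (nat_lit 51036679) (dlOf (nat_lit 1) (nat_lit 0x4002000200094f7b02)))) (.nd (nat_lit 7) 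
(.nd (nat_lit 18) (.lf (nat_lit 1343930375) (dlOf (nat_lit 1) (nat_lit 0x2c0008380481))) 
(.lf (nat_lit 3491676167) (dlOf (nat_lit 1) (nat_lit 0x20018090001)))) 
(.lf (nat_lit 3491414407) (dlOf (nat_lit 2) (nat_lit 0x443cc007090200160028090781))))) 
(.nd (nat_lit 18) (.nd (nat_lit 7) (.nd (nat_lit 20) 
(.lf (nat_lit 202031111) (dlOf (nat_lit 4) (nat_lit 0x400ec0197604003c07600cb502000203b0064f8180e0000))) 
(.lf (nat_lit 4095393799) (dlOf (nat_lit 1) (nat_lit 0x80080004002000200080a0003)))) 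
(.lf (nat_lit 2753216903) (dlOf (nat_lit 2) (nat_lit 0x443f000cb60200160028090781)))) 
(.nd (nat_lit 9) (.lf (nat_lit 2753478663) (dlOf (nat_lit 1) (nat_lit 0x20018090001))) 
(.lf (nat_lit 4095657479) (dlOf (nat_lit 1) (nat_lit 0x4002000200080e3682)))))) (.nd (nat_lit 9) 
(.nd (nat_lit 8) (.nd (nat_lit 18) (.nd (nat_lit 20) (.nd (nat_lit 22) 
(.lf (nat_lit 1344978951) (dlOf (nat_lit 2) (nat_lit 0x5a07c003860189a0000))) 
(.lf (nat_lit 15384583) (dlOf (nat_lit 1) (nat_lit 0x2c004000200087e0002)))) 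
(.lf (nat_lit 16433159) (dlOf (nat_lit 2) (nat_lit 0x9ccc00bea040014004001400188a0002)))) 
(.lf (nat_lit 15646727) (dlOf (nat_lit 3) (nat_lit 0x18744003000100013a18016e4080008008000800200020008810283)))) 
(.nd (nat_lit 7) (.nd (nat_lit 12) 
(.lf (nat_lit 2754530567) (dlOf (nat_lit 1) (nat_lit 0x4002000200080f6682))) 
(.lf (nat_lit 8051975) (dlOf (nat_lit 1) (nat_lit 0x40040002000851c602)))) 
(.lf (nat_lit 37407111) (dlOf (nat_lit 1) (nat_lit 0x1c00090d4e81))))) (.nd (nat_lit 10) 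
(.nd (nat_lit 8) (.nd (nat_lit 12) 
(.lf (nat_lit 6378144263) (dlOf (nat_lit 1) (nat_lit 0x10008000400200040008117b03))) 
(.lf (nat_lit 8049159) (dlOf (nat_lit 1) (nat_lit 0x400200020008518682)))) 
(.lf (nat_lit 19847943) (dlOf (nat_lit 1) (nat_lit 0x4002000200089db982)))) (.nd (nat_lit 7) 
(.nd (nat_lit 8) (.lf (nat_lit 8046087) (dlOf (nat_lit 1) (nat_lit 0x8008000800200040008513683))) 
(.lf (nat_lit 8046343) (dlOf (nat_lit 1) (nat_lit 0x80008513b81)))) 
(.lf (nat_lit 8046215) (dlOf (nat_lit 1) (nat_lit 0x1000400160018513a02))))))))) (.nd (nat_lit 18) 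
(.nd (nat_lit 0) (.nd (nat_lit 8) (.nd (nat_lit 28) (.nd (nat_lit 19) (.nd (nat_lit 23) 
(.nd (nat_lit 30) (.nd (nat_lit 9) (.nd (nat_lit 10) 
(.lf (nat_lit 67354630) (dlOf (nat_lit 1) (nat_lit 0x7000080c0001))) 
(.lf (nat_lit 2751710214) (dlOf (nat_lit 1) (nat_lit 0x400200020008002882)))) 
(.lf (nat_lit 41140742) (dlOf (nat_lit 1) (nat_lit 0x80019227b01)))) (.nd (nat_lit 7) 
(.nd (nat_lit 26) (.lf (nat_lit 3355688966) (dlOf (nat_lit 1) (nat_lit 0x1000180c0281))) 
(.lf (nat_lit 1141096454) (dlOf (nat_lit 1) (nat_lit 0x80080004002000200080d0003)))) 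
(.lf (nat_lit 5436063878) (dlOf (nat_lit 2) (nat_lit 0x10098003004000064080024004004600180a2282))))) 
(.nd (nat_lit 7) (.nd (nat_lit 21) 
(.lf (nat_lit 29605894) (dlOf (nat_lit 1) (nat_lit 0x20028e20281))) 
(.lf (nat_lit 44285958) (dlOf (nat_lit 1) (nat_lit 0x4004000200092e0002)))) (.nd (nat_lit 21) 
(.lf (nat_lit 9683078) (dlOf (nat_lit 8) (nat_lit 0x8691400074860027a410012d1f800867700006c14001348a011da430001d1f8000d418006e9140007486002ba410013d1f800b6770000681400391460003202001ba450003d218004e904002747e00099dc00017050017d228003e90c002b4820011a3f000bcee0000b428008e91400074860027a410011d1f8008e7700005614004c00400b40018570e02))) 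
(.lf (nat_lit 11780230) (dlOf (nat_lit 1) (nat_lit 0x40002001c00086c0102)))))) (.nd (nat_lit 20) 
(.nd (nat_lit 7) (.nd (nat_lit 23) 
(.lf (nat_lit 2819342342) (dlOf (nat_lit 1) (nat_lit 0x218008000400200220008250003))) 
(.lf (nat_lit 9158662) (dlOf (nat_lit 1) (nat_lit 0x140028520001)))) 
(.lf (nat_lit 51101830) (dlOf (nat_lit 1) (nat_lit 0x7c0029503b01)))) (.nd (nat_lit 9) 
(.nd (nat_lit 10) 
(.lf (nat_lit 31178758) (dlOf (nat_lit 2) (nat_lit 0xd64680000004013c00400580018e70002))) 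
(.lf (nat_lit 54250502) (dlOf (nat_lit 1) (nat_lit 0x1c0009655f81)))) 
(.lf (nat_lit 8110598) (dlOf (nat_lit 1) (nat_lit 0x400400020008511482)))))) (.nd (nat_lit 9) 
(.nd (nat_lit 19) (.nd (nat_lit 7) (.nd (nat_lit 26) 
(.lf (nat_lit 2013511686) (dlOf (nat_lit 1) (nat_lit 0x80080004002000200080d0003))) 
(.lf (nat_lit 2617491462) (dlOf (nat_lit 1) (nat_lit 0x54004000200080c0282)))) 
(.lf (nat_lit 335790214) (dlOf (nat_lit 1) (nat_lit 0x200080a2281)))) (.nd (nat_lit 21) 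
(.lf (nat_lit 1007403014) (dlOf (nat_lit 1) (nat_lit 0x40008320001))) 
(.lf (nat_lit 1345044486) (dlOf (nat_lit 1) (nat_lit 0x6a00289d0001))))) (.nd (nat_lit 7) 
(.nd (nat_lit 10) (.lf (nat_lit 3494101510) (dlOf (nat_lit 1) (nat_lit 0x400181b0d81))) 
(.lf (nat_lit 4161000966) (dlOf (nat_lit 1) (nat_lit 0x80080008002000400080a9c03)))) 
(.nd (nat_lit 10) (.lf (nat_lit 6308481670) (dlOf (nat_lit 1) (nat_lit 0x400180d5481))) 
(.lf (nat_lit 4161001094) (dlOf (nat_lit 1) (nat_lit 0x600180a9e01))))))) (.nd (nat_lit 11) 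
(.nd (nat_lit 21) (.nd (nat_lit 10) 
(.lf (nat_lit 2684600582) (dlOf (nat_lit 1) (nat_lit 0x1c00080b4801))) (.nd (nat_lit 26) 
(.lf (nat_lit 6174262534) (dlOf (nat_lit 1) (nat_lit 0x200280d2f81))) 
(.lf (nat_lit 5704500486) (dlOf (nat_lit 1) (nat_lit 0x200280d2f81))))) (.nd (nat_lit 7) 
(.nd (nat_lit 19) (.lf (nat_lit 35898630) (dlOf (nat_lit 1) (nat_lit 0x40019012f81))) 
(.lf (nat_lit 36422918) (dlOf (nat_lit 1) (nat_lit 0x800200020009072f82)))) 
(.lf (nat_lit 8116102) (dlOf (nat_lit 1) (nat_lit 0x2001851a301))))) (.nd (nat_lit 7) 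
(.nd (nat_lit 9) 
(.lf (nat_lit 8112390) (dlOf (nat_lit 2) (nat_lit 0x42380001c604000400400020018514b82))) 
(.nd (nat_lit 19) (.lf (nat_lit 4094937862) (dlOf (nat_lit 1) (nat_lit 0x40028055b01))) 
(.lf (nat_lit 46910214) (dlOf (nat_lit 1) (nat_lit 0x400400020009385b02))))) (.nd (nat_lit 9) 
(.lf (nat_lit 39045510) (dlOf (nat_lit 1) (nat_lit 0xc0029194e81))) (.nd (nat_lit 12) 
(.lf (nat_lit 4899195782) (dlOf (nat_lit 1) (nat_lit 0x4002002800080d5c02))) 
(.lf (nat_lit 2754861958) (dlOf (nat_lit 1) (nat_lit 0x80080004002000200080fbc83)))))))) 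
(.nd (nat_lit 28) (.nd (nat_lit 7) (.nd (nat_lit 26) (.nd (nat_lit 21) (.nd (nat_lit 8) 
(.nd (nat_lit 27) 
(.lf (nat_lit 4295213063) (dlOf (nat_lit 1) (nat_lit 0x80080004002000200080b0003))) 
(.lf (nat_lit 4429430791) (dlOf (nat_lit 1) (nat_lit 0x80080004002000200080b0003)))) 
(.lf (nat_lit 2281952519) (dlOf (nat_lit 1) (nat_lit 0x800180a9601)))) (.nd (nat_lit 20) 
(.lf (nat_lit 10731527) (dlOf (nat_lit 2) (nat_lit 0x593a4001f404003800400140008620482))) 
(.lf (nat_lit 28557319) (dlOf (nat_lit 1) (nat_lit 0x3400200080008da0002))))) (.nd (nat_lit 9) 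
(.nd (nat_lit 22) (.lf (nat_lit 1141096455) (dlOf (nat_lit 1) (nat_lit 0x4002000200080d0002))) 
(.lf (nat_lit 2755903495) (dlOf (nat_lit 1) (nat_lit 0x60002002000081b0002)))) 
(.lf (nat_lit 2755904007) (dlOf (nat_lit 3) (nat_lit 0x11021000514080088174000e6040014004002800081b0d82))))) 
(.nd (nat_lit 9) (.nd (nat_lit 8) (.nd (nat_lit 19) 
(.lf (nat_lit 9683079) (dlOf (nat_lit 3) (nat_lit 0x2f3ca000360200199e50004c9c8005e0d0000d29a0004944000548b0013230405d514601108700004425802fa0d0013cf80000845501061e780018000000643c031400400080008570e02))) 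
(.lf (nat_lit 7061639) (dlOf (nat_lit 1) (nat_lit 0x10004000200084b0482)))) 
(.lf (nat_lit 1677967751) (dlOf (nat_lit 5) (nat_lit 0x360350003481001200d80011008006806c0008004004c088008001b0001f828125b80)))) 
(.nd (nat_lit 11) (.lf (nat_lit 8110727) (dlOf (nat_lit 1) (nat_lit 0x300008511a01))) 
(.lf (nat_lit 1208208007) (dlOf (nat_lit 1) (nat_lit 0x20028095481)))))) (.nd (nat_lit 7) 
(.nd (nat_lit 19) (.nd (nat_lit 29) (.nd (nat_lit 27) 
(.lf (nat_lit 4563648519) (dlOf (nat_lit 1) (nat_lit 0x600180b0001))) 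
(.lf (nat_lit 4697866247) (dlOf (nat_lit 1) (nat_lit 0x600180b0001)))) (.nd (nat_lit 9) 
(.lf (nat_lit 2013511687) (dlOf (nat_lit 1) (nat_lit 0x4002000200080d0002))) 
(.lf (nat_lit 5234738695) (dlOf (nat_lit 1) (nat_lit 0x100008008c002001600080d3683))))) 
(.nd (nat_lit 20) (.nd (nat_lit 26) 
(.lf (nat_lit 1342947335) (dlOf (nat_lit 1) (nat_lit 0x40028110581))) 
(.lf (nat_lit 470532103) (dlOf (nat_lit 1) (nat_lit 0x40028110581)))) 
(.lf (nat_lit 471580679) (dlOf (nat_lit 1) (nat_lit 0x20028340281))))) (.nd (nat_lit 8) 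
(.nd (nat_lit 9) (.nd (nat_lit 10) 
(.lf (nat_lit 6376112263) (dlOf (nat_lit 1) (nat_lit 0x400400020018090382))) 
(.lf (nat_lit 3624127623) (dlOf (nat_lit 1) (nat_lit 0x20028146181)))) 
(.lf (nat_lit 4094937735) (dlOf (nat_lit 1) (nat_lit 0x20018055481)))) (.nd (nat_lit 21) 
(.lf (nat_lit 3489909127) (dlOf (nat_lit 2) (nat_lit 0x103cc014640200020018004e81))) 
(.lf (nat_lit 1881393543) (dlOf (nat_lit 1) (nat_lit 0x190008013800200a80008f04e83)))))))) 
(.nd (nat_lit 28) (.nd (nat_lit 24) (.nd (nat_lit 0) (.nd (nat_lit 23) (.nd (nat_lit 19) 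
(.nd (nat_lit 22) 
(.lf (nat_lit 2819080198) (dlOf (nat_lit 4) (nat_lit 0x6c81c8002807e00654040062036003280100010210018f0080020008001000200160008190283))) 
(.lf (nat_lit 2756165638) (dlOf (nat_lit 2) (nat_lit 0x1803c006670200280028210401)))) 
(.nd (nat_lit 20) (.lf (nat_lit 5226502) (dlOf (nat_lit 1) (nat_lit 0x8008000400200020008330003))) 
(.lf (nat_lit 69189638) (dlOf (nat_lit 2) (nat_lit 0xc1180009043805f88100098008001c002000600088c0003))))) 
(.nd (nat_lit 20) (.nd (nat_lit 7) 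
(.lf (nat_lit 42450950) (dlOf (nat_lit 1) (nat_lit 0x160029250001))) 
(.lf (nat_lit 45074822) (dlOf (nat_lit 1) (nat_lit 0x9e0019324e81)))) (.nd (nat_lit 25) 
(.lf (nat_lit 10469382) (dlOf (nat_lit 1) (nat_lit 0xc004000200085e0582))) 
(.lf (nat_lit 44023814) (dlOf (nat_lit 1) (nat_lit 0x80080004002000200092b0003)))))) 
(.nd (nat_lit 27) (.nd (nat_lit 7) 
(.lf (nat_lit 13090823) (dlOf (nat_lit 1) (nat_lit 0x44002000200086f0002))) (.nd (nat_lit 9) 
(.lf (nat_lit 3221733511) (dlOf (nat_lit 2) (nat_lit 0xd800000000040044002000c0008170102))) 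
(.lf (nat_lit 1074253447) (dlOf (nat_lit 1) (nat_lit 0x20002006800080f7182))))) (.nd (nat_lit 7) 
(.lf (nat_lit 2819080199) (dlOf (nat_lit 3) (nat_lit 0xac0840063f0200220420031e018190280))) 
(.nd (nat_lit 30) 
(.lf (nat_lit 2886189191) (dlOf (nat_lit 3) (nat_lit 0x13007a00a5702008a03d0052b018183d00))) 
(.lf (nat_lit 3959931015) (dlOf (nat_lit 2) (nat_lit 0xd800000000040044002000c0008170102))))))) 
(.nd (nat_lit 25) (.nd (nat_lit 7) (.nd (nat_lit 0) (.nd (nat_lit 19) 
(.lf (nat_lit 22528006) (dlOf (nat_lit 1) (nat_lit 0x20018af0001))) 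
(.lf (nat_lit 26198022) (dlOf (nat_lit 1) (nat_lit 0x980080024002000e0008c20003)))) 
(.lf (nat_lit 22003719) (dlOf (nat_lit 1) (nat_lit 0x400200020008a90002)))) (.nd (nat_lit 8) 
(.lf (nat_lit 23576710) (dlOf (nat_lit 1) (nat_lit 0x8008000800200020008b80103))) 
(.lf (nat_lit 19909510) (dlOf (nat_lit 1) (nat_lit 0x4002000200089d5c02))))) (.nd (nat_lit 8) 
(.nd (nat_lit 0) (.nd (nat_lit 9) 
(.lf (nat_lit 60279814) (dlOf (nat_lit 1) (nat_lit 0x12c00400040009845f82))) 
(.lf (nat_lit 50840070) (dlOf (nat_lit 5) (nat_lit 0x21ce80025a040030e740010202000673a0008081000e3a2000a1d0c0007a080038002000400094d8002)))) 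
(.lf (nat_lit 50840071) (dlOf (nat_lit 4) (nat_lit 0xc73a0009681000639d000408080041d100038e860003d04000a00194d8001)))) 
(.nd (nat_lit 9) (.lf (nat_lit 50839814) (dlOf (nat_lit 1) (nat_lit 0x600094d3581))) 
(.lf (nat_lit 54512390) (dlOf (nat_lit 1) (nat_lit 0x5e0009655b01))))))) (.nd (nat_lit 27) 
(.nd (nat_lit 10) (.nd (nat_lit 7) (.nd (nat_lit 22) (.nd (nat_lit 26) 
(.lf (nat_lit 4027039750) (dlOf (nat_lit 1) (nat_lit 0x154004006c00081b0002))) 
(.lf (nat_lit 3557277702) (dlOf (nat_lit 1) (nat_lit 0xc8008006400200120008190283)))) 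
(.lf (nat_lit 3494363142) (dlOf (nat_lit 2) (nat_lit 0x1803c00bfc0200280028210401)))) 
(.lf (nat_lit 3490171270) (dlOf (nat_lit 1) (nat_lit 0x400200020008004e82)))) (.nd (nat_lit 0) 
(.nd (nat_lit 8) (.lf (nat_lit 1344783366) (dlOf (nat_lit 1) (nat_lit 0x1c00400060008982882))) 
(.lf (nat_lit 1344783622) (dlOf (nat_lit 2) (nat_lit 0x141380003902005a0018982f81)))) 
(.nd (nat_lit 8) (.lf (nat_lit 1880605703) (dlOf (nat_lit 1) (nat_lit 0x20028aa2881))) 
(.lf (nat_lit 1344783623) (dlOf (nat_lit 1) (nat_lit 0x4004000a0008982f82)))))) (.nd (nat_lit 30) 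
(.nd (nat_lit 0) (.nd (nat_lit 19) (.nd (nat_lit 21) 
(.lf (nat_lit 470269958) (dlOf (nat_lit 2) (nat_lit 0x27844c00441b30038a8280c0000))) 
(.lf (nat_lit 1009238022) (dlOf (nat_lit 1) (nat_lit 0x1c002000a00090a0002)))) 
(.lf (nat_lit 473939974) (dlOf (nat_lit 1) (nat_lit 0xc00400100008fc0002)))) (.nd (nat_lit 10) 
(.lf (nat_lit 473939975) (dlOf (nat_lit 32) (nat_lit 0x88158005c067802280100220560017019e0089f040088158005c067802274100220560017019e0089c040088158005c0678022641000c85600112e0401102b000b80cf0044b0200350ac002e033c011280801102b000b80cf004498200440ac002e033c011240801102b000b80cf000904b0005820c0111e1000e82b000c40cf004448200440ac0003033c010b00800242b0000e0cf004298200130ac002114080220560017019e00831040088158005c0678020c0100130560008819e0082e040088158005c0678020b4100220560012019e00827040074158005c067802094100198560017019e00824040088158005c067802084100140560007019e0081f040088158005c067802078100220560017019e0081c040088158003106780206c100028560002819e0081a04008c1580066067801ff4100220560017019e007f5040048158004e067801fb0100198008004800200220008fc0003)))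 
(.lf (nat_lit 1008714759) (dlOf (nat_lit 1) (nat_lit 0x400400020008f52882))))) (.nd (nat_lit 0) 
(.nd (nat_lit 7) (.nd (nat_lit 10) 
(.lf (nat_lit 3624386822) (dlOf (nat_lit 2) (nat_lit 0xc006c000a204001800200400008187202))) 
(.lf (nat_lit 5772920070) (dlOf (nat_lit 1) (nat_lit 0x20028092f81)))) 
(.lf (nat_lit 6376376966) (dlOf (nat_lit 1) (nat_lit 0x400200020008095482)))) (.nd (nat_lit 7) 
(.lf (nat_lit 3624386823) (dlOf (nat_lit 2) (nat_lit 0x8806c0004a04006c00400a80008187282))) 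
(.lf (nat_lit 3624386695) (dlOf (nat_lit 3) (nat_lit 0x13007a004c202008a03d00260818183d00)))))))))) 
(.nd (nat_lit 0) (.nd (nat_lit 18) (.nd (nat_lit 16) (.nd (nat_lit 7) (.nd (nat_lit 20) 
(.nd (nat_lit 9) (.nd (nat_lit 19) (.nd (nat_lit 10) 
(.lf (nat_lit 14860358) (dlOf (nat_lit 1) (nat_lit 0x1900080074002000a0008790603))) 
(.lf (nat_lit 3758281798) (dlOf (nat_lit 3) (nat_lit 0x3405c000200200840270000e018129300)))) 
(.nd (nat_lit 26) 
(.lf (nat_lit 537575494) (dlOf (nat_lit 3) (nat_lit 0xb2017402800ae0308052016501980bd8000000b01407600ba000205a01e002b80f08148079806602ea02200c800f80ed0000000ae2001ac004000400180c1882))) 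
(.lf (nat_lit 4362780742) (dlOf (nat_lit 2) (nat_lit 0x1002e80398160015c0ae00dc0540083029803a8144017408e003c043004a0210015010001a80660004030004b017800c005800600280004e1e000200080f1881))))) 
(.nd (nat_lit 8) (.nd (nat_lit 11) 
(.lf (nat_lit 201507398) (dlOf (nat_lit 8) (nat_lit 0x1404a00230178001a4100048128009805e0006804001204a0043017800198100048128008405e0004404000604a0026017800108100048128006c05e0004004000604a000e0178000fc1000d000800b400200140008018d03))) 
(.lf (nat_lit 3959609926) (dlOf (nat_lit 2) (nat_lit 0x60450001d01811b580)))) 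
(.lf (nat_lit 3758282566) (dlOf (nat_lit 3) (nat_lit 0x1d80f40002c04004006400000020002002812a181))))) 
(.nd (nat_lit 19) (.nd (nat_lit 9) (.nd (nat_lit 22) 
(.lf (nat_lit 11714630) (dlOf (nat_lit 1) (nat_lit 0x2800186c0001))) 
(.lf (nat_lit 24297542) (dlOf (nat_lit 1) (nat_lit 0x20018b90e01)))) 
(.lf (nat_lit 11715142) (dlOf (nat_lit 2) (nat_lit 0x454f3600ea6e90001d0286c1100)))) 
(.nd (nat_lit 10) (.nd (nat_lit 26) 
(.lf (nat_lit 3491414598) (dlOf (nat_lit 7) (nat_lit 0x107b40004e0403643da00441d400740ac004e855c0004c1002803da0002502014a1ed000120100210f680007c0805a87b4000000401ac00400f80018091102))) 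
(.lf (nat_lit 2753217094) (dlOf (nat_lit 7) (nat_lit 0x107fc0004e0403643fe00441e900740ae804e85700004c1002803fe0002502014a1ff000120100210ff80007c0805a87fc000000401ac00400f80018091102)))) 
(.nd (nat_lit 8) (.lf (nat_lit 8046150) (dlOf (nat_lit 1) (nat_lit 0x10008000800200060008513803))) 
(.lf (nat_lit 8048454) (dlOf (nat_lit 1) (nat_lit 0x20028517701))))))) (.nd (nat_lit 19) 
(.nd (nat_lit 20) (.nd (nat_lit 9) (.nd (nat_lit 10) 
(.lf (nat_lit 3624059078) (dlOf (nat_lit 3) (nat_lit 0x60000000d0100020028000000800700080024002002e00080b0403))) 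
(.lf (nat_lit 1543687366) (dlOf (nat_lit 3) (nat_lit 0x201f0001901000200980008c080060008001000200140008146383)))) 
(.lf (nat_lit 3758281414) (dlOf (nat_lit 1) (nat_lit 0xc004000a0008128c82)))) (.nd (nat_lit 8) 
(.nd (nat_lit 9) (.lf (nat_lit 20106438) (dlOf (nat_lit 1) (nat_lit 0x200189d6381))) 
(.lf (nat_lit 20107974) (dlOf (nat_lit 1) (nat_lit 0x4002000200089d8c82)))) 
(.lf (nat_lit 11715014) (dlOf (nat_lit 2) (nat_lit 0x2c79e000200186c0900))))) (.nd (nat_lit 21) 
(.nd (nat_lit 8) (.lf (nat_lit 709318) (dlOf (nat_lit 1) (nat_lit 0x400200020008008c82))) 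
(.nd (nat_lit 26) 
(.lf (nat_lit 3491414470) (dlOf (nat_lit 4) (nat_lit 0x14a1e6000100100890f300007c0805707980003c04003400400560008090902))) 
(.lf (nat_lit 2753216966) (dlOf (nat_lit 4) (nat_lit 0x14a1f8000100100890fc00007c0805707e00003c04003400400560008090902))))) 
(.nd (nat_lit 8) (.lf (nat_lit 8045254) (dlOf (nat_lit 1) (nat_lit 0x28008000c00200040008511f03))) 
(.nd (nat_lit 12) 
(.lf (nat_lit 6378144198) (dlOf (nat_lit 1) (nat_lit 0x18008000400200060008117003))) 
(.lf (nat_lit 8049094) (dlOf (nat_lit 1) (nat_lit 0x1800200060008518682)))))))) (.nd (nat_lit 9) 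
(.nd (nat_lit 19) (.nd (nat_lit 8) (.nd (nat_lit 27) (.nd (nat_lit 20) 
(.lf (nat_lit 4563648582) (dlOf (nat_lit 3) (nat_lit 0x80198000940800900cc000000400e4004003200080b0582))) 
(.lf (nat_lit 26460230) (dlOf (nat_lit 3) (nat_lit 0x75ab40001c0200a2d5a005561a80006c1000a80080078002000a0008c50603)))) 
(.nd (nat_lit 26) 
(.lf (nat_lit 4697866310) (dlOf (nat_lit 3) (nat_lit 0x80198000980800900cc000000400e4004003200080b0582))) 
(.lf (nat_lit 5301846086) (dlOf (nat_lit 1) (nat_lit 0x400180a1681))))) (.nd (nat_lit 7) 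
(.nd (nat_lit 26) 
(.lf (nat_lit 805552454) (dlOf (nat_lit 9) (nat_lit 0x10098012c408000804c0095a04001c0600049f020038012000e0050010fc1000b80480087604005c0240041402002e0120020881000902a800b8048007f008001000400240018124c02))) 
(.lf (nat_lit 1677967686) (dlOf (nat_lit 9) (nat_lit 0x100980291808000804c0148404001c06000a34020038012000e0050027501000b8048013a404005c024009b202002e012004d781000902a800b80480132408001000400240018124c02)))) 
(.lf (nat_lit 41140678) (dlOf (nat_lit 1) (nat_lit 0xe400400020009227002))))) (.nd (nat_lit 21) 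
(.nd (nat_lit 8) (.nd (nat_lit 20) 
(.lf (nat_lit 13353030) (dlOf (nat_lit 2) (nat_lit 0x7c3db00027018721880))) 
(.lf (nat_lit 10207302) (dlOf (nat_lit 1) (nat_lit 0x1d00080130002006600085c0e83)))) 
(.lf (nat_lit 4094411078) (dlOf (nat_lit 1) (nat_lit 0x8008000400200020008050c83)))) 
(.nd (nat_lit 7) (.nd (nat_lit 26) 
(.lf (nat_lit 3492528198) (dlOf (nat_lit 2) (nat_lit 0x361eb00130e900005c1000900080024002004600080d0c83))) 
(.lf (nat_lit 2754330694) (dlOf (nat_lit 2) (nat_lit 0x361fd00130f380005c1000900080024002004600080d0c83)))) 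
(.lf (nat_lit 8114630) (dlOf (nat_lit 1) (nat_lit 0x1a0028518681)))))) (.nd (nat_lit 11) 
(.nd (nat_lit 21) (.nd (nat_lit 10) 
(.lf (nat_lit 1677967942) (dlOf (nat_lit 9) (nat_lit 0x12c027806c80e0001ea0806880a2001404b016901d00208068000481007280a2025804b01a901d00828068000461000a80a2000804b006101d00008418089014403a807400020040110051000701d00007c10113814404d8096043203a011800d000078200bd0144020809602b003a00d000d0000742006c8008048800200420008128d03))) 
(.lf (nat_lit 1610860102) (dlOf (nat_lit 1) (nat_lit 0x400400020008093802)))) (.nd (nat_lit 7) 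
(.lf (nat_lit 23315014) (dlOf (nat_lit 3) (nat_lit 0x59d0000530200aed7d009b65d8000e8100018008000800200040008b81103))) 
(.lf (nat_lit 20173510) (dlOf (nat_lit 1) (nat_lit 0x4002000200089d8c82))))) (.nd (nat_lit 8) 
(.nd (nat_lit 19) 
(.lf (nat_lit 1881393734) (dlOf (nat_lit 2) (nat_lit 0x2838c0009604005400400060008f05202))) 
(.nd (nat_lit 21) (.lf (nat_lit 68930118) (dlOf (nat_lit 1) (nat_lit 0x20018845201))) 
(.lf (nat_lit 473680454) (dlOf (nat_lit 2) (nat_lit 0x3829a001c09c00012028fa5200))))) 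
(.nd (nat_lit 7) (.lf (nat_lit 4899195718) (dlOf (nat_lit 1) (nat_lit 0x4002000200080d5c02))) 
(.lf (nat_lit 67882950) (dlOf (nat_lit 1) (nat_lit 0x400080048002003a0008337a83)))))))) 
(.nd (nat_lit 7) (.nd (nat_lit 16) (.nd (nat_lit 9) (.nd (nat_lit 20) (.nd (nat_lit 26) 
(.nd (nat_lit 27) 
(.lf (nat_lit 6442893382) (dlOf (nat_lit 1) (nat_lit 0x80080004002000a0008211883))) 
(.lf (nat_lit 2819014726) (dlOf (nat_lit 1) (nat_lit 0x800200020008150602)))) (.nd (nat_lit 27) 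
(.lf (nat_lit 3557212230) (dlOf (nat_lit 2) (nat_lit 0xd00280006c0800f8008008000200040008170603))) 
(.lf (nat_lit 3959865414) (dlOf (nat_lit 1) (nat_lit 0xa0018170001))))) (.nd (nat_lit 19) 
(.lf (nat_lit 26656838) (dlOf (nat_lit 3) (nat_lit 0x474c0000700800eba600021ab40001b0400080018c50601))) 
(.lf (nat_lit 14598214) (dlOf (nat_lit 2) (nat_lit 0x169000001d02000a0008770601))))) 
(.nd (nat_lit 26) (.nd (nat_lit 8) (.nd (nat_lit 11) 
(.lf (nat_lit 134660678) (dlOf (nat_lit 6) (nat_lit 0x56c08c00d202a00a600600009c180418128025c08c014a02f0045015001380300004c140170094011202f00012820064025004680bc000480801d405e000000200060008091101))) 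
(.lf (nat_lit 38193734) (dlOf (nat_lit 2) (nat_lit 0x45430002f819135200)))) 
(.lf (nat_lit 19843910) (dlOf (nat_lit 1) (nat_lit 0x4002000200089d5c02)))) (.nd (nat_lit 19) 
(.nd (nat_lit 20) 
(.lf (nat_lit 201769542) (dlOf (nat_lit 6) (nat_lit 0x56c08c00d202a00a600600009c180418128025c08c014a02f0045015001380300004c140170094011202f00012820064025004680bc000480801d405e000000200060008091101))) 
(.lf (nat_lit 2755052102) (dlOf (nat_lit 1) (nat_lit 0x40018108801)))) 
(.lf (nat_lit 2752430662) (dlOf (nat_lit 3) (nat_lit 0x10528000e00800e82200000004001000200020008018d02)))))) 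
(.nd (nat_lit 9) (.nd (nat_lit 19) (.nd (nat_lit 21) (.nd (nat_lit 10) 
(.lf (nat_lit 4702278) (dlOf (nat_lit 2) (nat_lit 0x42bcc0003a040070004000a00082b0602))) 
(.lf (nat_lit 513094) (dlOf (nat_lit 1) (nat_lit 0x80008002000200120008009303)))) (.nd (nat_lit 8) 
(.lf (nat_lit 3653702) (dlOf (nat_lit 2) (nat_lit 0x60000000600400ac00200180008210e02))) 
(.lf (nat_lit 23576902) (dlOf (nat_lit 1) (nat_lit 0x20028b80601))))) (.nd (nat_lit 20) 
(.lf (nat_lit 68141126) (dlOf (nat_lit 1) (nat_lit 0x20002000e0008400602))) (.nd (nat_lit 21) 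
(.lf (nat_lit 14663750) (dlOf (nat_lit 2) (nat_lit 0x4c9d800444cc000124a00188f840003810002000200040008770602))) 
(.lf (nat_lit 473940038) (dlOf (nat_lit 2) (nat_lit 0x270ae8002f4080150008001400200040008fc0603)))))) 
(.nd (nat_lit 8) (.nd (nat_lit 11) (.nd (nat_lit 26) 
(.lf (nat_lit 1342685766) (dlOf (nat_lit 32) (nat_lit 0x2be247052712181df08f0621446e04e61c50b230b9800144300b5891c033848606da23c046911b804185cc000a0142cf048e001c245094b1218001090434e047801da237004d11a80fc07dc00a43d602ec1d102670e681e707141784382007c1bb0b930b980013c78466891c1e1848615bc23c031611b8045871409ac3820eba173000270700e1123813908f0010446e0004d06170c247099212186cd08f004c046e03ce1f7000c0e880cf87340e0438a0b1c1c100b40dd854005cc000982c113048e04bc243066711e005b85cc00096101cc01280004a0208f809400024810b6704a0005020400090082da4128000e091000b04080011c1831a82500008c040a481280004502047e094000220104de04a00010c082ce025000082041d50128000400208920940001f81066604a0000f4080d2825000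0780413001280003b0202a8247065d12181da88f0622846e01001bb0ac50b980758250000741c04e448e0814243038711e01b188dc1c182e6030a0940001c860b391238041891425284861a6823c00ec11b811487dc073c3a200141cd004e0e2825e070400a4376158a1730b0404a0044824402e010200160030001c1008d3123840f890c2b90478064a23700810fb804107340a18382046a1bb09df0b9843182500006e28124048602841730001b020b871238026891426544861b3a23c013211b80c507dc03a03a200a21cd00950e2828507040090376142617306b204a0000d46800a090c0a6447803e40940001a030072121806d08f01238128000330603440940000901014004a0000000817e8008074c002098600080c1103))) 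
(.lf (nat_lit 470270534) (dlOf (nat_lit 32) (nat_lit 0x2be247052712181df08f0621446e04e61c50b230b8800144300b5891c033848606da23c046911b804185c4000a0142cf048e001c245094b1218001090434e047801da237004d11a80fc07dc00a43d602ec1d102670e681e707141784382007c1bb0b930b880013c78466891c1e1848615bc23c031611b8045871409ac3820eba171000270700e1123813908f0010446e0004d06170c247099212186cd08f004c046e03ce1f7000c0e880cf87340e0438a0b1c1c100b40dd854005c4000982c113048e04bc243066711e005b85c400096101cc01280004a0208f809400024810b6704a0005020400090082da4128000e091000b04080011c1831a82500008c040a481280004502047e094000220104de04a00010c082ce025000082041d50128000400208920940001f81066604a0000f4080d28250000780413001280003b0202a8247065d12181da88f0622846e01001bb0ac50b880758250000741c04e448e0814243038711e01b188dc1c182e2030a0940001c860b391238041891425284861a6823c00ec11b811487dc073c3a200141cd004e0e2825e070400a4376158a1710b0404a0044824402e010200160070001c1008d3123840f890c2b90478064a23700810fb804107340a18382046a1bb09df0b8843182500006e28124048602841710001b020b871238026891426544861b3a23c013211b80c507dc03a03a200a21cd00950e2828507040090376142617106b204a0000d46800a090c0a6447803e40940001a030072121806d08f01238128000330603440940000901014004a0000000817e8008074c002098600080c1103))))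 
(.lf (nat_lit 472369734) (dlOf (nat_lit 5) (nat_lit 0x118580008c13800074040022160001504e0001c81000c82340005a0403342c0000c09c00015828985200)))) 
(.nd (nat_lit 10) (.lf (nat_lit 19909446) (dlOf (nat_lit 1) (nat_lit 0x4002000200089d5c02))) 
(.lf (nat_lit 8902470) (dlOf (nat_lit 1) (nat_lit 0xc001851a181))))))) (.nd (nat_lit 28) 
(.nd (nat_lit 8) (.nd (nat_lit 10) (.nd (nat_lit 9) 
(.lf (nat_lit 2015430) (dlOf (nat_lit 1) (nat_lit 0x60018150401))) 
(.lf (nat_lit 19913414) (dlOf (nat_lit 1) (nat_lit 0x4002000200089db982)))) (.nd (nat_lit 11) 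
(.nd (nat_lit 21) (.lf (nat_lit 47629510) (dlOf (nat_lit 1) (nat_lit 0x400200020009402d02))) 
(.lf (nat_lit 32949446) (dlOf (nat_lit 1) (nat_lit 0x40028f52d01)))) 
(.lf (nat_lit 19848390) (dlOf (nat_lit 1) (nat_lit 0x4004000200089dc202))))) (.nd (nat_lit 26) 
(.nd (nat_lit 29) 
(.lf (nat_lit 3221668294) (dlOf (nat_lit 4) (nat_lit 0x680f8007401c0002004001200e0000f810027007000078080010008005400200120008170903))) 
(.lf (nat_lit 537313734) (dlOf (nat_lit 1) (nat_lit 0x20028090901)))) (.nd (nat_lit 27) 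
(.nd (nat_lit 29) 
(.lf (nat_lit 4362518982) (dlOf (nat_lit 10) (nat_lit 0x10802b0002981004f0158001480805b00ac000a20402080560005002000605600890158000f010003015801f80560003704006e02b0001b0100c20158000d40804700ac00068040030002000e0008090902))) 
(.lf (nat_lit 1678164422) (dlOf (nat_lit 11) (nat_lit 0x1b80210048803801e80000005306017c0420029007000148100e1810802ec01c00ac00000028830054021004b8038000a0080608084012c00e000f0000000f0180dd0108023001c010000c00820000000dc2003a0108005401c0003604038204200c80070045803002240000003508026e042004c0070000d01001b81080000004045800400f800181a0902)))) 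
(.lf (nat_lit 3959865798) (dlOf (nat_lit 4) (nat_lit 0x680f8007401c0002004001200e0000f810027007000078080010008005400200120008170903)))))) 
(.nd (nat_lit 26) (.nd (nat_lit 8) (.nd (nat_lit 10) 
(.lf (nat_lit 5773377734) (dlOf (nat_lit 1) (nat_lit 0x4002000200080c1782))) 
(.lf (nat_lit 3490106566) (dlOf (nat_lit 1) (nat_lit 0x8008000400200020008006383)))) 
(.nd (nat_lit 16) 
(.lf (nat_lit 805749190) (dlOf (nat_lit 11) (nat_lit 0x1b80210048803801e80000005306017c0420029007000148100e1810802ec01c00ac00000028830054021004b8038000a0080608084012c00e000f0000000f0180dd0108023001c010000c00820000000dc2003a0108005401c0003604038204200c80070045803002240000003508026e042004c0070000d01001b81080000004045800400f800181a0902))) 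
(.nd (nat_lit 20) 
(.lf (nat_lit 1342685638) (dlOf (nat_lit 12) (nat_lit 0x141825000ec122014e0810002703028104a001e82440294102007a00b0002684000e123800188dc0008c08099c12801600810002182026704a00598204000840809c0128017e0810001f02026a04a005c8204000780809c412801700810001d82000f0408000e00813b0250016812201440810001b8300010408000cc08046800803c400200f600080c0903))) 
(.lf (nat_lit 1345831366) (dlOf (nat_lit 2) (nat_lit 0x811300078818e07000)))))) (.nd (nat_lit 27) 
(.nd (nat_lit 8) 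
(.lf (nat_lit 1410252998) (dlOf (nat_lit 6) (nat_lit 0xf81c001ac000000270400380000000f010023032802a80000003408019c0000000d02000407000290000000001001a800800dc002005200081b0403))) 
(.lf (nat_lit 1409728966) (dlOf (nat_lit 1) (nat_lit 0x20028090901)))) (.nd (nat_lit 16) 
(.lf (nat_lit 4228301254) (dlOf (nat_lit 10) (nat_lit 0x10802a0002981004f0150001480805b00a8000a20402080540005002000604f00890150000f010003013c01f80540003704006e02a0001b0100c20150000d40804700a800068040030002000e0008090902))) 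
(.lf (nat_lit 470270406) (dlOf (nat_lit 12) (nat_lit 0x141825000ec122014e0810002703028104a001e82440294102007a00e0002684000e123800188dc0008c08099c12801600810002182026704a00598204000840809c0128017e0810001f02026a04a005c8204000780809c412801700810001d82000f0408000e00813b0250016812201440810001b8300010408000cc08046800803c400200f600080c0903))))))))) 
(.nd (nat_lit 18) (.nd (nat_lit 16) (.nd (nat_lit 9) (.nd (nat_lit 30) (.nd (nat_lit 20) 
(.nd (nat_lit 7) (.nd (nat_lit 8) 
(.lf (nat_lit 2751644743) (dlOf (nat_lit 2) (nat_lit 0x3c3f0014490200020018002881))) 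
(.lf (nat_lit 184647) (dlOf (nat_lit 1) (nat_lit 0x20028008281)))) 
(.lf (nat_lit 8571079) (dlOf (nat_lit 1) (nat_lit 0x400400020008514982)))) (.nd (nat_lit 19) 
(.nd (nat_lit 22) (.lf (nat_lit 62046279) (dlOf (nat_lit 1) (nat_lit 0x1c00200040009940602))) 
(.lf (nat_lit 24297543) (dlOf (nat_lit 1) (nat_lit 0x40018b90e01)))) (.nd (nat_lit 7) 
(.lf (nat_lit 8045639) (dlOf (nat_lit 1) (nat_lit 0x8008000400200020008512883))) 
(.lf (nat_lit 8049095) (dlOf (nat_lit 1) (nat_lit 0x1400200060008518682)))))) (.nd (nat_lit 10) 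
(.nd (nat_lit 19) (.nd (nat_lit 26) 
(.lf (nat_lit 1073922119) (dlOf (nat_lit 1) (nat_lit 0x140028020881))) 
(.lf (nat_lit 1946337351) (dlOf (nat_lit 1) (nat_lit 0x140028020881)))) (.nd (nat_lit 21) 
(.lf (nat_lit 1409990727) (dlOf (nat_lit 2) (nat_lit 0x3702b8000d00800400080028002002400080c1483))) 
(.lf (nat_lit 1344979015) (dlOf (nat_lit 3) (nat_lit 0x100148005700800700000011c040010002005400089a0602))))) 
(.nd (nat_lit 7) 
(.lf (nat_lit 3221409095) (dlOf (nat_lit 3) (nat_lit 0x5c03e00540000000381001280f8006801c003400c0003001000f8000000061402b800200180008116982))) 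
(.nd (nat_lit 8) 
(.lf (nat_lit 1543687367) (dlOf (nat_lit 2) (nat_lit 0x201f00030098000c81002f00080038002004c0008146383))) 
(.lf (nat_lit 1409469895) (dlOf (nat_lit 1) (nat_lit 0x8008000400200020008006d03))))))) 
(.nd (nat_lit 7) (.nd (nat_lit 8) (.nd (nat_lit 11) (.nd (nat_lit 20) 
(.lf (nat_lit 201507399) (dlOf (nat_lit 9) (nat_lit 0x32025002800bc000d20800b4094005203b004e0178001a0180128128014805e0006704004c04a0052017800198100180128013c05e0004404005c04a004e017800108100140128015005e0004104004004a004d0178001001001c8008006400200080008018d03))) 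
(.lf (nat_lit 11715143) (dlOf (nat_lit 1) (nat_lit 0x4002000200086c1102)))) (.nd (nat_lit 10) 
(.lf (nat_lit 472042055) (dlOf (nat_lit 1) (nat_lit 0x400200020008805202))) 
(.lf (nat_lit 805490247) (dlOf (nat_lit 1) (nat_lit 0x80018117181))))) (.nd (nat_lit 12) 
(.lf (nat_lit 46320455) (dlOf (nat_lit 1) (nat_lit 0x1e0029385c01))) 
(.lf (nat_lit 3221412679) (dlOf (nat_lit 2) (nat_lit 0x200230026200804b00080018002000e000811bc83))))) 
(.nd (nat_lit 8) (.nd (nat_lit 19) (.nd (nat_lit 20) 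
(.lf (nat_lit 3758281415) (dlOf (nat_lit 2) (nat_lit 0x203200000018128c80))) 
(.lf (nat_lit 20107975) (dlOf (nat_lit 1) (nat_lit 0x4002000200089d8c82)))) 
(.lf (nat_lit 709319) (dlOf (nat_lit 1) (nat_lit 0x400200020008008c82)))) (.nd (nat_lit 10) 
(.lf (nat_lit 738380743) (dlOf (nat_lit 1) (nat_lit 0x960008095d81))) 
(.lf (nat_lit 186311) (dlOf (nat_lit 1) (nat_lit 0x80020004000800a602))))))) (.nd (nat_lit 8) 
(.nd (nat_lit 28) (.nd (nat_lit 9) (.nd (nat_lit 19) 
(.lf (nat_lit 63160391) (dlOf (nat_lit 1) (nat_lit 0x800080004002000c00099e0603))) 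
(.lf (nat_lit 2754330695) (dlOf (nat_lit 2) (nat_lit 0x1a1fd00060f380005c100088008000c002004600080d0c83)))) 
(.nd (nat_lit 7) (.nd (nat_lit 10) 
(.lf (nat_lit 1677967943) (dlOf (nat_lit 7) (nat_lit 0x809e000f5020092051002601d0000901002781440098074000230400440510000f81003b028800d00e80003c0800980a2002603a0000e828128d00))) 
(.lf (nat_lit 1610860103) (dlOf (nat_lit 1) (nat_lit 0xc0028093801)))) 
(.lf (nat_lit 20173511) (dlOf (nat_lit 1) (nat_lit 0x4002000200089d8c82))))) (.nd (nat_lit 19) 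
(.nd (nat_lit 27) 
(.lf (nat_lit 4563648583) (dlOf (nat_lit 2) (nat_lit 0x2a019000c805400ec0240003306000400180b0601))) 
(.lf (nat_lit 4697866311) (dlOf (nat_lit 2) (nat_lit 0x2a019000c805400ec0240003206000400180b0601)))) 
(.nd (nat_lit 7) 
(.lf (nat_lit 3492528199) (dlOf (nat_lit 2) (nat_lit 0x1a1eb00060e900005c100088008000c002004600080d0c83))) 
(.lf (nat_lit 5772132551) (dlOf (nat_lit 1) (nat_lit 0x100018090801)))))) (.nd (nat_lit 11) 
(.nd (nat_lit 12) (.nd (nat_lit 20) (.nd (nat_lit 26) 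
(.lf (nat_lit 805552455) (dlOf (nat_lit 2) (nat_lit 0x2c00a0021f818124c00))) 
(.lf (nat_lit 1677967687) (dlOf (nat_lit 2) (nat_lit 0x2c00a004ea018124c00)))) 
(.lf (nat_lit 3490955591) (dlOf (nat_lit 1) (nat_lit 0x400400020008047f02)))) (.nd (nat_lit 7) 
(.lf (nat_lit 251207) (dlOf (nat_lit 1) (nat_lit 0x36400400ce0008009902))) 
(.lf (nat_lit 8114631) (dlOf (nat_lit 1) (nat_lit 0x180028518681))))) (.nd (nat_lit 7) 
(.nd (nat_lit 10) 
(.lf (nat_lit 2885929287) (dlOf (nat_lit 3) (nat_lit 0xc040000600000003410001810000000040034004002e0018144d02))) 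
(.lf (nat_lit 3624127815) (dlOf (nat_lit 2) (nat_lit 0x600f800022040010004001a0018146982)))) 
(.nd (nat_lit 26) 
(.lf (nat_lit 6308481991) (dlOf (nat_lit 2) (nat_lit 0x1809000058040020004000200180d5d82))) 
(.lf (nat_lit 4496542663) (dlOf (nat_lit 2) (nat_lit 0x80320000e8180e5d80)))))))) (.nd (nat_lit 19) 
(.nd (nat_lit 21) (.nd (nat_lit 9) (.nd (nat_lit 10) (.nd (nat_lit 20) (.nd (nat_lit 22) 
(.lf (nat_lit 805814343) (dlOf (nat_lit 2) (nat_lit 0x7012c00064040018004007200181b0e02))) 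
(.lf (nat_lit 21479495) (dlOf (nat_lit 2) (nat_lit 0x703a4000f804009800400220008a40482)))) 
(.lf (nat_lit 4095197255) (dlOf (nat_lit 1) (nat_lit 0x180080044002000e0008070603)))) 
(.nd (nat_lit 7) (.lf (nat_lit 43500615) (dlOf (nat_lit 1) (nat_lit 0x4004000200092a2882))) 
(.lf (nat_lit 4026977735) (dlOf (nat_lit 2) (nat_lit 0x5809000000040004004000400180f6d02))))) 
(.nd (nat_lit 26) (.nd (nat_lit 16) (.nd (nat_lit 27) 
(.lf (nat_lit 537313863) (dlOf (nat_lit 1) (nat_lit 0x800200220008091102))) 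
(.lf (nat_lit 134660679) (dlOf (nat_lit 1) (nat_lit 0xb000400040008091102)))) 
(.lf (nat_lit 1342685767) (dlOf (nat_lit 8) (nat_lit 0x1b046e000510200c22370002801001b11b80013808007091c00098040338128000420200da2370001d01006111b8000dc0800700080030002009800080c1103)))) 
(.nd (nat_lit 16) (.nd (nat_lit 27) 
(.lf (nat_lit 1409729095) (dlOf (nat_lit 1) (nat_lit 0x800200220008091102))) 
(.lf (nat_lit 201769543) (dlOf (nat_lit 1) (nat_lit 0xb000400040008091102)))) 
(.lf (nat_lit 470270535) (dlOf (nat_lit 8) (nat_lit 0x1b046e000510200c22370002801001b11b80013808007091c00098040338128000420200da2370001d01006111b8000dc0800700080030002009800080c1103)))))) 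
(.nd (nat_lit 28) (.nd (nat_lit 10) (.nd (nat_lit 7) 
(.lf (nat_lit 69713991) (dlOf (nat_lit 1) (nat_lit 0x130008013c00200980008bd0603))) 
(.lf (nat_lit 57068231) (dlOf (nat_lit 1) (nat_lit 0x9c0019795801)))) (.nd (nat_lit 22) 
(.lf (nat_lit 44483655) (dlOf (nat_lit 1) (nat_lit 0xa0019322881))) 
(.lf (nat_lit 57066567) (dlOf (nat_lit 1) (nat_lit 0x8008000800200020009792883))))) 
(.nd (nat_lit 8) (.nd (nat_lit 10) (.nd (nat_lit 16) 
(.lf (nat_lit 1344716871) (dlOf (nat_lit 1) (nat_lit 0x20018980001))) 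
(.lf (nat_lit 1009238087) (dlOf (nat_lit 4) (nat_lit 0x40398005940800681d8002920400d01c600040e2003503b00051c1800e80080008002001200090a0603)))) 
(.lf (nat_lit 472302663) (dlOf (nat_lit 1) (nat_lit 0x10008002000200020008982883)))) 
(.nd (nat_lit 7) (.lf (nat_lit 1881590599) (dlOf (nat_lit 1) (nat_lit 0x3000200020008f65c02))) 
(.lf (nat_lit 1344719303) (dlOf (nat_lit 1) (nat_lit 0x20008984e81))))))) (.nd (nat_lit 20) 
(.nd (nat_lit 24) (.nd (nat_lit 10) (.nd (nat_lit 9) 
(.lf (nat_lit 47104071) (dlOf (nat_lit 1) (nat_lit 0x8008003c002000200093a0603))) 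
(.lf (nat_lit 2752496199) (dlOf (nat_lit 2) (nat_lit 0x48710000d0040010002001e0008018d02)))) 
(.nd (nat_lit 16) (.lf (nat_lit 45007943) (dlOf (nat_lit 1) (nat_lit 0x8008000400200020009322883))) 
(.lf (nat_lit 3492791367) (dlOf (nat_lit 1) (nat_lit 0x200280f2881))))) (.nd (nat_lit 7) 
(.nd (nat_lit 8) (.lf (nat_lit 19841607) (dlOf (nat_lit 1) (nat_lit 0xc002000a00089d1582))) 
(.lf (nat_lit 19841863) (dlOf (nat_lit 1) (nat_lit 0x7600189d2381)))) (.nd (nat_lit 8) 
(.lf (nat_lit 19841735) (dlOf (nat_lit 1) (nat_lit 0x4c00189d1f01))) (.nd (nat_lit 11) 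
(.lf (nat_lit 19841991) (dlOf (nat_lit 1) (nat_lit 0x7000189d2801))) 
(.lf (nat_lit 19844039) (dlOf (nat_lit 2) (nat_lit 0x16ccd0000e8189d5d80))))))) (.nd (nat_lit 21) 
(.nd (nat_lit 7) (.nd (nat_lit 10) 
(.lf (nat_lit 14598215) (dlOf (nat_lit 1) (nat_lit 0x44002002c0008770602))) 
(.lf (nat_lit 4095657031) (dlOf (nat_lit 1) (nat_lit 0x4004000200080e2882)))) (.nd (nat_lit 8) 
(.lf (nat_lit 5773377735) (dlOf (nat_lit 2) (nat_lit 0x300b800034040004004000200180c1782))) 
(.lf (nat_lit 39766471) (dlOf (nat_lit 1) (nat_lit 0x2000191f4e81))))) (.nd (nat_lit 22) 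
(.nd (nat_lit 24) (.lf (nat_lit 3493773383) (dlOf (nat_lit 1) (nat_lit 0x8004000200181b0002))) 
(.lf (nat_lit 20889671) (dlOf (nat_lit 1) (nat_lit 0x200080008002000200089f0603)))) 
(.nd (nat_lit 7) 
(.lf (nat_lit 25083975) (dlOf (nat_lit 1) (nat_lit 0x1c8008005400200960008be1483))) 
(.lf (nat_lit 8313543) (dlOf (nat_lit 1) (nat_lit 0x600080034002000c000851b983))))))))))) 
(.nd (nat_lit 0) (.nd (nat_lit 16) (.nd (nat_lit 19) (.nd (nat_lit 8) (.nd (nat_lit 18) 
(.nd (nat_lit 26) (.nd (nat_lit 20) (.nd (nat_lit 27) (.nd (nat_lit 21) (.nd (nat_lit 29) 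
(.lf (nat_lit 2416099366) (dlOf (nat_lit 2) (nat_lit 0x3000c000aa04000800400020008060582))) 
(.lf (nat_lit 1879228454) (dlOf (nat_lit 1) (nat_lit 0x200180b0981)))) 
(.lf (nat_lit 27443238) (dlOf (nat_lit 1) (nat_lit 0x1c20028ce0601)))) (.nd (nat_lit 6) 
(.lf (nat_lit 2550317094) (dlOf (nat_lit 2) (nat_lit 0x3000c000aa04000800400020008060582))) 
(.lf (nat_lit 402834662) (dlOf (nat_lit 1) (nat_lit 0x400400020008092e02))))) (.nd (nat_lit 6) 
(.nd (nat_lit 10) (.nd (nat_lit 25) 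
(.lf (nat_lit 1345505830) (dlOf (nat_lit 1) (nat_lit 0x20028c95181))) 
(.lf (nat_lit 36882982) (dlOf (nat_lit 1) (nat_lit 0x400400020009075182)))) 
(.lf (nat_lit 20106790) (dlOf (nat_lit 1) (nat_lit 0x4004000200089d7182)))) 
(.lf (nat_lit 9617638) (dlOf (nat_lit 2) (nat_lit 0x2c3e8005c0c600071828571b80))))) 
(.nd (nat_lit 6) (.nd (nat_lit 7) 
(.lf (nat_lit 1006813222) (dlOf (nat_lit 1) (nat_lit 0x200180b0981))) (.nd (nat_lit 32) 
(.lf (nat_lit 1275248806) (dlOf (nat_lit 1) (nat_lit 0x80080004002000200080c1383))) 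
(.lf (nat_lit 5570216102) (dlOf (nat_lit 1) (nat_lit 0x2c00200020008081382))))) (.nd (nat_lit 7) 
(.nd (nat_lit 10) (.lf (nat_lit 6241304678) (dlOf (nat_lit 1) (nat_lit 0xb800180d0101))) 
(.lf (nat_lit 3020086374) (dlOf (nat_lit 2) (nat_lit 0x603c0001401812c080)))) 
(.lf (nat_lit 2080556262) (dlOf (nat_lit 1) (nat_lit 0x400400020008092e02)))))) (.nd (nat_lit 30) 
(.nd (nat_lit 24) (.nd (nat_lit 26) (.nd (nat_lit 7) 
(.lf (nat_lit 2819014694) (dlOf (nat_lit 1) (nat_lit 0x20018150281))) 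
(.lf (nat_lit 2416364710) (dlOf (nat_lit 1) (nat_lit 0x200180f6281)))) (.nd (nat_lit 20) 
(.lf (nat_lit 6510002214) (dlOf (nat_lit 3) (nat_lit 0x14026002500b8000a81000c005c0005204001400400020018180582))) 
(.lf (nat_lit 2752954406) (dlOf (nat_lit 1) (nat_lit 0x400200020008070782))))) (.nd (nat_lit 7) 
(.nd (nat_lit 22) (.lf (nat_lit 27705382) (dlOf (nat_lit 1) (nat_lit 0x40018d10881))) 
(.lf (nat_lit 23511078) (dlOf (nat_lit 1) (nat_lit 0x300018b80001)))) 
(.lf (nat_lit 51825318) (dlOf (nat_lit 1) (nat_lit 0x800200060009515602))))) (.nd (nat_lit 29) 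
(.nd (nat_lit 31) (.nd (nat_lit 6) 
(.lf (nat_lit 1346813990) (dlOf (nat_lit 1) (nat_lit 0x1000400120019020202))) 
(.lf (nat_lit 1476839014) (dlOf (nat_lit 4) (nat_lit 0x3f0030000100401f80180000702000a03d00800060000001001e800800cc00200620008203903)))) 
(.nd (nat_lit 20) 
(.lf (nat_lit 3492200486) (dlOf (nat_lit 1) (nat_lit 0x500080018002000200080b0b83))) 
(.lf (nat_lit 3491151910) (dlOf (nat_lit 1) (nat_lit 0x400200020008070782))))) (.nd (nat_lit 6) 
(.nd (nat_lit 9) 
(.lf (nat_lit 5906022438) (dlOf (nat_lit 3) (nat_lit 0x14025002500b8000a81000c005c0005204001400400020018180582))) 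
(.lf (nat_lit 6376835622) (dlOf (nat_lit 1) (nat_lit 0x400400020008095182)))) 
(.lf (nat_lit 1678164070) (dlOf (nat_lit 1) (nat_lit 0x4004000200081a0002))))))) (.nd (nat_lit 26) 
(.nd (nat_lit 7) (.nd (nat_lit 6) (.nd (nat_lit 9) (.nd (nat_lit 10) 
(.lf (nat_lit 184614) (dlOf (nat_lit 1) (nat_lit 0x220018008081))) 
(.lf (nat_lit 3490106662) (dlOf (nat_lit 2) (nat_lit 0x208b00012018006800)))) (.nd (nat_lit 10) 
(.lf (nat_lit 60214054) (dlOf (nat_lit 1) (nat_lit 0x20029845c01))) 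
(.lf (nat_lit 671270694) (dlOf (nat_lit 1) (nat_lit 0x118008003000200340008143d03))))) 
(.nd (nat_lit 10) (.nd (nat_lit 11) 
(.lf (nat_lit 3624059238) (dlOf (nat_lit 3) (nat_lit 0x4c0300030017001580b40094048005c01b002b00c001500500090024004a011002c0028015000800840000002918005a02e002f0168007809000b80360054018002900a0013004400a000a00560020027000800180000004e2c002c004005a00180b0702))) 
(.lf (nat_lit 3221408102) (dlOf (nat_lit 1) (nat_lit 0x220028114e81)))) 
(.lf (nat_lit 3221409126) (dlOf (nat_lit 2) (nat_lit 0x4e03e00011018116a80))))) (.nd (nat_lit 9) 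
(.nd (nat_lit 6) (.lf (nat_lit 8569254) (dlOf (nat_lit 1) (nat_lit 0x20008511001))) 
(.nd (nat_lit 18) 
(.lf (nat_lit 939704806) (dlOf (nat_lit 5) (nat_lit 0x28401600ae00400300000014441804a802c0134008005c000002648300a5005802a00100094000004c706012000b005a0020012c81002e00080014002001c0008157d03))) 
(.lf (nat_lit 23511526) (dlOf (nat_lit 1) (nat_lit 0x400400020008b80c82))))) (.nd (nat_lit 10) 
(.lf (nat_lit 3355628454) (dlOf (nat_lit 1) (nat_lit 0x800280a9101))) (.nd (nat_lit 28) 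
(.lf (nat_lit 671270822) (dlOf (nat_lit 1) (nat_lit 0x1000200020008144302))) 
(.lf (nat_lit 3087189926) (dlOf (nat_lit 1) (nat_lit 0x20028144301))))))) (.nd (nat_lit 7) 
(.nd (nat_lit 9) (.nd (nat_lit 10) (.nd (nat_lit 6) 
(.lf (nat_lit 2755838246) (dlOf (nat_lit 1) (nat_lit 0x4c00281b0501))) 
(.lf (nat_lit 2755838310) (dlOf (nat_lit 1) (nat_lit 0xc004000200081b0702)))) (.nd (nat_lit 11) 
(.lf (nat_lit 2080556326) (dlOf (nat_lit 1) (nat_lit 0x400200020008093182))) 
(.lf (nat_lit 3825388838) (dlOf (nat_lit 1) (nat_lit 0x400400020008146802))))) (.nd (nat_lit 10) 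
(.nd (nat_lit 18) 
(.lf (nat_lit 473090854) (dlOf (nat_lit 2) (nat_lit 0x5e0b280068c080028008000800200380008c95c03))) 
(.lf (nat_lit 604424998) (dlOf (nat_lit 5) (nat_lit 0x403a002501a00020080004780c002807a00180200011882003301e800f80e80098068005402a0033010000c8030005c0120022000001178800040060008b4080150008000400200140008205c03)))) 
(.lf (nat_lit 2751907622) (dlOf (nat_lit 1) (nat_lit 0x4000400240018003d02))))) (.nd (nat_lit 6) 
(.nd (nat_lit 9) 
(.lf (nat_lit 738380198) (dlOf (nat_lit 1) (nat_lit 0x900080014002001a0008094e83))) 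
(.lf (nat_lit 738380710) (dlOf (nat_lit 2) (nat_lit 0xe0150000f00801480080008002005e0008095d03)))) 
(.nd (nat_lit 28) (.nd (nat_lit 27) 
(.lf (nat_lit 4362256870) (dlOf (nat_lit 1) (nat_lit 0x138008008c002003e0008017d03))) 
(.lf (nat_lit 1812120038) (dlOf (nat_lit 18) (nat_lit 0xa802400540000005f04012a00b006b0048033001001ac0000005e08006200b0015004800a8000000ba0c025001600d8009006600200360000000b81000e4016000c0040002d82001400000014808019002c000960400c00160004902007400b0002401003a00580011c0801a002c002c008001e0000002203003800580050010000860800e40160004202003e00b000200100110058000f40800280000005e040050000000050200460028157301)))) 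
(.nd (nat_lit 29) 
(.lf (nat_lit 469942758) (dlOf (nat_lit 2) (nat_lit 0xa1238012c80800e80080054002000e0008017d03))) 
(.lf (nat_lit 4228039142) (dlOf (nat_lit 6) (nat_lit 0x13701500019c0809980a8000cc0404a00540004102026602a000200100770150000fc080110008004800200280008017303))))))))) 
(.nd (nat_lit 20) (.nd (nat_lit 18) (.nd (nat_lit 23) (.nd (nat_lit 26) (.nd (nat_lit 22) 
(.lf (nat_lit 5772066854) (dlOf (nat_lit 1) (nat_lit 0xa0008060c01))) 
(.lf (nat_lit 21676070) (dlOf (nat_lit 1) (nat_lit 0x400400220008a60c02)))) (.nd (nat_lit 6) 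
(.nd (nat_lit 7) (.lf (nat_lit 6376046630) (dlOf (nat_lit 1) (nat_lit 0xa0008060c01))) 
(.lf (nat_lit 2752169894) (dlOf (nat_lit 1) (nat_lit 0x34004014a0008004302)))) 
(.lf (nat_lit 472563814) (dlOf (nat_lit 4) (nat_lit 0xa0534004c1b200260d8001f03e801181f00001c14001c0fa0000c02002214d000203e8000001001400080100002002800089c0983))))) 
(.nd (nat_lit 22) (.nd (nat_lit 6) 
(.lf (nat_lit 42647590) (dlOf (nat_lit 1) (nat_lit 0x120019260201))) 
(.lf (nat_lit 42647654) (dlOf (nat_lit 2) (nat_lit 0x1c98b00000019260980)))) (.nd (nat_lit 7) 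
(.lf (nat_lit 13287462) (dlOf (nat_lit 1) (nat_lit 0x400400040008710c02))) 
(.lf (nat_lit 32162982) (dlOf (nat_lit 1) (nat_lit 0x8008000c00200020008ef2c03)))))) 
(.nd (nat_lit 6) (.nd (nat_lit 8) (.nd (nat_lit 7) 
(.lf (nat_lit 470728742) (dlOf (nat_lit 1) (nat_lit 0x2800400020008160782))) 
(.lf (nat_lit 19848358) (dlOf (nat_lit 1) (nat_lit 0xe00189dc201)))) (.nd (nat_lit 9) 
(.nd (nat_lit 10) (.lf (nat_lit 537837862) (dlOf (nat_lit 1) (nat_lit 0x600181b0501))) 
(.lf (nat_lit 5772330278) (dlOf (nat_lit 1) (nat_lit 0x400200020008093182)))) 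
(.lf (nat_lit 4094610214) (dlOf (nat_lit 1) (nat_lit 0x400200020008055c02))))) (.nd (nat_lit 7) 
(.nd (nat_lit 8) (.lf (nat_lit 34522214) (dlOf (nat_lit 1) (nat_lit 0x10004000a0008fb2982))) 
(.lf (nat_lit 1410253158) (dlOf (nat_lit 9) (nat_lit 0xb81dc00040cc010c0000001983002803b801101980006408004c0ee00300660001882002b03b800b0198000600800280000002502006807600820000000781002c80000003a04015c0000001c02001a00281b0701)))) 
(.nd (nat_lit 10) (.nd (nat_lit 11) 
(.lf (nat_lit 19841254) (dlOf (nat_lit 1) (nat_lit 0x4002000200089d0a82))) 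
(.lf (nat_lit 19847398) (dlOf (nat_lit 1) (nat_lit 0xe600289da881)))) 
(.lf (nat_lit 2754530534) (dlOf (nat_lit 1) (nat_lit 0x10004001e00080f6502))))))) (.nd (nat_lit 18) 
(.nd (nat_lit 11) (.nd (nat_lit 8) (.nd (nat_lit 6) (.nd (nat_lit 12) 
(.lf (nat_lit 473612838) (dlOf (nat_lit 1) (nat_lit 0x128004000a0008f68802))) 
(.lf (nat_lit 8049190) (dlOf (nat_lit 1) (nat_lit 0x8008000800200040008518903)))) 
(.lf (nat_lit 8050278) (dlOf (nat_lit 1) (nat_lit 0x400200020008519c02)))) (.nd (nat_lit 7) 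
(.lf (nat_lit 8049958) (dlOf (nat_lit 1) (nat_lit 0x60018519781))) (.nd (nat_lit 10) 
(.lf (nat_lit 8049062) (dlOf (nat_lit 1) (nat_lit 0x8008000400200040008518403))) 
(.lf (nat_lit 8045990) (dlOf (nat_lit 1) (nat_lit 0x400200020008513602)))))) (.nd (nat_lit 7) 
(.nd (nat_lit 6) (.nd (nat_lit 8) 
(.lf (nat_lit 41601574) (dlOf (nat_lit 1) (nat_lit 0xc8008000400200020009245183))) 
(.lf (nat_lit 8046886) (dlOf (nat_lit 1) (nat_lit 0x80028514b81)))) 
(.lf (nat_lit 8051814) (dlOf (nat_lit 2) (nat_lit 0x4aeb000319d4000500800040040004000851c082)))) 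
(.nd (nat_lit 6) (.nd (nat_lit 8) 
(.lf (nat_lit 8046758) (dlOf (nat_lit 1) (nat_lit 0x400200020008514882))) 
(.lf (nat_lit 37407142) (dlOf (nat_lit 1) (nat_lit 0x400090d4e81)))) 
(.lf (nat_lit 8046822) (dlOf (nat_lit 1) (nat_lit 0x20008514b01)))))) (.nd (nat_lit 6) 
(.nd (nat_lit 7) (.nd (nat_lit 21) 
(.lf (nat_lit 10403878) (dlOf (nat_lit 2) (nat_lit 0x2226c0010fe00002a04000400285d0581))) 
(.nd (nat_lit 26) (.lf (nat_lit 4112422) (dlOf (nat_lit 1) (nat_lit 0x8a0028280501))) 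
(.lf (nat_lit 473874470) (dlOf (nat_lit 1) (nat_lit 0xc0004002a0008fc0202))))) 
(.lf (nat_lit 8308134) (dlOf (nat_lit 1) (nat_lit 0x400200020008513602)))) (.nd (nat_lit 9) 
(.nd (nat_lit 21) (.lf (nat_lit 52346982) (dlOf (nat_lit 1) (nat_lit 0x8008000400200020009530983))) 
(.lf (nat_lit 473874534) (dlOf (nat_lit 4) (nat_lit 0xba0a6805d036402a41b00000e0601700d9000060100020a6804083640000008014000400580008fc0982)))) 
(.nd (nat_lit 12) (.lf (nat_lit 1346291302) (dlOf (nat_lit 1) (nat_lit 0x20028e83901))) 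
(.lf (nat_lit 8312422) (dlOf (nat_lit 1) (nat_lit 0x400200020008519c02))))))))) (.nd (nat_lit 18) 
(.nd (nat_lit 6) (.nd (nat_lit 21) (.nd (nat_lit 26) (.nd (nat_lit 27) (.nd (nat_lit 9) 
(.nd (nat_lit 19) (.nd (nat_lit 20) 
(.lf (nat_lit 25411622) (dlOf (nat_lit 1) (nat_lit 0x6000800a000200540008c00503))) 
(.lf (nat_lit 1343471654) (dlOf (nat_lit 1) (nat_lit 0x8008000800200040008260683)))) 
(.lf (nat_lit 10207270) (dlOf (nat_lit 2) (nat_lit 0x1ea3c000f5140000e8285c0a00)))) 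
(.nd (nat_lit 19) (.lf (nat_lit 268683814) (dlOf (nat_lit 1) (nat_lit 0x5400280e5181))) 
(.lf (nat_lit 52152870) (dlOf (nat_lit 1) (nat_lit 0x20009515181))))) (.nd (nat_lit 9) 
(.nd (nat_lit 28) 
(.lf (nat_lit 134463526) (dlOf (nat_lit 3) (nat_lit 0x100250000800800380ec0003a04000400400260008030a02))) 
(.nd (nat_lit 29) (.lf (nat_lit 1476640806) (dlOf (nat_lit 1) (nat_lit 0x800280c0681))) 
(.lf (nat_lit 2013511718) (dlOf (nat_lit 1) (nat_lit 0x800180d0201))))) (.nd (nat_lit 28) 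
(.lf (nat_lit 1208207910) (dlOf (nat_lit 1) (nat_lit 0x20018095181))) 
(.lf (nat_lit 6308481574) (dlOf (nat_lit 1) (nat_lit 0x400280d5181)))))) (.nd (nat_lit 8) 
(.nd (nat_lit 27) (.nd (nat_lit 30) 
(.lf (nat_lit 4362321958) (dlOf (nat_lit 9) (nat_lit 0x11815800280a8000602b0001103002c02b000a81500018056000210600420560001001002202b000501500003c0800a40ac0024054000501580007418010815800100a80001c040042056000301580006c1000181500003404012800400860018020582))) 
(.lf (nat_lit 1141096486) (dlOf (nat_lit 1) (nat_lit 0x800180d0201)))) (.nd (nat_lit 9) 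
(.nd (nat_lit 28) 
(.lf (nat_lit 201572390) (dlOf (nat_lit 3) (nat_lit 0x100250000800800380ec0003a04000400400260008030a02))) 
(.lf (nat_lit 4228104230) (dlOf (nat_lit 9) (nat_lit 0x11813c002809a000602a0001103002c027800a813400180540002106004204f00010010022027800501340003c0800a409e002404d000501500007418010813c001009a0001c04004204f000301500006c1000181340003404012800400860018020582)))) 
(.lf (nat_lit 5570284070) (dlOf (nat_lit 1) (nat_lit 0x8004000200080d5182))))) (.nd (nat_lit 7) 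
(.nd (nat_lit 29) (.lf (nat_lit 5704500518) (dlOf (nat_lit 1) (nat_lit 0x200280d3181))) 
(.lf (nat_lit 872662310) (dlOf (nat_lit 1) (nat_lit 0x50002001e0008093182)))) 
(.lf (nat_lit 1677967782) (dlOf (nat_lit 3) (nat_lit 0xd00980143c0800c004c0082404001800400120008126e82)))))) 
(.nd (nat_lit 19) (.nd (nat_lit 24) (.nd (nat_lit 7) 
(.lf (nat_lit 10731558) (dlOf (nat_lit 3) (nat_lit 0x52748000880800713600003a0400b400400020018620582))) 
(.nd (nat_lit 8) (.lf (nat_lit 35898534) (dlOf (nat_lit 1) (nat_lit 0x20019012c01))) 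
(.lf (nat_lit 11780518) (dlOf (nat_lit 1) (nat_lit 0x1800286c0781))))) (.nd (nat_lit 7) 
(.lf (nat_lit 27508774) (dlOf (nat_lit 1) (nat_lit 0x20018cf0601))) (.nd (nat_lit 9) 
(.lf (nat_lit 61064358) (dlOf (nat_lit 1) (nat_lit 0x8002000200098c2c02))) 
(.lf (nat_lit 20173478) (dlOf (nat_lit 1) (nat_lit 0x4002000200089d8c82)))))) (.nd (nat_lit 11) 
(.nd (nat_lit 9) (.nd (nat_lit 23) 
(.lf (nat_lit 1345044518) (dlOf (nat_lit 1) (nat_lit 0x400289d0781))) 
(.lf (nat_lit 11255846) (dlOf (nat_lit 1) (nat_lit 0x420028680601)))) 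
(.lf (nat_lit 8114726) (dlOf (nat_lit 1) (nat_lit 0x1a0028518901)))) (.nd (nat_lit 8) 
(.nd (nat_lit 22) (.lf (nat_lit 20695590) (dlOf (nat_lit 1) (nat_lit 0x200189d5181))) 
(.lf (nat_lit 41667110) (dlOf (nat_lit 1) (nat_lit 0xc0008000400200020009245183)))) 
(.lf (nat_lit 20695846) (dlOf (nat_lit 1) (nat_lit 0x10004000c00089d5c02))))))) (.nd (nat_lit 7) 
(.nd (nat_lit 9) (.nd (nat_lit 10) (.nd (nat_lit 19) 
(.lf (nat_lit 2343270) (dlOf (nat_lit 2) (nat_lit 0x31e0ec0006604002800400020008150702))) 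
(.lf (nat_lit 23839078) (dlOf (nat_lit 1) (nat_lit 0x400400020008b80702)))) (.nd (nat_lit 8) 
(.lf (nat_lit 34325606) (dlOf (nat_lit 1) (nat_lit 0x1e0018fb2981))) 
(.lf (nat_lit 2818823526) (dlOf (nat_lit 1) (nat_lit 0x400400020008129902))))) (.nd (nat_lit 10) 
(.nd (nat_lit 26) (.lf (nat_lit 5100522086) (dlOf (nat_lit 1) (nat_lit 0x200180d5381))) 
(.lf (nat_lit 5570284134) (dlOf (nat_lit 1) (nat_lit 0x800180d5381)))) (.nd (nat_lit 21) 
(.lf (nat_lit 67884646) (dlOf (nat_lit 1) (nat_lit 0xd00080004002001c0008339c03))) 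
(.lf (nat_lit 19650150) (dlOf (nat_lit 1) (nat_lit 0xc002000200089d9c02)))))) (.nd (nat_lit 28) 
(.nd (nat_lit 9) (.nd (nat_lit 21) (.nd (nat_lit 26) 
(.lf (nat_lit 671334886) (dlOf (nat_lit 2) (nat_lit 0x7402e000000200260028157d01))) 
(.lf (nat_lit 1677967846) (dlOf (nat_lit 9) (nat_lit 0x5402200340070005801000a220c016009e00c60380025f8200010278012f408013808800b801c004b2040082022004f00700078010009540c0204000004a00200d40000024b010001007000fb40801d0008005400200580008127d03)))) 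
(.nd (nat_lit 8) 
(.lf (nat_lit 19644646) (dlOf (nat_lit 1) (nat_lit 0x12800800b0002005200089d0a83))) 
(.lf (nat_lit 11780582) (dlOf (nat_lit 1) (nat_lit 0x50002000e00086c0c82))))) (.nd (nat_lit 19) 
(.lf (nat_lit 2751710182) (dlOf (nat_lit 1) (nat_lit 0x800200020008002882))) (.nd (nat_lit 20) 
(.lf (nat_lit 49005542) (dlOf (nat_lit 1) (nat_lit 0x420019462881))) 
(.lf (nat_lit 50054118) (dlOf (nat_lit 1) (nat_lit 0x1000294c2881)))))) (.nd (nat_lit 8) 
(.nd (nat_lit 26) 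
(.lf (nat_lit 5637391590) (dlOf (nat_lit 1) (nat_lit 0x8008000c002000200080d2e03))) 
(.lf (nat_lit 872662246) (dlOf (nat_lit 1) (nat_lit 0x60028092e01)))) (.nd (nat_lit 9) 
(.nd (nat_lit 10) (.lf (nat_lit 1543750118) (dlOf (nat_lit 2) (nat_lit 0x20210000c818157300))) 
(.lf (nat_lit 3624127974) (dlOf (nat_lit 1) (nat_lit 0x78008002800200180008146e83)))) 
(.lf (nat_lit 268684262) (dlOf (nat_lit 1) (nat_lit 0x24004000200180e5e82)))))))) (.nd (nat_lit 20) 
(.nd (nat_lit 19) (.nd (nat_lit 28) (.nd (nat_lit 22) (.nd (nat_lit 21) 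
(.lf (nat_lit 3892822054) (dlOf (nat_lit 1) (nat_lit 0x1c002000e0008280002))) 
(.lf (nat_lit 10993702) (dlOf (nat_lit 1) (nat_lit 0x400200020008650802)))) (.nd (nat_lit 6) 
(.nd (nat_lit 23) (.lf (nat_lit 55033894) (dlOf (nat_lit 1) (nat_lit 0x40009690201))) 
(.lf (nat_lit 13090854) (dlOf (nat_lit 4) (nat_lit 0xb18f00002a040010c7800086250000982000731e0000140800580080098002003000086f0903)))) 
(.lf (nat_lit 55033958) (dlOf (nat_lit 3) (nat_lit 0x3263005f84080059318000000400c400400400009690782))))) 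
(.nd (nat_lit 8) (.nd (nat_lit 6) (.nd (nat_lit 9) 
(.lf (nat_lit 3557277734) (dlOf (nat_lit 3) (nat_lit 0x6901c800300c200b8304019e0720080030802cb81000c00080070002004c0008190703))) 
(.lf (nat_lit 472369702) (dlOf (nat_lit 1) (nat_lit 0x8008000400200020008985183)))) 
(.lf (nat_lit 805814374) (dlOf (nat_lit 1) (nat_lit 0x144002004c00081b1382)))) (.nd (nat_lit 7) 
(.lf (nat_lit 3624386854) (dlOf (nat_lit 2) (nat_lit 0x1a03e00527018187800))) 
(.lf (nat_lit 472369574) (dlOf (nat_lit 1) (nat_lit 0x1c00400060008984e82)))))) (.nd (nat_lit 23) 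
(.nd (nat_lit 6) (.nd (nat_lit 8) 
(.lf (nat_lit 17809446) (dlOf (nat_lit 4) (nat_lit 0x15b8d40005bec000a482001ae3500051c08015f1a800284040030004008200088f0d82))) 
(.lf (nat_lit 2752495910) (dlOf (nat_lit 1) (nat_lit 0x20028014601)))) 
(.lf (nat_lit 3490693606) (dlOf (nat_lit 1) (nat_lit 0x20018017301)))) (.nd (nat_lit 7) 
(.nd (nat_lit 21) (.lf (nat_lit 26198054) (dlOf (nat_lit 1) (nat_lit 0x400400020008c20782))) 
(.lf (nat_lit 28295206) (dlOf (nat_lit 1) (nat_lit 0x60018d80781)))) 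
(.lf (nat_lit 45075110) (dlOf (nat_lit 1) (nat_lit 0x800400060009325602)))))) (.nd (nat_lit 21) 
(.nd (nat_lit 24) (.nd (nat_lit 8) (.nd (nat_lit 26) 
(.lf (nat_lit 1343733798) (dlOf (nat_lit 1) (nat_lit 0x1000080008002000e0008350783))) 
(.lf (nat_lit 2753019942) (dlOf (nat_lit 1) (nat_lit 0x400200020008080982)))) (.nd (nat_lit 6) 
(.lf (nat_lit 5772920102) (dlOf (nat_lit 1) (nat_lit 0x20028093181))) 
(.lf (nat_lit 43501030) (dlOf (nat_lit 1) (nat_lit 0x80080010002000400092a3603))))) 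
(.nd (nat_lit 9) (.nd (nat_lit 22) 
(.lf (nat_lit 26722342) (dlOf (nat_lit 2) (nat_lit 0x5983e000470200020028c60781))) 
(.lf (nat_lit 30916646) (dlOf (nat_lit 1) (nat_lit 0x2e0018e50a81)))) (.nd (nat_lit 8) 
(.lf (nat_lit 31443494) (dlOf (nat_lit 1) (nat_lit 0x20028e95181))) 
(.lf (nat_lit 60279590) (dlOf (nat_lit 1) (nat_lit 0x4c0019845c01)))))) (.nd (nat_lit 7) 
(.nd (nat_lit 9) (.nd (nat_lit 6) 
(.lf (nat_lit 473940006) (dlOf (nat_lit 6) (nat_lit 0xc42b000760cf005204b0018820c000521001082b000da0cf008804b0044820c0004e10007412c001a0830000c02002a0ac0027825800c41060001606001409600070418000241006b000801a400200700008fc0203))) 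
(.lf (nat_lit 473940070) (dlOf (nat_lit 4) (nat_lit 0x14a160000f0a68358836418941b000d809c007a046802281f400c00f80000e10015e16006b906c803a8270020c11a002a07d0000605007f0b003460364011c13800a808d001903e800000280430008062800200640008fc0983)))) 
(.nd (nat_lit 8) (.lf (nat_lit 41404966) (dlOf (nat_lit 1) (nat_lit 0x20019245181))) 
(.lf (nat_lit 54512422) (dlOf (nat_lit 1) (nat_lit 0x20029655c01))))) (.nd (nat_lit 8) 
(.lf (nat_lit 33014950) (dlOf (nat_lit 1) (nat_lit 0x400400020008f52c02))) (.nd (nat_lit 11) 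
(.lf (nat_lit 8372646) (dlOf (nat_lit 1) (nat_lit 0x20008511001))) 
(.lf (nat_lit 58706342) (dlOf (nat_lit 1) (nat_lit 0x200197e4e81)))))))))) (.nd (nat_lit 16) 
(.nd (nat_lit 19) (.nd (nat_lit 26) (.nd (nat_lit 8) (.nd (nat_lit 6) (.nd (nat_lit 18) 
(.nd (nat_lit 10) (.nd (nat_lit 22) 
(.lf (nat_lit 52609063) (dlOf (nat_lit 2) (nat_lit 0xd9d4014e00000002029560780))) 
(.lf (nat_lit 6471719) (dlOf (nat_lit 1) (nat_lit 0x20028420001)))) 
(.lf (nat_lit 1610794023) (dlOf (nat_lit 1) (nat_lit 0xa0028092881)))) (.nd (nat_lit 21) 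
(.nd (nat_lit 28) (.lf (nat_lit 2819014695) (dlOf (nat_lit 1) (nat_lit 0xcc0008150281))) 
(.lf (nat_lit 1476837415) (dlOf (nat_lit 1) (nat_lit 0x1360008200001)))) 
(.lf (nat_lit 15122471) (dlOf (nat_lit 1) (nat_lit 0x84002001200087c0682))))) (.nd (nat_lit 28) 
(.nd (nat_lit 7) (.nd (nat_lit 29) 
(.lf (nat_lit 1208142439) (dlOf (nat_lit 1) (nat_lit 0x400200020008095382))) 
(.lf (nat_lit 1745013351) (dlOf (nat_lit 1) (nat_lit 0x1e0028095381)))) 
(.lf (nat_lit 671271143) (dlOf (nat_lit 1) (nat_lit 0x10008000400200040008144b03)))) 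
(.nd (nat_lit 10) (.lf (nat_lit 1345505895) (dlOf (nat_lit 1) (nat_lit 0x2400400080008c95382))) 
(.lf (nat_lit 2013447783) (dlOf (nat_lit 1) (nat_lit 0x20028093901)))))) (.nd (nat_lit 9) 
(.nd (nat_lit 6) (.nd (nat_lit 7) 
(.lf (nat_lit 183591) (dlOf (nat_lit 1) (nat_lit 0x180018006801))) 
(.lf (nat_lit 39242151) (dlOf (nat_lit 1) (nat_lit 0x8008000c00200040009194e83)))) (.nd (nat_lit 7) 
(.nd (nat_lit 20) 
(.lf (nat_lit 3624059239) (dlOf (nat_lit 5) (nat_lit 0xa2030019a01780fd80b807e805a040802401f500d80fc00600804028040601201fb00880218030041801603fe00501fc00100ac800407cc0000002920041802e020f01680ed809008200360406018020a00a010580480820022028800b020d002810880080820002041e000000138d001d0180000940801b0050001c00a0001b04002400280b0701))) 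
(.lf (nat_lit 43172199) (dlOf (nat_lit 14) (nat_lit 0x7a460000d00800752300006604028695c0003202006b4ae00018810044a570000c008052d2b80005e0403d695c0002e0201454ae00016810020a570000b00801152b80003004006a95c0001602001362100001810016aff000000084b0000801b4002012400092a0f03)))) 
(.lf (nat_lit 6576849383) (dlOf (nat_lit 2) (nat_lit 0x1f80440008804000400400020018157302))))) 
(.nd (nat_lit 7) (.nd (nat_lit 6) (.nd (nat_lit 18) 
(.lf (nat_lit 1345506087) (dlOf (nat_lit 1) (nat_lit 0x20028c95c01))) 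
(.lf (nat_lit 60214055) (dlOf (nat_lit 1) (nat_lit 0x20019845c01)))) 
(.lf (nat_lit 8832871) (dlOf (nat_lit 1) (nat_lit 0x20018514001)))) (.nd (nat_lit 10) 
(.lf (nat_lit 3355628455) (dlOf (nat_lit 1) (nat_lit 0x200180a9101))) 
(.lf (nat_lit 5905762215) (dlOf (nat_lit 1) (nat_lit 0xa40028144301))))))) (.nd (nat_lit 6) 
(.nd (nat_lit 9) (.nd (nat_lit 18) (.nd (nat_lit 7) (.nd (nat_lit 8) 
(.lf (nat_lit 1677903911) (dlOf (nat_lit 1) (nat_lit 0xa0018114701))) 
(.lf (nat_lit 5301781799) (dlOf (nat_lit 2) (nat_lit 0x203500003018093180)))) 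
(.lf (nat_lit 5570216103) (dlOf (nat_lit 1) (nat_lit 0x8008004c00200040008081383)))) 
(.nd (nat_lit 21) (.nd (nat_lit 28) 
(.lf (nat_lit 604422183) (dlOf (nat_lit 1) (nat_lit 0x1360008200001))) 
(.lf (nat_lit 3557212199) (dlOf (nat_lit 1) (nat_lit 0x1c0008170281)))) 
(.lf (nat_lit 2754002983) (dlOf (nat_lit 1) (nat_lit 0x100080008002000400080b0c03))))) 
(.nd (nat_lit 8) (.nd (nat_lit 11) 
(.lf (nat_lit 1812120103) (dlOf (nat_lit 2) (nat_lit 0x6e00000263018157f00))) (.nd (nat_lit 18) 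
(.lf (nat_lit 1141033511) (dlOf (nat_lit 1) (nat_lit 0x400400020008095182))) 
(.lf (nat_lit 473352743) (dlOf (nat_lit 1) (nat_lit 0x40018ef5181))))) (.nd (nat_lit 7) 
(.nd (nat_lit 18) 
(.lf (nat_lit 473090855) (dlOf (nat_lit 2) (nat_lit 0x5d0b280068c080008008007c00200400008c95c03))) 
(.lf (nat_lit 604424999) (dlOf (nat_lit 5) (nat_lit 0x300680023c0200060200011981003401e801800e8009c068005602a003201000118030006c01200240000011788000b0060008b4080138008002c002003e0008205c03)))) 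
(.lf (nat_lit 4094872487) (dlOf (nat_lit 1) (nat_lit 0x1a0018055d01)))))) (.nd (nat_lit 7) 
(.nd (nat_lit 9) (.nd (nat_lit 8) 
(.lf (nat_lit 3020086375) (dlOf (nat_lit 1) (nat_lit 0xc001812c081))) 
(.lf (nat_lit 5301780839) (dlOf (nat_lit 1) (nat_lit 0x1200080064002007e0008090f03)))) 
(.nd (nat_lit 10) (.nd (nat_lit 18) 
(.lf (nat_lit 473090663) (dlOf (nat_lit 1) (nat_lit 0x800400040018c95382))) 
(.lf (nat_lit 604424807) (dlOf (nat_lit 7) (nat_lit 0xc07800460360002502000f01b00010c0800a80e40064046000410400e601c0001f81003901f807800700007a080060078000a039000501b0002008c0007610011c00400060008205382)))) 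
(.lf (nat_lit 3422738023) (dlOf (nat_lit 1) (nat_lit 0x480080004002000200080a9c03))))) 
(.nd (nat_lit 27) (.nd (nat_lit 8) 
(.lf (nat_lit 2214778087) (dlOf (nat_lit 1) (nat_lit 0x600280a9501))) (.nd (nat_lit 9) 
(.lf (nat_lit 4362256871) (dlOf (nat_lit 1) (nat_lit 0x4a0018017d01))) 
(.lf (nat_lit 1141033959) (dlOf (nat_lit 1) (nat_lit 0x400200020008095e82))))) (.nd (nat_lit 8) 
(.lf (nat_lit 4496474343) (dlOf (nat_lit 1) (nat_lit 0x400400020008081b82))) (.nd (nat_lit 28) 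
(.lf (nat_lit 1812120039) (dlOf (nat_lit 6) (nat_lit 0x38001601f400900f20020044800803fc0000005e0a01bc00b00f7004807b001001bc00402020000002e0500e2005804000100070000000440601c400b006d00200010c10009002c0008004004000400080018157302))) 
(.lf (nat_lit 4228039143) (dlOf (nat_lit 10) (nat_lit 0x1e30150001a4080ed80a8000cc0407900540004402000a02a00021010101015000104080ee80a80008004019c0540003f02001c02a0001f010098015000090080198008001000200020008017303))))))))) 
(.nd (nat_lit 18) (.nd (nat_lit 7) (.nd (nat_lit 26) (.nd (nat_lit 22) (.nd (nat_lit 6) 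
(.nd (nat_lit 20) 
(.lf (nat_lit 5772066855) (dlOf (nat_lit 15) (nat_lit 0x90025000a681005d0128005300800780a0002960401fc0500014402009e0280050013001a0094008c046001c020004200c0004c83004200a0024c04c002e025004001180368060002621400cc050001300201fa0280082013005d809402000300012f08016602800097010075014003e809801e004a00ca0230075011003a008001a4030001230e010a0280096013006380940304046011c022008f01000518060002441c01540500112026004a0128043008c00a404400ae020006200c0004843808980a0044004c025002501130118060808802f40400210018000900700640140000000801c0008003000200120008060c03))) 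
(.lf (nat_lit 1343930407) (dlOf (nat_lit 1) (nat_lit 0x400400020018380d82)))) 
(.lf (nat_lit 1344979047) (dlOf (nat_lit 5) (nat_lit 0xe30580032029a039c0d9006b06c00c78270062c11a008408c019903e80b501f0001c0600000e14001407c00006810124046809881f4000180805482c001a214d00cf06c80c1027005f811a031607d015903e003d00bc00000200140004000400189a0982)))) 
(.nd (nat_lit 9) (.nd (nat_lit 23) 
(.lf (nat_lit 21676071) (dlOf (nat_lit 3) (nat_lit 0x180000009781000125c0002d00800480080060002004c0008a60c03))) 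
(.lf (nat_lit 13287463) (dlOf (nat_lit 1) (nat_lit 0x10008000400200060008710c83)))) 
(.lf (nat_lit 8049191) (dlOf (nat_lit 1) (nat_lit 0x60018518901))))) (.nd (nat_lit 6) 
(.nd (nat_lit 9) (.nd (nat_lit 31) 
(.lf (nat_lit 6376046631) (dlOf (nat_lit 15) (nat_lit 0x90025000af01005d0128005740800780a0002b40401fc0500015302009e0280050013001a0094008c046001c020004200c0004fc3004200a0024c04c002e0250040011803680600027c1400cc0500013d0201fa0280082013005d809402000300013c0801660280009d810075014003e809801e004a00ca0230075011003a008001a4030001320e010a0280096013006380940304046011c022008f01000518060002621c01540500112026004a0128043008c00a404400ae020006200c0004c03808980a0044004c025002501130118060808802f40400210018000978700640140000000801c0008003000200120008060c03))) 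
(.lf (nat_lit 4228562983) (dlOf (nat_lit 1) (nat_lit 0x29000800f8002002e00080f0c03)))) 
(.lf (nat_lit 473612839) (dlOf (nat_lit 5) (nat_lit 0x38464000d004001c232000660200041190003201000608c8000000802d0008000400200060008f68803)))) 
(.nd (nat_lit 8) 
(.lf (nat_lit 472563815) (dlOf (nat_lit 3) (nat_lit 0xb836400240fa0000e04001a07d000803e0000001000d00080028002002000089c0983))) 
(.lf (nat_lit 2752169831) (dlOf (nat_lit 1) (nat_lit 0x3800401400008004002)))))) (.nd (nat_lit 10) 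
(.nd (nat_lit 9) (.nd (nat_lit 11) 
(.lf (nat_lit 8044967) (dlOf (nat_lit 1) (nat_lit 0x400200020008511002))) 
(.lf (nat_lit 36358567) (dlOf (nat_lit 1) (nat_lit 0x20019074e81)))) (.nd (nat_lit 8) 
(.lf (nat_lit 8049319) (dlOf (nat_lit 1) (nat_lit 0x8008000400200020008518c83))) 
(.lf (nat_lit 8045479) (dlOf (nat_lit 1) (nat_lit 0x20008512601))))) (.nd (nat_lit 6) 
(.nd (nat_lit 9) (.lf (nat_lit 8045991) (dlOf (nat_lit 1) (nat_lit 0x20008513601))) 
(.lf (nat_lit 8046503) (dlOf (nat_lit 1) (nat_lit 0xc0028514301)))) (.nd (nat_lit 8) 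
(.nd (nat_lit 12) (.lf (nat_lit 8045799) (dlOf (nat_lit 1) (nat_lit 0x800400060008512e02))) 
(.lf (nat_lit 8049895) (dlOf (nat_lit 1) (nat_lit 0x20018519501)))) 
(.lf (nat_lit 8046055) (dlOf (nat_lit 1) (nat_lit 0xc8008006400200180008513603))))))) 
(.nd (nat_lit 6) (.nd (nat_lit 20) (.nd (nat_lit 21) (.nd (nat_lit 26) 
(.lf (nat_lit 1343143975) (dlOf (nat_lit 1) (nat_lit 0x8008006400200040008160883))) 
(.lf (nat_lit 470728743) (dlOf (nat_lit 1) (nat_lit 0x400400020008160882)))) (.nd (nat_lit 7) 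
(.lf (nat_lit 19841319) (dlOf (nat_lit 1) (nat_lit 0x4002000200089d0a82))) 
(.lf (nat_lit 19841703) (dlOf (nat_lit 1) (nat_lit 0x6200189d1d01))))) (.nd (nat_lit 22) 
(.nd (nat_lit 23) (.lf (nat_lit 473874471) (dlOf (nat_lit 1) (nat_lit 0x20004002e0008fc0202))) 
(.lf (nat_lit 62832679) (dlOf (nat_lit 1) (nat_lit 0x1a00199a0001)))) (.nd (nat_lit 7) 
(.lf (nat_lit 22986791) (dlOf (nat_lit 2) (nat_lit 0x38e8900019018b40600))) 
(.lf (nat_lit 8308135) (dlOf (nat_lit 1) (nat_lit 0x20018513601)))))) (.nd (nat_lit 8) 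
(.nd (nat_lit 20) (.nd (nat_lit 9) 
(.lf (nat_lit 59687015) (dlOf (nat_lit 1) (nat_lit 0x400200040009820982))) 
(.lf (nat_lit 19846759) (dlOf (nat_lit 1) (nat_lit 0x400189d9c01)))) (.nd (nat_lit 7) 
(.nd (nat_lit 21) (.lf (nat_lit 52346983) (dlOf (nat_lit 1) (nat_lit 0x8008000c00200020009530983))) 
(.lf (nat_lit 473874535) (dlOf (nat_lit 5) (nat_lit 0x44053402401b200ac0d80000703000306c800030080468534014c1b200d80d80000503006406c800000080008008001c00200100008fc0983)))) 
(.lf (nat_lit 5773377767) (dlOf (nat_lit 1) (nat_lit 0x4004000200080c1b82))))) (.nd (nat_lit 7) 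
(.nd (nat_lit 9) (.nd (nat_lit 20) 
(.lf (nat_lit 1410253159) (dlOf (nat_lit 16) (nat_lit 0x18a01dc07b40cc076c0000001983020f03b809881d807d80cc02400000001904020c03b80f2819806e80000003106040407701df0330000c010063018c0005c0401c40c60002d0201bc00000014810086031001900000004e0800700ee03c207601c0038000a019807b00ca01d206301f30000000943804f01d803e40e0001206600b6032803d818c0214000000210c047c07601e3032812880000003c0c08b00000001d02032e076019d03280f40000000380c05a00e001ba0000000d82000b0380001019800000080018002000200081b0702))) 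
(.lf (nat_lit 2015591) (dlOf (nat_lit 1) (nat_lit 0x20018150701)))) 
(.lf (nat_lit 19843943) (dlOf (nat_lit 1) (nat_lit 0x4002000200089d5c02)))) (.nd (nat_lit 26) 
(.lf (nat_lit 3493773799) (dlOf (nat_lit 1) (nat_lit 0x200181b0c81))) 
(.lf (nat_lit 2755576295) (dlOf (nat_lit 1) (nat_lit 0x200181b0c81))))))))) (.nd (nat_lit 6) 
(.nd (nat_lit 18) (.nd (nat_lit 21) (.nd (nat_lit 26) (.nd (nat_lit 19) (.nd (nat_lit 22) 
(.nd (nat_lit 23) 
(.lf (nat_lit 3355688999) (dlOf (nat_lit 3) (nat_lit 0x1802e000290100b401700012c080110008009c002000a00080c0903))) 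
(.lf (nat_lit 25411623) (dlOf (nat_lit 2) (nat_lit 0x865f8000fc0803600080478002000a0008c00503)))) 
(.lf (nat_lit 37994535) (dlOf (nat_lit 2) (nat_lit 0x50ff000287ae0001c04000c0019100781)))) 
(.nd (nat_lit 22) 
(.lf (nat_lit 42713127) (dlOf (nat_lit 2) (nat_lit 0x34000000250200060019270781))) 
(.lf (nat_lit 13352999) (dlOf (nat_lit 1) (nat_lit 0x1080008720c81))))) (.nd (nat_lit 27) 
(.nd (nat_lit 7) 
(.lf (nat_lit 4362321959) (dlOf (nat_lit 1) (nat_lit 0x180080020002000a0008020583))) 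
(.nd (nat_lit 8) (.lf (nat_lit 335790247) (dlOf (nat_lit 1) (nat_lit 0x200280a2c01))) 
(.lf (nat_lit 1677967783) (dlOf (nat_lit 4) (nat_lit 0x9402600de00a0028782001700980104808018804c0082004003400400020008126e82))))) 
(.nd (nat_lit 9) (.nd (nat_lit 29) 
(.lf (nat_lit 3691233319) (dlOf (nat_lit 1) (nat_lit 0x1000280c0701))) 
(.lf (nat_lit 4228104231) (dlOf (nat_lit 1) (nat_lit 0x180080020002000a0008020583)))) 
(.lf (nat_lit 6107154983) (dlOf (nat_lit 1) (nat_lit 0x20028095181)))))) (.nd (nat_lit 19) 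
(.nd (nat_lit 20) (.nd (nat_lit 22) (.nd (nat_lit 23) 
(.lf (nat_lit 52674599) (dlOf (nat_lit 1) (nat_lit 0x400200020009560782))) 
(.lf (nat_lit 10731559) (dlOf (nat_lit 6) (nat_lit 0x1e22800154080301fc0000540400189d2000220200164d80000e81001a26c000068080010008000800200100008620583)))) 
(.lf (nat_lit 6537255) (dlOf (nat_lit 1) (nat_lit 0x10008000c00200040008420003)))) (.nd (nat_lit 7) 
(.lf (nat_lit 15974439) (dlOf (nat_lit 1) (nat_lit 0x1f4002009c0008850902))) 
(.lf (nat_lit 11780519) (dlOf (nat_lit 1) (nat_lit 0x58004002200086c0782))))) (.nd (nat_lit 23) 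
(.nd (nat_lit 26) 
(.lf (nat_lit 1345044519) (dlOf (nat_lit 8) (nat_lit 0x20102801886a400402d000281450010067801102c800a80e6002201c00016880016102801406a400282d0001c145000e067800b02c800800e6001601c0001608000200e0000ac0801085a4009803a0002a04034016901ac0b400cc8514018419e000c0c701c000e8000103000200740000604009c40a00141ae00370d4800c05a0007028a002c0cf001800e0000003805a80080014002022600089d0783))) 
(.lf (nat_lit 472629287) (dlOf (nat_lit 4) (nat_lit 0x859c003c05c0002d0400040dc00080170000b01000802f000050040010004000400189d0782)))) 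
(.nd (nat_lit 7) 
(.lf (nat_lit 11255847) (dlOf (nat_lit 3) (nat_lit 0x2887400064330002602003f21d000100080290008015400202f40008680603))) 
(.lf (nat_lit 44812711) (dlOf (nat_lit 1) (nat_lit 0x400400020009324e82))))))) (.nd (nat_lit 19) 
(.nd (nat_lit 20) (.nd (nat_lit 28) (.nd (nat_lit 25) 
(.lf (nat_lit 1678229543) (dlOf (nat_lit 1) (nat_lit 0x3b8008007c002005600081b0903))) 
(.lf (nat_lit 34062375) (dlOf (nat_lit 1) (nat_lit 0x400400020018fa0782)))) (.nd (nat_lit 10) 
(.lf (nat_lit 805814311) (dlOf (nat_lit 1) (nat_lit 0x3b8008007c002005600081b0903))) 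
(.lf (nat_lit 1344783399) (dlOf (nat_lit 1) (nat_lit 0x1c00400060008982882))))) (.nd (nat_lit 21) 
(.nd (nat_lit 7) (.nd (nat_lit 23) 
(.lf (nat_lit 1343733799) (dlOf (nat_lit 1) (nat_lit 0x380008350781))) 
(.lf (nat_lit 9945127) (dlOf (nat_lit 1) (nat_lit 0x20018590981)))) 
(.lf (nat_lit 1008191911) (dlOf (nat_lit 1) (nat_lit 0x800400020008aa4e82)))) (.nd (nat_lit 10) 
(.lf (nat_lit 37208103) (dlOf (nat_lit 2) (nat_lit 0x194be0002602001400190c0781))) 
(.lf (nat_lit 473416743) (dlOf (nat_lit 1) (nat_lit 0x20028f52881)))))) (.nd (nat_lit 21) 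
(.nd (nat_lit 23) (.nd (nat_lit 8) 
(.lf (nat_lit 3490693671) (dlOf (nat_lit 1) (nat_lit 0x320028017f01))) 
(.lf (nat_lit 1007665447) (dlOf (nat_lit 1) (nat_lit 0x600186b0701)))) (.nd (nat_lit 7) 
(.lf (nat_lit 10469415) (dlOf (nat_lit 1) (nat_lit 0x400085e0e01))) 
(.lf (nat_lit 47169703) (dlOf (nat_lit 1) (nat_lit 0x200193b1481))))) (.nd (nat_lit 9) 
(.nd (nat_lit 26) (.lf (nat_lit 1345306663) (dlOf (nat_lit 1) (nat_lit 0x40028b50001))) 
(.lf (nat_lit 472891431) (dlOf (nat_lit 1) (nat_lit 0x40028b50001)))) (.nd (nat_lit 8) 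
(.lf (nat_lit 1345309223) (dlOf (nat_lit 1) (nat_lit 0x50002002a0008b55182))) 
(.lf (nat_lit 19913511) (dlOf (nat_lit 1) (nat_lit 0x200089dbc81)))))))) (.nd (nat_lit 8) 
(.nd (nat_lit 30) (.nd (nat_lit 18) (.nd (nat_lit 20) (.nd (nat_lit 7) (.nd (nat_lit 9) 
(.lf (nat_lit 19120231) (dlOf (nat_lit 1) (nat_lit 0x40008970481))) 
(.lf (nat_lit 4966304359) (dlOf (nat_lit 1) (nat_lit 0x8008002800200020008095383)))) 
(.lf (nat_lit 872662247) (dlOf (nat_lit 1) (nat_lit 0x10008001800200060008092e03)))) 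
(.nd (nat_lit 9) (.nd (nat_lit 19) 
(.lf (nat_lit 26460263) (dlOf (nat_lit 1) (nat_lit 0x400200020008c50d02))) 
(.lf (nat_lit 45858919) (dlOf (nat_lit 3) (nat_lit 0x1faef00010808020577c00026040028004002c0009360982)))) 
(.lf (nat_lit 60017255) (dlOf (nat_lit 1) (nat_lit 0xa0029845381))))) (.nd (nat_lit 20) 
(.nd (nat_lit 9) (.nd (nat_lit 21) 
(.lf (nat_lit 4702311) (dlOf (nat_lit 1) (nat_lit 0xa00080024002001600082b0d03))) 
(.lf (nat_lit 1009238119) (dlOf (nat_lit 2) (nat_lit 0x5b07080004c0800180080008002001600090a0983)))) 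
(.lf (nat_lit 19912295) (dlOf (nat_lit 1) (nat_lit 0x14002000200089d9c02)))) (.nd (nat_lit 9) 
(.nd (nat_lit 21) (.lf (nat_lit 69189735) (dlOf (nat_lit 1) (nat_lit 0x10004000200088c0982))) 
(.lf (nat_lit 473940071) (dlOf (nat_lit 11) (nat_lit 0x1350b0001785341dcc1b20ed20d800c904e00940234024c118020207d010303e00003848014858015a41b206ca0d8001f04e0000342006685801c301b200be09c00b9046801c01f4000181417001b20000b0201ec160073506c83960360028013801fe08d0016046006b01f403640f80000a100048160041906c81398360007c1380000908000209a000040100070b000678364002811a00006060086160000010100d60b00385036401a4138017808d008803e800000280518008000c00200080008fc0983)))) 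
(.lf (nat_lit 54512231) (dlOf (nat_lit 1) (nat_lit 0x20029655381)))))) (.nd (nat_lit 27) 
(.nd (nat_lit 7) (.nd (nat_lit 11) (.nd (nat_lit 18) 
(.lf (nat_lit 1141096551) (dlOf (nat_lit 1) (nat_lit 0x7c0008003800201f800080d0783))) 
(.lf (nat_lit 1881653351) (dlOf (nat_lit 1) (nat_lit 0xc0008002c00200200008fa0783)))) 
(.lf (nat_lit 1946667111) (dlOf (nat_lit 1) (nat_lit 0x20002006800080f4702)))) (.nd (nat_lit 10) 
(.lf (nat_lit 3490955495) (dlOf (nat_lit 1) (nat_lit 0x40028046b81))) 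
(.lf (nat_lit 5637391591) (dlOf (nat_lit 1) (nat_lit 0xc002000200080d2e02))))) (.nd (nat_lit 9) 
(.nd (nat_lit 7) 
(.lf (nat_lit 2013511783) (dlOf (nat_lit 1) (nat_lit 0x7c0008003800201f800080d0783))) 
(.lf (nat_lit 6376112359) (dlOf (nat_lit 4) (nat_lit 0x4c21e002810e00040000005841800d04340013a04003021a000410c000a000000238180058008000c002000c0008090a83)))) 
(.nd (nat_lit 29) (.nd (nat_lit 32) 
(.lf (nat_lit 1208207975) (dlOf (nat_lit 1) (nat_lit 0x20028095381))) 
(.lf (nat_lit 5503175271) (dlOf (nat_lit 1) (nat_lit 0xa0018095381)))) 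
(.lf (nat_lit 1745078887) (dlOf (nat_lit 2) (nat_lit 0x80700003b0200080028095381))))))) 
(.nd (nat_lit 7) (.nd (nat_lit 18) (.nd (nat_lit 21) (.nd (nat_lit 27) 
(.lf (nat_lit 3758342503) (dlOf (nat_lit 1) (nat_lit 0x1700018130981))) 
(.lf (nat_lit 671334759) (dlOf (nat_lit 1) (nat_lit 0x80008000800200360008155203)))) 
(.nd (nat_lit 9) 
(.lf (nat_lit 2343271) (dlOf (nat_lit 3) (nat_lit 0x32183b0001981002cc1d8000c40800b0008002c00200040008150703))) 
(.lf (nat_lit 3493054311) (dlOf (nat_lit 1) (nat_lit 0x1400080f4001))))) (.nd (nat_lit 19) 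
(.nd (nat_lit 21) (.nd (nat_lit 27) 
(.lf (nat_lit 4362584423) (dlOf (nat_lit 2) (nat_lit 0xb01580008204000400200040008090702))) 
(.lf (nat_lit 4228366695) (dlOf (nat_lit 2) (nat_lit 0xb013c0008204000400200040008090702)))) 
(.lf (nat_lit 61325671) (dlOf (nat_lit 2) (nat_lit 0xa99b00019019920f00)))) (.nd (nat_lit 26) 
(.lf (nat_lit 3493839207) (dlOf (nat_lit 3) (nat_lit 0x1300cc0002902004806b000138181b0700))) 
(.lf (nat_lit 2755641703) (dlOf (nat_lit 2) (nat_lit 0x1c806b000138181b0700)))))) (.nd (nat_lit 9) 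
(.nd (nat_lit 20) (.nd (nat_lit 18) (.nd (nat_lit 21) 
(.lf (nat_lit 1543750119) (dlOf (nat_lit 3) (nat_lit 0x110118000b40800280840002c04000400200020008157302))) 
(.lf (nat_lit 23314919) (dlOf (nat_lit 1) (nat_lit 0x3b400201f80008b80c82)))) 
(.lf (nat_lit 3490693607) (dlOf (nat_lit 11) (nat_lit 0x6b042603502110198101800088040005e1006bc426035621101a71018000b418037080c000560401b04060002a02005a203000140100081018000980802b083c041c380009a1be00960d4804d8000000481400fc41602361c000090df005a06a4001034e016a0000001106009d107801107dc042038001281a9009a0000000802805b083c0460380017e1a900ba000000074200008008001400203be0008017303)))) 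
(.nd (nat_lit 10) (.nd (nat_lit 23) 
(.lf (nat_lit 1294823) (dlOf (nat_lit 1) (nat_lit 0x200080a7301))) 
(.lf (nat_lit 9683431) (dlOf (nat_lit 1) (nat_lit 0xb80028577d01)))) 
(.lf (nat_lit 8111591) (dlOf (nat_lit 1) (nat_lit 0x8008000400200020008513603))))) 
(.nd (nat_lit 19) (.nd (nat_lit 10) 
(.lf (nat_lit 2751710183) (dlOf (nat_lit 1) (nat_lit 0x400200020008002882))) 
(.lf (nat_lit 2818822119) (dlOf (nat_lit 1) (nat_lit 0x400400020008127a82)))) (.nd (nat_lit 18) 
(.lf (nat_lit 49005543) (dlOf (nat_lit 1) (nat_lit 0x40009462881))) 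
(.lf (nat_lit 5772395495) (dlOf (nat_lit 1) (nat_lit 0x400200020008092882))))))))))))

end

end Pool.Agent.Lib.MP_5854e1_co.Cz

namespace Pool.Agent.Lib.MP_5854e1_co.Cz

noncomputable section

noncomputable def tz175 : DT := (.nd (nat_lit 5) (.nd (nat_lit 0) (.nd (nat_lit 6) 
(.nd (nat_lit 16) (.nd (nat_lit 8) (.nd (nat_lit 19) (.nd (nat_lit 29) (.nd (nat_lit 22) 
(.nd (nat_lit 18) (.nd (nat_lit 9) 
(.lf (nat_lit 4496474126) (dlOf (nat_lit 1) (nat_lit 0x60028080001))) (.nd (nat_lit 11) 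
(.lf (nat_lit 2348990990) (dlOf (nat_lit 1) (nat_lit 0x20018090d81))) 
(.lf (nat_lit 5773642254) (dlOf (nat_lit 1) (nat_lit 0x1680080004002001000080e5083))))) 
(.nd (nat_lit 21) 
(.lf (nat_lit 3221667854) (dlOf (nat_lit 3) (nat_lit 0x580bc01ae004000808000d560200020018170001))) 
(.nd (nat_lit 26) (.lf (nat_lit 2539534) (dlOf (nat_lit 1) (nat_lit 0x20028170401))) 
(.lf (nat_lit 472301582) (dlOf (nat_lit 1) (nat_lit 0x6800200020008980002)))))) (.nd (nat_lit 20) 
(.nd (nat_lit 7) (.nd (nat_lit 18) 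
(.lf (nat_lit 12763150) (dlOf (nat_lit 3) (nat_lit 0x3d48c00626cc000050400055230004a45800000100148008000c002000600086e0403))) 
(.lf (nat_lit 6733838) (dlOf (nat_lit 1) (nat_lit 0x1280018450a01)))) 
(.lf (nat_lit 57066638) (dlOf (nat_lit 1) (nat_lit 0x400400020009792b02)))) (.nd (nat_lit 24) 
(.lf (nat_lit 7782414) (dlOf (nat_lit 1) (nat_lit 0x12800184e0a01))) 
(.lf (nat_lit 24559630) (dlOf (nat_lit 3) (nat_lit 0x979e00005020008bcf00025dc000000100098008003c002000c0008ba0403)))))) 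
(.nd (nat_lit 30) (.nd (nat_lit 9) (.nd (nat_lit 10) (.nd (nat_lit 18) 
(.lf (nat_lit 1006813198) (dlOf (nat_lit 1) (nat_lit 0x580080038002000a00080b0183))) 
(.lf (nat_lit 805748750) (dlOf (nat_lit 1) (nat_lit 0x200281a0001)))) 
(.lf (nat_lit 3020086286) (dlOf (nat_lit 1) (nat_lit 0x2001812bf01)))) (.nd (nat_lit 11) 
(.lf (nat_lit 939704846) (dlOf (nat_lit 6) (nat_lit 0x5900d80131808004006c0098a040018036004c402008e01b0025801003e00d80129c080198008002000200020008158403))) 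
(.lf (nat_lit 2751650318) (dlOf (nat_lit 1) (nat_lit 0x1c0040010000800b282))))) (.nd (nat_lit 7) 
(.nd (nat_lit 9) (.nd (nat_lit 10) 
(.lf (nat_lit 1879228430) (dlOf (nat_lit 1) (nat_lit 0x580080038002000a00080b0183))) 
(.lf (nat_lit 1610793998) (dlOf (nat_lit 1) (nat_lit 0x140028092881)))) 
(.lf (nat_lit 4094085646) (dlOf (nat_lit 1) (nat_lit 0x400400420008005082)))) (.nd (nat_lit 9) 
(.lf (nat_lit 5905762446) (dlOf (nat_lit 1) (nat_lit 0x20008144801))) 
(.lf (nat_lit 4160935566) (dlOf (nat_lit 1) (nat_lit 0x4004000200080a9e82))))))) (.nd (nat_lit 20) 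
(.nd (nat_lit 26) (.nd (nat_lit 22) (.nd (nat_lit 27) 
(.lf (nat_lit 537575438) (dlOf (nat_lit 1) (nat_lit 0x5cc00203f800080c0802))) (.nd (nat_lit 28) 
(.lf (nat_lit 134922254) (dlOf (nat_lit 3) (nat_lit 0xc8013000a201006b0098004d0080158008006c002008000080e0083))) 
(.lf (nat_lit 5772066830) (dlOf (nat_lit 2) (nat_lit 0x2028006a5818060a00))))) (.nd (nat_lit 21) 
(.lf (nat_lit 21676046) (dlOf (nat_lit 1) (nat_lit 0x48008009400200340008a60a03))) 
(.lf (nat_lit 6995982) (dlOf (nat_lit 1) (nat_lit 0x600184a0281))))) (.nd (nat_lit 27) 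
(.nd (nat_lit 10) (.lf (nat_lit 1409990670) (dlOf (nat_lit 1) (nat_lit 0x5cc00203f800080c0802))) 
(.lf (nat_lit 69911566) (dlOf (nat_lit 1) (nat_lit 0x20028e12881)))) (.nd (nat_lit 28) 
(.lf (nat_lit 202031118) (dlOf (nat_lit 3) (nat_lit 0xc8013000a201006b0098004d0080158008006c002008000080e0083))) 
(.lf (nat_lit 6376046606) (dlOf (nat_lit 2) (nat_lit 0x2028003e8018060a00)))))) (.nd (nat_lit 18) 
(.nd (nat_lit 9) (.nd (nat_lit 22) 
(.lf (nat_lit 1343930382) (dlOf (nat_lit 1) (nat_lit 0x240008380781))) 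
(.lf (nat_lit 5947406) (dlOf (nat_lit 1) (nat_lit 0x60018410281)))) 
(.lf (nat_lit 8052238) (dlOf (nat_lit 1) (nat_lit 0x4000800080020008000851ce03)))) (.nd (nat_lit 7) 
(.nd (nat_lit 9) (.lf (nat_lit 2755575822) (dlOf (nat_lit 1) (nat_lit 0x8004000200181b0002))) 
(.lf (nat_lit 3493773838) (dlOf (nat_lit 1) (nat_lit 0x200181b0d81)))) 
(.lf (nat_lit 39765134) (dlOf (nat_lit 1) (nat_lit 0x800291f2b01))))))) (.nd (nat_lit 31) 
(.nd (nat_lit 7) (.nd (nat_lit 21) (.nd (nat_lit 10) 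
(.lf (nat_lit 1678164238) (dlOf (nat_lit 2) (nat_lit 0x2a000000468181a0480))) (.nd (nat_lit 18) 
(.lf (nat_lit 55756046) (dlOf (nat_lit 1) (nat_lit 0x80080008002000200096d3003))) 
(.lf (nat_lit 51299598) (dlOf (nat_lit 1) (nat_lit 0x400200020009513002))))) (.nd (nat_lit 19) 
(.nd (nat_lit 20) 
(.lf (nat_lit 60998926) (dlOf (nat_lit 1) (nat_lit 0x600080048002000e00098c3003))) 
(.lf (nat_lit 36881678) (dlOf (nat_lit 1) (nat_lit 0x8008000400200020009073003)))) 
(.lf (nat_lit 36357390) (dlOf (nat_lit 1) (nat_lit 0x8008000400200ec0009073003))))) 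
(.nd (nat_lit 9) (.nd (nat_lit 18) (.nd (nat_lit 19) 
(.lf (nat_lit 6174196110) (dlOf (nat_lit 2) (nat_lit 0x20170033e018085d80))) 
(.lf (nat_lit 8044942) (dlOf (nat_lit 1) (nat_lit 0x20008511001)))) (.nd (nat_lit 22) 
(.nd (nat_lit 26) (.lf (nat_lit 134660494) (dlOf (nat_lit 1) (nat_lit 0x800200020008090782))) 
(.lf (nat_lit 201769358) (dlOf (nat_lit 1) (nat_lit 0x800200020008090782)))) 
(.lf (nat_lit 54968718) (dlOf (nat_lit 1) (nat_lit 0x8008052000203e00009685d83))))) 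
(.nd (nat_lit 10) (.nd (nat_lit 20) 
(.lf (nat_lit 1141033870) (dlOf (nat_lit 1) (nat_lit 0x20028095c81))) 
(.lf (nat_lit 20106126) (dlOf (nat_lit 1) (nat_lit 0x200289d5c81)))) 
(.lf (nat_lit 8048526) (dlOf (nat_lit 1) (nat_lit 0x28008001c00200020008517783)))))) 
(.nd (nat_lit 28) (.nd (nat_lit 27) (.nd (nat_lit 7) 
(.lf (nat_lit 2214778126) (dlOf (nat_lit 1) (nat_lit 0x200280a9681))) (.nd (nat_lit 18) 
(.lf (nat_lit 2753216910) (dlOf (nat_lit 2) (nat_lit 0x81f80065b018090780))) 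
(.lf (nat_lit 3221668238) (dlOf (nat_lit 2) (nat_lit 0x2600e00384818170780))))) (.nd (nat_lit 7) 
(.lf (nat_lit 3355628302) (dlOf (nat_lit 1) (nat_lit 0x1e00280a8f81))) (.nd (nat_lit 18) 
(.lf (nat_lit 2348990862) (dlOf (nat_lit 1) (nat_lit 0x60008090781))) 
(.lf (nat_lit 3959865742) (dlOf (nat_lit 2) (nat_lit 0x2600e0065b018170780)))))) (.nd (nat_lit 20) 
(.nd (nat_lit 7) 
(.lf (nat_lit 3556950286) (dlOf (nat_lit 3) (nat_lit 0x4005c002002c001000e00080060006001800200080012000000e007000b003000654080018008000400200020008117403))) 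
(.nd (nat_lit 9) (.lf (nat_lit 2483208590) (dlOf (nat_lit 1) (nat_lit 0x60008090781))) 
(.lf (nat_lit 3020083086) (dlOf (nat_lit 2) (nat_lit 0x803500256818127780))))) (.nd (nat_lit 18) 
(.lf (nat_lit 3491414414) (dlOf (nat_lit 2) (nat_lit 0x81e600384818090780))) 
(.lf (nat_lit 3493249422) (dlOf (nat_lit 3) (nat_lit 0x1201d005218100130100028c40800400080060002000e0008106183)))))))) 
(.nd (nat_lit 18) (.nd (nat_lit 19) (.nd (nat_lit 26) (.nd (nat_lit 10) (.nd (nat_lit 27) 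
(.nd (nat_lit 21) 
(.lf (nat_lit 1342423054) (dlOf (nat_lit 2) (nat_lit 0x2839a001df02003c0008020481))) 
(.nd (nat_lit 23) (.lf (nat_lit 2342926) (dlOf (nat_lit 1) (nat_lit 0x18008005000200020008150003))) 
(.lf (nat_lit 44285966) (dlOf (nat_lit 1) (nat_lit 0x10002001c00092e0002))))) (.nd (nat_lit 9) 
(.nd (nat_lit 28) (.lf (nat_lit 134463502) (dlOf (nat_lit 1) (nat_lit 0x400400260008030882))) 
(.lf (nat_lit 2013511694) (dlOf (nat_lit 1) (nat_lit 0x4002000200080d0002)))) 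
(.lf (nat_lit 671334926) (dlOf (nat_lit 8) (nat_lit 0x80b000b80520050026004c011801e8080009403a001401800280080013184001080a400ac04c00a60230044010001400740074030005201000200010013144001080a401480460084020002200e80118060009c020003c005002400100131040021008c00c40400056018000d0028012c420018808c0060040001e01800130028012c02002a808c00fc0400048018000a00280129c20028008c0108040004a018001b0028012982002980080480002042a0008158403))))) 
(.nd (nat_lit 11) (.nd (nat_lit 9) 
(.lf (nat_lit 58967310) (dlOf (nat_lit 1) (nat_lit 0xa00197e3001))) 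
(.lf (nat_lit 8640270) (dlOf (nat_lit 1) (nat_lit 0xc0040002000851a002)))) (.nd (nat_lit 7) 
(.lf (nat_lit 5100522510) (dlOf (nat_lit 1) (nat_lit 0x200180d5f81))) 
(.lf (nat_lit 3489910158) (dlOf (nat_lit 1) (nat_lit 0x20018006c81)))))) (.nd (nat_lit 29) 
(.nd (nat_lit 27) (.nd (nat_lit 28) 
(.lf (nat_lit 1141096462) (dlOf (nat_lit 1) (nat_lit 0x4002000200080d0002))) 
(.lf (nat_lit 1409531918) (dlOf (nat_lit 2) (nat_lit 0x10164003d204001400400100008020482)))) 
(.nd (nat_lit 9) (.lf (nat_lit 201572366) (dlOf (nat_lit 1) (nat_lit 0x400400260008030882))) 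
(.lf (nat_lit 474203662) (dlOf (nat_lit 1) (nat_lit 0xc00290e3681))))) (.nd (nat_lit 31) 
(.nd (nat_lit 7) (.lf (nat_lit 604225550) (dlOf (nat_lit 1) (nat_lit 0xe00280c0281))) 
(.lf (nat_lit 1008976014) (dlOf (nat_lit 1) (nat_lit 0x1c00200640009000402)))) (.nd (nat_lit 9) 
(.lf (nat_lit 2751710222) (dlOf (nat_lit 1) (nat_lit 0x20008002881))) 
(.lf (nat_lit 2755904014) (dlOf (nat_lit 1) (nat_lit 0x80080004002000200081b0d83))))))) 
(.nd (nat_lit 24) (.nd (nat_lit 29) (.nd (nat_lit 8) (.nd (nat_lit 21) 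
(.lf (nat_lit 1410056206) (dlOf (nat_lit 2) (nat_lit 0x40150002ba040030002005800080e0082))) 
(.lf (nat_lit 11255822) (dlOf (nat_lit 2) (nat_lit 0x94abe000655b0002b028680180)))) 
(.lf (nat_lit 36422926) (dlOf (nat_lit 1) (nat_lit 0x400200a00009073002)))) (.nd (nat_lit 7) 
(.nd (nat_lit 27) 
(.lf (nat_lit 537640974) (dlOf (nat_lit 2) (nat_lit 0x40150002b0040030002005800080e0082))) 
(.lf (nat_lit 2819342350) (dlOf (nat_lit 1) (nat_lit 0x8008000400200020008250203)))) 
(.lf (nat_lit 1008454542) (dlOf (nat_lit 1) (nat_lit 0x1a0018c95c81))))) (.nd (nat_lit 20) 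
(.nd (nat_lit 8) (.lf (nat_lit 21741582) (dlOf (nat_lit 1) (nat_lit 0x8008000400200020008a70483))) 
(.lf (nat_lit 51101966) (dlOf (nat_lit 1) (nat_lit 0x8008000400200020009507403)))) (.nd (nat_lit 7) 
(.nd (nat_lit 21) 
(.lf (nat_lit 22790158) (dlOf (nat_lit 2) (nat_lit 0x856e0001580800a80080018002000c0008b20183))) 
(.lf (nat_lit 29081614) (dlOf (nat_lit 1) (nat_lit 0x20028dc0a01)))) 
(.lf (nat_lit 20698766) (dlOf (nat_lit 1) (nat_lit 0x80080004002000200089d9e83))))))) 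
(.nd (nat_lit 21) (.nd (nat_lit 27) (.nd (nat_lit 7) (.nd (nat_lit 19) (.nd (nat_lit 8) 
(.lf (nat_lit 13090830) (dlOf (nat_lit 1) (nat_lit 0x180080004002000c00086f0083))) 
(.lf (nat_lit 1556750) (dlOf (nat_lit 1) (nat_lit 0x200180f7401)))) (.nd (nat_lit 9) 
(.lf (nat_lit 17809422) (dlOf (nat_lit 2) (nat_lit 0xaf19c01c2a040108004006a00088f0782))) 
(.lf (nat_lit 2752496142) (dlOf (nat_lit 2) (nat_lit 0x4621800253018018400))))) (.nd (nat_lit 8) 
(.lf (nat_lit 8901774) (dlOf (nat_lit 1) (nat_lit 0x10008000c00200020008519503))) 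
(.lf (nat_lit 3490171278) (dlOf (nat_lit 1) (nat_lit 0x400200020008004e82))))) (.nd (nat_lit 26) 
(.nd (nat_lit 8) (.nd (nat_lit 9) 
(.lf (nat_lit 2819080206) (dlOf (nat_lit 3) (nat_lit 0x6901c800300d4005f504019e07200800350016641000c00080070002004c0008190283))) 
(.lf (nat_lit 1476905486) (dlOf (nat_lit 1) (nat_lit 0x1a00282d5081)))) 
(.lf (nat_lit 1745338638) (dlOf (nat_lit 1) (nat_lit 0x40008127401)))) (.nd (nat_lit 8) 
(.nd (nat_lit 9) (.lf (nat_lit 201834510) (dlOf (nat_lit 1) (nat_lit 0x800400140008090002))) 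
(.lf (nat_lit 470270478) (dlOf (nat_lit 1) (nat_lit 0x200280c0d81)))) 
(.lf (nat_lit 470270222) (dlOf (nat_lit 2) (nat_lit 0x61889802243e40007c04000800080c0481)))))) 
(.nd (nat_lit 24) (.nd (nat_lit 8) (.nd (nat_lit 10) 
(.lf (nat_lit 2755117070) (dlOf (nat_lit 1) (nat_lit 0x3000200020008110482))) 
(.lf (nat_lit 1344783374) (dlOf (nat_lit 1) (nat_lit 0x1c00400060008982882)))) 
(.lf (nat_lit 36685070) (dlOf (nat_lit 1) (nat_lit 0xc00200020009073002)))) (.nd (nat_lit 7) 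
(.nd (nat_lit 9) (.lf (nat_lit 19382286) (dlOf (nat_lit 1) (nat_lit 0x1c00400060018990a02))) 
(.lf (nat_lit 61326862) (dlOf (nat_lit 1) (nat_lit 0x20029923681)))) 
(.lf (nat_lit 57132174) (dlOf (nat_lit 1) (nat_lit 0x400400320009792b02)))))))) (.nd (nat_lit 18) 
(.nd (nat_lit 8) (.nd (nat_lit 19) (.nd (nat_lit 7) (.nd (nat_lit 27) (.nd (nat_lit 10) 
(.nd (nat_lit 16) 
(.lf (nat_lit 25346126) (dlOf (nat_lit 2) (nat_lit 0x188000000470200140018bf0d01))) 
(.lf (nat_lit 14925902) (dlOf (nat_lit 1) (nat_lit 0x800400020008790702)))) 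
(.lf (nat_lit 2751644750) (dlOf (nat_lit 1) (nat_lit 0x40008002881)))) (.nd (nat_lit 22) 
(.nd (nat_lit 30) (.lf (nat_lit 4764909646) (dlOf (nat_lit 1) (nat_lit 0xc0018071681))) 
(.lf (nat_lit 5838651470) (dlOf (nat_lit 1) (nat_lit 0x64004003c0008110902)))) 
(.lf (nat_lit 474136654) (dlOf (nat_lit 2) (nat_lit 0x402d003696040010004000400090e0002))))) 
(.nd (nat_lit 12) (.nd (nat_lit 9) 
(.lf (nat_lit 3624059086) (dlOf (nat_lit 3) (nat_lit 0xa601b007100100378000003a20c014803600de002006f00000073c1800c8008014c002003600080b0483))) 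
(.lf (nat_lit 57854670) (dlOf (nat_lit 1) (nat_lit 0x20019795881)))) (.nd (nat_lit 16) 
(.lf (nat_lit 3758281422) (dlOf (nat_lit 1) (nat_lit 0x2460028128c81))) 
(.lf (nat_lit 20173518) (dlOf (nat_lit 1) (nat_lit 0x4002000200089d8c82)))))) (.nd (nat_lit 16) 
(.nd (nat_lit 29) (.nd (nat_lit 7) (.nd (nat_lit 9) 
(.lf (nat_lit 3492462670) (dlOf (nat_lit 2) (nat_lit 0x921eb0002b0180d0d00))) 
(.lf (nat_lit 8046158) (dlOf (nat_lit 1) (nat_lit 0x400400020008513882)))) 
(.lf (nat_lit 8046286) (dlOf (nat_lit 1) (nat_lit 0x400400020008513a82)))) (.nd (nat_lit 21) 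
(.nd (nat_lit 26) 
(.lf (nat_lit 537575502) (dlOf (nat_lit 2) (nat_lit 0x3702b8000d00800400080028002002400080c1903))) 
(.lf (nat_lit 4228563022) (dlOf (nat_lit 10) (nat_lit 0x2a00b000064040068058000310201ce0400134016001a8090000600c01780580002e02000204000d80160000b01005c810003f8058000a024000158300e7020009880b0020c0480002a0600fa02c000148100020200000440800f800800b4002001400080f1503)))) 
(.lf (nat_lit 2754265166) (dlOf (nat_lit 2) (nat_lit 0x921fd000278180d0d00))))) (.nd (nat_lit 20) 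
(.nd (nat_lit 26) 
(.lf (nat_lit 3492528206) (dlOf (nat_lit 2) (nat_lit 0x15a1eb00a60e90001581001d80080078002003c00080d0d03))) 
(.lf (nat_lit 2754330702) (dlOf (nat_lit 2) (nat_lit 0x15a1fd00a60f380013c1001d80080078002003c00080d0d03)))) 
(.nd (nat_lit 23) (.nd (nat_lit 26) 
(.lf (nat_lit 5773181006) (dlOf (nat_lit 2) (nat_lit 0x10000000ac04000c002000200080b0682))) 
(.lf (nat_lit 6377160782) (dlOf (nat_lit 2) (nat_lit 0x10000000ac04000c002000200080b0682)))) 
(.lf (nat_lit 10207310) (dlOf (nat_lit 1) (nat_lit 0x37000800b0002000e00085c0f83))))))) 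
(.nd (nat_lit 16) (.nd (nat_lit 20) (.nd (nat_lit 7) (.nd (nat_lit 10) 
(.lf (nat_lit 2277710) (dlOf (nat_lit 2) (nat_lit 0x86770000cc08004800800b0002000a0008150603))) 
(.lf (nat_lit 1543687502) (dlOf (nat_lit 1) (nat_lit 0x20008001c00200180008146a03)))) 
(.nd (nat_lit 10) (.nd (nat_lit 11) 
(.lf (nat_lit 2751644622) (dlOf (nat_lit 1) (nat_lit 0x30004002a0008002882))) 
(.lf (nat_lit 738380750) (dlOf (nat_lit 2) (nat_lit 0x1c02a0008004800054100010008003400200740008095d83)))) 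
(.lf (nat_lit 3959605198) (dlOf (nat_lit 1) (nat_lit 0x40018114481))))) (.nd (nat_lit 21) 
(.nd (nat_lit 26) 
(.lf (nat_lit 3491414478) (dlOf (nat_lit 3) (nat_lit 0x141e80000c8100060f4000060080030008004c002000a0008090a03))) 
(.lf (nat_lit 2753216974) (dlOf (nat_lit 3) (nat_lit 0x141fa0000c8100060fd000060080030008004c002000a0008090a03)))) 
(.nd (nat_lit 7) (.lf (nat_lit 20106574) (dlOf (nat_lit 1) (nat_lit 0x2000289d6a01))) 
(.nd (nat_lit 12) (.lf (nat_lit 473612750) (dlOf (nat_lit 1) (nat_lit 0x8000200160008f67b02))) 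
(.lf (nat_lit 8049102) (dlOf (nat_lit 1) (nat_lit 0x60028518681))))))) (.nd (nat_lit 9) 
(.nd (nat_lit 7) (.nd (nat_lit 19) (.nd (nat_lit 20) 
(.lf (nat_lit 2755903822) (dlOf (nat_lit 5) (nat_lit 0xb02a00012c08002815000240a60054050000200300210280000fc0800881300005804034c004017200181b0602))) 
(.lf (nat_lit 22266190) (dlOf (nat_lit 1) (nat_lit 0xe0028ab8101)))) 
(.lf (nat_lit 6376112462) (dlOf (nat_lit 1) (nat_lit 0x320008090d01)))) (.nd (nat_lit 26) 
(.lf (nat_lit 4026778062) (dlOf (nat_lit 1) (nat_lit 0x260018090a01))) (.nd (nat_lit 27) 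
(.lf (nat_lit 3288580558) (dlOf (nat_lit 1) (nat_lit 0x260018090a01))) 
(.lf (nat_lit 1543750094) (dlOf (nat_lit 2) (nat_lit 0xe01700000018157100)))))) (.nd (nat_lit 10) 
(.nd (nat_lit 7) (.lf (nat_lit 4899195726) (dlOf (nat_lit 1) (nat_lit 0x4002000200080d5c02))) 
(.nd (nat_lit 26) (.lf (nat_lit 6308481998) (dlOf (nat_lit 2) (nat_lit 0x1a024000168180d5d80))) 
(.lf (nat_lit 4496542670) (dlOf (nat_lit 2) (nat_lit 0x3801900006c0800100080004002000200080e5d83))))) 
(.nd (nat_lit 19) (.lf (nat_lit 2818822094) (dlOf (nat_lit 1) (nat_lit 0x20018127a81))) 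
(.lf (nat_lit 67882958) (dlOf (nat_lit 1) (nat_lit 0x20008001000200040008337a83)))))))) 
(.nd (nat_lit 19) (.nd (nat_lit 26) (.nd (nat_lit 16) (.nd (nat_lit 7) (.nd (nat_lit 8) 
(.nd (nat_lit 20) 
(.lf (nat_lit 2819014734) (dlOf (nat_lit 4) (nat_lit 0x340000000402007a00000001010023000000000080098008007800200060008150703))) 
(.lf (nat_lit 26656846) (dlOf (nat_lit 2) (nat_lit 0x8643000094080020008001000200020008c50703)))) 
(.lf (nat_lit 3493249358) (dlOf (nat_lit 1) (nat_lit 0x10008000c00200040008104c83)))) 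
(.nd (nat_lit 9) (.nd (nat_lit 28) 
(.lf (nat_lit 3221668302) (dlOf (nat_lit 5) (nat_lit 0x6402b002e0148017006c009602b005600f002f0044006401400ac0060000c88002701580128078009c014005000800280030000602802c015801680a400b20360035018801f00ac012c03c00b2011002f005001a002000b000c0001714011e051009001a802d00d0022003e00d201e0062003000000300048008007800202720008170a03))) 
(.lf (nat_lit 805749198) (dlOf (nat_lit 6) (nat_lit 0x2580280004004011c0140001f02000a00a0000f0100590050000740802400280003604002c002000800081a0a02)))) 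
(.lf (nat_lit 1344717774) (dlOf (nat_lit 3) (nat_lit 0xe14300040398019ac100050534009d204001800400080008982882))))) 
(.nd (nat_lit 10) (.nd (nat_lit 7) (.nd (nat_lit 8) 
(.lf (nat_lit 3892822094) (dlOf (nat_lit 6) (nat_lit 0xa0460006b0100700160011001c0018008007c0300008a02011e0570030023004380dc027c040012401f00a100c8048806002280140100009000440900200000001bc080238008019c00200520008280183))) 
(.lf (nat_lit 3892822350) (dlOf (nat_lit 1) (nat_lit 0x1800400400008280782)))) 
(.lf (nat_lit 50840014) (dlOf (nat_lit 1) (nat_lit 0x200094d7b01)))) (.nd (nat_lit 11) 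
(.lf (nat_lit 4698129742) (dlOf (nat_lit 2) (nat_lit 0x7a01a000080c803d805e00e802d00e100f802100480004418001400400060018123302))) 
(.lf (nat_lit 3490172238) (dlOf (nat_lit 1) (nat_lit 0x400200020008006a02)))))) (.nd (nat_lit 7) 
(.nd (nat_lit 8) (.nd (nat_lit 20) (.nd (nat_lit 21) 
(.lf (nat_lit 2756165710) (dlOf (nat_lit 2) (nat_lit 0x50108001803c0003d04000a0028211501))) 
(.lf (nat_lit 1009238094) (dlOf (nat_lit 2) (nat_lit 0x80ea0000002000400190a0681)))) 
(.lf (nat_lit 2755117134) (dlOf (nat_lit 2) (nat_lit 0x202e002b5018110900)))) (.nd (nat_lit 10) 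
(.lf (nat_lit 2755051854) (dlOf (nat_lit 1) (nat_lit 0x10008000c00200040008104c83))) 
(.lf (nat_lit 872858958) (dlOf (nat_lit 1) (nat_lit 0x8002000600080e3302))))) (.nd (nat_lit 27) 
(.nd (nat_lit 8) (.lf (nat_lit 4094085838) (dlOf (nat_lit 1) (nat_lit 0x400400440008005882))) 
(.nd (nat_lit 29) 
(.lf (nat_lit 4362518990) (dlOf (nat_lit 5) (nat_lit 0x15405a0002002008202d0000f810002023802a00b40003a08012c05a0001b0200060008090a01))) 
(.lf (nat_lit 1678164430) (dlOf (nat_lit 6) (nat_lit 0x2580280004004011c0140001f02000a00a0000f0100590050000740802400280003604002c002000800081a0a02))))) 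
(.nd (nat_lit 9) (.nd (nat_lit 28) 
(.lf (nat_lit 3959865806) (dlOf (nat_lit 5) (nat_lit 0x6402b002e0148017006c009602b005600f002f0044006401400ac0060000c88002701580128078009c014005000800280030000602802c015801680a400b20360035018801f00ac012c03c00b2011002f005001a002000b000c0001714011e051009001a802d00d0022003e00d201e0062003000000300048008007800202720008170a03))) 
(.lf (nat_lit 4228301262) (dlOf (nat_lit 5) (nat_lit 0x1540580002002008202c0000f810002020002a00b00003a08012c0580001b0200060008090a01)))) 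
(.lf (nat_lit 472302542) (dlOf (nat_lit 1) (nat_lit 0x20018982881))))))) (.nd (nat_lit 24) 
(.nd (nat_lit 21) (.nd (nat_lit 16) (.nd (nat_lit 20) 
(.lf (nat_lit 1410253006) (dlOf (nat_lit 4) (nat_lit 0x8d0000007980804e81840208000001cd0400aa061008d00000072c1000d800800d8002005a00081b0483))) 
(.nd (nat_lit 27) (.lf (nat_lit 2015438) (dlOf (nat_lit 2) (nat_lit 0x22aa600123818150480))) 
(.lf (nat_lit 5773377742) (dlOf (nat_lit 1) (nat_lit 0x8004000200180c1802))))) (.nd (nat_lit 7) 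
(.lf (nat_lit 68141134) (dlOf (nat_lit 2) (nat_lit 0x1581400001604000c00200060008400702))) 
(.lf (nat_lit 2080974) (dlOf (nat_lit 2) (nat_lit 0x22aa600123818150480))))) (.nd (nat_lit 7) 
(.nd (nat_lit 8) 
(.lf (nat_lit 16760910) (dlOf (nat_lit 2) (nat_lit 0x1d0c8002200800080080004002001200088e0183))) 
(.nd (nat_lit 20) (.lf (nat_lit 3129678) (dlOf (nat_lit 2) (nat_lit 0x44b200019018200600))) 
(.lf (nat_lit 4178254) (dlOf (nat_lit 1) (nat_lit 0x1c0018290801))))) (.nd (nat_lit 16) 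
(.lf (nat_lit 41863630) (dlOf (nat_lit 1) (nat_lit 0x800200040009244e82))) 
(.lf (nat_lit 37734862) (dlOf (nat_lit 1) (nat_lit 0x200090d4e81)))))) (.nd (nat_lit 9) 
(.nd (nat_lit 22) (.nd (nat_lit 8) 
(.lf (nat_lit 20889678) (dlOf (nat_lit 1) (nat_lit 0xc004000200189f0682))) (.nd (nat_lit 20) 
(.lf (nat_lit 19841358) (dlOf (nat_lit 1) (nat_lit 0x80080004002000200089d0d03))) 
(.lf (nat_lit 18792782) (dlOf (nat_lit 1) (nat_lit 0x20028970801))))) (.nd (nat_lit 16) 
(.nd (nat_lit 20) (.lf (nat_lit 21938254) (dlOf (nat_lit 1) (nat_lit 0x400200020008a80f82))) 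
(.lf (nat_lit 25083982) (dlOf (nat_lit 4) (nat_lit 0x131a88000f4080030d440006c0404386a2000350200040028be1501)))) 
(.lf (nat_lit 25149518) (dlOf (nat_lit 1) (nat_lit 0x20028be1501))))) (.nd (nat_lit 8) 
(.nd (nat_lit 10) (.nd (nat_lit 11) 
(.lf (nat_lit 19911246) (dlOf (nat_lit 1) (nat_lit 0x200189d8981))) 
(.lf (nat_lit 62835278) (dlOf (nat_lit 1) (nat_lit 0x200199a5281)))) 
(.lf (nat_lit 19846734) (dlOf (nat_lit 1) (nat_lit 0x600289d9c01)))) (.nd (nat_lit 16) 
(.lf (nat_lit 19843918) (dlOf (nat_lit 1) (nat_lit 0x4002000200089d5c02))) 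
(.lf (nat_lit 19909454) (dlOf (nat_lit 1) (nat_lit 0x4002000200089d5c02)))))))))) (.nd (nat_lit 6) 
(.nd (nat_lit 18) (.nd (nat_lit 28) (.nd (nat_lit 9) (.nd (nat_lit 19) (.nd (nat_lit 24) 
(.nd (nat_lit 16) (.nd (nat_lit 7) 
(.lf (nat_lit 186383) (dlOf (nat_lit 1) (nat_lit 0x40020002000800a602))) 
(.lf (nat_lit 11714703) (dlOf (nat_lit 1) (nat_lit 0x80080004002000200086c0103)))) 
(.nd (nat_lit 10) (.nd (nat_lit 27) 
(.lf (nat_lit 604225551) (dlOf (nat_lit 1) (nat_lit 0x2200280c0281))) 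
(.lf (nat_lit 1812185103) (dlOf (nat_lit 1) (nat_lit 0x8e0008170881)))) 
(.lf (nat_lit 5368955919) (dlOf (nat_lit 1) (nat_lit 0x800400020018092882))))) (.nd (nat_lit 7) 
(.nd (nat_lit 16) (.nd (nat_lit 20) 
(.lf (nat_lit 27443215) (dlOf (nat_lit 1) (nat_lit 0x400400040008ce0182))) 
(.lf (nat_lit 24297487) (dlOf (nat_lit 1) (nat_lit 0x400200020008b90682)))) 
(.lf (nat_lit 25411599) (dlOf (nat_lit 1) (nat_lit 0x7c002001e0008c00102)))) (.nd (nat_lit 21) 
(.lf (nat_lit 17023119) (dlOf (nat_lit 1) (nat_lit 0xa00288e0481))) 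
(.lf (nat_lit 23314575) (dlOf (nat_lit 1) (nat_lit 0x44c002019c0008b80102)))))) (.nd (nat_lit 21) 
(.nd (nat_lit 27) (.nd (nat_lit 16) (.nd (nat_lit 23) 
(.lf (nat_lit 537575439) (dlOf (nat_lit 1) (nat_lit 0x200280c0901))) 
(.lf (nat_lit 59424783) (dlOf (nat_lit 1) (nat_lit 0x44004000600097f0202)))) 
(.lf (nat_lit 537640975) (dlOf (nat_lit 3) (nat_lit 0x19a04b0002081003b0180000f40803880080084002007e00080e0103)))) 
(.nd (nat_lit 26) 
(.lf (nat_lit 134922255) (dlOf (nat_lit 2) (nat_lit 0xfc0760003b02000200180e0101))) 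
(.lf (nat_lit 202031119) (dlOf (nat_lit 2) (nat_lit 0xfc0760003b02000200180e0101))))) 
(.nd (nat_lit 20) (.nd (nat_lit 16) 
(.lf (nat_lit 11190287) (dlOf (nat_lit 3) (nat_lit 0x1879600103c9000208200051e48000ec080078008002400200080008670103))) 
(.lf (nat_lit 11255823) (dlOf (nat_lit 5) (nat_lit 0x168ac200a655f002d2ad80280f2c0144792000560a0002b04000856d000e95840005e0c001d608001255b0000a0200212ad8000440800c8008005800200020008680183)))) 
(.nd (nat_lit 7) 
(.lf (nat_lit 16433167) (dlOf (nat_lit 4) (nat_lit 0x1695600014aa80341f54026cfa800387a900063ae800c9d3401d4e620014730000a1ee80022450033255801752aa00be8e8006f47380311f540264fa800dc7c500683d800411ea801b8f5200de75d006e3ae00379d3400c0e7000cc731007039800048f74001104400392ac00ba8e700653ea804d1f500098f52001875d005d3ae00381cc40010e200044002004e00088a0182))) 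
(.lf (nat_lit 8044943) (dlOf (nat_lit 1) (nat_lit 0xc00400040008511002))))))) (.nd (nat_lit 29) 
(.nd (nat_lit 7) (.nd (nat_lit 10) (.nd (nat_lit 8) (.nd (nat_lit 11) 
(.lf (nat_lit 8045071) (dlOf (nat_lit 1) (nat_lit 0x400400020008511482))) 
(.lf (nat_lit 182799) (dlOf (nat_lit 1) (nat_lit 0x200018005081)))) 
(.lf (nat_lit 3422737167) (dlOf (nat_lit 1) (nat_lit 0x7c002007e00080a8f82)))) (.nd (nat_lit 11) 
(.lf (nat_lit 8046095) (dlOf (nat_lit 1) (nat_lit 0x400400020018513682))) 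
(.lf (nat_lit 183823) (dlOf (nat_lit 1) (nat_lit 0x400200080008007082))))) (.nd (nat_lit 8) 
(.lf (nat_lit 184975) (dlOf (nat_lit 1) (nat_lit 0x400200020008008c82))) 
(.lf (nat_lit 3422733199) (dlOf (nat_lit 1) (nat_lit 0x800800f4002004200080a2583))))) 
(.nd (nat_lit 31) (.nd (nat_lit 10) (.nd (nat_lit 11) 
(.lf (nat_lit 671334927) (dlOf (nat_lit 5) (nat_lit 0x26011800c80800098c0800ec0460058020002100c000200140098a1000a00460032020001d00c00068014009881000a80460038020001b00c001298180280008023000201940008158403))) 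
(.lf (nat_lit 537057807) (dlOf (nat_lit 1) (nat_lit 0xd0004011e000800b282)))) 
(.lf (nat_lit 1610794511) (dlOf (nat_lit 1) (nat_lit 0x50008002800200360008093683)))) 
(.nd (nat_lit 7) (.nd (nat_lit 8) 
(.lf (nat_lit 2684535311) (dlOf (nat_lit 1) (nat_lit 0x4004000200080a1482))) 
(.lf (nat_lit 2818824975) (dlOf (nat_lit 1) (nat_lit 0x2000812ba01)))) 
(.lf (nat_lit 2751645583) (dlOf (nat_lit 4) (nat_lit 0xa04f40002204003827a0000f02001013d00007018004200))))))) 
(.nd (nat_lit 27) (.nd (nat_lit 8) (.nd (nat_lit 10) (.nd (nat_lit 16) 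
(.lf (nat_lit 1409990671) (dlOf (nat_lit 1) (nat_lit 0x2200280c0881))) (.nd (nat_lit 31) 
(.lf (nat_lit 1410056207) (dlOf (nat_lit 3) (nat_lit 0x19a04b0002081003b0180000f40803880080084002007e00080e0103))) 
(.lf (nat_lit 3557539855) (dlOf (nat_lit 2) (nat_lit 0xc0c400060480007021800180000011610001800400040008260182))))) 
(.nd (nat_lit 9) (.lf (nat_lit 1345506319) (dlOf (nat_lit 1) (nat_lit 0x20018c95f81))) 
(.lf (nat_lit 5704500751) (dlOf (nat_lit 2) (nat_lit 0xb00c8001080800400080014002000200080d3683))))) 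
(.nd (nat_lit 11) (.nd (nat_lit 7) 
(.lf (nat_lit 3556950287) (dlOf (nat_lit 3) (nat_lit 0x1802e000c016000700700038030003000c000a00400070000007003800600180032a04004000400040018117402))) 
(.lf (nat_lit 6174196111) (dlOf (nat_lit 2) (nat_lit 0x1300b8003002400cf808003c00400120008085d82)))) 
(.nd (nat_lit 9) (.lf (nat_lit 3489910159) (dlOf (nat_lit 1) (nat_lit 0xc00400040008006c82))) 
(.lf (nat_lit 4094872463) (dlOf (nat_lit 1) (nat_lit 0x90008004c00200300008055c83)))))) 
(.nd (nat_lit 19) (.nd (nat_lit 26) (.nd (nat_lit 7) (.nd (nat_lit 10) 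
(.lf (nat_lit 939769871) (dlOf (nat_lit 1) (nat_lit 0x8e0008170881))) 
(.lf (nat_lit 5771545615) (dlOf (nat_lit 1) (nat_lit 0x400200020008005f82)))) 
(.lf (nat_lit 4160930703) (dlOf (nat_lit 1) (nat_lit 0x200280a2581)))) (.nd (nat_lit 9) 
(.nd (nat_lit 10) (.lf (nat_lit 471056399) (dlOf (nat_lit 1) (nat_lit 0x380028260281))) 
(.lf (nat_lit 473091087) (dlOf (nat_lit 1) (nat_lit 0x400080010002002c0008c95f83)))) 
(.lf (nat_lit 2617426447) (dlOf (nat_lit 1) (nat_lit 0x200280a1481))))) (.nd (nat_lit 7) 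
(.nd (nat_lit 26) 
(.lf (nat_lit 5772066831) (dlOf (nat_lit 5) (nat_lit 0x380a000b404a004a0230012011000c0080007003000d4b0c004602800240130003809400340400016018006a5050019014001380980030044001e020000e00c0035202800780a0009804c001e020000e00c0035182000c8008004c00200220008060a03))) 
(.nd (nat_lit 29) 
(.lf (nat_lit 470466575) (dlOf (nat_lit 1) (nat_lit 0x8008000400200020008100703))) 
(.lf (nat_lit 6376046607) (dlOf (nat_lit 5) (nat_lit 0x380a000b404a004a0230012011000c00800070030007d00c004602800240130003809400340400016018003e7850019014001380980030044001e020000e00c001f342800780a0009804c001e020000e00c001f2c2000c8008004c00200220008060a03))))) 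
(.nd (nat_lit 9) (.lf (nat_lit 6377095311) (dlOf (nat_lit 1) (nat_lit 0x8002000200080a2782))) 
(.lf (nat_lit 6376114831) (dlOf (nat_lit 1) (nat_lit 0x20018095481)))))))) (.nd (nat_lit 16) 
(.nd (nat_lit 26) (.nd (nat_lit 19) (.nd (nat_lit 22) (.nd (nat_lit 7) 
(.lf (nat_lit 1611055119) (dlOf (nat_lit 1) (nat_lit 0x800280d0001))) 
(.lf (nat_lit 3221667983) (dlOf (nat_lit 1) (nat_lit 0x1000400020008170102)))) (.nd (nat_lit 8) 
(.nd (nat_lit 23) (.lf (nat_lit 3494297615) (dlOf (nat_lit 1) (nat_lit 0x200181f0701))) 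
(.lf (nat_lit 13025295) (dlOf (nat_lit 1) (nat_lit 0x80080020002000200086f0083)))) 
(.lf (nat_lit 29802767) (dlOf (nat_lit 1) (nat_lit 0x18002000c0008e30702))))) (.nd (nat_lit 7) 
(.nd (nat_lit 8) (.lf (nat_lit 54447119) (dlOf (nat_lit 1) (nat_lit 0x20019655f81))) 
(.lf (nat_lit 19841295) (dlOf (nat_lit 1) (nat_lit 0x4002000200089d0a82)))) (.nd (nat_lit 8) 
(.lf (nat_lit 19845775) (dlOf (nat_lit 2) (nat_lit 0xdaa20046902000200189d8c81))) 
(.lf (nat_lit 54446991) (dlOf (nat_lit 1) (nat_lit 0x20019655c81)))))) (.nd (nat_lit 31) 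
(.nd (nat_lit 10) (.nd (nat_lit 7) 
(.lf (nat_lit 738639887) (dlOf (nat_lit 1) (nat_lit 0x800280d0001))) 
(.lf (nat_lit 4362518671) (dlOf (nat_lit 1) (nat_lit 0x20018090101)))) (.nd (nat_lit 11) 
(.lf (nat_lit 70173711) (dlOf (nat_lit 1) (nat_lit 0x400400020008fa2882))) 
(.lf (nat_lit 604425231) (dlOf (nat_lit 10) (nat_lit 0x18006000144080058030000a00400100180004f02000a009000270100100060001300800580e80084068004c02a0002203001601d000d00d0007c054000430600100000001d01001b01a0000cc0801d80080028002001a0008205f83))))) 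
(.nd (nat_lit 7) (.nd (nat_lit 19) (.nd (nat_lit 22) 
(.lf (nat_lit 3020341263) (dlOf (nat_lit 1) (nat_lit 0x400200040008260182))) 
(.lf (nat_lit 2756100111) (dlOf (nat_lit 1) (nat_lit 0x200281f0781)))) 
(.lf (nat_lit 2755575823) (dlOf (nat_lit 1) (nat_lit 0x200281b0001)))) (.nd (nat_lit 28) 
(.lf (nat_lit 3959865487) (dlOf (nat_lit 1) (nat_lit 0x1000400020008170102))) 
(.lf (nat_lit 4228300943) (dlOf (nat_lit 1) (nat_lit 0x20018090101))))))) (.nd (nat_lit 19) 
(.nd (nat_lit 22) (.nd (nat_lit 7) (.nd (nat_lit 21) 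
(.lf (nat_lit 3892822031) (dlOf (nat_lit 1) (nat_lit 0x20028280001))) 
(.lf (nat_lit 1009238031) (dlOf (nat_lit 1) (nat_lit 0x200080020002001600090a0003)))) 
(.nd (nat_lit 8) (.nd (nat_lit 26) 
(.lf (nat_lit 3624386703) (dlOf (nat_lit 2) (nat_lit 0x401b00014018183e80))) 
(.lf (nat_lit 2886189199) (dlOf (nat_lit 5) (nat_lit 0x6601c0001781003000e0000b40801c807000054040004038000260200020018183e01)))) 
(.lf (nat_lit 3490171279) (dlOf (nat_lit 1) (nat_lit 0x400200020008004e82))))) (.nd (nat_lit 20) 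
(.nd (nat_lit 9) 
(.lf (nat_lit 2756165647) (dlOf (nat_lit 1) (nat_lit 0xb0008000800200060008210883))) 
(.lf (nat_lit 40356367) (dlOf (nat_lit 1) (nat_lit 0x8400291f5081)))) (.nd (nat_lit 10) 
(.lf (nat_lit 5750799) (dlOf (nat_lit 1) (nat_lit 0xc004000200083d0202))) 
(.lf (nat_lit 39306255) (dlOf (nat_lit 1) (nat_lit 0x8008000800200020009192883)))))) 
(.nd (nat_lit 20) (.nd (nat_lit 9) (.nd (nat_lit 10) (.nd (nat_lit 24) 
(.lf (nat_lit 68141071) (dlOf (nat_lit 1) (nat_lit 0x20008400001))) 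
(.lf (nat_lit 17809423) (dlOf (nat_lit 2) (nat_lit 0x1ee338038540803a80080020002007400088f0783)))) 
(.lf (nat_lit 472892431) (dlOf (nat_lit 1) (nat_lit 0x20028b52881)))) 
(.lf (nat_lit 2752496143) (dlOf (nat_lit 1) (nat_lit 0x60018018401)))) (.nd (nat_lit 10) 
(.nd (nat_lit 21) (.nd (nat_lit 22) 
(.lf (nat_lit 10469391) (dlOf (nat_lit 1) (nat_lit 0x80080004002000200085e0a03))) 
(.lf (nat_lit 23052303) (dlOf (nat_lit 1) (nat_lit 0x8008004000200240008b50103)))) 
(.lf (nat_lit 25149455) (dlOf (nat_lit 1) (nat_lit 0x20018be0881)))) 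
(.lf (nat_lit 56607759) (dlOf (nat_lit 1) (nat_lit 0x20009732881)))))))) (.nd (nat_lit 16) 
(.nd (nat_lit 8) (.nd (nat_lit 18) (.nd (nat_lit 11) (.nd (nat_lit 19) (.nd (nat_lit 12) 
(.nd (nat_lit 20) 
(.lf (nat_lit 25346127) (dlOf (nat_lit 2) (nat_lit 0x280000008e040078002000c0008bf0d02))) 
(.lf (nat_lit 28491855) (dlOf (nat_lit 1) (nat_lit 0x400200020008da0202)))) 
(.lf (nat_lit 184399) (dlOf (nat_lit 1) (nat_lit 0x30008004000200120008007d83)))) (.nd (nat_lit 20) 
(.nd (nat_lit 21) 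
(.lf (nat_lit 4228563023) (dlOf (nat_lit 3) (nat_lit 0x4c02c0000d8100260160000680800880080034002000e00080f1583))) 
(.lf (nat_lit 1344979023) (dlOf (nat_lit 1) (nat_lit 0x14002001800089a0702)))) 
(.lf (nat_lit 45793359) (dlOf (nat_lit 1) (nat_lit 0x800200020009360702))))) (.nd (nat_lit 9) 
(.nd (nat_lit 19) (.lf (nat_lit 3087190223) (dlOf (nat_lit 1) (nat_lit 0x20028144a01))) 
(.lf (nat_lit 2752170191) (dlOf (nat_lit 1) (nat_lit 0x20004011e0008004a02)))) (.nd (nat_lit 7) 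
(.lf (nat_lit 2751650383) (dlOf (nat_lit 2) (nat_lit 0x2a91088000000800f000800300020088000800b603))) 
(.lf (nat_lit 182991) (dlOf (nat_lit 1) (nat_lit 0x1c0018005881)))))) (.nd (nat_lit 20) 
(.nd (nat_lit 12) (.nd (nat_lit 19) (.nd (nat_lit 21) 
(.lf (nat_lit 3557212239) (dlOf (nat_lit 1) (nat_lit 0x20008000c00200080008170703))) 
(.lf (nat_lit 48676943) (dlOf (nat_lit 1) (nat_lit 0x400200020009420702)))) 
(.lf (nat_lit 13549647) (dlOf (nat_lit 2) (nat_lit 0xa80000008004009c00200120008730d02)))) 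
(.nd (nat_lit 7) (.lf (nat_lit 2550585423) (dlOf (nat_lit 1) (nat_lit 0x600180fa701))) 
(.lf (nat_lit 19845839) (dlOf (nat_lit 1) (nat_lit 0x200289d8c81))))) (.nd (nat_lit 9) 
(.nd (nat_lit 24) 
(.lf (nat_lit 473874511) (dlOf (nat_lit 2) (nat_lit 0x430a6001e835c0002c08007000400200008fc0702))) 
(.lf (nat_lit 20889679) (dlOf (nat_lit 1) (nat_lit 0x8004000400089f0682)))) (.nd (nat_lit 10) 
(.lf (nat_lit 62835279) (dlOf (nat_lit 1) (nat_lit 0x1bc002005200099a5282))) 
(.lf (nat_lit 4095657551) (dlOf (nat_lit 1) (nat_lit 0x2600280e3881))))))) (.nd (nat_lit 7) 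
(.nd (nat_lit 11) (.nd (nat_lit 20) (.nd (nat_lit 26) 
(.lf (nat_lit 805749071) (dlOf (nat_lit 3) (nat_lit 0x301d8000c8080008120000c08e0002c04000200081a0601))) 
(.lf (nat_lit 1678164303) (dlOf (nat_lit 3) (nat_lit 0x301d8000cc080008120000c08e0002d04000200081a0601)))) 
(.nd (nat_lit 9) (.nd (nat_lit 26) 
(.lf (nat_lit 3493249359) (dlOf (nat_lit 1) (nat_lit 0x20018104c81))) 
(.lf (nat_lit 2755051855) (dlOf (nat_lit 1) (nat_lit 0x20018104c81)))) 
(.lf (nat_lit 8049487) (dlOf (nat_lit 1) (nat_lit 0x38008000c00200080008518f83))))) 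
(.nd (nat_lit 27) (.nd (nat_lit 9) 
(.lf (nat_lit 8051023) (dlOf (nat_lit 1) (nat_lit 0x2000851ab81))) 
(.lf (nat_lit 6241307471) (dlOf (nat_lit 1) (nat_lit 0x2400080d5c01)))) (.nd (nat_lit 10) 
(.lf (nat_lit 3959605583) (dlOf (nat_lit 2) (nat_lit 0x404f00008018114d80))) 
(.lf (nat_lit 1543687503) (dlOf (nat_lit 3) (nat_lit 0x200c00005408002806000026040038004000c0008146a02)))))) 
(.nd (nat_lit 27) (.nd (nat_lit 18) (.nd (nat_lit 19) 
(.lf (nat_lit 3491938767) (dlOf (nat_lit 5) (nat_lit 0x6070800032040008384000180200281c20000b81001a0e1000000080088008013400200060008090a03))) 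
(.lf (nat_lit 23773647) (dlOf (nat_lit 1) (nat_lit 0x1000400040008b80a02)))) (.nd (nat_lit 9) 
(.nd (nat_lit 26) 
(.lf (nat_lit 3491676623) (dlOf (nat_lit 5) (nat_lit 0x30e1000064080020708000300400343840001702001c1c200020878000001000f0008024400200360008090a03))) 
(.lf (nat_lit 2753479119) (dlOf (nat_lit 5) (nat_lit 0x30ea000064080020750000300400343a80001702001c1d400020848000001000f0008024400200360008090a03)))) 
(.lf (nat_lit 8835023) (dlOf (nat_lit 1) (nat_lit 0x400200020008517a82))))) (.nd (nat_lit 9) 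
(.nd (nat_lit 10) (.nd (nat_lit 19) 
(.lf (nat_lit 4228039119) (dlOf (nat_lit 1) (nat_lit 0x680018017101))) 
(.lf (nat_lit 473612751) (dlOf (nat_lit 1) (nat_lit 0x20008f67b01)))) 
(.lf (nat_lit 474138063) (dlOf (nat_lit 1) (nat_lit 0x4004000e00090e3602)))) (.nd (nat_lit 12) 
(.lf (nat_lit 3959605199) (dlOf (nat_lit 1) (nat_lit 0x440028114481))) 
(.lf (nat_lit 3959609295) (dlOf (nat_lit 2) (nat_lit 0x50045002af81811a600)))))))) 
(.nd (nat_lit 27) (.nd (nat_lit 21) (.nd (nat_lit 23) (.nd (nat_lit 8) (.nd (nat_lit 7) 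
(.nd (nat_lit 18) (.lf (nat_lit 1342423119) (dlOf (nat_lit 1) (nat_lit 0x400018020901))) 
(.lf (nat_lit 18858063) (dlOf (nat_lit 1) (nat_lit 0x400400020008970202)))) 
(.lf (nat_lit 3020144847) (dlOf (nat_lit 2) (nat_lit 0xc0460000002004e0008130481)))) 
(.nd (nat_lit 7) (.nd (nat_lit 9) 
(.lf (nat_lit 1342685519) (dlOf (nat_lit 1) (nat_lit 0x200280c0601))) 
(.lf (nat_lit 3557019471) (dlOf (nat_lit 1) (nat_lit 0x20008127781)))) 
(.lf (nat_lit 268684239) (dlOf (nat_lit 1) (nat_lit 0x3c004000e00180e5d82))))) (.nd (nat_lit 18) 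
(.nd (nat_lit 19) (.nd (nat_lit 20) 
(.lf (nat_lit 63160399) (dlOf (nat_lit 2) (nat_lit 0x299f00014cca00144e604ed26a000038200370008025c002004200099e0703))) 
(.lf (nat_lit 26460239) (dlOf (nat_lit 1) (nat_lit 0x400200020008c50702)))) 
(.lf (nat_lit 10207311) (dlOf (nat_lit 1) (nat_lit 0x80080048002001a00085c1003)))) (.nd (nat_lit 7) 
(.lf (nat_lit 25674063) (dlOf (nat_lit 1) (nat_lit 0x20018c10801))) 
(.lf (nat_lit 8898767) (dlOf (nat_lit 1) (nat_lit 0x38008001000200080008514a03)))))) 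
(.nd (nat_lit 19) (.nd (nat_lit 7) (.nd (nat_lit 18) (.nd (nat_lit 20) 
(.lf (nat_lit 19120207) (dlOf (nat_lit 1) (nat_lit 0x20028970201))) 
(.lf (nat_lit 28557391) (dlOf (nat_lit 2) (nat_lit 0x10000000be04000c00200060008da0202)))) 
(.lf (nat_lit 48742479) (dlOf (nat_lit 1) (nat_lit 0x20019420701)))) (.nd (nat_lit 8) 
(.lf (nat_lit 3493054671) (dlOf (nat_lit 1) (nat_lit 0x8004000200080f4a02))) 
(.lf (nat_lit 12042703) (dlOf (nat_lit 1) (nat_lit 0x4002000200086c0a02))))) (.nd (nat_lit 9) 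
(.nd (nat_lit 8) (.nd (nat_lit 18) 
(.lf (nat_lit 45858895) (dlOf (nat_lit 3) (nat_lit 0x640000000f02001573e00003819360700))) 
(.lf (nat_lit 25149519) (dlOf (nat_lit 1) (nat_lit 0x400400020018be1582)))) 
(.lf (nat_lit 8116559) (dlOf (nat_lit 1) (nat_lit 0x1800800040020002000851ab83)))) (.nd (nat_lit 7) 
(.lf (nat_lit 19650383) (dlOf (nat_lit 1) (nat_lit 0x1c00289da201))) (.nd (nat_lit 18) 
(.lf (nat_lit 19649231) (dlOf (nat_lit 1) (nat_lit 0x200189d8c81))) 
(.lf (nat_lit 19911375) (dlOf (nat_lit 1) (nat_lit 0x80080004002000200089d8c83)))))))) 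
(.nd (nat_lit 8) (.nd (nat_lit 26) (.nd (nat_lit 10) (.nd (nat_lit 19) 
(.lf (nat_lit 134463567) (dlOf (nat_lit 1) (nat_lit 0xcc004007a0008031002))) 
(.lf (nat_lit 5773181007) (dlOf (nat_lit 8) (nat_lit 0x238000000560201780000002a8100c6000000150080668000000a60400041840003002009a0000001101009400000004808001000801d8002005000080b0683)))) 
(.nd (nat_lit 7) 
(.lf (nat_lit 2818825295) (dlOf (nat_lit 1) (nat_lit 0x200008008c002003e000812bf83))) 
(.lf (nat_lit 3624127695) (dlOf (nat_lit 1) (nat_lit 0x34002000a0008146402))))) (.nd (nat_lit 18) 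
(.nd (nat_lit 19) (.nd (nat_lit 28) 
(.lf (nat_lit 201572431) (dlOf (nat_lit 1) (nat_lit 0xcc004007a0008031002))) 
(.lf (nat_lit 470007887) (dlOf (nat_lit 1) (nat_lit 0x400018020901)))) 
(.lf (nat_lit 6377160783) (dlOf (nat_lit 8) (nat_lit 0x238000000560201780000002a8100c6000000150080668000000a60400041840003002009a0000001101009400000004808001000801d8002005000080b0683)))) 
(.nd (nat_lit 19) 
(.lf (nat_lit 1009238095) (dlOf (nat_lit 6) (nat_lit 0xd01d80006c04005c1c6001e07600007820096071804881d80000e0801ec1c60128076000018200a4071805501d80000008000c004000800090a0702))) 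
(.lf (nat_lit 473940047) (dlOf (nat_lit 3) (nat_lit 0xd82be004e15e002d06b8022026c0104116000160a00060d70000a818fc0700)))))) 
(.nd (nat_lit 26) (.nd (nat_lit 18) (.nd (nat_lit 7) 
(.lf (nat_lit 671334735) (dlOf (nat_lit 2) (nat_lit 0x240110001b0080230008001c00200540008154c83))) 
(.lf (nat_lit 2818825167) (dlOf (nat_lit 1) (nat_lit 0x40020004000812bf02)))) (.nd (nat_lit 10) 
(.lf (nat_lit 3624386895) (dlOf (nat_lit 2) (nat_lit 0x7001b0003a018188180))) 
(.lf (nat_lit 4698129743) (dlOf (nat_lit 2) (nat_lit 0x780bc0004a0400ac00400200018123302))))) 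
(.nd (nat_lit 7) (.nd (nat_lit 11) (.nd (nat_lit 18) 
(.lf (nat_lit 1543749967) (dlOf (nat_lit 2) (nat_lit 0x24011000040080230008001c00200540008154c83))) 
(.lf (nat_lit 470270287) (dlOf (nat_lit 1) (nat_lit 0x200280c0601)))) 
(.lf (nat_lit 2885929295) (dlOf (nat_lit 1) (nat_lit 0x70008001400200200008144d83)))) 
(.nd (nat_lit 10) (.lf (nat_lit 4496542671) (dlOf (nat_lit 1) (nat_lit 0x178004000400180e5d82))) 
(.lf (nat_lit 2885928911) (dlOf (nat_lit 3) (nat_lit 0x600f80008020000a0000000883001f01f001000dc0074062003a0140020008000040280120008006800200020008144483))))))))))) 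
(.nd (nat_lit 16) (.nd (nat_lit 0) (.nd (nat_lit 8) (.nd (nat_lit 19) (.nd (nat_lit 31) 
(.nd (nat_lit 9) (.nd (nat_lit 26) (.nd (nat_lit 20) (.nd (nat_lit 21) (.nd (nat_lit 28) 
(.lf (nat_lit 1073922094) (dlOf (nat_lit 2) (nat_lit 0x1014800084080070008001c00200100008020583))) 
(.lf (nat_lit 4563583022) (dlOf (nat_lit 1) (nat_lit 0x20028090001)))) 
(.lf (nat_lit 52609070) (dlOf (nat_lit 1) (nat_lit 0xba0019560a01)))) (.nd (nat_lit 18) 
(.nd (nat_lit 22) (.lf (nat_lit 18006062) (dlOf (nat_lit 1) (nat_lit 0x320018900b81))) 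
(.lf (nat_lit 30588974) (dlOf (nat_lit 2) (nat_lit 0x800000007818e40e80)))) 
(.lf (nat_lit 35045422) (dlOf (nat_lit 1) (nat_lit 0x400200020008fd0282))))) (.nd (nat_lit 22) 
(.nd (nat_lit 28) (.nd (nat_lit 29) 
(.lf (nat_lit 67289134) (dlOf (nat_lit 1) (nat_lit 0x4004000200080a0682))) 
(.lf (nat_lit 604160046) (dlOf (nat_lit 1) (nat_lit 0x400400020008060d02)))) 
(.lf (nat_lit 1946337326) (dlOf (nat_lit 2) (nat_lit 0x1014800084080070008001c00200100008020583)))) 
(.nd (nat_lit 7) (.lf (nat_lit 474399790) (dlOf (nat_lit 1) (nat_lit 0x1a0019162881))) 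
(.lf (nat_lit 474136750) (dlOf (nat_lit 9) (nat_lit 0xf049000881fc0009c080010124000c07f00026820005049000301fc00086080010124000e07f00021020006049000401fc0007c08001c124001007f0001e020009049000601fc00076080020124001207f00010000000dc1800180080098002002200090e0603)))))) 
(.nd (nat_lit 6) (.nd (nat_lit 10) (.nd (nat_lit 18) 
(.lf (nat_lit 134398510) (dlOf (nat_lit 8) (nat_lit 0x1404a00230178001a4100048128009805e0006804001204a0043017800198100048128008405e0004404000604a0026017800108100048128006c05e0004004000604a000e0178000fc1000d000800b400200140008018003))) 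
(.nd (nat_lit 26) 
(.lf (nat_lit 134660654) (dlOf (nat_lit 5) (nat_lit 0x15006200ba0110001b02007001880350044000680800fc062000090200cc03100640088000001000a0008002400200360008090e83))) 
(.lf (nat_lit 201769518) (dlOf (nat_lit 5) (nat_lit 0x15006200ba0110001b02007001880350044000680800fc062000090200cc03100640088000001000a0008002400200360008090e83))))) 
(.lf (nat_lit 8832558) (dlOf (nat_lit 2) (nat_lit 0x1d912000210200020008513781)))) (.nd (nat_lit 7) 
(.lf (nat_lit 5637326446) (dlOf (nat_lit 1) (nat_lit 0x4002000200080d3982))) (.nd (nat_lit 10) 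
(.lf (nat_lit 57068270) (dlOf (nat_lit 1) (nat_lit 0x14004002a0009795a02))) (.nd (nat_lit 23) 
(.lf (nat_lit 671270638) (dlOf (nat_lit 1) (nat_lit 0x400400020008143b02))) 
(.lf (nat_lit 8570606) (dlOf (nat_lit 2) (nat_lit 0x4199800050080008008000c00200020008513b03)))))))) 
(.nd (nat_lit 27) (.nd (nat_lit 6) (.nd (nat_lit 18) (.nd (nat_lit 26) 
(.lf (nat_lit 3490889774) (dlOf (nat_lit 3) (nat_lit 0x602900005e040018148000a08200017028030c00))) 
(.lf (nat_lit 2752692270) (dlOf (nat_lit 3) (nat_lit 0x602b40006404001815a000a08200018828030c00)))) 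
(.nd (nat_lit 26) 
(.lf (nat_lit 3491151918) (dlOf (nat_lit 3) (nat_lit 0x10540000060400702b8000000200240018070901))) 
(.lf (nat_lit 2752954414) (dlOf (nat_lit 2) (nat_lit 0x42a4000000200040028070801))))) 
(.nd (nat_lit 7) 
(.lf (nat_lit 3758281838) (dlOf (nat_lit 1) (nat_lit 0xb8008006000200040008129403))) 
(.nd (nat_lit 10) (.lf (nat_lit 2751645934) (dlOf (nat_lit 2) (nat_lit 0xa2350002b818004b80))) 
(.lf (nat_lit 3489844462) (dlOf (nat_lit 1) (nat_lit 0x40028006501)))))) (.nd (nat_lit 18) 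
(.nd (nat_lit 9) (.nd (nat_lit 26) 
(.lf (nat_lit 4160929838) (dlOf (nat_lit 1) (nat_lit 0x200280a0001))) 
(.lf (nat_lit 3422732334) (dlOf (nat_lit 1) (nat_lit 0x4004000200080a0002)))) (.nd (nat_lit 11) 
(.lf (nat_lit 2281882158) (dlOf (nat_lit 1) (nat_lit 0x200280a1481))) 
(.lf (nat_lit 3959609902) (dlOf (nat_lit 2) (nat_lit 0x560450005c01811b300))))) (.nd (nat_lit 26) 
(.nd (nat_lit 28) (.lf (nat_lit 2819014702) (dlOf (nat_lit 1) (nat_lit 0x4c00400020008150402))) 
(.lf (nat_lit 3624321070) (dlOf (nat_lit 3) (nat_lit 0xc06e0001702000a04500000018160580)))) 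
(.lf (nat_lit 2886123566) (dlOf (nat_lit 3) (nat_lit 0xc06e0001702000a04400000018160580))))))) 
(.nd (nat_lit 28) (.nd (nat_lit 20) (.nd (nat_lit 21) (.nd (nat_lit 26) 
(.lf (nat_lit 134922286) (dlOf (nat_lit 2) (nat_lit 0xf0188001440800c000800b400200e200080e0603))) 
(.nd (nat_lit 27) 
(.lf (nat_lit 4362780718) (dlOf (nat_lit 1) (nat_lit 0x8008000c002000200080f0e03))) 
(.lf (nat_lit 202031150) (dlOf (nat_lit 2) (nat_lit 0xf0188001280800c000800b400200e200080e0603))))) 
(.nd (nat_lit 7) (.lf (nat_lit 15646766) (dlOf (nat_lit 1) (nat_lit 0x8008000400200020008810883))) 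
(.nd (nat_lit 9) (.lf (nat_lit 32162990) (dlOf (nat_lit 1) (nat_lit 0x60018ef2c01))) 
(.lf (nat_lit 19847854) (dlOf (nat_lit 1) (nat_lit 0x200289db781)))))) (.nd (nat_lit 12) 
(.nd (nat_lit 9) (.nd (nat_lit 18) 
(.lf (nat_lit 1753134) (dlOf (nat_lit 3) (nat_lit 0x300d7000150100020000000400800b0008006400200020008130803))) 
(.lf (nat_lit 4112430) (dlOf (nat_lit 2) (nat_lit 0xd800000019818280600)))) 
(.lf (nat_lit 2753217070) (dlOf (nat_lit 4) (nat_lit 0xa61fd00520f38000d81003887f401bc3ce000340400de1fd006f0f380000010029800800e800200560008090e83)))) 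
(.nd (nat_lit 7) (.lf (nat_lit 8050734) (dlOf (nat_lit 1) (nat_lit 0x800800040020002000851a603))) 
(.lf (nat_lit 8311982) (dlOf (nat_lit 1) (nat_lit 0x60028519501)))))) (.nd (nat_lit 26) 
(.nd (nat_lit 6) (.nd (nat_lit 9) 
(.lf (nat_lit 1343930414) (dlOf (nat_lit 1) (nat_lit 0x1f8008001000201280008380e83))) 
(.nd (nat_lit 18) 
(.lf (nat_lit 3491414574) (dlOf (nat_lit 4) (nat_lit 0xa61eb00520e90000d81003887ac01bc3a4000340400de1eb006f0e900000010029800800e800200560008090e83))) 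
(.lf (nat_lit 3490628142) (dlOf (nat_lit 3) (nat_lit 0x10540000e00800e822c0000004001000200020008018002))))) 
(.nd (nat_lit 7) (.lf (nat_lit 1880014958) (dlOf (nat_lit 1) (nat_lit 0xc0018520281))) 
(.nd (nat_lit 9) (.lf (nat_lit 5772330222) (dlOf (nat_lit 1) (nat_lit 0x400200020008092e82))) 
(.lf (nat_lit 1345243886) (dlOf (nat_lit 1) (nat_lit 0x1000400020018b05a02)))))) (.nd (nat_lit 20) 
(.nd (nat_lit 21) (.nd (nat_lit 27) 
(.lf (nat_lit 3557474350) (dlOf (nat_lit 2) (nat_lit 0x500340005a040024002000a0008220882))) 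
(.lf (nat_lit 4228562990) (dlOf (nat_lit 1) (nat_lit 0x8008000c002000200080f0e03)))) 
(.lf (nat_lit 472563758) (dlOf (nat_lit 1) (nat_lit 0x4004000200089c0282)))) (.nd (nat_lit 9) 
(.nd (nat_lit 18) (.lf (nat_lit 1008386094) (dlOf (nat_lit 1) (nat_lit 0xc40018ba0a01))) 
(.lf (nat_lit 473874478) (dlOf (nat_lit 7) (nat_lit 0x1dc2d000ec1450077067800981cc00016100148408013016800940a2804a033c000141001ec28a00da0cf0000482009e0b40057851402bc19e00008060126145009306780001c1006085a002a028a01560cf00a10630000002003d00080078002053e0008fc0283)))) 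
(.lf (nat_lit 473612846) (dlOf (nat_lit 4) (nat_lit 0x502360004502000811b000218100021098000000802e00080014002001a0008f68a83)))))))) 
(.nd (nat_lit 20) (.nd (nat_lit 7) (.nd (nat_lit 18) (.nd (nat_lit 9) (.nd (nat_lit 26) 
(.nd (nat_lit 27) (.lf (nat_lit 4295147822) (dlOf (nat_lit 1) (nat_lit 0x400200020008090502))) 
(.lf (nat_lit 134398254) (dlOf (nat_lit 1) (nat_lit 0x80018014901)))) 
(.lf (nat_lit 201507118) (dlOf (nat_lit 1) (nat_lit 0x80018014901)))) (.nd (nat_lit 10) 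
(.lf (nat_lit 2281882414) (dlOf (nat_lit 1) (nat_lit 0x400280a2201))) 
(.lf (nat_lit 3758282542) (dlOf (nat_lit 3) (nat_lit 0x5603d0001c81007b01900328098000000800040040006000812a102))))) 
(.nd (nat_lit 6) (.nd (nat_lit 10) 
(.lf (nat_lit 23511342) (dlOf (nat_lit 2) (nat_lit 0x382d7e00023018b80500))) 
(.lf (nat_lit 872858926) (dlOf (nat_lit 1) (nat_lit 0x1e00280e3201)))) (.nd (nat_lit 26) 
(.lf (nat_lit 805749102) (dlOf (nat_lit 4) (nat_lit 0x14810800df604007c084006f802004c0420037b8181a0780))) 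
(.lf (nat_lit 1678164334) (dlOf (nat_lit 4) (nat_lit 0x1481080194404007c08400ca102004c042006500181a0780)))))) 
(.nd (nat_lit 10) (.nd (nat_lit 6) (.nd (nat_lit 27) (.nd (nat_lit 18) 
(.lf (nat_lit 1610793390) (dlOf (nat_lit 7) (nat_lit 0x10130002ba040098098002a035000ac02000202600055c080098130002ac0400340980034035000678200020248002580805c0008029c00200480008091003))) 
(.lf (nat_lit 1678164398) (dlOf (nat_lit 2) (nat_lit 0x11e042006518181a0780)))) (.nd (nat_lit 28) 
(.lf (nat_lit 2348990894) (dlOf (nat_lit 1) (nat_lit 0x100008090781))) 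
(.lf (nat_lit 5301780910) (dlOf (nat_lit 2) (nat_lit 0xa0088005a40800a00080060002006e0008091003))))) 
(.nd (nat_lit 11) (.nd (nat_lit 22) 
(.lf (nat_lit 1812120046) (dlOf (nat_lit 2) (nat_lit 0xa400000012818157380))) 
(.lf (nat_lit 474137070) (dlOf (nat_lit 1) (nat_lit 0x200090e1381)))) 
(.lf (nat_lit 2751650286) (dlOf (nat_lit 2) (nat_lit 0x13620f0053e01800b280))))) (.nd (nat_lit 18) 
(.nd (nat_lit 6) (.nd (nat_lit 19) 
(.lf (nat_lit 1677903790) (dlOf (nat_lit 1) (nat_lit 0x40018114381))) 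
(.lf (nat_lit 2752169902) (dlOf (nat_lit 1) (nat_lit 0x20028004381)))) 
(.lf (nat_lit 8570862) (dlOf (nat_lit 2) (nat_lit 0x3c088000320200040018514601)))) (.nd (nat_lit 9) 
(.lf (nat_lit 8832430) (dlOf (nat_lit 1) (nat_lit 0x20018513601))) 
(.lf (nat_lit 2751907758) (dlOf (nat_lit 1) (nat_lit 0x20018004381))))))) (.nd (nat_lit 6) 
(.nd (nat_lit 7) (.nd (nat_lit 18) (.nd (nat_lit 12) 
(.lf (nat_lit 8045358) (dlOf (nat_lit 1) (nat_lit 0x80028512201))) 
(.lf (nat_lit 8049454) (dlOf (nat_lit 1) (nat_lit 0x18008001400200040008518f83)))) 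
(.nd (nat_lit 10) (.lf (nat_lit 8307502) (dlOf (nat_lit 1) (nat_lit 0x160028512201))) 
(.lf (nat_lit 8308526) (dlOf (nat_lit 1) (nat_lit 0x3000400040018513d82))))) (.nd (nat_lit 9) 
(.nd (nat_lit 12) (.nd (nat_lit 18) 
(.lf (nat_lit 43172270) (dlOf (nat_lit 2) (nat_lit 0x292bfc0016802000200292a1001))) 
(.lf (nat_lit 8307118) (dlOf (nat_lit 1) (nat_lit 0x1400400020008511002)))) 
(.lf (nat_lit 8049070) (dlOf (nat_lit 1) (nat_lit 0x10008002000200080008518483)))) 
(.nd (nat_lit 10) (.lf (nat_lit 20106158) (dlOf (nat_lit 1) (nat_lit 0x1200289d5d01))) 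
(.lf (nat_lit 8048558) (dlOf (nat_lit 1) (nat_lit 0x30004000c0008517982)))))) (.nd (nat_lit 9) 
(.nd (nat_lit 7) (.nd (nat_lit 26) 
(.lf (nat_lit 3491414382) (dlOf (nat_lit 3) (nat_lit 0x43cc007040200261e50034e018090780))) 
(.lf (nat_lit 2753216878) (dlOf (nat_lit 3) (nat_lit 0x43f000cb10200261f700615818090780)))) 
(.nd (nat_lit 12) (.nd (nat_lit 26) 
(.lf (nat_lit 3491414510) (dlOf (nat_lit 2) (nat_lit 0x201ed00115018090d80))) 
(.lf (nat_lit 2753217006) (dlOf (nat_lit 2) (nat_lit 0x201ff00115018090d80)))) 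
(.lf (nat_lit 8049134) (dlOf (nat_lit 1) (nat_lit 0x400200040008518682))))) (.nd (nat_lit 12) 
(.nd (nat_lit 10) (.lf (nat_lit 5772854254) (dlOf (nat_lit 1) (nat_lit 0x400400020008092882))) 
(.lf (nat_lit 8310766) (dlOf (nat_lit 1) (nat_lit 0x400200020008517a82)))) (.nd (nat_lit 7) 
(.lf (nat_lit 8050542) (dlOf (nat_lit 1) (nat_lit 0x78008004c0020012000851a303))) 
(.lf (nat_lit 8050670) (dlOf (nat_lit 1) (nat_lit 0x800800040020002000851a603))))))))) 
(.nd (nat_lit 6) (.nd (nat_lit 9) (.nd (nat_lit 19) (.nd (nat_lit 29) (.nd (nat_lit 22) 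
(.nd (nat_lit 7) (.nd (nat_lit 8) 
(.lf (nat_lit 25346095) (dlOf (nat_lit 2) (nat_lit 0x3000000034040088002000e0008bf0b02))) 
(.lf (nat_lit 6509743407) (dlOf (nat_lit 1) (nat_lit 0x1ce0028146881)))) 
(.lf (nat_lit 35833007) (dlOf (nat_lit 1) (nat_lit 0x20019012c01)))) (.nd (nat_lit 7) 
(.nd (nat_lit 20) (.lf (nat_lit 14860335) (dlOf (nat_lit 1) (nat_lit 0x20018790481))) 
(.lf (nat_lit 24297519) (dlOf (nat_lit 1) (nat_lit 0x20018b90981)))) 
(.lf (nat_lit 57854383) (dlOf (nat_lit 1) (nat_lit 0x140019794e81))))) (.nd (nat_lit 31) 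
(.nd (nat_lit 26) 
(.lf (nat_lit 5234671663) (dlOf (nat_lit 6) (nat_lit 0x180158000d00805200ac01cc0520002e04001002b0001401000f01580009c0800200ac0004a040004004000c0018080382))) 
(.nd (nat_lit 32) 
(.lf (nat_lit 604160047) (dlOf (nat_lit 2) (nat_lit 0x601f800238080020008000c00200120008060d03))) 
(.lf (nat_lit 4899127343) (dlOf (nat_lit 2) (nat_lit 0x1780320002b02001a0008080381))))) 
(.nd (nat_lit 7) (.nd (nat_lit 8) 
(.lf (nat_lit 2819014703) (dlOf (nat_lit 1) (nat_lit 0x20028150481))) 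
(.lf (nat_lit 2755838255) (dlOf (nat_lit 1) (nat_lit 0x2800281b0501)))) 
(.lf (nat_lit 2754791855) (dlOf (nat_lit 1) (nat_lit 0xe00180f4e81)))))) (.nd (nat_lit 20) 
(.nd (nat_lit 21) (.nd (nat_lit 26) (.nd (nat_lit 27) 
(.lf (nat_lit 537575471) (dlOf (nat_lit 1) (nat_lit 0x1400180c0f01))) 
(.lf (nat_lit 134922287) (dlOf (nat_lit 1) (nat_lit 0xe00180e0681)))) (.nd (nat_lit 27) 
(.nd (nat_lit 28) (.lf (nat_lit 4362780719) (dlOf (nat_lit 1) (nat_lit 0x8002000200080f0f02))) 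
(.lf (nat_lit 1409990703) (dlOf (nat_lit 1) (nat_lit 0xe00080108002007c00080c0e83)))) 
(.lf (nat_lit 202031151) (dlOf (nat_lit 1) (nat_lit 0xe00180e0681))))) (.nd (nat_lit 22) 
(.nd (nat_lit 23) (.lf (nat_lit 1344978991) (dlOf (nat_lit 1) (nat_lit 0x200189a0301))) 
(.lf (nat_lit 11190319) (dlOf (nat_lit 1) (nat_lit 0x60008670681)))) 
(.lf (nat_lit 15384623) (dlOf (nat_lit 1) (nat_lit 0x48002000c00087e0702))))) (.nd (nat_lit 7) 
(.nd (nat_lit 21) (.nd (nat_lit 23) 
(.lf (nat_lit 1753135) (dlOf (nat_lit 2) (nat_lit 0x1d035c00062040004004000c0008130882))) 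
(.lf (nat_lit 10141743) (dlOf (nat_lit 1) (nat_lit 0x200285b0581)))) (.nd (nat_lit 11) 
(.lf (nat_lit 25083951) (dlOf (nat_lit 2) (nat_lit 0x213c8000d408002800800ac00200be0008be0e83))) 
(.lf (nat_lit 8050735) (dlOf (nat_lit 1) (nat_lit 0x8800800600020018000851a603))))) 
(.nd (nat_lit 8) (.nd (nat_lit 10) 
(.lf (nat_lit 6377095343) (dlOf (nat_lit 1) (nat_lit 0x800080004002002800080a2d83))) 
(.lf (nat_lit 37668015) (dlOf (nat_lit 2) (nat_lit 0x86090000c00800680080044002000200090d2c03)))) 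
(.lf (nat_lit 8313263) (dlOf (nat_lit 1) (nat_lit 0x8002851af81))))))) (.nd (nat_lit 8) 
(.nd (nat_lit 11) (.nd (nat_lit 26) (.nd (nat_lit 23) 
(.lf (nat_lit 134398511) (dlOf (nat_lit 9) (nat_lit 0x32025002800bc000d20800b4094005203b004e0178001a0180128128014805e0006704004c04a0052017800198100180128013c05e0004404005c04a004e017800108100140128015005e0004104004004a004d0178001001001c8008006400200080008018003))) 
(.lf (nat_lit 8569391) (dlOf (nat_lit 1) (nat_lit 0x420028511481)))) (.nd (nat_lit 10) 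
(.lf (nat_lit 201507375) (dlOf (nat_lit 1) (nat_lit 0xe400200440008018b02))) 
(.lf (nat_lit 6375786031) (dlOf (nat_lit 1) (nat_lit 0x1800400040008003782))))) (.nd (nat_lit 18) 
(.nd (nat_lit 10) (.nd (nat_lit 12) 
(.lf (nat_lit 1345505839) (dlOf (nat_lit 1) (nat_lit 0xc00400040008c95182))) 
(.lf (nat_lit 2751650351) (dlOf (nat_lit 1) (nat_lit 0x2002800b301)))) 
(.lf (nat_lit 20631087) (dlOf (nat_lit 1) (nat_lit 0x200080004002000200089d7183)))) 
(.nd (nat_lit 19) (.nd (nat_lit 20) 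
(.lf (nat_lit 604424751) (dlOf (nat_lit 1) (nat_lit 0xc000400280008205182))) 
(.lf (nat_lit 60213807) (dlOf (nat_lit 1) (nat_lit 0x20029845181)))) 
(.lf (nat_lit 38717999) (dlOf (nat_lit 2) (nat_lit 0x409860008c0200020029135181)))))) 
(.nd (nat_lit 26) (.nd (nat_lit 10) (.nd (nat_lit 11) 
(.lf (nat_lit 2281882415) (dlOf (nat_lit 1) (nat_lit 0x400280a2201))) 
(.lf (nat_lit 54446895) (dlOf (nat_lit 1) (nat_lit 0x20019655c01)))) (.nd (nat_lit 7) 
(.nd (nat_lit 12) (.lf (nat_lit 8046383) (dlOf (nat_lit 1) (nat_lit 0x400400020008513d82))) 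
(.lf (nat_lit 3758282543) (dlOf (nat_lit 2) (nat_lit 0x880c8006c04c0000004000c002812a101)))) 
(.lf (nat_lit 186287) (dlOf (nat_lit 1) (nat_lit 0x2001800a401))))) (.nd (nat_lit 7) 
(.nd (nat_lit 10) (.lf (nat_lit 4094872367) (dlOf (nat_lit 1) (nat_lit 0x20028055c01))) 
(.lf (nat_lit 2751907631) (dlOf (nat_lit 1) (nat_lit 0x400018003d81)))) (.nd (nat_lit 18) 
(.lf (nat_lit 1677903791) (dlOf (nat_lit 1) (nat_lit 0x100018114381))) 
(.lf (nat_lit 2751907759) (dlOf (nat_lit 1) (nat_lit 0x20018004381)))))))) (.nd (nat_lit 7) 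
(.nd (nat_lit 18) (.nd (nat_lit 8) (.nd (nat_lit 11) (.nd (nat_lit 9) 
(.lf (nat_lit 2277487) (dlOf (nat_lit 1) (nat_lit 0x20028150001))) 
(.lf (nat_lit 8046191) (dlOf (nat_lit 1) (nat_lit 0x400400020008513982)))) (.nd (nat_lit 19) 
(.lf (nat_lit 20110447) (dlOf (nat_lit 1) (nat_lit 0xe00289dc101))) 
(.lf (nat_lit 8051823) (dlOf (nat_lit 1) (nat_lit 0x2000851c101))))) (.nd (nat_lit 11) 
(.nd (nat_lit 26) 
(.lf (nat_lit 6174196079) (dlOf (nat_lit 1) (nat_lit 0x10008000800200020008085803))) 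
(.lf (nat_lit 5570216303) (dlOf (nat_lit 1) (nat_lit 0x10008000800200020008085803)))) 
(.nd (nat_lit 10) (.nd (nat_lit 19) 
(.lf (nat_lit 2751650159) (dlOf (nat_lit 1) (nat_lit 0x40040002000800ad02))) 
(.lf (nat_lit 8051055) (dlOf (nat_lit 1) (nat_lit 0x8008000c0020002000851ad03)))) 
(.lf (nat_lit 3221413231) (dlOf (nat_lit 2) (nat_lit 0xa8046000a022802d810c013808000d2038001100b0019e43003b000801140020026000811c903)))))) 
(.nd (nat_lit 19) (.nd (nat_lit 10) (.nd (nat_lit 21) 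
(.lf (nat_lit 1409728623) (dlOf (nat_lit 1) (nat_lit 0x140028090001))) 
(.lf (nat_lit 36094063) (dlOf (nat_lit 1) (nat_lit 0x400400020009021d02)))) 
(.lf (nat_lit 40289391) (dlOf (nat_lit 1) (nat_lit 0x4004000200091f2a02)))) (.nd (nat_lit 20) 
(.nd (nat_lit 11) (.lf (nat_lit 53395567) (dlOf (nat_lit 1) (nat_lit 0x2a00095b0c81))) 
(.lf (nat_lit 19847279) (dlOf (nat_lit 1) (nat_lit 0x29c004008200189da882)))) (.nd (nat_lit 8) 
(.lf (nat_lit 12501103) (dlOf (nat_lit 1) (nat_lit 0x600086d1581))) 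
(.lf (nat_lit 2753479023) (dlOf (nat_lit 3) (nat_lit 0x2c1cf0070b01000710e0004073c019dc08003800400460018090782))))))) 
(.nd (nat_lit 9) (.nd (nat_lit 11) (.nd (nat_lit 10) (.nd (nat_lit 26) (.nd (nat_lit 27) 
(.lf (nat_lit 537313775) (dlOf (nat_lit 1) (nat_lit 0x20008090d81))) 
(.lf (nat_lit 134660591) (dlOf (nat_lit 1) (nat_lit 0x50008001800200140008090d83)))) 
(.nd (nat_lit 27) (.lf (nat_lit 1409729007) (dlOf (nat_lit 1) (nat_lit 0x20008090d81))) 
(.lf (nat_lit 201769455) (dlOf (nat_lit 1) (nat_lit 0x50008001800200140008090d83))))) 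
(.nd (nat_lit 8) (.nd (nat_lit 12) 
(.lf (nat_lit 5772330223) (dlOf (nat_lit 1) (nat_lit 0x400200020008092e82))) 
(.lf (nat_lit 3422737647) (dlOf (nat_lit 1) (nat_lit 0x200280a9501)))) 
(.lf (nat_lit 5637326319) (dlOf (nat_lit 1) (nat_lit 0x200180d3601))))) (.nd (nat_lit 18) 
(.nd (nat_lit 12) (.lf (nat_lit 33212911) (dlOf (nat_lit 1) (nat_lit 0x40028f54f01))) 
(.lf (nat_lit 8051183) (dlOf (nat_lit 1) (nat_lit 0x4800800180020008000851b283)))) 
(.nd (nat_lit 19) 
(.lf (nat_lit 50776559) (dlOf (nat_lit 1) (nat_lit 0x43000804a8002005400094c4f03))) 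
(.lf (nat_lit 38717935) (dlOf (nat_lit 1) (nat_lit 0x800200020009134f02)))))) (.nd (nat_lit 11) 
(.nd (nat_lit 19) (.nd (nat_lit 8) 
(.lf (nat_lit 8831727) (dlOf (nat_lit 1) (nat_lit 0xc00200060008512102))) 
(.lf (nat_lit 1610793967) (dlOf (nat_lit 1) (nat_lit 0x120028092881)))) (.nd (nat_lit 10) 
(.lf (nat_lit 69911535) (dlOf (nat_lit 1) (nat_lit 0x20028e12881))) 
(.lf (nat_lit 8046575) (dlOf (nat_lit 2) (nat_lit 0x1263c00019018514600))))) (.nd (nat_lit 20) 
(.nd (nat_lit 27) 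
(.lf (nat_lit 1141033967) (dlOf (nat_lit 2) (nat_lit 0x10130001000800480080010002000a0008095f03))) 
(.lf (nat_lit 738380783) (dlOf (nat_lit 1) (nat_lit 0x1800800c000200860008095f03)))) 
(.nd (nat_lit 8) (.lf (nat_lit 8051439) (dlOf (nat_lit 1) (nat_lit 0x40040002000851b982))) 
(.lf (nat_lit 473091055) (dlOf (nat_lit 2) (nat_lit 0x520b28000c8080190008001800200700008c95f03)))))))))) 
(.nd (nat_lit 0) (.nd (nat_lit 28) (.nd (nat_lit 21) (.nd (nat_lit 8) (.nd (nat_lit 26) 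
(.nd (nat_lit 18) (.nd (nat_lit 9) (.nd (nat_lit 19) 
(.lf (nat_lit 537116718) (dlOf (nat_lit 2) (nat_lit 0xc02c800000080070008001400200120008020583))) 
(.lf (nat_lit 537641006) (dlOf (nat_lit 12) (nat_lit 0x80b0000530200f2069007402a003981140009e0c02300d200c605400740228001381802381a400840a800620450002683000b02c0001280800080f0000740400100d6000130202fc06b0000401019d03580001c0806c81ac0000c0401180d600d805d059102900318100003006600f6025001600000000038044800800a8002004600080e0603)))) 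
(.lf (nat_lit 249390) (dlOf (nat_lit 1) (nat_lit 0x800400020008007182)))) (.nd (nat_lit 20) 
(.nd (nat_lit 22) 
(.lf (nat_lit 17809454) (dlOf (nat_lit 8) (nat_lit 0x43e350020efb00007e08010f8d4007dbec0001b020039e3500008008031f1a801677d80000f0400fdc6a0077df600001c10033f1a801777d8000040400f7c6a0070df60000001000400080014002001c00088f0e83))) 
(.lf (nat_lit 5226542) (dlOf (nat_lit 1) (nat_lit 0x10002001c0008330902)))) 
(.lf (nat_lit 18858030) (dlOf (nat_lit 1) (nat_lit 0x400200040008970002))))) (.nd (nat_lit 27) 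
(.nd (nat_lit 6) (.nd (nat_lit 9) 
(.lf (nat_lit 3825451054) (dlOf (nat_lit 19) (nat_lit 0x12600b0001201009300580008c0801a802c000320402100160001802014800b0000b8100a200580005808049802c0002a04001c0160000f02005a00b0000681009300580003008011002c000160400480160000a02005600b0000301002c00580001408005802c000080400b4016000030200fa00b000010100100058000000800600080074002008a0008160583))) 
(.lf (nat_lit 3288580654) (dlOf (nat_lit 18) (nat_lit 0x26808001380160003f0400480200001f01004e0100031802c0007a0800e8040006800b0001b020055010002e802c0006808011c040003401d00310058000a81801f8080006803a006a00b000118300460100032002c00040080140040005400b0000f82004e010000078080248080011c0160001c04009c0200000d01000d0100006802c000320803f40800080020000060200120200028808000016080164040000090200ee0200064005800000100c28008024c002001e0008090e83)))) 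
(.lf (nat_lit 1141096558) (dlOf (nat_lit 2) (nat_lit 0x2013000000080020008000c002000400080d0c03)))) 
(.nd (nat_lit 9) (.nd (nat_lit 29) 
(.lf (nat_lit 4496539694) (dlOf (nat_lit 1) (nat_lit 0x200080e0001))) 
(.lf (nat_lit 1812185134) (dlOf (nat_lit 2) (nat_lit 0x3200000017818170c00)))) 
(.lf (nat_lit 5570284078) (dlOf (nat_lit 1) (nat_lit 0xa00180d5181)))))) (.nd (nat_lit 18) 
(.nd (nat_lit 26) (.nd (nat_lit 6) (.nd (nat_lit 7) 
(.lf (nat_lit 22266158) (dlOf (nat_lit 1) (nat_lit 0x4a0028ab7a01))) 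
(.lf (nat_lit 3221473710) (dlOf (nat_lit 2) (nat_lit 0x48038028d204000800400020018114e82)))) 
(.lf (nat_lit 2818821998) (dlOf (nat_lit 2) (nat_lit 0x101b00130c080020008001000200140008127783)))) 
(.nd (nat_lit 6) (.nd (nat_lit 20) 
(.lf (nat_lit 1677967662) (dlOf (nat_lit 1) (nat_lit 0x120018124901))) 
(.lf (nat_lit 2752758062) (dlOf (nat_lit 8) (nat_lit 0x902180097e04004c10c004bd0200580860025401005d044802d82200094008002c1120049802004608900190440012581000282240092404008c004001e0018048402)))) 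
(.lf (nat_lit 3288580462) (dlOf (nat_lit 2) (nat_lit 0x200f003f8018090780))))) (.nd (nat_lit 29) 
(.nd (nat_lit 6) (.nd (nat_lit 31) 
(.lf (nat_lit 4362584366) (dlOf (nat_lit 1) (nat_lit 0xa0018090501))) 
(.lf (nat_lit 6510068014) (dlOf (nat_lit 1) (nat_lit 0x18004000200081a7a02)))) 
(.lf (nat_lit 25674094) (dlOf (nat_lit 2) (nat_lit 0x2643000094080008008000800200020008c10a03)))) 
(.nd (nat_lit 7) 
(.lf (nat_lit 2886189358) (dlOf (nat_lit 11) (nat_lit 0x138056001e01e00a000d0000805c001c028004c90a002402b0011013800880900044046002e017002100a00131c3001700dc001006a00640000025f83000d0220008810c019007c003a03c000c01d002600dc004406a00580000025e8800080000012e40800a80e801e006e002002b001101280088078007c028006e00a001f0030012c84000300dc009540400a006e004a8020048037002520100010000010b4081218008004800206ba0008188403))) 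
(.lf (nat_lit 2751973294) (dlOf (nat_lit 1) (nat_lit 0x400200020008004382))))))) (.nd (nat_lit 18) 
(.nd (nat_lit 9) (.nd (nat_lit 19) (.nd (nat_lit 6) (.nd (nat_lit 7) 
(.lf (nat_lit 28557358) (dlOf (nat_lit 1) (nat_lit 0x40018da0001))) 
(.lf (nat_lit 36948398) (dlOf (nat_lit 1) (nat_lit 0x4a0029074e81)))) 
(.lf (nat_lit 62111854) (dlOf (nat_lit 1) (nat_lit 0x1000200040009950a82)))) (.nd (nat_lit 8) 
(.nd (nat_lit 10) (.lf (nat_lit 23838894) (dlOf (nat_lit 1) (nat_lit 0x80028b80301))) 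
(.lf (nat_lit 36422830) (dlOf (nat_lit 1) (nat_lit 0x4002006c0009072c02)))) 
(.lf (nat_lit 8114606) (dlOf (nat_lit 1) (nat_lit 0x180028518481))))) (.nd (nat_lit 6) 
(.nd (nat_lit 7) (.lf (nat_lit 19650350) (dlOf (nat_lit 1) (nat_lit 0x200289da101))) 
(.lf (nat_lit 19650222) (dlOf (nat_lit 1) (nat_lit 0x80080004002000200089da003)))) (.nd (nat_lit 7) 
(.lf (nat_lit 20174446) (dlOf (nat_lit 1) (nat_lit 0x190008006400200d200089d9c83))) 
(.nd (nat_lit 8) (.lf (nat_lit 19651310) (dlOf (nat_lit 1) (nat_lit 0x4002000200089db982))) 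
(.lf (nat_lit 40092654) (dlOf (nat_lit 1) (nat_lit 0x4004000400091f2882))))))) (.nd (nat_lit 7) 
(.nd (nat_lit 6) (.nd (nat_lit 9) (.nd (nat_lit 20) 
(.lf (nat_lit 27770926) (dlOf (nat_lit 1) (nat_lit 0x20028d20881))) 
(.lf (nat_lit 3653678) (dlOf (nat_lit 1) (nat_lit 0xf8008004400202980008210983)))) 
(.lf (nat_lit 40878638) (dlOf (nat_lit 1) (nat_lit 0x28008001800200040009208a83)))) 
(.nd (nat_lit 25) (.lf (nat_lit 12566638) (dlOf (nat_lit 2) (nat_lit 0xa249000000186d1500))) 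
(.lf (nat_lit 46121070) (dlOf (nat_lit 1) (nat_lit 0x20019380181))))) (.nd (nat_lit 6) 
(.nd (nat_lit 8) (.lf (nat_lit 19912366) (dlOf (nat_lit 1) (nat_lit 0x200189da001))) 
(.nd (nat_lit 9) 
(.lf (nat_lit 61326766) (dlOf (nat_lit 2) (nat_lit 0x5a96c0035004001000400080019923602))) 
(.lf (nat_lit 2754599854) (dlOf (nat_lit 1) (nat_lit 0x4002000200080fbd82))))) (.nd (nat_lit 9) 
(.lf (nat_lit 41404910) (dlOf (nat_lit 1) (nat_lit 0x260029244f01))) 
(.lf (nat_lit 36684782) (dlOf (nat_lit 1) (nat_lit 0x20019072881)))))))) (.nd (nat_lit 29) 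
(.nd (nat_lit 18) (.nd (nat_lit 26) (.nd (nat_lit 20) (.nd (nat_lit 27) (.nd (nat_lit 30) 
(.lf (nat_lit 4563648558) (dlOf (nat_lit 5) (nat_lit 0x3c0680001e0200520340000e81000f01a0000600800800d00002e0400f8004004a00080b0402))) 
(.lf (nat_lit 1342423086) (dlOf (nat_lit 5) (nat_lit 0x2a039a000530201121cd000280100350e68000d40801f873400064040038002003c0008020582)))) 
(.lf (nat_lit 4697866286) (dlOf (nat_lit 5) (nat_lit 0x3c0680001e0200520340000e81000f01a0000600800800d00002e0400f8004004a00080b0402)))) 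
(.nd (nat_lit 8) 
(.lf (nat_lit 1343471662) (dlOf (nat_lit 2) (nat_lit 0x7827400000040004004000e0018260882))) 
(.lf (nat_lit 3490955566) (dlOf (nat_lit 4) (nat_lit 0x701120003902004208b0000581000405300000c080078008003800200020008047a03))))) 
(.nd (nat_lit 27) (.nd (nat_lit 6) (.nd (nat_lit 19) 
(.lf (nat_lit 1409531950) (dlOf (nat_lit 2) (nat_lit 0xc02c800000080070008001400200120008020583))) 
(.lf (nat_lit 1410056238) (dlOf (nat_lit 12) (nat_lit 0x80b00005a0200f2069007402a00398108000ac0c02300d200c605400740210001541802381a400840a800620420002a03000b02c0001440800080f0000820400100d6000100202fc06b0000401019d03580001c0806c81ac0000c0401180d600d805d059102900318100003006600f6025001600000000038044800800a8002004600080e0603)))) 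
(.nd (nat_lit 8) 
(.lf (nat_lit 3557021806) (dlOf (nat_lit 3) (nat_lit 0x200380055301002b01c00291c080030008000c0020008000812a883))) 
(.lf (nat_lit 335790446) (dlOf (nat_lit 1) (nat_lit 0x4004000200080a7602))))) (.nd (nat_lit 7) 
(.nd (nat_lit 30) 
(.lf (nat_lit 470007854) (dlOf (nat_lit 5) (nat_lit 0x2a039a000530201121cd000280100350e68000d40801f873400064040038002003c0008020582))) 
(.lf (nat_lit 3691233326) (dlOf (nat_lit 1) (nat_lit 0x200280c0881)))) 
(.lf (nat_lit 474203566) (dlOf (nat_lit 1) (nat_lit 0x400080004002000200090e3603)))))) 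
(.nd (nat_lit 8) (.nd (nat_lit 26) (.nd (nat_lit 20) 
(.lf (nat_lit 2550644782) (dlOf (nat_lit 1) (nat_lit 0x200281d0a01))) 
(.lf (nat_lit 1343733806) (dlOf (nat_lit 2) (nat_lit 0x3c13a000770200340008350801)))) 
(.nd (nat_lit 9) 
(.lf (nat_lit 3557277742) (dlOf (nat_lit 4) (nat_lit 0x360490006d81001902300034c0800c81180019604004000400200008190882))) 
(.lf (nat_lit 472369710) (dlOf (nat_lit 1) (nat_lit 0x8008000400200020008985183))))) 
(.nd (nat_lit 6) (.nd (nat_lit 7) (.nd (nat_lit 11) 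
(.lf (nat_lit 3624386862) (dlOf (nat_lit 3) (nat_lit 0x900d8001500801e00e8045c02002c200a00b20000000e4200338008011c00200520008187a03))) 
(.lf (nat_lit 3492796718) (dlOf (nat_lit 1) (nat_lit 0x200280fab81)))) 
(.lf (nat_lit 3490171310) (dlOf (nat_lit 1) (nat_lit 0x400200020008004e82)))) (.nd (nat_lit 7) 
(.lf (nat_lit 3492796782) (dlOf (nat_lit 1) (nat_lit 0x200280fac81))) (.nd (nat_lit 26) 
(.lf (nat_lit 1342685678) (dlOf (nat_lit 4) (nat_lit 0x8504a0008f00801c8250004660400141280023102001000180c0d81))) 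
(.lf (nat_lit 470270446) (dlOf (nat_lit 4) (nat_lit 0x8504a0008f00801c8250004660400141280023102001000180c0d81)))))))) 
(.nd (nat_lit 30) (.nd (nat_lit 27) (.nd (nat_lit 8) (.nd (nat_lit 11) 
(.lf (nat_lit 805552686) (dlOf (nat_lit 9) (nat_lit 0x12c027806c80e0001ea0806880a2001404b016901d00208068000481007280a2025804b01a901d00828068000461000a80a2000804b006101d00008418089014403a807400020040110051000701d00007c10113814404d8096043203a011800d000078200bd0144020809602b003a00d000d0000742006c8008048800200420008128003))) 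
(.lf (nat_lit 5100522030) (dlOf (nat_lit 1) (nat_lit 0x200280d5181)))) (.nd (nat_lit 9) 
(.lf (nat_lit 805552430) (dlOf (nat_lit 1) (nat_lit 0x120018124901))) 
(.lf (nat_lit 5100522286) (dlOf (nat_lit 1) (nat_lit 0x9400080d5c01))))) (.nd (nat_lit 21) 
(.nd (nat_lit 31) (.lf (nat_lit 939769902) (dlOf (nat_lit 2) (nat_lit 0x3200000019018170c00))) 
(.lf (nat_lit 3087253550) (dlOf (nat_lit 19) (nat_lit 0x12600b0001201009300580008c0801a802c000320402100160001802014800b0000b8100a200580005808049802c0002a04001c0160000f02005a00b0000681009300580003008011002c000160400480160000a02005600b0000301002c00580001408005802c000080400b4016000030200fa00b000010100100058000000800600080074002008a0008160583)))) 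
(.nd (nat_lit 6) (.lf (nat_lit 1009500206) (dlOf (nat_lit 1) (nat_lit 0x4002000200091b0a02))) 
(.lf (nat_lit 1009238254) (dlOf (nat_lit 1) (nat_lit 0x80080008002001200090a1e83)))))) 
(.nd (nat_lit 9) (.nd (nat_lit 6) (.nd (nat_lit 19) 
(.lf (nat_lit 1946402862) (dlOf (nat_lit 2) (nat_lit 0x2602700012818070900))) 
(.lf (nat_lit 1879818286) (dlOf (nat_lit 1) (nat_lit 0x180028380e81)))) (.nd (nat_lit 8) 
(.lf (nat_lit 2013511790) (dlOf (nat_lit 2) (nat_lit 0x2013000000080020008000c002000400080d0c03))) 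
(.lf (nat_lit 4026777966) (dlOf (nat_lit 2) (nat_lit 0x200f0070b018090780))))) (.nd (nat_lit 27) 
(.nd (nat_lit 6) 
(.lf (nat_lit 4026778158) (dlOf (nat_lit 18) (nat_lit 0x26808001380160003f0400480200001f01004e0100031802c0007a0800e8040006800b0001b020055010002e802c0006808011c040003401d00310058000a81801f8080006803a006a00b000118300460100032002c00040080140040005400b0000f82004e010000074080248080011c0160001c04009c0200000d01000d0100006802c000320803f40800080020000060200120200028808000016080164040000090200ee0200064005800000100c28008024c002001e0008090e83))) 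
(.lf (nat_lit 4094151406) (dlOf (nat_lit 2) (nat_lit 0x880580005004004000200040008005a02)))) 
(.nd (nat_lit 8) (.lf (nat_lit 6308481582) (dlOf (nat_lit 1) (nat_lit 0x200180d5181))) 
(.lf (nat_lit 6308481838) (dlOf (nat_lit 1) (nat_lit 0x4002000200080d5c02))))))))) 
(.nd (nat_lit 18) (.nd (nat_lit 28) (.nd (nat_lit 19) (.nd (nat_lit 26) (.nd (nat_lit 27) 
(.nd (nat_lit 6) (.nd (nat_lit 7) (.nd (nat_lit 20) 
(.lf (nat_lit 6537263) (dlOf (nat_lit 1) (nat_lit 0x20028420001))) 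
(.lf (nat_lit 18071599) (dlOf (nat_lit 1) (nat_lit 0x180080008002001c0008900b83)))) 
(.lf (nat_lit 35898543) (dlOf (nat_lit 1) (nat_lit 0x20019012c01)))) (.nd (nat_lit 7) 
(.lf (nat_lit 37994607) (dlOf (nat_lit 1) (nat_lit 0x400400020009102482))) 
(.lf (nat_lit 23314927) (dlOf (nat_lit 1) (nat_lit 0x400200020008b80d82))))) (.nd (nat_lit 11) 
(.nd (nat_lit 9) (.lf (nat_lit 134463535) (dlOf (nat_lit 1) (nat_lit 0x14004001c0008030c82))) 
(.lf (nat_lit 671334959) (dlOf (nat_lit 1) (nat_lit 0x71400402280018158b02)))) (.nd (nat_lit 29) 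
(.lf (nat_lit 5503175215) (dlOf (nat_lit 1) (nat_lit 0x20018095181))) 
(.lf (nat_lit 1745078831) (dlOf (nat_lit 1) (nat_lit 0x20028095181)))))) (.nd (nat_lit 8) 
(.nd (nat_lit 9) (.nd (nat_lit 27) 
(.lf (nat_lit 3825451055) (dlOf (nat_lit 2) (nat_lit 0x800b00002818160580))) 
(.lf (nat_lit 201572399) (dlOf (nat_lit 1) (nat_lit 0x14004001c0008030c82)))) 
(.lf (nat_lit 1677967919) (dlOf (nat_lit 1) (nat_lit 0x568008030400200360008128b03)))) 
(.nd (nat_lit 6) (.nd (nat_lit 20) 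
(.lf (nat_lit 5972934959) (dlOf (nat_lit 1) (nat_lit 0x1400281a8401))) 
(.lf (nat_lit 2752758063) (dlOf (nat_lit 4) (nat_lit 0x182180097a04003410c004a802002e089000c044001258100090008005800200080008048403)))) 
(.nd (nat_lit 9) 
(.lf (nat_lit 3288580591) (dlOf (nat_lit 2) (nat_lit 0x4604000050100005441001a0008002000200360008090d83))) 
(.lf (nat_lit 2751710191) (dlOf (nat_lit 1) (nat_lit 0x400200020008002882))))))) (.nd (nat_lit 6) 
(.nd (nat_lit 20) (.nd (nat_lit 7) 
(.lf (nat_lit 537641007) (dlOf (nat_lit 9) (nat_lit 0x4301ac000a20401f00d60004e0200f806b000260100c00290001140805d8148000880401c00a4000430200f2052000210100250290000ec0800f80080088002006800080e0683))) 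
(.nd (nat_lit 10) (.lf (nat_lit 19645103) (dlOf (nat_lit 1) (nat_lit 0x80080004002000200089d1d83))) 
(.lf (nat_lit 19650223) (dlOf (nat_lit 1) (nat_lit 0x80080004002000200089da003))))) 
(.nd (nat_lit 21) (.nd (nat_lit 22) 
(.lf (nat_lit 10207279) (dlOf (nat_lit 1) (nat_lit 0x4004000200085c0c82))) 
(.lf (nat_lit 22790191) (dlOf (nat_lit 1) (nat_lit 0x8008000400200020008b20d83)))) (.nd (nat_lit 8) 
(.lf (nat_lit 45858863) (dlOf (nat_lit 1) (nat_lit 0xa0019360301))) 
(.lf (nat_lit 8115503) (dlOf (nat_lit 1) (nat_lit 0x7c0008519881)))))) (.nd (nat_lit 11) 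
(.nd (nat_lit 7) (.lf (nat_lit 50054255) (dlOf (nat_lit 1) (nat_lit 0x800294c2a01))) 
(.nd (nat_lit 8) (.lf (nat_lit 19649263) (dlOf (nat_lit 1) (nat_lit 0x4002000200089d8e82))) 
(.lf (nat_lit 55297007) (dlOf (nat_lit 1) (nat_lit 0xc00296d2881))))) (.nd (nat_lit 7) 
(.lf (nat_lit 8116591) (dlOf (nat_lit 1) (nat_lit 0x800800040020002000851ad03))) (.nd (nat_lit 20) 
(.lf (nat_lit 57395695) (dlOf (nat_lit 1) (nat_lit 0x400200020009794f02))) 
(.lf (nat_lit 33278447) (dlOf (nat_lit 1) (nat_lit 0x60028f54f01)))))))) (.nd (nat_lit 26) 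
(.nd (nat_lit 30) (.nd (nat_lit 27) (.nd (nat_lit 9) 
(.lf (nat_lit 4563648559) (dlOf (nat_lit 3) (nat_lit 0x1300cc0013a0400ac0660008e02000400080b0481))) 
(.lf (nat_lit 805552687) (dlOf (nat_lit 7) (nat_lit 0x809e000f5020092051002601d0000901002781440098074000230400440510000f81003b028800d00e80003c0800980a2002603a0000e828128000)))) 
(.nd (nat_lit 29) 
(.lf (nat_lit 4697866287) (dlOf (nat_lit 3) (nat_lit 0x1300cc0013a0400ac0660008e02000400080b0481))) 
(.lf (nat_lit 3087253551) (dlOf (nat_lit 2) (nat_lit 0x800b00002818160580))))) (.nd (nat_lit 8) 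
(.nd (nat_lit 6) (.nd (nat_lit 20) (.nd (nat_lit 27) 
(.lf (nat_lit 1342423087) (dlOf (nat_lit 3) (nat_lit 0x280714000a40400a03a201041c50001a028020580))) 
(.lf (nat_lit 1476640815) (dlOf (nat_lit 1) (nat_lit 0x1b600180c0901)))) 
(.lf (nat_lit 1343471663) (dlOf (nat_lit 1) (nat_lit 0xa0028260901)))) 
(.lf (nat_lit 1344520303) (dlOf (nat_lit 1) (nat_lit 0x20028811d01)))) (.nd (nat_lit 6) 
(.nd (nat_lit 7) 
(.lf (nat_lit 3490955567) (dlOf (nat_lit 1) (nat_lit 0x900080034002001a0008047a03))) 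
(.lf (nat_lit 1345571247) (dlOf (nat_lit 1) (nat_lit 0x400400020008d74e82)))) 
(.lf (nat_lit 4026778095) (dlOf (nat_lit 2) (nat_lit 0x4604000050100005441001a0008002000200360008090d83)))))) 
(.nd (nat_lit 27) (.nd (nat_lit 9) (.nd (nat_lit 6) 
(.lf (nat_lit 1410056239) (dlOf (nat_lit 9) (nat_lit 0x4301ac000a20401f00d60004e0200f806b000260100c00290001140805d8148000880401c00a4000430200f2052000210100250290000ec0800f80080088002006800080e0683))) 
(.lf (nat_lit 3557021807) (dlOf (nat_lit 6) (nat_lit 0x2501c002a980800680e0014b804014c07000a4702001a0380051f81000401c0028f808000800800740020002000812a883)))) 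
(.nd (nat_lit 7) (.lf (nat_lit 4094937647) (dlOf (nat_lit 1) (nat_lit 0x400200120008055182))) 
(.lf (nat_lit 3557019567) (dlOf (nat_lit 2) (nat_lit 0x201c0000940800b80080010002000c0008127a03))))) 
(.nd (nat_lit 30) (.nd (nat_lit 20) 
(.lf (nat_lit 470007855) (dlOf (nat_lit 3) (nat_lit 0x280714000a40400a03a201041c50001a028020580))) 
(.lf (nat_lit 471056431) (dlOf (nat_lit 1) (nat_lit 0x5e0028260901)))) (.nd (nat_lit 6) 
(.lf (nat_lit 3691233327) (dlOf (nat_lit 1) (nat_lit 0x14002001800080c0902))) 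
(.lf (nat_lit 6378209519) (dlOf (nat_lit 1) (nat_lit 0x2a0028126e81)))))))) (.nd (nat_lit 21) 
(.nd (nat_lit 28) (.nd (nat_lit 7) (.nd (nat_lit 9) (.nd (nat_lit 24) (.nd (nat_lit 8) 
(.lf (nat_lit 134725679) (dlOf (nat_lit 1) (nat_lit 0x38008006c00200060008090003))) 
(.lf (nat_lit 2886189359) (dlOf (nat_lit 4) (nat_lit 0xb0158005009c00280480010023000100f00028068002802e005e014002638800050220007810c022c07c000a03c000201d000e00dc003406a00400000025e88001701b8012a0080e7000802e800203fa0008188403)))) 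
(.nd (nat_lit 6) (.lf (nat_lit 17809455) (dlOf (nat_lit 1) (nat_lit 0x80080004002002400088f0e83))) 
(.lf (nat_lit 55033967) (dlOf (nat_lit 1) (nat_lit 0x110008003000200560009690c83))))) 
(.nd (nat_lit 6) (.nd (nat_lit 19) 
(.lf (nat_lit 8897071) (dlOf (nat_lit 1) (nat_lit 0x28008003800200040008511483))) 
(.lf (nat_lit 2752496175) (dlOf (nat_lit 1) (nat_lit 0x20028018b01)))) 
(.lf (nat_lit 8897391) (dlOf (nat_lit 1) (nat_lit 0x30008001000200040008512583))))) 
(.nd (nat_lit 11) (.nd (nat_lit 10) 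
(.lf (nat_lit 537378991) (dlOf (nat_lit 2) (nat_lit 0x3c0b0000290200020018090301))) 
(.lf (nat_lit 56607919) (dlOf (nat_lit 1) (nat_lit 0x8008000400200020009732c03)))) (.nd (nat_lit 6) 
(.lf (nat_lit 8902831) (dlOf (nat_lit 1) (nat_lit 0x1800800080020002000851a883))) 
(.lf (nat_lit 60279791) (dlOf (nat_lit 1) (nat_lit 0x10800400100009845f02)))))) (.nd (nat_lit 8) 
(.nd (nat_lit 26) (.nd (nat_lit 9) (.nd (nat_lit 20) 
(.lf (nat_lit 2550644783) (dlOf (nat_lit 3) (nat_lit 0x80480008020000400f0005006801f5c2000100440018020000800f0003006801f582000a8008003c002001200081d0a03))) 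
(.lf (nat_lit 1343733807) (dlOf (nat_lit 3) (nat_lit 0x4409d0003b8100190a7000000080010008003c00200200008350803)))) 
(.lf (nat_lit 3490693679) (dlOf (nat_lit 2) (nat_lit 0x486bc000d0040010002001e0008018002)))) 
(.nd (nat_lit 7) (.nd (nat_lit 19) 
(.lf (nat_lit 3557277743) (dlOf (nat_lit 3) (nat_lit 0x224030816400fc000be0802180e40174061005a01f80016418004000801e0002018c0008190903))) 
(.lf (nat_lit 470794287) (dlOf (nat_lit 1) (nat_lit 0x200080004002000600081a0d03)))) 
(.lf (nat_lit 1409794223) (dlOf (nat_lit 2) (nat_lit 0x3c0b0000290200020018090301))))) 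
(.nd (nat_lit 6) (.nd (nat_lit 7) (.nd (nat_lit 26) 
(.lf (nat_lit 3624386863) (dlOf (nat_lit 2) (nat_lit 0x5402a0004c0200280008187a01))) 
(.lf (nat_lit 4228366639) (dlOf (nat_lit 1) (nat_lit 0xa0018090501)))) 
(.lf (nat_lit 1342685615) (dlOf (nat_lit 1) (nat_lit 0x80080008002000400080c0783)))) 
(.nd (nat_lit 26) 
(.lf (nat_lit 1342685679) (dlOf (nat_lit 13) (nat_lit 0x35123802788f001a846e035609400930408008f0280dc025001a8122014a08100990018008cc200e382500104122015808100118830038123803288f0019c46e0346094008c0408036000c0045e18015448e002a243002a11e004308dc0045a10007046e0022c02004e2370011581000f11b80083c0803108dc0041804010446e001f3020004237000f901000111b8007c40803080080234002009600080c0d83))) 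
(.lf (nat_lit 470270447) (dlOf (nat_lit 13) (nat_lit 0x35123802788f001a846e035609400930408008f0280dc025001a8122014a08100990038008cc200e382500104122015808100118830038123803288f0019c46e0346094008c0408036001c0045e18015448e002a243002a11e004308dc0045a10007046e0022c02004e2370011581006211b8008380800788dc0041604000846e001f3020082237000f901000111b8007c40803080080234002009600080c0d83))))))) 
(.nd (nat_lit 24) (.nd (nat_lit 9) (.nd (nat_lit 6) (.nd (nat_lit 7) 
(.lf (nat_lit 2605103) (dlOf (nat_lit 1) (nat_lit 0x9c0008170a01))) 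
(.lf (nat_lit 1345831343) (dlOf (nat_lit 1) (nat_lit 0x2c00400160008e06e82)))) (.nd (nat_lit 20) 
(.lf (nat_lit 1881653359) (dlOf (nat_lit 5) (nat_lit 0x80ac00020530007028000301340000c1000080a600060500003026800014180008158000c0a6000e050000802680001020002014c001c0a0000a04d00001838fa0c80))) 
(.lf (nat_lit 3653743) (dlOf (nat_lit 1) (nat_lit 0x2c0008211581))))) (.nd (nat_lit 7) 
(.nd (nat_lit 20) 
(.lf (nat_lit 1345309231) (dlOf (nat_lit 1) (nat_lit 0x8000800dc00200560008b55183))) 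
(.lf (nat_lit 41929263) (dlOf (nat_lit 1) (nat_lit 0x400400040009245182)))) 
(.lf (nat_lit 2754599855) (dlOf (nat_lit 1) (nat_lit 0x4002000200080fbd82))))) (.nd (nat_lit 8) 
(.nd (nat_lit 9) (.nd (nat_lit 6) (.nd (nat_lit 19) 
(.lf (nat_lit 27770927) (dlOf (nat_lit 5) (nat_lit 0x8d52000466480007010001b5480003604000daa400018020004d520000a018d20900))) 
(.lf (nat_lit 28295215) (dlOf (nat_lit 3) (nat_lit 0x3af9c000cc0400054660000002000c0008d80801)))) 
(.lf (nat_lit 19912815) (dlOf (nat_lit 1) (nat_lit 0x400008012400200ce00089da883)))) 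
(.nd (nat_lit 7) (.lf (nat_lit 20431407) (dlOf (nat_lit 1) (nat_lit 0x400289d1481))) 
(.lf (nat_lit 19912367) (dlOf (nat_lit 1) (nat_lit 0x200189da001))))) (.nd (nat_lit 6) 
(.nd (nat_lit 7) (.lf (nat_lit 19913519) (dlOf (nat_lit 1) (nat_lit 0xa00189dbc81))) 
(.lf (nat_lit 54512047) (dlOf (nat_lit 1) (nat_lit 0x1000200040009654e82)))) 
(.lf (nat_lit 24101231) (dlOf (nat_lit 1) (nat_lit 0x540028b80781)))))))))))

end

end Pool.Agent.Lib.MP_5854e1_co.Cz

namespace Pool.Agent.Lib.MP_5854e1_co.Cz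

noncomputable section

noncomputable def tz176 : DT := (.nd (nat_lit 6) (.nd (nat_lit 5) (.nd (nat_lit 18) 
(.nd (nat_lit 16) (.nd (nat_lit 17) (.nd (nat_lit 26) (.nd (nat_lit 22) (.nd (nat_lit 9) 
(.nd (nat_lit 20) (.nd (nat_lit 21) 
(.lf (nat_lit 1342726146) (dlOf (nat_lit 2) (nat_lit 0x85440132604010c004009400080c0002))) 
(.nd (nat_lit 24) 
(.lf (nat_lit 2646018) (dlOf (nat_lit 3) (nat_lit 0x70e00071800800087440008380000204f00e2f038180000))) 
(.lf (nat_lit 19423234) (dlOf (nat_lit 1) (nat_lit 0x1800289a0001))))) (.nd (nat_lit 8) 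
(.lf (nat_lit 9986050) (dlOf (nat_lit 3) (nat_lit 0xe91401c6204000748a00e3002000800085a0001))) 
(.lf (nat_lit 1343774978) (dlOf (nat_lit 1) (nat_lit 0x1c0018370701))))) (.nd (nat_lit 7) 
(.nd (nat_lit 8) (.lf (nat_lit 8417794) (dlOf (nat_lit 1) (nat_lit 0xc00400020018518682))) 
(.lf (nat_lit 8418050) (dlOf (nat_lit 1) (nat_lit 0x2800400260008518f82)))) (.nd (nat_lit 27) 
(.lf (nat_lit 2684384898) (dlOf (nat_lit 2) (nat_lit 0xc064002202300220058001ec180080008008000200100008009d83))) 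
(.lf (nat_lit 2281731714) (dlOf (nat_lit 2) (nat_lit 0x98094000f604003400400080018009d82)))))) 
(.nd (nat_lit 23) (.nd (nat_lit 19) (.nd (nat_lit 8) 
(.lf (nat_lit 23093250) (dlOf (nat_lit 2) (nat_lit 0x20adc0065f818b50000))) 
(.lf (nat_lit 40919298) (dlOf (nat_lit 1) (nat_lit 0x400200080009203582)))) (.nd (nat_lit 20) 
(.lf (nat_lit 55074818) (dlOf (nat_lit 1) (nat_lit 0x4002000400096a0002))) 
(.lf (nat_lit 24666114) (dlOf (nat_lit 4) (nat_lit 0x569400c89810003b4a00644408000da50030da04001800400080008bb0002))))) 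
(.nd (nat_lit 20) (.lf (nat_lit 12607490) (dlOf (nat_lit 1) (nat_lit 0x4002000200086d0002))) 
(.nd (nat_lit 24) (.nd (nat_lit 25) 
(.lf (nat_lit 13656066) (dlOf (nat_lit 1) (nat_lit 0x8400400120008740002))) 
(.lf (nat_lit 47210498) (dlOf (nat_lit 1) (nat_lit 0x25e00093b0001)))) 
(.lf (nat_lit 30433282) (dlOf (nat_lit 1) (nat_lit 0x4a800402e40008e30002))))))) (.nd (nat_lit 8) 
(.nd (nat_lit 7) (.nd (nat_lit 10) 
(.lf (nat_lit 470835202) (dlOf (nat_lit 1) (nat_lit 0x80080004002000200081c0003))) 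
(.lf (nat_lit 4362101762) (dlOf (nat_lit 1) (nat_lit 0x300080018002000c0008002883)))) 
(.nd (nat_lit 10) (.lf (nat_lit 6376417922) (dlOf (nat_lit 1) (nat_lit 0x400400020008095482))) 
(.nd (nat_lit 11) 
(.lf (nat_lit 6643807874) (dlOf (nat_lit 1) (nat_lit 0x8008000400200020008009d83))) 
(.lf (nat_lit 2885709442) (dlOf (nat_lit 1) (nat_lit 0xac0028007181)))))) (.nd (nat_lit 10) 
(.nd (nat_lit 7) 
(.lf (nat_lit 3154665730) (dlOf (nat_lit 1) (nat_lit 0x8008001c00200020008310703))) 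
(.nd (nat_lit 9) (.lf (nat_lit 470311298) (dlOf (nat_lit 2) (nat_lit 0xb2154006550180c0780))) 
(.lf (nat_lit 5301627778) (dlOf (nat_lit 2) (nat_lit 0xf0180001cc080090008001000200120008005c03))))) 
(.nd (nat_lit 7) (.lf (nat_lit 4227886338) (dlOf (nat_lit 1) (nat_lit 0x4f800201ee0008006602))) 
(.nd (nat_lit 11) 
(.lf (nat_lit 5435843970) (dlOf (nat_lit 1) (nat_lit 0x80080014002000a0008003583))) 
(.lf (nat_lit 4227886466) (dlOf (nat_lit 2) (nat_lit 0x10190000cc080018008000c00200060008006c03)))))))) 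
(.nd (nat_lit 28) (.nd (nat_lit 20) (.nd (nat_lit 8) (.nd (nat_lit 22) (.nd (nat_lit 27) 
(.lf (nat_lit 604135426) (dlOf (nat_lit 3) (nat_lit 0x42003c09d801c007600700270000076a82003e003c094001c006e00700020000076a020105800802f8002057e0008030003))) 
(.lf (nat_lit 3422707714) (dlOf (nat_lit 2) (nat_lit 0x400b0038a818060000)))) 
(.lf (nat_lit 12738562) (dlOf (nat_lit 1) (nat_lit 0x8008000c002000400086e0003)))) (.nd (nat_lit 7) 
(.lf (nat_lit 1610769666) (dlOf (nat_lit 1) (nat_lit 0x400200020008092f02))) 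
(.lf (nat_lit 3758256002) (dlOf (nat_lit 1) (nat_lit 0x400400020018127782))))) (.nd (nat_lit 7) 
(.nd (nat_lit 19) (.nd (nat_lit 8) 
(.lf (nat_lit 9592834) (dlOf (nat_lit 1) (nat_lit 0x280028570001))) 
(.lf (nat_lit 41050370) (dlOf (nat_lit 1) (nat_lit 0x400009217a81)))) (.nd (nat_lit 22) 
(.lf (nat_lit 45768706) (dlOf (nat_lit 1) (nat_lit 0x400200080009360002))) 
(.lf (nat_lit 16408578) (dlOf (nat_lit 1) (nat_lit 0x280080004002000400088a0003))))) 
(.nd (nat_lit 8) (.lf (nat_lit 28467330) (dlOf (nat_lit 1) (nat_lit 0x400200020008da0482))) 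
(.lf (nat_lit 20081538) (dlOf (nat_lit 1) (nat_lit 0x4002000200089d5c02)))))) (.nd (nat_lit 26) 
(.nd (nat_lit 19) (.nd (nat_lit 7) (.nd (nat_lit 27) 
(.lf (nat_lit 2952945666) (dlOf (nat_lit 4) (nat_lit 0xe0013804d807804a0012010600000ed50400d9013804f80780498012011000000ed40400120138075e8080150008001400200060008030003))) 
(.lf (nat_lit 1476550658) (dlOf (nat_lit 4) (nat_lit 0xd00c0039805c0760022001e00000d2284001000c0036805c075c022001a00000d2184000e00b8068fc080b28008012400209900008050003)))) 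
(.lf (nat_lit 805469570) (dlOf (nat_lit 1) (nat_lit 0xa800800040020004000811c903)))) 
(.nd (nat_lit 21) 
(.lf (nat_lit 1342857218) (dlOf (nat_lit 13) (nat_lit 0x4311780690898025c346019210600ea22f000a1070064581007408bc004044c002c20e00070d18064542016a88bc091844c047c20e02790d180644c2016c08bc092044c048220e027c0d18064442000788bc030e804034845e007022600091070026068c030e010036045e000422600c378202bf1178123089808f841c04e21a300c3684025f0f9805690080e907cc02b44040014466000a23103760f9800000180008008050400201a200080f0003))) 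
(.lf (nat_lit 1344954370) (dlOf (nat_lit 6) (nat_lit 0x260000068d40801501f0032de0400bc0f80196d0200d20bd00ca781006905e8064d80800500080084002005e00089a0003))))) 
(.nd (nat_lit 8) (.nd (nat_lit 7) (.nd (nat_lit 19) 
(.lf (nat_lit 3691143170) (dlOf (nat_lit 11) (nat_lit 0x91016006580a801b800001a4506011802c00bd01500340000034860c005005401a2902014e01d005700200677010012000c0309e0401a0038013c00400b60018061381802b0010018c0060184d04000200400c04810054002005f1408003801002f8004002c00400300018050002))) 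
(.lf (nat_lit 470441986) (dlOf (nat_lit 13) (nat_lit 0x4311780690898025c36601c6e0600ea22f000a10600718c1007408bc004044c002c20c00070d98071882016a88bc091844c047c20c02790d98071802016c08bc092044c048220c027c0d98071782000788bc037b204034845e00702260009106002606cc037ac10036045e000422600dea8202bf1178123089808f841804e21b300de984025f0f9005c2c080e907c802e12040014466000a23103760f9000000180008008050400201a200080f0003)))) 
(.lf (nat_lit 3154279554) (dlOf (nat_lit 1) (nat_lit 0xe001815c181)))) (.nd (nat_lit 9) 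
(.lf (nat_lit 473587970) (dlOf (nat_lit 1) (nat_lit 0x120008f63581))) 
(.lf (nat_lit 3020060418) (dlOf (nat_lit 1) (nat_lit 0x6001812a001)))))))) (.nd (nat_lit 17) 
(.nd (nat_lit 7) (.nd (nat_lit 19) (.nd (nat_lit 23) (.nd (nat_lit 31) (.nd (nat_lit 8) 
(.nd (nat_lit 22) 
(.lf (nat_lit 16867330) (dlOf (nat_lit 2) (nat_lit 0x27e338026080800c0008005c002001400088e0003))) 
(.lf (nat_lit 21061634) (dlOf (nat_lit 1) (nat_lit 0x2e0008a00001)))) 
(.lf (nat_lit 96514) (dlOf (nat_lit 2) (nat_lit 0x8cf200053020002001800a981)))) (.nd (nat_lit 8) 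
(.nd (nat_lit 26) 
(.lf (nat_lit 3221315586) (dlOf (nat_lit 1) (nat_lit 0x18008000400200020008090003))) 
(.lf (nat_lit 6509649922) (dlOf (nat_lit 2) (nat_lit 0x40000000002003a00080b0001)))) 
(.lf (nat_lit 3087099650) (dlOf (nat_lit 1) (nat_lit 0x60028143b81))))) (.nd (nat_lit 9) 
(.nd (nat_lit 24) (.lf (nat_lit 9527298) (dlOf (nat_lit 1) (nat_lit 0x20008000800200040008560003))) 
(.lf (nat_lit 26304514) (dlOf (nat_lit 1) (nat_lit 0x9e0008c30001)))) 
(.lf (nat_lit 8483330) (dlOf (nat_lit 1) (nat_lit 0x800400020018518682))))) (.nd (nat_lit 26) 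
(.nd (nat_lit 21) (.nd (nat_lit 29) 
(.lf (nat_lit 134832130) (dlOf (nat_lit 1) (nat_lit 0xa8008001c002002800080c0003))) 
(.lf (nat_lit 3892928514) (dlOf (nat_lit 1) (nat_lit 0x1000400180008290002)))) (.nd (nat_lit 23) 
(.lf (nat_lit 1881759746) (dlOf (nat_lit 1) (nat_lit 0x400200640009000002))) 
(.lf (nat_lit 27877378) (dlOf (nat_lit 1) (nat_lit 0x24000800f8002006a0008d40003))))) 
(.nd (nat_lit 27) (.nd (nat_lit 28) 
(.lf (nat_lit 4362690562) (dlOf (nat_lit 1) (nat_lit 0x200080d0001))) 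
(.lf (nat_lit 3557384194) (dlOf (nat_lit 1) (nat_lit 0x4004000200081e0002)))) (.nd (nat_lit 28) 
(.lf (nat_lit 201940994) (dlOf (nat_lit 1) (nat_lit 0xa8008001c002002800080c0003))) 
(.lf (nat_lit 4228472834) (dlOf (nat_lit 1) (nat_lit 0x200080d0001))))))) (.nd (nat_lit 8) 
(.nd (nat_lit 26) (.nd (nat_lit 9) 
(.lf (nat_lit 1342791810) (dlOf (nat_lit 1) (nat_lit 0x4004000200080c0102))) (.nd (nat_lit 12) 
(.lf (nat_lit 1610704514) (dlOf (nat_lit 1) (nat_lit 0x8008000400200020008093a03))) 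
(.lf (nat_lit 20018818) (dlOf (nat_lit 1) (nat_lit 0xc004001a00089d9d82))))) (.nd (nat_lit 11) 
(.nd (nat_lit 19) 
(.lf (nat_lit 604070018) (dlOf (nat_lit 2) (nat_lit 0x180440183e04000800400020008010282))) 
(.lf (nat_lit 470376578) (dlOf (nat_lit 1) (nat_lit 0x4004000200080c0102)))) 
(.lf (nat_lit 4362168450) (dlOf (nat_lit 1) (nat_lit 0x400400020008004782))))) (.nd (nat_lit 11) 
(.nd (nat_lit 10) (.nd (nat_lit 26) 
(.lf (nat_lit 402743682) (dlOf (nat_lit 1) (nat_lit 0x120028091001))) 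
(.lf (nat_lit 2080465282) (dlOf (nat_lit 2) (nat_lit 0x8c04e003600a0007b828091000)))) 
(.lf (nat_lit 4899038594) (dlOf (nat_lit 1) (nat_lit 0x40028053581)))) (.nd (nat_lit 9) 
(.nd (nat_lit 20) 
(.lf (nat_lit 4563495298) (dlOf (nat_lit 2) (nat_lit 0xc02400d900200060028094e81))) 
(.lf (nat_lit 53569922) (dlOf (nat_lit 1) (nat_lit 0x18008000c002000a00095f4e83)))) 
(.lf (nat_lit 97154) (dlOf (nat_lit 1) (nat_lit 0x4001800bc81))))))) (.nd (nat_lit 28) 
(.nd (nat_lit 29) (.nd (nat_lit 24) (.nd (nat_lit 25) (.nd (nat_lit 9) 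
(.lf (nat_lit 4496515074) (dlOf (nat_lit 2) (nat_lit 0x3100e0017006c00e403400cea06000200280b0001))) 
(.lf (nat_lit 9658882) (dlOf (nat_lit 1) (nat_lit 0x10c0008577f81)))) (.nd (nat_lit 10) 
(.lf (nat_lit 37969922) (dlOf (nat_lit 1) (nat_lit 0x200190f0001))) 
(.lf (nat_lit 36398082) (dlOf (nat_lit 1) (nat_lit 0x20019072881))))) (.nd (nat_lit 19) 
(.nd (nat_lit 7) (.lf (nat_lit 25387010) (dlOf (nat_lit 1) (nat_lit 0x220028c00001))) 
(.lf (nat_lit 20147074) (dlOf (nat_lit 1) (nat_lit 0x700080004002000200089d5c03)))) 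
(.nd (nat_lit 20) 
(.lf (nat_lit 21716994) (dlOf (nat_lit 1) (nat_lit 0x48008001800200140008a60003))) 
(.lf (nat_lit 29057026) (dlOf (nat_lit 1) (nat_lit 0x940018db0001)))))) (.nd (nat_lit 26) 
(.nd (nat_lit 19) (.lf (nat_lit 3758317570) (dlOf (nat_lit 1) (nat_lit 0x1260018130001))) 
(.lf (nat_lit 537616386) (dlOf (nat_lit 2) (nat_lit 0x52055000000180d0000)))) (.nd (nat_lit 7) 
(.nd (nat_lit 20) 
(.lf (nat_lit 604200962) (dlOf (nat_lit 2) (nat_lit 0x5c078006620200740008080001))) 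
(.lf (nat_lit 2752733186) (dlOf (nat_lit 1) (nat_lit 0x8000200020008030002)))) 
(.lf (nat_lit 1677944706) (dlOf (nat_lit 1) (nat_lit 0x20008000c00200040008114183)))))) 
(.nd (nat_lit 27) (.nd (nat_lit 7) (.nd (nat_lit 31) (.nd (nat_lit 19) 
(.lf (nat_lit 1342398466) (dlOf (nat_lit 1) (nat_lit 0x20008020001))) 
(.lf (nat_lit 1410031618) (dlOf (nat_lit 2) (nat_lit 0x52055000000180d0000)))) (.nd (nat_lit 20) 
(.lf (nat_lit 2953011202) (dlOf (nat_lit 1) (nat_lit 0x160018080001))) 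
(.lf (nat_lit 3490930690) (dlOf (nat_lit 1) (nat_lit 0x8000200020008030002))))) (.nd (nat_lit 9) 
(.lf (nat_lit 5167605122) (dlOf (nat_lit 2) (nat_lit 0x700500002604001c004001e00180d3582))) 
(.nd (nat_lit 10) (.lf (nat_lit 4630735746) (dlOf (nat_lit 1) (nat_lit 0x800400020008095c02))) 
(.lf (nat_lit 3556994946) (dlOf (nat_lit 1) (nat_lit 0xa8008005400200600008127783)))))) 
(.nd (nat_lit 26) (.nd (nat_lit 9) (.nd (nat_lit 19) 
(.lf (nat_lit 1476616194) (dlOf (nat_lit 2) (nat_lit 0x403c005fb8180a0000))) 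
(.lf (nat_lit 5773156354) (dlOf (nat_lit 1) (nat_lit 0xa00180b0001)))) 
(.lf (nat_lit 3087229442) (dlOf (nat_lit 1) (nat_lit 0x30008001c00200100008157f83)))) 
(.nd (nat_lit 30) (.nd (nat_lit 8) 
(.lf (nat_lit 3154344962) (dlOf (nat_lit 2) (nat_lit 0x40168014b4040060004003a001815bf02))) 
(.lf (nat_lit 1008951554) (dlOf (nat_lit 2) (nat_lit 0x40031802e017c002ca08003400200120009000a82)))) 
(.nd (nat_lit 19) 
(.lf (nat_lit 3691208706) (dlOf (nat_lit 2) (nat_lit 0x5000e800000080090008000c002004000080a0003))) 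
(.lf (nat_lit 6377136130) (dlOf (nat_lit 1) (nat_lit 0xa00180b0001)))))))))) (.nd (nat_lit 17) 
(.nd (nat_lit 26) (.nd (nat_lit 16) (.nd (nat_lit 19) (.nd (nat_lit 28) (.nd (nat_lit 29) 
(.nd (nat_lit 32) (.nd (nat_lit 7) 
(.lf (nat_lit 62152706) (dlOf (nat_lit 1) (nat_lit 0x7700080008002004c0009960003))) 
(.lf (nat_lit 288642) (dlOf (nat_lit 1) (nat_lit 0x20028004181)))) (.nd (nat_lit 27) 
(.lf (nat_lit 4295254018) (dlOf (nat_lit 1) (nat_lit 0x200080d0001))) 
(.lf (nat_lit 4429471746) (dlOf (nat_lit 1) (nat_lit 0x200080d0001))))) (.nd (nat_lit 30) 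
(.nd (nat_lit 31) (.lf (nat_lit 537157634) (dlOf (nat_lit 1) (nat_lit 0xe0008030001))) 
(.lf (nat_lit 2684641282) (dlOf (nat_lit 2) (nat_lit 0x26019001c54080250008003000200500008100003)))) 
(.lf (nat_lit 3758383106) (dlOf (nat_lit 1) (nat_lit 0x40028170001))))) (.nd (nat_lit 7) 
(.nd (nat_lit 20) (.nd (nat_lit 27) 
(.lf (nat_lit 4563689474) (dlOf (nat_lit 17) (nat_lit 0xf00bc0339804011c05e019cb02003c02f00cd70100090178066340801500bc0331804007805e0198b02003c02f00cc481001e0178066200800680bc0330e04007805e0191002003c02f00c878100160178063900800080d00317204004c05e018b702003e02f00c5b01000c0178062d4080158008006c002005a00080c0003))) 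
(.lf (nat_lit 4697907202) (dlOf (nat_lit 17) (nat_lit 0xf00bc03a7004011c05e01d3702003c02f00e9181001e0178073d00800f00bc039e604007805e01cf202001a02f00e788100090178073b40801500bc039d804007805e01c5d02003c02f00e2e0100160178071080800080d0037c204004c05e01be002003e02f00def81000c017806f78080158008006c002005a00080c0003)))) 
(.lf (nat_lit 1343512578) (dlOf (nat_lit 1) (nat_lit 0x3a000800b800200080008280003)))) 
(.nd (nat_lit 9) (.lf (nat_lit 3489950082) (dlOf (nat_lit 1) (nat_lit 0x800200020008004e82))) 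
(.lf (nat_lit 5100563330) (dlOf (nat_lit 1) (nat_lit 0x180080018002000400080d5c03)))))) 
(.nd (nat_lit 21) (.nd (nat_lit 23) (.nd (nat_lit 9) 
(.lf (nat_lit 22831106) (dlOf (nat_lit 1) (nat_lit 0x8008000400200020008b30003))) 
(.lf (nat_lit 3491521026) (dlOf (nat_lit 2) (nat_lit 0xc0458000000803b000800d4002002c0008090d83)))) 
(.nd (nat_lit 20) (.lf (nat_lit 9199618) (dlOf (nat_lit 1) (nat_lit 0x400400020008530002))) 
(.lf (nat_lit 27025410) (dlOf (nat_lit 1) (nat_lit 0x400400020008ca0002))))) (.nd (nat_lit 23) 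
(.nd (nat_lit 20) (.lf (nat_lit 3492569090) (dlOf (nat_lit 1) (nat_lit 0xe800080e0001))) 
(.lf (nat_lit 3493617666) (dlOf (nat_lit 2) (nat_lit 0x4010002688080090008001c00200100008180003)))) 
(.nd (nat_lit 22) (.lf (nat_lit 45899778) (dlOf (nat_lit 1) (nat_lit 0x8008000400200020009360003))) 
(.lf (nat_lit 16539650) (dlOf (nat_lit 1) (nat_lit 0x3000188b0001))))))) (.nd (nat_lit 21) 
(.nd (nat_lit 27) (.nd (nat_lit 22) (.nd (nat_lit 28) 
(.lf (nat_lit 1610964994) (dlOf (nat_lit 1) (nat_lit 0x4002000200080a0002))) 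
(.lf (nat_lit 6174367746) (dlOf (nat_lit 1) (nat_lit 0x140008120001)))) (.nd (nat_lit 10) 
(.lf (nat_lit 21848066) (dlOf (nat_lit 1) (nat_lit 0x20028a70001))) 
(.lf (nat_lit 38102018) (dlOf (nat_lit 1) (nat_lit 0x140009132881))))) (.nd (nat_lit 7) 
(.nd (nat_lit 29) 
(.lf (nat_lit 3355795458) (dlOf (nat_lit 5) (nat_lit 0x1002f006c18101380168035f80808a80c40197e04056806400c2b0200020008120001))) 
(.lf (nat_lit 671440898) (dlOf (nat_lit 2) (nat_lit 0x30000003310181a0000)))) 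
(.lf (nat_lit 2818924674) (dlOf (nat_lit 1) (nat_lit 0x20018130281))))) (.nd (nat_lit 19) 
(.nd (nat_lit 20) (.lf (nat_lit 10838018) (dlOf (nat_lit 1) (nat_lit 0x3c0018630001))) 
(.lf (nat_lit 37052418) (dlOf (nat_lit 1) (nat_lit 0x20019090001)))) (.nd (nat_lit 20) 
(.lf (nat_lit 3492634626) (dlOf (nat_lit 2) (nat_lit 0x8243e40071502000200280e0001))) 
(.nd (nat_lit 23) 
(.lf (nat_lit 3493683202) (dlOf (nat_lit 3) (nat_lit 0xe07b00b4681000603d8057f0080038008000c002001200081a0003))) 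
(.lf (nat_lit 12410882) (dlOf (nat_lit 4) (nat_lit 0x400001a4002001e00000cec810001dd50007ec90000000800c0004001a00086c0002)))))))) 
(.nd (nat_lit 29) (.nd (nat_lit 16) (.nd (nat_lit 27) (.nd (nat_lit 19) (.nd (nat_lit 28) 
(.lf (nat_lit 67395586) (dlOf (nat_lit 1) (nat_lit 0x4004000200080f0002))) 
(.lf (nat_lit 1409572866) (dlOf (nat_lit 1) (nat_lit 0xe0008030001)))) (.nd (nat_lit 7) 
(.lf (nat_lit 3557580802) (dlOf (nat_lit 5) (nat_lit 0x8031803c0118015c088016201c00a600c8015e828001807000ae804008808c017001c002b9820030023001a007000ae40800f0004001c0008270002))) 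
(.lf (nat_lit 4362887298) (dlOf (nat_lit 2) (nat_lit 0x40168000bc0800700080028002001000081a0103))))) 
(.nd (nat_lit 7) (.nd (nat_lit 8) 
(.lf (nat_lit 471097346) (dlOf (nat_lit 1) (nat_lit 0x160028270001))) 
(.lf (nat_lit 6644064514) (dlOf (nat_lit 1) (nat_lit 0x4002000200080c4802)))) 
(.lf (nat_lit 4496583554) (dlOf (nat_lit 1) (nat_lit 0x2200280e5c01))))) (.nd (nat_lit 28) 
(.nd (nat_lit 19) (.nd (nat_lit 27) 
(.lf (nat_lit 4362428418) (dlOf (nat_lit 4) (nat_lit 0x1c0640168202000c05600b3b810020019005884080058008000c00200080008070003))) 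
(.lf (nat_lit 5570387970) (dlOf (nat_lit 1) (nat_lit 0x140008120001)))) 
(.lf (nat_lit 69033986) (dlOf (nat_lit 1) (nat_lit 0x1c0018880001)))) (.nd (nat_lit 20) 
(.nd (nat_lit 30) 
(.lf (nat_lit 2617597954) (dlOf (nat_lit 8) (nat_lit 0xde02c00220068023841007500d0054c066009a02c012d01500608028011b41401e405e01a802e002b014808f004805fc022007150a016c01200389810136017803080a4052c0240069c0600f002f0034b01007c01a000080480000008011400400420008100002))) 
(.lf (nat_lit 1543856130) (dlOf (nat_lit 2) (nat_lit 0x30000005fb8181a0000)))) 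
(.lf (nat_lit 471162882) (dlOf (nat_lit 1) (nat_lit 0x30004000800082a0002)))))) (.nd (nat_lit 16) 
(.nd (nat_lit 7) (.nd (nat_lit 20) (.nd (nat_lit 11) 
(.lf (nat_lit 2754371586) (dlOf (nat_lit 1) (nat_lit 0xe800080e0001))) 
(.lf (nat_lit 2751756290) (dlOf (nat_lit 2) (nat_lit 0x60738011d808005800800200020004000800a603)))) 
(.nd (nat_lit 9) 
(.lf (nat_lit 2755420162) (dlOf (nat_lit 2) (nat_lit 0x4010001020080090008001c00200100008180003))) 
(.lf (nat_lit 2753323522) (dlOf (nat_lit 2) (nat_lit 0xc0440000000803b000800d4002002c0008090d83))))) 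
(.nd (nat_lit 8) 
(.lf (nat_lit 4228669570) (dlOf (nat_lit 2) (nat_lit 0x40160000bc0800700080028002001000081a0103))) 
(.nd (nat_lit 19) 
(.lf (nat_lit 4899236738) (dlOf (nat_lit 2) (nat_lit 0x100620002030000600e800180000010a100110002000400080d5c02))) 
(.lf (nat_lit 4094454658) (dlOf (nat_lit 2) (nat_lit 0x4087000a1818055c00)))))) (.nd (nat_lit 19) 
(.nd (nat_lit 27) 
(.lf (nat_lit 604332034) (dlOf (nat_lit 2) (nat_lit 0x9801c00a8a04000800400040008170002))) 
(.lf (nat_lit 4228210690) (dlOf (nat_lit 4) (nat_lit 0x1c0620151302000c04f00a840100200188052b8080058008000c00200080008070003)))) 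
(.nd (nat_lit 20) (.nd (nat_lit 28) 
(.lf (nat_lit 2754437122) (dlOf (nat_lit 2) (nat_lit 0x82440e00cbf02000200280e0001))) 
(.lf (nat_lit 4096614402) (dlOf (nat_lit 1) (nat_lit 0x40008140001)))) 
(.lf (nat_lit 2755485698) (dlOf (nat_lit 3) (nat_lit 0xe07900a8f01000603c805260080038008000c002001200081a0003)))))))) 
(.nd (nat_lit 16) (.nd (nat_lit 28) (.nd (nat_lit 26) (.nd (nat_lit 19) (.nd (nat_lit 22) 
(.nd (nat_lit 27) 
(.lf (nat_lit 6442868738) (dlOf (nat_lit 7) (nat_lit 0x500c800c005e0170b04004803800aee010062008004b680800e00c401980200129f04009a0100094d010007016000000080120008014c002005e00081e0003))) 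
(.lf (nat_lit 2818990082) (dlOf (nat_lit 5) (nat_lit 0xa81e000380de001a06a0019030800c818000580be000805e000b02d80008160006409600240420006020000880fc000c078000403b001001b001000d00018044000601b000d00c800f006002a4a5400080e4000603f00a8f020003039005260080068118005a20400c000400060018140002)))) 
(.nd (nat_lit 20) 
(.lf (nat_lit 13000706) (dlOf (nat_lit 1) (nat_lit 0x38008003c002000400086f0003))) 
(.lf (nat_lit 5660674) (dlOf (nat_lit 1) (nat_lit 0xa00183b0001))))) (.nd (nat_lit 20) 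
(.lf (nat_lit 15622146) (dlOf (nat_lit 1) (nat_lit 0x400018810001))) (.nd (nat_lit 21) 
(.lf (nat_lit 10379266) (dlOf (nat_lit 1) (nat_lit 0x4002000200085d0002))) 
(.lf (nat_lit 29253634) (dlOf (nat_lit 1) (nat_lit 0xa80080058002001a0008de0003)))))) 
(.nd (nat_lit 7) (.nd (nat_lit 20) (.nd (nat_lit 27) 
(.lf (nat_lit 3288752130) (dlOf (nat_lit 2) (nat_lit 0x7e000000000180d0000))) 
(.lf (nat_lit 4496711682) (dlOf (nat_lit 2) (nat_lit 0x3101a001700cc00e4064007410600020028140001)))) 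
(.lf (nat_lit 2752929794) (dlOf (nat_lit 1) (nat_lit 0x8004000c0008060002)))) (.nd (nat_lit 27) 
(.lf (nat_lit 4362494338) (dlOf (nat_lit 1) (nat_lit 0x140018090781))) 
(.lf (nat_lit 3959841154) (dlOf (nat_lit 1) (nat_lit 0x480080034002001a0008170783)))))) 
(.nd (nat_lit 26) (.nd (nat_lit 30) (.nd (nat_lit 27) (.nd (nat_lit 29) 
(.lf (nat_lit 4563820546) (dlOf (nat_lit 3) (nat_lit 0x880290050013801d041001500a400e80040044004003200180f0002))) 
(.lf (nat_lit 805724162) (dlOf (nat_lit 3) (nat_lit 0x102b00355008002815801aa6040100004001000081a0002)))) 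
(.lf (nat_lit 4698038274) (dlOf (nat_lit 3) (nat_lit 0x8802900500138033a81001500a4019d2040044004003200180f0002)))) 
(.nd (nat_lit 7) (.nd (nat_lit 20) (.nd (nat_lit 29) 
(.lf (nat_lit 5637562370) (dlOf (nat_lit 1) (nat_lit 0x54002002a0008110002))) 
(.lf (nat_lit 4026949634) (dlOf (nat_lit 2) (nat_lit 0x7e000000000180d0000)))) 
(.lf (nat_lit 3491127298) (dlOf (nat_lit 1) (nat_lit 0x8004000c0008060002)))) (.nd (nat_lit 8) 
(.lf (nat_lit 1344168066) (dlOf (nat_lit 1) (nat_lit 0x8008000400200020008490103))) 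
(.lf (nat_lit 3490086274) (dlOf (nat_lit 1) (nat_lit 0x378008001000200c0000800c903)))))) 
(.nd (nat_lit 7) (.nd (nat_lit 27) 
(.lf (nat_lit 6241542146) (dlOf (nat_lit 1) (nat_lit 0x54002002a0008110002))) (.nd (nat_lit 29) 
(.lf (nat_lit 5838888962) (dlOf (nat_lit 7) (nat_lit 0x1200e002e74040028064006002f00ad2020062008004b180800e00c401980200129504009a01000948010007016000000080120008014c002005e00081e0003))) 
(.lf (nat_lit 4228276226) (dlOf (nat_lit 1) (nat_lit 0x550008000400200880008090003))))) 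
(.nd (nat_lit 8) (.lf (nat_lit 471752834) (dlOf (nat_lit 1) (nat_lit 0x8008000400200020008490103))) 
(.lf (nat_lit 472279426) (dlOf (nat_lit 1) (nat_lit 0x680080030002000a0008984e83))))))) 
(.nd (nat_lit 29) (.nd (nat_lit 19) (.nd (nat_lit 28) (.nd (nat_lit 7) (.nd (nat_lit 9) 
(.lf (nat_lit 9920514) (dlOf (nat_lit 2) (nat_lit 0x51e780747c0800780080044002000e0008590003))) 
(.lf (nat_lit 8877570) (dlOf (nat_lit 1) (nat_lit 0x240018519c01)))) 
(.lf (nat_lit 1074228354) (dlOf (nat_lit 1) (nat_lit 0x1a600180f6101)))) (.nd (nat_lit 9) 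
(.nd (nat_lit 30) 
(.lf (nat_lit 2550620162) (dlOf (nat_lit 1) (nat_lit 0x80080004002000200081b0003))) 
(.lf (nat_lit 3624361986) (dlOf (nat_lit 1) (nat_lit 0xec0008170001)))) 
(.lf (nat_lit 1409769986) (dlOf (nat_lit 1) (nat_lit 0x400400020008090d82))))) (.nd (nat_lit 7) 
(.nd (nat_lit 21) (.lf (nat_lit 27222018) (dlOf (nat_lit 1) (nat_lit 0x8e0018cc0001))) 
(.nd (nat_lit 22) (.lf (nat_lit 29319170) (dlOf (nat_lit 1) (nat_lit 0x20018df0001))) 
(.lf (nat_lit 25124866) (dlOf (nat_lit 1) (nat_lit 0x2480080084002021c0008be0003))))) 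
(.nd (nat_lit 9) (.lf (nat_lit 8352898) (dlOf (nat_lit 1) (nat_lit 0x400400020008519502))) 
(.lf (nat_lit 19887746) (dlOf (nat_lit 1) (nat_lit 0x400189d9d81)))))) (.nd (nat_lit 27) 
(.nd (nat_lit 26) (.nd (nat_lit 9) 
(.lf (nat_lit 1611096066) (dlOf (nat_lit 1) (nat_lit 0x4004001000180e0002))) 
(.lf (nat_lit 537354754) (dlOf (nat_lit 1) (nat_lit 0x400400020008090d82)))) (.nd (nat_lit 20) 
(.lf (nat_lit 1678204930) (dlOf (nat_lit 1) (nat_lit 0x4002000400081a0002))) 
(.lf (nat_lit 2752995330) (dlOf (nat_lit 1) (nat_lit 0x4c00200040008070002))))) (.nd (nat_lit 21) 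
(.nd (nat_lit 31) (.lf (nat_lit 738680834) (dlOf (nat_lit 1) (nat_lit 0x4004001000180e0002))) 
(.lf (nat_lit 2886164482) (dlOf (nat_lit 1) (nat_lit 0xec0008170001)))) 
(.lf (nat_lit 1009213442) (dlOf (nat_lit 3) (nat_lit 0x1381c60192602000a0e000050398060f01000c00080034002003400090a0003))))))))) 
(.nd (nat_lit 17) (.nd (nat_lit 18) (.nd (nat_lit 28) (.nd (nat_lit 20) (.nd (nat_lit 10) 
(.nd (nat_lit 8) (.nd (nat_lit 19) (.nd (nat_lit 12) 
(.lf (nat_lit 27353122) (dlOf (nat_lit 1) (nat_lit 0x2a0028cd0681))) 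
(.lf (nat_lit 604008482) (dlOf (nat_lit 1) (nat_lit 0x20028007b01)))) (.nd (nat_lit 21) 
(.nd (nat_lit 26) (.lf (nat_lit 2819121186) (dlOf (nat_lit 1) (nat_lit 0x4002000200081a0602))) 
(.lf (nat_lit 4362625058) (dlOf (nat_lit 1) (nat_lit 0x14002000c00080b0a02)))) 
(.lf (nat_lit 15228962) (dlOf (nat_lit 2) (nat_lit 0x3e7f90005a8187c0600))))) (.nd (nat_lit 7) 
(.nd (nat_lit 11) (.nd (nat_lit 16) 
(.lf (nat_lit 604528930) (dlOf (nat_lit 1) (nat_lit 0x34004001000082f8002))) 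
(.lf (nat_lit 2147574050) (dlOf (nat_lit 1) (nat_lit 0x20008090a81)))) 
(.lf (nat_lit 616738) (dlOf (nat_lit 1) (nat_lit 0x140018004b81)))) (.nd (nat_lit 21) 
(.lf (nat_lit 3758121378) (dlOf (nat_lit 1) (nat_lit 0x400400020008001002))) 
(.lf (nat_lit 2122146) (dlOf (nat_lit 1) (nat_lit 0x180018150781)))))) (.nd (nat_lit 7) 
(.nd (nat_lit 8) (.nd (nat_lit 16) 
(.lf (nat_lit 1140876834) (dlOf (nat_lit 1) (nat_lit 0xc0028003701))) 
(.lf (nat_lit 4496385570) (dlOf (nat_lit 1) (nat_lit 0x1e0028053701)))) (.nd (nat_lit 9) 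
(.nd (nat_lit 26) 
(.lf (nat_lit 6039827746) (dlOf (nat_lit 4) (nat_lit 0x3901a800980d000440000001e060064035000c01a000480000002e0c00c406a000c0340003018800480000000010001c00400100018009782))) 
(.lf (nat_lit 3422582050) (dlOf (nat_lit 9) (nat_lit 0x1c01c000e00000018820003007000180000005e08003401c001c0000001702000e007000780000005a08002401c001600000003020001007000080000000a08002c01c0018000000010200010070000000800a00080028002001e0008009783)))) 
(.lf (nat_lit 604008226) (dlOf (nat_lit 1) (nat_lit 0x400200020008007482))))) (.nd (nat_lit 9) 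
(.nd (nat_lit 8) 
(.lf (nat_lit 2885774498) (dlOf (nat_lit 3) (nat_lit 0x4000000058080068000000280400b0002002a0008006282))) 
(.lf (nat_lit 5502952866) (dlOf (nat_lit 1) (nat_lit 0x160018003601)))) (.nd (nat_lit 26) 
(.lf (nat_lit 671116962) (dlOf (nat_lit 1) (nat_lit 0x40028007201))) (.nd (nat_lit 27) 
(.lf (nat_lit 1677749922) (dlOf (nat_lit 1) (nat_lit 0x400400020018007202))) 
(.lf (nat_lit 3959451298) (dlOf (nat_lit 2) (nat_lit 0x800000020040018002000a0008007202)))))))) 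
(.nd (nat_lit 16) (.nd (nat_lit 8) (.nd (nat_lit 19) (.nd (nat_lit 9) 
(.lf (nat_lit 17850402) (dlOf (nat_lit 1) (nat_lit 0x10008000c002000200088f0d03))) 
(.lf (nat_lit 40919586) (dlOf (nat_lit 1) (nat_lit 0x1bc00400160019208702)))) (.nd (nat_lit 21) 
(.lf (nat_lit 9986082) (dlOf (nat_lit 4) (nat_lit 0x7d1480007c0800867700002404000af840000e02000200285a0b81))) 
(.lf (nat_lit 2755158050) (dlOf (nat_lit 2) (nat_lit 0x307e80009c080010008000400200160008120983))))) 
(.nd (nat_lit 7) (.nd (nat_lit 19) 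
(.lf (nat_lit 7364898) (dlOf (nat_lit 1) (nat_lit 0x400184b0701))) 
(.lf (nat_lit 1597730) (dlOf (nat_lit 1) (nat_lit 0x4004000200180f7802)))) 
(.lf (nat_lit 37251490) (dlOf (nat_lit 1) (nat_lit 0x4002001800090d4e82))))) (.nd (nat_lit 19) 
(.nd (nat_lit 21) (.nd (nat_lit 7) 
(.lf (nat_lit 26304546) (dlOf (nat_lit 1) (nat_lit 0x8008000c00200080008c30183))) 
(.lf (nat_lit 43081890) (dlOf (nat_lit 6) (nat_lit 0x200000025010003a4b80010408004544c00980000003f0400175130001e81000ba4b8000ec08048800800a4002000400092a0583)))) 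
(.nd (nat_lit 8) (.lf (nat_lit 28401698) (dlOf (nat_lit 1) (nat_lit 0x2080028d90681))) 
(.lf (nat_lit 20013346) (dlOf (nat_lit 1) (nat_lit 0x48008000400200ba00089d0a83))))) 
(.nd (nat_lit 21) (.nd (nat_lit 23) (.nd (nat_lit 25) 
(.lf (nat_lit 68771874) (dlOf (nat_lit 1) (nat_lit 0x6c0008750701))) 
(.lf (nat_lit 35217442) (dlOf (nat_lit 2) (nat_lit 0x104f40003004000800200060009000702)))) 
(.lf (nat_lit 26828834) (dlOf (nat_lit 1) (nat_lit 0x18008000c00200040008c80603)))) 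
(.lf (nat_lit 3760162) (dlOf (nat_lit 4) (nat_lit 0x19324001498e00d8e04002a4b2006648100182590033200800c0008008000200100008220a03))))))) 
(.nd (nat_lit 31) (.nd (nat_lit 7) (.nd (nat_lit 19) (.nd (nat_lit 8) 
(.lf (nat_lit 1343316002) (dlOf (nat_lit 1) (nat_lit 0x1180080164002009600081e0603))) 
(.nd (nat_lit 10) 
(.lf (nat_lit 4563493154) (dlOf (nat_lit 22) (nat_lit 0x5603400020178017005400040240016908002c034000301780138054002d00c00b802a00167020058015000b301001a00a80058c0800b005400840240014d040058015002c0090005301000d0054009c0240014b04000a015000f0090005141000f00540028804009802a0014302002e0120006b81000500a800380480019e08006802a00100120006702001b00a8000ac0800d80540005404006c02a00018020026015000b00900005c1001100540002c04009802a00160120000a82002600a800000080020008020400200580008090a83))) 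
(.lf (nat_lit 4697711906) (dlOf (nat_lit 1) (nat_lit 0x100028093101))))) (.nd (nat_lit 9) 
(.nd (nat_lit 16) (.lf (nat_lit 1409835042) (dlOf (nat_lit 1) (nat_lit 0x800200020008090002))) 
(.lf (nat_lit 474570786) (dlOf (nat_lit 23) (nat_lit 0x3183340009e04063c2ac031e143013a09d80bf033401a40ea001a01a000270601900ab00c8050c049827603020cd006903a800680680009a1801ec29a0004b0200f614d007b06c8001281003e0534003828400f40d900024830004066800110080cf05580680286026013b0190066803381d40034034000430c033a156019e0a1809384ec064019a00ce075000d00d0001083001d853401ec19400f60c2007b053801c003c0008214021029a00fc0d90078046802081f4000801001f029a01000d90029046802081f40007e1007b82ac03b214301c009d80cf84e4073419a011e09601e604280c801d400040e602dc0000001f0a00d70ab0067850c0007a0804782ac021414300ea09d807f0334010412c010a085008503a801e01cc000782001902ac00a214300580668000ec180088558029828601d80cd0001d0300eb0ab0070850c016c19a000390601ec15600ed0a18000e0100350558015c28600c80cd0001b8300420ab006a050c0006a0803ac2ac01c214300ea0668000cc1802d00080010002006200091a0183))))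 
(.lf (nat_lit 1342726690) (dlOf (nat_lit 3) (nat_lit 0x370aa002a05440047608012c2a800c4151001170280c0d80))))) 
(.nd (nat_lit 8) (.nd (nat_lit 9) (.nd (nat_lit 10) 
(.lf (nat_lit 1009279138) (dlOf (nat_lit 1) (nat_lit 0x4002000200090e0582))) 
(.lf (nat_lit 402744482) (dlOf (nat_lit 1) (nat_lit 0x400400020018092b82)))) 
(.lf (nat_lit 939552418) (dlOf (nat_lit 1) (nat_lit 0x10008000800200060008007203)))) 
(.nd (nat_lit 16) (.nd (nat_lit 10) 
(.lf (nat_lit 1342204322) (dlOf (nat_lit 1) (nat_lit 0x5c004001a0008004e82))) 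
(.lf (nat_lit 4630537634) (dlOf (nat_lit 1) (nat_lit 0x3c0018003601)))) (.nd (nat_lit 9) 
(.lf (nat_lit 4563495330) (dlOf (nat_lit 2) (nat_lit 0x2012006c7018094e80))) 
(.lf (nat_lit 4563495842) (dlOf (nat_lit 1) (nat_lit 0x20028095c81))))))) (.nd (nat_lit 8) 
(.nd (nat_lit 19) (.nd (nat_lit 7) (.nd (nat_lit 9) 
(.lf (nat_lit 3493879842) (dlOf (nat_lit 3) (nat_lit 0x1a0c000bf101000e060005f700801780080098002005c00081b0003))) 
(.lf (nat_lit 4095764002) (dlOf (nat_lit 1) (nat_lit 0x1000180e3701)))) 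
(.lf (nat_lit 3087036066) (dlOf (nat_lit 5) (nat_lit 0x1400f80088078001803600180170001a04001600f8004006c003c02e00032060010017000188100360000000b8080168008012800200020008007203)))) 
(.nd (nat_lit 16) (.nd (nat_lit 20) (.nd (nat_lit 27) 
(.lf (nat_lit 3557318690) (dlOf (nat_lit 2) (nat_lit 0x3206a0046030000f00fc001ca0c000c004000200081c0602))) 
(.lf (nat_lit 4228407330) (dlOf (nat_lit 1) (nat_lit 0x14002000c00080b0a02)))) 
(.lf (nat_lit 3493355554) (dlOf (nat_lit 2) (nat_lit 0x307e80009c080010008000400200160008120983)))) 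
(.lf (nat_lit 3557384226) (dlOf (nat_lit 1) (nat_lit 0x1400281e0681))))) (.nd (nat_lit 10) 
(.nd (nat_lit 11) (.nd (nat_lit 16) 
(.lf (nat_lit 3556794786) (dlOf (nat_lit 1) (nat_lit 0x3400200060008001002))) 
(.lf (nat_lit 3491324322) (dlOf (nat_lit 2) (nat_lit 0x2234003a1818090780)))) 
(.lf (nat_lit 4227885474) (dlOf (nat_lit 1) (nat_lit 0xb8004017c0008004e82)))) (.nd (nat_lit 7) 
(.nd (nat_lit 9) 
(.lf (nat_lit 4160779554) (dlOf (nat_lit 6) (nat_lit 0x500a000500140003408000c0280001902001601400130028000601000100500018008000140400020140008002000044100068008008400200060008009783))) 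
(.lf (nat_lit 2952818466) (dlOf (nat_lit 1) (nat_lit 0x1800400040008007482)))) 
(.lf (nat_lit 3489693090) (dlOf (nat_lit 2) (nat_lit 0x1107800407d000043740007606002e002800cb01)))))))) 
(.nd (nat_lit 28) (.nd (nat_lit 19) (.nd (nat_lit 16) (.nd (nat_lit 21) (.nd (nat_lit 29) 
(.nd (nat_lit 20) 
(.lf (nat_lit 4362362914) (dlOf (nat_lit 7) (nat_lit 0x8405a0001002003802d0000781001f016800c80b00001808007005a0000a02003802d0000481000f01600000c080028008007400200300008030c03))) 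
(.lf (nat_lit 26501154) (dlOf (nat_lit 1) (nat_lit 0x20018c50181)))) (.nd (nat_lit 30) 
(.lf (nat_lit 537157666) (dlOf (nat_lit 1) (nat_lit 0xe000800c800200a80008030983))) 
(.lf (nat_lit 3758383138) (dlOf (nat_lit 1) (nat_lit 0x400400020018170182))))) (.nd (nat_lit 20) 
(.nd (nat_lit 24) (.lf (nat_lit 44326946) (dlOf (nat_lit 1) (nat_lit 0x800092f0801))) 
(.lf (nat_lit 27549730) (dlOf (nat_lit 1) (nat_lit 0x20008d00681)))) (.nd (nat_lit 9) 
(.lf (nat_lit 62152738) (dlOf (nat_lit 1) (nat_lit 0xa0019960181))) 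
(.lf (nat_lit 20210210) (dlOf (nat_lit 1) (nat_lit 0x4002000200089d1482)))))) (.nd (nat_lit 29) 
(.nd (nat_lit 7) (.lf (nat_lit 9789474) (dlOf (nat_lit 1) (nat_lit 0x20018580181))) 
(.nd (nat_lit 11) (.lf (nat_lit 21324194) (dlOf (nat_lit 1) (nat_lit 0x1400200020008a36b82))) 
(.lf (nat_lit 69560738) (dlOf (nat_lit 1) (nat_lit 0x1b000800b000200480008b44e83))))) 
(.nd (nat_lit 27) (.lf (nat_lit 3758448674) (dlOf (nat_lit 2) (nat_lit 0x5a600a000728181c0600))) 
(.nd (nat_lit 30) 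
(.lf (nat_lit 671440930) (dlOf (nat_lit 2) (nat_lit 0x200a000158040030004001e00081a0502))) 
(.lf (nat_lit 3892666402) (dlOf (nat_lit 1) (nat_lit 0xc0008180181))))))) (.nd (nat_lit 7) 
(.nd (nat_lit 16) (.nd (nat_lit 10) (.nd (nat_lit 21) 
(.lf (nat_lit 10248226) (dlOf (nat_lit 1) (nat_lit 0x4002000200085c0982))) (.nd (nat_lit 22) 
(.lf (nat_lit 45899810) (dlOf (nat_lit 2) (nat_lit 0x590fc0003e0200020009360181))) 
(.lf (nat_lit 16539682) (dlOf (nat_lit 1) (nat_lit 0x4004000200088b0682))))) 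
(.lf (nat_lit 19690530) (dlOf (nat_lit 2) (nat_lit 0x15060013140800080080004002000200089d9203)))) 
(.nd (nat_lit 8) (.nd (nat_lit 20) 
(.lf (nat_lit 876578) (dlOf (nat_lit 1) (nat_lit 0x20028030981))) 
(.lf (nat_lit 27090978) (dlOf (nat_lit 2) (nat_lit 0x22b634001ca04000c00400040008ca0602)))) 
(.lf (nat_lit 8217378) (dlOf (nat_lit 1) (nat_lit 0x100028512181))))) (.nd (nat_lit 8) 
(.nd (nat_lit 9) (.lf (nat_lit 20737186) (dlOf (nat_lit 1) (nat_lit 0x80080004002005c00089d6283))) 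
(.nd (nat_lit 10) (.lf (nat_lit 58550946) (dlOf (nat_lit 1) (nat_lit 0x200197e5601))) 
(.lf (nat_lit 2752276130) (dlOf (nat_lit 1) (nat_lit 0x20018003a81))))) (.nd (nat_lit 9) 
(.nd (nat_lit 10) (.lf (nat_lit 8155554) (dlOf (nat_lit 1) (nat_lit 0x280028518381))) 
(.lf (nat_lit 8152482) (dlOf (nat_lit 1) (nat_lit 0x400200020008513602)))) 
(.lf (nat_lit 8221602) (dlOf (nat_lit 1) (nat_lit 0x240018519101))))))) (.nd (nat_lit 26) 
(.nd (nat_lit 16) (.nd (nat_lit 7) (.nd (nat_lit 20) (.nd (nat_lit 27) 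
(.lf (nat_lit 1342464034) (dlOf (nat_lit 2) (nat_lit 0x387440002c04004c004002c0008030982))) 
(.lf (nat_lit 1476681762) (dlOf (nat_lit 1) (nat_lit 0x24002001e0008110782)))) (.nd (nat_lit 8) 
(.lf (nat_lit 3491520546) (dlOf (nat_lit 1) (nat_lit 0x2980080188002003c0008090003))) 
(.lf (nat_lit 3490996514) (dlOf (nat_lit 2) (nat_lit 0xe207000d0000028d4100080008006800200020008047803))))) 
(.nd (nat_lit 8) (.nd (nat_lit 27) 
(.lf (nat_lit 4563689634) (dlOf (nat_lit 6) (nat_lit 0xd00cc00020040218066000080200920330000201004901980000c0802480cc0000404013c002003800080c1402))) 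
(.lf (nat_lit 4697907362) (dlOf (nat_lit 5) (nat_lit 0x5805e00017020052033000048100540198000200801480cc00000040048004003e00080c1382)))) 
(.lf (nat_lit 3489950114) (dlOf (nat_lit 1) (nat_lit 0x20008004e81))))) (.nd (nat_lit 19) 
(.nd (nat_lit 21) (.nd (nat_lit 27) 
(.lf (nat_lit 4563755042) (dlOf (nat_lit 1) (nat_lit 0x200280d0181))) 
(.lf (nat_lit 4697972770) (dlOf (nat_lit 1) (nat_lit 0x200280d0181)))) 
(.lf (nat_lit 1881497634) (dlOf (nat_lit 2) (nat_lit 0x4807900000018f20180)))) (.nd (nat_lit 21) 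
(.lf (nat_lit 3491586082) (dlOf (nat_lit 1) (nat_lit 0x20028090001))) 
(.lf (nat_lit 1346199586) (dlOf (nat_lit 2) (nat_lit 0x400cd00007018e60180)))))) (.nd (nat_lit 29) 
(.nd (nat_lit 16) (.nd (nat_lit 19) (.nd (nat_lit 27) 
(.lf (nat_lit 1409572898) (dlOf (nat_lit 1) (nat_lit 0xe000800c800200a80008030983))) 
(.lf (nat_lit 470048802) (dlOf (nat_lit 2) (nat_lit 0x387440002c04004c004002c0008030982)))) 
(.lf (nat_lit 3557580834) (dlOf (nat_lit 3) (nat_lit 0x2206f0002901000d0378001400800580080068002002c0008270683)))) 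
(.nd (nat_lit 7) (.nd (nat_lit 27) 
(.lf (nat_lit 3557122082) (dlOf (nat_lit 1) (nat_lit 0x60008002c00200140008130003))) 
(.lf (nat_lit 1543856162) (dlOf (nat_lit 2) (nat_lit 0x200a0000ac040030004001e00081a0502)))) 
(.lf (nat_lit 2483381922) (dlOf (nat_lit 2) (nat_lit 0x2600f0006a8180f3a80))))) (.nd (nat_lit 27) 
(.nd (nat_lit 7) (.nd (nat_lit 9) 
(.lf (nat_lit 4096614434) (dlOf (nat_lit 1) (nat_lit 0x20008000c002000c0008140b83))) 
(.lf (nat_lit 1946444322) (dlOf (nat_lit 1) (nat_lit 0x400400020008090d82)))) 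
(.lf (nat_lit 1946444194) (dlOf (nat_lit 2) (nat_lit 0x3c0290039c818090780)))) (.nd (nat_lit 19) 
(.nd (nat_lit 31) 
(.lf (nat_lit 2080661538) (dlOf (nat_lit 1) (nat_lit 0x5000080008002012c00080a0783))) 
(.lf (nat_lit 4228145186) (dlOf (nat_lit 7) (nat_lit 0x840580001002003802c0000781001f016000c80ac000180800700580000a02003802c0000481000f01580000c080028008007400200300008030c03)))) 
(.lf (nat_lit 4228669474) (dlOf (nat_lit 4) (nat_lit 0x40960075702003e04b003aa81002c00000000008005000800b8002002e00081a0003))))))))) 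
(.nd (nat_lit 16) (.nd (nat_lit 18) (.nd (nat_lit 28) (.nd (nat_lit 26) (.nd (nat_lit 31) 
(.nd (nat_lit 19) (.nd (nat_lit 20) 
(.lf (nat_lit 14835746) (dlOf (nat_lit 2) (nat_lit 0x90c320048494002420000120f8400cc7bc0001d0a00160028780601))) 
(.lf (nat_lit 22175778) (dlOf (nat_lit 1) (nat_lit 0x20008aa0c01)))) 
(.lf (nat_lit 45768738) (dlOf (nat_lit 2) (nat_lit 0xde7dc006f27400367a7001a3b4000d80000007c140018002000e0009360182)))) 
(.nd (nat_lit 7) 
(.lf (nat_lit 2281857058) (dlOf (nat_lit 3) (nat_lit 0xf0140008009c000804c0005e06001a028000e01380016c1000d00080004002001c0008080503))) 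
(.nd (nat_lit 8) (.lf (nat_lit 3355604642) (dlOf (nat_lit 1) (nat_lit 0x200280a9f81))) 
(.lf (nat_lit 3758256034) (dlOf (nat_lit 1) (nat_lit 0x1000200020008127882)))))) (.nd (nat_lit 29) 
(.nd (nat_lit 7) 
(.lf (nat_lit 3422707746) (dlOf (nat_lit 4) (nat_lit 0x2c00700090000000e40800a801c002000000037820008007000088080150008001c002000a0008060503))) 
(.nd (nat_lit 11) 
(.lf (nat_lit 4362232226) (dlOf (nat_lit 2) (nat_lit 0x180cc01394040004002003a0008016b82))) 
(.lf (nat_lit 6509717922) (dlOf (nat_lit 1) (nat_lit 0x1ce0018144e81))))) (.nd (nat_lit 19) 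
(.nd (nat_lit 20) (.lf (nat_lit 604135458) (dlOf (nat_lit 2) (nat_lit 0x4403f00010018030180))) 
(.lf (nat_lit 2752667682) (dlOf (nat_lit 1) (nat_lit 0x1d000800f000200840008030983)))) 
(.lf (nat_lit 1678401570) (dlOf (nat_lit 1) (nat_lit 0x1d00008210481)))))) (.nd (nat_lit 19) 
(.nd (nat_lit 8) (.nd (nat_lit 20) (.nd (nat_lit 29) 
(.lf (nat_lit 3624034338) (dlOf (nat_lit 3) (nat_lit 0x3300000184b020076036000000180b0000))) 
(.lf (nat_lit 4160905250) (dlOf (nat_lit 6) (nat_lit 0x520140002002800118100018050001000a000430400d40140026009002780140007e0c004002800100040001b02006a00a002780100006808001c00400640018060502)))) 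
(.nd (nat_lit 31) (.lf (nat_lit 1343381538) (dlOf (nat_lit 1) (nat_lit 0x400400020008210682))) 
(.lf (nat_lit 3490865186) (dlOf (nat_lit 1) (nat_lit 0x1d000800f000200840008030983))))) 
(.nd (nat_lit 7) (.lf (nat_lit 1342333218) (dlOf (nat_lit 1) (nat_lit 0x20028014301))) 
(.nd (nat_lit 10) 
(.lf (nat_lit 4228014498) (dlOf (nat_lit 2) (nat_lit 0x1ec054004a70200160008016b81))) 
(.lf (nat_lit 5637301666) (dlOf (nat_lit 1) (nat_lit 0x5a00280d3601)))))) (.nd (nat_lit 26) 
(.nd (nat_lit 21) (.nd (nat_lit 27) (.nd (nat_lit 29) 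
(.lf (nat_lit 1342857250) (dlOf (nat_lit 1) (nat_lit 0xb00080050002004800080f0883))) 
(.lf (nat_lit 805986338) (dlOf (nat_lit 1) (nat_lit 0x1d00008210481)))) 
(.lf (nat_lit 5772042274) (dlOf (nat_lit 1) (nat_lit 0x10008000800200040008050803)))) 
(.lf (nat_lit 1344954402) (dlOf (nat_lit 4) (nat_lit 0xd0534005c0fa019407c0001383000d0a6800481f4026c0f8000260600e207c000090189a0180)))) 
(.nd (nat_lit 21) (.nd (nat_lit 30) 
(.lf (nat_lit 3154796578) (dlOf (nat_lit 7) (nat_lit 0x702a0001812800140480016022000200d800380580010028001ed0e001005400030288003013c00080940010024000601100058058002c028001eb10000602400050110007a81000500900028044001a01d000e903000a0120007440800080b0002fa04000c002003c0008330a82))) 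
(.lf (nat_lit 6376022050) (dlOf (nat_lit 1) (nat_lit 0x10008000800200040008050803)))) 
(.lf (nat_lit 472539170) (dlOf (nat_lit 3) (nat_lit 0x4143000010100050b3800000080030008002c002001200089b0703))))))) 
(.nd (nat_lit 28) (.nd (nat_lit 20) (.nd (nat_lit 27) (.nd (nat_lit 21) (.nd (nat_lit 7) 
(.lf (nat_lit 13000738) (dlOf (nat_lit 1) (nat_lit 0x200086f0781))) 
(.lf (nat_lit 3221643682) (dlOf (nat_lit 2) (nat_lit 0xf00f800dfa040050004000a0008170782)))) 
(.nd (nat_lit 9) (.lf (nat_lit 6709282) (dlOf (nat_lit 1) (nat_lit 0x20018440a81))) 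
(.lf (nat_lit 3039778) (dlOf (nat_lit 1) (nat_lit 0x8008001800200040008200d83))))) 
(.nd (nat_lit 26) (.nd (nat_lit 7) 
(.lf (nat_lit 134636066) (dlOf (nat_lit 2) (nat_lit 0xd00f40028070000010400020008090d81))) 
(.lf (nat_lit 134635938) (dlOf (nat_lit 5) (nat_lit 0x17807600a4036000c00b801d101803b00ec028806c0026017003a183005001d802100d800e740800380760016036000600b801ce41802c8008023400200bc0008090783)))) 
(.nd (nat_lit 31) 
(.lf (nat_lit 4496711714) (dlOf (nat_lit 5) (nat_lit 0xec032002501780218084000ac0c009806801de0220000b0200520110000440802300880002004063800400e20018140b82))) 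
(.lf (nat_lit 2349228066) (dlOf (nat_lit 1) (nat_lit 0x600281d0a01)))))) (.nd (nat_lit 8) 
(.nd (nat_lit 9) (.nd (nat_lit 21) (.nd (nat_lit 23) 
(.lf (nat_lit 2752929826) (dlOf (nat_lit 1) (nat_lit 0x120008060501))) 
(.lf (nat_lit 9855010) (dlOf (nat_lit 1) (nat_lit 0x8008001400200040008580183)))) 
(.lf (nat_lit 7757858) (dlOf (nat_lit 1) (nat_lit 0x200184d0a81)))) (.nd (nat_lit 7) 
(.lf (nat_lit 2753454626) (dlOf (nat_lit 1) (nat_lit 0x980080038002000e0008090d83))) 
(.lf (nat_lit 41839266) (dlOf (nat_lit 1) (nat_lit 0x2400400060019245602))))) (.nd (nat_lit 7) 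
(.nd (nat_lit 9) 
(.lf (nat_lit 8287522) (dlOf (nat_lit 2) (nat_lit 0x4db980006204003000400020008519782))) 
(.lf (nat_lit 8283938) (dlOf (nat_lit 1) (nat_lit 0x2c00400280008513d02)))) 
(.lf (nat_lit 8283554) (dlOf (nat_lit 1) (nat_lit 0x100018513601)))))) (.nd (nat_lit 7) 
(.nd (nat_lit 26) (.nd (nat_lit 20) (.nd (nat_lit 22) (.nd (nat_lit 27) 
(.lf (nat_lit 4563820578) (dlOf (nat_lit 35) (nat_lit 0x8f018007180a403a804e010e021009a00980538040025800e00de0000002b080088018006b00a40200042012201300a90080045001c000aa18031c060022e02900c30108069004c036002001960070002a0601ed01880f08050079c02201300100002984006b0188034007001a402800dc01100029040095018802000c0025c038010e014007d008804b80400158000000510e040c03101eb00a00f70044000a00c00040620004b020078031002f00e001a005000bc0220004a08013a031009c00e004900500268022000490801ba0310828016006e0070033c02801aa0110002005004601883d080b001140380072014003c0088000fc280be00c405c4038027a01400e20088000f82003380700007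a04062406202fe01400910088000f01800c80c4001c038001601400070088000ec2000080c40007404000406200039020224031084c016000500880444038020a01401090088000e0300f300c4075c03803b001401d70088000dc2004880c40244038010801400760088000d82003c80c401e003800d60140062008800e80400006a14020006200fe01c007000a003b004400068100444062021a01c010600a008580440006610001006002d2028000d0098000bc1801200c0007802600500100001703003d01480007c0807000c00038056025a0290026014009a009c036004201d601300ec0080073001c0002c2400b006000ba02900250098000501800400c0032005200120270002009800300400002414024c06001c202900e7013804e004c0284020000110a013403000eb0148074009c029002601520100000805003501480003c0805a00c40368052015a0140074008800000200d800080024002022200080f0b83))) 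
(.lf (nat_lit 4698038306) (dlOf (nat_lit 35) (nat_lit 0x8f018007180a403a804e010e021009a00980538040025800e00de0000002b080088018006b00a40200042012201300a90080045001c000aa18031c060022e02900c30108069004c036002001960070002a0601ed01880f08050079c02201300100002984006b0188034007001a402800dc01100029040095018802000c0025c038010e014007d008804b80400158000000510e040c03101eb00a00f70044000a00c00040620004b020078031002f00e001a005000bc0220004a08013a031009c00e004900500268022000490801ba0310828016006e0070033c02801aa0110002005004601883d080b001140380072014003c0088000fc280be00c405c4038027a01400e20088000f82003380700007a04062406202fe01400910088000f01800c80c4001c038001601400070088000ec2000080c40007404000406200039020224031084c016000500880444038020a01401090088000e0300f300c4075c03803b001401d70088000dc2004880c40244038010801400760088000d82003c80c401e003800d60140062008800e80400006a14020006200fe01c007000a003b004400068100444062021a01c010600a008580440006610001006002d2028000d0098000bc1801200c0007802600500100001703003d01480007c0807000c00038056025a0290026014009a009c036004201d601300ec0080073001c0002c2400b006000ba02900250098000501800400c0032005200120270002009800300400002414024c06001c202900e7013804e004c0284020000110a013403000eb0148074009c029002601520100000805003501480003c0805a00c40368052015a0140074008800000200d800080024002022200080f0b83))))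 
(.lf (nat_lit 1346789410) (dlOf (nat_lit 23) (nat_lit 0x3183340009e04063c2ac031e143013a09d80bf033401a40ea001a01f000270601900ab00c8050c049827603020cd006903a8006807c0009a1801ec29a0004b0200f614d007b06c8001281003e0534003828400f40d900024830004066800110080cf05580680286026013b0190066803381d4003403e000430c033a156019e0a1809384ec064019a00ce075000d00f8001083001d853401ec19400f60c2007b053801c00500008214021029a00fc0d90078046802081f4000801001f029a01000d90029046802081f40007e1007b82ac03b214301c009d80cf84e4073419a011e09601e604280c801d400040e602dc0000001f0a00d70ab0067850c0007a0804782ac021414300ea09d807f0334010412c010a085008503a801e01cc000782001902ac00a214300580668000ec180088558029828601d80cd0001d0300eb0ab0070850c016c19a000390601ec15600ed0a18000e0100350558015c28600c80cd0001b8300420ab006a050c0006a0803ac2ac01c214300ea0668000cc1802d0008001000200620009000183)))) 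
(.nd (nat_lit 9) (.lf (nat_lit 3491127330) (dlOf (nat_lit 1) (nat_lit 0x120008060501))) 
(.lf (nat_lit 3491652130) (dlOf (nat_lit 1) (nat_lit 0x20018090d81))))) (.nd (nat_lit 19) 
(.nd (nat_lit 27) (.lf (nat_lit 2483445794) (dlOf (nat_lit 1) (nat_lit 0x600281d0a01))) 
(.lf (nat_lit 5838888994) (dlOf (nat_lit 2) (nat_lit 0x1700800000c0800880080004002002400081e0883)))) 
(.lf (nat_lit 1410228258) (dlOf (nat_lit 1) (nat_lit 0x6c00281b0001))))) (.nd (nat_lit 21) 
(.nd (nat_lit 27) 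
(.lf (nat_lit 805724578) (dlOf (nat_lit 2) (nat_lit 0xd0158010e604004c004000200081a0782))) 
(.lf (nat_lit 1476813218) (dlOf (nat_lit 1) (nat_lit 0x3e0018201001)))) (.nd (nat_lit 8) 
(.lf (nat_lit 1344693410) (dlOf (nat_lit 2) (nat_lit 0x18138000790200040028982b81))) 
(.lf (nat_lit 1346265506) (dlOf (nat_lit 1) (nat_lit 0x3400400060008e81002)))))))) 
(.nd (nat_lit 28) (.nd (nat_lit 20) (.nd (nat_lit 22) (.nd (nat_lit 26) (.nd (nat_lit 7) 
(.nd (nat_lit 18) 
(.lf (nat_lit 52650018) (dlOf (nat_lit 6) (nat_lit 0x4ba90003dc60002ee2f003b67500005c20052ba9002a1c600001104002ae3000008010011752000b38c00000808003dc60000020200200019560701))) 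
(.lf (nat_lit 2580514) (dlOf (nat_lit 1) (nat_lit 0x400200020008170a02)))) 
(.lf (nat_lit 227490) (dlOf (nat_lit 1) (nat_lit 0xe002800a881)))) (.nd (nat_lit 8) 
(.nd (nat_lit 9) (.nd (nat_lit 27) 
(.lf (nat_lit 604200994) (dlOf (nat_lit 37) (nat_lit 0x5101d80063c0802580ec002f804012c076001760204100000005a81004201e0002b40801a00f000158040234078000ab02000803c0005501009f01e0002a40802480f00015004031407800fc039000538200b001e0002980804f00f00014a04005408400aa03c0005202002d01e00028c0807000f000142040b400780018039000500200ce01e00027c0806180f00013c0403bc0780009d02015803c000088100a601e0000400802580f00001e0402d80780000d02015e03c000060100b801e003f00e4000160800100780000a02014203c000040100ad01e00001c0805200f00000c0400e4078009c0390000282002d01e0000100803a00f0000060402140780000202016c03c0000081003601e0000000802c80080050002000e0008080603))) 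
(.lf (nat_lit 4496515106) (dlOf (nat_lit 5) (nat_lit 0xec01a002500b80218024000ac0c009803801de00a0000b0200520050000440802300280002004063800400e200180b0b82)))) 
(.lf (nat_lit 3288556066) (dlOf (nat_lit 4) (nat_lit 0x38036001c0158005b01000b00d8008406800003040050036003101a000004100290008002800200060008090d83)))) 
(.nd (nat_lit 7) (.lf (nat_lit 3825426722) (dlOf (nat_lit 1) (nat_lit 0x800400020008154302))) 
(.lf (nat_lit 3288555938) (dlOf (nat_lit 5) (nat_lit 0x26805c00fc02d0028014001d101804680b801e005a0004011003a1830098017003e00b4000804e0073a0600e402e006b016801ce410080000800e800200900008090783)))))) 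
(.nd (nat_lit 19) (.nd (nat_lit 18) 
(.lf (nat_lit 12804130) (dlOf (nat_lit 1) (nat_lit 0x6c004018a00086e0a02))) (.nd (nat_lit 23) 
(.lf (nat_lit 2756141090) (dlOf (nat_lit 2) (nat_lit 0x204200007018200b80))) 
(.lf (nat_lit 13066274) (dlOf (nat_lit 2) (nat_lit 0x18c720018622000100286f0780))))) 
(.nd (nat_lit 7) 
(.lf (nat_lit 21717026) (dlOf (nat_lit 4) (nat_lit 0x3d839000780000000e0400440e40000601002e0a1800000080030008005800201300008a60b83))) 
(.nd (nat_lit 8) (.lf (nat_lit 48982690) (dlOf (nat_lit 1) (nat_lit 0x140019465601))) 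
(.lf (nat_lit 48982434) (dlOf (nat_lit 1) (nat_lit 0x400200020009464e82))))))) (.nd (nat_lit 18) 
(.nd (nat_lit 7) (.nd (nat_lit 8) 
(.lf (nat_lit 2752733218) (dlOf (nat_lit 2) (nat_lit 0x1a42ba000160200020008030981))) 
(.nd (nat_lit 9) (.lf (nat_lit 22241570) (dlOf (nat_lit 1) (nat_lit 0x400200020008ab7802))) 
(.lf (nat_lit 54225698) (dlOf (nat_lit 1) (nat_lit 0x9c00400080009655c02))))) (.nd (nat_lit 8) 
(.lf (nat_lit 20149922) (dlOf (nat_lit 1) (nat_lit 0x10002000800089d9f82))) 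
(.lf (nat_lit 39020962) (dlOf (nat_lit 1) (nat_lit 0x20019194e81))))) (.nd (nat_lit 19) 
(.nd (nat_lit 21) (.nd (nat_lit 23) (.nd (nat_lit 26) 
(.lf (nat_lit 1531938) (dlOf (nat_lit 1) (nat_lit 0x400080e0c01))) 
(.lf (nat_lit 2752995362) (dlOf (nat_lit 3) (nat_lit 0xfc2b80000602005615c00002818070680)))) 
(.lf (nat_lit 26697762) (dlOf (nat_lit 2) (nat_lit 0x2060e8006aebc008566e0040b16001f5408010a8a40085336003897b001f4bc000070480028008000400200020008c60603)))) 
(.lf (nat_lit 37183522) (dlOf (nat_lit 1) (nat_lit 0x400290b0181)))) (.nd (nat_lit 7) 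
(.nd (nat_lit 22) (.lf (nat_lit 2056226) (dlOf (nat_lit 1) (nat_lit 0x280008150001))) 
(.lf (nat_lit 14639138) (dlOf (nat_lit 1) (nat_lit 0x20018770181)))) 
(.lf (nat_lit 8349346) (dlOf (nat_lit 1) (nat_lit 0x2a0018513a81))))))) (.nd (nat_lit 31) 
(.nd (nat_lit 30) (.nd (nat_lit 7) (.nd (nat_lit 9) 
(.lf (nat_lit 472604706) (dlOf (nat_lit 4) (nat_lit 0xb8580005c138002808d001a03e801101f00004e1400242c0001209c000c03e800a81f00004c1000080fa001a07c00030158000481801b00080030002002600089c0183))) 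
(.lf (nat_lit 5167605282) (dlOf (nat_lit 2) (nat_lit 0xa0028000d80800080080014002000200080d3703)))) 
(.nd (nat_lit 9) 
(.lf (nat_lit 474177698) (dlOf (nat_lit 6) (nat_lit 0x12152000f0a7800603dc000940c00382a4001a14f000d07b800181fc000861000342a4001c14f001107b80010418007846400080000003f04000215200010a78000ec1000100080028002000600090e0583))) 
(.lf (nat_lit 805531298) (dlOf (nat_lit 2) (nat_lit 0x5021000030080020008001000200080008117203))))) 
(.nd (nat_lit 18) (.nd (nat_lit 19) 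
(.lf (nat_lit 1343447074) (dlOf (nat_lit 1) (nat_lit 0x40018240681))) 
(.lf (nat_lit 1345019938) (dlOf (nat_lit 6) (nat_lit 0x70b3004602f40002e08004417a000150200e20bd000098100030b30000440803c02f400000040014004002200089d0702)))) 
(.nd (nat_lit 7) 
(.lf (nat_lit 1879531554) (dlOf (nat_lit 2) (nat_lit 0x5c04800340000000e0281a0600))) 
(.lf (nat_lit 5772371106) (dlOf (nat_lit 1) (nat_lit 0x14002001c0008092b82)))))) (.nd (nat_lit 26) 
(.nd (nat_lit 20) (.nd (nat_lit 7) (.nd (nat_lit 18) 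
(.lf (nat_lit 2953011234) (dlOf (nat_lit 32) (nat_lit 0x5200e0002dc0806a80700016c0402f005c0520028025300f00ca80740df4038085c01b03fe00c816a006004d802a01080130128009005e803802d401608c8004049200181ec800400f0000000b522005601c0005901006b00e0002c00800c00700015e040008028004c0000005682000b00a0007000000158080008000000ab02008a0000005501001200a00998000001520805f0000000a8020092014017800000029c1000c8050001c000000a60400460000005281003b00a000290080720050039c000000a104001e0000004f81011c0000002780807280000013a04001c0000009a0200e60000000881006500e00048000000160802c400000008020070000000038100230000000180802e007000e40000000504011601c00080000000101001a0000000040400280000000102015201c007900000000010e5000082074002044a0008080603))) 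
(.lf (nat_lit 3494338594) (dlOf (nat_lit 2) (nat_lit 0x204200007018200b80)))) 
(.lf (nat_lit 2550358434) (dlOf (nat_lit 1) (nat_lit 0x40028090781)))) (.nd (nat_lit 19) 
(.lf (nat_lit 3490930722) (dlOf (nat_lit 2) (nat_lit 0x1a42b0000160200020008030981))) 
(.lf (nat_lit 3491455010) (dlOf (nat_lit 1) (nat_lit 0x8008000400200020008090003))))) 
(.nd (nat_lit 19) (.nd (nat_lit 18) 
(.lf (nat_lit 3691208738) (dlOf (nat_lit 2) (nat_lit 0x10b00e80558070001ca08019400400f600080a0602))) 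
(.lf (nat_lit 3557253154) (dlOf (nat_lit 2) (nat_lit 0x940ec004e0700024037001201ac00940be005805c002402d0012015c00900a4004a04f002402600128100009007a0048035002401880120060002402e004a0110025002801200000003850000400400300018180602)))) 
(.nd (nat_lit 20) (.lf (nat_lit 3154862114) (dlOf (nat_lit 1) (nat_lit 0x4800400200008350582))) 
(.lf (nat_lit 4095434786) (dlOf (nat_lit 2) (nat_lit 0x7014a000205e000178280b0b80))))))))))) 
(.nd (nat_lit 17) (.nd (nat_lit 18) (.nd (nat_lit 5) (.nd (nat_lit 8) (.nd (nat_lit 19) 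
(.nd (nat_lit 10) (.nd (nat_lit 9) (.nd (nat_lit 20) (.nd (nat_lit 16) 
(.lf (nat_lit 46161986) (dlOf (nat_lit 1) (nat_lit 0x2000400680009380002))) 
(.lf (nat_lit 6442541122) (dlOf (nat_lit 1) (nat_lit 0x80080004002000200080a0e03)))) 
(.nd (nat_lit 26) (.lf (nat_lit 3490799682) (dlOf (nat_lit 1) (nat_lit 0x60008020781))) 
(.lf (nat_lit 2752602178) (dlOf (nat_lit 1) (nat_lit 0x60008020781))))) (.nd (nat_lit 7) 
(.nd (nat_lit 12) (.lf (nat_lit 31550018) (dlOf (nat_lit 1) (nat_lit 0x800400040018e95202))) 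
(.lf (nat_lit 201357890) (dlOf (nat_lit 2) (nat_lit 0x1400a00030020002000800b501)))) 
(.lf (nat_lit 2952821442) (dlOf (nat_lit 2) (nat_lit 0xbc0130051a81800b980))))) (.nd (nat_lit 11) 
(.nd (nat_lit 27) (.nd (nat_lit 7) 
(.lf (nat_lit 1610703938) (dlOf (nat_lit 1) (nat_lit 0x988008015400202a80008092883))) 
(.lf (nat_lit 36791490) (dlOf (nat_lit 1) (nat_lit 0x920029072d01)))) (.nd (nat_lit 31) 
(.lf (nat_lit 939615298) (dlOf (nat_lit 1) (nat_lit 0x800400020008142882))) 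
(.lf (nat_lit 3087098946) (dlOf (nat_lit 1) (nat_lit 0x800400020008142882))))) (.nd (nat_lit 7) 
(.nd (nat_lit 9) (.lf (nat_lit 1946184770) (dlOf (nat_lit 1) (nat_lit 0xd20018006081))) 
(.lf (nat_lit 28226) (dlOf (nat_lit 1) (nat_lit 0x20008007181)))) 
(.lf (nat_lit 27842) (dlOf (nat_lit 1) (nat_lit 0x20028006381)))))) (.nd (nat_lit 26) 
(.nd (nat_lit 9) (.nd (nat_lit 20) (.nd (nat_lit 23) (.nd (nat_lit 29) 
(.lf (nat_lit 3221839938) (dlOf (nat_lit 3) (nat_lit 0x8c08c0001c02005a0460000d8181a1400))) 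
(.lf (nat_lit 537485378) (dlOf (nat_lit 2) (nat_lit 0x3a0258000800801e80080074002000c00080a0d03)))) 
(.lf (nat_lit 42557506) (dlOf (nat_lit 1) (nat_lit 0x40009260601)))) 
(.lf (nat_lit 3760194) (dlOf (nat_lit 4) (nat_lit 0x58990000290200104c90000601000226380002c0800100080004002001c0008220d03)))) 
(.nd (nat_lit 11) 
(.lf (nat_lit 3491324482) (dlOf (nat_lit 2) (nat_lit 0xa608d00002404001400400380018091082))) 
(.nd (nat_lit 20) (.lf (nat_lit 38300226) (dlOf (nat_lit 2) (nat_lit 0x8f700005f0200100009135201))) 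
(.lf (nat_lit 51931714) (dlOf (nat_lit 1) (nat_lit 0x80029515201)))))) (.nd (nat_lit 30) 
(.nd (nat_lit 9) (.nd (nat_lit 16) 
(.lf (nat_lit 4362625090) (dlOf (nat_lit 1) (nat_lit 0x110002005600080b0d02))) 
(.lf (nat_lit 2754175042) (dlOf (nat_lit 2) (nat_lit 0x3e1f9000ab0180c1880)))) 
(.lf (nat_lit 2753126978) (dlOf (nat_lit 2) (nat_lit 0xa609300002204001400400380018091082)))) 
(.nd (nat_lit 16) (.lf (nat_lit 4228407362) (dlOf (nat_lit 1) (nat_lit 0x110002005600080b0d02))) 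
(.nd (nat_lit 21) 
(.lf (nat_lit 3960037442) (dlOf (nat_lit 4) (nat_lit 0x5c08a0005502002e0450002a010024023000144080100008002000200b400081a1883))) 
(.lf (nat_lit 4096352322) (dlOf (nat_lit 1) (nat_lit 0x140018100581)))))))) (.nd (nat_lit 26) 
(.nd (nat_lit 30) (.nd (nat_lit 10) (.nd (nat_lit 7) (.nd (nat_lit 28) 
(.lf (nat_lit 671181122) (dlOf (nat_lit 1) (nat_lit 0x7c00400280008144d02))) 
(.lf (nat_lit 939616578) (dlOf (nat_lit 1) (nat_lit 0x4400400020018144d02)))) 
(.lf (nat_lit 58220994) (dlOf (nat_lit 1) (nat_lit 0x80002001a00097c7002)))) (.nd (nat_lit 9) 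
(.nd (nat_lit 11) (.lf (nat_lit 2952820034) (dlOf (nat_lit 1) (nat_lit 0xe0008009901))) 
(.lf (nat_lit 134249794) (dlOf (nat_lit 4) (nat_lit 0xe00ec006006c004e904002a0360026c01000201b000fe408006800800a80020002000800c903)))) 
(.lf (nat_lit 8415042) (dlOf (nat_lit 1) (nat_lit 0x400400020008513e02))))) (.nd (nat_lit 7) 
(.nd (nat_lit 19) (.nd (nat_lit 10) 
(.lf (nat_lit 3493880130) (dlOf (nat_lit 6) (nat_lit 0x7c060000174080450300000b8040038180000580200220bf0002481002905f80011c0800700080070002004a00081b0603))) 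
(.lf (nat_lit 5773485378) (dlOf (nat_lit 1) (nat_lit 0x1400280e3301)))) (.nd (nat_lit 16) 
(.lf (nat_lit 1074291010) (dlOf (nat_lit 3) (nat_lit 0x5500000010808016800000080040004002000400081b0602))) 
(.lf (nat_lit 1342792002) (dlOf (nat_lit 6) (nat_lit 0x708cc0178462000822d00281150001302003008c400a44540004b04004c23100024010058119801a08b4008c45400041f30002004002e1118000b80800b000801e0002000600080c0603))))) 
(.nd (nat_lit 16) 
(.lf (nat_lit 1342726594) (dlOf (nat_lit 6) (nat_lit 0x1405500009c04009c2a80004d02004e154000218100340aa0000f80800385500006e040014004005400080c0902))) 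
(.lf (nat_lit 3491324354) (dlOf (nat_lit 5) (nat_lit 0x3d0468000270202242340001301005811a0000880800088d00000004002c00400120008090902)))))) 
(.nd (nat_lit 16) (.nd (nat_lit 19) (.nd (nat_lit 7) (.nd (nat_lit 10) 
(.lf (nat_lit 2755682626) (dlOf (nat_lit 3) (nat_lit 0x32108801885a401142a40002c0600d821100690a98000a8100040008002c002001000081b0603))) 
(.lf (nat_lit 469792066) (dlOf (nat_lit 4) (nat_lit 0x408e001f6810002047000fac080010238007b004000400400020008009902)))) 
(.lf (nat_lit 469792194) (dlOf (nat_lit 1) (nat_lit 0x40028009a01)))) (.nd (nat_lit 7) 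
(.nd (nat_lit 28) (.lf (nat_lit 604528962) (dlOf (nat_lit 1) (nat_lit 0x8004000e00082f8702))) 
(.lf (nat_lit 1946706242) (dlOf (nat_lit 3) (nat_lit 0x550000001240801680000008e040004002000400081b0602)))) 
(.lf (nat_lit 470311362) (dlOf (nat_lit 6) (nat_lit 0x1405500009c04009c2a80004d02004e154000218100340aa0000f80800385500006e040014004005400080c0902))))) 
(.nd (nat_lit 27) (.nd (nat_lit 7) (.nd (nat_lit 10) 
(.lf (nat_lit 2483118402) (dlOf (nat_lit 1) (nat_lit 0xe8008001c00200180008014c03))) 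
(.lf (nat_lit 4093732162) (dlOf (nat_lit 1) (nat_lit 0x800200020008003302)))) 
(.lf (nat_lit 2753126850) (dlOf (nat_lit 5) (nat_lit 0x3d04980002702022424c000130100581260000880800089300000004002c00400120008090902)))) 
(.nd (nat_lit 28) (.nd (nat_lit 7) 
(.lf (nat_lit 2348900674) (dlOf (nat_lit 1) (nat_lit 0xe8008001c00200180008014c03))) 
(.lf (nat_lit 738290114) (dlOf (nat_lit 1) (nat_lit 0x98008000800200020008094e83)))) 
(.nd (nat_lit 9) 
(.lf (nat_lit 470376770) (dlOf (nat_lit 6) (nat_lit 0x708cc0178462000822d002811500014c2003008c400a44540005204004c23100027810058119801a08b4008c45400041f20002384002e10f8000a00800b000801e0002000600080c0603))) 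
(.lf (nat_lit 469854018) (dlOf (nat_lit 3) (nat_lit 0x304a0000c80800789300005a04001c00200040008003e02))))))))) 
(.nd (nat_lit 8) (.nd (nat_lit 28) (.nd (nat_lit 7) (.nd (nat_lit 10) (.nd (nat_lit 16) 
(.lf (nat_lit 3221774434) (dlOf (nat_lit 4) (nat_lit 0x7a047000070100560238000340801c80bc0000604000400400100008181382))) 
(.nd (nat_lit 19) 
(.lf (nat_lit 47276130) (dlOf (nat_lit 5) (nat_lit 0x76930003b4600035a08000ebf6018650800076930001b4600035a08000ebf60186408000f6930002b4600055a080012bf60186308000f6930009b41000457ec030c40c0008002000800093c0782))) 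
(.lf (nat_lit 537485410) (dlOf (nat_lit 1) (nat_lit 0xc00180a1281))))) (.nd (nat_lit 11) 
(.nd (nat_lit 19) (.lf (nat_lit 62940258) (dlOf (nat_lit 1) (nat_lit 0x1800299a2981))) 
(.lf (nat_lit 38298722) (dlOf (nat_lit 1) (nat_lit 0x400200020009132982)))) 
(.lf (nat_lit 604011618) (dlOf (nat_lit 10) (nat_lit 0x16c02c00b20070035003001a0000000ba10012802c0092007003500300150000000b81000600300042016001c003800480180044000000510a004a018002f00b0014801c006c00c00800010014000000140300278058013000e00620000002603004300b001f801c00880000004a060066016003300380012010013005800a000e00700000002103000800b0026801c0007a080060004028c000800c002))))) 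
(.nd (nat_lit 24) (.nd (nat_lit 11) (.nd (nat_lit 16) 
(.lf (nat_lit 46162146) (dlOf (nat_lit 1) (nat_lit 0x2b80080004002008c0009380a83))) 
(.lf (nat_lit 67723490) (dlOf (nat_lit 2) (nat_lit 0x2088000a03f400054080004004000200182d0582)))) 
(.nd (nat_lit 10) (.lf (nat_lit 671181026) (dlOf (nat_lit 1) (nat_lit 0x18004001a0008144b02))) 
(.lf (nat_lit 617698) (dlOf (nat_lit 1) (nat_lit 0x38008009400200220008006503))))) 
(.nd (nat_lit 20) (.nd (nat_lit 16) 
(.lf (nat_lit 17326306) (dlOf (nat_lit 3) (nat_lit 0x172588000840802f12c40003a04000c004000800088e0582))) 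
(.lf (nat_lit 18964706) (dlOf (nat_lit 2) (nat_lit 0x4b2318000a8080008008000c00200080008970583)))) 
(.nd (nat_lit 9) (.lf (nat_lit 30499042) (dlOf (nat_lit 2) (nat_lit 0x1600000015018e30580))) 
(.lf (nat_lit 20019938) (dlOf (nat_lit 1) (nat_lit 0x4004000200189db982))))))) (.nd (nat_lit 26) 
(.nd (nat_lit 11) (.nd (nat_lit 9) (.nd (nat_lit 19) 
(.lf (nat_lit 1344299106) (dlOf (nat_lit 1) (nat_lit 0x1800186b0481))) 
(.lf (nat_lit 1343774818) (dlOf (nat_lit 1) (nat_lit 0xe0018370481)))) (.nd (nat_lit 10) 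
(.lf (nat_lit 1476424290) (dlOf (nat_lit 2) (nat_lit 0xa03c004cb818008980))) 
(.lf (nat_lit 4697712226) (dlOf (nat_lit 1) (nat_lit 0x20028093901))))) (.nd (nat_lit 10) 
(.nd (nat_lit 12) 
(.lf (nat_lit 3623905378) (dlOf (nat_lit 1) (nat_lit 0x10008001000200080008004703))) 
(.lf (nat_lit 3623909474) (dlOf (nat_lit 2) (nat_lit 0x7018000400bc001005c001202d000a00280058008001c000001400e0024002800a801)))) 
(.lf (nat_lit 2952821858) (dlOf (nat_lit 10) (nat_lit 0x3e0130002f81000900c005d004c000ba0802d80260005c02019c0130002a81000801700170078058c03401f001300080090009803c0014012000e008003a00100048000000a828000405c007a01e015200d0024805c04680260022011001800780130030002001000200050020001002d8000000a63002f00260005102016c013000280100c000980013008074000801f8002064e000800c003))))) 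
(.nd (nat_lit 7) (.nd (nat_lit 9) 
(.lf (nat_lit 469793890) (dlOf (nat_lit 14) (nat_lit 0x800140003381005a00a00019808033027400c80fc0005804005a09d0002b81026104e812e023807080fc0004e0604be09d025b04700e081f80009a0c030c13a036208e014c03f000130180c58238000940403b413a02c608e0002402003404e801302380008c0800b413a000420204e609d026c04700ea81f80007a0c085813a042c08e022203f0000001803700080e2c00203de000800c003))) 
(.nd (nat_lit 10) (.lf (nat_lit 6376417890) (dlOf (nat_lit 1) (nat_lit 0x1000400020008095382))) 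
(.lf (nat_lit 4630537826) (dlOf (nat_lit 1) (nat_lit 0x7e0018003901))))) (.nd (nat_lit 10) 
(.nd (nat_lit 16) (.lf (nat_lit 471359714) (dlOf (nat_lit 1) (nat_lit 0x1c00082e0581))) 
(.lf (nat_lit 471949538) (dlOf (nat_lit 2) (nat_lit 0x5e00000015018740580)))) 
(.lf (nat_lit 6241215714) (dlOf (nat_lit 3) (nat_lit 0x1601200013810003009000098080118008003000200100008052e03))))))) 
(.nd (nat_lit 9) (.nd (nat_lit 27) (.nd (nat_lit 16) (.nd (nat_lit 11) (.nd (nat_lit 26) 
(.lf (nat_lit 3493880162) (dlOf (nat_lit 2) (nat_lit 0x2120600000bc0800800080144002001000081b0703))) 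
(.lf (nat_lit 2755682658) (dlOf (nat_lit 1) (nat_lit 0xe00081b0701)))) (.nd (nat_lit 10) 
(.lf (nat_lit 1409313122) (dlOf (nat_lit 1) (nat_lit 0x48008000400200040008004e83))) 
(.lf (nat_lit 3490213218) (dlOf (nat_lit 1) (nat_lit 0x400200020008006a82))))) (.nd (nat_lit 10) 
(.nd (nat_lit 20) 
(.lf (nat_lit 2755748194) (dlOf (nat_lit 1) (nat_lit 0x200080058002000c00081b0703))) 
(.lf (nat_lit 3236194) (dlOf (nat_lit 2) (nat_lit 0x24f80000a818200700)))) 
(.lf (nat_lit 1611228514) (dlOf (nat_lit 1) (nat_lit 0x80080004002000c0008123403))))) 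
(.nd (nat_lit 10) (.nd (nat_lit 11) 
(.lf (nat_lit 1476424034) (dlOf (nat_lit 1) (nat_lit 0x20018008381))) (.nd (nat_lit 26) 
(.lf (nat_lit 1744922978) (dlOf (nat_lit 1) (nat_lit 0x60028094e81))) 
(.lf (nat_lit 1543596386) (dlOf (nat_lit 2) (nat_lit 0x3805c0284604002c00200240008144e82))))) 
(.nd (nat_lit 19) (.nd (nat_lit 21) 
(.lf (nat_lit 2818663778) (dlOf (nat_lit 4) (nat_lit 0x28054000401c000400c0006003000180000006614001800c0003102000400e000100300018000000000c004c004001600180d3402))) 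
(.lf (nat_lit 5773550946) (dlOf (nat_lit 1) (nat_lit 0x200280e3401)))) 
(.lf (nat_lit 738813282) (dlOf (nat_lit 2) (nat_lit 0x404100014018123400)))))) (.nd (nat_lit 10) 
(.nd (nat_lit 7) (.nd (nat_lit 11) (.nd (nat_lit 28) 
(.lf (nat_lit 6039827298) (dlOf (nat_lit 2) (nat_lit 0x2004002a2818008f80))) 
(.lf (nat_lit 4160779106) (dlOf (nat_lit 1) (nat_lit 0x2000400540008008f82)))) 
(.lf (nat_lit 20015970) (dlOf (nat_lit 1) (nat_lit 0x4002000200089d5c02)))) (.nd (nat_lit 27) 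
(.lf (nat_lit 4899038178) (dlOf (nat_lit 1) (nat_lit 0x80018052881))) 
(.lf (nat_lit 469853154) (dlOf (nat_lit 1) (nat_lit 0xa0028002881))))) (.nd (nat_lit 12) 
(.nd (nat_lit 26) (.lf (nat_lit 939616226) (dlOf (nat_lit 1) (nat_lit 0x400400020008144582))) 
(.nd (nat_lit 27) (.lf (nat_lit 4362168290) (dlOf (nat_lit 1) (nat_lit 0x5a0018004581))) 
(.lf (nat_lit 469854178) (dlOf (nat_lit 1) (nat_lit 0x4a0018004581))))) (.nd (nat_lit 7) 
(.lf (nat_lit 7960418) (dlOf (nat_lit 1) (nat_lit 0x2001851a301))) (.nd (nat_lit 16) 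
(.lf (nat_lit 8419298) (dlOf (nat_lit 1) (nat_lit 0x4001851a601))) 
(.lf (nat_lit 96226) (dlOf (nat_lit 2) (nat_lit 0x8816a002ad81800a600)))))))))) (.nd (nat_lit 7) 
(.nd (nat_lit 26) (.nd (nat_lit 19) (.nd (nat_lit 30) (.nd (nat_lit 16) (.nd (nat_lit 5) 
(.nd (nat_lit 8) (.nd (nat_lit 20) 
(.lf (nat_lit 537157698) (dlOf (nat_lit 9) (nat_lit 0x1f02d8008816800800b00040057001f02b0010013800800780040037002d011801100880080040001001f000c0070000f06800f81500005e0401400a80002c0200a00540001481000302c000074080280150000320400200b00000e020002057005002a00300114000000c00dc00200e20008030e02))) 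
(.lf (nat_lit 22306882) (dlOf (nat_lit 3) (nat_lit 0xabe5001170100075f2800000080080008000800200060008ac0d83)))) 
(.lf (nat_lit 50619714) (dlOf (nat_lit 2) (nat_lit 0x35bc8000a80800080080004002000200094c3303)))) 
(.nd (nat_lit 10) (.lf (nat_lit 62152802) (dlOf (nat_lit 1) (nat_lit 0x1e0029960781))) 
(.lf (nat_lit 53765218) (dlOf (nat_lit 1) (nat_lit 0x4002000200095f2982))))) (.nd (nat_lit 21) 
(.nd (nat_lit 5) (.lf (nat_lit 1400898) (dlOf (nat_lit 1) (nat_lit 0x4002000200080c0e02))) 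
(.lf (nat_lit 38102114) (dlOf (nat_lit 1) (nat_lit 0x160009132981)))) (.nd (nat_lit 8) 
(.lf (nat_lit 24469570) (dlOf (nat_lit 1) (nat_lit 0x80080014002000a0008ba0d03))) 
(.lf (nat_lit 58024258) (dlOf (nat_lit 3) (nat_lit 0x7a320013a4080035190009b004001c002000200097b8702)))))) 
(.nd (nat_lit 28) (.nd (nat_lit 27) (.nd (nat_lit 9) (.nd (nat_lit 8) 
(.lf (nat_lit 5368995906) (dlOf (nat_lit 1) (nat_lit 0x70002001e00080b0582))) 
(.lf (nat_lit 3221512514) (dlOf (nat_lit 2) (nat_lit 0x40450025d018124c00)))) (.nd (nat_lit 29) 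
(.lf (nat_lit 1074029122) (dlOf (nat_lit 1) (nat_lit 0x40028091081))) 
(.lf (nat_lit 5905867330) (dlOf (nat_lit 1) (nat_lit 0x60018158c81))))) (.nd (nat_lit 5) 
(.nd (nat_lit 16) (.lf (nat_lit 5503213634) (dlOf (nat_lit 1) (nat_lit 0x70002001e00080b0582))) 
(.lf (nat_lit 3892666434) (dlOf (nat_lit 2) (nat_lit 0x90056000180200060008180581)))) 
(.lf (nat_lit 1208246370) (dlOf (nat_lit 2) (nat_lit 0x30148062940800200080004002000400080a1983))))) 
(.nd (nat_lit 8) (.nd (nat_lit 5) (.nd (nat_lit 32) 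
(.lf (nat_lit 1342464066) (dlOf (nat_lit 4) (nat_lit 0x550e3803186f40002c0800b838e004e1bd0000a8200010f200110748005c39000c21c700290e3003786f40034378005017c000d0bc800000480098008009c00200140008030e03))) 
(.lf (nat_lit 5637431362) (dlOf (nat_lit 1) (nat_lit 0x4004000200080e1682)))) 
(.lf (nat_lit 1344562274) (dlOf (nat_lit 1) (nat_lit 0x60008862981)))) (.nd (nat_lit 20) 
(.lf (nat_lit 3494142274) (dlOf (nat_lit 2) (nat_lit 0x1ec07e0005602000600181b0601))) 
(.lf (nat_lit 3490996546) (dlOf (nat_lit 1) (nat_lit 0x20008047f01))))))) (.nd (nat_lit 21) 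
(.nd (nat_lit 5) (.nd (nat_lit 8) (.nd (nat_lit 16) 
(.lf (nat_lit 10248258) (dlOf (nat_lit 1) (nat_lit 0x80080004002000200085c0e03))) 
(.lf (nat_lit 21848130) (dlOf (nat_lit 1) (nat_lit 0x20008009800200060008a70783)))) 
(.lf (nat_lit 135029058) (dlOf (nat_lit 2) (nat_lit 0x2e8000000440400f8002002600081b0602)))) 
(.nd (nat_lit 10) (.nd (nat_lit 8) 
(.lf (nat_lit 17588322) (dlOf (nat_lit 1) (nat_lit 0x200188e0481))) 
(.lf (nat_lit 135029090) (dlOf (nat_lit 1) (nat_lit 0x2f800800ec002001400081b0703)))) 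
(.nd (nat_lit 24) (.lf (nat_lit 38560866) (dlOf (nat_lit 1) (nat_lit 0x400200020009132982))) 
(.lf (nat_lit 55338082) (dlOf (nat_lit 1) (nat_lit 0x8004000400096d2982)))))) (.nd (nat_lit 8) 
(.nd (nat_lit 9) (.nd (nat_lit 5) 
(.lf (nat_lit 1346134082) (dlOf (nat_lit 1) (nat_lit 0x8008000400200020008e60603))) 
(.lf (nat_lit 44917858) (dlOf (nat_lit 1) (nat_lit 0x60009322981)))) (.nd (nat_lit 22) 
(.lf (nat_lit 1345153602) (dlOf (nat_lit 1) (nat_lit 0x20028aa5201))) 
(.lf (nat_lit 32336450) (dlOf (nat_lit 1) (nat_lit 0x400200040008ef5202))))) (.nd (nat_lit 10) 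
(.lf (nat_lit 8218946) (dlOf (nat_lit 1) (nat_lit 0x40018514d01))) (.nd (nat_lit 12) 
(.lf (nat_lit 40658242) (dlOf (nat_lit 1) (nat_lit 0x600291f3301))) 
(.lf (nat_lit 19756354) (dlOf (nat_lit 1) (nat_lit 0xc00289d9901)))))))) (.nd (nat_lit 8) 
(.nd (nat_lit 28) (.nd (nat_lit 29) (.nd (nat_lit 27) (.nd (nat_lit 5) 
(.lf (nat_lit 67395650) (dlOf (nat_lit 1) (nat_lit 0xb8002003800080f0582))) 
(.lf (nat_lit 67925602) (dlOf (nat_lit 1) (nat_lit 0xe0028339c01)))) (.nd (nat_lit 16) 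
(.lf (nat_lit 2349097026) (dlOf (nat_lit 2) (nat_lit 0xb00880004004000c004000400080a0d02))) 
(.lf (nat_lit 4496646210) (dlOf (nat_lit 1) (nat_lit 0x400400020008100582))))) (.nd (nat_lit 5) 
(.nd (nat_lit 11) 
(.lf (nat_lit 2753847362) (dlOf (nat_lit 2) (nat_lit 0xc822000040040058004004e00080a0d02))) 
(.lf (nat_lit 2751756354) (dlOf (nat_lit 1) (nat_lit 0x2002800a681)))) 
(.lf (nat_lit 4899299426) (dlOf (nat_lit 1) (nat_lit 0x20028100781))))) (.nd (nat_lit 9) 
(.nd (nat_lit 27) (.nd (nat_lit 30) 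
(.lf (nat_lit 2483314754) (dlOf (nat_lit 1) (nat_lit 0x8004000200080a0e02))) 
(.lf (nat_lit 1409572930) (dlOf (nat_lit 9) (nat_lit 0x1f02d8008816800800b00040057001f02b0010013800800780040037002d011801100880080040001001f000c0070000f06802801500005e04007c0a80002c0200a00540001481000302c000078080280150000320400200b00000e020002057005002a00300108000000c00dc00200e20008030e02)))) 
(.lf (nat_lit 470048834) (dlOf (nat_lit 4) (nat_lit 0x550e3803186f40002e0800b838e004e1bd0000b0200010f200110748005c39000c21c700290e3003786f400343780050186000d0c1000000480098008009c00200140008030e03)))) 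
(.nd (nat_lit 11) (.lf (nat_lit 1946444354) (dlOf (nat_lit 1) (nat_lit 0x40028091081))) 
(.lf (nat_lit 473197122) (dlOf (nat_lit 2) (nat_lit 0x2003340005a04000400400160018d75202)))))) 
(.nd (nat_lit 19) (.nd (nat_lit 27) (.nd (nat_lit 9) (.nd (nat_lit 11) 
(.lf (nat_lit 2755944770) (dlOf (nat_lit 2) (nat_lit 0x1b01980009e04000c002000400081b0602))) 
(.lf (nat_lit 2751752514) (dlOf (nat_lit 2) (nat_lit 0x1503c80001c080038008002c00200020008004d03)))) 
(.lf (nat_lit 2483382082) (dlOf (nat_lit 4) (nat_lit 0x200d00084066000403100130160000d82002500d0018806600a603100550160000b82000500d000e406600aa03100490160000b42000080080140002001400080f3e03)))) 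
(.nd (nat_lit 28) (.nd (nat_lit 5) 
(.lf (nat_lit 3959710018) (dlOf (nat_lit 2) (nat_lit 0x404500527818124c00))) 
(.lf (nat_lit 2349169506) (dlOf (nat_lit 2) (nat_lit 0x1007002bb80800b80080120002007000080fbc83)))) 
(.nd (nat_lit 10) (.lf (nat_lit 2080661826) (dlOf (nat_lit 1) (nat_lit 0x200080a5f81))) 
(.lf (nat_lit 5301888322) (dlOf (nat_lit 3) (nat_lit 0xc0088000ac0800080c400050040010004001200080e3302)))))) 
(.nd (nat_lit 5) (.nd (nat_lit 27) 
(.lf (nat_lit 4362887490) (dlOf (nat_lit 2) (nat_lit 0x38000000000080018008008c002002400081a0603))) 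
(.nd (nat_lit 28) 
(.lf (nat_lit 202137922) (dlOf (nat_lit 2) (nat_lit 0x2e8000000440400f8002002600081b0602))) 
(.lf (nat_lit 4228669762) (dlOf (nat_lit 2) (nat_lit 0x38000000000080018008008c002002400081a0603))))) 
(.nd (nat_lit 11) 
(.lf (nat_lit 202137954) (dlOf (nat_lit 1) (nat_lit 0x2f800800ec002001400081b0703))) 
(.lf (nat_lit 4094454114) (dlOf (nat_lit 1) (nat_lit 0x400400020008054e82)))))))) (.nd (nat_lit 16) 
(.nd (nat_lit 19) (.nd (nat_lit 10) (.nd (nat_lit 8) (.nd (nat_lit 5) 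
(.lf (nat_lit 40135362) (dlOf (nat_lit 1) (nat_lit 0xe00191f5801))) (.nd (nat_lit 20) 
(.lf (nat_lit 4697907426) (dlOf (nat_lit 8) (nat_lit 0xe01a0000680800280d0001c064000e01f0000c83000201a000300c8001803e0001806000c032000400f80002c1000300d00024064000e01f0000503000401a000400c8001c03e0000906000a03400070190003807c000100c0124004006400080c1b02))) 
(.lf (nat_lit 68444386) (dlOf (nat_lit 2) (nat_lit 0x2608300015018570580))))) (.nd (nat_lit 9) 
(.lf (nat_lit 3221512674) (dlOf (nat_lit 3) (nat_lit 0x3001c0002202000600e0000e018127300))) 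
(.lf (nat_lit 1141138402) (dlOf (nat_lit 1) (nat_lit 0xa0028122881))))) (.nd (nat_lit 5) 
(.nd (nat_lit 11) (.nd (nat_lit 21) 
(.lf (nat_lit 59008194) (dlOf (nat_lit 1) (nat_lit 0x5c002008600097e2d02))) 
(.lf (nat_lit 69493954) (dlOf (nat_lit 1) (nat_lit 0x8008000c00200020008a82d03)))) 
(.lf (nat_lit 3624168642) (dlOf (nat_lit 1) (nat_lit 0xe0028146381)))) (.nd (nat_lit 8) 
(.lf (nat_lit 43279586) (dlOf (nat_lit 1) (nat_lit 0x400292a2e01))) 
(.lf (nat_lit 2818864610) (dlOf (nat_lit 1) (nat_lit 0x1680008129b01)))))) (.nd (nat_lit 5) 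
(.nd (nat_lit 10) (.nd (nat_lit 8) 
(.lf (nat_lit 8153282) (dlOf (nat_lit 1) (nat_lit 0x160018514981))) 
(.lf (nat_lit 20736962) (dlOf (nat_lit 1) (nat_lit 0x8004000200089d5d82)))) (.nd (nat_lit 11) 
(.lf (nat_lit 55338178) (dlOf (nat_lit 1) (nat_lit 0x400096d2d01))) 
(.lf (nat_lit 20737218) (dlOf (nat_lit 1) (nat_lit 0x4004000c00089d6382))))) (.nd (nat_lit 8) 
(.nd (nat_lit 9) (.nd (nat_lit 22) 
(.lf (nat_lit 1007444194) (dlOf (nat_lit 2) (nat_lit 0x4f82080005404001000200040008370582))) 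
(.lf (nat_lit 30171362) (dlOf (nat_lit 1) (nat_lit 0x1000400040008e30582)))) 
(.lf (nat_lit 8155874) (dlOf (nat_lit 1) (nat_lit 0x400200020008518c82)))) (.nd (nat_lit 21) 
(.lf (nat_lit 2752275426) (dlOf (nat_lit 1) (nat_lit 0x580080004002000e0008002883))) 
(.lf (nat_lit 36463586) (dlOf (nat_lit 1) (nat_lit 0x20019072881))))))) (.nd (nat_lit 5) 
(.nd (nat_lit 10) (.nd (nat_lit 8) (.nd (nat_lit 9) (.nd (nat_lit 20) 
(.lf (nat_lit 5637497026) (dlOf (nat_lit 1) (nat_lit 0x3e00280f1701))) 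
(.lf (nat_lit 13983938) (dlOf (nat_lit 1) (nat_lit 0x680080024002000e0008750403)))) 
(.lf (nat_lit 19757762) (dlOf (nat_lit 1) (nat_lit 0x200189db981)))) (.nd (nat_lit 20) 
(.lf (nat_lit 2349169602) (dlOf (nat_lit 2) (nat_lit 0xc0150008380800a00080074002001200080fbe03))) 
(.lf (nat_lit 2754968514) (dlOf (nat_lit 1) (nat_lit 0x4002000200080fbe02))))) (.nd (nat_lit 12) 
(.nd (nat_lit 20) (.nd (nat_lit 21) 
(.lf (nat_lit 42296514) (dlOf (nat_lit 1) (nat_lit 0x40019242d01))) 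
(.lf (nat_lit 31810754) (dlOf (nat_lit 1) (nat_lit 0x400200020008e92d02)))) 
(.lf (nat_lit 47539394) (dlOf (nat_lit 1) (nat_lit 0x20019402d01)))) (.nd (nat_lit 8) 
(.lf (nat_lit 358082) (dlOf (nat_lit 1) (nat_lit 0x800800040020002000800a003))) 
(.lf (nat_lit 19756482) (dlOf (nat_lit 1) (nat_lit 0x200189d9a01)))))) (.nd (nat_lit 19) 
(.nd (nat_lit 21) (.nd (nat_lit 8) (.nd (nat_lit 26) 
(.lf (nat_lit 2953142498) (dlOf (nat_lit 19) (nat_lit 0x14802600a4005000230200f7015005d0060061c026032c0050002284018500980ca00140008808003c026003e0050002182009e017006f80b0036805401c802900a300f005e0068032c030014801300d4008806280140398004002400100f50000001086803a80b80350058006c02b00f0015007e00a40014040018a01a00c800c005c804c0330022001800b00dd002807c800800f40020142000000208f00de015006e00a402e8034017a01800c5009805f0044031400a01c200200710000001004804f00a802f0030030a0130193002805f00000007e1404e40580314013019a0028000f41800d00b005f8026031a00500be0000000ec2003200b00254026018a00500680000000e42000500b00054000000380401de02a00bb00c00c5004c066000a000350800f8013008e0028000c0100428000000580401ac05c01b402c00c2015804200a803240500080021005e00f80380064017c03000bc0130013000806d00000005430000c0580094013000048200cf01600000008012000800e8002012a0008160583)))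 
(.lf (nat_lit 3691340002) (dlOf (nat_lit 19) (nat_lit 0x14802800a4005000230200f7015005d0060061c028032c0050002284018500a00ca00140008808003c028003e0050002182009e017006f80b0036805401c802900bc00d80518064032c030014801400d4008806280140398004002400100f50000001086803a80b80350058006c02b00f0015007e00a40014040018a01b00c800c005c80500330022001800b00dd002807c800800f40020142000000208f00de015006e00a402e8036017a01800c500a005f0044031400a01c200200710000001004804f00a802f0030030a0140193002805f00000007e1404e40580314014019a0028000f41800d00b005f8028031a00500be0000000ec2003200b00254028018a00500680000000e42000500b00054000000380401de02a00bb00c00c50050066000a000350800f8014008e0028000c0100428000000580401ac05c01b402c00c2015804200a803240500080021005e00f80380068017c03000bc0140013000806d00000005430000c0580094014000048200cf01600000008012000800e8002012a0008160583)))) 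
(.lf (nat_lit 2483386338) (dlOf (nat_lit 5) (nat_lit 0x9016002c100800b0000015f604008805c014a02a00f5014005100600068026014201000350070022003000800060055b12000e01e000e0048015481003680082580002012400080fa603)))) 
(.nd (nat_lit 20) 
(.lf (nat_lit 19226850) (dlOf (nat_lit 2) (nat_lit 0x8c90c02f847b004822c8000800000054100040004001a0018970582))) 
(.lf (nat_lit 28664034) (dlOf (nat_lit 4) (nat_lit 0x294b00034a4e0001502001552d80008408000a9680000004001000200020008da0582))))) 
(.nd (nat_lit 22) (.nd (nat_lit 10) 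
(.lf (nat_lit 17653986) (dlOf (nat_lit 1) (nat_lit 0x400288e0581))) 
(.lf (nat_lit 3490540770) (dlOf (nat_lit 1) (nat_lit 0x8a0028006501)))) (.nd (nat_lit 20) 
(.lf (nat_lit 7168226) (dlOf (nat_lit 2) (nat_lit 0x1ee3fd000150184b0580))) 
(.lf (nat_lit 6119650) (dlOf (nat_lit 2) (nat_lit 0x1ee99800015018420580)))))))))) 
(.nd (nat_lit 18) (.nd (nat_lit 16) (.nd (nat_lit 28) (.nd (nat_lit 8) (.nd (nat_lit 20) 
(.nd (nat_lit 30) (.nd (nat_lit 32) (.nd (nat_lit 5) 
(.lf (nat_lit 42101314) (dlOf (nat_lit 1) (nat_lit 0x800400040009245202))) (.nd (nat_lit 7) 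
(.lf (nat_lit 38429794) (dlOf (nat_lit 1) (nat_lit 0x400200020009132982))) 
(.lf (nat_lit 6447330) (dlOf (nat_lit 2) (nat_lit 0x1bc99800015018420580))))) (.nd (nat_lit 7) 
(.nd (nat_lit 19) (.lf (nat_lit 4496449602) (dlOf (nat_lit 1) (nat_lit 0x400400020008070582))) 
(.lf (nat_lit 4362756162) (dlOf (nat_lit 7) (nat_lit 0xc0a6000ee02000602d0004f8100020168002700800580b40012004001405a00083020006053000308180f1880)))) 
(.lf (nat_lit 6576828098) (dlOf (nat_lit 1) (nat_lit 0x400400020008147282))))) (.nd (nat_lit 26) 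
(.nd (nat_lit 5) (.nd (nat_lit 27) 
(.lf (nat_lit 1073897538) (dlOf (nat_lit 1) (nat_lit 0x400200060008020782))) 
(.lf (nat_lit 5503082562) (dlOf (nat_lit 5) (nat_lit 0x1802a00040140003008800200140041410000402a000a0140007008800380380041210000802a000c014000b008800580380041010002002a0010014000a008800480380040e10000800200080008051702)))) 
(.lf (nat_lit 1610770018) (dlOf (nat_lit 2) (nat_lit 0x200b4000470200040018093901)))) 
(.nd (nat_lit 5) (.nd (nat_lit 11) 
(.lf (nat_lit 3288490050) (dlOf (nat_lit 2) (nat_lit 0x40100000c00800f0008005400200440008030e03))) 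
(.lf (nat_lit 1677883458) (dlOf (nat_lit 1) (nat_lit 0x48004000a000811a682)))) 
(.lf (nat_lit 1141006434) (dlOf (nat_lit 1) (nat_lit 0x20028071b01)))))) (.nd (nat_lit 21) 
(.nd (nat_lit 7) (.nd (nat_lit 19) 
(.lf (nat_lit 2752667714) (dlOf (nat_lit 2) (nat_lit 0x140680001e018030e00))) 
(.lf (nat_lit 10117186) (dlOf (nat_lit 5) (nat_lit 0x4df18c027f7ac0001a040025d1f00e0e31806cef58000320c04a38c6024dbd600001820083e3180446f580000008008c002000a00085b0782)))) 
(.lf (nat_lit 51537090) (dlOf (nat_lit 1) (nat_lit 0x60008004800200100009512d03)))) 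
(.nd (nat_lit 9) (.nd (nat_lit 5) 
(.lf (nat_lit 45768770) (dlOf (nat_lit 2) (nat_lit 0x4100000054408017800800d800200180009360603))) 
(.lf (nat_lit 24272994) (dlOf (nat_lit 1) (nat_lit 0x400400020008b91382)))) (.nd (nat_lit 22) 
(.lf (nat_lit 36858434) (dlOf (nat_lit 1) (nat_lit 0x8008000c00200020009075203))) 
(.lf (nat_lit 49441346) (dlOf (nat_lit 1) (nat_lit 0x400200020009465202))))))) (.nd (nat_lit 10) 
(.nd (nat_lit 11) (.nd (nat_lit 5) (.nd (nat_lit 19) 
(.lf (nat_lit 2885837122) (dlOf (nat_lit 2) (nat_lit 0xb600000009e0400c0002001800080b0602))) 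
(.lf (nat_lit 51011906) (dlOf (nat_lit 1) (nat_lit 0x200094e8701)))) 
(.lf (nat_lit 3301730) (dlOf (nat_lit 2) (nat_lit 0x9da30001a018200700)))) (.nd (nat_lit 12) 
(.lf (nat_lit 1677879618) (dlOf (nat_lit 2) (nat_lit 0x101300004004001400200120008114d02))) 
(.lf (nat_lit 201488706) (dlOf (nat_lit 1) (nat_lit 0x180020006000800ab82))))) (.nd (nat_lit 5) 
(.nd (nat_lit 9) (.nd (nat_lit 24) 
(.lf (nat_lit 156994) (dlOf (nat_lit 1) (nat_lit 0x18008001c00200020008003303))) 
(.lf (nat_lit 50488642) (dlOf (nat_lit 1) (nat_lit 0x200294c3301)))) 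
(.lf (nat_lit 8546114) (dlOf (nat_lit 2) (nat_lit 0x322700005a04002c004006c0008513e02)))) 
(.nd (nat_lit 9) (.lf (nat_lit 3892477410) (dlOf (nat_lit 1) (nat_lit 0x40040002000815cd02))) 
(.lf (nat_lit 161762) (dlOf (nat_lit 2) (nat_lit 0x14015002ad81800a600))))))) (.nd (nat_lit 26) 
(.nd (nat_lit 8) (.nd (nat_lit 31) (.nd (nat_lit 5) (.nd (nat_lit 19) 
(.lf (nat_lit 1476550722) (dlOf (nat_lit 1) (nat_lit 0xf00080024002000e0008050583))) 
(.lf (nat_lit 1344954434) (dlOf (nat_lit 1) (nat_lit 0x300080060002002800089a0603)))) 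
(.lf (nat_lit 1344954466) (dlOf (nat_lit 3) (nat_lit 0x70398000b40800a850c002827600241390015066800b01d40005614000c002000200089a0902)))) 
(.nd (nat_lit 30) (.nd (nat_lit 27) 
(.lf (nat_lit 2416074818) (dlOf (nat_lit 3) (nat_lit 0x15809000a4042005a0170001e0300350120007008400380400003906000c0018030e01))) 
(.lf (nat_lit 2550292546) (dlOf (nat_lit 3) (nat_lit 0x15809800a4042005a0170001e0300350130007008400380400003906000c0018030e01)))) 
(.nd (nat_lit 5) (.nd (nat_lit 20) 
(.lf (nat_lit 4026687554) (dlOf (nat_lit 2) (nat_lit 0x40100000b40800f0008005400200440008030e03))) 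
(.lf (nat_lit 3490865218) (dlOf (nat_lit 2) (nat_lit 0x140680001e018030e00)))) 
(.lf (nat_lit 3489819874) (dlOf (nat_lit 1) (nat_lit 0x20028006501)))))) (.nd (nat_lit 10) 
(.nd (nat_lit 22) 
(.lf (nat_lit 3624034626) (dlOf (nat_lit 2) (nat_lit 0xb60000000ac0400c0002001800080b0602))) 
(.lf (nat_lit 3494011202) (dlOf (nat_lit 2) (nat_lit 0x1b0198000ac04000c002000400081b0602)))) 
(.nd (nat_lit 5) (.nd (nat_lit 12) 
(.lf (nat_lit 3489819970) (dlOf (nat_lit 1) (nat_lit 0x400400020008006902))) 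
(.lf (nat_lit 3489824066) (dlOf (nat_lit 2) (nat_lit 0x241fb0034101800c900)))) 
(.lf (nat_lit 5773616482) (dlOf (nat_lit 2) (nat_lit 0x3805800050040004004000600180e3402)))))) 
(.nd (nat_lit 7) (.nd (nat_lit 9) (.nd (nat_lit 19) (.nd (nat_lit 5) 
(.lf (nat_lit 1946312770) (dlOf (nat_lit 1) (nat_lit 0x400200060008020782))) 
(.lf (nat_lit 3691143266) (dlOf (nat_lit 7) (nat_lit 0x14002d0003e8100a00168001f00804f00b4000ea04007c05a0007402014602d0003981000a0168004800800000080008004002a0008050d02)))) 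
(.nd (nat_lit 31) 
(.lf (nat_lit 6376022082) (dlOf (nat_lit 6) (nat_lit 0x40128008700800200600041404000c04c00040230004010000380600041210001804c000c0230007010000500600041010000c04c000a0230007010000480600040e10000800400120008051702))) 
(.lf (nat_lit 4228538434) (dlOf (nat_lit 1) (nat_lit 0xa00180f1401))))) (.nd (nat_lit 8) 
(.nd (nat_lit 29) (.lf (nat_lit 2617401922) (dlOf (nat_lit 1) (nat_lit 0x14004000400080a1582))) 
(.lf (nat_lit 4228014658) (dlOf (nat_lit 4) (nat_lit 0xa01900290c0800280c801318040018064009710200380008018501)))) 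
(.lf (nat_lit 6241282882) (dlOf (nat_lit 1) (nat_lit 0x5600280d5c01))))) (.nd (nat_lit 5) 
(.nd (nat_lit 8) (.nd (nat_lit 10) 
(.lf (nat_lit 3154276546) (dlOf (nat_lit 1) (nat_lit 0x400400020008157f02))) 
(.lf (nat_lit 474113218) (dlOf (nat_lit 1) (nat_lit 0x400200020009082d02)))) 
(.lf (nat_lit 3154279874) (dlOf (nat_lit 1) (nat_lit 0x4000815cd01)))) (.nd (nat_lit 8) 
(.nd (nat_lit 11) 
(.lf (nat_lit 3020059362) (dlOf (nat_lit 1) (nat_lit 0x498008000400200b00008128c83))) 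
(.lf (nat_lit 3154279138) (dlOf (nat_lit 1) (nat_lit 0x2001815b981)))) (.nd (nat_lit 9) 
(.lf (nat_lit 3020060130) (dlOf (nat_lit 1) (nat_lit 0x780028129b01))) 
(.lf (nat_lit 3154279394) (dlOf (nat_lit 1) (nat_lit 0x3e001815bf01))))))))) (.nd (nat_lit 28) 
(.nd (nat_lit 7) (.nd (nat_lit 27) (.nd (nat_lit 20) (.nd (nat_lit 5) (.nd (nat_lit 9) 
(.nd (nat_lit 8) (.nd (nat_lit 23) 
(.lf (nat_lit 537616450) (dlOf (nat_lit 1) (nat_lit 0x60008003c002002000080d0c03))) 
(.lf (nat_lit 9134146) (dlOf (nat_lit 1) (nat_lit 0x400400020008521682)))) 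
(.lf (nat_lit 50554178) (dlOf (nat_lit 1) (nat_lit 0x200294c3301)))) (.nd (nat_lit 11) 
(.lf (nat_lit 3288556098) (dlOf (nat_lit 1) (nat_lit 0x1000200080008091082))) 
(.lf (nat_lit 35875394) (dlOf (nat_lit 1) (nat_lit 0x80009015201))))) (.nd (nat_lit 11) 
(.lf (nat_lit 4295188578) (dlOf (nat_lit 1) (nat_lit 0x400080a1381))) 
(.lf (nat_lit 227426) (dlOf (nat_lit 3) (nat_lit 0x10c17000653f0001a9b40027c0c002182e000ca7e000d5368004d01800180080028002001a000800a803))))) 
(.nd (nat_lit 5) (.nd (nat_lit 9) (.nd (nat_lit 21) 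
(.lf (nat_lit 2752733250) (dlOf (nat_lit 6) (nat_lit 0x1cc3fa0003f0200d01fd0000701005b0fe801c079c0000e0801f03fa001c1e70000302006d0fe803207f0012c3ce002815b00140a3800f04d0000001800d4002001c0008030e02))) 
(.lf (nat_lit 28532802) (dlOf (nat_lit 2) (nat_lit 0x4573002f70080008008000400200020008da0003)))) 
(.lf (nat_lit 34826818) (dlOf (nat_lit 1) (nat_lit 0x100018fb5201)))) (.nd (nat_lit 8) 
(.lf (nat_lit 62612578) (dlOf (nat_lit 1) (nat_lit 0x1800299a2981))) 
(.lf (nat_lit 13853026) (dlOf (nat_lit 1) (nat_lit 0x80018750901)))))) (.nd (nat_lit 29) 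
(.nd (nat_lit 26) (.nd (nat_lit 32) 
(.lf (nat_lit 134438978) (dlOf (nat_lit 2) (nat_lit 0xc8041002c01c00006c100120008005400200080008020783))) 
(.lf (nat_lit 4429406274) (dlOf (nat_lit 1) (nat_lit 0x4004000200080a0d02)))) 
(.lf (nat_lit 201547842) (dlOf (nat_lit 2) (nat_lit 0xc8041002c01c000064100120008005400200080008020783)))) 
(.nd (nat_lit 5) (.nd (nat_lit 10) 
(.lf (nat_lit 2885904706) (dlOf (nat_lit 1) (nat_lit 0x30008001400200140008144d03))) 
(.lf (nat_lit 2818798914) (dlOf (nat_lit 1) (nat_lit 0x1c8008011000200560008129903)))) 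
(.lf (nat_lit 2818800738) (dlOf (nat_lit 13) (nat_lit 0x3501b00128088000ba0800d406c00400220002e020024035001481a400780c20022042000300d8001502801281a8008c0d20034061000b02100014c2001980d8008c04400051040068036001e0110001401002700d800f40440004c04007a03600290110001281002180d800b404400048040076036001f0110001081001380d801140440003d040064036000f01600140088000000c0098002000e000812c002)))))) 
(.nd (nat_lit 5) (.nd (nat_lit 9) (.nd (nat_lit 10) 
(.lf (nat_lit 1677945026) (dlOf (nat_lit 1) (nat_lit 0x10008000800200040008114983))) 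
(.nd (nat_lit 19) (.lf (nat_lit 34825410) (dlOf (nat_lit 1) (nat_lit 0x9000200720008fb2d02))) 
(.lf (nat_lit 47932610) (dlOf (nat_lit 1) (nat_lit 0x60009402d01))))) (.nd (nat_lit 8) 
(.nd (nat_lit 10) 
(.lf (nat_lit 2818800322) (dlOf (nat_lit 2) (nat_lit 0x301b0028d40800580080068002006a000812b983))) 
(.lf (nat_lit 4362825410) (dlOf (nat_lit 1) (nat_lit 0x340028117281)))) 
(.lf (nat_lit 2751686594) (dlOf (nat_lit 1) (nat_lit 0x20028004401))))) (.nd (nat_lit 23) 
(.nd (nat_lit 8) (.nd (nat_lit 9) 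
(.lf (nat_lit 2885904610) (dlOf (nat_lit 1) (nat_lit 0x20018144b01))) 
(.lf (nat_lit 2818798306) (dlOf (nat_lit 1) (nat_lit 0x3f800400d00008128c82)))) 
(.lf (nat_lit 3825426914) (dlOf (nat_lit 5) (nat_lit 0x73802c01b8012016e000000170300fe0058068802403bc0000002d06018a00b0001381004b0058000980800f0008006c002003a0008157303)))) 
(.nd (nat_lit 8) (.nd (nat_lit 10) 
(.lf (nat_lit 9134306) (dlOf (nat_lit 2) (nat_lit 0x4a484007e204000800200020008524202))) 
(.lf (nat_lit 43214050) (dlOf (nat_lit 2) (nat_lit 0x7bf9c0008a040008004000600192a2e02)))) 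
(.lf (nat_lit 9658850) (dlOf (nat_lit 1) (nat_lit 0x20018577d01))))))) (.nd (nat_lit 26) 
(.nd (nat_lit 31) (.nd (nat_lit 19) (.nd (nat_lit 7) (.nd (nat_lit 8) 
(.lf (nat_lit 1342398530) (dlOf (nat_lit 3) (nat_lit 0x48a249000030102281248000000800b00080058002004c0008020783))) 
(.lf (nat_lit 4697841986) (dlOf (nat_lit 1) (nat_lit 0x3200080a5f81)))) 
(.lf (nat_lit 1345545410) (dlOf (nat_lit 1) (nat_lit 0xc00400040018d12d02)))) (.nd (nat_lit 5) 
(.nd (nat_lit 20) 
(.lf (nat_lit 5772107842) (dlOf (nat_lit 1) (nat_lit 0xa8008003800200e60008080d83))) 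
(.lf (nat_lit 1343971394) (dlOf (nat_lit 1) (nat_lit 0x400200020008390e02)))) 
(.lf (nat_lit 1879793890) (dlOf (nat_lit 2) (nat_lit 0x25072000682700005408000400400020008370582))))) 
(.nd (nat_lit 5) (.nd (nat_lit 8) (.nd (nat_lit 9) 
(.lf (nat_lit 3490930754) (dlOf (nat_lit 6) (nat_lit 0x1cc3d60003f0200d01eb0000701005b0f5801c07480000e0801f03d6001c1d20000302006d0f5803207a8012c3a4002815600140a3800f04d0000001800d4002001c0008030e02))) 
(.lf (nat_lit 4026753602) (dlOf (nat_lit 1) (nat_lit 0x1000200080008091082)))) (.nd (nat_lit 10) 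
(.lf (nat_lit 3494076738) (dlOf (nat_lit 3) (nat_lit 0x642400004702003419e001a0b5800d057000082b4003414d000168581b0600))) 
(.lf (nat_lit 3489889602) (dlOf (nat_lit 6) (nat_lit 0x8201fc01b30fd8025059400d040c0da03f4004e902026e1fa002708100010fd00137c081b287e8009b00401bc0040002000800c902))))) 
(.nd (nat_lit 11) (.lf (nat_lit 3494076770) (dlOf (nat_lit 1) (nat_lit 0xe00081b0701))) 
(.lf (nat_lit 3624102242) (dlOf (nat_lit 1) (nat_lit 0x3800200860008144e82)))))) (.nd (nat_lit 5) 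
(.nd (nat_lit 29) (.nd (nat_lit 19) 
(.lf (nat_lit 469983298) (dlOf (nat_lit 3) (nat_lit 0x48a249000030102281248000000800b00080058002004c0008020783))) 
(.nd (nat_lit 21) 
(.lf (nat_lit 1410031682) (dlOf (nat_lit 1) (nat_lit 0x60008003c002002000080d0c03))) 
(.lf (nat_lit 472604738) (dlOf (nat_lit 3) (nat_lit 0xbc1780008023000aa0200140000002500800800080014002002200089c0603))))) 
(.nd (nat_lit 8) 
(.lf (nat_lit 6376087618) (dlOf (nat_lit 1) (nat_lit 0xa8008003800200e60008080d83))) 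
(.lf (nat_lit 4228610370) (dlOf (nat_lit 1) (nat_lit 0x40020002000811ab82))))) (.nd (nat_lit 9) 
(.nd (nat_lit 7) 
(.lf (nat_lit 472604770) (dlOf (nat_lit 3) (nat_lit 0x680ab0005850c01ac19a00d4096006b042803601d401a40e60002c0e00f815600700a1800884ec02e019a00be0cb007904b0043821400341060106075007d0398000a85003a80080020002000200089c0903))) 
(.lf (nat_lit 5704474850) (dlOf (nat_lit 1) (nat_lit 0x400280b6481)))) (.nd (nat_lit 8) 
(.lf (nat_lit 3556995682) (dlOf (nat_lit 1) (nat_lit 0x8008000400200020008128983))) 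
(.lf (nat_lit 3556996962) (dlOf (nat_lit 2) (nat_lit 0x2c070003ef020002002812a301))))))))) 
(.nd (nat_lit 5) (.nd (nat_lit 19) (.nd (nat_lit 7) (.nd (nat_lit 16) (.nd (nat_lit 9) 
(.nd (nat_lit 20) (.nd (nat_lit 25) (.nd (nat_lit 26) 
(.lf (nat_lit 4026949698) (dlOf (nat_lit 16) (nat_lit 0x4803c000c804067c040001c01f014e00e8065002c000c21005c4040001801f004d00e805e802c000c010008c046000580200580230002b81017f0100003807c0120016000290600d80200001401002e0100007802c0004a08004004602c402000d200580008818016008c0004204000804600020020058023008901000007010016008c000360400b0046000190202e602000b20058000001000080082548002000200080d0c03))) 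
(.lf (nat_lit 3288752194) (dlOf (nat_lit 16) (nat_lit 0xcf8080003803e029c01d00ca0058001a8200b88080003003e009a01d00bd0058001a420004803c000c204008c046000580200580230002b81017f0100003807c0120016000290600d80200001401002e0100007802c0004a08004004602c402000d200580008818016008c0004204000804600020020058023008901000007010016008c000360400b0046000190202e602000b20058000001000080082548002000200080d0c03)))) 
(.lf (nat_lit 33972290) (dlOf (nat_lit 1) (nat_lit 0x400400020008f90602)))) (.nd (nat_lit 21) 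
(.lf (nat_lit 30826562) (dlOf (nat_lit 1) (nat_lit 0xe0018e50e01))) 
(.lf (nat_lit 24535106) (dlOf (nat_lit 1) (nat_lit 0x39c004015a0008ba0d02))))) (.nd (nat_lit 26) 
(.lf (nat_lit 134636098) (dlOf (nat_lit 2) (nat_lit 0x5f0000000000400f800200020008091082))) 
(.lf (nat_lit 201744962) (dlOf (nat_lit 2) (nat_lit 0x5f0000000000400f800200020008091082))))) 
(.nd (nat_lit 8) (.nd (nat_lit 22) (.nd (nat_lit 20) 
(.lf (nat_lit 4228341826) (dlOf (nat_lit 1) (nat_lit 0x1c0028090001))) 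
(.lf (nat_lit 9920578) (dlOf (nat_lit 1) (nat_lit 0x48008000400200340008591703)))) 
(.nd (nat_lit 21) (.lf (nat_lit 30892098) (dlOf (nat_lit 1) (nat_lit 0x40018e50e01))) 
(.lf (nat_lit 24600642) (dlOf (nat_lit 1) (nat_lit 0xd00080030002002c0008ba0d03))))) 
(.nd (nat_lit 9) 
(.lf (nat_lit 1345806658) (dlOf (nat_lit 2) (nat_lit 0x78000009d2040028002001a0008df8702))) 
(.lf (nat_lit 485186) (dlOf (nat_lit 2) (nat_lit 0x269000005a040020004001c0018003e02)))))) 
(.nd (nat_lit 27) (.nd (nat_lit 11) (.nd (nat_lit 16) (.nd (nat_lit 26) 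
(.lf (nat_lit 3221643714) (dlOf (nat_lit 1) (nat_lit 0x800200060008170902))) 
(.lf (nat_lit 4362494402) (dlOf (nat_lit 1) (nat_lit 0x40028090901)))) 
(.lf (nat_lit 58155458) (dlOf (nat_lit 1) (nat_lit 0x800297c7001)))) (.nd (nat_lit 8) 
(.lf (nat_lit 485570) (dlOf (nat_lit 1) (nat_lit 0x9e0028004981))) 
(.lf (nat_lit 490434) (dlOf (nat_lit 1) (nat_lit 0x800800040020002000800be03))))) (.nd (nat_lit 26) 
(.nd (nat_lit 8) (.nd (nat_lit 29) 
(.lf (nat_lit 1208380098) (dlOf (nat_lit 1) (nat_lit 0x1600280e5801))) 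
(.lf (nat_lit 1745251010) (dlOf (nat_lit 1) (nat_lit 0x8800280e5801)))) 
(.lf (nat_lit 134635970) (dlOf (nat_lit 1) (nat_lit 0x5ba0008090901)))) (.nd (nat_lit 28) 
(.nd (nat_lit 29) (.lf (nat_lit 201744834) (dlOf (nat_lit 1) (nat_lit 0x5ba0008090901))) 
(.lf (nat_lit 3959841218) (dlOf (nat_lit 1) (nat_lit 0x800200060008170902)))) 
(.lf (nat_lit 4228276674) (dlOf (nat_lit 1) (nat_lit 0x40028090901))))))) (.nd (nat_lit 8) 
(.nd (nat_lit 21) (.nd (nat_lit 29) (.nd (nat_lit 24) (.nd (nat_lit 16) 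
(.lf (nat_lit 13525058) (dlOf (nat_lit 1) (nat_lit 0x40028730c01))) 
(.lf (nat_lit 13590594) (dlOf (nat_lit 1) (nat_lit 0x48008000c002003e0008730c03)))) 
(.nd (nat_lit 22) (.lf (nat_lit 59662402) (dlOf (nat_lit 1) (nat_lit 0x400400020009820602))) 
(.lf (nat_lit 21913666) (dlOf (nat_lit 3) (nat_lit 0x81a88000f00801389e40007204001000200080008a80e02))))) 
(.nd (nat_lit 27) (.nd (nat_lit 9) 
(.lf (nat_lit 1879990338) (dlOf (nat_lit 1) (nat_lit 0x80080004002000200084b0d03))) 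
(.lf (nat_lit 2752471618) (dlOf (nat_lit 2) (nat_lit 0x2c15900002018018c80)))) (.nd (nat_lit 7) 
(.lf (nat_lit 1007575106) (dlOf (nat_lit 1) (nat_lit 0x80080004002000200084b0d03))) 
(.lf (nat_lit 1008624834) (dlOf (nat_lit 1) (nat_lit 0x88008003000200140008e92d03)))))) 
(.nd (nat_lit 9) (.nd (nat_lit 16) 
(.lf (nat_lit 46030914) (dlOf (nat_lit 1) (nat_lit 0x60019380001))) 
(.lf (nat_lit 20930626) (dlOf (nat_lit 1) (nat_lit 0x4002000600089f0582)))) (.nd (nat_lit 7) 
(.nd (nat_lit 16) (.lf (nat_lit 36596290) (dlOf (nat_lit 1) (nat_lit 0x800200040009075202))) 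
(.lf (nat_lit 36661826) (dlOf (nat_lit 1) (nat_lit 0x8008000400200020009075203)))) 
(.lf (nat_lit 1345219266) (dlOf (nat_lit 1) (nat_lit 0x18008000800200040008b05803)))))) 
(.nd (nat_lit 16) (.nd (nat_lit 7) (.nd (nat_lit 26) 
(.lf (nat_lit 537813314) (dlOf (nat_lit 4) (nat_lit 0x1400000009804019c0000004202005c000000200181b0600))) 
(.lf (nat_lit 1410228546) (dlOf (nat_lit 4) (nat_lit 0x140000000a604019c0000004902005c000000238181b0600)))) 
(.nd (nat_lit 10) (.lf (nat_lit 5772304834) (dlOf (nat_lit 1) (nat_lit 0x20008091081))) 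
(.lf (nat_lit 8287682) (dlOf (nat_lit 1) (nat_lit 0xc00400040008519a02))))) (.nd (nat_lit 9) 
(.nd (nat_lit 26) 
(.lf (nat_lit 3490668866) (dlOf (nat_lit 3) (nat_lit 0x403d00043f0200021e80021d818014c00))) 
(.lf (nat_lit 2752471362) (dlOf (nat_lit 3) (nat_lit 0x403f4009d40200021fa004e9018014c00)))) 
(.lf (nat_lit 19884866) (dlOf (nat_lit 1) (nat_lit 0x4002000200089d5c02))))))) (.nd (nat_lit 19) 
(.nd (nat_lit 16) (.nd (nat_lit 7) (.nd (nat_lit 8) (.nd (nat_lit 10) (.nd (nat_lit 26) 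
(.lf (nat_lit 3492175970) (dlOf (nat_lit 1) (nat_lit 0x400280a1381))) 
(.lf (nat_lit 2753978466) (dlOf (nat_lit 1) (nat_lit 0x600280a1281)))) 
(.lf (nat_lit 38167650) (dlOf (nat_lit 1) (nat_lit 0x60029132981)))) (.nd (nat_lit 20) 
(.nd (nat_lit 21) (.lf (nat_lit 3624296802) (dlOf (nat_lit 2) (nat_lit 0x13604100257018154f00))) 
(.lf (nat_lit 23486818) (dlOf (nat_lit 1) (nat_lit 0x1720008b80701)))) 
(.lf (nat_lit 11952482) (dlOf (nat_lit 1) (nat_lit 0x5a00186c0701))))) (.nd (nat_lit 9) 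
(.nd (nat_lit 26) (.nd (nat_lit 27) 
(.lf (nat_lit 805724642) (dlOf (nat_lit 1) (nat_lit 0x8008000c002000800081a0c03))) 
(.lf (nat_lit 3624296930) (dlOf (nat_lit 2) (nat_lit 0x10037000101a800480000005a0c0008002001c0008157302)))) 
(.lf (nat_lit 1678139874) (dlOf (nat_lit 1) (nat_lit 0x8008000c002000800081a0c03)))) 
(.nd (nat_lit 21) (.lf (nat_lit 2751882210) (dlOf (nat_lit 1) (nat_lit 0x400200020008002882))) 
(.lf (nat_lit 1344693218) (dlOf (nat_lit 1) (nat_lit 0x10008001000200040008982883)))))) 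
(.nd (nat_lit 8) (.nd (nat_lit 31) (.nd (nat_lit 7) 
(.lf (nat_lit 36135010) (dlOf (nat_lit 1) (nat_lit 0x40019030901))) (.nd (nat_lit 24) 
(.lf (nat_lit 67592418) (dlOf (nat_lit 2) (nat_lit 0xbe11000015018240580))) 
(.lf (nat_lit 17260770) (dlOf (nat_lit 2) (nat_lit 0x64af000150188e0580))))) (.nd (nat_lit 10) 
(.nd (nat_lit 26) (.lf (nat_lit 3758579938) (dlOf (nat_lit 2) (nat_lit 0x11803c000150182c0580))) 
(.lf (nat_lit 3020382434) (dlOf (nat_lit 2) (nat_lit 0x11803c000150182c0580)))) 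
(.lf (nat_lit 3490147554) (dlOf (nat_lit 1) (nat_lit 0xc0028006501))))) (.nd (nat_lit 10) 
(.nd (nat_lit 7) 
(.lf (nat_lit 490338) (dlOf (nat_lit 2) (nat_lit 0xf81d002bb8080010008000c0020002000800bc83))) 
(.nd (nat_lit 20) (.lf (nat_lit 40330210) (dlOf (nat_lit 1) (nat_lit 0x800291f2881))) 
(.lf (nat_lit 68641762) (dlOf (nat_lit 1) (nat_lit 0x5a0028662881))))) (.nd (nat_lit 7) 
(.lf (nat_lit 604464482) (dlOf (nat_lit 3) (nat_lit 0x1807a000c034000d015000300800018018000c00900070000000d03800080f4001007400100340005015000300240000014001c004000c00182d3402))) 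
(.nd (nat_lit 12) (.lf (nat_lit 485346) (dlOf (nat_lit 1) (nat_lit 0x8008000400200020008004583))) 
(.lf (nat_lit 489442) (dlOf (nat_lit 2) (nat_lit 0x62351002e167801702bc00c81460055b080026001800a601)))))))) 
(.nd (nat_lit 8) (.nd (nat_lit 28) (.nd (nat_lit 7) (.nd (nat_lit 9) (.nd (nat_lit 10) 
(.lf (nat_lit 12542050) (dlOf (nat_lit 1) (nat_lit 0x400286d1281))) 
(.lf (nat_lit 38691938) (dlOf (nat_lit 1) (nat_lit 0x8008000800200040009132983)))) 
(.lf (nat_lit 8283746) (dlOf (nat_lit 1) (nat_lit 0x120018513901)))) (.nd (nat_lit 20) 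
(.nd (nat_lit 21) 
(.lf (nat_lit 2819514594) (dlOf (nat_lit 15) (nat_lit 0x2c0de002c034000901580015c1812a80d8000a60407e406c000510204720360002801022201b00013c0810380d80007e04050406c0003d02000e0360001c81006901b0000e00808880d80006a04044406c0003102054607802ad039015e01a80ad00bc055205602a802880c501380ad4096053e04202c001f8157806800280000002a1800cc0360000481025a01b0000000800b0008017400201e000082c0583))) 
(.lf (nat_lit 7233762) (dlOf (nat_lit 3) (nat_lit 0x33e631025330b012297f80914b3c04e83fd000150500081fe8000a40800580080084002004800084b0583)))) 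
(.lf (nat_lit 6185186) (dlOf (nat_lit 2) (nat_lit 0x3a99800015018420580))))) (.nd (nat_lit 16) 
(.nd (nat_lit 20) 
(.lf (nat_lit 3557712098) (dlOf (nat_lit 15) (nat_lit 0x2c0de002c034000901580015c1812a80e0000a60407e4070000510204720380002801022201c00013c0810380e00007e0405040700003d02000e0380001c81006901c0000e00808880e00006a0404440700003102054607802ad039015e01840ad00bc055205402a802880c501380a7c08a056a04202c001f8157806800280000002a1800cc0380000481025a01c0000000800b0008017400201e000082c0583))) 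
(.lf (nat_lit 5773353186) (dlOf (nat_lit 1) (nat_lit 0x6200080c1b01)))) (.nd (nat_lit 7) 
(.lf (nat_lit 470769762) (dlOf (nat_lit 1) (nat_lit 0x20028170d01))) (.nd (nat_lit 26) 
(.lf (nat_lit 1880056034) (dlOf (nat_lit 2) (nat_lit 0x166000000150186b0580))) 
(.lf (nat_lit 1007640802) (dlOf (nat_lit 1) (nat_lit 0x8002000400086b0582))))))) (.nd (nat_lit 20) 
(.nd (nat_lit 7) (.nd (nat_lit 9) (.nd (nat_lit 26) 
(.lf (nat_lit 537813346) (dlOf (nat_lit 1) (nat_lit 0x4004000200081b0702))) 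
(.lf (nat_lit 1410228578) (dlOf (nat_lit 1) (nat_lit 0x4004000200081b0702)))) 
(.lf (nat_lit 19884898) (dlOf (nat_lit 1) (nat_lit 0x200089d5c01)))) (.nd (nat_lit 16) 
(.lf (nat_lit 3490603490) (dlOf (nat_lit 2) (nat_lit 0x744600002e0200020028017301))) 
(.nd (nat_lit 26) 
(.lf (nat_lit 3490669026) (dlOf (nat_lit 7) (nat_lit 0xc81e6000120100e40f3000088080648798000400402d83cc0001d0204a21e60000e0101080f300006c082f7000806c000200da0008017303))) 
(.lf (nat_lit 2752471522) (dlOf (nat_lit 1) (nat_lit 0x18008000800200080008017d03)))))) 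
(.nd (nat_lit 21) (.nd (nat_lit 7) 
(.lf (nat_lit 2056546) (dlOf (nat_lit 2) (nat_lit 0x2a8d0000a818150700))) (.nd (nat_lit 26) 
(.lf (nat_lit 3491652066) (dlOf (nat_lit 1) (nat_lit 0x480080024002001a0008090c03))) 
(.lf (nat_lit 2753454562) (dlOf (nat_lit 1) (nat_lit 0x480080024002001a0008090c03))))) 
(.nd (nat_lit 26) (.lf (nat_lit 3493749218) (dlOf (nat_lit 1) (nat_lit 0x400181b0c01))) 
(.lf (nat_lit 2755551714) (dlOf (nat_lit 1) (nat_lit 0x400181b0c01))))))))))))

end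

end Pool.Agent.Lib.MP_5854e1_co.Cz
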