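import Pool.Agent.Lib.MP_5854e1_co.DecRow

/-!
# Sparse corrections
-/

set_option autoImplicit false
set_option maxRecDepth 100000

namespace Pool.Agent.Lib.MP_5854e1_co.Cz

noncomputable section

noncomputable def tz184 : DT := (.nd (nat_lit 15) (.nd (nat_lit 16) (.nd (nat_lit 6) 
(.nd (nat_lit 2) (.nd (nat_lit 18) (.nd (nat_lit 10) (.nd (nat_lit 22) (.nd (nat_lit 12) 
(.nd (nat_lit 19) 
(.lf (nat_lit 28336131) (dlOf (nat_lit 1) (nat_lit 0x2800800dc002003e0008d80003))) 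
(.nd (nat_lit 21) (.lf (nat_lit 3154665475) (dlOf (nat_lit 1) (nat_lit 0x20018310001))) 
(.lf (nat_lit 2646019) (dlOf (nat_lit 1) (nat_lit 0x400400040008180002))))) (.nd (nat_lit 7) 
(.nd (nat_lit 8) (.lf (nat_lit 3825236483) (dlOf (nat_lit 1) (nat_lit 0x2002800b281))) 
(.lf (nat_lit 3691018499) (dlOf (nat_lit 3) (nat_lit 0x3c02c0002e02001e0160001681800a980)))) 
(.lf (nat_lit 604008579) (dlOf (nat_lit 1) (nat_lit 0x3000200200008007d82))))) (.nd (nat_lit 19) 
(.nd (nat_lit 7) (.nd (nat_lit 9) 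
(.lf (nat_lit 23093251) (dlOf (nat_lit 2) (nat_lit 0x10adc00655018b50000))) 
(.lf (nat_lit 3493880323) (dlOf (nat_lit 5) (nat_lit 0x82280029a040008114001430200020870003e0102020600000000800480080088002005600081b0d83)))) 
(.lf (nat_lit 24141955) (dlOf (nat_lit 1) (nat_lit 0x20008b80101)))) (.nd (nat_lit 20) 
(.lf (nat_lit 55074819) (dlOf (nat_lit 1) (nat_lit 0x180080004002000600096a0003))) 
(.nd (nat_lit 21) (.lf (nat_lit 5791747) (dlOf (nat_lit 1) (nat_lit 0x4004000200083e0002))) 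
(.lf (nat_lit 24666115) (dlOf (nat_lit 7) (nat_lit 0xada5403532040382d28005d68d002eafe00645818058da50003ed1a00275fc00c8a830010b4a006444080625a500042d1a001b5fc00c380300a0b4a0061bc0800b0008009800200100008bb0003))))))) 
(.nd (nat_lit 9) (.nd (nat_lit 8) (.nd (nat_lit 7) 
(.lf (nat_lit 1342206979) (dlOf (nat_lit 1) (nat_lit 0x40028009201))) (.nd (nat_lit 27) 
(.lf (nat_lit 1342205059) (dlOf (nat_lit 1) (nat_lit 0x2c00400100008006102))) 
(.lf (nat_lit 2550164611) (dlOf (nat_lit 1) (nat_lit 0x20008000400200060008006103))))) 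
(.nd (nat_lit 11) (.nd (nat_lit 26) 
(.lf (nat_lit 1476425091) (dlOf (nat_lit 1) (nat_lit 0x400200020008009902))) 
(.lf (nat_lit 3691017603) (dlOf (nat_lit 1) (nat_lit 0x20018009901)))) (.nd (nat_lit 26) 
(.lf (nat_lit 4294995331) (dlOf (nat_lit 2) (nat_lit 0x8058000402400080090004002000030200128008000c00200020008006c03))) 
(.lf (nat_lit 2483056003) (dlOf (nat_lit 4) (nat_lit 0x80140000cc0800880a000064040028050000310200860028006c01)))))) 
(.nd (nat_lit 27) (.nd (nat_lit 19) (.nd (nat_lit 26) 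
(.lf (nat_lit 2147509891) (dlOf (nat_lit 1) (nat_lit 0x27800200240008003a02))) 
(.lf (nat_lit 5435844227) (dlOf (nat_lit 3) (nat_lit 0x12031000178100090188000b80800e800800e800200080008003a03)))) 
(.lf (nat_lit 69756547) (dlOf (nat_lit 1) (nat_lit 0x5c00200020008bf3a02)))) (.nd (nat_lit 11) 
(.nd (nat_lit 12) (.lf (nat_lit 738223747) (dlOf (nat_lit 1) (nat_lit 0x240018003a01))) 
(.lf (nat_lit 2281731715) (dlOf (nat_lit 2) (nat_lit 0x2009c00000040034004000a0008009d82)))) 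
(.lf (nat_lit 2885709443) (dlOf (nat_lit 1) (nat_lit 0x740028007181))))))) (.nd (nat_lit 28) 
(.nd (nat_lit 21) (.nd (nat_lit 7) (.nd (nat_lit 24) (.nd (nat_lit 19) 
(.lf (nat_lit 3758383107) (dlOf (nat_lit 1) (nat_lit 0x20018170001))) 
(.lf (nat_lit 2819383299) (dlOf (nat_lit 1) (nat_lit 0x20018250001)))) (.nd (nat_lit 8) 
(.lf (nat_lit 17588227) (dlOf (nat_lit 1) (nat_lit 0x4a800402e400088e0002))) 
(.lf (nat_lit 17588483) (dlOf (nat_lit 1) (nat_lit 0x3200088e0701))))) (.nd (nat_lit 9) 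
(.nd (nat_lit 26) 
(.lf (nat_lit 5905867139) (dlOf (nat_lit 1) (nat_lit 0x8008000400200020008155a83))) 
(.lf (nat_lit 6509846915) (dlOf (nat_lit 1) (nat_lit 0x8008000400200020008155a83)))) 
(.lf (nat_lit 67924867) (dlOf (nat_lit 2) (nat_lit 0x585940043804007000200080008339002))))) 
(.nd (nat_lit 19) (.nd (nat_lit 20) 
(.lf (nat_lit 44326915) (dlOf (nat_lit 2) (nat_lit 0x1a8e806f580800600080014002000a00092f0003))) 
(.nd (nat_lit 23) (.lf (nat_lit 3432451) (dlOf (nat_lit 1) (nat_lit 0x100008200001))) 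
(.lf (nat_lit 62152707) (dlOf (nat_lit 1) (nat_lit 0x20019960001))))) (.nd (nat_lit 11) 
(.nd (nat_lit 20) 
(.lf (nat_lit 11296771) (dlOf (nat_lit 2) (nat_lit 0x72b08032180800180080014002000c0008680003))) 
(.lf (nat_lit 2755420163) (dlOf (nat_lit 4) (nat_lit 0x1c03a0060f02001601d002dc010001010001020080070008009400200180008180003)))) 
(.nd (nat_lit 7) 
(.lf (nat_lit 54291459) (dlOf (nat_lit 2) (nat_lit 0x12a3000154080010008000800200080009655f83))) 
(.lf (nat_lit 54291331) (dlOf (nat_lit 1) (nat_lit 0xb00009655c01))))))) (.nd (nat_lit 26) 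
(.nd (nat_lit 31) (.nd (nat_lit 30) (.nd (nat_lit 27) 
(.lf (nat_lit 4563689475) (dlOf (nat_lit 6) (nat_lit 0x2a8068015e03200550178014007c0074036019160a00740340040019001900bc0322a0c00e0068007c03200c8882004201a002380c802dc05e000601f00c3804003b01a001c00c800bc05e0186f06001c00280c0001))) 
(.lf (nat_lit 4697907203) (dlOf (nat_lit 6) (nat_lit 0x2a8068015e03200550178014007c007403601c630a00740340040019001900bc038c40c00e0068007c03200e2f02004201a002380c802dc05e000601f00deb04003b01a001c00c800bc05e01bd506001c00280c0001)))) 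
(.nd (nat_lit 19) 
(.lf (nat_lit 1343512579) (dlOf (nat_lit 1) (nat_lit 0x2d8008009400200100008280003))) 
(.lf (nat_lit 1879859203) (dlOf (nat_lit 1) (nat_lit 0x80080004002000200083a0003))))) 
(.nd (nat_lit 29) (.nd (nat_lit 7) 
(.lf (nat_lit 3493617667) (dlOf (nat_lit 4) (nat_lit 0x1c03a00ba402001601d005a2010001010002688080070008009400200180008180003))) 
(.lf (nat_lit 3624168835) (dlOf (nat_lit 2) (nat_lit 0x19020001600000001a08008000200020008146c02)))) 
(.nd (nat_lit 9) 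
(.lf (nat_lit 2953076739) (dlOf (nat_lit 2) (nat_lit 0x800d000474080010008000c002000800080f0003))) 
(.lf (nat_lit 4026819075) (dlOf (nat_lit 1) (nat_lit 0x10400400180008090d82)))))) (.nd (nat_lit 27) 
(.nd (nat_lit 7) (.nd (nat_lit 19) 
(.lf (nat_lit 3020185603) (dlOf (nat_lit 1) (nat_lit 0x88008000c002000e0008150003))) 
(.lf (nat_lit 3557580803) (dlOf (nat_lit 1) (nat_lit 0x20008270001)))) 
(.lf (nat_lit 5704541827) (dlOf (nat_lit 1) (nat_lit 0x2000800d0002001400080d3a03)))) 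
(.nd (nat_lit 20) (.nd (nat_lit 30) 
(.lf (nat_lit 2617532419) (dlOf (nat_lit 1) (nat_lit 0x600280e0001))) 
(.lf (nat_lit 3691274243) (dlOf (nat_lit 2) (nat_lit 0x4000000af004001000400260008110002)))) 
(.lf (nat_lit 471097347) (dlOf (nat_lit 1) (nat_lit 0x500080024002001c0008270003)))))))) 
(.nd (nat_lit 26) (.nd (nat_lit 20) (.nd (nat_lit 10) (.nd (nat_lit 19) (.nd (nat_lit 27) 
(.nd (nat_lit 7) 
(.lf (nat_lit 4563689479) (dlOf (nat_lit 8) (nat_lit 0x40190001007c0322c0800180680010032000700f8064541800300d00018064000e01f00c8983000601a000280c8001c03e01911060006034006b0178001807c030e00c0018068001003200010178003807c030de1000240680016032000a00f8061b41802a00080010002003600080c0003))) 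
(.lf (nat_lit 5905867143) (dlOf (nat_lit 2) (nat_lit 0x180000002202000c0018155b81)))) 
(.nd (nat_lit 29) 
(.lf (nat_lit 4697907207) (dlOf (nat_lit 8) (nat_lit 0x40190001007c038c60800180680010032000700f8071881800300d00018064000e01f00e3003000601a000280c8001c03e01c5e060006034006b0178001807c037ac0c0018068001003200010178003807c037aa1000240680016032000a00f806f4c1802a00080010002003600080c0003))) 
(.lf (nat_lit 3087294471) (dlOf (nat_lit 1) (nat_lit 0x28008002800200220008170003))))) 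
(.nd (nat_lit 27) (.nd (nat_lit 18) 
(.lf (nat_lit 2646023) (dlOf (nat_lit 1) (nat_lit 0x400200020008180002))) 
(.lf (nat_lit 17588231) (dlOf (nat_lit 1) (nat_lit 0x800288e0001)))) (.nd (nat_lit 8) 
(.lf (nat_lit 3624427527) (dlOf (nat_lit 1) (nat_lit 0x200081a0481))) 
(.lf (nat_lit 1476944135) (dlOf (nat_lit 1) (nat_lit 0x15c0008303a01)))))) (.nd (nat_lit 8) 
(.nd (nat_lit 7) (.nd (nat_lit 9) 
(.lf (nat_lit 2147509255) (dlOf (nat_lit 2) (nat_lit 0x2014003a1818002880))) 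
(.lf (nat_lit 2684384775) (dlOf (nat_lit 1) (nat_lit 0x400200020008009c02)))) 
(.lf (nat_lit 39871623) (dlOf (nat_lit 1) (nat_lit 0x4004000200091f2b02)))) (.nd (nat_lit 11) 
(.lf (nat_lit 3355473159) (dlOf (nat_lit 1) (nat_lit 0x58008000400200060008009603))) 
(.nd (nat_lit 27) (.lf (nat_lit 27911) (dlOf (nat_lit 1) (nat_lit 0x20028006681))) 
(.lf (nat_lit 3087035655) (dlOf (nat_lit 1) (nat_lit 0x20028006681))))))) (.nd (nat_lit 18) 
(.nd (nat_lit 21) (.nd (nat_lit 19) (.nd (nat_lit 23) 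
(.lf (nat_lit 22044679) (dlOf (nat_lit 1) (nat_lit 0x20008a90001))) 
(.lf (nat_lit 30433287) (dlOf (nat_lit 1) (nat_lit 0x80028e30001)))) 
(.lf (nat_lit 9986055) (dlOf (nat_lit 1) (nat_lit 0x780080070002002800085a0583)))) (.nd (nat_lit 7) 
(.nd (nat_lit 8) 
(.lf (nat_lit 1345872391) (dlOf (nat_lit 4) (nat_lit 0x7045c002c22c00c0e04001c116005a401001108a8000000800c80080008002000c0008e07b03))) 
(.lf (nat_lit 58220807) (dlOf (nat_lit 1) (nat_lit 0x200197c3a01)))) 
(.lf (nat_lit 37251463) (dlOf (nat_lit 1) (nat_lit 0x2400090d4e81))))) (.nd (nat_lit 19) 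
(.nd (nat_lit 21) (.nd (nat_lit 22) 
(.lf (nat_lit 1343512583) (dlOf (nat_lit 2) (nat_lit 0x68238014d004021c00400e60018280002))) 
(.lf (nat_lit 47472647) (dlOf (nat_lit 1) (nat_lit 0x4004000200093f0002)))) (.nd (nat_lit 10) 
(.lf (nat_lit 3432455) (dlOf (nat_lit 1) (nat_lit 0x80008200001))) 
(.lf (nat_lit 20212743) (dlOf (nat_lit 1) (nat_lit 0x200189d5f81))))) (.nd (nat_lit 7) 
(.nd (nat_lit 8) (.lf (nat_lit 22831111) (dlOf (nat_lit 1) (nat_lit 0xf340040a540008b30002))) 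
(.lf (nat_lit 20737287) (dlOf (nat_lit 1) (nat_lit 0x4004002600089d6682)))) 
(.lf (nat_lit 1859975) (dlOf (nat_lit 1) (nat_lit 0x80080598002014c0008150783))))))) 
(.nd (nat_lit 28) (.nd (nat_lit 10) (.nd (nat_lit 18) (.nd (nat_lit 7) (.nd (nat_lit 27) 
(.lf (nat_lit 4362625031) (dlOf (nat_lit 1) (nat_lit 0x20002003c00080b0002))) 
(.lf (nat_lit 2886230023) (dlOf (nat_lit 1) (nat_lit 0x200081a0481)))) 
(.lf (nat_lit 604008583) (dlOf (nat_lit 1) (nat_lit 0x400200020008007d82)))) (.nd (nat_lit 29) 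
(.lf (nat_lit 4362362887) (dlOf (nat_lit 2) (nat_lit 0xa0540001015800280a0001004e000920800440018030581))) 
(.lf (nat_lit 3825491975) (dlOf (nat_lit 1) (nat_lit 0x28008002800200220008170003))))) 
(.nd (nat_lit 7) (.nd (nat_lit 29) 
(.lf (nat_lit 3288362247) (dlOf (nat_lit 1) (nat_lit 0x40018006681))) 
(.lf (nat_lit 5972716807) (dlOf (nat_lit 1) (nat_lit 0x40018006681)))) (.nd (nat_lit 9) 
(.lf (nat_lit 3422581895) (dlOf (nat_lit 1) (nat_lit 0x20028009501))) (.nd (nat_lit 11) 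
(.lf (nat_lit 5435844231) (dlOf (nat_lit 1) (nat_lit 0x28008000c00200080008003a03))) 
(.lf (nat_lit 5972717191) (dlOf (nat_lit 1) (nat_lit 0x5a0018007181))))))) (.nd (nat_lit 8) 
(.nd (nat_lit 7) (.nd (nat_lit 18) 
(.lf (nat_lit 4228407303) (dlOf (nat_lit 1) (nat_lit 0x20002003c00080b0002))) (.nd (nat_lit 19) 
(.lf (nat_lit 4228145159) (dlOf (nat_lit 2) (nat_lit 0xa04d0005017000080a8001004e000920800440018030581))) 
(.lf (nat_lit 3557580807) (dlOf (nat_lit 2) (nat_lit 0xa02100300100000001000b800800bc00200040008270003))))) 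
(.nd (nat_lit 9) (.nd (nat_lit 10) 
(.lf (nat_lit 5167669383) (dlOf (nat_lit 2) (nat_lit 0x25200981078008000640800ec002000a00080f0e02))) 
(.lf (nat_lit 473457799) (dlOf (nat_lit 1) (nat_lit 0x300080004002000c0008f52b03)))) 
(.lf (nat_lit 6376680071) (dlOf (nat_lit 1) (nat_lit 0x400200020008095482))))) (.nd (nat_lit 11) 
(.nd (nat_lit 10) (.lf (nat_lit 4094189831) (dlOf (nat_lit 1) (nat_lit 0x180018013581))) 
(.lf (nat_lit 2617275655) (dlOf (nat_lit 2) (nat_lit 0x40000002d018009600)))) (.nd (nat_lit 9) 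
(.lf (nat_lit 4227886343) (dlOf (nat_lit 1) (nat_lit 0x80080010002000a0008006683))) 
(.lf (nat_lit 3691015943) (dlOf (nat_lit 1) (nat_lit 0x5b8008004800200160008007483))))))))) 
(.nd (nat_lit 28) (.nd (nat_lit 18) (.nd (nat_lit 26) (.nd (nat_lit 21) (.nd (nat_lit 8) 
(.nd (nat_lit 27) (.nd (nat_lit 9) 
(.lf (nat_lit 25190467) (dlOf (nat_lit 1) (nat_lit 0x20018bf0c01))) 
(.lf (nat_lit 2147509827) (dlOf (nat_lit 1) (nat_lit 0x540018003801)))) (.nd (nat_lit 29) 
(.lf (nat_lit 5502951491) (dlOf (nat_lit 1) (nat_lit 0x740018000001))) 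
(.lf (nat_lit 6039822403) (dlOf (nat_lit 1) (nat_lit 0x80018000001))))) (.nd (nat_lit 2) 
(.nd (nat_lit 7) (.lf (nat_lit 134249795) (dlOf (nat_lit 1) (nat_lit 0x2c004000c000800c902))) 
(.lf (nat_lit 1073768387) (dlOf (nat_lit 1) (nat_lit 0x8008000400200020008004403)))) 
(.lf (nat_lit 5368736711) (dlOf (nat_lit 3) (nat_lit 0x8004c003402000022040020013000800800010038000120c014400400220008005d82))))) 
(.nd (nat_lit 7) (.nd (nat_lit 2) (.nd (nat_lit 19) 
(.lf (nat_lit 52453443) (dlOf (nat_lit 1) (nat_lit 0x1000200020009530602))) 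
(.lf (nat_lit 3694659) (dlOf (nat_lit 1) (nat_lit 0x5c00200be0008210e02)))) 
(.lf (nat_lit 33057351) (dlOf (nat_lit 1) (nat_lit 0x8008000400200020008f55203)))) (.nd (nat_lit 8) 
(.lf (nat_lit 32531651) (dlOf (nat_lit 2) (nat_lit 0x1c54d00012818ef2d00))) (.nd (nat_lit 9) 
(.lf (nat_lit 41445827) (dlOf (nat_lit 1) (nat_lit 0xd80009244e81))) 
(.lf (nat_lit 19954627) (dlOf (nat_lit 2) (nat_lit 0x1109e400374040008004000200189dbe02))))))) 
(.nd (nat_lit 19) (.nd (nat_lit 7) (.nd (nat_lit 8) (.nd (nat_lit 10) 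
(.lf (nat_lit 3422576707) (dlOf (nat_lit 3) (nat_lit 0x5806e0173e02001c03700b9e818000000))) 
(.lf (nat_lit 3288362051) (dlOf (nat_lit 1) (nat_lit 0x1140018006081)))) 
(.lf (nat_lit 1275095875) (dlOf (nat_lit 2) (nat_lit 0x58050002ca04000c00400080018005c02)))) 
(.nd (nat_lit 2) 
(.lf (nat_lit 1275096003) (dlOf (nat_lit 2) (nat_lit 0x600000000004000c00200340008005d82))) 
(.lf (nat_lit 2751494087) (dlOf (nat_lit 1) (nat_lit 0x7000800440020004000800a603))))) 
(.nd (nat_lit 21) (.nd (nat_lit 2) (.nd (nat_lit 22) 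
(.lf (nat_lit 4362625091) (dlOf (nat_lit 2) (nat_lit 0x13800000000040148002007600080b0d02))) 
(.lf (nat_lit 2756206659) (dlOf (nat_lit 1) (nat_lit 0x80008000400200180008220c03)))) 
(.lf (nat_lit 2752014663) (dlOf (nat_lit 2) (nat_lit 0x402e00006818004d00)))) (.nd (nat_lit 20) 
(.lf (nat_lit 2754109507) (dlOf (nat_lit 1) (nat_lit 0x8004000800080c1882))) 
(.lf (nat_lit 2755158083) (dlOf (nat_lit 1) (nat_lit 0x20008120e01))))))) (.nd (nat_lit 2) 
(.nd (nat_lit 24) (.nd (nat_lit 27) (.nd (nat_lit 8) (.nd (nat_lit 9) 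
(.lf (nat_lit 2753847363) (dlOf (nat_lit 1) (nat_lit 0x1c004000200080a0d02))) 
(.lf (nat_lit 8151619) (dlOf (nat_lit 1) (nat_lit 0x8008000400200020008511583)))) 
(.lf (nat_lit 3221512515) (dlOf (nat_lit 2) (nat_lit 0xc08c00da0450025e028124c00)))) 
(.nd (nat_lit 7) (.nd (nat_lit 8) 
(.lf (nat_lit 3959710275) (dlOf (nat_lit 1) (nat_lit 0x20008128c81))) 
(.lf (nat_lit 3959710019) (dlOf (nat_lit 2) (nat_lit 0xc08c00da04500528828124c00)))) 
(.lf (nat_lit 6644064451) (dlOf (nat_lit 2) (nat_lit 0xc046009cf02000200180c3901))))) 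
(.nd (nat_lit 25) (.nd (nat_lit 7) (.nd (nat_lit 8) 
(.lf (nat_lit 29122627) (dlOf (nat_lit 1) (nat_lit 0x400400020018dc0e82))) 
(.lf (nat_lit 19685699) (dlOf (nat_lit 1) (nat_lit 0x70004002000189d0c02)))) 
(.lf (nat_lit 20214467) (dlOf (nat_lit 1) (nat_lit 0x80080004002000200089d8c83)))) (.nd (nat_lit 7) 
(.nd (nat_lit 8) (.lf (nat_lit 53241411) (dlOf (nat_lit 1) (nat_lit 0x11000400040009573802))) 
(.lf (nat_lit 54288707) (dlOf (nat_lit 1) (nat_lit 0xc0009650c01)))) 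
(.lf (nat_lit 51668163) (dlOf (nat_lit 1) (nat_lit 0x20009512d01)))))) (.nd (nat_lit 9) 
(.nd (nat_lit 10) (.nd (nat_lit 27) (.nd (nat_lit 8) 
(.lf (nat_lit 5368995911) (dlOf (nat_lit 1) (nat_lit 0x200280b0601))) 
(.lf (nat_lit 2751752519) (dlOf (nat_lit 1) (nat_lit 0x220008004d01)))) (.nd (nat_lit 29) 
(.lf (nat_lit 5503213639) (dlOf (nat_lit 1) (nat_lit 0x200280b0601))) 
(.lf (nat_lit 671375431) (dlOf (nat_lit 1) (nat_lit 0x20018170f01))))) (.nd (nat_lit 7) 
(.lf (nat_lit 35415111) (dlOf (nat_lit 1) (nat_lit 0x400400060009012882))) 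
(.lf (nat_lit 20212935) (dlOf (nat_lit 1) (nat_lit 0x200189d6381))))) (.nd (nat_lit 21) 
(.nd (nat_lit 10) (.nd (nat_lit 26) 
(.lf (nat_lit 5905867335) (dlOf (nat_lit 4) (nat_lit 0x701c000c809400d002e0005e0600300250002e0100140128001500800100080048002000a0008158d03))) 
(.lf (nat_lit 3959710279) (dlOf (nat_lit 10) (nat_lit 0xd007c001e01c013a007006b8030034c000000240a005003e000d0170012007004b801c019200c00c200000008c3000680f8046401c01460000001103002701f0097003803140000002006003003e0000f81001b01f00058070047c01c001200400b40000000782800980f8047c01c000a00300a80000000742004d80000003804002807c022c00e000100000006c1800180080934002083e0008128d03)))) 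
(.lf (nat_lit 1610901063) (dlOf (nat_lit 1) (nat_lit 0x120028093801)))) (.nd (nat_lit 7) 
(.lf (nat_lit 23355975) (dlOf (nat_lit 1) (nat_lit 0x400200020008b81102))) 
(.lf (nat_lit 20214471) (dlOf (nat_lit 1) (nat_lit 0x80080004002000200089d8c83)))))))) 
(.nd (nat_lit 8) (.nd (nat_lit 2) (.nd (nat_lit 19) (.nd (nat_lit 7) (.nd (nat_lit 9) 
(.nd (nat_lit 26) (.lf (nat_lit 4160774211) (dlOf (nat_lit 1) (nat_lit 0x60018000001))) 
(.lf (nat_lit 4630536259) (dlOf (nat_lit 1) (nat_lit 0x460018000001)))) 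
(.lf (nat_lit 1342205507) (dlOf (nat_lit 1) (nat_lit 0x360018007181)))) (.nd (nat_lit 26) 
(.nd (nat_lit 9) (.lf (nat_lit 1476423875) (dlOf (nat_lit 1) (nat_lit 0x400200020008007f02))) 
(.nd (nat_lit 29) (.lf (nat_lit 1342206659) (dlOf (nat_lit 1) (nat_lit 0x20018008c81))) 
(.lf (nat_lit 1879077571) (dlOf (nat_lit 1) (nat_lit 0x400200020008008c82))))) (.nd (nat_lit 18) 
(.lf (nat_lit 3691016899) (dlOf (nat_lit 3) (nat_lit 0xa40150023381002100a801198080018008000c002002e0008008c83))) 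
(.lf (nat_lit 3557061315) (dlOf (nat_lit 1) (nat_lit 0x2a00080004002004a0008128c83)))))) 
(.nd (nat_lit 18) (.nd (nat_lit 20) (.nd (nat_lit 22) 
(.lf (nat_lit 4228407363) (dlOf (nat_lit 2) (nat_lit 0x13800000000040148002007600080b0d02))) 
(.lf (nat_lit 3494404163) (dlOf (nat_lit 1) (nat_lit 0x80008000400200180008220c03)))) 
(.nd (nat_lit 21) (.lf (nat_lit 1343774787) (dlOf (nat_lit 1) (nat_lit 0x800018370001))) 
(.lf (nat_lit 3493355587) (dlOf (nat_lit 1) (nat_lit 0x20008120e01))))) (.nd (nat_lit 7) 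
(.nd (nat_lit 20) (.lf (nat_lit 1342988355) (dlOf (nat_lit 1) (nat_lit 0x100018121401))) 
(.lf (nat_lit 1346134083) (dlOf (nat_lit 2) (nat_lit 0x980d900123818e60600)))) 
(.lf (nat_lit 1345086659) (dlOf (nat_lit 1) (nat_lit 0x1a80080010002000a00089e2d03)))))) 
(.nd (nat_lit 30) (.nd (nat_lit 26) (.nd (nat_lit 7) (.nd (nat_lit 27) 
(.lf (nat_lit 268722247) (dlOf (nat_lit 1) (nat_lit 0x400400020008100602))) 
(.lf (nat_lit 402939975) (dlOf (nat_lit 1) (nat_lit 0xc00280b0601)))) 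
(.lf (nat_lit 4697907399) (dlOf (nat_lit 2) (nat_lit 0x80c400030040004002000800080c1782)))) 
(.nd (nat_lit 9) (.lf (nat_lit 335831111) (dlOf (nat_lit 1) (nat_lit 0xc00280b0601))) 
(.lf (nat_lit 470311495) (dlOf (nat_lit 5) (nat_lit 0x20aa00011008003055001782a200042040006154000200100010e28000d40800900080030002001a00080c1103))))) 
(.nd (nat_lit 11) (.nd (nat_lit 9) (.nd (nat_lit 18) 
(.lf (nat_lit 3492307015) (dlOf (nat_lit 1) (nat_lit 0x200280c1481))) 
(.lf (nat_lit 1543790663) (dlOf (nat_lit 1) (nat_lit 0x20018170f01)))) 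
(.lf (nat_lit 1342726727) (dlOf (nat_lit 5) (nat_lit 0x20aa00011008003055001782a200042040006154000200100010e28000d40800900080030002001a00080c1103)))) 
(.nd (nat_lit 7) (.lf (nat_lit 3623909447) (dlOf (nat_lit 1) (nat_lit 0x52000800a681))) 
(.lf (nat_lit 3624168647) (dlOf (nat_lit 2) (nat_lit 0x100000006404000800200020008146382))))))) 
(.nd (nat_lit 7) (.nd (nat_lit 2) (.nd (nat_lit 26) (.nd (nat_lit 18) 
(.lf (nat_lit 3493880131) (dlOf (nat_lit 2) (nat_lit 0xc40c00002c0181b0600))) 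
(.lf (nat_lit 3490996547) (dlOf (nat_lit 1) (nat_lit 0x20008047f01)))) (.nd (nat_lit 10) 
(.nd (nat_lit 19) (.lf (nat_lit 2080661827) (dlOf (nat_lit 1) (nat_lit 0x200080a5f81))) 
(.lf (nat_lit 6376153411) (dlOf (nat_lit 9) (nat_lit 0x90440000580400442200002b020024110000150100130880000a40800c04400000a0400082200000402002611000001010012088000000080010008000c00200020008090c03)))) 
(.lf (nat_lit 5301888323) (dlOf (nat_lit 2) (nat_lit 0x910188000a00800c00080078002003000080e3303))))) 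
(.nd (nat_lit 9) (.nd (nat_lit 10) 
(.lf (nat_lit 1476424007) (dlOf (nat_lit 1) (nat_lit 0xe0028008281))) (.nd (nat_lit 11) 
(.lf (nat_lit 5773485383) (dlOf (nat_lit 1) (nat_lit 0x1c00280e3301))) 
(.lf (nat_lit 1409314119) (dlOf (nat_lit 3) (nat_lit 0x40be0000e02000205f00006818006980))))) 
(.nd (nat_lit 10) 
(.lf (nat_lit 402680647) (dlOf (nat_lit 3) (nat_lit 0xa0098004b80800e003c0014012000e40400080028005c01))) 
(.lf (nat_lit 3691018055) (dlOf (nat_lit 3) (nat_lit 0x2780540005e04000c02000016020012000800a181)))))) 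
(.nd (nat_lit 32) (.nd (nat_lit 19) (.nd (nat_lit 12) 
(.lf (nat_lit 1346398659) (dlOf (nat_lit 1) (nat_lit 0x400200020008f64e82))) (.nd (nat_lit 26) 
(.lf (nat_lit 1476426179) (dlOf (nat_lit 6) (nat_lit 0x4007400a5b02002e03b001201d000800e0014b40c006c076002e03a001001c0029641800800ec01478040050076002003a001301c0028ec18028000800e8002002c000800af83))) 
(.lf (nat_lit 3691018691) (dlOf (nat_lit 2) (nat_lit 0x10050013e20400040040008000800af82))))) 
(.nd (nat_lit 2) (.nd (nat_lit 11) 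
(.lf (nat_lit 1476944323) (dlOf (nat_lit 1) (nat_lit 0x280008307001))) 
(.lf (nat_lit 473721283) (dlOf (nat_lit 1) (nat_lit 0x6c0008fa4e81)))) 
(.lf (nat_lit 4094454727) (dlOf (nat_lit 2) (nat_lit 0x20f80000e818055d80))))) (.nd (nat_lit 9) 
(.nd (nat_lit 11) 
(.lf (nat_lit 5772173763) (dlOf (nat_lit 2) (nat_lit 0x44238000380200240018091081))) 
(.nd (nat_lit 26) (.lf (nat_lit 5773486531) (dlOf (nat_lit 1) (nat_lit 0x4600180e4e81))) 
(.lf (nat_lit 6377466307) (dlOf (nat_lit 1) (nat_lit 0x1800180e4e81))))) (.nd (nat_lit 2) 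
(.nd (nat_lit 18) 
(.lf (nat_lit 4697648067) (dlOf (nat_lit 2) (nat_lit 0x380000005c04008400400160008005d82))) 
(.lf (nat_lit 6308522947) (dlOf (nat_lit 1) (nat_lit 0x40002000c00080d5d82)))) (.nd (nat_lit 26) 
(.lf (nat_lit 6710913991) (dlOf (nat_lit 5) (nat_lit 0x16016001600a0000741000780500003804006002c00220150009002800064180028010000060400a8004001e0018005d82))) 
(.lf (nat_lit 4764756935) (dlOf (nat_lit 2) (nat_lit 0x200b000380500005c080050004000a0008005d82))))))))))) 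
(.nd (nat_lit 18) (.nd (nat_lit 6) (.nd (nat_lit 2) (.nd (nat_lit 26) (.nd (nat_lit 19) 
(.nd (nat_lit 29) (.nd (nat_lit 20) (.nd (nat_lit 7) 
(.lf (nat_lit 6576758787) (dlOf (nat_lit 1) (nat_lit 0x16000080c0001))) 
(.lf (nat_lit 4697712259) (dlOf (nat_lit 2) (nat_lit 0x40330001a018093a00)))) (.nd (nat_lit 21) 
(.lf (nat_lit 26304515) (dlOf (nat_lit 1) (nat_lit 0x10008000800200020008c30003))) 
(.lf (nat_lit 24207363) (dlOf (nat_lit 1) (nat_lit 0x400400020008b90002))))) (.nd (nat_lit 8) 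
(.nd (nat_lit 21) 
(.lf (nat_lit 5905670147) (dlOf (nat_lit 2) (nat_lit 0x40000000002003a00080b0001))) 
(.lf (nat_lit 1881235459) (dlOf (nat_lit 2) (nat_lit 0x6062000502f8033b8100040008004000200120008e80003)))) 
(.nd (nat_lit 7) (.lf (nat_lit 3087099651) (dlOf (nat_lit 1) (nat_lit 0x60028143b81))) 
(.lf (nat_lit 1610703235) (dlOf (nat_lit 1) (nat_lit 0x60008091001)))))) (.nd (nat_lit 21) 
(.nd (nat_lit 7) (.nd (nat_lit 8) 
(.lf (nat_lit 42557443) (dlOf (nat_lit 1) (nat_lit 0xca0009260001))) 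
(.lf (nat_lit 1611229955) (dlOf (nat_lit 1) (nat_lit 0x18008000c00200040008125a83)))) 
(.lf (nat_lit 1342791811) (dlOf (nat_lit 2) (nat_lit 0xc15100010908001041000c00080050002001000080c0103)))) 
(.nd (nat_lit 8) (.nd (nat_lit 23) (.nd (nat_lit 24) 
(.lf (nat_lit 2711555) (dlOf (nat_lit 1) (nat_lit 0x280080054002000600081a0003))) 
(.lf (nat_lit 19488771) (dlOf (nat_lit 1) (nat_lit 0x4004000200089b0002)))) 
(.lf (nat_lit 27877379) (dlOf (nat_lit 1) (nat_lit 0x208008016400200640008d40003)))) 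
(.lf (nat_lit 57240323) (dlOf (nat_lit 2) (nat_lit 0x428000000310200040029795a81)))))) 
(.nd (nat_lit 27) (.nd (nat_lit 7) (.nd (nat_lit 8) (.nd (nat_lit 29) 
(.lf (nat_lit 5435908099) (dlOf (nat_lit 1) (nat_lit 0xe0018020001))) 
(.lf (nat_lit 5972779011) (dlOf (nat_lit 1) (nat_lit 0x16000080c0001)))) 
(.lf (nat_lit 3556862723) (dlOf (nat_lit 3) (nat_lit 0x6e000000160100370000000a8080020008004c002001800080d5a83)))) 
(.nd (nat_lit 8) (.nd (nat_lit 19) 
(.lf (nat_lit 335634563) (dlOf (nat_lit 1) (nat_lit 0x20018090301))) 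
(.lf (nat_lit 4094255235) (dlOf (nat_lit 1) (nat_lit 0x600018023a01)))) 
(.lf (nat_lit 3825298819) (dlOf (nat_lit 2) (nat_lit 0x2000000006818146c00))))) (.nd (nat_lit 19) 
(.nd (nat_lit 28) 
(.lf (nat_lit 3959513091) (dlOf (nat_lit 1) (nat_lit 0x18008000400200020008090003))) 
(.nd (nat_lit 30) (.lf (nat_lit 5301690371) (dlOf (nat_lit 1) (nat_lit 0xe0018020001))) 
(.lf (nat_lit 2080464899) (dlOf (nat_lit 2) (nat_lit 0x420290070b018090000))))) (.nd (nat_lit 7) 
(.nd (nat_lit 8) (.lf (nat_lit 470376963) (dlOf (nat_lit 1) (nat_lit 0x2c004000e00080c0d82))) 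
(.lf (nat_lit 738814723) (dlOf (nat_lit 1) (nat_lit 0x1000400020008125a82)))) 
(.lf (nat_lit 470376579) (dlOf (nat_lit 2) (nat_lit 0xc15100010908001041000c00080050002001000080c0103))))))) 
(.nd (nat_lit 11) (.nd (nat_lit 10) (.nd (nat_lit 7) (.nd (nat_lit 19) (.nd (nat_lit 22) 
(.lf (nat_lit 9527303) (dlOf (nat_lit 1) (nat_lit 0x8008000800200020008560003))) 
(.lf (nat_lit 13721607) (dlOf (nat_lit 1) (nat_lit 0x20028740001)))) 
(.lf (nat_lit 24731655) (dlOf (nat_lit 1) (nat_lit 0x60028bb0001)))) (.nd (nat_lit 8) 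
(.lf (nat_lit 604070023) (dlOf (nat_lit 1) (nat_lit 0x80008010281))) 
(.lf (nat_lit 2080465287) (dlOf (nat_lit 3) (nat_lit 0x20039000b0010011013800364080020008001000200060008091003))))) 
(.nd (nat_lit 9) (.nd (nat_lit 8) (.nd (nat_lit 27) 
(.lf (nat_lit 2751554567) (dlOf (nat_lit 1) (nat_lit 0x400200020008002882))) 
(.lf (nat_lit 6375433223) (dlOf (nat_lit 1) (nat_lit 0x20018002881)))) 
(.lf (nat_lit 20542727) (dlOf (nat_lit 2) (nat_lit 0x54320005702000200189d9601)))) (.nd (nat_lit 7) 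
(.nd (nat_lit 8) (.lf (nat_lit 4697712135) (dlOf (nat_lit 1) (nat_lit 0x4000400580008093682))) 
(.lf (nat_lit 3087099655) (dlOf (nat_lit 1) (nat_lit 0x60028143b81)))) 
(.lf (nat_lit 6308324999) (dlOf (nat_lit 1) (nat_lit 0x40018053a01)))))) (.nd (nat_lit 8) 
(.nd (nat_lit 26) (.nd (nat_lit 7) (.nd (nat_lit 19) 
(.lf (nat_lit 1342270983) (dlOf (nat_lit 1) (nat_lit 0x4a0018007001))) 
(.lf (nat_lit 617991) (dlOf (nat_lit 1) (nat_lit 0x8008000400200020008007003)))) 
(.lf (nat_lit 97415) (dlOf (nat_lit 1) (nat_lit 0x40040002000800c202)))) (.nd (nat_lit 7) 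
(.nd (nat_lit 28) (.lf (nat_lit 1812033031) (dlOf (nat_lit 1) (nat_lit 0x400400020008147002))) 
(.lf (nat_lit 4227952135) (dlOf (nat_lit 1) (nat_lit 0x5a0018007001)))) 
(.lf (nat_lit 1543597191) (dlOf (nat_lit 1) (nat_lit 0x480080070002003a0008146183))))) 
(.nd (nat_lit 10) (.nd (nat_lit 7) 
(.lf (nat_lit 20019975) (dlOf (nat_lit 1) (nat_lit 0x2600080004002007200089db983))) 
(.nd (nat_lit 19) (.lf (nat_lit 4563495303) (dlOf (nat_lit 1) (nat_lit 0x120028094e81))) 
(.lf (nat_lit 1345939847) (dlOf (nat_lit 1) (nat_lit 0x20018e24e81))))) (.nd (nat_lit 12) 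
(.nd (nat_lit 27) (.lf (nat_lit 1342270727) (dlOf (nat_lit 1) (nat_lit 0x420028006681))) 
(.lf (nat_lit 134311175) (dlOf (nat_lit 1) (nat_lit 0x120018006681)))) (.nd (nat_lit 23) 
(.lf (nat_lit 97543) (dlOf (nat_lit 1) (nat_lit 0x800800040020002000800c603))) 
(.lf (nat_lit 8486151) (dlOf (nat_lit 1) (nat_lit 0x180040004000851c602))))))))) (.nd (nat_lit 2) 
(.nd (nat_lit 8) (.nd (nat_lit 19) (.nd (nat_lit 12) (.nd (nat_lit 11) (.nd (nat_lit 22) 
(.nd (nat_lit 23) 
(.lf (nat_lit 6576758851) (dlOf (nat_lit 2) (nat_lit 0x100000006404000c004000600080c0d02))) 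
(.lf (nat_lit 25256003) (dlOf (nat_lit 1) (nat_lit 0x400201120008bf0c02)))) 
(.lf (nat_lit 12673091) (dlOf (nat_lit 1) (nat_lit 0xe00286d0d01)))) (.nd (nat_lit 9) 
(.lf (nat_lit 134310979) (dlOf (nat_lit 1) (nat_lit 0x40028006081))) 
(.lf (nat_lit 58812995) (dlOf (nat_lit 1) (nat_lit 0x200297e5201))))) (.nd (nat_lit 9) 
(.nd (nat_lit 11) (.lf (nat_lit 20017347) (dlOf (nat_lit 1) (nat_lit 0x40004012000089d7f02))) 
(.lf (nat_lit 96451) (dlOf (nat_lit 1) (nat_lit 0x40040002001800a882)))) (.nd (nat_lit 7) 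
(.lf (nat_lit 469856835) (dlOf (nat_lit 2) (nat_lit 0x3087401486040044004003e0008008982))) 
(.lf (nat_lit 20017859) (dlOf (nat_lit 1) (nat_lit 0x4002000200089d8c82)))))) (.nd (nat_lit 29) 
(.nd (nat_lit 7) (.nd (nat_lit 22) (.nd (nat_lit 23) 
(.lf (nat_lit 3221839939) (dlOf (nat_lit 6) (nat_lit 0x630014000ee02002600a00045810001023000070080150118000360403fc08c018e045000000281a1400))) 
(.lf (nat_lit 42557507) (dlOf (nat_lit 4) (nat_lit 0x1fc871009b3f4807f1d000410e6e00703d7000aa05001e0000004dc0800300000012804008c002004e0009260602)))) 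
(.lf (nat_lit 55140419) (dlOf (nat_lit 1) (nat_lit 0x6000096c0d81)))) (.nd (nat_lit 20) 
(.lf (nat_lit 9007811) (dlOf (nat_lit 1) (nat_lit 0x400200020008518c82))) 
(.lf (nat_lit 7959235) (dlOf (nat_lit 1) (nat_lit 0x20018518c81))))) (.nd (nat_lit 21) 
(.nd (nat_lit 7) 
(.lf (nat_lit 3960037443) (dlOf (nat_lit 4) (nat_lit 0x48114000aa04019c08a00054020146046000288181a1880))) 
(.lf (nat_lit 1008297155) (dlOf (nat_lit 1) (nat_lit 0x400400020008b52d02)))) (.nd (nat_lit 26) 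
(.lf (nat_lit 1881759811) (dlOf (nat_lit 2) (nat_lit 0xa01f00047804000400400040019000602))) 
(.lf (nat_lit 2754175043) (dlOf (nat_lit 1) (nat_lit 0x14002001e00080c1882))))))) (.nd (nat_lit 7) 
(.nd (nat_lit 9) (.nd (nat_lit 10) (.nd (nat_lit 27) 
(.lf (nat_lit 2483118403) (dlOf (nat_lit 1) (nat_lit 0x9400400220008014c02))) 
(.lf (nat_lit 2348900675) (dlOf (nat_lit 1) (nat_lit 0x9400400220008014c02)))) (.nd (nat_lit 12) 
(.lf (nat_lit 91459) (dlOf (nat_lit 1) (nat_lit 0x400400020008003302))) 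
(.lf (nat_lit 20542787) (dlOf (nat_lit 1) (nat_lit 0x200289d9901))))) (.nd (nat_lit 10) 
(.nd (nat_lit 27) 
(.lf (nat_lit 5637237571) (dlOf (nat_lit 4) (nat_lit 0x22015000a0020004800c002c20c003402800160020004e8200040010002380800a0008004400200080008055c03))) 
(.lf (nat_lit 5771455299) (dlOf (nat_lit 1) (nat_lit 0x400200020008005c02)))) 
(.lf (nat_lit 91971) (dlOf (nat_lit 1) (nat_lit 0x220008003e01))))) (.nd (nat_lit 20) 
(.nd (nat_lit 26) 
(.lf (nat_lit 805396931) (dlOf (nat_lit 4) (nat_lit 0x600000025010003000000124080018134000c06c000000400020008090901))) 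
(.lf (nat_lit 1677812163) (dlOf (nat_lit 4) (nat_lit 0x600000025010003000000124080018134000c06c000000400020008090901)))) 
(.nd (nat_lit 11) (.lf (nat_lit 43082179) (dlOf (nat_lit 1) (nat_lit 0x200292a1081))) 
(.lf (nat_lit 7961027) (dlOf (nat_lit 1) (nat_lit 0x40020002000851af82))))))) (.nd (nat_lit 10) 
(.nd (nat_lit 9) (.nd (nat_lit 27) (.nd (nat_lit 21) (.nd (nat_lit 26) 
(.lf (nat_lit 3221839943) (dlOf (nat_lit 2) (nat_lit 0x808c0002402000200281a1481))) 
(.lf (nat_lit 1409900615) (dlOf (nat_lit 1) (nat_lit 0x80080004002000200080a0e03)))) 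
(.lf (nat_lit 3492372551) (dlOf (nat_lit 4) (nat_lit 0x4011900060880000640800743f800301e7000170200130f38000b00800880080130002001600080c1483)))) 
(.nd (nat_lit 8) (.nd (nat_lit 19) 
(.lf (nat_lit 1208049735) (dlOf (nat_lit 2) (nat_lit 0x36029003f7818090000))) 
(.lf (nat_lit 3960037447) (dlOf (nat_lit 2) (nat_lit 0x3fc08c018e045000000281a1880)))) 
(.lf (nat_lit 671181127) (dlOf (nat_lit 3) (nat_lit 0x803600060030000682000400d8002800c000000800a4004001e0018144d02))))) 
(.nd (nat_lit 7) (.nd (nat_lit 8) 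
(.lf (nat_lit 2416009799) (dlOf (nat_lit 1) (nat_lit 0x60008000c002000a0008018d03))) 
(.lf (nat_lit 5637237575) (dlOf (nat_lit 29) (nat_lit 0xb100a8058001002b00060016106015a01500ac0020050000c002b80c02cc02a015200400a30018005681805880540298008014a003000ac8300a400a805180100290006001550600020150009a0100ab00a8003a8080008054001ca04017402a00a20040007202000100a8003680801880500017c0402d4028016e0020004e8200ab00a005c0008001320802b4028016a0020004c0200ac00a005600080012e08025c02801340020004a8200b900a005880080011c08000c02800040020004482001c00a001080080010e0802b002800920020004302007c00a003f80080010408012402800031020158014000158100ac00a0000980805600500004a0402b00280002202000c0140000a01000100a800100500000008010c00400040008055c02)))) 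
(.nd (nat_lit 8) (.nd (nat_lit 19) 
(.lf (nat_lit 1342272199) (dlOf (nat_lit 1) (nat_lit 0x800200020008008c82))) 
(.lf (nat_lit 9007815) (dlOf (nat_lit 1) (nat_lit 0x400200020008518c82)))) 
(.lf (nat_lit 20016071) (dlOf (nat_lit 1) (nat_lit 0xc004000600189d5d82)))))) (.nd (nat_lit 7) 
(.nd (nat_lit 8) (.nd (nat_lit 21) (.nd (nat_lit 31) 
(.lf (nat_lit 939615303) (dlOf (nat_lit 1) (nat_lit 0x400400020008142882))) 
(.lf (nat_lit 3087098951) (dlOf (nat_lit 1) (nat_lit 0x8008000400200020008142883)))) 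
(.lf (nat_lit 5773550663) (dlOf (nat_lit 1) (nat_lit 0x200280e2881)))) (.nd (nat_lit 27) 
(.lf (nat_lit 3825298759) (dlOf (nat_lit 2) (nat_lit 0x1002c0002204000800200040008146982))) 
(.lf (nat_lit 1543597383) (dlOf (nat_lit 1) (nat_lit 0xc00200080008146982))))) (.nd (nat_lit 8) 
(.nd (nat_lit 9) (.lf (nat_lit 1409379527) (dlOf (nat_lit 1) (nat_lit 0x400200020008006382))) 
(.lf (nat_lit 620231) (dlOf (nat_lit 1) (nat_lit 0x2002800a001)))) (.nd (nat_lit 9) 
(.lf (nat_lit 1409379783) (dlOf (nat_lit 1) (nat_lit 0x400200020008006d02))) 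
(.lf (nat_lit 3087099847) (dlOf (nat_lit 1) (nat_lit 0x160018144401))))))))) (.nd (nat_lit 2) 
(.nd (nat_lit 20) (.nd (nat_lit 27) (.nd (nat_lit 6) (.nd (nat_lit 26) (.nd (nat_lit 29) 
(.nd (nat_lit 21) (.nd (nat_lit 25) 
(.lf (nat_lit 6442803203) (dlOf (nat_lit 1) (nat_lit 0x30004001400081c0002))) 
(.lf (nat_lit 33906691) (dlOf (nat_lit 1) (nat_lit 0x8008000400200020008f70003)))) 
(.lf (nat_lit 2449411) (dlOf (nat_lit 1) (nat_lit 0x10008000800200040008160003)))) 
(.nd (nat_lit 28) (.lf (nat_lit 537223171) (dlOf (nat_lit 1) (nat_lit 0x400200020008060002))) 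
(.lf (nat_lit 6174367747) (dlOf (nat_lit 1) (nat_lit 0xbc0008120001))))) (.nd (nat_lit 7) 
(.nd (nat_lit 19) (.lf (nat_lit 1409638403) (dlOf (nat_lit 1) (nat_lit 0x400200020008060002))) 
(.lf (nat_lit 67985411) (dlOf (nat_lit 1) (nat_lit 0xc00028360001)))) 
(.lf (nat_lit 4096091779) (dlOf (nat_lit 1) (nat_lit 0x200280e3a01))))) (.nd (nat_lit 9) 
(.nd (nat_lit 7) (.nd (nat_lit 26) 
(.lf (nat_lit 2449475) (dlOf (nat_lit 1) (nat_lit 0x18008003800200140008160d03))) 
(.lf (nat_lit 2753912899) (dlOf (nat_lit 2) (nat_lit 0x502200004004001c002000e00080a0d02)))) 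
(.lf (nat_lit 34432195) (dlOf (nat_lit 1) (nat_lit 0x80080104002001a0008fb2d03)))) (.nd (nat_lit 8) 
(.nd (nat_lit 10) (.lf (nat_lit 36530755) (dlOf (nat_lit 1) (nat_lit 0x4002006c0009075202))) 
(.lf (nat_lit 4096091715) (dlOf (nat_lit 1) (nat_lit 0x400280e3801)))) 
(.lf (nat_lit 2483382083) (dlOf (nat_lit 4) (nat_lit 0x4a01a003800cc019806200c202c00290000000d82802400d001b806600c4031005e0160000d02002400d001a406600c6031005f0160000ac20004000803e80020ab000080f3e03)))))) 
(.nd (nat_lit 26) (.nd (nat_lit 6) (.nd (nat_lit 29) (.nd (nat_lit 7) 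
(.lf (nat_lit 134569987) (dlOf (nat_lit 1) (nat_lit 0x18004000a0008080002))) 
(.lf (nat_lit 3624234371) (dlOf (nat_lit 2) (nat_lit 0x1400000000d0202420018146c01)))) 
(.nd (nat_lit 30) (.lf (nat_lit 671440899) (dlOf (nat_lit 2) (nat_lit 0x3a000003310181a0000))) 
(.lf (nat_lit 3892666371) (dlOf (nat_lit 2) (nat_lit 0x1601400711018180000))))) (.nd (nat_lit 7) 
(.nd (nat_lit 8) (.lf (nat_lit 3892666435) (dlOf (nat_lit 2) (nat_lit 0x1602b0000c018180580))) 
(.lf (nat_lit 5771717443) (dlOf (nat_lit 1) (nat_lit 0x20018005c01)))) (.nd (nat_lit 29) 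
(.lf (nat_lit 1208312003) (dlOf (nat_lit 1) (nat_lit 0x80080008002000200080c1b83))) 
(.lf (nat_lit 2818924739) (dlOf (nat_lit 1) (nat_lit 0x40018130401)))))) (.nd (nat_lit 28) 
(.nd (nat_lit 6) (.nd (nat_lit 30) 
(.lf (nat_lit 201678851) (dlOf (nat_lit 1) (nat_lit 0x18004000a0008080002))) 
(.lf (nat_lit 5570387971) (dlOf (nat_lit 1) (nat_lit 0xbc0008120001)))) 
(.lf (nat_lit 2886035267) (dlOf (nat_lit 2) (nat_lit 0xc01b00010018143e00)))) (.nd (nat_lit 30) 
(.nd (nat_lit 21) (.lf (nat_lit 474308611) (dlOf (nat_lit 1) (nat_lit 0x380009140001))) 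
(.lf (nat_lit 1009082371) (dlOf (nat_lit 1) (nat_lit 0x60009060001)))) (.nd (nat_lit 32) 
(.lf (nat_lit 1543856131) (dlOf (nat_lit 2) (nat_lit 0x3a000005fb8181a0000))) 
(.lf (nat_lit 5838823427) (dlOf (nat_lit 1) (nat_lit 0x30004001400081c0002)))))))) 
(.nd (nat_lit 19) (.nd (nat_lit 6) (.nd (nat_lit 21) (.nd (nat_lit 10) 
(.lf (nat_lit 471162883) (dlOf (nat_lit 1) (nat_lit 0xc0002008000082a0002))) 
(.lf (nat_lit 47539203) (dlOf (nat_lit 1) (nat_lit 0x400200020009402882)))) (.nd (nat_lit 7) 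
(.nd (nat_lit 23) (.lf (nat_lit 37052419) (dlOf (nat_lit 1) (nat_lit 0x80019090001))) 
(.lf (nat_lit 62218243) (dlOf (nat_lit 1) (nat_lit 0x20019980001)))) 
(.lf (nat_lit 3498115) (dlOf (nat_lit 1) (nat_lit 0x800400080018200102))))) (.nd (nat_lit 21) 
(.nd (nat_lit 7) (.nd (nat_lit 22) 
(.lf (nat_lit 1400899) (dlOf (nat_lit 1) (nat_lit 0x4004000200080c0e02))) 
(.lf (nat_lit 55926851) (dlOf (nat_lit 2) (nat_lit 0x1c98e000a88196f0600)))) 
(.lf (nat_lit 13983939) (dlOf (nat_lit 1) (nat_lit 0x60008002c002000e0008750403)))) 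
(.nd (nat_lit 7) (.nd (nat_lit 8) 
(.lf (nat_lit 37052483) (dlOf (nat_lit 2) (nat_lit 0xa17260002b33000aa029090600))) 
(.lf (nat_lit 58024259) (dlOf (nat_lit 1) (nat_lit 0x254002000200097b8702)))) 
(.lf (nat_lit 20280003) (dlOf (nat_lit 1) (nat_lit 0x80080004002000200089d8c83)))))) 
(.nd (nat_lit 21) (.nd (nat_lit 6) (.nd (nat_lit 22) 
(.lf (nat_lit 69033987) (dlOf (nat_lit 1) (nat_lit 0x400400020008880002))) (.nd (nat_lit 23) 
(.lf (nat_lit 39673859) (dlOf (nat_lit 1) (nat_lit 0x80080018002000200091c0003))) 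
(.lf (nat_lit 14508035) (dlOf (nat_lit 1) (nat_lit 0x40008760001))))) (.nd (nat_lit 7) 
(.lf (nat_lit 471692611) (dlOf (nat_lit 1) (nat_lit 0xa00183d9901))) 
(.lf (nat_lit 1344107203) (dlOf (nat_lit 1) (nat_lit 0x124004006800083d8c82))))) (.nd (nat_lit 22) 
(.nd (nat_lit 31) (.nd (nat_lit 6) 
(.lf (nat_lit 45965315) (dlOf (nat_lit 1) (nat_lit 0xe0029370001))) 
(.lf (nat_lit 4022339) (dlOf (nat_lit 2) (nat_lit 0x5200000025818270c00)))) (.nd (nat_lit 26) 
(.lf (nat_lit 3493683203) (dlOf (nat_lit 4) (nat_lit 0xc0a700b4a01000d03d805a340800701ec02bf8040040004000400081a0002))) 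
(.lf (nat_lit 2755485699) (dlOf (nat_lit 4) (nat_lit 0xc0a400a9281000d03c8054780800701e402930040040004000400081a0002))))) 
(.nd (nat_lit 8) (.lf (nat_lit 24993795) (dlOf (nat_lit 1) (nat_lit 0x400200020008bd0002))) 
(.lf (nat_lit 8217347) (dlOf (nat_lit 1) (nat_lit 0x400400020008512102)))))))) (.nd (nat_lit 6) 
(.nd (nat_lit 28) (.nd (nat_lit 19) (.nd (nat_lit 27) (.nd (nat_lit 20) (.nd (nat_lit 29) 
(.lf (nat_lit 6442803207) (dlOf (nat_lit 1) (nat_lit 0x600080058002001800081c0403))) 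
(.lf (nat_lit 1610964999) (dlOf (nat_lit 1) (nat_lit 0x74004000800080a0002)))) (.nd (nat_lit 9) 
(.lf (nat_lit 22372359) (dlOf (nat_lit 1) (nat_lit 0x1c0018ad0001))) 
(.lf (nat_lit 41247239) (dlOf (nat_lit 1) (nat_lit 0xc00400020009227b02))))) (.nd (nat_lit 7) 
(.nd (nat_lit 8) 
(.lf (nat_lit 671440903) (dlOf (nat_lit 2) (nat_lit 0x201300050c080020008015800200d800081a0483))) 
(.lf (nat_lit 4429540615) (dlOf (nat_lit 1) (nat_lit 0x20018116681)))) 
(.lf (nat_lit 4429540999) (dlOf (nat_lit 1) (nat_lit 0x6c0018117181))))) (.nd (nat_lit 20) 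
(.nd (nat_lit 7) (.nd (nat_lit 26) 
(.lf (nat_lit 2819448839) (dlOf (nat_lit 1) (nat_lit 0x40028290281))) 
(.lf (nat_lit 67985415) (dlOf (nat_lit 1) (nat_lit 0x400200020008360002)))) 
(.lf (nat_lit 19758215) (dlOf (nat_lit 1) (nat_lit 0x4004000200089dc202)))) (.nd (nat_lit 23) 
(.nd (nat_lit 21) (.lf (nat_lit 18702343) (dlOf (nat_lit 1) (nat_lit 0x800200020008960282))) 
(.lf (nat_lit 8216583) (dlOf (nat_lit 1) (nat_lit 0x480018510001)))) (.nd (nat_lit 24) 
(.lf (nat_lit 10313735) (dlOf (nat_lit 1) (nat_lit 0x4002000200085d0002))) 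
(.lf (nat_lit 27090951) (dlOf (nat_lit 2) (nat_lit 0x6d0b005fe018ca0000))))))) (.nd (nat_lit 27) 
(.nd (nat_lit 7) (.nd (nat_lit 9) (.nd (nat_lit 19) 
(.lf (nat_lit 5704605703) (dlOf (nat_lit 2) (nat_lit 0x5806c0017a04001400200020008120582))) 
(.lf (nat_lit 3557646343) (dlOf (nat_lit 1) (nat_lit 0x40028290281)))) 
(.lf (nat_lit 1345677831) (dlOf (nat_lit 1) (nat_lit 0x440008dd5001)))) (.nd (nat_lit 26) 
(.lf (nat_lit 5637496967) (dlOf (nat_lit 3) (nat_lit 0x3a009801840480070022004c00b8000d8200688098010004a00ae01d00c500e006700640250030001001600970090018800801940000003214000a00080f0e01))) 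
(.lf (nat_lit 872767623) (dlOf (nat_lit 3) (nat_lit 0x5e039001601a002b806c00a002e0002608000402d000000180c0e00))))) 
(.nd (nat_lit 30) (.nd (nat_lit 8) (.nd (nat_lit 20) 
(.lf (nat_lit 2617597959) (dlOf (nat_lit 14) (nat_lit 0x32101a0068640818d00d00342a04000406801a1302002003400d0801031d01a0067dc0813000d002fc6040a38068017cd02001202c000d0150023641001180c8041c060033c02f0111017001180a400fc02e050e01200a4008803b802400e102400bc05e013c0120035a020028017801a4c0800600b000180540041104075a034000901580000010080800806a000201c80008100003))) 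
(.lf (nat_lit 471162887) (dlOf (nat_lit 2) (nat_lit 0x3604e80134c0800580080080002001000082a0003)))) 
(.lf (nat_lit 1007515911) (dlOf (nat_lit 1) (nat_lit 0x2a00183daa01)))) (.nd (nat_lit 26) 
(.lf (nat_lit 6308585479) (dlOf (nat_lit 2) (nat_lit 0x5806c0017804001400200020008120582))) 
(.nd (nat_lit 32) 
(.lf (nat_lit 1543856135) (dlOf (nat_lit 2) (nat_lit 0x2013000750080020008015800200d800081a0483))) 
(.lf (nat_lit 5838823431) (dlOf (nat_lit 1) (nat_lit 0x600080058002001800081c0403)))))))) 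
(.nd (nat_lit 7) (.nd (nat_lit 30) (.nd (nat_lit 8) (.nd (nat_lit 9) (.nd (nat_lit 20) 
(.lf (nat_lit 2550489159) (dlOf (nat_lit 2) (nat_lit 0xc02600040100000d01000d00080020002000400080c1483))) 
(.lf (nat_lit 1400903) (dlOf (nat_lit 1) (nat_lit 0x200180c0f01)))) 
(.lf (nat_lit 23421511) (dlOf (nat_lit 1) (nat_lit 0x400200020008b81102)))) 
(.lf (nat_lit 8746311) (dlOf (nat_lit 1) (nat_lit 0x400200020008519902)))) (.nd (nat_lit 28) 
(.nd (nat_lit 26) (.nd (nat_lit 27) 
(.lf (nat_lit 1610965063) (dlOf (nat_lit 1) (nat_lit 0x80080004002000200080a1683))) 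
(.lf (nat_lit 3892666439) (dlOf (nat_lit 3) (nat_lit 0x805c00014040004000000060200080008180601)))) 
(.lf (nat_lit 3288686663) (dlOf (nat_lit 2) (nat_lit 0x780cc00640580003404001000080c1481)))) 
(.nd (nat_lit 19) (.lf (nat_lit 4026884167) (dlOf (nat_lit 1) (nat_lit 0x200180c1881))) 
(.lf (nat_lit 1346199623) (dlOf (nat_lit 2) (nat_lit 0x160d7000ad018e60600)))))) (.nd (nat_lit 10) 
(.nd (nat_lit 11) (.nd (nat_lit 9) (.nd (nat_lit 22) 
(.lf (nat_lit 1208312007) (dlOf (nat_lit 1) (nat_lit 0x200180c1b81))) 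
(.lf (nat_lit 474308807) (dlOf (nat_lit 1) (nat_lit 0x440019145881)))) 
(.lf (nat_lit 1007514311) (dlOf (nat_lit 1) (nat_lit 0x10002000200083d8c82)))) (.nd (nat_lit 8) 
(.lf (nat_lit 8222919) (dlOf (nat_lit 1) (nat_lit 0xe001851a881))) 
(.lf (nat_lit 58550727) (dlOf (nat_lit 1) (nat_lit 0x200197e4e81))))) (.nd (nat_lit 27) 
(.nd (nat_lit 11) (.lf (nat_lit 47539399) (dlOf (nat_lit 1) (nat_lit 0x20019402d01))) 
(.lf (nat_lit 19758279) (dlOf (nat_lit 1) (nat_lit 0x600189dc201)))) (.nd (nat_lit 8) 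
(.lf (nat_lit 3624234183) (dlOf (nat_lit 1) (nat_lit 0x680080004002000e0008146383))) 
(.lf (nat_lit 3624234439) (dlOf (nat_lit 1) (nat_lit 0x40028146d01))))))))))) (.nd (nat_lit 18) 
(.nd (nat_lit 6) (.nd (nat_lit 16) (.nd (nat_lit 19) (.nd (nat_lit 7) (.nd (nat_lit 9) 
(.nd (nat_lit 20) (.nd (nat_lit 22) (.nd (nat_lit 2) 
(.lf (nat_lit 1208016899) (dlOf (nat_lit 1) (nat_lit 0x60008090001))) 
(.lf (nat_lit 1677782279) (dlOf (nat_lit 1) (nat_lit 0x20018006681)))) (.nd (nat_lit 21) 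
(.lf (nat_lit 12640259) (dlOf (nat_lit 1) (nat_lit 0x200186d0001))) 
(.lf (nat_lit 14737411) (dlOf (nat_lit 1) (nat_lit 0x1a80080004002002e0008770003))))) 
(.nd (nat_lit 2) (.nd (nat_lit 10) 
(.lf (nat_lit 15785987) (dlOf (nat_lit 1) (nat_lit 0x20004000c0008830002))) 
(.lf (nat_lit 19983363) (dlOf (nat_lit 1) (nat_lit 0x380080020002000c00089d5f83)))) 
(.nd (nat_lit 26) (.lf (nat_lit 3490766855) (dlOf (nat_lit 1) (nat_lit 0x1f400402400018020002))) 
(.lf (nat_lit 2752569351) (dlOf (nat_lit 1) (nat_lit 0x1f400402400018020002)))))) (.nd (nat_lit 10) 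
(.nd (nat_lit 11) (.nd (nat_lit 22) 
(.lf (nat_lit 1543561731) (dlOf (nat_lit 5) (nat_lit 0x280a0000fa0400140500007c0200140280003a8100090140001cc0800100080130002000200080b0d83))) 
(.lf (nat_lit 3493913091) (dlOf (nat_lit 3) (nat_lit 0x18205000a68100011010001f00800f00080040002002600081b0d83)))) 
(.lf (nat_lit 3623942659) (dlOf (nat_lit 1) (nat_lit 0x14002000c000800b282)))) (.nd (nat_lit 2) 
(.nd (nat_lit 27) (.lf (nat_lit 2684417539) (dlOf (nat_lit 1) (nat_lit 0x400400020008009c02))) 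
(.lf (nat_lit 2281764355) (dlOf (nat_lit 1) (nat_lit 0x400400020008009c02)))) (.nd (nat_lit 26) 
(.lf (nat_lit 4026590983) (dlOf (nat_lit 2) (nat_lit 0x1402300023818003b80))) 
(.lf (nat_lit 2348869383) (dlOf (nat_lit 11) (nat_lit 0x26015000300a00034020000200f0003007000b8000000a4180018058001602a000401400058040002c01c004000c0006000000144380038040002401c0005004003002a00130140001006000080200010000000278500010080000803c0008e08001001c000460200060100002281000100800010c080028040000401c001600c0001c0300010080000cc0806f8008025c00201420008003b83))))))) 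
(.nd (nat_lit 9) (.nd (nat_lit 8) (.nd (nat_lit 2) (.nd (nat_lit 10) 
(.lf (nat_lit 3691049091) (dlOf (nat_lit 1) (nat_lit 0x160008007d81))) 
(.lf (nat_lit 134278275) (dlOf (nat_lit 1) (nat_lit 0x840018006101)))) 
(.lf (nat_lit 1208017031) (dlOf (nat_lit 1) (nat_lit 0x60008090381)))) (.nd (nat_lit 11) 
(.nd (nat_lit 28) (.lf (nat_lit 1275126147) (dlOf (nat_lit 1) (nat_lit 0x20028091001))) 
(.lf (nat_lit 2080432515) (dlOf (nat_lit 1) (nat_lit 0x20028091001)))) (.nd (nat_lit 10) 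
(.lf (nat_lit 1346431363) (dlOf (nat_lit 2) (nat_lit 0x4417000de2018f64e80))) 
(.lf (nat_lit 2483088771) (dlOf (nat_lit 12) (nat_lit 0x6802a0001f01004601500118040000660800c005400140100001902003101500030040000620800a40540002202002e02a000100100340150000780801480a80003a0400a00540000402004e02a0000101002f015000000080168008007c002002c0008006c03)))))) 
(.nd (nat_lit 29) (.nd (nat_lit 2) (.nd (nat_lit 8) 
(.lf (nat_lit 4496352899) (dlOf (nat_lit 1) (nat_lit 0x20028053a01))) 
(.lf (nat_lit 3422614403) (dlOf (nat_lit 1) (nat_lit 0x2a0028009001)))) 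
(.lf (nat_lit 1140909703) (dlOf (nat_lit 1) (nat_lit 0x800400020008003a02)))) (.nd (nat_lit 26) 
(.nd (nat_lit 28) (.lf (nat_lit 3892373123) (dlOf (nat_lit 1) (nat_lit 0x60018083a01))) 
(.lf (nat_lit 6308292227) (dlOf (nat_lit 1) (nat_lit 0x8008000400200020008053a03)))) 
(.nd (nat_lit 2) (.lf (nat_lit 4899006083) (dlOf (nat_lit 1) (nat_lit 0x20018053a01))) 
(.lf (nat_lit 5301660295) (dlOf (nat_lit 1) (nat_lit 0x100018005481)))))))) (.nd (nat_lit 2) 
(.nd (nat_lit 21) (.nd (nat_lit 22) (.nd (nat_lit 27) (.nd (nat_lit 7) 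
(.lf (nat_lit 42524675) (dlOf (nat_lit 1) (nat_lit 0x680009260001))) 
(.lf (nat_lit 588931) (dlOf (nat_lit 1) (nat_lit 0x1c002800c181)))) (.nd (nat_lit 26) 
(.lf (nat_lit 134799363) (dlOf (nat_lit 1) (nat_lit 0x200180c0001))) 
(.lf (nat_lit 201908227) (dlOf (nat_lit 1) (nat_lit 0x200180c0001))))) (.nd (nat_lit 26) 
(.lf (nat_lit 3494436867) (dlOf (nat_lit 1) (nat_lit 0x20028220001))) 
(.lf (nat_lit 2756239363) (dlOf (nat_lit 1) (nat_lit 0x20028220001))))) (.nd (nat_lit 22) 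
(.nd (nat_lit 23) (.nd (nat_lit 26) 
(.lf (nat_lit 3493388291) (dlOf (nat_lit 1) (nat_lit 0x20008001000200060008130003))) 
(.lf (nat_lit 2755190787) (dlOf (nat_lit 1) (nat_lit 0x20008001000200060008130003)))) 
(.nd (nat_lit 24) (.lf (nat_lit 45670403) (dlOf (nat_lit 1) (nat_lit 0x40019350001))) 
(.lf (nat_lit 28893187) (dlOf (nat_lit 1) (nat_lit 0x23000200980008da0002))))) (.nd (nat_lit 9) 
(.nd (nat_lit 20) (.lf (nat_lit 48816131) (dlOf (nat_lit 1) (nat_lit 0xe0029430001))) 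
(.lf (nat_lit 24698883) (dlOf (nat_lit 8) (nat_lit 0x145ea806954080022f50019977a00c2b4500c8b03001a5ea0015aef4009568a01915060006bd400165de80032d14032220c00117a800cabbd00585a28061c018009af5000ad77a0040b4500c378300185ea000e2ef4030da0801c4004031c0018bb0002)))) 
(.lf (nat_lit 23650819) (dlOf (nat_lit 4) (nat_lit 0x1ac0000016802001e279001000000050c100078d440003004039c002008a0008b80d82)))))) 
(.nd (nat_lit 21) (.nd (nat_lit 20) (.nd (nat_lit 8) (.nd (nat_lit 26) 
(.lf (nat_lit 1611194375) (dlOf (nat_lit 1) (nat_lit 0xc0028110001))) 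
(.lf (nat_lit 738779143) (dlOf (nat_lit 1) (nat_lit 0xc0028110001)))) 
(.lf (nat_lit 50913543) (dlOf (nat_lit 1) (nat_lit 0x6400294d3581)))) (.nd (nat_lit 22) 
(.nd (nat_lit 23) (.nd (nat_lit 26) 
(.lf (nat_lit 1630215) (dlOf (nat_lit 1) (nat_lit 0x8a0018100001))) 
(.lf (nat_lit 471392263) (dlOf (nat_lit 1) (nat_lit 0x200282f0481)))) 
(.lf (nat_lit 10018823) (dlOf (nat_lit 1) (nat_lit 0x4002000200085a0582)))) (.nd (nat_lit 10) 
(.lf (nat_lit 30990343) (dlOf (nat_lit 1) (nat_lit 0x38008004800200100008e60583))) 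
(.lf (nat_lit 56157191) (dlOf (nat_lit 1) (nat_lit 0x20009732881)))))) (.nd (nat_lit 22) 
(.nd (nat_lit 10) (.nd (nat_lit 26) 
(.lf (nat_lit 3493388295) (dlOf (nat_lit 2) (nat_lit 0x600e802d30080048008001c002000c0008130003))) 
(.lf (nat_lit 2755190791) (dlOf (nat_lit 2) (nat_lit 0x600e8016cc080048008001c002000c0008130003)))) 
(.lf (nat_lit 37282823) (dlOf (nat_lit 1) (nat_lit 0x4004000200090d2882)))) (.nd (nat_lit 7) 
(.nd (nat_lit 9) (.lf (nat_lit 49865735) (dlOf (nat_lit 1) (nat_lit 0x1a00294c2881))) 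
(.lf (nat_lit 57207303) (dlOf (nat_lit 1) (nat_lit 0x180029795001)))) 
(.lf (nat_lit 57207175) (dlOf (nat_lit 2) (nat_lit 0x18577800000080018008006400200100009794e83)))))))) 
(.nd (nat_lit 2) (.nd (nat_lit 19) (.nd (nat_lit 26) (.nd (nat_lit 23) (.nd (nat_lit 7) 
(.nd (nat_lit 8) (.nd (nat_lit 11) 
(.lf (nat_lit 3624001539) (dlOf (nat_lit 6) (nat_lit 0x2c060001602f000b017000500b4003000a0016002000d000005a4c38002000802d1e04000805a0168c02000a02e00b1081000d0010000000800980080018002001a0008090003))) 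
(.lf (nat_lit 5905704963) (dlOf (nat_lit 1) (nat_lit 0x400200020008144702)))) 
(.lf (nat_lit 2952913155) (dlOf (nat_lit 1) (nat_lit 0xc00200040008010702)))) (.nd (nat_lit 12) 
(.lf (nat_lit 5100398211) (dlOf (nat_lit 1) (nat_lit 0x70008006400200140008053a03))) 
(.lf (nat_lit 3355571843) (dlOf (nat_lit 2) (nat_lit 0xc05e000b202000200080a9d81))))) 
(.nd (nat_lit 20) 
(.lf (nat_lit 12705795) (dlOf (nat_lit 1) (nat_lit 0x200080010002000800086d0003))) 
(.nd (nat_lit 21) (.lf (nat_lit 47308803) (dlOf (nat_lit 1) (nat_lit 0x4004000600093d0002))) 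
(.lf (nat_lit 28434435) (dlOf (nat_lit 1) (nat_lit 0x20018d90001)))))) (.nd (nat_lit 7) 
(.nd (nat_lit 11) (.nd (nat_lit 27) 
(.lf (nat_lit 67231747) (dlOf (nat_lit 1) (nat_lit 0xc00028040001))) 
(.lf (nat_lit 2885804035) (dlOf (nat_lit 6) (nat_lit 0x2c060001602f000b017000500b4003000a0016002000d00000549038002000802a4004000805a0151d02000a02e00a5701000d0010000000800980080018002001a0008090003)))) 
(.lf (nat_lit 201455619) (dlOf (nat_lit 1) (nat_lit 0x40040002000800a602)))) (.nd (nat_lit 8) 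
(.nd (nat_lit 9) (.lf (nat_lit 6509685891) (dlOf (nat_lit 1) (nat_lit 0x340018146101))) 
(.lf (nat_lit 4899071619) (dlOf (nat_lit 1) (nat_lit 0x50008003800200140008053a03)))) 
(.lf (nat_lit 5838597507) (dlOf (nat_lit 1) (nat_lit 0x100080004002000200080f6c03)))))) 
(.nd (nat_lit 24) (.nd (nat_lit 26) (.nd (nat_lit 23) (.nd (nat_lit 27) 
(.lf (nat_lit 1342824451) (dlOf (nat_lit 6) (nat_lit 0x21130001083800083460186506000a22f00031130001083800083460186408000e22f000611300028838001c3460186308000e22f000611300030838001c3460186208000c2330006116800208a800283e6008650800d400080e0001))) 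
(.lf (nat_lit 134864899) (dlOf (nat_lit 2) (nat_lit 0xd800000000040028002006800080d0002)))) 
(.lf (nat_lit 42590211) (dlOf (nat_lit 1) (nat_lit 0x2a0019260001)))) (.nd (nat_lit 28) 
(.nd (nat_lit 27) 
(.lf (nat_lit 4362723331) (dlOf (nat_lit 2) (nat_lit 0xc020800480c8019d4080110004005600180e0002))) 
(.lf (nat_lit 201973763) (dlOf (nat_lit 2) (nat_lit 0xd800000000040028002006800080d0002)))) 
(.nd (nat_lit 7) 
(.lf (nat_lit 4228505603) (dlOf (nat_lit 2) (nat_lit 0xc01d000480c400e82080110004005600180e0002))) 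
(.lf (nat_lit 6378086531) (dlOf (nat_lit 1) (nat_lit 0x40018103a01)))))) (.nd (nat_lit 21) 
(.nd (nat_lit 20) (.nd (nat_lit 22) 
(.lf (nat_lit 59367427) (dlOf (nat_lit 1) (nat_lit 0x8004000600197f0002))) 
(.lf (nat_lit 21618691) (dlOf (nat_lit 2) (nat_lit 0x5ebd005cbc080020008000400200040008a50003)))) 
(.lf (nat_lit 26861571) (dlOf (nat_lit 1) (nat_lit 0x10008000800200040008c80003)))) 
(.nd (nat_lit 23) 
(.lf (nat_lit 19521539) (dlOf (nat_lit 7) (nat_lit 0x456b00042b50001923000149160002476000123a805a543000195ac0008ad4000a48c0002245800091d802d28140014ad6000256a00032460003122c00188ec000647500b490600052b5800295a80010918000a48b000223b000211d402d22180030ad6001848c00b468200052b58003923002d12080004004002600089b0002))) 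
(.lf (nat_lit 27910147) (dlOf (nat_lit 1) (nat_lit 0x4000200060008d40002))))))) (.nd (nat_lit 30) 
(.nd (nat_lit 32) (.nd (nat_lit 20) (.nd (nat_lit 19) 
(.lf (nat_lit 67231751) (dlOf (nat_lit 1) (nat_lit 0x400200020008040002))) 
(.lf (nat_lit 27910151) (dlOf (nat_lit 1) (nat_lit 0x1000400020008d40002)))) (.nd (nat_lit 21) 
(.nd (nat_lit 23) (.lf (nat_lit 68280327) (dlOf (nat_lit 1) (nat_lit 0x200184f0281))) 
(.lf (nat_lit 26337287) (dlOf (nat_lit 1) (nat_lit 0x260028c30001)))) 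
(.lf (nat_lit 28434439) (dlOf (nat_lit 1) (nat_lit 0x800200020008d90282))))) (.nd (nat_lit 7) 
(.nd (nat_lit 9) 
(.lf (nat_lit 5301723143) (dlOf (nat_lit 2) (nat_lit 0x100fc0369c04002000400200008040002))) 
(.lf (nat_lit 4697744903) (dlOf (nat_lit 1) (nat_lit 0x800801e400200800008093683)))) 
(.nd (nat_lit 8) 
(.lf (nat_lit 4966178951) (dlOf (nat_lit 2) (nat_lit 0x4405a0002e0200080018030e01))) 
(.lf (nat_lit 6442575751) (dlOf (nat_lit 1) (nat_lit 0x200280f4181)))))) (.nd (nat_lit 29) 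
(.nd (nat_lit 7) (.nd (nat_lit 8) 
(.lf (nat_lit 5435940871) (dlOf (nat_lit 2) (nat_lit 0x100fc02fc404002000400200008040002))) 
(.lf (nat_lit 3221351687) (dlOf (nat_lit 1) (nat_lit 0x400400020018116682)))) (.nd (nat_lit 8) 
(.lf (nat_lit 5503049863) (dlOf (nat_lit 20) (nat_lit 0x1e02c019b01580098080094c02e05e201602b000a802380500128026010c012032e00800ba803c0b5c01c024400c0039005818c80200bfc0080382003029b000807000000006c4c0074028014c01300180088000d4180a5005400dc02800cc013012f00800680038050400800100010001a07009100a0072804c011c02200033060014013000180102a300a82b8005016740260a1601102ba008015e80380005c180a8002a0abc0140598009827580440acc020058000e00720018000b43800c8050008402600380110001603007200a005c804c007c0220002b06003a01400ca00980120044000540c005c02800100130001482019700a817c80500cfc02604e8011019100800c980380005018001c026000140201720130000901000b00980003808039804c0001a0402b40260000c020056013000050100b5009800024080ad0008003000207cc0008030e03)))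 
(.lf (nat_lit 3221350791) (dlOf (nat_lit 1) (nat_lit 0x20018114e81))))) (.nd (nat_lit 19) 
(.nd (nat_lit 9) (.lf (nat_lit 5905704967) (dlOf (nat_lit 1) (nat_lit 0x400200020008144702))) 
(.lf (nat_lit 1610737159) (dlOf (nat_lit 1) (nat_lit 0x1000200020008093682)))) (.nd (nat_lit 20) 
(.lf (nat_lit 4096385031) (dlOf (nat_lit 1) (nat_lit 0x400200020008100002))) 
(.lf (nat_lit 4095336455) (dlOf (nat_lit 1) (nat_lit 0x20028090001))))))))) (.nd (nat_lit 16) 
(.nd (nat_lit 28) (.nd (nat_lit 10) (.nd (nat_lit 23) (.nd (nat_lit 26) (.nd (nat_lit 2) 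
(.nd (nat_lit 8) (.lf (nat_lit 17883203) (dlOf (nat_lit 1) (nat_lit 0x60028900e81))) 
(.lf (nat_lit 671146307) (dlOf (nat_lit 2) (nat_lit 0x30130001340800280080018002000a00080b0603)))) 
(.nd (nat_lit 21) (.lf (nat_lit 134799431) (dlOf (nat_lit 1) (nat_lit 0x8002003600080c1482))) 
(.lf (nat_lit 36233287) (dlOf (nat_lit 1) (nat_lit 0xe0019050601))))) (.nd (nat_lit 7) 
(.nd (nat_lit 9) 
(.lf (nat_lit 1275125827) (dlOf (nat_lit 1) (nat_lit 0x18008000800200020008090003))) 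
(.lf (nat_lit 1811997251) (dlOf (nat_lit 1) (nat_lit 0x3000080b1101)))) 
(.lf (nat_lit 1811997123) (dlOf (nat_lit 2) (nat_lit 0x2024000228180b0900))))) (.nd (nat_lit 2) 
(.nd (nat_lit 8) (.nd (nat_lit 21) 
(.lf (nat_lit 12640323) (dlOf (nat_lit 1) (nat_lit 0x1800286d0d01))) 
(.lf (nat_lit 14737475) (dlOf (nat_lit 2) (nat_lit 0x129fbc00078040018004000e0008770582)))) 
(.lf (nat_lit 46195011) (dlOf (nat_lit 1) (nat_lit 0x7b0008047400200320009380c03)))) 
(.nd (nat_lit 7) (.nd (nat_lit 22) 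
(.lf (nat_lit 44097607) (dlOf (nat_lit 1) (nat_lit 0x8008003c002000200092c0603))) 
(.lf (nat_lit 14737479) (dlOf (nat_lit 3) (nat_lit 0x26ef0000a8100043f78000400800380080018002000e0008770603)))) 
(.lf (nat_lit 10543303) (dlOf (nat_lit 1) (nat_lit 0x1e00285f5881)))))) (.nd (nat_lit 9) 
(.nd (nat_lit 8) (.nd (nat_lit 2) (.nd (nat_lit 7) 
(.lf (nat_lit 134278211) (dlOf (nat_lit 1) (nat_lit 0x20028006081))) 
(.lf (nat_lit 55633091) (dlOf (nat_lit 1) (nat_lit 0x200096d2d01)))) 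
(.lf (nat_lit 1275126855) (dlOf (nat_lit 1) (nat_lit 0x400400020008092882)))) (.nd (nat_lit 26) 
(.lf (nat_lit 62787) (dlOf (nat_lit 1) (nat_lit 0x40018009901))) 
(.lf (nat_lit 604042563) (dlOf (nat_lit 1) (nat_lit 0x20018009901))))) (.nd (nat_lit 8) 
(.nd (nat_lit 27) (.lf (nat_lit 4899006019) (dlOf (nat_lit 1) (nat_lit 0x400400020018053802))) 
(.nd (nat_lit 30) (.lf (nat_lit 4496352835) (dlOf (nat_lit 1) (nat_lit 0x20028053801))) 
(.lf (nat_lit 5570094659) (dlOf (nat_lit 1) (nat_lit 0x400400020008053802))))) (.nd (nat_lit 19) 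
(.lf (nat_lit 2348869443) (dlOf (nat_lit 1) (nat_lit 0x800400160008003e02))) 
(.lf (nat_lit 583491) (dlOf (nat_lit 2) (nat_lit 0x3400000006c0400f8002002e0008003e02))))))) 
(.nd (nat_lit 8) (.nd (nat_lit 10) (.nd (nat_lit 9) (.nd (nat_lit 19) (.nd (nat_lit 20) 
(.lf (nat_lit 2080432195) (dlOf (nat_lit 1) (nat_lit 0x28008002000200080008090003))) 
(.lf (nat_lit 472965187) (dlOf (nat_lit 2) (nat_lit 0x606c8002823400080fa002490600020018b70601)))) 
(.lf (nat_lit 474538051) (dlOf (nat_lit 4) (nat_lit 0x778684072812c038008401a104180db01d006f40e6027001901a100a80a600000047824004802c0023202007e096001f0398008c41000d80080378002051000091a0603)))) 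
(.nd (nat_lit 7) (.lf (nat_lit 939582019) (dlOf (nat_lit 1) (nat_lit 0x3000080b1101))) 
(.lf (nat_lit 1342239427) (dlOf (nat_lit 1) (nat_lit 0x20008000c002000a0008008c83))))) 
(.nd (nat_lit 2) (.nd (nat_lit 7) (.nd (nat_lit 9) 
(.lf (nat_lit 1342237763) (dlOf (nat_lit 1) (nat_lit 0x20028006081))) 
(.lf (nat_lit 6308292163) (dlOf (nat_lit 1) (nat_lit 0x400400020008053802)))) 
(.lf (nat_lit 1342238403) (dlOf (nat_lit 1) (nat_lit 0x8008000800200060008007283)))) 
(.nd (nat_lit 7) (.nd (nat_lit 27) 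
(.lf (nat_lit 4093699143) (dlOf (nat_lit 1) (nat_lit 0x20028002881))) 
(.lf (nat_lit 2080433223) (dlOf (nat_lit 1) (nat_lit 0x400400020008092882)))) 
(.lf (nat_lit 2483088583) (dlOf (nat_lit 2) (nat_lit 0x2015000680200004608008c004000c0008006382)))))) 
(.nd (nat_lit 7) (.nd (nat_lit 2) (.nd (nat_lit 9) (.nd (nat_lit 10) 
(.lf (nat_lit 1543561539) (dlOf (nat_lit 2) (nat_lit 0x30130001500800280080018002000a00080b0603))) 
(.lf (nat_lit 3691050307) (dlOf (nat_lit 2) (nat_lit 0x20220001001000d8000000000c0030002001c0008009902)))) 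
(.lf (nat_lit 2415978307) (dlOf (nat_lit 1) (nat_lit 0x400400020008003e02)))) (.nd (nat_lit 9) 
(.lf (nat_lit 1409346887) (dlOf (nat_lit 3) (nat_lit 0x2a05f0000701001102f8000340800a8008002c00200100008006983))) 
(.lf (nat_lit 1346431815) (dlOf (nat_lit 2) (nat_lit 0x908d80040804000c00200020008f65c02))))) 
(.nd (nat_lit 9) (.nd (nat_lit 10) 
(.lf (nat_lit 939581891) (dlOf (nat_lit 2) (nat_lit 0x2024000228180b0900))) (.nd (nat_lit 26) 
(.lf (nat_lit 2952852931) (dlOf (nat_lit 1) (nat_lit 0x800400040018009a02))) 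
(.lf (nat_lit 3691050435) (dlOf (nat_lit 1) (nat_lit 0x20028009a01))))) (.nd (nat_lit 2) 
(.lf (nat_lit 1409350595) (dlOf (nat_lit 2) (nat_lit 0x2028800400c8003740800040040002001800be02))) 
(.nd (nat_lit 26) 
(.lf (nat_lit 5234551751) (dlOf (nat_lit 2) (nat_lit 0x10158000980800b00080030002000c0008055d83))) 
(.lf (nat_lit 5704313799) (dlOf (nat_lit 5) (nat_lit 0x1400c800e0058000c0160002c06002e019000c0058000a81003b006401a001600004040026019000200580000c100310008013400200060008055d83))))))))) 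
(.nd (nat_lit 26) (.nd (nat_lit 8) (.nd (nat_lit 9) (.nd (nat_lit 19) (.nd (nat_lit 2) 
(.nd (nat_lit 21) (.nd (nat_lit 23) 
(.lf (nat_lit 4697743427) (dlOf (nat_lit 1) (nat_lit 0x80028090001))) 
(.lf (nat_lit 25288771) (dlOf (nat_lit 4) (nat_lit 0x54e45802f70e00006a040007916001dc380001a410010e45800b70e0000220400540018bf0c01)))) 
(.lf (nat_lit 52551747) (dlOf (nat_lit 2) (nat_lit 0xa5486005298d000aa029550600)))) 
(.nd (nat_lit 10) (.lf (nat_lit 268558407) (dlOf (nat_lit 1) (nat_lit 0x400400020008070602))) 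
(.lf (nat_lit 1610736711) (dlOf (nat_lit 1) (nat_lit 0x400400020008092882))))) (.nd (nat_lit 21) 
(.nd (nat_lit 27) 
(.lf (nat_lit 1342824515) (dlOf (nat_lit 1) (nat_lit 0x80080048002001000080e0d03))) 
(.lf (nat_lit 134864963) (dlOf (nat_lit 1) (nat_lit 0x200080d0c01)))) (.nd (nat_lit 7) 
(.lf (nat_lit 45736003) (dlOf (nat_lit 2) (nat_lit 0x698e000a8819360600))) 
(.lf (nat_lit 32105667) (dlOf (nat_lit 1) (nat_lit 0x580080030002000a0008ef2d03)))))) 
(.nd (nat_lit 10) (.nd (nat_lit 2) (.nd (nat_lit 7) 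
(.lf (nat_lit 23716419) (dlOf (nat_lit 1) (nat_lit 0x20008b81101))) 
(.lf (nat_lit 20050627) (dlOf (nat_lit 1) (nat_lit 0x80080004002000200089d8c83)))) 
(.lf (nat_lit 9040583) (dlOf (nat_lit 1) (nat_lit 0x16000200720008518c82)))) (.nd (nat_lit 2) 
(.nd (nat_lit 7) (.lf (nat_lit 805432899) (dlOf (nat_lit 1) (nat_lit 0xc00200240008117182))) 
(.lf (nat_lit 20049603) (dlOf (nat_lit 1) (nat_lit 0x2600189d7281)))) 
(.lf (nat_lit 805433031) (dlOf (nat_lit 3) (nat_lit 0x140000000381000400000000008024000800c0002000c0008117303)))))) 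
(.nd (nat_lit 2) (.nd (nat_lit 10) (.nd (nat_lit 19) 
(.lf (nat_lit 1073865027) (dlOf (nat_lit 1) (nat_lit 0x400200020008014c02))) 
(.lf (nat_lit 50979139) (dlOf (nat_lit 1) (nat_lit 0x24004004200094e8702)))) (.nd (nat_lit 9) 
(.nd (nat_lit 28) 
(.lf (nat_lit 3221355843) (dlOf (nat_lit 2) (nat_lit 0x300b0019e40800380080008002000a000811c903))) 
(.lf (nat_lit 805436739) (dlOf (nat_lit 1) (nat_lit 0x7800800040020008000811c903)))) 
(.lf (nat_lit 8513347) (dlOf (nat_lit 1) (nat_lit 0x1400200040008513e02))))) (.nd (nat_lit 9) 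
(.nd (nat_lit 10) 
(.lf (nat_lit 671213895) (dlOf (nat_lit 3) (nat_lit 0x30130003006c00c8006000600100020000000342800f0098001403600620030002000000000200158008002400200300008144d03))) 
(.lf (nat_lit 652615) (dlOf (nat_lit 2) (nat_lit 0x1d4740148e04000800200020008009902)))) 
(.nd (nat_lit 7) (.lf (nat_lit 46263111) (dlOf (nat_lit 1) (nat_lit 0xc0009385c01))) 
(.lf (nat_lit 20048839) (dlOf (nat_lit 2) (nat_lit 0x1999a000cc8f0000e8289d5d80))))))) 
(.nd (nat_lit 10) (.nd (nat_lit 19) (.nd (nat_lit 8) (.nd (nat_lit 2) (.nd (nat_lit 27) 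
(.lf (nat_lit 2483150915) (dlOf (nat_lit 9) (nat_lit 0x7402a00021010001017000180a804d8020000600f013000700ce803400040180003c0e007202a01210080086803800200180003a08005202e000f01500888040001801e010000e022e0068000e43000180b8012005401260100079007011880340006e14000c0540092010000138200860080000940801c80a8036002000ea00e00000038030e00))) 
(.lf (nat_lit 2348933187) (dlOf (nat_lit 9) (nat_lit 0x7402a00021010001016000180a804d8020000600f013000700ce803400040180003c0e007202a01210080086803800200180003a08005202c000f01500888040001801e010000e022e0068000e43000180b0012005401260100079007011880340006e14000c0540092010000138200860080000940801c80a8036002000ea00e00000038030e00)))) 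
(.lf (nat_lit 6377564871) (dlOf (nat_lit 1) (nat_lit 0x1a600280e5801)))) (.nd (nat_lit 2) 
(.nd (nat_lit 11) (.lf (nat_lit 1946280259) (dlOf (nat_lit 1) (nat_lit 0x400200020008014c02))) 
(.lf (nat_lit 1677846851) (dlOf (nat_lit 1) (nat_lit 0x80080034002001c0008114d03)))) 
(.lf (nat_lit 738323399) (dlOf (nat_lit 2) (nat_lit 0x1001c0000e818095d80))))) (.nd (nat_lit 27) 
(.nd (nat_lit 2) 
(.lf (nat_lit 4094288323) (dlOf (nat_lit 3) (nat_lit 0x3007f0010981001d03f800808080138008013000200060008037003))) 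
(.lf (nat_lit 1409933383) (dlOf (nat_lit 2) (nat_lit 0x405a0002602000200280a0e01)))) 
(.nd (nat_lit 20) (.nd (nat_lit 28) 
(.lf (nat_lit 201973827) (dlOf (nat_lit 1) (nat_lit 0x200080d0c01))) 
(.lf (nat_lit 470409283) (dlOf (nat_lit 1) (nat_lit 0x80080048002001000080e0d03)))) 
(.lf (nat_lit 471457859) (dlOf (nat_lit 1) (nat_lit 0xa0028300e81)))))) (.nd (nat_lit 9) 
(.nd (nat_lit 2) (.nd (nat_lit 7) 
(.lf (nat_lit 469890371) (dlOf (nat_lit 1) (nat_lit 0xc00200020008009902))) (.nd (nat_lit 11) 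
(.lf (nat_lit 474080451) (dlOf (nat_lit 12) (nat_lit 0xc20180001301000c0b48007059800180300001d0600041690000e01000300c00006c0800285a400040300001804000c166000f00c0000401000180600001c0400302d20006168001400c000014180080060000040400042d200020180000082002300c000000080008008004000200160009082d03))) 
(.lf (nat_lit 3825331395) (dlOf (nat_lit 1) (nat_lit 0x200028146381))))) (.nd (nat_lit 7) 
(.lf (nat_lit 1543630151) (dlOf (nat_lit 3) (nat_lit 0x68098005803a003e0180017008005400140020004001600000009070008013000b0074008c030001a0100098002800040280140008009c00200220008146983))) 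
(.lf (nat_lit 1409412295) (dlOf (nat_lit 1) (nat_lit 0x4c00200f00008006382))))) (.nd (nat_lit 8) 
(.nd (nat_lit 11) (.nd (nat_lit 30) 
(.lf (nat_lit 4496418371) (dlOf (nat_lit 1) (nat_lit 0x400400040008053802))) 
(.lf (nat_lit 5570160195) (dlOf (nat_lit 1) (nat_lit 0x40008053801)))) 
(.lf (nat_lit 6509686339) (dlOf (nat_lit 1) (nat_lit 0x100018147181)))) (.nd (nat_lit 2) 
(.lf (nat_lit 201451331) (dlOf (nat_lit 1) (nat_lit 0x400200020008003e02))) 
(.lf (nat_lit 2751588167) (dlOf (nat_lit 1) (nat_lit 0x260028003e01)))))))))) (.nd (nat_lit 28) 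
(.nd (nat_lit 16) (.nd (nat_lit 2) (.nd (nat_lit 19) (.nd (nat_lit 26) (.nd (nat_lit 6) 
(.nd (nat_lit 25) (.nd (nat_lit 7) 
(.lf (nat_lit 1208279043) (dlOf (nat_lit 2) (nat_lit 0x5603900cb68180b0000))) 
(.lf (nat_lit 3465347) (dlOf (nat_lit 1) (nat_lit 0x400200020008200102)))) (.nd (nat_lit 23) 
(.lf (nat_lit 37019651) (dlOf (nat_lit 1) (nat_lit 0x400200020009080002))) 
(.lf (nat_lit 62185475) (dlOf (nat_lit 7) (nat_lit 0x10a5b000252c80032944002d49e000aa3c000251d000328a0038c61c00414b60010a5900035288003a93c00114780016a3a00095150005a8a0038c42000494b60004a5900015288003293c00194740014a2a000851400717838008a96c00094b2000ca51000b527800528f0001d45401bd60c0010a5b000a52c80012944002945401bd5080004a5b00d88019970000))))) 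
(.nd (nat_lit 7) 
(.lf (nat_lit 1208279107) (dlOf (nat_lit 2) (nat_lit 0x1540180001702002000080b0581))) 
(.nd (nat_lit 20) (.lf (nat_lit 8712899) (dlOf (nat_lit 1) (nat_lit 0x400200060008518c82))) 
(.lf (nat_lit 20247235) (dlOf (nat_lit 1) (nat_lit 0x4002000200089d8c82)))))) (.nd (nat_lit 29) 
(.nd (nat_lit 31) (.nd (nat_lit 20) 
(.lf (nat_lit 4362395651) (dlOf (nat_lit 1) (nat_lit 0x20018050001))) 
(.lf (nat_lit 68476931) (dlOf (nat_lit 1) (nat_lit 0x320018580001)))) (.nd (nat_lit 6) 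
(.lf (nat_lit 2349129731) (dlOf (nat_lit 1) (nat_lit 0x18002000c00080c0002))) 
(.lf (nat_lit 3288653891) (dlOf (nat_lit 1) (nat_lit 0x1800280a0e01))))) (.nd (nat_lit 22) 
(.nd (nat_lit 27) (.lf (nat_lit 604299267) (dlOf (nat_lit 2) (nat_lit 0x203a00587018130000))) 
(.lf (nat_lit 1812258819) (dlOf (nat_lit 1) (nat_lit 0x2e00081c0001)))) 
(.lf (nat_lit 2755977219) (dlOf (nat_lit 1) (nat_lit 0x2000281c0001)))))) (.nd (nat_lit 9) 
(.nd (nat_lit 23) (.nd (nat_lit 26) (.nd (nat_lit 21) 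
(.lf (nat_lit 2819416067) (dlOf (nat_lit 1) (nat_lit 0x48008003000200020008280003))) 
(.lf (nat_lit 2940931) (dlOf (nat_lit 4) (nat_lit 0x71a0800309d2000c4d800a89830004274800613600295c08002cd0400124e9000326c00525c180438008142c002014c00081e0003)))) 
(.nd (nat_lit 6) (.lf (nat_lit 69001219) (dlOf (nat_lit 1) (nat_lit 0x60028860001))) 
(.lf (nat_lit 4362920003) (dlOf (nat_lit 2) (nat_lit 0x6000000000181a0000))))) (.nd (nat_lit 24) 
(.lf (nat_lit 9232387) (dlOf (nat_lit 1) (nat_lit 0xc0018530001))) 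
(.lf (nat_lit 59564035) (dlOf (nat_lit 1) (nat_lit 0x128008006400200760009810003))))) 
(.nd (nat_lit 6) (.nd (nat_lit 7) 
(.lf (nat_lit 135062019) (dlOf (nat_lit 1) (nat_lit 0x200281b0d81))) 
(.lf (nat_lit 537718403) (dlOf (nat_lit 2) (nat_lit 0x480be0004d02001c00180f7181)))) 
(.nd (nat_lit 8) (.lf (nat_lit 19722947) (dlOf (nat_lit 1) (nat_lit 0xa00080004002000200089d8c83))) 
(.lf (nat_lit 19721155) (dlOf (nat_lit 1) (nat_lit 0x4002000200089d5d82))))))) (.nd (nat_lit 22) 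
(.nd (nat_lit 6) (.nd (nat_lit 26) (.nd (nat_lit 7) (.nd (nat_lit 8) 
(.lf (nat_lit 11329543) (dlOf (nat_lit 1) (nat_lit 0x8008000400200020008690003))) 
(.lf (nat_lit 322823) (dlOf (nat_lit 1) (nat_lit 0x20018006681)))) 
(.lf (nat_lit 671408263) (dlOf (nat_lit 1) (nat_lit 0x180008183d01)))) (.nd (nat_lit 7) 
(.nd (nat_lit 8) (.lf (nat_lit 3825524743) (dlOf (nat_lit 1) (nat_lit 0x400200020008190002))) 
(.lf (nat_lit 67958023) (dlOf (nat_lit 1) (nat_lit 0x40018339601)))) 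
(.lf (nat_lit 5570355335) (dlOf (nat_lit 1) (nat_lit 0x400400020008100f02))))) (.nd (nat_lit 27) 
(.nd (nat_lit 7) (.nd (nat_lit 8) 
(.lf (nat_lit 9232455) (dlOf (nat_lit 2) (nat_lit 0x32719000e37000012c100038008000400200320008530603))) 
(.lf (nat_lit 3221545287) (dlOf (nat_lit 1) (nat_lit 0x8008000400200020008137f03)))) 
(.lf (nat_lit 20247239) (dlOf (nat_lit 1) (nat_lit 0x4002000200089d8c82)))) (.nd (nat_lit 29) 
(.lf (nat_lit 1208279111) (dlOf (nat_lit 5) (nat_lit 0x1600a4000300400e00520001702003a0290000a810086013002c002400000080008004002400080b0602))) 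
(.lf (nat_lit 1745150023) (dlOf (nat_lit 1) (nat_lit 0x100080004002000200080b0603)))))) 
(.nd (nat_lit 10) (.nd (nat_lit 7) (.nd (nat_lit 6) 
(.lf (nat_lit 22863879) (dlOf (nat_lit 1) (nat_lit 0x60018b30001))) 
(.lf (nat_lit 23388743) (dlOf (nat_lit 1) (nat_lit 0x20028b81101)))) (.nd (nat_lit 8) 
(.lf (nat_lit 21291143) (dlOf (nat_lit 1) (nat_lit 0xd0008002c00200140008a30f03))) 
(.lf (nat_lit 23388551) (dlOf (nat_lit 1) (nat_lit 0x8008000400200020008b80783))))) 
(.nd (nat_lit 19) (.nd (nat_lit 11) 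
(.lf (nat_lit 40166407) (dlOf (nat_lit 1) (nat_lit 0x1000191f2881))) 
(.lf (nat_lit 54848519) (dlOf (nat_lit 1) (nat_lit 0x240019655f81)))) (.nd (nat_lit 7) 
(.lf (nat_lit 8185351) (dlOf (nat_lit 1) (nat_lit 0x400400020018513682))) 
(.lf (nat_lit 50128007) (dlOf (nat_lit 2) (nat_lit 0xdbb2000128194c2b00)))))))) (.nd (nat_lit 2) 
(.nd (nat_lit 6) (.nd (nat_lit 22) (.nd (nat_lit 19) (.nd (nat_lit 9) (.nd (nat_lit 25) 
(.nd (nat_lit 26) (.lf (nat_lit 3892699139) (dlOf (nat_lit 1) (nat_lit 0x600181d0001))) 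
(.lf (nat_lit 4362461187) (dlOf (nat_lit 1) (nat_lit 0x24004000c0008090002)))) 
(.lf (nat_lit 33939459) (dlOf (nat_lit 1) (nat_lit 0x60028f80001)))) (.nd (nat_lit 8) 
(.lf (nat_lit 134603267) (dlOf (nat_lit 2) (nat_lit 0x11807a0001802005a0008090d81))) 
(.lf (nat_lit 1745218307) (dlOf (nat_lit 1) (nat_lit 0x1c00280e5a81))))) (.nd (nat_lit 20) 
(.nd (nat_lit 23) 
(.lf (nat_lit 537780227) (dlOf (nat_lit 5) (nat_lit 0x8070000c0000054c81000401d800200ea001407100090380004018800240c2001400000a8e87000703b000180000295c08000c0ec0149702000e0008190001))) 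
(.lf (nat_lit 42852355) (dlOf (nat_lit 1) (nat_lit 0xa0009280001)))) (.nd (nat_lit 7) 
(.lf (nat_lit 29220867) (dlOf (nat_lit 1) (nat_lit 0x400400020008de0002))) 
(.lf (nat_lit 18735235) (dlOf (nat_lit 1) (nat_lit 0x400200020008970482)))))) (.nd (nat_lit 10) 
(.nd (nat_lit 7) (.nd (nat_lit 24) 
(.lf (nat_lit 12967939) (dlOf (nat_lit 1) (nat_lit 0x20004000c00086f0002))) 
(.lf (nat_lit 29745155) (dlOf (nat_lit 1) (nat_lit 0xf4004004a0008e30002)))) 
(.lf (nat_lit 40233347) (dlOf (nat_lit 1) (nat_lit 0x4004000200091f4e82)))) (.nd (nat_lit 20) 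
(.lf (nat_lit 38134787) (dlOf (nat_lit 1) (nat_lit 0x4002000a0009132882))) 
(.lf (nat_lit 47571971) (dlOf (nat_lit 1) (nat_lit 0x48008002c00200040009402883)))))) 
(.nd (nat_lit 20) (.nd (nat_lit 19) (.nd (nat_lit 27) (.nd (nat_lit 30) 
(.lf (nat_lit 4362461251) (dlOf (nat_lit 1) (nat_lit 0x400400020008090002))) 
(.lf (nat_lit 3288719427) (dlOf (nat_lit 3) (nat_lit 0x410080000d404010c0400006902000200180d0c01)))) 
(.nd (nat_lit 8) (.lf (nat_lit 4496678979) (dlOf (nat_lit 1) (nat_lit 0x20018120481))) 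
(.lf (nat_lit 2886068035) (dlOf (nat_lit 1) (nat_lit 0x800400020008143e02))))) (.nd (nat_lit 9) 
(.nd (nat_lit 22) (.lf (nat_lit 59629635) (dlOf (nat_lit 1) (nat_lit 0x8008000400200020009820603))) 
(.lf (nat_lit 13492291) (dlOf (nat_lit 1) (nat_lit 0x20018730c01)))) 
(.lf (nat_lit 36563523) (dlOf (nat_lit 1) (nat_lit 0x740009075201))))) (.nd (nat_lit 9) 
(.nd (nat_lit 21) (.nd (nat_lit 7) 
(.lf (nat_lit 47571011) (dlOf (nat_lit 1) (nat_lit 0x6e0029400001))) 
(.lf (nat_lit 51766467) (dlOf (nat_lit 1) (nat_lit 0x20029512d01)))) (.nd (nat_lit 8) 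
(.lf (nat_lit 37085251) (dlOf (nat_lit 3) (nat_lit 0x112b93008a599804a265c002a80c008c000000940200360029090601))) 
(.lf (nat_lit 58057027) (dlOf (nat_lit 1) (nat_lit 0x200197b8701))))) (.nd (nat_lit 7) 
(.nd (nat_lit 21) (.lf (nat_lit 1958467) (dlOf (nat_lit 1) (nat_lit 0x20028151101))) 
(.lf (nat_lit 12444227) (dlOf (nat_lit 1) (nat_lit 0x200186c1101)))) 
(.lf (nat_lit 20312771) (dlOf (nat_lit 1) (nat_lit 0x4002000200089d8c82))))))) (.nd (nat_lit 20) 
(.nd (nat_lit 30) (.nd (nat_lit 19) (.nd (nat_lit 6) 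
(.lf (nat_lit 4496678919) (dlOf (nat_lit 1) (nat_lit 0x20028120001))) (.nd (nat_lit 9) 
(.lf (nat_lit 738582599) (dlOf (nat_lit 1) (nat_lit 0x80080004002000200080b0603))) 
(.lf (nat_lit 21357127) (dlOf (nat_lit 1) (nat_lit 0x400400060018a38802))))) (.nd (nat_lit 7) 
(.nd (nat_lit 21) 
(.lf (nat_lit 2819481607) (dlOf (nat_lit 4) (nat_lit 0x2406c0062802000c0360030c01000801b0016e40802300080058002004e00082b0283))) 
(.lf (nat_lit 15589383) (dlOf (nat_lit 1) (nat_lit 0x400200020008810282)))) 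
(.lf (nat_lit 53338247) (dlOf (nat_lit 1) (nat_lit 0x600295a0e01))))) (.nd (nat_lit 6) 
(.nd (nat_lit 29) (.nd (nat_lit 31) 
(.lf (nat_lit 1208344583) (dlOf (nat_lit 1) (nat_lit 0x1500080250002002800080c0003))) 
(.lf (nat_lit 3355828231) (dlOf (nat_lit 1) (nat_lit 0x1400400120018120002)))) 
(.lf (nat_lit 3892699143) (dlOf (nat_lit 1) (nat_lit 0xa00281d0001)))) (.nd (nat_lit 7) 
(.nd (nat_lit 26) 
(.lf (nat_lit 1610997831) (dlOf (nat_lit 1) (nat_lit 0x80080004002000200080b0603))) 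
(.lf (nat_lit 3288719431) (dlOf (nat_lit 1) (nat_lit 0x800180d0c81)))) 
(.lf (nat_lit 1745218247) (dlOf (nat_lit 1) (nat_lit 0x2e00280e5801)))))) (.nd (nat_lit 21) 
(.nd (nat_lit 7) (.nd (nat_lit 10) 
(.lf (nat_lit 10346503) (dlOf (nat_lit 1) (nat_lit 0x4002000200085d0002))) 
(.lf (nat_lit 56484871) (dlOf (nat_lit 1) (nat_lit 0x400200020009732882)))) (.nd (nat_lit 6) 
(.nd (nat_lit 22) (.lf (nat_lit 18735239) (dlOf (nat_lit 1) (nat_lit 0x400200020008970482))) 
(.lf (nat_lit 6152327) (dlOf (nat_lit 1) (nat_lit 0x40018420481)))) 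
(.lf (nat_lit 47572167) (dlOf (nat_lit 1) (nat_lit 0x20009402d01))))) (.nd (nat_lit 7) 
(.nd (nat_lit 9) (.lf (nat_lit 37085191) (dlOf (nat_lit 1) (nat_lit 0x5000200100009090002))) 
(.lf (nat_lit 8250887) (dlOf (nat_lit 1) (nat_lit 0x20028513681)))) (.nd (nat_lit 8) 
(.nd (nat_lit 9) (.lf (nat_lit 28696711) (dlOf (nat_lit 1) (nat_lit 0x400200020008da0482))) 
(.lf (nat_lit 20310663) (dlOf (nat_lit 1) (nat_lit 0xc004000200089d5482)))) 
(.lf (nat_lit 2755518855) (dlOf (nat_lit 1) (nat_lit 0x8008047c00200f400081b0783))))))))) 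
(.nd (nat_lit 2) (.nd (nat_lit 6) (.nd (nat_lit 30) (.nd (nat_lit 27) (.nd (nat_lit 26) 
(.nd (nat_lit 16) 
(.lf (nat_lit 268754947) (dlOf (nat_lit 1) (nat_lit 0x70008000c002001c0008120003))) 
(.lf (nat_lit 4563787779) (dlOf (nat_lit 2) (nat_lit 0x1401100b978180e0000)))) (.nd (nat_lit 29) 
(.lf (nat_lit 2483347459) (dlOf (nat_lit 1) (nat_lit 0x18002000c00080c0002))) (.nd (nat_lit 31) 
(.lf (nat_lit 5167702019) (dlOf (nat_lit 1) (nat_lit 0x320008120001))) 
(.lf (nat_lit 3020218371) (dlOf (nat_lit 2) (nat_lit 0x4030000201100237c1000a0008006c002003a0008180003)))))) 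
(.nd (nat_lit 29) (.nd (nat_lit 16) (.nd (nat_lit 20) 
(.lf (nat_lit 2617565187) (dlOf (nat_lit 6) (nat_lit 0x400d000240500012023000a010005a542000380d00038050001e023000a010005a502000500d00010050000c0230009010005a482000480d0001c050000e023000c010005a4420006004800000040058004000e00180f0002))) 
(.lf (nat_lit 471130115) (dlOf (nat_lit 1) (nat_lit 0x18008004400200060008270003)))) 
(.nd (nat_lit 10) (.lf (nat_lit 4698005507) (dlOf (nat_lit 2) (nat_lit 0x1401100ae88180e0000))) 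
(.lf (nat_lit 474342403) (dlOf (nat_lit 1) (nat_lit 0x1000200020009162882))))) (.nd (nat_lit 26) 
(.lf (nat_lit 939843587) (dlOf (nat_lit 1) (nat_lit 0x2e00081c0001))) (.nd (nat_lit 31) 
(.lf (nat_lit 1006952451) (dlOf (nat_lit 32) (nat_lit 0x6800000787c08000804c03c0e0400e802601e050200a004f00e9481000b02780747c080710138038dc04052428a07b0057003d02a81dc0150003c0a4074e05100ee02781d10138005c00601c63120182145000702d807a016011900ae02ba055040402a001401480e540a2051c04e00940240060802c0174006002e00200e310d00a502b8015815000680a2004a04f00df027007180280750514000415204fe058043002b813f01540fdc0a803ca052037a02880b9813c0d4c09c00ce0480160001804b8008038bc34008009e01c5002011404f00e238101f00278071140807f813c0387804006409e003804e00e1c02015a0278070dc0807e013c0386c04040809e01c330201ba04f0045027007084100440160031c0ae01ee05500dc027809a8138004800601bdd0c02ae04f00ded81010b027806f5c0807385140eb00b0077c05703b502a81c801500c740a4069a051037802781d98138086c016054a00300deb0b00800a280b3016010f40ae0474055040402a001a01480db40a2053c04e009e00580070008037aa2809100b000fc057025702a807e015002040a4010a05101b702780fb0138037a62005500b0028805501310290093013c00d800601bd00a014604f0013027006c74100128138036200402ec09e01ac302004c03d00a3a8100be0278000000825380081294002099600080f0003)))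 
(.lf (nat_lit 3154436099) (dlOf (nat_lit 1) (nat_lit 0x20008001000200060008190003))))))) 
(.nd (nat_lit 16) (.nd (nat_lit 19) (.nd (nat_lit 26) (.nd (nat_lit 22) 
(.lf (nat_lit 1879367683) (dlOf (nat_lit 32) (nat_lit 0x68000006abc080008048035320400e802401a9702001604f00ce20100500278066d00807101380324204052426a07b0057003d02a81dc0150003c0a4074e05100ee02781d10138005c00e01916120182135000702d807a016011900ae02ba055040402a001401480e540a2051c04e009402400608038017400e002e00200c8a8d00a502b8015815000680a2004a04f00df02700644c2807504d4000415204fe058043002b813f01540fdc0a803ca052037a02880b9813c0d4c09c00ce0480160003804b80080322234008009e018eb02011404f00c748101f002780639c0807f813c031a604006409e003804e00c6882015a0278063400807e013c0319e04040809e018cc0201ba04f00450270062f0100440160031c0ae01ee05500dc027809a8138004800e018770c02ae04f00c3a81010b0278061c80807384d40eb00b0077c05703b502a81c801500c740a4069a051037802781d98138086c01c054a00700c380b008009a80b3016010f40ae0474055040402a001a01480db40a2053c04e009e00700070008030de2809100b000fc057025702a807e015002040a4010a05101b702780fb0138030da2005500b0028805501310290093013c00d800e0186b0a014604f0013027005ec810012813802f560402ec09e0175f02004c04400a2c0100be0278000000825380081294002099600080f0003)))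 
(.lf (nat_lit 3494174723) (dlOf (nat_lit 1) (nat_lit 0x2000281c0001)))) (.nd (nat_lit 31) 
(.lf (nat_lit 2080694275) (dlOf (nat_lit 2) (nat_lit 0x5603900e690180b0000))) 
(.lf (nat_lit 4228177923) (dlOf (nat_lit 1) (nat_lit 0x20018050001))))) (.nd (nat_lit 21) 
(.lf (nat_lit 3557613571) (dlOf (nat_lit 5) (nat_lit 0x120610034501001202300010110000c0380057806000a00000269810006024800f012000000080160004006e0018270002))) 
(.lf (nat_lit 4096581635) (dlOf (nat_lit 1) (nat_lit 0x700080004002000a0008130003))))) 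
(.nd (nat_lit 11) (.nd (nat_lit 19) 
(.lf (nat_lit 1881530371) (dlOf (nat_lit 3) (nat_lit 0x1e0e00070b01000607580325c080250008000800200140008f40003))) 
(.nd (nat_lit 20) 
(.lf (nat_lit 1410195459) (dlOf (nat_lit 5) (nat_lit 0x8070000c000005a841000401dc00200ec001407100090380004018c00240c2001400000b4607000703b8001800002c4208000c0ee015fb02000e0008190001))) 
(.lf (nat_lit 3493715971) (dlOf (nat_lit 1) (nat_lit 0xe00081b0001))))) (.nd (nat_lit 7) 
(.lf (nat_lit 1345186563) (dlOf (nat_lit 2) (nat_lit 0x542ca000110200200008b05a81))) 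
(.lf (nat_lit 3490049155) (dlOf (nat_lit 1) (nat_lit 0xc00400160008006102))))))) (.nd (nat_lit 16) 
(.nd (nat_lit 26) (.nd (nat_lit 7) (.nd (nat_lit 19) (.nd (nat_lit 8) 
(.lf (nat_lit 2550456387) (dlOf (nat_lit 1) (nat_lit 0x80080008002000200080c1403))) 
(.lf (nat_lit 805626179) (dlOf (nat_lit 1) (nat_lit 0x500080004002000a0008157f03)))) 
(.nd (nat_lit 20) 
(.lf (nat_lit 1343021123) (dlOf (nat_lit 3) (nat_lit 0x10e300011808014892400203e000401c700120de8000d8200150008005c002005c0008130c03))) 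
(.lf (nat_lit 1346166851) (dlOf (nat_lit 5) (nat_lit 0x26414d029406c808d836002fc0fa01a207c0012385001906c8007c0081198808041034e001e163026b0a600d2852c029028400660ef027006b81450358092416e002a0af026703d803000b808a805a0462000000aa0f00140000003d00801e8008015400200340008e60603))))) 
(.nd (nat_lit 8) (.lf (nat_lit 1346692291) (dlOf (nat_lit 1) (nat_lit 0x14002000a0008fe2d02))) 
(.lf (nat_lit 3489987523) (dlOf (nat_lit 1) (nat_lit 0x2001800be01))))) (.nd (nat_lit 27) 
(.nd (nat_lit 7) 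
(.lf (nat_lit 2483347523) (dlOf (nat_lit 5) (nat_lit 0x280a80008020000fb0400380100007a0100060080001f408000804000036040020004001a00080c1402))) 
(.nd (nat_lit 9) 
(.lf (nat_lit 6241444035) (dlOf (nat_lit 1) (nat_lit 0x500080194002006600080f1b83))) 
(.lf (nat_lit 3557094083) (dlOf (nat_lit 1) (nat_lit 0x400400020018128c82))))) (.nd (nat_lit 8) 
(.nd (nat_lit 19) 
(.lf (nat_lit 2080694339) (dlOf (nat_lit 2) (nat_lit 0x1540180001702002000080b0581))) 
(.lf (nat_lit 470605891) (dlOf (nat_lit 3) (nat_lit 0x10e300012408014892400203e000401c700120de8000e0200150008005c002005c0008130c03)))) 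
(.lf (nat_lit 1543823683) (dlOf (nat_lit 1) (nat_lit 0x8400400600008187f02)))))) (.nd (nat_lit 30) 
(.nd (nat_lit 27) (.nd (nat_lit 31) 
(.lf (nat_lit 4563787843) (dlOf (nat_lit 1) (nat_lit 0x1700080090002008600080e1803))) 
(.lf (nat_lit 2416304195) (dlOf (nat_lit 2) (nat_lit 0x68000000c00400ac004000200080d0c02)))) 
(.nd (nat_lit 7) (.nd (nat_lit 31) 
(.lf (nat_lit 4698005571) (dlOf (nat_lit 1) (nat_lit 0xc80080040002004400080e1783))) 
(.lf (nat_lit 2550521923) (dlOf (nat_lit 2) (nat_lit 0x68000000d20400ac004000200080d0c02)))) 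
(.lf (nat_lit 473818307) (dlOf (nat_lit 1) (nat_lit 0x3400400020008fa2d02))))) (.nd (nat_lit 9) 
(.nd (nat_lit 10) (.nd (nat_lit 22) 
(.lf (nat_lit 4026916931) (dlOf (nat_lit 3) (nat_lit 0x410080000c204010c0400006002000200180d0c01))) 
(.lf (nat_lit 1346756675) (dlOf (nat_lit 4) (nat_lit 0x7786a4072812c038008401a104180db01d006f40e6027001e01a100d00a60000004782400480360023202007e096001f0398008c41000d8008037800205100009000603)))) 
(.lf (nat_lit 1345184835) (dlOf (nat_lit 1) (nat_lit 0x8008000400200020008b02883)))) 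
(.nd (nat_lit 7) (.lf (nat_lit 3492674115) (dlOf (nat_lit 1) (nat_lit 0x3800280fb501))) 
(.lf (nat_lit 3492673475) (dlOf (nat_lit 1) (nat_lit 0x28004002800080fa602)))))))) 
(.nd (nat_lit 26) (.nd (nat_lit 7) (.nd (nat_lit 31) (.nd (nat_lit 19) (.nd (nat_lit 30) 
(.nd (nat_lit 27) (.lf (nat_lit 4563722247) (dlOf (nat_lit 1) (nat_lit 0x200280d0001))) 
(.lf (nat_lit 4697939975) (dlOf (nat_lit 1) (nat_lit 0x200280d0001)))) (.nd (nat_lit 16) 
(.lf (nat_lit 1343545351) (dlOf (nat_lit 3) (nat_lit 0xe07e0026b81000903f00134c080028008000c00200280008290003))) 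
(.lf (nat_lit 1881530375) (dlOf (nat_lit 1) (nat_lit 0x40028f40001))))) (.nd (nat_lit 6) 
(.lf (nat_lit 1343021063) (dlOf (nat_lit 2) (nat_lit 0x1091c01d5e04003000400080008130002))) 
(.lf (nat_lit 1343021127) (dlOf (nat_lit 2) (nat_lit 0x78492002e1c700080de800094180058008001800200400008130c83))))) 
(.nd (nat_lit 29) (.nd (nat_lit 8) (.nd (nat_lit 16) 
(.lf (nat_lit 2550456391) (dlOf (nat_lit 1) (nat_lit 0x80080004002000200080c1483))) 
(.lf (nat_lit 3493716039) (dlOf (nat_lit 1) (nat_lit 0x80080004002000200081b0003)))) 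
(.lf (nat_lit 3489983815) (dlOf (nat_lit 6) (nat_lit 0x14089000088100110448000400800482240001e0400341180000e02001608c0004045800034100078008004800200140008006983)))) 
(.nd (nat_lit 6) (.nd (nat_lit 27) 
(.lf (nat_lit 2953109511) (dlOf (nat_lit 1) (nat_lit 0x400200080008130282))) 
(.lf (nat_lit 3087327239) (dlOf (nat_lit 1) (nat_lit 0x400200020008190002)))) 
(.lf (nat_lit 4026916935) (dlOf (nat_lit 1) (nat_lit 0x800180d0c81)))))) (.nd (nat_lit 8) 
(.nd (nat_lit 27) (.nd (nat_lit 29) 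
(.lf (nat_lit 5637464199) (dlOf (nat_lit 3) (nat_lit 0x18034000c0170001b02000500c8007803c0006408005c002003a00080f0e02))) 
(.lf (nat_lit 6174335111) (dlOf (nat_lit 1) (nat_lit 0xc00400020008100e02)))) (.nd (nat_lit 16) 
(.lf (nat_lit 402972807) (dlOf (nat_lit 1) (nat_lit 0x800280c0e01))) 
(.lf (nat_lit 1476780167) (dlOf (nat_lit 2) (nat_lit 0x5a017000c48181a0480))))) (.nd (nat_lit 11) 
(.nd (nat_lit 6) 
(.lf (nat_lit 3493716359) (dlOf (nat_lit 1) (nat_lit 0x8008047c00200f400081b0783))) 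
(.lf (nat_lit 3492673479) (dlOf (nat_lit 1) (nat_lit 0x8004000200080fa602)))) (.nd (nat_lit 19) 
(.lf (nat_lit 1345710471) (dlOf (nat_lit 1) (nat_lit 0x2c004000c0008dd4e82))) 
(.lf (nat_lit 1345186183) (dlOf (nat_lit 1) (nat_lit 0x400400020008b04e82))))))) (.nd (nat_lit 29) 
(.nd (nat_lit 6) (.nd (nat_lit 31) (.nd (nat_lit 7) 
(.lf (nat_lit 470605831) (dlOf (nat_lit 2) (nat_lit 0x1091c0111404003000400080008130002))) 
(.nd (nat_lit 27) 
(.lf (nat_lit 5704573063) (dlOf (nat_lit 3) (nat_lit 0x8042002e01e0001b020012011802780800006408000c004000600080f0e02))) 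
(.lf (nat_lit 1543823495) (dlOf (nat_lit 1) (nat_lit 0x180008183d01))))) (.nd (nat_lit 16) 
(.nd (nat_lit 30) (.lf (nat_lit 2617565191) (dlOf (nat_lit 1) (nat_lit 0x1000280f0001))) 
(.lf (nat_lit 3691307015) (dlOf (nat_lit 1) (nat_lit 0x400200080008130282)))) 
(.lf (nat_lit 3557679111) (dlOf (nat_lit 4) (nat_lit 0x2407000bbd02000c038005d681000801c002d140802300080058002004e00082b0283))))) 
(.nd (nat_lit 22) (.nd (nat_lit 19) 
(.lf (nat_lit 2483347527) (dlOf (nat_lit 2) (nat_lit 0x9e00f00020068000d01001900080154002006c00080c1483))) 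
(.lf (nat_lit 470605895) (dlOf (nat_lit 2) (nat_lit 0x78492002e1c700080de800098180058008001800200400008130c83)))) 
(.nd (nat_lit 10) 
(.lf (nat_lit 474275911) (dlOf (nat_lit 1) (nat_lit 0x10008001000200160009100603))) 
(.lf (nat_lit 474342471) (dlOf (nat_lit 1) (nat_lit 0x400400020009162882)))))) (.nd (nat_lit 6) 
(.nd (nat_lit 7) (.nd (nat_lit 16) 
(.lf (nat_lit 5167702023) (dlOf (nat_lit 1) (nat_lit 0x400200020008120582))) 
(.lf (nat_lit 2080759815) (dlOf (nat_lit 1) (nat_lit 0x1500080250002002800080c0003)))) 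
(.nd (nat_lit 16) (.nd (nat_lit 19) 
(.lf (nat_lit 6241443975) (dlOf (nat_lit 2) (nat_lit 0xc00d0000a8080038008002c002002a00080f0f03))) 
(.lf (nat_lit 6377234567) (dlOf (nat_lit 1) (nat_lit 0x4004000600080c0f02)))) 
(.lf (nat_lit 2080759943) (dlOf (nat_lit 2) (nat_lit 0x80c40004e04002c004000800080c0e02))))) 
(.nd (nat_lit 27) (.nd (nat_lit 16) 
(.lf (nat_lit 872734791) (dlOf (nat_lit 1) (nat_lit 0x100080004002000200080b0603))) 
(.lf (nat_lit 1946542151) (dlOf (nat_lit 1) (nat_lit 0x200180c1481)))) (.nd (nat_lit 21) 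
(.lf (nat_lit 2080694343) (dlOf (nat_lit 5) (nat_lit 0x1600a4000300400e00520001702003a0290000a810086013002c002400000080008004002400080b0602))) 
(.lf (nat_lit 1009049671) (dlOf (nat_lit 1) (nat_lit 0x8008000400200040009020603))))))))))))

end

end Pool.Agent.Lib.MP_5854e1_co.Cz

namespace Pool.Agent.Lib.MP_5854e1_co.Cz

noncomputable section

noncomputable def tz185 : DT := (.nd (nat_lit 15) (.nd (nat_lit 16) (.nd (nat_lit 2) 
(.nd (nat_lit 18) (.nd (nat_lit 31) (.nd (nat_lit 6) (.nd (nat_lit 11) (.nd (nat_lit 22) 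
(.nd (nat_lit 7) (.nd (nat_lit 10) (.nd (nat_lit 21) 
(.lf (nat_lit 42491939) (dlOf (nat_lit 1) (nat_lit 0x400400020009260182))) 
(.lf (nat_lit 11034659) (dlOf (nat_lit 1) (nat_lit 0x680008660501)))) 
(.lf (nat_lit 604009507) (dlOf (nat_lit 1) (nat_lit 0x400200020008009202)))) (.nd (nat_lit 19) 
(.lf (nat_lit 36725923) (dlOf (nat_lit 1) (nat_lit 0x400200020009072c02))) 
(.lf (nat_lit 1881695395) (dlOf (nat_lit 1) (nat_lit 0x400400020008fe2c02))))) (.nd (nat_lit 19) 
(.lf (nat_lit 14704675) (dlOf (nat_lit 2) (nat_lit 0x52728000740800a0008000c00200100008770183))) 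
(.nd (nat_lit 20) (.nd (nat_lit 21) 
(.lf (nat_lit 21520419) (dlOf (nat_lit 2) (nat_lit 0x1000000114080018008001000200060008a40183))) 
(.lf (nat_lit 15228963) (dlOf (nat_lit 3) (nat_lit 0x157e8640017e0400352b000047d700073bb8002dc180188008009c002000e00087c0603)))) 
(.lf (nat_lit 16277539) (dlOf (nat_lit 1) (nat_lit 0x400400020008880582)))))) (.nd (nat_lit 8) 
(.nd (nat_lit 7) (.nd (nat_lit 9) (.nd (nat_lit 10) 
(.lf (nat_lit 469788707) (dlOf (nat_lit 1) (nat_lit 0xe0008004701))) 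
(.lf (nat_lit 27683) (dlOf (nat_lit 1) (nat_lit 0x20028006081)))) 
(.lf (nat_lit 4362107427) (dlOf (nat_lit 1) (nat_lit 0x300080018002000c000800b283)))) 
(.nd (nat_lit 10) (.lf (nat_lit 36727459) (dlOf (nat_lit 1) (nat_lit 0x800200040009075602))) 
(.lf (nat_lit 671116963) (dlOf (nat_lit 1) (nat_lit 0x580080008002000e0008007203))))) 
(.nd (nat_lit 12) (.nd (nat_lit 9) (.nd (nat_lit 19) 
(.lf (nat_lit 1342204323) (dlOf (nat_lit 1) (nat_lit 0xf4004005a0008004e82))) 
(.lf (nat_lit 37251491) (dlOf (nat_lit 1) (nat_lit 0x4002001200090d4e82)))) 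
(.lf (nat_lit 1275095971) (dlOf (nat_lit 2) (nat_lit 0x14028000060200020018005c81)))) 
(.nd (nat_lit 7) (.lf (nat_lit 201357603) (dlOf (nat_lit 1) (nat_lit 0x2000800ab81))) 
(.lf (nat_lit 134249891) (dlOf (nat_lit 1) (nat_lit 0x2002800cb01))))))) (.nd (nat_lit 7) 
(.nd (nat_lit 12) (.nd (nat_lit 8) (.nd (nat_lit 19) 
(.lf (nat_lit 30433379) (dlOf (nat_lit 1) (nat_lit 0x20018e30481))) 
(.lf (nat_lit 32006243) (dlOf (nat_lit 1) (nat_lit 0x20008000400200020008ed0903)))) 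
(.nd (nat_lit 20) (.lf (nat_lit 1409313123) (dlOf (nat_lit 1) (nat_lit 0x3c00400060008004e82))) 
(.lf (nat_lit 19949923) (dlOf (nat_lit 1) (nat_lit 0x1400189d4e81))))) (.nd (nat_lit 9) 
(.nd (nat_lit 27) (.lf (nat_lit 4362107235) (dlOf (nat_lit 1) (nat_lit 0x2000040064000800ab82))) 
(.lf (nat_lit 469793123) (dlOf (nat_lit 1) (nat_lit 0xa000800ab81)))) (.nd (nat_lit 11) 
(.lf (nat_lit 6039827299) (dlOf (nat_lit 2) (nat_lit 0x60020015140800c0008008400200140008008f83))) 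
(.lf (nat_lit 19954531) (dlOf (nat_lit 1) (nat_lit 0x1000089dbc81)))))) (.nd (nat_lit 8) 
(.nd (nat_lit 9) (.nd (nat_lit 10) 
(.lf (nat_lit 1342206179) (dlOf (nat_lit 1) (nat_lit 0x400400040018008082))) 
(.lf (nat_lit 5772436707) (dlOf (nat_lit 1) (nat_lit 0x80018092e01)))) (.nd (nat_lit 27) 
(.lf (nat_lit 604009187) (dlOf (nat_lit 1) (nat_lit 0x400200020008008c82))) 
(.lf (nat_lit 469791459) (dlOf (nat_lit 1) (nat_lit 0x20018008c81))))) (.nd (nat_lit 9) 
(.lf (nat_lit 8943075) (dlOf (nat_lit 1) (nat_lit 0x20018519b01))) (.nd (nat_lit 26) 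
(.lf (nat_lit 4429210595) (dlOf (nat_lit 1) (nat_lit 0x400400020008002882))) 
(.lf (nat_lit 1006658531) (dlOf (nat_lit 1) (nat_lit 0x400400020008002882)))))))) (.nd (nat_lit 28) 
(.nd (nat_lit 30) (.nd (nat_lit 19) (.nd (nat_lit 6) 
(.lf (nat_lit 2755682595) (dlOf (nat_lit 1) (nat_lit 0x4004000200181b0502))) 
(.lf (nat_lit 2885709411) (dlOf (nat_lit 1) (nat_lit 0x960028007181)))) (.nd (nat_lit 20) 
(.nd (nat_lit 22) (.lf (nat_lit 2819121187) (dlOf (nat_lit 1) (nat_lit 0xa00181a0601))) 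
(.lf (nat_lit 2756206627) (dlOf (nat_lit 2) (nat_lit 0x845e001f80200060018220901)))) 
(.nd (nat_lit 21) 
(.lf (nat_lit 2753060899) (dlOf (nat_lit 4) (nat_lit 0x4a07f4000500401e83f40000c0200a415200000018080800))) 
(.lf (nat_lit 2755158051) (dlOf (nat_lit 3) (nat_lit 0xc101000307e8000a410008040400301fa000270400020028120981)))))) 
(.nd (nat_lit 19) (.nd (nat_lit 7) (.nd (nat_lit 8) 
(.lf (nat_lit 3288362019) (dlOf (nat_lit 1) (nat_lit 0x20018006081))) 
(.lf (nat_lit 3355473187) (dlOf (nat_lit 8) (nat_lit 0x28006000180100140030000bc0800c00180005c04005000c0002d020026006000028100140030000080800900180000004003400400020018009782)))) 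
(.lf (nat_lit 3288361379) (dlOf (nat_lit 1) (nat_lit 0x640018004e81)))) (.nd (nat_lit 6) 
(.nd (nat_lit 26) (.lf (nat_lit 3221774371) (dlOf (nat_lit 1) (nat_lit 0x80028180901))) 
(.lf (nat_lit 3959971875) (dlOf (nat_lit 1) (nat_lit 0x80028180901)))) (.nd (nat_lit 26) 
(.lf (nat_lit 3221774435) (dlOf (nat_lit 5) (nat_lit 0x100460001301000c02b000701380024094001a035000f01380078098003c03c000210e00060470000701001601780000c08009000800e8002009e0008181383))) 
(.lf (nat_lit 3959971939) (dlOf (nat_lit 1) (nat_lit 0x400200040008181282))))))) (.nd (nat_lit 12) 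
(.nd (nat_lit 8) (.nd (nat_lit 7) (.nd (nat_lit 20) (.nd (nat_lit 22) 
(.lf (nat_lit 3557318691) (dlOf (nat_lit 2) (nat_lit 0x5ac07e000e702000200081c0601))) 
(.lf (nat_lit 3494404131) (dlOf (nat_lit 2) (nat_lit 0x8434001e60200060018220901)))) 
(.lf (nat_lit 3493355555) (dlOf (nat_lit 3) (nat_lit 0xc101000307e8000a410008040400301fa000270400020028120981)))) 
(.lf (nat_lit 3087036067) (dlOf (nat_lit 2) (nat_lit 0x348000000540400a0002002e0008007202)))) 
(.nd (nat_lit 6) (.nd (nat_lit 7) 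
(.lf (nat_lit 3493880099) (dlOf (nat_lit 4) (nat_lit 0x5ec180000620203100c00003081000e0600001800800680080060002003400081b0503))) 
(.lf (nat_lit 3493880227) (dlOf (nat_lit 2) (nat_lit 0x5030000000040008004001000081b0782)))) 
(.lf (nat_lit 3490213219) (dlOf (nat_lit 1) (nat_lit 0x400200020008006a82))))) (.nd (nat_lit 6) 
(.nd (nat_lit 7) (.lf (nat_lit 2952822307) (dlOf (nat_lit 1) (nat_lit 0x2002800cf81))) 
(.nd (nat_lit 8) (.lf (nat_lit 4160779427) (dlOf (nat_lit 1) (nat_lit 0x8004000a0008009502))) 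
(.lf (nat_lit 3691017635) (dlOf (nat_lit 2) (nat_lit 0x26e01b005800a80000010091800801d000200c00008009903))))) 
(.nd (nat_lit 7) (.nd (nat_lit 8) 
(.lf (nat_lit 3623909475) (dlOf (nat_lit 3) (nat_lit 0x4a80c0025405e012e02e0097016804c006c026002801280050099001004a80000028024000800000110020010002800a801))) 
(.lf (nat_lit 4160779107) (dlOf (nat_lit 1) (nat_lit 0x8004000e0008008f82)))) 
(.lf (nat_lit 2952819427) (dlOf (nat_lit 1) (nat_lit 0x20018008c81)))))))) (.nd (nat_lit 20) 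
(.nd (nat_lit 28) (.nd (nat_lit 26) (.nd (nat_lit 6) (.nd (nat_lit 21) (.nd (nat_lit 8) 
(.lf (nat_lit 2819383331) (dlOf (nat_lit 1) (nat_lit 0x400200020008250702))) 
(.lf (nat_lit 135029027) (dlOf (nat_lit 1) (nat_lit 0x3e00081b0501)))) (.nd (nat_lit 12) 
(.lf (nat_lit 6578211) (dlOf (nat_lit 1) (nat_lit 0x500018430d81))) 
(.lf (nat_lit 19689507) (dlOf (nat_lit 2) (nat_lit 0x95cc0006c02000200189d7b01))))) 
(.nd (nat_lit 8) 
(.lf (nat_lit 6442737891) (dlOf (nat_lit 1) (nat_lit 0x2d8008003c002003200081b0483))) 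
(.nd (nat_lit 9) (.lf (nat_lit 3221512675) (dlOf (nat_lit 1) (nat_lit 0x20008127301))) 
(.lf (nat_lit 36463587) (dlOf (nat_lit 1) (nat_lit 0x20019072881)))))) (.nd (nat_lit 6) 
(.nd (nat_lit 27) (.nd (nat_lit 29) (.nd (nat_lit 32) 
(.lf (nat_lit 67395619) (dlOf (nat_lit 3) (nat_lit 0x905bc000400400502dc0001d02000200280f0181))) 
(.lf (nat_lit 4362362915) (dlOf (nat_lit 7) (nat_lit 0x580b00004c04006c05a0000f02003602d0000701001b0168000300800d80b40001404000408c000602c000500000000418026800801d000200040008030c03)))) 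
(.lf (nat_lit 604266531) (dlOf (nat_lit 1) (nat_lit 0x400400020008110782)))) (.nd (nat_lit 8) 
(.lf (nat_lit 1812226083) (dlOf (nat_lit 1) (nat_lit 0x200080004002000e0008180503))) 
(.lf (nat_lit 202137891) (dlOf (nat_lit 1) (nat_lit 0x3e00081b0501))))) (.nd (nat_lit 21) 
(.nd (nat_lit 27) (.lf (nat_lit 67395683) (dlOf (nat_lit 1) (nat_lit 0x4004000200180f0d02))) 
(.lf (nat_lit 2349097059) (dlOf (nat_lit 1) (nat_lit 0x4004000200180a1282)))) 
(.lf (nat_lit 2753847395) (dlOf (nat_lit 1) (nat_lit 0x80080014002000200080a1283)))))) 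
(.nd (nat_lit 27) (.nd (nat_lit 7) (.nd (nat_lit 6) (.nd (nat_lit 19) 
(.lf (nat_lit 2953076771) (dlOf (nat_lit 2) (nat_lit 0xc2014002a30180f0700))) 
(.lf (nat_lit 1342988323) (dlOf (nat_lit 1) (nat_lit 0x400200020008120b02)))) (.nd (nat_lit 21) 
(.lf (nat_lit 2483314787) (dlOf (nat_lit 1) (nat_lit 0x8004000200080a1382))) 
(.lf (nat_lit 3492044899) (dlOf (nat_lit 2) (nat_lit 0x190ae00000c0800b8008003c002000200080a1383))))) 
(.nd (nat_lit 8) (.nd (nat_lit 10) 
(.lf (nat_lit 4563689635) (dlOf (nat_lit 8) (nat_lit 0x8006600010020078033000070100010198000240801e80cc000100400fc066000050200760330000181003b019800004080008008002c002002000080c1403))) 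
(.lf (nat_lit 1345086627) (dlOf (nat_lit 1) (nat_lit 0x800289e2c01)))) (.nd (nat_lit 6) 
(.lf (nat_lit 3489950115) (dlOf (nat_lit 1) (nat_lit 0x20008004e81))) 
(.lf (nat_lit 4094454243) (dlOf (nat_lit 1) (nat_lit 0x8008008800200340008054e83)))))) 
(.nd (nat_lit 30) (.nd (nat_lit 7) (.nd (nat_lit 19) 
(.lf (nat_lit 939810851) (dlOf (nat_lit 1) (nat_lit 0x200080004002000e0008180503))) 
(.lf (nat_lit 470573091) (dlOf (nat_lit 1) (nat_lit 0x400200020008120b02)))) (.nd (nat_lit 6) 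
(.lf (nat_lit 4697907363) (dlOf (nat_lit 4) (nat_lit 0xe80d0002003e0001c04000c0340000b8100330198000000801180080014002001800080c1383))) 
(.lf (nat_lit 4697907427) (dlOf (nat_lit 3) (nat_lit 0x9802f0000e81000101780003c0804580080044002008000080c1b03))))) 
(.nd (nat_lit 26) (.nd (nat_lit 10) 
(.lf (nat_lit 1476681763) (dlOf (nat_lit 1) (nat_lit 0x24002001c0008110782))) 
(.lf (nat_lit 3624168483) (dlOf (nat_lit 1) (nat_lit 0x80018146081)))) (.nd (nat_lit 6) 
(.lf (nat_lit 4228145187) (dlOf (nat_lit 7) (nat_lit 0x580ac0004c04006c0580000f02003602c0000681001b0160000300800d80b00001404000407e000602b000500000000418026800801d000200040008030c03))) 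
(.lf (nat_lit 5838758115) (dlOf (nat_lit 1) (nat_lit 0x2d8008003c002003200081b0483)))))))) 
(.nd (nat_lit 24) (.nd (nat_lit 7) (.nd (nat_lit 28) (.nd (nat_lit 9) (.nd (nat_lit 19) 
(.lf (nat_lit 7626787) (dlOf (nat_lit 1) (nat_lit 0x5000184c0d81))) 
(.lf (nat_lit 2753323043) (dlOf (nat_lit 2) (nat_lit 0x1c1100094e0200400018090001)))) 
(.lf (nat_lit 8152611) (dlOf (nat_lit 1) (nat_lit 0x20008513701)))) (.nd (nat_lit 6) 
(.nd (nat_lit 19) 
(.lf (nat_lit 471097379) (dlOf (nat_lit 3) (nat_lit 0x7c000002a301000b047000c01f8008e808036000200020008270702))) 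
(.lf (nat_lit 1346134051) (dlOf (nat_lit 1) (nat_lit 0x8000400040008e60182)))) 
(.lf (nat_lit 1346134115) (dlOf (nat_lit 1) (nat_lit 0x8008000400200020008e60903))))) 
(.nd (nat_lit 6) (.nd (nat_lit 8) 
(.lf (nat_lit 2752798883) (dlOf (nat_lit 1) (nat_lit 0x20028044601))) 
(.lf (nat_lit 8155555) (dlOf (nat_lit 1) (nat_lit 0x60028518381)))) (.nd (nat_lit 9) 
(.nd (nat_lit 10) (.lf (nat_lit 11821283) (dlOf (nat_lit 1) (nat_lit 0x200186c0481))) 
(.lf (nat_lit 8152291) (dlOf (nat_lit 1) (nat_lit 0x400200020008512e02)))) 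
(.lf (nat_lit 8155875) (dlOf (nat_lit 1) (nat_lit 0x400200020008518c82)))))) (.nd (nat_lit 22) 
(.nd (nat_lit 11) (.nd (nat_lit 6) (.nd (nat_lit 21) 
(.lf (nat_lit 26501155) (dlOf (nat_lit 1) (nat_lit 0x80080004002001c0008c50183))) 
(.lf (nat_lit 62152739) (dlOf (nat_lit 4) (nat_lit 0x48a4500045198001581000628d00005e04000548a000110200060009960181)))) 
(.nd (nat_lit 10) (.lf (nat_lit 62152803) (dlOf (nat_lit 1) (nat_lit 0x3800400120009960782))) 
(.lf (nat_lit 20214883) (dlOf (nat_lit 1) (nat_lit 0x200189d9401))))) (.nd (nat_lit 7) 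
(.lf (nat_lit 20737059) (dlOf (nat_lit 1) (nat_lit 0x3e00089d6081))) (.nd (nat_lit 8) 
(.lf (nat_lit 53766819) (dlOf (nat_lit 1) (nat_lit 0x400295f5601))) 
(.lf (nat_lit 20216227) (dlOf (nat_lit 1) (nat_lit 0x18004000400089daf82)))))) (.nd (nat_lit 21) 
(.nd (nat_lit 23) (.lf (nat_lit 22306851) (dlOf (nat_lit 1) (nat_lit 0x2400400500018ac0482))) 
(.lf (nat_lit 30695459) (dlOf (nat_lit 2) (nat_lit 0x46c8e801362080029c080010002006c0008e40d82)))) 
(.nd (nat_lit 6) (.lf (nat_lit 24404003) (dlOf (nat_lit 1) (nat_lit 0xc00008b90901))) 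
(.lf (nat_lit 24404067) (dlOf (nat_lit 3) (nat_lit 0x180000001f02000f68a00000018b91380))))))))) 
(.nd (nat_lit 6) (.nd (nat_lit 19) (.nd (nat_lit 30) (.nd (nat_lit 18) (.nd (nat_lit 20) 
(.nd (nat_lit 9) (.nd (nat_lit 7) (.nd (nat_lit 21) 
(.lf (nat_lit 473980967) (dlOf (nat_lit 2) (nat_lit 0x90398000805c0004c08006000400040018ff0782))) 
(.lf (nat_lit 23093287) (dlOf (nat_lit 1) (nat_lit 0x20008b50601)))) 
(.lf (nat_lit 134249895) (dlOf (nat_lit 2) (nat_lit 0x1400a00030020002000800cb81)))) 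
(.nd (nat_lit 10) (.nd (nat_lit 12) 
(.lf (nat_lit 41970215) (dlOf (nat_lit 1) (nat_lit 0x22a0019245181))) 
(.lf (nat_lit 2751494695) (dlOf (nat_lit 1) (nat_lit 0x800800040020002000800b283)))) 
(.lf (nat_lit 4630537767) (dlOf (nat_lit 2) (nat_lit 0x200580003004000c00400040008003702))))) 
(.nd (nat_lit 21) (.nd (nat_lit 22) (.nd (nat_lit 23) 
(.lf (nat_lit 17850407) (dlOf (nat_lit 2) (nat_lit 0x221f8005940800080080004002000200088f0d83))) 
(.lf (nat_lit 59793447) (dlOf (nat_lit 1) (nat_lit 0x1c0009830781)))) 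
(.lf (nat_lit 30433319) (dlOf (nat_lit 2) (nat_lit 0xe19000b5e04000400400120008e30002)))) 
(.nd (nat_lit 7) 
(.lf (nat_lit 40919591) (dlOf (nat_lit 2) (nat_lit 0x237c0001a0080100008006c002002e0009208803))) 
(.nd (nat_lit 22) (.lf (nat_lit 36727207) (dlOf (nat_lit 1) (nat_lit 0x1000200020009074e82))) 
(.lf (nat_lit 49310119) (dlOf (nat_lit 1) (nat_lit 0x400200020009464e82))))))) (.nd (nat_lit 28) 
(.nd (nat_lit 21) (.nd (nat_lit 22) 
(.lf (nat_lit 2684641319) (dlOf (nat_lit 2) (nat_lit 0x480e8002c06c002002f000a0140007809c000a814003800400240008100602))) 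
(.lf (nat_lit 63201319) (dlOf (nat_lit 1) (nat_lit 0x100080004002000400099f0783)))) 
(.lf (nat_lit 10772519) (dlOf (nat_lit 12) (nat_lit 0x8f2b6800168080b0154400044040834aa2000210202ae5510001001015b2a880007c080b295440003c040548aa2000a3f90000e82000d2a880006c080af1544000340400107d0000050200e855100000018620580)))) 
(.nd (nat_lit 7) (.nd (nat_lit 26) (.nd (nat_lit 27) 
(.lf (nat_lit 805593127) (dlOf (nat_lit 3) (nat_lit 0x80070000840800b00380004004004c00200040008130582))) 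
(.lf (nat_lit 939810855) (dlOf (nat_lit 2) (nat_lit 0x80118002807c000b4080030004001e0008180582)))) 
(.lf (nat_lit 3020185639) (dlOf (nat_lit 1) (nat_lit 0x83c004000c0008150282)))) 
(.lf (nat_lit 4563689639) (dlOf (nat_lit 2) (nat_lit 0x4007c0003a040010004004200080c1482)))))) 
(.nd (nat_lit 9) (.nd (nat_lit 26) (.nd (nat_lit 7) 
(.lf (nat_lit 3355729959) (dlOf (nat_lit 1) (nat_lit 0x6000080e0981))) (.nd (nat_lit 8) 
(.lf (nat_lit 1208246439) (dlOf (nat_lit 1) (nat_lit 0x400180a2c01))) 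
(.lf (nat_lit 3489688999) (dlOf (nat_lit 1) (nat_lit 0x1260008006d01))))) (.nd (nat_lit 8) 
(.nd (nat_lit 27) 
(.lf (nat_lit 1678008359) (dlOf (nat_lit 3) (nat_lit 0x80070000840800b00380004004004c00200040008130582))) 
(.lf (nat_lit 1812226087) (dlOf (nat_lit 2) (nat_lit 0x80118002807c000b4080030004001e0008180582)))) 
(.lf (nat_lit 3288362279) (dlOf (nat_lit 1) (nat_lit 0x80008006801))))) (.nd (nat_lit 7) 
(.nd (nat_lit 10) (.lf (nat_lit 1345350183) (dlOf (nat_lit 1) (nat_lit 0x60018b55181))) 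
(.nd (nat_lit 26) 
(.lf (nat_lit 5502952999) (dlOf (nat_lit 1) (nat_lit 0x58008004c00200140008003703))) 
(.lf (nat_lit 6106932775) (dlOf (nat_lit 3) (nat_lit 0x700b00040054003c0280000e060054016001400a800000100058008000c00200120008003703))))) 
(.nd (nat_lit 8) (.nd (nat_lit 26) 
(.lf (nat_lit 1342207655) (dlOf (nat_lit 4) (nat_lit 0x102380130c04000811c0098502000408e004b901800a000))) 
(.lf (nat_lit 3691017895) (dlOf (nat_lit 1) (nat_lit 0x8002001c000800a002)))) 
(.lf (nat_lit 3489692583) (dlOf (nat_lit 1) (nat_lit 0x7000800100020002000800bd03))))))) 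
(.nd (nat_lit 29) (.nd (nat_lit 23) (.nd (nat_lit 20) (.nd (nat_lit 30) (.nd (nat_lit 9) 
(.lf (nat_lit 4362625063) (dlOf (nat_lit 1) (nat_lit 0x200180b0a01))) 
(.lf (nat_lit 50881063) (dlOf (nat_lit 1) (nat_lit 0x4002000200094d8802)))) (.nd (nat_lit 27) 
(.lf (nat_lit 3221774375) (dlOf (nat_lit 2) (nat_lit 0xb4084015490200180028180901))) 
(.lf (nat_lit 3624427559) (dlOf (nat_lit 1) (nat_lit 0x4002000200081a0582))))) (.nd (nat_lit 7) 
(.lf (nat_lit 35151911) (dlOf (nat_lit 1) (nat_lit 0x400200020008fe0782))) (.nd (nat_lit 9) 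
(.lf (nat_lit 37251495) (dlOf (nat_lit 1) (nat_lit 0x8002004200090d4e82))) 
(.lf (nat_lit 20736935) (dlOf (nat_lit 1) (nat_lit 0x8004000200089d5d02)))))) (.nd (nat_lit 18) 
(.nd (nat_lit 20) (.nd (nat_lit 22) 
(.lf (nat_lit 11034663) (dlOf (nat_lit 3) (nat_lit 0xdbf100014c0802a00000006604006400400020018660602))) 
(.lf (nat_lit 48783399) (dlOf (nat_lit 1) (nat_lit 0x1000400040009430782)))) 
(.lf (nat_lit 9986087) (dlOf (nat_lit 5) (nat_lit 0x5d218004f808000e9140026204000f48a00130020005a450006d1f8004bc1000200080048002004000085a0c03)))) 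
(.nd (nat_lit 7) (.nd (nat_lit 20) 
(.lf (nat_lit 59531303) (dlOf (nat_lit 2) (nat_lit 0xce82014e00000002029810780))) 
(.lf (nat_lit 27025447) (dlOf (nat_lit 1) (nat_lit 0x13800200380008ca0682)))) 
(.lf (nat_lit 44853671) (dlOf (nat_lit 1) (nat_lit 0x20009324e81)))))) (.nd (nat_lit 27) 
(.nd (nat_lit 31) (.nd (nat_lit 8) (.nd (nat_lit 26) 
(.lf (nat_lit 805855271) (dlOf (nat_lit 1) (nat_lit 0x600181c0a01))) 
(.lf (nat_lit 1678270503) (dlOf (nat_lit 1) (nat_lit 0x600181c0a01)))) 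
(.lf (nat_lit 604528935) (dlOf (nat_lit 2) (nat_lit 0x803000098040010002000400082f8102)))) 
(.nd (nat_lit 11) 
(.lf (nat_lit 2754109479) (dlOf (nat_lit 1) (nat_lit 0xb00080094002000800080c0c83))) 
(.lf (nat_lit 2752018471) (dlOf (nat_lit 1) (nat_lit 0x2002800a601))))) (.nd (nat_lit 30) 
(.nd (nat_lit 26) (.lf (nat_lit 2819121191) (dlOf (nat_lit 1) (nat_lit 0x4004000200181a0682))) 
(.lf (nat_lit 2886230055) (dlOf (nat_lit 1) (nat_lit 0x4002000200081a0582)))) (.nd (nat_lit 28) 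
(.lf (nat_lit 3959971879) (dlOf (nat_lit 2) (nat_lit 0xb4084016bb0200180028180901))) 
(.lf (nat_lit 4228407335) (dlOf (nat_lit 1) (nat_lit 0x200180b0a01)))))))) (.nd (nat_lit 18) 
(.nd (nat_lit 7) (.nd (nat_lit 8) (.nd (nat_lit 19) (.nd (nat_lit 9) (.nd (nat_lit 21) 
(.lf (nat_lit 12607591) (dlOf (nat_lit 1) (nat_lit 0x400286d1401))) 
(.lf (nat_lit 14704743) (dlOf (nat_lit 3) (nat_lit 0x526a8004ec0800213540027204000400400020018770d02)))) 
(.lf (nat_lit 5301627495) (dlOf (nat_lit 2) (nat_lit 0x100c00007604002000400020008005382)))) 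
(.nd (nat_lit 26) 
(.lf (nat_lit 3221774439) (dlOf (nat_lit 2) (nat_lit 0x560178033005000008080078002000a0008181382))) 
(.lf (nat_lit 3959971943) (dlOf (nat_lit 1) (nat_lit 0x340008181401))))) (.nd (nat_lit 26) 
(.nd (nat_lit 20) 
(.lf (nat_lit 3493880167) (dlOf (nat_lit 15) (nat_lit 0x703000006a0401e817e0003302000807b00610378000c81000b01bc000620409c01800002e0204420c00001681024c0600000b00810c03000005604001c186000c0b5012b0440024021c003c104004400300014860062044000c021c0004e0808d018000920880001282003e0600000840800b83000003c0407781800001b02005200281b0701))) 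
(.lf (nat_lit 24142183) (dlOf (nat_lit 1) (nat_lit 0x400400020008b80702)))) (.nd (nat_lit 9) 
(.lf (nat_lit 2755682663) (dlOf (nat_lit 2) (nat_lit 0x17123800094080028008000c002000400081b0703))) 
(.lf (nat_lit 4362102631) (dlOf (nat_lit 1) (nat_lit 0x300080018002000c0008004003)))))) 
(.nd (nat_lit 9) (.nd (nat_lit 10) (.nd (nat_lit 8) (.nd (nat_lit 12) 
(.lf (nat_lit 5771387111) (dlOf (nat_lit 1) (nat_lit 0x20018000a81))) 
(.lf (nat_lit 1342206183) (dlOf (nat_lit 1) (nat_lit 0x8008001000200020008008083)))) 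
(.lf (nat_lit 201357799) (dlOf (nat_lit 1) (nat_lit 0x800800040020002000800b283)))) 
(.nd (nat_lit 11) (.lf (nat_lit 8414439) (dlOf (nat_lit 1) (nat_lit 0x4800400020018512e02))) 
(.lf (nat_lit 1342205159) (dlOf (nat_lit 1) (nat_lit 0x2800400060008006502))))) (.nd (nat_lit 10) 
(.nd (nat_lit 19) (.lf (nat_lit 27367) (dlOf (nat_lit 1) (nat_lit 0x20018005981))) 
(.lf (nat_lit 49834727) (dlOf (nat_lit 1) (nat_lit 0x1c000094c5981)))) (.nd (nat_lit 8) 
(.lf (nat_lit 28391) (dlOf (nat_lit 1) (nat_lit 0x20028007401))) 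
(.lf (nat_lit 2952818663) (dlOf (nat_lit 1) (nat_lit 0x28004000e0008007a82))))))) (.nd (nat_lit 8) 
(.nd (nat_lit 29) (.nd (nat_lit 7) (.nd (nat_lit 9) (.nd (nat_lit 23) 
(.lf (nat_lit 1346134119) (dlOf (nat_lit 2) (nat_lit 0x1a0d900007018e60980))) 
(.lf (nat_lit 45899879) (dlOf (nat_lit 3) (nat_lit 0x90fc000420200448b9001a43f8003a02c006c000000130800080029360981)))) 
(.nd (nat_lit 20) (.lf (nat_lit 54815335) (dlOf (nat_lit 1) (nat_lit 0x8008000c00200060009655383))) 
(.lf (nat_lit 60058215) (dlOf (nat_lit 1) (nat_lit 0x400400020009845382))))) (.nd (nat_lit 9) 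
(.nd (nat_lit 20) (.lf (nat_lit 4765016295) (dlOf (nat_lit 1) (nat_lit 0x4004000200080c1b82))) 
(.lf (nat_lit 3490996455) (dlOf (nat_lit 1) (nat_lit 0x20018046b81)))) 
(.lf (nat_lit 20737767) (dlOf (nat_lit 1) (nat_lit 0x4004000e00089d7402))))) (.nd (nat_lit 9) 
(.nd (nat_lit 26) (.nd (nat_lit 10) 
(.lf (nat_lit 4966342759) (dlOf (nat_lit 1) (nat_lit 0x4004000200180b0d82))) 
(.lf (nat_lit 2818866279) (dlOf (nat_lit 4) (nat_lit 0xe0360001281000501b00008c0800580d800030040014004000c001812c082)))) 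
(.nd (nat_lit 7) (.lf (nat_lit 5033451623) (dlOf (nat_lit 1) (nat_lit 0x4004000200180b0d82))) 
(.lf (nat_lit 6376153319) (dlOf (nat_lit 4) (nat_lit 0xd043c006421c0016104003210d0004e810012086800238080058008000400200060008090a83))))) 
(.nd (nat_lit 10) (.nd (nat_lit 26) 
(.lf (nat_lit 5100563047) (dlOf (nat_lit 2) (nat_lit 0x14062000a02d0006016000280a800140500014024000500e8000ec3800b800800bc002000a00080d5383))) 
(.lf (nat_lit 4899236455) (dlOf (nat_lit 1) (nat_lit 0x80080030002000200080d5383)))) 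
(.lf (nat_lit 5234779751) (dlOf (nat_lit 1) (nat_lit 0x4004000200080d3902)))))) (.nd (nat_lit 26) 
(.nd (nat_lit 30) (.nd (nat_lit 9) (.nd (nat_lit 21) 
(.lf (nat_lit 25452903) (dlOf (nat_lit 2) (nat_lit 0x12f280007c04000800400060008c10982))) 
(.lf (nat_lit 2384231) (dlOf (nat_lit 1) (nat_lit 0x400200020008150702)))) 
(.lf (nat_lit 288615) (dlOf (nat_lit 1) (nat_lit 0x400400020008004002)))) (.nd (nat_lit 7) 
(.lf (nat_lit 3494142311) (dlOf (nat_lit 3) (nat_lit 0x340380002902012406b000138181b0700))) 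
(.lf (nat_lit 3221512679) (dlOf (nat_lit 5) (nat_lit 0x4d407c00c603c006400e007f00380344008000240a026603e00cf00e0085803802e8018015400400e200100668000000441c049c07c008001c00fd0070000801809b00f802f8078021600e00210020000742001c000804e800203d80008127303))))) 
(.nd (nat_lit 7) (.nd (nat_lit 19) 
(.lf (nat_lit 3154403687) (dlOf (nat_lit 2) (nat_lit 0x300000003404003c00200040008160982))) 
(.nd (nat_lit 27) 
(.lf (nat_lit 4362887527) (dlOf (nat_lit 2) (nat_lit 0x7c0000000002000600081a0701))) 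
(.lf (nat_lit 4228669799) (dlOf (nat_lit 2) (nat_lit 0x7c0000000002000600081a0701))))) 
(.nd (nat_lit 9) (.lf (nat_lit 3959710183) (dlOf (nat_lit 1) (nat_lit 0x60018127d01))) 
(.lf (nat_lit 4496583655) (dlOf (nat_lit 1) (nat_lit 0x2200280e5e81)))))))))) (.nd (nat_lit 2) 
(.nd (nat_lit 6) (.nd (nat_lit 18) (.nd (nat_lit 30) (.nd (nat_lit 8) (.nd (nat_lit 21) 
(.nd (nat_lit 11) (.nd (nat_lit 20) (.nd (nat_lit 23) 
(.lf (nat_lit 805920803) (dlOf (nat_lit 1) (nat_lit 0xc002000400081f0b82))) 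
(.lf (nat_lit 42557475) (dlOf (nat_lit 7) (nat_lit 0xb087f000140580007c10031a1fc0003c04013d0fc00027e9002e3a0801a1c240001c10003d0fc00167090000682004143f00139d0400a8e12000090600d480900813a0000000100288008003000200020009260183)))) 
(.nd (nat_lit 19) (.lf (nat_lit 68247587) (dlOf (nat_lit 1) (nat_lit 0x4002000200084b0582))) 
(.lf (nat_lit 26828835) (dlOf (nat_lit 1) (nat_lit 0x400400020008c80602))))) (.nd (nat_lit 7) 
(.lf (nat_lit 2885774371) (dlOf (nat_lit 2) (nat_lit 0xc03d0006c818006080))) (.nd (nat_lit 10) 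
(.lf (nat_lit 34695843) (dlOf (nat_lit 1) (nat_lit 0x20008fb5601))) 
(.lf (nat_lit 2885775011) (dlOf (nat_lit 2) (nat_lit 0x36406e001a03500990000000a8180170008014c002001c0008007203)))))) 
(.nd (nat_lit 7) (.nd (nat_lit 20) (.nd (nat_lit 19) 
(.lf (nat_lit 14770211) (dlOf (nat_lit 5) (nat_lit 0x9300000002c080500000000140400f80000000702007200000000018770180))) 
(.lf (nat_lit 2754175011) (dlOf (nat_lit 2) (nat_lit 0x141f8000ab0180c0b00)))) (.nd (nat_lit 10) 
(.lf (nat_lit 28401699) (dlOf (nat_lit 1) (nat_lit 0x1ce0028d90681))) 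
(.lf (nat_lit 20016163) (dlOf (nat_lit 1) (nat_lit 0x4004000a00089d6082))))) (.nd (nat_lit 9) 
(.nd (nat_lit 10) (.lf (nat_lit 44130467) (dlOf (nat_lit 1) (nat_lit 0x4004001400092d1382))) 
(.lf (nat_lit 32072867) (dlOf (nat_lit 1) (nat_lit 0x20028ef2c01)))) 
(.lf (nat_lit 2754703011) (dlOf (nat_lit 1) (nat_lit 0x400180f7201)))))) (.nd (nat_lit 9) 
(.nd (nat_lit 19) (.nd (nat_lit 7) (.nd (nat_lit 20) 
(.lf (nat_lit 2755748131) (dlOf (nat_lit 1) (nat_lit 0x200181b0501))) 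
(.lf (nat_lit 3236131) (dlOf (nat_lit 2) (nat_lit 0x293a40006804000400400640008200502)))) 
(.lf (nat_lit 4563495331) (dlOf (nat_lit 4) (nat_lit 0xe2012006c70100130198035000800980cc01a7e0406d400400560008094e82)))) 
(.nd (nat_lit 20) (.nd (nat_lit 24) 
(.lf (nat_lit 470376739) (dlOf (nat_lit 1) (nat_lit 0xc00280c0501))) 
(.lf (nat_lit 17391907) (dlOf (nat_lit 1) (nat_lit 0xec004005200088e0702)))) 
(.lf (nat_lit 12149027) (dlOf (nat_lit 1) (nat_lit 0x1000286c0501))))) (.nd (nat_lit 7) 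
(.nd (nat_lit 10) (.lf (nat_lit 97059) (dlOf (nat_lit 1) (nat_lit 0x40040006000800bc82))) 
(.lf (nat_lit 93987) (dlOf (nat_lit 1) (nat_lit 0x20008001000200060008007483)))) (.nd (nat_lit 10) 
(.lf (nat_lit 46230435) (dlOf (nat_lit 1) (nat_lit 0x3a0009385c81))) (.nd (nat_lit 28) 
(.lf (nat_lit 671180707) (dlOf (nat_lit 1) (nat_lit 0x1400200080008144302))) 
(.lf (nat_lit 939616163) (dlOf (nat_lit 1) (nat_lit 0x1c0028144301)))))))) (.nd (nat_lit 31) 
(.nd (nat_lit 19) (.nd (nat_lit 7) (.nd (nat_lit 9) 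
(.lf (nat_lit 1343316003) (dlOf (nat_lit 3) (nat_lit 0x1051c0019c040008046000c802000800281e0601))) 
(.lf (nat_lit 1342271011) (dlOf (nat_lit 1) (nat_lit 0x240018007181)))) (.nd (nat_lit 27) 
(.lf (nat_lit 5637237667) (dlOf (nat_lit 2) (nat_lit 0x2a01400110010000e0100060008002000200080008055c83))) 
(.lf (nat_lit 5771455395) (dlOf (nat_lit 1) (nat_lit 0x20018005c81))))) (.nd (nat_lit 29) 
(.nd (nat_lit 8) (.lf (nat_lit 1343840291) (dlOf (nat_lit 1) (nat_lit 0x20008370001))) 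
(.lf (nat_lit 1342791971) (dlOf (nat_lit 1) (nat_lit 0xc00280c0501)))) (.nd (nat_lit 21) 
(.lf (nat_lit 1678336035) (dlOf (nat_lit 1) (nat_lit 0xc002000400081f0b82))) 
(.lf (nat_lit 1881759779) (dlOf (nat_lit 2) (nat_lit 0xde0eb001203e803781e00007c0c001800200140009000182)))))) 
(.nd (nat_lit 27) (.nd (nat_lit 7) (.nd (nat_lit 21) 
(.lf (nat_lit 3557384227) (dlOf (nat_lit 1) (nat_lit 0x1600281e0681))) 
(.lf (nat_lit 3492372515) (dlOf (nat_lit 2) (nat_lit 0x141e6000620180c0b00)))) (.nd (nat_lit 8) 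
(.lf (nat_lit 3221315747) (dlOf (nat_lit 2) (nat_lit 0x40880013f02000c0008090201))) 
(.lf (nat_lit 3489754531) (dlOf (nat_lit 1) (nat_lit 0x860028006d01))))) (.nd (nat_lit 9) 
(.nd (nat_lit 7) 
(.lf (nat_lit 3892928547) (dlOf (nat_lit 2) (nat_lit 0xa0190002f8080140008002400200400008290d83))) 
(.lf (nat_lit 3959513251) (dlOf (nat_lit 2) (nat_lit 0x40880013202000c0008090201)))) 
(.nd (nat_lit 10) (.lf (nat_lit 3355533859) (dlOf (nat_lit 1) (nat_lit 0x200180a1481))) 
(.lf (nat_lit 4227952163) (dlOf (nat_lit 1) (nat_lit 0x140018007181)))))))) (.nd (nat_lit 21) 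
(.nd (nat_lit 27) (.nd (nat_lit 19) (.nd (nat_lit 26) (.nd (nat_lit 7) 
(.lf (nat_lit 3758448675) (dlOf (nat_lit 2) (nat_lit 0x15c060000e702002c00181c0601))) 
(.lf (nat_lit 21323939) (dlOf (nat_lit 1) (nat_lit 0x8008000400200020008a31403)))) 
(.nd (nat_lit 20) 
(.lf (nat_lit 4899299363) (dlOf (nat_lit 2) (nat_lit 0xa019000114080010008000800200060008100183))) 
(.lf (nat_lit 68509731) (dlOf (nat_lit 1) (nat_lit 0x1ac004029c0008590a82))))) (.nd (nat_lit 20) 
(.lf (nat_lit 21848099) (dlOf (nat_lit 1) (nat_lit 0x20028a70481))) (.nd (nat_lit 24) 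
(.lf (nat_lit 10313763) (dlOf (nat_lit 1) (nat_lit 0x4004000600085d0502))) 
(.lf (nat_lit 27090979) (dlOf (nat_lit 4) (nat_lit 0x50d8e000738100326c700028008006b6380000004000c004002e0008ca0602)))))) 
(.nd (nat_lit 26) (.nd (nat_lit 28) (.nd (nat_lit 30) 
(.lf (nat_lit 671440931) (dlOf (nat_lit 3) (nat_lit 0x480280005601002c0140002ac0800c00080004002001a00081a0503))) 
(.lf (nat_lit 3892666403) (dlOf (nat_lit 8) (nat_lit 0x163016000064080ba80b0000300401f80580001702041806401eb0300116816800ac0b203dc05501ee01a00a380bc077405003d2014001700300f7000c000162c08200c8000a06201ba0300104016807000aa037e034011801780d980a006e00280394003000050a010303000ec816807480aa03ae03401d400a004f000c0000e1807880c8041c05a01b202a80f0811c06d0068014802f01f8017004e00b000ac050033601401cb00180f280080000030040800401540008180182)))) 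
(.nd (nat_lit 7) (.lf (nat_lit 5234843683) (dlOf (nat_lit 2) (nat_lit 0x2801c00022818100180))) 
(.lf (nat_lit 5771717539) (dlOf (nat_lit 1) (nat_lit 0xa0018005c81))))) (.nd (nat_lit 28) 
(.lf (nat_lit 201678883) (dlOf (nat_lit 2) (nat_lit 0xba03100014018080800))) (.nd (nat_lit 29) 
(.lf (nat_lit 1543856163) (dlOf (nat_lit 3) (nat_lit 0x480280002b01002c0140001540800c00080004002001a00081a0503))) 
(.lf (nat_lit 3154468899) (dlOf (nat_lit 5) (nat_lit 0x2ac0c8015605a002e029000180bc000161001f80c8006e05a00030290000281803e8168021802800f20030000383003a032003a811c00c008c00be0440034017000000280040008004c002001c00081a0183))))))) 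
(.nd (nat_lit 9) (.nd (nat_lit 26) (.nd (nat_lit 20) 
(.lf (nat_lit 2449443) (dlOf (nat_lit 1) (nat_lit 0xd80080084002000a0008160903))) 
(.lf (nat_lit 37052451) (dlOf (nat_lit 1) (nat_lit 0x400400020009090182)))) (.nd (nat_lit 7) 
(.lf (nat_lit 4096614435) (dlOf (nat_lit 4) (nat_lit 0x1802800040010001782000a0098000b808002804c0002804001000400060018140b82))) 
(.lf (nat_lit 69560739) (dlOf (nat_lit 1) (nat_lit 0xf800800c800200540008b44e83))))) 
(.nd (nat_lit 7) (.nd (nat_lit 8) 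
(.lf (nat_lit 20280867) (dlOf (nat_lit 2) (nat_lit 0x180000030380801c00080108002000a00089d9c03))) 
(.lf (nat_lit 8221475) (dlOf (nat_lit 1) (nat_lit 0x220018518f81)))) 
(.lf (nat_lit 36530851) (dlOf (nat_lit 1) (nat_lit 0x400200a00009075602))))))) (.nd (nat_lit 8) 
(.nd (nat_lit 19) (.nd (nat_lit 18) (.nd (nat_lit 29) (.nd (nat_lit 7) (.nd (nat_lit 22) 
(.lf (nat_lit 26304611) (dlOf (nat_lit 1) (nat_lit 0x900028c30d01))) 
(.lf (nat_lit 47276131) (dlOf (nat_lit 1) (nat_lit 0x3a00093c0781)))) (.nd (nat_lit 9) 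
(.lf (nat_lit 97507) (dlOf (nat_lit 1) (nat_lit 0x2e001800c581))) 
(.lf (nat_lit 20019939) (dlOf (nat_lit 1) (nat_lit 0x80080004002000200089db983))))) 
(.nd (nat_lit 26) (.nd (nat_lit 27) 
(.lf (nat_lit 2952880227) (dlOf (nat_lit 1) (nat_lit 0x18008000400200020008010283))) 
(.lf (nat_lit 2013356131) (dlOf (nat_lit 1) (nat_lit 0x8008000400200020008011983)))) 
(.nd (nat_lit 7) (.lf (nat_lit 604069987) (dlOf (nat_lit 2) (nat_lit 0x802200c1f0200020028010281))) 
(.lf (nat_lit 2755748067) (dlOf (nat_lit 1) (nat_lit 0xcc00281b0481)))))) (.nd (nat_lit 10) 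
(.nd (nat_lit 27) (.nd (nat_lit 20) 
(.lf (nat_lit 1346723939) (dlOf (nat_lit 1) (nat_lit 0x8008000400200020008ff1983))) 
(.lf (nat_lit 37052515) (dlOf (nat_lit 1) (nat_lit 0x400400020009090902)))) (.nd (nat_lit 26) 
(.lf (nat_lit 2818924643) (dlOf (nat_lit 4) (nat_lit 0x2000005db810007000002eb40800100000170604010c00200560008130282))) 
(.lf (nat_lit 5838823523) (dlOf (nat_lit 1) (nat_lit 0xc004000600181c1382))))) (.nd (nat_lit 12) 
(.lf (nat_lit 38102115) (dlOf (nat_lit 1) (nat_lit 0x400200a80009132982))) 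
(.lf (nat_lit 20280419) (dlOf (nat_lit 1) (nat_lit 0x200289d9401)))))) (.nd (nat_lit 11) 
(.nd (nat_lit 21) (.nd (nat_lit 23) 
(.lf (nat_lit 1409900643) (dlOf (nat_lit 2) (nat_lit 0x2807400240358000981000180080084002002800080a1383))) 
(.lf (nat_lit 42557539) (dlOf (nat_lit 1) (nat_lit 0x60019260901)))) (.nd (nat_lit 7) 
(.lf (nat_lit 472473699) (dlOf (nat_lit 1) (nat_lit 0x118008006000200380008991983))) 
(.lf (nat_lit 23683299) (dlOf (nat_lit 1) (nat_lit 0x2600080004002003a0008b80483))))) 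
(.nd (nat_lit 7) (.nd (nat_lit 10) 
(.lf (nat_lit 616547) (dlOf (nat_lit 1) (nat_lit 0xe20018004701))) 
(.lf (nat_lit 621667) (dlOf (nat_lit 1) (nat_lit 0x2c0020002000800c082)))) 
(.lf (nat_lit 617187) (dlOf (nat_lit 1) (nat_lit 0x300028005981)))))) (.nd (nat_lit 7) 
(.nd (nat_lit 10) (.nd (nat_lit 11) (.nd (nat_lit 9) 
(.lf (nat_lit 2483118435) (dlOf (nat_lit 2) (nat_lit 0x202c00258018014f00))) 
(.lf (nat_lit 8217443) (dlOf (nat_lit 1) (nat_lit 0x8e0018512581)))) (.nd (nat_lit 20) 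
(.lf (nat_lit 1543596387) (dlOf (nat_lit 5) (nat_lit 0x201800af281000300b80508c08001005c0284404001402e013f90200020008144e81))) 
(.lf (nat_lit 53569891) (dlOf (nat_lit 1) (nat_lit 0x80080004002000200095f4e83))))) 
(.nd (nat_lit 19) 
(.lf (nat_lit 2818663779) (dlOf (nat_lit 3) (nat_lit 0x48058002002a000e00e00090060004001800240080010000000198700060030000c40800700080024002000a00080d3403))) 
(.lf (nat_lit 1611228515) (dlOf (nat_lit 1) (nat_lit 0x2e4004015e0008123402))))) (.nd (nat_lit 26) 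
(.nd (nat_lit 10) (.nd (nat_lit 11) 
(.lf (nat_lit 2550227427) (dlOf (nat_lit 1) (nat_lit 0x400400020008017302))) 
(.lf (nat_lit 8223203) (dlOf (nat_lit 1) (nat_lit 0x3a001851b281)))) 
(.lf (nat_lit 19754467) (dlOf (nat_lit 1) (nat_lit 0x280080164002002400089d6e03)))) 
(.nd (nat_lit 30) (.nd (nat_lit 9) 
(.lf (nat_lit 738290147) (dlOf (nat_lit 1) (nat_lit 0x988008015400202a80008094e83))) 
(.lf (nat_lit 469853155) (dlOf (nat_lit 1) (nat_lit 0x60028002881)))) (.nd (nat_lit 27) 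
(.lf (nat_lit 3825297891) (dlOf (nat_lit 1) (nat_lit 0x800400020008144e82))) 
(.lf (nat_lit 1812031971) (dlOf (nat_lit 1) (nat_lit 0x800400020008144e82))))))))) 
(.nd (nat_lit 18) (.nd (nat_lit 6) (.nd (nat_lit 19) (.nd (nat_lit 10) (.nd (nat_lit 20) 
(.nd (nat_lit 26) (.nd (nat_lit 8) (.nd (nat_lit 22) 
(.lf (nat_lit 6576758823) (dlOf (nat_lit 1) (nat_lit 0xa00180c0901))) 
(.lf (nat_lit 21061671) (dlOf (nat_lit 27) (nat_lit 0x4b7d40029bd80004deb00046ee0004352c001d9a60004cd20002f87002c6fa8008b7d0006dbd8000adeb00156ee000e352c00152c60005d0e0010df5000a6f60005b52c00359a60005908003edf500146f6000eb52c00519a600058080012df500136f6000fb52c00359a60005708001cdf500226f60002b52c00419a600055080032df5000a6f6000c334c000a80c0031bea0006df400146a5800bb5280075a8c000ecd30002906000d6fa800a37b00069a960024cd30002884001d6fa800937b0004da960022cd3000260400146fa8006b7b0002db0e0010d4b001f6a50008b51800319a60004b0e0028df500036f60000b52c00619a60004a080026cd00002101000d6f4801032200007e080005a960003c02002ed4b0001b8100126a58000d80800fb7d40029bd80014d4b00176698000cc20003b7d40029bd80030d4b00096698000c82000ab7d4006dbd8000ed4b00156698000c42001037d4005dbd8002cd4b00186698000c02000a352c00014040055a9600009020006d4b000028100146a580000808009b52c000020400f400400260018a00902))))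 
(.nd (nat_lit 7) 
(.lf (nat_lit 1208049959) (dlOf (nat_lit 1) (nat_lit 0xa0008000800200160008090a83))) 
(.lf (nat_lit 97191) (dlOf (nat_lit 1) (nat_lit 0x700080054002002c000800bd03))))) (.nd (nat_lit 30) 
(.nd (nat_lit 22) 
(.lf (nat_lit 2214682663) (dlOf (nat_lit 3) (nat_lit 0x1e0130003005c000a808018c04c001c01c000200b80012c180050008000c002000e0008020903))) 
(.lf (nat_lit 2755747879) (dlOf (nat_lit 1) (nat_lit 0xa4002000200081b0002)))) (.nd (nat_lit 7) 
(.lf (nat_lit 5972779047) (dlOf (nat_lit 1) (nat_lit 0xa00180c0901))) 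
(.lf (nat_lit 2080465063) (dlOf (nat_lit 1) (nat_lit 0x13400401040008090582)))))) (.nd (nat_lit 11) 
(.nd (nat_lit 24) (.lf (nat_lit 1343316007) (dlOf (nat_lit 1) (nat_lit 0xa00181e0681))) 
(.lf (nat_lit 17915943) (dlOf (nat_lit 1) (nat_lit 0xa0018900b01)))) (.nd (nat_lit 7) 
(.lf (nat_lit 53570087) (dlOf (nat_lit 1) (nat_lit 0x10002000c00095f5182))) 
(.lf (nat_lit 49375655) (dlOf (nat_lit 1) (nat_lit 0x20009464e81)))))) (.nd (nat_lit 7) 
(.nd (nat_lit 11) (.nd (nat_lit 26) 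
(.lf (nat_lit 95271) (dlOf (nat_lit 1) (nat_lit 0x400400020018009202))) 
(.lf (nat_lit 469857319) (dlOf (nat_lit 2) (nat_lit 0x682380146204004000400420008009202)))) 
(.nd (nat_lit 20) (.lf (nat_lit 134310951) (dlOf (nat_lit 1) (nat_lit 0x400400020008006082))) 
(.lf (nat_lit 20016167) (dlOf (nat_lit 1) (nat_lit 0x700080044002001400089d6083))))) 
(.nd (nat_lit 8) (.nd (nat_lit 9) 
(.lf (nat_lit 3825298599) (dlOf (nat_lit 1) (nat_lit 0x60028146281))) 
(.lf (nat_lit 4227952295) (dlOf (nat_lit 1) (nat_lit 0x400400020008007202)))) (.nd (nat_lit 9) 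
(.lf (nat_lit 4697712039) (dlOf (nat_lit 1) (nat_lit 0x8000200420008093602))) 
(.lf (nat_lit 939616167) (dlOf (nat_lit 1) (nat_lit 0x1c0028144301))))))) (.nd (nat_lit 20) 
(.nd (nat_lit 21) (.nd (nat_lit 27) (.nd (nat_lit 23) 
(.lf (nat_lit 3221839911) (dlOf (nat_lit 4) (nat_lit 0x401c0001902000600e0000c010001007000050080008008002c002006400081a0c03))) 
(.lf (nat_lit 42557479) (dlOf (nat_lit 3) (nat_lit 0xce8200029020006741000438480009c100080008001000200320009260203)))) 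
(.nd (nat_lit 26) 
(.lf (nat_lit 3892928551) (dlOf (nat_lit 3) (nat_lit 0x6402c001650200020320005f018290d80))) 
(.lf (nat_lit 3960037415) (dlOf (nat_lit 1) (nat_lit 0x8002002400081a0c82))))) (.nd (nat_lit 22) 
(.nd (nat_lit 23) 
(.lf (nat_lit 3492372519) (dlOf (nat_lit 3) (nat_lit 0x401e60000c81002e0f30000600800380080098002003400080c0c03))) 
(.lf (nat_lit 11100199) (dlOf (nat_lit 3) (nat_lit 0xadf88000a604007f8a8000330200300028660601)))) 
(.nd (nat_lit 7) (.lf (nat_lit 15294503) (dlOf (nat_lit 1) (nat_lit 0x800287d0781))) 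
(.lf (nat_lit 32072871) (dlOf (nat_lit 2) (nat_lit 0x107e800020000002f828ef2c00)))))) 
(.nd (nat_lit 9) (.nd (nat_lit 7) (.nd (nat_lit 8) (.nd (nat_lit 21) 
(.lf (nat_lit 43606055) (dlOf (nat_lit 1) (nat_lit 0x1c00292a0001))) 
(.lf (nat_lit 28925991) (dlOf (nat_lit 1) (nat_lit 0x18008000400200040008da0003)))) 
(.lf (nat_lit 28926247) (dlOf (nat_lit 1) (nat_lit 0x800200020008da0702)))) 
(.lf (nat_lit 20544679) (dlOf (nat_lit 1) (nat_lit 0xe00289dc201)))) (.nd (nat_lit 11) 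
(.nd (nat_lit 26) (.lf (nat_lit 3491324455) (dlOf (nat_lit 2) (nat_lit 0xca23400037818090e00))) 
(.lf (nat_lit 2753126951) (dlOf (nat_lit 2) (nat_lit 0xca24c00037818090e00)))) (.nd (nat_lit 7) 
(.lf (nat_lit 7961127) (dlOf (nat_lit 1) (nat_lit 0x40020080000851b282))) 
(.lf (nat_lit 20540327) (dlOf (nat_lit 1) (nat_lit 0x3600289d5d01)))))))) (.nd (nat_lit 9) 
(.nd (nat_lit 26) (.nd (nat_lit 10) (.nd (nat_lit 22) (.nd (nat_lit 8) 
(.lf (nat_lit 26304615) (dlOf (nat_lit 1) (nat_lit 0x400400020008c30d02))) 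
(.lf (nat_lit 4697710951) (dlOf (nat_lit 5) (nat_lit 0x200d0012802a00140120000303002101a0031005400e402400005060004034005300a802a8048000080c004c06800aa015004900900000c18000800801a800200560008090f03)))) 
(.nd (nat_lit 21) 
(.lf (nat_lit 47276135) (dlOf (nat_lit 1) (nat_lit 0x1f800801d8002002e00093c0783))) 
(.lf (nat_lit 7430247) (dlOf (nat_lit 1) (nat_lit 0x1400084b0481))))) (.nd (nat_lit 7) 
(.nd (nat_lit 8) (.lf (nat_lit 9008231) (dlOf (nat_lit 1) (nat_lit 0x20008000c00200080008519403))) 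
(.lf (nat_lit 3892405607) (dlOf (nat_lit 1) (nat_lit 0xf000200880008103482)))) 
(.lf (nat_lit 97511) (dlOf (nat_lit 1) (nat_lit 0x40020004000800c602))))) (.nd (nat_lit 7) 
(.nd (nat_lit 8) 
(.lf (nat_lit 474570855) (dlOf (nat_lit 23) (nat_lit 0x68859c01ac2ae010c0c500d100b00015820010859c000a60401ec2860004a0201fc156010a0a180058258000900c040c2ac021e143000b04b00011c1801f050c0008c0403ec2ac020e143000506280058258000881004642ac0248143000b04b00010c1800b859808302ac03fa14301e009d00fa8330009812c03d808400a103a0001084006e0558035828600041040104156007e0a180010010063055802442860003f04009815600460a18000f810021055800902860003d04022e156010d0a180308330000780c03b82ac01c81430001d82004f0ab0024050c00080e60003806022e156010d0a18000dc1001c8558000680403a42ac01c0143000198200330ab0013850c0002e0803ac2ce01d80c500ec00b00004c1803f80080008002019a00091a0983))) 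
(.nd (nat_lit 10) (.lf (nat_lit 2348900711) (dlOf (nat_lit 2) (nat_lit 0x202e00522818015200))) 
(.lf (nat_lit 3825298791) (dlOf (nat_lit 1) (nat_lit 0x140018146a81))))) (.nd (nat_lit 8) 
(.nd (nat_lit 22) (.lf (nat_lit 604070119) (dlOf (nat_lit 1) (nat_lit 0x80018010681))) 
(.lf (nat_lit 2755748071) (dlOf (nat_lit 1) (nat_lit 0xb000181b0481)))) 
(.lf (nat_lit 2483118567) (dlOf (nat_lit 3) (nat_lit 0x3740000002f0201e600000016818017300)))))) 
(.nd (nat_lit 28) (.nd (nat_lit 7) (.nd (nat_lit 21) 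
(.lf (nat_lit 46754407) (dlOf (nat_lit 1) (nat_lit 0x100029385381))) 
(.lf (nat_lit 69823079) (dlOf (nat_lit 1) (nat_lit 0x1400400040008cd5382)))) (.nd (nat_lit 10) 
(.lf (nat_lit 39938791) (dlOf (nat_lit 1) (nat_lit 0x500080010002001e00091f5983))) 
(.lf (nat_lit 618215) (dlOf (nat_lit 1) (nat_lit 0x9e0028007401))))) (.nd (nat_lit 8) 
(.nd (nat_lit 26) (.lf (nat_lit 5234584167) (dlOf (nat_lit 2) (nat_lit 0x402b00000018055380))) 
(.lf (nat_lit 5704346215) (dlOf (nat_lit 1) (nat_lit 0x10008000800200020008055383)))) 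
(.nd (nat_lit 7) (.lf (nat_lit 3492898663) (dlOf (nat_lit 1) (nat_lit 0x4004000200080f4002))) 
(.lf (nat_lit 4697711591) (dlOf (nat_lit 3) (nat_lit 0x38048011d8040004066007a20200060028092881)))))))) 
(.nd (nat_lit 19) (.nd (nat_lit 26) (.nd (nat_lit 20) (.nd (nat_lit 27) (.nd (nat_lit 6) 
(.nd (nat_lit 21) 
(.lf (nat_lit 3221577767) (dlOf (nat_lit 2) (nat_lit 0x3013800038080008008000400200020008150783))) 
(.lf (nat_lit 2449447) (dlOf (nat_lit 1) (nat_lit 0x320018160901)))) 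
(.lf (nat_lit 52782695) (dlOf (nat_lit 1) (nat_lit 0x400400020009573902)))) (.nd (nat_lit 28) 
(.nd (nat_lit 29) 
(.lf (nat_lit 3355795495) (dlOf (nat_lit 14) (nat_lit 0xfa01a017c00b8000aa0807a405c0005402032602e00029810055017000144080a200b8000a004063805c035e02d0002782002e0168001380806880d00b4405c051402d0002683006c017000110080e580b80008004067805c0003f0200aa02e0001f01008b0170000f00803680080004002000a0008120603))) 
(.lf (nat_lit 671440935) (dlOf (nat_lit 10) (nat_lit 0x48018006c0000005a04001c006000230100f701600a98098053c03a02ac01b012500300a6800c02fc0020270000000208800c301600900098048403601de0060119001808800000008018027000c013400300820000000fc180708018021c0060003d040134006009600180258000000760c01d003601d60060089001803680000006a10000c00c0003002002800281a0581)))) 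
(.lf (nat_lit 6308585511) (dlOf (nat_lit 1) (nat_lit 0x20018120c01))))) (.nd (nat_lit 23) 
(.nd (nat_lit 6) (.nd (nat_lit 7) 
(.lf (nat_lit 1400871) (dlOf (nat_lit 1) (nat_lit 0x4004000200080c0a82))) 
(.lf (nat_lit 20280231) (dlOf (nat_lit 1) (nat_lit 0x3200289d9101)))) 
(.lf (nat_lit 3498343) (dlOf (nat_lit 1) (nat_lit 0x400200020008200702)))) (.nd (nat_lit 7) 
(.nd (nat_lit 9) 
(.lf (nat_lit 16080935) (dlOf (nat_lit 1) (nat_lit 0x5c800802a0002011e0008860703))) 
(.lf (nat_lit 45443623) (dlOf (nat_lit 5) (nat_lit 0xfb3a8001800400619d40002cb60004602001c67500022c0800cb3a80011204007c00400080009325182)))) 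
(.lf (nat_lit 47539367) (dlOf (nat_lit 2) (nat_lit 0xb7800005f0200060009402c01)))))) 
(.nd (nat_lit 27) (.nd (nat_lit 6) (.nd (nat_lit 20) (.nd (nat_lit 28) 
(.lf (nat_lit 4362428455) (dlOf (nat_lit 2) (nat_lit 0x180660000d02000c0008070781))) 
(.lf (nat_lit 5704605735) (dlOf (nat_lit 1) (nat_lit 0x20018120c01)))) 
(.lf (nat_lit 68509735) (dlOf (nat_lit 1) (nat_lit 0x340018590b01)))) (.nd (nat_lit 7) 
(.lf (nat_lit 3557122407) (dlOf (nat_lit 1) (nat_lit 0x800200120008130982))) 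
(.lf (nat_lit 872767719) (dlOf (nat_lit 2) (nat_lit 0x1e033000710180c1b80))))) (.nd (nat_lit 29) 
(.nd (nat_lit 30) (.nd (nat_lit 20) 
(.lf (nat_lit 2617597991) (dlOf (nat_lit 23) (nat_lit 0x1015800174081b580d0002406204f402b001a006000170200ba80ac000b604009406801aa02b0002d02034001a000160081bd80d00014056000570401a603300aa015805880a8000ac0c0004066000550206ac034032b019813800c409c8056058602a00e4013804b807c01c4038002600a0002a0904e301a00014c0823b80d0000a4041268068000510203700340002801036f01a00013c0802f00d00009a040004068000c02b000258204f001a00d280cc057c05600f202a003600e8058802c0008e180fe8068006602b0002302026401a0001140801e00d00028056000430400020240002081003701a0000000800480080358002001e0008100603))) 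
(.lf (nat_lit 473260071) (dlOf (nat_lit 1) (nat_lit 0x40018e30001)))) (.nd (nat_lit 31) 
(.lf (nat_lit 1543856167) (dlOf (nat_lit 10) (nat_lit 0x48018006c0000005a04001c006000230100f701600a98098053c03a02ac019012500300a6800c02fc0020270000000208800c301600900098048403201de0060119001808800000008018027000c013400300820000000fc180708018021c0060003d040134006009600180258000000760c01d003201d60060089001803680000006a10000c00c0003002002800281a0581))) 
(.lf (nat_lit 3691339815) (dlOf (nat_lit 2) (nat_lit 0x2201d005d2018160000))))) (.nd (nat_lit 28) 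
(.lf (nat_lit 3959775271) (dlOf (nat_lit 2) (nat_lit 0x301380008c080008008000400200020008150783))) 
(.lf (nat_lit 4228210727) (dlOf (nat_lit 2) (nat_lit 0x180640002202000c0008070781))))))) 
(.nd (nat_lit 20) (.nd (nat_lit 7) (.nd (nat_lit 21) (.nd (nat_lit 23) 
(.lf (nat_lit 67985447) (dlOf (nat_lit 1) (nat_lit 0x340008360601))) 
(.lf (nat_lit 59596839) (dlOf (nat_lit 1) (nat_lit 0x400200020009810782)))) (.nd (nat_lit 26) 
(.lf (nat_lit 3492634663) (dlOf (nat_lit 2) (nat_lit 0x4d41f5000390180e0500))) (.nd (nat_lit 29) 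
(.lf (nat_lit 70082599) (dlOf (nat_lit 1) (nat_lit 0x60028eb0781))) 
(.lf (nat_lit 2754437159) (dlOf (nat_lit 2) (nat_lit 0x4d420a000390180e0500)))))) (.nd (nat_lit 8) 
(.nd (nat_lit 10) (.lf (nat_lit 19755687) (dlOf (nat_lit 1) (nat_lit 0x200189d8c81))) 
(.lf (nat_lit 1007513255) (dlOf (nat_lit 1) (nat_lit 0x4002000200083d7202)))) (.nd (nat_lit 6) 
(.lf (nat_lit 1007515047) (dlOf (nat_lit 1) (nat_lit 0x2600183d9901))) 
(.lf (nat_lit 19754471) (dlOf (nat_lit 1) (nat_lit 0xc00189d6e81)))))) (.nd (nat_lit 22) 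
(.nd (nat_lit 6) (.nd (nat_lit 21) (.nd (nat_lit 24) 
(.lf (nat_lit 43868199) (dlOf (nat_lit 1) (nat_lit 0x1200080024002003800092a0003))) 
(.lf (nat_lit 27090983) (dlOf (nat_lit 1) (nat_lit 0x28008026400200ea0008ca0683)))) 
(.lf (nat_lit 45965351) (dlOf (nat_lit 1) (nat_lit 0x800400040009370782)))) (.nd (nat_lit 7) 
(.lf (nat_lit 1346199655) (dlOf (nat_lit 1) (nat_lit 0x1a400400aa0008e60982))) 
(.lf (nat_lit 60646375) (dlOf (nat_lit 1) (nat_lit 0x20008000c002000a00098c2883))))) 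
(.nd (nat_lit 7) (.nd (nat_lit 24) (.nd (nat_lit 8) 
(.lf (nat_lit 8216615) (dlOf (nat_lit 1) (nat_lit 0x60028510001))) 
(.lf (nat_lit 8218919) (dlOf (nat_lit 2) (nat_lit 0xb2380001c604000400400040018514b82)))) 
(.nd (nat_lit 21) 
(.lf (nat_lit 22896679) (dlOf (nat_lit 3) (nat_lit 0x106d38000980400a63fa000320200040028b40601))) 
(.lf (nat_lit 24993831) (dlOf (nat_lit 1) (nat_lit 0x10008000400200060008bd0c83))))) 
(.nd (nat_lit 8) (.lf (nat_lit 8221351) (dlOf (nat_lit 1) (nat_lit 0x400200020008518c82))) 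
(.lf (nat_lit 8216999) (dlOf (nat_lit 1) (nat_lit 0x400200020008511002))))))))))) (.nd (nat_lit 2) 
(.nd (nat_lit 16) (.nd (nat_lit 18) (.nd (nat_lit 19) (.nd (nat_lit 6) (.nd (nat_lit 7) 
(.nd (nat_lit 20) (.nd (nat_lit 10) (.nd (nat_lit 11) (.nd (nat_lit 22) 
(.lf (nat_lit 27320355) (dlOf (nat_lit 2) (nat_lit 0x729b001706040024004002c0018cd0682))) 
(.lf (nat_lit 14737443) (dlOf (nat_lit 5) (nat_lit 0x4e800001d02005e000000058100050000000280800080000000e04002c004000a0008770182)))) 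
(.lf (nat_lit 469821475) (dlOf (nat_lit 1) (nat_lit 0x400200060008004702)))) (.nd (nat_lit 8) 
(.nd (nat_lit 9) 
(.lf (nat_lit 2483088419) (dlOf (nat_lit 2) (nat_lit 0x2a0150005b00802180080040002005a0008006083))) 
(.lf (nat_lit 2684417571) (dlOf (nat_lit 1) (nat_lit 0x400200020008009c02)))) 
(.lf (nat_lit 2080433443) (dlOf (nat_lit 1) (nat_lit 0x8008000c00200020008093103))))) 
(.nd (nat_lit 21) (.nd (nat_lit 23) 
(.lf (nat_lit 470868003) (dlOf (nat_lit 1) (nat_lit 0x14004017a00081c0602))) 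
(.lf (nat_lit 9494563) (dlOf (nat_lit 5) (nat_lit 0xf877c000a404005c3be000340200021df000190100010000000a80801f000800d000200080008560583)))) 
(.nd (nat_lit 8) (.lf (nat_lit 15786019) (dlOf (nat_lit 1) (nat_lit 0x400200020008830582))) 
(.lf (nat_lit 3203363) (dlOf (nat_lit 1) (nat_lit 0x20028200501)))))) (.nd (nat_lit 8) 
(.nd (nat_lit 9) (.nd (nat_lit 20) 
(.lf (nat_lit 60875939) (dlOf (nat_lit 1) (nat_lit 0x4002000200098c2c02))) 
(.lf (nat_lit 32564387) (dlOf (nat_lit 1) (nat_lit 0x1000400240018ef2c02)))) 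
(.lf (nat_lit 2754670243) (dlOf (nat_lit 2) (nat_lit 0x80500002a02000600180f7201)))) 
(.nd (nat_lit 9) (.nd (nat_lit 10) (.nd (nat_lit 11) 
(.lf (nat_lit 1543561635) (dlOf (nat_lit 1) (nat_lit 0x200280b0781))) 
(.lf (nat_lit 1208019363) (dlOf (nat_lit 1) (nat_lit 0x20008002000200080008094e83)))) 
(.lf (nat_lit 4899005859) (dlOf (nat_lit 1) (nat_lit 0x20018053601)))) (.nd (nat_lit 10) 
(.lf (nat_lit 1346431907) (dlOf (nat_lit 3) (nat_lit 0x82e00005e0200101700002d818f65c80))) 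
(.lf (nat_lit 536930211) (dlOf (nat_lit 1) (nat_lit 0x8008000400200020008004303))))))) 
(.nd (nat_lit 8) (.nd (nat_lit 21) (.nd (nat_lit 23) (.nd (nat_lit 7) (.nd (nat_lit 9) 
(.lf (nat_lit 2147541091) (dlOf (nat_lit 1) (nat_lit 0x400400020008090102))) 
(.lf (nat_lit 4630570595) (dlOf (nat_lit 1) (nat_lit 0x640018003901)))) 
(.lf (nat_lit 1342238947) (dlOf (nat_lit 1) (nat_lit 0x300028008081)))) (.nd (nat_lit 20) 
(.lf (nat_lit 12640355) (dlOf (nat_lit 1) (nat_lit 0x5000080004002017000086d1283))) 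
(.lf (nat_lit 26271843) (dlOf (nat_lit 1) (nat_lit 0x400200020008c30d02))))) (.nd (nat_lit 20) 
(.nd (nat_lit 22) 
(.lf (nat_lit 44097635) (dlOf (nat_lit 1) (nat_lit 0x180080008002000200092c0d83))) 
(.lf (nat_lit 14737507) (dlOf (nat_lit 2) (nat_lit 0x173a00005800802d8008016c00200020008770d03)))) 
(.nd (nat_lit 10) (.lf (nat_lit 472965219) (dlOf (nat_lit 1) (nat_lit 0x2e0008b70901))) 
(.lf (nat_lit 19985507) (dlOf (nat_lit 2) (nat_lit 0x2a75000110189d9400)))))) (.nd (nat_lit 7) 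
(.nd (nat_lit 10) (.lf (nat_lit 1880156515) (dlOf (nat_lit 1) (nat_lit 0x4004000200087a4e82))) 
(.lf (nat_lit 469824867) (dlOf (nat_lit 1) (nat_lit 0x300008009901)))) (.nd (nat_lit 10) 
(.nd (nat_lit 27) (.lf (nat_lit 2147543523) (dlOf (nat_lit 1) (nat_lit 0x800400020008094e82))) 
(.lf (nat_lit 1208019427) (dlOf (nat_lit 1) (nat_lit 0x800400020008094e82)))) 
(.lf (nat_lit 8451555) (dlOf (nat_lit 1) (nat_lit 0x20018519b01))))))) (.nd (nat_lit 22) 
(.nd (nat_lit 27) (.nd (nat_lit 25) (.nd (nat_lit 31) (.nd (nat_lit 6) 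
(.lf (nat_lit 1611194403) (dlOf (nat_lit 1) (nat_lit 0x20008110481))) 
(.lf (nat_lit 8975843) (dlOf (nat_lit 1) (nat_lit 0x20028519b01)))) (.nd (nat_lit 26) 
(.lf (nat_lit 3221807139) (dlOf (nat_lit 2) (nat_lit 0xe00e0000c018190b80))) 
(.lf (nat_lit 3557351459) (dlOf (nat_lit 2) (nat_lit 0x508180001ca040404004007a00081c0602))))) 
(.nd (nat_lit 6) (.nd (nat_lit 7) 
(.lf (nat_lit 36233251) (dlOf (nat_lit 1) (nat_lit 0x40019050181))) 
(.lf (nat_lit 51964579) (dlOf (nat_lit 1) (nat_lit 0x80029515601)))) 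
(.lf (nat_lit 42524771) (dlOf (nat_lit 1) (nat_lit 0x20008000400200020009260903))))) 
(.nd (nat_lit 26) (.nd (nat_lit 29) 
(.lf (nat_lit 134799395) (dlOf (nat_lit 1) (nat_lit 0xa00080c0b01))) 
(.lf (nat_lit 3892895779) (dlOf (nat_lit 2) (nat_lit 0xc051000200b000594100008008000c002001e0008290d83)))) 
(.nd (nat_lit 29) (.lf (nat_lit 201908259) (dlOf (nat_lit 1) (nat_lit 0xa00080c0b01))) 
(.lf (nat_lit 738779171) (dlOf (nat_lit 1) (nat_lit 0x20008110481)))))) (.nd (nat_lit 24) 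
(.nd (nat_lit 26) (.nd (nat_lit 28) 
(.lf (nat_lit 4775971) (dlOf (nat_lit 1) (nat_lit 0xc002000200082b0182))) 
(.lf (nat_lit 3494436899) (dlOf (nat_lit 2) (nat_lit 0x18184007802a001e604000c0008220901)))) 
(.nd (nat_lit 6) (.nd (nat_lit 27) 
(.lf (nat_lit 2756239395) (dlOf (nat_lit 2) (nat_lit 0x18184007802a001f804000c0008220901))) 
(.lf (nat_lit 474538019) (dlOf (nat_lit 17) (nat_lit 0x740000005102014809600a3042802d020c028c0ea016a073005a00d002600000009c1c024412c011e0850046041804801d402840e6008c01a00370000001343801501f40009404000411a006807d000248200920000001180800300000008a04050012c027e085013f03a80a801cc02f003401240000002186023f04b0124021409200ea04b007301c700d00ce000000084180208138000208d0082046005101f401040f8000400a00a009c0001046804b823002900fa008807c0001f8501cc04b00e582140610106035c07501c003980c0006804d002a02c40000001f0800f504b0001023403d410a0178083008703e807081d403c80e6017801a00760000000f04800c825800800e6000380400500730001a81003303a8000cc080210008043400205c400091a0183))))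 
(.lf (nat_lit 474538083) (dlOf (nat_lit 1) (nat_lit 0x4002001600091a0902))))) (.nd (nat_lit 7) 
(.nd (nat_lit 23) (.lf (nat_lit 21553187) (dlOf (nat_lit 2) (nat_lit 0x6200000022818a40180))) 
(.lf (nat_lit 29941795) (dlOf (nat_lit 1) (nat_lit 0x400200020008e30002)))) (.nd (nat_lit 6) 
(.lf (nat_lit 57207203) (dlOf (nat_lit 1) (nat_lit 0xa0029794e81))) 
(.lf (nat_lit 23650531) (dlOf (nat_lit 2) (nat_lit 0xf67f00047018b80480)))))))) (.nd (nat_lit 28) 
(.nd (nat_lit 19) (.nd (nat_lit 29) (.nd (nat_lit 24) (.nd (nat_lit 6) (.nd (nat_lit 8) 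
(.nd (nat_lit 26) 
(.lf (nat_lit 2282020899) (dlOf (nat_lit 5) (nat_lit 0x600a8003805000280260005e0600200130002e81000600a80038050002c0260005b060008015000200a0005004c000b40c002400400040008100502))) 
(.lf (nat_lit 4362395683) (dlOf (nat_lit 1) (nat_lit 0x8002000e0008050502)))) 
(.lf (nat_lit 6442770723) (dlOf (nat_lit 1) (nat_lit 0x200281b0501)))) (.nd (nat_lit 7) 
(.lf (nat_lit 1208279139) (dlOf (nat_lit 1) (nat_lit 0x400280b0d81))) 
(.lf (nat_lit 6442770659) (dlOf (nat_lit 1) (nat_lit 0x2400281b0481))))) (.nd (nat_lit 7) 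
(.nd (nat_lit 9) (.lf (nat_lit 62185507) (dlOf (nat_lit 2) (nat_lit 0x1930e000130200060019970881))) 
(.lf (nat_lit 57991715) (dlOf (nat_lit 1) (nat_lit 0x400297a8701)))) (.nd (nat_lit 9) 
(.lf (nat_lit 59040931) (dlOf (nat_lit 1) (nat_lit 0x400297e2c01))) 
(.lf (nat_lit 59042467) (dlOf (nat_lit 1) (nat_lit 0x200297e5601)))))) (.nd (nat_lit 27) 
(.nd (nat_lit 6) (.nd (nat_lit 7) 
(.lf (nat_lit 604299299) (dlOf (nat_lit 1) (nat_lit 0x400400020008130702))) 
(.lf (nat_lit 2754932387) (dlOf (nat_lit 8) (nat_lit 0x448218000540403f4164007c088000098200fd0590000400805c02c80001e0401241640000e0201ee0b20000681003c05900000008003800800bc002006200080f7203)))) 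
(.lf (nat_lit 4899266659) (dlOf (nat_lit 1) (nat_lit 0x8008001c002000e00080e1983)))) 
(.nd (nat_lit 7) (.nd (nat_lit 26) 
(.lf (nat_lit 3892633635) (dlOf (nat_lit 3) (nat_lit 0xc40b40000b02002e05a00005018180180))) 
(.lf (nat_lit 1812258851) (dlOf (nat_lit 1) (nat_lit 0xe00281c0501)))) 
(.lf (nat_lit 671408291) (dlOf (nat_lit 1) (nat_lit 0x1800200180008184602)))))) (.nd (nat_lit 21) 
(.nd (nat_lit 24) (.nd (nat_lit 6) (.nd (nat_lit 26) 
(.lf (nat_lit 1892387) (dlOf (nat_lit 1) (nat_lit 0xa4004021e0008150002))) 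
(.lf (nat_lit 2753355811) (dlOf (nat_lit 1) (nat_lit 0x8002000c0008090002)))) 
(.lf (nat_lit 69001315) (dlOf (nat_lit 1) (nat_lit 0x400400020008860902)))) (.nd (nat_lit 20) 
(.nd (nat_lit 22) 
(.lf (nat_lit 59564067) (dlOf (nat_lit 2) (nat_lit 0x1e4058000440803880080048002001a0009810703))) 
(.lf (nat_lit 21815331) (dlOf (nat_lit 1) (nat_lit 0x20028a70481)))) (.nd (nat_lit 7) 
(.lf (nat_lit 18669603) (dlOf (nat_lit 1) (nat_lit 0x1ce0028960681))) 
(.lf (nat_lit 60613795) (dlOf (nat_lit 1) (nat_lit 0x200298c2c01)))))) (.nd (nat_lit 9) 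
(.nd (nat_lit 8) (.nd (nat_lit 20) 
(.lf (nat_lit 2754404387) (dlOf (nat_lit 1) (nat_lit 0x4002000200080e0482))) 
(.lf (nat_lit 24961059) (dlOf (nat_lit 1) (nat_lit 0x400400020018bd0b82)))) 
(.lf (nat_lit 19723555) (dlOf (nat_lit 1) (nat_lit 0x80080004002000200089d9783)))) (.nd (nat_lit 6) 
(.nd (nat_lit 7) (.lf (nat_lit 8190499) (dlOf (nat_lit 1) (nat_lit 0x6001851b281))) 
(.lf (nat_lit 36498083) (dlOf (nat_lit 1) (nat_lit 0x400200020009075602)))) 
(.lf (nat_lit 8188643) (dlOf (nat_lit 1) (nat_lit 0x8008000400200020008518c83))))))) 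
(.nd (nat_lit 26) (.nd (nat_lit 11) (.nd (nat_lit 30) (.nd (nat_lit 27) (.nd (nat_lit 31) 
(.lf (nat_lit 268754979) (dlOf (nat_lit 3) (nat_lit 0x8e0270001381000f004800028080048008001400200100008120183))) 
(.lf (nat_lit 2416238627) (dlOf (nat_lit 1) (nat_lit 0x200180c0b01)))) (.nd (nat_lit 29) 
(.lf (nat_lit 2550456355) (dlOf (nat_lit 1) (nat_lit 0x200180c0b01))) 
(.lf (nat_lit 939843619) (dlOf (nat_lit 1) (nat_lit 0xe00281c0501))))) (.nd (nat_lit 6) 
(.nd (nat_lit 19) (.lf (nat_lit 1343545379) (dlOf (nat_lit 1) (nat_lit 0x8004000c0008290702))) 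
(.nd (nat_lit 20) (.lf (nat_lit 3492601891) (dlOf (nat_lit 1) (nat_lit 0x4002000200080e0482))) 
(.lf (nat_lit 1346166819) (dlOf (nat_lit 12) (nat_lit 0x8485340b601b2003a0d800c003e804f01f00004e14038429a05600d9009f03e803901f00004c10011429a02120d90001282003b06c801281f4000240800183520050166036b0a181c604ec0e2c27207d20cd00280658001831000980ea0014073002600d003480000001c300cd0286034e0cd0000682023909d818003340001808053c286002013b000509c8023833400800fa000407300190180000283801106a40dfc28608180cd004c03a801781cc0001214019c19a0008075000030200140b180ec850c09782760028138033b066800a03280044184001e0af001400a000000482d3000801cc00217100008e60183))))) 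
(.lf (nat_lit 1346166883) (dlOf (nat_lit 2) (nat_lit 0x1281b2000000200120018e60901))))) 
(.nd (nat_lit 6) (.nd (nat_lit 7) (.nd (nat_lit 8) 
(.lf (nat_lit 3624201251) (dlOf (nat_lit 1) (nat_lit 0x80028146081))) 
(.lf (nat_lit 3489983779) (dlOf (nat_lit 1) (nat_lit 0x1c00400080008006802)))) 
(.lf (nat_lit 1345120931) (dlOf (nat_lit 1) (nat_lit 0x18008000400200040008a45603)))) 
(.nd (nat_lit 8) (.nd (nat_lit 12) 
(.lf (nat_lit 3493128291) (dlOf (nat_lit 4) (nat_lit 0x6811200053020032089000280100190460009022c0009a080014004001400180f4702))) 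
(.lf (nat_lit 3493132387) (dlOf (nat_lit 2) (nat_lit 0x60dd0009b8180fa800)))) 
(.lf (nat_lit 3489982819) (dlOf (nat_lit 1) (nat_lit 0x400400080008004e82)))))) (.nd (nat_lit 6) 
(.nd (nat_lit 8) (.nd (nat_lit 7) (.nd (nat_lit 30) 
(.lf (nat_lit 1006952483) (dlOf (nat_lit 1) (nat_lit 0x188008015c00200c800080f0783))) 
(.lf (nat_lit 4228177955) (dlOf (nat_lit 1) (nat_lit 0x8002000e0008050502)))) (.nd (nat_lit 9) 
(.lf (nat_lit 471654563) (dlOf (nat_lit 1) (nat_lit 0x20008000400200040008370483))) 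
(.lf (nat_lit 472181411) (dlOf (nat_lit 1) (nat_lit 0x80080004002000200088c5603))))) 
(.nd (nat_lit 11) (.nd (nat_lit 32) 
(.lf (nat_lit 1543823651) (dlOf (nat_lit 1) (nat_lit 0xc400400a40008187802))) 
(.lf (nat_lit 5838790947) (dlOf (nat_lit 1) (nat_lit 0x200281b0501)))) 
(.lf (nat_lit 1410132259) (dlOf (nat_lit 1) (nat_lit 0xc00080f4b81))))) (.nd (nat_lit 29) 
(.nd (nat_lit 7) (.nd (nat_lit 11) 
(.lf (nat_lit 474275939) (dlOf (nat_lit 2) (nat_lit 0x40e00005340800500080008002000c0009100d83))) 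
(.lf (nat_lit 1410132067) (dlOf (nat_lit 2) (nat_lit 0x480be0004d02001c00180f4701)))) 
(.lf (nat_lit 5838790883) (dlOf (nat_lit 1) (nat_lit 0x2400281b0481)))) (.nd (nat_lit 7) 
(.nd (nat_lit 21) (.lf (nat_lit 2080694371) (dlOf (nat_lit 1) (nat_lit 0x400280b0d81))) 
(.lf (nat_lit 1009049699) (dlOf (nat_lit 1) (nat_lit 0x400200020009020d82)))) 
(.lf (nat_lit 6241444067) (dlOf (nat_lit 1) (nat_lit 0x80080004002000200080f1d83))))))))) 
(.nd (nat_lit 18) (.nd (nat_lit 19) (.nd (nat_lit 8) (.nd (nat_lit 10) (.nd (nat_lit 29) 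
(.nd (nat_lit 20) (.nd (nat_lit 22) 
(.lf (nat_lit 2214715427) (dlOf (nat_lit 1) (nat_lit 0x40028050701))) 
(.lf (nat_lit 63037475) (dlOf (nat_lit 2) (nat_lit 0xc9ca0003f02000400199c0181)))) 
(.lf (nat_lit 22143011) (dlOf (nat_lit 1) (nat_lit 0xc00400040008a90502)))) (.nd (nat_lit 6) 
(.nd (nat_lit 9) (.lf (nat_lit 1677846563) (dlOf (nat_lit 1) (nat_lit 0x30002001c0008114702))) 
(.lf (nat_lit 3892437539) (dlOf (nat_lit 1) (nat_lit 0x400200020008118702)))) 
(.lf (nat_lit 2952912995) (dlOf (nat_lit 2) (nat_lit 0x12025000c00e002c241001580080010002000e0008010283))))) 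
(.nd (nat_lit 6) (.nd (nat_lit 11) 
(.lf (nat_lit 39969827) (dlOf (nat_lit 1) (nat_lit 0x14002002000091f2882))) 
(.lf (nat_lit 2754735139) (dlOf (nat_lit 1) (nat_lit 0x4002000200080f6082)))) (.nd (nat_lit 23) 
(.lf (nat_lit 1345447523) (dlOf (nat_lit 3) (nat_lit 0x26165000198100210b28000c80800f0008001000200220008bb3903))) 
(.lf (nat_lit 61990499) (dlOf (nat_lit 1) (nat_lit 0x800400060009923902)))))) (.nd (nat_lit 29) 
(.nd (nat_lit 7) (.nd (nat_lit 10) 
(.lf (nat_lit 1543629155) (dlOf (nat_lit 2) (nat_lit 0x1a02800812018144e80))) 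
(.lf (nat_lit 3221355875) (dlOf (nat_lit 1) (nat_lit 0x1800800040020006000811c903)))) 
(.nd (nat_lit 6) 
(.lf (nat_lit 3221355939) (dlOf (nat_lit 6) (nat_lit 0x38118004407000340160003b03000b0230001d40800580bc000e204001804e0002d02000a046000202280000010000800800100020018000811cb03))) 
(.nd (nat_lit 9) (.lf (nat_lit 3221351907) (dlOf (nat_lit 1) (nat_lit 0xd8004000a0008116e02))) 
(.lf (nat_lit 6442574819) (dlOf (nat_lit 1) (nat_lit 0x4004000200080f2882)))))) (.nd (nat_lit 9) 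
(.nd (nat_lit 7) (.lf (nat_lit 2751592739) (dlOf (nat_lit 1) (nat_lit 0x40040002000800ab82))) 
(.nd (nat_lit 10) (.lf (nat_lit 3825330595) (dlOf (nat_lit 1) (nat_lit 0x160028144e81))) 
(.lf (nat_lit 805436835) (dlOf (nat_lit 4) (nat_lit 0x98158004c0260006604001e0560003281000902b0002004c000000800840040018001811cb02))))) 
(.nd (nat_lit 27) (.lf (nat_lit 4831964067) (dlOf (nat_lit 1) (nat_lit 0x40018055c81))) 
(.lf (nat_lit 5234617251) (dlOf (nat_lit 1) (nat_lit 0x400200020008055c82))))))) (.nd (nat_lit 21) 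
(.nd (nat_lit 20) (.nd (nat_lit 6) (.nd (nat_lit 8) 
(.lf (nat_lit 13230115) (dlOf (nat_lit 3) (nat_lit 0xe5110001781000d2888000b80800e8008001c00200640008710b83))) 
(.lf (nat_lit 17424675) (dlOf (nat_lit 1) (nat_lit 0x2600188e0701)))) (.nd (nat_lit 23) 
(.lf (nat_lit 1409933411) (dlOf (nat_lit 2) (nat_lit 0x503a001301ac0004c080054004002600180a1382))) 
(.lf (nat_lit 42590307) (dlOf (nat_lit 1) (nat_lit 0x180019260901))))) (.nd (nat_lit 28) 
(.nd (nat_lit 24) (.lf (nat_lit 1695779) (dlOf (nat_lit 1) (nat_lit 0x260018110501))) 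
(.lf (nat_lit 18472995) (dlOf (nat_lit 1) (nat_lit 0x400200020008940682)))) (.nd (nat_lit 26) 
(.lf (nat_lit 5773058083) (dlOf (nat_lit 1) (nat_lit 0x400180a0781))) 
(.lf (nat_lit 4095336483) (dlOf (nat_lit 2) (nat_lit 0x816000013818090180)))))) (.nd (nat_lit 23) 
(.nd (nat_lit 6) (.nd (nat_lit 7) 
(.lf (nat_lit 7992611) (dlOf (nat_lit 1) (nat_lit 0x4a000200e40008519782))) 
(.lf (nat_lit 1345972899) (dlOf (nat_lit 1) (nat_lit 0xe0028e25601)))) (.nd (nat_lit 26) 
(.lf (nat_lit 1344921699) (dlOf (nat_lit 1) (nat_lit 0x40008991981))) 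
(.lf (nat_lit 472506467) (dlOf (nat_lit 1) (nat_lit 0x30002004a0008991982))))) (.nd (nat_lit 6) 
(.nd (nat_lit 20) (.nd (nat_lit 22) 
(.lf (nat_lit 11132963) (dlOf (nat_lit 1) (nat_lit 0x8008000400200020008660503))) 
(.lf (nat_lit 48881699) (dlOf (nat_lit 2) (nat_lit 0x32fe8000a204000400400060009440182)))) 
(.lf (nat_lit 45735971) (dlOf (nat_lit 3) (nat_lit 0xc95c000249c0002302002a257000114080018008000400200060009360183)))) 
(.lf (nat_lit 44688483) (dlOf (nat_lit 1) (nat_lit 0x20019322981))))))) (.nd (nat_lit 21) 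
(.nd (nat_lit 26) (.nd (nat_lit 22) (.nd (nat_lit 19) (.nd (nat_lit 30) (.nd (nat_lit 8) 
(.nd (nat_lit 20) 
(.lf (nat_lit 537255971) (dlOf (nat_lit 2) (nat_lit 0x1180a2008e03200009028070700))) 
(.lf (nat_lit 9822243) (dlOf (nat_lit 2) (nat_lit 0x28000000450200140008580181)))) 
(.nd (nat_lit 27) (.lf (nat_lit 4295352611) (dlOf (nat_lit 1) (nat_lit 0x1600181a0501))) 
(.lf (nat_lit 4429570339) (dlOf (nat_lit 1) (nat_lit 0x1600181a0501))))) (.nd (nat_lit 28) 
(.nd (nat_lit 27) 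
(.lf (nat_lit 3221610531) (dlOf (nat_lit 1) (nat_lit 0x400080024002000a0008160883))) 
(.lf (nat_lit 3892699171) (dlOf (nat_lit 2) (nat_lit 0xec028800200cc0017e080098004001e00081d0602)))) 
(.nd (nat_lit 29) 
(.lf (nat_lit 5637529635) (dlOf (nat_lit 2) (nat_lit 0x401a0004302002a0008100181))) 
(.lf (nat_lit 4026916899) (dlOf (nat_lit 1) (nat_lit 0x200280d0901)))))) (.nd (nat_lit 24) 
(.nd (nat_lit 23) (.lf (nat_lit 2819481635) (dlOf (nat_lit 1) (nat_lit 0xc002000200082b0682))) 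
(.lf (nat_lit 9297955) (dlOf (nat_lit 1) (nat_lit 0x48008004c002000e0008540803)))) (.nd (nat_lit 6) 
(.lf (nat_lit 59629603) (dlOf (nat_lit 1) (nat_lit 0x400400020009820182))) 
(.lf (nat_lit 59629667) (dlOf (nat_lit 1) (nat_lit 0x400400280009820902)))))) (.nd (nat_lit 6) 
(.nd (nat_lit 7) (.nd (nat_lit 19) (.nd (nat_lit 23) 
(.lf (nat_lit 1346756643) (dlOf (nat_lit 17) (nat_lit 0x740000005102014809600a3042802d020c028c0ea016a073005a00f802600000009c1c024412c011e0850046041804801d402840e6008c01f00370000001343801501f40009404000411a006807d000248200920000001180800300000008a04050012c027e085013f03a80a801cc02f003e01240000002186023f04b0124021409200ea04b007301c700f80ce000000084180208138000208d0082046005101f401040f8000400a00a009c0001046804b823002900fa008807c0001f8501cc04b00e582140610106035c07501c003980c0007c04d003402c40000001f0800f504b0001023403d410a0178083008703e807081d403c80e6017801f00760000000f04800c825800800e6000380400500730001a81003303a8000cc080210008043400205c40009000183)))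 
(.lf (nat_lit 12967971) (dlOf (nat_lit 1) (nat_lit 0x8002000400086f0782)))) 
(.lf (nat_lit 39706659) (dlOf (nat_lit 2) (nat_lit 0x2000000270191d0180)))) 
(.lf (nat_lit 21356963) (dlOf (nat_lit 1) (nat_lit 0x800200020008a36b82)))) (.nd (nat_lit 10) 
(.lf (nat_lit 1346756707) (dlOf (nat_lit 1) (nat_lit 0x400200160009000902))) 
(.lf (nat_lit 38134883) (dlOf (nat_lit 1) (nat_lit 0x400200a80009132982)))))) (.nd (nat_lit 28) 
(.nd (nat_lit 29) (.nd (nat_lit 8) (.nd (nat_lit 30) (.nd (nat_lit 32) 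
(.lf (nat_lit 67493923) (dlOf (nat_lit 1) (nat_lit 0x400200020008190582))) 
(.lf (nat_lit 4362461219) (dlOf (nat_lit 3) (nat_lit 0x38033003e6810014019801f2c0801a80080074002005c0008090003)))) 
(.lf (nat_lit 3288719395) (dlOf (nat_lit 1) (nat_lit 0x200280d0901)))) (.nd (nat_lit 27) 
(.lf (nat_lit 4362461475) (dlOf (nat_lit 1) (nat_lit 0x280018090501))) 
(.lf (nat_lit 2349195555) (dlOf (nat_lit 1) (nat_lit 0x8a00281b0501))))) (.nd (nat_lit 7) 
(.nd (nat_lit 19) 
(.lf (nat_lit 3959808035) (dlOf (nat_lit 1) (nat_lit 0x80080008002000c0008160803))) 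
(.lf (nat_lit 2753421347) (dlOf (nat_lit 1) (nat_lit 0x20028090001)))) (.nd (nat_lit 6) 
(.lf (nat_lit 604364963) (dlOf (nat_lit 3) (nat_lit 0xa402c0011d02005c0160007c0181a0480))) 
(.lf (nat_lit 2751849443) (dlOf (nat_lit 1) (nat_lit 0x20018002881)))))) (.nd (nat_lit 27) 
(.nd (nat_lit 8) (.nd (nat_lit 19) (.nd (nat_lit 29) 
(.lf (nat_lit 1409671203) (dlOf (nat_lit 2) (nat_lit 0x1180a2008e03200012828070700))) 
(.lf (nat_lit 6241509411) (dlOf (nat_lit 2) (nat_lit 0x401a0004302002a0008100181)))) 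
(.lf (nat_lit 3557679139) (dlOf (nat_lit 1) (nat_lit 0xc002000200082b0682)))) (.nd (nat_lit 6) 
(.lf (nat_lit 2483413283) (dlOf (nat_lit 1) (nat_lit 0x8a00281b0501))) 
(.lf (nat_lit 872801635) (dlOf (nat_lit 1) (nat_lit 0x13e00280e3401))))) (.nd (nat_lit 29) 
(.nd (nat_lit 6) (.lf (nat_lit 474342435) (dlOf (nat_lit 1) (nat_lit 0x40019162881))) 
(.lf (nat_lit 470671459) (dlOf (nat_lit 1) (nat_lit 0x400200020008150282)))) (.nd (nat_lit 8) 
(.lf (nat_lit 4228243491) (dlOf (nat_lit 1) (nat_lit 0x36000401000008090002))) 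
(.lf (nat_lit 4228243747) (dlOf (nat_lit 1) (nat_lit 0x280018090501)))))))) (.nd (nat_lit 6) 
(.nd (nat_lit 19) (.nd (nat_lit 22) (.nd (nat_lit 23) 
(.lf (nat_lit 3492143139) (dlOf (nat_lit 1) (nat_lit 0x1e00280a0901))) 
(.lf (nat_lit 61202467) (dlOf (nat_lit 1) (nat_lit 0x280080004002000200098e0183)))) 
(.nd (nat_lit 20) 
(.lf (nat_lit 48619555) (dlOf (nat_lit 2) (nat_lit 0x3757000db93e0003e0400600029420181))) 
(.lf (nat_lit 16113699) (dlOf (nat_lit 2) (nat_lit 0x34fae005460200020018870701))))) 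
(.nd (nat_lit 7) (.nd (nat_lit 9) (.nd (nat_lit 20) 
(.lf (nat_lit 28172323) (dlOf (nat_lit 1) (nat_lit 0x400080010002002e0008d60583))) 
(.lf (nat_lit 4055075) (dlOf (nat_lit 1) (nat_lit 0x1400200020008270902)))) 
(.lf (nat_lit 8256035) (dlOf (nat_lit 1) (nat_lit 0x180020002000851b282)))) (.nd (nat_lit 8) 
(.nd (nat_lit 9) (.lf (nat_lit 53338275) (dlOf (nat_lit 1) (nat_lit 0x30004006400095a1382))) 
(.lf (nat_lit 36563619) (dlOf (nat_lit 1) (nat_lit 0x8008000400200ba0009075603)))) 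
(.lf (nat_lit 8250787) (dlOf (nat_lit 1) (nat_lit 0x400200020008513602)))))) (.nd (nat_lit 20) 
(.nd (nat_lit 10) (.nd (nat_lit 22) (.nd (nat_lit 28) 
(.lf (nat_lit 2482275) (dlOf (nat_lit 1) (nat_lit 0x400400020008161282))) 
(.lf (nat_lit 3492143203) (dlOf (nat_lit 2) (nat_lit 0x202b80000302000400180a1381)))) 
(.lf (nat_lit 48619619) (dlOf (nat_lit 1) (nat_lit 0x400200020009420902)))) 
(.lf (nat_lit 19788899) (dlOf (nat_lit 1) (nat_lit 0x4002000200089d9402)))) (.nd (nat_lit 7) 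
(.nd (nat_lit 8) (.nd (nat_lit 11) 
(.lf (nat_lit 49668195) (dlOf (nat_lit 2) (nat_lit 0x6b2700025180001a62c000660c001000200020009480902))) 
(.lf (nat_lit 3493193827) (dlOf (nat_lit 1) (nat_lit 0x300080014002000800080f4703)))) 
(.lf (nat_lit 8255843) (dlOf (nat_lit 1) (nat_lit 0x800800040020002000851ab83)))) (.nd (nat_lit 9) 
(.lf (nat_lit 11919587) (dlOf (nat_lit 2) (nat_lit 0x34cd60008e02000200186c0481))) 
(.lf (nat_lit 8254179) (dlOf (nat_lit 1) (nat_lit 0x400200020008518c82)))))))))) (.nd (nat_lit 18) 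
(.nd (nat_lit 6) (.nd (nat_lit 28) (.nd (nat_lit 19) (.nd (nat_lit 16) (.nd (nat_lit 9) 
(.nd (nat_lit 7) (.nd (nat_lit 20) 
(.lf (nat_lit 52486183) (dlOf (nat_lit 1) (nat_lit 0xc00200020009540782))) 
(.lf (nat_lit 9494567) (dlOf (nat_lit 1) (nat_lit 0x6800800c400200420008560603)))) (.nd (nat_lit 8) 
(.lf (nat_lit 1677786279) (dlOf (nat_lit 1) (nat_lit 0x6e002800c201))) 
(.lf (nat_lit 4899005863) (dlOf (nat_lit 1) (nat_lit 0x20018053601))))) (.nd (nat_lit 8) 
(.nd (nat_lit 11) (.lf (nat_lit 40952359) (dlOf (nat_lit 1) (nat_lit 0x20009208801))) 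
(.lf (nat_lit 1208019495) (dlOf (nat_lit 1) (nat_lit 0x64004001c0018095182)))) 
(.lf (nat_lit 54586151) (dlOf (nat_lit 1) (nat_lit 0x140019655c01))))) (.nd (nat_lit 8) 
(.nd (nat_lit 9) (.nd (nat_lit 10) (.nd (nat_lit 22) 
(.lf (nat_lit 67231783) (dlOf (nat_lit 1) (nat_lit 0x340008040601))) 
(.lf (nat_lit 29483047) (dlOf (nat_lit 1) (nat_lit 0xe0008e10781)))) 
(.lf (nat_lit 1610736679) (dlOf (nat_lit 1) (nat_lit 0x10008001000200020008092883)))) 
(.nd (nat_lit 11) (.lf (nat_lit 11657767) (dlOf (nat_lit 1) (nat_lit 0x7c004000a00186c0e02))) 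
(.lf (nat_lit 58845735) (dlOf (nat_lit 1) (nat_lit 0x200097e5181))))) (.nd (nat_lit 7) 
(.lf (nat_lit 6414631) (dlOf (nat_lit 1) (nat_lit 0x120008420701))) (.nd (nat_lit 9) 
(.lf (nat_lit 3221355943) (dlOf (nat_lit 9) (nat_lit 0x2806a001c02700120118005807c0006010000809c0002f02003c056002e0088000b810011804400940200002d04003401100230080000181000b8158002c056004a01100260080000102000d81580094022004c0100000183001b02b000f8044000802000002060032001811cb81))) 
(.lf (nat_lit 3959547815) (dlOf (nat_lit 1) (nat_lit 0x6c002000e0008114302))))))) (.nd (nat_lit 21) 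
(.nd (nat_lit 16) (.nd (nat_lit 22) (.nd (nat_lit 20) 
(.lf (nat_lit 42524711) (dlOf (nat_lit 1) (nat_lit 0x100029260201))) 
(.lf (nat_lit 10018855) (dlOf (nat_lit 3) (nat_lit 0x10758002620400803ac0012f02000200285a0c01)))) 
(.nd (nat_lit 8) (.lf (nat_lit 2756239399) (dlOf (nat_lit 1) (nat_lit 0x400200020008220982))) 
(.lf (nat_lit 46721831) (dlOf (nat_lit 1) (nat_lit 0x400400880009385c02))))) (.nd (nat_lit 8) 
(.nd (nat_lit 20) (.lf (nat_lit 42590247) (dlOf (nat_lit 1) (nat_lit 0x20029260201))) 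
(.lf (nat_lit 26861607) (dlOf (nat_lit 1) (nat_lit 0x20018c80681)))) (.nd (nat_lit 7) 
(.lf (nat_lit 50979111) (dlOf (nat_lit 2) (nat_lit 0x439d00015c080008008001c002002200094e8103))) 
(.lf (nat_lit 9040807) (dlOf (nat_lit 1) (nat_lit 0x600080168002012c0008519103)))))) 
(.nd (nat_lit 23) (.nd (nat_lit 7) (.nd (nat_lit 20) 
(.lf (nat_lit 23650343) (dlOf (nat_lit 1) (nat_lit 0x4000800a400200360008b80003))) 
(.lf (nat_lit 24698919) (dlOf (nat_lit 1) (nat_lit 0x80028bb0981)))) (.nd (nat_lit 9) 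
(.lf (nat_lit 23650727) (dlOf (nat_lit 1) (nat_lit 0x12d0008121400205420008b80783))) 
(.lf (nat_lit 20507559) (dlOf (nat_lit 1) (nat_lit 0x1a00089d5d01))))) (.nd (nat_lit 22) 
(.nd (nat_lit 16) 
(.lf (nat_lit 11067431) (dlOf (nat_lit 2) (nat_lit 0xed0000000cc080008008001000200020008660603))) 
(.lf (nat_lit 11132967) (dlOf (nat_lit 3) (nat_lit 0x2ebf100014c08006e1140000004060400401520018660602)))) 
(.nd (nat_lit 25) (.lf (nat_lit 15261735) (dlOf (nat_lit 2) (nat_lit 0x49cf0002a0187c0680))) 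
(.lf (nat_lit 48816167) (dlOf (nat_lit 1) (nat_lit 0x800400040009430782)))))))) (.nd (nat_lit 30) 
(.nd (nat_lit 7) (.nd (nat_lit 26) (.nd (nat_lit 8) (.nd (nat_lit 27) 
(.lf (nat_lit 4563460135) (dlOf (nat_lit 1) (nat_lit 0x40018000001))) 
(.lf (nat_lit 4697677863) (dlOf (nat_lit 1) (nat_lit 0x40018000001)))) 
(.lf (nat_lit 805436199) (dlOf (nat_lit 1) (nat_lit 0x1000800040020008000811bc83)))) 
(.nd (nat_lit 9) (.nd (nat_lit 21) 
(.lf (nat_lit 470868007) (dlOf (nat_lit 4) (nat_lit 0x19a0262000540200141a8000258102ed0988001080823400080c0c00212de00081c0683))) 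
(.lf (nat_lit 472965159) (dlOf (nat_lit 1) (nat_lit 0x20018b70201)))) 
(.lf (nat_lit 3020022311) (dlOf (nat_lit 1) (nat_lit 0x4002000200080e8802))))) (.nd (nat_lit 9) 
(.nd (nat_lit 10) (.lf (nat_lit 5234616743) (dlOf (nat_lit 1) (nat_lit 0xe0028054e81))) 
(.lf (nat_lit 805436839) (dlOf (nat_lit 5) (nat_lit 0x600aa002204e001201b800600480030020004200a0000e06001902a80098138005406e001e0120000d84000602b0000600800280cc0002804011c0040026001811cb82)))) 
(.nd (nat_lit 10) (.nd (nat_lit 32) 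
(.lf (nat_lit 402713511) (dlOf (nat_lit 1) (nat_lit 0x20028005d01))) 
(.lf (nat_lit 4697680807) (dlOf (nat_lit 1) (nat_lit 0x1ac0028005d01)))) 
(.lf (nat_lit 3087132583) (dlOf (nat_lit 1) (nat_lit 0x40018144301)))))) (.nd (nat_lit 29) 
(.nd (nat_lit 8) (.nd (nat_lit 7) (.nd (nat_lit 22) 
(.lf (nat_lit 3557351463) (dlOf (nat_lit 1) (nat_lit 0x2800800c0002005c00081c0683))) 
(.lf (nat_lit 3494436903) (dlOf (nat_lit 1) (nat_lit 0x400200020008220982)))) 
(.lf (nat_lit 1342240423) (dlOf (nat_lit 1) (nat_lit 0x40040002000800a002)))) (.nd (nat_lit 7) 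
(.nd (nat_lit 12) (.lf (nat_lit 5774106919) (dlOf (nat_lit 1) (nat_lit 0x400200020008108102))) 
(.lf (nat_lit 1342239015) (dlOf (nat_lit 1) (nat_lit 0xe0028008081)))) 
(.lf (nat_lit 1346431399) (dlOf (nat_lit 2) (nat_lit 0x2885c00194e04001400200040008f64e82))))) 
(.nd (nat_lit 7) (.nd (nat_lit 9) (.nd (nat_lit 16) 
(.lf (nat_lit 1881202727) (dlOf (nat_lit 1) (nat_lit 0x20008000c00200060008e50783))) 
(.lf (nat_lit 1880219687) (dlOf (nat_lit 2) (nat_lit 0x41c60002e02007800287d0781)))) 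
(.lf (nat_lit 6308292135) (dlOf (nat_lit 9) (nat_lit 0x540190023005001380240002c0c009c032004800a0000a82002c00c801b8028000220800a4032004800a0000802000e00c800b002800006080078032004a00a0000102000500c8000040801400280000004003400200040008053702)))) 
(.nd (nat_lit 8) 
(.lf (nat_lit 4095271079) (dlOf (nat_lit 1) (nat_lit 0x8008000800200040008081483))) 
(.lf (nat_lit 6308292007) (dlOf (nat_lit 1) (nat_lit 0x20028053601)))))))) (.nd (nat_lit 26) 
(.nd (nat_lit 8) (.nd (nat_lit 11) (.nd (nat_lit 7) (.nd (nat_lit 9) (.nd (nat_lit 16) 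
(.lf (nat_lit 28893287) (dlOf (nat_lit 1) (nat_lit 0x40008da0481))) 
(.lf (nat_lit 537518183) (dlOf (nat_lit 1) (nat_lit 0x3c00280a1401)))) 
(.lf (nat_lit 5502985831) (dlOf (nat_lit 1) (nat_lit 0x8008000400200020008003903)))) 
(.nd (nat_lit 20) (.nd (nat_lit 19) 
(.lf (nat_lit 8512743) (dlOf (nat_lit 1) (nat_lit 0x28008000800200080008512e03))) 
(.lf (nat_lit 53077223) (dlOf (nat_lit 1) (nat_lit 0x140019572e01)))) (.nd (nat_lit 10) 
(.lf (nat_lit 7397607) (dlOf (nat_lit 1) (nat_lit 0x200284b0601))) 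
(.lf (nat_lit 5772535015) (dlOf (nat_lit 1) (nat_lit 0x2400400080018092e02)))))) (.nd (nat_lit 19) 
(.nd (nat_lit 16) (.nd (nat_lit 27) 
(.lf (nat_lit 5368769127) (dlOf (nat_lit 2) (nat_lit 0x240120034007800000100020008017000200020008005383))) 
(.lf (nat_lit 402713191) (dlOf (nat_lit 1) (nat_lit 0x760028005381)))) 
(.lf (nat_lit 2147609191) (dlOf (nat_lit 1) (nat_lit 0xa0018095381)))) (.nd (nat_lit 7) 
(.nd (nat_lit 9) (.lf (nat_lit 583783) (dlOf (nat_lit 1) (nat_lit 0x60028004701))) 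
(.lf (nat_lit 46721639) (dlOf (nat_lit 1) (nat_lit 0x20029385381)))) (.nd (nat_lit 9) 
(.lf (nat_lit 8972519) (dlOf (nat_lit 1) (nat_lit 0x20028514b01))) 
(.lf (nat_lit 57207527) (dlOf (nat_lit 1) (nat_lit 0x20009795981))))))) (.nd (nat_lit 28) 
(.nd (nat_lit 20) (.nd (nat_lit 10) 
(.lf (nat_lit 671146343) (dlOf (nat_lit 5) (nat_lit 0x19f00980ccc036007a0090340001804780040cd4000000290c008601b0001401034401301a0006c0d100060086001033400000009c2801e000c006c00200240000000d8380b0700))) 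
(.lf (nat_lit 583015) (dlOf (nat_lit 1) (nat_lit 0x20028003481)))) (.nd (nat_lit 16) 
(.lf (nat_lit 3203431) (dlOf (nat_lit 1) (nat_lit 0x20018200701))) 
(.lf (nat_lit 3268967) (dlOf (nat_lit 1) (nat_lit 0x20018200701))))) (.nd (nat_lit 7) 
(.nd (nat_lit 16) (.nd (nat_lit 22) 
(.lf (nat_lit 5100331367) (dlOf (nat_lit 1) (nat_lit 0x38008000400200020008050f03))) 
(.lf (nat_lit 3493912935) (dlOf (nat_lit 11) (nat_lit 0x1110a0000cc0801a88200006404007c4100003102012e2080001801004210d0061086002fc42201942020001484000410d004f0860010c4260136211005c10100009c2804588500238400000250400ec21400a61000000781003b085002144000001d0400f021400881000000701000a8008010c002007200081b0703)))) 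
(.lf (nat_lit 4697743719) (dlOf (nat_lit 1) (nat_lit 0x60008090f01)))) (.nd (nat_lit 9) 
(.lf (nat_lit 805432807) (dlOf (nat_lit 1) (nat_lit 0x80080034002001c0008116e83))) 
(.lf (nat_lit 2013326311) (dlOf (nat_lit 1) (nat_lit 0x37000800a4002003c0008005e83))))))) 
(.nd (nat_lit 29) (.nd (nat_lit 9) (.nd (nat_lit 30) (.nd (nat_lit 19) 
(.lf (nat_lit 472965223) (dlOf (nat_lit 3) (nat_lit 0x5504e000582300004c080010138000170200040018b70981))) 
(.lf (nat_lit 474538087) (dlOf (nat_lit 27) (nat_lit 0x37412c00040160002b02003f0398001280806182580180106019e0730002000000120200648258018c10601a8073003100000011c2001381cc0008c04036812c0004502017e0960016041806601cc006c000000440801be096002b03a007481cc000860c075012c0394084000304180e081d007000e6000420a00f6096007803980010410024825800e00e6000400400ae09600540398000fc10009825800340e60003e0401540730001e8100da04b001c01d003340e60003c06016609600b00398000ec1000b025800240e8002007300060000000e02006c025803340e6000370400160730001b01002004b000281cc000680802d012c0162073000198200d804b004781cc000640801c812c006e0730001882001704b0000b40806c025803340e60001704003a01600ab00000004c1000700080020002000800091a0983))))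 
(.nd (nat_lit 8) 
(.lf (nat_lit 5435940967) (dlOf (nat_lit 1) (nat_lit 0x60008008000200340008040783))) 
(.lf (nat_lit 1543561575) (dlOf (nat_lit 5) (nat_lit 0x19f00980ccc032007a0090340001804780040cd4000000290c00860190001401034401301a000640d100060086001033400000009c2801e000c006c00200240000000d8380b0700))))) 
(.nd (nat_lit 7) (.nd (nat_lit 8) 
(.lf (nat_lit 1140909671) (dlOf (nat_lit 1) (nat_lit 0x2a800801ac00200fa0008003903))) 
(.lf (nat_lit 6509619047) (dlOf (nat_lit 1) (nat_lit 0x20008004001)))) (.nd (nat_lit 8) 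
(.lf (nat_lit 6509686503) (dlOf (nat_lit 1) (nat_lit 0x60018147401))) 
(.lf (nat_lit 469823463) (dlOf (nat_lit 1) (nat_lit 0x20008007a81)))))) (.nd (nat_lit 7) 
(.nd (nat_lit 16) (.nd (nat_lit 8) 
(.lf (nat_lit 5033224807) (dlOf (nat_lit 1) (nat_lit 0x8008001000200020008005383))) 
(.lf (nat_lit 2755715431) (dlOf (nat_lit 3) (nat_lit 0x5002a000290200fa06b000138181b0700)))) 
(.nd (nat_lit 19) 
(.lf (nat_lit 5301723239) (dlOf (nat_lit 1) (nat_lit 0x60008008000200340008040783))) 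
(.lf (nat_lit 4095336551) (dlOf (nat_lit 1) (nat_lit 0xb800200660008090782))))) (.nd (nat_lit 9) 
(.nd (nat_lit 10) (.lf (nat_lit 5167505639) (dlOf (nat_lit 1) (nat_lit 0x400400020008071d82))) 
(.lf (nat_lit 6106965223) (dlOf (nat_lit 1) (nat_lit 0x400200020008002e02)))) (.nd (nat_lit 8) 
(.lf (nat_lit 2754735847) (dlOf (nat_lit 1) (nat_lit 0x4002000200080f7402))) 
(.lf (nat_lit 2752051175) (dlOf (nat_lit 1) (nat_lit 0x1000800080020004000800a603))))))))) 
(.nd (nat_lit 6) (.nd (nat_lit 28) (.nd (nat_lit 19) (.nd (nat_lit 16) (.nd (nat_lit 26) 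
(.nd (nat_lit 20) (.nd (nat_lit 30) 
(.lf (nat_lit 134537255) (dlOf (nat_lit 2) (nat_lit 0x1200000000018060580))) 
(.lf (nat_lit 3355762727) (dlOf (nat_lit 8) (nat_lit 0xc02b00070140003008c002c0400002508000e02b00110140000808c00440400002408000c02b00010140000808c00200400002308001602b00110140004008c0044040000220800120270000e01001101280005408008009000004040048004000200080f0802)))) 
(.lf (nat_lit 32825383) (dlOf (nat_lit 1) (nat_lit 0xc00200080008f20782)))) (.nd (nat_lit 27) 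
(.lf (nat_lit 4362395687) (dlOf (nat_lit 2) (nat_lit 0x7e00000000004000400200200008050582))) 
(.nd (nat_lit 29) (.nd (nat_lit 31) 
(.lf (nat_lit 201646119) (dlOf (nat_lit 2) (nat_lit 0x1200000000018060580))) 
(.lf (nat_lit 2349129767) (dlOf (nat_lit 2) (nat_lit 0xa006000108180c0c80)))) 
(.lf (nat_lit 1812258855) (dlOf (nat_lit 3) (nat_lit 0x46025001b0100011006c000b40c011004a0005702000200181c0581)))))) 
(.nd (nat_lit 27) (.nd (nat_lit 20) (.nd (nat_lit 25) 
(.lf (nat_lit 537255975) (dlOf (nat_lit 6) (nat_lit 0x2e0144004007e00b60320000a030021028800f80c8000260801440a2000603f0051019000014180238144011806400004040086051001b019000008100130008000c00200040008070783))) 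
(.lf (nat_lit 33939495) (dlOf (nat_lit 1) (nat_lit 0x1000400040008f80782)))) 
(.lf (nat_lit 9822247) (dlOf (nat_lit 1) (nat_lit 0x20028580281)))) (.nd (nat_lit 9) 
(.nd (nat_lit 7) 
(.lf (nat_lit 3355828263) (dlOf (nat_lit 5) (nat_lit 0x8d0170001540800100b8000a804000805c0005302006a0340037017002580b40009a0c007c004002e0018120602))) 
(.lf (nat_lit 201712039) (dlOf (nat_lit 2) (nat_lit 0x4d01d8033a80801c8008003000200280008090783)))) 
(.nd (nat_lit 26) 
(.lf (nat_lit 134603303) (dlOf (nat_lit 2) (nat_lit 0xa00f40000004000800200420008090e02))) 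
(.lf (nat_lit 201712167) (dlOf (nat_lit 2) (nat_lit 0xa00f40000004000800200420008090e02))))))) 
(.nd (nat_lit 20) (.nd (nat_lit 23) (.nd (nat_lit 16) (.nd (nat_lit 21) 
(.lf (nat_lit 21815335) (dlOf (nat_lit 1) (nat_lit 0x40028a70501))) 
(.lf (nat_lit 2754404391) (dlOf (nat_lit 2) (nat_lit 0x9c042405b0155018609c0001c81800700080008002006c00080e0503)))) 
(.lf (nat_lit 68018215) (dlOf (nat_lit 3) (nat_lit 0x18010002c0000002982003d00000011c0800100080020002000200083a0603)))) 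
(.nd (nat_lit 7) (.nd (nat_lit 24) 
(.lf (nat_lit 42786855) (dlOf (nat_lit 2) (nat_lit 0x2b3a80004e04012c00400200009280202))) 
(.lf (nat_lit 59564071) (dlOf (nat_lit 8) (nat_lit 0x5a0300005a04007d0180002c02007080c000150100014060000a40817ea0300044e820000404019280c000018100044060000080802e8008005800201e00009810783)))) 
(.lf (nat_lit 49080743) (dlOf (nat_lit 1) (nat_lit 0x8008000400200020009464e83))))) 
(.nd (nat_lit 7) (.nd (nat_lit 9) 
(.lf (nat_lit 22929447) (dlOf (nat_lit 1) (nat_lit 0xc00400040018b40602))) (.nd (nat_lit 11) 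
(.lf (nat_lit 2755519015) (dlOf (nat_lit 2) (nat_lit 0x700e0001880800680080008002000400081b0e03))) 
(.lf (nat_lit 33352231) (dlOf (nat_lit 1) (nat_lit 0xc004002a0018f55182))))) (.nd (nat_lit 10) 
(.nd (nat_lit 16) (.lf (nat_lit 8188327) (dlOf (nat_lit 1) (nat_lit 0x18008000800200020008518403))) 
(.lf (nat_lit 8253863) (dlOf (nat_lit 1) (nat_lit 0x40018518401)))) (.nd (nat_lit 8) 
(.lf (nat_lit 60613799) (dlOf (nat_lit 1) (nat_lit 0x1a8008011c002000800098c2c03))) 
(.lf (nat_lit 8250791) (dlOf (nat_lit 1) (nat_lit 0x400200020008513602)))))))) (.nd (nat_lit 26) 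
(.nd (nat_lit 19) (.nd (nat_lit 7) (.nd (nat_lit 16) (.nd (nat_lit 27) 
(.lf (nat_lit 1879367719) (dlOf (nat_lit 2) (nat_lit 0x483dc00014040070002001800080f0982))) 
(.lf (nat_lit 939843623) (dlOf (nat_lit 3) (nat_lit 0x46025001b0100011006c000b40c011004a0005702000200181c0581)))) 
(.nd (nat_lit 27) 
(.lf (nat_lit 4563787815) (dlOf (nat_lit 2) (nat_lit 0x2802a0001d02000600080e0a81))) 
(.lf (nat_lit 5234876455) (dlOf (nat_lit 5) (nat_lit 0xb002c002340400240340011202003a01a00086010032005800000080108008001800200060008120c03))))) 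
(.nd (nat_lit 29) (.lf (nat_lit 6711206055) (dlOf (nat_lit 1) (nat_lit 0xfc004014c00180c1382))) 
(.lf (nat_lit 6174335143) (dlOf (nat_lit 1) (nat_lit 0x400400020008101382))))) (.nd (nat_lit 7) 
(.nd (nat_lit 9) (.nd (nat_lit 20) 
(.lf (nat_lit 3492601895) (dlOf (nat_lit 2) (nat_lit 0x9c03fa05b015f018609c0001c81800700080008002006c00080e0503))) 
(.lf (nat_lit 1346166823) (dlOf (nat_lit 7) (nat_lit 0x1e1450010067802801cc000520c006440a00301a900070b400030514001819e00280b2002f039800700700004e20006c0e60001c0200240730000c01001b0398000580800f81cc000000400d400400260008e60202)))) 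
(.lf (nat_lit 3493716519) (dlOf (nat_lit 2) (nat_lit 0x700e0001940800680080008002000400081b0e03)))) 
(.nd (nat_lit 16) (.lf (nat_lit 5773254823) (dlOf (nat_lit 1) (nat_lit 0x400080c1381))) 
(.lf (nat_lit 5773320359) (dlOf (nat_lit 1) (nat_lit 0x400080c1381)))))) (.nd (nat_lit 27) 
(.nd (nat_lit 16) (.nd (nat_lit 7) (.nd (nat_lit 29) 
(.lf (nat_lit 4630831143) (dlOf (nat_lit 1) (nat_lit 0x4004000200080f0c02))) 
(.lf (nat_lit 5167702055) (dlOf (nat_lit 2) (nat_lit 0x1001400086018120c00)))) 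
(.lf (nat_lit 4093962663) (dlOf (nat_lit 1) (nat_lit 0x100018004e81)))) (.nd (nat_lit 30) 
(.lf (nat_lit 2483413031) (dlOf (nat_lit 1) (nat_lit 0x8008001c002000200081b0003))) 
(.lf (nat_lit 1409671207) (dlOf (nat_lit 6) (nat_lit 0x2e0144004007e00b603200014030021028800f80c80004e0801440a2000603f0051019000068180238144011806400019040086051001b01900005c100130008000c00200040008070783))))) 
(.nd (nat_lit 30) (.nd (nat_lit 21) (.nd (nat_lit 29) 
(.lf (nat_lit 4765048871) (dlOf (nat_lit 1) (nat_lit 0x4004000200080f0c02))) 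
(.lf (nat_lit 1006952487) (dlOf (nat_lit 2) (nat_lit 0x483dc00014040070002001800080f0982)))) 
(.nd (nat_lit 7) (.lf (nat_lit 1009049639) (dlOf (nat_lit 1) (nat_lit 0x20019020301))) 
(.lf (nat_lit 1009116327) (dlOf (nat_lit 2) (nat_lit 0x1c1c4000a075000b03980017c180028008004c00200660009082c03))))) 
(.nd (nat_lit 8) (.nd (nat_lit 16) 
(.lf (nat_lit 4228177959) (dlOf (nat_lit 2) (nat_lit 0x7e00000000004000400200200008050582))) 
(.lf (nat_lit 4228243495) (dlOf (nat_lit 1) (nat_lit 0x8400080004002010a0008090003)))) 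
(.lf (nat_lit 1543823655) (dlOf (nat_lit 1) (nat_lit 0xb800401660008187802)))))))) 
(.nd (nat_lit 16) (.nd (nat_lit 26) (.nd (nat_lit 8) (.nd (nat_lit 7) (.nd (nat_lit 22) 
(.nd (nat_lit 9) (.lf (nat_lit 1745150055) (dlOf (nat_lit 1) (nat_lit 0x4004002c00180b0d82))) 
(.lf (nat_lit 60090983) (dlOf (nat_lit 1) (nat_lit 0x800400020009845382)))) (.nd (nat_lit 19) 
(.lf (nat_lit 55894119) (dlOf (nat_lit 1) (nat_lit 0x400196e1981))) 
(.lf (nat_lit 6086759) (dlOf (nat_lit 1) (nat_lit 0xc0018420481))))) (.nd (nat_lit 9) 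
(.lf (nat_lit 21291239) (dlOf (nat_lit 1) (nat_lit 0x400400020008a31d82))) (.nd (nat_lit 10) 
(.lf (nat_lit 1345645287) (dlOf (nat_lit 1) (nat_lit 0x340018dd5981))) 
(.lf (nat_lit 323303) (dlOf (nat_lit 1) (nat_lit 0x780028007401)))))) (.nd (nat_lit 19) 
(.nd (nat_lit 20) (.nd (nat_lit 21) 
(.lf (nat_lit 21291367) (dlOf (nat_lit 1) (nat_lit 0x140028a35201))) 
(.lf (nat_lit 2416999) (dlOf (nat_lit 1) (nat_lit 0x400200020008150702)))) 
(.lf (nat_lit 3465575) (dlOf (nat_lit 1) (nat_lit 0x400200020008200702)))) (.nd (nat_lit 21) 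
(.lf (nat_lit 135061863) (dlOf (nat_lit 2) (nat_lit 0x388000000000401f0002005600081b0702))) 
(.lf (nat_lit 23912807) (dlOf (nat_lit 1) (nat_lit 0x160018b80701)))))) (.nd (nat_lit 19) 
(.nd (nat_lit 22) (.nd (nat_lit 7) 
(.lf (nat_lit 872734823) (dlOf (nat_lit 1) (nat_lit 0x4004002c00180b0d82))) 
(.lf (nat_lit 335864039) (dlOf (nat_lit 1) (nat_lit 0x8004000200080c1d82)))) (.nd (nat_lit 27) 
(.lf (nat_lit 2755977319) (dlOf (nat_lit 1) (nat_lit 0x4002000200081c1382))) 
(.lf (nat_lit 474275943) (dlOf (nat_lit 11) (nat_lit 0x789180020484001023b001411b000907400058398001c1c4000f0e00005344000108d800103a000101ce00010e6000087100028a14005048c0018242000c11d800c88d800643a000381cc00140e2000a870000286200044124002807f0009d820015049000d01fc0027208003848c001a242000a11d800988d800443a0002a1cc000d0e2000687000034124002207f0006c8a0011049000a81fc001b008002048c0014242000b11d800708d800283a000081cc000a0e200058700001ae200020484001023b000311b00068740001c39800061c400060e000033c3800809180030484001623b001711b000a8740006839800201c400110e00003344000800080010002001c0009100d83)))))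 
(.nd (nat_lit 7) (.nd (nat_lit 27) 
(.lf (nat_lit 4362920295) (dlOf (nat_lit 2) (nat_lit 0x198000000000400c8002003600081a0702))) 
(.nd (nat_lit 28) 
(.lf (nat_lit 202170727) (dlOf (nat_lit 2) (nat_lit 0x388000000000401f0002005600081b0702))) 
(.lf (nat_lit 4228702567) (dlOf (nat_lit 2) (nat_lit 0x198000000000400c8002003600081a0702))))) 
(.nd (nat_lit 29) (.lf (nat_lit 471654631) (dlOf (nat_lit 1) (nat_lit 0x780008370601))) 
(.lf (nat_lit 6377234663) (dlOf (nat_lit 1) (nat_lit 0x4004001600080c1d82))))))) (.nd (nat_lit 28) 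
(.nd (nat_lit 8) (.nd (nat_lit 10) (.nd (nat_lit 9) (.nd (nat_lit 19) 
(.lf (nat_lit 9822311) (dlOf (nat_lit 1) (nat_lit 0x20028580781))) 
(.lf (nat_lit 59629671) (dlOf (nat_lit 1) (nat_lit 0x8008000c00200020009820983)))) 
(.lf (nat_lit 20310631) (dlOf (nat_lit 1) (nat_lit 0x280080004002000a00089d5383)))) 
(.nd (nat_lit 12) (.lf (nat_lit 38134887) (dlOf (nat_lit 1) (nat_lit 0x400201840009132982))) 
(.lf (nat_lit 20313191) (dlOf (nat_lit 1) (nat_lit 0x280080020002000600089d9403))))) 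
(.nd (nat_lit 27) (.nd (nat_lit 7) 
(.lf (nat_lit 3531111) (dlOf (nat_lit 1) (nat_lit 0x400200020008200702))) 
(.lf (nat_lit 21357031) (dlOf (nat_lit 1) (nat_lit 0x20008a37301)))) (.nd (nat_lit 11) 
(.lf (nat_lit 2349195623) (dlOf (nat_lit 3) (nat_lit 0x10002e00980000000cc10003000000062040054002002200081b0702))) 
(.lf (nat_lit 1745217895) (dlOf (nat_lit 1) (nat_lit 0xf200280e4e81)))))) (.nd (nat_lit 26) 
(.nd (nat_lit 20) (.nd (nat_lit 21) 
(.lf (nat_lit 1346756711) (dlOf (nat_lit 27) (nat_lit 0x37412c000401b0002b02003f0398001280806182580180106019e0730002000000120200648258018c10601a8073003100000011c2001381cc0008c04036812c0004502017e0960016041806601cc006c000000440801be096002b03a007481cc000860c075012c0394084000304180e081d007000e6000420a00f6096007803980010410024825800e00e6000400400ae09600540398000fc10009825800340e60003e0401540730001e8100da04b001c01d003340e60003c06016609600b00398000ec1000b025800240e8002007300060000000e02006c025803340e6000370400160730001b01002004b000281cc000680802d012c0162073000198200d804b004781cc000640801c812c006e0730001882001704b0000b40806c025803340e60001704003a01b00ab00000004c100070008002000200080009000983)))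 
(.lf (nat_lit 1881530471) (dlOf (nat_lit 1) (nat_lit 0x8008000400200020008f40983)))) 
(.nd (nat_lit 7) (.lf (nat_lit 1344140391) (dlOf (nat_lit 1) (nat_lit 0x4002000200083d9402))) 
(.lf (nat_lit 1345710823) (dlOf (nat_lit 1) (nat_lit 0xc40018dd5981))))) (.nd (nat_lit 7) 
(.nd (nat_lit 8) (.lf (nat_lit 6376778343) (dlOf (nat_lit 1) (nat_lit 0x400400040008095382))) 
(.nd (nat_lit 10) 
(.lf (nat_lit 2483413351) (dlOf (nat_lit 3) (nat_lit 0x10002c00980000000cc10003000000062040054002002200081b0702))) 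
(.lf (nat_lit 472769895) (dlOf (nat_lit 1) (nat_lit 0x2800200040008b03482))))) (.nd (nat_lit 8) 
(.lf (nat_lit 2080760039) (dlOf (nat_lit 2) (nat_lit 0x50148003880800800080048002000a00080c1b83))) 
(.lf (nat_lit 872801255) (dlOf (nat_lit 1) (nat_lit 0xe800280e2881))))))))))))

end

end Pool.Agent.Lib.MP_5854e1_co.Cz

namespace Pool.Agent.Lib.MP_5854e1_co.Cz

noncomputable section

noncomputable def tz186 : DT := (.nd (nat_lit 16) (.nd (nat_lit 18) (.nd (nat_lit 15) 
(.nd (nat_lit 5) (.nd (nat_lit 6) (.nd (nat_lit 19) (.nd (nat_lit 26) (.nd (nat_lit 21) 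
(.nd (nat_lit 7) (.nd (nat_lit 8) (.nd (nat_lit 10) 
(.lf (nat_lit 13656075) (dlOf (nat_lit 1) (nat_lit 0x180018740001))) 
(.lf (nat_lit 4026557451) (dlOf (nat_lit 1) (nat_lit 0x640018002881)))) 
(.lf (nat_lit 4026558219) (dlOf (nat_lit 1) (nat_lit 0x20018003b81)))) (.nd (nat_lit 10) 
(.lf (nat_lit 2952818827) (dlOf (nat_lit 2) (nat_lit 0x40000029600801e800800b8002002e0008007d83))) 
(.lf (nat_lit 3355473035) (dlOf (nat_lit 4) (nat_lit 0xa000000f881001400000028c0800100000014204001c004005a0018009502))))) 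
(.nd (nat_lit 20) (.nd (nat_lit 23) 
(.lf (nat_lit 23093259) (dlOf (nat_lit 1) (nat_lit 0x40008b50081))) 
(.lf (nat_lit 14704651) (dlOf (nat_lit 1) (nat_lit 0x10008000400200020008770003)))) 
(.nd (nat_lit 8) 
(.lf (nat_lit 28336139) (dlOf (nat_lit 4) (nat_lit 0x16cb8006070100056710002b29c002186a000497b005fb84000d65c0029e0080068008010800200240008d80283))) 
(.lf (nat_lit 19947787) (dlOf (nat_lit 1) (nat_lit 0x4002000200089d0a82)))))) (.nd (nat_lit 12) 
(.nd (nat_lit 11) (.nd (nat_lit 10) 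
(.lf (nat_lit 470835211) (dlOf (nat_lit 2) (nat_lit 0xdc000005e78181c0480))) 
(.lf (nat_lit 469787659) (dlOf (nat_lit 1) (nat_lit 0xf4004005a0008002882)))) (.nd (nat_lit 27) 
(.lf (nat_lit 3825231883) (dlOf (nat_lit 5) (nat_lit 0x1800f003d806c028402e0005806003201e007400d804c005c000ae0c021c02a01680000002a82009200a8048000803000000005406005e0018004701))) 
(.nd (nat_lit 28) 
(.lf (nat_lit 1811965963) (dlOf (nat_lit 2) (nat_lit 0x108000000dc0200060018004701))) 
(.lf (nat_lit 1543530507) (dlOf (nat_lit 1) (nat_lit 0x20018004701)))))) (.nd (nat_lit 8) 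
(.nd (nat_lit 7) (.lf (nat_lit 201357323) (dlOf (nat_lit 1) (nat_lit 0xa000800a601))) 
(.nd (nat_lit 9) 
(.lf (nat_lit 604008587) (dlOf (nat_lit 1) (nat_lit 0x22000800a000200320008007d83))) 
(.lf (nat_lit 2617276043) (dlOf (nat_lit 9) (nat_lit 0x1200280088010000ee08005000a0007602002c005000388100180028001c00800a0014000c604006000a0006102000400600007010012002800000080008008001c00200020008009e03))))) 
(.nd (nat_lit 9) (.lf (nat_lit 67137931) (dlOf (nat_lit 1) (nat_lit 0xe0028008381))) 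
(.lf (nat_lit 67139467) (dlOf (nat_lit 1) (nat_lit 0x4001800a301))))))) (.nd (nat_lit 21) 
(.nd (nat_lit 27) (.nd (nat_lit 20) (.nd (nat_lit 9) 
(.lf (nat_lit 55074827) (dlOf (nat_lit 1) (nat_lit 0x600096a0081))) 
(.lf (nat_lit 1342726667) (dlOf (nat_lit 2) (nat_lit 0x8a1540010c8180c0d80)))) (.nd (nat_lit 22) 
(.lf (nat_lit 9986059) (dlOf (nat_lit 2) (nat_lit 0xf48a0007a43003e80285a0a00))) 
(.lf (nat_lit 30957579) (dlOf (nat_lit 1) (nat_lit 0x18c0008e50581))))) (.nd (nat_lit 26) 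
(.nd (nat_lit 8) 
(.lf (nat_lit 3624427531) (dlOf (nat_lit 1) (nat_lit 0x100080024002000c00081a0483))) 
(.lf (nat_lit 1476944139) (dlOf (nat_lit 1) (nat_lit 0x5000201180008303a02)))) (.nd (nat_lit 9) 
(.nd (nat_lit 22) 
(.lf (nat_lit 2886230027) (dlOf (nat_lit 1) (nat_lit 0x100080024002000c00081a0483))) 
(.lf (nat_lit 474505227) (dlOf (nat_lit 1) (nat_lit 0x800400640009190102)))) 
(.lf (nat_lit 470311435) (dlOf (nat_lit 2) (nat_lit 0x18a154000000180c0d80)))))) (.nd (nat_lit 22) 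
(.nd (nat_lit 20) (.nd (nat_lit 24) (.nd (nat_lit 28) 
(.lf (nat_lit 2646027) (dlOf (nat_lit 1) (nat_lit 0x400200020008180082))) 
(.lf (nat_lit 1881694219) (dlOf (nat_lit 1) (nat_lit 0x40028fe0001)))) 
(.lf (nat_lit 19423243) (dlOf (nat_lit 1) (nat_lit 0x80080004002000200089a0603)))) 
(.lf (nat_lit 3694603) (dlOf (nat_lit 1) (nat_lit 0x21c00400ba0008210682)))) (.nd (nat_lit 23) 
(.nd (nat_lit 8) 
(.lf (nat_lit 40397323) (dlOf (nat_lit 2) (nat_lit 0xe09e8000a0080058008004c002000200091f5003))) 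
(.lf (nat_lit 58220811) (dlOf (nat_lit 1) (nat_lit 0x600197c3a01)))) (.nd (nat_lit 25) 
(.lf (nat_lit 15228939) (dlOf (nat_lit 1) (nat_lit 0x6c004000800087c0482))) 
(.lf (nat_lit 48783371) (dlOf (nat_lit 1) (nat_lit 0x400400020009430102)))))))) (.nd (nat_lit 30) 
(.nd (nat_lit 23) (.nd (nat_lit 26) (.nd (nat_lit 21) (.nd (nat_lit 8) 
(.lf (nat_lit 2281726027) (dlOf (nat_lit 1) (nat_lit 0x40018000001))) 
(.lf (nat_lit 27979) (dlOf (nat_lit 1) (nat_lit 0x20028006a01)))) (.nd (nat_lit 19) 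
(.lf (nat_lit 52453451) (dlOf (nat_lit 1) (nat_lit 0x400400020009530602))) 
(.lf (nat_lit 54026315) (dlOf (nat_lit 1) (nat_lit 0x8002000200095f0002))))) (.nd (nat_lit 7) 
(.nd (nat_lit 10) (.lf (nat_lit 2756206667) (dlOf (nat_lit 2) (nat_lit 0x4021a00015818220d00))) 
(.lf (nat_lit 2751489099) (dlOf (nat_lit 1) (nat_lit 0x400400020008002882)))) 
(.lf (nat_lit 2755682507) (dlOf (nat_lit 2) (nat_lit 0x36211000e28181b0480))))) (.nd (nat_lit 19) 
(.nd (nat_lit 20) (.nd (nat_lit 10) 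
(.lf (nat_lit 25190475) (dlOf (nat_lit 2) (nat_lit 0x6000000023818bf0d00))) 
(.lf (nat_lit 8418379) (dlOf (nat_lit 2) (nat_lit 0xe64700011018519300)))) (.nd (nat_lit 7) 
(.lf (nat_lit 30433611) (dlOf (nat_lit 1) (nat_lit 0xc800200fc0008e30782))) 
(.lf (nat_lit 43016395) (dlOf (nat_lit 1) (nat_lit 0x4004000200092a0882))))) (.nd (nat_lit 10) 
(.nd (nat_lit 20) (.lf (nat_lit 32006219) (dlOf (nat_lit 1) (nat_lit 0x400400020008ed0602))) 
(.lf (nat_lit 43540555) (dlOf (nat_lit 1) (nat_lit 0x200292a0001)))) 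
(.lf (nat_lit 8942667) (dlOf (nat_lit 2) (nat_lit 0xe4a700011018519300)))))) (.nd (nat_lit 7) 
(.nd (nat_lit 19) (.nd (nat_lit 8) 
(.lf (nat_lit 3556794443) (dlOf (nat_lit 1) (nat_lit 0x1e80008000001))) (.nd (nat_lit 10) 
(.lf (nat_lit 3493880139) (dlOf (nat_lit 2) (nat_lit 0xdf8300000b0040004004000c00081b0602))) 
(.lf (nat_lit 5637170507) (dlOf (nat_lit 1) (nat_lit 0x20018003301))))) (.nd (nat_lit 8) 
(.lf (nat_lit 3494404171) (dlOf (nat_lit 2) (nat_lit 0x4020500015018220d00))) (.nd (nat_lit 26) 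
(.lf (nat_lit 1074291019) (dlOf (nat_lit 4) (nat_lit 0x2d8000000960400ec0000004a0200720000001f8181b0600))) 
(.lf (nat_lit 1946706251) (dlOf (nat_lit 4) (nat_lit 0x2d8000000a40400ec00000051020072000000230181b0600)))))) 
(.nd (nat_lit 9) (.nd (nat_lit 11) (.nd (nat_lit 26) 
(.lf (nat_lit 1074290891) (dlOf (nat_lit 1) (nat_lit 0x400081b0481))) 
(.lf (nat_lit 1946706123) (dlOf (nat_lit 1) (nat_lit 0x400081b0481)))) 
(.lf (nat_lit 3691018443) (dlOf (nat_lit 2) (nat_lit 0x3a0140052c01800a880)))) (.nd (nat_lit 27) 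
(.nd (nat_lit 29) (.lf (nat_lit 1342206667) (dlOf (nat_lit 1) (nat_lit 0x20018008c81))) 
(.lf (nat_lit 1879077579) (dlOf (nat_lit 1) (nat_lit 0x20008008c81)))) (.nd (nat_lit 10) 
(.lf (nat_lit 1476424395) (dlOf (nat_lit 1) (nat_lit 0x20028008c81))) 
(.lf (nat_lit 3691017931) (dlOf (nat_lit 2) (nat_lit 0x6015001f781800a000))))))))) 
(.nd (nat_lit 31) (.nd (nat_lit 7) (.nd (nat_lit 21) (.nd (nat_lit 11) (.nd (nat_lit 19) 
(.nd (nat_lit 6) 
(.lf (nat_lit 13656107) (dlOf (nat_lit 2) (nat_lit 0x11c540006404000800200020008740602))) 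
(.lf (nat_lit 67137643) (dlOf (nat_lit 1) (nat_lit 0x40008007d81)))) (.nd (nat_lit 20) 
(.lf (nat_lit 4362625067) (dlOf (nat_lit 2) (nat_lit 0x3800000e880400b8002008800080b0a02))) 
(.nd (nat_lit 22) 
(.lf (nat_lit 9986091) (dlOf (nat_lit 3) (nat_lit 0x13d050000a408002682800050040070004007600185a0d02))) 
(.lf (nat_lit 30957611) (dlOf (nat_lit 1) (nat_lit 0x480080004002000e0008e50b03)))))) 
(.nd (nat_lit 6) (.nd (nat_lit 8) 
(.lf (nat_lit 201357355) (dlOf (nat_lit 1) (nat_lit 0x2002800a601))) 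
(.lf (nat_lit 5301627691) (dlOf (nat_lit 1) (nat_lit 0x40008006400200060008005c03)))) 
(.lf (nat_lit 201357675) (dlOf (nat_lit 1) (nat_lit 0x800800080020002000800ac03))))) 
(.nd (nat_lit 22) (.nd (nat_lit 19) (.nd (nat_lit 20) 
(.lf (nat_lit 471883819) (dlOf (nat_lit 1) (nat_lit 0x80080004002000200086b0003))) 
(.lf (nat_lit 28336171) (dlOf (nat_lit 2) (nat_lit 0x99da0008702000a0008d80781)))) 
(.lf (nat_lit 2646059) (dlOf (nat_lit 6) (nat_lit 0xa04f000718100030e000068654001009e0007b06000a1d1000a0e000068654001c09e0007a0800181d1000d0e000048654003009e0007908001a1d100080e000058654002c09e000780800040008180b01)))) 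
(.nd (nat_lit 19) (.nd (nat_lit 23) 
(.lf (nat_lit 23093291) (dlOf (nat_lit 4) (nat_lit 0x6ade0002781000a0000001200800100000006204001800200600008b50602))) 
(.lf (nat_lit 14704683) (dlOf (nat_lit 3) (nat_lit 0x1924c0005e04001c9260002e0200020018770381)))) 
(.lf (nat_lit 24666155) (dlOf (nat_lit 8) (nat_lit 0x635a500042d1a000e304019d694000cafe0003881005dda50001c20402d2d28000d68d0019afe0001d818065da500012bf8000750401816940008b46800757f0000e80c02ead28000b68d000dafe0001cc180090008004800200180008bb0b03)))))) 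
(.nd (nat_lit 6) (.nd (nat_lit 10) (.nd (nat_lit 8) (.nd (nat_lit 19) 
(.lf (nat_lit 1275095723) (dlOf (nat_lit 1) (nat_lit 0x480018005681))) 
(.lf (nat_lit 46688939) (dlOf (nat_lit 1) (nat_lit 0x8008000400200020009385683)))) 
(.lf (nat_lit 36727211) (dlOf (nat_lit 1) (nat_lit 0x400200020009074e82)))) (.nd (nat_lit 8) 
(.nd (nat_lit 9) (.lf (nat_lit 27819) (dlOf (nat_lit 1) (nat_lit 0x20008006281))) 
(.lf (nat_lit 469788331) (dlOf (nat_lit 1) (nat_lit 0x4800400200008003a82)))) 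
(.lf (nat_lit 4429211563) (dlOf (nat_lit 2) (nat_lit 0xc00a800060080038008000c00200020008004303))))) 
(.nd (nat_lit 8) (.nd (nat_lit 10) (.nd (nat_lit 19) 
(.lf (nat_lit 27371) (dlOf (nat_lit 1) (nat_lit 0x20028005a01))) 
(.lf (nat_lit 49834731) (dlOf (nat_lit 1) (nat_lit 0xa8008002c002002800094c5a03)))) 
(.lf (nat_lit 1073768171) (dlOf (nat_lit 1) (nat_lit 0x1a0018003b01)))) (.nd (nat_lit 9) 
(.lf (nat_lit 23618027) (dlOf (nat_lit 1) (nat_lit 0xc60008b80d01))) (.nd (nat_lit 24) 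
(.lf (nat_lit 5435843563) (dlOf (nat_lit 2) (nat_lit 0x8018805f880800200080020002000c0008002883))) 
(.lf (nat_lit 50357227) (dlOf (nat_lit 1) (nat_lit 0x300080030002000a00094c2883)))))))) 
(.nd (nat_lit 8) (.nd (nat_lit 28) (.nd (nat_lit 19) (.nd (nat_lit 9) (.nd (nat_lit 20) 
(.lf (nat_lit 2755682347) (dlOf (nat_lit 2) (nat_lit 0x1a155004cc8181b0000))) 
(.lf (nat_lit 2752536619) (dlOf (nat_lit 2) (nat_lit 0xe1240005580801580080024002000c0008020503)))) 
(.lf (nat_lit 3355468331) (dlOf (nat_lit 1) (nat_lit 0x58008000400200060008001483)))) 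
(.nd (nat_lit 21) (.nd (nat_lit 26) 
(.lf (nat_lit 3221774379) (dlOf (nat_lit 2) (nat_lit 0x44000000000200220008180981))) 
(.lf (nat_lit 3959971883) (dlOf (nat_lit 2) (nat_lit 0x44000000000200220008180981)))) 
(.lf (nat_lit 2754109483) (dlOf (nat_lit 3) (nat_lit 0x13c3f0000190200a21f80000b0180c0d00))))) 
(.nd (nat_lit 7) (.nd (nat_lit 19) 
(.lf (nat_lit 3490734123) (dlOf (nat_lit 2) (nat_lit 0xe1180004ac0801580080024002000c0008020503))) 
(.nd (nat_lit 21) 
(.lf (nat_lit 4228407339) (dlOf (nat_lit 2) (nat_lit 0x10000003388080020008009c002009400080b0a03))) 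
(.lf (nat_lit 3492306987) (dlOf (nat_lit 5) (nat_lit 0x590f3000064080360798000300401383cc000160200681e60000a0180c0c00))))) 
(.nd (nat_lit 6) (.nd (nat_lit 9) 
(.lf (nat_lit 4160779435) (dlOf (nat_lit 1) (nat_lit 0x20028009501))) 
(.lf (nat_lit 4026558123) (dlOf (nat_lit 1) (nat_lit 0x20018003a81)))) 
(.lf (nat_lit 2952819435) (dlOf (nat_lit 1) (nat_lit 0x10004000e0018008e02)))))) (.nd (nat_lit 29) 
(.nd (nat_lit 10) (.nd (nat_lit 7) (.nd (nat_lit 26) 
(.lf (nat_lit 3355468587) (dlOf (nat_lit 2) (nat_lit 0x6017000000080020008001800200140008002203))) 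
(.lf (nat_lit 3422577451) (dlOf (nat_lit 1) (nat_lit 0x188008007800200020008002203)))) 
(.lf (nat_lit 2617271211) (dlOf (nat_lit 2) (nat_lit 0x6015800000080020008001800200140008002683)))) 
(.nd (nat_lit 6) (.lf (nat_lit 3691015979) (dlOf (nat_lit 1) (nat_lit 0xe0028007481))) 
(.nd (nat_lit 7) (.lf (nat_lit 3489693035) (dlOf (nat_lit 1) (nat_lit 0x4000800c901))) 
(.lf (nat_lit 3556795883) (dlOf (nat_lit 8) (nat_lit 0x4802e001a016000c00700070030003400c001800400110000008943800380180041604001c00c000a004000600000081c180010000003f60400180000017202000200000001810005002000500000000008000400400020018003602)))))) 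
(.nd (nat_lit 7) (.nd (nat_lit 9) (.nd (nat_lit 30) 
(.lf (nat_lit 2818597163) (dlOf (nat_lit 1) (nat_lit 0x20028000b01))) 
(.lf (nat_lit 3892338987) (dlOf (nat_lit 1) (nat_lit 0x400200020008000b02)))) 
(.lf (nat_lit 4160774955) (dlOf (nat_lit 1) (nat_lit 0x400200020008002202)))) (.nd (nat_lit 6) 
(.nd (nat_lit 10) 
(.lf (nat_lit 2684380075) (dlOf (nat_lit 1) (nat_lit 0x188008007800200020008002683))) 
(.lf (nat_lit 2952818603) (dlOf (nat_lit 1) (nat_lit 0x20008007981)))) 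
(.lf (nat_lit 2952820203) (dlOf (nat_lit 3) (nat_lit 0x2780500005e04000c020000160200120008009b81))))))))) 
(.nd (nat_lit 6) (.nd (nat_lit 5) (.nd (nat_lit 11) (.nd (nat_lit 21) (.nd (nat_lit 20) 
(.nd (nat_lit 8) (.nd (nat_lit 10) (.nd (nat_lit 23) 
(.lf (nat_lit 21028875) (dlOf (nat_lit 1) (nat_lit 0x2a0028a00281))) 
(.lf (nat_lit 12640267) (dlOf (nat_lit 3) (nat_lit 0x457a002b08100072bd00157c0800200080054002000200086d0683)))) 
(.lf (nat_lit 2080433163) (dlOf (nat_lit 1) (nat_lit 0x20008002000200080008092883)))) 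
(.nd (nat_lit 28) (.lf (nat_lit 201385739) (dlOf (nat_lit 1) (nat_lit 0x60028003b81))) 
(.lf (nat_lit 469821195) (dlOf (nat_lit 1) (nat_lit 0xe0018003b81))))) (.nd (nat_lit 22) 
(.nd (nat_lit 23) (.nd (nat_lit 26) 
(.lf (nat_lit 1343283211) (dlOf (nat_lit 5) (nat_lit 0x11c35a0063f02014620402370d6809b000000c780c04d835a00639020044099003110181e0480))) 
(.lf (nat_lit 470867979) (dlOf (nat_lit 2) (nat_lit 0x2284c401770040048004002a00081c0482)))) 
(.lf (nat_lit 9494539) (dlOf (nat_lit 2) (nat_lit 0x80000002f0040034002001a0008560482)))) 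
(.nd (nat_lit 7) 
(.lf (nat_lit 30990347) (dlOf (nat_lit 1) (nat_lit 0x128008003800200180008e60603))) 
(.lf (nat_lit 30466187) (dlOf (nat_lit 1) (nat_lit 0x400400020008e30482)))))) (.nd (nat_lit 23) 
(.nd (nat_lit 7) (.nd (nat_lit 8) (.nd (nat_lit 19) 
(.lf (nat_lit 23126027) (dlOf (nat_lit 1) (nat_lit 0x20018b60501))) 
(.lf (nat_lit 19456011) (dlOf (nat_lit 2) (nat_lit 0x89140004602000200189a0601)))) 
(.lf (nat_lit 19980555) (dlOf (nat_lit 1) (nat_lit 0x4002000200089d0a82)))) 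
(.lf (nat_lit 2154635) (dlOf (nat_lit 1) (nat_lit 0x4000400060008150102)))) (.nd (nat_lit 22) 
(.nd (nat_lit 9) (.lf (nat_lit 44097547) (dlOf (nat_lit 1) (nat_lit 0x2200192c0001))) 
(.lf (nat_lit 11592203) (dlOf (nat_lit 2) (nat_lit 0x8fa1d000b28186c0d80)))) (.nd (nat_lit 19) 
(.lf (nat_lit 14737419) (dlOf (nat_lit 1) (nat_lit 0x8008000400200020008770003))) 
(.lf (nat_lit 15261707) (dlOf (nat_lit 2) (nat_lit 0x3790fc0179e040004004001000087c0482))))))) 
(.nd (nat_lit 26) (.nd (nat_lit 8) (.nd (nat_lit 7) 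
(.lf (nat_lit 3492866059) (dlOf (nat_lit 3) (nat_lit 0xe01d0002a01000400f80098064004c0300004e06000600180f4701))) 
(.nd (nat_lit 9) (.lf (nat_lit 805365899) (dlOf (nat_lit 1) (nat_lit 0xd00028004801))) 
(.lf (nat_lit 5368769163) (dlOf (nat_lit 1) (nat_lit 0x60018005481))))) (.nd (nat_lit 7) 
(.lf (nat_lit 6174075659) (dlOf (nat_lit 1) (nat_lit 0x400400020018055b02))) (.nd (nat_lit 20) 
(.lf (nat_lit 46721419) (dlOf (nat_lit 1) (nat_lit 0x20029384e81))) 
(.lf (nat_lit 51964299) (dlOf (nat_lit 1) (nat_lit 0x800400020009514e82)))))) (.nd (nat_lit 7) 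
(.nd (nat_lit 9) 
(.lf (nat_lit 2483088651) (dlOf (nat_lit 3) (nat_lit 0x70040001c01c0002e040028010000c0070000b4100110008000c00200060008006683))) 
(.lf (nat_lit 5704313611) (dlOf (nat_lit 1) (nat_lit 0x20018055b01)))) (.nd (nat_lit 8) 
(.lf (nat_lit 6509619339) (dlOf (nat_lit 1) (nat_lit 0x2c0028004801))) (.nd (nat_lit 10) 
(.lf (nat_lit 2754668939) (dlOf (nat_lit 1) (nat_lit 0x200180f4e81))) 
(.lf (nat_lit 2483088779) (dlOf (nat_lit 1) (nat_lit 0x8008000400200180008006c83)))))))) 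
(.nd (nat_lit 9) (.nd (nat_lit 19) (.nd (nat_lit 20) (.nd (nat_lit 22) (.nd (nat_lit 10) 
(.lf (nat_lit 671146027) (dlOf (nat_lit 1) (nat_lit 0x2200080b0001))) 
(.lf (nat_lit 2483088427) (dlOf (nat_lit 4) (nat_lit 0x5602a000b60100220150005ac0802700a80000004024000400e40018006082)))) 
(.nd (nat_lit 8) 
(.lf (nat_lit 14737451) (dlOf (nat_lit 3) (nat_lit 0x6a777000178100093bb8000b80800300080030002001c0008770383))) 
(.lf (nat_lit 474013995) (dlOf (nat_lit 1) (nat_lit 0x1c00201180009000b02))))) (.nd (nat_lit 22) 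
(.lf (nat_lit 470868011) (dlOf (nat_lit 4) (nat_lit 0x782620004b020032131000228100460988001080800d800800ac002008000081c0683))) 
(.nd (nat_lit 25) 
(.lf (nat_lit 13688875) (dlOf (nat_lit 5) (nat_lit 0x1634e0001200810a1c5400064041228e2a000310201e271500018018740600))) 
(.lf (nat_lit 47243307) (dlOf (nat_lit 1) (nat_lit 0x8004000200093c0302)))))) (.nd (nat_lit 20) 
(.nd (nat_lit 30) (.nd (nat_lit 26) 
(.lf (nat_lit 134799403) (dlOf (nat_lit 1) (nat_lit 0x200080c0c01))) 
(.lf (nat_lit 201908267) (dlOf (nat_lit 1) (nat_lit 0x200280c0d01)))) (.nd (nat_lit 27) 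
(.lf (nat_lit 3221807147) (dlOf (nat_lit 1) (nat_lit 0x1c002000a0008190e02))) 
(.lf (nat_lit 3892895787) (dlOf (nat_lit 3) (nat_lit 0x401440000c0400800a2000c04f00080198003808800000100024004001e0008290e02))))) 
(.nd (nat_lit 21) (.nd (nat_lit 23) 
(.lf (nat_lit 471392299) (dlOf (nat_lit 1) (nat_lit 0x4004000800182f0e02))) 
(.lf (nat_lit 26796075) (dlOf (nat_lit 1) (nat_lit 0x400200020008c70802)))) 
(.lf (nat_lit 24698923) (dlOf (nat_lit 8) (nat_lit 0x3e5fc00112f5000cd77a000cb4900225a280038c28014af5000dd77a0062b4500205930003a628001c41400357a80086bbd00255a280038418000af50012977a008cb450003b0300085ea001caef400dd68a0007506003ebd4001f5de80122d14000e80c00797a80066bbd003f5a28001cc180108008000800200080008bb0b03)))))) 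
(.nd (nat_lit 8) (.nd (nat_lit 26) (.nd (nat_lit 28) (.nd (nat_lit 7) 
(.lf (nat_lit 59828779) (dlOf (nat_lit 1) (nat_lit 0x60029845181))) 
(.lf (nat_lit 4831898283) (dlOf (nat_lit 1) (nat_lit 0x20028055681)))) (.nd (nat_lit 27) 
(.lf (nat_lit 6174075563) (dlOf (nat_lit 1) (nat_lit 0x20028055681))) 
(.lf (nat_lit 5234551467) (dlOf (nat_lit 1) (nat_lit 0x400400020008055682))))) (.nd (nat_lit 7) 
(.lf (nat_lit 1008263723) (dlOf (nat_lit 1) (nat_lit 0x4e0008b18a01))) (.nd (nat_lit 10) 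
(.lf (nat_lit 5704313515) (dlOf (nat_lit 1) (nat_lit 0x400400020008055682))) 
(.lf (nat_lit 201385643) (dlOf (nat_lit 1) (nat_lit 0x18004006a0018003a82)))))) (.nd (nat_lit 7) 
(.nd (nat_lit 10) (.lf (nat_lit 5301660459) (dlOf (nat_lit 1) (nat_lit 0x800200020008005c02))) 
(.nd (nat_lit 11) (.lf (nat_lit 19986219) (dlOf (nat_lit 1) (nat_lit 0x4002000200089da102))) 
(.lf (nat_lit 2952851243) (dlOf (nat_lit 1) (nat_lit 0x240008007481))))) (.nd (nat_lit 11) 
(.lf (nat_lit 2214650795) (dlOf (nat_lit 1) (nat_lit 0x140028002681))) (.nd (nat_lit 27) 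
(.lf (nat_lit 1409350571) (dlOf (nat_lit 1) (nat_lit 0x6001800bd81))) 
(.lf (nat_lit 3959487403) (dlOf (nat_lit 1) (nat_lit 0x2002800bd81))))))))) (.nd (nat_lit 28) 
(.nd (nat_lit 27) (.nd (nat_lit 19) (.nd (nat_lit 9) (.nd (nat_lit 20) (.nd (nat_lit 21) 
(.lf (nat_lit 5368766539) (dlOf (nat_lit 1) (nat_lit 0x800200020008000002))) 
(.lf (nat_lit 31514699) (dlOf (nat_lit 1) (nat_lit 0x1c00200020008e90002)))) 
(.lf (nat_lit 2752569419) (dlOf (nat_lit 1) (nat_lit 0xc00400020008020902)))) (.nd (nat_lit 5) 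
(.lf (nat_lit 11592267) (dlOf (nat_lit 1) (nat_lit 0x8002000200086c1182))) (.nd (nat_lit 7) 
(.lf (nat_lit 5368769131) (dlOf (nat_lit 1) (nat_lit 0x30008000800200060008005383))) 
(.lf (nat_lit 55632875) (dlOf (nat_lit 1) (nat_lit 0x4002000200096d2882)))))) (.nd (nat_lit 10) 
(.nd (nat_lit 8) 
(.lf (nat_lit 2756239435) (dlOf (nat_lit 2) (nat_lit 0x500840028023001100f0000ac180008008000c00200040008220d03))) 
(.nd (nat_lit 9) (.lf (nat_lit 12116299) (dlOf (nat_lit 1) (nat_lit 0x200086c0601))) 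
(.lf (nat_lit 46721867) (dlOf (nat_lit 1) (nat_lit 0xe8008001000200aa0009385c03))))) 
(.nd (nat_lit 5) (.nd (nat_lit 8) 
(.lf (nat_lit 8975435) (dlOf (nat_lit 2) (nat_lit 0x492f0000494e000220400020028519301))) 
(.lf (nat_lit 8975691) (dlOf (nat_lit 1) (nat_lit 0x20018519901)))) 
(.lf (nat_lit 583531) (dlOf (nat_lit 1) (nat_lit 0x420008004001)))))) (.nd (nat_lit 29) 
(.nd (nat_lit 5) (.nd (nat_lit 8) 
(.lf (nat_lit 134799435) (dlOf (nat_lit 2) (nat_lit 0x1203c0001a0180c1480))) 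
(.lf (nat_lit 134278475) (dlOf (nat_lit 1) (nat_lit 0x1c0018006a01)))) (.nd (nat_lit 7) 
(.lf (nat_lit 1208017003) (dlOf (nat_lit 1) (nat_lit 0x28008005800200020008090183))) 
(.lf (nat_lit 201386219) (dlOf (nat_lit 1) (nat_lit 0x400400020018004b02))))) (.nd (nat_lit 7) 
(.nd (nat_lit 8) (.nd (nat_lit 26) 
(.lf (nat_lit 2818629707) (dlOf (nat_lit 1) (nat_lit 0xc0018080001))) 
(.lf (nat_lit 738254923) (dlOf (nat_lit 2) (nat_lit 0x140ae00e150200020018000001)))) 
(.lf (nat_lit 671146315) (dlOf (nat_lit 2) (nat_lit 0x1000000094040030002001c00080b0602)))) 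
(.nd (nat_lit 5) 
(.lf (nat_lit 671146187) (dlOf (nat_lit 3) (nat_lit 0xe404c001d1020076026000e78180b0480))) 
(.lf (nat_lit 738256363) (dlOf (nat_lit 2) (nat_lit 0x100ac000f802000e0018003601))))))) 
(.nd (nat_lit 8) (.nd (nat_lit 26) (.nd (nat_lit 31) (.nd (nat_lit 5) 
(.lf (nat_lit 1342238283) (dlOf (nat_lit 1) (nat_lit 0x400200080008007182))) 
(.lf (nat_lit 1342238827) (dlOf (nat_lit 1) (nat_lit 0x2e0008007d81)))) (.nd (nat_lit 19) 
(.lf (nat_lit 3490766923) (dlOf (nat_lit 1) (nat_lit 0xc00400020008020902))) 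
(.lf (nat_lit 3494436939) (dlOf (nat_lit 2) (nat_lit 0x500840028023001100f0000a8180008008000c00200040008220d03))))) 
(.nd (nat_lit 5) (.nd (nat_lit 7) (.nd (nat_lit 10) 
(.lf (nat_lit 472965195) (dlOf (nat_lit 1) (nat_lit 0xa0008b70601))) 
(.lf (nat_lit 2483088459) (dlOf (nat_lit 5) (nat_lit 0x1180a8002de04004c0540016e02004802a000b68100230150003e4080178008004000200660008006083)))) 
(.nd (nat_lit 19) 
(.lf (nat_lit 1543561419) (dlOf (nat_lit 3) (nat_lit 0xe404c001d1020076026000e78180b0480))) 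
(.lf (nat_lit 4095271115) (dlOf (nat_lit 1) (nat_lit 0x20028081b81))))) (.nd (nat_lit 9) 
(.lf (nat_lit 474538091) (dlOf (nat_lit 2) (nat_lit 0x1b02580005204002c002000800091a0a02))) 
(.lf (nat_lit 5301660267) (dlOf (nat_lit 2) (nat_lit 0x240260003f0200160018005381)))))) 
(.nd (nat_lit 7) (.nd (nat_lit 11) (.nd (nat_lit 22) 
(.lf (nat_lit 1543561547) (dlOf (nat_lit 2) (nat_lit 0x10000000a2040030002001c00080b0602))) 
(.lf (nat_lit 3493912907) (dlOf (nat_lit 3) (nat_lit 0x6840000046020014200000228181b0600)))) 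
(.nd (nat_lit 9) (.lf (nat_lit 3489721675) (dlOf (nat_lit 1) (nat_lit 0x20018006a01))) 
(.lf (nat_lit 872475467) (dlOf (nat_lit 2) (nat_lit 0x20034002ca04000800200060008005c02))))) 
(.nd (nat_lit 5) (.nd (nat_lit 9) 
(.lf (nat_lit 2080432587) (dlOf (nat_lit 4) (nat_lit 0x1c0290001b01004a0148000a80801680a40004604000400200040008091102))) 
(.lf (nat_lit 5704313803) (dlOf (nat_lit 1) (nat_lit 0xfc0008055d81)))) 
(.lf (nat_lit 469821419) (dlOf (nat_lit 1) (nat_lit 0xc004000a0008004602))))))))) (.nd (nat_lit 15) 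
(.nd (nat_lit 26) (.nd (nat_lit 5) (.nd (nat_lit 6) (.nd (nat_lit 19) (.nd (nat_lit 28) 
(.nd (nat_lit 21) (.nd (nat_lit 20) (.nd (nat_lit 30) 
(.lf (nat_lit 2684641291) (dlOf (nat_lit 3) (nat_lit 0x6806a002e02e00160138005641800580d4002b0040060002000e0008100082))) 
(.lf (nat_lit 3758383115) (dlOf (nat_lit 1) (nat_lit 0x40028170001)))) 
(.lf (nat_lit 9723915) (dlOf (nat_lit 1) (nat_lit 0x400400020008580002)))) (.nd (nat_lit 7) 
(.nd (nat_lit 25) 
(.lf (nat_lit 10772491) (dlOf (nat_lit 2) (nat_lit 0x8fb4001d204005000400600018620482))) 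
(.lf (nat_lit 44326923) (dlOf (nat_lit 1) (nat_lit 0xc00092f0081)))) 
(.lf (nat_lit 2384011) (dlOf (nat_lit 1) (nat_lit 0x400200020008150102))))) (.nd (nat_lit 27) 
(.nd (nat_lit 29) (.nd (nat_lit 30) 
(.lf (nat_lit 4563689483) (dlOf (nat_lit 1) (nat_lit 0x1dc002001400080c0002))) 
(.lf (nat_lit 1342464011) (dlOf (nat_lit 5) (nat_lit 0x50e2800548080030744003c38a001170400061d100040e28003ec100020714001ee04012c004010c0008030482)))) 
(.lf (nat_lit 805593099) (dlOf (nat_lit 1) (nat_lit 0x1400200040008130482)))) (.nd (nat_lit 29) 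
(.nd (nat_lit 32) (.lf (nat_lit 402939915) (dlOf (nat_lit 1) (nat_lit 0xe00280b0001))) 
(.lf (nat_lit 4697907211) (dlOf (nat_lit 1) (nat_lit 0x1dc002001400080c0002)))) (.nd (nat_lit 31) 
(.lf (nat_lit 939810827) (dlOf (nat_lit 2) (nat_lit 0x807c003da040050004004a0008180482))) 
(.lf (nat_lit 3087294475) (dlOf (nat_lit 2) (nat_lit 0x5002c0000004000c004000c0008170482))))))) 
(.nd (nat_lit 7) (.nd (nat_lit 20) (.nd (nat_lit 9) 
(.lf (nat_lit 59531275) (dlOf (nat_lit 1) (nat_lit 0xb20019810101))) 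
(.lf (nat_lit 57436683) (dlOf (nat_lit 1) (nat_lit 0x40004000c0009795002)))) (.nd (nat_lit 8) 
(.lf (nat_lit 27025419) (dlOf (nat_lit 2) (nat_lit 0x3b847400c7804001000200040008ca0482))) 
(.lf (nat_lit 1859851) (dlOf (nat_lit 1) (nat_lit 0x800801a000200600008150483))))) (.nd (nat_lit 8) 
(.lf (nat_lit 23879819) (dlOf (nat_lit 1) (nat_lit 0x1c00200020008b80102))) (.nd (nat_lit 9) 
(.lf (nat_lit 8151435) (dlOf (nat_lit 1) (nat_lit 0x400200020008511002))) 
(.lf (nat_lit 54291339) (dlOf (nat_lit 1) (nat_lit 0x400400020009655c82))))))) (.nd (nat_lit 19) 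
(.nd (nat_lit 20) (.nd (nat_lit 8) (.nd (nat_lit 10) 
(.lf (nat_lit 537157707) (dlOf (nat_lit 1) (nat_lit 0x20018030f81))) 
(.lf (nat_lit 2818864203) (dlOf (nat_lit 1) (nat_lit 0x4002001c0008129302)))) 
(.lf (nat_lit 134504779) (dlOf (nat_lit 1) (nat_lit 0x400200020008048002)))) (.nd (nat_lit 28) 
(.nd (nat_lit 7) (.lf (nat_lit 9723979) (dlOf (nat_lit 1) (nat_lit 0x400400020008580502))) 
(.lf (nat_lit 20214475) (dlOf (nat_lit 1) (nat_lit 0x80080004002000200089d8c83)))) (.nd (nat_lit 8) 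
(.lf (nat_lit 1880383563) (dlOf (nat_lit 1) (nat_lit 0x6400288c0001))) 
(.lf (nat_lit 3490996555) (dlOf (nat_lit 1) (nat_lit 0x240018048001)))))) (.nd (nat_lit 20) 
(.nd (nat_lit 7) 
(.lf (nat_lit 1342988363) (dlOf (nat_lit 1) (nat_lit 0x8008001000200020008121483))) 
(.nd (nat_lit 24) (.lf (nat_lit 135028939) (dlOf (nat_lit 1) (nat_lit 0xa00181b0481))) 
(.lf (nat_lit 17588427) (dlOf (nat_lit 1) (nat_lit 0x280080004002000c00088e0483))))) 
(.nd (nat_lit 8) (.nd (nat_lit 25) 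
(.lf (nat_lit 10248267) (dlOf (nat_lit 1) (nat_lit 0x5680080008002008000085c0f83))) 
(.lf (nat_lit 43802699) (dlOf (nat_lit 1) (nat_lit 0x18004000a00092a0002)))) 
(.lf (nat_lit 20737355) (dlOf (nat_lit 1) (nat_lit 0x4004000c00089d6a02))))))) (.nd (nat_lit 20) 
(.nd (nat_lit 6) (.nd (nat_lit 19) (.nd (nat_lit 7) (.nd (nat_lit 21) (.nd (nat_lit 28) 
(.lf (nat_lit 2684641323) (dlOf (nat_lit 2) (nat_lit 0x4807601b4d02000e0018100781))) 
(.lf (nat_lit 805593131) (dlOf (nat_lit 6) (nat_lit 0x94076000db02000c044002501d8003641001081100084076000ca04004203b000648100210238001f8080148008002c00200040008130603)))) 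
(.lf (nat_lit 3492044843) (dlOf (nat_lit 1) (nat_lit 0x2400180a0981)))) (.nd (nat_lit 28) 
(.lf (nat_lit 1208246443) (dlOf (nat_lit 2) (nat_lit 0x3014000180300006c08000c004000400080a2c82))) 
(.lf (nat_lit 4697907371) (dlOf (nat_lit 6) (nat_lit 0xd00cc00020040218066000080200920330000201004901980000c0802480cc0000404013c002003800080c1502))))) 
(.nd (nat_lit 21) (.nd (nat_lit 23) 
(.lf (nat_lit 1342988331) (dlOf (nat_lit 10) (nat_lit 0x9c0550053c2a2002c137010a04a00188204000a21400202a20005002006e154002c0a8801402500009e0c01042a80004e02001015400070a8800182040007e0c00082a20003802004015400050a8800102500006e0c00582a8000c1510001b0200050aa000205440006608007800400180008120c02))) 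
(.lf (nat_lit 59531307) (dlOf (nat_lit 1) (nat_lit 0x200019810901)))) (.nd (nat_lit 7) 
(.lf (nat_lit 11296811) (dlOf (nat_lit 4) (nat_lit 0xc56100072af801d101000415840020abe0074304000c56100062af801ce8100020008007800200060008680783))) 
(.lf (nat_lit 49047979) (dlOf (nat_lit 1) (nat_lit 0x8008000400200020009464e83)))))) 
(.nd (nat_lit 8) (.nd (nat_lit 9) (.nd (nat_lit 19) 
(.lf (nat_lit 33841259) (dlOf (nat_lit 2) (nat_lit 0x30e7000098080008008000400200060008f61b03))) 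
(.lf (nat_lit 42754155) (dlOf (nat_lit 1) (nat_lit 0x4004000a0009280a02)))) (.nd (nat_lit 22) 
(.lf (nat_lit 5100563051) (dlOf (nat_lit 3) (nat_lit 0x4012000128080090090000803a0004104000600180d5381))) 
(.lf (nat_lit 54815339) (dlOf (nat_lit 2) (nat_lit 0xcd10000410200040019655381))))) 
(.nd (nat_lit 7) 
(.lf (nat_lit 25452907) (dlOf (nat_lit 3) (nat_lit 0x632180004a04002590c000240200460028c10a01))) 
(.nd (nat_lit 9) 
(.lf (nat_lit 3221512683) (dlOf (nat_lit 4) (nat_lit 0x14c07c012000e0003006003200000004410023407c011000e0000e02006c01f002b00380003608004400200240008127302))) 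
(.lf (nat_lit 2818866155) (dlOf (nat_lit 4) (nat_lit 0x120360026101001301b0013040800100d80096a04004c004002a001812bf02))))))) 
(.nd (nat_lit 7) (.nd (nat_lit 21) (.nd (nat_lit 9) (.nd (nat_lit 22) 
(.lf (nat_lit 1343512619) (dlOf (nat_lit 1) (nat_lit 0xc0008280701))) 
(.lf (nat_lit 30695467) (dlOf (nat_lit 2) (nat_lit 0x391c00006018e40e00)))) 
(.lf (nat_lit 35416619) (dlOf (nat_lit 1) (nat_lit 0x20029015181)))) (.nd (nat_lit 22) 
(.nd (nat_lit 24) (.lf (nat_lit 11821099) (dlOf (nat_lit 1) (nat_lit 0x4002000200086c0002))) 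
(.lf (nat_lit 62152747) (dlOf (nat_lit 1) (nat_lit 0x2c800400a80009960302)))) (.nd (nat_lit 8) 
(.lf (nat_lit 24404011) (dlOf (nat_lit 1) (nat_lit 0x20018b90981))) 
(.lf (nat_lit 8151851) (dlOf (nat_lit 1) (nat_lit 0x80028512201)))))) (.nd (nat_lit 6) 
(.nd (nat_lit 9) (.lf (nat_lit 3490996395) (dlOf (nat_lit 1) (nat_lit 0x80028044c01))) 
(.nd (nat_lit 12) (.lf (nat_lit 8152747) (dlOf (nat_lit 1) (nat_lit 0x1c0018513a81))) 
(.lf (nat_lit 20215467) (dlOf (nat_lit 1) (nat_lit 0x4002000200089da002))))) (.nd (nat_lit 19) 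
(.lf (nat_lit 11821547) (dlOf (nat_lit 1) (nat_lit 0x200286c0d01))) 
(.lf (nat_lit 3491521003) (dlOf (nat_lit 1) (nat_lit 0x400200020008090d02)))))))) (.nd (nat_lit 28) 
(.nd (nat_lit 5) (.nd (nat_lit 29) (.nd (nat_lit 6) (.nd (nat_lit 7) 
(.lf (nat_lit 4362362891) (dlOf (nat_lit 1) (nat_lit 0x20018030a01))) 
(.lf (nat_lit 4362887307) (dlOf (nat_lit 8) (nat_lit 0x240510012019800800b40005c0c00180a40002c020184052000048100c202900001c0800c81480000c0403080a40000502024e052004e023002680c403100000000008000200181a0101)))) 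
(.nd (nat_lit 7) 
(.lf (nat_lit 4362887499) (dlOf (nat_lit 2) (nat_lit 0x6d000000000040040002004800081a0602))) 
(.nd (nat_lit 27) (.lf (nat_lit 4362887371) (dlOf (nat_lit 2) (nat_lit 0x44032001238181a0480))) 
(.lf (nat_lit 202137803) (dlOf (nat_lit 1) (nat_lit 0xa00181b0481)))))) (.nd (nat_lit 31) 
(.nd (nat_lit 27) (.nd (nat_lit 30) 
(.lf (nat_lit 604266507) (dlOf (nat_lit 1) (nat_lit 0x60028110281))) 
(.lf (nat_lit 1678008331) (dlOf (nat_lit 1) (nat_lit 0x1400200040008130482)))) 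
(.lf (nat_lit 1812226059) (dlOf (nat_lit 2) (nat_lit 0x807c002b8040050004004a0008180482)))) 
(.nd (nat_lit 6) (.nd (nat_lit 7) 
(.lf (nat_lit 3825491979) (dlOf (nat_lit 2) (nat_lit 0x5002c0000004000c004000c0008170482))) 
(.lf (nat_lit 2754898315) (dlOf (nat_lit 1) (nat_lit 0x200180f4e81)))) 
(.lf (nat_lit 3959710283) (dlOf (nat_lit 6) (nat_lit 0x310038000460400c801c000220201b600e00a7000000078100248038000380400a801c0001b0200400018128d01)))))) 
(.nd (nat_lit 6) (.nd (nat_lit 27) (.nd (nat_lit 7) (.nd (nat_lit 21) 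
(.lf (nat_lit 1678008363) (dlOf (nat_lit 6) (nat_lit 0x94076000cd02000c044002501d80032c1001081100084076000bc04004203b0005d8100210238001f0080148008002c00200040008130603))) 
(.lf (nat_lit 2753847339) (dlOf (nat_lit 1) (nat_lit 0x2400180a0981)))) 
(.lf (nat_lit 2752798891) (dlOf (nat_lit 1) (nat_lit 0x80028044c01)))) (.nd (nat_lit 7) 
(.nd (nat_lit 8) (.lf (nat_lit 2349097003) (dlOf (nat_lit 1) (nat_lit 0xc004000200080a0982))) 
(.lf (nat_lit 4496583467) (dlOf (nat_lit 1) (nat_lit 0x80080004002000200080e5c03)))) 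
(.lf (nat_lit 2885969835) (dlOf (nat_lit 1) (nat_lit 0x3000200020008144302))))) (.nd (nat_lit 9) 
(.nd (nat_lit 19) 
(.lf (nat_lit 6509847019) (dlOf (nat_lit 1) (nat_lit 0x8008001800200020008157303))) 
(.lf (nat_lit 2753323499) (dlOf (nat_lit 1) (nat_lit 0x400200020008090d02)))) (.nd (nat_lit 10) 
(.nd (nat_lit 19) (.lf (nat_lit 1141138411) (dlOf (nat_lit 1) (nat_lit 0xc0028122881))) 
(.lf (nat_lit 2752275435) (dlOf (nat_lit 1) (nat_lit 0x20018002881)))) 
(.lf (nat_lit 2751756267) (dlOf (nat_lit 1) (nat_lit 0x4002800a601))))))) (.nd (nat_lit 29) 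
(.nd (nat_lit 27) (.nd (nat_lit 6) (.nd (nat_lit 5) (.nd (nat_lit 7) 
(.lf (nat_lit 335831051) (dlOf (nat_lit 1) (nat_lit 0xe00280b0001))) 
(.lf (nat_lit 1410099339) (dlOf (nat_lit 1) (nat_lit 0x400004000200180f4802)))) 
(.lf (nat_lit 2483314731) (dlOf (nat_lit 1) (nat_lit 0xc004000200080a0982)))) (.nd (nat_lit 7) 
(.lf (nat_lit 1409572939) (dlOf (nat_lit 1) (nat_lit 0x20018030f81))) 
(.lf (nat_lit 3557061323) (dlOf (nat_lit 1) (nat_lit 0x23c00400880008128c82))))) (.nd (nat_lit 20) 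
(.nd (nat_lit 30) (.nd (nat_lit 31) 
(.lf (nat_lit 470048779) (dlOf (nat_lit 5) (nat_lit 0x50e2800548080030744003c38a0011b0400061d100040e28003e8100020714001ee04012c004010c0008030482))) 
(.lf (nat_lit 2617532427) (dlOf (nat_lit 1) (nat_lit 0x200180e0101)))) 
(.lf (nat_lit 3691274251) (dlOf (nat_lit 1) (nat_lit 0x8008000400200020008110103)))) 
(.nd (nat_lit 7) (.nd (nat_lit 19) 
(.lf (nat_lit 471097355) (dlOf (nat_lit 1) (nat_lit 0x3800401580008270102))) 
(.lf (nat_lit 471621643) (dlOf (nat_lit 1) (nat_lit 0x400400060018360282)))) 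
(.lf (nat_lit 473196939) (dlOf (nat_lit 1) (nat_lit 0x400400040018d74e82)))))) (.nd (nat_lit 7) 
(.nd (nat_lit 6) (.nd (nat_lit 8) (.nd (nat_lit 27) 
(.lf (nat_lit 3020185611) (dlOf (nat_lit 1) (nat_lit 0x20028150001))) 
(.lf (nat_lit 4228145163) (dlOf (nat_lit 1) (nat_lit 0x20018030a01)))) 
(.lf (nat_lit 3154403595) (dlOf (nat_lit 1) (nat_lit 0x20028160701)))) (.nd (nat_lit 10) 
(.lf (nat_lit 4228669771) (dlOf (nat_lit 2) (nat_lit 0x6d000000000040040002004800081a0602))) 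
(.lf (nat_lit 5301888331) (dlOf (nat_lit 4) (nat_lit 0x40110001581000a0188000a008006004400044040004004002800080e3302))))) 
(.nd (nat_lit 6) (.nd (nat_lit 8) (.nd (nat_lit 9) 
(.lf (nat_lit 4228669579) (dlOf (nat_lit 8) (nat_lit 0x2404a0012019000800b00005c0c00180960002c02018404b000048100c202580001c0800c812c0000c0403080960000502024e04b004e01f802680c003100000000008000200181a0101))) 
(.lf (nat_lit 6376680075) (dlOf (nat_lit 1) (nat_lit 0x400200020008095482)))) 
(.lf (nat_lit 4094454667) (dlOf (nat_lit 1) (nat_lit 0x400400020008055c82)))) (.nd (nat_lit 19) 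
(.lf (nat_lit 5167669451) (dlOf (nat_lit 1) (nat_lit 0x588008034800201a800080f1783))) 
(.lf (nat_lit 4228669643) (dlOf (nat_lit 2) (nat_lit 0x44031001238181a0480))))))))) 
(.nd (nat_lit 19) (.nd (nat_lit 6) (.nd (nat_lit 5) (.nd (nat_lit 27) (.nd (nat_lit 7) 
(.nd (nat_lit 20) (.lf (nat_lit 4563722251) (dlOf (nat_lit 1) (nat_lit 0x4004000200080d0002))) 
(.nd (nat_lit 22) (.lf (nat_lit 26533899) (dlOf (nat_lit 1) (nat_lit 0x400200020008c50002))) 
(.lf (nat_lit 30728203) (dlOf (nat_lit 1) (nat_lit 0x8008003800200020008e40503))))) 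
(.nd (nat_lit 8) (.nd (nat_lit 21) 
(.lf (nat_lit 21291147) (dlOf (nat_lit 5) (nat_lit 0x1f6a0001bb4c000dda40006ed00004f678001ba86000360c00d7da80001ed20000d41000176a8000fb50000fda60007ed20003f680002bb3c000fd430001a070004ed5000476980023b48000dda0000becf0002f50c00056180080004000c0008a30f02))) 
(.lf (nat_lit 2416779) (dlOf (nat_lit 1) (nat_lit 0x60018150101)))) 
(.lf (nat_lit 2754931083) (dlOf (nat_lit 2) (nat_lit 0x282c803bda040228002009000080f4e82))))) 
(.nd (nat_lit 28) (.nd (nat_lit 8) (.nd (nat_lit 26) 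
(.lf (nat_lit 134537227) (dlOf (nat_lit 1) (nat_lit 0x20018060481))) 
(.lf (nat_lit 201646091) (dlOf (nat_lit 1) (nat_lit 0x20018060481)))) 
(.lf (nat_lit 671408395) (dlOf (nat_lit 2) (nat_lit 0x18024000600b8029701000800080004002003c0008187d03)))) 
(.nd (nat_lit 7) (.nd (nat_lit 22) 
(.lf (nat_lit 4697939979) (dlOf (nat_lit 1) (nat_lit 0x4004000200080d0002))) 
(.lf (nat_lit 474275851) (dlOf (nat_lit 1) (nat_lit 0x400200100009100002)))) 
(.lf (nat_lit 6308552843) (dlOf (nat_lit 2) (nat_lit 0x400460003202000c00180f0f01)))))) 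
(.nd (nat_lit 20) (.nd (nat_lit 7) (.nd (nat_lit 26) 
(.lf (nat_lit 1879367723) (dlOf (nat_lit 8) (nat_lit 0x7f07b0007819c013c0b000ea057008402a8042815000cc0a400aa05100fd0278089813802cc00e00c8000000718c004807b802e818400d00b000f0057001702a8063815001280a2017604f01280270003884803a815c02380a8005205100c102700038420028016001f40ae0126055009602a00448144020809e022004e0003b07002302c0032815c01000aa0182054008602880898138000ea1800380b000e8057008f02a002b814402f409c000740a0084058006902b80368154028c0a800c4051008002780840138000e61c013c004004a00080f0b02))) 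
(.nd (nat_lit 27) 
(.lf (nat_lit 2483347499) (dlOf (nat_lit 4) (nat_lit 0x15805801e600f008d0068000901801900b0030001e00c000d0001103005c007800980340002c08002c004001000080c0c02))) 
(.lf (nat_lit 1006952491) (dlOf (nat_lit 8) (nat_lit 0x7f07b0007819c013c0b000ea057008402a8042815000cc0a400aa05100fd0278089813802cc00600c8000000718c004807b802e819400d00b000f0057001702a8063815001280a2017604f01280270003884803a815c02380a8005205100c102700038420028016001f40ae0126055009602a00448144020809e022004e0003d87002302c0032815c01000aa0182054008602880898138000f41800380b000e8057008f02a002b814402f409c000790a0084058006902b80368154028c0a800c4051008002780840138000f01c013c004004a00080f0b02))))) 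
(.nd (nat_lit 27) (.lf (nat_lit 5100593323) (dlOf (nat_lit 1) (nat_lit 0x4004000200080e2c82))) 
(.lf (nat_lit 671408299) (dlOf (nat_lit 1) (nat_lit 0xa0008184c01))))) (.nd (nat_lit 21) 
(.nd (nat_lit 7) 
(.lf (nat_lit 26533931) (dlOf (nat_lit 3) (nat_lit 0x54500002c02000ca2800015818c50380))) 
(.lf (nat_lit 60091051) (dlOf (nat_lit 1) (nat_lit 0x20029845681)))) (.nd (nat_lit 24) 
(.lf (nat_lit 11853867) (dlOf (nat_lit 1) (nat_lit 0x5600286c0001))) 
(.lf (nat_lit 62185515) (dlOf (nat_lit 2) (nat_lit 0x2d4b6000030200020029970b81))))))) 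
(.nd (nat_lit 28) (.nd (nat_lit 7) (.nd (nat_lit 8) (.nd (nat_lit 26) (.nd (nat_lit 27) 
(.lf (nat_lit 5905899595) (dlOf (nat_lit 1) (nat_lit 0x400400020008160902))) 
(.lf (nat_lit 1208279115) (dlOf (nat_lit 1) (nat_lit 0x400080024002002800080b0603)))) 
(.nd (nat_lit 5) (.lf (nat_lit 6509879371) (dlOf (nat_lit 1) (nat_lit 0x400400020008160902))) 
(.lf (nat_lit 3288653931) (dlOf (nat_lit 1) (nat_lit 0xb0004002600080a1482))))) (.nd (nat_lit 5) 
(.nd (nat_lit 9) (.lf (nat_lit 3221545291) (dlOf (nat_lit 2) (nat_lit 0xc00e00010018138000))) 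
(.lf (nat_lit 60091211) (dlOf (nat_lit 1) (nat_lit 0x8008000400200020009845c03)))) 
(.lf (nat_lit 25485675) (dlOf (nat_lit 1) (nat_lit 0x18008000c00200060008c10a03))))) 
(.nd (nat_lit 20) (.nd (nat_lit 23) 
(.lf (nat_lit 2818896587) (dlOf (nat_lit 1) (nat_lit 0x400400020018128c82))) 
(.lf (nat_lit 8712907) (dlOf (nat_lit 1) (nat_lit 0x400200020008518c82)))) (.nd (nat_lit 5) 
(.lf (nat_lit 20247243) (dlOf (nat_lit 1) (nat_lit 0x4002000200089d8c82))) 
(.lf (nat_lit 20245739) (dlOf (nat_lit 1) (nat_lit 0x200189d6501)))))) (.nd (nat_lit 26) 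
(.nd (nat_lit 31) (.nd (nat_lit 32) (.nd (nat_lit 8) 
(.lf (nat_lit 268755019) (dlOf (nat_lit 3) (nat_lit 0x1e015001180a401a005000300270001f8400610140000d0080060008000400200060008120503))) 
(.lf (nat_lit 805626187) (dlOf (nat_lit 2) (nat_lit 0x7028800074080060008002c00200080008158003)))) 
(.nd (nat_lit 27) 
(.lf (nat_lit 4563722315) (dlOf (nat_lit 1) (nat_lit 0x80080070002001600080d0503))) 
(.lf (nat_lit 4697940043) (dlOf (nat_lit 1) (nat_lit 0x80080070002001600080d0503))))) 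
(.nd (nat_lit 5) (.lf (nat_lit 2550456395) (dlOf (nat_lit 1) (nat_lit 0x200180c1481))) 
(.nd (nat_lit 7) (.lf (nat_lit 4026851435) (dlOf (nat_lit 1) (nat_lit 0xb0004002600080a1482))) 
(.lf (nat_lit 3489983979) (dlOf (nat_lit 1) (nat_lit 0x4400400240008006e82)))))) (.nd (nat_lit 30) 
(.nd (nat_lit 21) (.nd (nat_lit 22) 
(.lf (nat_lit 2483347531) (dlOf (nat_lit 23) (nat_lit 0xe801801ea00bc01e405c000402c047101582b280a4148804e0946021016600c82a9005c14580280348013042f009001c004417a801e0c0600d046800580d700101588002000342600120330022017000880b4048405804d602901ba01380a00084094802e057000f02d50068139802c004401404ea00100140000000c87009500b007c8000000310401aa03101fb016016780000005e0c02c40000002a02000402c0001481033800780009c08007803c0004c040020000000250201a200f003d0000000901003080380002c04005401c00015020ac4010052500700004c1002c0040004c01c0001204002400e0000881018b01502e6004016a401c005600c000080405a000802b380380001e080a18020043000e0000702058e00802ba00380001a0808b402001e000e0000182012000800090038000020805280540a84010042d0070000001801a00080828002074000080c1483)))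 
(.lf (nat_lit 474275915) (dlOf (nat_lit 1) (nat_lit 0x1f000200a20009100602)))) 
(.lf (nat_lit 1009049675) (dlOf (nat_lit 2) (nat_lit 0x203200011c080010008000400200020009020603)))) 
(.nd (nat_lit 7) (.nd (nat_lit 8) 
(.lf (nat_lit 2080694347) (dlOf (nat_lit 1) (nat_lit 0x400080024002002800080b0603))) 
(.lf (nat_lit 1543823691) (dlOf (nat_lit 3) (nat_lit 0x5c01000140050003582002000400110014000d408005c004003a0008188002)))) 
(.lf (nat_lit 3557094091) (dlOf (nat_lit 1) (nat_lit 0x400400020018128c82)))))))) (.nd (nat_lit 21) 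
(.nd (nat_lit 6) (.nd (nat_lit 26) (.nd (nat_lit 23) (.nd (nat_lit 5) (.nd (nat_lit 7) 
(.lf (nat_lit 1343021067) (dlOf (nat_lit 7) (nat_lit 0x1c48e0014f02000823c0008b81000c123800488f0002c2a80011506001e15400020a880045010002891c0014478000fb04000e247000111e0003dc100080008000400200a40008130483))) 
(.lf (nat_lit 537718411) (dlOf (nat_lit 1) (nat_lit 0x200180f7181)))) 
(.lf (nat_lit 21815339) (dlOf (nat_lit 1) (nat_lit 0x120018a70501)))) (.nd (nat_lit 5) 
(.nd (nat_lit 24) (.lf (nat_lit 10280971) (dlOf (nat_lit 1) (nat_lit 0x10002000600085c0482))) 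
(.lf (nat_lit 27058187) (dlOf (nat_lit 2) (nat_lit 0xd8b830031e018ca0480)))) 
(.lf (nat_lit 59564075) (dlOf (nat_lit 1) (nat_lit 0x20019810901))))) (.nd (nat_lit 7) 
(.nd (nat_lit 27) 
(.lf (nat_lit 3557613579) (dlOf (nat_lit 1) (nat_lit 0x18008001c00200020008270103))) 
(.lf (nat_lit 470605835) (dlOf (nat_lit 7) (nat_lit 0x1c48e0014f02000823c0008d81000c123800488f0002c2a80011906001e15400020a880046010002891c0014478000fa04000e247000111e0003dc100080008000400200a40008130483)))) 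
(.nd (nat_lit 27) 
(.lf (nat_lit 4362920075) (dlOf (nat_lit 2) (nat_lit 0xb8000000000400c0002003c00081a0102))) 
(.lf (nat_lit 4228702347) (dlOf (nat_lit 2) (nat_lit 0xb8000000000400c0002003c00081a0102)))))) 
(.nd (nat_lit 7) (.nd (nat_lit 27) (.nd (nat_lit 5) (.nd (nat_lit 8) 
(.lf (nat_lit 9232459) (dlOf (nat_lit 1) (nat_lit 0x2a0018530601))) 
(.lf (nat_lit 4362920267) (dlOf (nat_lit 2) (nat_lit 0x5a0000000000400cc002000200081a0602)))) 
(.lf (nat_lit 69001323) (dlOf (nat_lit 1) (nat_lit 0xc00400020008860a02)))) (.nd (nat_lit 26) 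
(.lf (nat_lit 135061835) (dlOf (nat_lit 2) (nat_lit 0x5f000000000040364002001800081b0602))) 
(.nd (nat_lit 28) 
(.lf (nat_lit 202170699) (dlOf (nat_lit 2) (nat_lit 0x5f000000000040364002001800081b0602))) 
(.lf (nat_lit 4228702539) (dlOf (nat_lit 2) (nat_lit 0x5a0000000000400cc002000200081a0602)))))) 
(.nd (nat_lit 26) (.nd (nat_lit 8) 
(.lf (nat_lit 135061707) (dlOf (nat_lit 2) (nat_lit 0x1e02d8007040800400080030002006200081b0483))) 
(.lf (nat_lit 537718219) (dlOf (nat_lit 1) (nat_lit 0x200180f6d01)))) (.nd (nat_lit 27) 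
(.lf (nat_lit 4362920139) (dlOf (nat_lit 2) (nat_lit 0xa80000047e040008002001c00081a0482))) 
(.nd (nat_lit 28) 
(.lf (nat_lit 202170571) (dlOf (nat_lit 2) (nat_lit 0x1e02e0007040800400080030002006200081b0483))) 
(.lf (nat_lit 4228702411) (dlOf (nat_lit 2) (nat_lit 0xa80000047e040008002001c00081a0482)))))))) 
(.nd (nat_lit 5) (.nd (nat_lit 7) (.nd (nat_lit 20) (.nd (nat_lit 31) (.nd (nat_lit 9) 
(.lf (nat_lit 2940939) (dlOf (nat_lit 1) (nat_lit 0x4200181e0501))) 
(.lf (nat_lit 57469451) (dlOf (nat_lit 1) (nat_lit 0xd0008000c00200060009795003)))) 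
(.nd (nat_lit 26) (.lf (nat_lit 3492601867) (dlOf (nat_lit 2) (nat_lit 0x1201fa003848180e0000))) 
(.lf (nat_lit 2754404363) (dlOf (nat_lit 2) (nat_lit 0x12020f0065b0180e0000))))) (.nd (nat_lit 6) 
(.lf (nat_lit 29155339) (dlOf (nat_lit 1) (nat_lit 0x8008000400200020008dd0603))) 
(.lf (nat_lit 12378443) (dlOf (nat_lit 1) (nat_lit 0x4004000200086c0602))))) (.nd (nat_lit 8) 
(.nd (nat_lit 6) (.nd (nat_lit 20) 
(.lf (nat_lit 23912587) (dlOf (nat_lit 1) (nat_lit 0xc00200020008b80102))) 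
(.lf (nat_lit 12378251) (dlOf (nat_lit 1) (nat_lit 0x80080014002000800086c0103)))) 
(.lf (nat_lit 19722955) (dlOf (nat_lit 1) (nat_lit 0x4002000200089d8c82)))) (.nd (nat_lit 11) 
(.lf (nat_lit 8184203) (dlOf (nat_lit 1) (nat_lit 0x400200020008511002))) 
(.lf (nat_lit 1345120651) (dlOf (nat_lit 1) (nat_lit 0x8008000400200020008a44e83)))))) 
(.nd (nat_lit 7) (.nd (nat_lit 20) (.nd (nat_lit 26) (.nd (nat_lit 28) 
(.lf (nat_lit 2940971) (dlOf (nat_lit 1) (nat_lit 0x200181e0901))) 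
(.lf (nat_lit 3492601899) (dlOf (nat_lit 2) (nat_lit 0x25d0ae00000008029000800dc002000200080e0603)))) 
(.lf (nat_lit 2754404395) (dlOf (nat_lit 2) (nat_lit 0x25d0a900000008029000800dc002000200080e0603)))) 
(.nd (nat_lit 28) (.lf (nat_lit 3989547) (dlOf (nat_lit 1) (nat_lit 0x400400060008260c02))) 
(.lf (nat_lit 3493650475) (dlOf (nat_lit 1) (nat_lit 0x20018190801))))) (.nd (nat_lit 8) 
(.nd (nat_lit 6) (.lf (nat_lit 8189099) (dlOf (nat_lit 1) (nat_lit 0x2400200060008519502))) 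
(.lf (nat_lit 8186091) (dlOf (nat_lit 2) (nat_lit 0x189b00001802000a0008514b01)))) (.nd (nat_lit 9) 
(.lf (nat_lit 49080747) (dlOf (nat_lit 1) (nat_lit 0x8008000400200020009464e83))) 
(.lf (nat_lit 19721131) (dlOf (nat_lit 1) (nat_lit 0xc004000400089d5d02))))))))))) 
(.nd (nat_lit 15) (.nd (nat_lit 5) (.nd (nat_lit 6) (.nd (nat_lit 18) (.nd (nat_lit 28) 
(.nd (nat_lit 20) (.nd (nat_lit 29) (.nd (nat_lit 32) (.nd (nat_lit 7) 
(.lf (nat_lit 14770187) (dlOf (nat_lit 1) (nat_lit 0x400200020008770002))) 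
(.lf (nat_lit 93323) (dlOf (nat_lit 1) (nat_lit 0x20018006181)))) (.nd (nat_lit 26) 
(.lf (nat_lit 6576758795) (dlOf (nat_lit 1) (nat_lit 0x2200080c0681))) 
(.lf (nat_lit 5435908107) (dlOf (nat_lit 1) (nat_lit 0xe0008020001))))) (.nd (nat_lit 7) 
(.nd (nat_lit 19) (.lf (nat_lit 5972779019) (dlOf (nat_lit 1) (nat_lit 0x2200080c0681))) 
(.lf (nat_lit 2819186699) (dlOf (nat_lit 1) (nat_lit 0xa00281e0281)))) (.nd (nat_lit 10) 
(.lf (nat_lit 2753650827) (dlOf (nat_lit 1) (nat_lit 0x400400020008090102))) 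
(.lf (nat_lit 3892405387) (dlOf (nat_lit 1) (nat_lit 0x30008007000200480008102b03)))))) 
(.nd (nat_lit 7) (.nd (nat_lit 22) (.nd (nat_lit 21) 
(.lf (nat_lit 26828811) (dlOf (nat_lit 2) (nat_lit 0x214b400b9d0200040028c80481))) 
(.lf (nat_lit 3760139) (dlOf (nat_lit 2) (nat_lit 0x3e259001d04080170008029c00200120008220003)))) 
(.nd (nat_lit 8) (.lf (nat_lit 24731659) (dlOf (nat_lit 1) (nat_lit 0x20008bb0081))) 
(.lf (nat_lit 58286347) (dlOf (nat_lit 1) (nat_lit 0x4002001000097d7402))))) (.nd (nat_lit 8) 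
(.nd (nat_lit 9) 
(.lf (nat_lit 20542603) (dlOf (nat_lit 3) (nat_lit 0x52a90007c40800415480015e040024002000800089d9502))) 
(.lf (nat_lit 20543115) (dlOf (nat_lit 1) (nat_lit 0x5400089d9e01)))) (.nd (nat_lit 9) 
(.lf (nat_lit 7958923) (dlOf (nat_lit 1) (nat_lit 0x4800400340018518382))) 
(.lf (nat_lit 7960459) (dlOf (nat_lit 1) (nat_lit 0x2001851a301))))))) (.nd (nat_lit 27) 
(.nd (nat_lit 7) (.nd (nat_lit 8) (.nd (nat_lit 19) 
(.lf (nat_lit 1343315979) (dlOf (nat_lit 2) (nat_lit 0xa035a00640e4000d0000018f01801200080240002009e00081e0483))) 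
(.lf (nat_lit 3492372491) (dlOf (nat_lit 1) (nat_lit 0x14800080c0801)))) (.nd (nat_lit 11) 
(.lf (nat_lit 872506635) (dlOf (nat_lit 1) (nat_lit 0x8008000400200020008092f83))) 
(.lf (nat_lit 1342270731) (dlOf (nat_lit 1) (nat_lit 0x6c0028006681))))) (.nd (nat_lit 11) 
(.nd (nat_lit 19) (.lf (nat_lit 335634571) (dlOf (nat_lit 1) (nat_lit 0x20028090381))) 
(.lf (nat_lit 1342791819) (dlOf (nat_lit 2) (nat_lit 0x7022f0001d8180c0100)))) (.nd (nat_lit 8) 
(.lf (nat_lit 3492898955) (dlOf (nat_lit 1) (nat_lit 0xa00280f4801))) 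
(.lf (nat_lit 3490277771) (dlOf (nat_lit 1) (nat_lit 0x400200020008004e82)))))) (.nd (nat_lit 26) 
(.nd (nat_lit 10) (.nd (nat_lit 11) 
(.lf (nat_lit 4697710603) (dlOf (nat_lit 2) (nat_lit 0x4009006ea80802b0008011400200720008090003))) 
(.lf (nat_lit 3623970827) (dlOf (nat_lit 4) (nat_lit 0x3cc08a005e04400f101f006300f0049406e01a603501090000001543807b8114042808801ee03e010601e009100dc041806a022c0000002a07014e01b8001440800d8008013c002000c0008004703)))) 
(.nd (nat_lit 9) 
(.lf (nat_lit 4697711627) (dlOf (nat_lit 4) (nat_lit 0xe201200475010013019801eb00800980cc00f560406d400400560008092882))) 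
(.lf (nat_lit 4697712139) (dlOf (nat_lit 1) (nat_lit 0x20028093681))))) (.nd (nat_lit 7) 
(.nd (nat_lit 19) (.lf (nat_lit 5301690379) (dlOf (nat_lit 1) (nat_lit 0xe0008020001))) 
(.lf (nat_lit 471425035) (dlOf (nat_lit 2) (nat_lit 0x42ca0004602000600182f0501)))) 
(.nd (nat_lit 9) (.lf (nat_lit 470376587) (dlOf (nat_lit 2) (nat_lit 0x7022f0001d8180c0100))) 
(.lf (nat_lit 6377007755) (dlOf (nat_lit 1) (nat_lit 0x400200020008095482)))))))) (.nd (nat_lit 20) 
(.nd (nat_lit 29) (.nd (nat_lit 30) (.nd (nat_lit 19) (.nd (nat_lit 10) (.nd (nat_lit 21) 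
(.lf (nat_lit 2617597963) (dlOf (nat_lit 16) (nat_lit 0x1000c8002be0400b00660015c0202940330011018800300b002a0054014000a000ac8501da019800b80a801e00140015806012c02c000a801000101600053c0800d80b00028204000c062015e02c000a00200350160004fc0800180c400600580013c0400a6033001701600ba00a800b80140013808021c03300be0150004dc1005100cc00e40540013604000602c00410150004d01008d00bc000000400d000400040008100082))) 
(.lf (nat_lit 2449419) (dlOf (nat_lit 1) (nat_lit 0x10008000800200040008160683)))) 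
(.lf (nat_lit 38102027) (dlOf (nat_lit 1) (nat_lit 0x140009132881)))) (.nd (nat_lit 7) 
(.lf (nat_lit 59596811) (dlOf (nat_lit 1) (nat_lit 0x80019810101))) 
(.lf (nat_lit 19753867) (dlOf (nat_lit 1) (nat_lit 0x200289d5c81))))) (.nd (nat_lit 26) 
(.nd (nat_lit 27) 
(.lf (nat_lit 3221577739) (dlOf (nat_lit 1) (nat_lit 0x5f00080080002004a0008150503))) 
(.lf (nat_lit 3355795467) (dlOf (nat_lit 10) (nat_lit 0x9805e006c02d000aa020005017801380b4002a608001405e0015002000a02d000a20100020178005000809a80b4002700402ac05a0013702000202d0009b0100f10168004d00801c8008000800200120008120083)))) 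
(.nd (nat_lit 27) (.lf (nat_lit 3288686603) (dlOf (nat_lit 2) (nat_lit 0x8036004e68180c0800))) 
(.lf (nat_lit 1543856139) (dlOf (nat_lit 5) (nat_lit 0x1e403200d4006008000180410000003c01000b8058010e026008b00c802d001801ec00600ee000000eb06002a01600418098021003200a6006007900180398000003a618086003203ca006020500180390004014c000001cc0a000c00181a0481)))))) 
(.nd (nat_lit 26) (.nd (nat_lit 7) (.nd (nat_lit 27) 
(.lf (nat_lit 805658635) (dlOf (nat_lit 1) (nat_lit 0x400200020008170482))) 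
(.lf (nat_lit 671440907) (dlOf (nat_lit 5) (nat_lit 0x1e403600d40060080001804100000029e1000b8058010e026008b00d802d001801ec00600ee000000a286002a01600418098021003600a60060079001803980000028418086003603ca006020500180390004014c0000013b0a000c00181a0481)))) 
(.nd (nat_lit 27) 
(.lf (nat_lit 5100626059) (dlOf (nat_lit 1) (nat_lit 0x8008001400200040008100f03))) 
(.lf (nat_lit 1745182859) (dlOf (nat_lit 3) (nat_lit 0xb00b00160044000480802a805a0000002000400180c0f01))))) 
(.nd (nat_lit 31) (.nd (nat_lit 7) 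
(.lf (nat_lit 1678073867) (dlOf (nat_lit 1) (nat_lit 0x400200020008170482))) 
(.lf (nat_lit 6241476747) (dlOf (nat_lit 2) (nat_lit 0x2004e0003402000200180f0f01)))) 
(.nd (nat_lit 10) 
(.lf (nat_lit 3959775243) (dlOf (nat_lit 1) (nat_lit 0x5f00080080002004a0008150503))) 
(.lf (nat_lit 2751816715) (dlOf (nat_lit 1) (nat_lit 0x400200020008002882))))))) (.nd (nat_lit 24) 
(.nd (nat_lit 7) (.nd (nat_lit 11) (.nd (nat_lit 19) 
(.lf (nat_lit 471162891) (dlOf (nat_lit 1) (nat_lit 0xc004000200182a0082))) 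
(.lf (nat_lit 39673867) (dlOf (nat_lit 1) (nat_lit 0xc004000e00091c0102)))) 
(.lf (nat_lit 3493160971) (dlOf (nat_lit 5) (nat_lit 0xd40a80002a8100150540001500804602a0000a20402d81b600b60ab000270280f4700)))) 
(.nd (nat_lit 11) (.lf (nat_lit 3498123) (dlOf (nat_lit 1) (nat_lit 0x8008000400200020008200103))) 
(.lf (nat_lit 3493161099) (dlOf (nat_lit 1) (nat_lit 0x7000080f4801))))) (.nd (nat_lit 19) 
(.nd (nat_lit 8) (.nd (nat_lit 23) 
(.lf (nat_lit 18178059) (dlOf (nat_lit 1) (nat_lit 0x40018910601))) 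
(.lf (nat_lit 26566667) (dlOf (nat_lit 1) (nat_lit 0x400200020008c50002)))) 
(.lf (nat_lit 20280075) (dlOf (nat_lit 1) (nat_lit 0x600289d8f81)))) (.nd (nat_lit 22) 
(.lf (nat_lit 29188107) (dlOf (nat_lit 2) (nat_lit 0x9426000490200020018dd0601))) 
(.lf (nat_lit 24993803) (dlOf (nat_lit 1) (nat_lit 0x400400020008bd0a02)))))))) (.nd (nat_lit 7) 
(.nd (nat_lit 18) (.nd (nat_lit 19) (.nd (nat_lit 8) (.nd (nat_lit 20) (.nd (nat_lit 9) 
(.nd (nat_lit 11) (.lf (nat_lit 25256011) (dlOf (nat_lit 2) (nat_lit 0x600000023818bf0d00))) 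
(.lf (nat_lit 939616331) (dlOf (nat_lit 1) (nat_lit 0x20028144701)))) 
(.lf (nat_lit 2416009803) (dlOf (nat_lit 1) (nat_lit 0x20018018d01)))) (.nd (nat_lit 26) 
(.lf (nat_lit 3490799691) (dlOf (nat_lit 1) (nat_lit 0x20028020901))) 
(.lf (nat_lit 2752602187) (dlOf (nat_lit 1) (nat_lit 0x20028020901))))) (.nd (nat_lit 11) 
(.nd (nat_lit 10) 
(.lf (nat_lit 1744920907) (dlOf (nat_lit 1) (nat_lit 0x8008000400200020008090d03))) 
(.lf (nat_lit 4093732171) (dlOf (nat_lit 1) (nat_lit 0x400400060008003302)))) (.nd (nat_lit 9) 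
(.lf (nat_lit 671181131) (dlOf (nat_lit 1) (nat_lit 0x180080010002000e0008144d83))) 
(.lf (nat_lit 474049355) (dlOf (nat_lit 1) (nat_lit 0x1e0029005c01)))))) (.nd (nat_lit 26) 
(.nd (nat_lit 30) (.nd (nat_lit 21) 
(.lf (nat_lit 134832203) (dlOf (nat_lit 6) (nat_lit 0x7007800034020020000000148100010000000a00800480000004e0400b00000002402000600080c1481))) 
(.lf (nat_lit 36266059) (dlOf (nat_lit 1) (nat_lit 0x8008000400200020009050603)))) (.nd (nat_lit 8) 
(.lf (nat_lit 3221839947) (dlOf (nat_lit 7) (nat_lit 0x1dc09801c60450022021000780cc05840120002e0a01c0045002202100b18024000580c060c08c01a00430062020003780e0000541000c007000029020096046000138100f90230000900800f0008002c002003600081a1483))) 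
(.lf (nat_lit 1342792011) (dlOf (nat_lit 2) (nat_lit 0xd88c400090040040002000600080c0602))))) 
(.nd (nat_lit 8) (.nd (nat_lit 21) 
(.lf (nat_lit 3960037451) (dlOf (nat_lit 5) (nat_lit 0xc00a0003f81009d0050001ec080378118000520403fc08c0182045000000281a1880))) 
(.lf (nat_lit 2754175051) (dlOf (nat_lit 2) (nat_lit 0x41fa0003d8180c1880)))) 
(.lf (nat_lit 470376779) (dlOf (nat_lit 2) (nat_lit 0xd88c40009e040040002000600080c0602)))))) 
(.nd (nat_lit 21) (.nd (nat_lit 19) (.nd (nat_lit 20) (.nd (nat_lit 26) 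
(.lf (nat_lit 3892666443) (dlOf (nat_lit 2) (nat_lit 0x3015800a00000004c080030004007e0008180682))) 
(.lf (nat_lit 3154468939) (dlOf (nat_lit 1) (nat_lit 0x400181a0681)))) (.nd (nat_lit 23) 
(.lf (nat_lit 1400907) (dlOf (nat_lit 1) (nat_lit 0x200280c0f81))) 
(.lf (nat_lit 43343947) (dlOf (nat_lit 1) (nat_lit 0x200292a0001))))) (.nd (nat_lit 22) 
(.nd (nat_lit 23) (.lf (nat_lit 69034059) (dlOf (nat_lit 1) (nat_lit 0x20028880601))) 
(.lf (nat_lit 43868235) (dlOf (nat_lit 2) (nat_lit 0xcc0e000a5fb8033b41001e00080138002003a00092a0003)))) 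
(.lf (nat_lit 48062539) (dlOf (nat_lit 1) (nat_lit 0x8008000800200020009400003))))) 
(.nd (nat_lit 25) (.nd (nat_lit 10) (.nd (nat_lit 19) 
(.lf (nat_lit 1344626763) (dlOf (nat_lit 1) (nat_lit 0x3a00288c0001))) 
(.lf (nat_lit 1346199627) (dlOf (nat_lit 2) (nat_lit 0x8857c00801ae001560400020018e60601)))) 
(.lf (nat_lit 1345676363) (dlOf (nat_lit 1) (nat_lit 0xa0018dd2881)))) (.nd (nat_lit 8) 
(.lf (nat_lit 37052491) (dlOf (nat_lit 1) (nat_lit 0x1320009090601))) (.nd (nat_lit 10) 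
(.lf (nat_lit 58024267) (dlOf (nat_lit 1) (nat_lit 0x400097b8801))) 
(.lf (nat_lit 50160971) (dlOf (nat_lit 1) (nat_lit 0x4004000200094c3302)))))))) (.nd (nat_lit 18) 
(.nd (nat_lit 28) (.nd (nat_lit 9) (.nd (nat_lit 10) (.nd (nat_lit 20) 
(.lf (nat_lit 604070091) (dlOf (nat_lit 1) (nat_lit 0x8008004000200280008010483))) 
(.lf (nat_lit 3236043) (dlOf (nat_lit 1) (nat_lit 0x20028200481)))) (.nd (nat_lit 11) 
(.lf (nat_lit 4899038411) (dlOf (nat_lit 1) (nat_lit 0x30008000c00200080008052d83))) 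
(.lf (nat_lit 97483) (dlOf (nat_lit 1) (nat_lit 0x80020002000800c202))))) (.nd (nat_lit 19) 
(.lf (nat_lit 20017867) (dlOf (nat_lit 1) (nat_lit 0x4002000200089d8c82))) (.nd (nat_lit 20) 
(.lf (nat_lit 9007819) (dlOf (nat_lit 1) (nat_lit 0x400200020008518c82))) 
(.lf (nat_lit 7959243) (dlOf (nat_lit 1) (nat_lit 0x20018518c81)))))) (.nd (nat_lit 8) 
(.nd (nat_lit 11) (.nd (nat_lit 26) 
(.lf (nat_lit 1342791883) (dlOf (nat_lit 10) (nat_lit 0x404780023c02000423c0011d0100261178008dc0800108f0004620400084780022f02000423c0011681000211e0008b00800108f00045604002c466000e22d00011150007341802880080194002000600080c0483))) 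
(.lf (nat_lit 470376651) (dlOf (nat_lit 10) (nat_lit 0x404780023c02000423c0011d0100261178008dc0800108f0004620400084780022f02000423c0011681000211e0008b00800108f00045604002c466000e22d00011150007341802880080194002000600080c0483)))) 
(.lf (nat_lit 1342273739) (dlOf (nat_lit 1) (nat_lit 0xc002800a881)))) (.nd (nat_lit 11) 
(.nd (nat_lit 21) 
(.lf (nat_lit 2080465355) (dlOf (nat_lit 16) (nat_lit 0x218050010a00b00120048001141801e00a000c00160010009000218300020148000fc0800100a40007a04024405200d202800900060032802c0006c100234052010202800890060034002c00068100214052010a00c00510058000a81804600a40150050011800c000118300830140040002c000400801a405000d200b0000f82009b014004e002c000380801a405000d200b0000d0200530140029002c0003208032c07200300270000a02003301c8033809c0194014000000603660028091101))) 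
(.lf (nat_lit 1881235915) (dlOf (nat_lit 1) (nat_lit 0x740018e81101)))) (.nd (nat_lit 9) 
(.lf (nat_lit 3556862411) (dlOf (nat_lit 1) (nat_lit 0x900080008002000200080d4e83))) 
(.lf (nat_lit 4563495883) (dlOf (nat_lit 1) (nat_lit 0x34002005a0008095d82))))))) (.nd (nat_lit 8) 
(.nd (nat_lit 19) (.nd (nat_lit 9) (.nd (nat_lit 29) 
(.lf (nat_lit 1208312011) (dlOf (nat_lit 1) (nat_lit 0x200180c1b81))) 
(.lf (nat_lit 2818924747) (dlOf (nat_lit 2) (nat_lit 0xc000000370200120008130481)))) 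
(.lf (nat_lit 20280011) (dlOf (nat_lit 1) (nat_lit 0x80080004002000200089d8c83)))) 
(.nd (nat_lit 26) (.lf (nat_lit 537747659) (dlOf (nat_lit 1) (nat_lit 0x1c00200020008155a82))) 
(.lf (nat_lit 1410162891) (dlOf (nat_lit 1) (nat_lit 0x1c00200020008155a82))))) (.nd (nat_lit 9) 
(.nd (nat_lit 11) (.lf (nat_lit 12411339) (dlOf (nat_lit 2) (nat_lit 0x40000000002003c00086c0981))) 
(.lf (nat_lit 60647883) (dlOf (nat_lit 1) (nat_lit 0x4004000200098c4e82)))) (.nd (nat_lit 11) 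
(.lf (nat_lit 58549195) (dlOf (nat_lit 2) (nat_lit 0xa740002ef0197e2880))) 
(.lf (nat_lit 2349169611) (dlOf (nat_lit 1) (nat_lit 0x100080008002000a00080fbe83))))))))) 
(.nd (nat_lit 28) (.nd (nat_lit 19) (.nd (nat_lit 6) (.nd (nat_lit 18) (.nd (nat_lit 7) 
(.nd (nat_lit 22) (.nd (nat_lit 8) 
(.lf (nat_lit 2752602155) (dlOf (nat_lit 2) (nat_lit 0x182b8000000200020028020501))) 
(.nd (nat_lit 9) 
(.lf (nat_lit 671181099) (dlOf (nat_lit 1) (nat_lit 0x69000803a000200a00008144b83))) 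
(.lf (nat_lit 97067) (dlOf (nat_lit 2) (nat_lit 0x427480152808002000800100020012000800bc83))))) 
(.nd (nat_lit 20) (.nd (nat_lit 21) 
(.lf (nat_lit 21061675) (dlOf (nat_lit 1) (nat_lit 0x180018a00b01))) 
(.lf (nat_lit 14770219) (dlOf (nat_lit 3) (nat_lit 0x3c58300222498000bc10014960c00209260002e0400040028770381)))) 
(.lf (nat_lit 13721643) (dlOf (nat_lit 2) (nat_lit 0x38290800b8f640006408000800200020008740602))))) 
(.nd (nat_lit 8) (.nd (nat_lit 9) 
(.lf (nat_lit 3825298603) (dlOf (nat_lit 1) (nat_lit 0x60028146281))) (.nd (nat_lit 11) 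
(.lf (nat_lit 201418411) (dlOf (nat_lit 1) (nat_lit 0x40028003a81))) 
(.lf (nat_lit 93867) (dlOf (nat_lit 1) (nat_lit 0x2c0018007281))))) (.nd (nat_lit 9) 
(.nd (nat_lit 11) (.lf (nat_lit 2348900779) (dlOf (nat_lit 1) (nat_lit 0x10002000c0008017182))) 
(.lf (nat_lit 49375659) (dlOf (nat_lit 1) (nat_lit 0x20009464e81)))) 
(.lf (nat_lit 8480683) (dlOf (nat_lit 1) (nat_lit 0x13800400020008514302)))))) (.nd (nat_lit 27) 
(.nd (nat_lit 20) (.nd (nat_lit 8) 
(.lf (nat_lit 4362428459) (dlOf (nat_lit 8) (nat_lit 0xf140b8046405b017f02d0038015c0f4c0a807c805302a7029015a014403a8096050204702500230001810c0a8c0820002036006901980e700c802e8062036602d00ce0140121806009dc000000102a00e4053019a02380e500cc009c05a0000f08008805d023002c00e9015c0b540a60560051022d02781a0011c0014084055c041006a01c002c80d8000406805180330027019016380c404f40280000e20051e0330000681000802e001001500a200a603940470026018800020281ab817008f00a6027004700a500c00000c200dd80cc00000040c7000402f20008070802)))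 
(.lf (nat_lit 1610965291) (dlOf (nat_lit 1) (nat_lit 0x200080a5a01)))) (.nd (nat_lit 21) 
(.lf (nat_lit 26566699) (dlOf (nat_lit 2) (nat_lit 0x3528a00005804000400400020018c50382))) 
(.nd (nat_lit 23) 
(.lf (nat_lit 24469547) (dlOf (nat_lit 1) (nat_lit 0x1b0008003c00200020008ba0a03))) 
(.lf (nat_lit 16080939) (dlOf (nat_lit 1) (nat_lit 0x1800028860801)))))) (.nd (nat_lit 26) 
(.nd (nat_lit 29) 
(.lf (nat_lit 3355795499) (dlOf (nat_lit 1) (nat_lit 0x980080024002001c0008120783))) 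
(.nd (nat_lit 30) (.lf (nat_lit 671440939) (dlOf (nat_lit 1) (nat_lit 0x400281a0601))) 
(.lf (nat_lit 3892666411) (dlOf (nat_lit 2) (nat_lit 0x1402b00001818180380))))) 
(.lf (nat_lit 3959775275) (dlOf (nat_lit 2) (nat_lit 0x1017800400500000008000800200160008150802)))))) 
(.nd (nat_lit 7) (.nd (nat_lit 27) (.nd (nat_lit 8) 
(.lf (nat_lit 95339) (dlOf (nat_lit 1) (nat_lit 0x2c0018009401))) (.nd (nat_lit 18) 
(.lf (nat_lit 3221315947) (dlOf (nat_lit 1) (nat_lit 0x1c0018090701))) 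
(.lf (nat_lit 25518443) (dlOf (nat_lit 3) (nat_lit 0xb6100004a040009b08000240200380028c10a01))))) 
(.nd (nat_lit 8) 
(.lf (nat_lit 1208049771) (dlOf (nat_lit 1) (nat_lit 0x1080080008002000e0008090183))) 
(.nd (nat_lit 11) (.lf (nat_lit 3959513451) (dlOf (nat_lit 1) (nat_lit 0x1c0018090701))) 
(.lf (nat_lit 738290027) (dlOf (nat_lit 1) (nat_lit 0x188008009400200260008094e83)))))) 
(.nd (nat_lit 10) (.nd (nat_lit 9) (.lf (nat_lit 92395) (dlOf (nat_lit 1) (nat_lit 0x40018004b01))) 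
(.nd (nat_lit 24) (.lf (nat_lit 3758189291) (dlOf (nat_lit 1) (nat_lit 0x4002000200080d5a02))) 
(.lf (nat_lit 50424555) (dlOf (nat_lit 1) (nat_lit 0x200294c5a01))))) (.nd (nat_lit 11) 
(.lf (nat_lit 4899038443) (dlOf (nat_lit 1) (nat_lit 0x400400180018052e82))) (.nd (nat_lit 12) 
(.lf (nat_lit 20278507) (dlOf (nat_lit 1) (nat_lit 0xc004000200089d6502))) 
(.lf (nat_lit 97515) (dlOf (nat_lit 1) (nat_lit 0x40020002000800c602)))))))) (.nd (nat_lit 21) 
(.nd (nat_lit 10) (.nd (nat_lit 18) (.nd (nat_lit 29) (.nd (nat_lit 27) 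
(.lf (nat_lit 3221839915) (dlOf (nat_lit 5) (nat_lit 0x18d01f00d2003801bc01800140040011000000064280c700f8069c01c00080040036000000060200d280f8066001c015c00c004b000000058200c280f8065c01c000a004001b0000000502001200080328002005600081a0c03))) 
(.lf (nat_lit 134832171) (dlOf (nat_lit 5) (nat_lit 0x1a20000000c8100110000000600805a00000002c0400100000001402001c00080c0c01)))) 
(.nd (nat_lit 26) 
(.lf (nat_lit 3892928555) (dlOf (nat_lit 3) (nat_lit 0x15005800a800a0000604001006000d702a0033013002040940152033008401880310058003402800520050008001000000500498008004c002001e0008290e03))) 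
(.lf (nat_lit 3960037419) (dlOf (nat_lit 4) (nat_lit 0x7c01f002700380003208020c07c00a600e0000b02000c0070000500802000080048002002a00081a0d03))))) 
(.nd (nat_lit 6) (.nd (nat_lit 22) 
(.lf (nat_lit 59596843) (dlOf (nat_lit 1) (nat_lit 0x80019810901))) 
(.lf (nat_lit 21848107) (dlOf (nat_lit 1) (nat_lit 0x60008a70501)))) 
(.lf (nat_lit 69034091) (dlOf (nat_lit 1) (nat_lit 0x4c0018880a01))))) (.nd (nat_lit 6) 
(.nd (nat_lit 8) (.lf (nat_lit 620203) (dlOf (nat_lit 1) (nat_lit 0x2002800a001))) 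
(.lf (nat_lit 619947) (dlOf (nat_lit 5) (nat_lit 0x6a9e00a4602000b54f00522810008aa78028f008000d53c0147404000400400040018009902)))) 
(.nd (nat_lit 7) (.lf (nat_lit 34169963) (dlOf (nat_lit 1) (nat_lit 0x20008fb2981))) 
(.lf (nat_lit 617707) (dlOf (nat_lit 2) (nat_lit 0x276940005a040020004001c0018006502)))))) 
(.nd (nat_lit 20) (.nd (nat_lit 18) (.nd (nat_lit 23) 
(.lf (nat_lit 2754175019) (dlOf (nat_lit 5) (nat_lit 0x2b0fc000785640003208003c3f000018020002201000b0fc000685640002c0c01683f00001402004400280c0d01))) 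
(.lf (nat_lit 27877419) (dlOf (nat_lit 1) (nat_lit 0x400400020008d40702)))) (.nd (nat_lit 23) 
(.lf (nat_lit 2754437163) (dlOf (nat_lit 1) (nat_lit 0x200180e0601))) 
(.lf (nat_lit 11362347) (dlOf (nat_lit 1) (nat_lit 0x9c004001e0008690602))))) (.nd (nat_lit 6) 
(.nd (nat_lit 9) (.lf (nat_lit 3760171) (dlOf (nat_lit 1) (nat_lit 0x40008220a01))) 
(.lf (nat_lit 20537899) (dlOf (nat_lit 1) (nat_lit 0x200189d1481)))) (.nd (nat_lit 7) 
(.lf (nat_lit 45703275) (dlOf (nat_lit 1) (nat_lit 0xc0009351e81))) 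
(.lf (nat_lit 7959787) (dlOf (nat_lit 1) (nat_lit 0x8008001c00200020008519503)))))))) 
(.nd (nat_lit 18) (.nd (nat_lit 6) (.nd (nat_lit 7) (.nd (nat_lit 31) (.nd (nat_lit 8) 
(.nd (nat_lit 9) (.lf (nat_lit 1343316011) (dlOf (nat_lit 2) (nat_lit 0x2d61ad000258181e0680))) 
(.lf (nat_lit 4563495467) (dlOf (nat_lit 2) (nat_lit 0x80330011a018095180)))) 
(.lf (nat_lit 872506667) (dlOf (nat_lit 1) (nat_lit 0x400200020008093182)))) (.nd (nat_lit 19) 
(.lf (nat_lit 3490799659) (dlOf (nat_lit 2) (nat_lit 0x182ae000000200020028020501))) 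
(.nd (nat_lit 21) (.lf (nat_lit 4228472875) (dlOf (nat_lit 1) (nat_lit 0x1c002000e00080d0e02))) 
(.lf (nat_lit 3492372523) (dlOf (nat_lit 9) (nat_lit 0x2898798000320414683cc0001802099c1e60000b0100910f30000540827f8798000280400503cc0001302007c1e6000058100050f30000000804300080170002000200080c0c03)))))) 
(.nd (nat_lit 9) (.nd (nat_lit 8) 
(.lf (nat_lit 2080465067) (dlOf (nat_lit 2) (nat_lit 0x5601600000018090600))) 
(.lf (nat_lit 5637237163) (dlOf (nat_lit 1) (nat_lit 0xe0028054e81)))) (.nd (nat_lit 10) 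
(.lf (nat_lit 5771455403) (dlOf (nat_lit 1) (nat_lit 0xc0018005d01))) 
(.lf (nat_lit 3087099819) (dlOf (nat_lit 1) (nat_lit 0x33000800e800200860008144303)))))) 
(.nd (nat_lit 11) (.nd (nat_lit 8) (.nd (nat_lit 7) 
(.lf (nat_lit 1881759851) (dlOf (nat_lit 1) (nat_lit 0x10008002400200020009000a03))) 
(.nd (nat_lit 10) (.lf (nat_lit 474570987) (dlOf (nat_lit 1) (nat_lit 0x3c004002600091a1e82))) 
(.lf (nat_lit 5772502251) (dlOf (nat_lit 1) (nat_lit 0x400200020008092e82))))) (.nd (nat_lit 26) 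
(.lf (nat_lit 2550227435) (dlOf (nat_lit 1) (nat_lit 0xa0008017301))) 
(.lf (nat_lit 2483118571) (dlOf (nat_lit 1) (nat_lit 0x20008017301))))) (.nd (nat_lit 10) 
(.nd (nat_lit 7) (.lf (nat_lit 939616363) (dlOf (nat_lit 1) (nat_lit 0x400400020008144702))) 
(.nd (nat_lit 31) 
(.lf (nat_lit 939616491) (dlOf (nat_lit 1) (nat_lit 0x8008000400200020008144b03))) 
(.lf (nat_lit 3087100139) (dlOf (nat_lit 1) (nat_lit 0x8008000400200020008144b03))))) 
(.nd (nat_lit 8) 
(.lf (nat_lit 1342270699) (dlOf (nat_lit 3) (nat_lit 0x304a0000c80800789300005a04001c00200040008006502))) 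
(.lf (nat_lit 1543597547) (dlOf (nat_lit 3) (nat_lit 0x803200060030000682000400c8002800c000000800a4004001e0018146e82))))))) 
(.nd (nat_lit 26) (.nd (nat_lit 27) (.nd (nat_lit 19) (.nd (nat_lit 6) (.nd (nat_lit 31) 
(.lf (nat_lit 1879400491) (dlOf (nat_lit 1) (nat_lit 0x10008000400200040008120c03))) 
(.lf (nat_lit 4026884139) (dlOf (nat_lit 3) (nat_lit 0x840060002202006802e0000e8180c0d00)))) 
(.lf (nat_lit 3490016619) (dlOf (nat_lit 1) (nat_lit 0x400200020008006b02)))) (.nd (nat_lit 21) 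
(.lf (nat_lit 1343053867) (dlOf (nat_lit 2) (nat_lit 0x640f7003585e40009e08000c00200020008140602))) 
(.lf (nat_lit 3492634667) (dlOf (nat_lit 1) (nat_lit 0x200180e0601))))) (.nd (nat_lit 29) 
(.nd (nat_lit 6) 
(.lf (nat_lit 2550489131) (dlOf (nat_lit 1) (nat_lit 0x80080004002000400080c0c03))) 
(.lf (nat_lit 3624234219) (dlOf (nat_lit 1) (nat_lit 0x3800200100008146502)))) (.nd (nat_lit 31) 
(.lf (nat_lit 6308585515) (dlOf (nat_lit 1) (nat_lit 0x10008000c00200040008120d03))) 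
(.lf (nat_lit 4161101867) (dlOf (nat_lit 2) (nat_lit 0x80ac0006404000800200040008130602)))))) 
(.nd (nat_lit 30) (.nd (nat_lit 6) (.nd (nat_lit 19) 
(.lf (nat_lit 2617597995) (dlOf (nat_lit 3) (nat_lit 0x1a02c00da681000d016006cdc0800b8008008000200300008100783))) 
(.lf (nat_lit 470638635) (dlOf (nat_lit 2) (nat_lit 0x640f7003586080009008000c00200020008140602)))) 
(.lf (nat_lit 1007512811) (dlOf (nat_lit 2) (nat_lit 0x100000003202000200283d6501)))) 
(.nd (nat_lit 27) (.nd (nat_lit 8) 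
(.lf (nat_lit 5704605739) (dlOf (nat_lit 1) (nat_lit 0x10008000c00200040008120d03))) 
(.lf (nat_lit 3557122347) (dlOf (nat_lit 1) (nat_lit 0x4004009e0018130702)))) (.nd (nat_lit 29) 
(.lf (nat_lit 1543856171) (dlOf (nat_lit 1) (nat_lit 0x400281a0601))) 
(.lf (nat_lit 4228210731) (dlOf (nat_lit 6) (nat_lit 0x17402a80bc813407b4098005c04b003f025009e010000f007e005e03a0101019000480b000e00000001016012e040004b01900003c1008401300bdc0640000e0405820320000681013002a80000c080010008006400200100008070903)))))))))) 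
(.nd (nat_lit 18) (.nd (nat_lit 6) (.nd (nat_lit 19) (.nd (nat_lit 5) (.nd (nat_lit 7) 
(.nd (nat_lit 27) (.nd (nat_lit 9) (.nd (nat_lit 28) 
(.lf (nat_lit 5435940875) (dlOf (nat_lit 1) (nat_lit 0x1c00200040008040002))) 
(.lf (nat_lit 2483150859) (dlOf (nat_lit 1) (nat_lit 0x18008000c00200060008030483)))) 
(.nd (nat_lit 12) 
(.lf (nat_lit 3556895243) (dlOf (nat_lit 2) (nat_lit 0xe0248000a00800600080018002000400080d5003))) 
(.lf (nat_lit 1677851147) (dlOf (nat_lit 1) (nat_lit 0x2c0040032001811b282))))) (.nd (nat_lit 10) 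
(.nd (nat_lit 28) 
(.lf (nat_lit 2348933131) (dlOf (nat_lit 1) (nat_lit 0x18008000c00200060008030483))) 
(.lf (nat_lit 5301723147) (dlOf (nat_lit 1) (nat_lit 0x1c00200040008040002)))) 
(.lf (nat_lit 3087131659) (dlOf (nat_lit 1) (nat_lit 0x160028142881))))) (.nd (nat_lit 26) 
(.nd (nat_lit 20) (.nd (nat_lit 21) 
(.lf (nat_lit 5368832139) (dlOf (nat_lit 7) (nat_lit 0x10c015038100a01c0004c0bd0022014001000a50070000d830023005c037c02c01a4015000600a0007004c001002401cc010001e00780798038040001000a200100090000000d46004380540da402806cc01302d500880410040021c01c000340c000801400160098000b81004900540df8028070001302f40088051804002a001c0002b0c00ec014007100980160044000540c000800400040018030f02))) 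
(.lf (nat_lit 2220171) (dlOf (nat_lit 1) (nat_lit 0x220028150101)))) 
(.lf (nat_lit 3268747) (dlOf (nat_lit 2) (nat_lit 0x864960001d818200100)))) (.nd (nat_lit 10) 
(.nd (nat_lit 27) 
(.lf (nat_lit 5167505547) (dlOf (nat_lit 4) (nat_lit 0x8050001a0220001b02000a0110000d00800e805c0006404003c004002e0018070f02))) 
(.lf (nat_lit 5033287819) (dlOf (nat_lit 2) (nat_lit 0x28042000360200040028030f01)))) 
(.lf (nat_lit 6509685899) (dlOf (nat_lit 1) (nat_lit 0xc004000a0018146182)))))) (.nd (nat_lit 26) 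
(.nd (nat_lit 23) (.nd (nat_lit 7) (.nd (nat_lit 27) 
(.lf (nat_lit 4026654763) (dlOf (nat_lit 1) (nat_lit 0x10008008c00202660008020503))) 
(.lf (nat_lit 1476517931) (dlOf (nat_lit 2) (nat_lit 0x80000000004000800200020008010002)))) 
(.lf (nat_lit 5905704619) (dlOf (nat_lit 1) (nat_lit 0xa0018143a81)))) (.nd (nat_lit 9) 
(.nd (nat_lit 22) (.lf (nat_lit 25288747) (dlOf (nat_lit 2) (nat_lit 0x70de000340200020018bf0a81))) 
(.lf (nat_lit 12705835) (dlOf (nat_lit 2) (nat_lit 0xb3140001c80800400080004002000400086d0983)))) 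
(.lf (nat_lit 11657771) (dlOf (nat_lit 1) (nat_lit 0x4c002000e00086c0e82))))) (.nd (nat_lit 28) 
(.nd (nat_lit 27) 
(.lf (nat_lit 3288457259) (dlOf (nat_lit 1) (nat_lit 0x10008008c00202660008020503))) 
(.lf (nat_lit 2348933163) (dlOf (nat_lit 1) (nat_lit 0x20008030b81)))) (.nd (nat_lit 8) 
(.lf (nat_lit 2483150891) (dlOf (nat_lit 1) (nat_lit 0x20008030b81))) 
(.lf (nat_lit 872539435) (dlOf (nat_lit 1) (nat_lit 0x8008000400200020008093183))))))) 
(.nd (nat_lit 5) (.nd (nat_lit 23) (.nd (nat_lit 20) (.nd (nat_lit 27) (.nd (nat_lit 11) 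
(.lf (nat_lit 21618699) (dlOf (nat_lit 1) (nat_lit 0x8008000400200020008a50083))) 
(.lf (nat_lit 649227) (dlOf (nat_lit 1) (nat_lit 0x80008004701)))) (.nd (nat_lit 26) 
(.lf (nat_lit 134864907) (dlOf (nat_lit 2) (nat_lit 0x8025000600bc000fe08012c002010c00080d0482))) 
(.lf (nat_lit 201973771) (dlOf (nat_lit 2) (nat_lit 0x8025000600bc000fe08012c002010c00080d0482))))) 
(.nd (nat_lit 7) (.nd (nat_lit 21) 
(.lf (nat_lit 471457803) (dlOf (nat_lit 1) (nat_lit 0x400400020008300582))) 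
(.lf (nat_lit 3792907) (dlOf (nat_lit 5) (nat_lit 0x1ed480017694001bb3e000bd4200406040001ed48001f694001bb3e000dd4200405840005ed48001f694001bb3e000dd4200405040006ed480027694001bb3e000dd4200404848220000)))) 
(.lf (nat_lit 7992971) (dlOf (nat_lit 1) (nat_lit 0x8008000400200020008519e03))))) (.nd (nat_lit 7) 
(.nd (nat_lit 25) (.nd (nat_lit 8) 
(.lf (nat_lit 13230091) (dlOf (nat_lit 1) (nat_lit 0x20002000c0008710a02))) 
(.lf (nat_lit 9040651) (dlOf (nat_lit 1) (nat_lit 0x2c00200380008518f82)))) (.nd (nat_lit 24) 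
(.lf (nat_lit 42590219) (dlOf (nat_lit 1) (nat_lit 0x400400140019260002))) 
(.lf (nat_lit 59367435) (dlOf (nat_lit 1) (nat_lit 0x200297f0001))))) (.nd (nat_lit 24) 
(.lf (nat_lit 12181643) (dlOf (nat_lit 1) (nat_lit 0x20002000200086c0102))) 
(.lf (nat_lit 28958859) (dlOf (nat_lit 1) (nat_lit 0xba0028da0481)))))) (.nd (nat_lit 28) 
(.nd (nat_lit 20) (.nd (nat_lit 7) (.nd (nat_lit 26) 
(.lf (nat_lit 3221872683) (dlOf (nat_lit 4) (nat_lit 0x72007003280300003208001c01c0001802001a00e00050060000581000b000800cc002005200081a0c03))) 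
(.lf (nat_lit 3960070187) (dlOf (nat_lit 3) (nat_lit 0xbe03e000c00e002f0038000320c018c07c009e01c005a0070000581800980080008002004800081a0d03)))) 
(.lf (nat_lit 9041323) (dlOf (nat_lit 1) (nat_lit 0x20018519901)))) (.nd (nat_lit 8) 
(.nd (nat_lit 10) (.lf (nat_lit 26861611) (dlOf (nat_lit 1) (nat_lit 0x20028c80681))) 
(.lf (nat_lit 58319915) (dlOf (nat_lit 1) (nat_lit 0x80080004002000200097e2883)))) 
(.lf (nat_lit 7988011) (dlOf (nat_lit 1) (nat_lit 0x8008000400200020008512203))))) 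
(.nd (nat_lit 26) (.nd (nat_lit 21) 
(.lf (nat_lit 805953579) (dlOf (nat_lit 3) (nat_lit 0x801c0005402000400e000b0000000cc100050008000c002000a0008200c03))) 
(.lf (nat_lit 3492405291) (dlOf (nat_lit 3) (nat_lit 0xe044000120100040220000880800180080008002000200080c0c03)))) 
(.nd (nat_lit 27) (.lf (nat_lit 3557417003) (dlOf (nat_lit 1) (nat_lit 0x4004000200181f0802))) 
(.nd (nat_lit 29) (.lf (nat_lit 470409259) (dlOf (nat_lit 1) (nat_lit 0x200180e0a01))) 
(.lf (nat_lit 3154763819) (dlOf (nat_lit 1) (nat_lit 0x20008002800200060008320e03))))))))) 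
(.nd (nat_lit 29) (.nd (nat_lit 19) (.nd (nat_lit 26) (.nd (nat_lit 5) (.nd (nat_lit 7) 
(.nd (nat_lit 8) (.nd (nat_lit 22) 
(.lf (nat_lit 25288779) (dlOf (nat_lit 2) (nat_lit 0x14c8b001be1c00008e08003000400180008bf0d02))) 
(.lf (nat_lit 12705867) (dlOf (nat_lit 1) (nat_lit 0x80080004002000200086d0f03)))) 
(.lf (nat_lit 3268939) (dlOf (nat_lit 1) (nat_lit 0x400400020008200602)))) (.nd (nat_lit 9) 
(.nd (nat_lit 11) 
(.lf (nat_lit 5503049931) (dlOf (nat_lit 2) (nat_lit 0x60098000d0080040008003400200180008031783))) 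
(.lf (nat_lit 20052171) (dlOf (nat_lit 1) (nat_lit 0x1800289da881)))) 
(.lf (nat_lit 20050635) (dlOf (nat_lit 1) (nat_lit 0x80080004002000200089d8c83))))) 
(.nd (nat_lit 8) (.nd (nat_lit 9) 
(.lf (nat_lit 6442575979) (dlOf (nat_lit 1) (nat_lit 0x1c002000800080f4702))) 
(.lf (nat_lit 8516203) (dlOf (nat_lit 1) (nat_lit 0x400200020008518982)))) 
(.lf (nat_lit 3221351787) (dlOf (nat_lit 1) (nat_lit 0x8008001c002003c0008116b03))))) 
(.nd (nat_lit 27) (.nd (nat_lit 28) (.nd (nat_lit 31) 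
(.lf (nat_lit 5435940939) (dlOf (nat_lit 3) (nat_lit 0x680fc008407c002a03a002001a800d8000000d414006407c001203a000201a8001a41802280080144002000e0008040503))) 
(.lf (nat_lit 3288457291) (dlOf (nat_lit 2) (nat_lit 0x200d80090204000400400020018020902)))) 
(.lf (nat_lit 2483150923) (dlOf (nat_lit 4) (nat_lit 0x4b008002400380004c0800180540002502001801000012018030f80)))) 
(.nd (nat_lit 5) 
(.lf (nat_lit 2348933195) (dlOf (nat_lit 4) (nat_lit 0x4b008002400380004c0800180540002502001801000012018030f80))) 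
(.lf (nat_lit 1543630315) (dlOf (nat_lit 3) (nat_lit 0x30130003006400c8006000600100020000000342800f0098001403200620030002000000000200158008002400200300008146e83)))))) 
(.nd (nat_lit 23) (.nd (nat_lit 26) (.nd (nat_lit 9) (.nd (nat_lit 27) 
(.lf (nat_lit 3221872715) (dlOf (nat_lit 3) (nat_lit 0x1680240005c0400080700002a02000600181a1481))) 
(.lf (nat_lit 134864971) (dlOf (nat_lit 2) (nat_lit 0x4100c4000ac0400bc004005e00080d0d02)))) 
(.lf (nat_lit 34204235) (dlOf (nat_lit 1) (nat_lit 0x7800400020008fb5282)))) (.nd (nat_lit 5) 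
(.lf (nat_lit 201973835) (dlOf (nat_lit 2) (nat_lit 0x4100c40009e0400bc004005e00080d0d02))) 
(.lf (nat_lit 472506475) (dlOf (nat_lit 2) (nat_lit 0x270b48000980800400080028002001a0008991b03))))) 
(.nd (nat_lit 9) (.nd (nat_lit 20) 
(.lf (nat_lit 42590283) (dlOf (nat_lit 1) (nat_lit 0x20019260601))) 
(.lf (nat_lit 43638859) (dlOf (nat_lit 2) (nat_lit 0xe5798033b40800180080020002000600092a0003)))) 
(.lf (nat_lit 32107083) (dlOf (nat_lit 2) (nat_lit 0xd826000370200020008ef5281)))))) 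
(.nd (nat_lit 7) (.nd (nat_lit 11) (.nd (nat_lit 19) (.nd (nat_lit 32) (.nd (nat_lit 21) 
(.lf (nat_lit 4026654795) (dlOf (nat_lit 2) (nat_lit 0x200d80144404000400400020018020902))) 
(.lf (nat_lit 1881268299) (dlOf (nat_lit 2) (nat_lit 0x406200676818e80000)))) (.nd (nat_lit 8) 
(.lf (nat_lit 5301723211) (dlOf (nat_lit 3) (nat_lit 0x680fc008407c002a03a002001b800d8000000c214006407c001203a000201b8001801802280080144002000e0008040503))) 
(.lf (nat_lit 5905704779) (dlOf (nat_lit 2) (nat_lit 0x480940002c04000800200040008143e82))))) 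
(.nd (nat_lit 20) 
(.lf (nat_lit 805953611) (dlOf (nat_lit 2) (nat_lit 0x680ac000130200580028201481))) 
(.lf (nat_lit 4095336523) (dlOf (nat_lit 1) (nat_lit 0x80028090501))))) (.nd (nat_lit 8) 
(.nd (nat_lit 5) (.lf (nat_lit 805432907) (dlOf (nat_lit 1) (nat_lit 0x400200020008117182))) 
(.lf (nat_lit 939649131) (dlOf (nat_lit 1) (nat_lit 0x2c0028144701)))) (.nd (nat_lit 10) 
(.nd (nat_lit 12) 
(.lf (nat_lit 671213899) (dlOf (nat_lit 3) (nat_lit 0x1401c0000b01000400e000014080048008000400200140008144d83))) 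
(.lf (nat_lit 2751592779) (dlOf (nat_lit 1) (nat_lit 0x80080068002001c000800ab83)))) 
(.lf (nat_lit 805436747) (dlOf (nat_lit 1) (nat_lit 0x9000800140020006000811c903)))))) 
(.nd (nat_lit 11) (.nd (nat_lit 10) (.nd (nat_lit 26) (.nd (nat_lit 9) 
(.lf (nat_lit 1610736075) (dlOf (nat_lit 1) (nat_lit 0x800804f000203ae0008091103))) 
(.lf (nat_lit 1610736587) (dlOf (nat_lit 1) (nat_lit 0x60018092881)))) (.nd (nat_lit 30) 
(.lf (nat_lit 2751587275) (dlOf (nat_lit 1) (nat_lit 0x400200020008002882))) 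
(.lf (nat_lit 1677845451) (dlOf (nat_lit 1) (nat_lit 0x20008112881))))) (.nd (nat_lit 5) 
(.lf (nat_lit 1677846475) (dlOf (nat_lit 1) (nat_lit 0x8008000c00200060008114483))) 
(.lf (nat_lit 1677846507) (dlOf (nat_lit 1) (nat_lit 0x20018114601))))) (.nd (nat_lit 5) 
(.nd (nat_lit 9) (.lf (nat_lit 805436619) (dlOf (nat_lit 1) (nat_lit 0x4002811c201))) 
(.lf (nat_lit 6377564875) (dlOf (nat_lit 1) (nat_lit 0x15800280e5801)))) (.nd (nat_lit 8) 
(.lf (nat_lit 1611262699) (dlOf (nat_lit 2) (nat_lit 0x381680005004003000200120008125a02))) 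
(.nd (nat_lit 9) (.lf (nat_lit 1677851115) (dlOf (nat_lit 1) (nat_lit 0x100020010000811b282))) 
(.lf (nat_lit 738323435) (dlOf (nat_lit 1) (nat_lit 0x400200020008095e82)))))))))) 
(.nd (nat_lit 28) (.nd (nat_lit 5) (.nd (nat_lit 6) (.nd (nat_lit 7) (.nd (nat_lit 29) 
(.nd (nat_lit 22) (.nd (nat_lit 26) (.nd (nat_lit 21) 
(.lf (nat_lit 3355828235) (dlOf (nat_lit 5) (nat_lit 0x9005e005802d000aa0200080178005400800180bc0028004010805a001380200180028120081))) 
(.lf (nat_lit 2482187) (dlOf (nat_lit 1) (nat_lit 0x42800802b800201cc0008160683)))) 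
(.nd (nat_lit 19) 
(.lf (nat_lit 6509944843) (dlOf (nat_lit 3) (nat_lit 0x30098004002e00115040006026000c00b80045010000800800c000200460008170483))) 
(.lf (nat_lit 68018187) (dlOf (nat_lit 1) (nat_lit 0x10004000e00183a0082))))) (.nd (nat_lit 10) 
(.lf (nat_lit 29745163) (dlOf (nat_lit 1) (nat_lit 0x40028e30001))) 
(.lf (nat_lit 38134795) (dlOf (nat_lit 1) (nat_lit 0x100009132881))))) (.nd (nat_lit 27) 
(.nd (nat_lit 30) 
(.lf (nat_lit 537255947) (dlOf (nat_lit 9) (nat_lit 0x800aa00560310019382001e02a801380c40064a080034062002db0200900540046022800b4410001017c018409800500360013583000e02b80228130004d208003c0be0024902002604b00100180000001003e0008015400200420008070503))) 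
(.lf (nat_lit 5905965067) (dlOf (nat_lit 3) (nat_lit 0x30094004002e00119040006025000c00b80046010000800800c000200460008170483)))) 
(.lf (nat_lit 3892699147) (dlOf (nat_lit 2) (nat_lit 0x7a011802000540179e080068004002800081d0482))))) 
(.nd (nat_lit 19) (.nd (nat_lit 20) (.nd (nat_lit 22) (.nd (nat_lit 26) 
(.lf (nat_lit 1208344715) (dlOf (nat_lit 2) (nat_lit 0x80c000048040014004000400080c0f02))) 
(.lf (nat_lit 604364939) (dlOf (nat_lit 2) (nat_lit 0x5a0160007c0181a0480)))) 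
(.lf (nat_lit 21356683) (dlOf (nat_lit 4) (nat_lit 0x3c8b0001b01000fed8001876a80113b500037da60012ed20018768000bfb3c0007d58001eea20000f37800379ba0011cdc000ee6d800d7360003b9ae005fccc0044d8f0017ec7000f7588005fac2000786d00033a44000dce6002cdc0000a6348000d4c8008dcb80015d90000320400120028a30f01)))) 
(.lf (nat_lit 3530891) (dlOf (nat_lit 1) (nat_lit 0x400200020008200102)))) (.nd (nat_lit 8) 
(.lf (nat_lit 6152331) (dlOf (nat_lit 1) (nat_lit 0x20018420481))) 
(.lf (nat_lit 19787659) (dlOf (nat_lit 1) (nat_lit 0x4002000200089d7782)))))) (.nd (nat_lit 20) 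
(.nd (nat_lit 7) (.nd (nat_lit 19) 
(.lf (nat_lit 3288719435) (dlOf (nat_lit 2) (nat_lit 0x1c0100003002c00092080004004000200180d0d02))) 
(.lf (nat_lit 59629643) (dlOf (nat_lit 1) (nat_lit 0x400400020009820602)))) (.nd (nat_lit 11) 
(.lf (nat_lit 21357003) (dlOf (nat_lit 1) (nat_lit 0x20018a37101))) (.nd (nat_lit 22) 
(.lf (nat_lit 1745217995) (dlOf (nat_lit 1) (nat_lit 0x1000180e4e81))) 
(.lf (nat_lit 38136267) (dlOf (nat_lit 1) (nat_lit 0x8008000400200020009134e83)))))) 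
(.nd (nat_lit 9) (.nd (nat_lit 21) 
(.lf (nat_lit 9822283) (dlOf (nat_lit 1) (nat_lit 0x800400060008580502))) (.nd (nat_lit 22) 
(.lf (nat_lit 37085259) (dlOf (nat_lit 4) (nat_lit 0x24000000468100010000002140800080000010804014400200260009090602))) 
(.lf (nat_lit 49668171) (dlOf (nat_lit 1) (nat_lit 0xac0019480601))))) (.nd (nat_lit 7) 
(.nd (nat_lit 8) (.lf (nat_lit 2755519051) (dlOf (nat_lit 1) (nat_lit 0x200281b1181))) 
(.lf (nat_lit 8251211) (dlOf (nat_lit 1) (nat_lit 0x20018513e81)))) 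
(.lf (nat_lit 20312779) (dlOf (nat_lit 1) (nat_lit 0x4002000200089d8c82))))))) (.nd (nat_lit 9) 
(.nd (nat_lit 21) (.nd (nat_lit 27) (.nd (nat_lit 22) 
(.lf (nat_lit 537255979) (dlOf (nat_lit 2) (nat_lit 0x580a8000250200020018070801))) 
(.lf (nat_lit 4579371) (dlOf (nat_lit 1) (nat_lit 0x28008000c00200060008290003)))) (.nd (nat_lit 7) 
(.lf (nat_lit 3355828267) (dlOf (nat_lit 1) (nat_lit 0x4c00400040008120782))) 
(.lf (nat_lit 4429570475) (dlOf (nat_lit 1) (nat_lit 0x1400181a0781))))) (.nd (nat_lit 19) 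
(.nd (nat_lit 6) (.lf (nat_lit 58057003) (dlOf (nat_lit 1) (nat_lit 0x200097b8301))) 
(.lf (nat_lit 49668203) (dlOf (nat_lit 1) (nat_lit 0x1c004001e0009480a02)))) (.nd (nat_lit 7) 
(.lf (nat_lit 16637995) (dlOf (nat_lit 5) (nat_lit 0x90d58002c40801e0000001120401600000008802005c4e800510d2805100000010e0c06cc002006000088c0782))) 
(.lf (nat_lit 53338283) (dlOf (nat_lit 1) (nat_lit 0x200195a1501)))))) (.nd (nat_lit 27) 
(.nd (nat_lit 6) (.nd (nat_lit 7) 
(.lf (nat_lit 2755519019) (dlOf (nat_lit 1) (nat_lit 0x84004000600081b0e82))) 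
(.lf (nat_lit 2751850411) (dlOf (nat_lit 1) (nat_lit 0x400200020008004302)))) 
(.lf (nat_lit 20310635) (dlOf (nat_lit 1) (nat_lit 0x200289d5381)))) (.nd (nat_lit 7) 
(.nd (nat_lit 26) (.lf (nat_lit 134603307) (dlOf (nat_lit 1) (nat_lit 0x400400020008090e82))) 
(.lf (nat_lit 201712171) (dlOf (nat_lit 1) (nat_lit 0x400400020008090e82)))) 
(.lf (nat_lit 2886068139) (dlOf (nat_lit 2) (nat_lit 0xc00d000100000003008002800200140008144302))))))) 
(.nd (nat_lit 27) (.nd (nat_lit 31) (.nd (nat_lit 5) (.nd (nat_lit 6) (.nd (nat_lit 7) 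
(.nd (nat_lit 26) 
(.lf (nat_lit 4563787787) (dlOf (nat_lit 2) (nat_lit 0x10078002a204002c004000200080e0082))) 
(.lf (nat_lit 1409671179) (dlOf (nat_lit 9) (nat_lit 0x800aa0056031001d382001e02a801380c40074a0800340620035b0200900540046021000d4410001017c018409800500360013c83000e02b80228130004ee08003c0be0025d02002604b00100180000001003e0008015400200420008070503)))) 
(.lf (nat_lit 1879957643) (dlOf (nat_lit 2) (nat_lit 0xe0000001d818490100)))) (.nd (nat_lit 7) 
(.lf (nat_lit 1881530443) (dlOf (nat_lit 5) (nat_lit 0x207180010388002860800041c60013b0200040e300066810002071800330080070008003000200140008f40603))) 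
(.lf (nat_lit 872802763) (dlOf (nat_lit 1) (nat_lit 0x18004000200080e4e82))))) (.nd (nat_lit 6) 
(.nd (nat_lit 19) 
(.lf (nat_lit 1946542123) (dlOf (nat_lit 1) (nat_lit 0x8008000c002000600080c0c03))) 
(.lf (nat_lit 1410195499) (dlOf (nat_lit 1) (nat_lit 0x60028190801)))) (.nd (nat_lit 8) 
(.lf (nat_lit 1346756715) (dlOf (nat_lit 2) (nat_lit 0x1b02580005204002c00200080009000a02))) 
(.lf (nat_lit 1879433579) (dlOf (nat_lit 1) (nat_lit 0x11c00200500008150a02)))))) (.nd (nat_lit 19) 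
(.nd (nat_lit 5) (.nd (nat_lit 6) 
(.lf (nat_lit 2416304139) (dlOf (nat_lit 2) (nat_lit 0x804400148040004002000c00080d0482))) 
(.nd (nat_lit 8) 
(.lf (nat_lit 4026916939) (dlOf (nat_lit 2) (nat_lit 0x1c0100003002c00084080004004000200180d0d02))) 
(.lf (nat_lit 3490049355) (dlOf (nat_lit 2) (nat_lit 0x4460000130200020028006a01))))) 
(.nd (nat_lit 8) 
(.lf (nat_lit 2416304171) (dlOf (nat_lit 2) (nat_lit 0xf0020000b8080008008001c002000400080d0a83))) 
(.lf (nat_lit 3557155115) (dlOf (nat_lit 1) (nat_lit 0x10008004400200020008130703))))) 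
(.nd (nat_lit 5) (.nd (nat_lit 6) (.nd (nat_lit 8) 
(.lf (nat_lit 3493716491) (dlOf (nat_lit 3) (nat_lit 0x1e01e0006d01000101f8001f80800d00080020002001000081b0d83))) 
(.lf (nat_lit 3493716235) (dlOf (nat_lit 1) (nat_lit 0x8008034c00200f000081b0483)))) 
(.lf (nat_lit 3493716555) (dlOf (nat_lit 1) (nat_lit 0x200281b1181)))) 
(.lf (nat_lit 3493716523) (dlOf (nat_lit 1) (nat_lit 0x84004000600081b0e82)))))) (.nd (nat_lit 26) 
(.nd (nat_lit 32) (.nd (nat_lit 31) (.nd (nat_lit 6) 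
(.lf (nat_lit 1476780171) (dlOf (nat_lit 4) (nat_lit 0xc402e001ab020070017000c581003900b8006240800200080030002001e00081a0483))) 
(.lf (nat_lit 403039563) (dlOf (nat_lit 1) (nat_lit 0x800080e3301)))) (.nd (nat_lit 5) 
(.lf (nat_lit 2550521867) (dlOf (nat_lit 2) (nat_lit 0x804400148040004002000c00080d0482))) 
(.lf (nat_lit 2550521899) (dlOf (nat_lit 2) (nat_lit 0xf0020000ac080008008001c002000400080d0a83))))) 
(.nd (nat_lit 19) (.nd (nat_lit 29) 
(.lf (nat_lit 4698005515) (dlOf (nat_lit 2) (nat_lit 0x100780017e04002c004000200080e0082))) 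
(.lf (nat_lit 5234876427) (dlOf (nat_lit 3) (nat_lit 0x2c01a001e701001600d000f34080030008001c00200060008120a03)))) 
(.nd (nat_lit 5) (.lf (nat_lit 5773320395) (dlOf (nat_lit 1) (nat_lit 0x4002000200080c1782))) 
(.lf (nat_lit 5772272939) (dlOf (nat_lit 1) (nat_lit 0x8008000400200020008093183)))))) 
(.nd (nat_lit 5) (.nd (nat_lit 7) (.nd (nat_lit 6) 
(.lf (nat_lit 1009115147) (dlOf (nat_lit 1) (nat_lit 0x20019080001))) 
(.lf (nat_lit 472769867) (dlOf (nat_lit 1) (nat_lit 0xe0008b03301)))) (.nd (nat_lit 8) 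
(.lf (nat_lit 1007542411) (dlOf (nat_lit 2) (nat_lit 0xe0000001d818490100))) 
(.lf (nat_lit 6376778123) (dlOf (nat_lit 1) (nat_lit 0x20008094e81))))) (.nd (nat_lit 7) 
(.nd (nat_lit 8) (.lf (nat_lit 2617630763) (dlOf (nat_lit 2) (nat_lit 0x1202b0002b018110600))) 
(.lf (nat_lit 4228243755) (dlOf (nat_lit 1) (nat_lit 0x20028090501)))) 
(.lf (nat_lit 6376778411) (dlOf (nat_lit 1) (nat_lit 0x20008095681)))))))))))

end

end Pool.Agent.Lib.MP_5854e1_co.Cz

namespace Pool.Agent.Lib.MP_5854e1_co.Cz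

noncomputable section

noncomputable def tz187 : DT := (.nd (nat_lit 16) (.nd (nat_lit 18) (.nd (nat_lit 28) 
(.nd (nat_lit 15) (.nd (nat_lit 19) (.nd (nat_lit 6) (.nd (nat_lit 8) (.nd (nat_lit 5) 
(.nd (nat_lit 7) (.nd (nat_lit 9) 
(.lf (nat_lit 23093263) (dlOf (nat_lit 3) (nat_lit 0x1115b8000410200baada0001d818b50100))) 
(.nd (nat_lit 10) (.lf (nat_lit 2348841487) (dlOf (nat_lit 1) (nat_lit 0x40020002000800b282))) 
(.lf (nat_lit 5502952975) (dlOf (nat_lit 1) (nat_lit 0x20018003681))))) (.nd (nat_lit 9) 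
(.lf (nat_lit 4429211791) (dlOf (nat_lit 1) (nat_lit 0x20018004801))) 
(.lf (nat_lit 29327) (dlOf (nat_lit 1) (nat_lit 0x400200020008008c82))))) (.nd (nat_lit 11) 
(.nd (nat_lit 9) 
(.lf (nat_lit 2755682351) (dlOf (nat_lit 2) (nat_lit 0x23884801302aa009a304001e00181b0001))) 
(.lf (nat_lit 1744856623) (dlOf (nat_lit 1) (nat_lit 0x400400040008003782)))) (.nd (nat_lit 26) 
(.lf (nat_lit 671116847) (dlOf (nat_lit 2) (nat_lit 0x201180015c080018008000400200040008007183))) 
(.lf (nat_lit 3959451183) (dlOf (nat_lit 1) (nat_lit 0x40028007181)))))) (.nd (nat_lit 5) 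
(.nd (nat_lit 7) (.nd (nat_lit 9) (.nd (nat_lit 11) 
(.lf (nat_lit 3422582031) (dlOf (nat_lit 2) (nat_lit 0x2c03300041018009680))) 
(.lf (nat_lit 27919) (dlOf (nat_lit 1) (nat_lit 0x20028006701)))) 
(.lf (nat_lit 604011279) (dlOf (nat_lit 3) (nat_lit 0x20016000b0038001c8100078058000e00400040040002001800ba02)))) 
(.nd (nat_lit 11) 
(.lf (nat_lit 47210895) (dlOf (nat_lit 2) (nat_lit 0x35d4801350080060008003c002000200093b5d83))) 
(.lf (nat_lit 2754636175) (dlOf (nat_lit 1) (nat_lit 0x4002000200080f4e82))))) (.nd (nat_lit 9) 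
(.nd (nat_lit 7) 
(.lf (nat_lit 2755682607) (dlOf (nat_lit 1) (nat_lit 0x80080004002000200081b0503))) 
(.lf (nat_lit 5905607087) (dlOf (nat_lit 1) (nat_lit 0x160028004e81)))) (.nd (nat_lit 10) 
(.lf (nat_lit 2885712815) (dlOf (nat_lit 1) (nat_lit 0x70002800bd81))) 
(.lf (nat_lit 4429211567) (dlOf (nat_lit 1) (nat_lit 0xc00400020008004382))))))) (.nd (nat_lit 12) 
(.nd (nat_lit 10) (.nd (nat_lit 5) (.nd (nat_lit 20) (.nd (nat_lit 21) 
(.lf (nat_lit 2684379215) (dlOf (nat_lit 3) (nat_lit 0x1501b8057800800a80dc02bbe040018002000a0008000002))) 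
(.lf (nat_lit 14704719) (dlOf (nat_lit 1) (nat_lit 0x400400020008770702)))) 
(.lf (nat_lit 30433359) (dlOf (nat_lit 2) (nat_lit 0xbc3200086188000be08000800200020008e30202)))) 
(.nd (nat_lit 7) (.lf (nat_lit 12607599) (dlOf (nat_lit 1) (nat_lit 0x14004000200086d1582))) 
(.lf (nat_lit 3355468527) (dlOf (nat_lit 1) (nat_lit 0x28008002c00200160008002103))))) 
(.nd (nat_lit 7) (.nd (nat_lit 5) 
(.lf (nat_lit 4294995279) (dlOf (nat_lit 1) (nat_lit 0xc00400060018006a02))) 
(.lf (nat_lit 39871599) (dlOf (nat_lit 1) (nat_lit 0xe00191f2a01)))) (.nd (nat_lit 9) 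
(.lf (nat_lit 6442479055) (dlOf (nat_lit 1) (nat_lit 0x340018006d01))) 
(.lf (nat_lit 536897487) (dlOf (nat_lit 3) (nat_lit 0x1817c0001c04008c0be0000d0200560018004481)))))) 
(.nd (nat_lit 26) (.nd (nat_lit 10) (.nd (nat_lit 5) 
(.lf (nat_lit 6576699471) (dlOf (nat_lit 1) (nat_lit 0x16001800a701))) 
(.lf (nat_lit 19952239) (dlOf (nat_lit 1) (nat_lit 0xc00189d8981)))) (.nd (nat_lit 7) 
(.lf (nat_lit 19952719) (dlOf (nat_lit 1) (nat_lit 0x34002000200089d9302))) 
(.lf (nat_lit 134249679) (dlOf (nat_lit 1) (nat_lit 0x800800080020002000800c283))))) 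
(.nd (nat_lit 8) (.nd (nat_lit 10) (.nd (nat_lit 11) 
(.lf (nat_lit 67137615) (dlOf (nat_lit 1) (nat_lit 0x80018007d81))) 
(.lf (nat_lit 3825236047) (dlOf (nat_lit 1) (nat_lit 0xa002800a701)))) 
(.lf (nat_lit 604011599) (dlOf (nat_lit 2) (nat_lit 0xd00000004c0800400080074002001e000800bf83)))) 
(.nd (nat_lit 5) 
(.lf (nat_lit 604011471) (dlOf (nat_lit 2) (nat_lit 0x8000000000400c80020038000800bf02))) 
(.lf (nat_lit 201357679) (dlOf (nat_lit 1) (nat_lit 0x800800100020002000800ad03)))))))) 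
(.nd (nat_lit 21) (.nd (nat_lit 5) (.nd (nat_lit 20) (.nd (nat_lit 31) (.nd (nat_lit 29) 
(.lf (nat_lit 4362625039) (dlOf (nat_lit 1) (nat_lit 0x200280b0481))) 
(.lf (nat_lit 1678270479) (dlOf (nat_lit 1) (nat_lit 0x200181c0481)))) (.nd (nat_lit 6) 
(.lf (nat_lit 2819121167) (dlOf (nat_lit 2) (nat_lit 0x1e036000000181a0480))) 
(.lf (nat_lit 2752014287) (dlOf (nat_lit 2) (nat_lit 0x8050003e01600008028004480))))) 
(.nd (nat_lit 6) (.nd (nat_lit 22) 
(.lf (nat_lit 9986063) (dlOf (nat_lit 5) (nat_lit 0x3a430005d208004e8fc001b476007d0080007a430005d20800368fc001f476007cf080003a450008d218003e904001347e000fa3b0008cee001f3430002e904000b47e000da3b0008cee001f2c2000200080028002001800085a0a03))) 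
(.lf (nat_lit 5791759) (dlOf (nat_lit 2) (nat_lit 0x89a8000440183e0180)))) 
(.lf (nat_lit 43540943) (dlOf (nat_lit 1) (nat_lit 0x6b800806e8002032e00092a1103))))) 
(.nd (nat_lit 22) (.nd (nat_lit 26) (.nd (nat_lit 27) 
(.lf (nat_lit 3221774383) (dlOf (nat_lit 1) (nat_lit 0x20028180981))) 
(.lf (nat_lit 2819121199) (dlOf (nat_lit 2) (nat_lit 0x1008a004a01500020028000541800080080004002000c00081a0703)))) 
(.nd (nat_lit 27) 
(.lf (nat_lit 4362625071) (dlOf (nat_lit 4) (nat_lit 0x4000007440200040000039d010015000001ce40801e00080028002005000080b0a03))) 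
(.lf (nat_lit 3959971887) (dlOf (nat_lit 1) (nat_lit 0x20028180981))))) (.nd (nat_lit 7) 
(.nd (nat_lit 20) 
(.lf (nat_lit 55074863) (dlOf (nat_lit 5) (nat_lit 0x1213e000c09680078408001807a0007608000213e000709680058408001807a0007508000c13e000a09680058408002007a0007408000213e000609680040408002807a0007308000800296a0d01))) 
(.lf (nat_lit 30957615) (dlOf (nat_lit 1) (nat_lit 0x180080008002001c0008e50b83)))) 
(.lf (nat_lit 39347375) (dlOf (nat_lit 1) (nat_lit 0x8008000c00200020009192c03)))))) 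
(.nd (nat_lit 20) (.nd (nat_lit 22) (.nd (nat_lit 23) (.nd (nat_lit 24) 
(.lf (nat_lit 2754109455) (dlOf (nat_lit 1) (nat_lit 0x280080004002003c00080c0903))) 
(.lf (nat_lit 19423247) (dlOf (nat_lit 2) (nat_lit 0x24c60070a8189a0a00)))) 
(.lf (nat_lit 11034639) (dlOf (nat_lit 1) (nat_lit 0x18008001000200060008660183)))) 
(.nd (nat_lit 5) (.nd (nat_lit 6) 
(.lf (nat_lit 48783375) (dlOf (nat_lit 1) (nat_lit 0x8008001000200020009430203))) 
(.lf (nat_lit 57174735) (dlOf (nat_lit 1) (nat_lit 0x400400020009795882)))) 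
(.lf (nat_lit 15228975) (dlOf (nat_lit 7) (nat_lit 0x1ef432000886c00cf0000000f818002e8640278000000370400c60000001b01008f0000000d40801d0000000680402a00000000002006e00187c0701))))) 
(.nd (nat_lit 5) (.nd (nat_lit 6) (.nd (nat_lit 8) 
(.lf (nat_lit 3694607) (dlOf (nat_lit 1) (nat_lit 0x80028210681))) 
(.lf (nat_lit 41444623) (dlOf (nat_lit 1) (nat_lit 0x20029243001)))) 
(.lf (nat_lit 54028879) (dlOf (nat_lit 2) (nat_lit 0x12ff000008040020004000400095f5282)))) 
(.nd (nat_lit 6) (.lf (nat_lit 20474927) (dlOf (nat_lit 1) (nat_lit 0x8400189d6081))) 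
(.nd (nat_lit 8) (.lf (nat_lit 49834735) (dlOf (nat_lit 1) (nat_lit 0x800194c5a01))) 
(.lf (nat_lit 20474863) (dlOf (nat_lit 1) (nat_lit 0xe00189d5f01))))))))) (.nd (nat_lit 5) 
(.nd (nat_lit 19) (.nd (nat_lit 11) (.nd (nat_lit 6) (.nd (nat_lit 21) (.nd (nat_lit 20) 
(.lf (nat_lit 21028879) (dlOf (nat_lit 3) (nat_lit 0x10538000aa04000429c000370200140028a00381))) 
(.nd (nat_lit 22) (.lf (nat_lit 9494543) (dlOf (nat_lit 1) (nat_lit 0x40018560481))) 
(.lf (nat_lit 13688847) (dlOf (nat_lit 1) (nat_lit 0x400400020008740102))))) (.nd (nat_lit 7) 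
(.lf (nat_lit 15785999) (dlOf (nat_lit 1) (nat_lit 0x40028830181))) 
(.lf (nat_lit 11591823) (dlOf (nat_lit 1) (nat_lit 0x4002000200086c0102))))) (.nd (nat_lit 7) 
(.nd (nat_lit 10) 
(.lf (nat_lit 14737487) (dlOf (nat_lit 2) (nat_lit 0x28fde000260200040018770701))) 
(.lf (nat_lit 19985487) (dlOf (nat_lit 1) (nat_lit 0x80080004002000200089d9303)))) (.nd (nat_lit 8) 
(.lf (nat_lit 43050191) (dlOf (nat_lit 1) (nat_lit 0x4004000200092a2d82))) 
(.lf (nat_lit 536930255) (dlOf (nat_lit 2) (nat_lit 0x16817c0001a04003c00400040008004482)))))) 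
(.nd (nat_lit 8) (.nd (nat_lit 26) (.nd (nat_lit 29) 
(.lf (nat_lit 1073805839) (dlOf (nat_lit 1) (nat_lit 0x1c001800b281))) 
(.lf (nat_lit 536934927) (dlOf (nat_lit 1) (nat_lit 0x10002800b281)))) (.nd (nat_lit 9) 
(.lf (nat_lit 5033225231) (dlOf (nat_lit 1) (nat_lit 0x440018005f81))) 
(.lf (nat_lit 2348874255) (dlOf (nat_lit 2) (nat_lit 0x40040016f80400c0004002e000800b282))))) 
(.nd (nat_lit 6) (.nd (nat_lit 7) 
(.lf (nat_lit 1677782287) (dlOf (nat_lit 1) (nat_lit 0x20018006701))) 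
(.lf (nat_lit 134278543) (dlOf (nat_lit 1) (nat_lit 0x400400020018006c82)))) (.nd (nat_lit 9) 
(.lf (nat_lit 19987791) (dlOf (nat_lit 1) (nat_lit 0x80080004002000200089dc903))) 
(.lf (nat_lit 19983183) (dlOf (nat_lit 1) (nat_lit 0x380080020002000c00089d5c03))))))) 
(.nd (nat_lit 6) (.nd (nat_lit 21) (.nd (nat_lit 26) (.nd (nat_lit 7) (.nd (nat_lit 30) 
(.lf (nat_lit 2819153935) (dlOf (nat_lit 1) (nat_lit 0x10004000a00081b0182))) 
(.lf (nat_lit 3892895759) (dlOf (nat_lit 2) (nat_lit 0x5814401a1a04003800400080008290782)))) 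
(.lf (nat_lit 583823) (dlOf (nat_lit 1) (nat_lit 0x8008000400200020008004803)))) (.nd (nat_lit 29) 
(.lf (nat_lit 4362657807) (dlOf (nat_lit 2) (nat_lit 0xa02780021c080038008000c002000400080c0083))) 
(.lf (nat_lit 1678303247) (dlOf (nat_lit 1) (nat_lit 0x480080054002000200081e0703))))) 
(.nd (nat_lit 7) (.nd (nat_lit 24) 
(.lf (nat_lit 11067407) (dlOf (nat_lit 1) (nat_lit 0x40028660181))) 
(.lf (nat_lit 27844623) (dlOf (nat_lit 16) (nat_lit 0x758100052b94000be080025604000aae50008571800174180052b98000b20400095cc00058020002ae60002b810007573000154080092b98000a80400295cc0005202000cae60002881000957300012b500009808002d5cc0004ad40002582000757300010808004ab94000660400195ca0003202002eae500025698000c0100008008000c00200020008d30203)))) 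
(.lf (nat_lit 20507535) (dlOf (nat_lit 1) (nat_lit 0x20004000a00189d5c82))))) (.nd (nat_lit 22) 
(.nd (nat_lit 20) (.lf (nat_lit 134799439) (dlOf (nat_lit 1) (nat_lit 0x400180c1581))) 
(.lf (nat_lit 28893263) (dlOf (nat_lit 1) (nat_lit 0x20028da0201)))) (.nd (nat_lit 24) 
(.lf (nat_lit 2756239439) (dlOf (nat_lit 1) (nat_lit 0x50008001400200120008220d03))) 
(.lf (nat_lit 21553231) (dlOf (nat_lit 1) (nat_lit 0x20018a40501))))))) (.nd (nat_lit 8) 
(.nd (nat_lit 19) (.nd (nat_lit 20) (.nd (nat_lit 21) (.nd (nat_lit 29) 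
(.lf (nat_lit 6576726063) (dlOf (nat_lit 1) (nat_lit 0x1a00180b0001))) 
(.lf (nat_lit 671146031) (dlOf (nat_lit 1) (nat_lit 0x4004000600080b0002)))) 
(.lf (nat_lit 23126063) (dlOf (nat_lit 1) (nat_lit 0x1c00400080018b60902)))) (.nd (nat_lit 7) 
(.nd (nat_lit 9) (.lf (nat_lit 26271791) (dlOf (nat_lit 1) (nat_lit 0x20018c30481))) 
(.lf (nat_lit 2754670127) (dlOf (nat_lit 4) (nat_lit 0x348074000a80400040500005102001401f007600c803b80600009c0c000c004002000180f7182)))) 
(.lf (nat_lit 55633071) (dlOf (nat_lit 2) (nat_lit 0x9eb9f004f5aec0195d4a006ee31000258496d2c00))))) 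
(.nd (nat_lit 20) (.nd (nat_lit 6) (.nd (nat_lit 22) 
(.lf (nat_lit 134799407) (dlOf (nat_lit 2) (nat_lit 0x2680ec00054040008004000a00080c0e82))) 
(.lf (nat_lit 55107631) (dlOf (nat_lit 1) (nat_lit 0x4004000200096b0a82)))) 
(.lf (nat_lit 21553263) (dlOf (nat_lit 1) (nat_lit 0x570008021400201cc0008a40c83)))) 
(.nd (nat_lit 7) 
(.lf (nat_lit 26796079) (dlOf (nat_lit 2) (nat_lit 0x33548000be04001c00200280008c70902))) 
(.lf (nat_lit 39380143) (dlOf (nat_lit 1) (nat_lit 0xa0019192c01)))))) (.nd (nat_lit 7) 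
(.nd (nat_lit 6) (.nd (nat_lit 21) 
(.lf (nat_lit 671146287) (dlOf (nat_lit 2) (nat_lit 0x600f000328180b0500))) 
(.lf (nat_lit 10543407) (dlOf (nat_lit 1) (nat_lit 0x800085f8401)))) (.nd (nat_lit 10) 
(.lf (nat_lit 1811997039) (dlOf (nat_lit 1) (nat_lit 0x1000280b0781))) 
(.lf (nat_lit 19987823) (dlOf (nat_lit 1) (nat_lit 0x200189dc901))))) (.nd (nat_lit 10) 
(.nd (nat_lit 19) (.lf (nat_lit 3959482799) (dlOf (nat_lit 1) (nat_lit 0x40028004e81))) 
(.nd (nat_lit 20) (.lf (nat_lit 46721455) (dlOf (nat_lit 1) (nat_lit 0x400400f60009384e82))) 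
(.lf (nat_lit 51964335) (dlOf (nat_lit 1) (nat_lit 0x800400020009514e82))))) (.nd (nat_lit 6) 
(.lf (nat_lit 4899005871) (dlOf (nat_lit 1) (nat_lit 0x20018053601))) 
(.lf (nat_lit 20508655) (dlOf (nat_lit 1) (nat_lit 0xa00189d7a81))))))))) (.nd (nat_lit 26) 
(.nd (nat_lit 8) (.nd (nat_lit 15) (.nd (nat_lit 5) (.nd (nat_lit 9) (.nd (nat_lit 6) 
(.nd (nat_lit 7) (.lf (nat_lit 805855247) (dlOf (nat_lit 1) (nat_lit 0x200181c0481))) 
(.lf (nat_lit 1342726287) (dlOf (nat_lit 1) (nat_lit 0x1a80080004002003400080c0103)))) 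
(.nd (nat_lit 10) 
(.lf (nat_lit 1476423759) (dlOf (nat_lit 3) (nat_lit 0x1701e0029340800b00f0014980400b000400100008007d82))) 
(.lf (nat_lit 2952821839) (dlOf (nat_lit 1) (nat_lit 0x2000800bf81))))) (.nd (nat_lit 7) 
(.nd (nat_lit 10) (.lf (nat_lit 1476944399) (dlOf (nat_lit 1) (nat_lit 0x5c0008307b81))) 
(.lf (nat_lit 2952822287) (dlOf (nat_lit 4) (nat_lit 0x2f00e002c806c000320800ac0380001802005601c002700d80005c1000c00080028002002e000800ce03)))) 
(.nd (nat_lit 27) (.lf (nat_lit 1342206607) (dlOf (nat_lit 1) (nat_lit 0x400200020008008c82))) 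
(.lf (nat_lit 1476424335) (dlOf (nat_lit 1) (nat_lit 0x20008008c81)))))) (.nd (nat_lit 6) 
(.nd (nat_lit 9) (.lf (nat_lit 3492306991) (dlOf (nat_lit 1) (nat_lit 0x200180c0e81))) 
(.lf (nat_lit 3087035951) (dlOf (nat_lit 3) (nat_lit 0x16c02e0005702005e0000002a018007180)))) 
(.nd (nat_lit 7) (.nd (nat_lit 27) 
(.lf (nat_lit 1342208111) (dlOf (nat_lit 9) (nat_lit 0x26827400e411c00e007e0055303003104e802950080208274003c11c00a5204011a09d008b047001f81f800fc05400a4708004a09d00260470028fc1001282740147c04009413a005208e0051e82002804e8013823801326080a040020138000800a882))) 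
(.lf (nat_lit 1476425839) (dlOf (nat_lit 5) (nat_lit 0x2400b8011001c003c00000aa606002e018002900b8009804000a800e00200000052f05002400b8002804000b400e001e0000052e04005900b801e001c0148e08006c0040252000800a882)))) 
(.lf (nat_lit 1342206191) (dlOf (nat_lit 1) (nat_lit 0x400400040018008082)))))) (.nd (nat_lit 11) 
(.nd (nat_lit 5) (.nd (nat_lit 9) (.nd (nat_lit 6) 
(.lf (nat_lit 1343283215) (dlOf (nat_lit 2) (nat_lit 0x5e1ad0031f8181e0480))) 
(.lf (nat_lit 3494436943) (dlOf (nat_lit 1) (nat_lit 0x50008001400200120008220d03)))) 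
(.nd (nat_lit 7) 
(.lf (nat_lit 6308292111) (dlOf (nat_lit 2) (nat_lit 0xa00c000580200006c08000400400140018053682))) 
(.lf (nat_lit 1342239375) (dlOf (nat_lit 1) (nat_lit 0x12400400c80018008c82))))) (.nd (nat_lit 7) 
(.lf (nat_lit 1343283247) (dlOf (nat_lit 5) (nat_lit 0x2600000002804015c0000001302000222100001010003110800004080018008011800200ac00081e0703))) 
(.lf (nat_lit 1346954415) (dlOf (nat_lit 1) (nat_lit 0x60029102c01))))) (.nd (nat_lit 5) 
(.nd (nat_lit 6) 
(.lf (nat_lit 402713615) (dlOf (nat_lit 1) (nat_lit 0x7e800804d8002008c0008005f83))) 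
(.nd (nat_lit 7) 
(.lf (nat_lit 1342238287) (dlOf (nat_lit 1) (nat_lit 0x8008000400200040008007183))) 
(.lf (nat_lit 805365967) (dlOf (nat_lit 1) (nat_lit 0x20018004a01))))) (.nd (nat_lit 6) 
(.lf (nat_lit 4697680431) (dlOf (nat_lit 1) (nat_lit 0x1b8008004000200560008005183))) 
(.lf (nat_lit 1342240879) (dlOf (nat_lit 5) (nat_lit 0x5e16100130a70018027400ac11c00aa60800b8161005f0a7003002f8017413a00be08e005238500050470028fc0800305840147c0400680040014001800a882))))))) 
(.nd (nat_lit 9) (.nd (nat_lit 5) (.nd (nat_lit 10) (.nd (nat_lit 11) (.nd (nat_lit 6) 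
(.lf (nat_lit 3493880207) (dlOf (nat_lit 2) (nat_lit 0x7030000000040004004000800081b0782))) 
(.lf (nat_lit 5772992975) (dlOf (nat_lit 1) (nat_lit 0x2a0008091101)))) (.nd (nat_lit 15) 
(.lf (nat_lit 1345350031) (dlOf (nat_lit 1) (nat_lit 0x20028b54e81))) 
(.lf (nat_lit 2013325711) (dlOf (nat_lit 1) (nat_lit 0xd0008000c00200080008004e83))))) 
(.nd (nat_lit 6) (.nd (nat_lit 7) 
(.lf (nat_lit 4160779535) (dlOf (nat_lit 2) (nat_lit 0xe00a0000000800180080008002000e0008009683))) 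
(.lf (nat_lit 4563428751) (dlOf (nat_lit 2) (nat_lit 0x800000037a040030002000a0008003602)))) 
(.lf (nat_lit 2550197711) (dlOf (nat_lit 1) (nat_lit 0x4f8008027800200720008006d03))))) 
(.nd (nat_lit 12) (.nd (nat_lit 6) (.nd (nat_lit 11) 
(.lf (nat_lit 1476944303) (dlOf (nat_lit 1) (nat_lit 0x8a0008306e81))) 
(.lf (nat_lit 939551151) (dlOf (nat_lit 1) (nat_lit 0x40018004e81)))) 
(.lf (nat_lit 1342726639) (dlOf (nat_lit 9) (nat_lit 0x590e280f68550093c2a200420940011e0401e40aa01268544064c26e03400f401e204a000e8244058c006002330e03d0154024e0a880f38250004620c00043a200b41c501e70aa0124854405b026e03080f4014b0018008bc3803487140045a04001838a0022c0200421c50011581000e0e280087c0811d000808e80020dd800080c0d83)))) 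
(.nd (nat_lit 7) (.lf (nat_lit 1476423983) (dlOf (nat_lit 1) (nat_lit 0x400200020008008082))) 
(.nd (nat_lit 15) 
(.lf (nat_lit 1476424111) (dlOf (nat_lit 3) (nat_lit 0x940780032024000c0060000801800280f00000004005800400100008008482))) 
(.lf (nat_lit 1342239151) (dlOf (nat_lit 1) (nat_lit 0x40008008481))))))) (.nd (nat_lit 12) 
(.nd (nat_lit 30) (.nd (nat_lit 5) 
(.lf (nat_lit 2952851407) (dlOf (nat_lit 1) (nat_lit 0x1400400080008007a82))) (.nd (nat_lit 15) 
(.lf (nat_lit 4697648111) (dlOf (nat_lit 1) (nat_lit 0x20028005f01))) 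
(.lf (nat_lit 5234551791) (dlOf (nat_lit 1) (nat_lit 0x150008002c00200200008055f03))))) 
(.nd (nat_lit 11) (.lf (nat_lit 4026557423) (dlOf (nat_lit 1) (nat_lit 0x40028002881))) 
(.nd (nat_lit 22) (.lf (nat_lit 6174075887) (dlOf (nat_lit 1) (nat_lit 0x400400020008055f02))) 
(.lf (nat_lit 1346431983) (dlOf (nat_lit 1) (nat_lit 0xb8002001c0008f65f02)))))) (.nd (nat_lit 5) 
(.nd (nat_lit 6) (.lf (nat_lit 2952821519) (dlOf (nat_lit 2) (nat_lit 0x2c0130003001800ba00))) 
(.nd (nat_lit 7) (.lf (nat_lit 1342207823) (dlOf (nat_lit 1) (nat_lit 0x30002800a201))) 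
(.lf (nat_lit 2952821711) (dlOf (nat_lit 3) (nat_lit 0x32013002618100010098000000800980080034002002e000800bf03))))) 
(.nd (nat_lit 15) (.nd (nat_lit 27) 
(.lf (nat_lit 1342207919) (dlOf (nat_lit 2) (nat_lit 0x411c00064020006002800a401))) 
(.lf (nat_lit 1476425647) (dlOf (nat_lit 2) (nat_lit 0xc00000061020008000800a401)))) 
(.lf (nat_lit 1342240687) (dlOf (nat_lit 2) (nat_lit 0x304700019008003800800100020022000800a403)))))))) 
(.nd (nat_lit 5) (.nd (nat_lit 6) (.nd (nat_lit 19) (.nd (nat_lit 9) (.nd (nat_lit 10) 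
(.nd (nat_lit 7) 
(.lf (nat_lit 470835215) (dlOf (nat_lit 2) (nat_lit 0x20000017a8040020002002600081c0482))) 
(.lf (nat_lit 1946216847) (dlOf (nat_lit 1) (nat_lit 0xe0018004e81)))) (.nd (nat_lit 11) 
(.lf (nat_lit 335602703) (dlOf (nat_lit 1) (nat_lit 0x120018002881))) (.nd (nat_lit 15) 
(.lf (nat_lit 872442895) (dlOf (nat_lit 1) (nat_lit 0x400200020008005f82))) 
(.lf (nat_lit 5301660687) (dlOf (nat_lit 1) (nat_lit 0xc0018005f81)))))) (.nd (nat_lit 11) 
(.nd (nat_lit 7) (.lf (nat_lit 1008787983) (dlOf (nat_lit 1) (nat_lit 0x80008f87b81))) 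
(.lf (nat_lit 3691016847) (dlOf (nat_lit 4) (nat_lit 0x360150023601001100a8011a4080348054008ca04010400200620008008c82)))) 
(.nd (nat_lit 8) (.lf (nat_lit 469794319) (dlOf (nat_lit 2) (nat_lit 0x21e70007a81800ce00))) 
(.lf (nat_lit 469793551) (dlOf (nat_lit 2) (nat_lit 0x209d0003901800ba00)))))) (.nd (nat_lit 29) 
(.nd (nat_lit 7) (.nd (nat_lit 9) (.nd (nat_lit 15) 
(.lf (nat_lit 474505231) (dlOf (nat_lit 1) (nat_lit 0x8008000400200020009190203))) 
(.lf (nat_lit 471392271) (dlOf (nat_lit 1) (nat_lit 0x4004001000082f0782)))) 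
(.lf (nat_lit 470311439) (dlOf (nat_lit 2) (nat_lit 0x8a1540010e0180c0d80)))) 
(.lf (nat_lit 470311055) (dlOf (nat_lit 1) (nat_lit 0x1a80080004002003400080c0103)))) 
(.nd (nat_lit 8) (.nd (nat_lit 15) 
(.lf (nat_lit 4228407311) (dlOf (nat_lit 1) (nat_lit 0x200280b0481))) 
(.lf (nat_lit 4228440079) (dlOf (nat_lit 2) (nat_lit 0xa024000460080038008000c002000400080c0083)))) 
(.lf (nat_lit 4094189839) (dlOf (nat_lit 1) (nat_lit 0x280018013a01)))))) (.nd (nat_lit 10) 
(.nd (nat_lit 7) (.nd (nat_lit 9) (.nd (nat_lit 12) 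
(.lf (nat_lit 335601743) (dlOf (nat_lit 1) (nat_lit 0x20018000001))) 
(.lf (nat_lit 3691016271) (dlOf (nat_lit 1) (nat_lit 0x20008001800200020008007d83)))) 
(.lf (nat_lit 472410703) (dlOf (nat_lit 1) (nat_lit 0x20018985281)))) (.nd (nat_lit 8) 
(.lf (nat_lit 3691018447) (dlOf (nat_lit 2) (nat_lit 0x3300a0029600801000080010002008c000800a883))) 
(.nd (nat_lit 9) 
(.lf (nat_lit 3154141647) (dlOf (nat_lit 4) (nat_lit 0x40238000f008002011c0007604002c08e0003a0200040008001101))) 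
(.lf (nat_lit 469793743) (dlOf (nat_lit 1) (nat_lit 0x4002800bf01)))))) (.nd (nat_lit 8) 
(.nd (nat_lit 7) (.nd (nat_lit 15) 
(.lf (nat_lit 469793871) (dlOf (nat_lit 1) (nat_lit 0x4002800bf81))) 
(.lf (nat_lit 469826639) (dlOf (nat_lit 1) (nat_lit 0x38002000a000800bf82)))) 
(.lf (nat_lit 3691017935) (dlOf (nat_lit 1) (nat_lit 0x4000800a001)))) (.nd (nat_lit 7) 
(.nd (nat_lit 9) (.lf (nat_lit 469792079) (dlOf (nat_lit 2) (nat_lit 0x408e001ec018009900))) 
(.lf (nat_lit 3691016015) (dlOf (nat_lit 2) (nat_lit 0xd00e802930080128008003c002004c0008007783)))) 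
(.lf (nat_lit 3691048911) (dlOf (nat_lit 1) (nat_lit 0x80018007a81))))))) (.nd (nat_lit 15) 
(.nd (nat_lit 6) (.nd (nat_lit 9) (.nd (nat_lit 19) 
(.lf (nat_lit 1007706159) (dlOf (nat_lit 1) (nat_lit 0x8008000400200020008740003))) 
(.nd (nat_lit 20) (.lf (nat_lit 4228407343) (dlOf (nat_lit 1) (nat_lit 0x600180b0a01))) 
(.lf (nat_lit 471359535) (dlOf (nat_lit 1) (nat_lit 0x1200282e0001))))) (.nd (nat_lit 7) 
(.lf (nat_lit 472410671) (dlOf (nat_lit 1) (nat_lit 0x400400040008985182))) 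
(.lf (nat_lit 3691018159) (dlOf (nat_lit 1) (nat_lit 0x2002800a401))))) (.nd (nat_lit 10) 
(.nd (nat_lit 7) (.nd (nat_lit 8) 
(.lf (nat_lit 3691018351) (dlOf (nat_lit 9) (nat_lit 0x29c02800aa6020100018010400a00058044001401e00a5e08019c01400020078029741004680600470028000e00f0052e0300b900a002960080068050014a40401a005c038801b002500c803a8060053c02800fa0120029008803c8030012000a014c002005238a000900a0028fc0811280080164002065a000800a883))) 
(.lf (nat_lit 2617271151) (dlOf (nat_lit 1) (nat_lit 0x28008002c00200160008002583)))) 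
(.lf (nat_lit 470311407) (dlOf (nat_lit 9) (nat_lit 0x590e280f68550093c2a200420940011e0401e40aa01268544064c26e03400f401e204a000e8244058c00e002330e03d0154024e0a880f38250004620c00043a200b41c501e70aa0124854405b026e03080f4014b0038008bc3803487140045a04001838a0022c0200421c50011581000e0e280088c0811d000808e80020dd800080c0d83)))) 
(.nd (nat_lit 7) (.nd (nat_lit 12) 
(.lf (nat_lit 1409314159) (dlOf (nat_lit 1) (nat_lit 0x20028006b01))) 
(.lf (nat_lit 1409318255) (dlOf (nat_lit 1) (nat_lit 0x8001800c901)))) 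
(.lf (nat_lit 469788655) (dlOf (nat_lit 2) (nat_lit 0x18454000a22800019028004600)))))) 
(.nd (nat_lit 9) (.nd (nat_lit 30) (.nd (nat_lit 7) (.nd (nat_lit 11) 
(.lf (nat_lit 470868015) (dlOf (nat_lit 3) (nat_lit 0x1207200006c0800e84c40000004004000400a400081c0702))) 
(.lf (nat_lit 469821487) (dlOf (nat_lit 1) (nat_lit 0x400200080008004702)))) 
(.lf (nat_lit 1008787887) (dlOf (nat_lit 1) (nat_lit 0x20018f86e81)))) (.nd (nat_lit 19) 
(.lf (nat_lit 5838528559) (dlOf (nat_lit 1) (nat_lit 0x180018090001))) 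
(.lf (nat_lit 3557351471) (dlOf (nat_lit 2) (nat_lit 0xb8000000260400ec004006e00081c0702))))) 
(.nd (nat_lit 6) (.nd (nat_lit 8) (.nd (nat_lit 31) 
(.lf (nat_lit 5301660207) (dlOf (nat_lit 1) (nat_lit 0x2800400140018005182))) 
(.lf (nat_lit 3154176559) (dlOf (nat_lit 1) (nat_lit 0x800200180008085182)))) 
(.lf (nat_lit 3154176815) (dlOf (nat_lit 1) (nat_lit 0x400400020008085c02)))) (.nd (nat_lit 8) 
(.lf (nat_lit 469824239) (dlOf (nat_lit 1) (nat_lit 0x80018008e81))) 
(.lf (nat_lit 5704313839) (dlOf (nat_lit 1) (nat_lit 0x8008000400200020008055f03)))))))))) 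
(.nd (nat_lit 5) (.nd (nat_lit 28) (.nd (nat_lit 15) (.nd (nat_lit 29) (.nd (nat_lit 20) 
(.nd (nat_lit 8) (.nd (nat_lit 6) (.nd (nat_lit 10) (.nd (nat_lit 21) 
(.lf (nat_lit 3422838799) (dlOf (nat_lit 2) (nat_lit 0x1780000000004002400200160008110102))) 
(.lf (nat_lit 10772495) (dlOf (nat_lit 1) (nat_lit 0x20018620481)))) 
(.lf (nat_lit 1141138447) (dlOf (nat_lit 1) (nat_lit 0x100028122881)))) (.nd (nat_lit 7) 
(.lf (nat_lit 17588303) (dlOf (nat_lit 2) (nat_lit 0xbdd880086ebc000be080008002000200088e0202))) 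
(.lf (nat_lit 288975) (dlOf (nat_lit 1) (nat_lit 0x20028004a01))))) (.nd (nat_lit 6) 
(.nd (nat_lit 7) 
(.lf (nat_lit 51142927) (dlOf (nat_lit 2) (nat_lit 0x3ba140000004001c00400080009507402))) 
(.nd (nat_lit 26) 
(.lf (nat_lit 135029135) (dlOf (nat_lit 1) (nat_lit 0x80080038002000400081b0783))) 
(.lf (nat_lit 202137999) (dlOf (nat_lit 1) (nat_lit 0x80080038002000400081b0783))))) 
(.nd (nat_lit 21) (.lf (nat_lit 3221512527) (dlOf (nat_lit 1) (nat_lit 0x5c00400060008124c82))) 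
(.lf (nat_lit 23355727) (dlOf (nat_lit 1) (nat_lit 0x1c0028b80601)))))) (.nd (nat_lit 19) 
(.nd (nat_lit 21) (.nd (nat_lit 24) 
(.lf (nat_lit 47472655) (dlOf (nat_lit 1) (nat_lit 0x4004000200093f0082))) 
(.lf (nat_lit 30695439) (dlOf (nat_lit 2) (nat_lit 0x1ec8d001fbc0803a8008002000200740008e40783)))) 
(.nd (nat_lit 6) (.nd (nat_lit 7) 
(.lf (nat_lit 16015375) (dlOf (nat_lit 1) (nat_lit 0x8008000400200020008860283))) 
(.lf (nat_lit 20214159) (dlOf (nat_lit 1) (nat_lit 0x4004000200189d8382)))) 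
(.lf (nat_lit 45375567) (dlOf (nat_lit 1) (nat_lit 0x100029320001))))) (.nd (nat_lit 6) 
(.nd (nat_lit 7) (.nd (nat_lit 8) 
(.lf (nat_lit 10248207) (dlOf (nat_lit 1) (nat_lit 0x4002000200085c0882))) 
(.lf (nat_lit 20737295) (dlOf (nat_lit 1) (nat_lit 0x400089d6701)))) 
(.lf (nat_lit 20736911) (dlOf (nat_lit 1) (nat_lit 0x8004000200089d5c82)))) (.nd (nat_lit 10) 
(.lf (nat_lit 45899855) (dlOf (nat_lit 1) (nat_lit 0x20029360701))) 
(.lf (nat_lit 35415119) (dlOf (nat_lit 1) (nat_lit 0x28008000400200020009012883))))))) 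
(.nd (nat_lit 30) (.nd (nat_lit 10) (.nd (nat_lit 26) (.nd (nat_lit 31) 
(.lf (nat_lit 537157647) (dlOf (nat_lit 1) (nat_lit 0xb8008005c00200940008030883))) 
(.lf (nat_lit 2684641295) (dlOf (nat_lit 10) (nat_lit 0x1100580004f0200c803200023810011019000500ac0008c080ba00640004502000e02c00021010027019003700ac0007c0800400580003c0200700320001c0100190160000d4080820008000400200080008100183)))) 
(.nd (nat_lit 6) (.lf (nat_lit 604266511) (dlOf (nat_lit 1) (nat_lit 0x24002001e0008110382))) 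
(.lf (nat_lit 2751752527) (dlOf (nat_lit 1) (nat_lit 0x400400020018004d82))))) (.nd (nat_lit 11) 
(.nd (nat_lit 19) (.lf (nat_lit 2885968911) (dlOf (nat_lit 1) (nat_lit 0x1c0028142881))) 
(.lf (nat_lit 2752275471) (dlOf (nat_lit 1) (nat_lit 0x20018002881)))) 
(.lf (nat_lit 4899236879) (dlOf (nat_lit 1) (nat_lit 0xc000180d5f81))))) (.nd (nat_lit 6) 
(.nd (nat_lit 31) 
(.lf (nat_lit 1678008335) (dlOf (nat_lit 2) (nat_lit 0x780380031c04002400200080008130482))) 
(.lf (nat_lit 3825491983) (dlOf (nat_lit 3) (nat_lit 0x20028004800001a4504000600a001300000690c1000c0008004800200440008170883)))) 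
(.nd (nat_lit 7) (.nd (nat_lit 8) 
(.lf (nat_lit 3892600911) (dlOf (nat_lit 1) (nat_lit 0xe0008160181))) 
(.lf (nat_lit 3959710031) (dlOf (nat_lit 1) (nat_lit 0x5c00400060008124c82)))) 
(.lf (nat_lit 3892601039) (dlOf (nat_lit 1) (nat_lit 0x20028160481))))))) (.nd (nat_lit 21) 
(.nd (nat_lit 6) (.nd (nat_lit 19) (.nd (nat_lit 7) (.nd (nat_lit 22) (.nd (nat_lit 30) 
(.lf (nat_lit 2282020879) (dlOf (nat_lit 3) (nat_lit 0x600900023010007004800114080020008000800200060008100183))) 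
(.lf (nat_lit 1208279055) (dlOf (nat_lit 2) (nat_lit 0x8c039003858180b0000)))) 
(.lf (nat_lit 12902415) (dlOf (nat_lit 5) (nat_lit 0x66280006308000396e40000c0c000cc50000c61000072dc8000141800198fc0018c50001261000092dc8000102000298a00020c2000125b900032c300000c2000200080004002000c00086e0483)))) 
(.lf (nat_lit 671408271) (dlOf (nat_lit 5) (nat_lit 0x6405c0002f02003202e000168100190170000ac0800c80b80005404003c00200200008183e02)))) 
(.nd (nat_lit 20) (.nd (nat_lit 22) 
(.lf (nat_lit 2819416079) (dlOf (nat_lit 2) (nat_lit 0xc0be00060450007020000180000011010001800400040008280182))) 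
(.lf (nat_lit 21815311) (dlOf (nat_lit 1) (nat_lit 0x20028a70481)))) 
(.lf (nat_lit 10280975) (dlOf (nat_lit 1) (nat_lit 0x200285c0881))))) (.nd (nat_lit 26) 
(.nd (nat_lit 29) 
(.lf (nat_lit 1208279119) (dlOf (nat_lit 5) (nat_lit 0x19c01c800154080c200e4000a80402c40720005302000202700040050000881002c8008002400200e400080b0683))) 
(.lf (nat_lit 1745150031) (dlOf (nat_lit 2) (nat_lit 0xaa022000210180b0680)))) 
(.lf (nat_lit 2349129807) (dlOf (nat_lit 2) (nat_lit 0xc020002a00e000080280c1900))))) 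
(.nd (nat_lit 19) (.nd (nat_lit 9) (.nd (nat_lit 7) 
(.lf (nat_lit 41214223) (dlOf (nat_lit 1) (nat_lit 0x60029223b01))) 
(.lf (nat_lit 23388303) (dlOf (nat_lit 1) (nat_lit 0x400200020008b80102)))) (.nd (nat_lit 6) 
(.lf (nat_lit 20248079) (dlOf (nat_lit 1) (nat_lit 0x180080008002000400089d9c03))) 
(.lf (nat_lit 45410895) (dlOf (nat_lit 1) (nat_lit 0x5000800a000200380009325283))))) 
(.nd (nat_lit 20) (.nd (nat_lit 22) 
(.lf (nat_lit 2754404367) (dlOf (nat_lit 2) (nat_lit 0xb9083c00076040020002002800080e0102))) 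
(.lf (nat_lit 15523855) (dlOf (nat_lit 1) (nat_lit 0x8e0028800281)))) 
(.lf (nat_lit 29155343) (dlOf (nat_lit 2) (nat_lit 0x2a5b003f7818dd0a00))))))) (.nd (nat_lit 15) 
(.nd (nat_lit 26) (.nd (nat_lit 27) (.nd (nat_lit 7) (.nd (nat_lit 30) (.nd (nat_lit 6) 
(.lf (nat_lit 805593103) (dlOf (nat_lit 2) (nat_lit 0x78038001fc04002400200080008130482))) 
(.lf (nat_lit 268722255) (dlOf (nat_lit 1) (nat_lit 0x20028100681)))) (.nd (nat_lit 20) 
(.lf (nat_lit 1342464015) (dlOf (nat_lit 1) (nat_lit 0x60028030881))) 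
(.lf (nat_lit 1343512591) (dlOf (nat_lit 1) (nat_lit 0xc0018280181))))) (.nd (nat_lit 9) 
(.lf (nat_lit 3489951119) (dlOf (nat_lit 1) (nat_lit 0x20018006c81))) 
(.lf (nat_lit 1880910735) (dlOf (nat_lit 1) (nat_lit 0x10008000400200020008c95c83))))) 
(.nd (nat_lit 6) (.nd (nat_lit 10) 
(.lf (nat_lit 3087294479) (dlOf (nat_lit 3) (nat_lit 0x20028004800001daa04000600a00130000076a01000c0008004800200440008170883))) 
(.lf (nat_lit 5771652111) (dlOf (nat_lit 1) (nat_lit 0x8008000400200020008005f83)))) 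
(.nd (nat_lit 7) 
(.lf (nat_lit 402939983) (dlOf (nat_lit 4) (nat_lit 0x10068000c40800200340004404004401a0000002000400280b0681))) 
(.nd (nat_lit 8) (.lf (nat_lit 4697907407) (dlOf (nat_lit 2) (nat_lit 0x90031000168180c1800))) 
(.lf (nat_lit 3624168911) (dlOf (nat_lit 1) (nat_lit 0x460028146d01))))))) (.nd (nat_lit 31) 
(.nd (nat_lit 6) (.nd (nat_lit 7) (.nd (nat_lit 27) 
(.lf (nat_lit 1409572879) (dlOf (nat_lit 1) (nat_lit 0xb8008005c00200940008030883))) 
(.lf (nat_lit 470048783) (dlOf (nat_lit 1) (nat_lit 0x60028030881)))) 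
(.lf (nat_lit 5704541583) (dlOf (nat_lit 1) (nat_lit 0x4002002000080d3602)))) (.nd (nat_lit 8) 
(.lf (nat_lit 335831119) (dlOf (nat_lit 4) (nat_lit 0x10068000c40800200340004404004401a0000002000400280b0681))) 
(.lf (nat_lit 5301888335) (dlOf (nat_lit 5) (nat_lit 0x66011000158101eb0188000a00801700c40004e0401c00280248011000128280e3300))))) 
(.nd (nat_lit 6) (.nd (nat_lit 7) (.nd (nat_lit 21) 
(.lf (nat_lit 3557580815) (dlOf (nat_lit 3) (nat_lit 0xe07000030000001d01000181d000000040004002001a0008270202))) 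
(.lf (nat_lit 4096548879) (dlOf (nat_lit 1) (nat_lit 0x400400020008120002)))) 
(.lf (nat_lit 3557060751) (dlOf (nat_lit 1) (nat_lit 0x10008001c00200040008127d83)))) 
(.nd (nat_lit 19) (.lf (nat_lit 3020185679) (dlOf (nat_lit 1) (nat_lit 0x400400020008150702))) 
(.lf (nat_lit 4096548943) (dlOf (nat_lit 1) (nat_lit 0x40008000400200020008120503))))))) 
(.nd (nat_lit 27) (.nd (nat_lit 30) (.nd (nat_lit 6) (.nd (nat_lit 26) 
(.lf (nat_lit 2416238607) (dlOf (nat_lit 1) (nat_lit 0x4004000200080c0902))) (.nd (nat_lit 31) 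
(.lf (nat_lit 5167702031) (dlOf (nat_lit 1) (nat_lit 0x1640008120a01))) 
(.lf (nat_lit 3020218383) (dlOf (nat_lit 1) (nat_lit 0xa00008180301))))) (.nd (nat_lit 29) 
(.lf (nat_lit 2483347535) (dlOf (nat_lit 4) (nat_lit 0x480400003a0400240200001c02000e010003c0070000441000c800800d0002003a00080c1583))) 
(.lf (nat_lit 872734799) (dlOf (nat_lit 2) (nat_lit 0xaa022000210180b0680))))) (.nd (nat_lit 19) 
(.nd (nat_lit 10) (.lf (nat_lit 1343545359) (dlOf (nat_lit 1) (nat_lit 0x800400080008290202))) 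
(.lf (nat_lit 1346692111) (dlOf (nat_lit 1) (nat_lit 0x40008fe2881)))) (.nd (nat_lit 6) 
(.nd (nat_lit 26) 
(.lf (nat_lit 3492601871) (dlOf (nat_lit 2) (nat_lit 0xb907e800076040020002002800080e0102))) 
(.lf (nat_lit 4096581647) (dlOf (nat_lit 1) (nat_lit 0x600080008002002a0008130083)))) 
(.lf (nat_lit 1410136143) (dlOf (nat_lit 1) (nat_lit 0x600280fa701)))))) (.nd (nat_lit 6) 
(.nd (nat_lit 7) (.nd (nat_lit 10) 
(.lf (nat_lit 2080694287) (dlOf (nat_lit 2) (nat_lit 0x8c0390065c0180b0000))) 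
(.lf (nat_lit 473228303) (dlOf (nat_lit 2) (nat_lit 0x1811a005f50200040018dd2881)))) 
(.nd (nat_lit 8) 
(.lf (nat_lit 1543823503) (dlOf (nat_lit 2) (nat_lit 0x80500005004003400400020008183e82))) 
(.nd (nat_lit 9) (.lf (nat_lit 6308553103) (dlOf (nat_lit 1) (nat_lit 0x4004003000080f5d82))) 
(.lf (nat_lit 5771684751) (dlOf (nat_lit 1) (nat_lit 0x20008005c81)))))) (.nd (nat_lit 26) 
(.nd (nat_lit 29) 
(.lf (nat_lit 2550456399) (dlOf (nat_lit 1) (nat_lit 0x80080004002000200080c1583))) 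
(.lf (nat_lit 5234810959) (dlOf (nat_lit 1) (nat_lit 0x580080030002000e00080e1703)))) 
(.nd (nat_lit 9) 
(.lf (nat_lit 2080694351) (dlOf (nat_lit 5) (nat_lit 0x19c01c800154080c200e4000a80402c40720005302000202700040050000881002c8008002400200e400080b0683))) 
(.lf (nat_lit 472705615) (dlOf (nat_lit 2) (nat_lit 0x215800000018a45280))))))))) (.nd (nat_lit 15) 
(.nd (nat_lit 26) (.nd (nat_lit 20) (.nd (nat_lit 30) (.nd (nat_lit 7) (.nd (nat_lit 21) 
(.nd (nat_lit 6) (.nd (nat_lit 32) 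
(.lf (nat_lit 671375407) (dlOf (nat_lit 1) (nat_lit 0xb800802a000200460008170c83))) 
(.lf (nat_lit 4966342703) (dlOf (nat_lit 1) (nat_lit 0x4004000200080b0482)))) 
(.lf (nat_lit 25452911) (dlOf (nat_lit 1) (nat_lit 0x400400020008c10a02)))) (.nd (nat_lit 19) 
(.lf (nat_lit 44326959) (dlOf (nat_lit 5) (nat_lit 0x25490001aa3a00095130009a4b8001ec2000254900012a3a000d5130007a4b8001e820005d4900032a3a00115130009a4b8001e420002d4900016a3a00115130009a4b8001e02000080080004002000200092f0d03))) 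
(.lf (nat_lit 11296815) (dlOf (nat_lit 1) (nat_lit 0x8008000400200020008680d83))))) 
(.nd (nat_lit 6) (.nd (nat_lit 8) 
(.lf (nat_lit 4563689647) (dlOf (nat_lit 2) (nat_lit 0xa01a0000140800280080138002003400080c1583))) 
(.lf (nat_lit 19691951) (dlOf (nat_lit 1) (nat_lit 0x3c00289daf81)))) (.nd (nat_lit 8) 
(.lf (nat_lit 6442737903) (dlOf (nat_lit 1) (nat_lit 0x4004000200081b0482))) 
(.lf (nat_lit 54815727) (dlOf (nat_lit 1) (nat_lit 0x20019655f01)))))) (.nd (nat_lit 32) 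
(.nd (nat_lit 6) (.nd (nat_lit 7) 
(.lf (nat_lit 3221512751) (dlOf (nat_lit 10) (nat_lit 0xd007c001e01c013a007006b8030034c000000240a005003e000d0170012007004b801c019200c00c200000008c3000680f8046401c01460000001103002701f0097003803140000002006003003e0000f81001b01f00058070047c01c001200400b40000000782800980f8047c01c000a00300a80000000742004d80000003804002807c022c00e000100000006c1800180080934002083e0008128003))) 
(.lf (nat_lit 1345086639) (dlOf (nat_lit 3) (nat_lit 0x2831c000a404004c2d2005c168000d0b30001831c005418c00020bd0004051000a807000096200068004000400189e2c02)))) 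
(.lf (nat_lit 3492044911) (dlOf (nat_lit 1) (nat_lit 0x4004000200080a1582)))) (.nd (nat_lit 9) 
(.nd (nat_lit 27) (.lf (nat_lit 5368995887) (dlOf (nat_lit 1) (nat_lit 0x200280b0481))) 
(.lf (nat_lit 5503213615) (dlOf (nat_lit 1) (nat_lit 0x200280b0481)))) 
(.lf (nat_lit 5905867311) (dlOf (nat_lit 1) (nat_lit 0x40018158b01)))))) (.nd (nat_lit 21) 
(.nd (nat_lit 22) (.nd (nat_lit 7) 
(.lf (nat_lit 9723951) (dlOf (nat_lit 1) (nat_lit 0x100018580381))) 
(.lf (nat_lit 3490996399) (dlOf (nat_lit 1) (nat_lit 0x20028044c81)))) (.nd (nat_lit 19) 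
(.nd (nat_lit 23) (.lf (nat_lit 22306863) (dlOf (nat_lit 1) (nat_lit 0x80018ac0601))) 
(.lf (nat_lit 30695471) (dlOf (nat_lit 1) (nat_lit 0x8008000400200240008e40e83)))) 
(.lf (nat_lit 22831151) (dlOf (nat_lit 3) (nat_lit 0xed980005a0400177960000e0200100028b30681))))) 
(.nd (nat_lit 6) (.nd (nat_lit 10) 
(.lf (nat_lit 1345612207) (dlOf (nat_lit 1) (nat_lit 0x20008d74e81))) 
(.lf (nat_lit 8152495) (dlOf (nat_lit 1) (nat_lit 0x400200020008513602)))) (.nd (nat_lit 8) 
(.lf (nat_lit 62152815) (dlOf (nat_lit 1) (nat_lit 0x110008003000200560009960c83))) 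
(.lf (nat_lit 3432815) (dlOf (nat_lit 1) (nat_lit 0x800400020008200782))))))) (.nd (nat_lit 29) 
(.nd (nat_lit 27) (.nd (nat_lit 6) (.nd (nat_lit 9) 
(.lf (nat_lit 4362887215) (dlOf (nat_lit 1) (nat_lit 0x80080014002000600081a0003))) 
(.lf (nat_lit 6509847087) (dlOf (nat_lit 4) (nat_lit 0x701a800c809800d002e0005e0600300260002e0100140130001500800100080048002000a0008158003)))) 
(.lf (nat_lit 2483314799) (dlOf (nat_lit 1) (nat_lit 0xc004000200180a1582)))) (.nd (nat_lit 8) 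
(.nd (nat_lit 6) 
(.lf (nat_lit 1543790639) (dlOf (nat_lit 1) (nat_lit 0xb800802a000200460008170c83))) 
(.lf (nat_lit 2349097071) (dlOf (nat_lit 1) (nat_lit 0xc004000200180a1582)))) (.nd (nat_lit 7) 
(.lf (nat_lit 202137903) (dlOf (nat_lit 2) (nat_lit 0x1080000006c04002c002001200081b0502))) 
(.lf (nat_lit 473196975) (dlOf (nat_lit 1) (nat_lit 0x8008000400200020008d74e83)))))) 
(.nd (nat_lit 9) (.nd (nat_lit 27) (.nd (nat_lit 6) 
(.lf (nat_lit 2752798895) (dlOf (nat_lit 1) (nat_lit 0x20028044c81))) 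
(.lf (nat_lit 2753847407) (dlOf (nat_lit 1) (nat_lit 0x4004000200080a1582)))) (.nd (nat_lit 8) 
(.lf (nat_lit 5033451567) (dlOf (nat_lit 1) (nat_lit 0x4004000200080b0482))) 
(.lf (nat_lit 6376153391) (dlOf (nat_lit 1) (nat_lit 0x40028090b01))))) (.nd (nat_lit 6) 
(.nd (nat_lit 10) (.lf (nat_lit 3959710255) (dlOf (nat_lit 1) (nat_lit 0x20028128b01))) 
(.lf (nat_lit 2754899503) (dlOf (nat_lit 2) (nat_lit 0xc81120004e02000600180f7181)))) 
(.lf (nat_lit 738487279) (dlOf (nat_lit 2) (nat_lit 0x702d0001000800f8008000800200020008095f03))))))) 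
(.nd (nat_lit 21) (.nd (nat_lit 27) (.nd (nat_lit 6) (.nd (nat_lit 22) (.nd (nat_lit 26) 
(.nd (nat_lit 7) (.nd (nat_lit 31) 
(.lf (nat_lit 268754991) (dlOf (nat_lit 4) (nat_lit 0x42015002600a402ac05000ba0270001004005f01400004c0800a80a0000180400fc00200280008120382))) 
(.lf (nat_lit 2416238639) (dlOf (nat_lit 1) (nat_lit 0x80080004002000200080c0f03)))) 
(.lf (nat_lit 323247) (dlOf (nat_lit 1) (nat_lit 0x20018007281)))) (.nd (nat_lit 19) 
(.nd (nat_lit 28) 
(.lf (nat_lit 4362395695) (dlOf (nat_lit 3) (nat_lit 0x180a6000c0470002019800080b4001b61000180a6000a0470006019800300b4001b210002800400020018050602))) 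
(.lf (nat_lit 2483347503) (dlOf (nat_lit 2) (nat_lit 0x500068000d408016000803a4002002000080c0e83)))) 
(.lf (nat_lit 4362919983) (dlOf (nat_lit 2) (nat_lit 0x70000000000400bc002003a00081a0002))))) 
(.nd (nat_lit 19) (.nd (nat_lit 7) 
(.lf (nat_lit 21291567) (dlOf (nat_lit 3) (nat_lit 0x119ea00024020038cf50000f018a38000))) 
(.lf (nat_lit 39119279) (dlOf (nat_lit 1) (nat_lit 0x20019194e81)))) (.nd (nat_lit 20) 
(.lf (nat_lit 5038127) (dlOf (nat_lit 1) (nat_lit 0x200082f0901))) (.nd (nat_lit 24) 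
(.lf (nat_lit 6086703) (dlOf (nat_lit 1) (nat_lit 0x400200020008420002))) 
(.lf (nat_lit 22863919) (dlOf (nat_lit 1) (nat_lit 0x40018b30681))))))) (.nd (nat_lit 7) 
(.nd (nat_lit 20) (.nd (nat_lit 26) 
(.lf (nat_lit 4026851439) (dlOf (nat_lit 1) (nat_lit 0x200280a1581))) 
(.lf (nat_lit 3288653935) (dlOf (nat_lit 1) (nat_lit 0x200280a1581)))) 
(.lf (nat_lit 9756783) (dlOf (nat_lit 1) (nat_lit 0x900008580c81)))) (.nd (nat_lit 8) 
(.lf (nat_lit 6442770671) (dlOf (nat_lit 1) (nat_lit 0xe00281b0481))) 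
(.lf (nat_lit 60091375) (dlOf (nat_lit 1) (nat_lit 0x20029845f01)))))) (.nd (nat_lit 28) 
(.nd (nat_lit 26) (.nd (nat_lit 8) (.nd (nat_lit 30) 
(.lf (nat_lit 2282020911) (dlOf (nat_lit 1) (nat_lit 0x800400020018100d82))) 
(.lf (nat_lit 1208279087) (dlOf (nat_lit 5) (nat_lit 0x2820390011301003b0060001f808026002c000280400cc072000000200c000080b0481)))) 
(.lf (nat_lit 671408431) (dlOf (nat_lit 3) (nat_lit 0xbf40460192020000400e801c006000040200016008001f00280131c38008808c0096404033000400320018188402)))) 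
(.nd (nat_lit 9) (.nd (nat_lit 19) 
(.lf (nat_lit 3959742767) (dlOf (nat_lit 1) (nat_lit 0x100028138401))) 
(.lf (nat_lit 202170671) (dlOf (nat_lit 1) (nat_lit 0x9c00201f000081b0502)))) (.nd (nat_lit 6) 
(.lf (nat_lit 2886002479) (dlOf (nat_lit 1) (nat_lit 0x8008000800200020008143d83))) 
(.lf (nat_lit 4496616431) (dlOf (nat_lit 1) (nat_lit 0x4004000200080e5f02)))))) (.nd (nat_lit 26) 
(.nd (nat_lit 6) (.nd (nat_lit 7) 
(.lf (nat_lit 2550456367) (dlOf (nat_lit 1) (nat_lit 0x80080004002000200080c0e83))) 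
(.lf (nat_lit 402972847) (dlOf (nat_lit 1) (nat_lit 0x4002000200080c1582)))) 
(.lf (nat_lit 5773254767) (dlOf (nat_lit 1) (nat_lit 0x200280c0a81)))) (.nd (nat_lit 6) 
(.nd (nat_lit 8) (.nd (nat_lit 31) 
(.lf (nat_lit 2080694319) (dlOf (nat_lit 5) (nat_lit 0x2820390011301003b0060001f808026002c000300400cc072000000200c000080b0481))) 
(.lf (nat_lit 4228177967) (dlOf (nat_lit 3) (nat_lit 0x18098000c0400002019000080b00019a100018098000a0400006019000300b00019610002800400020018050602)))) 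
(.lf (nat_lit 1543823663) (dlOf (nat_lit 3) (nat_lit 0x10118001500800b008c00300100032005001a0000001302001b00080048002005e0008187a03)))) 
(.lf (nat_lit 6377234543) (dlOf (nat_lit 1) (nat_lit 0x200280c0a81))))))) (.nd (nat_lit 20) 
(.nd (nat_lit 19) (.nd (nat_lit 6) (.nd (nat_lit 9) (.nd (nat_lit 23) 
(.lf (nat_lit 6610991) (dlOf (nat_lit 1) (nat_lit 0x20018430e81))) 
(.lf (nat_lit 14999599) (dlOf (nat_lit 1) (nat_lit 0x4002000600087a0d02)))) 
(.lf (nat_lit 35973679) (dlOf (nat_lit 1) (nat_lit 0x40019015181)))) (.nd (nat_lit 7) 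
(.lf (nat_lit 56943727) (dlOf (nat_lit 1) (nat_lit 0x20019792a01))) 
(.lf (nat_lit 23388655) (dlOf (nat_lit 2) (nat_lit 0x6322c0031870000a8828b80d80))))) 
(.nd (nat_lit 28) (.nd (nat_lit 26) 
(.lf (nat_lit 2940975) (dlOf (nat_lit 2) (nat_lit 0x402d00002a02000800081e0901))) 
(.lf (nat_lit 2754404399) (dlOf (nat_lit 7) (nat_lit 0x20042000d8169000c0a9000158180078840000aa040020236000510202da21100009810160108800048080b6084400020040234004007800080e0682)))) 
(.nd (nat_lit 7) 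
(.lf (nat_lit 3492601903) (dlOf (nat_lit 7) (nat_lit 0x2003f600d8165000c0ae0001581800787ec000aa040020236000510202da1fc000098101600fe000048080b607f000020040234004007800080e0682))) 
(.lf (nat_lit 1345120687) (dlOf (nat_lit 1) (nat_lit 0x18008000800200040008a44e83)))))) 
(.nd (nat_lit 9) (.nd (nat_lit 22) (.nd (nat_lit 19) 
(.lf (nat_lit 62185519) (dlOf (nat_lit 7) (nat_lit 0x8296c00194b20008a510003527800628a8001c61400114a00002a3c000800000038818004a9440024000000e104000ea5b000752d0001a96400054a20016a4f000d5140001ec300012964004949e0006a280003d03000a52d8001e008053800800b800200120009970d03))) 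
(.lf (nat_lit 2755452975) (dlOf (nat_lit 1) (nat_lit 0x10008000400200020008190903)))) 
(.nd (nat_lit 23) (.lf (nat_lit 7659567) (dlOf (nat_lit 1) (nat_lit 0x200184c0e81))) 
(.lf (nat_lit 16048175) (dlOf (nat_lit 1) (nat_lit 0x940008860901))))) (.nd (nat_lit 8) 
(.nd (nat_lit 10) (.lf (nat_lit 473229871) (dlOf (nat_lit 1) (nat_lit 0x40008dd5181))) 
(.lf (nat_lit 2754932271) (dlOf (nat_lit 6) (nat_lit 0xc043000154080ef0218000a804078810c000510200d20b20002781007305900bc022404f01100004e06000e00080f7181)))) 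
(.nd (nat_lit 6) (.lf (nat_lit 20248367) (dlOf (nat_lit 2) (nat_lit 0xb5f3000210189da100))) 
(.lf (nat_lit 8185839) (dlOf (nat_lit 2) (nat_lit 0x2e40c00400c68000c810022000800e400200140008514603))))))))))) 
(.nd (nat_lit 15) (.nd (nat_lit 6) (.nd (nat_lit 5) (.nd (nat_lit 27) (.nd (nat_lit 18) 
(.nd (nat_lit 10) (.nd (nat_lit 20) (.nd (nat_lit 21) (.nd (nat_lit 19) 
(.lf (nat_lit 1610702863) (dlOf (nat_lit 1) (nat_lit 0x400400020008090002))) 
(.lf (nat_lit 55140367) (dlOf (nat_lit 1) (nat_lit 0x8002009c00096c0082)))) (.nd (nat_lit 24) 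
(.lf (nat_lit 11100175) (dlOf (nat_lit 1) (nat_lit 0x40018660181))) 
(.lf (nat_lit 27877391) (dlOf (nat_lit 2) (nat_lit 0x660480022c0800e00080068002000c0008d40183))))) 
(.nd (nat_lit 7) (.nd (nat_lit 21) 
(.lf (nat_lit 26828815) (dlOf (nat_lit 1) (nat_lit 0x4a0028c80481))) 
(.lf (nat_lit 24731663) (dlOf (nat_lit 1) (nat_lit 0x8008002000200020008bb0083)))) 
(.lf (nat_lit 20017807) (dlOf (nat_lit 1) (nat_lit 0x600080028002001800089d8c83))))) 
(.nd (nat_lit 8) (.nd (nat_lit 7) (.nd (nat_lit 11) 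
(.lf (nat_lit 4362167311) (dlOf (nat_lit 1) (nat_lit 0x780028002881))) 
(.lf (nat_lit 6710979599) (dlOf (nat_lit 1) (nat_lit 0x400200020008005f82)))) 
(.lf (nat_lit 1611228303) (dlOf (nat_lit 3) (nat_lit 0x1015c0004c04000c0ae000210200120028122b01)))) 
(.nd (nat_lit 11) (.nd (nat_lit 19) 
(.lf (nat_lit 6241215887) (dlOf (nat_lit 1) (nat_lit 0x78004000c0008053602))) 
(.lf (nat_lit 53044623) (dlOf (nat_lit 1) (nat_lit 0x400400020009573602)))) 
(.lf (nat_lit 3825298831) (dlOf (nat_lit 1) (nat_lit 0x8008000400200020008146c83)))))) 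
(.nd (nat_lit 21) (.nd (nat_lit 28) (.nd (nat_lit 19) (.nd (nat_lit 10) 
(.lf (nat_lit 4362428431) (dlOf (nat_lit 1) (nat_lit 0x1e0018070501))) 
(.lf (nat_lit 51733519) (dlOf (nat_lit 1) (nat_lit 0x20019512881)))) (.nd (nat_lit 22) 
(.lf (nat_lit 27090959) (dlOf (nat_lit 1) (nat_lit 0x60004006c0008ca0482))) 
(.lf (nat_lit 22896655) (dlOf (nat_lit 1) (nat_lit 0x120008b40181))))) (.nd (nat_lit 8) 
(.nd (nat_lit 22) (.lf (nat_lit 4026884111) (dlOf (nat_lit 2) (nat_lit 0x10036000a18180c0900))) 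
(.lf (nat_lit 1346723855) (dlOf (nat_lit 1) (nat_lit 0x160018ff0201)))) (.nd (nat_lit 7) 
(.lf (nat_lit 3557122319) (dlOf (nat_lit 1) (nat_lit 0x20018130701))) 
(.lf (nat_lit 5100626319) (dlOf (nat_lit 1) (nat_lit 0x1060008105d81)))))) (.nd (nat_lit 7) 
(.nd (nat_lit 19) (.nd (nat_lit 11) 
(.lf (nat_lit 4096091151) (dlOf (nat_lit 1) (nat_lit 0x400280e2881))) 
(.lf (nat_lit 20278287) (dlOf (nat_lit 1) (nat_lit 0x4002000200089d5f82)))) (.nd (nat_lit 10) 
(.lf (nat_lit 15556623) (dlOf (nat_lit 1) (nat_lit 0x400200020008800282))) 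
(.lf (nat_lit 1345152015) (dlOf (nat_lit 1) (nat_lit 0x14400200020008aa2882))))) (.nd (nat_lit 8) 
(.lf (nat_lit 23421071) (dlOf (nat_lit 1) (nat_lit 0x8008000400200020008b80103))) (.nd (nat_lit 20) 
(.lf (nat_lit 36530575) (dlOf (nat_lit 1) (nat_lit 0x40019074e81))) 
(.lf (nat_lit 33384847) (dlOf (nat_lit 1) (nat_lit 0x400200020008f54e82)))))))) (.nd (nat_lit 28) 
(.nd (nat_lit 29) (.nd (nat_lit 9) (.nd (nat_lit 8) (.nd (nat_lit 18) 
(.lf (nat_lit 201941007) (dlOf (nat_lit 2) (nat_lit 0x4041000a78180c0900))) 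
(.lf (nat_lit 3355795471) (dlOf (nat_lit 21) (nat_lit 0x82033000601900b600c40009e0c03a4064001c03100190090001381802280c80009a040628062023e02c0002382014d018800118080fb00c407180220004504008a0320002201007801900010c0804000c8000840400180640004102021a03200020010053019000300c40007c0804d40640003c0201ae03200670188000e01003600c8006806200035040378032000190101bc0190000bc0803f00c80002c04074006402800310000a020001019000000080290008000400200140008120183)))) 
(.lf (nat_lit 1208049935) (dlOf (nat_lit 3) (nat_lit 0x40720016002000c0270018005000364100020008001400200060008090a83)))) 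
(.nd (nat_lit 7) 
(.lf (nat_lit 2348900879) (dlOf (nat_lit 2) (nat_lit 0x480000098c04000800200180008018402))) 
(.lf (nat_lit 1208052367) (dlOf (nat_lit 2) (nat_lit 0x4203900000018095480))))) (.nd (nat_lit 7) 
(.nd (nat_lit 18) 
(.lf (nat_lit 3892928527) (dlOf (nat_lit 2) (nat_lit 0xde01600385408026800800f000200380008290783))) 
(.lf (nat_lit 2818924559) (dlOf (nat_lit 1) (nat_lit 0x12800800b400200280008130003)))) 
(.nd (nat_lit 8) (.nd (nat_lit 12) 
(.lf (nat_lit 2818663567) (dlOf (nat_lit 1) (nat_lit 0x1c002000200080d2b02))) 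
(.lf (nat_lit 6039893135) (dlOf (nat_lit 1) (nat_lit 0x1920018009501)))) 
(.lf (nat_lit 1812032911) (dlOf (nat_lit 1) (nat_lit 0x8008000400200020008146c83)))))) 
(.nd (nat_lit 26) (.nd (nat_lit 8) (.nd (nat_lit 9) (.nd (nat_lit 11) 
(.lf (nat_lit 939615247) (dlOf (nat_lit 1) (nat_lit 0xc0028142881))) 
(.lf (nat_lit 5234584591) (dlOf (nat_lit 1) (nat_lit 0x20018055f81)))) 
(.lf (nat_lit 4697712143) (dlOf (nat_lit 1) (nat_lit 0x20028093681)))) (.nd (nat_lit 7) 
(.lf (nat_lit 1476485391) (dlOf (nat_lit 2) (nat_lit 0x1804400d1404000800400020008010702))) 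
(.lf (nat_lit 5771455375) (dlOf (nat_lit 1) (nat_lit 0x400200020008005c82))))) (.nd (nat_lit 18) 
(.nd (nat_lit 8) (.nd (nat_lit 30) 
(.lf (nat_lit 1007247375) (dlOf (nat_lit 1) (nat_lit 0x600182a0181))) 
(.lf (nat_lit 4228472847) (dlOf (nat_lit 1) (nat_lit 0x1400180d0781)))) 
(.lf (nat_lit 2617341199) (dlOf (nat_lit 1) (nat_lit 0x4004000200080a9682)))) (.nd (nat_lit 20) 
(.nd (nat_lit 29) 
(.lf (nat_lit 2617597967) (dlOf (nat_lit 31) (nat_lit 0xa480c8019406001c602f014f017000580980038036027a012009c00880318024007c0020004f1400e2032009a017803000b8073c0240004e0801a802f000f017006b00480009a0c027405e02200120002602003201780012c0809c00c8056005c025a0290087008804b80240050000000470c0042032015b017000e00b401b40320022018001b00b809b8044024002000f0007003b0018001185005480c8082805c07ba01100d60000001142004d00c806a005e00ce02e01a50090001102001300c8099c05e008602e000d00b810880480568022000430c001203201af01780fd8048000840c005005e000410201f202f003d0170018804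8000800c04c805e012a02e005d00900c980440007c1000cc05e002402e00a30088000f41801700c8070805e017602e015600900b700440007814017002401ba0110001d8200110088000e80801f004802780220003904010803201c9017808d80b8082c02403140110001c05001a0170001804801f40220003706000a02f0001b0100e4017801f00b801b0024000350600ae012009f0088000cc1002300c804ec05e01d401200070000000c82009f80bc014805c006a01200017830003017804480b80002c08071c05e01f802e015800900340044000281002ec05e000110202e002f012c009000000100e400080f5c00204dc0008100183))) 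
(.lf (nat_lit 4228210703) (dlOf (nat_lit 1) (nat_lit 0x1e0018070501)))) 
(.lf (nat_lit 471162895) (dlOf (nat_lit 2) (nat_lit 0xc444001618c000448282a0180)))))))) 
(.nd (nat_lit 26) (.nd (nat_lit 19) (.nd (nat_lit 18) (.nd (nat_lit 27) (.nd (nat_lit 28) 
(.nd (nat_lit 8) (.lf (nat_lit 58812975) (dlOf (nat_lit 1) (nat_lit 0x400297e5181))) 
(.lf (nat_lit 3236143) (dlOf (nat_lit 1) (nat_lit 0x40008200501)))) (.nd (nat_lit 31) 
(.lf (nat_lit 1343316015) (dlOf (nat_lit 4) (nat_lit 0x40c1c80001b0206740e40000d01000b0000000500802d8008016c002004400081e0703))) 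
(.lf (nat_lit 3490799663) (dlOf (nat_lit 1) (nat_lit 0x80008020581))))) (.nd (nat_lit 8) 
(.nd (nat_lit 28) (.lf (nat_lit 6039888431) (dlOf (nat_lit 1) (nat_lit 0x400400020008001482))) 
(.lf (nat_lit 2550227503) (dlOf (nat_lit 1) (nat_lit 0x60008000c002000a0008018003)))) 
(.nd (nat_lit 31) (.lf (nat_lit 939616047) (dlOf (nat_lit 1) (nat_lit 0x400400020008143d82))) 
(.lf (nat_lit 3087099695) (dlOf (nat_lit 1) (nat_lit 0x400400020008143d82)))))) (.nd (nat_lit 20) 
(.nd (nat_lit 27) (.nd (nat_lit 28) 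
(.lf (nat_lit 3758448687) (dlOf (nat_lit 1) (nat_lit 0x4004000200181c0702))) 
(.lf (nat_lit 1879400495) (dlOf (nat_lit 1) (nat_lit 0x8008000400200020008120e83)))) 
(.nd (nat_lit 29) (.lf (nat_lit 2550489135) (dlOf (nat_lit 1) (nat_lit 0x4002000200080c0e82))) 
(.lf (nat_lit 4161101871) (dlOf (nat_lit 1) (nat_lit 0xe0018130681))))) (.nd (nat_lit 8) 
(.nd (nat_lit 9) (.lf (nat_lit 1400879) (dlOf (nat_lit 1) (nat_lit 0x4004000200080c0c82))) 
(.lf (nat_lit 45443631) (dlOf (nat_lit 2) (nat_lit 0x596c0008c02000a0029325181)))) 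
(.lf (nat_lit 3498287) (dlOf (nat_lit 1) (nat_lit 0x20028200501)))))) (.nd (nat_lit 24) 
(.nd (nat_lit 18) (.nd (nat_lit 21) (.nd (nat_lit 29) 
(.lf (nat_lit 134832175) (dlOf (nat_lit 4) (nat_lit 0x480760002d02005003b0001581004901d8000a80801c00080014002004600080c0e83))) 
(.lf (nat_lit 3892928559) (dlOf (nat_lit 2) (nat_lit 0x381680006c040018004000c0008290e82)))) 
(.lf (nat_lit 3492372527) (dlOf (nat_lit 4) (nat_lit 0x907e80005a0400443f400541e30001502003a0f30000000800180080024002001200080c0e83)))) 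
(.nd (nat_lit 9) (.nd (nat_lit 21) 
(.lf (nat_lit 5070895) (dlOf (nat_lit 1) (nat_lit 0x8008000400200020008300703))) 
(.lf (nat_lit 3492634671) (dlOf (nat_lit 4) (nat_lit 0xda10580014408068882c0009c04001c4160004c02000600080e0681)))) 
(.nd (nat_lit 10) (.lf (nat_lit 38627887) (dlOf (nat_lit 1) (nat_lit 0x120009135181))) 
(.lf (nat_lit 8222255) (dlOf (nat_lit 1) (nat_lit 0x860018519c01)))))) (.nd (nat_lit 12) 
(.nd (nat_lit 22) (.nd (nat_lit 20) 
(.lf (nat_lit 17653807) (dlOf (nat_lit 1) (nat_lit 0x80080004002000200088e0003))) 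
(.lf (nat_lit 27090991) (dlOf (nat_lit 2) (nat_lit 0xc80000006a04007c00400d60008ca0702)))) 
(.nd (nat_lit 23) (.lf (nat_lit 21848111) (dlOf (nat_lit 1) (nat_lit 0x20028a70581))) 
(.lf (nat_lit 30236719) (dlOf (nat_lit 1) (nat_lit 0xd400400220008e30002))))) (.nd (nat_lit 7) 
(.lf (nat_lit 19755055) (dlOf (nat_lit 1) (nat_lit 0x600289d7c01))) 
(.lf (nat_lit 19757487) (dlOf (nat_lit 1) (nat_lit 0x600289daf81))))))) (.nd (nat_lit 27) 
(.nd (nat_lit 21) (.nd (nat_lit 29) (.nd (nat_lit 20) (.nd (nat_lit 30) 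
(.lf (nat_lit 4362428463) (dlOf (nat_lit 4) (nat_lit 0x7a80b80242053011b023800050180928170041c0a60288047000098303e301980004408013000801e000200080008070883))) 
(.lf (nat_lit 3288686639) (dlOf (nat_lit 8) (nat_lit 0x5602e00570140000d81007b80b8006c050000350400f602e0001a0104780168000b80824a80b40005a0411f405a0002b0209d002d000150180c0e80)))) 
(.lf (nat_lit 68509743) (dlOf (nat_lit 2) (nat_lit 0x800000001c04001000200020008590b82)))) 
(.nd (nat_lit 18) (.nd (nat_lit 7) 
(.lf (nat_lit 2752602159) (dlOf (nat_lit 1) (nat_lit 0x80008020581))) 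
(.lf (nat_lit 3825298863) (dlOf (nat_lit 1) (nat_lit 0x8008000400200020008146d03)))) 
(.nd (nat_lit 28) 
(.lf (nat_lit 4899299375) (dlOf (nat_lit 2) (nat_lit 0x234060000a02f00017028100380))) 
(.lf (nat_lit 1946509359) (dlOf (nat_lit 1) (nat_lit 0x20028090001)))))) (.nd (nat_lit 9) 
(.nd (nat_lit 18) (.lf (nat_lit 4096352303) (dlOf (nat_lit 1) (nat_lit 0x80018100481))) 
(.nd (nat_lit 19) (.lf (nat_lit 2753912879) (dlOf (nat_lit 1) (nat_lit 0x1c004001000080a0982))) 
(.lf (nat_lit 2754437167) (dlOf (nat_lit 4) (nat_lit 0xda1100001440806888800009c04001c4400004c02000600080e0681))))) 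
(.nd (nat_lit 7) (.lf (nat_lit 2754702895) (dlOf (nat_lit 2) (nat_lit 0xec088000270180f7180))) 
(.lf (nat_lit 2754968495) (dlOf (nat_lit 1) (nat_lit 0x4002000200080fbd82)))))) (.nd (nat_lit 8) 
(.nd (nat_lit 9) (.nd (nat_lit 28) 
(.lf (nat_lit 4496646191) (dlOf (nat_lit 1) (nat_lit 0x400400020008100482))) (.nd (nat_lit 29) 
(.lf (nat_lit 2617597999) (dlOf (nat_lit 1) (nat_lit 0x1c0008100d81))) 
(.lf (nat_lit 4228210735) (dlOf (nat_lit 6) (nat_lit 0xc102a8061013403d0098001004b0130020000400fc0020000000100e018405500a602680ee010000440740014032000c016000200000001e1c08400640000e0202a00320000681007602a80000c0802b8008018800200900008070903))))) 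
(.nd (nat_lit 10) (.nd (nat_lit 11) 
(.lf (nat_lit 6643868207) (dlOf (nat_lit 1) (nat_lit 0x400400020008001482))) 
(.lf (nat_lit 473262639) (dlOf (nat_lit 2) (nat_lit 0x424c00080dc00046028e35180)))) 
(.lf (nat_lit 2885774895) (dlOf (nat_lit 3) (nat_lit 0x5a011002e0086017403e00ba01e007800dc02d806a016c0000002a0700f301b800144080190008012400200020008007183))))) 
(.nd (nat_lit 7) (.nd (nat_lit 9) 
(.lf (nat_lit 1812032815) (dlOf (nat_lit 1) (nat_lit 0x360028146881))) 
(.lf (nat_lit 469853999) (dlOf (nat_lit 1) (nat_lit 0x460018003d81)))) (.nd (nat_lit 9) 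
(.nd (nat_lit 10) (.lf (nat_lit 472738223) (dlOf (nat_lit 1) (nat_lit 0x720018aa4e81))) 
(.lf (nat_lit 1812032943) (dlOf (nat_lit 1) (nat_lit 0x400400020008146d02)))) 
(.lf (nat_lit 2349169583) (dlOf (nat_lit 1) (nat_lit 0x200180fbd81))))))))) (.nd (nat_lit 8) 
(.nd (nat_lit 5) (.nd (nat_lit 18) (.nd (nat_lit 19) (.nd (nat_lit 7) (.nd (nat_lit 9) 
(.nd (nat_lit 10) (.nd (nat_lit 21) 
(.lf (nat_lit 25256015) (dlOf (nat_lit 2) (nat_lit 0xa80000008e04009c00200120008bf0d02))) 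
(.lf (nat_lit 1344364623) (dlOf (nat_lit 1) (nat_lit 0xb800400040008740202)))) 
(.lf (nat_lit 1610703951) (dlOf (nat_lit 2) (nat_lit 0x201480308404000800400260018092882)))) 
(.nd (nat_lit 20) (.lf (nat_lit 56715855) (dlOf (nat_lit 1) (nat_lit 0x8008000400200020009735283))) 
(.lf (nat_lit 53570127) (dlOf (nat_lit 1) (nat_lit 0x4002000200095f5282))))) (.nd (nat_lit 10) 
(.nd (nat_lit 26) (.lf (nat_lit 2952880335) (dlOf (nat_lit 1) (nat_lit 0x88002000e0008010482))) 
(.lf (nat_lit 604070095) (dlOf (nat_lit 1) (nat_lit 0x280080014002000a0008010483)))) 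
(.lf (nat_lit 1543597263) (dlOf (nat_lit 2) (nat_lit 0x700a0000000801600080034002005c0008146403))))) 
(.nd (nat_lit 21) (.nd (nat_lit 11) (.nd (nat_lit 20) (.nd (nat_lit 26) 
(.lf (nat_lit 3221839951) (dlOf (nat_lit 3) (nat_lit 0x1b40140001702013200a0000b0181a1580))) 
(.lf (nat_lit 3960037455) (dlOf (nat_lit 6) (nat_lit 0x20228000b80800501180005404007808c000280200be0460001381005f0230000900800080080004002000200081a1903)))) 
(.lf (nat_lit 4095303759) (dlOf (nat_lit 1) (nat_lit 0x18008001c00200020008090503)))) 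
(.nd (nat_lit 9) (.lf (nat_lit 9009231) (dlOf (nat_lit 1) (nat_lit 0x1800800040020006000851a703))) 
(.lf (nat_lit 1346988623) (dlOf (nat_lit 1) (nat_lit 0x400200020009165282))))) (.nd (nat_lit 26) 
(.nd (nat_lit 7) (.lf (nat_lit 3492372559) (dlOf (nat_lit 2) (nat_lit 0xa1e80000b0180c1580))) 
(.lf (nat_lit 7959247) (dlOf (nat_lit 1) (nat_lit 0x20018518c81)))) (.nd (nat_lit 28) 
(.lf (nat_lit 2754175055) (dlOf (nat_lit 1) (nat_lit 0x1600080c1901))) 
(.lf (nat_lit 4096352335) (dlOf (nat_lit 1) (nat_lit 0x440028100681))))))) (.nd (nat_lit 21) 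
(.nd (nat_lit 22) (.nd (nat_lit 28) (.nd (nat_lit 30) 
(.lf (nat_lit 2818924623) (dlOf (nat_lit 1) (nat_lit 0x20018130181))) 
(.lf (nat_lit 3892666447) (dlOf (nat_lit 1) (nat_lit 0xe0008180701)))) (.nd (nat_lit 11) 
(.lf (nat_lit 2550489167) (dlOf (nat_lit 1) (nat_lit 0x20008001c002000200080c1583))) 
(.lf (nat_lit 2483386447) (dlOf (nat_lit 1) (nat_lit 0x18002000800080fa702))))) (.nd (nat_lit 25) 
(.nd (nat_lit 7) (.lf (nat_lit 4546639) (dlOf (nat_lit 1) (nat_lit 0x30008006c00200080008290183))) 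
(.lf (nat_lit 4546767) (dlOf (nat_lit 1) (nat_lit 0x400200020008290482)))) (.nd (nat_lit 9) 
(.lf (nat_lit 55926863) (dlOf (nat_lit 2) (nat_lit 0x136a43000070196f0700))) 
(.lf (nat_lit 38627919) (dlOf (nat_lit 1) (nat_lit 0x40019135281)))))) (.nd (nat_lit 19) 
(.nd (nat_lit 9) 
(.lf (nat_lit 1009082447) (dlOf (nat_lit 1) (nat_lit 0x18008001000200040009061703))) 
(.lf (nat_lit 36006479) (dlOf (nat_lit 1) (nat_lit 0x400200020009015282)))) (.nd (nat_lit 10) 
(.lf (nat_lit 4022351) (dlOf (nat_lit 1) (nat_lit 0x20018270d01))) 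
(.lf (nat_lit 19756111) (dlOf (nat_lit 1) (nat_lit 0x780080060002003800089d9303))))))) 
(.nd (nat_lit 7) (.nd (nat_lit 10) (.nd (nat_lit 18) (.nd (nat_lit 20) (.nd (nat_lit 26) 
(.lf (nat_lit 6576758895) (dlOf (nat_lit 1) (nat_lit 0x590008001c002014200080c1583))) 
(.lf (nat_lit 5972779119) (dlOf (nat_lit 1) (nat_lit 0x590008001c002014200080c1583)))) 
(.nd (nat_lit 21) 
(.lf (nat_lit 47276143) (dlOf (nat_lit 5) (nat_lit 0x16d26000568c0002b410001d7ec0000c100012d26000b68c0006b41000257ec0000a10001ad26000f68c000ab410004d7ec00008100006d26000d68c0008b41000457ec00006100004002000600093c0c82))) 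
(.lf (nat_lit 24207471) (dlOf (nat_lit 1) (nat_lit 0x60008b91581))))) (.nd (nat_lit 21) 
(.lf (nat_lit 4899299439) (dlOf (nat_lit 2) (nat_lit 0x40190000bc0800a8008001000200020008100c83))) 
(.nd (nat_lit 28) (.lf (nat_lit 2449519) (dlOf (nat_lit 1) (nat_lit 0x260028161581))) 
(.lf (nat_lit 3492110447) (dlOf (nat_lit 1) (nat_lit 0x4004000200080a1582)))))) (.nd (nat_lit 11) 
(.nd (nat_lit 9) (.nd (nat_lit 18) 
(.lf (nat_lit 6377530479) (dlOf (nat_lit 1) (nat_lit 0x4004000200080e2a02))) 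
(.lf (nat_lit 50685039) (dlOf (nat_lit 1) (nat_lit 0x2b800400b000094c2a02)))) 
(.lf (nat_lit 7960175) (dlOf (nat_lit 1) (nat_lit 0xc00400040008519c82)))) (.nd (nat_lit 9) 
(.nd (nat_lit 12) (.lf (nat_lit 93295) (dlOf (nat_lit 1) (nat_lit 0x2c0018006081))) 
(.lf (nat_lit 1007516783) (dlOf (nat_lit 1) (nat_lit 0x3200183dc101)))) 
(.lf (nat_lit 1812033135) (dlOf (nat_lit 1) (nat_lit 0x280018147181)))))) (.nd (nat_lit 9) 
(.nd (nat_lit 11) (.nd (nat_lit 26) 
(.lf (nat_lit 1208049903) (dlOf (nat_lit 2) (nat_lit 0x8c04e003600a0007b828090a80))) 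
(.lf (nat_lit 335634671) (dlOf (nat_lit 1) (nat_lit 0x120028090a81)))) (.nd (nat_lit 10) 
(.lf (nat_lit 96495) (dlOf (nat_lit 1) (nat_lit 0x800800040020002000800a903))) 
(.lf (nat_lit 3825298671) (dlOf (nat_lit 1) (nat_lit 0x140018146501))))) (.nd (nat_lit 11) 
(.lf (nat_lit 19755759) (dlOf (nat_lit 2) (nat_lit 0x327f00003a040008002000600089d8e82))) 
(.nd (nat_lit 12) (.lf (nat_lit 39938799) (dlOf (nat_lit 1) (nat_lit 0x15400191f5a01))) 
(.lf (nat_lit 97007) (dlOf (nat_lit 1) (nat_lit 0xf8001800b981)))))))) (.nd (nat_lit 28) 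
(.nd (nat_lit 29) (.nd (nat_lit 19) (.nd (nat_lit 7) (.nd (nat_lit 5) (.nd (nat_lit 24) 
(.lf (nat_lit 2348900687) (dlOf (nat_lit 4) (nat_lit 0x5015000400a00028030000a010000d007000100300030006000740e000602a0002f01000c01700004c080130008022400200160008014c83))) 
(.lf (nat_lit 16867663) (dlOf (nat_lit 1) (nat_lit 0x5600188e0801)))) 
(.lf (nat_lit 43082095) (dlOf (nat_lit 2) (nat_lit 0x8aff000054080240008005c002007000092a0f83)))) 
(.nd (nat_lit 10) 
(.lf (nat_lit 3221316047) (dlOf (nat_lit 1) (nat_lit 0x8008000c00200040008090a03))) 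
(.lf (nat_lit 4429540815) (dlOf (nat_lit 1) (nat_lit 0x6e0018116d01))))) (.nd (nat_lit 5) 
(.nd (nat_lit 18) (.lf (nat_lit 9003471) (dlOf (nat_lit 1) (nat_lit 0x180028511101))) 
(.lf (nat_lit 12411343) (dlOf (nat_lit 1) (nat_lit 0x1b200286c0a01)))) (.nd (nat_lit 7) 
(.lf (nat_lit 20538223) (dlOf (nat_lit 1) (nat_lit 0xc002000400089d2582))) (.nd (nat_lit 10) 
(.lf (nat_lit 38627823) (dlOf (nat_lit 1) (nat_lit 0xc00200060009134f02))) 
(.lf (nat_lit 8218095) (dlOf (nat_lit 1) (nat_lit 0x800400320018513602))))))) (.nd (nat_lit 26) 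
(.nd (nat_lit 7) (.nd (nat_lit 10) 
(.lf (nat_lit 671181135) (dlOf (nat_lit 4) (nat_lit 0x100000001702003401c0000281000a00e0000100801a00080034002002e0008144d83))) 
(.lf (nat_lit 3892405583) (dlOf (nat_lit 1) (nat_lit 0x140018103301)))) (.nd (nat_lit 10) 
(.lf (nat_lit 2818663375) (dlOf (nat_lit 1) (nat_lit 0x1200080d2881))) 
(.lf (nat_lit 671180751) (dlOf (nat_lit 4) (nat_lit 0x41008c0090040001801d008200c00398040020400a000120c01180230052010000d007402940300146005000c0000000403000680600001e04030000400040008144482))))) 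
(.nd (nat_lit 5) (.nd (nat_lit 7) 
(.lf (nat_lit 3825298767) (dlOf (nat_lit 1) (nat_lit 0x400400020008146a02))) (.nd (nat_lit 27) 
(.lf (nat_lit 1677812175) (dlOf (nat_lit 3) (nat_lit 0x8026000190200060130000b818090a00))) 
(.lf (nat_lit 3959513551) (dlOf (nat_lit 1) (nat_lit 0x8008000c00200040008090a03))))) 
(.lf (nat_lit 2753126895) (dlOf (nat_lit 4) (nat_lit 0x3344980023702019a24c001150100e61260008980800f8008000c002002c0008090d83)))))) 
(.nd (nat_lit 5) (.nd (nat_lit 7) (.nd (nat_lit 10) (.nd (nat_lit 26) (.nd (nat_lit 27) 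
(.lf (nat_lit 2416009551) (dlOf (nat_lit 1) (nat_lit 0x8008000400200020008014c83))) 
(.lf (nat_lit 2550227279) (dlOf (nat_lit 1) (nat_lit 0x8008000400200020008014c83)))) 
(.lf (nat_lit 2483118415) (dlOf (nat_lit 4) (nat_lit 0xc0160001d00800280a8002005000140180005008000680380008018001800300009870003015000004080130008022400200160008014c83)))) 
(.nd (nat_lit 11) 
(.lf (nat_lit 4093994319) (dlOf (nat_lit 2) (nat_lit 0x820e000250200020018003301))) 
(.lf (nat_lit 3624234319) (dlOf (nat_lit 1) (nat_lit 0x20028146a01))))) (.nd (nat_lit 9) 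
(.nd (nat_lit 10) (.nd (nat_lit 19) 
(.lf (nat_lit 805396943) (dlOf (nat_lit 3) (nat_lit 0x8026000190200060130000b818090a00))) 
(.lf (nat_lit 5773025743) (dlOf (nat_lit 1) (nat_lit 0x800200040008091102)))) 
(.lf (nat_lit 3624234447) (dlOf (nat_lit 1) (nat_lit 0x740028146d01)))) (.nd (nat_lit 11) 
(.lf (nat_lit 939615183) (dlOf (nat_lit 1) (nat_lit 0x8008000400200020008142883))) 
(.lf (nat_lit 5704346575) (dlOf (nat_lit 1) (nat_lit 0x400200020008055d82)))))) (.nd (nat_lit 7) 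
(.nd (nat_lit 10) (.nd (nat_lit 18) 
(.lf (nat_lit 1476485487) (dlOf (nat_lit 1) (nat_lit 0x1e0028010a01))) 
(.lf (nat_lit 3557122415) (dlOf (nat_lit 1) (nat_lit 0xa0018130a01)))) (.nd (nat_lit 11) 
(.lf (nat_lit 5773550959) (dlOf (nat_lit 1) (nat_lit 0x4004000200180e3482))) 
(.lf (nat_lit 1543597423) (dlOf (nat_lit 1) (nat_lit 0x4c00200200008146b02))))) (.nd (nat_lit 11) 
(.nd (nat_lit 9) (.nd (nat_lit 19) 
(.lf (nat_lit 1881235951) (dlOf (nat_lit 1) (nat_lit 0x8008000400200020008e81383))) 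
(.lf (nat_lit 3491324399) (dlOf (nat_lit 4) (nat_lit 0x3344680023702019a234001150100e611a0008980800f8008000c002002c0008090d83)))) 
(.lf (nat_lit 4697711599) (dlOf (nat_lit 1) (nat_lit 0x20028092881)))) (.nd (nat_lit 10) 
(.lf (nat_lit 1346988527) (dlOf (nat_lit 1) (nat_lit 0x4004000c0019164f02))) 
(.lf (nat_lit 1543597551) (dlOf (nat_lit 1) (nat_lit 0x180080010002000e0008146f03)))))))))) 
(.nd (nat_lit 5) (.nd (nat_lit 18) (.nd (nat_lit 6) (.nd (nat_lit 19) (.nd (nat_lit 7) 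
(.nd (nat_lit 11) (.nd (nat_lit 20) (.nd (nat_lit 21) 
(.lf (nat_lit 12705807) (dlOf (nat_lit 1) (nat_lit 0x134002003e00086d0682))) 
(.lf (nat_lit 27385871) (dlOf (nat_lit 1) (nat_lit 0x8008000800200060008ce0183)))) 
(.lf (nat_lit 9560079) (dlOf (nat_lit 1) (nat_lit 0x20018560481)))) (.nd (nat_lit 9) 
(.lf (nat_lit 8513551) (dlOf (nat_lit 1) (nat_lit 0x1000400020008514702))) (.nd (nat_lit 10) 
(.lf (nat_lit 201456143) (dlOf (nat_lit 1) (nat_lit 0xa001800b281))) 
(.lf (nat_lit 6509686287) (dlOf (nat_lit 1) (nat_lit 0x400200020008147082)))))) (.nd (nat_lit 8) 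
(.nd (nat_lit 11) (.lf (nat_lit 11657359) (dlOf (nat_lit 1) (nat_lit 0x200286c0101))) 
(.lf (nat_lit 6442576015) (dlOf (nat_lit 1) (nat_lit 0x180080024002000400080f4803)))) 
(.nd (nat_lit 12) (.nd (nat_lit 26) 
(.lf (nat_lit 5368832399) (dlOf (nat_lit 3) (nat_lit 0xa201c0033381001c00e001998080010008000c00200020008035d83))) 
(.lf (nat_lit 5033288079) (dlOf (nat_lit 1) (nat_lit 0x400400020008035d82)))) 
(.lf (nat_lit 20050319) (dlOf (nat_lit 1) (nat_lit 0x8800289d8381)))))) (.nd (nat_lit 21) 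
(.nd (nat_lit 26) (.nd (nat_lit 22) (.nd (nat_lit 27) 
(.lf (nat_lit 1342824463) (dlOf (nat_lit 5) (nat_lit 0x622f00041130004083800203460000608000622f00051130004883800243460000508001222f000a1130004883800303460000408000a22f000711300060838002c346000030800f800080e0481))) 
(.lf (nat_lit 134864911) (dlOf (nat_lit 3) (nat_lit 0x12c04100d2281009702080690c0801700080030002003800080d0883)))) 
(.lf (nat_lit 21618703) (dlOf (nat_lit 1) (nat_lit 0x8008000400200020008a50083)))) 
(.nd (nat_lit 28) 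
(.lf (nat_lit 201973775) (dlOf (nat_lit 3) (nat_lit 0x12c04100ed50100970208076a00801700080030002003800080d0883))) 
(.nd (nat_lit 29) 
(.lf (nat_lit 470409231) (dlOf (nat_lit 5) (nat_lit 0x622f00041130004083000203660000608000622f00051130004883000243660000508001222f000a1130004883000303660000408000a22f000711300060830002c366000030800f800080e0481))) 
(.lf (nat_lit 3154763791) (dlOf (nat_lit 3) (nat_lit 0x280800014032000a018003a003000100f8000806400e7208004c004000e0018320782)))))) 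
(.nd (nat_lit 22) (.nd (nat_lit 23) (.nd (nat_lit 24) 
(.lf (nat_lit 1344921615) (dlOf (nat_lit 2) (nat_lit 0x270b48000980800400080028002001a0008990203))) 
(.lf (nat_lit 19521551) (dlOf (nat_lit 2) (nat_lit 0x1151800000040078002000800089b0202)))) 
(.nd (nat_lit 24) 
(.lf (nat_lit 11132943) (dlOf (nat_lit 2) (nat_lit 0x5680000008a040018002001e0008660182))) 
(.lf (nat_lit 27910159) (dlOf (nat_lit 4) (nat_lit 0x6b5400041a9e002a00000046030003eaf80013540002da9e0012d3d000766380022c2800ab540007da9e0008a04000e0018d40181))))) 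
(.nd (nat_lit 7) (.nd (nat_lit 8) 
(.lf (nat_lit 16375823) (dlOf (nat_lit 24) (nat_lit 0x29ba00042b5000491d400048e6000445c0002f8500082b4000194f400049160010475000123980011170000ba18002cad6002c4760002c82000c2b58004923000088ec0005806001256b000323b00015c1000095ac0004a80002a48c000223b0001542000595ac002ca80000448c000623b0001502000595ac0030a80002c48c000123b0001482000595ac0024a80003248c000423b0001442000415ac0004a80001a48c000f23b0001302000595ac0024a80001e48c001423b00012c2000415ac00048ec0004504000a56b000218100072b58001080800395ac000780400049180003a02000e56b0001b0100052b5000414fc0028916000e4750001984000e2b5000394fc002c9160016475000190400022b5000094fc00389160010475000188400052b50000922c00248ea0003006000e56a000040100062b50000180801c00080030002001c0008890203))) 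
(.lf (nat_lit 32105743) (dlOf (nat_lit 1) (nat_lit 0x8008000400200020008ef3003)))) 
(.lf (nat_lit 49931407) (dlOf (nat_lit 1) (nat_lit 0x200094c2b01))))))) (.nd (nat_lit 29) 
(.nd (nat_lit 19) (.nd (nat_lit 7) (.nd (nat_lit 23) (.nd (nat_lit 32) 
(.lf (nat_lit 268558415) (dlOf (nat_lit 1) (nat_lit 0x20028070681))) 
(.lf (nat_lit 4563525711) (dlOf (nat_lit 1) (nat_lit 0x20028090001)))) 
(.lf (nat_lit 25288783) (dlOf (nat_lit 2) (nat_lit 0xb59160009c3800011c100028008007400200340008bf0d03)))) 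
(.nd (nat_lit 8) (.lf (nat_lit 5368832207) (dlOf (nat_lit 1) (nat_lit 0x11c00400440018031b82))) 
(.lf (nat_lit 1543630287) (dlOf (nat_lit 1) (nat_lit 0x1c00200020008146d02))))) (.nd (nat_lit 27) 
(.nd (nat_lit 7) (.lf (nat_lit 45736015) (dlOf (nat_lit 1) (nat_lit 0x60019360701))) 
(.nd (nat_lit 8) (.lf (nat_lit 25813199) (dlOf (nat_lit 1) (nat_lit 0x400400020008c10482))) 
(.lf (nat_lit 23716303) (dlOf (nat_lit 1) (nat_lit 0x40028b80a01))))) (.nd (nat_lit 28) 
(.nd (nat_lit 26) 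
(.lf (nat_lit 134864975) (dlOf (nat_lit 3) (nat_lit 0xb40188001580801d00c4000a804004c002002c00080d0d02))) 
(.lf (nat_lit 201973839) (dlOf (nat_lit 3) (nat_lit 0xb401880013c0801d00c40009a04004c002002c00080d0d02)))) 
(.nd (nat_lit 20) (.lf (nat_lit 5772009551) (dlOf (nat_lit 1) (nat_lit 0x400400020008040502))) 
(.lf (nat_lit 5773058127) (dlOf (nat_lit 1) (nat_lit 0x3c002005200080a1702))))))) (.nd (nat_lit 27) 
(.nd (nat_lit 7) (.nd (nat_lit 9) 
(.lf (nat_lit 1678368847) (dlOf (nat_lit 1) (nat_lit 0xc400400200018201902))) (.nd (nat_lit 11) 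
(.lf (nat_lit 1610737231) (dlOf (nat_lit 1) (nat_lit 0x20018093881))) 
(.lf (nat_lit 805432911) (dlOf (nat_lit 1) (nat_lit 0x60008117181))))) (.nd (nat_lit 8) 
(.lf (nat_lit 5905705167) (dlOf (nat_lit 1) (nat_lit 0x60018144a01))) (.nd (nat_lit 9) 
(.lf (nat_lit 3020022223) (dlOf (nat_lit 1) (nat_lit 0xc00280e7b01))) 
(.lf (nat_lit 2751588303) (dlOf (nat_lit 3) (nat_lit 0x380c9001c05280038014000200c000419a00020a800006828004480)))))) 
(.nd (nat_lit 8) (.nd (nat_lit 9) (.nd (nat_lit 28) 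
(.lf (nat_lit 3960070223) (dlOf (nat_lit 1) (nat_lit 0x600181a1901))) 
(.lf (nat_lit 6375989327) (dlOf (nat_lit 1) (nat_lit 0x400400020008040502)))) 
(.lf (nat_lit 3959552591) (dlOf (nat_lit 1) (nat_lit 0x40040002001811b602)))) (.nd (nat_lit 7) 
(.nd (nat_lit 12) 
(.lf (nat_lit 671213903) (dlOf (nat_lit 6) (nat_lit 0x200000005c0801300700002c0400280000001402001601c0006007000100000000a0c003c038001800e0001000000010180158008005000200540008144d83))) 
(.lf (nat_lit 3959552335) (dlOf (nat_lit 1) (nat_lit 0x2002811ab81)))) 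
(.lf (nat_lit 671213519) (dlOf (nat_lit 5) (nat_lit 0x40026000c00e800d00600044020014e005000100100010000000241c001404c006201d003b00c00660014008000400340000000806005000280003c080010000000020400a000400140018144482)))))))) 
(.nd (nat_lit 30) (.nd (nat_lit 26) (.nd (nat_lit 21) (.nd (nat_lit 22) (.nd (nat_lit 7) 
(.nd (nat_lit 27) (.nd (nat_lit 28) 
(.lf (nat_lit 537255951) (dlOf (nat_lit 1) (nat_lit 0x20028070501))) 
(.lf (nat_lit 4563787791) (dlOf (nat_lit 1) (nat_lit 0x600080018002001400080e0083)))) 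
(.lf (nat_lit 4698005519) (dlOf (nat_lit 1) (nat_lit 0x600080018002001400080e0083)))) 
(.nd (nat_lit 6) (.lf (nat_lit 8775055) (dlOf (nat_lit 1) (nat_lit 0x400200020008513602))) 
(.lf (nat_lit 2818957519) (dlOf (nat_lit 2) (nat_lit 0xc0c0000000200020008130481))))) 
(.nd (nat_lit 19) (.nd (nat_lit 7) (.nd (nat_lit 20) 
(.lf (nat_lit 29745167) (dlOf (nat_lit 1) (nat_lit 0x180008e30001))) 
(.lf (nat_lit 22405135) (dlOf (nat_lit 1) (nat_lit 0x18008000400200020008ad0203)))) 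
(.lf (nat_lit 21356943) (dlOf (nat_lit 1) (nat_lit 0x400200020008a35d82)))) (.nd (nat_lit 6) 
(.lf (nat_lit 22929423) (dlOf (nat_lit 1) (nat_lit 0x400400020018b40182))) 
(.lf (nat_lit 13492303) (dlOf (nat_lit 1) (nat_lit 0x40008730d01)))))) (.nd (nat_lit 19) 
(.nd (nat_lit 6) (.nd (nat_lit 20) 
(.lf (nat_lit 2482191) (dlOf (nat_lit 1) (nat_lit 0x6e0028160681))) 
(.lf (nat_lit 37085199) (dlOf (nat_lit 1) (nat_lit 0x120019090001)))) 
(.lf (nat_lit 48619599) (dlOf (nat_lit 1) (nat_lit 0xbc00200820009420702)))) (.nd (nat_lit 6) 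
(.nd (nat_lit 7) (.lf (nat_lit 54389775) (dlOf (nat_lit 1) (nat_lit 0x20009655f81))) 
(.lf (nat_lit 36563343) (dlOf (nat_lit 1) (nat_lit 0x20009074e81)))) 
(.lf (nat_lit 45998159) (dlOf (nat_lit 1) (nat_lit 0x160029380001)))))) (.nd (nat_lit 27) 
(.nd (nat_lit 19) (.nd (nat_lit 6) (.nd (nat_lit 10) 
(.lf (nat_lit 4362461199) (dlOf (nat_lit 1) (nat_lit 0x890008000400201340008090003))) 
(.lf (nat_lit 2751849487) (dlOf (nat_lit 1) (nat_lit 0x20018002881)))) 
(.lf (nat_lit 6509944911) (dlOf (nat_lit 1) (nat_lit 0x8008008000200260008171003)))) 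
(.nd (nat_lit 20) 
(.lf (nat_lit 68018191) (dlOf (nat_lit 2) (nat_lit 0x206d000000080010008000c002000400083a0183))) 
(.lf (nat_lit 2755518479) (dlOf (nat_lit 1) (nat_lit 0x200281b0001))))) (.nd (nat_lit 6) 
(.nd (nat_lit 8) 
(.lf (nat_lit 2617630735) (dlOf (nat_lit 5) (nat_lit 0x5005e0004a02001202f000218100040178001080800280bc0008204002800400140008110102))) 
(.lf (nat_lit 1009116431) (dlOf (nat_lit 1) (nat_lit 0x1c00400320009083002)))) (.nd (nat_lit 7) 
(.nd (nat_lit 8) 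
(.lf (nat_lit 738582607) (dlOf (nat_lit 3) (nat_lit 0x5f00a602b2035017701080003818138814c09800420000a04000400280b0681))) 
(.lf (nat_lit 472769871) (dlOf (nat_lit 2) (nat_lit 0x705940001e04004800200060008b03302)))) 
(.lf (nat_lit 1007018191) (dlOf (nat_lit 1) (nat_lit 0x20008150481))))))) (.nd (nat_lit 29) 
(.nd (nat_lit 27) (.nd (nat_lit 28) (.nd (nat_lit 6) 
(.lf (nat_lit 3288719375) (dlOf (nat_lit 6) (nat_lit 0x200d0001c060000e02900d2083000801a000400c0002005201a3f06000a03600cff81000601b00677c0800580d8033b8040044004003600080d0882))) 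
(.lf (nat_lit 3288719439) (dlOf (nat_lit 1) (nat_lit 0x4004000200080d0d02)))) (.nd (nat_lit 8) 
(.lf (nat_lit 1409671183) (dlOf (nat_lit 1) (nat_lit 0x20028070501))) 
(.lf (nat_lit 3493716239) (dlOf (nat_lit 1) (nat_lit 0x200281b0481))))) (.nd (nat_lit 10) 
(.nd (nat_lit 31) (.lf (nat_lit 1208344591) (dlOf (nat_lit 1) (nat_lit 0x2400280c0001))) 
(.lf (nat_lit 3355828239) (dlOf (nat_lit 20) (nat_lit 0x9c0660002032005601880013c1803300c800940620004e0400a40320002681004d018804a80b00008e08023006200260070002302009e018803e80440008a08012806400044020112032000101880010c1003200c800084040050064000410200da032000200100640190000f80806100c8000780401d4064000380200ca0320001a8100ad0190000c80805800c80005e0400bc0640001602012003200170188000501000a8008007400200040008120183)))) 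
(.nd (nat_lit 11) (.lf (nat_lit 5772796943) (dlOf (nat_lit 1) (nat_lit 0x800400040008092882))) 
(.lf (nat_lit 5771750415) (dlOf (nat_lit 1) (nat_lit 0x400200020008005f82)))))) (.nd (nat_lit 28) 
(.nd (nat_lit 7) (.nd (nat_lit 32) 
(.lf (nat_lit 1610997839) (dlOf (nat_lit 3) (nat_lit 0x5f00a602b2035017701080003818138814c09800420000a04000400280b0681))) 
(.lf (nat_lit 5905965135) (dlOf (nat_lit 1) (nat_lit 0x8008008000200260008171003)))) 
(.lf (nat_lit 1745218255) (dlOf (nat_lit 1) (nat_lit 0x1600280e5881)))) (.nd (nat_lit 6) 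
(.nd (nat_lit 26) 
(.lf (nat_lit 4026916879) (dlOf (nat_lit 6) (nat_lit 0x200d0001c060000e02900ed303000801a000400c0002005201da406000a03600eb201000601b0075100800580d803a86040044004003600080d0882))) 
(.lf (nat_lit 2080759823) (dlOf (nat_lit 1) (nat_lit 0x2400280c0001)))) (.nd (nat_lit 21) 
(.nd (nat_lit 26) (.lf (nat_lit 4026916943) (dlOf (nat_lit 1) (nat_lit 0x4004000200080d0d02))) 
(.lf (nat_lit 1946542159) (dlOf (nat_lit 1) (nat_lit 0x200180c1581)))) 
(.lf (nat_lit 1881530447) (dlOf (nat_lit 4) (nat_lit 0x481c60003602000807b0000201002e071800000080008008000400200040008f40703))))))))) 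
(.nd (nat_lit 29) (.nd (nat_lit 18) (.nd (nat_lit 26) (.nd (nat_lit 20) (.nd (nat_lit 11) 
(.nd (nat_lit 6) 
(.lf (nat_lit 134864943) (dlOf (nat_lit 2) (nat_lit 0x3e0420024018000068100018008004c002000200080d0b03))) 
(.nd (nat_lit 19) (.lf (nat_lit 56746095) (dlOf (nat_lit 1) (nat_lit 0x20019741d01))) 
(.lf (nat_lit 5772009583) (dlOf (nat_lit 1) (nat_lit 0x21c00200ba0008040c82))))) (.nd (nat_lit 7) 
(.nd (nat_lit 8) (.lf (nat_lit 2147609135) (dlOf (nat_lit 1) (nat_lit 0x5c004002e0018095182))) 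
(.lf (nat_lit 3221355311) (dlOf (nat_lit 1) (nat_lit 0x18001811bc81)))) 
(.lf (nat_lit 3221351855) (dlOf (nat_lit 1) (nat_lit 0xc4004002a0008116d02))))) (.nd (nat_lit 7) 
(.nd (nat_lit 9) (.nd (nat_lit 19) 
(.lf (nat_lit 17948719) (dlOf (nat_lit 2) (nat_lit 0x3e8640001c040064004001a0018900b82))) 
(.lf (nat_lit 26861615) (dlOf (nat_lit 2) (nat_lit 0x857700006c080030008002000200020008c80703)))) 
(.lf (nat_lit 11657775) (dlOf (nat_lit 1) (nat_lit 0xc002000400086c0e82)))) (.nd (nat_lit 6) 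
(.nd (nat_lit 19) 
(.lf (nat_lit 36825519) (dlOf (nat_lit 1) (nat_lit 0x18008000c00200040009074e83))) 
(.lf (nat_lit 39446959) (dlOf (nat_lit 1) (nat_lit 0x20019194e81)))) 
(.lf (nat_lit 11657711) (dlOf (nat_lit 3) (nat_lit 0x24d450004620400840000015102003200186c0d81)))))) 
(.nd (nat_lit 28) (.nd (nat_lit 27) (.nd (nat_lit 32) 
(.lf (nat_lit 1140973615) (dlOf (nat_lit 1) (nat_lit 0x1e0008040381))) 
(.lf (nat_lit 5435940911) (dlOf (nat_lit 4) (nat_lit 0x7900fc03a807c01de03a00fb01a806b8000000681400080000002b02002803f000701a80004c10004000800b000200020008040383)))) 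
(.nd (nat_lit 19) (.lf (nat_lit 2348933167) (dlOf (nat_lit 2) (nat_lit 0x7802a0000b018030c80))) 
(.lf (nat_lit 201973807) (dlOf (nat_lit 2) (nat_lit 0x3e0420024018000068100018008004c002000200080d0b03))))) 
(.nd (nat_lit 6) (.nd (nat_lit 7) 
(.lf (nat_lit 2483150895) (dlOf (nat_lit 2) (nat_lit 0x7802a00009018030c80))) 
(.lf (nat_lit 474080431) (dlOf (nat_lit 1) (nat_lit 0x4000400260009082c02)))) (.nd (nat_lit 7) 
(.lf (nat_lit 472506479) (dlOf (nat_lit 1) (nat_lit 0x80080024002000a0008991d03))) 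
(.lf (nat_lit 1543630319) (dlOf (nat_lit 3) (nat_lit 0x1401a0000a81000400d000014080048008000400200140008146f03))))))) 
(.nd (nat_lit 20) (.nd (nat_lit 27) (.nd (nat_lit 7) (.nd (nat_lit 19) 
(.lf (nat_lit 3492143151) (dlOf (nat_lit 2) (nat_lit 0x20508002c404000c004000400080a0982))) 
(.lf (nat_lit 15589423) (dlOf (nat_lit 1) (nat_lit 0x100008810901)))) (.nd (nat_lit 8) 
(.lf (nat_lit 54911151) (dlOf (nat_lit 1) (nat_lit 0x400400020009662d82))) 
(.lf (nat_lit 387503) (dlOf (nat_lit 1) (nat_lit 0x80018004e81))))) (.nd (nat_lit 6) 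
(.nd (nat_lit 26) (.lf (nat_lit 3355828271) (dlOf (nat_lit 1) (nat_lit 0x20028120d81))) 
(.lf (nat_lit 2617630767) (dlOf (nat_lit 2) (nat_lit 0xe00c002c80000005a08001c002001c0008110682)))) 
(.lf (nat_lit 134602863) (dlOf (nat_lit 1) (nat_lit 0x1000400020008090002))))) (.nd (nat_lit 7) 
(.nd (nat_lit 6) (.nd (nat_lit 19) 
(.lf (nat_lit 9822255) (dlOf (nat_lit 4) (nat_lit 0x8b691404374860003404000d83100015810018c270000300800c800803fc00200100008580383))) 
(.lf (nat_lit 16637999) (dlOf (nat_lit 1) (nat_lit 0x1c002001a00088c0802)))) 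
(.lf (nat_lit 12444015) (dlOf (nat_lit 1) (nat_lit 0x4e00186c0781)))) (.nd (nat_lit 6) 
(.nd (nat_lit 8) (.lf (nat_lit 473818287) (dlOf (nat_lit 1) (nat_lit 0x20018fa2c01))) 
(.lf (nat_lit 8250799) (dlOf (nat_lit 1) (nat_lit 0x400200020008513602)))) 
(.lf (nat_lit 28696815) (dlOf (nat_lit 1) (nat_lit 0x50008000400200020008da0603))))))) 
(.nd (nat_lit 6) (.nd (nat_lit 27) (.nd (nat_lit 28) (.nd (nat_lit 8) (.nd (nat_lit 9) 
(.lf (nat_lit 1677846575) (dlOf (nat_lit 1) (nat_lit 0x400200020008114702))) 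
(.lf (nat_lit 1677851183) (dlOf (nat_lit 1) (nat_lit 0x240020008000811b302)))) 
(.lf (nat_lit 536995631) (dlOf (nat_lit 1) (nat_lit 0x8008000400200fe0008003d83)))) 
(.nd (nat_lit 18) (.nd (nat_lit 7) 
(.lf (nat_lit 4095336495) (dlOf (nat_lit 1) (nat_lit 0x138004002a0008090382))) 
(.lf (nat_lit 4094288303) (dlOf (nat_lit 2) (nat_lit 0x403f802bc8080038008000800200040008036e83)))) 
(.nd (nat_lit 26) (.lf (nat_lit 5100658735) (dlOf (nat_lit 1) (nat_lit 0x400200020008120d02))) 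
(.lf (nat_lit 1946542127) (dlOf (nat_lit 1) (nat_lit 0x200180c0e81)))))) (.nd (nat_lit 18) 
(.nd (nat_lit 19) (.nd (nat_lit 26) 
(.lf (nat_lit 2013388847) (dlOf (nat_lit 1) (nat_lit 0x1e0008040381))) 
(.lf (nat_lit 5301723183) (dlOf (nat_lit 4) (nat_lit 0x100000005c0403c807e01d403e00ef01d007d80dc035c0000002b0a002803f000701b80004c10004000800b000200020008040383)))) 
(.nd (nat_lit 21) (.lf (nat_lit 3154763823) (dlOf (nat_lit 1) (nat_lit 0x11800400020008320e82))) 
(.lf (nat_lit 1009377327) (dlOf (nat_lit 1) (nat_lit 0x80029140a81))))) (.nd (nat_lit 7) 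
(.nd (nat_lit 8) 
(.lf (nat_lit 3892699183) (dlOf (nat_lit 3) (nat_lit 0xb60168049005e0003e04001c0140001b8181d0700))) 
(.lf (nat_lit 2818957615) (dlOf (nat_lit 1) (nat_lit 0x400200020008130702)))) 
(.lf (nat_lit 6376778159) (dlOf (nat_lit 1) (nat_lit 0x8008000400200ba0008094e83)))))) 
(.nd (nat_lit 11) (.nd (nat_lit 8) (.nd (nat_lit 7) (.nd (nat_lit 18) 
(.lf (nat_lit 6375989359) (dlOf (nat_lit 1) (nat_lit 0x21c00200ba0008040c82))) 
(.lf (nat_lit 2755518575) (dlOf (nat_lit 1) (nat_lit 0x80080504002011e00081b0003)))) 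
(.nd (nat_lit 9) (.lf (nat_lit 3892437231) (dlOf (nat_lit 1) (nat_lit 0x80028111e81))) 
(.lf (nat_lit 5905704687) (dlOf (nat_lit 1) (nat_lit 0x800400020008143b02))))) (.nd (nat_lit 10) 
(.nd (nat_lit 18) (.lf (nat_lit 3087131631) (dlOf (nat_lit 1) (nat_lit 0x800028142881))) 
(.lf (nat_lit 872801263) (dlOf (nat_lit 1) (nat_lit 0x9600280e2881)))) (.nd (nat_lit 26) 
(.lf (nat_lit 5905704943) (dlOf (nat_lit 1) (nat_lit 0x20028144601))) 
(.lf (nat_lit 1677846511) (dlOf (nat_lit 2) (nat_lit 0x1580000000004006800200300008114602)))))) 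
(.nd (nat_lit 7) (.nd (nat_lit 8) (.nd (nat_lit 26) 
(.lf (nat_lit 5905705071) (dlOf (nat_lit 1) (nat_lit 0x20028144781))) 
(.lf (nat_lit 1677846639) (dlOf (nat_lit 1) (nat_lit 0x13000800a800200260008114783)))) 
(.nd (nat_lit 27) (.lf (nat_lit 1677850991) (dlOf (nat_lit 1) (nat_lit 0x40040002001811ad02))) 
(.lf (nat_lit 3959552367) (dlOf (nat_lit 1) (nat_lit 0x2002811ad01))))) (.nd (nat_lit 9) 
(.nd (nat_lit 27) 
(.lf (nat_lit 1677851119) (dlOf (nat_lit 1) (nat_lit 0xd0008001c002001a000811b283))) 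
(.lf (nat_lit 3959552495) (dlOf (nat_lit 1) (nat_lit 0x280040010000811b282)))) 
(.lf (nat_lit 6174141423) (dlOf (nat_lit 1) (nat_lit 0x20028055f01)))))))))))

end

end Pool.Agent.Lib.MP_5854e1_co.Cz

namespace Pool.Agent.Lib.MP_5854e1_co.Cz

noncomputable section

noncomputable def tz188 : DT := (.nd (nat_lit 5) (.nd (nat_lit 2) (.nd (nat_lit 18) 
(.nd (nat_lit 6) (.nd (nat_lit 28) (.nd (nat_lit 16) (.nd (nat_lit 19) (.nd (nat_lit 29) 
(.nd (nat_lit 20) (.nd (nat_lit 21) (.nd (nat_lit 9) 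
(.lf (nat_lit 21127171) (dlOf (nat_lit 1) (nat_lit 0x18008001000200120008a10003))) 
(.lf (nat_lit 4362232323) (dlOf (nat_lit 2) (nat_lit 0x40000002002001c0008017f81)))) 
(.nd (nat_lit 7) (.nd (nat_lit 22) 
(.lf (nat_lit 69361667) (dlOf (nat_lit 1) (nat_lit 0x40008940001))) 
(.lf (nat_lit 23224323) (dlOf (nat_lit 2) (nat_lit 0x11612015140200080018b70001)))) 
(.lf (nat_lit 44195971) (dlOf (nat_lit 1) (nat_lit 0x200192d0e01))))) (.nd (nat_lit 10) 
(.nd (nat_lit 26) (.lf (nat_lit 1204227) (dlOf (nat_lit 1) (nat_lit 0x8008000400200020008090003))) 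
(.lf (nat_lit 68313091) (dlOf (nat_lit 1) (nat_lit 0xa80008510001)))) (.nd (nat_lit 7) 
(.lf (nat_lit 51536899) (dlOf (nat_lit 1) (nat_lit 0x400200020009512882))) 
(.lf (nat_lit 20082051) (dlOf (nat_lit 1) (nat_lit 0x600189d6c01)))))) (.nd (nat_lit 30) 
(.nd (nat_lit 26) (.lf (nat_lit 4966211587) (dlOf (nat_lit 1) (nat_lit 0x40018050001))) 
(.nd (nat_lit 27) (.lf (nat_lit 604135427) (dlOf (nat_lit 1) (nat_lit 0x800200240008030002))) 
(.lf (nat_lit 5033320451) (dlOf (nat_lit 1) (nat_lit 0x40018050001))))) (.nd (nat_lit 7) 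
(.lf (nat_lit 5905737731) (dlOf (nat_lit 1) (nat_lit 0x400200020008144702))) (.nd (nat_lit 8) 
(.lf (nat_lit 3892477059) (dlOf (nat_lit 1) (nat_lit 0x2000815c181))) 
(.lf (nat_lit 3892475779) (dlOf (nat_lit 1) (nat_lit 0x40040004001815a302))))))) (.nd (nat_lit 22) 
(.nd (nat_lit 27) (.nd (nat_lit 20) 
(.lf (nat_lit 59400195) (dlOf (nat_lit 2) (nat_lit 0x8fc802994040004004001400097f0002))) 
(.lf (nat_lit 3825667) (dlOf (nat_lit 4) (nat_lit 0xa12a00322a04003c7d00187002001e3e800c37818230000)))) 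
(.nd (nat_lit 26) 
(.lf (nat_lit 134897667) (dlOf (nat_lit 1) (nat_lit 0x80080014002000200080d0003))) 
(.lf (nat_lit 202006531) (dlOf (nat_lit 1) (nat_lit 0x80080014002000200080d0003))))) 
(.nd (nat_lit 20) (.nd (nat_lit 23) 
(.lf (nat_lit 4874243) (dlOf (nat_lit 1) (nat_lit 0x780080004002000200082d0003))) 
(.lf (nat_lit 13262851) (dlOf (nat_lit 3) (nat_lit 0x1881800ea302000240200000018710000)))) 
(.lf (nat_lit 16408579) (dlOf (nat_lit 1) (nat_lit 0x5800803a000200ec00088a0003)))))) 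
(.nd (nat_lit 21) (.nd (nat_lit 29) (.nd (nat_lit 20) (.nd (nat_lit 26) 
(.lf (nat_lit 6576889859) (dlOf (nat_lit 1) (nat_lit 0xc0008180001))) 
(.lf (nat_lit 4496515075) (dlOf (nat_lit 2) (nat_lit 0x4c03400cea02000400180b0001)))) 
(.nd (nat_lit 10) (.lf (nat_lit 26435587) (dlOf (nat_lit 1) (nat_lit 0x3800200020008c50002))) 
(.lf (nat_lit 35349507) (dlOf (nat_lit 1) (nat_lit 0xc00400080019012882))))) (.nd (nat_lit 7) 
(.nd (nat_lit 20) (.lf (nat_lit 5972910083) (dlOf (nat_lit 1) (nat_lit 0xc0008180001))) 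
(.lf (nat_lit 2752733187) (dlOf (nat_lit 2) (nat_lit 0xbe15d001f0ae0000001001b8008005c00200260008030003)))) 
(.nd (nat_lit 10) 
(.lf (nat_lit 5905803395) (dlOf (nat_lit 1) (nat_lit 0x8008000400200860008144783))) 
(.lf (nat_lit 3892542595) (dlOf (nat_lit 1) (nat_lit 0x10004003c000815c182)))))) (.nd (nat_lit 25) 
(.nd (nat_lit 7) (.lf (nat_lit 14901251) (dlOf (nat_lit 1) (nat_lit 0x10008001000200020008790003))) 
(.nd (nat_lit 8) (.lf (nat_lit 2318467) (dlOf (nat_lit 1) (nat_lit 0x400200020008150102))) 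
(.lf (nat_lit 8091523) (dlOf (nat_lit 1) (nat_lit 0x2001851a301))))) (.nd (nat_lit 10) 
(.nd (nat_lit 23) 
(.lf (nat_lit 52649987) (dlOf (nat_lit 2) (nat_lit 0x14b8bc0396a040108004000c0009560002))) 
(.lf (nat_lit 44261379) (dlOf (nat_lit 1) (nat_lit 0x4004008c00092e0002)))) 
(.lf (nat_lit 36398083) (dlOf (nat_lit 1) (nat_lit 0x20019072881))))))) (.nd (nat_lit 16) 
(.nd (nat_lit 19) (.nd (nat_lit 7) (.nd (nat_lit 31) (.nd (nat_lit 22) 
(.lf (nat_lit 268591107) (dlOf (nat_lit 1) (nat_lit 0x70008000c002001c0008090003))) 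
(.lf (nat_lit 1346527235) (dlOf (nat_lit 1) (nat_lit 0x20018f90001)))) (.nd (nat_lit 8) 
(.lf (nat_lit 3624034819) (dlOf (nat_lit 5) (nat_lit 0x13203600c40000001f41003c00e4025006c003803400bc0000001f02004280d803100000007504010803600c80000001cc1000300080150002005800080b0d83))) 
(.lf (nat_lit 3489819907) (dlOf (nat_lit 1) (nat_lit 0x20028006601))))) (.nd (nat_lit 8) 
(.nd (nat_lit 27) (.lf (nat_lit 5637301891) (dlOf (nat_lit 1) (nat_lit 0x3e00180d3a01))) 
(.lf (nat_lit 4697777795) (dlOf (nat_lit 1) (nat_lit 0xe0028093a01)))) (.nd (nat_lit 27) 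
(.lf (nat_lit 1409445251) (dlOf (nat_lit 2) (nat_lit 0x3c00000006818006c00))) 
(.lf (nat_lit 1543662979) (dlOf (nat_lit 2) (nat_lit 0x1e0190008000000034100028008000400200020008146c03)))))) 
(.nd (nat_lit 26) (.nd (nat_lit 21) (.nd (nat_lit 27) 
(.lf (nat_lit 1342857219) (dlOf (nat_lit 13) (nat_lit 0x19844c00ce1a300c90820271117811d889808d041c04c01a300c8b04028411781260898091841c04e01a300c8a840081117801b0898009441c00d41a300c898402671178117889808a441c04a61a300c888400681178061dc0813788bc08e844c046220e02600d18061c02014488bc094044c049420e02740d18061bc2008a88bc02b444c015220e00cd0d18061b4200ed07cc02b480405383e6015a202000c223019b0f980000010004800806c0002022200080f0003))) 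
(.lf (nat_lit 5772042243) (dlOf (nat_lit 2) (nat_lit 0x401e008d8018050000)))) (.nd (nat_lit 7) 
(.lf (nat_lit 1344954371) (dlOf (nat_lit 2) (nat_lit 0x2829a001607d00cf03e001c10180008008000c002000200089a0003))) 
(.lf (nat_lit 5774139523) (dlOf (nat_lit 1) (nat_lit 0x400400020008103a02))))) (.nd (nat_lit 29) 
(.nd (nat_lit 21) 
(.lf (nat_lit 470441987) (dlOf (nat_lit 13) (nat_lit 0x19844c00ce1b300e37020271117811d889808d041804c01b300e3184028411781260898091841804e01b300e31040081117801b0898009441800d41b300e300402671178117889808a441804a61b300e2f040068117806f740813788bc08e844c046220c02600d9806f582014488bc094044c049420c02740d9806f542008a88bc02b444c015220c00cd0d9806f4c200ed07c802e160405383e40170902000c21f019b0f900000010004800806c0002022200080f0003))) 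
(.lf (nat_lit 472539139) (dlOf (nat_lit 1) (nat_lit 0x88008005c002002000089b0003)))) 
(.nd (nat_lit 30) (.lf (nat_lit 3154796547) (dlOf (nat_lit 1) (nat_lit 0xc800200560008330002))) 
(.lf (nat_lit 6376022019) (dlOf (nat_lit 2) (nat_lit 0x401e008de018050000))))))) (.nd (nat_lit 30) 
(.nd (nat_lit 29) (.nd (nat_lit 19) (.nd (nat_lit 26) 
(.lf (nat_lit 4697841667) (dlOf (nat_lit 1) (nat_lit 0x6600080a0001))) 
(.lf (nat_lit 469983235) (dlOf (nat_lit 1) (nat_lit 0x20008020001)))) 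
(.lf (nat_lit 470507523) (dlOf (nat_lit 11) (nat_lit 0x3a11880110718001c37800ea50600542310010116802c0718004037800ea30800022330009118800b871801d440c002046200241c60074b020024119800e88b401c6208000446600e30020002233007178100050000033a808006887c000833a00c9104001821f00020ce8000001001500080018002000c0008110003)))) 
(.nd (nat_lit 7) (.nd (nat_lit 8) 
(.lf (nat_lit 3087229443) (dlOf (nat_lit 2) (nat_lit 0x900f800098080008008000c00200020008157f83))) 
(.lf (nat_lit 1008951555) (dlOf (nat_lit 1) (nat_lit 0x400400040019000a82)))) 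
(.lf (nat_lit 3154344067) (dlOf (nat_lit 1) (nat_lit 0x8008000c0020002000815a883))))) 
(.nd (nat_lit 19) (.nd (nat_lit 20) (.nd (nat_lit 26) 
(.lf (nat_lit 1476616195) (dlOf (nat_lit 2) (nat_lit 0x101e002fdc0800c80080008002004600080a0003))) 
(.lf (nat_lit 3691208707) (dlOf (nat_lit 3) (nat_lit 0x4c00d802fdc08021007400000040114004005200080a0002)))) 
(.nd (nat_lit 29) 
(.lf (nat_lit 3490930691) (dlOf (nat_lit 2) (nat_lit 0xbe158001f0ab8000001001b8008005c00200260008030003))) 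
(.lf (nat_lit 1880317955) (dlOf (nat_lit 1) (nat_lit 0x8008001800200020008850003))))) 
(.nd (nat_lit 7) (.nd (nat_lit 21) 
(.lf (nat_lit 1342922755) (dlOf (nat_lit 11) (nat_lit 0x3a11880110718001c378008800600542310010116802c071800403780087e0800022330009118800b8718010fa0c002046200241c600438820024119800e88b4010180800044660080b02000223300405010005000001d0408006888c00083320072004001822300020cc8000001001500080018002000c0008110003))) 
(.lf (nat_lit 1345019907) (dlOf (nat_lit 1) (nat_lit 0x54004004200089d0002)))) 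
(.lf (nat_lit 5774205059) (dlOf (nat_lit 1) (nat_lit 0x1c0018123a01)))))))) (.nd (nat_lit 19) 
(.nd (nat_lit 28) (.nd (nat_lit 16) (.nd (nat_lit 26) (.nd (nat_lit 7) (.nd (nat_lit 32) 
(.nd (nat_lit 12) (.lf (nat_lit 25321539) (dlOf (nat_lit 1) (nat_lit 0x8008003c00200020008bf0c03))) 
(.lf (nat_lit 3758256195) (dlOf (nat_lit 1) (nat_lit 0x60018127d81)))) (.nd (nat_lit 27) 
(.lf (nat_lit 5368864835) (dlOf (nat_lit 5) (nat_lit 0x1802a0004014000300880020014003ea10000402a000a014000700880038038003e810000802a000c014000b00880058038003e610002002a0010014000a00880048038003e410000800200080008051802))) 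
(.lf (nat_lit 5503082563) (dlOf (nat_lit 5) (nat_lit 0x300a00028044001001c00060050008f840003008800100380023c08001002a00060140008008800380380023a100010028000e01100060070004701800b00080024002000c0008051783))))) 
(.nd (nat_lit 9) (.nd (nat_lit 10) 
(.lf (nat_lit 3758256323) (dlOf (nat_lit 1) (nat_lit 0x460018127f01))) 
(.lf (nat_lit 48391363) (dlOf (nat_lit 19) (nat_lit 0x8406005b1d04000500801fd17400ca88000a8406006f1d040004c1002cce820001f02017a7410000e81005d4400030203002a8e820001c0600da8800066406004e9d04000360c01bd10000da80c00713a080006018013a200012101801647410000b830018440000a9d04000280800fd100007e80c00353a080004c18000a200020ce820001004002e741000078100b13a08000380800d1d04000180400d0e82000090200ce8ba00754400036a0300000a0c014d17400c8880006a40600000c1801aa03000000040020004000a0019402d02)))) 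
(.lf (nat_lit 20083395) (dlOf (nat_lit 1) (nat_lit 0x4002000200089d8c82))))) (.nd (nat_lit 29) 
(.nd (nat_lit 8) (.nd (nat_lit 9) 
(.lf (nat_lit 3288490051) (dlOf (nat_lit 1) (nat_lit 0x20028030e01))) 
(.lf (nat_lit 4362232387) (dlOf (nat_lit 2) (nat_lit 0x30000000dc04001000200420008018c82)))) 
(.lf (nat_lit 4362232131) (dlOf (nat_lit 3) (nat_lit 0xd01980293c0800100b40147804000400400080008014c02)))) 
(.nd (nat_lit 7) (.nd (nat_lit 8) 
(.lf (nat_lit 2752667715) (dlOf (nat_lit 1) (nat_lit 0x180008030e01))) 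
(.lf (nat_lit 2885837123) (dlOf (nat_lit 3) (nat_lit 0xdf00000013c0805d00000009a04009c002002000080b0602)))) 
(.lf (nat_lit 2885836995) (dlOf (nat_lit 2) (nat_lit 0x71000000034040088002002400080b0402)))))) 
(.nd (nat_lit 20) (.nd (nat_lit 27) (.nd (nat_lit 22) 
(.lf (nat_lit 5368930371) (dlOf (nat_lit 1) (nat_lit 0x58008002800200260008090003))) 
(.lf (nat_lit 63135811) (dlOf (nat_lit 2) (nat_lit 0x1c3f4000a88199e0600)))) (.nd (nat_lit 8) 
(.lf (nat_lit 4429406275) (dlOf (nat_lit 1) (nat_lit 0x4004000200080a0d02))) 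
(.lf (nat_lit 671311683) (dlOf (nat_lit 3) (nat_lit 0x100170000900800a009400040040004004000c0008143e02))))) 
(.nd (nat_lit 7) (.nd (nat_lit 23) 
(.lf (nat_lit 2752733251) (dlOf (nat_lit 2) (nat_lit 0x7e1fd00000018030e00))) 
(.lf (nat_lit 26435651) (dlOf (nat_lit 1) (nat_lit 0x60028c50581)))) 
(.lf (nat_lit 20148931) (dlOf (nat_lit 1) (nat_lit 0x4002000200089d8c82)))))) (.nd (nat_lit 12) 
(.nd (nat_lit 27) (.nd (nat_lit 16) (.nd (nat_lit 20) 
(.lf (nat_lit 4026687555) (dlOf (nat_lit 1) (nat_lit 0x20028030e01))) 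
(.lf (nat_lit 3490865219) (dlOf (nat_lit 1) (nat_lit 0x180008030e01)))) (.nd (nat_lit 7) 
(.lf (nat_lit 3490930755) (dlOf (nat_lit 2) (nat_lit 0x7e1eb00000018030e00))) 
(.lf (nat_lit 3020120259) (dlOf (nat_lit 1) (nat_lit 0x400400020018130402))))) (.nd (nat_lit 8) 
(.nd (nat_lit 7) (.nd (nat_lit 9) 
(.lf (nat_lit 5773616195) (dlOf (nat_lit 1) (nat_lit 0x4004000200080e2882))) 
(.lf (nat_lit 1007839811) (dlOf (nat_lit 1) (nat_lit 0x40018805201)))) 
(.lf (nat_lit 3624034499) (dlOf (nat_lit 2) (nat_lit 0x71000000034040088002002400080b0402)))) 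
(.nd (nat_lit 26) 
(.lf (nat_lit 3624034627) (dlOf (nat_lit 3) (nat_lit 0xdf0000001580805d0000000a804009c002002000080b0602))) 
(.lf (nat_lit 4228014403) (dlOf (nat_lit 3) (nat_lit 0xd0190012e80800100b00094e04000400400080008014c02)))))) 
(.nd (nat_lit 29) (.nd (nat_lit 9) (.nd (nat_lit 7) 
(.lf (nat_lit 3489889603) (dlOf (nat_lit 2) (nat_lit 0x1c70fe0019e40800f000800280020060000800c903))) 
(.lf (nat_lit 3556997571) (dlOf (nat_lit 5) (nat_lit 0x80e4014b404000407200a590200020610052881000101c8028ec080040008005c002005e000812af83)))) 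
(.nd (nat_lit 8) 
(.lf (nat_lit 3556995779) (dlOf (nat_lit 2) (nat_lit 0x101180008038004670400020018128c81))) 
(.lf (nat_lit 3489823683) (dlOf (nat_lit 3) (nat_lit 0x590f4006185780038208006c114001ba020004002800be01))))) 
(.nd (nat_lit 7) (.nd (nat_lit 10) 
(.lf (nat_lit 3154276419) (dlOf (nat_lit 1) (nat_lit 0x8008001000200020008157d83))) 
(.lf (nat_lit 3020059715) (dlOf (nat_lit 1) (nat_lit 0x18008001000200040008129303)))) 
(.nd (nat_lit 9) (.lf (nat_lit 3154278851) (dlOf (nat_lit 1) (nat_lit 0x2002815af81))) 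
(.lf (nat_lit 805469123) (dlOf (nat_lit 9) (nat_lit 0x5300980083c08034004c0041c0400180260020b020022056000fa01000b02b0007cc080050158003e40401680ac014e055005d029800e00c8002406201c401300b50090006e8380088158015002600000040078002811be01)))))))) 
(.nd (nat_lit 16) (.nd (nat_lit 26) (.nd (nat_lit 8) (.nd (nat_lit 21) (.nd (nat_lit 27) 
(.nd (nat_lit 22) (.lf (nat_lit 537550915) (dlOf (nat_lit 1) (nat_lit 0x400080a0d01))) 
(.lf (nat_lit 4874307) (dlOf (nat_lit 1) (nat_lit 0x200082d0581)))) (.nd (nat_lit 28) 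
(.lf (nat_lit 134897731) (dlOf (nat_lit 3) (nat_lit 0x1100c4000ba0401b406200d0011000110280d0c00))) 
(.lf (nat_lit 5772042307) (dlOf (nat_lit 6) (nat_lit 0x401280081c080020060003ea04000c04c0004023000401000038060003e810001804c000c023000701000050060003e610000c04c000a023000701000048060003e410000800400120008051802))))) 
(.nd (nat_lit 20) 
(.lf (nat_lit 1344954435) (dlOf (nat_lit 10) (nat_lit 0x1070a68078836402c01b002ae07d01d303e0009242805281f00048e0404080fa048c07c000f80200cf09d808684e4043019a0322075015f03980071c2800681d40038a0400b4286015207500870398006f4180c382f4002a804001c17a000f4020008000000488189a0600))) 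
(.lf (nat_lit 45768771) (dlOf (nat_lit 7) (nat_lit 0xfd9f7007e46c803f1e9c01f87ae0023c08004000000119010183000000544080050000002a0040264000001370200440000007a019360600))))) 
(.nd (nat_lit 10) 
(.lf (nat_lit 51011907) (dlOf (nat_lit 1) (nat_lit 0x200080020002000200094e8703))) 
(.nd (nat_lit 12) (.lf (nat_lit 1611294019) (dlOf (nat_lit 1) (nat_lit 0x3000400020008123302))) 
(.lf (nat_lit 8025411) (dlOf (nat_lit 1) (nat_lit 0x400200020008519902)))))) (.nd (nat_lit 29) 
(.nd (nat_lit 27) (.nd (nat_lit 28) 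
(.lf (nat_lit 4362756163) (dlOf (nat_lit 2) (nat_lit 0x1c033000278180f1880))) 
(.lf (nat_lit 1409966147) (dlOf (nat_lit 1) (nat_lit 0x8000800a0002001a00080a0e03)))) 
(.nd (nat_lit 7) 
(.lf (nat_lit 202006595) (dlOf (nat_lit 3) (nat_lit 0x1100c4000ba0401b406200d0011000110280d0c00))) 
(.lf (nat_lit 473588163) (dlOf (nat_lit 1) (nat_lit 0x38008000400200060008f67a83))))) 
(.nd (nat_lit 30) (.lf (nat_lit 3154796611) (dlOf (nat_lit 2) (nat_lit 0x6402c0000b018330e80))) 
(.nd (nat_lit 31) 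
(.lf (nat_lit 6376022083) (dlOf (nat_lit 6) (nat_lit 0x100a00025004000404c00040230005010000300600023e10000c04c00060230006010000300600023c10003804c00100230009010000380600023a10001804c000c0230008010000500600023810001c00400160008051782))) 
(.lf (nat_lit 4228538435) (dlOf (nat_lit 3) (nat_lit 0x381300208058000ee04005e02c000450180f1400))))))) 
(.nd (nat_lit 26) (.nd (nat_lit 25) (.nd (nat_lit 20) (.nd (nat_lit 8) 
(.lf (nat_lit 537616451) (dlOf (nat_lit 3) (nat_lit 0xe807e000640200740580002e8180d0c00))) 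
(.lf (nat_lit 1611358531) (dlOf (nat_lit 1) (nat_lit 0x20018148701)))) (.nd (nat_lit 7) 
(.lf (nat_lit 10182723) (dlOf (nat_lit 1) (nat_lit 0x2e00185c0e01))) 
(.lf (nat_lit 5988547) (dlOf (nat_lit 1) (nat_lit 0x4a400201000008420482))))) (.nd (nat_lit 7) 
(.nd (nat_lit 21) (.lf (nat_lit 59465795) (dlOf (nat_lit 2) (nat_lit 0x404ae000aa019800600))) 
(.lf (nat_lit 36397123) (dlOf (nat_lit 1) (nat_lit 0x20019070001)))) 
(.lf (nat_lit 36399555) (dlOf (nat_lit 1) (nat_lit 0x20019074e81))))) (.nd (nat_lit 29) 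
(.nd (nat_lit 21) 
(.lf (nat_lit 1410031683) (dlOf (nat_lit 3) (nat_lit 0xe807e000610200740580002e8180d0c00))) 
(.lf (nat_lit 472604739) (dlOf (nat_lit 25) (nat_lit 0xd58580030029a049e0d9018206c00c78270064811a036a08c019903e80ab01f00049224014411a00a407d0012402013f0b0005e8364020c138028c08d00ed04600a381f4018c0f800ca02b0012388001d046800281f40048a08014411a00a407d00111820051046802881f4003f40800200fa001f80200a2160005304e002901f4003ee0c00c811a006807d000fa8202690b000fa85340a48138052808d0034046014d81f409600f8001202a000f80800510b000288270013c11a00a407d000f78400040000007a4080a6855804f428601be13b011e09c80d7033404a012c0256085012203a809201cc0038e2400282ac002e0750013039800718180098558002819a0004096002a03a801501cc0038a1401280ea001bf020192156004d0a18038825804d40ea026c073000de85003d03a802181cc003780800300fa001b702008e163007005e0018008c002a80c001017800100230007a0200040c800460000001280800040fa000030200a208d005203e802581d4000000c0128004001000089c0602))))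 
(.nd (nat_lit 7) (.lf (nat_lit 1007378499) (dlOf (nat_lit 1) (nat_lit 0x80018300e81))) 
(.lf (nat_lit 738943427) (dlOf (nat_lit 4) (nat_lit 0x100d00006066000300000084c1800281a0004100400240d0001406600080000008081801a00080104002002c0008157003))))))))) 
(.nd (nat_lit 16) (.nd (nat_lit 26) (.nd (nat_lit 21) (.nd (nat_lit 30) (.nd (nat_lit 22) 
(.nd (nat_lit 6) (.nd (nat_lit 20) (.nd (nat_lit 27) 
(.lf (nat_lit 6442868739) (dlOf (nat_lit 22) (nat_lit 0x1001a005c840800b004002e3e0400b406800ea032006e0178001003c01f801a0170b0a018c03400a4019003980c4018005e000a02e00a30080021803402e121c02f006800b603100be008005bc41800700c4002805c00d801000af60300170080057a40802680e00370020015dc040098038009700c006a004002ba20c01c006800b603200adb02001b00800557808000804002a8a0401640680154302012003400aa101007e01a0055040802300d001140200153604001e0100097801006501a001180c40378020012d806005a034002001880450040011001a0129d08002403100d4008004a681003680d0016c06400a80310055017002b80b001480440088010002f0068000004004480080bc0002005e00081e0003)))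 
(.lf (nat_lit 2818990083) (dlOf (nat_lit 11) (nat_lit 0x901e000240e4006006f00150350001018400400bc002005b001202580018108000407e002203c000101b000700d00078036001c01a00a930f001203c000881c800040e0006606f001b0350008018400640c0003405f001702f000d016c003c0960032040000301f800680f0003c068003202a00260110012806c00040340032019001a00c005494a800d01e0008c0de002006a0004030800d017800700b6004604b0009021000380fc00840780004036001001a000c80880060036015231c002a0780009039001881bc00880d4001c061001902f000b016c0044096000c042000c01f800780f0003006c0034034002e011000f806c02a443c001c0e4000e03f00a8f02000701f800280d8000c0440151c06001e072001401b0004008802a340c002c06c001a02200a8c02000c01f8054540800681c8000407e014980400900028140001)))) 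
(.nd (nat_lit 19) (.lf (nat_lit 26632195) (dlOf (nat_lit 1) (nat_lit 0x8008000400200020008c50003))) 
(.lf (nat_lit 52322307) (dlOf (nat_lit 1) (nat_lit 0x400200020009520002))))) (.nd (nat_lit 25) 
(.lf (nat_lit 4295385155) (dlOf (nat_lit 2) (nat_lit 0x80080003202000400081b0d01))) 
(.lf (nat_lit 33972291) (dlOf (nat_lit 1) (nat_lit 0x400400020008f90602))))) (.nd (nat_lit 7) 
(.nd (nat_lit 8) (.lf (nat_lit 13000707) (dlOf (nat_lit 1) (nat_lit 0x580080054002000a00086f0003))) 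
(.lf (nat_lit 4612355) (dlOf (nat_lit 1) (nat_lit 0x20018290701)))) 
(.lf (nat_lit 21389699) (dlOf (nat_lit 1) (nat_lit 0x20028a35a81))))) (.nd (nat_lit 29) 
(.nd (nat_lit 8) (.nd (nat_lit 7) 
(.lf (nat_lit 5637562371) (dlOf (nat_lit 1) (nat_lit 0x20018110001))) 
(.lf (nat_lit 1344168067) (dlOf (nat_lit 1) (nat_lit 0x400400020008490102)))) (.nd (nat_lit 10) 
(.lf (nat_lit 1208379779) (dlOf (nat_lit 1) (nat_lit 0x3000280e4e81))) 
(.lf (nat_lit 3490082179) (dlOf (nat_lit 1) (nat_lit 0x400400020008006c02))))) (.nd (nat_lit 28) 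
(.nd (nat_lit 32) (.lf (nat_lit 1611030531) (dlOf (nat_lit 2) (nat_lit 0x405500aed0180c0000))) 
(.lf (nat_lit 5905997827) (dlOf (nat_lit 1) (nat_lit 0x400200160008180002)))) (.nd (nat_lit 6) 
(.nd (nat_lit 20) (.lf (nat_lit 4026949635) (dlOf (nat_lit 2) (nat_lit 0x401e000000180d0000))) 
(.lf (nat_lit 1880514563) (dlOf (nat_lit 1) (nat_lit 0x80080004002000800089d0003)))) 
(.lf (nat_lit 4026949699) (dlOf (nat_lit 22) (nat_lit 0xa00f000320102270100069807c095803a00fe00e0172005800184280c88080017003e015a01d000100e000a80380384016000600c00e4020004500580017c1013c008c000b2040d90046000580200880230002b8101210100004002c0005008017804000027020092020001c00580009810029808000ac0160002404030802000e9005800088101b0008c000420405280460002002013c0230000f810043011802a80800003a0807fc046025a0200000e0202210118002008000240160001b0600120200000d0101ad01180168080001c0160001906028c020006e00580000010058000828e000200aa00080d0c03))))))) 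
(.nd (nat_lit 10) (.nd (nat_lit 22) (.nd (nat_lit 8) (.nd (nat_lit 19) 
(.lf (nat_lit 37117955) (dlOf (nat_lit 1) (nat_lit 0x400190a0001))) 
(.lf (nat_lit 29253635) (dlOf (nat_lit 7) (nat_lit 0x4ae600045728001a85400154280002a0c000150580549830001ab9800095ca000aa15000250a0000a83002a4a1400155cc0002ae5000350a8003285000194180006a0b00a918600055730002ab94001142a000aa1400025060002282c02a441800315cc0018a1500a8f0200055730003a85402a3408000400400260008de0002)))) 
(.nd (nat_lit 6) (.lf (nat_lit 19819395) (dlOf (nat_lit 1) (nat_lit 0x4002000200089d5c02))) 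
(.lf (nat_lit 1881563459) (dlOf (nat_lit 1) (nat_lit 0x200028f60c01))))) (.nd (nat_lit 6) 
(.nd (nat_lit 9) (.lf (nat_lit 48652291) (dlOf (nat_lit 2) (nat_lit 0x2cb600000019420000))) 
(.lf (nat_lit 23486979) (dlOf (nat_lit 1) (nat_lit 0x138008006800200400008b80d83)))) 
(.lf (nat_lit 48652355) (dlOf (nat_lit 2) (nat_lit 0x199d40004cb6000163f8008f01801d800800f800200640009420603))))) 
(.nd (nat_lit 6) (.nd (nat_lit 7) (.nd (nat_lit 11) 
(.lf (nat_lit 1344693251) (dlOf (nat_lit 1) (nat_lit 0x680080034002000e0008982883))) 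
(.lf (nat_lit 19819523) (dlOf (nat_lit 1) (nat_lit 0x20004000600189d5f82)))) 
(.lf (nat_lit 61761155) (dlOf (nat_lit 1) (nat_lit 0x400400500009923a02)))) (.nd (nat_lit 7) 
(.lf (nat_lit 1344693315) (dlOf (nat_lit 1) (nat_lit 0x400400060008982882))) (.nd (nat_lit 8) 
(.lf (nat_lit 41837763) (dlOf (nat_lit 1) (nat_lit 0x40019242d01))) 
(.lf (nat_lit 8286147) (dlOf (nat_lit 1) (nat_lit 0x8008000400200020008517a83)))))))) 
(.nd (nat_lit 27) (.nd (nat_lit 30) (.nd (nat_lit 19) (.nd (nat_lit 6) (.nd (nat_lit 7) 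
(.nd (nat_lit 31) (.lf (nat_lit 4362493955) (dlOf (nat_lit 1) (nat_lit 0x17800400440008090002))) 
(.lf (nat_lit 6509977603) (dlOf (nat_lit 1) (nat_lit 0x400200160008180002)))) 
(.lf (nat_lit 4362494339) (dlOf (nat_lit 1) (nat_lit 0xd8008000400200200008090783)))) 
(.lf (nat_lit 4362494019) (dlOf (nat_lit 1) (nat_lit 0x600080020002003e0008090003)))) 
(.nd (nat_lit 6) (.nd (nat_lit 7) 
(.lf (nat_lit 68050947) (dlOf (nat_lit 1) (nat_lit 0x400183d0001))) 
(.lf (nat_lit 2754505091) (dlOf (nat_lit 1) (nat_lit 0x200180f4e81)))) 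
(.lf (nat_lit 2753454147) (dlOf (nat_lit 1) (nat_lit 0x20018090001))))) (.nd (nat_lit 28) 
(.nd (nat_lit 6) (.nd (nat_lit 29) 
(.lf (nat_lit 3288752131) (dlOf (nat_lit 2) (nat_lit 0x401e000000180d0000))) 
(.lf (nat_lit 1678139395) (dlOf (nat_lit 1) (nat_lit 0x80080004002000200081a0003)))) 
(.lf (nat_lit 3288752195) (dlOf (nat_lit 22) (nat_lit 0x44e02000d300f812b007401fc01c02e400b00035050191010002e007c02b403a000201c00150070070802c000d21801c8040008a00b000340200050078001840813c008c000b2040d90046000580200880230002b8101210100004002c0005008017804000027020092020001c00580009810029808000ac0160002404030802000e9005800088101b0008c000420405280460002002013c0230000f810043011802a80800003a0807fc046025a0200000e0202210118002008000240160001b0600120200000d0101ad01180168080001c0160001906028c020006e00580000010058000828e000200aa00080d0c03)))) 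
(.nd (nat_lit 7) (.nd (nat_lit 9) 
(.lf (nat_lit 6241542147) (dlOf (nat_lit 1) (nat_lit 0x20018110001))) 
(.lf (nat_lit 1410228739) (dlOf (nat_lit 4) (nat_lit 0x2c0b00014d02000e05d0006c81000402e8003340800600080038002001400081b0d83)))) 
(.lf (nat_lit 4096157315) (dlOf (nat_lit 1) (nat_lit 0x200280e3a01)))))) (.nd (nat_lit 28) 
(.nd (nat_lit 29) (.nd (nat_lit 6) 
(.lf (nat_lit 4496711683) (dlOf (nat_lit 2) (nat_lit 0x4c064007410200040018140001))) 
(.lf (nat_lit 201744451) (dlOf (nat_lit 1) (nat_lit 0x4400200600008090002)))) (.nd (nat_lit 7) 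
(.nd (nat_lit 9) (.lf (nat_lit 738615299) (dlOf (nat_lit 2) (nat_lit 0x405500b9c0180c0000))) 
(.lf (nat_lit 2886099459) (dlOf (nat_lit 2) (nat_lit 0x100000005004000800200420008157f82)))) 
(.lf (nat_lit 3959841155) (dlOf (nat_lit 1) (nat_lit 0x50008002400200120008170783))))) 
(.nd (nat_lit 7) (.nd (nat_lit 30) 
(.lf (nat_lit 2617663491) (dlOf (nat_lit 2) (nat_lit 0x1009401a6204003c00400020008130002))) 
(.lf (nat_lit 5838888963) (dlOf (nat_lit 22) (nat_lit 0xe018800500b801b00200174806002e01000ba381004d01c006e004002e74080130070012e01800d4008005cbc1803800d0016c0640172504003601000b66010001008005adc0802c80d002d52040240068016a80200fc03400b5381004601a0022804002d4a0800b406800ea032006e0178001003c01f801a015a40a018c03400a4019003980c4018005e000a02e00a30080021803402b441c00400680159c02002c01000acd0100bc01a002d80c402f80200158206001e0100097481006501a001180c40378020012c406005a034002001880450040011001a0129308002403100d4008004a401003680d0016c06400a80310055017002b80b001480440088010002f0068000004004480080bc0002005e00081e0003))))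 
(.nd (nat_lit 19) 
(.lf (nat_lit 472277123) (dlOf (nat_lit 1) (nat_lit 0x28008001c00200120008980303))) 
(.lf (nat_lit 471752835) (dlOf (nat_lit 1) (nat_lit 0x400400020008490102)))))))) (.nd (nat_lit 19) 
(.nd (nat_lit 29) (.nd (nat_lit 20) (.nd (nat_lit 9) (.nd (nat_lit 31) (.nd (nat_lit 6) 
(.nd (nat_lit 7) (.lf (nat_lit 48717827) (dlOf (nat_lit 1) (nat_lit 0x10000400080009420002))) 
(.lf (nat_lit 490627) (dlOf (nat_lit 1) (nat_lit 0x2002800c181)))) 
(.lf (nat_lit 40330563) (dlOf (nat_lit 1) (nat_lit 0x3e00191f3301)))) (.nd (nat_lit 26) 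
(.lf (nat_lit 2416402435) (dlOf (nat_lit 1) (nat_lit 0x80080004002000200081b0003))) 
(.nd (nat_lit 28) (.lf (nat_lit 6510043139) (dlOf (nat_lit 1) (nat_lit 0x80008190001))) 
(.lf (nat_lit 3557253123) (dlOf (nat_lit 1) (nat_lit 0x1c00200020008180002)))))) (.nd (nat_lit 10) 
(.nd (nat_lit 26) (.lf (nat_lit 134701571) (dlOf (nat_lit 1) (nat_lit 0x120018090d81))) 
(.nd (nat_lit 28) (.lf (nat_lit 3288818179) (dlOf (nat_lit 1) (nat_lit 0x4002000200081b0d82))) 
(.lf (nat_lit 1409769987) (dlOf (nat_lit 1) (nat_lit 0x500008090d81))))) (.nd (nat_lit 6) 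
(.lf (nat_lit 487043) (dlOf (nat_lit 1) (nat_lit 0xe20018007181))) 
(.lf (nat_lit 485187) (dlOf (nat_lit 4) (nat_lit 0x17aa40002d2200066908001f480001ba3e0011d1c000368d000233b600039d90013c73801160ec003602200183510001b0d0002ced8000d008001e9000005604000800200040008003e02)))))) 
(.nd (nat_lit 6) (.nd (nat_lit 21) (.nd (nat_lit 23) 
(.lf (nat_lit 3491192835) (dlOf (nat_lit 1) (nat_lit 0x1400400020018070002))) 
(.lf (nat_lit 9920515) (dlOf (nat_lit 3) (nat_lit 0xa3cf00e8f810005d148057440800880080050002003a0008590003)))) 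
(.nd (nat_lit 23) 
(.lf (nat_lit 24600579) (dlOf (nat_lit 6) (nat_lit 0x6d1a00056830005afe006194180015a34000ad0600055fc00c32030007b4a00035a340022d06000b5fc00c31840004b4a00035a34001ed06000b5fc00c31040006b458021940800080080008002000a0008ba0003))) 
(.lf (nat_lit 49766403) (dlOf (nat_lit 1) (nat_lit 0x80080038002000200094b0003))))) 
(.nd (nat_lit 21) (.nd (nat_lit 22) 
(.lf (nat_lit 9920579) (dlOf (nat_lit 1) (nat_lit 0x1c00400100008591782))) 
(.lf (nat_lit 30892099) (dlOf (nat_lit 1) (nat_lit 0x20004000a0008e50e82)))) 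
(.lf (nat_lit 37183555) (dlOf (nat_lit 3) (nat_lit 0x1125fd008a2ce804a0ff0002a80c008c0000009402003600290b0601)))))) 
(.nd (nat_lit 26) (.nd (nat_lit 28) (.nd (nat_lit 27) (.nd (nat_lit 32) 
(.lf (nat_lit 1611096067) (dlOf (nat_lit 1) (nat_lit 0xe00180e0001))) 
(.lf (nat_lit 5906063363) (dlOf (nat_lit 1) (nat_lit 0x80008190001)))) 
(.lf (nat_lit 2819055619) (dlOf (nat_lit 3) (nat_lit 0x8180011be04001007e007ac0200180028180001)))) 
(.nd (nat_lit 6) (.lf (nat_lit 805789699) (dlOf (nat_lit 1) (nat_lit 0x4002000400081a0002))) 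
(.lf (nat_lit 805790147) (dlOf (nat_lit 5) (nat_lit 0xf8108000a6040068084000510200340420001b8100180210000d40802780080018002001e00081a0903))))) 
(.nd (nat_lit 27) (.nd (nat_lit 6) 
(.lf (nat_lit 2752995331) (dlOf (nat_lit 1) (nat_lit 0x20018070001))) 
(.lf (nat_lit 1678205379) (dlOf (nat_lit 5) (nat_lit 0xf8108000a6040068084000510200340420001b8100180210000d40802780080018002001e00081a0903)))) 
(.nd (nat_lit 21) (.lf (nat_lit 738680835) (dlOf (nat_lit 1) (nat_lit 0xe00180e0001))) 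
(.lf (nat_lit 1009213443) (dlOf (nat_lit 2) (nat_lit 0x1d075801c980800700080008002001c00090a0003))))))) 
(.nd (nat_lit 6) (.nd (nat_lit 20) (.nd (nat_lit 9) (.nd (nat_lit 21) 
(.lf (nat_lit 42950659) (dlOf (nat_lit 1) (nat_lit 0x20009290001))) 
(.lf (nat_lit 24076291) (dlOf (nat_lit 4) (nat_lit 0x400001da502001e00000e9f010001c2e8007defc000000800c0004001a0008b80002)))) 
(.nd (nat_lit 7) (.lf (nat_lit 2752471555) (dlOf (nat_lit 1) (nat_lit 0x3c002003e0008017f82))) 
(.lf (nat_lit 6376352387) (dlOf (nat_lit 1) (nat_lit 0x400200020008095482))))) (.nd (nat_lit 24) 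
(.nd (nat_lit 21) (.lf (nat_lit 69165059) (dlOf (nat_lit 1) (nat_lit 0x4004000200088c0002))) 
(.nd (nat_lit 27) (.lf (nat_lit 2755616771) (dlOf (nat_lit 1) (nat_lit 0x448002017000081b0002))) 
(.lf (nat_lit 473915395) (dlOf (nat_lit 5) (nat_lit 0x41ae0089c02000215f003f88100140af801fb808002026800e4c040250004000e0008fc0002))))) 
(.nd (nat_lit 22) 
(.lf (nat_lit 29319171) (dlOf (nat_lit 14) (nat_lit 0x21bf8000cdfb00066c70019b5480019aa2000cd40000869f8001b36800099b20008cc9000666400190058003b7f00015bf60006df900066c7001a35480015aa2000ed4f00046a00003b4fc0019a7a0008cda00036648002332000c7e34001dbf80008dfb00066c70019b5480019aa20008d4f00066a0000434fc000d9b40002cd900046648002b32000c78300005bf80006d8e00316a90001b54400119b40006cc90031c8600086fe0002b7ec0015b1c0066d5200066a88001353c0015a80000ed3f000266d0001b324000d99000636160006dfc00066c7001c35480005aa2000cd4f000466d0001b32400c661c0015bf80004d8e002f6a90001b36800c5210001dbf8000ad8e00306a90001336800c501000c1aa400625020002dfc00026c70015354800c440c001dbf8000ad8e00326a90001336800c361000c1aa40004cda0030c0200306a90016e40800680080004002000a0008df0003)))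 
(.lf (nat_lit 25124867) (dlOf (nat_lit 1) (nat_lit 0xb4002001a0008be0002)))))) (.nd (nat_lit 8) 
(.nd (nat_lit 7) (.nd (nat_lit 22) (.nd (nat_lit 26) 
(.lf (nat_lit 1343184963) (dlOf (nat_lit 1) (nat_lit 0x8008000400200020008190583))) 
(.lf (nat_lit 470769731) (dlOf (nat_lit 1) (nat_lit 0x20028170581)))) 
(.lf (nat_lit 13590595) (dlOf (nat_lit 4) (nat_lit 0x7b8dc01f1c6300f3deb0001841802371b8016f8c600b1bd600030030045e318029ef580004408009800400080008730c02)))) 
(.nd (nat_lit 9) (.lf (nat_lit 41903299) (dlOf (nat_lit 1) (nat_lit 0x20019242d01))) 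
(.lf (nat_lit 19886787) (dlOf (nat_lit 1) (nat_lit 0x80080004002000200089d8c83))))) 
(.nd (nat_lit 21) (.nd (nat_lit 26) 
(.lf (nat_lit 3490668867) (dlOf (nat_lit 1) (nat_lit 0x20028014c01))) 
(.lf (nat_lit 2752471363) (dlOf (nat_lit 1) (nat_lit 0x20028014c01)))) (.nd (nat_lit 7) 
(.lf (nat_lit 3492767555) (dlOf (nat_lit 4) (nat_lit 0xe80e40006c0400280d80003402000a03c000b0018000c010006000800a0002001800080f3e03))) 
(.lf (nat_lit 19888579) (dlOf (nat_lit 2) (nat_lit 0x5b570051d8189daf80)))))))))) (.nd (nat_lit 28) 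
(.nd (nat_lit 16) (.nd (nat_lit 6) (.nd (nat_lit 31) (.nd (nat_lit 21) (.nd (nat_lit 7) 
(.nd (nat_lit 18) (.nd (nat_lit 8) (.nd (nat_lit 19) (.nd (nat_lit 20) (.nd (nat_lit 22) 
(.lf (nat_lit 1073897479) (dlOf (nat_lit 1) (nat_lit 0x780028020001))) 
(.lf (nat_lit 21127175) (dlOf (nat_lit 1) (nat_lit 0x8008000800200020008a10003)))) 
(.lf (nat_lit 1204231) (dlOf (nat_lit 1) (nat_lit 0x2b8008002000200d20008090483)))) 
(.lf (nat_lit 42622983) (dlOf (nat_lit 1) (nat_lit 0x380009260001)))) 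
(.lf (nat_lit 134376711) (dlOf (nat_lit 1) (nat_lit 0x20028006681)))) (.nd (nat_lit 20) 
(.lf (nat_lit 537288711) (dlOf (nat_lit 1) (nat_lit 0x400400020008080002))) (.nd (nat_lit 23) 
(.lf (nat_lit 22437895) (dlOf (nat_lit 2) (nat_lit 0x5a9f80031a04003800400140008ae0482))) 
(.lf (nat_lit 30826503) (dlOf (nat_lit 1) (nat_lit 0xa0018e50001)))))) (.nd (nat_lit 8) 
(.nd (nat_lit 26) 
(.lf (nat_lit 4831993991) (dlOf (nat_lit 1) (nat_lit 0x28008000400200020008080f03))) 
(.lf (nat_lit 4899102855) (dlOf (nat_lit 1) (nat_lit 0xc00400060008070e02)))) (.nd (nat_lit 27) 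
(.lf (nat_lit 4295123335) (dlOf (nat_lit 1) (nat_lit 0x400400020008090782))) 
(.lf (nat_lit 4429341063) (dlOf (nat_lit 1) (nat_lit 0x400400020008090782)))))) (.nd (nat_lit 20) 
(.nd (nat_lit 7) (.nd (nat_lit 8) (.nd (nat_lit 23) 
(.lf (nat_lit 2514951) (dlOf (nat_lit 1) (nat_lit 0x2a0028160401))) 
(.lf (nat_lit 44457991) (dlOf (nat_lit 1) (nat_lit 0x400400020009310002)))) 
(.lf (nat_lit 36332807) (dlOf (nat_lit 1) (nat_lit 0x20019072f81)))) (.nd (nat_lit 8) 
(.lf (nat_lit 40002695) (dlOf (nat_lit 1) (nat_lit 0x4004000600091f2b02))) 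
(.lf (nat_lit 3039623) (dlOf (nat_lit 1) (nat_lit 0x20028200781))))) (.nd (nat_lit 8) 
(.nd (nat_lit 7) (.nd (nat_lit 23) 
(.lf (nat_lit 24797191) (dlOf (nat_lit 1) (nat_lit 0x4400200020008bb0002))) 
(.lf (nat_lit 16408583) (dlOf (nat_lit 1) (nat_lit 0x380080008002000800088a0003)))) 
(.lf (nat_lit 20605575) (dlOf (nat_lit 1) (nat_lit 0x10004000800089d5482)))) (.nd (nat_lit 11) 
(.lf (nat_lit 20608263) (dlOf (nat_lit 1) (nat_lit 0xc600089d9601))) 
(.lf (nat_lit 20606215) (dlOf (nat_lit 1) (nat_lit 0x500080030002000a00089d6683))))))) 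
(.nd (nat_lit 11) (.nd (nat_lit 18) (.nd (nat_lit 26) (.nd (nat_lit 19) 
(.lf (nat_lit 2684510215) (dlOf (nat_lit 3) (nat_lit 0x100cc0199204000806600cc80200160028080001))) 
(.lf (nat_lit 3892994055) (dlOf (nat_lit 1) (nat_lit 0x200082c0001)))) (.nd (nat_lit 20) 
(.lf (nat_lit 3288489991) (dlOf (nat_lit 1) (nat_lit 0x40028030001))) 
(.lf (nat_lit 2752667655) (dlOf (nat_lit 3) (nat_lit 0x1019c011b20400240ce004120200020028030001))))) 
(.nd (nat_lit 26) (.nd (nat_lit 27) 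
(.lf (nat_lit 6442868743) (dlOf (nat_lit 1) (nat_lit 0x54004006000081e0002))) 
(.lf (nat_lit 3355860999) (dlOf (nat_lit 1) (nat_lit 0x30008001000200180008130003)))) 
(.lf (nat_lit 3288752135) (dlOf (nat_lit 2) (nat_lit 0x36000000000080080008005c002003e00080d0003))))) 
(.nd (nat_lit 8) (.nd (nat_lit 9) 
(.lf (nat_lit 3892476039) (dlOf (nat_lit 1) (nat_lit 0x7800800580020002000815a883))) 
(.nd (nat_lit 12) 
(.lf (nat_lit 2147641991) (dlOf (nat_lit 1) (nat_lit 0x18008001400200020008095483))) 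
(.lf (nat_lit 3758258823) (dlOf (nat_lit 1) (nat_lit 0x2001812b681))))) (.nd (nat_lit 7) 
(.lf (nat_lit 3892477191) (dlOf (nat_lit 1) (nat_lit 0x40040002000815c602))) 
(.lf (nat_lit 3758256007) (dlOf (nat_lit 1) (nat_lit 0xae0008127781))))))) (.nd (nat_lit 26) 
(.nd (nat_lit 19) (.nd (nat_lit 7) (.nd (nat_lit 9) (.nd (nat_lit 22) 
(.lf (nat_lit 4429602887) (dlOf (nat_lit 1) (nat_lit 0x200181b0e01))) 
(.lf (nat_lit 54943815) (dlOf (nat_lit 1) (nat_lit 0x8008000400200020009670603)))) 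
(.lf (nat_lit 11690567) (dlOf (nat_lit 2) (nat_lit 0x14eba20005602000200186c1101)))) 
(.nd (nat_lit 9) (.nd (nat_lit 10) 
(.lf (nat_lit 3758256327) (dlOf (nat_lit 1) (nat_lit 0x80018127f81))) 
(.lf (nat_lit 20081863) (dlOf (nat_lit 1) (nat_lit 0x4002000400089d6382)))) 
(.lf (nat_lit 20083399) (dlOf (nat_lit 1) (nat_lit 0x4002000200089d8c82))))) (.nd (nat_lit 10) 
(.nd (nat_lit 18) (.nd (nat_lit 24) 
(.lf (nat_lit 10117191) (dlOf (nat_lit 1) (nat_lit 0x200185b0881))) 
(.lf (nat_lit 60448839) (dlOf (nat_lit 1) (nat_lit 0x8008000400200020009860603)))) 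
(.lf (nat_lit 47079495) (dlOf (nat_lit 1) (nat_lit 0x168002008800093a0602)))) (.nd (nat_lit 7) 
(.lf (nat_lit 49964103) (dlOf (nat_lit 1) (nat_lit 0x200294c2881))) (.nd (nat_lit 8) 
(.lf (nat_lit 36332743) (dlOf (nat_lit 1) (nat_lit 0xa0019072d01))) 
(.lf (nat_lit 20606407) (dlOf (nat_lit 2) (nat_lit 0x233b8000be040080004003000089d6d02))))))) 
(.nd (nat_lit 31) (.nd (nat_lit 8) (.nd (nat_lit 9) (.nd (nat_lit 29) 
(.lf (nat_lit 1141006407) (dlOf (nat_lit 1) (nat_lit 0xb28008027400200ea0008071303))) 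
(.lf (nat_lit 604135495) (dlOf (nat_lit 3) (nat_lit 0x401780006c0800080000000004001000200140008030602)))) 
(.lf (nat_lit 4362232391) (dlOf (nat_lit 9) (nat_lit 0x6c0000007a8100120268000bc0800080c8000480400380a800020320001182000d02a00007c0800a816400b00a8003c050001302780098110004c0840026037001001b000980d40010064003e02c0000f0b000a02a000100b00003a0800600640001b0200920008018d01)))) 
(.nd (nat_lit 7) 
(.lf (nat_lit 4362232135) (dlOf (nat_lit 2) (nat_lit 0xb80a400a330200060028014c01))) 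
(.lf (nat_lit 738356167) (dlOf (nat_lit 1) (nat_lit 0x20008095d81))))) (.nd (nat_lit 19) 
(.nd (nat_lit 8) 
(.lf (nat_lit 3288752199) (dlOf (nat_lit 3) (nat_lit 0x6f008000070040034046030e020000c00e806e002c0002e100104002006800080d0c82))) 
(.nd (nat_lit 11) (.lf (nat_lit 2886099271) (dlOf (nat_lit 1) (nat_lit 0x400400020008154c02))) 
(.lf (nat_lit 2751621447) (dlOf (nat_lit 2) (nat_lit 0x1052000000080010008000400200060008004d03))))) 
(.nd (nat_lit 9) (.nd (nat_lit 18) 
(.lf (nat_lit 2754240583) (dlOf (nat_lit 1) (nat_lit 0x10400080d0c81))) 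
(.lf (nat_lit 2753454151) (dlOf (nat_lit 1) (nat_lit 0x800400020018090002)))) 
(.lf (nat_lit 2752406087) (dlOf (nat_lit 9) (nat_lit 0xe87a400383d0006615d000d0ae00020504000d01400142ba0006702000415d000330100010f480020574000880800043d2003c15d000d0a080010818002881000302b2003c1350001203000e0ac8000880800085640003c04000400400160008018d02)))))))) 
(.nd (nat_lit 18) (.nd (nat_lit 9) (.nd (nat_lit 19) (.nd (nat_lit 7) (.nd (nat_lit 8) 
(.nd (nat_lit 27) (.lf (nat_lit 4899168263) (dlOf (nat_lit 1) (nat_lit 0x8004000200180c0002))) 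
(.lf (nat_lit 1812160519) (dlOf (nat_lit 1) (nat_lit 0x20008000c00200040008160003)))) 
(.nd (nat_lit 6) 
(.lf (nat_lit 3422778631) (dlOf (nat_lit 2) (nat_lit 0x200d4000b4040004002000c00080a9602))) 
(.lf (nat_lit 2885904711) (dlOf (nat_lit 3) (nat_lit 0xa020000600d800140000000d060018040000d01b000000100108008003400200060008144d03))))) 
(.nd (nat_lit 26) (.nd (nat_lit 6) 
(.lf (nat_lit 9658503) (dlOf (nat_lit 2) (nat_lit 0x1a1e230049f0d0007f85400c7c18001fdc70008e7d8072d740002e4b001b30ab000480c00173c10000642c016000400480008570e02))) 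
(.lf (nat_lit 3758317767) (dlOf (nat_lit 1) (nat_lit 0x8002001c0008130402)))) (.nd (nat_lit 8) 
(.lf (nat_lit 2349031559) (dlOf (nat_lit 1) (nat_lit 0x69000802c400201a80008090103))) 
(.lf (nat_lit 3288555911) (dlOf (nat_lit 1) (nat_lit 0x20008059800200e20008090783)))))) 
(.nd (nat_lit 22) (.nd (nat_lit 8) (.nd (nat_lit 27) 
(.lf (nat_lit 537616391) (dlOf (nat_lit 1) (nat_lit 0x1200180d0001))) 
(.lf (nat_lit 2819317767) (dlOf (nat_lit 1) (nat_lit 0x8008000400200020008240283)))) 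
(.nd (nat_lit 10) (.lf (nat_lit 745735) (dlOf (nat_lit 1) (nat_lit 0xe0018013581))) 
(.lf (nat_lit 36398343) (dlOf (nat_lit 1) (nat_lit 0x20019072f81))))) (.nd (nat_lit 6) 
(.nd (nat_lit 20) 
(.lf (nat_lit 21716999) (dlOf (nat_lit 11) (nat_lit 0xc09d8005a40800584ec002d004000c2760016702004a14f000a28100070a780051008018053c0019e0400042760003f02000413b0001b81001409d8000600800784ec0002e040184002000c0008a60582))) 
(.lf (nat_lit 31154183) (dlOf (nat_lit 1) (nat_lit 0x80028e70001)))) 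
(.lf (nat_lit 50029639) (dlOf (nat_lit 1) (nat_lit 0x8008000c002000200094c2883)))))) 
(.nd (nat_lit 7) (.nd (nat_lit 21) (.nd (nat_lit 8) (.nd (nat_lit 19) 
(.lf (nat_lit 2755879431) (dlOf (nat_lit 1) (nat_lit 0x4002000200081b0d82))) 
(.lf (nat_lit 51077639) (dlOf (nat_lit 1) (nat_lit 0x80080004002000200094f7b03)))) 
(.lf (nat_lit 671311623) (dlOf (nat_lit 2) (nat_lit 0x420250002d018143b80)))) (.nd (nat_lit 6) 
(.lf (nat_lit 41116167) (dlOf (nat_lit 2) (nat_lit 0xc1780181c04000400200020009227b02))) 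
(.lf (nat_lit 23290439) (dlOf (nat_lit 1) (nat_lit 0x3c00200140008b81102))))) (.nd (nat_lit 6) 
(.nd (nat_lit 10) (.lf (nat_lit 1208183431) (dlOf (nat_lit 1) (nat_lit 0x400200020008095482))) 
(.lf (nat_lit 1610835591) (dlOf (nat_lit 1) (nat_lit 0x160008093a01)))) (.nd (nat_lit 11) 
(.nd (nat_lit 20) (.lf (nat_lit 8614599) (dlOf (nat_lit 1) (nat_lit 0x400200020008518c82))) 
(.lf (nat_lit 20148935) (dlOf (nat_lit 1) (nat_lit 0x4002000200089d8c82)))) 
(.lf (nat_lit 2818800327) (dlOf (nat_lit 2) (nat_lit 0x2c06c00989020002002812b981))))))) 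
(.nd (nat_lit 21) (.nd (nat_lit 6) (.nd (nat_lit 8) (.nd (nat_lit 22) 
(.lf (nat_lit 1678204935) (dlOf (nat_lit 2) (nat_lit 0xb4056003e88181a0000))) 
(.lf (nat_lit 13066247) (dlOf (nat_lit 1) (nat_lit 0x70004001e00086f0002)))) (.nd (nat_lit 9) 
(.lf (nat_lit 8877319) (dlOf (nat_lit 1) (nat_lit 0x8008000400200020008519603))) 
(.lf (nat_lit 485127) (dlOf (nat_lit 1) (nat_lit 0x10400200ba0008003b82))))) (.nd (nat_lit 10) 
(.nd (nat_lit 19) (.lf (nat_lit 21454919) (dlOf (nat_lit 1) (nat_lit 0x400400140018a40482))) 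
(.lf (nat_lit 13590599) (dlOf (nat_lit 1) (nat_lit 0x840008730c81)))) 
(.lf (nat_lit 488519) (dlOf (nat_lit 1) (nat_lit 0x6c0018009301))))) (.nd (nat_lit 6) 
(.nd (nat_lit 9) (.nd (nat_lit 19) 
(.lf (nat_lit 37183495) (dlOf (nat_lit 1) (nat_lit 0x50002001000090b0002))) 
(.lf (nat_lit 25124871) (dlOf (nat_lit 1) (nat_lit 0x40008011800200520008be0403)))) 
(.nd (nat_lit 7) (.nd (nat_lit 19) 
(.lf (nat_lit 58155527) (dlOf (nat_lit 1) (nat_lit 0x580080028002000200097c7b03))) 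
(.lf (nat_lit 24076807) (dlOf (nat_lit 5) (nat_lit 0x2e174002d20400230ba001680200078590007be18005981000361740003004010000400020018b80d82)))) 
(.lf (nat_lit 8349319) (dlOf (nat_lit 1) (nat_lit 0x40028513a01))))) (.nd (nat_lit 19) 
(.lf (nat_lit 36134983) (dlOf (nat_lit 1) (nat_lit 0xe0019030601))) (.nd (nat_lit 22) 
(.lf (nat_lit 20930631) (dlOf (nat_lit 1) (nat_lit 0x200189f0601))) 
(.lf (nat_lit 25124935) (dlOf (nat_lit 2) (nat_lit 0x26abc001722600039110001a038be1480))))))))) 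
(.nd (nat_lit 27) (.nd (nat_lit 31) (.nd (nat_lit 16) (.nd (nat_lit 29) (.nd (nat_lit 19) 
(.nd (nat_lit 9) (.nd (nat_lit 26) 
(.lf (nat_lit 4563820551) (dlOf (nat_lit 1) (nat_lit 0x140008002400200b800080f0583))) 
(.lf (nat_lit 1409703943) (dlOf (nat_lit 1) (nat_lit 0x400400020008080002)))) 
(.lf (nat_lit 5637301767) (dlOf (nat_lit 1) (nat_lit 0x200280d3681)))) (.nd (nat_lit 7) 
(.nd (nat_lit 21) 
(.lf (nat_lit 1342857223) (dlOf (nat_lit 3) (nat_lit 0x111680576c0800088b402acc040074004001a00080f0002))) 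
(.lf (nat_lit 1344954375) (dlOf (nat_lit 2) (nat_lit 0x3007c003860189a0000)))) 
(.lf (nat_lit 1346005383) (dlOf (nat_lit 2) (nat_lit 0x504b002a38080058008003800200100008e24e83))))) 
(.nd (nat_lit 6) (.nd (nat_lit 7) (.nd (nat_lit 10) 
(.lf (nat_lit 1946312711) (dlOf (nat_lit 1) (nat_lit 0x780028020001))) 
(.lf (nat_lit 1881302023) (dlOf (nat_lit 1) (nat_lit 0x240018e82881)))) 
(.lf (nat_lit 5100429447) (dlOf (nat_lit 1) (nat_lit 0x48008002800200260008080e03)))) 
(.nd (nat_lit 8) (.lf (nat_lit 1946574919) (dlOf (nat_lit 1) (nat_lit 0x4004000800180c1482))) 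
(.nd (nat_lit 9) 
(.lf (nat_lit 805465415) (dlOf (nat_lit 2) (nat_lit 0x58144000c074000030400020018116981))) 
(.lf (nat_lit 805468999) (dlOf (nat_lit 2) (nat_lit 0x6804c016060400080020004000811bc82))))))) 
(.nd (nat_lit 6) (.nd (nat_lit 11) (.nd (nat_lit 18) (.nd (nat_lit 26) 
(.lf (nat_lit 1342922759) (dlOf (nat_lit 1) (nat_lit 0xc80080050002004c0008110583))) 
(.lf (nat_lit 1410031623) (dlOf (nat_lit 1) (nat_lit 0x1200180d0001)))) 
(.lf (nat_lit 805789703) (dlOf (nat_lit 2) (nat_lit 0xb4056006a60181a0000)))) (.nd (nat_lit 7) 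
(.lf (nat_lit 805530887) (dlOf (nat_lit 1) (nat_lit 0x20008000800200040008116683))) 
(.lf (nat_lit 4630735495) (dlOf (nat_lit 2) (nat_lit 0x4801400052040028002000a0008095482))))) 
(.nd (nat_lit 8) (.nd (nat_lit 22) 
(.lf (nat_lit 1342398535) (dlOf (nat_lit 4) (nat_lit 0x344920003902000624900421140000dc1002309240006a040018004000e0008020882))) 
(.lf (nat_lit 1346592839) (dlOf (nat_lit 1) (nat_lit 0x100018fe0001)))) (.nd (nat_lit 7) 
(.lf (nat_lit 1946378567) (dlOf (nat_lit 1) (nat_lit 0x400400020008047f02))) 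
(.lf (nat_lit 1346595271) (dlOf (nat_lit 1) (nat_lit 0x8008004400200020008fe4e83))))))) 
(.nd (nat_lit 6) (.nd (nat_lit 16) (.nd (nat_lit 18) (.nd (nat_lit 29) (.nd (nat_lit 9) 
(.lf (nat_lit 3490865159) (dlOf (nat_lit 3) (nat_lit 0x1019c01afa0400240ce009b00200020028030001))) 
(.lf (nat_lit 3491914247) (dlOf (nat_lit 1) (nat_lit 0x320018090d81)))) (.nd (nat_lit 8) 
(.lf (nat_lit 4026687495) (dlOf (nat_lit 1) (nat_lit 0x40028030001))) 
(.lf (nat_lit 3020061959) (dlOf (nat_lit 1) (nat_lit 0x40040002000812c602))))) (.nd (nat_lit 7) 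
(.nd (nat_lit 10) 
(.lf (nat_lit 4026949639) (dlOf (nat_lit 2) (nat_lit 0x36000000000080080008005c002003e00080d0003))) 
(.lf (nat_lit 3492701191) (dlOf (nat_lit 1) (nat_lit 0x200180f2881)))) 
(.lf (nat_lit 3557712007) (dlOf (nat_lit 4) (nat_lit 0x1f8070001af02001a038000c501005c01c0006240800180080038002002a00082c0483))))) 
(.nd (nat_lit 7) (.nd (nat_lit 8) (.nd (nat_lit 10) 
(.lf (nat_lit 4095434759) (dlOf (nat_lit 2) (nat_lit 0x2580000000004002c002000800080b0582))) 
(.lf (nat_lit 3493028871) (dlOf (nat_lit 1) (nat_lit 0x200280f2881)))) 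
(.lf (nat_lit 3556994823) (dlOf (nat_lit 1) (nat_lit 0xa0018127481)))) (.nd (nat_lit 8) 
(.lf (nat_lit 2483249287) (dlOf (nat_lit 1) (nat_lit 0x69000802c400201a80008090103))) 
(.nd (nat_lit 29) 
(.lf (nat_lit 2416140679) (dlOf (nat_lit 1) (nat_lit 0x8008000800200020008090783))) 
(.lf (nat_lit 4026753415) (dlOf (nat_lit 1) (nat_lit 0x20008059800200e20008090783))))))) 
(.nd (nat_lit 11) (.nd (nat_lit 18) (.nd (nat_lit 19) 
(.lf (nat_lit 2416074823) (dlOf (nat_lit 1) (nat_lit 0xb20008030f01))) 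
(.lf (nat_lit 3492438087) (dlOf (nat_lit 1) (nat_lit 0x10400080d0c81)))) (.nd (nat_lit 9) 
(.nd (nat_lit 19) 
(.lf (nat_lit 4026949703) (dlOf (nat_lit 3) (nat_lit 0x6f00800006a040034046030e020000c00e806e002c0002e100104002006800080d0c82))) 
(.lf (nat_lit 3493748807) (dlOf (nat_lit 1) (nat_lit 0x600281b0001)))) 
(.lf (nat_lit 3490669127) (dlOf (nat_lit 1) (nat_lit 0x40008018801))))) (.nd (nat_lit 7) 
(.nd (nat_lit 9) (.nd (nat_lit 12) 
(.lf (nat_lit 3489819975) (dlOf (nat_lit 6) (nat_lit 0xe118000802240002208003846000240890000802001504480003c080088230004c1160000e04002208c0024045800034100098008000800200080008006983))) 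
(.lf (nat_lit 3489889607) (dlOf (nat_lit 2) (nat_lit 0x1170fd00137c08005000800280020046000800c903)))) 
(.lf (nat_lit 4094913351) (dlOf (nat_lit 1) (nat_lit 0x8008000800200020008055c03)))) 
(.nd (nat_lit 8) 
(.lf (nat_lit 3490147527) (dlOf (nat_lit 3) (nat_lit 0x220880001901001104400008c080060008001800200080008006383))) 
(.lf (nat_lit 4094585799) (dlOf (nat_lit 2) (nat_lit 0x280850000e818055d80)))))))) (.nd (nat_lit 6) 
(.nd (nat_lit 7) (.nd (nat_lit 19) (.nd (nat_lit 16) (.nd (nat_lit 26) 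
(.lf (nat_lit 4698038279) (dlOf (nat_lit 1) (nat_lit 0x140008002400200b800080f0583))) 
(.lf (nat_lit 5838888967) (dlOf (nat_lit 1) (nat_lit 0x54004006000081e0002)))) (.nd (nat_lit 8) 
(.nd (nat_lit 26) 
(.lf (nat_lit 939745287) (dlOf (nat_lit 1) (nat_lit 0x20008000c00200040008160003))) 
(.lf (nat_lit 3691208711) (dlOf (nat_lit 2) (nat_lit 0x198074000000401f8004000800080a0002)))) 
(.lf (nat_lit 1008951559) (dlOf (nat_lit 1) (nat_lit 0x20029000a81))))) (.nd (nat_lit 16) 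
(.nd (nat_lit 21) 
(.lf (nat_lit 470441991) (dlOf (nat_lit 3) (nat_lit 0x1116805ce40800088b402db2040074004001a00080f0002))) 
(.lf (nat_lit 472539143) (dlOf (nat_lit 1) (nat_lit 0x400189b0001)))) (.nd (nat_lit 9) 
(.nd (nat_lit 21) 
(.lf (nat_lit 470507527) (dlOf (nat_lit 1) (nat_lit 0xc80080050002004c0008110583))) 
(.lf (nat_lit 472604679) (dlOf (nat_lit 2) (nat_lit 0x5a07c0065c8189c0000)))) 
(.lf (nat_lit 473653767) (dlOf (nat_lit 13) (nat_lit 0x282d800ba402001e16c005cf0100060b6002cf80800285b00163604002c2d800b0b02000c11800050000029e01000b8000014e804004400000a66020048000004d40100090000026600800605b00130804002c000000000200360018f87b01)))))) 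
(.nd (nat_lit 8) (.nd (nat_lit 10) (.nd (nat_lit 9) (.nd (nat_lit 16) 
(.lf (nat_lit 6308388999) (dlOf (nat_lit 1) (nat_lit 0x18008000400200040008070e03))) 
(.lf (nat_lit 1007640711) (dlOf (nat_lit 1) (nat_lit 0x200186b0481)))) 
(.lf (nat_lit 6376876679) (dlOf (nat_lit 1) (nat_lit 0x20008000800200040008095483)))) 
(.nd (nat_lit 11) 
(.lf (nat_lit 1008690311) (dlOf (nat_lit 1) (nat_lit 0x8008000400200020008f52b03))) 
(.lf (nat_lit 3624103047) (dlOf (nat_lit 1) (nat_lit 0x8002000e0008146182))))) (.nd (nat_lit 16) 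
(.nd (nat_lit 18) (.nd (nat_lit 29) 
(.lf (nat_lit 469918087) (dlOf (nat_lit 1) (nat_lit 0x680008015b81))) 
(.lf (nat_lit 4228014471) (dlOf (nat_lit 1) (nat_lit 0x20028015c01)))) 
(.lf (nat_lit 5772304775) (dlOf (nat_lit 2) (nat_lit 0xf098800580080038008000800200040008091003)))) 
(.nd (nat_lit 11) 
(.lf (nat_lit 2550358407) (dlOf (nat_lit 1) (nat_lit 0x8008000800200020008090783))) 
(.lf (nat_lit 1008691591) (dlOf (nat_lit 1) (nat_lit 0xe000080da8002037e0008f54e83))))))) 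
(.nd (nat_lit 26) (.nd (nat_lit 8) (.nd (nat_lit 29) (.nd (nat_lit 10) (.nd (nat_lit 30) 
(.lf (nat_lit 2550292551) (dlOf (nat_lit 1) (nat_lit 0xb20008030f01))) 
(.lf (nat_lit 1476550727) (dlOf (nat_lit 1) (nat_lit 0x8008001000200500008050603)))) 
(.lf (nat_lit 5772305479) (dlOf (nat_lit 1) (nat_lit 0x80080150002004a0008092883)))) 
(.nd (nat_lit 7) 
(.lf (nat_lit 2013421639) (dlOf (nat_lit 1) (nat_lit 0xb28008027400200ea0008071303))) 
(.lf (nat_lit 2013421767) (dlOf (nat_lit 1) (nat_lit 0x80028075901))))) (.nd (nat_lit 7) 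
(.nd (nat_lit 10) (.lf (nat_lit 3624296775) (dlOf (nat_lit 1) (nat_lit 0x400400020008154c02))) 
(.lf (nat_lit 3624103239) (dlOf (nat_lit 1) (nat_lit 0x20018146981)))) (.nd (nat_lit 10) 
(.lf (nat_lit 5772304839) (dlOf (nat_lit 1) (nat_lit 0xf0008000800200240008091103))) 
(.lf (nat_lit 3624103367) (dlOf (nat_lit 1) (nat_lit 0x8002000a0008146d02)))))) (.nd (nat_lit 16) 
(.nd (nat_lit 7) (.nd (nat_lit 18) (.nd (nat_lit 8) 
(.lf (nat_lit 1008361543) (dlOf (nat_lit 1) (nat_lit 0x400400ac0018b70602))) 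
(.lf (nat_lit 4228014407) (dlOf (nat_lit 2) (nat_lit 0xb80960049e0200060028014c01)))) 
(.nd (nat_lit 9) (.lf (nat_lit 472278087) (dlOf (nat_lit 1) (nat_lit 0x4000200020008982882))) 
(.lf (nat_lit 472279623) (dlOf (nat_lit 1) (nat_lit 0x18008000800200020008985203))))) 
(.nd (nat_lit 8) 
(.lf (nat_lit 1543662791) (dlOf (nat_lit 4) (nat_lit 0x100180003302001801300090060000c810000804c00046040008002001c0008146382))) 
(.nd (nat_lit 10) (.lf (nat_lit 3154278855) (dlOf (nat_lit 1) (nat_lit 0x2001815b001))) 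
(.lf (nat_lit 1543663047) (dlOf (nat_lit 1) (nat_lit 0xc0008146d01)))))) (.nd (nat_lit 18) 
(.nd (nat_lit 7) (.nd (nat_lit 19) 
(.lf (nat_lit 469983303) (dlOf (nat_lit 4) (nat_lit 0x344920003902000624900421140000dc1002309240006a040018004000e0008020882))) 
(.lf (nat_lit 472604743) (dlOf (nat_lit 3) (nat_lit 0x100118005700800700000011c040010002005400089c0602)))) 
(.lf (nat_lit 1543728583) (dlOf (nat_lit 1) (nat_lit 0x240028146d01)))) (.nd (nat_lit 19) 
(.nd (nat_lit 21) (.lf (nat_lit 4228341831) (dlOf (nat_lit 1) (nat_lit 0x1e0028090001))) 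
(.lf (nat_lit 1009213511) (dlOf (nat_lit 2) (nat_lit 0x1e0e3000a38190a0600)))) 
(.lf (nat_lit 473915463) (dlOf (nat_lit 2) (nat_lit 0xc08b000ad018fc0600))))))))))) 
(.nd (nat_lit 2) (.nd (nat_lit 16) (.nd (nat_lit 28) (.nd (nat_lit 18) (.nd (nat_lit 21) 
(.nd (nat_lit 30) (.nd (nat_lit 29) (.nd (nat_lit 7) (.nd (nat_lit 20) (.nd (nat_lit 23) 
(.lf (nat_lit 2281857059) (dlOf (nat_lit 5) (nat_lit 0x60140003809c002804c0005e0600200260002e8100060140003809c002c04c0005b060008028000201380050098000b40c002400400040008080502))) 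
(.lf (nat_lit 25321507) (dlOf (nat_lit 1) (nat_lit 0xc00200020008bf0902)))) 
(.lf (nat_lit 47341603) (dlOf (nat_lit 4) (nat_lit 0xd5e680052ed8003167c0002706000ebcd00035db000098100012f34000976c0002504000200193d0881)))) 
(.nd (nat_lit 9) (.nd (nat_lit 11) 
(.lf (nat_lit 9592995) (dlOf (nat_lit 1) (nat_lit 0x100028571381))) 
(.lf (nat_lit 157859) (dlOf (nat_lit 1) (nat_lit 0x800400020018004882)))) 
(.lf (nat_lit 42101411) (dlOf (nat_lit 1) (nat_lit 0x400400020009245602))))) (.nd (nat_lit 26) 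
(.nd (nat_lit 7) (.lf (nat_lit 2684510243) (dlOf (nat_lit 1) (nat_lit 0xc00400160008080502))) 
(.lf (nat_lit 4831994019) (dlOf (nat_lit 1) (nat_lit 0x40028081401)))) (.nd (nat_lit 6) 
(.nd (nat_lit 8) 
(.lf (nat_lit 604135459) (dlOf (nat_lit 9) (nat_lit 0x6a01f800780780004008012007e0001f02008603f0000f01005101f8000740802b00fc0003804012007e000150200a003f0000781001501f80003808003000800dc00200260008030183))) 
(.lf (nat_lit 2885837091) (dlOf (nat_lit 2) (nat_lit 0xec0000002202000200280b0501)))) 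
(.lf (nat_lit 604135523) (dlOf (nat_lit 16) (nat_lit 0x1d80d80034204003407e00340360004e02001c01b000100000012c08004c07e00400360004682000f01c800c00d80011808005006c000850200560360001b81003501b0000b80800b00d8000540400b806c0002302005a0360000e01002e01b0000680801580d80002a0400ac06c0000f0200da03600000018030d00)))))) 
(.nd (nat_lit 26) (.nd (nat_lit 8) (.nd (nat_lit 9) (.nd (nat_lit 27) 
(.lf (nat_lit 3221905443) (dlOf (nat_lit 3) (nat_lit 0x3008c002190200940460010a0181b0480))) 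
(.lf (nat_lit 3892994083) (dlOf (nat_lit 1) (nat_lit 0x680080044002002c00082c0603)))) 
(.lf (nat_lit 1610769955) (dlOf (nat_lit 2) (nat_lit 0x50150000f0080018008001400200060008093703)))) 
(.nd (nat_lit 6) (.nd (nat_lit 9) 
(.lf (nat_lit 3758258595) (dlOf (nat_lit 1) (nat_lit 0x40040002000812af82))) 
(.lf (nat_lit 3758256035) (dlOf (nat_lit 1) (nat_lit 0x8008001800200020008127883)))) 
(.lf (nat_lit 3892475747) (dlOf (nat_lit 1) (nat_lit 0x2001815a301))))) (.nd (nat_lit 19) 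
(.nd (nat_lit 7) (.nd (nat_lit 27) 
(.lf (nat_lit 3288490019) (dlOf (nat_lit 2) (nat_lit 0x7406c0002c0200020018030981))) 
(.lf (nat_lit 3422707747) (dlOf (nat_lit 7) (nat_lit 0x2c00e00100000001c81000d003800500000006f04000e00e0003000000094100040038002000000021040004000000100100060070000700800f0008000c00200060008060503)))) 
(.lf (nat_lit 5972846755) (dlOf (nat_lit 1) (nat_lit 0xe0018144881)))) (.nd (nat_lit 27) 
(.lf (nat_lit 1678401571) (dlOf (nat_lit 1) (nat_lit 0x40028210481))) 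
(.lf (nat_lit 3960102947) (dlOf (nat_lit 3) (nat_lit 0x3008c0021c0200940460010b8181b0480))))))) 
(.nd (nat_lit 19) (.nd (nat_lit 7) (.nd (nat_lit 20) (.nd (nat_lit 22) 
(.lf (nat_lit 27418659) (dlOf (nat_lit 1) (nat_lit 0x8008000400200020008ce0583))) 
(.lf (nat_lit 56778787) (dlOf (nat_lit 2) (nat_lit 0xf132e000450200020009750181)))) 
(.nd (nat_lit 6) 
(.lf (nat_lit 11690531) (dlOf (nat_lit 3) (nat_lit 0x2718c023b7ac0014d040003c63000a50186c0d80))) 
(.lf (nat_lit 3301731) (dlOf (nat_lit 2) (nat_lit 0x4768c0006804001c00200140008200702))))) 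
(.nd (nat_lit 20) (.nd (nat_lit 10) 
(.lf (nat_lit 44196003) (dlOf (nat_lit 1) (nat_lit 0x34002001000092d1382))) 
(.lf (nat_lit 48391331) (dlOf (nat_lit 2) (nat_lit 0x101d040050e120005f0400080019402c01)))) 
(.nd (nat_lit 6) (.lf (nat_lit 36858531) (dlOf (nat_lit 1) (nat_lit 0x20019075601))) 
(.lf (nat_lit 3301603) (dlOf (nat_lit 2) (nat_lit 0x1f65a0008e0200080028200481)))))) 
(.nd (nat_lit 20) (.nd (nat_lit 7) (.nd (nat_lit 23) (.nd (nat_lit 26) 
(.lf (nat_lit 2777123) (dlOf (nat_lit 1) (nat_lit 0x200181b0b01))) 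
(.lf (nat_lit 2754240547) (dlOf (nat_lit 14) (nat_lit 0x501a4002b4040c140d206100640320022016480900034032001580a060e0690309032019101100b08048001570806440690325032019181100b480480015408005e044000a981033f03481a081900d4c08804e0024000a904007a034803d019001300880014206004c069000f03200120110002820c06c40d2036006400020120004f41803781a401b40c8010a0440009d03005303480298190002700801cc088001370200a00690007032004381100026a0c0070004002a00180d0902)))) 
(.lf (nat_lit 27942947) (dlOf (nat_lit 1) (nat_lit 0x60018d40581)))) 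
(.lf (nat_lit 36332707) (dlOf (nat_lit 1) (nat_lit 0x20029072c01)))) (.nd (nat_lit 22) 
(.lf (nat_lit 45768739) (dlOf (nat_lit 6) (nat_lit 0x100000002301000c3d380010c08045e7dc02480000004204001a7a70001f0100020000000f0080028008000c00200020009360183))) 
(.lf (nat_lit 24797219) (dlOf (nat_lit 2) (nat_lit 0x4bb7000459f800080100058008005400200360008bb0883))))))) 
(.nd (nat_lit 19) (.nd (nat_lit 23) (.nd (nat_lit 31) (.nd (nat_lit 22) (.nd (nat_lit 6) 
(.nd (nat_lit 26) (.lf (nat_lit 537288739) (dlOf (nat_lit 1) (nat_lit 0x200028080801))) 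
(.lf (nat_lit 4496711715) (dlOf (nat_lit 4) (nat_lit 0x98064000560200160320002a8100020110000440807f8008010800201060008140b83)))) 
(.lf (nat_lit 33972323) (dlOf (nat_lit 1) (nat_lit 0x400400380008f90902)))) (.nd (nat_lit 6) 
(.nd (nat_lit 7) (.lf (nat_lit 24535075) (dlOf (nat_lit 1) (nat_lit 0x25800402340008ba0a02))) 
(.lf (nat_lit 21389731) (dlOf (nat_lit 1) (nat_lit 0x400200020008a36b82)))) 
(.lf (nat_lit 54943843) (dlOf (nat_lit 1) (nat_lit 0x300080020002000a0009670d83))))) 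
(.nd (nat_lit 26) (.nd (nat_lit 27) (.nd (nat_lit 29) 
(.lf (nat_lit 6442868771) (dlOf (nat_lit 5) (nat_lit 0x501a0000980800500d00004804001c05c00060100000302001501a000000080220008013c002002a00081e0783))) 
(.lf (nat_lit 3758514211) (dlOf (nat_lit 1) (nat_lit 0x1400400020008240682)))) 
(.lf (nat_lit 2818990115) (dlOf (nat_lit 3) (nat_lit 0x88043003c00e00009810001810c01ec038000250400020028140601)))) 
(.nd (nat_lit 6) 
(.lf (nat_lit 3288752163) (dlOf (nat_lit 9) (nat_lit 0x22020000d70100d400f0042802401480060015c06020e01e00fe004800564100018000002a004000c0120014402000201e000a101001000f0004e00801700900044040000000401bc00080d0901))) 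
(.lf (nat_lit 3959840867) (dlOf (nat_lit 1) (nat_lit 0x8008000400200020008170003)))))) 
(.nd (nat_lit 20) (.nd (nat_lit 8) 
(.lf (nat_lit 48652323) (dlOf (nat_lit 7) (nat_lit 0x4cea00094c680011810009b3a80008a040049bec0030d8900086a6000733500055986000430a009cdf600556c48024b5f40125ae80092d6b00496ac0030b5300125a760092d2f00496938024b3cc01259c0009acd400506618024b24401258fe0092c2400054d80024a630014d2e20010000000211500036748001b2d000313160003f0600c2df6005f6c4803235f40191ae800c8d6b00636a60033b4ec0191a5e00c8d270064679801033a8011d9c000c2cd4004d661804932d8010d92200cac7f0039625003326c0012131800c8971002b0000000f8b00040008010800200bc0009420183))) 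
(.lf (nat_lit 8811811) (dlOf (nat_lit 1) (nat_lit 0x80080cdc002023a0008519783)))) (.nd (nat_lit 21) 
(.nd (nat_lit 24) (.lf (nat_lit 9855011) (dlOf (nat_lit 1) (nat_lit 0x2400400020008580182))) 
(.lf (nat_lit 26632227) (dlOf (nat_lit 2) (nat_lit 0x7723a0000b0200020018c50181)))) 
(.lf (nat_lit 11952163) (dlOf (nat_lit 3) (nat_lit 0x418e2a007cd02020c715003e58186c0000)))))) 
(.nd (nat_lit 24) (.nd (nat_lit 7) (.nd (nat_lit 8) (.nd (nat_lit 22) 
(.lf (nat_lit 9330723) (dlOf (nat_lit 1) (nat_lit 0x400400020008540802))) 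
(.lf (nat_lit 13525027) (dlOf (nat_lit 1) (nat_lit 0x1800200040008730902)))) 
(.lf (nat_lit 537813283) (dlOf (nat_lit 1) (nat_lit 0x30004000600081b0502)))) (.nd (nat_lit 6) 
(.nd (nat_lit 10) 
(.lf (nat_lit 2819514531) (dlOf (nat_lit 3) (nat_lit 0xbf01b0004740807000d8001f0040078002003000082c0482))) 
(.lf (nat_lit 69100707) (dlOf (nat_lit 2) (nat_lit 0x41aa0005f02000e00088a2c01)))) 
(.lf (nat_lit 8286947) (dlOf (nat_lit 1) (nat_lit 0x8008000400200040008518c83))))) (.nd (nat_lit 6) 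
(.nd (nat_lit 21) (.nd (nat_lit 7) 
(.lf (nat_lit 59662371) (dlOf (nat_lit 1) (nat_lit 0x100029820181))) 
(.lf (nat_lit 51274915) (dlOf (nat_lit 1) (nat_lit 0x800400020009512c02)))) (.nd (nat_lit 23) 
(.lf (nat_lit 53370915) (dlOf (nat_lit 1) (nat_lit 0x4004000200095b0182))) 
(.lf (nat_lit 28205091) (dlOf (nat_lit 1) (nat_lit 0x400200020008d70682))))) (.nd (nat_lit 8) 
(.nd (nat_lit 9) (.lf (nat_lit 18767971) (dlOf (nat_lit 1) (nat_lit 0x400400020008970482))) 
(.lf (nat_lit 61761123) (dlOf (nat_lit 1) (nat_lit 0x220019923901)))) 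
(.lf (nat_lit 19818851) (dlOf (nat_lit 1) (nat_lit 0x4002000200089d4e82)))))))) (.nd (nat_lit 31) 
(.nd (nat_lit 32) (.nd (nat_lit 19) (.nd (nat_lit 6) (.nd (nat_lit 7) (.nd (nat_lit 8) 
(.nd (nat_lit 27) 
(.lf (nat_lit 268591139) (dlOf (nat_lit 3) (nat_lit 0x8e0130001381000f00f000028080048008001400200100008090183))) 
(.lf (nat_lit 1476550691) (dlOf (nat_lit 11) (nat_lit 0x405800024020184045001201f80108074006c0000002008007c0450000f81001a022800078080528114004403a000801c0000e8300a6022801f807400040000001c0600060450000d8100210228000540802e0114000c03a00100000000783003f0228000380800b0008006c00200560008050183)))) 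
(.lf (nat_lit 1342333219) (dlOf (nat_lit 1) (nat_lit 0x20028014301)))) (.nd (nat_lit 9) 
(.lf (nat_lit 1880253603) (dlOf (nat_lit 1) (nat_lit 0x14c00200060008802c02))) 
(.lf (nat_lit 1344432803) (dlOf (nat_lit 1) (nat_lit 0x200087a5601))))) (.nd (nat_lit 7) 
(.nd (nat_lit 9) (.lf (nat_lit 1476550755) (dlOf (nat_lit 1) (nat_lit 0x660008050d01))) 
(.lf (nat_lit 1881565795) (dlOf (nat_lit 1) (nat_lit 0x20018f65381)))) 
(.lf (nat_lit 1344693219) (dlOf (nat_lit 1) (nat_lit 0x18008001800200040008982883))))) 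
(.nd (nat_lit 26) (.nd (nat_lit 6) (.nd (nat_lit 21) 
(.lf (nat_lit 805986339) (dlOf (nat_lit 1) (nat_lit 0x40028210481))) 
(.lf (nat_lit 1344954403) (dlOf (nat_lit 3) (nat_lit 0x300fa007407c0001382001003e000098080008008018000200a800089a0183)))) 
(.lf (nat_lit 1344954467) (dlOf (nat_lit 4) (nat_lit 0x6e03a8000cc08030850c00a427200c40cd002203a803681cc0005a1401d028600e413b007909c803c0334008819601b207500b30398000ac3802700080290002004400089a0903)))) 
(.nd (nat_lit 6) (.nd (nat_lit 8) 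
(.lf (nat_lit 470442019) (dlOf (nat_lit 8) (nat_lit 0x1617300010010003120800187ac000340800084820001802000624100030f580005c1000185cc0002a04000446200005020004247000d11e0000101000300080008002001600080f0783))) 
(.lf (nat_lit 1410228515) (dlOf (nat_lit 1) (nat_lit 0x30004000600081b0502)))) 
(.lf (nat_lit 1409966179) (dlOf (nat_lit 5) (nat_lit 0xba03a006281ac01100a400ea01200a000000009828021016c005007e01040230001003004a02d800b814401f80460016020005800880007428005016c00980a2001403f000d01180005c2003480080104002005400080a1383)))))) 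
(.nd (nat_lit 6) (.nd (nat_lit 27) (.nd (nat_lit 7) (.nd (nat_lit 18) 
(.lf (nat_lit 4630667299) (dlOf (nat_lit 1) (nat_lit 0xe0008001000200440008040183))) 
(.lf (nat_lit 4563820579) (dlOf (nat_lit 5) (nat_lit 0x120310002881020f0160001000804600b00007e0400200620003702006000080f0b81)))) 
(.nd (nat_lit 8) 
(.lf (nat_lit 5100429475) (dlOf (nat_lit 1) (nat_lit 0x78008000400200260008081383))) 
(.lf (nat_lit 5637301667) (dlOf (nat_lit 1) (nat_lit 0x5800280d3601))))) (.nd (nat_lit 19) 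
(.nd (nat_lit 18) 
(.lf (nat_lit 4764885027) (dlOf (nat_lit 1) (nat_lit 0xe0008001000200440008040183))) 
(.lf (nat_lit 4698038307) (dlOf (nat_lit 5) (nat_lit 0x120310002881020f0160001000804600b00007e0400200620003702006000080f0b81)))) 
(.nd (nat_lit 26) (.lf (nat_lit 5772042275) (dlOf (nat_lit 1) (nat_lit 0x20018050881))) 
(.lf (nat_lit 6376022051) (dlOf (nat_lit 1) (nat_lit 0x20018050881)))))) (.nd (nat_lit 7) 
(.nd (nat_lit 10) 
(.lf (nat_lit 5773617507) (dlOf (nat_lit 1) (nat_lit 0x3800080004002018c00080e4e83))) 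
(.lf (nat_lit 5773616483) (dlOf (nat_lit 1) (nat_lit 0x80080004002000200080e3403)))) 
(.nd (nat_lit 8) (.lf (nat_lit 5637301475) (dlOf (nat_lit 1) (nat_lit 0x4002000200080d2e02))) 
(.nd (nat_lit 18) (.lf (nat_lit 5773617635) (dlOf (nat_lit 1) (nat_lit 0x4004000200080e4e82))) 
(.lf (nat_lit 6376286691) (dlOf (nat_lit 1) (nat_lit 0x4800803ec00200c40008094e83)))))))) 
(.nd (nat_lit 6) (.nd (nat_lit 29) (.nd (nat_lit 8) (.nd (nat_lit 7) (.nd (nat_lit 18) 
(.lf (nat_lit 3492438051) (dlOf (nat_lit 14) (nat_lit 0x501a4002be040c140d2061006403200220164809000340320015d0a060e0690309032019101100b080480015c0806440690325032019181100b480480015908005e044000ac01033f03481a081900d4c08804e0024000ab84007a034803d019001300880014206004c069000f03200120110002820c06c40d2036006400020120004f41803781a401b40c8010a0440009d03005303480298190002700801cc088001370200a00690007032004381100026a0c0070004002a00180d0902))) 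
(.lf (nat_lit 3557187619) (dlOf (nat_lit 2) (nat_lit 0x408c000a01c00014028140600)))) 
(.lf (nat_lit 2416340643) (dlOf (nat_lit 1) (nat_lit 0xa00280f7201)))) (.nd (nat_lit 7) 
(.nd (nat_lit 10) 
(.lf (nat_lit 3624034595) (dlOf (nat_lit 2) (nat_lit 0xec0000002202000200280b0501))) 
(.lf (nat_lit 3489819939) (dlOf (nat_lit 1) (nat_lit 0x7400400200008006802)))) 
(.lf (nat_lit 3490603427) (dlOf (nat_lit 1) (nat_lit 0x20018016b81))))) (.nd (nat_lit 26) 
(.nd (nat_lit 18) (.nd (nat_lit 27) 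
(.lf (nat_lit 4026687523) (dlOf (nat_lit 2) (nat_lit 0x7406c0002c0200020018030981))) 
(.lf (nat_lit 4160905251) (dlOf (nat_lit 6) (nat_lit 0x280500008c04000c02800043020012014000e009000980140007e0c00140280003602001e01400150020000d0100018008009800200040008060503)))) 
(.lf (nat_lit 4026949667) (dlOf (nat_lit 9) (nat_lit 0x22020001248100d400f0042802401480060015706020e01e00fe004800550100018000002a004000c0120014402000201e000a101001000f0004e00801700900044040000000401bc00080d0901)))) 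
(.nd (nat_lit 7) 
(.lf (nat_lit 3154796579) (dlOf (nat_lit 6) (nat_lit 0xa01200048088000803a004e016000e00a0007b428001815000040a200060330001011000700580058028001eb0c0004051000401200020088003d40c001009e0002024000101100048074003a4100018048000601d000e8828330a80))) 
(.nd (nat_lit 9) (.lf (nat_lit 3154278819) (dlOf (nat_lit 1) (nat_lit 0x40040002000815af82))) 
(.lf (nat_lit 3154276259) (dlOf (nat_lit 1) (nat_lit 0x400200020008157882))))))) (.nd (nat_lit 27) 
(.nd (nat_lit 7) (.nd (nat_lit 8) (.nd (nat_lit 18) 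
(.lf (nat_lit 2952945763) (dlOf (nat_lit 5) (nat_lit 0x308028000fa0401a00140007c0200cc00a0003a8100650050001cc080228008003800200040008030d03))) 
(.lf (nat_lit 4095107171) (dlOf (nat_lit 1) (nat_lit 0x400400020008061982)))) 
(.lf (nat_lit 3489823587) (dlOf (nat_lit 1) (nat_lit 0x10002800bc81)))) (.nd (nat_lit 8) 
(.lf (nat_lit 3020059363) (dlOf (nat_lit 1) (nat_lit 0x60018128c81))) 
(.lf (nat_lit 3489819107) (dlOf (nat_lit 1) (nat_lit 0x68008003400200020008004e83))))) 
(.nd (nat_lit 7) (.nd (nat_lit 8) (.nd (nat_lit 18) 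
(.lf (nat_lit 3691143267) (dlOf (nat_lit 8) (nat_lit 0x52405a0007d02029c02d0003e0100230168001ec0802280b4000f404052005a0007502004802d0003a0101480168001cc080078008002000200120008050d03))) 
(.lf (nat_lit 4228276323) (dlOf (nat_lit 1) (nat_lit 0x40018090001)))) 
(.lf (nat_lit 3624296803) (dlOf (nat_lit 2) (nat_lit 0x13404100258018154f00)))) (.nd (nat_lit 8) 
(.lf (nat_lit 3154279139) (dlOf (nat_lit 1) (nat_lit 0x2001815b981))) 
(.lf (nat_lit 4228014563) (dlOf (nat_lit 4) (nat_lit 0x900a8000cc0401a8054000410200b402a0001f818017300))))))))) 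
(.nd (nat_lit 18) (.nd (nat_lit 28) (.nd (nat_lit 6) (.nd (nat_lit 26) (.nd (nat_lit 21) 
(.nd (nat_lit 24) (.nd (nat_lit 9) (.nd (nat_lit 19) 
(.lf (nat_lit 134438947) (dlOf (nat_lit 1) (nat_lit 0x800400020008020482))) 
(.lf (nat_lit 537616419) (dlOf (nat_lit 6) (nat_lit 0x10017c002b00400480be0015702005205f000aa01000802f80054808000809000284040078004005000180d0902)))) 
(.lf (nat_lit 2818801187) (dlOf (nat_lit 2) (nat_lit 0x500f0000a0080010008002c0020050000812cf83)))) 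
(.nd (nat_lit 20) (.nd (nat_lit 22) 
(.lf (nat_lit 25387043) (dlOf (nat_lit 1) (nat_lit 0xa0018c00481))) 
(.lf (nat_lit 21192739) (dlOf (nat_lit 1) (nat_lit 0x18008000800200060008a20583)))) 
(.lf (nat_lit 18047011) (dlOf (nat_lit 1) (nat_lit 0xc002000e0008900a82))))) (.nd (nat_lit 19) 
(.nd (nat_lit 22) (.nd (nat_lit 23) 
(.lf (nat_lit 52650019) (dlOf (nat_lit 2) (nat_lit 0x1752000938c00000008004800400120009560702))) 
(.lf (nat_lit 44261411) (dlOf (nat_lit 3) (nat_lit 0xa4c5e00286140002b0200113178002985000022080008004003800192e0182)))) 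
(.lf (nat_lit 14901283) (dlOf (nat_lit 3) (nat_lit 0x593140003a04003498a0001c0200020008790181)))) 
(.nd (nat_lit 7) (.nd (nat_lit 8) 
(.lf (nat_lit 2842659) (dlOf (nat_lit 2) (nat_lit 0x150b8000a838003cc080004004002000081c0902))) 
(.lf (nat_lit 54225699) (dlOf (nat_lit 2) (nat_lit 0xc2628007cc080188008002000200280009655c03)))) 
(.nd (nat_lit 8) (.lf (nat_lit 36398243) (dlOf (nat_lit 1) (nat_lit 0x4002004e0009072c02))) 
(.lf (nat_lit 48982435) (dlOf (nat_lit 1) (nat_lit 0x20019464e81))))))) (.nd (nat_lit 29) 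
(.nd (nat_lit 27) (.nd (nat_lit 7) 
(.lf (nat_lit 3288556067) (dlOf (nat_lit 1) (nat_lit 0x8400401340008090d82))) 
(.lf (nat_lit 68378787) (dlOf (nat_lit 1) (nat_lit 0x520018570481)))) (.nd (nat_lit 10) 
(.nd (nat_lit 32) (.lf (nat_lit 201547811) (dlOf (nat_lit 2) (nat_lit 0x604100593818020480))) 
(.lf (nat_lit 4496515107) (dlOf (nat_lit 4) (nat_lit 0x980340005602001601a0002a8100020050000440807f80080108002010600080b0b83)))) 
(.lf (nat_lit 202075171) (dlOf (nat_lit 1) (nat_lit 0x1200280f6081))))) (.nd (nat_lit 19) 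
(.nd (nat_lit 8) 
(.lf (nat_lit 604200995) (dlOf (nat_lit 24) (nat_lit 0x3a04000fe01d802f00e80034070001a037002300c8006804800080000018f10012403b000801c0005d81000680f00015a040080078003c0390005482009401e004280e40015008024407800d60390005382008a01e004700e40014c080318078000a40200da03c0005181005501e002200e400142080768084054603c033c01c800c00d8001401000a80780009f02012203c008201c8002781004280f001580720009d0400be03c0000881000301e0000400800500f00001a0402280780000b02002003c0000281000a01e00000c0802e80f001280720000204007603c001401c8000041004480ec00000040e6800400aa0018080602))) 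
(.lf (nat_lit 3825426723) (dlOf (nat_lit 1) (nat_lit 0x400400020008154302)))) (.nd (nat_lit 20) 
(.lf (nat_lit 2754306083) (dlOf (nat_lit 3) (nat_lit 0x40448005500800902240026a040004002000200080d0902))) 
(.lf (nat_lit 2753257507) (dlOf (nat_lit 3) (nat_lit 0x4250007cd0200041b5003e5818090000))))))) 
(.nd (nat_lit 23) (.nd (nat_lit 7) (.nd (nat_lit 9) (.nd (nat_lit 11) 
(.lf (nat_lit 22241379) (dlOf (nat_lit 1) (nat_lit 0x8008000400200020008ab1d03))) 
(.lf (nat_lit 227427) (dlOf (nat_lit 3) (nat_lit 0x1ac17000b53f0005a9b40027c0c003182e0014a7e000a5368004d01800480080018002000a000800a803)))) 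
(.lf (nat_lit 54225507) (dlOf (nat_lit 2) (nat_lit 0x894c000c4940001d829655380)))) (.nd (nat_lit 8) 
(.nd (nat_lit 9) (.lf (nat_lit 3367139) (dlOf (nat_lit 2) (nat_lit 0x74a220008e02000a0018200481))) 
(.lf (nat_lit 2818798307) (dlOf (nat_lit 1) (nat_lit 0x4c00400140008128c82)))) (.nd (nat_lit 9) 
(.lf (nat_lit 2818801123) (dlOf (nat_lit 1) (nat_lit 0x10008002c0020050000812cd03))) 
(.lf (nat_lit 2818797539) (dlOf (nat_lit 1) (nat_lit 0x18008001400200120008127a83)))))) 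
(.nd (nat_lit 24) (.nd (nat_lit 8) (.nd (nat_lit 11) 
(.lf (nat_lit 44261475) (dlOf (nat_lit 1) (nat_lit 0x2200092e0781))) 
(.lf (nat_lit 8616035) (dlOf (nat_lit 1) (nat_lit 0x3800800180020002000851a803)))) 
(.lf (nat_lit 13853027) (dlOf (nat_lit 2) (nat_lit 0x63400000965c0000008001400400020008750902)))) 
(.nd (nat_lit 9) (.nd (nat_lit 19) 
(.lf (nat_lit 26435683) (dlOf (nat_lit 1) (nat_lit 0x400400020018c50d02))) 
(.lf (nat_lit 25911395) (dlOf (nat_lit 1) (nat_lit 0x20028c10281)))) 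
(.lf (nat_lit 61564515) (dlOf (nat_lit 2) (nat_lit 0x1b3800006404000400200020009923902))))))) 
(.nd (nat_lit 26) (.nd (nat_lit 8) (.nd (nat_lit 29) (.nd (nat_lit 19) (.nd (nat_lit 27) 
(.lf (nat_lit 1342398499) (dlOf (nat_lit 2) (nat_lit 0x7a09400281018020480))) 
(.lf (nat_lit 1476616227) (dlOf (nat_lit 2) (nat_lit 0x1e4042014301e00a580e4001400c0330004000a00080a0602)))) 
(.nd (nat_lit 31) 
(.lf (nat_lit 1345019939) (dlOf (nat_lit 2) (nat_lit 0x3202f400026040010002000e00089d0702))) 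
(.lf (nat_lit 3492503587) (dlOf (nat_lit 3) (nat_lit 0x40460005640800902300026a040004002000200080d0902))))) 
(.nd (nat_lit 7) (.nd (nat_lit 9) 
(.lf (nat_lit 2953011235) (dlOf (nat_lit 32) (nat_lit 0x15701400a58078022003a00c001c009d00d8030006403e40300eb20150380009000c803803340160348004013a001808e80040e34000000b71e009201c008e00d804080540020006000b60809d001c052e00d81f78064104000805f00030005a85004f00e0002d008072807004b4036003c0190005983008900e0059806c029c02a00560030005904006e00e0058006c005c03204c201500970018002c42803b8070001600400f0038000af020120014000568101d300a001f004403e0000000a90605a80140010008810f8000001500c0cd4028006201102c400000029c1801b80500014c040438028000a4020640014000a00900048000001420c1450028045e01202b00088018804009b4016000a00a05c40140004f8102a300a001200000013c080b9c028001601200bf008803a803406340000009d0a00fa01c00c300d813080540060028005e0030000685005d00e0056806c071c02a00ae0030000584001000e000d006c00014080200038018c01b00f200a800b000c00010100020038000060200fc01c008200d800b80540000a0c00e4038010401b01f000a802000100120006000040a006a01c0000181005c00e0016806c002402a00b00140000104002700e0014806c008c02a0000106018a01c010300d81330054014000800900030158000000000302098008000400201280008080603)))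 
(.lf (nat_lit 4026753571) (dlOf (nat_lit 1) (nat_lit 0x3000401340008090d82)))) 
(.lf (nat_lit 805531299) (dlOf (nat_lit 1) (nat_lit 0x20028117201))))) (.nd (nat_lit 6) 
(.nd (nat_lit 7) (.nd (nat_lit 10) 
(.lf (nat_lit 3494076707) (dlOf (nat_lit 1) (nat_lit 0x200181b0501))) 
(.lf (nat_lit 3624103203) (dlOf (nat_lit 1) (nat_lit 0x8002000a0008146802)))) 
(.lf (nat_lit 3489889699) (dlOf (nat_lit 9) (nat_lit 0x3fb0fe00bc07ec03082ca0007606077c1fc0003a8103ef0fe0001c4081a707f0000e0040d603f8000620206ae1fc000308100090fe800f05780005a080fac3f800121e700b10b28000001804a800800140020044000800cb03)))) 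
(.nd (nat_lit 7) (.nd (nat_lit 10) 
(.lf (nat_lit 3624102243) (dlOf (nat_lit 1) (nat_lit 0xb20008144e81))) 
(.lf (nat_lit 3489889635) (dlOf (nat_lit 2) (nat_lit 0xac1fc002d0fd8019f0100030008000c002000e000800c903)))) 
(.lf (nat_lit 3489885667) (dlOf (nat_lit 2) (nat_lit 0x3050fe0000f4080188008007400200940008006e03)))))) 
(.nd (nat_lit 27) (.nd (nat_lit 7) (.nd (nat_lit 21) 
(.lf (nat_lit 1410031651) (dlOf (nat_lit 6) (nat_lit 0x10017c002ba0400480be0015c02005205f000ac81000802f80055c08000809000284040078004005000180d0902))) 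
(.lf (nat_lit 4096483363) (dlOf (nat_lit 1) (nat_lit 0x20018120181)))) (.nd (nat_lit 6) 
(.lf (nat_lit 3556996515) (dlOf (nat_lit 1) (nat_lit 0x28008003000200580008129903))) 
(.lf (nat_lit 5704474851) (dlOf (nat_lit 1) (nat_lit 0x200280b6481))))) (.nd (nat_lit 21) 
(.nd (nat_lit 19) 
(.lf (nat_lit 3691208739) (dlOf (nat_lit 32) (nat_lit 0x83a01d0007381027e00e8003980800100740f6803804b001a029a0020127000c0174002000e50c00d401d000720101c600e80038c080848074001c404079c03a000e102030001d0007001011700e80037c080358074001bc040018036000ad02000a0000005301003600000029408097000000148040064000000a30200160000005081002d017004b00b4051c030029001701a700a80c7804c06280240368011012a008008780340628016014400100a3000000280680d480000013c0406980000009d02006401b000088101da00e800034080600074000160409c403a0000a02050a01d0000401017c00e80001c0813080740000a04090403a0000402014001d0000181011300e800008080dc807400002040a0803a00000020fa200280a0601))) 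
(.lf (nat_lit 3154862115) (dlOf (nat_lit 4) (nat_lit 0x58056000ff0200040180006681000500c000310080010008002c00200120008350603)))) 
(.nd (nat_lit 6) 
(.lf (nat_lit 472604707) (dlOf (nat_lit 7) (nat_lit 0x17a0b000890270068811a011008c01ca03e811381f000a8056000270e02b016000ea04e00b48234001c118035207d021903e003080ac0004c1c03402c0008208d010503e808c01f00004a1004b023e0001f0201b211f0000f0100820b00005023404b00fa026c07c000401580004828026000801fc002000200089c0183))) 
(.lf (nat_lit 472604771) (dlOf (nat_lit 3) (nat_lit 0x90ab0001850c002419a0012096000a042800481d4000c0e60002c0e0036156000e0a180218334008412c0046085002603a801301cc000541c01e8004008c00189c0902)))))))) 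
(.nd (nat_lit 19) (.nd (nat_lit 26) (.nd (nat_lit 7) (.nd (nat_lit 22) (.nd (nat_lit 6) 
(.nd (nat_lit 20) (.nd (nat_lit 21) 
(.lf (nat_lit 1611096099) (dlOf (nat_lit 2) (nat_lit 0x1c0ae0001602000200180e0881))) 
(.lf (nat_lit 36134947) (dlOf (nat_lit 1) (nat_lit 0x40019030181)))) 
(.lf (nat_lit 18309155) (dlOf (nat_lit 1) (nat_lit 0xc0018920601)))) 
(.lf (nat_lit 488547) (dlOf (nat_lit 1) (nat_lit 0x20018009401)))) (.nd (nat_lit 24) 
(.lf (nat_lit 3494338595) (dlOf (nat_lit 12) (nat_lit 0x710240000ac0800303bc00f81da00b404c000a00900007c2000303bc017009800180120000f03006c0340054810801880520062023003000f0000382801f0108003c052001e023000f00f0000342000881a00001804008c0d00000b02011e06800060328013818c009808e019a042007a0148024808c012003c004e01700005090017034002a00a40094046004601e00004840059025000180000000c08004c0d0004804a003e021000880b0003c03c000000a00d20018200b81))) 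
(.lf (nat_lit 21454883) (dlOf (nat_lit 3) (nat_lit 0x3aeb88014f344001b92200529b600023040019e6880b680000008a0802f400200200008a40182))))) 
(.nd (nat_lit 6) (.nd (nat_lit 10) 
(.lf (nat_lit 805789859) (dlOf (nat_lit 3) (nat_lit 0x640ac001320200c8056002d00980048c1001880080018002000600081a0203))) 
(.lf (nat_lit 32990371) (dlOf (nat_lit 1) (nat_lit 0x400400020008f52c02)))) 
(.lf (nat_lit 485347) (dlOf (nat_lit 1) (nat_lit 0x400200020008004582))))) (.nd (nat_lit 27) 
(.nd (nat_lit 6) (.nd (nat_lit 7) (.nd (nat_lit 22) 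
(.lf (nat_lit 4362559523) (dlOf (nat_lit 3) (nat_lit 0x2b019801f340800e00cc00f9604001400200020008090002))) 
(.lf (nat_lit 2756141091) (dlOf (nat_lit 12) (nat_lit 0x710240000ac0800303bc00f81da00b404c000a00900007c2000303bc017009800180120000f03006c0340054810801880520062023003000f0000382801f0108003c052001e023000f00f0000342000881a00001804008c0d00000b02011e06800060328013818c009808e019a042007a0148024808c012003c004e01700005090017034002a00a40094046004601e00004840059025000180000000c08004c0d0004804a003e021000880b0003c03c000000a00d20018200b81)))) 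
(.lf (nat_lit 1678205091) (dlOf (nat_lit 3) (nat_lit 0x640ac0013f0200c8056002d0098004c81001880080018002000600081a0203)))) 
(.lf (nat_lit 604464483) (dlOf (nat_lit 2) (nat_lit 0xc03d000601a000600a80018040000c00c000600480038000000681c0038004000200082d3402)))) 
(.nd (nat_lit 28) (.nd (nat_lit 7) (.nd (nat_lit 30) 
(.lf (nat_lit 738680867) (dlOf (nat_lit 2) (nat_lit 0x1c0ae0002902000200180e0881))) 
(.lf (nat_lit 3959906339) (dlOf (nat_lit 3) (nat_lit 0x7d811803dc08a01d804300b0021001f3420077811803d408a01d404300b0021001f2c20025000800cc00200160008170003)))) 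
(.lf (nat_lit 3959906723) (dlOf (nat_lit 3) (nat_lit 0x2045007188100010228038c0080030008006400200120008170783)))) 
(.nd (nat_lit 29) 
(.lf (nat_lit 470245411) (dlOf (nat_lit 2) (nat_lit 0x87b800543a40002a04000200180b0801))) 
(.lf (nat_lit 4228341795) (dlOf (nat_lit 1) (nat_lit 0xe0028090001))))))) (.nd (nat_lit 21) 
(.nd (nat_lit 28) (.nd (nat_lit 20) (.nd (nat_lit 23) 
(.lf (nat_lit 1007651) (dlOf (nat_lit 3) (nat_lit 0x480000004c0400640000002502001c0018050c01))) 
(.lf (nat_lit 59727907) (dlOf (nat_lit 1) (nat_lit 0x28004000e0009820182)))) (.nd (nat_lit 8) 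
(.lf (nat_lit 10444835) (dlOf (nat_lit 1) (nat_lit 0x800285e0c01))) 
(.lf (nat_lit 2056483) (dlOf (nat_lit 2) (nat_lit 0x2a9f80006804000400400640008150502))))) 
(.nd (nat_lit 6) (.nd (nat_lit 26) 
(.lf (nat_lit 1343184931) (dlOf (nat_lit 3) (nat_lit 0xa0ae0000800800585700003a04004c00400020008190182))) 
(.lf (nat_lit 470769699) (dlOf (nat_lit 1) (nat_lit 0x60028170181)))) (.nd (nat_lit 7) 
(.nd (nat_lit 26) (.lf (nat_lit 1343184995) (dlOf (nat_lit 1) (nat_lit 0x20018190d01))) 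
(.lf (nat_lit 470769763) (dlOf (nat_lit 1) (nat_lit 0x2400400020008170d02)))) 
(.lf (nat_lit 3490669027) (dlOf (nat_lit 6) (nat_lit 0xc0f30000880800087980004004002c3cc0001e02000c1e60000e81000c0f3000070080038008006c00200660008017303)))))) 
(.nd (nat_lit 6) (.nd (nat_lit 11) (.nd (nat_lit 7) 
(.lf (nat_lit 15687715) (dlOf (nat_lit 2) (nat_lit 0x4935c0003a04001800400420018820582))) 
(.lf (nat_lit 19887779) (dlOf (nat_lit 1) (nat_lit 0x4004000200189d9f82)))) (.nd (nat_lit 23) 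
(.lf (nat_lit 36661923) (dlOf (nat_lit 1) (nat_lit 0x8008000800200020009075603))) 
(.lf (nat_lit 45050531) (dlOf (nat_lit 1) (nat_lit 0x40009325601))))) (.nd (nat_lit 7) 
(.nd (nat_lit 12) (.lf (nat_lit 12542051) (dlOf (nat_lit 1) (nat_lit 0x400286d1281))) 
(.lf (nat_lit 19886179) (dlOf (nat_lit 1) (nat_lit 0x4002000200089d7d82)))) (.nd (nat_lit 8) 
(.lf (nat_lit 19888867) (dlOf (nat_lit 1) (nat_lit 0xc002000200089db982))) 
(.lf (nat_lit 8348643) (dlOf (nat_lit 1) (nat_lit 0x400400020008512882)))))))))) (.nd (nat_lit 16) 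
(.nd (nat_lit 18) (.nd (nat_lit 28) (.nd (nat_lit 6) (.nd (nat_lit 29) (.nd (nat_lit 20) 
(.nd (nat_lit 26) (.nd (nat_lit 11) (.nd (nat_lit 21) 
(.lf (nat_lit 3221905447) (dlOf (nat_lit 2) (nat_lit 0x5fe056019e0088001c81002380080014002005600081b0503))) 
(.nd (nat_lit 24) 
(.lf (nat_lit 11165735) (dlOf (nat_lit 2) (nat_lit 0x100000014c080008008001800200060008660603))) 
(.lf (nat_lit 27942951) (dlOf (nat_lit 1) (nat_lit 0x100018d40681))))) (.nd (nat_lit 7) 
(.lf (nat_lit 58878503) (dlOf (nat_lit 1) (nat_lit 0x200297e5181))) 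
(.lf (nat_lit 134380711) (dlOf (nat_lit 1) (nat_lit 0x180020006000800c202))))) (.nd (nat_lit 27) 
(.nd (nat_lit 7) 
(.lf (nat_lit 67264551) (dlOf (nat_lit 3) (nat_lit 0x18022002c0000002602003d000000100080010008002000200020008090603))) 
(.lf (nat_lit 4362232231) (dlOf (nat_lit 4) (nat_lit 0xa0198012b80800280cc007e4040018066003d70200380008016e81)))) 
(.nd (nat_lit 30) 
(.lf (nat_lit 6643933223) (dlOf (nat_lit 3) (nat_lit 0x1c0000001701000801a800480d000100000000006002c0008090601))) 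
(.lf (nat_lit 3422707751) (dlOf (nat_lit 1) (nat_lit 0x40028060601)))))) (.nd (nat_lit 21) 
(.nd (nat_lit 19) (.nd (nat_lit 23) 
(.lf (nat_lit 22175783) (dlOf (nat_lit 1) (nat_lit 0x40008aa0e01))) 
(.lf (nat_lit 47341607) (dlOf (nat_lit 2) (nat_lit 0x6acf800040040018002001a00093d0a82)))) 
(.lf (nat_lit 22700071) (dlOf (nat_lit 6) (nat_lit 0x4b7d40029bd80008d4b00076698000942000437d40011bd8001ad4b000966980009020001b7d4000dbd80012d4b000866980008c2000437d40019bd80006d4b00076698000882000100000001e04005c00400020018b10802)))) 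
(.nd (nat_lit 9) (.lf (nat_lit 3301415) (dlOf (nat_lit 1) (nat_lit 0x24000200f80008200002))) 
(.lf (nat_lit 11690535) (dlOf (nat_lit 1) (nat_lit 0x10004001000086c0e02)))))) (.nd (nat_lit 27) 
(.nd (nat_lit 7) (.nd (nat_lit 26) 
(.lf (nat_lit 2684510247) (dlOf (nat_lit 2) (nat_lit 0x602200000018080600))) 
(.lf (nat_lit 604135463) (dlOf (nat_lit 3) (nat_lit 0x201f8000c40800580fc0005a04003000200460008030282)))) 
(.nd (nat_lit 8) 
(.lf (nat_lit 3758256807) (dlOf (nat_lit 1) (nat_lit 0x7e0008000400201060008128c83))) 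
(.lf (nat_lit 3758258599) (dlOf (nat_lit 1) (nat_lit 0x4001812af81))))) (.nd (nat_lit 19) 
(.nd (nat_lit 30) (.lf (nat_lit 4966211623) (dlOf (nat_lit 1) (nat_lit 0x400400040018050982))) 
(.lf (nat_lit 6039953447) (dlOf (nat_lit 2) (nat_lit 0x201a800b80c00000008000400400020008070602)))) 
(.lf (nat_lit 3960102951) (dlOf (nat_lit 2) (nat_lit 0x5fe056019e0088001c81002380080014002005600081b0503)))))) 
(.nd (nat_lit 29) (.nd (nat_lit 11) (.nd (nat_lit 20) (.nd (nat_lit 7) 
(.lf (nat_lit 42623079) (dlOf (nat_lit 1) (nat_lit 0x10400200d40009260982))) 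
(.lf (nat_lit 44196071) (dlOf (nat_lit 1) (nat_lit 0x200292d1b81)))) (.nd (nat_lit 8) 
(.lf (nat_lit 45768807) (dlOf (nat_lit 6) (nat_lit 0x83f30002b01000500000011408001000000088040354000000420200087af00251f980138000000260c002c002000a0009360982))) 
(.lf (nat_lit 12214631) (dlOf (nat_lit 1) (nat_lit 0x1600186c0701))))) (.nd (nat_lit 9) 
(.lf (nat_lit 157799) (dlOf (nat_lit 1) (nat_lit 0x40028004701))) (.nd (nat_lit 19) 
(.lf (nat_lit 2147641959) (dlOf (nat_lit 1) (nat_lit 0x8008000c00200100008095383))) 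
(.lf (nat_lit 20605543) (dlOf (nat_lit 1) (nat_lit 0x8004000600089d5382)))))) (.nd (nat_lit 8) 
(.nd (nat_lit 7) (.lf (nat_lit 3758257255) (dlOf (nat_lit 1) (nat_lit 0x4a0008129401))) 
(.nd (nat_lit 10) (.lf (nat_lit 671246567) (dlOf (nat_lit 1) (nat_lit 0x2000200060008144b02))) 
(.lf (nat_lit 3892477159) (dlOf (nat_lit 1) (nat_lit 0x8001815c601))))) (.nd (nat_lit 9) 
(.nd (nat_lit 10) 
(.lf (nat_lit 2885837159) (dlOf (nat_lit 4) (nat_lit 0x25c0220181810004cc06c048a02d0179012000c808000bc00a0602000000148800bc02201688100011806c049602d0134012000300140c24000000270e008e036000128180b0700))) 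
(.lf (nat_lit 1611294055) (dlOf (nat_lit 1) (nat_lit 0x20028123481)))) 
(.lf (nat_lit 3892475751) (dlOf (nat_lit 1) (nat_lit 0x2001815a301))))))) (.nd (nat_lit 26) 
(.nd (nat_lit 27) (.nd (nat_lit 6) (.nd (nat_lit 30) (.nd (nat_lit 29) 
(.lf (nat_lit 4563558439) (dlOf (nat_lit 1) (nat_lit 0x540028090001))) 
(.lf (nat_lit 2952945703) (dlOf (nat_lit 5) (nat_lit 0x538028000620402a00140003002014e00a000168100a70050000ac08000800800a0002001a0008030283)))) 
(.nd (nat_lit 8) (.nd (nat_lit 19) 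
(.lf (nat_lit 1343381543) (dlOf (nat_lit 1) (nat_lit 0x40018210701))) 
(.lf (nat_lit 1342857255) (dlOf (nat_lit 1) (nat_lit 0x18004000a00080f0982)))) 
(.lf (nat_lit 3489819943) (dlOf (nat_lit 1) (nat_lit 0x8008000400200020008006803))))) 
(.nd (nat_lit 7) (.nd (nat_lit 19) 
(.lf (nat_lit 2952945767) (dlOf (nat_lit 5) (nat_lit 0x3a0050001f4080228028000f804011c0140007502001000a00039818030d00))) 
(.lf (nat_lit 1344954471) (dlOf (nat_lit 3) (nat_lit 0x9214d003206c8015036001880fa01b607c000070500a703e0000000801d0008012c002005600089a0983)))) 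
(.lf (nat_lit 1342333415) (dlOf (nat_lit 2) (nat_lit 0x61c500017818017300))))) (.nd (nat_lit 29) 
(.nd (nat_lit 6) (.nd (nat_lit 30) 
(.lf (nat_lit 4697776167) (dlOf (nat_lit 1) (nat_lit 0x540028090001))) 
(.lf (nat_lit 1476550695) (dlOf (nat_lit 4) (nat_lit 0x101140006204000c08a0003002001204500015818050280)))) 
(.lf (nat_lit 3624034663) (dlOf (nat_lit 4) (nat_lit 0x25c0228181810004cc06c048a02d0179012000c808000bc00a0602000000148800bc02281688100011806c049602d0134012000300140c24000000270e008e036000128180b0700)))) 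
(.nd (nat_lit 7) 
(.lf (nat_lit 4160905255) (dlOf (nat_lit 2) (nat_lit 0x3d801401670090000cc100280008049400201360008060603))) 
(.lf (nat_lit 6308389031) (dlOf (nat_lit 1) (nat_lit 0x20018071381)))))) (.nd (nat_lit 29) 
(.nd (nat_lit 19) (.nd (nat_lit 6) (.nd (nat_lit 8) 
(.lf (nat_lit 3691143207) (dlOf (nat_lit 5) (nat_lit 0x58005a000310202c002d0001801015f0168000b4080af80b40005604001c00400020008050282))) 
(.lf (nat_lit 469917991) (dlOf (nat_lit 1) (nat_lit 0x20028014601)))) (.nd (nat_lit 7) 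
(.lf (nat_lit 3691143271) (dlOf (nat_lit 5) (nat_lit 0x330168001f40801900b4000f80400cc05a0007502006402d00039818050d00))) 
(.lf (nat_lit 5704409319) (dlOf (nat_lit 1) (nat_lit 0x400400020008071d82))))) (.nd (nat_lit 9) 
(.nd (nat_lit 21) (.lf (nat_lit 470442023) (dlOf (nat_lit 1) (nat_lit 0x18004000a00080f0982))) 
(.lf (nat_lit 472539175) (dlOf (nat_lit 11) (nat_lit 0x440800081a100060b400028514001019e004c01700016860012102000b068400602d0000216600160a2800b033c00e002e0002c0e00e6169003c06380358060000540c00380300002902000c018000038100040b4801100600000c0807402d2026016802bf0a2803f033c0c700300080017000020600830b4804b851402f00300000306001e018000010100041020004068400202d0000e1450007067800e805c00000180154004024600089b0782)))) 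
(.lf (nat_lit 473588263) (dlOf (nat_lit 3) (nat_lit 0x2423200141180003402000608c800198080210008002c00200040008f68803))))) 
(.nd (nat_lit 7) (.nd (nat_lit 8) (.nd (nat_lit 10) 
(.lf (nat_lit 4095893543) (dlOf (nat_lit 1) (nat_lit 0x400180e0001))) 
(.lf (nat_lit 3020059687) (dlOf (nat_lit 1) (nat_lit 0x400400020008129202)))) 
(.lf (nat_lit 2080531751) (dlOf (nat_lit 1) (nat_lit 0x400200020008093182)))) (.nd (nat_lit 6) 
(.lf (nat_lit 3020059303) (dlOf (nat_lit 1) (nat_lit 0x7b8008000400201080008128c83))) 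
(.nd (nat_lit 8) (.lf (nat_lit 3020061927) (dlOf (nat_lit 1) (nat_lit 0x200020004000812c602))) 
(.lf (nat_lit 4228014567) (dlOf (nat_lit 7) (nat_lit 0x5a809e051e042021801500058088000d21005cc09e04ca042022001500038088000cc10058c09e050404201f501500030088000881002e4054000410202d604f026c021010f00a800400440004008021c04f0076015000090100140008009c00201b20008017303))))))))) 
(.nd (nat_lit 6) (.nd (nat_lit 20) (.nd (nat_lit 27) (.nd (nat_lit 7) (.nd (nat_lit 19) 
(.nd (nat_lit 21) 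
(.lf (nat_lit 3557187623) (dlOf (nat_lit 2) (nat_lit 0x580000001d0200180008140881))) 
(.lf (nat_lit 61235239) (dlOf (nat_lit 1) (nat_lit 0x180080004002000800098f0783)))) 
(.lf (nat_lit 47079463) (dlOf (nat_lit 1) (nat_lit 0x12c004001c00093a0302)))) (.nd (nat_lit 8) 
(.lf (nat_lit 19821223) (dlOf (nat_lit 1) (nat_lit 0x4002000200089d8c82))) (.nd (nat_lit 11) 
(.lf (nat_lit 69624231) (dlOf (nat_lit 1) (nat_lit 0x4c0008b76e81))) 
(.lf (nat_lit 2754505127) (dlOf (nat_lit 1) (nat_lit 0x10002000200080f4e82)))))) (.nd (nat_lit 9) 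
(.nd (nat_lit 29) (.nd (nat_lit 26) 
(.lf (nat_lit 3355861031) (dlOf (nat_lit 1) (nat_lit 0x280080010002001a0008130603))) 
(.lf (nat_lit 4496711719) (dlOf (nat_lit 2) (nat_lit 0x1d4046000000200020008140c01)))) 
(.nd (nat_lit 7) (.lf (nat_lit 3154534439) (dlOf (nat_lit 1) (nat_lit 0x400400060018200782))) 
(.lf (nat_lit 738615463) (dlOf (nat_lit 1) (nat_lit 0x80080040002000200080c1483))))) 
(.nd (nat_lit 11) (.nd (nat_lit 26) 
(.lf (nat_lit 134636071) (dlOf (nat_lit 1) (nat_lit 0xe0018090e01))) 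
(.lf (nat_lit 201744935) (dlOf (nat_lit 1) (nat_lit 0xe0018090e01)))) 
(.lf (nat_lit 472279591) (dlOf (nat_lit 3) (nat_lit 0x214d000460100020a6800102700011608000800200040008985182)))))) 
(.nd (nat_lit 21) (.nd (nat_lit 22) (.nd (nat_lit 28) (.nd (nat_lit 19) 
(.lf (nat_lit 2752929831) (dlOf (nat_lit 26) (nat_lit 0x20208740e1c42a000550408aa21d0002a0104a010e80014c0801d08a4114443a06ae2150002903032110e800144082270874000a00412d443a056e215000278200010000001040802188740007e04022443a01bc2150001e82022010e8000e00802d88a40ec042a0003704009c229034610a8000d81001408a40b0442a000350400b6229035a10a8000d01000d88540006604002442a000310201d62150001801010e104800080080048824000340410a043a006c1d10000282013910e800010080b40874000060402b043a000020200b6229041f10e8165885401cc3b8000000800040028060581))) 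
(.lf (nat_lit 10379303) (dlOf (nat_lit 1) (nat_lit 0x80080004002000200085d0583)))) 
(.nd (nat_lit 29) 
(.lf (nat_lit 3491127335) (dlOf (nat_lit 26) (nat_lit 0x20208200e1c400000550408aa2080002a0104a010400014c0801d0850114441006ae20000029030321104000144082270820000a00412d4410056e200000278200010000001040802188200007e04022441001bc2000001e8202201040000e00802d88500ec04000003704009c21403461000000d81001408500b04400000350400b6214035a1000000d01000d880000066040024400000310201d62000001801010e0fa0000800800487d0000340410a0410006c1bf00002820139104000010080b40820000060402b0410000020200b6214041f1040165880001cc374000000800040028060581))) 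
(.lf (nat_lit 1880514599) (dlOf (nat_lit 2) (nat_lit 0xc9071805f838800008080034004002000189d0782))))) 
(.nd (nat_lit 25) 
(.lf (nat_lit 22437927) (dlOf (nat_lit 6) (nat_lit 0x1c73800154080303858000540400194fc00022020016a6d0000e81001a536800068080010008000800200100008ae0583))) 
(.lf (nat_lit 55992359) (dlOf (nat_lit 1) (nat_lit 0x10008000400200040009700783))))) 
(.nd (nat_lit 7) (.nd (nat_lit 8) 
(.lf (nat_lit 37117991) (dlOf (nat_lit 1) (nat_lit 0x8004000600090a0782))) 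
(.lf (nat_lit 11952423) (dlOf (nat_lit 1) (nat_lit 0x4002000200086c0502)))) 
(.lf (nat_lit 20346279) (dlOf (nat_lit 1) (nat_lit 0xc004000200089d9902)))))) (.nd (nat_lit 19) 
(.nd (nat_lit 27) (.nd (nat_lit 8) (.nd (nat_lit 10) (.nd (nat_lit 24) 
(.lf (nat_lit 1346789479) (dlOf (nat_lit 23) (nat_lit 0x68859c01ac2ae010c0c500d100d80015820010859c000a60401ec2860004a0201fc156010a0a180058258000900c040c2ac021e143000b04b00011c1801f050c0008c0403ec2ac020e143000506280058258000881004642ac0248143000b04b00010c1800b859808302ac03fa14301e009d00fa8330009812c03d808400a103a0001084006e0558035828600041040104156007e0a180010010063055802442860003f04009815600460a18000f810021055800902860003d04022e156010d0a180308330000780c03b82ac01c81430001d82004f0ab0024050c00080e60003806022e156010d0a18000dc1001c8558000680403a42ac01c0143000198200330ab0013850c0002e0803ac2ce01d80c500ec00d80004c1803f80080008002019a0009000983))) 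
(.lf (nat_lit 54943847) (dlOf (nat_lit 1) (nat_lit 0x48008005000200160009670d83)))) 
(.lf (nat_lit 38167655) (dlOf (nat_lit 1) (nat_lit 0x400200020009132982)))) (.nd (nat_lit 11) 
(.nd (nat_lit 20) 
(.lf (nat_lit 25583975) (dlOf (nat_lit 2) (nat_lit 0x22f280007c04000400400060008c10982))) 
(.lf (nat_lit 3563879) (dlOf (nat_lit 1) (nat_lit 0x400200020008200702)))) 
(.lf (nat_lit 1344694631) (dlOf (nat_lit 1) (nat_lit 0xc0028984e81))))) (.nd (nat_lit 7) 
(.nd (nat_lit 8) (.lf (nat_lit 6376811111) (dlOf (nat_lit 1) (nat_lit 0x1e0028095381))) 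
(.lf (nat_lit 2886099303) (dlOf (nat_lit 2) (nat_lit 0x13404100522818155200)))) (.nd (nat_lit 26) 
(.nd (nat_lit 28) (.lf (nat_lit 134636007) (dlOf (nat_lit 1) (nat_lit 0x520018090c81))) 
(.lf (nat_lit 3624296935) (dlOf (nat_lit 7) (nat_lit 0x87406e03500350025005011480000005e10089406e0380035001d005011680000005a10047c06e0002b0202560370001501008401b8000a00802780dc0004c040134002011e0008157302)))) 
(.lf (nat_lit 201744871) (dlOf (nat_lit 1) (nat_lit 0x520018090c81)))))) (.nd (nat_lit 28) 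
(.nd (nat_lit 8) (.nd (nat_lit 10) 
(.lf (nat_lit 52322407) (dlOf (nat_lit 1) (nat_lit 0x1800200060009521982))) 
(.lf (nat_lit 34497639) (dlOf (nat_lit 1) (nat_lit 0xc0008fb2981)))) (.nd (nat_lit 20) 
(.lf (nat_lit 537813351) (dlOf (nat_lit 2) (nat_lit 0x4c40000003302004e00181b0701))) 
(.lf (nat_lit 1991015) (dlOf (nat_lit 1) (nat_lit 0x20018150701))))) (.nd (nat_lit 27) 
(.nd (nat_lit 20) 
(.lf (nat_lit 1410228583) (dlOf (nat_lit 2) (nat_lit 0x4c40000003302004e00181b0701))) 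
(.lf (nat_lit 1344168295) (dlOf (nat_lit 1) (nat_lit 0xd0004005a0008490702)))) (.nd (nat_lit 8) 
(.lf (nat_lit 473849959) (dlOf (nat_lit 1) (nat_lit 0xa0018fb1981))) 
(.lf (nat_lit 471753063) (dlOf (nat_lit 1) (nat_lit 0xd0004005a0008490702))))))))) 
(.nd (nat_lit 28) (.nd (nat_lit 18) (.nd (nat_lit 19) (.nd (nat_lit 6) (.nd (nat_lit 26) 
(.nd (nat_lit 9) (.nd (nat_lit 21) 
(.lf (nat_lit 37969959) (dlOf (nat_lit 1) (nat_lit 0x400290f0201))) 
(.lf (nat_lit 52650023) (dlOf (nat_lit 11) (nat_lit 0x40ea500257188010b3a8008d96c0002d080058ea5002d718802db3a800b996c0002c080004e310001581007b752803338c402b19d40002a060008e3100003810006752800bb8c40000c0800a9d4a072ce3103c967500d4b2d80c40000000040a01e2e31014c675006d8000000060c0005c620000202003cea5001d7188010b2d8000000c009c002002e0009560782)))) 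
(.nd (nat_lit 20) 
(.lf (nat_lit 1745054247) (dlOf (nat_lit 2) (nat_lit 0x100f8003cc04000400200020008095182))) 
(.lf (nat_lit 55798311) (dlOf (nat_lit 1) (nat_lit 0x200096d5181))))) (.nd (nat_lit 29) 
(.nd (nat_lit 9) 
(.lf (nat_lit 4496515111) (dlOf (nat_lit 2) (nat_lit 0x1d40160000002000200080b0c01))) 
(.lf (nat_lit 3288556071) (dlOf (nat_lit 2) (nat_lit 0x1a01b000b00d00000008000800200100008090e02)))) 
(.nd (nat_lit 11) (.lf (nat_lit 4899168295) (dlOf (nat_lit 1) (nat_lit 0x400280c0481))) 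
(.lf (nat_lit 1677944871) (dlOf (nat_lit 1) (nat_lit 0xc0018114701)))))) (.nd (nat_lit 7) 
(.nd (nat_lit 8) (.nd (nat_lit 29) 
(.lf (nat_lit 1208183399) (dlOf (nat_lit 1) (nat_lit 0x400200020008095382))) 
(.lf (nat_lit 4966279783) (dlOf (nat_lit 1) (nat_lit 0x400400080018095382)))) 
(.lf (nat_lit 2318695) (dlOf (nat_lit 1) (nat_lit 0x400200020008150702)))) (.nd (nat_lit 8) 
(.nd (nat_lit 11) 
(.lf (nat_lit 62087399) (dlOf (nat_lit 1) (nat_lit 0x40008000400200020009951b83))) 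
(.lf (nat_lit 3959646439) (dlOf (nat_lit 1) (nat_lit 0x400200020008114b02)))) (.nd (nat_lit 21) 
(.lf (nat_lit 3825426919) (dlOf (nat_lit 9) (nat_lit 0x4d401602ee00901860000000bc1809c802c05ec0120326000000168300380058000ac0801b002c000540401100160002802007400b000130100120058000280800f002c0000a04006800400700008157302))) 
(.lf (nat_lit 23290343) (dlOf (nat_lit 1) (nat_lit 0x27800200bc0008b80c82))))))) (.nd (nat_lit 7) 
(.nd (nat_lit 6) (.nd (nat_lit 20) (.nd (nat_lit 21) 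
(.lf (nat_lit 21717031) (dlOf (nat_lit 2) (nat_lit 0xe09c800883a40025e08005000400900008a60c02))) 
(.lf (nat_lit 11231271) (dlOf (nat_lit 1) (nat_lit 0x80018670601)))) 
(.lf (nat_lit 22765607) (dlOf (nat_lit 2) (nat_lit 0x53a2000470200040018b20601)))) 
(.nd (nat_lit 10) 
(.lf (nat_lit 45834343) (dlOf (nat_lit 3) (nat_lit 0x199f4000ac0401b4cfa000130200020019360981))) 
(.lf (nat_lit 34301031) (dlOf (nat_lit 1) (nat_lit 0x400200020008fb2982))))) (.nd (nat_lit 20) 
(.nd (nat_lit 6) (.nd (nat_lit 8) 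
(.lf (nat_lit 4362828967) (dlOf (nat_lit 1) (nat_lit 0x40020002000811c202))) 
(.lf (nat_lit 48982439) (dlOf (nat_lit 1) (nat_lit 0x20019464e81)))) 
(.lf (nat_lit 55272423) (dlOf (nat_lit 1) (nat_lit 0x8004000200196d2882)))) (.nd (nat_lit 8) 
(.lf (nat_lit 8090279) (dlOf (nat_lit 1) (nat_lit 0x8008000400200020008518c83))) (.nd (nat_lit 21) 
(.lf (nat_lit 2753257895) (dlOf (nat_lit 3) (nat_lit 0x787d4019d404000c3f000cb60200300018090781))) 
(.lf (nat_lit 8085927) (dlOf (nat_lit 1) (nat_lit 0x400200020008511002)))))))) (.nd (nat_lit 19) 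
(.nd (nat_lit 8) (.nd (nat_lit 29) (.nd (nat_lit 23) (.nd (nat_lit 26) 
(.lf (nat_lit 134701095) (dlOf (nat_lit 1) (nat_lit 0x280028090001))) 
(.lf (nat_lit 6510043175) (dlOf (nat_lit 2) (nat_lit 0x202600013818190e00)))) (.nd (nat_lit 6) 
(.nd (nat_lit 20) (.lf (nat_lit 46620711) (dlOf (nat_lit 1) (nat_lit 0x100029380001))) 
(.lf (nat_lit 9920551) (dlOf (nat_lit 3) (nat_lit 0x4d1480001808001e8a40000204001400400120008590982)))) 
(.lf (nat_lit 42426471) (dlOf (nat_lit 1) (nat_lit 0x200019251981))))) (.nd (nat_lit 30) 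
(.nd (nat_lit 7) (.lf (nat_lit 738680871) (dlOf (nat_lit 2) (nat_lit 0x40570000b8180e0a80))) 
(.lf (nat_lit 537354407) (dlOf (nat_lit 1) (nat_lit 0x400400020008090282)))) (.nd (nat_lit 32) 
(.lf (nat_lit 1611096103) (dlOf (nat_lit 2) (nat_lit 0x8057000058180e0980))) 
(.lf (nat_lit 5906063399) (dlOf (nat_lit 2) (nat_lit 0x202500013818190e00)))))) (.nd (nat_lit 7) 
(.nd (nat_lit 6) (.lf (nat_lit 4362559783) (dlOf (nat_lit 1) (nat_lit 0x400200020008090502))) 
(.lf (nat_lit 3288818023) (dlOf (nat_lit 1) (nat_lit 0x64004002800081b0702)))) (.nd (nat_lit 10) 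
(.nd (nat_lit 26) (.lf (nat_lit 537354663) (dlOf (nat_lit 1) (nat_lit 0x4a0008090781))) 
(.lf (nat_lit 4362559911) (dlOf (nat_lit 2) (nat_lit 0x1003300718818090780)))) 
(.lf (nat_lit 488871) (dlOf (nat_lit 1) (nat_lit 0x160018009901)))))) (.nd (nat_lit 6) 
(.nd (nat_lit 20) (.nd (nat_lit 21) 
(.lf (nat_lit 42950695) (dlOf (nat_lit 3) (nat_lit 0xc4060000980800320300004204004000400080009290782))) 
(.lf (nat_lit 15687719) (dlOf (nat_lit 1) (nat_lit 0x50008004000200040008820683)))) 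
(.nd (nat_lit 21) (.lf (nat_lit 23027751) (dlOf (nat_lit 1) (nat_lit 0x8008000c002001a0008b40603))) 
(.lf (nat_lit 25124903) (dlOf (nat_lit 1) (nat_lit 0x50008011400200540008be0c03))))) 
(.nd (nat_lit 9) (.nd (nat_lit 12) 
(.lf (nat_lit 38756455) (dlOf (nat_lit 1) (nat_lit 0x140019141981))) 
(.lf (nat_lit 19886183) (dlOf (nat_lit 1) (nat_lit 0x200189d7d81)))) (.nd (nat_lit 7) 
(.lf (nat_lit 54487655) (dlOf (nat_lit 2) (nat_lit 0x1315140007604001c00400040009655382))) 
(.lf (nat_lit 39807719) (dlOf (nat_lit 1) (nat_lit 0xc00291f5981)))))))) (.nd (nat_lit 26) 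
(.nd (nat_lit 31) (.nd (nat_lit 21) (.nd (nat_lit 7) (.nd (nat_lit 9) (.nd (nat_lit 18) 
(.nd (nat_lit 27) 
(.lf (nat_lit 1342398503) (dlOf (nat_lit 1) (nat_lit 0x2000807dc00201e00008020503))) 
(.lf (nat_lit 1476616231) (dlOf (nat_lit 1) (nat_lit 0x900080298002003200080a0683)))) 
(.lf (nat_lit 1343184935) (dlOf (nat_lit 1) (nat_lit 0xc00400140018190282)))) 
(.lf (nat_lit 268659239) (dlOf (nat_lit 1) (nat_lit 0x4004000200080e5182)))) (.nd (nat_lit 6) 
(.lf (nat_lit 4563624103) (dlOf (nat_lit 1) (nat_lit 0x6400080a2c01))) (.nd (nat_lit 9) 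
(.lf (nat_lit 5637367015) (dlOf (nat_lit 1) (nat_lit 0x4002000200080d2e02))) 
(.lf (nat_lit 805531367) (dlOf (nat_lit 1) (nat_lit 0x10008000800200040008117403)))))) 
(.nd (nat_lit 18) (.nd (nat_lit 19) 
(.lf (nat_lit 1881366567) (dlOf (nat_lit 1) (nat_lit 0x180028ed0981))) 
(.lf (nat_lit 1345019943) (dlOf (nat_lit 14) (nat_lit 0x1f310280e086b812ec35200ee16805390b30001058c01bc28600dc124019706780370310087816401360a202830398182007003c40340002d1e04181a904ca0b30046849000bc0e602a801c000160501b300e0000ac0810485a40dcc2cc040001d000150301990b4800028080bd85a4000120401582d20098168000038203280b4001380700000c08015c2d00000502043616901a90b40032859c00a02cc045c14501530a1808904f4012027200820cf001206580fe831c02bc18c00420c4001505e809c008414ec03a03f401c000021102150b4800485140a7003a00003060004169000008101f310280a706b8127835203e616902940b301e804f4086819e07a20c6027c00e000000480ee000804c400206d400089d0783)))) 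
(.nd (nat_lit 8) 
(.lf (nat_lit 1346333223) (dlOf (nat_lit 5) (nat_lit 0x381660006001001c0b3800d8598000c28800221430001067000083100084036004001a000460800200b3800f0598000418a00120a2002300d80118068001161800742ce003616600010a20010006c007c034000890a00140008f05181))) 
(.lf (nat_lit 1345806631) (dlOf (nat_lit 1) (nat_lit 0x20018df8101)))))) (.nd (nat_lit 6) 
(.nd (nat_lit 8) (.nd (nat_lit 9) 
(.lf (nat_lit 3491192871) (dlOf (nat_lit 1) (nat_lit 0xc00200160008070782))) 
(.lf (nat_lit 4026753575) (dlOf (nat_lit 2) (nat_lit 0x1a01b000b00d00000008000800200100008090e02)))) 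
(.nd (nat_lit 7) (.lf (nat_lit 3087229223) (dlOf (nat_lit 1) (nat_lit 0x400400020008154602))) 
(.lf (nat_lit 3489889703) (dlOf (nat_lit 14) (nat_lit 0x445400381ff01bc0fe803487ec00683c400101cb00090d0004f0594065c2bc026a15c00710a90005053401c427801ba135004c08a8000c47802e08a8001c3fe047c1fd00380fd803607a000403c800221cb00d30d0002605ac00b02ce01bc16501ba0af0086057000282a4006214d00d709a803504b8012c22a000302404541fd00330f400de05780005e0c08e03fa01541e801aa0af80c904e00005c1008c83fa02fa1e801a50af80bc857800182a0000c14f019109c000404dc019c0000002d1200321fd000038102360fe80a587a006a82be032e138000030400a30fe8000140811687f400483f803221e801870af80bc04e0000081408dc3fa002c1fc01800f400bc057c02f8270000030a04781fd001b0fe00cd07a006a42be0322138000010500040af8000040811607f406443d0015216501c10af000000200a600080b4800209b2000800cb83))))) 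
(.nd (nat_lit 7) (.nd (nat_lit 11) (.nd (nat_lit 18) 
(.lf (nat_lit 3494076775) (dlOf (nat_lit 2) (nat_lit 0x9c2300003202000200081b0701))) 
(.lf (nat_lit 4027015527) (dlOf (nat_lit 1) (nat_lit 0x64004002800081b0702)))) 
(.lf (nat_lit 3489884519) (dlOf (nat_lit 2) (nat_lit 0x2213d0096c018004e80)))) (.nd (nat_lit 18) 
(.lf (nat_lit 3087229415) (dlOf (nat_lit 1) (nat_lit 0x8c00400120008157d02))) 
(.lf (nat_lit 3490669031) (dlOf (nat_lit 9) (nat_lit 0x18103cc016c1cd029f0aa010a054801f8274000240a0b9a1e6034c0aa01950548015027400022080c021e600760e6810905500158274000200802ea1e60000f8100da0f3000078082e5879800903c404901cd01b70ad0124055002d02a4059413a0000e8700260f300007008041079800036040c5400400b20018017302))))))) 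
(.nd (nat_lit 6) (.nd (nat_lit 29) (.nd (nat_lit 7) (.nd (nat_lit 9) (.nd (nat_lit 18) 
(.lf (nat_lit 469983271) (dlOf (nat_lit 1) (nat_lit 0x2000807dc00201e00008020503))) 
(.lf (nat_lit 1409769511) (dlOf (nat_lit 1) (nat_lit 0x400400060008090002)))) 
(.lf (nat_lit 4630735399) (dlOf (nat_lit 1) (nat_lit 0x8004003a0018095182)))) (.nd (nat_lit 9) 
(.lf (nat_lit 1409769639) (dlOf (nat_lit 1) (nat_lit 0x400400020008090282))) 
(.lf (nat_lit 3556996775) (dlOf (nat_lit 1) (nat_lit 0x4002812a001))))) (.nd (nat_lit 9) 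
(.nd (nat_lit 8) (.nd (nat_lit 18) 
(.lf (nat_lit 1007902759) (dlOf (nat_lit 1) (nat_lit 0x18008000400200060008850783))) 
(.lf (nat_lit 4228341799) (dlOf (nat_lit 1) (nat_lit 0x180028090001)))) 
(.lf (nat_lit 4228342055) (dlOf (nat_lit 1) (nat_lit 0x400200020008090502)))) (.nd (nat_lit 11) 
(.lf (nat_lit 872899111) (dlOf (nat_lit 1) (nat_lit 0x4002000200080f8802))) 
(.lf (nat_lit 4094650919) (dlOf (nat_lit 1) (nat_lit 0x8008000800200020008055183)))))) 
(.nd (nat_lit 7) (.nd (nat_lit 18) (.nd (nat_lit 8) 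
(.lf (nat_lit 472604775) (dlOf (nat_lit 5) (nat_lit 0xe30580032029a039c0d9006b06c00c78270062c11a008408c019903e80b501f0001c0560000e14001407c00006810124046809881f4000180805482c001a214d00cf06c80c1027005f811a031607d015903e003d00a800000200140004000400189c0982))) 
(.lf (nat_lit 1409507687) (dlOf (nat_lit 1) (nat_lit 0x20008015201)))) (.nd (nat_lit 9) 
(.lf (nat_lit 473915495) (dlOf (nat_lit 2) (nat_lit 0x590b000400364015c1380000e06000a0018fc0981))) 
(.lf (nat_lit 6376876647) (dlOf (nat_lit 1) (nat_lit 0x18008000800200040008095383))))) 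
(.nd (nat_lit 8) (.nd (nat_lit 10) (.nd (nat_lit 12) 
(.lf (nat_lit 1008951527) (dlOf (nat_lit 1) (nat_lit 0x14002000e0009000a82))) 
(.lf (nat_lit 3556995303) (dlOf (nat_lit 1) (nat_lit 0x300028128081)))) 
(.lf (nat_lit 5301822695) (dlOf (nat_lit 1) (nat_lit 0x18002002c0008092e02)))) (.nd (nat_lit 9) 
(.lf (nat_lit 1409507815) (dlOf (nat_lit 2) (nat_lit 0x4702f80007408028800800ec00200540008017303))) 
(.lf (nat_lit 6241348583) (dlOf (nat_lit 1) (nat_lit 0x1e00180d5e81))))))))))))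

end

end Pool.Agent.Lib.MP_5854e1_co.Cz

namespace Pool.Agent.Lib.MP_5854e1_co.Cz

noncomputable section

noncomputable def tz189 : DT := (.nd (nat_lit 2) (.nd (nat_lit 16) (.nd (nat_lit 28) 
(.nd (nat_lit 18) (.nd (nat_lit 5) (.nd (nat_lit 6) (.nd (nat_lit 21) (.nd (nat_lit 29) 
(.nd (nat_lit 20) (.nd (nat_lit 30) (.nd (nat_lit 8) 
(.lf (nat_lit 67264523) (dlOf (nat_lit 1) (nat_lit 0x10004000e0018090082))) 
(.lf (nat_lit 4429340939) (dlOf (nat_lit 1) (nat_lit 0x18008000400200040008090483)))) 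
(.nd (nat_lit 19) 
(.lf (nat_lit 1073897483) (dlOf (nat_lit 1) (nat_lit 0x8008000400200060008020483))) 
(.lf (nat_lit 3221905419) (dlOf (nat_lit 2) (nat_lit 0x92046000000181b0000))))) (.nd (nat_lit 10) 
(.lf (nat_lit 47341579) (dlOf (nat_lit 5) (nat_lit 0x117880011a020008bc4000880100035d480041c08001aea4001e204000c004001200093d0082))) 
(.lf (nat_lit 51536907) (dlOf (nat_lit 1) (nat_lit 0x20019512881))))) (.nd (nat_lit 8) 
(.nd (nat_lit 7) (.lf (nat_lit 3960102923) (dlOf (nat_lit 2) (nat_lit 0x92046000000181b0000))) 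
(.nd (nat_lit 11) (.lf (nat_lit 3758256779) (dlOf (nat_lit 1) (nat_lit 0xa0018128c01))) 
(.lf (nat_lit 3758258827) (dlOf (nat_lit 1) (nat_lit 0x2001812b681))))) (.nd (nat_lit 7) 
(.lf (nat_lit 738355979) (dlOf (nat_lit 1) (nat_lit 0x18008000c00200040008095b03))) 
(.nd (nat_lit 27) 
(.lf (nat_lit 3758258571) (dlOf (nat_lit 1) (nat_lit 0x800800140020002000812af83))) 
(.lf (nat_lit 3892476299) (dlOf (nat_lit 1) (nat_lit 0x1000800040020004000815af83))))))) 
(.nd (nat_lit 22) (.nd (nat_lit 7) (.nd (nat_lit 9) (.nd (nat_lit 20) 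
(.lf (nat_lit 11165707) (dlOf (nat_lit 1) (nat_lit 0x400200020008660082))) 
(.lf (nat_lit 45768715) (dlOf (nat_lit 1) (nat_lit 0xc0019360001)))) 
(.lf (nat_lit 11690507) (dlOf (nat_lit 5) (nat_lit 0x5bdc620258e2f004f7140089f7aa0357bd0002a84600440000002ca1c00138c6000dbd6000a702012ce3180050808078718c001c804041c004012e00186c0d82)))) 
(.nd (nat_lit 19) 
(.lf (nat_lit 2252939) (dlOf (nat_lit 2) (nat_lit 0xb352e0059a8f402cd4560003b0600120028150101))) 
(.lf (nat_lit 12214411) (dlOf (nat_lit 1) (nat_lit 0xc002000200086c0102))))) (.nd (nat_lit 19) 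
(.lf (nat_lit 15884299) (dlOf (nat_lit 1) (nat_lit 0x40018840281))) (.nd (nat_lit 20) 
(.lf (nat_lit 15360011) (dlOf (nat_lit 2) (nat_lit 0x17931400c10040024004000800087e0482))) 
(.nd (nat_lit 23) (.lf (nat_lit 24797195) (dlOf (nat_lit 1) (nat_lit 0xe0028bb0081))) 
(.lf (nat_lit 16408587) (dlOf (nat_lit 1) (nat_lit 0x200188a0081)))))))) (.nd (nat_lit 19) 
(.nd (nat_lit 31) (.nd (nat_lit 8) (.nd (nat_lit 7) (.nd (nat_lit 20) 
(.lf (nat_lit 6107062347) (dlOf (nat_lit 3) (nat_lit 0xe00b00078050005000a0004b06001601600100028000f01000d0008009c002001c0008040503))) 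
(.lf (nat_lit 24272971) (dlOf (nat_lit 1) (nat_lit 0x400400020008b90f02)))) 
(.lf (nat_lit 20083403) (dlOf (nat_lit 1) (nat_lit 0x4002000200089d8c82)))) (.nd (nat_lit 10) 
(.lf (nat_lit 1677883723) (dlOf (nat_lit 1) (nat_lit 0x2002811ab81))) 
(.lf (nat_lit 50488651) (dlOf (nat_lit 1) (nat_lit 0x200294c3301))))) (.nd (nat_lit 7) 
(.nd (nat_lit 8) 
(.lf (nat_lit 2147639371) (dlOf (nat_lit 1) (nat_lit 0x18008001400200020008090003))) 
(.nd (nat_lit 9) (.lf (nat_lit 2885837131) (dlOf (nat_lit 2) (nat_lit 0x26000000278180b0600))) 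
(.lf (nat_lit 3758255947) (dlOf (nat_lit 1) (nat_lit 0xc0018127781))))) (.nd (nat_lit 9) 
(.lf (nat_lit 2885837003) (dlOf (nat_lit 2) (nat_lit 0x678000003a20400f4002002400080b0482))) 
(.lf (nat_lit 3758256843) (dlOf (nat_lit 1) (nat_lit 0xd00080004002001e0008128c83)))))) 
(.nd (nat_lit 20) (.nd (nat_lit 27) (.nd (nat_lit 21) 
(.lf (nat_lit 4362756171) (dlOf (nat_lit 1) (nat_lit 0x200080f1881))) 
(.lf (nat_lit 2754240587) (dlOf (nat_lit 13) (nat_lit 0x2781a0014c0c6000500400280680019031801c0128002804601b6000000278500910340049018c01f40840004e06018606800c2031805901080009a0c021c0d0009c0630002382008f034002b818c0008c0801d40d000dc06300022820040034000a818c000880800140840004202000a06800030318001001000201a000040c60003c040120068009203180470108000000c0188002048200080d0d02)))) 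
(.nd (nat_lit 26) 
(.lf (nat_lit 134897739) (dlOf (nat_lit 2) (nat_lit 0x11c03100880088001581000300080010002000800080d0d03))) 
(.lf (nat_lit 202006603) (dlOf (nat_lit 2) (nat_lit 0x11c031008800880013c1000300080010002000800080d0d03))))) 
(.nd (nat_lit 7) (.lf (nat_lit 43671627) (dlOf (nat_lit 1) (nat_lit 0x180080074002000800092a0003))) 
(.nd (nat_lit 22) (.lf (nat_lit 20607691) (dlOf (nat_lit 1) (nat_lit 0x4002000200089d8c82))) 
(.lf (nat_lit 8024779) (dlOf (nat_lit 1) (nat_lit 0x20018518c81)))))))) (.nd (nat_lit 21) 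
(.nd (nat_lit 26) (.nd (nat_lit 7) (.nd (nat_lit 19) (.nd (nat_lit 6) (.nd (nat_lit 22) 
(.lf (nat_lit 4966211627) (dlOf (nat_lit 1) (nat_lit 0x20008001400200040008050b83))) 
(.lf (nat_lit 29515819) (dlOf (nat_lit 2) (nat_lit 0x257060007802003a0018e10781)))) 
(.lf (nat_lit 3892474475) (dlOf (nat_lit 1) (nat_lit 0x400400020018158982)))) (.nd (nat_lit 29) 
(.lf (nat_lit 3221905451) (dlOf (nat_lit 3) (nat_lit 0x1c81180001004022408e000c04602590178000001804c80080324002005a00081b0603))) 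
(.lf (nat_lit 537550891) (dlOf (nat_lit 6) (nat_lit 0x1702e00009c0802a8170000400402240b80001502011005c000080100fe02e000000080208008019c00200f400080a0983))))) 
(.nd (nat_lit 10) (.nd (nat_lit 20) 
(.lf (nat_lit 2147642027) (dlOf (nat_lit 1) (nat_lit 0x18008000800200020008095683))) 
(.lf (nat_lit 59927211) (dlOf (nat_lit 1) (nat_lit 0x20029845681)))) (.nd (nat_lit 6) 
(.lf (nat_lit 671246251) (dlOf (nat_lit 4) (nat_lit 0xc02e000800f0000d02000300b8002803c000c00000018060008017000500780002c100038008000c00200140008144303))) 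
(.lf (nat_lit 3892477163) (dlOf (nat_lit 1) (nat_lit 0x800800080020002000815c603)))))) 
(.nd (nat_lit 27) (.nd (nat_lit 8) (.nd (nat_lit 19) 
(.lf (nat_lit 604135467) (dlOf (nat_lit 9) (nat_lit 0x200000003002026c000000178101820000000b80800280000005a04000800c000290200080070000901003f0070028801c0002208000800e000000200020028030381))) 
(.lf (nat_lit 1678401579) (dlOf (nat_lit 2) (nat_lit 0x1080ac00e205300230098000c8180130008005c00200320008210603)))) 
(.nd (nat_lit 6) (.lf (nat_lit 4362232235) (dlOf (nat_lit 1) (nat_lit 0x20018017181))) 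
(.lf (nat_lit 2755813739) (dlOf (nat_lit 2) (nat_lit 0x142300003202002600181b0701))))) 
(.nd (nat_lit 19) (.nd (nat_lit 29) 
(.lf (nat_lit 2348965931) (dlOf (nat_lit 4) (nat_lit 0x440540024028000500f000880380004a10000805000014020004010000a0070000241001e8008007000200040008070803))) 
(.lf (nat_lit 5033320491) (dlOf (nat_lit 1) (nat_lit 0x20008001400200040008050b83)))) 
(.lf (nat_lit 3960102955) (dlOf (nat_lit 3) (nat_lit 0x1c81180001004022408e000c04602590178000001804c80080324002005a00081b0603)))))) 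
(.nd (nat_lit 6) (.nd (nat_lit 19) (.nd (nat_lit 7) (.nd (nat_lit 9) 
(.lf (nat_lit 15884331) (dlOf (nat_lit 1) (nat_lit 0xa0018840801))) 
(.lf (nat_lit 11690539) (dlOf (nat_lit 5) (nat_lit 0x64e3180126f580003e0801938c600a5bd60000e820016deb00003c0804c6f580000e04005c004005a00086c0e82)))) 
(.lf (nat_lit 2754771883) (dlOf (nat_lit 1) (nat_lit 0x1a00280fbd81)))) (.nd (nat_lit 20) 
(.nd (nat_lit 23) 
(.lf (nat_lit 2754240555) (dlOf (nat_lit 2) (nat_lit 0x3e00d0013a063000f0210000b81804a80080048002000200080d0a83))) 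
(.lf (nat_lit 27942955) (dlOf (nat_lit 1) (nat_lit 0x100018d40701)))) (.nd (nat_lit 22) 
(.lf (nat_lit 45768747) (dlOf (nat_lit 1) (nat_lit 0x38008005000200020009360283))) 
(.lf (nat_lit 24797227) (dlOf (nat_lit 8) (nat_lit 0x3981e000ebf800155de80072e9400356920048b45000d5930004a6a4001c62000497a8000ebbd00105d280012d14001c41000597a80016bbd00095d280032d14001c210007577a0032ba500195a28001d81800c2f50000ea04003d7a8000abbd000a5d280022d14000e81000557a80006bbd00085d28001cc180058008001800200ba0008bb0b03)))))) 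
(.nd (nat_lit 8) (.nd (nat_lit 7) (.nd (nat_lit 19) 
(.lf (nat_lit 69361771) (dlOf (nat_lit 1) (nat_lit 0x200018940a01))) 
(.lf (nat_lit 45768811) (dlOf (nat_lit 1) (nat_lit 0x20029360a01)))) 
(.lf (nat_lit 48914667) (dlOf (nat_lit 1) (nat_lit 0x40029441e81)))) (.nd (nat_lit 9) 
(.lf (nat_lit 61498859) (dlOf (nat_lit 2) (nat_lit 0x1352d8005c8080130008002800200080009923603))) 
(.nd (nat_lit 19) (.lf (nat_lit 48391147) (dlOf (nat_lit 1) (nat_lit 0x400200020009402882))) 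
(.lf (nat_lit 32138219) (dlOf (nat_lit 1) (nat_lit 0x40018ef2881))))))))) (.nd (nat_lit 19) 
(.nd (nat_lit 23) (.nd (nat_lit 26) (.nd (nat_lit 22) (.nd (nat_lit 21) (.nd (nat_lit 8) 
(.lf (nat_lit 6442868747) (dlOf (nat_lit 2) (nat_lit 0x42000000000181e0080))) 
(.lf (nat_lit 17195275) (dlOf (nat_lit 1) (nat_lit 0x4002000200088e0702)))) (.nd (nat_lit 5) 
(.lf (nat_lit 3563659) (dlOf (nat_lit 1) (nat_lit 0x60018200101))) 
(.lf (nat_lit 19292203) (dlOf (nat_lit 2) (nat_lit 0x195ac0003804001000200060008980e02))))) 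
(.nd (nat_lit 6) (.nd (nat_lit 5) (.nd (nat_lit 7) 
(.lf (nat_lit 22437899) (dlOf (nat_lit 2) (nat_lit 0x173858002f004000400200060008ae0482))) 
(.lf (nat_lit 21389451) (dlOf (nat_lit 3) (nat_lit 0xf6900006c04006bb54009bda80003ed20000d41801a0008001000200100008a30f03)))) 
(.lf (nat_lit 4612139) (dlOf (nat_lit 1) (nat_lit 0x80018290001)))) (.nd (nat_lit 8) 
(.lf (nat_lit 54943819) (dlOf (nat_lit 1) (nat_lit 0x20009670601))) 
(.lf (nat_lit 21389643) (dlOf (nat_lit 1) (nat_lit 0x80080084002000e0008a34c83)))))) 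
(.nd (nat_lit 27) (.nd (nat_lit 30) (.nd (nat_lit 20) 
(.lf (nat_lit 4362493963) (dlOf (nat_lit 1) (nat_lit 0x100018090001))) 
(.lf (nat_lit 2752929803) (dlOf (nat_lit 15) (nat_lit 0xc510a80053c0801388a4076843a01b2217016210a80730000002761401a043a001390200022090009501008210e8004980801788740022804000443a0011002016a21d0008681001010e8003dc080020874001e80400dc43a000e902004c21d0007381002e10e800394080410874001c404002800200020008060482)))) 
(.nd (nat_lit 5) 
(.lf (nat_lit 3288752203) (dlOf (nat_lit 25) (nat_lit 0x43802000c9807c011401400053060900040003e00f80270028000a40c050c03e004a00a0002882000a0200059007c007c0140005006032a01f0002781001b010001f007c0009c080db804000e200b000268201f801000c9807c00098080318040005801f0002582001100f8001280824a8080010003e05d401d0055007020c002c000921404b4040007e00b000240205750100078802c0008e081090040000460207ce0200002281034a0100001100809a8080001c0160004304028c0230002001007c0100000780809480800003404020804600920200000b0200e3011800380800002a08044c0460001402023a020000000180d0d00)))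 
(.lf (nat_lit 3288752171) (dlOf (nat_lit 14) (nat_lit 0x66a01f0001a01012400f8000cc0800380800003a040090046000180200fe023000098103b4011800048081eb008c00022040ed00460000f020722023000068103b6011800030080d1808c0001404010c0460000902006604003b10118002807c000000c010c004007600080d0a82))))) 
(.nd (nat_lit 7) (.nd (nat_lit 31) 
(.lf (nat_lit 4496711691) (dlOf (nat_lit 1) (nat_lit 0x160018140a01))) 
(.lf (nat_lit 2349228043) (dlOf (nat_lit 5) (nat_lit 0x200d00010066001003100070170020302000200d000140660012031000a01700202c2000600d000300660014031000c0170020282000300d000140660012031000c0170020242000080080004002000200081d0003)))) 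
(.nd (nat_lit 5) (.lf (nat_lit 738615691) (dlOf (nat_lit 1) (nat_lit 0x4002000200080c5d82))) 
(.lf (nat_lit 201744811) (dlOf (nat_lit 1) (nat_lit 0x4800400300008090782))))))) (.nd (nat_lit 20) 
(.nd (nat_lit 5) (.nd (nat_lit 7) (.nd (nat_lit 22) 
(.lf (nat_lit 61235211) (dlOf (nat_lit 1) (nat_lit 0x4004000200098f0102))) 
(.lf (nat_lit 48652299) (dlOf (nat_lit 1) (nat_lit 0x20029420001)))) 
(.lf (nat_lit 8811659) (dlOf (nat_lit 1) (nat_lit 0x4000400260008519502)))) (.nd (nat_lit 9) 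
(.lf (nat_lit 13000747) (dlOf (nat_lit 2) (nat_lit 0x19c18001c6040008002000200086f0b02))) 
(.lf (nat_lit 8806955) (dlOf (nat_lit 1) (nat_lit 0xe0028511481))))) (.nd (nat_lit 5) 
(.nd (nat_lit 6) (.lf (nat_lit 26632203) (dlOf (nat_lit 1) (nat_lit 0xa8008000400200280008c50003))) 
(.nd (nat_lit 8) (.lf (nat_lit 9855051) (dlOf (nat_lit 1) (nat_lit 0xf40008580501))) 
(.lf (nat_lit 60189515) (dlOf (nat_lit 1) (nat_lit 0x20019845c01))))) (.nd (nat_lit 6) 
(.lf (nat_lit 26632235) (dlOf (nat_lit 1) (nat_lit 0x8800400020008c50382))) 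
(.lf (nat_lit 49700971) (dlOf (nat_lit 1) (nat_lit 0x60029480a01))))))) (.nd (nat_lit 6) 
(.nd (nat_lit 5) (.nd (nat_lit 7) (.nd (nat_lit 9) 
(.lf (nat_lit 19816715) (dlOf (nat_lit 1) (nat_lit 0x200189d0a81))) 
(.lf (nat_lit 8283915) (dlOf (nat_lit 1) (nat_lit 0x20018513b81)))) (.nd (nat_lit 20) 
(.lf (nat_lit 2819514507) (dlOf (nat_lit 2) (nat_lit 0xc701b0003e00800100080044002001600082c0483))) 
(.nd (nat_lit 21) (.lf (nat_lit 6185099) (dlOf (nat_lit 1) (nat_lit 0x400400020008420482))) 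
(.lf (nat_lit 12476555) (dlOf (nat_lit 2) (nat_lit 0xa4040001d8186c0100)))))) (.nd (nat_lit 20) 
(.nd (nat_lit 7) (.nd (nat_lit 21) 
(.lf (nat_lit 68050987) (dlOf (nat_lit 1) (nat_lit 0x8004000400083d0602))) 
(.lf (nat_lit 11427883) (dlOf (nat_lit 2) (nat_lit 0x2880000004a040018002000200086a0802)))) 
(.lf (nat_lit 2754505131) (dlOf (nat_lit 1) (nat_lit 0x4002000200080f4e82)))) (.nd (nat_lit 9) 
(.lf (nat_lit 4087851) (dlOf (nat_lit 2) (nat_lit 0x2c00000019818280600))) 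
(.lf (nat_lit 2753454635) (dlOf (nat_lit 1) (nat_lit 0x18008000800200040008090e83)))))) 
(.nd (nat_lit 5) (.nd (nat_lit 23) (.nd (nat_lit 26) (.nd (nat_lit 7) 
(.lf (nat_lit 1990987) (dlOf (nat_lit 1) (nat_lit 0x8008002000200020008150603))) 
(.lf (nat_lit 18768075) (dlOf (nat_lit 1) (nat_lit 0x8008000400200020008970483)))) (.nd (nat_lit 9) 
(.lf (nat_lit 69099595) (dlOf (nat_lit 1) (nat_lit 0x4004000200088a0002))) 
(.lf (nat_lit 2755551819) (dlOf (nat_lit 1) (nat_lit 0xc00181b1181))))) (.nd (nat_lit 20) 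
(.lf (nat_lit 13525067) (dlOf (nat_lit 2) (nat_lit 0x5600000020018730d00))) 
(.lf (nat_lit 43933771) (dlOf (nat_lit 2) (nat_lit 0x3339c019da0400bc004000800092a0002))))) 
(.nd (nat_lit 7) (.nd (nat_lit 24) 
(.lf (nat_lit 2753454187) (dlOf (nat_lit 1) (nat_lit 0x20018090001))) 
(.lf (nat_lit 52322411) (dlOf (nat_lit 1) (nat_lit 0x1c004003c0009521b02)))) (.nd (nat_lit 8) 
(.lf (nat_lit 40790763) (dlOf (nat_lit 1) (nat_lit 0x600291f5a01))) 
(.lf (nat_lit 44983275) (dlOf (nat_lit 1) (nat_lit 0x40019322881))))))))) (.nd (nat_lit 6) 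
(.nd (nat_lit 31) (.nd (nat_lit 5) (.nd (nat_lit 11) (.nd (nat_lit 32) (.nd (nat_lit 20) 
(.nd (nat_lit 19) 
(.lf (nat_lit 1946312715) (dlOf (nat_lit 1) (nat_lit 0x8008000400200060008020483))) 
(.lf (nat_lit 1344954379) (dlOf (nat_lit 3) (nat_lit 0xb407c003a181002a03e001c2c0800080080014002000200089a0003)))) 
(.nd (nat_lit 18) (.lf (nat_lit 1343381515) (dlOf (nat_lit 1) (nat_lit 0x20008210281))) 
(.lf (nat_lit 1343643659) (dlOf (nat_lit 1) (nat_lit 0x4004000600182d0282))))) (.nd (nat_lit 7) 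
(.nd (nat_lit 9) (.lf (nat_lit 5838888971) (dlOf (nat_lit 2) (nat_lit 0x42000000000181e0080))) 
(.lf (nat_lit 5637301771) (dlOf (nat_lit 1) (nat_lit 0x6000280d3681)))) 
(.lf (nat_lit 5234647179) (dlOf (nat_lit 8) (nat_lit 0x1cf017810300b806300560002029020a0100000d82800400c8001c05e005e02b001901200048080005003a000400f0001a870046019001880c0075805e02f602e02050158000d0280b000bc0b1005a067802a004d011803a007800064140050054000310204d202d02e201500090078000600c00400560000c02003e0028070f01))))) 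
(.nd (nat_lit 7) (.nd (nat_lit 8) (.nd (nat_lit 9) 
(.lf (nat_lit 6241283083) (dlOf (nat_lit 1) (nat_lit 0x4002000200080d5f82))) 
(.lf (nat_lit 5773617675) (dlOf (nat_lit 1) (nat_lit 0x4004000200080e5002)))) 
(.lf (nat_lit 6241282827) (dlOf (nat_lit 1) (nat_lit 0x7000180d5b01)))) (.nd (nat_lit 8) 
(.lf (nat_lit 4563561099) (dlOf (nat_lit 1) (nat_lit 0x800400020008095482))) 
(.lf (nat_lit 1543662987) (dlOf (nat_lit 1) (nat_lit 0x2000200060008146c82)))))) (.nd (nat_lit 18) 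
(.nd (nat_lit 30) (.nd (nat_lit 7) (.nd (nat_lit 26) 
(.lf (nat_lit 805986347) (dlOf (nat_lit 2) (nat_lit 0x1080ac00e205300230098000cc180130008005c00200320008210603))) 
(.lf (nat_lit 470442027) (dlOf (nat_lit 8) (nat_lit 0x3011780018898000c41800701b3000718400431178001889800cc366000e206005e22f00081130002883000e4366000e108006822f00021130009883000dc3660007b08008222f000b113001c06cc000f40c00c045e000e2260003106001b06cc000f210010045e00022260003106001686cc000f010000c002000200080f0b02)))) 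
(.lf (nat_lit 805469611) (dlOf (nat_lit 1) (nat_lit 0x4001811cc01)))) (.nd (nat_lit 19) 
(.lf (nat_lit 1476550699) (dlOf (nat_lit 10) (nat_lit 0x1601600020000000cc10006005800300000003204007c0000001781001d0000000b4080b88000000580405440000002b02000c0000001501005a00b80004408007805c00000040004002000c0008050382))) 
(.nd (nat_lit 26) 
(.lf (nat_lit 1342857259) (dlOf (nat_lit 8) (nat_lit 0x3011780018898000c41c00701a3000718400431178001889800cc346000e206005e22f00081130002883800e4346000e108006822f00021130009883800dc3460007608008222f000b113001c068c000ea0c00c045e000e2260003107001b068c000e810010045e000222600031070016868c000e610000c002000200080f0b02))) 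
(.lf (nat_lit 1409966123) (dlOf (nat_lit 6) (nat_lit 0x1702e00008c0802a81700003c0402240b80000e02011005c000038100fe02e000000080208008019c00200f400080a0983)))))) 
(.nd (nat_lit 26) (.nd (nat_lit 27) 
(.lf (nat_lit 4563820587) (dlOf (nat_lit 3) (nat_lit 0x401c0000101000200e0000040800a80080064002006e00080f0d03))) 
(.lf (nat_lit 4698038315) (dlOf (nat_lit 3) (nat_lit 0x401c0000101000200e0000040800a80080064002006e00080f0d03)))) 
(.nd (nat_lit 20) 
(.lf (nat_lit 1946574891) (dlOf (nat_lit 10) (nat_lit 0xf080a4000480407700520002202024e0290001001012701480007c0805180a40003a0402280520001b02004a0290000501003e01480001c0808c80a40000a0400dc004000200180c0c02))) 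
(.lf (nat_lit 1008099371) (dlOf (nat_lit 1) (nat_lit 0xb8004003200089d0902))))))) (.nd (nat_lit 18) 
(.nd (nat_lit 29) (.nd (nat_lit 26) (.nd (nat_lit 5) (.nd (nat_lit 7) 
(.lf (nat_lit 3491913739) (dlOf (nat_lit 1) (nat_lit 0x700018090001))) 
(.lf (nat_lit 3490343307) (dlOf (nat_lit 1) (nat_lit 0x400200020008004e82)))) 
(.lf (nat_lit 3492438059) (dlOf (nat_lit 2) (nat_lit 0x3e00d0013a063000f0210000ac1804a80080048002000200080d0a83)))) 
(.nd (nat_lit 5) (.nd (nat_lit 7) 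
(.lf (nat_lit 3691143179) (dlOf (nat_lit 1) (nat_lit 0x8008000400200020008050003))) 
(.lf (nat_lit 2617406347) (dlOf (nat_lit 1) (nat_lit 0x3e00280a9001)))) 
(.lf (nat_lit 3691143211) (dlOf (nat_lit 16) (nat_lit 0x2280040001881001400e814a8010000600814040080002f020a5400400120008000b81005a00740c700080002d04001c02a01e701400f70098076404a06de01d007600e00eb805807f800e002a003008c00080750000000582c047004c04b201d000158200c100e800100100005408014803a03be0040001482011b00e825a001000d000600018060212004002d0018000481001f00740b78008014600300008830003001800040080090010000120401fc03a050e00400210018000001814580081ae0002050e0008050383))))) 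
(.nd (nat_lit 5) (.nd (nat_lit 7) 
(.lf (nat_lit 2952945675) (dlOf (nat_lit 1) (nat_lit 0x20028030001))) (.nd (nat_lit 11) 
(.lf (nat_lit 3154276747) (dlOf (nat_lit 2) (nat_lit 0x202300263018158380))) 
(.lf (nat_lit 3154278795) (dlOf (nat_lit 1) (nat_lit 0x800800080020002000815af83))))) 
(.nd (nat_lit 7) (.nd (nat_lit 19) 
(.lf (nat_lit 2952945707) (dlOf (nat_lit 14) (nat_lit 0x23009400140380003404006a025002300e00ff0010000660c004004e00c00260071012803200900124044005801e00e900e0007006c030402a00d0007039b0020065800c00980020008000000190e002a01380250098021404a00e4024002c011000b007c01ec0380072015006a00381c0801002b000600c0001005e0000000c4680568094013c03805f0004000180306c801281e18090055c03e01ae01c017c00d81d48054022c00e023c00400630008000bc48058009c153c04a04a002400ae00d8065805404fc0080060000000170702ef0128014005405200080002d06036e02502b00020000b0100628094003c048018801c00bd00d81cb001002fc006000180c0004025008b01200200070013c036066200400bf0018000483002b809c031404a010a024009100e0034006c003002a009c0090310002005d000c0002224072004a00de024032000200000018025800802a400202040008030383)))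 
(.lf (nat_lit 4228538411) (dlOf (nat_lit 6) (nat_lit 0x35813c01a408401d002a004201100015c20038813c03b405400960220002a0300340150000e008037013c01a408401b402a004e0110000dc20037013c001008401cc02a00480110000cc20027000800c8002004000080f0c03)))) 
(.lf (nat_lit 3154276779) (dlOf (nat_lit 1) (nat_lit 0x40028158481)))))) (.nd (nat_lit 5) 
(.nd (nat_lit 11) (.nd (nat_lit 7) (.nd (nat_lit 20) 
(.lf (nat_lit 2483445771) (dlOf (nat_lit 5) (nat_lit 0x200d00010066001003100070160038c42000200d000140660012031000a0160038c02000600d000300660014031000c0160038bc2000300d000140660012031000c0160038b82000080080004002000200081d0003))) 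
(.lf (nat_lit 3491127307) (dlOf (nat_lit 15) (nat_lit 0xc5100000780080138850076841001b2202016210000730000003981401a0410001ca0200021f4000dd81002f1040006e40800088200036a040208410001b202016a208000ce0100101040006200800208200030a0400984100017a02006e208000bc01002e1040005d8080410820002e604002800200020008060482)))) 
(.lf (nat_lit 3557712011) (dlOf (nat_lit 4) (nat_lit 0x378070001ab0201e6038000c58100d801c000624080140008016c00200a200082c0483)))) 
(.nd (nat_lit 7) (.nd (nat_lit 20) 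
(.lf (nat_lit 2550556683) (dlOf (nat_lit 1) (nat_lit 0x70004003400080f4702))) 
(.lf (nat_lit 3493226507) (dlOf (nat_lit 4) (nat_lit 0x26c406000550201642030002a0100d41038001380800d80080134002000800080f4703)))) 
(.lf (nat_lit 3493226635) (dlOf (nat_lit 1) (nat_lit 0x58004000200080f4802))))) (.nd (nat_lit 9) 
(.nd (nat_lit 26) 
(.lf (nat_lit 4026949675) (dlOf (nat_lit 14) (nat_lit 0x66a01f0001581012400f8000a80800380800003a040090046000180200fe023000098103b4011800048081eb008c00022040ed00460000f020722023000068103b6011800030080d1808c0001404010c0460000902006604003b10118002807c000000c010c004007600080d0a82))) 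
(.nd (nat_lit 30) (.lf (nat_lit 2483445803) (dlOf (nat_lit 1) (nat_lit 0xa800081d0a01))) 
(.lf (nat_lit 3557187627) (dlOf (nat_lit 3) (nat_lit 0x2201f8000b00800100fc0005404001400400080018140982))))) 
(.nd (nat_lit 7) 
(.lf (nat_lit 3491652139) (dlOf (nat_lit 1) (nat_lit 0x18008000800200040008090e83))) 
(.lf (nat_lit 3490085803) (dlOf (nat_lit 1) (nat_lit 0x7000800080020010000800bd83)))))))) 
(.nd (nat_lit 7) (.nd (nat_lit 27) (.nd (nat_lit 31) (.nd (nat_lit 18) (.nd (nat_lit 5) 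
(.nd (nat_lit 26) 
(.lf (nat_lit 268591179) (dlOf (nat_lit 3) (nat_lit 0x1e00b0011805401a002800300130001f84006100a0000d0080060008000400200060008090503))) 
(.lf (nat_lit 4630667339) (dlOf (nat_lit 2) (nat_lit 0x4002c0018014000d0028001e01800e0008004800200280008040503)))) 
(.lf (nat_lit 1344954475) (dlOf (nat_lit 1) (nat_lit 0x14002003200089a0a02)))) (.nd (nat_lit 19) 
(.lf (nat_lit 1946574923) (dlOf (nat_lit 4) (nat_lit 0xbc809c01c003400440100001a030063015007c009c0090034009c010000190400ed0138000c40801700080154002000600080c1483))) 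
(.lf (nat_lit 1346265163) (dlOf (nat_lit 3) (nat_lit 0x2001006768100090008033b0080010008001c00200060008e80003))))) 
(.nd (nat_lit 8) (.nd (nat_lit 18) (.nd (nat_lit 19) 
(.lf (nat_lit 6711042123) (dlOf (nat_lit 3) (nat_lit 0xe00b00078050005000a0004206001601600100028000d81000d0008009c002001c0008040503))) 
(.lf (nat_lit 3492438091) (dlOf (nat_lit 13) (nat_lit 0x2781a0014c0c6000570400280680019031801c0128002804601b60000002b0500910340049018c01f40840005506018606800c203180590108000a80c021c0d0009c0630002702008f034002b818c0009a0801d40d000dc06300026020040034000a818c000960800140840004902000a068000303180011c1000201a000040c600043040120068009203180470108000000c0188002048200080d0d02)))) 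
(.nd (nat_lit 9) 
(.lf (nat_lit 4026949707) (dlOf (nat_lit 25) (nat_lit 0x43802000c9807c01140140004c060900040003e00f80270028000960c050c03e004a00a0002502000a0200059007c007c0140004906032a01f0002401001b010001f007c0008e080db804000e200b000230201f801000c9807c0008a080318040005801f0002202001100f80010c0824a8080010003e05d401d0055007020c002c000841404b4040007e00b000208205750100078802c000800810900400003f0207ce0200001f01034a0100000f40809a8080001c0160003c04028c0230001c81007c0100000780809480800003404020804600920200000b0200e3011800380800002a08044c0460001402023a020000000180d0d00))) 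
(.lf (nat_lit 3493749323) (dlOf (nat_lit 1) (nat_lit 0xc00181b1181))))) (.nd (nat_lit 5) 
(.lf (nat_lit 3489824075) (dlOf (nat_lit 1) (nat_lit 0x800800040020002000800c903))) 
(.lf (nat_lit 3489818987) (dlOf (nat_lit 1) (nat_lit 0x20008004e81)))))) (.nd (nat_lit 26) 
(.nd (nat_lit 8) (.lf (nat_lit 1476550731) (dlOf (nat_lit 1) (nat_lit 0x40008050681))) 
(.nd (nat_lit 19) (.lf (nat_lit 3624034635) (dlOf (nat_lit 2) (nat_lit 0x260000002b0180b0600))) 
(.lf (nat_lit 5774139723) (dlOf (nat_lit 1) (nat_lit 0xc0028108801))))) (.nd (nat_lit 29) 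
(.nd (nat_lit 30) 
(.lf (nat_lit 4764885067) (dlOf (nat_lit 2) (nat_lit 0x4002c0018014000d0028001e01800e0008004800200280008040503))) 
(.lf (nat_lit 3691143243) (dlOf (nat_lit 4) (nat_lit 0x3bc008000320201de0040000b81003800200005008029000800e400200aa0008050683)))) 
(.nd (nat_lit 5) (.nd (nat_lit 9) 
(.lf (nat_lit 4228538443) (dlOf (nat_lit 6) (nat_lit 0x3201900004c0801b00c8000240400c00640001002003c032000068100010190000000800b00080058002004c00080f1483))) 
(.lf (nat_lit 4228014667) (dlOf (nat_lit 2) (nat_lit 0x9019001094080010008000400200040008018b03)))) 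
(.lf (nat_lit 4228276331) (dlOf (nat_lit 1) (nat_lit 0x100018090001))))))) (.nd (nat_lit 8) 
(.nd (nat_lit 12) (.nd (nat_lit 5) (.nd (nat_lit 18) 
(.lf (nat_lit 3624034507) (dlOf (nat_lit 2) (nat_lit 0x678000003a20400f4002002400080b0482))) 
(.lf (nat_lit 5773353163) (dlOf (nat_lit 1) (nat_lit 0x4002000200080c1782)))) (.nd (nat_lit 10) 
(.nd (nat_lit 18) 
(.lf (nat_lit 3624034539) (dlOf (nat_lit 3) (nat_lit 0xb40000007e02005c0000003b8180b0480))) 
(.lf (nat_lit 1346789611) (dlOf (nat_lit 1) (nat_lit 0x3c00400260009001e82)))) 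
(.lf (nat_lit 1409445099) (dlOf (nat_lit 1) (nat_lit 0x5c00200100008006502))))) (.nd (nat_lit 5) 
(.nd (nat_lit 9) (.lf (nat_lit 3489823947) (dlOf (nat_lit 1) (nat_lit 0x60004002c001800c202))) 
(.lf (nat_lit 3154279115) (dlOf (nat_lit 1) (nat_lit 0x2001815b981)))) (.nd (nat_lit 9) 
(.nd (nat_lit 27) 
(.lf (nat_lit 3020061931) (dlOf (nat_lit 1) (nat_lit 0x800800140020002000812c603))) 
(.lf (nat_lit 3154279659) (dlOf (nat_lit 1) (nat_lit 0x1000800040020004000815c603)))) 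
(.lf (nat_lit 3154279147) (dlOf (nat_lit 1) (nat_lit 0x2001815b981)))))) (.nd (nat_lit 11) 
(.nd (nat_lit 19) (.nd (nat_lit 10) (.nd (nat_lit 18) 
(.lf (nat_lit 4228014571) (dlOf (nat_lit 1) (nat_lit 0xa0008017301))) 
(.lf (nat_lit 3624296939) (dlOf (nat_lit 3) (nat_lit 0x4301b8000b80801e80dc0005a04000c00200120008157302)))) 
(.lf (nat_lit 1476814315) (dlOf (nat_lit 3) (nat_lit 0x80740023b02000c0430001010000200300045c0c000400200060008203602)))) 
(.nd (nat_lit 5) (.lf (nat_lit 5772304843) (dlOf (nat_lit 2) (nat_lit 0x41310000a018091100))) 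
(.nd (nat_lit 9) (.lf (nat_lit 1346266603) (dlOf (nat_lit 1) (nat_lit 0x20028e83601))) 
(.lf (nat_lit 472802283) (dlOf (nat_lit 1) (nat_lit 0x18008000800200040008b02883)))))) 
(.nd (nat_lit 21) (.nd (nat_lit 9) 
(.lf (nat_lit 3489820139) (dlOf (nat_lit 2) (nat_lit 0x260d600006818006e80))) 
(.lf (nat_lit 3020061675) (dlOf (nat_lit 1) (nat_lit 0x40040002000812bf02)))) (.nd (nat_lit 5) 
(.lf (nat_lit 1344694731) (dlOf (nat_lit 1) (nat_lit 0x8008000400200020008984e83))) 
(.lf (nat_lit 5773617643) (dlOf (nat_lit 1) (nat_lit 0x2a00180e4f01)))))))))) (.nd (nat_lit 6) 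
(.nd (nat_lit 5) (.nd (nat_lit 26) (.nd (nat_lit 18) (.nd (nat_lit 19) (.nd (nat_lit 30) 
(.nd (nat_lit 8) (.nd (nat_lit 20) (.nd (nat_lit 21) (.nd (nat_lit 27) 
(.lf (nat_lit 2953011211) (dlOf (nat_lit 12) (nat_lit 0x154038007001b004c28201e900e00048c080f80070002420400e4038001110201de01c0007d01019f00e0003740808f80700380036000d704015401c01a100d800070100dc007006740360001704036e01c00cf00d80005410102007006f8036026601800090078000002000e800800dc00201e80008080483))) 
(.lf (nat_lit 134438923) (dlOf (nat_lit 1) (nat_lit 0x1f00080148002002e0008020483)))) 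
(.lf (nat_lit 44261387) (dlOf (nat_lit 1) (nat_lit 0xd0002005400092e0002)))) 
(.lf (nat_lit 18046987) (dlOf (nat_lit 1) (nat_lit 0x2e0008900581)))) (.nd (nat_lit 9) 
(.lf (nat_lit 28533003) (dlOf (nat_lit 1) (nat_lit 0x20028da0701))) 
(.lf (nat_lit 2818800395) (dlOf (nat_lit 6) (nat_lit 0x880d8001805800040220051983000b01b000080880132408003006c00991020016036004c581000b01b0025f008018800804500020004000812b983))))) 
(.nd (nat_lit 7) (.nd (nat_lit 9) 
(.lf (nat_lit 3490930699) (dlOf (nat_lit 4) (nat_lit 0x180f680030560001240800103da00281580002d02000e0f68001640800500080048002004a0008030483))) 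
(.lf (nat_lit 4026753547) (dlOf (nat_lit 2) (nat_lit 0x442036021301580be009000cc01a001650801820028090d81)))) 
(.nd (nat_lit 8) (.nd (nat_lit 29) 
(.lf (nat_lit 1208183435) (dlOf (nat_lit 1) (nat_lit 0x400200020008095482))) 
(.lf (nat_lit 1745054347) (dlOf (nat_lit 1) (nat_lit 0x8008000400200020008095483)))) 
(.lf (nat_lit 3221450123) (dlOf (nat_lit 1) (nat_lit 0x400200020008116c82)))))) (.nd (nat_lit 21) 
(.nd (nat_lit 20) (.nd (nat_lit 28) 
(.lf (nat_lit 537616395) (dlOf (nat_lit 1) (nat_lit 0xcc004002e00080d0482))) 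
(.lf (nat_lit 1342922763) (dlOf (nat_lit 1) (nat_lit 0x170008007c002023e0008110a03)))) 
(.lf (nat_lit 22765579) (dlOf (nat_lit 1) (nat_lit 0x8008000400200020008b20083)))) 
(.nd (nat_lit 10) (.lf (nat_lit 28008459) (dlOf (nat_lit 1) (nat_lit 0x20028d50101))) 
(.nd (nat_lit 11) (.lf (nat_lit 36398091) (dlOf (nat_lit 1) (nat_lit 0x20019072881))) 
(.lf (nat_lit 54225931) (dlOf (nat_lit 1) (nat_lit 0x18008004400200080009655f83))))))) 
(.nd (nat_lit 20) (.nd (nat_lit 22) (.nd (nat_lit 8) 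
(.lf (nat_lit 5906063371) (dlOf (nat_lit 1) (nat_lit 0x3000200020008190a02))) (.nd (nat_lit 19) 
(.lf (nat_lit 3892797707) (dlOf (nat_lit 1) (nat_lit 0x8008000c00200020008280703))) 
(.lf (nat_lit 1345282315) (dlOf (nat_lit 2) (nat_lit 0x4059400008040034002000c0008b47402))))) 
(.nd (nat_lit 19) (.nd (nat_lit 21) 
(.lf (nat_lit 3494338571) (dlOf (nat_lit 3) (nat_lit 0x2c0a8007cd020002054003e5818200a00))) 
(.lf (nat_lit 15163403) (dlOf (nat_lit 2) (nat_lit 0x1e86ac0179e040004004000e00087c0482)))) 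
(.lf (nat_lit 13590539) (dlOf (nat_lit 1) (nat_lit 0xe80080090002004c0008730483))))) 
(.nd (nat_lit 23) (.nd (nat_lit 19) (.nd (nat_lit 22) 
(.lf (nat_lit 3629067) (dlOf (nat_lit 1) (nat_lit 0xe0018210681))) 
(.lf (nat_lit 24600587) (dlOf (nat_lit 1) (nat_lit 0x200080008002000a0008ba0003)))) 
(.lf (nat_lit 25124875) (dlOf (nat_lit 1) (nat_lit 0x1800800cc002002c0008be0803)))) 
(.nd (nat_lit 19) (.nd (nat_lit 21) 
(.lf (nat_lit 9920523) (dlOf (nat_lit 1) (nat_lit 0x780080004002000a0008590083))) 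
(.lf (nat_lit 49766411) (dlOf (nat_lit 1) (nat_lit 0x4004000200094b0102)))) 
(.lf (nat_lit 14639115) (dlOf (nat_lit 1) (nat_lit 0x8008000400200020008770003))))))) 
(.nd (nat_lit 27) (.nd (nat_lit 9) (.nd (nat_lit 18) (.nd (nat_lit 19) (.nd (nat_lit 20) 
(.lf (nat_lit 604200971) (dlOf (nat_lit 10) (nat_lit 0x301d0030640800100f00167e04005807800a9c02000803c0051781000401e0028b00800780f00134804013c0780009302006e03c0004081009600b000c0054024800e010000600a9000000000280060008016400200aa0008080483))) 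
(.lf (nat_lit 2752733195) (dlOf (nat_lit 4) (nat_lit 0x180ff80030574001240800103fe002815d0002c02000e0ff80015c0800500080048002004a0008030483)))) 
(.nd (nat_lit 20) (.lf (nat_lit 1410031627) (dlOf (nat_lit 1) (nat_lit 0xcc004002e00080d0482))) 
(.lf (nat_lit 4095434763) (dlOf (nat_lit 1) (nat_lit 0x1b100080b20002070800080b0a03))))) 
(.nd (nat_lit 20) (.nd (nat_lit 22) 
(.lf (nat_lit 6510043147) (dlOf (nat_lit 1) (nat_lit 0x3000200020008190a02))) 
(.lf (nat_lit 2756141067) (dlOf (nat_lit 3) (nat_lit 0x2c0a800d48020002054006a3018200a00)))) 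
(.lf (nat_lit 2752995339) (dlOf (nat_lit 2) (nat_lit 0x615c00193818070500))))) (.nd (nat_lit 7) 
(.nd (nat_lit 8) (.lf (nat_lit 2214814219) (dlOf (nat_lit 1) (nat_lit 0x1a00280a1481))) 
(.lf (nat_lit 2751686411) (dlOf (nat_lit 2) (nat_lit 0x187fc0004804000c00400040018003b82)))) 
(.nd (nat_lit 8) 
(.lf (nat_lit 6241348235) (dlOf (nat_lit 1) (nat_lit 0x100080004002000200080d5483))) 
(.lf (nat_lit 2754575243) (dlOf (nat_lit 1) (nat_lit 0x200180fbc81)))))) (.nd (nat_lit 19) 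
(.nd (nat_lit 30) (.nd (nat_lit 18) (.nd (nat_lit 32) 
(.lf (nat_lit 201547787) (dlOf (nat_lit 1) (nat_lit 0x1f00080148002002e0008020483))) 
(.lf (nat_lit 4496515083) (dlOf (nat_lit 1) (nat_lit 0x1600180b0a01)))) 
(.lf (nat_lit 1009213451) (dlOf (nat_lit 1) (nat_lit 0x48004001200090a0002)))) (.nd (nat_lit 7) 
(.nd (nat_lit 9) (.lf (nat_lit 3691208715) (dlOf (nat_lit 1) (nat_lit 0x3c00080a0481))) 
(.lf (nat_lit 3422778891) (dlOf (nat_lit 2) (nat_lit 0x80c8014f0040040004002a00180a9c02)))) 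
(.lf (nat_lit 3959906699) (dlOf (nat_lit 1) (nat_lit 0x20008002400200020008170783))))) 
(.nd (nat_lit 8) (.nd (nat_lit 7) (.nd (nat_lit 29) 
(.lf (nat_lit 470507531) (dlOf (nat_lit 1) (nat_lit 0x170008007c002023e0008110a03))) 
(.lf (nat_lit 3154862091) (dlOf (nat_lit 1) (nat_lit 0x2c00400160008350002)))) 
(.lf (nat_lit 1007640715) (dlOf (nat_lit 1) (nat_lit 0x8004000400086b0482)))) (.nd (nat_lit 18) 
(.lf (nat_lit 473653515) (dlOf (nat_lit 1) (nat_lit 0x680008f83a01))) 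
(.lf (nat_lit 472867083) (dlOf (nat_lit 1) (nat_lit 0x800400040008b47402)))))))) (.nd (nat_lit 19) 
(.nd (nat_lit 8) (.nd (nat_lit 18) (.nd (nat_lit 27) (.nd (nat_lit 7) (.nd (nat_lit 20) 
(.nd (nat_lit 23) 
(.lf (nat_lit 1342398507) (dlOf (nat_lit 3) (nat_lit 0x1111b8005340800306040000004002000400200008020502))) 
(.lf (nat_lit 25387051) (dlOf (nat_lit 2) (nat_lit 0x6465f8000cc0800d8008007000200260008c00603)))) 
(.lf (nat_lit 26435627) (dlOf (nat_lit 3) (nat_lit 0x2a96402754500002c040010a5900015818c50380)))) 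
(.nd (nat_lit 11) (.lf (nat_lit 28532907) (dlOf (nat_lit 1) (nat_lit 0xc00018da0481))) 
(.lf (nat_lit 227499) (dlOf (nat_lit 1) (nat_lit 0x10002800a881))))) (.nd (nat_lit 26) 
(.nd (nat_lit 7) (.lf (nat_lit 134438955) (dlOf (nat_lit 1) (nat_lit 0x1400400060008020502))) 
(.lf (nat_lit 1745054379) (dlOf (nat_lit 1) (nat_lit 0x60002002a0008095682)))) (.nd (nat_lit 28) 
(.lf (nat_lit 201547819) (dlOf (nat_lit 1) (nat_lit 0x1400400060008020502))) 
(.lf (nat_lit 469983275) (dlOf (nat_lit 3) (nat_lit 0x1111b8005e00800305f00000004002000400200008020502)))))) 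
(.nd (nat_lit 20) (.nd (nat_lit 26) 
(.lf (nat_lit 4027015211) (dlOf (nat_lit 1) (nat_lit 0xa00281b0001))) 
(.lf (nat_lit 4362559531) (dlOf (nat_lit 1) (nat_lit 0x68008000400200020008090003)))) 
(.nd (nat_lit 21) (.nd (nat_lit 23) 
(.lf (nat_lit 2752995371) (dlOf (nat_lit 8) (nat_lit 0x470140000140101150a0000074080cf07e800b83c800aa15501c60a800b604f0078427000a01370000607001109c00002c0804b054000a827000008040402150018c09c00000c1003b054800000040078004000e0008070802))) 
(.lf (nat_lit 9920555) (dlOf (nat_lit 1) (nat_lit 0x20018590b81)))) 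
(.lf (nat_lit 49766443) (dlOf (nat_lit 1) (nat_lit 0x4004000200094b0902)))))) (.nd (nat_lit 7) 
(.nd (nat_lit 11) (.nd (nat_lit 18) (.nd (nat_lit 20) 
(.lf (nat_lit 1008951595) (dlOf (nat_lit 1) (nat_lit 0x1400400020019000b02))) 
(.lf (nat_lit 28533035) (dlOf (nat_lit 1) (nat_lit 0x620018da0701)))) 
(.lf (nat_lit 4228342059) (dlOf (nat_lit 1) (nat_lit 0x400400020008090502)))) (.nd (nat_lit 10) 
(.lf (nat_lit 2885904683) (dlOf (nat_lit 1) (nat_lit 0x80028144b81))) 
(.lf (nat_lit 3490147627) (dlOf (nat_lit 2) (nat_lit 0x1022c0003a04001000400140008006802))))) 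
(.nd (nat_lit 27) (.nd (nat_lit 18) (.nd (nat_lit 28) 
(.lf (nat_lit 537092523) (dlOf (nat_lit 1) (nat_lit 0x8008000400200020008017183))) 
(.lf (nat_lit 4026753451) (dlOf (nat_lit 2) (nat_lit 0x3403600da6818090780)))) 
(.lf (nat_lit 3221709227) (dlOf (nat_lit 1) (nat_lit 0x880080098002002e0008170783)))) 
(.nd (nat_lit 9) (.lf (nat_lit 4698106283) (dlOf (nat_lit 1) (nat_lit 0x2a0018124e81))) 
(.nd (nat_lit 26) 
(.lf (nat_lit 671311787) (dlOf (nat_lit 4) (nat_lit 0x40120004005c000340800140480018017000800780006018002008c002c02e000e00f000800480002c200108008001000200320008144303))) 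
(.lf (nat_lit 3959646123) (dlOf (nat_lit 1) (nat_lit 0x20028114301)))))))) (.nd (nat_lit 21) 
(.nd (nat_lit 26) (.nd (nat_lit 18) (.nd (nat_lit 22) 
(.lf (nat_lit 537616427) (dlOf (nat_lit 2) (nat_lit 0xe00b6006205600bc011800180800005c100004004001000180d0a82))) 
(.lf (nat_lit 21717035) (dlOf (nat_lit 6) (nat_lit 0x204ec000520400102760002802000813b0000601000509d80002c0800284ec0001004005400200100008a60d02)))) 
(.nd (nat_lit 20) 
(.lf (nat_lit 13590571) (dlOf (nat_lit 1) (nat_lit 0x98008004000200360008730a83))) 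
(.lf (nat_lit 27222059) (dlOf (nat_lit 1) (nat_lit 0x8008031800200020008cc0803))))) 
(.nd (nat_lit 7) (.nd (nat_lit 20) 
(.lf (nat_lit 1410031659) (dlOf (nat_lit 2) (nat_lit 0xe00b6006205600bc0118001808000056100004004001000180d0a82))) 
(.lf (nat_lit 4095434795) (dlOf (nat_lit 2) (nat_lit 0x15800000000040058002001200080b0d02)))) 
(.lf (nat_lit 4362824107) (dlOf (nat_lit 1) (nat_lit 0xbc0008000400200020008114e83))))) 
(.nd (nat_lit 23) (.nd (nat_lit 20) (.nd (nat_lit 26) (.nd (nat_lit 31) 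
(.lf (nat_lit 1345019947) (dlOf (nat_lit 1) (nat_lit 0x200189d0901))) 
(.lf (nat_lit 3492503595) (dlOf (nat_lit 2) (nat_lit 0x8608a000158180d0a80)))) 
(.lf (nat_lit 2754306091) (dlOf (nat_lit 2) (nat_lit 0x86087000170180d0a80)))) (.nd (nat_lit 7) 
(.lf (nat_lit 25124907) (dlOf (nat_lit 2) (nat_lit 0x65ce8000a20400a800200560008be0c02))) 
(.lf (nat_lit 8085931) (dlOf (nat_lit 1) (nat_lit 0x68008000400200020008511003))))) 
(.nd (nat_lit 24) (.nd (nat_lit 7) 
(.lf (nat_lit 11231275) (dlOf (nat_lit 1) (nat_lit 0x20018670601))) 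
(.lf (nat_lit 48982443) (dlOf (nat_lit 1) (nat_lit 0x20019464e81)))) (.nd (nat_lit 18) 
(.lf (nat_lit 29057067) (dlOf (nat_lit 3) (nat_lit 0x557300008808001ab980003804000c004000c0018db0e02))) 
(.lf (nat_lit 28270635) (dlOf (nat_lit 2) (nat_lit 0x9a96c0000004001000400100018d70902))))))))) 
(.nd (nat_lit 18) (.nd (nat_lit 31) (.nd (nat_lit 28) (.nd (nat_lit 20) (.nd (nat_lit 9) 
(.nd (nat_lit 19) (.nd (nat_lit 21) 
(.lf (nat_lit 1812160587) (dlOf (nat_lit 1) (nat_lit 0xa8002001e0008160902))) 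
(.lf (nat_lit 14901323) (dlOf (nat_lit 1) (nat_lit 0xe0028790681)))) (.nd (nat_lit 21) 
(.lf (nat_lit 537616459) (dlOf (nat_lit 3) (nat_lit 0x4080fc0009e04042c0b00003a02000a00180d0d01))) 
(.lf (nat_lit 2842699) (dlOf (nat_lit 1) (nat_lit 0x2c00181c0d01))))) (.nd (nat_lit 7) 
(.nd (nat_lit 21) 
(.lf (nat_lit 537092683) (dlOf (nat_lit 2) (nat_lit 0x10084000d004002000400120008018d02))) 
(.lf (nat_lit 23290443) (dlOf (nat_lit 1) (nat_lit 0x300002018e0008b81182)))) 
(.lf (nat_lit 8614603) (dlOf (nat_lit 1) (nat_lit 0x400200020008518c82))))) (.nd (nat_lit 5) 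
(.nd (nat_lit 7) (.nd (nat_lit 9) 
(.lf (nat_lit 43212875) (dlOf (nat_lit 1) (nat_lit 0x4002000200092a0002))) 
(.lf (nat_lit 9658955) (dlOf (nat_lit 4) (nat_lit 0x1a784200d37210001c82002ad650017ca7c0003c08009b7b20000002001a0018578d01)))) 
(.nd (nat_lit 9) (.lf (nat_lit 9658571) (dlOf (nat_lit 1) (nat_lit 0x58008001400200100008571783))) 
(.lf (nat_lit 20148939) (dlOf (nat_lit 1) (nat_lit 0x4002000200089d8c82))))) (.nd (nat_lit 8) 
(.nd (nat_lit 9) 
(.lf (nat_lit 45834347) (dlOf (nat_lit 2) (nat_lit 0x299f80005804000c00200060009360a02))) 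
(.lf (nat_lit 8087147) (dlOf (nat_lit 1) (nat_lit 0x400200020008513902)))) 
(.lf (nat_lit 13853035) (dlOf (nat_lit 1) (nat_lit 0xa0008750a01)))))) (.nd (nat_lit 10) 
(.nd (nat_lit 30) (.nd (nat_lit 19) (.nd (nat_lit 26) 
(.lf (nat_lit 939745355) (dlOf (nat_lit 1) (nat_lit 0xa8002001e0008160902))) 
(.lf (nat_lit 335765579) (dlOf (nat_lit 1) (nat_lit 0x20028090001)))) 
(.lf (nat_lit 472604747) (dlOf (nat_lit 5) (nat_lit 0x180000009602000e00000046810008000000214080048000001080400b8002004c00089c0602)))) 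
(.nd (nat_lit 5) (.nd (nat_lit 7) 
(.lf (nat_lit 1410031691) (dlOf (nat_lit 3) (nat_lit 0x4080fc000ac04042c0b00004102000a00180d0d01))) 
(.lf (nat_lit 1346593739) (dlOf (nat_lit 1) (nat_lit 0x80018fe2881)))) 
(.lf (nat_lit 6241348203) (dlOf (nat_lit 1) (nat_lit 0x4004000200080d5382))))) (.nd (nat_lit 7) 
(.nd (nat_lit 26) (.lf (nat_lit 805530955) (dlOf (nat_lit 1) (nat_lit 0x2c00200100008116a02))) 
(.lf (nat_lit 1543728459) (dlOf (nat_lit 1) (nat_lit 0x20018146a01)))) (.nd (nat_lit 5) 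
(.lf (nat_lit 5637366987) (dlOf (nat_lit 1) (nat_lit 0xe8002001a00080d2d82))) 
(.lf (nat_lit 1543728363) (dlOf (nat_lit 1) (nat_lit 0x400200020008146502))))))) (.nd (nat_lit 8) 
(.nd (nat_lit 9) (.nd (nat_lit 19) (.nd (nat_lit 7) (.nd (nat_lit 26) 
(.lf (nat_lit 3490930763) (dlOf (nat_lit 1) (nat_lit 0x10008000400200160008030f83))) 
(.lf (nat_lit 2752733259) (dlOf (nat_lit 1) (nat_lit 0x10008000400200160008030f83)))) 
(.lf (nat_lit 3355664587) (dlOf (nat_lit 1) (nat_lit 0x1e00280b3a81)))) (.nd (nat_lit 5) 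
(.nd (nat_lit 26) (.lf (nat_lit 3492503627) (dlOf (nat_lit 2) (nat_lit 0xca0000002b0180d0d00))) 
(.lf (nat_lit 2754306123) (dlOf (nat_lit 2) (nat_lit 0xca000000278180d0d00)))) 
(.lf (nat_lit 4096483435) (dlOf (nat_lit 1) (nat_lit 0x8008000c00200020008120a83))))) 
(.nd (nat_lit 12) (.nd (nat_lit 26) (.nd (nat_lit 27) 
(.lf (nat_lit 4026753611) (dlOf (nat_lit 1) (nat_lit 0x660018091181))) 
(.lf (nat_lit 3087229515) (dlOf (nat_lit 2) (nat_lit 0x1f402a0003902002e0008158d01)))) 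
(.lf (nat_lit 3288556107) (dlOf (nat_lit 1) (nat_lit 0x660018091181)))) (.nd (nat_lit 5) 
(.lf (nat_lit 3556995787) (dlOf (nat_lit 1) (nat_lit 0x15400400520008128c82))) 
(.lf (nat_lit 3892540011) (dlOf (nat_lit 1) (nat_lit 0x8008000400200020008158983)))))) 
(.nd (nat_lit 27) (.nd (nat_lit 7) (.nd (nat_lit 5) 
(.lf (nat_lit 3489889611) (dlOf (nat_lit 1) (nat_lit 0xa80080054002005e000800c903))) 
(.lf (nat_lit 2755879275) (dlOf (nat_lit 1) (nat_lit 0x80080004002000200081b0703)))) 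
(.nd (nat_lit 19) (.nd (nat_lit 28) 
(.lf (nat_lit 3825426923) (dlOf (nat_lit 5) (nat_lit 0x940160002e02003a00b0001681000e00580009c08006802c0004c04011000400860008157302))) 
(.lf (nat_lit 2483249643) (dlOf (nat_lit 1) (nat_lit 0x20028090d01)))) 
(.lf (nat_lit 2753257963) (dlOf (nat_lit 1) (nat_lit 0x20018090d01))))) (.nd (nat_lit 5) 
(.nd (nat_lit 7) (.lf (nat_lit 2885904715) (dlOf (nat_lit 1) (nat_lit 0x20018144d81))) 
(.nd (nat_lit 9) (.lf (nat_lit 2818799051) (dlOf (nat_lit 1) (nat_lit 0x1000400060008129a82))) 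
(.lf (nat_lit 2818797515) (dlOf (nat_lit 1) (nat_lit 0x60018127a81))))) (.nd (nat_lit 10) 
(.lf (nat_lit 2349031915) (dlOf (nat_lit 1) (nat_lit 0x20028090d01))) 
(.lf (nat_lit 3624103403) (dlOf (nat_lit 3) (nat_lit 0xa020000600d800140000000d060018040000d01b000000100108008003400200060008146e83)))))))) 
(.nd (nat_lit 19) (.nd (nat_lit 5) (.nd (nat_lit 7) (.nd (nat_lit 25) (.nd (nat_lit 8) 
(.lf (nat_lit 1009213515) (dlOf (nat_lit 5) (nat_lit 0x39038c002860402001c60013b0200e20e3000668100710718003300801100080024002005600090a0603))) 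
(.nd (nat_lit 9) (.lf (nat_lit 488779) (dlOf (nat_lit 1) (nat_lit 0x20028009901))) 
(.lf (nat_lit 20409163) (dlOf (nat_lit 1) (nat_lit 0x4002000200089d5c02))))) (.nd (nat_lit 20) 
(.nd (nat_lit 21) (.lf (nat_lit 34037835) (dlOf (nat_lit 1) (nat_lit 0x20028f90601))) 
(.lf (nat_lit 48717899) (dlOf (nat_lit 1) (nat_lit 0x800400040019420602)))) 
(.lf (nat_lit 37183563) (dlOf (nat_lit 4) (nat_lit 0x240000004681000100000021408000800000108040144002002600090b0602))))) 
(.nd (nat_lit 10) (.nd (nat_lit 11) (.nd (nat_lit 26) 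
(.lf (nat_lit 805790155) (dlOf (nat_lit 2) (nat_lit 0x2240ac0030053003d0098000001801980080060002000200081a0983))) 
(.lf (nat_lit 1678205387) (dlOf (nat_lit 2) (nat_lit 0x2240ac0030053003d0098000001801980080060002000200081a0983)))) 
(.lf (nat_lit 57108939) (dlOf (nat_lit 1) (nat_lit 0x1c0029794e81)))) (.nd (nat_lit 8) 
(.lf (nat_lit 43476171) (dlOf (nat_lit 1) (nat_lit 0xc002000200092a2d82))) 
(.lf (nat_lit 486859) (dlOf (nat_lit 1) (nat_lit 0x140018006d01)))))) (.nd (nat_lit 29) 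
(.nd (nat_lit 28) (.nd (nat_lit 8) 
(.lf (nat_lit 48717931) (dlOf (nat_lit 1) (nat_lit 0x160009420a01))) 
(.lf (nat_lit 488811) (dlOf (nat_lit 1) (nat_lit 0x20028009901)))) (.nd (nat_lit 27) 
(.lf (nat_lit 2416402795) (dlOf (nat_lit 1) (nat_lit 0x8002000600081b0702))) 
(.lf (nat_lit 2550620523) (dlOf (nat_lit 1) (nat_lit 0x8002000600081b0702))))) (.nd (nat_lit 8) 
(.nd (nat_lit 7) 
(.lf (nat_lit 1009213547) (dlOf (nat_lit 1) (nat_lit 0xa00080054002002e00090a0a03))) 
(.lf (nat_lit 1009213675) (dlOf (nat_lit 1) (nat_lit 0x4002000800090a1e82)))) (.nd (nat_lit 26) 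
(.lf (nat_lit 805790059) (dlOf (nat_lit 2) (nat_lit 0x30220001010c001805a0001206000400081a0701))) 
(.lf (nat_lit 1678205291) (dlOf (nat_lit 2) (nat_lit 0x30220001010c001805a0001206000400081a0701))))))) 
(.nd (nat_lit 7) (.nd (nat_lit 20) (.nd (nat_lit 21) (.nd (nat_lit 9) (.nd (nat_lit 23) 
(.lf (nat_lit 21979211) (dlOf (nat_lit 1) (nat_lit 0x8008000800200020008a80f83))) 
(.lf (nat_lit 13590603) (dlOf (nat_lit 2) (nat_lit 0x11f18c008b7ac000400400040028730d01)))) 
(.lf (nat_lit 2752471627) (dlOf (nat_lit 14) (nat_lit 0x2541ff005d0ff012a87a407903d0058c15d025f0ae00d605080990282000681001aa1ff02840ae80190570000ce0c03743fe00241e8028b0ae801a8570000cc1004a43fe005c1fe01920f4803507a00b142ba04bc15c01830a101338504000842003443fe01ac1e9027e0ae801a8508000821003543fe01841e902830ae8109857001a0284003a1410001f8601fa102005407e001003c4014c1e0001d0b48157856409fc2ae00f013a020809a80008c4801e07e009482b203061570001103012a0fc001d07800ccc2b2061a15700ab09a8000782802987e009ac2b2045e157006109a8000702001b07e009442b20001b0401f01570000d01001909e800000080f4800805b40020d480008018d03))))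 
(.nd (nat_lit 5) (.lf (nat_lit 57632075) (dlOf (nat_lit 1) (nat_lit 0x20002002c0009793302))) 
(.nd (nat_lit 11) (.lf (nat_lit 19886187) (dlOf (nat_lit 1) (nat_lit 0x80080004002000400089d7d83))) 
(.lf (nat_lit 3492767851) (dlOf (nat_lit 2) (nat_lit 0x10048000eb02001600080f4701)))))) 
(.nd (nat_lit 5) (.nd (nat_lit 21) 
(.lf (nat_lit 43999307) (dlOf (nat_lit 1) (nat_lit 0x30004001e00092a0002))) (.nd (nat_lit 24) 
(.lf (nat_lit 473915467) (dlOf (nat_lit 3) (nat_lit 0x1e15f001f0af0029835c0070136004608b000ab05000b06c8000000800b0008001400200160008fc0603))) 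
(.lf (nat_lit 20930635) (dlOf (nat_lit 1) (nat_lit 0x180080010002000a00089f0603))))) 
(.lf (nat_lit 8352363) (dlOf (nat_lit 1) (nat_lit 0x18004000a0008518982))))) (.nd (nat_lit 5) 
(.nd (nat_lit 21) (.nd (nat_lit 20) 
(.lf (nat_lit 26173643) (dlOf (nat_lit 1) (nat_lit 0x70008000800200080008c10483))) 
(.lf (nat_lit 2056395) (dlOf (nat_lit 1) (nat_lit 0x20028150481)))) (.nd (nat_lit 8) 
(.lf (nat_lit 19886795) (dlOf (nat_lit 1) (nat_lit 0x4004000200089d8c82))) 
(.lf (nat_lit 24076747) (dlOf (nat_lit 2) (nat_lit 0x40000000002003c0008b80981))))) 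
(.nd (nat_lit 8) (.nd (nat_lit 12) 
(.lf (nat_lit 8348907) (dlOf (nat_lit 1) (nat_lit 0x160028512e81))) 
(.lf (nat_lit 19887339) (dlOf (nat_lit 2) (nat_lit 0x2760c00cfc040008004001800189d9502)))) 
(.nd (nat_lit 9) 
(.lf (nat_lit 3490669035) (dlOf (nat_lit 5) (nat_lit 0xa703cc0002202001c1e60000f01029a0f30000700813507980003604010800400460008017302))) 
(.lf (nat_lit 8348651) (dlOf (nat_lit 1) (nat_lit 0x400200020008512882))))))))))) (.nd (nat_lit 16) 
(.nd (nat_lit 5) (.nd (nat_lit 18) (.nd (nat_lit 6) (.nd (nat_lit 19) (.nd (nat_lit 27) 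
(.nd (nat_lit 20) (.nd (nat_lit 29) (.nd (nat_lit 22) (.nd (nat_lit 21) 
(.lf (nat_lit 67264527) (dlOf (nat_lit 2) (nat_lit 0x20b6000000080010008000c00200040008090183))) 
(.lf (nat_lit 27418639) (dlOf (nat_lit 1) (nat_lit 0x28008000800200060008ce0183)))) 
(.nd (nat_lit 7) (.lf (nat_lit 12738575) (dlOf (nat_lit 1) (nat_lit 0x1800186e0481))) 
(.lf (nat_lit 1346527631) (dlOf (nat_lit 1) (nat_lit 0x200028f95d81))))) (.nd (nat_lit 7) 
(.nd (nat_lit 26) 
(.lf (nat_lit 2684510223) (dlOf (nat_lit 7) (nat_lit 0x61002c0008c0400140160004502000c032000200100340190000f00800100cc0005e040058066000140200860028080181))) 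
(.lf (nat_lit 5167538191) (dlOf (nat_lit 1) (nat_lit 0x10008000800200020008090083)))) 
(.lf (nat_lit 4831994255) (dlOf (nat_lit 1) (nat_lit 0x800200020008085d82))))) (.nd (nat_lit 31) 
(.nd (nat_lit 7) (.lf (nat_lit 22175759) (dlOf (nat_lit 1) (nat_lit 0x8008000400200020008aa0a03))) 
(.lf (nat_lit 11690127) (dlOf (nat_lit 1) (nat_lit 0x30008002c002001200086c0103)))) 
(.nd (nat_lit 26) 
(.lf (nat_lit 3490865167) (dlOf (nat_lit 3) (nat_lit 0x7203f000100e0069141001e00fc002c03801a430400220008030881))) 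
(.lf (nat_lit 2752667663) (dlOf (nat_lit 3) (nat_lit 0x7203f000100e0076a81001e00fc002c03801da80400220008030881)))))) 
(.nd (nat_lit 28) (.nd (nat_lit 26) (.nd (nat_lit 7) 
(.lf (nat_lit 2281857039) (dlOf (nat_lit 3) (nat_lit 0x601c0002301000700e000114080020008000800200060008080183))) 
(.lf (nat_lit 3892476303) (dlOf (nat_lit 1) (nat_lit 0x1000800040020004000815af83)))) 
(.nd (nat_lit 10) 
(.lf (nat_lit 3422707727) (dlOf (nat_lit 3) (nat_lit 0x1d800b00023010001005800114080678008015400200020008060183))) 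
(.lf (nat_lit 1275225103) (dlOf (nat_lit 1) (nat_lit 0xc00200080008092882))))) (.nd (nat_lit 7) 
(.nd (nat_lit 10) (.lf (nat_lit 4160905231) (dlOf (nat_lit 1) (nat_lit 0x20018060181))) 
(.lf (nat_lit 5771521039) (dlOf (nat_lit 1) (nat_lit 0x400200020008005f82)))) 
(.lf (nat_lit 5234647439) (dlOf (nat_lit 1) (nat_lit 0x20018075d81)))))) (.nd (nat_lit 28) 
(.nd (nat_lit 20) (.nd (nat_lit 23) (.nd (nat_lit 8) 
(.lf (nat_lit 2754240527) (dlOf (nat_lit 1) (nat_lit 0x80080038002000800080d0883))) 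
(.lf (nat_lit 36332815) (dlOf (nat_lit 1) (nat_lit 0x4002000c0009073002)))) (.nd (nat_lit 24) 
(.lf (nat_lit 11165711) (dlOf (nat_lit 2) (nat_lit 0x94aa000460200020008660181))) 
(.lf (nat_lit 27942927) (dlOf (nat_lit 2) (nat_lit 0x953a80022c080010008000800200140008d40183))))) 
(.nd (nat_lit 10) (.nd (nat_lit 21) 
(.lf (nat_lit 26894351) (dlOf (nat_lit 1) (nat_lit 0x8008000400200020008c90183))) 
(.lf (nat_lit 16408591) (dlOf (nat_lit 4) (nat_lit 0x7e4f0003f03000187d5000e3ea00009e180004efe00247310004487000c3ea80071f500020f2a0002794000c398800220280051f540030fa80002786001139880021c2000500080020002000200088a0183)))) 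
(.nd (nat_lit 8) (.lf (nat_lit 20605967) (dlOf (nat_lit 1) (nat_lit 0x8004000200089d5f82))) 
(.lf (nat_lit 20606223) (dlOf (nat_lit 1) (nat_lit 0xc004000200089d6702)))))) (.nd (nat_lit 21) 
(.nd (nat_lit 27) (.lf (nat_lit 3557449743) (dlOf (nat_lit 1) (nat_lit 0x20018200181))) 
(.lf (nat_lit 3154796559) (dlOf (nat_lit 2) (nat_lit 0x4c02c0070b018330a00)))) (.nd (nat_lit 26) 
(.nd (nat_lit 31) 
(.lf (nat_lit 1344954383) (dlOf (nat_lit 2) (nat_lit 0x380f80070502000200189a0001))) 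
(.lf (nat_lit 3492438031) (dlOf (nat_lit 1) (nat_lit 0x80080038002000800080d0883)))) 
(.lf (nat_lit 472539151) (dlOf (nat_lit 1) (nat_lit 0x200189b0201))))))) (.nd (nat_lit 30) 
(.nd (nat_lit 26) (.nd (nat_lit 19) (.nd (nat_lit 9) 
(.lf (nat_lit 2147639375) (dlOf (nat_lit 1) (nat_lit 0x18008001800200060008090003))) 
(.nd (nat_lit 20) (.lf (nat_lit 58878543) (dlOf (nat_lit 1) (nat_lit 0x4002000200097e5282))) 
(.lf (nat_lit 32664143) (dlOf (nat_lit 1) (nat_lit 0x20018ef5281))))) (.nd (nat_lit 7) 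
(.nd (nat_lit 23) (.lf (nat_lit 20602959) (dlOf (nat_lit 1) (nat_lit 0x200289d0001))) 
(.lf (nat_lit 45768783) (dlOf (nat_lit 1) (nat_lit 0x3c002000e0009360702)))) 
(.lf (nat_lit 23749071) (dlOf (nat_lit 1) (nat_lit 0x400200020008b80a02))))) (.nd (nat_lit 8) 
(.nd (nat_lit 19) (.nd (nat_lit 10) 
(.lf (nat_lit 2752667727) (dlOf (nat_lit 2) (nat_lit 0x3c03f00027818031000))) 
(.lf (nat_lit 3020059727) (dlOf (nat_lit 1) (nat_lit 0x20028129301)))) (.nd (nat_lit 21) 
(.lf (nat_lit 4362756175) (dlOf (nat_lit 2) (nat_lit 0x140198000400800980080028002000a00080f1903))) 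
(.lf (nat_lit 2754240591) (dlOf (nat_lit 2) (nat_lit 0x301080009e04000c002000200080d0d02))))) 
(.nd (nat_lit 7) (.lf (nat_lit 469918031) (dlOf (nat_lit 1) (nat_lit 0x7a0008014c81))) 
(.lf (nat_lit 2751621071) (dlOf (nat_lit 5) (nat_lit 0x30648000440800f8324007c17200380a5001f0028000402000183240001e04000819a00040a800006828004480)))))) 
(.nd (nat_lit 29) (.nd (nat_lit 7) (.nd (nat_lit 31) (.nd (nat_lit 8) 
(.lf (nat_lit 1476550735) (dlOf (nat_lit 1) (nat_lit 0x30008000800200380008050703))) 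
(.lf (nat_lit 1342333263) (dlOf (nat_lit 1) (nat_lit 0x7a0008014c81)))) (.nd (nat_lit 19) 
(.lf (nat_lit 3490865231) (dlOf (nat_lit 2) (nat_lit 0x3c03f0002b018031000))) 
(.lf (nat_lit 3492438095) (dlOf (nat_lit 2) (nat_lit 0x30108000ac04000c002000200080d0d02))))) 
(.nd (nat_lit 8) (.lf (nat_lit 5637301455) (dlOf (nat_lit 1) (nat_lit 0x4002000200080d2d82))) 
(.lf (nat_lit 1543663055) (dlOf (nat_lit 1) (nat_lit 0x60008146d01))))) (.nd (nat_lit 7) 
(.nd (nat_lit 8) 
(.lf (nat_lit 4228538447) (dlOf (nat_lit 3) (nat_lit 0x381300b580580001b04009602c0000d0180f1580))) 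
(.nd (nat_lit 10) (.lf (nat_lit 1677879631) (dlOf (nat_lit 2) (nat_lit 0x404c0000d818114d80))) 
(.lf (nat_lit 1611294031) (dlOf (nat_lit 2) (nat_lit 0x9010800078080030008000400200060008123303))))) 
(.nd (nat_lit 9) (.lf (nat_lit 3758256335) (dlOf (nat_lit 1) (nat_lit 0xe0018128001))) 
(.lf (nat_lit 3758256847) (dlOf (nat_lit 1) (nat_lit 0x498008000400200b00008128c83)))))))) 
(.nd (nat_lit 28) (.nd (nat_lit 20) (.nd (nat_lit 6) (.nd (nat_lit 26) (.nd (nat_lit 23) 
(.nd (nat_lit 27) (.lf (nat_lit 6442868751) (dlOf (nat_lit 2) (nat_lit 0xa000000a68181e0080))) 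
(.lf (nat_lit 2818990095) (dlOf (nat_lit 4) (nat_lit 0x1c03f0000a01001e035003180fc000260800180d4000403f00009028140200)))) 
(.nd (nat_lit 7) (.nd (nat_lit 19) 
(.lf (nat_lit 44457999) (dlOf (nat_lit 1) (nat_lit 0x400400020009310082))) 
(.lf (nat_lit 47079439) (dlOf (nat_lit 1) (nat_lit 0x200193a0001)))) 
(.lf (nat_lit 8807823) (dlOf (nat_lit 1) (nat_lit 0x400200020008513602))))) (.nd (nat_lit 27) 
(.nd (nat_lit 10) (.nd (nat_lit 19) 
(.lf (nat_lit 3288752143) (dlOf (nat_lit 11) (nat_lit 0x650100038804406f201f00d208300a1020007180880e0803e01a3f06003002400cf80100250120067b4080140090033b804002c048019da02000e02000cb58100060100065a80800300800324a040024024009400201b800280d0881))) 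
(.lf (nat_lit 68050959) (dlOf (nat_lit 2) (nat_lit 0x216b0001d8183d0100)))) 
(.lf (nat_lit 2751882255) (dlOf (nat_lit 1) (nat_lit 0x20018002881)))) (.nd (nat_lit 9) 
(.lf (nat_lit 4496711695) (dlOf (nat_lit 1) (nat_lit 0x80018140a01))) 
(.lf (nat_lit 2886099471) (dlOf (nat_lit 9) (nat_lit 0x6a0370025e0100200220001810c008c0780118037001c01a80118000009761800cc088006804300bb01f001b00f0022c06e0040035001b0000012e83804380dc0096204011806e004b00200940370025381009201b8012980804780dc0094a04025c004020e0018158402)))))) 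
(.nd (nat_lit 8) (.nd (nat_lit 10) (.nd (nat_lit 19) 
(.lf (nat_lit 1074159695) (dlOf (nat_lit 1) (nat_lit 0x200180c1901))) 
(.lf (nat_lit 21913679) (dlOf (nat_lit 1) (nat_lit 0x80080048002001a0008a81003)))) 
(.lf (nat_lit 19821647) (dlOf (nat_lit 1) (nat_lit 0x4002000200089d9302)))) (.nd (nat_lit 7) 
(.nd (nat_lit 19) (.lf (nat_lit 2886099279) (dlOf (nat_lit 1) (nat_lit 0x4400200420008154c82))) 
(.lf (nat_lit 3039567) (dlOf (nat_lit 1) (nat_lit 0x20018200601)))) 
(.lf (nat_lit 21389775) (dlOf (nat_lit 1) (nat_lit 0x1000400020018a37102)))))) (.nd (nat_lit 22) 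
(.nd (nat_lit 7) (.nd (nat_lit 19) (.nd (nat_lit 25) 
(.lf (nat_lit 2752929807) (dlOf (nat_lit 2) (nat_lit 0x4021d0007e018060480))) 
(.lf (nat_lit 35020815) (dlOf (nat_lit 1) (nat_lit 0x80008fc0201)))) 
(.lf (nat_lit 52322319) (dlOf (nat_lit 2) (nat_lit 0x13a940004a04000400400020019520202)))) 
(.nd (nat_lit 6) (.lf (nat_lit 43410831) (dlOf (nat_lit 1) (nat_lit 0xa00292a3601))) 
(.lf (nat_lit 43934159) (dlOf (nat_lit 3) (nat_lit 0x2ce7000150100066738000740800600080004002000800092a1103))))) 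
(.nd (nat_lit 21) (.nd (nat_lit 6) 
(.lf (nat_lit 5660687) (dlOf (nat_lit 2) (nat_lit 0xc0000005d02004400183b0201))) 
(.lf (nat_lit 14049487) (dlOf (nat_lit 2) (nat_lit 0x11fbc00096040018002000a0008750482)))) 
(.nd (nat_lit 8) (.lf (nat_lit 8283663) (dlOf (nat_lit 1) (nat_lit 0xe0018513681))) 
(.lf (nat_lit 41312527) (dlOf (nat_lit 1) (nat_lit 0xa00080040002008e0009237403))))))) 
(.nd (nat_lit 27) (.nd (nat_lit 6) (.nd (nat_lit 20) (.nd (nat_lit 29) 
(.lf (nat_lit 4563820559) (dlOf (nat_lit 2) (nat_lit 0x1018803760080120008002000200aa00080f0a03))) 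
(.lf (nat_lit 4026949647) (dlOf (nat_lit 11) (nat_lit 0x650100038804406f201f00ed30300a1020007180880e0803e01da406003002400ea681002501200752408014009003a8604002c04801d3f02000e02000e6881000601000733c0800300800391204002402400de40201b800280d0881)))) 
(.nd (nat_lit 19) (.lf (nat_lit 3491127311) (dlOf (nat_lit 2) (nat_lit 0x40208000c6018060480))) 
(.lf (nat_lit 3491651599) (dlOf (nat_lit 1) (nat_lit 0x400400020018090002))))) (.nd (nat_lit 10) 
(.nd (nat_lit 20) 
(.lf (nat_lit 3490603471) (dlOf (nat_lit 1) (nat_lit 0x8008000400200020008017103))) 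
(.lf (nat_lit 1346265551) (dlOf (nat_lit 13) (nat_lit 0x1c00e0003f02000e0070001e8100020038000d808004001c0006a04001800e00034020004007000168100070038000a808003001c0004004002400e0001d02000e0070000601000700380002408003001c0000004002400400020008e81102)))) 
(.lf (nat_lit 3490082255) (dlOf (nat_lit 1) (nat_lit 0x80018006d01))))) (.nd (nat_lit 30) 
(.nd (nat_lit 21) (.nd (nat_lit 26) 
(.lf (nat_lit 4698038287) (dlOf (nat_lit 2) (nat_lit 0x10188024d0080120008002000200aa00080f0a03))) 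
(.lf (nat_lit 2617663503) (dlOf (nat_lit 2) (nat_lit 0xc000000000200060008130101)))) 
(.nd (nat_lit 6) (.lf (nat_lit 473326607) (dlOf (nat_lit 1) (nat_lit 0x400400020008ef2882))) 
(.lf (nat_lit 472279631) (dlOf (nat_lit 1) (nat_lit 0x800400040018985282))))) (.nd (nat_lit 26) 
(.nd (nat_lit 6) (.lf (nat_lit 5771783183) (dlOf (nat_lit 1) (nat_lit 0x400200020008005f82))) 
(.lf (nat_lit 3624296783) (dlOf (nat_lit 1) (nat_lit 0x4400200420008154c82)))) (.nd (nat_lit 29) 
(.lf (nat_lit 5838888975) (dlOf (nat_lit 2) (nat_lit 0xa0000005d8181e0080))) 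
(.lf (nat_lit 4228276239) (dlOf (nat_lit 1) (nat_lit 0xb8008000400200180008090003))))))))) 
(.nd (nat_lit 28) (.nd (nat_lit 7) (.nd (nat_lit 18) (.nd (nat_lit 26) (.nd (nat_lit 20) 
(.nd (nat_lit 31) (.nd (nat_lit 6) (.nd (nat_lit 22) 
(.lf (nat_lit 1073897519) (dlOf (nat_lit 1) (nat_lit 0x640028020581))) 
(.lf (nat_lit 29515823) (dlOf (nat_lit 1) (nat_lit 0x20008000400200020008e10803)))) 
(.lf (nat_lit 4295123055) (dlOf (nat_lit 1) (nat_lit 0x400400020008090002)))) (.nd (nat_lit 9) 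
(.nd (nat_lit 19) (.lf (nat_lit 2281857071) (dlOf (nat_lit 1) (nat_lit 0x800400020018080d82))) 
(.lf (nat_lit 3221905455) (dlOf (nat_lit 7) (nat_lit 0x130038000700b00015810028010c021807000cc0000002a83002501c000150080928118005c08600053040002045000098100c8023000000080038008000c002003200081b0683)))) 
(.lf (nat_lit 2147641903) (dlOf (nat_lit 1) (nat_lit 0x18008002800200020008095183))))) 
(.nd (nat_lit 21) (.nd (nat_lit 24) 
(.lf (nat_lit 47341615) (dlOf (nat_lit 6) (nat_lit 0x22f080015748000e304000ebd300075de00022e90001d68800076080004bd300015de0004ae90001568800075080008bd300025de00042e9000216880007408000cbd300055de00042e9000256880007308000400093d0d01))) 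
(.lf (nat_lit 30564399) (dlOf (nat_lit 1) (nat_lit 0x1800400020008e40e82)))) (.nd (nat_lit 6) 
(.lf (nat_lit 20605487) (dlOf (nat_lit 1) (nat_lit 0x200189d5181))) 
(.lf (nat_lit 24273007) (dlOf (nat_lit 2) (nat_lit 0x10c6c00030040010002000c0008b91582)))))) 
(.nd (nat_lit 29) (.nd (nat_lit 27) 
(.lf (nat_lit 2214748207) (dlOf (nat_lit 1) (nat_lit 0xc0028090681))) (.nd (nat_lit 30) 
(.lf (nat_lit 4496449583) (dlOf (nat_lit 1) (nat_lit 0x400400020008070482))) 
(.lf (nat_lit 5570191407) (dlOf (nat_lit 1) (nat_lit 0x8008000400200020008070483))))) 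
(.nd (nat_lit 19) (.nd (nat_lit 8) 
(.lf (nat_lit 6107062319) (dlOf (nat_lit 5) (nat_lit 0x220160000e81003400b000880500002008003402c0000f02000c02f006500b002a80540164028003801200010078013800c000181c00b800400760018040382))) 
(.lf (nat_lit 2885837103) (dlOf (nat_lit 2) (nat_lit 0x160000002d8180b0500)))) (.nd (nat_lit 21) 
(.lf (nat_lit 3960102959) (dlOf (nat_lit 7) (nat_lit 0x130038000700b00015810028010c021807000cc0000002a83002501c000150080928118005c08600053040002045000098100c8023000000080038008000c002003200081b0683))) 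
(.lf (nat_lit 2754240559) (dlOf (nat_lit 1) (nat_lit 0x600180d0b01))))))) (.nd (nat_lit 19) 
(.nd (nat_lit 23) (.nd (nat_lit 26) 
(.lf (nat_lit 3355861039) (dlOf (nat_lit 1) (nat_lit 0x2000200120008130682))) 
(.lf (nat_lit 3288752175) (dlOf (nat_lit 10) (nat_lit 0x600460001c02087a023011d00f80006810039008c00032040d1c0460001802019e0230000b8100d50100008802c0001a08006803a0000302017c020000010100b201000098074000020801e400400a200080d0b02)))) 
(.nd (nat_lit 9) (.lf (nat_lit 30826543) (dlOf (nat_lit 1) (nat_lit 0x20018e50b81))) 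
(.lf (nat_lit 42363439) (dlOf (nat_lit 1) (nat_lit 0x1c0029245181))))) (.nd (nat_lit 8) 
(.nd (nat_lit 26) (.nd (nat_lit 20) 
(.lf (nat_lit 21913647) (dlOf (nat_lit 1) (nat_lit 0x400400020008a80c82))) 
(.lf (nat_lit 4087855) (dlOf (nat_lit 1) (nat_lit 0x20008000c00200040008280683)))) (.nd (nat_lit 9) 
(.lf (nat_lit 68050991) (dlOf (nat_lit 2) (nat_lit 0xe83680005a040078002000200083d0682))) 
(.lf (nat_lit 2752406063) (dlOf (nat_lit 1) (nat_lit 0x8008000400200020008018b03))))) 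
(.nd (nat_lit 6) (.nd (nat_lit 20) 
(.lf (nat_lit 537813295) (dlOf (nat_lit 1) (nat_lit 0x38004001000081b0502))) 
(.lf (nat_lit 46031151) (dlOf (nat_lit 1) (nat_lit 0x20029380b01)))) 
(.lf (nat_lit 19823983) (dlOf (nat_lit 1) (nat_lit 0x80080004002000200089dc903))))))) 
(.nd (nat_lit 21) (.nd (nat_lit 8) (.nd (nat_lit 12) (.nd (nat_lit 6) 
(.lf (nat_lit 9593007) (dlOf (nat_lit 1) (nat_lit 0x20018571581))) 
(.lf (nat_lit 2885837039) (dlOf (nat_lit 2) (nat_lit 0x1a00000003b8180b0480)))) (.nd (nat_lit 9) 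
(.nd (nat_lit 11) (.lf (nat_lit 3758256303) (dlOf (nat_lit 1) (nat_lit 0xe0018127e01))) 
(.lf (nat_lit 3892476079) (dlOf (nat_lit 1) (nat_lit 0x1c001815a881)))) 
(.lf (nat_lit 3758256815) (dlOf (nat_lit 1) (nat_lit 0x20018128c81))))) (.nd (nat_lit 6) 
(.nd (nat_lit 9) (.nd (nat_lit 11) 
(.lf (nat_lit 3959841199) (dlOf (nat_lit 1) (nat_lit 0x480080020002001a0008170783))) 
(.lf (nat_lit 42101167) (dlOf (nat_lit 1) (nat_lit 0x800400040009244e82)))) 
(.lf (nat_lit 671246255) (dlOf (nat_lit 1) (nat_lit 0xd0008001000200100008144383)))) 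
(.nd (nat_lit 18) (.lf (nat_lit 59927535) (dlOf (nat_lit 1) (nat_lit 0x800802b800200940009845f03))) 
(.lf (nat_lit 46558191) (dlOf (nat_lit 1) (nat_lit 0x800800d0002002e0009385f03)))))) 
(.nd (nat_lit 6) (.nd (nat_lit 8) (.nd (nat_lit 18) 
(.lf (nat_lit 48391343) (dlOf (nat_lit 9) (nat_lit 0x2a2000021018005e7410002f8300034400001a03000c8e82001a7090002e84000544000022030000b2080011174000a880000440600015c18000a20000cce820005204000a880000440600149d04000960c000d100000480c00019820018440000da0300006008000400400700019402c02))) 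
(.lf (nat_lit 41837743) (dlOf (nat_lit 1) (nat_lit 0x8008003400200020009242c03)))) 
(.nd (nat_lit 11) (.lf (nat_lit 69624239) (dlOf (nat_lit 1) (nat_lit 0x6800400040008b76e82))) 
(.lf (nat_lit 49179055) (dlOf (nat_lit 1) (nat_lit 0x400200020009464e82))))) (.nd (nat_lit 9) 
(.nd (nat_lit 11) 
(.lf (nat_lit 11690479) (dlOf (nat_lit 2) (nat_lit 0x277c630107deb0005441000100080004002005800086c0d83))) 
(.lf (nat_lit 40790511) (dlOf (nat_lit 1) (nat_lit 0x4004001000191f4f02)))) (.nd (nat_lit 8) 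
(.lf (nat_lit 20603631) (dlOf (nat_lit 1) (nat_lit 0x300080010002000400089d2103))) 
(.nd (nat_lit 18) 
(.lf (nat_lit 20605935) (dlOf (nat_lit 1) (nat_lit 0x28008000c002000400089d5f03))) 
(.lf (nat_lit 54422511) (dlOf (nat_lit 1) (nat_lit 0xc0029655f01))))))))) (.nd (nat_lit 26) 
(.nd (nat_lit 31) (.nd (nat_lit 27) (.nd (nat_lit 29) (.nd (nat_lit 7) (.nd (nat_lit 18) 
(.lf (nat_lit 268591151) (dlOf (nat_lit 4) (nat_lit 0x4200b0026005402ac02800ba0130001004005f00a00004c0800a8050000180400fc00200280008090382))) 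
(.lf (nat_lit 5637562415) (dlOf (nat_lit 1) (nat_lit 0x20018110d01)))) 
(.lf (nat_lit 5637301679) (dlOf (nat_lit 1) (nat_lit 0x4800280d3601)))) (.nd (nat_lit 6) 
(.lf (nat_lit 6174171183) (dlOf (nat_lit 1) (nat_lit 0x8008000400200020008070483))) 
(.nd (nat_lit 8) (.lf (nat_lit 5100429423) (dlOf (nat_lit 1) (nat_lit 0x760008080a81))) 
(.lf (nat_lit 805469551) (dlOf (nat_lit 2) (nat_lit 0x1205600150098019881000d80080030002001a000811c903)))))) 
(.nd (nat_lit 6) (.nd (nat_lit 9) (.nd (nat_lit 19) 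
(.lf (nat_lit 1476550703) (dlOf (nat_lit 1) (nat_lit 0xa0018050481))) 
(.lf (nat_lit 5772042287) (dlOf (nat_lit 3) (nat_lit 0xc030000e302000602800039818050d00)))) 
(.lf (nat_lit 5771782703) (dlOf (nat_lit 1) (nat_lit 0x400400020008005182)))) 
(.lf (nat_lit 5234647407) (dlOf (nat_lit 1) (nat_lit 0x8008008000200100008075803))))) 
(.nd (nat_lit 30) (.nd (nat_lit 27) (.nd (nat_lit 32) 
(.lf (nat_lit 2416074799) (dlOf (nat_lit 1) (nat_lit 0x400200220008030c82))) 
(.lf (nat_lit 6711042095) (dlOf (nat_lit 5) (nat_lit 0x220160000e81003400b000880500002008003402c0000f02000c02d006500b002a80540164028003801200010078013800c000181c00b800400760018040382)))) 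
(.lf (nat_lit 2550292527) (dlOf (nat_lit 1) (nat_lit 0x400200220008030c82)))) (.nd (nat_lit 8) 
(.nd (nat_lit 9) (.nd (nat_lit 18) 
(.lf (nat_lit 3492438063) (dlOf (nat_lit 1) (nat_lit 0x600180d0b01))) 
(.lf (nat_lit 4026949679) (dlOf (nat_lit 10) (nat_lit 0x600460001c02087a023011d00f80006810039008c00032040d1c0460001802019e0230000b8100d50100008802c0001a08006803a0000302017c020000010100b201000098074000020801e400400a200080d0b02)))) 
(.lf (nat_lit 3490603567) (dlOf (nat_lit 9) (nat_lit 0xe875000383a60066158000d0ab80020504000d01400142b000067020004158000330100010ea00020560000880800043a8003c158000d0a080010818002878800302a8003c1350001203000e0aa0000880800085500003c04000400400160008018002)))) 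
(.nd (nat_lit 6) (.lf (nat_lit 3489820079) (dlOf (nat_lit 1) (nat_lit 0x400400020008006d02))) 
(.lf (nat_lit 3491914095) (dlOf (nat_lit 1) (nat_lit 0x20028090781))))))) (.nd (nat_lit 30) 
(.nd (nat_lit 12) (.nd (nat_lit 32) (.nd (nat_lit 9) (.nd (nat_lit 19) 
(.lf (nat_lit 470966319) (dlOf (nat_lit 1) (nat_lit 0x20018210901))) 
(.lf (nat_lit 3154796591) (dlOf (nat_lit 5) (nat_lit 0x1203700100100008007c0044032001c01800007050017010000b80640001808003406e0044020002200f8011006400800300000a0a000402100120100009007c004c03200200180002004800000300038008000800200180008330b83)))) 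
(.lf (nat_lit 472279599) (dlOf (nat_lit 1) (nat_lit 0x20028985181)))) (.nd (nat_lit 27) 
(.lf (nat_lit 4630667311) (dlOf (nat_lit 4) (nat_lit 0x188058002800a0002304001e0050001101000b0028000300800f8008013800200460008040383))) 
(.lf (nat_lit 4764885039) (dlOf (nat_lit 4) (nat_lit 0x188058002800a0002304001e0050001101000b0028000300800f8008013800200460008040383))))) 
(.nd (nat_lit 7) (.nd (nat_lit 10) 
(.lf (nat_lit 3154276655) (dlOf (nat_lit 1) (nat_lit 0x20018158081))) 
(.lf (nat_lit 3020061999) (dlOf (nat_lit 1) (nat_lit 0x4001812c701)))) (.nd (nat_lit 6) 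
(.nd (nat_lit 8) (.lf (nat_lit 3020059311) (dlOf (nat_lit 1) (nat_lit 0x20018128c81))) 
(.lf (nat_lit 3154276783) (dlOf (nat_lit 2) (nat_lit 0x70238001100800200080020002000c0008158483)))) 
(.lf (nat_lit 3154279663) (dlOf (nat_lit 1) (nat_lit 0x1000800040020004000815c603)))))) 
(.nd (nat_lit 18) (.nd (nat_lit 19) (.nd (nat_lit 9) (.nd (nat_lit 27) 
(.lf (nat_lit 1946312751) (dlOf (nat_lit 1) (nat_lit 0x640028020581))) 
(.lf (nat_lit 3691143215) (dlOf (nat_lit 1) (nat_lit 0x1000200040008050482)))) 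
(.lf (nat_lit 4228014639) (dlOf (nat_lit 9) (nat_lit 0x6c0000007a8100120230000bc0800080c40004804003809a00020310001182000d02680007c0800a814800b009a003c0490013024000980f4004c0760026038001001b000980d40010062003e02b0000f0b000a026800100ac0003a0800600620001b0200920008018001)))) 
(.nd (nat_lit 31) 
(.lf (nat_lit 6376022063) (dlOf (nat_lit 3) (nat_lit 0xc030000e30200060280003c018050d00))) 
(.lf (nat_lit 4228538415) (dlOf (nat_lit 1) (nat_lit 0x800180f0e81))))) (.nd (nat_lit 6) 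
(.nd (nat_lit 9) (.lf (nat_lit 6241542191) (dlOf (nat_lit 1) (nat_lit 0x20018110d01))) 
(.lf (nat_lit 4096157231) (dlOf (nat_lit 1) (nat_lit 0x4004000200080e3782)))) 
(.lf (nat_lit 4228276335) (dlOf (nat_lit 1) (nat_lit 0x160018090001))))))))) (.nd (nat_lit 5) 
(.nd (nat_lit 18) (.nd (nat_lit 26) (.nd (nat_lit 11) (.nd (nat_lit 19) (.nd (nat_lit 21) 
(.nd (nat_lit 27) (.nd (nat_lit 28) (.nd (nat_lit 6) 
(.lf (nat_lit 537092623) (dlOf (nat_lit 3) (nat_lit 0xb02f80125008004817c00926040030002001a0008018402))) 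
(.lf (nat_lit 63135823) (dlOf (nat_lit 2) (nat_lit 0x1364ae000070199e0700)))) (.nd (nat_lit 20) 
(.lf (nat_lit 2953011215) (dlOf (nat_lit 2) (nat_lit 0x1000e000000080238008050400202040008080483))) 
(.lf (nat_lit 3490930703) (dlOf (nat_lit 3) (nat_lit 0x510ac000f9408027856000602ae003cf0400140008030881))))) 
(.nd (nat_lit 6) (.nd (nat_lit 28) 
(.lf (nat_lit 134438927) (dlOf (nat_lit 3) (nat_lit 0x170208018fc0800b810400c6604000c00400020008020482))) 
(.lf (nat_lit 1476616207) (dlOf (nat_lit 2) (nat_lit 0x2005c00000040084004002400080a0482)))) 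
(.lf (nat_lit 2818798927) (dlOf (nat_lit 1) (nat_lit 0x100080004002000c0008129903))))) 
(.nd (nat_lit 7) (.lf (nat_lit 10706959) (dlOf (nat_lit 1) (nat_lit 0x400200020008610202))) 
(.nd (nat_lit 8) (.lf (nat_lit 23289999) (dlOf (nat_lit 1) (nat_lit 0xf4002007c0008b80102))) 
(.lf (nat_lit 20148623) (dlOf (nat_lit 1) (nat_lit 0x4002000200089d8382)))))) (.nd (nat_lit 6) 
(.nd (nat_lit 22) (.nd (nat_lit 8) 
(.lf (nat_lit 537616399) (dlOf (nat_lit 3) (nat_lit 0x4205d00a902a0001811403b540c00b40ba017a054001d0228076a0180288008011c002004400080d0883))) 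
(.lf (nat_lit 745743) (dlOf (nat_lit 1) (nat_lit 0x260018013a01)))) (.nd (nat_lit 20) 
(.lf (nat_lit 21717007) (dlOf (nat_lit 10) (nat_lit 0x1427600dec02000613b006f581000109d8037a40800304ec01bce04000828a000c139000609a000283a401a9610000428a000a139000909a000403a401a94100004272000a13400080748035201800085140014272001213400070748035182000084e4012c2040008004000a0008a60a02))) 
(.lf (nat_lit 22765583) (dlOf (nat_lit 1) (nat_lit 0x28008001400200020008b20183))))) 
(.nd (nat_lit 20) (.nd (nat_lit 21) 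
(.lf (nat_lit 59465807) (dlOf (nat_lit 2) (nat_lit 0x64ae0000b019800700))) 
(.lf (nat_lit 53174351) (dlOf (nat_lit 1) (nat_lit 0x20019570001)))) 
(.lf (nat_lit 5773156431) (dlOf (nat_lit 2) (nat_lit 0x7004c0004202001600280b0681)))))) 
(.nd (nat_lit 7) (.nd (nat_lit 8) (.nd (nat_lit 6) (.nd (nat_lit 9) 
(.lf (nat_lit 5905803279) (dlOf (nat_lit 1) (nat_lit 0x400200020008144702))) 
(.lf (nat_lit 2818801167) (dlOf (nat_lit 3) (nat_lit 0x1206a0000c81000c03500005c080128008012c0020012000812ce03)))) 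
(.lf (nat_lit 2818800719) (dlOf (nat_lit 2) (nat_lit 0xe0360002011000000100088008015400200ae000812bf83)))) 
(.nd (nat_lit 9) 
(.lf (nat_lit 805530895) (dlOf (nat_lit 1) (nat_lit 0x20008000c00200040008116703))) 
(.lf (nat_lit 2818800399) (dlOf (nat_lit 1) (nat_lit 0x2001812ba01))))) (.nd (nat_lit 6) 
(.nd (nat_lit 9) (.nd (nat_lit 23) 
(.lf (nat_lit 1745054095) (dlOf (nat_lit 1) (nat_lit 0x20018094e81))) 
(.lf (nat_lit 58943887) (dlOf (nat_lit 1) (nat_lit 0x200197e4e81)))) 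
(.lf (nat_lit 46361487) (dlOf (nat_lit 1) (nat_lit 0xa0029385c81)))) (.nd (nat_lit 8) 
(.lf (nat_lit 3624103119) (dlOf (nat_lit 1) (nat_lit 0x80008146401))) (.nd (nat_lit 9) 
(.lf (nat_lit 3624103375) (dlOf (nat_lit 1) (nat_lit 0x60028146d01))) 
(.lf (nat_lit 2818800591) (dlOf (nat_lit 5) (nat_lit 0x301b0014400800580d8000a804002c06c0004302000206a000201b0000001000a800800640020022000812bf03)))))))) 
(.nd (nat_lit 29) (.nd (nat_lit 6) (.nd (nat_lit 27) (.nd (nat_lit 9) (.nd (nat_lit 19) 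
(.lf (nat_lit 68378639) (dlOf (nat_lit 1) (nat_lit 0x60008570001))) 
(.lf (nat_lit 1410031631) (dlOf (nat_lit 3) (nat_lit 0x4205d00a902a000181080348a0c00b40ba017a054001d02100690c180288008011c002004400080d0883)))) 
(.nd (nat_lit 7) (.lf (nat_lit 2214814223) (dlOf (nat_lit 1) (nat_lit 0x400280a1481))) 
(.lf (nat_lit 3556995727) (dlOf (nat_lit 2) (nat_lit 0x404600234818128c80))))) (.nd (nat_lit 28) 
(.nd (nat_lit 32) 
(.lf (nat_lit 201547791) (dlOf (nat_lit 3) (nat_lit 0x17020802f500800b81040179004000c00400020008020482))) 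
(.lf (nat_lit 4496515087) (dlOf (nat_lit 1) (nat_lit 0x800180b0a01)))) 
(.lf (nat_lit 3691208719) (dlOf (nat_lit 1) (nat_lit 0x16000800e000200da00080a0483))))) 
(.nd (nat_lit 7) (.nd (nat_lit 8) (.nd (nat_lit 12) 
(.lf (nat_lit 472604751) (dlOf (nat_lit 1) (nat_lit 0x14002001800089c0702))) 
(.lf (nat_lit 3556995151) (dlOf (nat_lit 2) (nat_lit 0xc0308011b40800d0008007400200440008127d83)))) 
(.lf (nat_lit 3556994895) (dlOf (nat_lit 1) (nat_lit 0x18008003000200540008127783)))) 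
(.nd (nat_lit 8) (.nd (nat_lit 9) 
(.lf (nat_lit 3556997327) (dlOf (nat_lit 1) (nat_lit 0x3800800400020060000812a883))) 
(.lf (nat_lit 3556995791) (dlOf (nat_lit 1) (nat_lit 0x3f800400d00008128c82)))) 
(.lf (nat_lit 1543728591) (dlOf (nat_lit 1) (nat_lit 0x1c0018146d01)))))) (.nd (nat_lit 28) 
(.nd (nat_lit 6) (.nd (nat_lit 9) (.nd (nat_lit 10) 
(.lf (nat_lit 2752733199) (dlOf (nat_lit 3) (nat_lit 0x510ae8025fc08027857400602b8009600400140008030881))) 
(.lf (nat_lit 1677943823) (dlOf (nat_lit 1) (nat_lit 0x20018112881)))) 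
(.lf (nat_lit 738943503) (dlOf (nat_lit 1) (nat_lit 0x20028157b81)))) (.nd (nat_lit 7) 
(.nd (nat_lit 8) (.lf (nat_lit 3959650383) (dlOf (nat_lit 1) (nat_lit 0x40040004001811a702))) 
(.lf (nat_lit 2885904719) (dlOf (nat_lit 3) (nat_lit 0x16020800014080050104000080400f0004001e0018144d82)))) 
(.nd (nat_lit 10) (.lf (nat_lit 2885903311) (dlOf (nat_lit 1) (nat_lit 0x1c00008142881))) 
(.lf (nat_lit 2885904335) (dlOf (nat_lit 4) (nat_lit 0x3803e001d01b8000441001c00f800e006e00260000000803001c01b80003c0801980080014002002e0008144483)))))) 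
(.nd (nat_lit 31) (.nd (nat_lit 6) 
(.lf (nat_lit 5301822479) (dlOf (nat_lit 1) (nat_lit 0xe0008092881))) (.nd (nat_lit 8) 
(.lf (nat_lit 6377136207) (dlOf (nat_lit 2) (nat_lit 0x7004c0004202001600280b0681))) 
(.lf (nat_lit 1008951631) (dlOf (nat_lit 1) (nat_lit 0x80019000d01))))) (.nd (nat_lit 6) 
(.lf (nat_lit 3154342031) (dlOf (nat_lit 1) (nat_lit 0x40018157d81))) (.nd (nat_lit 7) 
(.lf (nat_lit 4096483407) (dlOf (nat_lit 1) (nat_lit 0x800200020008120502))) 
(.lf (nat_lit 3020120271) (dlOf (nat_lit 2) (nat_lit 0x401d8001808c0000008005c00400680008130482))))))))) 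
(.nd (nat_lit 19) (.nd (nat_lit 6) (.nd (nat_lit 20) (.nd (nat_lit 26) (.nd (nat_lit 28) 
(.nd (nat_lit 22) (.lf (nat_lit 537354255) (dlOf (nat_lit 1) (nat_lit 0x20008090001))) 
(.lf (nat_lit 13066255) (dlOf (nat_lit 1) (nat_lit 0xc00186f0081)))) (.nd (nat_lit 7) 
(.lf (nat_lit 3624361999) (dlOf (nat_lit 3) (nat_lit 0x1c06c002800000d2282001600000690c080048008002400200460008170883))) 
(.lf (nat_lit 3490146703) (dlOf (nat_lit 1) (nat_lit 0x400200020008004e82))))) (.nd (nat_lit 31) 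
(.nd (nat_lit 21) 
(.lf (nat_lit 4362559503) (dlOf (nat_lit 1) (nat_lit 0x330008000400200500008090003))) 
(.lf (nat_lit 1009213455) (dlOf (nat_lit 1) (nat_lit 0x4002000a00090a0002)))) (.nd (nat_lit 30) 
(.lf (nat_lit 2886164495) (dlOf (nat_lit 3) (nat_lit 0x1c06c002800000ed50200160000076a0080048008002400200460008170883))) 
(.lf (nat_lit 3959906319) (dlOf (nat_lit 1) (nat_lit 0x20018170001)))))) (.nd (nat_lit 21) 
(.nd (nat_lit 23) (.nd (nat_lit 26) 
(.lf (nat_lit 1343709199) (dlOf (nat_lit 1) (nat_lit 0x80028340281))) 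
(.lf (nat_lit 2752995343) (dlOf (nat_lit 3) (nat_lit 0x168560004d60400482b2002490200020028070501)))) 
(.lf (nat_lit 9920527) (dlOf (nat_lit 1) (nat_lit 0x8008000400200020008590083)))) (.nd (nat_lit 22) 
(.lf (nat_lit 37183503) (dlOf (nat_lit 1) (nat_lit 0x1200190b0001))) 
(.lf (nat_lit 24600591) (dlOf (nat_lit 5) (nat_lit 0x12d1a000b6830007afe000018180025a500012d1a000b6830007afe000014200045a500022d1a00136830006afe00001020003da50001ed1a00136830007afe00000c2000d0008003800200080008ba0483)))))) 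
(.nd (nat_lit 8) (.nd (nat_lit 26) (.nd (nat_lit 22) 
(.lf (nat_lit 3624362063) (dlOf (nat_lit 2) (nat_lit 0x1180000008a04001400200220008171002))) 
(.lf (nat_lit 21454927) (dlOf (nat_lit 1) (nat_lit 0x10008000400200020008a40503)))) 
(.nd (nat_lit 20) (.nd (nat_lit 21) 
(.lf (nat_lit 2886164559) (dlOf (nat_lit 2) (nat_lit 0x1180000007c04001400200220008171002))) 
(.lf (nat_lit 1009213519) (dlOf (nat_lit 10) (nat_lit 0x4e0e30001f81020b0718000d8080c5838c0006a0403101c6000340203960e3000078101dd07180001c08028038c0000c0407641c60028076000018201d8071801301d80000008000c004003600090a0702)))) 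
(.lf (nat_lit 6376874063) (dlOf (nat_lit 1) (nat_lit 0x1400200020008090002))))) (.nd (nat_lit 7) 
(.nd (nat_lit 11) (.lf (nat_lit 484687) (dlOf (nat_lit 1) (nat_lit 0x120028003301))) 
(.lf (nat_lit 3490147663) (dlOf (nat_lit 6) (nat_lit 0x40890000a01000904480004c0800202240002204001c118000c08b000080200070460003822c0001c08002800400020018006a02)))) 
(.nd (nat_lit 20) (.nd (nat_lit 26) 
(.lf (nat_lit 805790159) (dlOf (nat_lit 7) (nat_lit 0x19027000e00dc0004008000c0aa004a04e000d025001800dc0003e10006009c0001e02003c04e001b01b800074100018138006c06e0001c0400120550024027001600dc000360c00cc004008800081a0a02))) 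
(.lf (nat_lit 1678205391) (dlOf (nat_lit 7) (nat_lit 0x19027000e00dc0004008000c0aa004a04e000d025001800dc0003e10006009c0001e02003c04e001b01b800074100018138006c06e0001c0400120550024027001600dc000360c00cc004008800081a0a02)))) 
(.lf (nat_lit 12018127) (dlOf (nat_lit 1) (nat_lit 0x4002000200086c0a02))))))) (.nd (nat_lit 20) 
(.nd (nat_lit 21) (.nd (nat_lit 23) (.nd (nat_lit 22) 
(.lf (nat_lit 17784847) (dlOf (nat_lit 1) (nat_lit 0x8008000c002000200088f0783))) 
(.lf (nat_lit 21979151) (dlOf (nat_lit 1) (nat_lit 0x20018a80881)))) (.nd (nat_lit 6) 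
(.lf (nat_lit 13590543) (dlOf (nat_lit 1) (nat_lit 0x800400040018730882))) 
(.lf (nat_lit 13590607) (dlOf (nat_lit 2) (nat_lit 0x1fc63000bdeb0001001000f8008002c00200720008730d03))))) 
(.nd (nat_lit 6) (.nd (nat_lit 8) (.nd (nat_lit 10) 
(.lf (nat_lit 3492767759) (dlOf (nat_lit 3) (nat_lit 0x1601d0002a81000201000013c0800d00080074002002200080f4703))) 
(.lf (nat_lit 3492766735) (dlOf (nat_lit 1) (nat_lit 0x4002000200080f2882)))) 
(.lf (nat_lit 1345282319) (dlOf (nat_lit 2) (nat_lit 0x2c2ca0004f0200100018b47401)))) 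
(.nd (nat_lit 8) (.lf (nat_lit 19886799) (dlOf (nat_lit 1) (nat_lit 0x80080004002000200089d8c83))) 
(.lf (nat_lit 24076751) (dlOf (nat_lit 1) (nat_lit 0x1b20028b80a01)))))) (.nd (nat_lit 6) 
(.nd (nat_lit 21) (.nd (nat_lit 8) (.nd (nat_lit 22) 
(.lf (nat_lit 27222031) (dlOf (nat_lit 1) (nat_lit 0x280018cc0281))) 
(.lf (nat_lit 23027727) (dlOf (nat_lit 1) (nat_lit 0x400400020008b40182)))) 
(.lf (nat_lit 1881105679) (dlOf (nat_lit 1) (nat_lit 0xd800401000008e23002)))) (.nd (nat_lit 7) 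
(.nd (nat_lit 10) 
(.lf (nat_lit 12541967) (dlOf (nat_lit 1) (nat_lit 0x200080010002000800086d0683))) 
(.lf (nat_lit 54488079) (dlOf (nat_lit 1) (nat_lit 0x8004000e0009655f82)))) 
(.lf (nat_lit 8349839) (dlOf (nat_lit 1) (nat_lit 0x20018514801))))) (.nd (nat_lit 27) 
(.nd (nat_lit 8) (.lf (nat_lit 69165135) (dlOf (nat_lit 1) (nat_lit 0xc004000200188c0702))) 
(.lf (nat_lit 1344233807) (dlOf (nat_lit 1) (nat_lit 0x20028520801)))) (.nd (nat_lit 21) 
(.lf (nat_lit 471818319) (dlOf (nat_lit 1) (nat_lit 0x1800400020008520182))) 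
(.lf (nat_lit 473915471) (dlOf (nat_lit 4) (nat_lit 0xa20af8095857804741ae024e09b01260458000582801b057c02c01ae0001504006015f00a006b8000001002b0008006c00200520008fc0703))))))))) 
(.nd (nat_lit 28) (.nd (nat_lit 6) (.nd (nat_lit 18) (.nd (nat_lit 11) (.nd (nat_lit 26) 
(.nd (nat_lit 19) (.nd (nat_lit 8) 
(.lf (nat_lit 134438959) (dlOf (nat_lit 3) (nat_lit 0x94012807a005e0002004026604a01ea01780006c10005800800d800200060008020583))) 
(.lf (nat_lit 1073963311) (dlOf (nat_lit 1) (nat_lit 0x100028048401)))) (.nd (nat_lit 24) 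
(.lf (nat_lit 537616431) (dlOf (nat_lit 2) (nat_lit 0x881140000004005800400b200180d0b02))) 
(.lf (nat_lit 17522735) (dlOf (nat_lit 1) (nat_lit 0x1600288e0001))))) (.nd (nat_lit 7) 
(.nd (nat_lit 27) (.nd (nat_lit 29) 
(.lf (nat_lit 4362297391) (dlOf (nat_lit 1) (nat_lit 0x18008003c00200060008020703))) 
(.lf (nat_lit 604201007) (dlOf (nat_lit 9) (nat_lit 0x500780001d0200ee03c005d01c80006c1002480f0008c0720001504031c03c001001c8000501002580f0000240400980780001102003803c0000801002b01e000080e40000008000400200020008080702)))) 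
(.lf (nat_lit 201547823) (dlOf (nat_lit 3) (nat_lit 0x94012807a005e0002004026604a01ea01780006c10005800800d800200060008020583)))) 
(.nd (nat_lit 19) (.lf (nat_lit 3288555951) (dlOf (nat_lit 2) (nat_lit 0x7003600bf0818090780))) 
(.lf (nat_lit 738943407) (dlOf (nat_lit 2) (nat_lit 0x2034002bc80800880080028002001c0008156e83)))))) 
(.nd (nat_lit 21) (.nd (nat_lit 7) (.nd (nat_lit 20) 
(.lf (nat_lit 58944047) (dlOf (nat_lit 1) (nat_lit 0x200197e5181))) 
(.lf (nat_lit 55798319) (dlOf (nat_lit 1) (nat_lit 0x200096d5181)))) 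
(.lf (nat_lit 50555311) (dlOf (nat_lit 1) (nat_lit 0x19c004000200094c4e82)))) (.nd (nat_lit 22) 
(.lf (nat_lit 35875375) (dlOf (nat_lit 1) (nat_lit 0x60009015181))) 
(.lf (nat_lit 48458287) (dlOf (nat_lit 1) (nat_lit 0xa0029405181)))))) (.nd (nat_lit 19) 
(.nd (nat_lit 29) (.nd (nat_lit 20) 
(.lf (nat_lit 4362559535) (dlOf (nat_lit 1) (nat_lit 0xc0028090001))) (.nd (nat_lit 24) 
(.lf (nat_lit 9920559) (dlOf (nat_lit 2) (nat_lit 0x5a3d0009d818590d00))) 
(.lf (nat_lit 26697775) (dlOf (nat_lit 1) (nat_lit 0xc00018c60d01))))) (.nd (nat_lit 7) 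
(.nd (nat_lit 26) (.lf (nat_lit 2819055663) (dlOf (nat_lit 1) (nat_lit 0x3c00400160008180d02))) 
(.lf (nat_lit 2886164527) (dlOf (nat_lit 1) (nat_lit 0x260008010000200d40008170c83)))) 
(.lf (nat_lit 537354415) (dlOf (nat_lit 1) (nat_lit 0x10002009e0008090302))))) (.nd (nat_lit 9) 
(.nd (nat_lit 7) (.nd (nat_lit 22) 
(.lf (nat_lit 20930607) (dlOf (nat_lit 1) (nat_lit 0x5c004000200189f0482))) 
(.lf (nat_lit 25124911) (dlOf (nat_lit 6) (nat_lit 0x7644c00530da0003604006d913003ec888019e1b40006a0c000f22600159110013c368000d01800de4440005604005b22600499110004c368000a8180010008004c002000a0008be0e83)))) 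
(.lf (nat_lit 36661679) (dlOf (nat_lit 1) (nat_lit 0x10008000400200020009074e83)))) 
(.nd (nat_lit 7) (.nd (nat_lit 11) 
(.lf (nat_lit 2752471599) (dlOf (nat_lit 2) (nat_lit 0x2159004cf018018b00))) 
(.lf (nat_lit 45050415) (dlOf (nat_lit 2) (nat_lit 0xcaf600046019325180)))) 
(.lf (nat_lit 19887791) (dlOf (nat_lit 1) (nat_lit 0x200189da001))))))) (.nd (nat_lit 19) 
(.nd (nat_lit 8) (.nd (nat_lit 7) (.nd (nat_lit 20) 
(.lf (nat_lit 44261487) (dlOf (nat_lit 1) (nat_lit 0x2200092e0c81))) 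
(.lf (nat_lit 24338543) (dlOf (nat_lit 1) (nat_lit 0x400400020008b91582)))) (.nd (nat_lit 18) 
(.lf (nat_lit 13852911) (dlOf (nat_lit 1) (nat_lit 0x20018750701))) 
(.lf (nat_lit 4362559727) (dlOf (nat_lit 1) (nat_lit 0xc00400040018090482))))) (.nd (nat_lit 26) 
(.nd (nat_lit 9) (.nd (nat_lit 11) 
(.lf (nat_lit 23290351) (dlOf (nat_lit 2) (nat_lit 0x1acc300119818b80d80))) 
(.lf (nat_lit 50817519) (dlOf (nat_lit 1) (nat_lit 0x1880080124002002a00094c4f03)))) 
(.lf (nat_lit 3892542447) (dlOf (nat_lit 1) (nat_lit 0x40040002000815bf02)))) (.nd (nat_lit 7) 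
(.lf (nat_lit 67330415) (dlOf (nat_lit 1) (nat_lit 0xe00280b0a01))) (.nd (nat_lit 9) 
(.lf (nat_lit 3288556015) (dlOf (nat_lit 1) (nat_lit 0x30002000e0008090d82))) 
(.lf (nat_lit 2751685615) (dlOf (nat_lit 1) (nat_lit 0x20028002881))))))) (.nd (nat_lit 7) 
(.nd (nat_lit 8) (.nd (nat_lit 11) 
(.lf (nat_lit 60514415) (dlOf (nat_lit 1) (nat_lit 0x2a0009880c81))) 
(.lf (nat_lit 19888239) (dlOf (nat_lit 2) (nat_lit 0xcd3f0052e0189da880)))) (.nd (nat_lit 18) 
(.lf (nat_lit 14377327) (dlOf (nat_lit 1) (nat_lit 0x40018750a01))) 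
(.lf (nat_lit 24076655) (dlOf (nat_lit 3) (nat_lit 0x1b85d00c2f01000ad108005a474030760800d000400020018b80782))))) 
(.nd (nat_lit 24) (.nd (nat_lit 9) 
(.lf (nat_lit 39545327) (dlOf (nat_lit 1) (nat_lit 0x400400020019194f02))) 
(.lf (nat_lit 36398063) (dlOf (nat_lit 1) (nat_lit 0x400200360009072882)))) (.nd (nat_lit 25) 
(.lf (nat_lit 20671471) (dlOf (nat_lit 1) (nat_lit 0x400189d5f01))) 
(.lf (nat_lit 54225903) (dlOf (nat_lit 1) (nat_lit 0x260019655f01)))))))) (.nd (nat_lit 26) 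
(.nd (nat_lit 8) (.nd (nat_lit 18) (.nd (nat_lit 21) (.nd (nat_lit 27) 
(.lf (nat_lit 1342398511) (dlOf (nat_lit 3) (nat_lit 0x222891c01f8486017623c01d311b8001074400cc38a006c1c1000c0dd8001484021e891c0210486019623c01c911b80198744002438a00701c1000c0dd8000d04008900080f0c00203b80008020583))) 
(.lf (nat_lit 1476616239) (dlOf (nat_lit 1) (nat_lit 0x6400280a0701)))) 
(.lf (nat_lit 1881366575) (dlOf (nat_lit 1) (nat_lit 0x400200020008ed0d02)))) (.nd (nat_lit 19) 
(.nd (nat_lit 27) (.lf (nat_lit 4027015215) (dlOf (nat_lit 1) (nat_lit 0x36c00400da00081b0002))) 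
(.lf (nat_lit 3624362031) (dlOf (nat_lit 1) (nat_lit 0x260008010000200d40008170c83)))) 
(.lf (nat_lit 1343184943) (dlOf (nat_lit 1) (nat_lit 0x20028190481))))) (.nd (nat_lit 10) 
(.nd (nat_lit 7) 
(.lf (nat_lit 2416402799) (dlOf (nat_lit 1) (nat_lit 0x80080008002000200081b0783))) 
(.nd (nat_lit 11) (.lf (nat_lit 4026753519) (dlOf (nat_lit 1) (nat_lit 0x30002000e0008090d82))) 
(.lf (nat_lit 1346857455) (dlOf (nat_lit 1) (nat_lit 0x40019044f01))))) (.nd (nat_lit 6) 
(.nd (nat_lit 12) (.lf (nat_lit 3489885615) (dlOf (nat_lit 1) (nat_lit 0x58004004c0018006d02))) 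
(.lf (nat_lit 3489889711) (dlOf (nat_lit 2) (nat_lit 0x280fd0000e00800480080020002003a000800cc03)))) 
(.nd (nat_lit 7) (.lf (nat_lit 3624103279) (dlOf (nat_lit 1) (nat_lit 0x20018146b01))) 
(.lf (nat_lit 3624103407) (dlOf (nat_lit 1) (nat_lit 0x20018146f01))))))) (.nd (nat_lit 27) 
(.nd (nat_lit 11) (.nd (nat_lit 7) (.nd (nat_lit 31) 
(.lf (nat_lit 1410031663) (dlOf (nat_lit 2) (nat_lit 0x881080000004005800400b200180d0b02))) 
(.lf (nat_lit 3557515311) (dlOf (nat_lit 2) (nat_lit 0x103080006c080010008000400200020008240903)))) 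
(.lf (nat_lit 1409769647) (dlOf (nat_lit 1) (nat_lit 0x10002009e0008090302)))) (.nd (nat_lit 6) 
(.nd (nat_lit 7) 
(.lf (nat_lit 4630735407) (dlOf (nat_lit 1) (nat_lit 0x8008000400200040008095183))) 
(.lf (nat_lit 3556994991) (dlOf (nat_lit 1) (nat_lit 0x10008013000200460008127a03)))) 
(.lf (nat_lit 3556997231) (dlOf (nat_lit 5) (nat_lit 0x1000e0005804400aa604002c0610007022800700e0005404400a5e08001c061000b01c000a0088014b80c00ec0c2007c060004101c002080880148e1000ac0020004000812a882))))) 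
(.nd (nat_lit 21) (.nd (nat_lit 30) (.nd (nat_lit 18) 
(.lf (nat_lit 469983279) (dlOf (nat_lit 3) (nat_lit 0x222891c01f8486017623c01d311b8001074400cc38a006c1c1000c0dd8001484021e891c0210486019623c01c911b80198744002438a00701c1000c0dd8000d04008900080f0c00203b80008020583))) 
(.lf (nat_lit 3154599983) (dlOf (nat_lit 1) (nat_lit 0x8008000400200020008280003)))) 
(.nd (nat_lit 9) 
(.lf (nat_lit 4228079663) (dlOf (nat_lit 1) (nat_lit 0x18008003c00200060008020703))) 
(.lf (nat_lit 6375564847) (dlOf (nat_lit 1) (nat_lit 0x400200020008003782))))) (.nd (nat_lit 7) 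
(.nd (nat_lit 18) (.lf (nat_lit 472604719) (dlOf (nat_lit 1) (nat_lit 0x200189c0301))) 
(.lf (nat_lit 1009213487) (dlOf (nat_lit 1) (nat_lit 0x74002003000090a0302)))) 
(.lf (nat_lit 473130159) (dlOf (nat_lit 2) (nat_lit 0xe607a00025818d12c00)))))))))))

end

end Pool.Agent.Lib.MP_5854e1_co.Cz

namespace Pool.Agent.Lib.MP_5854e1_co.Cz

noncomputable section

noncomputable def tz190 : DT := (.nd (nat_lit 3) (.nd (nat_lit 2) (.nd (nat_lit 6) 
(.nd (nat_lit 16) (.nd (nat_lit 19) (.nd (nat_lit 29) (.nd (nat_lit 18) (.nd (nat_lit 7) 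
(.nd (nat_lit 21) (.nd (nat_lit 26) 
(.lf (nat_lit 3624067075) (dlOf (nat_lit 1) (nat_lit 0x20018130001))) 
(.lf (nat_lit 3288522755) (dlOf (nat_lit 2) (nat_lit 0x280d40169004001800400060008060002)))) 
(.lf (nat_lit 14868483) (dlOf (nat_lit 1) (nat_lit 0x1c00400040008790002)))) (.nd (nat_lit 8) 
(.nd (nat_lit 12) (.lf (nat_lit 8578691) (dlOf (nat_lit 1) (nat_lit 0x40028513a01))) 
(.lf (nat_lit 3422746243) (dlOf (nat_lit 1) (nat_lit 0x200080a9d81)))) (.nd (nat_lit 10) 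
(.lf (nat_lit 5368897923) (dlOf (nat_lit 1) (nat_lit 0x18008000400200020008091003))) 
(.lf (nat_lit 1543695747) (dlOf (nat_lit 2) (nat_lit 0xd201900006818146c00)))))) (.nd (nat_lit 28) 
(.nd (nat_lit 20) (.nd (nat_lit 9) 
(.lf (nat_lit 67559427) (dlOf (nat_lit 1) (nat_lit 0xa80008200001))) 
(.lf (nat_lit 134668803) (dlOf (nat_lit 5) (nat_lit 0x5c0860120041005801f803100f4002d21000800860050041002b01f800180f4002d010056408201c803d0000c02003c02080005c08034800802b800200100008090d83)))) 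
(.nd (nat_lit 21) 
(.lf (nat_lit 26664963) (dlOf (nat_lit 1) (nat_lit 0x1780080148002004c0008c50003))) 
(.lf (nat_lit 37150723) (dlOf (nat_lit 1) (nat_lit 0x800190b0001))))) (.nd (nat_lit 26) 
(.nd (nat_lit 27) 
(.lf (nat_lit 4563853315) (dlOf (nat_lit 2) (nat_lit 0x6019805cd0080058008000c00200020008100003))) 
(.lf (nat_lit 4698071043) (dlOf (nat_lit 2) (nat_lit 0x6019805758080058008000c00200020008100003)))) 
(.nd (nat_lit 21) 
(.lf (nat_lit 3557220355) (dlOf (nat_lit 11) (nat_lit 0x2b701c8000407e01a1d04002c07200d0d8100150390067ec080028070011c20400a40e4002a01c0046c82003400000225c0803300fc00ef204001007e000c0210020682000301f80101c082b381c800780c20108045000a01f800f80e0002c042002a01c002000d800000405db80080d6c00200040008170003))) 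
(.lf (nat_lit 472309763) (dlOf (nat_lit 1) (nat_lit 0x5400400120008980002))))))) (.nd (nat_lit 30) 
(.nd (nat_lit 26) (.nd (nat_lit 28) (.nd (nat_lit 18) 
(.lf (nat_lit 4966244355) (dlOf (nat_lit 1) (nat_lit 0x8008000800200020008090003))) 
(.lf (nat_lit 2819022851) (dlOf (nat_lit 1) (nat_lit 0x2300080048002003c0008150003)))) 
(.nd (nat_lit 7) 
(.lf (nat_lit 5234679811) (dlOf (nat_lit 2) (nat_lit 0x5015003770080018008000c00200040008080003))) 
(.lf (nat_lit 939712899) (dlOf (nat_lit 1) (nat_lit 0x120028155a81))))) (.nd (nat_lit 7) 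
(.nd (nat_lit 21) (.lf (nat_lit 2885869571) (dlOf (nat_lit 1) (nat_lit 0x20018130001))) 
(.lf (nat_lit 1008918531) (dlOf (nat_lit 1) (nat_lit 0x2400400020018fe0002)))) 
(.lf (nat_lit 5033353603) (dlOf (nat_lit 1) (nat_lit 0x20008001c00200080008091003))))) 
(.nd (nat_lit 7) (.nd (nat_lit 8) (.nd (nat_lit 18) 
(.lf (nat_lit 4026720259) (dlOf (nat_lit 2) (nat_lit 0x280d400b5e04001800400060008060002))) 
(.lf (nat_lit 3758546947) (dlOf (nat_lit 2) (nat_lit 0x401d8015e8080060008008c00200060008280003)))) 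
(.lf (nat_lit 5905770243) (dlOf (nat_lit 1) (nat_lit 0xc00400020008143b82)))) (.nd (nat_lit 8) 
(.lf (nat_lit 2013456003) (dlOf (nat_lit 1) (nat_lit 0x28008000400200020008093a03))) 
(.nd (nat_lit 18) (.lf (nat_lit 1812128131) (dlOf (nat_lit 1) (nat_lit 0x120028155a81))) 
(.lf (nat_lit 3959873923) (dlOf (nat_lit 4) (nat_lit 0xee01f0032dc0807700f80196a04018807c00cb402000a0028170781)))))))) 
(.nd (nat_lit 18) (.nd (nat_lit 21) (.nd (nat_lit 20) (.nd (nat_lit 9) (.nd (nat_lit 26) 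
(.lf (nat_lit 2819284995) (dlOf (nat_lit 1) (nat_lit 0x80018220001))) 
(.lf (nat_lit 3154829315) (dlOf (nat_lit 2) (nat_lit 0x18144000809e0008024000c011004dd82000a0008004400200040008350003)))) 
(.lf (nat_lit 2752182787) (dlOf (nat_lit 1) (nat_lit 0x18002800b281)))) (.nd (nat_lit 23) 
(.nd (nat_lit 10) (.lf (nat_lit 4095401987) (dlOf (nat_lit 1) (nat_lit 0x200080a0001))) 
(.lf (nat_lit 35316739) (dlOf (nat_lit 1) (nat_lit 0x8008000400200020009012883)))) 
(.nd (nat_lit 25) (.lf (nat_lit 26927107) (dlOf (nat_lit 1) (nat_lit 0x800400020018c90002))) 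
(.lf (nat_lit 60481539) (dlOf (nat_lit 1) (nat_lit 0x38008002000200080009870003)))))) 
(.nd (nat_lit 22) (.nd (nat_lit 31) (.nd (nat_lit 10) 
(.lf (nat_lit 19587075) (dlOf (nat_lit 14) (nat_lit 0x212b0000c957000647500199f5c0018fac000c7ac00083d580019d7c0008ebc00087330006399002f5458003a56000152ae00069550006475001a1f5c0014fac000e7d400043d600039eac0018f52000875f000339980021cc8017a834001d2b00008957000647500199f5c0018fac00087d400063d600041eac000cebe000275e000439980029cc80179e3000052b000068ea00313eb80019f580010ebe0006733005e70600084ac0002a55c00151d400667d700063eb00011f500014f58000e7ab00023af80019ccc000ce6400bc91600069580006475001c1f5c0004fac000c7d400043af80019ccc017901c00152b000048ea002f3eb80019d7c0177c10001d2b0000a8ea00303eb80011d7c0177a1000c0fae00bb8020002958000247500151f5c0176e0c001d2b0000a8ea00323eb80011d7c0175c1000c0fae000475f005d68200303eb802d140800680080004002000a00089c0003))) 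
(.lf (nat_lit 36365315) (dlOf (nat_lit 1) (nat_lit 0x40019072881)))) (.nd (nat_lit 26) 
(.lf (nat_lit 3492470787) (dlOf (nat_lit 1) (nat_lit 0x280080094002003800080d0003))) 
(.lf (nat_lit 2754273283) (dlOf (nat_lit 1) (nat_lit 0x280080094002003800080d0003))))) 
(.nd (nat_lit 7) (.nd (nat_lit 25) 
(.lf (nat_lit 15392771) (dlOf (nat_lit 1) (nat_lit 0x10004000400087e0002))) 
(.lf (nat_lit 48947203) (dlOf (nat_lit 1) (nat_lit 0x120009450001)))) 
(.lf (nat_lit 8053123) (dlOf (nat_lit 1) (nat_lit 0x40028511001)))))) (.nd (nat_lit 26) 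
(.nd (nat_lit 20) (.nd (nat_lit 21) (.nd (nat_lit 22) 
(.lf (nat_lit 2819547139) (dlOf (nat_lit 4) (nat_lit 0x1039000101bc000c06800bcf060004034005e481000e037800480d001790080010004003a0018310002))) 
(.lf (nat_lit 47112195) (dlOf (nat_lit 1) (nat_lit 0x200193a0001)))) (.nd (nat_lit 23) 
(.lf (nat_lit 19849219) (dlOf (nat_lit 1) (nat_lit 0x80080008002000200089d0003))) 
(.lf (nat_lit 11460611) (dlOf (nat_lit 1) (nat_lit 0x200186a0001))))) (.nd (nat_lit 7) 
(.lf (nat_lit 14606339) (dlOf (nat_lit 1) (nat_lit 0x400200020008770002))) (.nd (nat_lit 9) 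
(.lf (nat_lit 1344200835) (dlOf (nat_lit 1) (nat_lit 0x8008001000200020008490103))) 
(.lf (nat_lit 8316547) (dlOf (nat_lit 2) (nat_lit 0x5a0d00019018513a00)))))) (.nd (nat_lit 7) 
(.nd (nat_lit 9) (.nd (nat_lit 20) 
(.lf (nat_lit 3557744643) (dlOf (nat_lit 4) (nat_lit 0x1039000101bc000c0680063c0600040340031b01000e037800480d000c66080010004003a0018310002))) 
(.lf (nat_lit 473882627) (dlOf (nat_lit 2) (nat_lit 0x2014c003f8818fc0000)))) 
(.lf (nat_lit 2752438787) (dlOf (nat_lit 1) (nat_lit 0xc0018017f81)))) (.nd (nat_lit 9) 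
(.nd (nat_lit 8) (.lf (nat_lit 471785603) (dlOf (nat_lit 1) (nat_lit 0x8008001000200020008490103))) 
(.lf (nat_lit 2754537859) (dlOf (nat_lit 1) (nat_lit 0x4002000200080f4e82)))) (.nd (nat_lit 10) 
(.lf (nat_lit 6376319619) (dlOf (nat_lit 1) (nat_lit 0x400200bc0008095482))) 
(.lf (nat_lit 70182531) (dlOf (nat_lit 1) (nat_lit 0x5c00200020008fa3a02))))))))) (.nd (nat_lit 21) 
(.nd (nat_lit 28) (.nd (nat_lit 18) (.nd (nat_lit 26) (.nd (nat_lit 19) (.nd (nat_lit 20) 
(.lf (nat_lit 3355697155) (dlOf (nat_lit 2) (nat_lit 0x2002b000000180c0000))) 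
(.lf (nat_lit 5496835) (dlOf (nat_lit 1) (nat_lit 0x800400060008380002)))) 
(.lf (nat_lit 60547075) (dlOf (nat_lit 1) (nat_lit 0xc004000600098a0002)))) (.nd (nat_lit 9) 
(.nd (nat_lit 27) (.nd (nat_lit 32) 
(.lf (nat_lit 1141104643) (dlOf (nat_lit 1) (nat_lit 0x3e00180e0001))) 
(.lf (nat_lit 5436071939) (dlOf (nat_lit 2) (nat_lit 0x40044033b4040014002000c00080b0002)))) 
(.lf (nat_lit 1812193283) (dlOf (nat_lit 2) (nat_lit 0x30020000000800e0008003400200220008170003)))) 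
(.nd (nat_lit 7) 
(.lf (nat_lit 3288588803) (dlOf (nat_lit 3) (nat_lit 0x62036000b401000d01b0005980802c0008002c002007c0008090d83))) 
(.lf (nat_lit 202108547) (dlOf (nat_lit 1) (nat_lit 0x1c00280f7181)))))) (.nd (nat_lit 22) 
(.nd (nat_lit 20) (.nd (nat_lit 23) 
(.lf (nat_lit 2819088387) (dlOf (nat_lit 1) (nat_lit 0x200281a0001))) 
(.lf (nat_lit 42459139) (dlOf (nat_lit 2) (nat_lit 0x3d44e002550200040019250001)))) 
(.lf (nat_lit 18341891) (dlOf (nat_lit 1) (nat_lit 0x8a0028920001)))) (.nd (nat_lit 19) 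
(.nd (nat_lit 23) (.lf (nat_lit 4710403) (dlOf (nat_lit 1) (nat_lit 0x80080008002000200082b0003))) 
(.lf (nat_lit 13099011) (dlOf (nat_lit 1) (nat_lit 0x180080004002000c00086f0003)))) 
(.lf (nat_lit 38789123) (dlOf (nat_lit 1) (nat_lit 0x20019150001)))))) (.nd (nat_lit 27) 
(.nd (nat_lit 18) (.nd (nat_lit 19) (.nd (nat_lit 20) 
(.lf (nat_lit 4563656707) (dlOf (nat_lit 9) (nat_lit 0x5dc01a02dd007c034760817440680b8e01f00d1c8201330090068a40800b00d0033e20400a8068019f0020b1803405d300f805580540508024019dc080b0003405a600f8067681018180d00000004030c004001600080b0002))) 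
(.lf (nat_lit 1343479811) (dlOf (nat_lit 1) (nat_lit 0xc0008260001)))) 
(.lf (nat_lit 3557548035) (dlOf (nat_lit 8) (nat_lit 0xb01c8017aa0400540e40002042000501f802f501800a01c8002007e00bcf04005e0720006021000680fc0179c0c003c0e40004061000202f00010108002c07e00bc80a0016072005de810004023002c340803a800801c000200100008260003)))) 
(.nd (nat_lit 7) 
(.lf (nat_lit 1879564291) (dlOf (nat_lit 1) (nat_lit 0x200080138002019400081e0003))) 
(.lf (nat_lit 1342693763) (dlOf (nat_lit 1) (nat_lit 0x7000400b400080c0782))))) (.nd (nat_lit 32) 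
(.nd (nat_lit 30) 
(.lf (nat_lit 939778051) (dlOf (nat_lit 2) (nat_lit 0x30020000000800e0008003400200220008170003))) 
(.lf (nat_lit 2013519875) (dlOf (nat_lit 1) (nat_lit 0x3e00180e0001)))) (.nd (nat_lit 7) 
(.nd (nat_lit 26) 
(.lf (nat_lit 4697874435) (dlOf (nat_lit 9) (nat_lit 0x5dc01a02dd007c03b400817440680b8e01f00ecf0201330090075e80801500d003a9a04005806801d4c020b1803405d300f80558054050802401d43080b0003405a600f8074fc1018180d00000004030c004001600080b0002))) 
(.lf (nat_lit 5301854211) (dlOf (nat_lit 2) (nat_lit 0x4004403a7e040014002000c00080b0002)))) 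
(.lf (nat_lit 5234747011) (dlOf (nat_lit 1) (nat_lit 0x24004000800080d3a02))))))) (.nd (nat_lit 18) 
(.nd (nat_lit 19) (.nd (nat_lit 24) (.nd (nat_lit 7) 
(.lf (nat_lit 44294147) (dlOf (nat_lit 3) (nat_lit 0x8544c003292e01c6304000349700e310192f0000))) 
(.lf (nat_lit 2351235) (dlOf (nat_lit 1) (nat_lit 0x400200020008150102)))) (.nd (nat_lit 20) 
(.lf (nat_lit 27516931) (dlOf (nat_lit 1) (nat_lit 0x800400020018cf0002))) 
(.lf (nat_lit 62119939) (dlOf (nat_lit 3) (nat_lit 0x94b6018aa3c0093282000251e00494c0800500080030002000e0009950003))))) 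
(.nd (nat_lit 20) (.nd (nat_lit 26) 
(.lf (nat_lit 3492536323) (dlOf (nat_lit 2) (nat_lit 0x2056000d82ae0000004003000180d0001))) 
(.lf (nat_lit 2754338819) (dlOf (nat_lit 2) (nat_lit 0x2057400d82b80000004003000180d0001)))) 
(.nd (nat_lit 8) (.nd (nat_lit 22) 
(.lf (nat_lit 45867011) (dlOf (nat_lit 2) (nat_lit 0x973c0070b019360000))) 
(.lf (nat_lit 8118275) (dlOf (nat_lit 1) (nat_lit 0xac0008510001)))) 
(.lf (nat_lit 8124163) (dlOf (nat_lit 1) (nat_lit 0x8a000851a001)))))) (.nd (nat_lit 10) 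
(.nd (nat_lit 20) (.nd (nat_lit 7) (.nd (nat_lit 19) 
(.lf (nat_lit 1881661443) (dlOf (nat_lit 1) (nat_lit 0x10004001e0008fb0002))) 
(.lf (nat_lit 11526147) (dlOf (nat_lit 1) (nat_lit 0x80080004002000200086b0003)))) 
(.lf (nat_lit 44556419) (dlOf (nat_lit 1) (nat_lit 0x18008000400200020009320303)))) 
(.nd (nat_lit 25) 
(.lf (nat_lit 3661827) (dlOf (nat_lit 5) (nat_lit 0x1028800041380003099800283a000bdc10001c288000e1380004099800303a000bda10002828800161380008099800403a000bd8100010288000a1380008099800483a000bd210000c00400140018210002))) 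
(.lf (nat_lit 37216259) (dlOf (nat_lit 1) (nat_lit 0x400190c0001))))) (.nd (nat_lit 8) 
(.lf (nat_lit 1344791555) (dlOf (nat_lit 5) (nat_lit 0x3e04e001f023400d020800f411a0067b02001609c003398100030468019c80800e0008002000200180008982883))) 
(.lf (nat_lit 19920643) (dlOf (nat_lit 1) (nat_lit 0x200289da001)))))))) (.nd (nat_lit 16) 
(.nd (nat_lit 21) (.nd (nat_lit 18) (.nd (nat_lit 26) (.nd (nat_lit 9) (.nd (nat_lit 7) 
(.nd (nat_lit 8) (.lf (nat_lit 3490897987) (dlOf (nat_lit 1) (nat_lit 0x500008030e01))) 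
(.lf (nat_lit 1342366019) (dlOf (nat_lit 1) (nat_lit 0x1c0028014c01)))) 
(.lf (nat_lit 55764163) (dlOf (nat_lit 1) (nat_lit 0x800196d2d01)))) (.nd (nat_lit 7) 
(.nd (nat_lit 23) 
(.lf (nat_lit 671278915) (dlOf (nat_lit 3) (nat_lit 0xd00500002402006201f00010018143e00))) 
(.lf (nat_lit 8578883) (dlOf (nat_lit 1) (nat_lit 0x90008002400200060008513e03)))) 
(.lf (nat_lit 3892506563) (dlOf (nat_lit 1) (nat_lit 0x11800801d400200400008157a83))))) 
(.nd (nat_lit 7) (.nd (nat_lit 27) (.nd (nat_lit 8) 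
(.lf (nat_lit 2752700483) (dlOf (nat_lit 1) (nat_lit 0x500008030e01))) 
(.lf (nat_lit 4362264899) (dlOf (nat_lit 3) (nat_lit 0x110168028f00800700b4013a404007c00400400008014c02)))) 
(.nd (nat_lit 29) (.lf (nat_lit 469950787) (dlOf (nat_lit 1) (nat_lit 0x1c0028014c01))) 
(.lf (nat_lit 4228047171) (dlOf (nat_lit 3) (nat_lit 0x1101600129c0800700b00087604007c00400400008014c02))))) 
(.nd (nat_lit 8) (.nd (nat_lit 9) 
(.lf (nat_lit 3556962499) (dlOf (nat_lit 1) (nat_lit 0x2c00200060008127f02))) 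
(.lf (nat_lit 3556963011) (dlOf (nat_lit 1) (nat_lit 0x400200020008128c82)))) 
(.lf (nat_lit 3556964803) (dlOf (nat_lit 1) (nat_lit 0x180040010000812af82)))))) (.nd (nat_lit 19) 
(.nd (nat_lit 9) (.nd (nat_lit 30) (.nd (nat_lit 20) 
(.lf (nat_lit 34005059) (dlOf (nat_lit 1) (nat_lit 0x80018f90601))) 
(.lf (nat_lit 26665027) (dlOf (nat_lit 1) (nat_lit 0x220018c50581)))) (.nd (nat_lit 26) 
(.lf (nat_lit 1611063363) (dlOf (nat_lit 1) (nat_lit 0x200180d0481))) 
(.lf (nat_lit 3557220419) (dlOf (nat_lit 6) (nat_lit 0x11a000000058100ba0000000280807c80000000e0403340000000602000807400c103980768000000000c01e8002005c0008170582))))) 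
(.nd (nat_lit 7) (.nd (nat_lit 29) 
(.lf (nat_lit 3288786755) (dlOf (nat_lit 2) (nat_lit 0x3c0600002b02001400180f3e01))) 
(.lf (nat_lit 2751915843) (dlOf (nat_lit 1) (nat_lit 0x400400020008003e02)))) 
(.lf (nat_lit 8843971) (dlOf (nat_lit 1) (nat_lit 0x8008000400200020008518c83))))) 
(.nd (nat_lit 20) (.nd (nat_lit 22) 
(.lf (nat_lit 59695171) (dlOf (nat_lit 2) (nat_lit 0x30e80001540200020009820601))) 
(.nd (nat_lit 23) 
(.lf (nat_lit 21946435) (dlOf (nat_lit 1) (nat_lit 0x10008001c002000e0008a80e03))) 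
(.lf (nat_lit 13557827) (dlOf (nat_lit 1) (nat_lit 0x800200020008730c02))))) (.nd (nat_lit 7) 
(.lf (nat_lit 52355139) (dlOf (nat_lit 2) (nat_lit 0x46ce9000aa019530600))) 
(.lf (nat_lit 2753487299) (dlOf (nat_lit 2) (nat_lit 0x780000004004002000200120008090902))))))) 
(.nd (nat_lit 28) (.nd (nat_lit 7) (.nd (nat_lit 8) (.nd (nat_lit 18) (.nd (nat_lit 26) 
(.lf (nat_lit 2809923) (dlOf (nat_lit 1) (nat_lit 0x1c00281b1881))) 
(.lf (nat_lit 2754273347) (dlOf (nat_lit 2) (nat_lit 0x183ea0006402000e00180d0c01)))) 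
(.lf (nat_lit 37150787) (dlOf (nat_lit 2) (nat_lit 0xa0bfa000259d000aa0290b0600)))) 
(.nd (nat_lit 10) (.lf (nat_lit 28500291) (dlOf (nat_lit 1) (nat_lit 0x400200020008da0702))) 
(.lf (nat_lit 50259267) (dlOf (nat_lit 1) (nat_lit 0x4004002000094c3302))))) (.nd (nat_lit 9) 
(.nd (nat_lit 18) (.lf (nat_lit 32171203) (dlOf (nat_lit 1) (nat_lit 0x20018ef2d01))) 
(.lf (nat_lit 41870531) (dlOf (nat_lit 1) (nat_lit 0x40019242d01)))) (.nd (nat_lit 8) 
(.nd (nat_lit 19) (.lf (nat_lit 20116163) (dlOf (nat_lit 1) (nat_lit 0x80080004002000200089d8c83))) 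
(.lf (nat_lit 20640451) (dlOf (nat_lit 1) (nat_lit 0x200189d8c81)))) 
(.lf (nat_lit 8053699) (dlOf (nat_lit 1) (nat_lit 0xa0018512801)))))) (.nd (nat_lit 19) 
(.nd (nat_lit 7) (.nd (nat_lit 9) (.nd (nat_lit 26) 
(.lf (nat_lit 1881333827) (dlOf (nat_lit 1) (nat_lit 0x60028e91681))) 
(.lf (nat_lit 1008918595) (dlOf (nat_lit 2) (nat_lit 0x1071800544080018008000800200060008fe0603)))) 
(.lf (nat_lit 472050243) (dlOf (nat_lit 1) (nat_lit 0x20018805201)))) (.nd (nat_lit 18) 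
(.lf (nat_lit 1344464067) (dlOf (nat_lit 1) (nat_lit 0x800400020018802d02))) 
(.lf (nat_lit 1009181891) (dlOf (nat_lit 3) (nat_lit 0x100e30000f810064071800074080088008001400200020009082d03))))) 
(.nd (nat_lit 26) (.nd (nat_lit 31) 
(.lf (nat_lit 1344987203) (dlOf (nat_lit 41) (nat_lit 0x9c02c004be0d9025706c013e82700a3811a04aa08c027e03e813781f0004922001f01b2014608d0027046005381f400740f8002480a03b216001c606c80df836007cc138040608d01ba04600f801f407940f8002471000220d90028046005201f400740f800245080038160001218100a5046807081f40043e0801100f80020c0200440d9000ff0100a5046807081f4003f80800400fa001f8020052160000e0a68020027000e40fa007407c000fb85005b0b000390270020c11a00fe07d006c03e0007d42800281f0003e60408a82c003e214d019106c81220270095411a00da08c024403e811b81f0003e02001f42c0014a08d00a203e804781f0003de1000dc000001e90204c0156026009d813084e4098819a04c60960264042805b820c09680ea04b6073000e38900be0ab001f84e400f812c02e007501550398007182802405580130276009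4139004b066802d0258016410a00a607500520398007144001a055800e4272008a09600cc03a805b81cc003861401fc0ea00fe073000e082016403a807201cc0037e0807d82ac007213b003d0668015025808c40ea0460073000de8600150ab00a801d405380e6001bc06001007c000dd8100a903e800581f00036e0800800e60019d020172075001a03980060c1003681d4003040401500e600178020056073000ba01001503a800681cc002e20800040ea0028073000b782002d0b1800b84c000b424e005a0e6002d05e801002dc004814e005c029000aa0800070938004dc0800100a4001e60400e0000000940200700000004881002103a80001c08052823403840fa02c2075002c0398000002002b800800fc002009200089a0603))) 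
(.lf (nat_lit 3492470851) (dlOf (nat_lit 2) (nat_lit 0x183c60006102000e00180d0c01)))) 
(.nd (nat_lit 18) 
(.lf (nat_lit 472571971) (dlOf (nat_lit 3) (nat_lit 0x6906c8009240800c0534003e0040004004000a00089c0602))) 
(.lf (nat_lit 473882691) (dlOf (nat_lit 12) (nat_lit 0xdc14d00a106c80300360019c0fa00c607c0012485000303e800401f0004900807e029a04680d9025506c00fe81f407e40f8002470a00b414d001903e000914100028364003e60401441b2005c07d00370158007c018146853007c029603b214200ac092006803b009f41ae043a0d6007b065013b01ec02140e400ce03e017801480ef00a002e0000001541c000614a0009b81003a0a60003d00800281f400280f80009404007814d002903e0000001027b0008032c0020a540008fc0603)))))))) 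
(.nd (nat_lit 8) (.nd (nat_lit 18) (.nd (nat_lit 28) (.nd (nat_lit 20) (.nd (nat_lit 26) 
(.nd (nat_lit 19) (.nd (nat_lit 22) 
(.lf (nat_lit 134471747) (dlOf (nat_lit 1) (nat_lit 0x1260008030e01))) 
(.lf (nat_lit 12836931) (dlOf (nat_lit 1) (nat_lit 0x4002000e00086e0d02)))) 
(.lf (nat_lit 2875459) (dlOf (nat_lit 4) (nat_lit 0xf4000000420200161f1000c0ba000782bc00381460003808005016a003e0000000d81000d80080068002000400081c0c03)))) 
(.nd (nat_lit 31) (.lf (nat_lit 201580611) (dlOf (nat_lit 1) (nat_lit 0x1260008030e01))) 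
(.lf (nat_lit 2349064259) (dlOf (nat_lit 1) (nat_lit 0x4004000400080a0d02))))) (.nd (nat_lit 7) 
(.lf (nat_lit 43771459) (dlOf (nat_lit 1) (nat_lit 0x200292a3801))) (.nd (nat_lit 9) 
(.lf (nat_lit 9691331) (dlOf (nat_lit 1) (nat_lit 0x30008000400200260008571703))) 
(.lf (nat_lit 20181699) (dlOf (nat_lit 1) (nat_lit 0x80080008002000200089d8c83)))))) 
(.nd (nat_lit 30) (.nd (nat_lit 26) (.nd (nat_lit 27) 
(.lf (nat_lit 4563656771) (dlOf (nat_lit 4) (nat_lit 0x16500cc078c064062401e023800e80c3805405f0024000250c020201e0001101007400f0000780800580080004002000200080b0583))) 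
(.lf (nat_lit 4697874499) (dlOf (nat_lit 4) (nat_lit 0x16500cc078c064062401e023800e80c3805405f0024000260c020201e0001101007400f0000780800580080004002000200080b0583)))) 
(.lf (nat_lit 1006886979) (dlOf (nat_lit 1) (nat_lit 0x180080004002000200080d0d03)))) 
(.nd (nat_lit 19) (.nd (nat_lit 21) 
(.lf (nat_lit 1879302211) (dlOf (nat_lit 1) (nat_lit 0x4004000a00180d0e02))) 
(.lf (nat_lit 1344528451) (dlOf (nat_lit 1) (nat_lit 0x8008000400200020008820603)))) 
(.lf (nat_lit 1346101315) (dlOf (nat_lit 2) (nat_lit 0x550b4800544080018008000c00200020008e40603)))))) 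
(.nd (nat_lit 21) (.nd (nat_lit 19) (.nd (nat_lit 7) 
(.lf (nat_lit 1678237763) (dlOf (nat_lit 6) (nat_lit 0x150218000c80801601080005a04006c0840002b0200380420001201000d0210000880800780080080002001200081b0d03))) 
(.lf (nat_lit 3892830403) (dlOf (nat_lit 7) (nat_lit 0x1440580050202000802c0027b81002b0160013b40800080b0009d8040034058004eb02000601600249818280480)))) 
(.nd (nat_lit 26) (.lf (nat_lit 1344266307) (dlOf (nat_lit 1) (nat_lit 0x400400080008560582))) 
(.lf (nat_lit 471851075) (dlOf (nat_lit 1) (nat_lit 0x400400080008540582))))) (.nd (nat_lit 9) 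
(.nd (nat_lit 24) (.lf (nat_lit 69722179) (dlOf (nat_lit 1) (nat_lit 0x800400040008bd0602))) 
(.lf (nat_lit 19390531) (dlOf (nat_lit 1) (nat_lit 0x400400020018990e82)))) (.nd (nat_lit 10) 
(.nd (nat_lit 19) (.lf (nat_lit 12051011) (dlOf (nat_lit 1) (nat_lit 0x80080004002000200086c1103))) 
(.lf (nat_lit 24109635) (dlOf (nat_lit 1) (nat_lit 0x20018b81101)))) 
(.lf (nat_lit 52946499) (dlOf (nat_lit 1) (nat_lit 0xc0019573801))))))) (.nd (nat_lit 30) 
(.nd (nat_lit 7) (.nd (nat_lit 20) (.nd (nat_lit 10) 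
(.lf (nat_lit 805560643) (dlOf (nat_lit 1) (nat_lit 0x40008124c01))) 
(.lf (nat_lit 4698137923) (dlOf (nat_lit 2) (nat_lit 0x80d0000340400c000400320008123302)))) 
(.nd (nat_lit 21) 
(.lf (nat_lit 9691459) (dlOf (nat_lit 2) (nat_lit 0x40d780296c0800e800800c8002004a0008574c03))) 
(.lf (nat_lit 28565827) (dlOf (nat_lit 1) (nat_lit 0x400200020008da0702))))) (.nd (nat_lit 9) 
(.nd (nat_lit 20) (.lf (nat_lit 50848195) (dlOf (nat_lit 1) (nat_lit 0x84002001200094d7a82))) 
(.lf (nat_lit 58188227) (dlOf (nat_lit 1) (nat_lit 0x400197c7001)))) (.nd (nat_lit 10) 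
(.lf (nat_lit 20706243) (dlOf (nat_lit 1) (nat_lit 0x3800289d9201))) (.nd (nat_lit 19) 
(.lf (nat_lit 2818830275) (dlOf (nat_lit 1) (nat_lit 0x28008001000200080008127a83))) 
(.lf (nat_lit 67891139) (dlOf (nat_lit 1) (nat_lit 0x200018337a81))))))) (.nd (nat_lit 12) 
(.nd (nat_lit 18) (.nd (nat_lit 7) 
(.lf (nat_lit 1677975875) (dlOf (nat_lit 1) (nat_lit 0x40008124c01))) 
(.lf (nat_lit 1346628035) (dlOf (nat_lit 1) (nat_lit 0x3a0018fe4e81)))) (.nd (nat_lit 26) 
(.lf (nat_lit 3221742019) (dlOf (nat_lit 4) (nat_lit 0x2407c0002002000803e0000f81000201f0000780800f8008011000202040008170903))) 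
(.lf (nat_lit 3959939523) (dlOf (nat_lit 4) (nat_lit 0x2407c0002002000803e0000f81000201f0000780800f8008011000202040008170903))))) 
(.nd (nat_lit 9) 
(.lf (nat_lit 3557030339) (dlOf (nat_lit 3) (nat_lit 0x60610052881000403080293c080118008003c002000e000812af83))) 
(.nd (nat_lit 18) 
(.lf (nat_lit 1410070467) (dlOf (nat_lit 1) (nat_lit 0x80080004002000200080fa603))) 
(.lf (nat_lit 3492804547) (dlOf (nat_lit 2) (nat_lit 0x203d802c040800080080060002001000080fa603)))))))))) 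
(.nd (nat_lit 16) (.nd (nat_lit 6) (.nd (nat_lit 30) (.nd (nat_lit 8) (.nd (nat_lit 20) 
(.nd (nat_lit 32) (.nd (nat_lit 18) (.nd (nat_lit 7) 
(.lf (nat_lit 44228615) (dlOf (nat_lit 1) (nat_lit 0x3200192e0001))) (.nd (nat_lit 10) 
(.lf (nat_lit 335735431) (dlOf (nat_lit 1) (nat_lit 0x80018095481))) 
(.lf (nat_lit 716423) (dlOf (nat_lit 1) (nat_lit 0x60028007181))))) (.nd (nat_lit 10) 
(.nd (nat_lit 19) (.lf (nat_lit 738648071) (dlOf (nat_lit 1) (nat_lit 0xc0004000200080d0002))) 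
(.lf (nat_lit 15654919) (dlOf (nat_lit 1) (nat_lit 0x60018810281)))) 
(.lf (nat_lit 8840199) (dlOf (nat_lit 1) (nat_lit 0x40028512881))))) (.nd (nat_lit 27) 
(.nd (nat_lit 29) (.lf (nat_lit 6442639367) (dlOf (nat_lit 1) (nat_lit 0x400401440008110002))) 
(.lf (nat_lit 4832026631) (dlOf (nat_lit 1) (nat_lit 0x8800200080008090002)))) (.nd (nat_lit 26) 
(.lf (nat_lit 5234679815) (dlOf (nat_lit 2) (nat_lit 0x2017006f10080020008000800200040008080003))) 
(.lf (nat_lit 4496482311) (dlOf (nat_lit 1) (nat_lit 0x20028090001)))))) (.nd (nat_lit 18) 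
(.nd (nat_lit 7) (.nd (nat_lit 19) 
(.lf (nat_lit 2752700423) (dlOf (nat_lit 1) (nat_lit 0x440008030001))) (.nd (nat_lit 21) 
(.lf (nat_lit 10149895) (dlOf (nat_lit 2) (nat_lit 0x8000000bd804015800200cc00085b0002))) 
(.lf (nat_lit 16441351) (dlOf (nat_lit 1) (nat_lit 0x4004000200088a0002))))) 
(.lf (nat_lit 60481671) (dlOf (nat_lit 1) (nat_lit 0x1000400060019870f02)))) (.nd (nat_lit 21) 
(.nd (nat_lit 24) (.lf (nat_lit 5693447) (dlOf (nat_lit 1) (nat_lit 0x4004000400083c0002))) 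
(.lf (nat_lit 22470663) (dlOf (nat_lit 1) (nat_lit 0x400200040008ae0482)))) (.nd (nat_lit 9) 
(.lf (nat_lit 473882631) (dlOf (nat_lit 2) (nat_lit 0x214c003f8818fc0000))) 
(.lf (nat_lit 58122759) (dlOf (nat_lit 2) (nat_lit 0x419d800a6602005a00197c7b01))))))) 
(.nd (nat_lit 7) (.nd (nat_lit 11) (.nd (nat_lit 12) 
(.lf (nat_lit 36365575) (dlOf (nat_lit 1) (nat_lit 0x40019072f81))) 
(.lf (nat_lit 2214786311) (dlOf (nat_lit 1) (nat_lit 0x800180a9601)))) (.nd (nat_lit 12) 
(.nd (nat_lit 28) (.lf (nat_lit 191751) (dlOf (nat_lit 1) (nat_lit 0x20028006681))) 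
(.lf (nat_lit 805498119) (dlOf (nat_lit 1) (nat_lit 0x8008000400200020008116683)))) 
(.lf (nat_lit 2818768135) (dlOf (nat_lit 1) (nat_lit 0x40040002000812c602))))) (.nd (nat_lit 27) 
(.nd (nat_lit 9) (.nd (nat_lit 11) 
(.lf (nat_lit 4362264967) (dlOf (nat_lit 2) (nat_lit 0x2c0aa0004c02000e0008015b81))) 
(.lf (nat_lit 44493191) (dlOf (nat_lit 1) (nat_lit 0x4004003c0009324e82)))) 
(.lf (nat_lit 537061255) (dlOf (nat_lit 1) (nat_lit 0x40008004181)))) (.nd (nat_lit 9) 
(.nd (nat_lit 26) (.lf (nat_lit 939712903) (dlOf (nat_lit 1) (nat_lit 0x20028155b81))) 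
(.lf (nat_lit 5033353607) (dlOf (nat_lit 1) (nat_lit 0x20008091001)))) 
(.lf (nat_lit 2818764679) (dlOf (nat_lit 2) (nat_lit 0x80d80098c040030004001c0008127782))))))) 
(.nd (nat_lit 7) (.nd (nat_lit 27) (.nd (nat_lit 19) (.nd (nat_lit 18) (.nd (nat_lit 20) 
(.lf (nat_lit 5704441863) (dlOf (nat_lit 1) (nat_lit 0x1400400200008080002))) 
(.lf (nat_lit 3490897927) (dlOf (nat_lit 1) (nat_lit 0x440008030001)))) 
(.lf (nat_lit 1611063303) (dlOf (nat_lit 1) (nat_lit 0xc0004000200080d0002)))) (.nd (nat_lit 8) 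
(.lf (nat_lit 1344987143) (dlOf (nat_lit 2) (nat_lit 0x1011a003807c003860289a0000))) 
(.lf (nat_lit 3490376967) (dlOf (nat_lit 1) (nat_lit 0x1200080044002003e0008006683))))) 
(.nd (nat_lit 9) (.nd (nat_lit 8) (.nd (nat_lit 26) 
(.lf (nat_lit 6308421639) (dlOf (nat_lit 1) (nat_lit 0x1400400200008080002))) 
(.lf (nat_lit 5838659591) (dlOf (nat_lit 1) (nat_lit 0x400401440008110002)))) 
(.lf (nat_lit 3355636999) (dlOf (nat_lit 3) (nat_lit 0x402f0002c81000101780015c08005000800a0002005400080a9603)))) 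
(.nd (nat_lit 26) (.lf (nat_lit 4160943623) (dlOf (nat_lit 1) (nat_lit 0x400180a9c01))) 
(.lf (nat_lit 3422746119) (dlOf (nat_lit 1) (nat_lit 0x200280a9c01)))))) (.nd (nat_lit 26) 
(.nd (nat_lit 9) (.nd (nat_lit 8) (.nd (nat_lit 12) 
(.lf (nat_lit 1343676551) (dlOf (nat_lit 2) (nat_lit 0x10a70006bc0800080080004002001c00082e0483))) 
(.lf (nat_lit 3892506759) (dlOf (nat_lit 1) (nat_lit 0x400400020008157d82)))) 
(.lf (nat_lit 3221676423) (dlOf (nat_lit 2) (nat_lit 0x3203e00384818170780)))) (.nd (nat_lit 12) 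
(.lf (nat_lit 1208150663) (dlOf (nat_lit 1) (nat_lit 0x9a0018095481))) 
(.lf (nat_lit 3758291591) (dlOf (nat_lit 1) (nat_lit 0x1000800e40020002000812b683))))) 
(.nd (nat_lit 8) (.nd (nat_lit 18) 
(.lf (nat_lit 1275256967) (dlOf (nat_lit 1) (nat_lit 0x180080004002000600080c0e03))) 
(.lf (nat_lit 6376317063) (dlOf (nat_lit 1) (nat_lit 0x80028090381)))) (.nd (nat_lit 11) 
(.nd (nat_lit 18) (.lf (nat_lit 4228047239) (dlOf (nat_lit 1) (nat_lit 0x20028015c01))) 
(.lf (nat_lit 3959873927) (dlOf (nat_lit 2) (nat_lit 0x3203e0065b018170780)))) 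
(.lf (nat_lit 3556964743) (dlOf (nat_lit 1) (nat_lit 0x800800100020002000812af83)))))))) 
(.nd (nat_lit 28) (.nd (nat_lit 20) (.nd (nat_lit 29) (.nd (nat_lit 26) (.nd (nat_lit 9) 
(.nd (nat_lit 10) (.lf (nat_lit 34005063) (dlOf (nat_lit 1) (nat_lit 0x400400020008f90602))) 
(.lf (nat_lit 5368898631) (dlOf (nat_lit 1) (nat_lit 0x400400020008092882)))) 
(.lf (nat_lit 19849799) (dlOf (nat_lit 1) (nat_lit 0x80080004002001400089d1583)))) (.nd (nat_lit 7) 
(.nd (nat_lit 8) 
(.lf (nat_lit 2348999239) (dlOf (nat_lit 1) (nat_lit 0x100080060002000e0008091103))) 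
(.lf (nat_lit 4362264903) (dlOf (nat_lit 2) (nat_lit 0x400a400a340200020028014c01)))) 
(.lf (nat_lit 2348999111) (dlOf (nat_lit 1) (nat_lit 0x10008009400200060008090983))))) 
(.nd (nat_lit 9) (.nd (nat_lit 10) 
(.lf (nat_lit 2819022919) (dlOf (nat_lit 2) (nat_lit 0xec00a0001b0200240028150601))) 
(.nd (nat_lit 11) (.lf (nat_lit 5033354311) (dlOf (nat_lit 1) (nat_lit 0x400400020008092882))) 
(.lf (nat_lit 3825396807) (dlOf (nat_lit 1) (nat_lit 0x20008007400200340008146083))))) 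
(.nd (nat_lit 7) 
(.lf (nat_lit 2751658567) (dlOf (nat_lit 2) (nat_lit 0x441e00038020002002800b581))) 
(.lf (nat_lit 2751653831) (dlOf (nat_lit 1) (nat_lit 0x400200020008004402)))))) (.nd (nat_lit 9) 
(.nd (nat_lit 18) (.nd (nat_lit 21) 
(.lf (nat_lit 2752700487) (dlOf (nat_lit 1) (nat_lit 0x500008030f01))) 
(.lf (nat_lit 62054471) (dlOf (nat_lit 1) (nat_lit 0x3800400020009940602)))) (.nd (nat_lit 10) 
(.nd (nat_lit 19) (.lf (nat_lit 26665031) (dlOf (nat_lit 1) (nat_lit 0x400400040008c50602))) 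
(.lf (nat_lit 20897863) (dlOf (nat_lit 1) (nat_lit 0x180080004002000200089f0603)))) 
(.lf (nat_lit 39773255) (dlOf (nat_lit 1) (nat_lit 0x124002006800091f2882))))) (.nd (nat_lit 7) 
(.nd (nat_lit 19) (.lf (nat_lit 11723335) (dlOf (nat_lit 1) (nat_lit 0x200186c1101))) 
(.lf (nat_lit 2753225287) (dlOf (nat_lit 2) (nat_lit 0x183fe000240200020018091101)))) 
(.nd (nat_lit 8) 
(.lf (nat_lit 20116167) (dlOf (nat_lit 1) (nat_lit 0x1580080004002006800089d8c83))) 
(.lf (nat_lit 8318919) (dlOf (nat_lit 1) (nat_lit 0x400200020008517a82))))))) (.nd (nat_lit 9) 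
(.nd (nat_lit 8) (.nd (nat_lit 18) (.nd (nat_lit 7) (.nd (nat_lit 10) 
(.lf (nat_lit 3490897991) (dlOf (nat_lit 1) (nat_lit 0x500008030f01))) 
(.lf (nat_lit 5167572039) (dlOf (nat_lit 1) (nat_lit 0x4004000200080d2882)))) 
(.lf (nat_lit 1543695559) (dlOf (nat_lit 10) (nat_lit 0x4201f0001b01003e00f8025004c0006808017c050006a00c00010000000cc1801780a0001003e003e013001a006000e800000064140010050000a01f0001882000700f8000c008003807c0004e04008003e00520130001182000900f80007c0801d0008001000200020008146383)))) 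
(.nd (nat_lit 19) (.nd (nat_lit 21) 
(.lf (nat_lit 3557220423) (dlOf (nat_lit 2) (nat_lit 0x2c038000900f40003408000400400040008170602))) 
(.lf (nat_lit 472309831) (dlOf (nat_lit 3) (nat_lit 0xa023002b481000205e000f88080018008002c00200040008980003)))) 
(.lf (nat_lit 4095664199) (dlOf (nat_lit 1) (nat_lit 0x80080010002000200080e0003))))) 
(.nd (nat_lit 7) (.nd (nat_lit 10) 
(.lf (nat_lit 4228047175) (dlOf (nat_lit 2) (nat_lit 0x400960049f0200020028014c01))) 
(.lf (nat_lit 3489852743) (dlOf (nat_lit 2) (nat_lit 0x40d700008018006980)))) (.nd (nat_lit 11) 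
(.lf (nat_lit 2483216839) (dlOf (nat_lit 1) (nat_lit 0x10008009400200060008090983))) 
(.lf (nat_lit 472312263) (dlOf (nat_lit 2) (nat_lit 0x10334000c0ea0008073005fb838984e80)))))) 
(.nd (nat_lit 29) (.nd (nat_lit 7) (.nd (nat_lit 8) (.nd (nat_lit 19) 
(.lf (nat_lit 2483216967) (dlOf (nat_lit 1) (nat_lit 0x100080060002000e0008091103))) 
(.lf (nat_lit 3491422791) (dlOf (nat_lit 2) (nat_lit 0x183da000240200020018091101)))) 
(.lf (nat_lit 4563594055) (dlOf (nat_lit 1) (nat_lit 0x20018095c01)))) (.nd (nat_lit 8) 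
(.lf (nat_lit 3556963015) (dlOf (nat_lit 1) (nat_lit 0x280008000400200400008128c83))) 
(.lf (nat_lit 3556963271) (dlOf (nat_lit 1) (nat_lit 0x100028129201))))) (.nd (nat_lit 27) 
(.nd (nat_lit 7) (.lf (nat_lit 1879237191) (dlOf (nat_lit 1) (nat_lit 0x4002000200080c1102))) 
(.lf (nat_lit 6241315783) (dlOf (nat_lit 2) (nat_lit 0xe012000160180d5d80)))) (.nd (nat_lit 10) 
(.lf (nat_lit 1006821959) (dlOf (nat_lit 1) (nat_lit 0x4002000200080c1102))) 
(.lf (nat_lit 6375794247) (dlOf (nat_lit 1) (nat_lit 0x40018003801))))))))) (.nd (nat_lit 6) 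
(.nd (nat_lit 19) (.nd (nat_lit 28) (.nd (nat_lit 20) (.nd (nat_lit 8) (.nd (nat_lit 18) 
(.nd (nat_lit 26) (.lf (nat_lit 6576922631) (dlOf (nat_lit 1) (nat_lit 0x2000081b0001))) 
(.lf (nat_lit 5972942855) (dlOf (nat_lit 1) (nat_lit 0x2000081b0001)))) 
(.lf (nat_lit 1678237703) (dlOf (nat_lit 1) (nat_lit 0x78002000200081b0402)))) (.nd (nat_lit 7) 
(.nd (nat_lit 11) (.lf (nat_lit 3892830471) (dlOf (nat_lit 2) (nat_lit 0xb602c0050e018280700))) 
(.lf (nat_lit 8648967) (dlOf (nat_lit 1) (nat_lit 0x1a001851aa01)))) 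
(.lf (nat_lit 1677975943) (dlOf (nat_lit 6) (nat_lit 0x120440003301000601d800110080008110000820401080760004002010603b0001f818125b80))))) 
(.nd (nat_lit 18) (.nd (nat_lit 23) (.nd (nat_lit 8) 
(.lf (nat_lit 1303047) (dlOf (nat_lit 1) (nat_lit 0x80080004002000200080a7b03))) 
(.lf (nat_lit 41148679) (dlOf (nat_lit 1) (nat_lit 0x1000400020009223a02)))) (.nd (nat_lit 7) 
(.lf (nat_lit 9691143) (dlOf (nat_lit 1) (nat_lit 0x20018570001))) 
(.lf (nat_lit 9691271) (dlOf (nat_lit 5) (nat_lit 0x1683ac000a0060001b02000a2ea01ff878000943b4000320602221d6009e0bc0000b81003107580005a0401a800400040008570e02))))) 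
(.nd (nat_lit 21) 
(.lf (nat_lit 9953287) (dlOf (nat_lit 2) (nat_lit 0x2abf4002d0040044002000a00085a0582))) 
(.lf (nat_lit 16244743) (dlOf (nat_lit 1) (nat_lit 0x8008000400200020008870003)))))) 
(.nd (nat_lit 10) (.nd (nat_lit 8) (.nd (nat_lit 27) (.nd (nat_lit 18) 
(.lf (nat_lit 4563656711) (dlOf (nat_lit 2) (nat_lit 0x14c01a0025007c006c02a0162012000000480b0000))) 
(.lf (nat_lit 805822471) (dlOf (nat_lit 1) (nat_lit 0x78002000200081b0402)))) (.nd (nat_lit 20) 
(.lf (nat_lit 4697874439) (dlOf (nat_lit 2) (nat_lit 0x14c01a0025007c006c02a0162012000000480b0000))) 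
(.lf (nat_lit 471064583) (dlOf (nat_lit 1) (nat_lit 0x248008016800200e40008260283))))) 
(.nd (nat_lit 7) 
(.lf (nat_lit 1345839367) (dlOf (nat_lit 2) (nat_lit 0x2c1f6000df02001a0028e03a01))) 
(.lf (nat_lit 1881401735) (dlOf (nat_lit 1) (nat_lit 0x21800800e000200840008f04e83))))) 
(.nd (nat_lit 7) (.nd (nat_lit 8) 
(.lf (nat_lit 6308490247) (dlOf (nat_lit 1) (nat_lit 0x200180d5f81))) 
(.lf (nat_lit 1344791815) (dlOf (nat_lit 2) (nat_lit 0x882c0008609c00250468000e41800e8008001000200340008982f83)))) 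
(.nd (nat_lit 8) (.nd (nat_lit 9) 
(.lf (nat_lit 473425031) (dlOf (nat_lit 1) (nat_lit 0x28004000c0008f52b02))) 
(.lf (nat_lit 5704509063) (dlOf (nat_lit 1) (nat_lit 0x400180d3a01)))) 
(.lf (nat_lit 5704508807) (dlOf (nat_lit 1) (nat_lit 0x800080d3601))))))) (.nd (nat_lit 20) 
(.nd (nat_lit 11) (.nd (nat_lit 24) (.nd (nat_lit 21) (.nd (nat_lit 26) 
(.lf (nat_lit 2819350535) (dlOf (nat_lit 1) (nat_lit 0x100008250001))) 
(.lf (nat_lit 3557548039) (dlOf (nat_lit 8) (nat_lit 0x3c0e400b83020004046005a50100020378028d0080010120013a804002c090009b2020010048004d881000b0240026bc080460008003000200420008260003)))) 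
(.nd (nat_lit 26) 
(.lf (nat_lit 3492536327) (dlOf (nat_lit 2) (nat_lit 0x942ae0000002000c00280d0001))) 
(.lf (nat_lit 2754338823) (dlOf (nat_lit 2) (nat_lit 0x942b80000002000c00280d0001))))) 
(.nd (nat_lit 18) (.lf (nat_lit 17555463) (dlOf (nat_lit 1) (nat_lit 0x28002002200088e0002))) 
(.nd (nat_lit 23) (.lf (nat_lit 22011911) (dlOf (nat_lit 1) (nat_lit 0x8008000400200020008a90003))) 
(.lf (nat_lit 30400519) (dlOf (nat_lit 1) (nat_lit 0x2800200220008e30002)))))) (.nd (nat_lit 29) 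
(.nd (nat_lit 7) (.lf (nat_lit 19655943) (dlOf (nat_lit 1) (nat_lit 0x4004000200089d6682))) 
(.lf (nat_lit 1410066567) (dlOf (nat_lit 1) (nat_lit 0x2e00280f4801)))) (.nd (nat_lit 12) 
(.lf (nat_lit 537652359) (dlOf (nat_lit 2) (nat_lit 0x380900006404000c002000600080f6182))) 
(.lf (nat_lit 537656455) (dlOf (nat_lit 1) (nat_lit 0x4004000200080fc202)))))) (.nd (nat_lit 8) 
(.nd (nat_lit 21) (.nd (nat_lit 26) 
(.lf (nat_lit 5773189127) (dlOf (nat_lit 1) (nat_lit 0x80080008002000200080b0003))) 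
(.lf (nat_lit 6377168903) (dlOf (nat_lit 1) (nat_lit 0x80080008002000200080b0003)))) 
(.nd (nat_lit 7) (.lf (nat_lit 3923975) (dlOf (nat_lit 1) (nat_lit 0x20028250581))) 
(.lf (nat_lit 1346363527) (dlOf (nat_lit 1) (nat_lit 0x18008000400200020008f60383))))) 
(.nd (nat_lit 7) (.nd (nat_lit 9) 
(.lf (nat_lit 8387847) (dlOf (nat_lit 1) (nat_lit 0x40020002000851c602))) 
(.lf (nat_lit 8382215) (dlOf (nat_lit 1) (nat_lit 0x20028513b81)))) 
(.lf (nat_lit 39840135) (dlOf (nat_lit 1) (nat_lit 0x10000191f4e81))))))) (.nd (nat_lit 18) 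
(.nd (nat_lit 11) (.nd (nat_lit 21) (.nd (nat_lit 27) (.nd (nat_lit 8) (.nd (nat_lit 20) 
(.lf (nat_lit 4563656775) (dlOf (nat_lit 6) (nat_lit 0x4101a006e00c8000403e051e01502060090000cc28045804800064040164024000310200020340000c01000201a00005c081ad80082edc002000400080b0603))) 
(.lf (nat_lit 26468423) (dlOf (nat_lit 1) (nat_lit 0x44002002c0008c50602)))) (.nd (nat_lit 9) 
(.lf (nat_lit 8648007) (dlOf (nat_lit 1) (nat_lit 0x400400020008519902))) 
(.lf (nat_lit 1410066247) (dlOf (nat_lit 2) (nat_lit 0x7e07700070000000d41000500080028002001000080f3e03))))) 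
(.nd (nat_lit 26) (.nd (nat_lit 31) 
(.lf (nat_lit 4697874503) (dlOf (nat_lit 6) (nat_lit 0x4101a006e00c8000403e051e01502060090000c828045804800062040164024000300200020340000c01000201a00005c081ad80082edc002000400080b0603))) 
(.lf (nat_lit 2550390855) (dlOf (nat_lit 1) (nat_lit 0x40018090001)))) 
(.lf (nat_lit 3154370631) (dlOf (nat_lit 1) (nat_lit 0x40028160081))))) (.nd (nat_lit 12) 
(.nd (nat_lit 19) (.lf (nat_lit 56877127) (dlOf (nat_lit 1) (nat_lit 0x1040019770601))) 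
(.nd (nat_lit 20) 
(.lf (nat_lit 2875463) (dlOf (nat_lit 2) (nat_lit 0x60f8800187bc000c3a4000c17400030b9000185c000302d400100af00070518000984800500080088002000800081c0c83))) 
(.lf (nat_lit 45867079) (dlOf (nat_lit 2) (nat_lit 0x2373e0014b5d80051c100028008003000200300009360603))))) 
(.nd (nat_lit 7) (.lf (nat_lit 20706375) (dlOf (nat_lit 1) (nat_lit 0x1f8004000200089d9302))) 
(.lf (nat_lit 20181703) (dlOf (nat_lit 1) (nat_lit 0x80080008002000200089d8c83)))))) 
(.nd (nat_lit 9) (.nd (nat_lit 7) (.nd (nat_lit 10) 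
(.lf (nat_lit 2885937479) (dlOf (nat_lit 3) (nat_lit 0xc040000301b000200c0000800a00080000000685000a02200040100000c06c000603000050000000002800500080050002001e0008144d03))) 
(.lf (nat_lit 3624136007) (dlOf (nat_lit 4) (nat_lit 0x381140024088001c03e000901e002d00dc001406a000c03100080000000444000700f8014806e00120350000803005501b80003c080100008004000200100008146983)))) 
(.nd (nat_lit 8) (.lf (nat_lit 537656519) (dlOf (nat_lit 1) (nat_lit 0x3800180fc201))) 
(.nd (nat_lit 19) (.lf (nat_lit 3624136135) (dlOf (nat_lit 2) (nat_lit 0x600000031818146d00))) 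
(.lf (nat_lit 202108359) (dlOf (nat_lit 1) (nat_lit 0x1c002000c00080f6d02)))))) (.nd (nat_lit 8) 
(.nd (nat_lit 10) 
(.lf (nat_lit 2818833095) (dlOf (nat_lit 1) (nat_lit 0x5800800440020008000812b983))) 
(.lf (nat_lit 537652935) (dlOf (nat_lit 1) (nat_lit 0x100080004002000200080f7303)))) 
(.nd (nat_lit 19) (.lf (nat_lit 4899204039) (dlOf (nat_lit 1) (nat_lit 0x400180d5d81))) 
(.lf (nat_lit 19655623) (dlOf (nat_lit 1) (nat_lit 0x200289d5d81))))))) (.nd (nat_lit 19) 
(.nd (nat_lit 27) (.nd (nat_lit 7) (.nd (nat_lit 9) 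
(.lf (nat_lit 805822535) (dlOf (nat_lit 6) (nat_lit 0xa052006b0278027012c018808600b8040005c01c002f80cc0008004009a000000190900790210022800800440000002e06001405200400210002803800040180002d0800580420001381001f0210000980802080080208002003400081b0e03))) 
(.lf (nat_lit 1342693959) (dlOf (nat_lit 2) (nat_lit 0x20e88000d4080048008007c002001800080c1103)))) 
(.nd (nat_lit 11) (.lf (nat_lit 47703239) (dlOf (nat_lit 1) (nat_lit 0x400200020009402d02))) 
(.lf (nat_lit 3490180295) (dlOf (nat_lit 1) (nat_lit 0x400200020008006382))))) (.nd (nat_lit 26) 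
(.nd (nat_lit 29) (.lf (nat_lit 134733895) (dlOf (nat_lit 1) (nat_lit 0x1c004000c00080a0e02))) 
(.lf (nat_lit 3892830279) (dlOf (nat_lit 2) (nat_lit 0x4e80b0001200400c400200a40008280082)))) 
(.nd (nat_lit 9) (.lf (nat_lit 4228374599) (dlOf (nat_lit 1) (nat_lit 0x50004001c00080a0e02))) 
(.lf (nat_lit 470278727) (dlOf (nat_lit 2) (nat_lit 0x20e88000d4080048008007c002001800080c1103)))))) 
(.nd (nat_lit 8) (.nd (nat_lit 9) (.nd (nat_lit 10) 
(.lf (nat_lit 20963399) (dlOf (nat_lit 1) (nat_lit 0x200289f0601))) 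
(.lf (nat_lit 51373127) (dlOf (nat_lit 1) (nat_lit 0x400400020019512882)))) (.nd (nat_lit 10) 
(.lf (nat_lit 2752504391) (dlOf (nat_lit 1) (nat_lit 0x1c00400040018018d02))) 
(.lf (nat_lit 8382023) (dlOf (nat_lit 1) (nat_lit 0x180080044002002c0008513803))))) 
(.nd (nat_lit 7) (.nd (nat_lit 9) 
(.lf (nat_lit 5773452615) (dlOf (nat_lit 1) (nat_lit 0xc00280e3301))) 
(.lf (nat_lit 1346366279) (dlOf (nat_lit 1) (nat_lit 0x20018f65c01)))) 
(.lf (nat_lit 1346365895) (dlOf (nat_lit 1) (nat_lit 0x2a0018f64e81)))))))))) (.nd (nat_lit 16) 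
(.nd (nat_lit 6) (.nd (nat_lit 2) (.nd (nat_lit 7) (.nd (nat_lit 31) (.nd (nat_lit 18) 
(.nd (nat_lit 29) (.nd (nat_lit 19) (.nd (nat_lit 9) (.nd (nat_lit 22) 
(.lf (nat_lit 18014219) (dlOf (nat_lit 1) (nat_lit 0x500028900581))) 
(.lf (nat_lit 22208523) (dlOf (nat_lit 1) (nat_lit 0x8008000800200020008aa0a03)))) 
(.lf (nat_lit 11723275) (dlOf (nat_lit 1) (nat_lit 0xc00186c0d81)))) (.nd (nat_lit 10) 
(.lf (nat_lit 21684235) (dlOf (nat_lit 1) (nat_lit 0x20008000c002000a0008a60a03))) 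
(.lf (nat_lit 36365323) (dlOf (nat_lit 1) (nat_lit 0x20019072881))))) (.nd (nat_lit 26) 
(.nd (nat_lit 8) (.lf (nat_lit 4832026635) (dlOf (nat_lit 1) (nat_lit 0x20008090001))) 
(.lf (nat_lit 4966244619) (dlOf (nat_lit 1) (nat_lit 0x20008090a81)))) (.nd (nat_lit 27) 
(.lf (nat_lit 4899135499) (dlOf (nat_lit 1) (nat_lit 0x160028080001))) 
(.lf (nat_lit 5033353227) (dlOf (nat_lit 1) (nat_lit 0xec00200640008090002)))))) (.nd (nat_lit 22) 
(.nd (nat_lit 24) (.nd (nat_lit 26) 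
(.lf (nat_lit 1074192395) (dlOf (nat_lit 1) (nat_lit 0x8002000400080d0482))) 
(.lf (nat_lit 1946607627) (dlOf (nat_lit 1) (nat_lit 0x8002000400080d0482)))) (.nd (nat_lit 19) 
(.lf (nat_lit 26664971) (dlOf (nat_lit 1) (nat_lit 0x8008000400200020008c50003))) 
(.lf (nat_lit 17752075) (dlOf (nat_lit 1) (nat_lit 0x4002000200088f0502))))) (.nd (nat_lit 19) 
(.nd (nat_lit 21) (.lf (nat_lit 1346822155) (dlOf (nat_lit 1) (nat_lit 0x2a0009030101))) 
(.lf (nat_lit 15130635) (dlOf (nat_lit 1) (nat_lit 0x8004000200087c0482)))) 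
(.lf (nat_lit 14606347) (dlOf (nat_lit 1) (nat_lit 0x400200020008770002)))))) (.nd (nat_lit 11) 
(.nd (nat_lit 19) (.nd (nat_lit 9) 
(.lf (nat_lit 3557220363) (dlOf (nat_lit 4) (nat_lit 0xa00fc00eee0403a807e0077602003e03f003ba818170000))) 
(.lf (nat_lit 2348999179) (dlOf (nat_lit 1) (nat_lit 0x800400180008090d82)))) (.nd (nat_lit 21) 
(.lf (nat_lit 2819285003) (dlOf (nat_lit 1) (nat_lit 0x40028220281))) (.nd (nat_lit 26) 
(.lf (nat_lit 3492470795) (dlOf (nat_lit 3) (nat_lit 0x101420003f8100090f68000000800600080094002001800080d0483))) 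
(.lf (nat_lit 2754273291) (dlOf (nat_lit 3) (nat_lit 0x101420003f8100090ff8000000800600080094002001800080d0483)))))) 
(.nd (nat_lit 9) (.nd (nat_lit 12) (.nd (nat_lit 18) 
(.lf (nat_lit 3492997131) (dlOf (nat_lit 1) (nat_lit 0x100080008002001400080f4703))) 
(.lf (nat_lit 2550589451) (dlOf (nat_lit 1) (nat_lit 0x4004000200080f4702)))) 
(.lf (nat_lit 2751657995) (dlOf (nat_lit 1) (nat_lit 0x2001800a601)))) (.nd (nat_lit 8) 
(.lf (nat_lit 2751658507) (dlOf (nat_lit 2) (nat_lit 0x288080182604010c0040048000800b282))) 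
(.lf (nat_lit 3556962059) (dlOf (nat_lit 1) (nat_lit 0x3800200080008127482))))))) (.nd (nat_lit 8) 
(.nd (nat_lit 10) (.nd (nat_lit 19) (.nd (nat_lit 20) (.nd (nat_lit 12) 
(.lf (nat_lit 54976651) (dlOf (nat_lit 1) (nat_lit 0x20029680f01))) 
(.lf (nat_lit 2818764939) (dlOf (nat_lit 1) (nat_lit 0x38008000800200080008127d83)))) 
(.nd (nat_lit 21) 
(.lf (nat_lit 1343676555) (dlOf (nat_lit 3) (nat_lit 0x214e000d58100180a700062c0800180080018002000e00082e0483))) 
(.lf (nat_lit 3596427) (dlOf (nat_lit 2) (nat_lit 0x509f800284b80014206000a03e0001d848200100))))) 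
(.nd (nat_lit 20) (.nd (nat_lit 21) 
(.lf (nat_lit 6376317067) (dlOf (nat_lit 1) (nat_lit 0x3c00200020008090382))) 
(.lf (nat_lit 24043659) (dlOf (nat_lit 1) (nat_lit 0x8008001400200080008b80103)))) 
(.lf (nat_lit 2023563) (dlOf (nat_lit 1) (nat_lit 0x54002000e0008150102))))) (.nd (nat_lit 12) 
(.nd (nat_lit 11) (.lf (nat_lit 40297611) (dlOf (nat_lit 1) (nat_lit 0x200291f2b01))) 
(.lf (nat_lit 19852427) (dlOf (nat_lit 1) (nat_lit 0x200289d6181)))) (.nd (nat_lit 9) 
(.nd (nat_lit 26) 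
(.lf (nat_lit 3355636875) (dlOf (nat_lit 7) (nat_lit 0x1c02f000e08100030178005d00800600bc002e404004405e001700200200320000e0100010178000540800480080010002003a00080a9503))) 
(.lf (nat_lit 2617439371) (dlOf (nat_lit 4) (nat_lit 0x70160005a80800300000015e04000c0580001502001400180a9501)))) 
(.lf (nat_lit 3355637387) (dlOf (nat_lit 2) (nat_lit 0x20170000000800080080004002001a00080a9e03)))))) 
(.nd (nat_lit 11) (.nd (nat_lit 18) (.nd (nat_lit 9) (.nd (nat_lit 12) 
(.lf (nat_lit 5033353611) (dlOf (nat_lit 1) (nat_lit 0xa0018091001))) 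
(.lf (nat_lit 3154309515) (dlOf (nat_lit 1) (nat_lit 0x10008000400200020008158383)))) 
(.lf (nat_lit 3154311051) (dlOf (nat_lit 1) (nat_lit 0x40020002000815a302)))) (.nd (nat_lit 19) 
(.nd (nat_lit 26) (.lf (nat_lit 3221676427) (dlOf (nat_lit 2) (nat_lit 0x803e00383818170780))) 
(.lf (nat_lit 201777547) (dlOf (nat_lit 1) (nat_lit 0x68008004000200100008090783)))) 
(.lf (nat_lit 5772337547) (dlOf (nat_lit 3) (nat_lit 0x584f8002c00400082780009c0200120018091001))))) 
(.nd (nat_lit 18) (.nd (nat_lit 10) 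
(.lf (nat_lit 3825396107) (dlOf (nat_lit 1) (nat_lit 0x3000800d0002003e0008144e83))) 
(.nd (nat_lit 20) 
(.lf (nat_lit 1543695755) (dlOf (nat_lit 1) (nat_lit 0x48008000c00200180008146c83))) 
(.lf (nat_lit 20114827) (dlOf (nat_lit 1) (nat_lit 0x4002000e00089d6c82))))) (.nd (nat_lit 9) 
(.nd (nat_lit 12) (.lf (nat_lit 1346300299) (dlOf (nat_lit 1) (nat_lit 0x1400400020008f04e82))) 
(.lf (nat_lit 19855755) (dlOf (nat_lit 1) (nat_lit 0x800800dc002002800089daf83)))) 
(.lf (nat_lit 19852171) (dlOf (nat_lit 1) (nat_lit 0x80080140002004000089d5c83)))))))) 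
(.nd (nat_lit 19) (.nd (nat_lit 18) (.nd (nat_lit 8) (.nd (nat_lit 20) (.nd (nat_lit 27) 
(.nd (nat_lit 9) (.nd (nat_lit 21) 
(.lf (nat_lit 25354255) (dlOf (nat_lit 1) (nat_lit 0x300018c00101))) 
(.lf (nat_lit 27451407) (dlOf (nat_lit 1) (nat_lit 0x400400040008ce0182)))) 
(.lf (nat_lit 537065999) (dlOf (nat_lit 1) (nat_lit 0x800800040020002000800b283)))) 
(.nd (nat_lit 9) (.nd (nat_lit 11) 
(.lf (nat_lit 3087197199) (dlOf (nat_lit 1) (nat_lit 0x60008002400200260008142883))) 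
(.lf (nat_lit 5771553807) (dlOf (nat_lit 1) (nat_lit 0x400200020008005f82)))) 
(.lf (nat_lit 6643966479) (dlOf (nat_lit 1) (nat_lit 0x4004000200080b1482))))) (.nd (nat_lit 21) 
(.nd (nat_lit 26) 
(.lf (nat_lit 3490897935) (dlOf (nat_lit 1) (nat_lit 0x10008000c00200040008030883))) 
(.lf (nat_lit 2752700431) (dlOf (nat_lit 1) (nat_lit 0x10008000c00200040008030883)))) 
(.nd (nat_lit 7) (.lf (nat_lit 20117007) (dlOf (nat_lit 1) (nat_lit 0x8002000200089d9c02))) 
(.lf (nat_lit 11722895) (dlOf (nat_lit 1) (nat_lit 0x4002000200086c0102)))))) (.nd (nat_lit 27) 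
(.nd (nat_lit 7) 
(.lf (nat_lit 2684548367) (dlOf (nat_lit 1) (nat_lit 0x100080080002001a00080a9683))) 
(.nd (nat_lit 9) (.lf (nat_lit 5368897935) (dlOf (nat_lit 1) (nat_lit 0x400400020018091002))) 
(.lf (nat_lit 46328719) (dlOf (nat_lit 1) (nat_lit 0x4c0029385c81))))) (.nd (nat_lit 7) 
(.lf (nat_lit 4966244623) (dlOf (nat_lit 1) (nat_lit 0x20008090a81))) (.nd (nat_lit 9) 
(.lf (nat_lit 1543694735) (dlOf (nat_lit 2) (nat_lit 0x5802800836018144e80))) 
(.lf (nat_lit 6039987087) (dlOf (nat_lit 1) (nat_lit 0x4004000200080b2582))))))) (.nd (nat_lit 26) 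
(.nd (nat_lit 7) (.nd (nat_lit 20) (.nd (nat_lit 21) 
(.lf (nat_lit 3758546959) (dlOf (nat_lit 1) (nat_lit 0x400200040008280182))) 
(.lf (nat_lit 2547727) (dlOf (nat_lit 6) (nat_lit 0x2874400203800014195000602780001820002874400203800016195000602780001420003874400283800012195000902780001020003874400143800016195000a02780000c2000087000000004000c00200080008170482)))) 
(.lf (nat_lit 11984911) (dlOf (nat_lit 1) (nat_lit 0x800186c0001)))) (.nd (nat_lit 8) 
(.lf (nat_lit 57074831) (dlOf (nat_lit 1) (nat_lit 0xc00400160009792b02))) 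
(.lf (nat_lit 54976911) (dlOf (nat_lit 1) (nat_lit 0x40029685d81))))) (.nd (nat_lit 10) 
(.nd (nat_lit 7) (.nd (nat_lit 29) 
(.lf (nat_lit 3557220367) (dlOf (nat_lit 2) (nat_lit 0x14003f00d00018170000))) 
(.lf (nat_lit 3020349455) (dlOf (nat_lit 3) (nat_lit 0x2c02e000448100030170002200800200080084002002a0008280183)))) 
(.lf (nat_lit 3288787087) (dlOf (nat_lit 1) (nat_lit 0x200180f4801)))) (.nd (nat_lit 31) 
(.lf (nat_lit 604431375) (dlOf (nat_lit 1) (nat_lit 0x40028282881))) 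
(.lf (nat_lit 2751915023) (dlOf (nat_lit 1) (nat_lit 0x20018002881))))))) (.nd (nat_lit 21) 
(.nd (nat_lit 10) (.nd (nat_lit 26) (.nd (nat_lit 23) (.nd (nat_lit 27) 
(.lf (nat_lit 537583631) (dlOf (nat_lit 1) (nat_lit 0x15200080c0901))) 
(.lf (nat_lit 134930447) (dlOf (nat_lit 2) (nat_lit 0x1a801d8000ec080410008001c002000c00080e0103)))) 
(.nd (nat_lit 18) (.lf (nat_lit 59432975) (dlOf (nat_lit 1) (nat_lit 0x1c004003c00097f0202))) 
(.lf (nat_lit 13557775) (dlOf (nat_lit 1) (nat_lit 0x360008730881))))) (.nd (nat_lit 8) 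
(.nd (nat_lit 27) (.lf (nat_lit 1409998863) (dlOf (nat_lit 1) (nat_lit 0x8e00080c0881))) 
(.lf (nat_lit 202039311) (dlOf (nat_lit 2) (nat_lit 0x1a801d8000ec080410008001c002000c00080e0103)))) 
(.lf (nat_lit 6376317199) (dlOf (nat_lit 2) (nat_lit 0xc090000270080010008001400200060008090a83))))) 
(.nd (nat_lit 25) (.nd (nat_lit 8) 
(.lf (nat_lit 1008395279) (dlOf (nat_lit 1) (nat_lit 0x800400040008bb2882))) 
(.lf (nat_lit 3490376975) (dlOf (nat_lit 1) (nat_lit 0x1a000800a000200540008006703)))) 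
(.nd (nat_lit 18) (.lf (nat_lit 56288271) (dlOf (nat_lit 1) (nat_lit 0x20009732881))) 
(.lf (nat_lit 43967503) (dlOf (nat_lit 1) (nat_lit 0x4004000200092a2882)))))) (.nd (nat_lit 23) 
(.nd (nat_lit 31) (.nd (nat_lit 8) 
(.lf (nat_lit 36365327) (dlOf (nat_lit 1) (nat_lit 0x20019072881))) 
(.lf (nat_lit 19849487) (dlOf (nat_lit 1) (nat_lit 0x38004000800089d0a82)))) (.nd (nat_lit 26) 
(.lf (nat_lit 3492470799) (dlOf (nat_lit 2) (nat_lit 0x80f50069140800180080014002000400080d0883))) 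
(.lf (nat_lit 2754273295) (dlOf (nat_lit 2) (nat_lit 0x80fe0076a80800180080014002000400080d0883))))) 
(.nd (nat_lit 20) 
(.lf (nat_lit 11198479) (dlOf (nat_lit 3) (nat_lit 0x283c9000208100031e58000ec080048008004800200800008670103))) 
(.lf (nat_lit 16441359) (dlOf (nat_lit 2) (nat_lit 0x8493000448188a0180)))))))) (.nd (nat_lit 26) 
(.nd (nat_lit 19) (.nd (nat_lit 20) (.nd (nat_lit 27) (.nd (nat_lit 7) (.nd (nat_lit 2) 
(.nd (nat_lit 9) (.nd (nat_lit 10) 
(.lf (nat_lit 194635) (dlOf (nat_lit 1) (nat_lit 0x4001800a681))) 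
(.lf (nat_lit 38200395) (dlOf (nat_lit 1) (nat_lit 0x4002000c0009132882)))) 
(.lf (nat_lit 1344727627) (dlOf (nat_lit 3) (nat_lit 0x280e60001d0200020af0000a818985280)))) 
(.nd (nat_lit 8) (.lf (nat_lit 1073930319) (dlOf (nat_lit 1) (nat_lit 0x40028031001))) 
(.lf (nat_lit 21422415) (dlOf (nat_lit 1) (nat_lit 0x400400020008a34c82))))) (.nd (nat_lit 11) 
(.nd (nat_lit 2) 
(.lf (nat_lit 3758289611) (dlOf (nat_lit 1) (nat_lit 0x948008002000200e00008128c83))) 
(.lf (nat_lit 3494044111) (dlOf (nat_lit 1) (nat_lit 0x64004001a00081b0a02)))) (.nd (nat_lit 10) 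
(.lf (nat_lit 57076171) (dlOf (nat_lit 1) (nat_lit 0x40008002800200180009794e83))) 
(.lf (nat_lit 4026985931) (dlOf (nat_lit 2) (nat_lit 0x280158000000800e00080010002002000080f6d03)))))) 
(.nd (nat_lit 28) (.nd (nat_lit 12) (.nd (nat_lit 2) 
(.lf (nat_lit 3355631691) (dlOf (nat_lit 1) (nat_lit 0x800280a0001))) 
(.lf (nat_lit 2819022927) (dlOf (nat_lit 1) (nat_lit 0xc00200180008150702)))) (.nd (nat_lit 8) 
(.lf (nat_lit 2818765899) (dlOf (nat_lit 1) (nat_lit 0x400200040008129302))) 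
(.lf (nat_lit 2818765131) (dlOf (nat_lit 1) (nat_lit 0x1160028128281))))) (.nd (nat_lit 32) 
(.nd (nat_lit 2) 
(.lf (nat_lit 939713099) (dlOf (nat_lit 5) (nat_lit 0x1740000002f8100b80000001740805d0000000b804024c0000005b02006c0008158d01))) 
(.lf (nat_lit 3087198415) (dlOf (nat_lit 1) (nat_lit 0x70008007c002003c0008144a03)))) 
(.nd (nat_lit 30) 
(.lf (nat_lit 5234679883) (dlOf (nat_lit 4) (nat_lit 0xd00c0009405e000602e00100108001782000280c0002c05c0005d04002c030002201780016c1000f00080054002001e0008080503))) 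
(.lf (nat_lit 6308421707) (dlOf (nat_lit 2) (nat_lit 0x100c8001c80800b80080068002003a0008080503))))))) 
(.nd (nat_lit 24) (.nd (nat_lit 18) (.nd (nat_lit 2) (.nd (nat_lit 9) 
(.lf (nat_lit 3490897995) (dlOf (nat_lit 1) (nat_lit 0x1fa0008030f81))) 
(.lf (nat_lit 11723339) (dlOf (nat_lit 1) (nat_lit 0x200186c1181)))) 
(.lf (nat_lit 3490897999) (dlOf (nat_lit 1) (nat_lit 0x400400020008031002)))) (.nd (nat_lit 21) 
(.lf (nat_lit 43442251) (dlOf (nat_lit 1) (nat_lit 0x4000292a0001))) 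
(.lf (nat_lit 37150795) (dlOf (nat_lit 1) (nat_lit 0x13200090b0601))))) (.nd (nat_lit 2) 
(.nd (nat_lit 7) (.lf (nat_lit 62054475) (dlOf (nat_lit 1) (nat_lit 0x1400400020009940602))) 
(.nd (nat_lit 9) (.lf (nat_lit 28500171) (dlOf (nat_lit 1) (nat_lit 0x400200020008da0482))) 
(.lf (nat_lit 20116171) (dlOf (nat_lit 1) (nat_lit 0x80080004002000200089d8c83))))) 
(.nd (nat_lit 8) (.lf (nat_lit 51833423) (dlOf (nat_lit 1) (nat_lit 0x80019515281))) 
(.lf (nat_lit 20114767) (dlOf (nat_lit 1) (nat_lit 0x28008002c002000600089d6a03))))))) 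
(.nd (nat_lit 20) (.nd (nat_lit 18) (.nd (nat_lit 7) (.nd (nat_lit 2) (.nd (nat_lit 8) 
(.lf (nat_lit 3492470859) (dlOf (nat_lit 2) (nat_lit 0x340f580015808000800801c0002006200080d0d03))) 
(.lf (nat_lit 3490377035) (dlOf (nat_lit 1) (nat_lit 0x108008004400200380008006a03)))) 
(.lf (nat_lit 2809935) (dlOf (nat_lit 1) (nat_lit 0x5a00081b1901)))) (.nd (nat_lit 8) 
(.lf (nat_lit 716491) (dlOf (nat_lit 1) (nat_lit 0x10008000400200020008007303))) (.nd (nat_lit 9) 
(.lf (nat_lit 36366795) (dlOf (nat_lit 1) (nat_lit 0x400400020009074e82))) 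
(.lf (nat_lit 36365259) (dlOf (nat_lit 1) (nat_lit 0x20019072881)))))) (.nd (nat_lit 2) 
(.nd (nat_lit 8) (.nd (nat_lit 9) 
(.lf (nat_lit 21946443) (dlOf (nat_lit 1) (nat_lit 0x10400200620008a80f82))) 
(.lf (nat_lit 19854923) (dlOf (nat_lit 1) (nat_lit 0x4004000200089d9c02)))) 
(.lf (nat_lit 24043851) (dlOf (nat_lit 1) (nat_lit 0x400400020008b80602)))) (.nd (nat_lit 8) 
(.nd (nat_lit 10) (.lf (nat_lit 26140751) (dlOf (nat_lit 1) (nat_lit 0xb00008c10181))) 
(.lf (nat_lit 19852367) (dlOf (nat_lit 1) (nat_lit 0x21800800b4002009400089d6083)))) 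
(.lf (nat_lit 3490636111) (dlOf (nat_lit 1) (nat_lit 0x10008000800200040008014c83)))))) 
(.nd (nat_lit 2) (.nd (nat_lit 8) (.nd (nat_lit 7) (.nd (nat_lit 11) 
(.lf (nat_lit 10149963) (dlOf (nat_lit 1) (nat_lit 0x6800801b800200e400085b0903))) 
(.lf (nat_lit 8054859) (dlOf (nat_lit 1) (nat_lit 0x60028514701)))) 
(.lf (nat_lit 20640459) (dlOf (nat_lit 1) (nat_lit 0x200189d8c81)))) (.nd (nat_lit 9) 
(.nd (nat_lit 10) (.lf (nat_lit 35318219) (dlOf (nat_lit 1) (nat_lit 0x400400020009014e82))) 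
(.lf (nat_lit 8054219) (dlOf (nat_lit 1) (nat_lit 0x20018513601)))) 
(.lf (nat_lit 39773131) (dlOf (nat_lit 1) (nat_lit 0xa00291f2881))))) (.nd (nat_lit 8) 
(.nd (nat_lit 9) (.nd (nat_lit 10) 
(.lf (nat_lit 45801551) (dlOf (nat_lit 1) (nat_lit 0x400200020009360702))) 
(.lf (nat_lit 8322127) (dlOf (nat_lit 1) (nat_lit 0x8000800040020002000851bf83)))) 
(.nd (nat_lit 11) (.lf (nat_lit 8053327) (dlOf (nat_lit 1) (nat_lit 0x40018511601))) 
(.lf (nat_lit 62843471) (dlOf (nat_lit 1) (nat_lit 0x4002000200099a5282))))) (.nd (nat_lit 7) 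
(.nd (nat_lit 9) 
(.lf (nat_lit 1881071951) (dlOf (nat_lit 2) (nat_lit 0x440000000002000a0018df8a01))) 
(.lf (nat_lit 8053583) (dlOf (nat_lit 1) (nat_lit 0xe0018512481)))) 
(.lf (nat_lit 3493781967) (dlOf (nat_lit 1) (nat_lit 0x100080008002000400081b0a03)))))))) 
(.nd (nat_lit 28) (.nd (nat_lit 2) (.nd (nat_lit 8) (.nd (nat_lit 9) (.nd (nat_lit 18) 
(.nd (nat_lit 19) (.lf (nat_lit 2752700491) (dlOf (nat_lit 1) (nat_lit 0x1fa0008030f81))) 
(.lf (nat_lit 2754273355) (dlOf (nat_lit 2) (nat_lit 0x340fe80013c08000800801c0002006200080d0d03)))) 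
(.lf (nat_lit 604430411) (dlOf (nat_lit 1) (nat_lit 0x28008000400200020008280003)))) 
(.nd (nat_lit 27) 
(.lf (nat_lit 4362265163) (dlOf (nat_lit 7) (nat_lit 0x708134004407a0002e0401a204d0001681000c02c804b815000940a00066044001102080428100013c07200fe02c008500a00008c480190150000440406240a8016c05001740250061011003d008400b8041012b020006980ec027c07201e2030007b0160016808c04340280001e1a01ee054004702100328100005c0760048039003c01800260050000381c023400200020008018d02))) 
(.nd (nat_lit 31) 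
(.lf (nat_lit 201515595) (dlOf (nat_lit 7) (nat_lit 0x52812803fc05e000680400aa04a00b701780019c1002e012802f805e0006604014604a00fe0178001081002b812802e405e000410400ac04a00b80178000fc10033000804bc002068c0008018d03))) 
(.lf (nat_lit 2348999243) (dlOf (nat_lit 2) (nat_lit 0x600f0007006800000100038008007400200180008091183)))))) 
(.nd (nat_lit 7) (.nd (nat_lit 11) 
(.lf (nat_lit 69920075) (dlOf (nat_lit 1) (nat_lit 0x400400020008e13302))) 
(.lf (nat_lit 3825397067) (dlOf (nat_lit 1) (nat_lit 0x220018146a01)))) (.nd (nat_lit 9) 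
(.nd (nat_lit 18) 
(.lf (nat_lit 5033353675) (dlOf (nat_lit 1) (nat_lit 0x30008000400200020008091103))) 
(.lf (nat_lit 2753487307) (dlOf (nat_lit 2) (nat_lit 0x4224002b1100000001000180080080002000c0008090983)))) 
(.lf (nat_lit 2751653835) (dlOf (nat_lit 2) (nat_lit 0x1024800008818004480)))))) (.nd (nat_lit 8) 
(.nd (nat_lit 9) (.nd (nat_lit 7) (.nd (nat_lit 18) 
(.lf (nat_lit 2752700495) (dlOf (nat_lit 1) (nat_lit 0x400400020008031002))) 
(.lf (nat_lit 68608079) (dlOf (nat_lit 1) (nat_lit 0x40008600201)))) 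
(.lf (nat_lit 68083919) (dlOf (nat_lit 1) (nat_lit 0x1d400083e0481)))) (.nd (nat_lit 10) 
(.lf (nat_lit 2751658575) (dlOf (nat_lit 2) (nat_lit 0x198844000000400080040010000800b602))) 
(.lf (nat_lit 6509751887) (dlOf (nat_lit 1) (nat_lit 0x40028147181))))) (.nd (nat_lit 7) 
(.nd (nat_lit 18) (.lf (nat_lit 4362264911) (dlOf (nat_lit 1) (nat_lit 0xc0028014c81))) 
(.lf (nat_lit 2752438607) (dlOf (nat_lit 1) (nat_lit 0x10008000800200040008014c83)))) 
(.nd (nat_lit 21) (.lf (nat_lit 2753487311) (dlOf (nat_lit 1) (nat_lit 0xc00200080008090a02))) 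
(.lf (nat_lit 2755584463) (dlOf (nat_lit 1) (nat_lit 0x100080008002000400081b0a03))))))) 
(.nd (nat_lit 2) (.nd (nat_lit 7) (.nd (nat_lit 9) (.nd (nat_lit 8) (.nd (nat_lit 18) 
(.nd (nat_lit 19) 
(.lf (nat_lit 5704441931) (dlOf (nat_lit 2) (nat_lit 0x100c8001c80800b80080068002003a0008080503))) 
(.lf (nat_lit 1409998923) (dlOf (nat_lit 3) (nat_lit 0x35016800740a400d204a000101b003780cc0178044005a01f0001a07000602d000301480040066000c022000600f8000c82801a00080040002003200080c1483)))) 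
(.lf (nat_lit 3557220427) (dlOf (nat_lit 3) (nat_lit 0xb20390000e0080d281c80002e04003800400940018170682)))) 
(.lf (nat_lit 1543695691) (dlOf (nat_lit 2) (nat_lit 0x20001400024040024004000c0008146a02)))) 
(.nd (nat_lit 11) 
(.lf (nat_lit 2483216971) (dlOf (nat_lit 2) (nat_lit 0x600f0007006800000100038008007400200180008091183))) 
(.lf (nat_lit 472312395) (dlOf (nat_lit 1) (nat_lit 0x30004001c0008985282))))) (.nd (nat_lit 10) 
(.nd (nat_lit 8) (.lf (nat_lit 3556963019) (dlOf (nat_lit 1) (nat_lit 0x400200020008128c82))) 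
(.lf (nat_lit 4095664587) (dlOf (nat_lit 1) (nat_lit 0x80080004002000200080e1103)))) 
(.nd (nat_lit 18) (.lf (nat_lit 872604875) (dlOf (nat_lit 1) (nat_lit 0x40028092d81))) 
(.lf (nat_lit 6375793867) (dlOf (nat_lit 1) (nat_lit 0x20018002d81)))))) (.nd (nat_lit 27) 
(.nd (nat_lit 7) (.nd (nat_lit 9) (.nd (nat_lit 18) 
(.lf (nat_lit 1946345551) (dlOf (nat_lit 1) (nat_lit 0x40028031001))) 
(.lf (nat_lit 3557220431) (dlOf (nat_lit 4) (nat_lit 0xde40000000402063a0000000101032203981b08000000000801fc00200220008170702)))) 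
(.lf (nat_lit 4095665743) (dlOf (nat_lit 1) (nat_lit 0x1400080e3881)))) (.nd (nat_lit 8) 
(.lf (nat_lit 3556963023) (dlOf (nat_lit 1) (nat_lit 0x400200020008128c82))) 
(.lf (nat_lit 3556963279) (dlOf (nat_lit 1) (nat_lit 0xa0028129201))))) (.nd (nat_lit 8) 
(.nd (nat_lit 9) 
(.lf (nat_lit 473882703) (dlOf (nat_lit 2) (nat_lit 0x2029800220d70000b028fc0700))) 
(.lf (nat_lit 472050255) (dlOf (nat_lit 1) (nat_lit 0x3400200060008805282)))) (.nd (nat_lit 10) 
(.lf (nat_lit 4228047183) (dlOf (nat_lit 1) (nat_lit 0xc0028014c81))) (.nd (nat_lit 11) 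
(.lf (nat_lit 2080826703) (dlOf (nat_lit 3) (nat_lit 0x80290000a8100030148000500800980080018002000c00080e3303))) 
(.lf (nat_lit 1543695695) (dlOf (nat_lit 6) (nat_lit 0x96026005000e80060060007002000420050009001000680000002a1c013003a00160180002008001200140002610000c00a0000802007e026004800e800480600038020000800500010000000143000400740000204003c004002a0018146a02))))))))))) 
(.nd (nat_lit 6) (.nd (nat_lit 2) (.nd (nat_lit 28) (.nd (nat_lit 20) (.nd (nat_lit 29) 
(.nd (nat_lit 21) (.nd (nat_lit 26) (.nd (nat_lit 18) (.nd (nat_lit 22) 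
(.lf (nat_lit 134471691) (dlOf (nat_lit 3) (nat_lit 0x12025000a0118004005e001402a00049040002017800168080008008004c002004a0008030483))) 
(.lf (nat_lit 12836875) (dlOf (nat_lit 1) (nat_lit 0x100080008002000400086e0003)))) 
(.lf (nat_lit 17817611) (dlOf (nat_lit 1) (nat_lit 0x14002000800088f0502)))) (.nd (nat_lit 18) 
(.nd (nat_lit 27) (.lf (nat_lit 67362827) (dlOf (nat_lit 1) (nat_lit 0xc00180e0101))) 
(.lf (nat_lit 201580555) (dlOf (nat_lit 3) (nat_lit 0x12025000a0118004005e001402a00049040002017800160080008008004c002004a0008030483)))) 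
(.lf (nat_lit 6510075915) (dlOf (nat_lit 1) (nat_lit 0x8004000800181b0082))))) (.nd (nat_lit 23) 
(.nd (nat_lit 7) (.lf (nat_lit 2613259) (dlOf (nat_lit 1) (nat_lit 0x400400020008170002))) 
(.lf (nat_lit 2351243) (dlOf (nat_lit 2) (nat_lit 0x12af00001d818150100)))) (.nd (nat_lit 19) 
(.lf (nat_lit 10739723) (dlOf (nat_lit 2) (nat_lit 0x2295e4001d204000800400400018620482))) 
(.lf (nat_lit 11264011) (dlOf (nat_lit 1) (nat_lit 0x20028680081)))))) (.nd (nat_lit 18) 
(.nd (nat_lit 26) (.nd (nat_lit 11) (.nd (nat_lit 27) 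
(.lf (nat_lit 537124875) (dlOf (nat_lit 1) (nat_lit 0x6c00400620008020482))) 
(.lf (nat_lit 671342603) (dlOf (nat_lit 1) (nat_lit 0x228008002800200540008160483)))) 
(.lf (nat_lit 5905836043) (dlOf (nat_lit 1) (nat_lit 0x20018144701)))) (.nd (nat_lit 19) 
(.lf (nat_lit 1812193291) (dlOf (nat_lit 3) (nat_lit 0x3002c001c0080011504000e00b0007002000450100198008003400200440008170483))) 
(.lf (nat_lit 2754338827) (dlOf (nat_lit 3) (nat_lit 0x210ff80148574000fe0800142b80000002000800180d0481))))) 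
(.nd (nat_lit 7) (.nd (nat_lit 27) 
(.lf (nat_lit 5906096139) (dlOf (nat_lit 1) (nat_lit 0x8004000800181b0082))) 
(.lf (nat_lit 2819088395) (dlOf (nat_lit 1) (nat_lit 0x78008001c002001000081a0483)))) 
(.nd (nat_lit 8) 
(.lf (nat_lit 604497035) (dlOf (nat_lit 5) (nat_lit 0x16030000500f000200000000c0c0030060000c01e000400000001418001800000006040038060000c01e00090000000001800700080014002000600082d2b03))) 
(.lf (nat_lit 537387403) (dlOf (nat_lit 2) (nat_lit 0x802f80327c080048008001800200080008090783))))))) 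
(.nd (nat_lit 24) (.nd (nat_lit 21) (.nd (nat_lit 18) (.nd (nat_lit 23) 
(.lf (nat_lit 68935691) (dlOf (nat_lit 1) (nat_lit 0x160018840001))) 
(.lf (nat_lit 10215435) (dlOf (nat_lit 1) (nat_lit 0x200085c0481)))) 
(.lf (nat_lit 14671883) (dlOf (nat_lit 1) (nat_lit 0x400200020008770002)))) (.nd (nat_lit 7) 
(.nd (nat_lit 9) 
(.lf (nat_lit 3661835) (dlOf (nat_lit 5) (nat_lit 0x18510000c270000e1330007074002b7c200018510000427000041330056f0300060a2000304e0002826600120e80056e0400030a2000184e0001026600100e80056d048210680))) 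
(.lf (nat_lit 8124939) (dlOf (nat_lit 1) (nat_lit 0x4001851b281)))) 
(.lf (nat_lit 12312715) (dlOf (nat_lit 1) (nat_lit 0x20008001c002000200086c0103))))) 
(.nd (nat_lit 19) (.nd (nat_lit 21) (.nd (nat_lit 18) 
(.lf (nat_lit 30662667) (dlOf (nat_lit 1) (nat_lit 0x800400040008e40502))) 
(.lf (nat_lit 30924811) (dlOf (nat_lit 1) (nat_lit 0x400400020008e50582)))) (.nd (nat_lit 7) 
(.lf (nat_lit 62119947) (dlOf (nat_lit 2) (nat_lit 0x128f00248804012c00400680009950002))) 
(.lf (nat_lit 62120331) (dlOf (nat_lit 1) (nat_lit 0x20029955d81))))) (.nd (nat_lit 23) 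
(.lf (nat_lit 18604043) (dlOf (nat_lit 1) (nat_lit 0xc00400220008950282))) 
(.lf (nat_lit 26992651) (dlOf (nat_lit 2) (nat_lit 0xdcb830031e018ca0480))))))) (.nd (nat_lit 27) 
(.nd (nat_lit 18) (.nd (nat_lit 19) (.nd (nat_lit 26) (.nd (nat_lit 29) (.nd (nat_lit 30) 
(.lf (nat_lit 4563656715) (dlOf (nat_lit 2) (nat_lit 0x102012000000180b0000))) 
(.lf (nat_lit 1342431243) (dlOf (nat_lit 3) (nat_lit 0x25a1cd000e50100860e6800610080058008000400200640008020483)))) 
(.lf (nat_lit 1879302155) (dlOf (nat_lit 1) (nat_lit 0x9000080d0681)))) 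
(.lf (nat_lit 1409540107) (dlOf (nat_lit 1) (nat_lit 0x6c00400620008020482)))) (.nd (nat_lit 21) 
(.lf (nat_lit 3557548043) (dlOf (nat_lit 1) (nat_lit 0x1400400020008260082))) 
(.lf (nat_lit 3492536331) (dlOf (nat_lit 3) (nat_lit 0x210f680148560000fe0800142ae0000002000800180d0481))))) 
(.nd (nat_lit 20) (.nd (nat_lit 7) (.nd (nat_lit 10) 
(.lf (nat_lit 1946675211) (dlOf (nat_lit 2) (nat_lit 0x3600e000270180f4700))) 
(.lf (nat_lit 1344791563) (dlOf (nat_lit 3) (nat_lit 0x2008d0033a81000f0468019d0080070008000400200420008982883)))) 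
(.lf (nat_lit 1946675339) (dlOf (nat_lit 1) (nat_lit 0x60008003c002001800080f4803)))) 
(.nd (nat_lit 8) (.lf (nat_lit 1346366475) (dlOf (nat_lit 1) (nat_lit 0xc40008f65f81))) 
(.nd (nat_lit 9) (.lf (nat_lit 1345839371) (dlOf (nat_lit 1) (nat_lit 0xa0008e03a01))) 
(.lf (nat_lit 1346366219) (dlOf (nat_lit 1) (nat_lit 0xc00400020018f65b02))))))) (.nd (nat_lit 26) 
(.nd (nat_lit 9) (.nd (nat_lit 10) (.nd (nat_lit 29) 
(.lf (nat_lit 4697874443) (dlOf (nat_lit 2) (nat_lit 0x102012000000180b0000))) 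
(.lf (nat_lit 939778059) (dlOf (nat_lit 3) (nat_lit 0x3002c001c0080011904000e00b0007002000460100198008003400200440008170483)))) 
(.lf (nat_lit 5234746379) (dlOf (nat_lit 1) (nat_lit 0x200280d2881)))) (.nd (nat_lit 10) 
(.lf (nat_lit 1476913675) (dlOf (nat_lit 4) (nat_lit 0x680d800580460002a040010045000a00e0000a4100018114001c06c001e023000400e0000a02001400080008002000200082d5003))) 
(.lf (nat_lit 4161009163) (dlOf (nat_lit 1) (nat_lit 0x200080a9c01))))) (.nd (nat_lit 20) 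
(.nd (nat_lit 29) (.nd (nat_lit 30) (.nd (nat_lit 31) 
(.lf (nat_lit 470016011) (dlOf (nat_lit 3) (nat_lit 0x25a1cd0009c8100860e68003cc080058008000400200640008020483))) 
(.lf (nat_lit 2617499659) (dlOf (nat_lit 1) (nat_lit 0x10004000a00180c0282)))) 
(.lf (nat_lit 1543757835) (dlOf (nat_lit 1) (nat_lit 0x228008002800200540008160483)))) 
(.lf (nat_lit 1006886923) (dlOf (nat_lit 1) (nat_lit 0x9000080d0681)))) 
(.lf (nat_lit 471064587) (dlOf (nat_lit 1) (nat_lit 0xf800802a0002019a0008260283))))))) 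
(.nd (nat_lit 28) (.nd (nat_lit 19) (.nd (nat_lit 20) (.nd (nat_lit 27) (.nd (nat_lit 18) 
(.nd (nat_lit 9) 
(.lf (nat_lit 5436071951) (dlOf (nat_lit 2) (nat_lit 0x1806c00000040008004000800180b0002))) 
(.lf (nat_lit 4832093711) (dlOf (nat_lit 1) (nat_lit 0x4200180d3681)))) (.nd (nat_lit 21) 
(.lf (nat_lit 1678237711) (dlOf (nat_lit 3) (nat_lit 0x98088004760200020440023a0181b0680))) 
(.lf (nat_lit 11001871) (dlOf (nat_lit 1) (nat_lit 0x580080004002000c0008650283))))) 
(.nd (nat_lit 29) (.nd (nat_lit 26) 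
(.lf (nat_lit 3355697167) (dlOf (nat_lit 4) (nat_lit 0xe008000154080058040000a404007c0640000002000200280c0381))) 
(.lf (nat_lit 3422806031) (dlOf (nat_lit 1) (nat_lit 0x2800800cc002007c00080c0383)))) 
(.nd (nat_lit 9) (.lf (nat_lit 3892830223) (dlOf (nat_lit 1) (nat_lit 0x3c00400200008280002))) 
(.lf (nat_lit 2818833935) (dlOf (nat_lit 1) (nat_lit 0xc000812ce01)))))) (.nd (nat_lit 18) 
(.nd (nat_lit 21) (.nd (nat_lit 9) 
(.lf (nat_lit 30662671) (dlOf (nat_lit 2) (nat_lit 0x1a73e007270200060028e40781))) 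
(.lf (nat_lit 9691663) (dlOf (nat_lit 4) (nat_lit 0x4800000974040004000004a602000c1b600020000012941000e000802d000200040008578403)))) 
(.nd (nat_lit 7) (.lf (nat_lit 24371215) (dlOf (nat_lit 1) (nat_lit 0x3a0008b90681))) 
(.lf (nat_lit 20181391) (dlOf (nat_lit 1) (nat_lit 0x4002000200089d8382))))) (.nd (nat_lit 21) 
(.nd (nat_lit 22) (.lf (nat_lit 9953295) (dlOf (nat_lit 1) (nat_lit 0x8c002000a00085a0a02))) 
(.lf (nat_lit 5758991) (dlOf (nat_lit 1) (nat_lit 0x1800183d0201)))) 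
(.lf (nat_lit 16244751) (dlOf (nat_lit 2) (nat_lit 0x1498a000000200040008870201)))))) 
(.nd (nat_lit 8) (.nd (nat_lit 10) (.nd (nat_lit 20) (.nd (nat_lit 18) 
(.lf (nat_lit 13361167) (dlOf (nat_lit 1) (nat_lit 0x64002003c0008720902))) 
(.lf (nat_lit 17817615) (dlOf (nat_lit 2) (nat_lit 0x44e338038540802e80080030002006c00088f0783)))) 
(.nd (nat_lit 21) 
(.lf (nat_lit 23060495) (dlOf (nat_lit 3) (nat_lit 0x192c2001095e000208200054af0000ec080078008002400200080008b50103))) 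
(.lf (nat_lit 12574735) (dlOf (nat_lit 1) (nat_lit 0x88002003000086d0682))))) (.nd (nat_lit 7) 
(.nd (nat_lit 20) (.lf (nat_lit 36430863) (dlOf (nat_lit 1) (nat_lit 0x60019072881))) 
(.lf (nat_lit 39576591) (dlOf (nat_lit 1) (nat_lit 0x20009192881)))) 
(.lf (nat_lit 19658383) (dlOf (nat_lit 1) (nat_lit 0x180080040002015600089d9e83))))) 
(.nd (nat_lit 7) (.nd (nat_lit 11) (.nd (nat_lit 21) 
(.lf (nat_lit 51110159) (dlOf (nat_lit 1) (nat_lit 0x16000400ac0009507402))) 
(.lf (nat_lit 69984527) (dlOf (nat_lit 1) (nat_lit 0x1000400100008e57402)))) (.nd (nat_lit 10) 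
(.lf (nat_lit 8124687) (dlOf (nat_lit 1) (nat_lit 0x4001851aa81))) 
(.lf (nat_lit 19655951) (dlOf (nat_lit 1) (nat_lit 0x4004000200089d6702))))) (.nd (nat_lit 9) 
(.nd (nat_lit 10) (.nd (nat_lit 18) 
(.lf (nat_lit 57403791) (dlOf (nat_lit 1) (nat_lit 0x80019794e81))) 
(.lf (nat_lit 45083023) (dlOf (nat_lit 1) (nat_lit 0x20029324e81)))) 
(.lf (nat_lit 19656079) (dlOf (nat_lit 2) (nat_lit 0x2a350000c0189d6c80)))) 
(.lf (nat_lit 54258575) (dlOf (nat_lit 1) (nat_lit 0x400200020009655c82))))))) (.nd (nat_lit 30) 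
(.nd (nat_lit 26) (.nd (nat_lit 27) (.nd (nat_lit 18) 
(.lf (nat_lit 4563656719) (dlOf (nat_lit 2) (nat_lit 0xd880d0034803e01e0012000000380b0000))) 
(.lf (nat_lit 805822479) (dlOf (nat_lit 3) (nat_lit 0x9808800a0c020002044005050181b0680)))) 
(.nd (nat_lit 9) 
(.lf (nat_lit 4697874447) (dlOf (nat_lit 2) (nat_lit 0xd880d0034803e01e0012000000380b0000))) 
(.lf (nat_lit 5234746895) (dlOf (nat_lit 2) (nat_lit 0x1005c0006c040004004000600080d3682))))) 
(.nd (nat_lit 7) (.nd (nat_lit 20) (.nd (nat_lit 29) 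
(.lf (nat_lit 470016015) (dlOf (nat_lit 2) (nat_lit 0xc0e68004e4080040008008000200b40008020483))) 
(.lf (nat_lit 5301854223) (dlOf (nat_lit 2) (nat_lit 0x1806c00000040008004000800180b0002)))) 
(.lf (nat_lit 471064591) (dlOf (nat_lit 1) (nat_lit 0x2d800200e80008260282)))) 
(.lf (nat_lit 470278287) (dlOf (nat_lit 1) (nat_lit 0x80080004002000200080c0103))))) 
(.nd (nat_lit 7) (.nd (nat_lit 10) (.nd (nat_lit 19) 
(.lf (nat_lit 1342431247) (dlOf (nat_lit 2) (nat_lit 0xc0e6800728080040008008000200b40008020483))) 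
(.lf (nat_lit 3557548047) (dlOf (nat_lit 5) (nat_lit 0xc06f0005f81000a024800381200004076002402100160100002302800f01c000780d6003c069001a0340016018800780b80008049000e0240011010c0078080003c03d001c01d800e80dc00340420030020001e00c00022c8000581240028090001203b000f010800a00800011414007c00400480018260182)))) 
(.nd (nat_lit 8) (.lf (nat_lit 6308490255) (dlOf (nat_lit 1) (nat_lit 0x18002003c00080d5f82))) 
(.lf (nat_lit 1344791823) (dlOf (nat_lit 1) (nat_lit 0x4000400060008983002))))) (.nd (nat_lit 8) 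
(.nd (nat_lit 11) 
(.lf (nat_lit 1342693519) (dlOf (nat_lit 1) (nat_lit 0x80080004002000200080c0103))) 
(.lf (nat_lit 3493062799) (dlOf (nat_lit 1) (nat_lit 0x10008000c002000600080f4803)))) 
(.nd (nat_lit 9) (.nd (nat_lit 10) 
(.lf (nat_lit 3490179471) (dlOf (nat_lit 1) (nat_lit 0x400200020008004e82))) 
(.lf (nat_lit 3489918351) (dlOf (nat_lit 1) (nat_lit 0x2000400080008006c82)))) 
(.lf (nat_lit 4094946191) (dlOf (nat_lit 1) (nat_lit 0x400080038002000a0008055c83))))))))) 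
(.nd (nat_lit 19) (.nd (nat_lit 27) (.nd (nat_lit 20) (.nd (nat_lit 30) (.nd (nat_lit 21) 
(.nd (nat_lit 2) (.nd (nat_lit 7) 
(.lf (nat_lit 4563656779) (dlOf (nat_lit 4) (nat_lit 0x1bc03201f400a80ff8048000660c006402a01fe012000190200ec0090000c4080118008003c00200ac00080b0603))) 
(.lf (nat_lit 805560779) (dlOf (nat_lit 2) (nat_lit 0xa00e0051c818127100)))) 
(.lf (nat_lit 4563656783) (dlOf (nat_lit 4) (nat_lit 0x2800220002b02001e00000007010134018801180b004d403802ca01400a0008800000280040008001c002001400080b0683)))) 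
(.nd (nat_lit 9) (.nd (nat_lit 18) 
(.lf (nat_lit 56877131) (dlOf (nat_lit 1) (nat_lit 0x400400020009770602))) 
(.lf (nat_lit 36167755) (dlOf (nat_lit 1) (nat_lit 0x8008000400200020009030603)))) 
(.lf (nat_lit 44558923) (dlOf (nat_lit 1) (nat_lit 0x400400020009325282))))) (.nd (nat_lit 18) 
(.nd (nat_lit 9) (.nd (nat_lit 21) 
(.lf (nat_lit 5436072011) (dlOf (nat_lit 1) (nat_lit 0x180080004002001200080b0603))) 
(.lf (nat_lit 1344528459) (dlOf (nat_lit 1) (nat_lit 0x8008000800200020008820603)))) 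
(.lf (nat_lit 1677976139) (dlOf (nat_lit 5) (nat_lit 0x4601c0003d40803c014401d4096000203300011830132028808f812c00440740001e0600e805100080258000701002400080004002000a0008128d03)))) 
(.nd (nat_lit 2) (.nd (nat_lit 7) 
(.lf (nat_lit 1346887755) (dlOf (nat_lit 1) (nat_lit 0x2c0029040001))) 
(.lf (nat_lit 3221742027) (dlOf (nat_lit 3) (nat_lit 0x2022000081040007a08000408c000e045000d021800681080010080000e03f000101c0000003800d000800e8002000c0008170983)))) 
(.lf (nat_lit 3221742031) (dlOf (nat_lit 2) (nat_lit 0x88144005c09c003004d000901a8000002000e800800fc002000a0008170a03)))))) 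
(.nd (nat_lit 21) (.nd (nat_lit 8) (.nd (nat_lit 2) (.nd (nat_lit 9) 
(.lf (nat_lit 43245643) (dlOf (nat_lit 1) (nat_lit 0x4002000200092a0002))) 
(.lf (nat_lit 9691723) (dlOf (nat_lit 2) (nat_lit 0x394840003804001c00400280008578d02)))) 
(.lf (nat_lit 1880353359) (dlOf (nat_lit 1) (nat_lit 0x1c0028865281)))) (.nd (nat_lit 2) 
(.nd (nat_lit 18) (.lf (nat_lit 9691467) (dlOf (nat_lit 1) (nat_lit 0x50008002800200240008574c83))) 
(.lf (nat_lit 1565003) (dlOf (nat_lit 1) (nat_lit 0x4004000200080f8002)))) 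
(.lf (nat_lit 22274383) (dlOf (nat_lit 1) (nat_lit 0x1040028ab8181))))) (.nd (nat_lit 2) 
(.nd (nat_lit 7) (.lf (nat_lit 24371275) (dlOf (nat_lit 1) (nat_lit 0x20018b90f01))) 
(.nd (nat_lit 8) (.lf (nat_lit 20181707) (dlOf (nat_lit 1) (nat_lit 0x80080004002000200089d8c83))) 
(.lf (nat_lit 12050891) (dlOf (nat_lit 1) (nat_lit 0x400086c0981))))) (.nd (nat_lit 9) 
(.lf (nat_lit 28565583) (dlOf (nat_lit 1) (nat_lit 0x400400020008da0202))) 
(.lf (nat_lit 53996111) (dlOf (nat_lit 1) (nat_lit 0x200195f5281))))))) (.nd (nat_lit 26) 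
(.nd (nat_lit 28) (.nd (nat_lit 31) (.nd (nat_lit 2) (.nd (nat_lit 29) 
(.lf (nat_lit 134471755) (dlOf (nat_lit 1) (nat_lit 0x8008000400200020008030f83))) 
(.lf (nat_lit 671342667) (dlOf (nat_lit 1) (nat_lit 0x218008002c002005a0008160903)))) 
(.nd (nat_lit 29) 
(.lf (nat_lit 134471759) (dlOf (nat_lit 1) (nat_lit 0x8008000400200020008031003))) 
(.lf (nat_lit 671342671) (dlOf (nat_lit 1) (nat_lit 0x230008002000200520008160903))))) 
(.nd (nat_lit 7) (.nd (nat_lit 10) 
(.lf (nat_lit 3892568143) (dlOf (nat_lit 1) (nat_lit 0x400400020008160182))) 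
(.lf (nat_lit 2818833487) (dlOf (nat_lit 1) (nat_lit 0x1000800080020002000812bf83)))) 
(.lf (nat_lit 2818833359) (dlOf (nat_lit 1) (nat_lit 0x40020008000812bf02))))) (.nd (nat_lit 10) 
(.nd (nat_lit 2) 
(.lf (nat_lit 4697874507) (dlOf (nat_lit 4) (nat_lit 0x1bc03201f400a80ff8048000640c006402a01fe012000188200ec0090000c0080118008003c00200ac00080b0603))) 
(.nd (nat_lit 29) 
(.lf (nat_lit 4697874511) (dlOf (nat_lit 4) (nat_lit 0x2800220002b02001e00000007010134018801180b004d403802ca01400a0008800000280040008001c002001400080b0683))) 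
(.lf (nat_lit 939778127) (dlOf (nat_lit 3) (nat_lit 0x70130000c80800800880005804004400200040008171002))))) 
(.nd (nat_lit 2) (.lf (nat_lit 4698137931) (dlOf (nat_lit 1) (nat_lit 0x800200020008123302))) 
(.nd (nat_lit 7) 
(.lf (nat_lit 4698137935) (dlOf (nat_lit 4) (nat_lit 0x2a406800fc032008a00f803380540198024000250a000a0310000f0100010198000240803c8008003400200c00008123303))) 
(.lf (nat_lit 3624135887) (dlOf (nat_lit 3) (nat_lit 0xc07a0000602000200000000018146400))))))) 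
(.nd (nat_lit 2) (.nd (nat_lit 28) (.nd (nat_lit 7) (.nd (nat_lit 8) 
(.lf (nat_lit 201580619) (dlOf (nat_lit 1) (nat_lit 0x8008000400200020008030f83))) 
(.lf (nat_lit 2885937483) (dlOf (nat_lit 2) (nat_lit 0x200000002818144d80)))) 
(.lf (nat_lit 3959939531) (dlOf (nat_lit 3) (nat_lit 0x2022000081040007c08000408c000e045000d021800681080010080000e03f000101c0000003800d000800e8002000c0008170983)))) 
(.nd (nat_lit 22) (.nd (nat_lit 29) 
(.lf (nat_lit 1543757899) (dlOf (nat_lit 1) (nat_lit 0x218008002c002005a0008160903))) 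
(.lf (nat_lit 5301854283) (dlOf (nat_lit 1) (nat_lit 0x180080004002001200080b0603)))) 
(.lf (nat_lit 474210379) (dlOf (nat_lit 1) (nat_lit 0x200290e0001))))) (.nd (nat_lit 8) 
(.nd (nat_lit 28) (.nd (nat_lit 29) 
(.lf (nat_lit 201580623) (dlOf (nat_lit 1) (nat_lit 0x8008000400200020008031003))) 
(.lf (nat_lit 1812193359) (dlOf (nat_lit 3) (nat_lit 0x70130000cc0800800880005a04004400200040008171002)))) 
(.lf (nat_lit 1543757903) (dlOf (nat_lit 1) (nat_lit 0x230008002000200520008160903)))) 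
(.nd (nat_lit 7) 
(.lf (nat_lit 2885937487) (dlOf (nat_lit 4) (nat_lit 0x2c0208000580800701040018000000050400200410001000000010100120008000800200220008144d83))) 
(.nd (nat_lit 9) 
(.lf (nat_lit 3959939535) (dlOf (nat_lit 2) (nat_lit 0x88144005c09c003004d000901a8000002000e800800fc002000a0008170a03))) 
(.lf (nat_lit 2885937103) (dlOf (nat_lit 4) (nat_lit 0x130220001010c000807c000803c004e01b800400d40014062001600000008880011021801680f8003c07800ee037001601a801180c4008800c001a0000000808004e01b80003c080160008001400200060008144483))))))))) 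
(.nd (nat_lit 20) (.nd (nat_lit 24) (.nd (nat_lit 26) (.nd (nat_lit 2) (.nd (nat_lit 18) 
(.nd (nat_lit 28) 
(.lf (nat_lit 2875467) (dlOf (nat_lit 3) (nat_lit 0x2b0f880009c0804d07c402682e801380af009c0518000882002200080244002002600081c0d03))) 
(.lf (nat_lit 3492536395) (dlOf (nat_lit 2) (nat_lit 0x5c0f580015808004000800bc00200a400080d0d03)))) 
(.lf (nat_lit 13623371) (dlOf (nat_lit 3) (nat_lit 0x1300000004c02005000000020018730d00)))) 
(.nd (nat_lit 8) 
(.lf (nat_lit 3492536399) (dlOf (nat_lit 2) (nat_lit 0xd0f58001580800100080010002000600080d0d03))) 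
(.lf (nat_lit 40625487) (dlOf (nat_lit 1) (nat_lit 0x80080004002000200091f3303))))) 
(.nd (nat_lit 2) (.nd (nat_lit 8) (.nd (nat_lit 9) 
(.lf (nat_lit 2754338891) (dlOf (nat_lit 2) (nat_lit 0x5c0fe80013c08004000800bc00200a400080d0d03))) 
(.lf (nat_lit 2752504395) (dlOf (nat_lit 2) (nat_lit 0x580690032012000000100030008000800200020008018d03)))) 
(.lf (nat_lit 1410070859) (dlOf (nat_lit 2) (nat_lit 0xa40000066202003600180fab81)))) 
(.nd (nat_lit 7) 
(.lf (nat_lit 2754338895) (dlOf (nat_lit 2) (nat_lit 0xd0fe80013c0800100080010002000600080d0d03))) 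
(.lf (nat_lit 4362857935) (dlOf (nat_lit 1) (nat_lit 0x1000200060008116d02)))))) (.nd (nat_lit 2) 
(.nd (nat_lit 7) (.nd (nat_lit 8) (.nd (nat_lit 9) 
(.lf (nat_lit 59498571) (dlOf (nat_lit 1) (nat_lit 0x20019800601))) 
(.lf (nat_lit 19920459) (dlOf (nat_lit 1) (nat_lit 0x400289d9c01)))) 
(.lf (nat_lit 19656011) (dlOf (nat_lit 1) (nat_lit 0x4004000200089d6a02)))) (.nd (nat_lit 8) 
(.nd (nat_lit 9) (.lf (nat_lit 17555659) (dlOf (nat_lit 1) (nat_lit 0x600088e0481))) 
(.lf (nat_lit 19657419) (dlOf (nat_lit 1) (nat_lit 0x80080004002000200089d8c83)))) 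
(.lf (nat_lit 19655627) (dlOf (nat_lit 1) (nat_lit 0x80080004002000200089d5d83))))) 
(.nd (nat_lit 9) (.nd (nat_lit 18) (.nd (nat_lit 23) 
(.lf (nat_lit 17555535) (dlOf (nat_lit 2) (nat_lit 0x27baf0002f8188e0200))) 
(.lf (nat_lit 59498575) (dlOf (nat_lit 8) (nat_lit 0x3533e802519f00230ccc0124665008b2ca0047964c021c9cc008c4d40000b08001c333001016500002a0802ecb280001102004666600362ca00004010010199800ccb280000304000666600342ca000008100119998006cb280000004015e0019800701)))) 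
(.lf (nat_lit 30400591) (dlOf (nat_lit 2) (nat_lit 0x278620002f818e30200)))) (.nd (nat_lit 7) 
(.lf (nat_lit 19658575) (dlOf (nat_lit 1) (nat_lit 0x200289da201))) 
(.lf (nat_lit 19657423) (dlOf (nat_lit 1) (nat_lit 0x80080004002000200089d8c83))))))) 
(.nd (nat_lit 18) (.nd (nat_lit 2) (.nd (nat_lit 23) (.nd (nat_lit 7) 
(.lf (nat_lit 1346101323) (dlOf (nat_lit 1) (nat_lit 0x18008000c00200020008e40603))) 
(.lf (nat_lit 8118731) (dlOf (nat_lit 1) (nat_lit 0x40008004c00200020008511103)))) 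
(.nd (nat_lit 21) (.lf (nat_lit 10215499) (dlOf (nat_lit 1) (nat_lit 0x4004000200085c0f82))) 
(.lf (nat_lit 45867083) (dlOf (nat_lit 3) (nat_lit 0x3ee7c00156bb000a602001cb9f000c5aec0028608016000400740019360602))))) 
(.nd (nat_lit 21) (.nd (nat_lit 23) (.nd (nat_lit 26) 
(.lf (nat_lit 5773189199) (dlOf (nat_lit 2) (nat_lit 0x309f0000880800200080010002000e00080b0683))) 
(.lf (nat_lit 6377168975) (dlOf (nat_lit 2) (nat_lit 0x30988000880800200080010002000e00080b0683)))) 
(.lf (nat_lit 10215503) (dlOf (nat_lit 1) (nat_lit 0x4004000200085c1002)))) (.nd (nat_lit 8) 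
(.lf (nat_lit 45867087) (dlOf (nat_lit 7) (nat_lit 0x22ed760003f0200f36bb0001e81000db5d80003c0804e5cf80266d760000704001173e0038b5d80001810007daec00000040008004000a0009360702))) 
(.lf (nat_lit 8124751) (dlOf (nat_lit 1) (nat_lit 0x8008000c0020002000851ab83)))))) 
(.nd (nat_lit 22) (.nd (nat_lit 8) (.nd (nat_lit 2) 
(.lf (nat_lit 12574795) (dlOf (nat_lit 1) (nat_lit 0x80080004002000200086d0f03))) 
(.lf (nat_lit 4186319) (dlOf (nat_lit 1) (nat_lit 0x400400020008290482)))) (.nd (nat_lit 26) 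
(.lf (nat_lit 3493847371) (dlOf (nat_lit 1) (nat_lit 0x200081b0601))) 
(.lf (nat_lit 2755649867) (dlOf (nat_lit 1) (nat_lit 0x200181b0601))))) (.nd (nat_lit 10) 
(.nd (nat_lit 24) (.lf (nat_lit 41934923) (dlOf (nat_lit 1) (nat_lit 0x400400020009240002))) 
(.lf (nat_lit 25157707) (dlOf (nat_lit 1) (nat_lit 0x840018be1481)))) (.nd (nat_lit 8) 
(.lf (nat_lit 8385611) (dlOf (nat_lit 3) (nat_lit 0x48000000b8040028000000430200060018519301))) 
(.lf (nat_lit 50324811) (dlOf (nat_lit 1) (nat_lit 0x280080008002000400094c3303))))))))))))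

end

end Pool.Agent.Lib.MP_5854e1_co.Cz

namespace Pool.Agent.Lib.MP_5854e1_co.Cz

noncomputable section

noncomputable def tz191 : DT := (.nd (nat_lit 2) (.nd (nat_lit 18) (.nd (nat_lit 3) 
(.nd (nat_lit 16) (.nd (nat_lit 6) (.nd (nat_lit 28) (.nd (nat_lit 19) (.nd (nat_lit 29) 
(.nd (nat_lit 21) (.nd (nat_lit 24) (.nd (nat_lit 7) 
(.lf (nat_lit 37937187) (dlOf (nat_lit 1) (nat_lit 0x4004000200090f0182))) 
(.lf (nat_lit 46328739) (dlOf (nat_lit 1) (nat_lit 0x500029385c81)))) (.nd (nat_lit 22) 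
(.lf (nat_lit 16965667) (dlOf (nat_lit 1) (nat_lit 0x4002000200088e0002))) 
(.lf (nat_lit 21159971) (dlOf (nat_lit 2) (nat_lit 0x20014000aa04000c00400060018a10582))))) 
(.nd (nat_lit 7) (.nd (nat_lit 9) 
(.lf (nat_lit 44228643) (dlOf (nat_lit 3) (nat_lit 0xb222c00e0c5e008e61400152fe0001582000b18bc000220400dc004006000092e0182))) 
(.lf (nat_lit 20114979) (dlOf (nat_lit 1) (nat_lit 0x8002000200089d7182)))) 
(.lf (nat_lit 69395619) (dlOf (nat_lit 1) (nat_lit 0x80018962c01))))) (.nd (nat_lit 26) 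
(.nd (nat_lit 7) (.nd (nat_lit 8) 
(.lf (nat_lit 4832026659) (dlOf (nat_lit 1) (nat_lit 0x100080004002008a0008090183))) 
(.lf (nat_lit 4966244643) (dlOf (nat_lit 1) (nat_lit 0x20008090a81)))) 
(.lf (nat_lit 2684548259) (dlOf (nat_lit 1) (nat_lit 0x4004000200080a9502)))) (.nd (nat_lit 27) 
(.nd (nat_lit 10) 
(.lf (nat_lit 4899135523) (dlOf (nat_lit 2) (nat_lit 0x6006c009000e0004504001c0018080181))) 
(.lf (nat_lit 3825396771) (dlOf (nat_lit 1) (nat_lit 0x280080014002000a0008146083)))) 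
(.nd (nat_lit 7) 
(.lf (nat_lit 1812128035) (dlOf (nat_lit 2) (nat_lit 0x1c80980086604006000200180008154302))) 
(.lf (nat_lit 5033353379) (dlOf (nat_lit 1) (nat_lit 0x20028090581))))))) (.nd (nat_lit 25) 
(.nd (nat_lit 20) (.nd (nat_lit 22) 
(.lf (nat_lit 537583651) (dlOf (nat_lit 1) (nat_lit 0x9c00080c0b01))) 
(.lf (nat_lit 21684259) (dlOf (nat_lit 1) (nat_lit 0x20008a60b81)))) (.nd (nat_lit 8) 
(.lf (nat_lit 16441379) (dlOf (nat_lit 1) (nat_lit 0x4004000200188a0582))) 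
(.lf (nat_lit 8059171) (dlOf (nat_lit 1) (nat_lit 0x180040002000851ab82))))) (.nd (nat_lit 23) 
(.nd (nat_lit 8) (.lf (nat_lit 36365475) (dlOf (nat_lit 1) (nat_lit 0x20019072c01))) 
(.lf (nat_lit 37415331) (dlOf (nat_lit 1) (nat_lit 0x1200090d4e81)))) (.nd (nat_lit 7) 
(.lf (nat_lit 45801507) (dlOf (nat_lit 2) (nat_lit 0x2c1890001f019360180))) 
(.lf (nat_lit 60481699) (dlOf (nat_lit 4) (nat_lit 0x22a3c0000981000951e0000440800829180002004008c00400120009871402))))))) 
(.nd (nat_lit 26) (.nd (nat_lit 32) (.nd (nat_lit 8) (.nd (nat_lit 19) 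
(.lf (nat_lit 1343414307) (dlOf (nat_lit 1) (nat_lit 0x40018230581))) 
(.lf (nat_lit 1344987171) (dlOf (nat_lit 4) (nat_lit 0x260b0002482340088118009e07d003b03e00009c280098580009811a004c07d001a03e0000982000104680003e040008002000400089a0182)))) 
(.lf (nat_lit 3489852707) (dlOf (nat_lit 1) (nat_lit 0x20018006801)))) (.nd (nat_lit 7) 
(.nd (nat_lit 30) 
(.lf (nat_lit 5234679843) (dlOf (nat_lit 4) (nat_lit 0x6018000100bc0008c0800f006400080310043018001d80a000f003a00020040002286000101800010c080010008000400200120008080183))) 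
(.lf (nat_lit 6308421667) (dlOf (nat_lit 4) (nat_lit 0xaa006001ec02a02b8008000230300f800c0004805403b001000045060102018002c00a803b0020000700c011800400c20018080182)))) 
(.lf (nat_lit 5637334435) (dlOf (nat_lit 1) (nat_lit 0x4c00280d3601))))) (.nd (nat_lit 7) 
(.nd (nat_lit 31) (.nd (nat_lit 19) 
(.lf (nat_lit 5704441891) (dlOf (nat_lit 4) (nat_lit 0xaa006001ec02a02b8008000230300f800c0004805403b001000045060102018002c00a803b0020000700c011800400c20018080182))) 
(.lf (nat_lit 1409998883) (dlOf (nat_lit 1) (nat_lit 0x9c00080c0b01)))) (.nd (nat_lit 20) 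
(.lf (nat_lit 3557482531) (dlOf (nat_lit 2) (nat_lit 0x28124014d804000400200020008220682))) 
(.lf (nat_lit 4095402019) (dlOf (nat_lit 1) (nat_lit 0x78004000e00180a0882))))) (.nd (nat_lit 8) 
(.lf (nat_lit 472050339) (dlOf (nat_lit 1) (nat_lit 0x60018805601))) (.nd (nat_lit 10) 
(.lf (nat_lit 3556964771) (dlOf (nat_lit 1) (nat_lit 0x40040002000812af82))) 
(.lf (nat_lit 3556963747) (dlOf (nat_lit 1) (nat_lit 0x68008002c002000e0008129903)))))))) 
(.nd (nat_lit 7) (.nd (nat_lit 19) (.nd (nat_lit 28) (.nd (nat_lit 8) (.nd (nat_lit 10) 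
(.lf (nat_lit 14868579) (dlOf (nat_lit 1) (nat_lit 0x2c0008000800200020008790d03))) 
(.lf (nat_lit 2818765923) (dlOf (nat_lit 1) (nat_lit 0x10008000400200020008129403)))) 
(.lf (nat_lit 2281894755) (dlOf (nat_lit 1) (nat_lit 0x600180a8f81)))) (.nd (nat_lit 8) 
(.nd (nat_lit 9) (.lf (nat_lit 1008918627) (dlOf (nat_lit 1) (nat_lit 0x400400020008fe0902))) 
(.lf (nat_lit 2013455971) (dlOf (nat_lit 1) (nat_lit 0x28008000400200020008093903)))) 
(.lf (nat_lit 3489851747) (dlOf (nat_lit 1) (nat_lit 0x800200020008004e82))))) (.nd (nat_lit 24) 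
(.nd (nat_lit 8) (.nd (nat_lit 26) 
(.lf (nat_lit 1344987235) (dlOf (nat_lit 4) (nat_lit 0x1481d4000660400802ac004a13b002809c8013033400c012c0064085002d03a801701cc0005a2001342ac00a413b005409c80290334013c12c00a0085004e03a802701cc000562000dc004002e00189a0902))) 
(.lf (nat_lit 472572003) (dlOf (nat_lit 1) (nat_lit 0x10004001400089c0902)))) 
(.lf (nat_lit 36366691) (dlOf (nat_lit 1) (nat_lit 0x400400020019074e82)))) (.nd (nat_lit 9) 
(.lf (nat_lit 30072931) (dlOf (nat_lit 1) (nat_lit 0x400400020008e30482))) (.nd (nat_lit 23) 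
(.lf (nat_lit 53143139) (dlOf (nat_lit 1) (nat_lit 0x48004001c0009573902))) 
(.lf (nat_lit 61531747) (dlOf (nat_lit 1) (nat_lit 0x20029923901))))))) (.nd (nat_lit 9) 
(.nd (nat_lit 26) (.nd (nat_lit 8) (.nd (nat_lit 10) 
(.lf (nat_lit 4966244579) (dlOf (nat_lit 1) (nat_lit 0x380080020002000a0008090a83))) 
(.lf (nat_lit 5637334243) (dlOf (nat_lit 1) (nat_lit 0x200280d2e01)))) (.nd (nat_lit 29) 
(.lf (nat_lit 5503117795) (dlOf (nat_lit 1) (nat_lit 0x18008000c00200060008094e83))) 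
(.lf (nat_lit 4966246883) (dlOf (nat_lit 1) (nat_lit 0x180080024002000e0008094e83))))) 
(.nd (nat_lit 10) (.nd (nat_lit 28) 
(.lf (nat_lit 201515491) (dlOf (nat_lit 1) (nat_lit 0x4004000a0008017d02))) 
(.lf (nat_lit 4228047331) (dlOf (nat_lit 2) (nat_lit 0xe40540003f0200040028017301)))) 
(.lf (nat_lit 3020092899) (dlOf (nat_lit 1) (nat_lit 0x58008001000200080008129b03))))) 
(.nd (nat_lit 8) (.nd (nat_lit 11) 
(.lf (nat_lit 2818765539) (dlOf (nat_lit 1) (nat_lit 0x400200020008128c82))) (.nd (nat_lit 12) 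
(.lf (nat_lit 715491) (dlOf (nat_lit 2) (nat_lit 0x14984000300200020018005981))) 
(.lf (nat_lit 3154311907) (dlOf (nat_lit 1) (nat_lit 0x8800800340020018000815b983))))) 
(.nd (nat_lit 19) (.nd (nat_lit 26) 
(.lf (nat_lit 671278051) (dlOf (nat_lit 3) (nat_lit 0x1403e0103a02005a028007f2818142880))) 
(.lf (nat_lit 2080564195) (dlOf (nat_lit 1) (nat_lit 0x1b0008011c00200ce0008092883)))) 
(.lf (nat_lit 36365283) (dlOf (nat_lit 1) (nat_lit 0x40019072881)))))))) (.nd (nat_lit 21) 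
(.nd (nat_lit 28) (.nd (nat_lit 7) (.nd (nat_lit 24) (.nd (nat_lit 6) (.nd (nat_lit 8) 
(.lf (nat_lit 2684608547) (dlOf (nat_lit 1) (nat_lit 0x2800800cc002007c00080c0803))) 
(.lf (nat_lit 9691427) (dlOf (nat_lit 1) (nat_lit 0x2460008574301)))) (.nd (nat_lit 11) 
(.lf (nat_lit 5436072035) (dlOf (nat_lit 2) (nat_lit 0x3006c00000040068004003200180b0d82))) 
(.lf (nat_lit 134998115) (dlOf (nat_lit 1) (nat_lit 0x1c00280f4701))))) (.nd (nat_lit 20) 
(.nd (nat_lit 22) (.lf (nat_lit 17031203) (dlOf (nat_lit 1) (nat_lit 0x4002000200088e0002))) 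
(.lf (nat_lit 21225507) (dlOf (nat_lit 1) (nat_lit 0x20018a20581)))) 
(.lf (nat_lit 26468387) (dlOf (nat_lit 2) (nat_lit 0x19d0800000080018008001400200080008c50183))))) 
(.nd (nat_lit 6) (.nd (nat_lit 8) (.nd (nat_lit 10) 
(.lf (nat_lit 56355491) (dlOf (nat_lit 1) (nat_lit 0x20009735601))) 
(.lf (nat_lit 6509817507) (dlOf (nat_lit 2) (nat_lit 0x2280000005404006400200080008147202)))) 
(.lf (nat_lit 537656227) (dlOf (nat_lit 1) (nat_lit 0x200080fbd01)))) (.nd (nat_lit 8) 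
(.lf (nat_lit 2818831075) (dlOf (nat_lit 1) (nat_lit 0x8008000400200020008128c83))) 
(.lf (nat_lit 1677976035) (dlOf (nat_lit 2) (nat_lit 0x380380095404000800200480008127d02)))))) 
(.nd (nat_lit 6) (.nd (nat_lit 26) (.nd (nat_lit 20) (.nd (nat_lit 29) 
(.lf (nat_lit 1342431267) (dlOf (nat_lit 3) (nat_lit 0x45c39a001ab0200061cd000c5818020480))) 
(.lf (nat_lit 4026785827) (dlOf (nat_lit 1) (nat_lit 0x20018090001)))) 
(.lf (nat_lit 1343479843) (dlOf (nat_lit 1) (nat_lit 0x300080050002003e0008260683)))) 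
(.nd (nat_lit 7) (.nd (nat_lit 31) 
(.lf (nat_lit 470016035) (dlOf (nat_lit 3) (nat_lit 0x64439a0011d0200a61cd0007c018020480))) 
(.lf (nat_lit 2617499683) (dlOf (nat_lit 4) (nat_lit 0xe008000154080058040000a404007c05e0000002000200280c0801)))) 
(.lf (nat_lit 1007938211) (dlOf (nat_lit 1) (nat_lit 0x200288c5601))))) (.nd (nat_lit 11) 
(.nd (nat_lit 27) (.nd (nat_lit 7) 
(.lf (nat_lit 2483282019) (dlOf (nat_lit 2) (nat_lit 0x202a000130180a1380))) 
(.lf (nat_lit 805560803) (dlOf (nat_lit 10) (nat_lit 0x210038000d204010801c0006802008400e000338100420070001980802100380008804010801c0004202008e00e000208100420070001000802100380007e04000c002004e0008127302)))) 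
(.nd (nat_lit 32) (.lf (nat_lit 1006887011) (dlOf (nat_lit 1) (nat_lit 0x200080d1281))) 
(.lf (nat_lit 5301854307) (dlOf (nat_lit 2) (nat_lit 0x3006c00000040068004003200180b0d82))))) 
(.nd (nat_lit 7) (.nd (nat_lit 8) 
(.lf (nat_lit 1410070627) (dlOf (nat_lit 1) (nat_lit 0x2800080fa801))) 
(.lf (nat_lit 3624135011) (dlOf (nat_lit 1) (nat_lit 0x40028144e81)))) 
(.lf (nat_lit 3489918179) (dlOf (nat_lit 1) (nat_lit 0x400400020008006502))))))) (.nd (nat_lit 20) 
(.nd (nat_lit 7) (.nd (nat_lit 8) (.nd (nat_lit 28) (.nd (nat_lit 10) 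
(.lf (nat_lit 2875427) (dlOf (nat_lit 3) (nat_lit 0x82d4001ed02000e16a000f30181c0900))) 
(.lf (nat_lit 19655715) (dlOf (nat_lit 1) (nat_lit 0x28004000600189d6082)))) (.nd (nat_lit 6) 
(.lf (nat_lit 4096516131) (dlOf (nat_lit 1) (nat_lit 0x28008001c00200060008120183))) 
(.lf (nat_lit 1344528483) (dlOf (nat_lit 1) (nat_lit 0x23c00400ac0008820902))))) (.nd (nat_lit 19) 
(.lf (nat_lit 2351395) (dlOf (nat_lit 1) (nat_lit 0x3c800201620008150502))) 
(.lf (nat_lit 23847203) (dlOf (nat_lit 1) (nat_lit 0x100028b80501))))) (.nd (nat_lit 6) 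
(.nd (nat_lit 9) (.lf (nat_lit 36431011) (dlOf (nat_lit 1) (nat_lit 0x4c0009072c01))) 
(.lf (nat_lit 44821155) (dlOf (nat_lit 1) (nat_lit 0x140029325601)))) (.nd (nat_lit 8) 
(.nd (nat_lit 9) (.lf (nat_lit 7069923) (dlOf (nat_lit 1) (nat_lit 0x200284b0581))) 
(.lf (nat_lit 57404131) (dlOf (nat_lit 1) (nat_lit 0x400400020009795982)))) 
(.lf (nat_lit 36430819) (dlOf (nat_lit 1) (nat_lit 0x20019072881)))))) (.nd (nat_lit 7) 
(.nd (nat_lit 9) (.nd (nat_lit 28) (.nd (nat_lit 26) 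
(.lf (nat_lit 3924003) (dlOf (nat_lit 12) (nat_lit 0x1312c80040940000560400185110002901000d2888001440800d94440007c0400b0a220003c0200145110001b0100082888000d408004144400068040090964000e4a00000882002625900021280000200800640000000002000e0018250b81))) 
(.lf (nat_lit 2755387427) (dlOf (nat_lit 1) (nat_lit 0x1e0018170501)))) (.nd (nat_lit 31) 
(.lf (nat_lit 1346101283) (dlOf (nat_lit 1) (nat_lit 0x400400020008e40182))) 
(.lf (nat_lit 3493584931) (dlOf (nat_lit 1) (nat_lit 0x1e0018170501))))) (.nd (nat_lit 8) 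
(.lf (nat_lit 8122915) (dlOf (nat_lit 1) (nat_lit 0x8008000400200020008518883))) 
(.lf (nat_lit 8122147) (dlOf (nat_lit 1) (nat_lit 0x80028517481))))) (.nd (nat_lit 8) 
(.nd (nat_lit 9) (.nd (nat_lit 10) 
(.lf (nat_lit 62120099) (dlOf (nat_lit 1) (nat_lit 0x300019951381))) 
(.lf (nat_lit 36955299) (dlOf (nat_lit 1) (nat_lit 0x1a00080004002002c0009072c03)))) 
(.lf (nat_lit 8118947) (dlOf (nat_lit 1) (nat_lit 0x20008511c81)))) (.nd (nat_lit 6) 
(.lf (nat_lit 8119203) (dlOf (nat_lit 1) (nat_lit 0x80008005c00200340008512603))) 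
(.lf (nat_lit 3493062627) (dlOf (nat_lit 1) (nat_lit 0x4002000200080f4582))))))))) (.nd (nat_lit 6) 
(.nd (nat_lit 19) (.nd (nat_lit 16) (.nd (nat_lit 9) (.nd (nat_lit 23) (.nd (nat_lit 26) 
(.nd (nat_lit 27) (.lf (nat_lit 2416107563) (dlOf (nat_lit 2) (nat_lit 0x6800000012818070800))) 
(.lf (nat_lit 6576857131) (dlOf (nat_lit 1) (nat_lit 0x340018160501)))) (.nd (nat_lit 7) 
(.nd (nat_lit 10) (.lf (nat_lit 5972877355) (dlOf (nat_lit 1) (nat_lit 0x340018160501))) 
(.lf (nat_lit 1543695403) (dlOf (nat_lit 2) (nat_lit 0x3801f00008818146080)))) 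
(.lf (nat_lit 201515435) (dlOf (nat_lit 1) (nat_lit 0x4c004000a0008017182))))) (.nd (nat_lit 7) 
(.nd (nat_lit 20) 
(.lf (nat_lit 25354283) (dlOf (nat_lit 2) (nat_lit 0x554c00309fa00304f78000cc180018008000c00200040008c00603))) 
(.lf (nat_lit 62054443) (dlOf (nat_lit 1) (nat_lit 0x40019940401)))) 
(.lf (nat_lit 9625771) (dlOf (nat_lit 1) (nat_lit 0x400200020008571502))))) (.nd (nat_lit 26) 
(.nd (nat_lit 7) (.lf (nat_lit 3355632171) (dlOf (nat_lit 1) (nat_lit 0x54004001400080a1482))) 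
(.nd (nat_lit 27) (.lf (nat_lit 537061291) (dlOf (nat_lit 1) (nat_lit 0x20018004301))) 
(.lf (nat_lit 671279019) (dlOf (nat_lit 6) (nat_lit 0xa000000070080330098004803c000401d002200b800580000003414018804c00320170001007800580000003010018404c002201e000300e800c805c000401e00160000000586000d00000001c08004800800ec00200160008144303))))) 
(.nd (nat_lit 27) (.nd (nat_lit 28) 
(.lf (nat_lit 2214781483) (dlOf (nat_lit 1) (nat_lit 0x80080004002000200080a1483))) 
(.lf (nat_lit 2483216939) (dlOf (nat_lit 2) (nat_lit 0x20000000fc0800680080014002002a0008090e83)))) 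
(.lf (nat_lit 2348999211) (dlOf (nat_lit 2) (nat_lit 0x20000000fc0800680080014002002a0008090e83)))))) 
(.nd (nat_lit 28) (.nd (nat_lit 20) (.nd (nat_lit 32) (.nd (nat_lit 23) 
(.lf (nat_lit 3355697195) (dlOf (nat_lit 2) (nat_lit 0x30158000c80801580080070002001000080c0b03))) 
(.lf (nat_lit 25419819) (dlOf (nat_lit 2) (nat_lit 0x1eab600084bb0000a5cc000660c000c00200060008c00602)))) 
(.nd (nat_lit 26) 
(.lf (nat_lit 4295221291) (dlOf (nat_lit 2) (nat_lit 0x1809801992040018002000e00080b0a02))) 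
(.lf (nat_lit 4362330155) (dlOf (nat_lit 4) (nat_lit 0x70046000440100010230001f00800f0118000f604001c004000a0008020602))))) 
(.nd (nat_lit 7) (.lf (nat_lit 18079787) (dlOf (nat_lit 1) (nat_lit 0x400400020018900b02))) 
(.nd (nat_lit 8) (.lf (nat_lit 60025515) (dlOf (nat_lit 1) (nat_lit 0x8008000400200020009845683))) 
(.lf (nat_lit 9691563) (dlOf (nat_lit 2) (nat_lit 0x1486bc0147804000800400220008577182)))))) 
(.nd (nat_lit 7) (.nd (nat_lit 26) (.nd (nat_lit 20) 
(.lf (nat_lit 1342431275) (dlOf (nat_lit 3) (nat_lit 0xdc1cd000a70101970e6800534080130008000c00200040008020503))) 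
(.lf (nat_lit 1343479851) (dlOf (nat_lit 1) (nat_lit 0x20028260801)))) (.nd (nat_lit 29) 
(.lf (nat_lit 470016043) (dlOf (nat_lit 3) (nat_lit 0xdc1cd000bc8101970e68005e0080130008000c00200040008020503))) 
(.lf (nat_lit 4228112427) (dlOf (nat_lit 4) (nat_lit 0x7003f0004581000101f8001f80800f00fc000fa04001c004000a0008020602))))) 
(.nd (nat_lit 8) (.lf (nat_lit 335798443) (dlOf (nat_lit 1) (nat_lit 0x400080a2c81))) 
(.lf (nat_lit 6241380779) (dlOf (nat_lit 1) (nat_lit 0x1f800200d800080d4e82))))))) 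
(.nd (nat_lit 20) (.nd (nat_lit 30) (.nd (nat_lit 21) (.nd (nat_lit 26) (.nd (nat_lit 10) 
(.nd (nat_lit 29) 
(.lf (nat_lit 134930475) (dlOf (nat_lit 1) (nat_lit 0x68008018000200b400080e0603))) 
(.lf (nat_lit 2819285035) (dlOf (nat_lit 1) (nat_lit 0x20008220801)))) 
(.lf (nat_lit 715819) (dlOf (nat_lit 1) (nat_lit 0x48002003c0008006082)))) (.nd (nat_lit 27) 
(.lf (nat_lit 4362788907) (dlOf (nat_lit 2) (nat_lit 0x3f0198000c808029800800ac00200460008100603))) 
(.lf (nat_lit 202039339) (dlOf (nat_lit 1) (nat_lit 0x68008018000200b400080e0603))))) 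
(.nd (nat_lit 7) (.nd (nat_lit 23) 
(.lf (nat_lit 2754273323) (dlOf (nat_lit 1) (nat_lit 0x280080088002001200080d0a83))) 
(.lf (nat_lit 11198507) (dlOf (nat_lit 2) (nat_lit 0x7c0000004f0200180018670601)))) 
(.nd (nat_lit 9) (.lf (nat_lit 36365483) (dlOf (nat_lit 1) (nat_lit 0x20019072c01))) 
(.lf (nat_lit 19655339) (dlOf (nat_lit 1) (nat_lit 0x200289d5681)))))) (.nd (nat_lit 29) 
(.nd (nat_lit 21) (.nd (nat_lit 16) (.nd (nat_lit 26) 
(.lf (nat_lit 1342890027) (dlOf (nat_lit 1) (nat_lit 0x800400040008100e02))) 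
(.lf (nat_lit 1409998891) (dlOf (nat_lit 5) (nat_lit 0x200b40004804001005a0002202000802d0001001000201680007c0801700080018002006000080c0c03)))) 
(.lf (nat_lit 1342955563) (dlOf (nat_lit 2) (nat_lit 0x10aa000084dc000a208001000200040008120c02)))) 
(.nd (nat_lit 31) (.lf (nat_lit 1344987179) (dlOf (nat_lit 2) (nat_lit 0x40158000000189a0280))) 
(.lf (nat_lit 3492470827) (dlOf (nat_lit 1) (nat_lit 0x280080088002001200080d0a83))))) 
(.nd (nat_lit 16) (.nd (nat_lit 26) 
(.lf (nat_lit 3893026859) (dlOf (nat_lit 1) (nat_lit 0x80080004002000200082f0783))) 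
(.lf (nat_lit 4228571179) (dlOf (nat_lit 2) (nat_lit 0x3f0190000cc08029800800ac00200460008100603)))) 
(.lf (nat_lit 1879826475) (dlOf (nat_lit 1) (nat_lit 0x20028380e01)))))) (.nd (nat_lit 24) 
(.nd (nat_lit 7) (.nd (nat_lit 9) (.nd (nat_lit 8) 
(.lf (nat_lit 1761323) (dlOf (nat_lit 2) (nat_lit 0xac000000100200020028130801))) 
(.lf (nat_lit 8055083) (dlOf (nat_lit 2) (nat_lit 0x195e4001c604001000400080018514b82)))) 
(.nd (nat_lit 26) 
(.lf (nat_lit 3491422763) (dlOf (nat_lit 1) (nat_lit 0x7000800bc00200100008090e83))) 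
(.lf (nat_lit 2753225259) (dlOf (nat_lit 1) (nat_lit 0x7000800bc00200100008090e83))))) 
(.nd (nat_lit 8) 
(.lf (nat_lit 6377103531) (dlOf (nat_lit 2) (nat_lit 0x204c80006c04002c004000800080a2c82))) 
(.lf (nat_lit 8053163) (dlOf (nat_lit 1) (nat_lit 0x20008511001))))) (.nd (nat_lit 16) 
(.nd (nat_lit 21) 
(.lf (nat_lit 18538539) (dlOf (nat_lit 2) (nat_lit 0x993180000004001000400100018940902))) 
(.lf (nat_lit 29024299) (dlOf (nat_lit 2) (nat_lit 0x1ab980003804001000200060008db0e02)))) 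
(.nd (nat_lit 22) 
(.lf (nat_lit 18604075) (dlOf (nat_lit 2) (nat_lit 0xe4e8000924f0002281001280080004002000a0008950783))) 
(.lf (nat_lit 22798379) (dlOf (nat_lit 2) (nat_lit 0x2d140000a404000400200020008b30602)))))))) 
(.nd (nat_lit 16) (.nd (nat_lit 30) (.nd (nat_lit 19) (.nd (nat_lit 8) (.nd (nat_lit 10) 
(.nd (nat_lit 11) 
(.lf (nat_lit 6643966699) (dlOf (nat_lit 1) (nat_lit 0x800800b0002004200080b2103))) 
(.lf (nat_lit 191211) (dlOf (nat_lit 1) (nat_lit 0x400400020008005a02)))) 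
(.lf (nat_lit 20115179) (dlOf (nat_lit 1) (nat_lit 0x8002000200089d7402)))) (.nd (nat_lit 11) 
(.lf (nat_lit 134406635) (dlOf (nat_lit 1) (nat_lit 0x60028017301))) 
(.lf (nat_lit 2751658475) (dlOf (nat_lit 1) (nat_lit 0xc000800b281))))) (.nd (nat_lit 7) 
(.nd (nat_lit 9) 
(.lf (nat_lit 59433067) (dlOf (nat_lit 2) (nat_lit 0x122000004a040004004000200197f1b02))) 
(.lf (nat_lit 8054379) (dlOf (nat_lit 2) (nat_lit 0xa66e00016818513900)))) (.nd (nat_lit 8) 
(.nd (nat_lit 9) (.lf (nat_lit 716011) (dlOf (nat_lit 1) (nat_lit 0x2e0008006501))) 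
(.lf (nat_lit 8053483) (dlOf (nat_lit 1) (nat_lit 0x60028512101)))) 
(.lf (nat_lit 36365291) (dlOf (nat_lit 1) (nat_lit 0x20019072881)))))) (.nd (nat_lit 10) 
(.nd (nat_lit 7) (.nd (nat_lit 8) 
(.lf (nat_lit 1677912171) (dlOf (nat_lit 1) (nat_lit 0x120028114701))) 
(.lf (nat_lit 6039987051) (dlOf (nat_lit 1) (nat_lit 0x800800b0002004200080b2583)))) 
(.nd (nat_lit 9) (.nd (nat_lit 28) 
(.lf (nat_lit 1812128235) (dlOf (nat_lit 1) (nat_lit 0x2a80080004002008a0008157303))) 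
(.lf (nat_lit 4228047339) (dlOf (nat_lit 5) (nat_lit 0x2180a8000ce0400c809e008a04200450150001981803380a8000820400cc084005802a0001f828017300)))) 
(.lf (nat_lit 4095927275) (dlOf (nat_lit 2) (nat_lit 0xa07f805f880800680080008002001600080e2883))))) 
(.nd (nat_lit 8) (.nd (nat_lit 11) 
(.lf (nat_lit 3422745835) (dlOf (nat_lit 1) (nat_lit 0x200080a9501))) (.nd (nat_lit 27) 
(.lf (nat_lit 1409477867) (dlOf (nat_lit 1) (nat_lit 0x20028006501))) 
(.lf (nat_lit 1543695595) (dlOf (nat_lit 2) (nat_lit 0x14050000260200120028146501))))) 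
(.nd (nat_lit 7) (.lf (nat_lit 3221417323) (dlOf (nat_lit 1) (nat_lit 0x20018116b01))) 
(.lf (nat_lit 3489852907) (dlOf (nat_lit 2) (nat_lit 0x1053800000080010008000400200060008006e83))))))) 
(.nd (nat_lit 28) (.nd (nat_lit 8) (.nd (nat_lit 7) (.nd (nat_lit 9) (.nd (nat_lit 11) 
(.lf (nat_lit 59498603) (dlOf (nat_lit 1) (nat_lit 0x3800400060009800a02))) 
(.lf (nat_lit 8124523) (dlOf (nat_lit 1) (nat_lit 0x6002851a881)))) 
(.lf (nat_lit 20179563) (dlOf (nat_lit 2) (nat_lit 0x18554000c1c80004a04003a00289d5381)))) 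
(.nd (nat_lit 9) (.nd (nat_lit 11) 
(.lf (nat_lit 1610867947) (dlOf (nat_lit 1) (nat_lit 0x160028092e81))) 
(.lf (nat_lit 8125675) (dlOf (nat_lit 1) (nat_lit 0x40020002000851c602)))) 
(.lf (nat_lit 50588395) (dlOf (nat_lit 1) (nat_lit 0x300080020002000200094c5a03))))) 
(.nd (nat_lit 9) (.nd (nat_lit 7) 
(.lf (nat_lit 1677975915) (dlOf (nat_lit 1) (nat_lit 0xa0008125501))) (.nd (nat_lit 29) 
(.lf (nat_lit 3288588779) (dlOf (nat_lit 1) (nat_lit 0x2800400660008090d02))) 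
(.lf (nat_lit 1677976043) (dlOf (nat_lit 2) (nat_lit 0x2c00e00252018127d00))))) (.nd (nat_lit 11) 
(.nd (nat_lit 21) (.lf (nat_lit 55305195) (dlOf (nat_lit 1) (nat_lit 0x200196d2881))) 
(.lf (nat_lit 36430827) (dlOf (nat_lit 1) (nat_lit 0x20019072881)))) 
(.lf (nat_lit 19655659) (dlOf (nat_lit 1) (nat_lit 0x4002000200089d5e82)))))) (.nd (nat_lit 7) 
(.nd (nat_lit 29) (.nd (nat_lit 10) 
(.lf (nat_lit 3494109547) (dlOf (nat_lit 1) (nat_lit 0x80080004002000200081b0703))) 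
(.lf (nat_lit 3489918315) (dlOf (nat_lit 1) (nat_lit 0x400200020008006b02)))) (.nd (nat_lit 26) 
(.lf (nat_lit 805560683) (dlOf (nat_lit 1) (nat_lit 0xa0008125501))) 
(.lf (nat_lit 3154370923) (dlOf (nat_lit 1) (nat_lit 0x3000400220018160a02))))) (.nd (nat_lit 8) 
(.nd (nat_lit 10) (.lf (nat_lit 3490963691) (dlOf (nat_lit 1) (nat_lit 0x20008046b81))) 
(.lf (nat_lit 872670443) (dlOf (nat_lit 1) (nat_lit 0x400200020008092e82)))) (.nd (nat_lit 10) 
(.nd (nat_lit 30) 
(.lf (nat_lit 805560811) (dlOf (nat_lit 5) (nat_lit 0x350084032400e018100600bc0000000ce100354084031e00e018700600bf0000000cc100340084030600e000208200d402100c400380007e08031000400740018127302))) 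
(.lf (nat_lit 4026786283) (dlOf (nat_lit 1) (nat_lit 0x2800400660008090d02)))) 
(.lf (nat_lit 3624136171) (dlOf (nat_lit 3) (nat_lit 0xc040000301b000200c0000800a00080000000685000a02280040100000c06c000603000050000000002800500080050002001e0008146e83)))))))))) 
(.nd (nat_lit 3) (.nd (nat_lit 19) (.nd (nat_lit 26) (.nd (nat_lit 16) (.nd (nat_lit 20) 
(.nd (nat_lit 29) (.nd (nat_lit 10) (.nd (nat_lit 6) (.nd (nat_lit 21) (.nd (nat_lit 22) 
(.lf (nat_lit 1074192419) (dlOf (nat_lit 1) (nat_lit 0x100080004002000400080d0903))) 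
(.lf (nat_lit 29810723) (dlOf (nat_lit 1) (nat_lit 0x400200020008e30002)))) 
(.lf (nat_lit 48685091) (dlOf (nat_lit 6) (nat_lit 0x153d8000a8c40008a0800254e80004302002eab40017556000ba9d000701f0002e0500002105000753d0001040800703e00007c04004800400380019420182)))) 
(.nd (nat_lit 7) (.lf (nat_lit 17227875) (dlOf (nat_lit 1) (nat_lit 0x5d8004004200088e0482))) 
(.lf (nat_lit 3221676515) (dlOf (nat_lit 1) (nat_lit 0x20028170c01))))) (.nd (nat_lit 11) 
(.lf (nat_lit 38200355) (dlOf (nat_lit 1) (nat_lit 0x20009132881))) (.nd (nat_lit 28) 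
(.lf (nat_lit 453667) (dlOf (nat_lit 1) (nat_lit 0x20028006081))) 
(.lf (nat_lit 2416372771) (dlOf (nat_lit 1) (nat_lit 0x200180f6081)))))) (.nd (nat_lit 27) 
(.nd (nat_lit 30) (.nd (nat_lit 6) 
(.lf (nat_lit 805757219) (dlOf (nat_lit 3) (nat_lit 0x240170001d0100040168000e00800d800800ac002005a00081a0503))) 
(.lf (nat_lit 805757155) (dlOf (nat_lit 6) (nat_lit 0x60c02d00a600b80027410034805c001320401a002e000980200cc0170004a81001102a003b01480c1005a00b802c001d00e0023805c00c8022001000f00370000002384803c000804e80020cb800081a0483)))) 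
(.nd (nat_lit 28) 
(.lf (nat_lit 1611063331) (dlOf (nat_lit 5) (nat_lit 0x100042006c01d0001382000a0108000980800101540003c0400040420000a02000400180d0181))) 
(.lf (nat_lit 1879498787) (dlOf (nat_lit 2) (nat_lit 0xc0dd0000e818190180))))) (.nd (nat_lit 6) 
(.nd (nat_lit 30) 
(.lf (nat_lit 2819022883) (dlOf (nat_lit 3) (nat_lit 0x1c0050001201000a002800074080170008001000200260008150183))) 
(.lf (nat_lit 3892764707) (dlOf (nat_lit 2) (nat_lit 0x808e000520200060018240581)))) 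
(.lf (nat_lit 2819022947) (dlOf (nat_lit 6) (nat_lit 0xf0014004000600540000004e030016002800a000c00c4000000960600260050011001801580000011a0c00440000008c0200340050019001801100000010a0c02c800200120008150d02)))))) 
(.nd (nat_lit 21) (.nd (nat_lit 7) (.nd (nat_lit 22) 
(.lf (nat_lit 26664995) (dlOf (nat_lit 3) (nat_lit 0x2800000002c0800e00000001404003c00200020008c50182))) 
(.lf (nat_lit 56025123) (dlOf (nat_lit 2) (nat_lit 0xd4f40003f0200040019710181)))) 
(.lf (nat_lit 47637667) (dlOf (nat_lit 1) (nat_lit 0x20029402c01)))) (.nd (nat_lit 23) 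
(.nd (nat_lit 6) (.lf (nat_lit 37150755) (dlOf (nat_lit 1) (nat_lit 0x4004000200090b0182))) 
(.lf (nat_lit 37150819) (dlOf (nat_lit 1) (nat_lit 0x4004000200090b0902)))) (.nd (nat_lit 8) 
(.lf (nat_lit 16179235) (dlOf (nat_lit 2) (nat_lit 0x21fe800a8c04000800400020018870702))) 
(.lf (nat_lit 28762403) (dlOf (nat_lit 1) (nat_lit 0x1e80080278002009e0008da0703))))))) 
(.nd (nat_lit 21) (.nd (nat_lit 6) (.nd (nat_lit 22) (.nd (nat_lit 29) (.nd (nat_lit 7) 
(.lf (nat_lit 50848291) (dlOf (nat_lit 1) (nat_lit 0x600080024002002800094d8703))) 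
(.lf (nat_lit 3221741731) (dlOf (nat_lit 2) (nat_lit 0x101140024604001400400240008170202)))) 
(.nd (nat_lit 27) (.lf (nat_lit 805822499) (dlOf (nat_lit 1) (nat_lit 0x200181b0901))) 
(.lf (nat_lit 2819088419) (dlOf (nat_lit 1) (nat_lit 0x18004000600081a0602))))) (.nd (nat_lit 24) 
(.lf (nat_lit 13099043) (dlOf (nat_lit 1) (nat_lit 0xa00186f0781))) 
(.lf (nat_lit 29876259) (dlOf (nat_lit 1) (nat_lit 0x400200020008e30002))))) (.nd (nat_lit 7) 
(.nd (nat_lit 27) 
(.lf (nat_lit 805822563) (dlOf (nat_lit 10) (nat_lit 0x1100560001301001d02a800d0048000440800340aa0038053000c017800680ac003002400240100001086001102980007c080480158003c0aa01300130000e83008f02b0005814c0230026000170600fa0130000a81000302b0000380803e804c00010040218004005e00081b1382))) 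
(.lf (nat_lit 134733923) (dlOf (nat_lit 1) (nat_lit 0x1800280a1381)))) 
(.lf (nat_lit 4563921635) (dlOf (nat_lit 2) (nat_lit 0x17203300000018125980))))) (.nd (nat_lit 7) 
(.nd (nat_lit 20) (.nd (nat_lit 22) (.nd (nat_lit 24) 
(.lf (nat_lit 11001891) (dlOf (nat_lit 1) (nat_lit 0xcc0008650701))) 
(.lf (nat_lit 27779107) (dlOf (nat_lit 2) (nat_lit 0x16a80000b53c009a608000800400020018d20682)))) 
(.lf (nat_lit 15196195) (dlOf (nat_lit 2) (nat_lit 0x106a4ac0017e040008004000800087c0602)))) 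
(.lf (nat_lit 45604899) (dlOf (nat_lit 1) (nat_lit 0x260029340181)))) (.nd (nat_lit 20) 
(.lf (nat_lit 1344791715) (dlOf (nat_lit 1) (nat_lit 0x1a00080018002003e0008982c03))) 
(.lf (nat_lit 41411747) (dlOf (nat_lit 1) (nat_lit 0x20019242c01))))))) (.nd (nat_lit 30) 
(.nd (nat_lit 7) (.nd (nat_lit 27) (.nd (nat_lit 6) (.nd (nat_lit 8) 
(.lf (nat_lit 4362526755) (dlOf (nat_lit 3) (nat_lit 0x222033003e6810110019801f2c0827800080108002009e0008090003))) 
(.lf (nat_lit 4362527011) (dlOf (nat_lit 4) (nat_lit 0x3000000043020122000000210100020190000d80801f80080040002002c0008090503)))) 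
(.lf (nat_lit 4362592355) (dlOf (nat_lit 1) (nat_lit 0x800800d8002002800080a1283)))) 
(.nd (nat_lit 6) (.nd (nat_lit 29) 
(.lf (nat_lit 201777187) (dlOf (nat_lit 1) (nat_lit 0x98008004000200280008090003))) 
(.lf (nat_lit 738648099) (dlOf (nat_lit 5) (nat_lit 0x100042006c01d0001382000a0108000980800101540003c0400040420000a02000400180d0181)))) 
(.lf (nat_lit 201842787) (dlOf (nat_lit 1) (nat_lit 0x1c002000200080a1282))))) (.nd (nat_lit 8) 
(.nd (nat_lit 6) (.nd (nat_lit 16) 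
(.lf (nat_lit 1008134819) (dlOf (nat_lit 1) (nat_lit 0x20008a45601))) 
(.lf (nat_lit 472378019) (dlOf (nat_lit 6) (nat_lit 0x4209c000f0468001141000382340008604000411a0004202000208d000208100020468000000800d80080010002000e0008985603)))) 
(.lf (nat_lit 4362526947) (dlOf (nat_lit 14) (nat_lit 0xc0ac0024a0200180000011101000500000086c080018000004060400440000020202009a033000cd81001b0000005ec080058000002f20402e809e002e037006101980d180c80340062005600e00400058003002401400000009d12018a04f001701b800980d8003c068018c033028e019009500c400d005e011202d004c00b801c0040015c01600a000a00010048002387000900000006c0400a00000002402002800a0014000000000100f6800812f0002092e0008090483)))) 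
(.nd (nat_lit 27) (.nd (nat_lit 6) 
(.lf (nat_lit 4362527139) (dlOf (nat_lit 2) (nat_lit 0x20198038c408008000800b800200020008090783))) 
(.lf (nat_lit 2751914979) (dlOf (nat_lit 1) (nat_lit 0x20018002881)))) (.nd (nat_lit 11) 
(.lf (nat_lit 201777571) (dlOf (nat_lit 1) (nat_lit 0x60008001c002001c0008090783))) 
(.lf (nat_lit 472377763) (dlOf (nat_lit 3) (nat_lit 0x2008d0060501000f046803024080070008000400200420008984e83))))))) 
(.nd (nat_lit 6) (.nd (nat_lit 8) (.nd (nat_lit 16) (.nd (nat_lit 28) 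
(.lf (nat_lit 1678172195) (dlOf (nat_lit 4) (nat_lit 0xe815800080a6007cf04027005601340298093804c00f9a0c04f80ac0268053013a009801f2c1809280080eac002089400081a0003))) 
(.lf (nat_lit 1946607651) (dlOf (nat_lit 1) (nat_lit 0x100080004002000400080d0903)))) 
(.nd (nat_lit 7) (.lf (nat_lit 1678237731) (dlOf (nat_lit 1) (nat_lit 0x200181b0901))) 
(.lf (nat_lit 3959939235) (dlOf (nat_lit 2) (nat_lit 0x101140026404001400400240008170202))))) 
(.nd (nat_lit 7) (.nd (nat_lit 27) 
(.lf (nat_lit 1678172451) (dlOf (nat_lit 3) (nat_lit 0x240170001c0100040168000d80800d800800ac002005a00081a0503))) 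
(.lf (nat_lit 4228309283) (dlOf (nat_lit 4) (nat_lit 0x3000000046020122000000228100020188000e00801f80080040002002c0008090503)))) 
(.lf (nat_lit 1678172579) (dlOf (nat_lit 1) (nat_lit 0x180080070002004400081a0783))))) 
(.nd (nat_lit 7) (.nd (nat_lit 16) 
(.lf (nat_lit 3557220451) (dlOf (nat_lit 12) (nat_lit 0xf40000004e0100830000002580803b80000011a0401f40000008502008607200a702300390070000fa0c01100e40158046001701c000600b001dc0380007c0a000c0460003d0100ae02300380070000ea08001008c0007402008a07200aa02300360070000e60c002808c000000200160028170d01))) 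
(.nd (nat_lit 27) 
(.lf (nat_lit 1678237795) (dlOf (nat_lit 2) (nat_lit 0x302980002c0800180080004002001e00081b1283))) 
(.lf (nat_lit 4228374627) (dlOf (nat_lit 9) (nat_lit 0x380c80004c04004807e0001d020030032000070100370190000280802e00c80001004023806400003020026032000008100140190000000802780080064002000600080a1383))))) 
(.nd (nat_lit 8) (.nd (nat_lit 27) 
(.lf (nat_lit 1678172387) (dlOf (nat_lit 6) (nat_lit 0x60c02d00a600b80027410034805c001320401a002e000980200cc0170004a81001102a003b01480c1005a00b802c001d00e0023805c00c8022001000f00370000002384803c000804e80020cb800081a0483))) 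
(.lf (nat_lit 4228309219) (dlOf (nat_lit 14) (nat_lit 0xc09e0024a02000a0000010f81000c000000848080018000004060400440000020202009a032000ce81001b000000600080058000002fc0402e8090002e038006101900d180c40340060005600e00400060003002401400000009d12018a048001701c000980d8003c066018c032028e018809500c000d005e011202c004c00b801c004c015c01800a000a0001004800238700090000000760400a00000002a02002800a0014000000000100f6800812f0002092e0008090483)))) 
(.lf (nat_lit 3959874019) (dlOf (nat_lit 1) (nat_lit 0x20028170c01)))))))) (.nd (nat_lit 21) 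
(.nd (nat_lit 20) (.nd (nat_lit 16) (.nd (nat_lit 8) (.nd (nat_lit 23) 
(.lf (nat_lit 6376316963) (dlOf (nat_lit 1) (nat_lit 0x60018090001))) 
(.lf (nat_lit 59695139) (dlOf (nat_lit 3) (nat_lit 0x169f800004e040008fc0000260200020019820181)))) 
(.nd (nat_lit 6) 
(.lf (nat_lit 3490636195) (dlOf (nat_lit 1) (nat_lit 0x8008000400200020008016b83))) 
(.lf (nat_lit 3490636131) (dlOf (nat_lit 1) (nat_lit 0x40028014f01))))) (.nd (nat_lit 26) 
(.nd (nat_lit 7) (.nd (nat_lit 23) 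
(.lf (nat_lit 17817635) (dlOf (nat_lit 2) (nat_lit 0x2ddc500029c04015400400ae00088f0d82))) 
(.lf (nat_lit 9429027) (dlOf (nat_lit 1) (nat_lit 0x1e0028550581)))) 
(.lf (nat_lit 3490701731) (dlOf (nat_lit 1) (nat_lit 0x118008000400200200008016b83)))) 
(.nd (nat_lit 6) 
(.lf (nat_lit 68149283) (dlOf (nat_lit 3) (nat_lit 0x90374000400400501b80001d0200020028400181))) 
(.lf (nat_lit 68149347) (dlOf (nat_lit 1) (nat_lit 0x400400020018400d02)))))) (.nd (nat_lit 6) 
(.nd (nat_lit 23) (.nd (nat_lit 8) 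
(.lf (nat_lit 52355107) (dlOf (nat_lit 1) (nat_lit 0xa0029530181))) (.nd (nat_lit 22) 
(.lf (nat_lit 2023715) (dlOf (nat_lit 1) (nat_lit 0x20028150501))) 
(.lf (nat_lit 6218019) (dlOf (nat_lit 1) (nat_lit 0x20008420701))))) (.nd (nat_lit 7) 
(.lf (nat_lit 14606371) (dlOf (nat_lit 7) (nat_lit 0xf67080000b020007384000050100099c2000024080084e100001004005e7080000702001d38400000018770180))) 
(.nd (nat_lit 16) (.lf (nat_lit 60744867) (dlOf (nat_lit 1) (nat_lit 0x4002000200098c2c02))) 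
(.lf (nat_lit 60810403) (dlOf (nat_lit 1) (nat_lit 0x8004000200198c2c02)))))) (.nd (nat_lit 16) 
(.lf (nat_lit 6377365603) (dlOf (nat_lit 1) (nat_lit 0x4004000200080d1d02))) (.nd (nat_lit 26) 
(.lf (nat_lit 1344266339) (dlOf (nat_lit 2) (nat_lit 0xc48c001600200020018560d01))) 
(.lf (nat_lit 471851107) (dlOf (nat_lit 2) (nat_lit 0xc48c001600200020018540d01))))))) 
(.nd (nat_lit 7) (.nd (nat_lit 6) (.nd (nat_lit 22) (.nd (nat_lit 20) 
(.lf (nat_lit 4096712739) (dlOf (nat_lit 2) (nat_lit 0x402b000e2818160480))) 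
(.lf (nat_lit 473882659) (dlOf (nat_lit 11) (nat_lit 0x18836400240fa00a807c0001383002b06c802701f00004c0804b0286026413b012d09c809a033404f80ea027a073000070601130a18085033404cc0ea0266073000068400740a1805084ec024019a011c075008e0398000302805a850c03780e60000b04013614300b709d805004e4028819a003807d00c403a806201cc000141c04a0286026c0cd015603a80ab01cc0001210000c19a006c075001803980001818071850c03d027601c80cd00f003a807401cc0000014009800400320018fc0182)))) 
(.nd (nat_lit 9) (.nd (nat_lit 16) 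
(.lf (nat_lit 25092131) (dlOf (nat_lit 2) (nat_lit 0x1af54001b004000800400040008be0b02))) 
(.lf (nat_lit 25157667) (dlOf (nat_lit 1) (nat_lit 0x8008000400200020008be0b03)))) 
(.lf (nat_lit 8321571) (dlOf (nat_lit 1) (nat_lit 0x100020002000851b282))))) (.nd (nat_lit 8) 
(.nd (nat_lit 9) (.lf (nat_lit 473882723) (dlOf (nat_lit 2) (nat_lit 0x8607c00000018fc0900))) 
(.lf (nat_lit 70182499) (dlOf (nat_lit 1) (nat_lit 0x20028fa3901)))) (.nd (nat_lit 10) 
(.lf (nat_lit 4186467) (dlOf (nat_lit 1) (nat_lit 0x20028290901))) 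
(.lf (nat_lit 19856739) (dlOf (nat_lit 1) (nat_lit 0x10008001c002000800089dc903)))))) 
(.nd (nat_lit 10) (.nd (nat_lit 9) (.nd (nat_lit 26) 
(.lf (nat_lit 3493781667) (dlOf (nat_lit 1) (nat_lit 0xc00181b0201))) 
(.lf (nat_lit 2755584163) (dlOf (nat_lit 1) (nat_lit 0xc00181b0201)))) (.nd (nat_lit 6) 
(.nd (nat_lit 16) (.lf (nat_lit 62843555) (dlOf (nat_lit 1) (nat_lit 0x4002000200099a5602))) 
(.lf (nat_lit 36694691) (dlOf (nat_lit 1) (nat_lit 0x800200040009075602)))) 
(.lf (nat_lit 8319715) (dlOf (nat_lit 1) (nat_lit 0x8008000400200020008518c83))))) 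
(.nd (nat_lit 11) (.nd (nat_lit 6) (.nd (nat_lit 20) 
(.lf (nat_lit 36693155) (dlOf (nat_lit 1) (nat_lit 0x400200020009072c02))) 
(.lf (nat_lit 37741731) (dlOf (nat_lit 2) (nat_lit 0x4ce90002f8190d2c00)))) 
(.lf (nat_lit 8316131) (dlOf (nat_lit 1) (nat_lit 0x20018512e01)))) (.nd (nat_lit 8) 
(.lf (nat_lit 2754538659) (dlOf (nat_lit 1) (nat_lit 0x200280f6281))) 
(.lf (nat_lit 19856803) (dlOf (nat_lit 1) (nat_lit 0x300080038002001000089dcb03))))))))) 
(.nd (nat_lit 16) (.nd (nat_lit 19) (.nd (nat_lit 26) (.nd (nat_lit 6) (.nd (nat_lit 30) 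
(.nd (nat_lit 23) (.nd (nat_lit 21) 
(.lf (nat_lit 2819022891) (dlOf (nat_lit 10) (nat_lit 0x4c067001902e8013016400340ac0066055001702880130140009809c004c04d002f00c801b80080024000000321800840780054035002801a401140ce005e05e004d02e8038015801480aa0040051004c02800290138002009a007001a005600c80208008000623c024c0ba0008059003702880018140026009c01ec00200bf0000000bc380318138011c0040230000000170300030110000a4080080008000300400780440001202005207200008810001011000000080290008000c00201340008150383))) 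
(.lf (nat_lit 19324971) (dlOf (nat_lit 3) (nat_lit 0x52b58000880800195ac0003804000c004000c0018980e02)))) 
(.nd (nat_lit 20) (.lf (nat_lit 13033515) (dlOf (nat_lit 2) (nat_lit 0x3525000718186f0b00))) 
(.lf (nat_lit 26665003) (dlOf (nat_lit 3) (nat_lit 0x203638000580401cdb1c0002b02001c0018c50381))))) 
(.nd (nat_lit 10) (.nd (nat_lit 27) 
(.lf (nat_lit 1074192427) (dlOf (nat_lit 2) (nat_lit 0xdd0138000b8080050008000c002000200080d0a83))) 
(.lf (nat_lit 3624329259) (dlOf (nat_lit 1) (nat_lit 0x800400220008160502)))) 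
(.lf (nat_lit 1344726059) (dlOf (nat_lit 2) (nat_lit 0x607d000303e0019f4100078008005400200320008982883))))) 
(.nd (nat_lit 8) 
(.lf (nat_lit 805757163) (dlOf (nat_lit 4) (nat_lit 0x430168002740801f80b40013004011405a0008e02005000181a0481))) 
(.nd (nat_lit 20) 
(.lf (nat_lit 134668779) (dlOf (nat_lit 1) (nat_lit 0x18800800d0002004e0008090d03))) 
(.lf (nat_lit 11985387) (dlOf (nat_lit 1) (nat_lit 0xc600086c0d01)))))) (.nd (nat_lit 8) 
(.nd (nat_lit 31) (.nd (nat_lit 6) (.nd (nat_lit 27) 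
(.lf (nat_lit 1946607659) (dlOf (nat_lit 2) (nat_lit 0xdd0138000ac080050008000c002000200080d0a83))) 
(.lf (nat_lit 470212651) (dlOf (nat_lit 4) (nat_lit 0x1e1bd0000e81000311880006008044800000020040018004000200080a0802)))) 
(.lf (nat_lit 6377892587) (dlOf (nat_lit 1) (nat_lit 0x4004000200080e5a02)))) (.nd (nat_lit 6) 
(.nd (nat_lit 27) 
(.lf (nat_lit 3557220395) (dlOf (nat_lit 34) (nat_lit 0x11900e40003402005e03800880110000cc1000081c8179c07e000310400420720013030835800fc000600c04dc0e4005206100d4030058100fc0005e10049c0e40058061003503005a000fc0005c100c740e401a6071013a03080af0180190c07e0002d0a0b9e072055603881e181b412000d8001406a04ef03082c70180152c0ba0008059004102c0076812c00b808208fc03f031a01f0265806401a00000002c2000040770634039025481c40bf80da07d006c001903501aa818411340c0002005e042c02e80c3816401340b00042042002b020804800f80a0c034086c01902560000000ac9010e01c800380c007a003f00015030120039001f01c4014c0c200ea06004e901f801f0064000521809b40e4007003f0001402019703900009c0805101c8007807e0002504000c072000201f8000901009a01c80be007e0001a04009a03f0000c81039003904a780fc0003008065c07e0001702001403f0000b01003201f8000540802900fc0002804014407e0001302039407206ee01f8000481036d81c81e3c07e00011040b4403f000080103e3039031180fc0001e0806b807e0000e02075603f000060104b601f80002c0827200fc000140400100e40a6803f0000482041f039003781c405040c20d9403f0004011000000280df800813140020c440008170383)))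 
(.lf (nat_lit 2886131755) (dlOf (nat_lit 1) (nat_lit 0x800400220008160502)))) 
(.lf (nat_lit 4228309227) (dlOf (nat_lit 1) (nat_lit 0x40018090481))))) (.nd (nat_lit 27) 
(.nd (nat_lit 29) (.lf (nat_lit 4362527019) (dlOf (nat_lit 2) (nat_lit 0x2c00000022018090500))) 
(.lf (nat_lit 1678172459) (dlOf (nat_lit 4) (nat_lit 0x7c05a0003802000c02d0001b81000b0168000d40802700080014002003400081a0503)))) 
(.nd (nat_lit 6) (.lf (nat_lit 4228309291) (dlOf (nat_lit 1) (nat_lit 0x3c0018090501))) 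
(.lf (nat_lit 201777643) (dlOf (nat_lit 1) (nat_lit 0x18800800d0002004e0008090d03))))))) 
(.nd (nat_lit 6) (.nd (nat_lit 20) (.nd (nat_lit 21) (.nd (nat_lit 26) 
(.lf (nat_lit 537845803) (dlOf (nat_lit 1) (nat_lit 0x8002000a0008230602))) 
(.lf (nat_lit 1410261035) (dlOf (nat_lit 1) (nat_lit 0x8002000a0008230602)))) (.nd (nat_lit 7) 
(.lf (nat_lit 11460651) (dlOf (nat_lit 9) (nat_lit 0x2908e1006f34e0000a8100159a700003a0406e4d38000180207028da0000801035638a8000380802d1c540001a0402c51b40000802016a8da002b38a80000c100098008002c002000c00086a0803))) 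
(.lf (nat_lit 2754537899) (dlOf (nat_lit 1) (nat_lit 0x2200080004002003c00080f4e83))))) 
(.nd (nat_lit 7) (.nd (nat_lit 21) 
(.lf (nat_lit 22994987) (dlOf (nat_lit 1) (nat_lit 0x160008006800200400008b40783))) 
(.nd (nat_lit 22) (.lf (nat_lit 4120619) (dlOf (nat_lit 2) (nat_lit 0x5a00000019818280600))) 
(.lf (nat_lit 25092139) (dlOf (nat_lit 1) (nat_lit 0x10008001400200120008be0c03))))) 
(.nd (nat_lit 9) (.lf (nat_lit 18800811) (dlOf (nat_lit 1) (nat_lit 0xc00018970481))) 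
(.lf (nat_lit 54454955) (dlOf (nat_lit 1) (nat_lit 0x400400020009655682)))))) (.nd (nat_lit 7) 
(.nd (nat_lit 8) (.nd (nat_lit 9) 
(.lf (nat_lit 6376317035) (dlOf (nat_lit 1) (nat_lit 0x20008004800200060008090183))) 
(.lf (nat_lit 19849835) (dlOf (nat_lit 1) (nat_lit 0x200189d1801)))) (.nd (nat_lit 26) 
(.lf (nat_lit 3493781867) (dlOf (nat_lit 1) (nat_lit 0x4004000200081b0702))) 
(.lf (nat_lit 2755584363) (dlOf (nat_lit 1) (nat_lit 0x4004000200081b0702))))) (.nd (nat_lit 20) 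
(.lf (nat_lit 34530283) (dlOf (nat_lit 1) (nat_lit 0x20028fb2881))) (.nd (nat_lit 21) 
(.lf (nat_lit 1008657387) (dlOf (nat_lit 1) (nat_lit 0x200008ef2881))) 
(.lf (nat_lit 41870315) (dlOf (nat_lit 1) (nat_lit 0x40019242881)))))))) (.nd (nat_lit 21) 
(.nd (nat_lit 28) (.nd (nat_lit 26) (.nd (nat_lit 19) (.nd (nat_lit 20) (.nd (nat_lit 22) 
(.lf (nat_lit 134733867) (dlOf (nat_lit 1) (nat_lit 0x800080004002002000080a0983))) 
(.lf (nat_lit 13099051) (dlOf (nat_lit 2) (nat_lit 0x533180038c0803d80080068002000c00086f0b03)))) 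
(.lf (nat_lit 9953323) (dlOf (nat_lit 1) (nat_lit 0x10008002c002001200085a0d03)))) 
(.nd (nat_lit 23) 
(.lf (nat_lit 17817643) (dlOf (nat_lit 5) (nat_lit 0x771300039010004e3400045c4c000de08000ee260006e020055c690187b8a00055130000000c0088004001200088f0e02))) 
(.lf (nat_lit 59760683) (dlOf (nat_lit 1) (nat_lit 0x2800400020009830902))))) (.nd (nat_lit 29) 
(.nd (nat_lit 27) 
(.lf (nat_lit 4362592299) (dlOf (nat_lit 1) (nat_lit 0x400080004002001000080a0983))) 
(.lf (nat_lit 201842731) (dlOf (nat_lit 1) (nat_lit 0x800080004002002000080a0983)))) 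
(.nd (nat_lit 6) (.lf (nat_lit 1678237739) (dlOf (nat_lit 2) (nat_lit 0x80510000a8181b0980))) 
(.lf (nat_lit 604496875) (dlOf (nat_lit 1) (nat_lit 0x8004000600182d2882)))))) (.nd (nat_lit 27) 
(.nd (nat_lit 29) (.nd (nat_lit 6) 
(.lf (nat_lit 1343741995) (dlOf (nat_lit 2) (nat_lit 0x2601900022c0800980080014002001a0008350783))) 
(.lf (nat_lit 3490180331) (dlOf (nat_lit 1) (nat_lit 0x100080018002001c0008006503)))) 
(.nd (nat_lit 30) (.lf (nat_lit 805822507) (dlOf (nat_lit 2) (nat_lit 0x8051000070181b0980))) 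
(.lf (nat_lit 4027047979) (dlOf (nat_lit 1) (nat_lit 0x200281b0001))))) (.nd (nat_lit 8) 
(.nd (nat_lit 30) (.lf (nat_lit 3154632747) (dlOf (nat_lit 1) (nat_lit 0x600082e0901))) 
(.lf (nat_lit 4228374571) (dlOf (nat_lit 1) (nat_lit 0x400080004002001000080a0983)))) 
(.lf (nat_lit 5772404011) (dlOf (nat_lit 1) (nat_lit 0x400200020008093182)))))) (.nd (nat_lit 8) 
(.nd (nat_lit 9) (.nd (nat_lit 7) (.nd (nat_lit 10) 
(.lf (nat_lit 25157675) (dlOf (nat_lit 2) (nat_lit 0x1907c0001440800080080088002001e0008be0c03))) 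
(.lf (nat_lit 57140267) (dlOf (nat_lit 1) (nat_lit 0x240009792881)))) 
(.lf (nat_lit 1344791723) (dlOf (nat_lit 2) (nat_lit 0x8e08d00016818982c00)))) (.nd (nat_lit 6) 
(.lf (nat_lit 19919403) (dlOf (nat_lit 1) (nat_lit 0x800289d8981))) 
(.lf (nat_lit 8385131) (dlOf (nat_lit 2) (nat_lit 0x9bf401478040004004000e0008518982))))) 
(.nd (nat_lit 6) (.nd (nat_lit 11) 
(.lf (nat_lit 58188203) (dlOf (nat_lit 1) (nat_lit 0x8600297c6e81))) 
(.lf (nat_lit 36694443) (dlOf (nat_lit 1) (nat_lit 0x400200020009074e82)))) (.nd (nat_lit 11) 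
(.lf (nat_lit 19919211) (dlOf (nat_lit 1) (nat_lit 0x600289d8381))) 
(.lf (nat_lit 57141611) (dlOf (nat_lit 1) (nat_lit 0x20019794e81)))))))))) (.nd (nat_lit 16) 
(.nd (nat_lit 26) (.nd (nat_lit 18) (.nd (nat_lit 3) (.nd (nat_lit 19) (.nd (nat_lit 6) 
(.nd (nat_lit 8) (.nd (nat_lit 12) (.nd (nat_lit 21) (.nd (nat_lit 27) 
(.lf (nat_lit 4026720295) (dlOf (nat_lit 1) (nat_lit 0x1800400020008060582))) 
(.lf (nat_lit 6308421671) (dlOf (nat_lit 1) (nat_lit 0x28008000c00200060008080283)))) 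
(.lf (nat_lit 1344462887) (dlOf (nat_lit 1) (nat_lit 0x40008800001)))) (.nd (nat_lit 7) 
(.lf (nat_lit 2818765863) (dlOf (nat_lit 1) (nat_lit 0x400400020008129202))) 
(.lf (nat_lit 2818765479) (dlOf (nat_lit 1) (nat_lit 0x400200020008128c82))))) (.nd (nat_lit 20) 
(.nd (nat_lit 28) (.lf (nat_lit 4966244647) (dlOf (nat_lit 1) (nat_lit 0x20008090a81))) 
(.lf (nat_lit 939712807) (dlOf (nat_lit 2) (nat_lit 0x1c80980139404006000200180008154602)))) 
(.nd (nat_lit 7) (.lf (nat_lit 28500263) (dlOf (nat_lit 1) (nat_lit 0x400200020008da0702))) 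
(.lf (nat_lit 20116903) (dlOf (nat_lit 1) (nat_lit 0x200089d9901)))))) (.nd (nat_lit 8) 
(.nd (nat_lit 9) (.nd (nat_lit 10) 
(.lf (nat_lit 671279335) (dlOf (nat_lit 1) (nat_lit 0x48008000c00200180008144b03))) 
(.lf (nat_lit 2818768103) (dlOf (nat_lit 1) (nat_lit 0x4002000e000812c602)))) (.nd (nat_lit 7) 
(.lf (nat_lit 1208150631) (dlOf (nat_lit 1) (nat_lit 0x700018095381))) 
(.lf (nat_lit 6039986919) (dlOf (nat_lit 1) (nat_lit 0x4002000200080b2102))))) (.nd (nat_lit 27) 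
(.nd (nat_lit 7) (.lf (nat_lit 43180391) (dlOf (nat_lit 1) (nat_lit 0x200192a0f01))) 
(.lf (nat_lit 1342366183) (dlOf (nat_lit 1) (nat_lit 0x800400080008017302)))) (.nd (nat_lit 28) 
(.lf (nat_lit 134406631) (dlOf (nat_lit 4) (nat_lit 0x2c80000002202010200000010010088000000074080058008003000200160008017303))) 
(.lf (nat_lit 939712999) (dlOf (nat_lit 1) (nat_lit 0xe800401300008157d02))))))) (.nd (nat_lit 20) 
(.nd (nat_lit 21) (.nd (nat_lit 22) (.nd (nat_lit 23) 
(.lf (nat_lit 5772075047) (dlOf (nat_lit 10) (nat_lit 0x80a00026404002c05000140260009882000a0140004c00800300a0006c04a0012f040002028000c01280048c1000800a0004404c0012204003a026000801180028060002420c0080050001c026001f0128007808c001c0440002018000900600080140000000800f0008002400200160008060c03))) 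
(.lf (nat_lit 42655783) (dlOf (nat_lit 3) (nat_lit 0x160980009408008b04c0000804012000400020019270782)))) 
(.nd (nat_lit 24) (.lf (nat_lit 4907047) (dlOf (nat_lit 1) (nat_lit 0xc0004003800082d0282))) 
(.lf (nat_lit 21684263) (dlOf (nat_lit 3) (nat_lit 0x2dc4600097810009074800480080020008003800200040008a60c03))))) 
(.nd (nat_lit 6) (.nd (nat_lit 7) 
(.lf (nat_lit 3492470823) (dlOf (nat_lit 1) (nat_lit 0x2800080d0981))) 
(.lf (nat_lit 36365479) (dlOf (nat_lit 1) (nat_lit 0x4a0009072c01)))) (.nd (nat_lit 7) 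
(.lf (nat_lit 1344987239) (dlOf (nat_lit 9) (nat_lit 0x340fa0001702023e160011906c808b036004b8138027408d012e03e808f81f00001c1c00240f80000d0201ae08d00c903e80003010009858000341b200140d8002704e001a02340060118005007d001b03e00002840007823400900fa001607c000048300050b000000c080540580026c29a01460d9000106c00628270034c11a018407d00b403e00000040018800800ec002006c00089a0983))) 
(.lf (nat_lit 36365287) (dlOf (nat_lit 1) (nat_lit 0x40019072881)))))) (.nd (nat_lit 9) 
(.nd (nat_lit 7) (.nd (nat_lit 21) 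
(.lf (nat_lit 5773123623) (dlOf (nat_lit 1) (nat_lit 0x8002000400080a0982))) 
(.lf (nat_lit 45801511) (dlOf (nat_lit 1) (nat_lit 0xf4002004e0009360202)))) 
(.lf (nat_lit 8053159) (dlOf (nat_lit 1) (nat_lit 0x20008511001)))) (.nd (nat_lit 7) 
(.nd (nat_lit 8) (.nd (nat_lit 11) 
(.lf (nat_lit 3491422759) (dlOf (nat_lit 1) (nat_lit 0x20028090e01))) 
(.lf (nat_lit 33221159) (dlOf (nat_lit 1) (nat_lit 0x400400020008f55182)))) 
(.lf (nat_lit 8053543) (dlOf (nat_lit 1) (nat_lit 0x840028512181)))) 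
(.lf (nat_lit 8057511) (dlOf (nat_lit 1) (nat_lit 0x8008000400200020008518c83))))))) 
(.nd (nat_lit 7) (.nd (nat_lit 20) (.nd (nat_lit 23) (.nd (nat_lit 29) (.nd (nat_lit 27) 
(.nd (nat_lit 28) 
(.lf (nat_lit 1073930287) (dlOf (nat_lit 1) (nat_lit 0x10008000c00200020008030c83))) 
(.lf (nat_lit 6711074863) (dlOf (nat_lit 2) (nat_lit 0x201400000018080600)))) 
(.lf (nat_lit 1476583471) (dlOf (nat_lit 1) (nat_lit 0x8008005c002003a0008070903)))) 
(.nd (nat_lit 8) (.nd (nat_lit 30) 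
(.lf (nat_lit 5234679855) (dlOf (nat_lit 7) (nat_lit 0x280b80034040000e01d00050000000b82002880b80188040000280400c202e004f01000009c1002d80b80004a0400f405c0002402004002e000101000004c100028008006000200080008080383))) 
(.lf (nat_lit 6308421679) (dlOf (nat_lit 3) (nat_lit 0x25c05c012e02c0088015001e80780098022005a0000001586004700c800030080120008011400200360008080383)))) 
(.lf (nat_lit 671278895) (dlOf (nat_lit 1) (nat_lit 0xa0008002c002002a0008143d83))))) 
(.nd (nat_lit 25) (.nd (nat_lit 19) 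
(.lf (nat_lit 25354287) (dlOf (nat_lit 1) (nat_lit 0x6400400400018c00682))) 
(.lf (nat_lit 11198511) (dlOf (nat_lit 3) (nat_lit 0x21df000200100090ef8000e00800d00080024002001c0008670683)))) 
(.nd (nat_lit 6) (.lf (nat_lit 48425519) (dlOf (nat_lit 1) (nat_lit 0xc0029405181))) 
(.lf (nat_lit 44228719) (dlOf (nat_lit 1) (nat_lit 0x100080008002000400092e0c83)))))) 
(.nd (nat_lit 19) (.nd (nat_lit 21) 
(.lf (nat_lit 3490897967) (dlOf (nat_lit 1) (nat_lit 0x1340008030c81))) 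
(.lf (nat_lit 62054447) (dlOf (nat_lit 1) (nat_lit 0x18008000400200020009940483)))) 
(.nd (nat_lit 9) (.nd (nat_lit 11) (.nd (nat_lit 23) 
(.lf (nat_lit 1761327) (dlOf (nat_lit 1) (nat_lit 0x20018130881))) 
(.lf (nat_lit 10149935) (dlOf (nat_lit 2) (nat_lit 0x12e51f000290185b0580)))) 
(.lf (nat_lit 8058927) (dlOf (nat_lit 1) (nat_lit 0x2002851a601)))) 
(.lf (nat_lit 3491422767) (dlOf (nat_lit 1) (nat_lit 0x4800800b800200040008090e83)))))) 
(.nd (nat_lit 9) (.nd (nat_lit 19) (.nd (nat_lit 6) (.nd (nat_lit 8) 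
(.lf (nat_lit 35841199) (dlOf (nat_lit 1) (nat_lit 0x400200020009012c02))) 
(.lf (nat_lit 5637334447) (dlOf (nat_lit 1) (nat_lit 0x200280d3601)))) 
(.lf (nat_lit 1879237103) (dlOf (nat_lit 2) (nat_lit 0x9c061001198180c0d80)))) (.nd (nat_lit 8) 
(.lf (nat_lit 12247279) (dlOf (nat_lit 1) (nat_lit 0x200286c0481))) (.nd (nat_lit 11) 
(.lf (nat_lit 3491422703) (dlOf (nat_lit 2) (nat_lit 0x361ed00113018090d80))) 
(.lf (nat_lit 39512559) (dlOf (nat_lit 1) (nat_lit 0x20029194f01)))))) (.nd (nat_lit 6) 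
(.nd (nat_lit 8) (.lf (nat_lit 2818765487) (dlOf (nat_lit 1) (nat_lit 0x400200020008128c82))) 
(.lf (nat_lit 671279023) (dlOf (nat_lit 2) (nat_lit 0xc0028000900800c0008003400200380008144383)))) 
(.nd (nat_lit 8) 
(.lf (nat_lit 2818767599) (dlOf (nat_lit 1) (nat_lit 0x800800d80020002000812b983))) 
(.nd (nat_lit 19) (.lf (nat_lit 5637333999) (dlOf (nat_lit 1) (nat_lit 0x200280d2881))) 
(.lf (nat_lit 36365295) (dlOf (nat_lit 1) (nat_lit 0x60019072881))))))))) (.nd (nat_lit 6) 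
(.nd (nat_lit 3) (.nd (nat_lit 22) (.nd (nat_lit 28) (.nd (nat_lit 7) (.nd (nat_lit 9) 
(.nd (nat_lit 19) 
(.lf (nat_lit 134668327) (dlOf (nat_lit 1) (nat_lit 0x70008006c00200340008090003))) 
(.lf (nat_lit 537845799) (dlOf (nat_lit 2) (nat_lit 0xe0110000d8080078008005c002000c0008230503)))) 
(.lf (nat_lit 537322023) (dlOf (nat_lit 1) (nat_lit 0x40008090e01)))) (.nd (nat_lit 8) 
(.lf (nat_lit 8844455) (dlOf (nat_lit 1) (nat_lit 0xa0008519501))) 
(.lf (nat_lit 134668711) (dlOf (nat_lit 1) (nat_lit 0x800400280018090782))))) (.nd (nat_lit 8) 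
(.nd (nat_lit 27) (.nd (nat_lit 29) 
(.lf (nat_lit 1342627879) (dlOf (nat_lit 1) (nat_lit 0x6800080a0781))) 
(.lf (nat_lit 805756967) (dlOf (nat_lit 5) (nat_lit 0x4815800280a60014013006a583000902b0005014c002802600d4a060010056000a0298004804c01a900c00240ac000405300090098035181800b80080004002002a00081a0003)))) 
(.lf (nat_lit 3624329255) (dlOf (nat_lit 1) (nat_lit 0xa00028160501)))) (.nd (nat_lit 7) 
(.lf (nat_lit 805757223) (dlOf (nat_lit 2) (nat_lit 0x9e02d0001c0181a0500))) 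
(.lf (nat_lit 805757351) (dlOf (nat_lit 5) (nat_lit 0x1c0ac0010053000600980219418006815800380a6001c0130043203001c02b000d814c006c0260086306001005600050298003804c010c00c00cc002002c00081a0782)))))) 
(.nd (nat_lit 20) (.nd (nat_lit 7) (.nd (nat_lit 8) 
(.lf (nat_lit 15130663) (dlOf (nat_lit 1) (nat_lit 0x200187c0681))) 
(.lf (nat_lit 7266599) (dlOf (nat_lit 1) (nat_lit 0x200084b0701)))) 
(.lf (nat_lit 54976679) (dlOf (nat_lit 1) (nat_lit 0x3000400040019681482)))) (.nd (nat_lit 7) 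
(.nd (nat_lit 21) 
(.lf (nat_lit 22994983) (dlOf (nat_lit 2) (nat_lit 0x76d3800098040040004004c0018b40602))) 
(.lf (nat_lit 16703527) (dlOf (nat_lit 1) (nat_lit 0x200188d0781)))) 
(.lf (nat_lit 8316327) (dlOf (nat_lit 1) (nat_lit 0x20018513601)))))) (.nd (nat_lit 19) 
(.nd (nat_lit 30) (.nd (nat_lit 7) 
(.lf (nat_lit 15130671) (dlOf (nat_lit 2) (nat_lit 0x500000001f0187c0700))) (.nd (nat_lit 20) 
(.lf (nat_lit 537321903) (dlOf (nat_lit 1) (nat_lit 0x800200060008090782))) 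
(.lf (nat_lit 58122671) (dlOf (nat_lit 1) (nat_lit 0xfc004009000097c6e82))))) (.nd (nat_lit 9) 
(.nd (nat_lit 20) (.lf (nat_lit 1611063343) (dlOf (nat_lit 1) (nat_lit 0x2400280d0381))) 
(.lf (nat_lit 3491160111) (dlOf (nat_lit 1) (nat_lit 0x20028070901)))) 
(.lf (nat_lit 1476848175) (dlOf (nat_lit 1) (nat_lit 0x40028285181))))) (.nd (nat_lit 7) 
(.nd (nat_lit 20) (.nd (nat_lit 21) 
(.lf (nat_lit 21946415) (dlOf (nat_lit 1) (nat_lit 0x400400020018a80c82))) 
(.lf (nat_lit 11460655) (dlOf (nat_lit 2) (nat_lit 0x98e2a0001102000200286a0881)))) 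
(.lf (nat_lit 20897839) (dlOf (nat_lit 1) (nat_lit 0x80080004002000200089f0483)))) 
(.nd (nat_lit 10) (.lf (nat_lit 49211823) (dlOf (nat_lit 1) (nat_lit 0x20009464e81))) 
(.lf (nat_lit 19852719) (dlOf (nat_lit 1) (nat_lit 0x4004000200089d6d02))))))) (.nd (nat_lit 8) 
(.nd (nat_lit 19) (.nd (nat_lit 28) (.nd (nat_lit 21) (.nd (nat_lit 24) 
(.lf (nat_lit 2819022951) (dlOf (nat_lit 1) (nat_lit 0x5800200300008150d02))) 
(.lf (nat_lit 17227879) (dlOf (nat_lit 1) (nat_lit 0x4004000200088e0482)))) 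
(.lf (nat_lit 36102247) (dlOf (nat_lit 1) (nat_lit 0x800200020009021982)))) (.nd (nat_lit 7) 
(.lf (nat_lit 1476848231) (dlOf (nat_lit 1) (nat_lit 0x1c00400020008285382))) (.nd (nat_lit 20) 
(.lf (nat_lit 805757159) (dlOf (nat_lit 2) (nat_lit 0x9802d007a00b800274100020008006c002000800081a0483))) 
(.lf (nat_lit 1343676647) (dlOf (nat_lit 1) (nat_lit 0x7800082e0601)))))) (.nd (nat_lit 3) 
(.nd (nat_lit 7) (.nd (nat_lit 10) 
(.lf (nat_lit 20897895) (dlOf (nat_lit 1) (nat_lit 0x4004000200089f0d82))) 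
(.lf (nat_lit 34530407) (dlOf (nat_lit 1) (nat_lit 0xc00400060008fb2982)))) 
(.lf (nat_lit 8320231) (dlOf (nat_lit 1) (nat_lit 0x80018519501)))) (.nd (nat_lit 7) 
(.lf (nat_lit 40821871) (dlOf (nat_lit 1) (nat_lit 0x800291f2a01))) 
(.lf (nat_lit 5772338415) (dlOf (nat_lit 1) (nat_lit 0x400200020008092e82)))))) (.nd (nat_lit 3) 
(.nd (nat_lit 19) (.nd (nat_lit 7) (.nd (nat_lit 11) 
(.lf (nat_lit 25616743) (dlOf (nat_lit 1) (nat_lit 0x400200020008c10982))) 
(.lf (nat_lit 1344727399) (dlOf (nat_lit 1) (nat_lit 0x38008001400200100008984e83)))) 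
(.lf (nat_lit 21422567) (dlOf (nat_lit 1) (nat_lit 0x10008000400200080008a37303)))) 
(.nd (nat_lit 7) (.nd (nat_lit 9) 
(.lf (nat_lit 2023783) (dlOf (nat_lit 3) (nat_lit 0x21a88000cc0800a8d440006204000c00400020018150702))) 
(.lf (nat_lit 19852135) (dlOf (nat_lit 1) (nat_lit 0x4002000200089d5c02)))) 
(.lf (nat_lit 3490636263) (dlOf (nat_lit 8) (nat_lit 0x2d00d70001781017306b8000b408026835c000560401441ae0002a0200480d70001401000a06b8000980800f03000002c04000800200020008017302))))) 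
(.nd (nat_lit 7) (.nd (nat_lit 9) 
(.lf (nat_lit 1344727407) (dlOf (nat_lit 1) (nat_lit 0xc800400420008984e82))) 
(.lf (nat_lit 8840047) (dlOf (nat_lit 1) (nat_lit 0x19800400c40008512582)))) 
(.lf (nat_lit 537321967) (dlOf (nat_lit 1) (nat_lit 0x20008000400200060008090d83)))))))) 
(.nd (nat_lit 28) (.nd (nat_lit 3) (.nd (nat_lit 7) (.nd (nat_lit 29) (.nd (nat_lit 30) 
(.nd (nat_lit 9) (.lf (nat_lit 4362788903) (dlOf (nat_lit 1) (nat_lit 0x4002001e0008100502))) 
(.lf (nat_lit 2348999207) (dlOf (nat_lit 3) (nat_lit 0xa00d00003010001006800014080238008017400200900008090e03)))) 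
(.nd (nat_lit 6) (.nd (nat_lit 31) 
(.lf (nat_lit 5436006439) (dlOf (nat_lit 1) (nat_lit 0x40028090001))) 
(.lf (nat_lit 3288522791) (dlOf (nat_lit 1) (nat_lit 0x1800400020008060582)))) 
(.lf (nat_lit 3288787047) (dlOf (nat_lit 1) (nat_lit 0xa00180f4701))))) (.nd (nat_lit 8) 
(.nd (nat_lit 9) (.nd (nat_lit 18) 
(.lf (nat_lit 2754273319) (dlOf (nat_lit 1) (nat_lit 0x2800080d0981))) 
(.lf (nat_lit 2886131751) (dlOf (nat_lit 1) (nat_lit 0xa00028160501)))) (.nd (nat_lit 19) 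
(.lf (nat_lit 1812128295) (dlOf (nat_lit 2) (nat_lit 0x2f00000098c04004800200300008157f02))) 
(.lf (nat_lit 2753225255) (dlOf (nat_lit 1) (nat_lit 0x20028090e01))))) (.nd (nat_lit 6) 
(.lf (nat_lit 1678172455) (dlOf (nat_lit 2) (nat_lit 0x9202d0001b0181a0500))) (.nd (nat_lit 18) 
(.lf (nat_lit 2755846503) (dlOf (nat_lit 4) (nat_lit 0xa41140000a40806508a00004e04001442e0002502002600181b0701))) 
(.lf (nat_lit 2752438631) (dlOf (nat_lit 1) (nat_lit 0x40028015201))))))) (.nd (nat_lit 29) 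
(.nd (nat_lit 8) (.nd (nat_lit 11) (.nd (nat_lit 19) 
(.lf (nat_lit 4362526951) (dlOf (nat_lit 2) (nat_lit 0x300320004e818090480))) 
(.lf (nat_lit 68083943) (dlOf (nat_lit 1) (nat_lit 0x4002000200083e0682)))) 
(.lf (nat_lit 3288787175) (dlOf (nat_lit 1) (nat_lit 0x600180f4b01)))) (.nd (nat_lit 6) 
(.nd (nat_lit 27) 
(.lf (nat_lit 4362527143) (dlOf (nat_lit 8) (nat_lit 0x6c06600ea5020046033007518100630198038c40802800cc01c600400b406600e2f02006a033007170100120198000000895a0008018c00200920008090783))) 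
(.lf (nat_lit 201777575) (dlOf (nat_lit 3) (nat_lit 0x31a03b006750100e001d8033a4080d90008048400206a20008090783)))) 
(.lf (nat_lit 201515495) (dlOf (nat_lit 1) (nat_lit 0x1e0018017d01))))) (.nd (nat_lit 6) 
(.nd (nat_lit 11) 
(.lf (nat_lit 1678172583) (dlOf (nat_lit 5) (nat_lit 0x98815804c40a60262013007188300cd02b0066014c033402600e3006016005600b10298058804c01c5e0c02e80ac017805300bb0098038b8180188008185400200b000081a0783))) 
(.lf (nat_lit 2754537895) (dlOf (nat_lit 1) (nat_lit 0x580080010002000a00080f4e83)))) 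
(.nd (nat_lit 8) 
(.lf (nat_lit 1678172391) (dlOf (nat_lit 3) (nat_lit 0x12005a0009d02000402d000470181a0480))) 
(.nd (nat_lit 9) 
(.lf (nat_lit 1812128231) (dlOf (nat_lit 6) (nat_lit 0x8800c004e002c0220012013a004008d001003a8000000bc180230030013800b008b004804a0010024400400e40000002e060093005804e001000800000004406012800b008d00200010c10000802c000800401e800400320008157302))) 
(.lf (nat_lit 738388967) (dlOf (nat_lit 1) (nat_lit 0x400200020008095e82)))))))) (.nd (nat_lit 7) 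
(.nd (nat_lit 18) (.nd (nat_lit 20) (.nd (nat_lit 6) (.nd (nat_lit 27) 
(.lf (nat_lit 4899135535) (dlOf (nat_lit 2) (nat_lit 0x2380340132019009a00b0000ac180020008002c002000e0008080383))) 
(.lf (nat_lit 6107095087) (dlOf (nat_lit 2) (nat_lit 0x201400000018080600)))) 
(.lf (nat_lit 67297647) (dlOf (nat_lit 1) (nat_lit 0x200080004002000200080b0a03)))) 
(.nd (nat_lit 9) (.lf (nat_lit 2752700463) (dlOf (nat_lit 1) (nat_lit 0x1340008030c81))) 
(.lf (nat_lit 2753225263) (dlOf (nat_lit 1) (nat_lit 0x4800800b800200040008090e83))))) 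
(.nd (nat_lit 8) (.nd (nat_lit 29) 
(.lf (nat_lit 201777199) (dlOf (nat_lit 1) (nat_lit 0x20018090001))) 
(.lf (nat_lit 738648111) (dlOf (nat_lit 1) (nat_lit 0x2400280d0381)))) (.nd (nat_lit 6) 
(.nd (nat_lit 29) 
(.lf (nat_lit 4362527023) (dlOf (nat_lit 2) (nat_lit 0x110000000430200040018090501))) 
(.lf (nat_lit 1678172463) (dlOf (nat_lit 2) (nat_lit 0x4a02d0001b0181a0500)))) 
(.lf (nat_lit 2753487215) (dlOf (nat_lit 1) (nat_lit 0x1800200040008090782)))))) (.nd (nat_lit 6) 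
(.nd (nat_lit 18) (.nd (nat_lit 27) (.nd (nat_lit 11) 
(.lf (nat_lit 2753225135) (dlOf (nat_lit 1) (nat_lit 0x8008008400200160008090783))) 
(.lf (nat_lit 3825396143) (dlOf (nat_lit 2) (nat_lit 0x6401b0017000006468100020008006c002000e0008144e83)))) 
(.nd (nat_lit 8) (.lf (nat_lit 5033353391) (dlOf (nat_lit 1) (nat_lit 0x20028090601))) 
(.lf (nat_lit 5033353647) (dlOf (nat_lit 1) (nat_lit 0x20008091001))))) (.nd (nat_lit 8) 
(.lf (nat_lit 69133487) (dlOf (nat_lit 3) (nat_lit 0x81b60012087000100000017c180020000000ba040068004002200088a2c02))) 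
(.nd (nat_lit 9) 
(.lf (nat_lit 3959873967) (dlOf (nat_lit 2) (nat_lit 0x21807c00cb502000a0028170781))) 
(.lf (nat_lit 2751915951) (dlOf (nat_lit 1) (nat_lit 0x400400020008004382)))))) (.nd (nat_lit 8) 
(.nd (nat_lit 29) 
(.lf (nat_lit 4362526959) (dlOf (nat_lit 3) (nat_lit 0x780640009d0201fc03200047018090480))) 
(.lf (nat_lit 1678172399) (dlOf (nat_lit 2) (nat_lit 0x2180b40013a04013c004003800081a0482)))) 
(.nd (nat_lit 9) (.lf (nat_lit 2753225199) (dlOf (nat_lit 2) (nat_lit 0x361ff00113018090d80))) 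
(.nd (nat_lit 27) 
(.lf (nat_lit 1141042159) (dlOf (nat_lit 1) (nat_lit 0x28008000800200020008095f03))) 
(.lf (nat_lit 738388975) (dlOf (nat_lit 1) (nat_lit 0x10008000800200020008095f03))))))))) 
(.nd (nat_lit 27) (.nd (nat_lit 31) (.nd (nat_lit 3) (.nd (nat_lit 9) (.nd (nat_lit 18) 
(.lf (nat_lit 5704441895) (dlOf (nat_lit 1) (nat_lit 0x28008000c00200060008080283))) 
(.lf (nat_lit 1410261031) (dlOf (nat_lit 2) (nat_lit 0xe0110000e0080078008005c002000c0008230503)))) 
(.nd (nat_lit 6) (.lf (nat_lit 1409737255) (dlOf (nat_lit 1) (nat_lit 0x40008090e01))) 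
(.lf (nat_lit 5167571943) (dlOf (nat_lit 1) (nat_lit 0x4002000200080d2882))))) (.nd (nat_lit 7) 
(.nd (nat_lit 32) (.nd (nat_lit 19) 
(.lf (nat_lit 1946345519) (dlOf (nat_lit 1) (nat_lit 0x10008000c00200020008030c83))) 
(.lf (nat_lit 1409998895) (dlOf (nat_lit 2) (nat_lit 0x610180000c0080188008003c002007200080c0e83)))) 
(.nd (nat_lit 30) (.lf (nat_lit 4630700079) (dlOf (nat_lit 1) (nat_lit 0x1c0028080601))) 
(.lf (nat_lit 5704441903) (dlOf (nat_lit 3) (nat_lit 0x25c05c012e02c0088015001e80780098022005a0000001706004700c800030080120008011400200360008080383))))) 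
(.nd (nat_lit 6) (.lf (nat_lit 1409737135) (dlOf (nat_lit 1) (nat_lit 0x280018090781))) 
(.lf (nat_lit 1409737199) (dlOf (nat_lit 1) (nat_lit 0x20008000400200060008090d83)))))) 
(.nd (nat_lit 7) (.nd (nat_lit 3) (.nd (nat_lit 6) (.nd (nat_lit 9) 
(.lf (nat_lit 3557220391) (dlOf (nat_lit 5) (nat_lit 0x1ba04600cc00e0000c41006e81180338038000300401b80460008010806680700005a0c037408c019c01c00015828170280))) 
(.lf (nat_lit 2483216935) (dlOf (nat_lit 3) (nat_lit 0xa00d00003010001006800014080238008017400200900008090e03)))) 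
(.lf (nat_lit 3556963431) (dlOf (nat_lit 1) (nat_lit 0x400200120008129402)))) (.nd (nat_lit 6) 
(.lf (nat_lit 3557220399) (dlOf (nat_lit 9) (nat_lit 0x6600e4001e6020148072000f10102950390007340800a81c8032c07e000a10406d4072011b01f8001f81015d81c8048007e000240403e40720000a0102000390000480800e8008008800200180008170483))) 
(.lf (nat_lit 3556964463) (dlOf (nat_lit 3) (nat_lit 0x5007000aa60200400380052381812a880))))) 
(.nd (nat_lit 9) (.nd (nat_lit 6) (.nd (nat_lit 12) 
(.lf (nat_lit 4095140015) (dlOf (nat_lit 1) (nat_lit 0x8008000400200020008062d83))) 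
(.lf (nat_lit 3556962479) (dlOf (nat_lit 1) (nat_lit 0x40018127e01)))) 
(.lf (nat_lit 3556964591) (dlOf (nat_lit 2) (nat_lit 0x101c00018408000800800040020014000812a903)))) 
(.nd (nat_lit 3) (.lf (nat_lit 3556962983) (dlOf (nat_lit 1) (nat_lit 0x400200020008128c82))) 
(.lf (nat_lit 3556962991) (dlOf (nat_lit 1) (nat_lit 0x400200020008128c82))))))) (.nd (nat_lit 21) 
(.nd (nat_lit 31) (.nd (nat_lit 3) (.nd (nat_lit 18) (.nd (nat_lit 19) 
(.lf (nat_lit 5301788711) (dlOf (nat_lit 1) (nat_lit 0x40028090001))) 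
(.lf (nat_lit 6376054823) (dlOf (nat_lit 10) (nat_lit 0x80a00027e04002c05000140260009f02000a0140004f40800300a0006c04a0013c040002028000c0128004c81000800a0004404c0013104003a026000801180028060002600c0080050001c026001f0128007808c001c0440002018000978600080140000000800f0008002400200160008060c03)))) 
(.nd (nat_lit 8) (.lf (nat_lit 470212647) (dlOf (nat_lit 1) (nat_lit 0x6800080a0781))) 
(.lf (nat_lit 6376317223) (dlOf (nat_lit 3) (nat_lit 0x6122000b0010005090000270080070008002000200080008090a83))))) 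
(.nd (nat_lit 6) (.lf (nat_lit 4764917807) (dlOf (nat_lit 1) (nat_lit 0x1c0028080601))) 
(.lf (nat_lit 1006821871) (dlOf (nat_lit 2) (nat_lit 0x9c065001198180c0d80))))) (.nd (nat_lit 7) 
(.nd (nat_lit 3) (.nd (nat_lit 18) 
(.lf (nat_lit 4228571175) (dlOf (nat_lit 1) (nat_lit 0x4002001e0008100502))) 
(.lf (nat_lit 4228309031) (dlOf (nat_lit 6) (nat_lit 0x380c801a9604001806400d4a02000c032006a40100060190035180800080c8012c60400a400200920008090002)))) 
(.lf (nat_lit 3691175983) (dlOf (nat_lit 3) (nat_lit 0x2a403a04a00040002f82002900e800018080078008014800200460008070903)))) 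
(.nd (nat_lit 6) 
(.lf (nat_lit 4228309415) (dlOf (nat_lit 5) (nat_lit 0x18064008650200120320043201001501900218c0800400c8010c004012c00200a00008090782))) 
(.nd (nat_lit 8) 
(.lf (nat_lit 4228309223) (dlOf (nat_lit 2) (nat_lit 0x18c0620009d0200040028090481))) 
(.lf (nat_lit 4228047335) (dlOf (nat_lit 8) (nat_lit 0x13e04f00f502100f800a800080340006908013a04f00e102100f380a8000cc0c026009e01cc04201f20150001101808580a80008204023409e01b804201e70150001001803700a80007e04014009e000a04d01010150000901802a0008001c002000a0008017303))))))) 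
(.nd (nat_lit 9) (.nd (nat_lit 18) (.nd (nat_lit 6) (.nd (nat_lit 19) 
(.lf (nat_lit 472047655) (dlOf (nat_lit 1) (nat_lit 0x40008800001))) 
(.lf (nat_lit 472571943) (dlOf (nat_lit 1) (nat_lit 0x44004003c00089c0202)))) 
(.lf (nat_lit 472572007) (dlOf (nat_lit 2) (nat_lit 0x5614d004f06c8000381000b80080048002001600089c0983)))) 
(.nd (nat_lit 3) (.nd (nat_lit 6) 
(.lf (nat_lit 473882663) (dlOf (nat_lit 3) (nat_lit 0x101450002067801281cc000520c003828a000c0cf003d0398007005c0004e100004004001c0008fc0202))) 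
(.lf (nat_lit 473882727) (dlOf (nat_lit 8) (nat_lit 0xb014d009c06c802e036001f00fa01a407c0000705002d06c800401f4000180801300f80000b02009814d007a06c8024036001840fa014207c0000505003b03e0000240800481f40000c0400b81b2001807d006003e000000180bb80080010002001a0008fc0983)))) 
(.lf (nat_lit 1009181871) (dlOf (nat_lit 2) (nat_lit 0xd07180012c0800280080008002000c0009082c03))))) 
(.nd (nat_lit 3) (.nd (nat_lit 8) (.nd (nat_lit 11) 
(.lf (nat_lit 473621031) (dlOf (nat_lit 4) (nat_lit 0x14232000680200041190003301000208c8000000802d8008001000200060008f68803))) 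
(.lf (nat_lit 473360935) (dlOf (nat_lit 1) (nat_lit 0x440018ef5181)))) 
(.lf (nat_lit 473099047) (dlOf (nat_lit 2) (nat_lit 0x2e0b280068c080128008007c00200220008c95c03)))) 
(.nd (nat_lit 6) (.lf (nat_lit 473098799) (dlOf (nat_lit 1) (nat_lit 0x1000400060008c95182))) 
(.lf (nat_lit 473099247) (dlOf (nat_lit 1) (nat_lit 0x30008001c00200160008c95f03)))))))))) 
(.nd (nat_lit 18) (.nd (nat_lit 3) (.nd (nat_lit 6) (.nd (nat_lit 30) (.nd (nat_lit 19) 
(.nd (nat_lit 26) (.nd (nat_lit 23) (.nd (nat_lit 9) 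
(.lf (nat_lit 939778087) (dlOf (nat_lit 2) (nat_lit 0x2809800298040014004001c0008170a82))) 
(.lf (nat_lit 5234746919) (dlOf (nat_lit 2) (nat_lit 0x2c00c0000000800300080084002001200080d3703)))) 
(.nd (nat_lit 8) (.lf (nat_lit 12836903) (dlOf (nat_lit 2) (nat_lit 0xcae80073102000400286e0a01))) 
(.lf (nat_lit 28565799) (dlOf (nat_lit 1) (nat_lit 0x400200020008da0702))))) (.nd (nat_lit 21) 
(.nd (nat_lit 27) 
(.lf (nat_lit 4362330151) (dlOf (nat_lit 4) (nat_lit 0x400ac000420400940ac000602b000100200090268000000802280080004002005a0008020583))) 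
(.lf (nat_lit 5301854247) (dlOf (nat_lit 1) (nat_lit 0x500080018002003400080b0303)))) 
(.lf (nat_lit 472113191) (dlOf (nat_lit 2) (nat_lit 0x190af800c835c0064136003208b0000a048830780))))) 
(.nd (nat_lit 7) (.nd (nat_lit 9) 
(.lf (nat_lit 26992679) (dlOf (nat_lit 1) (nat_lit 0x8400200120008ca0682))) (.nd (nat_lit 10) 
(.lf (nat_lit 33286695) (dlOf (nat_lit 1) (nat_lit 0x400400020008f55182))) 
(.lf (nat_lit 19656231) (dlOf (nat_lit 1) (nat_lit 0x200080018002000800089d7183))))) 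
(.nd (nat_lit 8) (.lf (nat_lit 8118439) (dlOf (nat_lit 1) (nat_lit 0x510008018c00201d60008510583))) 
(.nd (nat_lit 12) (.lf (nat_lit 537652647) (dlOf (nat_lit 1) (nat_lit 0x200280f6d01))) 
(.lf (nat_lit 537656743) (dlOf (nat_lit 1) (nat_lit 0x2600280fcb81))))))) (.nd (nat_lit 26) 
(.nd (nat_lit 31) (.nd (nat_lit 20) 
(.lf (nat_lit 1476648999) (dlOf (nat_lit 1) (nat_lit 0x800080d0701))) (.nd (nat_lit 29) 
(.lf (nat_lit 1343479847) (dlOf (nat_lit 1) (nat_lit 0x540008007c002019a0008260703))) 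
(.lf (nat_lit 1880350759) (dlOf (nat_lit 1) (nat_lit 0x1c0018860001))))) (.nd (nat_lit 7) 
(.nd (nat_lit 8) 
(.lf (nat_lit 3355697191) (dlOf (nat_lit 18) (nat_lit 0x34c056001c02a0038014000b809c03c0040004e0020002f8600e701580800080000ba080334056005802800ec0100001641803000ac00e0050006a02300430100001602005f80ac0008050012802300d301000015c2002700ac02cc050014e0250073011807f0080000aa14013805c00c2028004e012805a808c01940400006013007e0060001503800980d000f005c00fa02b00a7011805e0080038c018000520c024402b006a0140033809400b004601980200002885000e015803b80a0021404a010e02300c50100001302802300d0051005c019c02b004201400228094001c04601cc0200056009803f00300009624005c0400004a02018602b00100140071808c038c0400003308024402b00620140014808c035c0400003208005c02b00b50140040008c0408040000310801b402b006f0140033009c018404601fc0200001805000c01380001c0801280080188002007200080c0903))) 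
(.lf (nat_lit 3489918247) (dlOf (nat_lit 1) (nat_lit 0x400200020008006802)))) 
(.lf (nat_lit 3221481895) (dlOf (nat_lit 1) (nat_lit 0x18002001c0008114e82))))) (.nd (nat_lit 28) 
(.nd (nat_lit 27) 
(.lf (nat_lit 5436071975) (dlOf (nat_lit 1) (nat_lit 0x500080018002003400080b0303))) 
(.nd (nat_lit 29) 
(.lf (nat_lit 3422806055) (dlOf (nat_lit 2) (nat_lit 0x2201d000100bc00096080008002000a00080c0902))) 
(.lf (nat_lit 1812193319) (dlOf (nat_lit 2) (nat_lit 0x28098002ba040014004001c0008170a82))))) 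
(.nd (nat_lit 11) (.nd (nat_lit 29) 
(.lf (nat_lit 3691241511) (dlOf (nat_lit 5) (nat_lit 0xc02e00090150003008800140320001c08000c02e00090150003008800180320001b08001202e000d0150004808800240320001808000c02e00090150003008800180320001408001c00280d0901))) 
(.lf (nat_lit 4228112423) (dlOf (nat_lit 4) (nat_lit 0x400a80004204009409e000602a000100200090230000000802280080004002005a0008020583)))) 
(.nd (nat_lit 27) 
(.lf (nat_lit 1410070567) (dlOf (nat_lit 1) (nat_lit 0x80080004002000200080fa603))) 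
(.lf (nat_lit 4228642855) (dlOf (nat_lit 1) (nat_lit 0x4002000e000811a602)))))))) (.nd (nat_lit 8) 
(.nd (nat_lit 28) (.nd (nat_lit 19) (.nd (nat_lit 21) (.nd (nat_lit 7) 
(.lf (nat_lit 5436072039) (dlOf (nat_lit 2) (nat_lit 0x7006c00000040018004002000080b0d82))) 
(.lf (nat_lit 9691367) (dlOf (nat_lit 1) (nat_lit 0x480080050002001e0008571b83)))) 
(.nd (nat_lit 25) (.lf (nat_lit 23322727) (dlOf (nat_lit 1) (nat_lit 0x2a0018b80001))) 
(.lf (nat_lit 56877159) (dlOf (nat_lit 2) (nat_lit 0xb09a6000560200020019770981))))) 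
(.nd (nat_lit 7) (.nd (nat_lit 20) 
(.lf (nat_lit 30138471) (dlOf (nat_lit 1) (nat_lit 0x400400020008e30482))) 
(.lf (nat_lit 45867111) (dlOf (nat_lit 3) (nat_lit 0x4abbe000560200755df0029aa400004c100048008008400200280009360983)))) 
(.lf (nat_lit 19656423) (dlOf (nat_lit 1) (nat_lit 0x4004000200089d7402))))) (.nd (nat_lit 26) 
(.nd (nat_lit 7) (.nd (nat_lit 9) 
(.lf (nat_lit 1879302247) (dlOf (nat_lit 1) (nat_lit 0x200180d1381))) 
(.lf (nat_lit 6308489831) (dlOf (nat_lit 1) (nat_lit 0x4004000200080d5382)))) 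
(.lf (nat_lit 3490963687) (dlOf (nat_lit 1) (nat_lit 0x3c004000e0008046b82)))) (.nd (nat_lit 27) 
(.lf (nat_lit 2483282023) (dlOf (nat_lit 1) (nat_lit 0x4002000200080a1382))) 
(.lf (nat_lit 5301854311) (dlOf (nat_lit 2) (nat_lit 0x7006c00000040018004002000080b0d82)))))) 
(.nd (nat_lit 7) (.nd (nat_lit 20) (.nd (nat_lit 21) 
(.lf (nat_lit 2755912039) (dlOf (nat_lit 3) (nat_lit 0x340380002902012406b000138181b0700))) 
(.lf (nat_lit 2351463) (dlOf (nat_lit 2) (nat_lit 0x14c00000019818150700)))) (.nd (nat_lit 19) 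
(.lf (nat_lit 9691495) (dlOf (nat_lit 1) (nat_lit 0x1e0018575201))) 
(.lf (nat_lit 14410087) (dlOf (nat_lit 1) (nat_lit 0x50008011800200420008750983))))) 
(.nd (nat_lit 28) (.nd (nat_lit 20) 
(.lf (nat_lit 1677976039) (dlOf (nat_lit 2) (nat_lit 0x1e00e00216818127d00))) 
(.lf (nat_lit 1303015) (dlOf (nat_lit 1) (nat_lit 0x200280a7301)))) (.nd (nat_lit 9) 
(.lf (nat_lit 805560807) (dlOf (nat_lit 13) (nat_lit 0x28a042003101100fa0038085c01803c20000003485002700000019c0808f010806dc01c040200c01d9000000198200390038000c804016001c0006102028404201f7007000c8000000880c014001c000420201ea00e0002081012102100dc00380804018010c00201db0000001002802d00380007e0404f008402f400e00012020085007000088083c30008003c00200240008127303))) 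
(.lf (nat_lit 5772141543) (dlOf (nat_lit 1) (nat_lit 0x10004003a0018092882)))))))) 
(.nd (nat_lit 28) (.nd (nat_lit 6) (.nd (nat_lit 20) (.nd (nat_lit 7) (.nd (nat_lit 23) 
(.nd (nat_lit 19) 
(.lf (nat_lit 5436071983) (dlOf (nat_lit 2) (nat_lit 0xa0160001f8080040008001c002003800080b0483))) 
(.lf (nat_lit 2754338863) (dlOf (nat_lit 2) (nat_lit 0xb21fc0000d0180d0b00)))) (.nd (nat_lit 25) 
(.lf (nat_lit 10739759) (dlOf (nat_lit 1) (nat_lit 0x80018620601))) 
(.lf (nat_lit 44294191) (dlOf (nat_lit 1) (nat_lit 0x80080004002001000092f0d03))))) 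
(.nd (nat_lit 8) (.lf (nat_lit 19658415) (dlOf (nat_lit 1) (nat_lit 0x80080014002000200089da003))) 
(.lf (nat_lit 2147740079) (dlOf (nat_lit 1) (nat_lit 0x1c002000600080e4e82))))) (.nd (nat_lit 19) 
(.nd (nat_lit 7) (.nd (nat_lit 8) 
(.lf (nat_lit 18079791) (dlOf (nat_lit 1) (nat_lit 0x2000400040018900b82))) 
(.lf (nat_lit 2752766255) (dlOf (nat_lit 1) (nat_lit 0x160028048401)))) 
(.lf (nat_lit 49538223) (dlOf (nat_lit 2) (nat_lit 0x654f40006b02001e0029462c01)))) 
(.nd (nat_lit 23) (.lf (nat_lit 22798383) (dlOf (nat_lit 1) (nat_lit 0x24004000c0018b30682))) 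
(.lf (nat_lit 14409775) (dlOf (nat_lit 1) (nat_lit 0xc0028750001)))))) (.nd (nat_lit 7) 
(.nd (nat_lit 10) (.nd (nat_lit 8) 
(.lf (nat_lit 2349064303) (dlOf (nat_lit 1) (nat_lit 0x80080004002000200080a1583))) 
(.lf (nat_lit 9691503) (dlOf (nat_lit 1) (nat_lit 0x7800800c0002002e0008575803)))) 
(.nd (nat_lit 19) (.nd (nat_lit 26) 
(.lf (nat_lit 2147738735) (dlOf (nat_lit 1) (nat_lit 0xb0004000600180e2a02))) 
(.lf (nat_lit 1275323503) (dlOf (nat_lit 1) (nat_lit 0x1400280e2a01)))) (.nd (nat_lit 9) 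
(.lf (nat_lit 537652335) (dlOf (nat_lit 1) (nat_lit 0x1200180f6081))) 
(.lf (nat_lit 19658351) (dlOf (nat_lit 1) (nat_lit 0x280080008002000200089d9c83)))))) 
(.nd (nat_lit 9) (.nd (nat_lit 11) 
(.lf (nat_lit 8122863) (dlOf (nat_lit 1) (nat_lit 0xa40028518681))) 
(.lf (nat_lit 33286639) (dlOf (nat_lit 1) (nat_lit 0x400400020008f54f02)))) (.nd (nat_lit 8) 
(.lf (nat_lit 8124143) (dlOf (nat_lit 1) (nat_lit 0x64000851a001))) (.nd (nat_lit 29) 
(.lf (nat_lit 4496550895) (dlOf (nat_lit 1) (nat_lit 0x200280e5f01))) 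
(.lf (nat_lit 738454511) (dlOf (nat_lit 2) (nat_lit 0x2c0b4000400200040018095f01)))))))) 
(.nd (nat_lit 26) (.nd (nat_lit 7) (.nd (nat_lit 27) (.nd (nat_lit 19) (.nd (nat_lit 30) 
(.lf (nat_lit 4563656751) (dlOf (nat_lit 7) (nat_lit 0x2300a802400480035008026c02400186020198012000c181049d019800e80c8139003c002801d003500a804280480013a18129c06609da01e0004702008b0090000000801d0008046c002000200080b0483))) 
(.lf (nat_lit 1342431279) (dlOf (nat_lit 16) (nat_lit 0x1ff0e6800154080a78734000a804052839a000530201581d100900e780458734027039606ba1c50002905014f0e6800144080878734000a00404a439a0004f0202961cd0001b8101360e68000d8080a187340006a0402843a201081cd03550e28000d0180a407340006604052839a0003202028c1cd0001881014a0e680001408034800802e000200580008020583)))) 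
(.lf (nat_lit 3492536367) (dlOf (nat_lit 2) (nat_lit 0xb21ea0000d0180d0b00)))) (.nd (nat_lit 30) 
(.lf (nat_lit 4697874479) (dlOf (nat_lit 7) (nat_lit 0x2300a802400480035a08026c0240017c020198012000bd01049d019800e80c8139003c002801d003500a804280480013a18129c06609da01e0004702008b0090000000801d0008046c002000200080b0483))) 
(.lf (nat_lit 1476649007) (dlOf (nat_lit 1) (nat_lit 0x54002005c00080d0902))))) (.nd (nat_lit 6) 
(.nd (nat_lit 19) 
(.lf (nat_lit 1345579439) (dlOf (nat_lit 1) (nat_lit 0x8008000400200020008d74e83))) 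
(.lf (nat_lit 3490441647) (dlOf (nat_lit 1) (nat_lit 0x60028004e81)))) (.nd (nat_lit 9) 
(.lf (nat_lit 3624136175) (dlOf (nat_lit 2) (nat_lit 0x200000002818146f00))) 
(.lf (nat_lit 5100530671) (dlOf (nat_lit 1) (nat_lit 0x2800180d5f01)))))) (.nd (nat_lit 6) 
(.nd (nat_lit 9) (.nd (nat_lit 7) (.nd (nat_lit 29) 
(.lf (nat_lit 470016047) (dlOf (nat_lit 16) (nat_lit 0x1ff0e6800154080a78734000a804052839a000530201581d100900e780458734027039606ba1c50002905014f0e6800144080878734000a00404a439a0004f0202961cd0001b8101360e68000d8080a187340006a0402843a201081cd03550e28000d0180a407340006604052839a0003202028c1cd0001881014a0e680001408034800802e000200580008020583))) 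
(.lf (nat_lit 5301854255) (dlOf (nat_lit 2) (nat_lit 0xa0160001f8080040008001c002003800080b0483)))) 
(.lf (nat_lit 335798447) (dlOf (nat_lit 1) (nat_lit 0x4004000200080a2d82)))) (.nd (nat_lit 10) 
(.lf (nat_lit 1008462383) (dlOf (nat_lit 1) (nat_lit 0x1c0018c95181))) 
(.lf (nat_lit 6375597615) (dlOf (nat_lit 1) (nat_lit 0xc00200020008003782))))) (.nd (nat_lit 8) 
(.nd (nat_lit 11) 
(.lf (nat_lit 2483282031) (dlOf (nat_lit 1) (nat_lit 0x80080004002000200080a1583))) 
(.lf (nat_lit 3557029999) (dlOf (nat_lit 3) (nat_lit 0x3804400aa602000c0220052f01812a880)))) 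
(.nd (nat_lit 7) (.lf (nat_lit 1410070895) (dlOf (nat_lit 1) (nat_lit 0x400180fad01))) 
(.lf (nat_lit 6241381359) (dlOf (nat_lit 1) (nat_lit 0x400280d5f01))))))))) (.nd (nat_lit 3) 
(.nd (nat_lit 6) (.nd (nat_lit 21) (.nd (nat_lit 26) (.nd (nat_lit 19) (.nd (nat_lit 25) 
(.nd (nat_lit 29) (.nd (nat_lit 22) 
(.lf (nat_lit 134733863) (dlOf (nat_lit 1) (nat_lit 0x13200080a0901))) 
(.lf (nat_lit 13099047) (dlOf (nat_lit 1) (nat_lit 0x100080008002000400086f0983)))) 
(.nd (nat_lit 28) 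
(.lf (nat_lit 1611128871) (dlOf (nat_lit 1) (nat_lit 0x480080028002000800080f0c03))) 
(.lf (nat_lit 805822503) (dlOf (nat_lit 1) (nat_lit 0xb00080054002006e00081b0903))))) 
(.nd (nat_lit 9) (.lf (nat_lit 35119143) (dlOf (nat_lit 1) (nat_lit 0x800400060008fe0782))) 
(.lf (nat_lit 50848295) (dlOf (nat_lit 4) (nat_lit 0x13bc3000ade10000ed50000d00c00237860006602000bbc30007de10000001002700080200002000200094d8803))))) 
(.nd (nat_lit 22) (.nd (nat_lit 20) 
(.lf (nat_lit 59760679) (dlOf (nat_lit 1) (nat_lit 0x1000400060009830782))) 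
(.lf (nat_lit 27254823) (dlOf (nat_lit 1) (nat_lit 0x180018cc0701)))) (.nd (nat_lit 23) 
(.lf (nat_lit 5234727) (dlOf (nat_lit 1) (nat_lit 0x400400020008330782))) 
(.lf (nat_lit 30400551) (dlOf (nat_lit 1) (nat_lit 0x300028e30001)))))) (.nd (nat_lit 27) 
(.nd (nat_lit 29) 
(.lf (nat_lit 4362592295) (dlOf (nat_lit 1) (nat_lit 0xa80080038002002e00080a0903))) 
(.lf (nat_lit 1678237735) (dlOf (nat_lit 1) (nat_lit 0xb00080054002006e00081b0903)))) 
(.nd (nat_lit 28) (.nd (nat_lit 29) 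
(.lf (nat_lit 201842727) (dlOf (nat_lit 1) (nat_lit 0x13200080a0901))) 
(.lf (nat_lit 738713639) (dlOf (nat_lit 1) (nat_lit 0x480080028002000800080f0c03)))) 
(.nd (nat_lit 30) (.lf (nat_lit 3154632743) (dlOf (nat_lit 1) (nat_lit 0xc004000200082e0802))) 
(.lf (nat_lit 4228374567) (dlOf (nat_lit 1) (nat_lit 0xa80080038002002e00080a0903))))))) 
(.nd (nat_lit 20) (.nd (nat_lit 19) (.nd (nat_lit 22) (.nd (nat_lit 26) 
(.lf (nat_lit 1881661479) (dlOf (nat_lit 1) (nat_lit 0x8008000400200020008fb0a83))) 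
(.lf (nat_lit 1009246247) (dlOf (nat_lit 3) (nat_lit 0x20e200005010016071800000080108008002c002004800090b0783)))) 
(.lf (nat_lit 31973415) (dlOf (nat_lit 1) (nat_lit 0xa0008ec0781)))) (.nd (nat_lit 7) 
(.lf (nat_lit 40886823) (dlOf (nat_lit 1) (nat_lit 0x60008004c002008e0009208803))) 
(.lf (nat_lit 36694439) (dlOf (nat_lit 1) (nat_lit 0x20019074e81))))) (.nd (nat_lit 24) 
(.nd (nat_lit 19) (.lf (nat_lit 37216295) (dlOf (nat_lit 1) (nat_lit 0x8004000600090c0782))) 
(.lf (nat_lit 473948199) (dlOf (nat_lit 1) (nat_lit 0x18008000c00200080008fd0783)))) 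
(.nd (nat_lit 7) (.lf (nat_lit 53996071) (dlOf (nat_lit 1) (nat_lit 0x4c00295f5181))) 
(.lf (nat_lit 58188199) (dlOf (nat_lit 1) (nat_lit 0x7a00297c6e81))))))) (.nd (nat_lit 19) 
(.nd (nat_lit 8) (.nd (nat_lit 26) (.nd (nat_lit 21) 
(.lf (nat_lit 805822567) (dlOf (nat_lit 2) (nat_lit 0x102a8000100800080080030002007000081b1383))) 
(.lf (nat_lit 48750695) (dlOf (nat_lit 2) (nat_lit 0xedd48000130200020019420981)))) 
(.nd (nat_lit 27) (.nd (nat_lit 29) 
(.lf (nat_lit 4362592359) (dlOf (nat_lit 1) (nat_lit 0x480080030002001a00080a1403))) 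
(.lf (nat_lit 1678237799) (dlOf (nat_lit 1) (nat_lit 0x78008001c002006400081b1403)))) 
(.lf (nat_lit 4228374631) (dlOf (nat_lit 1) (nat_lit 0x5c004000400080a1382))))) (.nd (nat_lit 27) 
(.nd (nat_lit 7) 
(.lf (nat_lit 604497255) (dlOf (nat_lit 2) (nat_lit 0x10150000fc0800180080078002000c00082d3483))) 
(.lf (nat_lit 1342693863) (dlOf (nat_lit 1) (nat_lit 0x20004004e00080c0c82)))) (.nd (nat_lit 9) 
(.lf (nat_lit 470278631) (dlOf (nat_lit 1) (nat_lit 0x20004004e00080c0c82))) 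
(.lf (nat_lit 473424871) (dlOf (nat_lit 1) (nat_lit 0x20028f52881)))))) (.nd (nat_lit 8) 
(.nd (nat_lit 9) (.nd (nat_lit 24) (.nd (nat_lit 26) 
(.lf (nat_lit 1344266343) (dlOf (nat_lit 1) (nat_lit 0x100008560d01))) 
(.lf (nat_lit 471851111) (dlOf (nat_lit 1) (nat_lit 0x100008540d01)))) 
(.lf (nat_lit 52420711) (dlOf (nat_lit 2) (nat_lit 0x36d2700007019530980)))) (.nd (nat_lit 7) 
(.lf (nat_lit 19920487) (dlOf (nat_lit 1) (nat_lit 0x100080004002000200089d9c03))) 
(.lf (nat_lit 39840487) (dlOf (nat_lit 1) (nat_lit 0x200191f5981))))) (.nd (nat_lit 20) 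
(.nd (nat_lit 7) (.lf (nat_lit 19917671) (dlOf (nat_lit 1) (nat_lit 0x4002000200089d5c02))) 
(.lf (nat_lit 3490701799) (dlOf (nat_lit 1) (nat_lit 0xc00200020008017302)))) (.nd (nat_lit 26) 
(.lf (nat_lit 3493847399) (dlOf (nat_lit 2) (nat_lit 0x1c806b000138181b0700))) 
(.lf (nat_lit 2755649895) (dlOf (nat_lit 3) (nat_lit 0x1300cc0002902004806b000138181b0700)))))))) 
(.nd (nat_lit 21) (.nd (nat_lit 28) (.nd (nat_lit 22) (.nd (nat_lit 8) (.nd (nat_lit 19) 
(.lf (nat_lit 2819088431) (dlOf (nat_lit 1) (nat_lit 0x80080030002000800081a0703))) 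
(.lf (nat_lit 17817647) (dlOf (nat_lit 1) (nat_lit 0x30002001e00088f0e82)))) 
(.lf (nat_lit 3892830511) (dlOf (nat_lit 3) (nat_lit 0xc005800a1c02004c02c00000018280700)))) 
(.nd (nat_lit 20) (.nd (nat_lit 6) (.nd (nat_lit 9) 
(.lf (nat_lit 21487663) (dlOf (nat_lit 1) (nat_lit 0x40008a40381))) 
(.lf (nat_lit 38267439) (dlOf (nat_lit 2) (nat_lit 0xe4c300046019135180)))) 
(.lf (nat_lit 55042159) (dlOf (nat_lit 5) (nat_lit 0x309f000284b40018204000c03d0000304000209f000204b400182040000506000813e000109680050408002407a0000408000213e000409680038408002007a000030800060009690c81)))) 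
(.nd (nat_lit 19) (.lf (nat_lit 30924847) (dlOf (nat_lit 1) (nat_lit 0x800400040008e50b82))) 
(.lf (nat_lit 23060527) (dlOf (nat_lit 1) (nat_lit 0x60008b50681)))))) (.nd (nat_lit 6) 
(.nd (nat_lit 19) (.nd (nat_lit 20) 
(.lf (nat_lit 4027047983) (dlOf (nat_lit 1) (nat_lit 0x80080004002000200081b0003))) 
(.lf (nat_lit 1343741999) (dlOf (nat_lit 3) (nat_lit 0x6403f0001dc0803201f800000040044004004a0008350802)))) 
(.nd (nat_lit 9) (.lf (nat_lit 5772402735) (dlOf (nat_lit 1) (nat_lit 0x20018090001))) 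
(.lf (nat_lit 3490701871) (dlOf (nat_lit 1) (nat_lit 0x1c00400040018018002))))) (.nd (nat_lit 8) 
(.lf (nat_lit 1007673583) (dlOf (nat_lit 1) (nat_lit 0x800186b0601))) (.nd (nat_lit 26) 
(.lf (nat_lit 1342693871) (dlOf (nat_lit 10) (nat_lit 0x99874402f439a000a1c5000a0e080fe8250004412602320810011e07021404a00bc024404b810201ce0030011984021504a007b824404b41020052003001188401270e8805a0734001438a000e1c101f704a0088020403500060022f0e029e1d100db0e680118714009c3820022d0800061d100040e68008b0100018744004560401dc3a201421cd001060200070e88007c40811d800805a00020d5e00080c0d83))) 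
(.lf (nat_lit 470278639) (dlOf (nat_lit 10) (nat_lit 0x99874402f439a000a1c5000a0e080fe8250004412602320810011e07021404a00bc024404b810201ce0070011984021504a007b824404b41020052007001188401270e8805a0734001438a000e1c101f704a00880204035000e0022f0e029e1d100db0e680118714009c3820022d0800061d100040e68008b0100018744004560401dc3a201421cd001070200070e88007c40811d800805a00020d5e00080c0d83))))))) 
(.nd (nat_lit 19) (.nd (nat_lit 28) (.nd (nat_lit 6) (.nd (nat_lit 22) 
(.lf (nat_lit 27779119) (dlOf (nat_lit 10) (nat_lit 0xdaa400028020006d520000f8100066fe000436380019aa4000cd40000766d0003332400038180019bf80010d8e00056a90002b500001d9b4000acc90000d8600066fe000436380019aa4000cd40000766d0003332400030180019bf80010d8e00066a900033500001d9b4000acc90000b8600066fe000436380019aa4000cd40000766d0001332400028180015bf80010d8e00066a90002b50000259b4000acc900009860008664800030080058008003c002000c0008d20903))) 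
(.lf (nat_lit 15196207) (dlOf (nat_lit 5) (nat_lit 0x3f71a80008204002f8d400040020477c6a017fdf60000f81000ff1a801428980003704010400187c0701)))) 
(.lf (nat_lit 3661935) (dlOf (nat_lit 1) (nat_lit 0xc0008211581)))) (.nd (nat_lit 6) 
(.nd (nat_lit 7) 
(.lf (nat_lit 1881661487) (dlOf (nat_lit 6) (nat_lit 0x8014000e3020002056000302980070140001809a00076080004056000302980040140001809a0007508000a056000602980048140002009a0007408000c056000602980038140002809a000730800020008fb0d01))) 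
(.lf (nat_lit 1345839535) (dlOf (nat_lit 1) (nat_lit 0xb4004001e0018e06e82)))) 
(.lf (nat_lit 1344791535) (dlOf (nat_lit 4) (nat_lit 0x3a046801a080801c827000a811a0067204007408d0006042801820100020008001800200080008982883))))) 
(.nd (nat_lit 6) (.nd (nat_lit 9) (.nd (nat_lit 10) 
(.lf (nat_lit 49277359) (dlOf (nat_lit 1) (nat_lit 0x20009464e81))) 
(.lf (nat_lit 19918255) (dlOf (nat_lit 1) (nat_lit 0x600289d6d01)))) 
(.lf (nat_lit 2754608047) (dlOf (nat_lit 1) (nat_lit 0x200280fbd81)))) (.nd (nat_lit 8) 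
(.lf (nat_lit 19917423) (dlOf (nat_lit 1) (nat_lit 0x7800189d5381))) (.nd (nat_lit 12) 
(.lf (nat_lit 24109423) (dlOf (nat_lit 1) (nat_lit 0x4000400120008b80782))) 
(.lf (nat_lit 19919215) (dlOf (nat_lit 1) (nat_lit 0x800289d8381))))))))))))

end

end Pool.Agent.Lib.MP_5854e1_co.Cz
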