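import Pool.Agent.Lib.MP_5854e1_co.DecRow

/-!
# Sparse corrections
-/

set_option autoImplicit false
set_option maxRecDepth 100000

namespace Pool.Agent.Lib.MP_5854e1_co.Cz

noncomputable section

noncomputable def tz199 : DT := (.nd (nat_lit 3) (.nd (nat_lit 5) (.nd (nat_lit 15) 
(.nd (nat_lit 18) (.nd (nat_lit 28) (.nd (nat_lit 6) (.nd (nat_lit 29) (.nd (nat_lit 19) 
(.nd (nat_lit 21) (.nd (nat_lit 10) (.nd (nat_lit 20) 
(.lf (nat_lit 6442655762) (dlOf (nat_lit 1) (nat_lit 0x44004000c0008120882))) 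
(.lf (nat_lit 30613522) (dlOf (nat_lit 1) (nat_lit 0xc00200020008e40782)))) 
(.lf (nat_lit 54733842) (dlOf (nat_lit 2) (nat_lit 0x608fc0002d0200020019655f81)))) 
(.nd (nat_lit 7) (.nd (nat_lit 25) 
(.lf (nat_lit 10690578) (dlOf (nat_lit 1) (nat_lit 0x8008000400200020008610303))) 
(.lf (nat_lit 44245010) (dlOf (nat_lit 1) (nat_lit 0x180080008002000600092e0003)))) 
(.lf (nat_lit 20132242) (dlOf (nat_lit 1) (nat_lit 0x200189d8381))))) (.nd (nat_lit 21) 
(.nd (nat_lit 22) (.nd (nat_lit 26) 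
(.lf (nat_lit 134946834) (dlOf (nat_lit 8) (nat_lit 0x600000004e0202bc03b014c01b00a8805c0008c0c061c07602f0036017700b8001141800c80f0007406e0004304035803b019901b00ca005c00380000003808000c04a0001a81002c01b000000080ab00081c7800201b800080e0183))) 
(.lf (nat_lit 202055698) (dlOf (nat_lit 8) (nat_lit 0x600000004e0202bc03b014c01b00a8805c0008c0c061c07602f0036017700b8001141800c80f0007406e0004304035803b019901b00ca005c00380000003808000c04a0001a81002c01b000000080ab00081c7800201b800080e0183)))) 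
(.lf (nat_lit 21700626) (dlOf (nat_lit 9) (nat_lit 0x2991c00dfc02000ec8e006fd81002300000363808002f680000fb3c000dd43006a9030004ed00002f678001fa8600d51060005da00003ecf0002750c01a9e0c0037b2e001ac89006a00200366678004322401a7e08017c00400140008a60a02)))) 
(.nd (nat_lit 7) (.lf (nat_lit 16457746) (dlOf (nat_lit 1) (nat_lit 0x400088a0201))) 
(.lf (nat_lit 53159314) (dlOf (nat_lit 1) (nat_lit 0xe0029573601)))))) (.nd (nat_lit 7) 
(.nd (nat_lit 19) (.nd (nat_lit 8) 
(.lf (nat_lit 604184594) (dlOf (nat_lit 3) (nat_lit 0x200580023a04016802c009801501c4008803400000000010001c00200300008080482))) 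
(.lf (nat_lit 738405138) (dlOf (nat_lit 1) (nat_lit 0x20028095b81)))) (.nd (nat_lit 21) 
(.lf (nat_lit 537600018) (dlOf (nat_lit 4) (nat_lit 0xb70390089017404900a80246045010c0000076a82807e81c803e80ba01e005400f0022806c800003b501400040a801d4802003c00180d0881))) 
(.lf (nat_lit 2754289682) (dlOf (nat_lit 2) (nat_lit 0x140b100ed50180d0880))))) (.nd (nat_lit 8) 
(.nd (nat_lit 9) (.lf (nat_lit 2684564626) (dlOf (nat_lit 1) (nat_lit 0xa00180a9501))) 
(.lf (nat_lit 537077394) (dlOf (nat_lit 1) (nat_lit 0x20028003a81)))) (.nd (nat_lit 9) 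
(.lf (nat_lit 6107113874) (dlOf (nat_lit 1) (nat_lit 0x40018094e81))) 
(.lf (nat_lit 3959629714) (dlOf (nat_lit 1) (nat_lit 0x20008114201))))))) (.nd (nat_lit 19) 
(.nd (nat_lit 8) (.nd (nat_lit 22) (.nd (nat_lit 7) (.nd (nat_lit 26) 
(.lf (nat_lit 6442655826) (dlOf (nat_lit 1) (nat_lit 0xec0008121001))) 
(.lf (nat_lit 1141055570) (dlOf (nat_lit 1) (nat_lit 0x10008002c002000a0008090003)))) 
(.lf (nat_lit 5905787090) (dlOf (nat_lit 1) (nat_lit 0x3e0018144a01)))) (.nd (nat_lit 10) 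
(.lf (nat_lit 63119442) (dlOf (nat_lit 1) (nat_lit 0x400099e0781))) 
(.lf (nat_lit 39003218) (dlOf (nat_lit 1) (nat_lit 0xa0019192881))))) (.nd (nat_lit 9) 
(.nd (nat_lit 11) 
(.lf (nat_lit 11739474) (dlOf (nat_lit 2) (nat_lit 0xd31f800158080020008001c002000a00086c0683))) 
(.lf (nat_lit 8599890) (dlOf (nat_lit 1) (nat_lit 0x6001851ab81)))) 
(.lf (nat_lit 2818781010) (dlOf (nat_lit 1) (nat_lit 0xc00400040008127782))))) (.nd (nat_lit 21) 
(.nd (nat_lit 29) (.nd (nat_lit 23) 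
(.lf (nat_lit 17506386) (dlOf (nat_lit 1) (nat_lit 0x26800800d0002000e00088e0283))) 
(.lf (nat_lit 9117778) (dlOf (nat_lit 2) (nat_lit 0x30b78000d0080008008001000200020008521703)))) 
(.nd (nat_lit 7) 
(.lf (nat_lit 537600082) (dlOf (nat_lit 3) (nat_lit 0xeb017409880a804b20450001483000902a0000a00800e0008006c002003600080d0d83))) 
(.lf (nat_lit 1611342290) (dlOf (nat_lit 1) (nat_lit 0x800400240008137b02))))) (.nd (nat_lit 7) 
(.nd (nat_lit 9) (.lf (nat_lit 2754289746) (dlOf (nat_lit 2) (nat_lit 0x4bc0cb000148180d0d80))) 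
(.lf (nat_lit 32189010) (dlOf (nat_lit 1) (nat_lit 0x400200020008ef5282)))) 
(.lf (nat_lit 8070610) (dlOf (nat_lit 1) (nat_lit 0x400200020008513602))))))) (.nd (nat_lit 27) 
(.nd (nat_lit 8) (.nd (nat_lit 19) (.nd (nat_lit 7) (.nd (nat_lit 31) 
(.lf (nat_lit 5100478482) (dlOf (nat_lit 1) (nat_lit 0x280080014002000200080a0183))) 
(.lf (nat_lit 2952994834) (dlOf (nat_lit 2) (nat_lit 0xbd00a800000040010002000a0008080482)))) 
(.lf (nat_lit 3489873042) (dlOf (nat_lit 1) (nat_lit 0x30001800c201)))) (.nd (nat_lit 6) 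
(.nd (nat_lit 21) 
(.lf (nat_lit 1410015250) (dlOf (nat_lit 4) (nat_lit 0xb70390089017404900a80246042010c0000069142807e81c803e80ba01e005400f0021006c8000034861400040a8019e102003c00180d0881))) 
(.lf (nat_lit 3492487186) (dlOf (nat_lit 2) (nat_lit 0x140bf00d228180d0880)))) (.nd (nat_lit 21) 
(.lf (nat_lit 1410015314) (dlOf (nat_lit 3) (nat_lit 0xeb017409880a804b20420001483000902a0000a00800e0008006c002003600080d0d83))) 
(.lf (nat_lit 3492487250) (dlOf (nat_lit 2) (nat_lit 0x4bc0d9000148180d0d80)))))) (.nd (nat_lit 6) 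
(.nd (nat_lit 19) (.nd (nat_lit 20) 
(.lf (nat_lit 4630719250) (dlOf (nat_lit 1) (nat_lit 0x400400020008095b82))) 
(.lf (nat_lit 4094896914) (dlOf (nat_lit 1) (nat_lit 0x20028055b81)))) 
(.lf (nat_lit 4094372626) (dlOf (nat_lit 1) (nat_lit 0x400400020008055b82)))) (.nd (nat_lit 7) 
(.nd (nat_lit 10) (.lf (nat_lit 1879777618) (dlOf (nat_lit 1) (nat_lit 0x300018370881))) 
(.lf (nat_lit 3489869138) (dlOf (nat_lit 1) (nat_lit 0x400400080008006a02)))) 
(.lf (nat_lit 3556981202) (dlOf (nat_lit 1) (nat_lit 0x2c0020004000812b182)))))) (.nd (nat_lit 29) 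
(.nd (nat_lit 26) (.nd (nat_lit 7) 
(.lf (nat_lit 5771570194) (dlOf (nat_lit 2) (nat_lit 0x2c0eb0001a818005f80))) (.nd (nat_lit 9) 
(.lf (nat_lit 4697826706) (dlOf (nat_lit 1) (nat_lit 0x3a800401380008093602))) 
(.lf (nat_lit 5771570066) (dlOf (nat_lit 1) (nat_lit 0x20008005c81))))) (.nd (nat_lit 6) 
(.nd (nat_lit 19) (.lf (nat_lit 5838675986) (dlOf (nat_lit 1) (nat_lit 0x44004000c0008120882))) 
(.lf (nat_lit 471539730) (dlOf (nat_lit 1) (nat_lit 0x400200020008320382)))) 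
(.lf (nat_lit 5838676050) (dlOf (nat_lit 1) (nat_lit 0xec0008121001))))) (.nd (nat_lit 10) 
(.nd (nat_lit 7) (.nd (nat_lit 30) 
(.lf (nat_lit 5234696210) (dlOf (nat_lit 3) (nat_lit 0x40600002021006a00200040170034fc0800280080044002000400080a0a03))) 
(.lf (nat_lit 6308438034) (dlOf (nat_lit 3) (nat_lit 0x380b8000a2040004032000240200260018090181)))) 
(.lf (nat_lit 3154325906) (dlOf (nat_lit 1) (nat_lit 0xc0008158381)))) (.nd (nat_lit 7) 
(.nd (nat_lit 9) (.lf (nat_lit 2080580626) (dlOf (nat_lit 1) (nat_lit 0x400400020008092882))) 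
(.lf (nat_lit 4160960018) (dlOf (nat_lit 1) (nat_lit 0x8004000a00080a9c02)))) 
(.lf (nat_lit 2013471890) (dlOf (nat_lit 1) (nat_lit 0x40008092b81)))))))) (.nd (nat_lit 6) 
(.nd (nat_lit 20) (.nd (nat_lit 28) (.nd (nat_lit 19) (.nd (nat_lit 7) (.nd (nat_lit 8) 
(.nd (nat_lit 10) (.lf (nat_lit 1611079698) (dlOf (nat_lit 1) (nat_lit 0x200180d0001))) 
(.lf (nat_lit 2751931410) (dlOf (nat_lit 1) (nat_lit 0x20018002881)))) 
(.lf (nat_lit 8860946) (dlOf (nat_lit 2) (nat_lit 0xe4ac2004055f002c1e58001e4180020008000800200060008519683)))) 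
(.nd (nat_lit 26) (.lf (nat_lit 3221692562) (dlOf (nat_lit 2) (nat_lit 0x2400e0000f018170180))) 
(.lf (nat_lit 3959890066) (dlOf (nat_lit 2) (nat_lit 0x2400e0000f018170180))))) (.nd (nat_lit 8) 
(.nd (nat_lit 22) 
(.lf (nat_lit 17768466) (dlOf (nat_lit 1) (nat_lit 0x580080004002000200088f0783))) 
(.nd (nat_lit 23) (.lf (nat_lit 21962770) (dlOf (nat_lit 1) (nat_lit 0x20028a80881))) 
(.lf (nat_lit 13574162) (dlOf (nat_lit 3) (nat_lit 0xa01a201da60200203ee00ecf018730880))))) 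
(.lf (nat_lit 24060178) (dlOf (nat_lit 1) (nat_lit 0x400400020008b80482))))) (.nd (nat_lit 26) 
(.nd (nat_lit 8) (.nd (nat_lit 27) 
(.lf (nat_lit 5637611538) (dlOf (nat_lit 2) (nat_lit 0x2006800f5604000800400100018120a02))) 
(.lf (nat_lit 2550603794) (dlOf (nat_lit 1) (nat_lit 0x80080004002000600081b0003)))) 
(.nd (nat_lit 11) (.lf (nat_lit 1344742674) (dlOf (nat_lit 1) (nat_lit 0x1000400100008983002))) 
(.lf (nat_lit 3490131218) (dlOf (nat_lit 1) (nat_lit 0x18c00400740008006702))))) (.nd (nat_lit 19) 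
(.nd (nat_lit 27) 
(.lf (nat_lit 6241591314) (dlOf (nat_lit 2) (nat_lit 0x2006801a7e04000800400100018120a02))) 
(.lf (nat_lit 470229010) (dlOf (nat_lit 1) (nat_lit 0x200180b0401)))) (.nd (nat_lit 7) 
(.lf (nat_lit 470753298) (dlOf (nat_lit 1) (nat_lit 0x800400060008170082))) 
(.lf (nat_lit 6376336018) (dlOf (nat_lit 2) (nat_lit 0x4e1220000f818095500))))))) (.nd (nat_lit 21) 
(.nd (nat_lit 22) (.nd (nat_lit 23) 
(.lf (nat_lit 18292754) (dlOf (nat_lit 1) (nat_lit 0x20018920381))) (.nd (nat_lit 24) 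
(.lf (nat_lit 9904146) (dlOf (nat_lit 1) (nat_lit 0xe0008590181))) 
(.lf (nat_lit 26681362) (dlOf (nat_lit 1) (nat_lit 0x260028c60481))))) (.nd (nat_lit 23) 
(.lf (nat_lit 5709842) (dlOf (nat_lit 2) (nat_lit 0x280000002f8183c0200))) 
(.lf (nat_lit 47652882) (dlOf (nat_lit 1) (nat_lit 0x1100019400001))))) (.nd (nat_lit 9) 
(.nd (nat_lit 7) 
(.lf (nat_lit 20392978) (dlOf (nat_lit 2) (nat_lit 0x22349c00afa2e000168289d5f80))) 
(.lf (nat_lit 2755076498) (dlOf (nat_lit 1) (nat_lit 0x40008106181)))) (.nd (nat_lit 19) 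
(.lf (nat_lit 20392850) (dlOf (nat_lit 1) (nat_lit 0x200289d5c81))) 
(.lf (nat_lit 54471570) (dlOf (nat_lit 1) (nat_lit 0xa0019655c81))))))) (.nd (nat_lit 19) 
(.nd (nat_lit 27) (.nd (nat_lit 24) (.nd (nat_lit 20) (.nd (nat_lit 25) 
(.lf (nat_lit 1611079762) (dlOf (nat_lit 2) (nat_lit 0x330150000d8080140008004c002000a00080d0503))) 
(.lf (nat_lit 34021458) (dlOf (nat_lit 3) (nat_lit 0x22fe8000600800517f40002804000c004000a0008f90782)))) 
(.lf (nat_lit 35070034) (dlOf (nat_lit 2) (nat_lit 0x12e4c0002604000400200020008fd0782)))) 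
(.nd (nat_lit 7) (.nd (nat_lit 22) 
(.lf (nat_lit 17244242) (dlOf (nat_lit 1) (nat_lit 0x400088e0281))) 
(.lf (nat_lit 21438546) (dlOf (nat_lit 1) (nat_lit 0x20028a40501)))) 
(.lf (nat_lit 52896978) (dlOf (nat_lit 1) (nat_lit 0xa0029572d81))))) (.nd (nat_lit 28) 
(.nd (nat_lit 31) 
(.lf (nat_lit 738664530) (dlOf (nat_lit 2) (nat_lit 0x330150000e0080140008004c002000a00080d0503))) 
(.lf (nat_lit 2886148178) (dlOf (nat_lit 5) (nat_lit 0x220000001400800180000009e0400040000003e0200480000001e818171000)))) 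
(.nd (nat_lit 7) (.nd (nat_lit 9) 
(.lf (nat_lit 3624345682) (dlOf (nat_lit 5) (nat_lit 0x2200000015c080018000000ac0400040000004502004800000022018171000))) 
(.lf (nat_lit 472328786) (dlOf (nat_lit 2) (nat_lit 0x20750000e818985280)))) 
(.lf (nat_lit 6375810258) (dlOf (nat_lit 1) (nat_lit 0x20028002d81)))))) (.nd (nat_lit 21) 
(.nd (nat_lit 22) (.nd (nat_lit 8) (.nd (nat_lit 26) 
(.lf (nat_lit 1880039506) (dlOf (nat_lit 1) (nat_lit 0x40018540781))) 
(.lf (nat_lit 470753362) (dlOf (nat_lit 1) (nat_lit 0x18008000400200020008170783)))) 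
(.lf (nat_lit 2752454994) (dlOf (nat_lit 1) (nat_lit 0x60018014d81)))) (.nd (nat_lit 24) 
(.lf (nat_lit 13574226) (dlOf (nat_lit 3) (nat_lit 0x200000001a01006b0000000cc080040008002800200080008730d83))) 
(.lf (nat_lit 30351442) (dlOf (nat_lit 1) (nat_lit 0x26800800d0002000e0008e30283))))) 
(.nd (nat_lit 8) (.nd (nat_lit 7) 
(.lf (nat_lit 20914258) (dlOf (nat_lit 2) (nat_lit 0x29971001469be0002b0289f0680))) 
(.lf (nat_lit 19869906) (dlOf (nat_lit 1) (nat_lit 0x400201e200089d8082)))) (.nd (nat_lit 10) 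
(.lf (nat_lit 472850898) (dlOf (nat_lit 2) (nat_lit 0xb0b28000000800f8008001c00200960008b17b03))) 
(.lf (nat_lit 8336850) (dlOf (nat_lit 2) (nat_lit 0xb48000021018519b00))))))))) (.nd (nat_lit 19) 
(.nd (nat_lit 27) (.nd (nat_lit 18) (.nd (nat_lit 28) (.nd (nat_lit 7) (.nd (nat_lit 6) 
(.nd (nat_lit 8) (.lf (nat_lit 15966226) (dlOf (nat_lit 2) (nat_lit 0x14af0000330200040008850401))) 
(.lf (nat_lit 4899187474) (dlOf (nat_lit 1) (nat_lit 0x4004000200180d5b82)))) 
(.lf (nat_lit 9675090) (dlOf (nat_lit 3) (nat_lit 0x63cf0000b8080079fc00003604009c00200a40008574d82)))) 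
(.nd (nat_lit 12) 
(.lf (nat_lit 62103954) (dlOf (nat_lit 1) (nat_lit 0xe800801a400200ea0009956483))) 
(.lf (nat_lit 20165010) (dlOf (nat_lit 1) (nat_lit 0x100080004002000200089d8383))))) 
(.nd (nat_lit 8) (.nd (nat_lit 10) (.nd (nat_lit 29) 
(.lf (nat_lit 1342414866) (dlOf (nat_lit 7) (nat_lit 0x1c247000db010080123800108f00031a0801b448e0018c0200da247000c50100081238006240801c091c00000040064004002e0018020482))) 
(.lf (nat_lit 2953027602) (dlOf (nat_lit 1) (nat_lit 0x200280b0201)))) 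
(.lf (nat_lit 5637383186) (dlOf (nat_lit 1) (nat_lit 0x200080d2881)))) (.nd (nat_lit 6) 
(.lf (nat_lit 5100514066) (dlOf (nat_lit 1) (nat_lit 0x4004000200080d5b82))) 
(.lf (nat_lit 805544274) (dlOf (nat_lit 4) (nat_lit 0x440140006702002200a000330100170050001000802a0008008c00200da0008124d03)))))) 
(.nd (nat_lit 21) (.nd (nat_lit 8) (.nd (nat_lit 10) (.nd (nat_lit 20) 
(.lf (nat_lit 13082642) (dlOf (nat_lit 6) (nat_lit 0x9a930001d480000a808000ea3e000b49900019820001a8d8001d2280003208001aa42000b51b0000b020005a8d800000080088008001c002002400086f0183))) 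
(.lf (nat_lit 2753011730) (dlOf (nat_lit 1) (nat_lit 0xa580080ab40020a500008070503)))) 
(.lf (nat_lit 46640146) (dlOf (nat_lit 2) (nat_lit 0x2af300016819385f80)))) (.nd (nat_lit 30) 
(.lf (nat_lit 805806354) (dlOf (nat_lit 2) (nat_lit 0x100b400124040088004007800081a0482))) 
(.lf (nat_lit 4027031826) (dlOf (nat_lit 1) (nat_lit 0x8c002000200081b0482))))) (.nd (nat_lit 20) 
(.nd (nat_lit 6) 
(.lf (nat_lit 10985490) (dlOf (nat_lit 2) (nat_lit 0x3df880005404001000200040008650402))) 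
(.lf (nat_lit 48734290) (dlOf (nat_lit 5) (nat_lit 0x615e0002daa480009c1000bd78000b6a920000904000d5490000401000caf00006d5240000008003000400180009420782)))) 
(.nd (nat_lit 9) (.lf (nat_lit 7839762) (dlOf (nat_lit 1) (nat_lit 0x200084f0401))) 
(.lf (nat_lit 58171922) (dlOf (nat_lit 1) (nat_lit 0x60008003c002003c00097c7c03))))))) 
(.nd (nat_lit 30) (.nd (nat_lit 29) (.nd (nat_lit 28) (.nd (nat_lit 26) 
(.lf (nat_lit 134455314) (dlOf (nat_lit 1) (nat_lit 0x1000400020018020482))) 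
(.lf (nat_lit 201564178) (dlOf (nat_lit 1) (nat_lit 0x1000400020018020482)))) (.nd (nat_lit 20) 
(.nd (nat_lit 31) 
(.lf (nat_lit 469999634) (dlOf (nat_lit 7) (nat_lit 0x1c2470008881006d1238003f008040091c0008478000fa0400da2470007c8100081238003e00801c091c00000040064004002e0018020482))) 
(.lf (nat_lit 2617483282) (dlOf (nat_lit 1) (nat_lit 0x28008002c002001c00080c0483)))) 
(.lf (nat_lit 471048210) (dlOf (nat_lit 3) (nat_lit 0x8000000480400140000002202000c0008250401))))) 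
(.nd (nat_lit 21) (.nd (nat_lit 7) 
(.lf (nat_lit 939761746) (dlOf (nat_lit 1) (nat_lit 0x400200020008171002))) 
(.lf (nat_lit 3154358226) (dlOf (nat_lit 1) (nat_lit 0x40018157a81)))) (.nd (nat_lit 6) 
(.lf (nat_lit 1008967698) (dlOf (nat_lit 1) (nat_lit 0x1c00400120009000002))) 
(.lf (nat_lit 1009229906) (dlOf (nat_lit 6) (nat_lit 0x730718000838801fc0ec000270600c80e30034071003b81d8000120c00101c6003e0e200004020065071803a81d80000a0801d41c6010e07600020398000001801b00080014002001800090a0783)))))) 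
(.nd (nat_lit 7) (.nd (nat_lit 6) (.nd (nat_lit 9) 
(.lf (nat_lit 5771865106) (dlOf (nat_lit 1) (nat_lit 0x1c0018005f81))) 
(.lf (nat_lit 1476897298) (dlOf (nat_lit 1) (nat_lit 0x600082d5081)))) (.nd (nat_lit 26) 
(.lf (nat_lit 6308470866) (dlOf (nat_lit 1) (nat_lit 0x4004000200080d0002))) (.nd (nat_lit 29) 
(.lf (nat_lit 5570273362) (dlOf (nat_lit 1) (nat_lit 0x80080004002000200080d0003))) 
(.lf (nat_lit 1812176978) (dlOf (nat_lit 1) (nat_lit 0x400200020008171002)))))) (.nd (nat_lit 11) 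
(.nd (nat_lit 18) (.lf (nat_lit 2080613586) (dlOf (nat_lit 1) (nat_lit 0x220028092d81))) 
(.lf (nat_lit 5772911826) (dlOf (nat_lit 1) (nat_lit 0x1e0028092d81)))) (.nd (nat_lit 8) 
(.lf (nat_lit 1476897490) (dlOf (nat_lit 3) (nat_lit 0x480a4003003e00028040008029000700f8000641001b8008006c002001000082d5883))) 
(.lf (nat_lit 3624119762) (dlOf (nat_lit 1) (nat_lit 0x38008001000200060008146d03)))))))) 
(.nd (nat_lit 24) (.nd (nat_lit 6) (.nd (nat_lit 20) (.nd (nat_lit 26) (.nd (nat_lit 10) 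
(.nd (nat_lit 31) 
(.lf (nat_lit 1345036306) (dlOf (nat_lit 1) (nat_lit 0x680080024002003600089d0383))) 
(.lf (nat_lit 3492519954) (dlOf (nat_lit 3) (nat_lit 0x5b0f50024876401103a201a4506008c1ea003b0ec801e8744034860c0014004002600180d0882)))) 
(.lf (nat_lit 36414482) (dlOf (nat_lit 1) (nat_lit 0x40019072881)))) (.nd (nat_lit 8) 
(.lf (nat_lit 2754322450) (dlOf (nat_lit 3) (nat_lit 0x5b0fe002487b801103cc01daa06008c1fc003b0f7001e879803b500c0014004002600180d0882))) 
(.lf (nat_lit 67877650) (dlOf (nat_lit 1) (nat_lit 0x180020002000833ba82))))) (.nd (nat_lit 26) 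
(.nd (nat_lit 10) (.nd (nat_lit 31) 
(.lf (nat_lit 1346084882) (dlOf (nat_lit 1) (nat_lit 0x1c0008004400201b60008e30403))) 
(.lf (nat_lit 3493568530) (dlOf (nat_lit 1) (nat_lit 0xa0018170481)))) 
(.lf (nat_lit 50308114) (dlOf (nat_lit 1) (nat_lit 0x4004000200094c2882)))) (.nd (nat_lit 8) 
(.lf (nat_lit 2755371026) (dlOf (nat_lit 1) (nat_lit 0xa0018170481))) 
(.lf (nat_lit 1008446226) (dlOf (nat_lit 1) (nat_lit 0x20028c95b81)))))) (.nd (nat_lit 20) 
(.nd (nat_lit 12) (.nd (nat_lit 18) (.nd (nat_lit 26) 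
(.lf (nat_lit 3492520018) (dlOf (nat_lit 2) (nat_lit 0x37e1ea000148180d0d80))) 
(.lf (nat_lit 2754322514) (dlOf (nat_lit 2) (nat_lit 0x37e1fc000148180d0d80)))) 
(.lf (nat_lit 13606994) (dlOf (nat_lit 9) (nat_lit 0x18e8f8007f1b802c78bc0033c500030de8009e5c2400a4000000340e0065d1f005ce37000a714005cee12011000000019850012e2f0000c808016f188005b7aa0002104021bc6200f6dea80007c100687188028f7aa0001e0400c9c620064dea8000741001b6f540003804006c00401e80018730d82)))) 
(.nd (nat_lit 8) 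
(.lf (nat_lit 67876434) (dlOf (nat_lit 2) (nat_lit 0xe06d0001034801826080058004006a0018339c02))) 
(.lf (nat_lit 3492788562) (dlOf (nat_lit 1) (nat_lit 0x3400180fab81))))) (.nd (nat_lit 18) 
(.nd (nat_lit 21) (.nd (nat_lit 26) 
(.lf (nat_lit 5773172818) (dlOf (nat_lit 3) (nat_lit 0x7f8000000ac04031c0000001302000200280b0681))) 
(.lf (nat_lit 6377152594) (dlOf (nat_lit 3) (nat_lit 0x7f8000000ac04031c0000001302000200280b0681)))) 
(.lf (nat_lit 45850706) (dlOf (nat_lit 1) (nat_lit 0x1180009360781)))) 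
(.lf (nat_lit 5773434962) (dlOf (nat_lit 1) (nat_lit 0x200180d1701)))))) (.nd (nat_lit 21) 
(.nd (nat_lit 6) (.nd (nat_lit 22) (.nd (nat_lit 9) 
(.lf (nat_lit 26976274) (dlOf (nat_lit 1) (nat_lit 0x140028c90201))) 
(.lf (nat_lit 51094034) (dlOf (nat_lit 2) (nat_lit 0x2000000340194f7c00)))) (.nd (nat_lit 23) 
(.lf (nat_lit 22781970) (dlOf (nat_lit 1) (nat_lit 0x69800803fc002085e0008b20303))) 
(.lf (nat_lit 31170578) (dlOf (nat_lit 1) (nat_lit 0x20018e70401))))) (.nd (nat_lit 25) 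
(.nd (nat_lit 18) (.lf (nat_lit 17539154) (dlOf (nat_lit 1) (nat_lit 0x4c00288e0281))) 
(.nd (nat_lit 23) (.lf (nat_lit 21995602) (dlOf (nat_lit 1) (nat_lit 0xc0028a81001))) 
(.lf (nat_lit 30384210) (dlOf (nat_lit 1) (nat_lit 0x4c0028e30281))))) (.nd (nat_lit 7) 
(.nd (nat_lit 18) 
(.lf (nat_lit 59482194) (dlOf (nat_lit 9) (nat_lit 0x399f00024cce000266500112ca80041398002c9a80002c0c0008667000a2ca8000ac1000519f80084cf8002a6670014332800b965400789cc001e4d40001507000a33380061654000520800a8cfc006a66700332ca8000141800319f0001ccce000666500062ca8001139800008140080cfc005267c0027333801299940094b2a003e4e6001626a000008380081654000000400a4004002e0019800782))) 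
(.lf (nat_lit 52404306) (dlOf (nat_lit 1) (nat_lit 0x400200020009530782)))) 
(.lf (nat_lit 51358162) (dlOf (nat_lit 1) (nat_lit 0x400200020009514e82)))))) (.nd (nat_lit 12) 
(.nd (nat_lit 7) (.nd (nat_lit 6) (.nd (nat_lit 9) 
(.lf (nat_lit 19636498) (dlOf (nat_lit 1) (nat_lit 0x200189d0a81))) 
(.lf (nat_lit 54504210) (dlOf (nat_lit 1) (nat_lit 0x20029655b81)))) 
(.lf (nat_lit 32219218) (dlOf (nat_lit 1) (nat_lit 0x20028ef0001)))) (.nd (nat_lit 10) 
(.lf (nat_lit 24093074) (dlOf (nat_lit 1) (nat_lit 0x5000401180008b80782))) 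
(.lf (nat_lit 53192082) (dlOf (nat_lit 1) (nat_lit 0x20019573601))))) (.nd (nat_lit 6) 
(.nd (nat_lit 9) (.lf (nat_lit 19640594) (dlOf (nat_lit 1) (nat_lit 0x2c00289d8081))) 
(.nd (nat_lit 10) (.lf (nat_lit 20689682) (dlOf (nat_lit 1) (nat_lit 0x2c002003800089d8f82))) 
(.lf (nat_lit 20690706) (dlOf (nat_lit 1) (nat_lit 0x200189da001))))) (.nd (nat_lit 7) 
(.lf (nat_lit 19641938) (dlOf (nat_lit 1) (nat_lit 0x200289d9c01))) 
(.lf (nat_lit 20690386) (dlOf (nat_lit 1) (nat_lit 0x1200289d9b01)))))))))) (.nd (nat_lit 15) 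
(.nd (nat_lit 6) (.nd (nat_lit 26) (.nd (nat_lit 18) (.nd (nat_lit 20) (.nd (nat_lit 9) 
(.nd (nat_lit 31) (.nd (nat_lit 10) (.nd (nat_lit 19) 
(.lf (nat_lit 134422578) (dlOf (nat_lit 1) (nat_lit 0x20028020601))) 
(.lf (nat_lit 36380722) (dlOf (nat_lit 1) (nat_lit 0x20019070001)))) 
(.lf (nat_lit 4697826354) (dlOf (nat_lit 1) (nat_lit 0x3e0028092881)))) (.nd (nat_lit 8) 
(.lf (nat_lit 6576873522) (dlOf (nat_lit 1) (nat_lit 0x360008170d01))) 
(.lf (nat_lit 2818781490) (dlOf (nat_lit 1) (nat_lit 0x980028128081))))) (.nd (nat_lit 7) 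
(.nd (nat_lit 8) (.lf (nat_lit 1745037874) (dlOf (nat_lit 1) (nat_lit 0x400200020008095182))) 
(.lf (nat_lit 8597298) (dlOf (nat_lit 1) (nat_lit 0x60028517481)))) 
(.lf (nat_lit 537077426) (dlOf (nat_lit 1) (nat_lit 0x20028003a81))))) (.nd (nat_lit 23) 
(.nd (nat_lit 9) (.nd (nat_lit 22) 
(.lf (nat_lit 18554930) (dlOf (nat_lit 1) (nat_lit 0x80018950801))) 
(.lf (nat_lit 22749234) (dlOf (nat_lit 8) (nat_lit 0xeade0000b81000756f00005808004ab780001c04001d5bc000c96b000060200055820001ab7800095b40000606000eade0000201000856f000000083cc800801fc002015a0008b20e03)))) 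
(.lf (nat_lit 3491439154) (dlOf (nat_lit 2) (nat_lit 0x1d80000000a0400c0002000c0008090f02)))) 
(.nd (nat_lit 8) (.nd (nat_lit 9) 
(.lf (nat_lit 13836338) (dlOf (nat_lit 1) (nat_lit 0x20028750001))) 
(.lf (nat_lit 11739698) (dlOf (nat_lit 1) (nat_lit 0x1800086c0f01)))) 
(.lf (nat_lit 12263730) (dlOf (nat_lit 1) (nat_lit 0xc00286c0501)))))) (.nd (nat_lit 19) 
(.nd (nat_lit 29) (.nd (nat_lit 7) (.nd (nat_lit 22) 
(.lf (nat_lit 6442917938) (dlOf (nat_lit 2) (nat_lit 0x200d000238080018008000800200040008220b83))) 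
(.lf (nat_lit 21438514) (dlOf (nat_lit 3) (nat_lit 0x29bd400032020028d4900017818a40380)))) 
(.lf (nat_lit 58139058) (dlOf (nat_lit 1) (nat_lit 0x800297c6e81)))) (.nd (nat_lit 28) 
(.nd (nat_lit 27) (.lf (nat_lit 1611079730) (dlOf (nat_lit 1) (nat_lit 0x4004000c00080d0382))) 
(.lf (nat_lit 3892781106) (dlOf (nat_lit 2) (nat_lit 0x1816800280a00024023000d01100038050000a8140034004002a0018260802)))) 
(.nd (nat_lit 8) 
(.lf (nat_lit 1879515186) (dlOf (nat_lit 5) (nat_lit 0x4072000de8101850000005440800685540026e04006c2a6000f40200040018190481))) 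
(.lf (nat_lit 805773618) (dlOf (nat_lit 1) (nat_lit 0xc004000200181a0502)))))) (.nd (nat_lit 20) 
(.nd (nat_lit 21) 
(.lf (nat_lit 21962802) (dlOf (nat_lit 2) (nat_lit 0x31916001ec380005381002480080024002000e0008a80d03))) 
(.lf (nat_lit 11477042) (dlOf (nat_lit 2) (nat_lit 0x8c6600046180000a0286a0980)))) (.nd (nat_lit 7) 
(.lf (nat_lit 1346316850) (dlOf (nat_lit 4) (nat_lit 0x7059c00302cc001815700020ab001083100040036001c01a000460700010b3800505980008036000401a0004584000209d8001e00800a80080060002000a0008f05183))) 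
(.lf (nat_lit 58664114) (dlOf (nat_lit 1) (nat_lit 0x100080008002000600097e2c03))))))) 
(.nd (nat_lit 31) (.nd (nat_lit 18) (.nd (nat_lit 27) (.nd (nat_lit 19) (.nd (nat_lit 28) 
(.lf (nat_lit 5972893746) (dlOf (nat_lit 1) (nat_lit 0x360008170d01))) 
(.lf (nat_lit 5167587378) (dlOf (nat_lit 1) (nat_lit 0x4004000200180d0002)))) 
(.lf (nat_lit 4362805298) (dlOf (nat_lit 3) (nat_lit 0x140640001702011e05000000018100680)))) 
(.nd (nat_lit 32) (.lf (nat_lit 201531442) (dlOf (nat_lit 1) (nat_lit 0x20028020601))) 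
(.lf (nat_lit 4496498738) (dlOf (nat_lit 6) (nat_lit 0xca01c003400d80380068010c03000b800b0001005000b00d00005808005806800024040108038001a01a0000682000500d00002c0807b80080154002009a0008090383))))) 
(.nd (nat_lit 27) (.nd (nat_lit 8) (.nd (nat_lit 32) 
(.lf (nat_lit 67575858) (dlOf (nat_lit 1) (nat_lit 0x800400080008220802))) 
(.lf (nat_lit 4362543154) (dlOf (nat_lit 1) (nat_lit 0x24004000c0018090002)))) 
(.lf (nat_lit 1678188850) (dlOf (nat_lit 1) (nat_lit 0xc004000200181a0502)))) (.nd (nat_lit 19) 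
(.nd (nat_lit 28) (.lf (nat_lit 738664498) (dlOf (nat_lit 1) (nat_lit 0x4004000c00080d0382))) 
(.lf (nat_lit 5838938162) (dlOf (nat_lit 2) (nat_lit 0x200d000238080018008000800200040008220b83)))) 
(.lf (nat_lit 470753330) (dlOf (nat_lit 3) (nat_lit 0xa155000e38100040aa8006f40800200080010002000e0008170483)))))) 
(.nd (nat_lit 7) (.nd (nat_lit 9) (.nd (nat_lit 18) 
(.lf (nat_lit 4228587570) (dlOf (nat_lit 3) (nat_lit 0x140620001702011e04900000018100680))) 
(.nd (nat_lit 27) (.lf (nat_lit 3557236786) (dlOf (nat_lit 2) (nat_lit 0x2a4000000a8818170480))) 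
(.lf (nat_lit 4228325426) (dlOf (nat_lit 1) (nat_lit 0x1c004000e0018090002))))) (.nd (nat_lit 10) 
(.lf (nat_lit 2753241650) (dlOf (nat_lit 2) (nat_lit 0x1d80000000a0400c0002000c0008090f02))) 
(.lf (nat_lit 6509768242) (dlOf (nat_lit 1) (nat_lit 0x400200020008147182))))) (.nd (nat_lit 8) 
(.nd (nat_lit 9) (.nd (nat_lit 27) 
(.lf (nat_lit 2483232946) (dlOf (nat_lit 1) (nat_lit 0x140018090301))) 
(.lf (nat_lit 2349015218) (dlOf (nat_lit 1) (nat_lit 0x140018090301)))) 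
(.lf (nat_lit 3020109490) (dlOf (nat_lit 1) (nat_lit 0x58008002c0020002000812a003)))) 
(.nd (nat_lit 9) 
(.lf (nat_lit 3959890354) (dlOf (nat_lit 7) (nat_lit 0x82000006768100250000033b00801e8000019c60400e000000ce202002e0000067081004900700329c08002000801e400200080008170783))) 
(.nd (nat_lit 10) (.lf (nat_lit 2754558898) (dlOf (nat_lit 1) (nat_lit 0x4004000400180fbd82))) 
(.lf (nat_lit 3556978610) (dlOf (nat_lit 1) (nat_lit 0x7c00200080008127a02))))))))) 
(.nd (nat_lit 7) (.nd (nat_lit 30) (.nd (nat_lit 8) (.nd (nat_lit 9) (.nd (nat_lit 19) 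
(.lf (nat_lit 2755862642) (dlOf (nat_lit 4) (nat_lit 0x10844400460040360222002e10900bb07d800603bc003d010000822200040fb000f30281b0080))) 
(.lf (nat_lit 48963698) (dlOf (nat_lit 1) (nat_lit 0x8008000400200020009452503)))) 
(.nd (nat_lit 10) (.lf (nat_lit 20132466) (dlOf (nat_lit 1) (nat_lit 0x4002000200089d8982))) 
(.lf (nat_lit 61810290) (dlOf (nat_lit 3) (nat_lit 0x352880015808003a944000aa0400a8002002c0009923982))))) 
(.nd (nat_lit 11) (.nd (nat_lit 10) 
(.lf (nat_lit 54993266) (dlOf (nat_lit 1) (nat_lit 0x280009685801))) 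
(.lf (nat_lit 2818782578) (dlOf (nat_lit 1) (nat_lit 0x1c00400260008129902)))) (.nd (nat_lit 9) 
(.lf (nat_lit 19873138) (dlOf (nat_lit 1) (nat_lit 0x400189dc901))) 
(.lf (nat_lit 2818781042) (dlOf (nat_lit 1) (nat_lit 0xc00400020008127782)))))) (.nd (nat_lit 28) 
(.nd (nat_lit 11) (.nd (nat_lit 26) 
(.lf (nat_lit 3221692786) (dlOf (nat_lit 3) (nat_lit 0x1a015800fe004005c0000074502000c0018170781))) 
(.lf (nat_lit 3959890290) (dlOf (nat_lit 1) (nat_lit 0x1d0008002c002002e0008170783)))) 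
(.nd (nat_lit 8) (.lf (nat_lit 5905786994) (dlOf (nat_lit 1) (nat_lit 0x400200020008144782))) 
(.lf (nat_lit 3221432690) (dlOf (nat_lit 1) (nat_lit 0x60008002400200020008114e83))))) 
(.nd (nat_lit 8) (.nd (nat_lit 21) 
(.lf (nat_lit 3494060146) (dlOf (nat_lit 3) (nat_lit 0x2887a00049004013029e0004137000fd0281b0080))) 
(.lf (nat_lit 3491962994) (dlOf (nat_lit 4) (nat_lit 0x74000001fd02002415e000f681003a0af807c857803ec29e01ec13c000209c007d04dc0638000001e60e006a0028090081)))) 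
(.nd (nat_lit 9) 
(.lf (nat_lit 3491438962) (dlOf (nat_lit 2) (nat_lit 0x1105b801d14080030008004400200020008090783))) 
(.nd (nat_lit 10) (.lf (nat_lit 4160959346) (dlOf (nat_lit 1) (nat_lit 0x20004005400080a8f82))) 
(.lf (nat_lit 3556980594) (dlOf (nat_lit 1) (nat_lit 0xc0020002000812a302)))))))) (.nd (nat_lit 9) 
(.nd (nat_lit 11) (.nd (nat_lit 8) (.nd (nat_lit 12) 
(.lf (nat_lit 2080580850) (dlOf (nat_lit 1) (nat_lit 0x400200020008092e82))) 
(.lf (nat_lit 3422762226) (dlOf (nat_lit 1) (nat_lit 0x30002001400080a9502)))) (.nd (nat_lit 10) 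
(.nd (nat_lit 19) (.lf (nat_lit 11739634) (dlOf (nat_lit 1) (nat_lit 0x8002000400086c0d82))) 
(.lf (nat_lit 3491439090) (dlOf (nat_lit 2) (nat_lit 0x1160bf0005e818090d80)))) 
(.lf (nat_lit 3422762482) (dlOf (nat_lit 1) (nat_lit 0x580080184002007a00080a9c03))))) 
(.nd (nat_lit 10) (.nd (nat_lit 12) 
(.lf (nat_lit 207346) (dlOf (nat_lit 1) (nat_lit 0x60018004f01))) 
(.lf (nat_lit 8600050) (dlOf (nat_lit 1) (nat_lit 0x2002851b281)))) (.nd (nat_lit 8) 
(.lf (nat_lit 1409494258) (dlOf (nat_lit 1) (nat_lit 0x20028006581))) (.nd (nat_lit 27) 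
(.lf (nat_lit 3489869298) (dlOf (nat_lit 1) (nat_lit 0x700080004002002a0008006f03))) 
(.lf (nat_lit 3624087026) (dlOf (nat_lit 1) (nat_lit 0x10008000400200020008146f03))))))) 
(.nd (nat_lit 11) (.nd (nat_lit 18) (.nd (nat_lit 8) 
(.lf (nat_lit 8595186) (dlOf (nat_lit 1) (nat_lit 0x400400020008513b82))) (.nd (nat_lit 27) 
(.lf (nat_lit 537076722) (dlOf (nat_lit 1) (nat_lit 0x20028002881))) 
(.lf (nat_lit 4697826290) (dlOf (nat_lit 1) (nat_lit 0x480028092881))))) (.nd (nat_lit 22) 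
(.lf (nat_lit 604447730) (dlOf (nat_lit 1) (nat_lit 0x400400060018282882))) 
(.lf (nat_lit 1346839538) (dlOf (nat_lit 1) (nat_lit 0x20029042881))))) (.nd (nat_lit 8) 
(.nd (nat_lit 26) (.lf (nat_lit 2818780914) (dlOf (nat_lit 1) (nat_lit 0x200018127481))) 
(.lf (nat_lit 3556978418) (dlOf (nat_lit 1) (nat_lit 0x200018127481)))) (.nd (nat_lit 18) 
(.lf (nat_lit 1141058546) (dlOf (nat_lit 4) (nat_lit 0x5004c000460200460260001f8100930130000f8080058008001800200120008095f03))) 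
(.lf (nat_lit 4094634994) (dlOf (nat_lit 1) (nat_lit 0x220018055f01))))))))) (.nd (nat_lit 18) 
(.nd (nat_lit 6) (.nd (nat_lit 28) (.nd (nat_lit 19) (.nd (nat_lit 11) (.nd (nat_lit 9) 
(.nd (nat_lit 23) (.lf (nat_lit 3825442866) (dlOf (nat_lit 1) (nat_lit 0xa0028160601))) 
(.lf (nat_lit 25403442) (dlOf (nat_lit 1) (nat_lit 0x400400020008c00682)))) (.nd (nat_lit 21) 
(.lf (nat_lit 3288572466) (dlOf (nat_lit 7) (nat_lit 0xccc040008601d034000580009c181a000800d10016007800a0000483008f0100021802c006c0140000806067c02003440058000141001e808000002040cd4040066800b0012005000000180a08008077400206080008090f03))) 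
(.lf (nat_lit 23306802) (dlOf (nat_lit 1) (nat_lit 0x2000200100008b80f02))))) (.nd (nat_lit 20) 
(.nd (nat_lit 26) 
(.lf (nat_lit 1745070642) (dlOf (nat_lit 1) (nat_lit 0x50008000400200020008095183))) 
(.lf (nat_lit 738437682) (dlOf (nat_lit 1) (nat_lit 0x800400080018095182)))) (.nd (nat_lit 24) 
(.lf (nat_lit 36940338) (dlOf (nat_lit 1) (nat_lit 0x40019075181))) 
(.lf (nat_lit 20163122) (dlOf (nat_lit 1) (nat_lit 0x600089d5181)))))) (.nd (nat_lit 20) 
(.nd (nat_lit 7) (.nd (nat_lit 22) 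
(.lf (nat_lit 537632818) (dlOf (nat_lit 5) (nat_lit 0xa8c0a4000450205be052000220102c002900010c080130148000760400c0002001000080e0682))) 
(.lf (nat_lit 13344818) (dlOf (nat_lit 2) (nat_lit 0x4080000005a04000800200040008720f82)))) 
(.lf (nat_lit 67877042) (dlOf (nat_lit 2) (nat_lit 0x40d00024f81833a880)))) (.nd (nat_lit 21) 
(.nd (nat_lit 22) (.lf (nat_lit 18587698) (dlOf (nat_lit 1) (nat_lit 0x400400020008950802))) 
(.lf (nat_lit 22782002) (dlOf (nat_lit 8) (nat_lit 0x2ade0000b81000156f00005808001ab780001c0400095bc0000c020002ade000356d00001810000ab78000080400095bc0000002000a0008b20e01)))) 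
(.nd (nat_lit 8) (.lf (nat_lit 37463090) (dlOf (nat_lit 1) (nat_lit 0x7600190d2881))) 
(.lf (nat_lit 54239538) (dlOf (nat_lit 1) (nat_lit 0x400400020009650b02))))))) (.nd (nat_lit 27) 
(.nd (nat_lit 29) (.nd (nat_lit 30) (.nd (nat_lit 7) 
(.lf (nat_lit 2416157234) (dlOf (nat_lit 2) (nat_lit 0x2012000024080030008000800200020008090f03))) 
(.lf (nat_lit 2416157106) (dlOf (nat_lit 2) (nat_lit 0x8080019c604000400400020008090782)))) 
(.nd (nat_lit 19) (.lf (nat_lit 1342414898) (dlOf (nat_lit 1) (nat_lit 0x8000200c40008020602))) 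
(.lf (nat_lit 1410048050) (dlOf (nat_lit 5) (nat_lit 0xa8c0a4000450205be052000220102c002900010c080130148000760400c0002001000080e0682))))) 
(.nd (nat_lit 9) (.nd (nat_lit 7) 
(.lf (nat_lit 4093879346) (dlOf (nat_lit 1) (nat_lit 0x20018002881))) 
(.lf (nat_lit 4026769842) (dlOf (nat_lit 6) (nat_lit 0x33003c01c2a04025c082022c03f021c017010d00b40870050044002701ed01300d2808400a803c0402012022400880ca0024005400000ced1a023e02e0217016801180a0067004e03d002601f9009010b8044019d81c007007e044c02e0219016808980a007c804e032e026001a01080ff8048088c022002a000006718a000801f810600b8087405a041602701e701300098078079402403f601100110000033884805c8008047000203fc0008090783)))) 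
(.nd (nat_lit 11) 
(.lf (nat_lit 4026769970) (dlOf (nat_lit 7) (nat_lit 0xccc040008601d0340005800088181a000800d10016007800a0000483008f0100021802c006c0140000806067c02003440058000141001e808000002040cd4040066800b0012005000000180a08008077400206080008090f03))) 
(.lf (nat_lit 6241364530) (dlOf (nat_lit 1) (nat_lit 0x7000280d5181)))))) (.nd (nat_lit 9) 
(.nd (nat_lit 8) (.nd (nat_lit 26) 
(.lf (nat_lit 3087245362) (dlOf (nat_lit 1) (nat_lit 0xa0028160601))) 
(.lf (nat_lit 469999666) (dlOf (nat_lit 1) (nat_lit 0x8000200c40008020602)))) (.nd (nat_lit 7) 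
(.lf (nat_lit 1008967986) (dlOf (nat_lit 1) (nat_lit 0x18004000e0009000b02))) 
(.lf (nat_lit 2550374834) (dlOf (nat_lit 1) (nat_lit 0x40028090781))))) (.nd (nat_lit 10) 
(.nd (nat_lit 11) 
(.lf (nat_lit 2550374962) (dlOf (nat_lit 2) (nat_lit 0x2013000024080030008000800200020008090f03))) 
(.lf (nat_lit 6376630834) (dlOf (nat_lit 1) (nat_lit 0x40018095181)))) 
(.lf (nat_lit 5234730546) (dlOf (nat_lit 2) (nat_lit 0x100a8000940800b00080030002000c00080d3783))))))) 
(.nd (nat_lit 8) (.nd (nat_lit 7) (.nd (nat_lit 21) (.nd (nat_lit 26) 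
(.lf (nat_lit 3494092914) (dlOf (nat_lit 5) (nat_lit 0x4507080049004003c3840024702005e1ab00d60878048841c03f41f600200ef000fd05000a07d8007e00800200080008002000a00081b0083))) 
(.lf (nat_lit 2755895410) (dlOf (nat_lit 2) (nat_lit 0x941f200440f7000f40281b0080)))) 
(.nd (nat_lit 9) 
(.lf (nat_lit 2753798258) (dlOf (nat_lit 2) (nat_lit 0x21841400d61c0000fc028090080))) 
(.lf (nat_lit 20165234) (dlOf (nat_lit 1) (nat_lit 0xc004000200189d8982))))) (.nd (nat_lit 9) 
(.nd (nat_lit 20) (.lf (nat_lit 5570273522) (dlOf (nat_lit 1) (nat_lit 0x200280d0a81))) 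
(.lf (nat_lit 41132274) (dlOf (nat_lit 1) (nat_lit 0x120029221e81)))) (.nd (nat_lit 10) 
(.nd (nat_lit 24) (.lf (nat_lit 2147724018) (dlOf (nat_lit 1) (nat_lit 0x4004000200080e5a02))) 
(.lf (nat_lit 50572018) (dlOf (nat_lit 1) (nat_lit 0x980080048002002200094c5a03)))) 
(.lf (nat_lit 8103666) (dlOf (nat_lit 1) (nat_lit 0x8008013400200460008513b83)))))) 
(.nd (nat_lit 22) (.nd (nat_lit 7) (.nd (nat_lit 26) 
(.lf (nat_lit 4026769778) (dlOf (nat_lit 2) (nat_lit 0x19001900160090037320800fc00400300008090782))) 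
(.lf (nat_lit 3288572274) (dlOf (nat_lit 3) (nat_lit 0x1480c80306e04057801e007f00200380028090781)))) 
(.nd (nat_lit 26) (.nd (nat_lit 27) 
(.lf (nat_lit 537108978) (dlOf (nat_lit 1) (nat_lit 0x40008017d81))) 
(.lf (nat_lit 2550374898) (dlOf (nat_lit 2) (nat_lit 0x5c004c02b402200e30100089807405b002e006a01500630020027000405e8000000bd1200340018090d81)))) 
(.lf (nat_lit 3288572402) (dlOf (nat_lit 11) (nat_lit 0x802b000b2810061015800b0090002c8080124080025602000620058005381800300800026204001c0400013002001e020000928100220100004900802400800060016000da0404680400270018800b80c008840540498023003e00f8007004c086001803bc00a0005e89007a019000090080230008008800200080008090d83))))) 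
(.nd (nat_lit 9) (.nd (nat_lit 7) 
(.lf (nat_lit 23306610) (dlOf (nat_lit 2) (nat_lit 0x7d8b003a2818b80780))) 
(.lf (nat_lit 23306738) (dlOf (nat_lit 2) (nat_lit 0x27b16000bd0200060028b80d81)))) 
(.nd (nat_lit 19) (.lf (nat_lit 31695858) (dlOf (nat_lit 1) (nat_lit 0x400200020008e92882))) 
(.lf (nat_lit 56337394) (dlOf (nat_lit 1) (nat_lit 0x120029732881)))))))) (.nd (nat_lit 6) 
(.nd (nat_lit 30) (.nd (nat_lit 8) (.nd (nat_lit 22) (.nd (nat_lit 19) (.nd (nat_lit 21) 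
(.lf (nat_lit 2753011762) (dlOf (nat_lit 1) (nat_lit 0x1e60008070981))) 
(.lf (nat_lit 2755108914) (dlOf (nat_lit 1) (nat_lit 0x1c0018110601)))) 
(.lf (nat_lit 28287026) (dlOf (nat_lit 1) (nat_lit 0x80018d80801)))) (.nd (nat_lit 7) 
(.nd (nat_lit 23) 
(.lf (nat_lit 21995570) (dlOf (nat_lit 2) (nat_lit 0x1380000029c04004400200360008a80d02))) 
(.lf (nat_lit 13606962) (dlOf (nat_lit 4) (nat_lit 0x10dc63000adeb00028410098718c04437ac0007e040147c6300015018730b80)))) 
(.lf (nat_lit 47161522) (dlOf (nat_lit 1) (nat_lit 0x6200293b1681))))) (.nd (nat_lit 7) 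
(.nd (nat_lit 10) (.lf (nat_lit 46113074) (dlOf (nat_lit 1) (nat_lit 0x20029380b01))) 
(.lf (nat_lit 8369458) (dlOf (nat_lit 1) (nat_lit 0x20018519881)))) (.nd (nat_lit 10) 
(.nd (nat_lit 23) (.lf (nat_lit 2752487858) (dlOf (nat_lit 1) (nat_lit 0x3000201340008017482))) 
(.lf (nat_lit 42967474) (dlOf (nat_lit 1) (nat_lit 0x1200292a1001)))) 
(.lf (nat_lit 8889778) (dlOf (nat_lit 1) (nat_lit 0x400200020008513602)))))) (.nd (nat_lit 19) 
(.nd (nat_lit 8) (.nd (nat_lit 10) (.nd (nat_lit 20) 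
(.lf (nat_lit 3557269554) (dlOf (nat_lit 2) (nat_lit 0x281800000004001800400060008190982))) 
(.lf (nat_lit 3493306418) (dlOf (nat_lit 1) (nat_lit 0x1c0018110601)))) 
(.lf (nat_lit 1346872370) (dlOf (nat_lit 1) (nat_lit 0xc0029042881)))) 
(.lf (nat_lit 3758596402) (dlOf (nat_lit 1) (nat_lit 0x400282c0701)))) (.nd (nat_lit 9) 
(.nd (nat_lit 29) (.lf (nat_lit 1343201330) (dlOf (nat_lit 1) (nat_lit 0x400200020008190482))) 
(.lf (nat_lit 1880072242) (dlOf (nat_lit 1) (nat_lit 0x80080004002000200086b0003)))) 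
(.nd (nat_lit 11) 
(.lf (nat_lit 3490685490) (dlOf (nat_lit 2) (nat_lit 0x982a000072040030004000c0008018002))) 
(.lf (nat_lit 4094667314) (dlOf (nat_lit 1) (nat_lit 0x40008055181))))))) (.nd (nat_lit 21) 
(.nd (nat_lit 28) (.nd (nat_lit 19) (.nd (nat_lit 30) (.nd (nat_lit 10) 
(.lf (nat_lit 4362575986) (dlOf (nat_lit 1) (nat_lit 0x8008000400200020008090083))) 
(.lf (nat_lit 604480626) (dlOf (nat_lit 1) (nat_lit 0xe80080030002003a00082d2a03)))) 
(.nd (nat_lit 7) 
(.lf (nat_lit 1678221426) (dlOf (nat_lit 4) (nat_lit 0x8158004240400bc074001f8020018013000000181a0080))) 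
(.lf (nat_lit 3758596338) (dlOf (nat_lit 1) (nat_lit 0x1000282c0601))))) (.nd (nat_lit 26) 
(.lf (nat_lit 2072690) (dlOf (nat_lit 2) (nat_lit 0x10cb0100124018150080))) 
(.lf (nat_lit 2753536114) (dlOf (nat_lit 2) (nat_lit 0x9620a000fc018090080))))) (.nd (nat_lit 7) 
(.nd (nat_lit 26) 
(.lf (nat_lit 805806194) (dlOf (nat_lit 4) (nat_lit 0x8158003fa0400bc074001e6020018013000000181a0080))) 
(.lf (nat_lit 4228358258) (dlOf (nat_lit 1) (nat_lit 0x8008000400200020008090083)))) 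
(.nd (nat_lit 8) (.lf (nat_lit 3020398834) (dlOf (nat_lit 1) (nat_lit 0x1000282c0601))) 
(.lf (nat_lit 474457074) (dlOf (nat_lit 1) (nat_lit 0x20029162881)))))) (.nd (nat_lit 19) 
(.nd (nat_lit 8) (.nd (nat_lit 7) 
(.lf (nat_lit 40346738) (dlOf (nat_lit 1) (nat_lit 0x8000800d0002010e00091f2a03))) 
(.lf (nat_lit 1009230066) (dlOf (nat_lit 1) (nat_lit 0x1c004001c00090a1e82)))) (.nd (nat_lit 10) 
(.lf (nat_lit 1881645426) (dlOf (nat_lit 1) (nat_lit 0x1e4002039c0008f95802))) 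
(.lf (nat_lit 61318514) (dlOf (nat_lit 1) (nat_lit 0x400400020009923502))))) (.nd (nat_lit 7) 
(.nd (nat_lit 23) (.nd (nat_lit 26) 
(.lf (nat_lit 3493830770) (dlOf (nat_lit 2) (nat_lit 0x480f9000fd0181b0080))) 
(.lf (nat_lit 2755633266) (dlOf (nat_lit 2) (nat_lit 0x480f9000f40181b0080)))) 
(.lf (nat_lit 12558450) (dlOf (nat_lit 1) (nat_lit 0x7000803e000201f800086d1603)))) 
(.nd (nat_lit 8) (.lf (nat_lit 3492783858) (dlOf (nat_lit 1) (nat_lit 0x14002000200080f3b82))) 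
(.lf (nat_lit 3121650) (dlOf (nat_lit 2) (nat_lit 0x938000000bd0200460018200d81))))))))))) 
(.nd (nat_lit 5) (.nd (nat_lit 19) (.nd (nat_lit 28) (.nd (nat_lit 8) (.nd (nat_lit 6) 
(.nd (nat_lit 15) (.nd (nat_lit 18) (.nd (nat_lit 20) 
(.lf (nat_lit 52633626) (dlOf (nat_lit 2) (nat_lit 0xc3a880017c04004c00400560009560602))) 
(.nd (nat_lit 22) (.lf (nat_lit 26419226) (dlOf (nat_lit 1) (nat_lit 0x120028c40501))) 
(.lf (nat_lit 22224922) (dlOf (nat_lit 3) (nat_lit 0x2ab60001f81000755b000800000007a080004002000e0008aa0b02))))) 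
(.nd (nat_lit 29) (.nd (nat_lit 20) 
(.lf (nat_lit 6442917914) (dlOf (nat_lit 1) (nat_lit 0x600008220881))) 
(.lf (nat_lit 1515546) (dlOf (nat_lit 1) (nat_lit 0xc002000200080e0b02)))) (.nd (nat_lit 9) 
(.lf (nat_lit 2819039258) (dlOf (nat_lit 1) (nat_lit 0x8008000400200020008160503))) 
(.lf (nat_lit 537338394) (dlOf (nat_lit 1) (nat_lit 0x1b000201540008090d82)))))) (.nd (nat_lit 18) 
(.nd (nat_lit 25) (.nd (nat_lit 10) 
(.lf (nat_lit 3355680794) (dlOf (nat_lit 3) (nat_lit 0x1a02e005e4810010017002f200802480080094002004400080c0703))) 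
(.lf (nat_lit 4899187738) (dlOf (nat_lit 1) (nat_lit 0x1c002000c00080d6002)))) (.nd (nat_lit 20) 
(.lf (nat_lit 52666394) (dlOf (nat_lit 1) (nat_lit 0xb000400020009560602))) 
(.lf (nat_lit 47423514) (dlOf (nat_lit 1) (nat_lit 0x400293f0181))))) (.nd (nat_lit 22) 
(.nd (nat_lit 27) (.lf (nat_lit 1611112474) (dlOf (nat_lit 1) (nat_lit 0x2c004000a00080e0402))) 
(.lf (nat_lit 2819072026) (dlOf (nat_lit 2) (nat_lit 0x281a40000004001800400060008190502)))) 
(.nd (nat_lit 20) (.lf (nat_lit 48734234) (dlOf (nat_lit 1) (nat_lit 0x400400060009420102))) 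
(.lf (nat_lit 22519834) (dlOf (nat_lit 2) (nat_lit 0xf58480036c080030008005000200180008af0603))))))) 
(.nd (nat_lit 18) (.nd (nat_lit 10) (.nd (nat_lit 29) (.nd (nat_lit 15) 
(.lf (nat_lit 201531482) (dlOf (nat_lit 1) (nat_lit 0x20028020a81))) 
(.lf (nat_lit 24354906) (dlOf (nat_lit 2) (nat_lit 0x989e40004c04009400400060008b91182)))) 
(.nd (nat_lit 7) (.lf (nat_lit 1812144218) (dlOf (nat_lit 1) (nat_lit 0x20028160981))) 
(.lf (nat_lit 3959630042) (dlOf (nat_lit 1) (nat_lit 0x60008114a81))))) (.nd (nat_lit 12) 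
(.nd (nat_lit 20) 
(.lf (nat_lit 1610851930) (dlOf (nat_lit 3) (nat_lit 0x702d00011c0800101680008c04003000400320018093902))) 
(.lf (nat_lit 43230810) (dlOf (nat_lit 1) (nat_lit 0x400080020002004600092a3903)))) 
(.nd (nat_lit 9) (.lf (nat_lit 2818784346) (dlOf (nat_lit 1) (nat_lit 0xc0020004000812bf82))) 
(.lf (nat_lit 2684565082) (dlOf (nat_lit 1) (nat_lit 0x200080a9c01)))))) (.nd (nat_lit 29) 
(.nd (nat_lit 9) (.lf (nat_lit 21438554) (dlOf (nat_lit 1) (nat_lit 0x400200020008a40682))) 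
(.nd (nat_lit 10) (.lf (nat_lit 38251098) (dlOf (nat_lit 1) (nat_lit 0x400400020009135302))) 
(.lf (nat_lit 8857178) (dlOf (nat_lit 1) (nat_lit 0x80018513901))))) (.nd (nat_lit 15) 
(.nd (nat_lit 26) 
(.lf (nat_lit 1611079770) (dlOf (nat_lit 2) (nat_lit 0x4007400000040108004001c00080d0682))) 
(.lf (nat_lit 738664538) (dlOf (nat_lit 2) (nat_lit 0x4007400000040108004001c00080d0682)))) 
(.lf (nat_lit 3892813914) (dlOf (nat_lit 1) (nat_lit 0x80018280381))))))) (.nd (nat_lit 9) 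
(.nd (nat_lit 7) (.nd (nat_lit 6) (.nd (nat_lit 15) (.nd (nat_lit 20) 
(.lf (nat_lit 1745035546) (dlOf (nat_lit 1) (nat_lit 0x2f8002014a0008090a82))) 
(.lf (nat_lit 20128026) (dlOf (nat_lit 1) (nat_lit 0x200089d0a81)))) 
(.lf (nat_lit 20160794) (dlOf (nat_lit 1) (nat_lit 0x200189d0a81)))) (.nd (nat_lit 15) 
(.nd (nat_lit 20) (.lf (nat_lit 4362543450) (dlOf (nat_lit 2) (nat_lit 0xc00000000018090680))) 
(.lf (nat_lit 2755076442) (dlOf (nat_lit 1) (nat_lit 0x280018104e81)))) 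
(.lf (nat_lit 1677959514) (dlOf (nat_lit 2) (nat_lit 0xbe00a00034818124e00))))) (.nd (nat_lit 12) 
(.nd (nat_lit 15) (.nd (nat_lit 11) 
(.lf (nat_lit 2349015450) (dlOf (nat_lit 1) (nat_lit 0x20028090781))) 
(.lf (nat_lit 1141057946) (dlOf (nat_lit 7) (nat_lit 0x1c602600ec28100e101300760c08000809803afc04014804c01d5f0201c602600eae0100bd0130000000800300080008002000a0008094e83)))) 
(.nd (nat_lit 18) 
(.lf (nat_lit 11772314) (dlOf (nat_lit 2) (nat_lit 0x111cb00000008008800800a8002000a00086c0783))) 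
(.lf (nat_lit 537371034) (dlOf (nat_lit 1) (nat_lit 0x640028090781))))) (.nd (nat_lit 6) 
(.lf (nat_lit 3892523418) (dlOf (nat_lit 2) (nat_lit 0x1808c014b604004c00400040018158382))) 
(.nd (nat_lit 10) (.lf (nat_lit 8600026) (dlOf (nat_lit 1) (nat_lit 0x6001851b281))) 
(.lf (nat_lit 3758306778) (dlOf (nat_lit 1) (nat_lit 0x18008002400200020008129b03))))))) 
(.nd (nat_lit 26) (.nd (nat_lit 20) (.nd (nat_lit 7) (.nd (nat_lit 11) 
(.lf (nat_lit 6040003354) (dlOf (nat_lit 2) (nat_lit 0x501180038c0800400080020002000600080b2103))) 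
(.lf (nat_lit 46607130) (dlOf (nat_lit 1) (nat_lit 0x5a0019385c01)))) 
(.lf (nat_lit 537077658) (dlOf (nat_lit 1) (nat_lit 0x20028004281)))) (.nd (nat_lit 15) 
(.nd (nat_lit 18) (.lf (nat_lit 20130586) (dlOf (nat_lit 1) (nat_lit 0x4002000200089d5c02))) 
(.lf (nat_lit 20392730) (dlOf (nat_lit 1) (nat_lit 0x200189d5c01)))) 
(.lf (nat_lit 20163354) (dlOf (nat_lit 1) (nat_lit 0x4002000200089d5c02))))) (.nd (nat_lit 6) 
(.nd (nat_lit 10) (.nd (nat_lit 15) 
(.lf (nat_lit 1141058330) (dlOf (nat_lit 3) (nat_lit 0x868098000fc04041404c0002a0200020018095c01))) 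
(.lf (nat_lit 4899187482) (dlOf (nat_lit 1) (nat_lit 0x800800e4002005e00080d5c03)))) 
(.lf (nat_lit 2885887770) (dlOf (nat_lit 1) (nat_lit 0x400200020008143c82)))) (.nd (nat_lit 10) 
(.nd (nat_lit 15) (.lf (nat_lit 1141058522) (dlOf (nat_lit 1) (nat_lit 0x40028095e01))) 
(.lf (nat_lit 738438106) (dlOf (nat_lit 1) (nat_lit 0x60028095e01)))) 
(.lf (nat_lit 2885887962) (dlOf (nat_lit 1) (nat_lit 0x8008000400200020008144503)))))))) 
(.nd (nat_lit 26) (.nd (nat_lit 18) (.nd (nat_lit 6) (.nd (nat_lit 15) (.nd (nat_lit 22) 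
(.nd (nat_lit 27) (.lf (nat_lit 5100478490) (dlOf (nat_lit 1) (nat_lit 0x4002000200080a0402))) 
(.lf (nat_lit 6308438042) (dlOf (nat_lit 2) (nat_lit 0x4032000320200120028090401)))) 
(.lf (nat_lit 1346576410) (dlOf (nat_lit 1) (nat_lit 0x80008fd0181)))) (.nd (nat_lit 7) 
(.lf (nat_lit 1342414874) (dlOf (nat_lit 5) (nat_lit 0x3f0aa00140808070891c0035604009848e0018b02004e247000c4818020480))) 
(.nd (nat_lit 8) 
(.lf (nat_lit 1345561754) (dlOf (nat_lit 2) (nat_lit 0x2208d000224080048008002000200020008d12b83))) 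
(.lf (nat_lit 268675482) (dlOf (nat_lit 1) (nat_lit 0x80080014002000200080e4e83)))))) 
(.nd (nat_lit 7) (.nd (nat_lit 9) (.nd (nat_lit 15) 
(.lf (nat_lit 1342382170) (dlOf (nat_lit 1) (nat_lit 0x8000400200008020982))) 
(.lf (nat_lit 1342414938) (dlOf (nat_lit 1) (nat_lit 0x20018020981)))) 
(.lf (nat_lit 5234730586) (dlOf (nat_lit 1) (nat_lit 0x150008002c002002000080d3903)))) 
(.nd (nat_lit 8) (.lf (nat_lit 3489869018) (dlOf (nat_lit 1) (nat_lit 0x400400060008006482))) 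
(.lf (nat_lit 6174254554) (dlOf (nat_lit 1) (nat_lit 0x80080004002000200080d3603)))))) 
(.nd (nat_lit 30) (.nd (nat_lit 27) (.nd (nat_lit 15) 
(.lf (nat_lit 4563869722) (dlOf (nat_lit 1) (nat_lit 0x8008000400200040008110183))) 
(.lf (nat_lit 805806106) (dlOf (nat_lit 1) (nat_lit 0x200181a0001)))) (.nd (nat_lit 9) 
(.lf (nat_lit 4698087450) (dlOf (nat_lit 1) (nat_lit 0x8008000400200040008110183))) 
(.lf (nat_lit 2550604314) (dlOf (nat_lit 1) (nat_lit 0x3a00081b0d81))))) (.nd (nat_lit 7) 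
(.nd (nat_lit 8) 
(.lf (nat_lit 1879515162) (dlOf (nat_lit 1) (nat_lit 0x4800800a8002003e0008190103))) 
(.lf (nat_lit 5771829530) (dlOf (nat_lit 1) (nat_lit 0x38008002000200040008000a83)))) 
(.nd (nat_lit 11) (.lf (nat_lit 3493274010) (dlOf (nat_lit 1) (nat_lit 0x40008106881))) 
(.lf (nat_lit 3490130330) (dlOf (nat_lit 1) (nat_lit 0x20028004e81))))))) (.nd (nat_lit 30) 
(.nd (nat_lit 6) (.nd (nat_lit 15) (.nd (nat_lit 7) (.nd (nat_lit 8) 
(.lf (nat_lit 3154583578) (dlOf (nat_lit 1) (nat_lit 0xc0018260681))) 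
(.lf (nat_lit 4630719258) (dlOf (nat_lit 1) (nat_lit 0xc00400020008095c02)))) 
(.lf (nat_lit 472326298) (dlOf (nat_lit 1) (nat_lit 0x20018980501)))) (.nd (nat_lit 8) 
(.nd (nat_lit 18) 
(.lf (nat_lit 469999642) (dlOf (nat_lit 5) (nat_lit 0x3f0aa002a5c08070891c0023a04009848e000fb02004e2470007c018020480))) 
(.lf (nat_lit 1009229850) (dlOf (nat_lit 1) (nat_lit 0x40004001800090a0102)))) 
(.lf (nat_lit 4630752026) (dlOf (nat_lit 1) (nat_lit 0x20028095c01))))) (.nd (nat_lit 9) 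
(.nd (nat_lit 7) (.nd (nat_lit 18) 
(.lf (nat_lit 469999706) (dlOf (nat_lit 3) (nat_lit 0xca12380086808064091c0043204000800200060008020a82))) 
(.lf (nat_lit 1009229914) (dlOf (nat_lit 1) (nat_lit 0xc00090a0881)))) 
(.lf (nat_lit 3020109274) (dlOf (nat_lit 1) (nat_lit 0x400400020008129b02)))) (.nd (nat_lit 15) 
(.lf (nat_lit 4764935770) (dlOf (nat_lit 1) (nat_lit 0x400400020008093902))) 
(.lf (nat_lit 4764968538) (dlOf (nat_lit 1) (nat_lit 0x20028093901)))))) (.nd (nat_lit 7) 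
(.nd (nat_lit 8) (.nd (nat_lit 15) (.nd (nat_lit 18) 
(.lf (nat_lit 5704458266) (dlOf (nat_lit 1) (nat_lit 0x68008001400200080008090503))) 
(.lf (nat_lit 5838938138) (dlOf (nat_lit 1) (nat_lit 0x600008220881)))) 
(.lf (nat_lit 4228358170) (dlOf (nat_lit 1) (nat_lit 0x400400020018090002)))) (.nd (nat_lit 6) 
(.lf (nat_lit 4094894362) (dlOf (nat_lit 1) (nat_lit 0x20028050a81))) 
(.lf (nat_lit 4228325722) (dlOf (nat_lit 2) (nat_lit 0xc00000000018090680))))) (.nd (nat_lit 6) 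
(.nd (nat_lit 11) (.lf (nat_lit 1409753498) (dlOf (nat_lit 1) (nat_lit 0x400200080008090782))) 
(.lf (nat_lit 1543711130) (dlOf (nat_lit 1) (nat_lit 0x260028144e81)))) (.nd (nat_lit 8) 
(.lf (nat_lit 3556980954) (dlOf (nat_lit 1) (nat_lit 0x82001812a881))) 
(.lf (nat_lit 5704492506) (dlOf (nat_lit 1) (nat_lit 0x4004000200080d3602))))))))) 
(.nd (nat_lit 18) (.nd (nat_lit 7) (.nd (nat_lit 15) (.nd (nat_lit 21) (.nd (nat_lit 28) 
(.nd (nat_lit 26) 
(.lf (nat_lit 134946842) (dlOf (nat_lit 4) (nat_lit 0x314000001f2020006005000588100040188002840803280080034002017c00080e0483))) 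
(.nd (nat_lit 27) 
(.lf (nat_lit 4362805274) (dlOf (nat_lit 5) (nat_lit 0x760066001a302058005203ec02300b5810405600660009d0802d20330004a0102a60290227811800bc0820008e0600680028100481))) 
(.lf (nat_lit 202055706) (dlOf (nat_lit 4) (nat_lit 0x314000001f3020006005000588100040188002840803280080034002017c00080e0483))))) 
(.nd (nat_lit 30) (.lf (nat_lit 3154845722) (dlOf (nat_lit 1) (nat_lit 0x400400020008350582))) 
(.lf (nat_lit 4228587546) (dlOf (nat_lit 5) (nat_lit 0x760064001b302058004b03ec01f80b580e805600640009d0802d20320004a0102a6025822780fc00bc0740008e0600680028100481))))) 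
(.nd (nat_lit 6) (.nd (nat_lit 24) (.nd (nat_lit 26) 
(.lf (nat_lit 3492487194) (dlOf (nat_lit 1) (nat_lit 0x8008000400201c400080d0883))) 
(.lf (nat_lit 2754289690) (dlOf (nat_lit 1) (nat_lit 0x8008000400201c400080d0883)))) 
(.nd (nat_lit 10) 
(.lf (nat_lit 19603482) (dlOf (nat_lit 1) (nat_lit 0x780080004002000400089c0483))) 
(.lf (nat_lit 54209562) (dlOf (nat_lit 1) (nat_lit 0x110008000c00200060009656003))))) 
(.nd (nat_lit 10) (.lf (nat_lit 32189018) (dlOf (nat_lit 1) (nat_lit 0x400200020008ef5302))) 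
(.lf (nat_lit 61548122) (dlOf (nat_lit 1) (nat_lit 0xc0029923901)))))) (.nd (nat_lit 21) 
(.nd (nat_lit 23) (.nd (nat_lit 26) 
(.lf (nat_lit 1342939162) (dlOf (nat_lit 1) (nat_lit 0x60018110a81))) 
(.lf (nat_lit 470523930) (dlOf (nat_lit 1) (nat_lit 0x60018110a81)))) (.nd (nat_lit 20) 
(.lf (nat_lit 42704922) (dlOf (nat_lit 1) (nat_lit 0x20029270601))) 
(.lf (nat_lit 60530714) (dlOf (nat_lit 1) (nat_lit 0x20029890501))))) (.nd (nat_lit 8) 
(.nd (nat_lit 9) (.nd (nat_lit 26) 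
(.lf (nat_lit 1345036314) (dlOf (nat_lit 3) (nat_lit 0x10124000650100100650002f808020800800ac002004600089d0603))) 
(.lf (nat_lit 472621082) (dlOf (nat_lit 1) (nat_lit 0x100080010002000200089d0603)))) 
(.lf (nat_lit 69968410) (dlOf (nat_lit 1) (nat_lit 0x400200020008e28702)))) (.nd (nat_lit 10) 
(.lf (nat_lit 19643162) (dlOf (nat_lit 1) (nat_lit 0xc80080004002000e00089dbb83))) 
(.lf (nat_lit 8103706) (dlOf (nat_lit 1) (nat_lit 0x20028513c81))))))) (.nd (nat_lit 8) 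
(.nd (nat_lit 12) (.nd (nat_lit 15) (.nd (nat_lit 10) 
(.lf (nat_lit 6377119898) (dlOf (nat_lit 1) (nat_lit 0x4004000200080a2b82))) 
(.lf (nat_lit 1880827034) (dlOf (nat_lit 1) (nat_lit 0x1c0018bb2b81)))) (.nd (nat_lit 23) 
(.lf (nat_lit 53191834) (dlOf (nat_lit 1) (nat_lit 0x20029572b81))) 
(.lf (nat_lit 61580442) (dlOf (nat_lit 1) (nat_lit 0x20029922b81))))) (.nd (nat_lit 6) 
(.nd (nat_lit 9) (.lf (nat_lit 19640474) (dlOf (nat_lit 1) (nat_lit 0x200080010002000600089d7d83))) 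
(.lf (nat_lit 19640986) (dlOf (nat_lit 1) (nat_lit 0x4004000200089d8c82)))) (.nd (nat_lit 9) 
(.lf (nat_lit 19640538) (dlOf (nat_lit 1) (nat_lit 0x2c00289d8081))) (.nd (nat_lit 15) 
(.lf (nat_lit 20656858) (dlOf (nat_lit 1) (nat_lit 0x4002000200089d8c82))) 
(.lf (nat_lit 20689626) (dlOf (nat_lit 1) (nat_lit 0x2b000200f000089d8c82))))))) (.nd (nat_lit 20) 
(.nd (nat_lit 6) (.nd (nat_lit 10) 
(.lf (nat_lit 57354650) (dlOf (nat_lit 1) (nat_lit 0xc8008003000200180009794e83))) 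
(.lf (nat_lit 53159322) (dlOf (nat_lit 1) (nat_lit 0x800400020009573602)))) (.nd (nat_lit 9) 
(.lf (nat_lit 19641818) (dlOf (nat_lit 1) (nat_lit 0x80080004002000200089d9b03))) 
(.lf (nat_lit 36381658) (dlOf (nat_lit 1) (nat_lit 0x7e0009072881))))) (.nd (nat_lit 22) 
(.nd (nat_lit 11) (.lf (nat_lit 12263834) (dlOf (nat_lit 1) (nat_lit 0x294004006a00086c0782))) 
(.lf (nat_lit 37431706) (dlOf (nat_lit 1) (nat_lit 0x200190d4e81)))) (.nd (nat_lit 6) 
(.lf (nat_lit 8069530) (dlOf (nat_lit 1) (nat_lit 0x20018511001))) 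
(.lf (nat_lit 8103386) (dlOf (nat_lit 1) (nat_lit 0x400400020008513602)))))))) (.nd (nat_lit 15) 
(.nd (nat_lit 20) (.nd (nat_lit 7) (.nd (nat_lit 9) (.nd (nat_lit 8) (.nd (nat_lit 22) 
(.lf (nat_lit 470753306) (dlOf (nat_lit 1) (nat_lit 0x800200040008170102))) 
(.lf (nat_lit 13574170) (dlOf (nat_lit 1) (nat_lit 0x170008000c00200220008730883)))) 
(.lf (nat_lit 1345265946) (dlOf (nat_lit 1) (nat_lit 0x800400040008b28002)))) (.nd (nat_lit 21) 
(.lf (nat_lit 3490652698) (dlOf (nat_lit 1) (nat_lit 0x20018017f01))) 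
(.lf (nat_lit 472850970) (dlOf (nat_lit 1) (nat_lit 0x3a0008b18701))))) (.nd (nat_lit 6) 
(.lf (nat_lit 19870362) (dlOf (nat_lit 1) (nat_lit 0x200289d8c81))) (.nd (nat_lit 10) 
(.lf (nat_lit 3492751578) (dlOf (nat_lit 1) (nat_lit 0x400180f4a81))) 
(.lf (nat_lit 2754559194) (dlOf (nat_lit 1) (nat_lit 0x80080004002000200080fc403)))))) 
(.nd (nat_lit 24) (.nd (nat_lit 7) (.nd (nat_lit 23) (.nd (nat_lit 6) 
(.lf (nat_lit 473899034) (dlOf (nat_lit 2) (nat_lit 0x62c286030c13b019109c80ef03340005e10012400400aa0008fc0102))) 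
(.lf (nat_lit 1346316890) (dlOf (nat_lit 5) (nat_lit 0x2602d2014a16800600b30071056002b028a0068143003709e803b84c002e819e00d60c700d100e804e8070000503000e4298000414b000b06b800094180af85a405782cc02c001d0000f8300010b48001007400026080070004001c0008f05302)))) 
(.nd (nat_lit 22) (.lf (nat_lit 12525594) (dlOf (nat_lit 1) (nat_lit 0x4002000200086d0902))) 
(.lf (nat_lit 16719898) (dlOf (nat_lit 1) (nat_lit 0x280080008002000e00088d0503))))) 
(.nd (nat_lit 22) (.nd (nat_lit 8) 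
(.lf (nat_lit 2039962) (dlOf (nat_lit 1) (nat_lit 0x500080014002000a0008150183))) 
(.lf (nat_lit 1346316698) (dlOf (nat_lit 1) (nat_lit 0x38002000e0008f04e82)))) (.nd (nat_lit 6) 
(.lf (nat_lit 41886874) (dlOf (nat_lit 1) (nat_lit 0x8004002a0009242b82))) 
(.lf (nat_lit 8336090) (dlOf (nat_lit 1) (nat_lit 0x400200020008518c82)))))) (.nd (nat_lit 9) 
(.nd (nat_lit 21) (.nd (nat_lit 22) 
(.lf (nat_lit 52371482) (dlOf (nat_lit 1) (nat_lit 0x400200020009530102))) 
(.lf (nat_lit 23011354) (dlOf (nat_lit 1) (nat_lit 0x420018b40481)))) 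
(.lf (nat_lit 20914202) (dlOf (nat_lit 1) (nat_lit 0x80080004002000200089f0103)))) (.nd (nat_lit 6) 
(.lf (nat_lit 54471450) (dlOf (nat_lit 1) (nat_lit 0x8008000400200020009655c03))) 
(.lf (nat_lit 62859866) (dlOf (nat_lit 1) (nat_lit 0x4002000400099a5302))))))) (.nd (nat_lit 6) 
(.nd (nat_lit 20) (.nd (nat_lit 21) (.nd (nat_lit 22) 
(.lf (nat_lit 26189850) (dlOf (nat_lit 1) (nat_lit 0xb80008c20501))) 
(.lf (nat_lit 13606938) (dlOf (nat_lit 11) (nat_lit 0x3138c40151c5e00b0dea8032ef4003d2e1201d850a010dc620041e2f00526f5402c2e1201d8308017bc6200a9dea8075fc10073f188008b7aa01bc90401dbc6200b8dea806ee010058f188025f7aa01b690401bdc6200bcdea806d841006f718800137aa01b4b04014dc6200d9b8100cbe31005d6f5400000080028004001c0018730882)))) 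
(.nd (nat_lit 8) (.lf (nat_lit 15704090) (dlOf (nat_lit 1) (nat_lit 0x60008820481))) 
(.lf (nat_lit 19901210) (dlOf (nat_lit 1) (nat_lit 0x4002000200089d5c02))))) (.nd (nat_lit 7) 
(.nd (nat_lit 21) 
(.lf (nat_lit 10461210) (dlOf (nat_lit 2) (nat_lit 0x514440007a040024004001e00185e0b02))) 
(.nd (nat_lit 23) 
(.lf (nat_lit 473931802) (dlOf (nat_lit 2) (nat_lit 0x77055803e4286020a13b00f909c809b8334003810a01ce07500fa0398000bc400bc0008009c002008c0008fc0103))) 
(.lf (nat_lit 29335578) (dlOf (nat_lit 1) (nat_lit 0x78008000400200040008df0483))))) 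
(.nd (nat_lit 8) (.lf (nat_lit 37725338) (dlOf (nat_lit 1) (nat_lit 0x1200090d2b81))) 
(.lf (nat_lit 8368538) (dlOf (nat_lit 1) (nat_lit 0x440028518381)))))) (.nd (nat_lit 9) 
(.nd (nat_lit 7) (.nd (nat_lit 8) (.nd (nat_lit 11) 
(.lf (nat_lit 69181530) (dlOf (nat_lit 1) (nat_lit 0x4e00188c0881))) 
(.lf (nat_lit 3492788314) (dlOf (nat_lit 1) (nat_lit 0xdc002001c00080fa782)))) 
(.lf (nat_lit 3490685274) (dlOf (nat_lit 1) (nat_lit 0x30008026000200240008014e83)))) 
(.nd (nat_lit 8) (.lf (nat_lit 1344250074) (dlOf (nat_lit 1) (nat_lit 0x1720028520581))) 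
(.lf (nat_lit 24093146) (dlOf (nat_lit 1) (nat_lit 0x200008b80b01))))) (.nd (nat_lit 11) 
(.nd (nat_lit 7) (.lf (nat_lit 8369754) (dlOf (nat_lit 1) (nat_lit 0x18004000e0018519c02))) 
(.lf (nat_lit 8368858) (dlOf (nat_lit 1) (nat_lit 0x400200020008518c82)))) (.nd (nat_lit 20) 
(.lf (nat_lit 45066842) (dlOf (nat_lit 2) (nat_lit 0x6698e00014019325300))) 
(.lf (nat_lit 41921114) (dlOf (nat_lit 1) (nat_lit 0x20029245301)))))))))) (.nd (nat_lit 15) 
(.nd (nat_lit 30) (.nd (nat_lit 18) (.nd (nat_lit 8) (.nd (nat_lit 27) (.nd (nat_lit 9) 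
(.nd (nat_lit 19) (.nd (nat_lit 21) 
(.lf (nat_lit 6442655802) (dlOf (nat_lit 2) (nat_lit 0x14074000a025000500d00028060002b4100004004000a0018120d02))) 
(.lf (nat_lit 14884922) (dlOf (nat_lit 1) (nat_lit 0x12c002001c0008790482)))) (.nd (nat_lit 21) 
(.lf (nat_lit 18554938) (dlOf (nat_lit 3) (nat_lit 0x331a00011684004c8000006000000170400092bc000495c8001c7d8000070600260028950901))) 
(.lf (nat_lit 29040698) (dlOf (nat_lit 2) (nat_lit 0x2ac080005e04004800400100008db1182))))) 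
(.nd (nat_lit 11) (.nd (nat_lit 26) 
(.lf (nat_lit 2302522) (dlOf (nat_lit 1) (nat_lit 0x400200020008151002))) 
(.lf (nat_lit 2753765946) (dlOf (nat_lit 1) (nat_lit 0x800400020008091002)))) (.nd (nat_lit 6) 
(.lf (nat_lit 32188986) (dlOf (nat_lit 1) (nat_lit 0x20008ef5201))) 
(.lf (nat_lit 54733434) (dlOf (nat_lit 2) (nat_lit 0x123f800118080040008002c002000a0009655403)))))) 
(.nd (nat_lit 26) (.nd (nat_lit 19) (.nd (nat_lit 28) 
(.lf (nat_lit 134422586) (dlOf (nat_lit 3) (nat_lit 0x2df810416c007a0b6c03801db0198001482000400fc0009604007400400060018020682))) 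
(.lf (nat_lit 939728954) (dlOf (nat_lit 1) (nat_lit 0x800400040008160682)))) 
(.lf (nat_lit 134946874) (dlOf (nat_lit 1) (nat_lit 0x17800200ae00080e0782)))) (.nd (nat_lit 6) 
(.nd (nat_lit 19) (.nd (nat_lit 28) 
(.lf (nat_lit 201531450) (dlOf (nat_lit 3) (nat_lit 0x2df810416c007a0b6c03801db0198001482000400fc0009604007400400060018020682))) 
(.lf (nat_lit 469966906) (dlOf (nat_lit 1) (nat_lit 0x18008000800200040008020683)))) 
(.lf (nat_lit 202055738) (dlOf (nat_lit 1) (nat_lit 0x11000200d200080e0782)))) 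
(.lf (nat_lit 738402554) (dlOf (nat_lit 1) (nat_lit 0x800200020008090a82)))))) (.nd (nat_lit 11) 
(.nd (nat_lit 6) (.nd (nat_lit 7) (.nd (nat_lit 10) 
(.lf (nat_lit 7545146) (dlOf (nat_lit 1) (nat_lit 0x100080010002000800084b0703))) 
(.lf (nat_lit 50537786) (dlOf (nat_lit 1) (nat_lit 0x200194c3281)))) 
(.lf (nat_lit 8593850) (dlOf (nat_lit 1) (nat_lit 0x480018511081)))) (.nd (nat_lit 7) 
(.lf (nat_lit 67314042) (dlOf (nat_lit 1) (nat_lit 0x80080004002000200080b0b03))) (.nd (nat_lit 20) 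
(.lf (nat_lit 53159418) (dlOf (nat_lit 1) (nat_lit 0x80080164002005e0009573683))) 
(.lf (nat_lit 1008412154) (dlOf (nat_lit 1) (nat_lit 0x10008000400200020008bb3683)))))) 
(.nd (nat_lit 25) (.nd (nat_lit 6) (.nd (nat_lit 10) 
(.lf (nat_lit 2885888314) (dlOf (nat_lit 1) (nat_lit 0x400400020008144c82))) 
(.lf (nat_lit 6509767994) (dlOf (nat_lit 1) (nat_lit 0x2260028146901)))) 
(.lf (nat_lit 20131322) (dlOf (nat_lit 1) (nat_lit 0x48002002000089d6f82)))) (.nd (nat_lit 9) 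
(.nd (nat_lit 21) 
(.lf (nat_lit 39528954) (dlOf (nat_lit 2) (nat_lit 0x18cce0004e0200020029194f81))) 
(.lf (nat_lit 37431802) (dlOf (nat_lit 1) (nat_lit 0x4002000200090d4f82)))) 
(.lf (nat_lit 59976698) (dlOf (nat_lit 1) (nat_lit 0x20029845f01))))))) (.nd (nat_lit 19) 
(.nd (nat_lit 28) (.nd (nat_lit 6) (.nd (nat_lit 20) (.nd (nat_lit 7) (.nd (nat_lit 26) 
(.lf (nat_lit 134684730) (dlOf (nat_lit 1) (nat_lit 0xc0018090001))) 
(.lf (nat_lit 4362543162) (dlOf (nat_lit 1) (nat_lit 0x30004000c0018090002)))) 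
(.lf (nat_lit 54993082) (dlOf (nat_lit 1) (nat_lit 0xa40009681981)))) (.nd (nat_lit 23) 
(.lf (nat_lit 35070010) (dlOf (nat_lit 1) (nat_lit 0x40018fd0581))) 
(.lf (nat_lit 9904186) (dlOf (nat_lit 1) (nat_lit 0x18008005c00200280008591683))))) 
(.nd (nat_lit 7) (.nd (nat_lit 8) 
(.lf (nat_lit 54993018) (dlOf (nat_lit 3) (nat_lit 0x209f00011c0800084f80004204000460400200019680c81))) 
(.lf (nat_lit 537338234) (dlOf (nat_lit 1) (nat_lit 0x920008090781)))) 
(.lf (nat_lit 28778746) (dlOf (nat_lit 1) (nat_lit 0x400200020008da0682))))) (.nd (nat_lit 7) 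
(.nd (nat_lit 26) (.nd (nat_lit 27) 
(.lf (nat_lit 4563869754) (dlOf (nat_lit 1) (nat_lit 0x100028110781))) 
(.lf (nat_lit 4698087482) (dlOf (nat_lit 1) (nat_lit 0x100028110781)))) 
(.lf (nat_lit 3020365882) (dlOf (nat_lit 1) (nat_lit 0x80080004002000200082a0903)))) 
(.nd (nat_lit 27) (.nd (nat_lit 29) 
(.lf (nat_lit 2416386234) (dlOf (nat_lit 1) (nat_lit 0x1400281b0381))) 
(.lf (nat_lit 805773498) (dlOf (nat_lit 1) (nat_lit 0x14002000200081a0382)))) 
(.lf (nat_lit 2550603962) (dlOf (nat_lit 1) (nat_lit 0x1400281b0381)))))) (.nd (nat_lit 8) 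
(.nd (nat_lit 20) (.nd (nat_lit 23) 
(.lf (nat_lit 21962810) (dlOf (nat_lit 1) (nat_lit 0x900080034002006e0008a80d03))) 
(.lf (nat_lit 47128634) (dlOf (nat_lit 1) (nat_lit 0x100080008002000400093a0483)))) 
(.nd (nat_lit 9) (.lf (nat_lit 473899066) (dlOf (nat_lit 1) (nat_lit 0x3000400240008fc0582))) 
(.lf (nat_lit 2753503802) (dlOf (nat_lit 5) (nat_lit 0x80eb8002870c0003a0800203ae000a1c30000e02000c0eb8006070c000340800183ae000000201200018091001))))) 
(.nd (nat_lit 12) (.nd (nat_lit 20) 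
(.lf (nat_lit 19865914) (dlOf (nat_lit 1) (nat_lit 0x40008004c002000200089d0b83))) 
(.lf (nat_lit 2040122) (dlOf (nat_lit 2) (nat_lit 0x826080002e040020004007a0018150582)))) 
(.nd (nat_lit 7) (.lf (nat_lit 19870010) (dlOf (nat_lit 1) (nat_lit 0x80080010002000200089d8183))) 
(.lf (nat_lit 19870138) (dlOf (nat_lit 1) (nat_lit 0xa00289d8581)))))))) (.nd (nat_lit 6) 
(.nd (nat_lit 18) (.nd (nat_lit 11) (.nd (nat_lit 27) (.nd (nat_lit 8) 
(.lf (nat_lit 1342382138) (dlOf (nat_lit 1) (nat_lit 0x18008000800200040008020683))) 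
(.lf (nat_lit 3556979002) (dlOf (nat_lit 2) (nat_lit 0x4001d000198080098008005000200060008128183)))) 
(.nd (nat_lit 28) (.lf (nat_lit 1812144186) (dlOf (nat_lit 1) (nat_lit 0x800400040008160682))) 
(.lf (nat_lit 5838676026) (dlOf (nat_lit 2) (nat_lit 0x14074000a025000500d00028060002b4100004004000a0018120d02))))) 
(.nd (nat_lit 31) (.nd (nat_lit 27) 
(.lf (nat_lit 1409494202) (dlOf (nat_lit 1) (nat_lit 0x400400900008006302))) 
(.lf (nat_lit 1543711930) (dlOf (nat_lit 2) (nat_lit 0x280250000e818146300)))) (.nd (nat_lit 7) 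
(.lf (nat_lit 3556978490) (dlOf (nat_lit 1) (nat_lit 0x20018127501))) 
(.lf (nat_lit 3556980922) (dlOf (nat_lit 1) (nat_lit 0x13000800a00020052000812a883)))))) 
(.nd (nat_lit 19) (.nd (nat_lit 26) (.nd (nat_lit 27) 
(.lf (nat_lit 3758563386) (dlOf (nat_lit 1) (nat_lit 0x80080004002000200082a0903))) 
(.lf (nat_lit 3892781114) (dlOf (nat_lit 6) (nat_lit 0x3c0c800040470001402000a02d000070080178168000300400f80b4000140200c205a005001780004c1001d00080080002001e0008260903)))) 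
(.nd (nat_lit 7) (.lf (nat_lit 4228325434) (dlOf (nat_lit 1) (nat_lit 0x20004000a0018090002))) 
(.lf (nat_lit 1678188730) (dlOf (nat_lit 1) (nat_lit 0x14002000200081a0382))))) (.nd (nat_lit 21) 
(.nd (nat_lit 8) 
(.lf (nat_lit 3491701306) (dlOf (nat_lit 2) (nat_lit 0x200460000002001c0018091001))) 
(.lf (nat_lit 6376333626) (dlOf (nat_lit 4) (nat_lit 0x142460001c0200941220000a01004b091000024080098008000c00200340008090b83)))) 
(.nd (nat_lit 11) 
(.lf (nat_lit 3493798458) (dlOf (nat_lit 1) (nat_lit 0x40008000c002000200081b1003))) 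
(.lf (nat_lit 1346316858) (dlOf (nat_lit 7) (nat_lit 0x21a9000e0b400050598001819e001001c000e00d0001743000205a4000c2d0000c01d0002c8300050b480038074000b00800142d20010168000700e80015c1800405a400202cc001201d0002a03000b0b480028598001c03a000420600080028f05201))))))) 
(.nd (nat_lit 11) (.nd (nat_lit 27) (.nd (nat_lit 8) (.nd (nat_lit 18) (.nd (nat_lit 32) 
(.lf (nat_lit 1141055738) (dlOf (nat_lit 1) (nat_lit 0x200080034002000c0008090a83))) 
(.lf (nat_lit 5436023034) (dlOf (nat_lit 1) (nat_lit 0x60028090a81)))) 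
(.lf (nat_lit 4094632186) (dlOf (nat_lit 1) (nat_lit 0x220018050a81)))) (.nd (nat_lit 18) 
(.lf (nat_lit 3825410554) (dlOf (nat_lit 1) (nat_lit 0x160018157801))) 
(.lf (nat_lit 3493798394) (dlOf (nat_lit 1) (nat_lit 0x5f8008012400200a800081b0d83))))) 
(.nd (nat_lit 7) (.nd (nat_lit 9) 
(.lf (nat_lit 3893043322) (dlOf (nat_lit 1) (nat_lit 0x600018310481))) (.nd (nat_lit 18) 
(.lf (nat_lit 6375548538) (dlOf (nat_lit 1) (nat_lit 0x400200020008003982))) 
(.lf (nat_lit 6375810682) (dlOf (nat_lit 1) (nat_lit 0x20028003981))))) (.nd (nat_lit 19) 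
(.nd (nat_lit 20) 
(.lf (nat_lit 1745035514) (dlOf (nat_lit 3) (nat_lit 0x1407400040340004e02000501a0002340800b0008001800200060008090a83))) 
(.lf (nat_lit 6376595706) (dlOf (nat_lit 2) (nat_lit 0x6000000b0018090a80)))) 
(.lf (nat_lit 6378168570) (dlOf (nat_lit 1) (nat_lit 0x280080010002000e0008112903)))))) 
(.nd (nat_lit 26) (.nd (nat_lit 20) (.nd (nat_lit 8) 
(.lf (nat_lit 1476864634) (dlOf (nat_lit 1) (nat_lit 0x100080010002001a0008285403))) 
(.nd (nat_lit 10) (.lf (nat_lit 3490130298) (dlOf (nat_lit 1) (nat_lit 0x400400020018004e82))) 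
(.lf (nat_lit 3489869178) (dlOf (nat_lit 1) (nat_lit 0x10008000400200060008006b83))))) 
(.nd (nat_lit 7) (.nd (nat_lit 8) 
(.lf (nat_lit 1345530490) (dlOf (nat_lit 2) (nat_lit 0x1813300010748001181000180080004002000e0008c95403))) 
(.lf (nat_lit 1346316666) (dlOf (nat_lit 3) (nat_lit 0x414d0053b8100070a180008334014ce08000800200020008f04e82)))) 
(.lf (nat_lit 1346316794) (dlOf (nat_lit 1) (nat_lit 0x80008f04f81))))) (.nd (nat_lit 7) 
(.nd (nat_lit 8) (.lf (nat_lit 1677928570) (dlOf (nat_lit 1) (nat_lit 0xc00400040008114782))) 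
(.lf (nat_lit 1141057914) (dlOf (nat_lit 6) (nat_lit 0x2b0130075d40802c009803ac004016004c01d5e0200b002600eae01000e013000000080048008001000200140008094e83)))) 
(.nd (nat_lit 8) 
(.lf (nat_lit 3556978426) (dlOf (nat_lit 1) (nat_lit 0x10008000c00200020008127483))) 
(.nd (nat_lit 10) (.lf (nat_lit 3959634426) (dlOf (nat_lit 1) (nat_lit 0x54001811b281))) 
(.lf (nat_lit 1543712250) (dlOf (nat_lit 5) (nat_lit 0x1300d000380340014000000160600300250000a01001200d0004003400100000000506000e01a0001006800010100008008004000200460008146f83)))))))))) 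
(.nd (nat_lit 8) (.nd (nat_lit 18) (.nd (nat_lit 26) (.nd (nat_lit 19) (.nd (nat_lit 27) 
(.nd (nat_lit 20) (.nd (nat_lit 28) 
(.lf (nat_lit 4295204922) (dlOf (nat_lit 1) (nat_lit 0x4004000200080b0b82))) 
(.lf (nat_lit 1342414906) (dlOf (nat_lit 10) (nat_lit 0xec8924033047e00cc23101590f800ad871c05c037a0005c0c03c0249005911f80af07c0057438e02e81bd0002d050028124001608c400a03dc01501c7000290400a40d800620488035c20a00c8066006103280768000000961801d038e0004002029024900ac0e38000e01009e09240006c0406c8492005c22001360e3806886f400048100830492005824800330f480c4871c056037a000220a00500018020681)))) 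
(.nd (nat_lit 6) (.lf (nat_lit 13869242) (dlOf (nat_lit 1) (nat_lit 0x20018750381))) 
(.lf (nat_lit 9674874) (dlOf (nat_lit 1) (nat_lit 0x80080040002000e0008570b83))))) (.nd (nat_lit 7) 
(.nd (nat_lit 32) 
(.lf (nat_lit 134455354) (dlOf (nat_lit 5) (nat_lit 0x14806200b00110002c82011a01880908044000ae080a540a803a403f02a201e80c100e80a70070001a035029601980a580c00054056046e01000260000001485800580b40009604004c00400160008020682))) 
(.lf (nat_lit 4429422650) (dlOf (nat_lit 1) (nat_lit 0x4004000200080b0b82)))) 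
(.lf (nat_lit 3892555962) (dlOf (nat_lit 1) (nat_lit 0x840018157e81))))) (.nd (nat_lit 9) 
(.nd (nat_lit 10) (.lf (nat_lit 45850682) (dlOf (nat_lit 1) (nat_lit 0xc0019360581))) 
(.lf (nat_lit 36414522) (dlOf (nat_lit 1) (nat_lit 0x20019072881)))) (.nd (nat_lit 6) 
(.lf (nat_lit 19639866) (dlOf (nat_lit 1) (nat_lit 0xa00189d7181))) 
(.lf (nat_lit 61580922) (dlOf (nat_lit 1) (nat_lit 0x20009923981)))))) (.nd (nat_lit 9) 
(.nd (nat_lit 6) (.nd (nat_lit 27) 
(.lf (nat_lit 2483265594) (dlOf (nat_lit 2) (nat_lit 0x10803c01bf804000c00200060008090002))) 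
(.nd (nat_lit 28) 
(.lf (nat_lit 201564218) (dlOf (nat_lit 5) (nat_lit 0x14806200b00110002c82011a01880908044000ae080a540aa03a403f02a201e80c100e80a70070001a035029601980a580c00054056046e01000260000001485800580b40009604004c00400160008020682))) 
(.lf (nat_lit 469999674) (dlOf (nat_lit 10) (nat_lit 0xec8924033047e00cc23101590f800ad871c05c037a0005c0c03c0249005911f80af07c0057438e02e81bd0002d050028124001608c400a03dc01501c7000290400a40d480620488035c20600c806d006103600768000000961801d038e0004002029024900ac0e38000e01009e09240006c0406c8492005c21c01360e3806886f400048100830492005824800330f480c4871c056037a000220a00500018020681))))) 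
(.nd (nat_lit 29) 
(.lf (nat_lit 5570273530) (dlOf (nat_lit 1) (nat_lit 0x80080004002000200080d0a83))) 
(.lf (nat_lit 738435322) (dlOf (nat_lit 2) (nat_lit 0x8098001560200020008090a81))))) 
(.nd (nat_lit 10) (.nd (nat_lit 7) 
(.lf (nat_lit 1409524282) (dlOf (nat_lit 1) (nat_lit 0x20028018201))) 
(.lf (nat_lit 67875514) (dlOf (nat_lit 1) (nat_lit 0x20018338c81)))) (.nd (nat_lit 6) 
(.lf (nat_lit 67876410) (dlOf (nat_lit 1) (nat_lit 0x20028339c01))) 
(.lf (nat_lit 5704492666) (dlOf (nat_lit 1) (nat_lit 0x600080d3981))))))) (.nd (nat_lit 21) 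
(.nd (nat_lit 19) (.nd (nat_lit 6) (.nd (nat_lit 7) (.nd (nat_lit 26) 
(.lf (nat_lit 5637644346) (dlOf (nat_lit 1) (nat_lit 0x40008001000200080008140783))) 
(.lf (nat_lit 6241624122) (dlOf (nat_lit 1) (nat_lit 0x40008001000200080008140783)))) 
(.lf (nat_lit 2886181050) (dlOf (nat_lit 1) (nat_lit 0x540028185201)))) (.nd (nat_lit 9) 
(.lf (nat_lit 3020398714) (dlOf (nat_lit 1) (nat_lit 0xe00282c0481))) 
(.lf (nat_lit 46639738) (dlOf (nat_lit 1) (nat_lit 0x8008000400200020009385403))))) 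
(.nd (nat_lit 9) (.nd (nat_lit 6) (.nd (nat_lit 7) 
(.lf (nat_lit 13606970) (dlOf (nat_lit 16) (nat_lit 0x48718c02137ac001e20401bfc6300bddeb0006b410049718c02137ac001ab040131c630068deb0006a01004af18c01f37ac0019d0400e9c630054deb00027c1001cf18c000f20402378c600d9bd600039020083e318033ef58000780800db8c60037bd60001d820105e3180766f58000540801ef8c600b3bd600014020080e31803aef580004e0802438c60001402000be1f0074e31802f6f58000000c0080004001e0018730b82))) 
(.lf (nat_lit 1007657146) (dlOf (nat_lit 1) (nat_lit 0x4002000200086b0482)))) 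
(.lf (nat_lit 47161466) (dlOf (nat_lit 1) (nat_lit 0x1600293b0c81)))) (.nd (nat_lit 11) 
(.lf (nat_lit 3490685498) (dlOf (nat_lit 1) (nat_lit 0x3f800803ec00201c60008018203))) 
(.lf (nat_lit 31435322) (dlOf (nat_lit 1) (nat_lit 0x400400020008e95202)))))) (.nd (nat_lit 20) 
(.nd (nat_lit 19) (.nd (nat_lit 6) (.nd (nat_lit 26) 
(.lf (nat_lit 2596922) (dlOf (nat_lit 2) (nat_lit 0x1be40000000800080080014002000e0008170b83))) 
(.lf (nat_lit 1009229882) (dlOf (nat_lit 1) (nat_lit 0x20004001c00090a0582)))) 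
(.lf (nat_lit 1881645178) (dlOf (nat_lit 5) (nat_lit 0x3815800040a600060500007026800080200008e1400082b20020056000a02980048140003409a0002000000230600060310003817c000880800142ae0006062000402e8005815800080a6000a050000a026800180040007020002c004001c0018f90c82)))) 
(.nd (nat_lit 6) (.nd (nat_lit 11) 
(.lf (nat_lit 28287034) (dlOf (nat_lit 3) (nat_lit 0x35e500012cdc004d3360006000000170400095870004ac1c001d30e000070600260028d80901))) 
(.lf (nat_lit 3492788282) (dlOf (nat_lit 1) (nat_lit 0x28004003000180fa602)))) 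
(.lf (nat_lit 3492784378) (dlOf (nat_lit 1) (nat_lit 0x100080008002000600080f4b83))))) 
(.nd (nat_lit 25) (.nd (nat_lit 23) 
(.lf (nat_lit 20947002) (dlOf (nat_lit 1) (nat_lit 0x158004000600089f0482))) 
(.lf (nat_lit 12558394) (dlOf (nat_lit 1) (nat_lit 0x4002000200086d0c02)))) (.nd (nat_lit 7) 
(.lf (nat_lit 41921082) (dlOf (nat_lit 1) (nat_lit 0xc0019245201))) 
(.lf (nat_lit 37725370) (dlOf (nat_lit 1) (nat_lit 0x400190d2c81)))))))) (.nd (nat_lit 28) 
(.nd (nat_lit 7) (.nd (nat_lit 26) (.nd (nat_lit 6) (.nd (nat_lit 9) 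
(.lf (nat_lit 9675066) (dlOf (nat_lit 1) (nat_lit 0x80008574c01))) 
(.lf (nat_lit 19901242) (dlOf (nat_lit 1) (nat_lit 0x4002000200089d5c02)))) (.nd (nat_lit 12) 
(.lf (nat_lit 33270138) (dlOf (nat_lit 1) (nat_lit 0x20018f54e81))) 
(.lf (nat_lit 8108410) (dlOf (nat_lit 1) (nat_lit 0x40040002000851ae82))))) (.nd (nat_lit 11) 
(.nd (nat_lit 18) (.lf (nat_lit 1677959482) (dlOf (nat_lit 2) (nat_lit 0x2400a0051f818124c00))) 
(.lf (nat_lit 1678221626) (dlOf (nat_lit 9) (nat_lit 0x1301a8000ac0800480d4000540400700880002902007804f0032026800e812c04a808c01980450124022005f810c04a8082009c03d003901e005880ec00dc0700074036004201a801b80cc010005c02aa02d012a016002f8098015804a0020024006d0118090805c02cc00200b6000000129900590168025005c0004808017402e000230200ae044000110100090168000780807600080464002171c00081a0583)))) 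
(.nd (nat_lit 9) 
(.lf (nat_lit 2885921082) (dlOf (nat_lit 2) (nat_lit 0x2e040000a000000000100108008016800200060008144c83))) 
(.lf (nat_lit 4899187514) (dlOf (nat_lit 1) (nat_lit 0x7c002002a00080d5c02)))))) (.nd (nat_lit 6) 
(.nd (nat_lit 12) (.nd (nat_lit 9) 
(.lf (nat_lit 42967482) (dlOf (nat_lit 1) (nat_lit 0x8004000200192a1082))) 
(.lf (nat_lit 501690) (dlOf (nat_lit 1) (nat_lit 0x20028004381)))) (.nd (nat_lit 11) 
(.lf (nat_lit 8631226) (dlOf (nat_lit 1) (nat_lit 0x8008000400200020008519203))) 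
(.lf (nat_lit 20691898) (dlOf (nat_lit 2) (nat_lit 0x427e800430040014002000a00089dbe02))))) 
(.nd (nat_lit 12) (.nd (nat_lit 18) 
(.lf (nat_lit 43230714) (dlOf (nat_lit 1) (nat_lit 0x1800292a3681))) 
(.lf (nat_lit 61318650) (dlOf (nat_lit 1) (nat_lit 0x400400020009923682)))) 
(.lf (nat_lit 19641850) (dlOf (nat_lit 3) (nat_lit 0xa0adc004d56d0029f81001a2b68014da04001c004000600089d9c02)))))) 
(.nd (nat_lit 6) (.nd (nat_lit 26) (.nd (nat_lit 18) (.nd (nat_lit 22) 
(.lf (nat_lit 805544250) (dlOf (nat_lit 2) (nat_lit 0x2400a00255018124c00))) 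
(.lf (nat_lit 3494093114) (dlOf (nat_lit 2) (nat_lit 0x4a1c1000128181b0580)))) 
(.lf (nat_lit 805806394) (dlOf (nat_lit 9) (nat_lit 0x1301a8000b00800480d4000560400700880002902007804f0032026800e812c04a808c01980450124022005f810c04a8082009c03d003901e005880ec00dc0700074036004201a801b80cc010005c02aa02d012a016002f8098015804a0020024006d0118090805c02cc00200b6000000131900590168025005c0004a08017402e000240200ae044000110100090168000780807600080464002171c00081a0583)))) 
(.nd (nat_lit 7) (.nd (nat_lit 10) 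
(.lf (nat_lit 3020398906) (dlOf (nat_lit 1) (nat_lit 0x400282c0701))) 
(.lf (nat_lit 4093879610) (dlOf (nat_lit 1) (nat_lit 0x20008003281)))) 
(.lf (nat_lit 1008970170) (dlOf (nat_lit 1) (nat_lit 0x4400400140009004e82))))) (.nd (nat_lit 7) 
(.nd (nat_lit 29) (.nd (nat_lit 9) 
(.lf (nat_lit 268675450) (dlOf (nat_lit 1) (nat_lit 0x100080014002000200080e4e83))) 
(.lf (nat_lit 3557013370) (dlOf (nat_lit 1) (nat_lit 0x2001812a301)))) (.nd (nat_lit 18) 
(.lf (nat_lit 2013503866) (dlOf (nat_lit 1) (nat_lit 0x60004019600180c5902))) 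
(.lf (nat_lit 1881645434) (dlOf (nat_lit 2) (nat_lit 0x4000000000200040018f95981))))) 
(.nd (nat_lit 26) (.nd (nat_lit 18) 
(.lf (nat_lit 1879286266) (dlOf (nat_lit 1) (nat_lit 0x600180c0d81))) 
(.lf (nat_lit 3490685434) (dlOf (nat_lit 10) (nat_lit 0x1505a8029680800182d4014b20400f0150004800500528020031054001100140149e08002415000a4602000a0b50008054000a0284007c00a00a3b0800100a800280028028e81002503000028014000c0090051483003f06000068028002001200a280601820018017801)))) 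
(.nd (nat_lit 27) 
(.lf (nat_lit 1409524218) (dlOf (nat_lit 4) (nat_lit 0x500be00a2902002805f0051401000202f80289c080078008017800200260008017803))) 
(.lf (nat_lit 1543741946) (dlOf (nat_lit 1) (nat_lit 0x8004001e0018157802))))))))))))

end

end Pool.Agent.Lib.MP_5854e1_co.Cz

namespace Pool.Agent.Lib.MP_5854e1_co.Cz

noncomputable section

noncomputable def tz200 : DT := (.nd (nat_lit 6) (.nd (nat_lit 5) (.nd (nat_lit 17) 
(.nd (nat_lit 18) (.nd (nat_lit 26) (.nd (nat_lit 16) (.nd (nat_lit 11) (.nd (nat_lit 29) 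
(.nd (nat_lit 20) (.nd (nat_lit 7) (.nd (nat_lit 21) (.nd (nat_lit 22) 
(.lf (nat_lit 58720278) (dlOf (nat_lit 1) (nat_lit 0x4004000200097e0002))) 
(.lf (nat_lit 3493855254) (dlOf (nat_lit 2) (nat_lit 0xc01500d228181b0000)))) 
(.lf (nat_lit 1344274454) (dlOf (nat_lit 1) (nat_lit 0xcc00400040018560082)))) 
(.lf (nat_lit 1476399766) (dlOf (nat_lit 1) (nat_lit 0x8008000400200020008008c83)))) 
(.nd (nat_lit 10) (.nd (nat_lit 19) 
(.lf (nat_lit 13631510) (dlOf (nat_lit 1) (nat_lit 0x400200060008730882))) 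
(.lf (nat_lit 3670038) (dlOf (nat_lit 1) (nat_lit 0x620028210881)))) 
(.lf (nat_lit 56099862) (dlOf (nat_lit 1) (nat_lit 0x20019732881))))) (.nd (nat_lit 8) 
(.nd (nat_lit 9) (.nd (nat_lit 10) 
(.lf (nat_lit 1611137046) (dlOf (nat_lit 2) (nat_lit 0xd0190002007000e860800c0004002800080f0a02))) 
(.lf (nat_lit 2952795158) (dlOf (nat_lit 1) (nat_lit 0x20028009201)))) 
(.lf (nat_lit 2684355094) (dlOf (nat_lit 1) (nat_lit 0x20028001481)))) (.nd (nat_lit 12) 
(.nd (nat_lit 28) (.lf (nat_lit 6039798550) (dlOf (nat_lit 1) (nat_lit 0x400400020008002102))) 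
(.lf (nat_lit 4160750358) (dlOf (nat_lit 1) (nat_lit 0x20028002101)))) 
(.lf (nat_lit 6039802646) (dlOf (nat_lit 1) (nat_lit 0xe0002003c0008008f82)))))) (.nd (nat_lit 7) 
(.nd (nat_lit 29) (.nd (nat_lit 9) (.nd (nat_lit 27) 
(.lf (nat_lit 5368712214) (dlOf (nat_lit 1) (nat_lit 0x140018005f81))) 
(.lf (nat_lit 5771365398) (dlOf (nat_lit 1) (nat_lit 0x20008005f81)))) 
(.lf (nat_lit 49809942) (dlOf (nat_lit 1) (nat_lit 0x11e00194c5081)))) (.nd (nat_lit 8) 
(.lf (nat_lit 2952797206) (dlOf (nat_lit 1) (nat_lit 0x26000800bf01))) (.nd (nat_lit 9) 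
(.lf (nat_lit 2952797462) (dlOf (nat_lit 1) (nat_lit 0x2001800c601))) 
(.lf (nat_lit 2952793878) (dlOf (nat_lit 1) (nat_lit 0x18008000400200020008007483)))))) 
(.nd (nat_lit 10) (.nd (nat_lit 8) 
(.lf (nat_lit 5368711830) (dlOf (nat_lit 3) (nat_lit 0x20026001201000012020007009800280400004608005000200040008005502))) 
(.nd (nat_lit 19) (.lf (nat_lit 3892316566) (dlOf (nat_lit 1) (nat_lit 0x800400180018004e82))) 
(.lf (nat_lit 5773986198) (dlOf (nat_lit 1) (nat_lit 0x4004006400080e4e82))))) (.nd (nat_lit 9) 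
(.nd (nat_lit 28) (.lf (nat_lit 134220950) (dlOf (nat_lit 1) (nat_lit 0x600018006201))) 
(.lf (nat_lit 2550140054) (dlOf (nat_lit 1) (nat_lit 0x240018006201)))) 
(.lf (nat_lit 1342181014) (dlOf (nat_lit 1) (nat_lit 0x8008000400200020008007203))))))) 
(.nd (nat_lit 19) (.nd (nat_lit 24) (.nd (nat_lit 8) (.nd (nat_lit 28) 
(.lf (nat_lit 3221291030) (dlOf (nat_lit 2) (nat_lit 0x14c08c003cf0200020018090001))) 
(.lf (nat_lit 805371926) (dlOf (nat_lit 1) (nat_lit 0x3c004000e0008090002)))) (.nd (nat_lit 9) 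
(.nd (nat_lit 31) 
(.lf (nat_lit 939589910) (dlOf (nat_lit 3) (nat_lit 0x401f000400d00068000004760c0008048000601a000d0000008b818002800801cc002000e00080b0483))) 
(.lf (nat_lit 3087073558) (dlOf (nat_lit 3) (nat_lit 0x2003e001001b000c00b80030000003a010001403e000a01b000c00b80073818008000801bc002000200080b0483)))) 
(.lf (nat_lit 2952861462) (dlOf (nat_lit 1) (nat_lit 0x10002800a001))))) (.nd (nat_lit 21) 
(.nd (nat_lit 20) (.lf (nat_lit 16842774) (dlOf (nat_lit 1) (nat_lit 0x4002000200088e0002))) 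
(.lf (nat_lit 17891350) (dlOf (nat_lit 1) (nat_lit 0x400400020008900a02)))) (.nd (nat_lit 7) 
(.lf (nat_lit 28377110) (dlOf (nat_lit 1) (nat_lit 0x1f00080120002006a0008d90403))) 
(.lf (nat_lit 19993238) (dlOf (nat_lit 1) (nat_lit 0x18004000e00089d8c82)))))) (.nd (nat_lit 20) 
(.nd (nat_lit 30) (.nd (nat_lit 7) (.nd (nat_lit 22) 
(.lf (nat_lit 805896214) (dlOf (nat_lit 3) (nat_lit 0x2e056000b0098056b410004815802b580400ec004007400181e0902))) 
(.lf (nat_lit 13172758) (dlOf (nat_lit 1) (nat_lit 0x1000400020008700902)))) 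
(.lf (nat_lit 59312534) (dlOf (nat_lit 1) (nat_lit 0x4004000200097e4e82)))) (.nd (nat_lit 22) 
(.nd (nat_lit 27) 
(.lf (nat_lit 3221815318) (dlOf (nat_lit 5) (nat_lit 0x80bc02e8004003405e0173402002604600ad68100030230056b00801a000800b000200180008190903))) 
(.lf (nat_lit 3892903958) (dlOf (nat_lit 1) (nat_lit 0x20008290881)))) 
(.lf (nat_lit 3494445078) (dlOf (nat_lit 5) (nat_lit 0xc00e00359c08002019c0014082000803c00080110000800801a90140014044000401b004e9820001011802d00780000008009400200240008220882))))) 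
(.nd (nat_lit 7) (.nd (nat_lit 9) 
(.lf (nat_lit 3735574) (dlOf (nat_lit 7) (nat_lit 0x1609f800c84b80028206003603e000b484001001f0005a00800984fc006025c0036103001b01f0000602000504fc00a425c0054103002a01f00005c2000584fc00b025c0056103002a01f0000582000584fc00b025c0058103002901f0000542000480080030002003e0008220583))) 
(.lf (nat_lit 1880687126) (dlOf (nat_lit 1) (nat_lit 0x4e0008b37e01)))) (.nd (nat_lit 10) 
(.lf (nat_lit 7932054) (dlOf (nat_lit 1) (nat_lit 0x8008000400200020008514803))) 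
(.lf (nat_lit 7935126) (dlOf (nat_lit 3) (nat_lit 0xa0561004d2af8013a41001a157c009b004001c00400060008519502)))))))) 
(.nd (nat_lit 29) (.nd (nat_lit 8) (.nd (nat_lit 7) (.nd (nat_lit 19) (.nd (nat_lit 16) 
(.lf (nat_lit 471859222) (dlOf (nat_lit 1) (nat_lit 0xcc00400040018540082))) 
(.lf (nat_lit 6509625366) (dlOf (nat_lit 1) (nat_lit 0xe00280b0001)))) (.nd (nat_lit 30) 
(.lf (nat_lit 67633174) (dlOf (nat_lit 1) (nat_lit 0x400282b0681))) 
(.lf (nat_lit 3288858646) (dlOf (nat_lit 1) (nat_lit 0x200080008002000800081c0883))))) 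
(.nd (nat_lit 12) (.nd (nat_lit 28) 
(.lf (nat_lit 3288337558) (dlOf (nat_lit 1) (nat_lit 0x5c0018006201))) 
(.lf (nat_lit 1409289366) (dlOf (nat_lit 1) (nat_lit 0x800200040008006202)))) (.nd (nat_lit 9) 
(.lf (nat_lit 469768342) (dlOf (nat_lit 1) (nat_lit 0x40020002000800a882))) 
(.lf (nat_lit 2617317014) (dlOf (nat_lit 1) (nat_lit 0x8600280a9f01)))))) (.nd (nat_lit 9) 
(.nd (nat_lit 7) (.nd (nat_lit 10) (.nd (nat_lit 12) 
(.lf (nat_lit 2348812566) (dlOf (nat_lit 1) (nat_lit 0x40018004b81))) 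
(.lf (nat_lit 3691059478) (dlOf (nat_lit 1) (nat_lit 0x6001800ab01)))) 
(.lf (nat_lit 469769494) (dlOf (nat_lit 1) (nat_lit 0x40040002000800c602)))) (.nd (nat_lit 11) 
(.lf (nat_lit 5435884950) (dlOf (nat_lit 1) (nat_lit 0x800200020008003602))) 
(.lf (nat_lit 2483031446) (dlOf (nat_lit 1) (nat_lit 0x20028006d01))))) (.nd (nat_lit 12) 
(.nd (nat_lit 16) 
(.lf (nat_lit 3422552854) (dlOf (nat_lit 1) (nat_lit 0x28008002c00200140008002103))) 
(.lf (nat_lit 2617312022) (dlOf (nat_lit 1) (nat_lit 0x4004000200080a2102)))) (.nd (nat_lit 7) 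
(.lf (nat_lit 6643782422) (dlOf (nat_lit 1) (nat_lit 0x20018008f81))) 
(.lf (nat_lit 2617316246) (dlOf (nat_lit 1) (nat_lit 0x120004002c00080a9082))))))) 
(.nd (nat_lit 10) (.nd (nat_lit 27) (.nd (nat_lit 28) (.nd (nat_lit 22) 
(.lf (nat_lit 1678311446) (dlOf (nat_lit 3) (nat_lit 0x2e056000b009805c5010004815802e260400ec004007400181e0902))) 
(.lf (nat_lit 2756247574) (dlOf (nat_lit 5) (nat_lit 0x403380028104001007800100220001001001f3428006007000f7c040014044000401b0021e020001011802d00780000008009400200240008220882)))) 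
(.nd (nat_lit 8) (.lf (nat_lit 1946681366) (dlOf (nat_lit 1) (nat_lit 0x200281b0001))) 
(.lf (nat_lit 5167450902) (dlOf (nat_lit 2) (nat_lit 0x34050000140200060008055b81))))) 
(.nd (nat_lit 8) (.nd (nat_lit 9) (.nd (nat_lit 16) 
(.lf (nat_lit 738721814) (dlOf (nat_lit 2) (nat_lit 0xd01900020070019d80800c0004002800080f0a02))) 
(.lf (nat_lit 3960012822) (dlOf (nat_lit 5) (nat_lit 0x9811802e2804000c08c0171302000202f00af101000d0178057580801a000800b000200180008190903)))) 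
(.lf (nat_lit 1812005398) (dlOf (nat_lit 1) (nat_lit 0x100080008002000400080b0d83)))) 
(.nd (nat_lit 7) 
(.lf (nat_lit 1812005142) (dlOf (nat_lit 1) (nat_lit 0x180080024002000800080b0483))) 
(.lf (nat_lit 6376982934) (dlOf (nat_lit 1) (nat_lit 0x8008000800200880008094e83)))))) 
(.nd (nat_lit 12) (.nd (nat_lit 9) (.nd (nat_lit 11) 
(.lf (nat_lit 2751530006) (dlOf (nat_lit 1) (nat_lit 0x880080004002000e0008002883))) 
(.lf (nat_lit 5301603350) (dlOf (nat_lit 1) (nat_lit 0x8008000c00200020008005f83)))) 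
(.nd (nat_lit 7) (.lf (nat_lit 603983638) (dlOf (nat_lit 1) (nat_lit 0x8008000c00200020008007483))) 
(.lf (nat_lit 4227862166) (dlOf (nat_lit 1) (nat_lit 0x400400020008007202))))) (.nd (nat_lit 27) 
(.nd (nat_lit 11) (.lf (nat_lit 603984918) (dlOf (nat_lit 1) (nat_lit 0x20028009201))) 
(.lf (nat_lit 603986966) (dlOf (nat_lit 1) (nat_lit 0x6000800bf01)))) (.nd (nat_lit 7) 
(.lf (nat_lit 1006640662) (dlOf (nat_lit 1) (nat_lit 0xa002800ce81))) 
(.lf (nat_lit 2885688726) (dlOf (nat_lit 2) (nat_lit 0x20020001680800280080014002000c000800ca03))))))))) 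
(.nd (nat_lit 28) (.nd (nat_lit 16) (.nd (nat_lit 8) (.nd (nat_lit 26) (.nd (nat_lit 22) 
(.nd (nat_lit 27) (.nd (nat_lit 7) 
(.lf (nat_lit 537133078) (dlOf (nat_lit 5) (nat_lit 0x248150017aa0400700a800bd202001a0210006b81001602a000000080060008002000200040008020483))) 
(.lf (nat_lit 1074004118) (dlOf (nat_lit 1) (nat_lit 0xa0028090181)))) (.nd (nat_lit 19) 
(.nd (nat_lit 29) 
(.lf (nat_lit 134479894) (dlOf (nat_lit 4) (nat_lit 0x2c017800fdc0801a00bc007c404011005e003e10200020028030881))) 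
(.lf (nat_lit 671350806) (dlOf (nat_lit 3) (nat_lit 0x30017002c340800080b80161204000400400020008160482)))) 
(.lf (nat_lit 2819358742) (dlOf (nat_lit 29) (nat_lit 0x30c037809080d000a42080ad00de00300340029002026f037803380d000a3e08004c0de0041902001806f0020c010065037800080d0008180800d00de0040702002e06f002010102b6037800ffc0812501bc007f20407cc0de003f002050a06f004101a000fb81015f01bc007d6040af40de003dc02057006f001e01a000f6c1015e81bc007b40403180de0096034001ec8202be037800c00d0007b008098c0de003d702006806f000db010181037803400d00035e080a7c0de0018d02011806f000c501029e037804380d0002dc0804840de0016802001e021000070100050108000300802101c804fc0de003a03f003b01a000000200068008005800200100008250483))))) 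
(.nd (nat_lit 10) (.nd (nat_lit 20) 
(.lf (nat_lit 63176726) (dlOf (nat_lit 1) (nat_lit 0x500080004002000400099f0583))) 
(.lf (nat_lit 24379414) (dlOf (nat_lit 1) (nat_lit 0x28004000c0018b90882)))) 
(.lf (nat_lit 40109078) (dlOf (nat_lit 1) (nat_lit 0x4004000200091f2882))))) (.nd (nat_lit 29) 
(.nd (nat_lit 7) (.nd (nat_lit 27) 
(.lf (nat_lit 1141112854) (dlOf (nat_lit 1) (nat_lit 0x200080010002000800080f0a03))) 
(.lf (nat_lit 201588758) (dlOf (nat_lit 4) (nat_lit 0x2c0178026440801a00bc012f804011005e0097b0200020028030881)))) 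
(.lf (nat_lit 3288596630) (dlOf (nat_lit 1) (nat_lit 0x3400400020008090182)))) (.nd (nat_lit 19) 
(.lf (nat_lit 3825467414) (dlOf (nat_lit 3) (nat_lit 0x14024002bd0100020120015d0080028008013000200200008160483))) 
(.lf (nat_lit 2754347030) (dlOf (nat_lit 3) (nat_lit 0x1880000378804036c01a01b4e02000600180d0881)))))) 
(.nd (nat_lit 7) (.nd (nat_lit 20) (.nd (nat_lit 9) 
(.lf (nat_lit 61605142) (dlOf (nat_lit 1) (nat_lit 0x20029923081))) 
(.lf (nat_lit 2818838294) (dlOf (nat_lit 1) (nat_lit 0x800802cc00200b00008127483)))) 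
(.nd (nat_lit 21) (.lf (nat_lit 43779350) (dlOf (nat_lit 1) (nat_lit 0x200092a3081))) 
(.lf (nat_lit 8127766) (dlOf (nat_lit 1) (nat_lit 0x160018513081))))) (.nd (nat_lit 9) 
(.nd (nat_lit 19) (.lf (nat_lit 45353366) (dlOf (nat_lit 1) (nat_lit 0x400400020009324e82))) 
(.lf (nat_lit 37489046) (dlOf (nat_lit 1) (nat_lit 0x200090d4e81)))) 
(.lf (nat_lit 5570300822) (dlOf (nat_lit 1) (nat_lit 0x1600080d5c81)))))) (.nd (nat_lit 22) 
(.nd (nat_lit 19) (.nd (nat_lit 20) (.nd (nat_lit 26) 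
(.lf (nat_lit 3355770902) (dlOf (nat_lit 3) (nat_lit 0x201780009c0800480bc0004c04005c00400220008110302))) 
(.lf (nat_lit 2349137942) (dlOf (nat_lit 4) (nat_lit 0x1005001bcb02006a02800de2010064014006d380800280080010002001400080d0883)))) 
(.nd (nat_lit 21) (.lf (nat_lit 68485142) (dlOf (nat_lit 1) (nat_lit 0x400400020008580882))) 
(.lf (nat_lit 62193686) (dlOf (nat_lit 1) (nat_lit 0x4004000e0009970302))))) (.nd (nat_lit 7) 
(.nd (nat_lit 20) 
(.lf (nat_lit 2819424278) (dlOf (nat_lit 2) (nat_lit 0xe0390000b40800e800800b4002003a0008280403))) 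
(.lf (nat_lit 18677782) (dlOf (nat_lit 1) (nat_lit 0x68008000400200020008960403)))) 
(.lf (nat_lit 20777622) (dlOf (nat_lit 1) (nat_lit 0x8002000200089d5502))))) (.nd (nat_lit 21) 
(.nd (nat_lit 19) (.nd (nat_lit 7) 
(.lf (nat_lit 22347798) (dlOf (nat_lit 1) (nat_lit 0xc00200040008ac0102))) 
(.lf (nat_lit 54856598) (dlOf (nat_lit 2) (nat_lit 0x792c00007e04001000200040009655c82)))) 
(.nd (nat_lit 10) 
(.lf (nat_lit 21823510) (dlOf (nat_lit 2) (nat_lit 0x13c8b0017700802100080070002007c0008a70483))) 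
(.lf (nat_lit 56427542) (dlOf (nat_lit 1) (nat_lit 0x400200020009732882))))) (.nd (nat_lit 23) 
(.nd (nat_lit 9) 
(.lf (nat_lit 24444950) (dlOf (nat_lit 8) (nat_lit 0x42d28002368d0013afe0005a41800cda50001ed1a00115fc000b4030013b4a00045a34002ce08004ad28001768d0008afe0000601800a5a500006bf8000170400236940007b46800557f00002c0c003ed28001168d000aafe000054180100008006800200100008ba0583))) 
(.lf (nat_lit 57999894) (dlOf (nat_lit 1) (nat_lit 0x80080004002000200097a8703)))) 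
(.nd (nat_lit 20) (.lf (nat_lit 15007766) (dlOf (nat_lit 1) (nat_lit 0x20004006000087a0482))) 
(.lf (nat_lit 16056342) (dlOf (nat_lit 2) (nat_lit 0x9f5c0008e660005904006c0028860401)))))))) 
(.nd (nat_lit 26) (.nd (nat_lit 29) (.nd (nat_lit 16) (.nd (nat_lit 7) (.nd (nat_lit 19) 
(.lf (nat_lit 3494117398) (dlOf (nat_lit 10) (nat_lit 0xf00500002022004b000801a4506000c08800d218102de03d8069040811381ec0347e0400a80f6019ff02013c07b00cef81025803d806770080d581ec033b40402200f60000002015e00281b0001))) 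
(.lf (nat_lit 3492544534) (dlOf (nat_lit 3) (nat_lit 0x1880000309604036c01a017e202000600180d0881)))) 
(.lf (nat_lit 4697883030) (dlOf (nat_lit 1) (nat_lit 0x2800280c6481)))) (.nd (nat_lit 7) 
(.nd (nat_lit 19) (.lf (nat_lit 1476722710) (dlOf (nat_lit 1) (nat_lit 0x400400020008150482))) 
(.lf (nat_lit 3491561494) (dlOf (nat_lit 1) (nat_lit 0x180028090001)))) 
(.lf (nat_lit 5637472662) (dlOf (nat_lit 1) (nat_lit 0x1200180f6481))))) (.nd (nat_lit 30) 
(.nd (nat_lit 10) (.nd (nat_lit 27) 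
(.lf (nat_lit 2953052182) (dlOf (nat_lit 1) (nat_lit 0x34002001c00080e0402))) 
(.lf (nat_lit 3087269910) (dlOf (nat_lit 3) (nat_lit 0x1402400586810002012002c24080028008013000200200008160483)))) 
(.lf (nat_lit 5100538902) (dlOf (nat_lit 1) (nat_lit 0x128002000e00080d5f82)))) (.nd (nat_lit 7) 
(.nd (nat_lit 19) 
(.lf (nat_lit 2013528086) (dlOf (nat_lit 1) (nat_lit 0x200080010002000800080f0a03))) 
(.lf (nat_lit 1879834646) (dlOf (nat_lit 1) (nat_lit 0x20028390a01)))) (.nd (nat_lit 8) 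
(.lf (nat_lit 4026794134) (dlOf (nat_lit 1) (nat_lit 0x3400400020008090182))) 
(.lf (nat_lit 6174279062) (dlOf (nat_lit 1) (nat_lit 0x300080074002000e00080d3603))))))) 
(.nd (nat_lit 7) (.nd (nat_lit 31) (.nd (nat_lit 20) (.nd (nat_lit 27) 
(.lf (nat_lit 1409548310) (dlOf (nat_lit 5) (nat_lit 0x24815000c800400700a80063d02001a021000b401001602a000000080060008002000200040008020483))) 
(.lf (nat_lit 1543766038) (dlOf (nat_lit 3) (nat_lit 0x300170015e80800080b800ae804000400400020008160482)))) 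
(.lf (nat_lit 471072790) (dlOf (nat_lit 3) (nat_lit 0xd0120001700800980000004804008c00200060008260402)))) 
(.nd (nat_lit 16) 
(.lf (nat_lit 3557556246) (dlOf (nat_lit 2) (nat_lit 0x2740e4000a061000601c0000b4180058008007800200300008260403))) 
(.nd (nat_lit 19) 
(.lf (nat_lit 2483355670) (dlOf (nat_lit 4) (nat_lit 0x100500185202006a02800c25810064014005f880800280080010002001400080d0883))) 
(.lf (nat_lit 4096589846) (dlOf (nat_lit 1) (nat_lit 0x10008000800200040008130303)))))) 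
(.nd (nat_lit 29) (.nd (nat_lit 9) 
(.lf (nat_lit 335806614) (dlOf (nat_lit 1) (nat_lit 0x200280a2a81))) 
(.lf (nat_lit 3557036694) (dlOf (nat_lit 1) (nat_lit 0x8008000800200040008128c83)))) 
(.nd (nat_lit 16) (.lf (nat_lit 1946419350) (dlOf (nat_lit 1) (nat_lit 0xa0028090181))) 
(.lf (nat_lit 6241452182) (dlOf (nat_lit 1) (nat_lit 0x200280f1101))))))))) (.nd (nat_lit 18) 
(.nd (nat_lit 19) (.nd (nat_lit 16) (.nd (nat_lit 27) (.nd (nat_lit 21) (.nd (nat_lit 26) 
(.nd (nat_lit 23) (.nd (nat_lit 31) 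
(.lf (nat_lit 4563533846) (dlOf (nat_lit 1) (nat_lit 0x270008000c00200060008090003))) 
(.lf (nat_lit 2416050198) (dlOf (nat_lit 1) (nat_lit 0x7800800c400200720008020483)))) 
(.nd (nat_lit 22) (.lf (nat_lit 25296918) (dlOf (nat_lit 1) (nat_lit 0x54004004c0008bf0882))) 
(.lf (nat_lit 63045654) (dlOf (nat_lit 1) (nat_lit 0x24002001c00099c0082))))) (.nd (nat_lit 7) 
(.lf (nat_lit 1140981782) (dlOf (nat_lit 1) (nat_lit 0x4002000a0008040002))) (.nd (nat_lit 10) 
(.lf (nat_lit 2483159190) (dlOf (nat_lit 1) (nat_lit 0x400400020008044002))) 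
(.lf (nat_lit 3825339542) (dlOf (nat_lit 2) (nat_lit 0x8000000040200020018146201)))))) 
(.nd (nat_lit 22) (.nd (nat_lit 7) 
(.lf (nat_lit 10616854) (dlOf (nat_lit 4) (nat_lit 0x88cdc004464300222e2001116f400889f600164fa00221eb00110f3c010c0000004a12001666e0020328000498a800589fc00303cf003c00000010430007073000076040038002009a0008600102))) 
(.lf (nat_lit 20058774) (dlOf (nat_lit 1) (nat_lit 0x80080004002000200089d8c83)))) 
(.nd (nat_lit 23) (.lf (nat_lit 24248342) (dlOf (nat_lit 1) (nat_lit 0x26400400960018b90882))) 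
(.lf (nat_lit 15859734) (dlOf (nat_lit 1) (nat_lit 0x8008000800200020008840483)))))) 
(.nd (nat_lit 28) (.nd (nat_lit 7) (.nd (nat_lit 9) (.nd (nat_lit 29) 
(.lf (nat_lit 3355574294) (dlOf (nat_lit 2) (nat_lit 0xe02f009278180a0000))) 
(.lf (nat_lit 6039928854) (dlOf (nat_lit 1) (nat_lit 0xe0008050501)))) 
(.lf (nat_lit 3355574806) (dlOf (nat_lit 2) (nat_lit 0x9017000338080388008007400200b800080a1483)))) 
(.lf (nat_lit 2348941462) (dlOf (nat_lit 1) (nat_lit 0x400400020008044002)))) (.nd (nat_lit 8) 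
(.nd (nat_lit 29) 
(.lf (nat_lit 2550267926) (dlOf (nat_lit 1) (nat_lit 0x7800800c400200720008020483))) 
(.lf (nat_lit 2013397014) (dlOf (nat_lit 1) (nat_lit 0x1c002001c0008040002)))) (.nd (nat_lit 7) 
(.lf (nat_lit 469899542) (dlOf (nat_lit 1) (nat_lit 0x4001800ab01))) 
(.lf (nat_lit 473041302) (dlOf (nat_lit 1) (nat_lit 0x400400020008c34e82))))))) (.nd (nat_lit 8) 
(.nd (nat_lit 10) (.nd (nat_lit 29) (.nd (nat_lit 21) 
(.lf (nat_lit 5704450070) (dlOf (nat_lit 2) (nat_lit 0xb00180065d818080000))) 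
(.lf (nat_lit 23265302) (dlOf (nat_lit 1) (nat_lit 0x180018b70501)))) (.nd (nat_lit 27) 
(.lf (nat_lit 2952986646) (dlOf (nat_lit 1) (nat_lit 0x20028080481))) 
(.lf (nat_lit 6308429846) (dlOf (nat_lit 3) (nat_lit 0x900180038901004700c001bf4080058008001000200240008080003))))) 
(.nd (nat_lit 7) (.nd (nat_lit 11) 
(.lf (nat_lit 3493004310) (dlOf (nat_lit 1) (nat_lit 0x80080004002000200080f2883))) 
(.lf (nat_lit 6241324054) (dlOf (nat_lit 1) (nat_lit 0x108002002600080d5f82)))) (.nd (nat_lit 9) 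
(.lf (nat_lit 43189398) (dlOf (nat_lit 1) (nat_lit 0xa00292a2b81))) 
(.lf (nat_lit 6509760150) (dlOf (nat_lit 1) (nat_lit 0x400200020008147202)))))) (.nd (nat_lit 26) 
(.nd (nat_lit 7) (.nd (nat_lit 9) 
(.lf (nat_lit 5368907030) (dlOf (nat_lit 1) (nat_lit 0x400400020008093082))) 
(.lf (nat_lit 2818772758) (dlOf (nat_lit 1) (nat_lit 0x8008000400200020008127483)))) 
(.nd (nat_lit 27) 
(.lf (nat_lit 1610810774) (dlOf (nat_lit 2) (nat_lit 0x302a800714080030008001400200020008093603))) 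
(.lf (nat_lit 2013463958) (dlOf (nat_lit 4) (nat_lit 0x3404c001e60201dc026000e681000801300072c080030008001000200120008093603))))) 
(.nd (nat_lit 9) (.nd (nat_lit 7) 
(.lf (nat_lit 5033362710) (dlOf (nat_lit 1) (nat_lit 0x20028093081))) 
(.lf (nat_lit 3556972950) (dlOf (nat_lit 1) (nat_lit 0x280080030002001a000812af83)))) 
(.nd (nat_lit 10) 
(.lf (nat_lit 1141050262) (dlOf (nat_lit 1) (nat_lit 0x8008000400200020008095c83))) 
(.lf (nat_lit 2751661974) (dlOf (nat_lit 1) (nat_lit 0x20018004201)))))))) (.nd (nat_lit 21) 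
(.nd (nat_lit 29) (.nd (nat_lit 20) (.nd (nat_lit 16) (.nd (nat_lit 26) 
(.lf (nat_lit 1342832662) (dlOf (nat_lit 10) (nat_lit 0x622f000e1130007883800183460016908000222f00261130013083800703460016808000c22f00231130010083800703460016708002e23c004811b800305cc0028a0c001c486008023700130b980033c1800188bc004c44c002220e00080d18000602000088bc009444c004c20e001d0d180005c2000288bc008844c004420e001b0d18000582000388bc008c44c004620e001b0d18000542001600080054002000600080e0583))) 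
(.lf (nat_lit 67764246) (dlOf (nat_lit 1) (nat_lit 0x400082e0881)))) (.nd (nat_lit 22) 
(.lf (nat_lit 1410007062) (dlOf (nat_lit 1) (nat_lit 0x22000801b0002017c00080c0a83))) 
(.lf (nat_lit 21692438) (dlOf (nat_lit 1) (nat_lit 0x48008001000200120008a60a03))))) 
(.nd (nat_lit 23) (.nd (nat_lit 22) 
(.lf (nat_lit 1703958) (dlOf (nat_lit 1) (nat_lit 0x8008004c00200020008120603))) 
(.lf (nat_lit 22675478) (dlOf (nat_lit 3) (nat_lit 0x116a5805494080096f10004d604013400400260018b10502)))) 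
(.nd (nat_lit 7) (.nd (nat_lit 10) 
(.lf (nat_lit 31064086) (dlOf (nat_lit 1) (nat_lit 0x400200020008e60a82))) 
(.lf (nat_lit 47842326) (dlOf (nat_lit 1) (nat_lit 0x20009402881)))) 
(.lf (nat_lit 14352534) (dlOf (nat_lit 1) (nat_lit 0x18008000400200020008750283)))))) 
(.nd (nat_lit 26) (.nd (nat_lit 16) (.nd (nat_lit 27) 
(.lf (nat_lit 805961750) (dlOf (nat_lit 5) (nat_lit 0x1a02b0066700800f81580333204005c0ac019980200a801300000018200a80))) 
(.lf (nat_lit 2819227670) (dlOf (nat_lit 1) (nat_lit 0x200281f0401)))) 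
(.lf (nat_lit 537591830) (dlOf (nat_lit 1) (nat_lit 0x22000801b0002017c00080c0a83)))) 
(.nd (nat_lit 27) 
(.lf (nat_lit 1678376982) (dlOf (nat_lit 5) (nat_lit 0x1a02b0073fc0800f8158039fc04005c0ac01cfd0200a801300000018200a80))) 
(.nd (nat_lit 31) 
(.lf (nat_lit 1007288342) (dlOf (nat_lit 1) (nat_lit 0x80080004002000200082e0003))) 
(.lf (nat_lit 3154771990) (dlOf (nat_lit 1) (nat_lit 0x5000400280008320882))))))) (.nd (nat_lit 16) 
(.nd (nat_lit 20) (.nd (nat_lit 7) (.nd (nat_lit 23) 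
(.lf (nat_lit 19529750) (dlOf (nat_lit 1) (nat_lit 0x180080004002000e00089b0503))) 
(.lf (nat_lit 27918358) (dlOf (nat_lit 1) (nat_lit 0x18008003000200280008d40403)))) 
(.lf (nat_lit 23724438) (dlOf (nat_lit 1) (nat_lit 0x260028b80781)))) (.nd (nat_lit 7) 
(.nd (nat_lit 26) 
(.lf (nat_lit 3493462038) (dlOf (nat_lit 14) (nat_lit 0x5e03300428178020c0b800e4059003802b802d8100002405e001202d009c011004e8074003fe2801b40cc003805c000902b80150100007405e00aa02d00bb01100060074003fc2001e00cc014e05e00a102e0038816400900ae00f2040001c017800e00b40004050000802600a901100578074003fa3001440cc008605c003302b800580bc002405a00e6022000fe06006a033004a017802440b800e0059003002b80348100003805e001c02d0056011002b0074003f42802040cc011405e008502e003d816401b80ae00ee0400009017800d00b4014004400a401d000fc8a007c0330050817802880b800e2059007302b803e8100003805e001c02d0002013002e8088017003a001f81600d2066000202e005f00b4001004c01ac022004800e8007dc30044819801f00bc00fa05c007c02c802d015c01e8080001002f0009016800600980248044011601d001200d8007d46000500b4003dc040050080004602f002401680008098000c036001e70a003e02f0014016800380a0003cc0c000c048000000200340028140a81)))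 
(.lf (nat_lit 2755264534) (dlOf (nat_lit 14) (nat_lit 0x5e03300428178020c0b800e4059003802b802d8100002405e001202d009c011004e8074003da2801b40cc003805c000902b80150100007405e00aa02d00bb01100060074003d82001e00cc014e05e00a102e0038816400900ae00f2040001c017800e00b40004050000802600a901100578074003d63001440cc008605c003302b800580bc002405a00e6022000f506006a033004a017802440b800e0059003002b80348100003805e001c02d0056011002b0074003d02802040cc011405e008502e003d816401b80ae00ee0400009017800d00b4014004400a401d000f38a007c0330050817802880b800e2059007302b803e8100003805e001c02d0002013002e8088017003a001e61600d2066000202e005f00b4001004c01ac022004800e80079430044819801f00bc00fa05c007c02c802d015c01e8080001002f0009016800600980248044011601d001200d80078c6000500b4003b2040050080004602f002401680008098000c036001d20a003e02f0014016800380a0003a20c000c048000000200340028140a81)))) 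
(.lf (nat_lit 8000662) (dlOf (nat_lit 3) (nat_lit 0xd8792004e90200029650026c018519500))))) 
(.nd (nat_lit 20) (.nd (nat_lit 23) (.nd (nat_lit 26) 
(.lf (nat_lit 3492478998) (dlOf (nat_lit 2) (nat_lit 0x800d00bf10180d0880))) 
(.lf (nat_lit 2754281494) (dlOf (nat_lit 2) (nat_lit 0x800d00da70180d0880)))) (.nd (nat_lit 22) 
(.lf (nat_lit 27983894) (dlOf (nat_lit 1) (nat_lit 0x400400020008d50482))) 
(.lf (nat_lit 32178198) (dlOf (nat_lit 1) (nat_lit 0x1c0028ef0001))))) (.nd (nat_lit 9) 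
(.nd (nat_lit 11) (.lf (nat_lit 1346044950) (dlOf (nat_lit 1) (nat_lit 0x1400400080008e22882))) 
(.lf (nat_lit 54201366) (dlOf (nat_lit 1) (nat_lit 0x16000400100009655f82)))) 
(.lf (nat_lit 473629206) (dlOf (nat_lit 4) (nat_lit 0x542320018118000f882001608c8005d00800504640000004015400400180018f68702)))))))) 
(.nd (nat_lit 16) (.nd (nat_lit 31) (.nd (nat_lit 21) (.nd (nat_lit 29) (.nd (nat_lit 22) 
(.nd (nat_lit 20) 
(.lf (nat_lit 4698013718) (dlOf (nat_lit 2) (nat_lit 0x1a01980001008021800800e0002001800080e0303))) 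
(.lf (nat_lit 9830422) (dlOf (nat_lit 1) (nat_lit 0x800400020008580002)))) (.nd (nat_lit 10) 
(.lf (nat_lit 55967766) (dlOf (nat_lit 1) (nat_lit 0x50008000400200040009700583))) 
(.lf (nat_lit 56493078) (dlOf (nat_lit 1) (nat_lit 0x400200020009732882))))) (.nd (nat_lit 26) 
(.nd (nat_lit 28) 
(.lf (nat_lit 1611005974) (dlOf (nat_lit 6) (nat_lit 0x4280a4005003400020100008d018001819000c40a40023204002c05200118810008032009c014800140a0006e0340020010000b006c0104010002300e000e064000202b80a7814800100a0001004b002c01a0002808000180360022f10002200180b0081))) 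
(.lf (nat_lit 805699606) (dlOf (nat_lit 1) (nat_lit 0xa0004004c0008190502)))) (.nd (nat_lit 27) 
(.lf (nat_lit 1678114838) (dlOf (nat_lit 1) (nat_lit 0xa0004004c0008190502))) 
(.lf (nat_lit 738590742) (dlOf (nat_lit 6) (nat_lit 0x4280a40050034000201000093018001819000c40a40024a04002c05200124810008032009c014800140a0006e0340020010000b006c0104010002480e000e064000202b80a7814800100a0001004b002c01a0002808000180360024710002200180b0081)))))) 
(.nd (nat_lit 7) (.nd (nat_lit 22) (.nd (nat_lit 20) 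
(.lf (nat_lit 61210646) (dlOf (nat_lit 1) (nat_lit 0x180080004002000a00098e0083))) 
(.lf (nat_lit 62259222) (dlOf (nat_lit 1) (nat_lit 0x400400020009990102)))) (.nd (nat_lit 19) 
(.lf (nat_lit 32899094) (dlOf (nat_lit 1) (nat_lit 0x400400020008f40582))) 
(.lf (nat_lit 16646166) (dlOf (nat_lit 1) (nat_lit 0x4004000200088c0682))))) (.nd (nat_lit 11) 
(.nd (nat_lit 9) (.lf (nat_lit 1009124502) (dlOf (nat_lit 2) (nat_lit 0x60e100044019082b80))) 
(.lf (nat_lit 19796630) (dlOf (nat_lit 1) (nat_lit 0x80080004002000200089d8c83)))) (.nd (nat_lit 8) 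
(.lf (nat_lit 19794582) (dlOf (nat_lit 2) (nat_lit 0x7379800016040004002000200089d5502))) 
(.lf (nat_lit 19794838) (dlOf (nat_lit 1) (nat_lit 0x2c004000800189d5c82))))))) (.nd (nat_lit 28) 
(.nd (nat_lit 26) (.nd (nat_lit 19) (.nd (nat_lit 27) 
(.lf (nat_lit 3221618710) (dlOf (nat_lit 1) (nat_lit 0x8c004000c0008160502))) 
(.lf (nat_lit 3355836438) (dlOf (nat_lit 8) (nat_lit 0xd00300011e01001100c0008dc0801e00c000466040030058002320200a80300011881000f0170007480800300b8003a204003000400060018120482)))) 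
(.lf (nat_lit 2819489814) (dlOf (nat_lit 1) (nat_lit 0x17000801d0002000800082b0403)))) 
(.nd (nat_lit 27) 
(.lf (nat_lit 3288727574) (dlOf (nat_lit 9) (nat_lit 0x1380d80342c04001406c01a0b02004c03600d50190068241001200c8033c80400a006a0185202000e01f00c2581003d01a800c007c02fc408021406c00440340088019001400c000000100010004001c00180d0882))) 
(.nd (nat_lit 29) (.lf (nat_lit 2349203478) (dlOf (nat_lit 1) (nat_lit 0x200281b0001))) 
(.lf (nat_lit 3959816214) (dlOf (nat_lit 1) (nat_lit 0x8c004000c0008160502)))))) (.nd (nat_lit 26) 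
(.nd (nat_lit 30) (.nd (nat_lit 27) 
(.lf (nat_lit 2416312342) (dlOf (nat_lit 6) (nat_lit 0x7012006f100801b0090008c040006400400ddf0300080128018809000a403801b4017015a002000700000369c18005404801b4902010c02000b7002000000100180008000c002001200080d0883))) 
(.lf (nat_lit 2550530070) (dlOf (nat_lit 6) (nat_lit 0x701300612c0801b0098008c040006400400c228300080138018809800a403a01b4017015a0020007000002fc418005404c017df02010c02000b7002000000100180008000c002001200080d0883)))) 
(.nd (nat_lit 22) 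
(.lf (nat_lit 4026925078) (dlOf (nat_lit 9) (nat_lit 0x1380d803b0804001406c01d7202004c03600d50190075c01001200c803a9c0400a006a01bcb02000e01f00de201003d01a800c007c0369c08021406c00440340088019001400c000000100010004001c00180d0882))) 
(.lf (nat_lit 3494248470) (dlOf (nat_lit 1) (nat_lit 0x28008000c002006000081e0303))))) 
(.nd (nat_lit 7) 
(.lf (nat_lit 3557687318) (dlOf (nat_lit 1) (nat_lit 0x17000801d0002000800082b0403))) 
(.lf (nat_lit 4095085206) (dlOf (nat_lit 1) (nat_lit 0x8008001400200020008055503))))))) 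
(.nd (nat_lit 21) (.nd (nat_lit 22) (.nd (nat_lit 27) (.nd (nat_lit 30) (.nd (nat_lit 7) 
(.lf (nat_lit 18284566) (dlOf (nat_lit 1) (nat_lit 0x20018920501))) 
(.lf (nat_lit 8852630) (dlOf (nat_lit 2) (nat_lit 0x9a56100274818519500)))) (.nd (nat_lit 26) 
(.lf (nat_lit 1074200598) (dlOf (nat_lit 1) (nat_lit 0x200280d0881))) 
(.lf (nat_lit 1946615830) (dlOf (nat_lit 1) (nat_lit 0x200280d0881))))) (.nd (nat_lit 26) 
(.nd (nat_lit 7) (.nd (nat_lit 28) 
(.lf (nat_lit 134676502) (dlOf (nat_lit 2) (nat_lit 0x10208037b00800c800800a400200580008090003))) 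
(.lf (nat_lit 3624337430) (dlOf (nat_lit 3) (nat_lit 0x13c03a0057a02000202a000300e8015d01000d000800d4002001e0008160483)))) 
(.lf (nat_lit 1745291670) (dlOf (nat_lit 1) (nat_lit 0x2c004000400080e4e82)))) (.nd (nat_lit 28) 
(.lf (nat_lit 2886139926) (dlOf (nat_lit 3) (nat_lit 0x13c03800b0d020002029000300e002c241000d000800d4002001e0008160483))) 
(.lf (nat_lit 4228317206) (dlOf (nat_lit 1) (nat_lit 0x8008000400200020008090003)))))) 
(.nd (nat_lit 20) (.nd (nat_lit 7) 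
(.lf (nat_lit 13565974) (dlOf (nat_lit 2) (nat_lit 0x1905a201b4e02000c0008730881))) 
(.lf (nat_lit 54984854) (dlOf (nat_lit 2) (nat_lit 0x929c0002404000400400040009681102)))) 
(.nd (nat_lit 23) (.nd (nat_lit 25) 
(.lf (nat_lit 22478870) (dlOf (nat_lit 1) (nat_lit 0x10008003400200300008ae0483))) 
(.lf (nat_lit 56033302) (dlOf (nat_lit 1) (nat_lit 0x24002001c0009710082)))) 
(.lf (nat_lit 30867478) (dlOf (nat_lit 1) (nat_lit 0x2800400080008e50a02)))))) (.nd (nat_lit 23) 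
(.nd (nat_lit 19) (.nd (nat_lit 25) (.nd (nat_lit 26) 
(.lf (nat_lit 3492216854) (dlOf (nat_lit 6) (nat_lit 0x807a80323a0400303d40191c0200521e700ad68100010f40051c40800387a0028d204014c00400f200180b0902))) 
(.lf (nat_lit 2754019350) (dlOf (nat_lit 6) (nat_lit 0x807f0038d40400303f801c690200521f900b8a0100010fd0051500800387e80289804014c00400f200180b0902)))) 
(.lf (nat_lit 36110358) (dlOf (nat_lit 1) (nat_lit 0x400200020009020502)))) (.nd (nat_lit 7) 
(.lf (nat_lit 19862550) (dlOf (nat_lit 1) (nat_lit 0x200089d9201))) 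
(.lf (nat_lit 3492743318) (dlOf (nat_lit 2) (nat_lit 0x80348003809000064080010002000400080f4802))))) 
(.nd (nat_lit 20) (.nd (nat_lit 19) 
(.lf (nat_lit 61276182) (dlOf (nat_lit 1) (nat_lit 0x18008001000200060009900083))) 
(.lf (nat_lit 15663126) (dlOf (nat_lit 2) (nat_lit 0x5274000090080020008002c002000c0008810403)))) 
(.nd (nat_lit 7) (.lf (nat_lit 16187414) (dlOf (nat_lit 1) (nat_lit 0x200018870481))) 
(.lf (nat_lit 11993238) (dlOf (nat_lit 1) (nat_lit 0x600286c0181)))))))))) (.nd (nat_lit 16) 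
(.nd (nat_lit 18) (.nd (nat_lit 28) (.nd (nat_lit 26) (.nd (nat_lit 7) (.nd (nat_lit 17) 
(.nd (nat_lit 8) (.nd (nat_lit 11) (.nd (nat_lit 19) 
(.lf (nat_lit 12582966) (dlOf (nat_lit 1) (nat_lit 0x80080004002000200086d0a83))) 
(.lf (nat_lit 134742070) (dlOf (nat_lit 2) (nat_lit 0x203b0002d0180a0b80)))) 
(.lf (nat_lit 6198) (dlOf (nat_lit 1) (nat_lit 0x40040002001800a602)))) (.nd (nat_lit 9) 
(.lf (nat_lit 1073744182) (dlOf (nat_lit 1) (nat_lit 0x180028004c01))) 
(.lf (nat_lit 5368711990) (dlOf (nat_lit 1) (nat_lit 0x2ec00401a20008005c02))))) (.nd (nat_lit 8) 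
(.nd (nat_lit 19) (.nd (nat_lit 21) 
(.lf (nat_lit 25296950) (dlOf (nat_lit 3) (nat_lit 0x5916000e6810001c380006cc0800480080004002003c0008bf0b83))) 
(.lf (nat_lit 10616886) (dlOf (nat_lit 3) (nat_lit 0x98730000c3760005604001a650000127f0000b4100140008002000200300008600683)))) 
(.lf (nat_lit 21626934) (dlOf (nat_lit 9) (nat_lit 0x27b540013da80033f020006ed5000376a00013b480067d06000bdaa0001ed40019f010003f6a00017b480067b04002bdaa000ded40016541000376a8001bb5000594040019daa002c9810009ed50016480800e000800c400200a00008a51003)))) 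
(.nd (nat_lit 9) (.lf (nat_lit 1073873206) (dlOf (nat_lit 1) (nat_lit 0x1400200020008014c02))) 
(.lf (nat_lit 132918) (dlOf (nat_lit 1) (nat_lit 0x800400040018003e02)))))) (.nd (nat_lit 11) 
(.nd (nat_lit 10) (.nd (nat_lit 12) 
(.lf (nat_lit 30408886) (dlOf (nat_lit 1) (nat_lit 0x8008000400200020008e30483))) 
(.lf (nat_lit 8917174) (dlOf (nat_lit 1) (nat_lit 0xc00400020008517e82)))) (.nd (nat_lit 8) 
(.nd (nat_lit 17) (.lf (nat_lit 33031350) (dlOf (nat_lit 1) (nat_lit 0x400200060008f52c82))) 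
(.lf (nat_lit 32113846) (dlOf (nat_lit 1) (nat_lit 0x18400200c60008ef2c82)))) 
(.lf (nat_lit 8394166) (dlOf (nat_lit 1) (nat_lit 0x120028519981))))) (.nd (nat_lit 8) 
(.nd (nat_lit 9) (.lf (nat_lit 134225078) (dlOf (nat_lit 1) (nat_lit 0x40040002000800c202))) 
(.lf (nat_lit 5368711862) (dlOf (nat_lit 1) (nat_lit 0x400400020008005702)))) (.nd (nat_lit 9) 
(.lf (nat_lit 3221359030) (dlOf (nat_lit 1) (nat_lit 0xe0018114e81))) (.nd (nat_lit 20) 
(.lf (nat_lit 5368712118) (dlOf (nat_lit 1) (nat_lit 0x400400020008005d02))) 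
(.lf (nat_lit 19925942) (dlOf (nat_lit 1) (nat_lit 0x200189d5d01)))))))) (.nd (nat_lit 29) 
(.nd (nat_lit 19) (.nd (nat_lit 11) (.nd (nat_lit 17) 
(.lf (nat_lit 68157494) (dlOf (nat_lit 2) (nat_lit 0xd0000001bd02000c0018400481))) 
(.nd (nat_lit 32) 
(.lf (nat_lit 1140981814) (dlOf (nat_lit 3) (nat_lit 0xa022001248100230028008fc080038008000c00200100008040483))) 
(.lf (nat_lit 5435949110) (dlOf (nat_lit 7) (nat_lit 0x880fc001407c000e03a000501a80304c2000080e8000c06a00c1204001803f000501f000380e8001c06a00640000059505000501f800b00f8005c074002e0350059484000501f800d00f8006807400340350059404000601f800b80f8005c07400340350008000002c9c2800180080184002000c0008051003))))) 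
(.nd (nat_lit 7) (.lf (nat_lit 2348816438) (dlOf (nat_lit 1) (nat_lit 0x40040002000800a602))) 
(.lf (nat_lit 3288341686) (dlOf (nat_lit 1) (nat_lit 0x40040002000800c202))))) (.nd (nat_lit 27) 
(.nd (nat_lit 32) (.lf (nat_lit 67633206) (dlOf (nat_lit 1) (nat_lit 0x600082b0881))) 
(.lf (nat_lit 4362600502) (dlOf (nat_lit 1) (nat_lit 0x8c002004200080a0a82)))) 
(.lf (nat_lit 201850934) (dlOf (nat_lit 3) (nat_lit 0x88128000aa0400440940003402000400280a0a81))))) 
(.nd (nat_lit 8) (.nd (nat_lit 7) (.nd (nat_lit 11) 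
(.lf (nat_lit 3959947318) (dlOf (nat_lit 2) (nat_lit 0x1c08c007d70200040018170001))) 
(.lf (nat_lit 2751469622) (dlOf (nat_lit 1) (nat_lit 0x40040002000800a602)))) 
(.lf (nat_lit 5033167542) (dlOf (nat_lit 1) (nat_lit 0x400400020008005702)))) (.nd (nat_lit 17) 
(.nd (nat_lit 7) (.lf (nat_lit 2752512310) (dlOf (nat_lit 1) (nat_lit 0x600018014c01))) 
(.lf (nat_lit 2752512438) (dlOf (nat_lit 1) (nat_lit 0x7c80080004002011c0008017783)))) 
(.nd (nat_lit 9) (.lf (nat_lit 738328886) (dlOf (nat_lit 1) (nat_lit 0x20028090b81))) 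
(.lf (nat_lit 2752120630) (dlOf (nat_lit 1) (nat_lit 0x980008003e01)))))))) (.nd (nat_lit 27) 
(.nd (nat_lit 7) (.nd (nat_lit 8) (.nd (nat_lit 17) (.nd (nat_lit 9) 
(.lf (nat_lit 3489664054) (dlOf (nat_lit 1) (nat_lit 0x1c0028006081))) 
(.lf (nat_lit 3490710070) (dlOf (nat_lit 1) (nat_lit 0xe0008018101)))) (.nd (nat_lit 19) 
(.lf (nat_lit 4563533878) (dlOf (nat_lit 1) (nat_lit 0xe00028090001))) 
(.lf (nat_lit 1409941558) (dlOf (nat_lit 1) (nat_lit 0xa80080048002001a00080a0b83))))) 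
(.nd (nat_lit 10) (.nd (nat_lit 17) 
(.lf (nat_lit 3490709814) (dlOf (nat_lit 1) (nat_lit 0x600018014c01))) 
(.lf (nat_lit 1946288438) (dlOf (nat_lit 1) (nat_lit 0x1400200020008014c02)))) (.nd (nat_lit 11) 
(.lf (nat_lit 2952795446) (dlOf (nat_lit 1) (nat_lit 0x40028009901))) 
(.lf (nat_lit 2952797494) (dlOf (nat_lit 1) (nat_lit 0x2002800c801)))))) (.nd (nat_lit 26) 
(.nd (nat_lit 8) (.nd (nat_lit 9) 
(.lf (nat_lit 1343881398) (dlOf (nat_lit 1) (nat_lit 0x8008000800200020008370483))) 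
(.lf (nat_lit 6710889142) (dlOf (nat_lit 1) (nat_lit 0x400400020008005702)))) (.nd (nat_lit 9) 
(.lf (nat_lit 2952797622) (dlOf (nat_lit 1) (nat_lit 0x6001800cd01))) 
(.lf (nat_lit 2952794038) (dlOf (nat_lit 1) (nat_lit 0x8008000400200020008007a83))))) 
(.nd (nat_lit 12) (.nd (nat_lit 8) 
(.lf (nat_lit 4094692022) (dlOf (nat_lit 1) (nat_lit 0x20028055701))) 
(.lf (nat_lit 2483031478) (dlOf (nat_lit 1) (nat_lit 0x40018006d01)))) (.nd (nat_lit 29) 
(.lf (nat_lit 1409293494) (dlOf (nat_lit 1) (nat_lit 0x40040002000800c202))) 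
(.lf (nat_lit 1946164406) (dlOf (nat_lit 1) (nat_lit 0x40040002000800c202))))))) (.nd (nat_lit 11) 
(.nd (nat_lit 17) (.nd (nat_lit 19) (.nd (nat_lit 7) 
(.lf (nat_lit 1007681590) (dlOf (nat_lit 1) (nat_lit 0x4002000200086d0c02))) 
(.lf (nat_lit 5772411062) (dlOf (nat_lit 1) (nat_lit 0x60018090681)))) (.nd (nat_lit 30) 
(.lf (nat_lit 3154640950) (dlOf (nat_lit 2) (nat_lit 0x150160000000800480080068002001c00082f0883))) 
(.lf (nat_lit 4228382774) (dlOf (nat_lit 1) (nat_lit 0xa200080a0b81))))) (.nd (nat_lit 29) 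
(.nd (nat_lit 7) 
(.lf (nat_lit 4697753142) (dlOf (nat_lit 1) (nat_lit 0x78008001c002000a0008093783))) 
(.lf (nat_lit 402784438) (dlOf (nat_lit 1) (nat_lit 0x20028090681)))) (.nd (nat_lit 26) 
(.lf (nat_lit 2013397046) (dlOf (nat_lit 3) (nat_lit 0xa022001248100230028008fc080038008000c00200100008040483))) 
(.lf (nat_lit 5301731382) (dlOf (nat_lit 7) (nat_lit 0x880fc001407c000e03a000501b8019f82000080e8000c06e0067d04001803f000501f000380e8001c06e0064000002ca85000501f800b00f8005c074002e037002ca04000501f800d00f800680740034037002c984000601f800b80f8005c074003403700080000016482800180080184002000c0008051003)))))) 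
(.nd (nat_lit 26) (.nd (nat_lit 9) (.nd (nat_lit 7) 
(.lf (nat_lit 3623880758) (dlOf (nat_lit 1) (nat_lit 0x60008003000200240008004703))) 
(.lf (nat_lit 2550144182) (dlOf (nat_lit 1) (nat_lit 0x40040002000800c202)))) (.nd (nat_lit 12) 
(.lf (nat_lit 2013268662) (dlOf (nat_lit 1) (nat_lit 0x400400020008005702))) 
(.lf (nat_lit 1476401846) (dlOf (nat_lit 1) (nat_lit 0x18001800b881))))) (.nd (nat_lit 10) 
(.nd (nat_lit 12) (.nd (nat_lit 29) 
(.lf (nat_lit 4764732086) (dlOf (nat_lit 1) (nat_lit 0x400400020008005702))) 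
(.lf (nat_lit 5301602998) (dlOf (nat_lit 1) (nat_lit 0x400400020008005702)))) 
(.lf (nat_lit 3690994358) (dlOf (nat_lit 1) (nat_lit 0xa001800b881)))) (.nd (nat_lit 8) 
(.lf (nat_lit 5838605494) (dlOf (nat_lit 1) (nat_lit 0x80080004002000200080f6283))) 
(.lf (nat_lit 1006636982) (dlOf (nat_lit 1) (nat_lit 0x20018007a81))))))))) (.nd (nat_lit 26) 
(.nd (nat_lit 21) (.nd (nat_lit 17) (.nd (nat_lit 20) (.nd (nat_lit 19) (.nd (nat_lit 27) 
(.lf (nat_lit 537133110) (dlOf (nat_lit 1) (nat_lit 0x8008000400200020008020683))) 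
(.lf (nat_lit 134479926) (dlOf (nat_lit 2) (nat_lit 0x1204100090818030d00)))) 
(.lf (nat_lit 21758006) (dlOf (nat_lit 1) (nat_lit 0x1a800200560008a70682)))) (.nd (nat_lit 7) 
(.nd (nat_lit 8) 
(.lf (nat_lit 5773197366) (dlOf (nat_lit 2) (nat_lit 0x150988008980800480080078002000200080b0483))) 
(.lf (nat_lit 9699638) (dlOf (nat_lit 1) (nat_lit 0x8008000400200020008574c03)))) 
(.lf (nat_lit 9699766) (dlOf (nat_lit 1) (nat_lit 0x20018577781))))) (.nd (nat_lit 28) 
(.nd (nat_lit 19) (.nd (nat_lit 9) (.nd (nat_lit 20) (.nd (nat_lit 29) 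
(.lf (nat_lit 6442844214) (dlOf (nat_lit 1) (nat_lit 0x7800081d0b01))) 
(.lf (nat_lit 1611006006) (dlOf (nat_lit 3) (nat_lit 0x180a60006035000401080092418008814c002406a0012021000e00e80091c2000e00080004002001c00080b0483)))) 
(.lf (nat_lit 26607670) (dlOf (nat_lit 2) (nat_lit 0x56a7a000aa018c50480)))) 
(.lf (nat_lit 134611510) (dlOf (nat_lit 2) (nat_lit 0xc0430006020800000100040008005400200020008090f83)))) 
(.nd (nat_lit 22) 
(.lf (nat_lit 917558) (dlOf (nat_lit 2) (nat_lit 0x180f8800c05d000342d4003e0af001d051800550280258008001c00200060008030d03))) 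
(.lf (nat_lit 13500470) (dlOf (nat_lit 1) (nat_lit 0x100002001a0008730b82))))) (.nd (nat_lit 30) 
(.nd (nat_lit 27) 
(.lf (nat_lit 4563796022) (dlOf (nat_lit 5) (nat_lit 0x48019002800980140040002800e004e608003e0190029009801500400020002004e50800a80130030008001350100020064009a6040460004003a00080e1002))) 
(.lf (nat_lit 4698013750) (dlOf (nat_lit 5) (nat_lit 0x48019002800980140040002800e00a7b08003e019002900980150040002000200a7a0800a801300300080029a4100020064014d0040460004003a00080e1002)))) 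
(.nd (nat_lit 29) 
(.lf (nat_lit 5637537846) (dlOf (nat_lit 2) (nat_lit 0x50098007c80800900080034002000e0008100483))) 
(.lf (nat_lit 4026925110) (dlOf (nat_lit 2) (nat_lit 0x8a8040001cd02000400280d0b81))))))) 
(.nd (nat_lit 11) (.nd (nat_lit 9) (.nd (nat_lit 17) (.nd (nat_lit 7) (.nd (nat_lit 20) 
(.lf (nat_lit 3492544566) (dlOf (nat_lit 1) (nat_lit 0x4004000200180d0b82))) 
(.lf (nat_lit 29098038) (dlOf (nat_lit 1) (nat_lit 0xb8008000400200140008dc0c03)))) 
(.lf (nat_lit 8127926) (dlOf (nat_lit 1) (nat_lit 0x400200020008513602)))) (.nd (nat_lit 22) 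
(.lf (nat_lit 4063286) (dlOf (nat_lit 4) (nat_lit 0x190b0000c038c00780e2004206500090000007042800080000037a0400082c0000607100040328000001801c000801c000201560008270b83))) 
(.lf (nat_lit 16646198) (dlOf (nat_lit 2) (nat_lit 0x242698000700800580080084002000c00088c0883))))) 
(.nd (nat_lit 7) (.nd (nat_lit 10) 
(.lf (nat_lit 19796534) (dlOf (nat_lit 1) (nat_lit 0x80080008002000400089d8983))) 
(.lf (nat_lit 19797558) (dlOf (nat_lit 1) (nat_lit 0x4004000600089d9c02)))) 
(.lf (nat_lit 8259510) (dlOf (nat_lit 1) (nat_lit 0xc0018514381))))) (.nd (nat_lit 7) 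
(.nd (nat_lit 10) (.nd (nat_lit 17) 
(.lf (nat_lit 20187958) (dlOf (nat_lit 1) (nat_lit 0x4002000200089d5c02))) 
(.lf (nat_lit 19794742) (dlOf (nat_lit 1) (nat_lit 0x4002000200089d5c02)))) 
(.lf (nat_lit 19795766) (dlOf (nat_lit 1) (nat_lit 0x7880080334002011800089d7483)))) 
(.nd (nat_lit 8) (.nd (nat_lit 12) (.nd (nat_lit 17) 
(.lf (nat_lit 20187830) (dlOf (nat_lit 1) (nat_lit 0x200289d5701))) 
(.lf (nat_lit 19794614) (dlOf (nat_lit 1) (nat_lit 0x4004000200089d5702)))) 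
(.lf (nat_lit 19798710) (dlOf (nat_lit 1) (nat_lit 0x400080008002000800089db883)))) 
(.lf (nat_lit 19795382) (dlOf (nat_lit 1) (nat_lit 0x400189d6d01))))))) (.nd (nat_lit 17) 
(.nd (nat_lit 30) (.nd (nat_lit 8) (.nd (nat_lit 12) (.nd (nat_lit 19) 
(.lf (nat_lit 201588790) (dlOf (nat_lit 2) (nat_lit 0x1204100090818030d00))) 
(.lf (nat_lit 2754347062) (dlOf (nat_lit 1) (nat_lit 0x4004000200180d0b82)))) 
(.lf (nat_lit 67899446) (dlOf (nat_lit 1) (nat_lit 0x400018337c81)))) (.nd (nat_lit 7) 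
(.nd (nat_lit 10) (.lf (nat_lit 4899212086) (dlOf (nat_lit 1) (nat_lit 0x4002007e00080d5c02))) 
(.lf (nat_lit 2752251702) (dlOf (nat_lit 1) (nat_lit 0x20028003e01)))) (.nd (nat_lit 10) 
(.lf (nat_lit 4496559030) (dlOf (nat_lit 1) (nat_lit 0xc002000600080e5d02))) 
(.lf (nat_lit 2751727542) (dlOf (nat_lit 1) (nat_lit 0xa0028004381)))))) (.nd (nat_lit 7) 
(.nd (nat_lit 19) (.nd (nat_lit 28) 
(.lf (nat_lit 3288596534) (dlOf (nat_lit 1) (nat_lit 0x20018090001))) 
(.lf (nat_lit 1409548342) (dlOf (nat_lit 1) (nat_lit 0x8008000400200020008020683)))) 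
(.lf (nat_lit 6377177142) (dlOf (nat_lit 2) (nat_lit 0x150910008980800480080078002000200080b0483)))) 
(.nd (nat_lit 9) (.nd (nat_lit 12) 
(.lf (nat_lit 5436080310) (dlOf (nat_lit 2) (nat_lit 0x1208044001c604058c004005e00080c1702))) 
(.lf (nat_lit 3557036214) (dlOf (nat_lit 1) (nat_lit 0x140028127e81)))) 
(.lf (nat_lit 3557037750) (dlOf (nat_lit 1) (nat_lit 0x8002812a001)))))) (.nd (nat_lit 27) 
(.nd (nat_lit 7) (.nd (nat_lit 30) (.nd (nat_lit 8) 
(.lf (nat_lit 2753953846) (dlOf (nat_lit 2) (nat_lit 0x60448000b00800180080010002000a00080a0a83))) 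
(.lf (nat_lit 2752382774) (dlOf (nat_lit 1) (nat_lit 0xe0018003e01)))) (.nd (nat_lit 28) 
(.lf (nat_lit 3288727606) (dlOf (nat_lit 2) (nat_lit 0x8a8040001cd02000400280d0b81))) 
(.lf (nat_lit 6241517622) (dlOf (nat_lit 2) (nat_lit 0x50090007cc0800900080034002000e0008100483))))) 
(.nd (nat_lit 8) (.nd (nat_lit 9) 
(.lf (nat_lit 2483421366) (dlOf (nat_lit 1) (nat_lit 0x200181b0381))) 
(.lf (nat_lit 2754481846) (dlOf (nat_lit 2) (nat_lit 0x20200000880800280080004002000a00080f7283)))) 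
(.lf (nat_lit 4362469814) (dlOf (nat_lit 1) (nat_lit 0x60018090801))))) (.nd (nat_lit 28) 
(.nd (nat_lit 7) (.nd (nat_lit 9) 
(.lf (nat_lit 738590774) (dlOf (nat_lit 3) (nat_lit 0x180a60006035000401080092418008814c002406a0012021000e00e80091c2000e00080004002001c00080b0483))) 
(.lf (nat_lit 201720374) (dlOf (nat_lit 2) (nat_lit 0xc0430006020800000100040008005400200020008090f83)))) 
(.lf (nat_lit 2349203638) (dlOf (nat_lit 1) (nat_lit 0x200181b0381)))) (.nd (nat_lit 7) 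
(.nd (nat_lit 30) (.lf (nat_lit 2617638966) (dlOf (nat_lit 2) (nat_lit 0x3802c00da5818110780))) 
(.lf (nat_lit 5838864438) (dlOf (nat_lit 1) (nat_lit 0x7800081d0b01)))) 
(.lf (nat_lit 4228252086) (dlOf (nat_lit 1) (nat_lit 0x60018090801))))))))) (.nd (nat_lit 17) 
(.nd (nat_lit 18) (.nd (nat_lit 9) (.nd (nat_lit 20) (.nd (nat_lit 26) (.nd (nat_lit 23) 
(.nd (nat_lit 7) (.nd (nat_lit 22) 
(.lf (nat_lit 1611202614) (dlOf (nat_lit 1) (nat_lit 0x4000400060018110682))) 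
(.lf (nat_lit 3494445110) (dlOf (nat_lit 4) (nat_lit 0x200780038e04004c046015401e000e282008c00f00068c0801d00080030002007c0008220b83)))) 
(.lf (nat_lit 2952859830) (dlOf (nat_lit 2) (nat_lit 0x1600e000e80100005408004000400120008007e82)))) 
(.nd (nat_lit 8) (.nd (nat_lit 22) 
(.lf (nat_lit 44105782) (dlOf (nat_lit 1) (nat_lit 0x80080004002000200092c0483))) 
(.lf (nat_lit 14745654) (dlOf (nat_lit 2) (nat_lit 0x5bf90002b898005501000180080020002001a0008770483)))) 
(.lf (nat_lit 8459574) (dlOf (nat_lit 1) (nat_lit 0x1f000800c400200400008519903))))) 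
(.nd (nat_lit 7) (.nd (nat_lit 8) (.nd (nat_lit 22) 
(.lf (nat_lit 738787382) (dlOf (nat_lit 1) (nat_lit 0x4000400060018110682))) 
(.lf (nat_lit 2756247606) (dlOf (nat_lit 4) (nat_lit 0x200780038e04004c046015401e000e282008c00f0006cc0801d00080030002007c0008220b83)))) 
(.lf (nat_lit 3019965750) (dlOf (nat_lit 1) (nat_lit 0x1000180d3201)))) (.nd (nat_lit 28) 
(.lf (nat_lit 3288407222) (dlOf (nat_lit 1) (nat_lit 0x18001800c201))) 
(.lf (nat_lit 1946229942) (dlOf (nat_lit 1) (nat_lit 0x40040002000800c202)))))) (.nd (nat_lit 8) 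
(.nd (nat_lit 10) (.nd (nat_lit 7) (.nd (nat_lit 26) 
(.lf (nat_lit 3490775094) (dlOf (nat_lit 1) (nat_lit 0x400200020008020682))) 
(.lf (nat_lit 2752577590) (dlOf (nat_lit 1) (nat_lit 0x400200020008020682)))) 
(.lf (nat_lit 7405750) (dlOf (nat_lit 1) (nat_lit 0x7400184b0481)))) (.nd (nat_lit 12) 
(.lf (nat_lit 61932598) (dlOf (nat_lit 1) (nat_lit 0x180008000400200520009922883))) 
(.lf (nat_lit 19993654) (dlOf (nat_lit 1) (nat_lit 0x200189d9201))))) (.nd (nat_lit 10) 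
(.nd (nat_lit 19) 
(.lf (nat_lit 11600182) (dlOf (nat_lit 1) (nat_lit 0x580080064002000400086c0583))) 
(.lf (nat_lit 58261814) (dlOf (nat_lit 2) (nat_lit 0x859d800a6602009a00197d7b01)))) 
(.lf (nat_lit 7937334) (dlOf (nat_lit 1) (nat_lit 0x2e002851c801)))))) (.nd (nat_lit 27) 
(.nd (nat_lit 7) (.nd (nat_lit 8) (.nd (nat_lit 20) 
(.lf (nat_lit 4295033398) (dlOf (nat_lit 1) (nat_lit 0x60028018101))) 
(.lf (nat_lit 11600438) (dlOf (nat_lit 1) (nat_lit 0xe00086c0f81)))) 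
(.lf (nat_lit 2483100470) (dlOf (nat_lit 1) (nat_lit 0x4000800780020050000800bc83)))) 
(.nd (nat_lit 8) (.nd (nat_lit 26) 
(.lf (nat_lit 4563471030) (dlOf (nat_lit 1) (nat_lit 0x8008000400200020008095703))) 
(.lf (nat_lit 335612598) (dlOf (nat_lit 1) (nat_lit 0x400400020008095702)))) 
(.lf (nat_lit 5704321974) (dlOf (nat_lit 1) (nat_lit 0x18002001a0008055d02))))) (.nd (nat_lit 8) 
(.nd (nat_lit 7) (.nd (nat_lit 10) 
(.lf (nat_lit 1208027702) (dlOf (nat_lit 1) (nat_lit 0x20018095181))) 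
(.lf (nat_lit 6308300342) (dlOf (nat_lit 1) (nat_lit 0xa0008053781)))) (.nd (nat_lit 10) 
(.lf (nat_lit 1744898742) (dlOf (nat_lit 1) (nat_lit 0x400400020008095702))) 
(.lf (nat_lit 2348877494) (dlOf (nat_lit 5) (nat_lit 0x1180a8001ba04004c054000dc02004802a0006d8100230150001b0080178008004000200660008003a83))))) 
(.nd (nat_lit 11) (.lf (nat_lit 2617316150) (dlOf (nat_lit 1) (nat_lit 0x8400280a8f81))) 
(.nd (nat_lit 12) (.lf (nat_lit 2013334326) (dlOf (nat_lit 1) (nat_lit 0x3800400100018005c02))) 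
(.lf (nat_lit 134290230) (dlOf (nat_lit 1) (nat_lit 0xc0040004001800bc82)))))))) (.nd (nat_lit 30) 
(.nd (nat_lit 21) (.nd (nat_lit 22) (.nd (nat_lit 28) (.nd (nat_lit 8) 
(.lf (nat_lit 10289206) (dlOf (nat_lit 1) (nat_lit 0x200185c0d01))) 
(.lf (nat_lit 329526) (dlOf (nat_lit 1) (nat_lit 0x120018003e01)))) (.nd (nat_lit 26) 
(.lf (nat_lit 268763190) (dlOf (nat_lit 4) (nat_lit 0xa02a00080148013981000900a80054052006002800010130001006c009a81400180540006029002901400134c1800d0008008000200100008131003))) 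
(.lf (nat_lit 872742966) (dlOf (nat_lit 10) (nat_lit 0x310188008f40803480d8019406200e8022002c00c8014805006940000023c0c008403600430188008cc1001300d800ac06200231040082036003d018804a80ac001c03202ea0000011785018f0000008b40800080d8004c0620022c04002403600310188008ac100480000003e6040434002016400080b0482))))) 
(.nd (nat_lit 7) (.nd (nat_lit 9) 
(.lf (nat_lit 21823542) (dlOf (nat_lit 2) (nat_lit 0x6b916000fc3800017c1000180080008002000e0008a70683))) 
(.lf (nat_lit 21299766) (dlOf (nat_lit 1) (nat_lit 0x24002000c0008a38102)))) 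
(.lf (nat_lit 21299382) (dlOf (nat_lit 2) (nat_lit 0x7c9900071818a31700))))) (.nd (nat_lit 20) 
(.nd (nat_lit 7) (.nd (nat_lit 9) 
(.lf (nat_lit 36503606) (dlOf (nat_lit 1) (nat_lit 0x20019070001))) 
(.lf (nat_lit 23396918) (dlOf (nat_lit 3) (nat_lit 0x95e45400130de000110401d19150031c37800000100080008005400200040008b80f83)))) 
(.lf (nat_lit 52756662) (dlOf (nat_lit 2) (nat_lit 0x24a700000019570680)))) (.nd (nat_lit 7) 
(.nd (nat_lit 8) (.lf (nat_lit 16580662) (dlOf (nat_lit 2) (nat_lit 0x5c67000000188c0880))) 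
(.lf (nat_lit 20253494) (dlOf (nat_lit 1) (nat_lit 0x4002000200089d5c02)))) 
(.lf (nat_lit 3473590) (dlOf (nat_lit 1) (nat_lit 0x20008006c00200740008200383)))))) 
(.nd (nat_lit 7) (.nd (nat_lit 27) (.nd (nat_lit 26) 
(.lf (nat_lit 4026859574) (dlOf (nat_lit 14) (nat_lit 0xcb017009880b4000b408034405c025002d0002c8200bd0170001600806900b8000ae04003005c0005402014602e000178100c5017009280b40005808018005a0000b02019402e00e50168000281006480b80000e04033805a0000502026602d00001810124016800008080150008005400200e400080a0a83))) 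
(.lf (nat_lit 3288662070) (dlOf (nat_lit 3) (nat_lit 0xb80b4000b404005c05a0000302000400080a0b81)))) 
(.nd (nat_lit 29) 
(.lf (nat_lit 3355770934) (dlOf (nat_lit 4) (nat_lit 0x3e0320067681000401900338c0800080c8019c40401ec00400200008110782))) 
(.nd (nat_lit 31) 
(.lf (nat_lit 1745158198) (dlOf (nat_lit 10) (nat_lit 0x310188008f40803480d8019406200e8022002c00c8014805006940000023c0c008403600430188008cc1001300d800ac06200231040082036003d018804a80ac001c03202ea0000011785018f0000008b40800080d8004c0620022c04002403600310188008ac100480000003e4040434002016400080b0482))) 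
(.lf (nat_lit 3892641846) (dlOf (nat_lit 2) (nat_lit 0x9e01b804600d80038a08000c00200040008180482)))))) 
(.nd (nat_lit 10) (.nd (nat_lit 19) (.nd (nat_lit 26) 
(.lf (nat_lit 5637472438) (dlOf (nat_lit 1) (nat_lit 0x4004000400080f1702))) 
(.lf (nat_lit 6107234486) (dlOf (nat_lit 2) (nat_lit 0x1d801c000718180c1700)))) 
(.lf (nat_lit 5773263030) (dlOf (nat_lit 1) (nat_lit 0x80080004002000200080c1703)))) 
(.lf (nat_lit 3624209590) (dlOf (nat_lit 2) (nat_lit 0x60000000c818146280))))))) (.nd (nat_lit 18) 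
(.nd (nat_lit 9) (.nd (nat_lit 8) (.nd (nat_lit 24) (.nd (nat_lit 19) 
(.lf (nat_lit 5234688054) (dlOf (nat_lit 2) (nat_lit 0x402e002b9018091000))) (.nd (nat_lit 21) 
(.nd (nat_lit 27) (.lf (nat_lit 1410007094) (dlOf (nat_lit 1) (nat_lit 0x200280c1181))) 
(.lf (nat_lit 470482998) (dlOf (nat_lit 1) (nat_lit 0x18008000400200020008101303)))) 
(.lf (nat_lit 472580150) (dlOf (nat_lit 1) (nat_lit 0x18002003200089c0482))))) (.nd (nat_lit 22) 
(.nd (nat_lit 19) (.lf (nat_lit 25362486) (dlOf (nat_lit 1) (nat_lit 0x180018c00781))) 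
(.lf (nat_lit 18546742) (dlOf (nat_lit 2) (nat_lit 0x293340003a04001800400120018950882)))) 
(.nd (nat_lit 7) (.lf (nat_lit 30081078) (dlOf (nat_lit 1) (nat_lit 0x20028e30001))) 
(.lf (nat_lit 32179382) (dlOf (nat_lit 2) (nat_lit 0xccfc000370200020008ef2c81)))))) 
(.nd (nat_lit 7) (.nd (nat_lit 23) (.nd (nat_lit 26) 
(.lf (nat_lit 1879245110) (dlOf (nat_lit 1) (nat_lit 0x400180c0581))) 
(.lf (nat_lit 1006829878) (dlOf (nat_lit 1) (nat_lit 0x400180c0581)))) (.nd (nat_lit 10) 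
(.lf (nat_lit 11731254) (dlOf (nat_lit 1) (nat_lit 0x10004000400086c0582))) 
(.lf (nat_lit 8590646) (dlOf (nat_lit 1) (nat_lit 0x400200020008519902))))) (.nd (nat_lit 20) 
(.lf (nat_lit 6378160566) (dlOf (nat_lit 1) (nat_lit 0x6400200100008116e82))) (.nd (nat_lit 26) 
(.lf (nat_lit 3491430838) (dlOf (nat_lit 1) (nat_lit 0x8008000400200020008090803))) 
(.lf (nat_lit 2753233334) (dlOf (nat_lit 1) (nat_lit 0x8008000400200020008090803))))))) 
(.nd (nat_lit 26) (.nd (nat_lit 20) (.nd (nat_lit 7) (.nd (nat_lit 10) 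
(.lf (nat_lit 939721270) (dlOf (nat_lit 3) (nat_lit 0x90000029740801b80000000004004000200220008158b02))) 
(.lf (nat_lit 5637342774) (dlOf (nat_lit 1) (nat_lit 0x380080020002001400080d3783)))) 
(.nd (nat_lit 11) (.lf (nat_lit 2818773686) (dlOf (nat_lit 1) (nat_lit 0x800200020008128c82))) 
(.lf (nat_lit 268634806) (dlOf (nat_lit 1) (nat_lit 0x200280e5701))))) (.nd (nat_lit 11) 
(.nd (nat_lit 19) 
(.lf (nat_lit 11731510) (dlOf (nat_lit 1) (nat_lit 0x100080008002000200086c0f83))) 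
(.lf (nat_lit 3491430966) (dlOf (nat_lit 3) (nat_lit 0x4087a800703c6010c1de00b30e8800c85f400982ac015c13f002809a000e80000002224005c49a013a246010e11d008708c8022444a00481fa00840f6804107a800783d200201e100cd0ef0054876402d03a200ce1ca010e0cf801306540438306021c16401150ad8010856402ec298021c147010e096800000b802800087198002011e0008090f83)))) 
(.nd (nat_lit 8) (.lf (nat_lit 8067638) (dlOf (nat_lit 1) (nat_lit 0x4001851b401))) 
(.lf (nat_lit 20122422) (dlOf (nat_lit 1) (nat_lit 0x4002000200089d5c02)))))) (.nd (nat_lit 7) 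
(.nd (nat_lit 8) (.nd (nat_lit 19) 
(.lf (nat_lit 3825402422) (dlOf (nat_lit 1) (nat_lit 0x140018158101))) 
(.lf (nat_lit 2753233462) (dlOf (nat_lit 3) (nat_lit 0x4087f000703ea010c1f300b30f3000c85f400982b6015c13f002809a000e800000024240438494011223a00241078008080c02103fe01041fc001e0fd806687cc02a43dc01681e600670ef808706d0005c364013a1ab010e0cf801306740438306021c16800210af008a854402ec298021c147010e096800000b802800087198002011e0008090f83)))) 
(.lf (nat_lit 2885879606) (dlOf (nat_lit 1) (nat_lit 0x8008000400200020008143e03)))) 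
(.nd (nat_lit 11) (.lf (nat_lit 3556971190) (dlOf (nat_lit 1) (nat_lit 0x800200020008128c82))) 
(.nd (nat_lit 27) (.lf (nat_lit 4630710966) (dlOf (nat_lit 1) (nat_lit 0x400400020008095702))) 
(.lf (nat_lit 6107105974) (dlOf (nat_lit 1) (nat_lit 0x400400020008095702)))))))) (.nd (nat_lit 31) 
(.nd (nat_lit 19) (.nd (nat_lit 28) (.nd (nat_lit 20) 
(.lf (nat_lit 1074200630) (dlOf (nat_lit 3) (nat_lit 0x1a027000e881000601380073c0800d0008003c002001c00080d0b83))) 
(.nd (nat_lit 21) (.lf (nat_lit 9895990) (dlOf (nat_lit 1) (nat_lit 0x40008591001))) 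
(.lf (nat_lit 24576054) (dlOf (nat_lit 1) (nat_lit 0x54004002a0008ba0b02))))) (.nd (nat_lit 26) 
(.nd (nat_lit 27) (.lf (nat_lit 4563861558) (dlOf (nat_lit 1) (nat_lit 0x400400020008110682))) 
(.lf (nat_lit 4698079286) (dlOf (nat_lit 1) (nat_lit 0x400400020008110682)))) (.nd (nat_lit 27) 
(.lf (nat_lit 1946615862) (dlOf (nat_lit 3) (nat_lit 0x1a027000e881000601380073c0800d0008003c002001c00080d0b83))) 
(.lf (nat_lit 1007091766) (dlOf (nat_lit 4) (nat_lit 0x210000000a88100080a50004dc0800f8520001e80400c8004003c0018170482)))))) 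
(.nd (nat_lit 21) (.nd (nat_lit 8) (.nd (nat_lit 25) 
(.lf (nat_lit 13566006) (dlOf (nat_lit 4) (nat_lit 0x1d04d6001cd02007226b000e58100061688002780800c0008012400200460008730b83))) 
(.lf (nat_lit 47120438) (dlOf (nat_lit 1) (nat_lit 0x80080004002000200093a0483)))) 
(.lf (nat_lit 6376325430) (dlOf (nat_lit 1) (nat_lit 0xf0008000800200240008090b83)))) 
(.nd (nat_lit 7) (.nd (nat_lit 9) 
(.lf (nat_lit 20906038) (dlOf (nat_lit 1) (nat_lit 0x44002000200089f0482))) 
(.lf (nat_lit 8324662) (dlOf (nat_lit 1) (nat_lit 0x400400020018513782)))) 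
(.lf (nat_lit 19864502) (dlOf (nat_lit 1) (nat_lit 0x200089dbd81)))))) (.nd (nat_lit 8) 
(.nd (nat_lit 21) (.nd (nat_lit 7) (.nd (nat_lit 26) 
(.lf (nat_lit 2819031094) (dlOf (nat_lit 2) (nat_lit 0x180000000a8818150480))) 
(.lf (nat_lit 3557228598) (dlOf (nat_lit 2) (nat_lit 0xb8000002a204000800400100018170482)))) 
(.nd (nat_lit 27) 
(.lf (nat_lit 2416378038) (dlOf (nat_lit 1) (nat_lit 0x180080010002000400081b0383))) 
(.lf (nat_lit 2550595766) (dlOf (nat_lit 1) (nat_lit 0x180080010002000400081b0383))))) 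
(.nd (nat_lit 19) (.nd (nat_lit 26) 
(.lf (nat_lit 3492216886) (dlOf (nat_lit 1) (nat_lit 0x16a00080b1381))) 
(.lf (nat_lit 2754019382) (dlOf (nat_lit 1) (nat_lit 0x200080b1301)))) (.nd (nat_lit 11) 
(.lf (nat_lit 4096720950) (dlOf (nat_lit 1) (nat_lit 0x30004000e0018160682))) 
(.lf (nat_lit 3492743222) (dlOf (nat_lit 1) (nat_lit 0x480080008002000400080f4703)))))) 
(.nd (nat_lit 11) (.nd (nat_lit 26) 
(.lf (nat_lit 3493265718) (dlOf (nat_lit 1) (nat_lit 0x80028104c01))) 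
(.lf (nat_lit 2755068214) (dlOf (nat_lit 1) (nat_lit 0x80028104c01)))) (.nd (nat_lit 9) 
(.nd (nat_lit 12) (.lf (nat_lit 3492743478) (dlOf (nat_lit 1) (nat_lit 0x200180f4c01))) 
(.lf (nat_lit 3492747574) (dlOf (nat_lit 1) (nat_lit 0x400180fab81)))) 
(.lf (nat_lit 4094626614) (dlOf (nat_lit 1) (nat_lit 0x60018055c01))))))))))) (.nd (nat_lit 7) 
(.nd (nat_lit 5) (.nd (nat_lit 8) (.nd (nat_lit 18) (.nd (nat_lit 26) (.nd (nat_lit 16) 
(.nd (nat_lit 24) (.nd (nat_lit 10) (.nd (nat_lit 17) 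
(.lf (nat_lit 4027056214) (dlOf (nat_lit 2) (nat_lit 0xf01a800100c40005e08003c002000600081c1102))) 
(.lf (nat_lit 5772017750) (dlOf (nat_lit 1) (nat_lit 0x2400200360008040602)))) (.nd (nat_lit 29) 
(.lf (nat_lit 1342182486) (dlOf (nat_lit 2) (nat_lit 0x808e00033018009300))) 
(.lf (nat_lit 2952795222) (dlOf (nat_lit 1) (nat_lit 0xa800401a00008009302))))) (.nd (nat_lit 9) 
(.nd (nat_lit 17) (.lf (nat_lit 20971606) (dlOf (nat_lit 2) (nat_lit 0x282afe000090189f0700))) 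
(.lf (nat_lit 52559958) (dlOf (nat_lit 2) (nat_lit 0x52c10002f5fc80122c9c00914f4004ca6800214c5800098300030008008000200160009550803)))) 
(.lf (nat_lit 51382870) (dlOf (nat_lit 1) (nat_lit 0x68004001a0009515302))))) (.nd (nat_lit 28) 
(.nd (nat_lit 21) (.nd (nat_lit 9) 
(.lf (nat_lit 16842838) (dlOf (nat_lit 13) (nat_lit 0x29c6a0001401001ee350000980801771a80003e0400978d40001d020039c6a0000c010026e3500004c0801371a80002004009b8d40000c020037c6a0000281001ee350000080800271a80000204007b8d40000002002800188e0301))) 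
(.lf (nat_lit 34146902) (dlOf (nat_lit 1) (nat_lit 0x400400020008fb5302)))) (.nd (nat_lit 22) 
(.lf (nat_lit 44105814) (dlOf (nat_lit 1) (nat_lit 0x380080040002001000092c0703))) 
(.lf (nat_lit 14745686) (dlOf (nat_lit 3) (nat_lit 0x4600000020010012e3380095c4c000540800b800200060008770782))))) 
(.nd (nat_lit 29) (.nd (nat_lit 17) 
(.lf (nat_lit 1343815766) (dlOf (nat_lit 1) (nat_lit 0x18008001000200080008370303))) 
(.lf (nat_lit 3494051926) (dlOf (nat_lit 1) (nat_lit 0x400281b0001)))) (.nd (nat_lit 21) 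
(.lf (nat_lit 6308429910) (dlOf (nat_lit 1) (nat_lit 0x20028080601))) 
(.lf (nat_lit 1881342038) (dlOf (nat_lit 2) (nat_lit 0x4017c0006804001800400100008ea0702))))))) 
(.nd (nat_lit 17) (.nd (nat_lit 19) (.nd (nat_lit 10) (.nd (nat_lit 16) 
(.lf (nat_lit 68157526) (dlOf (nat_lit 1) (nat_lit 0x80008400781))) 
(.lf (nat_lit 3825270870) (dlOf (nat_lit 2) (nat_lit 0x200d8000000800180080090002000200080b0003)))) 
(.lf (nat_lit 3690992726) (dlOf (nat_lit 2) (nat_lit 0x40180002a018009300)))) (.nd (nat_lit 27) 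
(.nd (nat_lit 30) 
(.lf (nat_lit 4362600534) (dlOf (nat_lit 1) (nat_lit 0x20008000c002003000080a1103))) 
(.lf (nat_lit 3288858710) (dlOf (nat_lit 2) (nat_lit 0xf01a800100c40003208003c002000600081c1102)))) 
(.lf (nat_lit 4228382806) (dlOf (nat_lit 1) (nat_lit 0x20008000c002003000080a1103))))) 
(.nd (nat_lit 19) (.nd (nat_lit 11) 
(.lf (nat_lit 5704450134) (dlOf (nat_lit 1) (nat_lit 0x20028080601))) (.nd (nat_lit 27) 
(.lf (nat_lit 1677858902) (dlOf (nat_lit 1) (nat_lit 0x6002811a781))) 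
(.lf (nat_lit 3959560278) (dlOf (nat_lit 2) (nat_lit 0x10230003c40800f0008000c0020064000811a783))))) 
(.nd (nat_lit 28) (.nd (nat_lit 27) 
(.lf (nat_lit 1678377046) (dlOf (nat_lit 2) (nat_lit 0x4055008000500006c1000380080004002000a0008201a03))) 
(.lf (nat_lit 3960078422) (dlOf (nat_lit 4) (nat_lit 0x400280002e0400300ac001601e0000882000300f0000000800300080028002001c00081a1a03)))) 
(.nd (nat_lit 16) (.lf (nat_lit 6375997526) (dlOf (nat_lit 1) (nat_lit 0x2400200360008040602))) 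
(.lf (nat_lit 472580182) (dlOf (nat_lit 2) (nat_lit 0x80000004c040010002003200089c0802)))))))) 
(.nd (nat_lit 16) (.nd (nat_lit 19) (.nd (nat_lit 23) (.nd (nat_lit 26) (.nd (nat_lit 21) 
(.lf (nat_lit 1611006038) (dlOf (nat_lit 1) (nat_lit 0x200080b0701))) 
(.lf (nat_lit 1881538646) (dlOf (nat_lit 1) (nat_lit 0xf400400260008f40802)))) (.nd (nat_lit 17) 
(.lf (nat_lit 67371094) (dlOf (nat_lit 1) (nat_lit 0x4004000200080f0782))) 
(.lf (nat_lit 738590806) (dlOf (nat_lit 1) (nat_lit 0x200080b0701))))) (.nd (nat_lit 20) 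
(.lf (nat_lit 29753430) (dlOf (nat_lit 16) (nat_lit 0x16191d0086c41003f56b4020a8d2000280801a191d00abc41004bd6b402668d20002608016391d0086c4100007c10068e47402af1040001d04011991d0000e0100c7c8e80506208025ab5a00234690000c040018c8e80005008048e47401ef104010f5ad000098300d7c8e805962080002008030b23a014788200006020025c8e80002408062e474028310401295ad000028300c4c8e805062080000408025f23a0051882000008200c1c8e8046e470027b104011f5ad0025a348000002801b0008000400200080008e30303))) 
(.nd (nat_lit 24) 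
(.lf (nat_lit 9830486) (dlOf (nat_lit 2) (nat_lit 0x6d2280011c0800a00080024002000a0008580603))) 
(.lf (nat_lit 26607702) (dlOf (nat_lit 2) (nat_lit 0x3cc1f00023818c50780)))))) (.nd (nat_lit 9) 
(.nd (nat_lit 17) (.nd (nat_lit 26) 
(.lf (nat_lit 5773197398) (dlOf (nat_lit 1) (nat_lit 0x200180b0701))) 
(.lf (nat_lit 6377177174) (dlOf (nat_lit 1) (nat_lit 0x200180b0701)))) 
(.lf (nat_lit 42860630) (dlOf (nat_lit 1) (nat_lit 0x120029280801)))) (.nd (nat_lit 11) 
(.lf (nat_lit 19796566) (dlOf (nat_lit 1) (nat_lit 0x4002000400089d8982))) 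
(.lf (nat_lit 58591830) (dlOf (nat_lit 1) (nat_lit 0x80080004002000200097e5303)))))) 
(.nd (nat_lit 17) (.nd (nat_lit 19) (.nd (nat_lit 27) (.nd (nat_lit 9) (.nd (nat_lit 26) 
(.lf (nat_lit 5100601430) (dlOf (nat_lit 1) (nat_lit 0x100080004002000200080f0703))) 
(.lf (nat_lit 872742998) (dlOf (nat_lit 2) (nat_lit 0x80700004024000178280b0700)))) 
(.lf (nat_lit 1880427094) (dlOf (nat_lit 3) (nat_lit 0x307180007c08001038c0003204000800200020008985302)))) 
(.nd (nat_lit 31) 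
(.lf (nat_lit 1745158230) (dlOf (nat_lit 2) (nat_lit 0x80700004024000178280b0700))) 
(.lf (nat_lit 3892641878) (dlOf (nat_lit 2) (nat_lit 0xb401b805a80d80005408000800200040008180782))))) 
(.nd (nat_lit 9) (.nd (nat_lit 25) 
(.lf (nat_lit 9240662) (dlOf (nat_lit 3) (nat_lit 0x13700000d00800ca4e40002404000400400020018530702))) 
(.lf (nat_lit 42795094) (dlOf (nat_lit 2) (nat_lit 0x7000000098080060008008400200480009280803)))) 
(.lf (nat_lit 58526294) (dlOf (nat_lit 1) (nat_lit 0x18008000c002000200097e5303))))) 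
(.nd (nat_lit 19) (.nd (nat_lit 26) (.nd (nat_lit 22) 
(.lf (nat_lit 1611071574) (dlOf (nat_lit 1) (nat_lit 0x200280d0601))) 
(.lf (nat_lit 21430358) (dlOf (nat_lit 1) (nat_lit 0x400400020008a40602)))) (.nd (nat_lit 27) 
(.lf (nat_lit 3557228630) (dlOf (nat_lit 2) (nat_lit 0x1101c00014c080280008001c00200080008170783))) 
(.lf (nat_lit 738656342) (dlOf (nat_lit 1) (nat_lit 0x200280d0601))))) (.nd (nat_lit 21) 
(.nd (nat_lit 20) 
(.lf (nat_lit 47120470) (dlOf (nat_lit 1) (nat_lit 0x380080040002001000093a0703))) 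
(.lf (nat_lit 14614614) (dlOf (nat_lit 1) (nat_lit 0x64002001e0008770782)))) (.nd (nat_lit 24) 
(.lf (nat_lit 473890902) (dlOf (nat_lit 2) (nat_lit 0x9c000000250200100008fc0801))) 
(.lf (nat_lit 20906070) (dlOf (nat_lit 2) (nat_lit 0x4d6240012ab3000090289f0700))))))))) 
(.nd (nat_lit 26) (.nd (nat_lit 17) (.nd (nat_lit 10) (.nd (nat_lit 16) (.nd (nat_lit 20) 
(.nd (nat_lit 11) (.lf (nat_lit 5905842518) (dlOf (nat_lit 1) (nat_lit 0x400400020008154e02))) 
(.lf (nat_lit 1073748310) (dlOf (nat_lit 1) (nat_lit 0x1080040036001800ab82)))) (.nd (nat_lit 19) 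
(.lf (nat_lit 3408214) (dlOf (nat_lit 1) (nat_lit 0x8c004000e0008200682))) 
(.lf (nat_lit 12321110) (dlOf (nat_lit 1) (nat_lit 0xc004000200086c0682))))) (.nd (nat_lit 9) 
(.nd (nat_lit 27) (.lf (nat_lit 805372246) (dlOf (nat_lit 1) (nat_lit 0x9c004000c0008090682))) 
(.lf (nat_lit 4429250902) (dlOf (nat_lit 1) (nat_lit 0x8008000400200020008014e03)))) 
(.lf (nat_lit 3355509590) (dlOf (nat_lit 1) (nat_lit 0x2400280a2501))))) (.nd (nat_lit 11) 
(.nd (nat_lit 9) (.lf (nat_lit 56952150) (dlOf (nat_lit 1) (nat_lit 0x40029793381))) 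
(.nd (nat_lit 28) (.lf (nat_lit 1073743702) (dlOf (nat_lit 1) (nat_lit 0x400400020008003f02))) 
(.lf (nat_lit 4026533718) (dlOf (nat_lit 1) (nat_lit 0x19c0028003f01))))) (.nd (nat_lit 27) 
(.nd (nat_lit 28) (.lf (nat_lit 4294974806) (dlOf (nat_lit 1) (nat_lit 0x2002800c901))) 
(.lf (nat_lit 1879055702) (dlOf (nat_lit 1) (nat_lit 0x40040002000800c902)))) 
(.lf (nat_lit 2550144342) (dlOf (nat_lit 1) (nat_lit 0x80080138002003e000800c903)))))) 
(.nd (nat_lit 12) (.nd (nat_lit 16) (.nd (nat_lit 9) (.nd (nat_lit 18) 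
(.lf (nat_lit 1346502998) (dlOf (nat_lit 2) (nat_lit 0x682d000ab004000400200100008f77082))) 
(.lf (nat_lit 23986518) (dlOf (nat_lit 1) (nat_lit 0xc00400020008b80682)))) 
(.lf (nat_lit 3355575126) (dlOf (nat_lit 3) (nat_lit 0x602e0001081000401700007c0801e8008014000200a800080a2503)))) 
(.nd (nat_lit 11) (.nd (nat_lit 19) 
(.lf (nat_lit 1245526) (dlOf (nat_lit 1) (nat_lit 0x4004000200080a4d02))) 
(.lf (nat_lit 25887062) (dlOf (nat_lit 1) (nat_lit 0x2c00400060008c10882)))) 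
(.lf (nat_lit 3492743510) (dlOf (nat_lit 1) (nat_lit 0x6000080f4e01))))) (.nd (nat_lit 11) 
(.nd (nat_lit 16) (.lf (nat_lit 19796310) (dlOf (nat_lit 1) (nat_lit 0x80080004002000200089d8383))) 
(.lf (nat_lit 19861846) (dlOf (nat_lit 1) (nat_lit 0x1a00289d8381)))) (.nd (nat_lit 9) 
(.nd (nat_lit 10) (.lf (nat_lit 3492747606) (dlOf (nat_lit 1) (nat_lit 0x1600180fab81))) 
(.lf (nat_lit 19799382) (dlOf (nat_lit 1) (nat_lit 0x98008003c002001200089dc903)))) 
(.lf (nat_lit 19798870) (dlOf (nat_lit 1) (nat_lit 0x80080004002000200089dbc83))))))) 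
(.nd (nat_lit 27) (.nd (nat_lit 12) (.nd (nat_lit 18) (.nd (nat_lit 9) (.nd (nat_lit 17) 
(.lf (nat_lit 1677787478) (dlOf (nat_lit 1) (nat_lit 0x9c004000c0008090682))) 
(.lf (nat_lit 3825402198) (dlOf (nat_lit 1) (nat_lit 0x20018154d01)))) 
(.lf (nat_lit 2214593366) (dlOf (nat_lit 1) (nat_lit 0x100008002501)))) (.nd (nat_lit 11) 
(.nd (nat_lit 16) 
(.lf (nat_lit 6509822294) (dlOf (nat_lit 1) (nat_lit 0x8008000400200020008154d03))) 
(.lf (nat_lit 1678049622) (dlOf (nat_lit 1) (nat_lit 0x20018158b01)))) 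
(.lf (nat_lit 2751924566) (dlOf (nat_lit 1) (nat_lit 0x800400060008004e02))))) (.nd (nat_lit 9) 
(.nd (nat_lit 28) 
(.lf (nat_lit 3288341846) (dlOf (nat_lit 1) (nat_lit 0x800800c4002004c000800c903))) 
(.nd (nat_lit 30) 
(.lf (nat_lit 2483035478) (dlOf (nat_lit 1) (nat_lit 0x800800040020002000800c903))) 
(.lf (nat_lit 1409293654) (dlOf (nat_lit 1) (nat_lit 0x8800801640020076000800c903))))) 
(.nd (nat_lit 16) (.nd (nat_lit 29) 
(.lf (nat_lit 2483034966) (dlOf (nat_lit 1) (nat_lit 0x800800040020002000800bc83))) 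
(.lf (nat_lit 1946164054) (dlOf (nat_lit 1) (nat_lit 0x40040002000800bc82)))) 
(.lf (nat_lit 3288406870) (dlOf (nat_lit 1) (nat_lit 0x8008000c0020002000800bc83)))))) 
(.nd (nat_lit 11) (.nd (nat_lit 10) (.nd (nat_lit 16) 
(.lf (nat_lit 2348941654) (dlOf (nat_lit 1) (nat_lit 0x400400020008048b02))) (.nd (nat_lit 28) 
(.lf (nat_lit 1812136278) (dlOf (nat_lit 2) (nat_lit 0x1680980004004002c00200220008154d02))) 
(.lf (nat_lit 4228055382) (dlOf (nat_lit 7) (nat_lit 0x4a4080003002c00034820124020001800b0000d00800040800006502000204a0128020001280f800780580004408023e0400002101001b01f800090081a80008002c00208f20008014d03))))) 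
(.nd (nat_lit 9) (.lf (nat_lit 473433430) (dlOf (nat_lit 1) (nat_lit 0x200008f53381))) 
(.nd (nat_lit 16) (.lf (nat_lit 201328470) (dlOf (nat_lit 1) (nat_lit 0x280018003f01))) 
(.lf (nat_lit 201394006) (dlOf (nat_lit 2) (nat_lit 0x20210000d40800e80080018002000c0008003f03)))))) 
(.nd (nat_lit 30) (.nd (nat_lit 12) (.nd (nat_lit 18) 
(.lf (nat_lit 2348878166) (dlOf (nat_lit 7) (nat_lit 0x1300a80004c0400480540002102002402a0000d81001201500000c0800900a800002040024054000000200220028004e01))) 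
(.lf (nat_lit 2886011222) (dlOf (nat_lit 3) (nat_lit 0x18082000600000002820001000000010080018008002400200040008144e03)))) 
(.lf (nat_lit 201333078) (dlOf (nat_lit 1) (nat_lit 0x2180080144002003e000800ab83)))) 
(.nd (nat_lit 9) (.nd (nat_lit 10) 
(.lf (nat_lit 3959560534) (dlOf (nat_lit 1) (nat_lit 0x1d80040024000811ab82))) 
(.lf (nat_lit 4227865942) (dlOf (nat_lit 1) (nat_lit 0x800800040020002000800c903)))) 
(.lf (nat_lit 4227865430) (dlOf (nat_lit 1) (nat_lit 0x18000800bc81))))))))) (.nd (nat_lit 28) 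
(.nd (nat_lit 11) (.nd (nat_lit 16) (.nd (nat_lit 19) (.nd (nat_lit 22) (.nd (nat_lit 9) 
(.nd (nat_lit 20) 
(.lf (nat_lit 5436080246) (dlOf (nat_lit 2) (nat_lit 0x1080088000ac0800100080004002001200080c0b03))) 
(.lf (nat_lit 9699446) (dlOf (nat_lit 1) (nat_lit 0x500018570b01)))) 
(.lf (nat_lit 3355574902) (dlOf (nat_lit 1) (nat_lit 0x18004009200080a1902)))) (.nd (nat_lit 8) 
(.nd (nat_lit 18) (.lf (nat_lit 12583030) (dlOf (nat_lit 1) (nat_lit 0x4002000200086d1882))) 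
(.lf (nat_lit 24379510) (dlOf (nat_lit 1) (nat_lit 0x400200020008b91882)))) 
(.lf (nat_lit 21365110) (dlOf (nat_lit 1) (nat_lit 0x3a0008a35801))))) (.nd (nat_lit 24) 
(.nd (nat_lit 26) (.nd (nat_lit 27) 
(.lf (nat_lit 537395318) (dlOf (nat_lit 1) (nat_lit 0x400400020008090082))) 
(.lf (nat_lit 134742134) (dlOf (nat_lit 1) (nat_lit 0x180080040002001000080a1883)))) 
(.lf (nat_lit 201850998) (dlOf (nat_lit 1) (nat_lit 0x180080040002001000080a1883)))) 
(.nd (nat_lit 20) 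
(.lf (nat_lit 55050358) (dlOf (nat_lit 10) (nat_lit 0x84c60009262000f12f00024974000a4a7000c2528002125400189260016910000e4c6001f25e00041254002d00c001898c003a4bc000c24a80059c180041318002c94e0018495000b303001a2628002f0080021318002098800144ba000c2528005124c0003014001098c00144c4000825d000512940028926000170a00084c6000c262000612e8003894a00184930000b050008263000593100030974001a4a5000c249800054280028008000400200020009690d83))) 
(.lf (nat_lit 28835958) (dlOf (nat_lit 1) (nat_lit 0x400200020008da0482)))))) (.nd (nat_lit 26) 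
(.nd (nat_lit 8) (.nd (nat_lit 10) (.nd (nat_lit 18) 
(.lf (nat_lit 47251574) (dlOf (nat_lit 1) (nat_lit 0x400193c0d81))) 
(.lf (nat_lit 28639350) (dlOf (nat_lit 1) (nat_lit 0x400200020008da0482)))) 
(.lf (nat_lit 56951926) (dlOf (nat_lit 1) (nat_lit 0x4c0019792a01)))) (.nd (nat_lit 17) 
(.lf (nat_lit 12386678) (dlOf (nat_lit 1) (nat_lit 0xdc002008000086c0782))) 
(.lf (nat_lit 9634166) (dlOf (nat_lit 1) (nat_lit 0xa20008575801))))) (.nd (nat_lit 9) 
(.nd (nat_lit 8) (.lf (nat_lit 67178614) (dlOf (nat_lit 2) (nat_lit 0x4000004c50200240008007d81))) 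
(.nd (nat_lit 10) 
(.lf (nat_lit 1812005238) (dlOf (nat_lit 1) (nat_lit 0x80080018002000800080b0783))) 
(.lf (nat_lit 5570102646) (dlOf (nat_lit 1) (nat_lit 0x20008053501))))) (.nd (nat_lit 17) 
(.lf (nat_lit 2348877686) (dlOf (nat_lit 1) (nat_lit 0x980080068002003e0008004083))) 
(.lf (nat_lit 2751924086) (dlOf (nat_lit 1) (nat_lit 0xfc0008004081))))))) (.nd (nat_lit 17) 
(.nd (nat_lit 30) (.nd (nat_lit 18) (.nd (nat_lit 10) (.nd (nat_lit 26) 
(.lf (nat_lit 4294969718) (dlOf (nat_lit 1) (nat_lit 0x400400020008004e82))) 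
(.lf (nat_lit 5033167222) (dlOf (nat_lit 1) (nat_lit 0x400400020008004e82)))) (.nd (nat_lit 27) 
(.lf (nat_lit 4294970742) (dlOf (nat_lit 1) (nat_lit 0x400400020008006b82))) 
(.lf (nat_lit 134221174) (dlOf (nat_lit 1) (nat_lit 0x400400020008006b82))))) (.nd (nat_lit 9) 
(.nd (nat_lit 16) 
(.lf (nat_lit 57411958) (dlOf (nat_lit 1) (nat_lit 0x38008000c00200120009794e83))) 
(.lf (nat_lit 61147510) (dlOf (nat_lit 1) (nat_lit 0x80080008002000200098c4e83)))) 
(.lf (nat_lit 46467958) (dlOf (nat_lit 1) (nat_lit 0x8008001000200040009385c03))))) 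
(.nd (nat_lit 10) (.nd (nat_lit 8) 
(.lf (nat_lit 1744898678) (dlOf (nat_lit 1) (nat_lit 0x20018095401))) (.nd (nat_lit 16) 
(.lf (nat_lit 5368711542) (dlOf (nat_lit 1) (nat_lit 0x48008003000200160008004e83))) 
(.lf (nat_lit 1744898422) (dlOf (nat_lit 1) (nat_lit 0x400400020008094e82))))) (.nd (nat_lit 12) 
(.lf (nat_lit 3288337782) (dlOf (nat_lit 1) (nat_lit 0xc00400080008006b82))) 
(.lf (nat_lit 3288341878) (dlOf (nat_lit 1) (nat_lit 0x40040002000800c902)))))) (.nd (nat_lit 18) 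
(.nd (nat_lit 16) (.nd (nat_lit 9) (.nd (nat_lit 12) 
(.lf (nat_lit 37882230) (dlOf (nat_lit 1) (nat_lit 0xc002004200090d4e82))) 
(.lf (nat_lit 1677859190) (dlOf (nat_lit 1) (nat_lit 0x2001811ad81)))) 
(.lf (nat_lit 738331510) (dlOf (nat_lit 1) (nat_lit 0x20018095c01)))) (.nd (nat_lit 19) 
(.lf (nat_lit 6107105654) (dlOf (nat_lit 1) (nat_lit 0x400400020008094e82))) 
(.lf (nat_lit 37423478) (dlOf (nat_lit 1) (nat_lit 0xc002000200090d4e82))))) (.nd (nat_lit 23) 
(.nd (nat_lit 10) (.lf (nat_lit 19794294) (dlOf (nat_lit 1) (nat_lit 0x4004000200089d4e82))) 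
(.lf (nat_lit 19795318) (dlOf (nat_lit 1) (nat_lit 0x4004000200089d6b82)))) (.nd (nat_lit 16) 
(.lf (nat_lit 42338678) (dlOf (nat_lit 1) (nat_lit 0x60019244e81))) 
(.lf (nat_lit 62851446) (dlOf (nat_lit 1) (nat_lit 0xc00199a4e81)))))))) (.nd (nat_lit 26) 
(.nd (nat_lit 27) (.nd (nat_lit 10) (.nd (nat_lit 30) (.nd (nat_lit 9) (.nd (nat_lit 16) 
(.lf (nat_lit 6710888822) (dlOf (nat_lit 1) (nat_lit 0x400400020008004e82))) (.nd (nat_lit 17) 
(.lf (nat_lit 4563470710) (dlOf (nat_lit 1) (nat_lit 0x8008000400200020008094e83))) 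
(.lf (nat_lit 268634486) (dlOf (nat_lit 1) (nat_lit 0x200280e4e81))))) (.nd (nat_lit 8) 
(.lf (nat_lit 6710889078) (dlOf (nat_lit 1) (nat_lit 0x400200020008005402))) 
(.lf (nat_lit 805444470) (dlOf (nat_lit 1) (nat_lit 0xa002811bc81))))) (.nd (nat_lit 19) 
(.nd (nat_lit 20) (.nd (nat_lit 29) 
(.lf (nat_lit 1342179702) (dlOf (nat_lit 1) (nat_lit 0x400400020008004e82))) 
(.lf (nat_lit 1879050614) (dlOf (nat_lit 1) (nat_lit 0x400400020008004e82)))) 
(.lf (nat_lit 1345325430) (dlOf (nat_lit 1) (nat_lit 0x3c0028b54e81)))) 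
(.lf (nat_lit 3490187638) (dlOf (nat_lit 1) (nat_lit 0xc00200020008004e82))))) (.nd (nat_lit 9) 
(.nd (nat_lit 11) (.lf (nat_lit 5637277046) (dlOf (nat_lit 1) (nat_lit 0x6400180d3501))) 
(.nd (nat_lit 29) (.lf (nat_lit 1342180726) (dlOf (nat_lit 1) (nat_lit 0x400400020008006b82))) 
(.lf (nat_lit 1879051638) (dlOf (nat_lit 1) (nat_lit 0x400400020008006b82))))) (.nd (nat_lit 16) 
(.lf (nat_lit 4026533750) (dlOf (nat_lit 1) (nat_lit 0x400400020018004082))) 
(.lf (nat_lit 3492743030) (dlOf (nat_lit 1) (nat_lit 0x80080004002000200080f4083)))))) 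
(.nd (nat_lit 11) (.nd (nat_lit 8) (.nd (nat_lit 16) 
(.lf (nat_lit 1476788342) (dlOf (nat_lit 3) (nat_lit 0x22007000c60100060038006240800b00080074002002e00081a0483))) 
(.lf (nat_lit 6308561014) (dlOf (nat_lit 1) (nat_lit 0x20018100d81)))) (.nd (nat_lit 9) 
(.nd (nat_lit 10) 
(.lf (nat_lit 5772149110) (dlOf (nat_lit 4) (nat_lit 0x7847800b023a0016104003a11c00080000002741000c047000140000008e0400020018091001))) 
(.lf (nat_lit 6308300150) (dlOf (nat_lit 1) (nat_lit 0xbc002004c0008053502)))) 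
(.lf (nat_lit 4161016694) (dlOf (nat_lit 1) (nat_lit 0xe00180a8f81))))) (.nd (nat_lit 10) 
(.nd (nat_lit 12) (.nd (nat_lit 16) (.nd (nat_lit 29) 
(.lf (nat_lit 2550139254) (dlOf (nat_lit 1) (nat_lit 0x400400020008004e82))) 
(.lf (nat_lit 2013268342) (dlOf (nat_lit 1) (nat_lit 0x400400020008004e82)))) 
(.lf (nat_lit 3624077686) (dlOf (nat_lit 1) (nat_lit 0x8008000400200020008144e83)))) 
(.lf (nat_lit 3623885174) (dlOf (nat_lit 1) (nat_lit 0x2002800ad81)))) (.nd (nat_lit 12) 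
(.nd (nat_lit 16) (.lf (nat_lit 2550140278) (dlOf (nat_lit 1) (nat_lit 0x400400020008006b82))) 
(.lf (nat_lit 3624078710) (dlOf (nat_lit 1) (nat_lit 0x400400020008146b82)))) 
(.lf (nat_lit 2550144374) (dlOf (nat_lit 1) (nat_lit 0x800800040020002000800c903))))))) 
(.nd (nat_lit 27) (.nd (nat_lit 10) (.nd (nat_lit 17) (.nd (nat_lit 29) (.nd (nat_lit 16) 
(.lf (nat_lit 1409288566) (dlOf (nat_lit 1) (nat_lit 0x400400020008004e82))) 
(.lf (nat_lit 335612278) (dlOf (nat_lit 1) (nat_lit 0x400400020008094e82)))) (.nd (nat_lit 20) 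
(.lf (nat_lit 1946159478) (dlOf (nat_lit 1) (nat_lit 0x400400020008004e82))) 
(.lf (nat_lit 4094691702) (dlOf (nat_lit 1) (nat_lit 0x400400020008054e82))))) (.nd (nat_lit 11) 
(.lf (nat_lit 5167513974) (dlOf (nat_lit 1) (nat_lit 0x2e800401ca0008075802))) (.nd (nat_lit 16) 
(.lf (nat_lit 6241257846) (dlOf (nat_lit 1) (nat_lit 0x4004000200080d4e82))) 
(.lf (nat_lit 4630710646) (dlOf (nat_lit 1) (nat_lit 0x400400020008094e82)))))) (.nd (nat_lit 30) 
(.nd (nat_lit 8) (.lf (nat_lit 2483031158) (dlOf (nat_lit 1) (nat_lit 0x40028006081))) 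
(.lf (nat_lit 2483031414) (dlOf (nat_lit 1) (nat_lit 0x400400020008006b82)))) (.nd (nat_lit 12) 
(.nd (nat_lit 29) (.lf (nat_lit 1409289590) (dlOf (nat_lit 1) (nat_lit 0x400400020008006b82))) 
(.lf (nat_lit 1946160502) (dlOf (nat_lit 1) (nat_lit 0x400400020008006b82)))) 
(.lf (nat_lit 1409359222) (dlOf (nat_lit 1) (nat_lit 0x20002800c901)))))) (.nd (nat_lit 16) 
(.nd (nat_lit 30) (.nd (nat_lit 8) 
(.lf (nat_lit 5301862518) (dlOf (nat_lit 2) (nat_lit 0x1080088000500800100080004002001200080c0b03))) 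
(.nd (nat_lit 29) (.lf (nat_lit 4764731766) (dlOf (nat_lit 1) (nat_lit 0x400400020008004e82))) 
(.lf (nat_lit 5301602678) (dlOf (nat_lit 1) (nat_lit 0x400400020008004e82))))) (.nd (nat_lit 10) 
(.lf (nat_lit 4227860854) (dlOf (nat_lit 1) (nat_lit 0x400400020008004e82))) (.nd (nat_lit 11) 
(.lf (nat_lit 3690993014) (dlOf (nat_lit 1) (nat_lit 0xb8008001c00200040008009903))) 
(.lf (nat_lit 4227861878) (dlOf (nat_lit 1) (nat_lit 0x400400020008006b82)))))) (.nd (nat_lit 8) 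
(.nd (nat_lit 9) (.lf (nat_lit 474284150) (dlOf (nat_lit 1) (nat_lit 0x9c0009110b01))) 
(.lf (nat_lit 2617448054) (dlOf (nat_lit 1) (nat_lit 0x600080a9d01)))) (.nd (nat_lit 10) 
(.nd (nat_lit 17) (.lf (nat_lit 1543571830) (dlOf (nat_lit 1) (nat_lit 0x20028144e81))) 
(.lf (nat_lit 1543702902) (dlOf (nat_lit 1) (nat_lit 0x10004000c0008144e82)))) 
(.lf (nat_lit 1543572854) (dlOf (nat_lit 1) (nat_lit 0x20028146b81)))))))))) (.nd (nat_lit 17) 
(.nd (nat_lit 9) (.nd (nat_lit 30) (.nd (nat_lit 21) (.nd (nat_lit 10) (.nd (nat_lit 27) 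
(.nd (nat_lit 8) (.nd (nat_lit 5) 
(.lf (nat_lit 4563468502) (dlOf (nat_lit 2) (nat_lit 0x1405e0000402001c0008090981))) 
(.lf (nat_lit 1573110) (dlOf (nat_lit 1) (nat_lit 0x600280f6f01)))) (.nd (nat_lit 11) 
(.lf (nat_lit 2752512502) (dlOf (nat_lit 3) (nat_lit 0x22040000178100200200000b40800200080020002000a0008017e03))) 
(.lf (nat_lit 536877558) (dlOf (nat_lit 1) (nat_lit 0x40040004001800b282))))) (.nd (nat_lit 16) 
(.nd (nat_lit 5) 
(.lf (nat_lit 4764729558) (dlOf (nat_lit 1) (nat_lit 0x10008000400200020008000983))) 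
(.lf (nat_lit 4966056438) (dlOf (nat_lit 1) (nat_lit 0x400200020008001402)))) (.nd (nat_lit 31) 
(.lf (nat_lit 939589878) (dlOf (nat_lit 2) (nat_lit 0x40090001c03e003a01a000a0000008ec2000580080108002000400080b0483))) 
(.lf (nat_lit 3087073526) (dlOf (nat_lit 3) (nat_lit 0x1201f000d00d8002005c0024000001d008000201f000100b8007381000080080168002000600080b0483)))))) 
(.nd (nat_lit 8) (.nd (nat_lit 5) (.nd (nat_lit 11) 
(.lf (nat_lit 872482006) (dlOf (nat_lit 2) (nat_lit 0x1c05a000310200040018092d81))) 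
(.lf (nat_lit 2550140118) (dlOf (nat_lit 1) (nat_lit 0x400400020008006482)))) (.nd (nat_lit 12) 
(.lf (nat_lit 872482038) (dlOf (nat_lit 1) (nat_lit 0x6e00080294002010a0008092e83))) 
(.lf (nat_lit 2617316598) (dlOf (nat_lit 1) (nat_lit 0x4002000200080a9502))))) (.nd (nat_lit 16) 
(.nd (nat_lit 26) (.lf (nat_lit 4966057462) (dlOf (nat_lit 1) (nat_lit 0x400400020008003682))) 
(.lf (nat_lit 4630513142) (dlOf (nat_lit 1) (nat_lit 0x400400020008003682)))) 
(.lf (nat_lit 4697687542) (dlOf (nat_lit 1) (nat_lit 0x8008007000200420008093683)))))) 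
(.nd (nat_lit 5) (.nd (nat_lit 12) (.nd (nat_lit 8) (.nd (nat_lit 10) (.nd (nat_lit 19) 
(.lf (nat_lit 3408086) (dlOf (nat_lit 1) (nat_lit 0x400400020018200482))) 
(.lf (nat_lit 12320982) (dlOf (nat_lit 1) (nat_lit 0x4002000200086c0482)))) 
(.lf (nat_lit 20188374) (dlOf (nat_lit 1) (nat_lit 0x200289d6481)))) 
(.lf (nat_lit 40894934) (dlOf (nat_lit 1) (nat_lit 0x20029207b01)))) (.nd (nat_lit 8) 
(.nd (nat_lit 20) (.lf (nat_lit 19665110) (dlOf (nat_lit 1) (nat_lit 0x1000289d8081))) 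
(.lf (nat_lit 8130774) (dlOf (nat_lit 1) (nat_lit 0x2400400040018518082)))) 
(.lf (nat_lit 19666390) (dlOf (nat_lit 1) (nat_lit 0x4004000200089d9b02))))) (.nd (nat_lit 12) 
(.nd (nat_lit 8) 
(.lf (nat_lit 58261750) (dlOf (nat_lit 2) (nat_lit 0x7b3b400000040008004000600097d6f02))) 
(.nd (nat_lit 10) 
(.lf (nat_lit 23396854) (dlOf (nat_lit 2) (nat_lit 0x4722c003f87000000028b80d80))) 
(.lf (nat_lit 61408758) (dlOf (nat_lit 1) (nat_lit 0x8008010c00200560009923683))))) 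
(.nd (nat_lit 8) (.lf (nat_lit 20191478) (dlOf (nat_lit 1) (nat_lit 0x8008000c002000600089da983))) 
(.nd (nat_lit 10) (.lf (nat_lit 8133110) (dlOf (nat_lit 1) (nat_lit 0x2001851b281))) 
(.lf (nat_lit 7935478) (dlOf (nat_lit 1) (nat_lit 0x8004002a0008519c02)))))))) (.nd (nat_lit 5) 
(.nd (nat_lit 10) (.nd (nat_lit 16) (.nd (nat_lit 18) (.nd (nat_lit 26) 
(.lf (nat_lit 1074266326) (dlOf (nat_lit 2) (nat_lit 0x2d80000039a040030002001400081b0482))) 
(.lf (nat_lit 1946681558) (dlOf (nat_lit 2) (nat_lit 0x2d80000039a040030002001400081b0482)))) 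
(.lf (nat_lit 5436080342) (dlOf (nat_lit 2) (nat_lit 0x2405c0003a02001a00180c1c01)))) 
(.nd (nat_lit 19) (.lf (nat_lit 1678049494) (dlOf (nat_lit 1) (nat_lit 0x20018155d01))) 
(.lf (nat_lit 6377242838) (dlOf (nat_lit 1) (nat_lit 0x400280c1c01))))) (.nd (nat_lit 11) 
(.nd (nat_lit 8) (.nd (nat_lit 16) 
(.lf (nat_lit 5772674262) (dlOf (nat_lit 1) (nat_lit 0x400400020008092d82))) 
(.lf (nat_lit 5435884758) (dlOf (nat_lit 2) (nat_lit 0x240260003f0200160018002d81)))) 
(.lf (nat_lit 1140852182) (dlOf (nat_lit 1) (nat_lit 0xa0018003601)))) (.nd (nat_lit 29) 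
(.nd (nat_lit 16) (.lf (nat_lit 1342180566) (dlOf (nat_lit 1) (nat_lit 0x400400020008006482))) 
(.lf (nat_lit 3624209622) (dlOf (nat_lit 1) (nat_lit 0xe000400500008146482)))) (.nd (nat_lit 26) 
(.lf (nat_lit 1879051478) (dlOf (nat_lit 1) (nat_lit 0x400400020008006482))) 
(.lf (nat_lit 1946160342) (dlOf (nat_lit 1) (nat_lit 0x400400020008006482))))))) (.nd (nat_lit 10) 
(.nd (nat_lit 8) (.nd (nat_lit 11) (.nd (nat_lit 27) 
(.lf (nat_lit 3825271030) (dlOf (nat_lit 3) (nat_lit 0x1201f000d00d8002005c0024000001d008000201f000100b8007381000080080168002000600080b0483))) 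
(.lf (nat_lit 1812005110) (dlOf (nat_lit 2) (nat_lit 0x40090001c03e003a01a000a0000008ec2000580080108002000400080b0483)))) 
(.lf (nat_lit 4026534134) (dlOf (nat_lit 1) (nat_lit 0x10008009c002001a0008004b83)))) 
(.nd (nat_lit 11) (.nd (nat_lit 18) 
(.lf (nat_lit 1879052790) (dlOf (nat_lit 1) (nat_lit 0x400200020008008682))) 
(.lf (nat_lit 3557036534) (dlOf (nat_lit 1) (nat_lit 0xb00080004002000a0008128683)))) 
(.nd (nat_lit 18) 
(.lf (nat_lit 3221232118) (dlOf (nat_lit 1) (nat_lit 0x780080010002000a000800b283))) 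
(.lf (nat_lit 3959691766) (dlOf (nat_lit 1) (nat_lit 0x40040002000811b282)))))) (.nd (nat_lit 26) 
(.nd (nat_lit 8) (.nd (nat_lit 12) 
(.lf (nat_lit 5772674294) (dlOf (nat_lit 1) (nat_lit 0x400400020008092e82))) 
(.lf (nat_lit 3355514102) (dlOf (nat_lit 1) (nat_lit 0x18004000400080a9502)))) 
(.lf (nat_lit 5502928374) (dlOf (nat_lit 1) (nat_lit 0x400400020008003682)))) (.nd (nat_lit 27) 
(.nd (nat_lit 32) (.lf (nat_lit 1140852214) (dlOf (nat_lit 1) (nat_lit 0x400400020008003682))) 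
(.lf (nat_lit 5435819510) (dlOf (nat_lit 1) (nat_lit 0x400400020008003682)))) 
(.lf (nat_lit 6106908150) (dlOf (nat_lit 1) (nat_lit 0x8008000800200020008003683)))))))) 
(.nd (nat_lit 18) (.nd (nat_lit 26) (.nd (nat_lit 5) (.nd (nat_lit 28) (.nd (nat_lit 19) 
(.nd (nat_lit 10) (.nd (nat_lit 11) 
(.lf (nat_lit 34603990) (dlOf (nat_lit 1) (nat_lit 0x180018fb2881))) 
(.lf (nat_lit 5368712150) (dlOf (nat_lit 1) (nat_lit 0x400400020008005e02)))) 
(.lf (nat_lit 8390614) (dlOf (nat_lit 1) (nat_lit 0x10008000800200040008514503)))) 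
(.nd (nat_lit 16) (.lf (nat_lit 56099798) (dlOf (nat_lit 1) (nat_lit 0xc00200020009732882))) 
(.lf (nat_lit 56165334) (dlOf (nat_lit 1) (nat_lit 0x8008000400200020009732883))))) 
(.nd (nat_lit 16) (.nd (nat_lit 11) (.nd (nat_lit 12) 
(.lf (nat_lit 6308234198) (dlOf (nat_lit 1) (nat_lit 0x8008000800200020008002883))) 
(.lf (nat_lit 1342182358) (dlOf (nat_lit 1) (nat_lit 0x320028009201)))) 
(.lf (nat_lit 6710889430) (dlOf (nat_lit 1) (nat_lit 0x400400020008005e02)))) (.nd (nat_lit 29) 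
(.lf (nat_lit 2415985622) (dlOf (nat_lit 1) (nat_lit 0x20028002881))) 
(.lf (nat_lit 5100340182) (dlOf (nat_lit 1) (nat_lit 0xc0028052881)))))) (.nd (nat_lit 25) 
(.nd (nat_lit 10) (.nd (nat_lit 8) 
(.lf (nat_lit 4160819958) (dlOf (nat_lit 1) (nat_lit 0x20028008f81))) (.nd (nat_lit 12) 
(.lf (nat_lit 5771430902) (dlOf (nat_lit 1) (nat_lit 0x38008001800200020008005f03))) 
(.lf (nat_lit 1342184438) (dlOf (nat_lit 1) (nat_lit 0x10004000e000800bf02))))) (.nd (nat_lit 12) 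
(.lf (nat_lit 4429187062) (dlOf (nat_lit 1) (nat_lit 0x400400020008004682))) 
(.lf (nat_lit 3623884790) (dlOf (nat_lit 1) (nat_lit 0x4001800a601))))) (.nd (nat_lit 20) 
(.nd (nat_lit 11) (.lf (nat_lit 61408246) (dlOf (nat_lit 1) (nat_lit 0x20019922881))) 
(.lf (nat_lit 54594550) (dlOf (nat_lit 2) (nat_lit 0x1055000019019655f00)))) (.nd (nat_lit 21) 
(.lf (nat_lit 55641078) (dlOf (nat_lit 1) (nat_lit 0x14002000800096d2882))) 
(.lf (nat_lit 36766710) (dlOf (nat_lit 1) (nat_lit 0x820009072881))))))) (.nd (nat_lit 27) 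
(.nd (nat_lit 29) (.nd (nat_lit 5) (.nd (nat_lit 16) 
(.lf (nat_lit 6509560790) (dlOf (nat_lit 1) (nat_lit 0xe0028002881))) (.nd (nat_lit 19) 
(.lf (nat_lit 5435884502) (dlOf (nat_lit 1) (nat_lit 0x1c004000e0018002882))) 
(.lf (nat_lit 68748246) (dlOf (nat_lit 1) (nat_lit 0x800400020008722882))))) (.nd (nat_lit 8) 
(.lf (nat_lit 2214662902) (dlOf (nat_lit 1) (nat_lit 0x9400400080008008f82))) 
(.lf (nat_lit 67116022) (dlOf (nat_lit 1) (nat_lit 0x6002800bf01))))) (.nd (nat_lit 5) 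
(.nd (nat_lit 16) (.nd (nat_lit 19) 
(.lf (nat_lit 4898948054) (dlOf (nat_lit 1) (nat_lit 0x400200020008002882))) 
(.lf (nat_lit 2751988694) (dlOf (nat_lit 1) (nat_lit 0x400200020008002882)))) 
(.lf (nat_lit 2751529942) (dlOf (nat_lit 1) (nat_lit 0x40018002881)))) (.nd (nat_lit 31) 
(.lf (nat_lit 604505078) (dlOf (nat_lit 1) (nat_lit 0x4000082d2881))) 
(.lf (nat_lit 2751988726) (dlOf (nat_lit 1) (nat_lit 0x400200020008002882)))))) (.nd (nat_lit 28) 
(.nd (nat_lit 10) (.nd (nat_lit 11) 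
(.lf (nat_lit 2348876758) (dlOf (nat_lit 1) (nat_lit 0x400200120008002882))) 
(.lf (nat_lit 5033167830) (dlOf (nat_lit 1) (nat_lit 0x400400020008005e02)))) (.nd (nat_lit 16) 
(.lf (nat_lit 201328598) (dlOf (nat_lit 1) (nat_lit 0x18008002400200060008004503))) 
(.lf (nat_lit 2348877782) (dlOf (nat_lit 1) (nat_lit 0x80080008002001a0008004503))))) 
(.nd (nat_lit 5) (.nd (nat_lit 8) 
(.lf (nat_lit 2617311958) (dlOf (nat_lit 1) (nat_lit 0x2400280a2081))) (.nd (nat_lit 11) 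
(.lf (nat_lit 469767126) (dlOf (nat_lit 1) (nat_lit 0x320028009201))) 
(.lf (nat_lit 4764732374) (dlOf (nat_lit 1) (nat_lit 0x400400020008005e02))))) 
(.lf (nat_lit 1006634998) (dlOf (nat_lit 1) (nat_lit 0x400400020008004682))))))) (.nd (nat_lit 19) 
(.nd (nat_lit 27) (.nd (nat_lit 25) (.nd (nat_lit 5) (.nd (nat_lit 10) (.nd (nat_lit 23) 
(.lf (nat_lit 1610875862) (dlOf (nat_lit 1) (nat_lit 0x60018092881))) 
(.lf (nat_lit 8651734) (dlOf (nat_lit 1) (nat_lit 0x800400040018512882)))) 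
(.lf (nat_lit 331734) (dlOf (nat_lit 1) (nat_lit 0x20018007a81)))) (.nd (nat_lit 16) 
(.lf (nat_lit 3557036022) (dlOf (nat_lit 1) (nat_lit 0xe0028127a81))) 
(.lf (nat_lit 3557101558) (dlOf (nat_lit 1) (nat_lit 0x400200020008127a82))))) (.nd (nat_lit 16) 
(.nd (nat_lit 5) (.nd (nat_lit 22) 
(.lf (nat_lit 61080534) (dlOf (nat_lit 1) (nat_lit 0x600198c2881))) 
(.lf (nat_lit 40109014) (dlOf (nat_lit 1) (nat_lit 0x4004000200091f2882)))) 
(.lf (nat_lit 46402550) (dlOf (nat_lit 10) (nat_lit 0xed7f8000aa040016bfc0005402000b5fe00027810003aff0001380801457f80009a0401aebda0004c02000349e00020010005aff0000fc08000d7ec00030040018002000e0009385f02)))) 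
(.nd (nat_lit 22) (.lf (nat_lit 51708886) (dlOf (nat_lit 1) (nat_lit 0x400200020009512882))) 
(.lf (nat_lit 39125974) (dlOf (nat_lit 1) (nat_lit 0x8008009400200220009192883)))))) 
(.nd (nat_lit 26) (.nd (nat_lit 5) (.nd (nat_lit 11) 
(.lf (nat_lit 5773722582) (dlOf (nat_lit 1) (nat_lit 0x400280e2881))) 
(.lf (nat_lit 2818841558) (dlOf (nat_lit 1) (nat_lit 0x48008009c0020052000812bf03)))) 
(.lf (nat_lit 2818839542) (dlOf (nat_lit 1) (nat_lit 0x4800800d000200680008129203)))) 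
(.nd (nat_lit 16) (.nd (nat_lit 21) 
(.lf (nat_lit 6375605206) (dlOf (nat_lit 1) (nat_lit 0x20028002881))) 
(.lf (nat_lit 6377702358) (dlOf (nat_lit 1) (nat_lit 0x400280e2881)))) (.nd (nat_lit 10) 
(.lf (nat_lit 2886009814) (dlOf (nat_lit 1) (nat_lit 0x8002000a0008142882))) 
(.lf (nat_lit 2886010838) (dlOf (nat_lit 3) (nat_lit 0x1a03e001c0000000501000e00f80002604000800400060018144502))))))) 
(.nd (nat_lit 21) (.nd (nat_lit 20) (.nd (nat_lit 22) (.nd (nat_lit 25) (.nd (nat_lit 27) 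
(.lf (nat_lit 2752250838) (dlOf (nat_lit 1) (nat_lit 0x120008002881))) 
(.lf (nat_lit 4228645846) (dlOf (nat_lit 1) (nat_lit 0x400400020018112882)))) 
(.lf (nat_lit 34341846) (dlOf (nat_lit 1) (nat_lit 0x8008000400200040008fb2883)))) (.nd (nat_lit 5) 
(.lf (nat_lit 38536150) (dlOf (nat_lit 1) (nat_lit 0x14002000a0009132882))) 
(.lf (nat_lit 38536182) (dlOf (nat_lit 1) (nat_lit 0x400200020009132882))))) (.nd (nat_lit 16) 
(.nd (nat_lit 22) (.lf (nat_lit 43779030) (dlOf (nat_lit 1) (nat_lit 0x20004004200092a2882))) 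
(.lf (nat_lit 39584726) (dlOf (nat_lit 1) (nat_lit 0x1800200020009192882)))) (.nd (nat_lit 22) 
(.lf (nat_lit 1880949718) (dlOf (nat_lit 1) (nat_lit 0x8008000400200020008d72883))) 
(.lf (nat_lit 56427478) (dlOf (nat_lit 1) (nat_lit 0x8008000800200040009732883)))))) 
(.nd (nat_lit 16) (.nd (nat_lit 5) (.nd (nat_lit 20) (.nd (nat_lit 25) 
(.lf (nat_lit 472646614) (dlOf (nat_lit 1) (nat_lit 0xc004000200089e2882))) 
(.lf (nat_lit 36438998) (dlOf (nat_lit 1) (nat_lit 0x20019072881)))) 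
(.lf (nat_lit 41681878) (dlOf (nat_lit 1) (nat_lit 0x180029242881)))) (.nd (nat_lit 8) 
(.lf (nat_lit 20716278) (dlOf (nat_lit 1) (nat_lit 0x4002000200089db982))) 
(.lf (nat_lit 36439030) (dlOf (nat_lit 1) (nat_lit 0x20019072881))))) (.nd (nat_lit 20) 
(.nd (nat_lit 5) (.lf (nat_lit 32310230) (dlOf (nat_lit 1) (nat_lit 0x8008000400200020008ef2883))) 
(.lf (nat_lit 57477878) (dlOf (nat_lit 1) (nat_lit 0x20009795a01)))) (.nd (nat_lit 22) 
(.lf (nat_lit 473760726) (dlOf (nat_lit 1) (nat_lit 0x58008003400200100008fa2883))) 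
(.lf (nat_lit 50136022) (dlOf (nat_lit 1) (nat_lit 0x200294c2881)))))))))) (.nd (nat_lit 16) 
(.nd (nat_lit 18) (.nd (nat_lit 9) (.nd (nat_lit 5) (.nd (nat_lit 8) (.nd (nat_lit 10) 
(.nd (nat_lit 20) (.lf (nat_lit 4563534038) (dlOf (nat_lit 2) (nat_lit 0xc02f00002018090980))) 
(.lf (nat_lit 3277014) (dlOf (nat_lit 1) (nat_lit 0x400200020008200482)))) (.nd (nat_lit 28) 
(.lf (nat_lit 3221363926) (dlOf (nat_lit 3) (nat_lit 0x3e0460005181000502300028808008000800d800200a6000811c383))) 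
(.lf (nat_lit 805444822) (dlOf (nat_lit 2) (nat_lit 0x902b00028c0800d0008002c002006a000811c383))))) 
(.nd (nat_lit 26) (.nd (nat_lit 28) 
(.lf (nat_lit 3892445654) (dlOf (nat_lit 3) (nat_lit 0x1206800060330004041000501a0001fa04012c00400040018117b02))) 
(.lf (nat_lit 402784726) (dlOf (nat_lit 1) (nat_lit 0x60018091201)))) 
(.lf (nat_lit 3020030422) (dlOf (nat_lit 3) (nat_lit 0x70038002401800180000008583001100000041c0802680080044002000600080e7b03))))) 
(.nd (nat_lit 26) (.nd (nat_lit 10) (.nd (nat_lit 20) 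
(.lf (nat_lit 402784758) (dlOf (nat_lit 1) (nat_lit 0x60018091401))) 
(.lf (nat_lit 11665910) (dlOf (nat_lit 1) (nat_lit 0x4002000200086c0d82)))) 
(.lf (nat_lit 5637277174) (dlOf (nat_lit 1) (nat_lit 0x80080028002001c00080d3683)))) 
(.nd (nat_lit 8) (.nd (nat_lit 19) 
(.lf (nat_lit 738328822) (dlOf (nat_lit 3) (nat_lit 0xac0420015602001002100067818090a80))) 
(.lf (nat_lit 1007288566) (dlOf (nat_lit 1) (nat_lit 0x300080004002001400082e0603)))) 
(.lf (nat_lit 2752125430) (dlOf (nat_lit 1) (nat_lit 0x8004006e000800b282)))))) (.nd (nat_lit 19) 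
(.nd (nat_lit 29) (.nd (nat_lit 20) (.nd (nat_lit 8) 
(.lf (nat_lit 2617377494) (dlOf (nat_lit 3) (nat_lit 0x602b0001081000401580007c0801e8008014000200a800080a2083))) 
(.lf (nat_lit 31589334) (dlOf (nat_lit 1) (nat_lit 0x20008e92881)))) (.nd (nat_lit 22) 
(.lf (nat_lit 34735062) (dlOf (nat_lit 1) (nat_lit 0x140018fb2881))) 
(.lf (nat_lit 38929366) (dlOf (nat_lit 1) (nat_lit 0x400200020009192882))))) (.nd (nat_lit 5) 
(.nd (nat_lit 10) (.lf (nat_lit 3087139798) (dlOf (nat_lit 1) (nat_lit 0x20018142881))) 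
(.lf (nat_lit 537003990) (dlOf (nat_lit 3) (nat_lit 0x1805a00c2005000800180004018029817c0001c04000c00200060008004502)))) 
(.nd (nat_lit 11) (.lf (nat_lit 537002998) (dlOf (nat_lit 1) (nat_lit 0x20018002881))) 
(.lf (nat_lit 6174149622) (dlOf (nat_lit 2) (nat_lit 0x1c0320003202000e0018055f01)))))) 
(.nd (nat_lit 21) (.nd (nat_lit 22) (.nd (nat_lit 25) 
(.lf (nat_lit 1611269078) (dlOf (nat_lit 1) (nat_lit 0x160018122881))) 
(.lf (nat_lit 34210774) (dlOf (nat_lit 1) (nat_lit 0x40028fb2881)))) (.nd (nat_lit 24) 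
(.lf (nat_lit 38405078) (dlOf (nat_lit 1) (nat_lit 0x20019132881))) 
(.lf (nat_lit 55182294) (dlOf (nat_lit 1) (nat_lit 0x200196d2881))))) (.nd (nat_lit 23) 
(.lf (nat_lit 40502230) (dlOf (nat_lit 1) (nat_lit 0x100080004002000400091f2883))) 
(.lf (nat_lit 32113622) (dlOf (nat_lit 1) (nat_lit 0x800400040018ef2882))))))) (.nd (nat_lit 21) 
(.nd (nat_lit 9) (.nd (nat_lit 8) (.nd (nat_lit 27) 
(.lf (nat_lit 4295360726) (dlOf (nat_lit 1) (nat_lit 0x100080008002000400081a0483))) 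
(.nd (nat_lit 28) 
(.lf (nat_lit 4429578454) (dlOf (nat_lit 1) (nat_lit 0x100080008002000400081a0483))) 
(.lf (nat_lit 1476788438) (dlOf (nat_lit 1) (nat_lit 0x4004000200081a0502))))) (.nd (nat_lit 5) 
(.nd (nat_lit 27) (.lf (nat_lit 4362469846) (dlOf (nat_lit 1) (nat_lit 0x20008090a81))) 
(.lf (nat_lit 4228252118) (dlOf (nat_lit 1) (nat_lit 0x20008090a81)))) 
(.lf (nat_lit 4095608310) (dlOf (nat_lit 1) (nat_lit 0x4004000200080e3682))))) (.nd (nat_lit 22) 
(.nd (nat_lit 5) (.nd (nat_lit 24) 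
(.lf (nat_lit 403047382) (dlOf (nat_lit 1) (nat_lit 0x80080004002000800080e2883))) 
(.lf (nat_lit 50725846) (dlOf (nat_lit 1) (nat_lit 0xc002001200094c2882)))) 
(.lf (nat_lit 2751857654) (dlOf (nat_lit 1) (nat_lit 0x20018002881)))) (.nd (nat_lit 19) 
(.lf (nat_lit 38142934) (dlOf (nat_lit 1) (nat_lit 0x120009132881))) (.nd (nat_lit 20) 
(.lf (nat_lit 55444438) (dlOf (nat_lit 1) (nat_lit 0x80080004002000200096d2883))) 
(.lf (nat_lit 56493014) (dlOf (nat_lit 1) (nat_lit 0xc00200040009732882))))))) (.nd (nat_lit 19) 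
(.nd (nat_lit 26) (.nd (nat_lit 5) (.nd (nat_lit 20) 
(.lf (nat_lit 5773853654) (dlOf (nat_lit 1) (nat_lit 0x80080004002001e00080e2883))) 
(.lf (nat_lit 3493200854) (dlOf (nat_lit 1) (nat_lit 0xf8008000c002002200080f2883)))) 
(.lf (nat_lit 61210870) (dlOf (nat_lit 1) (nat_lit 0x80080004002000200098e2483)))) 
(.nd (nat_lit 29) (.lf (nat_lit 472253398) (dlOf (nat_lit 1) (nat_lit 0x40008922881))) 
(.lf (nat_lit 6377833430) (dlOf (nat_lit 1) (nat_lit 0x1a00080e2881))))) (.nd (nat_lit 8) 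
(.nd (nat_lit 5) (.nd (nat_lit 9) 
(.lf (nat_lit 23986390) (dlOf (nat_lit 1) (nat_lit 0x400200020008b80482))) 
(.lf (nat_lit 8258262) (dlOf (nat_lit 1) (nat_lit 0x100018512081)))) 
(.lf (nat_lit 19798262) (dlOf (nat_lit 1) (nat_lit 0x200089da981)))) (.nd (nat_lit 11) 
(.nd (nat_lit 20) 
(.lf (nat_lit 61735894) (dlOf (nat_lit 1) (nat_lit 0x80008001800200120009922883))) 
(.lf (nat_lit 1346241494) (dlOf (nat_lit 1) (nat_lit 0x8008000c00200040008e82883)))) 
(.lf (nat_lit 19794902) (dlOf (nat_lit 1) (nat_lit 0x4004000200089d5e02)))))))) (.nd (nat_lit 20) 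
(.nd (nat_lit 5) (.nd (nat_lit 18) (.nd (nat_lit 26) (.nd (nat_lit 19) (.nd (nat_lit 24) 
(.lf (nat_lit 5368906710) (dlOf (nat_lit 1) (nat_lit 0x400400020008092882))) 
(.lf (nat_lit 50529238) (dlOf (nat_lit 1) (nat_lit 0x200294c2881)))) (.nd (nat_lit 22) 
(.lf (nat_lit 721878) (dlOf (nat_lit 1) (nat_lit 0x20028002881))) 
(.lf (nat_lit 38470614) (dlOf (nat_lit 1) (nat_lit 0x20009132881))))) (.nd (nat_lit 21) 
(.nd (nat_lit 30) (.lf (nat_lit 5033362390) (dlOf (nat_lit 1) (nat_lit 0x400400020008092882))) 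
(.lf (nat_lit 3959620566) (dlOf (nat_lit 1) (nat_lit 0x20018112881)))) 
(.lf (nat_lit 69403606) (dlOf (nat_lit 1) (nat_lit 0x10008000c00200020008962883))))) 
(.nd (nat_lit 8) (.nd (nat_lit 9) 
(.lf (nat_lit 19864790) (dlOf (nat_lit 1) (nat_lit 0x200189dc381))) 
(.lf (nat_lit 57084630) (dlOf (nat_lit 1) (nat_lit 0x20019795881)))) (.nd (nat_lit 10) 
(.nd (nat_lit 24) 
(.lf (nat_lit 2751923158) (dlOf (nat_lit 1) (nat_lit 0x8008000400200020008002883))) 
(.lf (nat_lit 50791382) (dlOf (nat_lit 1) (nat_lit 0x3b80080004002009600094c2883)))) 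
(.lf (nat_lit 2751924182) (dlOf (nat_lit 6) (nat_lit 0x11c10c000140200b20860000981005804300004408026022401341100001004009c089004d04400003810004800803c400200040008004503)))))) 
(.nd (nat_lit 8) (.nd (nat_lit 21) (.nd (nat_lit 18) (.nd (nat_lit 27) 
(.lf (nat_lit 4295164150) (dlOf (nat_lit 1) (nat_lit 0x400400020008090482))) 
(.lf (nat_lit 4429381878) (dlOf (nat_lit 1) (nat_lit 0x400400020008090482)))) 
(.lf (nat_lit 6376325366) (dlOf (nat_lit 2) (nat_lit 0xf091000580080038008000800200040008090a83)))) 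
(.nd (nat_lit 10) (.nd (nat_lit 19) 
(.lf (nat_lit 2294006) (dlOf (nat_lit 1) (nat_lit 0x3400400180008150482))) 
(.lf (nat_lit 23789814) (dlOf (nat_lit 1) (nat_lit 0x400400020008b80482)))) 
(.lf (nat_lit 4096197878) (dlOf (nat_lit 1) (nat_lit 0x4004000600080e2e82))))) (.nd (nat_lit 29) 
(.nd (nat_lit 9) (.lf (nat_lit 4764927478) (dlOf (nat_lit 1) (nat_lit 0x400400020008093682))) 
(.nd (nat_lit 19) (.lf (nat_lit 35849206) (dlOf (nat_lit 1) (nat_lit 0x20019012881))) 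
(.lf (nat_lit 36373494) (dlOf (nat_lit 1) (nat_lit 0x20029072881))))) (.nd (nat_lit 18) 
(.lf (nat_lit 1677919222) (dlOf (nat_lit 1) (nat_lit 0x20018112881))) (.nd (nat_lit 27) 
(.lf (nat_lit 2751923190) (dlOf (nat_lit 1) (nat_lit 0x8008000400200020008002883))) 
(.lf (nat_lit 2080834550) (dlOf (nat_lit 1) (nat_lit 0x5800800a4002003200080e2883)))))))) 
(.nd (nat_lit 19) (.nd (nat_lit 21) (.nd (nat_lit 18) (.nd (nat_lit 22) 
(.lf (nat_lit 43189206) (dlOf (nat_lit 1) (nat_lit 0x200292a2881))) 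
(.lf (nat_lit 38994902) (dlOf (nat_lit 1) (nat_lit 0x400200020009192882)))) (.nd (nat_lit 22) 
(.lf (nat_lit 5772870614) (dlOf (nat_lit 1) (nat_lit 0x8008000400200040008092883))) 
(.lf (nat_lit 39257046) (dlOf (nat_lit 1) (nat_lit 0x400200020009192882))))) (.nd (nat_lit 26) 
(.nd (nat_lit 5) (.nd (nat_lit 8) 
(.lf (nat_lit 3342550) (dlOf (nat_lit 1) (nat_lit 0x20028200481))) 
(.lf (nat_lit 3493004246) (dlOf (nat_lit 1) (nat_lit 0x200180f2881)))) 
(.lf (nat_lit 49480694) (dlOf (nat_lit 1) (nat_lit 0x20009462881)))) (.nd (nat_lit 18) 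
(.lf (nat_lit 473105366) (dlOf (nat_lit 1) (nat_lit 0x94004000c0008d12882))) 
(.lf (nat_lit 473367510) (dlOf (nat_lit 1) (nat_lit 0x8008000400200020008ef2883)))))) 
(.nd (nat_lit 9) (.nd (nat_lit 5) (.nd (nat_lit 8) 
(.lf (nat_lit 2031830) (dlOf (nat_lit 1) (nat_lit 0x400200020008150482))) 
(.lf (nat_lit 473629142) (dlOf (nat_lit 1) (nat_lit 0x18008000400200040008f67b03)))) 
(.nd (nat_lit 8) (.lf (nat_lit 3493789942) (dlOf (nat_lit 1) (nat_lit 0x200281b0481))) 
(.nd (nat_lit 26) 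
(.lf (nat_lit 3491430902) (dlOf (nat_lit 17) (nat_lit 0x43da002270200121ed001118100010f68008840800087b4004400400043da0021f0200021ed0010f0100010f680130560004380800043da002110200021ed001008100010f68008000800087b4003fc0400043da001fd0200021ed000f98100060f68007c80800087b4003e20400043da001ef02000c0018090d81))) 
(.lf (nat_lit 2753233398) (dlOf (nat_lit 17) (nat_lit 0x43fe002270200021ff001120100010ff80088c0800087fc004440400043fe004c15d001100200010ff8008540800487fc004260400043fe002110200021ff001008100010ff8007fc0800087fc003fc0400043fe001fd02000c1ff000f98100010ff8007c80800087fc003e20400043fe001ef02000c0018090d81)))))) 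
(.nd (nat_lit 18) (.nd (nat_lit 22) (.nd (nat_lit 27) 
(.lf (nat_lit 68879318) (dlOf (nat_lit 1) (nat_lit 0x4002000400087e2882))) 
(.lf (nat_lit 1008403414) (dlOf (nat_lit 1) (nat_lit 0x20028bb2881)))) 
(.lf (nat_lit 56296406) (dlOf (nat_lit 1) (nat_lit 0x800200020009732882)))) (.nd (nat_lit 5) 
(.lf (nat_lit 56558550) (dlOf (nat_lit 1) (nat_lit 0x20009732881))) 
(.lf (nat_lit 8328182) (dlOf (nat_lit 1) (nat_lit 0x3000400020018519202))))))))))))

end

end Pool.Agent.Lib.MP_5854e1_co.Cz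

namespace Pool.Agent.Lib.MP_5854e1_co.Cz

noncomputable section

noncomputable def tz201 : DT := (.nd (nat_lit 16) (.nd (nat_lit 5) (.nd (nat_lit 17) 
(.nd (nat_lit 18) (.nd (nat_lit 7) (.nd (nat_lit 19) (.nd (nat_lit 10) (.nd (nat_lit 21) 
(.nd (nat_lit 20) (.nd (nat_lit 22) 
(.lf (nat_lit 16810006) (dlOf (nat_lit 1) (nat_lit 0x4002000200088e0002))) (.nd (nat_lit 23) 
(.lf (nat_lit 3493888022) (dlOf (nat_lit 3) (nat_lit 0x27622f00d2281010711780690c0800080080018002000200081b0003))) 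
(.lf (nat_lit 29392918) (dlOf (nat_lit 1) (nat_lit 0x40018e00401))))) (.nd (nat_lit 26) 
(.lf (nat_lit 3490742294) (dlOf (nat_lit 1) (nat_lit 0x120018020481))) 
(.lf (nat_lit 2752544790) (dlOf (nat_lit 1) (nat_lit 0x120018020481))))) (.nd (nat_lit 6) 
(.nd (nat_lit 9) (.lf (nat_lit 10518550) (dlOf (nat_lit 1) (nat_lit 0x18004000200185e0a82))) 
(.lf (nat_lit 3491791382) (dlOf (nat_lit 1) (nat_lit 0x8008000400200020008090d83)))) 
(.nd (nat_lit 8) (.nd (nat_lit 9) 
(.lf (nat_lit 44073046) (dlOf (nat_lit 1) (nat_lit 0xe00292c0701))) 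
(.lf (nat_lit 19960406) (dlOf (nat_lit 1) (nat_lit 0x200189d8981)))) 
(.lf (nat_lit 24150358) (dlOf (nat_lit 1) (nat_lit 0x20028b80681)))))) (.nd (nat_lit 9) 
(.nd (nat_lit 8) (.nd (nat_lit 11) (.nd (nat_lit 27) 
(.lf (nat_lit 2147517462) (dlOf (nat_lit 2) (nat_lit 0x700a001d10080008008003000200100008002883))) 
(.lf (nat_lit 1207993366) (dlOf (nat_lit 1) (nat_lit 0x2a0018002881)))) (.nd (nat_lit 6) 
(.lf (nat_lit 5368744982) (dlOf (nat_lit 1) (nat_lit 0x10002000c0008005f82))) 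
(.lf (nat_lit 604019798) (dlOf (nat_lit 1) (nat_lit 0x80080014002006c000800bf83))))) 
(.nd (nat_lit 12) (.lf (nat_lit 1342213398) (dlOf (nat_lit 1) (nat_lit 0x220008006701))) 
(.nd (nat_lit 26) 
(.lf (nat_lit 2952830230) (dlOf (nat_lit 1) (nat_lit 0x1080080010002003c000800c603))) 
(.lf (nat_lit 604019990) (dlOf (nat_lit 1) (nat_lit 0x128008000c002004e000800c603)))))) 
(.nd (nat_lit 26) (.nd (nat_lit 27) (.nd (nat_lit 28) 
(.lf (nat_lit 2147517974) (dlOf (nat_lit 5) (nat_lit 0x2000a00340000001f82001a0000000d808005001400100000000f0400080050005000000000100008008001c00200180008003703))) 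
(.lf (nat_lit 4563437078) (dlOf (nat_lit 1) (nat_lit 0x3000400040008003702)))) 
(.lf (nat_lit 1744864790) (dlOf (nat_lit 3) (nat_lit 0xb80000001e040028000000000200100008003701)))) 
(.nd (nat_lit 12) 
(.lf (nat_lit 335578646) (dlOf (nat_lit 3) (nat_lit 0x180260020012000600880003818003004c0000004008400400160008003702))) 
(.lf (nat_lit 2617284118) (dlOf (nat_lit 1) (nat_lit 0xc00008009c01))))))) (.nd (nat_lit 26) 
(.nd (nat_lit 22) (.nd (nat_lit 21) (.nd (nat_lit 9) (.nd (nat_lit 28) 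
(.lf (nat_lit 134774806) (dlOf (nat_lit 7) (nat_lit 0x14810c00d80820191d040056043002a020800600e8032380c00300820191b02001404100c8d01000b0218062340801b010c0310404010c004009400180b0902))) 
(.lf (nat_lit 3624435734) (dlOf (nat_lit 2) (nat_lit 0x7010000240360000004001a00081a0481)))) 
(.lf (nat_lit 50889238) (dlOf (nat_lit 4) (nat_lit 0x24a8c000520200165460002781000d2a30001300800100080044002001600094d8703)))) 
(.nd (nat_lit 20) (.nd (nat_lit 23) 
(.lf (nat_lit 2654230) (dlOf (nat_lit 3) (nat_lit 0x1140000003502000a00000017818180300))) 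
(.lf (nat_lit 11042838) (dlOf (nat_lit 2) (nat_lit 0x12612c004940400ac002004c0008660482)))) 
(.lf (nat_lit 45645846) (dlOf (nat_lit 1) (nat_lit 0x4c00200160009340082))))) (.nd (nat_lit 6) 
(.nd (nat_lit 20) (.nd (nat_lit 23) 
(.lf (nat_lit 3494412310) (dlOf (nat_lit 1) (nat_lit 0x400200020008220882))) 
(.lf (nat_lit 13139990) (dlOf (nat_lit 1) (nat_lit 0x20008700901)))) 
(.lf (nat_lit 22577174) (dlOf (nat_lit 1) (nat_lit 0x20028b00501)))) (.nd (nat_lit 8) 
(.lf (nat_lit 21528662) (dlOf (nat_lit 5) (nat_lit 0x27b500033da60003ea1800c6e6800098100013b540019da8000bed30001f50c00077340004b0a0005daa00020010001ed50000fc08014800800bc00200200008a40603))) 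
(.lf (nat_lit 14188886) (dlOf (nat_lit 1) (nat_lit 0x80018750881)))))) (.nd (nat_lit 31) 
(.nd (nat_lit 28) (.nd (nat_lit 27) 
(.lf (nat_lit 1678278678) (dlOf (nat_lit 2) (nat_lit 0xc02a000010080080008002c002002400081d0303))) 
(.lf (nat_lit 201883670) (dlOf (nat_lit 7) (nat_lit 0x14810c00d808201c6a040056043002a020800600e8038d20c003008201c6802001404100e3381000b021806fe40801b010c037d804010c004009400180b0902)))) 
(.nd (nat_lit 8) 
(.lf (nat_lit 1946714134) (dlOf (nat_lit 3) (nat_lit 0x9580f803a000001a4104000803e00310000068fc1000d80080158002005200081b0003))) 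
(.lf (nat_lit 1946714390) (dlOf (nat_lit 1) (nat_lit 0x80080050002000600081b0483))))) 
(.nd (nat_lit 6) (.nd (nat_lit 22) 
(.lf (nat_lit 2886238230) (dlOf (nat_lit 2) (nat_lit 0x7010000240340000004001a00081a0481))) 
(.lf (nat_lit 2756214806) (dlOf (nat_lit 1) (nat_lit 0x400200020008220882)))) (.nd (nat_lit 21) 
(.lf (nat_lit 3154673750) (dlOf (nat_lit 9) (nat_lit 0xa8168000500400180b40002602000a05a0000f81000402d0000740800301680003004000c0b40001002000205a0000701000502d0000300800080080070002002e0008310303))) 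
(.lf (nat_lit 2754117718) (dlOf (nat_lit 1) (nat_lit 0xc00280c1a01)))))))) (.nd (nat_lit 28) 
(.nd (nat_lit 8) (.nd (nat_lit 6) (.nd (nat_lit 10) (.nd (nat_lit 11) 
(.lf (nat_lit 23625878) (dlOf (nat_lit 1) (nat_lit 0x60028b80181))) 
(.lf (nat_lit 4362111126) (dlOf (nat_lit 1) (nat_lit 0x9c004009c0018004802)))) 
(.lf (nat_lit 3355481238) (dlOf (nat_lit 4) (nat_lit 0x290028014801000940000068206002003200060090014800c0090000004e908001800300080000013601000e8008004000200020008009503)))) 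
(.nd (nat_lit 10) (.nd (nat_lit 19) 
(.lf (nat_lit 3178710) (dlOf (nat_lit 1) (nat_lit 0x8008000400200020008200483))) 
(.lf (nat_lit 1074299094) (dlOf (nat_lit 2) (nat_lit 0xc01e807000000039a0803c400205aa00081b0482)))) 
(.lf (nat_lit 8422614) (dlOf (nat_lit 2) (nat_lit 0x18798000c2ea0004a04003a0028512d81))))) 
(.nd (nat_lit 27) (.nd (nat_lit 9) (.nd (nat_lit 6) 
(.lf (nat_lit 1610647958) (dlOf (nat_lit 1) (nat_lit 0x580080084002000e0008004e83))) 
(.lf (nat_lit 50889174) (dlOf (nat_lit 1) (nat_lit 0x200094d7b01)))) (.nd (nat_lit 19) 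
(.lf (nat_lit 4362109910) (dlOf (nat_lit 3) (nat_lit 0x202d00e3a0100060168071cc080048008002400200120008002883))) 
(.nd (nat_lit 21) (.lf (nat_lit 51938262) (dlOf (nat_lit 1) (nat_lit 0x80019512881))) 
(.lf (nat_lit 49841110) (dlOf (nat_lit 1) (nat_lit 0x200294c2881)))))) (.nd (nat_lit 26) 
(.nd (nat_lit 6) 
(.lf (nat_lit 134258070) (dlOf (nat_lit 2) (nat_lit 0x300000000002006c000800ca01))) 
(.lf (nat_lit 5502960598) (dlOf (nat_lit 3) (nat_lit 0x41009801fc008012804c00fde04000400200020008002882)))) 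
(.nd (nat_lit 29) 
(.lf (nat_lit 2348843990) (dlOf (nat_lit 2) (nat_lit 0x2014003ccc080038008001c002000a0008002883))) 
(.lf (nat_lit 738231254) (dlOf (nat_lit 1) (nat_lit 0x400400020008002882))))))) (.nd (nat_lit 6) 
(.nd (nat_lit 8) (.nd (nat_lit 9) (.nd (nat_lit 11) 
(.lf (nat_lit 6376423574) (dlOf (nat_lit 1) (nat_lit 0x180028090481))) 
(.lf (nat_lit 469797014) (dlOf (nat_lit 1) (nat_lit 0x1000200060008004802)))) (.nd (nat_lit 19) 
(.lf (nat_lit 5167418006) (dlOf (nat_lit 1) (nat_lit 0x400400020008055502))) 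
(.lf (nat_lit 5771922070) (dlOf (nat_lit 3) (nat_lit 0x808800048040010044000230200080018005501))))) 
(.nd (nat_lit 10) (.nd (nat_lit 12) 
(.lf (nat_lit 4094725014) (dlOf (nat_lit 1) (nat_lit 0x40028055c81))) 
(.lf (nat_lit 4227898262) (dlOf (nat_lit 1) (nat_lit 0x280080020002000a000800bc83)))) 
(.lf (nat_lit 469796758) (dlOf (nat_lit 1) (nat_lit 0x2000400100008004202))))) (.nd (nat_lit 21) 
(.nd (nat_lit 9) (.nd (nat_lit 8) 
(.lf (nat_lit 1946714326) (dlOf (nat_lit 2) (nat_lit 0xc01f007000000039a0803c400205aa00081b0482))) 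
(.lf (nat_lit 469800406) (dlOf (nat_lit 1) (nat_lit 0x78004001e0008009b02)))) (.nd (nat_lit 11) 
(.lf (nat_lit 1543537622) (dlOf (nat_lit 1) (nat_lit 0xc0028002881))) 
(.lf (nat_lit 469801942) (dlOf (nat_lit 1) (nat_lit 0x400080010002000a000800bf03))))) 
(.nd (nat_lit 20) (.nd (nat_lit 26) 
(.lf (nat_lit 5773493206) (dlOf (nat_lit 1) (nat_lit 0x4004000200080e2882))) 
(.lf (nat_lit 6377472982) (dlOf (nat_lit 1) (nat_lit 0x4004000200080e2882)))) 
(.lf (nat_lit 472941526) (dlOf (nat_lit 1) (nat_lit 0x400400020008b52882)))))))) (.nd (nat_lit 19) 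
(.nd (nat_lit 29) (.nd (nat_lit 20) (.nd (nat_lit 6) (.nd (nat_lit 21) (.nd (nat_lit 26) 
(.lf (nat_lit 3355738134) (dlOf (nat_lit 1) (nat_lit 0x4004000200080e0502))) 
(.lf (nat_lit 3691282454) (dlOf (nat_lit 1) (nat_lit 0xc00400080008110482)))) 
(.lf (nat_lit 44335126) (dlOf (nat_lit 3) (nat_lit 0x8c6400026170001a8200023190000000800800080048002001200092f0303)))) 
(.nd (nat_lit 8) (.nd (nat_lit 22) (.nd (nat_lit 26) 
(.lf (nat_lit 1208254550) (dlOf (nat_lit 3) (nat_lit 0x320290000781000f0148000140801b0008005c002003800080b0703))) 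
(.lf (nat_lit 67403862) (dlOf (nat_lit 1) (nat_lit 0x800080f0781)))) 
(.lf (nat_lit 29655126) (dlOf (nat_lit 2) (nat_lit 0x1600000000018e30300)))) (.nd (nat_lit 7) 
(.lf (nat_lit 3221520726) (dlOf (nat_lit 5) (nat_lit 0x5c8028000c80402a80140006302017400a000220100c900500010808001000800b400200040008124d03))) 
(.lf (nat_lit 1346667478) (dlOf (nat_lit 1) (nat_lit 0x400200040008fe2882)))))) (.nd (nat_lit 24) 
(.nd (nat_lit 8) (.nd (nat_lit 6) 
(.lf (nat_lit 471105558) (dlOf (nat_lit 2) (nat_lit 0x209d002403f000000100070008009400200060008270483))) 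
(.lf (nat_lit 3440726) (dlOf (nat_lit 1) (nat_lit 0x1800400320018200002)))) (.nd (nat_lit 7) 
(.lf (nat_lit 3440918) (dlOf (nat_lit 4) (nat_lit 0x49d1400344040034fe00002745000b902000b3f80005b8080140008011c00200060008200483))) 
(.lf (nat_lit 34900374) (dlOf (nat_lit 1) (nat_lit 0x400400020008fb4e82))))) (.nd (nat_lit 7) 
(.nd (nat_lit 22) (.lf (nat_lit 62160918) (dlOf (nat_lit 1) (nat_lit 0x20029960001))) 
(.lf (nat_lit 24412182) (dlOf (nat_lit 1) (nat_lit 0x8008000400200020008b90883)))) (.nd (nat_lit 6) 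
(.lf (nat_lit 20221590) (dlOf (nat_lit 1) (nat_lit 0x6c00189d7201))) 
(.lf (nat_lit 20221142) (dlOf (nat_lit 1) (nat_lit 0x5c00189d6481))))))) (.nd (nat_lit 31) 
(.nd (nat_lit 30) (.nd (nat_lit 6) (.nd (nat_lit 26) 
(.lf (nat_lit 939819030) (dlOf (nat_lit 2) (nat_lit 0x402100107818190a80))) (.nd (nat_lit 27) 
(.lf (nat_lit 604274710) (dlOf (nat_lit 1) (nat_lit 0x10002001a0008120402))) 
(.lf (nat_lit 1006927894) (dlOf (nat_lit 2) (nat_lit 0x8054000e0270000d01000980080028002001800080e0583))))) 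
(.lf (nat_lit 1007977430) (dlOf (nat_lit 1) (nat_lit 0x140028922881)))) (.nd (nat_lit 6) 
(.nd (nat_lit 26) 
(.lf (nat_lit 1879343126) (dlOf (nat_lit 8) (nat_lit 0x22057001f02a000d8144007c09c00169080004057001402a00090138002d00c00240ae001a054001402700059c18004015c00ac0a8003a051002302700006020003015c00980a8003a051000f02700005c20002815c00540a80018051001602700005820004015c00640a80036051001502700005420002800801ac002011400080e0583))) 
(.lf (nat_lit 1812234262) (dlOf (nat_lit 2) (nat_lit 0x4021000fd018190a80)))) 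
(.lf (nat_lit 2080669782) (dlOf (nat_lit 3) (nat_lit 0x320290000781000f0148000140801b0008005c002003800080b0703))))) 
(.nd (nat_lit 26) (.nd (nat_lit 28) (.nd (nat_lit 6) 
(.lf (nat_lit 3758391318) (dlOf (nat_lit 2) (nat_lit 0x101b000564080008008000800200040008170083))) 
(.lf (nat_lit 3758391382) (dlOf (nat_lit 2) (nat_lit 0xd80f00060076000c0350002b038170780)))) 
(.nd (nat_lit 27) 
(.lf (nat_lit 2953084950) (dlOf (nat_lit 2) (nat_lit 0x18034003001300050000000001800380080008002000c00080f0483))) 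
(.lf (nat_lit 3087302678) (dlOf (nat_lit 1) (nat_lit 0x928008018c002005e0008170883))))) 
(.nd (nat_lit 28) (.nd (nat_lit 22) 
(.lf (nat_lit 3825500182) (dlOf (nat_lit 1) (nat_lit 0x928008018c002005e0008170883))) 
(.lf (nat_lit 2755952662) (dlOf (nat_lit 5) (nat_lit 0x14456000622a000a1148002885400220100014456000622a000a114800288540021e10001c456000c22a0008114800488540021c100020456000c22a000a114800588540021a100004002000600081c0882)))) 
(.nd (nat_lit 6) 
(.lf (nat_lit 3020193814) (dlOf (nat_lit 6) (nat_lit 0x610060030e02b017901200be80880550026001580a025403000e501580680090034804400157080322030019401580c08090061004402c001300610080005503000680c0002a60404c006001e202b00e2012006e0088002a410002c00400060018150082))) 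
(.lf (nat_lit 3020193878) (dlOf (nat_lit 6) (nat_lit 0x5100c002280440005004014e03000b3015004e808c02480440004f08000a030004b0110001381005100c001a8054009a02300600110001342003100c000340440003e0400080028150781)))))))) 
(.nd (nat_lit 20) (.nd (nat_lit 6) (.nd (nat_lit 8) (.nd (nat_lit 31) (.nd (nat_lit 21) 
(.lf (nat_lit 819222) (dlOf (nat_lit 1) (nat_lit 0x10008000800200020008020483))) 
(.lf (nat_lit 11304982) (dlOf (nat_lit 1) (nat_lit 0x20028690301)))) (.nd (nat_lit 26) 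
(.lf (nat_lit 2819391510) (dlOf (nat_lit 2) (nat_lit 0xa0350000000800100080004002000c0008250483))) 
(.lf (nat_lit 3557589014) (dlOf (nat_lit 3) (nat_lit 0x360610007d010008030800581800000008015c00400020018270482))))) 
(.nd (nat_lit 10) 
(.lf (nat_lit 4362895638) (dlOf (nat_lit 2) (nat_lit 0x200000048404008c002001600081a0482))) 
(.lf (nat_lit 5772182806) (dlOf (nat_lit 1) (nat_lit 0x400400020008093082))))) (.nd (nat_lit 7) 
(.nd (nat_lit 22) 
(.lf (nat_lit 9207894) (dlOf (nat_lit 2) (nat_lit 0x1341800054080008008000c00200020008530703))) 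
(.lf (nat_lit 13402198) (dlOf (nat_lit 1) (nat_lit 0x160018721a01)))) 
(.lf (nat_lit 36473302) (dlOf (nat_lit 1) (nat_lit 0x20019074e81))))) (.nd (nat_lit 6) 
(.nd (nat_lit 21) (.nd (nat_lit 23) (.nd (nat_lit 24) 
(.lf (nat_lit 471629846) (dlOf (nat_lit 5) (nat_lit 0xc11c0002102000e08e00005010003047000024080018238000000400a8004002e0008360402))) 
(.lf (nat_lit 18645014) (dlOf (nat_lit 1) (nat_lit 0x1f00080120002006a0008960403)))) 
(.lf (nat_lit 10256406) (dlOf (nat_lit 1) (nat_lit 0x200285c0881)))) (.nd (nat_lit 8) 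
(.nd (nat_lit 26) (.lf (nat_lit 3493625878) (dlOf (nat_lit 1) (nat_lit 0x1280028180601))) 
(.lf (nat_lit 2755428374) (dlOf (nat_lit 1) (nat_lit 0x1280028180601)))) 
(.lf (nat_lit 8163094) (dlOf (nat_lit 1) (nat_lit 0x400400020008517482))))) (.nd (nat_lit 7) 
(.nd (nat_lit 21) (.nd (nat_lit 26) 
(.lf (nat_lit 5773230166) (dlOf (nat_lit 1) (nat_lit 0x4004000200080b0702))) 
(.lf (nat_lit 6377209942) (dlOf (nat_lit 1) (nat_lit 0x4004000200080b0702)))) 
(.lf (nat_lit 1346142294) (dlOf (nat_lit 2) (nat_lit 0x260000000980801d00080030002009a0008e60803)))) 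
(.nd (nat_lit 21) 
(.lf (nat_lit 56394710) (dlOf (nat_lit 1) (nat_lit 0x10008000400200020009732883))) 
(.lf (nat_lit 41714646) (dlOf (nat_lit 1) (nat_lit 0x140029242881))))))))) (.nd (nat_lit 6) 
(.nd (nat_lit 31) (.nd (nat_lit 7) (.nd (nat_lit 19) (.nd (nat_lit 30) (.nd (nat_lit 18) 
(.nd (nat_lit 22) (.nd (nat_lit 23) 
(.lf (nat_lit 5167546390) (dlOf (nat_lit 1) (nat_lit 0x200280a0a01))) 
(.lf (nat_lit 25329686) (dlOf (nat_lit 3) (nat_lit 0x3e00000bf1010007615800000080010008007400200160008bf0883)))) 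
(.lf (nat_lit 21135382) (dlOf (nat_lit 1) (nat_lit 0x200018a10481)))) (.nd (nat_lit 20) 
(.lf (nat_lit 36077590) (dlOf (nat_lit 1) (nat_lit 0x400200020009020502))) 
(.lf (nat_lit 62291990) (dlOf (nat_lit 1) (nat_lit 0x400200020009990102))))) (.nd (nat_lit 18) 
(.nd (nat_lit 27) 
(.lf (nat_lit 5368872982) (dlOf (nat_lit 4) (nat_lit 0x600a8003805000680260014011000900800030038002800a00d520e000a01500120098002801401aa20c000802600d5002000e0028060a01))) 
(.nd (nat_lit 28) 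
(.lf (nat_lit 5503090710) (dlOf (nat_lit 4) (nat_lit 0x600a8003805000680260014011000900800030038002800a007d70e000a01500120098002801400fac0c0008026007d502000e0028060a01))) 
(.lf (nat_lit 1476558870) (dlOf (nat_lit 2) (nat_lit 0xe03f000ae818050080))))) (.nd (nat_lit 20) 
(.lf (nat_lit 5838897174) (dlOf (nat_lit 1) (nat_lit 0x4002000200081f0902))) 
(.lf (nat_lit 1343651862) (dlOf (nat_lit 5) (nat_lit 0xc11c0002102000e08e00005010003047000024080018238000000400a8004002e00082d0402)))))) 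
(.nd (nat_lit 20) (.nd (nat_lit 10) (.nd (nat_lit 9) (.nd (nat_lit 26) 
(.lf (nat_lit 134905878) (dlOf (nat_lit 4) (nat_lit 0x9e054005301c802700d00288060009e02b004e008000e000c01d40000184b10000e05400bf101009002a008100fc044407a018603a00e801c006b00d40348066019e01300180018000004800e0008071000202ce00080d0883))) 
(.lf (nat_lit 202014742) (dlOf (nat_lit 4) (nat_lit 0x9e055005301c802700d00288060009e02b004e008000e001001d400001bc410000e05500da701009002a808100fc044407a018603a00e801c006b00d40348066019e01300180020000004800e0008071000202ce00080d0883)))) 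
(.lf (nat_lit 6378127894) (dlOf (nat_lit 1) (nat_lit 0x80018117e01)))) (.nd (nat_lit 21) 
(.lf (nat_lit 38437910) (dlOf (nat_lit 1) (nat_lit 0x20009132881))) 
(.lf (nat_lit 36340758) (dlOf (nat_lit 1) (nat_lit 0xc00200020009072882))))) (.nd (nat_lit 21) 
(.nd (nat_lit 8) (.lf (nat_lit 10125334) (dlOf (nat_lit 1) (nat_lit 0x200285b0481))) 
(.lf (nat_lit 43681046) (dlOf (nat_lit 1) (nat_lit 0x80080004002000200092a3083)))) 
(.nd (nat_lit 18) 
(.lf (nat_lit 16416790) (dlOf (nat_lit 1) (nat_lit 0x900080024002003000088a0403))) 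
(.lf (nat_lit 29261846) (dlOf (nat_lit 3) (nat_lit 0x82b9000194260020a0a0000e83000150500006c0800100080014002000c0008de0503))))))) 
(.nd (nat_lit 23) (.nd (nat_lit 18) (.nd (nat_lit 8) 
(.lf (nat_lit 8033430) (dlOf (nat_lit 3) (nat_lit 0x972b0802a957c009d2080224abe004d80200be0018519501))) 
(.nd (nat_lit 27) (.lf (nat_lit 4899111318) (dlOf (nat_lit 1) (nat_lit 0x640018076481))) 
(.lf (nat_lit 5570199958) (dlOf (nat_lit 1) (nat_lit 0x20028086481))))) (.nd (nat_lit 8) 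
(.lf (nat_lit 738623638) (dlOf (nat_lit 1) (nat_lit 0x400280c1101))) (.nd (nat_lit 11) 
(.lf (nat_lit 1611039126) (dlOf (nat_lit 1) (nat_lit 0x380080090002003000080c6483))) 
(.lf (nat_lit 5771790742) (dlOf (nat_lit 2) (nat_lit 0x400a001c2a04000800200040008004e82)))))) 
(.nd (nat_lit 8) (.nd (nat_lit 10) (.nd (nat_lit 20) 
(.lf (nat_lit 25591958) (dlOf (nat_lit 1) (nat_lit 0x8008000400200020008c10283))) 
(.lf (nat_lit 11960470) (dlOf (nat_lit 1) (nat_lit 0x200186c0181)))) 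
(.lf (nat_lit 8819862) (dlOf (nat_lit 2) (nat_lit 0x4d2af8013a4080018008000400200040008519503)))) 
(.nd (nat_lit 11) (.nd (nat_lit 19) 
(.lf (nat_lit 9601430) (dlOf (nat_lit 1) (nat_lit 0x1c00400120008576482))) 
(.lf (nat_lit 12222870) (dlOf (nat_lit 1) (nat_lit 0x4002007e00086c0782)))) 
(.lf (nat_lit 62818710) (dlOf (nat_lit 1) (nat_lit 0x4004000200099a4e82))))))) (.nd (nat_lit 29) 
(.nd (nat_lit 30) (.nd (nat_lit 7) (.nd (nat_lit 8) 
(.lf (nat_lit 6442876950) (dlOf (nat_lit 1) (nat_lit 0x4002000200081f0902))) (.nd (nat_lit 27) 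
(.lf (nat_lit 2214757142) (dlOf (nat_lit 1) (nat_lit 0x4004000200080a2102))) 
(.lf (nat_lit 2617410326) (dlOf (nat_lit 1) (nat_lit 0x200180a2101))))) (.nd (nat_lit 27) 
(.lf (nat_lit 2416083094) (dlOf (nat_lit 1) (nat_lit 0x400400020008044002))) 
(.lf (nat_lit 2550300822) (dlOf (nat_lit 1) (nat_lit 0x400400020008044002))))) (.nd (nat_lit 18) 
(.nd (nat_lit 19) (.lf (nat_lit 3494019094) (dlOf (nat_lit 2) (nat_lit 0xa01500d228181b0000))) 
(.lf (nat_lit 3492446230) (dlOf (nat_lit 2) (nat_lit 0x380f8002400d00bf10280d0880)))) 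
(.lf (nat_lit 3492184086) (dlOf (nat_lit 1) (nat_lit 0x4002000200080b0902))))) (.nd (nat_lit 26) 
(.nd (nat_lit 19) (.nd (nat_lit 18) 
(.lf (nat_lit 2684518422) (dlOf (nat_lit 1) (nat_lit 0x1000200060008080482))) 
(.lf (nat_lit 2818998294) (dlOf (nat_lit 1) (nat_lit 0xda8008055c00202380008150083)))) 
(.nd (nat_lit 30) (.lf (nat_lit 2819260438) (dlOf (nat_lit 1) (nat_lit 0x20028210401))) 
(.lf (nat_lit 3893002262) (dlOf (nat_lit 1) (nat_lit 0x24002001400082c0502))))) (.nd (nat_lit 8) 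
(.nd (nat_lit 18) 
(.lf (nat_lit 2754248726) (dlOf (nat_lit 2) (nat_lit 0x380f4002400d00da70280d0880))) 
(.lf (nat_lit 2753986582) (dlOf (nat_lit 1) (nat_lit 0x4002000200080b0902)))) (.nd (nat_lit 7) 
(.nd (nat_lit 9) (.lf (nat_lit 2885845270) (dlOf (nat_lit 1) (nat_lit 0x200180b0481))) 
(.lf (nat_lit 3020066582) (dlOf (nat_lit 1) (nat_lit 0x180018127481)))) 
(.lf (nat_lit 2751629206) (dlOf (nat_lit 1) (nat_lit 0x400400060008004202)))))))) (.nd (nat_lit 18) 
(.nd (nat_lit 7) (.nd (nat_lit 31) (.nd (nat_lit 8) (.nd (nat_lit 19) 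
(.lf (nat_lit 52592726) (dlOf (nat_lit 2) (nat_lit 0x3b304000b164e004ca7a000e5340000982000280080060002000e0009550803))) 
(.lf (nat_lit 42631254) (dlOf (nat_lit 1) (nat_lit 0x400400020009260802)))) (.nd (nat_lit 9) 
(.nd (nat_lit 11) (.nd (nat_lit 21) 
(.lf (nat_lit 134381910) (dlOf (nat_lit 1) (nat_lit 0x200080020002000a0008014d03))) 
(.lf (nat_lit 2261334) (dlOf (nat_lit 1) (nat_lit 0x8c004000e0008150682)))) 
(.lf (nat_lit 170326) (dlOf (nat_lit 1) (nat_lit 0x80020002000800ab82)))) 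
(.lf (nat_lit 5905745750) (dlOf (nat_lit 1) (nat_lit 0x200018143f01))))) (.nd (nat_lit 27) 
(.nd (nat_lit 11) (.lf (nat_lit 2416083286) (dlOf (nat_lit 1) (nat_lit 0x400400020008048b02))) 
(.lf (nat_lit 2751633750) (dlOf (nat_lit 1) (nat_lit 0x2000800ab81)))) (.nd (nat_lit 8) 
(.lf (nat_lit 3691151446) (dlOf (nat_lit 3) (nat_lit 0x6401100011c0801600880008a04015000400080008050782))) 
(.lf (nat_lit 4228022614) (dlOf (nat_lit 5) (nat_lit 0x40640006802034c032000220101f7019000108080a100c8000480401cc004015e0008014d02)))))) 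
(.nd (nat_lit 25) (.nd (nat_lit 26) (.nd (nat_lit 8) 
(.lf (nat_lit 2261206) (dlOf (nat_lit 1) (nat_lit 0x400400020018150482))) 
(.lf (nat_lit 1342341590) (dlOf (nat_lit 1) (nat_lit 0x20008017101)))) (.nd (nat_lit 9) 
(.nd (nat_lit 10) 
(.lf (nat_lit 2751629526) (dlOf (nat_lit 1) (nat_lit 0x10008000400200060008004a03))) 
(.lf (nat_lit 5301765334) (dlOf (nat_lit 1) (nat_lit 0x8008004400200020008092d83)))) 
(.lf (nat_lit 2214757078) (dlOf (nat_lit 1) (nat_lit 0x1000080a2081))))) (.nd (nat_lit 19) 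
(.nd (nat_lit 20) (.nd (nat_lit 21) 
(.lf (nat_lit 50496470) (dlOf (nat_lit 1) (nat_lit 0x4004000200094c2882))) 
(.lf (nat_lit 35816406) (dlOf (nat_lit 1) (nat_lit 0x20019012881)))) (.nd (nat_lit 22) 
(.lf (nat_lit 51545046) (dlOf (nat_lit 1) (nat_lit 0x20019512881))) 
(.lf (nat_lit 38962134) (dlOf (nat_lit 1) (nat_lit 0x400200020009192882))))) (.nd (nat_lit 20) 
(.nd (nat_lit 21) (.lf (nat_lit 38437846) (dlOf (nat_lit 1) (nat_lit 0x20009132881))) 
(.lf (nat_lit 36340694) (dlOf (nat_lit 1) (nat_lit 0x40019072881)))) 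
(.lf (nat_lit 43680726) (dlOf (nat_lit 1) (nat_lit 0x280080004002000800092a2883))))))) 
(.nd (nat_lit 9) (.nd (nat_lit 8) (.nd (nat_lit 20) (.nd (nat_lit 7) (.nd (nat_lit 19) 
(.lf (nat_lit 2818998358) (dlOf (nat_lit 1) (nat_lit 0xdc0028150781))) 
(.lf (nat_lit 47087702) (dlOf (nat_lit 1) (nat_lit 0x100080008002000600093a0703)))) 
(.nd (nat_lit 10) (.lf (nat_lit 4094591190) (dlOf (nat_lit 2) (nat_lit 0x2606100009018050980))) 
(.lf (nat_lit 61768918) (dlOf (nat_lit 2) (nat_lit 0xd83a000410200040019922d81))))) 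
(.nd (nat_lit 21) (.nd (nat_lit 26) 
(.lf (nat_lit 1999062) (dlOf (nat_lit 1) (nat_lit 0x400200020008150482))) 
(.lf (nat_lit 6377341142) (dlOf (nat_lit 1) (nat_lit 0x4002000200080c1c02)))) 
(.lf (nat_lit 12484822) (dlOf (nat_lit 2) (nat_lit 0x2d0f8001f202000200086c0481))))) 
(.nd (nat_lit 29) (.nd (nat_lit 7) (.nd (nat_lit 19) 
(.lf (nat_lit 21397846) (dlOf (nat_lit 2) (nat_lit 0x540d700022018a34d00))) 
(.lf (nat_lit 3490611542) (dlOf (nat_lit 7) (nat_lit 0x4261e80003201020c0f400018c0800987a0000c004084c3d0000440200a81e8000218102260f4000108080528008043000201120008014d03)))) 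
(.lf (nat_lit 3221651926) (dlOf (nat_lit 2) (nat_lit 0x6404600000018170a80)))) (.nd (nat_lit 26) 
(.lf (nat_lit 805732822) (dlOf (nat_lit 2) (nat_lit 0xb0013000000181a0a80))) (.nd (nat_lit 27) 
(.lf (nat_lit 1678148054) (dlOf (nat_lit 2) (nat_lit 0xb0013000000181a0a80))) 
(.lf (nat_lit 3959849430) (dlOf (nat_lit 2) (nat_lit 0x6404600000018170a80))))))) (.nd (nat_lit 21) 
(.nd (nat_lit 20) (.nd (nat_lit 27) (.nd (nat_lit 28) 
(.lf (nat_lit 2751890390) (dlOf (nat_lit 1) (nat_lit 0x400400020018002882))) 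
(.lf (nat_lit 335971286) (dlOf (nat_lit 1) (nat_lit 0xc004000200080e2882)))) 
(.lf (nat_lit 6375769046) (dlOf (nat_lit 1) (nat_lit 0x15400400500008002882)))) (.nd (nat_lit 19) 
(.lf (nat_lit 1880523734) (dlOf (nat_lit 1) (nat_lit 0x200080004002000200089e2883))) 
(.lf (nat_lit 56525782) (dlOf (nat_lit 1) (nat_lit 0xc00200020009732882))))) (.nd (nat_lit 28) 
(.nd (nat_lit 19) (.nd (nat_lit 23) 
(.lf (nat_lit 40272854) (dlOf (nat_lit 1) (nat_lit 0xa00291f2881))) 
(.lf (nat_lit 31884246) (dlOf (nat_lit 1) (nat_lit 0x40028e92881)))) 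
(.lf (nat_lit 61768662) (dlOf (nat_lit 1) (nat_lit 0x20019922881)))) (.nd (nat_lit 7) 
(.lf (nat_lit 472287830) (dlOf (nat_lit 1) (nat_lit 0x18004000c0018985302))) (.nd (nat_lit 26) 
(.lf (nat_lit 3493233622) (dlOf (nat_lit 1) (nat_lit 0x200180f2881))) 
(.lf (nat_lit 473334742) (dlOf (nat_lit 1) (nat_lit 0x8008000400200020008ef2883))))))))))) 
(.nd (nat_lit 17) (.nd (nat_lit 28) (.nd (nat_lit 8) (.nd (nat_lit 20) (.nd (nat_lit 26) 
(.nd (nat_lit 7) (.nd (nat_lit 30) (.nd (nat_lit 9) (.nd (nat_lit 21) 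
(.lf (nat_lit 671383606) (dlOf (nat_lit 6) (nat_lit 0x1b0128007980801b80940044044001cd040036025004701100068c100040094002fa04002404a000810201bc0008170d01))) 
(.lf (nat_lit 6586422) (dlOf (nat_lit 1) (nat_lit 0xb00080034002003e0008431083)))) 
(.lf (nat_lit 23364150) (dlOf (nat_lit 2) (nat_lit 0x178d440000004000c00200040008b80f82)))) 
(.nd (nat_lit 9) (.nd (nat_lit 27) 
(.lf (nat_lit 3758391350) (dlOf (nat_lit 3) (nat_lit 0x110076001d1020030000000a8818170480))) 
(.lf (nat_lit 1208254518) (dlOf (nat_lit 2) (nat_lit 0x2027000b0050008dc1000380080004002001400080b0483)))) 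
(.lf (nat_lit 3221520950) (dlOf (nat_lit 3) (nat_lit 0x781140004804002008a000230200020028128101))))) 
(.nd (nat_lit 18) (.nd (nat_lit 11) 
(.lf (nat_lit 1074299062) (dlOf (nat_lit 2) (nat_lit 0x2403d000170181b0380))) 
(.lf (nat_lit 559286) (dlOf (nat_lit 1) (nat_lit 0x60018004901)))) (.nd (nat_lit 6) 
(.nd (nat_lit 19) 
(.lf (nat_lit 5503221942) (dlOf (nat_lit 2) (nat_lit 0x6004e005a01a000718280c1700))) 
(.lf (nat_lit 17596598) (dlOf (nat_lit 1) (nat_lit 0xc00188e0481)))) 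
(.lf (nat_lit 51151094) (dlOf (nat_lit 2) (nat_lit 0x15bb100067428007501000580080010002001e0009506f03)))))) 
(.nd (nat_lit 18) (.nd (nat_lit 12) (.nd (nat_lit 21) 
(.lf (nat_lit 2756214838) (dlOf (nat_lit 1) (nat_lit 0x60028220b81))) 
(.lf (nat_lit 2754117686) (dlOf (nat_lit 1) (nat_lit 0xc00280c1181)))) (.nd (nat_lit 7) 
(.lf (nat_lit 4362115126) (dlOf (nat_lit 2) (nat_lit 0x150238010dc08008800800b0002000c000800a603))) 
(.lf (nat_lit 67145910) (dlOf (nat_lit 1) (nat_lit 0x40018007e81))))) (.nd (nat_lit 9) 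
(.nd (nat_lit 29) 
(.lf (nat_lit 67403830) (dlOf (nat_lit 2) (nat_lit 0xd0000001bd02000c00180f0481))) 
(.lf (nat_lit 3825500214) (dlOf (nat_lit 3) (nat_lit 0x6000000e78100060000006cc080008008000800200040008170d03)))) 
(.lf (nat_lit 3959718454) (dlOf (nat_lit 1) (nat_lit 0x20028128b01)))))) (.nd (nat_lit 21) 
(.nd (nat_lit 22) (.nd (nat_lit 23) (.nd (nat_lit 6) 
(.lf (nat_lit 2752544822) (dlOf (nat_lit 2) (nat_lit 0x18624700000018020680))) 
(.lf (nat_lit 2752807158) (dlOf (nat_lit 1) (nat_lit 0x8000400200008047782)))) (.nd (nat_lit 19) 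
(.lf (nat_lit 9732150) (dlOf (nat_lit 1) (nat_lit 0x400200020008580482))) 
(.lf (nat_lit 10256438) (dlOf (nat_lit 1) (nat_lit 0xa00080008002007200085c0d03))))) 
(.nd (nat_lit 7) (.nd (nat_lit 19) 
(.lf (nat_lit 22315062) (dlOf (nat_lit 1) (nat_lit 0xa0028ac0681))) 
(.lf (nat_lit 22839350) (dlOf (nat_lit 5) (nat_lit 0x4b5200031a8c00ced04001cd4800146a30033b010005b5200039a8c00ce3040018d48000e6a3003388100088008003800200020008b30783)))) 
(.lf (nat_lit 47482038) (dlOf (nat_lit 1) (nat_lit 0x800400020009402c82))))) (.nd (nat_lit 6) 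
(.nd (nat_lit 26) (.nd (nat_lit 9) 
(.lf (nat_lit 7634998) (dlOf (nat_lit 1) (nat_lit 0xb00080034002003e00084c1083))) 
(.lf (nat_lit 19960374) (dlOf (nat_lit 1) (nat_lit 0x200189d8981)))) (.nd (nat_lit 7) 
(.lf (nat_lit 2755166262) (dlOf (nat_lit 11) (nat_lit 0x296034819b81100bf4086043a02b0216015004a80900134040013201f00c700c804b00600038e280a580d2066404402c0021812000ac08a005401660240068010006200640038c200ad80d2007e064035a02201b3810c091c056048402a00c1012003c0080030c03e01f001900d900c000714580df81a408c408803ea043015601580b180a800ec048001c30c06620440209015804a00900144040001bd08037c06902580220102010c050c056023402a003b0120006cc30008810c0033a040e380d00726042027701181438078002a81007640d003b404200b7011805d0078002a61004580d00220042005c011801500780000010006400400040018120d02))) 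
(.lf (nat_lit 2754645174) (dlOf (nat_lit 2) (nat_lit 0xa817800032040094004000600080f6282))))) 
(.nd (nat_lit 7) (.lf (nat_lit 3702902) (dlOf (nat_lit 1) (nat_lit 0xe0028211881))) 
(.lf (nat_lit 3440886) (dlOf (nat_lit 2) (nat_lit 0x287f000043a28005c8100140008002800200060008200483))))))) 
(.nd (nat_lit 9) (.nd (nat_lit 6) (.nd (nat_lit 7) (.nd (nat_lit 19) 
(.lf (nat_lit 6442746166) (dlOf (nat_lit 1) (nat_lit 0x1f8008008c002000200081b0583))) 
(.lf (nat_lit 51151158) (dlOf (nat_lit 1) (nat_lit 0x280080004002001a0009507b03)))) 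
(.nd (nat_lit 12) (.lf (nat_lit 8160694) (dlOf (nat_lit 1) (nat_lit 0x400200020008513602))) 
(.lf (nat_lit 8426934) (dlOf (nat_lit 1) (nat_lit 0xe0028519981))))) (.nd (nat_lit 11) 
(.nd (nat_lit 7) (.lf (nat_lit 25461110) (dlOf (nat_lit 1) (nat_lit 0x400400020008c10b02))) 
(.lf (nat_lit 5905875446) (dlOf (nat_lit 1) (nat_lit 0xcc00400500008157e02)))) (.nd (nat_lit 18) 
(.nd (nat_lit 20) (.lf (nat_lit 4898982262) (dlOf (nat_lit 1) (nat_lit 0x400200020008004e82))) 
(.lf (nat_lit 2754644342) (dlOf (nat_lit 1) (nat_lit 0xc002000200080f4e82)))) 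
(.lf (nat_lit 36473206) (dlOf (nat_lit 1) (nat_lit 0xa0019074e81)))))) (.nd (nat_lit 7) 
(.nd (nat_lit 6) (.nd (nat_lit 19) 
(.lf (nat_lit 20220726) (dlOf (nat_lit 1) (nat_lit 0x4002000200089d5c02))) 
(.lf (nat_lit 20745014) (dlOf (nat_lit 1) (nat_lit 0x4002000200089d5c02)))) (.nd (nat_lit 10) 
(.nd (nat_lit 12) (.lf (nat_lit 54299510) (dlOf (nat_lit 1) (nat_lit 0x400400020009655c02))) 
(.lf (nat_lit 134257526) (dlOf (nat_lit 1) (nat_lit 0x2000020004000800bc82)))) 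
(.lf (nat_lit 2348844918) (dlOf (nat_lit 2) (nat_lit 0x2014000058080010008000c00200020008004083))))) 
(.nd (nat_lit 18) (.nd (nat_lit 6) 
(.lf (nat_lit 5368744886) (dlOf (nat_lit 3) (nat_lit 0x2f00a801b005000d000a0000f06006e015001500a0000001000080080068002001e0008005d03))) 
(.lf (nat_lit 1275104246) (dlOf (nat_lit 1) (nat_lit 0x20018005f01)))) (.nd (nat_lit 11) 
(.lf (nat_lit 34374646) (dlOf (nat_lit 1) (nat_lit 0x40018fb2881))) 
(.lf (nat_lit 19696630) (dlOf (nat_lit 1) (nat_lit 0x7c004003400089d5f02)))))))) (.nd (nat_lit 7) 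
(.nd (nat_lit 27) (.nd (nat_lit 19) (.nd (nat_lit 8) (.nd (nat_lit 18) 
(.lf (nat_lit 3490742326) (dlOf (nat_lit 2) (nat_lit 0x18622f00000018020680))) (.nd (nat_lit 29) 
(.lf (nat_lit 335839286) (dlOf (nat_lit 1) (nat_lit 0x8002002200080b0482))) 
(.lf (nat_lit 3020193846) (dlOf (nat_lit 14) (nat_lit 0x48c06001d202a00cb01180658088003a41007dc060040402a020b01180fd8088003a2100534060022c02a00f8011807c00880039e100030060001cd0202fa03001660110005e41002200c0008c04400178040058030000b98102080000005440808f80c4042c04a001370401480000007a01005c0180002940802780c0001020403fc06002b602a0175011800a808800000100098002001e0008150482))))) 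
(.nd (nat_lit 6) 
(.lf (nat_lit 1342215990) (dlOf (nat_lit 1) (nat_lit 0x15000800980020026000800a103))) 
(.nd (nat_lit 29) 
(.lf (nat_lit 2483063158) (dlOf (nat_lit 4) (nat_lit 0x10050017bd02003802800bdc810004014003c9c080038008000c00200060008004e83))) 
(.lf (nat_lit 5167417718) (dlOf (nat_lit 1) (nat_lit 0x400400020008054e82)))))) (.nd (nat_lit 18) 
(.nd (nat_lit 20) (.nd (nat_lit 21) 
(.lf (nat_lit 3494412342) (dlOf (nat_lit 1) (nat_lit 0x60028220b81))) 
(.lf (nat_lit 3492315190) (dlOf (nat_lit 1) (nat_lit 0xc00280c1181)))) 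
(.lf (nat_lit 3493363766) (dlOf (nat_lit 11) (nat_lit 0x296034819b81100bf4086043a02b0216015004a80900134040013201f00c700c804b00600038e280a580d2066404402c0021812000ac08a005401660240068010006200640038c200ad80d2007e064035a02201b3810c091c056048402a00c1012003c0080030c03e01f001900d900c000714580df81a408c408803ea043015601580b180a800ec048001c30c06620440209015804a00900144040001bd08037c06902580220102010c050c056023402a003b01200068c30008810c00332040e380d00726042027701181438078002a81007640d003b404200b7011805d0078002a61004580d00220042005c011801500780000010006400400040018120d02)))) 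
(.nd (nat_lit 8) (.lf (nat_lit 4096557110) (dlOf (nat_lit 1) (nat_lit 0x1e0028131001))) 
(.lf (nat_lit 1410107190) (dlOf (nat_lit 2) (nat_lit 0x2078000168180f3e00)))))) (.nd (nat_lit 8) 
(.nd (nat_lit 10) (.nd (nat_lit 26) (.nd (nat_lit 29) 
(.lf (nat_lit 402948150) (dlOf (nat_lit 1) (nat_lit 0x8002002200080b0482))) 
(.lf (nat_lit 3087302710) (dlOf (nat_lit 3) (nat_lit 0x6000000e781000600000068c080008008000800200040008170d03)))) 
(.nd (nat_lit 29) 
(.lf (nat_lit 1543798838) (dlOf (nat_lit 6) (nat_lit 0x1b0128007980801b80940044044001cd04003602500470110006cc1000400940030a04002404a000810201bc0008170d01))) 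
(.lf (nat_lit 2080669750) (dlOf (nat_lit 2) (nat_lit 0x2027000b0050008dc1000380080004002001400080b0483))))) 
(.nd (nat_lit 6) (.lf (nat_lit 469802038) (dlOf (nat_lit 1) (nat_lit 0x40040002000800bf02))) 
(.lf (nat_lit 473465974) (dlOf (nat_lit 1) (nat_lit 0x10008000800200040008f52a03))))) 
(.nd (nat_lit 9) (.nd (nat_lit 6) 
(.lf (nat_lit 5838766390) (dlOf (nat_lit 1) (nat_lit 0x1f8008008c002000200081b0583))) 
(.lf (nat_lit 5774018934) (dlOf (nat_lit 1) (nat_lit 0x800080e4e81)))) (.nd (nat_lit 10) 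
(.lf (nat_lit 5771922230) (dlOf (nat_lit 1) (nat_lit 0x3e0008036c00201e80008005c03))) 
(.nd (nat_lit 26) (.lf (nat_lit 3623913270) (dlOf (nat_lit 2) (nat_lit 0x200000017018003e00))) 
(.lf (nat_lit 1543538486) (dlOf (nat_lit 2) (nat_lit 0x400c00018818003e00)))))))) (.nd (nat_lit 6) 
(.nd (nat_lit 26) (.nd (nat_lit 8) (.nd (nat_lit 10) (.nd (nat_lit 18) 
(.lf (nat_lit 1342734518) (dlOf (nat_lit 1) (nat_lit 0x44002001000080c0382))) 
(.lf (nat_lit 4563697846) (dlOf (nat_lit 6) (nat_lit 0x2c02c000e302002a0120003b0100090090001d4080080048000e80400440240007302003000280c1701)))) 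
(.lf (nat_lit 3490221238) (dlOf (nat_lit 1) (nat_lit 0x400400020008006282)))) (.nd (nat_lit 9) 
(.lf (nat_lit 1345880502) (dlOf (nat_lit 1) (nat_lit 0xac004002c0008e06e82))) (.nd (nat_lit 11) 
(.lf (nat_lit 1476432822) (dlOf (nat_lit 3) (nat_lit 0xde0110025c01006f0088012dc080058008003800200720008009203))) 
(.lf (nat_lit 6710922166) (dlOf (nat_lit 3) (nat_lit 0x500b00028054003c0280000e06000c016000600a800000100020008008800200360008005d03)))))) 
(.nd (nat_lit 11) (.nd (nat_lit 8) (.nd (nat_lit 27) 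
(.lf (nat_lit 1946714294) (dlOf (nat_lit 2) (nat_lit 0x2403e000158181b0380))) 
(.lf (nat_lit 470319286) (dlOf (nat_lit 1) (nat_lit 0x44002001000080c0382)))) 
(.lf (nat_lit 3691025334) (dlOf (nat_lit 1) (nat_lit 0x58008002000200320008009203)))) 
(.nd (nat_lit 8) (.nd (nat_lit 10) 
(.lf (nat_lit 1543538870) (dlOf (nat_lit 2) (nat_lit 0xe00500000018004900))) 
(.lf (nat_lit 2483063990) (dlOf (nat_lit 3) (nat_lit 0xa0140001440800300a00009e0400cc00400100018006282)))) 
(.lf (nat_lit 4764765110) (dlOf (nat_lit 3) (nat_lit 0x100b0000600800080100000004002800200140008005d02)))))) 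
(.nd (nat_lit 27) (.nd (nat_lit 9) (.nd (nat_lit 8) 
(.lf (nat_lit 1342213366) (dlOf (nat_lit 1) (nat_lit 0x14004001c0008006582))) (.nd (nat_lit 10) 
(.lf (nat_lit 1342214646) (dlOf (nat_lit 2) (nat_lit 0x206740096204000c00400020018008682))) 
(.lf (nat_lit 268469750) (dlOf (nat_lit 1) (nat_lit 0x400400020008053682))))) (.nd (nat_lit 10) 
(.nd (nat_lit 18) (.lf (nat_lit 5637178358) (dlOf (nat_lit 1) (nat_lit 0x20008002881))) 
(.lf (nat_lit 1345094646) (dlOf (nat_lit 1) (nat_lit 0x5c004004800089e2882)))) 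
(.lf (nat_lit 805345270) (dlOf (nat_lit 1) (nat_lit 0x40040002000800a602))))) (.nd (nat_lit 8) 
(.nd (nat_lit 9) (.nd (nat_lit 11) 
(.lf (nat_lit 3154673910) (dlOf (nat_lit 2) (nat_lit 0x200b00018604001c00200160008310602))) 
(.lf (nat_lit 3691026678) (dlOf (nat_lit 1) (nat_lit 0x88000800a981)))) 
(.lf (nat_lit 3623913206) (dlOf (nat_lit 1) (nat_lit 0x800400020018003b82)))) (.nd (nat_lit 11) 
(.lf (nat_lit 469799926) (dlOf (nat_lit 2) (nat_lit 0x682380000004002400400080008009202))) 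
(.nd (nat_lit 32) (.lf (nat_lit 402689014) (dlOf (nat_lit 1) (nat_lit 0xc00400080008005f02))) 
(.lf (nat_lit 4697656310) (dlOf (nat_lit 2) (nat_lit 0x20178001540800b0008000c002000e0008005f03)))))))))) 
(.nd (nat_lit 18) (.nd (nat_lit 26) (.nd (nat_lit 6) (.nd (nat_lit 30) (.nd (nat_lit 8) 
(.nd (nat_lit 20) (.nd (nat_lit 22) 
(.lf (nat_lit 268599350) (dlOf (nat_lit 4) (nat_lit 0xa016000800a8029ec100090058005402a006001400010090001001c014d214001802c0006015002900a0029a01800d00080080002001000080a1003))) 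
(.nd (nat_lit 24) (.lf (nat_lit 12746806) (dlOf (nat_lit 1) (nat_lit 0x20004000200186e0b02))) 
(.lf (nat_lit 29524022) (dlOf (nat_lit 1) (nat_lit 0x1c004001c0008e10882))))) (.nd (nat_lit 9) 
(.lf (nat_lit 10125366) (dlOf (nat_lit 1) (nat_lit 0x100080008002000600085b0683))) 
(.lf (nat_lit 11698742) (dlOf (nat_lit 2) (nat_lit 0xae310000480800200080004002002600086c0f83))))) 
(.nd (nat_lit 7) (.nd (nat_lit 10) 
(.lf (nat_lit 20089654) (dlOf (nat_lit 1) (nat_lit 0x4002000200089d5c02))) 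
(.lf (nat_lit 8030006) (dlOf (nat_lit 1) (nat_lit 0xf80018513e01)))) 
(.lf (nat_lit 9601462) (dlOf (nat_lit 1) (nat_lit 0x47800201e60008577782))))) (.nd (nat_lit 27) 
(.nd (nat_lit 31) (.nd (nat_lit 7) 
(.lf (nat_lit 1342341686) (dlOf (nat_lit 1) (nat_lit 0x200080418002011e0008018103))) 
(.lf (nat_lit 5637309878) (dlOf (nat_lit 1) (nat_lit 0x2200280d3601)))) (.nd (nat_lit 19) 
(.lf (nat_lit 4026695734) (dlOf (nat_lit 4) (nat_lit 0x3d010001a802c002a2080014040000800b000a8020008011801180800026e0800a0004003c0018030d02))) 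
(.lf (nat_lit 3492446262) (dlOf (nat_lit 3) (nat_lit 0x1c08a000e881000704500073c0800e80080008002000e00080d0b83))))) 
(.nd (nat_lit 12) (.nd (nat_lit 28) 
(.lf (nat_lit 1208123446) (dlOf (nat_lit 1) (nat_lit 0xa0028090001))) 
(.lf (nat_lit 1476558902) (dlOf (nat_lit 2) (nat_lit 0x6e0290009b818050480)))) 
(.lf (nat_lit 3892482102) (dlOf (nat_lit 1) (nat_lit 0x8008000c00200020008157c83)))))) 
(.nd (nat_lit 7) (.nd (nat_lit 12) (.nd (nat_lit 19) (.nd (nat_lit 21) 
(.lf (nat_lit 1346535542) (dlOf (nat_lit 7) (nat_lit 0x911700040894003041a00141a200100000005a42800488ec001c46c000a1c00006783000411700020894001441a00081a20000c04000411700038894001c41a00121a20000b84000411700038894002c41a00161a20000b04000511700040894003041a00141a20000a848fa0d80))) 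
(.lf (nat_lit 44204150) (dlOf (nat_lit 2) (nat_lit 0x1039c0001402001000092d0b01)))) 
(.lf (nat_lit 537559158) (dlOf (nat_lit 1) (nat_lit 0xa400080a1881)))) (.nd (nat_lit 8) 
(.nd (nat_lit 9) (.lf (nat_lit 3758266486) (dlOf (nat_lit 1) (nat_lit 0x10002812a881))) 
(.lf (nat_lit 168566) (dlOf (nat_lit 1) (nat_lit 0x800400200018008982)))) 
(.lf (nat_lit 170358) (dlOf (nat_lit 1) (nat_lit 0x3000800400020008000800ad83))))) 
(.nd (nat_lit 25) (.nd (nat_lit 8) 
(.lf (nat_lit 5772575990) (dlOf (nat_lit 1) (nat_lit 0x8008000400200020008092e83))) 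
(.lf (nat_lit 537035766) (dlOf (nat_lit 1) (nat_lit 0x400200020008002882)))) (.nd (nat_lit 11) 
(.lf (nat_lit 35816438) (dlOf (nat_lit 1) (nat_lit 0x20019012881))) 
(.lf (nat_lit 46304246) (dlOf (nat_lit 1) (nat_lit 0x3a0029385f01))))))) (.nd (nat_lit 29) 
(.nd (nat_lit 28) (.nd (nat_lit 6) (.nd (nat_lit 7) (.nd (nat_lit 9) 
(.lf (nat_lit 3288498230) (dlOf (nat_lit 4) (nat_lit 0x3d010001a802c002a2080014040000800b000a8020008011801180800026e0800a0004003c0018030d02))) 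
(.lf (nat_lit 2214756918) (dlOf (nat_lit 1) (nat_lit 0x600280a1481)))) 
(.lf (nat_lit 5435984566) (dlOf (nat_lit 1) (nat_lit 0x800200040008095702)))) (.nd (nat_lit 8) 
(.lf (nat_lit 5435981942) (dlOf (nat_lit 2) (nat_lit 0x10000000290200060018090201))) 
(.lf (nat_lit 5435984246) (dlOf (nat_lit 1) (nat_lit 0x400400020008094e82))))) (.nd (nat_lit 8) 
(.nd (nat_lit 9) (.lf (nat_lit 1409974390) (dlOf (nat_lit 1) (nat_lit 0xa400080a1881))) 
(.lf (nat_lit 474121846) (dlOf (nat_lit 1) (nat_lit 0xc400090e3981)))) (.nd (nat_lit 10) 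
(.lf (nat_lit 1409452406) (dlOf (nat_lit 1) (nat_lit 0x20018004e81))) 
(.lf (nat_lit 474121590) (dlOf (nat_lit 1) (nat_lit 0xc004000200190e3502)))))) (.nd (nat_lit 12) 
(.nd (nat_lit 19) (.nd (nat_lit 7) (.nd (nat_lit 9) 
(.lf (nat_lit 604143670) (dlOf (nat_lit 1) (nat_lit 0x400200020008030482))) 
(.lf (nat_lit 4228022838) (dlOf (nat_lit 2) (nat_lit 0x218000001ea040004002002a0008018102)))) 
(.lf (nat_lit 5301764278) (dlOf (nat_lit 1) (nat_lit 0x320018090681)))) (.nd (nat_lit 10) 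
(.lf (nat_lit 2754248758) (dlOf (nat_lit 3) (nat_lit 0x1c087000e881000704380073c0800e80080008002000e00080d0b83))) 
(.lf (nat_lit 738886710) (dlOf (nat_lit 1) (nat_lit 0x440008122881))))) (.nd (nat_lit 28) 
(.nd (nat_lit 8) 
(.lf (nat_lit 1677891638) (dlOf (nat_lit 1) (nat_lit 0x1800800040020002000811a603))) 
(.lf (nat_lit 2754779958) (dlOf (nat_lit 1) (nat_lit 0x1600280fbc81)))) (.nd (nat_lit 10) 
(.lf (nat_lit 3020066870) (dlOf (nat_lit 1) (nat_lit 0x400200020008127c82))) 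
(.lf (nat_lit 3020069942) (dlOf (nat_lit 1) (nat_lit 0x10008000c0020002000812bf03)))))))) 
(.nd (nat_lit 7) (.nd (nat_lit 8) (.nd (nat_lit 19) (.nd (nat_lit 9) (.nd (nat_lit 20) 
(.lf (nat_lit 2818998326) (dlOf (nat_lit 2) (nat_lit 0x186000000a8818150480))) (.nd (nat_lit 24) 
(.lf (nat_lit 9863222) (dlOf (nat_lit 1) (nat_lit 0x400400020008580482))) 
(.lf (nat_lit 26640438) (dlOf (nat_lit 2) (nat_lit 0x5370a8004dc080010008000c00200080008c50483))))) 
(.nd (nat_lit 6) (.nd (nat_lit 26) 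
(.lf (nat_lit 134644278) (dlOf (nat_lit 3) (nat_lit 0xfe010801c4082044e03e022101c80a300d0096806004b202b00e5009008080400060000000111401cc05801f602a00c4012c005008e04b8043025c020812380fc090407a04a403a026801c004b80dc09a006a04ce0330276018007b80ac03b0020001000a0268001800000900d8000847d00020bfe0008090f83))) 
(.lf (nat_lit 201753142) (dlOf (nat_lit 3) (nat_lit 0xfe010801c4082044e03e022101c80a300d0096806004b202b00e5009008080400060000000121401cc05901f602a80c4012c005008e04b8043025c020812380fc090407a04a403a026801c004b80dc09a006a04ce0330276018007b80ac03b0020001000a0268002000000900d8000847d00020bfe0008090f83)))) 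
(.lf (nat_lit 8820342) (dlOf (nat_lit 2) (nat_lit 0x4920000570200020018519d01))))) (.nd (nat_lit 6) 
(.nd (nat_lit 9) (.nd (nat_lit 12) 
(.lf (nat_lit 47087670) (dlOf (nat_lit 1) (nat_lit 0x100080010002000600093a0483))) 
(.lf (nat_lit 8294454) (dlOf (nat_lit 1) (nat_lit 0x180080020002000a0008517c83)))) 
(.lf (nat_lit 3490611766) (dlOf (nat_lit 4) (nat_lit 0x28550000480400082a80002302000c15400011018018100)))) 
(.nd (nat_lit 26) (.lf (nat_lit 5773361270) (dlOf (nat_lit 1) (nat_lit 0x2600180c0b01))) 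
(.lf (nat_lit 6377341046) (dlOf (nat_lit 1) (nat_lit 0x2600180c0b01)))))) (.nd (nat_lit 26) 
(.nd (nat_lit 6) (.nd (nat_lit 9) 
(.lf (nat_lit 805732662) (dlOf (nat_lit 1) (nat_lit 0x18002001800081a0582))) 
(.lf (nat_lit 2416352054) (dlOf (nat_lit 1) (nat_lit 0x18008000c002000200080fbc83)))) 
(.nd (nat_lit 22) (.lf (nat_lit 3490089334) (dlOf (nat_lit 1) (nat_lit 0xc00200020008004e82))) 
(.lf (nat_lit 38177142) (dlOf (nat_lit 1) (nat_lit 0x400400020009134e82))))) (.nd (nat_lit 29) 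
(.nd (nat_lit 21) (.lf (nat_lit 4362502454) (dlOf (nat_lit 1) (nat_lit 0x20018090581))) 
(.lf (nat_lit 69632310) (dlOf (nat_lit 1) (nat_lit 0xc00400040008b87b02)))) (.nd (nat_lit 6) 
(.nd (nat_lit 27) (.lf (nat_lit 1678147894) (dlOf (nat_lit 1) (nat_lit 0x18002001800081a0582))) 
(.lf (nat_lit 4228284726) (dlOf (nat_lit 1) (nat_lit 0x20018090581)))) 
(.lf (nat_lit 2753462646) (dlOf (nat_lit 1) (nat_lit 0xc00200020008090782))))))) (.nd (nat_lit 6) 
(.nd (nat_lit 8) (.nd (nat_lit 19) (.nd (nat_lit 10) 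
(.lf (nat_lit 21397686) (dlOf (nat_lit 2) (nat_lit 0x1a163004c0470008020800b002c000e308006e0018a31701))) 
(.lf (nat_lit 51807414) (dlOf (nat_lit 1) (nat_lit 0x2a0029512c81)))) (.nd (nat_lit 27) 
(.lf (nat_lit 1999030) (dlOf (nat_lit 1) (nat_lit 0x30008000800200040008150383))) 
(.lf (nat_lit 5773361334) (dlOf (nat_lit 1) (nat_lit 0x4002000200080c1702))))) (.nd (nat_lit 26) 
(.nd (nat_lit 10) (.nd (nat_lit 28) 
(.lf (nat_lit 3221651894) (dlOf (nat_lit 4) (nat_lit 0x2b408c00192020138046000c88100b002300063c080038008000c002003c0008170803))) 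
(.lf (nat_lit 805732790) (dlOf (nat_lit 14) (nat_lit 0x6981580032404033c0ac001910201ae056000c7810039009800624080618158030402600188040116013000c201007900980060c08013804c003000400740ac0168013000bf82000802b0004004c002fc0800740ac00ac013000be82000d0050005740806d004c00000040004004001600081a0802)))) 
(.lf (nat_lit 8291766) (dlOf (nat_lit 1) (nat_lit 0x400200020008513602)))) (.nd (nat_lit 19) 
(.nd (nat_lit 27) 
(.lf (nat_lit 1678148022) (dlOf (nat_lit 14) (nat_lit 0x6981580033c04033c0ac0019d0201ae056000cd810039009800628080618158030402600189040116013000c201007900980060c08013804c003000400740ac0168013000bf82000802b0004004c002fc0800740ac00ac013000be82000d0050005600806d004c00000040004004001600081a0802))) 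
(.lf (nat_lit 3959849398) (dlOf (nat_lit 4) (nat_lit 0x2b408c0019e020138046000ce8100b002300066c080038008000c002003c0008170803)))) 
(.lf (nat_lit 2752414134) (dlOf (nat_lit 4) (nat_lit 0x240920013f8040118490009fb02009c248004fc018017780)))))) 
(.nd (nat_lit 9) (.nd (nat_lit 26) (.nd (nat_lit 8) 
(.lf (nat_lit 29786358) (dlOf (nat_lit 1) (nat_lit 0x20018e30601))) 
(.lf (nat_lit 134644214) (dlOf (nat_lit 7) (nat_lit 0x3404a0011201001a02500088c080010128003e6040068094001f202003404a000f88100190208001140800d8008001c00200660008090d83)))) 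
(.nd (nat_lit 29) 
(.lf (nat_lit 201753078) (dlOf (nat_lit 7) (nat_lit 0x3404a0010a01001a02500084c0800d0128003e6040008094001f202003404a000f88100190208000400800d8008001c00200660008090d83))) 
(.lf (nat_lit 2886107638) (dlOf (nat_lit 3) (nat_lit 0x200000002f02000a00000016818157e00))))) 
(.nd (nat_lit 21) (.nd (nat_lit 26) 
(.lf (nat_lit 2550563830) (dlOf (nat_lit 1) (nat_lit 0x1200180f2881))) 
(.lf (nat_lit 2751890422) (dlOf (nat_lit 1) (nat_lit 0x400400020018002882)))) (.nd (nat_lit 8) 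
(.lf (nat_lit 20353782) (dlOf (nat_lit 1) (nat_lit 0x1a00189d8f81))) 
(.lf (nat_lit 6377866230) (dlOf (nat_lit 2) (nat_lit 0x8014000e580800580080004002000200080e2883))))))))))) 
(.nd (nat_lit 18) (.nd (nat_lit 6) (.nd (nat_lit 17) (.nd (nat_lit 5) (.nd (nat_lit 19) 
(.nd (nat_lit 26) (.nd (nat_lit 20) (.nd (nat_lit 24) (.nd (nat_lit 7) (.nd (nat_lit 28) 
(.lf (nat_lit 3221323798) (dlOf (nat_lit 1) (nat_lit 0x58008000400200020008090003))) 
(.lf (nat_lit 4563501078) (dlOf (nat_lit 10) (nat_lit 0x500d0001c064001001f00c2f03000701a000280c8001803e0185d060012034000c01900616c1000580d00028064000a01f00c2c83000b01a0060ec0800d80d002f88040084068017c302003e03400be081000101a00000008006800800f0002001e0008090003)))) 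
(.lf (nat_lit 1476493462) (dlOf (nat_lit 1) (nat_lit 0x8008009800201920008010283)))) 
(.nd (nat_lit 21) (.lf (nat_lit 16875542) (dlOf (nat_lit 1) (nat_lit 0x4002000200088e0002))) 
(.lf (nat_lit 27361302) (dlOf (nat_lit 1) (nat_lit 0x8008000400200020008cd0403))))) 
(.nd (nat_lit 21) (.nd (nat_lit 28) 
(.lf (nat_lit 1146902) (dlOf (nat_lit 1) (nat_lit 0x6400200040008080482))) 
(.lf (nat_lit 3490807830) (dlOf (nat_lit 2) (nat_lit 0xd2158000d7818020480)))) 
(.lf (nat_lit 28409878) (dlOf (nat_lit 1) (nat_lit 0x68008000400200020008d90403))))) 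
(.nd (nat_lit 8) (.nd (nat_lit 20) (.nd (nat_lit 9) (.nd (nat_lit 27) 
(.lf (nat_lit 2483126294) (dlOf (nat_lit 3) (nat_lit 0x60280031e8100040140018f0080158008001400200be0008020483))) 
(.lf (nat_lit 2348908566) (dlOf (nat_lit 3) (nat_lit 0x6028005e9010004014002f3c080158008001400200be0008020483)))) 
(.lf (nat_lit 6241224214) (dlOf (nat_lit 4) (nat_lit 0x180080001102000600400001010001002000000080098008000c00200160008053703)))) 
(.nd (nat_lit 27) (.lf (nat_lit 2752610326) (dlOf (nat_lit 2) (nat_lit 0xd215d00091818020480))) 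
(.lf (nat_lit 6376488982) (dlOf (nat_lit 1) (nat_lit 0x3a0018090001))))) (.nd (nat_lit 27) 
(.nd (nat_lit 7) (.lf (nat_lit 6509658390) (dlOf (nat_lit 1) (nat_lit 0x11c00180b0481))) 
(.lf (nat_lit 5435916694) (dlOf (nat_lit 1) (nat_lit 0x20028036481)))) (.nd (nat_lit 10) 
(.lf (nat_lit 3422650646) (dlOf (nat_lit 1) (nat_lit 0x20028014a81))) 
(.lf (nat_lit 469867798) (dlOf (nat_lit 1) (nat_lit 0xe0008005c0020008000800c603))))))) 
(.nd (nat_lit 20) (.nd (nat_lit 24) (.nd (nat_lit 26) 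
(.lf (nat_lit 2819194902) (dlOf (nat_lit 1) (nat_lit 0x17800281e0481))) (.nd (nat_lit 27) 
(.lf (nat_lit 4362698774) (dlOf (nat_lit 2) (nat_lit 0x3019805c500800180080014002000c00080d0903))) 
(.lf (nat_lit 4228481046) (dlOf (nat_lit 2) (nat_lit 0x30190056b40800180080014002000c00080d0903))))) 
(.nd (nat_lit 7) (.nd (nat_lit 9) 
(.lf (nat_lit 21594134) (dlOf (nat_lit 1) (nat_lit 0x18008002800200020008a50303))) 
(.lf (nat_lit 50954774) (dlOf (nat_lit 1) (nat_lit 0x18008001c002000a00094d8703)))) 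
(.lf (nat_lit 25788566) (dlOf (nat_lit 1) (nat_lit 0x400400020008c10282))))) (.nd (nat_lit 24) 
(.nd (nat_lit 29) (.lf (nat_lit 1343848470) (dlOf (nat_lit 1) (nat_lit 0x400200020008370002))) 
(.lf (nat_lit 1880719382) (dlOf (nat_lit 1) (nat_lit 0xc00400020008b50002)))) (.nd (nat_lit 7) 
(.nd (nat_lit 10) 
(.lf (nat_lit 54099990) (dlOf (nat_lit 1) (nat_lit 0x18008001000200060009610083))) 
(.lf (nat_lit 56198166) (dlOf (nat_lit 1) (nat_lit 0x20009732881)))) 
(.lf (nat_lit 60393878) (dlOf (nat_lit 1) (nat_lit 0x40009844e81))))))) (.nd (nat_lit 30) 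
(.nd (nat_lit 28) (.nd (nat_lit 11) (.nd (nat_lit 8) (.nd (nat_lit 9) 
(.lf (nat_lit 22118454) (dlOf (nat_lit 1) (nat_lit 0x700018a90701))) 
(.lf (nat_lit 2753135158) (dlOf (nat_lit 3) (nat_lit 0x3fc3f800061e60000902004c126006b892801c848a01de1fc002d0fa806d07b800000180038004085e0018090f82)))) 
(.lf (nat_lit 100150) (dlOf (nat_lit 1) (nat_lit 0x800200040008003e02)))) (.nd (nat_lit 8) 
(.nd (nat_lit 31) (.lf (nat_lit 104502) (dlOf (nat_lit 1) (nat_lit 0x3c004001e001800a602))) 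
(.lf (nat_lit 6442555446) (dlOf (nat_lit 1) (nat_lit 0x200080fa601)))) 
(.lf (nat_lit 100662) (dlOf (nat_lit 1) (nat_lit 0x1c0018004c01))))) (.nd (nat_lit 9) 
(.nd (nat_lit 19) 
(.lf (nat_lit 4563501110) (dlOf (nat_lit 2) (nat_lit 0x401a0000000804400080134002003a0008090003))) 
(.nd (nat_lit 20) (.lf (nat_lit 470384694) (dlOf (nat_lit 1) (nat_lit 0x1600180d0a81))) 
(.lf (nat_lit 471433270) (dlOf (nat_lit 1) (nat_lit 0x200282f1081))))) (.nd (nat_lit 7) 
(.nd (nat_lit 8) 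
(.lf (nat_lit 4697720374) (dlOf (nat_lit 2) (nat_lit 0x1018800050080038008002800200080008093783))) 
(.lf (nat_lit 939624246) (dlOf (nat_lit 1) (nat_lit 0x20018143e01)))) 
(.lf (nat_lit 4563504054) (dlOf (nat_lit 1) (nat_lit 0x10008000400200080008095d03)))))) 
(.nd (nat_lit 26) (.nd (nat_lit 20) (.nd (nat_lit 27) (.nd (nat_lit 7) 
(.lf (nat_lit 4026630454) (dlOf (nat_lit 1) (nat_lit 0x40004000a0008014c02))) 
(.lf (nat_lit 1342278838) (dlOf (nat_lit 1) (nat_lit 0x400400020008006282)))) (.nd (nat_lit 19) 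
(.lf (nat_lit 2013364278) (dlOf (nat_lit 3) (nat_lit 0x2101200090c0801c80900047e040150004000a0008020482))) 
(.lf (nat_lit 3892936758) (dlOf (nat_lit 3) (nat_lit 0xd80b0000520400780580050007000138282a0c00))))) 
(.nd (nat_lit 7) (.nd (nat_lit 8) 
(.lf (nat_lit 3491332662) (dlOf (nat_lit 3) (nat_lit 0x3fc3d400061d10000882004c11a006b88c801c845a01de1ea002d0f1806d076400000180038004085e0018090f82))) 
(.lf (nat_lit 3492906806) (dlOf (nat_lit 1) (nat_lit 0x1e00180f3e01)))) 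
(.lf (nat_lit 3492907190) (dlOf (nat_lit 1) (nat_lit 0x3c00280f4901))))) (.nd (nat_lit 28) 
(.nd (nat_lit 8) (.nd (nat_lit 9) 
(.lf (nat_lit 1140949046) (dlOf (nat_lit 3) (nat_lit 0x2101200090c0801c80900047e040150004000a0008020482))) 
(.lf (nat_lit 3288433206) (dlOf (nat_lit 1) (nat_lit 0x8008000400200020008018103)))) 
(.lf (nat_lit 3288432950) (dlOf (nat_lit 1) (nat_lit 0x40004000a0008014c02)))) (.nd (nat_lit 8) 
(.nd (nat_lit 20) 
(.lf (nat_lit 4096360502) (dlOf (nat_lit 3) (nat_lit 0x508300090c0800204180047e04003c00400040008100482))) 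
(.lf (nat_lit 4095311926) (dlOf (nat_lit 2) (nat_lit 0x4087000e3018090480)))) 
(.lf (nat_lit 4227963702) (dlOf (nat_lit 1) (nat_lit 0x2000800bc81)))))))) (.nd (nat_lit 28) 
(.nd (nat_lit 21) (.nd (nat_lit 26) (.nd (nat_lit 7) (.nd (nat_lit 5) (.nd (nat_lit 19) 
(.nd (nat_lit 27) (.lf (nat_lit 6442680342) (dlOf (nat_lit 1) (nat_lit 0x40018140a81))) 
(.lf (nat_lit 134447126) (dlOf (nat_lit 2) (nat_lit 0x540128034c05e001af0400140008020481)))) 
(.lf (nat_lit 2819325974) (dlOf (nat_lit 14) (nat_lit 0x3037800580d0000be0800080e4000a06a0002c82000602f000100fc000aa0800040bc000a0420002a0200020210001480800081a800400bc000c04b000e01f8001442000701780008096001c03f000258300030348001080800581740007e04000c06c0003302000e05b000601a0000c810003016c002c06c00060340001803000102d00001c0802d000800d000200040008240403)))) 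
(.nd (nat_lit 8) (.lf (nat_lit 10190902) (dlOf (nat_lit 1) (nat_lit 0x14004000200085c0d02))) 
(.lf (nat_lit 1611366710) (dlOf (nat_lit 1) (nat_lit 0x5e0028167b01))))) (.nd (nat_lit 10) 
(.nd (nat_lit 9) (.lf (nat_lit 14385302) (dlOf (nat_lit 1) (nat_lit 0x400200020008750282))) 
(.lf (nat_lit 1745062550) (dlOf (nat_lit 1) (nat_lit 0x400200020008095502)))) (.nd (nat_lit 5) 
(.lf (nat_lit 2684589206) (dlOf (nat_lit 20) (nat_lit 0x52807017400331354019013000b00234056021a01a030800c80280000009d2201aa8066244c032006f01581798064009b0101078076004a002004603b0024b8100dc01d8007cc0845980ec002dc044a1407611c003902a801b8005a01800680ec000880400140760004302000e03b0002081010a01d8000fc0815f80ec0007c040fd80760003c02004803b0001a81014501d80004c082bc00ec000220400b00760000e02128a03b0000601087b01d80000008023000803c0002000200080a9503))) 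
(.lf (nat_lit 2684589238) (dlOf (nat_lit 2) (nat_lit 0x21403b000000180a9500)))))) (.nd (nat_lit 9) 
(.nd (nat_lit 7) (.nd (nat_lit 8) (.nd (nat_lit 29) 
(.lf (nat_lit 201555990) (dlOf (nat_lit 2) (nat_lit 0x540128034c05e001230400140008020481))) 
(.lf (nat_lit 1812168726) (dlOf (nat_lit 2) (nat_lit 0xa30128045808000d0c0800c400400400008160482)))) 
(.lf (nat_lit 5436047638) (dlOf (nat_lit 6) (nat_lit 0x1a00980084c08002005000140220011b0400060140006008800464100010050000c022000fa040006014000a0088003dc1001c800800e4002004a0008090a83)))) 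
(.lf (nat_lit 3422786710) (dlOf (nat_lit 2) (nat_lit 0x56e03b000b40180a9500)))) (.nd (nat_lit 5) 
(.nd (nat_lit 8) 
(.lf (nat_lit 738429590) (dlOf (nat_lit 2) (nat_lit 0x600e800074080018008001400200060008095503))) 
(.lf (nat_lit 2751694742) (dlOf (nat_lit 2) (nat_lit 0x1c110000000200020018004201)))) 
(.nd (nat_lit 8) 
(.lf (nat_lit 3288564278) (dlOf (nat_lit 1) (nat_lit 0x14000800dc00200360008090f83))) 
(.lf (nat_lit 4899179318) (dlOf (nat_lit 1) (nat_lit 0x20008000c002000200080d5c03))))))) 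
(.nd (nat_lit 24) (.nd (nat_lit 5) (.nd (nat_lit 20) (.nd (nat_lit 19) 
(.lf (nat_lit 2326550) (dlOf (nat_lit 1) (nat_lit 0xa8008005000200320008150003))) 
(.lf (nat_lit 2754314262) (dlOf (nat_lit 2) (nat_lit 0x203f801bc402000200180d0881)))) 
(.nd (nat_lit 8) (.lf (nat_lit 2755362838) (dlOf (nat_lit 1) (nat_lit 0x4800200100008170482))) 
(.lf (nat_lit 8097558) (dlOf (nat_lit 1) (nat_lit 0x400400020008517482))))) (.nd (nat_lit 8) 
(.nd (nat_lit 26) (.lf (nat_lit 2850870) (dlOf (nat_lit 1) (nat_lit 0x4002000200081c0b82))) 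
(.lf (nat_lit 2754314294) (dlOf (nat_lit 3) (nat_lit 0x221fd000e88100080f380073c08001800800b0002000600080d0b83)))) 
(.nd (nat_lit 7) (.lf (nat_lit 50038070) (dlOf (nat_lit 1) (nat_lit 0x18800194c3201))) 
(.lf (nat_lit 8095158) (dlOf (nat_lit 1) (nat_lit 0x400200020008513602)))))) (.nd (nat_lit 8) 
(.nd (nat_lit 20) (.nd (nat_lit 5) 
(.lf (nat_lit 52658198) (dlOf (nat_lit 1) (nat_lit 0x40029560581))) 
(.lf (nat_lit 23298614) (dlOf (nat_lit 2) (nat_lit 0xfd8b00000018b80f80)))) (.nd (nat_lit 19) 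
(.lf (nat_lit 24346646) (dlOf (nat_lit 1) (nat_lit 0x20018b90881))) 
(.lf (nat_lit 24870934) (dlOf (nat_lit 1) (nat_lit 0x10008001000200020008bc0903))))) 
(.nd (nat_lit 7) (.nd (nat_lit 5) 
(.lf (nat_lit 61572374) (dlOf (nat_lit 1) (nat_lit 0x400400020009923082))) 
(.lf (nat_lit 20155190) (dlOf (nat_lit 1) (nat_lit 0x4002000200089d5c02)))) (.nd (nat_lit 11) 
(.lf (nat_lit 62095766) (dlOf (nat_lit 1) (nat_lit 0xe400200020009956482))) 
(.lf (nat_lit 57903510) (dlOf (nat_lit 1) (nat_lit 0x41c00401c80009794e82)))))))) (.nd (nat_lit 5) 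
(.nd (nat_lit 26) (.nd (nat_lit 27) (.nd (nat_lit 19) (.nd (nat_lit 7) 
(.lf (nat_lit 1342406678) (dlOf (nat_lit 2) (nat_lit 0x543a201081cd000d7828020480))) 
(.lf (nat_lit 4563632278) (dlOf (nat_lit 3) (nat_lit 0x80cc000580400180660002b02001600180a2a81)))) 
(.nd (nat_lit 20) 
(.lf (nat_lit 3492511766) (dlOf (nat_lit 2) (nat_lit 0x203d40184b02000200180d0881))) 
(.lf (nat_lit 3493560342) (dlOf (nat_lit 1) (nat_lit 0x4800200100008170482))))) (.nd (nat_lit 7) 
(.nd (nat_lit 30) 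
(.lf (nat_lit 939753494) (dlOf (nat_lit 2) (nat_lit 0xa301280458080018360800c400400400008160482))) 
(.lf (nat_lit 6308462614) (dlOf (nat_lit 2) (nat_lit 0xc01f000500800028018000940c0004002000200080c0102)))) 
(.lf (nat_lit 5771594134) (dlOf (nat_lit 2) (nat_lit 0x380a001c2a04000800200080008004e82))))) 
(.nd (nat_lit 30) (.nd (nat_lit 7) (.nd (nat_lit 10) 
(.lf (nat_lit 469991446) (dlOf (nat_lit 2) (nat_lit 0x543a201081cd00091828020480))) 
(.lf (nat_lit 474186774) (dlOf (nat_lit 2) (nat_lit 0x2885c800dfa040014002000400090e2882)))) 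
(.lf (nat_lit 1008437654) (dlOf (nat_lit 1) (nat_lit 0x10008000400200040008c34e83)))) 
(.nd (nat_lit 27) 
(.lf (nat_lit 5704482838) (dlOf (nat_lit 2) (nat_lit 0xc01f000500800028010000940c0004002000200080c0102))) 
(.lf (nat_lit 5838700566) (dlOf (nat_lit 1) (nat_lit 0x40018140a81)))))) (.nd (nat_lit 9) 
(.nd (nat_lit 19) (.nd (nat_lit 7) (.nd (nat_lit 26) 
(.lf (nat_lit 4697849910) (dlOf (nat_lit 1) (nat_lit 0x200080a0f81))) 
(.lf (nat_lit 3691216950) (dlOf (nat_lit 1) (nat_lit 0x3a00080a0801)))) 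
(.lf (nat_lit 5234720950) (dlOf (nat_lit 1) (nat_lit 0x200080d0681)))) (.nd (nat_lit 20) 
(.lf (nat_lit 3492511798) (dlOf (nat_lit 3) (nat_lit 0x221eb000e88100080e900073c08001800800b0002000600080d0b83))) 
(.nd (nat_lit 26) 
(.lf (nat_lit 5773164598) (dlOf (nat_lit 3) (nat_lit 0x409f0008dc0800f84c40044c04001c004000800080b0482))) 
(.lf (nat_lit 6377144374) (dlOf (nat_lit 3) (nat_lit 0x40988008dc0800f84880044c04001c004000800080b0482)))))) 
(.nd (nat_lit 29) (.nd (nat_lit 8) (.nd (nat_lit 27) 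
(.lf (nat_lit 2416149046) (dlOf (nat_lit 2) (nat_lit 0x9010000000080028008001000200040008090f83))) 
(.lf (nat_lit 2550366774) (dlOf (nat_lit 2) (nat_lit 0x9010000000080028008001000200040008090f83)))) 
(.lf (nat_lit 3493037878) (dlOf (nat_lit 2) (nat_lit 0x600f60003502008c00080f3e01)))) 
(.nd (nat_lit 7) 
(.lf (nat_lit 4026761782) (dlOf (nat_lit 1) (nat_lit 0x14000800dc00200360008090f83))) 
(.lf (nat_lit 5100505782) (dlOf (nat_lit 1) (nat_lit 0x4004000200080d5702))))))))) (.nd (nat_lit 5) 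
(.nd (nat_lit 9) (.nd (nat_lit 7) (.nd (nat_lit 28) (.nd (nat_lit 17) (.nd (nat_lit 11) 
(.nd (nat_lit 10) (.nd (nat_lit 29) 
(.lf (nat_lit 3288432982) (dlOf (nat_lit 2) (nat_lit 0x80d40008804005000400200008014d02))) 
(.lf (nat_lit 1677820246) (dlOf (nat_lit 2) (nat_lit 0x380e00001c040008004005c0008090682)))) 
(.lf (nat_lit 49907030) (dlOf (nat_lit 3) (nat_lit 0xce880001102000674400033a1800040100130008005c002009400094c3383)))) 
(.nd (nat_lit 26) (.lf (nat_lit 6442551638) (dlOf (nat_lit 1) (nat_lit 0x2c00280f4e01))) 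
(.lf (nat_lit 201427286) (dlOf (nat_lit 1) (nat_lit 0xf00080224002000a0008004e03))))) 
(.nd (nat_lit 20) (.nd (nat_lit 26) 
(.lf (nat_lit 671318358) (dlOf (nat_lit 2) (nat_lit 0x130140000b4080138008003000200480008154e03))) 
(.lf (nat_lit 1677951318) (dlOf (nat_lit 1) (nat_lit 0x58004000a0018124e02)))) (.nd (nat_lit 8) 
(.lf (nat_lit 68386902) (dlOf (nat_lit 1) (nat_lit 0x30008000800200260008570303))) 
(.lf (nat_lit 1278294) (dlOf (nat_lit 2) (nat_lit 0x18488000220180a4d00)))))) (.nd (nat_lit 27) 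
(.nd (nat_lit 17) (.nd (nat_lit 30) 
(.lf (nat_lit 805405014) (dlOf (nat_lit 2) (nat_lit 0x380e00001c040008004005c0008090682))) 
(.lf (nat_lit 4026630486) (dlOf (nat_lit 1) (nat_lit 0xc00400020008014e02)))) 
(.lf (nat_lit 805536086) (dlOf (nat_lit 6) (nat_lit 0x20028000d00401000a6002800a000220200230298001080802a8150000480400440a8000230200020018124d01)))) 
(.nd (nat_lit 31) (.nd (nat_lit 8) 
(.lf (nat_lit 4697849942) (dlOf (nat_lit 1) (nat_lit 0x200280a1801))) 
(.lf (nat_lit 5773559126) (dlOf (nat_lit 1) (nat_lit 0x200180e3381)))) (.nd (nat_lit 19) 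
(.lf (nat_lit 2550235478) (dlOf (nat_lit 1) (nat_lit 0x100008014d01))) 
(.lf (nat_lit 3154739542) (dlOf (nat_lit 1) (nat_lit 0x20028310881))))))) (.nd (nat_lit 29) 
(.nd (nat_lit 30) (.nd (nat_lit 17) (.nd (nat_lit 32) (.nd (nat_lit 8) 
(.lf (nat_lit 105686) (dlOf (nat_lit 1) (nat_lit 0x2002800c381))) 
(.lf (nat_lit 50954710) (dlOf (nat_lit 1) (nat_lit 0x4c00400c200094d7b02)))) (.nd (nat_lit 26) 
(.lf (nat_lit 4563501270) (dlOf (nat_lit 6) (nat_lit 0x1280680090032004800f8000181803800d001a406400dc01f0000283006601a003180c8018803e000040600c2034005f019002f007c000060c00a40680000002006e0018090981))) 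
(.lf (nat_lit 6509658326) (dlOf (nat_lit 3) (nat_lit 0x4c02400340000011b820016009001500000044c080128002000e00080b0482))))) 
(.nd (nat_lit 19) 
(.lf (nat_lit 2326742) (dlOf (nat_lit 2) (nat_lit 0x15e6770006cc080438008033800201c20008150483))) 
(.lf (nat_lit 9142486) (dlOf (nat_lit 1) (nat_lit 0x2c0028523e01))))) (.nd (nat_lit 27) 
(.nd (nat_lit 17) 
(.lf (nat_lit 3221323990) (dlOf (nat_lit 2) (nat_lit 0x1a8040001c50200180018090481))) 
(.lf (nat_lit 3494084822) (dlOf (nat_lit 1) (nat_lit 0x200281b0481)))) (.nd (nat_lit 19) 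
(.lf (nat_lit 1208058070) (dlOf (nat_lit 1) (nat_lit 0x8008000800200020008090983))) 
(.lf (nat_lit 5771985110) (dlOf (nat_lit 1) (nat_lit 0xe60008031c01)))))) (.nd (nat_lit 32) 
(.nd (nat_lit 8) (.nd (nat_lit 26) 
(.lf (nat_lit 2684453078) (dlOf (nat_lit 1) (nat_lit 0xc00400380018013e02))) 
(.lf (nat_lit 3959521494) (dlOf (nat_lit 2) (nat_lit 0x1a8040001c50200180018090481)))) 
(.lf (nat_lit 738298326) (dlOf (nat_lit 1) (nat_lit 0x160028094e81)))) (.nd (nat_lit 10) 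
(.nd (nat_lit 17) 
(.lf (nat_lit 5905678550) (dlOf (nat_lit 3) (nat_lit 0x4c02200340000011b820016008801500000044c080128002000e00080b0482))) 
(.lf (nat_lit 5100503254) (dlOf (nat_lit 1) (nat_lit 0x400280d0981)))) 
(.lf (nat_lit 5100373206) (dlOf (nat_lit 2) (nat_lit 0x100500008204001000400120018052d82))))))) 
(.nd (nat_lit 17) (.nd (nat_lit 27) (.nd (nat_lit 19) (.nd (nat_lit 21) (.nd (nat_lit 26) 
(.lf (nat_lit 1073841110) (dlOf (nat_lit 1) (nat_lit 0x1800200040008002882))) 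
(.lf (nat_lit 3019998166) (dlOf (nat_lit 1) (nat_lit 0x4004000200080d2882)))) (.nd (nat_lit 20) 
(.lf (nat_lit 60916694) (dlOf (nat_lit 1) (nat_lit 0x800801dc002009600098c2883))) 
(.lf (nat_lit 36799446) (dlOf (nat_lit 1) (nat_lit 0x60019072881))))) (.nd (nat_lit 20) 
(.lf (nat_lit 1346995158) (dlOf (nat_lit 1) (nat_lit 0x70008000400200020009162883))) 
(.nd (nat_lit 21) (.lf (nat_lit 56198102) (dlOf (nat_lit 1) (nat_lit 0x800200020009732882))) 
(.lf (nat_lit 49906646) (dlOf (nat_lit 1) (nat_lit 0x4004000200194c2882)))))) (.nd (nat_lit 26) 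
(.nd (nat_lit 28) (.lf (nat_lit 3892413398) (dlOf (nat_lit 1) (nat_lit 0x20008102881))) 
(.lf (nat_lit 4697719766) (dlOf (nat_lit 1) (nat_lit 0x90008001800200060008092883)))) 
(.nd (nat_lit 10) (.nd (nat_lit 28) 
(.lf (nat_lit 1275167702) (dlOf (nat_lit 1) (nat_lit 0xc00400020008092882))) 
(.lf (nat_lit 6375441366) (dlOf (nat_lit 1) (nat_lit 0x660018002881)))) 
(.lf (nat_lit 201426902) (dlOf (nat_lit 1) (nat_lit 0x640018004501)))))) (.nd (nat_lit 19) 
(.nd (nat_lit 11) (.nd (nat_lit 29) 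
(.lf (nat_lit 1275298774) (dlOf (nat_lit 1) (nat_lit 0x1000280e2881))) 
(.lf (nat_lit 5033395158) (dlOf (nat_lit 1) (nat_lit 0x60028092881)))) (.nd (nat_lit 26) 
(.lf (nat_lit 5100506070) (dlOf (nat_lit 1) (nat_lit 0x80080008002000200080d5e03))) 
(.lf (nat_lit 4899179478) (dlOf (nat_lit 1) (nat_lit 0x800805fc002032800080d5e03))))) 
(.nd (nat_lit 20) (.nd (nat_lit 21) 
(.lf (nat_lit 38503382) (dlOf (nat_lit 1) (nat_lit 0x40019132881))) (.nd (nat_lit 22) 
(.lf (nat_lit 36406230) (dlOf (nat_lit 1) (nat_lit 0x20019072881))) 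
(.lf (nat_lit 40600534) (dlOf (nat_lit 1) (nat_lit 0x200291f2881))))) (.nd (nat_lit 21) 
(.lf (nat_lit 56329174) (dlOf (nat_lit 1) (nat_lit 0x400200020009732882))) 
(.lf (nat_lit 41649110) (dlOf (nat_lit 1) (nat_lit 0x180029242881)))))))) (.nd (nat_lit 7) 
(.nd (nat_lit 26) (.nd (nat_lit 11) (.nd (nat_lit 8) (.nd (nat_lit 9) 
(.lf (nat_lit 47284342) (dlOf (nat_lit 6) (nat_lit 0xd7a60018bbc000e5d200062d10002d21000097a60018bbc000e5d20004ad10000301000317a6000ebbc00085d20004ad100002e10002d7a60014bbc000d5d20006ad100002c1000417a60012bbc000d5d20006ad100002a1000f0002000600093c0d82))) 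
(.nd (nat_lit 10) 
(.lf (nat_lit 3355542134) (dlOf (nat_lit 2) (nat_lit 0x780ac0006a040018002000e00080a1902))) 
(.lf (nat_lit 2684589686) (dlOf (nat_lit 2) (nat_lit 0xe03b0002d0180a9d00))))) (.nd (nat_lit 10) 
(.nd (nat_lit 19) (.lf (nat_lit 1881244022) (dlOf (nat_lit 1) (nat_lit 0x14002000e0008e81002))) 
(.lf (nat_lit 7962998) (dlOf (nat_lit 1) (nat_lit 0x400200020008511002)))) 
(.lf (nat_lit 4832068982) (dlOf (nat_lit 1) (nat_lit 0x5c00180d3501))))) (.nd (nat_lit 12) 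
(.nd (nat_lit 17) (.lf (nat_lit 37849462) (dlOf (nat_lit 1) (nat_lit 0x4c002003600090d4e82))) 
(.nd (nat_lit 20) (.lf (nat_lit 5100505462) (dlOf (nat_lit 1) (nat_lit 0x4004000200080d4e82))) 
(.lf (nat_lit 36931958) (dlOf (nat_lit 1) (nat_lit 0xa0019074e81))))) (.nd (nat_lit 8) 
(.lf (nat_lit 105590) (dlOf (nat_lit 1) (nat_lit 0x800800040020002000800c103))) 
(.lf (nat_lit 104822) (dlOf (nat_lit 1) (nat_lit 0x2002800ad81)))))) (.nd (nat_lit 27) 
(.nd (nat_lit 8) (.nd (nat_lit 17) 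
(.lf (nat_lit 5435916406) (dlOf (nat_lit 1) (nat_lit 0x100028030b01))) 
(.lf (nat_lit 335773814) (dlOf (nat_lit 1) (nat_lit 0x4004000200080a1f02)))) (.nd (nat_lit 11) 
(.lf (nat_lit 5435916662) (dlOf (nat_lit 1) (nat_lit 0x140008035801))) (.nd (nat_lit 17) 
(.lf (nat_lit 3556870518) (dlOf (nat_lit 1) (nat_lit 0x3c00280d4e81))) 
(.lf (nat_lit 4899178870) (dlOf (nat_lit 1) (nat_lit 0x4004000200080d4e82)))))) (.nd (nat_lit 8) 
(.nd (nat_lit 17) (.lf (nat_lit 5301698678) (dlOf (nat_lit 1) (nat_lit 0x100028030b01))) 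
(.lf (nat_lit 2349039734) (dlOf (nat_lit 2) (nat_lit 0x3c010001a0070007fc100100008008c00200260008090083)))) 
(.nd (nat_lit 9) (.nd (nat_lit 10) 
(.lf (nat_lit 5301698934) (dlOf (nat_lit 1) (nat_lit 0x140008035801))) 
(.lf (nat_lit 5838572918) (dlOf (nat_lit 1) (nat_lit 0x4004000200080f6b82)))) 
(.lf (nat_lit 201426806) (dlOf (nat_lit 1) (nat_lit 0x38008003c002000a0008004083))))))) 
(.nd (nat_lit 9) (.nd (nat_lit 19) (.nd (nat_lit 10) (.nd (nat_lit 11) 
(.lf (nat_lit 23298550) (dlOf (nat_lit 1) (nat_lit 0x40028b80d81))) (.nd (nat_lit 26) 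
(.lf (nat_lit 1073846774) (dlOf (nat_lit 1) (nat_lit 0x800800240020008000800b283))) 
(.lf (nat_lit 201431542) (dlOf (nat_lit 1) (nat_lit 0x14001800b281))))) (.nd (nat_lit 8) 
(.nd (nat_lit 20) (.lf (nat_lit 5234722038) (dlOf (nat_lit 1) (nat_lit 0x200180d2e81))) 
(.lf (nat_lit 5772641526) (dlOf (nat_lit 1) (nat_lit 0x400200020008092e82)))) 
(.lf (nat_lit 4832069110) (dlOf (nat_lit 1) (nat_lit 0x80080004002000200080d3683))))) 
(.nd (nat_lit 17) (.nd (nat_lit 26) 
(.lf (nat_lit 3491332598) (dlOf (nat_lit 13) (nat_lit 0x128468002380200942340011501004a11a0008a40802608d000450040128468002270200942340011201004a11a00088c0802508d00044204007046800201020066234000f901004a11a0007a40802508d0003d004000c004004e0008090d82))) 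
(.lf (nat_lit 2753135094) (dlOf (nat_lit 13) (nat_lit 0x1284980023802009424c0011501004a1260008a4080260930004500401284980022702009424c0010a01004a12600084c080250930004220400704980020102006624c000f981004a1260007a4080250930003d004000c004004e0008090d82)))) 
(.nd (nat_lit 8) 
(.lf (nat_lit 1611366646) (dlOf (nat_lit 2) (nat_lit 0x602b8008a4080008008001800200020008166f03))) 
(.nd (nat_lit 11) (.lf (nat_lit 51085814) (dlOf (nat_lit 1) (nat_lit 0x2600194f7401))) 
(.lf (nat_lit 2752223734) (dlOf (nat_lit 1) (nat_lit 0x2800800480020008000800b283))))))) 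
(.nd (nat_lit 11) (.nd (nat_lit 8) 
(.lf (nat_lit 8491766) (dlOf (nat_lit 1) (nat_lit 0x2dc004011e0008518f82))) (.nd (nat_lit 17) 
(.lf (nat_lit 4093740022) (dlOf (nat_lit 1) (nat_lit 0x100018002881))) 
(.lf (nat_lit 49513462) (dlOf (nat_lit 1) (nat_lit 0x1800400040009462882))))) (.nd (nat_lit 19) 
(.nd (nat_lit 12) (.nd (nat_lit 22) 
(.lf (nat_lit 5637245942) (dlOf (nat_lit 1) (nat_lit 0x1000400240008055f02))) 
(.lf (nat_lit 54627318) (dlOf (nat_lit 2) (nat_lit 0x3127800064040318004000e0019655f02)))) 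
(.lf (nat_lit 1342282742) (dlOf (nat_lit 1) (nat_lit 0x2002800bf01)))) (.nd (nat_lit 20) 
(.lf (nat_lit 46762998) (dlOf (nat_lit 1) (nat_lit 0x400400020009385f02))) 
(.lf (nat_lit 20548598) (dlOf (nat_lit 1) (nat_lit 0x10004000800089d5f02)))))))))) 
(.nd (nat_lit 17) (.nd (nat_lit 6) (.nd (nat_lit 5) (.nd (nat_lit 28) (.nd (nat_lit 22) 
(.nd (nat_lit 29) (.nd (nat_lit 10) (.nd (nat_lit 20) (.nd (nat_lit 26) 
(.lf (nat_lit 3221585942) (dlOf (nat_lit 3) (nat_lit 0x170228053d40800b81180000004019400201220008150502))) 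
(.lf (nat_lit 6509920278) (dlOf (nat_lit 2) (nat_lit 0x30130020005c0000008001400400a60018160482)))) 
(.lf (nat_lit 18186262) (dlOf (nat_lit 1) (nat_lit 0x20028910a81)))) (.nd (nat_lit 8) 
(.lf (nat_lit 45976598) (dlOf (nat_lit 1) (nat_lit 0x128008001c00200220009385f83))) 
(.lf (nat_lit 8750358) (dlOf (nat_lit 1) (nat_lit 0x20028513081))))) (.nd (nat_lit 27) 
(.nd (nat_lit 30) (.nd (nat_lit 32) 
(.lf (nat_lit 537231382) (dlOf (nat_lit 1) (nat_lit 0x80018060481))) 
(.lf (nat_lit 4832198678) (dlOf (nat_lit 1) (nat_lit 0x40018110001)))) 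
(.lf (nat_lit 5905940502) (dlOf (nat_lit 2) (nat_lit 0x30128020005c0000008001400400a60018160482)))) 
(.nd (nat_lit 19) 
(.lf (nat_lit 3959783446) (dlOf (nat_lit 3) (nat_lit 0x170228059700800b81180000004019400201220008150502))) 
(.lf (nat_lit 2819457046) (dlOf (nat_lit 1) (nat_lit 0x4c002000e0008290402)))))) (.nd (nat_lit 19) 
(.nd (nat_lit 10) (.nd (nat_lit 23) 
(.lf (nat_lit 24477718) (dlOf (nat_lit 8) (nat_lit 0x1577a0028b45000b48200045ea00062ef4001168a00168060002bd400065de8000ad14002ce0c001568a00018020006bd4000a5de8001ad140002e0c001177a00016020002bd400015de8000ad140002a0c003c00200020008ba0582))) 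
(.lf (nat_lit 16089110) (dlOf (nat_lit 1) (nat_lit 0x60008860401)))) 
(.lf (nat_lit 38110230) (dlOf (nat_lit 1) (nat_lit 0x400200560009132882)))) (.nd (nat_lit 7) 
(.lf (nat_lit 21856278) (dlOf (nat_lit 1) (nat_lit 0x40008a70481))) 
(.lf (nat_lit 40733078) (dlOf (nat_lit 1) (nat_lit 0x200291f4e81)))))) (.nd (nat_lit 19) 
(.nd (nat_lit 26) (.nd (nat_lit 7) 
(.lf (nat_lit 1342537750) (dlOf (nat_lit 3) (nat_lit 0x90462002320200480810009c018050a80))) 
(.lf (nat_lit 3490024598) (dlOf (nat_lit 1) (nat_lit 0x20018006201)))) (.nd (nat_lit 27) 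
(.lf (nat_lit 1409646614) (dlOf (nat_lit 1) (nat_lit 0x80018060481))) (.nd (nat_lit 29) 
(.lf (nat_lit 470122518) (dlOf (nat_lit 3) (nat_lit 0x904620024a0200480810009c018050a80))) 
(.lf (nat_lit 3154477078) (dlOf (nat_lit 1) (nat_lit 0x1000081a0081)))))) (.nd (nat_lit 7) 
(.nd (nat_lit 20) (.lf (nat_lit 3557654550) (dlOf (nat_lit 1) (nat_lit 0x4c002000e0008290402))) 
(.lf (nat_lit 1346207766) (dlOf (nat_lit 3) (nat_lit 0x10258003da04002c2cc00260c4001705500118068003a410000c00400060018e60082)))) 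
(.lf (nat_lit 472746390) (dlOf (nat_lit 1) (nat_lit 0x400200020008aa4e82)))))) (.nd (nat_lit 29) 
(.nd (nat_lit 21) (.nd (nat_lit 27) (.nd (nat_lit 10) (.nd (nat_lit 7) (.nd (nat_lit 19) 
(.lf (nat_lit 2416279606) (dlOf (nat_lit 1) (nat_lit 0x80080004002000200080d0b83))) 
(.lf (nat_lit 884790) (dlOf (nat_lit 2) (nat_lit 0x30000001bd0200060028030d01)))) (.nd (nat_lit 12) 
(.lf (nat_lit 21332150) (dlOf (nat_lit 2) (nat_lit 0x16858c0014110000801600071838a31700))) 
(.lf (nat_lit 8753334) (dlOf (nat_lit 1) (nat_lit 0x400400020018517e82))))) (.nd (nat_lit 8) 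
(.lf (nat_lit 38634550) (dlOf (nat_lit 1) (nat_lit 0x8008000400200080009132883))) (.nd (nat_lit 23) 
(.lf (nat_lit 362294) (dlOf (nat_lit 1) (nat_lit 0x400400180018003e02))) 
(.lf (nat_lit 8750902) (dlOf (nat_lit 1) (nat_lit 0x60028513e01)))))) (.nd (nat_lit 26) 
(.nd (nat_lit 7) (.nd (nat_lit 30) 
(.lf (nat_lit 2550497334) (dlOf (nat_lit 1) (nat_lit 0x80080004002000200080d0b83))) 
(.lf (nat_lit 1476755510) (dlOf (nat_lit 2) (nat_lit 0x80300003804000800400920008180882)))) 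
(.lf (nat_lit 5772247222) (dlOf (nat_lit 1) (nat_lit 0x6f8004001c0008090682)))) (.nd (nat_lit 8) 
(.lf (nat_lit 1543864374) (dlOf (nat_lit 1) (nat_lit 0x4002000200081a0702))) 
(.lf (nat_lit 2349177654) (dlOf (nat_lit 1) (nat_lit 0x180080004002000600080fbc83)))))) 
(.nd (nat_lit 9) (.nd (nat_lit 20) (.nd (nat_lit 8) 
(.lf (nat_lit 2457654) (dlOf (nat_lit 1) (nat_lit 0x180028160a81))) 
(.lf (nat_lit 23429430) (dlOf (nat_lit 1) (nat_lit 0x20028b80581)))) (.nd (nat_lit 10) 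
(.lf (nat_lit 16613430) (dlOf (nat_lit 1) (nat_lit 0xc00188c0881))) 
(.lf (nat_lit 45450294) (dlOf (nat_lit 1) (nat_lit 0x20019322881))))) (.nd (nat_lit 8) 
(.nd (nat_lit 23) (.lf (nat_lit 54364726) (dlOf (nat_lit 1) (nat_lit 0x20029655181))) 
(.lf (nat_lit 45976118) (dlOf (nat_lit 1) (nat_lit 0x20019385181)))) (.nd (nat_lit 10) 
(.lf (nat_lit 8225590) (dlOf (nat_lit 1) (nat_lit 0x400400020018512282))) 
(.lf (nat_lit 3493168950) (dlOf (nat_lit 2) (nat_lit 0x8c0600000d4080008008000c002000600080f3e03))))))) 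
(.nd (nat_lit 27) (.nd (nat_lit 8) (.nd (nat_lit 26) (.nd (nat_lit 7) 
(.lf (nat_lit 1610973238) (dlOf (nat_lit 2) (nat_lit 0x180740048e040018004000e00180b0482))) 
(.lf (nat_lit 1879937206) (dlOf (nat_lit 1) (nat_lit 0xb800283d7e81)))) (.nd (nat_lit 32) 
(.lf (nat_lit 604340278) (dlOf (nat_lit 2) (nat_lit 0x80300003a04000800400920008180882))) 
(.lf (nat_lit 4899307574) (dlOf (nat_lit 1) (nat_lit 0x8002000c0008100482))))) (.nd (nat_lit 10) 
(.lf (nat_lit 2754976566) (dlOf (nat_lit 1) (nat_lit 0x1a00280fbc81))) 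
(.lf (nat_lit 2752350006) (dlOf (nat_lit 1) (nat_lit 0x400400020008003e02))))) (.nd (nat_lit 28) 
(.nd (nat_lit 26) (.lf (nat_lit 671449142) (dlOf (nat_lit 1) (nat_lit 0x4002000200081a0702))) 
(.lf (nat_lit 738558006) (dlOf (nat_lit 2) (nat_lit 0x180740048e040018004000e00180b0482)))) 
(.nd (nat_lit 7) 
(.lf (nat_lit 3154477110) (dlOf (nat_lit 6) (nat_lit 0x9405f000102b806f80dc02e006c00e801900a100c004500280278012001c510003e037000de81014d02b00a280d404c005602ae017000aa04017a0158005440802300000012804000400400a400181a0482))) 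
(.lf (nat_lit 2080735414) (dlOf (nat_lit 1) (nat_lit 0xc004000200080c1702)))))))) (.nd (nat_lit 8) 
(.nd (nat_lit 28) (.nd (nat_lit 7) (.nd (nat_lit 21) (.nd (nat_lit 19) 
(.lf (nat_lit 29720662) (dlOf (nat_lit 1) (nat_lit 0x400200020008e30302))) (.nd (nat_lit 25) 
(.lf (nat_lit 9273430) (dlOf (nat_lit 2) (nat_lit 0x45287000048080010008001400200040008530703))) 
(.lf (nat_lit 42827862) (dlOf (nat_lit 1) (nat_lit 0x3c00400180009280802))))) (.nd (nat_lit 20) 
(.lf (nat_lit 53313622) (dlOf (nat_lit 1) (nat_lit 0x40019590701))) 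
(.lf (nat_lit 8224854) (dlOf (nat_lit 1) (nat_lit 0x20018510001))))) (.nd (nat_lit 19) 
(.nd (nat_lit 5) (.nd (nat_lit 29) 
(.lf (nat_lit 1208320214) (dlOf (nat_lit 1) (nat_lit 0x180080044002001000080c1c03))) 
(.lf (nat_lit 2818932950) (dlOf (nat_lit 1) (nat_lit 0x80018130501)))) 
(.lf (nat_lit 8755446) (dlOf (nat_lit 1) (nat_lit 0x80040004001851a982)))) (.nd (nat_lit 23) 
(.lf (nat_lit 54362326) (dlOf (nat_lit 1) (nat_lit 0x1c0029650981))) 
(.lf (nat_lit 45973718) (dlOf (nat_lit 2) (nat_lit 0x4ac420002b0200260029380981)))))) 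
(.nd (nat_lit 27) (.nd (nat_lit 32) (.nd (nat_lit 5) 
(.lf (nat_lit 1346207830) (dlOf (nat_lit 2) (nat_lit 0x30230006600000013028e60800))) 
(.nd (nat_lit 9) (.lf (nat_lit 1343062262) (dlOf (nat_lit 1) (nat_lit 0x400200020008150702))) 
(.lf (nat_lit 3493168886) (dlOf (nat_lit 2) (nat_lit 0xe08b000200180f3b80))))) (.nd (nat_lit 26) 
(.nd (nat_lit 30) 
(.lf (nat_lit 4563763286) (dlOf (nat_lit 3) (nat_lit 0x25406a01ec02900a50138000c81803f80d400062040008002006a00080d0602))) 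
(.lf (nat_lit 5637505110) (dlOf (nat_lit 1) (nat_lit 0x400400020008100602)))) 
(.lf (nat_lit 6241484886) (dlOf (nat_lit 1) (nat_lit 0x400400020008100602))))) (.nd (nat_lit 29) 
(.nd (nat_lit 7) 
(.lf (nat_lit 4697981014) (dlOf (nat_lit 3) (nat_lit 0x25406a01ec02900a50138000cc1803f80d400064040008002006a00080d0602))) 
(.lf (nat_lit 5772248278) (dlOf (nat_lit 2) (nat_lit 0x901c8000c4080010008001400200080008092d83)))) 
(.nd (nat_lit 26) (.lf (nat_lit 5234851926) (dlOf (nat_lit 1) (nat_lit 0x1e0028100601))) 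
(.lf (nat_lit 3154477142) (dlOf (nat_lit 3) (nat_lit 0x5300dc01b006c0074019006c00c0000b42004c8160016c0ae0272037010001b0066006403e8030013200a009b0048000ac4001080080164002000600081a0783))))))) 
(.nd (nat_lit 20) (.nd (nat_lit 26) (.nd (nat_lit 5) (.nd (nat_lit 22) 
(.lf (nat_lit 8750038) (dlOf (nat_lit 1) (nat_lit 0x60028512881))) 
(.lf (nat_lit 38110166) (dlOf (nat_lit 1) (nat_lit 0x200009132881)))) (.nd (nat_lit 7) 
(.lf (nat_lit 36538742) (dlOf (nat_lit 1) (nat_lit 0x100019074e81))) 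
(.lf (nat_lit 8755702) (dlOf (nat_lit 1) (nat_lit 0x2002851b281))))) (.nd (nat_lit 28) 
(.nd (nat_lit 10) (.lf (nat_lit 2751824854) (dlOf (nat_lit 1) (nat_lit 0x20018002881))) 
(.lf (nat_lit 2751825878) (dlOf (nat_lit 1) (nat_lit 0x400400060008004502)))) (.nd (nat_lit 7) 
(.lf (nat_lit 6376227158) (dlOf (nat_lit 1) (nat_lit 0x8008000400200020008090d83))) 
(.lf (nat_lit 4096099286) (dlOf (nat_lit 1) (nat_lit 0x200280e2881)))))) (.nd (nat_lit 19) 
(.nd (nat_lit 25) (.nd (nat_lit 21) (.nd (nat_lit 27) 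
(.lf (nat_lit 1880458198) (dlOf (nat_lit 1) (nat_lit 0x20008982881))) 
(.lf (nat_lit 5772772310) (dlOf (nat_lit 1) (nat_lit 0x18008000400200020008092883)))) 
(.lf (nat_lit 3493168086) (dlOf (nat_lit 2) (nat_lit 0x100c00090f8180f2880)))) (.nd (nat_lit 5) 
(.lf (nat_lit 39158742) (dlOf (nat_lit 1) (nat_lit 0x8008000400200020009192883))) 
(.lf (nat_lit 60132342) (dlOf (nat_lit 1) (nat_lit 0x8008000400200020009845f03))))) 
(.nd (nat_lit 11) (.nd (nat_lit 21) (.nd (nat_lit 22) 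
(.lf (nat_lit 4095574998) (dlOf (nat_lit 1) (nat_lit 0x8004000200080e2882))) 
(.lf (nat_lit 56460246) (dlOf (nat_lit 1) (nat_lit 0x8008000400200020009732883)))) 
(.lf (nat_lit 41780182) (dlOf (nat_lit 1) (nat_lit 0x140029242881)))) (.nd (nat_lit 23) 
(.lf (nat_lit 54365142) (dlOf (nat_lit 1) (nat_lit 0x800400020019655e02))) 
(.lf (nat_lit 45976534) (dlOf (nat_lit 1) (nat_lit 0x20019385e01))))))))) (.nd (nat_lit 21) 
(.nd (nat_lit 6) (.nd (nat_lit 5) (.nd (nat_lit 30) (.nd (nat_lit 19) (.nd (nat_lit 22) 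
(.nd (nat_lit 25) (.lf (nat_lit 6510051350) (dlOf (nat_lit 1) (nat_lit 0x400200480008190a82))) 
(.lf (nat_lit 34045974) (dlOf (nat_lit 1) (nat_lit 0x400400020008fa0582)))) 
(.lf (nat_lit 4685846) (dlOf (nat_lit 1) (nat_lit 0xa00182a0501)))) (.nd (nat_lit 23) 
(.nd (nat_lit 22) 
(.lf (nat_lit 1015830) (dlOf (nat_lit 2) (nat_lit 0x2507000127d4003f008000c00400020018050a82))) 
(.lf (nat_lit 21987350) (dlOf (nat_lit 1) (nat_lit 0xf4004000c0008a80882)))) (.nd (nat_lit 20) 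
(.lf (nat_lit 13598742) (dlOf (nat_lit 4) (nat_lit 0x178c401bcb020069c620002dea806f101000c747c00c38c4003dbd5001b000006d3820005000800d400200200008730883))) 
(.lf (nat_lit 14647318) (dlOf (nat_lit 1) (nat_lit 0x60008770081)))))) (.nd (nat_lit 29) 
(.nd (nat_lit 7) (.nd (nat_lit 8) 
(.lf (nat_lit 1342668822) (dlOf (nat_lit 1) (nat_lit 0x200180c0001))) 
(.lf (nat_lit 1344241942) (dlOf (nat_lit 1) (nat_lit 0x20018520701)))) 
(.lf (nat_lit 3221717142) (dlOf (nat_lit 1) (nat_lit 0x360018170181)))) (.nd (nat_lit 7) 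
(.nd (nat_lit 32) 
(.lf (nat_lit 1611104278) (dlOf (nat_lit 5) (nat_lit 0x140aa000340200020550001801000902a8000100800280dc00000040080002004800080e0302))) 
(.lf (nat_lit 5906071574) (dlOf (nat_lit 1) (nat_lit 0x400200480008190a82)))) 
(.lf (nat_lit 3959914646) (dlOf (nat_lit 1) (nat_lit 0x360018170181)))))) (.nd (nat_lit 19) 
(.nd (nat_lit 20) (.nd (nat_lit 22) (.nd (nat_lit 26) 
(.lf (nat_lit 1611104310) (dlOf (nat_lit 5) (nat_lit 0x2c02a001301480038034014f60c0040082000201f0053d02001702080110100008405400a6906003004100120200029a01003580080014002011400080e1003))) 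
(.lf (nat_lit 738689078) (dlOf (nat_lit 5) (nat_lit 0x2c02a001301480038034009cc0c0040082000201f00272820017020801101000084054004d4060030041001202000134c1003580080014002011400080e1003)))) 
(.lf (nat_lit 21463094) (dlOf (nat_lit 1) (nat_lit 0x18004002a0008a40482)))) (.nd (nat_lit 23) 
(.lf (nat_lit 4095180854) (dlOf (nat_lit 2) (nat_lit 0x240af00090c080188008001000200180008070483))) 
(.lf (nat_lit 9928758) (dlOf (nat_lit 6) (nat_lit 0x181d600070e500038714002c2f000c1308001e1d600100e980018728002c38a0014178005950500010e50006071400302f000b2906000c1d6000b0e50007871400382f000b2808000c1d600090e50005071400302f000b2708001a0008591001))))) 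
(.nd (nat_lit 9) (.nd (nat_lit 20) 
(.lf (nat_lit 21987382) (dlOf (nat_lit 1) (nat_lit 0x20018a80d01))) 
(.lf (nat_lit 14647350) (dlOf (nat_lit 1) (nat_lit 0x400400020008770482)))) (.nd (nat_lit 26) 
(.lf (nat_lit 3490677302) (dlOf (nat_lit 3) (nat_lit 0x82a80002402008615400011018018100))) 
(.lf (nat_lit 2752479798) (dlOf (nat_lit 3) (nat_lit 0x240ab8028b40800085640133a04008800400180008018b02))))))) 
(.nd (nat_lit 7) (.nd (nat_lit 8) (.nd (nat_lit 19) (.nd (nat_lit 20) (.nd (nat_lit 27) 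
(.lf (nat_lit 4362567766) (dlOf (nat_lit 1) (nat_lit 0x100028090001))) 
(.lf (nat_lit 201818198) (dlOf (nat_lit 1) (nat_lit 0x8c00400080018090002)))) 
(.lf (nat_lit 4095180886) (dlOf (nat_lit 2) (nat_lit 0x2800000000040008002000a0008070702)))) 
(.lf (nat_lit 68124758) (dlOf (nat_lit 1) (nat_lit 0x400400020008400782)))) (.nd (nat_lit 26) 
(.nd (nat_lit 5) (.nd (nat_lit 19) 
(.lf (nat_lit 805798230) (dlOf (nat_lit 1) (nat_lit 0x60004000200081a0682))) 
(.lf (nat_lit 3490677078) (dlOf (nat_lit 6) (nat_lit 0x270f40001900801907a0000c60400903d0000e1380002202000a0f400010c0801807a00008404004400400020018014d02)))) 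
(.lf (nat_lit 3490155894) (dlOf (nat_lit 1) (nat_lit 0x4a0018006b81)))) (.nd (nat_lit 27) 
(.lf (nat_lit 1678213462) (dlOf (nat_lit 1) (nat_lit 0x60004000200081a0682))) 
(.lf (nat_lit 2886173014) (dlOf (nat_lit 1) (nat_lit 0x8008000400200020008188b03)))))) 
(.nd (nat_lit 8) (.nd (nat_lit 5) (.nd (nat_lit 10) (.nd (nat_lit 27) 
(.lf (nat_lit 2416410838) (dlOf (nat_lit 2) (nat_lit 0x9800f000e68181b0480))) 
(.lf (nat_lit 2550628566) (dlOf (nat_lit 2) (nat_lit 0x9800f000e68181b0480)))) 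
(.lf (nat_lit 3490155734) (dlOf (nat_lit 1) (nat_lit 0x420018006481)))) (.nd (nat_lit 25) 
(.lf (nat_lit 471302390) (dlOf (nat_lit 3) (nat_lit 0x40998003200800205680015a04000c002000200082e0602))) 
(.lf (nat_lit 35094774) (dlOf (nat_lit 2) (nat_lit 0x125fe0005b00800d8008010c002000e0008fd2483))))) 
(.nd (nat_lit 20) (.nd (nat_lit 5) (.nd (nat_lit 9) 
(.lf (nat_lit 872907222) (dlOf (nat_lit 5) (nat_lit 0x40860022000001178200010228001810c00500000022a060006000000ef01000a0000007700803800080020002001800080f7b03))) 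
(.lf (nat_lit 59212758) (dlOf (nat_lit 1) (nat_lit 0x200097e2881)))) 
(.lf (nat_lit 2751955958) (dlOf (nat_lit 1) (nat_lit 0x20018002881)))) (.nd (nat_lit 19) 
(.lf (nat_lit 1880589270) (dlOf (nat_lit 1) (nat_lit 0x800200020008aa2882))) 
(.lf (nat_lit 56591318) (dlOf (nat_lit 1) (nat_lit 0x98008004c00200160009732883)))))))) 
(.nd (nat_lit 19) (.nd (nat_lit 20) (.nd (nat_lit 5) (.nd (nat_lit 28) (.nd (nat_lit 22) 
(.nd (nat_lit 23) 
(.lf (nat_lit 2754052118) (dlOf (nat_lit 4) (nat_lit 0x444220171402000615200af10100151090051300800800080054002000c00080b0903))) 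
(.lf (nat_lit 27754518) (dlOf (nat_lit 1) (nat_lit 0x8008000400200020008d20403)))) 
(.lf (nat_lit 6782998) (dlOf (nat_lit 1) (nat_lit 0x6c0028460501)))) (.nd (nat_lit 6) 
(.lf (nat_lit 3492249622) (dlOf (nat_lit 4) (nat_lit 0xc2b8017400200221fc00ad68100150fe8051a40800800080054002000c00080b0903))) 
(.nd (nat_lit 29) 
(.lf (nat_lit 1344766038) (dlOf (nat_lit 1) (nat_lit 0x140008009c002006c0008980003))) 
(.lf (nat_lit 1881636950) (dlOf (nat_lit 1) (nat_lit 0x20028f80701)))))) (.nd (nat_lit 23) 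
(.nd (nat_lit 24) (.nd (nat_lit 26) 
(.lf (nat_lit 2588726) (dlOf (nat_lit 1) (nat_lit 0x1000200020008170b02))) 
(.lf (nat_lit 2754052150) (dlOf (nat_lit 2) (nat_lit 0x30a900001008021000800dc002000800080b1303)))) 
(.lf (nat_lit 19365942) (dlOf (nat_lit 1) (nat_lit 0xb8008000400200140008990c03)))) 
(.lf (nat_lit 44531766) (dlOf (nat_lit 1) (nat_lit 0x5c0029320001))))) (.nd (nat_lit 28) 
(.nd (nat_lit 6) (.nd (nat_lit 22) (.nd (nat_lit 23) (.nd (nat_lit 26) 
(.lf (nat_lit 3637270) (dlOf (nat_lit 1) (nat_lit 0x10008000800200040008210883))) 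
(.lf (nat_lit 2755100694) (dlOf (nat_lit 2) (nat_lit 0x6a00e8012800800600080048002005e0008110483)))) 
(.lf (nat_lit 45580310) (dlOf (nat_lit 1) (nat_lit 0x40019340081)))) 
(.lf (nat_lit 24608790) (dlOf (nat_lit 9) (nat_lit 0xbaef4007574a0036b4500040000005a4200082ef4006974a0030b45000b40300195ea000caef4008174a0042b45000b38400085de80072e94000d68a0016606000cba500025a2800060100032f50003177a0032ba500185a280005c2000caf50004177a0042ba5001b5a2800058200062f50004977a003eba5001e5a28000542000100080068002000a0008ba0583)))) 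
(.lf (nat_lit 3637334) (dlOf (nat_lit 1) (nat_lit 0x400200020008211102)))) (.nd (nat_lit 5) 
(.lf (nat_lit 3493298198) (dlOf (nat_lit 2) (nat_lit 0x6a00e8028d40800600080048002005e0008110483))) 
(.lf (nat_lit 1345814966) (dlOf (nat_lit 1) (nat_lit 0x40018e06e81)))))) (.nd (nat_lit 5) 
(.nd (nat_lit 6) (.nd (nat_lit 23) (.nd (nat_lit 26) 
(.lf (nat_lit 3493822486) (dlOf (nat_lit 3) (nat_lit 0x402a01a450200d801500d218181b0000))) 
(.lf (nat_lit 473923606) (dlOf (nat_lit 2) (nat_lit 0x615f000ff818fc0080)))) 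
(.lf (nat_lit 46104598) (dlOf (nat_lit 1) (nat_lit 0x100029380001)))) (.nd (nat_lit 9) 
(.nd (nat_lit 22) (.nd (nat_lit 24) 
(.lf (nat_lit 473923670) (dlOf (nat_lit 2) (nat_lit 0x3208d00012818fc0800))) 
(.lf (nat_lit 20938838) (dlOf (nat_lit 1) (nat_lit 0x4002003200089f0702)))) 
(.lf (nat_lit 16744534) (dlOf (nat_lit 1) (nat_lit 0x4004000200088e0302)))) (.nd (nat_lit 7) 
(.lf (nat_lit 19890774) (dlOf (nat_lit 1) (nat_lit 0x4002000200089d1682))) (.nd (nat_lit 10) 
(.lf (nat_lit 62882774) (dlOf (nat_lit 1) (nat_lit 0xe00299a2881))) 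
(.lf (nat_lit 8357846) (dlOf (nat_lit 1) (nat_lit 0x20018514501))))))) (.nd (nat_lit 6) 
(.nd (nat_lit 20) (.nd (nat_lit 7) 
(.lf (nat_lit 28278838) (dlOf (nat_lit 2) (nat_lit 0x2a9880003804001800400120018d80882))) 
(.lf (nat_lit 19893174) (dlOf (nat_lit 1) (nat_lit 0x21c00189d5d01)))) (.nd (nat_lit 10) 
(.lf (nat_lit 473923638) (dlOf (nat_lit 2) (nat_lit 0x7e0960000b018fc0480))) 
(.lf (nat_lit 1346339894) (dlOf (nat_lit 1) (nat_lit 0x1000200040008f02882))))) (.nd (nat_lit 9) 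
(.nd (nat_lit 20) (.lf (nat_lit 45058422) (dlOf (nat_lit 1) (nat_lit 0x2540019324e81))) 
(.lf (nat_lit 1346341238) (dlOf (nat_lit 1) (nat_lit 0x700080028002009e0008f04e83)))) 
(.nd (nat_lit 7) (.lf (nat_lit 8357750) (dlOf (nat_lit 1) (nat_lit 0x20028514081))) 
(.lf (nat_lit 3492774902) (dlOf (nat_lit 1) (nat_lit 0x200180f2881))))))))))))

end

end Pool.Agent.Lib.MP_5854e1_co.Cz

namespace Pool.Agent.Lib.MP_5854e1_co.Cz

noncomputable section

noncomputable def tz202 : DT := (.nd (nat_lit 17) (.nd (nat_lit 18) (.nd (nat_lit 6) 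
(.nd (nat_lit 5) (.nd (nat_lit 15) (.nd (nat_lit 27) (.nd (nat_lit 19) (.nd (nat_lit 9) 
(.nd (nat_lit 10) (.nd (nat_lit 21) 
(.lf (nat_lit 3493863446) (dlOf (nat_lit 2) (nat_lit 0x15a0a700d218181b0000))) 
(.lf (nat_lit 2753568790) (dlOf (nat_lit 1) (nat_lit 0x60028090001)))) (.nd (nat_lit 7) 
(.nd (nat_lit 11) (.lf (nat_lit 2751472662) (dlOf (nat_lit 1) (nat_lit 0x400200020008002882))) 
(.lf (nat_lit 19934230) (dlOf (nat_lit 2) (nat_lit 0xaa4c00054e60002960000000389d5f80)))) 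
(.lf (nat_lit 1342188694) (dlOf (nat_lit 1) (nat_lit 0x40018006201))))) (.nd (nat_lit 7) 
(.nd (nat_lit 8) 
(.lf (nat_lit 2147493398) (dlOf (nat_lit 3) (nat_lit 0x300000001e040004000000000200140008003701))) 
(.lf (nat_lit 2952805142) (dlOf (nat_lit 1) (nat_lit 0x40020002000800bb02)))) (.nd (nat_lit 8) 
(.nd (nat_lit 20) (.lf (nat_lit 1342190230) (dlOf (nat_lit 1) (nat_lit 0x20018008c81))) 
(.lf (nat_lit 19935894) (dlOf (nat_lit 1) (nat_lit 0x80080004002000200089d8c83)))) 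
(.lf (nat_lit 2751473558) (dlOf (nat_lit 1) (nat_lit 0xa80080004002000e0008004203)))))) 
(.nd (nat_lit 21) (.nd (nat_lit 20) (.nd (nat_lit 9) (.nd (nat_lit 22) 
(.lf (nat_lit 805838870) (dlOf (nat_lit 5) (nat_lit 0x9013c00480700020404001e040000d081001601f0002c80801081080028044003600e00090020001cc200188008007000200a000081c0583))) 
(.lf (nat_lit 13115414) (dlOf (nat_lit 1) (nat_lit 0x400200020008700902)))) 
(.lf (nat_lit 50864662) (dlOf (nat_lit 5) (nat_lit 0xb7860003bc2000f8820003de180016f08002e80800237760017bb900057820008ddd8005eee400146080090004009000194d8702)))) 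
(.nd (nat_lit 7) (.lf (nat_lit 56108054) (dlOf (nat_lit 1) (nat_lit 0x20019732881))) 
(.lf (nat_lit 68692374) (dlOf (nat_lit 1) (nat_lit 0x4004000200086c4e82))))) (.nd (nat_lit 22) 
(.nd (nat_lit 20) (.nd (nat_lit 23) 
(.lf (nat_lit 2629654) (dlOf (nat_lit 2) (nat_lit 0x60000001a818180300))) 
(.lf (nat_lit 27795478) (dlOf (nat_lit 2) (nat_lit 0x953e000170080018008002000200020008d20403)))) 
(.lf (nat_lit 45621270) (dlOf (nat_lit 1) (nat_lit 0x400200040009340082)))) (.nd (nat_lit 9) 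
(.lf (nat_lit 6823958) (dlOf (nat_lit 1) (nat_lit 0x120008460501))) 
(.lf (nat_lit 57158166) (dlOf (nat_lit 1) (nat_lit 0x20029795081))))))) (.nd (nat_lit 26) 
(.nd (nat_lit 7) (.nd (nat_lit 8) (.nd (nat_lit 10) 
(.lf (nat_lit 3624411158) (dlOf (nat_lit 1) (nat_lit 0x880080034002002c0008190483))) 
(.lf (nat_lit 5771373590) (dlOf (nat_lit 1) (nat_lit 0x20008005f81)))) (.nd (nat_lit 29) 
(.lf (nat_lit 5502936342) (dlOf (nat_lit 1) (nat_lit 0x400400020008003082))) 
(.lf (nat_lit 4966065430) (dlOf (nat_lit 1) (nat_lit 0x400400020008003082))))) (.nd (nat_lit 9) 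
(.nd (nat_lit 8) 
(.lf (nat_lit 3892846742) (dlOf (nat_lit 1) (nat_lit 0x580080028002002a0008280483))) 
(.lf (nat_lit 2818582934) (dlOf (nat_lit 1) (nat_lit 0x98008007400200200008004e83)))) 
(.nd (nat_lit 11) (.lf (nat_lit 1476407958) (dlOf (nat_lit 1) (nat_lit 0x400200020008008c82))) 
(.lf (nat_lit 1476410006) (dlOf (nat_lit 1) (nat_lit 0x1c0020010000800b682)))))) (.nd (nat_lit 30) 
(.nd (nat_lit 9) (.nd (nat_lit 21) (.nd (nat_lit 28) 
(.lf (nat_lit 2886213654) (dlOf (nat_lit 1) (nat_lit 0x880080034002002c0008190483))) 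
(.lf (nat_lit 1007165462) (dlOf (nat_lit 1) (nat_lit 0x8008000400200020008200483)))) 
(.lf (nat_lit 472391702) (dlOf (nat_lit 1) (nat_lit 0x20018980001)))) (.nd (nat_lit 8) 
(.lf (nat_lit 1006648854) (dlOf (nat_lit 1) (nat_lit 0x10002800ce81))) 
(.lf (nat_lit 469774102) (dlOf (nat_lit 1) (nat_lit 0x400400020008007482))))) (.nd (nat_lit 7) 
(.nd (nat_lit 8) (.nd (nat_lit 10) 
(.lf (nat_lit 3959955478) (dlOf (nat_lit 4) (nat_lit 0x31021000a010000f9c080028084007cc02001e042003e5018170000))) 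
(.lf (nat_lit 6375351318) (dlOf (nat_lit 2) (nat_lit 0xa014001fbc080178008007000200240008002883)))) 
(.lf (nat_lit 6106916118) (dlOf (nat_lit 1) (nat_lit 0x20028003081)))) (.nd (nat_lit 8) 
(.lf (nat_lit 3691000470) (dlOf (nat_lit 1) (nat_lit 0x920008008c81))) 
(.lf (nat_lit 2080385430) (dlOf (nat_lit 1) (nat_lit 0x400400020018004e82)))))))) (.nd (nat_lit 26) 
(.nd (nat_lit 19) (.nd (nat_lit 31) (.nd (nat_lit 9) (.nd (nat_lit 7) (.nd (nat_lit 20) 
(.lf (nat_lit 16818198) (dlOf (nat_lit 1) (nat_lit 0x4002000200088e0002))) 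
(.lf (nat_lit 43032598) (dlOf (nat_lit 1) (nat_lit 0x1800292a0001)))) 
(.lf (nat_lit 37792150) (dlOf (nat_lit 1) (nat_lit 0x200190d4e81)))) (.nd (nat_lit 10) 
(.lf (nat_lit 40935958) (dlOf (nat_lit 1) (nat_lit 0x400400020009208702))) 
(.lf (nat_lit 4563445270) (dlOf (nat_lit 3) (nat_lit 0xe04200060000000601000280000000004002400400040008003702))))) 
(.nd (nat_lit 7) (.nd (nat_lit 8) (.nd (nat_lit 20) 
(.lf (nat_lit 3493896214) (dlOf (nat_lit 1) (nat_lit 0x200181b0001))) 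
(.lf (nat_lit 3490750486) (dlOf (nat_lit 1) (nat_lit 0x8008000400200020008020483)))) 
(.lf (nat_lit 2952838422) (dlOf (nat_lit 1) (nat_lit 0x40008001c002000a000800c603)))) 
(.nd (nat_lit 8) 
(.lf (nat_lit 3355489430) (dlOf (nat_lit 5) (nat_lit 0xc800a005e0040011000001a081800a808400af20400a8042000801200370018013a41800c000c009b004000400400020018009502))) 
(.lf (nat_lit 6442494358) (dlOf (nat_lit 1) (nat_lit 0x20008004e81)))))) (.nd (nat_lit 21) 
(.nd (nat_lit 27) (.nd (nat_lit 28) 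
(.lf (nat_lit 3221790742) (dlOf (nat_lit 2) (nat_lit 0x1c08c015ad0200040018190901))) 
(.lf (nat_lit 805871638) (dlOf (nat_lit 2) (nat_lit 0x2b402d000088181d0300)))) (.nd (nat_lit 7) 
(.lf (nat_lit 134782998) (dlOf (nat_lit 3) (nat_lit 0x381040323a0400240260188202005c00180b0901))) 
(.lf (nat_lit 5771930006) (dlOf (nat_lit 1) (nat_lit 0x800200060008004e82))))) (.nd (nat_lit 23) 
(.lf (nat_lit 2662422) (dlOf (nat_lit 2) (nat_lit 0x116020006a1100aeb028190900))) (.nd (nat_lit 24) 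
(.lf (nat_lit 11051030) (dlOf (nat_lit 3) (nat_lit 0x270a40024902001385200047018660480))) 
(.lf (nat_lit 27828246) (dlOf (nat_lit 1) (nat_lit 0x40018d30481))))))) (.nd (nat_lit 27) 
(.nd (nat_lit 8) (.nd (nat_lit 9) (.nd (nat_lit 19) 
(.lf (nat_lit 2752552982) (dlOf (nat_lit 1) (nat_lit 0x8008000400200020008020483))) 
(.lf (nat_lit 4362641430) (dlOf (nat_lit 1) (nat_lit 0x700080018002001c00080c0303)))) 
(.lf (nat_lit 335586838) (dlOf (nat_lit 5) (nat_lit 0x200f0001c81000300980020048007c0220000e06000601100001010003009800180480024022000000600180008003701)))) 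
(.nd (nat_lit 7) (.lf (nat_lit 604028182) (dlOf (nat_lit 1) (nat_lit 0x80080090002003e000800c603))) 
(.lf (nat_lit 2753601942) (dlOf (nat_lit 1) (nat_lit 0xb280080004002045a0008090783))))) 
(.nd (nat_lit 19) (.nd (nat_lit 7) (.nd (nat_lit 9) 
(.lf (nat_lit 1543544854) (dlOf (nat_lit 3) (nat_lit 0x21101601068064083800c00b600302150000069142810280b00818032040c006004c0018105800003486140008002000a00080b0002))) 
(.lf (nat_lit 738240022) (dlOf (nat_lit 2) (nat_lit 0xe0000001e018003700)))) (.nd (nat_lit 8) 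
(.lf (nat_lit 6376431766) (dlOf (nat_lit 1) (nat_lit 0x960028090481))) 
(.lf (nat_lit 5033208726) (dlOf (nat_lit 1) (nat_lit 0x2a0028005c81))))) (.nd (nat_lit 28) 
(.nd (nat_lit 29) 
(.lf (nat_lit 201891862) (dlOf (nat_lit 3) (nat_lit 0x38104038d404002402601bec02005c00180b0901))) 
(.lf (nat_lit 3959988246) (dlOf (nat_lit 2) (nat_lit 0x1c08c017140200040018190901)))) 
(.lf (nat_lit 1007198230) (dlOf (nat_lit 1) (nat_lit 0x20028240481)))))))) (.nd (nat_lit 26) 
(.nd (nat_lit 28) (.nd (nat_lit 12) (.nd (nat_lit 9) (.nd (nat_lit 7) (.nd (nat_lit 21) 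
(.lf (nat_lit 25206838) (dlOf (nat_lit 1) (nat_lit 0x100002001a0008bf0b82))) 
(.lf (nat_lit 44081206) (dlOf (nat_lit 1) (nat_lit 0x100080010002000600092c0483)))) 
(.lf (nat_lit 671129782) (dlOf (nat_lit 2) (nat_lit 0x90030000b80800a80080050002001a00080b0383)))) 
(.nd (nat_lit 8) (.nd (nat_lit 10) 
(.lf (nat_lit 51391030) (dlOf (nat_lit 1) (nat_lit 0x180080048002000e0009515183))) 
(.lf (nat_lit 4295011894) (dlOf (nat_lit 1) (nat_lit 0x8008000400200020008007183)))) 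
(.nd (nat_lit 7) (.lf (nat_lit 10038) (dlOf (nat_lit 1) (nat_lit 0x20018003e01))) 
(.lf (nat_lit 5368720310) (dlOf (nat_lit 1) (nat_lit 0x8008000400200020008005d03)))))) 
(.nd (nat_lit 8) (.nd (nat_lit 11) (.nd (nat_lit 7) 
(.lf (nat_lit 19968566) (dlOf (nat_lit 1) (nat_lit 0x4004000200189d8982))) 
(.lf (nat_lit 20459702) (dlOf (nat_lit 1) (nat_lit 0x200289d7e81)))) (.nd (nat_lit 15) 
(.lf (nat_lit 14390) (dlOf (nat_lit 1) (nat_lit 0x800800040020002000800a603))) 
(.lf (nat_lit 47158) (dlOf (nat_lit 1) (nat_lit 0x4002800a601))))) (.nd (nat_lit 9) 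
(.nd (nat_lit 15) (.lf (nat_lit 8402230) (dlOf (nat_lit 1) (nat_lit 0x400200020008519902))) 
(.lf (nat_lit 8434998) (dlOf (nat_lit 1) (nat_lit 0x400200020008519902)))) 
(.lf (nat_lit 671103798) (dlOf (nat_lit 2) (nat_lit 0x980a0014220400080020004000800bc82)))))) 
(.nd (nat_lit 19) (.nd (nat_lit 9) (.nd (nat_lit 10) (.nd (nat_lit 15) 
(.lf (nat_lit 3493863478) (dlOf (nat_lit 1) (nat_lit 0x80080004002000200081b0003))) 
(.lf (nat_lit 3490750518) (dlOf (nat_lit 1) (nat_lit 0x20008020681)))) (.nd (nat_lit 11) 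
(.lf (nat_lit 1342190646) (dlOf (nat_lit 2) (nat_lit 0x302380093804004800400160008009202))) 
(.lf (nat_lit 2550148150) (dlOf (nat_lit 1) (nat_lit 0x80028006081))))) (.nd (nat_lit 8) 
(.lf (nat_lit 1879092790) (dlOf (nat_lit 1) (nat_lit 0x60018007181))) (.nd (nat_lit 12) 
(.lf (nat_lit 2415929142) (dlOf (nat_lit 1) (nat_lit 0xc00400020008003e02))) 
(.lf (nat_lit 1342224182) (dlOf (nat_lit 2) (nat_lit 0x411c00020020002001800a101)))))) 
(.nd (nat_lit 31) (.nd (nat_lit 8) (.nd (nat_lit 9) 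
(.lf (nat_lit 805838902) (dlOf (nat_lit 2) (nat_lit 0x30168000d8080088008003c002000e00081c0b03))) 
(.lf (nat_lit 1342710326) (dlOf (nat_lit 2) (nat_lit 0x31188000540801c8008018000200d400080c0f83)))) 
(.nd (nat_lit 7) 
(.lf (nat_lit 1342710070) (dlOf (nat_lit 4) (nat_lit 0x1445e0003b02015e247000190100031178000000800780080044002001e00080c0583))) 
(.lf (nat_lit 1342710198) (dlOf (nat_lit 4) (nat_lit 0x85500035c0400cc2a8001ac0200c6247000ac8180c0800))))) 
(.nd (nat_lit 8) (.nd (nat_lit 15) (.nd (nat_lit 20) 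
(.lf (nat_lit 4027064374) (dlOf (nat_lit 2) (nat_lit 0x801e000700d8000c41000100080008002000c00081d0b03))) 
(.lf (nat_lit 3493339190) (dlOf (nat_lit 1) (nat_lit 0x400200200008120d02)))) 
(.lf (nat_lit 3494420534) (dlOf (nat_lit 1) (nat_lit 0x2400400040008220b82)))) 
(.lf (nat_lit 3490200374) (dlOf (nat_lit 1) (nat_lit 0x2000800bc81))))))) (.nd (nat_lit 27) 
(.nd (nat_lit 15) (.nd (nat_lit 19) (.nd (nat_lit 8) (.nd (nat_lit 7) 
(.lf (nat_lit 2751477814) (dlOf (nat_lit 1) (nat_lit 0x4004001e001800a602))) 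
(.lf (nat_lit 67121334) (dlOf (nat_lit 1) (nat_lit 0x400400020008007e82)))) (.nd (nat_lit 9) 
(.lf (nat_lit 4362086710) (dlOf (nat_lit 1) (nat_lit 0x300018004c01))) 
(.lf (nat_lit 2751473462) (dlOf (nat_lit 1) (nat_lit 0x400400020008003e02))))) (.nd (nat_lit 21) 
(.nd (nat_lit 29) 
(.lf (nat_lit 3288866870) (dlOf (nat_lit 2) (nat_lit 0x801e000700d8000c41000100080008002000c00081d0b03))) 
(.lf (nat_lit 1678254134) (dlOf (nat_lit 2) (nat_lit 0x30168000d8080088008003c002000e00081c0b03)))) 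
(.nd (nat_lit 20) (.lf (nat_lit 2754093110) (dlOf (nat_lit 1) (nat_lit 0x200180c1181))) 
(.lf (nat_lit 2755141686) (dlOf (nat_lit 1) (nat_lit 0x400200200008120d02)))))) (.nd (nat_lit 9) 
(.nd (nat_lit 7) (.nd (nat_lit 19) 
(.lf (nat_lit 2752553014) (dlOf (nat_lit 1) (nat_lit 0x20008020681))) 
(.lf (nat_lit 2756223030) (dlOf (nat_lit 1) (nat_lit 0x2400400040008220b82)))) 
(.lf (nat_lit 2755698870) (dlOf (nat_lit 4) (nat_lit 0x8164000320202f00b20001781010f0590000b80801b000800b0002005400081b0383)))) 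
(.nd (nat_lit 8) (.lf (nat_lit 5972733494) (dlOf (nat_lit 1) (nat_lit 0x60018007181))) 
(.lf (nat_lit 1677769526) (dlOf (nat_lit 1) (nat_lit 0x2001800bc81)))))) (.nd (nat_lit 8) 
(.nd (nat_lit 7) (.nd (nat_lit 9) (.nd (nat_lit 10) 
(.lf (nat_lit 3959955510) (dlOf (nat_lit 2) (nat_lit 0x16040003eb818170000))) 
(.lf (nat_lit 1543513142) (dlOf (nat_lit 1) (nat_lit 0x20028002881)))) 
(.lf (nat_lit 470295094) (dlOf (nat_lit 2) (nat_lit 0x31188000540801c8008018000200d400080c0f83)))) 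
(.nd (nat_lit 9) (.nd (nat_lit 12) 
(.lf (nat_lit 1543545014) (dlOf (nat_lit 2) (nat_lit 0x90030000ac0800a80080050002001a00080b0383))) 
(.lf (nat_lit 3690999990) (dlOf (nat_lit 1) (nat_lit 0x400400020008007e82)))) 
(.lf (nat_lit 3422560950) (dlOf (nat_lit 1) (nat_lit 0x20008001e01))))) (.nd (nat_lit 10) 
(.nd (nat_lit 7) 
(.lf (nat_lit 470294838) (dlOf (nat_lit 4) (nat_lit 0x1445e0003b02015e247000190100031178000000800780080044002001e00080c0583))) 
(.nd (nat_lit 9) 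
(.lf (nat_lit 470294966) (dlOf (nat_lit 4) (nat_lit 0x8550004920400cc2a8002470200c6247000aa0180c0800))) 
(.lf (nat_lit 4764740534) (dlOf (nat_lit 1) (nat_lit 0x400400020008005d02))))) (.nd (nat_lit 12) 
(.nd (nat_lit 15) (.lf (nat_lit 4227870006) (dlOf (nat_lit 1) (nat_lit 0x4c00200240008006882))) 
(.lf (nat_lit 4227902774) (dlOf (nat_lit 1) (nat_lit 0xc0028006881)))) 
(.lf (nat_lit 469777718) (dlOf (nat_lit 1) (nat_lit 0x40040002001800c802))))))))) (.nd (nat_lit 9) 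
(.nd (nat_lit 5) (.nd (nat_lit 8) (.nd (nat_lit 19) (.nd (nat_lit 12) (.nd (nat_lit 22) 
(.nd (nat_lit 15) (.lf (nat_lit 16785494) (dlOf (nat_lit 1) (nat_lit 0x8004000200088e0302))) 
(.lf (nat_lit 44081238) (dlOf (nat_lit 1) (nat_lit 0x100080008002000600092c0703)))) 
(.nd (nat_lit 24) (.lf (nat_lit 473964630) (dlOf (nat_lit 1) (nat_lit 0x38004000a0018fe0802))) 
(.lf (nat_lit 20979798) (dlOf (nat_lit 2) (nat_lit 0x455518000480800100080014002000400089f0703))))) 
(.nd (nat_lit 7) (.lf (nat_lit 604027990) (dlOf (nat_lit 1) (nat_lit 0x340020028000800bf82))) 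
(.nd (nat_lit 10) (.lf (nat_lit 603992278) (dlOf (nat_lit 1) (nat_lit 0x120028008081))) 
(.lf (nat_lit 1342192854) (dlOf (nat_lit 1) (nat_lit 0xb8008006c002001a000800c383)))))) 
(.nd (nat_lit 15) (.nd (nat_lit 21) (.nd (nat_lit 27) 
(.lf (nat_lit 4362608726) (dlOf (nat_lit 1) (nat_lit 0x400180a1101))) 
(.lf (nat_lit 4228390998) (dlOf (nat_lit 1) (nat_lit 0x400180a1101)))) 
(.lf (nat_lit 2754093142) (dlOf (nat_lit 1) (nat_lit 0x200180c1a01)))) (.nd (nat_lit 27) 
(.nd (nat_lit 22) (.lf (nat_lit 67674198) (dlOf (nat_lit 1) (nat_lit 0x4004000200182d0302))) 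
(.lf (nat_lit 21536854) (dlOf (nat_lit 2) (nat_lit 0x6ed50001000800a00080024002000a0008a40603)))) 
(.nd (nat_lit 28) 
(.lf (nat_lit 738762838) (dlOf (nat_lit 2) (nat_lit 0x9007e000df0200080008101b81))) 
(.lf (nat_lit 3154681942) (dlOf (nat_lit 15) (nat_lit 0x11819000c80c0010c05a0023023801c000c0060004000280c000206400af02d002a000c0098004000260800f605a003500180007c10057816801700060001d04011005a0030001800070100088168000360402980b400a60030000c02007302d0017000c000280801cc0b40056003000098200a902d002d800c000200802380b4008a00300006020009030004c8168004c0000000506014605a000010100a202d0017000c00000080018002013c0008310302))))))) 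
(.nd (nat_lit 27) (.nd (nat_lit 19) (.nd (nat_lit 7) (.nd (nat_lit 12) 
(.lf (nat_lit 8399190) (dlOf (nat_lit 1) (nat_lit 0x4800200200008514e02))) 
(.lf (nat_lit 4362090838) (dlOf (nat_lit 1) (nat_lit 0xc0020002000800ab82)))) 
(.lf (nat_lit 40903126) (dlOf (nat_lit 1) (nat_lit 0x20029207b01)))) (.nd (nat_lit 7) 
(.nd (nat_lit 15) (.lf (nat_lit 14164310) (dlOf (nat_lit 1) (nat_lit 0x180018750881))) 
(.lf (nat_lit 14197078) (dlOf (nat_lit 1) (nat_lit 0x1800200060008750882)))) 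
(.lf (nat_lit 50864598) (dlOf (nat_lit 6) (nat_lit 0x7600000042c08031800000212040057776001fbb900080820010ddd8003f408000eeec000000400cc002008800094d7b02))))) 
(.nd (nat_lit 7) (.nd (nat_lit 10) (.nd (nat_lit 11) 
(.lf (nat_lit 3892879702) (dlOf (nat_lit 1) (nat_lit 0x4a0018280881))) 
(.lf (nat_lit 469776726) (dlOf (nat_lit 1) (nat_lit 0x1b800800040020006000800ab83)))) 
(.lf (nat_lit 134233430) (dlOf (nat_lit 1) (nat_lit 0xc001800c901)))) (.nd (nat_lit 10) 
(.lf (nat_lit 1008771542) (dlOf (nat_lit 1) (nat_lit 0x64002001a0008f67b02))) (.nd (nat_lit 15) 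
(.lf (nat_lit 469775830) (dlOf (nat_lit 1) (nat_lit 0x48004000e0008009b02))) 
(.lf (nat_lit 469808598) (dlOf (nat_lit 2) (nat_lit 0x1811c000200200040018009b01)))))))) 
(.nd (nat_lit 7) (.nd (nat_lit 27) (.nd (nat_lit 8) (.nd (nat_lit 11) (.nd (nat_lit 12) 
(.lf (nat_lit 28844150) (dlOf (nat_lit 1) (nat_lit 0x40018da0481))) 
(.lf (nat_lit 67154038) (dlOf (nat_lit 2) (nat_lit 0x200000098a04005400200040008007d82)))) 
(.lf (nat_lit 4362119286) (dlOf (nat_lit 1) (nat_lit 0x20008004781)))) (.nd (nat_lit 10) 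
(.nd (nat_lit 15) 
(.lf (nat_lit 2754619766) (dlOf (nat_lit 2) (nat_lit 0x2010006c5008005000800b8002000400080f4e83))) 
(.lf (nat_lit 2483071350) (dlOf (nat_lit 2) (nat_lit 0x1e02800bdc818004e80)))) 
(.lf (nat_lit 4095747446) (dlOf (nat_lit 1) (nat_lit 0x400180e3501))))) (.nd (nat_lit 29) 
(.nd (nat_lit 8) (.nd (nat_lit 26) 
(.lf (nat_lit 1476409462) (dlOf (nat_lit 1) (nat_lit 0x6000800780020088000800a883))) 
(.lf (nat_lit 3691001974) (dlOf (nat_lit 1) (nat_lit 0x80020010000800a882)))) 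
(.lf (nat_lit 469776758) (dlOf (nat_lit 1) (nat_lit 0x30008001c0020004000800ad83)))) 
(.nd (nat_lit 10) (.nd (nat_lit 11) 
(.lf (nat_lit 6375383414) (dlOf (nat_lit 1) (nat_lit 0x5c0018001001))) 
(.lf (nat_lit 6377974134) (dlOf (nat_lit 1) (nat_lit 0x2000280e4e81)))) 
(.lf (nat_lit 4227874166) (dlOf (nat_lit 1) (nat_lit 0xa000800c901)))))) (.nd (nat_lit 8) 
(.nd (nat_lit 20) (.nd (nat_lit 26) (.nd (nat_lit 11) 
(.lf (nat_lit 1074274550) (dlOf (nat_lit 2) (nat_lit 0x5000000398040228002005a00081b0482))) 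
(.lf (nat_lit 8927478) (dlOf (nat_lit 1) (nat_lit 0x22001851a981)))) (.nd (nat_lit 15) 
(.lf (nat_lit 1946689782) (dlOf (nat_lit 2) (nat_lit 0x5000000398040228002005a00081b0482))) 
(.lf (nat_lit 3154682102) (dlOf (nat_lit 2) (nat_lit 0x4c0180003d818310600))))) (.nd (nat_lit 10) 
(.nd (nat_lit 11) (.lf (nat_lit 45654262) (dlOf (nat_lit 1) (nat_lit 0x3000200020009342482))) 
(.lf (nat_lit 20461814) (dlOf (nat_lit 1) (nat_lit 0x400289da981)))) 
(.lf (nat_lit 5772944630) (dlOf (nat_lit 1) (nat_lit 0x400200020008092e82))))) (.nd (nat_lit 12) 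
(.nd (nat_lit 26) (.nd (nat_lit 20) 
(.lf (nat_lit 1342710262) (dlOf (nat_lit 4) (nat_lit 0x3dc4780022d02002c23c0011601001411e0008ac0800d80080070002004c00080c0d83))) 
(.lf (nat_lit 58204662) (dlOf (nat_lit 1) (nat_lit 0x200297c7401)))) (.nd (nat_lit 10) 
(.lf (nat_lit 470295030) (dlOf (nat_lit 4) (nat_lit 0x3dc4780022d02002c23c0011601001411e0008ac0800d80080070002004c00080c0d83))) 
(.lf (nat_lit 6375351798) (dlOf (nat_lit 1) (nat_lit 0x400400020008003682))))) (.nd (nat_lit 27) 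
(.nd (nat_lit 29) (.lf (nat_lit 1342190070) (dlOf (nat_lit 1) (nat_lit 0x400200020008008682))) 
(.lf (nat_lit 1879060982) (dlOf (nat_lit 1) (nat_lit 0x400200020008008682)))) 
(.lf (nat_lit 1476407798) (dlOf (nat_lit 1) (nat_lit 0x60008006800200780008008683)))))))) 
(.nd (nat_lit 29) (.nd (nat_lit 15) (.nd (nat_lit 24) (.nd (nat_lit 31) (.nd (nat_lit 19) 
(.nd (nat_lit 26) (.nd (nat_lit 30) 
(.lf (nat_lit 4429194198) (dlOf (nat_lit 1) (nat_lit 0x20008002881))) 
(.lf (nat_lit 5502936022) (dlOf (nat_lit 1) (nat_lit 0x20028002881)))) 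
(.lf (nat_lit 5570044886) (dlOf (nat_lit 1) (nat_lit 0x180018002881)))) 
(.lf (nat_lit 1344807894) (dlOf (nat_lit 1) (nat_lit 0x8000400460008982882)))) (.nd (nat_lit 27) 
(.nd (nat_lit 28) (.lf (nat_lit 2147492822) (dlOf (nat_lit 1) (nat_lit 0x20028002881))) 
(.lf (nat_lit 2415928278) (dlOf (nat_lit 1) (nat_lit 0xc00400020008002882)))) (.nd (nat_lit 5) 
(.lf (nat_lit 2281710422) (dlOf (nat_lit 1) (nat_lit 0x20028002501))) 
(.lf (nat_lit 6576678646) (dlOf (nat_lit 1) (nat_lit 0x260018003b81)))))) (.nd (nat_lit 5) 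
(.nd (nat_lit 7) 
(.lf (nat_lit 51391062) (dlOf (nat_lit 9) (nat_lit 0x676e8011ba940085c620006cb60001704000c7528006b8c400bd9d40006cb600016040015675000068080043a940025c62005ecea0000c83000275280003408000ba9400018040021d480014e3000027178014b3a80000c100005d480002e300026675000000180098008007000200340009515303))) 
(.nd (nat_lit 22) (.lf (nat_lit 51913686) (dlOf (nat_lit 1) (nat_lit 0xc00400020009512882))) 
(.lf (nat_lit 56107990) (dlOf (nat_lit 1) (nat_lit 0x20019732881))))) (.nd (nat_lit 7) 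
(.lf (nat_lit 61351542) (dlOf (nat_lit 1) (nat_lit 0x8002003a0009923982))) 
(.lf (nat_lit 54537206) (dlOf (nat_lit 1) (nat_lit 0x20009655f01)))))) (.nd (nat_lit 24) 
(.nd (nat_lit 5) (.nd (nat_lit 30) (.nd (nat_lit 19) 
(.lf (nat_lit 4429226966) (dlOf (nat_lit 1) (nat_lit 0x40018002881))) 
(.lf (nat_lit 37266390) (dlOf (nat_lit 1) (nat_lit 0x200290d2881)))) (.nd (nat_lit 8) 
(.lf (nat_lit 1342222038) (dlOf (nat_lit 1) (nat_lit 0x400400020008007382))) 
(.lf (nat_lit 1073783766) (dlOf (nat_lit 1) (nat_lit 0x20028002881))))) (.nd (nat_lit 8) 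
(.lf (nat_lit 2214638326) (dlOf (nat_lit 1) (nat_lit 0x80028008f81))) 
(.lf (nat_lit 4697664502) (dlOf (nat_lit 1) (nat_lit 0x58002000a0008005f02))))) (.nd (nat_lit 20) 
(.nd (nat_lit 21) (.lf (nat_lit 50373590) (dlOf (nat_lit 1) (nat_lit 0x200194c2881))) 
(.lf (nat_lit 31499222) (dlOf (nat_lit 1) (nat_lit 0x180028e92881)))) (.nd (nat_lit 7) 
(.lf (nat_lit 19968598) (dlOf (nat_lit 1) (nat_lit 0x200189d8981))) 
(.lf (nat_lit 51946454) (dlOf (nat_lit 1) (nat_lit 0x10008000400200020009512883))))))) 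
(.nd (nat_lit 26) (.nd (nat_lit 27) (.nd (nat_lit 10) (.nd (nat_lit 28) 
(.lf (nat_lit 4831847382) (dlOf (nat_lit 1) (nat_lit 0x180018002881))) 
(.lf (nat_lit 5100282838) (dlOf (nat_lit 1) (nat_lit 0x180018002881)))) (.nd (nat_lit 7) 
(.lf (nat_lit 536913750) (dlOf (nat_lit 2) (nat_lit 0x300c40006204001400200020008003f02))) 
(.lf (nat_lit 4026574806) (dlOf (nat_lit 1) (nat_lit 0x3800400440008004502))))) (.nd (nat_lit 28) 
(.nd (nat_lit 5) (.nd (nat_lit 15) 
(.lf (nat_lit 4966065110) (dlOf (nat_lit 1) (nat_lit 0x400400020008002882))) 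
(.lf (nat_lit 4966097878) (dlOf (nat_lit 1) (nat_lit 0x20028002881)))) 
(.lf (nat_lit 3892325366) (dlOf (nat_lit 1) (nat_lit 0x20008001c00200020008005f03)))) 
(.nd (nat_lit 30) (.lf (nat_lit 5234500566) (dlOf (nat_lit 1) (nat_lit 0x180018002881))) 
(.lf (nat_lit 6308242390) (dlOf (nat_lit 1) (nat_lit 0x140018002881)))))) (.nd (nat_lit 31) 
(.nd (nat_lit 5) (.nd (nat_lit 27) 
(.lf (nat_lit 4898956246) (dlOf (nat_lit 1) (nat_lit 0x180018002881))) (.nd (nat_lit 28) 
(.lf (nat_lit 6106915798) (dlOf (nat_lit 1) (nat_lit 0x20028002881))) 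
(.lf (nat_lit 6375351254) (dlOf (nat_lit 1) (nat_lit 0xa0028002881))))) (.nd (nat_lit 8) 
(.lf (nat_lit 1006675702) (dlOf (nat_lit 1) (nat_lit 0x60018003b81))) 
(.lf (nat_lit 603993078) (dlOf (nat_lit 1) (nat_lit 0x20018009201))))) (.nd (nat_lit 10) 
(.nd (nat_lit 5) (.nd (nat_lit 19) 
(.lf (nat_lit 2751472598) (dlOf (nat_lit 1) (nat_lit 0x400200020008002882))) 
(.lf (nat_lit 2751996886) (dlOf (nat_lit 1) (nat_lit 0x20018002881)))) 
(.lf (nat_lit 2751996918) (dlOf (nat_lit 1) (nat_lit 0x400200020008002882)))) (.nd (nat_lit 5) 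
(.nd (nat_lit 8) (.lf (nat_lit 4227903190) (dlOf (nat_lit 1) (nat_lit 0x400400020008007382))) 
(.lf (nat_lit 2751997910) (dlOf (nat_lit 4) (nat_lit 0x2b064800b0294000260801441100001002004c08800007018004500)))) 
(.lf (nat_lit 3825215222) (dlOf (nat_lit 1) (nat_lit 0x58008002800200120008003b83)))))))))) 
(.nd (nat_lit 15) (.nd (nat_lit 6) (.nd (nat_lit 5) (.nd (nat_lit 28) (.nd (nat_lit 29) 
(.nd (nat_lit 8) (.nd (nat_lit 20) (.nd (nat_lit 19) 
(.lf (nat_lit 44310550) (dlOf (nat_lit 3) (nat_lit 0x23190001985c0006a080008c640004617000000292f0300))) 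
(.lf (nat_lit 28057622) (dlOf (nat_lit 1) (nat_lit 0x200018d50481)))) (.nd (nat_lit 10) 
(.lf (nat_lit 15998998) (dlOf (nat_lit 1) (nat_lit 0x16c00400060018850602))) 
(.lf (nat_lit 43262998) (dlOf (nat_lit 1) (nat_lit 0x800192a2881))))) (.nd (nat_lit 7) 
(.lf (nat_lit 6509830422) (dlOf (nat_lit 1) (nat_lit 0x4004000a0008154002))) (.nd (nat_lit 19) 
(.lf (nat_lit 2147756438) (dlOf (nat_lit 1) (nat_lit 0x200280e4e81))) 
(.lf (nat_lit 37497238) (dlOf (nat_lit 1) (nat_lit 0x80080004002000200090d4e83)))))) 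
(.nd (nat_lit 27) (.nd (nat_lit 8) (.nd (nat_lit 31) 
(.lf (nat_lit 1677991958) (dlOf (nat_lit 1) (nat_lit 0x20028130481))) 
(.lf (nat_lit 3825475606) (dlOf (nat_lit 4) (nat_lit 0x65012002b007400af40802480480002007002ba0200720118015c80801700080020002002e0008160483)))) 
(.lf (nat_lit 5905850646) (dlOf (nat_lit 1) (nat_lit 0x4004000a0008154002)))) (.nd (nat_lit 8) 
(.nd (nat_lit 19) (.nd (nat_lit 30) 
(.lf (nat_lit 671358998) (dlOf (nat_lit 11) (nat_lit 0xc2025001901180b1808801cc00c00c1b08002c0250060d0100350110030000806b0088017f004006404a00ba6020090025005d2810026012802e800800500940173e04006804a00b96020006025005ca818160480))) 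
(.lf (nat_lit 3892584470) (dlOf (nat_lit 1) (nat_lit 0x20008160001)))) 
(.lf (nat_lit 2819366934) (dlOf (nat_lit 3) (nat_lit 0x3606a000c6810008035000581a40000008015c00400020018250482)))) 
(.lf (nat_lit 2818850070) (dlOf (nat_lit 1) (nat_lit 0x380080070002009a000812c603)))))) 
(.nd (nat_lit 27) (.nd (nat_lit 30) (.nd (nat_lit 26) 
(.lf (nat_lit 805576726) (dlOf (nat_lit 1) (nat_lit 0x20028130481))) (.nd (nat_lit 32) 
(.lf (nat_lit 335814678) (dlOf (nat_lit 1) (nat_lit 0x30008001c002000a00080b0083))) 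
(.lf (nat_lit 4630781974) (dlOf (nat_lit 1) (nat_lit 0xc00280b0081))))) (.nd (nat_lit 8) 
(.nd (nat_lit 19) 
(.lf (nat_lit 3494125590) (dlOf (nat_lit 2) (nat_lit 0x2c038002c01500d218281b0000))) 
(.lf (nat_lit 3557564438) (dlOf (nat_lit 1) (nat_lit 0x9000800b000200400008270483)))) 
(.lf (nat_lit 3557046550) (dlOf (nat_lit 2) (nat_lit 0x501f8000a008007800800180020064000812ab03))))) 
(.nd (nat_lit 30) (.nd (nat_lit 26) (.nd (nat_lit 29) 
(.lf (nat_lit 402923542) (dlOf (nat_lit 1) (nat_lit 0x30008001c002000a00080b0083))) 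
(.lf (nat_lit 3087278102) (dlOf (nat_lit 4) (nat_lit 0x65012002b00740161a080248048000200700584820072011802c1c0801700080020002002e0008160483)))) 
(.lf (nat_lit 4764999702) (dlOf (nat_lit 1) (nat_lit 0xc00280b0081)))) (.nd (nat_lit 9) 
(.nd (nat_lit 31) 
(.lf (nat_lit 1543774230) (dlOf (nat_lit 11) (nat_lit 0xc2025001901180b1808801cc00c0068608002c025003428100350110019ac0806b008800cc604006404a006110200900250030801002601280183408005009400c1404006804a0060302000602500300018160480))) 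
(.lf (nat_lit 3691257878) (dlOf (nat_lit 2) (nat_lit 0x601500340030000d0100008008004400200060008100403)))) 
(.lf (nat_lit 6375613974) (dlOf (nat_lit 1) (nat_lit 0xc00400020008003702))))))) (.nd (nat_lit 26) 
(.nd (nat_lit 19) (.nd (nat_lit 20) (.nd (nat_lit 27) (.nd (nat_lit 7) 
(.lf (nat_lit 1074012726) (dlOf (nat_lit 2) (nat_lit 0x1202900a30138020007c000000c001c00400a60018090f82))) 
(.lf (nat_lit 4563673270) (dlOf (nat_lit 2) (nat_lit 0x1f00900038c0803b0008004c002003200080c1703)))) 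
(.nd (nat_lit 28) (.nd (nat_lit 29) 
(.lf (nat_lit 134488118) (dlOf (nat_lit 4) (nat_lit 0x501880030044002a20800040220015002001003100070088003d01001480080054002000e0008030d03))) 
(.lf (nat_lit 671359030) (dlOf (nat_lit 2) (nat_lit 0x340440006602009a0018160681)))) 
(.lf (nat_lit 402923574) (dlOf (nat_lit 2) (nat_lit 0x90048003e6040050004002000180b0482))))) 
(.nd (nat_lit 7) (.nd (nat_lit 8) 
(.lf (nat_lit 45360182) (dlOf (nat_lit 1) (nat_lit 0x15000800d800200280009322883))) 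
(.lf (nat_lit 20196150) (dlOf (nat_lit 1) (nat_lit 0x4002000200089d5c02)))) 
(.lf (nat_lit 20196534) (dlOf (nat_lit 1) (nat_lit 0x500080084002000200089d6283))))) 
(.nd (nat_lit 20) (.nd (nat_lit 7) (.nd (nat_lit 8) 
(.lf (nat_lit 53224502) (dlOf (nat_lit 1) (nat_lit 0x4004000a0019572882))) 
(.lf (nat_lit 51126582) (dlOf (nat_lit 2) (nat_lit 0x47420030380800a0008004400200120009507b03)))) 
(.lf (nat_lit 17572022) (dlOf (nat_lit 1) (nat_lit 0x4004000200088e0482)))) (.nd (nat_lit 7) 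
(.nd (nat_lit 22) 
(.lf (nat_lit 5773205558) (dlOf (nat_lit 4) (nat_lit 0xbc27c0023702001213e01200988008981000384c40044604006c004010c00180b0482))) 
(.lf (nat_lit 22814774) (dlOf (nat_lit 1) (nat_lit 0x8008000400200020008b30783)))) 
(.lf (nat_lit 8136118) (dlOf (nat_lit 1) (nat_lit 0x400200020008513602)))))) (.nd (nat_lit 28) 
(.nd (nat_lit 7) (.nd (nat_lit 8) (.nd (nat_lit 31) 
(.lf (nat_lit 201596982) (dlOf (nat_lit 4) (nat_lit 0x501880030044002a20800040220015002001003100070088003d01001480080054002000e0008030d03))) 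
(.lf (nat_lit 2349080630) (dlOf (nat_lit 1) (nat_lit 0x400280a0a81)))) 
(.lf (nat_lit 2885953334) (dlOf (nat_lit 1) (nat_lit 0x40018143e01)))) (.nd (nat_lit 8) 
(.lf (nat_lit 5436088502) (dlOf (nat_lit 8) (nat_lit 0x3b00500828022000e304012a011000710100b50088003840803c0044000ec04029c022000750201940110003a0100b10088001cc0812e00080d98002052800080c1703))) 
(.lf (nat_lit 4496567222) (dlOf (nat_lit 2) (nat_lit 0xa01a0000000800c8008000c002001c00080e5d03))))) 
(.nd (nat_lit 27) (.nd (nat_lit 7) (.nd (nat_lit 9) 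
(.lf (nat_lit 335814710) (dlOf (nat_lit 2) (nat_lit 0x90048003e4040050004002000180b0482))) 
(.lf (nat_lit 1946427958) (dlOf (nat_lit 2) (nat_lit 0x1202900a301380200070000000c001c00400a60018090f82)))) 
(.lf (nat_lit 3557045174) (dlOf (nat_lit 1) (nat_lit 0xd0008007400200d20008129203)))) 
(.nd (nat_lit 19) (.nd (nat_lit 29) 
(.lf (nat_lit 1543774262) (dlOf (nat_lit 2) (nat_lit 0x340440006602009a0018160681))) 
(.lf (nat_lit 1006903350) (dlOf (nat_lit 2) (nat_lit 0x402a8000580800200080004002000400080d0a83)))) 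
(.lf (nat_lit 6377185334) (dlOf (nat_lit 4) (nat_lit 0xbc2620023702001213101200910008981000384880043e04006c004010c00180b0482)))))))) 
(.nd (nat_lit 8) (.nd (nat_lit 26) (.nd (nat_lit 19) (.nd (nat_lit 27) (.nd (nat_lit 5) 
(.nd (nat_lit 7) (.lf (nat_lit 29630550) (dlOf (nat_lit 1) (nat_lit 0x400400020008e30302))) 
(.lf (nat_lit 4563673302) (dlOf (nat_lit 1) (nat_lit 0x200280c1c01)))) (.nd (nat_lit 20) 
(.lf (nat_lit 4464758) (dlOf (nat_lit 1) (nat_lit 0x20018290281))) 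
(.lf (nat_lit 9707638) (dlOf (nat_lit 1) (nat_lit 0x80018570b01))))) (.nd (nat_lit 7) 
(.nd (nat_lit 10) 
(.lf (nat_lit 671359062) (dlOf (nat_lit 4) (nat_lit 0x2809400a9a04001c04a0054c02001402500000018160900))) 
(.lf (nat_lit 2818849878) (dlOf (nat_lit 4) (nat_lit 0x480d80002604000c06c00420340000382000201b00000408013000801040020098000812bf83)))) 
(.lf (nat_lit 3892584662) (dlOf (nat_lit 1) (nat_lit 0x4002000c0008160502))))) (.nd (nat_lit 20) 
(.nd (nat_lit 21) 
(.lf (nat_lit 59514966) (dlOf (nat_lit 2) (nat_lit 0x3b19ec00b0b24004c4e5000e2698000942000280080060002000e0009800803))) 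
(.lf (nat_lit 7086166) (dlOf (nat_lit 1) (nat_lit 0x80080004002000200084b0303)))) (.nd (nat_lit 7) 
(.lf (nat_lit 6037590) (dlOf (nat_lit 1) (nat_lit 0x8008000400200020008420303))) 
(.lf (nat_lit 43787478) (dlOf (nat_lit 2) (nat_lit 0x150960001040800a80080018002001c00092a2d83)))))) 
(.nd (nat_lit 30) (.nd (nat_lit 27) (.nd (nat_lit 31) 
(.lf (nat_lit 4630782038) (dlOf (nat_lit 1) (nat_lit 0x4002000200080b0702))) 
(.lf (nat_lit 2483298390) (dlOf (nat_lit 3) (nat_lit 0x4680a0000420400140500002002000400280a1101)))) 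
(.nd (nat_lit 28) 
(.lf (nat_lit 2349080662) (dlOf (nat_lit 3) (nat_lit 0x4680a0000160400140500000a02000400280a1101))) 
(.lf (nat_lit 4764999766) (dlOf (nat_lit 1) (nat_lit 0x4002000200080b0702))))) (.nd (nat_lit 5) 
(.nd (nat_lit 19) 
(.lf (nat_lit 1543774294) (dlOf (nat_lit 4) (nat_lit 0x28094015ec04001c04a00af502001402500000018160900))) 
(.lf (nat_lit 4096532566) (dlOf (nat_lit 1) (nat_lit 0x18008008c002005c0008120603)))) 
(.nd (nat_lit 7) (.lf (nat_lit 3557044342) (dlOf (nat_lit 1) (nat_lit 0x9800200fa0008127d82))) 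
(.lf (nat_lit 3557046518) (dlOf (nat_lit 1) (nat_lit 0x3a000812a981))))))) (.nd (nat_lit 5) 
(.nd (nat_lit 26) (.nd (nat_lit 19) (.nd (nat_lit 29) (.nd (nat_lit 22) 
(.lf (nat_lit 50602966) (dlOf (nat_lit 1) (nat_lit 0x2c00294c2881))) 
(.lf (nat_lit 1346642902) (dlOf (nat_lit 2) (nat_lit 0x28334009ae04000400400020018fe2882)))) 
(.nd (nat_lit 30) (.lf (nat_lit 4832109526) (dlOf (nat_lit 1) (nat_lit 0x200280d2881))) 
(.lf (nat_lit 1610884054) (dlOf (nat_lit 1) (nat_lit 0xc00400080018092882))))) (.nd (nat_lit 20) 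
(.lf (nat_lit 36447190) (dlOf (nat_lit 1) (nat_lit 0x20009072881))) (.nd (nat_lit 21) 
(.lf (nat_lit 39592918) (dlOf (nat_lit 1) (nat_lit 0x94002000c0009192882))) 
(.lf (nat_lit 41690070) (dlOf (nat_lit 1) (nat_lit 0x800200040009242882)))))) (.nd (nat_lit 19) 
(.nd (nat_lit 27) (.nd (nat_lit 7) 
(.lf (nat_lit 2752782678) (dlOf (nat_lit 1) (nat_lit 0x5400400380008048b02))) 
(.lf (nat_lit 4093912022) (dlOf (nat_lit 1) (nat_lit 0x40028002881)))) (.nd (nat_lit 30) 
(.lf (nat_lit 2885952470) (dlOf (nat_lit 1) (nat_lit 0x11800400040018142882))) 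
(.lf (nat_lit 3959694294) (dlOf (nat_lit 2) (nat_lit 0x1000002bac04008000200460008112882))))) 
(.nd (nat_lit 21) (.lf (nat_lit 2752259030) (dlOf (nat_lit 1) (nat_lit 0x20018002881))) 
(.nd (nat_lit 27) (.lf (nat_lit 70001622) (dlOf (nat_lit 1) (nat_lit 0x8008000400200020008e62883))) 
(.lf (nat_lit 472654806) (dlOf (nat_lit 1) (nat_lit 0x80080004002000200089e2883))))))) 
(.nd (nat_lit 30) (.nd (nat_lit 11) (.nd (nat_lit 21) (.nd (nat_lit 22) 
(.lf (nat_lit 2752259062) (dlOf (nat_lit 1) (nat_lit 0x20018002881))) 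
(.lf (nat_lit 55321590) (dlOf (nat_lit 1) (nat_lit 0x200296d2881)))) 
(.lf (nat_lit 36447222) (dlOf (nat_lit 1) (nat_lit 0x800400020009072882)))) (.nd (nat_lit 7) 
(.lf (nat_lit 57944438) (dlOf (nat_lit 1) (nat_lit 0x1000200120009794e82))) 
(.lf (nat_lit 46410742) (dlOf (nat_lit 1) (nat_lit 0xc0009385f01))))) (.nd (nat_lit 11) 
(.nd (nat_lit 7) (.lf (nat_lit 5772157302) (dlOf (nat_lit 1) (nat_lit 0x400400020008091002))) 
(.nd (nat_lit 26) (.lf (nat_lit 1074012662) (dlOf (nat_lit 1) (nat_lit 0x20018090d81))) 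
(.lf (nat_lit 1946427894) (dlOf (nat_lit 1) (nat_lit 0x20018090d81))))) (.nd (nat_lit 10) 
(.lf (nat_lit 3959699958) (dlOf (nat_lit 1) (nat_lit 0x800800440020004000811b283))) 
(.lf (nat_lit 3624152566) (dlOf (nat_lit 1) (nat_lit 0x20028146f81))))))))) (.nd (nat_lit 5) 
(.nd (nat_lit 6) (.nd (nat_lit 28) (.nd (nat_lit 20) (.nd (nat_lit 21) (.nd (nat_lit 8) 
(.nd (nat_lit 26) (.nd (nat_lit 7) 
(.lf (nat_lit 3758399510) (dlOf (nat_lit 6) (nat_lit 0x610060030e02b017901200be808805500260015d0a025403000e50158068009003480440015c080322030019401580c08090061004402c001300610080005643000680c0002b00404c006001e202b00e2012006e0088002ae10002c00400060018170082))) 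
(.lf (nat_lit 671391894) (dlOf (nat_lit 1) (nat_lit 0x8008000400200020008184003)))) 
(.nd (nat_lit 22) (.lf (nat_lit 3825508374) (dlOf (nat_lit 1) (nat_lit 0x18004000c0008170882))) 
(.lf (nat_lit 2755960854) (dlOf (nat_lit 5) (nat_lit 0x302a0001814c00180a0001404d000901e80044028003815000140a0000c04d000901e80043c20002015000280a0000404d000b01e80043820003015000200a0000604d000b01e8004342001d8008011c002001000081c0883))))) 
(.nd (nat_lit 7) (.nd (nat_lit 27) 
(.lf (nat_lit 4362903830) (dlOf (nat_lit 2) (nat_lit 0x801200070000009081000180080188002001e00081a0483))) 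
(.lf (nat_lit 202154262) (dlOf (nat_lit 2) (nat_lit 0x1205c000a00000070010004800801a4002001000081b0483)))) 
(.lf (nat_lit 46967190) (dlOf (nat_lit 1) (nat_lit 0x4004008e0009384e82))))) (.nd (nat_lit 23) 
(.nd (nat_lit 9) (.lf (nat_lit 52732950) (dlOf (nat_lit 1) (nat_lit 0x20009572881))) 
(.lf (nat_lit 56928790) (dlOf (nat_lit 1) (nat_lit 0x8008000400200020009795083)))) 
(.nd (nat_lit 25) (.lf (nat_lit 10788886) (dlOf (nat_lit 1) (nat_lit 0x8008000400200020008630603))) 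
(.lf (nat_lit 44343318) (dlOf (nat_lit 3) (nat_lit 0x2632000230b8000d410000985c00000040004004000400192f0302)))))) 
(.nd (nat_lit 22) (.nd (nat_lit 7) (.nd (nat_lit 19) 
(.lf (nat_lit 9740310) (dlOf (nat_lit 1) (nat_lit 0x600080024002001a0008580003))) 
(.lf (nat_lit 45916182) (dlOf (nat_lit 1) (nat_lit 0x400400020009370582)))) (.nd (nat_lit 8) 
(.lf (nat_lit 20228758) (dlOf (nat_lit 1) (nat_lit 0x400089d5501))) 
(.lf (nat_lit 37005718) (dlOf (nat_lit 1) (nat_lit 0x180019074e81))))) (.nd (nat_lit 8) 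
(.nd (nat_lit 21) 
(.lf (nat_lit 22323222) (dlOf (nat_lit 4) (nat_lit 0x898060044bd800225ab00112d4800895200016a8f00224b400112580010c0000004a120016c0300205f28004aefc00595260030960003c0000001043000704ec00076040038002009a0008ac0102))) 
(.nd (nat_lit 23) (.lf (nat_lit 24420374) (dlOf (nat_lit 1) (nat_lit 0x3ac002017e0008b90882))) 
(.lf (nat_lit 32808982) (dlOf (nat_lit 1) (nat_lit 0x400400020008f20582))))) (.nd (nat_lit 7) 
(.lf (nat_lit 8169750) (dlOf (nat_lit 1) (nat_lit 0x320028514b81))) 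
(.lf (nat_lit 8172950) (dlOf (nat_lit 1) (nat_lit 0x20028519901))))))) (.nd (nat_lit 31) 
(.nd (nat_lit 30) (.nd (nat_lit 26) (.nd (nat_lit 7) 
(.lf (nat_lit 5234795542) (dlOf (nat_lit 1) (nat_lit 0xe00280d2881))) 
(.lf (nat_lit 4697923990) (dlOf (nat_lit 2) (nat_lit 0x380b8002003c00c1304000200080c6481)))) 
(.nd (nat_lit 19) (.lf (nat_lit 1006936086) (dlOf (nat_lit 1) (nat_lit 0x2a00080f0301))) 
(.lf (nat_lit 470589462) (dlOf (nat_lit 1) (nat_lit 0x8008000400200020008130883))))) 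
(.nd (nat_lit 19) (.nd (nat_lit 7) 
(.lf (nat_lit 1343528982) (dlOf (nat_lit 2) (nat_lit 0x413a000000200020018290481))) 
(.lf (nat_lit 1543807126) (dlOf (nat_lit 1) (nat_lit 0x8008000400200020008184003)))) 
(.nd (nat_lit 10) 
(.lf (nat_lit 1343004694) (dlOf (nat_lit 1) (nat_lit 0x8008000400200020008130883))) 
(.lf (nat_lit 5772190742) (dlOf (nat_lit 1) (nat_lit 0x60008092881)))))) (.nd (nat_lit 19) 
(.nd (nat_lit 27) (.nd (nat_lit 7) 
(.lf (nat_lit 3494158358) (dlOf (nat_lit 1) (nat_lit 0x6800800c4002004200081c0883))) 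
(.lf (nat_lit 3489967254) (dlOf (nat_lit 1) (nat_lit 0x400200020008006202)))) (.nd (nat_lit 26) 
(.lf (nat_lit 3087310870) (dlOf (nat_lit 1) (nat_lit 0x18004000c0008170882))) 
(.lf (nat_lit 3691290646) (dlOf (nat_lit 2) (nat_lit 0x18036003001400050000000001800380080008002000c0008110483))))) 
(.nd (nat_lit 7) (.nd (nat_lit 8) 
(.lf (nat_lit 4095516694) (dlOf (nat_lit 1) (nat_lit 0x8004000200080d0102))) 
(.lf (nat_lit 4228686102) (dlOf (nat_lit 1) (nat_lit 0x200281a0481)))) 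
(.lf (nat_lit 3490490774) (dlOf (nat_lit 1) (nat_lit 0x40018004e81))))))) (.nd (nat_lit 7) 
(.nd (nat_lit 30) (.nd (nat_lit 19) (.nd (nat_lit 29) (.nd (nat_lit 8) 
(.lf (nat_lit 9740374) (dlOf (nat_lit 5) (nat_lit 0x4e8ec000b3b800053040009a3b000ecee00016768000a40c0033476002b9dc00023820007cee000118080098008008400200400008580603))) 
(.lf (nat_lit 4362379606) (dlOf (nat_lit 1) (nat_lit 0x8008000400200020008048b03)))) 
(.nd (nat_lit 21) (.lf (nat_lit 5167685718) (dlOf (nat_lit 2) (nat_lit 0xa01400020818100600))) 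
(.lf (nat_lit 2753863766) (dlOf (nat_lit 1) (nat_lit 0x4004000200080a1102))))) (.nd (nat_lit 8) 
(.nd (nat_lit 23) (.lf (nat_lit 135045206) (dlOf (nat_lit 1) (nat_lit 0x18002000600081b0002))) 
(.lf (nat_lit 9216086) (dlOf (nat_lit 2) (nat_lit 0x373d3000048080010008000400200020008530703)))) 
(.lf (nat_lit 8171862) (dlOf (nat_lit 1) (nat_lit 0x80028518381))))) (.nd (nat_lit 8) 
(.nd (nat_lit 19) 
(.lf (nat_lit 3758399574) (dlOf (nat_lit 6) (nat_lit 0x5100c002280440005704014e03000b3015004e808c02480440005608000a030004b0110001541005100c001a8054009a02300600110001502003100c00034044000450400080028170781))) 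
(.nd (nat_lit 20) (.lf (nat_lit 4228685910) (dlOf (nat_lit 1) (nat_lit 0x2c002001800081a0002))) 
(.lf (nat_lit 1346150486) (dlOf (nat_lit 2) (nat_lit 0x2d0a60015035c005c0fa005607c00d90000000982801980080018002005a0008e60803))))) 
(.nd (nat_lit 10) (.nd (nat_lit 26) 
(.lf (nat_lit 3221528918) (dlOf (nat_lit 6) (nat_lit 0x680050001900803b0028000c6040100014000600200a600a000220100780050001080801a000800a400200100008124d03))) 
(.lf (nat_lit 3959726422) (dlOf (nat_lit 5) (nat_lit 0x118028000c8040168014000610200be00a0002001005e0050000fc080070008000800200080008124e03)))) 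
(.lf (nat_lit 1345627478) (dlOf (nat_lit 1) (nat_lit 0x400400020008dd3382)))))) (.nd (nat_lit 20) 
(.nd (nat_lit 28) (.nd (nat_lit 21) (.nd (nat_lit 26) 
(.lf (nat_lit 1610916822) (dlOf (nat_lit 1) (nat_lit 0x20028092881))) 
(.lf (nat_lit 2751767510) (dlOf (nat_lit 1) (nat_lit 0xc00200020008002882)))) 
(.lf (nat_lit 40149974) (dlOf (nat_lit 1) (nat_lit 0x100080004002000200091f2883)))) 
(.nd (nat_lit 21) (.nd (nat_lit 22) 
(.lf (nat_lit 6375646166) (dlOf (nat_lit 1) (nat_lit 0x400400020008002882))) 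
(.lf (nat_lit 1346675670) (dlOf (nat_lit 1) (nat_lit 0x400200020008fe2882)))) 
(.lf (nat_lit 1344578518) (dlOf (nat_lit 1) (nat_lit 0x18008000400200040008862883))))) 
(.nd (nat_lit 19) (.nd (nat_lit 21) (.nd (nat_lit 22) 
(.lf (nat_lit 1007985622) (dlOf (nat_lit 1) (nat_lit 0x400400020018922882))) 
(.lf (nat_lit 39101398) (dlOf (nat_lit 1) (nat_lit 0x8008001800200020009192883)))) 
(.lf (nat_lit 3493110742) (dlOf (nat_lit 1) (nat_lit 0x200180f2881)))) (.nd (nat_lit 8) 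
(.lf (nat_lit 43820246) (dlOf (nat_lit 1) (nat_lit 0x1400292a2d81))) (.nd (nat_lit 21) 
(.lf (nat_lit 56402902) (dlOf (nat_lit 1) (nat_lit 0x20009732881))) 
(.lf (nat_lit 41722838) (dlOf (nat_lit 1) (nat_lit 0x180029242881))))))))) (.nd (nat_lit 30) 
(.nd (nat_lit 19) (.nd (nat_lit 31) (.nd (nat_lit 7) (.nd (nat_lit 8) (.nd (nat_lit 22) 
(.lf (nat_lit 9740342) (dlOf (nat_lit 1) (nat_lit 0x38008001c00200140008580483))) 
(.lf (nat_lit 22323254) (dlOf (nat_lit 3) (nat_lit 0x984ec000c2540005604001abe500015498000b4100140008002000200300008ac0683)))) 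
(.lf (nat_lit 20228918) (dlOf (nat_lit 1) (nat_lit 0x4002000200089d5c02)))) (.nd (nat_lit 6) 
(.nd (nat_lit 10) 
(.lf (nat_lit 4563706038) (dlOf (nat_lit 8) (nat_lit 0x55c06a000402f000d016800580ac033804e01d801b00f300b0015804800bc01a005c009000718a000d017800580b4001c056002e01f0007104000100f8003840800300b4000803e0007604002402f001a00f8001d41000d00bc000e80400bc05e001c02d003400f8001cc18090800806c800206a200080c1703))) 
(.lf (nat_lit 47490230) (dlOf (nat_lit 1) (nat_lit 0x400400020009402c82)))) (.nd (nat_lit 8) 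
(.lf (nat_lit 2400502) (dlOf (nat_lit 1) (nat_lit 0x338008038c00202060008150483))) 
(.lf (nat_lit 23372278) (dlOf (nat_lit 1) (nat_lit 0x400200020008b80d82)))))) (.nd (nat_lit 28) 
(.nd (nat_lit 8) (.lf (nat_lit 2753863734) (dlOf (nat_lit 1) (nat_lit 0x200180a0a81))) 
(.lf (nat_lit 2885986102) (dlOf (nat_lit 1) (nat_lit 0x40028143e01)))) (.nd (nat_lit 26) 
(.lf (nat_lit 6711189558) (dlOf (nat_lit 2) (nat_lit 0x142016000f98180b0480))) (.nd (nat_lit 29) 
(.lf (nat_lit 2483331126) (dlOf (nat_lit 1) (nat_lit 0xc00280b1381))) 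
(.lf (nat_lit 3020202038) (dlOf (nat_lit 2) (nat_lit 0x14000000a8818150480))))))) (.nd (nat_lit 6) 
(.nd (nat_lit 20) (.nd (nat_lit 23) 
(.lf (nat_lit 470589494) (dlOf (nat_lit 1) (nat_lit 0xc004000a0008130b82))) 
(.lf (nat_lit 9216054) (dlOf (nat_lit 1) (nat_lit 0x400400040018530482)))) (.nd (nat_lit 7) 
(.nd (nat_lit 22) 
(.lf (nat_lit 10264630) (dlOf (nat_lit 1) (nat_lit 0x4500080024002000400085c0d03))) 
(.lf (nat_lit 22847542) (dlOf (nat_lit 5) (nat_lit 0x635200031a8c00ced040026d4800146a30033b010007b520003da8c00ce3040008d48000b6a30033881000b0008004400200020008b30783)))) 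
(.lf (nat_lit 8172214) (dlOf (nat_lit 1) (nat_lit 0x40028518c81))))) (.nd (nat_lit 26) 
(.nd (nat_lit 8) 
(.lf (nat_lit 135045366) (dlOf (nat_lit 2) (nat_lit 0x1805b0009000000700100020008016c002000600081b0483))) 
(.nd (nat_lit 11) (.lf (nat_lit 34382838) (dlOf (nat_lit 1) (nat_lit 0x20018fb2881))) 
(.lf (nat_lit 19704822) (dlOf (nat_lit 2) (nat_lit 0x54ae0002c02000200189d5f01))))) 
(.nd (nat_lit 7) 
(.lf (nat_lit 2753339510) (dlOf (nat_lit 1) (nat_lit 0x8008000400200020008090083))) 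
(.nd (nat_lit 27) 
(.lf (nat_lit 4362903798) (dlOf (nat_lit 2) (nat_lit 0x1e012000d000000908100028008012c002000600081a0483))) 
(.lf (nat_lit 202154230) (dlOf (nat_lit 2) (nat_lit 0x1805c0009000000700100020008016c002000600081b0483)))))))) 
(.nd (nat_lit 26) (.nd (nat_lit 28) (.nd (nat_lit 31) (.nd (nat_lit 7) (.nd (nat_lit 9) 
(.lf (nat_lit 1208262710) (dlOf (nat_lit 1) (nat_lit 0x80080084002000200080b0483))) 
(.lf (nat_lit 1074045494) (dlOf (nat_lit 2) (nat_lit 0x9402900d40138046007c000000c000800400840018090f82)))) 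
(.nd (nat_lit 6) 
(.lf (nat_lit 5503230134) (dlOf (nat_lit 2) (nat_lit 0x1a804e003001a000718280c1700))) 
(.lf (nat_lit 5905883638) (dlOf (nat_lit 1) (nat_lit 0x28008000400200060008157e03))))) 
(.nd (nat_lit 8) (.nd (nat_lit 9) 
(.lf (nat_lit 3758399542) (dlOf (nat_lit 14) (nat_lit 0x48c06001d202a00cb01180658088003a41007dc060040402a020b01180fd8088003a2100534060022c02a00f8011807c00880039e100030060001cd0202fa03001660110006081002200c0008c04400176040058030000b88102080000005440808f80c4042c04a001370401480000007a01005c0180002940802780c0001020403fc06002b602a0175011800a808800000100098002001e0008170482))) 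
(.lf (nat_lit 3221529142) (dlOf (nat_lit 3) (nat_lit 0x29c0760002302001200e00011018128100)))) 
(.lf (nat_lit 3221528886) (dlOf (nat_lit 3) (nat_lit 0x4084000c03f0025c0200130050012d40803f00080020002001a0008124c03))))) 
(.nd (nat_lit 19) (.nd (nat_lit 6) (.nd (nat_lit 10) 
(.lf (nat_lit 4026834998) (dlOf (nat_lit 1) (nat_lit 0x2400400a00008090002))) 
(.lf (nat_lit 2013570102) (dlOf (nat_lit 1) (nat_lit 0xa8002001a0008122882)))) 
(.lf (nat_lit 2013571446) (dlOf (nat_lit 1) (nat_lit 0x60028124e81)))) (.nd (nat_lit 20) 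
(.lf (nat_lit 1343004726) (dlOf (nat_lit 1) (nat_lit 0xc004000a0008130b82))) (.nd (nat_lit 21) 
(.lf (nat_lit 5773238326) (dlOf (nat_lit 3) (nat_lit 0x8823c00140000011b82001708f000700000044c080014004005e00180b0482))) 
(.lf (nat_lit 1346150454) (dlOf (nat_lit 2) (nat_lit 0x481cc0002c04000c00200080008e60482))))))) 
(.nd (nat_lit 28) (.nd (nat_lit 8) (.nd (nat_lit 9) (.nd (nat_lit 10) 
(.lf (nat_lit 6107209782) (dlOf (nat_lit 2) (nat_lit 0x142016000f90180b0480))) 
(.lf (nat_lit 5436122166) (dlOf (nat_lit 2) (nat_lit 0x68022002f002000200080e2881)))) 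
(.lf (nat_lit 3959726646) (dlOf (nat_lit 4) (nat_lit 0x5a0038013400402f001c0097102017400e00000018128b00)))) 
(.nd (nat_lit 6) 
(.lf (nat_lit 3959726390) (dlOf (nat_lit 3) (nat_lit 0x4084000c03f005268200130050029280803f00080020002001a0008124c03))) 
(.nd (nat_lit 7) 
(.lf (nat_lit 5436123510) (dlOf (nat_lit 2) (nat_lit 0x80220035102010e00280e4e81))) 
(.lf (nat_lit 3959726582) (dlOf (nat_lit 10) (nat_lit 0x2b80f8001401c000240401ac03e0001181011801f007980380320018012c00000011040003007000380000004208023007c006a00e000100200e401f0000780808100f8016801c006200c00030000000742002080f8011401c0001c04013e03e001a00700006c10086800800c000200020008127e03)))))) 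
(.nd (nat_lit 6) (.nd (nat_lit 9) (.nd (nat_lit 19) 
(.lf (nat_lit 2080677942) (dlOf (nat_lit 1) (nat_lit 0x80080084002000200080b0483))) 
(.lf (nat_lit 6377218102) (dlOf (nat_lit 3) (nat_lit 0x8821e00140000011b820017087800700000044c080014004005e00180b0482)))) 
(.nd (nat_lit 8) 
(.lf (nat_lit 1946460726) (dlOf (nat_lit 2) (nat_lit 0x9402900d401380460070000000c000800400840018090f82))) 
(.lf (nat_lit 1410115382) (dlOf (nat_lit 2) (nat_lit 0x26077000b0330000d41000d000800c4002009c00080f3e03))))) 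
(.nd (nat_lit 7) 
(.lf (nat_lit 4228686198) (dlOf (nat_lit 1) (nat_lit 0x400080034002000600081a0783))) 
(.lf (nat_lit 4228686070) (dlOf (nat_lit 2) (nat_lit 0x1e011000d000000908100028008012c002000600081a0483))))))))))) 
(.nd (nat_lit 5) (.nd (nat_lit 6) (.nd (nat_lit 15) (.nd (nat_lit 28) (.nd (nat_lit 18) 
(.nd (nat_lit 19) (.nd (nat_lit 26) (.nd (nat_lit 20) (.nd (nat_lit 24) (.nd (nat_lit 7) 
(.lf (nat_lit 3355582998) (dlOf (nat_lit 2) (nat_lit 0x4405c000ce0200e600280a1481))) 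
(.lf (nat_lit 44179862) (dlOf (nat_lit 1) (nat_lit 0x34004000a00092d6482)))) (.nd (nat_lit 22) 
(.lf (nat_lit 25305110) (dlOf (nat_lit 4) (nat_lit 0x1722a018520200699150002c3780612c1000c671000c322a003d86f001b000005f8820005000800d400200200008bf0883))) 
(.lf (nat_lit 63053846) (dlOf (nat_lit 3) (nat_lit 0x4cfc000666700012730007fc1800199f8003f0040014004001000199c0082))))) 
(.nd (nat_lit 7) (.nd (nat_lit 21) 
(.lf (nat_lit 47325206) (dlOf (nat_lit 1) (nat_lit 0xa600093d0301))) 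
(.lf (nat_lit 20062230) (dlOf (nat_lit 1) (nat_lit 0x4002000200089d0002)))) 
(.lf (nat_lit 20066966) (dlOf (nat_lit 1) (nat_lit 0x80080004002000200089d8c83))))) 
(.nd (nat_lit 7) (.nd (nat_lit 10) (.nd (nat_lit 31) (.nd (nat_lit 32) 
(.lf (nat_lit 1140989974) (dlOf (nat_lit 1) (nat_lit 0x8008000400200020008050303))) 
(.lf (nat_lit 5435957270) (dlOf (nat_lit 1) (nat_lit 0x2400200040008060a02)))) 
(.lf (nat_lit 3288473622) (dlOf (nat_lit 2) (nat_lit 0x808c00c5a04008c00200a00008020482)))) 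
(.lf (nat_lit 201466902) (dlOf (nat_lit 3) (nat_lit 0x202500574c08001812802ba404001400200160008002882)))) 
(.nd (nat_lit 10) 
(.lf (nat_lit 1677863062) (dlOf (nat_lit 5) (nat_lit 0x3813c0014098000803800019030003027800680e0001804c0002e06000804f00030130000b410001000000014040170004006a0008114802))) 
(.lf (nat_lit 6509702294) (dlOf (nat_lit 1) (nat_lit 0x80008146201)))))) (.nd (nat_lit 23) 
(.nd (nat_lit 22) (.nd (nat_lit 20) 
(.lf (nat_lit 2754224150) (dlOf (nat_lit 2) (nat_lit 0x2843e01b4e02000400180d0881))) 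
(.lf (nat_lit 2755272726) (dlOf (nat_lit 1) (nat_lit 0x20018140a81)))) (.nd (nat_lit 7) 
(.nd (nat_lit 21) 
(.lf (nat_lit 22683670) (dlOf (nat_lit 1) (nat_lit 0x90008003c00200140008b10503))) 
(.lf (nat_lit 24780822) (dlOf (nat_lit 1) (nat_lit 0x10008000400200040008bb0303)))) 
(.lf (nat_lit 8008854) (dlOf (nat_lit 2) (nat_lit 0x4e2b08027157c0008000004e90600360018519501))))) 
(.nd (nat_lit 20) (.nd (nat_lit 21) 
(.lf (nat_lit 30023702) (dlOf (nat_lit 1) (nat_lit 0x400200020008e30002))) 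
(.lf (nat_lit 27926550) (dlOf (nat_lit 2) (nat_lit 0x91b1c000340200040028d40401)))) 
(.nd (nat_lit 21) (.nd (nat_lit 22) 
(.lf (nat_lit 10100758) (dlOf (nat_lit 1) (nat_lit 0x80080004002000200085b0483))) 
(.lf (nat_lit 31072278) (dlOf (nat_lit 1) (nat_lit 0x20028e60a81)))) 
(.lf (nat_lit 33169430) (dlOf (nat_lit 1) (nat_lit 0x400400020008f50002))))))) (.nd (nat_lit 29) 
(.nd (nat_lit 31) (.nd (nat_lit 8) (.nd (nat_lit 19) (.nd (nat_lit 21) 
(.lf (nat_lit 12984342) (dlOf (nat_lit 2) (nat_lit 0x1a910000d00800080080004002000200086f0303))) 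
(.lf (nat_lit 15081494) (dlOf (nat_lit 1) (nat_lit 0x84004003e00087b0402)))) 
(.lf (nat_lit 15605782) (dlOf (nat_lit 1) (nat_lit 0x4002000a0008810402)))) 
(.lf (nat_lit 3547414) (dlOf (nat_lit 1) (nat_lit 0x400200020008200482)))) (.nd (nat_lit 26) 
(.nd (nat_lit 27) (.nd (nat_lit 30) 
(.lf (nat_lit 6442852374) (dlOf (nat_lit 1) (nat_lit 0x110008016c002005800081e0303))) 
(.lf (nat_lit 3221626902) (dlOf (nat_lit 1) (nat_lit 0x800400040008160502)))) 
(.lf (nat_lit 3355844630) (dlOf (nat_lit 3) (nat_lit 0x402c0011901001c0000007cc0803e0008006800201ba0008120483)))) 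
(.lf (nat_lit 3288735766) (dlOf (nat_lit 2) (nat_lit 0xa80c000000040020004008a00080d0882))))) 
(.nd (nat_lit 27) (.nd (nat_lit 7) (.nd (nat_lit 30) 
(.lf (nat_lit 4899348502) (dlOf (nat_lit 2) (nat_lit 0x2019000080000008208002800200040008140102))) 
(.lf (nat_lit 1678123030) (dlOf (nat_lit 1) (nat_lit 0x600080110002002c0008190503)))) 
(.lf (nat_lit 2755014294) (dlOf (nat_lit 1) (nat_lit 0x2c00280f7201)))) (.nd (nat_lit 26) 
(.nd (nat_lit 19) (.lf (nat_lit 3892715542) (dlOf (nat_lit 2) (nat_lit 0xa02c005d38181d0480))) 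
(.lf (nat_lit 2819498006) (dlOf (nat_lit 2) (nat_lit 0xe01b0000000800b00080100002004a00082b0403)))) 
(.nd (nat_lit 7) (.lf (nat_lit 3959824406) (dlOf (nat_lit 1) (nat_lit 0x800400040008160502))) 
(.lf (nat_lit 738599062) (dlOf (nat_lit 1) (nat_lit 0x80080004002000200080c1103)))))))) 
(.nd (nat_lit 30) (.nd (nat_lit 18) (.nd (nat_lit 26) (.nd (nat_lit 7) (.nd (nat_lit 29) 
(.lf (nat_lit 4563542038) (dlOf (nat_lit 9) (nat_lit 0x180bc002805a000a01f00c2f030005017800400b4001803e0185d06000a02f00090168005007c030b60c001005e001602d000900f8061641800580bc0307604002c05e017c402004802f00be181000b017805f04080060008012800200020008090003))) 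
(.lf (nat_lit 2952929302) (dlOf (nat_lit 1) (nat_lit 0x54002006c0008030082)))) (.nd (nat_lit 9) 
(.lf (nat_lit 268575126) (dlOf (nat_lit 1) (nat_lit 0x20018086481))) 
(.lf (nat_lit 805452694) (dlOf (nat_lit 1) (nat_lit 0x400080014002000a000811bc83))))) 
(.nd (nat_lit 19) (.lf (nat_lit 5301739542) (dlOf (nat_lit 1) (nat_lit 0x2400200040008060a02))) 
(.nd (nat_lit 21) 
(.lf (nat_lit 3154780182) (dlOf (nat_lit 3) (nat_lit 0x20000001380803d00000000004004400200400008320882))) 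
(.lf (nat_lit 472522774) (dlOf (nat_lit 1) (nat_lit 0x20008000c002001600089b0583)))))) 
(.nd (nat_lit 20) (.nd (nat_lit 26) (.nd (nat_lit 27) (.nd (nat_lit 32) 
(.lf (nat_lit 805707798) (dlOf (nat_lit 1) (nat_lit 0x600080110002002c0008190503))) 
(.lf (nat_lit 5100675094) (dlOf (nat_lit 1) (nat_lit 0x28008003800200040008140103)))) 
(.lf (nat_lit 4698021910) (dlOf (nat_lit 2) (nat_lit 0x24c033000020180e0300)))) (.nd (nat_lit 29) 
(.lf (nat_lit 2617647126) (dlOf (nat_lit 3) (nat_lit 0x201600009c0800480b00004c04005c00400220008130302))) 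
(.lf (nat_lit 1007034390) (dlOf (nat_lit 1) (nat_lit 0x400400020008150002))))) (.nd (nat_lit 7) 
(.lf (nat_lit 471212054) (dlOf (nat_lit 1) (nat_lit 0x200080014002001a00082c0683))) 
(.nd (nat_lit 19) 
(.lf (nat_lit 473311638) (dlOf (nat_lit 2) (nat_lit 0x28270001f6040090004006c0018e94e82))) 
(.lf (nat_lit 473835926) (dlOf (nat_lit 1) (nat_lit 0x400400020008fa4e82))))))) (.nd (nat_lit 19) 
(.nd (nat_lit 29) (.nd (nat_lit 7) (.nd (nat_lit 20) 
(.lf (nat_lit 3624017942) (dlOf (nat_lit 2) (nat_lit 0x14002800a001200d218280b0000))) 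
(.lf (nat_lit 1343365142) (dlOf (nat_lit 1) (nat_lit 0xa0028210401)))) (.nd (nat_lit 11) 
(.lf (nat_lit 3624018326) (dlOf (nat_lit 1) (nat_lit 0x3f8004000400180b0782))) 
(.lf (nat_lit 5838612886) (dlOf (nat_lit 1) (nat_lit 0x188004005000080f4e82))))) (.nd (nat_lit 31) 
(.nd (nat_lit 7) 
(.lf (nat_lit 1881546774) (dlOf (nat_lit 1) (nat_lit 0x10008002400200180008f40083))) 
(.lf (nat_lit 1879449750) (dlOf (nat_lit 1) (nat_lit 0x40028150281)))) (.nd (nat_lit 18) 
(.lf (nat_lit 4026671126) (dlOf (nat_lit 2) (nat_lit 0x808c0178404008c00200a00008020482))) 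
(.lf (nat_lit 4026933270) (dlOf (nat_lit 2) (nat_lit 0xa80c000000040020004008a00080d0882)))))) 
(.nd (nat_lit 18) (.nd (nat_lit 20) (.nd (nat_lit 21) 
(.lf (nat_lit 6376005654) (dlOf (nat_lit 1) (nat_lit 0x800200040008040002))) 
(.lf (nat_lit 3492421654) (dlOf (nat_lit 2) (nat_lit 0x28414017e202000400180d0881)))) 
(.nd (nat_lit 21) (.lf (nat_lit 1343889430) (dlOf (nat_lit 1) (nat_lit 0x280028370001))) 
(.lf (nat_lit 3493470230) (dlOf (nat_lit 1) (nat_lit 0x20018140a81))))) (.nd (nat_lit 7) 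
(.lf (nat_lit 3557695510) (dlOf (nat_lit 2) (nat_lit 0xe01c0000000800b00080100002004a00082b0403))) 
(.nd (nat_lit 11) (.lf (nat_lit 6376267926) (dlOf (nat_lit 1) (nat_lit 0x3800028090481))) 
(.lf (nat_lit 3492685974) (dlOf (nat_lit 1) (nat_lit 0x180080088002002000080f4803))))))))) 
(.nd (nat_lit 19) (.nd (nat_lit 18) (.nd (nat_lit 8) (.nd (nat_lit 28) (.nd (nat_lit 7) 
(.nd (nat_lit 24) (.nd (nat_lit 26) 
(.lf (nat_lit 1208131606) (dlOf (nat_lit 1) (nat_lit 0xb00008090001))) 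
(.lf (nat_lit 6107078678) (dlOf (nat_lit 2) (nat_lit 0x8058001002a0004005003af838060a00)))) 
(.nd (nat_lit 21) (.lf (nat_lit 25337878) (dlOf (nat_lit 1) (nat_lit 0x400200060008bf0882))) 
(.lf (nat_lit 56795158) (dlOf (nat_lit 1) (nat_lit 0x400400020009760582))))) (.nd (nat_lit 9) 
(.nd (nat_lit 11) (.lf (nat_lit 16949398) (dlOf (nat_lit 1) (nat_lit 0x200188e0481))) 
(.lf (nat_lit 5905754262) (dlOf (nat_lit 1) (nat_lit 0x400200020008144802)))) 
(.lf (nat_lit 1745005206) (dlOf (nat_lit 1) (nat_lit 0x40008001400200060008095503))))) 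
(.nd (nat_lit 26) (.nd (nat_lit 31) 
(.lf (nat_lit 268607510) (dlOf (nat_lit 1) (nat_lit 0x14002000c00080b0a02))) 
(.lf (nat_lit 6711058454) (dlOf (nat_lit 2) (nat_lit 0x8058001002a00040050066d038060a00)))) 
(.nd (nat_lit 7) (.nd (nat_lit 27) 
(.lf (nat_lit 4630683670) (dlOf (nat_lit 3) (nat_lit 0xc016000e00a00030014012b00c000c02c000c005004ab828060a00))) 
(.lf (nat_lit 4764901398) (dlOf (nat_lit 3) (nat_lit 0xc016000e00a0003001401bf80c000c02c000c005006fd828060a00)))) 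
(.lf (nat_lit 335719062) (dlOf (nat_lit 1) (nat_lit 0x20028095501)))))) (.nd (nat_lit 27) 
(.nd (nat_lit 9) (.nd (nat_lit 26) 
(.lf (nat_lit 5100446102) (dlOf (nat_lit 1) (nat_lit 0x10008000400200b40008086483))) 
(.lf (nat_lit 5704425878) (dlOf (nat_lit 1) (nat_lit 0x2000200100008076482)))) (.nd (nat_lit 7) 
(.lf (nat_lit 3758274326) (dlOf (nat_lit 1) (nat_lit 0x22002812a001))) 
(.lf (nat_lit 20097942) (dlOf (nat_lit 1) (nat_lit 0x8004003800189d5c82))))) (.nd (nat_lit 9) 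
(.nd (nat_lit 26) (.nd (nat_lit 29) 
(.lf (nat_lit 134390038) (dlOf (nat_lit 1) (nat_lit 0xd000200060008014002))) 
(.lf (nat_lit 1745002774) (dlOf (nat_lit 1) (nat_lit 0x1000200240008090a82)))) 
(.lf (nat_lit 201498902) (dlOf (nat_lit 1) (nat_lit 0xd000200060008014002)))) 
(.lf (nat_lit 2281874198) (dlOf (nat_lit 1) (nat_lit 0x8004000200080a2102)))))) (.nd (nat_lit 20) 
(.nd (nat_lit 21) (.nd (nat_lit 7) (.nd (nat_lit 22) 
(.lf (nat_lit 3154550806) (dlOf (nat_lit 1) (nat_lit 0x20028220401))) 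
(.lf (nat_lit 13017110) (dlOf (nat_lit 2) (nat_lit 0x261b0001a8186f0300)))) (.nd (nat_lit 8) 
(.lf (nat_lit 8828054) (dlOf (nat_lit 1) (nat_lit 0xc0008519501))) 
(.lf (nat_lit 1611047318) (dlOf (nat_lit 10) (nat_lit 0xa816800200ae001c005005fe03003d02d0012015c009800a00bfb060012005005fd01000302b80030014017f208006c0b40034005005f802000c02d00048014016540805180b402b00570145002802ca4180098168000c00a00b2804002405a000b002802c9c10064800801d0002001200080c6483))))) 
(.nd (nat_lit 26) (.nd (nat_lit 28) 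
(.lf (nat_lit 2531350) (dlOf (nat_lit 2) (nat_lit 0x1d4a4000340200020028170581))) 
(.lf (nat_lit 3492192278) (dlOf (nat_lit 1) (nat_lit 0x4002000200080b0902)))) 
(.lf (nat_lit 2753994774) (dlOf (nat_lit 1) (nat_lit 0x4002000200080b0902))))) (.nd (nat_lit 22) 
(.nd (nat_lit 10) (.lf (nat_lit 9871382) (dlOf (nat_lit 1) (nat_lit 0x400200020008590302))) 
(.lf (nat_lit 1880531990) (dlOf (nat_lit 1) (nat_lit 0x1400289e2881)))) (.nd (nat_lit 21) 
(.lf (nat_lit 56008726) (dlOf (nat_lit 1) (nat_lit 0x20009710081))) 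
(.lf (nat_lit 24551446) (dlOf (nat_lit 1) (nat_lit 0x100080014002000e0008ba0583))))))) 
(.nd (nat_lit 21) (.nd (nat_lit 20) (.nd (nat_lit 26) (.nd (nat_lit 7) (.nd (nat_lit 23) 
(.lf (nat_lit 134914070) (dlOf (nat_lit 1) (nat_lit 0x5c002005800080e0282))) 
(.lf (nat_lit 42639382) (dlOf (nat_lit 1) (nat_lit 0x400200040009260082)))) 
(.lf (nat_lit 1880006806) (dlOf (nat_lit 1) (nat_lit 0xa0028520281)))) (.nd (nat_lit 28) 
(.lf (nat_lit 202022934) (dlOf (nat_lit 1) (nat_lit 0x5c002005800080e0282))) 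
(.lf (nat_lit 3154812950) (dlOf (nat_lit 1) (nat_lit 0x40028330a01))))) (.nd (nat_lit 8) 
(.nd (nat_lit 23) (.lf (nat_lit 18522134) (dlOf (nat_lit 1) (nat_lit 0x400400020008940402))) 
(.lf (nat_lit 10133526) (dlOf (nat_lit 1) (nat_lit 0x8002000a00085b0482)))) 
(.lf (nat_lit 43689238) (dlOf (nat_lit 1) (nat_lit 0x200292a3081))))) (.nd (nat_lit 28) 
(.nd (nat_lit 22) (.nd (nat_lit 10) 
(.lf (nat_lit 2754256918) (dlOf (nat_lit 2) (nat_lit 0xe41fc00de20180d0880))) 
(.lf (nat_lit 36348950) (dlOf (nat_lit 1) (nat_lit 0x20019072881)))) (.nd (nat_lit 18) 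
(.lf (nat_lit 16424982) (dlOf (nat_lit 1) (nat_lit 0x180080030002002800088a0403))) 
(.lf (nat_lit 15638550) (dlOf (nat_lit 2) (nat_lit 0x351be000330200040028810401))))) 
(.nd (nat_lit 9) (.nd (nat_lit 10) 
(.lf (nat_lit 3492454422) (dlOf (nat_lit 2) (nat_lit 0xe41ea00c258180d0880))) 
(.lf (nat_lit 3492717590) (dlOf (nat_lit 1) (nat_lit 0x580080010002000a00080f2883)))) 
(.lf (nat_lit 473604630) (dlOf (nat_lit 4) (nat_lit 0x582320018118000f882001908c8005d00800a04640000004022400400020008f68702)))))))) 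
(.nd (nat_lit 9) (.nd (nat_lit 18) (.nd (nat_lit 7) (.nd (nat_lit 29) (.nd (nat_lit 15) 
(.nd (nat_lit 20) (.nd (nat_lit 21) 
(.lf (nat_lit 5772025942) (dlOf (nat_lit 1) (nat_lit 0x60028040601))) 
(.lf (nat_lit 1344938070) (dlOf (nat_lit 1) (nat_lit 0x8004001600189a0802)))) 
(.lf (nat_lit 60432470) (dlOf (nat_lit 1) (nat_lit 0x40019860701)))) (.nd (nat_lit 8) 
(.lf (nat_lit 52600918) (dlOf (nat_lit 2) (nat_lit 0x2c10000153d000098100178008000c00200220009550803))) 
(.lf (nat_lit 3489840470) (dlOf (nat_lit 1) (nat_lit 0x800801d00020068000800c903))))) 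
(.nd (nat_lit 8) (.nd (nat_lit 19) (.nd (nat_lit 26) 
(.lf (nat_lit 2952929366) (dlOf (nat_lit 1) (nat_lit 0x240028030781))) 
(.lf (nat_lit 604119126) (dlOf (nat_lit 1) (nat_lit 0x20008030781)))) 
(.lf (nat_lit 6376005718) (dlOf (nat_lit 1) (nat_lit 0x60028040601)))) (.nd (nat_lit 11) 
(.lf (nat_lit 4228030806) (dlOf (nat_lit 7) (nat_lit 0x3702600a5010003b80580006906006804c0148020007c80b0000d00c036408000b602c0003282003602600250128052408001d202c0002204002102000010c0801e81300058094029c04001010160001082004f0008021c00207f40008014d03))) 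
(.lf (nat_lit 537012566) (dlOf (nat_lit 1) (nat_lit 0x400200020008004e02)))))) (.nd (nat_lit 10) 
(.nd (nat_lit 28) (.nd (nat_lit 12) 
(.lf (nat_lit 9609430) (dlOf (nat_lit 1) (nat_lit 0x1400400020008571902))) 
(.lf (nat_lit 3892490454) (dlOf (nat_lit 1) (nat_lit 0xa0028158081)))) (.nd (nat_lit 8) 
(.lf (nat_lit 4563542230) (dlOf (nat_lit 6) (nat_lit 0x2280bc011405a008c01f0000303005f017802e80b4017c03e000050600ac02f0059016802d807c000080c013005e009a02d005100f80000c1800080bc000000400b000400880018090982))) 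
(.lf (nat_lit 1342349782) (dlOf (nat_lit 1) (nat_lit 0x20018017101))))) (.nd (nat_lit 15) 
(.nd (nat_lit 8) (.nd (nat_lit 19) 
(.lf (nat_lit 8529110) (dlOf (nat_lit 1) (nat_lit 0x20028512d81))) 
(.lf (nat_lit 53093590) (dlOf (nat_lit 1) (nat_lit 0x2400400080009572d82)))) 
(.lf (nat_lit 3221368278) (dlOf (nat_lit 1) (nat_lit 0x400400020008116d02)))) (.nd (nat_lit 26) 
(.lf (nat_lit 402826454) (dlOf (nat_lit 1) (nat_lit 0xc00400020008092d82))) 
(.lf (nat_lit 872588502) (dlOf (nat_lit 1) (nat_lit 0x540028092d81))))))) (.nd (nat_lit 19) 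
(.nd (nat_lit 8) (.nd (nat_lit 32) (.nd (nat_lit 15) (.nd (nat_lit 20) 
(.lf (nat_lit 54927446) (dlOf (nat_lit 1) (nat_lit 0x80080004002002e0009670703))) 
(.lf (nat_lit 9838678) (dlOf (nat_lit 6) (nat_lit 0x1161d600a20e9800485e000042d60005308017c1d600a20e98014872800cc2f0000520801901d600520e5002a05e00008e0c02e03ac0098178000230200c30eb0001140800e8008002c002009c0008580603)))) 
(.nd (nat_lit 20) 
(.lf (nat_lit 2819006550) (dlOf (nat_lit 4) (nat_lit 0x2e781c8000c07e0004004099c0720001f8105100390000f8080010008002800200280008150783))) 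
(.lf (nat_lit 26648662) (dlOf (nat_lit 3) (nat_lit 0x4600000023810012c8d000956b0000560800b800200060008c50782))))) 
(.nd (nat_lit 26) (.lf (nat_lit 5637546070) (dlOf (nat_lit 1) (nat_lit 0x48004000c0008100602))) 
(.nd (nat_lit 27) (.lf (nat_lit 6241525846) (dlOf (nat_lit 1) (nat_lit 0x48004000c0008100602))) 
(.lf (nat_lit 4496695382) (dlOf (nat_lit 2) (nat_lit 0x5900d00250066023403200920180000c82006b0008018000200940008120603)))))) 
(.nd (nat_lit 26) (.nd (nat_lit 7) 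
(.lf (nat_lit 21406038) (dlOf (nat_lit 1) (nat_lit 0x80028a34d01))) 
(.lf (nat_lit 134619606) (dlOf (nat_lit 2) (nat_lit 0x5a03b0004e018090a80)))) (.nd (nat_lit 27) 
(.lf (nat_lit 4362478038) (dlOf (nat_lit 2) (nat_lit 0x1003300000018090a80))) (.nd (nat_lit 28) 
(.lf (nat_lit 201728470) (dlOf (nat_lit 2) (nat_lit 0x5a03b0004d818090a80))) 
(.lf (nat_lit 4228260310) (dlOf (nat_lit 2) (nat_lit 0x1003200000018090a80))))))) (.nd (nat_lit 7) 
(.nd (nat_lit 8) (.nd (nat_lit 15) (.nd (nat_lit 20) 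
(.lf (nat_lit 42868822) (dlOf (nat_lit 1) (nat_lit 0x400400020009280802))) 
(.lf (nat_lit 2753437782) (dlOf (nat_lit 1) (nat_lit 0x100028090001)))) 
(.lf (nat_lit 47095894) (dlOf (nat_lit 1) (nat_lit 0x580080024002002800093a0703)))) 
(.nd (nat_lit 10) 
(.lf (nat_lit 2752389462) (dlOf (nat_lit 1) (nat_lit 0x10008002400200080008014e03))) 
(.lf (nat_lit 19807574) (dlOf (nat_lit 1) (nat_lit 0x400289dc901))))) (.nd (nat_lit 29) 
(.nd (nat_lit 10) (.lf (nat_lit 1410212054) (dlOf (nat_lit 2) (nat_lit 0x58000000e68181b0480))) 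
(.lf (nat_lit 19807446) (dlOf (nat_lit 1) (nat_lit 0x200289dc381)))) (.nd (nat_lit 15) 
(.lf (nat_lit 537796822) (dlOf (nat_lit 2) (nat_lit 0x58000000e68181b0480))) 
(.lf (nat_lit 537829590) (dlOf (nat_lit 1) (nat_lit 0x60002001600081b0482)))))))) (.nd (nat_lit 15) 
(.nd (nat_lit 18) (.nd (nat_lit 25) (.nd (nat_lit 26) (.nd (nat_lit 7) (.nd (nat_lit 8) 
(.lf (nat_lit 1610753622) (dlOf (nat_lit 1) (nat_lit 0x8008000400200020008093883))) 
(.lf (nat_lit 3355583318) (dlOf (nat_lit 2) (nat_lit 0x501700007c080088008000c002001c00080a2503)))) 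
(.nd (nat_lit 10) (.lf (nat_lit 5773599702) (dlOf (nat_lit 1) (nat_lit 0xc00280e2881))) 
(.lf (nat_lit 537012182) (dlOf (nat_lit 3) (nat_lit 0xb805f0000801005e02f80003808016000800f000200040008004503))))) 
(.nd (nat_lit 8) 
(.lf (nat_lit 2617385686) (dlOf (nat_lit 2) (nat_lit 0x501580007c080088008000c002001c00080a2083))) 
(.nd (nat_lit 27) 
(.lf (nat_lit 1677861846) (dlOf (nat_lit 1) (nat_lit 0x48008002400200120008112883))) 
(.lf (nat_lit 201466838) (dlOf (nat_lit 1) (nat_lit 0x20018002881)))))) (.nd (nat_lit 19) 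
(.nd (nat_lit 21) (.nd (nat_lit 22) 
(.lf (nat_lit 34743254) (dlOf (nat_lit 1) (nat_lit 0x38800400300008fb2882))) 
(.lf (nat_lit 38937558) (dlOf (nat_lit 1) (nat_lit 0x20019192881)))) 
(.lf (nat_lit 57811926) (dlOf (nat_lit 1) (nat_lit 0x20029792881)))) (.nd (nat_lit 21) 
(.lf (nat_lit 38413270) (dlOf (nat_lit 1) (nat_lit 0x20019132881))) 
(.lf (nat_lit 40510422) (dlOf (nat_lit 1) (nat_lit 0x180080008002000800091f2883)))))) 
(.nd (nat_lit 7) (.nd (nat_lit 8) (.nd (nat_lit 20) 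
(.lf (nat_lit 44968534) (dlOf (nat_lit 1) (nat_lit 0x20019325301))) 
(.lf (nat_lit 58600022) (dlOf (nat_lit 2) (nat_lit 0x94cb800064080008008002c002000400097e5303)))) 
(.lf (nat_lit 4094569302) (dlOf (nat_lit 1) (nat_lit 0x1000200040008055c02)))) (.nd (nat_lit 19) 
(.nd (nat_lit 21) (.nd (nat_lit 22) 
(.lf (nat_lit 2886083542) (dlOf (nat_lit 1) (nat_lit 0x20028142881))) 
(.lf (nat_lit 38151126) (dlOf (nat_lit 1) (nat_lit 0x20019132881)))) 
(.lf (nat_lit 1009132502) (dlOf (nat_lit 1) (nat_lit 0xc0019082881)))) (.nd (nat_lit 20) 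
(.lf (nat_lit 70132694) (dlOf (nat_lit 1) (nat_lit 0x1800400020008f42882))) 
(.lf (nat_lit 473834454) (dlOf (nat_lit 1) (nat_lit 0x120018fa2881))))))) (.nd (nat_lit 25) 
(.nd (nat_lit 18) (.nd (nat_lit 7) (.nd (nat_lit 8) 
(.lf (nat_lit 1344449110) (dlOf (nat_lit 1) (nat_lit 0x20018805301))) (.nd (nat_lit 12) 
(.lf (nat_lit 738372438) (dlOf (nat_lit 3) (nat_lit 0x280b4001cc020006068000701f8007101001e8008005400200140008095c03))) 
(.lf (nat_lit 805485398) (dlOf (nat_lit 1) (nat_lit 0x7000800180020014000811bc83))))) 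
(.nd (nat_lit 27) 
(.lf (nat_lit 1677894614) (dlOf (nat_lit 1) (nat_lit 0x30008004800200060008112883))) 
(.lf (nat_lit 3959595990) (dlOf (nat_lit 1) (nat_lit 0x800400020018112882))))) (.nd (nat_lit 7) 
(.nd (nat_lit 26) 
(.lf (nat_lit 1344711254) (dlOf (nat_lit 3) (nat_lit 0x182cc0002e02000c1680000f818985300))) 
(.nd (nat_lit 27) (.lf (nat_lit 69642838) (dlOf (nat_lit 1) (nat_lit 0x100008b95301))) 
(.lf (nat_lit 472296022) (dlOf (nat_lit 3) (nat_lit 0x602e0001701000b05e0000808c0000c0801c4004000a0008985302))))) 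
(.nd (nat_lit 10) (.lf (nat_lit 3492717526) (dlOf (nat_lit 1) (nat_lit 0x4002000200080f2882))) 
(.lf (nat_lit 2751899606) (dlOf (nat_lit 3) (nat_lit 0x1d0440000400801d82200001c040060002000c0008004502)))))) 
(.nd (nat_lit 24) (.nd (nat_lit 19) (.nd (nat_lit 7) 
(.lf (nat_lit 44477014) (dlOf (nat_lit 1) (nat_lit 0x20019325301))) 
(.lf (nat_lit 38970326) (dlOf (nat_lit 1) (nat_lit 0x8008000c00200020009192883)))) 
(.nd (nat_lit 20) (.nd (nat_lit 21) 
(.lf (nat_lit 38446038) (dlOf (nat_lit 1) (nat_lit 0x20019132881))) 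
(.lf (nat_lit 36348886) (dlOf (nat_lit 1) (nat_lit 0x40019072881)))) 
(.lf (nat_lit 43688918) (dlOf (nat_lit 1) (nat_lit 0x98008004c002001600092a2883))))) 
(.nd (nat_lit 18) (.nd (nat_lit 19) 
(.lf (nat_lit 50504662) (dlOf (nat_lit 1) (nat_lit 0x80080004002000200094c2883))) (.nd (nat_lit 21) 
(.lf (nat_lit 55223254) (dlOf (nat_lit 1) (nat_lit 0x200296d2881))) 
(.lf (nat_lit 53126102) (dlOf (nat_lit 1) (nat_lit 0x20029572881))))) 
(.lf (nat_lit 60728278) (dlOf (nat_lit 1) (nat_lit 0x400198c2881))))))))) (.nd (nat_lit 15) 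
(.nd (nat_lit 18) (.nd (nat_lit 30) (.nd (nat_lit 6) (.nd (nat_lit 19) (.nd (nat_lit 10) 
(.nd (nat_lit 22) (.nd (nat_lit 9) (.nd (nat_lit 28) 
(.lf (nat_lit 2684493878) (dlOf (nat_lit 1) (nat_lit 0x400200020008070782))) 
(.lf (nat_lit 4563542070) (dlOf (nat_lit 2) (nat_lit 0x10178000000806780080128002004e0008090003)))) 
(.lf (nat_lit 11674166) (dlOf (nat_lit 1) (nat_lit 0x580080004002001400086c0f83)))) 
(.nd (nat_lit 24) (.lf (nat_lit 12722230) (dlOf (nat_lit 1) (nat_lit 0x600186e0b01))) 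
(.lf (nat_lit 29499446) (dlOf (nat_lit 1) (nat_lit 0xc0018e10881))))) (.nd (nat_lit 7) 
(.nd (nat_lit 8) (.lf (nat_lit 4697761334) (dlOf (nat_lit 1) (nat_lit 0x1bc00400120008093782))) 
(.lf (nat_lit 805449014) (dlOf (nat_lit 1) (nat_lit 0x580028116881)))) 
(.lf (nat_lit 6576811190) (dlOf (nat_lit 1) (nat_lit 0x400400020008146282))))) (.nd (nat_lit 26) 
(.nd (nat_lit 8) (.nd (nat_lit 22) 
(.lf (nat_lit 537534518) (dlOf (nat_lit 1) (nat_lit 0xc002000c00080a0a82))) 
(.lf (nat_lit 21635126) (dlOf (nat_lit 6) (nat_lit 0x18145000709c800384d0002c1d20067e08001e14500100a1000184e4002c26800140e9002ca85000109c800604d000301d20059406000c145000b09c800784d000381d20059308000c145000909c800504d000301d20059208001a0008a51001)))) 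
(.lf (nat_lit 670518) (dlOf (nat_lit 2) (nat_lit 0x28194016080400080040004001800bc82)))) 
(.nd (nat_lit 21) (.lf (nat_lit 3154780214) (dlOf (nat_lit 1) (nat_lit 0x20008321081))) 
(.lf (nat_lit 2754224182) (dlOf (nat_lit 3) (nat_lit 0xc886800b43ae001d104002421a00240eb8002070c0039e0c0018004008200180d0b82)))))) 
(.nd (nat_lit 10) (.nd (nat_lit 8) (.nd (nat_lit 7) 
(.lf (nat_lit 4831977590) (dlOf (nat_lit 1) (nat_lit 0x400400020008061f02))) (.nd (nat_lit 21) 
(.lf (nat_lit 13770998) (dlOf (nat_lit 1) (nat_lit 0xc0028750701))) 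
(.lf (nat_lit 28451062) (dlOf (nat_lit 1) (nat_lit 0x220028da0601))))) (.nd (nat_lit 11) 
(.lf (nat_lit 3154256374) (dlOf (nat_lit 1) (nat_lit 0x20018137401))) 
(.lf (nat_lit 537016822) (dlOf (nat_lit 1) (nat_lit 0x260008000400201ca000800b283))))) 
(.nd (nat_lit 7) (.nd (nat_lit 9) 
(.lf (nat_lit 805453174) (dlOf (nat_lit 1) (nat_lit 0x880080050002000e000811c903))) 
(.lf (nat_lit 537012086) (dlOf (nat_lit 1) (nat_lit 0xa0008004081)))) (.nd (nat_lit 19) 
(.nd (nat_lit 26) (.lf (nat_lit 6442591990) (dlOf (nat_lit 1) (nat_lit 0xdc002002a00080f3b82))) 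
(.lf (nat_lit 201467638) (dlOf (nat_lit 2) (nat_lit 0x34082000470200040018003b81)))) 
(.lf (nat_lit 8005366) (dlOf (nat_lit 1) (nat_lit 0x80018513b81))))))) (.nd (nat_lit 26) 
(.nd (nat_lit 28) (.nd (nat_lit 6) (.nd (nat_lit 7) (.nd (nat_lit 10) 
(.lf (nat_lit 1073881654) (dlOf (nat_lit 2) (nat_lit 0x780a40000004003800400220008018b02))) 
(.lf (nat_lit 1610753590) (dlOf (nat_lit 1) (nat_lit 0x20018093781)))) 
(.lf (nat_lit 3221367222) (dlOf (nat_lit 2) (nat_lit 0x1f003802e7c04003000400200008114e82)))) 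
(.nd (nat_lit 9) (.lf (nat_lit 5905721462) (dlOf (nat_lit 1) (nat_lit 0x20008144781))) 
(.lf (nat_lit 3355588214) (dlOf (nat_lit 1) (nat_lit 0x2200180a9d01))))) (.nd (nat_lit 7) 
(.nd (nat_lit 19) (.nd (nat_lit 27) 
(.lf (nat_lit 4026671158) (dlOf (nat_lit 2) (nat_lit 0x9301000017c080030008003c00200b60008020683))) 
(.lf (nat_lit 2013405238) (dlOf (nat_lit 1) (nat_lit 0x40018051001)))) 
(.lf (nat_lit 3492421686) (dlOf (nat_lit 3) (nat_lit 0xc881400b438a001d104002420500240e2800206b80039e0c0018004008200180d0b82)))) 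
(.nd (nat_lit 6) (.lf (nat_lit 5637285302) (dlOf (nat_lit 1) (nat_lit 0x4400280d3601))) 
(.nd (nat_lit 9) (.lf (nat_lit 5637285366) (dlOf (nat_lit 1) (nat_lit 0x8004000200080d3682))) 
(.lf (nat_lit 1881809910) (dlOf (nat_lit 1) (nat_lit 0x400400020019042882))))))) (.nd (nat_lit 6) 
(.nd (nat_lit 28) (.nd (nat_lit 11) (.nd (nat_lit 31) 
(.lf (nat_lit 1140990006) (dlOf (nat_lit 1) (nat_lit 0x40018051001))) 
(.lf (nat_lit 3288473654) (dlOf (nat_lit 2) (nat_lit 0x9301000017c080030008003c00200b60008020683)))) 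
(.lf (nat_lit 1677867062) (dlOf (nat_lit 1) (nat_lit 0x1600080044002000c000811a603)))) 
(.nd (nat_lit 9) (.nd (nat_lit 20) 
(.lf (nat_lit 1409949750) (dlOf (nat_lit 1) (nat_lit 0x20008001c002001800080a0b83))) 
(.lf (nat_lit 4095352886) (dlOf (nat_lit 1) (nat_lit 0x400400020008090482)))) 
(.lf (nat_lit 5838614070) (dlOf (nat_lit 1) (nat_lit 0x480080158002001400080f7183))))) 
(.nd (nat_lit 7) 
(.lf (nat_lit 1409427830) (dlOf (nat_lit 2) (nat_lit 0x402f805100080048008001400200100008004e83))) 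
(.nd (nat_lit 8) (.lf (nat_lit 3556911862) (dlOf (nat_lit 1) (nat_lit 0x3400180d5a01))) 
(.nd (nat_lit 10) 
(.lf (nat_lit 1677867510) (dlOf (nat_lit 1) (nat_lit 0x880080050002000e000811b283))) 
(.lf (nat_lit 1543646710) (dlOf (nat_lit 1) (nat_lit 0x2c00200020008146f82))))))))) 
(.nd (nat_lit 7) (.nd (nat_lit 28) (.nd (nat_lit 19) (.nd (nat_lit 8) (.nd (nat_lit 9) 
(.lf (nat_lit 54927414) (dlOf (nat_lit 1) (nat_lit 0x100009670481))) (.nd (nat_lit 26) 
(.lf (nat_lit 134619702) (dlOf (nat_lit 3) (nat_lit 0x6e8108036c08201b003e00cb01c800500d0020c060000110c022e04300fc020807000fc03dc07a01de03a00e201c006d00d40368066010e03000da0098000005002b8008064000208a60008090f83))) 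
(.lf (nat_lit 201728566) (dlOf (nat_lit 3) (nat_lit 0x6e8108036c08201b003e00cb01c800500d0020c060000120c022e04300fc020807000fc03dc07a01de03a00e201c006d00d40368066010e03000da0098000005002b8008064000208a60008090f83))))) 
(.nd (nat_lit 6) (.lf (nat_lit 2886084406) (dlOf (nat_lit 1) (nat_lit 0x400400b00008143e02))) 
(.lf (nat_lit 1745234294) (dlOf (nat_lit 1) (nat_lit 0x7400280e4e81))))) (.nd (nat_lit 20) 
(.nd (nat_lit 6) (.nd (nat_lit 22) 
(.lf (nat_lit 925750) (dlOf (nat_lit 1) (nat_lit 0x2000200060008030d02))) 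
(.lf (nat_lit 21897270) (dlOf (nat_lit 1) (nat_lit 0x1400400020008a80d02)))) 
(.lf (nat_lit 53354614) (dlOf (nat_lit 1) (nat_lit 0x1800295a0b01)))) (.nd (nat_lit 9) 
(.lf (nat_lit 43918390) (dlOf (nat_lit 1) (nat_lit 0x4004000200092a2882))) 
(.lf (nat_lit 2753438262) (dlOf (nat_lit 1) (nat_lit 0x20028090f81)))))) (.nd (nat_lit 26) 
(.nd (nat_lit 30) (.nd (nat_lit 27) 
(.lf (nat_lit 4563804214) (dlOf (nat_lit 5) (nat_lit 0x80d4005c052002e027000901080008064009cc14002c05200220270027282000601a800100a4000404e00060210026a04000b01480134c08012800800ac002001800080e1003))) 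
(.lf (nat_lit 4698021942) (dlOf (nat_lit 5) (nat_lit 0x80d4005c052002e027000901080008064014f614002c05200220270053d02000601a800100a4000404e00060210053484000b0148029a008012800800ac002001800080e1003)))) 
(.nd (nat_lit 6) (.nd (nat_lit 9) 
(.lf (nat_lit 5637546038) (dlOf (nat_lit 2) (nat_lit 0x10013000f9018100480))) 
(.lf (nat_lit 3491635766) (dlOf (nat_lit 1) (nat_lit 0x20028090f81)))) 
(.lf (nat_lit 3490064758) (dlOf (nat_lit 1) (nat_lit 0xc00200020008004e82))))) (.nd (nat_lit 29) 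
(.nd (nat_lit 20) 
(.lf (nat_lit 2617647158) (dlOf (nat_lit 1) (nat_lit 0x200008001c002003c0008130783))) 
(.lf (nat_lit 471212086) (dlOf (nat_lit 1) (nat_lit 0x20004001200082c0882)))) (.nd (nat_lit 6) 
(.lf (nat_lit 6241525814) (dlOf (nat_lit 2) (nat_lit 0x10012000f9818100480))) 
(.lf (nat_lit 6376270198) (dlOf (nat_lit 1) (nat_lit 0x400400020008094e82))))))) (.nd (nat_lit 6) 
(.nd (nat_lit 19) (.nd (nat_lit 26) 
(.lf (nat_lit 134619574) (dlOf (nat_lit 8) (nat_lit 0x940760012202004803b0009081002401d8004780801200ec002380400900760011b02004803b0008d01002401d800458080038008002c002002e0008090803))) 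
(.nd (nat_lit 27) 
(.lf (nat_lit 4362478006) (dlOf (nat_lit 2) (nat_lit 0x4280cc0000004002400200100008090802))) 
(.nd (nat_lit 28) 
(.lf (nat_lit 201728438) (dlOf (nat_lit 8) (nat_lit 0x940760012102004803b0009001002401d8004780801200ec002380400900760011b02004803b0008d01002401d800458080038008002c002002e0008090803))) 
(.lf (nat_lit 4228260278) (dlOf (nat_lit 2) (nat_lit 0x4280c80000004002400200100008090802)))))) 
(.nd (nat_lit 8) (.nd (nat_lit 9) 
(.lf (nat_lit 1344155830) (dlOf (nat_lit 1) (nat_lit 0x9400283d7e81))) 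
(.lf (nat_lit 6376270518) (dlOf (nat_lit 1) (nat_lit 0x400400020008095702)))) (.nd (nat_lit 10) 
(.lf (nat_lit 2752389558) (dlOf (nat_lit 1) (nat_lit 0x2c004001c0008017782))) 
(.lf (nat_lit 19803574) (dlOf (nat_lit 1) (nat_lit 0x400289d6d01)))))) (.nd (nat_lit 8) 
(.nd (nat_lit 32) (.nd (nat_lit 19) 
(.lf (nat_lit 3547382) (dlOf (nat_lit 1) (nat_lit 0x338008038c00202060008200483))) 
(.lf (nat_lit 1343103222) (dlOf (nat_lit 1) (nat_lit 0x8008000400200020008150703)))) 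
(.nd (nat_lit 27) (.lf (nat_lit 4295368950) (dlOf (nat_lit 1) (nat_lit 0x2600181a0481))) 
(.lf (nat_lit 4429586678) (dlOf (nat_lit 1) (nat_lit 0x2600181a0481))))) (.nd (nat_lit 9) 
(.nd (nat_lit 26) (.lf (nat_lit 134619638) (dlOf (nat_lit 1) (nat_lit 0x40018090d81))) 
(.lf (nat_lit 201728502) (dlOf (nat_lit 1) (nat_lit 0x40018090d81)))) (.nd (nat_lit 19) 
(.lf (nat_lit 5773861878) (dlOf (nat_lit 1) (nat_lit 0x600080e2881))) 
(.lf (nat_lit 34481142) (dlOf (nat_lit 1) (nat_lit 0x20008fb2881))))))))) (.nd (nat_lit 28) 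
(.nd (nat_lit 29) (.nd (nat_lit 8) (.nd (nat_lit 24) (.nd (nat_lit 26) (.nd (nat_lit 18) 
(.nd (nat_lit 19) (.lf (nat_lit 2147655734) (dlOf (nat_lit 1) (nat_lit 0x4004001200080b0482))) 
(.lf (nat_lit 3221921846) (dlOf (nat_lit 3) (nat_lit 0x24405e00df6020002040004c60181b0780)))) 
(.lf (nat_lit 1074176054) (dlOf (nat_lit 3) (nat_lit 0x36027000e881001301380073c0800200080038002002400080d0b83)))) 
(.nd (nat_lit 7) (.lf (nat_lit 1275240502) (dlOf (nat_lit 1) (nat_lit 0x4004001200080b0482))) 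
(.lf (nat_lit 1141025462) (dlOf (nat_lit 1) (nat_lit 0x400400020008095702))))) (.nd (nat_lit 18) 
(.nd (nat_lit 6) (.nd (nat_lit 10) 
(.lf (nat_lit 29532214) (dlOf (nat_lit 2) (nat_lit 0x38a680000e818e10880))) 
(.lf (nat_lit 33203254) (dlOf (nat_lit 1) (nat_lit 0x140018f52881)))) 
(.lf (nat_lit 20099830) (dlOf (nat_lit 1) (nat_lit 0x4004000200089d8f82)))) (.nd (nat_lit 6) 
(.nd (nat_lit 7) 
(.lf (nat_lit 26648630) (dlOf (nat_lit 2) (nat_lit 0x588d0002ad60005501000180080020002001a0008c50483))) 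
(.lf (nat_lit 21405878) (dlOf (nat_lit 1) (nat_lit 0x40028a31701)))) 
(.lf (nat_lit 21405814) (dlOf (nat_lit 1) (nat_lit 0x500018a30b01)))))) (.nd (nat_lit 21) 
(.nd (nat_lit 6) (.nd (nat_lit 10) (.nd (nat_lit 22) 
(.lf (nat_lit 4362510646) (dlOf (nat_lit 1) (nat_lit 0x10008001800200040008090583))) 
(.lf (nat_lit 21406006) (dlOf (nat_lit 1) (nat_lit 0x8008000400200020008a34c03)))) 
(.lf (nat_lit 8566070) (dlOf (nat_lit 1) (nat_lit 0x400200020008519902)))) (.nd (nat_lit 7) 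
(.lf (nat_lit 1141025142) (dlOf (nat_lit 1) (nat_lit 0x400400020008094e82))) 
(.lf (nat_lit 34513910) (dlOf (nat_lit 1) (nat_lit 0x20008fb2881))))) (.nd (nat_lit 7) 
(.nd (nat_lit 9) (.lf (nat_lit 11706678) (dlOf (nat_lit 1) (nat_lit 0x200086c0581))) 
(.lf (nat_lit 20097846) (dlOf (nat_lit 1) (nat_lit 0x4002000200089d5c02)))) (.nd (nat_lit 6) 
(.lf (nat_lit 49981878) (dlOf (nat_lit 1) (nat_lit 0x1600094c4e81))) 
(.lf (nat_lit 35824630) (dlOf (nat_lit 1) (nat_lit 0x20019012881))))))) (.nd (nat_lit 8) 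
(.nd (nat_lit 26) (.nd (nat_lit 7) (.nd (nat_lit 12) 
(.lf (nat_lit 2819006518) (dlOf (nat_lit 2) (nat_lit 0xd9c0e403aa03f000e6828150480))) 
(.lf (nat_lit 3892490294) (dlOf (nat_lit 2) (nat_lit 0x402380014c080018008001400200080008157c83)))) 
(.nd (nat_lit 6) (.nd (nat_lit 9) 
(.lf (nat_lit 537829558) (dlOf (nat_lit 2) (nat_lit 0xc0308000b80800180080014002001800081b0383))) 
(.lf (nat_lit 1745005238) (dlOf (nat_lit 1) (nat_lit 0x20028095701)))) 
(.lf (nat_lit 3758274806) (dlOf (nat_lit 1) (nat_lit 0x4c002812a981))))) (.nd (nat_lit 18) 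
(.nd (nat_lit 19) 
(.lf (nat_lit 4899119158) (dlOf (nat_lit 1) (nat_lit 0x40008009c00200260008080483))) 
(.nd (nat_lit 21) 
(.lf (nat_lit 3960119350) (dlOf (nat_lit 3) (nat_lit 0x24405e00952020002040001f90181b0780))) 
(.lf (nat_lit 2754256950) (dlOf (nat_lit 3) (nat_lit 0x16092801443fa001d104004c24a00490fe80073c10007000800b8002004e00080d0b83))))) 
(.nd (nat_lit 7) (.lf (nat_lit 2756091958) (dlOf (nat_lit 1) (nat_lit 0x4004000200181f1382))) 
(.lf (nat_lit 738631862) (dlOf (nat_lit 2) (nat_lit 0x2009a000e302004c00180c1701)))))) 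
(.nd (nat_lit 7) (.nd (nat_lit 6) (.nd (nat_lit 9) 
(.lf (nat_lit 2886115638) (dlOf (nat_lit 4) (nat_lit 0x4a4026004c202029a01300260810011020000000080070008000400200320008154c03))) 
(.lf (nat_lit 2751899446) (dlOf (nat_lit 1) (nat_lit 0xc8008005000200380008003e03)))) 
(.nd (nat_lit 9) (.nd (nat_lit 26) 
(.lf (nat_lit 1611047286) (dlOf (nat_lit 1) (nat_lit 0x200280c5801))) 
(.lf (nat_lit 738632054) (dlOf (nat_lit 1) (nat_lit 0x200280c5801)))) 
(.lf (nat_lit 1677895542) (dlOf (nat_lit 3) (nat_lit 0x201300007010004029800020080050008001c00200080008114083))))) 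
(.nd (nat_lit 18) (.nd (nat_lit 6) 
(.lf (nat_lit 5905754038) (dlOf (nat_lit 1) (nat_lit 0x400400020008144382))) 
(.lf (nat_lit 3959601654) (dlOf (nat_lit 1) (nat_lit 0x2001811b281)))) (.nd (nat_lit 26) 
(.lf (nat_lit 537305590) (dlOf (nat_lit 1) (nat_lit 0x20028090d81))) 
(.lf (nat_lit 2886115830) (dlOf (nat_lit 3) (nat_lit 0x4a01b801500d400a8014008e0000001784004b01b801b00d401040000002d0600040008157e01)))))))) 
(.nd (nat_lit 6) (.nd (nat_lit 29) (.nd (nat_lit 18) (.nd (nat_lit 9) (.nd (nat_lit 7) 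
(.nd (nat_lit 19) (.lf (nat_lit 1476567094) (dlOf (nat_lit 1) (nat_lit 0x400200020008050482))) 
(.lf (nat_lit 3492454454) (dlOf (nat_lit 3) (nat_lit 0x1608c801443d6001d104004c23200490f580073c10007000800b8002004e00080d0b83)))) 
(.lf (nat_lit 1409465526) (dlOf (nat_lit 1) (nat_lit 0x2000800c201)))) (.nd (nat_lit 8) 
(.lf (nat_lit 1342349878) (dlOf (nat_lit 1) (nat_lit 0x8008000400200020008018103))) 
(.lf (nat_lit 1409465142) (dlOf (nat_lit 1) (nat_lit 0x480040008000800bc82))))) (.nd (nat_lit 7) 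
(.nd (nat_lit 8) (.nd (nat_lit 9) 
(.lf (nat_lit 3494289462) (dlOf (nat_lit 1) (nat_lit 0x4004000200181f1302))) 
(.lf (nat_lit 472295990) (dlOf (nat_lit 1) (nat_lit 0x20028985181)))) 
(.lf (nat_lit 3624313142) (dlOf (nat_lit 4) (nat_lit 0x4a402800a5702029a0140052b010011020000000080070008000400200320008154c03)))) 
(.nd (nat_lit 8) 
(.lf (nat_lit 1344709814) (dlOf (nat_lit 2) (nat_lit 0x2850c000000400bc004000a0008982c82))) 
(.lf (nat_lit 472295862) (dlOf (nat_lit 1) (nat_lit 0x400400020008984e82)))))) (.nd (nat_lit 27) 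
(.nd (nat_lit 8) (.nd (nat_lit 7) (.nd (nat_lit 18) 
(.lf (nat_lit 4095385654) (dlOf (nat_lit 2) (nat_lit 0x40860026a0180a1000))) 
(.lf (nat_lit 1946591286) (dlOf (nat_lit 3) (nat_lit 0x36027000e881001301380073c0800200080038002002400080d0b83)))) 
(.lf (nat_lit 805485750) (dlOf (nat_lit 1) (nat_lit 0x500020010000811c202)))) (.nd (nat_lit 9) 
(.lf (nat_lit 4094337334) (dlOf (nat_lit 1) (nat_lit 0x400400020008047b02))) 
(.lf (nat_lit 805485366) (dlOf (nat_lit 5) (nat_lit 0x1e004c0160204003c02600b000200140130057f01000b029802b680803780080318002002c000811bc83))))) 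
(.nd (nat_lit 9) (.nd (nat_lit 7) (.nd (nat_lit 8) 
(.lf (nat_lit 3154812982) (dlOf (nat_lit 3) (nat_lit 0xdc047000a022001b010800280820002908007600700013818330c00))) 
(.lf (nat_lit 4228292918) (dlOf (nat_lit 1) (nat_lit 0x10008001800200040008090583)))) 
(.lf (nat_lit 3154292918) (dlOf (nat_lit 1) (nat_lit 0x400200020008157e82)))) (.nd (nat_lit 10) 
(.lf (nat_lit 4228031030) (dlOf (nat_lit 2) (nat_lit 0x760000007a818018100))) 
(.lf (nat_lit 2013439542) (dlOf (nat_lit 1) (nat_lit 0x20018093781))))))) (.nd (nat_lit 8) 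
(.nd (nat_lit 10) (.nd (nat_lit 7) (.nd (nat_lit 26) 
(.lf (nat_lit 5773369462) (dlOf (nat_lit 1) (nat_lit 0x800180c0b01))) 
(.lf (nat_lit 6377349238) (dlOf (nat_lit 1) (nat_lit 0x800180c0b01)))) (.nd (nat_lit 18) 
(.lf (nat_lit 4094337270) (dlOf (nat_lit 1) (nat_lit 0x400200040008046f02))) (.nd (nat_lit 26) 
(.lf (nat_lit 1344184566) (dlOf (nat_lit 1) (nat_lit 0x980080030002008e0008490483))) 
(.lf (nat_lit 471769334) (dlOf (nat_lit 1) (nat_lit 0x980080030002008e0008490483)))))) 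
(.nd (nat_lit 27) (.nd (nat_lit 7) 
(.lf (nat_lit 5637318262) (dlOf (nat_lit 1) (nat_lit 0x4002000200080d3982))) 
(.lf (nat_lit 872588534) (dlOf (nat_lit 1) (nat_lit 0x4004001a0008092e82)))) (.nd (nat_lit 32) 
(.lf (nat_lit 402826486) (dlOf (nat_lit 1) (nat_lit 0x18008000400200020008092e83))) 
(.lf (nat_lit 4697793782) (dlOf (nat_lit 2) (nat_lit 0x81080005204000400200020008092e82)))))) 
(.nd (nat_lit 7) (.nd (nat_lit 21) (.nd (nat_lit 10) (.nd (nat_lit 27) 
(.lf (nat_lit 335718774) (dlOf (nat_lit 1) (nat_lit 0x20028094e81))) 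
(.lf (nat_lit 1543678326) (dlOf (nat_lit 1) (nat_lit 0x100028144e81)))) 
(.lf (nat_lit 5637318006) (dlOf (nat_lit 1) (nat_lit 0x1d400180d3501)))) (.nd (nat_lit 18) 
(.lf (nat_lit 472033654) (dlOf (nat_lit 1) (nat_lit 0x20028804e81))) 
(.lf (nat_lit 1345235318) (dlOf (nat_lit 1) (nat_lit 0x8008003000200020008b04e83))))) 
(.nd (nat_lit 10) (.nd (nat_lit 9) (.nd (nat_lit 12) 
(.lf (nat_lit 1409720822) (dlOf (nat_lit 1) (nat_lit 0x20028090d81))) 
(.lf (nat_lit 3154293238) (dlOf (nat_lit 1) (nat_lit 0x20028158681)))) 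
(.lf (nat_lit 1881842678) (dlOf (nat_lit 1) (nat_lit 0x1000290a2881)))) (.nd (nat_lit 22) 
(.lf (nat_lit 2013439478) (dlOf (nat_lit 1) (nat_lit 0x800800ac00200680008093683))) 
(.lf (nat_lit 474129910) (dlOf (nat_lit 1) (nat_lit 0x200290e3681))))))))))))

end

end Pool.Agent.Lib.MP_5854e1_co.Cz

namespace Pool.Agent.Lib.MP_5854e1_co.Cz

noncomputable section

noncomputable def tz203 : DT := (.nd (nat_lit 17) (.nd (nat_lit 15) (.nd (nat_lit 18) 
(.nd (nat_lit 7) (.nd (nat_lit 19) (.nd (nat_lit 8) (.nd (nat_lit 5) (.nd (nat_lit 10) 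
(.nd (nat_lit 6) (.nd (nat_lit 20) (.nd (nat_lit 9) 
(.lf (nat_lit 1344348182) (dlOf (nat_lit 1) (nat_lit 0x380028740001))) 
(.lf (nat_lit 3355517462) (dlOf (nat_lit 1) (nat_lit 0x800180a1481)))) (.nd (nat_lit 24) 
(.lf (nat_lit 13705238) (dlOf (nat_lit 1) (nat_lit 0x20018740281))) 
(.lf (nat_lit 30482454) (dlOf (nat_lit 1) (nat_lit 0x400400020018e30002))))) (.nd (nat_lit 21) 
(.lf (nat_lit 16851030) (dlOf (nat_lit 13) (nat_lit 0x438d40002802001dc6a0001301000ee3500007c08006f1a800378b00001d04000fc6a0004df600006010004f1a8000260400438d40001002001fc6a00006010006e3500001408004f1a80000404002b8d400001020011c6a0007e2c0007efb0000000c0058002000400088e0302))) 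
(.nd (nat_lit 22) (.lf (nat_lit 44114006) (dlOf (nat_lit 1) (nat_lit 0x400192c0701))) 
(.lf (nat_lit 14753878) (dlOf (nat_lit 1) (nat_lit 0x20028770781)))))) (.nd (nat_lit 9) 
(.nd (nat_lit 11) 
(.lf (nat_lit 5503001622) (dlOf (nat_lit 1) (nat_lit 0x8008000400200020008002883))) 
(.nd (nat_lit 20) (.lf (nat_lit 5234568214) (dlOf (nat_lit 1) (nat_lit 0x20018055f81))) 
(.lf (nat_lit 19999766) (dlOf (nat_lit 1) (nat_lit 0x200289d5f81))))) (.nd (nat_lit 6) 
(.lf (nat_lit 469843478) (dlOf (nat_lit 1) (nat_lit 0x18002800ce81))) 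
(.lf (nat_lit 1610688086) (dlOf (nat_lit 1) (nat_lit 0x400200020008093882)))))) (.nd (nat_lit 6) 
(.nd (nat_lit 11) (.nd (nat_lit 20) 
(.lf (nat_lit 14753846) (dlOf (nat_lit 1) (nat_lit 0x1000400100018770482))) 
(.lf (nat_lit 13705270) (dlOf (nat_lit 1) (nat_lit 0x15000200020008740782)))) (.nd (nat_lit 27) 
(.lf (nat_lit 4362156086) (dlOf (nat_lit 1) (nat_lit 0xa000800040020008000800a603))) 
(.lf (nat_lit 469841974) (dlOf (nat_lit 1) (nat_lit 0x800800040020002000800a603))))) 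
(.nd (nat_lit 9) (.lf (nat_lit 1342257270) (dlOf (nat_lit 1) (nat_lit 0x40040002001800a882))) 
(.nd (nat_lit 10) (.lf (nat_lit 3355517558) (dlOf (nat_lit 1) (nat_lit 0x364002030c00080a1902))) 
(.lf (nat_lit 2281780854) (dlOf (nat_lit 1) (nat_lit 0x80018009d01))))))) (.nd (nat_lit 6) 
(.nd (nat_lit 10) (.nd (nat_lit 5) (.nd (nat_lit 9) 
(.lf (nat_lit 3493929238) (dlOf (nat_lit 1) (nat_lit 0x200081b0481))) 
(.lf (nat_lit 5167459094) (dlOf (nat_lit 1) (nat_lit 0x20028055b81)))) (.nd (nat_lit 9) 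
(.lf (nat_lit 4563476790) (dlOf (nat_lit 1) (nat_lit 0x14002001a0008090b82))) 
(.lf (nat_lit 2617324342) (dlOf (nat_lit 1) (nat_lit 0x6000400ee00080a8f82))))) (.nd (nat_lit 27) 
(.nd (nat_lit 5) (.lf (nat_lit 2952869654) (dlOf (nat_lit 1) (nat_lit 0x1a000800a001))) 
(.lf (nat_lit 2415994678) (dlOf (nat_lit 1) (nat_lit 0x8008000400200020008003e03)))) 
(.nd (nat_lit 9) (.lf (nat_lit 402728214) (dlOf (nat_lit 1) (nat_lit 0x60018093081))) 
(.lf (nat_lit 469839638) (dlOf (nat_lit 1) (nat_lit 0x20018007481)))))) (.nd (nat_lit 26) 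
(.nd (nat_lit 10) (.nd (nat_lit 27) 
(.lf (nat_lit 805380438) (dlOf (nat_lit 2) (nat_lit 0x3e02600007018090680))) 
(.lf (nat_lit 939598166) (dlOf (nat_lit 2) (nat_lit 0x2807c00084040030004005e00080b0682)))) 
(.nd (nat_lit 9) 
(.lf (nat_lit 3892389206) (dlOf (nat_lit 1) (nat_lit 0x8008000400200020008103383))) 
(.lf (nat_lit 671164246) (dlOf (nat_lit 1) (nat_lit 0x160028143f01))))) (.nd (nat_lit 5) 
(.nd (nat_lit 27) (.lf (nat_lit 1677795670) (dlOf (nat_lit 2) (nat_lit 0x3e02600007018090680))) 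
(.lf (nat_lit 1812013398) (dlOf (nat_lit 2) (nat_lit 0x2807c00084040030004005e00080b0682)))) 
(.lf (nat_lit 738273654) (dlOf (nat_lit 1) (nat_lit 0x20028094e81))))))) (.nd (nat_lit 30) 
(.nd (nat_lit 5) (.nd (nat_lit 20) (.nd (nat_lit 26) (.nd (nat_lit 6) 
(.lf (nat_lit 805904406) (dlOf (nat_lit 3) (nat_lit 0x7c0ac002001300ad682000b02b0056b008029800800a8002002200081e0903))) 
(.lf (nat_lit 42541142) (dlOf (nat_lit 2) (nat_lit 0x6c23800080000004a08000800200520009260802)))) 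
(.nd (nat_lit 27) 
(.lf (nat_lit 4362674198) (dlOf (nat_lit 14) (nat_lit 0xc00cc02e280400240660171302003402d00af501001a0168057a40800d00b402bc204000405a015dd02003402d00aea81001a01680574c0800d00b402ba404006805a015d102003402d00a1f01001a016804f000800e811c00000040060002000400080d0902))) 
(.lf (nat_lit 738795542) (dlOf (nat_lit 3) (nat_lit 0xe055000702a000200dc000620c000806e0002f02000e0008110101))))) 
(.nd (nat_lit 10) (.nd (nat_lit 21) 
(.lf (nat_lit 22618134) (dlOf (nat_lit 2) (nat_lit 0xade20009ac0800c0008003000200020008b00503))) 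
(.lf (nat_lit 3743766) (dlOf (nat_lit 7) (nat_lit 0x6898e00484bf002225e800d12a0007092c001690a003e4bf000825e8005a010010931c007897a00364a8001b24b0000602000f131c00ac97a005c4a8002f24b00005c2000a131c009897a00564a8002824b00005820013131c00bc97a005e4a8003024b000054200240008019400200020008220583)))) 
(.lf (nat_lit 56173590) (dlOf (nat_lit 1) (nat_lit 0x8008000400200020009732883))))) 
(.nd (nat_lit 24) (.nd (nat_lit 22) (.nd (nat_lit 26) 
(.lf (nat_lit 805904438) (dlOf (nat_lit 1) (nat_lit 0x200081e1381))) 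
(.lf (nat_lit 738795574) (dlOf (nat_lit 1) (nat_lit 0x20018110681)))) (.nd (nat_lit 11) 
(.lf (nat_lit 4792374) (dlOf (nat_lit 1) (nat_lit 0x8002000200082b0482))) 
(.lf (nat_lit 7944246) (dlOf (nat_lit 1) (nat_lit 0x3c004001e001851a602))))) (.nd (nat_lit 6) 
(.nd (nat_lit 8) (.lf (nat_lit 21569590) (dlOf (nat_lit 1) (nat_lit 0x400400020008a40482))) 
(.lf (nat_lit 58270006) (dlOf (nat_lit 1) (nat_lit 0x200297d7b01)))) 
(.lf (nat_lit 21569654) (dlOf (nat_lit 1) (nat_lit 0x1800801d400200540008a40d83)))))) 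
(.nd (nat_lit 26) (.nd (nat_lit 9) (.nd (nat_lit 31) (.nd (nat_lit 5) 
(.lf (nat_lit 1611210774) (dlOf (nat_lit 3) (nat_lit 0xe055000702a000200dc000620c000806e0002f02000e0008110101))) 
(.lf (nat_lit 1611210806) (dlOf (nat_lit 1) (nat_lit 0x20018110681)))) (.nd (nat_lit 27) 
(.lf (nat_lit 3221823510) (dlOf (nat_lit 17) (nat_lit 0x1d017805d240800e80bc02e8e04009405e0174002003202f00b9d81002e0178004805002e6808001c05e0173302001202f00b9881001d017805cbc0800780bc02e4a04001805e016c802003202f00b5e81000c017805ab80800380bc02d5604001005c015ad02000c02e00ad601000201a00028078028d20804fc00401d00008190902))) 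
(.lf (nat_lit 3892912150) (dlOf (nat_lit 1) (nat_lit 0x5000400280008290882))))) (.nd (nat_lit 6) 
(.lf (nat_lit 1880695318) (dlOf (nat_lit 2) (nat_lit 0x306f8000e8080038008000400200060008b37e03))) 
(.lf (nat_lit 1345923670) (dlOf (nat_lit 1) (nat_lit 0x20028e25301))))) (.nd (nat_lit 5) 
(.nd (nat_lit 27) 
(.lf (nat_lit 1678319638) (dlOf (nat_lit 3) (nat_lit 0x7c0ac002001300b8a02000b02b005c4c08029800800a8002002200081e0903))) 
(.nd (nat_lit 28) 
(.lf (nat_lit 3960021014) (dlOf (nat_lit 17) (nat_lit 0x4017005c500800300b802e2604007405e015ea02003a02f00af48100250178057880800c80bc02bba0400b805e001201400aeb0200070178057540800480bc02ba604007405e015d102001e02f00adb0100060178055600800c80bc02a9604003005e0153b02000e02f00a9c01000201a00028078028980804fc00401d00008190902))) 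
(.lf (nat_lit 4228456470) (dlOf (nat_lit 14) (nat_lit 0xd00b002e920400680580174702003402c00b9f810001016005cec0800d00b002e660400680580173102003402c00b9801001a016005cbc0800c00c802b5a040024064015ac02003402c00a1e01001a016004edc0800e810000000040060002000400080d0902))))) 
(.nd (nat_lit 27) (.nd (nat_lit 20) 
(.lf (nat_lit 4096335926) (dlOf (nat_lit 1) (nat_lit 0x200280f0f81))) 
(.lf (nat_lit 4095287350) (dlOf (nat_lit 2) (nat_lit 0x821c0038c04000400400020018090482)))) 
(.nd (nat_lit 28) 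
(.lf (nat_lit 3960021046) (dlOf (nat_lit 1) (nat_lit 0xf0008003400200200008191303))) 
(.lf (nat_lit 4228456502) (dlOf (nat_lit 1) (nat_lit 0x4004000200080d1382))))))))) (.nd (nat_lit 8) 
(.nd (nat_lit 5) (.nd (nat_lit 26) (.nd (nat_lit 28) (.nd (nat_lit 6) (.nd (nat_lit 9) 
(.lf (nat_lit 2281780374) (dlOf (nat_lit 1) (nat_lit 0x3c0018009501))) 
(.lf (nat_lit 20001430) (dlOf (nat_lit 1) (nat_lit 0x4002000200089d8c82)))) (.nd (nat_lit 20) 
(.nd (nat_lit 29) 
(.lf (nat_lit 3221299414) (dlOf (nat_lit 2) (nat_lit 0x4e010000714080060008004800200220008090483))) 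
(.lf (nat_lit 5905653974) (dlOf (nat_lit 1) (nat_lit 0x100080004002000200080b0483)))) 
(.lf (nat_lit 3219670) (dlOf (nat_lit 1) (nat_lit 0x400200020008200482))))) (.nd (nat_lit 27) 
(.nd (nat_lit 29) 
(.lf (nat_lit 4563476694) (dlOf (nat_lit 2) (nat_lit 0x401a000014080078008002400200420008090983))) 
(.lf (nat_lit 805380310) (dlOf (nat_lit 1) (nat_lit 0x1000400180008090482)))) 
(.lf (nat_lit 939598038) (dlOf (nat_lit 7) (nat_lit 0x35004801c601f00c900d0073800000478100100048001201f003e00d0008cc1800d809000640340023104006e024002c00f800d806800f80000022f0800e80000011681000e0120008ac08001800801b0002003800080b0483))))) 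
(.nd (nat_lit 27) (.nd (nat_lit 6) (.nd (nat_lit 10) 
(.lf (nat_lit 4362152086) (dlOf (nat_lit 1) (nat_lit 0x368008001000200fe0008004803))) 
(.lf (nat_lit 1409363094) (dlOf (nat_lit 1) (nat_lit 0x400200020008006202)))) (.nd (nat_lit 29) 
(.lf (nat_lit 6509633750) (dlOf (nat_lit 1) (nat_lit 0x100080004002000200080b0483))) 
(.lf (nat_lit 1677795542) (dlOf (nat_lit 1) (nat_lit 0x1000400180008090482))))) (.nd (nat_lit 12) 
(.nd (nat_lit 31) 
(.lf (nat_lit 1812013270) (dlOf (nat_lit 7) (nat_lit 0x35004801c601f00c900d0073800000478100100048001201f003e00d0008cc1800d809000640340023104006e024002c00f800d806800f80000022f0800e80000011681000e0120008ac08001800801b0002003800080b0483))) 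
(.lf (nat_lit 3959496918) (dlOf (nat_lit 2) (nat_lit 0x4e010000714080060008004800200220008090483)))) 
(.lf (nat_lit 469840086) (dlOf (nat_lit 1) (nat_lit 0x1e0028008081)))))) (.nd (nat_lit 28) 
(.nd (nat_lit 24) (.nd (nat_lit 6) (.nd (nat_lit 26) 
(.lf (nat_lit 3221299382) (dlOf (nat_lit 3) (nat_lit 0x480000001202000a00000006818090380))) 
(.lf (nat_lit 3959496886) (dlOf (nat_lit 3) (nat_lit 0x480000001202000a00000006818090380)))) 
(.nd (nat_lit 26) (.lf (nat_lit 6576742646) (dlOf (nat_lit 1) (nat_lit 0x200080b0481))) 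
(.lf (nat_lit 5972762870) (dlOf (nat_lit 1) (nat_lit 0x200080b0481))))) (.nd (nat_lit 10) 
(.nd (nat_lit 6) (.lf (nat_lit 28909750) (dlOf (nat_lit 1) (nat_lit 0x400400020008da0482))) 
(.lf (nat_lit 16851190) (dlOf (nat_lit 3) (nat_lit 0x15c670005a81000ae338002c80800f80080028002000200088e0603)))) 
(.nd (nat_lit 9) (.lf (nat_lit 32056502) (dlOf (nat_lit 1) (nat_lit 0x36400200ce0008ef2c82))) 
(.lf (nat_lit 20002486) (dlOf (nat_lit 1) (nat_lit 0x4002000200089da002)))))) (.nd (nat_lit 19) 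
(.nd (nat_lit 12) (.nd (nat_lit 9) 
(.lf (nat_lit 4563476726) (dlOf (nat_lit 1) (nat_lit 0x800200240008090a82))) 
(.lf (nat_lit 4026607350) (dlOf (nat_lit 2) (nat_lit 0x4046000470200040008003b81)))) 
(.nd (nat_lit 6) (.lf (nat_lit 2952868022) (dlOf (nat_lit 1) (nat_lit 0x20028007e81))) 
(.lf (nat_lit 1476475126) (dlOf (nat_lit 1) (nat_lit 0x680040002000800a982))))) (.nd (nat_lit 20) 
(.nd (nat_lit 26) 
(.lf (nat_lit 1342775542) (dlOf (nat_lit 4) (nat_lit 0x211e0008ec0800a88bc0046c0400a0466002e22d00210f98007301804000080138002000200080c0483))) 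
(.lf (nat_lit 470360310) (dlOf (nat_lit 4) (nat_lit 0x211e0008ec0800a88bc0046c0400a0466002e22d00210f90007301804000080138002000200080c0483)))) 
(.lf (nat_lit 1343824118) (dlOf (nat_lit 1) (nat_lit 0x400400020008370602))))))) (.nd (nat_lit 28) 
(.nd (nat_lit 24) (.nd (nat_lit 9) (.nd (nat_lit 5) (.nd (nat_lit 6) 
(.lf (nat_lit 8463766) (dlOf (nat_lit 1) (nat_lit 0x400200020008513602))) 
(.lf (nat_lit 7943638) (dlOf (nat_lit 1) (nat_lit 0x20028519b01)))) 
(.lf (nat_lit 1610687990) (dlOf (nat_lit 1) (nat_lit 0x400400020008093682)))) (.nd (nat_lit 6) 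
(.lf (nat_lit 738274198) (dlOf (nat_lit 1) (nat_lit 0x40018095c81))) (.nd (nat_lit 27) 
(.lf (nat_lit 536945622) (dlOf (nat_lit 1) (nat_lit 0x40018002881))) 
(.lf (nat_lit 3892388822) (dlOf (nat_lit 1) (nat_lit 0xc0008102881)))))) (.nd (nat_lit 11) 
(.nd (nat_lit 9) 
(.lf (nat_lit 50930134) (dlOf (nat_lit 4) (nat_lit 0x1280000021604005b776003dbb900080820015ddd8003f40801f80080074002000a00094d7b03))) 
(.nd (nat_lit 19) (.lf (nat_lit 56697814) (dlOf (nat_lit 1) (nat_lit 0xc00200020009732882))) 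
(.lf (nat_lit 56173526) (dlOf (nat_lit 1) (nat_lit 0x20029732881))))) (.nd (nat_lit 5) 
(.nd (nat_lit 6) (.lf (nat_lit 32582038) (dlOf (nat_lit 1) (nat_lit 0x400400020008ef4e82))) 
(.lf (nat_lit 20525014) (dlOf (nat_lit 1) (nat_lit 0x4002000200089d7a82)))) (.nd (nat_lit 19) 
(.lf (nat_lit 54602742) (dlOf (nat_lit 3) (nat_lit 0xc960000449e00019020019263000000080420008006400200040009655f03))) 
(.lf (nat_lit 20524022) (dlOf (nat_lit 2) (nat_lit 0x146f8000a2a60004ee6000160389d5f00))))))) 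
(.nd (nat_lit 6) (.nd (nat_lit 5) (.nd (nat_lit 9) (.nd (nat_lit 22) 
(.lf (nat_lit 805380502) (dlOf (nat_lit 1) (nat_lit 0x100018090781))) 
(.lf (nat_lit 3493929366) (dlOf (nat_lit 1) (nat_lit 0x5000081b0781)))) (.nd (nat_lit 12) 
(.lf (nat_lit 5167459222) (dlOf (nat_lit 1) (nat_lit 0x800200020008055c82))) 
(.lf (nat_lit 4227939222) (dlOf (nat_lit 1) (nat_lit 0x3800800100020004000800bc83))))) 
(.nd (nat_lit 9) 
(.lf (nat_lit 4697694646) (dlOf (nat_lit 2) (nat_lit 0x20090005340800a0008001c002001e0008091003))) 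
(.nd (nat_lit 26) 
(.lf (nat_lit 5234568118) (dlOf (nat_lit 2) (nat_lit 0x19017000000080098008000c00200040008055d03))) 
(.lf (nat_lit 5704330166) (dlOf (nat_lit 2) (nat_lit 0x3c01900040050000441000800080018002001a0008055d03)))))) 
(.nd (nat_lit 5) (.nd (nat_lit 9) (.nd (nat_lit 19) 
(.lf (nat_lit 872489430) (dlOf (nat_lit 1) (nat_lit 0x8008000800200020008091203))) 
(.lf (nat_lit 5774057942) (dlOf (nat_lit 1) (nat_lit 0xc004000800080f7b02)))) (.nd (nat_lit 26) 
(.lf (nat_lit 4026606550) (dlOf (nat_lit 1) (nat_lit 0x120018002881))) 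
(.lf (nat_lit 4093715414) (dlOf (nat_lit 1) (nat_lit 0x40028002881))))) (.nd (nat_lit 9) 
(.lf (nat_lit 4697695734) (dlOf (nat_lit 1) (nat_lit 0x40028093681))) (.nd (nat_lit 10) 
(.lf (nat_lit 1346448374) (dlOf (nat_lit 1) (nat_lit 0x8008000800200020008f65f03))) 
(.lf (nat_lit 3691065334) (dlOf (nat_lit 1) (nat_lit 0xd8008008800200660008007a83)))))))))) 
(.nd (nat_lit 6) (.nd (nat_lit 5) (.nd (nat_lit 29) (.nd (nat_lit 26) (.nd (nat_lit 24) 
(.nd (nat_lit 21) (.nd (nat_lit 27) (.nd (nat_lit 10) (.nd (nat_lit 32) 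
(.lf (nat_lit 268771350) (dlOf (nat_lit 1) (nat_lit 0x14002000c0008140a02))) 
(.lf (nat_lit 4563738646) (dlOf (nat_lit 1) (nat_lit 0x600180d0001)))) 
(.lf (nat_lit 38085654) (dlOf (nat_lit 1) (nat_lit 0x800200420009132882)))) (.nd (nat_lit 30) 
(.lf (nat_lit 134553622) (dlOf (nat_lit 2) (nat_lit 0x1da03b00000018070500))) 
(.lf (nat_lit 3355779094) (dlOf (nat_lit 1) (nat_lit 0x2000200100008110302))))) (.nd (nat_lit 8) 
(.lf (nat_lit 2433046) (dlOf (nat_lit 1) (nat_lit 0x1e0018160881))) 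
(.lf (nat_lit 12394774) (dlOf (nat_lit 1) (nat_lit 0x4004000200086c0482))))) (.nd (nat_lit 20) 
(.nd (nat_lit 19) (.nd (nat_lit 7) 
(.lf (nat_lit 52765974) (dlOf (nat_lit 1) (nat_lit 0x20029573081))) 
(.lf (nat_lit 21307542) (dlOf (nat_lit 1) (nat_lit 0x20018a31101)))) (.nd (nat_lit 22) 
(.lf (nat_lit 59580438) (dlOf (nat_lit 1) (nat_lit 0x40029810581))) 
(.lf (nat_lit 21831702) (dlOf (nat_lit 1) (nat_lit 0x20028a70481))))) (.nd (nat_lit 9) 
(.nd (nat_lit 10) (.nd (nat_lit 22) 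
(.lf (nat_lit 62201878) (dlOf (nat_lit 1) (nat_lit 0x78008003400200080009970303))) 
(.lf (nat_lit 24453142) (dlOf (nat_lit 1) (nat_lit 0x40028ba0581)))) 
(.lf (nat_lit 56435734) (dlOf (nat_lit 1) (nat_lit 0x8008000400200020009732883)))) 
(.lf (nat_lit 58008086) (dlOf (nat_lit 3) (nat_lit 0x717b800ba00400180000017402000800097a8701)))))) 
(.nd (nat_lit 27) (.nd (nat_lit 28) (.nd (nat_lit 19) (.nd (nat_lit 20) 
(.lf (nat_lit 3288670230) (dlOf (nat_lit 1) (nat_lit 0x8008003c002000400080b0903))) 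
(.lf (nat_lit 68493334) (dlOf (nat_lit 1) (nat_lit 0x20008590a01)))) 
(.lf (nat_lit 70066198) (dlOf (nat_lit 1) (nat_lit 0x20028e80081)))) (.nd (nat_lit 30) 
(.lf (nat_lit 2483363862) (dlOf (nat_lit 2) (nat_lit 0x37017001280a80164030015e01002830070036003002ac006017e20e00ba00280d0881))) 
(.lf (nat_lit 1409622038) (dlOf (nat_lit 1) (nat_lit 0x20008000c00200080008050483))))) 
(.nd (nat_lit 28) (.nd (nat_lit 31) 
(.lf (nat_lit 201662486) (dlOf (nat_lit 2) (nat_lit 0x1da03b00000018070500))) 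
(.lf (nat_lit 2349146134) (dlOf (nat_lit 2) (nat_lit 0x37016001280a80164030015e01002830070036003002ac00601b4e0e00ba00280d0881)))) 
(.nd (nat_lit 22) (.lf (nat_lit 3691323414) (dlOf (nat_lit 2) (nat_lit 0x600000024018150400))) 
(.lf (nat_lit 474292246) (dlOf (nat_lit 1) (nat_lit 0x1700080114002032c0009120003))))))) 
(.nd (nat_lit 28) (.nd (nat_lit 27) (.nd (nat_lit 7) (.nd (nat_lit 26) 
(.lf (nat_lit 537206806) (dlOf (nat_lit 1) (nat_lit 0x20008000c00200080008050483))) 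
(.lf (nat_lit 1678057494) (dlOf (nat_lit 1) (nat_lit 0x480080024002006e0008160483)))) 
(.nd (nat_lit 11) 
(.lf (nat_lit 4832174486) (dlOf (nat_lit 1) (nat_lit 0x800801ec002004a0008106483))) 
(.lf (nat_lit 2754947478) (dlOf (nat_lit 1) (nat_lit 0x200180f4e81))))) (.nd (nat_lit 19) 
(.nd (nat_lit 30) (.lf (nat_lit 2818908182) (dlOf (nat_lit 1) (nat_lit 0x80018130001))) 
(.lf (nat_lit 3892650006) (dlOf (nat_lit 11) (nat_lit 0x700a8004a05100220280014813c00700660050024002b01100130058008c028001ed120014054000a019800900580054028001ec080042054000a0288019013c00c4066004a0240025011001b005800c4028001eb1000500540029019802280580104028001ea08003a054001c0288013813c00740660046024001500d801e805800e8028001e810003e05400200198021005800fc028001e708005605400350288015013c008c094005803300260110019005800b8028001e610000e054000701980010090004002c0018014000f285001d019800790080060058003c6040004002002c0008180082)))) 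
(.lf (nat_lit 2819432470) (dlOf (nat_lit 2) (nat_lit 0x2740e4000a06a000601b0000b4180058008007800200300008280403))))) 
(.nd (nat_lit 30) (.nd (nat_lit 7) (.nd (nat_lit 31) 
(.lf (nat_lit 805642262) (dlOf (nat_lit 1) (nat_lit 0x480080024002006e0008160483))) 
(.lf (nat_lit 2953125910) (dlOf (nat_lit 2) (nat_lit 0x600000024818150400)))) 
(.lf (nat_lit 5234827670) (dlOf (nat_lit 1) (nat_lit 0x180080044002000a00080f6483)))) 
(.nd (nat_lit 19) (.nd (nat_lit 31) 
(.lf (nat_lit 6174351382) (dlOf (nat_lit 1) (nat_lit 0x400200020008110002))) 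
(.lf (nat_lit 4026867734) (dlOf (nat_lit 1) (nat_lit 0x8008003c002000400080b0903)))) 
(.lf (nat_lit 4096598038) (dlOf (nat_lit 1) (nat_lit 0x220004016c0018130302))))))) 
(.nd (nat_lit 26) (.nd (nat_lit 21) (.nd (nat_lit 19) (.nd (nat_lit 28) (.nd (nat_lit 29) 
(.lf (nat_lit 3355779126) (dlOf (nat_lit 4) (nat_lit 0xf60320067681002601900338c0801300c8019c40400d000400300018110782))) 
(.lf (nat_lit 3892650038) (dlOf (nat_lit 9) (nat_lit 0x167815c0c0406e03bc03601c401000e3007c056c03202cc018001f00500071c40126815c098806e00b603600ac010004b007c02b00320182018000e307046102b824c80dc0f7406c06ba020035f00f817480640bd003000d400a000e288016402b806b80dc00386080a340ae067003701d501000be006404e003000a400a000de86000502f800801600b000ac00040530113023006f01000034074057e035002b01800088084068403c036a017010c004000550680030064109800000094040536057004a00c000000100b60008046c002004c0008180483)))) 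
(.nd (nat_lit 27) 
(.lf (nat_lit 4563738678) (dlOf (nat_lit 1) (nat_lit 0x400080068002002c00080d0483))) 
(.lf (nat_lit 4697956406) (dlOf (nat_lit 1) (nat_lit 0x400080068002002c00080d0483))))) 
(.nd (nat_lit 10) (.nd (nat_lit 22) 
(.lf (nat_lit 9248822) (dlOf (nat_lit 1) (nat_lit 0x1c00200020008530482))) 
(.lf (nat_lit 21831734) (dlOf (nat_lit 1) (nat_lit 0x10008000800200060008a70683)))) 
(.lf (nat_lit 43852854) (dlOf (nat_lit 1) (nat_lit 0xb8008003c002005c00092a2883))))) 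
(.nd (nat_lit 10) (.nd (nat_lit 8) (.nd (nat_lit 9) 
(.lf (nat_lit 2433078) (dlOf (nat_lit 1) (nat_lit 0x40008160a81))) 
(.lf (nat_lit 23405110) (dlOf (nat_lit 2) (nat_lit 0xac8a800044080020008000400200260008b80f83)))) 
(.lf (nat_lit 20261686) (dlOf (nat_lit 1) (nat_lit 0x4002000200089d5c02)))) (.nd (nat_lit 7) 
(.nd (nat_lit 20) (.lf (nat_lit 35988534) (dlOf (nat_lit 1) (nat_lit 0x8008000400200020009012883))) 
(.lf (nat_lit 45425718) (dlOf (nat_lit 1) (nat_lit 0x800400020009322882)))) 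
(.lf (nat_lit 49095862) (dlOf (nat_lit 1) (nat_lit 0x400400020009462c82)))))) (.nd (nat_lit 27) 
(.nd (nat_lit 28) (.nd (nat_lit 10) 
(.lf (nat_lit 3288670262) (dlOf (nat_lit 1) (nat_lit 0x2000280b1381))) 
(.lf (nat_lit 2752324662) (dlOf (nat_lit 1) (nat_lit 0x8008000400200020008002883)))) 
(.nd (nat_lit 29) (.nd (nat_lit 31) 
(.lf (nat_lit 4630847542) (dlOf (nat_lit 1) (nat_lit 0x400400020008110682))) 
(.lf (nat_lit 2483363894) (dlOf (nat_lit 10) (nat_lit 0x200560002000000f302035b01580018054000c000001cd06046202b000e58100810080006cc080408040017c01c00081040102010008b0070002001000c8040000801c00044040098010002700700001c1000080a80004030010e01000850070000800c00000140004002002800080d0b82)))) 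
(.lf (nat_lit 3020234806) (dlOf (nat_lit 1) (nat_lit 0x200181a0801))))) (.nd (nat_lit 7) 
(.nd (nat_lit 28) 
(.lf (nat_lit 2349146166) (dlOf (nat_lit 10) (nat_lit 0x200560002000000f302035b01580018054000c000001cd06046202b000e581008100800068c080408040017c01c00081040102010008b0070002001000c8040000801c0000f040098010002700700000c1000080a80004030010e01000850070000800c00000140004002002800080d0b82))) 
(.nd (nat_lit 29) (.lf (nat_lit 4765065270) (dlOf (nat_lit 1) (nat_lit 0x400400020008110682))) 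
(.lf (nat_lit 3154452534) (dlOf (nat_lit 2) (nat_lit 0x9e01b804600d80038a08000c002000400081a0482))))) 
(.nd (nat_lit 19) 
(.lf (nat_lit 738533558) (dlOf (nat_lit 1) (nat_lit 0x80080004002000200080a3003))) 
(.lf (nat_lit 6377250998) (dlOf (nat_lit 1) (nat_lit 0x800280c1701)))))))) (.nd (nat_lit 7) 
(.nd (nat_lit 27) (.nd (nat_lit 20) (.nd (nat_lit 19) (.nd (nat_lit 5) 
(.lf (nat_lit 4563738710) (dlOf (nat_lit 1) (nat_lit 0xa80080100002004c00080d0603))) 
(.lf (nat_lit 4832174454) (dlOf (nat_lit 1) (nat_lit 0x1c400200880008105802)))) (.nd (nat_lit 22) 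
(.lf (nat_lit 9248854) (dlOf (nat_lit 2) (nat_lit 0x1794980004a3c00f441a00009038530700))) 
(.lf (nat_lit 13443158) (dlOf (nat_lit 1) (nat_lit 0x400400020018721a02))))) (.nd (nat_lit 5) 
(.nd (nat_lit 9) (.nd (nat_lit 19) 
(.lf (nat_lit 9773142) (dlOf (nat_lit 1) (nat_lit 0x800080004002000c0008580603))) 
(.lf (nat_lit 1346183254) (dlOf (nat_lit 2) (nat_lit 0x2600000013018e60800)))) 
(.lf (nat_lit 58534486) (dlOf (nat_lit 1) (nat_lit 0x200097e5301)))) (.nd (nat_lit 9) 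
(.lf (nat_lit 12394870) (dlOf (nat_lit 1) (nat_lit 0xc00286c0781))) 
(.lf (nat_lit 8206198) (dlOf (nat_lit 1) (nat_lit 0x40020002000851a302)))))) (.nd (nat_lit 5) 
(.nd (nat_lit 26) (.nd (nat_lit 28) 
(.lf (nat_lit 3892650070) (dlOf (nat_lit 3) (nat_lit 0x8b40ae04c4037013f01b00a00080050403e01e001900f800c0009802800058200b300ae060403701e201b00e68080073803e02f6019018600c003d0028000542001e400200300008180782))) 
(.lf (nat_lit 4697956438) (dlOf (nat_lit 1) (nat_lit 0xa80080100002004c00080d0603)))) 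
(.nd (nat_lit 8) 
(.lf (nat_lit 3154452566) (dlOf (nat_lit 2) (nat_lit 0xb401b805a80d800056080008002000400081a0782))) 
(.lf (nat_lit 2886019414) (dlOf (nat_lit 4) (nat_lit 0xf02080005008003810400a800000005040010041001400000001010009000800e000200120008144e03))))) 
(.nd (nat_lit 8) (.lf (nat_lit 1009066102) (dlOf (nat_lit 1) (nat_lit 0x1e0009040d81))) 
(.nd (nat_lit 10) 
(.lf (nat_lit 3624216950) (dlOf (nat_lit 2) (nat_lit 0xf01e004a40080010008004c002000e0008144e83))) 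
(.lf (nat_lit 3624217974) (dlOf (nat_lit 1) (nat_lit 0x10008001000200020008146b83))))))) 
(.nd (nat_lit 9) (.nd (nat_lit 5) (.nd (nat_lit 8) (.nd (nat_lit 10) 
(.lf (nat_lit 2818908374) (dlOf (nat_lit 1) (nat_lit 0x580080028002000a0008130503))) 
(.lf (nat_lit 3624217814) (dlOf (nat_lit 1) (nat_lit 0x10008000c00200020008146483)))) 
(.lf (nat_lit 58008022) (dlOf (nat_lit 1) (nat_lit 0x8a00097a7b01)))) (.nd (nat_lit 11) 
(.nd (nat_lit 19) (.nd (nat_lit 26) 
(.lf (nat_lit 6442787062) (dlOf (nat_lit 2) (nat_lit 0x20178007300800780080030002003c00081b0483))) 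
(.lf (nat_lit 5838807286) (dlOf (nat_lit 2) (nat_lit 0x20178007300800780080030002003c00081b0483)))) 
(.lf (nat_lit 12394742) (dlOf (nat_lit 2) (nat_lit 0x2532001230186c0480)))) (.nd (nat_lit 8) 
(.lf (nat_lit 1879914742) (dlOf (nat_lit 1) (nat_lit 0x3200183da981))) 
(.lf (nat_lit 20266486) (dlOf (nat_lit 1) (nat_lit 0x800289dcd01)))))) (.nd (nat_lit 21) 
(.nd (nat_lit 27) (.nd (nat_lit 19) (.nd (nat_lit 22) 
(.lf (nat_lit 5369045974) (dlOf (nat_lit 1) (nat_lit 0x1400180e2881))) 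
(.lf (nat_lit 38085590) (dlOf (nat_lit 1) (nat_lit 0xc0009132881)))) 
(.lf (nat_lit 56435670) (dlOf (nat_lit 1) (nat_lit 0x10008000c00200080009732883)))) 
(.nd (nat_lit 26) (.nd (nat_lit 29) 
(.lf (nat_lit 5503263702) (dlOf (nat_lit 1) (nat_lit 0xe00180e2881))) 
(.lf (nat_lit 4966392790) (dlOf (nat_lit 1) (nat_lit 0x1400180e2881)))) (.nd (nat_lit 10) 
(.lf (nat_lit 5033501654) (dlOf (nat_lit 1) (nat_lit 0x1800180e2881))) 
(.lf (nat_lit 2886019030) (dlOf (nat_lit 4) (nat_lit 0x101100070086006603e002501e000080dc00b4000000140c004c044003801f000d00f0001807600e6037002401a80004c3003a00dc0002204003c00400200018144502)))))) 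
(.nd (nat_lit 22) (.nd (nat_lit 24) 
(.lf (nat_lit 4096074710) (dlOf (nat_lit 1) (nat_lit 0x180080004002000600080e2883))) 
(.lf (nat_lit 52765654) (dlOf (nat_lit 1) (nat_lit 0x20029572881)))) (.nd (nat_lit 19) 
(.lf (nat_lit 40182742) (dlOf (nat_lit 1) (nat_lit 0x24004000200091f2882))) 
(.lf (nat_lit 32318422) (dlOf (nat_lit 1) (nat_lit 0x400400020008ef2882)))))))))) (.nd (nat_lit 5) 
(.nd (nat_lit 6) (.nd (nat_lit 18) (.nd (nat_lit 20) (.nd (nat_lit 24) (.nd (nat_lit 26) 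
(.nd (nat_lit 8) (.nd (nat_lit 7) (.nd (nat_lit 19) 
(.lf (nat_lit 3221331990) (dlOf (nat_lit 2) (nat_lit 0x601e00224018090000))) 
(.lf (nat_lit 48865302) (dlOf (nat_lit 1) (nat_lit 0x60019440081)))) 
(.lf (nat_lit 6442559638) (dlOf (nat_lit 1) (nat_lit 0x600280f4801)))) (.nd (nat_lit 9) 
(.nd (nat_lit 28) (.lf (nat_lit 3221332246) (dlOf (nat_lit 2) (nat_lit 0x8a020000e2018090480))) 
(.lf (nat_lit 805413142) (dlOf (nat_lit 2) (nat_lit 0x1d402600123018090480)))) (.nd (nat_lit 11) 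
(.lf (nat_lit 671196950) (dlOf (nat_lit 1) (nat_lit 0x20028143c81))) 
(.lf (nat_lit 110358) (dlOf (nat_lit 1) (nat_lit 0x20028007481)))))) (.nd (nat_lit 7) 
(.nd (nat_lit 28) (.nd (nat_lit 8) 
(.lf (nat_lit 2348916758) (dlOf (nat_lit 11) (nat_lit 0xec02a0002008002f981006a00a80008050003c00e005e9030090015006180a00179e08023005000bcc020036010005e101003401500058040017760801f802000bb80200cc02a007e007002ec41000480a80048020008c00e005d383002a007002d0c08074800800b000200200008020483))) 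
(.lf (nat_lit 5972797718) (dlOf (nat_lit 1) (nat_lit 0x20028144b81)))) (.nd (nat_lit 9) 
(.lf (nat_lit 2483134486) (dlOf (nat_lit 11) (nat_lit 0xec02a00020080019441006a00a80008050003c00e0031e830090015006180a000c7808023005000637020036010003168100340150005804000c4c0801f8020006250200cc02a007e0070018701000480a80048020008c00e0030903002a0070016dc08074800800b000200200008020483))) 
(.lf (nat_lit 6241232406) (dlOf (nat_lit 10) (nat_lit 0xf80500008a04007c0280001702003e0140000b01000300a000400100002a08007c0280001302003c0140000901002500a0005801000022080058028000020200340140008002000000100040008002c00200020008053703))))) 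
(.nd (nat_lit 10) (.nd (nat_lit 11) 
(.lf (nat_lit 5033271446) (dlOf (nat_lit 1) (nat_lit 0x1c00200020008031102))) 
(.lf (nat_lit 5972797590) (dlOf (nat_lit 1) (nat_lit 0x8008000400200020008144803)))) 
(.lf (nat_lit 3825314966) (dlOf (nat_lit 1) (nat_lit 0x800400020008146202)))))) (.nd (nat_lit 19) 
(.nd (nat_lit 22) (.nd (nat_lit 23) 
(.lf (nat_lit 16883734) (dlOf (nat_lit 1) (nat_lit 0x80080004002000200088e0003))) 
(.lf (nat_lit 25272342) (dlOf (nat_lit 2) (nat_lit 0x1906a2017e202000c0008bf0881)))) 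
(.lf (nat_lit 63021078) (dlOf (nat_lit 1) (nat_lit 0x200099c0081)))) (.nd (nat_lit 7) 
(.nd (nat_lit 9) 
(.lf (nat_lit 19505174) (dlOf (nat_lit 4) (nat_lit 0x2a559000160100012ac8000a408000956400050040008004000200189b0502))) 
(.lf (nat_lit 50962966) (dlOf (nat_lit 2) (nat_lit 0x29263000c1310002d40802e400401a600194d8702)))) 
(.nd (nat_lit 21) (.lf (nat_lit 29991062) (dlOf (nat_lit 1) (nat_lit 0x400400020008e30482))) 
(.lf (nat_lit 23699606) (dlOf (nat_lit 1) (nat_lit 0x20018b80181))))))) (.nd (nat_lit 19) 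
(.nd (nat_lit 26) (.nd (nat_lit 22) (.nd (nat_lit 7) 
(.lf (nat_lit 3490816022) (dlOf (nat_lit 15) (nat_lit 0x21416a006860200a80b50034281001105a801a100801182d400cd604016016a006630200240b50032d8100090500015fc0802c828000af40401981400057402006c0a0002b9010060050000fb80801f8280007d6040098140003db0200720a0001ec018020480))) 
(.lf (nat_lit 20032662) (dlOf (nat_lit 1) (nat_lit 0x80080004002000200089d6203)))) 
(.nd (nat_lit 23) (.lf (nat_lit 5349398) (dlOf (nat_lit 1) (nat_lit 0x400400020008350402))) 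
(.lf (nat_lit 30515222) (dlOf (nat_lit 1) (nat_lit 0x400200020008e30002))))) (.nd (nat_lit 7) 
(.nd (nat_lit 29) 
(.lf (nat_lit 68263958) (dlOf (nat_lit 1) (nat_lit 0x180080008002000400084d0483))) 
(.lf (nat_lit 2752618518) (dlOf (nat_lit 15) (nat_lit 0x2141ca00c1b0200a80e50060d010011072803064080118394018000401601ca00bf80200240e5005f8010009050002c500802c82800161a04019814000b0902006c0a0005838100600500026180801f82800130a040098140009760200720a0004b9018020480)))) 
(.lf (nat_lit 2754718102) (dlOf (nat_lit 1) (nat_lit 0x4002000200080f4e82))))) (.nd (nat_lit 26) 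
(.nd (nat_lit 10) (.nd (nat_lit 24) 
(.lf (nat_lit 3493437462) (dlOf (nat_lit 1) (nat_lit 0x48008001c00200080008140a83))) 
(.lf (nat_lit 54108182) (dlOf (nat_lit 1) (nat_lit 0x18008001000200020009610083)))) 
(.lf (nat_lit 47817750) (dlOf (nat_lit 1) (nat_lit 0x400400020009402882)))) (.nd (nat_lit 7) 
(.nd (nat_lit 21) (.lf (nat_lit 471441430) (dlOf (nat_lit 1) (nat_lit 0x20008300a01))) 
(.lf (nat_lit 2755239958) (dlOf (nat_lit 1) (nat_lit 0x48008001c00200080008140a83)))) 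
(.lf (nat_lit 473541014) (dlOf (nat_lit 1) (nat_lit 0x400400020008f54e82))))))) (.nd (nat_lit 30) 
(.nd (nat_lit 22) (.nd (nat_lit 26) (.nd (nat_lit 32) (.nd (nat_lit 7) 
(.lf (nat_lit 2465814) (dlOf (nat_lit 1) (nat_lit 0x40008160881))) 
(.lf (nat_lit 17146006) (dlOf (nat_lit 1) (nat_lit 0xc00288e0481)))) (.nd (nat_lit 27) 
(.lf (nat_lit 4832206870) (dlOf (nat_lit 1) (nat_lit 0x2bc002028e0008110002))) 
(.lf (nat_lit 4697989142) (dlOf (nat_lit 1) (nat_lit 0x3400080d0001))))) (.nd (nat_lit 29) 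
(.nd (nat_lit 27) 
(.lf (nat_lit 4362444822) (dlOf (nat_lit 1) (nat_lit 0xb00080030002000c0008080503))) 
(.lf (nat_lit 2617614358) (dlOf (nat_lit 8) (nat_lit 0xd002d0011e01001100c0008dc0801e00b400466040030052002320200a802d0011881000f0158007480800300ac003a204003000400060018100482)))) 
(.nd (nat_lit 32) 
(.lf (nat_lit 604348438) (dlOf (nat_lit 3) (nat_lit 0xa0058014000e0005c040002016000400380016c1000300080014002000a0008190403))) 
(.lf (nat_lit 4899315734) (dlOf (nat_lit 1) (nat_lit 0x60018100001)))))) (.nd (nat_lit 21) 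
(.nd (nat_lit 20) (.nd (nat_lit 10) 
(.lf (nat_lit 12951574) (dlOf (nat_lit 1) (nat_lit 0x6800086f0301))) 
(.lf (nat_lit 38118422) (dlOf (nat_lit 1) (nat_lit 0x400200500009132882)))) (.nd (nat_lit 19) 
(.lf (nat_lit 30777366) (dlOf (nat_lit 1) (nat_lit 0x400400020008e50a02))) 
(.lf (nat_lit 22913046) (dlOf (nat_lit 2) (nat_lit 0x126f10004940400ac002004c0008b40482))))) 
(.nd (nat_lit 7) (.nd (nat_lit 24) 
(.lf (nat_lit 16097302) (dlOf (nat_lit 2) (nat_lit 0x1324f000090080040008006c00200020008860403))) 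
(.lf (nat_lit 32874518) (dlOf (nat_lit 1) (nat_lit 0x20008f30081)))) 
(.lf (nat_lit 8237462) (dlOf (nat_lit 1) (nat_lit 0x400400020018518382)))))) (.nd (nat_lit 27) 
(.nd (nat_lit 26) (.nd (nat_lit 19) (.nd (nat_lit 20) 
(.lf (nat_lit 4026900502) (dlOf (nat_lit 1) (nat_lit 0x6000280c0a81))) 
(.lf (nat_lit 1343594518) (dlOf (nat_lit 1) (nat_lit 0x300080020002001600082b0403)))) 
(.lf (nat_lit 1879941142) (dlOf (nat_lit 1) (nat_lit 0x800400020008490002)))) (.nd (nat_lit 7) 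
(.lf (nat_lit 3288702998) (dlOf (nat_lit 1) (nat_lit 0x6000280c0a81))) 
(.lf (nat_lit 3557138582) (dlOf (nat_lit 1) (nat_lit 0x8008000400200020008130283))))) 
(.nd (nat_lit 26) (.nd (nat_lit 28) (.nd (nat_lit 29) 
(.lf (nat_lit 3355811862) (dlOf (nat_lit 2) (nat_lit 0x1b0100001f80800f8008003c00200780008120483))) 
(.lf (nat_lit 3892682774) (dlOf (nat_lit 1) (nat_lit 0x4004000200081b0482)))) 
(.lf (nat_lit 1476763670) (dlOf (nat_lit 3) (nat_lit 0xa005c014000e0005c040002017000400380016c1000300080014002000a0008190403)))) 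
(.nd (nat_lit 29) 
(.lf (nat_lit 5838839830) (dlOf (nat_lit 1) (nat_lit 0x80080020002001600081c0883))) 
(.lf (nat_lit 4228227094) (dlOf (nat_lit 1) (nat_lit 0xb00080030002000c0008080503)))))))) 
(.nd (nat_lit 9) (.nd (nat_lit 7) (.nd (nat_lit 18) (.nd (nat_lit 26) (.nd (nat_lit 28) 
(.nd (nat_lit 10) (.nd (nat_lit 20) 
(.lf (nat_lit 5905686870) (dlOf (nat_lit 1) (nat_lit 0x3c002000a00080b0682))) 
(.lf (nat_lit 3252566) (dlOf (nat_lit 1) (nat_lit 0x20018200681)))) 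
(.lf (nat_lit 107862) (dlOf (nat_lit 1) (nat_lit 0x8008000400200020008003383)))) (.nd (nat_lit 29) 
(.lf (nat_lit 2416025942) (dlOf (nat_lit 1) (nat_lit 0x20008014e01))) 
(.lf (nat_lit 805413206) (dlOf (nat_lit 6) (nat_lit 0x3009e000c038004b0130000381802000980001804019804c0000a02002c026000048100430130000000800f800800c8002007e0008090683))))) 
(.nd (nat_lit 29) (.nd (nat_lit 30) 
(.lf (nat_lit 6509666646) (dlOf (nat_lit 1) (nat_lit 0x3c002000a00080b0682))) 
(.lf (nat_lit 3288441174) (dlOf (nat_lit 2) (nat_lit 0x4003500029818014d00)))) 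
(.lf (nat_lit 1677828438) (dlOf (nat_lit 6) (nat_lit 0x3009e000c038004b0130000381802000980001804019804c0000a02002c026000048100430130000000800f800800c8002007e0008090683))))) 
(.nd (nat_lit 27) (.nd (nat_lit 22) 
(.lf (nat_lit 4563771478) (dlOf (nat_lit 2) (nat_lit 0x400a400064040148002006000080d0602))) 
(.lf (nat_lit 29728854) (dlOf (nat_lit 13) (nat_lit 0x2991d0001401001ec8e8000980801764740003e04009723a0001d02003991d0000c010026c8e80004c0801364740002004009b23a0000c02003791d0000281001ec8e8000080800264740000204007b23a000000200280018e30301)))) 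
(.nd (nat_lit 8) 
(.lf (nat_lit 4697989206) (dlOf (nat_lit 2) (nat_lit 0x400a400066040148002006000080d0602))) 
(.lf (nat_lit 2886052182) (dlOf (nat_lit 1) (nat_lit 0x400200020008144e02)))))) (.nd (nat_lit 29) 
(.nd (nat_lit 21) (.nd (nat_lit 30) (.nd (nat_lit 10) 
(.lf (nat_lit 6509666518) (dlOf (nat_lit 5) (nat_lit 0x22a012016f0000008dc10007000000454040458024001a00201720000008981800a00000043e04001400400f000180b0482))) 
(.lf (nat_lit 6576778454) (dlOf (nat_lit 1) (nat_lit 0x400400020008146482)))) (.nd (nat_lit 31) 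
(.lf (nat_lit 5368815830) (dlOf (nat_lit 1) (nat_lit 0x2000400080008031c02))) 
(.lf (nat_lit 3221332182) (dlOf (nat_lit 23) (nat_lit 0x2b8020000e381001b029800e80dc05c804001ae000000e304001d029800980fc0040074004a0370161016005500941a94048021202101740100009807401b403400a2018005300a8009801404dc000001c51e004a053002201b8070008002d4000001c30800ba020003e0000006f41000f00dc082c04802ca020000d983015a0100006b8080ad00800033c0400600a6004403700c70100006741800200800031e0405680400018a0202b4020000c401003c0100006180800b814c01b004000185040002020000c201001601000060c0800980dc00540480258020000c10300190100005e0080488080002ec0402b80400017402018c020000b7810062010000250088e28008052c00204d60008090483))))) 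
(.nd (nat_lit 8) (.lf (nat_lit 54370518) (dlOf (nat_lit 1) (nat_lit 0x400200020009650982))) 
(.nd (nat_lit 10) 
(.lf (nat_lit 5774090710) (dlOf (nat_lit 3) (nat_lit 0x105340045e0400140000022002001600080f7b01))) 
(.lf (nat_lit 52798934) (dlOf (nat_lit 1) (nat_lit 0x400400020009573602)))))) (.nd (nat_lit 28) 
(.nd (nat_lit 26) 
(.lf (nat_lit 5905686742) (dlOf (nat_lit 5) (nat_lit 0x22a011016f0000008dc10007000000454040458022001a00201720000008981800a00000044604001400400f000180b0482))) 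
(.nd (nat_lit 27) 
(.lf (nat_lit 1677828310) (dlOf (nat_lit 11) (nat_lit 0x870130009240804200980049004023809e012203800ed013005600000048e1001e804c0022302012e0260010701008e0130007e8080480098003ee04001c04c001f50200b8026000f98100660130007bc080050008013c00200740008090483))) 
(.lf (nat_lit 3959529686) (dlOf (nat_lit 23) (nat_lit 0x2b8020000e381001b029800e80dc05c804001ae000000e304001d029800980fc0040074004a0370161016005500941a94048021202101740100009807401b403400a2018005300a8009801404dc000001c51e004a053002201b8070008002d4000001c30800ba020003e0000006f4100ad00800036a04007806e0416024016501000068c180ad0080003340400600a6004403700c70100006641800200800031e040568040001890202b4020000c401001702980360080002fa0800f00400017c020002020000bd8100160100005e80800980dc00540480258020000bc8300910100005e00800c8080002ec0402b80400017402018c020000b7810062010000250088e28008052c00204d60008090483))))) 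
(.nd (nat_lit 10) (.nd (nat_lit 27) 
(.lf (nat_lit 805413078) (dlOf (nat_lit 11) (nat_lit 0x870130009240804200980049004023809e012203800ed013005600000048e1001e804c0021f02012e0260010601008e0130007f0080480098003ee04001c04c001f50200b8026000f90100660130007bc080050008013c00200740008090483))) 
(.lf (nat_lit 2013372630) (dlOf (nat_lit 1) (nat_lit 0x20018031c01)))) 
(.lf (nat_lit 5100381398) (dlOf (nat_lit 3) (nat_lit 0x4007000128080090038000800e000410400060018052d81))))))) 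
(.nd (nat_lit 25) (.nd (nat_lit 27) (.nd (nat_lit 19) (.nd (nat_lit 10) (.nd (nat_lit 26) 
(.lf (nat_lit 536978390) (dlOf (nat_lit 1) (nat_lit 0xc0018002881))) 
(.lf (nat_lit 2751570902) (dlOf (nat_lit 1) (nat_lit 0x20018002881)))) 
(.lf (nat_lit 2751834070) (dlOf (nat_lit 2) (nat_lit 0x2e23300009818004500)))) (.nd (nat_lit 7) 
(.lf (nat_lit 637782) (dlOf (nat_lit 1) (nat_lit 0x40020002000800bc82))) (.nd (nat_lit 10) 
(.lf (nat_lit 1345168342) (dlOf (nat_lit 1) (nat_lit 0x8008000800200020008aa2883))) 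
(.lf (nat_lit 20557782) (dlOf (nat_lit 1) (nat_lit 0x200289d7a81)))))) (.nd (nat_lit 26) 
(.nd (nat_lit 7) (.lf (nat_lit 671197014) (dlOf (nat_lit 1) (nat_lit 0x30002001a0008143f02))) 
(.nd (nat_lit 21) (.lf (nat_lit 3892421590) (dlOf (nat_lit 1) (nat_lit 0x2c0018102881))) 
(.lf (nat_lit 5773566934) (dlOf (nat_lit 1) (nat_lit 0x400280e2881))))) (.nd (nat_lit 10) 
(.nd (nat_lit 20) (.lf (nat_lit 6375449558) (dlOf (nat_lit 1) (nat_lit 0x18004000c0018002882))) 
(.lf (nat_lit 1007789014) (dlOf (nat_lit 1) (nat_lit 0x8004000200087a2882)))) 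
(.lf (nat_lit 201435094) (dlOf (nat_lit 1) (nat_lit 0x88004003c0018004502)))))) (.nd (nat_lit 18) 
(.nd (nat_lit 24) (.nd (nat_lit 21) 
(.lf (nat_lit 34710486) (dlOf (nat_lit 1) (nat_lit 0x20008fb2881))) 
(.lf (nat_lit 36807638) (dlOf (nat_lit 1) (nat_lit 0x20019072881)))) (.nd (nat_lit 19) 
(.lf (nat_lit 50439126) (dlOf (nat_lit 1) (nat_lit 0x8008001c002000200094c2883))) 
(.lf (nat_lit 56206294) (dlOf (nat_lit 1) (nat_lit 0x8008000400200020009732883))))) 
(.nd (nat_lit 19) (.nd (nat_lit 20) 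
(.lf (nat_lit 38118358) (dlOf (nat_lit 1) (nat_lit 0x80080004002001e0009132883))) 
(.lf (nat_lit 43361238) (dlOf (nat_lit 1) (nat_lit 0x24002000200092a2882)))) (.nd (nat_lit 20) 
(.lf (nat_lit 61711318) (dlOf (nat_lit 1) (nat_lit 0xc00400120009922882))) 
(.lf (nat_lit 41788374) (dlOf (nat_lit 1) (nat_lit 0xe0029242881))))))))) (.nd (nat_lit 18) 
(.nd (nat_lit 6) (.nd (nat_lit 28) (.nd (nat_lit 7) (.nd (nat_lit 19) (.nd (nat_lit 23) 
(.nd (nat_lit 8) (.nd (nat_lit 11) 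
(.lf (nat_lit 2348916790) (dlOf (nat_lit 2) (nat_lit 0x900380009604002800200160008020682))) 
(.lf (nat_lit 112694) (dlOf (nat_lit 1) (nat_lit 0x40020002000800a602)))) (.nd (nat_lit 29) 
(.lf (nat_lit 6442559286) (dlOf (nat_lit 1) (nat_lit 0x4004000200080f3e02))) 
(.lf (nat_lit 536979254) (dlOf (nat_lit 1) (nat_lit 0x320008003e01))))) (.nd (nat_lit 21) 
(.nd (nat_lit 22) 
(.lf (nat_lit 25272374) (dlOf (nat_lit 4) (nat_lit 0x1d04f2001cd020072279000e58100061a88002780800c0008012400200460008bf0b83))) 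
(.lf (nat_lit 29466678) (dlOf (nat_lit 2) (nat_lit 0x591a00000018e10880)))) 
(.lf (nat_lit 10592310) (dlOf (nat_lit 2) (nat_lit 0xb5260001580800680080084002000c0008600683))))) 
(.nd (nat_lit 20) (.nd (nat_lit 22) 
(.lf (nat_lit 537501750) (dlOf (nat_lit 1) (nat_lit 0x28008000c002000800080a0a83))) 
(.lf (nat_lit 21602358) (dlOf (nat_lit 1) (nat_lit 0x40008a51001)))) (.nd (nat_lit 9) 
(.lf (nat_lit 3776566) (dlOf (nat_lit 1) (nat_lit 0x1000200020008220b02))) 
(.lf (nat_lit 2753143350) (dlOf (nat_lit 2) (nat_lit 0x203dc000000200080008090f81)))))) 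
(.nd (nat_lit 21) (.nd (nat_lit 10) (.nd (nat_lit 26) 
(.lf (nat_lit 3221332150) (dlOf (nat_lit 1) (nat_lit 0xc00200100008090382))) 
(.lf (nat_lit 3959529654) (dlOf (nat_lit 1) (nat_lit 0xc00200100008090382)))) (.nd (nat_lit 8) 
(.lf (nat_lit 134327478) (dlOf (nat_lit 2) (nat_lit 0x1004100023818006280))) 
(.lf (nat_lit 6576778678) (dlOf (nat_lit 1) (nat_lit 0x20028146d01))))) (.nd (nat_lit 12) 
(.nd (nat_lit 20) (.lf (nat_lit 6398134) (dlOf (nat_lit 1) (nat_lit 0x620018420481))) 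
(.lf (nat_lit 3252406) (dlOf (nat_lit 1) (nat_lit 0x80028200381)))) 
(.lf (nat_lit 7975094) (dlOf (nat_lit 1) (nat_lit 0x20018517e81)))))) (.nd (nat_lit 26) 
(.nd (nat_lit 9) (.nd (nat_lit 7) (.nd (nat_lit 10) 
(.lf (nat_lit 805412918) (dlOf (nat_lit 2) (nat_lit 0xe02600385818090000))) 
(.lf (nat_lit 1345430582) (dlOf (nat_lit 1) (nat_lit 0x1c00401180008bb2882)))) 
(.lf (nat_lit 2013372598) (dlOf (nat_lit 1) (nat_lit 0x5800200220008031702)))) (.nd (nat_lit 8) 
(.lf (nat_lit 3491340854) (dlOf (nat_lit 2) (nat_lit 0x203b2000000200080008090f81))) 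
(.lf (nat_lit 3087116086) (dlOf (nat_lit 1) (nat_lit 0x5000800b800200380008143e03))))) 
(.nd (nat_lit 19) (.nd (nat_lit 7) (.nd (nat_lit 9) 
(.lf (nat_lit 2483134518) (dlOf (nat_lit 2) (nat_lit 0x900380009604002800200160008020682))) 
(.lf (nat_lit 1946264118) (dlOf (nat_lit 1) (nat_lit 0x120018018101)))) 
(.lf (nat_lit 471965878) (dlOf (nat_lit 1) (nat_lit 0x60018740481)))) (.nd (nat_lit 21) 
(.lf (nat_lit 1409916982) (dlOf (nat_lit 1) (nat_lit 0x200180a0b81))) 
(.lf (nat_lit 4096368694) (dlOf (nat_lit 1) (nat_lit 0x80008100481))))))) (.nd (nat_lit 7) 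
(.nd (nat_lit 11) (.nd (nat_lit 8) (.nd (nat_lit 20) 
(.lf (nat_lit 738304118) (dlOf (nat_lit 2) (nat_lit 0x403f00014818090200))) (.nd (nat_lit 22) 
(.lf (nat_lit 59875446) (dlOf (nat_lit 1) (nat_lit 0x2c00400380009840202))) 
(.lf (nat_lit 47292534) (dlOf (nat_lit 1) (nat_lit 0x200293c0d81))))) (.nd (nat_lit 9) 
(.lf (nat_lit 1881252214) (dlOf (nat_lit 1) (nat_lit 0x400400020018e81002))) 
(.lf (nat_lit 201434998) (dlOf (nat_lit 1) (nat_lit 0x40008001c00200140008004083))))) 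
(.nd (nat_lit 26) (.nd (nat_lit 10) (.nd (nat_lit 22) 
(.lf (nat_lit 6576777590) (dlOf (nat_lit 1) (nat_lit 0x400400020008144e82))) 
(.lf (nat_lit 37857654) (dlOf (nat_lit 1) (nat_lit 0x104002006c00090d4e82)))) 
(.lf (nat_lit 6576778614) (dlOf (nat_lit 1) (nat_lit 0x400400020008146b82)))) (.nd (nat_lit 19) 
(.lf (nat_lit 3556878710) (dlOf (nat_lit 1) (nat_lit 0x28002001800080d4e82))) 
(.lf (nat_lit 738830710) (dlOf (nat_lit 1) (nat_lit 0x18008006c00200020008124e83)))))) 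
(.nd (nat_lit 9) (.nd (nat_lit 8) 
(.lf (nat_lit 3691094262) (dlOf (nat_lit 1) (nat_lit 0x400200040008010702))) (.nd (nat_lit 10) 
(.lf (nat_lit 2416026102) (dlOf (nat_lit 1) (nat_lit 0x378008038800202d60008017e03))) 
(.lf (nat_lit 61449718) (dlOf (nat_lit 1) (nat_lit 0x400400020009923682))))) (.nd (nat_lit 11) 
(.nd (nat_lit 10) (.nd (nat_lit 21) 
(.lf (nat_lit 536978422) (dlOf (nat_lit 1) (nat_lit 0x20028002881))) 
(.lf (nat_lit 35759094) (dlOf (nat_lit 1) (nat_lit 0x20019012881)))) 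
(.lf (nat_lit 5972797430) (dlOf (nat_lit 1) (nat_lit 0x400400020008144682)))) (.nd (nat_lit 19) 
(.lf (nat_lit 5637254134) (dlOf (nat_lit 1) (nat_lit 0x20018055f01))) 
(.lf (nat_lit 20556790) (dlOf (nat_lit 1) (nat_lit 0x200289d5f01)))))))) (.nd (nat_lit 21) 
(.nd (nat_lit 28) (.nd (nat_lit 27) (.nd (nat_lit 6) (.nd (nat_lit 29) (.nd (nat_lit 8) 
(.lf (nat_lit 892982) (dlOf (nat_lit 2) (nat_lit 0x4c000001bd0200040008030d01))) 
(.lf (nat_lit 8759094) (dlOf (nat_lit 1) (nat_lit 0x20018513e01)))) (.nd (nat_lit 22) 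
(.lf (nat_lit 1610981430) (dlOf (nat_lit 2) (nat_lit 0x3814c001006a0024704000200080b0481))) 
(.lf (nat_lit 2756026422) (dlOf (nat_lit 1) (nat_lit 0x4004000400081d0b02))))) (.nd (nat_lit 7) 
(.lf (nat_lit 21340534) (dlOf (nat_lit 1) (nat_lit 0xa20008a35801))) 
(.lf (nat_lit 18718966) (dlOf (nat_lit 1) (nat_lit 0x220028970601))))) (.nd (nat_lit 9) 
(.nd (nat_lit 19) 
(.lf (nat_lit 738566198) (dlOf (nat_lit 2) (nat_lit 0x3814c001006a0024704000200080b0481))) 
(.lf (nat_lit 2819465270) (dlOf (nat_lit 2) (nat_lit 0x80e0000401c0001d04001000182a0881)))) 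
(.nd (nat_lit 8) (.lf (nat_lit 4429557302) (dlOf (nat_lit 1) (nat_lit 0x20018117181))) 
(.lf (nat_lit 2349185846) (dlOf (nat_lit 2) (nat_lit 0x12014002c1008012800801b400200be00080fbc83)))))) 
(.nd (nat_lit 6) (.nd (nat_lit 30) (.nd (nat_lit 27) 
(.lf (nat_lit 4563771446) (dlOf (nat_lit 1) (nat_lit 0x4002001000080d0482))) 
(.lf (nat_lit 4697989174) (dlOf (nat_lit 1) (nat_lit 0x4002001000080d0482)))) (.nd (nat_lit 19) 
(.lf (nat_lit 3494223926) (dlOf (nat_lit 1) (nat_lit 0x4004000400081d0b02))) 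
(.lf (nat_lit 3557662774) (dlOf (nat_lit 2) (nat_lit 0x80e8000401c0001c04001000182a0881))))) 
(.nd (nat_lit 19) (.nd (nat_lit 7) 
(.lf (nat_lit 6241493110) (dlOf (nat_lit 2) (nat_lit 0xc00980040804002800400240018100d82))) 
(.lf (nat_lit 2483402742) (dlOf (nat_lit 2) (nat_lit 0x10070015140800b80080120002007000080fa603)))) 
(.nd (nat_lit 11) (.lf (nat_lit 1343070582) (dlOf (nat_lit 1) (nat_lit 0x40028150b01))) 
(.lf (nat_lit 3490556278) (dlOf (nat_lit 1) (nat_lit 0x3c00080008002004e0008004e83))))))) 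
(.nd (nat_lit 24) (.nd (nat_lit 19) (.nd (nat_lit 9) (.nd (nat_lit 10) 
(.lf (nat_lit 3492126774) (dlOf (nat_lit 1) (nat_lit 0x40008000c002002800080a0b83))) 
(.lf (nat_lit 473277494) (dlOf (nat_lit 1) (nat_lit 0x140008e32881)))) 
(.lf (nat_lit 1009101366) (dlOf (nat_lit 1) (nat_lit 0xc00400020009085182)))) (.nd (nat_lit 6) 
(.nd (nat_lit 22) (.lf (nat_lit 4038710) (dlOf (nat_lit 1) (nat_lit 0x400200020008270b82))) 
(.lf (nat_lit 16621622) (dlOf (nat_lit 2) (nat_lit 0x149a60001c02000600088c0881)))) 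
(.nd (nat_lit 9) (.lf (nat_lit 36546934) (dlOf (nat_lit 1) (nat_lit 0x80019074e81))) 
(.lf (nat_lit 8238966) (dlOf (nat_lit 1) (nat_lit 0x2000080004002004c000851a303)))))) 
(.nd (nat_lit 6) (.nd (nat_lit 7) (.nd (nat_lit 8) 
(.lf (nat_lit 23437878) (dlOf (nat_lit 1) (nat_lit 0x10008000800200020008b80f83))) 
(.lf (nat_lit 23437622) (dlOf (nat_lit 1) (nat_lit 0x1000400040008b80582)))) 
(.lf (nat_lit 52797622) (dlOf (nat_lit 2) (nat_lit 0x322538000000802d00080030002012c0009570683)))) 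
(.nd (nat_lit 7) (.nd (nat_lit 8) 
(.lf (nat_lit 28680310) (dlOf (nat_lit 1) (nat_lit 0x400200020008da0482))) 
(.lf (nat_lit 33401206) (dlOf (nat_lit 1) (nat_lit 0x20018f54e81)))) (.nd (nat_lit 8) 
(.lf (nat_lit 19774198) (dlOf (nat_lit 1) (nat_lit 0x4002000200089db982))) 
(.lf (nat_lit 52798966) (dlOf (nat_lit 1) (nat_lit 0x16000400720009573682))))))))))) 
(.nd (nat_lit 15) (.nd (nat_lit 5) (.nd (nat_lit 18) (.nd (nat_lit 6) (.nd (nat_lit 19) 
(.nd (nat_lit 26) (.nd (nat_lit 27) (.nd (nat_lit 22) (.nd (nat_lit 7) 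
(.lf (nat_lit 6711092502) (dlOf (nat_lit 1) (nat_lit 0x20028093081))) 
(.lf (nat_lit 16982166) (dlOf (nat_lit 1) (nat_lit 0xc00288e0481)))) (.nd (nat_lit 20) 
(.nd (nat_lit 31) 
(.lf (nat_lit 1346576406) (dlOf (nat_lit 2) (nat_lit 0x800000094040014002003c0008fd0102))) 
(.lf (nat_lit 3494060054) (dlOf (nat_lit 2) (nat_lit 0x3422f00d218181b0000)))) 
(.lf (nat_lit 22224918) (dlOf (nat_lit 1) (nat_lit 0x1800400020018aa0a82))))) (.nd (nat_lit 8) 
(.nd (nat_lit 28) (.lf (nat_lit 4966260758) (dlOf (nat_lit 1) (nat_lit 0x20008090001))) 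
(.lf (nat_lit 5234696214) (dlOf (nat_lit 3) (nat_lit 0x14060000202e00070108035001800300b801a7e04000c004001000080a0a02)))) 
(.nd (nat_lit 7) (.lf (nat_lit 3892523286) (dlOf (nat_lit 1) (nat_lit 0x20028158081))) 
(.lf (nat_lit 2818782614) (dlOf (nat_lit 1) (nat_lit 0x400400020008129902)))))) (.nd (nat_lit 8) 
(.nd (nat_lit 10) (.nd (nat_lit 27) 
(.lf (nat_lit 5704458262) (dlOf (nat_lit 2) (nat_lit 0xc00c00008c080148008000800200160008090303))) 
(.lf (nat_lit 3691192342) (dlOf (nat_lit 1) (nat_lit 0x200280a0481)))) (.nd (nat_lit 7) 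
(.nd (nat_lit 12) (.lf (nat_lit 1677927446) (dlOf (nat_lit 1) (nat_lit 0x14002000c0008112882))) 
(.lf (nat_lit 3556979734) (dlOf (nat_lit 1) (nat_lit 0x18008005800200040008129203)))) 
(.lf (nat_lit 6509768342) (dlOf (nat_lit 1) (nat_lit 0x20028147201))))) (.nd (nat_lit 7) 
(.nd (nat_lit 10) (.lf (nat_lit 2214798102) (dlOf (nat_lit 1) (nat_lit 0x4002000200080a2102))) 
(.lf (nat_lit 2885887766) (dlOf (nat_lit 1) (nat_lit 0x400400020008143c82)))) (.nd (nat_lit 9) 
(.lf (nat_lit 3556980118) (dlOf (nat_lit 1) (nat_lit 0x400400600008129902))) 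
(.lf (nat_lit 1141058454) (dlOf (nat_lit 4) (nat_lit 0x3cc04c000610201b4026000300100c501300017c08025800800dc00200280008095c83))))))) 
(.nd (nat_lit 26) (.nd (nat_lit 20) (.nd (nat_lit 29) (.nd (nat_lit 21) (.nd (nat_lit 27) 
(.lf (nat_lit 1342906390) (dlOf (nat_lit 1) (nat_lit 0x800400040018100902))) 
(.lf (nat_lit 134946838) (dlOf (nat_lit 2) (nat_lit 0x900ec0003e0400ec00200d200080e0282)))) 
(.lf (nat_lit 3492487190) (dlOf (nat_lit 2) (nat_lit 0x4600d00bf10180d0880)))) (.nd (nat_lit 9) 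
(.nd (nat_lit 27) 
(.lf (nat_lit 537600022) (dlOf (nat_lit 2) (nat_lit 0x100b001bc402000600180d0881))) 
(.lf (nat_lit 3893043222) (dlOf (nat_lit 1) (nat_lit 0x8008000400200020008310003)))) 
(.lf (nat_lit 1611342358) (dlOf (nat_lit 1) (nat_lit 0x400400020008138702))))) (.nd (nat_lit 21) 
(.nd (nat_lit 22) (.lf (nat_lit 26943510) (dlOf (nat_lit 1) (nat_lit 0x280008c90381))) 
(.lf (nat_lit 31137814) (dlOf (nat_lit 1) (nat_lit 0x6e0008e70501)))) (.nd (nat_lit 10) 
(.lf (nat_lit 24846358) (dlOf (nat_lit 1) (nat_lit 0x20008bc0901))) 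
(.lf (nat_lit 54209558) (dlOf (nat_lit 4) (nat_lit 0x12498c00124c4000425e000092e8000ac10002498c0005302000c4c60001262000292e8000260c0108004000c0009655f82)))))) 
(.nd (nat_lit 27) (.nd (nat_lit 21) 
(.lf (nat_lit 1410015254) (dlOf (nat_lit 2) (nat_lit 0x100b00184b02000600180d0881))) 
(.lf (nat_lit 2754289686) (dlOf (nat_lit 2) (nat_lit 0x4600d00da70180d0880)))) (.nd (nat_lit 28) 
(.lf (nat_lit 202055702) (dlOf (nat_lit 2) (nat_lit 0x900ec0003e0400ec00200d200080e0282))) 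
(.nd (nat_lit 29) (.lf (nat_lit 470491158) (dlOf (nat_lit 1) (nat_lit 0x800400040018100902))) 
(.lf (nat_lit 1007362070) (dlOf (nat_lit 1) (nat_lit 0x20028300a01)))))))) (.nd (nat_lit 26) 
(.nd (nat_lit 25) (.nd (nat_lit 7) (.nd (nat_lit 8) 
(.lf (nat_lit 32189014) (dlOf (nat_lit 2) (nat_lit 0x3521800128c40004a08001400200180008ef5302))) 
(.nd (nat_lit 20) (.lf (nat_lit 3087212886) (dlOf (nat_lit 2) (nat_lit 0x202300016818154e00))) 
(.lf (nat_lit 1253718) (dlOf (nat_lit 1) (nat_lit 0x2c002000200080a4d02))))) (.nd (nat_lit 28) 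
(.nd (nat_lit 8) (.lf (nat_lit 2818781910) (dlOf (nat_lit 1) (nat_lit 0x400200020008128c82))) 
(.lf (nat_lit 537076694) (dlOf (nat_lit 1) (nat_lit 0x20028002881)))) (.nd (nat_lit 19) 
(.lf (nat_lit 6711092182) (dlOf (nat_lit 1) (nat_lit 0x400400020008092882))) 
(.lf (nat_lit 1346053078) (dlOf (nat_lit 1) (nat_lit 0x8008000400200080008e22883)))))) 
(.nd (nat_lit 19) (.nd (nat_lit 20) (.nd (nat_lit 21) 
(.lf (nat_lit 50537430) (dlOf (nat_lit 1) (nat_lit 0x80080004002000200094c2883))) 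
(.lf (nat_lit 35857366) (dlOf (nat_lit 1) (nat_lit 0x60019012881)))) 
(.lf (nat_lit 57877462) (dlOf (nat_lit 1) (nat_lit 0x30008004000200120009792883)))) 
(.nd (nat_lit 20) (.nd (nat_lit 22) 
(.lf (nat_lit 34284502) (dlOf (nat_lit 1) (nat_lit 0x20018fb2881))) 
(.lf (nat_lit 38478806) (dlOf (nat_lit 1) (nat_lit 0x20009132881)))) (.nd (nat_lit 8) 
(.lf (nat_lit 54206678) (dlOf (nat_lit 2) (nat_lit 0xa40000017819650980))) 
(.lf (nat_lit 56304598) (dlOf (nat_lit 1) (nat_lit 0x8008000c00200020009732883))))))) 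
(.nd (nat_lit 8) (.nd (nat_lit 12) (.nd (nat_lit 7) 
(.lf (nat_lit 4496498774) (dlOf (nat_lit 2) (nat_lit 0x5900700250036023401a009200c0000cc2006b0008018000200940008090603))) 
(.nd (nat_lit 10) (.lf (nat_lit 2755862742) (dlOf (nat_lit 1) (nat_lit 0x200281b0481))) 
(.lf (nat_lit 6509767894) (dlOf (nat_lit 1) (nat_lit 0x3a0018146481))))) (.nd (nat_lit 7) 
(.lf (nat_lit 2617456214) (dlOf (nat_lit 1) (nat_lit 0x13800800a0002006c00080a9c03))) 
(.nd (nat_lit 9) 
(.lf (nat_lit 3556980950) (dlOf (nat_lit 1) (nat_lit 0x140008019c00200a4000812a883))) 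
(.lf (nat_lit 3556979414) (dlOf (nat_lit 1) (nat_lit 0x400200020008128c82)))))) (.nd (nat_lit 9) 
(.nd (nat_lit 10) (.lf (nat_lit 3556981206) (dlOf (nat_lit 1) (nat_lit 0x40040002001812b202))) 
(.lf (nat_lit 3154329046) (dlOf (nat_lit 1) (nat_lit 0x8001815cd01)))) (.nd (nat_lit 20) 
(.nd (nat_lit 28) (.lf (nat_lit 3959628758) (dlOf (nat_lit 1) (nat_lit 0x20028112881))) 
(.lf (nat_lit 4764935126) (dlOf (nat_lit 1) (nat_lit 0x800400020008092882)))) 
(.lf (nat_lit 473113558) (dlOf (nat_lit 1) (nat_lit 0x8008000400200020008d12883)))))))) 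
(.nd (nat_lit 21) (.nd (nat_lit 6) (.nd (nat_lit 27) (.nd (nat_lit 19) (.nd (nat_lit 7) 
(.nd (nat_lit 20) 
(.lf (nat_lit 6442917910) (dlOf (nat_lit 1) (nat_lit 0x8008000400200020008220883))) 
(.lf (nat_lit 56041494) (dlOf (nat_lit 3) (nat_lit 0x58260006bfc000153d8007b418001b04c003cc04001400400100019710082)))) 
(.nd (nat_lit 10) (.lf (nat_lit 54993046) (dlOf (nat_lit 1) (nat_lit 0x340009681101))) 
(.lf (nat_lit 8860822) (dlOf (nat_lit 3) (nat_lit 0x655f002748100432af8013600801b8008005c00200080008519503))))) 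
(.nd (nat_lit 8) (.nd (nat_lit 22) 
(.lf (nat_lit 1880039446) (dlOf (nat_lit 1) (nat_lit 0xe0018540081))) 
(.lf (nat_lit 21962774) (dlOf (nat_lit 1) (nat_lit 0x20028a80881)))) 
(.lf (nat_lit 4094634774) (dlOf (nat_lit 1) (nat_lit 0x1e0018055b81))))) (.nd (nat_lit 7) 
(.nd (nat_lit 26) (.lf (nat_lit 3624345622) (dlOf (nat_lit 1) (nat_lit 0x20028170881))) 
(.nd (nat_lit 28) (.lf (nat_lit 2886148118) (dlOf (nat_lit 1) (nat_lit 0x20028170881))) 
(.lf (nat_lit 5838938134) (dlOf (nat_lit 1) (nat_lit 0x8008000400200020008220883))))) 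
(.nd (nat_lit 8) (.nd (nat_lit 26) 
(.lf (nat_lit 134684822) (dlOf (nat_lit 1) (nat_lit 0x80080084002000a0008090183))) 
(.lf (nat_lit 201793686) (dlOf (nat_lit 1) (nat_lit 0x80080084002000a0008090183)))) 
(.lf (nat_lit 1208428950) (dlOf (nat_lit 1) (nat_lit 0x4004000200080e4e82)))))) (.nd (nat_lit 28) 
(.nd (nat_lit 7) (.nd (nat_lit 20) 
(.lf (nat_lit 47128662) (dlOf (nat_lit 1) (nat_lit 0x400193a0701))) 
(.lf (nat_lit 2753503318) (dlOf (nat_lit 1) (nat_lit 0x20008090001)))) (.nd (nat_lit 10) 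
(.nd (nat_lit 19) (.lf (nat_lit 2751931350) (dlOf (nat_lit 1) (nat_lit 0x400200020008002882))) 
(.lf (nat_lit 56566742) (dlOf (nat_lit 1) (nat_lit 0x8008000400200020009732883)))) 
(.lf (nat_lit 8859606) (dlOf (nat_lit 1) (nat_lit 0x8008000400200020008517a83))))) (.nd (nat_lit 8) 
(.nd (nat_lit 19) 
(.lf (nat_lit 3557236822) (dlOf (nat_lit 3) (nat_lit 0x58039003501440008e08014c0e4000460200040008170781))) 
(.lf (nat_lit 1343168598) (dlOf (nat_lit 1) (nat_lit 0x800400020008190782)))) (.nd (nat_lit 9) 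
(.nd (nat_lit 26) 
(.lf (nat_lit 3490652502) (dlOf (nat_lit 3) (nat_lit 0xa83d0000630200521e800021018014d00))) 
(.lf (nat_lit 6376333654) (dlOf (nat_lit 1) (nat_lit 0x2e0028090d81)))) 
(.lf (nat_lit 4027005782) (dlOf (nat_lit 1) (nat_lit 0x8002000200080fbc82))))))) (.nd (nat_lit 7) 
(.nd (nat_lit 19) (.nd (nat_lit 24) (.nd (nat_lit 9) (.nd (nat_lit 26) 
(.lf (nat_lit 3492225046) (dlOf (nat_lit 1) (nat_lit 0x100080004002000200080b0903))) 
(.lf (nat_lit 2754027542) (dlOf (nat_lit 1) (nat_lit 0x100080004002000200080b0903)))) 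
(.lf (nat_lit 1345790486) (dlOf (nat_lit 2) (nat_lit 0x621900057818de8700)))) (.nd (nat_lit 9) 
(.nd (nat_lit 25) (.lf (nat_lit 27729942) (dlOf (nat_lit 1) (nat_lit 0x20018d20401))) 
(.lf (nat_lit 61284374) (dlOf (nat_lit 1) (nat_lit 0x18008001000200020009900083)))) 
(.lf (nat_lit 58139158) (dlOf (nat_lit 1) (nat_lit 0x1200197c7e01))))) (.nd (nat_lit 6) 
(.nd (nat_lit 9) (.lf (nat_lit 28254230) (dlOf (nat_lit 1) (nat_lit 0x400400020008d70402))) 
(.nd (nat_lit 20) 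
(.lf (nat_lit 472850966) (dlOf (nat_lit 1) (nat_lit 0x300008000800200260008b18703))) 
(.lf (nat_lit 3493798422) (dlOf (nat_lit 2) (nat_lit 0x702100050c0800200080014002000e00081b0d83))))) 
(.nd (nat_lit 24) (.nd (nat_lit 26) 
(.lf (nat_lit 3493797974) (dlOf (nat_lit 1) (nat_lit 0x200181b0001))) 
(.lf (nat_lit 473899094) (dlOf (nat_lit 2) (nat_lit 0x4e216012a000000094100058008005c00200b40008fc0803)))) 
(.lf (nat_lit 20914262) (dlOf (nat_lit 2) (nat_lit 0x160c000054080008008000c002000200089f0703)))))) 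
(.nd (nat_lit 11) (.nd (nat_lit 9) (.nd (nat_lit 6) (.nd (nat_lit 8) 
(.lf (nat_lit 1344742550) (dlOf (nat_lit 1) (nat_lit 0x800200020008982b82))) 
(.lf (nat_lit 19871126) (dlOf (nat_lit 1) (nat_lit 0x8a00089d9901)))) 
(.lf (nat_lit 472850902) (dlOf (nat_lit 1) (nat_lit 0x1b20018b17b01)))) (.nd (nat_lit 8) 
(.lf (nat_lit 19870422) (dlOf (nat_lit 1) (nat_lit 0x200289d8c81))) (.nd (nat_lit 19) 
(.lf (nat_lit 473375702) (dlOf (nat_lit 1) (nat_lit 0x8008000400200020008ef2883))) 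
(.lf (nat_lit 3492750294) (dlOf (nat_lit 1) (nat_lit 0x20004000600080f2882)))))) (.nd (nat_lit 6) 
(.nd (nat_lit 8) 
(.lf (nat_lit 3492751510) (dlOf (nat_lit 1) (nat_lit 0x800080014002000400080f4803))) 
(.lf (nat_lit 53946774) (dlOf (nat_lit 1) (nat_lit 0x1b00080068002000400095f4e83)))) 
(.nd (nat_lit 8) (.lf (nat_lit 2754559190) (dlOf (nat_lit 1) (nat_lit 0x200280fc381))) 
(.nd (nat_lit 10) (.lf (nat_lit 57092566) (dlOf (nat_lit 1) (nat_lit 0xe0029794e81))) 
(.lf (nat_lit 19869142) (dlOf (nat_lit 2) (nat_lit 0xe6c280038c0800080080004002000200089d6d03)))))))))) 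
(.nd (nat_lit 31) (.nd (nat_lit 8) (.nd (nat_lit 18) (.nd (nat_lit 19) (.nd (nat_lit 7) 
(.nd (nat_lit 26) (.nd (nat_lit 20) 
(.lf (nat_lit 1073946678) (dlOf (nat_lit 1) (nat_lit 0x400400080018030d02))) 
(.lf (nat_lit 24322102) (dlOf (nat_lit 1) (nat_lit 0x20018b90b81)))) (.nd (nat_lit 27) 
(.lf (nat_lit 1946361910) (dlOf (nat_lit 1) (nat_lit 0x400400080018030d02))) 
(.lf (nat_lit 5838676022) (dlOf (nat_lit 2) (nat_lit 0x34074001a025000d00d00068060002a810003c004001a0018120d02))))) 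
(.nd (nat_lit 6) (.nd (nat_lit 9) 
(.lf (nat_lit 1543711926) (dlOf (nat_lit 2) (nat_lit 0xa02e00016018146280))) 
(.lf (nat_lit 1141058230) (dlOf (nat_lit 1) (nat_lit 0x200080034002000c0008095703)))) 
(.lf (nat_lit 2080580854) (dlOf (nat_lit 1) (nat_lit 0x400200020008092e82))))) (.nd (nat_lit 20) 
(.nd (nat_lit 7) (.nd (nat_lit 26) 
(.lf (nat_lit 537600054) (dlOf (nat_lit 3) (nat_lit 0x2c05d000e881000e02e80073c0802b80080008002000400080d0b83))) 
(.lf (nat_lit 1410015286) (dlOf (nat_lit 3) (nat_lit 0x2c05d000e881000e02e80073c0802b80080008002000400080d0b83)))) 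
(.nd (nat_lit 10) 
(.lf (nat_lit 17506486) (dlOf (nat_lit 1) (nat_lit 0x22800802e000200b400088e0483))) 
(.lf (nat_lit 32187574) (dlOf (nat_lit 1) (nat_lit 0x1a000200d20008ef2c82))))) (.nd (nat_lit 24) 
(.nd (nat_lit 10) (.lf (nat_lit 5773140022) (dlOf (nat_lit 1) (nat_lit 0x200280a0f81))) 
(.lf (nat_lit 39527478) (dlOf (nat_lit 1) (nat_lit 0x8008000400200020009192883)))) (.nd (nat_lit 6) 
(.lf (nat_lit 18554934) (dlOf (nat_lit 3) (nat_lit 0x1940800087c4001618b0000e8300012bc000112780000808007800400020008950882))) 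
(.lf (nat_lit 20658934) (dlOf (nat_lit 1) (nat_lit 0x1c004000600089db982))))))) (.nd (nat_lit 26) 
(.nd (nat_lit 22) (.nd (nat_lit 29) (.nd (nat_lit 6) (.nd (nat_lit 20) 
(.lf (nat_lit 2564150) (dlOf (nat_lit 3) (nat_lit 0x8b010001d81000557d0000d80800200080008002001c0008170b03))) 
(.lf (nat_lit 9904182) (dlOf (nat_lit 10) (nat_lit 0x10d228003e90c002b4820013a3f000cd1d800468e4001346a00159dc00609880008d228004e90c001f482000fa3f0004d1d8003e8e4001b3b800c120e000ba450007d218001e904018220c002f4860015a41000bd1f800668ec002f472001d9dc0060806000ad228007e90c0027482001da3f000ad1d800567700165418002b48a001da430007d208000e8fc001b476000f9dc00594860010d228004e904002747600159dc0059404000ed228004e904001f47600199dc00593840001cb08029ec08001800800b400200c40008591003)))) 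
(.lf (nat_lit 34021622) (dlOf (nat_lit 2) (nat_lit 0x123338005b00800d8008010c002000e0008f92483)))) 
(.nd (nat_lit 28) 
(.lf (nat_lit 1611079734) (dlOf (nat_lit 2) (nat_lit 0x81240038c040084004002c00080d0482))) 
(.lf (nat_lit 1879515190) (dlOf (nat_lit 4) (nat_lit 0x210000000a88100080aa8004dc0800f854c001e80400c8004003c0018190482))))) 
(.nd (nat_lit 19) (.nd (nat_lit 20) 
(.lf (nat_lit 21438518) (dlOf (nat_lit 1) (nat_lit 0x400200020008a40482))) 
(.lf (nat_lit 24584246) (dlOf (nat_lit 1) (nat_lit 0x20008ba0b01)))) (.nd (nat_lit 6) 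
(.lf (nat_lit 21962806) (dlOf (nat_lit 1) (nat_lit 0xa0008000800200720008a80d03))) 
(.lf (nat_lit 24060150) (dlOf (nat_lit 2) (nat_lit 0x2ac600123018b80480)))))) (.nd (nat_lit 29) 
(.nd (nat_lit 6) (.nd (nat_lit 19) 
(.lf (nat_lit 5838938166) (dlOf (nat_lit 1) (nat_lit 0x280008220b81))) 
(.lf (nat_lit 470753334) (dlOf (nat_lit 1) (nat_lit 0x18008000400200020008170483)))) 
(.lf (nat_lit 4362543222) (dlOf (nat_lit 1) (nat_lit 0x2000400060008090082)))) (.nd (nat_lit 6) 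
(.nd (nat_lit 28) 
(.lf (nat_lit 738664502) (dlOf (nat_lit 2) (nat_lit 0x81240038c040084004002c00080d0482))) 
(.lf (nat_lit 1007099958) (dlOf (nat_lit 1) (nat_lit 0x1960018170481)))) 
(.lf (nat_lit 6376333558) (dlOf (nat_lit 3) (nat_lit 0x2d0488002c004008c2400009c02000c0008090a81))))))) 
(.nd (nat_lit 7) (.nd (nat_lit 20) (.nd (nat_lit 9) (.nd (nat_lit 6) 
(.lf (nat_lit 6376333622) (dlOf (nat_lit 1) (nat_lit 0x280080004002006c0008090b83))) 
(.nd (nat_lit 32) (.lf (nat_lit 1141057910) (dlOf (nat_lit 1) (nat_lit 0x20028094e81))) 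
(.lf (nat_lit 5436025206) (dlOf (nat_lit 1) (nat_lit 0x20028094e81))))) (.nd (nat_lit 10) 
(.nd (nat_lit 11) (.lf (nat_lit 19870518) (dlOf (nat_lit 1) (nat_lit 0x7e00189d8f81))) 
(.lf (nat_lit 1141058358) (dlOf (nat_lit 10) (nat_lit 0x8a0130007880804d80980035a0403d404c000400202400260001e0100ef0130000ec0807a8098000740403cc04c00033020200026000150100f5013000050080118008007c002003e0008095c03)))) 
(.lf (nat_lit 537077558) (dlOf (nat_lit 1) (nat_lit 0x4004008a0008003e02))))) (.nd (nat_lit 9) 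
(.nd (nat_lit 18) (.nd (nat_lit 22) 
(.lf (nat_lit 37431670) (dlOf (nat_lit 1) (nat_lit 0x3c002001200090d4e82))) 
(.lf (nat_lit 33237366) (dlOf (nat_lit 1) (nat_lit 0x20018f54e81)))) (.nd (nat_lit 21) 
(.lf (nat_lit 1008675190) (dlOf (nat_lit 1) (nat_lit 0x8008000400200020008ef4e83))) 
(.lf (nat_lit 1346316662) (dlOf (nat_lit 1) (nat_lit 0x20008005000200280008f04e83))))) 
(.nd (nat_lit 6) (.lf (nat_lit 20130614) (dlOf (nat_lit 1) (nat_lit 0x4002000200089d5c02))) 
(.lf (nat_lit 8075126) (dlOf (nat_lit 1) (nat_lit 0x2700080004002003c000851a303)))))) 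
(.nd (nat_lit 6) (.nd (nat_lit 10) (.nd (nat_lit 9) (.nd (nat_lit 19) 
(.lf (nat_lit 11739574) (dlOf (nat_lit 1) (nat_lit 0x4200186c0801))) 
(.lf (nat_lit 6378168758) (dlOf (nat_lit 1) (nat_lit 0xc00200020008116e82)))) 
(.lf (nat_lit 6241332150) (dlOf (nat_lit 1) (nat_lit 0xc004000600080d5d02)))) (.nd (nat_lit 26) 
(.lf (nat_lit 5637350838) (dlOf (nat_lit 1) (nat_lit 0x800280d3601))) 
(.lf (nat_lit 5167588790) (dlOf (nat_lit 1) (nat_lit 0x200180d3601))))) (.nd (nat_lit 20) 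
(.nd (nat_lit 9) (.nd (nat_lit 10) 
(.lf (nat_lit 537082358) (dlOf (nat_lit 1) (nat_lit 0x80040064000800b282))) 
(.lf (nat_lit 8594934) (dlOf (nat_lit 1) (nat_lit 0x20028513681)))) 
(.lf (nat_lit 61809654) (dlOf (nat_lit 1) (nat_lit 0x20029922881)))) (.nd (nat_lit 9) 
(.nd (nat_lit 10) (.lf (nat_lit 8069622) (dlOf (nat_lit 1) (nat_lit 0x400200020008511402))) 
(.lf (nat_lit 43460086) (dlOf (nat_lit 1) (nat_lit 0x4004000200092a3682)))) 
(.lf (nat_lit 57877494) (dlOf (nat_lit 1) (nat_lit 0x800080004002000a0009792883)))))))) 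
(.nd (nat_lit 26) (.nd (nat_lit 28) (.nd (nat_lit 7) (.nd (nat_lit 12) (.nd (nat_lit 29) 
(.nd (nat_lit 18) 
(.lf (nat_lit 6442655798) (dlOf (nat_lit 2) (nat_lit 0x34074001a025000d00d00068060002a810003c004001a0018120d02))) 
(.lf (nat_lit 6442917942) (dlOf (nat_lit 1) (nat_lit 0x280008220b81)))) (.nd (nat_lit 27) 
(.lf (nat_lit 3758563382) (dlOf (nat_lit 1) (nat_lit 0x400282a0881))) 
(.lf (nat_lit 3892781110) (dlOf (nat_lit 2) (nat_lit 0x150160000000800480080068002001c0008260883))))) 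
(.nd (nat_lit 6) 
(.lf (nat_lit 2818784566) (dlOf (nat_lit 2) (nat_lit 0x300d8001ea04002c004000a000812c802))) 
(.nd (nat_lit 10) (.lf (nat_lit 2818781814) (dlOf (nat_lit 1) (nat_lit 0xc00200040008128982))) 
(.lf (nat_lit 3355653750) (dlOf (nat_lit 1) (nat_lit 0x480080060002001200080a9d03)))))) 
(.nd (nat_lit 6) (.nd (nat_lit 8) (.nd (nat_lit 9) 
(.lf (nat_lit 3758305462) (dlOf (nat_lit 1) (nat_lit 0x8008001400200020008127e83))) 
(.lf (nat_lit 2818781878) (dlOf (nat_lit 1) (nat_lit 0x8008000400200020008128c83)))) 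
(.lf (nat_lit 2818781622) (dlOf (nat_lit 1) (nat_lit 0xc00200020008128502)))) (.nd (nat_lit 9) 
(.lf (nat_lit 2818784502) (dlOf (nat_lit 1) (nat_lit 0x14000800980020052000812c603))) 
(.lf (nat_lit 3355652854) (dlOf (nat_lit 1) (nat_lit 0x30004004800080a8f82)))))) (.nd (nat_lit 8) 
(.nd (nat_lit 21) (.nd (nat_lit 6) (.nd (nat_lit 9) 
(.lf (nat_lit 3624345654) (dlOf (nat_lit 2) (nat_lit 0x78000000d9818170d00))) 
(.lf (nat_lit 3490652726) (dlOf (nat_lit 1) (nat_lit 0x120028018101)))) 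
(.lf (nat_lit 3489869046) (dlOf (nat_lit 1) (nat_lit 0x400400060008006582)))) (.nd (nat_lit 6) 
(.nd (nat_lit 11) 
(.lf (nat_lit 3492487222) (dlOf (nat_lit 3) (nat_lit 0x160d9000e881000306c80073c0800500080028002000c00080d0b83))) 
(.lf (nat_lit 3492755510) (dlOf (nat_lit 1) (nat_lit 0x80080004002000200080fa603)))) 
(.lf (nat_lit 3493798134) (dlOf (nat_lit 4) (nat_lit 0x4033000200fc003a008001807e001ce02000e051000e50181b0480))))) 
(.nd (nat_lit 6) (.nd (nat_lit 7) (.nd (nat_lit 9) 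
(.lf (nat_lit 3087212854) (dlOf (nat_lit 1) (nat_lit 0x80018154c01))) 
(.lf (nat_lit 3492751158) (dlOf (nat_lit 1) (nat_lit 0xa80080008002000400080f3e03)))) 
(.lf (nat_lit 3491439030) (dlOf (nat_lit 1) (nat_lit 0x20008000800200080008090803)))) 
(.nd (nat_lit 7) (.nd (nat_lit 10) 
(.lf (nat_lit 3490130294) (dlOf (nat_lit 1) (nat_lit 0x1c80080004002005e0008004e83))) 
(.lf (nat_lit 3490131318) (dlOf (nat_lit 1) (nat_lit 0x7c004002a0008006b82)))) 
(.lf (nat_lit 3087213046) (dlOf (nat_lit 5) (nat_lit 0x28002c0118012007e000000178300420058000b808028802c011c012007e00000016830001005800098080420008007400200060008157e03))))))) 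
(.nd (nat_lit 29) (.nd (nat_lit 7) (.nd (nat_lit 8) (.nd (nat_lit 6) 
(.lf (nat_lit 3557236790) (dlOf (nat_lit 2) (nat_lit 0xc8000002a204005800200300008170482))) 
(.lf (nat_lit 2617456246) (dlOf (nat_lit 1) (nat_lit 0x14004000200080a9d02)))) (.nd (nat_lit 9) 
(.nd (nat_lit 10) (.lf (nat_lit 6509767030) (dlOf (nat_lit 1) (nat_lit 0x20028144e81))) 
(.lf (nat_lit 6509768054) (dlOf (nat_lit 1) (nat_lit 0x3e0018146b81)))) 
(.lf (nat_lit 3556978550) (dlOf (nat_lit 1) (nat_lit 0xc00400020008127782))))) (.nd (nat_lit 6) 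
(.nd (nat_lit 8) 
(.lf (nat_lit 3556979382) (dlOf (nat_lit 1) (nat_lit 0x8008000400200020008128c83))) 
(.nd (nat_lit 9) (.lf (nat_lit 3556979126) (dlOf (nat_lit 1) (nat_lit 0xc00200020008128502))) 
(.lf (nat_lit 3556978614) (dlOf (nat_lit 1) (nat_lit 0x20018127a81))))) (.nd (nat_lit 10) 
(.nd (nat_lit 27) (.lf (nat_lit 2214802166) (dlOf (nat_lit 1) (nat_lit 0x800280a8f81))) 
(.lf (nat_lit 2617455350) (dlOf (nat_lit 1) (nat_lit 0x30004004800080a8f82)))) 
(.lf (nat_lit 3556978422) (dlOf (nat_lit 1) (nat_lit 0x1440018127481)))))) (.nd (nat_lit 18) 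
(.nd (nat_lit 7) (.nd (nat_lit 8) (.nd (nat_lit 11) 
(.lf (nat_lit 2754289718) (dlOf (nat_lit 3) (nat_lit 0x160cb000e881000306580073c0800500080028002000c00080d0b83))) 
(.lf (nat_lit 2751674422) (dlOf (nat_lit 1) (nat_lit 0x8008000c0020002000800a603)))) 
(.lf (nat_lit 3825410358) (dlOf (nat_lit 1) (nat_lit 0x80018154c01)))) (.nd (nat_lit 6) 
(.lf (nat_lit 2753241526) (dlOf (nat_lit 1) (nat_lit 0x20008000800200080008090803))) 
(.lf (nat_lit 2752199158) (dlOf (nat_lit 1) (nat_lit 0x40040002000800b282))))) (.nd (nat_lit 27) 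
(.nd (nat_lit 9) (.nd (nat_lit 20) 
(.lf (nat_lit 3020365878) (dlOf (nat_lit 1) (nat_lit 0x400282a0881))) 
(.lf (nat_lit 4095156278) (dlOf (nat_lit 1) (nat_lit 0x28008001000200040008070483)))) 
(.lf (nat_lit 2752455222) (dlOf (nat_lit 1) (nat_lit 0x20018018b01)))) (.nd (nat_lit 6) 
(.nd (nat_lit 28) (.lf (nat_lit 2886148150) (dlOf (nat_lit 2) (nat_lit 0x78000000d1818170d00))) 
(.lf (nat_lit 4228325430) (dlOf (nat_lit 1) (nat_lit 0x24004000c0018090002)))) 
(.lf (nat_lit 4228325494) (dlOf (nat_lit 1) (nat_lit 0x2000400060008090082)))))))))) 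
(.nd (nat_lit 6) (.nd (nat_lit 5) (.nd (nat_lit 18) (.nd (nat_lit 8) (.nd (nat_lit 28) 
(.nd (nat_lit 19) (.nd (nat_lit 27) (.nd (nat_lit 7) (.nd (nat_lit 20) 
(.lf (nat_lit 44277782) (dlOf (nat_lit 1) (nat_lit 0x10c00092e0001))) 
(.lf (nat_lit 47423510) (dlOf (nat_lit 1) (nat_lit 0x7400193f0101)))) (.nd (nat_lit 29) 
(.lf (nat_lit 6442688662) (dlOf (nat_lit 1) (nat_lit 0x400400020008154002))) 
(.lf (nat_lit 3758334102) (dlOf (nat_lit 1) (nat_lit 0x5000200020008130282))))) (.nd (nat_lit 9) 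
(.nd (nat_lit 26) (.lf (nat_lit 134455318) (dlOf (nat_lit 2) (nat_lit 0x5802f000d7818020480))) 
(.lf (nat_lit 201564182) (dlOf (nat_lit 2) (nat_lit 0x5802f00091818020480)))) 
(.lf (nat_lit 2818814486) (dlOf (nat_lit 1) (nat_lit 0x800800f800200600008128783))))) 
(.nd (nat_lit 20) (.nd (nat_lit 10) 
(.lf (nat_lit 2819334166) (dlOf (nat_lit 1) (nat_lit 0x28008001c002000a0008240403))) 
(.lf (nat_lit 67875862) (dlOf (nat_lit 1) (nat_lit 0x20018339201)))) (.nd (nat_lit 21) 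
(.lf (nat_lit 31170582) (dlOf (nat_lit 1) (nat_lit 0x20018e70501))) 
(.lf (nat_lit 24879126) (dlOf (nat_lit 1) (nat_lit 0x1000400020008bc0902)))))) (.nd (nat_lit 26) 
(.nd (nat_lit 19) (.nd (nat_lit 20) (.nd (nat_lit 22) 
(.lf (nat_lit 1342414870) (dlOf (nat_lit 3) (nat_lit 0x4c448e006c23c000d7820007123800000080050008005000200020008020483))) 
(.lf (nat_lit 3494092822) (dlOf (nat_lit 1) (nat_lit 0x10002000600081b0002)))) 
(.lf (nat_lit 1343463446) (dlOf (nat_lit 1) (nat_lit 0x40018250601)))) 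
(.lf (nat_lit 1345036310) (dlOf (nat_lit 1) (nat_lit 0xe80080068002003200089d0583)))) 
(.nd (nat_lit 7) (.nd (nat_lit 19) 
(.lf (nat_lit 469999638) (dlOf (nat_lit 3) (nat_lit 0x4c448e006c23c00091820007123800000080050008005000200020008020483))) 
(.lf (nat_lit 471572502) (dlOf (nat_lit 1) (nat_lit 0x30008002000200160008340403)))) 
(.nd (nat_lit 11) (.lf (nat_lit 5838708886) (dlOf (nat_lit 1) (nat_lit 0x400400020008154002))) 
(.lf (nat_lit 3557013654) (dlOf (nat_lit 1) (nat_lit 0xa002812a881))))))) (.nd (nat_lit 10) 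
(.nd (nat_lit 11) (.nd (nat_lit 20) (.nd (nat_lit 7) 
(.lf (nat_lit 67871510) (dlOf (nat_lit 1) (nat_lit 0x20008332101))) 
(.lf (nat_lit 2013503894) (dlOf (nat_lit 1) (nat_lit 0x1500080044002000a00080c6483)))) 
(.nd (nat_lit 21) 
(.lf (nat_lit 9675158) (dlOf (nat_lit 2) (nat_lit 0x1668340182204006c00400060008576482))) 
(.lf (nat_lit 62103958) (dlOf (nat_lit 2) (nat_lit 0x1aa914014d204000c00400020009956482))))) 
(.nd (nat_lit 7) (.lf (nat_lit 5570276118) (dlOf (nat_lit 1) (nat_lit 0x4002000200080d5b82))) 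
(.nd (nat_lit 19) (.lf (nat_lit 5771602326) (dlOf (nat_lit 1) (nat_lit 0x400200060008004e82))) 
(.lf (nat_lit 37464470) (dlOf (nat_lit 1) (nat_lit 0x4002000200090d4e82)))))) (.nd (nat_lit 29) 
(.nd (nat_lit 11) (.nd (nat_lit 19) 
(.lf (nat_lit 43230486) (dlOf (nat_lit 1) (nat_lit 0xc00192a3081))) 
(.lf (nat_lit 61580566) (dlOf (nat_lit 1) (nat_lit 0x8008000400200020009923083)))) 
(.lf (nat_lit 67878166) (dlOf (nat_lit 1) (nat_lit 0x2000833c601)))) (.nd (nat_lit 9) 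
(.nd (nat_lit 27) (.lf (nat_lit 4832077078) (dlOf (nat_lit 1) (nat_lit 0x200280d3081))) 
(.lf (nat_lit 5234730262) (dlOf (nat_lit 1) (nat_lit 0x4004000200080d3082)))) 
(.lf (nat_lit 2885920534) (dlOf (nat_lit 2) (nat_lit 0x700e000000080108008006000200140008143c83))))))) 
(.nd (nat_lit 21) (.nd (nat_lit 31) (.nd (nat_lit 26) (.nd (nat_lit 19) (.nd (nat_lit 7) 
(.lf (nat_lit 13082646) (dlOf (nat_lit 2) (nat_lit 0x35220003a8d0000d01000a00080060002001a00086f0303))) 
(.lf (nat_lit 5771864470) (dlOf (nat_lit 1) (nat_lit 0x40008004e81)))) (.nd (nat_lit 20) 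
(.lf (nat_lit 13606934) (dlOf (nat_lit 22) (nat_lit 0xf9718808177aa01db104000d03100327e38076b010007718803b100406478c40409bd500ec2020142e310005717804e37aa008970900eb904005be310013ef5403ac40800278c4000dbd500eaa8202f9e31012eef54037960800b38c401bca0205d7c6201d4dea800e0000037880c01378c401bbe020021bd500db3010049e31002def54036c80800ff7aa01b5a020069bd500dab010009e37019bf188008f7ba0527bd500bc000006d382804ff188012f7aa01b3b04000fc6200d9d010017e31006ce00803f71880366e04055f8c4005fc6001a9dea80396f4c0000010011c00402460018730882))) 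
(.lf (nat_lit 2072598) (dlOf (nat_lit 1) (nat_lit 0x28008001400200060008150003))))) 
(.nd (nat_lit 7) (.nd (nat_lit 8) 
(.lf (nat_lit 4362575894) (dlOf (nat_lit 1) (nat_lit 0xe0018090001))) 
(.lf (nat_lit 1678221590) (dlOf (nat_lit 2) (nat_lit 0x100b400124040088004007800081a0482)))) 
(.lf (nat_lit 471310486) (dlOf (nat_lit 1) (nat_lit 0x200282e0481))))) (.nd (nat_lit 29) 
(.nd (nat_lit 7) (.nd (nat_lit 8) (.nd (nat_lit 28) 
(.lf (nat_lit 3221725206) (dlOf (nat_lit 1) (nat_lit 0x20028170001))) 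
(.lf (nat_lit 2416418838) (dlOf (nat_lit 5) (nat_lit 0x200900028044001c01e000c00d000880400020088003803c001801a0010f06001401200090088002803c001401a0010e08001001200080088002803c001c01a0010d08000c00081c0881)))) 
(.lf (nat_lit 3288834326) (dlOf (nat_lit 1) (nat_lit 0x8c002000200081b0482)))) 
(.lf (nat_lit 3221725334) (dlOf (nat_lit 1) (nat_lit 0x10008001000200040008170183)))) 
(.nd (nat_lit 7) (.nd (nat_lit 8) 
(.lf (nat_lit 4027032086) (dlOf (nat_lit 1) (nat_lit 0x30004000200081b0d82))) 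
(.lf (nat_lit 3892814102) (dlOf (nat_lit 1) (nat_lit 0x400400040018280702)))) (.nd (nat_lit 9) 
(.lf (nat_lit 3959922838) (dlOf (nat_lit 1) (nat_lit 0x10008001000200040008170183))) 
(.lf (nat_lit 4094667414) (dlOf (nat_lit 1) (nat_lit 0x400200040008055502))))))) (.nd (nat_lit 19) 
(.nd (nat_lit 20) (.nd (nat_lit 23) 
(.lf (nat_lit 6791190) (dlOf (nat_lit 1) (nat_lit 0x20008460501))) 
(.lf (nat_lit 48734230) (dlOf (nat_lit 1) (nat_lit 0x40008005400200660009420083)))) 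
(.nd (nat_lit 22) (.lf (nat_lit 45588502) (dlOf (nat_lit 1) (nat_lit 0x20019340081))) 
(.lf (nat_lit 16228374) (dlOf (nat_lit 2) (nat_lit 0x455000294018870480))))) (.nd (nat_lit 7) 
(.nd (nat_lit 8) (.lf (nat_lit 473931798) (dlOf (nat_lit 1) (nat_lit 0x20028fc0081))) 
(.nd (nat_lit 9) (.lf (nat_lit 24092950) (dlOf (nat_lit 1) (nat_lit 0x8008000c00200020008b80483))) 
(.lf (nat_lit 8364822) (dlOf (nat_lit 2) (nat_lit 0x50000001c604000800200020008512102))))) 
(.nd (nat_lit 10) (.lf (nat_lit 4169878) (dlOf (nat_lit 1) (nat_lit 0x4400200060008290282))) 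
(.lf (nat_lit 19901590) (dlOf (nat_lit 1) (nat_lit 0x280080004002000400089d6203)))))))) 
(.nd (nat_lit 28) (.nd (nat_lit 18) (.nd (nat_lit 9) (.nd (nat_lit 22) (.nd (nat_lit 8) 
(.nd (nat_lit 20) (.lf (nat_lit 9150518) (dlOf (nat_lit 1) (nat_lit 0x800400020008520f82))) 
(.lf (nat_lit 10199094) (dlOf (nat_lit 2) (nat_lit 0x4000000f402000c00085c0d01)))) 
(.nd (nat_lit 26) (.lf (nat_lit 537108790) (dlOf (nat_lit 1) (nat_lit 0x20008014c01))) 
(.lf (nat_lit 1677959478) (dlOf (nat_lit 2) (nat_lit 0x380280149404001400400080008124c02))))) 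
(.nd (nat_lit 21) (.nd (nat_lit 19) 
(.lf (nat_lit 12820534) (dlOf (nat_lit 1) (nat_lit 0x1400086e0b01))) 
(.lf (nat_lit 4956214) (dlOf (nat_lit 1) (nat_lit 0x8002000200082d0482)))) (.nd (nat_lit 8) 
(.lf (nat_lit 14917686) (dlOf (nat_lit 2) (nat_lit 0x7c000000de818790480))) 
(.lf (nat_lit 23306550) (dlOf (nat_lit 1) (nat_lit 0x58008006400200040008b80583)))))) 
(.nd (nat_lit 11) (.nd (nat_lit 20) (.nd (nat_lit 21) 
(.lf (nat_lit 3288572470) (dlOf (nat_lit 4) (nat_lit 0x69c064000020200040320000081000502000ff00c8019406000ee02900750110000002809300080034002004a0008090f83))) 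
(.lf (nat_lit 23306806) (dlOf (nat_lit 1) (nat_lit 0xe0008b80f81)))) 
(.lf (nat_lit 9675318) (dlOf (nat_lit 2) (nat_lit 0x479e004c4018578b00)))) (.nd (nat_lit 7) 
(.nd (nat_lit 10) (.lf (nat_lit 20163382) (dlOf (nat_lit 1) (nat_lit 0x4002000200089d5c02))) 
(.lf (nat_lit 8105782) (dlOf (nat_lit 1) (nat_lit 0x1800400040008517482)))) 
(.lf (nat_lit 5570276022) (dlOf (nat_lit 1) (nat_lit 0x4004000200080d5702)))))) (.nd (nat_lit 19) 
(.nd (nat_lit 26) (.nd (nat_lit 21) 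
(.lf (nat_lit 1611112502) (dlOf (nat_lit 2) (nat_lit 0x60148029ec080010008000c002000600080e1003))) 
(.lf (nat_lit 44539958) (dlOf (nat_lit 1) (nat_lit 0x220029320001)))) (.nd (nat_lit 27) 
(.lf (nat_lit 1678221366) (dlOf (nat_lit 2) (nat_lit 0x78056003eb0181a0000))) 
(.lf (nat_lit 738697270) (dlOf (nat_lit 2) (nat_lit 0x6014801398080010008000c002000600080e1003))))) 
(.nd (nat_lit 7) (.nd (nat_lit 20) (.nd (nat_lit 21) 
(.lf (nat_lit 21995574) (dlOf (nat_lit 1) (nat_lit 0x20018a80d01))) 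
(.lf (nat_lit 28287030) (dlOf (nat_lit 3) (nat_lit 0x1aa5c00092f800160fb0000e030001587000128cc0000808007800400020008d80882)))) 
(.lf (nat_lit 12558390) (dlOf (nat_lit 1) (nat_lit 0x800286d0a81)))) (.nd (nat_lit 8) 
(.lf (nat_lit 2072758) (dlOf (nat_lit 1) (nat_lit 0x80028150381))) 
(.lf (nat_lit 19901366) (dlOf (nat_lit 1) (nat_lit 0x2200189d5d01))))))) (.nd (nat_lit 26) 
(.nd (nat_lit 32) (.nd (nat_lit 8) (.nd (nat_lit 9) 
(.lf (nat_lit 1881908278) (dlOf (nat_lit 1) (nat_lit 0x8008000400200020009162883))) 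
(.lf (nat_lit 4026769974) (dlOf (nat_lit 4) (nat_lit 0x69c064000020200040320000081000502000ff00c8019406000ee02900750110000002809300080034002004a0008090f83)))) 
(.nd (nat_lit 18) 
(.lf (nat_lit 805544246) (dlOf (nat_lit 2) (nat_lit 0x380280096a04001400400080008124c02))) 
(.lf (nat_lit 1342677302) (dlOf (nat_lit 1) (nat_lit 0x200280c0581))))) (.nd (nat_lit 27) 
(.nd (nat_lit 18) 
(.lf (nat_lit 4563640374) (dlOf (nat_lit 2) (nat_lit 0x2016801900480036608022800400b400080b0482))) 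
(.lf (nat_lit 5637644342) (dlOf (nat_lit 1) (nat_lit 0x10008002000200020008140683)))) 
(.nd (nat_lit 19) 
(.lf (nat_lit 4697858102) (dlOf (nat_lit 2) (nat_lit 0x2016801900480034608022800400b400080b0482))) 
(.lf (nat_lit 5773172790) (dlOf (nat_lit 1) (nat_lit 0x300080008002000600080b0483)))))) 
(.nd (nat_lit 8) (.nd (nat_lit 19) (.nd (nat_lit 7) (.nd (nat_lit 18) 
(.lf (nat_lit 2483265590) (dlOf (nat_lit 1) (nat_lit 0x20018090001))) 
(.lf (nat_lit 6241624118) (dlOf (nat_lit 1) (nat_lit 0x10008002000200020008140683)))) 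
(.lf (nat_lit 3020136630) (dlOf (nat_lit 1) (nat_lit 0x8008000400200020008130303)))) 
(.nd (nat_lit 20) 
(.lf (nat_lit 4096499766) (dlOf (nat_lit 2) (nat_lit 0x10056001c60200040008120481))) 
(.lf (nat_lit 6377152566) (dlOf (nat_lit 1) (nat_lit 0x300080008002000600080b0483))))) 
(.nd (nat_lit 9) (.nd (nat_lit 18) 
(.lf (nat_lit 1409524022) (dlOf (nat_lit 1) (nat_lit 0x20008014c01))) 
(.lf (nat_lit 470262070) (dlOf (nat_lit 1) (nat_lit 0x200280c0581)))) 
(.lf (nat_lit 1946658614) (dlOf (nat_lit 1) (nat_lit 0xc002001800080f3e02)))))))) (.nd (nat_lit 8) 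
(.nd (nat_lit 18) (.nd (nat_lit 5) (.nd (nat_lit 7) (.nd (nat_lit 19) (.nd (nat_lit 10) 
(.nd (nat_lit 27) 
(.lf (nat_lit 4563640406) (dlOf (nat_lit 4) (nat_lit 0x1580d003dc05e00f601f0000a83047d019027400b411e002a092a0120000904005701a000d80bc0000608019c004007000180b0702))) 
(.lf (nat_lit 4697858134) (dlOf (nat_lit 4) (nat_lit 0x1580d003dc05e00f601f0000a83047d019027400b411e002a092a0120000904005701a000d80bc0000608019c004007000180b0702)))) 
(.lf (nat_lit 2818815062) (dlOf (nat_lit 1) (nat_lit 0x20008002000200140008129303)))) 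
(.nd (nat_lit 20) 
(.lf (nat_lit 59482198) (dlOf (nat_lit 2) (nat_lit 0x5267b002f3320012164800909ca004c4d300211f8800094300030008008000200160009800803))) 
(.nd (nat_lit 26) (.lf (nat_lit 5773172822) (dlOf (nat_lit 1) (nat_lit 0x10800400b000080b0702))) 
(.lf (nat_lit 6377152598) (dlOf (nat_lit 1) (nat_lit 0x10800400b000080b0702)))))) (.nd (nat_lit 21) 
(.nd (nat_lit 26) 
(.lf (nat_lit 5100511446) (dlOf (nat_lit 1) (nat_lit 0x380080004002000200080d0983))) 
(.lf (nat_lit 5570273494) (dlOf (nat_lit 1) (nat_lit 0x200280d0981)))) (.nd (nat_lit 12) 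
(.nd (nat_lit 20) (.lf (nat_lit 2334934) (dlOf (nat_lit 1) (nat_lit 0x400400020008150482))) 
(.lf (nat_lit 3383510) (dlOf (nat_lit 1) (nat_lit 0x400200020008200482)))) 
(.lf (nat_lit 19640534) (dlOf (nat_lit 1) (nat_lit 0x2a00289d8081)))))) (.nd (nat_lit 9) 
(.nd (nat_lit 20) (.nd (nat_lit 7) 
(.lf (nat_lit 2483265654) (dlOf (nat_lit 2) (nat_lit 0x3c010001a0070007b4100100008008c00200260008090083))) 
(.nd (nat_lit 26) 
(.lf (nat_lit 1879286006) (dlOf (nat_lit 2) (nat_lit 0x202b8008d8080018008000c002000200080c0483))) 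
(.lf (nat_lit 1006870774) (dlOf (nat_lit 2) (nat_lit 0x202b8008d8080018008000c002000200080c0483))))) 
(.nd (nat_lit 19) (.lf (nat_lit 2752749814) (dlOf (nat_lit 1) (nat_lit 0x20008047781))) 
(.lf (nat_lit 473669878) (dlOf (nat_lit 1) (nat_lit 0x1c0028f96f01))))) (.nd (nat_lit 7) 
(.nd (nat_lit 10) (.lf (nat_lit 8106614) (dlOf (nat_lit 1) (nat_lit 0x30002001c0008518982))) 
(.nd (nat_lit 12) (.lf (nat_lit 5704492662) (dlOf (nat_lit 1) (nat_lit 0x600080d3981))) 
(.lf (nat_lit 2684597878) (dlOf (nat_lit 2) (nat_lit 0x40720005a02001600180a9d01))))) 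
(.nd (nat_lit 11) (.lf (nat_lit 20165366) (dlOf (nat_lit 1) (nat_lit 0x200289d8f81))) 
(.lf (nat_lit 20691702) (dlOf (nat_lit 1) (nat_lit 0x4002000200089db982))))))) (.nd (nat_lit 19) 
(.nd (nat_lit 7) (.nd (nat_lit 5) (.nd (nat_lit 29) (.nd (nat_lit 27) 
(.lf (nat_lit 2416418902) (dlOf (nat_lit 1) (nat_lit 0x1c400081c1101))) 
(.lf (nat_lit 2550636630) (dlOf (nat_lit 1) (nat_lit 0x1c400081c1101)))) (.nd (nat_lit 21) 
(.lf (nat_lit 3892813910) (dlOf (nat_lit 9) (nat_lit 0xa8168000500400180b40002602000a05a0000f81000402d0000740800301680003004000c0b40001002000205a0000681000502d0000300800080080070002002e0008280303))) 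
(.lf (nat_lit 1009229910) (dlOf (nat_lit 1) (nat_lit 0xf4004002600090a0802))))) (.nd (nat_lit 22) 
(.nd (nat_lit 26) (.lf (nat_lit 3221725302) (dlOf (nat_lit 1) (nat_lit 0xc00200020008170082))) 
(.lf (nat_lit 3959922806) (dlOf (nat_lit 1) (nat_lit 0xc00200020008170082)))) 
(.lf (nat_lit 55025782) (dlOf (nat_lit 10) (nat_lit 0xa081000080f4002d208000c07a0016802000203d000b301000301e8005140800180f40028604000427c0001802000612d000601e80005c1000104f8000425a000a03d0000b030002096800054080008008006000200040009690d83))))) 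
(.nd (nat_lit 31) (.nd (nat_lit 5) (.nd (nat_lit 26) 
(.lf (nat_lit 805806294) (dlOf (nat_lit 1) (nat_lit 0xa00080050002000800081a0483))) 
(.lf (nat_lit 1678221526) (dlOf (nat_lit 1) (nat_lit 0xa00080050002000800081a0483)))) 
(.lf (nat_lit 45588726) (dlOf (nat_lit 1) (nat_lit 0x8008001000200020009342483)))) (.nd (nat_lit 5) 
(.nd (nat_lit 26) (.lf (nat_lit 4027031766) (dlOf (nat_lit 1) (nat_lit 0x24002004c00081b0482))) 
(.lf (nat_lit 3288834262) (dlOf (nat_lit 1) (nat_lit 0x24002004c00081b0482)))) 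
(.lf (nat_lit 3892814070) (dlOf (nat_lit 2) (nat_lit 0x200b00016a04001c00200160008280602)))))) 
(.nd (nat_lit 9) (.nd (nat_lit 21) (.nd (nat_lit 20) 
(.lf (nat_lit 1343201366) (dlOf (nat_lit 1) (nat_lit 0x260028190781))) 
(.lf (nat_lit 14655574) (dlOf (nat_lit 2) (nat_lit 0x649300020018770780)))) (.nd (nat_lit 23) 
(.nd (nat_lit 24) (.lf (nat_lit 473931862) (dlOf (nat_lit 1) (nat_lit 0x90004008e0008fc0802))) 
(.lf (nat_lit 20947030) (dlOf (nat_lit 3) (nat_lit 0x163e0000d00800cb77400024040004004000200189f0702)))) 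
(.lf (nat_lit 12558422) (dlOf (nat_lit 1) (nat_lit 0x80080004002000200086d1103))))) 
(.nd (nat_lit 5) (.nd (nat_lit 11) 
(.lf (nat_lit 19898966) (dlOf (nat_lit 1) (nat_lit 0x80080004002000200089d1683))) 
(.lf (nat_lit 31435350) (dlOf (nat_lit 1) (nat_lit 0x20018e95301)))) (.nd (nat_lit 11) 
(.lf (nat_lit 8368886) (dlOf (nat_lit 1) (nat_lit 0x400400020008518f82))) 
(.lf (nat_lit 8370934) (dlOf (nat_lit 1) (nat_lit 0xa002851b981)))))))) (.nd (nat_lit 5) 
(.nd (nat_lit 29) (.nd (nat_lit 18) (.nd (nat_lit 19) (.nd (nat_lit 12) (.nd (nat_lit 20) 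
(.lf (nat_lit 5773698006) (dlOf (nat_lit 1) (nat_lit 0x180080008002000200080e2883))) 
(.lf (nat_lit 43230166) (dlOf (nat_lit 1) (nat_lit 0xc00192a2881)))) 
(.lf (nat_lit 3557012438) (dlOf (nat_lit 1) (nat_lit 0x3e0008129201)))) (.nd (nat_lit 21) 
(.lf (nat_lit 38511574) (dlOf (nat_lit 1) (nat_lit 0x2000200420009132882))) (.nd (nat_lit 23) 
(.lf (nat_lit 36414422) (dlOf (nat_lit 1) (nat_lit 0x20019072881))) 
(.lf (nat_lit 61580246) (dlOf (nat_lit 1) (nat_lit 0x20008000400200020009922883)))))) 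
(.nd (nat_lit 7) (.nd (nat_lit 20) 
(.lf (nat_lit 3490685270) (dlOf (nat_lit 1) (nat_lit 0x20028014d01))) 
(.lf (nat_lit 2072918) (dlOf (nat_lit 1) (nat_lit 0x20018150681)))) (.nd (nat_lit 19) 
(.nd (nat_lit 20) (.lf (nat_lit 59220950) (dlOf (nat_lit 1) (nat_lit 0x200097e2881))) 
(.lf (nat_lit 39298006) (dlOf (nat_lit 1) (nat_lit 0x20029192881)))) 
(.lf (nat_lit 33530838) (dlOf (nat_lit 1) (nat_lit 0x8008000400200020008f52883)))))) 
(.nd (nat_lit 7) (.nd (nat_lit 18) (.nd (nat_lit 9) (.nd (nat_lit 26) 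
(.lf (nat_lit 805544278) (dlOf (nat_lit 11) (nat_lit 0xd40550058027002d80dc01a802403aa00a00fa0030001a4300388154017809c00c4037006f00900e8002803e800c000680c007e055003f027002100dc00f4024013e00a00280030001943000a815801a40aa00520530057027004b0130016806e00e602f004a015800900a4012404800d2012003600800ea002802a401001f2006000220f006d02a8011814c017c09c012204c006201b802080ac011804800e001201d3005007c0018000842800c80a8007804d0044024801e80d801100600050024003c00880090040000482000ac0a8006c04d003601b001b0044000461001f80600000e0200e60300000501007e018000004080aa800809400020d780008124d03))) 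
(.lf (nat_lit 1677959510) (dlOf (nat_lit 7) (nat_lit 0x5202a80038048039801401880060003484000c0050001a0080250154012809c0096037004b00900c50028026400c000670c011c0550080027004080dc002c02c0118012004600800e6002803ec00c0006610012a055002d02980430138003c098001c047008801b800480d0013405600a202400920090022804007500140208006000200d009202a8016814c021809c002204c008801b800580d0010405600900240092009002200400754014002a00801030030000fc680b4000808ec0020d5e0008124e03)))) 
(.lf (nat_lit 2885920598) (dlOf (nat_lit 1) (nat_lit 0x28002000e0008143f02)))) (.nd (nat_lit 19) 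
(.nd (nat_lit 26) 
(.lf (nat_lit 805806422) (dlOf (nat_lit 3) (nat_lit 0x11604f00af01c0096009800340300000e08017a04f004602580230100023407001ea026005d000000000300648008000800203f400081a0683))) 
(.lf (nat_lit 1678221654) (dlOf (nat_lit 3) (nat_lit 0x11604f00af01c0096009800340300000e08017a04f004602580230100023407001ea026005d000000000300648008000800203f400081a0683)))) 
(.lf (nat_lit 2752487766) (dlOf (nat_lit 2) (nat_lit 0x303880002c040030004000e0008014e02))))) 
(.nd (nat_lit 26) (.nd (nat_lit 27) (.nd (nat_lit 18) 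
(.lf (nat_lit 1610851286) (dlOf (nat_lit 1) (nat_lit 0x40018092881))) 
(.lf (nat_lit 1880597462) (dlOf (nat_lit 1) (nat_lit 0x20008aa2881)))) (.nd (nat_lit 11) 
(.lf (nat_lit 2818814934) (dlOf (nat_lit 1) (nat_lit 0x3e0008129201))) 
(.lf (nat_lit 6308473814) (dlOf (nat_lit 1) (nat_lit 0x4004000200080d5e02))))) (.nd (nat_lit 21) 
(.nd (nat_lit 27) (.lf (nat_lit 4093879254) (dlOf (nat_lit 1) (nat_lit 0x400400020008002882))) 
(.lf (nat_lit 6375580630) (dlOf (nat_lit 1) (nat_lit 0x400400020008002882)))) 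
(.lf (nat_lit 6377677782) (dlOf (nat_lit 1) (nat_lit 0x80080004002000200080e2883))))))) 
(.nd (nat_lit 30) (.nd (nat_lit 7) (.nd (nat_lit 11) (.nd (nat_lit 9) (.nd (nat_lit 10) 
(.lf (nat_lit 9675126) (dlOf (nat_lit 1) (nat_lit 0x20028575801))) 
(.lf (nat_lit 61318518) (dlOf (nat_lit 1) (nat_lit 0x8008000400200020009923503)))) 
(.lf (nat_lit 67876726) (dlOf (nat_lit 1) (nat_lit 0x6001833a301)))) (.nd (nat_lit 12) 
(.nd (nat_lit 18) (.lf (nat_lit 36940150) (dlOf (nat_lit 1) (nat_lit 0x800200020009074e82))) 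
(.lf (nat_lit 68659574) (dlOf (nat_lit 1) (nat_lit 0x5a0028664e81)))) 
(.lf (nat_lit 8108406) (dlOf (nat_lit 1) (nat_lit 0x2001851ad81))))) (.nd (nat_lit 18) 
(.nd (nat_lit 9) (.nd (nat_lit 10) 
(.lf (nat_lit 134986230) (dlOf (nat_lit 1) (nat_lit 0x4004000200080fb282))) 
(.lf (nat_lit 8103414) (dlOf (nat_lit 1) (nat_lit 0x8008014000200400008513683)))) 
(.lf (nat_lit 38511606) (dlOf (nat_lit 1) (nat_lit 0x220009132881)))) (.nd (nat_lit 9) 
(.nd (nat_lit 10) 
(.lf (nat_lit 2752487926) (dlOf (nat_lit 2) (nat_lit 0x1b02c80002c04001000400080008017e02))) 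
(.lf (nat_lit 61318646) (dlOf (nat_lit 1) (nat_lit 0x400400020009923682)))) 
(.lf (nat_lit 500726) (dlOf (nat_lit 1) (nat_lit 0x8008000400200020008002883)))))) 
(.nd (nat_lit 26) (.nd (nat_lit 7) (.nd (nat_lit 18) 
(.lf (nat_lit 6308473206) (dlOf (nat_lit 1) (nat_lit 0x4004000200080d4e82))) 
(.lf (nat_lit 1476897142) (dlOf (nat_lit 1) (nat_lit 0xd00080044002002800082d4e83)))) 
(.nd (nat_lit 9) (.nd (nat_lit 10) 
(.lf (nat_lit 4026769910) (dlOf (nat_lit 2) (nat_lit 0x4e02b000b1018090d80))) 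
(.lf (nat_lit 6174254582) (dlOf (nat_lit 1) (nat_lit 0x100080004002000200080d3683)))) 
(.lf (nat_lit 3492788214) (dlOf (nat_lit 1) (nat_lit 0x800280fa601))))) (.nd (nat_lit 28) 
(.nd (nat_lit 7) 
(.lf (nat_lit 5570275702) (dlOf (nat_lit 1) (nat_lit 0x80080004002000200080d4e83))) 
(.nd (nat_lit 29) (.lf (nat_lit 3288572406) (dlOf (nat_lit 2) (nat_lit 0x4e02b000b1018090d80))) 
(.lf (nat_lit 1677959670) (dlOf (nat_lit 2) (nat_lit 0x4000e00033018127e00))))) (.nd (nat_lit 10) 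
(.lf (nat_lit 4095713782) (dlOf (nat_lit 1) (nat_lit 0x400280e1401))) 
(.lf (nat_lit 5704492534) (dlOf (nat_lit 1) (nat_lit 0x4004000200080d3682))))))))))))

end

end Pool.Agent.Lib.MP_5854e1_co.Cz

namespace Pool.Agent.Lib.MP_5854e1_co.Cz

noncomputable section

noncomputable def tz204 : DT := (.nd (nat_lit 13) (.nd (nat_lit 15) (.nd (nat_lit 26) 
(.nd (nat_lit 18) (.nd (nat_lit 6) (.nd (nat_lit 28) (.nd (nat_lit 19) (.nd (nat_lit 27) 
(.nd (nat_lit 7) (.nd (nat_lit 29) (.nd (nat_lit 23) (.nd (nat_lit 10) 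
(.lf (nat_lit 5368709150) (dlOf (nat_lit 1) (nat_lit 0x400400020008000002))) 
(.lf (nat_lit 51381278) (dlOf (nat_lit 1) (nat_lit 0x800200020009512882)))) (.nd (nat_lit 21) 
(.lf (nat_lit 12582942) (dlOf (nat_lit 1) (nat_lit 0x18002000200086d0902))) 
(.lf (nat_lit 27263006) (dlOf (nat_lit 1) (nat_lit 0xe40028cc0681))))) (.nd (nat_lit 8) 
(.nd (nat_lit 9) (.lf (nat_lit 2684354590) (dlOf (nat_lit 1) (nat_lit 0x400400020008000002))) 
(.lf (nat_lit 2684355102) (dlOf (nat_lit 1) (nat_lit 0x20008000c00200060008001483)))) 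
(.lf (nat_lit 536873246) (dlOf (nat_lit 1) (nat_lit 0x20008004b81))))) (.nd (nat_lit 8) 
(.nd (nat_lit 9) (.lf (nat_lit 33686686) (dlOf (nat_lit 1) (nat_lit 0x400400020018f52b82))) 
(.lf (nat_lit 5368711838) (dlOf (nat_lit 1) (nat_lit 0x400400020008005582)))) (.nd (nat_lit 9) 
(.lf (nat_lit 7582) (dlOf (nat_lit 1) (nat_lit 0x40040002001800ca82))) 
(.lf (nat_lit 5368712094) (dlOf (nat_lit 1) (nat_lit 0x480018005c81)))))) (.nd (nat_lit 9) 
(.nd (nat_lit 29) (.nd (nat_lit 30) 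
(.lf (nat_lit 2281701406) (dlOf (nat_lit 1) (nat_lit 0x400400020008000002))) 
(.lf (nat_lit 5502926878) (dlOf (nat_lit 1) (nat_lit 0x400400020008000002)))) (.nd (nat_lit 30) 
(.lf (nat_lit 4966055966) (dlOf (nat_lit 1) (nat_lit 0x400400020008000002))) 
(.lf (nat_lit 6039797790) (dlOf (nat_lit 1) (nat_lit 0x8008000400200020008000003))))) 
(.nd (nat_lit 7) 
(.lf (nat_lit 6576803358) (dlOf (nat_lit 2) (nat_lit 0x3008800060080030008000c00200040008147103))) 
(.nd (nat_lit 12) 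
(.lf (nat_lit 3355575198) (dlOf (nat_lit 2) (nat_lit 0x180b400056040010004003c00080a2582))) 
(.lf (nat_lit 2281706398) (dlOf (nat_lit 1) (nat_lit 0x60008009101))))))) (.nd (nat_lit 23) 
(.nd (nat_lit 21) (.nd (nat_lit 27) 
(.lf (nat_lit 1611137054) (dlOf (nat_lit 2) (nat_lit 0x1c00d0008d8180f0a80))) 
(.lf (nat_lit 134742046) (dlOf (nat_lit 8) (nat_lit 0xb2020806800f40322c080088086013a041000801f800300e00322a10003c086000803800c8982007b021801b00fc030e00800280860186f02005e043006501f8061b41001a810c030d604014c004003e00080a0902)))) 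
(.nd (nat_lit 20) (.lf (nat_lit 2621470) (dlOf (nat_lit 1) (nat_lit 0x120018180601))) 
(.lf (nat_lit 37224478) (dlOf (nat_lit 1) (nat_lit 0x4002011c00090c0602))))) (.nd (nat_lit 8) 
(.nd (nat_lit 17) 
(.lf (nat_lit 9961502) (dlOf (nat_lit 5) (nat_lit 0x694ac00155020022a57000aa01000152b0005480800ca95c00270040044004000c00085a0a82))) 
(.lf (nat_lit 45744158) (dlOf (nat_lit 2) (nat_lit 0x232ba2016c67d00c033e0006965000076100054004000e0009360102)))) 
(.nd (nat_lit 7) 
(.lf (nat_lit 46792990) (dlOf (nat_lit 7) (nat_lit 0x819e4002d2040018cf200168020008679000b301000833c80058c0800199e400054040004cf20001802005a0009380a81))) 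
(.lf (nat_lit 8914334) (dlOf (nat_lit 1) (nat_lit 0x400400080008513602))))))) (.nd (nat_lit 31) 
(.nd (nat_lit 27) (.nd (nat_lit 10) (.nd (nat_lit 8) (.nd (nat_lit 20) 
(.lf (nat_lit 5637275678) (dlOf (nat_lit 1) (nat_lit 0x4004000200080d0002))) 
(.lf (nat_lit 1343356958) (dlOf (nat_lit 1) (nat_lit 0x1780018200681)))) 
(.lf (nat_lit 1342701854) (dlOf (nat_lit 2) (nat_lit 0xa1f30003e0180c0480)))) (.nd (nat_lit 7) 
(.lf (nat_lit 1342180894) (dlOf (nat_lit 1) (nat_lit 0x400400020008007102))) (.nd (nat_lit 8) 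
(.lf (nat_lit 1881146526) (dlOf (nat_lit 2) (nat_lit 0x403e4000c0e4000880400060028e22b81))) 
(.lf (nat_lit 1342180766) (dlOf (nat_lit 1) (nat_lit 0x8008000400200020008006d03)))))) 
(.nd (nat_lit 17) (.nd (nat_lit 7) (.nd (nat_lit 8) 
(.lf (nat_lit 2013265950) (dlOf (nat_lit 1) (nat_lit 0x400400020008000002))) 
(.lf (nat_lit 2013268766) (dlOf (nat_lit 1) (nat_lit 0x40028005c01)))) 
(.lf (nat_lit 1476400542) (dlOf (nat_lit 1) (nat_lit 0x20008009901)))) (.nd (nat_lit 7) 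
(.nd (nat_lit 9) (.lf (nat_lit 1476526110) (dlOf (nat_lit 1) (nat_lit 0xc00400080018020502))) 
(.lf (nat_lit 4697753118) (dlOf (nat_lit 1) (nat_lit 0x100008004000200180008093703)))) 
(.lf (nat_lit 402784414) (dlOf (nat_lit 1) (nat_lit 0x80018090501)))))) (.nd (nat_lit 7) 
(.nd (nat_lit 12) (.nd (nat_lit 17) (.nd (nat_lit 27) 
(.lf (nat_lit 6710886430) (dlOf (nat_lit 1) (nat_lit 0x8008000400200020008000003))) 
(.lf (nat_lit 4160749598) (dlOf (nat_lit 1) (nat_lit 0x400400020008000002)))) 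
(.lf (nat_lit 3493462046) (dlOf (nat_lit 7) (nat_lit 0x990348001819003d40880208043003d015801e80a8015404800b0020003900f8000384801a01a40044056010a02a008f012000f80800001a14006808800ba02b00770100000301803901a4033808801ba0430019015800c80a800d80480074020003800f8000284002481a4015c08800900430034015801d80a801300480096020003900f8000244002f00ac018c05400d60240074010001c007c0000014002400200180008140b82)))) 
(.nd (nat_lit 8) (.lf (nat_lit 2952794142) (dlOf (nat_lit 1) (nat_lit 0x20018007a81))) 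
(.lf (nat_lit 2952797470) (dlOf (nat_lit 1) (nat_lit 0x400040006000800c602))))) (.nd (nat_lit 10) 
(.nd (nat_lit 8) (.lf (nat_lit 6710889118) (dlOf (nat_lit 1) (nat_lit 0x400400020008005582))) 
(.lf (nat_lit 3490709918) (dlOf (nat_lit 1) (nat_lit 0x8f8008000400200f40008016b83)))) 
(.nd (nat_lit 12) (.lf (nat_lit 2550140318) (dlOf (nat_lit 1) (nat_lit 0x88004002e0008006d02))) 
(.lf (nat_lit 3489668510) (dlOf (nat_lit 2) (nat_lit 0x4083800283e40007904001c002800ca81)))))))) 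
(.nd (nat_lit 8) (.nd (nat_lit 7) (.nd (nat_lit 30) (.nd (nat_lit 9) (.nd (nat_lit 17) 
(.lf (nat_lit 21495902) (dlOf (nat_lit 2) (nat_lit 0xceb780000a818a40700))) (.nd (nat_lit 21) 
(.lf (nat_lit 4966187102) (dlOf (nat_lit 2) (nat_lit 0x14024000340200060018040701))) 
(.lf (nat_lit 52559966) (dlOf (nat_lit 1) (nat_lit 0x60019550881))))) (.nd (nat_lit 10) 
(.lf (nat_lit 46664286) (dlOf (nat_lit 1) (nat_lit 0x20029385381))) 
(.lf (nat_lit 805441118) (dlOf (nat_lit 1) (nat_lit 0x1000200060008117182))))) (.nd (nat_lit 19) 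
(.nd (nat_lit 27) 
(.lf (nat_lit 5368840286) (dlOf (nat_lit 4) (nat_lit 0x2015000500a0004804c0024022001201000090070000d0300030054002c028001a011000a00700007c2000400140003c04000800400200018040702))) 
(.nd (nat_lit 28) 
(.lf (nat_lit 5503058014) (dlOf (nat_lit 4) (nat_lit 0x2015000500a0004804c0024022001201000090070000d0300030054002c028001a011000a00700007c2000400140003c04000800400200018040702))) 
(.lf (nat_lit 2013397086) (dlOf (nat_lit 2) (nat_lit 0x3003000000080008008002c002000c0008040703))))) 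
(.nd (nat_lit 20) 
(.lf (nat_lit 5772017758) (dlOf (nat_lit 10) (nat_lit 0x401ac00700d4006602f001c016800e00b00078056004a02a0022014801500a0012804e00b4026001a01280018090003004600400220011010801280800050036003801a002b00c0014005c007002c0044015001f009801180480070022003800f001c006800e002c00700120052004001200180100004002400000034440086028000101280008088000660c00a805e00c2028003f013801f0098014804a0080022004500d8000c83801300a0002804a0003104000202800070128000c01000080a0004804a000e0240001783000a0128000b80801280a0017404c0016025000b01180010088009804000540180000f87002a01400020098003404a00080230005011000078280700008030800201740008040703))) 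
(.lf (nat_lit 1343881310) (dlOf (nat_lit 2) (nat_lit 0x82ca001330200440008370481)))))) 
(.nd (nat_lit 11) (.nd (nat_lit 10) (.nd (nat_lit 17) 
(.lf (nat_lit 29884638) (dlOf (nat_lit 1) (nat_lit 0x2800400020008e30582))) (.nd (nat_lit 19) 
(.lf (nat_lit 6711017694) (dlOf (nat_lit 1) (nat_lit 0x400400020008031d02))) 
(.lf (nat_lit 30015710) (dlOf (nat_lit 1) (nat_lit 0x60008e30581))))) (.nd (nat_lit 19) 
(.lf (nat_lit 1881277662) (dlOf (nat_lit 1) (nat_lit 0xa0028e82e01))) 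
(.lf (nat_lit 9045214) (dlOf (nat_lit 1) (nat_lit 0x20018512e01))))) (.nd (nat_lit 29) 
(.nd (nat_lit 28) (.lf (nat_lit 1073744094) (dlOf (nat_lit 2) (nat_lit 0xe03d00006818004a80))) 
(.lf (nat_lit 2415921374) (dlOf (nat_lit 1) (nat_lit 0x400400020008004a82)))) (.nd (nat_lit 17) 
(.lf (nat_lit 536873182) (dlOf (nat_lit 2) (nat_lit 0x3200000006818004a80))) 
(.lf (nat_lit 537004254) (dlOf (nat_lit 1) (nat_lit 0x400200020008004a82))))))) (.nd (nat_lit 10) 
(.nd (nat_lit 28) (.nd (nat_lit 30) (.nd (nat_lit 21) (.nd (nat_lit 27) 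
(.lf (nat_lit 4294969694) (dlOf (nat_lit 1) (nat_lit 0x400400020008004e82))) 
(.lf (nat_lit 134220126) (dlOf (nat_lit 1) (nat_lit 0x400400020008004e82)))) 
(.lf (nat_lit 39848286) (dlOf (nat_lit 1) (nat_lit 0xa00291f4e81)))) (.nd (nat_lit 17) 
(.lf (nat_lit 5368711518) (dlOf (nat_lit 1) (nat_lit 0x400400020008004e82))) 
(.lf (nat_lit 3221358942) (dlOf (nat_lit 1) (nat_lit 0x2800200020008114e82))))) (.nd (nat_lit 11) 
(.nd (nat_lit 7) 
(.lf (nat_lit 3490709854) (dlOf (nat_lit 3) (nat_lit 0x1040cc0082061003801f8000a01801b819c01100cc008a061003c01f800098200110008002c00200060008014e83))) 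
(.nd (nat_lit 9) 
(.lf (nat_lit 5772411358) (dlOf (nat_lit 1) (nat_lit 0x680080024002002a0008091283))) 
(.lf (nat_lit 1342182366) (dlOf (nat_lit 1) (nat_lit 0x280028009201))))) (.nd (nat_lit 27) 
(.nd (nat_lit 29) (.lf (nat_lit 6710888798) (dlOf (nat_lit 1) (nat_lit 0x400400020008004e82))) 
(.lf (nat_lit 1879050590) (dlOf (nat_lit 1) (nat_lit 0x20028004e81)))) 
(.lf (nat_lit 2550139230) (dlOf (nat_lit 1) (nat_lit 0x400400020008004e82)))))) (.nd (nat_lit 11) 
(.nd (nat_lit 7) (.nd (nat_lit 12) 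
(.lf (nat_lit 536872798) (dlOf (nat_lit 1) (nat_lit 0x20018003f81))) 
(.lf (nat_lit 1476400990) (dlOf (nat_lit 1) (nat_lit 0x2002800a301)))) (.nd (nat_lit 12) 
(.lf (nat_lit 5637277150) (dlOf (nat_lit 1) (nat_lit 0x4004000200080d3602))) 
(.lf (nat_lit 660958) (dlOf (nat_lit 1) (nat_lit 0x20028009b01))))) (.nd (nat_lit 27) 
(.nd (nat_lit 28) (.lf (nat_lit 4294974814) (dlOf (nat_lit 1) (nat_lit 0x40040002000800c902))) 
(.lf (nat_lit 1879055710) (dlOf (nat_lit 1) (nat_lit 0x40040002000800c902)))) (.nd (nat_lit 7) 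
(.nd (nat_lit 28) 
(.lf (nat_lit 134225246) (dlOf (nat_lit 1) (nat_lit 0x800800d80020030000800c903))) 
(.lf (nat_lit 2550144350) (dlOf (nat_lit 1) (nat_lit 0x80040002000800c902)))) 
(.lf (nat_lit 2550140382) (dlOf (nat_lit 1) (nat_lit 0x400400020008006e02))))))))) 
(.nd (nat_lit 21) (.nd (nat_lit 17) (.nd (nat_lit 10) (.nd (nat_lit 19) (.nd (nat_lit 28) 
(.nd (nat_lit 6) (.nd (nat_lit 20) 
(.lf (nat_lit 134479902) (dlOf (nat_lit 8) (nat_lit 0x1040820018802001203f000c2010022021800a80fc0030608005407e0018102001a03f000be8100170178005740806580bc0000004000c00200040008030902))) 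
(.lf (nat_lit 5505054) (dlOf (nat_lit 1) (nat_lit 0x12a0018380681)))) (.nd (nat_lit 20) 
(.lf (nat_lit 46402142) (dlOf (nat_lit 2) (nat_lit 0x21aff000104080038008013400200560009385383))) 
(.lf (nat_lit 60033630) (dlOf (nat_lit 1) (nat_lit 0x400400020019845382))))) (.nd (nat_lit 7) 
(.lf (nat_lit 2953052190) (dlOf (nat_lit 1) (nat_lit 0x18000180e0681))) (.nd (nat_lit 27) 
(.lf (nat_lit 2416181406) (dlOf (nat_lit 1) (nat_lit 0x900018090201))) 
(.lf (nat_lit 2550399134) (dlOf (nat_lit 1) (nat_lit 0x900018090201)))))) (.nd (nat_lit 20) 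
(.nd (nat_lit 8) (.nd (nat_lit 23) 
(.lf (nat_lit 2819358750) (dlOf (nat_lit 3) (nat_lit 0x2c0e000040350002982000f0230003808400000080068004005a0008250502))) 
(.lf (nat_lit 42729502) (dlOf (nat_lit 1) (nat_lit 0x1000400020009280102)))) 
(.lf (nat_lit 786718) (dlOf (nat_lit 1) (nat_lit 0x60018014081)))) (.nd (nat_lit 22) 
(.lf (nat_lit 5773197342) (dlOf (nat_lit 3) (nat_lit 0x1412f000230100010978000e00800b800800b8002004200080b0183))) 
(.lf (nat_lit 47972382) (dlOf (nat_lit 1) (nat_lit 0x8008000400200020009400003)))))) 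
(.nd (nat_lit 7) (.nd (nat_lit 27) (.nd (nat_lit 11) (.nd (nat_lit 19) 
(.lf (nat_lit 5368972574) (dlOf (nat_lit 1) (nat_lit 0x100018093101))) 
(.lf (nat_lit 43779358) (dlOf (nat_lit 1) (nat_lit 0x200092a3101)))) 
(.lf (nat_lit 3489926430) (dlOf (nat_lit 1) (nat_lit 0x48008004c00200020008006783)))) 
(.nd (nat_lit 8) (.lf (nat_lit 2818842142) (dlOf (nat_lit 1) (nat_lit 0x1880020030000812cf02))) 
(.nd (nat_lit 9) (.lf (nat_lit 2818841886) (dlOf (nat_lit 1) (nat_lit 0x5c0040008000812c602))) 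
(.lf (nat_lit 2818838302) (dlOf (nat_lit 1) (nat_lit 0x2800400020008127482)))))) (.nd (nat_lit 6) 
(.nd (nat_lit 19) (.nd (nat_lit 20) 
(.lf (nat_lit 42206366) (dlOf (nat_lit 2) (nat_lit 0xb6b8000db0000050880001100c000400200040009242b82))) 
(.lf (nat_lit 5772674206) (dlOf (nat_lit 1) (nat_lit 0x400400020008092b82)))) 
(.lf (nat_lit 47973534) (dlOf (nat_lit 1) (nat_lit 0x400200020009402b82)))) (.nd (nat_lit 19) 
(.lf (nat_lit 5234754782) (dlOf (nat_lit 1) (nat_lit 0x4004000200180d2e02))) 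
(.lf (nat_lit 43779294) (dlOf (nat_lit 1) (nat_lit 0x4000092a2e01))))))) (.nd (nat_lit 20) 
(.nd (nat_lit 28) (.nd (nat_lit 19) (.nd (nat_lit 6) (.nd (nat_lit 29) 
(.lf (nat_lit 6442844190) (dlOf (nat_lit 2) (nat_lit 0x42031003e80181d0a00))) 
(.lf (nat_lit 1611005982) (dlOf (nat_lit 3) (nat_lit 0x2028000100c80001c08002c0a00000002000200180b0181)))) 
(.lf (nat_lit 21365086) (dlOf (nat_lit 1) (nat_lit 0x200080020002000a0008a34e83)))) 
(.nd (nat_lit 27) 
(.lf (nat_lit 917534) (dlOf (nat_lit 3) (nat_lit 0xe16a000f68100070b50007ac080020008000400200020008030903))) 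
(.lf (nat_lit 2819489822) (dlOf (nat_lit 1) (nat_lit 0x14004006600082b0682))))) (.nd (nat_lit 22) 
(.nd (nat_lit 6) (.nd (nat_lit 27) 
(.lf (nat_lit 4563795998) (dlOf (nat_lit 1) (nat_lit 0xc004000c00080e0602))) 
(.lf (nat_lit 4698013726) (dlOf (nat_lit 1) (nat_lit 0xc004000c00080e0602)))) 
(.lf (nat_lit 5637537886) (dlOf (nat_lit 1) (nat_lit 0x40028100701)))) (.nd (nat_lit 31) 
(.lf (nat_lit 1346764830) (dlOf (nat_lit 2) (nat_lit 0x2704e0014825800a411a004a07d00270398000ec2800280080004002000c0009000103))) 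
(.lf (nat_lit 3494248478) (dlOf (nat_lit 1) (nat_lit 0x120008001c002004000081e0603)))))) 
(.nd (nat_lit 23) (.nd (nat_lit 19) (.nd (nat_lit 22) 
(.lf (nat_lit 1343619102) (dlOf (nat_lit 1) (nat_lit 0x200282c0681))) 
(.lf (nat_lit 22413342) (dlOf (nat_lit 1) (nat_lit 0x140018ad0681)))) (.nd (nat_lit 6) 
(.lf (nat_lit 39714846) (dlOf (nat_lit 2) (nat_lit 0x50a390001d8191d0100))) 
(.lf (nat_lit 52297822) (dlOf (nat_lit 1) (nat_lit 0x20009521981))))) (.nd (nat_lit 6) 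
(.nd (nat_lit 24) 
(.lf (nat_lit 9830430) (dlOf (nat_lit 2) (nat_lit 0x1d0000000ec0800880080028002000e0008580103))) 
(.lf (nat_lit 26607646) (dlOf (nat_lit 2) (nat_lit 0xe8000000520400d800200020008c50102)))) 
(.lf (nat_lit 9830494) (dlOf (nat_lit 9) (nat_lit 0x1e91400434860017a41000ed1f8007e8ec00573e6002d9df0003cee000ae76800572f2001b9780015cbb800ae5d800432e600279720015cb5000364980013078003183100152220000d0a00056914001f486002da410011d1f8000cc2000fe9140043486006ba410008cf98015e77000cf2f2004f9780027cbb800ae5d8009f2e6004f9720027c928013e0c40006434001b482000b9dc00018820003d228001690c0003e08000f48a0023a410011d1f800168ec003f3b800059da0000f060005d228004e90c000747e0001d06000da410005cee000070100250008007000200740008580703))))))) 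
(.nd (nat_lit 20) (.nd (nat_lit 6) (.nd (nat_lit 8) (.nd (nat_lit 19) (.nd (nat_lit 17) 
(.lf (nat_lit 1344536606) (dlOf (nat_lit 1) (nat_lit 0x260018830601))) (.nd (nat_lit 25) 
(.lf (nat_lit 15073310) (dlOf (nat_lit 1) (nat_lit 0x600287b0701))) 
(.lf (nat_lit 48627742) (dlOf (nat_lit 1) (nat_lit 0x90002001a0009420102))))) (.nd (nat_lit 7) 
(.lf (nat_lit 19791902) (dlOf (nat_lit 1) (nat_lit 0x80080004002000200089d0003))) 
(.lf (nat_lit 19794590) (dlOf (nat_lit 1) (nat_lit 0x200089d5581))))) (.nd (nat_lit 7) 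
(.nd (nat_lit 10) (.lf (nat_lit 19796254) (dlOf (nat_lit 1) (nat_lit 0x2400289d8081))) 
(.lf (nat_lit 61605150) (dlOf (nat_lit 1) (nat_lit 0x20029923101)))) (.nd (nat_lit 9) 
(.lf (nat_lit 19668382) (dlOf (nat_lit 2) (nat_lit 0x3ac040032c0400dc004001c00089dca82))) 
(.lf (nat_lit 19798942) (dlOf (nat_lit 1) (nat_lit 0x2800189dbc81)))))) (.nd (nat_lit 7) 
(.nd (nat_lit 8) (.nd (nat_lit 9) (.nd (nat_lit 17) 
(.lf (nat_lit 19136606) (dlOf (nat_lit 1) (nat_lit 0x40008002000200100008970483))) 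
(.lf (nat_lit 1881538654) (dlOf (nat_lit 1) (nat_lit 0x20004001c0008f40882)))) 
(.lf (nat_lit 19797598) (dlOf (nat_lit 1) (nat_lit 0x80080004002000200089d9c03)))) 
(.nd (nat_lit 10) (.lf (nat_lit 19794270) (dlOf (nat_lit 1) (nat_lit 0x4004000200089d4e82))) 
(.nd (nat_lit 11) 
(.lf (nat_lit 1345193310) (dlOf (nat_lit 2) (nat_lit 0x770b2800040080008008002400200060008b03403))) 
(.lf (nat_lit 19799390) (dlOf (nat_lit 1) (nat_lit 0x4004000200089dc902)))))) (.nd (nat_lit 9) 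
(.nd (nat_lit 8) (.nd (nat_lit 10) 
(.lf (nat_lit 19661022) (dlOf (nat_lit 1) (nat_lit 0x800189d0a01))) 
(.lf (nat_lit 61736158) (dlOf (nat_lit 1) (nat_lit 0xb00080064002001e0009922e03)))) 
(.lf (nat_lit 19794398) (dlOf (nat_lit 1) (nat_lit 0x80080004002000200089d4e83)))) 
(.nd (nat_lit 11) 
(.lf (nat_lit 19665630) (dlOf (nat_lit 1) (nat_lit 0x100080004002000200089d8c83))) 
(.lf (nat_lit 1345194718) (dlOf (nat_lit 6) (nat_lit 0x2105940005c0400d82ca0000f02005c1650000681003d0b28000180801a059400008040004004001a0018b05902))))))) 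
(.nd (nat_lit 9) (.nd (nat_lit 22) (.nd (nat_lit 6) (.nd (nat_lit 10) (.nd (nat_lit 17) 
(.lf (nat_lit 3932190) (dlOf (nat_lit 1) (nat_lit 0x40028250b01))) 
(.lf (nat_lit 37093406) (dlOf (nat_lit 1) (nat_lit 0x40008002800200140009090103)))) 
(.lf (nat_lit 20188190) (dlOf (nat_lit 1) (nat_lit 0x4002000200089d6002)))) (.nd (nat_lit 10) 
(.lf (nat_lit 20840798) (dlOf (nat_lit 1) (nat_lit 0x800289e7181))) 
(.lf (nat_lit 20192606) (dlOf (nat_lit 1) (nat_lit 0x5b80080004002013000089dc903))))) 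
(.nd (nat_lit 11) (.nd (nat_lit 6) (.nd (nat_lit 10) 
(.lf (nat_lit 58065182) (dlOf (nat_lit 2) (nat_lit 0x3a1940000004001c004000800097b8002))) 
(.lf (nat_lit 8127774) (dlOf (nat_lit 1) (nat_lit 0x16e0018513101)))) 
(.lf (nat_lit 50070878) (dlOf (nat_lit 3) (nat_lit 0x1fbc20000601001ade10000000800b80080054002002400094c3403)))) 
(.nd (nat_lit 17) 
(.lf (nat_lit 8133918) (dlOf (nat_lit 2) (nat_lit 0x161bf40098a0400440040012000851c602))) 
(.lf (nat_lit 8264990) (dlOf (nat_lit 1) (nat_lit 0x8008000c0020006000851c603)))))) 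
(.nd (nat_lit 7) (.nd (nat_lit 6) (.nd (nat_lit 8) (.nd (nat_lit 17) 
(.lf (nat_lit 8134174) (dlOf (nat_lit 1) (nat_lit 0x18800800d4002006a000851cf03))) 
(.lf (nat_lit 8265246) (dlOf (nat_lit 1) (nat_lit 0x40020002000851cf02)))) 
(.lf (nat_lit 20187934) (dlOf (nat_lit 1) (nat_lit 0x4002000200089d5c02)))) (.nd (nat_lit 11) 
(.lf (nat_lit 8131166) (dlOf (nat_lit 1) (nat_lit 0x4c00400080008518982))) 
(.lf (nat_lit 54266462) (dlOf (nat_lit 1) (nat_lit 0x8008002c00200020009655383))))) 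
(.nd (nat_lit 6) (.nd (nat_lit 11) (.nd (nat_lit 12) 
(.lf (nat_lit 8258206) (dlOf (nat_lit 1) (nat_lit 0x400200020008511c02))) 
(.lf (nat_lit 8262302) (dlOf (nat_lit 1) (nat_lit 0x400200020008518c82)))) 
(.lf (nat_lit 20187806) (dlOf (nat_lit 1) (nat_lit 0x200289d5581)))) (.nd (nat_lit 8) 
(.lf (nat_lit 8131294) (dlOf (nat_lit 1) (nat_lit 0x20008518c81))) 
(.lf (nat_lit 8261598) (dlOf (nat_lit 1) (nat_lit 0x20008517a81)))))))))) (.nd (nat_lit 27) 
(.nd (nat_lit 29) (.nd (nat_lit 30) (.nd (nat_lit 6) (.nd (nat_lit 32) (.nd (nat_lit 31) 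
(.nd (nat_lit 18) (.lf (nat_lit 67108894) (dlOf (nat_lit 1) (nat_lit 0x8008000400200020008000003))) 
(.lf (nat_lit 67371038) (dlOf (nat_lit 1) (nat_lit 0x8008015c002004e00080f0103)))) (.nd (nat_lit 7) 
(.lf (nat_lit 2214592542) (dlOf (nat_lit 1) (nat_lit 0x400400020008000002))) 
(.lf (nat_lit 2483031198) (dlOf (nat_lit 1) (nat_lit 0x400400020008006282))))) (.nd (nat_lit 11) 
(.nd (nat_lit 18) (.nd (nat_lit 19) 
(.lf (nat_lit 4630511646) (dlOf (nat_lit 1) (nat_lit 0x400400020008000002))) 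
(.lf (nat_lit 4362600478) (dlOf (nat_lit 1) (nat_lit 0x13000800e8002002e00080a0903)))) 
(.lf (nat_lit 4362338334) (dlOf (nat_lit 1) (nat_lit 0x800200040008030b82)))) 
(.lf (nat_lit 4362082334) (dlOf (nat_lit 1) (nat_lit 0x28002001a000800a602))))) (.nd (nat_lit 31) 
(.nd (nat_lit 8) (.nd (nat_lit 18) 
(.lf (nat_lit 335675486) (dlOf (nat_lit 1) (nat_lit 0x300018090081))) 
(.lf (nat_lit 4362469470) (dlOf (nat_lit 1) (nat_lit 0x80018090001)))) (.nd (nat_lit 7) 
(.lf (nat_lit 67114846) (dlOf (nat_lit 1) (nat_lit 0x2001800a301))) 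
(.lf (nat_lit 4362078174) (dlOf (nat_lit 1) (nat_lit 0xc00400060008004582))))) (.nd (nat_lit 28) 
(.nd (nat_lit 11) (.lf (nat_lit 6509822302) (dlOf (nat_lit 1) (nat_lit 0x400400020008154e82))) 
(.lf (nat_lit 6509693278) (dlOf (nat_lit 1) (nat_lit 0x20008000800200080008144e83)))) 
(.nd (nat_lit 10) 
(.lf (nat_lit 2483030366) (dlOf (nat_lit 1) (nat_lit 0x8008000400200020008004e83))) 
(.lf (nat_lit 2483035486) (dlOf (nat_lit 1) (nat_lit 0x40040002000800c902))))))) (.nd (nat_lit 8) 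
(.nd (nat_lit 17) (.nd (nat_lit 18) (.nd (nat_lit 32) 
(.lf (nat_lit 1140850718) (dlOf (nat_lit 1) (nat_lit 0x400400020008000002))) 
(.lf (nat_lit 5435818014) (dlOf (nat_lit 1) (nat_lit 0x400400020008000002)))) (.nd (nat_lit 9) 
(.lf (nat_lit 3557556254) (dlOf (nat_lit 4) (nat_lit 0x840340027b81003701a0013d8080018124009ca04003c00400060008260482))) 
(.lf (nat_lit 3288597022) (dlOf (nat_lit 6) (nat_lit 0x1203600060158005b01000080d8001406800006040002036000201a0000141000100d8001006800003040004036000401a00000410018800801c8002000e0008090d83))))) 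
(.nd (nat_lit 6) (.nd (nat_lit 7) 
(.lf (nat_lit 3557687326) (dlOf (nat_lit 1) (nat_lit 0x14004006600082b0682))) 
(.lf (nat_lit 1409420446) (dlOf (nat_lit 1) (nat_lit 0x40028006281)))) 
(.lf (nat_lit 1140981854) (dlOf (nat_lit 2) (nat_lit 0x3003000000080008008002c002000c0008040703))))) 
(.nd (nat_lit 6) (.nd (nat_lit 9) (.nd (nat_lit 7) 
(.lf (nat_lit 1409289502) (dlOf (nat_lit 1) (nat_lit 0x400200020008006782))) 
(.lf (nat_lit 1409289630) (dlOf (nat_lit 1) (nat_lit 0x400200020008006d02)))) (.nd (nat_lit 10) 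
(.nd (nat_lit 28) (.lf (nat_lit 3288341406) (dlOf (nat_lit 1) (nat_lit 0x8001800bc81))) 
(.lf (nat_lit 1409293214) (dlOf (nat_lit 1) (nat_lit 0x40001800bc81)))) 
(.lf (nat_lit 3557035934) (dlOf (nat_lit 1) (nat_lit 0x10008000400200040008127883))))) 
(.nd (nat_lit 10) (.nd (nat_lit 28) 
(.lf (nat_lit 3288336734) (dlOf (nat_lit 1) (nat_lit 0x400400020008004e82))) 
(.lf (nat_lit 1409288542) (dlOf (nat_lit 1) (nat_lit 0x20018004e81)))) (.nd (nat_lit 9) 
(.lf (nat_lit 1409424734) (dlOf (nat_lit 1) (nat_lit 0x100020002000800c902))) 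
(.lf (nat_lit 3557037918) (dlOf (nat_lit 3) (nat_lit 0xa03800250010008011000fe40801b0008004000200a6000812a303)))))))) 
(.nd (nat_lit 11) (.nd (nat_lit 30) (.nd (nat_lit 6) (.nd (nat_lit 7) (.nd (nat_lit 18) 
(.lf (nat_lit 2755264542) (dlOf (nat_lit 7) (nat_lit 0x990348001819003d40880208043003d015801e80a8015404800b0020003900f8000384801a01a40044056010a02a008f012000f80800001a14006808800ba02b00770100000301803901a4033808801ba0430019015800c80a800d80480074020003800f8000284002481a4015c08800900430034015801d80a801300480096020003900f8000244002f00ac018c05400d60240074010001c007c0000014002400200180008140b82))) 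
(.lf (nat_lit 2756050974) (dlOf (nat_lit 1) (nat_lit 0x120008001c002004000081e0603)))) 
(.nd (nat_lit 10) (.lf (nat_lit 603984542) (dlOf (nat_lit 1) (nat_lit 0x400200020008008c82))) 
(.lf (nat_lit 2752251550) (dlOf (nat_lit 1) (nat_lit 0x400400a80008003a82))))) (.nd (nat_lit 7) 
(.nd (nat_lit 8) 
(.lf (nat_lit 2753953886) (dlOf (nat_lit 1) (nat_lit 0x800080094002001000080a1283))) 
(.lf (nat_lit 2752512350) (dlOf (nat_lit 1) (nat_lit 0x28008000c002000a0008014e83)))) 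
(.nd (nat_lit 8) (.lf (nat_lit 603984094) (dlOf (nat_lit 1) (nat_lit 0x8008000400200020008008083))) 
(.lf (nat_lit 2751988702) (dlOf (nat_lit 1) (nat_lit 0x400200020008002882)))))) (.nd (nat_lit 8) 
(.nd (nat_lit 18) (.nd (nat_lit 19) 
(.lf (nat_lit 6241255454) (dlOf (nat_lit 1) (nat_lit 0x4004000200080d0002))) 
(.lf (nat_lit 4096393246) (dlOf (nat_lit 1) (nat_lit 0x20028100181)))) (.nd (nat_lit 6) 
(.nd (nat_lit 17) (.lf (nat_lit 1677983774) (dlOf (nat_lit 1) (nat_lit 0x20018130481))) 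
(.lf (nat_lit 4095606814) (dlOf (nat_lit 1) (nat_lit 0x4004000200080e0002)))) 
(.lf (nat_lit 6241517662) (dlOf (nat_lit 1) (nat_lit 0x40028100701))))) (.nd (nat_lit 6) 
(.nd (nat_lit 7) (.lf (nat_lit 1946681630) (dlOf (nat_lit 1) (nat_lit 0x200281b0481))) 
(.lf (nat_lit 1946288542) (dlOf (nat_lit 1) (nat_lit 0x400200020008016b82)))) 
(.lf (nat_lit 1946288478) (dlOf (nat_lit 1) (nat_lit 0x10008000800200060008014e83)))))) 
(.nd (nat_lit 6) (.nd (nat_lit 7) (.nd (nat_lit 8) 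
(.lf (nat_lit 603987486) (dlOf (nat_lit 1) (nat_lit 0x5c002800cf01))) (.nd (nat_lit 12) 
(.lf (nat_lit 2754481438) (dlOf (nat_lit 1) (nat_lit 0x300080008002000600080f6783))) 
(.lf (nat_lit 603987230) (dlOf (nat_lit 1) (nat_lit 0x2000800040020010000800c603))))) 
(.nd (nat_lit 9) (.nd (nat_lit 8) (.nd (nat_lit 18) 
(.lf (nat_lit 3825339550) (dlOf (nat_lit 1) (nat_lit 0x48008003000200020008146283))) 
(.lf (nat_lit 2754481310) (dlOf (nat_lit 3) (nat_lit 0x1f0200000540800f010000028040004002000200080f6282)))) 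
(.lf (nat_lit 2754480542) (dlOf (nat_lit 1) (nat_lit 0x200080f4e81)))) (.nd (nat_lit 17) 
(.lf (nat_lit 4094691998) (dlOf (nat_lit 1) (nat_lit 0x1000400040008055582))) 
(.lf (nat_lit 6241258142) (dlOf (nat_lit 1) (nat_lit 0x4004000200080d5582)))))) (.nd (nat_lit 7) 
(.nd (nat_lit 8) 
(.lf (nat_lit 1677854814) (dlOf (nat_lit 1) (nat_lit 0xa8008005400200600008114703))) 
(.nd (nat_lit 10) (.lf (nat_lit 1946159454) (dlOf (nat_lit 1) (nat_lit 0x400400020008004e82))) 
(.lf (nat_lit 1946164574) (dlOf (nat_lit 1) (nat_lit 0x800800140020002000800c903))))) 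
(.nd (nat_lit 12) (.lf (nat_lit 6241257950) (dlOf (nat_lit 1) (nat_lit 0x4400180d4e81))) 
(.nd (nat_lit 30) (.lf (nat_lit 2751601118) (dlOf (nat_lit 1) (nat_lit 0xa002800b281))) 
(.lf (nat_lit 1677859294) (dlOf (nat_lit 2) (nat_lit 0xd02b002fdc0802a8008004400200ae000811b283))))))))) 
(.nd (nat_lit 29) (.nd (nat_lit 28) (.nd (nat_lit 6) (.nd (nat_lit 31) (.nd (nat_lit 9) 
(.nd (nat_lit 10) (.nd (nat_lit 18) 
(.lf (nat_lit 201850910) (dlOf (nat_lit 8) (nat_lit 0xb2020806800f4038c6080088086013a041000801f800300e0038c410003c086000803800e3002007b021801b00fc037ac08002808601bd502005e043006501f806f4c1001a810c037a004014c004003e00080a0902))) 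
(.lf (nat_lit 201588766) (dlOf (nat_lit 8) (nat_lit 0x1040820018902001203f000c2010022021800a80fc0030608005407e0018102001a03f000be8100170178005600806580bc0000004000c00200040008030902)))) 
(.lf (nat_lit 5570300958) (dlOf (nat_lit 1) (nat_lit 0x600180d6001)))) 
(.lf (nat_lit 201720350) (dlOf (nat_lit 2) (nat_lit 0x2804100000818090d80)))) (.nd (nat_lit 7) 
(.nd (nat_lit 11) (.nd (nat_lit 30) 
(.lf (nat_lit 6643777566) (dlOf (nat_lit 1) (nat_lit 0x8008000400200020008000003))) 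
(.lf (nat_lit 3422552094) (dlOf (nat_lit 1) (nat_lit 0x400400020008000002)))) 
(.lf (nat_lit 2348816414) (dlOf (nat_lit 1) (nat_lit 0xc001800a601)))) (.nd (nat_lit 8) 
(.lf (nat_lit 3422552734) (dlOf (nat_lit 1) (nat_lit 0x28008000400200020008001c03))) 
(.lf (nat_lit 6643782558) (dlOf (nat_lit 1) (nat_lit 0x60008009101)))))) (.nd (nat_lit 7) 
(.nd (nat_lit 8) (.nd (nat_lit 32) 
(.lf (nat_lit 201719902) (dlOf (nat_lit 1) (nat_lit 0x20028090001))) 
(.lf (nat_lit 4496687198) (dlOf (nat_lit 2) (nat_lit 0x7009c0078046000150400060008120701)))) 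
(.lf (nat_lit 3422557022) (dlOf (nat_lit 1) (nat_lit 0x800400020018008f82)))) (.nd (nat_lit 10) 
(.nd (nat_lit 31) 
(.lf (nat_lit 201328862) (dlOf (nat_lit 2) (nat_lit 0x501300001804000400400020018004a82))) 
(.lf (nat_lit 2348812510) (dlOf (nat_lit 2) (nat_lit 0x1d0140000cc080010008001000200060008004a83)))) 
(.nd (nat_lit 9) (.lf (nat_lit 3422557406) (dlOf (nat_lit 1) (nat_lit 0x400400020008009502))) 
(.lf (nat_lit 2348811998) (dlOf (nat_lit 1) (nat_lit 0x20028003a81))))))) (.nd (nat_lit 6) 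
(.nd (nat_lit 17) (.nd (nat_lit 11) (.nd (nat_lit 12) (.nd (nat_lit 18) 
(.lf (nat_lit 4764729374) (dlOf (nat_lit 1) (nat_lit 0x400400020008000002))) 
(.lf (nat_lit 471597086) (dlOf (nat_lit 1) (nat_lit 0x20028350681)))) 
(.lf (nat_lit 3690991646) (dlOf (nat_lit 1) (nat_lit 0x20018007a81)))) (.nd (nat_lit 7) 
(.lf (nat_lit 469769502) (dlOf (nat_lit 1) (nat_lit 0x800800500020010000800c603))) 
(.lf (nat_lit 4764732062) (dlOf (nat_lit 1) (nat_lit 0x400400020008005582))))) (.nd (nat_lit 10) 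
(.nd (nat_lit 18) (.lf (nat_lit 3691118622) (dlOf (nat_lit 1) (nat_lit 0x180028020501))) 
(.lf (nat_lit 5838864414) (dlOf (nat_lit 2) (nat_lit 0x42031006a58181d0a00)))) (.nd (nat_lit 7) 
(.lf (nat_lit 2617382174) (dlOf (nat_lit 2) (nat_lit 0x330168000000800300080074002000c00080a9703))) 
(.lf (nat_lit 474088606) (dlOf (nat_lit 2) (nat_lit 0xe1020010859c00802cc000814400090a1800104f0000c19c00140c4002500b00128054005c000000871600020009082b81)))))) 
(.nd (nat_lit 7) (.nd (nat_lit 8) 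
(.lf (nat_lit 2617377374) (dlOf (nat_lit 4) (nat_lit 0x480560002302001602b000110100300158000840802700080004002009400080a1703))) 
(.nd (nat_lit 10) (.lf (nat_lit 4764731742) (dlOf (nat_lit 1) (nat_lit 0x400400020008004e82))) 
(.lf (nat_lit 472778078) (dlOf (nat_lit 7) (nat_lit 0x600b28000b00805605940002004012c2ca0000f020096165000070100030b28000340800185940000604000800400620018b03402))))) 
(.nd (nat_lit 12) (.nd (nat_lit 8) 
(.lf (nat_lit 471335134) (dlOf (nat_lit 1) (nat_lit 0x1000182e0581))) 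
(.lf (nat_lit 4764731870) (dlOf (nat_lit 1) (nat_lit 0x20028004e81)))) (.nd (nat_lit 9) 
(.lf (nat_lit 469898718) (dlOf (nat_lit 1) (nat_lit 0x20028009b01))) 
(.lf (nat_lit 469767134) (dlOf (nat_lit 1) (nat_lit 0x220028009201)))))))) (.nd (nat_lit 30) 
(.nd (nat_lit 11) (.nd (nat_lit 18) (.nd (nat_lit 6) (.nd (nat_lit 19) (.nd (nat_lit 28) 
(.lf (nat_lit 5033164830) (dlOf (nat_lit 1) (nat_lit 0x400400020008000002))) 
(.lf (nat_lit 5301600286) (dlOf (nat_lit 1) (nat_lit 0x400400020008000002)))) 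
(.lf (nat_lit 738721822) (dlOf (nat_lit 2) (nat_lit 0x1c00d0008d8180f0a80)))) 
(.lf (nat_lit 5033295966) (dlOf (nat_lit 2) (nat_lit 0x14024000340200060018040701)))) 
(.nd (nat_lit 8) (.nd (nat_lit 17) 
(.lf (nat_lit 1007419422) (dlOf (nat_lit 1) (nat_lit 0x400400020008340682))) 
(.lf (nat_lit 738590750) (dlOf (nat_lit 3) (nat_lit 0x2028000100c80001c08002c0a00000002000200180b0181)))) 
(.lf (nat_lit 5033428254) (dlOf (nat_lit 1) (nat_lit 0xe0018093101))))) (.nd (nat_lit 6) 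
(.nd (nat_lit 8) (.nd (nat_lit 28) 
(.lf (nat_lit 5033167518) (dlOf (nat_lit 1) (nat_lit 0x400400020008005582))) 
(.lf (nat_lit 5301602974) (dlOf (nat_lit 1) (nat_lit 0x400400020008005582)))) 
(.lf (nat_lit 5033167774) (dlOf (nat_lit 1) (nat_lit 0x5a0018005c81)))) (.nd (nat_lit 7) 
(.nd (nat_lit 12) (.lf (nat_lit 5033167198) (dlOf (nat_lit 1) (nat_lit 0x400400020008004e82))) 
(.lf (nat_lit 1006639454) (dlOf (nat_lit 1) (nat_lit 0x40040002000800ab82)))) (.nd (nat_lit 8) 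
(.lf (nat_lit 1006635230) (dlOf (nat_lit 1) (nat_lit 0x400400020008004a82))) 
(.lf (nat_lit 5033167326) (dlOf (nat_lit 1) (nat_lit 0x8008000400200020008004e83))))))) 
(.nd (nat_lit 6) (.nd (nat_lit 31) (.nd (nat_lit 20) (.nd (nat_lit 7) 
(.lf (nat_lit 6106906654) (dlOf (nat_lit 1) (nat_lit 0x8008000400200020008000003))) 
(.lf (nat_lit 2080506014) (dlOf (nat_lit 1) (nat_lit 0x40008090501)))) (.nd (nat_lit 18) 
(.lf (nat_lit 6376390686) (dlOf (nat_lit 1) (nat_lit 0xb800803d800200ec0008090003))) 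
(.lf (nat_lit 6377177118) (dlOf (nat_lit 3) (nat_lit 0x14120000230100010900000e00800b800800b8002004200080b0183))))) 
(.nd (nat_lit 7) (.nd (nat_lit 18) 
(.lf (nat_lit 4228382750) (dlOf (nat_lit 1) (nat_lit 0x13000800e8002002e00080a0903))) 
(.lf (nat_lit 4228120606) (dlOf (nat_lit 1) (nat_lit 0x800200040008030b82)))) 
(.lf (nat_lit 4227865502) (dlOf (nat_lit 1) (nat_lit 0x80040002001800bc82))))) (.nd (nat_lit 7) 
(.nd (nat_lit 8) (.nd (nat_lit 9) 
(.lf (nat_lit 6375997534) (dlOf (nat_lit 10) (nat_lit 0x401b400700d8006602f001c016800e00b00078056004a02a0022014801500a0012804e00b4026001a01280018090003004600400220011010801280800050036003801a002b00c0014005c007002c0044015001f009801180480070022003800f001c006800e002c00700120052004001200180100004002400000034440086028000101280008088000660c00a805e00c2028003f013801f0098014804a0080022004500d8000c83801300a0002804a0003104000202800070128000c01000080a0004804a000e0240001783000a0128000b80801280a0017404c0016025000b01180010088009804000540180000f87002a01400020098003404a00080230005011000078280700008030800201740008040703)))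 
(.lf (nat_lit 6376131166) (dlOf (nat_lit 1) (nat_lit 0x400400020008095382)))) (.nd (nat_lit 10) 
(.lf (nat_lit 6377572702) (dlOf (nat_lit 1) (nat_lit 0x4004000200080e4e82))) 
(.lf (nat_lit 4227865950) (dlOf (nat_lit 1) (nat_lit 0x40040002000800c902))))) (.nd (nat_lit 8) 
(.nd (nat_lit 11) (.lf (nat_lit 6375605470) (dlOf (nat_lit 1) (nat_lit 0x20028002e01))) 
(.lf (nat_lit 4227865822) (dlOf (nat_lit 1) (nat_lit 0x80040002001800c482)))) (.nd (nat_lit 11) 
(.lf (nat_lit 2080506334) (dlOf (nat_lit 1) (nat_lit 0x1800400020008091282))) 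
(.lf (nat_lit 3959560670) (dlOf (nat_lit 2) (nat_lit 0x8046000701c00303810002800800040020026000811b283))))))))))) 
(.nd (nat_lit 17) (.nd (nat_lit 18) (.nd (nat_lit 10) (.nd (nat_lit 19) (.nd (nat_lit 6) 
(.nd (nat_lit 28) (.nd (nat_lit 11) (.nd (nat_lit 20) (.nd (nat_lit 23) 
(.lf (nat_lit 52461598) (dlOf (nat_lit 1) (nat_lit 0x60029530101))) 
(.lf (nat_lit 10518558) (dlOf (nat_lit 1) (nat_lit 0x400185e0b81)))) 
(.lf (nat_lit 38830110) (dlOf (nat_lit 1) (nat_lit 0x8008012400200220009170103)))) (.nd (nat_lit 8) 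
(.lf (nat_lit 4362111006) (dlOf (nat_lit 1) (nat_lit 0x48008003400200140008004703))) 
(.lf (nat_lit 536906014) (dlOf (nat_lit 1) (nat_lit 0x400200020008004b82))))) (.nd (nat_lit 7) 
(.nd (nat_lit 26) (.lf (nat_lit 268468254) (dlOf (nat_lit 1) (nat_lit 0x400400020008050002))) 
(.lf (nat_lit 5167415326) (dlOf (nat_lit 1) (nat_lit 0x400400020008050002)))) 
(.lf (nat_lit 3493888158) (dlOf (nat_lit 2) (nat_lit 0x9c15f000ae8181b0200))))) (.nd (nat_lit 7) 
(.nd (nat_lit 9) (.nd (nat_lit 11) (.nd (nat_lit 20) 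
(.lf (nat_lit 14712926) (dlOf (nat_lit 1) (nat_lit 0x140018770881))) 
(.lf (nat_lit 30441566) (dlOf (nat_lit 1) (nat_lit 0x8002000e0008e30482)))) 
(.lf (nat_lit 1543542878) (dlOf (nat_lit 1) (nat_lit 0x2000800a801)))) (.nd (nat_lit 22) 
(.lf (nat_lit 5368744542) (dlOf (nat_lit 2) (nat_lit 0x4e00900000008031000800c400200300008005383))) 
(.lf (nat_lit 54561374) (dlOf (nat_lit 1) (nat_lit 0x20029655381))))) (.nd (nat_lit 8) 
(.nd (nat_lit 9) (.lf (nat_lit 2348845278) (dlOf (nat_lit 1) (nat_lit 0xc00200040008004a82))) 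
(.lf (nat_lit 37598) (dlOf (nat_lit 1) (nat_lit 0xae0018008c81)))) (.nd (nat_lit 9) 
(.lf (nat_lit 268468702) (dlOf (nat_lit 1) (nat_lit 0x70800801fc00201a00008051283))) 
(.lf (nat_lit 4966089694) (dlOf (nat_lit 1) (nat_lit 0x8008000400200020008002883))))))) 
(.nd (nat_lit 30) (.nd (nat_lit 20) (.nd (nat_lit 22) (.nd (nat_lit 23) (.nd (nat_lit 26) 
(.nd (nat_lit 29) (.lf (nat_lit 134774814) (dlOf (nat_lit 1) (nat_lit 0x3c004001c00080b0982))) 
(.lf (nat_lit 2819129374) (dlOf (nat_lit 2) (nat_lit 0x8a03500015c0801c80080024002006e00081a0583)))) 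
(.lf (nat_lit 201883678) (dlOf (nat_lit 1) (nat_lit 0x3c004001c00080b0982)))) 
(.lf (nat_lit 42500126) (dlOf (nat_lit 1) (nat_lit 0x38004000a0009260102)))) (.nd (nat_lit 6) 
(.nd (nat_lit 24) 
(.lf (nat_lit 474513438) (dlOf (nat_lit 2) (nat_lit 0x16850c00ac12c005808d00240398000ec2000300080008002000400091a0103))) 
(.lf (nat_lit 21528606) (dlOf (nat_lit 2) (nat_lit 0xf0000000760400c800200040008a40102)))) 
(.lf (nat_lit 21528670) (dlOf (nat_lit 10) (nat_lit 0x9daa000aed30001f690000fa860005d3f0009e4580046e88001773400034100011daa0002ed40009f698002bb480009d430005dcd0000cc30024f6a80117b5000dfda60046ea20028f50c011f744000320c0005daa0003ed40005f698000bb4800031080021daa0001ed40009f698002ba860001f08001fdaa0004ed4000c76980033a860001e080023daa0001ed4000676980023a860001d08000bdaa0005ed4000af698000380c00139760009b3200046eb800054180028008027800200200008a40703))))) 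
(.nd (nat_lit 7) (.nd (nat_lit 21) 
(.lf (nat_lit 9994270) (dlOf (nat_lit 8) (nat_lit 0x75d228069690c03a348201b1a3f02d5d1d815fe8e4003f46a00879e102d8cee0008484801c690c00434820005a3f0246d1d812368e4034b3c204919dc0010887000ad228004e90c005b482047da3b023ed1c8120e77000420180133486000fa410279d1d8138e8e4025f3c204f99dc001078600050000005540812fe830074b41406ec000000a90300050000004e008061000801dc002005600085a0a83))) 
(.nd (nat_lit 22) 
(.lf (nat_lit 2755166238) (dlOf (nat_lit 8) (nat_lit 0x5c40cc076c05e03bd02e0014816400840ae031c0400008017800180b4002403a001ff12018406600760200007f8100c981980e100bc070005c002502c802c015c06bc080004402f001e016800c0088008403a001fd14038a06601d10200022808801c403a001fc08014e066000fd81006103300ec8100019403a001f506014c066039a02f000781640724080000c02f003400e80079c300108008047000200020008120903))) 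
(.lf (nat_lit 24674334) (dlOf (nat_lit 1) (nat_lit 0x1c0008bb0601))))) 
(.lf (nat_lit 37259678) (dlOf (nat_lit 1) (nat_lit 0x8002000200090d4e82))))) (.nd (nat_lit 9) 
(.nd (nat_lit 28) (.nd (nat_lit 6) 
(.lf (nat_lit 1074298910) (dlOf (nat_lit 1) (nat_lit 0x600281b0001))) 
(.lf (nat_lit 3221782622) (dlOf (nat_lit 1) (nat_lit 0x280080030002000a0008181303)))) 
(.nd (nat_lit 20) 
(.lf (nat_lit 3557326878) (dlOf (nat_lit 16) (nat_lit 0x20c07e0005a02012603f0002c81002b01f80015c082fe81c8039807e0004e04004e07200d201f8001341001d01c8000980418280e4022003f00025820019039002100fc000920800300e4000480206d2072008801f8000dc1004181c80006a0417f80e4019a03f0001a02009c01f8000140803080fc000080400b407e000020201a200081c0581))) 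
(.lf (nat_lit 3493363742) (dlOf (nat_lit 8) (nat_lit 0x5c40cc076c05e03bd02e0014816400840ae031c0400008017800180b4002403a001ed12018406600760200007b0100c981980e100bc070005c002502c802c015c06bc080004402f001e016800c0088008403a001eb14038a06601d10200022808801c403a001ea08014e066000f481006103300ec8100019403a001e306014c066039a02f000781640724080000c02f003400e800748300108008047000200020008120903))))) 
(.nd (nat_lit 11) 
(.lf (nat_lit 4094198302) (dlOf (nat_lit 1) (nat_lit 0xd80080074002000e0008018703))) 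
(.lf (nat_lit 5774019102) (dlOf (nat_lit 1) (nat_lit 0x1100080104002000800080e5103))))))) 
(.nd (nat_lit 8) (.nd (nat_lit 6) (.nd (nat_lit 7) (.nd (nat_lit 28) (.nd (nat_lit 11) 
(.lf (nat_lit 6106940958) (dlOf (nat_lit 1) (nat_lit 0x20028003701))) 
(.lf (nat_lit 2754645534) (dlOf (nat_lit 1) (nat_lit 0x18004000200180f7102)))) (.nd (nat_lit 9) 
(.lf (nat_lit 5301636126) (dlOf (nat_lit 1) (nat_lit 0x18008001000200060008006003))) 
(.lf (nat_lit 469802526) (dlOf (nat_lit 2) (nat_lit 0x411c0002d020004001800cf01))))) 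
(.nd (nat_lit 26) (.nd (nat_lit 11) 
(.lf (nat_lit 4160787614) (dlOf (nat_lit 1) (nat_lit 0x80018009501))) 
(.lf (nat_lit 671124638) (dlOf (nat_lit 1) (nat_lit 0xa0008006281)))) (.nd (nat_lit 20) 
(.lf (nat_lit 2483063966) (dlOf (nat_lit 2) (nat_lit 0x1014000110080040008001800200060008006283))) 
(.lf (nat_lit 2754645150) (dlOf (nat_lit 1) (nat_lit 0xb00080014002000200080f6283)))))) 
(.nd (nat_lit 30) (.nd (nat_lit 7) (.nd (nat_lit 27) 
(.lf (nat_lit 6442486878) (dlOf (nat_lit 1) (nat_lit 0x140018006081))) 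
(.lf (nat_lit 3087043678) (dlOf (nat_lit 1) (nat_lit 0x840028006081)))) (.nd (nat_lit 9) 
(.lf (nat_lit 2147517662) (dlOf (nat_lit 1) (nat_lit 0xc80008002e01))) 
(.lf (nat_lit 671125214) (dlOf (nat_lit 3) (nat_lit 0x60050000581000e00280000008001800800f8002000a0008007383))))) 
(.nd (nat_lit 28) (.nd (nat_lit 26) 
(.lf (nat_lit 5502960862) (dlOf (nat_lit 1) (nat_lit 0xac8002047c0008002e02))) 
(.lf (nat_lit 6106940638) (dlOf (nat_lit 1) (nat_lit 0x240008002e01)))) (.nd (nat_lit 9) 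
(.lf (nat_lit 3556803806) (dlOf (nat_lit 1) (nat_lit 0x4400400180008002e02))) 
(.lf (nat_lit 3691026142) (dlOf (nat_lit 1) (nat_lit 0x2000800a001))))))) (.nd (nat_lit 30) 
(.nd (nat_lit 7) (.nd (nat_lit 9) (.nd (nat_lit 11) 
(.lf (nat_lit 4563436830) (dlOf (nat_lit 1) (nat_lit 0x3000200960008003102))) 
(.lf (nat_lit 2550172958) (dlOf (nat_lit 1) (nat_lit 0x18008000400200040008006783)))) 
(.nd (nat_lit 6) 
(.lf (nat_lit 201361182) (dlOf (nat_lit 3) (nat_lit 0x1400000009008008000000044040004002009a0008003c82))) 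
(.lf (nat_lit 2348844894) (dlOf (nat_lit 1) (nat_lit 0x58008000c00200060008003f83))))) 
(.nd (nat_lit 6) (.nd (nat_lit 26) (.nd (nat_lit 28) 
(.lf (nat_lit 2147517854) (dlOf (nat_lit 2) (nat_lit 0x80000029204001c00200100008003602))) 
(.lf (nat_lit 4563436958) (dlOf (nat_lit 1) (nat_lit 0x2a0018003601)))) 
(.lf (nat_lit 335578526) (dlOf (nat_lit 1) (nat_lit 0x400400180008003602)))) 
(.lf (nat_lit 268469726) (dlOf (nat_lit 1) (nat_lit 0x400400020008053602))))) (.nd (nat_lit 12) 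
(.nd (nat_lit 28) (.nd (nat_lit 7) 
(.lf (nat_lit 3288370462) (dlOf (nat_lit 1) (nat_lit 0x20018006781))) 
(.lf (nat_lit 1744864670) (dlOf (nat_lit 1) (nat_lit 0x50008000400200080008003603)))) 
(.nd (nat_lit 6) (.lf (nat_lit 1409322398) (dlOf (nat_lit 1) (nat_lit 0xa0028006d01))) 
(.lf (nat_lit 1409322462) (dlOf (nat_lit 2) (nat_lit 0x480000001c040020002000a0008006e02))))) 
(.nd (nat_lit 28) (.nd (nat_lit 26) 
(.lf (nat_lit 6039835934) (dlOf (nat_lit 1) (nat_lit 0x30004001a0008009702))) 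
(.lf (nat_lit 3422590238) (dlOf (nat_lit 4) (nat_lit 0x10034000ea04001001a0007102001000d00050000000001000b0008005c00200160008009703)))) 
(.nd (nat_lit 6) 
(.lf (nat_lit 4160787742) (dlOf (nat_lit 2) (nat_lit 0x1400a000088080018008005800200240008009703))) 
(.lf (nat_lit 1342216030) (dlOf (nat_lit 1) (nat_lit 0x8008003c002000a000800a303))))))))) 
(.nd (nat_lit 19) (.nd (nat_lit 26) (.nd (nat_lit 20) (.nd (nat_lit 32) (.nd (nat_lit 28) 
(.nd (nat_lit 9) 
(.lf (nat_lit 671383582) (dlOf (nat_lit 10) (nat_lit 0x11c0250011f0100820128008e8080010080002b20400180000014b020008000000a381006001000110074003800a0008002000100000050828010808000780040020000000a0030062010002680740134004000e0000009a040079012800000080050008014000200d20008170903))) 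
(.lf (nat_lit 3221520926) (dlOf (nat_lit 1) (nat_lit 0x400400020018127f02)))) (.nd (nat_lit 22) 
(.lf (nat_lit 1879343134) (dlOf (nat_lit 1) (nat_lit 0xe8002008200080e0a02))) 
(.lf (nat_lit 3494150174) (dlOf (nat_lit 2) (nat_lit 0x4882c02b86040004002000200081c0902))))) 
(.nd (nat_lit 9) (.nd (nat_lit 27) 
(.lf (nat_lit 4295262238) (dlOf (nat_lit 1) (nat_lit 0x4002000200080e0b02))) 
(.lf (nat_lit 4429479966) (dlOf (nat_lit 1) (nat_lit 0x4002000200080e0b02)))) (.nd (nat_lit 6) 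
(.lf (nat_lit 6442746398) (dlOf (nat_lit 1) (nat_lit 0x8008000c002000c00081b0d83))) 
(.lf (nat_lit 5100571230) (dlOf (nat_lit 1) (nat_lit 0x200280d5381)))))) (.nd (nat_lit 6) 
(.nd (nat_lit 7) (.nd (nat_lit 23) 
(.lf (nat_lit 1343520798) (dlOf (nat_lit 1) (nat_lit 0x40008290501))) 
(.lf (nat_lit 9732126) (dlOf (nat_lit 1) (nat_lit 0x800400040008580102)))) (.nd (nat_lit 9) 
(.lf (nat_lit 51676318) (dlOf (nat_lit 2) (nat_lit 0x681200044019512b80))) 
(.lf (nat_lit 36997790) (dlOf (nat_lit 1) (nat_lit 0x20019075581))))) (.nd (nat_lit 7) 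
(.nd (nat_lit 9) 
(.lf (nat_lit 9732190) (dlOf (nat_lit 6) (nat_lit 0xfa450003d218000e8ec000b3be00119dc0001a050008d228002690c0013482000fa3b0008cee00007c28006e90c0003c04001348a0001c020067a0f005dcb0802ee580012b0180087809005d3a900005430015000800c000200040008580703))) 
(.lf (nat_lit 60066398) (dlOf (nat_lit 1) (nat_lit 0x60019845381)))) 
(.lf (nat_lit 51676126) (dlOf (nat_lit 1) (nat_lit 0x480019512881)))))) (.nd (nat_lit 28) 
(.nd (nat_lit 6) (.nd (nat_lit 7) (.nd (nat_lit 22) 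
(.lf (nat_lit 2349105182) (dlOf (nat_lit 3) (nat_lit 0x2802a00ae281000a00800570c0800480080020002001200080a0903))) 
(.lf (nat_lit 2755952670) (dlOf (nat_lit 2) (nat_lit 0x4888002ea2040004002000200081c0902)))) 
(.lf (nat_lit 69502110) (dlOf (nat_lit 1) (nat_lit 0x80008002400200140008a82b83)))) 
(.nd (nat_lit 7) (.lf (nat_lit 2755952734) (dlOf (nat_lit 1) (nat_lit 0x200181c1301))) 
(.nd (nat_lit 9) 
(.lf (nat_lit 2885978334) (dlOf (nat_lit 2) (nat_lit 0x24034002e01300006828144a80))) 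
(.lf (nat_lit 2754907870) (dlOf (nat_lit 1) (nat_lit 0x800280f7381)))))) (.nd (nat_lit 27) 
(.nd (nat_lit 6) 
(.lf (nat_lit 2483322910) (dlOf (nat_lit 3) (nat_lit 0x2802a00ba981000a008005d440800480080020002001200080a0903))) 
(.nd (nat_lit 31) 
(.lf (nat_lit 5167677534) (dlOf (nat_lit 2) (nat_lit 0x2001800064080008008000c00200020008100703))) 
(.lf (nat_lit 3020193886) (dlOf (nat_lit 4) (nat_lit 0x180ac030920400240600184202000602b00c20018150880))))) 
(.nd (nat_lit 20) (.nd (nat_lit 29) 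
(.lf (nat_lit 1543798814) (dlOf (nat_lit 10) (nat_lit 0x11c025000d181008201280067c080010080002bc0400180000014b020008000000a381006001000110074003800a0008002000100000050828010808000780040020000000a0030062010002680740134004000e0000009a040079012800000080050008014000200d20008170903))) 
(.lf (nat_lit 1006927902) (dlOf (nat_lit 1) (nat_lit 0xe8002008200080e0a02)))) 
(.lf (nat_lit 471105566) (dlOf (nat_lit 1) (nat_lit 0x1780080118002004c0008270503))))))) 
(.nd (nat_lit 7) (.nd (nat_lit 21) (.nd (nat_lit 27) (.nd (nat_lit 6) 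
(.lf (nat_lit 10256414) (dlOf (nat_lit 1) (nat_lit 0x400285c0901))) 
(.lf (nat_lit 17596510) (dlOf (nat_lit 1) (nat_lit 0x8002000e00088e0482)))) (.nd (nat_lit 8) 
(.lf (nat_lit 2819391518) (dlOf (nat_lit 1) (nat_lit 0x48008001000200020008250503))) 
(.lf (nat_lit 5772182814) (dlOf (nat_lit 1) (nat_lit 0x400400020008093102))))) (.nd (nat_lit 20) 
(.nd (nat_lit 26) 
(.lf (nat_lit 3492577310) (dlOf (nat_lit 4) (nat_lit 0x528320029c18e01710be00cc85ec04f82e6031a17101650b8001e82d805a00000022612007c190001800000087c1003a8640004180400bc002001000080e0482))) 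
(.lf (nat_lit 2754379806) (dlOf (nat_lit 4) (nat_lit 0x528330029c19601710bd80cc85e804f82e6031a17101650b8001e839805a00000022612007c198001800000088c1003a86600041c0400bc002001000080e0482)))) 
(.nd (nat_lit 22) (.lf (nat_lit 1346142238) (dlOf (nat_lit 1) (nat_lit 0xc0004003c0008e60102))) 
(.lf (nat_lit 24936478) (dlOf (nat_lit 1) (nat_lit 0xb80080014002001e0008bd0b03)))))) 
(.nd (nat_lit 20) (.nd (nat_lit 10) (.nd (nat_lit 8) (.nd (nat_lit 9) 
(.lf (nat_lit 36470942) (dlOf (nat_lit 1) (nat_lit 0x740009070501))) 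
(.lf (nat_lit 36473502) (dlOf (nat_lit 1) (nat_lit 0x134002007e0009075582)))) 
(.lf (nat_lit 36473246) (dlOf (nat_lit 1) (nat_lit 0x20019074e81)))) (.nd (nat_lit 6) 
(.lf (nat_lit 1345094814) (dlOf (nat_lit 2) (nat_lit 0x41ae0008802000200289e2b81))) 
(.lf (nat_lit 5772182750) (dlOf (nat_lit 1) (nat_lit 0x400400020008092e02))))) (.nd (nat_lit 6) 
(.nd (nat_lit 9) 
(.lf (nat_lit 2753331358) (dlOf (nat_lit 2) (nat_lit 0x182a40013c0200020018090201))) 
(.nd (nat_lit 11) (.lf (nat_lit 8163998) (dlOf (nat_lit 1) (nat_lit 0x8008000400200020008518c83))) 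
(.lf (nat_lit 33327774) (dlOf (nat_lit 1) (nat_lit 0x2c0018f55581))))) (.nd (nat_lit 8) 
(.lf (nat_lit 8164062) (dlOf (nat_lit 1) (nat_lit 0xa0008004c00200280008518c83))) 
(.lf (nat_lit 8160734) (dlOf (nat_lit 1) (nat_lit 0x400200020008513602))))))))) (.nd (nat_lit 8) 
(.nd (nat_lit 18) (.nd (nat_lit 29) (.nd (nat_lit 21) (.nd (nat_lit 30) (.nd (nat_lit 19) 
(.nd (nat_lit 6) (.nd (nat_lit 20) (.nd (nat_lit 22) 
(.lf (nat_lit 2214756382) (dlOf (nat_lit 1) (nat_lit 0x4004000200080a0002))) 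
(.lf (nat_lit 12746782) (dlOf (nat_lit 1) (nat_lit 0x200286e0a01)))) 
(.lf (nat_lit 22183966) (dlOf (nat_lit 2) (nat_lit 0x25afc000350200040028aa0b81)))) 
(.nd (nat_lit 7) (.lf (nat_lit 38962270) (dlOf (nat_lit 1) (nat_lit 0x720009192901))) 
(.lf (nat_lit 474121438) (dlOf (nat_lit 1) (nat_lit 0x4004000200090e2e02))))) (.nd (nat_lit 20) 
(.nd (nat_lit 23) 
(.lf (nat_lit 21659678) (dlOf (nat_lit 2) (nat_lit 0x255c00012aa000578100048008000c00200160008a60a83))) 
(.lf (nat_lit 13271070) (dlOf (nat_lit 1) (nat_lit 0x40008000400200020008710b03)))) 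
(.lf (nat_lit 18513950) (dlOf (nat_lit 1) (nat_lit 0x20008001400200020008940683))))) 
(.nd (nat_lit 26) (.nd (nat_lit 28) (.nd (nat_lit 27) 
(.lf (nat_lit 5368872990) (dlOf (nat_lit 5) (nat_lit 0x2b0054015002800a8013004e00880250040013401c001fd0c001e015001600a0013004c005c022003201000130070007f030004805400340280040013001400880068040005001c001fb0c005e015003300a0027804c00f0022008a01000450070007e830003800800d8002000a0008060a83))) 
(.lf (nat_lit 5503090718) (dlOf (nat_lit 5) (nat_lit 0x2b0054015002800a8013004e00880250040013401c002120c001e015001600a0013004c005c0220032010001300700084430004805400340280040013001400880068040005001c002100c005e015003300a0027804c00f0022008a010004500700083c30003800800d8002000a0008060a83)))) 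
(.nd (nat_lit 6) 
(.lf (nat_lit 3490873374) (dlOf (nat_lit 3) (nat_lit 0xe408c004d0448023821c002ba0c01281180092089001d043800570180040008001000200140008030903))) 
(.lf (nat_lit 5637310046) (dlOf (nat_lit 1) (nat_lit 0x1800280d3901))))) (.nd (nat_lit 7) 
(.nd (nat_lit 31) 
(.lf (nat_lit 5435981854) (dlOf (nat_lit 1) (nat_lit 0x8008000400200020008090003))) 
(.lf (nat_lit 3288498206) (dlOf (nat_lit 2) (nat_lit 0x4401a001880200080018030901)))) 
(.lf (nat_lit 5435984542) (dlOf (nat_lit 1) (nat_lit 0x20008095581)))))) (.nd (nat_lit 23) 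
(.nd (nat_lit 6) (.nd (nat_lit 7) (.nd (nat_lit 9) 
(.lf (nat_lit 1344962590) (dlOf (nat_lit 2) (nat_lit 0x6011a006608c0001b0289a0100))) 
(.lf (nat_lit 3310110) (dlOf (nat_lit 1) (nat_lit 0x5800400060008200d82)))) 
(.lf (nat_lit 35816606) (dlOf (nat_lit 1) (nat_lit 0x80019012b81)))) (.nd (nat_lit 9) 
(.nd (nat_lit 11) (.lf (nat_lit 52592734) (dlOf (nat_lit 1) (nat_lit 0xcc00400760009550882))) 
(.lf (nat_lit 3492976734) (dlOf (nat_lit 1) (nat_lit 0x2000280fa801)))) 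
(.lf (nat_lit 20616798) (dlOf (nat_lit 1) (nat_lit 0x600289d9c01))))) (.nd (nat_lit 19) 
(.nd (nat_lit 6) (.nd (nat_lit 9) 
(.lf (nat_lit 14843934) (dlOf (nat_lit 2) (nat_lit 0x3caf00003c0200040008780581))) 
(.lf (nat_lit 11698718) (dlOf (nat_lit 4) (nat_lit 0x1fe3100136f54002d80800338c4000dbd50000202001ce31000aef5400002080084004008000186c0d82)))) 
(.lf (nat_lit 11698270) (dlOf (nat_lit 1) (nat_lit 0x27000086c0001)))) (.nd (nat_lit 6) 
(.nd (nat_lit 20) (.lf (nat_lit 15368222) (dlOf (nat_lit 1) (nat_lit 0x4004001400087e0582))) 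
(.lf (nat_lit 45776926) (dlOf (nat_lit 1) (nat_lit 0x14004000e0009360102)))) 
(.lf (nat_lit 45776990) (dlOf (nat_lit 1) (nat_lit 0x60019360881))))))) (.nd (nat_lit 27) 
(.nd (nat_lit 7) (.nd (nat_lit 19) (.nd (nat_lit 20) (.nd (nat_lit 26) 
(.lf (nat_lit 4026695710) (dlOf (nat_lit 2) (nat_lit 0x4401a001890200080018030901))) 
(.lf (nat_lit 5167546398) (dlOf (nat_lit 2) (nat_lit 0x10088003c004000c004000a00080a0a82)))) 
(.lf (nat_lit 2752675870) (dlOf (nat_lit 3) (nat_lit 0xe4089004d04300238210002b00c01281120092086001d04200055c180040008001000200140008030903)))) 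
(.nd (nat_lit 26) 
(.lf (nat_lit 805994526) (dlOf (nat_lit 5) (nat_lit 0x4c02b0006e4080e50158065c026001b3040178056000ce8100a002b0006140803b8008000c00200620008210483))) 
(.lf (nat_lit 1678409758) (dlOf (nat_lit 5) (nat_lit 0x4c02b0006e4080e50158065c026001a3040178056000cc8100a002b0005f40803b8008000c00200620008210483))))) 
(.nd (nat_lit 10) (.nd (nat_lit 9) 
(.lf (nat_lit 1677887646) (dlOf (nat_lit 2) (nat_lit 0x180000001404000400200020008114802))) 
(.lf (nat_lit 3020067486) (dlOf (nat_lit 1) (nat_lit 0x4000200500008128c82)))) (.nd (nat_lit 6) 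
(.lf (nat_lit 3825372318) (dlOf (nat_lit 1) (nat_lit 0x400200020008146282))) 
(.lf (nat_lit 872580318) (dlOf (nat_lit 1) (nat_lit 0x20028092e01)))))) (.nd (nat_lit 11) 
(.nd (nat_lit 28) (.nd (nat_lit 26) 
(.lf (nat_lit 4966219806) (dlOf (nat_lit 1) (nat_lit 0x2400400180008060a82))) 
(.lf (nat_lit 5033328670) (dlOf (nat_lit 1) (nat_lit 0x2400400180008060a82)))) (.nd (nat_lit 21) 
(.lf (nat_lit 5301764126) (dlOf (nat_lit 1) (nat_lit 0x8008000400200020008090003))) 
(.lf (nat_lit 1008893982) (dlOf (nat_lit 1) (nat_lit 0x8008000400200020008fc0103))))) 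
(.nd (nat_lit 6) (.lf (nat_lit 3892485662) (dlOf (nat_lit 1) (nat_lit 0x1a002815cf01))) 
(.nd (nat_lit 7) (.lf (nat_lit 1744996958) (dlOf (nat_lit 1) (nat_lit 0x20028095381))) 
(.lf (nat_lit 671254750) (dlOf (nat_lit 3) (nat_lit 0x1b016000d80180001a0800100580000c0200020028144a81)))))))) 
(.nd (nat_lit 19) (.nd (nat_lit 20) (.nd (nat_lit 32) (.nd (nat_lit 22) (.nd (nat_lit 9) 
(.nd (nat_lit 26) (.lf (nat_lit 4026957854) (dlOf (nat_lit 1) (nat_lit 0x20004005600080e0482))) 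
(.lf (nat_lit 3288760350) (dlOf (nat_lit 1) (nat_lit 0x20004005600080e0482)))) 
(.lf (nat_lit 201753118) (dlOf (nat_lit 5) (nat_lit 0x90178008200802500c4001ea0400dc082000040200cc04100160180000041000b8008000c00200440008090d83)))) 
(.nd (nat_lit 7) (.lf (nat_lit 38174750) (dlOf (nat_lit 1) (nat_lit 0x20029130001))) 
(.lf (nat_lit 21397662) (dlOf (nat_lit 1) (nat_lit 0x4e0018a31301))))) (.nd (nat_lit 27) 
(.nd (nat_lit 28) 
(.lf (nat_lit 4295393310) (dlOf (nat_lit 2) (nat_lit 0xf00b00020010012a2080004002000400081c0a02))) 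
(.lf (nat_lit 4563828766) (dlOf (nat_lit 7) (nat_lit 0xac002c002ca0402800160016402002603d000201d00055c1001580c4002a60400980620015202010004100a601e803f80e8002a00c0328004001800080f0a82)))) 
(.nd (nat_lit 28) 
(.lf (nat_lit 4429611038) (dlOf (nat_lit 2) (nat_lit 0xf00a8002001001bea080004002000400081c0a02))) 
(.lf (nat_lit 4698046494) (dlOf (nat_lit 7) (nat_lit 0xac002c002d20402800160016802002603d000201c0005701001580c4002b00400980620015702010004100a601e803f80e0002a00c0328004001800080f0a82)))))) 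
(.nd (nat_lit 23) (.nd (nat_lit 21) 
(.lf (nat_lit 471236638) (dlOf (nat_lit 1) (nat_lit 0x200182d0681))) 
(.lf (nat_lit 37126174) (dlOf (nat_lit 1) (nat_lit 0x4002011c00090a0602)))) (.nd (nat_lit 6) 
(.lf (nat_lit 9863198) (dlOf (nat_lit 2) (nat_lit 0x64b80001d818580100))) 
(.lf (nat_lit 60197470) (dlOf (nat_lit 1) (nat_lit 0x20029845381)))))) (.nd (nat_lit 20) 
(.nd (nat_lit 6) (.nd (nat_lit 22) (.nd (nat_lit 27) 
(.lf (nat_lit 950302) (dlOf (nat_lit 1) (nat_lit 0x1800400020008040482))) 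
(.lf (nat_lit 5772312606) (dlOf (nat_lit 1) (nat_lit 0x8008000400200020008090003)))) 
(.lf (nat_lit 21921822) (dlOf (nat_lit 1) (nat_lit 0xa0018a80901)))) 
(.lf (nat_lit 34505822) (dlOf (nat_lit 1) (nat_lit 0x40028fb2901)))) (.nd (nat_lit 6) 
(.nd (nat_lit 9) 
(.lf (nat_lit 41845918) (dlOf (nat_lit 2) (nat_lit 0x1e521000220080018008000c00200340009242b83))) 
(.lf (nat_lit 8295070) (dlOf (nat_lit 1) (nat_lit 0x400200020008518c82)))) 
(.lf (nat_lit 2755559518) (dlOf (nat_lit 1) (nat_lit 0x4002000200081b0002))))))) (.nd (nat_lit 7) 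
(.nd (nat_lit 28) (.nd (nat_lit 18) (.nd (nat_lit 10) (.nd (nat_lit 6) (.nd (nat_lit 19) 
(.lf (nat_lit 41058590) (dlOf (nat_lit 1) (nat_lit 0xa00080040002008e0009218003))) 
(.lf (nat_lit 12222750) (dlOf (nat_lit 1) (nat_lit 0x758004007400086c0482)))) 
(.lf (nat_lit 6442615134) (dlOf (nat_lit 1) (nat_lit 0x120028104e81)))) (.nd (nat_lit 11) 
(.lf (nat_lit 43681054) (dlOf (nat_lit 1) (nat_lit 0x100080004002000200092a3103))) 
(.lf (nat_lit 3221392670) (dlOf (nat_lit 1) (nat_lit 0xc00200020008116782))))) (.nd (nat_lit 6) 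
(.nd (nat_lit 10) (.lf (nat_lit 2886107422) (dlOf (nat_lit 1) (nat_lit 0x780008154081))) 
(.lf (nat_lit 8295710) (dlOf (nat_lit 1) (nat_lit 0x400200020008519702)))) (.nd (nat_lit 11) 
(.lf (nat_lit 21397854) (dlOf (nat_lit 1) (nat_lit 0x420028a34e81))) 
(.lf (nat_lit 38177118) (dlOf (nat_lit 1) (nat_lit 0x400400020009134e82)))))) (.nd (nat_lit 26) 
(.nd (nat_lit 6) (.nd (nat_lit 18) 
(.lf (nat_lit 1342341406) (dlOf (nat_lit 1) (nat_lit 0x40028014081))) (.nd (nat_lit 27) 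
(.lf (nat_lit 805732638) (dlOf (nat_lit 2) (nat_lit 0x1b00b400138040014002000e00081a0482))) 
(.lf (nat_lit 3624304926) (dlOf (nat_lit 1) (nat_lit 0x780008154081))))) (.nd (nat_lit 11) 
(.lf (nat_lit 3624304990) (dlOf (nat_lit 2) (nat_lit 0x3601400013018154e80))) 
(.lf (nat_lit 3489827166) (dlOf (nat_lit 1) (nat_lit 0x20008004e81))))) (.nd (nat_lit 10) 
(.nd (nat_lit 20) (.lf (nat_lit 469926174) (dlOf (nat_lit 1) (nat_lit 0x40028014081))) 
(.lf (nat_lit 473071902) (dlOf (nat_lit 1) (nat_lit 0x1a0028c90a81)))) (.nd (nat_lit 6) 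
(.lf (nat_lit 5301765406) (dlOf (nat_lit 1) (nat_lit 0x20018093101))) 
(.lf (nat_lit 1409457502) (dlOf (nat_lit 1) (nat_lit 0x8008000c0020002000800c903))))))) 
(.nd (nat_lit 26) (.nd (nat_lit 18) (.nd (nat_lit 6) (.nd (nat_lit 9) 
(.lf (nat_lit 1342341534) (dlOf (nat_lit 1) (nat_lit 0x400400020008016b82))) 
(.lf (nat_lit 8030110) (dlOf (nat_lit 1) (nat_lit 0x2e0018514281)))) (.nd (nat_lit 20) 
(.lf (nat_lit 1610777054) (dlOf (nat_lit 5) (nat_lit 0x1009a000e03700013020002026800380dc000c06c0002406001a04e0001101000a02700007c0801480080004002002e0008091283))) 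
(.lf (nat_lit 9601502) (dlOf (nat_lit 1) (nat_lit 0x2f800400c40018577d02))))) (.nd (nat_lit 10) 
(.nd (nat_lit 6) 
(.lf (nat_lit 5772312990) (dlOf (nat_lit 2) (nat_lit 0x76097800238080100008000400200300008091003))) 
(.lf (nat_lit 805732830) (dlOf (nat_lit 2) (nat_lit 0x3006c0003a04000c002000600081a0b82)))) 
(.nd (nat_lit 9) (.lf (nat_lit 20354526) (dlOf (nat_lit 1) (nat_lit 0x80080004002000200089d9b03))) 
(.lf (nat_lit 8294366) (dlOf (nat_lit 1) (nat_lit 0xa0028517a81)))))) (.nd (nat_lit 6) 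
(.nd (nat_lit 11) (.nd (nat_lit 18) 
(.lf (nat_lit 4362240414) (dlOf (nat_lit 2) (nat_lit 0x5f019802728080048008002000200100008016b83))) 
(.lf (nat_lit 4228284830) (dlOf (nat_lit 1) (nat_lit 0x40028090781)))) (.nd (nat_lit 9) 
(.lf (nat_lit 6509727134) (dlOf (nat_lit 1) (nat_lit 0x20028146d01))) 
(.lf (nat_lit 6241291166) (dlOf (nat_lit 1) (nat_lit 0x200280d5c81))))) (.nd (nat_lit 29) 
(.nd (nat_lit 27) (.lf (nat_lit 4362240478) (dlOf (nat_lit 1) (nat_lit 0x400200740008017d02))) 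
(.lf (nat_lit 469926366) (dlOf (nat_lit 1) (nat_lit 0x60028017d01)))) (.nd (nat_lit 11) 
(.lf (nat_lit 1678148062) (dlOf (nat_lit 2) (nat_lit 0x3006c0003a04000c002000600081a0b82))) 
(.lf (nat_lit 2751633886) (dlOf (nat_lit 1) (nat_lit 0x38004000a000800b282))))))))))) 
(.nd (nat_lit 17) (.nd (nat_lit 18) (.nd (nat_lit 26) (.nd (nat_lit 15) (.nd (nat_lit 19) 
(.nd (nat_lit 10) (.nd (nat_lit 6) (.nd (nat_lit 23) (.nd (nat_lit 7) (.nd (nat_lit 8) 
(.lf (nat_lit 52437022) (dlOf (nat_lit 1) (nat_lit 0x1800400040009530102))) 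
(.lf (nat_lit 536881438) (dlOf (nat_lit 1) (nat_lit 0x400200020008004b82)))) 
(.lf (nat_lit 2281710494) (dlOf (nat_lit 1) (nat_lit 0x460008002581)))) (.nd (nat_lit 20) 
(.nd (nat_lit 24) 
(.lf (nat_lit 10493982) (dlOf (nat_lit 2) (nat_lit 0x546d0000d40800100080014002000800085e0b83))) 
(.lf (nat_lit 27271198) (dlOf (nat_lit 1) (nat_lit 0x8008000400200020008cc0683)))) 
(.lf (nat_lit 28319774) (dlOf (nat_lit 1) (nat_lit 0x400200020008d80682))))) (.nd (nat_lit 8) 
(.nd (nat_lit 28) (.lf (nat_lit 5368719966) (dlOf (nat_lit 1) (nat_lit 0x400400020008005382))) 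
(.lf (nat_lit 6710897246) (dlOf (nat_lit 1) (nat_lit 0x20028005381)))) (.nd (nat_lit 7) 
(.lf (nat_lit 51390814) (dlOf (nat_lit 1) (nat_lit 0x20029514e81))) 
(.lf (nat_lit 5772419550) (dlOf (nat_lit 1) (nat_lit 0xc0018091281)))))) (.nd (nat_lit 6) 
(.nd (nat_lit 7) (.nd (nat_lit 8) 
(.lf (nat_lit 2952805918) (dlOf (nat_lit 2) (nat_lit 0x1800000014c0801b800800ec0020014000800cf03))) 
(.nd (nat_lit 11) (.lf (nat_lit 4966065438) (dlOf (nat_lit 1) (nat_lit 0x400400020008003102))) 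
(.lf (nat_lit 2952805662) (dlOf (nat_lit 3) (nat_lit 0x601c001a0020012f0100008010009620400100020006000800c602))))) 
(.nd (nat_lit 12) (.lf (nat_lit 2550148254) (dlOf (nat_lit 1) (nat_lit 0x20008006281))) 
(.lf (nat_lit 5905595550) (dlOf (nat_lit 2) (nat_lit 0x400000c11020002001800c201))))) 
(.nd (nat_lit 8) (.nd (nat_lit 11) (.nd (nat_lit 27) 
(.lf (nat_lit 2147493086) (dlOf (nat_lit 1) (nat_lit 0x20028002e01))) 
(.lf (nat_lit 4966065374) (dlOf (nat_lit 1) (nat_lit 0x400400020008002e02)))) 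
(.lf (nat_lit 1342192862) (dlOf (nat_lit 1) (nat_lit 0x80040002000800c482)))) (.nd (nat_lit 7) 
(.lf (nat_lit 1342191454) (dlOf (nat_lit 1) (nat_lit 0xd8008005c002001a000800a303))) 
(.lf (nat_lit 2952802270) (dlOf (nat_lit 1) (nat_lit 0x20018007a81))))))) (.nd (nat_lit 31) 
(.nd (nat_lit 6) (.nd (nat_lit 20) (.nd (nat_lit 9) 
(.lf (nat_lit 134750238) (dlOf (nat_lit 1) (nat_lit 0x13800080a0901))) 
(.lf (nat_lit 50864670) (dlOf (nat_lit 1) (nat_lit 0x3000800c4002000600094d8703)))) 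
(.nd (nat_lit 21) 
(.lf (nat_lit 9969694) (dlOf (nat_lit 3) (nat_lit 0x1aa4d000aa01008252b0005480800c80080050002006000085a0a83))) 
(.nd (nat_lit 23) (.lf (nat_lit 37232670) (dlOf (nat_lit 1) (nat_lit 0x8002000200090c0602))) 
(.lf (nat_lit 45621278) (dlOf (nat_lit 1) (nat_lit 0x50008002400200140009340103)))))) 
(.nd (nat_lit 9) (.nd (nat_lit 22) 
(.lf (nat_lit 42475614) (dlOf (nat_lit 2) (nat_lit 0x24924002450200020019251981))) 
(.lf (nat_lit 21504094) (dlOf (nat_lit 3) (nat_lit 0xf3740017916001d4170001a030035e5d80376e9001bb21e00398b60080c5a801ab75c01b999a000150e00060028a40701)))) 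
(.nd (nat_lit 20) (.lf (nat_lit 46672478) (dlOf (nat_lit 1) (nat_lit 0x20029385381))) 
(.lf (nat_lit 20458078) (dlOf (nat_lit 1) (nat_lit 0x600289d5381)))))) (.nd (nat_lit 27) 
(.nd (nat_lit 20) (.nd (nat_lit 28) 
(.lf (nat_lit 3221757982) (dlOf (nat_lit 4) (nat_lit 0xc040006aa01000302000354c08001010001a9804001000400100008170002))) 
(.lf (nat_lit 4027064350) (dlOf (nat_lit 2) (nat_lit 0x38018000c00000cd304000a00181d0a01)))) 
(.lf (nat_lit 3493339166) (dlOf (nat_lit 2) (nat_lit 0x2880c003da0400a000400040008120902)))) 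
(.nd (nat_lit 7) (.nd (nat_lit 28) 
(.lf (nat_lit 2819104798) (dlOf (nat_lit 16) (nat_lit 0x20c07e0005a02012603f0002c81002b01f80015c082fe81c8039807e0004e04004e07200d201f8001341001d01c8000980418280e4022003f00025820019039002100fc000920800300e4000480206d2072008801f8000dc1004181c80006a0417f80e4019a03f0001a02009c01f8000140803080fc000080400b407e000020201a200081a0581))) 
(.lf (nat_lit 3624411166) (dlOf (nat_lit 1) (nat_lit 0x100008190681)))) 
(.lf (nat_lit 3892846750) (dlOf (nat_lit 1) (nat_lit 0x10008002400200040008280483))))))) 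
(.nd (nat_lit 6) (.nd (nat_lit 19) (.nd (nat_lit 8) (.nd (nat_lit 23) (.nd (nat_lit 20) 
(.lf (nat_lit 21012510) (dlOf (nat_lit 1) (nat_lit 0x400200020008a00702))) 
(.lf (nat_lit 38838302) (dlOf (nat_lit 1) (nat_lit 0x1c00400020009170102)))) (.nd (nat_lit 22) 
(.lf (nat_lit 26255390) (dlOf (nat_lit 1) (nat_lit 0x20028c20501))) 
(.lf (nat_lit 13672478) (dlOf (nat_lit 2) (nat_lit 0x554d0c001a30200b60018740481))))) 
(.nd (nat_lit 7) (.nd (nat_lit 10) 
(.lf (nat_lit 3493896478) (dlOf (nat_lit 1) (nat_lit 0x280080004002000200081b0483))) 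
(.lf (nat_lit 4966098206) (dlOf (nat_lit 1) (nat_lit 0xc0018003101)))) (.nd (nat_lit 10) 
(.lf (nat_lit 1342220702) (dlOf (nat_lit 1) (nat_lit 0x60028004e81))) 
(.lf (nat_lit 3489709470) (dlOf (nat_lit 2) (nat_lit 0x1587c8000f204001c0020006000800ca82)))))) 
(.nd (nat_lit 22) (.nd (nat_lit 20) (.nd (nat_lit 7) 
(.lf (nat_lit 2819137566) (dlOf (nat_lit 16) (nat_lit 0x3dc0d401e20690002d020103035007c81a4000b20803c00d40005702026e06a000270100640350001340805801a80009804055c0d40004b02019206a0002481002a0350001200800180d80007e0403380d40003502027a06a0001a010113035008801a40000a0803340d40188069000020200ed035007401a40000408006c002001200081a0582))) 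
(.lf (nat_lit 59286686) (dlOf (nat_lit 1) (nat_lit 0x4004000200197e2b82)))) (.nd (nat_lit 21) 
(.lf (nat_lit 10002462) (dlOf (nat_lit 7) (nat_lit 0x1a34a004e3a45026fd21814269040a2747e0103a3b0115d1c8133e770004242008ef48a0475a43024cd20812868fc00db476015ba390066cf08117e770004222008d348a0463a430246d20812568fc00974760153a390229cee000840381306914098348604e1a410274d1f803568ec033747200cf9e10253cee00083c400030000002d204076b418029da0a019b000000548180910008060c00206a600085a0a83))) 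
(.lf (nat_lit 3493371934) (dlOf (nat_lit 4) (nat_lit 0x1f017800f80b8001ed04004005e002202e00038074003d60c00800bc001d20200500028120901))))) 
(.nd (nat_lit 21) (.nd (nat_lit 24) 
(.lf (nat_lit 4759582) (dlOf (nat_lit 1) (nat_lit 0x200282b0101))) 
(.lf (nat_lit 21536798) (dlOf (nat_lit 2) (nat_lit 0x1d0000000ec0800880080028002000e0008a40103)))) 
(.lf (nat_lit 15245342) (dlOf (nat_lit 1) (nat_lit 0x400287c0581)))))) (.nd (nat_lit 19) 
(.nd (nat_lit 7) (.nd (nat_lit 8) (.nd (nat_lit 27) 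
(.lf (nat_lit 3758139998) (dlOf (nat_lit 1) (nat_lit 0x20028085381))) 
(.lf (nat_lit 402696798) (dlOf (nat_lit 1) (nat_lit 0x400008005381)))) 
(.lf (nat_lit 3187038) (dlOf (nat_lit 2) (nat_lit 0x2651100007018200680)))) (.nd (nat_lit 8) 
(.nd (nat_lit 9) 
(.lf (nat_lit 4026575070) (dlOf (nat_lit 2) (nat_lit 0x7003000030080118008000c002000e0008004a83))) 
(.lf (nat_lit 45790) (dlOf (nat_lit 1) (nat_lit 0x8008000400200020008008c83)))) (.nd (nat_lit 9) 
(.lf (nat_lit 1879094750) (dlOf (nat_lit 1) (nat_lit 0x400400540008009b02))) 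
(.lf (nat_lit 50373598) (dlOf (nat_lit 1) (nat_lit 0x1c004000a00094c2882)))))) (.nd (nat_lit 23) 
(.nd (nat_lit 7) (.nd (nat_lit 22) 
(.lf (nat_lit 3892879454) (dlOf (nat_lit 3) (nat_lit 0xe0190027481000900b00010050009320800a0004008c0018280482))) 
(.lf (nat_lit 21536862) (dlOf (nat_lit 9) (nat_lit 0x1f6a80043b500017da6000eed20007f6800057ab0002dd440003ea1800af4fc00579bc001bcdd0015e6e000af36c00439b00027cd70015e678003722c00637440009b9a00154f28000d0a000576a8001fb50002dda60011ed20000cc2000ff6a80043b50006bda60008eac0015f50c00cf9bc004fcdd0027e6e000af36c009f9b0004fcd70027e448013ee880006434001bb4c000bd4300018820003ed5000176a00003e08000fb540023da60011ed200017680003fa860005d3f0000f060005ed50004f6a00007b480001d06000dda60005ea1800070100250008007000200740008a40703)))) 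
(.lf (nat_lit 1611178206) (dlOf (nat_lit 2) (nat_lit 0xc0aa00c0e0200020028106481)))) 
(.nd (nat_lit 8) (.lf (nat_lit 46705246) (dlOf (nat_lit 1) (nat_lit 0x20009385381))) 
(.nd (nat_lit 11) 
(.lf (nat_lit 12099934) (dlOf (nat_lit 3) (nat_lit 0x2a5c00015008005d2bc0005a040004004000200086c0682))) 
(.lf (nat_lit 62433630) (dlOf (nat_lit 1) (nat_lit 0x4004000200099a4e82))))))))) (.nd (nat_lit 6) 
(.nd (nat_lit 29) (.nd (nat_lit 19) (.nd (nat_lit 8) (.nd (nat_lit 11) (.nd (nat_lit 7) 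
(.nd (nat_lit 15) 
(.lf (nat_lit 473964574) (dlOf (nat_lit 2) (nat_lit 0x859c000c2cc000000400020028fe0101))) 
(.lf (nat_lit 470851614) (dlOf (nat_lit 2) (nat_lit 0x120120001480800600080044002001600081c0583)))) 
(.lf (nat_lit 3422560926) (dlOf (nat_lit 1) (nat_lit 0x20028001c01)))) (.nd (nat_lit 27) 
(.lf (nat_lit 4362090526) (dlOf (nat_lit 1) (nat_lit 0x80040016000800a602))) 
(.lf (nat_lit 469776414) (dlOf (nat_lit 1) (nat_lit 0x2002800a601))))) (.nd (nat_lit 9) 
(.nd (nat_lit 10) 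
(.lf (nat_lit 1543545118) (dlOf (nat_lit 2) (nat_lit 0x100000007302000200180b0481))) 
(.lf (nat_lit 335586590) (dlOf (nat_lit 1) (nat_lit 0xc20008003101)))) (.nd (nat_lit 7) 
(.lf (nat_lit 469777182) (dlOf (nat_lit 1) (nat_lit 0x3800800180020004000800bb83))) 
(.lf (nat_lit 3690999710) (dlOf (nat_lit 1) (nat_lit 0xe0028007881)))))) (.nd (nat_lit 27) 
(.nd (nat_lit 9) (.nd (nat_lit 15) 
(.lf (nat_lit 3288866846) (dlOf (nat_lit 2) (nat_lit 0x38018000c0000075804000a00181d0a01))) 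
(.lf (nat_lit 3557335070) (dlOf (nat_lit 16) (nat_lit 0x1e606100a603000016810080018402940c0000590401e60610002b8101670308001380803b81840009a0404300c20004c0202f0061000258100dd0308001240800c81840009004009c0c2000370201200610001a81013c0308000d008088018402980c000005040196061007c030000010100760184027c0c00000204008000181c0581)))) 
(.lf (nat_lit 1409819166) (dlOf (nat_lit 1) (nat_lit 0x300080274002023a0008090d83)))) 
(.nd (nat_lit 22) (.nd (nat_lit 9) 
(.lf (nat_lit 201859102) (dlOf (nat_lit 1) (nat_lit 0x13800080a0901))) 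
(.lf (nat_lit 470295070) (dlOf (nat_lit 7) (nat_lit 0x770aa00040544004760800144780023902017015400020a88008b81001688f00041a04003448e00e023c001040200460aa0000000801380080048002004400080c0d83)))) 
(.nd (nat_lit 15) (.lf (nat_lit 474488862) (dlOf (nat_lit 2) (nat_lit 0x160750001d819180100))) 
(.lf (nat_lit 474521630) (dlOf (nat_lit 2) (nat_lit 0x804e00040258000411a001008c0005042800601f400200ea001002b000800a8000ec4800400080004002000a00091a0103))))))) 
(.nd (nat_lit 10) (.nd (nat_lit 8) (.nd (nat_lit 20) (.nd (nat_lit 28) 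
(.lf (nat_lit 2886213662) (dlOf (nat_lit 1) (nat_lit 0x100008190681))) 
(.lf (nat_lit 3154649118) (dlOf (nat_lit 1) (nat_lit 0x340008300681)))) (.nd (nat_lit 15) 
(.lf (nat_lit 2755141662) (dlOf (nat_lit 2) (nat_lit 0x28860003fe0400a000400040008120902))) 
(.lf (nat_lit 2755174430) (dlOf (nat_lit 4) (nat_lit 0x1f017800f80b8001ff04004005e002202e00038074003fa0c00800bc001e70200500028120901))))) 
(.nd (nat_lit 7) (.lf (nat_lit 5033208606) (dlOf (nat_lit 1) (nat_lit 0x100018005c01))) 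
(.nd (nat_lit 9) (.lf (nat_lit 2754619806) (dlOf (nat_lit 1) (nat_lit 0x4002000200080f4e82))) 
(.lf (nat_lit 4227873694) (dlOf (nat_lit 1) (nat_lit 0xc0040002001800bc82)))))) (.nd (nat_lit 15) 
(.nd (nat_lit 12) (.nd (nat_lit 11) 
(.lf (nat_lit 6106916126) (dlOf (nat_lit 1) (nat_lit 0x20028003101))) 
(.lf (nat_lit 4227869982) (dlOf (nat_lit 2) (nat_lit 0x8064000802c00012028006780)))) 
(.nd (nat_lit 8) 
(.lf (nat_lit 603995678) (dlOf (nat_lit 2) (nat_lit 0x38000000ba0400100020016000800cf02))) 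
(.lf (nat_lit 603995422) (dlOf (nat_lit 3) (nat_lit 0x3010c00040740002035000401a000080480004010004c50c0002034000500900129810008800800200020108000800c603))))) 
(.nd (nat_lit 7) (.nd (nat_lit 8) 
(.lf (nat_lit 4094733342) (dlOf (nat_lit 1) (nat_lit 0x400200020008056002))) 
(.lf (nat_lit 4227902750) (dlOf (nat_lit 1) (nat_lit 0x80080004002000c0008006783)))) 
(.lf (nat_lit 1009296798) (dlOf (nat_lit 1) (nat_lit 0x200290e3601))))))) (.nd (nat_lit 10) 
(.nd (nat_lit 11) (.nd (nat_lit 28) (.nd (nat_lit 7) 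
(.lf (nat_lit 738762846) (dlOf (nat_lit 1) (nat_lit 0x7000200200008101c02))) (.nd (nat_lit 8) 
(.lf (nat_lit 603992286) (dlOf (nat_lit 1) (nat_lit 0x400200020008008082))) 
(.lf (nat_lit 5435859934) (dlOf (nat_lit 1) (nat_lit 0x20028002881))))) (.nd (nat_lit 12) 
(.nd (nat_lit 19) 
(.lf (nat_lit 471867614) (dlOf (nat_lit 5) (nat_lit 0x1039c000530200081ce000280100050e20000d408001871000064040050004000200086b0582))) 
(.lf (nat_lit 471343326) (dlOf (nat_lit 2) (nat_lit 0x859400042040008002000600082e0582)))) 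
(.lf (nat_lit 469774558) (dlOf (nat_lit 1) (nat_lit 0xc00200020008008082))))) (.nd (nat_lit 7) 
(.nd (nat_lit 8) (.nd (nat_lit 9) 
(.lf (nat_lit 1543518302) (dlOf (nat_lit 1) (nat_lit 0x1800800080020006000800a803))) 
(.lf (nat_lit 5033175646) (dlOf (nat_lit 1) (nat_lit 0x400400020008005382)))) 
(.lf (nat_lit 2754619742) (dlOf (nat_lit 1) (nat_lit 0xa00280f4e81)))) (.nd (nat_lit 27) 
(.lf (nat_lit 4362090974) (dlOf (nat_lit 2) (nat_lit 0x1006600bf7020004001800b281))) 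
(.lf (nat_lit 469776862) (dlOf (nat_lit 1) (nat_lit 0xe800800340020014000800b283)))))) 
(.nd (nat_lit 27) (.nd (nat_lit 8) (.nd (nat_lit 7) 
(.lf (nat_lit 2214606430) (dlOf (nat_lit 1) (nat_lit 0x180028009c01))) (.nd (nat_lit 30) 
(.lf (nat_lit 335586526) (dlOf (nat_lit 2) (nat_lit 0x80180001a818002e00))) 
(.lf (nat_lit 3556811998) (dlOf (nat_lit 1) (nat_lit 0x3800200060008002e02))))) (.nd (nat_lit 7) 
(.lf (nat_lit 2754624862) (dlOf (nat_lit 1) (nat_lit 0x4004000200080fc902))) (.nd (nat_lit 20) 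
(.lf (nat_lit 2483039710) (dlOf (nat_lit 1) (nat_lit 0x3a0008006e01))) 
(.lf (nat_lit 2754620894) (dlOf (nat_lit 1) (nat_lit 0x80080004002000200080f6e03)))))) 
(.nd (nat_lit 29) (.nd (nat_lit 7) 
(.lf (nat_lit 472917086) (dlOf (nat_lit 1) (nat_lit 0x400400020008b52902))) (.nd (nat_lit 12) 
(.lf (nat_lit 469771998) (dlOf (nat_lit 1) (nat_lit 0x4800200160008003a82))) 
(.lf (nat_lit 3691034334) (dlOf (nat_lit 1) (nat_lit 0x2002800a001))))) (.nd (nat_lit 11) 
(.nd (nat_lit 15) (.lf (nat_lit 6106916062) (dlOf (nat_lit 1) (nat_lit 0x20028002e01))) 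
(.lf (nat_lit 6375908574) (dlOf (nat_lit 1) (nat_lit 0x40018002e01)))) 
(.lf (nat_lit 4227874014) (dlOf (nat_lit 1) (nat_lit 0x1800800040020002000800c483))))))))) 
(.nd (nat_lit 15) (.nd (nat_lit 28) (.nd (nat_lit 6) (.nd (nat_lit 7) (.nd (nat_lit 19) 
(.nd (nat_lit 26) (.nd (nat_lit 23) 
(.lf (nat_lit 537141278) (dlOf (nat_lit 6) (nat_lit 0x13005f000ac01009d02f80055c08001017c002ac0400040b20014702000605f000b02c8005001004200080208002004c0008030903))) 
(.lf (nat_lit 25436190) (dlOf (nat_lit 2) (nat_lit 0x120b0100525040006cc10007000800a800200040008c00483)))) 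
(.nd (nat_lit 27) 
(.lf (nat_lit 4362346526) (dlOf (nat_lit 10) (nat_lit 0x1c0640004002000e0320001a81000d029000b81180005008004008c000200200a605200ac023002a00cc0003e0c01740a4012804600550198000781801300cc0003a04016c0a400c20460000b0200610230000500802980080318002004e0008030b83))) 
(.lf (nat_lit 1812209694) (dlOf (nat_lit 2) (nat_lit 0x200e0028d00801b8008010800200080008180483))))) 
(.nd (nat_lit 11) (.nd (nat_lit 8) 
(.lf (nat_lit 42737694) (dlOf (nat_lit 1) (nat_lit 0x38004000a0009280102))) 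
(.lf (nat_lit 67908894) (dlOf (nat_lit 1) (nat_lit 0x160018339701)))) (.nd (nat_lit 20) 
(.lf (nat_lit 19676446) (dlOf (nat_lit 1) (nat_lit 0x4002000200089dc602))) 
(.lf (nat_lit 8142110) (dlOf (nat_lit 2) (nat_lit 0x57ef0025301851c600)))))) (.nd (nat_lit 9) 
(.nd (nat_lit 10) (.lf (nat_lit 5436088478) (dlOf (nat_lit 1) (nat_lit 0xc004000600080c1302))) 
(.nd (nat_lit 11) (.lf (nat_lit 42214558) (dlOf (nat_lit 2) (nat_lit 0x1a00000044019242b80))) 
(.lf (nat_lit 20196510) (dlOf (nat_lit 1) (nat_lit 0x4004000200189d6282))))) (.nd (nat_lit 11) 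
(.lf (nat_lit 8135326) (dlOf (nat_lit 1) (nat_lit 0x400200020008511c02))) 
(.lf (nat_lit 35924638) (dlOf (nat_lit 1) (nat_lit 0xc00200020009015582)))))) (.nd (nat_lit 7) 
(.nd (nat_lit 19) (.nd (nat_lit 9) 
(.lf (nat_lit 2349080670) (dlOf (nat_lit 1) (nat_lit 0x8002000600080a1282))) (.nd (nat_lit 26) 
(.lf (nat_lit 1745103454) (dlOf (nat_lit 1) (nat_lit 0x5c00400280008095382))) 
(.lf (nat_lit 6107179614) (dlOf (nat_lit 1) (nat_lit 0x20008095381))))) (.nd (nat_lit 8) 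
(.nd (nat_lit 10) (.lf (nat_lit 59514974) (dlOf (nat_lit 1) (nat_lit 0xcc00400760009800882))) 
(.lf (nat_lit 58467422) (dlOf (nat_lit 1) (nat_lit 0x200297e2901)))) 
(.lf (nat_lit 50079070) (dlOf (nat_lit 17) (nat_lit 0x55e56900342a280c515100cd4a7c006453d021d245007c11fc10408e8008045d00201ef0000d05000815645020a8c065054506f92a2008d8f8800066140660a8c0003202221c546001c2a2008b0f88000620c2684a8c0003002050e546000170100522a8002d953c1730a8c0002c0605d2546000098103bc2a801f6953c00020080078a9e0000f02003c55002712a78000381000e153c0001a0403f0a8c034c544000060200a62a3000294d4000060800d4a8c000020218f4546010f2a20000001007800080118002000200094c3403))))) 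
(.nd (nat_lit 10) (.nd (nat_lit 8) (.nd (nat_lit 9) 
(.lf (nat_lit 29630686) (dlOf (nat_lit 5) (nat_lit 0x114f40005302000ce2e000b59380012a20001d4f4000ea680001a85000271a8002acb800194fa000ca34000151980008428005a9b00003a040040004002c0018e30582))) 
(.lf (nat_lit 8139486) (dlOf (nat_lit 1) (nat_lit 0x8008000c00200020008518c83)))) 
(.lf (nat_lit 34350046) (dlOf (nat_lit 1) (nat_lit 0x20008fb2881)))) (.nd (nat_lit 8) 
(.nd (nat_lit 9) (.lf (nat_lit 61613278) (dlOf (nat_lit 1) (nat_lit 0x200080020002000e0009922e03))) 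
(.lf (nat_lit 202125022) (dlOf (nat_lit 1) (nat_lit 0x200280f7381)))) 
(.lf (nat_lit 8138718) (dlOf (nat_lit 1) (nat_lit 0x20008517a81))))))) (.nd (nat_lit 30) 
(.nd (nat_lit 7) (.nd (nat_lit 6) (.nd (nat_lit 26) (.nd (nat_lit 27) 
(.lf (nat_lit 805576734) (dlOf (nat_lit 1) (nat_lit 0x8008000c00200020008130483))) 
(.lf (nat_lit 939794462) (dlOf (nat_lit 2) (nat_lit 0x401c0024f018180480)))) (.nd (nat_lit 29) 
(.nd (nat_lit 20) (.lf (nat_lit 472129566) (dlOf (nat_lit 1) (nat_lit 0x260018850601))) 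
(.lf (nat_lit 471080990) (dlOf (nat_lit 1) (nat_lit 0x40008270501)))) (.nd (nat_lit 8) 
(.lf (nat_lit 1007427614) (dlOf (nat_lit 1) (nat_lit 0x800800a8002000c0008350683))) 
(.lf (nat_lit 872686878) (dlOf (nat_lit 1) (nat_lit 0x1000400060008093102)))))) (.nd (nat_lit 8) 
(.lf (nat_lit 1006903390) (dlOf (nat_lit 1) (nat_lit 0x2600180d1281))) 
(.lf (nat_lit 3154387294) (dlOf (nat_lit 2) (nat_lit 0x1201800000018160900))))) (.nd (nat_lit 6) 
(.nd (nat_lit 26) (.nd (nat_lit 27) 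
(.lf (nat_lit 4563673246) (dlOf (nat_lit 1) (nat_lit 0x4004000200180c1302))) 
(.lf (nat_lit 4697890974) (dlOf (nat_lit 1) (nat_lit 0x4004000200180c1302)))) 
(.lf (nat_lit 5301870750) (dlOf (nat_lit 1) (nat_lit 0xc004000600080c1302)))) (.nd (nat_lit 26) 
(.lf (nat_lit 6711157982) (dlOf (nat_lit 1) (nat_lit 0x20028092e01))) 
(.lf (nat_lit 872686814) (dlOf (nat_lit 1) (nat_lit 0x1800400080008092e02)))))) (.nd (nat_lit 27) 
(.nd (nat_lit 6) (.nd (nat_lit 7) (.nd (nat_lit 19) 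
(.lf (nat_lit 1409556510) (dlOf (nat_lit 6) (nat_lit 0x13005f000ae81009d02f80057008001017c002b60400040b20014702000605f000b02c8005001004200080208002004c0008030903))) 
(.lf (nat_lit 4096532510) (dlOf (nat_lit 1) (nat_lit 0xa800200620008120102)))) (.nd (nat_lit 8) 
(.lf (nat_lit 5704524958) (dlOf (nat_lit 1) (nat_lit 0x200080d2b81))) 
(.lf (nat_lit 3489933726) (dlOf (nat_lit 1) (nat_lit 0x20008004e81))))) (.nd (nat_lit 8) 
(.nd (nat_lit 9) 
(.lf (nat_lit 4096532574) (dlOf (nat_lit 3) (nat_lit 0x5b01040002a040210082000120200460028120701))) 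
(.lf (nat_lit 1880894046) (dlOf (nat_lit 1) (nat_lit 0x400400020008c95382)))) 
(.lf (nat_lit 3489933662) (dlOf (nat_lit 2) (nat_lit 0x408b00978018004e80))))) (.nd (nat_lit 20) 
(.nd (nat_lit 7) (.nd (nat_lit 29) 
(.lf (nat_lit 1543774238) (dlOf (nat_lit 3) (nat_lit 0x440440066a0200180220032d818160480))) 
(.lf (nat_lit 4228128798) (dlOf (nat_lit 10) (nat_lit 0x1c0620004002000e0310001a81000d025800b80fc0005008004007e000200200a604b00ac01f802a00c80003e0c0174096012803f00550190000781801300c80003a04016c09600c203f0000b02006101f8000500802980080318002004e0008030b83)))) 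
(.lf (nat_lit 6375613854) (dlOf (nat_lit 1) (nat_lit 0xc00200060008003602)))) (.nd (nat_lit 19) 
(.lf (nat_lit 5772681246) (dlOf (nat_lit 1) (nat_lit 0x8008000400200020008090003))) 
(.nd (nat_lit 26) 
(.lf (nat_lit 5773205534) (dlOf (nat_lit 4) (nat_lit 0x780978001180803484bc0008a04016c25e0003802001e00080b0181))) 
(.lf (nat_lit 6377185310) (dlOf (nat_lit 4) (nat_lit 0x780900001180803484800008a04016c2400003802001e00080b0181))))))))) 
(.nd (nat_lit 28) (.nd (nat_lit 6) (.nd (nat_lit 26) (.nd (nat_lit 25) (.nd (nat_lit 20) 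
(.nd (nat_lit 8) (.lf (nat_lit 1208262686) (dlOf (nat_lit 1) (nat_lit 0x600180b0181))) 
(.lf (nat_lit 1610917150) (dlOf (nat_lit 1) (nat_lit 0x20028093101)))) (.nd (nat_lit 19) 
(.lf (nat_lit 9740318) (dlOf (nat_lit 1) (nat_lit 0xa0028580101))) 
(.lf (nat_lit 8167454) (dlOf (nat_lit 1) (nat_lit 0x800802d000200c00008510003))))) (.nd (nat_lit 7) 
(.nd (nat_lit 19) (.lf (nat_lit 47489054) (dlOf (nat_lit 1) (nat_lit 0x1400400020009400002))) 
(.lf (nat_lit 42770462) (dlOf (nat_lit 1) (nat_lit 0x104002002e0009280102)))) (.nd (nat_lit 19) 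
(.lf (nat_lit 35957406) (dlOf (nat_lit 1) (nat_lit 0x60019015581))) 
(.lf (nat_lit 36481694) (dlOf (nat_lit 1) (nat_lit 0x20019075581)))))) (.nd (nat_lit 7) 
(.nd (nat_lit 31) (.nd (nat_lit 9) 
(.lf (nat_lit 1678024734) (dlOf (nat_lit 4) (nat_lit 0x409e0005102000404f0001a810002026000080d40003e0800d400400620008140b82))) 
(.lf (nat_lit 5436123678) (dlOf (nat_lit 1) (nat_lit 0x3200280e5101)))) (.nd (nat_lit 19) 
(.lf (nat_lit 3825508382) (dlOf (nat_lit 3) (nat_lit 0x1400b001200480118000002ba0c000401600060090019000000570180108008012400200180008170903))) 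
(.lf (nat_lit 2754387998) (dlOf (nat_lit 3) (nat_lit 0x5a821102910fc812b05a404382a600141360011305008310880088c0804200080084002012000080e0483))))) 
(.nd (nat_lit 27) 
(.lf (nat_lit 6509863326) (dlOf (nat_lit 1) (nat_lit 0x18008000400200060008156b83))) 
(.lf (nat_lit 3959726494) (dlOf (nat_lit 2) (nat_lit 0x7f009c0148604002000400020008126b82)))))) 
(.nd (nat_lit 7) (.nd (nat_lit 11) (.nd (nat_lit 8) (.nd (nat_lit 20) 
(.lf (nat_lit 3758399582) (dlOf (nat_lit 4) (nat_lit 0x180ac0378404002406001bbb02000602b00ddc818170880))) 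
(.lf (nat_lit 9740382) (dlOf (nat_lit 2) (nat_lit 0x1cd14800e67700006408002400400060018580702)))) 
(.lf (nat_lit 8171870) (dlOf (nat_lit 1) (nat_lit 0x60028518381)))) (.nd (nat_lit 9) 
(.lf (nat_lit 8169566) (dlOf (nat_lit 1) (nat_lit 0x400400020018514702))) (.nd (nat_lit 19) 
(.lf (nat_lit 60074590) (dlOf (nat_lit 1) (nat_lit 0x1800200040009845382))) 
(.lf (nat_lit 46967390) (dlOf (nat_lit 1) (nat_lit 0x220009385381)))))) (.nd (nat_lit 8) 
(.nd (nat_lit 9) (.nd (nat_lit 10) 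
(.lf (nat_lit 2885986526) (dlOf (nat_lit 2) (nat_lit 0xd00260000d0200600018144a81))) 
(.lf (nat_lit 8172766) (dlOf (nat_lit 1) (nat_lit 0x40028519501)))) 
(.lf (nat_lit 537702110) (dlOf (nat_lit 1) (nat_lit 0x700080054002004200080f7383)))) 
(.nd (nat_lit 10) (.nd (nat_lit 26) 
(.lf (nat_lit 5905883614) (dlOf (nat_lit 1) (nat_lit 0x18008000400200060008157d03))) 
(.lf (nat_lit 3959726558) (dlOf (nat_lit 2) (nat_lit 0x60000051a818127d00)))) 
(.lf (nat_lit 8168926) (dlOf (nat_lit 1) (nat_lit 0x400200020008513602))))))) (.nd (nat_lit 26) 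
(.nd (nat_lit 19) (.nd (nat_lit 27) (.nd (nat_lit 7) (.nd (nat_lit 20) 
(.lf (nat_lit 805609502) (dlOf (nat_lit 4) (nat_lit 0x409e0005102000404f0001a810002026000080d40003e0800d400400620008140b82))) 
(.lf (nat_lit 1343528990) (dlOf (nat_lit 1) (nat_lit 0x20008003800200200008290503)))) 
(.lf (nat_lit 4563706014) (dlOf (nat_lit 2) (nat_lit 0xa0170000ac0801580080054002002600080c1303)))) 
(.nd (nat_lit 7) (.nd (nat_lit 29) 
(.lf (nat_lit 1476698142) (dlOf (nat_lit 2) (nat_lit 0xb01f801394080250008008800200240008140483))) 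
(.lf (nat_lit 3087310878) (dlOf (nat_lit 3) (nat_lit 0x1400b001200480118000002b00c00040160006009001900000055c180108008012400200180008170903)))) 
(.lf (nat_lit 4697923742) (dlOf (nat_lit 2) (nat_lit 0xa0170000540801580080054002002600080c1303))))) 
(.nd (nat_lit 31) (.nd (nat_lit 6) 
(.lf (nat_lit 1346150430) (dlOf (nat_lit 8) (nat_lit 0xac0e6000310200480730001801002b0398000bc0801781d400ac0e60002e040036075000168100940a1804f833403680ea01b00730000b84002f03a8000540801a800800f000200440008e60103))) 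
(.lf (nat_lit 1346150494) (dlOf (nat_lit 3) (nat_lit 0x900d7000040100890a60025835c000000800b800200700008e60882)))) 
(.nd (nat_lit 7) 
(.lf (nat_lit 3492585502) (dlOf (nat_lit 3) (nat_lit 0x5a81fc02910f3812b059404382ba0014136001130500830fe00087c0804200080084002012000080e0483))) 
(.lf (nat_lit 3491537054) (dlOf (nat_lit 2) (nat_lit 0x182b80012f0200020018090201)))))) 
(.nd (nat_lit 6) (.nd (nat_lit 29) (.nd (nat_lit 8) 
(.lf (nat_lit 471113758) (dlOf (nat_lit 1) (nat_lit 0x80008270501))) 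
(.lf (nat_lit 1543807262) (dlOf (nat_lit 2) (nat_lit 0x200260052b818187800)))) (.nd (nat_lit 27) 
(.lf (nat_lit 5167685662) (dlOf (nat_lit 1) (nat_lit 0x20018100101))) 
(.lf (nat_lit 2080677918) (dlOf (nat_lit 1) (nat_lit 0x600180b0181))))) (.nd (nat_lit 27) 
(.nd (nat_lit 29) (.lf (nat_lit 4630814814) (dlOf (nat_lit 1) (nat_lit 0xe00180d0701))) 
(.lf (nat_lit 5167685726) (dlOf (nat_lit 2) (nat_lit 0xd00a0000640800200080018002000c0008100703)))) 
(.nd (nat_lit 7) (.nd (nat_lit 19) 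
(.lf (nat_lit 4765032542) (dlOf (nat_lit 1) (nat_lit 0xe00180d0701))) 
(.lf (nat_lit 471638110) (dlOf (nat_lit 4) (nat_lit 0xe161000804e8004cc1000402f40018048000e904000e161000804e80038238001d00c0050002000c0008370482)))) 
(.lf (nat_lit 6375646430) (dlOf (nat_lit 1) (nat_lit 0x20028002e01)))))))))) (.nd (nat_lit 15) 
(.nd (nat_lit 26) (.nd (nat_lit 18) (.nd (nat_lit 30) (.nd (nat_lit 6) (.nd (nat_lit 20) 
(.nd (nat_lit 7) (.nd (nat_lit 8) 
(.lf (nat_lit 52568094) (dlOf (nat_lit 1) (nat_lit 0x400400020009550102))) 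
(.lf (nat_lit 50995486) (dlOf (nat_lit 1) (nat_lit 0x200094e8001)))) (.nd (nat_lit 21) 
(.lf (nat_lit 8529054) (dlOf (nat_lit 1) (nat_lit 0xc00400020008512b82))) 
(.lf (nat_lit 48374942) (dlOf (nat_lit 2) (nat_lit 0x109d040010e04000400400040019402b82))))) 
(.nd (nat_lit 8) (.nd (nat_lit 9) 
(.lf (nat_lit 3809310) (dlOf (nat_lit 1) (nat_lit 0x120018230601))) 
(.lf (nat_lit 11674142) (dlOf (nat_lit 2) (nat_lit 0x17c62000b60186c0d80)))) 
(.lf (nat_lit 41034014) (dlOf (nat_lit 1) (nat_lit 0xb8004001c0019218002))))) (.nd (nat_lit 8) 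
(.nd (nat_lit 7) (.nd (nat_lit 19) 
(.lf (nat_lit 4966195294) (dlOf (nat_lit 2) (nat_lit 0x28054001002800040120001a038040700))) 
(.lf (nat_lit 537534558) (dlOf (nat_lit 1) (nat_lit 0x1a80080088002004000080a1283)))) 
(.lf (nat_lit 30023902) (dlOf (nat_lit 1) (nat_lit 0x40028e30581)))) (.nd (nat_lit 7) 
(.nd (nat_lit 9) (.lf (nat_lit 12198238) (dlOf (nat_lit 1) (nat_lit 0x200286c0681))) 
(.lf (nat_lit 537012062) (dlOf (nat_lit 1) (nat_lit 0x8008000400200040008003f83)))) 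
(.lf (nat_lit 537011166) (dlOf (nat_lit 1) (nat_lit 0x58008000c00200120008002883)))))) 
(.nd (nat_lit 28) (.nd (nat_lit 8) (.nd (nat_lit 27) (.nd (nat_lit 6) 
(.lf (nat_lit 3221889054) (dlOf (nat_lit 4) (nat_lit 0x318045017802100c300cc0044c0c022808c001e0430010f8200ac0230001810c00418080024004000200181b0482))) 
(.lf (nat_lit 5368848478) (dlOf (nat_lit 3) (nat_lit 0x4026006e01000060040000d01800400140003c040080004000c0008040702)))) 
(.nd (nat_lit 9) 
(.lf (nat_lit 5503066206) (dlOf (nat_lit 3) (nat_lit 0x4026006e01000060040000d01800400140003c040080004000c0008040702))) 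
(.lf (nat_lit 1208101470) (dlOf (nat_lit 1) (nat_lit 0x20028095381))))) (.nd (nat_lit 7) 
(.lf (nat_lit 3221367134) (dlOf (nat_lit 9) (nat_lit 0x36007005d0c0801b003802e740400d801c0173902006c00e0018000005ce01001b8038005c0000173704006c00e00b9b010037007000b800002e6a0800d801c002200000b97828114e80))) 
(.nd (nat_lit 11) (.lf (nat_lit 1073881566) (dlOf (nat_lit 1) (nat_lit 0x40008017d01))) 
(.lf (nat_lit 3221367262) (dlOf (nat_lit 2) (nat_lit 0x600e00b97818114e80)))))) (.nd (nat_lit 6) 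
(.nd (nat_lit 8) (.nd (nat_lit 19) 
(.lf (nat_lit 3490848798) (dlOf (nat_lit 3) (nat_lit 0x19842600c821100381038034880c002ba100224426010e211008810180057018016000800e000200160008030903))) 
(.lf (nat_lit 3493470238) (dlOf (nat_lit 1) (nat_lit 0x48008000800200320008140b83)))) 
(.nd (nat_lit 22) (.lf (nat_lit 3624018206) (dlOf (nat_lit 1) (nat_lit 0xa00080b0481))) 
(.lf (nat_lit 3493994782) (dlOf (nat_lit 1) (nat_lit 0x8004000400081b0482))))) (.nd (nat_lit 7) 
(.lf (nat_lit 5637285470) (dlOf (nat_lit 1) (nat_lit 0x2400280d3901))) 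
(.lf (nat_lit 1881285854) (dlOf (nat_lit 1) (nat_lit 0x100028e82e01))))))) (.nd (nat_lit 28) 
(.nd (nat_lit 20) (.nd (nat_lit 22) (.nd (nat_lit 27) (.nd (nat_lit 29) 
(.lf (nat_lit 6442852382) (dlOf (nat_lit 1) (nat_lit 0x800080018002002600081e0603))) 
(.nd (nat_lit 31) 
(.lf (nat_lit 5905981470) (dlOf (nat_lit 2) (nat_lit 0x1c064001eb0200020008170901))) 
(.lf (nat_lit 3758497822) (dlOf (nat_lit 1) (nat_lit 0x98008001c00200140008220683))))) 
(.nd (nat_lit 19) 
(.lf (nat_lit 3355844638) (dlOf (nat_lit 1) (nat_lit 0x100008003000200680008120483))) 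
(.lf (nat_lit 2819498014) (dlOf (nat_lit 2) (nat_lit 0x4807000ba502002000282b0681))))) 
(.nd (nat_lit 21) (.nd (nat_lit 7) 
(.lf (nat_lit 12984350) (dlOf (nat_lit 1) (nat_lit 0x1c00086f0601))) 
(.lf (nat_lit 21373342) (dlOf (nat_lit 1) (nat_lit 0x20018a36b81)))) (.nd (nat_lit 6) 
(.lf (nat_lit 48635934) (dlOf (nat_lit 2) (nat_lit 0x2534ec00076040010002000a0009420102))) 
(.lf (nat_lit 57025630) (dlOf (nat_lit 2) (nat_lit 0x128f00021a04008000400960009792902)))))) 
(.nd (nat_lit 19) (.nd (nat_lit 6) (.nd (nat_lit 7) 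
(.lf (nat_lit 9838622) (dlOf (nat_lit 2) (nat_lit 0x327f005f073002e0376011219c003f0000000ec2800080080024002000c0008580103))) 
(.lf (nat_lit 51782814) (dlOf (nat_lit 1) (nat_lit 0x60009512b81)))) (.nd (nat_lit 24) 
(.lf (nat_lit 9838686) (dlOf (nat_lit 10) (nat_lit 0x22eb000d078802743ac008c1d4007d0e980190728008439000461c7001c0e18009861400602f0001e176000e0b9800485ac000683802e03ac01521d3000198200e70eb00008750017839400ac1c8005a0bc0000c8280040728000620401cc3a60002f0201b01d6009e0e980358728001038a00e61780000f8500d80eb0053074c017039400121c5004f0bc000585ac0003c1802803ac01561d300610e50000871401982f00001d0a00da1d300080e50000701002d800803b400200640008580703))) 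
(.lf (nat_lit 26615902) (dlOf (nat_lit 1) (nat_lit 0x140018c50881))))) (.nd (nat_lit 7) 
(.nd (nat_lit 21) 
(.lf (nat_lit 39723038) (dlOf (nat_lit 2) (nat_lit 0x215218010a8e4008d462000ca27000c4f68010a5c400076180008002000200091d0102))) 
(.lf (nat_lit 58597406) (dlOf (nat_lit 1) (nat_lit 0x200297e0001)))) 
(.lf (nat_lit 8270494) (dlOf (nat_lit 1) (nat_lit 0x8008000400200020008518c83)))))) 
(.nd (nat_lit 32) (.nd (nat_lit 8) (.nd (nat_lit 9) (.nd (nat_lit 22) 
(.lf (nat_lit 805707806) (dlOf (nat_lit 1) (nat_lit 0x4000400020008190582))) 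
(.lf (nat_lit 3494256670) (dlOf (nat_lit 1) (nat_lit 0x34004000200181e0602)))) 
(.lf (nat_lit 3490587166) (dlOf (nat_lit 1) (nat_lit 0x20028017f01)))) (.nd (nat_lit 6) 
(.lf (nat_lit 3490587038) (dlOf (nat_lit 1) (nat_lit 0xa78008002000201860008016b83))) 
(.nd (nat_lit 19) (.lf (nat_lit 1879449950) (dlOf (nat_lit 1) (nat_lit 0x1400400020018150902))) 
(.lf (nat_lit 3490586974) (dlOf (nat_lit 1) (nat_lit 0x10008003000200060008014e83)))))) 
(.nd (nat_lit 27) (.nd (nat_lit 6) (.nd (nat_lit 30) 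
(.lf (nat_lit 4563804190) (dlOf (nat_lit 1) (nat_lit 0x8002000c00080e0602))) 
(.lf (nat_lit 5637546014) (dlOf (nat_lit 3) (nat_lit 0x900980007a04001c03a006e01c005c00b000c00500238026002600100140000000ec3800500080188002000e0008100103)))) 
(.lf (nat_lit 5637546078) (dlOf (nat_lit 1) (nat_lit 0xb800800d000200600008100703)))) 
(.nd (nat_lit 7) (.lf (nat_lit 4698021918) (dlOf (nat_lit 1) (nat_lit 0x8002000c00080e0602))) 
(.lf (nat_lit 5773336734) (dlOf (nat_lit 1) (nat_lit 0xc00280c1301)))))))) (.nd (nat_lit 28) 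
(.nd (nat_lit 31) (.nd (nat_lit 18) (.nd (nat_lit 30) (.nd (nat_lit 6) 
(.lf (nat_lit 4362739742) (dlOf (nat_lit 4) (nat_lit 0x4a028000250100100278000d808003813c0002404015c004001a00080e0b02))) 
(.nd (nat_lit 27) (.lf (nat_lit 604119134) (dlOf (nat_lit 1) (nat_lit 0xa0028030881))) 
(.lf (nat_lit 5033304158) (dlOf (nat_lit 2) (nat_lit 0x28054001002800040120001a038040700))))) 
(.nd (nat_lit 7) (.nd (nat_lit 11) 
(.lf (nat_lit 5435957278) (dlOf (nat_lit 1) (nat_lit 0x20028060a81))) 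
(.lf (nat_lit 1677862942) (dlOf (nat_lit 1) (nat_lit 0x8800400140008114702)))) 
(.lf (nat_lit 1677863070) (dlOf (nat_lit 1) (nat_lit 0xa0008114801))))) (.nd (nat_lit 27) 
(.nd (nat_lit 8) (.lf (nat_lit 1678123038) (dlOf (nat_lit 1) (nat_lit 0x4000400020008190582))) 
(.lf (nat_lit 69607710) (dlOf (nat_lit 1) (nat_lit 0x1000400100008b68002)))) (.nd (nat_lit 6) 
(.nd (nat_lit 9) 
(.lf (nat_lit 4496695326) (dlOf (nat_lit 1) (nat_lit 0x24800800ec002007e0008120103))) 
(.lf (nat_lit 201728542) (dlOf (nat_lit 3) (nat_lit 0x8c082000040201c604100000818090d80)))) 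
(.lf (nat_lit 4496695390) (dlOf (nat_lit 8) (nat_lit 0x4b4068037c03300c80190130009c116c046055a01f02000000000543803c80d00100066003a0270113011802600000002814048806c07b0034046b01981f300c810c806000a402f00a40108000483802180d005580660001104018e034014e019800400c0000200c0098068011c0230000282007101180000c081420008057400202fa0008120703)))))) 
(.nd (nat_lit 27) (.nd (nat_lit 7) (.nd (nat_lit 18) (.nd (nat_lit 19) (.nd (nat_lit 20) 
(.lf (nat_lit 3288473630) (dlOf (nat_lit 1) (nat_lit 0x3800200220008020482))) 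
(.lf (nat_lit 2752651294) (dlOf (nat_lit 3) (nat_lit 0x19845000c8226003810e00348860002b0100224450010e226008810c00055c18016000800e000200160008030903)))) 
(.lf (nat_lit 2755272734) (dlOf (nat_lit 1) (nat_lit 0x48008000800200320008140b83)))) 
(.nd (nat_lit 22) 
(.lf (nat_lit 6509961246) (dlOf (nat_lit 2) (nat_lit 0x1c064001fd0200020008170901))) 
(.lf (nat_lit 2756059166) (dlOf (nat_lit 1) (nat_lit 0x34004000200181e0602))))) (.nd (nat_lit 6) 
(.nd (nat_lit 9) (.lf (nat_lit 3825347742) (dlOf (nat_lit 1) (nat_lit 0x400200020008146282))) 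
(.lf (nat_lit 6509702814) (dlOf (nat_lit 1) (nat_lit 0x20008147201)))) 
(.lf (nat_lit 2751867102) (dlOf (nat_lit 2) (nat_lit 0x40a100006818004a80))))) (.nd (nat_lit 30) 
(.nd (nat_lit 29) (.lf (nat_lit 2348949534) (dlOf (nat_lit 1) (nat_lit 0x40018050681))) 
(.lf (nat_lit 2885820446) (dlOf (nat_lit 1) (nat_lit 0x1000280b0001)))) (.nd (nat_lit 6) 
(.nd (nat_lit 10) 
(.lf (nat_lit 3960086558) (dlOf (nat_lit 4) (nat_lit 0x318045017802100c300cc0044c0c022808c001e043001118200ac0230001810c0041c080024004000200181b0482))) 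
(.lf (nat_lit 3959563294) (dlOf (nat_lit 3) (nat_lit 0x19803802bc004005001c015de0200020018112881)))) 
(.lf (nat_lit 3959568862) (dlOf (nat_lit 2) (nat_lit 0x14038000600b0030381000e80080020002001e000811b283))))))) 
(.nd (nat_lit 6) (.nd (nat_lit 18) (.nd (nat_lit 7) (.nd (nat_lit 19) (.nd (nat_lit 27) 
(.lf (nat_lit 2483167262) (dlOf (nat_lit 1) (nat_lit 0x40018050681))) 
(.lf (nat_lit 5301739550) (dlOf (nat_lit 1) (nat_lit 0x20028060a81)))) (.nd (nat_lit 21) 
(.lf (nat_lit 4228522014) (dlOf (nat_lit 4) (nat_lit 0x4a02e000250100100240000d80800381200002404015c004001a00080e0b02))) 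
(.lf (nat_lit 472522782) (dlOf (nat_lit 2) (nat_lit 0x60bc000af8189b0600))))) (.nd (nat_lit 8) 
(.lf (nat_lit 474096798) (dlOf (nat_lit 4) (nat_lit 0xa167001400b000a8054001120c003c2ce001e016002d00a80022018007081000043420070167001a067000102c800dc02c0092015000f00000021c4000a0008013000200020009082b83))) 
(.nd (nat_lit 9) 
(.lf (nat_lit 1946296734) (dlOf (nat_lit 1) (nat_lit 0x8008008000200020008016b83))) 
(.lf (nat_lit 6241266590) (dlOf (nat_lit 1) (nat_lit 0x600180d5c81)))))) (.nd (nat_lit 19) 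
(.nd (nat_lit 8) (.nd (nat_lit 27) 
(.lf (nat_lit 6241525790) (dlOf (nat_lit 3) (nat_lit 0x9009c0007a04001c03a006e01c005c00a800c004c0238024002600100140000000ec3800500080188002000e0008100103))) 
(.lf (nat_lit 5838872606) (dlOf (nat_lit 1) (nat_lit 0x800080018002002600081e0603)))) 
(.lf (nat_lit 4228260126) (dlOf (nat_lit 1) (nat_lit 0x20028090481)))) (.nd (nat_lit 7) 
(.nd (nat_lit 27) 
(.lf (nat_lit 3557695518) (dlOf (nat_lit 2) (nat_lit 0x480740061002002000282b0681))) 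
(.lf (nat_lit 6376267806) (dlOf (nat_lit 1) (nat_lit 0x400400020008090002)))) 
(.lf (nat_lit 6377316510) (dlOf (nat_lit 1) (nat_lit 0xc00280c1301)))))) (.nd (nat_lit 27) 
(.nd (nat_lit 29) (.nd (nat_lit 8) (.nd (nat_lit 9) 
(.lf (nat_lit 1409949790) (dlOf (nat_lit 1) (nat_lit 0x20008002c002002400080a1303))) 
(.lf (nat_lit 335686238) (dlOf (nat_lit 1) (nat_lit 0x400400020008095382)))) 
(.lf (nat_lit 1409432926) (dlOf (nat_lit 1) (nat_lit 0x340020002000800c902)))) (.nd (nat_lit 7) 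
(.nd (nat_lit 18) 
(.lf (nat_lit 5167521886) (dlOf (nat_lit 2) (nat_lit 0x200c000064080008008000c00200020008080703))) 
(.lf (nat_lit 6241525854) (dlOf (nat_lit 1) (nat_lit 0xb800800d000200600008100703)))) 
(.lf (nat_lit 872555742) (dlOf (nat_lit 2) (nat_lit 0x5016800000080008008000800200020008092e03))))) 
(.nd (nat_lit 7) (.nd (nat_lit 9) 
(.lf (nat_lit 6377054302) (dlOf (nat_lit 1) (nat_lit 0x80080004002000200080a1983))) 
(.lf (nat_lit 2617385566) (dlOf (nat_lit 4) (nat_lit 0x1180c400180560002304000602b0001101001201880008408002000802bc002002600080a1703)))) 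
(.nd (nat_lit 8) (.lf (nat_lit 2080515294) (dlOf (nat_lit 1) (nat_lit 0xc0018092e01))) 
(.nd (nat_lit 10) (.lf (nat_lit 6376270302) (dlOf (nat_lit 1) (nat_lit 0x980018094e81))) 
(.lf (nat_lit 469906910) (dlOf (nat_lit 2) (nat_lit 0x40b2800070080010008006800200140008009b03)))))))))) 
(.nd (nat_lit 27) (.nd (nat_lit 18) (.nd (nat_lit 26) (.nd (nat_lit 10) (.nd (nat_lit 21) 
(.nd (nat_lit 6) (.nd (nat_lit 7) (.nd (nat_lit 19) 
(.lf (nat_lit 6711058462) (dlOf (nat_lit 1) (nat_lit 0x400400080018060a82))) 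
(.lf (nat_lit 21667870) (dlOf (nat_lit 5) (nat_lit 0x689820015f0200224c2000af0100012608005700800c930800270040044004000c0008a60a82)))) 
(.lf (nat_lit 5100445854) (dlOf (nat_lit 1) (nat_lit 0x60018081301)))) (.nd (nat_lit 8) 
(.lf (nat_lit 59416670) (dlOf (nat_lit 1) (nat_lit 0x4002000200097f1982))) 
(.lf (nat_lit 174430) (dlOf (nat_lit 1) (nat_lit 0x8008000400200020008004e83))))) (.nd (nat_lit 6) 
(.nd (nat_lit 19) (.lf (nat_lit 1344446494) (dlOf (nat_lit 1) (nat_lit 0x400400020008800002))) 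
(.nd (nat_lit 20) 
(.lf (nat_lit 1344970782) (dlOf (nat_lit 2) (nat_lit 0xe411a0003602000400189a0101))) 
(.lf (nat_lit 45785118) (dlOf (nat_lit 2) (nat_lit 0x82709000435a8000ec100008008002800200260009360103))))) 
(.nd (nat_lit 24) (.lf (nat_lit 1344446558) (dlOf (nat_lit 1) (nat_lit 0x1a0018800081))) 
(.lf (nat_lit 52600926) (dlOf (nat_lit 1) (nat_lit 0x10c00400540009550882)))))) (.nd (nat_lit 8) 
(.nd (nat_lit 9) (.nd (nat_lit 7) 
(.lf (nat_lit 59943966) (dlOf (nat_lit 1) (nat_lit 0x400400020009846002))) 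
(.lf (nat_lit 35824798) (dlOf (nat_lit 1) (nat_lit 0x40019012b81)))) (.nd (nat_lit 6) 
(.lf (nat_lit 805482014) (dlOf (nat_lit 1) (nat_lit 0x4002000e0008117102))) 
(.lf (nat_lit 5637318238) (dlOf (nat_lit 1) (nat_lit 0xe00280d3901))))) (.nd (nat_lit 6) 
(.nd (nat_lit 11) (.lf (nat_lit 43689246) (dlOf (nat_lit 1) (nat_lit 0x80080004002000200092a3103))) 
(.lf (nat_lit 3221400862) (dlOf (nat_lit 1) (nat_lit 0x8008001c00200020008116783)))) 
(.lf (nat_lit 173406) (dlOf (nat_lit 2) (nat_lit 0x264b700015018003400)))))) (.nd (nat_lit 30) 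
(.nd (nat_lit 6) (.nd (nat_lit 7) (.nd (nat_lit 11) 
(.lf (nat_lit 4630683678) (dlOf (nat_lit 2) (nat_lit 0x1d00a0005a40800c0008005c00200500008060a83))) 
(.lf (nat_lit 2751641630) (dlOf (nat_lit 1) (nat_lit 0x800800040020002000800a603)))) 
(.lf (nat_lit 872588446) (dlOf (nat_lit 1) (nat_lit 0x20028092b81)))) (.nd (nat_lit 8) 
(.nd (nat_lit 9) (.lf (nat_lit 872588510) (dlOf (nat_lit 1) (nat_lit 0x20028092e01))) 
(.lf (nat_lit 2754784990) (dlOf (nat_lit 1) (nat_lit 0x34002000600080f7382)))) (.nd (nat_lit 7) 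
(.lf (nat_lit 69903710) (dlOf (nat_lit 2) (nat_lit 0x141940000c0200060028e13401))) 
(.lf (nat_lit 2751642078) (dlOf (nat_lit 2) (nat_lit 0x31088030380801180080100002003e000800b283)))))) 
(.nd (nat_lit 7) (.nd (nat_lit 6) (.nd (nat_lit 8) 
(.lf (nat_lit 1141022750) (dlOf (nat_lit 1) (nat_lit 0x8008000c00200080008090003))) 
(.lf (nat_lit 1677895966) (dlOf (nat_lit 1) (nat_lit 0x8008005c00200060008114b83)))) 
(.lf (nat_lit 1677899870) (dlOf (nat_lit 1) (nat_lit 0x1a000802640020084000811a803)))) 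
(.nd (nat_lit 8) (.nd (nat_lit 6) 
(.lf (nat_lit 3825380510) (dlOf (nat_lit 1) (nat_lit 0x8008000400200020008146283))) 
(.lf (nat_lit 1677895902) (dlOf (nat_lit 3) (nat_lit 0x102a0000b008002015400044040034004000e0008114a82)))) 
(.nd (nat_lit 28) 
(.lf (nat_lit 1141025694) (dlOf (nat_lit 2) (nat_lit 0x3013000184080048008001000200080008095c83))) 
(.lf (nat_lit 6241299358) (dlOf (nat_lit 1) (nat_lit 0x28800180d5c81)))))))) (.nd (nat_lit 19) 
(.nd (nat_lit 20) (.nd (nat_lit 8) (.nd (nat_lit 29) (.nd (nat_lit 6) 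
(.lf (nat_lit 4563836958) (dlOf (nat_lit 3) (nat_lit 0x56012800594080050094002c8040124004007c00080f0a82))) 
(.lf (nat_lit 57058398) (dlOf (nat_lit 2) (nat_lit 0xd51e000434080018008001c00200300009792903)))) 
(.nd (nat_lit 9) (.lf (nat_lit 5906014238) (dlOf (nat_lit 1) (nat_lit 0x60008180481))) 
(.lf (nat_lit 537305630) (dlOf (nat_lit 1) (nat_lit 0x400400020008090d82))))) (.nd (nat_lit 7) 
(.lf (nat_lit 2751899934) (dlOf (nat_lit 1) (nat_lit 0x40018004b81))) (.nd (nat_lit 10) 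
(.lf (nat_lit 21406110) (dlOf (nat_lit 1) (nat_lit 0x20018a36b81))) 
(.lf (nat_lit 8824222) (dlOf (nat_lit 2) (nat_lit 0x196788002f40800280080008002000a0008513603)))))) 
(.nd (nat_lit 21) (.nd (nat_lit 6) 
(.lf (nat_lit 26648606) (dlOf (nat_lit 7) (nat_lit 0x48723a02558820113ad6808cd1a40028000000290a01d791d00f5c41006ed6b403968d2000270800095ad00010010003c8e801d56b40003408001b23a00495ad0000a020018ad680004c08002000800cc00200020008c50103))) 
(.lf (nat_lit 1343660126) (dlOf (nat_lit 4) (nat_lit 0xe161000804e8007101000402f800180540017804000e161000804e80038238002ee0c0050002000c00082e0482)))) 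
(.nd (nat_lit 22) (.lf (nat_lit 37134366) (dlOf (nat_lit 1) (nat_lit 0x8002000200090a0602))) 
(.lf (nat_lit 16162846) (dlOf (nat_lit 1) (nat_lit 0x160028870501)))))) (.nd (nat_lit 7) 
(.nd (nat_lit 6) (.nd (nat_lit 10) 
(.lf (nat_lit 2755567902) (dlOf (nat_lit 1) (nat_lit 0x4004000200181b0482))) 
(.lf (nat_lit 8303902) (dlOf (nat_lit 1) (nat_lit 0x400200020008519702)))) (.nd (nat_lit 8) 
(.lf (nat_lit 54438494) (dlOf (nat_lit 1) (nat_lit 0x20029655381))) (.nd (nat_lit 20) 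
(.lf (nat_lit 3490619742) (dlOf (nat_lit 1) (nat_lit 0x400200020008014e82))) 
(.lf (nat_lit 2007390) (dlOf (nat_lit 2) (nat_lit 0x26aa600007018150680)))))) (.nd (nat_lit 11) 
(.nd (nat_lit 8) (.lf (nat_lit 20881566) (dlOf (nat_lit 1) (nat_lit 0x4004000200089e2b82))) 
(.lf (nat_lit 3490619806) (dlOf (nat_lit 1) (nat_lit 0x3f8004013e0008016b82)))) (.nd (nat_lit 9) 
(.lf (nat_lit 8300702) (dlOf (nat_lit 1) (nat_lit 0x260018514801))) 
(.lf (nat_lit 62827166) (dlOf (nat_lit 1) (nat_lit 0x80080004002000200099a5583)))))))) 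
(.nd (nat_lit 28) (.nd (nat_lit 6) (.nd (nat_lit 26) (.nd (nat_lit 19) (.nd (nat_lit 7) 
(.nd (nat_lit 8) (.lf (nat_lit 2281873438) (dlOf (nat_lit 1) (nat_lit 0x4004000200080a0002))) 
(.lf (nat_lit 2818744606) (dlOf (nat_lit 3) (nat_lit 0x1802c000c015000700700038030003000c000a00400070000004b838006001800206040040004000400180f8002)))) 
(.lf (nat_lit 3355620254) (dlOf (nat_lit 2) (nat_lit 0x8000001fa040044004000400180a9102)))) 
(.nd (nat_lit 29) 
(.lf (nat_lit 134914078) (dlOf (nat_lit 3) (nat_lit 0x193027800898080c88000003e4040080002014000080e0482))) 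
(.nd (nat_lit 30) (.lf (nat_lit 2819268638) (dlOf (nat_lit 1) (nat_lit 0x4a0028210481))) 
(.lf (nat_lit 3893010462) (dlOf (nat_lit 1) (nat_lit 0x4004000200082d0482)))))) (.nd (nat_lit 8) 
(.nd (nat_lit 9) (.nd (nat_lit 19) 
(.lf (nat_lit 6107078686) (dlOf (nat_lit 1) (nat_lit 0x400400080018060a82))) 
(.lf (nat_lit 202022942) (dlOf (nat_lit 3) (nat_lit 0x193027000898080c88000003e6040080002014000080e0482)))) 
(.lf (nat_lit 201761310) (dlOf (nat_lit 1) (nat_lit 0x400400020008090d82)))) (.nd (nat_lit 7) 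
(.lf (nat_lit 2886115614) (dlOf (nat_lit 1) (nat_lit 0x37800803d0002011e0008154083))) 
(.lf (nat_lit 3959857566) (dlOf (nat_lit 2) (nat_lit 0x1811801d4a0400b400400040008170782)))))) 
(.nd (nat_lit 7) (.nd (nat_lit 9) (.nd (nat_lit 18) 
(.lf (nat_lit 738369630) (dlOf (nat_lit 1) (nat_lit 0x400400040008090082))) 
(.lf (nat_lit 2819006558) (dlOf (nat_lit 2) (nat_lit 0x1de03f00000018150880)))) (.nd (nat_lit 8) 
(.lf (nat_lit 3355620958) (dlOf (nat_lit 2) (nat_lit 0x6000001826040024002000600080a9c02))) 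
(.lf (nat_lit 2281878366) (dlOf (nat_lit 1) (nat_lit 0x200280a8f81))))) (.nd (nat_lit 8) 
(.nd (nat_lit 11) (.lf (nat_lit 3892490462) (dlOf (nat_lit 1) (nat_lit 0x4400200020008158082))) 
(.lf (nat_lit 671262942) (dlOf (nat_lit 2) (nat_lit 0x740000000d0200040008144a81)))) 
(.lf (nat_lit 2886115806) (dlOf (nat_lit 1) (nat_lit 0x8008004800200180008157d03)))))) 
(.nd (nat_lit 26) (.nd (nat_lit 30) (.nd (nat_lit 7) (.nd (nat_lit 6) 
(.lf (nat_lit 4698054686) (dlOf (nat_lit 3) (nat_lit 0x560128005a4080050094002d0040124004007c00080f0a82))) 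
(.lf (nat_lit 5234663518) (dlOf (nat_lit 1) (nat_lit 0x20018080701)))) (.nd (nat_lit 9) 
(.nd (nat_lit 32) (.lf (nat_lit 402826398) (dlOf (nat_lit 1) (nat_lit 0x1000400040008092b82))) 
(.lf (nat_lit 4697793694) (dlOf (nat_lit 1) (nat_lit 0x3000400220008092b82)))) 
(.lf (nat_lit 2550572702) (dlOf (nat_lit 1) (nat_lit 0x200280f3a81))))) (.nd (nat_lit 6) 
(.nd (nat_lit 8) (.nd (nat_lit 19) 
(.lf (nat_lit 2013437982) (dlOf (nat_lit 1) (nat_lit 0x8008000c00200080008090003))) 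
(.lf (nat_lit 5772058654) (dlOf (nat_lit 4) (nat_lit 0x1429c000214d00010a18007f41800205340004286001fc04000614f00150a70007e81000e8008002000200060008060a83)))) 
(.lf (nat_lit 3624313118) (dlOf (nat_lit 1) (nat_lit 0x37800803d0002011e0008154083)))) 
(.nd (nat_lit 8) (.lf (nat_lit 2013439582) (dlOf (nat_lit 1) (nat_lit 0x800400020008093902))) 
(.lf (nat_lit 3624313182) (dlOf (nat_lit 5) (nat_lit 0xc0100049006c01ce01b024000a001b0000000501401a808a001e040011c01b0065806c0c9802802e000c0003001001a00000004c20065802800480050001282002400a00008c080ee8008050400206080008154e83)))))) 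
(.nd (nat_lit 6) (.nd (nat_lit 21) (.nd (nat_lit 19) 
(.lf (nat_lit 4764901406) (dlOf (nat_lit 2) (nat_lit 0x1d00a0005940800c0008005c00200500008060a83))) 
(.lf (nat_lit 6376038430) (dlOf (nat_lit 4) (nat_lit 0x1427e000213e000109a0008481800204f8000426800211040006140001509f80083c1000e8008002000200060008060a83)))) 
(.nd (nat_lit 7) (.lf (nat_lit 472031262) (dlOf (nat_lit 1) (nat_lit 0x400400020008800002))) 
(.lf (nat_lit 472033950) (dlOf (nat_lit 1) (nat_lit 0x20028805581))))) (.nd (nat_lit 7) 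
(.nd (nat_lit 10) (.lf (nat_lit 1007329374) (dlOf (nat_lit 1) (nat_lit 0x200082e0481))) 
(.lf (nat_lit 472818782) (dlOf (nat_lit 1) (nat_lit 0x2a0008b02901)))) 
(.lf (nat_lit 471245022) (dlOf (nat_lit 2) (nat_lit 0x205940004204002c002000200082e0582)))))))))))

end

end Pool.Agent.Lib.MP_5854e1_co.Cz

namespace Pool.Agent.Lib.MP_5854e1_co.Cz

noncomputable section

noncomputable def tz205 : DT := (.nd (nat_lit 17) (.nd (nat_lit 13) (.nd (nat_lit 15) 
(.nd (nat_lit 28) (.nd (nat_lit 6) (.nd (nat_lit 18) (.nd (nat_lit 19) (.nd (nat_lit 7) 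
(.nd (nat_lit 27) (.nd (nat_lit 21) (.nd (nat_lit 8) 
(.lf (nat_lit 38862878) (dlOf (nat_lit 1) (nat_lit 0x60019170101))) 
(.lf (nat_lit 3221291294) (dlOf (nat_lit 1) (nat_lit 0x1400400160008090482)))) (.nd (nat_lit 22) 
(.lf (nat_lit 27328542) (dlOf (nat_lit 2) (nat_lit 0x1519802cf4080010008000c00200040008cd0683))) 
(.lf (nat_lit 14745630) (dlOf (nat_lit 7) (nat_lit 0x4878d40255bec0113b8a008cd1300028000000290a01d7c6a00f5df6006edc500396898000270800097140000e810003e35001d5c500003408001b8d400497140000a020018b8a00004c08002000800cc00200020008770103))))) 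
(.nd (nat_lit 8) (.nd (nat_lit 29) 
(.lf (nat_lit 3355508766) (dlOf (nat_lit 1) (nat_lit 0x4004000200080a0002))) 
(.lf (nat_lit 1744896030) (dlOf (nat_lit 1) (nat_lit 0x400400020008090002)))) 
(.lf (nat_lit 1275135262) (dlOf (nat_lit 1) (nat_lit 0xc00400040008093102))))) (.nd (nat_lit 12) 
(.nd (nat_lit 8) (.nd (nat_lit 20) 
(.lf (nat_lit 48301214) (dlOf (nat_lit 2) (nat_lit 0x999f00010e04003000400060009402b82))) 
(.lf (nat_lit 55641246) (dlOf (nat_lit 1) (nat_lit 0xc00196d2b81)))) 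
(.lf (nat_lit 4831906718) (dlOf (nat_lit 1) (nat_lit 0x400400020008055c82)))) (.nd (nat_lit 27) 
(.nd (nat_lit 31) (.lf (nat_lit 67179422) (dlOf (nat_lit 1) (nat_lit 0x20018009101))) 
(.lf (nat_lit 2214663070) (dlOf (nat_lit 1) (nat_lit 0xe0008009101)))) 
(.lf (nat_lit 6643848094) (dlOf (nat_lit 2) (nat_lit 0x100100043404000400200020008009102)))))) 
(.nd (nat_lit 20) (.nd (nat_lit 22) (.nd (nat_lit 21) 
(.lf (nat_lit 42532894) (dlOf (nat_lit 1) (nat_lit 0x104002002e0009260102))) 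
(.lf (nat_lit 61407262) (dlOf (nat_lit 1) (nat_lit 0x10008001400200020009920003)))) 
(.nd (nat_lit 24) (.lf (nat_lit 4784158) (dlOf (nat_lit 1) (nat_lit 0x2a00282b0101))) 
(.lf (nat_lit 21561374) (dlOf (nat_lit 1) (nat_lit 0x8008001400200040008a40103))))) 
(.nd (nat_lit 23) (.lf (nat_lit 18415646) (dlOf (nat_lit 1) (nat_lit 0x400400060008930482))) 
(.nd (nat_lit 24) 
(.lf (nat_lit 10027038) (dlOf (nat_lit 5) (nat_lit 0x305e0004240400082f00021102000c178001078100530e600054808018000800a4002001800085a0a83))) 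
(.lf (nat_lit 26804254) (dlOf (nat_lit 1) (nat_lit 0x20008000c00200060008c70703))))))) 
(.nd (nat_lit 19) (.nd (nat_lit 25) (.nd (nat_lit 26) (.nd (nat_lit 8) 
(.lf (nat_lit 1208287262) (dlOf (nat_lit 2) (nat_lit 0x34038000230180b0180))) 
(.lf (nat_lit 3221553438) (dlOf (nat_lit 1) (nat_lit 0x20018137801)))) (.nd (nat_lit 29) 
(.nd (nat_lit 30) (.lf (nat_lit 6509887518) (dlOf (nat_lit 1) (nat_lit 0x100028160481))) 
(.lf (nat_lit 3288662046) (dlOf (nat_lit 13) (nat_lit 0x701b000400d000100440191606000803400c8a81000101b000380d00322608002006c001003400c8882000201b0063ac0800180d80010068001a03000c3803005d0170042f40802500b801f6004017405c00f740200ba02e007b9010033017003db40802180b801ea0040004002000200080a0902)))) 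
(.lf (nat_lit 604307486) (dlOf (nat_lit 1) (nat_lit 0xe8002000e0008130502))))) (.nd (nat_lit 7) 
(.nd (nat_lit 20) (.lf (nat_lit 46465054) (dlOf (nat_lit 1) (nat_lit 0x400400020009380002))) 
(.lf (nat_lit 55902238) (dlOf (nat_lit 1) (nat_lit 0x18004000200096f0102)))) 
(.lf (nat_lit 35981982) (dlOf (nat_lit 1) (nat_lit 0x1c00200080009015582))))) (.nd (nat_lit 20) 
(.nd (nat_lit 21) (.nd (nat_lit 23) 
(.lf (nat_lit 2819424286) (dlOf (nat_lit 3) (nat_lit 0x401a002a300800380d00151604002800400040008280482))) 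
(.lf (nat_lit 42795038) (dlOf (nat_lit 2) (nat_lit 0x54000000000080010008011000200700009280103)))) 
(.nd (nat_lit 7) (.lf (nat_lit 28114974) (dlOf (nat_lit 1) (nat_lit 0x220008d50501))) 
(.lf (nat_lit 36506014) (dlOf (nat_lit 1) (nat_lit 0x20019074e81))))) (.nd (nat_lit 7) 
(.nd (nat_lit 21) 
(.lf (nat_lit 39649310) (dlOf (nat_lit 2) (nat_lit 0x14cb5b00764dc0035841401b40800003b08000200191b0101))) 
(.lf (nat_lit 24969246) (dlOf (nat_lit 1) (nat_lit 0x400400020008bd0b02)))) 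
(.lf (nat_lit 8196510) (dlOf (nat_lit 1) (nat_lit 0x20018518381))))))) (.nd (nat_lit 7) 
(.nd (nat_lit 8) (.nd (nat_lit 9) (.nd (nat_lit 20) (.nd (nat_lit 10) 
(.lf (nat_lit 21561438) (dlOf (nat_lit 2) (nat_lit 0xc1e78000bc08012000800c800200260008a40703))) 
(.lf (nat_lit 34145374) (dlOf (nat_lit 2) (nat_lit 0x1609800000080018008000400200020008fb2903)))) 
(.nd (nat_lit 18) (.lf (nat_lit 28901470) (dlOf (nat_lit 1) (nat_lit 0xc0028da0481))) 
(.lf (nat_lit 37027934) (dlOf (nat_lit 1) (nat_lit 0x800200020009081982))))) (.nd (nat_lit 18) 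
(.lf (nat_lit 46205534) (dlOf (nat_lit 1) (nat_lit 0x20009385381))) (.nd (nat_lit 19) 
(.lf (nat_lit 54856286) (dlOf (nat_lit 1) (nat_lit 0x20019655381))) 
(.lf (nat_lit 20777566) (dlOf (nat_lit 1) (nat_lit 0x200289d5381)))))) (.nd (nat_lit 27) 
(.nd (nat_lit 19) (.nd (nat_lit 20) 
(.lf (nat_lit 1677787486) (dlOf (nat_lit 1) (nat_lit 0x9000400280008090682))) 
(.lf (nat_lit 3211614) (dlOf (nat_lit 1) (nat_lit 0x30008000400200020008200683)))) 
(.nd (nat_lit 18) (.lf (nat_lit 12124510) (dlOf (nat_lit 1) (nat_lit 0x200086c0681))) 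
(.lf (nat_lit 23920990) (dlOf (nat_lit 1) (nat_lit 0x20028b80681))))) (.nd (nat_lit 9) 
(.nd (nat_lit 10) (.lf (nat_lit 1208027486) (dlOf (nat_lit 1) (nat_lit 0x20018094e81))) 
(.lf (nat_lit 3892381022) (dlOf (nat_lit 2) (nat_lit 0xc0580002000800038100008008000c00200040008103403)))) 
(.nd (nat_lit 18) 
(.lf (nat_lit 2348877662) (dlOf (nat_lit 1) (nat_lit 0x100080014002001c0008003f83))) 
(.lf (nat_lit 2886010718) (dlOf (nat_lit 3) (nat_lit 0x10000000540800080f40000a040010004001a0018143f82))))))) 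
(.nd (nat_lit 10) (.nd (nat_lit 11) (.nd (nat_lit 18) (.nd (nat_lit 8) 
(.lf (nat_lit 29950174) (dlOf (nat_lit 1) (nat_lit 0xe0008e30581))) 
(.lf (nat_lit 2348876766) (dlOf (nat_lit 6) (nat_lit 0x40150071300800200a8035fe04001005401afd02001002a0079b810004015003cd00801d0008009800200a40008002883)))) 
(.nd (nat_lit 22) (.lf (nat_lit 17105118) (dlOf (nat_lit 1) (nat_lit 0x400288e0581))) 
(.lf (nat_lit 21299422) (dlOf (nat_lit 1) (nat_lit 0x19400200500008a31d02))))) (.nd (nat_lit 9) 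
(.nd (nat_lit 18) (.nd (nat_lit 26) 
(.lf (nat_lit 671156446) (dlOf (nat_lit 1) (nat_lit 0x40008144a81))) 
(.lf (nat_lit 2348878046) (dlOf (nat_lit 12) (nat_lit 0x6802a0001f01004601500118040000660800c005400140100001902003101500030040000620800a40540002202002e02a000100100340150000780801480a80003a0400a00540000402004e02a0000101002f015000000080168008007c002002c0008004a83)))) 
(.lf (nat_lit 2886011102) (dlOf (nat_lit 2) (nat_lit 0x28020001c80000001a08017000200080008144a82)))) 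
(.nd (nat_lit 24) (.lf (nat_lit 3758164702) (dlOf (nat_lit 1) (nat_lit 0x18004000200080d5902))) 
(.lf (nat_lit 50399966) (dlOf (nat_lit 1) (nat_lit 0xbc004007400194c5902)))))) (.nd (nat_lit 8) 
(.nd (nat_lit 29) (.nd (nat_lit 26) 
(.lf (nat_lit 5502993630) (dlOf (nat_lit 1) (nat_lit 0x40028002e01))) 
(.lf (nat_lit 5570102494) (dlOf (nat_lit 1) (nat_lit 0x20008052e01)))) (.nd (nat_lit 31) 
(.lf (nat_lit 4966122718) (dlOf (nat_lit 1) (nat_lit 0x400400020008002e02))) 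
(.lf (nat_lit 2818639070) (dlOf (nat_lit 1) (nat_lit 0x400400040008082e02))))) (.nd (nat_lit 19) 
(.nd (nat_lit 18) (.lf (nat_lit 604050910) (dlOf (nat_lit 1) (nat_lit 0x1400200060008009b02))) 
(.lf (nat_lit 2818905566) (dlOf (nat_lit 3) (nat_lit 0xc000000110100030100000000800e8008001400200100008129b03)))) 
(.nd (nat_lit 12) (.lf (nat_lit 7931358) (dlOf (nat_lit 1) (nat_lit 0x8008000400200020008513603))) 
(.lf (nat_lit 20518366) (dlOf (nat_lit 1) (nat_lit 0x2800189d9b01))))))))) (.nd (nat_lit 26) 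
(.nd (nat_lit 30) (.nd (nat_lit 6) (.nd (nat_lit 7) (.nd (nat_lit 27) (.nd (nat_lit 8) 
(.lf (nat_lit 4563468318) (dlOf (nat_lit 1) (nat_lit 0x8008000400200020008090003))) 
(.lf (nat_lit 805372190) (dlOf (nat_lit 4) (nat_lit 0x51028802880e80012c0800fc0a2007c03a0004682003d028802280e80010a08001800400240018090482)))) 
(.nd (nat_lit 32) (.lf (nat_lit 402718750) (dlOf (nat_lit 1) (nat_lit 0x400400020008090002))) 
(.lf (nat_lit 4697686046) (dlOf (nat_lit 1) (nat_lit 0x8008000400200020008090003))))) 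
(.nd (nat_lit 8) (.nd (nat_lit 29) 
(.lf (nat_lit 402981022) (dlOf (nat_lit 1) (nat_lit 0x1200180c1301))) 
(.lf (nat_lit 5234819230) (dlOf (nat_lit 1) (nat_lit 0x4002000200080f1302)))) 
(.lf (nat_lit 4697686430) (dlOf (nat_lit 1) (nat_lit 0x4002000e0008091002))))) (.nd (nat_lit 8) 
(.nd (nat_lit 9) (.nd (nat_lit 27) 
(.lf (nat_lit 4563730526) (dlOf (nat_lit 4) (nat_lit 0xa406a020403000fe0148088809c03d404201dc01b010200c8032006003fc026020001000080068060801c03ac000000151a000c030001d0148009004c000280c03d006a000203001220148092809c0490042009601800060098000483800a0008016c002050e00080d0703))) 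
(.lf (nat_lit 4697948254) (dlOf (nat_lit 4) (nat_lit 0xa406a020403000fe0148088809c03d404201dc01b010200c8032006003fc026020001000080068060801c03ac000000151a000c030001d0148009004c000280c03d006a000203001220148092809c0490042009601800060098000483800a0008016c002050e00080d0703)))) 
(.lf (nat_lit 5234559582) (dlOf (nat_lit 1) (nat_lit 0x20028055381)))) (.nd (nat_lit 7) 
(.lf (nat_lit 805372254) (dlOf (nat_lit 1) (nat_lit 0x9000400280008090682))) (.nd (nat_lit 12) 
(.lf (nat_lit 4697687518) (dlOf (nat_lit 1) (nat_lit 0x400400020008093602))) 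
(.lf (nat_lit 2952861150) (dlOf (nat_lit 1) (nat_lit 0x20028009b01))))))) (.nd (nat_lit 18) 
(.nd (nat_lit 21) (.nd (nat_lit 6) (.nd (nat_lit 7) (.nd (nat_lit 19) 
(.lf (nat_lit 1343291422) (dlOf (nat_lit 2) (nat_lit 0x120150001480800600080044002001600081e0583))) 
(.lf (nat_lit 1879638046) (dlOf (nat_lit 1) (nat_lit 0x80018280481)))) 
(.lf (nat_lit 6174083998) (dlOf (nat_lit 1) (nat_lit 0x20018055c81)))) (.nd (nat_lit 9) 
(.lf (nat_lit 3623950430) (dlOf (nat_lit 1) (nat_lit 0x1c0020012000800a802))) 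
(.lf (nat_lit 6174083678) (dlOf (nat_lit 1) (nat_lit 0x20008055381))))) (.nd (nat_lit 20) 
(.nd (nat_lit 6) 
(.lf (nat_lit 1881210910) (dlOf (nat_lit 1) (nat_lit 0x8008000400200020008e60103))) 
(.lf (nat_lit 1344340190) (dlOf (nat_lit 5) (nat_lit 0x68730000aa04001848400081cc0001b82000612300078908001c39800021c40001a84000112300070908001439800021c400019048740580)))) 
(.nd (nat_lit 19) 
(.lf (nat_lit 1345388574) (dlOf (nat_lit 2) (nat_lit 0x4308d000000080018008001000200040008b90103))) 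
(.lf (nat_lit 3493396510) (dlOf (nat_lit 2) (nat_lit 0x30090009c004007400200040008130482)))))) 
(.nd (nat_lit 31) (.nd (nat_lit 20) (.nd (nat_lit 27) 
(.lf (nat_lit 1342504990) (dlOf (nat_lit 1) (nat_lit 0x20008040481))) 
(.lf (nat_lit 1476722718) (dlOf (nat_lit 1) (nat_lit 0xc00200100008150502)))) 
(.lf (nat_lit 1343553566) (dlOf (nat_lit 1) (nat_lit 0x80008290501)))) (.nd (nat_lit 6) 
(.nd (nat_lit 8) 
(.lf (nat_lit 4026859550) (dlOf (nat_lit 13) (nat_lit 0x701b000400d0001004401c6306000803400e3101000101b000380d0038c008002006c001003400e2f02000201b0071400800180d80010068001a03000deb03005d0170040e80802500b801f4a04017405c00f780200ba02e007bb010033017003dbc0802180b801eb2040004002000200080a0902))) 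
(.lf (nat_lit 3493136670) (dlOf (nat_lit 1) (nat_lit 0x200180f4b81)))) 
(.lf (nat_lit 3492085854) (dlOf (nat_lit 1) (nat_lit 0x2bc004028e00080a1302))))))) 
(.nd (nat_lit 27) (.nd (nat_lit 10) (.nd (nat_lit 6) (.nd (nat_lit 7) (.nd (nat_lit 19) 
(.nd (nat_lit 29) (.lf (nat_lit 335609886) (dlOf (nat_lit 1) (nat_lit 0x400400020008090002))) 
(.lf (nat_lit 872480798) (dlOf (nat_lit 1) (nat_lit 0x400400020008090002)))) 
(.lf (nat_lit 3557359646) (dlOf (nat_lit 16) (nat_lit 0x3dc0c201e20600002d020103030807c8180000b20803c00c20005702026e061000270100640308001340805801840009804055c0c20004b0201920610002481002a0308001200800180e00007e0403380c20003502027a0610001a010113030808801800000a0803340c20188060000020200ed030807401800000408006c002001200081c0582)))) 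
(.nd (nat_lit 9) (.lf (nat_lit 335872158) (dlOf (nat_lit 1) (nat_lit 0x1200180c1301))) 
(.lf (nat_lit 335612574) (dlOf (nat_lit 1) (nat_lit 0x20028095581))))) (.nd (nat_lit 7) 
(.nd (nat_lit 8) (.lf (nat_lit 3556837982) (dlOf (nat_lit 1) (nat_lit 0x400400040008085382))) 
(.lf (nat_lit 335612254) (dlOf (nat_lit 1) (nat_lit 0x400400020008094e82)))) 
(.lf (nat_lit 335872222) (dlOf (nat_lit 1) (nat_lit 0x800180c1d01))))) (.nd (nat_lit 7) 
(.nd (nat_lit 8) (.nd (nat_lit 20) 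
(.lf (nat_lit 5167451166) (dlOf (nat_lit 1) (nat_lit 0x400400020018056002))) 
(.lf (nat_lit 4094757918) (dlOf (nat_lit 1) (nat_lit 0x60008056001)))) (.nd (nat_lit 6) 
(.lf (nat_lit 1409355038) (dlOf (nat_lit 1) (nat_lit 0x400200020008006782))) 
(.lf (nat_lit 3019965790) (dlOf (nat_lit 3) (nat_lit 0x88000000198100180000000300800b800800dc002000800080d3403))))) 
(.nd (nat_lit 6) (.nd (nat_lit 11) 
(.lf (nat_lit 872481950) (dlOf (nat_lit 1) (nat_lit 0x800200020008092b82))) 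
(.lf (nat_lit 2483096734) (dlOf (nat_lit 1) (nat_lit 0x8002000a0008006282)))) 
(.lf (nat_lit 872482014) (dlOf (nat_lit 1) (nat_lit 0x20018092e01)))))) (.nd (nat_lit 29) 
(.nd (nat_lit 7) (.nd (nat_lit 18) (.nd (nat_lit 19) (.nd (nat_lit 20) 
(.lf (nat_lit 2617311262) (dlOf (nat_lit 1) (nat_lit 0x4004000200080a0002))) 
(.lf (nat_lit 470876190) (dlOf (nat_lit 2) (nat_lit 0x2d201200014808008000802d0002009400081c0583)))) 
(.lf (nat_lit 474546206) (dlOf (nat_lit 2) (nat_lit 0x2704e0014825800a411a004a07d00270398000ec2800280080004002000c00091a0103)))) 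
(.lf (nat_lit 470089758) (dlOf (nat_lit 1) (nat_lit 0xb00080068002000c0008040483)))) 
(.nd (nat_lit 6) (.lf (nat_lit 469832350) (dlOf (nat_lit 1) (nat_lit 0x3c0018008c81))) 
(.lf (nat_lit 3691058654) (dlOf (nat_lit 2) (nat_lit 0x400d80138008000a208001400200240008009b02))))) 
(.nd (nat_lit 18) (.nd (nat_lit 6) (.nd (nat_lit 8) 
(.lf (nat_lit 1008271902) (dlOf (nat_lit 1) (nat_lit 0x400400020018b18702))) 
(.lf (nat_lit 4227927326) (dlOf (nat_lit 1) (nat_lit 0x30008003c00200140008006783)))) 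
(.lf (nat_lit 6376983134) (dlOf (nat_lit 1) (nat_lit 0x400400c40008095382)))) (.nd (nat_lit 6) 
(.nd (nat_lit 30) (.lf (nat_lit 3154444318) (dlOf (nat_lit 1) (nat_lit 0xb000400b400081a0102))) 
(.lf (nat_lit 2080702494) (dlOf (nat_lit 2) (nat_lit 0x34038000230180b0180)))) 
(.lf (nat_lit 1007490526) (dlOf (nat_lit 1) (nat_lit 0x4004000200083d9b02))))))))) 
(.nd (nat_lit 18) (.nd (nat_lit 6) (.nd (nat_lit 26) (.nd (nat_lit 20) (.nd (nat_lit 19) 
(.nd (nat_lit 7) (.nd (nat_lit 8) 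
(.lf (nat_lit 6576767006) (dlOf (nat_lit 2) (nat_lit 0x1200d00080000025201000600080020002001200080d0a03))) 
(.lf (nat_lit 4697720094) (dlOf (nat_lit 3) (nat_lit 0xc0340001381001501a000020080050008006400200120008093103)))) 
(.nd (nat_lit 9) (.lf (nat_lit 134319262) (dlOf (nat_lit 1) (nat_lit 0x20018006281))) 
(.lf (nat_lit 58821278) (dlOf (nat_lit 1) (nat_lit 0x100080004002000200097e5583))))) 
(.nd (nat_lit 23) (.nd (nat_lit 30) 
(.lf (nat_lit 805928990) (dlOf (nat_lit 2) (nat_lit 0x3c000000094040098002002600081f0b02))) 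
(.lf (nat_lit 1879670814) (dlOf (nat_lit 1) (nat_lit 0x4004000200082b0682)))) 
(.lf (nat_lit 42565662) (dlOf (nat_lit 1) (nat_lit 0x80029260101))))) (.nd (nat_lit 19) 
(.nd (nat_lit 22) (.nd (nat_lit 7) 
(.lf (nat_lit 17924126) (dlOf (nat_lit 1) (nat_lit 0x40018900a01))) 
(.lf (nat_lit 51478686) (dlOf (nat_lit 1) (nat_lit 0x400400020019510502)))) (.nd (nat_lit 25) 
(.lf (nat_lit 13729822) (dlOf (nat_lit 2) (nat_lit 0x120558005223900068c10007000800a800200040008740483))) 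
(.lf (nat_lit 47284254) (dlOf (nat_lit 1) (nat_lit 0x12400093c0101))))) (.nd (nat_lit 21) 
(.nd (nat_lit 22) (.lf (nat_lit 1671198) (dlOf (nat_lit 1) (nat_lit 0x10008000400200040008110483))) 
(.lf (nat_lit 22642718) (dlOf (nat_lit 1) (nat_lit 0x140028b10501)))) 
(.lf (nat_lit 16351262) (dlOf (nat_lit 1) (nat_lit 0x3c0008890501)))))) (.nd (nat_lit 7) 
(.nd (nat_lit 8) (.nd (nat_lit 19) 
(.lf (nat_lit 5972787230) (dlOf (nat_lit 2) (nat_lit 0x1200d00080000037b01000600080020002001200080d0a03))) 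
(.nd (nat_lit 20) 
(.lf (nat_lit 1678344222) (dlOf (nat_lit 2) (nat_lit 0x3c000000094040098002002600081f0b02))) 
(.lf (nat_lit 471433246) (dlOf (nat_lit 1) (nat_lit 0x200282f0b01))))) (.nd (nat_lit 9) 
(.lf (nat_lit 1275168030) (dlOf (nat_lit 1) (nat_lit 0x400400040018093102))) 
(.lf (nat_lit 5704354590) (dlOf (nat_lit 1) (nat_lit 0x80028055c01))))) (.nd (nat_lit 8) 
(.nd (nat_lit 9) (.lf (nat_lit 1946262686) (dlOf (nat_lit 1) (nat_lit 0x1c0020006000800c202))) 
(.lf (nat_lit 5704354462) (dlOf (nat_lit 1) (nat_lit 0x60018055581)))) (.nd (nat_lit 11) 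
(.lf (nat_lit 6241224094) (dlOf (nat_lit 4) (nat_lit 0xa0130005e8100020010002640800100080013004002800400220008053602))) 
(.lf (nat_lit 1543605662) (dlOf (nat_lit 1) (nat_lit 0x1800400020008146d02))))))) (.nd (nat_lit 26) 
(.nd (nat_lit 29) (.nd (nat_lit 8) (.nd (nat_lit 11) (.nd (nat_lit 7) 
(.lf (nat_lit 1344372830) (dlOf (nat_lit 2) (nat_lit 0x588ec00270040028004001a0008740482))) 
(.lf (nat_lit 2195678) (dlOf (nat_lit 1) (nat_lit 0x20028150481)))) (.nd (nat_lit 9) 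
(.lf (nat_lit 134319198) (dlOf (nat_lit 1) (nat_lit 0x200018006081))) 
(.lf (nat_lit 46238302) (dlOf (nat_lit 1) (nat_lit 0x120029385381))))) (.nd (nat_lit 10) 
(.lf (nat_lit 2550235486) (dlOf (nat_lit 1) (nat_lit 0x20008014e81))) (.nd (nat_lit 20) 
(.lf (nat_lit 57247070) (dlOf (nat_lit 1) (nat_lit 0x48008002000200140009793403))) 
(.lf (nat_lit 49907038) (dlOf (nat_lit 7) (nat_lit 0x448a0001a01004239d0024951800066080114e740003102008874400443a18000b0100169d10000200401678d00000e02000a00094c3401)))))) 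
(.nd (nat_lit 30) (.nd (nat_lit 7) (.nd (nat_lit 8) 
(.lf (nat_lit 2818671710) (dlOf (nat_lit 1) (nat_lit 0xc00280d2901))) 
(.lf (nat_lit 805405022) (dlOf (nat_lit 2) (nat_lit 0x40700000e0200060018090681)))) 
(.lf (nat_lit 2818671582) (dlOf (nat_lit 1) (nat_lit 0x3c00280d2881)))) (.nd (nat_lit 7) 
(.nd (nat_lit 28) 
(.lf (nat_lit 5905678686) (dlOf (nat_lit 2) (nat_lit 0x80440005a04001c002000a00080b0682))) 
(.lf (nat_lit 4026630494) (dlOf (nat_lit 1) (nat_lit 0x800400040008014e82)))) 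
(.lf (nat_lit 1610711518) (dlOf (nat_lit 5) (nat_lit 0x100aa00040370001302000502a800300dc0004808000c0aa00040370001102000202a800180dc0003e08000400400160018091282)))))) 
(.nd (nat_lit 8) (.nd (nat_lit 7) (.nd (nat_lit 11) (.nd (nat_lit 27) 
(.lf (nat_lit 1409908830) (dlOf (nat_lit 1) (nat_lit 0x26000400dc00080a1302))) 
(.lf (nat_lit 3154739294) (dlOf (nat_lit 3) (nat_lit 0xe0190053f01000900b000100500145c0800a0004008c0018310482)))) 
(.nd (nat_lit 9) (.lf (nat_lit 201431134) (dlOf (nat_lit 1) (nat_lit 0x3c001800a801))) 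
(.lf (nat_lit 69831262) (dlOf (nat_lit 1) (nat_lit 0x20028cd5381))))) (.nd (nat_lit 10) 
(.lf (nat_lit 201427166) (dlOf (nat_lit 2) (nat_lit 0xa026000030080018008000400200020008004a83))) 
(.nd (nat_lit 32) (.lf (nat_lit 2080474334) (dlOf (nat_lit 1) (nat_lit 0x400400020008092e02))) 
(.lf (nat_lit 6375441630) (dlOf (nat_lit 1) (nat_lit 0x580018002e01)))))) (.nd (nat_lit 10) 
(.nd (nat_lit 30) (.nd (nat_lit 7) 
(.lf (nat_lit 6509658462) (dlOf (nat_lit 2) (nat_lit 0x80480005a04001c002000a00080b0682))) 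
(.lf (nat_lit 201425886) (dlOf (nat_lit 1) (nat_lit 0x16000801b4002004a0008002883)))) 
(.nd (nat_lit 29) 
(.lf (nat_lit 3288432990) (dlOf (nat_lit 2) (nat_lit 0x14000000220200180008014e81))) 
(.lf (nat_lit 1677820254) (dlOf (nat_lit 2) (nat_lit 0x40700000e0200060018090681))))) 
(.nd (nat_lit 7) (.nd (nat_lit 9) 
(.lf (nat_lit 5838576990) (dlOf (nat_lit 1) (nat_lit 0x4004000200080fc902))) 
(.lf (nat_lit 201426782) (dlOf (nat_lit 1) (nat_lit 0x20018003f81)))) 
(.lf (nat_lit 1543605726) (dlOf (nat_lit 2) (nat_lit 0x200c800000080020008005400200100008146e03)))))))) 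
(.nd (nat_lit 19) (.nd (nat_lit 28) (.nd (nat_lit 21) (.nd (nat_lit 6) (.nd (nat_lit 22) 
(.nd (nat_lit 8) (.lf (nat_lit 4899307550) (dlOf (nat_lit 1) (nat_lit 0x20008100101))) 
(.lf (nat_lit 8750366) (dlOf (nat_lit 1) (nat_lit 0x20028513101)))) (.nd (nat_lit 20) 
(.lf (nat_lit 2756018206) (dlOf (nat_lit 1) (nat_lit 0xc004000600081d0a02))) 
(.lf (nat_lit 55935006) (dlOf (nat_lit 1) (nat_lit 0x600196f0101))))) (.nd (nat_lit 7) 
(.nd (nat_lit 8) (.nd (nat_lit 20) 
(.lf (nat_lit 4899307614) (dlOf (nat_lit 1) (nat_lit 0x8008001800200020008100703))) 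
(.lf (nat_lit 9797726) (dlOf (nat_lit 3) (nat_lit 0xe5e0001724c001d4190001a03006ee2e000e6f7c02037bc006b960006ec2b801aa4b801b8ea4000150e00060028580701)))) 
(.lf (nat_lit 21332318) (dlOf (nat_lit 2) (nat_lit 0x8a7e00010018a34e80)))) (.nd (nat_lit 8) 
(.lf (nat_lit 8750302) (dlOf (nat_lit 1) (nat_lit 0x60028512e01))) 
(.lf (nat_lit 2751824862) (dlOf (nat_lit 1) (nat_lit 0x20018002881)))))) (.nd (nat_lit 20) 
(.nd (nat_lit 23) (.nd (nat_lit 22) 
(.lf (nat_lit 2457630) (dlOf (nat_lit 1) (nat_lit 0x20008160901))) 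
(.lf (nat_lit 6651934) (dlOf (nat_lit 1) (nat_lit 0x2e0008440a01)))) (.nd (nat_lit 25) 
(.lf (nat_lit 15040542) (dlOf (nat_lit 1) (nat_lit 0x80080004002000200087b0703))) 
(.lf (nat_lit 48594974) (dlOf (nat_lit 1) (nat_lit 0x1800400020009420102))))) (.nd (nat_lit 7) 
(.nd (nat_lit 8) (.lf (nat_lit 37060638) (dlOf (nat_lit 1) (nat_lit 0x1000400020009090102))) 
(.lf (nat_lit 58032414) (dlOf (nat_lit 1) (nat_lit 0x16000400ac00097b8002)))) 
(.lf (nat_lit 20288414) (dlOf (nat_lit 1) (nat_lit 0x200289d9101)))))) (.nd (nat_lit 6) 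
(.nd (nat_lit 30) (.nd (nat_lit 26) (.nd (nat_lit 27) 
(.lf (nat_lit 4563763230) (dlOf (nat_lit 8) (nat_lit 0x4c02d0001b01002f017000100b400ac03c0003106005202e003500f0000bc1001400b40005c04008c05a0001102005802d000078100130168000000800c8008018c002005800080d0103))) 
(.lf (nat_lit 4697980958) (dlOf (nat_lit 8) (nat_lit 0x4c02d0001b01002f017000100b400ac03c0003106005202e003500f0000bc1001400b40005c04008c05a0001102005802d000070100130168000000800c8008018c002005800080d0103)))) 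
(.lf (nat_lit 3154477086) (dlOf (nat_lit 6) (nat_lit 0x2f019001780c000da05a007002a803780d0004805e00bc028005d00a003d000c000522401240280002802014206400020310052018002300b4014205500a101a000700bc02880500158014009900180009c500148168000340400a40b40001302006600181a0101)))) 
(.nd (nat_lit 22) 
(.lf (nat_lit 1946517534) (dlOf (nat_lit 1) (nat_lit 0x500080038002001a0008090003))) 
(.nd (nat_lit 31) 
(.lf (nat_lit 1346732062) (dlOf (nat_lit 2) (nat_lit 0x16850c00ac12c005808d00240398000ec200030008000800200040009000103))) 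
(.lf (nat_lit 3494215710) (dlOf (nat_lit 1) (nat_lit 0xc004000600081d0a02)))))) (.nd (nat_lit 27) 
(.nd (nat_lit 21) (.nd (nat_lit 26) 
(.lf (nat_lit 4563763294) (dlOf (nat_lit 4) (nat_lit 0x13801a80a580ac0aec0520436027001d01080c2806c04dc032005a0010000a88001d01a800680ac03c0052003a0270000a0401c201a806380ac0c0805203c6027018700d800048281e300080878002005e00080d0703))) 
(.lf (nat_lit 335904862) (dlOf (nat_lit 1) (nat_lit 0x800280d1c01)))) 
(.lf (nat_lit 3492118622) (dlOf (nat_lit 1) (nat_lit 0x1a80080068002002200080a1303)))) 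
(.nd (nat_lit 29) (.nd (nat_lit 32) 
(.lf (nat_lit 403013726) (dlOf (nat_lit 1) (nat_lit 0x400180d1901))) 
(.lf (nat_lit 4697981022) (dlOf (nat_lit 4) (nat_lit 0x13801a80a580ac0aec0520436027001d01080c2806c04dc032005a0010000a88001d01a800680ac03c0052003a0270000a0401c201a806380ac0c0805203c6027018700d800048281e300080878002005e00080d0703)))) 
(.lf (nat_lit 5234851934) (dlOf (nat_lit 3) (nat_lit 0x900540003404010802a0001902001e0008100701))))))) 
(.nd (nat_lit 20) (.nd (nat_lit 28) (.nd (nat_lit 25) (.nd (nat_lit 8) (.nd (nat_lit 22) 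
(.lf (nat_lit 537755678) (dlOf (nat_lit 1) (nat_lit 0x400200020008160682))) 
(.lf (nat_lit 5079070) (dlOf (nat_lit 1) (nat_lit 0x400400020008300582)))) (.nd (nat_lit 7) 
(.lf (nat_lit 19766558) (dlOf (nat_lit 1) (nat_lit 0x4002000200089dc602))) 
(.lf (nat_lit 19763614) (dlOf (nat_lit 1) (nat_lit 0x200289d8381))))) (.nd (nat_lit 6) 
(.nd (nat_lit 7) 
(.lf (nat_lit 42827806) (dlOf (nat_lit 2) (nat_lit 0x372090025000000000080028004000e0009280102))) 
(.lf (nat_lit 36539038) (dlOf (nat_lit 1) (nat_lit 0x80019075581)))) (.nd (nat_lit 7) 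
(.lf (nat_lit 34440286) (dlOf (nat_lit 1) (nat_lit 0x40028fb2901))) 
(.lf (nat_lit 34440158) (dlOf (nat_lit 1) (nat_lit 0x19c0018fb2881)))))) (.nd (nat_lit 8) 
(.nd (nat_lit 26) (.nd (nat_lit 7) 
(.lf (nat_lit 5772247070) (dlOf (nat_lit 1) (nat_lit 0x400400020008090002))) 
(.lf (nat_lit 5772248222) (dlOf (nat_lit 2) (nat_lit 0x801c8007fc0800100080054002000a0008092b83)))) 
(.nd (nat_lit 27) (.lf (nat_lit 1410170910) (dlOf (nat_lit 1) (nat_lit 0x400200020008160682))) 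
(.lf (nat_lit 6376226846) (dlOf (nat_lit 1) (nat_lit 0x8008000400200020008090003))))) 
(.nd (nat_lit 6) (.nd (nat_lit 7) 
(.lf (nat_lit 6376227102) (dlOf (nat_lit 1) (nat_lit 0x800200300008090a82))) 
(.lf (nat_lit 5772247454) (dlOf (nat_lit 1) (nat_lit 0x400400020008091002)))) 
(.lf (nat_lit 6376229214) (dlOf (nat_lit 1) (nat_lit 0x140018094e81)))))) (.nd (nat_lit 24) 
(.nd (nat_lit 7) (.nd (nat_lit 8) (.nd (nat_lit 9) 
(.lf (nat_lit 10321950) (dlOf (nat_lit 1) (nat_lit 0x200285d0481))) 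
(.lf (nat_lit 8229406) (dlOf (nat_lit 1) (nat_lit 0x20008518801)))) 
(.lf (nat_lit 4095575326) (dlOf (nat_lit 1) (nat_lit 0x4004000200080e3102)))) (.nd (nat_lit 6) 
(.lf (nat_lit 2753396894) (dlOf (nat_lit 1) (nat_lit 0x20018090201))) 
(.lf (nat_lit 45973726) (dlOf (nat_lit 1) (nat_lit 0x18008000800200020009380a03))))) 
(.nd (nat_lit 6) (.nd (nat_lit 21) 
(.lf (nat_lit 27099166) (dlOf (nat_lit 1) (nat_lit 0x3c00400180018ca0582))) (.nd (nat_lit 22) 
(.lf (nat_lit 54362142) (dlOf (nat_lit 1) (nat_lit 0x10008001400200020009650003))) 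
(.lf (nat_lit 25002014) (dlOf (nat_lit 1) (nat_lit 0x8008000400200020008bd0b03))))) 
(.nd (nat_lit 8) (.lf (nat_lit 20807774) (dlOf (nat_lit 1) (nat_lit 0x80080004002000200089e1983))) 
(.lf (nat_lit 54364510) (dlOf (nat_lit 1) (nat_lit 0x800400020019654e82)))))))))) (.nd (nat_lit 15) 
(.nd (nat_lit 18) (.nd (nat_lit 28) (.nd (nat_lit 8) (.nd (nat_lit 19) (.nd (nat_lit 26) 
(.nd (nat_lit 6) (.nd (nat_lit 7) 
(.lf (nat_lit 1208033310) (dlOf (nat_lit 1) (nat_lit 0x20028090001))) 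
(.lf (nat_lit 3221299358) (dlOf (nat_lit 2) (nat_lit 0x2c02b00078148002406c000201e000ae848090200)))) 
(.nd (nat_lit 7) (.lf (nat_lit 54602334) (dlOf (nat_lit 1) (nat_lit 0x80080040002000a0009655383))) 
(.lf (nat_lit 43066590) (dlOf (nat_lit 1) (nat_lit 0x200192a2e01))))) (.nd (nat_lit 10) 
(.nd (nat_lit 7) (.lf (nat_lit 1677795358) (dlOf (nat_lit 2) (nat_lit 0x1c0540064d018090000))) 
(.lf (nat_lit 3959496862) (dlOf (nat_lit 2) (nat_lit 0x2c02b00078148002406c000201e000a6048090200)))) 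
(.nd (nat_lit 6) (.lf (nat_lit 2885758110) (dlOf (nat_lit 1) (nat_lit 0x40028006281))) 
(.lf (nat_lit 2754686686) (dlOf (nat_lit 1) (nat_lit 0x1200280f7381)))))) (.nd (nat_lit 20) 
(.nd (nat_lit 24) (.nd (nat_lit 21) 
(.lf (nat_lit 42541086) (dlOf (nat_lit 1) (nat_lit 0x144002000e0009260102))) 
(.lf (nat_lit 36249630) (dlOf (nat_lit 2) (nat_lit 0x1d020200e803c0001d829050100)))) 
(.nd (nat_lit 9) (.lf (nat_lit 21569566) (dlOf (nat_lit 2) (nat_lit 0x6a4d0001d818a40100))) 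
(.lf (nat_lit 50930206) (dlOf (nat_lit 1) (nat_lit 0x14002002400094d8702))))) (.nd (nat_lit 24) 
(.nd (nat_lit 25) (.lf (nat_lit 3743774) (dlOf (nat_lit 1) (nat_lit 0x20028220a01))) 
(.lf (nat_lit 37298206) (dlOf (nat_lit 1) (nat_lit 0x200290d0001)))) (.nd (nat_lit 6) 
(.lf (nat_lit 22618142) (dlOf (nat_lit 1) (nat_lit 0x60018b00581))) 
(.lf (nat_lit 28909662) (dlOf (nat_lit 1) (nat_lit 0x40008002000200100008da0483))))))) 
(.nd (nat_lit 6) (.nd (nat_lit 29) (.nd (nat_lit 19) (.nd (nat_lit 10) 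
(.lf (nat_lit 3221299486) (dlOf (nat_lit 2) (nat_lit 0x120200004b018090480))) 
(.lf (nat_lit 4496368926) (dlOf (nat_lit 1) (nat_lit 0xf400400100018053102)))) (.nd (nat_lit 9) 
(.lf (nat_lit 12132638) (dlOf (nat_lit 1) (nat_lit 0xc004000400086c0482))) 
(.lf (nat_lit 7944990) (dlOf (nat_lit 1) (nat_lit 0x2001851bb81))))) (.nd (nat_lit 7) 
(.lf (nat_lit 4966130974) (dlOf (nat_lit 1) (nat_lit 0x1e0018003101))) (.nd (nat_lit 11) 
(.lf (nat_lit 1610686878) (dlOf (nat_lit 2) (nat_lit 0x2813800266040018002000a0008091002))) 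
(.lf (nat_lit 3758172574) (dlOf (nat_lit 1) (nat_lit 0x200080d4e81)))))) (.nd (nat_lit 10) 
(.nd (nat_lit 29) (.nd (nat_lit 7) 
(.lf (nat_lit 6509633886) (dlOf (nat_lit 1) (nat_lit 0x2000180b0681))) 
(.lf (nat_lit 1140925406) (dlOf (nat_lit 1) (nat_lit 0xc00400020008002882)))) (.nd (nat_lit 26) 
(.lf (nat_lit 5905654110) (dlOf (nat_lit 1) (nat_lit 0x2000180b0681))) (.nd (nat_lit 27) 
(.lf (nat_lit 1677795678) (dlOf (nat_lit 3) (nat_lit 0x4813c009c070003a0260000703000d0130000280800f8008000400200500008090683))) 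
(.lf (nat_lit 1812013406) (dlOf (nat_lit 15) (nat_lit 0x4400000009e0402400000004c0200b8024005a00d0001201002e00900164034000470400c8024005800d0001101002f0090016403400043040032024002700f80178068000840c00a003e006801a000208200560120014007c00b003400c40000002004004b0120013807c00f80340003e06006a01a0001e0100560120012807c012c03400d20000001c04008f0000000d40802d000000068040148002002000080b0682)))))) 
(.nd (nat_lit 12) (.nd (nat_lit 11) 
(.lf (nat_lit 57222494) (dlOf (nat_lit 1) (nat_lit 0x3c0029793401))) 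
(.lf (nat_lit 77150) (dlOf (nat_lit 1) (nat_lit 0x60018006a81)))) (.nd (nat_lit 7) 
(.lf (nat_lit 7944030) (dlOf (nat_lit 1) (nat_lit 0x2001851a301))) 
(.lf (nat_lit 604059102) (dlOf (nat_lit 3) (nat_lit 0x3301c8001980802100fc0000004003800400180008009b02)))))))) 
(.nd (nat_lit 29) (.nd (nat_lit 10) (.nd (nat_lit 7) (.nd (nat_lit 27) (.nd (nat_lit 20) 
(.lf (nat_lit 4563476510) (dlOf (nat_lit 1) (nat_lit 0x40028090001))) 
(.lf (nat_lit 1343299614) (dlOf (nat_lit 2) (nat_lit 0x3305f0001480802100080054002004a00081e0583)))) 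
(.nd (nat_lit 6) (.lf (nat_lit 4697694238) (dlOf (nat_lit 1) (nat_lit 0x40028090001))) 
(.lf (nat_lit 3623958622) (dlOf (nat_lit 1) (nat_lit 0x110002800a801))))) (.nd (nat_lit 9) 
(.nd (nat_lit 11) (.lf (nat_lit 4697694622) (dlOf (nat_lit 1) (nat_lit 0x7400200700008091002))) 
(.lf (nat_lit 4563478942) (dlOf (nat_lit 1) (nat_lit 0x100028094e81)))) 
(.lf (nat_lit 5704330142) (dlOf (nat_lit 3) (nat_lit 0x4c0180001e01001700c0000dc080020008000800200020008055c83))))) 
(.nd (nat_lit 6) (.nd (nat_lit 8) (.nd (nat_lit 7) 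
(.lf (nat_lit 469843486) (dlOf (nat_lit 1) (nat_lit 0x6001800cf01))) 
(.lf (nat_lit 2617324702) (dlOf (nat_lit 1) (nat_lit 0x200180a9501)))) (.nd (nat_lit 11) 
(.lf (nat_lit 402728222) (dlOf (nat_lit 1) (nat_lit 0x80018093101))) 
(.lf (nat_lit 1409363230) (dlOf (nat_lit 1) (nat_lit 0xd00080004002000c0008006783))))) 
(.nd (nat_lit 7) (.lf (nat_lit 3489738078) (dlOf (nat_lit 1) (nat_lit 0x400200020008006a82))) 
(.nd (nat_lit 11) 
(.lf (nat_lit 3691066846) (dlOf (nat_lit 4) (nat_lit 0xe0220002a01000f00d800144080098054000a004007400400220008009b02))) 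
(.lf (nat_lit 1543581150) (dlOf (nat_lit 1) (nat_lit 0x20028146e01))))))) (.nd (nat_lit 6) 
(.nd (nat_lit 7) (.nd (nat_lit 10) (.nd (nat_lit 8) 
(.lf (nat_lit 2080448542) (dlOf (nat_lit 1) (nat_lit 0x20028090001))) 
(.lf (nat_lit 805380382) (dlOf (nat_lit 2) (nat_lit 0x6404e000960200020008090481)))) 
(.nd (nat_lit 9) (.lf (nat_lit 5100348702) (dlOf (nat_lit 1) (nat_lit 0x140018053101))) 
(.lf (nat_lit 2952867614) (dlOf (nat_lit 1) (nat_lit 0xa8008003c00200320008007483))))) 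
(.nd (nat_lit 10) (.nd (nat_lit 11) 
(.lf (nat_lit 2080448926) (dlOf (nat_lit 1) (nat_lit 0x20028091001))) 
(.lf (nat_lit 3154192798) (dlOf (nat_lit 1) (nat_lit 0x20002011e0008104e82)))) 
(.lf (nat_lit 6375417246) (dlOf (nat_lit 1) (nat_lit 0x60028003601))))) (.nd (nat_lit 8) 
(.nd (nat_lit 9) (.nd (nat_lit 7) 
(.lf (nat_lit 4095287390) (dlOf (nat_lit 3) (nat_lit 0x202180002a0401f010c000120200040018090701))) 
(.lf (nat_lit 6308308190) (dlOf (nat_lit 1) (nat_lit 0x1f80018052e01)))) (.nd (nat_lit 20) 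
(.lf (nat_lit 5301676638) (dlOf (nat_lit 1) (nat_lit 0x40018005381))) 
(.lf (nat_lit 6376467038) (dlOf (nat_lit 1) (nat_lit 0x400400020008095382))))) (.nd (nat_lit 7) 
(.nd (nat_lit 27) 
(.lf (nat_lit 805380446) (dlOf (nat_lit 3) (nat_lit 0x4813c009c070003a0260000703000d0130000280800f8008000400200500008090683))) 
(.lf (nat_lit 939598174) (dlOf (nat_lit 15) (nat_lit 0x4400000009e0402400000004c0200b8024005a00d0001201002e00900164034000470400c8024005800d0001101002f0090016403400043040032024002700f80178068000840c00a003e006801a000208200560120014007c00b003400c40000002004004b0120013807c00f80340003e06006a01a0001e0100560120012807c012c03400d20000001c04008f0000000d40802d000000068040148002002000080b0682)))) 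
(.lf (nat_lit 2952869342) (dlOf (nat_lit 3) (nat_lit 0x100050000e408007002800070040090004002e0008009b02)))))))) 
(.nd (nat_lit 28) (.nd (nat_lit 24) (.nd (nat_lit 27) (.nd (nat_lit 20) (.nd (nat_lit 19) 
(.nd (nat_lit 6) (.lf (nat_lit 537206814) (dlOf (nat_lit 1) (nat_lit 0x1000200040008050682))) 
(.lf (nat_lit 2755993694) (dlOf (nat_lit 1) (nat_lit 0x8004000400081c1302)))) (.nd (nat_lit 7) 
(.lf (nat_lit 42803230) (dlOf (nat_lit 1) (nat_lit 0x80029280101))) 
(.lf (nat_lit 36514206) (dlOf (nat_lit 1) (nat_lit 0x20019074e81))))) (.nd (nat_lit 6) 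
(.nd (nat_lit 7) (.lf (nat_lit 39657502) (dlOf (nat_lit 2) (nat_lit 0x504a40001d8191b0100))) 
(.lf (nat_lit 48047262) (dlOf (nat_lit 1) (nat_lit 0x400400020009402b82)))) (.nd (nat_lit 7) 
(.lf (nat_lit 37036126) (dlOf (nat_lit 1) (nat_lit 0x800200020009081982))) 
(.lf (nat_lit 8206302) (dlOf (nat_lit 1) (nat_lit 0x280020004000851a602)))))) (.nd (nat_lit 6) 
(.nd (nat_lit 26) (.nd (nat_lit 19) (.nd (nat_lit 29) 
(.lf (nat_lit 134553630) (dlOf (nat_lit 5) (nat_lit 0x4d80ec0005004013c0760002702008803b0001001004601d80006c080130008003c002009a0008070603))) 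
(.lf (nat_lit 3892650014) (dlOf (nat_lit 3) (nat_lit 0x70031000a016801c00b200ce05500700290038013401a006800e0026004b00a0038001801c000600029160118055008b01a004900500004e0c003c002000c0008180102)))) 
(.lf (nat_lit 2819432478) (dlOf (nat_lit 4) (nat_lit 0x840340054601003701a002a2c080018118014f404003c00400060008280482)))) 
(.nd (nat_lit 31) 
(.lf (nat_lit 201662494) (dlOf (nat_lit 5) (nat_lit 0x4d80ec0002804013c0760001302008803b0000681004601d80001c080130008003c002009a0008070603))) 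
(.lf (nat_lit 2349146142) (dlOf (nat_lit 2) (nat_lit 0x3001a01d8502000200080d0881))))) 
(.nd (nat_lit 7) (.nd (nat_lit 9) 
(.lf (nat_lit 738533726) (dlOf (nat_lit 1) (nat_lit 0x200080a7181))) 
(.lf (nat_lit 2886018910) (dlOf (nat_lit 4) (nat_lit 0x100ec0002c04001406a001a0000000a8200050218000140800780080014002001e0008143f83)))) 
(.lf (nat_lit 2886019294) (dlOf (nat_lit 2) (nat_lit 0xbc080001200000006828144a80)))))) 
(.nd (nat_lit 21) (.nd (nat_lit 7) (.nd (nat_lit 19) 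
(.lf (nat_lit 55910430) (dlOf (nat_lit 1) (nat_lit 0xc004000200096f0102))) (.nd (nat_lit 22) 
(.lf (nat_lit 59580446) (dlOf (nat_lit 3) (nat_lit 0x21014007c741000b00200104058003640801280080004002006c0009810603))) 
(.lf (nat_lit 21831710) (dlOf (nat_lit 1) (nat_lit 0x20028a70481))))) (.nd (nat_lit 6) 
(.nd (nat_lit 8) (.lf (nat_lit 51717278) (dlOf (nat_lit 1) (nat_lit 0x140019512b81))) 
(.lf (nat_lit 21307806) (dlOf (nat_lit 1) (nat_lit 0x2e400201a00008a36b82)))) 
(.lf (nat_lit 17113310) (dlOf (nat_lit 2) (nat_lit 0x56bc80002102000200188e0581))))) 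
(.nd (nat_lit 10) (.nd (nat_lit 8) (.nd (nat_lit 25) 
(.lf (nat_lit 24977438) (dlOf (nat_lit 1) (nat_lit 0x40008000400200020008bd0b03))) 
(.lf (nat_lit 58531870) (dlOf (nat_lit 1) (nat_lit 0x4004000200197e0002)))) 
(.lf (nat_lit 23404830) (dlOf (nat_lit 1) (nat_lit 0x240018b80481)))) (.nd (nat_lit 6) 
(.nd (nat_lit 8) (.lf (nat_lit 20261918) (dlOf (nat_lit 1) (nat_lit 0x4004000200189d6002))) 
(.lf (nat_lit 52765982) (dlOf (nat_lit 1) (nat_lit 0x20029573101)))) 
(.lf (nat_lit 52765918) (dlOf (nat_lit 1) (nat_lit 0x20029572e01))))))) (.nd (nat_lit 26) 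
(.nd (nat_lit 27) (.nd (nat_lit 30) (.nd (nat_lit 6) 
(.lf (nat_lit 4563738654) (dlOf (nat_lit 1) (nat_lit 0xa00080134002004400080d0103))) 
(.lf (nat_lit 4563738718) (dlOf (nat_lit 4) (nat_lit 0x370032020001300fd00800005418007804c000280400bc06a002e029002f00c8017804c00d0020000120a005800280d0701)))) 
(.nd (nat_lit 7) (.lf (nat_lit 1879384094) (dlOf (nat_lit 1) (nat_lit 0x3400200020008110b02))) 
(.lf (nat_lit 3490000286) (dlOf (nat_lit 3) (nat_lit 0x401e4000c80400400f2000630200020028006d01))))) 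
(.nd (nat_lit 6) (.nd (nat_lit 7) (.nd (nat_lit 30) 
(.lf (nat_lit 4697956382) (dlOf (nat_lit 1) (nat_lit 0xa00080134002004400080d0103))) 
(.lf (nat_lit 1476730910) (dlOf (nat_lit 1) (nat_lit 0xe8002000e0008150502)))) 
(.lf (nat_lit 5773271198) (dlOf (nat_lit 1) (nat_lit 0x14004001000180c1302)))) (.nd (nat_lit 29) 
(.lf (nat_lit 4697956446) (dlOf (nat_lit 4) (nat_lit 0x370032020001300fd00800005418007804c000280400bc06a002e029002f00c8017804c00d0020000120a005800280d0701))) 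
(.lf (nat_lit 6308569182) (dlOf (nat_lit 1) (nat_lit 0x40028100701)))))) (.nd (nat_lit 27) 
(.nd (nat_lit 29) (.nd (nat_lit 6) (.nd (nat_lit 30) 
(.lf (nat_lit 2483363870) (dlOf (nat_lit 2) (nat_lit 0x3001a01a1902000200080d0881))) 
(.lf (nat_lit 1409622046) (dlOf (nat_lit 1) (nat_lit 0x1000200040008050682)))) 
(.lf (nat_lit 5704589406) (dlOf (nat_lit 1) (nat_lit 0x40028100701)))) (.nd (nat_lit 8) 
(.lf (nat_lit 4094500894) (dlOf (nat_lit 1) (nat_lit 0x20008050001))) 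
(.lf (nat_lit 4095025438) (dlOf (nat_lit 1) (nat_lit 0x8008000800200020008050a83))))) 
(.nd (nat_lit 19) (.nd (nat_lit 7) 
(.lf (nat_lit 1006968862) (dlOf (nat_lit 1) (nat_lit 0x3400200020008110b02))) 
(.lf (nat_lit 6375679390) (dlOf (nat_lit 1) (nat_lit 0xd00018003601)))) (.nd (nat_lit 6) 
(.lf (nat_lit 6377250974) (dlOf (nat_lit 1) (nat_lit 0x14004001000180c1302))) 
(.lf (nat_lit 6377251038) (dlOf (nat_lit 1) (nat_lit 0x14004000e00180c1d02))))))))) 
(.nd (nat_lit 6) (.nd (nat_lit 28) (.nd (nat_lit 20) (.nd (nat_lit 7) (.nd (nat_lit 19) 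
(.nd (nat_lit 18) (.nd (nat_lit 21) 
(.lf (nat_lit 3959529502) (dlOf (nat_lit 2) (nat_lit 0xda026004c4018090000))) 
(.lf (nat_lit 27369502) (dlOf (nat_lit 2) (nat_lit 0xd46600b3d0200020018cd0681)))) 
(.nd (nat_lit 26) (.lf (nat_lit 3355811870) (dlOf (nat_lit 1) (nat_lit 0x2400400120008120482))) 
(.lf (nat_lit 1678090270) (dlOf (nat_lit 1) (nat_lit 0x50002000e0008180602))))) (.nd (nat_lit 21) 
(.nd (nat_lit 29) (.lf (nat_lit 4362706974) (dlOf (nat_lit 1) (nat_lit 0x19c004005a00080e0b02))) 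
(.lf (nat_lit 1678352414) (dlOf (nat_lit 2) (nat_lit 0x900000009404005c002003e00081f0b02)))) 
(.lf (nat_lit 2727966) (dlOf (nat_lit 6) (nat_lit 0x15808000a820000940800254220012a080001d82000158080032844001d4100003a060002b01000650880032820000720c00156020003802001600181a0b01))))) 
(.nd (nat_lit 10) (.nd (nat_lit 26) (.nd (nat_lit 9) 
(.lf (nat_lit 3221332126) (dlOf (nat_lit 3) (nat_lit 0x1c013000a80780022c0802fc04c002a01e0008a828090200))) 
(.lf (nat_lit 36547230) (dlOf (nat_lit 1) (nat_lit 0x60019075581)))) (.nd (nat_lit 27) 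
(.lf (nat_lit 1140957342) (dlOf (nat_lit 1) (nat_lit 0x15000807a400203380008031303))) 
(.lf (nat_lit 3959529630) (dlOf (nat_lit 3) (nat_lit 0x1c013000a8078002140802fc04c002a01e00084828090200))))) 
(.nd (nat_lit 26) 
(.lf (nat_lit 134327454) (dlOf (nat_lit 2) (nat_lit 0x1a02080011c080070008000c00200080008006283))) 
(.nd (nat_lit 27) 
(.lf (nat_lit 3825314974) (dlOf (nat_lit 1) (nat_lit 0x8008000400200020008146283))) 
(.lf (nat_lit 1812049054) (dlOf (nat_lit 2) (nat_lit 0x1804c000180200020018146281))))))) 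
(.nd (nat_lit 18) (.nd (nat_lit 7) (.nd (nat_lit 19) (.nd (nat_lit 8) 
(.lf (nat_lit 41001502) (dlOf (nat_lit 1) (nat_lit 0xa0029208701))) 
(.lf (nat_lit 59875614) (dlOf (nat_lit 1) (nat_lit 0x20019840a81)))) (.nd (nat_lit 23) 
(.lf (nat_lit 2755239966) (dlOf (nat_lit 1) (nat_lit 0x10008003000200020008140b83))) 
(.lf (nat_lit 45719582) (dlOf (nat_lit 1) (nat_lit 0x2000400020009360102))))) (.nd (nat_lit 8) 
(.lf (nat_lit 36807838) (dlOf (nat_lit 1) (nat_lit 0x20019072b81))) 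
(.lf (nat_lit 20032414) (dlOf (nat_lit 1) (nat_lit 0x4002000200089d5c82))))) (.nd (nat_lit 21) 
(.nd (nat_lit 8) (.nd (nat_lit 19) 
(.lf (nat_lit 22388766) (dlOf (nat_lit 1) (nat_lit 0x28008000400200060008ad0683))) 
(.lf (nat_lit 31301662) (dlOf (nat_lit 1) (nat_lit 0x400400060008e80482)))) 
(.lf (nat_lit 43361566) (dlOf (nat_lit 3) (nat_lit 0x18aff0000980800557f80004a040004004000e00092a3102)))) 
(.nd (nat_lit 19) (.nd (nat_lit 23) 
(.lf (nat_lit 7708702) (dlOf (nat_lit 1) (nat_lit 0x2e00084d0a01))) 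
(.lf (nat_lit 49651742) (dlOf (nat_lit 1) (nat_lit 0x38008001000200020009480103)))) 
(.lf (nat_lit 25010206) (dlOf (nat_lit 1) (nat_lit 0x10008000400200020008bd0b03))))))) 
(.nd (nat_lit 30) (.nd (nat_lit 8) (.nd (nat_lit 19) (.nd (nat_lit 18) 
(.lf (nat_lit 2483134494) (dlOf (nat_lit 2) (nat_lit 0xa02a002c9018020480))) 
(.lf (nat_lit 805675038) (dlOf (nat_lit 1) (nat_lit 0x50002000e0008180602)))) (.nd (nat_lit 7) 
(.lf (nat_lit 805937182) (dlOf (nat_lit 2) (nat_lit 0x900000009404005c002003e00081f0b02))) 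
(.lf (nat_lit 1008313502) (dlOf (nat_lit 1) (nat_lit 0x2400400040008b52b82))))) (.nd (nat_lit 7) 
(.nd (nat_lit 10) (.lf (nat_lit 470655262) (dlOf (nat_lit 1) (nat_lit 0x1e0018150701))) 
(.nd (nat_lit 12) 
(.lf (nat_lit 4697728286) (dlOf (nat_lit 1) (nat_lit 0x50008001c002000a0008093103))) 
(.lf (nat_lit 2617357598) (dlOf (nat_lit 1) (nat_lit 0x2000280a9701))))) (.nd (nat_lit 9) 
(.lf (nat_lit 4563511710) (dlOf (nat_lit 1) (nat_lit 0x320028094e81))) 
(.lf (nat_lit 4563512222) (dlOf (nat_lit 1) (nat_lit 0x114004007a0018095c82)))))) (.nd (nat_lit 19) 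
(.nd (nat_lit 7) (.nd (nat_lit 8) (.nd (nat_lit 21) 
(.lf (nat_lit 1346740254) (dlOf (nat_lit 2) (nat_lit 0x804e00040258000411a001008c0005042800601f400200ea0010030000800d0000ec4800400080004002000a0009000103))) 
(.lf (nat_lit 1881514014) (dlOf (nat_lit 3) (nat_lit 0x2a075800283a40009e0800041d6000080200020018f40101)))) 
(.lf (nat_lit 3490032926) (dlOf (nat_lit 1) (nat_lit 0x20008006781)))) (.nd (nat_lit 8) 
(.lf (nat_lit 2013372574) (dlOf (nat_lit 1) (nat_lit 0x15000807a400203380008031303))) 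
(.lf (nat_lit 6241232286) (dlOf (nat_lit 7) (nat_lit 0xe0050002b804007c028000600400030018005681800f8050002b204007c028001550200040020004c8100020010002600800900080064002002a0008053603))))) 
(.nd (nat_lit 21) (.nd (nat_lit 26) 
(.lf (nat_lit 1879679006) (dlOf (nat_lit 1) (nat_lit 0x800800a8002000c00082c0683))) 
(.lf (nat_lit 4228489246) (dlOf (nat_lit 1) (nat_lit 0x19c004005a00080e0b02)))) (.nd (nat_lit 9) 
(.lf (nat_lit 3493437470) (dlOf (nat_lit 1) (nat_lit 0x10008003000200020008140b83))) 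
(.lf (nat_lit 5774090782) (dlOf (nat_lit 1) (nat_lit 0x600280f8701)))))))) (.nd (nat_lit 18) 
(.nd (nat_lit 8) (.nd (nat_lit 7) (.nd (nat_lit 9) (.nd (nat_lit 10) (.nd (nat_lit 20) 
(.lf (nat_lit 472490078) (dlOf (nat_lit 1) (nat_lit 0x8004000c0018991982))) 
(.lf (nat_lit 4095320158) (dlOf (nat_lit 2) (nat_lit 0x3a1400000a818090700)))) 
(.lf (nat_lit 4093748318) (dlOf (nat_lit 1) (nat_lit 0x1e0018002901)))) (.nd (nat_lit 22) 
(.nd (nat_lit 28) (.lf (nat_lit 1208068702) (dlOf (nat_lit 1) (nat_lit 0x20028095381))) 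
(.lf (nat_lit 5771471454) (dlOf (nat_lit 1) (nat_lit 0x620018005381)))) 
(.lf (nat_lit 1346480734) (dlOf (nat_lit 1) (nat_lit 0x1400400080008f65382))))) (.nd (nat_lit 26) 
(.nd (nat_lit 9) (.nd (nat_lit 11) 
(.lf (nat_lit 1343856862) (dlOf (nat_lit 1) (nat_lit 0x400200020008370582))) 
(.lf (nat_lit 536979678) (dlOf (nat_lit 2) (nat_lit 0x30038000034080018008006c00200020008004a83)))) 
(.lf (nat_lit 57256670) (dlOf (nat_lit 2) (nat_lit 0xaaef00019819795900)))) (.nd (nat_lit 10) 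
(.nd (nat_lit 27) (.lf (nat_lit 5972797662) (dlOf (nat_lit 1) (nat_lit 0x400400020008144a82))) 
(.lf (nat_lit 201435358) (dlOf (nat_lit 1) (nat_lit 0x40018004a81)))) 
(.lf (nat_lit 6241232094) (dlOf (nat_lit 1) (nat_lit 0x19c0008052e01)))))) (.nd (nat_lit 30) 
(.nd (nat_lit 10) (.nd (nat_lit 11) (.nd (nat_lit 26) 
(.lf (nat_lit 805413214) (dlOf (nat_lit 8) (nat_lit 0x3a013c01c807001be026000070300b10130000340801380980001804000809e0004026000058201270130000280802a013c033804c0000904000404f007d013000000100020008019800200ac0008090683))) 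
(.lf (nat_lit 6509666654) (dlOf (nat_lit 13) (nat_lit 0x348000000540201a4000000298100900000001480801a80480006004042c02401b001100090048000b418012804800058040054000000200200640000000c01015a009006080000002e080348000000110201a40000000801004500900003c08010000800c4002001c00080b0683)))) 
(.nd (nat_lit 7) (.lf (nat_lit 6576777566) (dlOf (nat_lit 1) (nat_lit 0x400400020008144e82))) 
(.lf (nat_lit 6576777694) (dlOf (nat_lit 1) (nat_lit 0x20028144e81))))) (.nd (nat_lit 9) 
(.nd (nat_lit 20) (.lf (nat_lit 57255262) (dlOf (nat_lit 2) (nat_lit 0x39aaf900008019793400))) 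
(.lf (nat_lit 49915230) (dlOf (nat_lit 2) (nat_lit 0x58546000198194c3400)))) 
(.lf (nat_lit 201434974) (dlOf (nat_lit 2) (nat_lit 0x30248000540800580080074002000e0008003f83))))) 
(.nd (nat_lit 26) (.nd (nat_lit 7) (.nd (nat_lit 10) 
(.lf (nat_lit 5905686878) (dlOf (nat_lit 13) (nat_lit 0x348000000540201a4000000298100900000001480801a80440006004042c02201b001000090048000b418012804400058040054000000200200640000000c01015a008806080000002e080348000000110201a40000000801004500880003c08010000800c4002001c00080b0683))) 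
(.lf (nat_lit 3489770846) (dlOf (nat_lit 1) (nat_lit 0x400200020008006a82)))) 
(.lf (nat_lit 5772518366) (dlOf (nat_lit 1) (nat_lit 0x100008092881)))) (.nd (nat_lit 28) 
(.nd (nat_lit 29) (.lf (nat_lit 3288441182) (dlOf (nat_lit 1) (nat_lit 0xc0004000c0008014e82))) 
(.lf (nat_lit 1677828446) (dlOf (nat_lit 8) (nat_lit 0x3a013c01c807001be026000070300b10130000340801380980001804000809e0004026000058201270130000280802a013c033804c0000904000404f007d013000000100020008019800200ac0008090683)))) 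
(.lf (nat_lit 1946263902) (dlOf (nat_lit 2) (nat_lit 0x203e00011818014e80))))))) (.nd (nat_lit 29) 
(.nd (nat_lit 10) (.nd (nat_lit 28) (.nd (nat_lit 8) 
(.lf (nat_lit 9805918) (dlOf (nat_lit 3) (nat_lit 0x1e83200070e7000c7d40001bd0c0015e00000340a0015d1a0090e8c8070f20003138da01c3c5c00e1e2d80716f84008f7be01f1bde003fd6f0070dc3403864ee01411c300a48de804dc6dc023634e00bd15200ac8000070bd980002a4c000c00400080008580702))) 
(.nd (nat_lit 19) 
(.lf (nat_lit 21340510) (dlOf (nat_lit 1) (nat_lit 0x20008000800200020008a34e83))) 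
(.lf (nat_lit 26059102) (dlOf (nat_lit 1) (nat_lit 0x14004000c0008c10902))))) (.nd (nat_lit 27) 
(.nd (nat_lit 30) 
(.lf (nat_lit 4563771486) (dlOf (nat_lit 4) (nat_lit 0x34406a021202b011d0148082009c0064042025a01b010200c8000543800980d4004c0560042029001a0138000502009980d4062805202f0027008d00d8000482008380080048002002c00080d0703))) 
(.lf (nat_lit 5637513310) (dlOf (nat_lit 1) (nat_lit 0x40028100701)))) 
(.lf (nat_lit 4697989214) (dlOf (nat_lit 4) (nat_lit 0x34406a021202b011d0148082009c0064042025a01b010200c8000543800980d4004c0560042029001a0138000502009980d4062805202f0027008d00d8000482008380080048002002c00080d0703))))) 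
(.nd (nat_lit 9) (.nd (nat_lit 19) 
(.lf (nat_lit 43361502) (dlOf (nat_lit 2) (nat_lit 0x4a4600010c08017800800e400200b400092a2e03))) 
(.lf (nat_lit 61711582) (dlOf (nat_lit 1) (nat_lit 0x800400020019922e02)))) (.nd (nat_lit 7) 
(.lf (nat_lit 20297310) (dlOf (nat_lit 1) (nat_lit 0x4004000200189d9c02))) 
(.lf (nat_lit 8239070) (dlOf (nat_lit 1) (nat_lit 0x2000851a601)))))) (.nd (nat_lit 31) 
(.nd (nat_lit 26) (.nd (nat_lit 21) (.nd (nat_lit 27) 
(.lf (nat_lit 1610981470) (dlOf (nat_lit 1) (nat_lit 0x200080b0781))) 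
(.lf (nat_lit 5234860126) (dlOf (nat_lit 2) (nat_lit 0x3280600003204001000400020018100702)))) 
(.lf (nat_lit 1881514078) (dlOf (nat_lit 2) (nat_lit 0xd0718000000800180080028002000e0008f40883)))) 
(.nd (nat_lit 27) (.nd (nat_lit 28) 
(.lf (nat_lit 4899315806) (dlOf (nat_lit 1) (nat_lit 0xe0008100701))) 
(.lf (nat_lit 6241493086) (dlOf (nat_lit 1) (nat_lit 0x40028100701)))) 
(.lf (nat_lit 738566238) (dlOf (nat_lit 1) (nat_lit 0x200080b0781))))) (.nd (nat_lit 7) 
(.nd (nat_lit 11) (.lf (nat_lit 2753929310) (dlOf (nat_lit 1) (nat_lit 0x3000180a1281))) 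
(.lf (nat_lit 2751838302) (dlOf (nat_lit 1) (nat_lit 0x7000800080020010000800a803)))) 
(.nd (nat_lit 9) (.lf (nat_lit 2751834334) (dlOf (nat_lit 1) (nat_lit 0x400400020008004a82))) 
(.lf (nat_lit 2754981598) (dlOf (nat_lit 1) (nat_lit 0xc00280f7381))))))))))) (.nd (nat_lit 15) 
(.nd (nat_lit 13) (.nd (nat_lit 26) (.nd (nat_lit 18) (.nd (nat_lit 8) (.nd (nat_lit 21) 
(.nd (nat_lit 28) (.nd (nat_lit 10) (.nd (nat_lit 19) (.nd (nat_lit 22) (.nd (nat_lit 23) 
(.lf (nat_lit 1073938462) (dlOf (nat_lit 1) (nat_lit 0x8c00400140018030902))) 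
(.lf (nat_lit 25362462) (dlOf (nat_lit 2) (nat_lit 0x15acbf000d9818c00480)))) 
(.lf (nat_lit 63111198) (dlOf (nat_lit 1) (nat_lit 0x18004000200099e0102)))) (.nd (nat_lit 23) 
(.lf (nat_lit 21692446) (dlOf (nat_lit 2) (nat_lit 0x9daa0008ed30007e810017800800ac00200780008a60a83))) 
(.lf (nat_lit 13303838) (dlOf (nat_lit 1) (nat_lit 0x10008000400200020008710b03))))) 
(.nd (nat_lit 7) (.nd (nat_lit 12) 
(.lf (nat_lit 200222) (dlOf (nat_lit 1) (nat_lit 0x180018007101))) 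
(.lf (nat_lit 2818776606) (dlOf (nat_lit 1) (nat_lit 0x800800180020002000812cf03)))) 
(.nd (nat_lit 6) (.lf (nat_lit 8586398) (dlOf (nat_lit 1) (nat_lit 0x400400020008512b82))) 
(.lf (nat_lit 43713758) (dlOf (nat_lit 1) (nat_lit 0xc004009000092a2e02)))))) (.nd (nat_lit 30) 
(.nd (nat_lit 29) (.nd (nat_lit 31) 
(.lf (nat_lit 268632094) (dlOf (nat_lit 1) (nat_lit 0x4004000200080e0002))) 
(.lf (nat_lit 6711083038) (dlOf (nat_lit 1) (nat_lit 0x400400020008090002)))) 
(.lf (nat_lit 2952986654) (dlOf (nat_lit 4) (nat_lit 0x1380380005a02008401c0002c81001e00e00015c0800d8008005c002001c0008080583)))) 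
(.nd (nat_lit 6) (.nd (nat_lit 27) 
(.lf (nat_lit 4026728478) (dlOf (nat_lit 2) (nat_lit 0x850170000580800200080028002000a0008070603))) 
(.lf (nat_lit 6308429854) (dlOf (nat_lit 5) (nat_lit 0x21c03000fc0080001d82005500c00005c0800080600002c0402bc0300001202008c0028080101)))) 
(.lf (nat_lit 6308429918) (dlOf (nat_lit 5) (nat_lit 0x5001c0005e04000800e0002d02000c00f0000781003700c800000080040008017400200040008080703)))))) 
(.nd (nat_lit 20) (.nd (nat_lit 22) (.nd (nat_lit 7) 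
(.lf (nat_lit 10682398) (dlOf (nat_lit 1) (nat_lit 0x28008000400200060008610683))) 
(.lf (nat_lit 35849374) (dlOf (nat_lit 1) (nat_lit 0x40019012b81)))) (.nd (nat_lit 25) 
(.lf (nat_lit 23265310) (dlOf (nat_lit 1) (nat_lit 0xe0018b70581))) 
(.lf (nat_lit 56819742) (dlOf (nat_lit 1) (nat_lit 0x38008001000200020009770103))))) 
(.nd (nat_lit 6) (.nd (nat_lit 7) 
(.lf (nat_lit 20122654) (dlOf (nat_lit 1) (nat_lit 0x258002000400089d6002))) 
(.lf (nat_lit 36899486) (dlOf (nat_lit 1) (nat_lit 0x800200020009075582)))) (.nd (nat_lit 24) 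
(.lf (nat_lit 7536734) (dlOf (nat_lit 2) (nat_lit 0x1000000288040010002000200084b0482))) 
(.lf (nat_lit 24313950) (dlOf (nat_lit 1) (nat_lit 0x40028b91301))))))) (.nd (nat_lit 10) 
(.nd (nat_lit 9) (.nd (nat_lit 11) (.nd (nat_lit 7) 
(.lf (nat_lit 12255518) (dlOf (nat_lit 1) (nat_lit 0x60008001c002001600086c0483))) 
(.lf (nat_lit 8061342) (dlOf (nat_lit 1) (nat_lit 0x400400020018511002)))) (.nd (nat_lit 6) 
(.nd (nat_lit 27) (.lf (nat_lit 537069854) (dlOf (nat_lit 1) (nat_lit 0xd40028004b81))) 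
(.lf (nat_lit 671287582) (dlOf (nat_lit 1) (nat_lit 0x740028144b81)))) 
(.lf (nat_lit 3624077662) (dlOf (nat_lit 1) (nat_lit 0x8008000400200020008144e83))))) 
(.nd (nat_lit 6) (.nd (nat_lit 12) 
(.lf (nat_lit 268634910) (dlOf (nat_lit 1) (nat_lit 0x200280e5c01))) 
(.lf (nat_lit 2818775838) (dlOf (nat_lit 1) (nat_lit 0x280040014000812bb82)))) 
(.lf (nat_lit 1344472030) (dlOf (nat_lit 1) (nat_lit 0x820018802881))))) (.nd (nat_lit 7) 
(.nd (nat_lit 11) (.nd (nat_lit 9) (.nd (nat_lit 12) 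
(.lf (nat_lit 43713822) (dlOf (nat_lit 1) (nat_lit 0x4004000200092a3102))) 
(.lf (nat_lit 2281903390) (dlOf (nat_lit 1) (nat_lit 0x80080008002001200080a9703)))) 
(.lf (nat_lit 8062750) (dlOf (nat_lit 1) (nat_lit 0x400200020008513c82)))) (.nd (nat_lit 12) 
(.lf (nat_lit 3221425438) (dlOf (nat_lit 1) (nat_lit 0x400200020008116782))) 
(.lf (nat_lit 2818776350) (dlOf (nat_lit 1) (nat_lit 0x1400040046000812c602))))) (.nd (nat_lit 6) 
(.lf (nat_lit 3624078750) (dlOf (nat_lit 1) (nat_lit 0x1800400ea0008146d02))) (.nd (nat_lit 12) 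
(.lf (nat_lit 8062430) (dlOf (nat_lit 1) (nat_lit 0x400200020008513602))) 
(.lf (nat_lit 3758298590) (dlOf (nat_lit 2) (nat_lit 0x401e8000e40800180080024002000c0008129b03)))))))) 
(.nd (nat_lit 21) (.nd (nat_lit 30) (.nd (nat_lit 19) (.nd (nat_lit 6) (.nd (nat_lit 8) 
(.lf (nat_lit 134677022) (dlOf (nat_lit 1) (nat_lit 0x2180080084002008c0008090d83))) 
(.lf (nat_lit 462622) (dlOf (nat_lit 1) (nat_lit 0x8008000400200020008007483)))) 
(.lf (nat_lit 21430366) (dlOf (nat_lit 3) (nat_lit 0x2f690000b9ba0004c8c00011240000d02001a641c00e241200691b100076eb8009333400318ca000150c00280008a40701)))) 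
(.nd (nat_lit 20) (.nd (nat_lit 6) 
(.lf (nat_lit 51315870) (dlOf (nat_lit 1) (nat_lit 0x20009512b81))) 
(.lf (nat_lit 51314782) (dlOf (nat_lit 1) (nat_lit 0x60019510081)))) (.nd (nat_lit 8) 
(.lf (nat_lit 14614558) (dlOf (nat_lit 1) (nat_lit 0x2a0018770101))) 
(.lf (nat_lit 2031902) (dlOf (nat_lit 1) (nat_lit 0x20018150481)))))) (.nd (nat_lit 6) 
(.nd (nat_lit 7) (.nd (nat_lit 31) 
(.lf (nat_lit 5906038814) (dlOf (nat_lit 2) (nat_lit 0x5000001278080008008000c00200020008180483))) 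
(.lf (nat_lit 3758555166) (dlOf (nat_lit 1) (nat_lit 0x400400020008290682)))) 
(.lf (nat_lit 3490644382) (dlOf (nat_lit 1) (nat_lit 0x1090008000c00202440008016b83)))) 
(.nd (nat_lit 7) (.nd (nat_lit 9) 
(.lf (nat_lit 1611071582) (dlOf (nat_lit 3) (nat_lit 0x1015001780a40002a08015c082005c040000090280d0700))) 
(.lf (nat_lit 1476856414) (dlOf (nat_lit 1) (nat_lit 0x40028285381)))) 
(.lf (nat_lit 4026994398) (dlOf (nat_lit 1) (nat_lit 0x4004000200080f7382)))))) (.nd (nat_lit 10) 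
(.nd (nat_lit 6) (.nd (nat_lit 19) (.nd (nat_lit 20) 
(.lf (nat_lit 2555934) (dlOf (nat_lit 1) (nat_lit 0x20028170a01))) 
(.lf (nat_lit 37158942) (dlOf (nat_lit 1) (nat_lit 0x10004000200090b0102)))) (.nd (nat_lit 7) 
(.nd (nat_lit 23) (.lf (nat_lit 19857438) (dlOf (nat_lit 1) (nat_lit 0x4004000200089d0002))) 
(.lf (nat_lit 28246046) (dlOf (nat_lit 1) (nat_lit 0x20008001400200020008d70683)))) 
(.lf (nat_lit 8327838) (dlOf (nat_lit 1) (nat_lit 0x20028518c81))))) (.nd (nat_lit 7) 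
(.nd (nat_lit 12) (.lf (nat_lit 1881606750) (dlOf (nat_lit 1) (nat_lit 0x20018f65381))) 
(.lf (nat_lit 19864158) (dlOf (nat_lit 1) (nat_lit 0x880080024002001c00089db683)))) 
(.nd (nat_lit 8) (.lf (nat_lit 28770526) (dlOf (nat_lit 1) (nat_lit 0x20008001000200060008da0583))) 
(.lf (nat_lit 3492742110) (dlOf (nat_lit 1) (nat_lit 0x200080004002000800080f2883)))))) 
(.nd (nat_lit 7) (.nd (nat_lit 9) (.nd (nat_lit 11) 
(.lf (nat_lit 8328478) (dlOf (nat_lit 1) (nat_lit 0x19c0018519701))) 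
(.lf (nat_lit 8330526) (dlOf (nat_lit 1) (nat_lit 0x1a000801800020028000851c603)))) 
(.nd (nat_lit 6) (.lf (nat_lit 8330782) (dlOf (nat_lit 1) (nat_lit 0x40020002000851cf02))) 
(.lf (nat_lit 3492743006) (dlOf (nat_lit 1) (nat_lit 0x200180f3f81))))) (.nd (nat_lit 6) 
(.nd (nat_lit 9) (.lf (nat_lit 8328350) (dlOf (nat_lit 1) (nat_lit 0xa800200040008519502))) 
(.lf (nat_lit 19863198) (dlOf (nat_lit 1) (nat_lit 0x7c00089d9f81)))) (.nd (nat_lit 11) 
(.lf (nat_lit 19862750) (dlOf (nat_lit 1) (nat_lit 0x4004000200089d9502))) 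
(.lf (nat_lit 19864798) (dlOf (nat_lit 1) (nat_lit 0x80080004002000200089dc483))))))))) 
(.nd (nat_lit 28) (.nd (nat_lit 6) (.nd (nat_lit 31) (.nd (nat_lit 18) (.nd (nat_lit 7) 
(.nd (nat_lit 19) (.lf (nat_lit 6107103262) (dlOf (nat_lit 1) (nat_lit 0x400400020008090002))) 
(.lf (nat_lit 4362797086) (dlOf (nat_lit 2) (nat_lit 0x12900cc00346040034004008e0008100482)))) 
(.lf (nat_lit 4362273182) (dlOf (nat_lit 1) (nat_lit 0xa0028016b81)))) (.nd (nat_lit 27) 
(.lf (nat_lit 4362534942) (dlOf (nat_lit 1) (nat_lit 0x8008000400200020008090003))) 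
(.lf (nat_lit 201785374) (dlOf (nat_lit 1) (nat_lit 0x800801c400200a60008090003))))) 
(.nd (nat_lit 8) (.nd (nat_lit 9) 
(.lf (nat_lit 3288530974) (dlOf (nat_lit 2) (nat_lit 0x850170000a80800200080028002000a0008070603))) 
(.lf (nat_lit 2753233438) (dlOf (nat_lit 4) (nat_lit 0x2e0ff8008200804e87f4001ea0401d03f8000010200040028090d81)))) 
(.nd (nat_lit 7) (.nd (nat_lit 9) 
(.lf (nat_lit 3288795422) (dlOf (nat_lit 2) (nat_lit 0x8009000000040008004000400080f4b82))) 
(.lf (nat_lit 2885879582) (dlOf (nat_lit 1) (nat_lit 0x40018143c81)))) 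
(.lf (nat_lit 2754547102) (dlOf (nat_lit 1) (nat_lit 0x100080008002000600080f6d03)))))) 
(.nd (nat_lit 27) (.nd (nat_lit 7) (.nd (nat_lit 8) (.nd (nat_lit 11) 
(.lf (nat_lit 69928030) (dlOf (nat_lit 1) (nat_lit 0x20018e12901))) 
(.lf (nat_lit 6509759582) (dlOf (nat_lit 1) (nat_lit 0x10008000c00200060008146083)))) 
(.lf (nat_lit 2751924062) (dlOf (nat_lit 1) (nat_lit 0x400400020018003f82)))) (.nd (nat_lit 8) 
(.nd (nat_lit 10) 
(.lf (nat_lit 68354270) (dlOf (nat_lit 1) (nat_lit 0x80008004000200120008570583))) 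
(.lf (nat_lit 604439774) (dlOf (nat_lit 1) (nat_lit 0x40028282e01)))) 
(.lf (nat_lit 2751923166) (dlOf (nat_lit 1) (nat_lit 0x60008000800200120008002883))))) 
(.nd (nat_lit 11) (.nd (nat_lit 9) (.nd (nat_lit 18) 
(.lf (nat_lit 4496490590) (dlOf (nat_lit 2) (nat_lit 0x7003c0078016000150400060008090701))) 
(.lf (nat_lit 738656350) (dlOf (nat_lit 3) (nat_lit 0x1015001780a40002a08015c082005c040000090280d0700)))) 
(.lf (nat_lit 6643974750) (dlOf (nat_lit 1) (nat_lit 0x200180b1701)))) (.nd (nat_lit 7) 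
(.lf (nat_lit 6107105630) (dlOf (nat_lit 1) (nat_lit 0x400400020008094e82))) 
(.lf (nat_lit 2885880030) (dlOf (nat_lit 2) (nat_lit 0x40000000d0200340018144a81))))))) 
(.nd (nat_lit 27) (.nd (nat_lit 30) (.nd (nat_lit 11) (.nd (nat_lit 6) (.nd (nat_lit 18) 
(.lf (nat_lit 4630708254) (dlOf (nat_lit 1) (nat_lit 0x400400020008090002))) 
(.lf (nat_lit 3020357662) (dlOf (nat_lit 1) (nat_lit 0x400400020008290682)))) 
(.lf (nat_lit 872613086) (dlOf (nat_lit 1) (nat_lit 0x10008000800200020008092e03)))) 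
(.nd (nat_lit 6) (.nd (nat_lit 8) 
(.lf (nat_lit 4630710942) (dlOf (nat_lit 1) (nat_lit 0x400400020008095582))) 
(.lf (nat_lit 4630711198) (dlOf (nat_lit 1) (nat_lit 0x620018095c81)))) 
(.lf (nat_lit 4630710750) (dlOf (nat_lit 1) (nat_lit 0x400400020008094e82))))) (.nd (nat_lit 31) 
(.nd (nat_lit 6) (.nd (nat_lit 29) 
(.lf (nat_lit 5704450078) (dlOf (nat_lit 5) (nat_lit 0x21c03000fc0080001d82005500c00005c0800080600002a0402bc0300001202008c0028080101))) 
(.lf (nat_lit 1946353694) (dlOf (nat_lit 1) (nat_lit 0x8c00400140018030902)))) 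
(.lf (nat_lit 5704450142) (dlOf (nat_lit 5) (nat_lit 0x5001c0005e04000800e0002d02000c00f0000781003700c800000080040008017400200040008080703)))) 
(.nd (nat_lit 10) (.nd (nat_lit 18) 
(.lf (nat_lit 3557490718) (dlOf (nat_lit 2) (nat_lit 0x901a002c340800a0008005c002001c0008220683))) 
(.lf (nat_lit 3557228574) (dlOf (nat_lit 1) (nat_lit 0x360028170101)))) (.nd (nat_lit 6) 
(.lf (nat_lit 4094626846) (dlOf (nat_lit 1) (nat_lit 0x20028056001))) 
(.lf (nat_lit 3556972382) (dlOf (nat_lit 2) (nat_lit 0x180e00094004008c0040036000812a302))))))) 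
(.nd (nat_lit 20) (.nd (nat_lit 19) (.nd (nat_lit 6) (.nd (nat_lit 7) 
(.lf (nat_lit 4764925982) (dlOf (nat_lit 1) (nat_lit 0x400400020008090002))) 
(.lf (nat_lit 4228055454) (dlOf (nat_lit 1) (nat_lit 0x60008011c00200320008016b83)))) 
(.lf (nat_lit 469959134) (dlOf (nat_lit 1) (nat_lit 0x48008002800200120008017d03)))) 
(.nd (nat_lit 18) (.nd (nat_lit 21) 
(.lf (nat_lit 4228579358) (dlOf (nat_lit 2) (nat_lit 0x12900c800366040034004008e0008100482))) 
(.lf (nat_lit 472580126) (dlOf (nat_lit 2) (nat_lit 0x5e07c0001b0189c0100)))) 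
(.lf (nat_lit 6376325150) (dlOf (nat_lit 1) (nat_lit 0x800803bc00200940008090003))))) 
(.nd (nat_lit 6) (.nd (nat_lit 8) (.nd (nat_lit 9) 
(.lf (nat_lit 473890846) (dlOf (nat_lit 13) (nat_lit 0xe14300070668000d8100ad850c0274276008c139010c0668000bc20105850c0005c04006028600220cd0001682003c0a180008c080bd850c0003c0400342860001b020010143000a09d800403340002e0c05f0286018e13b010b0668000581801b850c033c27602480cd0000703003f09d802e83340001608000428600020cd00005028fc0100))) 
(.lf (nat_lit 473629214) (dlOf (nat_lit 1) (nat_lit 0xc0008f68701)))) 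
(.lf (nat_lit 1008403742) (dlOf (nat_lit 1) (nat_lit 0x20028bb3101)))) (.nd (nat_lit 7) 
(.lf (nat_lit 473890910) (dlOf (nat_lit 5) (nat_lit 0x1214c0000581005e0a6002a835c000120804c01ae0000802015614c00ae06b8000001000880080004002000a0008fc0883))) 
(.lf (nat_lit 1008403678) (dlOf (nat_lit 1) (nat_lit 0x20028bb2e01))))))))) (.nd (nat_lit 18) 
(.nd (nat_lit 26) (.nd (nat_lit 6) (.nd (nat_lit 29) (.nd (nat_lit 22) (.nd (nat_lit 23) 
(.nd (nat_lit 20) (.nd (nat_lit 24) 
(.lf (nat_lit 3491962910) (dlOf (nat_lit 1) (nat_lit 0x68008002c002000c0008090003))) 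
(.lf (nat_lit 52633630) (dlOf (nat_lit 3) (nat_lit 0x8cea40006c8100016748002700800e8008006400200300009560603)))) 
(.lf (nat_lit 3490914334) (dlOf (nat_lit 1) (nat_lit 0x80028030901)))) (.nd (nat_lit 19) 
(.nd (nat_lit 21) (.lf (nat_lit 8593438) (dlOf (nat_lit 1) (nat_lit 0x20028510001))) 
(.lf (nat_lit 10690590) (dlOf (nat_lit 1) (nat_lit 0x400200020008610682)))) 
(.lf (nat_lit 45817886) (dlOf (nat_lit 2) (nat_lit 0x609ca0003c0200060019360101))))) 
(.nd (nat_lit 19) (.nd (nat_lit 20) 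
(.lf (nat_lit 63119390) (dlOf (nat_lit 1) (nat_lit 0xc004000200099e0102))) 
(.lf (nat_lit 22224926) (dlOf (nat_lit 1) (nat_lit 0x40018aa0b81)))) (.nd (nat_lit 8) 
(.nd (nat_lit 23) 
(.lf (nat_lit 21700638) (dlOf (nat_lit 8) (nat_lit 0x75ed5006976a003a3b4c01b1da402d5ed0015ff678003fb340087d4802d8ea18007f44801c76a00043b4c0005da40246ed001237678034ba900491d43000fe07000aed50004f6a0005bb4c047dda0023eecf0120f50c003f6180133b50000fda60279ed00138f678025fa9004f9d43000fd06000500000057c0812ff5cc074bae206ec000000ae0300050000004e008061000801dc00200560008a60a83))) 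
(.lf (nat_lit 13312030) (dlOf (nat_lit 1) (nat_lit 0x70008000400200020008710b03)))) 
(.lf (nat_lit 46866718) (dlOf (nat_lit 1) (nat_lit 0x1a0019380a81)))))) (.nd (nat_lit 11) 
(.nd (nat_lit 27) (.nd (nat_lit 30) 
(.lf (nat_lit 2952994846) (dlOf (nat_lit 10) (nat_lit 0x601c016200200b4000c000b40c05f00080005902015e0040002c01015d00200015c0806e0010000ac04007004e0004b02030000401810018000141009e801004f4006000040402b000401600018000081000a8008001800200040008080583))) 
(.lf (nat_lit 6174220318) (dlOf (nat_lit 1) (nat_lit 0x1500080004002001c0008090103)))) 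
(.nd (nat_lit 12) 
(.lf (nat_lit 5234696222) (dlOf (nat_lit 9) (nat_lit 0x50084003c0040018060001d602000a030000ea8100020180007480800100c0003a2040004060001ce020006030000e60100020180007280800680080038002003000080a0a83))) 
(.lf (nat_lit 2818781214) (dlOf (nat_lit 1) (nat_lit 0x400400020008127a82))))) (.nd (nat_lit 7) 
(.nd (nat_lit 27) (.lf (nat_lit 537078046) (dlOf (nat_lit 1) (nat_lit 0x10e0028004b81))) 
(.lf (nat_lit 671295774) (dlOf (nat_lit 1) (nat_lit 0x240028144b81)))) 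
(.lf (nat_lit 1745037982) (dlOf (nat_lit 1) (nat_lit 0x400400040018095582)))))) (.nd (nat_lit 7) 
(.nd (nat_lit 8) (.nd (nat_lit 11) (.nd (nat_lit 9) 
(.lf (nat_lit 17506398) (dlOf (nat_lit 1) (nat_lit 0x600088e0481))) 
(.lf (nat_lit 3355653726) (dlOf (nat_lit 2) (nat_lit 0x180000182604001c002003000080a9c02)))) 
(.nd (nat_lit 22) 
(.lf (nat_lit 5503134302) (dlOf (nat_lit 1) (nat_lit 0x8008000400200020008095383))) 
(.lf (nat_lit 46344798) (dlOf (nat_lit 1) (nat_lit 0x20009385381))))) (.nd (nat_lit 9) 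
(.nd (nat_lit 11) (.lf (nat_lit 1253726) (dlOf (nat_lit 1) (nat_lit 0x2800080a4e81))) 
(.lf (nat_lit 8075614) (dlOf (nat_lit 1) (nat_lit 0x100020002000851ab82)))) 
(.lf (nat_lit 8599390) (dlOf (nat_lit 1) (nat_lit 0x2001851a301))))) (.nd (nat_lit 8) 
(.nd (nat_lit 10) (.nd (nat_lit 20) 
(.lf (nat_lit 7020766) (dlOf (nat_lit 1) (nat_lit 0x4004000200084b0582))) 
(.lf (nat_lit 5972190) (dlOf (nat_lit 1) (nat_lit 0x400400020008420582)))) 
(.lf (nat_lit 53159134) (dlOf (nat_lit 1) (nat_lit 0x20029572e01)))) (.nd (nat_lit 9) 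
(.nd (nat_lit 10) 
(.lf (nat_lit 8069598) (dlOf (nat_lit 1) (nat_lit 0x4c00080424002021e0008511283))) 
(.lf (nat_lit 3624087006) (dlOf (nat_lit 1) (nat_lit 0x400400020008146e02)))) 
(.lf (nat_lit 2818784222) (dlOf (nat_lit 1) (nat_lit 0x80020002000812bf02))))))) (.nd (nat_lit 28) 
(.nd (nat_lit 29) (.nd (nat_lit 11) (.nd (nat_lit 6) (.nd (nat_lit 30) 
(.lf (nat_lit 4496498718) (dlOf (nat_lit 1) (nat_lit 0x24800800ec002007e0008090103))) 
(.lf (nat_lit 5570240542) (dlOf (nat_lit 1) (nat_lit 0x1500080004002001c0008090103)))) 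
(.lf (nat_lit 4496498782) (dlOf (nat_lit 8) (nat_lit 0x4b4038037c01b00c800d0130003c116c016055a00702000000000543803c80700100036003a00f0113005802600000002814048803c07b001c046b00d81f3006810c803000a401700a400480004838021807005580360001104018e01c014e00d80040060000200c0098038011c00b0000282007100580000c081420008057400202fa0008090703)))) 
(.nd (nat_lit 7) (.nd (nat_lit 8) 
(.lf (nat_lit 1141058590) (dlOf (nat_lit 7) (nat_lit 0x9500980005804018804c0002b020020025000a0120000a41000280980005004001404c000210200fe0260000e018096000))) 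
(.lf (nat_lit 1141058334) (dlOf (nat_lit 1) (nat_lit 0x20008001000200080008095c03)))) 
(.lf (nat_lit 1141058206) (dlOf (nat_lit 1) (nat_lit 0x200080030002000c0008095583))))) 
(.nd (nat_lit 30) (.nd (nat_lit 20) (.nd (nat_lit 32) 
(.lf (nat_lit 604184606) (dlOf (nat_lit 6) (nat_lit 0x5b80440008e040460022000c00e0002102011f0088001000801700580007e040004000000390200ea0008080581))) 
(.lf (nat_lit 4899151902) (dlOf (nat_lit 1) (nat_lit 0x4004000200080a0a82)))) 
(.lf (nat_lit 2752716830) (dlOf (nat_lit 1) (nat_lit 0x80028030901)))) (.nd (nat_lit 6) 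
(.lf (nat_lit 3825410462) (dlOf (nat_lit 1) (nat_lit 0x160018156b81))) (.nd (nat_lit 8) 
(.lf (nat_lit 6107114078) (dlOf (nat_lit 1) (nat_lit 0x20028095381))) 
(.lf (nat_lit 3825410398) (dlOf (nat_lit 4) (nat_lit 0x3e0220024005002c0000000500c009801400ae0000001302002b005000094080130008015800200340008154e83))))))) 
(.nd (nat_lit 8) (.nd (nat_lit 7) (.nd (nat_lit 12) (.nd (nat_lit 19) 
(.lf (nat_lit 3691192350) (dlOf (nat_lit 4) (nat_lit 0x13803a0005a02008401d0002c81001e00e80015c0800d8008005c002001c00080a0583))) 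
(.lf (nat_lit 472588318) (dlOf (nat_lit 2) (nat_lit 0x6011a006608c0001b0289c0100)))) 
(.lf (nat_lit 3556978718) (dlOf (nat_lit 1) (nat_lit 0x400400020008127a82)))) (.nd (nat_lit 11) 
(.lf (nat_lit 4095943838) (dlOf (nat_lit 1) (nat_lit 0x4004000200080e2b82))) 
(.lf (nat_lit 1409494174) (dlOf (nat_lit 1) (nat_lit 0x20028006281))))) (.nd (nat_lit 6) 
(.nd (nat_lit 10) (.lf (nat_lit 3556978974) (dlOf (nat_lit 1) (nat_lit 0x980028128081))) 
(.lf (nat_lit 4764935454) (dlOf (nat_lit 1) (nat_lit 0x400400020008093102)))) (.nd (nat_lit 7) 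
(.lf (nat_lit 3556978526) (dlOf (nat_lit 1) (nat_lit 0xc00400040008127782))) 
(.lf (nat_lit 4094372830) (dlOf (nat_lit 1) (nat_lit 0xc00400020018055e02)))))))) (.nd (nat_lit 19) 
(.nd (nat_lit 28) (.nd (nat_lit 6) (.nd (nat_lit 26) (.nd (nat_lit 7) (.nd (nat_lit 20) 
(.lf (nat_lit 21438494) (dlOf (nat_lit 1) (nat_lit 0x800400040008a40102))) 
(.lf (nat_lit 49750046) (dlOf (nat_lit 1) (nat_lit 0x1200194a0101)))) 
(.lf (nat_lit 8857502) (dlOf (nat_lit 1) (nat_lit 0x1e0028514281)))) (.nd (nat_lit 7) 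
(.nd (nat_lit 27) 
(.lf (nat_lit 4362543134) (dlOf (nat_lit 1) (nat_lit 0x2e80080004002001e0008090003))) 
(.lf (nat_lit 2886148126) (dlOf (nat_lit 17) (nat_lit 0x6e000000564080f800dc079c000001580403fe03701f500000055c1001380dc00500000015604010c03700a20000005541006e00dc03ac00000151040034000000a381005e0000005180803680000028a0404300000014202016e000000a081000501a80088000002800800480000013f0200e60000009f0100ce0000004d00801080000000004014800200100008170902)))) 
(.lf (nat_lit 4362543262) (dlOf (nat_lit 1) (nat_lit 0x400400060018090202))))) (.nd (nat_lit 9) 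
(.nd (nat_lit 20) 
(.lf (nat_lit 21438558) (dlOf (nat_lit 6) (nat_lit 0xfdaa0003ed40000f680000ba880011d430001a050008ed5000276a00013b4c000fda00008ea180007c28006f6a00003c040013b540001c020067d7d005de5e002ef2ec012b66c0087b32005d66680005430015000800c000200040008a40703))) 
(.lf (nat_lit 3612766) (dlOf (nat_lit 1) (nat_lit 0x20018211301)))) 
(.lf (nat_lit 20395614) (dlOf (nat_lit 1) (nat_lit 0x200189d9c01))))) (.nd (nat_lit 26) 
(.nd (nat_lit 6) (.nd (nat_lit 9) (.nd (nat_lit 27) 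
(.lf (nat_lit 5637611550) (dlOf (nat_lit 7) (nat_lit 0x2c03400060170010102000d0068007e8080010034003f004000c0480006021000f582000301200018084000803e001e106000200e0009c018120a80))) 
(.lf (nat_lit 3624345630) (dlOf (nat_lit 17) (nat_lit 0x6e000000578080f800dc079c0000015d0403fe03701f50000005701001380dc00500000015b04010c03700a20000005681006e00dc03ac00000156040034000000a381005e0000005180803680000028a0404300000014202016e000000a081000501a80088000002800800480000013f0200e60000009f0100ce0000004d00801080000000004014800200100008170902)))) 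
(.lf (nat_lit 2416386590) (dlOf (nat_lit 1) (nat_lit 0x3a00081b0d81)))) 
(.lf (nat_lit 3490135390) (dlOf (nat_lit 1) (nat_lit 0x10c0040072000800c902)))) (.nd (nat_lit 29) 
(.nd (nat_lit 9) (.lf (nat_lit 3557236766) (dlOf (nat_lit 1) (nat_lit 0xe0028170101))) 
(.lf (nat_lit 1409753630) (dlOf (nat_lit 1) (nat_lit 0x1b000201540008090d82)))) (.nd (nat_lit 7) 
(.lf (nat_lit 6241591326) (dlOf (nat_lit 7) (nat_lit 0x3401a001e802000400d000f301000b00d0001805c003c008000c04a0006021000eb02000301280018084000803e001cc06000200e0009c018120a80))) 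
(.lf (nat_lit 4228325534) (dlOf (nat_lit 1) (nat_lit 0x400400060018090202))))))) (.nd (nat_lit 20) 
(.nd (nat_lit 28) (.nd (nat_lit 10) (.nd (nat_lit 6) 
(.lf (nat_lit 21962782) (dlOf (nat_lit 1) (nat_lit 0x40028a80901))) 
(.lf (nat_lit 30351454) (dlOf (nat_lit 1) (nat_lit 0x60008e30481)))) (.nd (nat_lit 8) 
(.lf (nat_lit 34546782) (dlOf (nat_lit 1) (nat_lit 0x40028fb2901))) 
(.lf (nat_lit 19869534) (dlOf (nat_lit 1) (nat_lit 0x600289d7781))))) (.nd (nat_lit 7) 
(.nd (nat_lit 10) (.nd (nat_lit 29) 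
(.lf (nat_lit 470753310) (dlOf (nat_lit 1) (nat_lit 0x160028170101))) 
(.lf (nat_lit 6376333342) (dlOf (nat_lit 1) (nat_lit 0x8008000400200020008090003)))) 
(.lf (nat_lit 4094635038) (dlOf (nat_lit 1) (nat_lit 0x400400080008056002)))) (.nd (nat_lit 8) 
(.lf (nat_lit 3492751518) (dlOf (nat_lit 3) (nat_lit 0xa02400020100000a810002808000032040040002003000080f4802))) 
(.lf (nat_lit 3490652574) (dlOf (nat_lit 1) (nat_lit 0x400200020008016b82)))))) (.nd (nat_lit 6) 
(.nd (nat_lit 21) (.nd (nat_lit 8) 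
(.lf (nat_lit 52371486) (dlOf (nat_lit 1) (nat_lit 0x7800200020009530102))) 
(.lf (nat_lit 2040094) (dlOf (nat_lit 2) (nat_lit 0x34c10001d40800d0008000400200020008150483)))) 
(.nd (nat_lit 7) 
(.lf (nat_lit 473899038) (dlOf (nat_lit 7) (nat_lit 0x17a14300720668000c41000b03340006004031428602460cd0001702001e066800078080d4050c090419a0001704001e1430018066800058100cb0008028400206bc0008fc0103))) 
(.lf (nat_lit 41886878) (dlOf (nat_lit 2) (nat_lit 0x1c521000220080070008000c00200360009242b83))))) 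
(.nd (nat_lit 7) (.lf (nat_lit 5773402206) (dlOf (nat_lit 1) (nat_lit 0x800180d1901))) 
(.nd (nat_lit 11) 
(.lf (nat_lit 6234334) (dlOf (nat_lit 2) (nat_lit 0x3392800154080008008000400200040008420583))) 
(.lf (nat_lit 8333534) (dlOf (nat_lit 1) (nat_lit 0x60018514a81)))))))))) (.nd (nat_lit 13) 
(.nd (nat_lit 28) (.nd (nat_lit 19) (.nd (nat_lit 29) (.nd (nat_lit 24) (.nd (nat_lit 7) 
(.nd (nat_lit 18) (.nd (nat_lit 26) 
(.lf (nat_lit 134447134) (dlOf (nat_lit 2) (nat_lit 0x5402f000c4818020480))) 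
(.lf (nat_lit 4362305566) (dlOf (nat_lit 2) (nat_lit 0x68158008c0a80020043000101580062c200120008016400200120008020483)))) 
(.nd (nat_lit 20) 
(.lf (nat_lit 6510051358) (dlOf (nat_lit 2) (nat_lit 0x18054000ac04000400200020008190b82))) 
(.lf (nat_lit 37191710) (dlOf (nat_lit 1) (nat_lit 0x400080028002001400090b0103))))) 
(.nd (nat_lit 9) (.nd (nat_lit 10) 
(.lf (nat_lit 2349039774) (dlOf (nat_lit 2) (nat_lit 0xa00400027c040034004000e0008090202))) 
(.lf (nat_lit 42173598) (dlOf (nat_lit 2) (nat_lit 0x12a9080011004000800200060009242b82)))) 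
(.lf (nat_lit 36932254) (dlOf (nat_lit 1) (nat_lit 0x1400200020009075582))))) (.nd (nat_lit 6) 
(.nd (nat_lit 21) (.nd (nat_lit 25) 
(.lf (nat_lit 29589534) (dlOf (nat_lit 1) (nat_lit 0x20018e20681))) 
(.lf (nat_lit 63143966) (dlOf (nat_lit 1) (nat_lit 0x600199e0101)))) 
(.lf (nat_lit 52658206) (dlOf (nat_lit 3) (nat_lit 0x21c5e007ccea000b00200107180003640801280080004002006c0009560603)))) 
(.nd (nat_lit 7) (.nd (nat_lit 9) (.nd (nat_lit 18) 
(.lf (nat_lit 32735326) (dlOf (nat_lit 1) (nat_lit 0x8008000400200020008f01983))) 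
(.lf (nat_lit 21463134) (dlOf (nat_lit 4) (nat_lit 0x2014500130a1800884e4002c26800240e900030380000d030008051400142840022139000e09a000983a40003e140075392002e96f00174b680138454003404e000150a00060018a40701)))) 
(.lf (nat_lit 54757982) (dlOf (nat_lit 1) (nat_lit 0xa0002001e0009655382)))) (.nd (nat_lit 8) 
(.lf (nat_lit 17006814) (dlOf (nat_lit 1) (nat_lit 0x800288e0581))) 
(.lf (nat_lit 20420062) (dlOf (nat_lit 1) (nat_lit 0x4002000200089d9b02))))))) (.nd (nat_lit 18) 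
(.nd (nat_lit 6) (.nd (nat_lit 7) (.nd (nat_lit 8) (.nd (nat_lit 26) 
(.lf (nat_lit 4832067614) (dlOf (nat_lit 1) (nat_lit 0x80080004002000200080d0003))) 
(.lf (nat_lit 4899176478) (dlOf (nat_lit 1) (nat_lit 0x4004000200080d0002)))) 
(.lf (nat_lit 5033395486) (dlOf (nat_lit 1) (nat_lit 0x60018093101)))) 
(.lf (nat_lit 4899179166) (dlOf (nat_lit 1) (nat_lit 0x4004000200080d5582)))) (.nd (nat_lit 7) 
(.lf (nat_lit 4899178846) (dlOf (nat_lit 1) (nat_lit 0x800801fc002009a00080d4e83))) 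
(.nd (nat_lit 8) 
(.lf (nat_lit 2818806494) (dlOf (nat_lit 1) (nat_lit 0x8008000c00200060008128c83))) 
(.lf (nat_lit 4899178974) (dlOf (nat_lit 1) (nat_lit 0xe00080010002000a00080d4e83)))))) 
(.nd (nat_lit 26) (.nd (nat_lit 27) (.nd (nat_lit 32) 
(.lf (nat_lit 1611104286) (dlOf (nat_lit 1) (nat_lit 0x8002000200080e0602))) 
(.lf (nat_lit 5906071582) (dlOf (nat_lit 2) (nat_lit 0x18054000ac04000400200020008190b82)))) 
(.lf (nat_lit 2819063838) (dlOf (nat_lit 1) (nat_lit 0x60018190701)))) (.nd (nat_lit 21) 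
(.lf (nat_lit 738689054) (dlOf (nat_lit 1) (nat_lit 0x8002000200080e0602))) 
(.lf (nat_lit 2754052126) (dlOf (nat_lit 1) (nat_lit 0x2000180b0981))))))) (.nd (nat_lit 21) 
(.nd (nat_lit 18) (.nd (nat_lit 22) (.nd (nat_lit 9) 
(.lf (nat_lit 537624606) (dlOf (nat_lit 10) (nat_lit 0xe80b400dc057000e01980110088008003e0023c0a010405d007f02d0043815c05980a40290033005f011002d807c004661c01080660023202010c05d008402d0046815c05a00a4029c03300610110008c4300eb017405d00b4039a0570252029014000cc016c05602f6022017a00f806700000045e24033406600f8000001168200410198008b00805300cc0045604026c0660000002006600280e0481))) 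
(.lf (nat_lit 754206) (dlOf (nat_lit 1) (nat_lit 0x20018018701)))) (.nd (nat_lit 6) 
(.nd (nat_lit 7) (.nd (nat_lit 24) 
(.lf (nat_lit 4947998) (dlOf (nat_lit 1) (nat_lit 0x2a00282d0101))) 
(.lf (nat_lit 21725214) (dlOf (nat_lit 5) (nat_lit 0x1e145001b0748007f41002303a4003f80400ec28a00240e9000fd02012d09d800204a8002b808023800400020008a60a82)))) 
(.lf (nat_lit 38503582) (dlOf (nat_lit 1) (nat_lit 0x8008000400200020009132b83)))) 
(.lf (nat_lit 14385502) (dlOf (nat_lit 1) (nat_lit 0x400200020008750902))))) (.nd (nat_lit 20) 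
(.nd (nat_lit 22) (.nd (nat_lit 23) 
(.lf (nat_lit 68124702) (dlOf (nat_lit 1) (nat_lit 0x8008015c002004e0008400103))) 
(.lf (nat_lit 9404446) (dlOf (nat_lit 1) (nat_lit 0x20028550501)))) 
(.lf (nat_lit 21987358) (dlOf (nat_lit 6) (nat_lit 0x7f68780092808031343c00492040425a1e002470200a6d0f0012281004d6878007f4080080008001400200020008a80903)))) 
(.nd (nat_lit 6) (.lf (nat_lit 56591518) (dlOf (nat_lit 1) (nat_lit 0x38008001800200020009732b83))) 
(.lf (nat_lit 2064734) (dlOf (nat_lit 1) (nat_lit 0x1000400040008150682)))))) (.nd (nat_lit 6) 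
(.nd (nat_lit 7) (.nd (nat_lit 8) (.nd (nat_lit 9) 
(.lf (nat_lit 3899422) (dlOf (nat_lit 1) (nat_lit 0x400400020018250b02))) 
(.lf (nat_lit 8101406) (dlOf (nat_lit 1) (nat_lit 0x2002851cf01)))) 
(.lf (nat_lit 61572382) (dlOf (nat_lit 1) (nat_lit 0x8008000400200020009923103)))) (.nd (nat_lit 9) 
(.lf (nat_lit 48990622) (dlOf (nat_lit 1) (nat_lit 0x20019464e81))) 
(.lf (nat_lit 19893150) (dlOf (nat_lit 1) (nat_lit 0x26a00189d5c81))))) (.nd (nat_lit 7) 
(.nd (nat_lit 8) (.lf (nat_lit 46107230) (dlOf (nat_lit 1) (nat_lit 0x40002000c0009385382))) 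
(.lf (nat_lit 23822686) (dlOf (nat_lit 1) (nat_lit 0x20008b80681)))) (.nd (nat_lit 8) 
(.nd (nat_lit 9) 
(.lf (nat_lit 16744670) (dlOf (nat_lit 5) (nat_lit 0x109ca0005302000c809000b2c9000113cc001c9ca000e4d30001a8500024080002966400189d0000c49f000124f00008428005935c0003a040040004002c00188e0582))) 
(.lf (nat_lit 8098526) (dlOf (nat_lit 1) (nat_lit 0x8008000400200020008518c83)))) 
(.lf (nat_lit 8095198) (dlOf (nat_lit 1) (nat_lit 0x400200020008513602)))))))) (.nd (nat_lit 27) 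
(.nd (nat_lit 29) (.nd (nat_lit 18) (.nd (nat_lit 6) (.nd (nat_lit 19) (.nd (nat_lit 7) 
(.lf (nat_lit 1342406686) (dlOf (nat_lit 5) (nat_lit 0x5c0e680069c0800d07340034404022039a0018b0200b81cd000c4818020480))) 
(.lf (nat_lit 1409515934) (dlOf (nat_lit 1) (nat_lit 0x10008000400200020008016b83)))) 
(.nd (nat_lit 31) 
(.lf (nat_lit 1410039838) (dlOf (nat_lit 10) (nat_lit 0xe80b400dc057000e01980110088008003e0023c0a010405d007f02d0043815c05980a40290033005f011002d807c004661c01080660023202010c05d008402d0046815c05a00a4029c03300610110008c4300eb017405d00b4039a0570252029014000cc016c05602f6022017a00f806700000045e24033406600f8000001168200410198008b00805300cc0045604026c0660000002006600280e0481))) 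
(.lf (nat_lit 3557523486) (dlOf (nat_lit 1) (nat_lit 0x6400400020008240682))))) (.nd (nat_lit 8) 
(.lf (nat_lit 4563632222) (dlOf (nat_lit 1) (nat_lit 0x70008000c002001a00080a1983))) 
(.lf (nat_lit 1409515870) (dlOf (nat_lit 2) (nat_lit 0x400000011818014e80))))) (.nd (nat_lit 9) 
(.nd (nat_lit 19) (.lf (nat_lit 3492249630) (dlOf (nat_lit 1) (nat_lit 0x2000180b0981))) 
(.nd (nat_lit 21) (.lf (nat_lit 1343193118) (dlOf (nat_lit 1) (nat_lit 0x20008190101))) 
(.lf (nat_lit 1345290270) (dlOf (nat_lit 1) (nat_lit 0x400400020008b50002))))) (.nd (nat_lit 6) 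
(.nd (nat_lit 7) (.lf (nat_lit 1409778206) (dlOf (nat_lit 1) (nat_lit 0xbc004002a0008090d82))) 
(.lf (nat_lit 1345292958) (dlOf (nat_lit 1) (nat_lit 0x20028b55581)))) (.nd (nat_lit 7) 
(.lf (nat_lit 3492775774) (dlOf (nat_lit 1) (nat_lit 0x70004000400080f3f82))) 
(.lf (nat_lit 3492774878) (dlOf (nat_lit 1) (nat_lit 0x4002000200080f2882))))))) (.nd (nat_lit 6) 
(.nd (nat_lit 7) (.nd (nat_lit 9) 
(.lf (nat_lit 5100503070) (dlOf (nat_lit 1) (nat_lit 0x80080004002000200080d0003))) 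
(.nd (nat_lit 30) (.lf (nat_lit 805536286) (dlOf (nat_lit 1) (nat_lit 0x6800200020008127f02))) 
(.lf (nat_lit 4026761758) (dlOf (nat_lit 1) (nat_lit 0x40008090d81))))) (.nd (nat_lit 8) 
(.lf (nat_lit 5100505758) (dlOf (nat_lit 1) (nat_lit 0x4004000200080d5582))) 
(.lf (nat_lit 5100506014) (dlOf (nat_lit 1) (nat_lit 0x8800180d5c81))))) (.nd (nat_lit 30) 
(.nd (nat_lit 7) (.nd (nat_lit 11) 
(.lf (nat_lit 805536094) (dlOf (nat_lit 1) (nat_lit 0x2000400100008124e82))) 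
(.lf (nat_lit 5100505438) (dlOf (nat_lit 1) (nat_lit 0x80080008002000200080d4e83)))) 
(.lf (nat_lit 5100505566) (dlOf (nat_lit 1) (nat_lit 0x80080008002000200080d4e83)))) 
(.nd (nat_lit 8) (.nd (nat_lit 21) 
(.lf (nat_lit 1879801950) (dlOf (nat_lit 1) (nat_lit 0x20008370481))) 
(.lf (nat_lit 4096491614) (dlOf (nat_lit 3) (nat_lit 0xf50150000540806680a80002404001800200120008120702)))) 
(.lf (nat_lit 1879277918) (dlOf (nat_lit 3) (nat_lit 0x3c02c0000b4080070160007c09e0001704000200180c0681))))))) 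
(.nd (nat_lit 30) (.nd (nat_lit 21) (.nd (nat_lit 6) (.nd (nat_lit 10) (.nd (nat_lit 19) 
(.nd (nat_lit 26) (.lf (nat_lit 5234720798) (dlOf (nat_lit 1) (nat_lit 0x4004000200080d0002))) 
(.lf (nat_lit 469991454) (dlOf (nat_lit 5) (nat_lit 0x950e680046c0800f87340022c0401a439a000fb0201021cd0007c018020480)))) 
(.lf (nat_lit 3154870302) (dlOf (nat_lit 1) (nat_lit 0x400400020008360482)))) (.nd (nat_lit 7) 
(.lf (nat_lit 474187038) (dlOf (nat_lit 1) (nat_lit 0x400290e3101))) 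
(.lf (nat_lit 5301830814) (dlOf (nat_lit 1) (nat_lit 0x10008001c002000a0008092b83))))) 
(.nd (nat_lit 7) 
(.lf (nat_lit 1006862686) (dlOf (nat_lit 3) (nat_lit 0x3c02c0000b4080070160007c09e0001704000200180c0681))) 
(.nd (nat_lit 8) 
(.lf (nat_lit 474186974) (dlOf (nat_lit 2) (nat_lit 0x100b900010c08008000800d0002003000090e2e03))) 
(.lf (nat_lit 5301830622) (dlOf (nat_lit 2) (nat_lit 0x8022009070200020018092881)))))) 
(.nd (nat_lit 6) (.nd (nat_lit 18) (.nd (nat_lit 29) 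
(.lf (nat_lit 472612894) (dlOf (nat_lit 2) (nat_lit 0x642c0015e08d008303e801c01f00006c100004004000200089c0102))) 
(.lf (nat_lit 1009483806) (dlOf (nat_lit 2) (nat_lit 0x3b8384000c112003c0730001d8391a0100)))) 
(.nd (nat_lit 7) (.lf (nat_lit 472875038) (dlOf (nat_lit 1) (nat_lit 0x400400020008b50002))) 
(.lf (nat_lit 472350878) (dlOf (nat_lit 1) (nat_lit 0x140008980501))))) (.nd (nat_lit 19) 
(.lf (nat_lit 472350814) (dlOf (nat_lit 1) (nat_lit 0x180018980081))) 
(.lf (nat_lit 472875102) (dlOf (nat_lit 1) (nat_lit 0x1a0018b50081)))))) (.nd (nat_lit 8) 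
(.nd (nat_lit 19) (.nd (nat_lit 7) (.nd (nat_lit 26) 
(.lf (nat_lit 1476624414) (dlOf (nat_lit 4) (nat_lit 0x10007000900000011c1004e005c02c000e00280000001f8300360000000e4080008008019000200c000080a0583))) 
(.lf (nat_lit 3691216926) (dlOf (nat_lit 23) (nat_lit 0x9802c0005b0206be01d039f00e0081005809e00080532003007d0000001683000800a00db403a05c401c011400b0142001002f0000000590c025201d016f00b000160101ab807404e402c02a80040002b8301a700e80015808000806c009803000020010002583007000c0003803c001801200e400000021040003017000b00600008208001401e0078000000200200f800a0000fc080840070059802c0002f040122016000170100c000e003300580005a0801480380290016000160202ce00e00aa805800054080de803a0002302052201d0000681038700e81e30070042c02c03cc00402900018000142819b00740db8038022401601940020104800c0000814053803a000601c0000182035800e81cd0070049002c0350004021d00180000828220800815c000203a000080a0583)))) 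
(.lf (nat_lit 3624370334) (dlOf (nat_lit 2) (nat_lit 0xe01d00521818184300)))) (.nd (nat_lit 26) 
(.lf (nat_lit 5773164574) (dlOf (nat_lit 1) (nat_lit 0x4004000200180b0182))) 
(.lf (nat_lit 6377144350) (dlOf (nat_lit 1) (nat_lit 0x4004000200180b0182))))) (.nd (nat_lit 6) 
(.nd (nat_lit 31) 
(.lf (nat_lit 5771854110) (dlOf (nat_lit 1) (nat_lit 0x8008000c00200020008000a83))) 
(.lf (nat_lit 3624370462) (dlOf (nat_lit 1) (nat_lit 0x20008187801)))) (.nd (nat_lit 7) 
(.lf (nat_lit 1543733598) (dlOf (nat_lit 3) (nat_lit 0xb00980040032002200300020000000a02000d009800240320040003000e000801380000004c1400e000200a00008154e82))) 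
(.lf (nat_lit 3624111582) (dlOf (nat_lit 2) (nat_lit 0x2e040000a000000000100108008016800200060008146e03))))))))) 
(.nd (nat_lit 6) (.nd (nat_lit 7) (.nd (nat_lit 19) (.nd (nat_lit 28) (.nd (nat_lit 26) 
(.nd (nat_lit 21) (.nd (nat_lit 8) (.nd (nat_lit 22) 
(.lf (nat_lit 3355680798) (dlOf (nat_lit 1) (nat_lit 0x80080008002000400080c0703))) 
(.lf (nat_lit 21209118) (dlOf (nat_lit 1) (nat_lit 0x20028a20501)))) 
(.lf (nat_lit 43230494) (dlOf (nat_lit 1) (nat_lit 0xc00192a3101)))) (.nd (nat_lit 18) 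
(.lf (nat_lit 44277790) (dlOf (nat_lit 1) (nat_lit 0x12400092e0101))) 
(.lf (nat_lit 36151326) (dlOf (nat_lit 2) (nat_lit 0x1d032400e804c0001d829030100))))) 
(.nd (nat_lit 10) (.nd (nat_lit 29) 
(.lf (nat_lit 5570273310) (dlOf (nat_lit 1) (nat_lit 0x80080004002000200080d0003))) 
(.lf (nat_lit 1812176926) (dlOf (nat_lit 2) (nat_lit 0xc9013005a8088030004201a601c00123848170900)))) 
(.nd (nat_lit 8) (.lf (nat_lit 738438174) (dlOf (nat_lit 1) (nat_lit 0x20018096001))) 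
(.lf (nat_lit 2751702814) (dlOf (nat_lit 1) (nat_lit 0x8008000400200020008003c83)))))) 
(.nd (nat_lit 29) (.nd (nat_lit 18) (.nd (nat_lit 26) 
(.lf (nat_lit 1342414878) (dlOf (nat_lit 4) (nat_lit 0x24855000a040400d848e001a70200ce247000c4818020480))) 
(.lf (nat_lit 5704491038) (dlOf (nat_lit 1) (nat_lit 0x4004000200080d0002)))) (.nd (nat_lit 27) 
(.lf (nat_lit 2416418846) (dlOf (nat_lit 1) (nat_lit 0x680080048002001c00081c0903))) 
(.lf (nat_lit 2550636574) (dlOf (nat_lit 1) (nat_lit 0x680080048002001c00081c0903))))) 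
(.nd (nat_lit 27) (.nd (nat_lit 9) (.nd (nat_lit 18) 
(.lf (nat_lit 6174253086) (dlOf (nat_lit 1) (nat_lit 0x80080004002000200080d0003))) 
(.lf (nat_lit 805806110) (dlOf (nat_lit 2) (nat_lit 0xd02b003550080140008001c002009e00081a0003)))) 
(.lf (nat_lit 4026769950) (dlOf (nat_lit 9) (nat_lit 0x1a80ac007c048012e00d000b60300ca010002e002c0029e080108040000800b0007d8200c2010004f002c001f208010c016000f702017e020009b0058003d4100458100004406400ec0300076014803c008800008140238080014c03000850148044008800002100200004000c0018090d82)))) 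
(.nd (nat_lit 30) 
(.lf (nat_lit 939761694) (dlOf (nat_lit 2) (nat_lit 0xc9013005a8088030004201a601c00117848170900))) 
(.lf (nat_lit 6308470814) (dlOf (nat_lit 1) (nat_lit 0x4004000200080d0002))))))) (.nd (nat_lit 24) 
(.nd (nat_lit 20) (.nd (nat_lit 26) (.nd (nat_lit 8) 
(.lf (nat_lit 537632798) (dlOf (nat_lit 4) (nat_lit 0x5800a4002330202da052001188103530290008bc0803c00080014002002600080e0483))) 
(.lf (nat_lit 134981918) (dlOf (nat_lit 1) (nat_lit 0x4004000200180f4b82)))) (.nd (nat_lit 28) 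
(.lf (nat_lit 67870750) (dlOf (nat_lit 1) (nat_lit 0x8008000400200020008330003))) 
(.lf (nat_lit 1410048030) (dlOf (nat_lit 4) (nat_lit 0x5800a4002330202da052001188103530290008bc0803c00080014002002600080e0483))))) 
(.nd (nat_lit 18) (.lf (nat_lit 8101918) (dlOf (nat_lit 1) (nat_lit 0x400400020008510002))) 
(.lf (nat_lit 10461214) (dlOf (nat_lit 3) (nat_lit 0xd2888001000800f14440007c040090004001c00185e0b82))))) 
(.nd (nat_lit 8) (.nd (nat_lit 18) (.nd (nat_lit 20) 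
(.lf (nat_lit 21733406) (dlOf (nat_lit 5) (nat_lit 0x303a4003fa0400081d2001fc02000c0e9000fd01005309d80057008018000800a400200180008a60a83))) 
(.lf (nat_lit 18587678) (dlOf (nat_lit 1) (nat_lit 0x400200020008950682)))) 
(.lf (nat_lit 59744286) (dlOf (nat_lit 1) (nat_lit 0x60029820101)))) (.nd (nat_lit 12) 
(.nd (nat_lit 10) (.lf (nat_lit 20685086) (dlOf (nat_lit 1) (nat_lit 0x200289d0a81))) 
(.lf (nat_lit 61580574) (dlOf (nat_lit 1) (nat_lit 0x8008000400200020009923103)))) (.nd (nat_lit 9) 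
(.lf (nat_lit 19640606) (dlOf (nat_lit 1) (nat_lit 0x2a00289d8081))) 
(.lf (nat_lit 19643166) (dlOf (nat_lit 1) (nat_lit 0x800080018002000800089dbb83)))))))) 
(.nd (nat_lit 9) (.nd (nat_lit 30) (.nd (nat_lit 11) (.nd (nat_lit 8) 
(.lf (nat_lit 2483265694) (dlOf (nat_lit 2) (nat_lit 0xa004000262040034004000e0008090202))) 
(.nd (nat_lit 27) (.lf (nat_lit 2416157086) (dlOf (nat_lit 1) (nat_lit 0x20028090781))) 
(.lf (nat_lit 2550374814) (dlOf (nat_lit 1) (nat_lit 0x20028090781))))) (.nd (nat_lit 10) 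
(.lf (nat_lit 58698142) (dlOf (nat_lit 1) (nat_lit 0x200197e4e81))) 
(.lf (nat_lit 19643806) (dlOf (nat_lit 3) (nat_lit 0x18b01000cb0100085808006540800a80080038002002c00089dca83))))) 
(.nd (nat_lit 8) (.nd (nat_lit 11) (.nd (nat_lit 28) 
(.lf (nat_lit 5368947870) (dlOf (nat_lit 1) (nat_lit 0x60008092b81))) 
(.lf (nat_lit 5637383326) (dlOf (nat_lit 1) (nat_lit 0x6400280d2b81)))) 
(.lf (nat_lit 3490430110) (dlOf (nat_lit 1) (nat_lit 0x1c0020004000800c202)))) (.nd (nat_lit 18) 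
(.lf (nat_lit 1409524126) (dlOf (nat_lit 1) (nat_lit 0x400200020008016b82))) 
(.lf (nat_lit 3490685342) (dlOf (nat_lit 1) (nat_lit 0xb30008001000200e20008016b83)))))) 
(.nd (nat_lit 8) (.nd (nat_lit 26) (.nd (nat_lit 20) 
(.lf (nat_lit 6308473502) (dlOf (nat_lit 1) (nat_lit 0x4004000200080d5582))) 
(.lf (nat_lit 36940446) (dlOf (nat_lit 1) (nat_lit 0x800200020009075582)))) (.nd (nat_lit 29) 
(.lf (nat_lit 5570275998) (dlOf (nat_lit 1) (nat_lit 0x80080004002000200080d5583))) 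
(.lf (nat_lit 738437790) (dlOf (nat_lit 1) (nat_lit 0x400400020008095582))))) (.nd (nat_lit 11) 
(.nd (nat_lit 20) (.nd (nat_lit 23) 
(.lf (nat_lit 4160992158) (dlOf (nat_lit 1) (nat_lit 0x10004000400080a9102))) 
(.lf (nat_lit 8631198) (dlOf (nat_lit 1) (nat_lit 0x80008519101)))) 
(.lf (nat_lit 20165534) (dlOf (nat_lit 1) (nat_lit 0x200289d9101)))) (.nd (nat_lit 18) 
(.lf (nat_lit 5570276254) (dlOf (nat_lit 1) (nat_lit 0x7400180d5c81))) 
(.lf (nat_lit 19901342) (dlOf (nat_lit 1) (nat_lit 0x2800189d5c81)))))))) (.nd (nat_lit 8) 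
(.nd (nat_lit 21) (.nd (nat_lit 18) (.nd (nat_lit 7) (.nd (nat_lit 9) (.nd (nat_lit 11) 
(.lf (nat_lit 59482206) (dlOf (nat_lit 1) (nat_lit 0x60019800881))) 
(.lf (nat_lit 4228626526) (dlOf (nat_lit 1) (nat_lit 0xe002811a801)))) 
(.lf (nat_lit 4899187294) (dlOf (nat_lit 1) (nat_lit 0x4004000200180d5382)))) (.nd (nat_lit 20) 
(.lf (nat_lit 9150686) (dlOf (nat_lit 1) (nat_lit 0x20018524201))) 
(.lf (nat_lit 6004958) (dlOf (nat_lit 1) (nat_lit 0x38008001000200020008420583))))) 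
(.nd (nat_lit 20) (.nd (nat_lit 7) 
(.lf (nat_lit 2416418910) (dlOf (nat_lit 1) (nat_lit 0x10c00081c1301))) 
(.lf (nat_lit 42968286) (dlOf (nat_lit 1) (nat_lit 0x4004000200092a2e02)))) (.nd (nat_lit 26) 
(.lf (nat_lit 5773434974) (dlOf (nat_lit 1) (nat_lit 0x1600280d1901))) 
(.lf (nat_lit 6377414750) (dlOf (nat_lit 1) (nat_lit 0x200180d1c01)))))) (.nd (nat_lit 18) 
(.nd (nat_lit 7) (.nd (nat_lit 9) (.nd (nat_lit 19) 
(.lf (nat_lit 6529118) (dlOf (nat_lit 2) (nat_lit 0x10000003aa04001000200020008420482))) 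
(.lf (nat_lit 4096499806) (dlOf (nat_lit 2) (nat_lit 0x1402a0000a818120700)))) 
(.lf (nat_lit 19636830) (dlOf (nat_lit 1) (nat_lit 0x200189d1701)))) (.nd (nat_lit 9) 
(.lf (nat_lit 8107230) (dlOf (nat_lit 1) (nat_lit 0x400400020008519502))) 
(.lf (nat_lit 2754850526) (dlOf (nat_lit 1) (nat_lit 0xc00280f7381))))) (.nd (nat_lit 19) 
(.nd (nat_lit 10) (.lf (nat_lit 1009229918) (dlOf (nat_lit 1) (nat_lit 0x20004001c00090a0882))) 
(.lf (nat_lit 40346718) (dlOf (nat_lit 1) (nat_lit 0x200291f2901)))) (.nd (nat_lit 7) 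
(.lf (nat_lit 473931870) (dlOf (nat_lit 4) (nat_lit 0x3057c000120400241ae0000802001415f00000018fc0880))) 
(.lf (nat_lit 46112990) (dlOf (nat_lit 2) (nat_lit 0x8a46000058080240008005c00200700009380a03))))))) 
(.nd (nat_lit 26) (.nd (nat_lit 7) (.nd (nat_lit 18) (.nd (nat_lit 11) (.nd (nat_lit 21) 
(.lf (nat_lit 805544286) (dlOf (nat_lit 2) (nat_lit 0x300c00001a040004004000c0008124e82))) 
(.lf (nat_lit 2335070) (dlOf (nat_lit 1) (nat_lit 0x400400020008150682)))) 
(.lf (nat_lit 6308473182) (dlOf (nat_lit 1) (nat_lit 0x4004000200080d4e82)))) (.nd (nat_lit 19) 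
(.lf (nat_lit 805806430) (dlOf (nat_lit 1) (nat_lit 0x200080024002000200081a0683))) 
(.lf (nat_lit 3490685278) (dlOf (nat_lit 3) (nat_lit 0x809e0001281000100580008c0800080080040002003c0008014e83))))) 
(.nd (nat_lit 9) (.nd (nat_lit 10) 
(.lf (nat_lit 6308473310) (dlOf (nat_lit 1) (nat_lit 0x4004000200080d4e82))) 
(.lf (nat_lit 8103390) (dlOf (nat_lit 1) (nat_lit 0x400200020008513602)))) (.nd (nat_lit 19) 
(.lf (nat_lit 1610851294) (dlOf (nat_lit 1) (nat_lit 0x20028092881))) 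
(.lf (nat_lit 36414430) (dlOf (nat_lit 1) (nat_lit 0x20019072881)))))) (.nd (nat_lit 18) 
(.nd (nat_lit 27) (.nd (nat_lit 28) 
(.lf (nat_lit 1677959518) (dlOf (nat_lit 1) (nat_lit 0x100008006800200580008124e83))) 
(.lf (nat_lit 1409524062) (dlOf (nat_lit 3) (nat_lit 0x2037800c01b40004a0800580de001206e0016036800b019800540c60060061001a030001280000004620000400200240008014e82)))) 
(.nd (nat_lit 7) 
(.lf (nat_lit 1543741790) (dlOf (nat_lit 1) (nat_lit 0x10008001800200020008154e83))) 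
(.lf (nat_lit 5570275806) (dlOf (nat_lit 1) (nat_lit 0x4004000200080d4e82))))) (.nd (nat_lit 30) 
(.nd (nat_lit 7) (.lf (nat_lit 4362576222) (dlOf (nat_lit 1) (nat_lit 0x60028090681))) 
(.lf (nat_lit 2752487902) (dlOf (nat_lit 1) (nat_lit 0x8008002800200040008017d03)))) 
(.nd (nat_lit 27) 
(.lf (nat_lit 1678221662) (dlOf (nat_lit 1) (nat_lit 0x200080024002000200081a0683))) 
(.lf (nat_lit 4228358494) (dlOf (nat_lit 1) (nat_lit 0x60028090681))))))))))))

end

end Pool.Agent.Lib.MP_5854e1_co.Cz
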