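import Pool.Agent.Lib.MP_5854e1_co.DecRow

/-!
# Sparse corrections
-/

set_option autoImplicit false
set_option maxRecDepth 100000

namespace Pool.Agent.Lib.MP_5854e1_co.Cz

noncomputable section

noncomputable def tz206 : DT := (.nd (nat_lit 28) (.nd (nat_lit 15) (.nd (nat_lit 13) 
(.nd (nat_lit 16) (.nd (nat_lit 8) (.nd (nat_lit 10) (.nd (nat_lit 18) (.nd (nat_lit 7) 
(.nd (nat_lit 19) (.nd (nat_lit 6) (.nd (nat_lit 22) 
(.lf (nat_lit 25165886) (dlOf (nat_lit 2) (nat_lit 0x1fcb0100fd508807fa82003f53de0004e0800040028be1401))) 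
(.lf (nat_lit 12582974) (dlOf (nat_lit 3) (nat_lit 0x19a1d0000d010007cb100002c0800280080038002000600086d0c83)))) 
(.lf (nat_lit 1275071102) (dlOf (nat_lit 1) (nat_lit 0x20008005481)))) (.nd (nat_lit 26) 
(.lf (nat_lit 134742078) (dlOf (nat_lit 13) (nat_lit 0x7f40760003402001203b0001981019c01d8000c8080b900ec000620400840760002a02026e03b0001481000501d8000a0080fd80ec001006c0002304048c03b00a901b0054805c000440c08480760002102006c03b0001001007101d80007c080bf00080b9c002078200080a0c83))) 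
(.nd (nat_lit 27) (.lf (nat_lit 4362600510) (dlOf (nat_lit 1) (nat_lit 0x24002001200080a0c82))) 
(.lf (nat_lit 201850942) (dlOf (nat_lit 13) (nat_lit 0x7f40760001c02001203b0000d81019c01d800068080b900ec000320400840760001202026e03b0000881000501d800040080fd80ec001006c0000b04048c03b00a901b0054805c000140c08480760000902006c03b0000401007101d80001c080bf00080b9c002078200080a0c83)))))) 
(.nd (nat_lit 6) (.nd (nat_lit 11) 
(.lf (nat_lit 2684355262) (dlOf (nat_lit 1) (nat_lit 0x80008001e81))) (.nd (nat_lit 26) 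
(.lf (nat_lit 5368711870) (dlOf (nat_lit 1) (nat_lit 0x400400020008005782))) 
(.lf (nat_lit 5033167550) (dlOf (nat_lit 1) (nat_lit 0x400400020008005782))))) (.nd (nat_lit 11) 
(.lf (nat_lit 3422552830) (dlOf (nat_lit 1) (nat_lit 0x400400020008002102))) (.nd (nat_lit 12) 
(.lf (nat_lit 49810174) (dlOf (nat_lit 1) (nat_lit 0x200194c5a81))) 
(.lf (nat_lit 603986686) (dlOf (nat_lit 1) (nat_lit 0x2000800040020008000800b983))))))) 
(.nd (nat_lit 6) (.nd (nat_lit 27) (.nd (nat_lit 19) (.nd (nat_lit 20) 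
(.lf (nat_lit 12845118) (dlOf (nat_lit 1) (nat_lit 0x14002002c00086e0c02))) 
(.lf (nat_lit 1310782) (dlOf (nat_lit 1) (nat_lit 0x200280b0701)))) (.nd (nat_lit 20) 
(.lf (nat_lit 21758014) (dlOf (nat_lit 1) (nat_lit 0x80080074002000e0008a70703))) 
(.lf (nat_lit 45875262) (dlOf (nat_lit 1) (nat_lit 0x1800400060009360602))))) (.nd (nat_lit 11) 
(.nd (nat_lit 26) 
(.lf (nat_lit 671350846) (dlOf (nat_lit 3) (nat_lit 0x801f00013010001000000000080018008000800200040008160703))) 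
(.lf (nat_lit 2349072446) (dlOf (nat_lit 1) (nat_lit 0x200280a0c81)))) 
(.lf (nat_lit 3959691326) (dlOf (nat_lit 1) (nat_lit 0x40020002000811a682))))) (.nd (nat_lit 7) 
(.nd (nat_lit 9) (.nd (nat_lit 11) 
(.lf (nat_lit 9699454) (dlOf (nat_lit 1) (nat_lit 0x560018570d01))) 
(.lf (nat_lit 8652926) (dlOf (nat_lit 1) (nat_lit 0x180008514781)))) 
(.lf (nat_lit 20191870) (dlOf (nat_lit 1) (nat_lit 0xa0004004200089db682)))) (.nd (nat_lit 9) 
(.lf (nat_lit 8657150) (dlOf (nat_lit 1) (nat_lit 0x40040002000851a982))) 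
(.lf (nat_lit 57412350) (dlOf (nat_lit 2) (nat_lit 0x2676800044080018008004c002000c0009795a83))))))) 
(.nd (nat_lit 7) (.nd (nat_lit 26) (.nd (nat_lit 27) (.nd (nat_lit 29) 
(.lf (nat_lit 1073742910) (dlOf (nat_lit 1) (nat_lit 0x10008000400200020008002883))) 
(.lf (nat_lit 536871998) (dlOf (nat_lit 1) (nat_lit 0x2c00200220008002882)))) (.nd (nat_lit 29) 
(.nd (nat_lit 30) (.lf (nat_lit 4429186110) (dlOf (nat_lit 1) (nat_lit 0x400400020008002882))) 
(.lf (nat_lit 5502927934) (dlOf (nat_lit 1) (nat_lit 0x20008002881)))) 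
(.lf (nat_lit 4966057022) (dlOf (nat_lit 1) (nat_lit 0x400400020008002882))))) (.nd (nat_lit 27) 
(.nd (nat_lit 32) (.lf (nat_lit 1140851774) (dlOf (nat_lit 1) (nat_lit 0x800400020008002882))) 
(.lf (nat_lit 5435819070) (dlOf (nat_lit 1) (nat_lit 0x400400020008002882)))) (.nd (nat_lit 29) 
(.lf (nat_lit 2348811326) (dlOf (nat_lit 1) (nat_lit 0x80008002881))) 
(.lf (nat_lit 6106907710) (dlOf (nat_lit 1) (nat_lit 0x8008000400200020008002883)))))) 
(.nd (nat_lit 6) (.nd (nat_lit 9) (.nd (nat_lit 26) 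
(.lf (nat_lit 134220990) (dlOf (nat_lit 2) (nat_lit 0x9b020804b00f40004608003400400220018006302))) 
(.lf (nat_lit 3288337598) (dlOf (nat_lit 2) (nat_lit 0xe901a804980d0018806200b2030006e01180008c2802600080010002000c0008006303)))) 
(.lf (nat_lit 4294971070) (dlOf (nat_lit 1) (nat_lit 0x2c0008007281)))) (.nd (nat_lit 11) 
(.nd (nat_lit 9) (.nd (nat_lit 12) 
(.lf (nat_lit 2147484926) (dlOf (nat_lit 1) (nat_lit 0x400400020008002f02))) 
(.lf (nat_lit 20714750) (dlOf (nat_lit 1) (nat_lit 0x200189d9581)))) 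
(.lf (nat_lit 201328382) (dlOf (nat_lit 2) (nat_lit 0xb02080011c080048008003000200020008003b83)))) 
(.nd (nat_lit 18) (.lf (nat_lit 4294970622) (dlOf (nat_lit 1) (nat_lit 0x400400020008006602))) 
(.lf (nat_lit 20188414) (dlOf (nat_lit 1) (nat_lit 0x200289d6601)))))))) (.nd (nat_lit 6) 
(.nd (nat_lit 9) (.nd (nat_lit 26) (.nd (nat_lit 7) (.nd (nat_lit 10) 
(.lf (nat_lit 1573182) (dlOf (nat_lit 1) (nat_lit 0x4002000200080f7d02))) 
(.lf (nat_lit 4294970686) (dlOf (nat_lit 1) (nat_lit 0x20028006901)))) (.nd (nat_lit 10) 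
(.lf (nat_lit 19927486) (dlOf (nat_lit 1) (nat_lit 0x200189d8601))) 
(.lf (nat_lit 2818839998) (dlOf (nat_lit 1) (nat_lit 0x100028129a01))))) (.nd (nat_lit 11) 
(.nd (nat_lit 10) 
(.lf (nat_lit 2752774462) (dlOf (nat_lit 1) (nat_lit 0x58008000800200060008048503))) 
(.lf (nat_lit 604505406) (dlOf (nat_lit 3) (nat_lit 0x40148003807c0002808000803e0000402002c00282d3281)))) 
(.nd (nat_lit 7) (.lf (nat_lit 3288337726) (dlOf (nat_lit 1) (nat_lit 0xbc00200060008006902))) 
(.lf (nat_lit 603987390) (dlOf (nat_lit 1) (nat_lit 0x2000800cd01)))))) (.nd (nat_lit 10) 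
(.nd (nat_lit 7) (.nd (nat_lit 20) 
(.lf (nat_lit 5033167678) (dlOf (nat_lit 1) (nat_lit 0x640018005c01))) 
(.lf (nat_lit 19925822) (dlOf (nat_lit 1) (nat_lit 0x4002000200089d5c02)))) (.nd (nat_lit 26) 
(.lf (nat_lit 5368712126) (dlOf (nat_lit 1) (nat_lit 0x400400020008005d02))) 
(.lf (nat_lit 5033167806) (dlOf (nat_lit 1) (nat_lit 0x400400020008005d02))))) (.nd (nat_lit 11) 
(.nd (nat_lit 18) (.lf (nat_lit 1854) (dlOf (nat_lit 1) (nat_lit 0xc00200020008003e02))) 
(.lf (nat_lit 2751727422) (dlOf (nat_lit 1) (nat_lit 0x1c0028003e01)))) 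
(.lf (nat_lit 603983678) (dlOf (nat_lit 1) (nat_lit 0xc00400040018007582)))))) (.nd (nat_lit 12) 
(.nd (nat_lit 10) (.nd (nat_lit 19) (.nd (nat_lit 9) 
(.lf (nat_lit 1074004478) (dlOf (nat_lit 1) (nat_lit 0x20028090d81))) 
(.lf (nat_lit 738462718) (dlOf (nat_lit 2) (nat_lit 0x100b4000400200020018095f01)))) 
(.nd (nat_lit 7) (.lf (nat_lit 786814) (dlOf (nat_lit 1) (nat_lit 0x1e0028015a81))) 
(.lf (nat_lit 1835518) (dlOf (nat_lit 1) (nat_lit 0x20028150d81))))) (.nd (nat_lit 32) 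
(.nd (nat_lit 29) (.lf (nat_lit 1073743742) (dlOf (nat_lit 1) (nat_lit 0x400400020008004102))) 
(.lf (nat_lit 536872830) (dlOf (nat_lit 1) (nat_lit 0x20028004101)))) (.nd (nat_lit 26) 
(.lf (nat_lit 4429186942) (dlOf (nat_lit 1) (nat_lit 0x400400020008004102))) 
(.lf (nat_lit 4362078078) (dlOf (nat_lit 1) (nat_lit 0x400400020008004102)))))) (.nd (nat_lit 9) 
(.nd (nat_lit 10) (.nd (nat_lit 11) 
(.lf (nat_lit 19927422) (dlOf (nat_lit 1) (nat_lit 0x4002000200089d8382))) 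
(.lf (nat_lit 4362082686) (dlOf (nat_lit 1) (nat_lit 0x80040002001800af02)))) 
(.lf (nat_lit 603985278) (dlOf (nat_lit 1) (nat_lit 0x7c0008009901)))) (.nd (nat_lit 18) 
(.nd (nat_lit 26) (.nd (nat_lit 27) 
(.lf (nat_lit 4294974334) (dlOf (nat_lit 1) (nat_lit 0x40040002000800bc82))) 
(.lf (nat_lit 134224766) (dlOf (nat_lit 1) (nat_lit 0x800800b00020028000800bc83)))) 
(.lf (nat_lit 3288341374) (dlOf (nat_lit 1) (nat_lit 0x800800b40020014000800bc83)))) 
(.lf (nat_lit 20192126) (dlOf (nat_lit 1) (nat_lit 0x180080014002000200089dbc83)))))))) 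
(.nd (nat_lit 18) (.nd (nat_lit 10) (.nd (nat_lit 8) (.nd (nat_lit 19) (.nd (nat_lit 23) 
(.nd (nat_lit 6) (.nd (nat_lit 7) 
(.lf (nat_lit 5570101310) (dlOf (nat_lit 1) (nat_lit 0x400400020008050002))) 
(.lf (nat_lit 1744898750) (dlOf (nat_lit 1) (nat_lit 0x400400020008095782)))) (.nd (nat_lit 9) 
(.lf (nat_lit 67180670) (dlOf (nat_lit 1) (nat_lit 0x800800040020002000800a883))) 
(.lf (nat_lit 2147551870) (dlOf (nat_lit 1) (nat_lit 0x400400020008095482))))) (.nd (nat_lit 22) 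
(.nd (nat_lit 25) 
(.lf (nat_lit 10551358) (dlOf (nat_lit 2) (nat_lit 0x63280000c80800300080004002000200085f0e03))) 
(.lf (nat_lit 44105790) (dlOf (nat_lit 1) (nat_lit 0x200292c0481)))) (.nd (nat_lit 21) 
(.lf (nat_lit 12648510) (dlOf (nat_lit 3) (nat_lit 0xb10a0000700800589ac007c0000001a04001000286d0c81))) 
(.lf (nat_lit 14745662) (dlOf (nat_lit 1) (nat_lit 0x400200020008770482)))))) (.nd (nat_lit 9) 
(.nd (nat_lit 27) (.nd (nat_lit 22) 
(.lf (nat_lit 1611202622) (dlOf (nat_lit 1) (nat_lit 0x2e0028110781))) 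
(.lf (nat_lit 4784190) (dlOf (nat_lit 1) (nat_lit 0x8004000600082b0482)))) (.nd (nat_lit 26) 
(.lf (nat_lit 134807614) (dlOf (nat_lit 2) (nat_lit 0xa80090002a0180c1400))) 
(.lf (nat_lit 738787390) (dlOf (nat_lit 1) (nat_lit 0x2e0028110781))))) (.nd (nat_lit 6) 
(.lf (nat_lit 44632638) (dlOf (nat_lit 1) (nat_lit 0x20029325201))) 
(.lf (nat_lit 7936766) (dlOf (nat_lit 1) (nat_lit 0x2002851b981)))))) (.nd (nat_lit 6) 
(.nd (nat_lit 7) (.nd (nat_lit 11) 
(.lf (nat_lit 3355513662) (dlOf (nat_lit 1) (nat_lit 0x3a00280a8f81))) 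
(.lf (nat_lit 4831906622) (dlOf (nat_lit 1) (nat_lit 0x400400020008055c02)))) (.nd (nat_lit 11) 
(.nd (nat_lit 12) 
(.lf (nat_lit 50921918) (dlOf (nat_lit 1) (nat_lit 0x300080004002000200094d7a83))) 
(.lf (nat_lit 19993022) (dlOf (nat_lit 1) (nat_lit 0x1400089d8601)))) 
(.lf (nat_lit 3892382142) (dlOf (nat_lit 1) (nat_lit 0xe0018104e81))))) (.nd (nat_lit 9) 
(.nd (nat_lit 7) (.lf (nat_lit 7934334) (dlOf (nat_lit 1) (nat_lit 0xa80080048002001a0008518383))) 
(.lf (nat_lit 67179006) (dlOf (nat_lit 1) (nat_lit 0x80018008681)))) (.nd (nat_lit 27) 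
(.lf (nat_lit 2214663038) (dlOf (nat_lit 1) (nat_lit 0x400400020008009002))) 
(.lf (nat_lit 3422622590) (dlOf (nat_lit 1) (nat_lit 0x4004001a0018009002))))))) (.nd (nat_lit 6) 
(.nd (nat_lit 27) (.nd (nat_lit 21) (.nd (nat_lit 19) 
(.lf (nat_lit 1140917310) (dlOf (nat_lit 1) (nat_lit 0x400400020008002882))) 
(.lf (nat_lit 34145342) (dlOf (nat_lit 1) (nat_lit 0x60008fb2881)))) (.nd (nat_lit 7) 
(.lf (nat_lit 48301118) (dlOf (nat_lit 1) (nat_lit 0x30008000800200040009402883))) 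
(.lf (nat_lit 19991742) (dlOf (nat_lit 2) (nat_lit 0x1d8351005001c80008c1000200080084002000800089d6303))))) 
(.nd (nat_lit 29) (.nd (nat_lit 7) 
(.lf (nat_lit 4496361022) (dlOf (nat_lit 6) (nat_lit 0x60038001601a00150078007002c00034100054038000c01a00080058000601800b80680002604005c034000200a0000882000100d0000000802c0008002000200100008053783))) 
(.lf (nat_lit 3355514046) (dlOf (nat_lit 1) (nat_lit 0x480080018002000c00080a9503)))) 
(.nd (nat_lit 8) (.lf (nat_lit 671155262) (dlOf (nat_lit 1) (nat_lit 0xc00200040008142882))) 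
(.lf (nat_lit 3892380990) (dlOf (nat_lit 1) (nat_lit 0x80018103281)))))) (.nd (nat_lit 8) 
(.nd (nat_lit 23) (.nd (nat_lit 27) 
(.lf (nat_lit 5435885182) (dlOf (nat_lit 1) (nat_lit 0x1000400380008003982))) 
(.lf (nat_lit 6106973822) (dlOf (nat_lit 1) (nat_lit 0x400400020008003982)))) (.nd (nat_lit 7) 
(.lf (nat_lit 8455806) (dlOf (nat_lit 1) (nat_lit 0x20028513981))) 
(.lf (nat_lit 8459518) (dlOf (nat_lit 1) (nat_lit 0x2180080018002014e0008519583))))) 
(.nd (nat_lit 9) (.nd (nat_lit 12) 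
(.lf (nat_lit 19991934) (dlOf (nat_lit 1) (nat_lit 0x4004000400089d6c02))) 
(.lf (nat_lit 3288407422) (dlOf (nat_lit 1) (nat_lit 0x86000800c901)))) 
(.lf (nat_lit 604049278) (dlOf (nat_lit 1) (nat_lit 0xc800200280008007782))))))) (.nd (nat_lit 19) 
(.nd (nat_lit 7) (.nd (nat_lit 8) (.nd (nat_lit 27) (.nd (nat_lit 6) 
(.lf (nat_lit 3288662078) (dlOf (nat_lit 12) (nat_lit 0x98005c003a0270001b02008e019822d80b801c405002260270001a0400c801701f300b40006408014805a0003102014802d0001801012201680009c0801300cc04b405c07b002d007901380218098031c022000230c037c02e046b0168020009c055804c029c011000110504320168004004400042080ab405c0001f02040002e004c013800000101ed80082d0c00214b400080a0c83))) 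
(.lf (nat_lit 19202174) (dlOf (nat_lit 1) (nat_lit 0x400400020008970482)))) (.nd (nat_lit 31) 
(.lf (nat_lit 1208287294) (dlOf (nat_lit 7) (nat_lit 0x9e0290003e81016601480768030000ea0805b005201e600c0003a02016801480780030000e60803f0052012200c0000d0200050148000580800700080114002000400080b0483))) 
(.lf (nat_lit 3355770942) (dlOf (nat_lit 3) (nat_lit 0x3005c0003f02000602e0001a018110e80))))) 
(.nd (nat_lit 10) (.lf (nat_lit 1678049598) (dlOf (nat_lit 1) (nat_lit 0x400400020008158502))) 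
(.lf (nat_lit 20254014) (dlOf (nat_lit 1) (nat_lit 0x4002000200089d6902))))) (.nd (nat_lit 6) 
(.nd (nat_lit 20) (.nd (nat_lit 22) 
(.lf (nat_lit 1678049470) (dlOf (nat_lit 1) (nat_lit 0x20018155501))) 
(.lf (nat_lit 21299390) (dlOf (nat_lit 2) (nat_lit 0x1b768000dbb3c00abd4300226460000c82000e800800d4002005c0008a31a83)))) 
(.lf (nat_lit 13959358) (dlOf (nat_lit 1) (nat_lit 0x400200040008750382)))) (.nd (nat_lit 8) 
(.lf (nat_lit 20257022) (dlOf (nat_lit 1) (nat_lit 0x200189da981))) 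
(.lf (nat_lit 54856702) (dlOf (nat_lit 2) (nat_lit 0x14960000320200180029655f01)))))) 
(.nd (nat_lit 24) (.nd (nat_lit 21) (.nd (nat_lit 20) 
(.lf (nat_lit 9240638) (dlOf (nat_lit 1) (nat_lit 0x49c00402ee0008530482))) (.nd (nat_lit 23) 
(.lf (nat_lit 69009470) (dlOf (nat_lit 1) (nat_lit 0xc00400020018860602))) 
(.lf (nat_lit 10289214) (dlOf (nat_lit 2) (nat_lit 0x201f8001240800700080004002005600085c0d83))))) 
(.nd (nat_lit 6) (.nd (nat_lit 8) 
(.lf (nat_lit 11337790) (dlOf (nat_lit 18) (nat_lit 0xb1f400007e040054fa00003d02000e7d00001b01000e3e80000d0080041f4000060040018fa00002a02000e7d0000148100063e800008c080031f4000040040014fa00001f0200127d00000f0100043e8000070080019f400001804000cfa00000b02000a7d0000048100023e8000020080051f4000000040048002000e0008690e82))) 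
(.lf (nat_lit 8197438) (dlOf (nat_lit 1) (nat_lit 0x400200020008519902)))) 
(.lf (nat_lit 12386430) (dlOf (nat_lit 1) (nat_lit 0x14002001800086c0082))))) (.nd (nat_lit 6) 
(.nd (nat_lit 7) (.nd (nat_lit 9) 
(.lf (nat_lit 21823550) (dlOf (nat_lit 5) (nat_lit 0x9db22c04a187000020820084c8b003e61c0000800800ef22c006f8700001b020027c8b000161c00000008002800400500018a70702))) 
(.lf (nat_lit 58526270) (dlOf (nat_lit 1) (nat_lit 0x30002003600097e5202)))) 
(.lf (nat_lit 20780734) (dlOf (nat_lit 1) (nat_lit 0x200189da001)))) (.nd (nat_lit 8) 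
(.lf (nat_lit 57477886) (dlOf (nat_lit 2) (nat_lit 0x533b0000220400b400400540019795a82))) 
(.lf (nat_lit 20777982) (dlOf (nat_lit 1) (nat_lit 0x5800089d5f01))))))))) (.nd (nat_lit 6) 
(.nd (nat_lit 19) (.nd (nat_lit 18) (.nd (nat_lit 9) (.nd (nat_lit 10) (.nd (nat_lit 7) 
(.nd (nat_lit 8) (.nd (nat_lit 20) 
(.lf (nat_lit 16851006) (dlOf (nat_lit 1) (nat_lit 0x200288e0001))) 
(.lf (nat_lit 26288190) (dlOf (nat_lit 1) (nat_lit 0x1000400020008c30482)))) 
(.lf (nat_lit 59842878) (dlOf (nat_lit 1) (nat_lit 0x68008003000200140009840b83)))) 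
(.nd (nat_lit 16) 
(.lf (nat_lit 19935678) (dlOf (nat_lit 1) (nat_lit 0x280080004002000200089d8603))) 
(.lf (nat_lit 20001214) (dlOf (nat_lit 1) (nat_lit 0x200189d8601))))) (.nd (nat_lit 12) 
(.nd (nat_lit 16) (.nd (nat_lit 26) 
(.lf (nat_lit 134229182) (dlOf (nat_lit 2) (nat_lit 0x60104005807a006a03800011838006300))) 
(.lf (nat_lit 3288345790) (dlOf (nat_lit 2) (nat_lit 0x6900d401f8068009a0310062018005f808c000461400a800400260018006302)))) 
(.lf (nat_lit 134294718) (dlOf (nat_lit 2) (nat_lit 0x1d02a006f8104035407a011c038008601980008c280140008003000200020008006303)))) 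
(.nd (nat_lit 7) 
(.lf (nat_lit 134233406) (dlOf (nat_lit 2) (nat_lit 0x501d8013a40800380080024002000e000800c903))) 
(.lf (nat_lit 20004030) (dlOf (nat_lit 1) (nat_lit 0x80080004002000200089dc203)))))) 
(.nd (nat_lit 8) (.nd (nat_lit 7) (.nd (nat_lit 10) 
(.lf (nat_lit 4362091070) (dlOf (nat_lit 3) (nat_lit 0x200660006602001e0460001201800b480))) 
(.nd (nat_lit 26) 
(.lf (nat_lit 1610688062) (dlOf (nat_lit 2) (nat_lit 0x1981040003404001400400020008093782))) 
(.lf (nat_lit 4496369214) (dlOf (nat_lit 6) (nat_lit 0xe01e002000e00020068001402e004200f003e00580038024002400e0001a10005201c001f00d0025002c000300c00bc0340008017005f00500004c1800d006800d40140001104003a01a0001005000000100130008000800200180008053783))))) 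
(.nd (nat_lit 11) (.lf (nat_lit 671164094) (dlOf (nat_lit 1) (nat_lit 0x40028143a81))) 
(.lf (nat_lit 4294979262) (dlOf (nat_lit 1) (nat_lit 0x20028007281))))) (.nd (nat_lit 10) 
(.nd (nat_lit 7) (.nd (nat_lit 11) 
(.lf (nat_lit 3355521854) (dlOf (nat_lit 1) (nat_lit 0x138004000400080a8f82))) 
(.lf (nat_lit 19999550) (dlOf (nat_lit 1) (nat_lit 0x4002000200089d5c02)))) 
(.lf (nat_lit 738274238) (dlOf (nat_lit 1) (nat_lit 0x400400020008095d02)))) (.nd (nat_lit 30) 
(.lf (nat_lit 10046) (dlOf (nat_lit 1) (nat_lit 0x6c002000c0008003e02))) 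
(.lf (nat_lit 1073751870) (dlOf (nat_lit 1) (nat_lit 0x20018003e01))))))) (.nd (nat_lit 16) 
(.nd (nat_lit 26) (.nd (nat_lit 7) 
(.lf (nat_lit 671359038) (dlOf (nat_lit 5) (nat_lit 0x4004a0094022000130200b20110000240800f809403180440000504017802200000018160700))) 
(.lf (nat_lit 13902014) (dlOf (nat_lit 1) (nat_lit 0x8008000400200020008750383)))) 
(.nd (nat_lit 11) (.nd (nat_lit 27) 
(.lf (nat_lit 3825475646) (dlOf (nat_lit 3) (nat_lit 0x1001d000010100050050002001c00000080008004000a0008160702))) 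
(.lf (nat_lit 2349080638) (dlOf (nat_lit 6) (nat_lit 0x12402700c50110000701004480ac005004e01f002200030100000682003c809c023c0440000b040196022000050100540110000240800e8008007400201ac00080a0c83)))) 
(.lf (nat_lit 3959699518) (dlOf (nat_lit 1) (nat_lit 0x2002811a681))))) (.nd (nat_lit 20) 
(.nd (nat_lit 30) (.nd (nat_lit 7) (.nd (nat_lit 22) 
(.lf (nat_lit 6509895742) (dlOf (nat_lit 1) (nat_lit 0x34002000c0008160702))) 
(.lf (nat_lit 12918846) (dlOf (nat_lit 1) (nat_lit 0x624004023800086e0c02)))) 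
(.lf (nat_lit 21307582) (dlOf (nat_lit 2) (nat_lit 0x28f6a0010fb4c0095da40060ea18000c8200020008008800200020008a31a83)))) 
(.nd (nat_lit 7) (.nd (nat_lit 27) 
(.lf (nat_lit 5905915966) (dlOf (nat_lit 1) (nat_lit 0x34002000c0008160702))) 
(.lf (nat_lit 3355779134) (dlOf (nat_lit 5) (nat_lit 0x80400003402000e020000168100070100000a80800400800003a040038004001a0008110e82)))) 
(.lf (nat_lit 1745166526) (dlOf (nat_lit 1) (nat_lit 0x400180c1a81))))) (.nd (nat_lit 10) 
(.nd (nat_lit 21) (.lf (nat_lit 9773118) (dlOf (nat_lit 1) (nat_lit 0x100028580481))) 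
(.lf (nat_lit 24453182) (dlOf (nat_lit 4) (nat_lit 0x1ad240013102001369200091010006b49000480080050008008c002002a0008ba0c03)))) 
(.lf (nat_lit 51717182) (dlOf (nat_lit 1) (nat_lit 0x4000200020009512882))))))) (.nd (nat_lit 18) 
(.nd (nat_lit 20) (.nd (nat_lit 22) (.nd (nat_lit 26) (.nd (nat_lit 16) (.nd (nat_lit 29) 
(.lf (nat_lit 134750270) (dlOf (nat_lit 4) (nat_lit 0x39c0760003202009e03b0001181000c01d8000880804d800801bc002000400080a0c83))) 
(.lf (nat_lit 2819104830) (dlOf (nat_lit 3) (nat_lit 0x1c80fc015f2040bd40e400b803f0057c0281a0900)))) 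
(.nd (nat_lit 9) 
(.lf (nat_lit 537468990) (dlOf (nat_lit 3) (nat_lit 0x1300300000d81004002c8000680800280080018002000400080a0c83))) 
(.lf (nat_lit 44640830) (dlOf (nat_lit 1) (nat_lit 0x20008004000200a20009325203))))) 
(.nd (nat_lit 27) (.nd (nat_lit 30) 
(.lf (nat_lit 4362608702) (dlOf (nat_lit 1) (nat_lit 0x7a00080a0c81))) 
(.lf (nat_lit 3288866878) (dlOf (nat_lit 2) (nat_lit 0xc00c0000002000200081d0c01)))) 
(.lf (nat_lit 201859134) (dlOf (nat_lit 4) (nat_lit 0x39c0760001a02009e03b0000581000c01d8000280804d800801bc002000400080a0c83))))) 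
(.nd (nat_lit 24) (.nd (nat_lit 21) 
(.lf (nat_lit 4726846) (dlOf (nat_lit 1) (nat_lit 0x10008000c002000200082b0483))) 
(.lf (nat_lit 48767038) (dlOf (nat_lit 1) (nat_lit 0x20029420601)))) (.nd (nat_lit 16) 
(.lf (nat_lit 21504062) (dlOf (nat_lit 1) (nat_lit 0x400400020008a40482))) 
(.lf (nat_lit 21569598) (dlOf (nat_lit 1) (nat_lit 0x6c00400460008a40482)))))) (.nd (nat_lit 7) 
(.nd (nat_lit 8) (.lf (nat_lit 3678270) (dlOf (nat_lit 1) (nat_lit 0x3f80080004002008e0008210c83))) 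
(.nd (nat_lit 10) (.lf (nat_lit 1581374) (dlOf (nat_lit 1) (nat_lit 0x4002000200080f7d02))) 
(.lf (nat_lit 7943486) (dlOf (nat_lit 1) (nat_lit 0x8008000400200020008519903))))) (.nd (nat_lit 8) 
(.lf (nat_lit 1581246) (dlOf (nat_lit 1) (nat_lit 0x4004000200080f5502))) (.nd (nat_lit 10) 
(.lf (nat_lit 58204606) (dlOf (nat_lit 2) (nat_lit 0x1610800040000010104000c00097c7001))) 
(.lf (nat_lit 20460990) (dlOf (nat_lit 1) (nat_lit 0x8004000200189d9a02))))))) (.nd (nat_lit 8) 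
(.nd (nat_lit 24) (.nd (nat_lit 9) (.nd (nat_lit 10) 
(.lf (nat_lit 11345982) (dlOf (nat_lit 20) (nat_lit 0x92a0002294800133e800071d600007e100014fa00003e02002095100134a8000725200034fa0001e7580001e85000a4a400071f40002ceb000023ce0001b0400024a8800325200080eb000023ce0001a0400044a880012520001cfa000047580001804000a4a880042520001cfa000107580001504000c4a88000a5200034fa00008758000148400044a400029f400014eb00002306001695100084a400039f400020eb00002008000a95100063e800007c100032544001129000067d000043ac00007820004a5200020fa000127580000e0300064a88003a5200018fa00008758000060400053e800002c08002a5440011290000c7d000063ac00002820005a5200028fa00014758000048300053e8000020080052544002529000107d000093ac000000200010008005400200060008690e83))) 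
(.nd (nat_lit 21) (.lf (nat_lit 2752259134) (dlOf (nat_lit 1) (nat_lit 0x20018002881))) 
(.lf (nat_lit 36447294) (dlOf (nat_lit 1) (nat_lit 0x400200020009072882))))) 
(.lf (nat_lit 8136254) (dlOf (nat_lit 1) (nat_lit 0x118008002800200500008513783)))) 
(.nd (nat_lit 20) (.nd (nat_lit 22) 
(.lf (nat_lit 59514942) (dlOf (nat_lit 23) (nat_lit 0x4219ec0048e040110000001f002001a67c000e38100d333e0007140802199f00037a04039ccfa022467c01852ca005e964c03e49cc02384d4000aa0600d033e009396500280b2601964e600ef26a00054c2806819f0031c9cc018c4d40009b83007133f0004880804019f800242040330cfc0010f02018667e0008481009633f00041c0806b19f800206040154cfc0010202025c5940007c8100012ca0003d00805619ec020cb24014a4e5003e2698002502004f99ec0294b2401384e5003926980024c2005299ec02949ca0000704014a67b00a52728000081008219f00430b28018e59300ee273007f93500000014011800400500009800602))) 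
(.lf (nat_lit 21766206) (dlOf (nat_lit 2) (nat_lit 0x10800000034040174002000e0008a70702)))) 
(.nd (nat_lit 22) (.lf (nat_lit 18620478) (dlOf (nat_lit 1) (nat_lit 0x20018950a01))) 
(.lf (nat_lit 22814782) (dlOf (nat_lit 1) (nat_lit 0x20028b30e81)))))) (.nd (nat_lit 7) 
(.nd (nat_lit 9) (.nd (nat_lit 10) 
(.lf (nat_lit 51126590) (dlOf (nat_lit 8) (nat_lit 0xc74200053a0c000ee080015d080007602000ce84000388100067420001c0080033a10000c6040019d080006102000ee8400000019507d00))) 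
(.lf (nat_lit 8140094) (dlOf (nat_lit 1) (nat_lit 0x20018519901)))) 
(.lf (nat_lit 537672510) (dlOf (nat_lit 1) (nat_lit 0x200080fbc81)))) (.nd (nat_lit 10) 
(.lf (nat_lit 43852222) (dlOf (nat_lit 2) (nat_lit 0x26070000180800c80080008002004a00092a1083))) 
(.nd (nat_lit 21) (.lf (nat_lit 67909054) (dlOf (nat_lit 1) (nat_lit 0xc0018339a01))) 
(.lf (nat_lit 19674558) (dlOf (nat_lit 1) (nat_lit 0x200189d9a01))))))))) (.nd (nat_lit 7) 
(.nd (nat_lit 9) (.nd (nat_lit 8) (.nd (nat_lit 11) (.nd (nat_lit 16) 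
(.lf (nat_lit 1208230014) (dlOf (nat_lit 2) (nat_lit 0x2030000110180a2000))) (.nd (nat_lit 18) 
(.lf (nat_lit 18948222) (dlOf (nat_lit 1) (nat_lit 0x400200020008970482))) 
(.lf (nat_lit 17113214) (dlOf (nat_lit 1) (nat_lit 0x4002000200088e0482))))) (.nd (nat_lit 10) 
(.lf (nat_lit 6576679038) (dlOf (nat_lit 1) (nat_lit 0x400400020008004782))) 
(.lf (nat_lit 20458622) (dlOf (nat_lit 1) (nat_lit 0x400289d6101))))) (.nd (nat_lit 12) 
(.nd (nat_lit 11) (.nd (nat_lit 26) 
(.lf (nat_lit 5905850750) (dlOf (nat_lit 1) (nat_lit 0x80028155a81))) 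
(.lf (nat_lit 6509830526) (dlOf (nat_lit 1) (nat_lit 0x80028155a81)))) 
(.lf (nat_lit 2754619774) (dlOf (nat_lit 1) (nat_lit 0xe00080094002000600080f4e83)))) 
(.nd (nat_lit 11) (.nd (nat_lit 16) 
(.lf (nat_lit 19935614) (dlOf (nat_lit 1) (nat_lit 0x200080004002000200089d8383))) 
(.lf (nat_lit 20001150) (dlOf (nat_lit 1) (nat_lit 0x4002000200089d8382)))) 
(.lf (nat_lit 4362090878) (dlOf (nat_lit 1) (nat_lit 0x80040002001800af02)))))) (.nd (nat_lit 32) 
(.nd (nat_lit 8) (.nd (nat_lit 10) (.nd (nat_lit 18) 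
(.lf (nat_lit 20458110) (dlOf (nat_lit 1) (nat_lit 0x600289d5481))) 
(.lf (nat_lit 1745103486) (dlOf (nat_lit 1) (nat_lit 0xb800400680008095482)))) 
(.lf (nat_lit 8398462) (dlOf (nat_lit 1) (nat_lit 0x8008000400200040008513983)))) (.nd (nat_lit 10) 
(.lf (nat_lit 2754624382) (dlOf (nat_lit 1) (nat_lit 0x4004000200080fbc82))) 
(.lf (nat_lit 604057470) (dlOf (nat_lit 1) (nat_lit 0x40018007781))))) (.nd (nat_lit 11) 
(.nd (nat_lit 8) (.lf (nat_lit 4832110206) (dlOf (nat_lit 1) (nat_lit 0x4004000200080d3982))) 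
(.lf (nat_lit 6039876478) (dlOf (nat_lit 2) (nat_lit 0x1003a0021d0200020018009001)))) 
(.nd (nat_lit 18) (.nd (nat_lit 26) 
(.lf (nat_lit 5368719998) (dlOf (nat_lit 1) (nat_lit 0x400400020008005482))) 
(.lf (nat_lit 5033175678) (dlOf (nat_lit 1) (nat_lit 0x400400020008005482)))) 
(.lf (nat_lit 6107179646) (dlOf (nat_lit 1) (nat_lit 0x400400020008095482))))))) (.nd (nat_lit 8) 
(.nd (nat_lit 10) (.nd (nat_lit 9) (.nd (nat_lit 11) 
(.lf (nat_lit 67969278) (dlOf (nat_lit 1) (nat_lit 0x270008017800200020008344603))) 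
(.lf (nat_lit 8927486) (dlOf (nat_lit 1) (nat_lit 0x2e001851a981)))) (.nd (nat_lit 19) 
(.lf (nat_lit 57682686) (dlOf (nat_lit 1) (nat_lit 0x400400020009795a82))) 
(.lf (nat_lit 49818366) (dlOf (nat_lit 1) (nat_lit 0x200194c5a81))))) (.nd (nat_lit 27) 
(.nd (nat_lit 12) (.nd (nat_lit 16) 
(.lf (nat_lit 2147493118) (dlOf (nat_lit 1) (nat_lit 0x7000400180018002f02))) 
(.lf (nat_lit 5435892990) (dlOf (nat_lit 1) (nat_lit 0x40018002f01)))) 
(.lf (nat_lit 8402174) (dlOf (nat_lit 1) (nat_lit 0x1800200320008519582)))) (.nd (nat_lit 26) 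
(.nd (nat_lit 29) (.lf (nat_lit 5502936318) (dlOf (nat_lit 1) (nat_lit 0x400400020008002f02))) 
(.lf (nat_lit 4966065406) (dlOf (nat_lit 1) (nat_lit 0x400400020008002f02)))) 
(.lf (nat_lit 6106916094) (dlOf (nat_lit 1) (nat_lit 0x20028002f01)))))) (.nd (nat_lit 9) 
(.nd (nat_lit 11) (.nd (nat_lit 16) (.nd (nat_lit 29) 
(.lf (nat_lit 1074012670) (dlOf (nat_lit 1) (nat_lit 0x400400020008090d82))) 
(.lf (nat_lit 5905850878) (dlOf (nat_lit 1) (nat_lit 0x20018157e01)))) 
(.lf (nat_lit 2753110526) (dlOf (nat_lit 1) (nat_lit 0x1000800e4002003a0008090d83)))) 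
(.nd (nat_lit 10) 
(.lf (nat_lit 201341438) (dlOf (nat_lit 1) (nat_lit 0x4000800040020004000800b283))) 
(.lf (nat_lit 2818850302) (dlOf (nat_lit 1) (nat_lit 0xe0008007c00200f0000812cd03))))) 
(.nd (nat_lit 11) (.nd (nat_lit 18) (.nd (nat_lit 26) 
(.lf (nat_lit 3892388862) (dlOf (nat_lit 1) (nat_lit 0x1000008102881))) 
(.lf (nat_lit 4899021822) (dlOf (nat_lit 1) (nat_lit 0x40018052881)))) 
(.lf (nat_lit 38085630) (dlOf (nat_lit 1) (nat_lit 0x400200120009132882)))) (.nd (nat_lit 12) 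
(.lf (nat_lit 738470910) (dlOf (nat_lit 2) (nat_lit 0x140b4000400200020018095f01))) 
(.lf (nat_lit 8469502) (dlOf (nat_lit 1) (nat_lit 0x40020002000851bf02)))))))))) (.nd (nat_lit 18) 
(.nd (nat_lit 16) (.nd (nat_lit 10) (.nd (nat_lit 19) (.nd (nat_lit 21) (.nd (nat_lit 6) 
(.nd (nat_lit 8) (.nd (nat_lit 9) (.nd (nat_lit 11) 
(.lf (nat_lit 2752544830) (dlOf (nat_lit 2) (nat_lit 0x1b89240004a04002000200660008020702))) 
(.lf (nat_lit 2348857406) (dlOf (nat_lit 1) (nat_lit 0x1c002800a681)))) 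
(.lf (nat_lit 201366078) (dlOf (nat_lit 3) (nat_lit 0x10000001cc080050000000e404004400400be000800b482)))) 
(.nd (nat_lit 13) (.lf (nat_lit 46170430) (dlOf (nat_lit 1) (nat_lit 0x400400020019380b82))) 
(.lf (nat_lit 1089854) (dlOf (nat_lit 1) (nat_lit 0x400400020008068502))))) (.nd (nat_lit 7) 
(.lf (nat_lit 6643811198) (dlOf (nat_lit 1) (nat_lit 0x40028002581))) (.nd (nat_lit 9) 
(.lf (nat_lit 201366014) (dlOf (nat_lit 2) (nat_lit 0xb800000c130200e4000800b281))) 
(.lf (nat_lit 5502960638) (dlOf (nat_lit 1) (nat_lit 0xc00200140008002882)))))) (.nd (nat_lit 13) 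
(.nd (nat_lit 6) (.nd (nat_lit 22) 
(.lf (nat_lit 44073022) (dlOf (nat_lit 1) (nat_lit 0x4004000200192c0482))) 
(.lf (nat_lit 14712894) (dlOf (nat_lit 2) (nat_lit 0x351f80029a04006400400340018770482)))) 
(.lf (nat_lit 18907262) (dlOf (nat_lit 1) (nat_lit 0x400200020008970482)))) (.nd (nat_lit 24) 
(.nd (nat_lit 25) (.lf (nat_lit 10526782) (dlOf (nat_lit 1) (nat_lit 0x4004000200085f0e02))) 
(.lf (nat_lit 44081214) (dlOf (nat_lit 1) (nat_lit 0x9000192c0481)))) (.nd (nat_lit 20) 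
(.lf (nat_lit 52469822) (dlOf (nat_lit 1) (nat_lit 0x60029530601))) 
(.lf (nat_lit 28352574) (dlOf (nat_lit 1) (nat_lit 0x20018d80a01))))))) (.nd (nat_lit 27) 
(.nd (nat_lit 6) (.nd (nat_lit 20) (.nd (nat_lit 24) 
(.lf (nat_lit 4751422) (dlOf (nat_lit 1) (nat_lit 0x4004000200082b0482))) 
(.lf (nat_lit 21528638) (dlOf (nat_lit 1) (nat_lit 0x400400160018a40482)))) (.nd (nat_lit 26) 
(.lf (nat_lit 3702846) (dlOf (nat_lit 1) (nat_lit 0x70800800b000200380008210c83))) 
(.lf (nat_lit 2755166270) (dlOf (nat_lit 3) (nat_lit 0x602500010c0800e81280008404001400200140008120d82))))) 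
(.nd (nat_lit 7) (.lf (nat_lit 37259646) (dlOf (nat_lit 1) (nat_lit 0x2e00090d4e81))) 
(.nd (nat_lit 8) (.lf (nat_lit 50888958) (dlOf (nat_lit 1) (nat_lit 0x200294d2901))) 
(.lf (nat_lit 37259774) (dlOf (nat_lit 1) (nat_lit 0x400200ba00090d4f82)))))) (.nd (nat_lit 13) 
(.nd (nat_lit 26) (.nd (nat_lit 29) 
(.lf (nat_lit 134774846) (dlOf (nat_lit 2) (nat_lit 0x320000000a0180b1880))) 
(.lf (nat_lit 2819129406) (dlOf (nat_lit 2) (nat_lit 0x1d035002be00803d0008003400200ec00081a0903)))) 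
(.lf (nat_lit 201883710) (dlOf (nat_lit 2) (nat_lit 0x320000000a0180b1880)))) (.nd (nat_lit 26) 
(.nd (nat_lit 29) (.lf (nat_lit 134783038) (dlOf (nat_lit 1) (nat_lit 0x1c00280b1881))) 
(.lf (nat_lit 2819137598) (dlOf (nat_lit 1) (nat_lit 0xbc004006a00081a0902)))) 
(.lf (nat_lit 201891902) (dlOf (nat_lit 1) (nat_lit 0x1c00280b1881))))))) (.nd (nat_lit 6) 
(.nd (nat_lit 30) (.nd (nat_lit 7) (.nd (nat_lit 8) 
(.lf (nat_lit 19960894) (dlOf (nat_lit 1) (nat_lit 0x2a00289d9281))) (.nd (nat_lit 11) 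
(.lf (nat_lit 50373950) (dlOf (nat_lit 1) (nat_lit 0xc004001200094c3282))) 
(.lf (nat_lit 134257982) (dlOf (nat_lit 3) (nat_lit 0x38015002bc81002001d800900d8009d208021c00400d0000800c902))))) 
(.nd (nat_lit 13) 
(.lf (nat_lit 34112702) (dlOf (nat_lit 1) (nat_lit 0x20008000800200020008fb2c83))) 
(.lf (nat_lit 37266622) (dlOf (nat_lit 1) (nat_lit 0x200290d2c81))))) (.nd (nat_lit 9) 
(.nd (nat_lit 7) 
(.lf (nat_lit 5435860030) (dlOf (nat_lit 1) (nat_lit 0x68008002400201120008002883))) 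
(.lf (nat_lit 3288370366) (dlOf (nat_lit 4) (nat_lit 0x4a804600fe022000500f800280740188018000230a00200200001001000a010000074080690008063400200220008006303)))) 
(.nd (nat_lit 26) 
(.lf (nat_lit 5502961214) (dlOf (nat_lit 5) (nat_lit 0x54015004400a0016804c007802200d40050001385000500a8047805001ac026005e011005b0028000242803e8054019402800e001300160088000142000e805400bc02800720130026008801080040000014027400400620018003782))) 
(.lf (nat_lit 6106940990) (dlOf (nat_lit 5) (nat_lit 0x138058009802a00a80140026002800078200108058008c02a00be014000900200006820012805800a002a00580050000b83001500c00110058008802a001c0140026002800000280250008001000200280008003783)))))) 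
(.nd (nat_lit 8) (.nd (nat_lit 7) 
(.lf (nat_lit 2684393086) (dlOf (nat_lit 1) (nat_lit 0x38008002000200140008009d83))) 
(.nd (nat_lit 9) (.lf (nat_lit 8434942) (dlOf (nat_lit 1) (nat_lit 0x190008006400200d20008519583))) 
(.lf (nat_lit 201369342) (dlOf (nat_lit 2) (nat_lit 0x14082000470200020018003b81))))) 
(.nd (nat_lit 11) (.nd (nat_lit 19) (.nd (nat_lit 27) 
(.lf (nat_lit 2147517950) (dlOf (nat_lit 3) (nat_lit 0x1a00400039010001002800080000000008000c002001a0008003682))) 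
(.lf (nat_lit 1744864766) (dlOf (nat_lit 2) (nat_lit 0x481140000004001400400020008003682)))) 
(.lf (nat_lit 61375998) (dlOf (nat_lit 1) (nat_lit 0x1800200040009923682)))) (.nd (nat_lit 7) 
(.lf (nat_lit 3288370558) (dlOf (nat_lit 1) (nat_lit 0xa0028006c01))) 
(.lf (nat_lit 604020222) (dlOf (nat_lit 1) (nat_lit 0x2c000800cd01)))))))) (.nd (nat_lit 13) 
(.nd (nat_lit 26) (.nd (nat_lit 10) (.nd (nat_lit 11) (.nd (nat_lit 19) (.nd (nat_lit 27) 
(.nd (nat_lit 6) 
(.lf (nat_lit 12681278) (dlOf (nat_lit 1) (nat_lit 0x3c00080004002007600086d0c83))) 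
(.lf (nat_lit 2684453118) (dlOf (nat_lit 3) (nat_lit 0x800ec000720400740760000702000a0008014601)))) 
(.nd (nat_lit 8) 
(.lf (nat_lit 6576767038) (dlOf (nat_lit 3) (nat_lit 0x1c000000ac02000400d000000180d0c00))) 
(.lf (nat_lit 6039896382) (dlOf (nat_lit 1) (nat_lit 0x820028015e81))))) (.nd (nat_lit 20) 
(.nd (nat_lit 27) 
(.lf (nat_lit 3221848126) (dlOf (nat_lit 4) (nat_lit 0x29811400700840005504017604500a20210001501005d8118000a2040050004004e00081a1402))) 
(.lf (nat_lit 134840382) (dlOf (nat_lit 2) (nat_lit 0x1204f0002a0180c1400)))) 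
(.lf (nat_lit 10059838) (dlOf (nat_lit 2) (nat_lit 0x10800000036040174002000e00085b0702))))) 
(.nd (nat_lit 6) (.nd (nat_lit 7) (.nd (nat_lit 9) 
(.lf (nat_lit 8493118) (dlOf (nat_lit 1) (nat_lit 0x2000851a681))) 
(.lf (nat_lit 44665406) (dlOf (nat_lit 1) (nat_lit 0xb80009325201)))) 
(.lf (nat_lit 37325246) (dlOf (nat_lit 1) (nat_lit 0x200090d4e81)))) (.nd (nat_lit 27) 
(.lf (nat_lit 3758197502) (dlOf (nat_lit 1) (nat_lit 0x200080d5a81))) 
(.lf (nat_lit 3892415230) (dlOf (nat_lit 1) (nat_lit 0x20028105a81)))))) (.nd (nat_lit 8) 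
(.nd (nat_lit 25) (.nd (nat_lit 7) 
(.lf (nat_lit 6442550334) (dlOf (nat_lit 1) (nat_lit 0x4004000200080f2882))) 
(.lf (nat_lit 20025022) (dlOf (nat_lit 1) (nat_lit 0x400189d7281)))) (.nd (nat_lit 19) 
(.lf (nat_lit 36799550) (dlOf (nat_lit 1) (nat_lit 0x20019072881))) 
(.lf (nat_lit 49906750) (dlOf (nat_lit 1) (nat_lit 0xc002000800094c2882))))) (.nd (nat_lit 6) 
(.nd (nat_lit 7) 
(.lf (nat_lit 2818671934) (dlOf (nat_lit 1) (nat_lit 0x80080018002000600080d3283))) 
(.lf (nat_lit 100286) (dlOf (nat_lit 1) (nat_lit 0x400400020008004382)))) (.nd (nat_lit 7) 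
(.lf (nat_lit 134323582) (dlOf (nat_lit 3) (nat_lit 0xc03b0021b01000601d8010cc0800180080150002001a000800c903))) 
(.lf (nat_lit 8494590) (dlOf (nat_lit 1) (nat_lit 0x2000851cd01))))))) (.nd (nat_lit 27) 
(.nd (nat_lit 29) (.nd (nat_lit 10) (.nd (nat_lit 11) 
(.lf (nat_lit 1140949054) (dlOf (nat_lit 1) (nat_lit 0x1400400060008020482))) 
(.lf (nat_lit 4362180670) (dlOf (nat_lit 1) (nat_lit 0x2000800a681)))) 
(.lf (nat_lit 4362175550) (dlOf (nat_lit 1) (nat_lit 0xc00400080018002882)))) (.nd (nat_lit 20) 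
(.nd (nat_lit 7) 
(.lf (nat_lit 5972787262) (dlOf (nat_lit 3) (nat_lit 0x1c000000ab02000400d000000180d0c00))) 
(.lf (nat_lit 604078270) (dlOf (nat_lit 3) (nat_lit 0x101c8000380800100d80000004000c00200080008010382)))) 
(.nd (nat_lit 9) 
(.lf (nat_lit 2752610366) (dlOf (nat_lit 2) (nat_lit 0xa1238000080800400080018002006a0008020703))) 
(.lf (nat_lit 2753135166) (dlOf (nat_lit 2) (nat_lit 0x1c48a009c1fe000c0ae00000018001000802a8002001e0008091083)))))) 
(.nd (nat_lit 7) (.nd (nat_lit 10) (.nd (nat_lit 11) 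
(.lf (nat_lit 2348908606) (dlOf (nat_lit 2) (nat_lit 0x8402a003101400000010014800800b800200a60008020703))) 
(.lf (nat_lit 201431102) (dlOf (nat_lit 1) (nat_lit 0x1800801380020006000800a683)))) 
(.lf (nat_lit 201425982) (dlOf (nat_lit 2) (nat_lit 0x2012802bbe04000400200020008002882)))) 
(.nd (nat_lit 6) 
(.lf (nat_lit 1812040894) (dlOf (nat_lit 2) (nat_lit 0xc005800000080018008001400200020008146303))) 
(.lf (nat_lit 3422650622) (dlOf (nat_lit 3) (nat_lit 0xc07600120370001c82000201d8000e0080028008003c002000a0008014603))))))) 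
(.nd (nat_lit 7) (.nd (nat_lit 27) (.nd (nat_lit 12) (.nd (nat_lit 19) (.nd (nat_lit 10) 
(.lf (nat_lit 25272382) (dlOf (nat_lit 2) (nat_lit 0x303510004f818bf0b80))) 
(.lf (nat_lit 5972796478) (dlOf (nat_lit 1) (nat_lit 0x400400020008142882)))) (.nd (nat_lit 20) 
(.lf (nat_lit 3221856318) (dlOf (nat_lit 8) (nat_lit 0x14005e0014f0200a002f000850100510178004140800f815001cc0a000c803f0073019800c00c001d405c00e602a001c00780398024000aa24033007e02220330009018008b80b8020801e000540a00a602f0002781002201780000c080020008042800200aa00081a1403))) 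
(.lf (nat_lit 37331006) (dlOf (nat_lit 1) (nat_lit 0x12c00190d0001))))) (.nd (nat_lit 6) 
(.lf (nat_lit 536983614) (dlOf (nat_lit 1) (nat_lit 0x2002800a681))) (.nd (nat_lit 9) 
(.lf (nat_lit 638334) (dlOf (nat_lit 1) (nat_lit 0xe4000800c901))) 
(.lf (nat_lit 8500094) (dlOf (nat_lit 1) (nat_lit 0x20028519001)))))) (.nd (nat_lit 10) 
(.nd (nat_lit 6) (.nd (nat_lit 19) 
(.lf (nat_lit 2348916798) (dlOf (nat_lit 5) (nat_lit 0x3f00680010408002003c014401a00040000001b0300020048000d00809b00a80608050000a0180008006000000200588008010c002004a0008020703))) 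
(.lf (nat_lit 134848574) (dlOf (nat_lit 3) (nat_lit 0x3e00480015408007813c00200120005404000600080c1401)))) 
(.lf (nat_lit 5503033470) (dlOf (nat_lit 2) (nat_lit 0x3009000000080058008004c00200080008030d03)))) 
(.nd (nat_lit 8) (.lf (nat_lit 1275175998) (dlOf (nat_lit 1) (nat_lit 0x30004000a0018092882))) 
(.lf (nat_lit 2818680126) (dlOf (nat_lit 1) (nat_lit 0x24002001e00080d3282)))))) (.nd (nat_lit 9) 
(.nd (nat_lit 10) (.nd (nat_lit 26) 
(.lf (nat_lit 5368815806) (dlOf (nat_lit 2) (nat_lit 0xc004c0006404001c00200040008031a82))) 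
(.lf (nat_lit 604086462) (dlOf (nat_lit 1) (nat_lit 0x40008010381)))) (.nd (nat_lit 6) 
(.nd (nat_lit 20) 
(.lf (nat_lit 1812049086) (dlOf (nat_lit 3) (nat_lit 0xc00b0001a81000e005800000080028008000c00200020008146303))) 
(.lf (nat_lit 20032702) (dlOf (nat_lit 2) (nat_lit 0x1319150098c3780008c10039800805d0002006000089d6303)))) 
(.lf (nat_lit 134327550) (dlOf (nat_lit 1) (nat_lit 0x1400400440018006602))))) (.nd (nat_lit 6) 
(.nd (nat_lit 26) (.lf (nat_lit 6576778942) (dlOf (nat_lit 1) (nat_lit 0x260008147281))) 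
(.lf (nat_lit 1812049598) (dlOf (nat_lit 1) (nat_lit 0x400400020018147282)))) (.nd (nat_lit 8) 
(.lf (nat_lit 57780990) (dlOf (nat_lit 1) (nat_lit 0x8008000400200020009795a83))) 
(.lf (nat_lit 8502270) (dlOf (nat_lit 1) (nat_lit 0x2001851bf01))))))))) (.nd (nat_lit 13) 
(.nd (nat_lit 6) (.nd (nat_lit 20) (.nd (nat_lit 16) (.nd (nat_lit 8) (.nd (nat_lit 22) 
(.nd (nat_lit 26) (.nd (nat_lit 19) (.nd (nat_lit 29) 
(.lf (nat_lit 1208254526) (dlOf (nat_lit 4) (nat_lit 0x12029000f0060001d41000380a400280180007404001002900090060001cc1002d8008016c002000200080b0483))) 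
(.lf (nat_lit 671383614) (dlOf (nat_lit 9) (nat_lit 0x20128001940805e009400c4000000640402a602501b501100590048000c20c058c04a031e0220003002002c01280040088000500805b404a033e0220001102005a01280006c0805f8094000000424c8004037c0018170d82)))) 
(.lf (nat_lit 819262) (dlOf (nat_lit 5) (nat_lit 0x205a80003804000c3e2008416a00020578004828c0003610009c3e200220a30000a0200110b5000000080250008005400200080008020703)))) 
(.nd (nat_lit 21) 
(.lf (nat_lit 2349105214) (dlOf (nat_lit 6) (nat_lit 0x2e00880003804003405200e002200050100005804c002c01e0001a0a0084029006501100002c1001a00880001404010c0440000902003000280a0c81))) 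
(.lf (nat_lit 2753855550) (dlOf (nat_lit 1) (nat_lit 0x28002001800080a0c82))))) (.nd (nat_lit 9) 
(.nd (nat_lit 19) 
(.lf (nat_lit 12877886) (dlOf (nat_lit 2) (nat_lit 0x30c780013e02002600286e0c01))) 
(.lf (nat_lit 21790782) (dlOf (nat_lit 1) (nat_lit 0x6a0018a70701)))) 
(.lf (nat_lit 23364158) (dlOf (nat_lit 1) (nat_lit 0x20028b81081))))) (.nd (nat_lit 29) 
(.nd (nat_lit 19) (.lf (nat_lit 3221520702) (dlOf (nat_lit 2) (nat_lit 0x16045001f8018124c00))) 
(.lf (nat_lit 51151166) (dlOf (nat_lit 8) (nat_lit 0x18e84000c7418001dc10002ba10000ec04001dd080007102000ee840003801000674200018c080033a10000c204001dd08000000200020009507d01)))) 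
(.nd (nat_lit 26) 
(.lf (nat_lit 537166142) (dlOf (nat_lit 1) (nat_lit 0x10008000c00200060008048503))) 
(.lf (nat_lit 3959718206) (dlOf (nat_lit 2) (nat_lit 0x16045004c5018124c00)))))) (.nd (nat_lit 7) 
(.nd (nat_lit 19) (.lf (nat_lit 4899307582) (dlOf (nat_lit 1) (nat_lit 0x400400020018100482))) 
(.nd (nat_lit 21) 
(.lf (nat_lit 21856318) (dlOf (nat_lit 3) (nat_lit 0x2c0000001040800700000000004001c00200160008a70702))) 
(.lf (nat_lit 53313598) (dlOf (nat_lit 1) (nat_lit 0x20019590481))))) (.nd (nat_lit 8) 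
(.nd (nat_lit 22) 
(.lf (nat_lit 1208320190) (dlOf (nat_lit 1) (nat_lit 0x400080058002001000080c1a83))) 
(.lf (nat_lit 21332158) (dlOf (nat_lit 2) (nat_lit 0x40e900019018a31a80)))) 
(.lf (nat_lit 8754622) (dlOf (nat_lit 1) (nat_lit 0x20028519a01)))))) (.nd (nat_lit 19) 
(.nd (nat_lit 16) (.nd (nat_lit 7) 
(.lf (nat_lit 24412222) (dlOf (nat_lit 2) (nat_lit 0xf4000000320200020008b90c81))) (.nd (nat_lit 9) 
(.lf (nat_lit 13926590) (dlOf (nat_lit 1) (nat_lit 0x8008001000200060008750383))) 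
(.lf (nat_lit 20220606) (dlOf (nat_lit 1) (nat_lit 0x5c00189d5781))))) (.nd (nat_lit 21) 
(.nd (nat_lit 23) (.lf (nat_lit 1409086) (dlOf (nat_lit 1) (nat_lit 0x2400280c0d81))) 
(.lf (nat_lit 9797694) (dlOf (nat_lit 1) (nat_lit 0x400400020008580482)))) 
(.lf (nat_lit 62226494) (dlOf (nat_lit 1) (nat_lit 0x400400020009980e02))))) (.nd (nat_lit 9) 
(.nd (nat_lit 21) (.nd (nat_lit 22) 
(.lf (nat_lit 10256446) (dlOf (nat_lit 1) (nat_lit 0x8002000200085c0d82))) 
(.lf (nat_lit 22839358) (dlOf (nat_lit 20) (nat_lit 0x9be80022dec00136a58007334c0007e100015a960003e020020df500136fa000737b00035a96001ecd30001e85000a6f60007352c002d9a600029640001b0400026fa800337b000819a600029640001a0400046fa800137b0001da960004cd30001684000a6fa800437b0001da960010cd30001504000c6fa8000b7b00035a960008cd3000148400046f60002b52c00159a600023060016df500086f60003b52c00219a60002008000adf500066a580007c1000337d40011bd80006d4b000466980007420004b7b00021a960012cd30000e0300066fa8003b7b00019a960008cd3000060400056a580002c08002b7d40011bd8000cd4b000666980002820005b7b00029a960014cd3000048300056a58000200800537d40025bd80010d4b0009669800000200010008005400200060008b30e83))))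 
(.nd (nat_lit 8) (.lf (nat_lit 45908030) (dlOf (nat_lit 2) (nat_lit 0x4031200020400011e029360600))) 
(.lf (nat_lit 8164670) (dlOf (nat_lit 1) (nat_lit 0x20018519901))))) (.nd (nat_lit 12) 
(.lf (nat_lit 58559038) (dlOf (nat_lit 1) (nat_lit 0x13800097e5201))) 
(.lf (nat_lit 8165950) (dlOf (nat_lit 1) (nat_lit 0x840020002000851b482))))))) (.nd (nat_lit 8) 
(.nd (nat_lit 7) (.nd (nat_lit 19) (.nd (nat_lit 27) 
(.lf (nat_lit 3288629374) (dlOf (nat_lit 1) (nat_lit 0x20018090081))) 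
(.lf (nat_lit 6107201662) (dlOf (nat_lit 1) (nat_lit 0x8004000200080a2002)))) (.nd (nat_lit 16) 
(.lf (nat_lit 4362895486) (dlOf (nat_lit 1) (nat_lit 0x600080008002000800081a0083))) 
(.lf (nat_lit 12419198) (dlOf (nat_lit 2) (nat_lit 0xee64002a4040004002000e00086c0082))))) 
(.nd (nat_lit 12) (.nd (nat_lit 9) 
(.lf (nat_lit 8750334) (dlOf (nat_lit 1) (nat_lit 0x40028512f01))) 
(.lf (nat_lit 297726) (dlOf (nat_lit 1) (nat_lit 0x20028005a81)))) (.nd (nat_lit 20) 
(.lf (nat_lit 8755454) (dlOf (nat_lit 1) (nat_lit 0x40040018000851a982))) 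
(.lf (nat_lit 20289790) (dlOf (nat_lit 1) (nat_lit 0x80080004002000200089da983)))))) 
(.nd (nat_lit 11) (.nd (nat_lit 26) (.nd (nat_lit 29) 
(.lf (nat_lit 6442746366) (dlOf (nat_lit 1) (nat_lit 0x200080044002001200081b0d83))) 
(.lf (nat_lit 5905875454) (dlOf (nat_lit 5) (nat_lit 0x1a8094000ba0400e004a0005c020100025000210100010128000f80800b8008001400200260008157e03)))) 
(.lf (nat_lit 3959718398) (dlOf (nat_lit 6) (nat_lit 0x26c03e000d01e0026803800e401800360000001185014f01f003e003802040180012004004c0000000882809880f8012801c004c00c004d002000d00000003c14042807c007400e0016006002b001000040000001c0a022203e003d00700006c10063800806fc002010c0008127e03)))) 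
(.nd (nat_lit 7) (.nd (nat_lit 19) 
(.lf (nat_lit 56920446) (dlOf (nat_lit 1) (nat_lit 0x20019794e81))) 
(.lf (nat_lit 36473214) (dlOf (nat_lit 1) (nat_lit 0x60019074e81)))) (.nd (nat_lit 12) 
(.lf (nat_lit 20745214) (dlOf (nat_lit 1) (nat_lit 0x200289d5f01))) 
(.lf (nat_lit 2818874366) (dlOf (nat_lit 1) (nat_lit 0x3000800080020004000812bf03)))))))) 
(.nd (nat_lit 29) (.nd (nat_lit 7) (.nd (nat_lit 19) (.nd (nat_lit 16) (.nd (nat_lit 8) 
(.nd (nat_lit 9) 
(.lf (nat_lit 1208262718) (dlOf (nat_lit 4) (nat_lit 0x60060001d4080018030000e80400100520007302000600180b0481))) 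
(.lf (nat_lit 3221529150) (dlOf (nat_lit 3) (nat_lit 0x270027002570100ea0138012b4080068008000400200100008128203)))) 
(.lf (nat_lit 4362379582) (dlOf (nat_lit 1) (nat_lit 0xc00400020008048502)))) (.nd (nat_lit 6) 
(.nd (nat_lit 20) 
(.lf (nat_lit 6509928510) (dlOf (nat_lit 2) (nat_lit 0x18000000130200020028160701))) 
(.lf (nat_lit 24485950) (dlOf (nat_lit 1) (nat_lit 0xc00200060008ba0c02)))) (.nd (nat_lit 11) 
(.lf (nat_lit 19243134) (dlOf (nat_lit 1) (nat_lit 0x400200020008970482))) 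
(.lf (nat_lit 370814) (dlOf (nat_lit 1) (nat_lit 0x18008001000200020008004783)))))) 
(.nd (nat_lit 22) (.nd (nat_lit 6) (.nd (nat_lit 16) 
(.lf (nat_lit 827454) (dlOf (nat_lit 1) (nat_lit 0x400200020008020702))) 
(.lf (nat_lit 42836030) (dlOf (nat_lit 1) (nat_lit 0x8008000800200020009280603)))) 
(.nd (nat_lit 26) (.lf (nat_lit 135045246) (dlOf (nat_lit 2) (nat_lit 0x4005000fd0181b0080))) 
(.lf (nat_lit 202154110) (dlOf (nat_lit 2) (nat_lit 0x4005000f40181b0080))))) (.nd (nat_lit 9) 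
(.nd (nat_lit 20) 
(.lf (nat_lit 21798974) (dlOf (nat_lit 3) (nat_lit 0x12000000104080340d440006c04002c00400120008a70702))) 
(.lf (nat_lit 22847550) (dlOf (nat_lit 19) (nat_lit 0x5be8000cdec00036f58007b52c0007e10001da960003e020012df500066fa000737b00005bd6001ed4b000b6698000f43000337b00031a960010cd30001b03000d6fa800737b0003da960022cd30001a0400086fa8004b7b0002da960014cd3000168400056fa800337b00015a960008cd3000150400096fa8004b52c00159a600029060002dec00016a580008c10004b7d40021bd8000cd4b00086698000802000437d40015a960008cd30000f8300096fa800537b00031a960014cd30000e84000a6f60000b52c00299a60001c060012dec000a6a58002b34c000180c0019a960000b02000adec00076a58003334c000140c0039bd8001ed4b000e66980002418004b7d40029bd80014d4b000b6698000002000580080010002001a0008b30e83)))) 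
(.lf (nat_lit 58567230) (dlOf (nat_lit 1) (nat_lit 0x9800097e5201)))))) (.nd (nat_lit 9) 
(.nd (nat_lit 27) (.nd (nat_lit 8) (.nd (nat_lit 20) (.nd (nat_lit 21) 
(.lf (nat_lit 4362379454) (dlOf (nat_lit 1) (nat_lit 0x20018045501))) 
(.lf (nat_lit 2400446) (dlOf (nat_lit 1) (nat_lit 0x28008001c00200120008150403)))) 
(.lf (nat_lit 13934782) (dlOf (nat_lit 1) (nat_lit 0x400200020008750382)))) 
(.lf (nat_lit 1074045374) (dlOf (nat_lit 2) (nat_lit 0x5c0520001c0200060018090881)))) 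
(.nd (nat_lit 19) (.lf (nat_lit 5503230142) (dlOf (nat_lit 1) (nat_lit 0x4004004a00080c1a82))) 
(.nd (nat_lit 26) (.lf (nat_lit 135045310) (dlOf (nat_lit 1) (nat_lit 0x7c002004200081b0402))) 
(.lf (nat_lit 202154174) (dlOf (nat_lit 1) (nat_lit 0x7c002004200081b0402)))))) (.nd (nat_lit 6) 
(.lf (nat_lit 8172222) (dlOf (nat_lit 1) (nat_lit 0x60028518c81))) (.nd (nat_lit 21) 
(.lf (nat_lit 305918) (dlOf (nat_lit 1) (nat_lit 0x20028005a81))) 
(.lf (nat_lit 56929022) (dlOf (nat_lit 1) (nat_lit 0x20029795a81))))))) (.nd (nat_lit 31) 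
(.nd (nat_lit 16) (.nd (nat_lit 6) (.nd (nat_lit 7) (.nd (nat_lit 27) 
(.lf (nat_lit 537174334) (dlOf (nat_lit 1) (nat_lit 0x78008000400200180008048503))) 
(.lf (nat_lit 671392062) (dlOf (nat_lit 14) (nat_lit 0x4400e8012806000e8010008400500510000001742801d0020010000a00a20000002e03000200c0001540801e80b0011404c003401d004400c0019004000bc000000540c007c02c00410130037007400fc0300074010003400000014c3000e0098000a4040084058005e026001600e8016006000d4010005c005003200100268000000a22000dc0100074005004700100268000000a01000e80100082005004e0000001301800c00000009604014001000a80050062000000128180220020011400a00048040070018004800400268014000840c000c004006a0018188502)))) 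
(.lf (nat_lit 4966359230) (dlOf (nat_lit 1) (nat_lit 0x8004000c00080c1a82)))) (.nd (nat_lit 7) 
(.lf (nat_lit 738503294) (dlOf (nat_lit 1) (nat_lit 0x400400180008095482))) 
(.lf (nat_lit 1610917118) (dlOf (nat_lit 1) (nat_lit 0x20028092f01))))) (.nd (nat_lit 26) 
(.nd (nat_lit 32) 
(.lf (nat_lit 1610981438) (dlOf (nat_lit 3) (nat_lit 0x240aa000c0370004b02000501b8002140800180080014002000600080b0483))) 
(.lf (nat_lit 5905948734) (dlOf (nat_lit 2) (nat_lit 0x18000000140200020028160701)))) 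
(.nd (nat_lit 27) (.lf (nat_lit 4899315774) (dlOf (nat_lit 1) (nat_lit 0x400400020008100482))) 
(.lf (nat_lit 738566206) (dlOf (nat_lit 3) (nat_lit 0x240aa000c0370004b02000501b8002140800180080014002000600080b0483)))))) 
(.nd (nat_lit 16) (.nd (nat_lit 6) (.nd (nat_lit 19) (.nd (nat_lit 21) 
(.lf (nat_lit 3825508414) (dlOf (nat_lit 2) (nat_lit 0xd005000184080028008003400200220008170d83))) 
(.lf (nat_lit 2753863742) (dlOf (nat_lit 1) (nat_lit 0x4c004000e00180a0c82)))) 
(.lf (nat_lit 2754388030) (dlOf (nat_lit 1) (nat_lit 0x80080008002000400080e0d83)))) 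
(.nd (nat_lit 9) 
(.lf (nat_lit 3959726590) (dlOf (nat_lit 8) (nat_lit 0x6e407c001003c010a007007f003002a4000000230a031e03e01070070087803003480000002208004c00e0001081021d01f00b88038058001802340000000f04017901f006e80380378018013a0000000e04010501f003400380003608004c01c0001a0201b80028127e01))) 
(.lf (nat_lit 2751767550) (dlOf (nat_lit 1) (nat_lit 0x400200020008002882))))) (.nd (nat_lit 19) 
(.nd (nat_lit 21) 
(.lf (nat_lit 2756026430) (dlOf (nat_lit 4) (nat_lit 0x14456000a22a00021148003085400244100004456000422a00021148002885400242100010456000a22a00051148003085400240100048002001e00081d0c02))) 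
(.lf (nat_lit 2753929278) (dlOf (nat_lit 3) (nat_lit 0x1ca08900e704400006c10015022401501100001a04002e00280a0c81)))) 
(.nd (nat_lit 7) (.lf (nat_lit 2819465278) (dlOf (nat_lit 1) (nat_lit 0xfb00020aba00082a0a02))) 
(.lf (nat_lit 2754456766) (dlOf (nat_lit 1) (nat_lit 0xc00280f6301))))))))))) (.nd (nat_lit 26) 
(.nd (nat_lit 16) (.nd (nat_lit 13) (.nd (nat_lit 7) (.nd (nat_lit 15) (.nd (nat_lit 6) 
(.nd (nat_lit 10) (.nd (nat_lit 8) (.nd (nat_lit 18) 
(.lf (nat_lit 1344274494) (dlOf (nat_lit 1) (nat_lit 0x100080028002000c0008560483))) 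
(.lf (nat_lit 5773197374) (dlOf (nat_lit 1) (nat_lit 0xa00080b0481)))) 
(.lf (nat_lit 1346371902) (dlOf (nat_lit 1) (nat_lit 0x40018f60b81)))) (.nd (nat_lit 9) 
(.lf (nat_lit 2415920190) (dlOf (nat_lit 1) (nat_lit 0x800400020008002882))) 
(.lf (nat_lit 5234755134) (dlOf (nat_lit 7) (nat_lit 0x1100d0009002c00046080064034003201800220058000841800080680004030000200400c201a006200c0033002c0000a0c000c034000400b0000102000b00d00058060002801c001600b000d0038000002800400080014002000e00080d3783))))) 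
(.nd (nat_lit 12) (.nd (nat_lit 8) 
(.lf (nat_lit 5771627134) (dlOf (nat_lit 1) (nat_lit 0x20028005481))) (.nd (nat_lit 11) 
(.lf (nat_lit 2415921022) (dlOf (nat_lit 1) (nat_lit 0x400400020008004102))) 
(.lf (nat_lit 1476398974) (dlOf (nat_lit 1) (nat_lit 0x28004001a0008007782))))) (.nd (nat_lit 8) 
(.lf (nat_lit 1342183550) (dlOf (nat_lit 1) (nat_lit 0x40040002000800a882))) (.nd (nat_lit 27) 
(.lf (nat_lit 1879055230) (dlOf (nat_lit 1) (nat_lit 0x40040002000800bc82))) 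
(.lf (nat_lit 2550143870) (dlOf (nat_lit 1) (nat_lit 0x80040002000800bc82))))))) (.nd (nat_lit 31) 
(.nd (nat_lit 6) (.nd (nat_lit 10) (.nd (nat_lit 18) 
(.lf (nat_lit 1346404414) (dlOf (nat_lit 1) (nat_lit 0x20028f60001))) (.nd (nat_lit 19) 
(.lf (nat_lit 1879343166) (dlOf (nat_lit 1) (nat_lit 0x80080004002000400080e0c03))) 
(.lf (nat_lit 1346142270) (dlOf (nat_lit 2) (nat_lit 0x14d05340a701b204d40d8000e03e00091c200208008001000200920008e60603))))) 
(.nd (nat_lit 19) (.lf (nat_lit 268469310) (dlOf (nat_lit 1) (nat_lit 0x20028052881))) 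
(.lf (nat_lit 1344832574) (dlOf (nat_lit 3) (nat_lit 0x60468019f408004023400cf804000c00400660018982882))))) 
(.nd (nat_lit 8) (.lf (nat_lit 1476434046) (dlOf (nat_lit 1) (nat_lit 0x54000800a881))) 
(.nd (nat_lit 9) (.lf (nat_lit 1342212478) (dlOf (nat_lit 1) (nat_lit 0x8004000e0008004e82))) 
(.lf (nat_lit 1476431742) (dlOf (nat_lit 1) (nat_lit 0x2c00400080008007782)))))) (.nd (nat_lit 21) 
(.nd (nat_lit 6) (.nd (nat_lit 8) (.nd (nat_lit 20) 
(.lf (nat_lit 3493888062) (dlOf (nat_lit 1) (nat_lit 0x80080004002000200081b0003))) 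
(.lf (nat_lit 3490742334) (dlOf (nat_lit 2) (nat_lit 0x1b88c40004a04002000200660008020702)))) 
(.lf (nat_lit 6710922046) (dlOf (nat_lit 2) (nat_lit 0x802c000e015000b00a0002f8180038008000c00200220008005c03)))) 
(.lf (nat_lit 4026826878) (dlOf (nat_lit 1) (nat_lit 0x20018090081)))) (.nd (nat_lit 18) 
(.nd (nat_lit 20) 
(.lf (nat_lit 3492315198) (dlOf (nat_lit 3) (nat_lit 0x487f000bc3ce000550402401fc00070b280015010025800802a0002003400080c1403))) 
(.lf (nat_lit 3493363774) (dlOf (nat_lit 3) (nat_lit 0x60250001180800e81280008a04001400200140008120d82)))) 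
(.lf (nat_lit 3492053054) (dlOf (nat_lit 1) (nat_lit 0x28002001800080a0c82))))))) (.nd (nat_lit 8) 
(.nd (nat_lit 31) (.nd (nat_lit 6) (.nd (nat_lit 9) 
(.lf (nat_lit 4563665086) (dlOf (nat_lit 1) (nat_lit 0x40008001c002000600080c1a83))) 
(.nd (nat_lit 12) (.lf (nat_lit 2013268670) (dlOf (nat_lit 1) (nat_lit 0x400400020008005782))) 
(.lf (nat_lit 1879055038) (dlOf (nat_lit 1) (nat_lit 0xa002800b901))))) (.nd (nat_lit 11) 
(.nd (nat_lit 10) (.lf (nat_lit 1345880318) (dlOf (nat_lit 1) (nat_lit 0x3c00400080008e02902))) 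
(.lf (nat_lit 5772182782) (dlOf (nat_lit 1) (nat_lit 0x400400020008092f02)))) (.nd (nat_lit 29) 
(.lf (nat_lit 1342180606) (dlOf (nat_lit 1) (nat_lit 0x400400020008006602))) 
(.lf (nat_lit 1879051518) (dlOf (nat_lit 1) (nat_lit 0x400400020008006602)))))) (.nd (nat_lit 27) 
(.nd (nat_lit 18) (.nd (nat_lit 9) 
(.lf (nat_lit 3489664190) (dlOf (nat_lit 2) (nat_lit 0x1d620a00011818006300))) 
(.lf (nat_lit 6710889150) (dlOf (nat_lit 1) (nat_lit 0x400400020008005782)))) (.nd (nat_lit 15) 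
(.lf (nat_lit 3489926334) (dlOf (nat_lit 2) (nat_lit 0x3b83d4001a1d900080e880008c180028008000c00200020008006303))) 
(.lf (nat_lit 3489959102) (dlOf (nat_lit 2) (nat_lit 0x6482fc0028114000230400060028006301))))) 
(.nd (nat_lit 6) 
(.lf (nat_lit 2550172862) (dlOf (nat_lit 2) (nat_lit 0x380980004604002000400060018006302))) 
(.nd (nat_lit 9) (.lf (nat_lit 2550140158) (dlOf (nat_lit 1) (nat_lit 0x400400020008006602))) 
(.lf (nat_lit 4160750334) (dlOf (nat_lit 1) (nat_lit 0x400400020008002102))))))) (.nd (nat_lit 9) 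
(.nd (nat_lit 12) (.nd (nat_lit 15) (.nd (nat_lit 11) 
(.lf (nat_lit 1342702014) (dlOf (nat_lit 1) (nat_lit 0xa200180c0881))) 
(.lf (nat_lit 1344801214) (dlOf (nat_lit 1) (nat_lit 0x1800400060008984e82)))) (.nd (nat_lit 6) 
(.lf (nat_lit 1345880510) (dlOf (nat_lit 1) (nat_lit 0x20018e07001))) 
(.lf (nat_lit 4563437054) (dlOf (nat_lit 2) (nat_lit 0x1805c0003c0200020008003681))))) 
(.nd (nat_lit 15) (.nd (nat_lit 29) 
(.lf (nat_lit 1342181822) (dlOf (nat_lit 1) (nat_lit 0x20008008601))) 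
(.lf (nat_lit 1879052734) (dlOf (nat_lit 1) (nat_lit 0x40028008601)))) (.nd (nat_lit 6) 
(.lf (nat_lit 1342214590) (dlOf (nat_lit 1) (nat_lit 0x380080068002001a0008008603))) 
(.lf (nat_lit 2952830462) (dlOf (nat_lit 1) (nat_lit 0xb0008001c002003a000800cd03)))))) 
(.nd (nat_lit 10) (.nd (nat_lit 6) (.nd (nat_lit 27) 
(.lf (nat_lit 6710889406) (dlOf (nat_lit 1) (nat_lit 0x8008000400200020008005d03))) 
(.lf (nat_lit 2013268926) (dlOf (nat_lit 1) (nat_lit 0x400400020008005d02)))) 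
(.lf (nat_lit 2415952894) (dlOf (nat_lit 1) (nat_lit 0x57800804cc002018c0008002883)))) 
(.nd (nat_lit 29) (.lf (nat_lit 2415921086) (dlOf (nat_lit 1) (nat_lit 0x400400020008004382))) 
(.lf (nat_lit 4026533822) (dlOf (nat_lit 1) (nat_lit 0x400400020008004382)))))))) (.nd (nat_lit 11) 
(.nd (nat_lit 18) (.nd (nat_lit 8) (.nd (nat_lit 15) (.nd (nat_lit 9) (.nd (nat_lit 21) 
(.lf (nat_lit 4027064382) (dlOf (nat_lit 2) (nat_lit 0xc00c0000002000200081d0c01))) 
(.lf (nat_lit 3492290622) (dlOf (nat_lit 5) (nat_lit 0x26408a000803e802681e0000b00c001017e008609d014c045003a81e0011c0ec000570a04d41fc01e90f3800d078807f8320037e15d01850ae002184d8019417003720000002a090003045000000080e680080780002001200080c1403)))) 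
(.lf (nat_lit 1342710334) (dlOf (nat_lit 3) (nat_lit 0x6091c000ac0403f84780000702000200080c1081)))) 
(.nd (nat_lit 6) (.nd (nat_lit 10) (.nd (nat_lit 19) 
(.lf (nat_lit 1346412606) (dlOf (nat_lit 1) (nat_lit 0x1c004000c0008f60002))) 
(.lf (nat_lit 3492323390) (dlOf (nat_lit 1) (nat_lit 0x1000180c1401)))) 
(.lf (nat_lit 1344840766) (dlOf (nat_lit 2) (nat_lit 0x827000cfa04000400200020008982882)))) 
(.lf (nat_lit 1345888510) (dlOf (nat_lit 1) (nat_lit 0x420008e02901))))) (.nd (nat_lit 12) 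
(.nd (nat_lit 6) (.nd (nat_lit 7) 
(.lf (nat_lit 1346380094) (dlOf (nat_lit 2) (nat_lit 0x621e0001d018f60b80))) 
(.lf (nat_lit 1342710206) (dlOf (nat_lit 2) (nat_lit 0x1a82a80004a02000800280c0881)))) 
(.lf (nat_lit 1342710270) (dlOf (nat_lit 2) (nat_lit 0x3423c0010c8180c0d80)))) (.nd (nat_lit 7) 
(.lf (nat_lit 1476441918) (dlOf (nat_lit 1) (nat_lit 0x100080020002004e000800a103))) 
(.nd (nat_lit 29) (.lf (nat_lit 1342190014) (dlOf (nat_lit 1) (nat_lit 0x400200020008008602))) 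
(.lf (nat_lit 1879060926) (dlOf (nat_lit 1) (nat_lit 0x20028008601))))))) (.nd (nat_lit 15) 
(.nd (nat_lit 27) (.nd (nat_lit 29) 
(.lf (nat_lit 1342447678) (dlOf (nat_lit 1) (nat_lit 0x800200060008030d82))) (.nd (nat_lit 30) 
(.lf (nat_lit 805576766) (dlOf (nat_lit 1) (nat_lit 0x220028130901))) 
(.lf (nat_lit 1879318590) (dlOf (nat_lit 2) (nat_lit 0xf800000046040038002001200080d0c82))))) 
(.nd (nat_lit 7) (.nd (nat_lit 19) 
(.lf (nat_lit 3087278142) (dlOf (nat_lit 3) (nat_lit 0x1001d000010100050050002001c00000080008004000a0008160702))) 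
(.lf (nat_lit 5773205566) (dlOf (nat_lit 2) (nat_lit 0x102640007302006600080b0481)))) 
(.lf (nat_lit 4697891006) (dlOf (nat_lit 1) (nat_lit 0xc0002006600080c1702))))) (.nd (nat_lit 7) 
(.nd (nat_lit 19) 
(.lf (nat_lit 3087310910) (dlOf (nat_lit 2) (nat_lit 0xd005000190080028008003400200220008170d83))) 
(.nd (nat_lit 20) 
(.lf (nat_lit 3492585534) (dlOf (nat_lit 1) (nat_lit 0x80080008002000400080e0d83))) 
(.lf (nat_lit 1346150462) (dlOf (nat_lit 2) (nat_lit 0x5b06c800081f402300f8002470600280008e60601))))) 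
(.nd (nat_lit 6) (.nd (nat_lit 32) 
(.lf (nat_lit 268738750) (dlOf (nat_lit 2) (nat_lit 0x21002800019018111a80))) 
(.lf (nat_lit 4563706046) (dlOf (nat_lit 2) (nat_lit 0x490148000c0080080008004c002002800080c1a83)))) 
(.lf (nat_lit 5234795774) (dlOf (nat_lit 1) (nat_lit 0x800280d2f01))))))) (.nd (nat_lit 10) 
(.nd (nat_lit 9) (.nd (nat_lit 12) (.nd (nat_lit 8) 
(.lf (nat_lit 3493111934) (dlOf (nat_lit 1) (nat_lit 0x200180f4781))) (.nd (nat_lit 27) 
(.lf (nat_lit 3489671550) (dlOf (nat_lit 1) (nat_lit 0x20018004e81))) 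
(.lf (nat_lit 5771372926) (dlOf (nat_lit 1) (nat_lit 0x3400400080008004e82))))) (.nd (nat_lit 6) 
(.nd (nat_lit 15) (.lf (nat_lit 3493083198) (dlOf (nat_lit 1) (nat_lit 0x70004014000080fa682))) 
(.lf (nat_lit 805353534) (dlOf (nat_lit 1) (nat_lit 0x40020002000800a682)))) 
(.lf (nat_lit 1476442238) (dlOf (nat_lit 2) (nat_lit 0x500700295c080008008005c002005e000800a883))))) 
(.nd (nat_lit 7) (.nd (nat_lit 8) (.nd (nat_lit 15) 
(.lf (nat_lit 6710897278) (dlOf (nat_lit 1) (nat_lit 0x20028005481))) 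
(.lf (nat_lit 4697664126) (dlOf (nat_lit 1) (nat_lit 0x8008000400200020008005483)))) 
(.lf (nat_lit 2013277054) (dlOf (nat_lit 1) (nat_lit 0x8008000400200020008005c03)))) 
(.nd (nat_lit 6) (.nd (nat_lit 8) 
(.lf (nat_lit 1879063230) (dlOf (nat_lit 1) (nat_lit 0x10002800b901))) 
(.lf (nat_lit 5771373502) (dlOf (nat_lit 1) (nat_lit 0x400400020008005d02)))) 
(.lf (nat_lit 2013571838) (dlOf (nat_lit 1) (nat_lit 0x40008000c002000c0008125a83)))))) 
(.nd (nat_lit 6) (.nd (nat_lit 18) (.nd (nat_lit 29) (.nd (nat_lit 27) 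
(.lf (nat_lit 3489672382) (dlOf (nat_lit 2) (nat_lit 0x12401e00011818006300))) 
(.lf (nat_lit 2550148286) (dlOf (nat_lit 1) (nat_lit 0x100018006301)))) (.nd (nat_lit 9) 
(.lf (nat_lit 1879059646) (dlOf (nat_lit 1) (nat_lit 0xa0018006301))) 
(.lf (nat_lit 1879060158) (dlOf (nat_lit 1) (nat_lit 0x200080018002000a0008007283))))) 
(.nd (nat_lit 15) 
(.lf (nat_lit 3489934526) (dlOf (nat_lit 2) (nat_lit 0x1602fc00d01140002304000a0028006301))) 
(.lf (nat_lit 3489967294) (dlOf (nat_lit 2) (nat_lit 0x6182fc002c114000230400040028006301))))) 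
(.nd (nat_lit 8) (.nd (nat_lit 15) (.nd (nat_lit 29) 
(.lf (nat_lit 2550148222) (dlOf (nat_lit 1) (nat_lit 0x20028006101))) 
(.lf (nat_lit 3087019134) (dlOf (nat_lit 1) (nat_lit 0x1cc00202820008006102)))) 
(.lf (nat_lit 3490491518) (dlOf (nat_lit 1) (nat_lit 0x20018006101)))) (.nd (nat_lit 7) 
(.lf (nat_lit 1476439934) (dlOf (nat_lit 1) (nat_lit 0x2400400280008007782))) 
(.lf (nat_lit 2952838654) (dlOf (nat_lit 1) (nat_lit 0x1000800500020016000800cd03))))))))) 
(.nd (nat_lit 15) (.nd (nat_lit 13) (.nd (nat_lit 32) (.nd (nat_lit 8) (.nd (nat_lit 18) 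
(.nd (nat_lit 20) (.nd (nat_lit 19) 
(.lf (nat_lit 402718782) (dlOf (nat_lit 1) (nat_lit 0x40018090001))) 
(.lf (nat_lit 3492347966) (dlOf (nat_lit 1) (nat_lit 0x1600180c1401)))) (.nd (nat_lit 6) 
(.lf (nat_lit 1345388606) (dlOf (nat_lit 3) (nat_lit 0xa41b2004608d001c03e8009241800b823400ac0fa002470400020018b90601))) 
(.lf (nat_lit 3492874366) (dlOf (nat_lit 2) (nat_lit 0x6040000b0140000a81000100080010002000200080f4783))))) 
(.nd (nat_lit 7) (.nd (nat_lit 19) 
(.lf (nat_lit 4026859582) (dlOf (nat_lit 12) (nat_lit 0x98005c003a0270000f02008e019822d80b801c405002260270000e0400c801701f300b40003408014805a0001902014802d0000c01012201680003c0801300cc04b405c07b002d007901380218098031c0220000b0c037c02e046b0168020009c055804c029c011000050504320168004004400012080ab405c0000702040002e004c013800000101ed80082d0c00214b400080a0c83))) 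
(.lf (nat_lit 1346175038) (dlOf (nat_lit 2) (nat_lit 0xc160000c0a6800603640004138001607c00123858e60600)))) 
(.lf (nat_lit 805634238) (dlOf (nat_lit 1) (nat_lit 0x20018155501))))) (.nd (nat_lit 6) 
(.nd (nat_lit 7) (.nd (nat_lit 10) 
(.lf (nat_lit 1345913150) (dlOf (nat_lit 1) (nat_lit 0xa8008040c002017e0008e17d03))) 
(.lf (nat_lit 3624209726) (dlOf (nat_lit 2) (nat_lit 0x190000000b8080018008004c00200040008146903)))) 
(.lf (nat_lit 1342247358) (dlOf (nat_lit 1) (nat_lit 0x8008002000200040008008603)))) 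
(.nd (nat_lit 7) (.lf (nat_lit 1476464510) (dlOf (nat_lit 1) (nat_lit 0x104002002c0008007782))) 
(.lf (nat_lit 3623950334) (dlOf (nat_lit 1) (nat_lit 0x94000800a601)))))) (.nd (nat_lit 9) 
(.nd (nat_lit 6) (.nd (nat_lit 10) (.nd (nat_lit 27) 
(.lf (nat_lit 4563730494) (dlOf (nat_lit 2) (nat_lit 0x29014800238080258008000c002002600080d0483))) 
(.lf (nat_lit 4697948222) (dlOf (nat_lit 2) (nat_lit 0x29014800238080258008000c002002600080d0483)))) 
(.lf (nat_lit 4697687102) (dlOf (nat_lit 1) (nat_lit 0x2c00400040008092882)))) (.nd (nat_lit 7) 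
(.nd (nat_lit 8) (.lf (nat_lit 5771952254) (dlOf (nat_lit 1) (nat_lit 0x400200020008012002))) 
(.lf (nat_lit 5100340606) (dlOf (nat_lit 1) (nat_lit 0x800400020018053582)))) 
(.lf (nat_lit 5773001982) (dlOf (nat_lit 1) (nat_lit 0x20018092f01))))) (.nd (nat_lit 8) 
(.nd (nat_lit 7) (.nd (nat_lit 29) 
(.lf (nat_lit 4697687614) (dlOf (nat_lit 1) (nat_lit 0x400400020008093782))) 
(.lf (nat_lit 6308300350) (dlOf (nat_lit 8) (nat_lit 0xc03a000801b002400c8010802c000581000240160002b02001201b000b00c8006002c000540c00380360004019001c0058000a41801f806c012c0160000504009001b004c00c8028002c002000e0000208000201b000d0058000001001e000800b000200040008053783)))) 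
(.lf (nat_lit 4563471038) (dlOf (nat_lit 1) (nat_lit 0x400400020018095782)))) (.nd (nat_lit 29) 
(.nd (nat_lit 7) 
(.lf (nat_lit 4563471166) (dlOf (nat_lit 1) (nat_lit 0xa8008002c00200540008095c03))) 
(.lf (nat_lit 4563471294) (dlOf (nat_lit 1) (nat_lit 0x8008007800200520008095d03)))) 
(.nd (nat_lit 27) (.lf (nat_lit 6174083902) (dlOf (nat_lit 1) (nat_lit 0x20018055c01))) 
(.lf (nat_lit 5234559806) (dlOf (nat_lit 1) (nat_lit 0x20028055c01)))))))) (.nd (nat_lit 11) 
(.nd (nat_lit 30) (.nd (nat_lit 9) (.nd (nat_lit 10) (.nd (nat_lit 27) 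
(.lf (nat_lit 4563738686) (dlOf (nat_lit 1) (nat_lit 0x200180d0481))) 
(.lf (nat_lit 4697956414) (dlOf (nat_lit 1) (nat_lit 0x200180d0481)))) 
(.lf (nat_lit 268510270) (dlOf (nat_lit 1) (nat_lit 0x2a0008052881)))) (.nd (nat_lit 6) 
(.lf (nat_lit 4697695806) (dlOf (nat_lit 1) (nat_lit 0x4000400100008093782))) 
(.lf (nat_lit 4697695230) (dlOf (nat_lit 1) (nat_lit 0x310004052e0008092882))))) (.nd (nat_lit 19) 
(.nd (nat_lit 6) (.nd (nat_lit 7) 
(.lf (nat_lit 6308308542) (dlOf (nat_lit 8) (nat_lit 0x300360098019000300b0004802c00058100194036008e019005e0058000ac18024806c00c8032008600b0001503004500d8025802c0005208029c036015400b0000282008d00d803e8064025c01600340070000104006800d8031002c00000080040004001e0018053782))) 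
(.lf (nat_lit 1342255550) (dlOf (nat_lit 1) (nat_lit 0x2800200100008008602)))) 
(.lf (nat_lit 1342255486) (dlOf (nat_lit 1) (nat_lit 0x440028008381)))) (.nd (nat_lit 7) 
(.nd (nat_lit 18) (.lf (nat_lit 3492356158) (dlOf (nat_lit 1) (nat_lit 0x200180c1401))) 
(.lf (nat_lit 1346183230) (dlOf (nat_lit 9) (nat_lit 0x6058000501b200300d8001004e000482340048118000a07d000803e000600bc004922400102c0001e0d9000704e000920181bb0580060829a06fe0d9039606c01bb82700cfc11a05c408c010e03e808d81f00b8005e00247140112160008606c804002700048a0c00181380023f020006160000104e0007e8100070364003e00402902c0013e0d900b104e000000180630008001400200080008e60603)))) 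
(.lf (nat_lit 1342775486) (dlOf (nat_lit 1) (nat_lit 0x800180c0401)))))) (.nd (nat_lit 9) 
(.nd (nat_lit 6) (.nd (nat_lit 8) 
(.lf (nat_lit 4026611774) (dlOf (nat_lit 1) (nat_lit 0x40020002000800a682))) 
(.lf (nat_lit 3624217918) (dlOf (nat_lit 2) (nat_lit 0x2c0000000b80800300080040002001a0008146903)))) 
(.nd (nat_lit 8) (.nd (nat_lit 10) 
(.lf (nat_lit 3623954558) (dlOf (nat_lit 2) (nat_lit 0x130000000a808001800800b000200120008004783))) 
(.lf (nat_lit 1342254206) (dlOf (nat_lit 1) (nat_lit 0x800400120018006102)))) 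
(.lf (nat_lit 1345661310) (dlOf (nat_lit 1) (nat_lit 0xb40018dd4e81))))) (.nd (nat_lit 7) 
(.nd (nat_lit 6) (.nd (nat_lit 8) 
(.lf (nat_lit 1345923646) (dlOf (nat_lit 1) (nat_lit 0x20018e25201))) 
(.lf (nat_lit 5234567998) (dlOf (nat_lit 1) (nat_lit 0xb4002006a0008055c02)))) 
(.lf (nat_lit 4563479166) (dlOf (nat_lit 1) (nat_lit 0x74002002a0008095482)))) (.nd (nat_lit 8) 
(.lf (nat_lit 1342257854) (dlOf (nat_lit 1) (nat_lit 0x18002800b901))) 
(.lf (nat_lit 4563479486) (dlOf (nat_lit 1) (nat_lit 0x800400060008095d02)))))))) (.nd (nat_lit 13) 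
(.nd (nat_lit 30) (.nd (nat_lit 27) (.nd (nat_lit 6) (.nd (nat_lit 7) (.nd (nat_lit 8) 
(.lf (nat_lit 4563763262) (dlOf (nat_lit 2) (nat_lit 0x2f4029005d013800238100cf8008037000200fa00080d0483))) 
(.lf (nat_lit 2952888638) (dlOf (nat_lit 1) (nat_lit 0x20008010701)))) 
(.lf (nat_lit 2952888510) (dlOf (nat_lit 1) (nat_lit 0xc00200040008010382)))) (.nd (nat_lit 7) 
(.nd (nat_lit 8) (.lf (nat_lit 6710984830) (dlOf (nat_lit 1) (nat_lit 0x800400020008012002))) 
(.lf (nat_lit 4563503486) (dlOf (nat_lit 1) (nat_lit 0x1a0008094e81)))) 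
(.lf (nat_lit 2416017918) (dlOf (nat_lit 1) (nat_lit 0x40018017e01))))) (.nd (nat_lit 9) 
(.nd (nat_lit 18) (.nd (nat_lit 7) 
(.lf (nat_lit 4697718846) (dlOf (nat_lit 2) (nat_lit 0x1501a0000000800b8008000400200060008090003))) 
(.lf (nat_lit 4697718974) (dlOf (nat_lit 1) (nat_lit 0xa80080020002000c0008090783)))) 
(.nd (nat_lit 29) 
(.lf (nat_lit 4697980990) (dlOf (nat_lit 2) (nat_lit 0x2f4029005d013800238100cf8008037000200fa00080d0483))) 
(.lf (nat_lit 5234851902) (dlOf (nat_lit 2) (nat_lit 0x3500a8001f8080108008001000200220008100483))))) 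
(.nd (nat_lit 6) (.nd (nat_lit 8) 
(.lf (nat_lit 4697720382) (dlOf (nat_lit 3) (nat_lit 0xc40520001a02006803100009818093780))) 
(.lf (nat_lit 3087107902) (dlOf (nat_lit 1) (nat_lit 0x20028143e01)))) 
(.lf (nat_lit 3087107838) (dlOf (nat_lit 1) (nat_lit 0x20008143b81)))))) (.nd (nat_lit 19) 
(.nd (nat_lit 18) (.nd (nat_lit 20) (.nd (nat_lit 7) 
(.lf (nat_lit 2013364286) (dlOf (nat_lit 1) (nat_lit 0x1400400060008020482))) 
(.lf (nat_lit 1342281406) (dlOf (nat_lit 1) (nat_lit 0x4002800a001)))) (.nd (nat_lit 6) 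
(.lf (nat_lit 3490807870) (dlOf (nat_lit 2) (nat_lit 0xa1178000080800400080018002006a0008020703))) 
(.lf (nat_lit 3492907134) (dlOf (nat_lit 1) (nat_lit 0x400180f4781))))) (.nd (nat_lit 11) 
(.nd (nat_lit 22) (.lf (nat_lit 5637505086) (dlOf (nat_lit 1) (nat_lit 0x160028100481))) 
(.lf (nat_lit 1346732094) (dlOf (nat_lit 1) (nat_lit 0x400400020019000602)))) (.nd (nat_lit 6) 
(.lf (nat_lit 3624242494) (dlOf (nat_lit 2) (nat_lit 0x601b000a0000000b8100050008002c002001a0008146903))) 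
(.lf (nat_lit 3493169278) (dlOf (nat_lit 8) (nat_lit 0x448224000540403f4180007c08b000098200fd0600000400805c03000001e0401241800000e0201ee0c00000681003c06000000008003800800bc002006200080f4783)))))) 
(.nd (nat_lit 20) (.nd (nat_lit 21) (.nd (nat_lit 7) 
(.lf (nat_lit 5772248126) (dlOf (nat_lit 1) (nat_lit 0x4c00200140008092882))) 
(.lf (nat_lit 5771985086) (dlOf (nat_lit 2) (nat_lit 0xd414600030a180680000000640c00a4002021e0008031a82)))) 
(.nd (nat_lit 29) 
(.lf (nat_lit 3492380734) (dlOf (nat_lit 3) (nat_lit 0x1283ce0005502001e13b004e09b00015010014800800c8002000c00080c1403))) 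
(.lf (nat_lit 1881767998) (dlOf (nat_lit 1) (nat_lit 0x200080008002000a0009000603))))) 
(.nd (nat_lit 9) (.nd (nat_lit 6) 
(.lf (nat_lit 1346207806) (dlOf (nat_lit 12) (nat_lit 0x92160065206c8313036000dc138008a08d002d046001d01f400e80f8002491003e20d9003e06c000920100850580018429a0e140d9075806c007f8270043811a016a08c010303e808181f00048e2401d01b2018c0d80012282003204d0008fc0800282680047c0404e41b2001f2020c3c0d90006046800081f4003e00c00ec1b2001ef02001615d000e38100030ae8006f40803f00080684002003c0008e60603))) 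
(.lf (nat_lit 3491332478) (dlOf (nat_lit 1) (nat_lit 0x20018090781)))) (.nd (nat_lit 11) 
(.lf (nat_lit 3491332670) (dlOf (nat_lit 2) (nat_lit 0x1c45a009c1ec000c0ab80000018001000802a8002001e0008091083))) 
(.lf (nat_lit 1345948222) (dlOf (nat_lit 2) (nat_lit 0x503640000004000400400020018e25202)))))))) 
(.nd (nat_lit 32) (.nd (nat_lit 6) (.nd (nat_lit 31) (.nd (nat_lit 7) (.nd (nat_lit 8) 
(.lf (nat_lit 805412926) (dlOf (nat_lit 2) (nat_lit 0xa02600385818090000))) 
(.lf (nat_lit 1342289726) (dlOf (nat_lit 2) (nat_lit 0xb0b280007008001000800100020002000800a103)))) 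
(.nd (nat_lit 9) (.lf (nat_lit 2013372606) (dlOf (nat_lit 2) (nat_lit 0x20c00600019018031a80))) 
(.lf (nat_lit 1342289598) (dlOf (nat_lit 1) (nat_lit 0x4004000e001800a002))))) (.nd (nat_lit 18) 
(.lf (nat_lit 3492388926) (dlOf (nat_lit 5) (nat_lit 0x1382fc007c162003c09d001e00700030020000ae140004334018c1730002069807802e00074000000540a00060b80002901006f05c0001440803280080028002000200080c1403))) 
(.nd (nat_lit 21) 
(.lf (nat_lit 3494223934) (dlOf (nat_lit 4) (nat_lit 0x1442c000a215000210a000308000026210000442c0004215000210a000288000026010001042c000a215000510a000308000025e100048002001e00081d0c02))) 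
(.lf (nat_lit 3492126782) (dlOf (nat_lit 3) (nat_lit 0x1ca08c00e70458000cc10015023001501160003204002e00280a0c81)))))) 
(.nd (nat_lit 7) (.nd (nat_lit 8) 
(.lf (nat_lit 3492915326) (dlOf (nat_lit 1) (nat_lit 0x4002000200080f4782))) 
(.lf (nat_lit 3490033022) (dlOf (nat_lit 2) (nat_lit 0x107a00006004000400200040008006c02)))) 
(.nd (nat_lit 8) 
(.lf (nat_lit 3087116030) (dlOf (nat_lit 1) (nat_lit 0x8008000400200020008143b83))) 
(.lf (nat_lit 4026638846) (dlOf (nat_lit 1) (nat_lit 0x800400020018017e02)))))) (.nd (nat_lit 27) 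
(.nd (nat_lit 6) (.nd (nat_lit 8) (.nd (nat_lit 10) 
(.lf (nat_lit 4563771454) (dlOf (nat_lit 2) (nat_lit 0xa1014800238080160008035c002003800080d0483))) 
(.lf (nat_lit 5100381246) (dlOf (nat_lit 1) (nat_lit 0x20008002c00200060008052883)))) 
(.lf (nat_lit 4563512126) (dlOf (nat_lit 1) (nat_lit 0x140028095c01)))) (.nd (nat_lit 7) 
(.lf (nat_lit 5637253758) (dlOf (nat_lit 1) (nat_lit 0x20018055481))) 
(.lf (nat_lit 6174125054) (dlOf (nat_lit 1) (nat_lit 0xc00200060008055f02))))) (.nd (nat_lit 7) 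
(.nd (nat_lit 6) (.nd (nat_lit 29) 
(.lf (nat_lit 4697989182) (dlOf (nat_lit 2) (nat_lit 0xa1014800238080160008035c002003800080d0483))) 
(.lf (nat_lit 5234860094) (dlOf (nat_lit 2) (nat_lit 0x340340008019002a00c0001f81800b8008004000200040008100483)))) 
(.lf (nat_lit 5771471486) (dlOf (nat_lit 1) (nat_lit 0x5e0018005481)))) (.nd (nat_lit 8) 
(.lf (nat_lit 5771993278) (dlOf (nat_lit 2) (nat_lit 0x2410140000c80802d0008000400200200008031a83))) 
(.lf (nat_lit 5774090686) (dlOf (nat_lit 1) (nat_lit 0x200180f7a81)))))))))) (.nd (nat_lit 29) 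
(.nd (nat_lit 11) (.nd (nat_lit 27) (.nd (nat_lit 15) (.nd (nat_lit 7) (.nd (nat_lit 13) 
(.nd (nat_lit 10) (.nd (nat_lit 16) 
(.lf (nat_lit 2483290174) (dlOf (nat_lit 1) (nat_lit 0x200280a0c81))) 
(.lf (nat_lit 3557359678) (dlOf (nat_lit 1) (nat_lit 0xbc004006a00081c0902)))) 
(.lf (nat_lit 4630512702) (dlOf (nat_lit 1) (nat_lit 0x20008002881)))) (.nd (nat_lit 8) 
(.nd (nat_lit 16) 
(.lf (nat_lit 2483298366) (dlOf (nat_lit 6) (nat_lit 0x12402700c50110000d01004480ac005004e01f002200030100000c82003c809c023c04400023040196022000110100540110000840800e8008007400201ac00080a0c83))) 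
(.lf (nat_lit 1409884222) (dlOf (nat_lit 3) (nat_lit 0x1300300001981004002c8000c80800280080018002000400080a0c83)))) 
(.lf (nat_lit 3557046078) (dlOf (nat_lit 1) (nat_lit 0x1a002812a101))))) (.nd (nat_lit 6) 
(.nd (nat_lit 8) (.lf (nat_lit 335872190) (dlOf (nat_lit 1) (nat_lit 0x14004000200080c1a82))) 
(.nd (nat_lit 9) (.lf (nat_lit 3557036478) (dlOf (nat_lit 1) (nat_lit 0xa0008128601))) 
(.lf (nat_lit 1410078654) (dlOf (nat_lit 1) (nat_lit 0x20004001e00080fa602))))) (.nd (nat_lit 13) 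
(.lf (nat_lit 335545598) (dlOf (nat_lit 1) (nat_lit 0x20008002f01))) 
(.lf (nat_lit 4630521086) (dlOf (nat_lit 1) (nat_lit 0x20028002f01)))))) (.nd (nat_lit 30) 
(.nd (nat_lit 16) (.nd (nat_lit 9) (.nd (nat_lit 18) 
(.lf (nat_lit 4630544446) (dlOf (nat_lit 1) (nat_lit 0xc0008000001))) 
(.lf (nat_lit 2483322942) (dlOf (nat_lit 6) (nat_lit 0x2e00880006804003405200e002200050100005804c002c01e000320a0084029006501100008c1001a00880004404010c0440002102003000280a0c81)))) 
(.lf (nat_lit 4630545982) (dlOf (nat_lit 3) (nat_lit 0x180280002e0200100140001002000000100028008005c002000c0008003783)))) 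
(.nd (nat_lit 13) 
(.lf (nat_lit 2483126334) (dlOf (nat_lit 2) (nat_lit 0x8402a003101400000010014800800b800200a60008020703))) 
(.lf (nat_lit 2483134526) (dlOf (nat_lit 5) (nat_lit 0x3f00680010408002003c014401a00040000001b0300020040000d00809b00a80608050000a0180008006000000200588008010c002004a0008020703))))) 
(.nd (nat_lit 13) (.nd (nat_lit 8) 
(.lf (nat_lit 3557326910) (dlOf (nat_lit 3) (nat_lit 0x1c80fc00aa0040bd40e400b803f002a78281c0900))) 
(.lf (nat_lit 3557070654) (dlOf (nat_lit 3) (nat_lit 0x1600600011810001002000070080068008004c002002a000812a103)))) 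
(.nd (nat_lit 16) (.lf (nat_lit 3557335102) (dlOf (nat_lit 1) (nat_lit 0xa00181c0901))) 
(.lf (nat_lit 3557662782) (dlOf (nat_lit 1) (nat_lit 0xfb00020aba00082a0a02))))))) 
(.nd (nat_lit 13) (.nd (nat_lit 10) (.nd (nat_lit 7) (.nd (nat_lit 15) (.nd (nat_lit 18) 
(.lf (nat_lit 471859262) (dlOf (nat_lit 1) (nat_lit 0x100080028002000c0008540483))) 
(.lf (nat_lit 1543766078) (dlOf (nat_lit 3) (nat_lit 0x801f00015810001000000000080018008000800200040008160703)))) 
(.nd (nat_lit 18) (.lf (nat_lit 474513470) (dlOf (nat_lit 1) (nat_lit 0x4004000200191a0602))) 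
(.lf (nat_lit 1543798846) (dlOf (nat_lit 9) (nat_lit 0x15301280da808802c80240006a0602c6025018f0110001a4100010094000c40402f004a00620000003082002c01280040088000500805b404a033e0220001102005a01280006c0805f8094000000424c8004037c0018170d82))))) 
(.nd (nat_lit 6) (.nd (nat_lit 9) 
(.lf (nat_lit 470286782) (dlOf (nat_lit 1) (nat_lit 0xa200180c0881))) 
(.lf (nat_lit 469767102) (dlOf (nat_lit 2) (nat_lit 0x808e00515818009200)))) 
(.lf (nat_lit 2617311998) (dlOf (nat_lit 1) (nat_lit 0x200080a2101))))) (.nd (nat_lit 6) 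
(.nd (nat_lit 8) (.nd (nat_lit 15) 
(.lf (nat_lit 472908862) (dlOf (nat_lit 1) (nat_lit 0x20008000c00200020008b52883))) 
(.lf (nat_lit 469861438) (dlOf (nat_lit 1) (nat_lit 0x6c00200060008002882)))) (.nd (nat_lit 7) 
(.lf (nat_lit 3691026238) (dlOf (nat_lit 1) (nat_lit 0x17000800440020020000800a103))) 
(.lf (nat_lit 469800382) (dlOf (nat_lit 1) (nat_lit 0x20008009a01))))) (.nd (nat_lit 7) 
(.nd (nat_lit 9) 
(.lf (nat_lit 3690993022) (dlOf (nat_lit 1) (nat_lit 0xb8008001c00200040008009903))) 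
(.lf (nat_lit 469763966) (dlOf (nat_lit 1) (nat_lit 0x400400020008004102)))) 
(.lf (nat_lit 469796606) (dlOf (nat_lit 1) (nat_lit 0x20028003b81)))))) (.nd (nat_lit 7) 
(.nd (nat_lit 10) (.nd (nat_lit 18) (.nd (nat_lit 9) (.nd (nat_lit 16) 
(.lf (nat_lit 473964606) (dlOf (nat_lit 2) (nat_lit 0x52163000e3818fe0600))) 
(.lf (nat_lit 474554430) (dlOf (nat_lit 2) (nat_lit 0xa42ac005214300290660008f01800580080020002001000091a0603)))) 
(.lf (nat_lit 470295102) (dlOf (nat_lit 3) (nat_lit 0x6091c0009e0403f84780000702000200080c1081)))) 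
(.nd (nat_lit 30) (.lf (nat_lit 470032446) (dlOf (nat_lit 1) (nat_lit 0x800200060008030d82))) 
(.lf (nat_lit 1543774270) (dlOf (nat_lit 5) (nat_lit 0x4004a0094022000158200b20110000240800f809403180440000504017802200000018160700))))) 
(.nd (nat_lit 8) (.lf (nat_lit 472917054) (dlOf (nat_lit 1) (nat_lit 0xc00200060008b52882))) 
(.lf (nat_lit 469775678) (dlOf (nat_lit 1) (nat_lit 0x20018009901))))) (.nd (nat_lit 6) 
(.nd (nat_lit 8) (.lf (nat_lit 470360254) (dlOf (nat_lit 1) (nat_lit 0x800180c0401))) 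
(.nd (nat_lit 18) 
(.lf (nat_lit 470294974) (dlOf (nat_lit 2) (nat_lit 0x1a82a80004a02000800280c0881))) 
(.lf (nat_lit 474227134) (dlOf (nat_lit 1) (nat_lit 0x600190e1081))))) (.nd (nat_lit 9) 
(.lf (nat_lit 470295038) (dlOf (nat_lit 2) (nat_lit 0x8823c0010e0180c0d80))) 
(.lf (nat_lit 469804030) (dlOf (nat_lit 1) (nat_lit 0x60028002881)))))))) (.nd (nat_lit 27) 
(.nd (nat_lit 10) (.nd (nat_lit 8) (.nd (nat_lit 7) (.nd (nat_lit 12) (.nd (nat_lit 13) 
(.lf (nat_lit 1410140286) (dlOf (nat_lit 1) (nat_lit 0x1a00280f4781))) 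
(.lf (nat_lit 1410115710) (dlOf (nat_lit 2) (nat_lit 0x3e02d000150180f4780)))) 
(.lf (nat_lit 3557046398) (dlOf (nat_lit 2) (nat_lit 0x1101c000050080098008008000200f8000812a883)))) 
(.nd (nat_lit 6) (.nd (nat_lit 15) 
(.lf (nat_lit 335612606) (dlOf (nat_lit 1) (nat_lit 0x400400020008095782))) 
(.lf (nat_lit 5704354494) (dlOf (nat_lit 1) (nat_lit 0x60018055781)))) 
(.lf (nat_lit 3557046526) (dlOf (nat_lit 1) (nat_lit 0x2002812a981))))) (.nd (nat_lit 6) 
(.nd (nat_lit 13) 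
(.lf (nat_lit 5704321854) (dlOf (nat_lit 1) (nat_lit 0x30008001c002000a0008055c03))) 
(.lf (nat_lit 5704330046) (dlOf (nat_lit 1) (nat_lit 0x28008000800200020008055c03)))) 
(.nd (nat_lit 9) (.lf (nat_lit 2483030398) (dlOf (nat_lit 1) (nat_lit 0x40018004e81))) 
(.nd (nat_lit 30) (.lf (nat_lit 2483035006) (dlOf (nat_lit 1) (nat_lit 0x40040002000800bc82))) 
(.lf (nat_lit 1409293182) (dlOf (nat_lit 1) (nat_lit 0x40040002000800bc82))))))) (.nd (nat_lit 6) 
(.nd (nat_lit 16) (.nd (nat_lit 7) 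
(.lf (nat_lit 2483063870) (dlOf (nat_lit 2) (nat_lit 0x60140005bc0800280080020002000e0008006083))) 
(.nd (nat_lit 30) 
(.lf (nat_lit 2483031230) (dlOf (nat_lit 2) (nat_lit 0x1a402a00d201400008c100108008001000200080008006303))) 
(.lf (nat_lit 1409289406) (dlOf (nat_lit 2) (nat_lit 0x10502a00600108000460800ac004009c0018006302))))) 
(.nd (nat_lit 7) (.lf (nat_lit 1409395774) (dlOf (nat_lit 1) (nat_lit 0x400400040018006082))) 
(.nd (nat_lit 13) 
(.lf (nat_lit 1409354942) (dlOf (nat_lit 2) (nat_lit 0x4080a80214042006100a003400000004610002800400440018006302))) 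
(.lf (nat_lit 1409363134) (dlOf (nat_lit 2) (nat_lit 0xf302a006d01080314028000230603980018006301)))))) 
(.nd (nat_lit 8) (.nd (nat_lit 7) 
(.lf (nat_lit 2483096702) (dlOf (nat_lit 1) (nat_lit 0x7000800d8002003e0008006103))) 
(.lf (nat_lit 1409289470) (dlOf (nat_lit 1) (nat_lit 0x20028006601)))) (.nd (nat_lit 9) 
(.lf (nat_lit 2483101054) (dlOf (nat_lit 2) (nat_lit 0x1804000bd20400180040004000800c902))) 
(.nd (nat_lit 16) 
(.lf (nat_lit 3557035902) (dlOf (nat_lit 1) (nat_lit 0x30008002800200020008127783))) 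
(.lf (nat_lit 3557101438) (dlOf (nat_lit 1) (nat_lit 0x800200020008127782)))))))) (.nd (nat_lit 9) 
(.nd (nat_lit 7) (.nd (nat_lit 12) (.nd (nat_lit 10) 
(.lf (nat_lit 1543538814) (dlOf (nat_lit 9) (nat_lit 0x20000001b0100040130005807400b8030001001000240000000d02801380980028046005001d003800c001400400048000000320c0002026001800e80018040000400a000200000018850019013000e007400680200046005001d001001280000005e18004400a0002a0200320050001381000d002800090080028008001c00200020008004783))) 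
(.lf (nat_lit 1543572606) (dlOf (nat_lit 1) (nat_lit 0x400400020008146102)))) (.nd (nat_lit 13) 
(.nd (nat_lit 6) (.lf (nat_lit 5838510142) (dlOf (nat_lit 1) (nat_lit 0x18001800a681))) 
(.lf (nat_lit 3691026558) (dlOf (nat_lit 1) (nat_lit 0x9800800240020050000800a883)))) 
(.nd (nat_lit 8) 
(.lf (nat_lit 3691034750) (dlOf (nat_lit 1) (nat_lit 0x8000800480020018000800a883))) 
(.lf (nat_lit 469776766) (dlOf (nat_lit 1) (nat_lit 0x80040002000800af02)))))) (.nd (nat_lit 6) 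
(.nd (nat_lit 8) (.nd (nat_lit 13) 
(.lf (nat_lit 1543572670) (dlOf (nat_lit 2) (nat_lit 0x12025002d00f800074100ba000801cc00200600008146303))) 
(.lf (nat_lit 5838580926) (dlOf (nat_lit 1) (nat_lit 0x600180f6301)))) 
(.lf (nat_lit 473467326) (dlOf (nat_lit 1) (nat_lit 0x20008f54e81)))) (.nd (nat_lit 15) 
(.lf (nat_lit 469769726) (dlOf (nat_lit 1) (nat_lit 0x40040002000800cd02))) 
(.lf (nat_lit 469868030) (dlOf (nat_lit 1) (nat_lit 0x4000800380020008000800cd03)))))) 
(.nd (nat_lit 8) (.nd (nat_lit 6) (.nd (nat_lit 7) 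
(.lf (nat_lit 469776958) (dlOf (nat_lit 1) (nat_lit 0x48004000c000800b482))) (.nd (nat_lit 10) 
(.lf (nat_lit 4764732094) (dlOf (nat_lit 1) (nat_lit 0x400400020008005782))) 
(.lf (nat_lit 5838573246) (dlOf (nat_lit 1) (nat_lit 0xa00080f7281))))) (.nd (nat_lit 7) 
(.lf (nat_lit 4764740222) (dlOf (nat_lit 1) (nat_lit 0x20028005481))) 
(.lf (nat_lit 473508606) (dlOf (nat_lit 1) (nat_lit 0xa000200020008f55a82))))) (.nd (nat_lit 10) 
(.nd (nat_lit 6) (.lf (nat_lit 4764732350) (dlOf (nat_lit 1) (nat_lit 0x400400020008005d02))) 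
(.lf (nat_lit 5838576510) (dlOf (nat_lit 1) (nat_lit 0x4004000200080fbc82)))) (.nd (nat_lit 13) 
(.lf (nat_lit 3691057022) (dlOf (nat_lit 3) (nat_lit 0xe00e80290c0800680740148404005400400080008007782))) 
(.nd (nat_lit 15) 
(.lf (nat_lit 3691065214) (dlOf (nat_lit 3) (nat_lit 0x601d0052181000200e802908080108008006c00200620008007783))) 
(.lf (nat_lit 3691032446) (dlOf (nat_lit 2) (nat_lit 0x601d00521818007780)))))))))) 
(.nd (nat_lit 7) (.nd (nat_lit 15) (.nd (nat_lit 6) (.nd (nat_lit 13) (.nd (nat_lit 16) 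
(.nd (nat_lit 10) (.nd (nat_lit 18) 
(.lf (nat_lit 4228382782) (dlOf (nat_lit 1) (nat_lit 0x24002001200080a0c82))) 
(.lf (nat_lit 6377177150) (dlOf (nat_lit 1) (nat_lit 0xa00080b0481)))) 
(.lf (nat_lit 1006634046) (dlOf (nat_lit 1) (nat_lit 0x400400020008002882)))) (.nd (nat_lit 10) 
(.nd (nat_lit 30) (.lf (nat_lit 3154444350) (dlOf (nat_lit 1) (nat_lit 0x8004004600081a0482))) 
(.lf (nat_lit 2080702526) (dlOf (nat_lit 7) (nat_lit 0x9e0290003e81016601480768030000ea0805b005201e600c0003a02016801480780030000e60803f0052012200c0000f82000501480006c0800700080114002000400080b0483)))) 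
(.lf (nat_lit 872481854) (dlOf (nat_lit 1) (nat_lit 0x400200040008092882))))) (.nd (nat_lit 18) 
(.nd (nat_lit 8) (.nd (nat_lit 9) 
(.lf (nat_lit 4228390974) (dlOf (nat_lit 1) (nat_lit 0x7a00080a0c81))) 
(.lf (nat_lit 4095747646) (dlOf (nat_lit 2) (nat_lit 0x1000000034040038002004400080e3782)))) 
(.lf (nat_lit 4227874110) (dlOf (nat_lit 2) (nat_lit 0x100640066b020004001800c901)))) 
(.nd (nat_lit 8) (.nd (nat_lit 19) 
(.lf (nat_lit 1006903358) (dlOf (nat_lit 2) (nat_lit 0xf800000016040038002001200080d0c82))) 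
(.lf (nat_lit 6377185342) (dlOf (nat_lit 2) (nat_lit 0x102460007302006600080b0481)))) 
(.lf (nat_lit 6376137022) (dlOf (nat_lit 1) (nat_lit 0x20028090b81)))))) (.nd (nat_lit 9) 
(.nd (nat_lit 13) (.nd (nat_lit 8) 
(.lf (nat_lit 5301862526) (dlOf (nat_lit 3) (nat_lit 0x20c0110001a8101070088000000800080080054002001800080c0d03))) 
(.lf (nat_lit 6376130942) (dlOf (nat_lit 1) (nat_lit 0x40008003400200140008094e83)))) 
(.nd (nat_lit 10) (.lf (nat_lit 4227869054) (dlOf (nat_lit 2) (nat_lit 0x2032008df818004e80))) 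
(.lf (nat_lit 4227870078) (dlOf (nat_lit 1) (nat_lit 0x60008006c01))))) (.nd (nat_lit 8) 
(.nd (nat_lit 16) (.lf (nat_lit 6376131198) (dlOf (nat_lit 1) (nat_lit 0x400400020008095482))) 
(.lf (nat_lit 6376983166) (dlOf (nat_lit 1) (nat_lit 0x20028095481)))) (.nd (nat_lit 10) 
(.nd (nat_lit 27) 
(.lf (nat_lit 1946164094) (dlOf (nat_lit 1) (nat_lit 0x1000800180020002000800bc83))) 
(.lf (nat_lit 4227865470) (dlOf (nat_lit 1) (nat_lit 0x40040002000800bc82)))) 
(.lf (nat_lit 1006634878) (dlOf (nat_lit 1) (nat_lit 0x400400020008004102))))))) (.nd (nat_lit 13) 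
(.nd (nat_lit 32) (.nd (nat_lit 6) (.nd (nat_lit 16) (.nd (nat_lit 30) 
(.lf (nat_lit 1006927934) (dlOf (nat_lit 1) (nat_lit 0x80080004002000400080e0c03))) 
(.lf (nat_lit 2080669758) (dlOf (nat_lit 4) (nat_lit 0x12029000f0060001d41000380a400280180007404001002900090060001cc1002d8008016c002000200080b0483)))) 
(.lf (nat_lit 3154477118) (dlOf (nat_lit 1) (nat_lit 0x600081a0481)))) (.nd (nat_lit 8) 
(.lf (nat_lit 4228677758) (dlOf (nat_lit 1) (nat_lit 0x600080008002000800081a0083))) 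
(.lf (nat_lit 4227893630) (dlOf (nat_lit 1) (nat_lit 0x60018004e81))))) (.nd (nat_lit 16) 
(.nd (nat_lit 8) 
(.lf (nat_lit 5167677502) (dlOf (nat_lit 2) (nat_lit 0xe800c000fc040034004005e0018100482))) 
(.lf (nat_lit 6376161598) (dlOf (nat_lit 8) (nat_lit 0x141100002181000b0880000d00800304400005404002c2200002002002010f000608700005010002843c0001204001421e000000200140018090b81)))) 
(.nd (nat_lit 6) (.lf (nat_lit 6241484862) (dlOf (nat_lit 1) (nat_lit 0x160028100481))) 
(.lf (nat_lit 6376226942) (dlOf (nat_lit 1) (nat_lit 0x1c002001c0008090282)))))) (.nd (nat_lit 16) 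
(.nd (nat_lit 10) (.nd (nat_lit 27) 
(.lf (nat_lit 5167685694) (dlOf (nat_lit 2) (nat_lit 0x2a00a0001f80800b8008005400200080008100483))) 
(.lf (nat_lit 2080677950) (dlOf (nat_lit 4) (nat_lit 0x60060001d4080018030000e80400100520007302000600180b0481)))) 
(.lf (nat_lit 4095779902) (dlOf (nat_lit 1) (nat_lit 0x8008005400200ce00080e2883)))) 
(.nd (nat_lit 6) (.lf (nat_lit 872783934) (dlOf (nat_lit 1) (nat_lit 0x2a00080d0e01))) 
(.nd (nat_lit 10) 
(.lf (nat_lit 6376235134) (dlOf (nat_lit 1) (nat_lit 0x10008000800200040008090283))) 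
(.lf (nat_lit 4093748350) (dlOf (nat_lit 1) (nat_lit 0x8008000400200020008002a83)))))))) 
(.nd (nat_lit 9) (.nd (nat_lit 6) (.nd (nat_lit 16) (.nd (nat_lit 10) (.nd (nat_lit 8) 
(.lf (nat_lit 4228161726) (dlOf (nat_lit 1) (nat_lit 0x20018045501))) 
(.lf (nat_lit 1946460606) (dlOf (nat_lit 2) (nat_lit 0x5c0520001d0200060018090881)))) 
(.nd (nat_lit 12) (.lf (nat_lit 1946193086) (dlOf (nat_lit 1) (nat_lit 0x1e0018006301))) 
(.lf (nat_lit 4227898558) (dlOf (nat_lit 1) (nat_lit 0xa00080044002000e000800c203))))) 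
(.nd (nat_lit 15) (.nd (nat_lit 8) (.nd (nat_lit 18) 
(.lf (nat_lit 2080440510) (dlOf (nat_lit 1) (nat_lit 0x400200020008090782))) 
(.lf (nat_lit 6241452222) (dlOf (nat_lit 1) (nat_lit 0xf80080078002001400080f1a83)))) 
(.lf (nat_lit 1008271806) (dlOf (nat_lit 1) (nat_lit 0x50008000800200020008b17a83)))) 
(.nd (nat_lit 13) (.nd (nat_lit 30) 
(.lf (nat_lit 5301698750) (dlOf (nat_lit 2) (nat_lit 0x8800000019018031a80))) 
(.lf (nat_lit 2080473278) (dlOf (nat_lit 1) (nat_lit 0x400200020008090782)))) 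
(.lf (nat_lit 5301706942) (dlOf (nat_lit 2) (nat_lit 0x5480f8030c074016803700970000000c82000180080014002004a0008031a83)))))) 
(.nd (nat_lit 15) (.nd (nat_lit 11) (.nd (nat_lit 8) 
(.lf (nat_lit 6375605502) (dlOf (nat_lit 1) (nat_lit 0x20028002f01))) 
(.lf (nat_lit 6375679486) (dlOf (nat_lit 1) (nat_lit 0xc20018003681)))) (.nd (nat_lit 27) 
(.lf (nat_lit 1946160382) (dlOf (nat_lit 1) (nat_lit 0x400400020008006602))) 
(.lf (nat_lit 4227861758) (dlOf (nat_lit 1) (nat_lit 0x400400020008006602))))) (.nd (nat_lit 18) 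
(.nd (nat_lit 8) (.lf (nat_lit 6375441662) (dlOf (nat_lit 1) (nat_lit 0x740018002f01))) 
(.lf (nat_lit 6241232382) (dlOf (nat_lit 2) (nat_lit 0x4004000360200060008053681)))) 
(.nd (nat_lit 19) (.lf (nat_lit 4096099582) (dlOf (nat_lit 1) (nat_lit 0x400280e2f01))) 
(.lf (nat_lit 4095575294) (dlOf (nat_lit 1) (nat_lit 0x4004000200080e2f02))))))) (.nd (nat_lit 6) 
(.nd (nat_lit 8) (.nd (nat_lit 20) (.nd (nat_lit 15) 
(.lf (nat_lit 5301603006) (dlOf (nat_lit 1) (nat_lit 0x400400020008005782))) 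
(.lf (nat_lit 5167418046) (dlOf (nat_lit 1) (nat_lit 0x400400020008055782)))) (.nd (nat_lit 13) 
(.lf (nat_lit 4094692030) (dlOf (nat_lit 1) (nat_lit 0x20028055781))) 
(.lf (nat_lit 6376991422) (dlOf (nat_lit 1) (nat_lit 0x400200020008095782))))) (.nd (nat_lit 27) 
(.nd (nat_lit 13) (.lf (nat_lit 5167418302) (dlOf (nat_lit 1) (nat_lit 0x400400020008055d02))) 
(.lf (nat_lit 4094503870) (dlOf (nat_lit 1) (nat_lit 0x400400020008055d02)))) (.nd (nat_lit 10) 
(.nd (nat_lit 12) 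
(.lf (nat_lit 5301603262) (dlOf (nat_lit 1) (nat_lit 0x8008000400200020008005d03))) 
(.lf (nat_lit 4227865534) (dlOf (nat_lit 1) (nat_lit 0x2000800100020006000800be03)))) 
(.lf (nat_lit 1006634942) (dlOf (nat_lit 1) (nat_lit 0x20028004381)))))) (.nd (nat_lit 13) 
(.nd (nat_lit 8) (.nd (nat_lit 15) (.nd (nat_lit 21) 
(.lf (nat_lit 4093905662) (dlOf (nat_lit 1) (nat_lit 0x8008000400200020008005a83))) 
(.lf (nat_lit 6377704190) (dlOf (nat_lit 1) (nat_lit 0x4004000200080e5a82)))) 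
(.lf (nat_lit 3154217726) (dlOf (nat_lit 1) (nat_lit 0x20008105a81)))) (.nd (nat_lit 11) 
(.lf (nat_lit 2080441342) (dlOf (nat_lit 1) (nat_lit 0x20028092881))) 
(.lf (nat_lit 4095052798) (dlOf (nat_lit 1) (nat_lit 0xc00400020008055f02))))) (.nd (nat_lit 16) 
(.nd (nat_lit 18) (.lf (nat_lit 4093651710) (dlOf (nat_lit 1) (nat_lit 0x400400020008005a82))) 
(.lf (nat_lit 4093913854) (dlOf (nat_lit 1) (nat_lit 0x800400020008005a82)))) (.nd (nat_lit 8) 
(.lf (nat_lit 3154225918) (dlOf (nat_lit 1) (nat_lit 0xa0018105a81))) 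
(.lf (nat_lit 3019973630) (dlOf (nat_lit 1) (nat_lit 0x200080d2881))))))))))))

end

end Pool.Agent.Lib.MP_5854e1_co.Cz

namespace Pool.Agent.Lib.MP_5854e1_co.Cz

noncomputable section

noncomputable def tz207 : DT := (.nd (nat_lit 15) (.nd (nat_lit 13) (.nd (nat_lit 16) 
(.nd (nat_lit 30) (.nd (nat_lit 18) (.nd (nat_lit 28) (.nd (nat_lit 19) (.nd (nat_lit 8) 
(.nd (nat_lit 21) (.nd (nat_lit 6) (.nd (nat_lit 10) 
(.lf (nat_lit 2214723646) (dlOf (nat_lit 3) (nat_lit 0x1c03a0003f02000c01d0001e818070e80))) 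
(.lf (nat_lit 2818704446) (dlOf (nat_lit 1) (nat_lit 0x10c00080d2881)))) 
(.lf (nat_lit 738328830) (dlOf (nat_lit 2) (nat_lit 0x3802100067818090a80)))) (.nd (nat_lit 7) 
(.nd (nat_lit 20) 
(.lf (nat_lit 52559934) (dlOf (nat_lit 3) (nat_lit 0x216090011b044008d7f60046bfa00235948002aca000894f60046a69000aa080005534800000080060008000800200080009550603))) 
(.lf (nat_lit 24248382) (dlOf (nat_lit 3) (nat_lit 0xe800000046040008000000220200760008b90c81)))) 
(.lf (nat_lit 20057278) (dlOf (nat_lit 2) (nat_lit 0x15f2f40161cf000b0dc200584e10007000000046140044004001a00189d6302))))) 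
(.nd (nat_lit 26) (.nd (nat_lit 12) 
(.lf (nat_lit 20056894) (dlOf (nat_lit 1) (nat_lit 0x80080004002000200089d5c03))) 
(.lf (nat_lit 138046) (dlOf (nat_lit 1) (nat_lit 0x200040008001800bc82)))) (.nd (nat_lit 7) 
(.lf (nat_lit 2348941630) (dlOf (nat_lit 1) (nat_lit 0x400400020008048502))) 
(.lf (nat_lit 738331582) (dlOf (nat_lit 2) (nat_lit 0x600a80007804001c00200060008095d02)))))) 
(.nd (nat_lit 22) (.nd (nat_lit 23) (.nd (nat_lit 6) (.nd (nat_lit 20) 
(.lf (nat_lit 537526334) (dlOf (nat_lit 7) (nat_lit 0xbc02580370090000380805140600001b02001605900c0025805f00c0000340c01d80960000b0200a804b0000501001f0258000240802200080040002001200080a0c83))) 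
(.lf (nat_lit 3801150) (dlOf (nat_lit 1) (nat_lit 0x2c00400120008220c02)))) 
(.lf (nat_lit 738855678) (dlOf (nat_lit 1) (nat_lit 0x68008009800200020008125a83)))) 
(.nd (nat_lit 20) (.nd (nat_lit 21) 
(.lf (nat_lit 42598462) (dlOf (nat_lit 1) (nat_lit 0x8008000800200020009260603))) 
(.lf (nat_lit 44695614) (dlOf (nat_lit 1) (nat_lit 0x800200040009320002)))) 
(.lf (nat_lit 10092606) (dlOf (nat_lit 3) (nat_lit 0x12000000104080340b440006c04002c004001200085b0702))))) 
(.nd (nat_lit 7) (.nd (nat_lit 24) 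
(.lf (nat_lit 4849726) (dlOf (nat_lit 1) (nat_lit 0x400080018002000a00082d0483))) 
(.lf (nat_lit 21626942) (dlOf (nat_lit 1) (nat_lit 0x260018a51681)))) (.nd (nat_lit 21) 
(.lf (nat_lit 55182526) (dlOf (nat_lit 1) (nat_lit 0x4004000600196d2c82))) 
(.lf (nat_lit 32113854) (dlOf (nat_lit 1) (nat_lit 0x180008ef2c81))))))) (.nd (nat_lit 32) 
(.nd (nat_lit 29) (.nd (nat_lit 19) (.nd (nat_lit 27) 
(.lf (nat_lit 2416050238) (dlOf (nat_lit 2) (nat_lit 0x900e8000d0080018008002400200220008020703))) 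
(.lf (nat_lit 2550267966) (dlOf (nat_lit 2) (nat_lit 0x900e0000d0080018008002400200220008020703)))) 
(.lf (nat_lit 470417470) (dlOf (nat_lit 19) (nat_lit 0x80173000ae0100ed118805e88ac002800801584660296231016311680a208ac0054454002a22800ac0f4800306140027e2005b046603fc231017411680e008ac000c454008422800e20f48004f83800d88cc006c45a0013d0400062310009e01000c119800588b400276080510466028822d0014115000e87c8002641000ac4980418233000e118810388b400f8454017a1f201540c28004c43800209300860466041222d0064115005d07c8026830a001300c001624c022e119800808c807a445a004622a00da0f9005e86140025e1c008c2e60011a0200a01730008c8100600b98004600800b05cc0021e0401002e60010b0200e8226000588100ad113000000080e180080c94002037c00080e0c03)))) 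
(.nd (nat_lit 6) (.nd (nat_lit 8) 
(.lf (nat_lit 805961790) (dlOf (nat_lit 3) (nat_lit 0x30a056010c00980013c10187815803500a601a803203070098001382005a000800ec002078a0008201403))) 
(.lf (nat_lit 805444926) (dlOf (nat_lit 1) (nat_lit 0xc800800540020022000811c903)))) 
(.nd (nat_lit 7) 
(.lf (nat_lit 805441150) (dlOf (nat_lit 1) (nat_lit 0xa8008005400200600008117183))) 
(.lf (nat_lit 872547326) (dlOf (nat_lit 1) (nat_lit 0x80018092881)))))) (.nd (nat_lit 9) 
(.nd (nat_lit 26) (.lf (nat_lit 6711017662) (dlOf (nat_lit 1) (nat_lit 0x400400020008031a82))) 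
(.nd (nat_lit 27) 
(.lf (nat_lit 5167513790) (dlOf (nat_lit 3) (nat_lit 0x180340003302004801a00019018071a80))) 
(.lf (nat_lit 4764860606) (dlOf (nat_lit 1) (nat_lit 0x8008000400200060008031a83))))) 
(.nd (nat_lit 6) (.nd (nat_lit 8) 
(.lf (nat_lit 4697753150) (dlOf (nat_lit 3) (nat_lit 0x2c80a4000340400d4052000130200640028093781))) 
(.lf (nat_lit 4563536702) (dlOf (nat_lit 2) (nat_lit 0x2602900072018095c00)))) 
(.lf (nat_lit 4697752574) (dlOf (nat_lit 1) (nat_lit 0x14400401f80008092882))))))) (.nd (nat_lit 6) 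
(.nd (nat_lit 19) (.nd (nat_lit 21) (.nd (nat_lit 26) (.nd (nat_lit 22) 
(.lf (nat_lit 6442844222) (dlOf (nat_lit 7) (nat_lit 0x38034001b018803380b80200058000202400140110004fc3001400c80004062003202e0077016000800880027c1400440680013d02006a034001b019001180c4006005e005602e001a012000d005c002621c0008068004a03200030170004c01800e80d000fc0640044031000e0178004bc2000080080144002000c00081d0c03))) 
(.lf (nat_lit 54919230) (dlOf (nat_lit 1) (nat_lit 0x400400020009670482)))) (.nd (nat_lit 29) 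
(.lf (nat_lit 4496687166) (dlOf (nat_lit 1) (nat_lit 0xc00400020008120482))) 
(.lf (nat_lit 738590782) (dlOf (nat_lit 6) (nat_lit 0x180154001380407780aa012205401dc01b809a808804d803c000960a03b205501d601b800234100f38154079406e000850403d805501e601b8002101000c00080058002002400080b0483))))) 
(.nd (nat_lit 20) (.nd (nat_lit 7) (.nd (nat_lit 26) 
(.lf (nat_lit 2490430) (dlOf (nat_lit 1) (nat_lit 0x3f80080004002008e0008160c83))) 
(.lf (nat_lit 2753953854) (dlOf (nat_lit 3) (nat_lit 0x52411202640880000d8200050448000680803a0008015c002000400080a0c83)))) 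
(.lf (nat_lit 1009124542) (dlOf (nat_lit 5) (nat_lit 0x1003a8001100801c038800101c00068075002e0398000d82001f838801040ea000340400ac0e2005403a80000010029800800b8002001c0009082c83)))) 
(.nd (nat_lit 22) (.lf (nat_lit 62259262) (dlOf (nat_lit 1) (nat_lit 0x20029990781))) 
(.lf (nat_lit 24510526) (dlOf (nat_lit 2) (nat_lit 0x2b0d00091018ba0c00)))))) (.nd (nat_lit 7) 
(.nd (nat_lit 20) (.nd (nat_lit 23) 
(.lf (nat_lit 917566) (dlOf (nat_lit 1) (nat_lit 0x20008001c00200180008030d83))) 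
(.lf (nat_lit 59637822) (dlOf (nat_lit 2) (nat_lit 0x887100073a0000924100018008001400200040009820603)))) 
(.nd (nat_lit 9) (.lf (nat_lit 25034814) (dlOf (nat_lit 2) (nat_lit 0x1a2cbf00027018be1400))) 
(.lf (nat_lit 58591806) (dlOf (nat_lit 1) (nat_lit 0x3a00297e5201))))) (.nd (nat_lit 8) 
(.nd (nat_lit 9) (.lf (nat_lit 69076158) (dlOf (nat_lit 1) (nat_lit 0x8004003200088a2c82))) 
(.lf (nat_lit 19794622) (dlOf (nat_lit 1) (nat_lit 0x4004000200089d5782)))) (.nd (nat_lit 9) 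
(.lf (nat_lit 19796414) (dlOf (nat_lit 1) (nat_lit 0x300080024002000800089d8603))) 
(.lf (nat_lit 19794878) (dlOf (nat_lit 1) (nat_lit 0x80080004002000200089d5d03))))))) 
(.nd (nat_lit 9) (.nd (nat_lit 7) (.nd (nat_lit 11) (.nd (nat_lit 8) 
(.lf (nat_lit 604373118) (dlOf (nat_lit 2) (nat_lit 0x70038003f00800580080040002001a00081a0483))) 
(.lf (nat_lit 19796350) (dlOf (nat_lit 1) (nat_lit 0x10008000c002000400089d8383)))) 
(.nd (nat_lit 10) (.lf (nat_lit 19798142) (dlOf (nat_lit 1) (nat_lit 0x4002000200089da882))) 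
(.lf (nat_lit 2754481278) (dlOf (nat_lit 1) (nat_lit 0x200080f6101))))) (.nd (nat_lit 10) 
(.nd (nat_lit 11) (.lf (nat_lit 19792126) (dlOf (nat_lit 1) (nat_lit 0x200089d0a81))) 
(.lf (nat_lit 19798270) (dlOf (nat_lit 1) (nat_lit 0x180080004002000200089da983)))) 
(.lf (nat_lit 19795198) (dlOf (nat_lit 1) (nat_lit 0x200089d6601))))) (.nd (nat_lit 8) 
(.nd (nat_lit 7) (.nd (nat_lit 11) 
(.lf (nat_lit 19796606) (dlOf (nat_lit 1) (nat_lit 0xc002000400089d8a82))) 
(.lf (nat_lit 19798654) (dlOf (nat_lit 1) (nat_lit 0x4004000200089db682)))) 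
(.lf (nat_lit 396030) (dlOf (nat_lit 1) (nat_lit 0x20028005a81)))) (.nd (nat_lit 7) 
(.nd (nat_lit 10) (.lf (nat_lit 19798910) (dlOf (nat_lit 1) (nat_lit 0x4004000200089dbc82))) 
(.lf (nat_lit 19795838) (dlOf (nat_lit 1) (nat_lit 0x28008001c002000200089d7783)))) 
(.lf (nat_lit 38142974) (dlOf (nat_lit 1) (nat_lit 0xe0009132881)))))))) (.nd (nat_lit 29) 
(.nd (nat_lit 31) (.nd (nat_lit 19) (.nd (nat_lit 7) (.nd (nat_lit 26) (.nd (nat_lit 6) 
(.lf (nat_lit 5637277246) (dlOf (nat_lit 2) (nat_lit 0x3e013000160180d3780))) 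
(.lf (nat_lit 1346502782) (dlOf (nat_lit 5) (nat_lit 0xe092000703f80014410004824800240fe0004f0400020920001b810009049000401fc0006c08002800400040018f72002)))) 
(.nd (nat_lit 18) (.lf (nat_lit 1140981822) (dlOf (nat_lit 1) (nat_lit 0x1c00400080018040482))) 
(.lf (nat_lit 5838864446) (dlOf (nat_lit 7) (nat_lit 0x38034001b018803380b80200058000202400140110004c83001400c80004062003202e007701600080088002621400440680013002006a034001b019001180c4006005e005602e001a012000d005c002441c0008068004a03200030170004841800e80d000fc0640044031000e0178004802000080080144002000c00081d0c03))))) 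
(.nd (nat_lit 6) (.nd (nat_lit 10) 
(.lf (nat_lit 1208352958) (dlOf (nat_lit 2) (nat_lit 0x90168000a40800780080018002000c00080c1a83))) 
(.lf (nat_lit 1543638206) (dlOf (nat_lit 1) (nat_lit 0xc00400100018146302)))) 
(.lf (nat_lit 1345719038) (dlOf (nat_lit 1) (nat_lit 0x2a0028dd5a81))))) (.nd (nat_lit 9) 
(.nd (nat_lit 21) (.nd (nat_lit 26) 
(.lf (nat_lit 1342832702) (dlOf (nat_lit 19) (nat_lit 0x80171000a80100ed118805e88ac002660801584660296231016311680a208ac0054454002a22800ac0f4800305f4002642005b046603fc231017411680e008ac000c454008422800e20f48004c43800d88cc006c45a001300400062310009781000c119800588b40025c080510466028822d0014115000e87cc002461000ac4980418233000e118810388b400f8454017a1f301540be8004883800209300860466041222d0064115005d07cc02682fa001210c001624c022e119800808c807a445a004622a00da0f9805e85f4002401c008c2e2001080200a0171000838100600b88004180800b05c4001fe0401002e2000fc0200e82260005a0100ad113000000080e180080c94002037c00080e0c03)))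 
(.lf (nat_lit 1409941566) (dlOf (nat_lit 7) (nat_lit 0xbc02580370090000680805140600003302001605900c0025805f00c0000640c01d8096000230200a804b0001101001f0258000840802200080040002001200080a0c83)))) 
(.lf (nat_lit 1344929854) (dlOf (nat_lit 2) (nat_lit 0x3e0580012c29a00a009c005b0468007c02001c00080080002002600089a0603)))) 
(.nd (nat_lit 7) 
(.lf (nat_lit 1345980990) (dlOf (nat_lit 1) (nat_lit 0x10008001400200060008e25203))) 
(.lf (nat_lit 1344149182) (dlOf (nat_lit 1) (nat_lit 0x80080004002000200083da003)))))) 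
(.nd (nat_lit 10) (.nd (nat_lit 21) (.nd (nat_lit 8) (.nd (nat_lit 19) 
(.lf (nat_lit 3288465470) (dlOf (nat_lit 3) (nat_lit 0x50040005200b000208200230050000000800c80080030002001e0008020703))) 
(.lf (nat_lit 3221880894) (dlOf (nat_lit 4) (nat_lit 0x5600000015408061015002e007e014603300530140042007400e4000000540c0030040000800b00014410021000800b4002002800081a1403)))) 
(.lf (nat_lit 3355579198) (dlOf (nat_lit 3) (nat_lit 0x805e00a1902000602f0050a8180a8f80)))) 
(.nd (nat_lit 6) (.nd (nat_lit 18) 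
(.lf (nat_lit 3492413502) (dlOf (nat_lit 2) (nat_lit 0x402100015c0800080080048002000600080c1403))) 
(.lf (nat_lit 3492151358) (dlOf (nat_lit 1) (nat_lit 0x800180a0c81)))) 
(.lf (nat_lit 3493202046) (dlOf (nat_lit 2) (nat_lit 0x3200e8000a80801980080090002001600080f4783))))) 
(.nd (nat_lit 6) (.nd (nat_lit 7) 
(.lf (nat_lit 3221364030) (dlOf (nat_lit 1) (nat_lit 0x400020014000811c902))) 
(.lf (nat_lit 3490057406) (dlOf (nat_lit 2) (nat_lit 0x4505d8040017e01e60b9009b05b809002cc03d414401de09f00f5049007a80040004624004c00400540018006302)))) 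
(.nd (nat_lit 7) (.nd (nat_lit 9) 
(.lf (nat_lit 3490319486) (dlOf (nat_lit 1) (nat_lit 0x1400400020008006102))) 
(.lf (nat_lit 3355580030) (dlOf (nat_lit 1) (nat_lit 0x600280a9d81)))) 
(.lf (nat_lit 3355579902) (dlOf (nat_lit 3) (nat_lit 0x180bc001b20400200640000c02000200280a9c01))))))) 
(.nd (nat_lit 26) (.nd (nat_lit 28) (.nd (nat_lit 6) (.nd (nat_lit 7) 
(.lf (nat_lit 1611006014) (dlOf (nat_lit 6) (nat_lit 0x180154001380407780aa012205401dc01b809a808804d803c000960a03b205501d601b800234100f38154079406e000850403d805501e601b8002101000c00080058002002400080b0483))) 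
(.lf (nat_lit 3892445630) (dlOf (nat_lit 1) (nat_lit 0x30008000c00200120008117a83)))) 
(.nd (nat_lit 7) (.lf (nat_lit 1610744190) (dlOf (nat_lit 1) (nat_lit 0x20018091001))) 
(.lf (nat_lit 3758227710) (dlOf (nat_lit 1) (nat_lit 0x400200020008102902))))) (.nd (nat_lit 18) 
(.nd (nat_lit 6) (.nd (nat_lit 27) 
(.lf (nat_lit 4026662974) (dlOf (nat_lit 3) (nat_lit 0x50040005200b000208200230050000000800c80080030002001e0008020703))) 
(.lf (nat_lit 2013397054) (dlOf (nat_lit 1) (nat_lit 0x1c00400080018040482)))) 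
(.lf (nat_lit 6308365822) (dlOf (nat_lit 1) (nat_lit 0x10008000400200040008053683)))) 
(.nd (nat_lit 20) 
(.lf (nat_lit 1881538622) (dlOf (nat_lit 2) (nat_lit 0x301e8000c60400c000400180008f40602))) 
(.lf (nat_lit 1880490046) (dlOf (nat_lit 2) (nat_lit 0x380e9000e38189a0600)))))) (.nd (nat_lit 28) 
(.nd (nat_lit 8) (.nd (nat_lit 6) (.nd (nat_lit 27) 
(.lf (nat_lit 1677859390) (dlOf (nat_lit 6) (nat_lit 0x120560003601001802b0005004c000cc08007c0ac000650200080560003001000e02b0001004c000000801040040002001811b482))) 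
(.lf (nat_lit 3959560766) (dlOf (nat_lit 5) (nat_lit 0xc08c002a0380003b8200050230001d408004009c0005a04002808a00000020046002811b481)))) 
(.lf (nat_lit 3825339518) (dlOf (nat_lit 1) (nat_lit 0x800400120018146102)))) (.nd (nat_lit 7) 
(.lf (nat_lit 1677855038) (dlOf (nat_lit 1) (nat_lit 0x80008001c00200600008114c83))) 
(.lf (nat_lit 3959556030) (dlOf (nat_lit 1) (nat_lit 0x80018114381))))) (.nd (nat_lit 6) 
(.nd (nat_lit 7) (.lf (nat_lit 1946550334) (dlOf (nat_lit 1) (nat_lit 0x30002001800080c1402))) 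
(.nd (nat_lit 8) (.lf (nat_lit 6241258174) (dlOf (nat_lit 1) (nat_lit 0x4004000200080d5782))) 
(.lf (nat_lit 6241258430) (dlOf (nat_lit 1) (nat_lit 0x80080014002001000080d5d03))))) 
(.nd (nat_lit 8) (.lf (nat_lit 6377046142) (dlOf (nat_lit 1) (nat_lit 0x1c00280a2001))) 
(.lf (nat_lit 6241258366) (dlOf (nat_lit 1) (nat_lit 0x4004000200080d5c02))))))))) 
(.nd (nat_lit 26) (.nd (nat_lit 7) (.nd (nat_lit 18) (.nd (nat_lit 32) (.nd (nat_lit 20) 
(.nd (nat_lit 22) (.nd (nat_lit 6) 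
(.lf (nat_lit 2818773054) (dlOf (nat_lit 1) (nat_lit 0x15000800a400200440008127d03))) 
(.lf (nat_lit 723070) (dlOf (nat_lit 1) (nat_lit 0xc00400020018004782)))) (.nd (nat_lit 21) 
(.lf (nat_lit 12779582) (dlOf (nat_lit 1) (nat_lit 0x80080004002000200086e0c03))) 
(.lf (nat_lit 14876734) (dlOf (nat_lit 1) (nat_lit 0x1000400020008790482))))) (.nd (nat_lit 24) 
(.nd (nat_lit 9) (.lf (nat_lit 3490906174) (dlOf (nat_lit 1) (nat_lit 0x400200020008030d82))) 
(.lf (nat_lit 3491430974) (dlOf (nat_lit 2) (nat_lit 0x5a0f600000008020000803b000200080008091083)))) 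
(.nd (nat_lit 10) (.lf (nat_lit 62062654) (dlOf (nat_lit 1) (nat_lit 0xa0029940481))) 
(.lf (nat_lit 51577918) (dlOf (nat_lit 1) (nat_lit 0x400200020009512882)))))) (.nd (nat_lit 28) 
(.nd (nat_lit 6) (.lf (nat_lit 6442647614) (dlOf (nat_lit 1) (nat_lit 0x20028120d81))) 
(.nd (nat_lit 27) (.lf (nat_lit 4295164030) (dlOf (nat_lit 1) (nat_lit 0x400200020008090082))) 
(.lf (nat_lit 4429381758) (dlOf (nat_lit 1) (nat_lit 0x400200020008090082))))) (.nd (nat_lit 9) 
(.nd (nat_lit 10) 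
(.lf (nat_lit 6308429886) (dlOf (nat_lit 3) (nat_lit 0x200c80080808005802c000fc04001000200020008080482))) 
(.lf (nat_lit 6711084094) (dlOf (nat_lit 1) (nat_lit 0x800400020008092882)))) 
(.lf (nat_lit 5637342782) (dlOf (nat_lit 2) (nat_lit 0x30007400058040078004004400180d3782)))))) 
(.nd (nat_lit 21) (.nd (nat_lit 6) (.nd (nat_lit 22) (.nd (nat_lit 19) 
(.lf (nat_lit 3624337470) (dlOf (nat_lit 1) (nat_lit 0x18008003000200720008160703))) 
(.lf (nat_lit 51314750) (dlOf (nat_lit 1) (nat_lit 0x3000400180019510002)))) (.nd (nat_lit 25) 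
(.lf (nat_lit 13566014) (dlOf (nat_lit 2) (nat_lit 0x302d10004f818730b80))) 
(.lf (nat_lit 47120446) (dlOf (nat_lit 1) (nat_lit 0x200293a0481))))) (.nd (nat_lit 8) 
(.lf (nat_lit 54984830) (dlOf (nat_lit 1) (nat_lit 0x3400400780009680d02))) 
(.lf (nat_lit 39782782) (dlOf (nat_lit 1) (nat_lit 0x400191f4e81))))) (.nd (nat_lit 20) 
(.nd (nat_lit 6) (.nd (nat_lit 8) 
(.lf (nat_lit 3492216894) (dlOf (nat_lit 1) (nat_lit 0xc004000400080b1882))) 
(.lf (nat_lit 19861822) (dlOf (nat_lit 1) (nat_lit 0x150004000200189d8182)))) 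
(.lf (nat_lit 24051838) (dlOf (nat_lit 1) (nat_lit 0x1400200180008b80082)))) (.nd (nat_lit 8) 
(.nd (nat_lit 19) (.lf (nat_lit 24576062) (dlOf (nat_lit 1) (nat_lit 0x800400020008ba0c02))) 
(.lf (nat_lit 25100350) (dlOf (nat_lit 2) (nat_lit 0x108d7600c7694804032fc02559040126c2800027058be1400)))) 
(.lf (nat_lit 50267454) (dlOf (nat_lit 1) (nat_lit 0x380080004002001000094c3283))))))) 
(.nd (nat_lit 6) (.nd (nat_lit 11) (.nd (nat_lit 18) (.nd (nat_lit 9) 
(.lf (nat_lit 3494052030) (dlOf (nat_lit 1) (nat_lit 0xef80080158002022200081b0403))) 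
(.lf (nat_lit 2818773694) (dlOf (nat_lit 1) (nat_lit 0x40018128c81)))) (.nd (nat_lit 10) 
(.lf (nat_lit 47644862) (dlOf (nat_lit 1) (nat_lit 0x8008000400200020009400783))) 
(.lf (nat_lit 47645886) (dlOf (nat_lit 2) (nat_lit 0x82a920004102001a0019402c81))))) 
(.nd (nat_lit 8) (.nd (nat_lit 27) 
(.lf (nat_lit 268634814) (dlOf (nat_lit 1) (nat_lit 0x4004000200080e5782))) 
(.lf (nat_lit 1745029822) (dlOf (nat_lit 1) (nat_lit 0x400200020008095782)))) (.nd (nat_lit 18) 
(.lf (nat_lit 268635070) (dlOf (nat_lit 1) (nat_lit 0x8004000200080e5d02))) 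
(.lf (nat_lit 19860414) (dlOf (nat_lit 1) (nat_lit 0x80080004002000200089d5d03)))))) 
(.nd (nat_lit 28) (.nd (nat_lit 10) (.nd (nat_lit 9) (.nd (nat_lit 11) 
(.lf (nat_lit 9109758) (dlOf (nat_lit 2) (nat_lit 0x2b416000390200460018524601))) 
(.lf (nat_lit 3758299390) (dlOf (nat_lit 1) (nat_lit 0xc001812a981)))) 
(.lf (nat_lit 40045310) (dlOf (nat_lit 1) (nat_lit 0x9600191f5a81)))) (.nd (nat_lit 23) 
(.lf (nat_lit 2684556542) (dlOf (nat_lit 1) (nat_lit 0x600080a9581))) 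
(.lf (nat_lit 8590590) (dlOf (nat_lit 1) (nat_lit 0x1880080024002005a0008519583))))) 
(.nd (nat_lit 18) (.nd (nat_lit 19) (.nd (nat_lit 31) 
(.lf (nat_lit 939721214) (dlOf (nat_lit 9) (nat_lit 0x30802c00c80000005d0400ca00b00600000001701002f8000000a40400880160005002004400b0002381005300c0054802c0064008018c000000210400130058000f80800100000005c0400c000400020008157e02))) 
(.lf (nat_lit 3087204862) (dlOf (nat_lit 2) (nat_lit 0x10058000a4080010008000c00200040008157e03)))) 
(.lf (nat_lit 3491430910) (dlOf (nat_lit 1) (nat_lit 0x38008003400200140008090d83)))) 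
(.nd (nat_lit 8) (.lf (nat_lit 5772870910) (dlOf (nat_lit 1) (nat_lit 0x400400020008092f02))) 
(.lf (nat_lit 3492742142) (dlOf (nat_lit 1) (nat_lit 0x4002000200080f2882)))))))) (.nd (nat_lit 28) 
(.nd (nat_lit 6) (.nd (nat_lit 27) (.nd (nat_lit 20) (.nd (nat_lit 8) (.nd (nat_lit 10) 
(.lf (nat_lit 2754019390) (dlOf (nat_lit 1) (nat_lit 0xc004000400080b1882))) 
(.lf (nat_lit 1677919294) (dlOf (nat_lit 1) (nat_lit 0x18008000400200020008112883)))) 
(.lf (nat_lit 4362273086) (dlOf (nat_lit 19) (nat_lit 0x2c0470055201002602380291c0803e011c013b00401f008e009c20200f8047004de81007c0238026b40803e011c013540401f008e009a90200f8047004d381007c0238026900802f011c013460401f008e009a10200f8047004cf81007c0238026740803e011c0133404008c08e009990200f8047004c301007c02380020408005800800f8002002c0008014c03)))) 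
(.nd (nat_lit 9) (.lf (nat_lit 2752708670) (dlOf (nat_lit 1) (nat_lit 0x400200020008030d82))) 
(.lf (nat_lit 2753233470) (dlOf (nat_lit 2) (nat_lit 0x5a0ff00000008020000803b000200080008091083))))) 
(.nd (nat_lit 31) (.nd (nat_lit 7) 
(.lf (nat_lit 4496490558) (dlOf (nat_lit 1) (nat_lit 0xc00400020008090482))) 
(.lf (nat_lit 6107105982) (dlOf (nat_lit 1) (nat_lit 0x400400020008095782)))) (.nd (nat_lit 10) 
(.lf (nat_lit 2886139966) (dlOf (nat_lit 1) (nat_lit 0x18008003000200720008160703))) 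
(.lf (nat_lit 2885878846) (dlOf (nat_lit 1) (nat_lit 0x3400200060008142882)))))) (.nd (nat_lit 27) 
(.nd (nat_lit 7) (.nd (nat_lit 8) 
(.lf (nat_lit 2753757310) (dlOf (nat_lit 6) (nat_lit 0x543a6002120200041d4000fd0100280eb0005540800b8758002a80400843ac001520200080018090081))) 
(.lf (nat_lit 2751924094) (dlOf (nat_lit 1) (nat_lit 0x400400040018004102)))) (.nd (nat_lit 18) 
(.nd (nat_lit 19) 
(.lf (nat_lit 4362273278) (dlOf (nat_lit 11) (nat_lit 0x8002b003681500110092054202b0003404002402b001381500a58056000670600a8056004c02a0009012409cc0560006608000e0560003181000302b00018408040015801580a8004004902a10158001082003601580b88056000410400ae056001e02a0007812409c80560003f08001205601c90158000f810010015800b40a8000230401120028017e01))) 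
(.lf (nat_lit 2753233406) (dlOf (nat_lit 2) (nat_lit 0x21fd000a1818090d80)))) 
(.lf (nat_lit 2752446974) (dlOf (nat_lit 3) (nat_lit 0x1460b20000b810068059000a81b80002a0800a400400360018017e02))))) 
(.nd (nat_lit 9) (.nd (nat_lit 8) 
(.lf (nat_lit 5033362686) (dlOf (nat_lit 1) (nat_lit 0x20028092f01))) 
(.lf (nat_lit 201523710) (dlOf (nat_lit 1) (nat_lit 0x20028017e01)))) (.nd (nat_lit 7) 
(.lf (nat_lit 3422753662) (dlOf (nat_lit 1) (nat_lit 0x200180a9001))) 
(.lf (nat_lit 5033362430) (dlOf (nat_lit 1) (nat_lit 0x400400020008092882))))))) (.nd (nat_lit 32) 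
(.nd (nat_lit 8) (.nd (nat_lit 18) (.nd (nat_lit 7) (.nd (nat_lit 21) 
(.lf (nat_lit 1410007102) (dlOf (nat_lit 6) (nat_lit 0xf001ac0a580ba04b005706a5029008001000ae406601200280089012806a808802b803e03a8012000d00080af0000000b03408440d6016a068028802e813a01680a500ae0db40520189020017680cc00cc04a0476022021300f8091007009ac02400c8008000a00080c30000000ae4003140a400051020060033000130102a10198000000804800080578002000e00080c1403))) 
(.lf (nat_lit 472580158) (dlOf (nat_lit 19) (nat_lit 0x4d614d025206c812883600abc0fa066607c0012485007803e80092008029853400f01b2006c0d800a803e809501f00048e1401000fa0024502003a07d001118101fa03e8007e80805301f400e80f8001f504045e14d018306c813f81f40c340f801f002a000f80500610a6810401f402ac0f8001ef060032000000f48102830a1814204ec09f827205160cd02c603a816281cc0038e1801a0286006a13901ac03a80c181cc0038c10035428601aa13b00d109c806e833404a80ea0252073000e28600c20a1806b04e409540ea0324073000e184005d03a801701cc0038208004819a03c8075006a0398006fc18109850c00c8276006a0cd025f03a812f01cc0037a14007428604c807502670398006f01809a000801dc002005000089c0603))))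 
(.lf (nat_lit 3556971198) (dlOf (nat_lit 1) (nat_lit 0x20018128c81)))) (.nd (nat_lit 19) 
(.lf (nat_lit 3557228606) (dlOf (nat_lit 1) (nat_lit 0x320018170481))) 
(.lf (nat_lit 473890878) (dlOf (nat_lit 2) (nat_lit 0x94853405ac1b200ee0d800123838fc0600))))) 
(.nd (nat_lit 6) (.nd (nat_lit 10) 
(.lf (nat_lit 4228055358) (dlOf (nat_lit 19) (nat_lit 0x2c040002878100260200012c80803e0100008940401f00800042d0200f80400021401007c0200010640803e0100008300401f0080004160200f80400020781007c0200010300802f0100008120401f0080004070200f80400020301007c02000100c0803e01000080404008c080003ff0200f8040001f701007c0200002fc08005800800f8002002c0008014c03))) 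
(.lf (nat_lit 1543703870) (dlOf (nat_lit 4) (nat_lit 0x3601700170078000b81001380780005a040010058003401700160078000801800d00080004002001e0008146903)))) 
(.nd (nat_lit 7) (.lf (nat_lit 2617447294) (dlOf (nat_lit 1) (nat_lit 0x4004000200180a9002))) 
(.nd (nat_lit 29) 
(.lf (nat_lit 469959166) (dlOf (nat_lit 10) (nat_lit 0x619a00030000001841000f873c003439a000470400021cf00120e6800118100048744006439e000a1c500450cd00048000000841400403340003f0200521cf0001e8100020ec800707140005c08001c3c600061d900020bd0000b41800205500004604016400400040008017e02))) 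
(.lf (nat_lit 1006830078) (dlOf (nat_lit 1) (nat_lit 0x500080020002000600080c0d83))))))) 
(.nd (nat_lit 7) (.nd (nat_lit 9) (.nd (nat_lit 10) (.nd (nat_lit 27) 
(.lf (nat_lit 5704450110) (dlOf (nat_lit 3) (nat_lit 0x200c80080808005802c000fc04001000200020008080482))) 
(.lf (nat_lit 5838667838) (dlOf (nat_lit 1) (nat_lit 0x20028120d81)))) 
(.lf (nat_lit 4764927038) (dlOf (nat_lit 1) (nat_lit 0x400400020008092882)))) (.nd (nat_lit 8) 
(.lf (nat_lit 4764927550) (dlOf (nat_lit 1) (nat_lit 0x10008000800200040008093783))) 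
(.lf (nat_lit 4630711102) (dlOf (nat_lit 1) (nat_lit 0x660018095c01))))) (.nd (nat_lit 8) 
(.nd (nat_lit 6) (.lf (nat_lit 4630710974) (dlOf (nat_lit 1) (nat_lit 0x400400020008095782))) 
(.lf (nat_lit 6376325374) (dlOf (nat_lit 1) (nat_lit 0x800400020008090a82)))) (.nd (nat_lit 9) 
(.lf (nat_lit 4764927422) (dlOf (nat_lit 1) (nat_lit 0x120018093601))) 
(.lf (nat_lit 4630711230) (dlOf (nat_lit 1) (nat_lit 0x400400020008095d02)))))))))) 
(.nd (nat_lit 28) (.nd (nat_lit 18) (.nd (nat_lit 31) (.nd (nat_lit 6) (.nd (nat_lit 19) 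
(.nd (nat_lit 16) (.nd (nat_lit 8) (.nd (nat_lit 20) 
(.lf (nat_lit 1140990014) (dlOf (nat_lit 1) (nat_lit 0x80008051681))) 
(.lf (nat_lit 24256574) (dlOf (nat_lit 2) (nat_lit 0xe00000011818b90c80)))) 
(.lf (nat_lit 671229758) (dlOf (nat_lit 1) (nat_lit 0x8008000400200020008143e03)))) 
(.nd (nat_lit 7) (.nd (nat_lit 26) 
(.lf (nat_lit 5368913982) (dlOf (nat_lit 1) (nat_lit 0x8008000400200020008090003))) 
(.lf (nat_lit 4496498750) (dlOf (nat_lit 3) (nat_lit 0x15006803940140009d0400a801a00e7005000238100170008003400200460008090483)))) 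
(.lf (nat_lit 1141058238) (dlOf (nat_lit 1) (nat_lit 0x200080034002000c0008095783))))) 
(.nd (nat_lit 25) (.nd (nat_lit 16) (.nd (nat_lit 22) 
(.lf (nat_lit 537534526) (dlOf (nat_lit 12) (nat_lit 0x1802c80007808013016401900960001c0402b205f00d001800006c1008e017c020c0b200e804b006101800006820000817c00440b20001904018405f003802c8000601000881640001e0400f40b2008804b0000582007902c8031012c000140800440b2000204b0000482001002c800010080d00008040c002004400080a0c83))) 
(.lf (nat_lit 4857918) (dlOf (nat_lit 1) (nat_lit 0x200182d0481)))) (.nd (nat_lit 26) 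
(.lf (nat_lit 134946878) (dlOf (nat_lit 2) (nat_lit 0x380000045c0400ec002010400080e0d82))) 
(.lf (nat_lit 202055742) (dlOf (nat_lit 2) (nat_lit 0x380000045c0400ec002010400080e0d82))))) 
(.nd (nat_lit 7) (.nd (nat_lit 9) 
(.lf (nat_lit 60432446) (dlOf (nat_lit 1) (nat_lit 0x20019860481))) 
(.lf (nat_lit 36317758) (dlOf (nat_lit 1) (nat_lit 0x20019075201)))) 
(.lf (nat_lit 41559230) (dlOf (nat_lit 1) (nat_lit 0x20019242c81)))))) (.nd (nat_lit 7) 
(.nd (nat_lit 11) (.nd (nat_lit 8) 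
(.lf (nat_lit 28450942) (dlOf (nat_lit 1) (nat_lit 0x400200020008da0482))) 
(.lf (nat_lit 8532862) (dlOf (nat_lit 1) (nat_lit 0x20018519001)))) (.nd (nat_lit 16) 
(.lf (nat_lit 1208101502) (dlOf (nat_lit 1) (nat_lit 0x4004000e0018095482))) 
(.lf (nat_lit 6107114110) (dlOf (nat_lit 1) (nat_lit 0x20028095481))))) (.nd (nat_lit 9) 
(.nd (nat_lit 8) (.lf (nat_lit 20134142) (dlOf (nat_lit 1) (nat_lit 0x200189da981))) 
(.nd (nat_lit 20) 
(.lf (nat_lit 1073881598) (dlOf (nat_lit 6) (nat_lit 0x210148000b80801100a40005a04004c052000230200580290000f01003d014800000080028008000c00200020008017e03))) 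
(.lf (nat_lit 11674110) (dlOf (nat_lit 1) (nat_lit 0x200080010002000600086c0d83))))) 
(.nd (nat_lit 10) (.lf (nat_lit 36316158) (dlOf (nat_lit 1) (nat_lit 0x20019072881))) 
(.lf (nat_lit 5905786878) (dlOf (nat_lit 1) (nat_lit 0xe0018144701))))))) (.nd (nat_lit 10) 
(.nd (nat_lit 6) (.nd (nat_lit 8) (.nd (nat_lit 9) (.nd (nat_lit 16) 
(.lf (nat_lit 3288473662) (dlOf (nat_lit 6) (nat_lit 0xe6404005e800b000208201e80100097802c0008008066804001aa00b0001b0200ed010005f802c00068080654040016000b003a005000000180318008014000200180008020703))) 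
(.lf (nat_lit 6643982398) (dlOf (nat_lit 1) (nat_lit 0x4004000200080b0002)))) 
(.lf (nat_lit 3959568958) (dlOf (nat_lit 3) (nat_lit 0x6040000701c00090058000ee0c00ec05e000402e002800a0001c418007000800480020072000811b483)))) 
(.nd (nat_lit 7) 
(.lf (nat_lit 3355587390) (dlOf (nat_lit 2) (nat_lit 0x2801a0028640800900080094002004000080a8f83))) 
(.lf (nat_lit 3758236094) (dlOf (nat_lit 3) (nat_lit 0x400e00010000004441000080380021204014400400060008107002))))) 
(.nd (nat_lit 7) (.nd (nat_lit 9) 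
(.lf (nat_lit 2753765502) (dlOf (nat_lit 1) (nat_lit 0x20018090081))) 
(.lf (nat_lit 2818781822) (dlOf (nat_lit 1) (nat_lit 0x20028128a81)))) (.nd (nat_lit 9) 
(.lf (nat_lit 3959568894) (dlOf (nat_lit 2) (nat_lit 0x1800b00304408014000801100020032000811b283))) 
(.lf (nat_lit 3959628798) (dlOf (nat_lit 2) (nat_lit 0x4000002bac04002800200020008112882)))))) 
(.nd (nat_lit 11) (.nd (nat_lit 6) (.nd (nat_lit 7) 
(.lf (nat_lit 2818712894) (dlOf (nat_lit 1) (nat_lit 0xb80080018002000c00080d3283))) 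
(.nd (nat_lit 9) 
(.lf (nat_lit 3758306750) (dlOf (nat_lit 2) (nat_lit 0x4013000088080008008000400200040008129a03))) 
(.lf (nat_lit 3959564222) (dlOf (nat_lit 5) (nat_lit 0x2800e000048100140070000200800a00380000c04001801c000010200060018114381))))) 
(.nd (nat_lit 7) (.lf (nat_lit 3355588222) (dlOf (nat_lit 1) (nat_lit 0x800180a9d81))) 
(.lf (nat_lit 2684564734) (dlOf (nat_lit 2) (nat_lit 0xe01d8004d0080008008000c002000e00080a9583))))) 
(.nd (nat_lit 9) (.nd (nat_lit 6) (.nd (nat_lit 8) 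
(.lf (nat_lit 2818784318) (dlOf (nat_lit 1) (nat_lit 0x1d0008023c0020114000812bf03))) 
(.lf (nat_lit 3221372222) (dlOf (nat_lit 2) (nat_lit 0x805800d040400c80040038000811c902)))) 
(.lf (nat_lit 3221433726) (dlOf (nat_lit 1) (nat_lit 0x60008116c01)))) (.nd (nat_lit 7) 
(.lf (nat_lit 2818780990) (dlOf (nat_lit 1) (nat_lit 0x40008004c002000a0008127583))) 
(.lf (nat_lit 2818781118) (dlOf (nat_lit 1) (nat_lit 0x168008007c002005e0008127a83)))))))) 
(.nd (nat_lit 16) (.nd (nat_lit 20) (.nd (nat_lit 32) (.nd (nat_lit 26) (.nd (nat_lit 6) 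
(.nd (nat_lit 9) (.lf (nat_lit 54927422) (dlOf (nat_lit 1) (nat_lit 0x10008016000200020009670483))) 
(.lf (nat_lit 134619710) (dlOf (nat_lit 3) (nat_lit 0x1202e000090100ae0170000000800c8008031400200260008091083)))) 
(.lf (nat_lit 53354622) (dlOf (nat_lit 1) (nat_lit 0xa00295a0d01)))) (.nd (nat_lit 6) 
(.nd (nat_lit 9) 
(.lf (nat_lit 3288735806) (dlOf (nat_lit 6) (nat_lit 0x7a020000508100250100001f8080218080000860401140400002d020040020000120180d0b80))) 
(.lf (nat_lit 201728574) (dlOf (nat_lit 3) (nat_lit 0x1202e000088100ae0170000000800c8008031400200260008091083)))) 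
(.lf (nat_lit 2752389630) (dlOf (nat_lit 4) (nat_lit 0x720840001701005705900005c0800582c80002a04004c002000c0008017e02))))) 
(.nd (nat_lit 8) (.nd (nat_lit 26) 
(.lf (nat_lit 5905981502) (dlOf (nat_lit 2) (nat_lit 0x402b000600a8000e01001b8008005800200080008170d83))) 
(.nd (nat_lit 27) 
(.lf (nat_lit 6509961278) (dlOf (nat_lit 2) (nat_lit 0x402c000600a8000d81001b8008005800200080008170d83))) 
(.lf (nat_lit 4496695358) (dlOf (nat_lit 3) (nat_lit 0x1500c803940440009d0400a803200e7011000238100170008003400200460008120483))))) 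
(.nd (nat_lit 6) (.lf (nat_lit 4362478014) (dlOf (nat_lit 1) (nat_lit 0x2c00400020008090882))) 
(.lf (nat_lit 4362477950) (dlOf (nat_lit 1) (nat_lit 0x20018090781)))))) (.nd (nat_lit 19) 
(.nd (nat_lit 22) (.nd (nat_lit 7) (.nd (nat_lit 21) 
(.lf (nat_lit 26615870) (dlOf (nat_lit 2) (nat_lit 0x357b40029a04006400400340018c50482))) 
(.lf (nat_lit 37101630) (dlOf (nat_lit 1) (nat_lit 0xc00400040009090602)))) 
(.lf (nat_lit 3547326) (dlOf (nat_lit 1) (nat_lit 0x28008001c00200120008200403)))) (.nd (nat_lit 7) 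
(.nd (nat_lit 8) (.lf (nat_lit 24518718) (dlOf (nat_lit 1) (nat_lit 0x28008001400200020008ba0c03))) 
(.lf (nat_lit 41296190) (dlOf (nat_lit 1) (nat_lit 0x180029237d01)))) 
(.lf (nat_lit 14033086) (dlOf (nat_lit 1) (nat_lit 0x8008000800200020008750383))))) 
(.nd (nat_lit 10) (.nd (nat_lit 24) 
(.lf (nat_lit 8265790) (dlOf (nat_lit 1) (nat_lit 0x20008510001))) 
(.lf (nat_lit 25043006) (dlOf (nat_lit 2) (nat_lit 0x1dccbf00027018be1400)))) (.nd (nat_lit 6) 
(.nd (nat_lit 7) (.lf (nat_lit 50209854) (dlOf (nat_lit 1) (nat_lit 0x1800194c2881))) 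
(.lf (nat_lit 69084350) (dlOf (nat_lit 1) (nat_lit 0x10008002c002000e00088a2c83)))) 
(.lf (nat_lit 8271742) (dlOf (nat_lit 1) (nat_lit 0x40040002001851a302))))))) (.nd (nat_lit 19) 
(.nd (nat_lit 29) (.nd (nat_lit 7) (.nd (nat_lit 9) (.nd (nat_lit 20) 
(.lf (nat_lit 2564158) (dlOf (nat_lit 1) (nat_lit 0x20018170c01))) 
(.lf (nat_lit 24584254) (dlOf (nat_lit 1) (nat_lit 0x400200020008ba0c02)))) 
(.lf (nat_lit 44509758) (dlOf (nat_lit 1) (nat_lit 0x800400020009325202)))) (.nd (nat_lit 8) 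
(.lf (nat_lit 47654078) (dlOf (nat_lit 2) (nat_lit 0x1aa4800104080160008000c00200120009402c83))) 
(.lf (nat_lit 43460030) (dlOf (nat_lit 1) (nat_lit 0xc00192a3601))))) (.nd (nat_lit 27) 
(.nd (nat_lit 10) 
(.lf (nat_lit 1611079742) (dlOf (nat_lit 3) (nat_lit 0x2002a0004e8100080150002380800580080030002001600080d0483))) 
(.lf (nat_lit 2751931454) (dlOf (nat_lit 1) (nat_lit 0x20008002881)))) (.nd (nat_lit 31) 
(.lf (nat_lit 738664510) (dlOf (nat_lit 3) (nat_lit 0x2002a0004e8100080150002380800580080030002001600080d0483))) 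
(.lf (nat_lit 2886148158) (dlOf (nat_lit 2) (nat_lit 0x8082000640200020008170d81)))))) 
(.nd (nat_lit 6) (.nd (nat_lit 20) (.nd (nat_lit 8) 
(.lf (nat_lit 21962814) (dlOf (nat_lit 1) (nat_lit 0x800200020008a80d82))) 
(.lf (nat_lit 7283006) (dlOf (nat_lit 1) (nat_lit 0x1800084b0701)))) (.nd (nat_lit 21) 
(.lf (nat_lit 52371518) (dlOf (nat_lit 2) (nat_lit 0x3e00000124819530600))) 
(.lf (nat_lit 25108542) (dlOf (nat_lit 4) (nat_lit 0xca52a0005402002f2950002881005096300174138001c0000004e0600020028be1401))))) 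
(.nd (nat_lit 7) (.nd (nat_lit 9) 
(.lf (nat_lit 19872894) (dlOf (nat_lit 1) (nat_lit 0x800289dc101))) 
(.lf (nat_lit 19870334) (dlOf (nat_lit 1) (nat_lit 0x80080004002000200089d8a83)))) 
(.lf (nat_lit 2752455166) (dlOf (nat_lit 2) (nat_lit 0xd21f8005a0f1000f06c00003c0c000400400060008017e02)))))))) 
(.nd (nat_lit 26) (.nd (nat_lit 16) (.nd (nat_lit 27) (.nd (nat_lit 19) (.nd (nat_lit 18) 
(.nd (nat_lit 6) (.nd (nat_lit 29) 
(.lf (nat_lit 2416058430) (dlOf (nat_lit 1) (nat_lit 0x800800bc002001c0008030d83))) 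
(.lf (nat_lit 4026671166) (dlOf (nat_lit 6) (nat_lit 0xe6404005e800b000208201e80100097802c0008008066804001aa00b0001b0200ed010005f802c00068080654040016000b003a005000000180318008014000200180008020703)))) 
(.lf (nat_lit 805448062) (dlOf (nat_lit 1) (nat_lit 0xc002000c0008114e82)))) (.nd (nat_lit 22) 
(.nd (nat_lit 29) (.lf (nat_lit 5637546046) (dlOf (nat_lit 2) (nat_lit 0x1801d00058018100480))) 
(.lf (nat_lit 4026933310) (dlOf (nat_lit 6) (nat_lit 0x7a020000508100250100001f80802180800008204011404000032020040020000150180d0b80)))) 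
(.lf (nat_lit 1346773054) (dlOf (nat_lit 2) (nat_lit 0xa42ac005214300290660008f0180058008002000200100009000603))))) 
(.nd (nat_lit 20) (.nd (nat_lit 21) (.nd (nat_lit 29) 
(.lf (nat_lit 1342840894) (dlOf (nat_lit 2) (nat_lit 0x108c400262040014004001000080e0c02))) 
(.lf (nat_lit 805969982) (dlOf (nat_lit 3) (nat_lit 0x1d015800d80260004f04015c05600b7009800138100130008001400200100008201403)))) 
(.lf (nat_lit 1344938046) (dlOf (nat_lit 7) (nat_lit 0xb429a00a20d9003b06c002e81f4017c0f8002490a000407c001238100500a6802301f401280f8003602f000f80400180a1802684ec0108272006e0cd003a03a801e81cc0038e1801080ea001bf02011a075008d0398006f41003c00080058002000600089a0603)))) 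
(.nd (nat_lit 7) 
(.lf (nat_lit 1345989182) (dlOf (nat_lit 5) (nat_lit 0x2160001506c80018270000411a0007708001e0d90003b01000b06c8001d408011058000b41b2006c09c003f04680000020025000800b400200020008e25203))) 
(.lf (nat_lit 1346249150) (dlOf (nat_lit 8) (nat_lit 0x7000c0001702003c0060000b01001e0030000380800e8018000180400642d800120fb001f003000a80040000c1000101f6003a0060000202000407d800f80180000008002800200020008e81082)))))) 
(.nd (nat_lit 10) (.nd (nat_lit 29) (.nd (nat_lit 31) 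
(.lf (nat_lit 4697759806) (dlOf (nat_lit 1) (nat_lit 0x80028090001))) 
(.lf (nat_lit 2550276158) (dlOf (nat_lit 1) (nat_lit 0x800800bc002001c0008030d83)))) 
(.lf (nat_lit 2013405246) (dlOf (nat_lit 1) (nat_lit 0x80008051681)))) (.nd (nat_lit 6) 
(.nd (nat_lit 9) (.lf (nat_lit 3087148094) (dlOf (nat_lit 1) (nat_lit 0x140018142881))) 
(.lf (nat_lit 4697761342) (dlOf (nat_lit 2) (nat_lit 0x320290000d018093780)))) (.nd (nat_lit 11) 
(.lf (nat_lit 5773599870) (dlOf (nat_lit 1) (nat_lit 0x4004000200080e2a82))) 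
(.lf (nat_lit 3624283262) (dlOf (nat_lit 1) (nat_lit 0x20028146101))))))) (.nd (nat_lit 18) 
(.nd (nat_lit 6) (.nd (nat_lit 9) (.nd (nat_lit 27) (.nd (nat_lit 7) 
(.lf (nat_lit 2952994878) (dlOf (nat_lit 3) (nat_lit 0x9002a0057c81004e015002be0080128008001800200040008080903))) 
(.lf (nat_lit 3489868990) (dlOf (nat_lit 2) (nat_lit 0xef0f5000107640004608000800400060008006302)))) 
(.nd (nat_lit 20) (.lf (nat_lit 2013471806) (dlOf (nat_lit 1) (nat_lit 0x40018092881))) 
(.lf (nat_lit 5772616766) (dlOf (nat_lit 1) (nat_lit 0x20018092881))))) (.nd (nat_lit 10) 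
(.nd (nat_lit 27) (.lf (nat_lit 2416124478) (dlOf (nat_lit 1) (nat_lit 0x1400400020008091082))) 
(.lf (nat_lit 2550342206) (dlOf (nat_lit 1) (nat_lit 0x1400400020008091082)))) 
(.lf (nat_lit 5637350974) (dlOf (nat_lit 2) (nat_lit 0x2a807400058040048004003400180d3782))))) 
(.nd (nat_lit 7) (.nd (nat_lit 8) (.nd (nat_lit 9) 
(.lf (nat_lit 1881350270) (dlOf (nat_lit 1) (nat_lit 0x20018eb0d01))) 
(.lf (nat_lit 4160960126) (dlOf (nat_lit 2) (nat_lit 0xe0158000000800180080008002000e00080a9d83)))) 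
(.lf (nat_lit 3489868158) (dlOf (nat_lit 1) (nat_lit 0x400400100008004e82)))) (.nd (nat_lit 27) 
(.lf (nat_lit 2416124414) (dlOf (nat_lit 1) (nat_lit 0x400400020008090d82))) 
(.lf (nat_lit 3087213054) (dlOf (nat_lit 21) (nat_lit 0x520058000dc08024002c0006c040114000000310201e200b00e3004807880000005c0c03b001601bc00900eb0000000b418028002c000580404640160096000000148200a800580009c08052002c0004c040144016000250200e800b001d00000005410028002c0002004024c016005400000006020093005802280000001608004c0160000802000200b0000381005200580001808053802c000080401d0016003a00000001820012005800000080200008002400200020008157e03)))))) 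
(.nd (nat_lit 31) (.nd (nat_lit 32) (.nd (nat_lit 6) (.nd (nat_lit 7) 
(.lf (nat_lit 1343168574) (dlOf (nat_lit 1) (nat_lit 0x400200080008190482))) 
(.lf (nat_lit 1344742590) (dlOf (nat_lit 3) (nat_lit 0x381d4000340400100fa000020200020018982c81)))) 
(.lf (nat_lit 1345790206) (dlOf (nat_lit 1) (nat_lit 0x800400020008de2902)))) (.nd (nat_lit 19) 
(.nd (nat_lit 27) (.lf (nat_lit 4563869758) (dlOf (nat_lit 1) (nat_lit 0xe0028110781))) 
(.lf (nat_lit 4698087486) (dlOf (nat_lit 1) (nat_lit 0xe0028110781)))) 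
(.lf (nat_lit 5773402174) (dlOf (nat_lit 1) (nat_lit 0x1200180d0e01))))) (.nd (nat_lit 6) 
(.nd (nat_lit 8) 
(.lf (nat_lit 3624345662) (dlOf (nat_lit 2) (nat_lit 0x8082000610200020008170d81))) 
(.lf (nat_lit 3492751166) (dlOf (nat_lit 1) (nat_lit 0xc00080038002001e00080f3e03)))) 
(.nd (nat_lit 7) (.lf (nat_lit 3490134910) (dlOf (nat_lit 1) (nat_lit 0x2cc00401b8000800bc82))) 
(.lf (nat_lit 3490131198) (dlOf (nat_lit 1) (nat_lit 0x20028006601)))))))) (.nd (nat_lit 27) 
(.nd (nat_lit 6) (.nd (nat_lit 8) (.nd (nat_lit 18) (.nd (nat_lit 19) 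
(.lf (nat_lit 5167521854) (dlOf (nat_lit 2) (nat_lit 0xe8060000fc040034004005e0018080482))) 
(.lf (nat_lit 1409949758) (dlOf (nat_lit 12) (nat_lit 0x1802c8000d80801301640190096000340402b205f00d00180000cc1008e017c020c0b200e804b00610180000c820000817c00440b20003104018405f003802c8000c01000881640004e0400f40b2008804b0001182007902c8031012c000440800440b2000204b0001082001002c800018080d00008040c002004400080a0c83)))) 
(.nd (nat_lit 16) (.lf (nat_lit 6241525822) (dlOf (nat_lit 2) (nat_lit 0x1801d00058018100480))) 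
(.lf (nat_lit 3557236798) (dlOf (nat_lit 1) (nat_lit 0x4c002001c0008170482))))) (.nd (nat_lit 7) 
(.nd (nat_lit 9) (.nd (nat_lit 10) 
(.lf (nat_lit 3556979006) (dlOf (nat_lit 2) (nat_lit 0x200e8000cc04004000400060008128182))) 
(.lf (nat_lit 1409428798) (dlOf (nat_lit 2) (nat_lit 0x1017c00056040018004001a0008006902)))) 
(.lf (nat_lit 6241332030) (dlOf (nat_lit 1) (nat_lit 0x200280d5c01)))) (.nd (nat_lit 9) 
(.lf (nat_lit 3556981182) (dlOf (nat_lit 1) (nat_lit 0xc0020002000812af82))) 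
(.lf (nat_lit 6241266622) (dlOf (nat_lit 1) (nat_lit 0x4004004a00080d5d02)))))) (.nd (nat_lit 9) 
(.nd (nat_lit 7) (.nd (nat_lit 10) 
(.lf (nat_lit 3556978814) (dlOf (nat_lit 1) (nat_lit 0x168008007c002005e0008127d83))) 
(.lf (nat_lit 1409494142) (dlOf (nat_lit 1) (nat_lit 0x20028006101)))) (.nd (nat_lit 11) 
(.lf (nat_lit 5167588606) (dlOf (nat_lit 1) (nat_lit 0x11c00180d2f01))) 
(.lf (nat_lit 1409428734) (dlOf (nat_lit 1) (nat_lit 0x40018006601))))) (.nd (nat_lit 8) 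
(.nd (nat_lit 16) (.lf (nat_lit 335686270) (dlOf (nat_lit 1) (nat_lit 0x400400020008095482))) 
(.nd (nat_lit 19) (.lf (nat_lit 4630719102) (dlOf (nat_lit 1) (nat_lit 0x400400020008095482))) 
(.lf (nat_lit 4094372478) (dlOf (nat_lit 1) (nat_lit 0x400400020008055482))))) (.nd (nat_lit 12) 
(.lf (nat_lit 4094569342) (dlOf (nat_lit 1) (nat_lit 0x20028055c01))) 
(.lf (nat_lit 1409432446) (dlOf (nat_lit 1) (nat_lit 0x4001800bc81))))))) (.nd (nat_lit 18) 
(.nd (nat_lit 6) (.nd (nat_lit 7) (.nd (nat_lit 8) (.nd (nat_lit 10) 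
(.lf (nat_lit 470425662) (dlOf (nat_lit 2) (nat_lit 0x108c40027c040014004001000080e0c02))) 
(.lf (nat_lit 474096702) (dlOf (nat_lit 2) (nat_lit 0x20cd0026a019082880)))) 
(.lf (nat_lit 1543712062) (dlOf (nat_lit 4) (nat_lit 0x40480018017000a0078000b81800280780005a04001404600140170007007800080180110008001000200360008146903)))) 
(.nd (nat_lit 8) (.nd (nat_lit 9) 
(.lf (nat_lit 1543646398) (dlOf (nat_lit 3) (nat_lit 0xa02500013810038011000074080c68008034800200220008146303))) 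
(.lf (nat_lit 6376532670) (dlOf (nat_lit 1) (nat_lit 0x400200020008095782)))) 
(.lf (nat_lit 3154256318) (dlOf (nat_lit 2) (nat_lit 0xa068000203300010000002020c012800400020018137002))))) 
(.nd (nat_lit 7) (.nd (nat_lit 8) (.nd (nat_lit 16) 
(.lf (nat_lit 6377054334) (dlOf (nat_lit 1) (nat_lit 0x4004000200080a2002))) 
(.lf (nat_lit 473636990) (dlOf (nat_lit 1) (nat_lit 0x140028f73581)))) 
(.lf (nat_lit 2617455486) (dlOf (nat_lit 1) (nat_lit 0x200280a9001)))) (.nd (nat_lit 10) 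
(.lf (nat_lit 473571582) (dlOf (nat_lit 1) (nat_lit 0x400400020008f62902))) 
(.lf (nat_lit 4764935422) (dlOf (nat_lit 1) (nat_lit 0x400400020008092f02)))))) (.nd (nat_lit 29) 
(.nd (nat_lit 16) (.nd (nat_lit 8) (.nd (nat_lit 20) 
(.lf (nat_lit 2617647166) (dlOf (nat_lit 3) (nat_lit 0x300560003f02000602b0001a018130e80))) 
(.lf (nat_lit 471212094) (dlOf (nat_lit 1) (nat_lit 0x200080018002001800082c0a03)))) 
(.lf (nat_lit 472786238) (dlOf (nat_lit 2) (nat_lit 0x10000000040200020008b03281)))) 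
(.nd (nat_lit 9) 
(.lf (nat_lit 473899070) (dlOf (nat_lit 2) (nat_lit 0x148534004c1b2003c0d800123838fc0600))) 
(.lf (nat_lit 472328766) (dlOf (nat_lit 4) (nat_lit 0x281f4000ee0400200ea000407300033020002039800194080020008001000200080008985203))))) 
(.nd (nat_lit 32) (.nd (nat_lit 7) 
(.lf (nat_lit 1008083006) (dlOf (nat_lit 2) (nat_lit 0x380e9000e38189c0600))) (.nd (nat_lit 8) 
(.lf (nat_lit 1009132734) (dlOf (nat_lit 8) (nat_lit 0x400ea0004402013a0e2008603a80010410016838800a80ea000400400480e2002403a8000ec100038388000c0ea000360400280750001a01000803a800000080038008001400200020009082c83))) 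
(.lf (nat_lit 4228260286) (dlOf (nat_lit 1) (nat_lit 0x2c00400020008090882))))) (.nd (nat_lit 6) 
(.lf (nat_lit 6376270526) (dlOf (nat_lit 1) (nat_lit 0x400400020008095782))) (.nd (nat_lit 7) 
(.lf (nat_lit 6376860286) (dlOf (nat_lit 1) (nat_lit 0x400400020008095482))) 
(.lf (nat_lit 6376333566) (dlOf (nat_lit 3) (nat_lit 0x982440016002005c1200004e018090a80)))))))))))) 
(.nd (nat_lit 13) (.nd (nat_lit 16) (.nd (nat_lit 28) (.nd (nat_lit 6) (.nd (nat_lit 18) 
(.nd (nat_lit 19) (.nd (nat_lit 26) (.nd (nat_lit 7) (.nd (nat_lit 10) (.nd (nat_lit 22) 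
(.lf (nat_lit 52592702) (dlOf (nat_lit 23) (nat_lit 0x4230400048e040110000001f002001ac11000e38100d360880071408021b0440037a04039d8240224c110185594805eaca003e54f60238a69000aa0600d06088093aca402816500196a7b00ef53480054c280683044031d4f6018ca690009b83007160980048808040304c002420403318260011f020186c130008581009660980041c0806b304c0020a0401558260010202025cb290007d0100015948003d0080563040020d64e014aa7a003e5340002502004fb040029564e0138a7a003953400024c20052b04002954f40000304014ac1000a553d0000081008230440431652018eb2800ee53d807fa9a40000014011800400500009550602))) 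
(.lf (nat_lit 56787006) (dlOf (nat_lit 1) (nat_lit 0xc00400040009750602)))) 
(.lf (nat_lit 671253566) (dlOf (nat_lit 1) (nat_lit 0x800200020008142882)))) (.nd (nat_lit 8) 
(.lf (nat_lit 1744997054) (dlOf (nat_lit 1) (nat_lit 0x20008095781))) 
(.lf (nat_lit 169918) (dlOf (nat_lit 1) (nat_lit 0x40040006000800a602))))) (.nd (nat_lit 29) 
(.nd (nat_lit 8) (.nd (nat_lit 21) 
(.lf (nat_lit 3288498238) (dlOf (nat_lit 1) (nat_lit 0x8000200060008030d82))) 
(.lf (nat_lit 69369918) (dlOf (nat_lit 1) (nat_lit 0x20028940601)))) 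
(.lf (nat_lit 4362240318) (dlOf (nat_lit 1) (nat_lit 0x1c0008014c01)))) (.nd (nat_lit 7) 
(.nd (nat_lit 9) (.lf (nat_lit 2752675902) (dlOf (nat_lit 2) (nat_lit 0xc0b200032018030d80))) 
(.lf (nat_lit 2751633982) (dlOf (nat_lit 4) (nat_lit 0x6084400384200007704000a2110003881000910880000008002000800140020004000800b483)))) 
(.lf (nat_lit 2885845182) (dlOf (nat_lit 1) (nat_lit 0x200280b0401)))))) (.nd (nat_lit 7) 
(.nd (nat_lit 20) (.nd (nat_lit 22) (.nd (nat_lit 26) 
(.lf (nat_lit 537559102) (dlOf (nat_lit 7) (nat_lit 0x19404b0000e01011601800006c0803e817000d00b2017c04b00d1018002f00900003414016c0960000b02005404b0000501000f0258000240801d800800f8002000c00080a0c83))) 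
(.lf (nat_lit 4362764350) (dlOf (nat_lit 1) (nat_lit 0x8002000800080f1682)))) 
(.lf (nat_lit 4882494) (dlOf (nat_lit 1) (nat_lit 0x4004000200082d0482)))) 
(.lf (nat_lit 54165566) (dlOf (nat_lit 1) (nat_lit 0x20029630601)))) (.nd (nat_lit 8) 
(.nd (nat_lit 20) 
(.lf (nat_lit 55215294) (dlOf (nat_lit 2) (nat_lit 0xd6098000000800180080010002000a00096d2c83))) 
(.lf (nat_lit 41583806) (dlOf (nat_lit 1) (nat_lit 0x80019242c81)))) 
(.lf (nat_lit 58362302) (dlOf (nat_lit 1) (nat_lit 0x200197e4e81)))))) (.nd (nat_lit 19) 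
(.nd (nat_lit 27) (.nd (nat_lit 20) (.nd (nat_lit 7) 
(.lf (nat_lit 4295393342) (dlOf (nat_lit 2) (nat_lit 0x1300b0002ec080010008000c002000e00081c0c03))) 
(.lf (nat_lit 21397694) (dlOf (nat_lit 2) (nat_lit 0x30284000320200020018a31a81)))) 
(.nd (nat_lit 21) (.lf (nat_lit 9863230) (dlOf (nat_lit 1) (nat_lit 0x6c00400460008580482))) 
(.lf (nat_lit 24543294) (dlOf (nat_lit 5) (nat_lit 0x1d61a00123020030b0d000910100045868004840800e2c3400240040034004003e0008ba0c02))))) 
(.nd (nat_lit 9) 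
(.lf (nat_lit 4429611070) (dlOf (nat_lit 2) (nat_lit 0x1300a8002e0080010008000c002000e00081c0c03))) 
(.nd (nat_lit 26) 
(.lf (nat_lit 134644286) (dlOf (nat_lit 2) (nat_lit 0x17405c000000200480018091081))) 
(.lf (nat_lit 201753150) (dlOf (nat_lit 2) (nat_lit 0x17405c000000200480018091081)))))) 
(.nd (nat_lit 7) (.nd (nat_lit 21) (.nd (nat_lit 22) 
(.lf (nat_lit 59670590) (dlOf (nat_lit 1) (nat_lit 0x800200020009820602))) 
(.lf (nat_lit 47087678) (dlOf (nat_lit 1) (nat_lit 0x9000193a0481)))) (.nd (nat_lit 9) 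
(.lf (nat_lit 61768766) (dlOf (nat_lit 1) (nat_lit 0x20019922881))) 
(.lf (nat_lit 2755559998) (dlOf (nat_lit 1) (nat_lit 0x4000281b1081))))) (.nd (nat_lit 8) 
(.nd (nat_lit 9) (.lf (nat_lit 31360190) (dlOf (nat_lit 1) (nat_lit 0x120028e92c81))) 
(.lf (nat_lit 19825342) (dlOf (nat_lit 1) (nat_lit 0x200289d1e81)))) 
(.lf (nat_lit 43942334) (dlOf (nat_lit 3) (nat_lit 0x29db40012ea0000365900001818004b2c800000040018004000200092a1082))))))) 
(.nd (nat_lit 7) (.nd (nat_lit 8) (.nd (nat_lit 24) (.nd (nat_lit 9) (.nd (nat_lit 10) 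
(.lf (nat_lit 2885845118) (dlOf (nat_lit 2) (nat_lit 0xc01c0009b8180b0080))) 
(.lf (nat_lit 1812106366) (dlOf (nat_lit 1) (nat_lit 0x20028146101)))) (.nd (nat_lit 10) 
(.lf (nat_lit 1744996990) (dlOf (nat_lit 1) (nat_lit 0x20028095481))) 
(.lf (nat_lit 8554110) (dlOf (nat_lit 1) (nat_lit 0x20028513981))))) (.nd (nat_lit 18) 
(.nd (nat_lit 19) (.lf (nat_lit 28475518) (dlOf (nat_lit 1) (nat_lit 0x400200020008da0482))) 
(.lf (nat_lit 23756926) (dlOf (nat_lit 1) (nat_lit 0x110004005e0008b80082)))) 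
(.lf (nat_lit 21397630) (dlOf (nat_lit 1) (nat_lit 0x2340008a30d01))))) (.nd (nat_lit 12) 
(.nd (nat_lit 18) 
(.lf (nat_lit 6442615166) (dlOf (nat_lit 2) (nat_lit 0x24068004ad0200020028105a81))) 
(.nd (nat_lit 26) 
(.lf (nat_lit 3221651838) (dlOf (nat_lit 2) (nat_lit 0x7408c008640200080028170781))) 
(.lf (nat_lit 3959849342) (dlOf (nat_lit 3) (nat_lit 0x248118012408a00e8504007004600742018170780))))) 
(.nd (nat_lit 9) (.lf (nat_lit 170366) (dlOf (nat_lit 1) (nat_lit 0x2e001800af01))) 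
(.lf (nat_lit 3892483966) (dlOf (nat_lit 1) (nat_lit 0x2001815a301)))))) (.nd (nat_lit 26) 
(.nd (nat_lit 8) (.nd (nat_lit 9) (.nd (nat_lit 20) 
(.lf (nat_lit 2818736382) (dlOf (nat_lit 1) (nat_lit 0x10004000200080e2902))) 
(.lf (nat_lit 11698430) (dlOf (nat_lit 1) (nat_lit 0x1c004002600086c0482)))) 
(.lf (nat_lit 40536830) (dlOf (nat_lit 1) (nat_lit 0x4004000400091f5a82)))) (.nd (nat_lit 11) 
(.lf (nat_lit 9601534) (dlOf (nat_lit 3) (nat_lit 0xa3d7000174080011eb8000b804000c00400060018577e02))) 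
(.lf (nat_lit 47614462) (dlOf (nat_lit 1) (nat_lit 0x20009404f81))))) (.nd (nat_lit 18) 
(.nd (nat_lit 8) (.lf (nat_lit 2214757118) (dlOf (nat_lit 1) (nat_lit 0x4004000200080a2102))) 
(.nd (nat_lit 19) 
(.lf (nat_lit 4362240510) (dlOf (nat_lit 5) (nat_lit 0x5e04100da01880178088006c0340006808013e0310003301002b02b001201240360062005602b002b0110001082804a00c40007e04005c004000c0008017e02))) 
(.lf (nat_lit 2753200638) (dlOf (nat_lit 1) (nat_lit 0x400400020008090d82))))) (.nd (nat_lit 19) 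
(.nd (nat_lit 29) (.lf (nat_lit 201753086) (dlOf (nat_lit 2) (nat_lit 0x20031000a1818090d80))) 
(.lf (nat_lit 2886107646) (dlOf (nat_lit 3) (nat_lit 0x700000005c0401980000002d02002a0028157e01)))) 
(.lf (nat_lit 2752414206) (dlOf (nat_lit 22) (nat_lit 0x1a02480001b8100671240000d808146892000e848c0002e0404fa248000168101781240000b00813b0920000520407c04900002702043a248000130101de12400009408002893007f43f000ce159002e0ab800184e8000461408d03f0000a15f00a10ac8028855c000441000dc2ae0002102001424c01f90fc000c8788018c2b2001013a0029000000078300fc07e001683c400dc159003c0000000702012a87e001802b20001b0400062490000a810085124000020080ec8920000080402b0490000030200f6248000010100b812400000008037000806b400200200008017e03)))))))) 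
(.nd (nat_lit 26) (.nd (nat_lit 31) (.nd (nat_lit 27) (.nd (nat_lit 8) (.nd (nat_lit 7) 
(.nd (nat_lit 9) (.lf (nat_lit 1880784958) (dlOf (nat_lit 2) (nat_lit 0x2c0dd00124818b90600))) 
(.lf (nat_lit 1342341694) (dlOf (nat_lit 1) (nat_lit 0x20028018201)))) 
(.lf (nat_lit 805473982) (dlOf (nat_lit 2) (nat_lit 0x300000001404000c00200040008117282)))) 
(.nd (nat_lit 6) (.nd (nat_lit 7) 
(.lf (nat_lit 1881571646) (dlOf (nat_lit 1) (nat_lit 0x20028f60b81))) 
(.lf (nat_lit 1346273726) (dlOf (nat_lit 8) (nat_lit 0xe0060000b8100070030000580800380180001c04001400c0000c02001e0fb0007003000580040000c0c002c1f600100060000202000c07d800400180000008001000200040008e81082)))) 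
(.lf (nat_lit 805473662) (dlOf (nat_lit 1) (nat_lit 0x20018116c01))))) (.nd (nat_lit 30) 
(.nd (nat_lit 10) (.nd (nat_lit 6) 
(.lf (nat_lit 5234655422) (dlOf (nat_lit 2) (nat_lit 0x110158000cc080088008004800200200008071a83))) 
(.lf (nat_lit 939690110) (dlOf (nat_lit 2) (nat_lit 0x5c03a0002a0200040028144781)))) 
(.nd (nat_lit 32) (.lf (nat_lit 402818110) (dlOf (nat_lit 1) (nat_lit 0x20008092881))) 
(.lf (nat_lit 4697785406) (dlOf (nat_lit 1) (nat_lit 0x400400020018092882))))) (.nd (nat_lit 6) 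
(.nd (nat_lit 7) (.lf (nat_lit 1476558910) (dlOf (nat_lit 1) (nat_lit 0x40018050481))) 
(.lf (nat_lit 5773361342) (dlOf (nat_lit 1) (nat_lit 0x4002000200080c1702)))) 
(.lf (nat_lit 5773361278) (dlOf (nat_lit 1) (nat_lit 0x2400180c0d01)))))) (.nd (nat_lit 6) 
(.nd (nat_lit 20) (.nd (nat_lit 8) (.nd (nat_lit 11) 
(.lf (nat_lit 4026695742) (dlOf (nat_lit 1) (nat_lit 0x8000200060008030d82))) 
(.lf (nat_lit 2550569022) (dlOf (nat_lit 1) (nat_lit 0x7a00280fa681)))) 
(.lf (nat_lit 2416083262) (dlOf (nat_lit 1) (nat_lit 0x400400020008048502)))) (.nd (nat_lit 9) 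
(.nd (nat_lit 11) (.lf (nat_lit 3490873406) (dlOf (nat_lit 2) (nat_lit 0xc0c000030818030d80))) 
(.lf (nat_lit 3492976702) (dlOf (nat_lit 1) (nat_lit 0xa4004006600080fa682)))) 
(.lf (nat_lit 3493757502) (dlOf (nat_lit 1) (nat_lit 0x4000281b1081))))) (.nd (nat_lit 10) 
(.nd (nat_lit 11) 
(.lf (nat_lit 3491922046) (dlOf (nat_lit 6) (nat_lit 0x54382001fd0200041c2000f40100280e200057c0800b8710002bc0400843880015c0200080018090081))) 
(.lf (nat_lit 3492972670) (dlOf (nat_lit 1) (nat_lit 0x200180f4781)))) (.nd (nat_lit 7) 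
(.lf (nat_lit 3490352254) (dlOf (nat_lit 1) (nat_lit 0x20028006101))) 
(.lf (nat_lit 2550564862) (dlOf (nat_lit 1) (nat_lit 0xe00080f4701))))))) (.nd (nat_lit 29) 
(.nd (nat_lit 6) (.nd (nat_lit 19) (.nd (nat_lit 8) (.nd (nat_lit 27) 
(.lf (nat_lit 4630675518) (dlOf (nat_lit 1) (nat_lit 0x40008051681))) 
(.lf (nat_lit 4764893246) (dlOf (nat_lit 1) (nat_lit 0x40008051681)))) 
(.lf (nat_lit 1409453374) (dlOf (nat_lit 1) (nat_lit 0x400200020008006902)))) (.nd (nat_lit 18) 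
(.lf (nat_lit 1409974334) (dlOf (nat_lit 7) (nat_lit 0x19404b0001a0101160180000cc0803e817000d00b2017c04b00d1018002f00900006414016c0960002302005404b0001101000f0258000840801d800800f8002000c00080a0c83))) 
(.lf (nat_lit 473858110) (dlOf (nat_lit 2) (nat_lit 0x2d82c004a214d00e406c80840360032413800c808d00123868fc0600))))) 
(.nd (nat_lit 7) (.nd (nat_lit 9) (.nd (nat_lit 22) 
(.lf (nat_lit 5838635390) (dlOf (nat_lit 2) (nat_lit 0x2406800a420200020028105a81))) 
(.lf (nat_lit 474120574) (dlOf (nat_lit 1) (nat_lit 0xa600090e1001)))) 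
(.lf (nat_lit 2617414526) (dlOf (nat_lit 1) (nat_lit 0xa00280a9001)))) 
(.lf (nat_lit 469926398) (dlOf (nat_lit 2) (nat_lit 0x511b800108080008008001400200040008017e03))))) 
(.nd (nat_lit 32) (.nd (nat_lit 7) (.nd (nat_lit 8) (.nd (nat_lit 9) 
(.lf (nat_lit 4228546622) (dlOf (nat_lit 3) (nat_lit 0x2a01900013c0805b80c80009c04012c004001800080f1402))) 
(.lf (nat_lit 4228022846) (dlOf (nat_lit 2) (nat_lit 0x8403200219818018200)))) 
(.lf (nat_lit 4228022590) (dlOf (nat_lit 1) (nat_lit 0x1c0008014c01)))) 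
(.lf (nat_lit 2080538814) (dlOf (nat_lit 1) (nat_lit 0x400200020008090782)))) (.nd (nat_lit 6) 
(.nd (nat_lit 7) (.nd (nat_lit 8) 
(.lf (nat_lit 5301765182) (dlOf (nat_lit 1) (nat_lit 0x4000400200008092882))) 
(.lf (nat_lit 6241291070) (dlOf (nat_lit 1) (nat_lit 0x200280d5c01)))) 
(.lf (nat_lit 6378127806) (dlOf (nat_lit 2) (nat_lit 0xd01d000868080068008005000200020008117003)))) 
(.nd (nat_lit 7) 
(.lf (nat_lit 6377866366) (dlOf (nat_lit 2) (nat_lit 0x50140000980801380080064002000800080e2a83))) 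
(.lf (nat_lit 6375769342) (dlOf (nat_lit 1) (nat_lit 0x1000400040008002f02))))))))) 
(.nd (nat_lit 26) (.nd (nat_lit 6) (.nd (nat_lit 22) (.nd (nat_lit 28) (.nd (nat_lit 19) 
(.nd (nat_lit 7) (.nd (nat_lit 10) (.nd (nat_lit 12) 
(.lf (nat_lit 134447166) (dlOf (nat_lit 1) (nat_lit 0x4800800a800200320008020703))) 
(.lf (nat_lit 2818805822) (dlOf (nat_lit 1) (nat_lit 0x20018127d01)))) 
(.lf (nat_lit 4832068670) (dlOf (nat_lit 1) (nat_lit 0x8004000200080d2882)))) 
(.lf (nat_lit 1745062590) (dlOf (nat_lit 1) (nat_lit 0x400200020008095782)))) (.nd (nat_lit 8) 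
(.lf (nat_lit 12550206) (dlOf (nat_lit 2) (nat_lit 0x100000000b02000a00086d0c81))) 
(.nd (nat_lit 20) 
(.lf (nat_lit 1611366718) (dlOf (nat_lit 1) (nat_lit 0x38008002000200080008167d03))) 
(.lf (nat_lit 54231358) (dlOf (nat_lit 1) (nat_lit 0x30008001c002000e0009650b83)))))) 
(.nd (nat_lit 30) (.nd (nat_lit 27) (.nd (nat_lit 8) 
(.lf (nat_lit 6711115838) (dlOf (nat_lit 1) (nat_lit 0x240018090001))) 
(.lf (nat_lit 5100505918) (dlOf (nat_lit 1) (nat_lit 0x8c00180d5c01)))) (.nd (nat_lit 10) 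
(.lf (nat_lit 939753534) (dlOf (nat_lit 3) (nat_lit 0x510130028008c01a804400ac021001500f00240074010c02200900070000a08000f0110000480804c8008006400200040008160703))) 
(.lf (nat_lit 5234721854) (dlOf (nat_lit 1) (nat_lit 0x200080d2881))))) (.nd (nat_lit 20) 
(.nd (nat_lit 8) 
(.lf (nat_lit 1342406718) (dlOf (nat_lit 3) (nat_lit 0x781e40000d0101b20e3805086f40002608000400400120018020702))) 
(.lf (nat_lit 3489897790) (dlOf (nat_lit 3) (nat_lit 0x481fc002a0fd801a081001807e8009d20400280040032000800c902)))) 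
(.nd (nat_lit 18) 
(.lf (nat_lit 3490938942) (dlOf (nat_lit 7) (nat_lit 0x2782d4000d404013816a0006902002e0c00020059001d0280000c20c00141400005b0200b00b50001101002405a8000000802d80080028002008e0008030d83))) 
(.lf (nat_lit 3493298238) (dlOf (nat_lit 5) (nat_lit 0x1e01f0000e010035035000a01a400b80ca005a05b003b025000e011000ac07a005603a002e01c001000900068040003001f001600d0015800401b40000001b1e0026024000d010000050100010110000000401c800200d00008110702))))))) 
(.nd (nat_lit 18) (.nd (nat_lit 19) (.nd (nat_lit 20) (.nd (nat_lit 23) 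
(.lf (nat_lit 37978174) (dlOf (nat_lit 1) (nat_lit 0x8004000600090f0602))) 
(.lf (nat_lit 12812350) (dlOf (nat_lit 1) (nat_lit 0x280080014002000200086e0c03)))) 
(.lf (nat_lit 24346686) (dlOf (nat_lit 1) (nat_lit 0x60018b90c81)))) 
(.lf (nat_lit 4948030) (dlOf (nat_lit 1) (nat_lit 0x8004000600082d0482)))) (.nd (nat_lit 20) 
(.nd (nat_lit 19) 
(.lf (nat_lit 48726078) (dlOf (nat_lit 2) (nat_lit 0x3b9e00055cbc0047808001800400180009420602))) 
(.lf (nat_lit 21987390) (dlOf (nat_lit 5) (nat_lit 0x18d83002e00000011810004360c003000000045040016000000218100116c1800c0000000840800cc00200320008a80d82)))) 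
(.nd (nat_lit 10) 
(.lf (nat_lit 25133118) (dlOf (nat_lit 2) (nat_lit 0x66bb001634a4024997e00f4c820023614000138280008008000c00200060008be1403))) 
(.lf (nat_lit 50299966) (dlOf (nat_lit 1) (nat_lit 0x1400194c2881))))))) (.nd (nat_lit 19) 
(.nd (nat_lit 8) (.nd (nat_lit 7) 
(.lf (nat_lit 134709374) (dlOf (nat_lit 5) (nat_lit 0x840820015f020002043000a0208005781000c0104003007a0015c04005c043003e01f8003804c002700c008c00400060018090082))) 
(.nd (nat_lit 9) (.lf (nat_lit 3490155774) (dlOf (nat_lit 1) (nat_lit 0x4c0018006601))) 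
(.lf (nat_lit 50563838) (dlOf (nat_lit 1) (nat_lit 0x4004000200094c5a82))))) (.nd (nat_lit 20) 
(.nd (nat_lit 27) (.lf (nat_lit 4026761726) (dlOf (nat_lit 1) (nat_lit 0x400400020008090d82))) 
(.nd (nat_lit 28) (.lf (nat_lit 671318526) (dlOf (nat_lit 1) (nat_lit 0x60008157e01))) 
(.lf (nat_lit 3087237630) (dlOf (nat_lit 24) (nat_lit 0x7e0058000dc0803a002c0006c0400e40000003102023e00b00c8004806380000005c0c047c016017e00900c00000000b41803f802c000580403d80160052000000148200ca00580009c0805b002c0004c0401c8016000250200720000000a81003900000005008038802c0002004001c0160000d02016e00b00390000000301005b802c00e40000000b04009a00b0000401003900580001c08043002c0000c04029c0160000402016400b002d00000000c1001a800000004040004016000000200220018157e01))))) 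
(.nd (nat_lit 7) (.lf (nat_lit 1278334) (dlOf (nat_lit 1) (nat_lit 0x2400280a5a81))) 
(.lf (nat_lit 9667070) (dlOf (nat_lit 2) (nat_lit 0xba7fc00017018577e00)))))) (.nd (nat_lit 7) 
(.nd (nat_lit 18) (.nd (nat_lit 8) 
(.lf (nat_lit 134973566) (dlOf (nat_lit 1) (nat_lit 0x200280f4781))) 
(.lf (nat_lit 754046) (dlOf (nat_lit 1) (nat_lit 0xb8008009c00200260008015a83)))) (.nd (nat_lit 20) 
(.lf (nat_lit 24084606) (dlOf (nat_lit 2) (nat_lit 0xe0ec002b8040004002000e0008b80082))) 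
(.lf (nat_lit 16744574) (dlOf (nat_lit 1) (nat_lit 0x80080004002000200088e0483))))) 
(.nd (nat_lit 9) (.nd (nat_lit 8) 
(.lf (nat_lit 8361214) (dlOf (nat_lit 1) (nat_lit 0xa0028519581))) 
(.lf (nat_lit 754174) (dlOf (nat_lit 1) (nat_lit 0x800400080018017e02)))) (.nd (nat_lit 10) 
(.lf (nat_lit 36406270) (dlOf (nat_lit 1) (nat_lit 0x20019072881))) 
(.lf (nat_lit 8357886) (dlOf (nat_lit 1) (nat_lit 0x800200020008514702)))))))) (.nd (nat_lit 8) 
(.nd (nat_lit 28) (.nd (nat_lit 27) (.nd (nat_lit 18) (.nd (nat_lit 7) 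
(.lf (nat_lit 2752741438) (dlOf (nat_lit 7) (nat_lit 0x100388005c16400740a00003203004f072800184080270394000c00400141400005b0200b00e5000110100240728000000802d80080028002008e0008030d83))) 
(.lf (nat_lit 4899179198) (dlOf (nat_lit 1) (nat_lit 0x4004000200080d5782)))) (.nd (nat_lit 6) 
(.lf (nat_lit 2755100734) (dlOf (nat_lit 5) (nat_lit 0x1e01f0000d810035035000a01a400b80ca005a05b003b025000e011000ac07a005603a002e01c001000900068040003001f001600d0015800401b40000001a1e0026024000d01000004c100010110000000401c800200d00008110702))) 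
(.lf (nat_lit 4362567806) (dlOf (nat_lit 1) (nat_lit 0x60018090081))))) (.nd (nat_lit 29) 
(.nd (nat_lit 6) 
(.lf (nat_lit 201556030) (dlOf (nat_lit 1) (nat_lit 0x4800800a800200320008020703))) 
(.lf (nat_lit 201818238) (dlOf (nat_lit 5) (nat_lit 0x8408200155020002043000a0208005501000c0104003007a0015204005c043003e01f8003804c002700c008c00400060018090082)))) 
(.nd (nat_lit 10) 
(.lf (nat_lit 1812168766) (dlOf (nat_lit 3) (nat_lit 0xf01100005c080288098014004600d40220056010800a8078012003a0086011004800380004c4004c8008006400200040008160703))) 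
(.lf (nat_lit 3959653438) (dlOf (nat_lit 1) (nat_lit 0x8008001400200040008112883)))))) 
(.nd (nat_lit 6) (.nd (nat_lit 10) (.nd (nat_lit 18) (.nd (nat_lit 30) 
(.lf (nat_lit 469991486) (dlOf (nat_lit 3) (nat_lit 0x781e40000d8101b20e3805086f40002808000400400120018020702))) 
(.lf (nat_lit 3691216958) (dlOf (nat_lit 2) (nat_lit 0xb00300054f02002600080a0901)))) 
(.lf (nat_lit 473923646) (dlOf (nat_lit 8) (nat_lit 0x9202c006980d9021204e014f823400492100b282c000a80d9005604e003f02340049010172c2c0004c14d05cd06c8041036018041380c0808d0175046006d01f00048e2009202c000ec09c00b6046800914180120580003f80406dc2c0001f3020168160032a06c810a0234003e00c0da800414ac0008fc0602)))) 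
(.lf (nat_lit 5167612990) (dlOf (nat_lit 1) (nat_lit 0x1a00180d2881)))) (.nd (nat_lit 7) 
(.nd (nat_lit 11) (.lf (nat_lit 4228350078) (dlOf (nat_lit 1) (nat_lit 0x60018090081))) 
(.lf (nat_lit 1946650750) (dlOf (nat_lit 1) (nat_lit 0x200280f4781)))) (.nd (nat_lit 10) 
(.lf (nat_lit 2617475326) (dlOf (nat_lit 1) (nat_lit 0x7c002000c00080b4602))) 
(.lf (nat_lit 5167613182) (dlOf (nat_lit 1) (nat_lit 0x180080068002000800080d2f03))))))) 
(.nd (nat_lit 6) (.nd (nat_lit 18) (.nd (nat_lit 9) (.nd (nat_lit 19) 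
(.lf (nat_lit 1008959806) (dlOf (nat_lit 8) (nat_lit 0x280c80003d0200160640001a0100040320000a80800481900004004001c0c80000c02001006400004810007032000000080028008002000200060009000b83))) 
(.lf (nat_lit 473661758) (dlOf (nat_lit 1) (nat_lit 0x800200320008f97d02)))) (.nd (nat_lit 7) 
(.lf (nat_lit 4899179326) (dlOf (nat_lit 2) (nat_lit 0x2032000470180d5c00))) 
(.lf (nat_lit 4899179454) (dlOf (nat_lit 1) (nat_lit 0x8004000200080d5d02))))) (.nd (nat_lit 7) 
(.nd (nat_lit 10) 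
(.lf (nat_lit 2886172990) (dlOf (nat_lit 5) (nat_lit 0x10068000a204001c078001a0000002702000a01f0001340800280f80008a040028002006c0008188502))) 
(.lf (nat_lit 604472638) (dlOf (nat_lit 3) (nat_lit 0x580a4002c03e0001404000a029000500f8000101000080080024002000200082d3283)))) 
(.nd (nat_lit 11) (.lf (nat_lit 872907198) (dlOf (nat_lit 1) (nat_lit 0x200280f7a81))) 
(.lf (nat_lit 473401790) (dlOf (nat_lit 1) (nat_lit 0x400400020008f54e82)))))) (.nd (nat_lit 27) 
(.nd (nat_lit 30) (.nd (nat_lit 9) 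
(.lf (nat_lit 2752479742) (dlOf (nat_lit 10) (nat_lit 0x8c24c040812401630918003c48804d824102c8118815f80000005c1c0dec49003be24602150000000b41816d87e003d02b20184157000118302f10fc0087056402a82ae00022060188157000108103410fc00ac056404f02ae0001e06058a1f800e60ac8017855c000380c0a843f000b61590000d8200710fc000068081370008086800208220008017e03))) 
(.lf (nat_lit 2751693822) (dlOf (nat_lit 1) (nat_lit 0x20008002881)))) (.nd (nat_lit 29) 
(.lf (nat_lit 3288564222) (dlOf (nat_lit 1) (nat_lit 0x20018090d81))) 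
(.lf (nat_lit 1677951486) (dlOf (nat_lit 3) (nat_lit 0x1980000008404018c0000003f0200020018127e01))))) 
(.nd (nat_lit 7) (.lf (nat_lit 6376360318) (dlOf (nat_lit 1) (nat_lit 0x20008094e81))) 
(.nd (nat_lit 9) (.lf (nat_lit 1543733758) (dlOf (nat_lit 1) (nat_lit 0x80028157801))) 
(.lf (nat_lit 738429950) (dlOf (nat_lit 1) (nat_lit 0xf00080010002000e0008095f03)))))))))) 
(.nd (nat_lit 16) (.nd (nat_lit 7) (.nd (nat_lit 30) (.nd (nat_lit 21) (.nd (nat_lit 26) 
(.nd (nat_lit 23) (.nd (nat_lit 8) (.nd (nat_lit 9) 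
(.lf (nat_lit 4890686) (dlOf (nat_lit 1) (nat_lit 0x8002000400082d0482))) 
(.lf (nat_lit 537305662) (dlOf (nat_lit 1) (nat_lit 0x1400400200008091082)))) (.nd (nat_lit 6) 
(.lf (nat_lit 805481790) (dlOf (nat_lit 1) (nat_lit 0x8008000800200080008116903))) 
(.lf (nat_lit 805485950) (dlOf (nat_lit 5) (nat_lit 0x805300020098017b810001815800040a60004013002f683000802b0006814c0034026005ec060008056000c0298005004c00bd20c008c0040006001811c902))))) 
(.nd (nat_lit 20) (.nd (nat_lit 24) 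
(.lf (nat_lit 12755006) (dlOf (nat_lit 1) (nat_lit 0x4004000200086e0c02))) 
(.lf (nat_lit 29532222) (dlOf (nat_lit 1) (nat_lit 0x2a0008e10a01)))) (.nd (nat_lit 18) 
(.lf (nat_lit 10133566) (dlOf (nat_lit 1) (nat_lit 0x200085b0701))) 
(.lf (nat_lit 26648638) (dlOf (nat_lit 1) (nat_lit 0x400200020008c50482)))))) (.nd (nat_lit 8) 
(.nd (nat_lit 9) (.nd (nat_lit 18) 
(.lf (nat_lit 4899119166) (dlOf (nat_lit 1) (nat_lit 0x20028080481))) 
(.lf (nat_lit 6509994046) (dlOf (nat_lit 1) (nat_lit 0x20008180901)))) 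
(.lf (nat_lit 2751642174) (dlOf (nat_lit 4) (nat_lit 0x1108440070420000770400202110003881001c10880000008001800800180020008000800b483)))) 
(.nd (nat_lit 6) 
(.lf (nat_lit 4362248510) (dlOf (nat_lit 25) (nat_lit 0x140460054e01002602380291c08033011c013b004019808e000402d004e1020066023800100b40137a08019808e009b30200cc047004d68100660238026a808033811c0135204019808e009a70200cc047004d201006302380268c08033011c0134204019808e0099f0200cc047004cf01006602380267408033011c013340400a808e009990200cc047004c30100350238026140800e811c012e404019808e009710200cc047000408100440238000000800a00080124002004a0008014c03))) 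
(.lf (nat_lit 474128766) (dlOf (nat_lit 1) (nat_lit 0xc00090e1001)))))) (.nd (nat_lit 19) 
(.nd (nat_lit 18) (.nd (nat_lit 20) 
(.lf (nat_lit 52600894) (dlOf (nat_lit 1) (nat_lit 0x12000400880009550602))) 
(.lf (nat_lit 62038078) (dlOf (nat_lit 1) (nat_lit 0x400400020009940482)))) (.nd (nat_lit 9) 
(.nd (nat_lit 20) (.lf (nat_lit 2531390) (dlOf (nat_lit 1) (nat_lit 0x8004001a0018170c02))) 
(.lf (nat_lit 24551486) (dlOf (nat_lit 1) (nat_lit 0x14002002c0008ba0c02)))) 
(.lf (nat_lit 44476990) (dlOf (nat_lit 2) (nat_lit 0x467d00038819325200))))) (.nd (nat_lit 18) 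
(.nd (nat_lit 20) 
(.lf (nat_lit 472555582) (dlOf (nat_lit 2) (nat_lit 0x3e0580012c29a00a009c005b0468007c02001c00080080002002600089c0603))) 
(.lf (nat_lit 41590846) (dlOf (nat_lit 1) (nat_lit 0x800400020019240002)))) (.nd (nat_lit 9) 
(.nd (nat_lit 22) 
(.lf (nat_lit 473866302) (dlOf (nat_lit 2) (nat_lit 0x7214d012306c800a036003e40f8002470800020008fc0601))) 
(.lf (nat_lit 25075774) (dlOf (nat_lit 2) (nat_lit 0x13297600027018be1400)))) 
(.lf (nat_lit 8300094) (dlOf (nat_lit 3) (nat_lit 0x14ea40001a02005a8ed00009818513780))))))) 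
(.nd (nat_lit 28) (.nd (nat_lit 27) (.nd (nat_lit 6) (.nd (nat_lit 10) (.nd (nat_lit 11) 
(.lf (nat_lit 1073913918) (dlOf (nat_lit 1) (nat_lit 0x20028020701))) 
(.lf (nat_lit 1677899838) (dlOf (nat_lit 10) (nat_lit 0x602a8008a40800e804c0044804004c0260022302000a0550010a81000e02b0009014c00340260020a060028056001a0298008804c004120c004c0ac002c053001300980082018006015800480a6001a013001038300140298000000801e00080034002001e000811a683)))) 
(.lf (nat_lit 1677894718) (dlOf (nat_lit 4) (nat_lit 0x201440008096000403a00aef83000101d0057440800280e80258804007400400120008112882)))) 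
(.nd (nat_lit 10) (.lf (nat_lit 3221399934) (dlOf (nat_lit 1) (nat_lit 0x1400200020008114e82))) 
(.lf (nat_lit 3221400958) (dlOf (nat_lit 1) (nat_lit 0x60028116c01))))) (.nd (nat_lit 6) 
(.nd (nat_lit 12) (.nd (nat_lit 29) 
(.lf (nat_lit 5503098942) (dlOf (nat_lit 1) (nat_lit 0x400200060008070e02))) 
(.lf (nat_lit 6039969854) (dlOf (nat_lit 1) (nat_lit 0x20028080e81)))) 
(.lf (nat_lit 3892490302) (dlOf (nat_lit 2) (nat_lit 0x1023800094080128008004800200060008157d03)))) 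
(.nd (nat_lit 8) (.lf (nat_lit 1745005182) (dlOf (nat_lit 1) (nat_lit 0x20028095481))) 
(.lf (nat_lit 3892492158) (dlOf (nat_lit 1) (nat_lit 0x4001815a301)))))) (.nd (nat_lit 26) 
(.nd (nat_lit 6) (.nd (nat_lit 9) 
(.lf (nat_lit 2013439038) (dlOf (nat_lit 1) (nat_lit 0x20008092881))) 
(.lf (nat_lit 2013439550) (dlOf (nat_lit 2) (nat_lit 0x1c0480001a0200020028093781)))) 
(.nd (nat_lit 8) (.nd (nat_lit 21) 
(.lf (nat_lit 3624050814) (dlOf (nat_lit 2) (nat_lit 0xc01d0009b8180b0080))) 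
(.lf (nat_lit 3491930238) (dlOf (nat_lit 1) (nat_lit 0x20018090081)))) 
(.lf (nat_lit 5772321150) (dlOf (nat_lit 2) (nat_lit 0x66131000a9018091000))))) (.nd (nat_lit 27) 
(.nd (nat_lit 9) (.lf (nat_lit 1946329150) (dlOf (nat_lit 1) (nat_lit 0x20028020701))) 
(.lf (nat_lit 1409720894) (dlOf (nat_lit 1) (nat_lit 0x1400400200008091082)))) (.nd (nat_lit 8) 
(.lf (nat_lit 4228554814) (dlOf (nat_lit 2) (nat_lit 0x400c80009c04000c004000800080f1402))) 
(.lf (nat_lit 4228030782) (dlOf (nat_lit 25) (nat_lit 0x1403f002838100260200012c808033010000894040198080000402c00216820066020000100b000850080198080004190200ce0400020c0100660200010580803301000082a0401980800040f0200cc040002060100630200010240803301000080e040198080004060200cc0400020201006602000100c080330100008040400a8080003ff0200cc040001f7010035020000fac0800e8100007b0040198080003d70200cc0400005f8100440200000000800a00080124002004a0008014c03)))))))) 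
(.nd (nat_lit 6) (.nd (nat_lit 26) (.nd (nat_lit 18) (.nd (nat_lit 19) (.nd (nat_lit 9) 
(.lf (nat_lit 3624050878) (dlOf (nat_lit 1) (nat_lit 0x200280b0401))) 
(.lf (nat_lit 1745005246) (dlOf (nat_lit 1) (nat_lit 0x1800800c400200fa0008095783)))) 
(.nd (nat_lit 10) (.lf (nat_lit 3493503166) (dlOf (nat_lit 1) (nat_lit 0x400200020008155502))) 
(.lf (nat_lit 58369214) (dlOf (nat_lit 3) (nat_lit 0xa4d30000b01000626980004c080120008008400200ae00097e2c83))))) 
(.nd (nat_lit 8) (.nd (nat_lit 20) 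
(.lf (nat_lit 21405886) (dlOf (nat_lit 1) (nat_lit 0x400200020008a31a82))) 
(.lf (nat_lit 47620286) (dlOf (nat_lit 1) (nat_lit 0x20019400781)))) 
(.lf (nat_lit 43950526) (dlOf (nat_lit 1) (nat_lit 0x200292a1081))))) (.nd (nat_lit 9) 
(.nd (nat_lit 29) (.nd (nat_lit 10) 
(.lf (nat_lit 5704425662) (dlOf (nat_lit 2) (nat_lit 0xf800b00019018071a80))) 
(.lf (nat_lit 6509735102) (dlOf (nat_lit 2) (nat_lit 0xd013000000080008008001400200020008146303)))) 
(.nd (nat_lit 18) (.lf (nat_lit 2755305662) (dlOf (nat_lit 1) (nat_lit 0x400200020008155502))) 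
(.lf (nat_lit 738631870) (dlOf (nat_lit 1) (nat_lit 0x380080050002002800080c1a83))))) 
(.nd (nat_lit 8) (.nd (nat_lit 10) 
(.lf (nat_lit 1141025470) (dlOf (nat_lit 1) (nat_lit 0x400400020008095782))) 
(.lf (nat_lit 6509735614) (dlOf (nat_lit 1) (nat_lit 0x2000200080008147282)))) 
(.lf (nat_lit 1141025726) (dlOf (nat_lit 1) (nat_lit 0x800800b0002006a0008095d03)))))) 
(.nd (nat_lit 29) (.nd (nat_lit 26) (.nd (nat_lit 8) (.nd (nat_lit 9) 
(.lf (nat_lit 8566014) (dlOf (nat_lit 1) (nat_lit 0x258008005c00200d20008519583))) 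
(.nd (nat_lit 12) (.lf (nat_lit 2281874174) (dlOf (nat_lit 1) (nat_lit 0x4004000200080a2102))) 
(.lf (nat_lit 19837694) (dlOf (nat_lit 1) (nat_lit 0x4004000200089d8f82))))) (.nd (nat_lit 9) 
(.lf (nat_lit 20099582) (dlOf (nat_lit 2) (nat_lit 0x76100024d8189d8680))) 
(.lf (nat_lit 59943934) (dlOf (nat_lit 1) (nat_lit 0x20029845f01))))) (.nd (nat_lit 27) 
(.nd (nat_lit 8) (.lf (nat_lit 3556942078) (dlOf (nat_lit 1) (nat_lit 0x1000400020008102902))) 
(.nd (nat_lit 9) 
(.lf (nat_lit 4362248702) (dlOf (nat_lit 11) (nat_lit 0x4f815800b40a8023604900e0015807a8088000d01402580ac0094054013301580019c180420158002c0a801ca04900bd01580658088000cc1400440ac0006302004e056000308100a502b00080150046009201be02b00f60110001082803e81580464056000410400f805600dd024805980ac03240440003f0800360560001f01002c02b00008c082cd0008000800200560008017e03))) 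
(.lf (nat_lit 1141025790) (dlOf (nat_lit 1) (nat_lit 0x800400020008095f02))))) (.nd (nat_lit 28) 
(.lf (nat_lit 201499134) (dlOf (nat_lit 3) (nat_lit 0x3a80000003c04000c0000001c0200160008017e01))) 
(.lf (nat_lit 469934590) (dlOf (nat_lit 7) (nat_lit 0x30714000d004001439e0004702000c1cf0002301000a0e880010734001c38a0004206001a1c50001f8100060e78003872c0007a08008c00400160008017e02)))))) 
(.nd (nat_lit 30) (.nd (nat_lit 19) (.nd (nat_lit 26) 
(.lf (nat_lit 537305598) (dlOf (nat_lit 1) (nat_lit 0x8008000400200040008090d83))) 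
(.lf (nat_lit 2886115838) (dlOf (nat_lit 3) (nat_lit 0x8406e0002e02004e03700016818157e00)))) 
(.nd (nat_lit 18) 
(.lf (nat_lit 2753208830) (dlOf (nat_lit 1) (nat_lit 0x8008000400200020008090d83))) 
(.lf (nat_lit 2752422398) (dlOf (nat_lit 2) (nat_lit 0x80b20000a818017e00))))) (.nd (nat_lit 8) 
(.nd (nat_lit 9) (.lf (nat_lit 3758274814) (dlOf (nat_lit 1) (nat_lit 0x10002812a981))) 
(.nd (nat_lit 21) 
(.lf (nat_lit 4093815550) (dlOf (nat_lit 1) (nat_lit 0x38008001800200020008005a83))) 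
(.lf (nat_lit 6377614078) (dlOf (nat_lit 1) (nat_lit 0x1c004000200080e5a82))))) (.nd (nat_lit 9) 
(.lf (nat_lit 5972861438) (dlOf (nat_lit 1) (nat_lit 0x40028157e01))) 
(.lf (nat_lit 3959596030) (dlOf (nat_lit 1) (nat_lit 0x4400400040018112882))))))))) 
(.nd (nat_lit 21) (.nd (nat_lit 26) (.nd (nat_lit 29) (.nd (nat_lit 23) (.nd (nat_lit 30) 
(.nd (nat_lit 18) (.nd (nat_lit 27) 
(.lf (nat_lit 4563640382) (dlOf (nat_lit 1) (nat_lit 0x980080014002002200080b0483))) 
(.lf (nat_lit 4697858110) (dlOf (nat_lit 1) (nat_lit 0x980080014002002200080b0483)))) 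
(.lf (nat_lit 21995582) (dlOf (nat_lit 2) (nat_lit 0x2026800118080070008000400200560008a80d83)))) 
(.nd (nat_lit 7) (.nd (nat_lit 19) 
(.lf (nat_lit 1342414910) (dlOf (nat_lit 6) (nat_lit 0x230000000380400084920072248001f11e800187bc005c3dc00101e9001e0ef800f0768007438c00a8102001d00000006c580cb093005584920364248001e11f00d788f406b046602342310027116800a88ac02043de03601ee002e0f480d8077c06c43b403601d500270e38081871801f837800b41b6016608100d200000003454000837a000150203e2249018d124001b08fc060847a0290231019b115807e87c006483d202741c700e20de80004c5001a800801a000201e20008020703))) 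
(.lf (nat_lit 5773172798) (dlOf (nat_lit 1) (nat_lit 0x4004000200180b0482)))) 
(.lf (nat_lit 1346611646) (dlOf (nat_lit 1) (nat_lit 0x6e0018fe4e81))))) (.nd (nat_lit 6) 
(.nd (nat_lit 19) (.lf (nat_lit 12820542) (dlOf (nat_lit 1) (nat_lit 0x1c002000200086e0c02))) 
(.lf (nat_lit 59482174) (dlOf (nat_lit 3) (nat_lit 0x2133e801199f0008cccc004666500232ca0002964c00889cc00464d4000aa08000526a000000080060008000800200080009800603)))) 
(.nd (nat_lit 7) (.lf (nat_lit 42967422) (dlOf (nat_lit 1) (nat_lit 0x9600292a1001))) 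
(.nd (nat_lit 10) (.lf (nat_lit 9675262) (dlOf (nat_lit 2) (nat_lit 0x208e000017018577e00))) 
(.lf (nat_lit 43230718) (dlOf (nat_lit 1) (nat_lit 0x1000292a3681))))))) (.nd (nat_lit 7) 
(.nd (nat_lit 6) (.nd (nat_lit 10) (.nd (nat_lit 31) 
(.lf (nat_lit 5234729022) (dlOf (nat_lit 1) (nat_lit 0x400280d0001))) 
(.lf (nat_lit 3087245374) (dlOf (nat_lit 1) (nat_lit 0xc00400040008160702)))) (.nd (nat_lit 9) 
(.lf (nat_lit 6174254142) (dlOf (nat_lit 1) (nat_lit 0x4004000200080d2882))) 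
(.lf (nat_lit 5234730558) (dlOf (nat_lit 2) (nat_lit 0x805400046040060004000c00080d3782))))) 
(.nd (nat_lit 9) (.lf (nat_lit 805544318) (dlOf (nat_lit 1) (nat_lit 0x480008125a81))) 
(.lf (nat_lit 6308473726) (dlOf (nat_lit 1) (nat_lit 0x800280d5c01))))) (.nd (nat_lit 27) 
(.nd (nat_lit 6) (.lf (nat_lit 6174254526) (dlOf (nat_lit 1) (nat_lit 0xe00180d3601))) 
(.nd (nat_lit 8) 
(.lf (nat_lit 3758334206) (dlOf (nat_lit 1) (nat_lit 0x30008009c00200160008130703))) 
(.lf (nat_lit 4026769918) (dlOf (nat_lit 3) (nat_lit 0x4016000ed02006c00b0006e818090d80))))) 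
(.nd (nat_lit 8) (.lf (nat_lit 6308473534) (dlOf (nat_lit 1) (nat_lit 0x4004000200080d5782))) 
(.nd (nat_lit 9) 
(.lf (nat_lit 1745330622) (dlOf (nat_lit 4) (nat_lit 0x2010c00180000021a0400020450010a8100050000006ec0803180080084002002c0008117003))) 
(.lf (nat_lit 6308473790) (dlOf (nat_lit 1) (nat_lit 0x4004000200080d5d02)))))))) (.nd (nat_lit 29) 
(.nd (nat_lit 32) (.nd (nat_lit 7) (.nd (nat_lit 18) 
(.lf (nat_lit 469999678) (dlOf (nat_lit 6) (nat_lit 0x2300000003a0400084920072248001f11e800187bc005c3dc00101e9001e0ef800f0768007438c00a8102001d000000070580cb093005584920364248001e11f00d788f406b046602342310027116800a88ac02043de03601ee002e0f480d8077c06c43b403601d500270e38081871801f837800b41b6016608100d200000003654000837a000160203e2249018d124001b08fc060847a0290231019b115807e87c006483d202741c700e20de8000505001a800801a000201e20008020703))) 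
(.lf (nat_lit 69181502) (dlOf (nat_lit 1) (nat_lit 0x200288c0601)))) (.nd (nat_lit 6) 
(.nd (nat_lit 10) (.lf (nat_lit 1141088446) (dlOf (nat_lit 1) (nat_lit 0x400180c1a81))) 
(.lf (nat_lit 68920510) (dlOf (nat_lit 1) (nat_lit 0x20008000c00200020008842c83)))) 
(.lf (nat_lit 67871486) (dlOf (nat_lit 1) (nat_lit 0x400400020008332102))))) (.nd (nat_lit 9) 
(.nd (nat_lit 10) (.lf (nat_lit 4362575934) (dlOf (nat_lit 1) (nat_lit 0xc0028090001))) 
(.lf (nat_lit 5704492094) (dlOf (nat_lit 1) (nat_lit 0x4004000200080d2882)))) (.nd (nat_lit 6) 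
(.lf (nat_lit 5570276158) (dlOf (nat_lit 1) (nat_lit 0x7a00180d5c01))) 
(.lf (nat_lit 4630751870) (dlOf (nat_lit 1) (nat_lit 0xc00400020008095482)))))) (.nd (nat_lit 6) 
(.nd (nat_lit 8) (.nd (nat_lit 11) (.nd (nat_lit 19) 
(.lf (nat_lit 3825442878) (dlOf (nat_lit 1) (nat_lit 0xc00400040008160702))) 
(.lf (nat_lit 6377152574) (dlOf (nat_lit 1) (nat_lit 0x4004000200180b0482)))) 
(.lf (nat_lit 3959666750) (dlOf (nat_lit 1) (nat_lit 0xb0000811a681)))) (.nd (nat_lit 10) 
(.nd (nat_lit 11) 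
(.lf (nat_lit 2752749886) (dlOf (nat_lit 3) (nat_lit 0x50178000e40800300bc0000e04001000200020008048502))) 
(.lf (nat_lit 2751703358) (dlOf (nat_lit 2) (nat_lit 0x403c800024080018008000800200020008004c83)))) 
(.lf (nat_lit 604480830) (dlOf (nat_lit 3) (nat_lit 0x480a4003003e00014040008029000700f8000101001b8008006c002001000082d3283))))) 
(.nd (nat_lit 7) (.nd (nat_lit 8) 
(.lf (nat_lit 4899187326) (dlOf (nat_lit 1) (nat_lit 0x4004000200180d5482))) 
(.lf (nat_lit 1677959550) (dlOf (nat_lit 1) (nat_lit 0x480008125a81)))) (.nd (nat_lit 9) 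
(.nd (nat_lit 18) 
(.lf (nat_lit 1677959678) (dlOf (nat_lit 7) (nat_lit 0x60084001a022006c0070006803000cc000000680a007a00e000b00000019c10022803800cc0000006604002a042000c011002d003800f40000004208006800e00020810040007000600000007e08002c00200260008127e02))) 
(.lf (nat_lit 2752487934) (dlOf (nat_lit 3) (nat_lit 0x4002c80002e0400b0164000150200020028017e01)))) 
(.lf (nat_lit 738438142) (dlOf (nat_lit 4) (nat_lit 0x100b40004002000e05a0001f81000102d0000f8080018008001800200080008095f03)))))))) 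
(.nd (nat_lit 19) (.nd (nat_lit 20) (.nd (nat_lit 25) (.nd (nat_lit 18) (.nd (nat_lit 6) 
(.lf (nat_lit 1008967998) (dlOf (nat_lit 10) (nat_lit 0x980320000fc0804a01900007a0402600c8000360201320640001a0100970320000a80804b8190000400402540c80000c02012a06400004810095032000101580000008002c00400060009000b82))) 
(.lf (nat_lit 1008967806) (dlOf (nat_lit 1) (nat_lit 0x400200020009000282)))) (.nd (nat_lit 26) 
(.lf (nat_lit 2596926) (dlOf (nat_lit 3) (nat_lit 0x1d220005e76c00260080013488000fa400003d1d0001e76c0025e100034004000a0008170c02))) 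
(.lf (nat_lit 1009229886) (dlOf (nat_lit 2) (nat_lit 0x301d4000d40400c0004001800090a0602))))) 
(.nd (nat_lit 6) (.nd (nat_lit 10) 
(.lf (nat_lit 48734270) (dlOf (nat_lit 1) (nat_lit 0x1c00400160009420602))) 
(.lf (nat_lit 40346686) (dlOf (nat_lit 1) (nat_lit 0x10004000200191f2882)))) 
(.lf (nat_lit 61318654) (dlOf (nat_lit 1) (nat_lit 0x8008000400200020009923683))))) 
(.nd (nat_lit 7) (.nd (nat_lit 31) (.nd (nat_lit 18) 
(.lf (nat_lit 24354878) (dlOf (nat_lit 3) (nat_lit 0xb1090000d00800589e4007c000000320400100028b90c81))) 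
(.lf (nat_lit 37199934) (dlOf (nat_lit 1) (nat_lit 0xc004000400090b0602)))) (.nd (nat_lit 26) 
(.lf (nat_lit 3493306430) (dlOf (nat_lit 2) (nat_lit 0x5c432005a1c60000d828110700))) 
(.lf (nat_lit 2755108926) (dlOf (nat_lit 2) (nat_lit 0x5c45c005a1d80000d028110700))))) 
(.nd (nat_lit 6) (.lf (nat_lit 58171838) (dlOf (nat_lit 1) (nat_lit 0x10008001c002000400097c7003))) 
(.nd (nat_lit 11) (.lf (nat_lit 58171646) (dlOf (nat_lit 1) (nat_lit 0x200297c2901))) 
(.lf (nat_lit 20166910) (dlOf (nat_lit 1) (nat_lit 0xc004000200189da982))))))) (.nd (nat_lit 18) 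
(.nd (nat_lit 8) (.nd (nat_lit 9) (.nd (nat_lit 20) 
(.lf (nat_lit 1009492030) (dlOf (nat_lit 1) (nat_lit 0x200080008002000a00091a0603))) 
(.lf (nat_lit 45850686) (dlOf (nat_lit 3) (nat_lit 0x3daef00284210001df1e00bcf8b0011e040008aef8009d52000464080100004002c0009360602)))) 
(.nd (nat_lit 7) (.lf (nat_lit 8108606) (dlOf (nat_lit 1) (nat_lit 0x3000800380020010000851b483))) 
(.lf (nat_lit 19639998) (dlOf (nat_lit 1) (nat_lit 0x400289d7281))))) (.nd (nat_lit 6) 
(.nd (nat_lit 20) (.lf (nat_lit 19640126) (dlOf (nat_lit 1) (nat_lit 0x200289d7581))) 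
(.lf (nat_lit 8105790) (dlOf (nat_lit 1) (nat_lit 0x1160018517581)))) (.nd (nat_lit 9) 
(.lf (nat_lit 8108542) (dlOf (nat_lit 1) (nat_lit 0x10008001c0020008000851b283))) 
(.lf (nat_lit 50045950) (dlOf (nat_lit 1) (nat_lit 0xa00294c2881)))))) (.nd (nat_lit 23) 
(.nd (nat_lit 9) (.nd (nat_lit 22) (.nd (nat_lit 24) 
(.lf (nat_lit 473931838) (dlOf (nat_lit 4) (nat_lit 0x4206c80092408036858000e429a02020d9002806c001b8234001c0fa000e07c001238700350158007c00806a800800a000200320008fc0603))) 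
(.lf (nat_lit 20947006) (dlOf (nat_lit 1) (nat_lit 0x49c00402ee00089f0482)))) 
(.lf (nat_lit 25141310) (dlOf (nat_lit 2) (nat_lit 0x12d29002365f800138100020008001400200020008be1403)))) 
(.nd (nat_lit 7) (.lf (nat_lit 3492788798) (dlOf (nat_lit 1) (nat_lit 0x4002000200080fb482))) 
(.lf (nat_lit 19902142) (dlOf (nat_lit 1) (nat_lit 0x80080004002000200089d7283))))) 
(.nd (nat_lit 6) (.nd (nat_lit 10) 
(.lf (nat_lit 12558398) (dlOf (nat_lit 2) (nat_lit 0x190e58000380400ac004000200186d0c82))) 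
(.lf (nat_lit 50308158) (dlOf (nat_lit 1) (nat_lit 0x8004000200094c2882)))) 
(.lf (nat_lit 46112894) (dlOf (nat_lit 1) (nat_lit 0x20029380281)))))))))))

end

end Pool.Agent.Lib.MP_5854e1_co.Cz

namespace Pool.Agent.Lib.MP_5854e1_co.Cz

noncomputable section

noncomputable def tz208 : DT := (.nd (nat_lit 16) (.nd (nat_lit 5) (.nd (nat_lit 17) 
(.nd (nat_lit 28) (.nd (nat_lit 18) (.nd (nat_lit 19) (.nd (nat_lit 8) (.nd (nat_lit 21) 
(.nd (nat_lit 6) (.nd (nat_lit 20) 
(.lf (nat_lit 3422568466) (dlOf (nat_lit 1) (nat_lit 0x60028000001))) (.nd (nat_lit 24) 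
(.lf (nat_lit 68173842) (dlOf (nat_lit 1) (nat_lit 0x7e0028430481))) 
(.lf (nat_lit 17842194) (dlOf (nat_lit 1) (nat_lit 0xc004000200188f0782))))) (.nd (nat_lit 20) 
(.lf (nat_lit 12599378) (dlOf (nat_lit 1) (nat_lit 0x4002000200086d1002))) 
(.lf (nat_lit 30425170) (dlOf (nat_lit 9) (nat_lit 0xb0c80004402000386400021810007c3200010408000e1900007c04000b0c80003c0200198640003c310000dc10002e1900006a04002b0c8000000200020028e30281))))) 
(.nd (nat_lit 7) (.nd (nat_lit 6) 
(.lf (nat_lit 11550738) (dlOf (nat_lit 2) (nat_lit 0x91bb800028040090004001600186b0402))) 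
(.nd (nat_lit 23) (.lf (nat_lit 52445266) (dlOf (nat_lit 1) (nat_lit 0xc00200040009530782))) 
(.lf (nat_lit 44056658) (dlOf (nat_lit 1) (nat_lit 0xc004000600092b1702))))) (.nd (nat_lit 9) 
(.lf (nat_lit 61883602) (dlOf (nat_lit 2) (nat_lit 0x46710000ec080020008006c00200020009922d83))) 
(.lf (nat_lit 2754629330) (dlOf (nat_lit 1) (nat_lit 0x4004000200080f7382)))))) (.nd (nat_lit 7) 
(.nd (nat_lit 10) (.nd (nat_lit 12) (.nd (nat_lit 26) 
(.lf (nat_lit 1610631954) (dlOf (nat_lit 1) (nat_lit 0x540018005b81))) 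
(.lf (nat_lit 1275087634) (dlOf (nat_lit 1) (nat_lit 0x20028005b81)))) 
(.lf (nat_lit 604003090) (dlOf (nat_lit 1) (nat_lit 0x2000800ba81)))) (.nd (nat_lit 9) 
(.lf (nat_lit 3355464978) (dlOf (nat_lit 2) (nat_lit 0x158032004b018800180b0012c024000601100600018001e4300118008008400200040008009683))) 
(.lf (nat_lit 2348828434) (dlOf (nat_lit 1) (nat_lit 0x500080030002000c0008003c03))))) 
(.nd (nat_lit 6) (.nd (nat_lit 9) 
(.lf (nat_lit 2754627986) (dlOf (nat_lit 2) (nat_lit 0x100e806c200800880080018002000800080f4e83))) 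
(.lf (nat_lit 1610632082) (dlOf (nat_lit 1) (nat_lit 0xe0008005c81)))) (.nd (nat_lit 12) 
(.lf (nat_lit 1275087826) (dlOf (nat_lit 3) (nat_lit 0x200000002810001000000000080018008002400200140008005d83))) 
(.lf (nat_lit 604003282) (dlOf (nat_lit 3) (nat_lit 0x490060011402c013c0070026383000700380000008008800800400020008000800bf03))))))) 
(.nd (nat_lit 22) (.nd (nat_lit 10) (.nd (nat_lit 6) (.nd (nat_lit 20) (.nd (nat_lit 26) 
(.lf (nat_lit 2819112978) (dlOf (nat_lit 6) (nat_lit 0x61035000c00880023a08039c0d400c4069004201100045c1805d81a8001f604031c0d400d4069000178200ee035004401a400f00c20046042000c01b004e00880080036000000e00d400181a0481))) 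
(.lf (nat_lit 4362616850) (dlOf (nat_lit 1) (nat_lit 0x80080004002000200080b0583)))) 
(.lf (nat_lit 9977874) (dlOf (nat_lit 2) (nat_lit 0x2138001eb00800400080014002001200085a0a03)))) 
(.nd (nat_lit 7) 
(.lf (nat_lit 2754101330) (dlOf (nat_lit 8) (nat_lit 0x45c49400682450001a02009e12500080914000640800d84940003102001224a000178103560fc8022854c00342760002e0606aa1f9000160100481088000a8080390008043c0020aa600080c1903))) 
(.lf (nat_lit 604520914) (dlOf (nat_lit 1) (nat_lit 0x11400082e7b01))))) (.nd (nat_lit 9) 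
(.nd (nat_lit 11) (.nd (nat_lit 6) 
(.lf (nat_lit 2752005138) (dlOf (nat_lit 1) (nat_lit 0x20018002881))) 
(.lf (nat_lit 52970706) (dlOf (nat_lit 1) (nat_lit 0x800400020009572d82)))) (.nd (nat_lit 12) 
(.lf (nat_lit 20466706) (dlOf (nat_lit 2) (nat_lit 0x4e960000000189d5f80))) 
(.lf (nat_lit 20470802) (dlOf (nat_lit 1) (nat_lit 0x200289dbf01))))) (.nd (nat_lit 6) 
(.nd (nat_lit 7) (.lf (nat_lit 8930834) (dlOf (nat_lit 1) (nat_lit 0x800400020008513702))) 
(.lf (nat_lit 8930962) (dlOf (nat_lit 1) (nat_lit 0x3e0008513a81)))) 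
(.lf (nat_lit 20467282) (dlOf (nat_lit 1) (nat_lit 0xf000089d7181)))))) (.nd (nat_lit 23) 
(.nd (nat_lit 6) (.nd (nat_lit 7) (.nd (nat_lit 20) 
(.lf (nat_lit 4734994) (dlOf (nat_lit 1) (nat_lit 0x4004000200082b0082))) 
(.lf (nat_lit 5783570) (dlOf (nat_lit 3) (nat_lit 0xf00000017c080008648000bc04000c002000400083e0202)))) 
(.lf (nat_lit 56117650) (dlOf (nat_lit 2) (nat_lit 0x4cf800c1b02001e0029734e81)))) (.nd (nat_lit 9) 
(.lf (nat_lit 4735058) (dlOf (nat_lit 1) (nat_lit 0x80080004002000200082b0783))) 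
(.lf (nat_lit 56117842) (dlOf (nat_lit 1) (nat_lit 0x3a0019735281))))) (.nd (nat_lit 6) 
(.nd (nat_lit 8) (.nd (nat_lit 25) 
(.lf (nat_lit 15220754) (dlOf (nat_lit 2) (nat_lit 0x3623a8001f604003c004009600087c0482))) 
(.lf (nat_lit 48775186) (dlOf (nat_lit 1) (nat_lit 0xa0019420081)))) 
(.lf (nat_lit 46680850) (dlOf (nat_lit 1) (nat_lit 0x1400400020019385b82)))) 
(.lf (nat_lit 48775250) (dlOf (nat_lit 1) (nat_lit 0x8008000400200020009420783))))))) 
(.nd (nat_lit 19) (.nd (nat_lit 26) (.nd (nat_lit 7) (.nd (nat_lit 9) (.nd (nat_lit 32) 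
(.nd (nat_lit 6) (.nd (nat_lit 10) 
(.lf (nat_lit 1327122) (dlOf (nat_lit 1) (nat_lit 0xe8008000c002001200080b0483))) 
(.lf (nat_lit 51659794) (dlOf (nat_lit 1) (nat_lit 0x400200020009512882)))) 
(.lf (nat_lit 671367250) (dlOf (nat_lit 6) (nat_lit 0x9800f800128080da007c0008004068003e0003f02020e01f0001f01013e00f8000f40801c0008019400200040008171003)))) 
(.nd (nat_lit 27) (.nd (nat_lit 31) 
(.lf (nat_lit 4295245842) (dlOf (nat_lit 2) (nat_lit 0x4026000160180c0280))) 
(.lf (nat_lit 6442729490) (dlOf (nat_lit 2) (nat_lit 0x100b8002404e0002a04000200281a0401)))) 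
(.lf (nat_lit 4429463570) (dlOf (nat_lit 4) (nat_lit 0x10004e0002f020012027000160100050138000ac0800080080004002000200080c0183))))) 
(.nd (nat_lit 6) (.nd (nat_lit 8) 
(.lf (nat_lit 41173522) (dlOf (nat_lit 1) (nat_lit 0x260029227c01))) 
(.lf (nat_lit 54807314) (dlOf (nat_lit 1) (nat_lit 0x4004003c0009655b82)))) 
(.lf (nat_lit 1610892882) (dlOf (nat_lit 1) (nat_lit 0x400200020008093882))))) (.nd (nat_lit 8) 
(.nd (nat_lit 30) (.lf (nat_lit 134496402) (dlOf (nat_lit 1) (nat_lit 0xa0018044001))) 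
(.lf (nat_lit 1208238226) (dlOf (nat_lit 1) (nat_lit 0x680080004002001400080a2803)))) 
(.nd (nat_lit 9) (.lf (nat_lit 3424658) (dlOf (nat_lit 1) (nat_lit 0x680008200781))) 
(.lf (nat_lit 54807442) (dlOf (nat_lit 1) (nat_lit 0x880009655c81)))))) (.nd (nat_lit 29) 
(.nd (nat_lit 6) (.nd (nat_lit 7) (.nd (nat_lit 31) 
(.lf (nat_lit 4362354706) (dlOf (nat_lit 1) (nat_lit 0x18008001400200020008030a03))) 
(.lf (nat_lit 2214871058) (dlOf (nat_lit 1) (nat_lit 0x80080004002000a00080e0403)))) 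
(.lf (nat_lit 201605266) (dlOf (nat_lit 1) (nat_lit 0xa0018044001)))) 
(.lf (nat_lit 67387474) (dlOf (nat_lit 1) (nat_lit 0x100080004002000200080f0783)))) 
(.nd (nat_lit 30) (.nd (nat_lit 7) 
(.lf (nat_lit 2751744274) (dlOf (nat_lit 1) (nat_lit 0x5400200040008004b82))) 
(.lf (nat_lit 2885961362) (dlOf (nat_lit 2) (nat_lit 0x40000001a0040024002001c0008143a82)))) 
(.nd (nat_lit 6) 
(.lf (nat_lit 3825483794) (dlOf (nat_lit 1) (nat_lit 0x8008000400200020008170883))) 
(.lf (nat_lit 3825483858) (dlOf (nat_lit 1) (nat_lit 0x400200020008171002))))))) (.nd (nat_lit 6) 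
(.nd (nat_lit 22) (.nd (nat_lit 8) (.nd (nat_lit 9) 
(.lf (nat_lit 11288594) (dlOf (nat_lit 1) (nat_lit 0x69800803fc002085e0008680303))) 
(.lf (nat_lit 12337682) (dlOf (nat_lit 1) (nat_lit 0x200286c0d81)))) (.nd (nat_lit 12) 
(.lf (nat_lit 19677458) (dlOf (nat_lit 1) (nat_lit 0x4002000200089d0a82))) 
(.lf (nat_lit 19681554) (dlOf (nat_lit 1) (nat_lit 0x1200289d8081))))) (.nd (nat_lit 10) 
(.nd (nat_lit 20) (.lf (nat_lit 15482898) (dlOf (nat_lit 1) (nat_lit 0x1400287f0201))) 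
(.lf (nat_lit 22822930) (dlOf (nat_lit 1) (nat_lit 0xc00400060008b30182)))) 
(.lf (nat_lit 46943250) (dlOf (nat_lit 1) (nat_lit 0x400400020019385f82))))) (.nd (nat_lit 23) 
(.nd (nat_lit 8) (.nd (nat_lit 9) 
(.lf (nat_lit 17580114) (dlOf (nat_lit 9) (nat_lit 0xb76200045020003bb100022010007dd880010408000eec40007c04000b7620003c020019bb10003dd78000dc10002eec40006a04002b7620000002000200288e0281))) 
(.lf (nat_lit 19682898) (dlOf (nat_lit 1) (nat_lit 0x80080018002000200089d9c03)))) 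
(.lf (nat_lit 1851730) (dlOf (nat_lit 1) (nat_lit 0x20018150681)))) (.nd (nat_lit 7) 
(.nd (nat_lit 24) (.lf (nat_lit 9191506) (dlOf (nat_lit 2) (nat_lit 0x8982f0002b018530680))) 
(.lf (nat_lit 59523154) (dlOf (nat_lit 8) (nat_lit 0xb8cf8005859500012c98003139800a89a80002c0a00565950001581002333f0010965400ec9cc00564d40001504004233f002c165400052080050cfc005659500010000000141800899f801b0cf800a066700092ca8004139800049a8000020c003867e00382ca8000001000e80080080002000a0009800783)))) 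
(.lf (nat_lit 50086866) (dlOf (nat_lit 2) (nat_lit 0x134e880151302000200094c2881)))))))) 
(.nd (nat_lit 26) (.nd (nat_lit 11) (.nd (nat_lit 6) (.nd (nat_lit 7) (.nd (nat_lit 19) 
(.nd (nat_lit 20) (.nd (nat_lit 27) 
(.lf (nat_lit 1342455826) (dlOf (nat_lit 2) (nat_lit 0x2b02a80089c02000a0008030881))) 
(.lf (nat_lit 3087286290) (dlOf (nat_lit 1) (nat_lit 0x8008000400200020008170883)))) 
(.lf (nat_lit 1343504402) (dlOf (nat_lit 3) (nat_lit 0x18848000c31a0005f0400220000002f018280200)))) 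
(.nd (nat_lit 21) (.lf (nat_lit 5773213714) (dlOf (nat_lit 2) (nat_lit 0x4c12f0065b0180b0000))) 
(.lf (nat_lit 1346125842) (dlOf (nat_lit 1) (nat_lit 0x20028e60081))))) (.nd (nat_lit 31) 
(.nd (nat_lit 9) (.lf (nat_lit 1345602706) (dlOf (nat_lit 1) (nat_lit 0x440018d72b81))) 
(.lf (nat_lit 1476416146) (dlOf (nat_lit 1) (nat_lit 0x400200020008008c82)))) (.nd (nat_lit 29) 
(.lf (nat_lit 2415937170) (dlOf (nat_lit 1) (nat_lit 0x40028003a81))) 
(.lf (nat_lit 4026549906) (dlOf (nat_lit 1) (nat_lit 0x3a0028003a81)))))) (.nd (nat_lit 19) 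
(.nd (nat_lit 7) (.nd (nat_lit 27) 
(.lf (nat_lit 1342455890) (dlOf (nat_lit 2) (nat_lit 0x261e300029018031000))) 
(.lf (nat_lit 3087286354) (dlOf (nat_lit 1) (nat_lit 0x400200020008171002)))) 
(.lf (nat_lit 5234771154) (dlOf (nat_lit 1) (nat_lit 0xc00080d2d81)))) (.nd (nat_lit 18) 
(.nd (nat_lit 21) (.lf (nat_lit 3494395986) (dlOf (nat_lit 1) (nat_lit 0x20018211901))) 
(.lf (nat_lit 3492298834) (dlOf (nat_lit 2) (nat_lit 0x53879c0000e040020004006e00080c1602)))) 
(.lf (nat_lit 5773213778) (dlOf (nat_lit 16) (nat_lit 0x39c27a062a1300002b0200060980001540803e84c0000a80400042600005202001e0fa000f05c8007828c000840c013827c00b2131000110200a60988000800801604c40003c0400c42620001a0200ba1310000c81003609880005c0817904f80c642620001304036613e01c80988000481001a84f80158262000110400a613e01400988000401002e800800b000206a200080b0683)))))) 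
(.nd (nat_lit 6) (.nd (nat_lit 8) (.nd (nat_lit 10) (.nd (nat_lit 12) 
(.lf (nat_lit 268454418) (dlOf (nat_lit 1) (nat_lit 0x800400020008005082))) 
(.lf (nat_lit 3493091858) (dlOf (nat_lit 1) (nat_lit 0x4b80080098002022000080fb283)))) 
(.nd (nat_lit 9) (.lf (nat_lit 1880902674) (dlOf (nat_lit 2) (nat_lit 0x320a100016818c95f80))) 
(.lf (nat_lit 1342201362) (dlOf (nat_lit 1) (nat_lit 0x80040004001800ce02))))) (.nd (nat_lit 7) 
(.nd (nat_lit 9) 
(.lf (nat_lit 1476417810) (dlOf (nat_lit 4) (nat_lit 0x1e007000b00300068000000a20c005400e0024000000280200060038000f4080060008002c0020004000800aa83))) 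
(.lf (nat_lit 5771381522) (dlOf (nat_lit 1) (nat_lit 0x400400020008005b82)))) (.nd (nat_lit 21) 
(.lf (nat_lit 3489679762) (dlOf (nat_lit 2) (nat_lit 0x1034006710080010008005400200040008004e83))) 
(.lf (nat_lit 5773478290) (dlOf (nat_lit 1) (nat_lit 0x400180e4e81)))))) (.nd (nat_lit 7) 
(.nd (nat_lit 8) (.nd (nat_lit 12) 
(.lf (nat_lit 1881426514) (dlOf (nat_lit 1) (nat_lit 0xd0008001400200260008f05283))) 
(.lf (nat_lit 1476418130) (dlOf (nat_lit 1) (nat_lit 0x1b000200a6000800b682)))) 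
(.lf (nat_lit 3489680722) (dlOf (nat_lit 2) (nat_lit 0xc032000100200020018006a01)))) 
(.nd (nat_lit 12) (.nd (nat_lit 32) 
(.lf (nat_lit 402672594) (dlOf (nat_lit 2) (nat_lit 0x1002600140110000c828005d80))) 
(.lf (nat_lit 4697639890) (dlOf (nat_lit 2) (nat_lit 0xd8058000140200040018005d81)))) 
(.nd (nat_lit 9) (.lf (nat_lit 1342200274) (dlOf (nat_lit 1) (nat_lit 0xc0020006000800b182))) 
(.lf (nat_lit 2952813522) (dlOf (nat_lit 3) (nat_lit 0x1c201800f0009801980000098e0c0284034000601800020098012c818001800801d800200b6000800bf03)))))))) 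
(.nd (nat_lit 10) (.nd (nat_lit 18) (.nd (nat_lit 7) (.nd (nat_lit 19) (.nd (nat_lit 8) 
(.lf (nat_lit 470827026) (dlOf (nat_lit 1) (nat_lit 0x4004000200081c0482))) 
(.lf (nat_lit 3691010322) (dlOf (nat_lit 4) (nat_lit 0x10160054806c001c0300005406001002c00a500d8004006000100280005308015801b000a00c0001141000f800801e80020126000800aa83)))) 
(.nd (nat_lit 9) 
(.lf (nat_lit 4228399122) (dlOf (nat_lit 1) (nat_lit 0x80080004002000200080b0583))) 
(.lf (nat_lit 1946698258) (dlOf (nat_lit 2) (nat_lit 0x804800040090008a0281b0d80))))) 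
(.nd (nat_lit 6) (.nd (nat_lit 8) 
(.lf (nat_lit 3691008658) (dlOf (nat_lit 1) (nat_lit 0x11000800b8002004e0008008c83))) 
(.lf (nat_lit 1946175890) (dlOf (nat_lit 1) (nat_lit 0x8008000400200020008004e83)))) 
(.nd (nat_lit 9) (.lf (nat_lit 469785042) (dlOf (nat_lit 1) (nat_lit 0x2000800b181))) 
(.lf (nat_lit 2080394194) (dlOf (nat_lit 3) (nat_lit 0x40270000d8100270088016802800028080014002000a0008005d82)))))) 
(.nd (nat_lit 6) (.nd (nat_lit 29) (.nd (nat_lit 30) 
(.lf (nat_lit 470040594) (dlOf (nat_lit 2) (nat_lit 0x2b02a800ebf02000a0008030881))) 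
(.lf (nat_lit 5838749714) (dlOf (nat_lit 1) (nat_lit 0x480080048002003200081a0303)))) 
(.nd (nat_lit 19) 
(.lf (nat_lit 4228136978) (dlOf (nat_lit 1) (nat_lit 0x18008001400200020008030a03))) 
(.lf (nat_lit 6377193490) (dlOf (nat_lit 2) (nat_lit 0x4c120003848180b0000))))) (.nd (nat_lit 19) 
(.nd (nat_lit 29) (.nd (nat_lit 30) 
(.lf (nat_lit 470040658) (dlOf (nat_lit 2) (nat_lit 0x261e300025818031000))) 
(.lf (nat_lit 1543782482) (dlOf (nat_lit 6) (nat_lit 0x9800f800144080da007c0008e04068003e0004602020e01f0002281013e00f8001100801c0008019400200040008171003)))) 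
(.lf (nat_lit 2080653394) (dlOf (nat_lit 1) (nat_lit 0x80080004002000200080a1703)))) 
(.nd (nat_lit 20) (.lf (nat_lit 470564946) (dlOf (nat_lit 2) (nat_lit 0x8a24900010818121900))) 
(.lf (nat_lit 6377193554) (dlOf (nat_lit 16) (nat_lit 0x39c260062a1210002b0200060908001540803e8484000a80400042420005202001e0e9000f05b00078278000840c013826200b2122000110200a60910000800801604880003c0400c42440001a0200ba1220000c81003609100005c0817904c40c642440001304036613101c80910000481001a84c40158244000110400a613101400910000401002e800800b000206a200080b0683))))))) 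
(.nd (nat_lit 7) (.nd (nat_lit 8) (.nd (nat_lit 11) 
(.lf (nat_lit 472925202) (dlOf (nat_lit 1) (nat_lit 0x20028b52881))) (.nd (nat_lit 31) 
(.lf (nat_lit 872434706) (dlOf (nat_lit 4) (nat_lit 0x90198001500800880cc0005a040004066000170200040018005f81))) 
(.lf (nat_lit 3019918354) (dlOf (nat_lit 2) (nat_lit 0x2c01e00016818005f80))))) (.nd (nat_lit 6) 
(.nd (nat_lit 9) (.lf (nat_lit 2617267474) (dlOf (nat_lit 2) (nat_lit 0xee02f0003c818009680))) 
(.lf (nat_lit 3691007762) (dlOf (nat_lit 2) (nat_lit 0x403a003f30200140008007481)))) 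
(.lf (nat_lit 469782354) (dlOf (nat_lit 1) (nat_lit 0x20028007781))))) (.nd (nat_lit 11) 
(.nd (nat_lit 8) (.nd (nat_lit 12) 
(.lf (nat_lit 1543521938) (dlOf (nat_lit 1) (nat_lit 0x6a0008003a81))) 
(.lf (nat_lit 2617267858) (dlOf (nat_lit 8) (nat_lit 0x390030000c00801d00180005e0400f800c0002e020074006000168100390030000140801c0018000040400e000c000000200520018009e81)))) 
(.lf (nat_lit 5704533394) (dlOf (nat_lit 1) (nat_lit 0x4002000200080d3602)))) (.nd (nat_lit 6) 
(.nd (nat_lit 8) (.nd (nat_lit 27) 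
(.lf (nat_lit 1409309842) (dlOf (nat_lit 1) (nat_lit 0xa001800c201))) 
(.lf (nat_lit 4227882130) (dlOf (nat_lit 1) (nat_lit 0x2001800c201)))) 
(.lf (nat_lit 1409306002) (dlOf (nat_lit 1) (nat_lit 0x28008000c00200080008006d03)))) 
(.lf (nat_lit 1409309906) (dlOf (nat_lit 1) (nat_lit 0x440040002000800c302))))))))) 
(.nd (nat_lit 19) (.nd (nat_lit 31) (.nd (nat_lit 10) (.nd (nat_lit 6) (.nd (nat_lit 21) 
(.nd (nat_lit 26) (.nd (nat_lit 18) (.nd (nat_lit 20) 
(.lf (nat_lit 1879195666) (dlOf (nat_lit 1) (nat_lit 0x400200020008070302))) 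
(.lf (nat_lit 30556178) (dlOf (nat_lit 1) (nat_lit 0x60018e40781)))) (.nd (nat_lit 20) 
(.nd (nat_lit 22) (.lf (nat_lit 1074151442) (dlOf (nat_lit 1) (nat_lit 0x400180c0a01))) 
(.lf (nat_lit 12992530) (dlOf (nat_lit 2) (nat_lit 0xcc660005a02000200086f0181)))) 
(.lf (nat_lit 1458194) (dlOf (nat_lit 1) (nat_lit 0x600180d0481))))) (.nd (nat_lit 7) 
(.nd (nat_lit 8) (.nd (nat_lit 27) 
(.lf (nat_lit 604127250) (dlOf (nat_lit 1) (nat_lit 0x80018030081))) 
(.lf (nat_lit 1006780434) (dlOf (nat_lit 1) (nat_lit 0x400200020008070302)))) 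
(.lf (nat_lit 738347794) (dlOf (nat_lit 1) (nat_lit 0x30008001000200180008095b83)))) 
(.nd (nat_lit 8) (.lf (nat_lit 335691922) (dlOf (nat_lit 1) (nat_lit 0x8008000400200020008090483))) 
(.lf (nat_lit 738347410) (dlOf (nat_lit 1) (nat_lit 0x20018094e81)))))) (.nd (nat_lit 23) 
(.nd (nat_lit 7) (.nd (nat_lit 8) 
(.lf (nat_lit 23216146) (dlOf (nat_lit 1) (nat_lit 0x20028b70301))) 
(.lf (nat_lit 473058066) (dlOf (nat_lit 1) (nat_lit 0xc00400020008c95b82)))) 
(.lf (nat_lit 20075154) (dlOf (nat_lit 1) (nat_lit 0x200080014002000200089d8c83)))) 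
(.nd (nat_lit 18) (.nd (nat_lit 24) 
(.lf (nat_lit 10633234) (dlOf (nat_lit 1) (nat_lit 0x20018600101))) 
(.lf (nat_lit 27410450) (dlOf (nat_lit 1) (nat_lit 0x60028ce0201)))) 
(.lf (nat_lit 10895378) (dlOf (nat_lit 2) (nat_lit 0x400000007818640400)))))) (.nd (nat_lit 24) 
(.nd (nat_lit 27) (.nd (nat_lit 8) 
(.lf (nat_lit 5905729618) (dlOf (nat_lit 1) (nat_lit 0x20008144701))) 
(.lf (nat_lit 9584978) (dlOf (nat_lit 1) (nat_lit 0x200028574d81)))) (.nd (nat_lit 18) 
(.lf (nat_lit 1744978002) (dlOf (nat_lit 1) (nat_lit 0x120018090001))) 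
(.lf (nat_lit 2080784466) (dlOf (nat_lit 1) (nat_lit 0x4002000200080d1702))))) (.nd (nat_lit 21) 
(.nd (nat_lit 7) 
(.lf (nat_lit 25313362) (dlOf (nat_lit 9) (nat_lit 0x18ce20007e48402c722200338eb0030c35809e568800a4000000340e00659c4005cc90800a63ac05ceb44011000000019850012c888000c808016e454005b0de0002104021b91500f6c3780007c100686454028f0de0001e0400c99150064c378000741001b61bc0003804006c00401e80018bf0d82))) 
(.lf (nat_lit 21381586) (dlOf (nat_lit 1) (nat_lit 0x400200040008a37102)))) (.nd (nat_lit 20) 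
(.lf (nat_lit 52576338) (dlOf (nat_lit 9) (nat_lit 0x45fe0002afe800396540004a7b000160400085950000ac08011aff000697f40034b2a0001503000d5950000a40800b304c01117f80066b2a000028300065fe0002aca800008080019826006cbfc00245fd00102ca80000410004d654000000200e20029550781))) 
(.lf (nat_lit 62013522) (dlOf (nat_lit 1) (nat_lit 0x40029931701))))))) (.nd (nat_lit 7) 
(.nd (nat_lit 18) (.nd (nat_lit 6) (.nd (nat_lit 9) 
(.lf (nat_lit 38945810) (dlOf (nat_lit 1) (nat_lit 0x400200020009192882))) 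
(.lf (nat_lit 20076050) (dlOf (nat_lit 1) (nat_lit 0xb0002000800089d9c02)))) 
(.lf (nat_lit 4697769554) (dlOf (nat_lit 1) (nat_lit 0x20028093881)))) (.nd (nat_lit 8) 
(.nd (nat_lit 11) (.lf (nat_lit 38159378) (dlOf (nat_lit 1) (nat_lit 0x20019132881))) 
(.lf (nat_lit 5771774994) (dlOf (nat_lit 2) (nat_lit 0x841d6005a0bf0001a828005f80)))) 
(.lf (nat_lit 8803602) (dlOf (nat_lit 1) (nat_lit 0x20008519681))))) (.nd (nat_lit 18) 
(.nd (nat_lit 9) (.nd (nat_lit 21) 
(.lf (nat_lit 872563858) (dlOf (nat_lit 2) (nat_lit 0x40168007e0080018008001400200060008092b83))) 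
(.lf (nat_lit 48383122) (dlOf (nat_lit 5) (nat_lit 0xf9d0400164040060e8200027090004482001c3a08002200800c9d040010c04007c00400080009402b82)))) 
(.lf (nat_lit 671237778) (dlOf (nat_lit 2) (nat_lit 0x20250001a818143a80)))) (.nd (nat_lit 6) 
(.nd (nat_lit 9) (.lf (nat_lit 51790994) (dlOf (nat_lit 1) (nat_lit 0xc0009512b81))) 
(.lf (nat_lit 8799890) (dlOf (nat_lit 1) (nat_lit 0x400400040018513a82)))) 
(.lf (nat_lit 1476805842) (dlOf (nat_lit 1) (nat_lit 0x20028202d81))))))) (.nd (nat_lit 26) 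
(.nd (nat_lit 28) (.nd (nat_lit 7) (.nd (nat_lit 6) 
(.lf (nat_lit 3355852818) (dlOf (nat_lit 2) (nat_lit 0x980c80000004002c00400020008130182))) 
(.lf (nat_lit 3355590738) (dlOf (nat_lit 1) (nat_lit 0x200180a0001)))) (.nd (nat_lit 8) 
(.nd (nat_lit 9) (.lf (nat_lit 3221635218) (dlOf (nat_lit 1) (nat_lit 0x20018170181))) 
(.lf (nat_lit 6442600082) (dlOf (nat_lit 1) (nat_lit 0x800180f3a81)))) 
(.lf (nat_lit 3221376402) (dlOf (nat_lit 2) (nat_lit 0x2c05100021818116d00))))) (.nd (nat_lit 6) 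
(.nd (nat_lit 10) (.nd (nat_lit 18) 
(.lf (nat_lit 2952937490) (dlOf (nat_lit 3) (nat_lit 0x402d000ab8100060168005500800c00080050002007c0008030083))) 
(.lf (nat_lit 3494264850) (dlOf (nat_lit 12) (nat_lit 0x2008400068020014042000338100260210003008c005003c000c0170003204001002100018c080098128000c00400600900002802002404c00060000000641000a01300003004004c0980001602002604c0000a01000d02600004c0800480080078002001600081e0183)))) 
(.lf (nat_lit 3087156242) (dlOf (nat_lit 1) (nat_lit 0x400400020008142882)))) (.nd (nat_lit 18) 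
(.nd (nat_lit 30) 
(.lf (nat_lit 2952937554) (dlOf (nat_lit 1) (nat_lit 0x900080074002005e0008030783))) 
(.lf (nat_lit 4026679378) (dlOf (nat_lit 1) (nat_lit 0xc0008000800200020008031003)))) 
(.lf (nat_lit 4026941522) (dlOf (nat_lit 8) (nat_lit 0x3680ac01f4048008600d000d0000000d02007500ac034c04801de00d00019830056019002280ac01ec048006200d00019040037019001b8090000620801400640003002002e0400000f8100190200000780809800080140002001200080d0d83)))))) 
(.nd (nat_lit 27) (.nd (nat_lit 30) (.nd (nat_lit 9) (.nd (nat_lit 18) 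
(.lf (nat_lit 2214739986) (dlOf (nat_lit 1) (nat_lit 0x4002000a0008080302))) 
(.lf (nat_lit 3020308498) (dlOf (nat_lit 1) (nat_lit 0xc0008230401)))) 
(.lf (nat_lit 6509710866) (dlOf (nat_lit 1) (nat_lit 0xbc0018147081)))) (.nd (nat_lit 6) 
(.lf (nat_lit 4094839698) (dlOf (nat_lit 1) (nat_lit 0x2800400060008055c82))) (.nd (nat_lit 18) 
(.lf (nat_lit 3288481874) (dlOf (nat_lit 1) (nat_lit 0xc0008000800200020008031003))) 
(.lf (nat_lit 3288744018) (dlOf (nat_lit 8) (nat_lit 0x3680ac01f4048008600d000d0000000d02007500ac034c04801de00d00019830056019002280ac01ec048006200d00019040037019001b8090000620801400640003002002e0400000f8100190200000780809800080140002001200080d0d83)))))) 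
(.nd (nat_lit 18) (.nd (nat_lit 6) (.nd (nat_lit 8) 
(.lf (nat_lit 3422699538) (dlOf (nat_lit 1) (nat_lit 0x27000800c8002017a0008060303))) 
(.lf (nat_lit 2885828882) (dlOf (nat_lit 1) (nat_lit 0x200280b0481)))) 
(.lf (nat_lit 3959571538) (dlOf (nat_lit 3) (nat_lit 0x4a814c001406e0146904001205300a33018112880)))) 
(.nd (nat_lit 7) (.nd (nat_lit 29) 
(.lf (nat_lit 2617655314) (dlOf (nat_lit 1) (nat_lit 0x28004000a0008130182))) 
(.lf (nat_lit 3154526226) (dlOf (nat_lit 2) (nat_lit 0x2a02c003118181f0480)))) 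
(.lf (nat_lit 3959832722) (dlOf (nat_lit 1) (nat_lit 0x20018170181)))))))) (.nd (nat_lit 6) 
(.nd (nat_lit 21) (.nd (nat_lit 27) (.nd (nat_lit 18) (.nd (nat_lit 22) (.nd (nat_lit 26) 
(.lf (nat_lit 1342849042) (dlOf (nat_lit 1) (nat_lit 0x800280f0281))) 
(.lf (nat_lit 3557441554) (dlOf (nat_lit 1) (nat_lit 0x60028200201)))) (.nd (nat_lit 10) 
(.lf (nat_lit 22691858) (dlOf (nat_lit 1) (nat_lit 0x400200020008b10402))) 
(.lf (nat_lit 46812178) (dlOf (nat_lit 2) (nat_lit 0x14ce4002665b00362fd801c966c00ccb0c0054572003626f802b8fe800d87ae0002d12000a0019385f81))))) 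
(.nd (nat_lit 23) (.nd (nat_lit 10) 
(.lf (nat_lit 17711122) (dlOf (nat_lit 2) (nat_lit 0xb1a19006738188f0780))) 
(.lf (nat_lit 1344166930) (dlOf (nat_lit 1) (nat_lit 0xc00283dbf01)))) (.nd (nat_lit 25) 
(.lf (nat_lit 9322514) (dlOf (nat_lit 1) (nat_lit 0x8008000400200020008540483))) 
(.lf (nat_lit 42876946) (dlOf (nat_lit 1) (nat_lit 0x400400020009280082)))))) (.nd (nat_lit 26) 
(.nd (nat_lit 29) 
(.lf (nat_lit 134889490) (dlOf (nat_lit 6) (nat_lit 0xa500a80906041032601e818080e00870066075e03000130168024804001dc006021600000d228a006d02c0106015003300960860041035701e817080e00824066067803000f7015803c004002dc00601f000000d218c01d002180e980fc00f007401a4106058204302fb01f816100e80b0806a029801300d1f8500530180067840810680080fd4002184400080d0883))) 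
(.lf (nat_lit 2819244050) (dlOf (nat_lit 1) (nat_lit 0x400400020008200202)))) (.nd (nat_lit 28) 
(.lf (nat_lit 201998354) (dlOf (nat_lit 6) (nat_lit 0xa500aa0906041032601e818080e00870066075e03000130168024804001dc008021600000ed50a006d02c8106015403300960860041035701e817080e00824066067803000f7015803c004002dc00801f000000ed40c01d002180e980fc00f007401da606058204302fb01f816100e80b0806a029801300ed20500530180075200810680080fd4002184400080d0883))) 
(.nd (nat_lit 29) 
(.lf (nat_lit 470433810) (dlOf (nat_lit 3) (nat_lit 0x2c3e00006302001416200020570001601000900080010002004000080f0183))) 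
(.lf (nat_lit 3154788370) (dlOf (nat_lit 3) (nat_lit 0x44058007e902002405700a901b807100640320030015200a0001004801cf8300048008004800200240008320783))))))) 
(.nd (nat_lit 10) (.nd (nat_lit 31) (.nd (nat_lit 7) (.nd (nat_lit 22) 
(.lf (nat_lit 27934738) (dlOf (nat_lit 1) (nat_lit 0xc00400020008d40202))) 
(.lf (nat_lit 15351826) (dlOf (nat_lit 1) (nat_lit 0x600287e0481)))) 
(.lf (nat_lit 36325778) (dlOf (nat_lit 1) (nat_lit 0x400200020009074e82)))) (.nd (nat_lit 18) 
(.nd (nat_lit 26) (.lf (nat_lit 3492429842) (dlOf (nat_lit 2) (nat_lit 0x2a01e00d228180d0880))) 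
(.lf (nat_lit 2754232338) (dlOf (nat_lit 2) (nat_lit 0x2a01e00ed50180d0880)))) 
(.lf (nat_lit 3493740562) (dlOf (nat_lit 1) (nat_lit 0x2200281b0001))))) (.nd (nat_lit 7) 
(.nd (nat_lit 8) (.nd (nat_lit 18) 
(.lf (nat_lit 20597778) (dlOf (nat_lit 2) (nat_lit 0xe96000112298000001000100080004002000200089d5f83))) 
(.lf (nat_lit 54414354) (dlOf (nat_lit 1) (nat_lit 0x10800200040009655f82)))) 
(.lf (nat_lit 8017170) (dlOf (nat_lit 2) (nat_lit 0x9255f0003c818519680)))) (.nd (nat_lit 8) 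
(.lf (nat_lit 3492693650) (dlOf (nat_lit 1) (nat_lit 0x2c00280f3a81))) 
(.lf (nat_lit 19813778) (dlOf (nat_lit 1) (nat_lit 0x200289d9901))))))) (.nd (nat_lit 18) 
(.nd (nat_lit 25) (.nd (nat_lit 27) (.nd (nat_lit 29) 
(.lf (nat_lit 4362747986) (dlOf (nat_lit 2) (nat_lit 0x2033000098180f1900))) 
(.lf (nat_lit 1678393426) (dlOf (nat_lit 2) (nat_lit 0x4181580002604000400400180008201902)))) 
(.nd (nat_lit 26) 
(.lf (nat_lit 134889554) (dlOf (nat_lit 6) (nat_lit 0x17f8104002407a046203000014830032021801900fc0004a08003807e0002302008603f0001081001d01f8000000804b00080144002019e00080d0d83))) 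
(.lf (nat_lit 201998418) (dlOf (nat_lit 6) (nat_lit 0x17f8104002407a046203000014830032021801900fc0004a08003807e0002302008603f0001081001d01f8000000804b00080144002019e00080d0d83))))) 
(.nd (nat_lit 10) (.nd (nat_lit 20) 
(.lf (nat_lit 42614866) (dlOf (nat_lit 1) (nat_lit 0x40009260781))) 
(.lf (nat_lit 54149202) (dlOf (nat_lit 1) (nat_lit 0x20029630781)))) (.nd (nat_lit 7) 
(.lf (nat_lit 49956178) (dlOf (nat_lit 1) (nat_lit 0xc004000200094c3302))) 
(.lf (nat_lit 43664594) (dlOf (nat_lit 1) (nat_lit 0x18004000200092a2d82)))))) (.nd (nat_lit 7) 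
(.nd (nat_lit 8) (.nd (nat_lit 20) 
(.lf (nat_lit 13516882) (dlOf (nat_lit 2) (nat_lit 0x1680000006604000400400020018730d82))) 
(.lf (nat_lit 18759762) (dlOf (nat_lit 1) (nat_lit 0x20028970281)))) 
(.lf (nat_lit 3490595154) (dlOf (nat_lit 2) (nat_lit 0x43d0000400200020008014d01)))) 
(.nd (nat_lit 8) 
(.lf (nat_lit 1345211090) (dlOf (nat_lit 2) (nat_lit 0x130b280006008007000800fc002000c0008b05883))) 
(.nd (nat_lit 27) (.lf (nat_lit 3490595282) (dlOf (nat_lit 1) (nat_lit 0x80018017101))) 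
(.lf (nat_lit 5772296658) (dlOf (nat_lit 1) (nat_lit 0x68008002800200100008091183)))))))))) 
(.nd (nat_lit 18) (.nd (nat_lit 17) (.nd (nat_lit 10) (.nd (nat_lit 6) (.nd (nat_lit 19) 
(.nd (nat_lit 27) (.nd (nat_lit 9) (.nd (nat_lit 21) 
(.lf (nat_lit 13647922) (dlOf (nat_lit 1) (nat_lit 0x400400020008740682))) 
(.lf (nat_lit 28327986) (dlOf (nat_lit 3) (nat_lit 0xa5870002ac1c003130e0005b060008a6c00035358000001000c0008002000200020008d80803)))) 
(.nd (nat_lit 12) (.lf (nat_lit 1345342002) (dlOf (nat_lit 1) (nat_lit 0x2c00200020008b55182))) 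
(.lf (nat_lit 536894002) (dlOf (nat_lit 1) (nat_lit 0x40040002000800b382))))) (.nd (nat_lit 29) 
(.nd (nat_lit 26) (.lf (nat_lit 5502943282) (dlOf (nat_lit 1) (nat_lit 0xd0002011e0008000002))) 
(.lf (nat_lit 3422568498) (dlOf (nat_lit 1) (nat_lit 0x100018000001)))) (.nd (nat_lit 7) 
(.lf (nat_lit 6106923058) (dlOf (nat_lit 1) (nat_lit 0x8008000400200020008000003))) 
(.lf (nat_lit 5301619634) (dlOf (nat_lit 1) (nat_lit 0x18008001000200280008005d03)))))) 
(.nd (nat_lit 21) (.nd (nat_lit 20) 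
(.lf (nat_lit 21512242) (dlOf (nat_lit 2) (nat_lit 0x26f3400017818a40380))) 
(.lf (nat_lit 26755122) (dlOf (nat_lit 1) (nat_lit 0x14004000e0018c70982)))) (.nd (nat_lit 22) 
(.lf (nat_lit 2754101298) (dlOf (nat_lit 10) (nat_lit 0x5bc2450001b0102bd1228000d0081d5893000064040fe0498000300202ec24c009e12280c207d40005c0c066049802582450254107816c87d408842ac012a151000168600bd1260000b0080e9893000056040ad04980002902005000280c0f81))) 
(.lf (nat_lit 15220786) (dlOf (nat_lit 1) (nat_lit 0x180080348002015800087c0783)))))) 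
(.nd (nat_lit 7) (.nd (nat_lit 8) (.nd (nat_lit 20) (.nd (nat_lit 26) 
(.lf (nat_lit 3493871730) (dlOf (nat_lit 2) (nat_lit 0x281a600d4012000fd0281b0080))) 
(.lf (nat_lit 2755674226) (dlOf (nat_lit 2) (nat_lit 0x2818a00d4012000f40281b0080)))) 
(.nd (nat_lit 19) 
(.lf (nat_lit 24133746) (dlOf (nat_lit 2) (nat_lit 0xf6158004e0080068008002800200120008b80083))) 
(.lf (nat_lit 14172274) (dlOf (nat_lit 1) (nat_lit 0x4000400040008750282))))) (.nd (nat_lit 20) 
(.nd (nat_lit 26) 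
(.lf (nat_lit 5771381106) (dlOf (nat_lit 1) (nat_lit 0x28008005800200020008004e83))) 
(.lf (nat_lit 5301619058) (dlOf (nat_lit 1) (nat_lit 0x9800800a0002005e0008004e83)))) 
(.nd (nat_lit 19) 
(.lf (nat_lit 2754627954) (dlOf (nat_lit 2) (nat_lit 0x8010006c5008007800800cc002000800080f4e83))) 
(.lf (nat_lit 56117618) (dlOf (nat_lit 1) (nat_lit 0x800400020009734e82)))))) (.nd (nat_lit 12) 
(.nd (nat_lit 8) (.lf (nat_lit 40911090) (dlOf (nat_lit 1) (nat_lit 0x20004002e0019201e82))) 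
(.nd (nat_lit 9) (.lf (nat_lit 4966072818) (dlOf (nat_lit 1) (nat_lit 0x400200020008001402))) 
(.lf (nat_lit 52970482) (dlOf (nat_lit 1) (nat_lit 0x20029572881))))) (.nd (nat_lit 8) 
(.lf (nat_lit 1476416242) (dlOf (nat_lit 1) (nat_lit 0xc0028008f01))) (.nd (nat_lit 26) 
(.lf (nat_lit 536893938) (dlOf (nat_lit 1) (nat_lit 0x2002800b281))) 
(.lf (nat_lit 4362099186) (dlOf (nat_lit 3) (nat_lit 0x7019802fe80800400cc017f20400180040010000800b282)))))))) 
(.nd (nat_lit 26) (.nd (nat_lit 27) (.nd (nat_lit 8) (.nd (nat_lit 9) 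
(.lf (nat_lit 41960498) (dlOf (nat_lit 1) (nat_lit 0x400400020009242882))) 
(.lf (nat_lit 4294987314) (dlOf (nat_lit 1) (nat_lit 0x68008001000200020008007183)))) 
(.nd (nat_lit 7) (.nd (nat_lit 9) 
(.lf (nat_lit 8410418) (dlOf (nat_lit 1) (nat_lit 0x10008001800200040008519883))) 
(.lf (nat_lit 1879070514) (dlOf (nat_lit 1) (nat_lit 0x4000800a101)))) 
(.lf (nat_lit 52970930) (dlOf (nat_lit 1) (nat_lit 0x8008000400200020009573603))))) 
(.nd (nat_lit 7) (.nd (nat_lit 9) (.nd (nat_lit 12) 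
(.lf (nat_lit 5772952626) (dlOf (nat_lit 1) (nat_lit 0x40028092881))) 
(.lf (nat_lit 1476416562) (dlOf (nat_lit 1) (nat_lit 0x400400020008009202)))) 
(.lf (nat_lit 5502944818) (dlOf (nat_lit 4) (nat_lit 0x9009800280400004e080038026000e01000004820008009800100400000008000400400020018003782)))) 
(.nd (nat_lit 6) 
(.lf (nat_lit 1744848306) (dlOf (nat_lit 2) (nat_lit 0xe016800594080008008001000200020008003603))) 
(.lf (nat_lit 1744848114) (dlOf (nat_lit 1) (nat_lit 0x40018002e81)))))) (.nd (nat_lit 9) 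
(.nd (nat_lit 6) (.nd (nat_lit 12) (.nd (nat_lit 19) 
(.lf (nat_lit 3556787250) (dlOf (nat_lit 2) (nat_lit 0x60028002800000e0a0800bc00200080008002882))) 
(.lf (nat_lit 472400946) (dlOf (nat_lit 1) (nat_lit 0xb8008001000200460008982883)))) 
(.lf (nat_lit 3691009074) (dlOf (nat_lit 3) (nat_lit 0x78060008700400200300000002004e0008009201)))) 
(.nd (nat_lit 11) 
(.lf (nat_lit 5435835762) (dlOf (nat_lit 2) (nat_lit 0x10014001100880050038000560c01c800401200018003502))) 
(.lf (nat_lit 4227882354) (dlOf (nat_lit 1) (nat_lit 0x2001800c901))))) (.nd (nat_lit 30) 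
(.nd (nat_lit 6) (.lf (nat_lit 469784498) (dlOf (nat_lit 1) (nat_lit 0x800800180020002000800a403))) 
(.nd (nat_lit 7) 
(.lf (nat_lit 2348828530) (dlOf (nat_lit 1) (nat_lit 0x18008000800200040008004083))) 
(.lf (nat_lit 201344754) (dlOf (nat_lit 2) (nat_lit 0x102080011c0800b0008001c002000a0008003b83))))) 
(.nd (nat_lit 27) (.nd (nat_lit 32) 
(.lf (nat_lit 1140868658) (dlOf (nat_lit 1) (nat_lit 0x1800200020008003782))) 
(.lf (nat_lit 5435835954) (dlOf (nat_lit 3) (nat_lit 0x6603e0001381000101f000024080008008006000200360008003783)))) 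
(.lf (nat_lit 6106924594) (dlOf (nat_lit 4) (nat_lit 0x20150003002800078100030050000380400080280001b0200020018003781)))))))) 
(.nd (nat_lit 30) (.nd (nat_lit 8) (.nd (nat_lit 19) (.nd (nat_lit 32) (.nd (nat_lit 23) 
(.nd (nat_lit 26) 
(.lf (nat_lit 2952937522) (dlOf (nat_lit 26) (nat_lit 0x2540520042017002400880ad8000003c8100414000001e302015c004000eb810151002000754080230010003a804047405802b2000000e902014e016004e00a4016802600520050115000000744280bd00b004e0000001cf04000e02a000e6810066016003f0000003920803d8000001c8020112004000dd8100bc0020006dc0809300100036c040168000001b0020138004001e0000005f01002380b0012c00e000a00400240000005e820004801003640000017904007400700130020005cc1001d00100014a040010038029e0040004082004e0020002000801c00100009e040474008000030202cc02c013b000000000100290008013400205c60008030483))) 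
(.lf (nat_lit 604127282) (dlOf (nat_lit 7) (nat_lit 0x3cc0220042002000e882000200000073c0800700440039204005c086001b702000201f00040000004dc1004b80440010204008c004003c0008030482)))) 
(.nd (nat_lit 9) 
(.lf (nat_lit 25313330) (dlOf (nat_lit 4) (nat_lit 0x10d916000ac3800028410098645804430e00007e04014791600012018bf0b80))) 
(.lf (nat_lit 11682354) (dlOf (nat_lit 5) (nat_lit 0x7c630004deb0000881000e718c00677ac0000904001bc63000bdeb0000141000cf18c005b7ac0000004000a00086c0f01))))) 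
(.nd (nat_lit 26) (.nd (nat_lit 6) 
(.lf (nat_lit 4966203442) (dlOf (nat_lit 1) (nat_lit 0x40018040381))) 
(.lf (nat_lit 4697769202) (dlOf (nat_lit 2) (nat_lit 0x200000005204003000200040008092e82)))) 
(.nd (nat_lit 27) 
(.lf (nat_lit 5167530034) (dlOf (nat_lit 8) (nat_lit 0x19014000a008c00500440030019000190400050140005809800380460012022000300c000580180005e180024050002801900014020007014000200640004e0800200500002602001c028000128100040140000900800f80080070002000a0008080383))) 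
(.lf (nat_lit 5033312306) (dlOf (nat_lit 1) (nat_lit 0x40018040381)))))) (.nd (nat_lit 27) 
(.nd (nat_lit 9) (.nd (nat_lit 24) 
(.lf (nat_lit 4362747954) (dlOf (nat_lit 1) (nat_lit 0x80080004002000200080f0f83))) 
(.lf (nat_lit 17449010) (dlOf (nat_lit 1) (nat_lit 0x780080004002000c00088e0003)))) 
(.lf (nat_lit 2753184306) (dlOf (nat_lit 1) (nat_lit 0x2a0018090f01)))) (.nd (nat_lit 29) 
(.nd (nat_lit 26) 
(.lf (nat_lit 134889522) (dlOf (nat_lit 2) (nat_lit 0xd0062001d102001400080d0b81))) 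
(.lf (nat_lit 201998386) (dlOf (nat_lit 2) (nat_lit 0xd0062001d102001400080d0b81)))) 
(.nd (nat_lit 10) 
(.lf (nat_lit 3154788402) (dlOf (nat_lit 2) (nat_lit 0x4202d000000080030008003000200100008320f03))) 
(.lf (nat_lit 738870322) (dlOf (nat_lit 1) (nat_lit 0x400400020008122882))))))) (.nd (nat_lit 21) 
(.nd (nat_lit 6) (.nd (nat_lit 9) (.nd (nat_lit 27) 
(.lf (nat_lit 4295115058) (dlOf (nat_lit 1) (nat_lit 0x8008000400200020008090503))) 
(.lf (nat_lit 4429332786) (dlOf (nat_lit 1) (nat_lit 0x8008000400200020008090503)))) 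
(.lf (nat_lit 671237938) (dlOf (nat_lit 7) (nat_lit 0x2008800780260001c0400040000000d810034015800180a0005404a00140220017009800c8030000400800380000000d080015012800f808800840260000b0600460250025011001f804c000140c004804a001c022002b009800024180068008002c00200480008143d83)))) 
(.nd (nat_lit 9) (.lf (nat_lit 9065970) (dlOf (nat_lit 1) (nat_lit 0x20018519c01))) 
(.nd (nat_lit 11) (.lf (nat_lit 38421490) (dlOf (nat_lit 1) (nat_lit 0x20019132881))) 
(.lf (nat_lit 4563553266) (dlOf (nat_lit 1) (nat_lit 0x20018095f01)))))) (.nd (nat_lit 20) 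
(.nd (nat_lit 7) (.lf (nat_lit 44188018) (dlOf (nat_lit 1) (nat_lit 0x200192d5801))) 
(.nd (nat_lit 9) (.lf (nat_lit 61490674) (dlOf (nat_lit 1) (nat_lit 0x300029923601))) 
(.lf (nat_lit 31605746) (dlOf (nat_lit 2) (nat_lit 0x8c1300015fe0015e81003000080174002000e0008e92883))))) 
(.nd (nat_lit 6) (.nd (nat_lit 7) 
(.lf (nat_lit 28983602) (dlOf (nat_lit 1) (nat_lit 0xc00400080018da0702))) 
(.lf (nat_lit 11682226) (dlOf (nat_lit 5) (nat_lit 0x1bc600011e2f0006ef4c002f7a0001a00000676850007e300004f178019d808002b8c0001fc5e000bde980016f40002400000ce30a0005d1f0009e300001f178001f7a60005bd00006000003388300020008005c002000800086c0783)))) 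
(.lf (nat_lit 11682290) (dlOf (nat_lit 1) (nat_lit 0x1080080090002005a00086c0d83))))))) 
(.nd (nat_lit 6) (.nd (nat_lit 26) (.nd (nat_lit 9) (.nd (nat_lit 19) (.nd (nat_lit 27) 
(.lf (nat_lit 5368856626) (dlOf (nat_lit 5) (nat_lit 0x1601000019010031009802780400005e08008002a001c014000b00880078038008000a0002b0a000a015000400280000010048000800d0002005a0008040383))) 
(.lf (nat_lit 5503074354) (dlOf (nat_lit 5) (nat_lit 0x40015000e00a00058044003c01c00400050001a05000b0080000bc08018804c013c0200002c04000a015000400280000010048000800d0002005a0008040383)))) 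
(.lf (nat_lit 3221897266) (dlOf (nat_lit 11) (nat_lit 0x31808605400380002a02054f02300c0810c01480800060038000700b00014c282a30118057c086001004002d401c0001482002f01140003c04010808a0001d0202960450000d81003202280010108000300804e40a8024405002a402280940108046007e002a0330093018008f80b801b4054004601d00c1007802a002400cc00e000171a029c0450000781051d02300000008055000802ec002016a00081b0683)))) 
(.nd (nat_lit 10) (.nd (nat_lit 11) 
(.lf (nat_lit 3491381810) (dlOf (nat_lit 1) (nat_lit 0x2a0018090f01))) 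
(.lf (nat_lit 1345473074) (dlOf (nat_lit 2) (nat_lit 0x211a000b8818c35180)))) 
(.lf (nat_lit 1610761778) (dlOf (nat_lit 2) (nat_lit 0x58082003c0320000e028093780))))) 
(.nd (nat_lit 7) (.nd (nat_lit 8) (.nd (nat_lit 19) 
(.lf (nat_lit 2080522290) (dlOf (nat_lit 1) (nat_lit 0x1c0028090001))) 
(.lf (nat_lit 3960094770) (dlOf (nat_lit 11) (nat_lit 0x31808605400380002a02054f02300c0810c01480800060038000700b00014c282a30118057c086001004002d401c0001482002f01140003c04010808a0001d0202960450000d81003202280010108000300804e40a8024405002a402280940108046007e002a0330093018008f80b801b4054004601d00c1007802a002400cc00e000171a029c0450000781051d02300000008055000802ec002016a00081b0683)))) 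
(.lf (nat_lit 3959572786) (dlOf (nat_lit 2) (nat_lit 0x1b80bc001d604001800200040008114b82)))) 
(.nd (nat_lit 8) (.lf (nat_lit 1677871282) (dlOf (nat_lit 1) (nat_lit 0x20008114901))) 
(.lf (nat_lit 1677871026) (dlOf (nat_lit 1) (nat_lit 0x8008000400200020008114383)))))) 
(.nd (nat_lit 7) (.nd (nat_lit 8) (.nd (nat_lit 9) 
(.lf (nat_lit 3494002802) (dlOf (nat_lit 4) (nat_lit 0x680f90012401010907c800c83dc003f40801581f2001f802000200281b0081))) 
(.lf (nat_lit 6241274482) (dlOf (nat_lit 1) (nat_lit 0x4002000200080d5402)))) (.nd (nat_lit 10) 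
(.lf (nat_lit 3959576946) (dlOf (nat_lit 1) (nat_lit 0x2000811ad01))) (.nd (nat_lit 12) 
(.lf (nat_lit 3221376370) (dlOf (nat_lit 2) (nat_lit 0x2805100016018116b80))) 
(.lf (nat_lit 3221380466) (dlOf (nat_lit 3) (nat_lit 0x17e02f003338100410178016540803a0008048c00200c0000811c903)))))) 
(.nd (nat_lit 11) (.nd (nat_lit 12) 
(.lf (nat_lit 1275217138) (dlOf (nat_lit 1) (nat_lit 0x20028092e81))) 
(.lf (nat_lit 3355596018) (dlOf (nat_lit 6) (nat_lit 0x40100007400800500bc0037e04001005e0019402003e032000270100140190001300800c80080094002001c00080a9503)))) 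
(.nd (nat_lit 8) (.nd (nat_lit 32) 
(.lf (nat_lit 1543654642) (dlOf (nat_lit 1) (nat_lit 0x20028146581))) 
(.lf (nat_lit 5838621938) (dlOf (nat_lit 1) (nat_lit 0xe00180f6581)))) 
(.lf (nat_lit 3959577074) (dlOf (nat_lit 1) (nat_lit 0x700080080002000a000811b283))))))))) 
(.nd (nat_lit 26) (.nd (nat_lit 21) (.nd (nat_lit 17) (.nd (nat_lit 19) (.nd (nat_lit 29) 
(.nd (nat_lit 7) (.nd (nat_lit 8) (.nd (nat_lit 20) 
(.lf (nat_lit 1342455858) (dlOf (nat_lit 4) (nat_lit 0x50e380058408002871c001b404001438e0009d0200020018030d01))) 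
(.lf (nat_lit 26492978) (dlOf (nat_lit 1) (nat_lit 0x10008001800200100008c50483)))) 
(.lf (nat_lit 54807346) (dlOf (nat_lit 1) (nat_lit 0x800009655c01)))) (.nd (nat_lit 8) 
(.lf (nat_lit 4563681458) (dlOf (nat_lit 7) (nat_lit 0x1802a00020120000c82000900a800200480003008001002a000a0120000582000500a800500480001408000c02a000e0120000482000600a80030048000100800fc004002200080c1682))) 
(.lf (nat_lit 8668594) (dlOf (nat_lit 1) (nat_lit 0x20008513601))))) (.nd (nat_lit 27) 
(.nd (nat_lit 6) (.nd (nat_lit 9) 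
(.lf (nat_lit 537149490) (dlOf (nat_lit 1) (nat_lit 0x20028030d01))) 
(.lf (nat_lit 5905859122) (dlOf (nat_lit 1) (nat_lit 0x4c0008158b01)))) 
(.lf (nat_lit 5905859058) (dlOf (nat_lit 1) (nat_lit 0x120028157d81)))) (.nd (nat_lit 10) 
(.lf (nat_lit 671367218) (dlOf (nat_lit 3) (nat_lit 0x401280a3807c000fc08038003e0002a0200b80018170d01))) 
(.lf (nat_lit 2818858034) (dlOf (nat_lit 1) (nat_lit 0xc6002812bf01)))))) (.nd (nat_lit 6) 
(.nd (nat_lit 23) (.nd (nat_lit 9) 
(.lf (nat_lit 5773213746) (dlOf (nat_lit 6) (nat_lit 0x41310011c01000609f001084c40046e08002c26200223020002131000f681000f0988007ac080068008009c002004800080b0483))) 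
(.lf (nat_lit 1851954) (dlOf (nat_lit 4) (nat_lit 0x30578000640800285d0002415e00040a30000a0300040518000480800380080044002000a0008150f03)))) 
(.nd (nat_lit 20) 
(.lf (nat_lit 13385778) (dlOf (nat_lit 6) (nat_lit 0xbb40000003602049e0000001a0101330000000b80800700000005a04000c0000002b0200260018720f81))) 
(.lf (nat_lit 10240050) (dlOf (nat_lit 1) (nat_lit 0x3c002002c00085c0d02))))) (.nd (nat_lit 7) 
(.lf (nat_lit 135020658) (dlOf (nat_lit 2) (nat_lit 0x54031000fc0181b0080))) 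
(.lf (nat_lit 1851634) (dlOf (nat_lit 1) (nat_lit 0x20018150481)))))) (.nd (nat_lit 6) 
(.nd (nat_lit 29) (.nd (nat_lit 19) (.nd (nat_lit 20) 
(.lf (nat_lit 1074151474) (dlOf (nat_lit 5) (nat_lit 0x6b2029000190102a00148000c00801400a4000804c0002e040136029000168180c0f80))) 
(.lf (nat_lit 9846834) (dlOf (nat_lit 2) (nat_lit 0x2896200016018580380)))) 
(.lf (nat_lit 17711154) (dlOf (nat_lit 1) (nat_lit 0x4004000800088f0f02)))) (.nd (nat_lit 28) 
(.lf (nat_lit 537280562) (dlOf (nat_lit 1) (nat_lit 0xa000800ac00200380008070983))) 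
(.lf (nat_lit 4026941490) (dlOf (nat_lit 2) (nat_lit 0x58020002c0058001f81000480080024002004600080d0b83))))) 
(.nd (nat_lit 7) (.nd (nat_lit 8) 
(.lf (nat_lit 46549618) (dlOf (nat_lit 1) (nat_lit 0x20029385401))) 
(.lf (nat_lit 134627698) (dlOf (nat_lit 2) (nat_lit 0x30c0760074502004e0018090781)))) 
(.nd (nat_lit 8) (.lf (nat_lit 1346781426) (dlOf (nat_lit 1) (nat_lit 0x54004000e0009001e82))) 
(.lf (nat_lit 3491643890) (dlOf (nat_lit 2) (nat_lit 0x340680005e818090d80))))))) (.nd (nat_lit 19) 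
(.nd (nat_lit 6) (.nd (nat_lit 22) (.nd (nat_lit 8) (.nd (nat_lit 10) (.nd (nat_lit 17) 
(.lf (nat_lit 35932722) (dlOf (nat_lit 1) (nat_lit 0x1800200020009015182))) 
(.lf (nat_lit 36063794) (dlOf (nat_lit 1) (nat_lit 0x1800200020009015182)))) 
(.lf (nat_lit 20205106) (dlOf (nat_lit 1) (nat_lit 0x8002004600089d7182)))) (.nd (nat_lit 9) 
(.lf (nat_lit 11944242) (dlOf (nat_lit 1) (nat_lit 0x20008000c002000200086c0503))) 
(.lf (nat_lit 20207410) (dlOf (nat_lit 1) (nat_lit 0xb80080014002000600089da103))))) 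
(.nd (nat_lit 8) (.nd (nat_lit 10) (.nd (nat_lit 20) 
(.lf (nat_lit 6570034) (dlOf (nat_lit 1) (nat_lit 0x1e0028430f01))) 
(.lf (nat_lit 7618610) (dlOf (nat_lit 1) (nat_lit 0x1e00284c0f01)))) 
(.lf (nat_lit 48514098) (dlOf (nat_lit 1) (nat_lit 0x8008000400200020009402883)))) 
(.nd (nat_lit 10) (.lf (nat_lit 23478578) (dlOf (nat_lit 1) (nat_lit 0x8008000400200020008b80503))) 
(.lf (nat_lit 40125746) (dlOf (nat_lit 1) (nat_lit 0x400091f3201)))))) (.nd (nat_lit 24) 
(.nd (nat_lit 8) (.nd (nat_lit 11) 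
(.lf (nat_lit 2375794) (dlOf (nat_lit 2) (nat_lit 0xab60d800920080040008001400200060008150083))) 
(.lf (nat_lit 3493087346) (dlOf (nat_lit 2) (nat_lit 0x80600001c040100004006000180f4782)))) 
(.lf (nat_lit 1881426290) (dlOf (nat_lit 1) (nat_lit 0xa0008f04e81)))) (.nd (nat_lit 7) 
(.lf (nat_lit 20337778) (dlOf (nat_lit 1) (nat_lit 0xc002000600089d9402))) (.nd (nat_lit 8) 
(.lf (nat_lit 19284210) (dlOf (nat_lit 1) (nat_lit 0x8008000400200020008970603))) 
(.lf (nat_lit 23347698) (dlOf (nat_lit 1) (nat_lit 0x100008b80d81))))))) (.nd (nat_lit 20) 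
(.nd (nat_lit 6) (.nd (nat_lit 8) (.nd (nat_lit 23) (.nd (nat_lit 28) 
(.lf (nat_lit 2900018) (dlOf (nat_lit 1) (nat_lit 0x200080004002000400081d0683))) 
(.lf (nat_lit 3492560946) (dlOf (nat_lit 5) (nat_lit 0x5c0fa0004f02002607d0001c0100130f0000c87280030300003217d00020b9800b8510005424600321140018068800101d00005a2800503ce00341710014045000980000002e10001c002004600080e0682)))) 
(.lf (nat_lit 11288626) (dlOf (nat_lit 8) (nat_lit 0x25630000b0100012b180005408001958c0001c040008ac60000c02000256300032af80001810000958c00008040008ac60000002000a0008680e01)))) 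
(.lf (nat_lit 19678002) (dlOf (nat_lit 1) (nat_lit 0x2c00089d2201)))) (.nd (nat_lit 8) 
(.nd (nat_lit 22) (.lf (nat_lit 19808498) (dlOf (nat_lit 1) (nat_lit 0x8008004c002000e00089d0a83))) 
(.lf (nat_lit 7225586) (dlOf (nat_lit 1) (nat_lit 0xc00184b0601)))) 
(.lf (nat_lit 3031538) (dlOf (nat_lit 2) (nat_lit 0x140000005e818200d80))))) (.nd (nat_lit 10) 
(.nd (nat_lit 6) (.nd (nat_lit 17) 
(.lf (nat_lit 29114418) (dlOf (nat_lit 1) (nat_lit 0x18008000400200020008dc0c03))) 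
(.lf (nat_lit 4079666) (dlOf (nat_lit 1) (nat_lit 0x40018280681)))) 
(.lf (nat_lit 33311218) (dlOf (nat_lit 1) (nat_lit 0x40028f54f01)))) (.nd (nat_lit 6) 
(.nd (nat_lit 9) 
(.lf (nat_lit 50086962) (dlOf (nat_lit 3) (nat_lit 0x140e880151302009a74400343a180525c100188008001c002005800094c2883))) 
(.lf (nat_lit 8144434) (dlOf (nat_lit 2) (nat_lit 0x87520000e018513780)))) 
(.lf (nat_lit 1346258418) (dlOf (nat_lit 1) (nat_lit 0x400200020008e83602)))))))) (.nd (nat_lit 29) 
(.nd (nat_lit 28) (.nd (nat_lit 6) (.nd (nat_lit 7) (.nd (nat_lit 17) (.nd (nat_lit 27) 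
(.lf (nat_lit 67387442) (dlOf (nat_lit 3) (nat_lit 0x6300000071c0806c00000037a040610002001400080f0482))) 
(.lf (nat_lit 2349088818) (dlOf (nat_lit 1) (nat_lit 0x280080018002002200080a0a03)))) 
(.lf (nat_lit 3288743986) (dlOf (nat_lit 2) (nat_lit 0x58020002c0058001f81000480080024002004600080d0b83)))) 
(.nd (nat_lit 11) (.lf (nat_lit 201736626) (dlOf (nat_lit 1) (nat_lit 0x1000200100008090782))) 
(.lf (nat_lit 4496574898) (dlOf (nat_lit 1) (nat_lit 0x200180e4e81))))) (.nd (nat_lit 17) 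
(.nd (nat_lit 27) 
(.lf (nat_lit 4362879090) (dlOf (nat_lit 2) (nat_lit 0x2023800100cc0046008000c004000200081a0082))) 
(.lf (nat_lit 202129522) (dlOf (nat_lit 2) (nat_lit 0x54031000f30181b0080)))) (.nd (nat_lit 8) 
(.lf (nat_lit 2349219954) (dlOf (nat_lit 1) (nat_lit 0x3b000800fc002002e00081c1603))) 
(.lf (nat_lit 4362486130) (dlOf (nat_lit 1) (nat_lit 0x8008000400200020008090783)))))) 
(.nd (nat_lit 22) (.nd (nat_lit 27) (.nd (nat_lit 6) (.nd (nat_lit 30) 
(.lf (nat_lit 2483306546) (dlOf (nat_lit 1) (nat_lit 0x280080018002002200080a0a03))) 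
(.lf (nat_lit 1409564722) (dlOf (nat_lit 1) (nat_lit 0x20028030d01)))) 
(.lf (nat_lit 2483437682) (dlOf (nat_lit 1) (nat_lit 0x3b000800fc002002e00081c1603)))) 
(.nd (nat_lit 19) (.nd (nat_lit 30) 
(.lf (nat_lit 470040626) (dlOf (nat_lit 4) (nat_lit 0x50e380058408002871c001b404001438e0009d0200020018030d01))) 
(.lf (nat_lit 1543782450) (dlOf (nat_lit 3) (nat_lit 0x401280a3807c000fc08038003e000240200b80018170d01)))) 
(.lf (nat_lit 470564914) (dlOf (nat_lit 5) (nat_lit 0xf20000001b01005a0000000d00804708c001b444e011c20f000170300c21180061083c0005a080014004001a0008120f82))))) 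
(.nd (nat_lit 6) (.nd (nat_lit 7) 
(.lf (nat_lit 474235954) (dlOf (nat_lit 2) (nat_lit 0x107c001c140800480080008002000600090e2883))) 
(.lf (nat_lit 474236338) (dlOf (nat_lit 1) (nat_lit 0x200190e3601)))) 
(.lf (nat_lit 474235890) (dlOf (nat_lit 1) (nat_lit 0x80080008002000600090e2883)))))) 
(.nd (nat_lit 19) (.nd (nat_lit 8) (.nd (nat_lit 27) (.nd (nat_lit 6) (.nd (nat_lit 7) 
(.lf (nat_lit 1678000178) (dlOf (nat_lit 1) (nat_lit 0x140028130701))) 
(.lf (nat_lit 5167661234) (dlOf (nat_lit 1) (nat_lit 0x800280f1681)))) 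
(.lf (nat_lit 2755936370) (dlOf (nat_lit 4) (nat_lit 0x680f90011801010907c800c83dc003d00801581f2001e602000200281b0081)))) 
(.nd (nat_lit 10) 
(.lf (nat_lit 3154526258) (dlOf (nat_lit 2) (nat_lit 0x3200b00004404031c002002800081f0782))) 
(.lf (nat_lit 1007961138) (dlOf (nat_lit 1) (nat_lit 0x200288c2881))))) (.nd (nat_lit 6) 
(.nd (nat_lit 7) 
(.lf (nat_lit 2885961522) (dlOf (nat_lit 5) (nat_lit 0x2e036001001a00088000000340c002006c00120000000582001901b000480d0006c0000000a060006036000b0000000241001b0008002c002001c0008143d83))) 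
(.nd (nat_lit 10) (.lf (nat_lit 1678131634) (dlOf (nat_lit 1) (nat_lit 0xc002000400081a0782))) 
(.lf (nat_lit 4096148914) (dlOf (nat_lit 1) (nat_lit 0x8004000600080e3602))))) (.nd (nat_lit 7) 
(.lf (nat_lit 4228268402) (dlOf (nat_lit 2) (nat_lit 0x18020001fc0080040008006c002004e0008090783))) 
(.lf (nat_lit 1946436082) (dlOf (nat_lit 2) (nat_lit 0x7c01f0005e818090d80)))))) (.nd (nat_lit 17) 
(.nd (nat_lit 27) (.nd (nat_lit 10) 
(.lf (nat_lit 2754363442) (dlOf (nat_lit 5) (nat_lit 0x5c0f60004f02002607b0001c010013101000c877c0030300003217d00020b9800b8510005424e00321140018061800101d00005a2800503f200341710014043800980000002e10001c002004600080e0682))) 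
(.lf (nat_lit 2752267314) (dlOf (nat_lit 1) (nat_lit 0x10008000400200020008002883)))) 
(.nd (nat_lit 6) (.nd (nat_lit 8) 
(.lf (nat_lit 6377193522) (dlOf (nat_lit 6) (nat_lit 0x41220011c010006098801084880046e08002c2440021f020002122000f681000f0910007ac080068008009c002004800080b0483))) 
(.lf (nat_lit 6376145202) (dlOf (nat_lit 1) (nat_lit 0x400400020008090b02)))) 
(.lf (nat_lit 4228661362) (dlOf (nat_lit 2) (nat_lit 0x2020000100c80049008000c004000200081a0082))))) 
(.nd (nat_lit 7) (.nd (nat_lit 8) 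
(.lf (nat_lit 2752397874) (dlOf (nat_lit 1) (nat_lit 0x1000200080008018b02))) 
(.lf (nat_lit 2755543346) (dlOf (nat_lit 1) (nat_lit 0x8004000200181b0502)))) (.nd (nat_lit 6) 
(.lf (nat_lit 6376278706) (dlOf (nat_lit 1) (nat_lit 0x58004001e0008095702))) 
(.lf (nat_lit 6376276210) (dlOf (nat_lit 1) (nat_lit 0x40028090a81))))))))))) (.nd (nat_lit 17) 
(.nd (nat_lit 5) (.nd (nat_lit 18) (.nd (nat_lit 7) (.nd (nat_lit 26) (.nd (nat_lit 20) 
(.nd (nat_lit 22) (.nd (nat_lit 8) (.nd (nat_lit 6) (.nd (nat_lit 29) 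
(.lf (nat_lit 134823954) (dlOf (nat_lit 1) (nat_lit 0xc0004002800080c0a02))) 
(.lf (nat_lit 3892920338) (dlOf (nat_lit 5) (nat_lit 0x47811c01d8604001008c00e960202ae037000d01b00b00080059403e041a019015200c00ad8028057801200e80000067389000500c003380080e00008062c00201900008290783)))) 
(.lf (nat_lit 2818655314) (dlOf (nat_lit 1) (nat_lit 0x200280d2881)))) (.nd (nat_lit 10) 
(.lf (nat_lit 3087089938) (dlOf (nat_lit 3) (nat_lit 0x7001b000e801002900f8008006c0039c080010004000800080b0482))) 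
(.lf (nat_lit 6039885074) (dlOf (nat_lit 1) (nat_lit 0x4004000a0018009682))))) (.nd (nat_lit 6) 
(.nd (nat_lit 10) (.nd (nat_lit 19) 
(.lf (nat_lit 21053458) (dlOf (nat_lit 1) (nat_lit 0x400200020008a00482))) 
(.lf (nat_lit 21577746) (dlOf (nat_lit 1) (nat_lit 0x400400020018a50282)))) 
(.lf (nat_lit 54610962) (dlOf (nat_lit 7) (nat_lit 0x2f8a8c00054020158546000298100b72a30001480800e151400180000002d0401225460000d8100062a300005c0800a00080100002000a0009655f83)))) 
(.lf (nat_lit 4276562) (dlOf (nat_lit 1) (nat_lit 0xc00400060008290882))))) (.nd (nat_lit 19) 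
(.nd (nat_lit 12) (.nd (nat_lit 22) 
(.lf (nat_lit 3490791442) (dlOf (nat_lit 1) (nat_lit 0x400400040008020482))) 
(.lf (nat_lit 47267858) (dlOf (nat_lit 1) (nat_lit 0x400193c0001)))) (.nd (nat_lit 8) 
(.lf (nat_lit 20010514) (dlOf (nat_lit 1) (nat_lit 0x74002002000089d9c02))) 
(.lf (nat_lit 20011282) (dlOf (nat_lit 1) (nat_lit 0x8004000200189daa82))))) (.nd (nat_lit 6) 
(.nd (nat_lit 9) (.lf (nat_lit 20534546) (dlOf (nat_lit 1) (nat_lit 0x4004000200089d9682))) 
(.lf (nat_lit 60377874) (dlOf (nat_lit 1) (nat_lit 0x20029845b81)))) (.nd (nat_lit 10) 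
(.lf (nat_lit 28917842) (dlOf (nat_lit 1) (nat_lit 0xc00400020018da0282))) 
(.lf (nat_lit 1345930322) (dlOf (nat_lit 1) (nat_lit 0xa0018e22881))))))) (.nd (nat_lit 27) 
(.nd (nat_lit 6) (.nd (nat_lit 9) (.nd (nat_lit 19) 
(.lf (nat_lit 2752593938) (dlOf (nat_lit 1) (nat_lit 0x400400040008020482))) 
(.lf (nat_lit 3557376018) (dlOf (nat_lit 1) (nat_lit 0x800181d0201)))) 
(.lf (nat_lit 4362164754) (dlOf (nat_lit 4) (nat_lit 0x1406600b7d020020033005be01000f019802de40809e000800b8002006c000800b283)))) 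
(.nd (nat_lit 8) 
(.lf (nat_lit 2754166866) (dlOf (nat_lit 3) (nat_lit 0x9c0fc8000b80804307e400058040004004000600080c1902))) 
(.lf (nat_lit 2483110226) (dlOf (nat_lit 1) (nat_lit 0x20018014d01))))) (.nd (nat_lit 8) 
(.nd (nat_lit 9) (.nd (nat_lit 6) 
(.lf (nat_lit 5033249810) (dlOf (nat_lit 2) (nat_lit 0x500360003502000e0018005f81))) 
(.lf (nat_lit 3960029266) (dlOf (nat_lit 5) (nat_lit 0x488114005407e0002e0400f6045000160100170230014810c01140800070038000150400660230000900801300080010002000600081a1903)))) 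
(.nd (nat_lit 12) (.lf (nat_lit 3154201106) (dlOf (nat_lit 1) (nat_lit 0x50004001e0018105082))) 
(.lf (nat_lit 469850642) (dlOf (nat_lit 1) (nat_lit 0x3800800440020042000800b283))))) 
(.nd (nat_lit 6) (.nd (nat_lit 9) 
(.lf (nat_lit 3422639378) (dlOf (nat_lit 1) (nat_lit 0x400200020008009682))) 
(.lf (nat_lit 469849874) (dlOf (nat_lit 3) (nat_lit 0x5111001294080008888009480400040040008000800a002)))) 
(.lf (nat_lit 2348892498) (dlOf (nat_lit 1) (nat_lit 0x8008000400200020008014d83))))))) 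
(.nd (nat_lit 8) (.nd (nat_lit 6) (.nd (nat_lit 10) (.nd (nat_lit 11) 
(.lf (nat_lit 20009618) (dlOf (nat_lit 1) (nat_lit 0x80080008002000200089d8c83))) (.nd (nat_lit 27) 
(.lf (nat_lit 4563487378) (dlOf (nat_lit 2) (nat_lit 0x44000000000200020018095501))) 
(.lf (nat_lit 1208044178) (dlOf (nat_lit 2) (nat_lit 0xb80e40003e04000800400160008095502))))) 
(.nd (nat_lit 12) (.nd (nat_lit 26) 
(.lf (nat_lit 3623962258) (dlOf (nat_lit 1) (nat_lit 0x20018003a81))) 
(.lf (nat_lit 201410194) (dlOf (nat_lit 1) (nat_lit 0x400400080018003a82)))) 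
(.lf (nat_lit 20534930) (dlOf (nat_lit 1) (nat_lit 0x80080cdc002023a00089d9e83))))) 
(.nd (nat_lit 9) (.nd (nat_lit 20) (.nd (nat_lit 10) 
(.lf (nat_lit 536955090) (dlOf (nat_lit 1) (nat_lit 0x18008000800200020008004a03))) 
(.lf (nat_lit 4899030226) (dlOf (nat_lit 1) (nat_lit 0x10008000800200040008052d83)))) 
(.nd (nat_lit 26) (.lf (nat_lit 1345406162) (dlOf (nat_lit 1) (nat_lit 0x13000400080008bb2d82))) 
(.lf (nat_lit 472990930) (dlOf (nat_lit 1) (nat_lit 0x2400400080008bb2d82))))) (.nd (nat_lit 20) 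
(.nd (nat_lit 26) (.lf (nat_lit 1342262994) (dlOf (nat_lit 1) (nat_lit 0x120018007381))) 
(.lf (nat_lit 4227944146) (dlOf (nat_lit 1) (nat_lit 0x60018007381)))) 
(.lf (nat_lit 20008658) (dlOf (nat_lit 1) (nat_lit 0x200089d7381)))))) (.nd (nat_lit 11) 
(.nd (nat_lit 21) (.nd (nat_lit 19) (.nd (nat_lit 26) 
(.lf (nat_lit 4697702866) (dlOf (nat_lit 9) (nat_lit 0x5201a000200c8010c03e00a0015008b0090000742801c807c000380400500680050032006600f80068054007c02601240120000d86006a01a0032007c015402a011e0120000c04005b019801180c801ac03c00a2015008b00900005428018005402280240001404009a0330028019001b00b801b003c01140120000885000200f00003408013800802a400201340008091183))) 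
(.lf (nat_lit 2080457170) (dlOf (nat_lit 9) (nat_lit 0xc072000602600180058000b41800b802c00056040084052003e00c00015020003014800f00300005208000c052003600c000d00580001818005803000008040008052004800c00120058000081800d00a40008050001400c001b00580000020003800803c800205a40008091183)))) 
(.lf (nat_lit 50938322) (dlOf (nat_lit 4) (nat_lit 0x7151800216040038ab200165460008182001100000040408007000801a4002005a00094d7b03)))) 
(.nd (nat_lit 6) (.nd (nat_lit 23) 
(.lf (nat_lit 472991122) (dlOf (nat_lit 1) (nat_lit 0x20028bb3601))) 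
(.lf (nat_lit 61949330) (dlOf (nat_lit 1) (nat_lit 0x20019923601)))) 
(.lf (nat_lit 5774066130) (dlOf (nat_lit 1) (nat_lit 0xc004000c00080f7b02))))) (.nd (nat_lit 19) 
(.nd (nat_lit 6) (.nd (nat_lit 26) 
(.lf (nat_lit 5234575762) (dlOf (nat_lit 1) (nat_lit 0x20008001000200100008054e83))) 
(.lf (nat_lit 3556854162) (dlOf (nat_lit 1) (nat_lit 0x14004000200080d4e82)))) (.nd (nat_lit 9) 
(.lf (nat_lit 2818656722) (dlOf (nat_lit 1) (nat_lit 0x600180d4e81))) 
(.lf (nat_lit 5637229522) (dlOf (nat_lit 8) (nat_lit 0x13e01500a7002802f000c000580c002c00a0002b02004201500240028000a8100098054006c00a0002904000801500100028000141000d0054006000a0000204000a015000e0028000001000f000800d800200020008055d83))))) 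
(.nd (nat_lit 9) (.nd (nat_lit 20) 
(.lf (nat_lit 57231826) (dlOf (nat_lit 3) (nat_lit 0x6cced00af68100016760053f8080010008000c00200080009794e83))) 
(.lf (nat_lit 37308882) (dlOf (nat_lit 1) (nat_lit 0x200190d4e81)))) 
(.lf (nat_lit 20532178) (dlOf (nat_lit 1) (nat_lit 0x8002000200089d5d82)))))))) (.nd (nat_lit 28) 
(.nd (nat_lit 19) (.nd (nat_lit 26) (.nd (nat_lit 6) (.nd (nat_lit 20) (.nd (nat_lit 27) 
(.lf (nat_lit 3221569554) (dlOf (nat_lit 1) (nat_lit 0x20018140481))) 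
(.lf (nat_lit 3892658194) (dlOf (nat_lit 2) (nat_lit 0x158144003cc0400f000400b00008180082)))) 
(.nd (nat_lit 10) (.nd (nat_lit 23) 
(.lf (nat_lit 37044242) (dlOf (nat_lit 1) (nat_lit 0x20019080401))) 
(.lf (nat_lit 62210066) (dlOf (nat_lit 1) (nat_lit 0x62400202380009970182)))) 
(.lf (nat_lit 51725330) (dlOf (nat_lit 1) (nat_lit 0x20019512881))))) (.nd (nat_lit 24) 
(.nd (nat_lit 7) (.lf (nat_lit 5905924178) (dlOf (nat_lit 1) (nat_lit 0x160018160901))) 
(.lf (nat_lit 1208303826) (dlOf (nat_lit 1) (nat_lit 0x4004005400080c1b82)))) (.nd (nat_lit 8) 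
(.lf (nat_lit 25510098) (dlOf (nat_lit 2) (nat_lit 0x1160c8000740802c0008000c002000a0008c10503))) 
(.lf (nat_lit 58016210) (dlOf (nat_lit 1) (nat_lit 0x200297a7b01)))))) (.nd (nat_lit 29) 
(.nd (nat_lit 6) (.nd (nat_lit 30) 
(.lf (nat_lit 4362420242) (dlOf (nat_lit 2) (nat_lit 0xe03300000018070500))) 
(.lf (nat_lit 3288678418) (dlOf (nat_lit 1) (nat_lit 0x800080c0a01)))) 
(.lf (nat_lit 6509903954) (dlOf (nat_lit 1) (nat_lit 0x160018160901)))) (.nd (nat_lit 7) 
(.nd (nat_lit 27) 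
(.lf (nat_lit 604323858) (dlOf (nat_lit 7) (nat_lit 0xe20000002f81003c0000001780801380000006004001c0720002702000203c000201c8000781000080fc00006040074004002e0018160202))) 
(.lf (nat_lit 3959767058) (dlOf (nat_lit 1) (nat_lit 0x20018140481)))) 
(.lf (nat_lit 738541714) (dlOf (nat_lit 1) (nat_lit 0x1800280a2801)))))) (.nd (nat_lit 6) 
(.nd (nat_lit 23) (.nd (nat_lit 7) (.nd (nat_lit 21) 
(.lf (nat_lit 21839890) (dlOf (nat_lit 1) (nat_lit 0x800400360008a70482))) 
(.lf (nat_lit 2754428946) (dlOf (nat_lit 1) (nat_lit 0x164004002400080e0182)))) 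
(.lf (nat_lit 19748498) (dlOf (nat_lit 1) (nat_lit 0x13e00189d9e81)))) (.nd (nat_lit 9) 
(.nd (nat_lit 20) 
(.lf (nat_lit 28131346) (dlOf (nat_lit 1) (nat_lit 0x28008000c002000a0008d60203))) 
(.lf (nat_lit 27082770) (dlOf (nat_lit 1) (nat_lit 0x400200020008ca0482)))) 
(.lf (nat_lit 12403218) (dlOf (nat_lit 1) (nat_lit 0x600286c0d81))))) (.nd (nat_lit 8) 
(.nd (nat_lit 7) (.lf (nat_lit 13451346) (dlOf (nat_lit 1) (nat_lit 0x840018721901))) 
(.lf (nat_lit 19746514) (dlOf (nat_lit 1) (nat_lit 0xe400189d7381)))) (.nd (nat_lit 9) 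
(.lf (nat_lit 8209874) (dlOf (nat_lit 1) (nat_lit 0x400200020008513602))) 
(.lf (nat_lit 19745746) (dlOf (nat_lit 1) (nat_lit 0x4002000200089d5d82))))))) (.nd (nat_lit 27) 
(.nd (nat_lit 6) (.nd (nat_lit 21) (.nd (nat_lit 7) (.nd (nat_lit 10) 
(.lf (nat_lit 5704597522) (dlOf (nat_lit 1) (nat_lit 0x400400020008110182))) 
(.lf (nat_lit 1879923730) (dlOf (nat_lit 1) (nat_lit 0x80080004002000200083dbf03)))) 
(.lf (nat_lit 3490007442) (dlOf (nat_lit 1) (nat_lit 0xc00200020008004e82)))) (.nd (nat_lit 20) 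
(.nd (nat_lit 26) (.lf (nat_lit 3492626450) (dlOf (nat_lit 1) (nat_lit 0x164004002400080e0182))) 
(.lf (nat_lit 4096606226) (dlOf (nat_lit 2) (nat_lit 0x40d0007320200020008140a01)))) 
(.lf (nat_lit 3493675026) (dlOf (nat_lit 1) (nat_lit 0xa00281a0401))))) (.nd (nat_lit 29) 
(.nd (nat_lit 19) (.lf (nat_lit 4563746898) (dlOf (nat_lit 1) (nat_lit 0x78004000200080d0502))) 
(.lf (nat_lit 1346191442) (dlOf (nat_lit 1) (nat_lit 0x1000400020008e60782)))) (.nd (nat_lit 7) 
(.nd (nat_lit 30) 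
(.lf (nat_lit 2953134162) (dlOf (nat_lit 4) (nat_lit 0x201c0000281000100e00008010000080800300380000102000c0008160281))) 
(.lf (nat_lit 4026875986) (dlOf (nat_lit 1) (nat_lit 0x10004000e00080c1902)))) 
(.lf (nat_lit 6241468626) (dlOf (nat_lit 1) (nat_lit 0xe8008013000200a600080f1b83)))))) 
(.nd (nat_lit 30) (.nd (nat_lit 6) (.nd (nat_lit 20) (.nd (nat_lit 22) 
(.lf (nat_lit 3154460690) (dlOf (nat_lit 1) (nat_lit 0x170008007000200a600081a0083))) 
(.lf (nat_lit 474300434) (dlOf (nat_lit 2) (nat_lit 0x9046400066040034002000a0009130182)))) 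
(.lf (nat_lit 471154706) (dlOf (nat_lit 3) (nat_lit 0x70b580017c080158000000bc040090004000c00082a0202)))) 
(.nd (nat_lit 26) (.lf (nat_lit 4697964626) (dlOf (nat_lit 1) (nat_lit 0x78004000200080d0502))) 
(.lf (nat_lit 3154460754) (dlOf (nat_lit 2) (nat_lit 0x3f806e0002036001000c802c80600005a100028004001a00081a0782))))) 
(.nd (nat_lit 6) (.nd (nat_lit 8) (.nd (nat_lit 26) 
(.lf (nat_lit 1476739090) (dlOf (nat_lit 3) (nat_lit 0x4007800060360001682000501e000018080150008001c002001e0008160203))) 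
(.lf (nat_lit 4228202514) (dlOf (nat_lit 2) (nat_lit 0xe03200000018070500)))) 
(.lf (nat_lit 5771709202) (dlOf (nat_lit 1) (nat_lit 0xa0008005400200220008005b83)))) 
(.nd (nat_lit 7) 
(.lf (nat_lit 3691331666) (dlOf (nat_lit 4) (nat_lit 0x201d0000281000100e800080100000808003003a0000102000c0008160281))) 
(.lf (nat_lit 5773279442) (dlOf (nat_lit 1) (nat_lit 0x1200280c1881))))))))) (.nd (nat_lit 18) 
(.nd (nat_lit 6) (.nd (nat_lit 26) (.nd (nat_lit 10) (.nd (nat_lit 19) (.nd (nat_lit 9) 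
(.nd (nat_lit 8) 
(.lf (nat_lit 1343307826) (dlOf (nat_lit 5) (nat_lit 0x1eb04bc0004a04035c25e000230207c412f0001101008b0978000800802600080368002046200081e0783))) 
(.lf (nat_lit 3493937458) (dlOf (nat_lit 2) (nat_lit 0x101a80004404008c002001200081b0502)))) 
(.nd (nat_lit 7) (.lf (nat_lit 32590386) (dlOf (nat_lit 1) (nat_lit 0x20028ef5181))) 
(.lf (nat_lit 4563487410) (dlOf (nat_lit 2) (nat_lit 0x680480005204009800400fa0008095702))))) 
(.nd (nat_lit 29) (.nd (nat_lit 9) 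
(.lf (nat_lit 3221831730) (dlOf (nat_lit 1) (nat_lit 0x200181a0f01))) 
(.lf (nat_lit 60377650) (dlOf (nat_lit 1) (nat_lit 0x18008000400200060009845183)))) 
(.nd (nat_lit 27) (.nd (nat_lit 30) 
(.lf (nat_lit 537477170) (dlOf (nat_lit 3) (nat_lit 0xe902c80004c0805e01640002404015400200d200080a0a02))) 
(.lf (nat_lit 1611218994) (dlOf (nat_lit 1) (nat_lit 0x400400020008110602)))) 
(.lf (nat_lit 3892920370) (dlOf (nat_lit 2) (nat_lit 0x901680000004002c004003c0008290f02)))))) 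
(.nd (nat_lit 20) (.nd (nat_lit 8) (.nd (nat_lit 11) 
(.lf (nat_lit 6308316722) (dlOf (nat_lit 7) (nat_lit 0x50036002601900030058000b018002006c0068032002400b0001503000300d8001802c00008080014036002a019001800580000c18006006c0020032001c00b0000103000400580000008064000800b8002000a0008053783))) 
(.lf (nat_lit 1342262834) (dlOf (nat_lit 1) (nat_lit 0x70004002c0008007182)))) (.nd (nat_lit 7) 
(.lf (nat_lit 536954674) (dlOf (nat_lit 1) (nat_lit 0x600080030002000e0008003d83))) 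
(.lf (nat_lit 53036466) (dlOf (nat_lit 1) (nat_lit 0x20019573601))))) (.nd (nat_lit 22) 
(.nd (nat_lit 7) (.lf (nat_lit 61948978) (dlOf (nat_lit 1) (nat_lit 0x800400020009922882))) 
(.lf (nat_lit 61949362) (dlOf (nat_lit 1) (nat_lit 0x800200020009923602)))) (.nd (nat_lit 21) 
(.lf (nat_lit 55657522) (dlOf (nat_lit 1) (nat_lit 0x1a00196d2881))) 
(.lf (nat_lit 32588850) (dlOf (nat_lit 1) (nat_lit 0x10002001c0008ef2882))))))) (.nd (nat_lit 29) 
(.nd (nat_lit 9) (.nd (nat_lit 8) (.nd (nat_lit 27) 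
(.lf (nat_lit 1409892402) (dlOf (nat_lit 3) (nat_lit 0xe902c8000a80805e01640005204015400200d200080a0a02))) 
(.lf (nat_lit 201932850) (dlOf (nat_lit 2) (nat_lit 0x23803b01cb01b00af805c0005a0c00dc004000200180c0f82)))) 
(.lf (nat_lit 5435900210) (dlOf (nat_lit 1) (nat_lit 0x40028015b81)))) (.nd (nat_lit 28) 
(.nd (nat_lit 10) (.lf (nat_lit 2348892722) (dlOf (nat_lit 1) (nat_lit 0x20018018b01))) 
(.lf (nat_lit 4496377394) (dlOf (nat_lit 9) (nat_lit 0xa8070008c036002a01a001200c0000702000f80700094036001401a000e00c0002002c00036140084038007e01b001700d001580600078016000180a006801a0000a81000300d00004c0800c8068000220400040340000f02003801a0002005000000100058008003400200480008053783)))) 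
(.nd (nat_lit 8) (.lf (nat_lit 2617333298) (dlOf (nat_lit 1) (nat_lit 0x8004000400080a9c02))) 
(.lf (nat_lit 469845810) (dlOf (nat_lit 1) (nat_lit 0x15000200040008003d82)))))) (.nd (nat_lit 19) 
(.nd (nat_lit 7) (.nd (nat_lit 8) 
(.lf (nat_lit 3154199602) (dlOf (nat_lit 2) (nat_lit 0xa04700a57018102880))) 
(.lf (nat_lit 2755739954) (dlOf (nat_lit 1) (nat_lit 0x400081b0501)))) 
(.lf (nat_lit 738282162) (dlOf (nat_lit 1) (nat_lit 0x4004002a0008095702)))) (.nd (nat_lit 21) 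
(.nd (nat_lit 30) (.lf (nat_lit 738803762) (dlOf (nat_lit 1) (nat_lit 0x400400020008110602))) 
(.lf (nat_lit 3960029234) (dlOf (nat_lit 5) (nat_lit 0x1bc0000002702001e0000001301006d0000000900802200000004404001c002001200081a0f82)))) 
(.lf (nat_lit 2754166834) (dlOf (nat_lit 3) (nat_lit 0x7e07d401e824e0002e04000224c016e10780cf87d4027c3be01381b401390ab00bc049c0005a1c004c004003600180c0f82))))))) 
(.nd (nat_lit 28) (.nd (nat_lit 20) (.nd (nat_lit 27) (.nd (nat_lit 7) (.nd (nat_lit 19) 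
(.lf (nat_lit 3825287282) (dlOf (nat_lit 19) (nat_lit 0x4f010001d0060002be080b10048075c02003f800e803c00700ed4032075c018023000780108038002ba2000ec048075402003f400e81d800640eb0030015c00f0010007000570380b080900f0804007ec01d001300e01d900640ef8030045e00f002200700056440010808000bc03a002a019000ac0304090100223807410140320804018000ab8400020100005580800300800029004004c04000145020064020002900c800e0060002840c00ec040003c018000a08200170100004f80810c008004e80300013d0400c4020002000e00120060002780c025804000a401c006700c802f00600027410072c04002100180009c020005010000f80740026e0800b4040005601d001700c0004d41800e800802c4002015600080b0083))) 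
(.lf (nat_lit 537477234) (dlOf (nat_lit 1) (nat_lit 0x234004008600080a1602)))) 
(.lf (nat_lit 18956530) (dlOf (nat_lit 1) (nat_lit 0x1c8008000400200340008970603)))) 
(.nd (nat_lit 7) (.nd (nat_lit 9) 
(.lf (nat_lit 2818655346) (dlOf (nat_lit 1) (nat_lit 0xc004000200080d2a02))) 
(.lf (nat_lit 1208044146) (dlOf (nat_lit 1) (nat_lit 0x8008000c00200020008095403)))) 
(.lf (nat_lit 1744912626) (dlOf (nat_lit 1) (nat_lit 0x1000801fc002006a0008090a83))))) 
(.nd (nat_lit 7) (.nd (nat_lit 12) (.nd (nat_lit 19) 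
(.lf (nat_lit 3227762) (dlOf (nat_lit 1) (nat_lit 0x20028200081))) 
(.lf (nat_lit 45695090) (dlOf (nat_lit 1) (nat_lit 0x8008000400200020009352503)))) 
(.lf (nat_lit 20009074) (dlOf (nat_lit 1) (nat_lit 0x80080010002000200089d7d83)))) (.nd (nat_lit 8) 
(.lf (nat_lit 57756402) (dlOf (nat_lit 2) (nat_lit 0x32f48000a8080008008000400200040009795a03))) 
(.lf (nat_lit 61948914) (dlOf (nat_lit 1) (nat_lit 0x8008000400200020009922883)))))) 
(.nd (nat_lit 7) (.nd (nat_lit 8) (.nd (nat_lit 10) (.nd (nat_lit 19) 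
(.lf (nat_lit 3087089778) (dlOf (nat_lit 19) (nat_lit 0x4f010001d0060002b4080b10048075c02003f800e803c00700ed4032075c018023000780108038002b02000ec048075402003f400e81d800640eb0030015c00f001000700055c380b080900f0804007ec01d001300e01d900640ef8030045e00f002200700055040010808000bc03a002a019000a98304090100223807410140320804018000a90400020100005440800300800029004004c04000145020064020002900c800e0060002840c00ec040003c018000a08200170100004f80810c008004e80300013d0400c4020002000e00120060002780c025804000a401c006700c802f00600027410072c04002100180009c020005010000f80740026e0800b4040005601d001700c0004d41800e800802c4002015600080b0083))) 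
(.lf (nat_lit 1409892466) (dlOf (nat_lit 1) (nat_lit 0x234004008600080a1602)))) 
(.lf (nat_lit 1543588978) (dlOf (nat_lit 1) (nat_lit 0x1400400020008146082)))) (.nd (nat_lit 26) 
(.lf (nat_lit 4697702770) (dlOf (nat_lit 1) (nat_lit 0x100008004c00200f80008091003))) 
(.lf (nat_lit 2080457074) (dlOf (nat_lit 1) (nat_lit 0xb80080004002005e0008091003))))) 
(.nd (nat_lit 8) (.nd (nat_lit 11) (.nd (nat_lit 12) 
(.lf (nat_lit 474562802) (dlOf (nat_lit 1) (nat_lit 0x54004000e00091a1e82))) 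
(.lf (nat_lit 1342263538) (dlOf (nat_lit 1) (nat_lit 0x60018008081)))) 
(.lf (nat_lit 1342265586) (dlOf (nat_lit 1) (nat_lit 0x14004001a000800a902)))) (.nd (nat_lit 9) 
(.nd (nat_lit 11) (.lf (nat_lit 3491316210) (dlOf (nat_lit 2) (nat_lit 0x2622d0005e818090d80))) 
(.lf (nat_lit 3556854258) (dlOf (nat_lit 1) (nat_lit 0x4004000200080d4f02)))) 
(.lf (nat_lit 472990706) (dlOf (nat_lit 1) (nat_lit 0x20028bb2881)))))))) (.nd (nat_lit 28) 
(.nd (nat_lit 21) (.nd (nat_lit 29) (.nd (nat_lit 26) (.nd (nat_lit 23) (.nd (nat_lit 27) 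
(.lf (nat_lit 3221569586) (dlOf (nat_lit 1) (nat_lit 0x118008007800200300008140683))) 
(.lf (nat_lit 3355787314) (dlOf (nat_lit 1) (nat_lit 0x190008007400200220008110783)))) 
(.nd (nat_lit 6) 
(.lf (nat_lit 13451314) (dlOf (nat_lit 6) (nat_lit 0x6121af02b60d6815e80d4007c06601ee0110295007017500000006c1c0b4435e052c1ad029a01a8156800000068100108bc202d81af01aa0b700c4834406241960372035008a00600b880000005c20036035e01dc16e00410688023032c011806a003400c00e40000000b43800200000005604002400400220018720f82))) 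
(.lf (nat_lit 42288114) (dlOf (nat_lit 1) (nat_lit 0x400400020009242882))))) (.nd (nat_lit 27) 
(.nd (nat_lit 31) 
(.lf (nat_lit 67452978) (dlOf (nat_lit 2) (nat_lit 0x1900000004a04016800200700008140782))) 
(.lf (nat_lit 6509903922) (dlOf (nat_lit 1) (nat_lit 0x4800800b0002001a0008160603)))) 
(.lf (nat_lit 2349154354) (dlOf (nat_lit 2) (nat_lit 0x800780010c0800880080024002002600080e0683))))) 
(.nd (nat_lit 27) (.nd (nat_lit 26) (.nd (nat_lit 30) 
(.lf (nat_lit 537215026) (dlOf (nat_lit 1) (nat_lit 0x20028060681))) 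
(.lf (nat_lit 5905924146) (dlOf (nat_lit 1) (nat_lit 0x4800800b0002001a0008160603)))) 
(.lf (nat_lit 1678065714) (dlOf (nat_lit 1) (nat_lit 0x400400020018160682)))) (.nd (nat_lit 26) 
(.nd (nat_lit 30) 
(.lf (nat_lit 2818916402) (dlOf (nat_lit 3) (nat_lit 0x4c0d4000403f002a3020014035001514080020008006c00200020008130003))) 
(.lf (nat_lit 3892658226) (dlOf (nat_lit 4) (nat_lit 0x10e01b808900d80038e0804d006e031c036000e282017401b8006f40803b0008000800200500008180483)))) 
(.lf (nat_lit 3959767090) (dlOf (nat_lit 1) (nat_lit 0x118008007800200300008140683)))))) 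
(.nd (nat_lit 6) (.nd (nat_lit 9) (.nd (nat_lit 8) (.nd (nat_lit 10) 
(.lf (nat_lit 2754428978) (dlOf (nat_lit 1) (nat_lit 0x80080004002000200080e0683))) 
(.lf (nat_lit 35996722) (dlOf (nat_lit 1) (nat_lit 0x8008001400200020009012883)))) 
(.lf (nat_lit 19746098) (dlOf (nat_lit 1) (nat_lit 0x2e00189d6881)))) (.nd (nat_lit 7) 
(.nd (nat_lit 20) (.lf (nat_lit 35998258) (dlOf (nat_lit 1) (nat_lit 0x1c00200020009015182))) 
(.lf (nat_lit 45435442) (dlOf (nat_lit 3) (nat_lit 0x867500023008025b3a80011604000800400040019325182)))) 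
(.lf (nat_lit 8209074) (dlOf (nat_lit 1) (nat_lit 0x20018511d81))))) (.nd (nat_lit 20) 
(.nd (nat_lit 8) (.lf (nat_lit 19218674) (dlOf (nat_lit 1) (nat_lit 0x4002000a0008970602))) 
(.lf (nat_lit 23413234) (dlOf (nat_lit 1) (nat_lit 0x8008000400200020008b80d83)))) (.nd (nat_lit 7) 
(.lf (nat_lit 3489906) (dlOf (nat_lit 2) (nat_lit 0x7cd38001e60200020018200081))) 
(.lf (nat_lit 20272370) (dlOf (nat_lit 1) (nat_lit 0x200089d9501))))))) (.nd (nat_lit 26) 
(.nd (nat_lit 8) (.nd (nat_lit 29) (.nd (nat_lit 7) (.nd (nat_lit 19) 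
(.lf (nat_lit 2416263218) (dlOf (nat_lit 1) (nat_lit 0xa00280c0f81))) 
(.lf (nat_lit 3492626482) (dlOf (nat_lit 1) (nat_lit 0x80080004002000200080e0683)))) 
(.lf (nat_lit 5637488818) (dlOf (nat_lit 1) (nat_lit 0xa0004000200180f1682)))) (.nd (nat_lit 30) 
(.lf (nat_lit 805650482) (dlOf (nat_lit 1) (nat_lit 0x400400020018160682))) 
(.lf (nat_lit 4026875954) (dlOf (nat_lit 8) (nat_lit 0x19007e053c0330d44017024300a014e804e07e001e0001b06079b0170000d40868580b814b004e011a01e0001a0305450170000cc081e880b4097804c002801e00d1009005c80440005c140d8405a053202600a20088000b41802f80b40005604000c004004200080c0f82))))) 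
(.nd (nat_lit 6) (.nd (nat_lit 7) 
(.lf (nat_lit 5773804850) (dlOf (nat_lit 1) (nat_lit 0x2000280e3201))) 
(.lf (nat_lit 3490007474) (dlOf (nat_lit 1) (nat_lit 0x20018004e81)))) (.nd (nat_lit 11) 
(.nd (nat_lit 27) 
(.lf (nat_lit 5637489010) (dlOf (nat_lit 1) (nat_lit 0x1080080138002006600080f5803))) 
(.lf (nat_lit 5234835826) (dlOf (nat_lit 1) (nat_lit 0x200180f5801)))) 
(.lf (nat_lit 3490007410) (dlOf (nat_lit 1) (nat_lit 0x20008004e81)))))) (.nd (nat_lit 29) 
(.nd (nat_lit 20) (.nd (nat_lit 27) (.nd (nat_lit 30) 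
(.lf (nat_lit 2483372082) (dlOf (nat_lit 2) (nat_lit 0x800780010c0800880080024002002600080e0683))) 
(.lf (nat_lit 1409630258) (dlOf (nat_lit 1) (nat_lit 0x20028060681)))) 
(.lf (nat_lit 2617589810) (dlOf (nat_lit 1) (nat_lit 0x38002003a0008100e02)))) (.nd (nat_lit 9) 
(.lf (nat_lit 473252914) (dlOf (nat_lit 1) (nat_lit 0x8008008c00200020008e32883))) 
(.lf (nat_lit 473254450) (dlOf (nat_lit 2) (nat_lit 0x208400045818e35180))))) (.nd (nat_lit 30) 
(.nd (nat_lit 31) (.lf (nat_lit 1006977074) (dlOf (nat_lit 2) (nat_lit 0x4960000001b018120f80))) 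
(.lf (nat_lit 3154460722) (dlOf (nat_lit 4) (nat_lit 0x4c015c039406e00f4036008a0100043807c02240320122018000700500071c4006a815c03a406e022a03600d00100068007c033c03201b2018000e287001402b805500dc00100400006019000b00c001480280037a180b38004005400181a0482)))) 
(.nd (nat_lit 6) 
(.lf (nat_lit 4228202546) (dlOf (nat_lit 2) (nat_lit 0x14580c8000220401cc00400a20018070982))) 
(.lf (nat_lit 6241468786) (dlOf (nat_lit 1) (nat_lit 0x1080080138002006600080f5803)))))))))) 
(.nd (nat_lit 30) (.nd (nat_lit 18) (.nd (nat_lit 23) (.nd (nat_lit 29) (.nd (nat_lit 5) 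
(.nd (nat_lit 24) (.nd (nat_lit 7) (.nd (nat_lit 8) 
(.lf (nat_lit 5455890) (dlOf (nat_lit 1) (nat_lit 0x400200040008370202))) 
(.lf (nat_lit 2281915154) (dlOf (nat_lit 1) (nat_lit 0xc00280a2101)))) (.nd (nat_lit 8) 
(.nd (nat_lit 26) 
(.lf (nat_lit 2281919634) (dlOf (nat_lit 1) (nat_lit 0x180080004002000400080a9503))) 
(.lf (nat_lit 2214810770) (dlOf (nat_lit 1) (nat_lit 0x2200080070002004c00080a9503)))) 
(.lf (nat_lit 474169746) (dlOf (nat_lit 1) (nat_lit 0x620008032400200b600090e1003))))) 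
(.nd (nat_lit 6) (.nd (nat_lit 7) (.nd (nat_lit 19) 
(.lf (nat_lit 52641810) (dlOf (nat_lit 1) (nat_lit 0x880080008002001a0009560383))) 
(.lf (nat_lit 21708818) (dlOf (nat_lit 5) (nat_lit 0x9daa0004ed4000d7698004fb480031d9e0003ea18035483003376a80197b500057da6002bed2000e7678005ba8600d510c00c3daa0058ed40012f6980083b48000dd43006a7850014de300336808035000800c0002006a0008a60a03)))) 
(.lf (nat_lit 53167506) (dlOf (nat_lit 1) (nat_lit 0x18008000c00200040009573603)))) 
(.nd (nat_lit 8) (.lf (nat_lit 20136018) (dlOf (nat_lit 1) (nat_lit 0x4002000200089d0002))) 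
(.lf (nat_lit 23282002) (dlOf (nat_lit 2) (nat_lit 0x12f50000a804000400200020008b80682)))))) 
(.nd (nat_lit 6) (.nd (nat_lit 20) (.nd (nat_lit 7) 
(.lf (nat_lit 23282226) (dlOf (nat_lit 1) (nat_lit 0xa0008b80f01))) 
(.lf (nat_lit 268650930) (dlOf (nat_lit 1) (nat_lit 0xc00180e4e81)))) (.nd (nat_lit 19) 
(.lf (nat_lit 36915762) (dlOf (nat_lit 1) (nat_lit 0x800200020009075182))) 
(.lf (nat_lit 39537202) (dlOf (nat_lit 1) (nat_lit 0x13000200080009195182))))) (.nd (nat_lit 8) 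
(.nd (nat_lit 9) (.lf (nat_lit 402867442) (dlOf (nat_lit 1) (nat_lit 0x20028092e81))) 
(.lf (nat_lit 69946098) (dlOf (nat_lit 1) (nat_lit 0xc00200060008e15a02)))) (.nd (nat_lit 7) 
(.lf (nat_lit 268650866) (dlOf (nat_lit 1) (nat_lit 0x300080020002000600080e4e83))) 
(.lf (nat_lit 2550350322) (dlOf (nat_lit 1) (nat_lit 0x1800400020008090d82))))))) (.nd (nat_lit 26) 
(.nd (nat_lit 27) (.nd (nat_lit 19) (.nd (nat_lit 8) 
(.lf (nat_lit 2953003026) (dlOf (nat_lit 1) (nat_lit 0x1400200880008080482))) 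
(.lf (nat_lit 2684568338) (dlOf (nat_lit 1) (nat_lit 0x200280a2101)))) (.nd (nat_lit 6) 
(.lf (nat_lit 537608210) (dlOf (nat_lit 3) (nat_lit 0x300e4005206900ab02a0028011400d405c000202b007b0000076a83800381c801a00a8006204500070170002805c008400001da80c008400180d0881))) 
(.lf (nat_lit 537608274) (dlOf (nat_lit 2) (nat_lit 0x45e054022e0228000a41000a00080060002004c00080d0d83))))) 
(.nd (nat_lit 5) (.nd (nat_lit 6) (.nd (nat_lit 19) 
(.lf (nat_lit 939737106) (dlOf (nat_lit 1) (nat_lit 0x1400400380008160482))) 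
(.lf (nat_lit 2819309586) (dlOf (nat_lit 22) (nat_lit 0x701a00017c0800201bc000bc0400100de00280340002e8200040390001600800481c800200bc002404b000d01f8001542000181c8000c0bc0005404000a07200030350002018400080bc001204b000601f8001483000101c8000c0d4000e05e0008025800300fc000a21400180e4000c05e000d025800180fc0009610000c0d2000a05d00021020005034800401740007e0800140de000405b000801e000080d40014068000802c000401100020060000662000080de001205b000801e000280d0000641000200de001005b000d01e000480d0000621000140de000805f000502d800201000024078000e036000301a800080d000500440006018000180a000401a0000280800200d0000120400040dc000c05a00004020006037000481680000e0800040de000603400001820004037800180d00000208004800200020008230402)))) 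
(.lf (nat_lit 2818792402) (dlOf (nat_lit 2) (nat_lit 0x4302100131c0802e800800f0002005c000812bf03)))) 
(.nd (nat_lit 8) 
(.lf (nat_lit 939737138) (dlOf (nat_lit 2) (nat_lit 0x2d00e0002a008039800800c400200300008160603))) 
(.lf (nat_lit 671303474) (dlOf (nat_lit 6) (nat_lit 0xc01f000c0098000701000a00b800a005a005200c0000d830036017000e80a0001403e0034013002c006000e801c007c0000001a0e000802e0000c01000700980002c0801680080020002001a0008143d83)))))) 
(.nd (nat_lit 20) (.nd (nat_lit 7) (.nd (nat_lit 9) 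
(.lf (nat_lit 604192786) (dlOf (nat_lit 1) (nat_lit 0x4002001a0008080482))) 
(.lf (nat_lit 2753774098) (dlOf (nat_lit 1) (nat_lit 0xc00200040008090d82)))) (.nd (nat_lit 5) 
(.lf (nat_lit 872629458) (dlOf (nat_lit 1) (nat_lit 0x460028092d81))) 
(.lf (nat_lit 2751678386) (dlOf (nat_lit 1) (nat_lit 0x400400020008004382))))) (.nd (nat_lit 5) 
(.nd (nat_lit 19) (.lf (nat_lit 2752725010) (dlOf (nat_lit 1) (nat_lit 0x60028030881))) 
(.lf (nat_lit 2755346450) (dlOf (nat_lit 1) (nat_lit 0x400200020008160302)))) 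
(.lf (nat_lit 2752725042) (dlOf (nat_lit 1) (nat_lit 0x18008001000200040008030d03))))))) 
(.nd (nat_lit 24) (.nd (nat_lit 6) (.nd (nat_lit 19) (.nd (nat_lit 9) 
(.lf (nat_lit 10698770) (dlOf (nat_lit 1) (nat_lit 0x400200040008610302))) 
(.lf (nat_lit 8607250) (dlOf (nat_lit 1) (nat_lit 0x4800200100008519c02)))) (.nd (nat_lit 5) 
(.nd (nat_lit 20) (.lf (nat_lit 11223058) (dlOf (nat_lit 1) (nat_lit 0xc0008670181))) 
(.lf (nat_lit 16465938) (dlOf (nat_lit 1) (nat_lit 0x40004000800188a0202)))) 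
(.lf (nat_lit 13320242) (dlOf (nat_lit 3) (nat_lit 0x67c600033de98001c70400cc0000003608009dd1f001ce2f0022eb2001140000002d08000a0018720f81))))) 
(.nd (nat_lit 19) (.nd (nat_lit 5) 
(.lf (nat_lit 9650514) (dlOf (nat_lit 1) (nat_lit 0x10008000c00200100008574d83))) 
(.lf (nat_lit 44253298) (dlOf (nat_lit 1) (nat_lit 0x200292e0d81)))) (.nd (nat_lit 7) 
(.lf (nat_lit 45826130) (dlOf (nat_lit 2) (nat_lit 0x760300004819360780))) 
(.lf (nat_lit 43730130) (dlOf (nat_lit 1) (nat_lit 0x80080004002000200092a2d83)))))) 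
(.nd (nat_lit 25) (.nd (nat_lit 5) (.nd (nat_lit 6) (.nd (nat_lit 20) 
(.lf (nat_lit 25378834) (dlOf (nat_lit 1) (nat_lit 0x34e0008c00181))) 
(.lf (nat_lit 30621714) (dlOf (nat_lit 1) (nat_lit 0x20008e40781)))) 
(.lf (nat_lit 25903442) (dlOf (nat_lit 1) (nat_lit 0x400400260008c10882)))) (.nd (nat_lit 20) 
(.lf (nat_lit 25378866) (dlOf (nat_lit 1) (nat_lit 0xe0002001c0008c00682))) 
(.lf (nat_lit 30621746) (dlOf (nat_lit 1) (nat_lit 0xe0018e40f01))))) (.nd (nat_lit 7) 
(.nd (nat_lit 5) (.lf (nat_lit 59984914) (dlOf (nat_lit 1) (nat_lit 0xc00200060009845f82))) 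
(.lf (nat_lit 58935858) (dlOf (nat_lit 1) (nat_lit 0x2200197e5181)))) (.nd (nat_lit 6) 
(.lf (nat_lit 61031570) (dlOf (nat_lit 1) (nat_lit 0x4c00298c2b81))) 
(.lf (nat_lit 61555922) (dlOf (nat_lit 1) (nat_lit 0x1800400020009922d82)))))))) (.nd (nat_lit 6) 
(.nd (nat_lit 20) (.nd (nat_lit 22) (.nd (nat_lit 19) (.nd (nat_lit 5) (.nd (nat_lit 7) 
(.lf (nat_lit 2751939602) (dlOf (nat_lit 1) (nat_lit 0x400200020008002882))) 
(.lf (nat_lit 476818) (dlOf (nat_lit 1) (nat_lit 0x580008003a81)))) 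
(.lf (nat_lit 738672690) (dlOf (nat_lit 4) (nat_lit 0x4a00820148040003b0180000801800081000003e0400100800001e0201c800080d0381)))) 
(.nd (nat_lit 5) (.nd (nat_lit 7) 
(.lf (nat_lit 11485202) (dlOf (nat_lit 1) (nat_lit 0x5e00086b0401))) 
(.lf (nat_lit 19878546) (dlOf (nat_lit 1) (nat_lit 0x4002000400089d8c82)))) 
(.lf (nat_lit 470761522) (dlOf (nat_lit 2) (nat_lit 0x1805f000250080068008000c002001a0008170483))))) 
(.nd (nat_lit 5) (.nd (nat_lit 7) (.nd (nat_lit 19) 
(.lf (nat_lit 13058066) (dlOf (nat_lit 1) (nat_lit 0x200286f0181))) 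
(.lf (nat_lit 13582354) (dlOf (nat_lit 3) (nat_lit 0x55718802c37aa01da6040139c6200a2dea8076901001f0008002800200260008730883)))) 
(.lf (nat_lit 24068498) (dlOf (nat_lit 1) (nat_lit 0x7000400020018b80782)))) (.nd (nat_lit 23) 
(.lf (nat_lit 21970994) (dlOf (nat_lit 2) (nat_lit 0x359160017c38000538100138008001c00200300008a80d03))) 
(.lf (nat_lit 13582386) (dlOf (nat_lit 2) (nat_lit 0x23c63001edeb0001f81000180080094002002a0008730b83)))))) 
(.nd (nat_lit 25) (.nd (nat_lit 5) (.nd (nat_lit 8) 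
(.lf (nat_lit 8340626) (dlOf (nat_lit 1) (nat_lit 0x8008000400200020008512b83))) 
(.lf (nat_lit 20401042) (dlOf (nat_lit 1) (nat_lit 0x800289d5c81)))) (.nd (nat_lit 8) 
(.nd (nat_lit 19) (.lf (nat_lit 3620914) (dlOf (nat_lit 1) (nat_lit 0x20028210a01))) 
(.lf (nat_lit 14630962) (dlOf (nat_lit 1) (nat_lit 0x400400020018770482)))) 
(.lf (nat_lit 8344882) (dlOf (nat_lit 1) (nat_lit 0x20018519881))))) (.nd (nat_lit 7) 
(.nd (nat_lit 5) (.nd (nat_lit 8) 
(.lf (nat_lit 58147346) (dlOf (nat_lit 4) (nat_lit 0x8b09400458490016bf5000b5fa4000d010008b0940006602003f84a0020c248000001000b80080168002001c00097c7c03))) 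
(.lf (nat_lit 54479634) (dlOf (nat_lit 1) (nat_lit 0x8008000400200020009655b83)))) 
(.lf (nat_lit 50283570) (dlOf (nat_lit 1) (nat_lit 0x1000294c2881)))) (.nd (nat_lit 8) 
(.lf (nat_lit 41895058) (dlOf (nat_lit 1) (nat_lit 0x22a0019242b81))) 
(.lf (nat_lit 46090642) (dlOf (nat_lit 1) (nat_lit 0x20019384e81))))))) (.nd (nat_lit 5) 
(.nd (nat_lit 19) (.nd (nat_lit 21) (.nd (nat_lit 7) (.nd (nat_lit 22) 
(.lf (nat_lit 2886156370) (dlOf (nat_lit 1) (nat_lit 0x140008171001))) 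
(.lf (nat_lit 21446738) (dlOf (nat_lit 1) (nat_lit 0x20028a40501)))) 
(.lf (nat_lit 805781714) (dlOf (nat_lit 1) (nat_lit 0x80080008002000200081a0483)))) 
(.nd (nat_lit 22) 
(.lf (nat_lit 1009205330) (dlOf (nat_lit 3) (nat_lit 0x460e30000281000f0718000000801d00080064002002a00090a0783))) 
(.lf (nat_lit 48709714) (dlOf (nat_lit 1) (nat_lit 0x20029420781))))) (.nd (nat_lit 24) 
(.nd (nat_lit 8) (.nd (nat_lit 22) 
(.lf (nat_lit 1007632466) (dlOf (nat_lit 1) (nat_lit 0x40018560781))) 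
(.lf (nat_lit 13582418) (dlOf (nat_lit 5) (nat_lit 0x23e2f0002ef40003e366000340600cdc5000059328000cc10006718800437aa0001f040023c620019dea800078100048008005000200160008730d83)))) 
(.lf (nat_lit 2752463186) (dlOf (nat_lit 1) (nat_lit 0x60028014d81)))) (.nd (nat_lit 12) 
(.nd (nat_lit 21) (.lf (nat_lit 52379730) (dlOf (nat_lit 1) (nat_lit 0x400200020009530782))) 
(.lf (nat_lit 20922450) (dlOf (nat_lit 2) (nat_lit 0x1d7aec01ddba00002b0289f0680)))) 
(.lf (nat_lit 19877970) (dlOf (nat_lit 1) (nat_lit 0x4002000200089d7d82)))))) (.nd (nat_lit 7) 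
(.nd (nat_lit 19) (.nd (nat_lit 8) 
(.lf (nat_lit 604456050) (dlOf (nat_lit 1) (nat_lit 0x4004000200082d2a02))) 
(.lf (nat_lit 12009842) (dlOf (nat_lit 1) (nat_lit 0x400186c0781)))) (.nd (nat_lit 12) 
(.lf (nat_lit 2048114) (dlOf (nat_lit 1) (nat_lit 0x20028150081))) 
(.lf (nat_lit 19878002) (dlOf (nat_lit 1) (nat_lit 0x4002000200089d7d82))))) (.nd (nat_lit 9) 
(.nd (nat_lit 11) (.lf (nat_lit 3097074) (dlOf (nat_lit 2) (nat_lit 0x38000000bd02000a0018200d81))) 
(.lf (nat_lit 38226418) (dlOf (nat_lit 1) (nat_lit 0x8008000400200020009134f03)))) (.nd (nat_lit 8) 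
(.lf (nat_lit 19878642) (dlOf (nat_lit 1) (nat_lit 0x200189d8f01))) (.nd (nat_lit 19) 
(.lf (nat_lit 68633586) (dlOf (nat_lit 1) (nat_lit 0x580028662881))) 
(.lf (nat_lit 56574962) (dlOf (nat_lit 1) (nat_lit 0xa0029732881)))))))))) (.nd (nat_lit 5) 
(.nd (nat_lit 18) (.nd (nat_lit 26) (.nd (nat_lit 29) (.nd (nat_lit 7) (.nd (nat_lit 19) 
(.nd (nat_lit 20) 
(.lf (nat_lit 1476608018) (dlOf (nat_lit 3) (nat_lit 0x2005c0035604016802e009801601c4008803400000000010001c002003000080a0482))) 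
(.lf (nat_lit 3490922514) (dlOf (nat_lit 1) (nat_lit 0x60028030881)))) 
(.lf (nat_lit 3493543954) (dlOf (nat_lit 1) (nat_lit 0x400200020008160302)))) (.nd (nat_lit 6) 
(.nd (nat_lit 8) (.lf (nat_lit 5637358738) (dlOf (nat_lit 1) (nat_lit 0x200280d2b81))) 
(.lf (nat_lit 5771578258) (dlOf (nat_lit 1) (nat_lit 0x60008005c81)))) 
(.lf (nat_lit 3489881298) (dlOf (nat_lit 1) (nat_lit 0x5a001800c301))))) (.nd (nat_lit 10) 
(.nd (nat_lit 6) (.nd (nat_lit 27) 
(.lf (nat_lit 4026744850) (dlOf (nat_lit 1) (nat_lit 0x2340008090001))) 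
(.lf (nat_lit 6308446226) (dlOf (nat_lit 6) (nat_lit 0x4400d800c00680118032000a01400430058023a8280080064011d20400b4032008e802001e01b0047381001200580237c0800d00080030002000600080a0a03)))) 
(.lf (nat_lit 1611350482) (dlOf (nat_lit 4) (nat_lit 0x101a000080cc00020000011403001c0340008700800181a000080cc000403f0003000000860200360008009c00200120008137b03)))) 
(.nd (nat_lit 6) (.nd (nat_lit 9) 
(.lf (nat_lit 5905794066) (dlOf (nat_lit 1) (nat_lit 0x400400020008142882))) 
(.lf (nat_lit 2013480466) (dlOf (nat_lit 1) (nat_lit 0x60018093701)))) 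
(.lf (nat_lit 1610827346) (dlOf (nat_lit 1) (nat_lit 0x400200020008093882)))))) (.nd (nat_lit 11) 
(.nd (nat_lit 19) (.nd (nat_lit 27) 
(.lf (nat_lit 5704466450) (dlOf (nat_lit 6) (nat_lit 0x4400d800c00680118032000a014004300580363828008006401b1a0400b403200d8c02001e01b006c58100120058036100800d00080030002000600080a0a03))) 
(.nd (nat_lit 28) (.lf (nat_lit 1812152338) (dlOf (nat_lit 1) (nat_lit 0x1400400380008160482))) 
(.lf (nat_lit 3691200530) (dlOf (nat_lit 2) (nat_lit 0xbd00a800000040010002000a00080a0482))))) 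
(.nd (nat_lit 6) 
(.lf (nat_lit 1410023442) (dlOf (nat_lit 3) (nat_lit 0x300e4005206900ab02a0028010800d405c000202b007b0000069143800381c801a00a80062042000701700028050008400001a430c008400180d0881))) 
(.lf (nat_lit 1410023506) (dlOf (nat_lit 2) (nat_lit 0x45e054022e0210000a41000a00080060002004c00080d0d83))))) 
(.nd (nat_lit 12) (.nd (nat_lit 7) (.nd (nat_lit 20) 
(.lf (nat_lit 6241340178) (dlOf (nat_lit 1) (nat_lit 0x4a00180d5b81))) 
(.lf (nat_lit 4094905106) (dlOf (nat_lit 1) (nat_lit 0x20028055b81)))) 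
(.lf (nat_lit 1141066642) (dlOf (nat_lit 2) (nat_lit 0x2013000184080028008001000200040008095c83)))) 
(.nd (nat_lit 8) 
(.lf (nat_lit 3959642642) (dlOf (nat_lit 5) (nat_lit 0x9408c004c045005bf02003d023001f0114016fa08010808c007c045005be02003f02300208114016f208001c004002e001811b282))) 
(.lf (nat_lit 3556989202) (dlOf (nat_lit 1) (nat_lit 0x2c80080018002006e000812aa83))))))) 
(.nd (nat_lit 6) (.nd (nat_lit 11) (.nd (nat_lit 10) (.nd (nat_lit 9) (.nd (nat_lit 26) 
(.lf (nat_lit 5637619730) (dlOf (nat_lit 3) (nat_lit 0xa00d001eb008016806800f5604000c00400040008120a02))) 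
(.lf (nat_lit 6241599506) (dlOf (nat_lit 3) (nat_lit 0xa00d00350008016806801a7e04000c00400040008120a02)))) 
(.lf (nat_lit 1345274386) (dlOf (nat_lit 1) (nat_lit 0x400400020018b37c02)))) (.nd (nat_lit 8) 
(.lf (nat_lit 3492758546) (dlOf (nat_lit 1) (nat_lit 0x4002000200080f2882))) 
(.lf (nat_lit 1344750866) (dlOf (nat_lit 1) (nat_lit 0x48002001e0008983002))))) (.nd (nat_lit 9) 
(.nd (nat_lit 10) (.lf (nat_lit 1946634258) (dlOf (nat_lit 1) (nat_lit 0x2800280f4701))) 
(.lf (nat_lit 1881623570) (dlOf (nat_lit 2) (nat_lit 0x8207a802c817c0005a08000400400040008f65f82)))) 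
(.nd (nat_lit 7) (.lf (nat_lit 1476872722) (dlOf (nat_lit 1) (nat_lit 0x200182d5081))) 
(.lf (nat_lit 6376344210) (dlOf (nat_lit 1) (nat_lit 0x1000200160008095502)))))) (.nd (nat_lit 31) 
(.nd (nat_lit 7) (.lf (nat_lit 1343176786) (dlOf (nat_lit 2) (nat_lit 0x4802a00029018190780))) 
(.nd (nat_lit 10) 
(.lf (nat_lit 1678196946) (dlOf (nat_lit 1) (nat_lit 0x80080008002000200081a0483))) 
(.lf (nat_lit 5772887250) (dlOf (nat_lit 1) (nat_lit 0x18008000800200040008092d83))))) 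
(.nd (nat_lit 8) (.lf (nat_lit 3624353874) (dlOf (nat_lit 1) (nat_lit 0x140008171001))) 
(.nd (nat_lit 19) (.lf (nat_lit 3493282130) (dlOf (nat_lit 1) (nat_lit 0xa0008104d81))) 
(.lf (nat_lit 3490660690) (dlOf (nat_lit 2) (nat_lit 0x41e80001f818014d00)))))))) (.nd (nat_lit 29) 
(.nd (nat_lit 26) (.nd (nat_lit 6) (.nd (nat_lit 10) (.nd (nat_lit 19) 
(.lf (nat_lit 3490922546) (dlOf (nat_lit 1) (nat_lit 0x18008001000200040008030d03))) 
(.lf (nat_lit 1343963186) (dlOf (nat_lit 1) (nat_lit 0x20028380f01)))) (.nd (nat_lit 7) 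
(.lf (nat_lit 5772887090) (dlOf (nat_lit 1) (nat_lit 0x800200020008092882))) 
(.lf (nat_lit 3489881266) (dlOf (nat_lit 1) (nat_lit 0x9800800340020002000800c203))))) 
(.nd (nat_lit 8) (.nd (nat_lit 7) 
(.lf (nat_lit 3494068338) (dlOf (nat_lit 4) (nat_lit 0x50d5801e041c00dc1de002480601f010f00f2083800303bc003f40c011c21e00aa107000fc0281b0080))) 
(.lf (nat_lit 5772887282) (dlOf (nat_lit 1) (nat_lit 0x20008000800200040008092e83)))) 
(.nd (nat_lit 9) 
(.lf (nat_lit 1345274354) (dlOf (nat_lit 2) (nat_lit 0x202ca0004e0200280018b37401))) 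
(.lf (nat_lit 1346847730) (dlOf (nat_lit 1) (nat_lit 0x20019042881)))))) (.nd (nat_lit 8) 
(.nd (nat_lit 9) (.nd (nat_lit 7) (.nd (nat_lit 18) 
(.lf (nat_lit 3288547378) (dlOf (nat_lit 1) (nat_lit 0x14800400860008090002))) 
(.lf (nat_lit 3557244978) (dlOf (nat_lit 1) (nat_lit 0x40018170481)))) 
(.lf (nat_lit 3288547506) (dlOf (nat_lit 1) (nat_lit 0x80080028002002c0008090303)))) 
(.nd (nat_lit 11) 
(.lf (nat_lit 3288547890) (dlOf (nat_lit 2) (nat_lit 0x4040000270200420018090f01))) 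
(.lf (nat_lit 5436033586) (dlOf (nat_lit 3) (nat_lit 0x500c0003f8040028056001e702000a0008095181))))) 
(.nd (nat_lit 6) (.lf (nat_lit 1141066546) (dlOf (nat_lit 1) (nat_lit 0x400400020008095c02))) 
(.nd (nat_lit 7) 
(.lf (nat_lit 3288547698) (dlOf (nat_lit 5) (nat_lit 0x780d80306e0402b805c0074502012602e0039e81008b017001cec0800a0008003000200340008090783))) 
(.lf (nat_lit 3288547826) (dlOf (nat_lit 2) (nat_lit 0x21201a8002f40805f00080088002001e0008090d83))))))) 
(.nd (nat_lit 26) (.nd (nat_lit 7) (.nd (nat_lit 9) (.nd (nat_lit 6) (.nd (nat_lit 18) 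
(.lf (nat_lit 4026744882) (dlOf (nat_lit 1) (nat_lit 0x60028090001))) 
(.lf (nat_lit 1611087922) (dlOf (nat_lit 4) (nat_lit 0x4a00820148040003b0180000801800081000003e0400100800001e0201c800080d0381)))) 
(.lf (nat_lit 4026745202) (dlOf (nat_lit 2) (nat_lit 0x4e036000d019000480c0037320c016800400520008090782)))) 
(.nd (nat_lit 11) 
(.lf (nat_lit 4026745394) (dlOf (nat_lit 2) (nat_lit 0x4040000220200420018090f01))) 
(.lf (nat_lit 1745046066) (dlOf (nat_lit 1) (nat_lit 0x20008000400200020008095183))))) 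
(.nd (nat_lit 6) (.nd (nat_lit 8) 
(.lf (nat_lit 4026745010) (dlOf (nat_lit 1) (nat_lit 0x80080028002002c0008090303))) 
(.lf (nat_lit 4026745266) (dlOf (nat_lit 5) (nat_lit 0xf005c001a02d006768200280168033b00802100b8008c05a00ce304004402e00120168033881001b8008004800200920008090783)))) 
(.nd (nat_lit 9) 
(.lf (nat_lit 4026745330) (dlOf (nat_lit 1) (nat_lit 0x1b80080030002002e0008090d83))) 
(.lf (nat_lit 1745306610) (dlOf (nat_lit 1) (nat_lit 0x800180e2881)))))) (.nd (nat_lit 10) 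
(.nd (nat_lit 9) (.nd (nat_lit 18) 
(.lf (nat_lit 1812152370) (dlOf (nat_lit 2) (nat_lit 0x2d00e00029408039800800c400200300008160603))) 
(.lf (nat_lit 4096737330) (dlOf (nat_lit 1) (nat_lit 0x40028160601)))) 
(.lf (nat_lit 6376606258) (dlOf (nat_lit 1) (nat_lit 0x400400020008095182)))) (.nd (nat_lit 6) 
(.nd (nat_lit 9) (.lf (nat_lit 3959637042) (dlOf (nat_lit 1) (nat_lit 0x800400860018112882))) 
(.lf (nat_lit 4095690290) (dlOf (nat_lit 2) (nat_lit 0xa0290000e0180e3780)))) 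
(.lf (nat_lit 2080589042) (dlOf (nat_lit 1) (nat_lit 0x400200020008092e82)))))))))))

end

end Pool.Agent.Lib.MP_5854e1_co.Cz

namespace Pool.Agent.Lib.MP_5854e1_co.Cz

noncomputable section

noncomputable def tz209 : DT := (.nd (nat_lit 16) (.nd (nat_lit 17) (.nd (nat_lit 5) 
(.nd (nat_lit 26) (.nd (nat_lit 18) (.nd (nat_lit 30) (.nd (nat_lit 9) (.nd (nat_lit 19) 
(.nd (nat_lit 10) (.nd (nat_lit 7) 
(.lf (nat_lit 26230810) (dlOf (nat_lit 1) (nat_lit 0x90008002000200140008c20503))) 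
(.lf (nat_lit 8409498) (dlOf (nat_lit 1) (nat_lit 0x20028518381)))) (.nd (nat_lit 11) 
(.lf (nat_lit 536888346) (dlOf (nat_lit 1) (nat_lit 0x400400020008002882))) 
(.lf (nat_lit 19942426) (dlOf (nat_lit 1) (nat_lit 0x4002000200089d6002))))) (.nd (nat_lit 21) 
(.nd (nat_lit 6) (.nd (nat_lit 20) 
(.lf (nat_lit 55066650) (dlOf (nat_lit 3) (nat_lit 0xa4b100082580002927c000400c000896200104b0000624f80002c1800080080054002003000096a0503))) 
(.lf (nat_lit 5783578) (dlOf (nat_lit 1) (nat_lit 0x200183e0481)))) 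
(.lf (nat_lit 50872794) (dlOf (nat_lit 1) (nat_lit 0x600294d7b81)))) (.nd (nat_lit 20) 
(.nd (nat_lit 22) 
(.lf (nat_lit 2637850) (dlOf (nat_lit 4) (nat_lit 0x328d40002404008146a00011020010a47000d51a80003c1000100080004002000c0008180403))) 
(.lf (nat_lit 15220762) (dlOf (nat_lit 1) (nat_lit 0x1600080074002000200087c0503)))) 
(.lf (nat_lit 37240858) (dlOf (nat_lit 1) (nat_lit 0x18002000200090c0602)))))) (.nd (nat_lit 6) 
(.nd (nat_lit 8) (.nd (nat_lit 11) 
(.lf (nat_lit 2114074) (dlOf (nat_lit 1) (nat_lit 0x5800400060008150d82))) 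
(.lf (nat_lit 2415942170) (dlOf (nat_lit 1) (nat_lit 0x26001800b281)))) (.nd (nat_lit 7) 
(.nd (nat_lit 20) (.lf (nat_lit 6710905626) (dlOf (nat_lit 1) (nat_lit 0x20028005c01))) 
(.lf (nat_lit 19942170) (dlOf (nat_lit 1) (nat_lit 0x4002000200089d5c02)))) 
(.lf (nat_lit 2415937434) (dlOf (nat_lit 1) (nat_lit 0x20028004281))))) (.nd (nat_lit 7) 
(.nd (nat_lit 23) (.lf (nat_lit 52971098) (dlOf (nat_lit 1) (nat_lit 0x20029573901))) 
(.lf (nat_lit 61359706) (dlOf (nat_lit 1) (nat_lit 0x260019923901)))) (.nd (nat_lit 8) 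
(.lf (nat_lit 8409818) (dlOf (nat_lit 1) (nat_lit 0x8008000400200020008518c83))) 
(.lf (nat_lit 2952813530) (dlOf (nat_lit 1) (nat_lit 0x40020048000800bf02))))))) (.nd (nat_lit 27) 
(.nd (nat_lit 7) (.nd (nat_lit 8) (.nd (nat_lit 20) (.nd (nat_lit 29) 
(.lf (nat_lit 3221766170) (dlOf (nat_lit 1) (nat_lit 0x480080050002000a0008180903))) 
(.lf (nat_lit 1611153434) (dlOf (nat_lit 7) (nat_lit 0x1f0050008c01c009e80c800f405401d601c0003006801d0c3002c010401b80800004030003998300540208036010000e640801180540070b02003202a0037e810004020801bbc0802c80080178002006200080f0a03)))) 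
(.lf (nat_lit 1343766554) (dlOf (nat_lit 1) (nat_lit 0x60008360501)))) 
(.lf (nat_lit 5368728346) (dlOf (nat_lit 1) (nat_lit 0x400200020008005c02)))) (.nd (nat_lit 11) 
(.nd (nat_lit 9) (.nd (nat_lit 19) 
(.lf (nat_lit 3758113946) (dlOf (nat_lit 1) (nat_lit 0x600018002b81))) 
(.lf (nat_lit 1346913434) (dlOf (nat_lit 1) (nat_lit 0x400090a2b81)))) 
(.lf (nat_lit 1342198426) (dlOf (nat_lit 1) (nat_lit 0x800200020008008c82)))) (.nd (nat_lit 6) 
(.lf (nat_lit 1342200986) (dlOf (nat_lit 1) (nat_lit 0x100040004001800c202))) 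
(.lf (nat_lit 1342201050) (dlOf (nat_lit 1) (nat_lit 0x10c0020080000800c402)))))) (.nd (nat_lit 9) 
(.nd (nat_lit 11) (.nd (nat_lit 7) 
(.lf (nat_lit 4160771354) (dlOf (nat_lit 2) (nat_lit 0x300a000090080080008002c00200100008009703))) 
(.lf (nat_lit 3355464858) (dlOf (nat_lit 3) (nat_lit 0xc0050033c8100120030017fc080010008000400200040008009503)))) 
(.nd (nat_lit 29) 
(.lf (nat_lit 5771381786) (dlOf (nat_lit 2) (nat_lit 0x2500000005e04002000200120008006002))) 
(.lf (nat_lit 2013285402) (dlOf (nat_lit 1) (nat_lit 0x20028006001))))) (.nd (nat_lit 6) 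
(.nd (nat_lit 8) (.lf (nat_lit 5502944794) (dlOf (nat_lit 1) (nat_lit 0x400400020008003702))) 
(.lf (nat_lit 5771381530) (dlOf (nat_lit 1) (nat_lit 0xc00400020008005c02)))) (.nd (nat_lit 7) 
(.lf (nat_lit 5502944858) (dlOf (nat_lit 1) (nat_lit 0x20018003901))) 
(.lf (nat_lit 5502944218) (dlOf (nat_lit 1) (nat_lit 0x3000200020008002882)))))))) 
(.nd (nat_lit 19) (.nd (nat_lit 27) (.nd (nat_lit 9) (.nd (nat_lit 8) (.nd (nat_lit 20) 
(.lf (nat_lit 4295245850) (dlOf (nat_lit 2) (nat_lit 0xe026000100180c0500))) (.nd (nat_lit 23) 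
(.lf (nat_lit 18104346) (dlOf (nat_lit 2) (nat_lit 0xb90fc00000040004002000a0008910b82))) 
(.lf (nat_lit 26492954) (dlOf (nat_lit 1) (nat_lit 0x800400020008c50102))))) (.nd (nat_lit 7) 
(.lf (nat_lit 20201754) (dlOf (nat_lit 1) (nat_lit 0xa8004000200089d0a82))) 
(.lf (nat_lit 6174295450) (dlOf (nat_lit 1) (nat_lit 0x600180d3601))))) (.nd (nat_lit 6) 
(.nd (nat_lit 8) (.lf (nat_lit 3221504538) (dlOf (nat_lit 1) (nat_lit 0x20028127f01))) 
(.nd (nat_lit 20) (.lf (nat_lit 54807322) (dlOf (nat_lit 1) (nat_lit 0xc00400420009655c02))) 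
(.lf (nat_lit 20204314) (dlOf (nat_lit 1) (nat_lit 0x4002000200089d5c02))))) (.nd (nat_lit 10) 
(.lf (nat_lit 45369946) (dlOf (nat_lit 2) (nat_lit 0x2898e00014019325300))) 
(.lf (nat_lit 1610892890) (dlOf (nat_lit 2) (nat_lit 0x240b4000470200020018093901)))))) 
(.nd (nat_lit 7) (.nd (nat_lit 10) (.nd (nat_lit 28) 
(.lf (nat_lit 4429463578) (dlOf (nat_lit 5) (nat_lit 0x3809c0004e04001004e0002602006c0270000f010005013800044080010008001c002002600080c0403))) 
(.lf (nat_lit 402931738) (dlOf (nat_lit 1) (nat_lit 0x400280b0101)))) 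
(.lf (nat_lit 2818858010) (dlOf (nat_lit 1) (nat_lit 0x30002812bf01)))) (.nd (nat_lit 6) 
(.nd (nat_lit 8) (.lf (nat_lit 1208238234) (dlOf (nat_lit 1) (nat_lit 0x8004000200080a2b82))) 
(.lf (nat_lit 3624159642) (dlOf (nat_lit 1) (nat_lit 0x120018144e81)))) 
(.lf (nat_lit 3892592858) (dlOf (nat_lit 1) (nat_lit 0x20018160581)))))) (.nd (nat_lit 6) 
(.nd (nat_lit 23) (.nd (nat_lit 8) (.nd (nat_lit 21) (.nd (nat_lit 22) 
(.lf (nat_lit 5773213722) (dlOf (nat_lit 3) (nat_lit 0x5c12f0001d8100190978000480800900080020002009a00080b0103))) 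
(.lf (nat_lit 22822938) (dlOf (nat_lit 1) (nat_lit 0x8008000400200020008b30483)))) 
(.lf (nat_lit 1346125850) (dlOf (nat_lit 2) (nat_lit 0x20c286028413900860668000bc180048008003c002001a0008e60103)))) 
(.lf (nat_lit 1880902426) (dlOf (nat_lit 1) (nat_lit 0x800400020008c95c02)))) (.nd (nat_lit 20) 
(.nd (nat_lit 24) (.lf (nat_lit 9191450) (dlOf (nat_lit 1) (nat_lit 0x8008000800200020008530103))) 
(.lf (nat_lit 59523098) (dlOf (nat_lit 1) (nat_lit 0x2400400120009800102)))) 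
(.lf (nat_lit 29114394) (dlOf (nat_lit 1) (nat_lit 0x20018dc0a01))))) (.nd (nat_lit 8) 
(.nd (nat_lit 7) (.nd (nat_lit 21) 
(.lf (nat_lit 52185690) (dlOf (nat_lit 2) (nat_lit 0x1506480005c04000c00200060009515302))) 
(.lf (nat_lit 58477146) (dlOf (nat_lit 2) (nat_lit 0x2b96a001595a0014b87800b274800288760002e0a000200297e5301)))) 
(.lf (nat_lit 25968858) (dlOf (nat_lit 1) (nat_lit 0x60008c10581)))) (.nd (nat_lit 7) 
(.nd (nat_lit 9) 
(.lf (nat_lit 50087258) (dlOf (nat_lit 12) (nat_lit 0x49a150145c2f82bc614000b307e11677f900dcbf78942df8c2516f9a001a927010a48f8011a2dc00150d0057e860041e3a000039b2c0fd886610f6000000189102a8bf18000c0084705f8c0003c042e80e880d547430000a0202603a200004c080869d1000024044d50e88244c7430000882008d3a200379d0c00020080c20e8805e67430000782014a3a2000014080281d100000004006400200e000094c3382))) 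
(.lf (nat_lit 19681114) (dlOf (nat_lit 1) (nat_lit 0x200089d7781)))) 
(.lf (nat_lit 5772165594) (dlOf (nat_lit 1) (nat_lit 0x20018091201)))))))) (.nd (nat_lit 27) 
(.nd (nat_lit 8) (.nd (nat_lit 32) (.nd (nat_lit 6) (.nd (nat_lit 19) (.nd (nat_lit 28) 
(.lf (nat_lit 604258330) (dlOf (nat_lit 1) (nat_lit 0x2a0018100581))) 
(.lf (nat_lit 335822874) (dlOf (nat_lit 1) (nat_lit 0x400280b0101)))) (.nd (nat_lit 7) 
(.lf (nat_lit 3557310490) (dlOf (nat_lit 1) (nat_lit 0x2e00281c0501))) 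
(.lf (nat_lit 67917978) (dlOf (nat_lit 1) (nat_lit 0x2001833a881))))) (.nd (nat_lit 11) 
(.nd (nat_lit 18) 
(.lf (nat_lit 2754101338) (dlOf (nat_lit 2) (nat_lit 0x1683f20000702002c00080c1a81))) 
(.lf (nat_lit 2483306586) (dlOf (nat_lit 3) (nat_lit 0x200900004e0400380480002602000a00180a1181)))) 
(.lf (nat_lit 2751486042) (dlOf (nat_lit 1) (nat_lit 0x7000800100020002000800a783))))) 
(.nd (nat_lit 9) (.nd (nat_lit 10) 
(.lf (nat_lit 4362616858) (dlOf (nat_lit 1) (nat_lit 0x20004000200080b0a02))) 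
(.lf (nat_lit 4362093594) (dlOf (nat_lit 1) (nat_lit 0xe4004001c0008002882)))) (.nd (nat_lit 30) 
(.nd (nat_lit 10) 
(.lf (nat_lit 6509838874) (dlOf (nat_lit 1) (nat_lit 0x8008015000200480008157f03))) 
(.lf (nat_lit 4630529562) (dlOf (nat_lit 1) (nat_lit 0x800400580008003702)))) (.nd (nat_lit 6) 
(.lf (nat_lit 5435835930) (dlOf (nat_lit 3) (nat_lit 0x580f80001e0400b807c000000200220018003701))) 
(.lf (nat_lit 5435835994) (dlOf (nat_lit 2) (nat_lit 0x1403a00004818003900))))))) (.nd (nat_lit 6) 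
(.nd (nat_lit 9) (.nd (nat_lit 7) (.nd (nat_lit 10) 
(.lf (nat_lit 1946698010) (dlOf (nat_lit 2) (nat_lit 0x1003e000800000073010009800801f4002002c00081b0483))) 
(.lf (nat_lit 67132698) (dlOf (nat_lit 1) (nat_lit 0x2001800c601)))) 
(.lf (nat_lit 5704533402) (dlOf (nat_lit 1) (nat_lit 0x2200280d3601)))) (.nd (nat_lit 12) 
(.lf (nat_lit 4899228442) (dlOf (nat_lit 1) (nat_lit 0x1000080d5c01))) 
(.lf (nat_lit 604003098) (dlOf (nat_lit 2) (nat_lit 0x78000000c204004c0020014000800bb82))))) 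
(.nd (nat_lit 7) (.nd (nat_lit 9) (.nd (nat_lit 11) 
(.lf (nat_lit 6509838682) (dlOf (nat_lit 1) (nat_lit 0x100028154e81))) 
(.lf (nat_lit 2751748442) (dlOf (nat_lit 1) (nat_lit 0x240040038001800ab82)))) 
(.lf (nat_lit 872434522) (dlOf (nat_lit 1) (nat_lit 0x180018005c01)))) (.nd (nat_lit 9) 
(.lf (nat_lit 2751486426) (dlOf (nat_lit 4) (nat_lit 0x211200030824001441000c1706000e22300091038029f810003888c001440e00a6d04002c002800b281))) 
(.nd (nat_lit 28) (.lf (nat_lit 5435835354) (dlOf (nat_lit 1) (nat_lit 0x78002004e0008002882))) 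
(.lf (nat_lit 4630528986) (dlOf (nat_lit 1) (nat_lit 0xe0018002881)))))))) (.nd (nat_lit 10) 
(.nd (nat_lit 19) (.nd (nat_lit 6) (.nd (nat_lit 18) (.nd (nat_lit 28) 
(.lf (nat_lit 1275087642) (dlOf (nat_lit 1) (nat_lit 0x60008000400200020008005c03))) 
(.lf (nat_lit 5301619482) (dlOf (nat_lit 1) (nat_lit 0x180080020002002a0008005c03)))) 
(.lf (nat_lit 4496575258) (dlOf (nat_lit 3) (nat_lit 0x8023000b281000c01a00053808018000800bc002002400080e5c03)))) 
(.nd (nat_lit 12) 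
(.lf (nat_lit 2349088858) (dlOf (nat_lit 3) (nat_lit 0x20090000280400380480001302000a00180a1181))) 
(.lf (nat_lit 3691008090) (dlOf (nat_lit 3) (nat_lit 0x200e801194080008074008b404001400400ec0008007d82))))) 
(.nd (nat_lit 31) (.nd (nat_lit 8) (.nd (nat_lit 18) 
(.lf (nat_lit 738738202) (dlOf (nat_lit 2) (nat_lit 0x100a80196e040018002000a00080f0a02))) 
(.lf (nat_lit 6377193498) (dlOf (nat_lit 3) (nat_lit 0x5c1200001d8100190900000480800900080020002009a00080b0103)))) 
(.lf (nat_lit 6376931610) (dlOf (nat_lit 1) (nat_lit 0x30008001800200020008090a83)))) 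
(.nd (nat_lit 6) (.nd (nat_lit 28) 
(.lf (nat_lit 3959963674) (dlOf (nat_lit 1) (nat_lit 0x480080050002000a0008180903))) 
(.lf (nat_lit 4228399130) (dlOf (nat_lit 1) (nat_lit 0x20004000200080b0a02)))) 
(.lf (nat_lit 3154657370) (dlOf (nat_lit 1) (nat_lit 0x20018310381)))))) (.nd (nat_lit 8) 
(.nd (nat_lit 29) (.nd (nat_lit 6) (.nd (nat_lit 18) 
(.lf (nat_lit 4764748826) (dlOf (nat_lit 1) (nat_lit 0xa0018006001))) 
(.lf (nat_lit 4496575514) (dlOf (nat_lit 3) (nat_lit 0x280340006804000401a0003202000c00080e6001)))) 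
(.lf (nat_lit 473449562) (dlOf (nat_lit 2) (nat_lit 0xb049000418080050008002c00200120008f52903)))) 
(.nd (nat_lit 6) (.nd (nat_lit 9) 
(.lf (nat_lit 5301619738) (dlOf (nat_lit 3) (nat_lit 0x201d00010808000803c003800a0002001000b0000000bc200070008014400200120008006003))) 
(.lf (nat_lit 6106924570) (dlOf (nat_lit 1) (nat_lit 0x400400020008003702)))) 
(.lf (nat_lit 4227882202) (dlOf (nat_lit 1) (nat_lit 0x2001800c401))))) (.nd (nat_lit 11) 
(.nd (nat_lit 28) (.lf (nat_lit 201344794) (dlOf (nat_lit 1) (nat_lit 0x20028003c81))) 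
(.lf (nat_lit 469780250) (dlOf (nat_lit 1) (nat_lit 0x40018003c81)))) (.nd (nat_lit 6) 
(.lf (nat_lit 3691007770) (dlOf (nat_lit 1) (nat_lit 0xb8008001c002001c0008007483))) 
(.lf (nat_lit 4227878362) (dlOf (nat_lit 1) (nat_lit 0xc00400040018006d82))))))))) 
(.nd (nat_lit 18) (.nd (nat_lit 26) (.nd (nat_lit 7) (.nd (nat_lit 20) (.nd (nat_lit 28) 
(.nd (nat_lit 30) (.nd (nat_lit 6) 
(.lf (nat_lit 22586) (dlOf (nat_lit 2) (nat_lit 0x557d002bbc08001800800100020002000800a603))) 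
(.lf (nat_lit 2113914) (dlOf (nat_lit 1) (nat_lit 0x40028150781)))) (.nd (nat_lit 9) 
(.lf (nat_lit 3221766202) (dlOf (nat_lit 1) (nat_lit 0x20008180b81))) 
(.lf (nat_lit 6039814714) (dlOf (nat_lit 1) (nat_lit 0x20028001501))))) (.nd (nat_lit 30) 
(.nd (nat_lit 10) 
(.lf (nat_lit 805847098) (dlOf (nat_lit 2) (nat_lit 0x520520064016817e805c0005e0c021c004020c00181c0b82))) 
(.lf (nat_lit 2550156346) (dlOf (nat_lit 1) (nat_lit 0x1a0028006081)))) (.nd (nat_lit 6) 
(.lf (nat_lit 3493871930) (dlOf (nat_lit 2) (nat_lit 0x380d3000128181b0580))) 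
(.lf (nat_lit 3491774586) (dlOf (nat_lit 1) (nat_lit 0x10004000c0018090082)))))) (.nd (nat_lit 6) 
(.nd (nat_lit 8) 
(.lf (nat_lit 3490725946) (dlOf (nat_lit 2) (nat_lit 0x29387a8000a4040014002001a0008020682))) 
(.nd (nat_lit 9) 
(.lf (nat_lit 24133946) (dlOf (nat_lit 2) (nat_lit 0xadd680060e36004f677000098180238008013800200080008b80583))) 
(.lf (nat_lit 19942202) (dlOf (nat_lit 1) (nat_lit 0x4002000200089d5c02))))) (.nd (nat_lit 9) 
(.lf (nat_lit 47202426) (dlOf (nat_lit 8) (nat_lit 0x1b038000a00400117ee00048020014bd3000b5de00012e9000216880006b3e0002385000160700012fdc00217a6000abbc00055d20001ad200029688000460e0002bf7000220100015fb80010c080062f4c002179a0006bbc00265db0001ae9000296880012b3e0001c0793b0c80))) 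
(.lf (nat_lit 20466298) (dlOf (nat_lit 1) (nat_lit 0x5600089d5401)))))) (.nd (nat_lit 8) 
(.nd (nat_lit 10) (.nd (nat_lit 6) (.nd (nat_lit 20) 
(.lf (nat_lit 2113722) (dlOf (nat_lit 1) (nat_lit 0x800400800008150382))) 
(.lf (nat_lit 47202490) (dlOf (nat_lit 1) (nat_lit 0x100080004002000200093b1983)))) 
(.lf (nat_lit 1074282746) (dlOf (nat_lit 2) (nat_lit 0xa01e8004000000398080158002002400081b0482)))) 
(.nd (nat_lit 12) (.nd (nat_lit 19) 
(.lf (nat_lit 2550156474) (dlOf (nat_lit 1) (nat_lit 0x1c00400020008006302))) 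
(.lf (nat_lit 20466874) (dlOf (nat_lit 1) (nat_lit 0x80080008002000200089d6303)))) (.nd (nat_lit 9) 
(.lf (nat_lit 1342201018) (dlOf (nat_lit 1) (nat_lit 0x40020002000800c202))) 
(.lf (nat_lit 8935098) (dlOf (nat_lit 1) (nat_lit 0x2002851a001)))))) (.nd (nat_lit 11) 
(.nd (nat_lit 10) (.nd (nat_lit 6) 
(.lf (nat_lit 2684371898) (dlOf (nat_lit 1) (nat_lit 0x8004002c0008002782))) 
(.lf (nat_lit 8409594) (dlOf (nat_lit 1) (nat_lit 0x60018518681)))) (.nd (nat_lit 12) 
(.lf (nat_lit 8930810) (dlOf (nat_lit 1) (nat_lit 0x800400020008513682))) 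
(.lf (nat_lit 3355465210) (dlOf (nat_lit 2) (nat_lit 0x24006400a7e0200040018009c01))))) 
(.nd (nat_lit 6) (.nd (nat_lit 27) 
(.lf (nat_lit 6710905786) (dlOf (nat_lit 1) (nat_lit 0x40008005d01))) 
(.lf (nat_lit 2013285306) (dlOf (nat_lit 1) (nat_lit 0x60008000800200040008005d03)))) 
(.nd (nat_lit 27) (.lf (nat_lit 1610632186) (dlOf (nat_lit 1) (nat_lit 0x40008005f01))) 
(.lf (nat_lit 3892333562) (dlOf (nat_lit 1) (nat_lit 0x420028005f01)))))))) (.nd (nat_lit 11) 
(.nd (nat_lit 8) (.nd (nat_lit 19) (.nd (nat_lit 6) (.nd (nat_lit 10) 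
(.lf (nat_lit 2752528442) (dlOf (nat_lit 2) (nat_lit 0x29387f0000a4040014002001a0008020682))) 
(.lf (nat_lit 5838488634) (dlOf (nat_lit 1) (nat_lit 0x160018002881)))) (.nd (nat_lit 10) 
(.lf (nat_lit 2753577082) (dlOf (nat_lit 2) (nat_lit 0x500f0005480800200080018002000c0008090083))) 
(.lf (nat_lit 4093658234) (dlOf (nat_lit 1) (nat_lit 0x400400020008002a82))))) (.nd (nat_lit 27) 
(.nd (nat_lit 29) 
(.lf (nat_lit 4362616890) (dlOf (nat_lit 2) (nat_lit 0x4013c000c0640002f04000200180b0b81))) 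
(.lf (nat_lit 1678262330) (dlOf (nat_lit 2) (nat_lit 0x520520064016817e805c0005e0c021c004020c00181c0b82)))) 
(.lf (nat_lit 4228399162) (dlOf (nat_lit 2) (nat_lit 0x40120000c0620002f04000200180b0b81))))) 
(.nd (nat_lit 7) (.nd (nat_lit 9) (.nd (nat_lit 10) 
(.lf (nat_lit 2755674426) (dlOf (nat_lit 2) (nat_lit 0x380c5000130181b0580))) 
(.lf (nat_lit 4093658426) (dlOf (nat_lit 1) (nat_lit 0x20028003281)))) 
(.lf (nat_lit 3422569274) (dlOf (nat_lit 1) (nat_lit 0x8004002c0008002302)))) (.nd (nat_lit 6) 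
(.nd (nat_lit 9) (.lf (nat_lit 604520890) (dlOf (nat_lit 2) (nat_lit 0x4052000201f0057d0282e7a80))) 
(.lf (nat_lit 2752006074) (dlOf (nat_lit 1) (nat_lit 0xa0028004381)))) (.nd (nat_lit 10) 
(.lf (nat_lit 1946698234) (dlOf (nat_lit 1) (nat_lit 0x60004001a00181b0d82))) 
(.lf (nat_lit 2617267706) (dlOf (nat_lit 4) (nat_lit 0xc4005006e00200305c1004b80bc009402400ce0030053f03001e009001b000c014da08006000400060018009c02))))))) 
(.nd (nat_lit 7) (.nd (nat_lit 9) (.nd (nat_lit 6) (.nd (nat_lit 10) 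
(.lf (nat_lit 2751486010) (dlOf (nat_lit 1) (nat_lit 0x30004001c000800a602))) 
(.lf (nat_lit 2483047482) (dlOf (nat_lit 1) (nat_lit 0x10008000c00200040008006083)))) 
(.lf (nat_lit 1008748922) (dlOf (nat_lit 1) (nat_lit 0x400200020008f54e82)))) (.nd (nat_lit 12) 
(.lf (nat_lit 472402490) (dlOf (nat_lit 1) (nat_lit 0x68002015e0008985202))) (.nd (nat_lit 27) 
(.lf (nat_lit 4362099258) (dlOf (nat_lit 5) (nat_lit 0x3300cc0032004006406600176020050033000b98100760198005c80800300080164002006e000800b403))) 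
(.lf (nat_lit 201349690) (dlOf (nat_lit 2) (nat_lit 0x1301d8001ec0800080080010002001e000800b403)))))) 
(.nd (nat_lit 8) (.nd (nat_lit 9) (.nd (nat_lit 20) 
(.lf (nat_lit 3288353978) (dlOf (nat_lit 1) (nat_lit 0x7800400020018006302))) 
(.lf (nat_lit 2754628794) (dlOf (nat_lit 1) (nat_lit 0x4004000200180f6302)))) 
(.lf (nat_lit 469785274) (dlOf (nat_lit 1) (nat_lit 0x80040004001800b882)))) (.nd (nat_lit 12) 
(.lf (nat_lit 5301619642) (dlOf (nat_lit 2) (nat_lit 0x180f800000040028002002e0008005d02))) 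
(.lf (nat_lit 2885704634) (dlOf (nat_lit 1) (nat_lit 0x4000800be01)))))))) (.nd (nat_lit 28) 
(.nd (nat_lit 20) (.nd (nat_lit 19) (.nd (nat_lit 26) (.nd (nat_lit 7) (.nd (nat_lit 8) 
(.lf (nat_lit 671367226) (dlOf (nat_lit 4) (nat_lit 0x11807c0035a04007003e001ac02013801f00015018170d00))) 
(.lf (nat_lit 2375994) (dlOf (nat_lit 2) (nat_lit 0xe60b800b30000004a08000400400020018150582)))) 
(.nd (nat_lit 10) (.lf (nat_lit 19153082) (dlOf (nat_lit 1) (nat_lit 0x180018970481))) 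
(.lf (nat_lit 42222778) (dlOf (nat_lit 1) (nat_lit 0x420019242c81))))) (.nd (nat_lit 6) 
(.nd (nat_lit 21) (.nd (nat_lit 27) 
(.lf (nat_lit 3825483834) (dlOf (nat_lit 1) (nat_lit 0x80008170d01))) 
(.lf (nat_lit 2349088826) (dlOf (nat_lit 1) (nat_lit 0x30008000c002000a00080a0c03)))) 
(.lf (nat_lit 2753839162) (dlOf (nat_lit 1) (nat_lit 0xde00280a0c01)))) 
(.lf (nat_lit 2751748090) (dlOf (nat_lit 1) (nat_lit 0x40020002000800a602))))) (.nd (nat_lit 6) 
(.nd (nat_lit 22) (.lf (nat_lit 802874) (dlOf (nat_lit 2) (nat_lit 0x1de00000025818020680))) 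
(.lf (nat_lit 21774394) (dlOf (nat_lit 2) (nat_lit 0x4048c0140072003a00000025838a70680)))) 
(.nd (nat_lit 8) (.lf (nat_lit 46942842) (dlOf (nat_lit 1) (nat_lit 0x9400400160019385402))) 
(.lf (nat_lit 57428346) (dlOf (nat_lit 1) (nat_lit 0x40019794e81)))))) (.nd (nat_lit 10) 
(.nd (nat_lit 6) (.nd (nat_lit 9) 
(.lf (nat_lit 1327162) (dlOf (nat_lit 5) (nat_lit 0x4e858002701c6002a0d9009d038804e8194000b81401e82c0005415e0010098003d838c008c1c200f8071007d03280016838092036400880e202500000002903000f06c8041000000096080034002000800080b0682))) 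
(.nd (nat_lit 19) (.lf (nat_lit 3424826) (dlOf (nat_lit 1) (nat_lit 0x28008002400200100008201003))) 
(.lf (nat_lit 12337722) (dlOf (nat_lit 1) (nat_lit 0x1580080004002000200086c1003))))) 
(.nd (nat_lit 9) (.lf (nat_lit 2752790778) (dlOf (nat_lit 1) (nat_lit 0x20018047781))) 
(.lf (nat_lit 50088698) (dlOf (nat_lit 2) (nat_lit 0x75a190028bf180141c20000540c001c004000600094c5a02))))) 
(.nd (nat_lit 8) (.nd (nat_lit 7) (.nd (nat_lit 19) 
(.lf (nat_lit 51659834) (dlOf (nat_lit 1) (nat_lit 0x400200020009512882))) 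
(.lf (nat_lit 50086970) (dlOf (nat_lit 1) (nat_lit 0x10008000c002000800094c2883)))) 
(.lf (nat_lit 68961466) (dlOf (nat_lit 1) (nat_lit 0x18008003000200080008842c83)))) 
(.nd (nat_lit 9) (.lf (nat_lit 20204858) (dlOf (nat_lit 1) (nat_lit 0x800080048002000400089d6903))) 
(.lf (nat_lit 20731706) (dlOf (nat_lit 1) (nat_lit 0x200289da101))))))) (.nd (nat_lit 6) 
(.nd (nat_lit 26) (.nd (nat_lit 27) (.nd (nat_lit 9) (.nd (nat_lit 29) 
(.lf (nat_lit 1342455866) (dlOf (nat_lit 5) (nat_lit 0x250924002438e0015b0400ee24900740f80005071c004837a0015a08003c2490006981000b1248003400800680080014002001c0008030d03))) 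
(.lf (nat_lit 1879326778) (dlOf (nat_lit 1) (nat_lit 0x80080004002000200080e0b83)))) 
(.lf (nat_lit 3494134330) (dlOf (nat_lit 1) (nat_lit 0xe00081b1001)))) (.nd (nat_lit 8) 
(.nd (nat_lit 19) (.lf (nat_lit 3087286330) (dlOf (nat_lit 1) (nat_lit 0x80008170d01))) 
(.lf (nat_lit 5773213754) (dlOf (nat_lit 6) (nat_lit 0xa13e0010201001a0990002c4080a384fc06582640007804002a13f0001381012b09f809a04c80004608001c002000200080b0482)))) 
(.lf (nat_lit 5773739322) (dlOf (nat_lit 1) (nat_lit 0x4002000200080e3282))))) (.nd (nat_lit 29) 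
(.nd (nat_lit 30) 
(.lf (nat_lit 470040634) (dlOf (nat_lit 5) (nat_lit 0x250924002438e0015b0400ee24900740f80005071c004837a0015a08003c2490006981000b1248003400800680080014002001c0008030d03))) 
(.lf (nat_lit 1543782458) (dlOf (nat_lit 4) (nat_lit 0x11807c0035004007003e001a502013801f00012018170d00)))) 
(.nd (nat_lit 19) 
(.lf (nat_lit 1006911546) (dlOf (nat_lit 1) (nat_lit 0x80080004002000200080e0b83))) 
(.lf (nat_lit 6377193530) (dlOf (nat_lit 6) (nat_lit 0xa1310010301001a0918002c4080a384c806582460007804002a1320001101012b099009a048c0003c08001c002000200080b0482)))))) 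
(.nd (nat_lit 10) (.nd (nat_lit 7) (.nd (nat_lit 8) 
(.lf (nat_lit 5167661178) (dlOf (nat_lit 1) (nat_lit 0x200180f0b81))) 
(.lf (nat_lit 4697899386) (dlOf (nat_lit 2) (nat_lit 0xa80330008f0180c5900)))) (.nd (nat_lit 9) 
(.lf (nat_lit 2416198138) (dlOf (nat_lit 1) (nat_lit 0x660008003000201780008090d83))) 
(.lf (nat_lit 1880902650) (dlOf (nat_lit 1) (nat_lit 0x20028c95f01))))) (.nd (nat_lit 26) 
(.nd (nat_lit 11) (.lf (nat_lit 6174295546) (dlOf (nat_lit 1) (nat_lit 0xa00180d3681))) 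
(.lf (nat_lit 3624160762) (dlOf (nat_lit 2) (nat_lit 0x20208000100801d800800f8002003a0008146f83)))) 
(.nd (nat_lit 7) (.lf (nat_lit 474236538) (dlOf (nat_lit 1) (nat_lit 0x200090e3981))) 
(.lf (nat_lit 5704533498) (dlOf (nat_lit 1) (nat_lit 0x400180d3681)))))))))) (.nd (nat_lit 5) 
(.nd (nat_lit 18) (.nd (nat_lit 19) (.nd (nat_lit 26) (.nd (nat_lit 28) (.nd (nat_lit 24) 
(.nd (nat_lit 7) (.nd (nat_lit 21) 
(.lf (nat_lit 2281848858) (dlOf (nat_lit 1) (nat_lit 0x8000200180008080482))) 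
(.lf (nat_lit 10633242) (dlOf (nat_lit 1) (nat_lit 0xc00400020008600182)))) (.nd (nat_lit 6) 
(.nd (nat_lit 10) (.lf (nat_lit 153754) (dlOf (nat_lit 1) (nat_lit 0x4000800a881))) 
(.lf (nat_lit 48383130) (dlOf (nat_lit 2) (nat_lit 0x4e120008902000a0029402b81)))) 
(.lf (nat_lit 3221375450) (dlOf (nat_lit 3) (nat_lit 0x8814c002006e0144c04001405300a24818114e80))))) 
(.nd (nat_lit 11) (.nd (nat_lit 20) 
(.lf (nat_lit 25313306) (dlOf (nat_lit 11) (nat_lit 0x31322a015191100b0c378032e1ac03d2b4401a190a010d9150041c88805261bc02c2b4401a1508017b91500a9c3780684c10073e454008b0de018500401db91500b8c378060fc10058e454025f0de018060401bd91500bcc37805fe41006f645400130de017e304014d91500be68100cbc8a805d61bc00000080028004001c0018bf0882))) 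
(.nd (nat_lit 22) (.lf (nat_lit 26361882) (dlOf (nat_lit 1) (nat_lit 0xc0018c40501))) 
(.lf (nat_lit 22167578) (dlOf (nat_lit 2) (nat_lit 0x52a980007a040024004001e0018aa0b02))))) 
(.nd (nat_lit 7) 
(.lf (nat_lit 20073498) (dlOf (nat_lit 3) (nat_lit 0x84280006404000408a0001502002c00189d6001))) 
(.lf (nat_lit 20073370) (dlOf (nat_lit 1) (nat_lit 0x8008000c002000600089d5c83)))))) 
(.nd (nat_lit 30) (.nd (nat_lit 7) (.nd (nat_lit 6) 
(.lf (nat_lit 4563550490) (dlOf (nat_lit 1) (nat_lit 0xa8002003c0008090a82))) 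
(.lf (nat_lit 268583002) (dlOf (nat_lit 1) (nat_lit 0x400400020008090682)))) (.nd (nat_lit 8) 
(.lf (nat_lit 4697769114) (dlOf (nat_lit 1) (nat_lit 0x5c004002e0018092b82))) 
(.lf (nat_lit 4563552666) (dlOf (nat_lit 1) (nat_lit 0x20018094e81))))) (.nd (nat_lit 6) 
(.nd (nat_lit 29) (.lf (nat_lit 3624026138) (dlOf (nat_lit 1) (nat_lit 0x4e00280b0001))) 
(.lf (nat_lit 2013413402) (dlOf (nat_lit 1) (nat_lit 0x20018060a01)))) (.nd (nat_lit 7) 
(.lf (nat_lit 1345473114) (dlOf (nat_lit 3) (nat_lit 0x17826800ac114005607a0001283005904d001381e80004408000400400020018c35302))) 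
(.lf (nat_lit 5637293530) (dlOf (nat_lit 1) (nat_lit 0x18c002006000080d3602))))))) 
(.nd (nat_lit 30) (.nd (nat_lit 6) (.nd (nat_lit 28) (.nd (nat_lit 10) 
(.lf (nat_lit 604127258) (dlOf (nat_lit 1) (nat_lit 0x198008004c002002e0008030103))) 
(.lf (nat_lit 738348058) (dlOf (nat_lit 1) (nat_lit 0x60008096001)))) (.nd (nat_lit 8) 
(.lf (nat_lit 470958106) (dlOf (nat_lit 1) (nat_lit 0x60028210581))) 
(.lf (nat_lit 2617398042) (dlOf (nat_lit 1) (nat_lit 0x400080a8f81))))) (.nd (nat_lit 7) 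
(.nd (nat_lit 10) (.lf (nat_lit 1007831642) (dlOf (nat_lit 2) (nat_lit 0xd802b00012818805300))) 
(.lf (nat_lit 2617398874) (dlOf (nat_lit 6) (nat_lit 0x40100004f80800480b00025a04009c0580010202004202f0001e8100050178000f00800200080018002000800080a9c03)))) 
(.lf (nat_lit 6509711066) (dlOf (nat_lit 1) (nat_lit 0x20008001000200040008147383))))) 
(.nd (nat_lit 7) (.nd (nat_lit 10) (.nd (nat_lit 27) 
(.lf (nat_lit 1140998170) (dlOf (nat_lit 3) (nat_lit 0x20030025600800200180008000009570400120028060a01))) 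
(.lf (nat_lit 3422699546) (dlOf (nat_lit 1) (nat_lit 0xe40028060481)))) 
(.lf (nat_lit 3959571482) (dlOf (nat_lit 3) (nat_lit 0x22005e011630200ae02f008af018112880)))) 
(.nd (nat_lit 8) (.nd (nat_lit 10) 
(.lf (nat_lit 1677871258) (dlOf (nat_lit 1) (nat_lit 0x1000200060008114802))) 
(.lf (nat_lit 1275217050) (dlOf (nat_lit 1) (nat_lit 0x20028092b81)))) (.nd (nat_lit 6) 
(.lf (nat_lit 1409436058) (dlOf (nat_lit 1) (nat_lit 0xc00200020008004e82))) 
(.lf (nat_lit 6241274330) (dlOf (nat_lit 1) (nat_lit 0xc600180d4e81)))))))) (.nd (nat_lit 20) 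
(.nd (nat_lit 26) (.nd (nat_lit 25) (.nd (nat_lit 30) (.nd (nat_lit 6) (.nd (nat_lit 21) 
(.lf (nat_lit 134889498) (dlOf (nat_lit 2) (nat_lit 0x3c041000000180d0880))) 
(.lf (nat_lit 6963226) (dlOf (nat_lit 3) (nat_lit 0xc0000002e0200de000000160184a0500)))) 
(.lf (nat_lit 537542746) (dlOf (nat_lit 1) (nat_lit 0x3600280a1181)))) (.nd (nat_lit 27) 
(.nd (nat_lit 28) (.lf (nat_lit 3221897242) (dlOf (nat_lit 1) (nat_lit 0x200181b0481))) 
(.lf (nat_lit 1342849050) (dlOf (nat_lit 2) (nat_lit 0x3500800008008015800800bc002007800080f0503)))) 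
(.lf (nat_lit 3892985882) (dlOf (nat_lit 1) (nat_lit 0x4004000200082c0582))))) (.nd (nat_lit 6) 
(.nd (nat_lit 22) (.lf (nat_lit 51003674) (dlOf (nat_lit 1) (nat_lit 0x4002001000094e8002))) 
(.lf (nat_lit 46809370) (dlOf (nat_lit 1) (nat_lit 0x400400020019380a82)))) 
(.lf (nat_lit 34227290) (dlOf (nat_lit 1) (nat_lit 0x60028fb2901))))) (.nd (nat_lit 28) 
(.nd (nat_lit 6) (.nd (nat_lit 29) 
(.lf (nat_lit 201998362) (dlOf (nat_lit 2) (nat_lit 0x3c041000000180d0880))) 
(.lf (nat_lit 3960094746) (dlOf (nat_lit 1) (nat_lit 0x200181b0481)))) 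
(.lf (nat_lit 1678393434) (dlOf (nat_lit 1) (nat_lit 0x3400400120018201a82)))) (.nd (nat_lit 6) 
(.nd (nat_lit 21) 
(.lf (nat_lit 3154788378) (dlOf (nat_lit 1) (nat_lit 0x10008001800200020008320983))) 
(.lf (nat_lit 472530970) (dlOf (nat_lit 2) (nat_lit 0xb0a10002f40800500080058002001600089b0603)))) 
(.lf (nat_lit 1409957978) (dlOf (nat_lit 1) (nat_lit 0x3600280a1181)))))) (.nd (nat_lit 21) 
(.nd (nat_lit 23) (.nd (nat_lit 22) 
(.lf (nat_lit 4095361050) (dlOf (nat_lit 1) (nat_lit 0x880080020002002200080a0503))) 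
(.lf (nat_lit 5914650) (dlOf (nat_lit 3) (nat_lit 0xc0000002e0200de00000016018410500)))) 
(.nd (nat_lit 24) (.lf (nat_lit 10108954) (dlOf (nat_lit 1) (nat_lit 0x200285b0481))) 
(.lf (nat_lit 26886170) (dlOf (nat_lit 1) (nat_lit 0xc004000c0008c80502))))) (.nd (nat_lit 6) 
(.nd (nat_lit 9) (.nd (nat_lit 22) 
(.lf (nat_lit 3817498) (dlOf (nat_lit 3) (nat_lit 0x884b2002a2500000801002812c800016040044002000c0008230502))) 
(.lf (nat_lit 24789018) (dlOf (nat_lit 2) (nat_lit 0x6be0000240200020018bb0501)))) 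
(.lf (nat_lit 473580058) (dlOf (nat_lit 1) (nat_lit 0x2400400060008f68702)))) (.nd (nat_lit 7) 
(.lf (nat_lit 2755281242) (dlOf (nat_lit 1) (nat_lit 0x1120018158801))) 
(.lf (nat_lit 49955802) (dlOf (nat_lit 1) (nat_lit 0x80080008002000200094c2883)))))))) 
(.nd (nat_lit 21) (.nd (nat_lit 26) (.nd (nat_lit 30) (.nd (nat_lit 22) (.nd (nat_lit 19) 
(.nd (nat_lit 25) (.lf (nat_lit 6442860570) (dlOf (nat_lit 2) (nat_lit 0x18c00c000120181e0400))) 
(.lf (nat_lit 33964058) (dlOf (nat_lit 1) (nat_lit 0x400400020008f80602)))) 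
(.lf (nat_lit 59654170) (dlOf (nat_lit 1) (nat_lit 0x400200020009820102)))) (.nd (nat_lit 6) 
(.nd (nat_lit 19) 
(.lf (nat_lit 12992538) (dlOf (nat_lit 7) (nat_lit 0xa94c6c010c61b00373018000fc18007986c0007c0410440000002402018063300d930c0000481003b98cc024cc30000110400aa633006630c00003c1002700080004002000e00086f0403))) 
(.lf (nat_lit 13516826) (dlOf (nat_lit 1) (nat_lit 0x2c002001a0008730882)))) 
(.lf (nat_lit 21381338) (dlOf (nat_lit 1) (nat_lit 0x20028a31c01))))) (.nd (nat_lit 31) 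
(.nd (nat_lit 32) (.nd (nat_lit 7) 
(.lf (nat_lit 1346781210) (dlOf (nat_lit 1) (nat_lit 0x80029000101))) 
(.lf (nat_lit 1611022490) (dlOf (nat_lit 1) (nat_lit 0x80080048002000200080c1203)))) 
(.nd (nat_lit 6) (.lf (nat_lit 5771774746) (dlOf (nat_lit 1) (nat_lit 0x3c0018005c01))) 
(.lf (nat_lit 5637554266) (dlOf (nat_lit 7) (nat_lit 0x380940009c04003404c00560180002202000300a0000c8080048058004402600360120006000800100000005a1400600240002c020018012000100000005c100160008005c00200020008100683))))) 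
(.nd (nat_lit 22) (.nd (nat_lit 27) 
(.lf (nat_lit 4026941466) (dlOf (nat_lit 1) (nat_lit 0xc004000c00080d0882))) 
(.lf (nat_lit 3355852826) (dlOf (nat_lit 4) (nat_lit 0xf40300011e0100520000007cc0804a00b8003a204002c00200420008130482)))) 
(.lf (nat_lit 3494264858) (dlOf (nat_lit 2) (nat_lit 0x32013001240900002404000600081e0401)))))) 
(.nd (nat_lit 7) (.nd (nat_lit 6) (.nd (nat_lit 22) (.nd (nat_lit 28) 
(.lf (nat_lit 3288743962) (dlOf (nat_lit 1) (nat_lit 0xc004000c00080d0882))) 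
(.lf (nat_lit 3557179418) (dlOf (nat_lit 1) (nat_lit 0x188008008c00200140008140503)))) 
(.lf (nat_lit 2756067354) (dlOf (nat_lit 1) (nat_lit 0x28800800d4002008e00081e0503)))) 
(.nd (nat_lit 8) 
(.lf (nat_lit 6241534042) (dlOf (nat_lit 7) (nat_lit 0x380980009c04003404e0056018000220200030098000c80800d8058002402a00220120006000800100000005a14006002c0002c020018016000100000005c100160008005c00200020008100683))) 
(.lf (nat_lit 2752397658) (dlOf (nat_lit 2) (nat_lit 0x281fa00032018014e00))))) (.nd (nat_lit 8) 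
(.nd (nat_lit 6) (.lf (nat_lit 738607258) (dlOf (nat_lit 1) (nat_lit 0x80080048002000200080c1203))) 
(.lf (nat_lit 6377324762) (dlOf (nat_lit 1) (nat_lit 0xc004000c00080c1c02)))) (.nd (nat_lit 27) 
(.lf (nat_lit 1678131610) (dlOf (nat_lit 1) (nat_lit 0x1c002001200081a0782))) 
(.lf (nat_lit 3959832986) (dlOf (nat_lit 1) (nat_lit 0x20028170781))))))) (.nd (nat_lit 6) 
(.nd (nat_lit 7) (.nd (nat_lit 8) (.nd (nat_lit 20) (.nd (nat_lit 22) 
(.lf (nat_lit 2506778) (dlOf (nat_lit 1) (nat_lit 0x20008000c00200020008160903))) 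
(.lf (nat_lit 15089690) (dlOf (nat_lit 8) (nat_lit 0xc895800ad47500fb9f5c00c8ebe000410800d695800ba47501031f5c012cebe000400800ba95800ae47500fc1f5c00d0ebe0003e0800c495800b447500fd1f5c00fcebe0003d08000295800ae47500f89f5c0006e0c03111d404187d70001b02000d4ac000323a80724fae000e7ac00033998000002802000080024002003400087b0503)))) 
(.lf (nat_lit 62275610) (dlOf (nat_lit 1) (nat_lit 0x2400400020009990182)))) (.nd (nat_lit 9) 
(.nd (nat_lit 19) 
(.lf (nat_lit 20332826) (dlOf (nat_lit 1) (nat_lit 0xa80080004002000200089d0a83))) 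
(.lf (nat_lit 20857114) (dlOf (nat_lit 1) (nat_lit 0xc002000200089e4b02)))) 
(.lf (nat_lit 20335386) (dlOf (nat_lit 1) (nat_lit 0x4002000200089d5c02))))) (.nd (nat_lit 20) 
(.nd (nat_lit 9) (.lf (nat_lit 19284122) (dlOf (nat_lit 1) (nat_lit 0x400200020008970482))) 
(.lf (nat_lit 19813018) (dlOf (nat_lit 1) (nat_lit 0x100080004002000200089d8c83)))) 
(.nd (nat_lit 8) (.lf (nat_lit 45499546) (dlOf (nat_lit 1) (nat_lit 0xa0029322b81))) 
(.lf (nat_lit 2755021210) (dlOf (nat_lit 1) (nat_lit 0x4002000200080f4e82)))))) (.nd (nat_lit 8) 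
(.nd (nat_lit 10) (.nd (nat_lit 9) 
(.lf (nat_lit 2506842) (dlOf (nat_lit 1) (nat_lit 0xa40008161181))) 
(.lf (nat_lit 31869530) (dlOf (nat_lit 1) (nat_lit 0x280028e95301)))) (.nd (nat_lit 7) 
(.lf (nat_lit 57033818) (dlOf (nat_lit 2) (nat_lit 0x2a3c00083019792900))) 
(.lf (nat_lit 19813594) (dlOf (nat_lit 1) (nat_lit 0x200289d9501))))) (.nd (nat_lit 7) 
(.nd (nat_lit 10) (.lf (nat_lit 19813210) (dlOf (nat_lit 1) (nat_lit 0x200289d8f81))) 
(.lf (nat_lit 3492693850) (dlOf (nat_lit 1) (nat_lit 0x300080004002000600080f3f83)))) 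
(.lf (nat_lit 3492692954) (dlOf (nat_lit 1) (nat_lit 0x4004000200080f2882)))))))) (.nd (nat_lit 8) 
(.nd (nat_lit 30) (.nd (nat_lit 18) (.nd (nat_lit 19) (.nd (nat_lit 28) (.nd (nat_lit 7) 
(.nd (nat_lit 9) 
(.lf (nat_lit 25313338) (dlOf (nat_lit 16) (nat_lit 0x48645802130e0001e20401bf91600bdc380006a010049645802130e0001a40401319160068c3800068c1004ae45801f30e00019b0400e99160054c3800027c1001ce458000f204023722c00d987000039020083c8b0033e1c0000720800db22c00378700001b02007bc8b002ce1c00004a08041722c01d987000012020080c8b003ae1c00004408024322c0000f02000baaf0074c8b002f61c0000000c0080004001e0018bf0b82))) 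
(.lf (nat_lit 2755805754) (dlOf (nat_lit 1) (nat_lit 0x3200281b1001)))) (.nd (nat_lit 9) 
(.lf (nat_lit 13779130) (dlOf (nat_lit 1) (nat_lit 0x400200020008750382))) 
(.lf (nat_lit 6509711034) (dlOf (nat_lit 1) (nat_lit 0x100018147281))))) (.nd (nat_lit 6) 
(.nd (nat_lit 27) 
(.lf (nat_lit 2416066618) (dlOf (nat_lit 1) (nat_lit 0x900080030002001a0008030d03))) 
(.lf (nat_lit 2550284346) (dlOf (nat_lit 1) (nat_lit 0x900080030002001a0008030d03)))) 
(.nd (nat_lit 7) 
(.lf (nat_lit 939673722) (dlOf (nat_lit 2) (nat_lit 0xb0110000e8080010008000c00200020008144783))) 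
(.lf (nat_lit 4563550458) (dlOf (nat_lit 2) (nat_lit 0x1001500560090005341006680080220002000a0008090a83)))))) 
(.nd (nat_lit 23) (.nd (nat_lit 26) (.nd (nat_lit 27) 
(.lf (nat_lit 537542714) (dlOf (nat_lit 1) (nat_lit 0x3200280a0c01))) 
(.lf (nat_lit 134889530) (dlOf (nat_lit 2) (nat_lit 0x2780620000002001600080d0b81)))) 
(.nd (nat_lit 21) 
(.lf (nat_lit 201998394) (dlOf (nat_lit 2) (nat_lit 0x2780620000002001600080d0b81))) 
(.lf (nat_lit 2754232378) (dlOf (nat_lit 2) (nat_lit 0x100460000002000400280d0b81))))) 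
(.nd (nat_lit 6) 
(.lf (nat_lit 10108986) (dlOf (nat_lit 12) (nat_lit 0x72718c01ab7ac0005f040187c63002edeb00017410046f18c032b7ac000590400f3c63006ddeb00015c100acf18c06bb8c402f5c5e00e4e2800a9ef58063f7aa0183bd00009cb20015658807ea4ca013a7290002378806c9a70079c000000521c00c1e1d013ee318067718800af8c001e3c5e013fdeb0061ef54014b7a6004dbd00044d86005b499402c912e010081f00033fe80709c100108d54019a407000600000012c90047718c000660402538c6000320201dfc630002deb0000c01004af18c0005c04000cff80000002000a00085b0681))) 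
(.lf (nat_lit 46811770) (dlOf (nat_lit 3) (nat_lit 0xa679000178100093310000b8080048008000400200200009385403)))))) 
(.nd (nat_lit 6) (.nd (nat_lit 9) (.nd (nat_lit 7) (.nd (nat_lit 20) 
(.lf (nat_lit 2617655354) (dlOf (nat_lit 1) (nat_lit 0x8004002a0008130d82))) 
(.lf (nat_lit 30818362) (dlOf (nat_lit 1) (nat_lit 0x14800400440008e50c82)))) 
(.lf (nat_lit 3031226) (dlOf (nat_lit 1) (nat_lit 0x20028200381)))) (.nd (nat_lit 11) 
(.lf (nat_lit 24003130) (dlOf (nat_lit 1) (nat_lit 0x158008000400200020008b81003))) 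
(.lf (nat_lit 31869498) (dlOf (nat_lit 1) (nat_lit 0x400200020008e95202))))) (.nd (nat_lit 9) 
(.nd (nat_lit 23) (.lf (nat_lit 2550548602) (dlOf (nat_lit 1) (nat_lit 0x4004000200080f4782))) 
(.lf (nat_lit 8800378) (dlOf (nat_lit 1) (nat_lit 0x88008003000200160008514783)))) (.nd (nat_lit 7) 
(.lf (nat_lit 54413946) (dlOf (nat_lit 1) (nat_lit 0x38008001800200100009655403))) 
(.lf (nat_lit 8799994) (dlOf (nat_lit 1) (nat_lit 0x40028513b81))))))) (.nd (nat_lit 27) 
(.nd (nat_lit 28) (.nd (nat_lit 6) (.nd (nat_lit 18) (.nd (nat_lit 19) 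
(.lf (nat_lit 1073889338) (dlOf (nat_lit 1) (nat_lit 0x80028020681))) 
(.lf (nat_lit 3221897274) (dlOf (nat_lit 2) (nat_lit 0x3408c00dc802000e00081b0781)))) 
(.lf (nat_lit 3288743994) (dlOf (nat_lit 1) (nat_lit 0x900080080002006800080d0b83)))) 
(.lf (nat_lit 3758244090) (dlOf (nat_lit 1) (nat_lit 0x3a0028117081)))) (.nd (nat_lit 6) 
(.nd (nat_lit 18) (.nd (nat_lit 19) 
(.lf (nat_lit 1946304570) (dlOf (nat_lit 1) (nat_lit 0x80028020681))) 
(.lf (nat_lit 3492429882) (dlOf (nat_lit 2) (nat_lit 0x100460000002000400280d0b81)))) 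
(.lf (nat_lit 4026941498) (dlOf (nat_lit 1) (nat_lit 0x900080080002006800080d0b83)))) 
(.nd (nat_lit 10) (.lf (nat_lit 3492956282) (dlOf (nat_lit 1) (nat_lit 0x4002007000080f4782))) 
(.lf (nat_lit 4094051450) (dlOf (nat_lit 1) (nat_lit 0x8008000400200100008002a83)))))) 
(.nd (nat_lit 7) (.nd (nat_lit 9) (.nd (nat_lit 26) 
(.lf (nat_lit 5772034106) (dlOf (nat_lit 1) (nat_lit 0x20008000c00200180008051683))) 
(.lf (nat_lit 6376013882) (dlOf (nat_lit 1) (nat_lit 0x20008000c00200180008051683)))) 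
(.lf (nat_lit 3959577146) (dlOf (nat_lit 3) (nat_lit 0x60370004401001e028000080b8000f608002c0020038000811b402)))) 
(.nd (nat_lit 6) (.nd (nat_lit 10) 
(.lf (nat_lit 5773344954) (dlOf (nat_lit 1) (nat_lit 0x4002000200080c1702))) 
(.lf (nat_lit 1543654586) (dlOf (nat_lit 2) (nat_lit 0x1004a0001d0200020028146301)))) 
(.nd (nat_lit 9) 
(.lf (nat_lit 1744978170) (dlOf (nat_lit 1) (nat_lit 0x8008001400200040008090a83))) 
(.lf (nat_lit 3355595514) (dlOf (nat_lit 1) (nat_lit 0x600080038002002a00080a8f83)))))))) 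
(.nd (nat_lit 26) (.nd (nat_lit 18) (.nd (nat_lit 10) (.nd (nat_lit 9) (.nd (nat_lit 7) 
(.lf (nat_lit 3624026426) (dlOf (nat_lit 2) (nat_lit 0xb20000000b8180b0580))) 
(.lf (nat_lit 39995834) (dlOf (nat_lit 1) (nat_lit 0x1800191f4e81)))) (.nd (nat_lit 6) 
(.lf (nat_lit 20073274) (dlOf (nat_lit 1) (nat_lit 0xc002000800089d5c02))) 
(.lf (nat_lit 3355591546) (dlOf (nat_lit 1) (nat_lit 0x400180a2581))))) (.nd (nat_lit 21) 
(.nd (nat_lit 11) (.lf (nat_lit 2818721082) (dlOf (nat_lit 1) (nat_lit 0x200080d3281))) 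
(.lf (nat_lit 134368570) (dlOf (nat_lit 1) (nat_lit 0x20028006901)))) (.nd (nat_lit 9) 
(.lf (nat_lit 5773608250) (dlOf (nat_lit 1) (nat_lit 0x200280e3281))) 
(.lf (nat_lit 20600634) (dlOf (nat_lit 1) (nat_lit 0x200189da101)))))) (.nd (nat_lit 19) 
(.nd (nat_lit 6) (.lf (nat_lit 21381434) (dlOf (nat_lit 1) (nat_lit 0x80008a34c01))) 
(.nd (nat_lit 7) (.nd (nat_lit 29) 
(.lf (nat_lit 3221635450) (dlOf (nat_lit 1) (nat_lit 0x1080080004002000e0008170783))) 
(.lf (nat_lit 1611022714) (dlOf (nat_lit 1) (nat_lit 0xe00280c5901)))) 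
(.lf (nat_lit 1476806138) (dlOf (nat_lit 1) (nat_lit 0x20018203681))))) (.nd (nat_lit 6) 
(.nd (nat_lit 9) (.lf (nat_lit 7225658) (dlOf (nat_lit 1) (nat_lit 0x2a00084b0701))) 
(.lf (nat_lit 3492693818) (dlOf (nat_lit 2) (nat_lit 0xc00e000030080080008001c002001000080f3e03)))) 
(.nd (nat_lit 7) 
(.lf (nat_lit 1344163706) (dlOf (nat_lit 1) (nat_lit 0x880080004002000200083d7783))) 
(.lf (nat_lit 3490595322) (dlOf (nat_lit 4) (nat_lit 0x102300052801000a11800293c0800088c00147604000c00200040008017802))))))) 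
(.nd (nat_lit 6) (.nd (nat_lit 31) (.nd (nat_lit 29) (.nd (nat_lit 21) 
(.lf (nat_lit 4362486202) (dlOf (nat_lit 2) (nat_lit 0xf804700000018090800))) 
(.lf (nat_lit 69616058) (dlOf (nat_lit 1) (nat_lit 0xc0018b76f81)))) (.nd (nat_lit 7) 
(.lf (nat_lit 872826170) (dlOf (nat_lit 1) (nat_lit 0x7200280e3281))) 
(.lf (nat_lit 738347962) (dlOf (nat_lit 1) (nat_lit 0x20018095d01))))) (.nd (nat_lit 27) 
(.nd (nat_lit 9) (.lf (nat_lit 2754496954) (dlOf (nat_lit 1) (nat_lit 0x14002001600080f4e82))) 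
(.lf (nat_lit 2751875002) (dlOf (nat_lit 1) (nat_lit 0x80028004381)))) (.nd (nat_lit 7) 
(.lf (nat_lit 2885828922) (dlOf (nat_lit 2) (nat_lit 0xb20000000b8180b0580))) 
(.lf (nat_lit 4228268474) (dlOf (nat_lit 2) (nat_lit 0xf804000000018090800)))))) (.nd (nat_lit 11) 
(.nd (nat_lit 9) (.nd (nat_lit 10) 
(.lf (nat_lit 2752397818) (dlOf (nat_lit 2) (nat_lit 0x641f800011018017e00))) 
(.lf (nat_lit 6375753210) (dlOf (nat_lit 1) (nat_lit 0x100018003681)))) (.nd (nat_lit 18) 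
(.lf (nat_lit 2752136186) (dlOf (nat_lit 1) (nat_lit 0x400200020008002882))) 
(.lf (nat_lit 70140922) (dlOf (nat_lit 1) (nat_lit 0x80018f42881))))) (.nd (nat_lit 7) 
(.nd (nat_lit 12) (.lf (nat_lit 2755021178) (dlOf (nat_lit 1) (nat_lit 0x2600280f4e81))) 
(.lf (nat_lit 3959576954) (dlOf (nat_lit 2) (nat_lit 0x3202f0002581811ae80)))) 
(.lf (nat_lit 1543654906) (dlOf (nat_lit 6) (nat_lit 0x240340001602000a0200000a810016012800780880002808002c04a003001a0000282001100d0000100803f800801a400200100008146f83)))))))))) 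
(.nd (nat_lit 5) (.nd (nat_lit 17) (.nd (nat_lit 18) (.nd (nat_lit 26) (.nd (nat_lit 8) 
(.nd (nat_lit 24) (.nd (nat_lit 27) (.nd (nat_lit 19) (.nd (nat_lit 6) (.nd (nat_lit 10) 
(.lf (nat_lit 12664858) (dlOf (nat_lit 1) (nat_lit 0x4002000200086d0902))) 
(.lf (nat_lit 6174100506) (dlOf (nat_lit 3) (nat_lit 0x20034000e0170001902001400c800800580002a080008004002e0018056002)))) 
(.lf (nat_lit 8475354) (dlOf (nat_lit 1) (nat_lit 0x400200020008518c82)))) (.nd (nat_lit 6) 
(.nd (nat_lit 7) 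
(.lf (nat_lit 537477146) (dlOf (nat_lit 17) (nat_lit 0xaa05f01f002a803300c403c3e0c00040be029c05500070188078741800d817c03c2404006c0be01e1002037205500710188076e0100098174038dc0402400ba0104054004702280718c1800e817c01540ba00f2054004502280718820021817c00540ba00c405400360228071782002c0174021c0a8008204500deb03003f02e8034815000e408a01bd50600c00540002022806f4010013017c01fca0400980be00fe202002e05f007e881000102f803e480803000080358002009400080a0903))) 
(.lf (nat_lit 1344881818) (dlOf (nat_lit 3) (nat_lit 0x1c1380008902000809c00044018982b80)))) 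
(.lf (nat_lit 537477210) (dlOf (nat_lit 4) (nat_lit 0x1e016001ec0a200da03f0000a83001602c002b014401a407e00c40320000984000b02c0000280800e00080064002009200080a1183))))) 
(.nd (nat_lit 28) (.nd (nat_lit 7) (.nd (nat_lit 19) 
(.lf (nat_lit 6576750618) (dlOf (nat_lit 1) (nat_lit 0x200180b0001))) 
(.lf (nat_lit 3892920346) (dlOf (nat_lit 1) (nat_lit 0x8008000800200020008290983)))) 
(.nd (nat_lit 10) (.lf (nat_lit 6576750746) (dlOf (nat_lit 1) (nat_lit 0x200080b0181))) 
(.lf (nat_lit 4966139034) (dlOf (nat_lit 1) (nat_lit 0x40018002b81))))) (.nd (nat_lit 32) 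
(.nd (nat_lit 7) 
(.lf (nat_lit 3087089690) (dlOf (nat_lit 3) (nat_lit 0xa803e002c01b00ed502002600f8004006c000802e01da806000400280b0001))) 
(.lf (nat_lit 939606170) (dlOf (nat_lit 13) (nat_lit 0x19809800e8044007801d003f00e0001382001a809800d8044007601d003f00e000134200060088002403a0004404007c0260040011001e007400f8038000430800760260040011001d807400f80380004208003c02600230110018807400b80380003e08002601c0001e8100240130016808800c403a006401c0001e040025013001500700007608010004c0062022003600e801c00700006e10006404c00035020044026003d00e0000cc1001080080020002000600080b0183)))) 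
(.nd (nat_lit 9) 
(.lf (nat_lit 4697702426) (dlOf (nat_lit 2) (nat_lit 0x69019803854080030008003c00200640008090003))) 
(.lf (nat_lit 6308316698) (dlOf (nat_lit 7) (nat_lit 0x2780640008a040050014000150200400190000901005c00c8025802800022080044032006200a000010200470050000000801000080074002001c0008053703))))))) 
(.nd (nat_lit 22) (.nd (nat_lit 6) (.nd (nat_lit 7) (.nd (nat_lit 10) 
(.lf (nat_lit 28393498) (dlOf (nat_lit 2) (nat_lit 0x6d5100017018d90500))) 
(.lf (nat_lit 20007962) (dlOf (nat_lit 2) (nat_lit 0x7d6e000190189d6000)))) 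
(.lf (nat_lit 18956442) (dlOf (nat_lit 1) (nat_lit 0x8008002800200040008970483)))) 
(.nd (nat_lit 10) (.nd (nat_lit 11) 
(.lf (nat_lit 20009562) (dlOf (nat_lit 1) (nat_lit 0x200289d8981))) 
(.lf (nat_lit 62474842) (dlOf (nat_lit 1) (nat_lit 0x1c00299a5301)))) 
(.lf (nat_lit 61949530) (dlOf (nat_lit 2) (nat_lit 0x25358000cc080080008007000200020009923903))))) 
(.nd (nat_lit 19) (.nd (nat_lit 6) 
(.lf (nat_lit 21053466) (dlOf (nat_lit 1) (nat_lit 0xd400400f20008a00702))) 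
(.lf (nat_lit 32590426) (dlOf (nat_lit 2) (nat_lit 0x36d74000250200200028ef5301)))) 
(.nd (nat_lit 20) (.nd (nat_lit 23) 
(.lf (nat_lit 21577754) (dlOf (nat_lit 1) (nat_lit 0x800200040008a50502))) 
(.lf (nat_lit 29966362) (dlOf (nat_lit 1) (nat_lit 0x400200020008e30002)))) 
(.lf (nat_lit 31014938) (dlOf (nat_lit 1) (nat_lit 0x40008e60b81))))))) (.nd (nat_lit 6) 
(.nd (nat_lit 28) (.nd (nat_lit 9) 
(.lf (nat_lit 20012314) (dlOf (nat_lit 1) (nat_lit 0x4004000200089dc602))) (.nd (nat_lit 20) 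
(.lf (nat_lit 46222106) (dlOf (nat_lit 1) (nat_lit 0x60019385c01))) 
(.lf (nat_lit 20007706) (dlOf (nat_lit 1) (nat_lit 0x80080004002000200089d5c03))))) 
(.nd (nat_lit 29) (.nd (nat_lit 9) 
(.lf (nat_lit 1342265626) (dlOf (nat_lit 1) (nat_lit 0x98008008c0020064000800ab03))) 
(.lf (nat_lit 5637229338) (dlOf (nat_lit 5) (nat_lit 0x8805400440080022003000b083000d00a80055008008005000400040009d0400220140011001000238100018008001c00200120008055c03)))) 
(.nd (nat_lit 7) (.lf (nat_lit 6174100250) (dlOf (nat_lit 1) (nat_lit 0x100018055c01))) 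
(.lf (nat_lit 5234576282) (dlOf (nat_lit 1) (nat_lit 0x720008055c81)))))) (.nd (nat_lit 9) 
(.nd (nat_lit 7) (.nd (nat_lit 19) 
(.lf (nat_lit 2818655578) (dlOf (nat_lit 1) (nat_lit 0x4004000200080d3382))) 
(.lf (nat_lit 57230682) (dlOf (nat_lit 2) (nat_lit 0xadf696000310200020009793381)))) 
(.nd (nat_lit 10) (.lf (nat_lit 7952858) (dlOf (nat_lit 1) (nat_lit 0x2800800080020010000851b283))) 
(.lf (nat_lit 4697703898) (dlOf (nat_lit 1) (nat_lit 0x14000804ec002004c0008093603))))) 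
(.nd (nat_lit 11) (.nd (nat_lit 27) 
(.lf (nat_lit 5100356570) (dlOf (nat_lit 1) (nat_lit 0x20018052881))) 
(.lf (nat_lit 6308316122) (dlOf (nat_lit 1) (nat_lit 0x20018052881)))) (.nd (nat_lit 7) 
(.lf (nat_lit 5637229402) (dlOf (nat_lit 2) (nat_lit 0x4015000ae818055c00))) 
(.lf (nat_lit 60378074) (dlOf (nat_lit 1) (nat_lit 0x20029845e01)))))))) (.nd (nat_lit 28) 
(.nd (nat_lit 7) (.nd (nat_lit 27) (.nd (nat_lit 8) (.nd (nat_lit 19) (.nd (nat_lit 20) 
(.lf (nat_lit 5972770842) (dlOf (nat_lit 1) (nat_lit 0x600280b0001))) 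
(.lf (nat_lit 68239386) (dlOf (nat_lit 1) (nat_lit 0xc004000400084a0582)))) 
(.lf (nat_lit 4362682394) (dlOf (nat_lit 1) (nat_lit 0x8004000600080d0902)))) 
(.lf (nat_lit 6509642010) (dlOf (nat_lit 2) (nat_lit 0xd000000168040080002000c00080b0482)))) 
(.nd (nat_lit 6) 
(.lf (nat_lit 4496377370) (dlOf (nat_lit 4) (nat_lit 0x1d8068000780400780340003902000c01c001e00d00000010034800801fc00200100008053703))) 
(.nd (nat_lit 19) (.lf (nat_lit 3959504986) (dlOf (nat_lit 1) (nat_lit 0x20018090001))) 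
(.lf (nat_lit 3960029274) (dlOf (nat_lit 2) (nat_lit 0x12041000038181a1a80)))))) (.nd (nat_lit 9) 
(.nd (nat_lit 8) (.nd (nat_lit 27) 
(.lf (nat_lit 5972770970) (dlOf (nat_lit 1) (nat_lit 0x200080b0181))) 
(.lf (nat_lit 1812021402) (dlOf (nat_lit 13) (nat_lit 0x19809800e8044007801d003f00e0001382001a809800d8044007601d003f00e000134200060088002403a0004404007c0260040011001e007400f8038000430800760260040011001d807400f80380004208003c02600230110018807400b80380003e08002601c0001e8100240130016808800c403a006401c0001e040025013001500700007608010004c0062022003600e801c00700006e10006404c00035020044026003d00e0000cc1001080080020002000600080b0183)))) 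
(.nd (nat_lit 21) 
(.lf (nat_lit 2755740058) (dlOf (nat_lit 1) (nat_lit 0xb8008007c002001c00081b0783))) 
(.lf (nat_lit 2753642906) (dlOf (nat_lit 1) (nat_lit 0xa40008000400203e00008090783))))) 
(.nd (nat_lit 6) (.nd (nat_lit 27) 
(.lf (nat_lit 4362160026) (dlOf (nat_lit 1) (nat_lit 0x9000200540008004282))) 
(.lf (nat_lit 201410458) (dlOf (nat_lit 1) (nat_lit 0x20028004281)))) 
(.lf (nat_lit 4496376794) (dlOf (nat_lit 1) (nat_lit 0x20018052881)))))) (.nd (nat_lit 27) 
(.nd (nat_lit 8) (.nd (nat_lit 6) (.nd (nat_lit 10) 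
(.lf (nat_lit 1409892378) (dlOf (nat_lit 17) (nat_lit 0x3605f00d5d01001b02f806ae00802a817c07c00aa00cc03100d5783000102f80a70154001c06201aad0603720550071018806954100098174032420402400ba010405400470210064581800e817c01540ba00f2054004502100645420021817c00540ba00c405400360210064442002c0174021c0a8008204200c3803003f02e8034815000e40840186f0600c005400020210061ac10013017c020d80400980be0106b02002e05f0082d01000102f803e0c0803000080358002009400080a0903))) 
(.lf (nat_lit 5704338458) (dlOf (nat_lit 1) (nat_lit 0xa0008056001)))) (.nd (nat_lit 9) 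
(.lf (nat_lit 1409892442) (dlOf (nat_lit 4) (nat_lit 0x1e016001ec0a200da03f0001403001602c002b014401a407e00c40320001304000b02c0000740800e00080064002009200080a1183))) 
(.lf (nat_lit 6241207898) (dlOf (nat_lit 1) (nat_lit 0x20028053901))))) (.nd (nat_lit 7) 
(.lf (nat_lit 5704338202) (dlOf (nat_lit 1) (nat_lit 0x10008001800200120008055c03))) 
(.nd (nat_lit 10) (.lf (nat_lit 3556854170) (dlOf (nat_lit 1) (nat_lit 0xd4004000c00180d4e82))) 
(.lf (nat_lit 6241207706) (dlOf (nat_lit 2) (nat_lit 0x2004000ae018053600)))))) (.nd (nat_lit 7) 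
(.nd (nat_lit 8) (.nd (nat_lit 22) 
(.lf (nat_lit 4228464666) (dlOf (nat_lit 1) (nat_lit 0x8004000600080d0902))) 
(.lf (nat_lit 474562586) (dlOf (nat_lit 1) (nat_lit 0x800291a0101)))) 
(.lf (nat_lit 3691069722) (dlOf (nat_lit 1) (nat_lit 0x8008000400200020008010703)))) 
(.nd (nat_lit 6) (.lf (nat_lit 472990874) (dlOf (nat_lit 1) (nat_lit 0xc00400040008bb2b82))) 
(.lf (nat_lit 469848794) (dlOf (nat_lit 1) (nat_lit 0x540008008c81)))))))) (.nd (nat_lit 21) 
(.nd (nat_lit 27) (.nd (nat_lit 28) (.nd (nat_lit 24) (.nd (nat_lit 19) (.nd (nat_lit 6) 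
(.nd (nat_lit 26) (.lf (nat_lit 3221569562) (dlOf (nat_lit 1) (nat_lit 0x20018140481))) 
(.lf (nat_lit 604323866) (dlOf (nat_lit 1) (nat_lit 0xb0008000400200060008160483)))) 
(.lf (nat_lit 9781338) (dlOf (nat_lit 2) (nat_lit 0xecea000560200040018580681)))) (.nd (nat_lit 7) 
(.lf (nat_lit 9256986) (dlOf (nat_lit 1) (nat_lit 0x10008000400200020008530103))) 
(.lf (nat_lit 38619546) (dlOf (nat_lit 1) (nat_lit 0x60029134e81))))) (.nd (nat_lit 19) 
(.nd (nat_lit 7) (.nd (nat_lit 8) 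
(.lf (nat_lit 17121306) (dlOf (nat_lit 1) (nat_lit 0x4002000200088e0002))) 
(.lf (nat_lit 25510170) (dlOf (nat_lit 1) (nat_lit 0x100028c10701)))) 
(.lf (nat_lit 51725466) (dlOf (nat_lit 1) (nat_lit 0x20019512b81)))) (.nd (nat_lit 6) 
(.lf (nat_lit 59588634) (dlOf (nat_lit 1) (nat_lit 0xb000400020009810602))) 
(.lf (nat_lit 21839962) (dlOf (nat_lit 2) (nat_lit 0x4d0f0010e018a70980)))))) (.nd (nat_lit 6) 
(.nd (nat_lit 7) (.nd (nat_lit 30) 
(.lf (nat_lit 2483372058) (dlOf (nat_lit 2) (nat_lit 0xc0040000fc040278004001e00080e0482))) 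
(.lf (nat_lit 5704597530) (dlOf (nat_lit 1) (nat_lit 0x8008001000200140008110403)))) 
(.lf (nat_lit 1880967578) (dlOf (nat_lit 1) (nat_lit 0x20028d74e81)))) (.nd (nat_lit 7) 
(.lf (nat_lit 4563746906) (dlOf (nat_lit 2) (nat_lit 0x30000000900801680080070002002200080d0683))) 
(.nd (nat_lit 29) (.lf (nat_lit 335888602) (dlOf (nat_lit 1) (nat_lit 0x1200180c1c01))) 
(.lf (nat_lit 6241468634) (dlOf (nat_lit 2) (nat_lit 0x401a000188180f1c00))))))) (.nd (nat_lit 28) 
(.nd (nat_lit 31) (.nd (nat_lit 6) 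
(.lf (nat_lit 671432730) (dlOf (nat_lit 4) (nat_lit 0x7c04a00bfc02004c025005c9810029012802e400804b8008005c00200200008190483))) 
(.nd (nat_lit 29) 
(.lf (nat_lit 1208303834) (dlOf (nat_lit 1) (nat_lit 0x180080004002000200080c1c03))) 
(.lf (nat_lit 1745174746) (dlOf (nat_lit 1) (nat_lit 0x4002000200080c1c02))))) (.nd (nat_lit 26) 
(.lf (nat_lit 3892658202) (dlOf (nat_lit 1) (nat_lit 0x58008000400200060008180103))) 
(.nd (nat_lit 29) 
(.lf (nat_lit 2349154330) (dlOf (nat_lit 2) (nat_lit 0xc0040000fc040278004001e00080e0482))) 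
(.lf (nat_lit 3959767066) (dlOf (nat_lit 1) (nat_lit 0x20018140481)))))) (.nd (nat_lit 26) 
(.nd (nat_lit 6) (.nd (nat_lit 31) 
(.lf (nat_lit 6308577306) (dlOf (nat_lit 1) (nat_lit 0x8004000c0008110502))) 
(.lf (nat_lit 4161093658) (dlOf (nat_lit 1) (nat_lit 0x800200380008120482)))) 
(.lf (nat_lit 4697964634) (dlOf (nat_lit 2) (nat_lit 0x30000000900801680080070002002200080d0683)))) 
(.nd (nat_lit 6) (.nd (nat_lit 29) 
(.lf (nat_lit 1543847962) (dlOf (nat_lit 4) (nat_lit 0x7c04a0066702004c025002fe8100290128017ec0804b8008005c00200200008190483))) 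
(.lf (nat_lit 3154460698) (dlOf (nat_lit 2) (nat_lit 0x6034000900a0000a41000300080024002004600081a0103)))) 
(.lf (nat_lit 1008028250) (dlOf (nat_lit 3) (nat_lit 0x4f0460000b80800182040000e04001400200060008985302))))))) 
(.nd (nat_lit 8) (.nd (nat_lit 6) (.nd (nat_lit 20) (.nd (nat_lit 22) 
(.lf (nat_lit 10829850) (dlOf (nat_lit 1) (nat_lit 0x8008000400200020008630603))) 
(.lf (nat_lit 15024154) (dlOf (nat_lit 1) (nat_lit 0x24004007200087b0502)))) (.nd (nat_lit 19) 
(.nd (nat_lit 22) (.lf (nat_lit 62210074) (dlOf (nat_lit 1) (nat_lit 0x20019970401))) 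
(.lf (nat_lit 24461338) (dlOf (nat_lit 1) (nat_lit 0x8008000400200020008ba0a03)))) 
(.lf (nat_lit 1346191386) (dlOf (nat_lit 2) (nat_lit 0xee8558019c286020213901db0668007032c079012c013008d01e3042800281cc0005e2403a8004001a0008e60102))))) 
(.nd (nat_lit 19) (.nd (nat_lit 23) 
(.lf (nat_lit 473254490) (dlOf (nat_lit 1) (nat_lit 0x40018e35301))) 
(.lf (nat_lit 45435482) (dlOf (nat_lit 6) (nat_lit 0xcfb8c402fd9d4001098e009d0000000a0200db33a80003e040015c620001a0201bce31000098100a6718800010080090008009000200020009325303)))) 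
(.lf (nat_lit 33376858) (dlOf (nat_lit 1) (nat_lit 0x30008000400200060008f55303))))) 
(.nd (nat_lit 7) (.nd (nat_lit 6) (.nd (nat_lit 9) (.nd (nat_lit 19) 
(.lf (nat_lit 20267290) (dlOf (nat_lit 1) (nat_lit 0x780080008002000200089d0a83))) 
(.lf (nat_lit 20791578) (dlOf (nat_lit 1) (nat_lit 0x80080020002000200089e4b03)))) 
(.lf (nat_lit 20269850) (dlOf (nat_lit 1) (nat_lit 0x4002000200089d5c02)))) 
(.lf (nat_lit 69551450) (dlOf (nat_lit 2) (nat_lit 0x10a00000018818b43380)))) (.nd (nat_lit 11) 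
(.lf (nat_lit 8208794) (dlOf (nat_lit 1) (nat_lit 0x400200020008511002))) (.nd (nat_lit 22) 
(.lf (nat_lit 36522394) (dlOf (nat_lit 1) (nat_lit 0x20019074e81))) 
(.lf (nat_lit 57493914) (dlOf (nat_lit 1) (nat_lit 0x50008003000200360009794e83))))))))) 
(.nd (nat_lit 8) (.nd (nat_lit 19) (.nd (nat_lit 28) (.nd (nat_lit 6) (.nd (nat_lit 18) 
(.nd (nat_lit 21) (.nd (nat_lit 23) 
(.lf (nat_lit 1812152346) (dlOf (nat_lit 1) (nat_lit 0xc0018160481))) 
(.lf (nat_lit 25378842) (dlOf (nat_lit 1) (nat_lit 0x9000200180008c00482)))) 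
(.lf (nat_lit 52641818) (dlOf (nat_lit 1) (nat_lit 0xc00200020009560602)))) (.nd (nat_lit 29) 
(.nd (nat_lit 7) 
(.lf (nat_lit 6510034970) (dlOf (nat_lit 4) (nat_lit 0x200e0002006a0003b04001e0000001b01001400000005c0800a0008009800200060008190b03))) 
(.lf (nat_lit 41369754) (dlOf (nat_lit 1) (nat_lit 0x20029240501)))) (.nd (nat_lit 31) 
(.lf (nat_lit 5906055194) (dlOf (nat_lit 4) (nat_lit 0x400e0001006e0003b04001e0000001b01001400000005c0800a0008009800200060008190b03))) 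
(.lf (nat_lit 3758571546) (dlOf (nat_lit 3) (nat_lit 0xc0540002e02006802a000160182b0500)))))) 
(.nd (nat_lit 7) (.nd (nat_lit 9) (.nd (nat_lit 18) 
(.lf (nat_lit 1812152410) (dlOf (nat_lit 2) (nat_lit 0x2a00e0008700802500080138002002a0008160983))) 
(.lf (nat_lit 21446746) (dlOf (nat_lit 1) (nat_lit 0x1400200040008a40682)))) (.nd (nat_lit 10) 
(.lf (nat_lit 36915802) (dlOf (nat_lit 2) (nat_lit 0x1ba4e00349be40044c600002e06000c0029075301))) 
(.lf (nat_lit 43468378) (dlOf (nat_lit 1) (nat_lit 0x800800d0002002e00092a3903))))) 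
(.nd (nat_lit 12) 
(.lf (nat_lit 2147696858) (dlOf (nat_lit 2) (nat_lit 0x700b0000e80800100080008002000800080c1c03))) 
(.lf (nat_lit 2818789594) (dlOf (nat_lit 1) (nat_lit 0x20028128081)))))) (.nd (nat_lit 29) 
(.nd (nat_lit 7) (.nd (nat_lit 10) (.nd (nat_lit 6) 
(.lf (nat_lit 5704466458) (dlOf (nat_lit 1) (nat_lit 0xa00180a0a01))) 
(.lf (nat_lit 3556987482) (dlOf (nat_lit 1) (nat_lit 0xf8008000400200020008128983)))) 
(.nd (nat_lit 11) (.lf (nat_lit 1476871194) (dlOf (nat_lit 1) (nat_lit 0x2000282d2881))) 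
(.lf (nat_lit 268651546) (dlOf (nat_lit 1) (nat_lit 0xd0008005c002000e00080e6003))))) 
(.nd (nat_lit 20) (.lf (nat_lit 402867354) (dlOf (nat_lit 1) (nat_lit 0x20028092b81))) 
(.lf (nat_lit 1345537178) (dlOf (nat_lit 1) (nat_lit 0x60008d12b81))))) (.nd (nat_lit 27) 
(.nd (nat_lit 18) (.nd (nat_lit 30) 
(.lf (nat_lit 2953003034) (dlOf (nat_lit 2) (nat_lit 0x11c038000000200660018080501))) 
(.lf (nat_lit 6174228506) (dlOf (nat_lit 1) (nat_lit 0x400080a0501)))) 
(.lf (nat_lit 3020374042) (dlOf (nat_lit 3) (nat_lit 0xc0540002e02006802a000160182b0500)))) 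
(.nd (nat_lit 6) (.nd (nat_lit 30) 
(.lf (nat_lit 939737114) (dlOf (nat_lit 1) (nat_lit 0xc0018160481))) 
(.lf (nat_lit 6308446234) (dlOf (nat_lit 3) (nat_lit 0x3c036001001900090058023a818014802c011be040004004004c00180a0a02)))) 
(.lf (nat_lit 1008159322) (dlOf (nat_lit 1) (nat_lit 0xc00200060008a45302))))))) (.nd (nat_lit 18) 
(.nd (nat_lit 20) (.nd (nat_lit 6) (.nd (nat_lit 21) (.nd (nat_lit 26) 
(.lf (nat_lit 537608218) (dlOf (nat_lit 1) (nat_lit 0x200280d0881))) 
(.lf (nat_lit 1410023450) (dlOf (nat_lit 1) (nat_lit 0x200280d0881)))) (.nd (nat_lit 7) 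
(.lf (nat_lit 1345011738) (dlOf (nat_lit 1) (nat_lit 0x80080010002000400089d0603))) 
(.lf (nat_lit 53167258) (dlOf (nat_lit 1) (nat_lit 0x20008002400200100009572b83))))) 
(.nd (nat_lit 7) (.lf (nat_lit 34292826) (dlOf (nat_lit 1) (nat_lit 0x40008fb2901))) 
(.lf (nat_lit 25903322) (dlOf (nat_lit 1) (nat_lit 0x20028c10581))))) (.nd (nat_lit 6) 
(.nd (nat_lit 10) (.nd (nat_lit 21) 
(.lf (nat_lit 1343963162) (dlOf (nat_lit 1) (nat_lit 0x20028380981))) 
(.lf (nat_lit 29048858) (dlOf (nat_lit 1) (nat_lit 0xa0028db0981)))) 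
(.lf (nat_lit 50021402) (dlOf (nat_lit 1) (nat_lit 0x180080004002000200094c2883)))) 
(.nd (nat_lit 7) (.lf (nat_lit 1346062938) (dlOf (nat_lit 1) (nat_lit 0x6000400140008e25302))) 
(.lf (nat_lit 14368986) (dlOf (nat_lit 1) (nat_lit 0x120028750581)))))) (.nd (nat_lit 21) 
(.nd (nat_lit 20) (.nd (nat_lit 6) (.nd (nat_lit 9) 
(.lf (nat_lit 1343176730) (dlOf (nat_lit 1) (nat_lit 0x40028190101))) 
(.lf (nat_lit 3490660890) (dlOf (nat_lit 1) (nat_lit 0x400400020018017f02)))) 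
(.lf (nat_lit 1343176794) (dlOf (nat_lit 1) (nat_lit 0x60028190881)))) (.nd (nat_lit 23) 
(.lf (nat_lit 23019546) (dlOf (nat_lit 1) (nat_lit 0x100018b40481))) 
(.lf (nat_lit 14630938) (dlOf (nat_lit 2) (nat_lit 0x99c20000a408003800800ac002000e0008770103))))) 
(.nd (nat_lit 6) (.nd (nat_lit 23) (.nd (nat_lit 7) (.nd (nat_lit 24) 
(.lf (nat_lit 473907226) (dlOf (nat_lit 2) (nat_lit 0x2814300017818fc0100))) 
(.lf (nat_lit 20922394) (dlOf (nat_lit 1) (nat_lit 0x8002000200089f0102)))) 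
(.lf (nat_lit 37700762) (dlOf (nat_lit 2) (nat_lit 0x2aec000448190d2b80)))) (.nd (nat_lit 20) 
(.lf (nat_lit 15679514) (dlOf (nat_lit 1) (nat_lit 0x2000400080018820482))) 
(.lf (nat_lit 29311002) (dlOf (nat_lit 1) (nat_lit 0x480080008002000a0008df0483))))) 
(.nd (nat_lit 7) 
(.lf (nat_lit 1346325082) (dlOf (nat_lit 3) (nat_lit 0x82d20008168000a05e800e00740010038000280a01d616900d10b3007980740003e0c0034004000a0008f05302))) 
(.lf (nat_lit 8344282) (dlOf (nat_lit 1) (nat_lit 0x400200020008518c82)))))))) (.nd (nat_lit 21) 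
(.nd (nat_lit 6) (.nd (nat_lit 28) (.nd (nat_lit 18) (.nd (nat_lit 7) 
(.lf (nat_lit 9650458) (dlOf (nat_lit 1) (nat_lit 0x40018574001))) 
(.lf (nat_lit 3288547738) (dlOf (nat_lit 1) (nat_lit 0x1000200140008090782)))) (.nd (nat_lit 10) 
(.nd (nat_lit 26) (.lf (nat_lit 537346458) (dlOf (nat_lit 1) (nat_lit 0xc400400280008090782))) 
(.lf (nat_lit 3959898522) (dlOf (nat_lit 3) (nat_lit 0x460460075281001a0230009011401c6208017000400760018170782)))) 
(.lf (nat_lit 8865178) (dlOf (nat_lit 1) (nat_lit 0x20018513601))))) (.nd (nat_lit 7) 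
(.nd (nat_lit 20) 
(.lf (nat_lit 268651290) (dlOf (nat_lit 1) (nat_lit 0x18008001c002000600080e5c03))) 
(.lf (nat_lit 4094905114) (dlOf (nat_lit 1) (nat_lit 0x1400400020008055c02)))) (.nd (nat_lit 11) 
(.nd (nat_lit 10) (.lf (nat_lit 1879261594) (dlOf (nat_lit 1) (nat_lit 0x400180c0781))) 
(.lf (nat_lit 2013480346) (dlOf (nat_lit 1) (nat_lit 0x40018093601)))) (.nd (nat_lit 18) 
(.lf (nat_lit 6241339802) (dlOf (nat_lit 1) (nat_lit 0xe00180d4e81))) 
(.lf (nat_lit 3490138522) (dlOf (nat_lit 1) (nat_lit 0x400200020008004e82))))))) (.nd (nat_lit 18) 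
(.nd (nat_lit 9) (.nd (nat_lit 10) 
(.lf (nat_lit 3825418586) (dlOf (nat_lit 2) (nat_lit 0x680000005004001000200100008154e82))) 
(.lf (nat_lit 216410) (dlOf (nat_lit 1) (nat_lit 0x400400020008006a82)))) (.nd (nat_lit 10) 
(.lf (nat_lit 54741850) (dlOf (nat_lit 1) (nat_lit 0x20029655c01))) 
(.lf (nat_lit 2818789210) (dlOf (nat_lit 1) (nat_lit 0xc0018127781))))) (.nd (nat_lit 27) 
(.nd (nat_lit 26) 
(.lf (nat_lit 805781850) (dlOf (nat_lit 1) (nat_lit 0x200080014002000a00081a0683))) 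
(.nd (nat_lit 29) 
(.lf (nat_lit 4362551642) (dlOf (nat_lit 2) (nat_lit 0x6c000000000200140018090681))) 
(.lf (nat_lit 1678197082) (dlOf (nat_lit 1) (nat_lit 0x200080014002000a00081a0683))))) 
(.nd (nat_lit 19) 
(.lf (nat_lit 4228333914) (dlOf (nat_lit 2) (nat_lit 0x6c000000000200140018090681))) 
(.lf (nat_lit 6376341850) (dlOf (nat_lit 1) (nat_lit 0x180018090e01))))))) (.nd (nat_lit 19) 
(.nd (nat_lit 7) (.nd (nat_lit 6) (.nd (nat_lit 9) (.nd (nat_lit 23) 
(.lf (nat_lit 20136218) (dlOf (nat_lit 1) (nat_lit 0x4002000200089d0a82))) 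
(.lf (nat_lit 28524826) (dlOf (nat_lit 1) (nat_lit 0x20028da0701)))) 
(.lf (nat_lit 20138778) (dlOf (nat_lit 1) (nat_lit 0x80080004002000200089d5c03)))) 
(.lf (nat_lit 57099610) (dlOf (nat_lit 1) (nat_lit 0x1400400040009793382)))) (.nd (nat_lit 6) 
(.nd (nat_lit 11) 
(.lf (nat_lit 3359130) (dlOf (nat_lit 1) (nat_lit 0x1c0008008800200080008200783))) 
(.lf (nat_lit 36915610) (dlOf (nat_lit 1) (nat_lit 0xc00400020019074e82)))) (.nd (nat_lit 9) 
(.lf (nat_lit 4095952346) (dlOf (nat_lit 1) (nat_lit 0x4004000200080e3602))) 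
(.lf (nat_lit 1344750554) (dlOf (nat_lit 1) (nat_lit 0x20018982881)))))) (.nd (nat_lit 11) 
(.nd (nat_lit 18) (.nd (nat_lit 6) 
(.lf (nat_lit 6378176794) (dlOf (nat_lit 1) (nat_lit 0x8008000800200020008127603))) 
(.lf (nat_lit 7029082) (dlOf (nat_lit 1) (nat_lit 0x800184b0901)))) (.nd (nat_lit 9) 
(.lf (nat_lit 472858906) (dlOf (nat_lit 2) (nat_lit 0x405940000c040034002000c0008b28002))) 
(.lf (nat_lit 19874586) (dlOf (nat_lit 2) (nat_lit 0x47618001c6040028004000a00089d2102))))) 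
(.nd (nat_lit 6) (.nd (nat_lit 7) 
(.lf (nat_lit 19876634) (dlOf (nat_lit 1) (nat_lit 0x4002000200089d5c02))) 
(.lf (nat_lit 57362842) (dlOf (nat_lit 1) (nat_lit 0x100080030002001c0009794e83)))) 
(.lf (nat_lit 8083802) (dlOf (nat_lit 1) (nat_lit 0x3800800100020004000851ab83))))))))) 
(.nd (nat_lit 17) (.nd (nat_lit 28) (.nd (nat_lit 6) (.nd (nat_lit 18) (.nd (nat_lit 7) 
(.nd (nat_lit 8) (.nd (nat_lit 20) (.nd (nat_lit 27) (.nd (nat_lit 29) 
(.lf (nat_lit 3221831738) (dlOf (nat_lit 1) (nat_lit 0x200181a1381))) 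
(.lf (nat_lit 537477178) (dlOf (nat_lit 2) (nat_lit 0xc81300000004000c004000400080a0c02)))) 
(.lf (nat_lit 3892920378) (dlOf (nat_lit 1) (nat_lit 0x1a0008291181)))) (.nd (nat_lit 11) 
(.nd (nat_lit 23) 
(.lf (nat_lit 2752593978) (dlOf (nat_lit 7) (nat_lit 0x2e43fa016a1e70002c8202060fe8101879c000ae080cc43f806121ee03380f3006504b4000a41001f03f801061ee00870f300012c1801007f40007004000c3ce0003602003c0028020681))) 
(.lf (nat_lit 26296378) (dlOf (nat_lit 1) (nat_lit 0x12c002001c0008c30482)))) 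
(.lf (nat_lit 7952442) (dlOf (nat_lit 3) (nat_lit 0x22ac002bbc080041560008700400600040014001851a602))))) 
(.nd (nat_lit 10) (.nd (nat_lit 26) (.nd (nat_lit 9) 
(.lf (nat_lit 1208041786) (dlOf (nat_lit 2) (nat_lit 0x2480e40002804000400400560008090b82))) 
(.lf (nat_lit 20007738) (dlOf (nat_lit 1) (nat_lit 0x4002000200089d5c02)))) (.nd (nat_lit 27) 
(.lf (nat_lit 3825287482) (dlOf (nat_lit 3) (nat_lit 0x2007c003802e0c280000000b83000900f8001005c00028080f0c002148400080b0582))) 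
(.lf (nat_lit 2348892474) (dlOf (nat_lit 1) (nat_lit 0x60018014c01))))) (.nd (nat_lit 11) 
(.lf (nat_lit 8475962) (dlOf (nat_lit 1) (nat_lit 0x400200020008519902))) 
(.lf (nat_lit 609594) (dlOf (nat_lit 1) (nat_lit 0x400400180008006902)))))) (.nd (nat_lit 10) 
(.nd (nat_lit 8) (.nd (nat_lit 9) 
(.lf (nat_lit 2755739834) (dlOf (nat_lit 1) (nat_lit 0x26800800e0002023800081b0383))) 
(.lf (nat_lit 1208044218) (dlOf (nat_lit 1) (nat_lit 0x400200020008095782)))) (.nd (nat_lit 11) 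
(.lf (nat_lit 50938298) (dlOf (nat_lit 2) (nat_lit 0x12a300123c0800a80080068002007600094d7a83))) 
(.lf (nat_lit 37308858) (dlOf (nat_lit 1) (nat_lit 0x200190d4e81))))) (.nd (nat_lit 11) 
(.nd (nat_lit 21) (.lf (nat_lit 55657658) (dlOf (nat_lit 1) (nat_lit 0x1bc002005200096d2c82))) 
(.lf (nat_lit 36783290) (dlOf (nat_lit 1) (nat_lit 0x20019072c81)))) (.nd (nat_lit 20) 
(.lf (nat_lit 134302906) (dlOf (nat_lit 1) (nat_lit 0x20028006301))) 
(.lf (nat_lit 20008122) (dlOf (nat_lit 1) (nat_lit 0x4004000200089d6302))))))) (.nd (nat_lit 20) 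
(.nd (nat_lit 30) (.nd (nat_lit 8) (.nd (nat_lit 9) (.nd (nat_lit 23) 
(.lf (nat_lit 21839930) (dlOf (nat_lit 10) (nat_lit 0xf8000000be040015b06002a9860015000000168180420000000b20400800000005702003c0000002a01056eec5800b76240055b840052986056700000014828000f62c0199d780008d1d00036840005000000096140019a3a0016000000110200346878000000800d0008001800201320008a70683))) 
(.lf (nat_lit 13451322) (dlOf (nat_lit 1) (nat_lit 0x4b800201860008721382)))) 
(.lf (nat_lit 38619706) (dlOf (nat_lit 1) (nat_lit 0x20029135201)))) 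
(.lf (nat_lit 6442795322) (dlOf (nat_lit 1) (nat_lit 0x4004000400081b0582)))) (.nd (nat_lit 27) 
(.nd (nat_lit 8) (.lf (nat_lit 3221569594) (dlOf (nat_lit 1) (nat_lit 0x20018140701))) 
(.lf (nat_lit 5369054522) (dlOf (nat_lit 1) (nat_lit 0xc00280e3281)))) (.nd (nat_lit 26) 
(.lf (nat_lit 3355787322) (dlOf (nat_lit 1) (nat_lit 0x1c80080048002000e0008110d83))) 
(.lf (nat_lit 3959767098) (dlOf (nat_lit 1) (nat_lit 0x20018140701)))))) (.nd (nat_lit 21) 
(.nd (nat_lit 10) (.lf (nat_lit 68501562) (dlOf (nat_lit 1) (nat_lit 0x400200020008590c82))) 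
(.lf (nat_lit 51725370) (dlOf (nat_lit 1) (nat_lit 0x20019512881)))) (.nd (nat_lit 8) 
(.lf (nat_lit 45435450) (dlOf (nat_lit 8) (nat_lit 0x2771880017c0805db8c400219d40005d040112e310002c81008971880015c0804438c400159d400054040012cea000210100227188000c8080010008000c00200620009325203))) 
(.lf (nat_lit 3490106) (dlOf (nat_lit 2) (nat_lit 0x893a2800098080080008005000200280008200583))))))) 
(.nd (nat_lit 7) (.nd (nat_lit 11) (.nd (nat_lit 18) (.nd (nat_lit 21) (.nd (nat_lit 27) 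
(.lf (nat_lit 3825287290) (dlOf (nat_lit 5) (nat_lit 0x2a010002c807400940320030018000800780057428013807400200320015c04004e020005600e8011006400540300015908006e020004b00e8008806400480300015708000600180b0081))) 
(.lf (nat_lit 1812021370) (dlOf (nat_lit 1) (nat_lit 0x4004013c00180b0082)))) 
(.lf (nat_lit 18956410) (dlOf (nat_lit 1) (nat_lit 0xc00400040008970482)))) (.nd (nat_lit 8) 
(.nd (nat_lit 21) 
(.lf (nat_lit 1208303738) (dlOf (nat_lit 1) (nat_lit 0x28008000c002000400080c0c83))) 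
(.lf (nat_lit 19218554) (dlOf (nat_lit 2) (nat_lit 0x9d0e2000e902000a0008970481)))) 
(.lf (nat_lit 8214394) (dlOf (nat_lit 1) (nat_lit 0x40040002001851a302))))) (.nd (nat_lit 8) 
(.nd (nat_lit 9) (.lf (nat_lit 346234) (dlOf (nat_lit 1) (nat_lit 0xac00400d80008004782))) 
(.lf (nat_lit 54610554) (dlOf (nat_lit 1) (nat_lit 0x400200060009655402)))) (.nd (nat_lit 18) 
(.lf (nat_lit 60377466) (dlOf (nat_lit 1) (nat_lit 0x20029844e81))) (.nd (nat_lit 19) 
(.lf (nat_lit 45435258) (dlOf (nat_lit 1) (nat_lit 0x3000800c800200700009324e83))) 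
(.lf (nat_lit 36522362) (dlOf (nat_lit 1) (nat_lit 0x40019074e81))))))) (.nd (nat_lit 8) 
(.nd (nat_lit 9) (.nd (nat_lit 26) 
(.lf (nat_lit 5905662202) (dlOf (nat_lit 1) (nat_lit 0x64002002200080b0482))) 
(.lf (nat_lit 3959505146) (dlOf (nat_lit 2) (nat_lit 0x180dc0038804000400400040018090482)))) 
(.nd (nat_lit 10) (.nd (nat_lit 18) 
(.lf (nat_lit 57232122) (dlOf (nat_lit 6) (nat_lit 0x12ed2c0005404012d9da00010020090ced0000781006567680003808014b3b40000604005800400480009795a02))) 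
(.lf (nat_lit 69552890) (dlOf (nat_lit 1) (nat_lit 0x4000200260008b45a02)))) 
(.lf (nat_lit 1073825530) (dlOf (nat_lit 1) (nat_lit 0x60018003b81))))) (.nd (nat_lit 19) 
(.nd (nat_lit 10) (.lf (nat_lit 8475130) (dlOf (nat_lit 1) (nat_lit 0x20018518681))) 
(.nd (nat_lit 12) 
(.lf (nat_lit 61949434) (dlOf (nat_lit 2) (nat_lit 0xb60b0000fc08001800800f000200060009923683))) 
(.lf (nat_lit 6039885306) (dlOf (nat_lit 2) (nat_lit 0x8e0230060d818009c00))))) (.nd (nat_lit 18) 
(.lf (nat_lit 20534778) (dlOf (nat_lit 1) (nat_lit 0x600189d9c01))) 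
(.lf (nat_lit 19748346) (dlOf (nat_lit 3) (nat_lit 0x9756e002aab68014fc0802255b400a6d0200be00189d9c01)))))))) 
(.nd (nat_lit 27) (.nd (nat_lit 8) (.nd (nat_lit 29) (.nd (nat_lit 32) (.nd (nat_lit 7) 
(.nd (nat_lit 19) 
(.lf (nat_lit 3490791482) (dlOf (nat_lit 7) (nat_lit 0x2e43d6016a1d20002c8202060f581018748000ae080cc43d406121d903380e8806504b4000a41001f03d401061d900870e880012c1801007ac0007004000c3a40003602003c0028020681))) 
(.lf (nat_lit 1409892410) (dlOf (nat_lit 2) (nat_lit 0x6f02f8000b00800e00080038002004200080a0b83)))) 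
(.lf (nat_lit 1409371322) (dlOf (nat_lit 2) (nat_lit 0x1202a00008c080138008004000200160008006303)))) 
(.nd (nat_lit 6) (.nd (nat_lit 18) 
(.lf (nat_lit 4563484730) (dlOf (nat_lit 1) (nat_lit 0x40018090001))) 
(.lf (nat_lit 4563746874) (dlOf (nat_lit 1) (nat_lit 0x35800200ae00080d0482)))) 
(.lf (nat_lit 5637488762) (dlOf (nat_lit 1) (nat_lit 0xc80080064002006600080f0b83))))) 
(.nd (nat_lit 10) (.nd (nat_lit 7) (.nd (nat_lit 30) 
(.lf (nat_lit 2952871994) (dlOf (nat_lit 1) (nat_lit 0x20028010001))) 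
(.lf (nat_lit 1879130170) (dlOf (nat_lit 1) (nat_lit 0xc00400060008020682)))) 
(.lf (nat_lit 2952872122) (dlOf (nat_lit 1) (nat_lit 0x140018010381)))) (.nd (nat_lit 6) 
(.nd (nat_lit 9) (.lf (nat_lit 1880179770) (dlOf (nat_lit 1) (nat_lit 0x3400287a2881))) 
(.lf (nat_lit 4095559226) (dlOf (nat_lit 1) (nat_lit 0x1800280e3781)))) 
(.lf (nat_lit 4093985914) (dlOf (nat_lit 1) (nat_lit 0x480008002a81)))))) (.nd (nat_lit 26) 
(.nd (nat_lit 10) (.nd (nat_lit 19) 
(.lf (nat_lit 4563484986) (dlOf (nat_lit 12) (nat_lit 0xb019800980c8009803c011801d006500a806e0048006001e0003c0e006e0330004019002b007802e403a016401500f00090000e83001100cc00e803c0003904013e03300b100f0000dc1000500d0003403e000300400b8034005600f805b005403800240002a0800d80120001201003d01a001f007c021c02a01fa012000118401e600a810900480001808043c0240000b02009601500f800900000010026000801c000200080008090b83))) 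
(.lf (nat_lit 1342783802) (dlOf (nat_lit 2) (nat_lit 0xa1f30000b8180c0580)))) (.nd (nat_lit 6) 
(.nd (nat_lit 9) (.lf (nat_lit 3490532666) (dlOf (nat_lit 1) (nat_lit 0xe0008006901))) 
(.lf (nat_lit 1342265146) (dlOf (nat_lit 1) (nat_lit 0x8800800680020070000800a103)))) 
(.lf (nat_lit 1345406458) (dlOf (nat_lit 1) (nat_lit 0x20028bb3681))))) (.nd (nat_lit 6) 
(.nd (nat_lit 10) (.nd (nat_lit 18) 
(.lf (nat_lit 2483110202) (dlOf (nat_lit 1) (nat_lit 0x60018014c01))) 
(.lf (nat_lit 4094509370) (dlOf (nat_lit 1) (nat_lit 0x8008000400200020008050b83)))) 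
(.lf (nat_lit 4093986106) (dlOf (nat_lit 1) (nat_lit 0x400400440008003282)))) (.nd (nat_lit 11) 
(.lf (nat_lit 6241468794) (dlOf (nat_lit 1) (nat_lit 0x5600180f5981))) 
(.lf (nat_lit 1409370490) (dlOf (nat_lit 1) (nat_lit 0x400400080018004e82))))))) (.nd (nat_lit 29) 
(.nd (nat_lit 7) (.nd (nat_lit 32) (.nd (nat_lit 6) (.nd (nat_lit 8) 
(.lf (nat_lit 469845050) (dlOf (nat_lit 1) (nat_lit 0x10008000800200180008002883))) 
(.lf (nat_lit 470368570) (dlOf (nat_lit 2) (nat_lit 0xa1f20000b8180c0580)))) 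
(.lf (nat_lit 472991354) (dlOf (nat_lit 1) (nat_lit 0x20018bb3981)))) (.nd (nat_lit 8) 
(.nd (nat_lit 18) (.lf (nat_lit 4697702458) (dlOf (nat_lit 1) (nat_lit 0x40018090001))) 
(.lf (nat_lit 4697964602) (dlOf (nat_lit 1) (nat_lit 0x35800200ae00080d0482)))) 
(.lf (nat_lit 5838815546) (dlOf (nat_lit 1) (nat_lit 0x4004000400081b0582))))) (.nd (nat_lit 6) 
(.nd (nat_lit 8) (.nd (nat_lit 10) 
(.lf (nat_lit 469846202) (dlOf (nat_lit 1) (nat_lit 0x7400400280008004902))) 
(.lf (nat_lit 2617332922) (dlOf (nat_lit 1) (nat_lit 0x1f00080004002006000080a9503)))) 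
(.lf (nat_lit 4697702842) (dlOf (nat_lit 9) (nat_lit 0x8400a806700480001c08003002a00320120000682001200900002c0801100d0000405e004601f004200a800280480000c14008c068000802f002300f8036805402d8024000050a0052034002600f8000101001300d0000060400a0068004c01f009a00a806b80480000010014c00401220018091082)))) 
(.nd (nat_lit 8) (.lf (nat_lit 4697703674) (dlOf (nat_lit 1) (nat_lit 0x1a0018092e81))) 
(.nd (nat_lit 9) (.lf (nat_lit 3624226298) (dlOf (nat_lit 1) (nat_lit 0x400200020008146f82))) 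
(.lf (nat_lit 474041338) (dlOf (nat_lit 1) (nat_lit 0x1bc00400520009005f02))))))) (.nd (nat_lit 6) 
(.nd (nat_lit 7) (.nd (nat_lit 8) 
(.lf (nat_lit 1006714938) (dlOf (nat_lit 1) (nat_lit 0xc00400060008020682))) (.nd (nat_lit 10) 
(.lf (nat_lit 3087089978) (dlOf (nat_lit 3) (nat_lit 0x2007c003802e0c280000000b83000900f8001005c00028080f0c002148400080b0582))) 
(.lf (nat_lit 4227943738) (dlOf (nat_lit 2) (nat_lit 0x200000016818006900))))) (.nd (nat_lit 8) 
(.lf (nat_lit 6377259194) (dlOf (nat_lit 1) (nat_lit 0x80080004002000200080c1983))) 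
(.lf (nat_lit 2080457146) (dlOf (nat_lit 2) (nat_lit 0x3e0390001d018091080))))) (.nd (nat_lit 10) 
(.nd (nat_lit 18) (.nd (nat_lit 31) 
(.lf (nat_lit 939606138) (dlOf (nat_lit 1) (nat_lit 0x4004013c00180b0082))) 
(.lf (nat_lit 3087089786) (dlOf (nat_lit 5) (nat_lit 0x2a010002c807400940320030018000800780056028013807400200320015704004e020005600e8011006400540300015408006e020004b00e8008806400480300015208000600180b0081)))) 
(.lf (nat_lit 6377259130) (dlOf (nat_lit 3) (nat_lit 0x50000001900800585300000004000c004000a00180c0c82)))) 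
(.nd (nat_lit 7) 
(.lf (nat_lit 6377784442) (dlOf (nat_lit 2) (nat_lit 0x180a00004c04000c002000200080e2a82))) 
(.nd (nat_lit 8) 
(.lf (nat_lit 2080457978) (dlOf (nat_lit 2) (nat_lit 0x4501c8000000800400080008002004e0008092e83))) 
(.lf (nat_lit 6375425530) (dlOf (nat_lit 1) (nat_lit 0x400200020008003682)))))))))) 
(.nd (nat_lit 18) (.nd (nat_lit 29) (.nd (nat_lit 20) (.nd (nat_lit 7) (.nd (nat_lit 8) 
(.nd (nat_lit 26) 
(.lf (nat_lit 134430778) (dlOf (nat_lit 2) (nat_lit 0x13ec08209c803d027d01c000480cc000a4100034004000c0008020682))) 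
(.nd (nat_lit 27) (.lf (nat_lit 3288547386) (dlOf (nat_lit 1) (nat_lit 0x4e0028090001))) 
(.lf (nat_lit 201539642) (dlOf (nat_lit 2) (nat_lit 0x13ec08209c803d027d01c000480cc000a4100034004000c0008020682))))) 
(.nd (nat_lit 6) (.nd (nat_lit 10) 
(.lf (nat_lit 2310458) (dlOf (nat_lit 1) (nat_lit 0xc00200020008150582))) 
(.lf (nat_lit 6509776186) (dlOf (nat_lit 1) (nat_lit 0x34800400140008146902)))) 
(.lf (nat_lit 3288547706) (dlOf (nat_lit 2) (nat_lit 0x2017001d08080050008002800200240008090783))))) 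
(.nd (nat_lit 6) (.nd (nat_lit 11) 
(.lf (nat_lit 61031610) (dlOf (nat_lit 1) (nat_lit 0x200198c2c81))) 
(.lf (nat_lit 3489881274) (dlOf (nat_lit 1) (nat_lit 0x2000800c201)))) (.nd (nat_lit 8) 
(.nd (nat_lit 9) (.lf (nat_lit 9126138) (dlOf (nat_lit 1) (nat_lit 0x8e8008044c00202040008524603))) 
(.lf (nat_lit 134956794) (dlOf (nat_lit 1) (nat_lit 0x1400080f3b81)))) 
(.lf (nat_lit 472074746) (dlOf (nat_lit 1) (nat_lit 0x400400020018804f82)))))) (.nd (nat_lit 6) 
(.nd (nat_lit 19) (.nd (nat_lit 22) (.nd (nat_lit 24) 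
(.lf (nat_lit 3490922554) (dlOf (nat_lit 2) (nat_lit 0x161eb00040e900051c1000180080014002000e0008030d03))) 
(.lf (nat_lit 18038842) (dlOf (nat_lit 2) (nat_lit 0x227280006c080118008003400200040008900c83)))) 
(.lf (nat_lit 22233146) (dlOf (nat_lit 1) (nat_lit 0xa0018ab0c81)))) (.nd (nat_lit 21) 
(.lf (nat_lit 1343963194) (dlOf (nat_lit 1) (nat_lit 0x4004002c0008381182))) 
(.lf (nat_lit 45826106) (dlOf (nat_lit 1) (nat_lit 0x1a0019360581))))) (.nd (nat_lit 7) 
(.nd (nat_lit 19) (.lf (nat_lit 36915578) (dlOf (nat_lit 1) (nat_lit 0x20019074e81))) 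
(.lf (nat_lit 33245562) (dlOf (nat_lit 1) (nat_lit 0x20018f54e81)))) (.nd (nat_lit 8) 
(.lf (nat_lit 20136186) (dlOf (nat_lit 2) (nat_lit 0xee80002c004002c002000400089d0a82))) 
(.nd (nat_lit 9) (.lf (nat_lit 20140538) (dlOf (nat_lit 1) (nat_lit 0x400089d8681))) 
(.lf (nat_lit 3493020666) (dlOf (nat_lit 1) (nat_lit 0x200280f2881)))))))) (.nd (nat_lit 30) 
(.nd (nat_lit 27) (.nd (nat_lit 9) (.nd (nat_lit 20) 
(.lf (nat_lit 2953003066) (dlOf (nat_lit 1) (nat_lit 0x40018080901))) 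
(.lf (nat_lit 2752725050) (dlOf (nat_lit 2) (nat_lit 0x161fd00040f380051c1000180080014002000e0008030d03)))) 
(.nd (nat_lit 7) (.nd (nat_lit 8) 
(.lf (nat_lit 2753774138) (dlOf (nat_lit 5) (nat_lit 0x81d700040e180007410003075c0003804003c3ae000a1c30000d0200050eb800000080020008015c00200140008091003))) 
(.lf (nat_lit 2751678266) (dlOf (nat_lit 1) (nat_lit 0x400400020008003e02)))) 
(.lf (nat_lit 3020117690) (dlOf (nat_lit 2) (nat_lit 0x2401c801200b8009004e004a0060002001812a001))))) 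
(.nd (nat_lit 7) (.nd (nat_lit 8) (.nd (nat_lit 19) 
(.lf (nat_lit 939737146) (dlOf (nat_lit 7) (nat_lit 0x60088003003a000e01c0001203000700e80008c08050008800f803a014001c009e00380250000000441400c8038000210200ce01c0000901000200d80000008004000800ac002003e0008160683))) 
(.lf (nat_lit 1007370298) (dlOf (nat_lit 1) (nat_lit 0x1a0028300c81)))) 
(.lf (nat_lit 1008943418) (dlOf (nat_lit 1) (nat_lit 0x740019000b81)))) (.nd (nat_lit 6) 
(.lf (nat_lit 671303610) (dlOf (nat_lit 1) (nat_lit 0x1680080188002003c0008144383))) 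
(.lf (nat_lit 738410746) (dlOf (nat_lit 2) (nat_lit 0x2035000b0018090a80)))))) (.nd (nat_lit 7) 
(.nd (nat_lit 6) (.nd (nat_lit 26) 
(.lf (nat_lit 4026744890) (dlOf (nat_lit 1) (nat_lit 0x60028090001))) 
(.lf (nat_lit 1812152378) (dlOf (nat_lit 7) (nat_lit 0x60088003003a000e01c0001203000700e80008c08050008800f803a014001c009e00380250000000441400c8038000210200ce01c0000901000200d80000008004000800ac002003e0008160683)))) 
(.nd (nat_lit 8) (.nd (nat_lit 9) 
(.lf (nat_lit 4228597882) (dlOf (nat_lit 1) (nat_lit 0x20004000a0008114782))) 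
(.lf (nat_lit 6375556730) (dlOf (nat_lit 1) (nat_lit 0x8008000400200020008003983)))) 
(.lf (nat_lit 4026745210) (dlOf (nat_lit 2) (nat_lit 0x401b006ca4080180008003c002002e0008090783))))) 
(.nd (nat_lit 8) (.nd (nat_lit 6) 
(.lf (nat_lit 5905795258) (dlOf (nat_lit 1) (nat_lit 0x400400020008144902))) 
(.lf (nat_lit 6376603898) (dlOf (nat_lit 2) (nat_lit 0xa09880060484002c0080004004002c0018090a82)))) 
(.nd (nat_lit 10) (.lf (nat_lit 3892531706) (dlOf (nat_lit 1) (nat_lit 0x180028158681))) 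
(.lf (nat_lit 2013480442) (dlOf (nat_lit 1) (nat_lit 0x1400400100008093682)))))))) 
(.nd (nat_lit 19) (.nd (nat_lit 21) (.nd (nat_lit 26) (.nd (nat_lit 6) (.nd (nat_lit 8) 
(.lf (nat_lit 3624353850) (dlOf (nat_lit 1) (nat_lit 0xc0008170d01))) 
(.lf (nat_lit 476474) (dlOf (nat_lit 1) (nat_lit 0x400400340008003282)))) (.nd (nat_lit 8) 
(.nd (nat_lit 10) 
(.lf (nat_lit 55001210) (dlOf (nat_lit 6) (nat_lit 0x2498a00124c4001e25d800812e8002494a000c494001024980011c3800392ec002497400024a60009249800118200009314000c98800104bb000a25d00019298001494a00124930001c07000326300008c08001931800044040048004031c0019680c82))) 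
(.lf (nat_lit 476282) (dlOf (nat_lit 1) (nat_lit 0x400400360008002a82)))) 
(.lf (nat_lit 3490138490) (dlOf (nat_lit 1) (nat_lit 0x5800800a800200200008004e83))))) 
(.nd (nat_lit 7) (.nd (nat_lit 8) 
(.lf (nat_lit 2886156346) (dlOf (nat_lit 1) (nat_lit 0xc0008170d01))) 
(.lf (nat_lit 604456250) (dlOf (nat_lit 1) (nat_lit 0x400182d3281)))) (.nd (nat_lit 8) 
(.nd (nat_lit 27) (.lf (nat_lit 4362551482) (dlOf (nat_lit 1) (nat_lit 0x55000403080008090382))) 
(.lf (nat_lit 4228333754) (dlOf (nat_lit 1) (nat_lit 0x55000403080008090382)))) 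
(.lf (nat_lit 604457402) (dlOf (nat_lit 1) (nat_lit 0x4004000200082d4e82)))))) (.nd (nat_lit 6) 
(.nd (nat_lit 20) (.nd (nat_lit 26) 
(.lf (nat_lit 3492233274) (dlOf (nat_lit 5) (nat_lit 0x304640001902000e1ea000058100070f50000280800307a800012040044004000c00080b1582))) 
(.lf (nat_lit 2754035770) (dlOf (nat_lit 5) (nat_lit 0x304940001902000e1fc000058100070fe0000280800307f000012040044004000c00080b1582)))) 
(.nd (nat_lit 22) 
(.lf (nat_lit 3620922) (dlOf (nat_lit 2) (nat_lit 0xd26380011c08000800802a4002009a0008210b83))) 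
(.lf (nat_lit 24592442) (dlOf (nat_lit 2) (nat_lit 0x560d8000bc0800280080040002000e0008ba0b83))))) 
(.nd (nat_lit 7) 
(.lf (nat_lit 5773935738) (dlOf (nat_lit 1) (nat_lit 0x80080004002000200080e2a83))) 
(.lf (nat_lit 57101050) (dlOf (nat_lit 1) (nat_lit 0x20029795a01)))))) (.nd (nat_lit 9) 
(.nd (nat_lit 6) (.nd (nat_lit 21) (.nd (nat_lit 8) 
(.lf (nat_lit 21971002) (dlOf (nat_lit 2) (nat_lit 0xf9160006c3800051c1000700080004002002e0008a80d03))) 
(.lf (nat_lit 6376341818) (dlOf (nat_lit 18) (nat_lit 0x3e826401de123000228200bc0990058048c000860803f426401f01230001b0201090990083048c000680804342640208123000150200fb0990078848c00046080444264020c123000100200c40990060848c0003e08015826400a61230000f0201130990084848c0003808030c26401821230000d020058099002a048c0003208089c262045a12201a7090800050180860488000260400c42440001202027213101430910000241006a84c40374244000000400740018090b81)))) 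
(.nd (nat_lit 7) (.lf (nat_lit 40846650) (dlOf (nat_lit 1) (nat_lit 0x1400191f3281))) 
(.lf (nat_lit 1345274298) (dlOf (nat_lit 1) (nat_lit 0x18008000c00200240008b36f83))))) 
(.nd (nat_lit 8) (.nd (nat_lit 20) 
(.lf (nat_lit 24068346) (dlOf (nat_lit 1) (nat_lit 0x400400020008b80482))) 
(.lf (nat_lit 2755608826) (dlOf (nat_lit 1) (nat_lit 0xe00081b0481)))) (.nd (nat_lit 7) 
(.lf (nat_lit 1346324858) (dlOf (nat_lit 1) (nat_lit 0x38008001800200160008f04e83))) 
(.lf (nat_lit 2752463354) (dlOf (nat_lit 3) (nat_lit 0x587e0000440400143f00001e0200040018017e01)))))) 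
(.nd (nat_lit 10) (.nd (nat_lit 11) (.nd (nat_lit 7) (.nd (nat_lit 21) 
(.lf (nat_lit 3491709498) (dlOf (nat_lit 5) (nat_lit 0x80e2800286b80003a08002038a000a1ae0000e02000c0e2800606b80003408001838a000000201200018091001))) 
(.lf (nat_lit 2755609146) (dlOf (nat_lit 3) (nat_lit 0x400000004c0400280000002402000400281b1001)))) 
(.lf (nat_lit 19874490) (dlOf (nat_lit 1) (nat_lit 0x100080024002000600089d1e83)))) 
(.nd (nat_lit 8) 
(.lf (nat_lit 1346325050) (dlOf (nat_lit 7) (nat_lit 0x150b400070598004c038001c01a0002e84000b0b4800205a0002003a0005906001c169000b00e8001601000385a4002803a00057040010169000b0b300020074000a80c00302d2000e166000600e8001081800f8008006c00200280008f05203))) 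
(.lf (nat_lit 19876666) (dlOf (nat_lit 1) (nat_lit 0x4002000200089d5c02))))) (.nd (nat_lit 6) 
(.lf (nat_lit 8345146) (dlOf (nat_lit 1) (nat_lit 0x20018519c01))) 
(.lf (nat_lit 8341114) (dlOf (nat_lit 1) (nat_lit 0x2c00400040018513982)))))))))))

end

end Pool.Agent.Lib.MP_5854e1_co.Cz

namespace Pool.Agent.Lib.MP_5854e1_co.Cz

noncomputable section

noncomputable def tz210 : DT := (.nd (nat_lit 16) (.nd (nat_lit 3) (.nd (nat_lit 5) 
(.nd (nat_lit 6) (.nd (nat_lit 18) (.nd (nat_lit 31) (.nd (nat_lit 19) (.nd (nat_lit 11) 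
(.nd (nat_lit 20) (.nd (nat_lit 21) 
(.lf (nat_lit 25214994) (dlOf (nat_lit 3) (nat_lit 0xd8d440348204000985601a390200100028bf0881))) 
(.lf (nat_lit 23117842) (dlOf (nat_lit 1) (nat_lit 0x20018b60501)))) (.nd (nat_lit 21) 
(.nd (nat_lit 24) (.lf (nat_lit 9486354) (dlOf (nat_lit 1) (nat_lit 0xc0028560481))) 
(.lf (nat_lit 26263570) (dlOf (nat_lit 1) (nat_lit 0xcc0018c20301)))) 
(.lf (nat_lit 15777810) (dlOf (nat_lit 1) (nat_lit 0x40018830201))))) (.nd (nat_lit 7) 
(.nd (nat_lit 8) (.lf (nat_lit 54578194) (dlOf (nat_lit 1) (nat_lit 0x6000200140009655f82))) 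
(.lf (nat_lit 469813522) (dlOf (nat_lit 1) (nat_lit 0xc0018004b81)))) (.nd (nat_lit 20) 
(.lf (nat_lit 1342234002) (dlOf (nat_lit 1) (nat_lit 0x9e001800c981))) 
(.lf (nat_lit 19979666) (dlOf (nat_lit 1) (nat_lit 0x2c00189dc981)))))) (.nd (nat_lit 20) 
(.nd (nat_lit 9) (.nd (nat_lit 29) 
(.lf (nat_lit 4362649618) (dlOf (nat_lit 4) (nat_lit 0x300190000bc08007813c00c80640002c04000204f000158180c0180))) 
(.lf (nat_lit 1678295058) (dlOf (nat_lit 4) (nat_lit 0xa005a0002f02008002d0001601004c0168000ac080128008009c002002000081d0183)))) 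
(.nd (nat_lit 8) (.lf (nat_lit 40421906) (dlOf (nat_lit 1) (nat_lit 0x14002000200091f5082))) 
(.lf (nat_lit 46713618) (dlOf (nat_lit 1) (nat_lit 0x20029385b81))))) (.nd (nat_lit 22) 
(.nd (nat_lit 9) (.lf (nat_lit 20499474) (dlOf (nat_lit 2) (nat_lit 0x72960000000189d5f80))) 
(.lf (nat_lit 1345896978) (dlOf (nat_lit 4) (nat_lit 0x78454001c228000680400201150003301000e08a8000000801e0008003c00200060008e07c03)))) 
(.nd (nat_lit 21) (.lf (nat_lit 5816338) (dlOf (nat_lit 2) (nat_lit 0x680000002f0183e0200))) 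
(.lf (nat_lit 16302098) (dlOf (nat_lit 1) (nat_lit 0x28008000800200020008880203))))))) 
(.nd (nat_lit 8) (.nd (nat_lit 7) (.nd (nat_lit 22) (.nd (nat_lit 27) 
(.lf (nat_lit 3557343250) (dlOf (nat_lit 2) (nat_lit 0x740700000002000400181c0481))) 
(.nd (nat_lit 30) (.lf (nat_lit 3154690066) (dlOf (nat_lit 1) (nat_lit 0x14004000c0008310002))) 
(.lf (nat_lit 4228431890) (dlOf (nat_lit 1) (nat_lit 0x94002005600080c0282))))) (.nd (nat_lit 26) 
(.lf (nat_lit 3494428690) (dlOf (nat_lit 2) (nat_lit 0xa019c0004082009b60400020018220881))) 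
(.lf (nat_lit 2756231186) (dlOf (nat_lit 2) (nat_lit 0xa019c0004082004210400020018220881))))) 
(.nd (nat_lit 11) (.nd (nat_lit 26) 
(.lf (nat_lit 4026582674) (dlOf (nat_lit 1) (nat_lit 0x380008003a81))) 
(.lf (nat_lit 2751514258) (dlOf (nat_lit 2) (nat_lit 0x201f8003400801580080030002000c0008003a83)))) 
(.lf (nat_lit 4227911314) (dlOf (nat_lit 2) (nat_lit 0x604f00003818007200))))) (.nd (nat_lit 7) 
(.nd (nat_lit 9) (.nd (nat_lit 28) 
(.lf (nat_lit 3288386834) (dlOf (nat_lit 3) (nat_lit 0x402b000090100020170000400800b80080090002005c0008006703))) 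
(.lf (nat_lit 2483080466) (dlOf (nat_lit 1) (nat_lit 0x20028006701)))) (.nd (nat_lit 10) 
(.lf (nat_lit 3154168594) (dlOf (nat_lit 1) (nat_lit 0x400400160018085b82))) 
(.lf (nat_lit 2952845074) (dlOf (nat_lit 1) (nat_lit 0x180080004002000a000800a003))))) 
(.nd (nat_lit 9) (.nd (nat_lit 11) 
(.lf (nat_lit 2147534226) (dlOf (nat_lit 1) (nat_lit 0x1000400120018003602))) 
(.lf (nat_lit 4227915154) (dlOf (nat_lit 1) (nat_lit 0x44001800c981)))) 
(.lf (nat_lit 2751514514) (dlOf (nat_lit 2) (nat_lit 0x14080000210200320028004201))))))) 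
(.nd (nat_lit 19) (.nd (nat_lit 28) (.nd (nat_lit 20) (.nd (nat_lit 10) (.nd (nat_lit 26) 
(.lf (nat_lit 2684665874) (dlOf (nat_lit 1) (nat_lit 0x80080094002000a0008130183))) 
(.nd (nat_lit 27) 
(.lf (nat_lit 1678032914) (dlOf (nat_lit 2) (nat_lit 0x240360087b0200020028140a01))) 
(.lf (nat_lit 3422863378) (dlOf (nat_lit 4) (nat_lit 0x12e80c80008c040e90064001e02b00022820345019000780ac0007c0806cc00400600008130182))))) 
(.nd (nat_lit 9) (.lf (nat_lit 318482) (dlOf (nat_lit 1) (nat_lit 0x4002800bf01))) 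
(.lf (nat_lit 1610925586) (dlOf (nat_lit 1) (nat_lit 0x20008093701))))) (.nd (nat_lit 21) 
(.nd (nat_lit 8) (.nd (nat_lit 23) 
(.lf (nat_lit 22331410) (dlOf (nat_lit 1) (nat_lit 0x20008ac0101))) 
(.lf (nat_lit 30720018) (dlOf (nat_lit 1) (nat_lit 0x8008000400200020008e40783)))) 
(.lf (nat_lit 60082962) (dlOf (nat_lit 1) (nat_lit 0x20009845b81)))) (.nd (nat_lit 7) 
(.nd (nat_lit 23) (.lf (nat_lit 37011474) (dlOf (nat_lit 1) (nat_lit 0x800200040009080402))) 
(.lf (nat_lit 62177298) (dlOf (nat_lit 1) (nat_lit 0x20029970181)))) 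
(.lf (nat_lit 20238738) (dlOf (nat_lit 1) (nat_lit 0x80080004002000200089d8383)))))) 
(.nd (nat_lit 26) (.nd (nat_lit 10) (.nd (nat_lit 31) 
(.lf (nat_lit 805617682) (dlOf (nat_lit 2) (nat_lit 0x2403600ea00200020028140a01))) 
(.lf (nat_lit 2953101330) (dlOf (nat_lit 25) (nat_lit 0x2c805a001800a0002f8200200168001780808900b401440140005d04007801400ed003000164100470018000b004011802801f40060002b820011017001680a8009404e0028021001500f000d8060000aa1803c405c023602a010001380688084037c03c01ce0180002a060024017001700a8007004e002a021002700f00020060000a418003c05c006402a0029013800a0084005403c00420180002886000d017001c80a8005004e002a021001400f001100600009818002405c009202a0028013800f8084003403c00180180002586001600a0001000802e8050000700400100280003702007c0140001b0100020040017800000066080078000000320200540000001881002a0000000c00801b00000005e0400dc0000000802006e00000003810037000000010080038008000c00200480008120203)))) 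
(.nd (nat_lit 27) 
(.lf (nat_lit 5100588050) (dlOf (nat_lit 2) (nat_lit 0x3201f00200030000b41000080080008002000600080d5f83))) 
(.lf (nat_lit 5771676690) (dlOf (nat_lit 2) (nat_lit 0x10202800012818005f80))))) (.nd (nat_lit 27) 
(.nd (nat_lit 29) (.lf (nat_lit 2483339282) (dlOf (nat_lit 1) (nat_lit 0x1bc00080c0a01))) 
(.lf (nat_lit 5167693842) (dlOf (nat_lit 3) (nat_lit 0x260150013008800b0038005001a00260010001b85000a00a8003000400066080014004002c0008110182)))) 
(.lf (nat_lit 2617557010) (dlOf (nat_lit 7) (nat_lit 0xc05000020200001282000301a000980a0004c040000240600020340013014000a0080000440c002404e0001c0200260250000a8100070120000080802100080038002000600080f0403)))))) 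
(.nd (nat_lit 8) (.nd (nat_lit 28) (.nd (nat_lit 24) (.nd (nat_lit 23) 
(.lf (nat_lit 2754396178) (dlOf (nat_lit 3) (nat_lit 0x4020f000228100401078000e00800100080060002003600080e0183))) 
(.lf (nat_lit 11321362) (dlOf (nat_lit 1) (nat_lit 0x8008000400200020008690183)))) (.nd (nat_lit 7) 
(.lf (nat_lit 21807122) (dlOf (nat_lit 1) (nat_lit 0x8008000400200020008a70483))) 
(.lf (nat_lit 19715730) (dlOf (nat_lit 1) (nat_lit 0x2e4002015e00089d9e82))))) (.nd (nat_lit 20) 
(.nd (nat_lit 21) (.lf (nat_lit 3557605394) (dlOf (nat_lit 1) (nat_lit 0x160018270381))) 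
(.lf (nat_lit 3492593682) (dlOf (nat_lit 3) (nat_lit 0x401fa000228100400fd0000e00800100080060002003600080e0183)))) 
(.lf (nat_lit 1346158610) (dlOf (nat_lit 1) (nat_lit 0xb800400200008e60082))))) (.nd (nat_lit 7) 
(.nd (nat_lit 9) (.lf (nat_lit 19715346) (dlOf (nat_lit 1) (nat_lit 0x200289d9681))) 
(.lf (nat_lit 46975762) (dlOf (nat_lit 1) (nat_lit 0x40019385b81)))) 
(.lf (nat_lit 36489618) (dlOf (nat_lit 1) (nat_lit 0x980009074e81))))))) (.nd (nat_lit 29) 
(.nd (nat_lit 18) (.nd (nat_lit 28) (.nd (nat_lit 7) (.nd (nat_lit 20) (.nd (nat_lit 19) 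
(.lf (nat_lit 25215058) (dlOf (nat_lit 3) (nat_lit 0xbc0000003302000d9150000f818bf0d80))) 
(.lf (nat_lit 42516562) (dlOf (nat_lit 1) (nat_lit 0x400400020009260782)))) (.nd (nat_lit 8) 
(.lf (nat_lit 33080402) (dlOf (nat_lit 1) (nat_lit 0x60028f52881))) 
(.lf (nat_lit 14205266) (dlOf (nat_lit 1) (nat_lit 0x800400020008750882))))) (.nd (nat_lit 27) 
(.nd (nat_lit 8) (.lf (nat_lit 2147534034) (dlOf (nat_lit 1) (nat_lit 0x2c00400020008002d82))) 
(.lf (nat_lit 19974610) (dlOf (nat_lit 1) (nat_lit 0x600289d4e81)))) (.nd (nat_lit 32) 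
(.lf (nat_lit 1208009938) (dlOf (nat_lit 1) (nat_lit 0x7400400340008002d82))) 
(.lf (nat_lit 5502977234) (dlOf (nat_lit 2) (nat_lit 0x1c024000000200040028002d81)))))) 
(.nd (nat_lit 19) (.nd (nat_lit 11) (.nd (nat_lit 21) 
(.lf (nat_lit 5704302674) (dlOf (nat_lit 1) (nat_lit 0x400400020008050002))) 
(.lf (nat_lit 471908434) (dlOf (nat_lit 1) (nat_lit 0x400286b0281)))) (.nd (nat_lit 7) 
(.lf (nat_lit 5704305490) (dlOf (nat_lit 1) (nat_lit 0xe000201240008055c02))) 
(.lf (nat_lit 1342229714) (dlOf (nat_lit 1) (nat_lit 0x20028006401))))) (.nd (nat_lit 20) 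
(.nd (nat_lit 26) 
(.lf (nat_lit 3494428754) (dlOf (nat_lit 3) (nat_lit 0x100f00005408008809400cc03c000120400020028220d81))) 
(.lf (nat_lit 474529874) (dlOf (nat_lit 1) (nat_lit 0x70004003200091a0782)))) 
(.lf (nat_lit 3493380178) (dlOf (nat_lit 6) (nat_lit 0x8069001602200030090004c0400002c08002606900050220010009000380400002b0800340690026022000c809000700400002a0800020440001481000c0220000900800a00080050002000a0008121003)))))) 
(.nd (nat_lit 7) (.nd (nat_lit 27) (.nd (nat_lit 31) (.nd (nat_lit 9) 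
(.lf (nat_lit 9224274) (dlOf (nat_lit 2) (nat_lit 0x26b44a010582f0002b028530680))) 
(.lf (nat_lit 314962) (dlOf (nat_lit 1) (nat_lit 0x19000400f40008007182)))) (.nd (nat_lit 8) 
(.lf (nat_lit 2483339346) (dlOf (nat_lit 1) (nat_lit 0x40004000400080c1602))) 
(.lf (nat_lit 3221537106) (dlOf (nat_lit 3) (nat_lit 0x100140004002002200a0001f818124d00))))) 
(.nd (nat_lit 19) (.nd (nat_lit 26) 
(.lf (nat_lit 1208270930) (dlOf (nat_lit 3) (nat_lit 0x5a019804a0098023001200056060048027002000500004c1000280080018002000400080b0683))) 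
(.lf (nat_lit 2349121618) (dlOf (nat_lit 2) (nat_lit 0x42015803a80a4020404e00e60140001a0480c1900)))) 
(.lf (nat_lit 5773246546) (dlOf (nat_lit 4) (nat_lit 0xd8000000ac0400040540004202018e000000098180b0680))))) 
(.nd (nat_lit 8) (.nd (nat_lit 9) 
(.lf (nat_lit 5503238354) (dlOf (nat_lit 2) (nat_lit 0x70080001e40800280080048002000600080c1b83))) 
(.lf (nat_lit 315090) (dlOf (nat_lit 1) (nat_lit 0x20028007381)))) (.nd (nat_lit 9) 
(.nd (nat_lit 11) (.lf (nat_lit 3221537234) (dlOf (nat_lit 1) (nat_lit 0x60028127101))) 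
(.lf (nat_lit 58509778) (dlOf (nat_lit 1) (nat_lit 0x4002000200097e4e82)))) 
(.lf (nat_lit 19712978) (dlOf (nat_lit 1) (nat_lit 0x94004000400189d5d82))))))) (.nd (nat_lit 28) 
(.nd (nat_lit 26) (.nd (nat_lit 32) (.nd (nat_lit 7) (.nd (nat_lit 8) 
(.lf (nat_lit 1745141842) (dlOf (nat_lit 2) (nat_lit 0x5fa036030a018818480880b500320608014008c0010001083000180080010002001600080b0683))) 
(.lf (nat_lit 537182546) (dlOf (nat_lit 1) (nat_lit 0x40028048b01)))) 
(.lf (nat_lit 2818622674) (dlOf (nat_lit 1) (nat_lit 0x2000400020008082d82)))) (.nd (nat_lit 7) 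
(.nd (nat_lit 8) (.lf (nat_lit 4831887442) (dlOf (nat_lit 1) (nat_lit 0x400400020008050002))) 
(.lf (nat_lit 4831890258) (dlOf (nat_lit 1) (nat_lit 0x90008012c002004a0008055c03)))) 
(.lf (nat_lit 5905632978) (dlOf (nat_lit 1) (nat_lit 0x400400020008007382))))) (.nd (nat_lit 8) 
(.nd (nat_lit 20) (.nd (nat_lit 21) 
(.lf (nat_lit 2756231250) (dlOf (nat_lit 3) (nat_lit 0x100f00005408008809400cc03c000120400020028220d81))) 
(.lf (nat_lit 2754134098) (dlOf (nat_lit 4) (nat_lit 0x2380cb00830630014027c000680c02a419601360c6006805d8000c818006832c00062040010002000400080c1902)))) 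
(.lf (nat_lit 2755182674) (dlOf (nat_lit 6) (nat_lit 0x8069001602200030090004c0400002d08002606900050220010009000380400002c0800340690026022000c809000700400002b0800020440001501000c0220000900800a00080050002000a0008121003)))) 
(.nd (nat_lit 7) (.lf (nat_lit 3959734610) (dlOf (nat_lit 1) (nat_lit 0x1000200100008124d82))) 
(.nd (nat_lit 9) 
(.lf (nat_lit 4898997714) (dlOf (nat_lit 1) (nat_lit 0x28008000c00200020008053603))) 
(.lf (nat_lit 604034002) (dlOf (nat_lit 1) (nat_lit 0x400200020008009202))))))) (.nd (nat_lit 32) 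
(.nd (nat_lit 7) (.nd (nat_lit 10) (.nd (nat_lit 27) 
(.lf (nat_lit 872726610) (dlOf (nat_lit 2) (nat_lit 0x5fa036030a018818480880b500320608014008c0010001083000180080010002001600080b0683))) 
(.lf (nat_lit 2080686162) (dlOf (nat_lit 3) (nat_lit 0x5a019804a0098023001200056060048027002000500004c1000280080018002000400080b0683)))) 
(.lf (nat_lit 2952844370) (dlOf (nat_lit 1) (nat_lit 0x40008000400200040008009303)))) 
(.nd (nat_lit 8) (.nd (nat_lit 10) 
(.lf (nat_lit 4095262930) (dlOf (nat_lit 1) (nat_lit 0x24002000c0008081b82))) 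
(.lf (nat_lit 3019949266) (dlOf (nat_lit 1) (nat_lit 0x20008082d81)))) 
(.lf (nat_lit 2952844242) (dlOf (nat_lit 1) (nat_lit 0x400400020018009202))))) (.nd (nat_lit 27) 
(.nd (nat_lit 7) (.nd (nat_lit 8) 
(.lf (nat_lit 6174064722) (dlOf (nat_lit 1) (nat_lit 0x400400020008050002))) 
(.lf (nat_lit 6174067538) (dlOf (nat_lit 1) (nat_lit 0xc800800c800200d20008055c03)))) 
(.lf (nat_lit 5100324050) (dlOf (nat_lit 2) (nat_lit 0x401b000200b8001004800040000003b0800060008052d81)))) 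
(.nd (nat_lit 8) (.nd (nat_lit 18) 
(.lf (nat_lit 5234540626) (dlOf (nat_lit 1) (nat_lit 0x400400020008050002))) 
(.lf (nat_lit 6377226322) (dlOf (nat_lit 4) (nat_lit 0xd8000000ac0400040540004202018e000000098180b0680)))) 
(.lf (nat_lit 5234543442) (dlOf (nat_lit 1) (nat_lit 0x30008010c002014e0008055c03))))))))) 
(.nd (nat_lit 31) (.nd (nat_lit 18) (.nd (nat_lit 6) (.nd (nat_lit 9) (.nd (nat_lit 19) 
(.nd (nat_lit 8) (.nd (nat_lit 20) 
(.lf (nat_lit 14729266) (dlOf (nat_lit 2) (nat_lit 0x1243f000e3818770480))) (.nd (nat_lit 22) 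
(.lf (nat_lit 68206642) (dlOf (nat_lit 2) (nat_lit 0x1900000004a04016800200700008450782))) 
(.lf (nat_lit 13680690) (dlOf (nat_lit 1) (nat_lit 0x8008000400200020008740683))))) 
(.nd (nat_lit 7) (.nd (nat_lit 10) 
(.lf (nat_lit 5771411762) (dlOf (nat_lit 1) (nat_lit 0x700018000b01))) 
(.lf (nat_lit 8443186) (dlOf (nat_lit 1) (nat_lit 0x10008001000200040008519883)))) 
(.lf (nat_lit 1208010162) (dlOf (nat_lit 1) (nat_lit 0x28008000800200020008003603))))) 
(.nd (nat_lit 10) (.nd (nat_lit 20) (.nd (nat_lit 22) 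
(.lf (nat_lit 17350706) (dlOf (nat_lit 1) (nat_lit 0xd4004002200088e0002))) 
(.lf (nat_lit 21545010) (dlOf (nat_lit 5) (nat_lit 0x4a14f00560a4802404ec010c254002a10d00040720000c830000853c00c829200c413b00590950016843400680fc0002f0c01ba14500bc0a10000ac10050851400054040024004007a0018a40382)))) 
(.lf (nat_lit 26787890) (dlOf (nat_lit 2) (nat_lit 0x26a90000d808017000800a800200440008c70983)))) 
(.lf (nat_lit 1344848946) (dlOf (nat_lit 1) (nat_lit 0x28008000c00200020008982883))))) 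
(.nd (nat_lit 11) (.nd (nat_lit 7) (.nd (nat_lit 26) 
(.lf (nat_lit 268486194) (dlOf (nat_lit 2) (nat_lit 0xb001c0003804008000400340018053782))) 
(.lf (nat_lit 4496344626) (dlOf (nat_lit 2) (nat_lit 0x801a0000e018053780)))) (.nd (nat_lit 8) 
(.lf (nat_lit 19972786) (dlOf (nat_lit 1) (nat_lit 0xe00289d1d81))) 
(.lf (nat_lit 201377714) (dlOf (nat_lit 1) (nat_lit 0x400400020008004382))))) (.nd (nat_lit 8) 
(.nd (nat_lit 19) 
(.lf (nat_lit 41994802) (dlOf (nat_lit 2) (nat_lit 0x1c95a0008b0200240009245181))) 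
(.nd (nat_lit 20) 
(.lf (nat_lit 472435250) (dlOf (nat_lit 2) (nat_lit 0xc160000604e00022c100018008000400200100008985183))) 
(.lf (nat_lit 60344882) (dlOf (nat_lit 1) (nat_lit 0x8008000800200040009845183))))) 
(.lf (nat_lit 46713650) (dlOf (nat_lit 1) (nat_lit 0xe0009385c01)))))) (.nd (nat_lit 8) 
(.nd (nat_lit 7) (.nd (nat_lit 21) (.nd (nat_lit 26) 
(.lf (nat_lit 671137906) (dlOf (nat_lit 2) (nat_lit 0x2025000aa0180b0080))) 
(.lf (nat_lit 1543553138) (dlOf (nat_lit 2) (nat_lit 0x2025000ac8180b0080)))) 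
(.lf (nat_lit 1344323698) (dlOf (nat_lit 1) (nat_lit 0x200286b0481)))) (.nd (nat_lit 9) 
(.nd (nat_lit 28) 
(.lf (nat_lit 4831887602) (dlOf (nat_lit 1) (nat_lit 0x8008002c002000c0008050a83))) 
(.lf (nat_lit 6174064882) (dlOf (nat_lit 1) (nat_lit 0x10008000400200020008050a83)))) 
(.lf (nat_lit 49859314) (dlOf (nat_lit 2) (nat_lit 0x74e50000400800100080010002000600094c5a03))))) 
(.nd (nat_lit 10) (.nd (nat_lit 9) 
(.lf (nat_lit 40421874) (dlOf (nat_lit 1) (nat_lit 0x200291f4f01))) (.nd (nat_lit 21) 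
(.lf (nat_lit 738247666) (dlOf (nat_lit 1) (nat_lit 0x20400400120008002882))) 
(.lf (nat_lit 56673266) (dlOf (nat_lit 1) (nat_lit 0x100029732881))))) (.nd (nat_lit 7) 
(.nd (nat_lit 26) 
(.lf (nat_lit 268486002) (dlOf (nat_lit 2) (nat_lit 0xb00a0000180800480080078002000e0008053503))) 
(.lf (nat_lit 6375392626) (dlOf (nat_lit 1) (nat_lit 0x1800400320018003502)))) 
(.lf (nat_lit 67163634) (dlOf (nat_lit 1) (nat_lit 0x4004002a0018009c02))))))) (.nd (nat_lit 21) 
(.nd (nat_lit 6) (.nd (nat_lit 7) (.nd (nat_lit 23) (.nd (nat_lit 26) (.nd (nat_lit 29) 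
(.lf (nat_lit 4429496370) (dlOf (nat_lit 1) (nat_lit 0x14004000200080f0f82))) 
(.lf (nat_lit 1745141810) (dlOf (nat_lit 2) (nat_lit 0x60188014008800800320023c06000200280b0481)))) 
(.lf (nat_lit 872726578) (dlOf (nat_lit 2) (nat_lit 0x60188014008800800320023c06000200280b0481)))) 
(.nd (nat_lit 19) (.lf (nat_lit 26525746) (dlOf (nat_lit 2) (nat_lit 0xd3d85000e3818c50480))) 
(.lf (nat_lit 13418546) (dlOf (nat_lit 6) (nat_lit 0x1bf7a3e0c7dc6e0983e3004bbf17826077a612a1bd005f8b84825b80000006c200f9f8dc1325c60099ce2f04baef4c25977a007d80000001a060048e8f801071b80ec38c00777c5e03b3de980d0ef400a5253a0002e0e067dd1f02b3e3701d6717801637a00261ac8029d94e808d80000005a1c03278c001efc5e00eede98000ac180050008041800200020008720f83))))) 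
(.nd (nat_lit 9) 
(.lf (nat_lit 4563714226) (dlOf (nat_lit 7) (nat_lit 0x380b4001803e0001904004202f00030168003007c000300c001005a000201f0000582000800f8000280800280bc001805a001001f0000483000700f8000200800400080004002001c00080c1683))) 
(.lf (nat_lit 313010) (dlOf (nat_lit 1) (nat_lit 0x20028003a81))))) (.nd (nat_lit 26) 
(.nd (nat_lit 19) (.lf (nat_lit 38060146) (dlOf (nat_lit 1) (nat_lit 0x20009122501))) 
(.lf (nat_lit 135053426) (dlOf (nat_lit 2) (nat_lit 0x30031000fc0181b0080)))) (.nd (nat_lit 27) 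
(.lf (nat_lit 4362911858) (dlOf (nat_lit 2) (nat_lit 0xd402d001180181a0080))) 
(.lf (nat_lit 202162290) (dlOf (nat_lit 2) (nat_lit 0x30031000f30181b0080)))))) (.nd (nat_lit 8) 
(.nd (nat_lit 20) (.nd (nat_lit 9) 
(.lf (nat_lit 6602802) (dlOf (nat_lit 2) (nat_lit 0x1384d10000c818430f00))) (.nd (nat_lit 11) 
(.lf (nat_lit 23380530) (dlOf (nat_lit 5) (nat_lit 0xd322c006987000013820035c8b001a61c00001208001722c000050200699160038c38000000100060008000800200060008b80f03))) 
(.lf (nat_lit 35965490) (dlOf (nat_lit 1) (nat_lit 0x1400200040009015182))))) (.nd (nat_lit 6) 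
(.nd (nat_lit 9) (.lf (nat_lit 7651378) (dlOf (nat_lit 2) (nat_lit 0x138a660000f0184c0f00))) 
(.lf (nat_lit 49596978) (dlOf (nat_lit 1) (nat_lit 0x1e00080060002004a0009465183)))) 
(.lf (nat_lit 20238962) (dlOf (nat_lit 1) (nat_lit 0x4004000200189d8982))))) (.nd (nat_lit 6) 
(.nd (nat_lit 7) (.lf (nat_lit 20764466) (dlOf (nat_lit 1) (nat_lit 0x200289da101))) 
(.lf (nat_lit 8180146) (dlOf (nat_lit 1) (nat_lit 0x20018518501)))) (.nd (nat_lit 7) 
(.lf (nat_lit 23380338) (dlOf (nat_lit 2) (nat_lit 0xd0ba003f8018b80780))) 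
(.lf (nat_lit 473220082) (dlOf (nat_lit 1) (nat_lit 0x400400060018dd2882)))))))) (.nd (nat_lit 28) 
(.nd (nat_lit 7) (.nd (nat_lit 18) (.nd (nat_lit 6) (.nd (nat_lit 20) (.nd (nat_lit 21) 
(.lf (nat_lit 2756231218) (dlOf (nat_lit 2) (nat_lit 0x100f0002740800380080018002000a0008220b83))) 
(.lf (nat_lit 2754134066) (dlOf (nat_lit 7) (nat_lit 0xdbc19a0318088000190203c206680ed8220000600804d819a0002e0200500e701550668000b4100180334000560404a019a0002902000200180c0f81)))) 
(.lf (nat_lit 2755182642) (dlOf (nat_lit 1) (nat_lit 0x70008000400200080008120d03)))) 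
(.nd (nat_lit 22) (.lf (nat_lit 3825254514) (dlOf (nat_lit 1) (nat_lit 0x8004000200080b0082))) 
(.lf (nat_lit 2755706994) (dlOf (nat_lit 5) (nat_lit 0x2e041400ee1d400460000008c018001082800203a80022f0400e0224002d10400028700003d00c0034448001e602002200281b0081))))) 
(.nd (nat_lit 9) (.nd (nat_lit 19) 
(.lf (nat_lit 2349121586) (dlOf (nat_lit 6) (nat_lit 0xcc0560b0202201fe00a002d00000006c1014e804400034020160022000170100840110000b40802380880005604001400403a600180c0f82))) 
(.lf (nat_lit 2754396210) (dlOf (nat_lit 3) (nat_lit 0x80202000d0fa8003077c005c2880002d0801f421100c60fc80005c1000480080014002001000080e0683)))) 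
(.nd (nat_lit 26) 
(.lf (nat_lit 3221537330) (dlOf (nat_lit 6) (nat_lit 0x6800e000118100790070000880801a00380003c0400c801c004a0000000e02001400700006c0801180080024002003c0008128003))) 
(.lf (nat_lit 6509871666) (dlOf (nat_lit 1) (nat_lit 0x50004002c0008158002)))))) (.nd (nat_lit 6) 
(.nd (nat_lit 9) (.nd (nat_lit 27) 
(.lf (nat_lit 2147534258) (dlOf (nat_lit 1) (nat_lit 0x1c8008004800200120008003603))) 
(.lf (nat_lit 3892364722) (dlOf (nat_lit 1) (nat_lit 0x7a0008083601)))) 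
(.lf (nat_lit 2751514546) (dlOf (nat_lit 1) (nat_lit 0xe00080074002000c0008004383)))) 
(.nd (nat_lit 9) (.nd (nat_lit 8) 
(.lf (nat_lit 3288386802) (dlOf (nat_lit 1) (nat_lit 0x140018006581))) 
(.lf (nat_lit 6643832306) (dlOf (nat_lit 1) (nat_lit 0x20008003800200060008009c03)))) 
(.nd (nat_lit 30) (.lf (nat_lit 2818622450) (dlOf (nat_lit 1) (nat_lit 0x20028082881))) 
(.lf (nat_lit 3892364274) (dlOf (nat_lit 1) (nat_lit 0x20028082881))))))) (.nd (nat_lit 19) 
(.nd (nat_lit 6) (.nd (nat_lit 7) (.nd (nat_lit 8) 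
(.lf (nat_lit 4094741042) (dlOf (nat_lit 1) (nat_lit 0x2000200020008055182))) 
(.lf (nat_lit 4026582834) (dlOf (nat_lit 2) (nat_lit 0x280d800040560002c0400960008003d81)))) 
(.lf (nat_lit 3489713586) (dlOf (nat_lit 1) (nat_lit 0xbe0008006d01)))) (.nd (nat_lit 11) 
(.nd (nat_lit 22) (.lf (nat_lit 3087057010) (dlOf (nat_lit 1) (nat_lit 0x8004000200080b0082))) 
(.lf (nat_lit 3493904498) (dlOf (nat_lit 2) (nat_lit 0x3e0f9000fd0181b0080)))) (.nd (nat_lit 7) 
(.lf (nat_lit 2952846450) (dlOf (nat_lit 2) (nat_lit 0x1201c0001781800c100))) 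
(.lf (nat_lit 6710938610) (dlOf (nat_lit 1) (nat_lit 0x400400020008005f02)))))) (.nd (nat_lit 18) 
(.nd (nat_lit 20) (.nd (nat_lit 7) (.nd (nat_lit 22) 
(.lf (nat_lit 3154690098) (dlOf (nat_lit 3) (nat_lit 0x18602c001fd010051016000fbc080388008012400200820008310003))) 
(.lf (nat_lit 3494428722) (dlOf (nat_lit 2) (nat_lit 0x100f0002740800380080018002000a0008220b83)))) 
(.lf (nat_lit 3154690226) (dlOf (nat_lit 5) (nat_lit 0x23405800a860200740180053c01001500c801b0060014cc08049002c004001400517028310480)))) 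
(.nd (nat_lit 6) 
(.lf (nat_lit 3493380146) (dlOf (nat_lit 1) (nat_lit 0x70008000400200080008120d03))) 
(.lf (nat_lit 4095263090) (dlOf (nat_lit 3) (nat_lit 0x5000002bbc080010000015dc04002800200660008085802))))) 
(.nd (nat_lit 20) (.nd (nat_lit 6) 
(.lf (nat_lit 3492593714) (dlOf (nat_lit 3) (nat_lit 0x1a1e300400f000030728005c2880002d0801f41fc00c60f380005c1000480080014002001000080e0683))) 
(.lf (nat_lit 4228694130) (dlOf (nat_lit 2) (nat_lit 0xd402c001240181a0080)))) (.nd (nat_lit 21) 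
(.lf (nat_lit 4095524914) (dlOf (nat_lit 1) (nat_lit 0x1200180d0601))) 
(.lf (nat_lit 3493642290) (dlOf (nat_lit 1) (nat_lit 0x400200520008190982)))))))))) 
(.nd (nat_lit 18) (.nd (nat_lit 5) (.nd (nat_lit 6) (.nd (nat_lit 26) (.nd (nat_lit 7) 
(.nd (nat_lit 20) (.nd (nat_lit 10) 
(.lf (nat_lit 805879834) (dlOf (nat_lit 3) (nat_lit 0x480d400200480002404041e054008c00880008c100048008008c002000400081d0503))) 
(.nd (nat_lit 12) (.lf (nat_lit 4831890458) (dlOf (nat_lit 1) (nat_lit 0x400200400008056002))) 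
(.lf (nat_lit 8444954) (dlOf (nat_lit 1) (nat_lit 0x6d80080044002014e000851bf03))))) 
(.nd (nat_lit 8) (.nd (nat_lit 19) 
(.lf (nat_lit 13680666) (dlOf (nat_lit 1) (nat_lit 0x8008003400200020008740483))) 
(.lf (nat_lit 3719194) (dlOf (nat_lit 1) (nat_lit 0xa0008220a01)))) 
(.lf (nat_lit 19972378) (dlOf (nat_lit 1) (nat_lit 0x200289d0a81))))) (.nd (nat_lit 21) 
(.nd (nat_lit 8) (.nd (nat_lit 19) 
(.lf (nat_lit 2818622618) (dlOf (nat_lit 1) (nat_lit 0x40028082b81))) 
(.lf (nat_lit 1346946202) (dlOf (nat_lit 2) (nat_lit 0x424e00080dd00044829102b80)))) 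
(.lf (nat_lit 4026582938) (dlOf (nat_lit 1) (nat_lit 0x520008004281)))) (.nd (nat_lit 10) 
(.nd (nat_lit 24) (.lf (nat_lit 2146458) (dlOf (nat_lit 1) (nat_lit 0x40028150181))) 
(.lf (nat_lit 18923674) (dlOf (nat_lit 1) (nat_lit 0x400200020008970482)))) 
(.lf (nat_lit 1344849050) (dlOf (nat_lit 3) (nat_lit 0xa09c0004481000204e000220080050008000c00200020008982b83)))))) 
(.nd (nat_lit 19) (.nd (nat_lit 7) (.nd (nat_lit 8) 
(.lf (nat_lit 469818906) (dlOf (nat_lit 1) (nat_lit 0x2001800cf01))) (.nd (nat_lit 9) 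
(.lf (nat_lit 4898997530) (dlOf (nat_lit 1) (nat_lit 0x8008000400200020008053083))) 
(.lf (nat_lit 3154168602) (dlOf (nat_lit 1) (nat_lit 0xa0028085c01))))) (.nd (nat_lit 9) 
(.nd (nat_lit 20) 
(.lf (nat_lit 3288385946) (dlOf (nat_lit 3) (nat_lit 0x202b008ff0100010170047ec0800e8008000800200a40008004e83))) 
(.lf (nat_lit 4094740890) (dlOf (nat_lit 2) (nat_lit 0xc0fe00160788036381001d0008007400200080008054e83)))) 
(.lf (nat_lit 2751514522) (dlOf (nat_lit 1) (nat_lit 0x20008002000200060008004283))))) 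
(.nd (nat_lit 8) (.nd (nat_lit 22) (.nd (nat_lit 27) 
(.lf (nat_lit 4362649626) (dlOf (nat_lit 14) (nat_lit 0x1202d001b015c05fc0a805d805204b40288208013c127808c0048042039a02080a380e0015006e07cc0330259018801580c0093c05a0558028001e00e020980580f700280526001007900000009ca802d816800700ae07e6054028e029021e81440ff009e02ee04600ea021802181080e2c082008204001af01c002d80dc004c06c025c03403c4019810e00c400fc06006c802d02ec014007b008001a802e008401603f300a0105003406e000200d0000000131b0010029001a81182cb0066000240601ae033000118100d00198000880806880cc000420406d0000000200204de04102f7019017a80c4011c0520040020009500a001780000003c1c15b008200be033038b01901c200c4046c05800ce0090000906056e02081cc00c80e5006200fc009000088401e0020802580c802300120000f0601f2000000058101430000000240806700080e54002046000080c0403))) 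
(.lf (nat_lit 4228431898) (dlOf (nat_lit 4) (nat_lit 0xe0c06400023020050004015900000008010004000000016040328002001800080c0502)))) 
(.lf (nat_lit 474529818) (dlOf (nat_lit 2) (nat_lit 0x138258007410a003a075001d0398001282000400080008002002600091a0103)))) 
(.nd (nat_lit 27) (.lf (nat_lit 67682586) (dlOf (nat_lit 1) (nat_lit 0x1000182d0701))) 
(.lf (nat_lit 3154690330) (dlOf (nat_lit 2) (nat_lit 0x602c0023d818310700))))))) (.nd (nat_lit 9) 
(.nd (nat_lit 10) (.nd (nat_lit 8) (.nd (nat_lit 22) (.nd (nat_lit 7) 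
(.lf (nat_lit 3154690138) (dlOf (nat_lit 2) (nat_lit 0x6180b00009c04000800200220008310382))) 
(.lf (nat_lit 3154690266) (dlOf (nat_lit 3) (nat_lit 0x80580009002002802c00047818310500)))) 
(.nd (nat_lit 24) 
(.lf (nat_lit 474529882) (dlOf (nat_lit 1) (nat_lit 0x8008000c002000800091a0883))) 
(.lf (nat_lit 21545050) (dlOf (nat_lit 2) (nat_lit 0x1a84ec000ac04002000400140008a40682))))) 
(.nd (nat_lit 11) (.lf (nat_lit 1343799642) (dlOf (nat_lit 1) (nat_lit 0x20028370901))) 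
(.lf (nat_lit 469817690) (dlOf (nat_lit 1) (nat_lit 0x8002800ab81))))) (.nd (nat_lit 28) 
(.nd (nat_lit 27) (.lf (nat_lit 4898997722) (dlOf (nat_lit 1) (nat_lit 0x400400020008053602))) 
(.nd (nat_lit 30) (.lf (nat_lit 4496344538) (dlOf (nat_lit 1) (nat_lit 0x400400020008053602))) 
(.lf (nat_lit 5570086362) (dlOf (nat_lit 1) (nat_lit 0x400400020008053602))))) (.nd (nat_lit 12) 
(.nd (nat_lit 27) 
(.lf (nat_lit 5100324314) (dlOf (nat_lit 1) (nat_lit 0x8008000400200020008053603))) 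
(.lf (nat_lit 6308283866) (dlOf (nat_lit 1) (nat_lit 0x8008000400200020008053603)))) 
(.lf (nat_lit 1006687706) (dlOf (nat_lit 1) (nat_lit 0x8008000800200020008009b03)))))) 
(.nd (nat_lit 26) (.nd (nat_lit 8) (.nd (nat_lit 7) 
(.lf (nat_lit 3892364890) (dlOf (nat_lit 1) (nat_lit 0x40028083901))) (.nd (nat_lit 19) 
(.lf (nat_lit 8442586) (dlOf (nat_lit 1) (nat_lit 0x400200020008518c82))) 
(.lf (nat_lit 578266) (dlOf (nat_lit 1) (nat_lit 0x400200020008008c82))))) (.nd (nat_lit 11) 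
(.lf (nat_lit 268485594) (dlOf (nat_lit 1) (nat_lit 0x30008002000200040008052883))) 
(.lf (nat_lit 5234543578) (dlOf (nat_lit 1) (nat_lit 0x20018055e01))))) (.nd (nat_lit 7) 
(.nd (nat_lit 8) (.lf (nat_lit 6375392858) (dlOf (nat_lit 1) (nat_lit 0x400400020008003902))) 
(.nd (nat_lit 22) (.lf (nat_lit 1275120474) (dlOf (nat_lit 1) (nat_lit 0x40008005c01))) 
(.lf (nat_lit 474008410) (dlOf (nat_lit 1) (nat_lit 0x80029005c01))))) (.nd (nat_lit 10) 
(.lf (nat_lit 2751513562) (dlOf (nat_lit 1) (nat_lit 0x400400020018002882))) 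
(.lf (nat_lit 4362131418) (dlOf (nat_lit 1) (nat_lit 0x680080020002000e000800a603)))))))) 
(.nd (nat_lit 26) (.nd (nat_lit 8) (.nd (nat_lit 6) (.nd (nat_lit 10) (.nd (nat_lit 19) 
(.lf (nat_lit 3490758714) (dlOf (nat_lit 3) (nat_lit 0x805b8001480801602fc0009604001400200020008020682))) 
(.nd (nat_lit 20) 
(.lf (nat_lit 3494428730) (dlOf (nat_lit 3) (nat_lit 0x48042001100f0002641000c81a00084084002801e0004a838220b80))) 
(.lf (nat_lit 3493380154) (dlOf (nat_lit 2) (nat_lit 0x481a00030084002e023000f00f0005682001d0008005c00200100008120d03))))) 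
(.nd (nat_lit 9) 
(.lf (nat_lit 1344848954) (dlOf (nat_lit 1) (nat_lit 0x30008000c00200060008982883))) 
(.nd (nat_lit 12) (.lf (nat_lit 6308283962) (dlOf (nat_lit 1) (nat_lit 0x2800400040008053782))) 
(.lf (nat_lit 8443450) (dlOf (nat_lit 1) (nat_lit 0xd4004005c0008519c02)))))) (.nd (nat_lit 7) 
(.nd (nat_lit 9) 
(.lf (nat_lit 19978362) (dlOf (nat_lit 2) (nat_lit 0xb61000a1c04000c004000e00189da882))) 
(.nd (nat_lit 19) (.lf (nat_lit 3758148218) (dlOf (nat_lit 1) (nat_lit 0x800200060008085402))) 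
(.lf (nat_lit 46713466) (dlOf (nat_lit 1) (nat_lit 0x400400020009385402))))) (.nd (nat_lit 28) 
(.lf (nat_lit 4831887610) (dlOf (nat_lit 1) (nat_lit 0x400400020008050a82))) 
(.lf (nat_lit 6174064890) (dlOf (nat_lit 1) (nat_lit 0x400400020008050a82)))))) (.nd (nat_lit 6) 
(.nd (nat_lit 27) (.nd (nat_lit 10) (.nd (nat_lit 11) 
(.lf (nat_lit 18923834) (dlOf (nat_lit 1) (nat_lit 0xe0028970701))) 
(.lf (nat_lit 536922426) (dlOf (nat_lit 1) (nat_lit 0x2e0028004c81)))) 
(.lf (nat_lit 8443194) (dlOf (nat_lit 1) (nat_lit 0x5180080004002014c0008519903)))) 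
(.nd (nat_lit 30) (.nd (nat_lit 28) 
(.lf (nat_lit 6576718138) (dlOf (nat_lit 1) (nat_lit 0x2400280b0581))) 
(.lf (nat_lit 3087057210) (dlOf (nat_lit 2) (nat_lit 0xb60000000b8180b0580)))) (.nd (nat_lit 7) 
(.lf (nat_lit 1476450106) (dlOf (nat_lit 2) (nat_lit 0x400f0000d00400040040002001800a102))) 
(.lf (nat_lit 5771413946) (dlOf (nat_lit 1) (nat_lit 0x8a0018004e81)))))) (.nd (nat_lit 7) 
(.nd (nat_lit 19) (.lf (nat_lit 6710937978) (dlOf (nat_lit 1) (nat_lit 0x4004001a0018004e82))) 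
(.lf (nat_lit 60344698) (dlOf (nat_lit 1) (nat_lit 0x51000802b000200880009844e83)))) 
(.nd (nat_lit 9) (.nd (nat_lit 10) 
(.lf (nat_lit 19976698) (dlOf (nat_lit 2) (nat_lit 0x6ca70024d8189d8680))) 
(.lf (nat_lit 61392378) (dlOf (nat_lit 1) (nat_lit 0x400200020009923682)))) 
(.lf (nat_lit 4429235194) (dlOf (nat_lit 1) (nat_lit 0xa0018002881))))))) (.nd (nat_lit 30) 
(.nd (nat_lit 8) (.nd (nat_lit 28) (.nd (nat_lit 19) 
(.lf (nat_lit 2752561210) (dlOf (nat_lit 3) (nat_lit 0x80738001480801602c40009604001400200020008020682))) 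
(.nd (nat_lit 20) 
(.lf (nat_lit 2756231226) (dlOf (nat_lit 3) (nat_lit 0x48042001100f0002641000c81a00084084002801e0004a838220b80))) 
(.lf (nat_lit 2755182650) (dlOf (nat_lit 2) (nat_lit 0x481a00030084002e023000f00f0005682001d0008005c00200100008120d03))))) 
(.nd (nat_lit 6) (.nd (nat_lit 22) 
(.lf (nat_lit 3154690106) (dlOf (nat_lit 2) (nat_lit 0x8802c001fe018310000))) 
(.lf (nat_lit 474529850) (dlOf (nat_lit 1) (nat_lit 0x18004002200091a0582)))) 
(.lf (nat_lit 335595130) (dlOf (nat_lit 1) (nat_lit 0x6a0008000400200540008003983))))) 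
(.nd (nat_lit 10) (.nd (nat_lit 9) (.nd (nat_lit 27) 
(.lf (nat_lit 604033530) (dlOf (nat_lit 1) (nat_lit 0x5800400040018008682))) 
(.lf (nat_lit 469815802) (dlOf (nat_lit 1) (nat_lit 0x80028008681)))) 
(.lf (nat_lit 1006683130) (dlOf (nat_lit 1) (nat_lit 0x160018002881)))) (.nd (nat_lit 6) 
(.nd (nat_lit 27) 
(.lf (nat_lit 2751514426) (dlOf (nat_lit 4) (nat_lit 0x280ce0002702000c0670001301000603380009408023800800b800200740008003e03))) 
(.lf (nat_lit 201377594) (dlOf (nat_lit 1) (nat_lit 0x400400020008003e02)))) 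
(.lf (nat_lit 4362131450) (dlOf (nat_lit 2) (nat_lit 0x1501980154008001000800100020002000800a603)))))) 
(.nd (nat_lit 6) (.nd (nat_lit 10) (.nd (nat_lit 9) (.nd (nat_lit 31) 
(.lf (nat_lit 5972738362) (dlOf (nat_lit 1) (nat_lit 0x2400280b0581))) 
(.lf (nat_lit 3825254714) (dlOf (nat_lit 2) (nat_lit 0xb60000000b8180b0580)))) 
(.lf (nat_lit 4227914554) (dlOf (nat_lit 1) (nat_lit 0x40040004000800bc82)))) (.nd (nat_lit 7) 
(.nd (nat_lit 8) (.lf (nat_lit 6375392826) (dlOf (nat_lit 1) (nat_lit 0x4004000c0018003782))) 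
(.lf (nat_lit 3288386874) (dlOf (nat_lit 1) (nat_lit 0xc0018006901)))) 
(.lf (nat_lit 3288386746) (dlOf (nat_lit 2) (nat_lit 0xc80d40004604005000200f20008006302))))) 
(.nd (nat_lit 7) (.nd (nat_lit 8) 
(.lf (nat_lit 1275120250) (dlOf (nat_lit 1) (nat_lit 0x1c0018005401))) (.nd (nat_lit 11) 
(.lf (nat_lit 4095263098) (dlOf (nat_lit 1) (nat_lit 0x3800200100008085982))) 
(.lf (nat_lit 3288385914) (dlOf (nat_lit 4) (nat_lit 0xcc06a019c402003802b008fb81000801a8046fc080180008000c00200860008004e83))))) 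
(.nd (nat_lit 8) (.nd (nat_lit 9) 
(.lf (nat_lit 4094738682) (dlOf (nat_lit 1) (nat_lit 0x20008004800200120008050a83))) 
(.lf (nat_lit 4093692666) (dlOf (nat_lit 1) (nat_lit 0x400400020018005a02)))) 
(.lf (nat_lit 3288387066) (dlOf (nat_lit 1) (nat_lit 0x10c002001c0008006f82))))))))) 
(.nd (nat_lit 5) (.nd (nat_lit 6) (.nd (nat_lit 29) (.nd (nat_lit 19) (.nd (nat_lit 20) 
(.nd (nat_lit 26) (.nd (nat_lit 7) (.nd (nat_lit 30) 
(.lf (nat_lit 2282012698) (dlOf (nat_lit 1) (nat_lit 0x8000200180008100482))) 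
(.lf (nat_lit 1208270874) (dlOf (nat_lit 2) (nat_lit 0x809400076040050004003800080b0102)))) 
(.lf (nat_lit 6442762650) (dlOf (nat_lit 1) (nat_lit 0x120008001c002003000081b0783)))) 
(.nd (nat_lit 27) 
(.lf (nat_lit 3288645658) (dlOf (nat_lit 8) (nat_lit 0x500d80078068001e0300008014800080880014014019160c0004036000601a000580c80322a0c000406c000c03400020148064441800b00d8031d604003406c0050034000a019000c80c00008056001a029000201200010088030e020000806c000603400c3782000101b005eac0800580080074002009c00080a0903))) 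
(.lf (nat_lit 3422863386) (dlOf (nat_lit 2) (nat_lit 0x780a80047804001800400140008130482))))) 
(.nd (nat_lit 8) (.nd (nat_lit 21) (.nd (nat_lit 22) 
(.lf (nat_lit 26525722) (dlOf (nat_lit 2) (nat_lit 0x2a00000005204006400200860008c50102))) 
(.lf (nat_lit 22331418) (dlOf (nat_lit 1) (nat_lit 0x60018ac0181)))) 
(.lf (nat_lit 62177306) (dlOf (nat_lit 3) (nat_lit 0x201300002404001c098000110200040029970401)))) 
(.nd (nat_lit 7) (.nd (nat_lit 9) 
(.lf (nat_lit 20234522) (dlOf (nat_lit 1) (nat_lit 0xf80080004002000200089d0a83))) 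
(.lf (nat_lit 20237082) (dlOf (nat_lit 1) (nat_lit 0x4002000200089d5c02)))) 
(.lf (nat_lit 11846042) (dlOf (nat_lit 1) (nat_lit 0x200186c0781)))))) (.nd (nat_lit 23) 
(.nd (nat_lit 20) (.nd (nat_lit 21) 
(.lf (nat_lit 21807130) (dlOf (nat_lit 1) (nat_lit 0x20028a70481))) 
(.lf (nat_lit 3492593690) (dlOf (nat_lit 1) (nat_lit 0xc8002005a00080e0482)))) (.nd (nat_lit 21) 
(.lf (nat_lit 18661402) (dlOf (nat_lit 2) (nat_lit 0x67d600017018960500))) 
(.lf (nat_lit 1346158618) (dlOf (nat_lit 2) (nat_lit 0xfa050c0838276041213901f10668000bc2001b0008002c00200280008e60103))))) 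
(.nd (nat_lit 7) (.nd (nat_lit 24) (.nd (nat_lit 25) 
(.lf (nat_lit 9224218) (dlOf (nat_lit 1) (nat_lit 0x800200020008530102))) 
(.lf (nat_lit 42778650) (dlOf (nat_lit 1) (nat_lit 0x20008001800200080009280103)))) 
(.lf (nat_lit 59555866) (dlOf (nat_lit 2) (nat_lit 0xc21f40017a04004c00400560009810602)))) 
(.lf (nat_lit 46975386) (dlOf (nat_lit 1) (nat_lit 0x40029384e81)))))) (.nd (nat_lit 26) 
(.nd (nat_lit 7) (.nd (nat_lit 27) (.nd (nat_lit 30) 
(.lf (nat_lit 805617690) (dlOf (nat_lit 5) (nat_lit 0xaa04f002d01c0000fc10040013c01400700003d04006004f000d01c0000ec10005813c00074040028004001e0018140b02))) 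
(.lf (nat_lit 4026843162) (dlOf (nat_lit 8) (nat_lit 0x500d80078068001e030000801480008088001401401c630c0004036000601a000580c8038c40c000406c000c03400020148071781800b00d8038a004003406c0050034000a019000c80c00008056001a029000201200010088037ac20000806c000603400dea82000101b006c400800580080074002009c00080a0903)))) 
(.lf (nat_lit 1745141786) (dlOf (nat_lit 1) (nat_lit 0x880080014002003200080b0103)))) 
(.nd (nat_lit 8) (.nd (nat_lit 27) 
(.lf (nat_lit 1610925210) (dlOf (nat_lit 1) (nat_lit 0x800200040008092b82))) 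
(.lf (nat_lit 5234803866) (dlOf (nat_lit 1) (nat_lit 0x400180d2b81)))) 
(.lf (nat_lit 1610925466) (dlOf (nat_lit 1) (nat_lit 0x400400020008093602))))) (.nd (nat_lit 28) 
(.nd (nat_lit 8) (.nd (nat_lit 19) 
(.lf (nat_lit 1678032922) (dlOf (nat_lit 5) (nat_lit 0xaa04f002d01c0000fc10040013c01400700003d04006004f000d01c0000ec10005813c00074040028004001e0018140b02))) 
(.lf (nat_lit 2754396186) (dlOf (nat_lit 1) (nat_lit 0xc8002005a00080e0482)))) 
(.lf (nat_lit 4899261210) (dlOf (nat_lit 1) (nat_lit 0x200080d5c01)))) (.nd (nat_lit 7) 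
(.nd (nat_lit 27) 
(.lf (nat_lit 872726554) (dlOf (nat_lit 1) (nat_lit 0x880080014002003200080b0103))) 
(.lf (nat_lit 2080686106) (dlOf (nat_lit 2) (nat_lit 0x809400076040050004003800080b0102)))) 
(.lf (nat_lit 1008518298) (dlOf (nat_lit 1) (nat_lit 0xa0018d12b81))))))) (.nd (nat_lit 28) 
(.nd (nat_lit 31) (.nd (nat_lit 9) (.nd (nat_lit 7) (.nd (nat_lit 20) 
(.lf (nat_lit 1745141850) (dlOf (nat_lit 2) (nat_lit 0x16036006590180b0780))) 
(.lf (nat_lit 9748570) (dlOf (nat_lit 1) (nat_lit 0x80008013c00200500008580683)))) 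
(.lf (nat_lit 5503238362) (dlOf (nat_lit 1) (nat_lit 0x4002000200080c1c02)))) (.nd (nat_lit 10) 
(.lf (nat_lit 52218458) (dlOf (nat_lit 4) (nat_lit 0xd822002eab4007153d802c29a4014546200220f8005a0000000b8380b4304c04f57f801300000000f8300050000000000802000080050002000a0009515303))) 
(.nd (nat_lit 20) (.lf (nat_lit 52741722) (dlOf (nat_lit 1) (nat_lit 0x300019573901))) 
(.lf (nat_lit 43304538) (dlOf (nat_lit 1) (nat_lit 0x4004000200092a3902)))))) (.nd (nat_lit 8) 
(.nd (nat_lit 27) 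
(.lf (nat_lit 3288645722) (dlOf (nat_lit 2) (nat_lit 0x4d803c0004c040050004000200080a1182))) 
(.lf (nat_lit 2349121626) (dlOf (nat_lit 2) (nat_lit 0x200140000980800e00080048002000a00080c1a83)))) 
(.nd (nat_lit 7) (.nd (nat_lit 26) 
(.lf (nat_lit 3221537114) (dlOf (nat_lit 1) (nat_lit 0x5800400060018124e82))) 
(.lf (nat_lit 6509871450) (dlOf (nat_lit 1) (nat_lit 0x800400020008154e82)))) 
(.lf (nat_lit 2818889178) (dlOf (nat_lit 1) (nat_lit 0x280080004002001a0008129b03)))))) 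
(.nd (nat_lit 7) (.nd (nat_lit 29) (.nd (nat_lit 19) 
(.lf (nat_lit 268746842) (dlOf (nat_lit 1) (nat_lit 0x400400020008120682))) 
(.lf (nat_lit 1346158682) (dlOf (nat_lit 1) (nat_lit 0x7400400080008e60882)))) (.nd (nat_lit 26) 
(.lf (nat_lit 4026843226) (dlOf (nat_lit 2) (nat_lit 0x4d803c00026040050004000200080a1182))) 
(.lf (nat_lit 872726618) (dlOf (nat_lit 2) (nat_lit 0x16036003828180b0780))))) (.nd (nat_lit 26) 
(.lf (nat_lit 4563714266) (dlOf (nat_lit 3) (nat_lit 0x80580001a02000402c0000c0180c1c00))) 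
(.lf (nat_lit 335855834) (dlOf (nat_lit 1) (nat_lit 0x200280c1c01))))))) (.nd (nat_lit 19) 
(.nd (nat_lit 7) (.nd (nat_lit 21) (.nd (nat_lit 6) (.nd (nat_lit 9) 
(.lf (nat_lit 537182522) (dlOf (nat_lit 2) (nat_lit 0x406600017818048500))) 
(.lf (nat_lit 3489979194) (dlOf (nat_lit 1) (nat_lit 0x1f800800040020014000800bc83)))) 
(.nd (nat_lit 9) (.nd (nat_lit 26) 
(.lf (nat_lit 6308544634) (dlOf (nat_lit 1) (nat_lit 0x4002003800080f0c82))) 
(.lf (nat_lit 5033476218) (dlOf (nat_lit 1) (nat_lit 0x200180c0b81)))) 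
(.lf (nat_lit 4832151162) (dlOf (nat_lit 1) (nat_lit 0x800280d3981))))) (.nd (nat_lit 20) 
(.nd (nat_lit 9) (.lf (nat_lit 3492069434) (dlOf (nat_lit 1) (nat_lit 0x200180a0b81))) 
(.lf (nat_lit 35965498) (dlOf (nat_lit 1) (nat_lit 0x20029015201)))) (.nd (nat_lit 8) 
(.lf (nat_lit 24428602) (dlOf (nat_lit 1) (nat_lit 0x1000800b4002005c0008ba0b83))) 
(.lf (nat_lit 3457338) (dlOf (nat_lit 1) (nat_lit 0xc00200020008200582)))))) (.nd (nat_lit 6) 
(.nd (nat_lit 26) (.nd (nat_lit 10) 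
(.lf (nat_lit 6442762426) (dlOf (nat_lit 1) (nat_lit 0x200281b0381))) 
(.lf (nat_lit 314554) (dlOf (nat_lit 1) (nat_lit 0x800400080008006302)))) (.nd (nat_lit 12) 
(.nd (nat_lit 27) (.lf (nat_lit 1409597626) (dlOf (nat_lit 1) (nat_lit 0x400200020008045202))) 
(.lf (nat_lit 5838782650) (dlOf (nat_lit 1) (nat_lit 0x200281b0381)))) 
(.lf (nat_lit 3557085370) (dlOf (nat_lit 1) (nat_lit 0x400200020008127e82))))) (.nd (nat_lit 9) 
(.nd (nat_lit 10) (.nd (nat_lit 26) 
(.lf (nat_lit 3221537274) (dlOf (nat_lit 1) (nat_lit 0xc00200160008127802))) 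
(.lf (nat_lit 3959734778) (dlOf (nat_lit 2) (nat_lit 0xb400e00011018127e00)))) 
(.lf (nat_lit 6375654906) (dlOf (nat_lit 1) (nat_lit 0x20018003681)))) (.nd (nat_lit 11) 
(.lf (nat_lit 52741114) (dlOf (nat_lit 1) (nat_lit 0x20029572881))) 
(.lf (nat_lit 5771676666) (dlOf (nat_lit 1) (nat_lit 0x80028005f01))))))) (.nd (nat_lit 26) 
(.nd (nat_lit 8) (.nd (nat_lit 23) (.nd (nat_lit 22) (.nd (nat_lit 28) 
(.lf (nat_lit 835642) (dlOf (nat_lit 2) (nat_lit 0x2c98600025818020680))) 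
(.lf (nat_lit 1343012922) (dlOf (nat_lit 1) (nat_lit 0x20028130b81)))) 
(.lf (nat_lit 21807162) (dlOf (nat_lit 2) (nat_lit 0x28bcc00ea5da800fae74000960c000c00200020008a70682)))) 
(.nd (nat_lit 9) (.nd (nat_lit 20) 
(.lf (nat_lit 9224250) (dlOf (nat_lit 1) (nat_lit 0x1c0008530481))) 
(.lf (nat_lit 10272826) (dlOf (nat_lit 1) (nat_lit 0x10004000400085c0d02)))) 
(.lf (nat_lit 12370490) (dlOf (nat_lit 1) (nat_lit 0x680080004002000200086c1003))))) 
(.nd (nat_lit 6) (.nd (nat_lit 7) 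
(.lf (nat_lit 135053626) (dlOf (nat_lit 1) (nat_lit 0x38004000400081b0582))) 
(.lf (nat_lit 3490503610) (dlOf (nat_lit 1) (nat_lit 0xc0040006000800be02)))) 
(.lf (nat_lit 19715578) (dlOf (nat_lit 2) (nat_lit 0x4e56e00272b68000800000a7e06003600189d9c01))))) 
(.nd (nat_lit 6) (.nd (nat_lit 28) (.nd (nat_lit 27) 
(.lf (nat_lit 4362912058) (dlOf (nat_lit 2) (nat_lit 0x5c0800002602000200181a0581))) 
(.lf (nat_lit 202162490) (dlOf (nat_lit 1) (nat_lit 0x38004000400081b0582)))) (.nd (nat_lit 8) 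
(.lf (nat_lit 470597690) (dlOf (nat_lit 1) (nat_lit 0x20028130b81))) 
(.lf (nat_lit 4228694330) (dlOf (nat_lit 2) (nat_lit 0x5c0720002502000200181a0581))))) 
(.nd (nat_lit 20) (.nd (nat_lit 27) 
(.lf (nat_lit 4362911866) (dlOf (nat_lit 1) (nat_lit 0x138004016c00081a0082))) 
(.lf (nat_lit 4228694138) (dlOf (nat_lit 1) (nat_lit 0x138004016c00081a0082)))) 
(.lf (nat_lit 471646330) (dlOf (nat_lit 21) (nat_lit 0x2404e80052c0800f058401e413a0014904005409d000a38100a20b08022853802c013a015c08e0009a0400190b080028274002640801402c2000414e003404e80250238002621000ac2c2000614e005e04e80130238002541001b42c2000a09d00260470004a0180368584012829c011609d00310470004982002f0584001813a007208e0008a83007e0b080400274025011c0011406010e161000804e804e8238002200c01f42c2004814e008204e804582380021a10008411c000ff020006161000780100990b0801b8538021c17a013809d00a20470003a42801d0584001c13a012808e0007383000f0b080148274001ca08001413a000e4020046161005c04e801e0238001c40c049800400f00008370482))))))))))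 
(.nd (nat_lit 3) (.nd (nat_lit 5) (.nd (nat_lit 6) (.nd (nat_lit 28) (.nd (nat_lit 19) 
(.nd (nat_lit 18) (.nd (nat_lit 10) (.nd (nat_lit 7) (.nd (nat_lit 21) 
(.lf (nat_lit 25280530) (dlOf (nat_lit 3) (nat_lit 0xa012601a4102002098600d1c818bf0880))) 
(.lf (nat_lit 10600466) (dlOf (nat_lit 1) (nat_lit 0x400200020008600102)))) 
(.lf (nat_lit 20042386) (dlOf (nat_lit 1) (nat_lit 0x80080004002000200089d8c83)))) (.nd (nat_lit 8) 
(.nd (nat_lit 11) (.lf (nat_lit 1275184146) (dlOf (nat_lit 1) (nat_lit 0x400400020008092882))) 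
(.lf (nat_lit 54643730) (dlOf (nat_lit 1) (nat_lit 0x1000400840019655f82)))) (.nd (nat_lit 7) 
(.lf (nat_lit 3221343506) (dlOf (nat_lit 1) (nat_lit 0x400400020008116702))) 
(.lf (nat_lit 2751580050) (dlOf (nat_lit 1) (nat_lit 0x20008004201)))))) (.nd (nat_lit 26) 
(.nd (nat_lit 20) (.nd (nat_lit 27) 
(.lf (nat_lit 537247762) (dlOf (nat_lit 3) (nat_lit 0x400a40165c0201f204b00000018070500))) 
(.lf (nat_lit 3355820050) (dlOf (nat_lit 2) (nat_lit 0x3000000000018120300)))) 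
(.lf (nat_lit 22396946) (dlOf (nat_lit 1) (nat_lit 0x8008000400200020008ad0303)))) 
(.nd (nat_lit 29) (.nd (nat_lit 30) 
(.lf (nat_lit 4362453010) (dlOf (nat_lit 3) (nat_lit 0xa40820022032000b016000038180240000000000400f0002001c0008080402))) 
(.lf (nat_lit 3288711186) (dlOf (nat_lit 2) (nat_lit 0x80400011802000200080c0a01)))) 
(.nd (nat_lit 10) 
(.lf (nat_lit 1678098450) (dlOf (nat_lit 5) (nat_lit 0x76015802cb80403680ac0165b0201d205600b2d01003200980000008002800805c800200ca0008180503))) 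
(.lf (nat_lit 2751841298) (dlOf (nat_lit 1) (nat_lit 0x400200020008002882))))))) (.nd (nat_lit 21) 
(.nd (nat_lit 26) (.nd (nat_lit 24) (.nd (nat_lit 29) 
(.lf (nat_lit 134856722) (dlOf (nat_lit 3) (nat_lit 0xa3810404c407a016003800d22830136020808700f4025007001a4306002400280d0881))) 
(.nd (nat_lit 30) (.lf (nat_lit 2819211282) (dlOf (nat_lit 1) (nat_lit 0x200281f0381))) 
(.lf (nat_lit 3892953106) (dlOf (nat_lit 2) (nat_lit 0x40300073d02001e00082a0a01))))) 
(.nd (nat_lit 7) (.lf (nat_lit 21610514) (dlOf (nat_lit 1) (nat_lit 0x400200020008a50282))) 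
(.lf (nat_lit 51235218) (dlOf (nat_lit 1) (nat_lit 0x1880080068002009c0009514e83))))) 
(.nd (nat_lit 29) (.nd (nat_lit 27) 
(.lf (nat_lit 4362715154) (dlOf (nat_lit 1) (nat_lit 0x200080e0a01))) 
(.lf (nat_lit 201965586) (dlOf (nat_lit 3) (nat_lit 0xa3810404c407a016003800ed5030136020808700f4025007001da806002400280d0881)))) 
(.nd (nat_lit 7) 
(.lf (nat_lit 1678360594) (dlOf (nat_lit 1) (nat_lit 0x280080010002000c00081f0a03))) 
(.lf (nat_lit 2753151122) (dlOf (nat_lit 1) (nat_lit 0x8000400460008090182)))))) (.nd (nat_lit 8) 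
(.nd (nat_lit 7) (.nd (nat_lit 20) 
(.lf (nat_lit 27901970) (dlOf (nat_lit 24) (nat_lit 0x23354400d5a9e0014d2a003a66400017c2000672880015aa20005e04015cd5100ad6a78053b320000ba0c01c1aa400b6cc90002c8200656a90019b324000b0080165aa4005ecc90002b8200196a9000bb324000aa0802c9bf8025ed5200a06a00092b32400612f4000540a004cd520006664800148100263548006d99200051040012d520002601001d6a90007b32400096080029b1c0086d52002e66480010818015b5480007e040039aa20060cc80001902000f6a880183320000620800f1aa2006acc8000180200046a88000bc08004b54400010040051aa20000702000ad510000281001d6a88000100800235440000404000800400080018d40202))) 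
(.lf (nat_lit 24756242) (dlOf (nat_lit 1) (nat_lit 0x160028bb0281)))) 
(.lf (nat_lit 7980690) (dlOf (nat_lit 1) (nat_lit 0x2800400060018513a82)))) (.nd (nat_lit 7) 
(.nd (nat_lit 12) (.lf (nat_lit 8242962) (dlOf (nat_lit 1) (nat_lit 0x8008002800200040008513c03))) 
(.lf (nat_lit 19781394) (dlOf (nat_lit 1) (nat_lit 0x4800289da001)))) 
(.lf (nat_lit 57264530) (dlOf (nat_lit 1) (nat_lit 0x8008000400200020009794e83))))))) 
(.nd (nat_lit 27) (.nd (nat_lit 31) (.nd (nat_lit 10) (.nd (nat_lit 18) 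
(.lf (nat_lit 805945362) (dlOf (nat_lit 1) (nat_lit 0x280080010002000c00081f0a03))) 
(.nd (nat_lit 26) 
(.lf (nat_lit 805683218) (dlOf (nat_lit 5) (nat_lit 0x760158029ea0403680ac014f40201d205600a7981003200980000008002800805c800200ca0008180503))) 
(.lf (nat_lit 1409662994) (dlOf (nat_lit 3) (nat_lit 0x400a4014f50201f204b00000018070500))))) 
(.nd (nat_lit 8) (.nd (nat_lit 9) 
(.lf (nat_lit 1346489362) (dlOf (nat_lit 2) (nat_lit 0x14a14f004c07a801101fc01840100002d0800140018f65f81))) 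
(.lf (nat_lit 6241240594) (dlOf (nat_lit 1) (nat_lit 0x580028053701)))) (.nd (nat_lit 7) 
(.lf (nat_lit 805424402) (dlOf (nat_lit 1) (nat_lit 0x400400020008116702))) 
(.lf (nat_lit 1345439122) (dlOf (nat_lit 2) (nat_lit 0x5d0b28006cc080008008007c00200400008bb3603)))))) 
(.nd (nat_lit 19) (.nd (nat_lit 9) 
(.lf (nat_lit 2416295954) (dlOf (nat_lit 3) (nat_lit 0x10c0100007007403b4c08006c03a01da402001600080d0881))) 
(.lf (nat_lit 3556887058) (dlOf (nat_lit 1) (nat_lit 0xc200280d5081)))) (.nd (nat_lit 7) 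
(.nd (nat_lit 20) (.lf (nat_lit 3492397074) (dlOf (nat_lit 1) (nat_lit 0xe00080c0a01))) 
(.lf (nat_lit 3491348498) (dlOf (nat_lit 1) (nat_lit 0x78008003400200200008090003)))) 
(.lf (nat_lit 3491348626) (dlOf (nat_lit 1) (nat_lit 0x8000400460008090182)))))) (.nd (nat_lit 29) 
(.nd (nat_lit 18) (.nd (nat_lit 7) (.nd (nat_lit 10) 
(.lf (nat_lit 472498194) (dlOf (nat_lit 2) (nat_lit 0x282f00006204000400200220008990402))) 
(.lf (nat_lit 469877778) (dlOf (nat_lit 1) (nat_lit 0x40028002881)))) (.nd (nat_lit 9) 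
(.lf (nat_lit 474072210) (dlOf (nat_lit 4) (nat_lit 0x1c2ce000a16600020ab80018558000c288000a0ce000306580010310000812c000c016000800a80022458005859c00242cc0014016000c00a80022020003859c00142cc000415700050670000832c000c18a00080c4000700b000380540010c24004800200020009082b82))) 
(.lf (nat_lit 5771479698) (dlOf (nat_lit 1) (nat_lit 0x400400020008005502))))) (.nd (nat_lit 26) 
(.nd (nat_lit 31) 
(.lf (nat_lit 4697997330) (dlOf (nat_lit 1) (nat_lit 0x80080004002000200080e0183))) 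
(.lf (nat_lit 2550513682) (dlOf (nat_lit 3) (nat_lit 0x10c010000700700348208006c03801a3f02001600080d0881)))) 
(.lf (nat_lit 2617622546) (dlOf (nat_lit 2) (nat_lit 0x5000000014080340008004800201120008100303))))) 
(.nd (nat_lit 10) (.nd (nat_lit 18) (.nd (nat_lit 21) 
(.lf (nat_lit 4228497426) (dlOf (nat_lit 1) (nat_lit 0x200080e0a01))) 
(.lf (nat_lit 1009369106) (dlOf (nat_lit 1) (nat_lit 0x2c00200120009130182)))) 
(.lf (nat_lit 4228235282) (dlOf (nat_lit 4) (nat_lit 0x400c4000200400040620000f02000803a001b0188000381000b0008001c00200020008080303)))) 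
(.nd (nat_lit 8) (.nd (nat_lit 9) 
(.lf (nat_lit 5234609170) (dlOf (nat_lit 2) (nat_lit 0x5c02a00000018055f80))) 
(.lf (nat_lit 6375720466) (dlOf (nat_lit 1) (nat_lit 0x1800400040018003702)))) 
(.lf (nat_lit 3087124242) (dlOf (nat_lit 1) (nat_lit 0x8008000400200020008143c03)))))))) 
(.nd (nat_lit 7) (.nd (nat_lit 26) (.nd (nat_lit 18) (.nd (nat_lit 19) (.nd (nat_lit 11) 
(.nd (nat_lit 21) 
(.lf (nat_lit 25280594) (dlOf (nat_lit 3) (nat_lit 0x200000001a01006b0000000cc080040008002800200080008bf0d83))) 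
(.lf (nat_lit 52543570) (dlOf (nat_lit 1) (nat_lit 0x200029550781)))) 
(.lf (nat_lit 939640914) (dlOf (nat_lit 1) (nat_lit 0x1400400020008144702)))) (.nd (nat_lit 27) 
(.lf (nat_lit 3221864530) (dlOf (nat_lit 2) (nat_lit 0x10220002002400440000000706000200081a1601))) 
(.lf (nat_lit 134856786) (dlOf (nat_lit 4) (nat_lit 0xed00f402e00700002904007004300d001f8000941001b010c000420400e0004001200080d0d82))))) 
(.nd (nat_lit 20) (.nd (nat_lit 8) (.nd (nat_lit 21) (.nd (nat_lit 22) 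
(.lf (nat_lit 1610989650) (dlOf (nat_lit 8) (nat_lit 0x3d40a601c204c010001a807e8084041403a011401800c1005000038380ba014c058c06a02ec021017e00e80cc00600001a14088c0a6042e0210000602018502980c180840001608076c0a601fe04c01e701a80eb0084077403a038001800e000500002838068014c022006a028e021015b00e80a20060000121404f00a6000c03501430108028800000000100038002003200080b0682))) 
(.lf (nat_lit 1346748498) (dlOf (nat_lit 1) (nat_lit 0x7000400320009000782)))) 
(.lf (nat_lit 1881522258) (dlOf (nat_lit 5) (nat_lit 0xce0718000880800c038c000120407c01c6003607b00002820223071800000081d90008027000200420008f40783)))) 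
(.nd (nat_lit 21) (.lf (nat_lit 21348690) (dlOf (nat_lit 1) (nat_lit 0x1400200020008a34d02))) 
(.lf (nat_lit 23445842) (dlOf (nat_lit 2) (nat_lit 0xd5ea000158080020008001c002000a0008b80683))))) 
(.nd (nat_lit 9) (.nd (nat_lit 22) 
(.lf (nat_lit 1425490) (dlOf (nat_lit 1) (nat_lit 0x16000080c1001))) 
(.lf (nat_lit 55951442) (dlOf (nat_lit 3) (nat_lit 0xa54d20001e020022c1300075fe00072ca80002e0c0074004001200096f0782)))) 
(.lf (nat_lit 8245842) (dlOf (nat_lit 1) (nat_lit 0xc0028518981)))))) (.nd (nat_lit 31) 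
(.nd (nat_lit 27) (.nd (nat_lit 8) 
(.lf (nat_lit 5435932754) (dlOf (nat_lit 1) (nat_lit 0x800008040501))) 
(.lf (nat_lit 604094802) (dlOf (nat_lit 1) (nat_lit 0xc80080074002001a0008010883)))) 
(.nd (nat_lit 18) (.nd (nat_lit 19) 
(.lf (nat_lit 5301715026) (dlOf (nat_lit 1) (nat_lit 0x800008040501))) 
(.lf (nat_lit 201965650) (dlOf (nat_lit 4) (nat_lit 0xed00f402e00700002904007004300d001f8000941001b010c000420400e0004001200080d0d82)))) 
(.lf (nat_lit 738574418) (dlOf (nat_lit 8) (nat_lit 0x3d40a601c204c010001a807e8084041403a011401800c1005000038380ba014c058c06a02ec021017e00e80cc00600001a14088c0a6042e0210000602018502980c180840001608076c0a601fe04c01e701a80eb0084077403a038001800e000500002838068014c022006a028e021015b00e80a20060000121404f00a6000c03501430108028800000000100038002003200080b0682))))) 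
(.nd (nat_lit 19) (.nd (nat_lit 8) 
(.lf (nat_lit 2754727506) (dlOf (nat_lit 1) (nat_lit 0x400400be00080f7182))) 
(.lf (nat_lit 3288449362) (dlOf (nat_lit 1) (nat_lit 0x4002000a0008014d02)))) (.nd (nat_lit 21) 
(.lf (nat_lit 3960062034) (dlOf (nat_lit 5) (nat_lit 0x8e04c000e022800200fc003004a0200009000170500ff0048000b008068810c0198080000c038000150300c501c0000a40801e000800cc002000200081a1903))) 
(.nd (nat_lit 28) 
(.lf (nat_lit 2754199634) (dlOf (nat_lit 6) (nat_lit 0xa88868000680403644340003202004421a0001881009c0e98000b80804e074c00058040044004004400180c1902))) 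
(.lf (nat_lit 4096376914) (dlOf (nat_lit 4) (nat_lit 0x600268000060201001340000281003509a000000080328008021400200080008100683)))))))) 
(.nd (nat_lit 11) (.nd (nat_lit 10) (.nd (nat_lit 27) (.nd (nat_lit 19) (.nd (nat_lit 20) 
(.lf (nat_lit 1881260242) (dlOf (nat_lit 1) (nat_lit 0x940008e80901))) 
(.lf (nat_lit 13746386) (dlOf (nat_lit 1) (nat_lit 0x400400020008750502)))) 
(.lf (nat_lit 1343865042) (dlOf (nat_lit 1) (nat_lit 0x1e0028370501)))) (.nd (nat_lit 18) 
(.lf (nat_lit 5772001490) (dlOf (nat_lit 1) (nat_lit 0x400400020008031b82))) (.nd (nat_lit 26) 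
(.lf (nat_lit 1208336594) (dlOf (nat_lit 1) (nat_lit 0xbc004000200180c1b82))) 
(.lf (nat_lit 4496670930) (dlOf (nat_lit 1) (nat_lit 0x60018111b81)))))) (.nd (nat_lit 8) 
(.nd (nat_lit 18) (.nd (nat_lit 20) 
(.lf (nat_lit 6308349138) (dlOf (nat_lit 1) (nat_lit 0x400400020008052d82))) 
(.lf (nat_lit 1345438930) (dlOf (nat_lit 1) (nat_lit 0x800400040018bb2d82)))) 
(.lf (nat_lit 5772788946) (dlOf (nat_lit 1) (nat_lit 0x40028092d81)))) (.nd (nat_lit 9) 
(.lf (nat_lit 4697736658) (dlOf (nat_lit 1) (nat_lit 0x40008093601))) 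
(.lf (nat_lit 3087124434) (dlOf (nat_lit 1) (nat_lit 0x8c0028144501)))))) (.nd (nat_lit 31) 
(.nd (nat_lit 8) (.nd (nat_lit 10) (.nd (nat_lit 26) 
(.lf (nat_lit 5905696978) (dlOf (nat_lit 1) (nat_lit 0x400400020008144a02))) 
(.lf (nat_lit 1677838546) (dlOf (nat_lit 1) (nat_lit 0x400400020008114a02)))) 
(.lf (nat_lit 1543621842) (dlOf (nat_lit 3) (nat_lit 0xc0140000301000600a000000080038008000800200080008146403)))) 
(.nd (nat_lit 9) (.lf (nat_lit 738314706) (dlOf (nat_lit 1) (nat_lit 0x40028094e81))) 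
(.lf (nat_lit 20564946) (dlOf (nat_lit 2) (nat_lit 0xd3480000500800080080004002000200089d5d83))))) 
(.nd (nat_lit 9) (.nd (nat_lit 10) (.nd (nat_lit 27) 
(.lf (nat_lit 2751580370) (dlOf (nat_lit 1) (nat_lit 0x400400020008004a02))) 
(.lf (nat_lit 3959539922) (dlOf (nat_lit 1) (nat_lit 0x400400020008114a02)))) 
(.lf (nat_lit 6509677778) (dlOf (nat_lit 1) (nat_lit 0x400400020008146402)))) (.nd (nat_lit 18) 
(.lf (nat_lit 6576787154) (dlOf (nat_lit 1) (nat_lit 0x400400020008147382))) 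
(.lf (nat_lit 2754989778) (dlOf (nat_lit 1) (nat_lit 0x200280f7381))))))))) (.nd (nat_lit 18) 
(.nd (nat_lit 29) (.nd (nat_lit 8) (.nd (nat_lit 20) (.nd (nat_lit 26) (.nd (nat_lit 23) 
(.nd (nat_lit 7) (.lf (nat_lit 134856754) (dlOf (nat_lit 1) (nat_lit 0x200180d0b81))) 
(.lf (nat_lit 3355558578) (dlOf (nat_lit 1) (nat_lit 0xec00180a1d81)))) (.nd (nat_lit 21) 
(.lf (nat_lit 29474866) (dlOf (nat_lit 1) (nat_lit 0xa0008000800200020008e10803))) 
(.lf (nat_lit 10600498) (dlOf (nat_lit 1) (nat_lit 0x1000800c400200020008600603))))) 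
(.nd (nat_lit 27) (.nd (nat_lit 28) 
(.lf (nat_lit 5435932722) (dlOf (nat_lit 2) (nat_lit 0x1800000000018040380))) 
(.lf (nat_lit 2483142706) (dlOf (nat_lit 2) (nat_lit 0x2402800090818030d00)))) (.nd (nat_lit 19) 
(.nd (nat_lit 30) (.lf (nat_lit 2348924978) (dlOf (nat_lit 2) (nat_lit 0x2402800090818030d00))) 
(.lf (nat_lit 3422666802) (dlOf (nat_lit 1) (nat_lit 0x3e000801b800201280008030703)))) 
(.lf (nat_lit 201965618) (dlOf (nat_lit 1) (nat_lit 0x200180d0b81)))))) (.nd (nat_lit 9) 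
(.nd (nat_lit 6) (.nd (nat_lit 23) 
(.lf (nat_lit 1163314) (dlOf (nat_lit 1) (nat_lit 0x400400020008080682))) 
(.lf (nat_lit 26329138) (dlOf (nat_lit 2) (nat_lit 0x18c000001bd0200160018c30481)))) 
(.lf (nat_lit 59883634) (dlOf (nat_lit 1) (nat_lit 0x400200020009840202)))) (.nd (nat_lit 7) 
(.lf (nat_lit 7980594) (dlOf (nat_lit 1) (nat_lit 0x20028513781))) 
(.lf (nat_lit 3492923058) (dlOf (nat_lit 1) (nat_lit 0x200280f3a81)))))) (.nd (nat_lit 6) 
(.nd (nat_lit 12) (.nd (nat_lit 19) 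
(.lf (nat_lit 61982130) (dlOf (nat_lit 1) (nat_lit 0x400400020009923602))) 
(.lf (nat_lit 53069234) (dlOf (nat_lit 1) (nat_lit 0x40008000400200060009573603)))) 
(.nd (nat_lit 7) (.lf (nat_lit 644914) (dlOf (nat_lit 1) (nat_lit 0x2001800a101))) 
(.lf (nat_lit 3221347762) (dlOf (nat_lit 1) (nat_lit 0x40040002001811cc82))))) (.nd (nat_lit 19) 
(.nd (nat_lit 10) (.lf (nat_lit 11649394) (dlOf (nat_lit 1) (nat_lit 0x200286c0781))) 
(.lf (nat_lit 3221347698) (dlOf (nat_lit 1) (nat_lit 0xa002811c901)))) (.nd (nat_lit 7) 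
(.nd (nat_lit 20) (.lf (nat_lit 5772001650) (dlOf (nat_lit 1) (nat_lit 0x20018035801))) 
(.lf (nat_lit 3491348850) (dlOf (nat_lit 2) (nat_lit 0x15e0fd001d1408008000800a0002000c0008090783)))) 
(.lf (nat_lit 38388722) (dlOf (nat_lit 1) (nat_lit 0x400200020009132882))))))) (.nd (nat_lit 31) 
(.nd (nat_lit 7) (.nd (nat_lit 11) (.nd (nat_lit 6) (.nd (nat_lit 10) 
(.lf (nat_lit 5301714994) (dlOf (nat_lit 2) (nat_lit 0x1800000000018040380))) 
(.lf (nat_lit 1610728498) (dlOf (nat_lit 1) (nat_lit 0x100018092881)))) 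
(.lf (nat_lit 6375981426) (dlOf (nat_lit 1) (nat_lit 0x20018035801)))) (.nd (nat_lit 9) 
(.lf (nat_lit 5905696818) (dlOf (nat_lit 1) (nat_lit 0x400400020008144702))) 
(.lf (nat_lit 6174132786) (dlOf (nat_lit 1) (nat_lit 0x1e0018055181))))) (.nd (nat_lit 6) 
(.nd (nat_lit 8) (.nd (nat_lit 10) 
(.lf (nat_lit 2013380786) (dlOf (nat_lit 2) (nat_lit 0x60000000b018031680))) 
(.lf (nat_lit 1812057266) (dlOf (nat_lit 1) (nat_lit 0x800400040018146282)))) 
(.lf (nat_lit 4899063218) (dlOf (nat_lit 1) (nat_lit 0x400200020008053602)))) (.nd (nat_lit 9) 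
(.nd (nat_lit 26) (.lf (nat_lit 671205618) (dlOf (nat_lit 1) (nat_lit 0x20028144b81))) 
(.lf (nat_lit 1677838578) (dlOf (nat_lit 1) (nat_lit 0x20028114b81)))) 
(.lf (nat_lit 5905696498) (dlOf (nat_lit 1) (nat_lit 0x8008000400200040008143b83)))))) 
(.nd (nat_lit 30) (.nd (nat_lit 8) (.nd (nat_lit 6) (.nd (nat_lit 19) 
(.lf (nat_lit 2684469298) (dlOf (nat_lit 1) (nat_lit 0x3e000801b800201280008030703))) 
(.lf (nat_lit 2754199602) (dlOf (nat_lit 7) (nat_lit 0x7c621c0001901043510e0000c008004089c0580446031c21c01650e7800f06ec0040210000a106003f07d0000b840063088c069043801ee207015f0e7805d86ec01b021000201060001687004a10e0000ac080bc887000052040034004000800080c0f82)))) 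
(.lf (nat_lit 2751579890) (dlOf (nat_lit 1) (nat_lit 0x400400020008003b82)))) (.nd (nat_lit 7) 
(.nd (nat_lit 9) 
(.lf (nat_lit 2755772722) (dlOf (nat_lit 2) (nat_lit 0x101a80004404008c002001200081b0502))) 
(.lf (nat_lit 2751579954) (dlOf (nat_lit 3) (nat_lit 0x100f20001c02001808500005818003d80)))) 
(.lf (nat_lit 2753151410) (dlOf (nat_lit 2) (nat_lit 0x71078033b008004000800cc00200020008090783))))) 
(.nd (nat_lit 26) (.nd (nat_lit 6) (.nd (nat_lit 10) 
(.lf (nat_lit 3892953138) (dlOf (nat_lit 1) (nat_lit 0x200182a0c01))) 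
(.lf (nat_lit 3892429874) (dlOf (nat_lit 1) (nat_lit 0x7c0028102881)))) 
(.lf (nat_lit 4026647026) (dlOf (nat_lit 1) (nat_lit 0x40028017d81)))) (.nd (nat_lit 6) 
(.nd (nat_lit 7) 
(.lf (nat_lit 3960062002) (dlOf (nat_lit 7) (nat_lit 0x2ca000000138100a001d805000000004c0804d0000000240200460000001181013500000008808007803800000040014002000c00081a0f82))) 
(.lf (nat_lit 3825323186) (dlOf (nat_lit 1) (nat_lit 0x8008000400200020008146283)))) 
(.lf (nat_lit 3825322354) (dlOf (nat_lit 1) (nat_lit 0x8008000400200020008144e83)))))))) 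
(.nd (nat_lit 21) (.nd (nat_lit 27) (.nd (nat_lit 28) (.nd (nat_lit 6) (.nd (nat_lit 29) 
(.nd (nat_lit 9) (.lf (nat_lit 1425458) (dlOf (nat_lit 1) (nat_lit 0x38008000c002001000080c0d03))) 
(.lf (nat_lit 42322482) (dlOf (nat_lit 2) (nat_lit 0x2895a0008b0200260009245181)))) 
(.nd (nat_lit 26) 
(.lf (nat_lit 1610989618) (dlOf (nat_lit 2) (nat_lit 0x9029801500d400b0042005a01d002500c00091c2801100080020002011a00080b0483))) 
(.lf (nat_lit 1678098482) (dlOf (nat_lit 4) (nat_lit 0x18405600050098000d41000100b400580580001404000c05400340030000441019900080bdc00201080008180983))))) 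
(.nd (nat_lit 7) 
(.lf (nat_lit 4295344242) (dlOf (nat_lit 1) (nat_lit 0x80080004002000200081a0083))) 
(.lf (nat_lit 43893746) (dlOf (nat_lit 1) (nat_lit 0x4004000200092a2882))))) (.nd (nat_lit 29) 
(.nd (nat_lit 10) (.lf (nat_lit 3557670962) (dlOf (nat_lit 1) (nat_lit 0x158002001600082a0802))) 
(.lf (nat_lit 6711264306) (dlOf (nat_lit 1) (nat_lit 0x4400180e2881)))) (.nd (nat_lit 6) 
(.nd (nat_lit 30) 
(.lf (nat_lit 805683250) (dlOf (nat_lit 4) (nat_lit 0x64098008804a000700900080018000261000440ac007005300640190174004c009c014000110a0014056006e005000040100d40008040400201c80008180983))) 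
(.lf (nat_lit 4026908722) (dlOf (nat_lit 8) (nat_lit 0x273007e14ac02704f5010855b0078255003615c6012058b004851300000006c2007d804e00035020c9c03f0a6e01385638078196c036008a0170b3300901f60024282c0000003410002e027000198104240130241807805dc03609fe012046d008800d80240d6c0000002e0e029803b0443013007c8060005802e08e8011000168500010138101807809cc0240010000000158480c0f80)))) 
(.lf (nat_lit 5100650610) (dlOf (nat_lit 1) (nat_lit 0x20028110d81)))))) (.nd (nat_lit 26) 
(.nd (nat_lit 6) (.nd (nat_lit 19) 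
(.lf (nat_lit 3355820082) (dlOf (nat_lit 1) (nat_lit 0xc00400020008120e02))) 
(.lf (nat_lit 2819473458) (dlOf (nat_lit 1) (nat_lit 0x158002001600082a0802)))) (.nd (nat_lit 7) 
(.lf (nat_lit 4429561970) (dlOf (nat_lit 1) (nat_lit 0x80080004002000200081a0083))) 
(.lf (nat_lit 5772788722) (dlOf (nat_lit 1) (nat_lit 0x20028092881))))) (.nd (nat_lit 29) 
(.nd (nat_lit 7) 
(.lf (nat_lit 2617622578) (dlOf (nat_lit 1) (nat_lit 0x1300080068002008c0008100e03))) 
(.lf (nat_lit 4496670898) (dlOf (nat_lit 1) (nat_lit 0x60028111681)))) (.nd (nat_lit 8) 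
(.lf (nat_lit 738574386) (dlOf (nat_lit 2) (nat_lit 0x9029801500d400b0042005a01d002500c00091c2801100080020002011a00080b0483))) 
(.lf (nat_lit 2886059826) (dlOf (nat_lit 4) (nat_lit 0x98070001802a00040000000d03000600000002c0800600000001404014400200220008143d82))))))) 
(.nd (nat_lit 20) (.nd (nat_lit 8) (.nd (nat_lit 19) (.nd (nat_lit 9) 
(.lf (nat_lit 2753937458) (dlOf (nat_lit 1) (nat_lit 0xc00180a0a01))) 
(.lf (nat_lit 23446066) (dlOf (nat_lit 1) (nat_lit 0x180008b80f01)))) (.nd (nat_lit 6) 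
(.lf (nat_lit 36555314) (dlOf (nat_lit 1) (nat_lit 0x40019075181))) 
(.lf (nat_lit 3492660978) (dlOf (nat_lit 1) (nat_lit 0x80080004002000200080f3b83))))) 
(.nd (nat_lit 6) (.nd (nat_lit 7) 
(.lf (nat_lit 23970098) (dlOf (nat_lit 1) (nat_lit 0x28008001400200020008b80503))) 
(.lf (nat_lit 2754464178) (dlOf (nat_lit 1) (nat_lit 0x200180f4e81)))) (.nd (nat_lit 7) 
(.lf (nat_lit 2754464114) (dlOf (nat_lit 1) (nat_lit 0x200080f4e81))) 
(.lf (nat_lit 23446002) (dlOf (nat_lit 2) (nat_lit 0x8848c0017a04000c00400060008b80d82)))))) 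
(.nd (nat_lit 6) (.nd (nat_lit 9) (.nd (nat_lit 7) (.nd (nat_lit 19) 
(.lf (nat_lit 7716914) (dlOf (nat_lit 1) (nat_lit 0x1c00184d0c01))) 
(.lf (nat_lit 16629810) (dlOf (nat_lit 3) (nat_lit 0x1b49580040000000a808002c0000004502008400188c0801)))) 
(.lf (nat_lit 8245682) (dlOf (nat_lit 1) (nat_lit 0x140008518501)))) (.nd (nat_lit 26) 
(.lf (nat_lit 3493708338) (dlOf (nat_lit 2) (nat_lit 0x2c0d0000e01e0000a0281b0f00))) 
(.lf (nat_lit 2755510834) (dlOf (nat_lit 2) (nat_lit 0x2c0d0000e01e000098281b0f00))))) 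
(.nd (nat_lit 8) (.nd (nat_lit 7) 
(.lf (nat_lit 3522674) (dlOf (nat_lit 2) (nat_lit 0xab3430008c0080040008001400200060008200083))) 
(.lf (nat_lit 28688626) (dlOf (nat_lit 1) (nat_lit 0x400200020008da0602)))) (.nd (nat_lit 22) 
(.lf (nat_lit 2755510770) (dlOf (nat_lit 2) (nat_lit 0x1d80000017a040030002000400081b0d82))) 
(.lf (nat_lit 8241650) (dlOf (nat_lit 1) (nat_lit 0x8008000400200020008511403)))))))))) 
(.nd (nat_lit 5) (.nd (nat_lit 18) (.nd (nat_lit 6) (.nd (nat_lit 19) (.nd (nat_lit 10) 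
(.nd (nat_lit 11) (.nd (nat_lit 7) (.nd (nat_lit 20) 
(.lf (nat_lit 25280538) (dlOf (nat_lit 1) (nat_lit 0x170008000c00200220008bf0883))) 
(.lf (nat_lit 24231962) (dlOf (nat_lit 1) (nat_lit 0x400200020008b90902)))) (.nd (nat_lit 8) 
(.lf (nat_lit 3260570) (dlOf (nat_lit 1) (nat_lit 0x20018200181))) 
(.lf (nat_lit 4697735578) (dlOf (nat_lit 2) (nat_lit 0x2a0178005940801280080064002001c0008091003))))) 
(.nd (nat_lit 24) (.nd (nat_lit 31) 
(.lf (nat_lit 1409403290) (dlOf (nat_lit 2) (nat_lit 0x7817c02b5604000400400020018004e82))) 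
(.lf (nat_lit 3556886938) (dlOf (nat_lit 1) (nat_lit 0x400080d4e81)))) (.nd (nat_lit 7) 
(.lf (nat_lit 20040474) (dlOf (nat_lit 1) (nat_lit 0x4002000200089d5c02))) 
(.lf (nat_lit 58837402) (dlOf (nat_lit 1) (nat_lit 0x4002000200097e4e82)))))) (.nd (nat_lit 9) 
(.nd (nat_lit 26) (.lf (nat_lit 5100389786) (dlOf (nat_lit 1) (nat_lit 0x40018053601))) 
(.lf (nat_lit 4899063194) (dlOf (nat_lit 1) (nat_lit 0x400200020008053602)))) (.nd (nat_lit 26) 
(.lf (nat_lit 116634) (dlOf (nat_lit 1) (nat_lit 0x20028004281))) (.nd (nat_lit 27) 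
(.lf (nat_lit 5972805530) (dlOf (nat_lit 1) (nat_lit 0x20028144281))) 
(.lf (nat_lit 469878682) (dlOf (nat_lit 1) (nat_lit 0xe0028004281))))))) (.nd (nat_lit 21) 
(.nd (nat_lit 20) (.nd (nat_lit 22) (.nd (nat_lit 26) (.nd (nat_lit 29) 
(.lf (nat_lit 134856730) (dlOf (nat_lit 1) (nat_lit 0x60004001a00080d0882))) 
(.lf (nat_lit 3892953114) (dlOf (nat_lit 1) (nat_lit 0x200082a0a01)))) 
(.lf (nat_lit 201965594) (dlOf (nat_lit 1) (nat_lit 0x60004001a00080d0882)))) 
(.lf (nat_lit 21610522) (dlOf (nat_lit 5) (nat_lit 0x16000000180100016f50000b808000b3c40004c0400a3b44000200200020008a50501)))) 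
(.nd (nat_lit 7) (.nd (nat_lit 22) 
(.lf (nat_lit 1343864858) (dlOf (nat_lit 1) (nat_lit 0x260028370001))) 
(.lf (nat_lit 31047706) (dlOf (nat_lit 1) (nat_lit 0x400200020008e60b82)))) 
(.lf (nat_lit 1008321690) (dlOf (nat_lit 1) (nat_lit 0x400200020008b52b82))))) (.nd (nat_lit 9) 
(.nd (nat_lit 22) (.nd (nat_lit 26) 
(.lf (nat_lit 3493445658) (dlOf (nat_lit 4) (nat_lit 0x3011000040540012024000f010000a807c0006214015405400380240000d02000b015800600a800500480038020000800c000044280010008005000200140008140b03))) 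
(.lf (nat_lit 2755248154) (dlOf (nat_lit 4) (nat_lit 0x3011000040540012024000f010000a807c0006214015405400380240000c82000b015800600a800500480038020000800c000044280010008005000200140008140b03)))) 
(.lf (nat_lit 24756250) (dlOf (nat_lit 12) (nat_lit 0x132f24000975c0004004004eaae0001381001e5570000980800baab8000480406f955c0018a6d00354bb00008c1800aaab800044040119836002ec170011600001d2f2000dd75a0022b35000258d8016ac24011955c008aa7e013f5368023297c011546a009499900374c98000807806029b40003e04000d4da0001e020042bc80000901004d5e40022aeb400016080078004003e0008bb0502)))) 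
(.nd (nat_lit 7) (.nd (nat_lit 8) 
(.lf (nat_lit 7980570) (dlOf (nat_lit 1) (nat_lit 0x600008513701))) 
(.lf (nat_lit 20564762) (dlOf (nat_lit 1) (nat_lit 0x4002000200089d5c02)))) 
(.lf (nat_lit 7980954) (dlOf (nat_lit 1) (nat_lit 0x20028514281))))))) (.nd (nat_lit 9) 
(.nd (nat_lit 8) (.nd (nat_lit 7) (.nd (nat_lit 10) 
(.lf (nat_lit 12697690) (dlOf (nat_lit 4) (nat_lit 0x1a26b0000981000300000004408002522800100000001004000200186d1181))) 
(.lf (nat_lit 34194522) (dlOf (nat_lit 1) (nat_lit 0x60028fb2901)))) (.nd (nat_lit 10) 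
(.nd (nat_lit 19) 
(.lf (nat_lit 4563517658) (dlOf (nat_lit 1) (nat_lit 0x28008002c00200280008090a03))) 
(.lf (nat_lit 14270682) (dlOf (nat_lit 2) (nat_lit 0x10dde000250200020028750581)))) 
(.lf (nat_lit 805428442) (dlOf (nat_lit 1) (nat_lit 0x4002811c401))))) (.nd (nat_lit 11) 
(.nd (nat_lit 7) (.nd (nat_lit 26) 
(.lf (nat_lit 4026646874) (dlOf (nat_lit 1) (nat_lit 0x100028014e01))) 
(.lf (nat_lit 3288449370) (dlOf (nat_lit 1) (nat_lit 0x1400400020008014e82)))) 
(.lf (nat_lit 1946272218) (dlOf (nat_lit 1) (nat_lit 0x40028017101)))) (.nd (nat_lit 10) 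
(.nd (nat_lit 27) (.lf (nat_lit 2751580506) (dlOf (nat_lit 1) (nat_lit 0xc00400060008004e02))) 
(.lf (nat_lit 3959540058) (dlOf (nat_lit 1) (nat_lit 0x400400020008114e02)))) 
(.lf (nat_lit 642394) (dlOf (nat_lit 1) (nat_lit 0x100008006a81)))))) (.nd (nat_lit 10) 
(.nd (nat_lit 7) (.nd (nat_lit 8) 
(.lf (nat_lit 58837594) (dlOf (nat_lit 1) (nat_lit 0xc00297e5301))) 
(.lf (nat_lit 59886426) (dlOf (nat_lit 1) (nat_lit 0x20019845c01)))) (.nd (nat_lit 8) 
(.lf (nat_lit 7979738) (dlOf (nat_lit 1) (nat_lit 0x5c00401a20008512102))) 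
(.lf (nat_lit 2751579098) (dlOf (nat_lit 1) (nat_lit 0x400200020008002882))))) (.nd (nat_lit 11) 
(.nd (nat_lit 20) (.nd (nat_lit 26) 
(.lf (nat_lit 5100389978) (dlOf (nat_lit 1) (nat_lit 0xa0028053901))) 
(.lf (nat_lit 4899063386) (dlOf (nat_lit 1) (nat_lit 0x400400020008053902)))) 
(.lf (nat_lit 1345439322) (dlOf (nat_lit 2) (nat_lit 0x520b28000cc080190008001800200700008bb3903)))) 
(.nd (nat_lit 7) (.lf (nat_lit 6509678170) (dlOf (nat_lit 1) (nat_lit 0x400400020008147182))) 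
(.lf (nat_lit 6576787162) (dlOf (nat_lit 1) (nat_lit 0x60018147381)))))))) (.nd (nat_lit 28) 
(.nd (nat_lit 21) (.nd (nat_lit 26) (.nd (nat_lit 6) (.nd (nat_lit 22) (.nd (nat_lit 24) 
(.lf (nat_lit 1610989594) (dlOf (nat_lit 2) (nat_lit 0x2980a000c0045006402200ac00c8026c038009a017004c00b000280180005e2000f0004005c00080b0102))) 
(.lf (nat_lit 17154074) (dlOf (nat_lit 1) (nat_lit 0x4002000200088e0002)))) 
(.lf (nat_lit 12959770) (dlOf (nat_lit 2) (nat_lit 0x200d46c0a9e914010e000000120386f0400)))) 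
(.nd (nat_lit 7) (.lf (nat_lit 8767066) (dlOf (nat_lit 1) (nat_lit 0xe0018513901))) 
(.lf (nat_lit 8771034) (dlOf (nat_lit 1) (nat_lit 0x20018519b01))))) (.nd (nat_lit 27) 
(.nd (nat_lit 29) (.nd (nat_lit 30) 
(.lf (nat_lit 4362453018) (dlOf (nat_lit 2) (nat_lit 0x640198000000800d0008002c002002c0008080503))) 
(.lf (nat_lit 3288711194) (dlOf (nat_lit 3) (nat_lit 0x60048002c0220103e0400160110081a0180c0a80)))) 
(.lf (nat_lit 1678098458) (dlOf (nat_lit 2) (nat_lit 0x40000007f818180580)))) (.nd (nat_lit 6) 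
(.lf (nat_lit 738574362) (dlOf (nat_lit 2) (nat_lit 0x2980a000c0045006402200ac00c8026c038009a017004c00b000280180005e2000f0004005c00080b0102))) 
(.lf (nat_lit 4496670938) (dlOf (nat_lit 1) (nat_lit 0x100018111c01)))))) (.nd (nat_lit 6) 
(.nd (nat_lit 8) (.nd (nat_lit 20) (.nd (nat_lit 22) 
(.lf (nat_lit 44417050) (dlOf (nat_lit 1) (nat_lit 0x40029310181))) 
(.lf (nat_lit 15056922) (dlOf (nat_lit 1) (nat_lit 0x200087b0501)))) 
(.lf (nat_lit 3522586) (dlOf (nat_lit 7) (nat_lit 0xa341000499ac00349d2000e4d800ed004000b341000399ac00349d201d9e06000466b00ebd01000f341000199ac00449d200124d800ea1840002341000119ac002c9d201d3f0600126820006335800693a4000000c002000400180018200002)))) 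
(.nd (nat_lit 7) (.lf (nat_lit 20302618) (dlOf (nat_lit 1) (nat_lit 0x200189d5c01))) 
(.lf (nat_lit 8245658) (dlOf (nat_lit 1) (nat_lit 0xc0028518381))))) (.nd (nat_lit 7) 
(.nd (nat_lit 8) 
(.lf (nat_lit 45468250) (dlOf (nat_lit 2) (nat_lit 0x14a98e00a44c600470000000500c002000400020009325302))) 
(.nd (nat_lit 9) 
(.lf (nat_lit 11911514) (dlOf (nat_lit 2) (nat_lit 0x426a2801e54980002a0286c0680))) 
(.lf (nat_lit 8243034) (dlOf (nat_lit 1) (nat_lit 0x1800400040018513f82))))) (.nd (nat_lit 8) 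
(.lf (nat_lit 8243418) (dlOf (nat_lit 1) (nat_lit 0x400400040008514a82))) 
(.lf (nat_lit 52806106) (dlOf (nat_lit 1) (nat_lit 0x400200020009571202))))))) (.nd (nat_lit 29) 
(.nd (nat_lit 30) (.nd (nat_lit 26) (.nd (nat_lit 27) 
(.lf (nat_lit 2416295962) (dlOf (nat_lit 2) (nat_lit 0xc020000000180d0880))) 
(.lf (nat_lit 2550513690) (dlOf (nat_lit 2) (nat_lit 0xc020000000180d0880)))) (.nd (nat_lit 20) 
(.lf (nat_lit 474333210) (dlOf (nat_lit 1) (nat_lit 0x80009150181))) 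
(.lf (nat_lit 471187482) (dlOf (nat_lit 1) (nat_lit 0x800182b0501))))) (.nd (nat_lit 21) 
(.nd (nat_lit 6) 
(.lf (nat_lit 1346748442) (dlOf (nat_lit 2) (nat_lit 0x138258007410a003a075001d039800128200040008000800200260009000103))) 
(.lf (nat_lit 1346748506) (dlOf (nat_lit 1) (nat_lit 0x8008000c00200080009000883)))) 
(.nd (nat_lit 7) 
(.lf (nat_lit 3492135002) (dlOf (nat_lit 3) (nat_lit 0x1e08a000140100140450000980800580080044002003000080a1183))) 
(.lf (nat_lit 3492660186) (dlOf (nat_lit 1) (nat_lit 0x4002000200080f2882)))))) (.nd (nat_lit 31) 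
(.nd (nat_lit 21) (.nd (nat_lit 8) 
(.lf (nat_lit 805683226) (dlOf (nat_lit 2) (nat_lit 0x40000008b018180580))) 
(.lf (nat_lit 6376767770) (dlOf (nat_lit 1) (nat_lit 0x400400020018090a82)))) (.nd (nat_lit 6) 
(.lf (nat_lit 1881522202) (dlOf (nat_lit 2) (nat_lit 0x10758000180800a800800a8002004a0008f40103))) 
(.lf (nat_lit 1881522266) (dlOf (nat_lit 2) (nat_lit 0xf838c0003804002800400240008f40882))))) 
(.nd (nat_lit 26) (.nd (nat_lit 6) 
(.lf (nat_lit 4026908698) (dlOf (nat_lit 3) (nat_lit 0x60048002c022010c10400160110085b8180c0a80))) 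
(.lf (nat_lit 4026908762) (dlOf (nat_lit 2) (nat_lit 0x680260002602000200280c1a81)))) 
(.nd (nat_lit 27) 
(.lf (nat_lit 3020275738) (dlOf (nat_lit 1) (nat_lit 0x10008000c002000200081f0583))) 
(.lf (nat_lit 4228235290) (dlOf (nat_lit 2) (nat_lit 0x640190000000800d0008002c002002c0008080503))))))))) 
(.nd (nat_lit 28) (.nd (nat_lit 6) (.nd (nat_lit 18) (.nd (nat_lit 10) (.nd (nat_lit 20) 
(.nd (nat_lit 27) (.nd (nat_lit 19) (.nd (nat_lit 7) 
(.lf (nat_lit 2751584826) (dlOf (nat_lit 1) (nat_lit 0x40040004001800b402))) 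
(.lf (nat_lit 1610727610) (dlOf (nat_lit 2) (nat_lit 0x500fc0000004000800400020018090702)))) 
(.nd (nat_lit 21) (.nd (nat_lit 22) 
(.lf (nat_lit 25804858) (dlOf (nat_lit 1) (nat_lit 0x80028c10001))) 
(.lf (nat_lit 21610554) (dlOf (nat_lit 1) (nat_lit 0x18008005c00200280008a51683)))) 
(.lf (nat_lit 6930490) (dlOf (nat_lit 2) (nat_lit 0x80000002e0200140018490901))))) 
(.nd (nat_lit 26) (.nd (nat_lit 29) 
(.lf (nat_lit 134856762) (dlOf (nat_lit 1) (nat_lit 0x200180d0b81))) 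
(.lf (nat_lit 3892953146) (dlOf (nat_lit 3) (nat_lit 0x301c0004802c00050080038090001c042000c017800300b0003000e000000a000200282a0c81)))) 
(.nd (nat_lit 19) (.lf (nat_lit 2348924986) (dlOf (nat_lit 1) (nat_lit 0x400400020008030d02))) 
(.lf (nat_lit 201965626) (dlOf (nat_lit 1) (nat_lit 0x200180d0b81)))))) (.nd (nat_lit 19) 
(.nd (nat_lit 8) 
(.lf (nat_lit 2752626746) (dlOf (nat_lit 3) (nat_lit 0x8d0eb0001480808a887c00c83ac0004b0400020018020681))) 
(.lf (nat_lit 20040506) (dlOf (nat_lit 1) (nat_lit 0x4002000200089d5c02)))) (.nd (nat_lit 22) 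
(.nd (nat_lit 21) (.lf (nat_lit 10076218) (dlOf (nat_lit 2) (nat_lit 0x101af000258185b0680))) 
(.lf (nat_lit 3784762) (dlOf (nat_lit 1) (nat_lit 0x180018220b81)))) (.nd (nat_lit 7) 
(.lf (nat_lit 5881914) (dlOf (nat_lit 2) (nat_lit 0x80000002e0200140018400901))) 
(.lf (nat_lit 14270650) (dlOf (nat_lit 1) (nat_lit 0xc0008008c00200380008750383))))))) 
(.nd (nat_lit 7) (.nd (nat_lit 8) (.nd (nat_lit 11) 
(.lf (nat_lit 1610728506) (dlOf (nat_lit 1) (nat_lit 0x160018092881))) 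
(.lf (nat_lit 1812057146) (dlOf (nat_lit 1) (nat_lit 0x20018146081)))) (.nd (nat_lit 11) 
(.lf (nat_lit 116026) (dlOf (nat_lit 1) (nat_lit 0x400400020008003282))) (.nd (nat_lit 27) 
(.lf (nat_lit 6509677882) (dlOf (nat_lit 1) (nat_lit 0x2680028146901))) 
(.lf (nat_lit 1812057402) (dlOf (nat_lit 1) (nat_lit 0x1c00400060008146902)))))) (.nd (nat_lit 11) 
(.nd (nat_lit 9) (.nd (nat_lit 22) 
(.lf (nat_lit 35767482) (dlOf (nat_lit 1) (nat_lit 0x20019012c81))) 
(.lf (nat_lit 48350394) (dlOf (nat_lit 1) (nat_lit 0x5000800a000200380009402c83)))) 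
(.lf (nat_lit 116410) (dlOf (nat_lit 1) (nat_lit 0x20008003a81)))) (.nd (nat_lit 26) 
(.lf (nat_lit 6576786618) (dlOf (nat_lit 1) (nat_lit 0x400400020008146302))) 
(.lf (nat_lit 1812057274) (dlOf (nat_lit 1) (nat_lit 0x20018146301))))))) (.nd (nat_lit 20) 
(.nd (nat_lit 8) (.nd (nat_lit 19) (.nd (nat_lit 22) 
(.lf (nat_lit 6442827834) (dlOf (nat_lit 1) (nat_lit 0x4004000200081d0b82))) 
(.lf (nat_lit 2756034618) (dlOf (nat_lit 1) (nat_lit 0x200281d0b81)))) 
(.lf (nat_lit 13484090) (dlOf (nat_lit 1) (nat_lit 0x2e0028730b81)))) (.nd (nat_lit 9) 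
(.nd (nat_lit 27) (.lf (nat_lit 4295344442) (dlOf (nat_lit 1) (nat_lit 0x800281a0581))) 
(.lf (nat_lit 4429562170) (dlOf (nat_lit 1) (nat_lit 0x800281a0581)))) 
(.lf (nat_lit 382778) (dlOf (nat_lit 1) (nat_lit 0x12001800a101))))) (.nd (nat_lit 19) 
(.nd (nat_lit 8) (.nd (nat_lit 7) (.nd (nat_lit 22) 
(.lf (nat_lit 1425466) (dlOf (nat_lit 2) (nat_lit 0x20580001c1c6001c071000b0328005682000d00080008002001400080c0d03))) 
(.lf (nat_lit 30785594) (dlOf (nat_lit 2) (nat_lit 0x1591a00000018e50c80)))) 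
(.lf (nat_lit 11911354) (dlOf (nat_lit 1) (nat_lit 0x4002001000086c0382)))) (.nd (nat_lit 10) 
(.lf (nat_lit 3522874) (dlOf (nat_lit 2) (nat_lit 0xe341000b19ac0004c08000400400020018200582))) 
(.lf (nat_lit 20303162) (dlOf (nat_lit 1) (nat_lit 0x184002007600089d6902))))) (.nd (nat_lit 7) 
(.nd (nat_lit 9) 
(.lf (nat_lit 16629818) (dlOf (nat_lit 4) (nat_lit 0x300000001401000600000007c08002800000000040008002005800088c0902))) 
(.lf (nat_lit 1950266) (dlOf (nat_lit 1) (nat_lit 0x400200020008151002)))) 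
(.lf (nat_lit 8242874) (dlOf (nat_lit 1) (nat_lit 0x40028513a81))))))) (.nd (nat_lit 8) 
(.nd (nat_lit 9) (.nd (nat_lit 24) (.nd (nat_lit 10) (.nd (nat_lit 26) 
(.lf (nat_lit 5503041658) (dlOf (nat_lit 1) (nat_lit 0xc0018030b81))) 
(.lf (nat_lit 6107021434) (dlOf (nat_lit 1) (nat_lit 0x400200020008030b82)))) 
(.lf (nat_lit 115834) (dlOf (nat_lit 1) (nat_lit 0x20028002a81)))) (.nd (nat_lit 12) 
(.lf (nat_lit 50970746) (dlOf (nat_lit 1) (nat_lit 0x6a4004005600194e2b02))) 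
(.lf (nat_lit 20041850) (dlOf (nat_lit 1) (nat_lit 0x400189d7d81))))) (.nd (nat_lit 10) 
(.nd (nat_lit 19) (.lf (nat_lit 4831955578) (dlOf (nat_lit 1) (nat_lit 0x20028055401))) 
(.lf (nat_lit 46779002) (dlOf (nat_lit 2) (nat_lit 0x4cbf700023019385400)))) (.nd (nat_lit 7) 
(.lf (nat_lit 8504954) (dlOf (nat_lit 1) (nat_lit 0x20028513981))) 
(.lf (nat_lit 8767226) (dlOf (nat_lit 1) (nat_lit 0x60018513b81)))))) (.nd (nat_lit 7) 
(.nd (nat_lit 9) (.nd (nat_lit 11) 
(.lf (nat_lit 4496671098) (dlOf (nat_lit 1) (nat_lit 0xb40008115981))) (.nd (nat_lit 27) 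
(.lf (nat_lit 2751584634) (dlOf (nat_lit 1) (nat_lit 0x40040002000800ae82))) 
(.lf (nat_lit 3959544186) (dlOf (nat_lit 1) (nat_lit 0x800800040020002000811ae83))))) 
(.nd (nat_lit 27) (.nd (nat_lit 30) 
(.lf (nat_lit 2751580026) (dlOf (nat_lit 1) (nat_lit 0x20008000400200020008004103))) 
(.lf (nat_lit 1677838202) (dlOf (nat_lit 1) (nat_lit 0x80008114101)))) 
(.lf (nat_lit 3959539578) (dlOf (nat_lit 1) (nat_lit 0x800400040008114102))))) (.nd (nat_lit 12) 
(.nd (nat_lit 9) (.lf (nat_lit 12435962) (dlOf (nat_lit 1) (nat_lit 0x1600086c0d81))) 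
(.lf (nat_lit 38126586) (dlOf (nat_lit 1) (nat_lit 0x400200400009132882)))) (.nd (nat_lit 10) 
(.nd (nat_lit 11) (.lf (nat_lit 8507898) (dlOf (nat_lit 1) (nat_lit 0x400400020018518682))) 
(.lf (nat_lit 3959544314) (dlOf (nat_lit 1) (nat_lit 0x380040012001811b282)))) 
(.lf (nat_lit 20567546) (dlOf (nat_lit 3) (nat_lit 0x10000029f8080098000014da0400ec002002a00089d9c02)))))))) 
(.nd (nat_lit 6) (.nd (nat_lit 18) (.nd (nat_lit 27) (.nd (nat_lit 8) (.nd (nat_lit 20) 
(.nd (nat_lit 26) 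
(.lf (nat_lit 2416033850) (dlOf (nat_lit 2) (nat_lit 0x2e0120008808400180380004b0600260028020681))) 
(.lf (nat_lit 2483142714) (dlOf (nat_lit 1) (nat_lit 0x400400020008030d02)))) 
(.lf (nat_lit 3490824250) (dlOf (nat_lit 3) (nat_lit 0x8d0e20001480808a882800c83880004b0400020018020681)))) 
(.nd (nat_lit 19) (.lf (nat_lit 1342295354) (dlOf (nat_lit 1) (nat_lit 0xa0028006901))) 
(.lf (nat_lit 3490303290) (dlOf (nat_lit 1) (nat_lit 0x20028006901))))) (.nd (nat_lit 10) 
(.nd (nat_lit 7) 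
(.lf (nat_lit 2550251578) (dlOf (nat_lit 2) (nat_lit 0x2e01300088084001803a0004b0600260028020681))) 
(.nd (nat_lit 30) 
(.lf (nat_lit 4697735354) (dlOf (nat_lit 1) (nat_lit 0x40008002c002002a0008090703))) 
(.lf (nat_lit 1476509882) (dlOf (nat_lit 2) (nat_lit 0x40000000dc0801e0008002800200240008010383))))) 
(.nd (nat_lit 9) 
(.lf (nat_lit 474072250) (dlOf (nat_lit 3) (nat_lit 0x302d0000616600070ac00030558003028a00120cf000204b0001820c000c0e60012017000600a8000d85800505a000182b0000214b00090a28004833c001802e000000c00440029082c81))) 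
(.lf (nat_lit 3087124154) (dlOf (nat_lit 1) (nat_lit 0xea0018143a81)))))) (.nd (nat_lit 31) 
(.nd (nat_lit 7) (.nd (nat_lit 22) 
(.lf (nat_lit 5838848058) (dlOf (nat_lit 1) (nat_lit 0x4004000200081d0b82))) 
(.lf (nat_lit 1346748474) (dlOf (nat_lit 1) (nat_lit 0x1800400220009000582)))) (.nd (nat_lit 8) 
(.lf (nat_lit 2080751802) (dlOf (nat_lit 1) (nat_lit 0x200180c1701))) (.nd (nat_lit 19) 
(.lf (nat_lit 1009109434) (dlOf (nat_lit 1) (nat_lit 0xc00200120009084e82))) 
(.lf (nat_lit 1881000378) (dlOf (nat_lit 1) (nat_lit 0x3c0018dd4e81)))))) (.nd (nat_lit 21) 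
(.nd (nat_lit 30) (.nd (nat_lit 27) 
(.lf (nat_lit 2416295994) (dlOf (nat_lit 2) (nat_lit 0x400400000002001e00080d0b81))) 
(.lf (nat_lit 2550513722) (dlOf (nat_lit 2) (nat_lit 0x400400000002001e00080d0b81)))) 
(.nd (nat_lit 8) (.lf (nat_lit 3494232122) (dlOf (nat_lit 1) (nat_lit 0x200281d0b81))) 
(.lf (nat_lit 3490041146) (dlOf (nat_lit 1) (nat_lit 0x20028006901))))) (.nd (nat_lit 10) 
(.nd (nat_lit 11) 
(.lf (nat_lit 3492134970) (dlOf (nat_lit 2) (nat_lit 0x40460000b00800580080018002001000080a0b83))) 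
(.lf (nat_lit 3492665402) (dlOf (nat_lit 2) (nat_lit 0x18114015de040040004001000180fa602)))) 
(.lf (nat_lit 3493184570) (dlOf (nat_lit 1) (nat_lit 0x20008000c002002200080f2883))))))) 
(.nd (nat_lit 9) (.nd (nat_lit 10) (.nd (nat_lit 19) (.nd (nat_lit 21) 
(.lf (nat_lit 4563517562) (dlOf (nat_lit 1) (nat_lit 0x20008002000200200008090283))) 
(.lf (nat_lit 1344389242) (dlOf (nat_lit 2) (nat_lit 0x20f700078018740480)))) (.nd (nat_lit 7) 
(.lf (nat_lit 5772001402) (dlOf (nat_lit 3) (nat_lit 0x6000000208100090170000e0080090008003c002000e0008030c83))) 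
(.lf (nat_lit 5774098682) (dlOf (nat_lit 1) (nat_lit 0x280080010002000e00080f2903))))) 
(.nd (nat_lit 7) (.nd (nat_lit 8) 
(.lf (nat_lit 6377555066) (dlOf (nat_lit 2) (nat_lit 0x4028000a012800098100248008004c002001400080e2a83))) 
(.lf (nat_lit 4697736570) (dlOf (nat_lit 1) (nat_lit 0x20028093581)))) (.nd (nat_lit 11) 
(.lf (nat_lit 5100389882) (dlOf (nat_lit 1) (nat_lit 0x80018053681))) 
(.lf (nat_lit 805424634) (dlOf (nat_lit 1) (nat_lit 0x540008089400203cc0008116f83)))))) 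
(.nd (nat_lit 11) (.nd (nat_lit 7) (.nd (nat_lit 18) 
(.lf (nat_lit 1345439354) (dlOf (nat_lit 1) (nat_lit 0x400080010002002c0008bb3983))) 
(.lf (nat_lit 6375720570) (dlOf (nat_lit 1) (nat_lit 0x400200020008003982)))) 
(.lf (nat_lit 3492660218) (dlOf (nat_lit 1) (nat_lit 0x4002000200080f2882)))) (.nd (nat_lit 8) 
(.nd (nat_lit 22) (.lf (nat_lit 5637261946) (dlOf (nat_lit 1) (nat_lit 0x20008055401))) 
(.lf (nat_lit 1346488954) (dlOf (nat_lit 3) (nat_lit 0x540f90002701000c0b60001180801b000800c8002001e0008f65403)))) 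
(.lf (nat_lit 4563520378) (dlOf (nat_lit 1) (nat_lit 0x34002000e0008095c02)))))))))))

end

end Pool.Agent.Lib.MP_5854e1_co.Cz

namespace Pool.Agent.Lib.MP_5854e1_co.Cz

noncomputable section

noncomputable def tz211 : DT := (.nd (nat_lit 5) (.nd (nat_lit 16) (.nd (nat_lit 18) 
(.nd (nat_lit 3) (.nd (nat_lit 19) (.nd (nat_lit 28) (.nd (nat_lit 23) (.nd (nat_lit 6) 
(.nd (nat_lit 10) (.nd (nat_lit 9) (.nd (nat_lit 22) 
(.lf (nat_lit 2752692242) (dlOf (nat_lit 1) (nat_lit 0x20008030881))) 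
(.lf (nat_lit 22200338) (dlOf (nat_lit 1) (nat_lit 0x400400220008aa0a02)))) 
(.lf (nat_lit 2277906) (dlOf (nat_lit 2) (nat_lit 0x9b8580000004008800200040008150d82)))) 
(.nd (nat_lit 7) (.lf (nat_lit 38978578) (dlOf (nat_lit 1) (nat_lit 0x400200020009192882))) 
(.nd (nat_lit 9) (.lf (nat_lit 3221413266) (dlOf (nat_lit 2) (nat_lit 0x560450001e81811c980))) 
(.lf (nat_lit 5905762194) (dlOf (nat_lit 1) (nat_lit 0x20028144201)))))) (.nd (nat_lit 7) 
(.nd (nat_lit 8) (.nd (nat_lit 11) 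
(.lf (nat_lit 2752692306) (dlOf (nat_lit 1) (nat_lit 0x40008031001))) 
(.lf (nat_lit 5905762386) (dlOf (nat_lit 1) (nat_lit 0x20008144701)))) 
(.lf (nat_lit 4362256722) (dlOf (nat_lit 1) (nat_lit 0x20018014d81)))) (.nd (nat_lit 8) 
(.lf (nat_lit 1677904082) (dlOf (nat_lit 1) (nat_lit 0x5a0018114a01))) 
(.lf (nat_lit 3221408210) (dlOf (nat_lit 2) (nat_lit 0x701f005cf808012800801e4002000c0008114e83)))))) 
(.nd (nat_lit 6) (.nd (nat_lit 20) (.nd (nat_lit 21) (.nd (nat_lit 22) 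
(.lf (nat_lit 25346066) (dlOf (nat_lit 6) (nat_lit 0x310246017a12100de06e806f035c02c4126010c03900e700e0076805c029802a019600000d208a00b00918054848402f01ba00080d70097049805200e40088038017001700ba0000068fc4807a048c02c007201a0a040150123004101c80677010032848c033b404000400400320018bf0882))) 
(.lf (nat_lit 12763154) (dlOf (nat_lit 1) (nat_lit 0x600286e0581)))) 
(.lf (nat_lit 10666002) (dlOf (nat_lit 1) (nat_lit 0xc00400040018610302)))) (.nd (nat_lit 22) 
(.lf (nat_lit 43171858) (dlOf (nat_lit 3) (nat_lit 0xfa95c01bc30200514ae00de10192a0000))) 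
(.nd (nat_lit 24) (.lf (nat_lit 13811730) (dlOf (nat_lit 1) (nat_lit 0x820018750001))) 
(.lf (nat_lit 30588946) (dlOf (nat_lit 1) (nat_lit 0x20018e40781)))))) (.nd (nat_lit 21) 
(.nd (nat_lit 7) 
(.lf (nat_lit 25346130) (dlOf (nat_lit 6) (nat_lit 0x682460004039001e0000000d018036000000066040058246000e0390001902001600000007c0800980000003c04023000200120008bf0d82))) 
(.lf (nat_lit 8574418) (dlOf (nat_lit 2) (nat_lit 0x748000021018519b00)))) (.nd (nat_lit 20) 
(.lf (nat_lit 14860370) (dlOf (nat_lit 1) (nat_lit 0x30000200b00008790782))) 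
(.lf (nat_lit 28491858) (dlOf (nat_lit 1) (nat_lit 0x20028da0281))))))) (.nd (nat_lit 10) 
(.nd (nat_lit 20) (.nd (nat_lit 6) (.nd (nat_lit 9) 
(.lf (nat_lit 6308413458) (dlOf (nat_lit 1) (nat_lit 0x400400020008080002))) 
(.lf (nat_lit 3494035986) (dlOf (nat_lit 1) (nat_lit 0x200181b0d81)))) (.nd (nat_lit 7) 
(.lf (nat_lit 4160929874) (dlOf (nat_lit 1) (nat_lit 0x4004000200080a0002))) 
(.lf (nat_lit 4228039122) (dlOf (nat_lit 1) (nat_lit 0x4a0018017101))))) (.nd (nat_lit 26) 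
(.nd (nat_lit 6) (.nd (nat_lit 31) 
(.lf (nat_lit 1343406098) (dlOf (nat_lit 1) (nat_lit 0x800400020008220202))) 
(.lf (nat_lit 3490889746) (dlOf (nat_lit 1) (nat_lit 0x20008030881)))) 
(.lf (nat_lit 3490889810) (dlOf (nat_lit 1) (nat_lit 0x40008031001)))) (.nd (nat_lit 7) 
(.lf (nat_lit 470990866) (dlOf (nat_lit 1) (nat_lit 0x400200020008230202))) 
(.lf (nat_lit 4094872466) (dlOf (nat_lit 1) (nat_lit 0xa0008004c00200180008055c83)))))) 
(.nd (nat_lit 7) (.nd (nat_lit 8) (.nd (nat_lit 6) (.nd (nat_lit 20) 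
(.lf (nat_lit 5771545618) (dlOf (nat_lit 1) (nat_lit 0x400200020008005f82))) 
(.lf (nat_lit 473091090) (dlOf (nat_lit 13) (nat_lit 0x228584001c29c013209d000130300840b0801f053803c413a005408e000128400600b0801b8538035413a005c08e000120400080a700008c080018274000380400c413a0001b02002a09d0000c0100100b2801b02740002e08006c13a0001502010016100420a70084827400bc11c0001408008e09d0000801002304e80003c080120008004800200020008c95f83)))) 
(.lf (nat_lit 2013447762) (dlOf (nat_lit 1) (nat_lit 0x400200020008093882)))) (.nd (nat_lit 9) 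
(.lf (nat_lit 805489938) (dlOf (nat_lit 1) (nat_lit 0x220018116701))) 
(.lf (nat_lit 3020085010) (dlOf (nat_lit 11) (nat_lit 0x600300026301000601e8012f00800380ac0097404002c048004b002000c024002538100040120012900800600e0000c04e000e0260024f8300020170007809c0093c080024070001e02e0011013800280980092a10000404e00493020034002812a001))))) 
(.nd (nat_lit 6) (.nd (nat_lit 20) 
(.lf (nat_lit 2013447314) (dlOf (nat_lit 1) (nat_lit 0x400400020008092b82))) 
(.lf (nat_lit 5772592274) (dlOf (nat_lit 1) (nat_lit 0x20018092b81)))) (.nd (nat_lit 8) 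
(.nd (nat_lit 27) (.lf (nat_lit 872596690) (dlOf (nat_lit 1) (nat_lit 0x1e0028092d81))) 
(.lf (nat_lit 2080556242) (dlOf (nat_lit 1) (nat_lit 0x400200020008092d82)))) 
(.lf (nat_lit 3020084690) (dlOf (nat_lit 3) (nat_lit 0x101e80001c0800080c80000004001000400160008129b02)))))))) 
(.nd (nat_lit 6) (.nd (nat_lit 20) (.nd (nat_lit 23) (.nd (nat_lit 26) (.nd (nat_lit 9) 
(.nd (nat_lit 28) 
(.lf (nat_lit 134922258) (dlOf (nat_lit 4) (nat_lit 0x8403b0002301002301d8001140803880ec00070040014002004e00080e0182))) 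
(.lf (nat_lit 5772066834) (dlOf (nat_lit 8) (nat_lit 0x60140035b80801f00a001ab404008004a00d5902000e025006ac0100220140000809800a404a0010023000d011000f8080007803000d520e0066028004a013001b809400e40460086022001f0100019806001aa21c0088050008c0260031012801b808c00940440048020003f00c00353c380148008000400200240008060a03)))) 
(.lf (nat_lit 707090) (dlOf (nat_lit 1) (nat_lit 0x8008000400200020008005083)))) (.nd (nat_lit 27) 
(.nd (nat_lit 31) (.lf (nat_lit 1409990674) (dlOf (nat_lit 1) (nat_lit 0x200280c0a01))) 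
(.lf (nat_lit 3557474322) (dlOf (nat_lit 2) (nat_lit 0x40460002b818220380)))) (.nd (nat_lit 28) 
(.lf (nat_lit 202031122) (dlOf (nat_lit 4) (nat_lit 0x8403b0002301002301d8001140803880ec00070040014002004e00080e0182))) 
(.lf (nat_lit 6376046610) (dlOf (nat_lit 8) (nat_lit 0x220140000809800a404a0010023000d011000f80800078030007d70e0066028004a013001b809400e40460086022001f0100019806000fac1c0088050008c0260031012801b808c00940440048020003f00c001f503800300a000f8a0400f8050007b1020040025003d8010007012801ebc080148008000400200240008060a03)))))) 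
(.nd (nat_lit 25) (.nd (nat_lit 21) 
(.lf (nat_lit 13287442) (dlOf (nat_lit 1) (nat_lit 0x80080114002003c0008710a03))) 
(.lf (nat_lit 11190290) (dlOf (nat_lit 1) (nat_lit 0x2e0028670181)))) (.nd (nat_lit 24) 
(.lf (nat_lit 42647570) (dlOf (nat_lit 1) (nat_lit 0x20019260081))) 
(.lf (nat_lit 59424786) (dlOf (nat_lit 2) (nat_lit 0x133a08000bc08002000801e8002000c00097f0403)))))) 
(.nd (nat_lit 21) (.nd (nat_lit 7) (.nd (nat_lit 23) 
(.lf (nat_lit 1753106) (dlOf (nat_lit 1) (nat_lit 0x8008000400200020008130503))) 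
(.lf (nat_lit 10141714) (dlOf (nat_lit 1) (nat_lit 0x200285b0481)))) (.nd (nat_lit 8) 
(.lf (nat_lit 6377095314) (dlOf (nat_lit 1) (nat_lit 0x700080004002001000080a2803))) 
(.lf (nat_lit 43697554) (dlOf (nat_lit 1) (nat_lit 0x80080004002000200092a3603))))) 
(.nd (nat_lit 10) (.nd (nat_lit 22) 
(.lf (nat_lit 3850258) (dlOf (nat_lit 1) (nat_lit 0x5c002001c0008240882))) 
(.lf (nat_lit 16433170) (dlOf (nat_lit 27) (nat_lit 0x7d2aa00368e700253eb00311f5000e4f8a006c7b000173d4801c9d7000ece9a0072738002f399000d9cc000e47ba0005f1a007c7d400693d8000b9ce0000bc0c0290fac01d47d4006e3d480539cc8000ba10022d2b0008e95700ae475001e23a401dcfae00b275f01183998001643807f23a80334fae00c475f016c3998001602006da3a800d51d201207d700603af807b1ccc000ae1402412b001328ea00663eb801b9eb001acebe02347330002a8601664ac00dfa3a80604fae025c7ac01703af811f9ccc000a81802452b000988ea00093eb801b9eb00160ebe0138733000290600924ac005923a801fcfae00747ac006c3af808e9ccc000a21802512b001488ea00783eb801a9eb00184ebe02267330002606009e4ac0055a3a80204fae00847ac007f3af80a59ccc000961802f92b002328ea00db3eb80229eb00240ebe0328733000228600024ac00010008015256000311d4001a7d700a33998000fc20028255c0148fac00867ab00633990000cc2002c255c014cfac00807ab005a3990000c820030a55c0144fac00787ab00513990000c420011a55c00251d2002e7d600143d580111cc800060140180fac0002f02007c7d6000170100013eb000048080119f580001804011cfac005a732000030200263eb000010080301f5800004040004004004a00188a0202))))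 
(.nd (nat_lit 7) (.lf (nat_lit 20630546) (dlOf (nat_lit 2) (nat_lit 0x88960000000189d5f80))) 
(.lf (nat_lit 8046482) (dlOf (nat_lit 1) (nat_lit 0x20028514201))))))) (.nd (nat_lit 21) 
(.nd (nat_lit 26) (.nd (nat_lit 7) (.nd (nat_lit 22) 
(.lf (nat_lit 537575506) (dlOf (nat_lit 4) (nat_lit 0xfe02e8055016803b40ae021e05200f601980028088000681801fc0ba0100057008b029004280cc0004044000320a00c605d005f02b8000814800d0066002e022004600f80230000000621c008c004000a00080c1902))) 
(.lf (nat_lit 4898898) (dlOf (nat_lit 1) (nat_lit 0x4004000200082d0782)))) 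
(.lf (nat_lit 43697362) (dlOf (nat_lit 1) (nat_lit 0x900080050002002400092a2d83)))) 
(.nd (nat_lit 27) (.nd (nat_lit 28) 
(.lf (nat_lit 4362780754) (dlOf (nat_lit 3) (nat_lit 0x120470000981000f0228000000800a80080090002000800080f1903))) 
(.lf (nat_lit 1409990738) (dlOf (nat_lit 1) (nat_lit 0x24002000c00080c1602)))) 
(.lf (nat_lit 4228563026) (dlOf (nat_lit 2) (nat_lit 0x200400000c0180f1600))))) (.nd (nat_lit 7) 
(.nd (nat_lit 26) (.nd (nat_lit 31) 
(.lf (nat_lit 1344979026) (dlOf (nat_lit 2) (nat_lit 0x306e800080d000058080008004000200189a0782))) 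
(.lf (nat_lit 3492462674) (dlOf (nat_lit 2) (nat_lit 0x603b200041d1000148280d0d80)))) 
(.lf (nat_lit 2754265170) (dlOf (nat_lit 2) (nat_lit 0x603dc00041e6000148280d0d80)))) 
(.nd (nat_lit 8) (.nd (nat_lit 9) 
(.lf (nat_lit 8046802) (dlOf (nat_lit 1) (nat_lit 0x400400020008514a02))) 
(.lf (nat_lit 57330386) (dlOf (nat_lit 1) (nat_lit 0x400400020019795882)))) (.nd (nat_lit 10) 
(.lf (nat_lit 8045010) (dlOf (nat_lit 1) (nat_lit 0x8008000400200040008511183))) 
(.lf (nat_lit 8046034) (dlOf (nat_lit 1) (nat_lit 0x400200020008513602))))))))) (.nd (nat_lit 29) 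
(.nd (nat_lit 19) (.nd (nat_lit 9) (.nd (nat_lit 20) (.nd (nat_lit 6) (.nd (nat_lit 21) 
(.nd (nat_lit 22) (.nd (nat_lit 23) 
(.lf (nat_lit 1476575258) (dlOf (nat_lit 1) (nat_lit 0x1e0018060501))) 
(.lf (nat_lit 25346074) (dlOf (nat_lit 1) (nat_lit 0x20028bf0881)))) 
(.lf (nat_lit 12763162) (dlOf (nat_lit 1) (nat_lit 0xb400086e0a01)))) (.nd (nat_lit 7) 
(.lf (nat_lit 2277658) (dlOf (nat_lit 4) (nat_lit 0x4b3b800364040035c2c0002cee000b802000b70b0005b8080140008011c00200060008150483))) 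
(.lf (nat_lit 35832986) (dlOf (nat_lit 1) (nat_lit 0x40019012b81))))) (.nd (nat_lit 11) 
(.lf (nat_lit 184410) (dlOf (nat_lit 1) (nat_lit 0x8008004000200020008007d83))) 
(.lf (nat_lit 186458) (dlOf (nat_lit 4) (nat_lit 0x3b05c00154fc0012a6d0010a03000a5368008200800229f800114da0020004001c001800a781))))) 
(.nd (nat_lit 22) (.nd (nat_lit 8) 
(.lf (nat_lit 26394650) (dlOf (nat_lit 1) (nat_lit 0x20028c40501))) 
(.lf (nat_lit 20103450) (dlOf (nat_lit 1) (nat_lit 0x200189d0a81)))) (.nd (nat_lit 24) 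
(.lf (nat_lit 5423130) (dlOf (nat_lit 1) (nat_lit 0x11c00200460008370482))) 
(.lf (nat_lit 22200346) (dlOf (nat_lit 2) (nat_lit 0x50d0f0001b018aa0b00)))))) (.nd (nat_lit 8) 
(.nd (nat_lit 6) (.nd (nat_lit 10) 
(.lf (nat_lit 134398490) (dlOf (nat_lit 1) (nat_lit 0xe400200440008017f02))) 
(.lf (nat_lit 183834) (dlOf (nat_lit 1) (nat_lit 0x1c0018007101)))) 
(.lf (nat_lit 8573658) (dlOf (nat_lit 1) (nat_lit 0x300080004002000c0008518c83)))) 
(.nd (nat_lit 10) (.nd (nat_lit 11) 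
(.lf (nat_lit 2617430810) (dlOf (nat_lit 1) (nat_lit 0x600280a8f81))) 
(.lf (nat_lit 20106010) (dlOf (nat_lit 1) (nat_lit 0x200189d5c01)))) 
(.lf (nat_lit 184090) (dlOf (nat_lit 1) (nat_lit 0x20028007481)))))) (.nd (nat_lit 7) 
(.nd (nat_lit 20) (.nd (nat_lit 21) (.nd (nat_lit 26) 
(.lf (nat_lit 134922266) (dlOf (nat_lit 1) (nat_lit 0x400180e0481))) 
(.lf (nat_lit 202031130) (dlOf (nat_lit 1) (nat_lit 0x400180e0481)))) (.nd (nat_lit 22) 
(.lf (nat_lit 19578906) (dlOf (nat_lit 1) (nat_lit 0x480080008002000a00089c0483))) 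
(.lf (nat_lit 6995994) (dlOf (nat_lit 2) (nat_lit 0xdc0000002c02000200184a0501))))) 
(.nd (nat_lit 12) (.nd (nat_lit 22) 
(.lf (nat_lit 5773115418) (dlOf (nat_lit 1) (nat_lit 0xe00280a0581))) 
(.lf (nat_lit 5947418) (dlOf (nat_lit 2) (nat_lit 0xdc0000002c0200020018410501)))) (.nd (nat_lit 6) 
(.lf (nat_lit 8049178) (dlOf (nat_lit 1) (nat_lit 0xe0008518781))) 
(.lf (nat_lit 8048986) (dlOf (nat_lit 1) (nat_lit 0x140008006800200120008518383)))))) 
(.nd (nat_lit 6) (.nd (nat_lit 11) 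
(.lf (nat_lit 8044954) (dlOf (nat_lit 1) (nat_lit 0x20008511001))) 
(.lf (nat_lit 37407130) (dlOf (nat_lit 1) (nat_lit 0x2800090d4e81)))) (.nd (nat_lit 9) 
(.nd (nat_lit 10) (.lf (nat_lit 8049114) (dlOf (nat_lit 1) (nat_lit 0x60028518681))) 
(.lf (nat_lit 8046042) (dlOf (nat_lit 1) (nat_lit 0x8008000400200020008513603)))) (.nd (nat_lit 8) 
(.lf (nat_lit 8049370) (dlOf (nat_lit 1) (nat_lit 0x8008000400200020008518c83))) 
(.lf (nat_lit 69911514) (dlOf (nat_lit 1) (nat_lit 0x120018e12881)))))))) (.nd (nat_lit 6) 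
(.nd (nat_lit 27) (.nd (nat_lit 10) (.nd (nat_lit 8) (.nd (nat_lit 22) 
(.lf (nat_lit 5167562778) (dlOf (nat_lit 1) (nat_lit 0x4002003600080c0182))) 
(.lf (nat_lit 2755837978) (dlOf (nat_lit 1) (nat_lit 0xc004000200081b0002)))) 
(.lf (nat_lit 3758283034) (dlOf (nat_lit 1) (nat_lit 0xc001812ab01)))) (.nd (nat_lit 9) 
(.lf (nat_lit 2751644698) (dlOf (nat_lit 2) (nat_lit 0x1613d00948018002880))) 
(.lf (nat_lit 1610794522) (dlOf (nat_lit 2) (nat_lit 0x1a00a80007804010c004001c0008093702))))) 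
(.nd (nat_lit 7) (.nd (nat_lit 8) (.nd (nat_lit 10) 
(.lf (nat_lit 3154821146) (dlOf (nat_lit 2) (nat_lit 0x800c8000000800a0008001800200180008340b83))) 
(.lf (nat_lit 738380826) (dlOf (nat_lit 5) (nat_lit 0x501b8000d008011016800040ae00020170001783000502d0007015c005c00a0002d06002605a000a02b801080140003e0c003c00403c60018096002)))) 
(.lf (nat_lit 738380570) (dlOf (nat_lit 1) (nat_lit 0x900080014002001a0008095c03)))) 
(.nd (nat_lit 8) 
(.lf (nat_lit 6377095322) (dlOf (nat_lit 1) (nat_lit 0x80080004002000200080a2b83))) 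
(.lf (nat_lit 738380698) (dlOf (nat_lit 1) (nat_lit 0x180028095c81)))))) (.nd (nat_lit 7) 
(.nd (nat_lit 8) (.nd (nat_lit 9) 
(.lf (nat_lit 537575514) (dlOf (nat_lit 1) (nat_lit 0x1500080028002005800080c1a83))) 
(.nd (nat_lit 27) 
(.lf (nat_lit 1610794586) (dlOf (nat_lit 1) (nat_lit 0x1800800c000200860008093903))) 
(.lf (nat_lit 2013447770) (dlOf (nat_lit 2) (nat_lit 0x101300011c0800480080010002000a0008093903))))) 
(.nd (nat_lit 11) (.lf (nat_lit 939704666) (dlOf (nat_lit 1) (nat_lit 0x400400020008154e02))) 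
(.lf (nat_lit 3959609690) (dlOf (nat_lit 1) (nat_lit 0xe6001811ab81))))) (.nd (nat_lit 8) 
(.nd (nat_lit 9) (.lf (nat_lit 4160935130) (dlOf (nat_lit 1) (nat_lit 0x4004000200080a9502))) 
(.lf (nat_lit 3020083930) (dlOf (nat_lit 1) (nat_lit 0xc004000a0008128c82)))) (.nd (nat_lit 26) 
(.lf (nat_lit 1610793946) (dlOf (nat_lit 2) (nat_lit 0x8015c0309604005000400f20008092882))) 
(.lf (nat_lit 5301781466) (dlOf (nat_lit 2) (nat_lit 0x2d0088024b00803d000800b0002005e0008092883))))))))) 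
(.nd (nat_lit 21) (.nd (nat_lit 30) (.nd (nat_lit 6) (.nd (nat_lit 26) (.nd (nat_lit 3) 
(.nd (nat_lit 10) (.nd (nat_lit 7) (.nd (nat_lit 19) 
(.lf (nat_lit 9879570) (dlOf (nat_lit 1) (nat_lit 0x3400400040018590182))) 
(.lf (nat_lit 17743890) (dlOf (nat_lit 1) (nat_lit 0x4002000200088f0782)))) 
(.lf (nat_lit 134660242) (dlOf (nat_lit 1) (nat_lit 0x8008000400200020008090183)))) 
(.nd (nat_lit 8) (.lf (nat_lit 60214290) (dlOf (nat_lit 1) (nat_lit 0x40029845f81))) 
(.lf (nat_lit 8836370) (dlOf (nat_lit 2) (nat_lit 0xa9caf004c6ce80222594000f20c000c00400020008519682))))) 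
(.nd (nat_lit 7) (.nd (nat_lit 20) 
(.lf (nat_lit 2819014682) (dlOf (nat_lit 1) (nat_lit 0xa8008001c002000c0008150103))) 
(.lf (nat_lit 9879578) (dlOf (nat_lit 2) (nat_lit 0x114ac000320200100018590401)))) (.nd (nat_lit 8) 
(.lf (nat_lit 2015386) (dlOf (nat_lit 1) (nat_lit 0x20018150181))) 
(.lf (nat_lit 8832410) (dlOf (nat_lit 1) (nat_lit 0x20018513601)))))) (.nd (nat_lit 27) 
(.nd (nat_lit 11) (.nd (nat_lit 7) 
(.lf (nat_lit 2752954386) (dlOf (nat_lit 1) (nat_lit 0x20028070501))) 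
(.lf (nat_lit 4362518674) (dlOf (nat_lit 1) (nat_lit 0x20018090181)))) (.nd (nat_lit 3) 
(.lf (nat_lit 604425234) (dlOf (nat_lit 20) (nat_lit 0x10600c000278100600060001340800200e80338018001e00900030000001302005d0030000960401ac07400c2034003e0150001201803000e801180680004704008803d003501a005b00a80244040000450800ca03d008301d004880d002dc05400b20200002205005b01e804580e80270068016e02a005101000010c2801000f4008406800ce00c00300000001002004180f40100074016603400770100000f02005100f4022807400cc0340049015003780800370018008800900310000000ec4000900300007004018c01800280000001b02002901e801280e800ac06800ec00c005c0000000d42804180300020000000340400b203d007a01d004800d0012004000033080002020000168100770060000000800b0008005800200040008205f83))) 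
(.lf (nat_lit 604424986) (dlOf (nat_lit 2) (nat_lit 0x390060008b40800500080038002009e0008205c03))))) 
(.nd (nat_lit 7) (.nd (nat_lit 28) 
(.lf (nat_lit 2886123538) (dlOf (nat_lit 2) (nat_lit 0x2405200b0f0200040018160481))) 
(.lf (nat_lit 3154558994) (dlOf (nat_lit 1) (nat_lit 0x40018230201)))) 
(.lf (nat_lit 201769106) (dlOf (nat_lit 1) (nat_lit 0x8008000400200020008090183)))))) 
(.nd (nat_lit 3) (.nd (nat_lit 29) (.nd (nat_lit 23) (.nd (nat_lit 9) (.nd (nat_lit 20) 
(.lf (nat_lit 33996882) (dlOf (nat_lit 2) (nat_lit 0x117f40002804000400200020008f90782))) 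
(.lf (nat_lit 35045458) (dlOf (nat_lit 1) (nat_lit 0x20018fd0781)))) 
(.lf (nat_lit 474401362) (dlOf (nat_lit 1) (nat_lit 0x340019165281)))) (.nd (nat_lit 19) 
(.lf (nat_lit 26656850) (dlOf (nat_lit 1) (nat_lit 0x120018c50781))) (.nd (nat_lit 22) 
(.lf (nat_lit 59686994) (dlOf (nat_lit 1) (nat_lit 0x400200020009820782))) 
(.lf (nat_lit 13549650) (dlOf (nat_lit 3) (nat_lit 0x50000000340200fa00000019818730d80)))))) 
(.nd (nat_lit 31) (.nd (nat_lit 8) 
(.lf (nat_lit 537313362) (dlOf (nat_lit 1) (nat_lit 0xc0028090001))) 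
(.lf (nat_lit 805749074) (dlOf (nat_lit 2) (nat_lit 0x130070000900800c80080060002003600081a0683)))) 
(.nd (nat_lit 7) (.lf (nat_lit 2819014738) (dlOf (nat_lit 1) (nat_lit 0x20028150781))) 
(.lf (nat_lit 2751908050) (dlOf (nat_lit 1) (nat_lit 0x4a0018004a01)))))) (.nd (nat_lit 7) 
(.nd (nat_lit 9) (.lf (nat_lit 2886123610) (dlOf (nat_lit 1) (nat_lit 0x400400020008160a82))) 
(.lf (nat_lit 38718042) (dlOf (nat_lit 1) (nat_lit 0x10800400080019135302)))) (.nd (nat_lit 8) 
(.nd (nat_lit 19) (.lf (nat_lit 14074074) (dlOf (nat_lit 1) (nat_lit 0x60028750581))) 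
(.lf (nat_lit 68075738) (dlOf (nat_lit 1) (nat_lit 0x7800083e0581)))) 
(.lf (nat_lit 447962) (dlOf (nat_lit 1) (nat_lit 0x18008001000200020008009b03))))))) 
(.nd (nat_lit 29) (.nd (nat_lit 31) (.nd (nat_lit 3) (.nd (nat_lit 6) (.nd (nat_lit 7) 
(.lf (nat_lit 1074184210) (dlOf (nat_lit 1) (nat_lit 0x14002000200080d0882))) 
(.lf (nat_lit 1476838802) (dlOf (nat_lit 5) (nat_lit 0x300680023c0200060200011981003401e801800e8009c068005602a003201000118030006c01200240000011788000b0060008b4080138008002c002003e0008203603)))) 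
(.nd (nat_lit 7) (.lf (nat_lit 1409728594) (dlOf (nat_lit 1) (nat_lit 0xc0028090001))) 
(.lf (nat_lit 1476838610) (dlOf (nat_lit 7) (nat_lit 0xc07800460360002502000f01b00010c0800a80e40064046000410400e601c0001f81003901f807800700007a080060078000a039000501b0002008c0007610011c00400060008202d82))))) 
(.nd (nat_lit 7) (.nd (nat_lit 19) 
(.lf (nat_lit 5637586970) (dlOf (nat_lit 1) (nat_lit 0x128008003000200100008110403))) 
(.lf (nat_lit 1343143962) (dlOf (nat_lit 1) (nat_lit 0x20008160501)))) 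
(.lf (nat_lit 1476838554) (dlOf (nat_lit 1) (nat_lit 0xc000400280008202b82))))) (.nd (nat_lit 28) 
(.nd (nat_lit 7) (.lf (nat_lit 3221667858) (dlOf (nat_lit 1) (nat_lit 0xa0018170001))) 
(.lf (nat_lit 3221667986) (dlOf (nat_lit 1) (nat_lit 0x4000400220008170182)))) (.nd (nat_lit 20) 
(.nd (nat_lit 22) 
(.lf (nat_lit 3624321042) (dlOf (nat_lit 2) (nat_lit 0x24054005790200040018160481))) 
(.lf (nat_lit 3494297618) (dlOf (nat_lit 1) (nat_lit 0x200281f0881)))) 
(.lf (nat_lit 3491151890) (dlOf (nat_lit 1) (nat_lit 0x20028070501)))))) (.nd (nat_lit 31) 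
(.nd (nat_lit 26) (.nd (nat_lit 3) (.nd (nat_lit 28) 
(.lf (nat_lit 1611055122) (dlOf (nat_lit 1) (nat_lit 0x600280d0001))) 
(.lf (nat_lit 1879490578) (dlOf (nat_lit 1) (nat_lit 0x4a0028180481)))) 
(.lf (nat_lit 1879490586) (dlOf (nat_lit 1) (nat_lit 0x40028180501)))) (.nd (nat_lit 6) 
(.lf (nat_lit 1946599442) (dlOf (nat_lit 1) (nat_lit 0x14002000200080d0882))) 
(.lf (nat_lit 1678164306) (dlOf (nat_lit 2) (nat_lit 0x130070000900800c80080060002003600081a0683))))) 
(.nd (nat_lit 20) (.nd (nat_lit 7) 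
(.lf (nat_lit 3892756498) (dlOf (nat_lit 2) (nat_lit 0x201600012c080018008001000200060008230203))) 
(.nd (nat_lit 28) (.lf (nat_lit 3959865490) (dlOf (nat_lit 1) (nat_lit 0x4000400220008170182))) 
(.lf (nat_lit 4228300946) (dlOf (nat_lit 1) (nat_lit 0x20018090181))))) (.nd (nat_lit 3) 
(.lf (nat_lit 4095131794) (dlOf (nat_lit 1) (nat_lit 0x20028062801))) 
(.lf (nat_lit 4095131802) (dlOf (nat_lit 1) (nat_lit 0x180028062b81)))))))) (.nd (nat_lit 19) 
(.nd (nat_lit 22) (.nd (nat_lit 20) (.nd (nat_lit 23) (.nd (nat_lit 7) 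
(.lf (nat_lit 19316762) (dlOf (nat_lit 1) (nat_lit 0xa0028980981))) 
(.lf (nat_lit 1344719514) (dlOf (nat_lit 1) (nat_lit 0x4e0008985581)))) (.nd (nat_lit 3) 
(.lf (nat_lit 10928146) (dlOf (nat_lit 1) (nat_lit 0x400200020008640402))) (.nd (nat_lit 10) 
(.lf (nat_lit 27705370) (dlOf (nat_lit 1) (nat_lit 0xa0018d10681))) 
(.lf (nat_lit 44483610) (dlOf (nat_lit 1) (nat_lit 0x940019322881)))))) (.nd (nat_lit 26) 
(.nd (nat_lit 8) (.lf (nat_lit 37142554) (dlOf (nat_lit 1) (nat_lit 0x18002000200090a0602))) 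
(.lf (nat_lit 3493249306) (dlOf (nat_lit 1) (nat_lit 0x20028104001)))) (.nd (nat_lit 6) 
(.nd (nat_lit 7) (.lf (nat_lit 2755051802) (dlOf (nat_lit 1) (nat_lit 0x20028104001))) 
(.lf (nat_lit 2755051930) (dlOf (nat_lit 3) (nat_lit 0x1201d002570100130100012700800400080060002000e0008106883)))) 
(.lf (nat_lit 2755051866) (dlOf (nat_lit 1) (nat_lit 0x100018104e81)))))) (.nd (nat_lit 3) 
(.nd (nat_lit 6) (.nd (nat_lit 7) 
(.lf (nat_lit 15122450) (dlOf (nat_lit 1) (nat_lit 0x200287c0481))) 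
(.lf (nat_lit 57067922) (dlOf (nat_lit 1) (nat_lit 0x1400400140019794e82)))) (.nd (nat_lit 9) 
(.lf (nat_lit 48676946) (dlOf (nat_lit 1) (nat_lit 0x320029420781))) 
(.lf (nat_lit 41339474) (dlOf (nat_lit 1) (nat_lit 0x20019245281))))) (.nd (nat_lit 6) 
(.lf (nat_lit 57067930) (dlOf (nat_lit 1) (nat_lit 0x800400160009794e82))) (.nd (nat_lit 7) 
(.lf (nat_lit 31902298) (dlOf (nat_lit 2) (nat_lit 0x192e4000c948000250400040008e95301))) 
(.lf (nat_lit 57068250) (dlOf (nat_lit 1) (nat_lit 0x50008002c00200020009795903))))))) 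
(.nd (nat_lit 8) (.nd (nat_lit 9) (.nd (nat_lit 3) (.nd (nat_lit 7) 
(.lf (nat_lit 45007954) (dlOf (nat_lit 1) (nat_lit 0xa0019322881))) 
(.lf (nat_lit 70173906) (dlOf (nat_lit 1) (nat_lit 0x1400400040008fa2d82)))) (.nd (nat_lit 6) 
(.nd (nat_lit 10) 
(.lf (nat_lit 473874458) (dlOf (nat_lit 2) (nat_lit 0x3fc28601f013b00eb09c808203340005e10001000400020008fc0102))) 
(.lf (nat_lit 19844122) (dlOf (nat_lit 2) (nat_lit 0x7d6e000190189d6000)))) 
(.lf (nat_lit 473874522) (dlOf (nat_lit 1) (nat_lit 0x400400140008fc0882))))) (.nd (nat_lit 3) 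
(.nd (nat_lit 6) 
(.lf (nat_lit 2755576338) (dlOf (nat_lit 2) (nat_lit 0x100cc0007302000200181b0d81))) 
(.lf (nat_lit 8312402) (dlOf (nat_lit 1) (nat_lit 0xe0028519c01)))) (.nd (nat_lit 6) 
(.lf (nat_lit 24035866) (dlOf (nat_lit 1) (nat_lit 0x400200020008b80d82))) (.nd (nat_lit 10) 
(.lf (nat_lit 45009498) (dlOf (nat_lit 2) (nat_lit 0xea6380005004000c00400020009325302))) 
(.lf (nat_lit 61785690) (dlOf (nat_lit 1) (nat_lit 0x60009923901))))))) (.nd (nat_lit 7) 
(.nd (nat_lit 3) (.nd (nat_lit 9) (.nd (nat_lit 11) 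
(.lf (nat_lit 24035602) (dlOf (nat_lit 1) (nat_lit 0x2400200360008b80482))) 
(.lf (nat_lit 19847442) (dlOf (nat_lit 1) (nat_lit 0x10000289daa81)))) 
(.lf (nat_lit 54446866) (dlOf (nat_lit 1) (nat_lit 0x20029655b81)))) (.nd (nat_lit 10) 
(.lf (nat_lit 19843866) (dlOf (nat_lit 1) (nat_lit 0x4002000200089d5c02))) 
(.lf (nat_lit 19844890) (dlOf (nat_lit 1) (nat_lit 0x4004000200089d7482))))) (.nd (nat_lit 6) 
(.nd (nat_lit 10) 
(.lf (nat_lit 54446994) (dlOf (nat_lit 2) (nat_lit 0xc9fbc000bc04001c004005c0019655c82))) 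
(.lf (nat_lit 8308626) (dlOf (nat_lit 1) (nat_lit 0x10000800b400200180008514203)))) 
(.nd (nat_lit 9) (.lf (nat_lit 58640850) (dlOf (nat_lit 1) (nat_lit 0x200197e4e81))) 
(.lf (nat_lit 8313810) (dlOf (nat_lit 1) (nat_lit 0x40040004001851bf02)))))))))) (.nd (nat_lit 3) 
(.nd (nat_lit 28) (.nd (nat_lit 6) (.nd (nat_lit 18) (.nd (nat_lit 19) (.nd (nat_lit 26) 
(.nd (nat_lit 23) (.nd (nat_lit 7) 
(.lf (nat_lit 41140754) (dlOf (nat_lit 1) (nat_lit 0x28008001400200060009227c03))) 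
(.lf (nat_lit 3758342290) (dlOf (nat_lit 1) (nat_lit 0x1540018130281)))) (.nd (nat_lit 24) 
(.lf (nat_lit 47431698) (dlOf (nat_lit 1) (nat_lit 0x38008001c002000200093f0103))) 
(.lf (nat_lit 30654482) (dlOf (nat_lit 1) (nat_lit 0x58008000400200020008e40783))))) 
(.nd (nat_lit 32) (.nd (nat_lit 29) 
(.lf (nat_lit 1141096466) (dlOf (nat_lit 1) (nat_lit 0x4002000200080d0002))) 
(.lf (nat_lit 3825451026) (dlOf (nat_lit 2) (nat_lit 0x1202400070118015e4100260008004400200160008160483)))) 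
(.nd (nat_lit 8) (.lf (nat_lit 4362321938) (dlOf (nat_lit 1) (nat_lit 0x1400400040018020482))) 
(.lf (nat_lit 5570284306) (dlOf (nat_lit 1) (nat_lit 0x200280d5b81)))))) (.nd (nat_lit 11) 
(.nd (nat_lit 20) (.nd (nat_lit 10) 
(.lf (nat_lit 537640978) (dlOf (nat_lit 1) (nat_lit 0x3e000800dc00200e400080e0183))) 
(.lf (nat_lit 36422674) (dlOf (nat_lit 1) (nat_lit 0x20019072881)))) (.nd (nat_lit 21) 
(.lf (nat_lit 22790162) (dlOf (nat_lit 1) (nat_lit 0x950008008c002056e0008b20303))) 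
(.lf (nat_lit 58441746) (dlOf (nat_lit 1) (nat_lit 0x1000297e0001))))) (.nd (nat_lit 7) 
(.nd (nat_lit 8) (.nd (nat_lit 20) 
(.lf (nat_lit 46910482) (dlOf (nat_lit 2) (nat_lit 0x3b9c800b3a800005a080008004000c0019385f82))) 
(.lf (nat_lit 20696082) (dlOf (nat_lit 2) (nat_lit 0x84960000000189d5f80)))) 
(.lf (nat_lit 67885842) (dlOf (nat_lit 1) (nat_lit 0x40020002000833ba82)))) (.nd (nat_lit 9) 
(.lf (nat_lit 19646866) (dlOf (nat_lit 1) (nat_lit 0x8004000400089d4e82))) 
(.lf (nat_lit 46910354) (dlOf (nat_lit 1) (nat_lit 0x400400020009385c82))))))) (.nd (nat_lit 23) 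
(.nd (nat_lit 19) (.nd (nat_lit 26) (.nd (nat_lit 31) 
(.lf (nat_lit 1611120658) (dlOf (nat_lit 14) (nat_lit 0x30053002a01e801e00d40008042004001d00012050004029801e813c001407e000e03d003f01a8000808400d403a001c0000001108000101f800280d40004008000c076001c035000b01080007c1800500ec002c06a001e021000e00e80007420043815400240a8000604e007f01b8000642003d8154002809c00a20370000c03005902a80005c080508154004c09c000a03f007501b80005820016015400e007e00500370000a03000d02a800028080220154010006e00005040020055000f01b8000001002880080004002000c00080e0183))) 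
(.lf (nat_lit 3758604306) (dlOf (nat_lit 1) (nat_lit 0x900080028002003e0008310203)))) 
(.nd (nat_lit 7) (.lf (nat_lit 3288842770) (dlOf (nat_lit 1) (nat_lit 0x400081b0d81))) 
(.lf (nat_lit 2886189202) (dlOf (nat_lit 5) (nat_lit 0x168070013fe0400f0036009fe02007401c004fe81000400e0027f0080230008004400200460008184003))))) 
(.nd (nat_lit 11) (.nd (nat_lit 7) (.nd (nat_lit 20) 
(.lf (nat_lit 17809426) (dlOf (nat_lit 3) (nat_lit 0x3fc670070701005be3380339c0808c00080548002004c00088f0783))) 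
(.lf (nat_lit 23052306) (dlOf (nat_lit 1) (nat_lit 0x800200100008b50182)))) 
(.lf (nat_lit 19911314) (dlOf (nat_lit 1) (nat_lit 0x21000800fc002008400089d8c83)))) 
(.nd (nat_lit 8) (.lf (nat_lit 54512658) (dlOf (nat_lit 2) (nat_lit 0xd098a0002d0200300019655f81))) 
(.lf (nat_lit 19912978) (dlOf (nat_lit 1) (nat_lit 0x80080004002000200089daa83)))))) 
(.nd (nat_lit 20) (.nd (nat_lit 10) (.nd (nat_lit 19) (.nd (nat_lit 21) 
(.lf (nat_lit 13090834) (dlOf (nat_lit 14) (nat_lit 0xe319800618600090c000005a060068633001d30c00059800000b20c008cc66000580200064e9000626c00090000000a80c0014b3400033020020686000160100063198000640800098cc0002c040058c660032618000e3000000281800a986000012040114c66007261800002820002319801b9860000cc000000306004c633002330c000008100110008016c002006800086f0183))) 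
(.lf (nat_lit 10993682) (dlOf (nat_lit 1) (nat_lit 0x24004001c0008650402)))) 
(.lf (nat_lit 13615122) (dlOf (nat_lit 2) (nat_lit 0x4e52001a6f100ecf028730880)))) 
(.lf (nat_lit 46648338) (dlOf (nat_lit 2) (nat_lit 0x6a4000016819385f80)))) (.nd (nat_lit 22) 
(.lf (nat_lit 9945106) (dlOf (nat_lit 5) (nat_lit 0x141cc000238100080000001180800887800006604002c3c00002202000c0018590181))) 
(.nd (nat_lit 24) 
(.lf (nat_lit 47693842) (dlOf (nat_lit 1) (nat_lit 0x38008000400200020009400003))) 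
(.lf (nat_lit 30916626) (dlOf (nat_lit 1) (nat_lit 0x200028e50a01)))))))) (.nd (nat_lit 7) 
(.nd (nat_lit 26) (.nd (nat_lit 20) (.nd (nat_lit 9) (.nd (nat_lit 8) (.nd (nat_lit 21) 
(.lf (nat_lit 63160402) (dlOf (nat_lit 3) (nat_lit 0xa49a80001902002267e000733380071654000240c0074004001200099e0782))) 
(.lf (nat_lit 19120210) (dlOf (nat_lit 1) (nat_lit 0x8008000400200020008970283)))) 
(.lf (nat_lit 671334738) (dlOf (nat_lit 2) (nat_lit 0x1800000050040010002001e0008154d82)))) 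
(.nd (nat_lit 10) 
(.lf (nat_lit 2818822738) (dlOf (nat_lit 1) (nat_lit 0x8008000400200020008128983))) 
(.lf (nat_lit 19650130) (dlOf (nat_lit 1) (nat_lit 0x4002000200089d9c02))))) (.nd (nat_lit 18) 
(.nd (nat_lit 8) (.nd (nat_lit 9) 
(.lf (nat_lit 32751698) (dlOf (nat_lit 1) (nat_lit 0xc00400900008f10782))) 
(.lf (nat_lit 8110674) (dlOf (nat_lit 1) (nat_lit 0x20018511681)))) 
(.lf (nat_lit 1294674) (dlOf (nat_lit 1) (nat_lit 0x4004000600080a4d02)))) (.nd (nat_lit 19) 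
(.lf (nat_lit 43499602) (dlOf (nat_lit 1) (nat_lit 0x4004000200092a0002))) 
(.lf (nat_lit 18858066) (dlOf (nat_lit 1) (nat_lit 0x400400020008970282)))))) (.nd (nat_lit 18) 
(.nd (nat_lit 9) (.nd (nat_lit 19) 
(.lf (nat_lit 4496539730) (dlOf (nat_lit 1) (nat_lit 0x4004000200080e0002))) 
(.lf (nat_lit 2754330706) (dlOf (nat_lit 2) (nat_lit 0x4541fc000148180d0d80)))) (.nd (nat_lit 8) 
(.lf (nat_lit 6509809234) (dlOf (nat_lit 1) (nat_lit 0x20018147181))) 
(.lf (nat_lit 4496542546) (dlOf (nat_lit 1) (nat_lit 0x500080038002000400080e5c03))))) 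
(.nd (nat_lit 8) (.nd (nat_lit 19) 
(.lf (nat_lit 2756165714) (dlOf (nat_lit 1) (nat_lit 0x400400040008211602))) 
(.lf (nat_lit 68141138) (dlOf (nat_lit 1) (nat_lit 0x10008000400200020008400783)))) 
(.lf (nat_lit 2886189394) (dlOf (nat_lit 1) (nat_lit 0x800200040008188b02)))))) (.nd (nat_lit 18) 
(.nd (nat_lit 9) (.nd (nat_lit 19) (.nd (nat_lit 26) 
(.lf (nat_lit 5368956114) (dlOf (nat_lit 1) (nat_lit 0xa0018092d81))) 
(.lf (nat_lit 5033411794) (dlOf (nat_lit 1) (nat_lit 0x8008002800200020008092d83)))) 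
(.lf (nat_lit 43762898) (dlOf (nat_lit 1) (nat_lit 0x1000292a2d81)))) (.nd (nat_lit 8) 
(.lf (nat_lit 20696786) (dlOf (nat_lit 1) (nat_lit 0x18008000c002000a00089d7383))) 
(.lf (nat_lit 2818825170) (dlOf (nat_lit 4) (nat_lit 0x1dc084010c0360026382004601b0012c80800080d8009400400b80040034000812bf02))))) 
(.nd (nat_lit 8) (.nd (nat_lit 21) 
(.lf (nat_lit 8897746) (dlOf (nat_lit 1) (nat_lit 0x800400060008512d82))) 
(.lf (nat_lit 52937938) (dlOf (nat_lit 1) (nat_lit 0x400400020009572d82)))) 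
(.lf (nat_lit 50840018) (dlOf (nat_lit 1) (nat_lit 0x600194d7b01))))))) (.nd (nat_lit 27) 
(.nd (nat_lit 7) (.nd (nat_lit 31) (.nd (nat_lit 19) (.nd (nat_lit 8) (.nd (nat_lit 9) 
(.lf (nat_lit 1344520210) (dlOf (nat_lit 1) (nat_lit 0x10000200020008810402))) 
(.lf (nat_lit 1345831442) (dlOf (nat_lit 5) (nat_lit 0x508a80038450000d008001422a0006602000c1140003201000208a800000080258008001400200060008e07c03)))) 
(.nd (nat_lit 6) (.lf (nat_lit 268684050) (dlOf (nat_lit 1) (nat_lit 0x7000280e5b81))) 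
(.lf (nat_lit 1342685522) (dlOf (nat_lit 6) (nat_lit 0x1c022600150d180015810005068c000aa04017844c00221a30002a02006711300004c0800c868c00024040010004003000080c0682))))) 
(.nd (nat_lit 20) (.nd (nat_lit 26) 
(.lf (nat_lit 1342947346) (dlOf (nat_lit 1) (nat_lit 0x20028110a01))) 
(.lf (nat_lit 1410056210) (dlOf (nat_lit 1) (nat_lit 0x3e000800dc00200e400080e0183)))) 
(.lf (nat_lit 1343995922) (dlOf (nat_lit 1) (nat_lit 0x4004000200083a0a02))))) (.nd (nat_lit 6) 
(.nd (nat_lit 8) (.nd (nat_lit 18) 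
(.lf (nat_lit 3557539858) (dlOf (nat_lit 2) (nat_lit 0xe00000017c080018008000800200020008260203))) 
(.lf (nat_lit 3020406802) (dlOf (nat_lit 1) (nat_lit 0x900080028002003e0008310203)))) 
(.lf (nat_lit 3557021970) (dlOf (nat_lit 5) (nat_lit 0x500e0000a20400640700005002000a0380002281000901c0000f40801b8008003c0020006000812aa83)))) 
(.nd (nat_lit 10) (.nd (nat_lit 8) 
(.lf (nat_lit 3492528210) (dlOf (nat_lit 2) (nat_lit 0x4541ea000148180d0d80))) 
(.lf (nat_lit 3490693458) (dlOf (nat_lit 1) (nat_lit 0x440008014d01)))) (.nd (nat_lit 9) 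
(.lf (nat_lit 3489910098) (dlOf (nat_lit 1) (nat_lit 0x20028006a01))) 
(.lf (nat_lit 3557021522) (dlOf (nat_lit 1) (nat_lit 0x8002812a201))))))) (.nd (nat_lit 26) 
(.nd (nat_lit 8) (.nd (nat_lit 9) (.nd (nat_lit 10) 
(.lf (nat_lit 1342685330) (dlOf (nat_lit 2) (nat_lit 0x2d044c00301a3000230280c0180))) 
(.lf (nat_lit 6711133330) (dlOf (nat_lit 1) (nat_lit 0x20028092b81)))) 
(.lf (nat_lit 3493054098) (dlOf (nat_lit 1) (nat_lit 0x4400080f3a81)))) (.nd (nat_lit 11) 
(.lf (nat_lit 805552530) (dlOf (nat_lit 2) (nat_lit 0x30088028d00800b0008000800200420008126183))) 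
(.lf (nat_lit 5100521874) (dlOf (nat_lit 1) (nat_lit 0x3200080d4e81))))) (.nd (nat_lit 6) 
(.nd (nat_lit 9) (.nd (nat_lit 10) 
(.lf (nat_lit 335790226) (dlOf (nat_lit 1) (nat_lit 0x4004000200080a2802))) 
(.lf (nat_lit 872662162) (dlOf (nat_lit 2) (nat_lit 0x100f8003f004000400200020008092b82)))) 
(.lf (nat_lit 4094413458) (dlOf (nat_lit 1) (nat_lit 0x400400020008055502)))) (.nd (nat_lit 8) 
(.lf (nat_lit 5167629522) (dlOf (nat_lit 1) (nat_lit 0xa00080d2d81))) 
(.lf (nat_lit 4630760402) (dlOf (nat_lit 2) (nat_lit 0x7601f0000a018095d80))))))) (.nd (nat_lit 29) 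
(.nd (nat_lit 6) (.nd (nat_lit 7) (.nd (nat_lit 19) (.nd (nat_lit 20) 
(.lf (nat_lit 3691233298) (dlOf (nat_lit 2) (nat_lit 0x400a8001380800180080004002000600080c0383))) 
(.lf (nat_lit 471056402) (dlOf (nat_lit 1) (nat_lit 0x38008000800200060008260383)))) 
(.nd (nat_lit 20) (.lf (nat_lit 470532114) (dlOf (nat_lit 1) (nat_lit 0x20028110a01))) 
(.lf (nat_lit 473677842) (dlOf (nat_lit 1) (nat_lit 0x54004000e0018fa0002))))) (.nd (nat_lit 10) 
(.nd (nat_lit 26) 
(.lf (nat_lit 3624386706) (dlOf (nat_lit 5) (nat_lit 0x168074008d40400f00380046902007401d0023401000400e80119c080230008004400200460008184003))) 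
(.lf (nat_lit 470270098) (dlOf (nat_lit 2) (nat_lit 0x2d044c00301b3000230280c0180)))) 
(.lf (nat_lit 472892562) (dlOf (nat_lit 1) (nat_lit 0x50002002a0008b52b82))))) (.nd (nat_lit 7) 
(.nd (nat_lit 8) 
(.lf (nat_lit 5773181010) (dlOf (nat_lit 15) (nat_lit 0x7c1be001e0550292000000158180f60000000aa0407d0000000540203e80000002981005c00000014808057019c013c0c601500620095030805b818004080b40040050007d0278002813801c809a011604c00e002580818120001808e01e80460053022802e0110040c08600e40420108000800108a000383080006404073419200040c20001682002b000000088080e783240002e040a4c000000130202520000000901005e0000000400800683240001e0400d0002000200080b0682))) 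
(.nd (nat_lit 18) (.lf (nat_lit 1543749970) (dlOf (nat_lit 1) (nat_lit 0x4800400060008154d02))) 
(.lf (nat_lit 470270290) (dlOf (nat_lit 6) (nat_lit 0x1c022600150d98001581000506cc000aa04017844c00221b30002a02006711300004c0800c86cc00024040010004003000080c0682))))) 
(.nd (nat_lit 10) (.lf (nat_lit 471318738) (dlOf (nat_lit 1) (nat_lit 0x1000282e0501))) 
(.lf (nat_lit 3624127698) (dlOf (nat_lit 3) (nat_lit 0x601e8000180800380f40000004006400400240018146402)))))) 
(.nd (nat_lit 30) (.nd (nat_lit 21) (.nd (nat_lit 6) (.nd (nat_lit 8) 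
(.lf (nat_lit 3087253522) (dlOf (nat_lit 2) (nat_lit 0x120240007011802c3c100260008004400200160008160483))) 
(.lf (nat_lit 1008454418) (dlOf (nat_lit 1) (nat_lit 0x180018c95b81)))) 
(.lf (nat_lit 5301846098) (dlOf (nat_lit 2) (nat_lit 0x200c00004056000801d00040088000d02000380080014002001000080a1703)))) 
(.nd (nat_lit 6) (.nd (nat_lit 18) 
(.lf (nat_lit 1008975890) (dlOf (nat_lit 1) (nat_lit 0x10008000c00200060009000003))) 
(.lf (nat_lit 1009238034) (dlOf (nat_lit 1) (nat_lit 0x2200090a0081)))) 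
(.lf (nat_lit 1009238098) (dlOf (nat_lit 6) (nat_lit 0x401c6001207600013820011071801001d8000120800380ec0000802002c0e3001a03b00001410001038c009c0ec0000004004800290a0781))))) 
(.nd (nat_lit 6) (.nd (nat_lit 7) (.nd (nat_lit 8) 
(.lf (nat_lit 4228104210) (dlOf (nat_lit 1) (nat_lit 0x1400400040018020482))) 
(.lf (nat_lit 6308481810) (dlOf (nat_lit 1) (nat_lit 0x200280d5b81)))) 
(.lf (nat_lit 6376114578) (dlOf (nat_lit 1) (nat_lit 0x800400040018094e82)))) (.nd (nat_lit 7) 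
(.lf (nat_lit 6377160786) (dlOf (nat_lit 15) (nat_lit 0x7c1b2001e05c0292000000158180f60000000aa0407d0000000540203e80000002981005c0000001480805b819c04080c20040057007d02b0002815401c80a8015c053004f02780540138025409a01c004c008b02480818120001808e01e8046005c02280298110040c08600e40420108000800108a000383080006404073419400040c20001682002b000000088080e783280002e040a4c000000130202520000000901005e0000000400800683280001e0400d0002000200080b0682))) 
(.lf (nat_lit 2080621778) (dlOf (nat_lit 1) (nat_lit 0x20028092d81))))))))) (.nd (nat_lit 18) 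
(.nd (nat_lit 28) (.nd (nat_lit 7) (.nd (nat_lit 24) (.nd (nat_lit 26) (.nd (nat_lit 27) 
(.nd (nat_lit 6) (.nd (nat_lit 19) 
(.lf (nat_lit 47431706) (dlOf (nat_lit 1) (nat_lit 0x400293f0181))) 
(.lf (nat_lit 537640986) (dlOf (nat_lit 4) (nat_lit 0x1830290008f0081190148004660404b00a40023102001e00280e0481)))) 
(.lf (nat_lit 1610860122) (dlOf (nat_lit 2) (nat_lit 0x2c0b4000470200040018093901)))) 
(.nd (nat_lit 8) (.lf (nat_lit 3355688986) (dlOf (nat_lit 1) (nat_lit 0x54004000200080c0702))) 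
(.lf (nat_lit 671334682) (dlOf (nat_lit 3) (nat_lit 0x12804c013fc0400380500002013004fe028154000))))) 
(.nd (nat_lit 6) (.nd (nat_lit 8) 
(.lf (nat_lit 67354650) (dlOf (nat_lit 1) (nat_lit 0x4002000200080c0502))) 
(.lf (nat_lit 4899195674) (dlOf (nat_lit 1) (nat_lit 0x4002000200080d5c02)))) (.nd (nat_lit 8) 
(.lf (nat_lit 1141096538) (dlOf (nat_lit 1) (nat_lit 0x4004000200080d0682))) 
(.lf (nat_lit 1677967706) (dlOf (nat_lit 7) (nat_lit 0x1804800080140006904002201200020050001a0100008048000ca040040024000400a0002202000d0090001080800200440004804004400400940008124e02)))))) 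
(.nd (nat_lit 19) (.nd (nat_lit 8) (.nd (nat_lit 21) 
(.lf (nat_lit 29605914) (dlOf (nat_lit 1) (nat_lit 0x280080008002000e0008e20503))) 
(.lf (nat_lit 27508762) (dlOf (nat_lit 1) (nat_lit 0x60008cf0481)))) (.nd (nat_lit 9) 
(.lf (nat_lit 20168986) (dlOf (nat_lit 1) (nat_lit 0x300080004002000200089d0a83))) 
(.lf (nat_lit 20171546) (dlOf (nat_lit 1) (nat_lit 0x4002000200089d5c02))))) (.nd (nat_lit 6) 
(.nd (nat_lit 20) (.lf (nat_lit 28033050) (dlOf (nat_lit 1) (nat_lit 0x480018d50481))) 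
(.lf (nat_lit 60538906) (dlOf (nat_lit 1) (nat_lit 0x1a0029890501)))) 
(.lf (nat_lit 61589082) (dlOf (nat_lit 1) (nat_lit 0xc80029923901)))))) (.nd (nat_lit 8) 
(.nd (nat_lit 10) (.nd (nat_lit 6) (.nd (nat_lit 20) 
(.lf (nat_lit 23838874) (dlOf (nat_lit 1) (nat_lit 0x400400020008b80182))) 
(.lf (nat_lit 68927642) (dlOf (nat_lit 1) (nat_lit 0x34002005c0008840502)))) 
(.lf (nat_lit 14401754) (dlOf (nat_lit 1) (nat_lit 0x80028750581)))) (.nd (nat_lit 23) 
(.lf (nat_lit 5368956058) (dlOf (nat_lit 1) (nat_lit 0x20018092b81))) 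
(.lf (nat_lit 42189978) (dlOf (nat_lit 1) (nat_lit 0x800400140009242b82))))) (.nd (nat_lit 21) 
(.nd (nat_lit 11) (.nd (nat_lit 19) 
(.lf (nat_lit 1677967770) (dlOf (nat_lit 2) (nat_lit 0x300880127c0800b0008000800200420008126883))) 
(.lf (nat_lit 2753282458) (dlOf (nat_lit 1) (nat_lit 0x800400020008090782)))) 
(.lf (nat_lit 6107154842) (dlOf (nat_lit 1) (nat_lit 0x80028094e81)))) (.nd (nat_lit 9) 
(.nd (nat_lit 10) 
(.lf (nat_lit 57395610) (dlOf (nat_lit 1) (nat_lit 0x70008002800200140009794e83))) 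
(.lf (nat_lit 61588890) (dlOf (nat_lit 1) (nat_lit 0x180009923601)))) 
(.lf (nat_lit 8116122) (dlOf (nat_lit 1) (nat_lit 0x2001851a301))))))) (.nd (nat_lit 6) 
(.nd (nat_lit 26) (.nd (nat_lit 19) (.nd (nat_lit 9) 
(.lf (nat_lit 2953035802) (dlOf (nat_lit 1) (nat_lit 0x8004000200180c0582))) 
(.lf (nat_lit 805552666) (dlOf (nat_lit 1) (nat_lit 0x568008030400200360008127f03)))) 
(.nd (nat_lit 7) (.lf (nat_lit 1345044506) (dlOf (nat_lit 1) (nat_lit 0x400289d0601))) 
(.lf (nat_lit 5772132506) (dlOf (nat_lit 1) (nat_lit 0x100018090501))))) (.nd (nat_lit 8) 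
(.nd (nat_lit 9) (.nd (nat_lit 19) 
(.lf (nat_lit 2617491482) (dlOf (nat_lit 1) (nat_lit 0x1000180c0701))) 
(.lf (nat_lit 1410056218) (dlOf (nat_lit 4) (nat_lit 0x1830290008f0081190148004660404b00a40023102001e00280e0481)))) 
(.lf (nat_lit 1543750170) (dlOf (nat_lit 1) (nat_lit 0x71400402280018157f02)))) (.nd (nat_lit 9) 
(.lf (nat_lit 1543749914) (dlOf (nat_lit 3) (nat_lit 0x12804c008d2040038050000201300233828154000))) 
(.lf (nat_lit 6241372954) (dlOf (nat_lit 1) (nat_lit 0x200180d5c01)))))) (.nd (nat_lit 27) 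
(.nd (nat_lit 29) (.nd (nat_lit 30) 
(.lf (nat_lit 4563648602) (dlOf (nat_lit 2) (nat_lit 0x78068009ac02000600180b0781))) 
(.lf (nat_lit 1342423130) (dlOf (nat_lit 1) (nat_lit 0x6c0028020981)))) (.nd (nat_lit 8) 
(.lf (nat_lit 4096507994) (dlOf (nat_lit 1) (nat_lit 0x20028120681))) 
(.lf (nat_lit 805552474) (dlOf (nat_lit 1) (nat_lit 0x3c004000a0008124e82))))) (.nd (nat_lit 8) 
(.nd (nat_lit 19) (.nd (nat_lit 29) 
(.lf (nat_lit 4697866330) (dlOf (nat_lit 2) (nat_lit 0x780680040e02000600180b0781))) 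
(.lf (nat_lit 2013511770) (dlOf (nat_lit 1) (nat_lit 0x4004000200080d0682)))) 
(.lf (nat_lit 6376112218) (dlOf (nat_lit 1) (nat_lit 0x80018090081)))) (.nd (nat_lit 7) 
(.lf (nat_lit 1543749978) (dlOf (nat_lit 2) (nat_lit 0x80000005004002c00200380008154e82))) 
(.lf (nat_lit 5234738138) (dlOf (nat_lit 1) (nat_lit 0x300080038002000a00080d2883)))))))) 
(.nd (nat_lit 19) (.nd (nat_lit 29) (.nd (nat_lit 7) (.nd (nat_lit 20) (.nd (nat_lit 9) 
(.nd (nat_lit 21) (.nd (nat_lit 27) 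
(.lf (nat_lit 5637652506) (dlOf (nat_lit 1) (nat_lit 0x20028140181))) 
(.lf (nat_lit 134725658) (dlOf (nat_lit 1) (nat_lit 0x70008001000200200008090003)))) 
(.lf (nat_lit 19382298) (dlOf (nat_lit 1) (nat_lit 0x20018990a01)))) (.nd (nat_lit 6) 
(.lf (nat_lit 50840090) (dlOf (nat_lit 1) (nat_lit 0x4004006200094d8702))) 
(.lf (nat_lit 8898138) (dlOf (nat_lit 1) (nat_lit 0x28008000c00200040008513903))))) 
(.nd (nat_lit 8) (.nd (nat_lit 23) (.nd (nat_lit 26) 
(.lf (nat_lit 1343733786) (dlOf (nat_lit 1) (nat_lit 0x400400020018350682))) 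
(.lf (nat_lit 471318554) (dlOf (nat_lit 1) (nat_lit 0x4002000200082e0002)))) 
(.lf (nat_lit 26722330) (dlOf (nat_lit 1) (nat_lit 0x60018c60501)))) (.nd (nat_lit 9) 
(.lf (nat_lit 1556762) (dlOf (nat_lit 1) (nat_lit 0x8002000200080f7602))) 
(.lf (nat_lit 60279578) (dlOf (nat_lit 1) (nat_lit 0x820029845c01)))))) (.nd (nat_lit 8) 
(.nd (nat_lit 26) (.nd (nat_lit 10) (.nd (nat_lit 11) 
(.lf (nat_lit 134725786) (dlOf (nat_lit 1) (nat_lit 0x20018090181))) 
(.lf (nat_lit 514202) (dlOf (nat_lit 1) (nat_lit 0x40040002000800a882)))) 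
(.lf (nat_lit 8897690) (dlOf (nat_lit 1) (nat_lit 0x20018512b81)))) (.nd (nat_lit 21) 
(.lf (nat_lit 201834650) (dlOf (nat_lit 1) (nat_lit 0x20018090181))) 
(.lf (nat_lit 472367258) (dlOf (nat_lit 1) (nat_lit 0x400200020008980502))))) (.nd (nat_lit 6) 
(.nd (nat_lit 11) (.lf (nat_lit 1409794458) (dlOf (nat_lit 1) (nat_lit 0x20018090781))) 
(.lf (nat_lit 3490171290) (dlOf (nat_lit 1) (nat_lit 0x400200020008004e82)))) 
(.lf (nat_lit 43501018) (dlOf (nat_lit 1) (nat_lit 0x4004000200092a3602)))))) (.nd (nat_lit 28) 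
(.nd (nat_lit 26) (.nd (nat_lit 7) (.nd (nat_lit 27) 
(.lf (nat_lit 1611120666) (dlOf (nat_lit 3) (nat_lit 0x36014c027009e000e03d000f01a800b00c0013c042000201d00670000000c84000980fc0005a0401d4004002a00080e0402))) 
(.lf (nat_lit 2819080218) (dlOf (nat_lit 9) (nat_lit 0x5017400088040cb80f0057c072043003501f201780b440960b0c03f0002086033603c01d101c811340d407d405e02d002582c780fc00080180ce00f0074207203e103501f601780b280960b2c03f0001f06033803c016501c810cc0d407be05e02d402582c900fc0007a1810f40d40b1c03f0001b82045603502c900fc0006c0800380e2088406a040a03481ba817400240840b2003f005000c800000380370008070000203180008190503)))) 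
(.lf (nat_lit 537379226) (dlOf (nat_lit 1) (nat_lit 0x400400020018090782)))) (.nd (nat_lit 6) 
(.nd (nat_lit 27) 
(.lf (nat_lit 1678229530) (dlOf (nat_lit 2) (nat_lit 0xb0098000000803a00080034002006800081b0903))) 
(.lf (nat_lit 738705434) (dlOf (nat_lit 10) (nat_lit 0xa40298043813c00c40980004048002201e800880d400d006000b4021002100e801e8000000642800400a6001603f001601a800200740006010016007e0002e02008403f0001681000801f8000ac0800d00fc0005204008c07e0002702004603f0001301002801f8000880806c800800a4002000600080e0503)))) 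
(.nd (nat_lit 20) 
(.lf (nat_lit 1678229594) (dlOf (nat_lit 2) (nat_lit 0x110298000440802900080008002007600081b1183))) 
(.lf (nat_lit 2755117146) (dlOf (nat_lit 1) (nat_lit 0x40028110981)))))) (.nd (nat_lit 30) 
(.nd (nat_lit 6) 
(.lf (nat_lit 805814298) (dlOf (nat_lit 2) (nat_lit 0xb0098000000803a00080034002006800081b0903))) 
(.nd (nat_lit 21) 
(.lf (nat_lit 805814362) (dlOf (nat_lit 2) (nat_lit 0x110298000900802900080008002007600081b1183))) 
(.lf (nat_lit 1009238106) (dlOf (nat_lit 1) (nat_lit 0x18008001c002000c00090a0883))))) 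
(.nd (nat_lit 20) (.nd (nat_lit 27) 
(.lf (nat_lit 6241632282) (dlOf (nat_lit 1) (nat_lit 0x20028140181))) 
(.lf (nat_lit 4228366362) (dlOf (nat_lit 1) (nat_lit 0x40028090001)))) 
(.lf (nat_lit 4095197210) (dlOf (nat_lit 2) (nat_lit 0x20a700017818070100))))))) (.nd (nat_lit 20) 
(.nd (nat_lit 11) (.nd (nat_lit 7) (.nd (nat_lit 9) 
(.lf (nat_lit 470794266) (dlOf (nat_lit 1) (nat_lit 0x10004000400081a0502))) 
(.lf (nat_lit 3490693658) (dlOf (nat_lit 1) (nat_lit 0x20028017f01)))) (.nd (nat_lit 9) 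
(.lf (nat_lit 472892570) (dlOf (nat_lit 1) (nat_lit 0x8000800dc00200560008b52b83))) 
(.lf (nat_lit 19911322) (dlOf (nat_lit 1) (nat_lit 0x80080004002000200089d8c83))))) 
(.nd (nat_lit 6) (.nd (nat_lit 7) (.nd (nat_lit 10) 
(.lf (nat_lit 19909402) (dlOf (nat_lit 1) (nat_lit 0x4002000200089d5c02))) 
(.lf (nat_lit 19910426) (dlOf (nat_lit 1) (nat_lit 0x4004000200089d7482)))) 
(.lf (nat_lit 19914138) (dlOf (nat_lit 1) (nat_lit 0x400189dca81)))) (.nd (nat_lit 21) 
(.lf (nat_lit 34589274) (dlOf (nat_lit 1) (nat_lit 0x400400020008fb5302))) 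
(.lf (nat_lit 45075034) (dlOf (nat_lit 2) (nat_lit 0x6698e00014019325300)))))) (.nd (nat_lit 6) 
(.nd (nat_lit 7) (.nd (nat_lit 21) 
(.lf (nat_lit 10469402) (dlOf (nat_lit 2) (nat_lit 0x245210001e8185e0b00))) (.nd (nat_lit 24) 
(.lf (nat_lit 473939994) (dlOf (nat_lit 2) (nat_lit 0xc105582b802761426139018d06680450258023c10a015c07500c00398000bc400370008000400200460008fc0103))) 
(.lf (nat_lit 20955162) (dlOf (nat_lit 1) (nat_lit 0x4002000200089f0102))))) (.nd (nat_lit 10) 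
(.lf (nat_lit 2080922) (dlOf (nat_lit 1) (nat_lit 0x20018150181))) 
(.lf (nat_lit 37733530) (dlOf (nat_lit 2) (nat_lit 0x199d20008902000200090d2b81))))) 
(.nd (nat_lit 7) (.nd (nat_lit 21) 
(.lf (nat_lit 69189722) (dlOf (nat_lit 1) (nat_lit 0x2400400a000088c0882))) 
(.lf (nat_lit 12566618) (dlOf (nat_lit 1) (nat_lit 0x200186d1181)))) 
(.lf (nat_lit 8377050) (dlOf (nat_lit 1) (nat_lit 0x400200020008518c82)))))))))) (.nd (nat_lit 3) 
(.nd (nat_lit 16) (.nd (nat_lit 6) (.nd (nat_lit 29) (.nd (nat_lit 19) (.nd (nat_lit 18) 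
(.nd (nat_lit 9) (.nd (nat_lit 30) (.nd (nat_lit 8) (.nd (nat_lit 20) 
(.lf (nat_lit 25346098) (dlOf (nat_lit 1) (nat_lit 0x400200020008bf0b82))) 
(.lf (nat_lit 62046258) (dlOf (nat_lit 1) (nat_lit 0x120019940481)))) (.nd (nat_lit 7) 
(.lf (nat_lit 8574258) (dlOf (nat_lit 1) (nat_lit 0x400400020008519882))) 
(.lf (nat_lit 2348990898) (dlOf (nat_lit 1) (nat_lit 0x20028090781))))) (.nd (nat_lit 10) 
(.nd (nat_lit 27) (.lf (nat_lit 5368889394) (dlOf (nat_lit 1) (nat_lit 0x400400020008080602))) 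
(.lf (nat_lit 5503107122) (dlOf (nat_lit 1) (nat_lit 0x400400020008080602)))) (.nd (nat_lit 7) 
(.lf (nat_lit 5773640754) (dlOf (nat_lit 1) (nat_lit 0xc00080e2881))) 
(.lf (nat_lit 1344455858) (dlOf (nat_lit 1) (nat_lit 0x400200020008802c02)))))) (.nd (nat_lit 8) 
(.nd (nat_lit 20) (.nd (nat_lit 27) 
(.lf (nat_lit 2483208754) (dlOf (nat_lit 2) (nat_lit 0x4014000024080010008001000200020008090f03))) 
(.lf (nat_lit 2348991026) (dlOf (nat_lit 2) (nat_lit 0x4014000024080010008001000200020008090f03)))) 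
(.lf (nat_lit 11715122) (dlOf (nat_lit 2) (nat_lit 0x66f10000a0186c0f00)))) (.nd (nat_lit 7) 
(.lf (nat_lit 2281882418) (dlOf (nat_lit 1) (nat_lit 0xa00280a2201))) 
(.lf (nat_lit 3221412786) (dlOf (nat_lit 1) (nat_lit 0x10001811bd81)))))) (.nd (nat_lit 27) 
(.nd (nat_lit 21) (.nd (nat_lit 9) (.nd (nat_lit 20) 
(.lf (nat_lit 1074184242) (dlOf (nat_lit 1) (nat_lit 0x3600280d0b81))) 
(.lf (nat_lit 1490994) (dlOf (nat_lit 1) (nat_lit 0x1600180d0701)))) 
(.lf (nat_lit 1409729074) (dlOf (nat_lit 2) (nat_lit 0x605b00010018090f00)))) (.nd (nat_lit 22) 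
(.lf (nat_lit 3492200498) (dlOf (nat_lit 1) (nat_lit 0x180080008002000400080b1183))) 
(.lf (nat_lit 23511090) (dlOf (nat_lit 1) (nat_lit 0x60018b80001))))) (.nd (nat_lit 9) 
(.nd (nat_lit 7) (.lf (nat_lit 2550580274) (dlOf (nat_lit 1) (nat_lit 0x600180f2881))) 
(.lf (nat_lit 201769394) (dlOf (nat_lit 6) (nat_lit 0x1300ec005c06c002a0170067683003101d801780d801bc02e00cec06000c0170067481001a01d800c00d8007802e00ce306000203b000600b803388100268008001c002004a0008090783)))) 
(.nd (nat_lit 26) 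
(.lf (nat_lit 134660658) (dlOf (nat_lit 2) (nat_lit 0xe0031006a0088000141000e00080034002002e0008090f03))) 
(.lf (nat_lit 201769522) (dlOf (nat_lit 2) (nat_lit 0xe0031006a0088000141000e00080034002002e0008090f03))))))) 
(.nd (nat_lit 22) (.nd (nat_lit 18) (.nd (nat_lit 20) (.nd (nat_lit 26) 
(.lf (nat_lit 134922290) (dlOf (nat_lit 2) (nat_lit 0x2d013002f804e0362009000a004025c00000005a14128c0020ab800080e0682))) 
(.nd (nat_lit 27) (.lf (nat_lit 4362780722) (dlOf (nat_lit 1) (nat_lit 0x8004000a00080f0f82))) 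
(.lf (nat_lit 202031154) (dlOf (nat_lit 2) (nat_lit 0x2d013002f804e0362009000a004025c00000005a14128c0020ab800080e0682))))) 
(.nd (nat_lit 9) (.nd (nat_lit 23) 
(.lf (nat_lit 1343930418) (dlOf (nat_lit 1) (nat_lit 0x20008380f01))) 
(.lf (nat_lit 10141746) (dlOf (nat_lit 1) (nat_lit 0x200285b0601)))) 
(.lf (nat_lit 3491414578) (dlOf (nat_lit 4) (nat_lit 0x2907ac01483a4000050400061eb0000081000a0f58000000802b0008009800200340008090f03))))) 
(.nd (nat_lit 8) (.nd (nat_lit 9) 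
(.lf (nat_lit 61785138) (dlOf (nat_lit 1) (nat_lit 0x40029922881))) 
(.lf (nat_lit 3493773874) (dlOf (nat_lit 2) (nat_lit 0xc0680000a0181b0f00)))) (.nd (nat_lit 7) 
(.lf (nat_lit 54446898) (dlOf (nat_lit 1) (nat_lit 0xa0019655c01))) 
(.lf (nat_lit 1346291122) (dlOf (nat_lit 1) (nat_lit 0x1e0028e83601)))))) (.nd (nat_lit 8) 
(.nd (nat_lit 11) (.nd (nat_lit 10) 
(.lf (nat_lit 8048690) (dlOf (nat_lit 1) (nat_lit 0x1400400060008517c02))) 
(.lf (nat_lit 58639410) (dlOf (nat_lit 1) (nat_lit 0x80080008002000400097e2883)))) (.nd (nat_lit 9) 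
(.lf (nat_lit 8046642) (dlOf (nat_lit 1) (nat_lit 0x400400040008514702))) 
(.lf (nat_lit 8051250) (dlOf (nat_lit 1) (nat_lit 0x6001851b381))))) (.nd (nat_lit 10) 
(.nd (nat_lit 7) (.lf (nat_lit 8048946) (dlOf (nat_lit 1) (nat_lit 0x240028518081))) 
(.lf (nat_lit 8049074) (dlOf (nat_lit 1) (nat_lit 0x30008002400200080008518503)))) (.nd (nat_lit 9) 
(.lf (nat_lit 8052018) (dlOf (nat_lit 1) (nat_lit 0x80040002000851c702))) 
(.lf (nat_lit 8048434) (dlOf (nat_lit 1) (nat_lit 0xc0028517481)))))))) (.nd (nat_lit 26) 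
(.nd (nat_lit 10) (.nd (nat_lit 18) (.nd (nat_lit 19) (.nd (nat_lit 27) 
(.lf (nat_lit 2952970290) (dlOf (nat_lit 1) (nat_lit 0x400400020008060d02))) 
(.lf (nat_lit 5234671666) (dlOf (nat_lit 2) (nat_lit 0xd0158000bc080028008000400200140008080383)))) 
(.lf (nat_lit 537575474) (dlOf (nat_lit 13) (nat_lit 0x2968164162009601b802400a20108000d8202a601641558096038c0240001a03041302f81d480c0000640803c80be01be0300001882046002f803c817811340600003006026a05f015302c80b9812c03e00600002e0802a005f003a02e00a581640548096029403000400120000b430007017c000580409080be034e0590019025811f80c0000561000400be0002a02070205f0001481000d02f8000a008010800802e0002003e00080c0f83)))) 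
(.nd (nat_lit 7) (.nd (nat_lit 9) 
(.lf (nat_lit 2819014706) (dlOf (nat_lit 2) (nat_lit 0x3000000544080128008001c00200020008150483))) 
(.lf (nat_lit 537313842) (dlOf (nat_lit 2) (nat_lit 0x605b00010018090f00)))) (.nd (nat_lit 28) 
(.lf (nat_lit 537313714) (dlOf (nat_lit 3) (nat_lit 0xb006000ced02002403000671818090780))) 
(.lf (nat_lit 805749170) (dlOf (nat_lit 1) (nat_lit 0xa00281a0781)))))) (.nd (nat_lit 8) 
(.nd (nat_lit 9) (.nd (nat_lit 18) 
(.lf (nat_lit 1611318322) (dlOf (nat_lit 1) (nat_lit 0x400200020008122882))) 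
(.lf (nat_lit 1745273906) (dlOf (nat_lit 1) (nat_lit 0x14004000200080e2882)))) 
(.lf (nat_lit 1610794546) (dlOf (nat_lit 1) (nat_lit 0x960008093781)))) (.nd (nat_lit 30) 
(.nd (nat_lit 27) (.lf (nat_lit 537052978) (dlOf (nat_lit 1) (nat_lit 0x400400020018003d82))) 
(.lf (nat_lit 671270706) (dlOf (nat_lit 7) (nat_lit 0x6804c000380400240000001b02002601f001600980090030000340c001003e00100130000582000b00980002808006804c0001204006000400240018143d82)))) 
(.nd (nat_lit 7) 
(.lf (nat_lit 3758282546) (dlOf (nat_lit 3) (nat_lit 0x3403d0001c810051019002400980000008000c0040004000812a102))) 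
(.lf (nat_lit 1881327026) (dlOf (nat_lit 1) (nat_lit 0x400400020008e83602))))))) (.nd (nat_lit 7) 
(.nd (nat_lit 9) (.nd (nat_lit 18) (.nd (nat_lit 27) 
(.lf (nat_lit 4899127346) (dlOf (nat_lit 3) (nat_lit 0x98034004e0190001782002600c8000b00800e0008008000200100008080383))) 
(.lf (nat_lit 5301780530) (dlOf (nat_lit 1) (nat_lit 0xc0002002e0008090002)))) (.nd (nat_lit 21) 
(.lf (nat_lit 1946599474) (dlOf (nat_lit 1) (nat_lit 0x3600280d0b81))) 
(.lf (nat_lit 2754002994) (dlOf (nat_lit 1) (nat_lit 0x180080008002000400080b1183))))) 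
(.nd (nat_lit 11) (.nd (nat_lit 18) 
(.lf (nat_lit 2753217074) (dlOf (nat_lit 4) (nat_lit 0x2907f401483ce000050400061fd0000081000a0fe8000000802b0008009800200340008090f03))) 
(.lf (nat_lit 2755576370) (dlOf (nat_lit 2) (nat_lit 0xc068000098181b0f00)))) 
(.lf (nat_lit 6376573490) (dlOf (nat_lit 2) (nat_lit 0xae03a000f3018095180))))) (.nd (nat_lit 11) 
(.nd (nat_lit 18) 
(.lf (nat_lit 2753216946) (dlOf (nat_lit 6) (nat_lit 0xc01f500676810014107803287d4019d80801583ea00ce30200761f5006710100390fc00329c080110008013000200920008090783))) 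
(.nd (nat_lit 27) 
(.lf (nat_lit 1678164402) (dlOf (nat_lit 11) (nat_lit 0x19015401d9a0400a40aa00560120076602002302a8028004801d9408013401400eb602008c00a0075701003e02b003a6408029815801d300400700aa00a004a00500090038d4180290158019802600e2404027a042001700700329c1001480080030002004000081a0783))) 
(.lf (nat_lit 3959865778) (dlOf (nat_lit 2) (nat_lit 0x80380194e04003c00400280008170782))))) 
(.nd (nat_lit 9) (.lf (nat_lit 738380210) (dlOf (nat_lit 1) (nat_lit 0x140028094e81))) 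
(.lf (nat_lit 738380722) (dlOf (nat_lit 1) (nat_lit 0x400400160008095d02)))))))) (.nd (nat_lit 7) 
(.nd (nat_lit 8) (.nd (nat_lit 19) (.nd (nat_lit 18) (.nd (nat_lit 22) 
(.lf (nat_lit 3624058994) (dlOf (nat_lit 5) (nat_lit 0x14054002001d000300e00008038001c008000a003000ae86001200e8005001000080060015c06000202a0001014800400740004006001590800c401d005800200055c1000600080138002002000080b0083))) 
(.nd (nat_lit 26) (.lf (nat_lit 4374642) (dlOf (nat_lit 1) (nat_lit 0x20028290281))) 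
(.lf (nat_lit 2755838066) (dlOf (nat_lit 4) (nat_lit 0x50e0001e044400dc1de002300601e411100f8084800303bc003d00c0154222008e109000f30281b0080))))) 
(.nd (nat_lit 20) (.lf (nat_lit 36094066) (dlOf (nat_lit 1) (nat_lit 0x400200020009021d82))) 
(.lf (nat_lit 1343668338) (dlOf (nat_lit 16) (nat_lit 0x960b080088538024c13a014c08e000e28400080b080060274001c11c001c20600b4161005204e803c0238003720c00c42c2001b7020038161001004e802402380036a0c001c2c2001b402006c161000d801002804e8006bc08014058400ac13a001e08e000c783002b0b0800634080418584020813a0018c04008e161003b04e8006281003a858401c813a00189040016161000804e8006201004b8584006829c003e0be009204e80528238002f0140008004002400182e0482))))) 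
(.nd (nat_lit 20) (.nd (nat_lit 18) 
(.lf (nat_lit 25870450) (dlOf (nat_lit 1) (nat_lit 0x20018c10281))) (.nd (nat_lit 26) 
(.lf (nat_lit 537837682) (dlOf (nat_lit 1) (nat_lit 0x80080004002000200081b0083))) 
(.lf (nat_lit 1410252914) (dlOf (nat_lit 2) (nat_lit 0x720340009200800280080054002000c00081b0083))))) 
(.nd (nat_lit 9) (.nd (nat_lit 10) 
(.lf (nat_lit 29016178) (dlOf (nat_lit 1) (nat_lit 0x8008000400200020008da0483))) 
(.lf (nat_lit 8051826) (dlOf (nat_lit 2) (nat_lit 0x293a0000cc0400040040002000851c102)))) 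
(.lf (nat_lit 8046194) (dlOf (nat_lit 1) (nat_lit 0x20008513981)))))) (.nd (nat_lit 26) 
(.nd (nat_lit 18) (.nd (nat_lit 21) (.nd (nat_lit 10) 
(.lf (nat_lit 3491414386) (dlOf (nat_lit 1) (nat_lit 0xc0018090781))) 
(.lf (nat_lit 1610794354) (dlOf (nat_lit 1) (nat_lit 0x200080034002004c0008093503)))) 
(.nd (nat_lit 11) (.lf (nat_lit 8044914) (dlOf (nat_lit 1) (nat_lit 0x400400020008511002))) 
(.lf (nat_lit 37407090) (dlOf (nat_lit 1) (nat_lit 0x7400090d4e81))))) (.nd (nat_lit 27) 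
(.nd (nat_lit 28) (.lf (nat_lit 3221668210) (dlOf (nat_lit 1) (nat_lit 0x1400200040008170782))) 
(.lf (nat_lit 805749106) (dlOf (nat_lit 3) (nat_lit 0x300140089702000c00a004448181a0780)))) 
(.lf (nat_lit 134660466) (dlOf (nat_lit 2) (nat_lit 0xbb00a801fc00800d80080078002003a0008090783))))) 
(.nd (nat_lit 27) (.nd (nat_lit 11) 
(.lf (nat_lit 2483208562) (dlOf (nat_lit 1) (nat_lit 0x400200020008090782))) (.nd (nat_lit 12) 
(.lf (nat_lit 5436000626) (dlOf (nat_lit 8) (nat_lit 0xe011006e381000300880370c08004004401b5e04001c02200dae02000e011006d68100070088036a808000804401b2a040008004000a0008094e82))) 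
(.lf (nat_lit 2751650162) (dlOf (nat_lit 1) (nat_lit 0x4002800ad01))))) (.nd (nat_lit 18) 
(.lf (nat_lit 2348990834) (dlOf (nat_lit 1) (nat_lit 0x360008090781))) (.nd (nat_lit 28) 
(.lf (nat_lit 201769330) (dlOf (nat_lit 2) (nat_lit 0x1b80000191604006800200200008090782))) 
(.lf (nat_lit 4228301170) (dlOf (nat_lit 4) (nat_lit 0x78080007f002001a040003f3810009020001f8808005000800a400200500008090783)))))))) 
(.nd (nat_lit 8) (.nd (nat_lit 12) (.nd (nat_lit 19) (.nd (nat_lit 9) (.nd (nat_lit 26) 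
(.lf (nat_lit 805748978) (dlOf (nat_lit 1) (nat_lit 0x2000281a0481))) 
(.lf (nat_lit 1678164210) (dlOf (nat_lit 1) (nat_lit 0x2000281a0481)))) 
(.lf (nat_lit 4160930546) (dlOf (nat_lit 1) (nat_lit 0x4004000200080a2102)))) (.nd (nat_lit 9) 
(.nd (nat_lit 23) (.lf (nat_lit 473612530) (dlOf (nat_lit 1) (nat_lit 0x38004000a0008f61e82))) 
(.lf (nat_lit 29016306) (dlOf (nat_lit 1) (nat_lit 0x8008000400200020008da0603)))) 
(.lf (nat_lit 8046322) (dlOf (nat_lit 1) (nat_lit 0x8008000400200020008513b83))))) 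
(.nd (nat_lit 27) (.nd (nat_lit 9) 
(.lf (nat_lit 3758282994) (dlOf (nat_lit 1) (nat_lit 0x2001812a901))) (.nd (nat_lit 10) 
(.lf (nat_lit 19845874) (dlOf (nat_lit 2) (nat_lit 0x1b42800018040004004000400089d8f02))) 
(.lf (nat_lit 3020084978) (dlOf (nat_lit 1) (nat_lit 0x100040006000812a002))))) (.nd (nat_lit 26) 
(.nd (nat_lit 28) (.lf (nat_lit 3355628786) (dlOf (nat_lit 1) (nat_lit 0x10004000e00080a9502))) 
(.lf (nat_lit 4160935154) (dlOf (nat_lit 1) (nat_lit 0x200280a9501)))) 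
(.lf (nat_lit 3422737650) (dlOf (nat_lit 1) (nat_lit 0x4004000200080a9502)))))) (.nd (nat_lit 20) 
(.nd (nat_lit 26) (.nd (nat_lit 27) (.nd (nat_lit 9) 
(.lf (nat_lit 1610793458) (dlOf (nat_lit 1) (nat_lit 0x360018091401))) 
(.lf (nat_lit 1881326578) (dlOf (nat_lit 1) (nat_lit 0x400400020008e82882)))) (.nd (nat_lit 10) 
(.lf (nat_lit 134660594) (dlOf (nat_lit 3) (nat_lit 0x280bc0040c04076803202cc01200020000002f4180db8008046000200080008090d83))) 
(.lf (nat_lit 4160935410) (dlOf (nat_lit 1) (nat_lit 0x4004000400080a9c02))))) (.nd (nat_lit 11) 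
(.nd (nat_lit 18) 
(.lf (nat_lit 2483208690) (dlOf (nat_lit 2) (nat_lit 0x2f002a010f014000100400017a0c0024004000c0018090d82))) 
(.lf (nat_lit 1409729010) (dlOf (nat_lit 2) (nat_lit 0x20a02d8004016006e406e000bd06000a0018090d81)))) 
(.lf (nat_lit 2751650290) (dlOf (nat_lit 1) (nat_lit 0x1c004000e000800b282))))) (.nd (nat_lit 9) 
(.nd (nat_lit 31) (.nd (nat_lit 11) 
(.lf (nat_lit 8045042) (dlOf (nat_lit 1) (nat_lit 0x8008000400200020008511403))) 
(.lf (nat_lit 37407218) (dlOf (nat_lit 1) (nat_lit 0x8002000200090d4f02)))) (.nd (nat_lit 18) 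
(.lf (nat_lit 3491414514) (dlOf (nat_lit 2) (nat_lit 0x588b40017a04001000200020008090d82))) 
(.lf (nat_lit 2755576306) (dlOf (nat_lit 2) (nat_lit 0x140cc0007e02000200181b0d81))))) 
(.nd (nat_lit 11) (.lf (nat_lit 1880540146) (dlOf (nat_lit 1) (nat_lit 0x1200289e2881))) 
(.lf (nat_lit 20106226) (dlOf (nat_lit 1) (nat_lit 0x4004000200089d5f02))))))))) (.nd (nat_lit 18) 
(.nd (nat_lit 26) (.nd (nat_lit 21) (.nd (nat_lit 29) (.nd (nat_lit 19) (.nd (nat_lit 6) 
(.nd (nat_lit 9) (.lf (nat_lit 134463538) (dlOf (nat_lit 1) (nat_lit 0x400400020008030d02))) 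
(.nd (nat_lit 27) (.lf (nat_lit 268683826) (dlOf (nat_lit 1) (nat_lit 0x1000080e5181))) 
(.lf (nat_lit 5503175218) (dlOf (nat_lit 1) (nat_lit 0x80018095181))))) (.nd (nat_lit 8) 
(.lf (nat_lit 4440306) (dlOf (nat_lit 1) (nat_lit 0xc00400020008290702))) 
(.lf (nat_lit 39045618) (dlOf (nat_lit 1) (nat_lit 0x720009194f01))))) (.nd (nat_lit 22) 
(.nd (nat_lit 23) 
(.lf (nat_lit 18595890) (dlOf (nat_lit 3) (nat_lit 0x751be002869a000c1f600016c18013a37c0006e04000400400220018950802))) 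
(.lf (nat_lit 10207282) (dlOf (nat_lit 1) (nat_lit 0x200085c0d01)))) (.nd (nat_lit 20) 
(.lf (nat_lit 13353010) (dlOf (nat_lit 4) (nat_lit 0x16c0000001b0100110000000d00806480000005a04000c00200060008720f82))) 
(.lf (nat_lit 22790194) (dlOf (nat_lit 9) (nat_lit 0x32b780002e04001d5bc0001602000eade0000701000656f00003008002ab7800115b40000604000cade0000281000656f00001008003ab780000004003000400020018b20e02)))))) 
(.nd (nat_lit 27) (.nd (nat_lit 8) (.nd (nat_lit 9) 
(.lf (nat_lit 537641010) (dlOf (nat_lit 19) (nat_lit 0x5f00d6001806800f500000013c180b881ac03700d001e80000002603011603580012c08046816802c80ae003804a00800110040007001c0024000480c011405a00ae02b80418088011003800047080b8c052001e025000c00cc0040024000450800fa05a00a202b8350014800700940016040001801980640088003803800ec0120002209006c02d004a015c1a480a4001e04a00180198061808801bc024000430e00fc05a008102b800d812801580380004208013205a009902b806b8088037403801c60000002005008702d0043815c006006600aa0220001f0400190198000f408044016802ec0ae003403300210040000f0200118148000760401d40b400e805700b9011005e80700304000000380a01f20000001a8100c60000000d008033816802680ae003003300030110000cc2004080080a4c002001e00080e0683)))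 
(.lf (nat_lit 4026778162) (dlOf (nat_lit 6) (nat_lit 0x1d0100005002c00044080048040000a00b000048200170100006002c0000a080028040000010200200200002005800000100108008014c00200860008090f03)))) 
(.nd (nat_lit 6) 
(.lf (nat_lit 4026778034) (dlOf (nat_lit 6) (nat_lit 0xe00f0070a81007a01f804c809c01fc04c00e8021006c00f003a004801d002200a20090067688006f013803c8098019c03c00dc012006f0088033b02803d80fc027004e00fa026006b00f0039004801bc02200ce30c00f003f005f0138041809801dc03c00c8012006c008803388300900008014c002042a0008090783))) 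
(.lf (nat_lit 4026777970) (dlOf (nat_lit 2) (nat_lit 0x56012006e640806f0008005800200040008090783))))) 
(.nd (nat_lit 9) (.nd (nat_lit 31) 
(.lf (nat_lit 939769906) (dlOf (nat_lit 2) (nat_lit 0x3000000274080028008000c00200040008170d03))) 
(.lf (nat_lit 3087253554) (dlOf (nat_lit 2) (nat_lit 0x800000164040014004001e0008160602)))) 
(.nd (nat_lit 30) (.lf (nat_lit 4966304306) (dlOf (nat_lit 1) (nat_lit 0x460018095181))) 
(.lf (nat_lit 1745078834) (dlOf (nat_lit 1) (nat_lit 0xa0028095181))))))) (.nd (nat_lit 20) 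
(.nd (nat_lit 22) (.nd (nat_lit 19) (.nd (nat_lit 6) 
(.lf (nat_lit 10731570) (dlOf (nat_lit 1) (nat_lit 0x8008000400200080008620683))) 
(.lf (nat_lit 2343026) (dlOf (nat_lit 1) (nat_lit 0x280008150081)))) (.nd (nat_lit 23) 
(.lf (nat_lit 3492528178) (dlOf (nat_lit 2) (nat_lit 0x1c1eb00070e90001f81000900080060002004400080d0b83))) 
(.lf (nat_lit 11255858) (dlOf (nat_lit 8) (nat_lit 0xe5630000b0100072b180005408004958c0001c04001cac6000c3d5000060200032b18001157c0014ab60000606000e563000020100082b1800000083cc800801fc002015a0008680e03))))) 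
(.nd (nat_lit 23) (.nd (nat_lit 8) 
(.lf (nat_lit 23314994) (dlOf (nat_lit 1) (nat_lit 0x400200020008b80f02))) 
(.lf (nat_lit 6537522) (dlOf (nat_lit 1) (nat_lit 0x10008001000200080008420703)))) 
(.nd (nat_lit 10) 
(.lf (nat_lit 14925874) (dlOf (nat_lit 2) (nat_lit 0x18c000001bd0200160018790481))) 
(.lf (nat_lit 48481330) (dlOf (nat_lit 1) (nat_lit 0x18002000a0009402882)))))) (.nd (nat_lit 6) 
(.nd (nat_lit 7) (.nd (nat_lit 8) 
(.lf (nat_lit 36948530) (dlOf (nat_lit 1) (nat_lit 0x20009075181))) 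
(.lf (nat_lit 3391794) (dlOf (nat_lit 2) (nat_lit 0x81ec8000e0080008008001000200040008200503)))) 
(.lf (nat_lit 11780274) (dlOf (nat_lit 1) (nat_lit 0x800286c0301)))) (.nd (nat_lit 7) 
(.nd (nat_lit 8) (.lf (nat_lit 20173426) (dlOf (nat_lit 1) (nat_lit 0x4002000200089d8982))) 
(.lf (nat_lit 62112114) (dlOf (nat_lit 1) (nat_lit 0x280009955801)))) (.nd (nat_lit 11) 
(.lf (nat_lit 8111858) (dlOf (nat_lit 1) (nat_lit 0x400400020008513b82))) 
(.lf (nat_lit 8113906) (dlOf (nat_lit 1) (nat_lit 0x8008000400200020008517483)))))))) 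
(.nd (nat_lit 27) (.nd (nat_lit 6) (.nd (nat_lit 28) (.nd (nat_lit 9) (.nd (nat_lit 19) 
(.lf (nat_lit 3825451058) (dlOf (nat_lit 2) (nat_lit 0x8000001c4040014004001e0008160602))) 
(.lf (nat_lit 2754330674) (dlOf (nat_lit 2) (nat_lit 0x1c1fd00070f38001f81000900080060002004400080d0b83)))) 
(.lf (nat_lit 3288580658) (dlOf (nat_lit 6) (nat_lit 0x1d0100005002c0004e080048040000a00b000048200170100006002c0000a080028040000010200200200002005800000100108008014c00200860008090f03)))) 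
(.nd (nat_lit 9) (.nd (nat_lit 10) 
(.lf (nat_lit 1410056242) (dlOf (nat_lit 19) (nat_lit 0x5f00d6001806800f500000013c180b881ac03700d001e80000002603011603580012c08046816802c80ae003804a00800110040007001c0024000480c011405a00ae02b80418088011003800047080b8c052001e025000c00cc0040024000450800fa05a00a202b8350014800700940016040001801980640088003803800ec0120002209006c02d004a015c1a480a4001e04a00180198061808801bc024000430e00fc05a008102b800d812801580380004208013205a009902b806b8088037403801c60000002005008702d0043815c006006600aa0220001f0400190198000f408044016802ec0ae003403300210040000f0200118148000760401d40b400e805700b9011005e80700304000000380a01f20000001a8100c60000000d008033816802680ae003003300030110000cc2004080080a4c002001e00080e0683))) 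
(.lf (nat_lit 872662066) (dlOf (nat_lit 1) (nat_lit 0x800400020008092882)))) 
(.lf (nat_lit 5704500786) (dlOf (nat_lit 2) (nat_lit 0x1809000058040020004000200180d3782))))) 
(.nd (nat_lit 8) (.nd (nat_lit 21) 
(.lf (nat_lit 2483273842) (dlOf (nat_lit 2) (nat_lit 0x80a8021c020001e60400020028090081))) 
(.lf (nat_lit 2753806450) (dlOf (nat_lit 4) (nat_lit 0x7400000212020024154000ff81003a0aa807c855003ec29e01ec13c000209c007d04dc0638000001f80e006a0028090081)))) 
(.nd (nat_lit 7) 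
(.lf (nat_lit 3288580466) (dlOf (nat_lit 2) (nat_lit 0x2cc01e007f00200020008090781))) 
(.lf (nat_lit 3288580594) (dlOf (nat_lit 3) (nat_lit 0x80020000a70100020200332008c00e003e00ce00c00010050002f428365800800e000213ce0008090d83)))))) 
(.nd (nat_lit 6) (.nd (nat_lit 28) (.nd (nat_lit 10) (.nd (nat_lit 29) 
(.lf (nat_lit 201572402) (dlOf (nat_lit 1) (nat_lit 0x400400020008030d02))) 
(.lf (nat_lit 1812185138) (dlOf (nat_lit 2) (nat_lit 0x3000000274080028008000c00200040008170d03)))) 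
(.lf (nat_lit 2885927986) (dlOf (nat_lit 1) (nat_lit 0x40028142881)))) (.nd (nat_lit 8) 
(.lf (nat_lit 1543750194) (dlOf (nat_lit 2) (nat_lit 0x600500035818158000))) 
(.lf (nat_lit 6376112434) (dlOf (nat_lit 2) (nat_lit 0xc13500220868000d8100050008000c002001a0008090b03))))) 
(.nd (nat_lit 7) (.nd (nat_lit 8) 
(.lf (nat_lit 2349056114) (dlOf (nat_lit 2) (nat_lit 0x80a8021c020001f80400020028090081))) 
(.lf (nat_lit 1008978802) (dlOf (nat_lit 1) (nat_lit 0x360009005c01)))) (.nd (nat_lit 10) 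
(.lf (nat_lit 4496539890) (dlOf (nat_lit 1) (nat_lit 0x28002000800080e0a82))) 
(.lf (nat_lit 2080621810) (dlOf (nat_lit 1) (nat_lit 0x20028092e81)))))))) (.nd (nat_lit 6) 
(.nd (nat_lit 19) (.nd (nat_lit 8) (.nd (nat_lit 30) (.nd (nat_lit 24) (.nd (nat_lit 9) 
(.lf (nat_lit 4563911730) (dlOf (nat_lit 1) (nat_lit 0x400400020008122882))) 
(.lf (nat_lit 470270514) (dlOf (nat_lit 2) (nat_lit 0xf892400028040004004001200080c0f02)))) 
(.nd (nat_lit 21) 
(.lf (nat_lit 21479474) (dlOf (nat_lit 2) (nat_lit 0x384ec00064040028002000a0008a40382))) 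
(.lf (nat_lit 19382322) (dlOf (nat_lit 1) (nat_lit 0x18008000400200020008990c03))))) 
(.nd (nat_lit 9) (.nd (nat_lit 20) 
(.lf (nat_lit 3557277746) (dlOf (nat_lit 9) (nat_lit 0x501740008a040cb80f0057c072043003081f201780b440840b0c03f0002086033603c01d101c811340c207d405e02d002102c780fc00080180ce00f0074207203e103081f601780b280840b2c03f0001f06033803c016501c810cc0c207be05e02d402102c900fc0007a1810f40c20b1c03f0001b82045603082c900fc0006c0800380e20884061040a03001ba8174002408a0b2003f005000c800000380370008070000203180008190983))) 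
(.lf (nat_lit 1343733810) (dlOf (nat_lit 5) (nat_lit 0x202b8001c1490046097001f8390000b61000801760003702000c09d000120100200b280020538001413a000408e00000048350800)))) 
(.lf (nat_lit 1342685746) (dlOf (nat_lit 2) (nat_lit 0xf892400026040004004001200080c0f02))))) 
(.nd (nat_lit 7) (.nd (nat_lit 26) 
(.lf (nat_lit 3624386866) (dlOf (nat_lit 3) (nat_lit 0x180360002802001403e00011018187a80))) 
(.lf (nat_lit 2886189362) (dlOf (nat_lit 2) (nat_lit 0x1803e0025c818188400)))) (.nd (nat_lit 23) 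
(.lf (nat_lit 472369586) (dlOf (nat_lit 1) (nat_lit 0x1800400040008984e82))) 
(.lf (nat_lit 44550578) (dlOf (nat_lit 1) (nat_lit 0x40029324e81)))))) (.nd (nat_lit 21) 
(.nd (nat_lit 26) (.nd (nat_lit 23) 
(.lf (nat_lit 17809458) (dlOf (nat_lit 1) (nat_lit 0x400288f0f01))) 
(.lf (nat_lit 9420850) (dlOf (nat_lit 1) (nat_lit 0x20018550701)))) (.nd (nat_lit 9) 
(.lf (nat_lit 68141106) (dlOf (nat_lit 3) (nat_lit 0x6300000071c0806c00000037a04061000200140008400482))) 
(.lf (nat_lit 2752496178) (dlOf (nat_lit 1) (nat_lit 0x20028018b01))))) (.nd (nat_lit 8) 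
(.nd (nat_lit 9) 
(.lf (nat_lit 61850674) (dlOf (nat_lit 2) (nat_lit 0xb38800e0a04004000200180009922882))) 
(.lf (nat_lit 41929266) (dlOf (nat_lit 2) (nat_lit 0x225680022c0801d800800e0002003a0009245183)))) 
(.lf (nat_lit 8377650) (dlOf (nat_lit 1) (nat_lit 0x10008001c00200080008519883)))))) 
(.nd (nat_lit 7) (.nd (nat_lit 20) (.nd (nat_lit 26) (.nd (nat_lit 8) (.nd (nat_lit 22) 
(.lf (nat_lit 134725746) (dlOf (nat_lit 10) (nat_lit 0xe8015000f101009100780038000002ca080424082008a03d00ee01d004880cc002be10006c0740015e02000e043001501f800200e8002840c0014086000603f000801d0005041801a80fc00980740013d040226043013b01f807b00e8003806a01720130009c05002a01d800b00d80000008000c00400ca0018090082))) 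
(.lf (nat_lit 55033970) (dlOf (nat_lit 1) (nat_lit 0xa0029690d81)))) 
(.lf (nat_lit 61326706) (dlOf (nat_lit 1) (nat_lit 0x48004003c0009923502)))) (.nd (nat_lit 27) 
(.lf (nat_lit 4362584178) (dlOf (nat_lit 1) (nat_lit 0x60008090081))) (.nd (nat_lit 28) 
(.lf (nat_lit 201834610) (dlOf (nat_lit 10) (nat_lit 0xe80160010201009100700038000002d2080424082008a03d00ee01d004880cc002aa10006c0740015402000e043001501f800200e8002840c0014086000603f000801d0005041801a80fc00980740013d040226043013b01f807b00e8003806a01720130009c05002a01d800b00d80000008000c00400ca0018090082))) 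
(.lf (nat_lit 4228366450) (dlOf (nat_lit 1) (nat_lit 0x60008090081)))))) (.nd (nat_lit 19) 
(.lf (nat_lit 3653746) (dlOf (nat_lit 1) (nat_lit 0x20008004000200080008211603))) (.nd (nat_lit 21) 
(.lf (nat_lit 1344258162) (dlOf (nat_lit 1) (nat_lit 0x400400020008520282))) 
(.lf (nat_lit 3493838962) (dlOf (nat_lit 2) (nat_lit 0x3a0f9000fd0181b0080)))))) (.nd (nat_lit 19) 
(.nd (nat_lit 8) (.nd (nat_lit 10) 
(.lf (nat_lit 25673970) (dlOf (nat_lit 1) (nat_lit 0x400200020008c10702))) 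
(.lf (nat_lit 8897778) (dlOf (nat_lit 1) (nat_lit 0x1000400080008512e82)))) (.nd (nat_lit 9) 
(.lf (nat_lit 43501042) (dlOf (nat_lit 1) (nat_lit 0x100080008002000200092a3603))) 
(.nd (nat_lit 20) (.lf (nat_lit 6377948146) (dlOf (nat_lit 1) (nat_lit 0xa00180e2881))) 
(.lf (nat_lit 68666354) (dlOf (nat_lit 1) (nat_lit 0x200028662881)))))) (.nd (nat_lit 11) 
(.nd (nat_lit 8) (.lf (nat_lit 7323890) (dlOf (nat_lit 1) (nat_lit 0x4004000200084b0602))) 
(.lf (nat_lit 55559154) (dlOf (nat_lit 1) (nat_lit 0x118002000200096d2882)))) (.nd (nat_lit 12) 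
(.lf (nat_lit 1345309170) (dlOf (nat_lit 1) (nat_lit 0x2600018b54f01))) 
(.lf (nat_lit 3492796914) (dlOf (nat_lit 1) (nat_lit 0x200280fb281)))))))))) (.nd (nat_lit 16) 
(.nd (nat_lit 6) (.nd (nat_lit 30) (.nd (nat_lit 19) (.nd (nat_lit 31) (.nd (nat_lit 21) 
(.nd (nat_lit 11) (.nd (nat_lit 18) 
(.lf (nat_lit 25346106) (dlOf (nat_lit 1) (nat_lit 0x160008bf0b81))) 
(.lf (nat_lit 33996858) (dlOf (nat_lit 1) (nat_lit 0x40018f90581)))) (.nd (nat_lit 7) 
(.lf (nat_lit 186426) (dlOf (nat_lit 2) (nat_lit 0x1ac17001853f002bbc10000800802200020002000800a603))) 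
(.lf (nat_lit 738380730) (dlOf (nat_lit 4) (nat_lit 0x340540003b02001202a0001381000100c000000080220008015c00200580008095d03))))) 
(.nd (nat_lit 8) (.nd (nat_lit 9) 
(.lf (nat_lit 24297530) (dlOf (nat_lit 1) (nat_lit 0x20018b90b81))) 
(.lf (nat_lit 2277946) (dlOf (nat_lit 1) (nat_lit 0x110008000400200180008151003)))) 
(.lf (nat_lit 40289594) (dlOf (nat_lit 1) (nat_lit 0x4004000200091f3282))))) (.nd (nat_lit 18) 
(.nd (nat_lit 7) (.nd (nat_lit 9) 
(.lf (nat_lit 6442631226) (dlOf (nat_lit 1) (nat_lit 0x6400400380008110682))) 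
(.lf (nat_lit 2751650362) (dlOf (nat_lit 3) (nat_lit 0xec20f0003f81037e107800785a0000f6080008004002c000800b402)))) 
(.lf (nat_lit 2147664058) (dlOf (nat_lit 1) (nat_lit 0x4004000200080c1982)))) (.nd (nat_lit 7) 
(.nd (nat_lit 21) 
(.lf (nat_lit 2886123578) (dlOf (nat_lit 3) (nat_lit 0x3e8000000d004001408200b0036000201a003100000000010013c00200040008160682))) 
(.lf (nat_lit 2754003002) (dlOf (nat_lit 2) (nat_lit 0x20340000640800380080008002001000080b1583)))) 
(.lf (nat_lit 2751907770) (dlOf (nat_lit 1) (nat_lit 0x20018004381)))))) (.nd (nat_lit 22) 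
(.nd (nat_lit 9) (.nd (nat_lit 20) (.nd (nat_lit 26) 
(.lf (nat_lit 134922298) (dlOf (nat_lit 2) (nat_lit 0x2c03b000000180e0780))) 
(.lf (nat_lit 202031162) (dlOf (nat_lit 2) (nat_lit 0x3803b000000180e0780)))) 
(.lf (nat_lit 10141754) (dlOf (nat_lit 1) (nat_lit 0x1c004001200085b0682)))) (.nd (nat_lit 8) 
(.nd (nat_lit 11) 
(.lf (nat_lit 2753479226) (dlOf (nat_lit 6) (nat_lit 0xc1d700030e180007410004875c000c3860001c0400041d700020e180006c10004875c001c3860001a04003621a00110eb80000010004800801b400200240008091003))) 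
(.lf (nat_lit 45009466) (dlOf (nat_lit 1) (nat_lit 0x40008000400200120009325203)))) 
(.lf (nat_lit 19843898) (dlOf (nat_lit 1) (nat_lit 0x4002000200089d5c02))))) (.nd (nat_lit 7) 
(.nd (nat_lit 9) (.nd (nat_lit 8) 
(.lf (nat_lit 8048698) (dlOf (nat_lit 1) (nat_lit 0x8008000400200020008517c83))) 
(.lf (nat_lit 8049978) (dlOf (nat_lit 1) (nat_lit 0x400200020008519902)))) (.nd (nat_lit 11) 
(.lf (nat_lit 24035898) (dlOf (nat_lit 1) (nat_lit 0x68008000400200020008b81003))) 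
(.lf (nat_lit 8051258) (dlOf (nat_lit 1) (nat_lit 0x280040008000851b402))))) (.nd (nat_lit 8) 
(.lf (nat_lit 8049338) (dlOf (nat_lit 1) (nat_lit 0x20028518c81))) 
(.lf (nat_lit 8050618) (dlOf (nat_lit 1) (nat_lit 0x80020002000851a502))))))) (.nd (nat_lit 31) 
(.nd (nat_lit 26) (.nd (nat_lit 32) (.nd (nat_lit 18) (.nd (nat_lit 19) 
(.lf (nat_lit 1073922106) (dlOf (nat_lit 2) (nat_lit 0x1a50138059007c000a4080060004001c0008020682))) 
(.lf (nat_lit 1343930426) (dlOf (nat_lit 1) (nat_lit 0x3e0008381181)))) 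
(.lf (nat_lit 1074184250) (dlOf (nat_lit 1) (nat_lit 0x18004000600080d0b82)))) (.nd (nat_lit 7) 
(.lf (nat_lit 5637587002) (dlOf (nat_lit 1) (nat_lit 0x20008111681))) (.nd (nat_lit 8) 
(.lf (nat_lit 5637324986) (dlOf (nat_lit 1) (nat_lit 0x3e00180d0701))) 
(.lf (nat_lit 5637326266) (dlOf (nat_lit 1) (nat_lit 0x2400080d3601)))))) (.nd (nat_lit 8) 
(.nd (nat_lit 18) (.nd (nat_lit 27) 
(.lf (nat_lit 1946337338) (dlOf (nat_lit 2) (nat_lit 0x1a501380590070000a4080060004001c0008020682))) 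
(.lf (nat_lit 5838651450) (dlOf (nat_lit 1) (nat_lit 0x6400400380008110682)))) (.nd (nat_lit 32) 
(.lf (nat_lit 1946599482) (dlOf (nat_lit 1) (nat_lit 0x18004000600080d0b82))) 
(.lf (nat_lit 6241566778) (dlOf (nat_lit 1) (nat_lit 0x20008111681))))) (.nd (nat_lit 7) 
(.nd (nat_lit 10) 
(.lf (nat_lit 1410253114) (dlOf (nat_lit 3) (nat_lit 0xc803a0000940807080000002e040010002000800081b0582))) 
(.lf (nat_lit 1543687482) (dlOf (nat_lit 1) (nat_lit 0x1000200020008146902)))) 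
(.lf (nat_lit 1677903802) (dlOf (nat_lit 1) (nat_lit 0xc0018114381)))))) (.nd (nat_lit 9) 
(.nd (nat_lit 8) (.nd (nat_lit 18) 
(.lf (nat_lit 4228563002) (dlOf (nat_lit 1) (nat_lit 0x80080010002000400080f1383))) 
(.nd (nat_lit 21) 
(.lf (nat_lit 3624321082) (dlOf (nat_lit 3) (nat_lit 0x3e8000000d004001408200b0036000201a003100000000010013c00200040008160682))) 
(.lf (nat_lit 3492200506) (dlOf (nat_lit 2) (nat_lit 0x20340000640800380080008002001000080b1583))))) 
(.nd (nat_lit 10) 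
(.lf (nat_lit 3624059194) (dlOf (nat_lit 2) (nat_lit 0x4200000005c0800180080094002006e00080b0583))) 
(.lf (nat_lit 3825388858) (dlOf (nat_lit 1) (nat_lit 0x20028146901))))) (.nd (nat_lit 8) 
(.nd (nat_lit 18) (.nd (nat_lit 21) 
(.lf (nat_lit 3494036026) (dlOf (nat_lit 1) (nat_lit 0x200081b1001))) 
(.lf (nat_lit 3491938874) (dlOf (nat_lit 5) (nat_lit 0x81c500040d70000741000307140003804003c38a000a1ae0000d0200050e2800000080020008015c00200140008091003)))) 
(.lf (nat_lit 3491676730) (dlOf (nat_lit 6) (nat_lit 0xc1c500030d7000074100048714000c35c0001c0400041c500020d700006c100048714001c35c0001a04003620500110e280000010004800801b400200240008091003)))) 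
(.nd (nat_lit 10) 
(.lf (nat_lit 3221412666) (dlOf (nat_lit 4) (nat_lit 0x1c08c009e002000c046004e601000402300115808057800800100020026000811bc83))) 
(.lf (nat_lit 3758282554) (dlOf (nat_lit 4) (nat_lit 0xb807a0003902000203d000038100260190015809800000080028004000a000812a102)))))))) 
(.nd (nat_lit 7) (.nd (nat_lit 11) (.nd (nat_lit 27) (.nd (nat_lit 8) (.nd (nat_lit 18) 
(.lf (nat_lit 60473466) (dlOf (nat_lit 1) (nat_lit 0x20009870c81))) 
(.lf (nat_lit 21414010) (dlOf (nat_lit 1) (nat_lit 0x1e0018a30c81)))) (.nd (nat_lit 12) 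
(.nd (nat_lit 18) (.lf (nat_lit 3491414394) (dlOf (nat_lit 2) (nat_lit 0x21e60037b018090780))) 
(.lf (nat_lit 805749114) (dlOf (nat_lit 2) (nat_lit 0x80420037b0181a0780)))) 
(.lf (nat_lit 8049018) (dlOf (nat_lit 1) (nat_lit 0x18008001c00200080008518383))))) 
(.nd (nat_lit 9) (.nd (nat_lit 18) (.nd (nat_lit 26) 
(.lf (nat_lit 2818752634) (dlOf (nat_lit 1) (nat_lit 0x40008000400200020008112b03))) 
(.lf (nat_lit 5570216058) (dlOf (nat_lit 1) (nat_lit 0xa0028080b81)))) 
(.lf (nat_lit 6377357434) (dlOf (nat_lit 2) (nat_lit 0x30094000c8040004004000400180c0c82)))) 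
(.nd (nat_lit 18) (.lf (nat_lit 6375523962) (dlOf (nat_lit 1) (nat_lit 0x400200020008003982))) 
(.lf (nat_lit 1476839034) (dlOf (nat_lit 10) (nat_lit 0x18006000144080058030000a00400100180004f02000a009000270100100060001300800580e80084068004c02a0002203001601d000d00d0007c054000430600100000001d01001b01a0000cc0801d80080028002001a0008203983)))))) 
(.nd (nat_lit 8) (.nd (nat_lit 18) (.nd (nat_lit 26) 
(.lf (nat_lit 1345505914) (dlOf (nat_lit 1) (nat_lit 0x20028c95401))) 
(.lf (nat_lit 473090682) (dlOf (nat_lit 1) (nat_lit 0x20028c95401)))) (.nd (nat_lit 9) 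
(.lf (nat_lit 8833146) (dlOf (nat_lit 1) (nat_lit 0xa0018514781))) (.nd (nat_lit 19) 
(.lf (nat_lit 604424826) (dlOf (nat_lit 16) (nat_lit 0x2a03c000401c801000d8002c0460004e08004c03c000501c801600d80009a0c00040460004702000803d003101180030064003c0140004608001a0230002281003001e001f00d8000860800a8078001c039003901b000108180198070000800400600780004039002101b0000f81800380d80007a04005407800440360001e02001501e000e80d800076080050078003c036001a0118000dc1800a00f000dc06c0003304000e042001b01f8000bc100200008004000200020008205403))) 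
(.lf (nat_lit 54446714) (dlOf (nat_lit 2) (nat_lit 0x64cc00023019655400)))))) (.nd (nat_lit 9) 
(.nd (nat_lit 12) (.lf (nat_lit 45009274) (dlOf (nat_lit 1) (nat_lit 0x40029324e81))) 
(.nd (nat_lit 19) (.lf (nat_lit 2751650170) (dlOf (nat_lit 1) (nat_lit 0x40040002000800ae82))) 
(.lf (nat_lit 8051066) (dlOf (nat_lit 1) (nat_lit 0x800800040020002000851ae83))))) 
(.nd (nat_lit 10) (.lf (nat_lit 6241307514) (dlOf (nat_lit 1) (nat_lit 0x14002000400080d5c02))) 
(.lf (nat_lit 3758280570) (dlOf (nat_lit 3) (nat_lit 0x1780d40139c04005806a009cd0200020028127781))))))) 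
(.nd (nat_lit 9) (.nd (nat_lit 8) (.nd (nat_lit 24) (.nd (nat_lit 11) 
(.lf (nat_lit 3556950266) (dlOf (nat_lit 1) (nat_lit 0x23800201520008117082))) 
(.lf (nat_lit 3959605498) (dlOf (nat_lit 2) (nat_lit 0x803700032818114b80)))) (.nd (nat_lit 19) 
(.lf (nat_lit 20103418) (dlOf (nat_lit 2) (nat_lit 0x119820004e0189d0a80))) 
(.lf (nat_lit 51036410) (dlOf (nat_lit 1) (nat_lit 0x4004000200094f2902))))) (.nd (nat_lit 11) 
(.nd (nat_lit 12) (.lf (nat_lit 2277882) (dlOf (nat_lit 1) (nat_lit 0x400200020008150d82))) 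
(.lf (nat_lit 8049146) (dlOf (nat_lit 1) (nat_lit 0x10008001000200060008518683)))) 
(.nd (nat_lit 10) (.nd (nat_lit 22) 
(.lf (nat_lit 37407226) (dlOf (nat_lit 1) (nat_lit 0xac00090d4f81))) 
(.lf (nat_lit 33212922) (dlOf (nat_lit 1) (nat_lit 0x400200020008f54f82)))) 
(.lf (nat_lit 1543687674) (dlOf (nat_lit 4) (nat_lit 0x140340001602001a01a0000281000300d000010080098008002c00200020008146f83)))))) 
(.nd (nat_lit 11) (.nd (nat_lit 8) (.nd (nat_lit 10) 
(.lf (nat_lit 3355628282) (dlOf (nat_lit 1) (nat_lit 0x600280a8f81))) 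
(.lf (nat_lit 2752169722) (dlOf (nat_lit 1) (nat_lit 0x40028003b81)))) (.nd (nat_lit 10) 
(.nd (nat_lit 21) (.lf (nat_lit 38454266) (dlOf (nat_lit 1) (nat_lit 0x8008000400200020009132883))) 
(.lf (nat_lit 36357114) (dlOf (nat_lit 1) (nat_lit 0x40019072881)))) 
(.lf (nat_lit 3959609338) (dlOf (nat_lit 1) (nat_lit 0x20002002a000811a602))))) (.nd (nat_lit 18) 
(.nd (nat_lit 26) (.lf (nat_lit 1345506298) (dlOf (nat_lit 1) (nat_lit 0x20028c95f01))) 
(.lf (nat_lit 473091066) (dlOf (nat_lit 4) (nat_lit 0x2302ca000320200a81650001881004e0b28000c00800700080024002006e0008c95f03)))) 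
(.nd (nat_lit 8) (.lf (nat_lit 57068282) (dlOf (nat_lit 2) (nat_lit 0x722e0002a0200100009795a01))) 
(.nd (nat_lit 20) 
(.lf (nat_lit 604425210) (dlOf (nat_lit 1) (nat_lit 0xb000800d8002006e0008205f03))) 
(.lf (nat_lit 60214266) (dlOf (nat_lit 1) (nat_lit 0x4000400060019845f02)))))))))) 
(.nd (nat_lit 18) (.nd (nat_lit 6) (.nd (nat_lit 26) (.nd (nat_lit 7) (.nd (nat_lit 28) 
(.nd (nat_lit 8) (.nd (nat_lit 19) (.nd (nat_lit 27) 
(.lf (nat_lit 537116730) (dlOf (nat_lit 4) (nat_lit 0x2f80e40392069038102e81cd01500e2008a001e02e00500158023805c0c5c00000052120002072003d034807d817404900b0014c057011c02a00838128042008a023e03c000d01b803200d800740560002022000100f802e0070000c02e0034001003a00000012c9000701600006004003c00400120018020682))) 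
(.lf (nat_lit 134463546) (dlOf (nat_lit 1) (nat_lit 0x20028030d01)))) 
(.lf (nat_lit 21741626) (dlOf (nat_lit 2) (nat_lit 0x294ea00358fb80032e74009c77a00023a700041d280010d8000046b20004351002718d80138af4009c576000c279002713b8011897400903fc0004b20000a0028a70681)))) 
(.lf (nat_lit 2343226) (dlOf (nat_lit 1) (nat_lit 0x20018150581)))) (.nd (nat_lit 19) 
(.nd (nat_lit 27) 
(.lf (nat_lit 1342423098) (dlOf (nat_lit 9) (nat_lit 0x421d200020e480098720042838e02c01bd00640db802f05f004202f400541790002e0900020f2000b074802a838e01121bd00730db805305e4000b41802442f80284179000290200c60d8806886c0035830e01d012200e80858076841402400de01a606600e8032807300000009628029c38e000400200de1c7002b0de803706dc000700c03f438e01f61bd00740db801506d803cc33801e417a005e0bc80009038019872404c038e02201bd00a60db809486d800102f8025c17a00980bc8000884009a800809ec0020c6a0008020683))) 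
(.lf (nat_lit 3087253562) (dlOf (nat_lit 3) (nat_lit 0x934000000680204cc00a026200400ac80040988000000000800020008160681)))) 
(.lf (nat_lit 3492528186) (dlOf (nat_lit 1) (nat_lit 0x180080010002003800080d0b83))))) 
(.nd (nat_lit 8) (.nd (nat_lit 10) 
(.lf (nat_lit 9683130) (dlOf (nat_lit 1) (nat_lit 0x40018571701))) 
(.lf (nat_lit 61064378) (dlOf (nat_lit 2) (nat_lit 0x1199c00008040020004000400098c2c82)))) 
(.nd (nat_lit 20) (.lf (nat_lit 4026778042) (dlOf (nat_lit 1) (nat_lit 0xe40008090801))) 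
(.lf (nat_lit 41140666) (dlOf (nat_lit 1) (nat_lit 0x400400060019226f82)))))) (.nd (nat_lit 29) 
(.nd (nat_lit 7) (.nd (nat_lit 27) 
(.lf (nat_lit 1409531962) (dlOf (nat_lit 4) (nat_lit 0x2f80e40392069038102e81cd01500e20084001e02e0050015802380500c5c00000052120002072003d034807d817404900b0014c057011c02a008381280420084023e03c000d01b803200d800740560002022000100f802e0070000c0280034001003a00000012c9000701600006004003c00400120018020682))) 
(.nd (nat_lit 28) (.lf (nat_lit 201572410) (dlOf (nat_lit 1) (nat_lit 0x20028030d01))) 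
(.lf (nat_lit 470007866) (dlOf (nat_lit 9) (nat_lit 0x421d200020e480098720042838e02c01bd00640db802f0618042030600541820002e0900020f2000b074802a838e01121bd00730db80530608000b418024430c0284182000290200c60d5006886a4035830e01d012200e80848076840c034c0da01d006c0090032807300000009628029c38e000400200de1c7002b0de803706dc000700c03f438e01f61bd00740db801506d803cc33401e4183005e0c100009038019872404c038e02201bd00a60db809486d8001030c025c18300980c10000884009a800809ec0020c6a0008020683))))) 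
(.nd (nat_lit 9) (.lf (nat_lit 3288580538) (dlOf (nat_lit 1) (nat_lit 0xe40008090801))) 
(.lf (nat_lit 4362853306) (dlOf (nat_lit 1) (nat_lit 0xe000811be01))))) (.nd (nat_lit 9) 
(.nd (nat_lit 19) 
(.lf (nat_lit 3825451066) (dlOf (nat_lit 3) (nat_lit 0x934000000680204cc00a026200400ac80040988000000000800020008160681))) 
(.lf (nat_lit 2754330682) (dlOf (nat_lit 1) (nat_lit 0x180080010002003800080d0b83)))) 
(.nd (nat_lit 8) (.lf (nat_lit 2755904058) (dlOf (nat_lit 1) (nat_lit 0xe00081b1001))) 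
(.lf (nat_lit 4899195706) (dlOf (nat_lit 1) (nat_lit 0x4002001400080d5c02))))))) (.nd (nat_lit 8) 
(.nd (nat_lit 7) (.nd (nat_lit 27) (.nd (nat_lit 19) 
(.lf (nat_lit 2483273850) (dlOf (nat_lit 1) (nat_lit 0x40008090081))) 
(.lf (nat_lit 4094410874) (dlOf (nat_lit 1) (nat_lit 0x60018050281)))) (.nd (nat_lit 9) 
(.lf (nat_lit 2349056122) (dlOf (nat_lit 1) (nat_lit 0x40008090081))) 
(.lf (nat_lit 1208207994) (dlOf (nat_lit 1) (nat_lit 0x8008000400200020008095403))))) 
(.nd (nat_lit 19) (.nd (nat_lit 22) (.nd (nat_lit 29) 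
(.lf (nat_lit 4496539898) (dlOf (nat_lit 1) (nat_lit 0x4004000200080e0a82))) 
(.lf (nat_lit 738443514) (dlOf (nat_lit 1) (nat_lit 0x400200020008090a82)))) 
(.lf (nat_lit 2755903738) (dlOf (nat_lit 2) (nat_lit 0x40a20006050000e50281b0480)))) 
(.nd (nat_lit 10) (.nd (nat_lit 21) 
(.lf (nat_lit 9158906) (dlOf (nat_lit 1) (nat_lit 0x400200020008524602))) 
(.lf (nat_lit 6378209530) (dlOf (nat_lit 1) (nat_lit 0x2c0028127081)))) 
(.lf (nat_lit 5772133626) (dlOf (nat_lit 1) (nat_lit 0x20018092e81)))))) (.nd (nat_lit 11) 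
(.nd (nat_lit 10) (.nd (nat_lit 22) (.nd (nat_lit 26) 
(.lf (nat_lit 671334906) (dlOf (nat_lit 1) (nat_lit 0xe40008157e01))) 
(.lf (nat_lit 1543750138) (dlOf (nat_lit 5) (nat_lit 0x26011800c8080014b60800ec0460058020002100c00020014014b41000a00460032020001d00c00068014014b21000a80460038020001b00c0028ec180280008023000201940008157803)))) 
(.lf (nat_lit 3494101498) (dlOf (nat_lit 1) (nat_lit 0x1000081b0d81)))) (.nd (nat_lit 12) 
(.lf (nat_lit 61588986) (dlOf (nat_lit 1) (nat_lit 0x160009923681))) 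
(.lf (nat_lit 2281952762) (dlOf (nat_lit 1) (nat_lit 0x3c00180a9c01))))) (.nd (nat_lit 7) 
(.nd (nat_lit 12) 
(.lf (nat_lit 6107154810) (dlOf (nat_lit 1) (nat_lit 0x10008007c00200020008094e83))) 
(.lf (nat_lit 8116602) (dlOf (nat_lit 1) (nat_lit 0x800800040020002000851ae83)))) (.nd (nat_lit 9) 
(.lf (nat_lit 39045626) (dlOf (nat_lit 1) (nat_lit 0x140029194f81))) 
(.lf (nat_lit 20696058) (dlOf (nat_lit 1) (nat_lit 0x4004000200089d5f02)))))))) (.nd (nat_lit 8) 
(.nd (nat_lit 26) (.nd (nat_lit 21) (.nd (nat_lit 9) (.nd (nat_lit 20) 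
(.lf (nat_lit 1611120698) (dlOf (nat_lit 1) (nat_lit 0x200180e1681))) (.nd (nat_lit 22) 
(.lf (nat_lit 9945146) (dlOf (nat_lit 1) (nat_lit 0x50008003000200240008591683))) 
(.lf (nat_lit 30916666) (dlOf (nat_lit 2) (nat_lit 0x129a00003604004800400220008e50c82))))) 
(.nd (nat_lit 6) (.lf (nat_lit 8902330) (dlOf (nat_lit 1) (nat_lit 0x40020002000851a002))) 
(.lf (nat_lit 8898170) (dlOf (nat_lit 1) (nat_lit 0x800400020008513982))))) (.nd (nat_lit 19) 
(.nd (nat_lit 22) (.lf (nat_lit 2605114) (dlOf (nat_lit 1) (nat_lit 0x12a0008170b81))) 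
(.lf (nat_lit 23576634) (dlOf (nat_lit 1) (nat_lit 0x400400020008b80002)))) (.nd (nat_lit 9) 
(.lf (nat_lit 61850682) (dlOf (nat_lit 1) (nat_lit 0x60019922881))) 
(.lf (nat_lit 3129914) (dlOf (nat_lit 1) (nat_lit 0x6a0008201001)))))) (.nd (nat_lit 20) 
(.nd (nat_lit 7) (.nd (nat_lit 10) (.nd (nat_lit 21) 
(.lf (nat_lit 738705466) (dlOf (nat_lit 1) (nat_lit 0x200180e1681))) 
(.lf (nat_lit 1009238074) (dlOf (nat_lit 1) (nat_lit 0x30002002800090a0582)))) 
(.lf (nat_lit 604488762) (dlOf (nat_lit 1) (nat_lit 0x3000282d2881)))) 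
(.lf (nat_lit 2886189242) (dlOf (nat_lit 2) (nat_lit 0x204100523018185200)))) (.nd (nat_lit 6) 
(.nd (nat_lit 7) (.lf (nat_lit 4095197242) (dlOf (nat_lit 1) (nat_lit 0x83c002000c0008070482))) 
(.lf (nat_lit 471843002) (dlOf (nat_lit 1) (nat_lit 0x8008000400200020008520383)))) 
(.lf (nat_lit 6376901242) (dlOf (nat_lit 2) (nat_lit 0x403a00007018095400)))))) (.nd (nat_lit 6) 
(.nd (nat_lit 21) (.nd (nat_lit 27) (.nd (nat_lit 7) 
(.lf (nat_lit 4362584378) (dlOf (nat_lit 1) (nat_lit 0x1d800800b400200180008090583))) 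
(.lf (nat_lit 2751973306) (dlOf (nat_lit 1) (nat_lit 0x400200020008004382)))) (.nd (nat_lit 28) 
(.lf (nat_lit 2886189370) (dlOf (nat_lit 2) (nat_lit 0x280f80008a04000c002001c0008188502))) 
(.lf (nat_lit 4228366650) (dlOf (nat_lit 1) (nat_lit 0x1d800800b400200180008090583))))) 
(.nd (nat_lit 10) (.nd (nat_lit 7) 
(.lf (nat_lit 19909434) (dlOf (nat_lit 1) (nat_lit 0x4002000200089d5c02))) 
(.lf (nat_lit 1345831354) (dlOf (nat_lit 2) (nat_lit 0x508b80047c080068008002000200060008e06f83)))) 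
(.nd (nat_lit 11) (.lf (nat_lit 57656634) (dlOf (nat_lit 1) (nat_lit 0x2c0019793281))) 
(.lf (nat_lit 20434234) (dlOf (nat_lit 1) (nat_lit 0x200289d6901)))))) (.nd (nat_lit 7) 
(.nd (nat_lit 11) (.nd (nat_lit 19) 
(.lf (nat_lit 537379194) (dlOf (nat_lit 1) (nat_lit 0xd80008090781))) 
(.lf (nat_lit 4178298) (dlOf (nat_lit 1) (nat_lit 0x400400020008290b02)))) (.nd (nat_lit 21) 
(.lf (nat_lit 3490171258) (dlOf (nat_lit 1) (nat_lit 0x400200020008004e82))) 
(.lf (nat_lit 40356218) (dlOf (nat_lit 1) (nat_lit 0xe00291f4e81))))) (.nd (nat_lit 9) 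
(.nd (nat_lit 12) (.lf (nat_lit 3490693626) (dlOf (nat_lit 1) (nat_lit 0x60018017801))) 
(.lf (nat_lit 512506) (dlOf (nat_lit 1) (nat_lit 0x3a0028008681)))) 
(.lf (nat_lit 60279802) (dlOf (nat_lit 1) (nat_lit 0x20029845f01)))))))))))

end

end Pool.Agent.Lib.MP_5854e1_co.Cz

namespace Pool.Agent.Lib.MP_5854e1_co.Cz

noncomputable section

noncomputable def tz212 : DT := (.nd (nat_lit 16) (.nd (nat_lit 17) (.nd (nat_lit 18) 
(.nd (nat_lit 28) (.nd (nat_lit 6) (.nd (nat_lit 5) (.nd (nat_lit 19) (.nd (nat_lit 10) 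
(.nd (nat_lit 7) (.lf (nat_lit 2752528406) (dlOf (nat_lit 1) (nat_lit 0x20028020481))) 
(.nd (nat_lit 22) (.lf (nat_lit 1610631574) (dlOf (nat_lit 1) (nat_lit 0x800200020008004e82))) 
(.lf (nat_lit 37767574) (dlOf (nat_lit 1) (nat_lit 0x4004000200190d4e82))))) (.nd (nat_lit 11) 
(.nd (nat_lit 7) (.lf (nat_lit 1207977494) (dlOf (nat_lit 2) (nat_lit 0x120170001c818003700))) 
(.lf (nat_lit 3355464854) (dlOf (nat_lit 4) (nat_lit 0xc4005006e002001a081004b80c8009402400ce0030027483001e009001b000c009b008006000400060018009502)))) 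
(.nd (nat_lit 20) (.lf (nat_lit 3288353942) (dlOf (nat_lit 1) (nat_lit 0x400400020008006202))) 
(.lf (nat_lit 2754628758) (dlOf (nat_lit 1) (nat_lit 0x200080f6201)))))) (.nd (nat_lit 21) 
(.nd (nat_lit 26) (.nd (nat_lit 8) 
(.lf (nat_lit 134758422) (dlOf (nat_lit 2) (nat_lit 0x40820191d02000200080b0901))) 
(.lf (nat_lit 1074282774) (dlOf (nat_lit 2) (nat_lit 0x1003d000800000073010009800801f4002002c00081b0483)))) 
(.nd (nat_lit 27) (.lf (nat_lit 1678262294) (dlOf (nat_lit 1) (nat_lit 0x10002000c00081c0582))) 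
(.lf (nat_lit 201867286) (dlOf (nat_lit 2) (nat_lit 0x408201c6a02000200080b0901))))) 
(.nd (nat_lit 23) (.nd (nat_lit 8) 
(.lf (nat_lit 3686422) (dlOf (nat_lit 1) (nat_lit 0x200018210881))) 
(.lf (nat_lit 52970774) (dlOf (nat_lit 1) (nat_lit 0x20029573081)))) (.nd (nat_lit 22) 
(.lf (nat_lit 27803670) (dlOf (nat_lit 2) (nat_lit 0x15522000170080010008003400200080008d20403))) 
(.lf (nat_lit 15220758) (dlOf (nat_lit 2) (nat_lit 0x1ea3a80023a04005c004005800087c0482))))))) 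
(.nd (nat_lit 30) (.nd (nat_lit 8) (.nd (nat_lit 23) (.nd (nat_lit 27) 
(.lf (nat_lit 2684370998) (dlOf (nat_lit 1) (nat_lit 0x100018000001))) 
(.lf (nat_lit 2281717814) (dlOf (nat_lit 1) (nat_lit 0x2a0018000001)))) (.nd (nat_lit 10) 
(.lf (nat_lit 15220790) (dlOf (nat_lit 1) (nat_lit 0x54004006200087c0802))) 
(.lf (nat_lit 41960502) (dlOf (nat_lit 2) (nat_lit 0xabfc00317819242880))))) (.nd (nat_lit 7) 
(.nd (nat_lit 10) (.lf (nat_lit 4362094902) (dlOf (nat_lit 1) (nat_lit 0xc00400040018004c02))) 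
(.lf (nat_lit 8410422) (dlOf (nat_lit 1) (nat_lit 0x10008000400200020008519903)))) 
(.lf (nat_lit 5033184182) (dlOf (nat_lit 1) (nat_lit 0x1400400080008005d02))))) (.nd (nat_lit 9) 
(.nd (nat_lit 7) (.nd (nat_lit 19) 
(.lf (nat_lit 5368725558) (dlOf (nat_lit 1) (nat_lit 0xd0002011e0008000002))) 
(.lf (nat_lit 1678262326) (dlOf (nat_lit 1) (nat_lit 0x48008006c002003800081c0b03)))) 
(.lf (nat_lit 3355464886) (dlOf (nat_lit 2) (nat_lit 0x16006002ff818009500)))) (.nd (nat_lit 27) 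
(.nd (nat_lit 8) 
(.lf (nat_lit 5435835958) (dlOf (nat_lit 3) (nat_lit 0x6c07c0000a02003603e000401d0000181000d0008004c002003e0008003783))) 
(.lf (nat_lit 1073760054) (dlOf (nat_lit 1) (nat_lit 0x8008000400200020008003e03)))) 
(.nd (nat_lit 7) (.lf (nat_lit 6106924598) (dlOf (nat_lit 1) (nat_lit 0x240008003781))) 
(.lf (nat_lit 3422569142) (dlOf (nat_lit 2) (nat_lit 0x203000009818001e00)))))))) (.nd (nat_lit 9) 
(.nd (nat_lit 5) (.nd (nat_lit 7) (.nd (nat_lit 19) (.nd (nat_lit 8) 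
(.lf (nat_lit 4362098774) (dlOf (nat_lit 1) (nat_lit 0xc002800a781))) 
(.lf (nat_lit 30425430) (dlOf (nat_lit 1) (nat_lit 0x1800800c000200600008e30883)))) 
(.nd (nat_lit 26) 
(.lf (nat_lit 3221766230) (dlOf (nat_lit 1) (nat_lit 0x500080048002000e0008181103))) 
(.lf (nat_lit 3959963734) (dlOf (nat_lit 1) (nat_lit 0x500080048002000e0008181103))))) 
(.nd (nat_lit 10) (.nd (nat_lit 12) 
(.lf (nat_lit 24133846) (dlOf (nat_lit 2) (nat_lit 0x2dd42001f30200020008b80481))) 
(.lf (nat_lit 604000470) (dlOf (nat_lit 1) (nat_lit 0x360008000400200020008008083)))) 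
(.lf (nat_lit 8406230) (dlOf (nat_lit 1) (nat_lit 0x800200060008512d82))))) (.nd (nat_lit 8) 
(.nd (nat_lit 19) (.lf (nat_lit 3162358) (dlOf (nat_lit 1) (nat_lit 0x80028200481))) 
(.nd (nat_lit 20) 
(.lf (nat_lit 1074282742) (dlOf (nat_lit 2) (nat_lit 0x1301e801300000039808017c002000e00081b0482))) 
(.lf (nat_lit 12075254) (dlOf (nat_lit 1) (nat_lit 0x4004000200086c0482))))) (.nd (nat_lit 7) 
(.lf (nat_lit 4362099062) (dlOf (nat_lit 1) (nat_lit 0x6000800ad81))) 
(.lf (nat_lit 2348833270) (dlOf (nat_lit 1) (nat_lit 0x1800800080020004000800b283)))))) 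
(.nd (nat_lit 19) (.nd (nat_lit 24) (.nd (nat_lit 7) 
(.lf (nat_lit 2214609750) (dlOf (nat_lit 1) (nat_lit 0xf400200bc0008002502))) (.nd (nat_lit 29) 
(.lf (nat_lit 5435835350) (dlOf (nat_lit 1) (nat_lit 0x400400120008002882))) 
(.lf (nat_lit 4898964438) (dlOf (nat_lit 1) (nat_lit 0x400200020008002882))))) (.nd (nat_lit 5) 
(.nd (nat_lit 21) (.lf (nat_lit 62931926) (dlOf (nat_lit 1) (nat_lit 0x600299a2881))) 
(.lf (nat_lit 60834774) (dlOf (nat_lit 1) (nat_lit 0xc004000200098c2882)))) 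
(.lf (nat_lit 19942006) (dlOf (nat_lit 1) (nat_lit 0x80080004002000200089d5403))))) 
(.nd (nat_lit 26) (.nd (nat_lit 5) (.nd (nat_lit 21) 
(.lf (nat_lit 8930262) (dlOf (nat_lit 1) (nat_lit 0x800400060008512882))) 
(.lf (nat_lit 52970454) (dlOf (nat_lit 1) (nat_lit 0x20029572881)))) 
(.lf (nat_lit 61359734) (dlOf (nat_lit 1) (nat_lit 0x18008004400200080009923983)))) 
(.nd (nat_lit 5) (.nd (nat_lit 10) 
(.lf (nat_lit 2752005078) (dlOf (nat_lit 1) (nat_lit 0x20018002881))) 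
(.lf (nat_lit 2752006102) (dlOf (nat_lit 3) (nat_lit 0x760d4002a06480190294000260c00c819a00640a800008028004500)))) 
(.lf (nat_lit 2752005110) (dlOf (nat_lit 1) (nat_lit 0x20018002881)))))))) (.nd (nat_lit 5) 
(.nd (nat_lit 7) (.nd (nat_lit 29) (.nd (nat_lit 10) (.nd (nat_lit 6) (.nd (nat_lit 20) 
(.lf (nat_lit 3493871638) (dlOf (nat_lit 3) (nat_lit 0x2a0538069140801b029c03486040004004000600181b0002))) 
(.lf (nat_lit 3490725910) (dlOf (nat_lit 1) (nat_lit 0x20028020481)))) 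
(.lf (nat_lit 469784662) (dlOf (nat_lit 1) (nat_lit 0x40020002000800a782)))) (.nd (nat_lit 6) 
(.nd (nat_lit 11) 
(.lf (nat_lit 1342198806) (dlOf (nat_lit 1) (nat_lit 0x70008001c002001c0008009203))) 
(.lf (nat_lit 6710905878) (dlOf (nat_lit 1) (nat_lit 0x400200020008005f82)))) 
(.lf (nat_lit 1409310038) (dlOf (nat_lit 1) (nat_lit 0x1b80020076000800c902))))) (.nd (nat_lit 26) 
(.nd (nat_lit 8) (.nd (nat_lit 19) 
(.lf (nat_lit 2013282326) (dlOf (nat_lit 1) (nat_lit 0x1c0018000001))) 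
(.lf (nat_lit 805847062) (dlOf (nat_lit 5) (nat_lit 0xb027800400e00040808001c080001a102000c052001401f0002c8100130108001c044001c00e000f0020001cc2001580080094002001800081c0583)))) 
(.lf (nat_lit 2952810262) (dlOf (nat_lit 1) (nat_lit 0xb8008001c002001c0008007483)))) 
(.nd (nat_lit 6) (.nd (nat_lit 30) 
(.lf (nat_lit 1007173654) (dlOf (nat_lit 1) (nat_lit 0x400400020018210402))) 
(.lf (nat_lit 4228399126) (dlOf (nat_lit 2) (nat_lit 0xb800000000040004002000200080b0582)))) 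
(.lf (nat_lit 1946697814) (dlOf (nat_lit 2) (nat_lit 0x201f0000000800400080020002000800081b0003)))))) 
(.nd (nat_lit 6) (.nd (nat_lit 9) (.nd (nat_lit 8) (.nd (nat_lit 11) 
(.lf (nat_lit 2617267350) (dlOf (nat_lit 2) (nat_lit 0x24005e004e90200040018009501))) 
(.lf (nat_lit 1946176662) (dlOf (nat_lit 1) (nat_lit 0xe4004005a0008006202)))) 
(.lf (nat_lit 1346914710) (dlOf (nat_lit 1) (nat_lit 0x400190a4e81)))) (.nd (nat_lit 11) 
(.lf (nat_lit 1476416150) (dlOf (nat_lit 1) (nat_lit 0x400200020008008c82))) 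
(.lf (nat_lit 5771905686) (dlOf (nat_lit 1) (nat_lit 0x1c00200060008005502))))) (.nd (nat_lit 9) 
(.nd (nat_lit 8) (.lf (nat_lit 1342201046) (dlOf (nat_lit 1) (nat_lit 0x8c0020036000800c382))) 
(.nd (nat_lit 10) (.lf (nat_lit 1342200278) (dlOf (nat_lit 1) (nat_lit 0x4002800b201))) 
(.lf (nat_lit 1342197206) (dlOf (nat_lit 1) (nat_lit 0x400200020008006d02))))) (.nd (nat_lit 26) 
(.nd (nat_lit 29) (.lf (nat_lit 5637161942) (dlOf (nat_lit 1) (nat_lit 0x800400040008002882))) 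
(.lf (nat_lit 4026549206) (dlOf (nat_lit 1) (nat_lit 0x40028002881)))) 
(.lf (nat_lit 4093658070) (dlOf (nat_lit 1) (nat_lit 0x20028002881))))))) (.nd (nat_lit 9) 
(.nd (nat_lit 8) (.nd (nat_lit 26) (.nd (nat_lit 10) (.nd (nat_lit 19) 
(.lf (nat_lit 6710902838) (dlOf (nat_lit 1) (nat_lit 0x8008000400200020008000003))) 
(.lf (nat_lit 805847094) (dlOf (nat_lit 1) (nat_lit 0x48008006c002003800081c0b03)))) 
(.lf (nat_lit 2550156342) (dlOf (nat_lit 1) (nat_lit 0x1c0028006081)))) (.nd (nat_lit 6) 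
(.nd (nat_lit 7) 
(.lf (nat_lit 472400950) (dlOf (nat_lit 1) (nat_lit 0xd0008003c00200080008982883))) 
(.lf (nat_lit 471351478) (dlOf (nat_lit 1) (nat_lit 0x230002001600082e0482)))) 
(.lf (nat_lit 1946697974) (dlOf (nat_lit 2) (nat_lit 0x1301f001300000039808017c002000e00081b0482))))) 
(.nd (nat_lit 6) (.nd (nat_lit 10) (.nd (nat_lit 26) 
(.lf (nat_lit 1342718262) (dlOf (nat_lit 1) (nat_lit 0x10008000c002000400080c0583))) 
(.lf (nat_lit 470303030) (dlOf (nat_lit 1) (nat_lit 0x10008000c002000400080c0583)))) 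
(.lf (nat_lit 469785910) (dlOf (nat_lit 2) (nat_lit 0x1704e8003d4080040008006c002000c000800c803)))) 
(.nd (nat_lit 11) (.lf (nat_lit 6375358838) (dlOf (nat_lit 1) (nat_lit 0x20018001001))) 
(.lf (nat_lit 469784950) (dlOf (nat_lit 1) (nat_lit 0x280020014000800ad82)))))) (.nd (nat_lit 27) 
(.nd (nat_lit 10) (.nd (nat_lit 6) (.nd (nat_lit 8) 
(.lf (nat_lit 1342198454) (dlOf (nat_lit 1) (nat_lit 0x800400020008008c82))) 
(.lf (nat_lit 6710905782) (dlOf (nat_lit 1) (nat_lit 0x400400020008005d02)))) 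
(.lf (nat_lit 2952811510) (dlOf (nat_lit 2) (nat_lit 0x3e018004e7818009200)))) (.nd (nat_lit 6) 
(.nd (nat_lit 29) (.lf (nat_lit 2415937334) (dlOf (nat_lit 1) (nat_lit 0x400400020008003e02))) 
(.lf (nat_lit 4026550070) (dlOf (nat_lit 1) (nat_lit 0x400400020008003e02)))) 
(.lf (nat_lit 1342197494) (dlOf (nat_lit 1) (nat_lit 0x17c0018007481))))) (.nd (nat_lit 6) 
(.nd (nat_lit 7) (.lf (nat_lit 5838489398) (dlOf (nat_lit 1) (nat_lit 0x20018003e01))) 
(.nd (nat_lit 8) (.lf (nat_lit 469783222) (dlOf (nat_lit 1) (nat_lit 0x800400020008008c82))) 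
(.lf (nat_lit 5301619638) (dlOf (nat_lit 3) (nat_lit 0x2801f00003c0801c80f8000000400d800400260008005d02))))) 
(.nd (nat_lit 7) 
(.lf (nat_lit 2617267830) (dlOf (nat_lit 3) (nat_lit 0x60170000340800100b80000204000400400020008009d02))) 
(.nd (nat_lit 26) 
(.lf (nat_lit 4697639926) (dlOf (nat_lit 2) (nat_lit 0x60330002017000000100050008003000200080008005f03))) 
(.lf (nat_lit 2080394230) (dlOf (nat_lit 1) (nat_lit 0x20018005f01)))))))))) (.nd (nat_lit 26) 
(.nd (nat_lit 20) (.nd (nat_lit 7) (.nd (nat_lit 28) (.nd (nat_lit 19) (.nd (nat_lit 29) 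
(.nd (nat_lit 23) (.nd (nat_lit 6) 
(.lf (nat_lit 2375702) (dlOf (nat_lit 14) (nat_lit 0x5aa9f80349604048182e0222c00012253f008b29b4034761003d982e01fec0000f853f007da9b40347210025582e0218c00010e53f008629b4034521004294fc019f1020050c17002b53f0067bc10018305c031d4fc002ea6d00cf703000853f0067b40806b29f8033ca0402d94fc019e1020240c17010c6000090a9f804694da019dc080220c17010e600008829f804354da019da080160c170048600005629f8000000c002800400140018150002))) 
(.lf (nat_lit 2376022) (dlOf (nat_lit 1) (nat_lit 0x1600080070002001e0008150683)))) 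
(.nd (nat_lit 5) 
(.lf (nat_lit 44318742) (dlOf (nat_lit 3) (nat_lit 0x4c6400046170001a8200013190000985c00000080014004000c00192f0302))) 
(.lf (nat_lit 12861494) (dlOf (nat_lit 1) (nat_lit 0x54004002a00086e0b02))))) (.nd (nat_lit 8) 
(.nd (nat_lit 5) (.lf (nat_lit 671367190) (dlOf (nat_lit 1) (nat_lit 0x400400020008170882))) 
(.lf (nat_lit 671367222) (dlOf (nat_lit 6) (nat_lit 0xdc03e001e602005c02501b500f80073410006807c0039604057003e001a3020008025001d00f8002041000880080114002001a0008170d03)))) 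
(.nd (nat_lit 12) 
(.lf (nat_lit 5905858838) (dlOf (nat_lit 2) (nat_lit 0x5012801300080040008002000200440008154003))) 
(.lf (nat_lit 2818855190) (dlOf (nat_lit 1) (nat_lit 0x460028128081)))))) (.nd (nat_lit 6) 
(.nd (nat_lit 5) (.lf (nat_lit 135020566) (dlOf (nat_lit 1) (nat_lit 0x1c004000e00081b0002))) 
(.nd (nat_lit 8) (.lf (nat_lit 19681334) (dlOf (nat_lit 1) (nat_lit 0xc00289d7c81))) 
(.lf (nat_lit 51134774) (dlOf (nat_lit 2) (nat_lit 0xe7420030380800800080024002000a0009507b03))))) 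
(.nd (nat_lit 21) (.nd (nat_lit 24) 
(.lf (nat_lit 9191510) (dlOf (nat_lit 1) (nat_lit 0x400200060008530702))) 
(.lf (nat_lit 59523158) (dlOf (nat_lit 2) (nat_lit 0x267b0001272800094100178008000c00200220009800803)))) 
(.lf (nat_lit 7094358) (dlOf (nat_lit 1) (nat_lit 0x4004000200184b0302)))))) (.nd (nat_lit 29) 
(.nd (nat_lit 5) (.nd (nat_lit 6) 
(.lf (nat_lit 1342455830) (dlOf (nat_lit 2) (nat_lit 0x13e15400444818030880))) 
(.lf (nat_lit 402931798) (dlOf (nat_lit 1) (nat_lit 0x200280b0701)))) (.nd (nat_lit 6) 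
(.lf (nat_lit 1342455862) (dlOf (nat_lit 3) (nat_lit 0xb3124805587c0011438e00941bd000aa040004124800250080098008000c00200220008030d03))) 
(.lf (nat_lit 5772165494) (dlOf (nat_lit 4) (nat_lit 0xd0478006423a0016104003211c0004e81001208e000238080058008000400200060008091003))))) 
(.nd (nat_lit 31) (.nd (nat_lit 5) 
(.lf (nat_lit 1879326742) (dlOf (nat_lit 10) (nat_lit 0x180ae0016054000b02880040138002d21000340ae0020054000802780078138002d01000480ae0026054000202700059c18003013c0018c04002809e00023020006057000d02a00070144002409c00018080014057000b02a00060144002c09c00017080022057000e02a00030144001809c00016080024057000e02a00070144002c09c0001508001a00080e0581))) 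
(.lf (nat_lit 805584950) (dlOf (nat_lit 1) (nat_lit 0x1000400020008130702)))) (.nd (nat_lit 27) 
(.lf (nat_lit 2953068566) (dlOf (nat_lit 2) (nat_lit 0x19c0000000002000200280f0481))) 
(.lf (nat_lit 3087286294) (dlOf (nat_lit 1) (nat_lit 0x22c00400900008170882))))))) (.nd (nat_lit 6) 
(.nd (nat_lit 8) (.nd (nat_lit 5) (.nd (nat_lit 10) 
(.lf (nat_lit 134496406) (dlOf (nat_lit 1) (nat_lit 0x400400020008044002))) 
(.lf (nat_lit 52708502) (dlOf (nat_lit 1) (nat_lit 0x60029572b81)))) (.nd (nat_lit 21) 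
(.lf (nat_lit 4563681462) (dlOf (nat_lit 11) (nat_lit 0x3ac068013401501160090007000c001c610019c068012c0150007102005401a00498054001c208025002a000e002006c0150005c01006500a8002040803d005401e80240007604011e015007c0090001d41004d805401d00240007404012e01500750090001cc1003180084ad0002009200080c1703))) 
(.lf (nat_lit 19153078) (dlOf (nat_lit 1) (nat_lit 0x8008002000200020008970483))))) 
(.nd (nat_lit 10) (.nd (nat_lit 11) 
(.lf (nat_lit 4697899414) (dlOf (nat_lit 4) (nat_lit 0xfb00cc001402a00c1304005e03300609010020019802ca40804000080090002009200080c6483))) 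
(.lf (nat_lit 54806934) (dlOf (nat_lit 1) (nat_lit 0x720009654e81)))) 
(.lf (nat_lit 1610892694) (dlOf (nat_lit 1) (nat_lit 0xe0028093601))))) (.nd (nat_lit 28) 
(.nd (nat_lit 21) (.nd (nat_lit 29) 
(.lf (nat_lit 279510) (dlOf (nat_lit 1) (nat_lit 0xc00400020008002882))) 
(.lf (nat_lit 1610892246) (dlOf (nat_lit 1) (nat_lit 0x20018092881)))) (.nd (nat_lit 5) 
(.lf (nat_lit 2375894) (dlOf (nat_lit 2) (nat_lit 0x75368006cc080018008013c00200220008150483))) 
(.lf (nat_lit 36455414) (dlOf (nat_lit 1) (nat_lit 0x5c00200280009072882))))) (.nd (nat_lit 5) 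
(.nd (nat_lit 8) 
(.lf (nat_lit 4563681494) (dlOf (nat_lit 3) (nat_lit 0x388050000340400300280001802002000080c1c01))) 
(.lf (nat_lit 1344553942) (dlOf (nat_lit 1) (nat_lit 0x128008000400200220008862883)))) 
(.nd (nat_lit 8) 
(.lf (nat_lit 3494134006) (dlOf (nat_lit 2) (nat_lit 0x180a2000a050000e60281b0480))) 
(.lf (nat_lit 5771643894) (dlOf (nat_lit 1) (nat_lit 0x100018005f01)))))))) (.nd (nat_lit 19) 
(.nd (nat_lit 21) (.nd (nat_lit 5) (.nd (nat_lit 28) (.nd (nat_lit 6) 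
(.lf (nat_lit 1327126) (dlOf (nat_lit 1) (nat_lit 0x100080008002000200080b0483))) 
(.lf (nat_lit 26493014) (dlOf (nat_lit 1) (nat_lit 0x64002001e0008c50782)))) (.nd (nat_lit 7) 
(.lf (nat_lit 1343504406) (dlOf (nat_lit 1) (nat_lit 0x40028280401))) 
(.lf (nat_lit 3490988182) (dlOf (nat_lit 1) (nat_lit 0x8008000400200020008044003))))) 
(.nd (nat_lit 8) 
(.lf (nat_lit 22298678) (dlOf (nat_lit 2) (nat_lit 0xb25b8001580800680080084002000c0008ac0683))) 
(.lf (nat_lit 9716022) (dlOf (nat_lit 1) (nat_lit 0x40018574c01))))) (.nd (nat_lit 5) 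
(.nd (nat_lit 7) (.nd (nat_lit 22) 
(.lf (nat_lit 62144534) (dlOf (nat_lit 1) (nat_lit 0x20029960001))) 
(.lf (nat_lit 32784406) (dlOf (nat_lit 1) (nat_lit 0x20008f10081)))) 
(.lf (nat_lit 36981142) (dlOf (nat_lit 1) (nat_lit 0x40019074e81)))) (.nd (nat_lit 6) 
(.nd (nat_lit 10) (.lf (nat_lit 20204342) (dlOf (nat_lit 1) (nat_lit 0x4002000200089d5c02))) 
(.lf (nat_lit 3493087030) (dlOf (nat_lit 1) (nat_lit 0x1000800cc002001000080f3e03)))) 
(.lf (nat_lit 3424502) (dlOf (nat_lit 1) (nat_lit 0x3400400180008200482)))))) (.nd (nat_lit 6) 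
(.nd (nat_lit 5) (.nd (nat_lit 21) 
(.lf (nat_lit 22822934) (dlOf (nat_lit 1) (nat_lit 0x200008b30301))) (.nd (nat_lit 23) 
(.lf (nat_lit 3493609494) (dlOf (nat_lit 1) (nat_lit 0x20008180601))) 
(.lf (nat_lit 29114390) (dlOf (nat_lit 1) (nat_lit 0x38008001c00200020008dc0a03))))) 
(.nd (nat_lit 7) (.nd (nat_lit 9) 
(.lf (nat_lit 22822966) (dlOf (nat_lit 5) (nat_lit 0x15a90000ad46006768200086a40006b518019d8080019a90000cd46006718200026a400013518019c408001400400020018b30782))) 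
(.lf (nat_lit 1851958) (dlOf (nat_lit 2) (nat_lit 0x24000000010200020028150f81)))) 
(.lf (nat_lit 1851830) (dlOf (nat_lit 1) (nat_lit 0x1360008150801))))) (.nd (nat_lit 7) 
(.nd (nat_lit 5) (.nd (nat_lit 22) 
(.lf (nat_lit 5773213782) (dlOf (nat_lit 2) (nat_lit 0x3509e803204c400ac2600000006000600080b0701))) 
(.lf (nat_lit 6045782) (dlOf (nat_lit 1) (nat_lit 0x400400020018420302)))) 
(.lf (nat_lit 58476918) (dlOf (nat_lit 1) (nat_lit 0x200297e4e81)))) (.nd (nat_lit 24) 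
(.nd (nat_lit 23) (.lf (nat_lit 39601110) (dlOf (nat_lit 1) (nat_lit 0x1800200020009192882))) 
(.lf (nat_lit 47989718) (dlOf (nat_lit 1) (nat_lit 0x20029402881)))) (.nd (nat_lit 5) 
(.lf (nat_lit 56378326) (dlOf (nat_lit 1) (nat_lit 0x400200020009732882))) 
(.lf (nat_lit 54283254) (dlOf (nat_lit 1) (nat_lit 0x80029655f01))))))))) (.nd (nat_lit 27) 
(.nd (nat_lit 5) (.nd (nat_lit 6) (.nd (nat_lit 19) (.nd (nat_lit 7) (.nd (nat_lit 8) 
(.nd (nat_lit 30) (.lf (nat_lit 604258326) (dlOf (nat_lit 1) (nat_lit 0x20028100481))) 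
(.lf (nat_lit 3825483798) (dlOf (nat_lit 1) (nat_lit 0x22c00400900008170882)))) 
(.lf (nat_lit 6509838614) (dlOf (nat_lit 2) (nat_lit 0x5013002954080040008002000200440008154003)))) 
(.lf (nat_lit 2752790678) (dlOf (nat_lit 1) (nat_lit 0x8008000400200020008044003)))) 
(.nd (nat_lit 20) (.lf (nat_lit 3557572630) (dlOf (nat_lit 1) (nat_lit 0x20028270481))) 
(.lf (nat_lit 2755411990) (dlOf (nat_lit 1) (nat_lit 0x20008180601))))) (.nd (nat_lit 7) 
(.nd (nat_lit 8) (.nd (nat_lit 31) 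
(.lf (nat_lit 335822934) (dlOf (nat_lit 1) (nat_lit 0x200280b0701))) 
(.lf (nat_lit 2483306582) (dlOf (nat_lit 1) (nat_lit 0x4004000a00080a1102)))) 
(.lf (nat_lit 2751743830) (dlOf (nat_lit 2) (nat_lit 0x3057000000040004004000e0018003f02)))) 
(.nd (nat_lit 9) (.lf (nat_lit 6509838806) (dlOf (nat_lit 1) (nat_lit 0x120028157101))) 
(.lf (nat_lit 70009814) (dlOf (nat_lit 1) (nat_lit 0x8008000400200040008e62883)))))) 
(.nd (nat_lit 29) (.nd (nat_lit 32) (.nd (nat_lit 6) (.nd (nat_lit 28) 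
(.lf (nat_lit 67387446) (dlOf (nat_lit 3) (nat_lit 0x96000000de8100e70228043001c002a80800c8004002000180f0482))) 
(.lf (nat_lit 2483306550) (dlOf (nat_lit 1) (nat_lit 0x2c002002800080a0b82)))) 
(.lf (nat_lit 68961270) (dlOf (nat_lit 1) (nat_lit 0x20018842881)))) (.nd (nat_lit 7) 
(.nd (nat_lit 9) (.lf (nat_lit 5436096566) (dlOf (nat_lit 1) (nat_lit 0x2ac004001a00080d0c02))) 
(.lf (nat_lit 6509838902) (dlOf (nat_lit 1) (nat_lit 0x17800200440008158102)))) 
(.lf (nat_lit 4362879158) (dlOf (nat_lit 1) (nat_lit 0x200281a0381))))) (.nd (nat_lit 6) 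
(.nd (nat_lit 28) (.lf (nat_lit 1678000182) (dlOf (nat_lit 1) (nat_lit 0x1000400020008130702))) 
(.lf (nat_lit 3020177462) (dlOf (nat_lit 1) (nat_lit 0x8008000800200020008150483)))) 
(.nd (nat_lit 7) (.lf (nat_lit 6241402998) (dlOf (nat_lit 1) (nat_lit 0x8004000200080e1f02))) 
(.lf (nat_lit 2752790774) (dlOf (nat_lit 1) (nat_lit 0x98008000400200100008047783))))))) 
(.nd (nat_lit 29) (.nd (nat_lit 28) (.nd (nat_lit 6) (.nd (nat_lit 5) 
(.lf (nat_lit 201605270) (dlOf (nat_lit 1) (nat_lit 0x400400020008044002))) 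
(.lf (nat_lit 4496575414) (dlOf (nat_lit 2) (nat_lit 0x480d0007c0660024032000f0180000002000b8008000c002002a00080e5d03)))) 
(.nd (nat_lit 8) (.lf (nat_lit 2349088854) (dlOf (nat_lit 1) (nat_lit 0x4004000a00080a1102))) 
(.lf (nat_lit 201605462) (dlOf (nat_lit 1) (nat_lit 0x400400020008048b02))))) (.nd (nat_lit 5) 
(.nd (nat_lit 20) (.nd (nat_lit 30) 
(.lf (nat_lit 470040598) (dlOf (nat_lit 2) (nat_lit 0x13e15400757018030880))) 
(.lf (nat_lit 1543782422) (dlOf (nat_lit 1) (nat_lit 0x400400020008170882)))) (.nd (nat_lit 19) 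
(.lf (nat_lit 471089174) (dlOf (nat_lit 2) (nat_lit 0x413a000000200020018270481))) 
(.lf (nat_lit 471613462) (dlOf (nat_lit 1) (nat_lit 0x8008001400200040008360403))))) 
(.nd (nat_lit 30) 
(.lf (nat_lit 470040630) (dlOf (nat_lit 3) (nat_lit 0xb3124805587c0011438e00941bd000aa040004124800250080098008000c00200220008030d03))) 
(.lf (nat_lit 1543782454) (dlOf (nat_lit 6) (nat_lit 0xdc03e001e602005c02501b500f80073410006807c0039604057003e001b3020008025001d00f8002041000880080114002001a0008170d03)))))) 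
(.nd (nat_lit 5) (.nd (nat_lit 7) (.nd (nat_lit 6) 
(.lf (nat_lit 4228661270) (dlOf (nat_lit 2) (nat_lit 0x53800000ea4040058002000600081a0002))) 
(.nd (nat_lit 8) 
(.lf (nat_lit 6377193558) (dlOf (nat_lit 2) (nat_lit 0x350980032048800ac2420000006000600080b0701))) 
(.lf (nat_lit 2885962070) (dlOf (nat_lit 2) (nat_lit 0x20208000100801d800800f8002003a0008144e03))))) 
(.nd (nat_lit 10) (.lf (nat_lit 1008485334) (dlOf (nat_lit 1) (nat_lit 0x1800400020008d12882))) 
(.lf (nat_lit 2885961686) (dlOf (nat_lit 4) (nat_lit 0x1900f800bc06e003403500370000000502002e80f8012806e00120350000983002a01b800044080010008009800200180008144503))))) 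
(.nd (nat_lit 7) (.nd (nat_lit 9) 
(.lf (nat_lit 2080653366) (dlOf (nat_lit 1) (nat_lit 0x680080004002001400080a0f83))) 
(.lf (nat_lit 3959702070) (dlOf (nat_lit 1) (nat_lit 0x400400020018128b02)))) (.nd (nat_lit 6) 
(.lf (nat_lit 4228661430) (dlOf (nat_lit 1) (nat_lit 0x200281a0381))) 
(.lf (nat_lit 1009011702) (dlOf (nat_lit 1) (nat_lit 0x20019005f01)))))))))) (.nd (nat_lit 5) 
(.nd (nat_lit 6) (.nd (nat_lit 28) (.nd (nat_lit 18) (.nd (nat_lit 19) (.nd (nat_lit 7) 
(.nd (nat_lit 23) (.nd (nat_lit 26) (.nd (nat_lit 20) 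
(.lf (nat_lit 4966203414) (dlOf (nat_lit 1) (nat_lit 0xc40018040001))) 
(.lf (nat_lit 1196054) (dlOf (nat_lit 1) (nat_lit 0x8008004c00200020008090603)))) (.nd (nat_lit 8) 
(.lf (nat_lit 604127254) (dlOf (nat_lit 2) (nat_lit 0x378114002b004000800400300008030082))) 
(.lf (nat_lit 1275217174) (dlOf (nat_lit 1) (nat_lit 0x20028093081))))) (.nd (nat_lit 20) 
(.nd (nat_lit 21) 
(.lf (nat_lit 25313302) (dlOf (nat_lit 22) (nat_lit 0xf9645408170de01a4c04000d0ce003282800691c1000764540343004064722a040986f00d0b020142c8a8005644404e30de00895a200d0584005bc8a8013e1bc033f808002722a000d86f00cf48202f9c8a812ee1bc030a40800b322a018510205d791501d4c37800e0000030960c013722a0184502002186f00c01810049c8a802de1bc02ff00800ff0de017ee02006986f00bf6010009c90819be454008f0ee052786f00bc000005f882804fe454012f0de017d204000f91500be8010017c8a805f380803f645402f9a04055f22a005f91301a9c37803961b40000010011c00402460018bf0882))) 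
(.lf (nat_lit 10633238) (dlOf (nat_lit 1) (nat_lit 0xc0018600101)))) 
(.lf (nat_lit 47333398) (dlOf (nat_lit 1) (nat_lit 0x2400093d0301))))) (.nd (nat_lit 10) 
(.nd (nat_lit 9) (.lf (nat_lit 5905729686) (dlOf (nat_lit 1) (nat_lit 0x80008144801))) 
(.lf (nat_lit 20075158) (dlOf (nat_lit 1) (nat_lit 0x80080004002000200089d8c83)))) (.nd (nat_lit 8) 
(.lf (nat_lit 6509710486) (dlOf (nat_lit 1) (nat_lit 0xf40018146201))) 
(.lf (nat_lit 8537494) (dlOf (nat_lit 1) (nat_lit 0x400200020008513602)))))) (.nd (nat_lit 20) 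
(.nd (nat_lit 26) (.nd (nat_lit 21) 
(.lf (nat_lit 134889494) (dlOf (nat_lit 3) (nat_lit 0x4003000c258100370208000000800780080010002001000080d0883))) 
(.lf (nat_lit 48906262) (dlOf (nat_lit 1) (nat_lit 0x4c00200160009440082)))) (.nd (nat_lit 10) 
(.nd (nat_lit 27) (.lf (nat_lit 67780630) (dlOf (nat_lit 1) (nat_lit 0x4004000200082e0882))) 
(.lf (nat_lit 201998358) (dlOf (nat_lit 3) (nat_lit 0x4003000de20100370208000000800780080010002001000080d0883)))) 
(.lf (nat_lit 2752136214) (dlOf (nat_lit 1) (nat_lit 0x400200020008002882))))) (.nd (nat_lit 21) 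
(.nd (nat_lit 22) (.lf (nat_lit 10108950) (dlOf (nat_lit 1) (nat_lit 0x5e00085b0481))) 
(.lf (nat_lit 22691862) (dlOf (nat_lit 1) (nat_lit 0x24004001e0008b10502)))) 
(.lf (nat_lit 54149142) (dlOf (nat_lit 1) (nat_lit 0x180080004002000a0009630083)))))) 
(.nd (nat_lit 31) (.nd (nat_lit 7) (.nd (nat_lit 19) (.nd (nat_lit 21) 
(.lf (nat_lit 537280534) (dlOf (nat_lit 2) (nat_lit 0x600c00000004000800400040008070502))) 
(.lf (nat_lit 15089686) (dlOf (nat_lit 1) (nat_lit 0x580080018002001800087b0403)))) 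
(.lf (nat_lit 42876950) (dlOf (nat_lit 1) (nat_lit 0x400200040009280082)))) (.nd (nat_lit 8) 
(.lf (nat_lit 8803478) (dlOf (nat_lit 1) (nat_lit 0xa0008519501))) 
(.lf (nat_lit 50743702) (dlOf (nat_lit 1) (nat_lit 0x180080008002000400094c4e83))))) 
(.nd (nat_lit 26) (.nd (nat_lit 30) 
(.lf (nat_lit 6442860566) (dlOf (nat_lit 1) (nat_lit 0x4002003e00081e0302))) 
(.lf (nat_lit 3221635094) (dlOf (nat_lit 4) (nat_lit 0x102180352c08000810c01a9004000408600d460200040018170001)))) 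
(.nd (nat_lit 29) (.nd (nat_lit 27) 
(.lf (nat_lit 3288743958) (dlOf (nat_lit 12) (nat_lit 0x24018000580880349808006804801a1602006202b001301200210034034160c027c064011e02400d0482000601900070090033c80802900800072030002800f8007807000e8014012a002001d000005f88380070098012a204019002400947020004012004a281000d0090023d40804480c002ac052001e024008e011000000200f400082218002028400080d0883))) 
(.lf (nat_lit 2349219862) (dlOf (nat_lit 5) (nat_lit 0x201a000080c40022008000406800040330003018800200b80021e10001c06800060330007018800380b80021c10001806800060330008018800280b80021a100008004000800081c0882)))) 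
(.nd (nat_lit 7) (.lf (nat_lit 2752397590) (dlOf (nat_lit 1) (nat_lit 0x60008014001))) 
(.lf (nat_lit 2755022486) (dlOf (nat_lit 1) (nat_lit 0x9c002000800080f7202)))))))) 
(.nd (nat_lit 18) (.nd (nat_lit 26) (.nd (nat_lit 8) (.nd (nat_lit 20) (.nd (nat_lit 27) 
(.lf (nat_lit 2952937494) (dlOf (nat_lit 1) (nat_lit 0x98002001c0008030082))) 
(.lf (nat_lit 3624026134) (dlOf (nat_lit 3) (nat_lit 0x19004800c801200d22820016020004c00d8009004800a401200d218480b0000)))) 
(.lf (nat_lit 1343373334) (dlOf (nat_lit 1) (nat_lit 0x20028210401)))) (.nd (nat_lit 7) 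
(.nd (nat_lit 27) 
(.lf (nat_lit 4563550486) (dlOf (nat_lit 5) (nat_lit 0xc8054002d804000802a0014f02000c0120008d810002009000464080308008018400200740008090a83))) 
(.lf (nat_lit 3624026390) (dlOf (nat_lit 1) (nat_lit 0x200280b0481)))) 
(.lf (nat_lit 4697769366) (dlOf (nat_lit 1) (nat_lit 0x2c00400020008093602))))) (.nd (nat_lit 19) 
(.nd (nat_lit 8) (.nd (nat_lit 20) 
(.lf (nat_lit 3691134998) (dlOf (nat_lit 1) (nat_lit 0x54002006c0008050082))) 
(.lf (nat_lit 470958102) (dlOf (nat_lit 1) (nat_lit 0x8008000400200020008210403)))) 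
(.nd (nat_lit 7) (.lf (nat_lit 2617393942) (dlOf (nat_lit 1) (nat_lit 0x400080a2101))) 
(.lf (nat_lit 3556919702) (dlOf (nat_lit 1) (nat_lit 0x4004000200080d4e82))))) (.nd (nat_lit 27) 
(.lf (nat_lit 3557441558) (dlOf (nat_lit 1) (nat_lit 0x20028200401))) (.nd (nat_lit 29) 
(.lf (nat_lit 470433814) (dlOf (nat_lit 2) (nat_lit 0x710f800000080008008005c002003a00080f0303))) 
(.lf (nat_lit 3154788374) (dlOf (nat_lit 2) (nat_lit 0xae00000000018320880))))))) (.nd (nat_lit 31) 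
(.nd (nat_lit 30) (.nd (nat_lit 27) 
(.lf (nat_lit 4563812374) (dlOf (nat_lit 1) (nat_lit 0x200280f0a01))) 
(.lf (nat_lit 4698030102) (dlOf (nat_lit 1) (nat_lit 0x200280f0a01)))) (.nd (nat_lit 20) 
(.nd (nat_lit 26) 
(.lf (nat_lit 5637554198) (dlOf (nat_lit 1) (nat_lit 0x600080014002000a0008100003))) 
(.lf (nat_lit 1409695766) (dlOf (nat_lit 2) (nat_lit 0x600c00000004000800400040008070502)))) 
(.lf (nat_lit 1343635478) (dlOf (nat_lit 1) (nat_lit 0x80080014002000400082d0403))))) 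
(.nd (nat_lit 19) (.nd (nat_lit 26) (.nd (nat_lit 22) 
(.lf (nat_lit 4026941462) (dlOf (nat_lit 12) (nat_lit 0x240180005808803b6208006804801d8402006202b00130120021003403ae40c027c064011e02400eb80200060190007009003a9c0802900800072030002800f8007807000e8014012a002001d000006d3838007009801bea04019002400deb020004012006f481000d0090036640804480c002ac052001e024008e011000000200f400082218002028400080d0883))) 
(.lf (nat_lit 3494264854) (dlOf (nat_lit 2) (nat_lit 0x30250000000802200080098002008000081e0303)))) 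
(.nd (nat_lit 29) (.lf (nat_lit 2617655318) (dlOf (nat_lit 1) (nat_lit 0x2000200100008130302))) 
(.lf (nat_lit 3154526230) (dlOf (nat_lit 2) (nat_lit 0xa02c003090181f0480))))) (.nd (nat_lit 7) 
(.lf (nat_lit 3490595094) (dlOf (nat_lit 1) (nat_lit 0x60008014001))) 
(.lf (nat_lit 3492694166) (dlOf (nat_lit 4) (nat_lit 0x606900220220000c81000c01000004e0400e80cc000205e0024020000080880004c100008004000200080f4802)))))))) 
(.nd (nat_lit 9) (.nd (nat_lit 18) (.nd (nat_lit 27) (.nd (nat_lit 26) (.nd (nat_lit 29) 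
(.nd (nat_lit 28) 
(.lf (nat_lit 5368856662) (dlOf (nat_lit 8) (nat_lit 0x1ec00a0004c02002c015007400280012c1002600140009404013000a000480200ea015004800a000b804400f001c000400800e4015005d00a00110044017c01c0003f0800b601500040070000f81003b0008012400200200008040603))) 
(.lf (nat_lit 6711033942) (dlOf (nat_lit 1) (nat_lit 0x40018040601)))) (.nd (nat_lit 31) 
(.lf (nat_lit 5100421206) (dlOf (nat_lit 1) (nat_lit 0x10008000400200020008070703))) 
(.lf (nat_lit 2952937558) (dlOf (nat_lit 10) (nat_lit 0x80000002781000d01500013008006009c00640420004004004e0000001f01004d0020000e40800d8010000340401bc008000180200a40040000b0100560020000500800d8008007000200780008030783))))) 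
(.nd (nat_lit 19) (.lf (nat_lit 5167530070) (dlOf (nat_lit 2) (nat_lit 0xa0280001d018080600))) 
(.lf (nat_lit 1678393430) (dlOf (nat_lit 2) (nat_lit 0x10012000800500006c1001980080008002000a0008201a03))))) 
(.nd (nat_lit 26) (.nd (nat_lit 8) (.nd (nat_lit 28) 
(.lf (nat_lit 5503074390) (dlOf (nat_lit 8) (nat_lit 0x1ec00a0005302002c0150074002800148100260014000a204013000a0004f0200ea015004800a000b804400f001c000470800e4015005d00a00110044017c01c000460800b601500040070001141003b0008012400200200008040603))) 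
(.lf (nat_lit 1476542550) (dlOf (nat_lit 1) (nat_lit 0x20008050781)))) 
(.lf (nat_lit 671238486) (dlOf (nat_lit 6) (nat_lit 0x240380001602000a0200000a810016012800780880002808002c04a003001c0000282001100e0000100803f800801a400200100008144e03)))) 
(.nd (nat_lit 8) (.nd (nat_lit 28) 
(.lf (nat_lit 6107054166) (dlOf (nat_lit 1) (nat_lit 0x40018040601))) 
(.lf (nat_lit 3691135062) (dlOf (nat_lit 1) (nat_lit 0x240028050781)))) 
(.lf (nat_lit 4228006230) (dlOf (nat_lit 4) (nat_lit 0x1e0200001a008004810000088040098080000420200020018014d01)))))) 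
(.nd (nat_lit 8) (.nd (nat_lit 19) (.nd (nat_lit 22) (.nd (nat_lit 27) 
(.lf (nat_lit 2483437654) (dlOf (nat_lit 2) (nat_lit 0x40080000380800280080038002000400081c1103))) 
(.lf (nat_lit 2349219926) (dlOf (nat_lit 2) (nat_lit 0x40080000900800280080038002000400081c1103)))) 
(.lf (nat_lit 54935638) (dlOf (nat_lit 1) (nat_lit 0x1700080104002004e0009670703)))) 
(.nd (nat_lit 24) (.lf (nat_lit 2753445974) (dlOf (nat_lit 1) (nat_lit 0xc00400020008090002))) 
(.lf (nat_lit 18759766) (dlOf (nat_lit 2) (nat_lit 0x2256900012818970300))))) (.nd (nat_lit 26) 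
(.nd (nat_lit 10) (.nd (nat_lit 20) 
(.lf (nat_lit 3490595158) (dlOf (nat_lit 5) (nat_lit 0x43fa040a1e8000320202090f400018c0801707f407f83d000b415f005809c0001102001787f408143d000ac15f005609c0001082003e800802f000205540008014d03))) 
(.lf (nat_lit 12468566) (dlOf (nat_lit 1) (nat_lit 0x200286c0681)))) 
(.lf (nat_lit 19815766) (dlOf (nat_lit 1) (nat_lit 0x80080164002005200089dc903)))) (.nd (nat_lit 7) 
(.lf (nat_lit 2752397654) (dlOf (nat_lit 5) (nat_lit 0x7083f40006402041a1fa00030810038109010807e8000800800c4424042a1fa00010aa8000fc180620008042400205f00008014e03))) 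
(.nd (nat_lit 27) (.lf (nat_lit 4362486230) (dlOf (nat_lit 2) (nat_lit 0x14c04700000018090a80))) 
(.lf (nat_lit 4228268502) (dlOf (nat_lit 2) (nat_lit 0x14c04000000018090a80)))))))) 
(.nd (nat_lit 18) (.nd (nat_lit 27) (.nd (nat_lit 19) (.nd (nat_lit 7) (.nd (nat_lit 8) 
(.lf (nat_lit 1610761814) (dlOf (nat_lit 1) (nat_lit 0x400200020008093882))) 
(.lf (nat_lit 1409440598) (dlOf (nat_lit 1) (nat_lit 0x40040002000800bc82)))) (.nd (nat_lit 8) 
(.lf (nat_lit 805457622) (dlOf (nat_lit 1) (nat_lit 0x400400020008117382))) 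
(.lf (nat_lit 34751446) (dlOf (nat_lit 1) (nat_lit 0x800400020008fb2882))))) (.nd (nat_lit 21) 
(.nd (nat_lit 22) (.lf (nat_lit 672726) (dlOf (nat_lit 1) (nat_lit 0x400400020008002882))) 
(.lf (nat_lit 38421462) (dlOf (nat_lit 1) (nat_lit 0x400200020009132882)))) 
(.lf (nat_lit 32130006) (dlOf (nat_lit 1) (nat_lit 0x8008000800200020008ef2883))))) 
(.nd (nat_lit 26) (.nd (nat_lit 7) 
(.lf (nat_lit 3355596374) (dlOf (nat_lit 1) (nat_lit 0x600080044002003000080a9c03))) 
(.nd (nat_lit 10) (.lf (nat_lit 2818720726) (dlOf (nat_lit 1) (nat_lit 0xc004000400080d2882))) 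
(.lf (nat_lit 671238102) (dlOf (nat_lit 4) (nat_lit 0x60230018010000700740048030000600500040000000543000a8080002003a0034018001300280004c20001808c0014040001801d000400c000a00140000a140920002000e0008144502))))) 
(.nd (nat_lit 22) (.nd (nat_lit 30) 
(.lf (nat_lit 201475030) (dlOf (nat_lit 1) (nat_lit 0x20028002881))) 
(.lf (nat_lit 1275216854) (dlOf (nat_lit 1) (nat_lit 0x20028092881)))) 
(.lf (nat_lit 474104790) (dlOf (nat_lit 1) (nat_lit 0xe0019082881)))))) (.nd (nat_lit 19) 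
(.nd (nat_lit 26) (.nd (nat_lit 22) 
(.lf (nat_lit 8799190) (dlOf (nat_lit 1) (nat_lit 0x400400020018512882))) 
(.lf (nat_lit 38159318) (dlOf (nat_lit 1) (nat_lit 0x400200200009132882)))) (.nd (nat_lit 28) 
(.lf (nat_lit 2751874006) (dlOf (nat_lit 1) (nat_lit 0x20018002881))) 
(.lf (nat_lit 872825814) (dlOf (nat_lit 1) (nat_lit 0x6600280e2881))))) (.nd (nat_lit 20) 
(.nd (nat_lit 21) (.lf (nat_lit 38683606) (dlOf (nat_lit 1) (nat_lit 0x8008000400200020009132883))) 
(.lf (nat_lit 3492692950) (dlOf (nat_lit 1) (nat_lit 0x200080f2881)))) (.nd (nat_lit 21) 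
(.lf (nat_lit 1344160726) (dlOf (nat_lit 1) (nat_lit 0x80080004002000200083d2883))) 
(.lf (nat_lit 41829334) (dlOf (nat_lit 1) (nat_lit 0xe0029242881))))))))) (.nd (nat_lit 30) 
(.nd (nat_lit 18) (.nd (nat_lit 31) (.nd (nat_lit 7) (.nd (nat_lit 10) (.nd (nat_lit 23) 
(.nd (nat_lit 19) (.nd (nat_lit 26) 
(.lf (nat_lit 268582966) (dlOf (nat_lit 1) (nat_lit 0x20018090481))) 
(.lf (nat_lit 604127286) (dlOf (nat_lit 3) (nat_lit 0x37c0000015102016a043008001a806400d00474052017a01f011d00c8039004804a8000001371000020018030481)))) 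
(.nd (nat_lit 26) 
(.lf (nat_lit 134889526) (dlOf (nat_lit 3) (nat_lit 0x13e031000e881009801880073c0801300080088002003e00080d0b83))) 
(.lf (nat_lit 201998390) (dlOf (nat_lit 3) (nat_lit 0x13e031000e881009801880073c0801300080088002003e00080d0b83))))) 
(.nd (nat_lit 9) (.nd (nat_lit 24) 
(.lf (nat_lit 12730422) (dlOf (nat_lit 1) (nat_lit 0x80080018002000600086e0b03))) 
(.lf (nat_lit 29507638) (dlOf (nat_lit 2) (nat_lit 0x154d00001d0200060008e10881)))) 
(.lf (nat_lit 11682358) (dlOf (nat_lit 1) (nat_lit 0x80080018002002400086c0f83))))) 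
(.nd (nat_lit 6) (.lf (nat_lit 805457206) (dlOf (nat_lit 1) (nat_lit 0xbc0028116881))) 
(.nd (nat_lit 9) (.lf (nat_lit 39994486) (dlOf (nat_lit 1) (nat_lit 0x2800191f2a01))) 
(.lf (nat_lit 20600438) (dlOf (nat_lit 1) (nat_lit 0x80080004002000200089d9d03)))))) 
(.nd (nat_lit 6) (.nd (nat_lit 8) (.nd (nat_lit 10) 
(.lf (nat_lit 4563552950) (dlOf (nat_lit 1) (nat_lit 0x60008095701))) 
(.lf (nat_lit 20076214) (dlOf (nat_lit 1) (nat_lit 0x4002000200089da002)))) (.nd (nat_lit 9) 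
(.lf (nat_lit 9585078) (dlOf (nat_lit 1) (nat_lit 0x1b400200ae0008577782))) 
(.lf (nat_lit 20073398) (dlOf (nat_lit 2) (nat_lit 0x483a4000000400bc004000600089d5d02))))) 
(.nd (nat_lit 8) (.lf (nat_lit 54149366) (dlOf (nat_lit 1) (nat_lit 0x8008000400200020009632483))) 
(.nd (nat_lit 9) 
(.lf (nat_lit 201480694) (dlOf (nat_lit 1) (nat_lit 0x1000800040020002000800b283))) 
(.lf (nat_lit 35800054) (dlOf (nat_lit 1) (nat_lit 0x20019012881))))))) (.nd (nat_lit 27) 
(.nd (nat_lit 28) (.nd (nat_lit 6) (.nd (nat_lit 8) 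
(.lf (nat_lit 2752659510) (dlOf (nat_lit 1) (nat_lit 0x20028030d01))) 
(.lf (nat_lit 6442600246) (dlOf (nat_lit 1) (nat_lit 0x200080f3e01)))) 
(.lf (nat_lit 6442605046) (dlOf (nat_lit 1) (nat_lit 0xe00180fb281)))) (.nd (nat_lit 29) 
(.nd (nat_lit 32) (.lf (nat_lit 2416066614) (dlOf (nat_lit 1) (nat_lit 0x400400020008030d02))) 
(.lf (nat_lit 6711033910) (dlOf (nat_lit 1) (nat_lit 0x40018040481)))) 
(.lf (nat_lit 2952937526) (dlOf (nat_lit 10) (nat_lit 0xa0160007480809280b00408000001d10400e602c006200000073c10002801000ac0000017904001e00700460020005cc100de8010001020401980080008002039600400001810011016000000080150008004c002008e0008030483))))) 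
(.nd (nat_lit 9) (.nd (nat_lit 8) 
(.lf (nat_lit 2550284342) (dlOf (nat_lit 1) (nat_lit 0x400400020008030d02))) 
(.lf (nat_lit 3154264374) (dlOf (nat_lit 1) (nat_lit 0x20008147b01)))) (.nd (nat_lit 6) 
(.lf (nat_lit 6576819766) (dlOf (nat_lit 1) (nat_lit 0x60018147181))) 
(.lf (nat_lit 2617398006) (dlOf (nat_lit 2) (nat_lit 0x18010002be8080080008009c002006e00080a8f83))))))) 
(.nd (nat_lit 8) (.nd (nat_lit 9) (.nd (nat_lit 22) (.nd (nat_lit 6) (.nd (nat_lit 19) 
(.lf (nat_lit 4496703542) (dlOf (nat_lit 5) (nat_lit 0x80118013980800d008c009ca040034068002403300240190013501800800c8009a604003c00400020008131002))) 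
(.lf (nat_lit 1007566902) (dlOf (nat_lit 1) (nat_lit 0x200184a0b81)))) 
(.lf (nat_lit 20856950) (dlOf (nat_lit 1) (nat_lit 0x200289e1f01)))) (.nd (nat_lit 7) 
(.nd (nat_lit 12) (.lf (nat_lit 21905462) (dlOf (nat_lit 2) (nat_lit 0x4000000f402000c0008a80d01))) 
(.lf (nat_lit 8278070) (dlOf (nat_lit 1) (nat_lit 0x1e0008517c81)))) 
(.lf (nat_lit 21381302) (dlOf (nat_lit 1) (nat_lit 0x6000800e400200280008a31703))))) 
(.nd (nat_lit 19) (.nd (nat_lit 26) 
(.lf (nat_lit 134627894) (dlOf (nat_lit 2) (nat_lit 0x98043006f020800c80f4000000c000400400620018090f82))) 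
(.lf (nat_lit 201736758) (dlOf (nat_lit 2) (nat_lit 0x98043006f020800c80f4000000c000400400620018090f82)))) 
(.nd (nat_lit 10) (.lf (nat_lit 2752397878) (dlOf (nat_lit 1) (nat_lit 0x400400020008018b02))) 
(.lf (nat_lit 19813942) (dlOf (nat_lit 1) (nat_lit 0x200289d9c01)))))) (.nd (nat_lit 6) 
(.nd (nat_lit 19) (.nd (nat_lit 7) (.nd (nat_lit 9) 
(.lf (nat_lit 4362486070) (dlOf (nat_lit 2) (nat_lit 0x6023000200b00000008005000400c00008090582))) 
(.lf (nat_lit 8800054) (dlOf (nat_lit 1) (nat_lit 0x28004000a0018513e02)))) 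
(.lf (nat_lit 4362486198) (dlOf (nat_lit 6) (nat_lit 0x200460016016800d00b0002b00c005005a001570200ac05600180168005501000a00b4002a404026808e0000002004c0018090801)))) 
(.nd (nat_lit 20) 
(.lf (nat_lit 2752397622) (dlOf (nat_lit 3) (nat_lit 0xc3f400a4a02000a1fa004b0018014c00))) 
(.lf (nat_lit 20857142) (dlOf (nat_lit 1) (nat_lit 0x2a800201a600089e5c82))))) (.nd (nat_lit 9) 
(.nd (nat_lit 7) (.nd (nat_lit 11) 
(.lf (nat_lit 21381494) (dlOf (nat_lit 1) (nat_lit 0x20028a35801))) 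
(.lf (nat_lit 335956342) (dlOf (nat_lit 1) (nat_lit 0x1c00180e4e81)))) 
(.lf (nat_lit 2752397814) (dlOf (nat_lit 4) (nat_lit 0x1e89200005e0400fc4900002d0200081f80000e818017e00)))) 
(.nd (nat_lit 22) (.nd (nat_lit 28) 
(.lf (nat_lit 2751874038) (dlOf (nat_lit 1) (nat_lit 0x400200020008002882))) 
(.lf (nat_lit 872825846) (dlOf (nat_lit 1) (nat_lit 0x6200280e2881)))) 
(.lf (nat_lit 38159350) (dlOf (nat_lit 1) (nat_lit 0x400200c40009132882)))))))) (.nd (nat_lit 28) 
(.nd (nat_lit 27) (.nd (nat_lit 10) (.nd (nat_lit 6) (.nd (nat_lit 19) 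
(.lf (nat_lit 5368856630) (dlOf (nat_lit 2) (nat_lit 0xb4005000be818040480))) 
(.lf (nat_lit 3221897270) (dlOf (nat_lit 3) (nat_lit 0x2811801b9004006408c0098c02003800281b0781)))) 
(.nd (nat_lit 8) (.lf (nat_lit 1677871222) (dlOf (nat_lit 1) (nat_lit 0x20008114781))) 
(.lf (nat_lit 3221379958) (dlOf (nat_lit 2) (nat_lit 0xb017802bd808009000802dc0020016000811bc83))))) 
(.nd (nat_lit 8) (.nd (nat_lit 6) 
(.lf (nat_lit 1610761782) (dlOf (nat_lit 1) (nat_lit 0x800200040008093782))) 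
(.lf (nat_lit 5972838134) (dlOf (nat_lit 1) (nat_lit 0x60018143b81)))) (.nd (nat_lit 26) 
(.lf (nat_lit 5905729462) (dlOf (nat_lit 1) (nat_lit 0x20028144381))) 
(.lf (nat_lit 1677871030) (dlOf (nat_lit 1) (nat_lit 0x20018114381)))))) (.nd (nat_lit 29) 
(.nd (nat_lit 6) (.nd (nat_lit 32) 
(.lf (nat_lit 1208107062) (dlOf (nat_lit 1) (nat_lit 0x1c0028090001))) 
(.lf (nat_lit 5503074358) (dlOf (nat_lit 2) (nat_lit 0xb4005000c2818040480)))) 
(.lf (nat_lit 3355595510) (dlOf (nat_lit 2) (nat_lit 0x18010001544080080008009c002006e00080a8f83)))) 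
(.nd (nat_lit 26) (.nd (nat_lit 6) 
(.lf (nat_lit 3892461878) (dlOf (nat_lit 1) (nat_lit 0x400400040008147b02))) 
(.lf (nat_lit 3892461814) (dlOf (nat_lit 1) (nat_lit 0x8008000400200020008146f03)))) 
(.nd (nat_lit 19) (.lf (nat_lit 6107054134) (dlOf (nat_lit 1) (nat_lit 0x40018040481))) 
(.lf (nat_lit 3960094774) (dlOf (nat_lit 3) (nat_lit 0x281180123e04006408c003f202003800281b0781))))))) 
(.nd (nat_lit 19) (.nd (nat_lit 18) (.nd (nat_lit 8) (.nd (nat_lit 7) (.nd (nat_lit 20) 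
(.lf (nat_lit 1346519094) (dlOf (nat_lit 1) (nat_lit 0x128008004c00200140008f80483))) 
(.lf (nat_lit 3490857014) (dlOf (nat_lit 1) (nat_lit 0x20028030d01)))) 
(.lf (nat_lit 1543654582) (dlOf (nat_lit 1) (nat_lit 0x1800400020008146282)))) (.nd (nat_lit 6) 
(.lf (nat_lit 3492955958) (dlOf (nat_lit 2) (nat_lit 0x188200006a040004002000400080f3e02))) 
(.lf (nat_lit 1543653750) (dlOf (nat_lit 1) (nat_lit 0x17800800c000200240008144e83))))) 
(.nd (nat_lit 7) (.nd (nat_lit 8) (.nd (nat_lit 26) 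
(.lf (nat_lit 5637554230) (dlOf (nat_lit 2) (nat_lit 0x80098007c80800e000800e4002002a0008100483))) 
(.lf (nat_lit 6241534006) (dlOf (nat_lit 2) (nat_lit 0x80090007cc0800e000800e4002002a0008100483)))) 
(.lf (nat_lit 4228268342) (dlOf (nat_lit 2) (nat_lit 0x601f800200ac0000008005000400c00008090582)))) 
(.nd (nat_lit 6) 
(.lf (nat_lit 4228268470) (dlOf (nat_lit 6) (nat_lit 0x2003f0016016000d00ac002ba0c00500580015c0200ac04f00180160005641000a00b0002ae0402680800000002004c0018090801))) 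
(.lf (nat_lit 1346781430) (dlOf (nat_lit 1) (nat_lit 0x2ec00200320009002482)))))) (.nd (nat_lit 31) 
(.nd (nat_lit 6) (.nd (nat_lit 7) (.nd (nat_lit 26) 
(.lf (nat_lit 5772034102) (dlOf (nat_lit 8) (nat_lit 0x7829e003a14e001d0a68002051800782860067e0a00321460033e01000d0a30019ec08010053c006c29c003a14d001d0a180165420013053c003429c001c14d000f0a180165020012053c003829c001614d00100a180164c20016853c003429c000e14d000f0a18016482000600080024002003e0008051003))) 
(.lf (nat_lit 6376013878) (dlOf (nat_lit 8) (nat_lit 0x78280003a13f001d09f000204dc007826800c130a00321370060881000d09b803040080100500006c27e003a13e001d09a002ca8200130500003427e001c13e000f09a002ca4200120500003827e001613e001009a002ca0200168500003427e000e13e000f09a002c9c2000600080024002003e0008051003)))) 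
(.lf (nat_lit 1344164022) (dlOf (nat_lit 1) (nat_lit 0x8200283d7e81)))) (.nd (nat_lit 7) 
(.lf (nat_lit 1345210742) (dlOf (nat_lit 1) (nat_lit 0x200080028002000e0008b04e83))) 
(.lf (nat_lit 1343111414) (dlOf (nat_lit 1) (nat_lit 0x400200020008150702))))) (.nd (nat_lit 8) 
(.nd (nat_lit 11) (.nd (nat_lit 18) 
(.lf (nat_lit 4095361078) (dlOf (nat_lit 1) (nat_lit 0x1e00280a1001))) 
(.lf (nat_lit 4094574646) (dlOf (nat_lit 1) (nat_lit 0x400400020008050002)))) 
(.lf (nat_lit 3492698166) (dlOf (nat_lit 2) (nat_lit 0xd022802bb8080118008008c002002e00080fa603)))) 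
(.nd (nat_lit 9) 
(.lf (nat_lit 3490595126) (dlOf (nat_lit 3) (nat_lit 0xc3d0004b502000a1e8001e7818014c00))) 
(.lf (nat_lit 3492693814) (dlOf (nat_lit 1) (nat_lit 0x80080004002000200080f3e03))))))))))) 
(.nd (nat_lit 17) (.nd (nat_lit 6) (.nd (nat_lit 5) (.nd (nat_lit 18) (.nd (nat_lit 30) 
(.nd (nat_lit 19) (.nd (nat_lit 10) (.nd (nat_lit 12) (.nd (nat_lit 20) 
(.lf (nat_lit 44122134) (dlOf (nat_lit 1) (nat_lit 0x1c00292c0081))) 
(.lf (nat_lit 2752593942) (dlOf (nat_lit 2) (nat_lit 0x1707fc00246040024004000c0008020482)))) 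
(.nd (nat_lit 7) (.lf (nat_lit 469848342) (dlOf (nat_lit 1) (nat_lit 0x40018008081))) 
(.lf (nat_lit 20009622) (dlOf (nat_lit 1) (nat_lit 0x4002000200089d8c82))))) (.nd (nat_lit 7) 
(.nd (nat_lit 8) (.nd (nat_lit 20) 
(.lf (nat_lit 5234576406) (dlOf (nat_lit 2) (nat_lit 0x4016800000080008008001400200060008055f83))) 
(.lf (nat_lit 20007958) (dlOf (nat_lit 1) (nat_lit 0x200189d5f81)))) 
(.lf (nat_lit 469851414) (dlOf (nat_lit 1) (nat_lit 0x400080050002001e000800c603)))) 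
(.nd (nat_lit 11) (.lf (nat_lit 6643864726) (dlOf (nat_lit 2) (nat_lit 0x8e02300343018009500))) 
(.lf (nat_lit 134302870) (dlOf (nat_lit 1) (nat_lit 0x20028006201)))))) (.nd (nat_lit 22) 
(.nd (nat_lit 7) (.nd (nat_lit 20) (.nd (nat_lit 26) 
(.lf (nat_lit 805912598) (dlOf (nat_lit 2) (nat_lit 0x2602b0056b40801f80080048002000a00081e0903))) 
(.lf (nat_lit 4362682390) (dlOf (nat_lit 2) (nat_lit 0xc80cc02e28040118004001000180d0902)))) 
(.lf (nat_lit 1654806) (dlOf (nat_lit 1) (nat_lit 0x6400200040008110482)))) 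
(.lf (nat_lit 608662) (dlOf (nat_lit 1) (nat_lit 0x400400580008004e82)))) (.nd (nat_lit 20) 
(.nd (nat_lit 21) (.lf (nat_lit 29966358) (dlOf (nat_lit 1) (nat_lit 0x400200020008e30002))) 
(.lf (nat_lit 48840726) (dlOf (nat_lit 1) (nat_lit 0x40019440081)))) 
(.lf (nat_lit 16334870) (dlOf (nat_lit 1) (nat_lit 0x40018890481)))))) (.nd (nat_lit 26) 
(.nd (nat_lit 29) (.nd (nat_lit 8) (.nd (nat_lit 20) 
(.lf (nat_lit 1344356374) (dlOf (nat_lit 1) (nat_lit 0x140028740001))) 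
(.lf (nat_lit 3490791446) (dlOf (nat_lit 2) (nat_lit 0x1707b40035e040024004000c0008020482)))) 
(.lf (nat_lit 1345406230) (dlOf (nat_lit 1) (nat_lit 0xc00400020008bb3082)))) (.nd (nat_lit 7) 
(.nd (nat_lit 8) 
(.lf (nat_lit 3892920342) (dlOf (nat_lit 3) (nat_lit 0x200000013c0803d00000000004004400200400008290882))) 
(.lf (nat_lit 5905662230) (dlOf (nat_lit 2) (nat_lit 0xd000000168040080002000c00080b0482)))) 
(.lf (nat_lit 4160836758) (dlOf (nat_lit 1) (nat_lit 0x400400040008009502))))) (.nd (nat_lit 19) 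
(.nd (nat_lit 7) (.nd (nat_lit 8) 
(.lf (nat_lit 3825287190) (dlOf (nat_lit 3) (nat_lit 0x36700f80d180780d44036000201a034500b80118058092802800d4013021b0080122803008a000001a451606da01f018800f01a7006c0d2002e0020016031900a001f804c0898020032600c022100000690c5000c0008022c002015800080b0003))) 
(.lf (nat_lit 3825287446) (dlOf (nat_lit 3) (nat_lit 0x7001b000e801002900f8008006c0039c080010004000800080b0482)))) 
(.lf (nat_lit 3691069590) (dlOf (nat_lit 1) (nat_lit 0x400200020008010282)))) (.nd (nat_lit 27) 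
(.lf (nat_lit 1678327830) (dlOf (nat_lit 2) (nat_lit 0x2602b005c500801f80080048002000a00081e0903))) 
(.lf (nat_lit 4228464662) (dlOf (nat_lit 2) (nat_lit 0xc80c802b5a040118004001000180d0902))))))) 
(.nd (nat_lit 30) (.nd (nat_lit 27) (.nd (nat_lit 20) (.nd (nat_lit 7) (.nd (nat_lit 19) 
(.lf (nat_lit 805650454) (dlOf (nat_lit 1) (nat_lit 0x3e0008160481))) 
(.lf (nat_lit 21839894) (dlOf (nat_lit 1) (nat_lit 0x8002000a0008a70482)))) 
(.lf (nat_lit 4832182678) (dlOf (nat_lit 1) (nat_lit 0x800200020008106482)))) (.nd (nat_lit 21) 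
(.nd (nat_lit 22) (.lf (nat_lit 18169878) (dlOf (nat_lit 1) (nat_lit 0x400200020008910a82))) 
(.lf (nat_lit 5586966) (dlOf (nat_lit 2) (nat_lit 0xcbfc0005c02000e00183a0401)))) (.nd (nat_lit 9) 
(.lf (nat_lit 16072726) (dlOf (nat_lit 2) (nat_lit 0xc958002347500121f5c0070e660005908006a0028860401))) 
(.lf (nat_lit 41239062) (dlOf (nat_lit 1) (nat_lit 0x20029227e01)))))) (.nd (nat_lit 26) 
(.nd (nat_lit 28) (.nd (nat_lit 19) 
(.lf (nat_lit 671432726) (dlOf (nat_lit 10) (nat_lit 0xd0128030780801080940183804008404a00c1902003e025005fe810021012802fe40800e0094017e004008004a00ba1020040025005cb81001f012802e3c080058008000800200120008190483))) 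
(.lf (nat_lit 2819440662) (dlOf (nat_lit 2) (nat_lit 0x101b000640080048008000c002000a0008290403)))) 
(.nd (nat_lit 7) 
(.lf (nat_lit 4697964566) (dlOf (nat_lit 1) (nat_lit 0x38008003c002006400080d0003))) 
(.lf (nat_lit 5234835862) (dlOf (nat_lit 1) (nat_lit 0x4004000200180f6482))))) (.nd (nat_lit 31) 
(.nd (nat_lit 10) 
(.lf (nat_lit 474300438) (dlOf (nat_lit 2) (nat_lit 0xb1098000000800800080038002003a0009130303))) 
(.lf (nat_lit 473777174) (dlOf (nat_lit 1) (nat_lit 0x2000400080018fa2882)))) (.nd (nat_lit 29) 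
(.lf (nat_lit 2617589782) (dlOf (nat_lit 2) (nat_lit 0x1b0100001f80800f8008003c00200780008100483))) 
(.lf (nat_lit 3154460694) (dlOf (nat_lit 11) (nat_lit 0x700a8004a05100220280014813c00700660050024002b01100130058008c028001ff120014054000a019800900580054028001fe080042054000a0288019013c00c4066004a0240025011001b005800c4028001fd1000500540029019802280580104028001fc08003a054001c0288013813c00740660046024001500d801e805800e8028001fa10003e05400200198021005800fc028001f908005605400350288015013c008c094005803300260110019005800b8028001f810000e054000701980010090004002c0018014000fb85001d0198007d8080060058003ea040004002002c00081a0082))))))) 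
(.nd (nat_lit 31) (.nd (nat_lit 21) (.nd (nat_lit 26) 
(.lf (nat_lit 6174359574) (dlOf (nat_lit 1) (nat_lit 0x400200020008110002))) (.nd (nat_lit 27) 
(.lf (nat_lit 1678065686) (dlOf (nat_lit 1) (nat_lit 0x3e0008160481))) 
(.lf (nat_lit 1543847958) (dlOf (nat_lit 10) (nat_lit 0xd012801a2408010809400d0e04008404a0068402003e025003340100210128019900800e009400cb604008004a0060b0200400250030081001f0128017e8080058008000800200120008190483))))) 
(.nd (nat_lit 7) (.lf (nat_lit 1346191382) (dlOf (nat_lit 2) (nat_lit 0x615f000f6818e60080))) 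
(.nd (nat_lit 19) (.lf (nat_lit 1344620950) (dlOf (nat_lit 1) (nat_lit 0x4004000200088c4e82))) 
(.lf (nat_lit 1345145238) (dlOf (nat_lit 1) (nat_lit 0x800400020008a44e82)))))) (.nd (nat_lit 28) 
(.nd (nat_lit 26) (.nd (nat_lit 27) 
(.lf (nat_lit 3221569558) (dlOf (nat_lit 1) (nat_lit 0x4002002c0008140482))) 
(.lf (nat_lit 3355787286) (dlOf (nat_lit 1) (nat_lit 0xa0008110301)))) (.nd (nat_lit 27) 
(.lf (nat_lit 3288678422) (dlOf (nat_lit 1) (nat_lit 0x4000080c0a81))) 
(.lf (nat_lit 3959767062) (dlOf (nat_lit 1) (nat_lit 0x4002002c0008140482))))) (.nd (nat_lit 7) 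
(.nd (nat_lit 19) (.lf (nat_lit 4026875926) (dlOf (nat_lit 1) (nat_lit 0x4000080c0a81))) 
(.lf (nat_lit 3557638166) (dlOf (nat_lit 2) (nat_lit 0x101c000660080048008000c002000a0008290403)))) 
(.nd (nat_lit 8) (.lf (nat_lit 3490008214) (dlOf (nat_lit 1) (nat_lit 0x400200020008006202))) 
(.lf (nat_lit 3490531734) (dlOf (nat_lit 1) (nat_lit 0x8008000400200400008004e83))))))))) 
(.nd (nat_lit 18) (.nd (nat_lit 28) (.nd (nat_lit 8) (.nd (nat_lit 19) (.nd (nat_lit 7) 
(.nd (nat_lit 9) (.lf (nat_lit 32588854) (dlOf (nat_lit 1) (nat_lit 0x40018ef2881))) 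
(.nd (nat_lit 20) (.lf (nat_lit 2348892726) (dlOf (nat_lit 1) (nat_lit 0x20018018b01))) 
(.lf (nat_lit 11616822) (dlOf (nat_lit 2) (nat_lit 0x269c000000186c0f80))))) (.nd (nat_lit 27) 
(.lf (nat_lit 3825287350) (dlOf (nat_lit 4) (nat_lit 0x3e01f0001781006200f8000b00804c807c00056040004002000e00080b0382))) 
(.lf (nat_lit 1812021430) (dlOf (nat_lit 2) (nat_lit 0x24025000158180b0380))))) (.nd (nat_lit 29) 
(.nd (nat_lit 9) 
(.lf (nat_lit 3751990) (dlOf (nat_lit 3) (nat_lit 0x85580001d8100052a88000d80800200080008002001c0008220b03))) 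
(.lf (nat_lit 609846) (dlOf (nat_lit 1) (nat_lit 0x400400020008007182)))) (.nd (nat_lit 27) 
(.lf (nat_lit 537477174) (dlOf (nat_lit 2) (nat_lit 0xcc02f8000b00800a000800c0002005c00080a0a83))) 
(.lf (nat_lit 3892920374) (dlOf (nat_lit 1) (nat_lit 0x20008291081)))))) (.nd (nat_lit 26) 
(.nd (nat_lit 7) (.nd (nat_lit 10) 
(.lf (nat_lit 1208041782) (dlOf (nat_lit 2) (nat_lit 0x900e40002c04003400400280008090b82))) 
(.lf (nat_lit 8475958) (dlOf (nat_lit 1) (nat_lit 0x400200020008519902)))) 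
(.lf (nat_lit 20007862) (dlOf (nat_lit 1) (nat_lit 0x4004000200089d5d02)))) (.nd (nat_lit 27) 
(.lf (nat_lit 604062006) (dlOf (nat_lit 1) (nat_lit 0xc00400020008010702))) 
(.lf (nat_lit 2348892470) (dlOf (nat_lit 2) (nat_lit 0xe01400295c0800a8008000400200020008014c03)))))) 
(.nd (nat_lit 8) (.nd (nat_lit 7) (.nd (nat_lit 19) (.nd (nat_lit 9) 
(.lf (nat_lit 3154199606) (dlOf (nat_lit 2) (nat_lit 0x404700a57018102880))) 
(.lf (nat_lit 335628854) (dlOf (nat_lit 1) (nat_lit 0x20028095181)))) (.nd (nat_lit 27) 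
(.lf (nat_lit 1409892406) (dlOf (nat_lit 2) (nat_lit 0xd202f8000b00800c800800ec002007000080a0b83))) 
(.lf (nat_lit 4228464694) (dlOf (nat_lit 1) (nat_lit 0x380080010002000c00080d1383))))) 
(.nd (nat_lit 10) (.nd (nat_lit 31) 
(.lf (nat_lit 939606198) (dlOf (nat_lit 2) (nat_lit 0x24025000170180b0380))) 
(.lf (nat_lit 3087089846) (dlOf (nat_lit 4) (nat_lit 0x3e01f0001901006200f8000bc0804c807c0005c040004002000e00080b0382)))) 
(.nd (nat_lit 26) 
(.lf (nat_lit 1342266550) (dlOf (nat_lit 2) (nat_lit 0x17113000f0838018220801a80040032000800c202))) 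
(.lf (nat_lit 4227947702) (dlOf (nat_lit 1) (nat_lit 0x10001800c201)))))) (.nd (nat_lit 9) 
(.nd (nat_lit 31) (.nd (nat_lit 10) 
(.lf (nat_lit 4563484982) (dlOf (nat_lit 2) (nat_lit 0x7009000000080208008009800200980008090b83))) 
(.lf (nat_lit 5773542710) (dlOf (nat_lit 1) (nat_lit 0x1a600280e3201)))) (.nd (nat_lit 26) 
(.lf (nat_lit 2952872246) (dlOf (nat_lit 1) (nat_lit 0xc00400020008010702))) 
(.lf (nat_lit 2483110198) (dlOf (nat_lit 2) (nat_lit 0xe0140013080800a8008000400200020008014c03))))) 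
(.nd (nat_lit 12) (.nd (nat_lit 26) 
(.lf (nat_lit 5234576310) (dlOf (nat_lit 2) (nat_lit 0xf017000000080050008004c00200340008055d03))) 
(.lf (nat_lit 5704338358) (dlOf (nat_lit 3) (nat_lit 0x70032001a00a0000882001c0050000000800a8008005000200120008055d03)))) 
(.nd (nat_lit 7) 
(.lf (nat_lit 4227947318) (dlOf (nat_lit 4) (nat_lit 0x4006400b0102001a03200580010005019002be808022800801580020072000800bc83))) 
(.lf (nat_lit 1342264246) (dlOf (nat_lit 2) (nat_lit 0xb02380094404003800400100008009202)))))))) 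
(.nd (nat_lit 30) (.nd (nat_lit 20) (.nd (nat_lit 19) (.nd (nat_lit 28) (.nd (nat_lit 7) 
(.nd (nat_lit 8) (.lf (nat_lit 537215030) (dlOf (nat_lit 1) (nat_lit 0x40028060701))) 
(.lf (nat_lit 23413046) (dlOf (nat_lit 1) (nat_lit 0x20008b80581)))) 
(.lf (nat_lit 21315766) (dlOf (nat_lit 2) (nat_lit 0x816300071818a31700)))) (.nd (nat_lit 26) 
(.nd (nat_lit 27) 
(.lf (nat_lit 4563746870) (dlOf (nat_lit 1) (nat_lit 0x100080084002002000080d0483))) 
(.lf (nat_lit 4697964598) (dlOf (nat_lit 1) (nat_lit 0x100080084002002000080d0483)))) 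
(.lf (nat_lit 3154460726) (dlOf (nat_lit 9) (nat_lit 0x167815c0c0406e03bc03601c401000e3007c056c03202cc018001f00500071c40126815c098806e00b603600ac010004b007c02b00320182018000e307046102b824c80dc0f7406c06ba020035f00f817480640bd003000d400a000e288016402b806b80dc00386080a340ae067003701d501000be006404e003000a400a000de86000502f800801600b000ac00040530113023006f01000034074057e035002b01800088084068403c036a017010c004000550680030064109800000094040536057004a00c000000100b60008046c002004c00081a0483))))) 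
(.nd (nat_lit 8) (.nd (nat_lit 22) 
(.lf (nat_lit 9257014) (dlOf (nat_lit 1) (nat_lit 0x18008002000200020008530483))) 
(.lf (nat_lit 13451318) (dlOf (nat_lit 1) (nat_lit 0x460002013c0008721182)))) 
(.lf (nat_lit 537746230) (dlOf (nat_lit 2) (nat_lit 0xc06600ada02000200280fbc81))))) 
(.nd (nat_lit 24) (.nd (nat_lit 8) (.nd (nat_lit 19) 
(.lf (nat_lit 1392694) (dlOf (nat_lit 2) (nat_lit 0x30000001bd02000600280c0d01))) 
(.lf (nat_lit 16597046) (dlOf (nat_lit 1) (nat_lit 0xe00288c0881)))) 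
(.lf (nat_lit 1917238) (dlOf (nat_lit 1) (nat_lit 0x20028150581)))) (.nd (nat_lit 7) 
(.nd (nat_lit 8) (.lf (nat_lit 24461366) (dlOf (nat_lit 1) (nat_lit 0x2000400020018ba0b02))) 
(.lf (nat_lit 20273974) (dlOf (nat_lit 1) (nat_lit 0xec004006400089dbc82)))) 
(.lf (nat_lit 20274358) (dlOf (nat_lit 1) (nat_lit 0x200089dc201)))))) (.nd (nat_lit 28) 
(.nd (nat_lit 27) (.nd (nat_lit 31) 
(.lf (nat_lit 1610956854) (dlOf (nat_lit 1) (nat_lit 0x1800280a0f81))) 
(.lf (nat_lit 3758440502) (dlOf (nat_lit 1) (nat_lit 0x200181c0801)))) (.nd (nat_lit 29) 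
(.lf (nat_lit 3355787318) (dlOf (nat_lit 5) (nat_lit 0x1480640022012006768200010188033b00800700c8005802400ce3040048032000c009003388100060008018c00200020008110783))) 
(.lf (nat_lit 3892658230) (dlOf (nat_lit 1) (nat_lit 0x28004000c0008180482))))) (.nd (nat_lit 19) 
(.nd (nat_lit 21) (.lf (nat_lit 1409630262) (dlOf (nat_lit 1) (nat_lit 0x40028060701))) 
(.lf (nat_lit 3492102198) (dlOf (nat_lit 1) (nat_lit 0x500080028002001400080a0b83)))) 
(.nd (nat_lit 7) (.lf (nat_lit 1346191414) (dlOf (nat_lit 2) (nat_lit 0x7e0960000b018e60480))) 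
(.lf (nat_lit 1879920822) (dlOf (nat_lit 1) (nat_lit 0x8200283d7e81))))))))) (.nd (nat_lit 8) 
(.nd (nat_lit 7) (.nd (nat_lit 18) (.nd (nat_lit 26) (.nd (nat_lit 23) (.nd (nat_lit 5) 
(.nd (nat_lit 24) (.lf (nat_lit 3221307478) (dlOf (nat_lit 1) (nat_lit 0x20018090001))) 
(.lf (nat_lit 16859222) (dlOf (nat_lit 13) (nat_lit 0xef8d4004bbec0001402005ae3500276fb0005e89800026060067c6a001ddf600007c1002af1a8000b8b00093bec0000e83004ce3500206fb00003008001b7d800014020045c6a0011df600004c1002b71a8012b7d800010040087c6a002edf600003010025f1a800ff7d80000504009bc6a0042df60000081002671a800178d20083bec0004b8a0000002002c8008000c00200de00088e0303)))) 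
(.lf (nat_lit 537477238) (dlOf (nat_lit 3) (nat_lit 0x1b00aa00014020148055000028180a1880)))) 
(.nd (nat_lit 5) (.nd (nat_lit 22) 
(.lf (nat_lit 44122198) (dlOf (nat_lit 2) (nat_lit 0x40c90000d00800180080014002000200092c0703))) 
(.lf (nat_lit 14762070) (dlOf (nat_lit 3) (nat_lit 0x288ea00143d60001001000423a80007e04003400200120008770782)))) 
(.lf (nat_lit 12664950) (dlOf (nat_lit 1) (nat_lit 0x4002000200086d1882))))) (.nd (nat_lit 10) 
(.nd (nat_lit 5) (.nd (nat_lit 19) 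
(.lf (nat_lit 3959504982) (dlOf (nat_lit 1) (nat_lit 0x20018090001))) 
(.lf (nat_lit 3960029270) (dlOf (nat_lit 1) (nat_lit 0x200181a1a01)))) 
(.lf (nat_lit 1409892470) (dlOf (nat_lit 3) (nat_lit 0x1b00aa00014020148055000028180a1880)))) 
(.nd (nat_lit 5) (.nd (nat_lit 11) 
(.lf (nat_lit 6377522262) (dlOf (nat_lit 1) (nat_lit 0x2a00180e2901))) 
(.lf (nat_lit 469851222) (dlOf (nat_lit 1) (nat_lit 0x14004001a000800bf82)))) 
(.lf (nat_lit 67196534) (dlOf (nat_lit 1) (nat_lit 0x40018009d01)))))) (.nd (nat_lit 19) 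
(.nd (nat_lit 29) (.nd (nat_lit 27) 
(.lf (nat_lit 4563746902) (dlOf (nat_lit 2) (nat_lit 0x300148004809c00064080144002005c00080d0602))) 
(.lf (nat_lit 4697964630) (dlOf (nat_lit 2) (nat_lit 0x300148004809c00066080144002005c00080d0602)))) 
(.nd (nat_lit 26) 
(.lf (nat_lit 3892658262) (dlOf (nat_lit 3) (nat_lit 0x12801b809980d8000580807a006e03d403600015028180780))) 
(.lf (nat_lit 3154460758) (dlOf (nat_lit 3) (nat_lit 0x8b40ae04c4037013f01b00a00080050403e01e001900f800c000980280005a200b300ae060403701e201b00e68080073803e02f6019018600c003d0028000562001e4002003000081a0782))))) 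
(.nd (nat_lit 9) (.nd (nat_lit 5) (.nd (nat_lit 20) 
(.lf (nat_lit 9257046) (dlOf (nat_lit 2) (nat_lit 0x5852600009018530700))) 
(.lf (nat_lit 1346191446) (dlOf (nat_lit 2) (nat_lit 0x3208d00013018e60800)))) 
(.lf (nat_lit 3491577974) (dlOf (nat_lit 1) (nat_lit 0x400400020008090082)))) (.nd (nat_lit 20) 
(.lf (nat_lit 51202646) (dlOf (nat_lit 1) (nat_lit 0x20029515301))) 
(.lf (nat_lit 58542678) (dlOf (nat_lit 2) (nat_lit 0x18e800000602000400097e5301))))))) 
(.nd (nat_lit 5) (.nd (nat_lit 27) (.nd (nat_lit 18) (.nd (nat_lit 21) (.nd (nat_lit 31) 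
(.lf (nat_lit 5972771030) (dlOf (nat_lit 4) (nat_lit 0xb000000237020046000001150100360000008980800080080028002002800080b0483))) 
(.lf (nat_lit 3825287382) (dlOf (nat_lit 7) (nat_lit 0xb700f8048006c00a402e001d206022801f00ea00d8071005c044801a020c000000e885005900f8016006c007402e001cf06002401f000d981003d00000020408019800000100040074004000800180b0482)))) 
(.lf (nat_lit 2179286) (dlOf (nat_lit 1) (nat_lit 0x20018150481)))) (.nd (nat_lit 20) 
(.lf (nat_lit 19218646) (dlOf (nat_lit 1) (nat_lit 0x18008000400200120008970503))) 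
(.lf (nat_lit 3490006) (dlOf (nat_lit 2) (nat_lit 0x15e3a280068c080438008033800201c20008200483))))) 
(.nd (nat_lit 28) (.nd (nat_lit 29) (.nd (nat_lit 18) 
(.lf (nat_lit 6576750806) (dlOf (nat_lit 4) (nat_lit 0xb000000237020046000001150100360000008980800080080028002002800080b0483))) 
(.lf (nat_lit 1208303830) (dlOf (nat_lit 1) (nat_lit 0x280080128002000600080c1c03)))) 
(.nd (nat_lit 9) 
(.lf (nat_lit 1812021462) (dlOf (nat_lit 8) (nat_lit 0x50c048022c01f016d00d015380000047810028c048019e01a00119820080012005580680046208027c04800bc01f00cc00d010380000045e1008ec0000022d02001401a00116010032012004180680045608059c002041800080b0482))) 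
(.lf (nat_lit 671172310) (dlOf (nat_lit 1) (nat_lit 0x1400400020008143a82))))) (.nd (nat_lit 18) 
(.nd (nat_lit 31) 
(.lf (nat_lit 939606230) (dlOf (nat_lit 8) (nat_lit 0x50c048022c01f016d00d015380000047810028c048019e01a00119820080012005580680046208027c04800bc01f00cc00d010380000045e1008ec0000022d02001401a00116010032012004180680045608059c002041800080b0482))) 
(.lf (nat_lit 3087089878) (dlOf (nat_lit 7) (nat_lit 0xb700f8048006c00a402e001d206022801f00ea00d8071005c044801a020c000000e885005900f8016006c007402e001cf06002401f000d181003d00000020408019800000100040074004000800180b0482)))) 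
(.lf (nat_lit 6377259222) (dlOf (nat_lit 3) (nat_lit 0x612f0001d0100050a68000680800180080010002000200080c1c03)))))) 
(.nd (nat_lit 28) (.nd (nat_lit 27) (.nd (nat_lit 20) (.nd (nat_lit 26) 
(.lf (nat_lit 3221307638) (dlOf (nat_lit 2) (nat_lit 0x4037000e2018090480))) 
(.lf (nat_lit 1677803766) (dlOf (nat_lit 2) (nat_lit 0x1000000918080028008001400200060008090483)))) 
(.nd (nat_lit 9) (.lf (nat_lit 58278134) (dlOf (nat_lit 1) (nat_lit 0x200197d6f01))) 
(.lf (nat_lit 20271862) (dlOf (nat_lit 1) (nat_lit 0x2dc004011e00089d8f82))))) (.nd (nat_lit 26) 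
(.nd (nat_lit 29) 
(.lf (nat_lit 1208041718) (dlOf (nat_lit 3) (nat_lit 0x2c0720015e020006039000ab018090a80))) 
(.lf (nat_lit 1744912630) (dlOf (nat_lit 1) (nat_lit 0x40028090a81)))) 
(.lf (nat_lit 3959505142) (dlOf (nat_lit 2) (nat_lit 0x4037000e2018090480))))) (.nd (nat_lit 19) 
(.nd (nat_lit 11) (.nd (nat_lit 29) 
(.lf (nat_lit 4563484918) (dlOf (nat_lit 2) (nat_lit 0xc1009000534080210008009400200ee0008090a83))) 
(.lf (nat_lit 805388534) (dlOf (nat_lit 2) (nat_lit 0x1000000918080028008001400200060008090483)))) 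
(.lf (nat_lit 1342265590) (dlOf (nat_lit 1) (nat_lit 0x2e000801880020080000800a983)))) 
(.nd (nat_lit 9) (.nd (nat_lit 20) 
(.lf (nat_lit 474562806) (dlOf (nat_lit 1) (nat_lit 0x2ec002003200091a2482))) 
(.lf (nat_lit 1343832310) (dlOf (nat_lit 3) (nat_lit 0x40998003580800205680014804000c00200020008370602)))) 
(.lf (nat_lit 1410156278) (dlOf (nat_lit 1) (nat_lit 0x2c004000a00180f3b82)))))))) (.nd (nat_lit 7) 
(.nd (nat_lit 5) (.nd (nat_lit 26) (.nd (nat_lit 27) (.nd (nat_lit 9) 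
(.lf (nat_lit 2953134422) (dlOf (nat_lit 1) (nat_lit 0x840008160881))) 
(.lf (nat_lit 20005718) (dlOf (nat_lit 1) (nat_lit 0x1000189d2501)))) (.nd (nat_lit 28) 
(.lf (nat_lit 6576750934) (dlOf (nat_lit 1) (nat_lit 0x4002000200080b0682))) 
(.lf (nat_lit 939606358) (dlOf (nat_lit 9) (nat_lit 0xca0000002781004a000000134080450000000980400e0048005401f002d00d0001081801e800000070040158000000360201220000001a81000200d000000080110008000800200b000080b0683))))) 
(.nd (nat_lit 27) (.nd (nat_lit 28) 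
(.lf (nat_lit 5972771158) (dlOf (nat_lit 1) (nat_lit 0x4002000200080b0682))) 
(.lf (nat_lit 2483110230) (dlOf (nat_lit 4) (nat_lit 0x4028000258100020140001200800a00a80034050000440400300028014d01)))) 
(.nd (nat_lit 9) (.nd (nat_lit 29) 
(.lf (nat_lit 2348892502) (dlOf (nat_lit 1) (nat_lit 0x320028014e01))) 
(.lf (nat_lit 1812021590) (dlOf (nat_lit 9) (nat_lit 0xca0000002781004a000000134080450000000980400e0048005401f002d00d0001081801e800000070040158000000360201220000001a81000200d000000080110008000800200b000080b0683)))) 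
(.lf (nat_lit 4227947350) (dlOf (nat_lit 2) (nat_lit 0x400c8015dc0400140040026000800bc82)))))) 
(.nd (nat_lit 11) (.nd (nat_lit 9) (.nd (nat_lit 18) 
(.lf (nat_lit 805388662) (dlOf (nat_lit 2) (nat_lit 0x181500192c04000c00400020018090782))) 
(.nd (nat_lit 26) (.lf (nat_lit 5637489014) (dlOf (nat_lit 1) (nat_lit 0x7000080f5801))) 
(.lf (nat_lit 6241468790) (dlOf (nat_lit 1) (nat_lit 0x7000080f5801))))) (.nd (nat_lit 12) 
(.lf (nat_lit 4362159990) (dlOf (nat_lit 3) (nat_lit 0x80198000280800100cc00010040034004005a0008004082))) 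
(.lf (nat_lit 8214390) (dlOf (nat_lit 1) (nat_lit 0x27000800040020044000851a303))))) 
(.nd (nat_lit 10) (.nd (nat_lit 23) (.nd (nat_lit 31) 
(.lf (nat_lit 1409370486) (dlOf (nat_lit 2) (nat_lit 0x3202f805100080058008002000200100008004e83))) 
(.lf (nat_lit 3556854134) (dlOf (nat_lit 1) (nat_lit 0x8004000200080d4e82)))) 
(.lf (nat_lit 58804598) (dlOf (nat_lit 1) (nat_lit 0x200097e4e81)))) 
(.lf (nat_lit 1409371510) (dlOf (nat_lit 1) (nat_lit 0x18008000800200020008006b83)))))) 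
(.nd (nat_lit 25) (.nd (nat_lit 26) (.nd (nat_lit 5) (.nd (nat_lit 10) (.nd (nat_lit 20) 
(.lf (nat_lit 8733654) (dlOf (nat_lit 1) (nat_lit 0x400400020008512882))) 
(.lf (nat_lit 3493151702) (dlOf (nat_lit 1) (nat_lit 0x200180f2881)))) 
(.lf (nat_lit 536954838) (dlOf (nat_lit 3) (nat_lit 0xb005f0000801005e02f800038080040008016000200100008004503)))) 
(.nd (nat_lit 32) (.nd (nat_lit 19) 
(.lf (nat_lit 1346456566) (dlOf (nat_lit 2) (nat_lit 0x1880000009804018c00200100008f65f02))) 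
(.lf (nat_lit 20532214) (dlOf (nat_lit 1) (nat_lit 0x8002000600089d5f02)))) (.nd (nat_lit 18) 
(.lf (nat_lit 5637229558) (dlOf (nat_lit 2) (nat_lit 0x300500005804008400400060008055f02))) 
(.lf (nat_lit 5771709430) (dlOf (nat_lit 1) (nat_lit 0x800200060008005f02)))))) (.nd (nat_lit 28) 
(.nd (nat_lit 18) (.nd (nat_lit 19) 
(.lf (nat_lit 4362159062) (dlOf (nat_lit 1) (nat_lit 0x80018002881))) 
(.lf (nat_lit 2752070614) (dlOf (nat_lit 1) (nat_lit 0x10008000400200020008002883)))) 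
(.nd (nat_lit 19) (.lf (nat_lit 2751808470) (dlOf (nat_lit 1) (nat_lit 0x20028002881))) 
(.lf (nat_lit 2752332758) (dlOf (nat_lit 1) (nat_lit 0x20018002881))))) (.nd (nat_lit 29) 
(.nd (nat_lit 10) (.lf (nat_lit 472990678) (dlOf (nat_lit 1) (nat_lit 0x20028bb2881))) 
(.lf (nat_lit 469845974) (dlOf (nat_lit 1) (nat_lit 0x4000200100008004502)))) (.nd (nat_lit 18) 
(.lf (nat_lit 6375424982) (dlOf (nat_lit 1) (nat_lit 0xc0018002881))) 
(.lf (nat_lit 4093985750) (dlOf (nat_lit 1) (nat_lit 0x200008002881))))))) (.nd (nat_lit 19) 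
(.nd (nat_lit 5) (.nd (nat_lit 21) (.nd (nat_lit 22) 
(.lf (nat_lit 51725270) (dlOf (nat_lit 1) (nat_lit 0x20019512881))) 
(.lf (nat_lit 47530966) (dlOf (nat_lit 1) (nat_lit 0x400400020019402882)))) (.nd (nat_lit 18) 
(.lf (nat_lit 36783062) (dlOf (nat_lit 1) (nat_lit 0x20019072881))) 
(.lf (nat_lit 40190934) (dlOf (nat_lit 1) (nat_lit 0x1000191f2881))))) (.nd (nat_lit 11) 
(.lf (nat_lit 36783094) (dlOf (nat_lit 1) (nat_lit 0x40019072881))) (.nd (nat_lit 20) 
(.lf (nat_lit 46222326) (dlOf (nat_lit 4) (nat_lit 0x4293c0005502003749e00026010005a4f000100080128008004000200020009385f03))) 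
(.lf (nat_lit 59853814) (dlOf (nat_lit 2) (nat_lit 0x2521000100080068008000c00200020009845f03)))))) 
(.nd (nat_lit 9) (.nd (nat_lit 11) 
(.lf (nat_lit 50938326) (dlOf (nat_lit 1) (nat_lit 0x400194d7b01))) (.nd (nat_lit 20) 
(.lf (nat_lit 57231830) (dlOf (nat_lit 1) (nat_lit 0x10008000c00200080009794e83))) 
(.lf (nat_lit 37308886) (dlOf (nat_lit 1) (nat_lit 0x200190d4e81))))) (.nd (nat_lit 5) 
(.nd (nat_lit 18) 
(.lf (nat_lit 56181718) (dlOf (nat_lit 1) (nat_lit 0x10008000c00200020009732883))) 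
(.lf (nat_lit 41763798) (dlOf (nat_lit 1) (nat_lit 0x80019242881)))) 
(.lf (nat_lit 46746614) (dlOf (nat_lit 1) (nat_lit 0x5a0029385f01)))))))))) (.nd (nat_lit 6) 
(.nd (nat_lit 5) (.nd (nat_lit 18) (.nd (nat_lit 28) (.nd (nat_lit 7) (.nd (nat_lit 19) 
(.nd (nat_lit 26) (.nd (nat_lit 8) (.nd (nat_lit 21) 
(.lf (nat_lit 134430742) (dlOf (nat_lit 2) (nat_lit 0xe00000343018020480))) 
(.lf (nat_lit 52641814) (dlOf (nat_lit 1) (nat_lit 0x2c8008008c002007e0009560583)))) 
(.lf (nat_lit 2818792214) (dlOf (nat_lit 1) (nat_lit 0x2001812bb01)))) (.nd (nat_lit 27) 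
(.lf (nat_lit 4362289174) (dlOf (nat_lit 1) (nat_lit 0x20018020481))) (.nd (nat_lit 29) 
(.lf (nat_lit 201539606) (dlOf (nat_lit 2) (nat_lit 0xe0000060d818020480))) 
(.lf (nat_lit 1812152342) (dlOf (nat_lit 3) (nat_lit 0xcc036006860200dc00b0021000000000100040008005400200260008160483)))))) 
(.nd (nat_lit 20) (.nd (nat_lit 21) (.nd (nat_lit 27) 
(.lf (nat_lit 537608214) (dlOf (nat_lit 3) (nat_lit 0x1702d806f100800201c8006c0d200c605b0024011806d382000680080030002003000080d0883))) 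
(.lf (nat_lit 2819309590) (dlOf (nat_lit 1) (nat_lit 0x100018230601)))) 
(.lf (nat_lit 2754297878) (dlOf (nat_lit 2) (nat_lit 0x3000d00da70180d0880)))) (.nd (nat_lit 10) 
(.lf (nat_lit 54214678) (dlOf (nat_lit 1) (nat_lit 0x7000201400009650002))) 
(.lf (nat_lit 54217750) (dlOf (nat_lit 3) (nat_lit 0x9427c007a12d0042081001f80f4000ac10009827c007c12d003e081002080f40002610000800400020019655f82)))))) 
(.nd (nat_lit 9) (.nd (nat_lit 20) (.nd (nat_lit 8) 
(.lf (nat_lit 16990358) (dlOf (nat_lit 1) (nat_lit 0xc00288e0481))) 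
(.lf (nat_lit 33769878) (dlOf (nat_lit 1) (nat_lit 0x400400020008f54e82)))) (.nd (nat_lit 21) 
(.lf (nat_lit 9650582) (dlOf (nat_lit 1) (nat_lit 0x400200020008576482))) 
(.lf (nat_lit 62079382) (dlOf (nat_lit 1) (nat_lit 0x294002006a0009956482))))) (.nd (nat_lit 8) 
(.lf (nat_lit 1745046166) (dlOf (nat_lit 1) (nat_lit 0x400200020008095502))) (.nd (nat_lit 10) 
(.lf (nat_lit 20138902) (dlOf (nat_lit 1) (nat_lit 0x200289d5c81))) 
(.lf (nat_lit 2751678358) (dlOf (nat_lit 1) (nat_lit 0x400200020008004202))))))) (.nd (nat_lit 27) 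
(.nd (nat_lit 26) (.nd (nat_lit 21) (.nd (nat_lit 29) 
(.lf (nat_lit 1342390294) (dlOf (nat_lit 1) (nat_lit 0x2800400260008020482))) 
(.lf (nat_lit 2953003030) (dlOf (nat_lit 1) (nat_lit 0xec00400d20008080482)))) (.nd (nat_lit 10) 
(.lf (nat_lit 3492495382) (dlOf (nat_lit 2) (nat_lit 0x3000d00bf10180d0880))) 
(.lf (nat_lit 3493020694) (dlOf (nat_lit 1) (nat_lit 0x200280f2881))))) (.nd (nat_lit 7) 
(.nd (nat_lit 19) 
(.lf (nat_lit 5704466454) (dlOf (nat_lit 4) (nat_lit 0x2c0360002019000c005803638180008064001401600d8d04001800b006c20180a0a00))) 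
(.lf (nat_lit 1410023446) (dlOf (nat_lit 3) (nat_lit 0x1702d80612c0800201c8006c0d200c605b0024011805f882000680080030002003000080d0883)))) 
(.lf (nat_lit 1409501590) (dlOf (nat_lit 1) (nat_lit 0x20028004e81))))) (.nd (nat_lit 26) 
(.nd (nat_lit 8) (.nd (nat_lit 30) 
(.lf (nat_lit 939737110) (dlOf (nat_lit 3) (nat_lit 0xcc03600c1b0200dc00b0021000000000100040008005400200260008160483))) 
(.lf (nat_lit 6308446230) (dlOf (nat_lit 4) (nat_lit 0x2c0360002019000c0058023a81800080640014016008e904001800b0046f8180a0a00)))) 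
(.nd (nat_lit 7) (.lf (nat_lit 402867478) (dlOf (nat_lit 1) (nat_lit 0x20028093081))) 
(.lf (nat_lit 5771577750) (dlOf (nat_lit 1) (nat_lit 0xc00200060008004e82))))) (.nd (nat_lit 19) 
(.nd (nat_lit 29) (.lf (nat_lit 469975062) (dlOf (nat_lit 1) (nat_lit 0x2800400260008020482))) 
(.lf (nat_lit 4228071446) (dlOf (nat_lit 1) (nat_lit 0x20018020481)))) 
(.lf (nat_lit 3154853910) (dlOf (nat_lit 1) (nat_lit 0x8008000400200060008350503))))))) 
(.nd (nat_lit 21) (.nd (nat_lit 7) (.nd (nat_lit 20) (.nd (nat_lit 26) (.nd (nat_lit 27) 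
(.lf (nat_lit 5906055190) (dlOf (nat_lit 4) (nat_lit 0x3c00000211020020000001078100020128004e008011800800b8002000a0008190a83))) 
(.lf (nat_lit 3624353814) (dlOf (nat_lit 1) (nat_lit 0x20028170881)))) (.nd (nat_lit 19) 
(.nd (nat_lit 27) 
(.lf (nat_lit 6510034966) (dlOf (nat_lit 4) (nat_lit 0x3c000001fc020020000000fd0100020130004e008011800800b8002000a0008190a83))) 
(.lf (nat_lit 2886156310) (dlOf (nat_lit 1) (nat_lit 0x20028170881)))) 
(.lf (nat_lit 1007632406) (dlOf (nat_lit 1) (nat_lit 0xe0018560081))))) (.nd (nat_lit 22) 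
(.nd (nat_lit 25) 
(.lf (nat_lit 1523734) (dlOf (nat_lit 2) (nat_lit 0x223c00011184003cc08000c004000200180e0a82))) 
(.lf (nat_lit 35078166) (dlOf (nat_lit 1) (nat_lit 0x40018fd0081)))) 
(.lf (nat_lit 22495254) (dlOf (nat_lit 1) (nat_lit 0x8008000400200020008af0603))))) 
(.nd (nat_lit 26) (.nd (nat_lit 10) (.nd (nat_lit 22) 
(.lf (nat_lit 134693014) (dlOf (nat_lit 2) (nat_lit 0xd00000000004017c002000a0008090182))) 
(.lf (nat_lit 55001238) (dlOf (nat_lit 3) (nat_lit 0x1325380004808003129c000220400c0004002a0009681102)))) 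
(.lf (nat_lit 47662230) (dlOf (nat_lit 3) (nat_lit 0x26a8e0008802000f54800042819402b80)))) 
(.nd (nat_lit 27) (.lf (nat_lit 4362551446) (dlOf (nat_lit 1) (nat_lit 0x20028090181))) 
(.nd (nat_lit 28) 
(.lf (nat_lit 201801878) (dlOf (nat_lit 2) (nat_lit 0xd00000000004017c002000a0008090182))) 
(.lf (nat_lit 4228333718) (dlOf (nat_lit 1) (nat_lit 0x20028090181))))))) (.nd (nat_lit 19) 
(.nd (nat_lit 31) (.nd (nat_lit 8) 
(.lf (nat_lit 3620886) (dlOf (nat_lit 2) (nat_lit 0x726480000008009000800ac00200640008210883))) 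
(.lf (nat_lit 52905238) (dlOf (nat_lit 1) (nat_lit 0x8008000400200020009573083)))) 
(.nd (nat_lit 26) 
(.lf (nat_lit 3492233238) (dlOf (nat_lit 6) (nat_lit 0xc87a80323a04004c464002c1ea00c8e020012119000987f000d83ce015ad06003623200ad601000e0f400060578003029e001813c000c09b8051a42802300080128002008600080b0903))) 
(.lf (nat_lit 2754035734) (dlOf (nat_lit 6) (nat_lit 0xc87f0038d404004c494002c1fc00e348200121250009884400d83f20171406003624a00b8981000e0fd00060550003029e001813c000c09b8051302802300080128002008600080b0903))))) 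
(.nd (nat_lit 8) (.nd (nat_lit 7) (.nd (nat_lit 10) 
(.lf (nat_lit 46088214) (dlOf (nat_lit 4) (nat_lit 0x6588403098040082c420182402003762100c11819380000))) 
(.lf (nat_lit 46091286) (dlOf (nat_lit 3) (nat_lit 0x32d26002568c0023b41000bd7ec000ac100032d26002768c0024b41000c57ec0002610006400200100009385f82)))) 
(.lf (nat_lit 19877014) (dlOf (nat_lit 1) (nat_lit 0x4c004001e00089d6202)))) (.nd (nat_lit 20) 
(.lf (nat_lit 7291158) (dlOf (nat_lit 1) (nat_lit 0x200284b0701))) 
(.lf (nat_lit 3493806358) (dlOf (nat_lit 1) (nat_lit 0x1a00081b0481)))))))) (.nd (nat_lit 31) 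
(.nd (nat_lit 18) (.nd (nat_lit 9) (.nd (nat_lit 19) (.nd (nat_lit 7) (.nd (nat_lit 26) 
(.lf (nat_lit 5234704438) (dlOf (nat_lit 1) (nat_lit 0x7000080b0c01))) 
(.lf (nat_lit 4496506934) (dlOf (nat_lit 5) (nat_lit 0x80058029ec0800d002c014f4040034038002401b002400d0029a4180080068014d004003c004000200080a1002)))) 
(.lf (nat_lit 1543720118) (dlOf (nat_lit 1) (nat_lit 0x2000400120008146282)))) (.nd (nat_lit 20) 
(.lf (nat_lit 11223094) (dlOf (nat_lit 1) (nat_lit 0x120028670781))) (.nd (nat_lit 21) 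
(.lf (nat_lit 1343963190) (dlOf (nat_lit 1) (nat_lit 0x20028381081))) 
(.lf (nat_lit 24854582) (dlOf (nat_lit 1) (nat_lit 0x5400200040008bc1382)))))) (.nd (nat_lit 7) 
(.nd (nat_lit 10) (.nd (nat_lit 20) 
(.lf (nat_lit 6241340214) (dlOf (nat_lit 1) (nat_lit 0x400280d5c01))) 
(.lf (nat_lit 20138806) (dlOf (nat_lit 1) (nat_lit 0x80080004002000200089d5c03)))) 
(.lf (nat_lit 671303478) (dlOf (nat_lit 1) (nat_lit 0x128008017400200300008143e03)))) 
(.nd (nat_lit 10) (.lf (nat_lit 6376606390) (dlOf (nat_lit 1) (nat_lit 0x2e0018095701))) 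
(.lf (nat_lit 671303350) (dlOf (nat_lit 2) (nat_lit 0x802e00036018143a80)))))) (.nd (nat_lit 21) 
(.nd (nat_lit 29) (.nd (nat_lit 19) (.nd (nat_lit 20) 
(.lf (nat_lit 21446710) (dlOf (nat_lit 1) (nat_lit 0x38008001c00200140008a40483))) 
(.lf (nat_lit 9912374) (dlOf (nat_lit 1) (nat_lit 0x400400020008591002)))) 
(.lf (nat_lit 21970998) (dlOf (nat_lit 1) (nat_lit 0x450008002400200040008a80d03)))) 
(.nd (nat_lit 26) (.nd (nat_lit 28) 
(.lf (nat_lit 1611087926) (dlOf (nat_lit 2) (nat_lit 0xa057000e30180d0480))) 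
(.lf (nat_lit 1879523382) (dlOf (nat_lit 1) (nat_lit 0x1960018190481)))) 
(.lf (nat_lit 738672694) (dlOf (nat_lit 2) (nat_lit 0xa057000e30180d0480))))) (.nd (nat_lit 20) 
(.nd (nat_lit 24) 
(.lf (nat_lit 2572342) (dlOf (nat_lit 3) (nat_lit 0x4554c0003b020058a470001b018170b00))) 
(.lf (nat_lit 19349558) (dlOf (nat_lit 1) (nat_lit 0x8004009c0008990c02)))) (.nd (nat_lit 19) 
(.lf (nat_lit 3620918) (dlOf (nat_lit 2) (nat_lit 0xc26380011c08001000803b8002004c0008210b83))) 
(.lf (nat_lit 20922422) (dlOf (nat_lit 1) (nat_lit 0x4004000400189f0482))))))) (.nd (nat_lit 30) 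
(.nd (nat_lit 26) (.nd (nat_lit 9) (.nd (nat_lit 10) (.nd (nat_lit 12) 
(.lf (nat_lit 2953003062) (dlOf (nat_lit 1) (nat_lit 0x100018080801))) 
(.lf (nat_lit 2818789430) (dlOf (nat_lit 2) (nat_lit 0x2e03f0007a818127c80)))) 
(.lf (nat_lit 2818792502) (dlOf (nat_lit 1) (nat_lit 0x7c002006e000812bf02)))) (.nd (nat_lit 27) 
(.lf (nat_lit 2416132662) (dlOf (nat_lit 2) (nat_lit 0x6010000000080008008000400200020008090f83))) 
(.lf (nat_lit 2550350390) (dlOf (nat_lit 2) (nat_lit 0x6010000000080008008000400200020008090f83))))) 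
(.nd (nat_lit 7) (.nd (nat_lit 8) (.nd (nat_lit 18) 
(.lf (nat_lit 2752725046) (dlOf (nat_lit 4) (nat_lit 0x50fe8000879c002a20800103fa00081e7000a80200110fe8004879c001e80800ac00400220018030d02))) 
(.lf (nat_lit 2754035766) (dlOf (nat_lit 2) (nat_lit 0xc02a40000402000a00080b1301)))) 
(.lf (nat_lit 2754829110) (dlOf (nat_lit 1) (nat_lit 0x200080014002001200080fbc83)))) 
(.nd (nat_lit 8) (.lf (nat_lit 6509776054) (dlOf (nat_lit 1) (nat_lit 0x400400020008146282))) 
(.lf (nat_lit 2751678390) (dlOf (nat_lit 1) (nat_lit 0x400200020008004382)))))) (.nd (nat_lit 9) 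
(.nd (nat_lit 18) (.nd (nat_lit 7) (.nd (nat_lit 20) 
(.lf (nat_lit 3288547382) (dlOf (nat_lit 1) (nat_lit 0x60028090001))) 
(.lf (nat_lit 3490922550) (dlOf (nat_lit 4) (nat_lit 0x50f580008748002a20800103d600081d2000a80200110f580048748001e80800ac00400220018030d02)))) 
(.lf (nat_lit 3556987062) (dlOf (nat_lit 4) (nat_lit 0x3c03f0007c81001401f8003d40800a00fc001e80400e4002001c0008127e82)))) 
(.nd (nat_lit 20) (.lf (nat_lit 3557244982) (dlOf (nat_lit 2) (nat_lit 0x180000000a8818170480))) 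
(.lf (nat_lit 4095164470) (dlOf (nat_lit 3) (nat_lit 0x507880090c0800203c40047e04003c00400040008070482))))) 
(.nd (nat_lit 8) (.nd (nat_lit 18) (.nd (nat_lit 26) 
(.lf (nat_lit 4026745398) (dlOf (nat_lit 2) (nat_lit 0x10806c006403400b5018001700a4000001003a8002002a0008090f82))) 
(.lf (nat_lit 3288547894) (dlOf (nat_lit 2) (nat_lit 0x10806c006403400b5018001700a4000001003a8002002a0008090f82)))) 
(.lf (nat_lit 3490660918) (dlOf (nat_lit 3) (nat_lit 0x143cc0002302000a1e600011018018100)))) 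
(.nd (nat_lit 10) 
(.lf (nat_lit 3221445430) (dlOf (nat_lit 1) (nat_lit 0x1c000800080020006000811bc83))) 
(.lf (nat_lit 3288811318) (dlOf (nat_lit 1) (nat_lit 0xfc00080f3e01))))))))) (.nd (nat_lit 18) 
(.nd (nat_lit 9) (.nd (nat_lit 5) (.nd (nat_lit 7) (.nd (nat_lit 8) (.nd (nat_lit 20) 
(.lf (nat_lit 7028822) (dlOf (nat_lit 3) (nat_lit 0x1ac0e0001101000a5330000000800d00080040002000200084b0303))) 
(.lf (nat_lit 5980246) (dlOf (nat_lit 3) (nat_lit 0x1a6790001101000a2688000000800d0008004000200020008420303)))) 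
(.nd (nat_lit 11) (.nd (nat_lit 20) 
(.lf (nat_lit 2310486) (dlOf (nat_lit 1) (nat_lit 0xe0008150681))) 
(.lf (nat_lit 1261910) (dlOf (nat_lit 1) (nat_lit 0x1180080074002000e00080a4d03)))) 
(.lf (nat_lit 671304022) (dlOf (nat_lit 8) (nat_lit 0x290000000600801a807000e801c005c0000000b03000400f8000500800e0000000120400d4038007400e002e00000001418016007000c401c005200000002030027000000004080060008004800200100008144e03))))) 
(.nd (nat_lit 8) (.nd (nat_lit 10) (.nd (nat_lit 12) 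
(.lf (nat_lit 54214870) (dlOf (nat_lit 1) (nat_lit 0x140019650981))) 
(.lf (nat_lit 2818789590) (dlOf (nat_lit 1) (nat_lit 0x20028128081)))) 
(.lf (nat_lit 3489881302) (dlOf (nat_lit 1) (nat_lit 0x580020020000800c382)))) (.nd (nat_lit 10) 
(.nd (nat_lit 29) (.lf (nat_lit 737750) (dlOf (nat_lit 1) (nat_lit 0x40018017b01))) 
(.lf (nat_lit 1611350486) (dlOf (nat_lit 2) (nat_lit 0x240d0000e06600060000008a0180488008007800200360008137b03)))) 
(.lf (nat_lit 4095952342) (dlOf (nat_lit 1) (nat_lit 0x4004000200080e3602)))))) (.nd (nat_lit 26) 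
(.nd (nat_lit 7) (.nd (nat_lit 19) 
(.lf (nat_lit 36915574) (dlOf (nat_lit 1) (nat_lit 0x60019074e81))) 
(.lf (nat_lit 33245558) (dlOf (nat_lit 1) (nat_lit 0x20018f54e81)))) (.nd (nat_lit 8) 
(.lf (nat_lit 5772625142) (dlOf (nat_lit 1) (nat_lit 0x400200020008092e82))) (.nd (nat_lit 27) 
(.lf (nat_lit 4026745334) (dlOf (nat_lit 1) (nat_lit 0x10400400020008090d82))) 
(.lf (nat_lit 3087221238) (dlOf (nat_lit 3) (nat_lit 0x6004800500000005e0800240040002d0200040018157e01)))))) 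
(.nd (nat_lit 12) (.nd (nat_lit 10) 
(.lf (nat_lit 3288547830) (dlOf (nat_lit 1) (nat_lit 0x10400400020008090d82))) 
(.lf (nat_lit 4095952374) (dlOf (nat_lit 1) (nat_lit 0x4004000200080e3682)))) (.nd (nat_lit 11) 
(.lf (nat_lit 3556987382) (dlOf (nat_lit 2) (nat_lit 0x1903a00127c0801d000800c400200620008128683))) 
(.lf (nat_lit 1677941238) (dlOf (nat_lit 1) (nat_lit 0x2002811b281))))))) (.nd (nat_lit 29) 
(.nd (nat_lit 20) (.nd (nat_lit 25) (.nd (nat_lit 7) 
(.lf (nat_lit 3556986710) (dlOf (nat_lit 1) (nat_lit 0xa8008001c00200180008127783))) 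
(.nd (nat_lit 22) (.nd (nat_lit 27) 
(.lf (nat_lit 5637358550) (dlOf (nat_lit 1) (nat_lit 0x4800180d2881))) 
(.lf (nat_lit 402867158) (dlOf (nat_lit 1) (nat_lit 0x20028092881)))) 
(.lf (nat_lit 1346585558) (dlOf (nat_lit 1) (nat_lit 0x400200020008fe2882))))) (.nd (nat_lit 19) 
(.nd (nat_lit 21) (.lf (nat_lit 42157014) (dlOf (nat_lit 1) (nat_lit 0x400400020009242882))) 
(.lf (nat_lit 61031382) (dlOf (nat_lit 1) (nat_lit 0x8400198c2881)))) 
(.lf (nat_lit 34292694) (dlOf (nat_lit 1) (nat_lit 0x120028fb2881))))) (.nd (nat_lit 5) 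
(.nd (nat_lit 19) (.lf (nat_lit 3493020630) (dlOf (nat_lit 1) (nat_lit 0x200280f2881))) 
(.nd (nat_lit 21) (.lf (nat_lit 56312790) (dlOf (nat_lit 1) (nat_lit 0x800200020009732882))) 
(.lf (nat_lit 41632726) (dlOf (nat_lit 1) (nat_lit 0x180029242881))))) (.nd (nat_lit 7) 
(.lf (nat_lit 8083318) (dlOf (nat_lit 1) (nat_lit 0x16000800040020042000851a303))) 
(.lf (nat_lit 20140790) (dlOf (nat_lit 1) (nat_lit 0x4004017800189d8f82)))))) (.nd (nat_lit 5) 
(.nd (nat_lit 27) (.nd (nat_lit 19) 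
(.lf (nat_lit 1610826710) (dlOf (nat_lit 1) (nat_lit 0x20018092881))) 
(.lf (nat_lit 2752201686) (dlOf (nat_lit 1) (nat_lit 0x8008000400200020008002883)))) 
(.nd (nat_lit 10) (.lf (nat_lit 671302614) (dlOf (nat_lit 1) (nat_lit 0x400400020008142882))) 
(.lf (nat_lit 671303638) (dlOf (nat_lit 7) (nat_lit 0x3600400005c0803f00b0010003a00da018007d008001700200144004008e0000000a87004b00e80298060010402000c0008003700280004c2801b0020000240400cc0100000802007002c004600e802b006001c402000640080037001001a00000000a1c00c4004013a0018144502))))) 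
(.nd (nat_lit 7) (.lf (nat_lit 3959637878) (dlOf (nat_lit 1) (nat_lit 0x1bc00200120008114082))) 
(.lf (nat_lit 671302646) (dlOf (nat_lit 1) (nat_lit 0x188008018800200300008142883))))))) 
(.nd (nat_lit 7) (.nd (nat_lit 19) (.nd (nat_lit 5) (.nd (nat_lit 26) (.nd (nat_lit 22) 
(.lf (nat_lit 1611087958) (dlOf (nat_lit 5) (nat_lit 0x3902b00168120048c082013204000490180000cc2800c815c00c8092008404500590220000b42000d0124007408a0064044000158300050000000000800080080064002012600080d0603))) 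
(.lf (nat_lit 21446742) (dlOf (nat_lit 5) (nat_lit 0x4f680000ba860004c040009da0000eea1800174fc000960c0033b40002bd4300020020007ea18000fc080098008008400200400008a40603)))) 
(.nd (nat_lit 20) 
(.lf (nat_lit 738672726) (dlOf (nat_lit 5) (nat_lit 0x3902b00168120048c082013204000490180000c82800c815c00c8092008404500590220000b02000d0124007408a0064044000150300050000000000800080080064002012600080d0603))) 
(.lf (nat_lit 471285846) (dlOf (nat_lit 1) (nat_lit 0x180080010002000800082e0303))))) 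
(.nd (nat_lit 8) (.nd (nat_lit 20) (.nd (nat_lit 27) 
(.lf (nat_lit 4362551414) (dlOf (nat_lit 1) (nat_lit 0x60028090081))) 
(.lf (nat_lit 4228333686) (dlOf (nat_lit 1) (nat_lit 0x60028090081)))) 
(.lf (nat_lit 1345798262) (dlOf (nat_lit 1) (nat_lit 0x1180080064002002c0008df2903)))) 
(.nd (nat_lit 27) (.lf (nat_lit 3490138486) (dlOf (nat_lit 1) (nat_lit 0xc00200020008004e82))) 
(.lf (nat_lit 1476872566) (dlOf (nat_lit 1) (nat_lit 0x4004000200082d4e82)))))) (.nd (nat_lit 8) 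
(.nd (nat_lit 5) (.nd (nat_lit 20) 
(.lf (nat_lit 24068182) (dlOf (nat_lit 1) (nat_lit 0x80018b80001))) 
(.lf (nat_lit 20922454) (dlOf (nat_lit 2) (nat_lit 0x376a18000480800100080004002000200089f0703)))) 
(.nd (nat_lit 11) (.lf (nat_lit 19874422) (dlOf (nat_lit 1) (nat_lit 0x8008002c002000e00089d1903))) 
(.lf (nat_lit 19876470) (dlOf (nat_lit 1) (nat_lit 0x200189d5401))))) (.nd (nat_lit 11) 
(.nd (nat_lit 20) (.nd (nat_lit 26) 
(.lf (nat_lit 3490660694) (dlOf (nat_lit 3) (nat_lit 0x1e1e8000220100090f4000108080020008000800200200008014d03))) 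
(.lf (nat_lit 2752463190) (dlOf (nat_lit 4) (nat_lit 0xa43f4000610200681fa000200100410fd0000fc08002000800c4002007a0008014e03)))) 
(.lf (nat_lit 18825558) (dlOf (nat_lit 1) (nat_lit 0x400400020008970882)))) (.nd (nat_lit 5) 
(.lf (nat_lit 19877718) (dlOf (nat_lit 1) (nat_lit 0x8002000400089d7782))) 
(.lf (nat_lit 1346324854) (dlOf (nat_lit 1) (nat_lit 0x20028f04e81))))))) (.nd (nat_lit 19) 
(.nd (nat_lit 5) (.nd (nat_lit 31) (.nd (nat_lit 20) (.nd (nat_lit 21) (.nd (nat_lit 27) 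
(.lf (nat_lit 476118) (dlOf (nat_lit 1) (nat_lit 0xc0008002881))) 
(.lf (nat_lit 1208435670) (dlOf (nat_lit 1) (nat_lit 0x4004000200080e2882)))) 
(.lf (nat_lit 52904918) (dlOf (nat_lit 1) (nat_lit 0x18008000800200020009572883)))) 
(.nd (nat_lit 23) 
(.lf (nat_lit 68633558) (dlOf (nat_lit 1) (nat_lit 0x30008000400200020008662883))) 
(.lf (nat_lit 43467734) (dlOf (nat_lit 1) (nat_lit 0x200292a2881))))) (.nd (nat_lit 8) 
(.nd (nat_lit 27) 
(.lf (nat_lit 2416394454) (dlOf (nat_lit 2) (nat_lit 0x310044015401e00b600d000e68381b0480))) 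
(.lf (nat_lit 2550612182) (dlOf (nat_lit 2) (nat_lit 0x310044015401e00b600d000e68381b0480)))) 
(.lf (nat_lit 2751939542) (dlOf (nat_lit 1) (nat_lit 0x400200020008002882))))) (.nd (nat_lit 8) 
(.lf (nat_lit 476918) (dlOf (nat_lit 1) (nat_lit 0x20028003b81))) (.nd (nat_lit 9) 
(.lf (nat_lit 8870390) (dlOf (nat_lit 1) (nat_lit 0x40040002000851b282))) 
(.lf (nat_lit 604455926) (dlOf (nat_lit 1) (nat_lit 0x400082d2881)))))) (.nd (nat_lit 5) 
(.nd (nat_lit 20) (.nd (nat_lit 22) 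
(.lf (nat_lit 3492758486) (dlOf (nat_lit 1) (nat_lit 0x8002000200080f2882))) (.nd (nat_lit 23) 
(.lf (nat_lit 57623510) (dlOf (nat_lit 1) (nat_lit 0x8008000400200020009792883))) 
(.lf (nat_lit 49234902) (dlOf (nat_lit 1) (nat_lit 0x400400020009462882))))) (.nd (nat_lit 8) 
(.lf (nat_lit 46088406) (dlOf (nat_lit 14) (nat_lit 0x7aff0000c40800757f800060040286c420002f02006b62100017010044b108000b408052d884000580403d6c420002b02014562100015010020b108000a40801158840003004006ac42000160200134ae00001810016a46000000084b0000801b400201240009380983))) 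
(.lf (nat_lit 62866390) (dlOf (nat_lit 1) (nat_lit 0xe00299a2881))))) (.nd (nat_lit 20) 
(.nd (nat_lit 12) 
(.lf (nat_lit 2752463350) (dlOf (nat_lit 7) (nat_lit 0x507e0000480400283f00002302013e1f80001101000f0fc0000740800507e00003804002c3f00001b02001a0028017e01))) 
(.lf (nat_lit 19878390) (dlOf (nat_lit 1) (nat_lit 0xf000800dc002000400089d8683)))) 
(.nd (nat_lit 8) (.lf (nat_lit 2755608822) (dlOf (nat_lit 1) (nat_lit 0x200281b0481))) 
(.lf (nat_lit 37700598) (dlOf (nat_lit 1) (nat_lit 0x200190d2881))))))))))))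

end

end Pool.Agent.Lib.MP_5854e1_co.Cz

namespace Pool.Agent.Lib.MP_5854e1_co.Cz

noncomputable section

noncomputable def tz213 : DT := (.nd (nat_lit 17) (.nd (nat_lit 16) (.nd (nat_lit 5) 
(.nd (nat_lit 18) (.nd (nat_lit 11) (.nd (nat_lit 6) (.nd (nat_lit 30) (.nd (nat_lit 21) 
(.nd (nat_lit 7) (.nd (nat_lit 8) (.nd (nat_lit 20) 
(.lf (nat_lit 2819112990) (dlOf (nat_lit 16) (nat_lit 0x1e606a00a60348001681008001a802940d2000590401e606a0002b8101670350001380803b81a80009a0404300d40004c0202f006a000258100dd0350001240800c81a80009004009c0d40003702012006a0001a81013c0350000d00808801a802980d20000504019606a007c0348000101007601a8027c0d20000204008000181a0581))) 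
(.lf (nat_lit 9977886) (dlOf (nat_lit 4) (nat_lit 0x102f00021102005c17800107810015d41007fdd58045adc4023b69f00fbb4c009459d40476c5401b8f85012c1d5008e8e0c01384a4023a226011b0e6008f06ec0020338008c058000a91085a0a80)))) 
(.lf (nat_lit 536889118) (dlOf (nat_lit 1) (nat_lit 0x2c00200140008003c82)))) (.nd (nat_lit 10) 
(.lf (nat_lit 2952811166) (dlOf (nat_lit 4) (nat_lit 0x40028009fe02000c014004fe81001500a0027e00800a800800a400200440008008c83))) 
(.lf (nat_lit 8930974) (dlOf (nat_lit 1) (nat_lit 0x400400a80008513a82))))) (.nd (nat_lit 8) 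
(.nd (nat_lit 20) (.nd (nat_lit 22) 
(.lf (nat_lit 2637854) (dlOf (nat_lit 1) (nat_lit 0x12800400fa0008180602))) 
(.lf (nat_lit 15220766) (dlOf (nat_lit 2) (nat_lit 0xa3a80009604008c004004a00087c0582)))) 
(.nd (nat_lit 25) 
(.lf (nat_lit 2755149854) (dlOf (nat_lit 2) (nat_lit 0x640bc001405c001702c800a815c003fa100064004001e0008120902))) 
(.lf (nat_lit 37240862) (dlOf (nat_lit 1) (nat_lit 0x4002001e00090c0602))))) (.nd (nat_lit 24) 
(.lf (nat_lit 69747998) (dlOf (nat_lit 1) (nat_lit 0x180018bf3101))) 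
(.lf (nat_lit 52970782) (dlOf (nat_lit 1) (nat_lit 0x400400500019573102)))))) (.nd (nat_lit 19) 
(.nd (nat_lit 8) (.nd (nat_lit 9) 
(.lf (nat_lit 1342198814) (dlOf (nat_lit 3) (nat_lit 0x3408e0024f8100070470012780801e8008000c002002c0008009203))) 
(.lf (nat_lit 5435835934) (dlOf (nat_lit 1) (nat_lit 0x18008001000200280008003703)))) 
(.nd (nat_lit 10) (.lf (nat_lit 3493871902) (dlOf (nat_lit 1) (nat_lit 0x4002000200081b0482))) 
(.lf (nat_lit 6039819550) (dlOf (nat_lit 1) (nat_lit 0x1400400020008009702))))) (.nd (nat_lit 20) 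
(.nd (nat_lit 26) (.lf (nat_lit 1879588894) (dlOf (nat_lit 1) (nat_lit 0x400400020018210682))) 
(.lf (nat_lit 3557310494) (dlOf (nat_lit 1) (nat_lit 0x58008001c002000e00081c0583)))) 
(.nd (nat_lit 21) (.lf (nat_lit 1343766558) (dlOf (nat_lit 1) (nat_lit 0x20018360681))) 
(.lf (nat_lit 3493347358) (dlOf (nat_lit 2) (nat_lit 0x640bc001405c001702c800a815c003d6100064004001e0008120902))))))) 
(.nd (nat_lit 19) (.nd (nat_lit 20) (.nd (nat_lit 10) 
(.lf (nat_lit 471875806) (dlOf (nat_lit 5) (nat_lit 0x68730000aa04001848400081cc0001b82000612300078908001c39800021c40001a84000112300070908001439800021c4000190486b0580))) 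
(.nd (nat_lit 26) (.lf (nat_lit 5502944478) (dlOf (nat_lit 1) (nat_lit 0x20018002e01))) 
(.lf (nat_lit 6106924254) (dlOf (nat_lit 1) (nat_lit 0x20028002e01))))) (.nd (nat_lit 7) 
(.lf (nat_lit 30425182) (dlOf (nat_lit 2) (nat_lit 0x1f0c600a7e02000a0018e30481))) (.nd (nat_lit 9) 
(.lf (nat_lit 5772427742) (dlOf (nat_lit 1) (nat_lit 0x2a0018091281))) 
(.lf (nat_lit 472925150) (dlOf (nat_lit 2) (nat_lit 0x104e0019c4080008008000800200040008b52883)))))) 
(.nd (nat_lit 24) (.nd (nat_lit 7) (.nd (nat_lit 20) 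
(.lf (nat_lit 3221766238) (dlOf (nat_lit 1) (nat_lit 0x800200020008181302))) 
(.lf (nat_lit 471351390) (dlOf (nat_lit 2) (nat_lit 0x82ca001c402004400082e0481)))) 
(.lf (nat_lit 67649758) (dlOf (nat_lit 1) (nat_lit 0x800080040002001200082d0583)))) 
(.nd (nat_lit 7) (.nd (nat_lit 9) 
(.lf (nat_lit 21512286) (dlOf (nat_lit 3) (nat_lit 0x1e82e00070da000c7d98001bcf00015df6000340a00159bf0090cdf00626480038721e01c390700e1c76807162e4008f16c01f18b5003fbb98070d698038641201371c300a08db805246c4023634e00bd15200ac84a0070bd980002a4c000c00400080008a40702))) 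
(.lf (nat_lit 61359710) (dlOf (nat_lit 1) (nat_lit 0x170008005000200140009923903)))) 
(.lf (nat_lit 29901022) (dlOf (nat_lit 1) (nat_lit 0x80028e30581))))))) (.nd (nat_lit 6) 
(.nd (nat_lit 7) (.nd (nat_lit 12) (.nd (nat_lit 8) 
(.lf (nat_lit 4094708766) (dlOf (nat_lit 1) (nat_lit 0x1c00400060008056002))) (.nd (nat_lit 26) 
(.lf (nat_lit 3489680670) (dlOf (nat_lit 1) (nat_lit 0x20028006781))) 
(.lf (nat_lit 2483047710) (dlOf (nat_lit 1) (nat_lit 0x18008000800200040008006783))))) 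
(.nd (nat_lit 8) 
(.lf (nat_lit 2952814110) (dlOf (nat_lit 2) (nat_lit 0x28000000a604002c002000e000800cf02))) 
(.nd (nat_lit 26) 
(.lf (nat_lit 2952813854) (dlOf (nat_lit 10) (nat_lit 0x1807000a1404007003800040040025e02000900e0012ec08005007000974040010038004b102000601c0025381000300e0012980800300700080004003c036003f7020060000800c601))) 
(.lf (nat_lit 604003614) (dlOf (nat_lit 2) (nat_lit 0x8074004c5020028002800c601)))))) 
(.nd (nat_lit 26) (.nd (nat_lit 27) (.nd (nat_lit 8) 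
(.lf (nat_lit 3489680542) (dlOf (nat_lit 1) (nat_lit 0x198008003c00200080008006283))) 
(.lf (nat_lit 3489679774) (dlOf (nat_lit 1) (nat_lit 0x20018004e81)))) (.nd (nat_lit 28) 
(.lf (nat_lit 671108254) (dlOf (nat_lit 1) (nat_lit 0x1400400020008006282))) 
(.lf (nat_lit 2550156446) (dlOf (nat_lit 1) (nat_lit 0x400400020008006282))))) (.nd (nat_lit 8) 
(.nd (nat_lit 12) 
(.lf (nat_lit 3288353950) (dlOf (nat_lit 1) (nat_lit 0x8008000400200020008006283))) 
(.lf (nat_lit 3288358046) (dlOf (nat_lit 1) (nat_lit 0x80040002001800c202)))) 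
(.lf (nat_lit 4227881886) (dlOf (nat_lit 1) (nat_lit 0x2001800bc81)))))) (.nd (nat_lit 7) 
(.nd (nat_lit 9) (.nd (nat_lit 8) (.nd (nat_lit 26) 
(.lf (nat_lit 3221248094) (dlOf (nat_lit 1) (nat_lit 0x18002800a801))) 
(.lf (nat_lit 5838493790) (dlOf (nat_lit 1) (nat_lit 0x12001800a801)))) 
(.lf (nat_lit 4227877214) (dlOf (nat_lit 1) (nat_lit 0xc00400040018004e82)))) (.nd (nat_lit 28) 
(.nd (nat_lit 19) (.lf (nat_lit 5368728158) (dlOf (nat_lit 1) (nat_lit 0x20018005381))) 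
(.lf (nat_lit 20466270) (dlOf (nat_lit 1) (nat_lit 0x200189d5381)))) (.nd (nat_lit 27) 
(.lf (nat_lit 6710905438) (dlOf (nat_lit 1) (nat_lit 0x20028005381))) 
(.lf (nat_lit 5771381342) (dlOf (nat_lit 1) (nat_lit 0x20028005381)))))) (.nd (nat_lit 8) 
(.nd (nat_lit 9) 
(.lf (nat_lit 4227882206) (dlOf (nat_lit 1) (nat_lit 0x800800040020002000800c483))) 
(.nd (nat_lit 27) (.lf (nat_lit 5905600222) (dlOf (nat_lit 1) (nat_lit 0x100028007381))) 
(.lf (nat_lit 671108830) (dlOf (nat_lit 2) (nat_lit 0x15004000000080030008005c00200080008007383))))) 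
(.nd (nat_lit 9) (.nd (nat_lit 27) 
(.lf (nat_lit 4362099166) (dlOf (nat_lit 2) (nat_lit 0x59019802fdc0801b000801e80020040000800b283))) 
(.lf (nat_lit 201349598) (dlOf (nat_lit 1) (nat_lit 0x1000800080020002000800b283)))) 
(.lf (nat_lit 469785566) (dlOf (nat_lit 1) (nat_lit 0xc0040004000800bf02)))))))) (.nd (nat_lit 28) 
(.nd (nat_lit 6) (.nd (nat_lit 9) (.nd (nat_lit 29) (.nd (nat_lit 24) (.nd (nat_lit 20) 
(.lf (nat_lit 4362354718) (dlOf (nat_lit 3) (nat_lit 0x20330000f810001019800078080060008000400200100008030b83))) 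
(.lf (nat_lit 5521438) (dlOf (nat_lit 1) (nat_lit 0x1a0018390681)))) (.nd (nat_lit 19) 
(.lf (nat_lit 26492958) (dlOf (nat_lit 1) (nat_lit 0x2a0018c50101))) 
(.lf (nat_lit 18628638) (dlOf (nat_lit 1) (nat_lit 0x8008000400200020008960683))))) 
(.nd (nat_lit 26) (.nd (nat_lit 7) 
(.lf (nat_lit 671367198) (dlOf (nat_lit 12) (nat_lit 0x4500500024d02007a0280012601012101400090c0808300a00048404033c0000014b0201e4000000a381005900e802d00000028408018003a01e4000000a002000c0000004fc0800c0080017803a00b20000009a0300eb0140026807c0000008003400200240008170902))) 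
(.lf (nat_lit 4832117918) (dlOf (nat_lit 1) (nat_lit 0x400080d2b81)))) (.nd (nat_lit 19) 
(.lf (nat_lit 1678000158) (dlOf (nat_lit 1) (nat_lit 0x20008000400200040008130483))) 
(.lf (nat_lit 2754363422) (dlOf (nat_lit 2) (nat_lit 0xc422005c1f900280b88008981800c8008007c002007e00080e0483)))))) 
(.nd (nat_lit 7) (.nd (nat_lit 19) (.nd (nat_lit 31) 
(.lf (nat_lit 1074020894) (dlOf (nat_lit 1) (nat_lit 0x400400020008090d82))) 
(.lf (nat_lit 3221504542) (dlOf (nat_lit 1) (nat_lit 0x400400020018127f02)))) 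
(.lf (nat_lit 1851934) (dlOf (nat_lit 1) (nat_lit 0x8008001800200040008150d83)))) (.nd (nat_lit 19) 
(.lf (nat_lit 35932830) (dlOf (nat_lit 1) (nat_lit 0x60019015581))) (.nd (nat_lit 23) 
(.lf (nat_lit 58477214) (dlOf (nat_lit 1) (nat_lit 0x4004000200097e5582))) 
(.lf (nat_lit 33311390) (dlOf (nat_lit 1) (nat_lit 0x800400060008f55582))))))) (.nd (nat_lit 8) 
(.nd (nat_lit 9) (.nd (nat_lit 7) (.nd (nat_lit 19) 
(.lf (nat_lit 2349088862) (dlOf (nat_lit 1) (nat_lit 0x1c004001c00080a1282))) (.nd (nat_lit 23) 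
(.lf (nat_lit 17580126) (dlOf (nat_lit 2) (nat_lit 0x1f760004e902000a00188e0481))) 
(.lf (nat_lit 59523166) (dlOf (nat_lit 1) (nat_lit 0x10c00400540009800882))))) (.nd (nat_lit 11) 
(.lf (nat_lit 17055966) (dlOf (nat_lit 1) (nat_lit 0xe00088e0581))) 
(.lf (nat_lit 2885961950) (dlOf (nat_lit 2) (nat_lit 0x390200000340802600080204002000a0008144a83))))) 
(.nd (nat_lit 11) (.nd (nat_lit 7) 
(.lf (nat_lit 19677790) (dlOf (nat_lit 1) (nat_lit 0x1a00089d1701))) 
(.lf (nat_lit 8147678) (dlOf (nat_lit 1) (nat_lit 0x400200020008518c82)))) (.nd (nat_lit 23) 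
(.lf (nat_lit 54807134) (dlOf (nat_lit 1) (nat_lit 0x400400020009655382))) 
(.lf (nat_lit 46418526) (dlOf (nat_lit 1) (nat_lit 0x60009385381)))))) (.nd (nat_lit 29) 
(.nd (nat_lit 10) (.nd (nat_lit 21) 
(.lf (nat_lit 3221504350) (dlOf (nat_lit 1) (nat_lit 0x10008000400200020008124e83))) 
(.lf (nat_lit 2376030) (dlOf (nat_lit 2) (nat_lit 0x160d8000380800500080030002000a0008150683)))) 
(.lf (nat_lit 50087262) (dlOf (nat_lit 6) (nat_lit 0xc473a0001981006e39d0000c4080339d1000d8e860002c04012e744000080100253a2000f1d0c0001e08000c004003000194c3402)))) 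
(.nd (nat_lit 7) 
(.lf (nat_lit 2885961566) (dlOf (nat_lit 3) (nat_lit 0x1403d0000b01000301e80001408010800800bc002001e0008143f83))) 
(.nd (nat_lit 9) 
(.lf (nat_lit 5905859038) (dlOf (nat_lit 1) (nat_lit 0x1000800ac002002c0008157d03))) 
(.lf (nat_lit 2885960670) (dlOf (nat_lit 1) (nat_lit 0x280080018002000e0008142883)))))))) 
(.nd (nat_lit 26) (.nd (nat_lit 7) (.nd (nat_lit 19) (.nd (nat_lit 8) 
(.lf (nat_lit 1342455838) (dlOf (nat_lit 4) (nat_lit 0xa6247001238100190aa0007f40800e8550003ce04000800400060008030902))) 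
(.lf (nat_lit 6711166238) (dlOf (nat_lit 1) (nat_lit 0x300018093101)))) (.nd (nat_lit 20) 
(.lf (nat_lit 3492560926) (dlOf (nat_lit 2) (nat_lit 0xc3f8005c1e700280b88008981800c8008007c002007e00080e0483))) 
(.lf (nat_lit 5773213726) (dlOf (nat_lit 4) (nat_lit 0x18812f000230100b50978001140805504bc00070040020002006800080b0182))))) 
(.nd (nat_lit 27) (.nd (nat_lit 32) 
(.lf (nat_lit 268714142) (dlOf (nat_lit 1) (nat_lit 0x200280f2b81))) 
(.lf (nat_lit 4563681438) (dlOf (nat_lit 6) (nat_lit 0x20e0198000ac080fc80cc000540407dc066000290200080340001381000801a00008408027800802a0002001800080c1303)))) 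
(.nd (nat_lit 10) 
(.lf (nat_lit 4697899166) (dlOf (nat_lit 6) (nat_lit 0x20e019800054080fc80cc000280407dc066000130200080340000881000801a00002c08027800802a0002001800080c1303))) 
(.lf (nat_lit 5234771102) (dlOf (nat_lit 1) (nat_lit 0x600180d2b81)))))) (.nd (nat_lit 20) 
(.nd (nat_lit 27) (.nd (nat_lit 6) (.nd (nat_lit 7) 
(.lf (nat_lit 3020177438) (dlOf (nat_lit 1) (nat_lit 0x8008009c00200200008150103))) 
(.lf (nat_lit 6241403038) (dlOf (nat_lit 1) (nat_lit 0x200280e2b81)))) 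
(.lf (nat_lit 2483306590) (dlOf (nat_lit 1) (nat_lit 0x4004000a00080a1302)))) (.nd (nat_lit 10) 
(.nd (nat_lit 29) (.nd (nat_lit 30) 
(.lf (nat_lit 470040606) (dlOf (nat_lit 4) (nat_lit 0xa6247001178100190aa0007ac0800e8550003a404000800400060008030902))) 
(.lf (nat_lit 1543782430) (dlOf (nat_lit 12) (nat_lit 0x450050001b202007a028000d88101210140006a00808300a00034e04033c0000014b0201e4000000a381005900e802d00000028408018003a01e4000000a002000c0000004fc0800c0080017803a00b20000009a0300eb0140026807c0000008003400200240008170902)))) 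
(.lf (nat_lit 4228136990) (dlOf (nat_lit 3) (nat_lit 0x20320000f810001019000078080060008000400200100008030b83)))) 
(.nd (nat_lit 6) (.lf (nat_lit 474236190) (dlOf (nat_lit 1) (nat_lit 0x4004000200090e3102))) 
(.lf (nat_lit 474236126) (dlOf (nat_lit 1) (nat_lit 0x200190e2e01)))))) (.nd (nat_lit 19) 
(.nd (nat_lit 7) 
(.lf (nat_lit 471089182) (dlOf (nat_lit 1) (nat_lit 0x20008003800200200008270503))) 
(.lf (nat_lit 473187486) (dlOf (nat_lit 1) (nat_lit 0x100018d72b81)))) (.nd (nat_lit 29) 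
(.lf (nat_lit 471613470) (dlOf (nat_lit 1) (nat_lit 0x20028360681))) 
(.lf (nat_lit 6377193502) (dlOf (nat_lit 4) (nat_lit 0x188120000230100b509000011408055048000070040020002006800080b0182))))))))) 
(.nd (nat_lit 28) (.nd (nat_lit 19) (.nd (nat_lit 11) (.nd (nat_lit 18) (.nd (nat_lit 6) 
(.nd (nat_lit 9) (.nd (nat_lit 7) 
(.lf (nat_lit 25182270) (dlOf (nat_lit 1) (nat_lit 0x800400020008be1402))) 
(.lf (nat_lit 67129790) (dlOf (nat_lit 1) (nat_lit 0x20018008601)))) (.nd (nat_lit 26) 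
(.lf (nat_lit 5502944830) (dlOf (nat_lit 1) (nat_lit 0x400200020008003782))) 
(.lf (nat_lit 5435835966) (dlOf (nat_lit 2) (nat_lit 0x6901f00009c0800100080004002001a0008003783))))) 
(.nd (nat_lit 10) (.nd (nat_lit 7) 
(.lf (nat_lit 47202430) (dlOf (nat_lit 1) (nat_lit 0x80080004002000600093b0d03))) 
(.lf (nat_lit 40911102) (dlOf (nat_lit 1) (nat_lit 0x20019202901)))) (.nd (nat_lit 8) 
(.nd (nat_lit 9) (.lf (nat_lit 8410366) (dlOf (nat_lit 1) (nat_lit 0x2580080048002004a0008519583))) 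
(.lf (nat_lit 2348828414) (dlOf (nat_lit 1) (nat_lit 0xc00400060018003b82)))) 
(.lf (nat_lit 1207977470) (dlOf (nat_lit 1) (nat_lit 0x20018003681)))))) (.nd (nat_lit 29) 
(.nd (nat_lit 26) (.nd (nat_lit 20) 
(.lf (nat_lit 12861502) (dlOf (nat_lit 1) (nat_lit 0x8004000200086e0c02))) 
(.lf (nat_lit 1327166) (dlOf (nat_lit 5) (nat_lit 0x203640003604000c2c000840d90002038800481940003410009c2c000220650000982001106c8000000802500080054002000800080b0703)))) 
(.nd (nat_lit 27) (.lf (nat_lit 5436096574) (dlOf (nat_lit 1) (nat_lit 0x1600280d0f01))) 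
(.lf (nat_lit 2349088830) (dlOf (nat_lit 6) (nat_lit 0x98011000070080830088000340402e40440000b0200a4022000050100160110000240802400080004002002a00080a0c83))))) 
(.nd (nat_lit 6) (.nd (nat_lit 10) 
(.lf (nat_lit 671367230) (dlOf (nat_lit 15) (nat_lit 0x160140001a00800f00a0000ca0400bc050009200000032020027012802f807c000c208017c03e000600200020000002e81001100000016c0801080a0018c03e0002204000e0000000f01001e0140000700801300a0000360400040500001a02004c0280000c81002c00f80000008032800800ec00200360008170d83))) 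
(.lf (nat_lit 1610892350) (dlOf (nat_lit 1) (nat_lit 0x100028092881)))) (.nd (nat_lit 7) 
(.lf (nat_lit 4832118398) (dlOf (nat_lit 1) (nat_lit 0x4004000200080d3982))) 
(.lf (nat_lit 5905859070) (dlOf (nat_lit 8) (nat_lit 0x5404a0005f02015002500a100b800174100558094027802e0005c040146025002300b8001401005180940008e0402bc04a0182017000210200670128000f4080040008001400200100008157e03))))))) 
(.nd (nat_lit 8) (.nd (nat_lit 6) (.nd (nat_lit 7) (.nd (nat_lit 27) 
(.lf (nat_lit 4362099262) (dlOf (nat_lit 4) (nat_lit 0xdc0330003301001e0198000900803080cc0000004001c004009a000800b482))) 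
(.lf (nat_lit 201349694) (dlOf (nat_lit 2) (nat_lit 0x1c06200027020002002800b481)))) 
(.nd (nat_lit 9) (.nd (nat_lit 26) (.lf (nat_lit 19646) (dlOf (nat_lit 1) (nat_lit 0xc0018006301))) 
(.lf (nat_lit 3288353982) (dlOf (nat_lit 2) (nat_lit 0xee020007d00c403b006001ea02a00f20148067808c03b8044005802000ee00f807700300014016000231603980028006301)))) 
(.lf (nat_lit 2754629310) (dlOf (nat_lit 3) (nat_lit 0x88048003e02000017020004012000100800005608004c004000800180f7282))))) 
(.nd (nat_lit 26) (.nd (nat_lit 7) 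
(.lf (nat_lit 3221244030) (dlOf (nat_lit 1) (nat_lit 0x80028004781))) 
(.lf (nat_lit 40127230) (dlOf (nat_lit 1) (nat_lit 0xc00291f5a81)))) (.nd (nat_lit 27) 
(.lf (nat_lit 6509578366) (dlOf (nat_lit 1) (nat_lit 0x40028004781))) 
(.lf (nat_lit 1811957886) (dlOf (nat_lit 1) (nat_lit 0x4400400040008004782)))))) (.nd (nat_lit 26) 
(.nd (nat_lit 9) (.nd (nat_lit 12) 
(.lf (nat_lit 20204862) (dlOf (nat_lit 1) (nat_lit 0x2b0008009c002004600089d6903))) 
(.lf (nat_lit 134241598) (dlOf (nat_lit 2) (nat_lit 0x280ec009d20400040040008000800c902)))) 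
(.nd (nat_lit 12) (.lf (nat_lit 19942206) (dlOf (nat_lit 1) (nat_lit 0x4002000200089d5c02))) 
(.lf (nat_lit 6442474302) (dlOf (nat_lit 1) (nat_lit 0x800801ec0020172000800bc83))))) 
(.nd (nat_lit 6) (.nd (nat_lit 9) 
(.lf (nat_lit 4362094910) (dlOf (nat_lit 1) (nat_lit 0x7c004006e0008004c82))) 
(.lf (nat_lit 4496575294) (dlOf (nat_lit 3) (nat_lit 0x603400160190005381000280d00028e040028002000c00080e5c02)))) 
(.nd (nat_lit 7) (.lf (nat_lit 2754628990) (dlOf (nat_lit 1) (nat_lit 0x400180f6c01))) 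
(.lf (nat_lit 4362099198) (dlOf (nat_lit 2) (nat_lit 0x3f019802fe808022800800180020014000800b283)))))))) 
(.nd (nat_lit 18) (.nd (nat_lit 21) (.nd (nat_lit 26) (.nd (nat_lit 27) (.nd (nat_lit 22) 
(.lf (nat_lit 3221766206) (dlOf (nat_lit 1) (nat_lit 0x20018180c81))) 
(.lf (nat_lit 4735038) (dlOf (nat_lit 1) (nat_lit 0x8002000400082b0482)))) (.nd (nat_lit 29) 
(.lf (nat_lit 134758462) (dlOf (nat_lit 2) (nat_lit 0x40000001402000200080b1881))) 
(.lf (nat_lit 2819113022) (dlOf (nat_lit 1) (nat_lit 0xa00181a0901))))) (.nd (nat_lit 27) 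
(.nd (nat_lit 6) 
(.lf (nat_lit 1678262334) (dlOf (nat_lit 7) (nat_lit 0x2a8110001480400b8088000a10200d401b0004a01008500d80024c080218130000406a0009104008804c003a01a8002401001b80080054002000200081c0c03))) 
(.lf (nat_lit 604520702) (dlOf (nat_lit 2) (nat_lit 0x403f000b00182e2900)))) (.nd (nat_lit 29) 
(.lf (nat_lit 201867326) (dlOf (nat_lit 2) (nat_lit 0x40000001402000200080b1881))) 
(.lf (nat_lit 3959963710) (dlOf (nat_lit 1) (nat_lit 0x20018180c81)))))) (.nd (nat_lit 6) 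
(.nd (nat_lit 7) (.nd (nat_lit 25) 
(.lf (nat_lit 15220798) (dlOf (nat_lit 1) (nat_lit 0x194002009600087c0902))) 
(.lf (nat_lit 48775230) (dlOf (nat_lit 2) (nat_lit 0x401f000020500011e029420600)))) 
(.lf (nat_lit 41436350) (dlOf (nat_lit 1) (nat_lit 0x40019242c81)))) (.nd (nat_lit 7) 
(.lf (nat_lit 20466302) (dlOf (nat_lit 1) (nat_lit 0x200189d5481))) 
(.lf (nat_lit 57166590) (dlOf (nat_lit 1) (nat_lit 0x20008000c00200020009795a83)))))) 
(.nd (nat_lit 20) (.nd (nat_lit 6) (.nd (nat_lit 8) (.nd (nat_lit 23) 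
(.lf (nat_lit 802878) (dlOf (nat_lit 1) (nat_lit 0x20028020701))) 
(.lf (nat_lit 59523134) (dlOf (nat_lit 1) (nat_lit 0x12000400880009800602)))) 
(.lf (nat_lit 51134782) (dlOf (nat_lit 8) (nat_lit 0x35d080004e830003b8200047420001d808003ba10000e204001dd080007002000ee8400031810007742000184080043a100000004003800400020019507d02)))) 
(.lf (nat_lit 57428734) (dlOf (nat_lit 1) (nat_lit 0x1f800400d80009795a82)))) (.nd (nat_lit 8) 
(.nd (nat_lit 9) (.nd (nat_lit 22) 
(.lf (nat_lit 10240062) (dlOf (nat_lit 2) (nat_lit 0xaa220003802000400085c0d81))) 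
(.lf (nat_lit 22822974) (dlOf (nat_lit 19) (nat_lit 0x12d4b0001f8100166a58000f408005b52c0006c040051a9600034020026d4b000168100066a58000a808004b52c00052040009a960002302000ad4b000100100066a580007c08006352c0003a040015a960001c02000ed4b000060100056a580002c08002352c00014040029a9600009020004d4b0000401000f6a5800000080028008006400200080008b30e83)))) 
(.lf (nat_lit 1851966) (dlOf (nat_lit 1) (nat_lit 0x440008151081)))) (.nd (nat_lit 6) 
(.lf (nat_lit 8148286) (dlOf (nat_lit 1) (nat_lit 0x400200020008519902))) 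
(.lf (nat_lit 1851902) (dlOf (nat_lit 1) (nat_lit 0x20028150d81)))))))) (.nd (nat_lit 30) 
(.nd (nat_lit 26) (.nd (nat_lit 6) (.nd (nat_lit 7) (.nd (nat_lit 18) 
(.lf (nat_lit 805847102) (dlOf (nat_lit 7) (nat_lit 0x170110001400401540880009f0200d401b0004a01008500d80024c080218130000406a0009204008804c003a01a8002441001b80080054002000200081c0c03))) 
(.lf (nat_lit 402931774) (dlOf (nat_lit 1) (nat_lit 0x24002000200080b0482)))) (.nd (nat_lit 10) 
(.lf (nat_lit 4563681470) (dlOf (nat_lit 2) (nat_lit 0x30014800900840424026021401000c90038000c828021000813c0002009e00080c1a83))) 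
(.nd (nat_lit 12) (.lf (nat_lit 2550156478) (dlOf (nat_lit 1) (nat_lit 0x8800400140018006302))) 
(.lf (nat_lit 2550160574) (dlOf (nat_lit 1) (nat_lit 0x20001800c201)))))) (.nd (nat_lit 10) 
(.nd (nat_lit 7) (.nd (nat_lit 27) 
(.lf (nat_lit 2416197758) (dlOf (nat_lit 1) (nat_lit 0x400200020008090082))) 
(.lf (nat_lit 2550415486) (dlOf (nat_lit 1) (nat_lit 0x400200020008090082)))) 
(.lf (nat_lit 2415936510) (dlOf (nat_lit 1) (nat_lit 0x20028002881)))) (.nd (nat_lit 11) 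
(.lf (nat_lit 5234508926) (dlOf (nat_lit 1) (nat_lit 0x400400100018002a82))) 
(.lf (nat_lit 2550156414) (dlOf (nat_lit 1) (nat_lit 0x20028006101)))))) (.nd (nat_lit 18) 
(.nd (nat_lit 7) (.nd (nat_lit 6) (.nd (nat_lit 9) 
(.lf (nat_lit 4630528062) (dlOf (nat_lit 1) (nat_lit 0x400400020008000002))) 
(.lf (nat_lit 4630529598) (dlOf (nat_lit 1) (nat_lit 0x400400020008003782)))) 
(.lf (nat_lit 469784958) (dlOf (nat_lit 1) (nat_lit 0x10e001800af01)))) (.nd (nat_lit 6) 
(.nd (nat_lit 8) 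
(.lf (nat_lit 2483047614) (dlOf (nat_lit 3) (nat_lit 0xe1017005080a8036805000880250006012004a8078037403001c2010003000780590038010401a01ba00c007a004806f000c0328000000231e00300100005007000080100090008004800200300008006303))) 
(.lf (nat_lit 473450942) (dlOf (nat_lit 1) (nat_lit 0xa0028f54e81)))) 
(.lf (nat_lit 469783550) (dlOf (nat_lit 3) (nat_lit 0x4008e0051a0100020470028cc0800c80080004002000e0008009203))))) 
(.nd (nat_lit 6) (.nd (nat_lit 27) (.nd (nat_lit 31) 
(.lf (nat_lit 335822910) (dlOf (nat_lit 1) (nat_lit 0x24002000200080b0482))) 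
(.lf (nat_lit 2483306558) (dlOf (nat_lit 6) (nat_lit 0x980110000d0080830088000640402e4044000230200a4022000110100160110000840802400080004002002a00080a0c83)))) 
(.lf (nat_lit 470040638) (dlOf (nat_lit 2) (nat_lit 0x281248000e0080010008001c00200a20008030d83)))) 
(.lf (nat_lit 5167661182) (dlOf (nat_lit 1) (nat_lit 0x5000806ec00204f000080f0d03)))))) 
(.nd (nat_lit 11) (.nd (nat_lit 19) (.nd (nat_lit 7) (.nd (nat_lit 6) (.nd (nat_lit 8) 
(.nd (nat_lit 26) 
(.lf (nat_lit 1342455870) (dlOf (nat_lit 2) (nat_lit 0x281248000d8080010008001c00200a20008030d83))) 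
(.lf (nat_lit 1543782462) (dlOf (nat_lit 15) (nat_lit 0x27012802f807c000d408017c03e0006902002c0280003281001e0140001880801780a00124000000610400020000002e81001100000016c0801080a0018c03e0002204000e0000000f01001e0140000700801300a0000360400040500001a02004c0280000c81002c00f80000008032800800ec00200360008170d83)))) 
(.lf (nat_lit 1342198078) (dlOf (nat_lit 1) (nat_lit 0x8008000400200020008008183)))) 
(.lf (nat_lit 3494133886) (dlOf (nat_lit 2) (nat_lit 0x60f900110260007e8100058008000c002001c00081b0083)))) 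
(.nd (nat_lit 6) (.nd (nat_lit 12) 
(.lf (nat_lit 3494133950) (dlOf (nat_lit 1) (nat_lit 0x900080078002005000081b0403))) 
(.lf (nat_lit 1342197950) (dlOf (nat_lit 1) (nat_lit 0xfc00200800008007e82)))) 
(.lf (nat_lit 3493087230) (dlOf (nat_lit 1) (nat_lit 0xa000800b8002001400080f4703))))) 
(.nd (nat_lit 18) (.nd (nat_lit 10) 
(.lf (nat_lit 3492298814) (dlOf (nat_lit 3) (nat_lit 0x7483ce000550201461fc01c00f38001501002a000800ec002009200080c1403))) 
(.lf (nat_lit 1344816190) (dlOf (nat_lit 1) (nat_lit 0xc00200020008982882)))) (.nd (nat_lit 21) 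
(.nd (nat_lit 26) 
(.lf (nat_lit 5773213758) (dlOf (nat_lit 17) (nat_lit 0xe04c4004340400702620021602005813100110980008141001284fc019c2640007d04003813f0003e0100c709f809c04c8000ea0805bc27e036e1320003982001509f800784c80006008047027e02201320001482014409f809684c80003e08006427e00501320000f02011f09f807d84c80003a0804a827e02301320000e02015209f80ce84c80003608055027e03361320000d020022098800000080040008003c002001200080b0483))) 
(.lf (nat_lit 6377193534) (dlOf (nat_lit 17) (nat_lit 0xe04880042c0400702440021202005812200110908008101001284c8019c2460007d0400381320003e0100c7099009c048c000ea0805bc264036e123000398200150990007848c000560804702640220123000118201440990096848c0003408006426400501230000c82011f099007d848c000300804a826402301230000b82015209900ce848c0002c08055026403361230000a820022091000000080040008003c002001200080b0483)))) 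
(.lf (nat_lit 1346125886) (dlOf (nat_lit 2) (nat_lit 0x2d82c004a214d00e406c80840360032413800c808d00123868e60600)))))) 
(.nd (nat_lit 6) (.nd (nat_lit 8) (.nd (nat_lit 7) (.nd (nat_lit 9) 
(.lf (nat_lit 5838493758) (dlOf (nat_lit 1) (nat_lit 0x8001800a681))) 
(.lf (nat_lit 1881426494) (dlOf (nat_lit 1) (nat_lit 0x14004000c0008f05202)))) 
(.lf (nat_lit 3489680574) (dlOf (nat_lit 2) (nat_lit 0x13c04600ae01e00011828006300)))) 
(.nd (nat_lit 12) 
(.lf (nat_lit 3624160574) (dlOf (nat_lit 2) (nat_lit 0x100000000b80800180080064002001c0008146903))) 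
(.lf (nat_lit 4227882302) (dlOf (nat_lit 1) (nat_lit 0x160002002a000800c902))))) (.nd (nat_lit 9) 
(.nd (nat_lit 8) (.nd (nat_lit 10) 
(.lf (nat_lit 1543522430) (dlOf (nat_lit 7) (nat_lit 0xc058000401d002100c000180400068000000340a003602c000b01180120074007c030003c010000a0000000c830001000000062040034058002401d0018004000b8008006c0000002f0a00060080001501000300400009c080078008001c00200120008004783))) 
(.lf (nat_lit 3489680510) (dlOf (nat_lit 1) (nat_lit 0x18008002000200060008006103)))) 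
(.lf (nat_lit 3489679742) (dlOf (nat_lit 2) (nat_lit 0x201a4025e404004c00400060018004e82)))) 
(.nd (nat_lit 7) (.lf (nat_lit 5771381374) (dlOf (nat_lit 1) (nat_lit 0x20028005481))) 
(.lf (nat_lit 6377458430) (dlOf (nat_lit 1) (nat_lit 0x80080110002003c00080e5a83)))))))))) 
(.nd (nat_lit 28) (.nd (nat_lit 5) (.nd (nat_lit 18) (.nd (nat_lit 6) (.nd (nat_lit 19) 
(.nd (nat_lit 8) (.nd (nat_lit 9) (.nd (nat_lit 31) 
(.lf (nat_lit 1208041502) (dlOf (nat_lit 1) (nat_lit 0x8008000400200020008090003))) 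
(.lf (nat_lit 3355525150) (dlOf (nat_lit 1) (nat_lit 0x200280a0001)))) (.nd (nat_lit 7) 
(.lf (nat_lit 2755740190) (dlOf (nat_lit 1) (nat_lit 0x2080080044002000a00081b0d83))) 
(.lf (nat_lit 58804894) (dlOf (nat_lit 1) (nat_lit 0x200097e5581))))) (.nd (nat_lit 10) 
(.nd (nat_lit 21) (.lf (nat_lit 604061982) (dlOf (nat_lit 1) (nat_lit 0x2c0018010701))) 
(.lf (nat_lit 2179358) (dlOf (nat_lit 1) (nat_lit 0x1000400040018150482)))) 
(.lf (nat_lit 6106989854) (dlOf (nat_lit 1) (nat_lit 0xa0018003101))))) (.nd (nat_lit 21) 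
(.nd (nat_lit 7) (.nd (nat_lit 9) 
(.lf (nat_lit 42549278) (dlOf (nat_lit 2) (nat_lit 0x1b80000000004001800400140009260102))) 
(.lf (nat_lit 50938398) (dlOf (nat_lit 1) (nat_lit 0x4004000800094d8702)))) 
(.lf (nat_lit 609438) (dlOf (nat_lit 1) (nat_lit 0x4004008e0008006282)))) (.nd (nat_lit 22) 
(.nd (nat_lit 23) 
(.lf (nat_lit 36257822) (dlOf (nat_lit 2) (nat_lit 0x17c0780003b0200220019050101))) 
(.lf (nat_lit 27869214) (dlOf (nat_lit 1) (nat_lit 0x8008000400200020008d30503)))) 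
(.lf (nat_lit 15286302) (dlOf (nat_lit 1) (nat_lit 0x800287d0481)))))) (.nd (nat_lit 7) 
(.nd (nat_lit 10) (.nd (nat_lit 26) (.nd (nat_lit 29) 
(.lf (nat_lit 6576750942) (dlOf (nat_lit 2) (nat_lit 0x10068000b40800080080014002001000080b0683))) 
(.lf (nat_lit 1744912734) (dlOf (nat_lit 1) (nat_lit 0x18008000400200020008090e03)))) 
(.nd (nat_lit 27) 
(.lf (nat_lit 5972771166) (dlOf (nat_lit 2) (nat_lit 0x10068000b40800080080014002001000080b0683))) 
(.lf (nat_lit 1812021598) (dlOf (nat_lit 23) (nat_lit 0x11580000009e0408c80000004c02024c000000258100020120001240804f8090032c0340004804013c02400ca00d00011c1003180680008a04029004801b001a0002202009c012006800680008608018c048007801f009200d0001081801d0090030c0340004104013202400c000d00fe0000000800c0204048002a01f00a700d0000f81806100680007a0402cc0340003c02004c024002b00d0000ec1004b80900304034040a0000001c0302310000000d4080f900000006804013004801be01a0001982000300d00005c080058068000000405e4002043200080b0682)))))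 
(.nd (nat_lit 27) (.nd (nat_lit 9) 
(.lf (nat_lit 57230686) (dlOf (nat_lit 2) (nat_lit 0x2419da000100200040029793401))) 
(.lf (nat_lit 536954718) (dlOf (nat_lit 1) (nat_lit 0x38008000c00200060008003f83)))) 
(.nd (nat_lit 8) (.lf (nat_lit 2818655326) (dlOf (nat_lit 1) (nat_lit 0x4004000200080d2902))) 
(.lf (nat_lit 2818655582) (dlOf (nat_lit 4) (nat_lit 0x381100006804002402c001201500090070004803000240080014000000198600090000000300800600080090002002000080d3403)))))) 
(.nd (nat_lit 9) (.nd (nat_lit 26) (.nd (nat_lit 8) 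
(.lf (nat_lit 29966558) (dlOf (nat_lit 1) (nat_lit 0x20018e30581))) 
(.lf (nat_lit 1610695134) (dlOf (nat_lit 1) (nat_lit 0x7000400080008091282)))) (.nd (nat_lit 11) 
(.lf (nat_lit 2214674654) (dlOf (nat_lit 1) (nat_lit 0x400200020008014202))) 
(.lf (nat_lit 4362160350) (dlOf (nat_lit 2) (nat_lit 0x100000000c0200020018004a81))))) 
(.nd (nat_lit 8) (.nd (nat_lit 10) 
(.lf (nat_lit 57232094) (dlOf (nat_lit 7) (nat_lit 0x64ce30001981002f6718000c40801bb3b400619d80002e040008ced0000781001570a801533b40000c0800459c6000000200520029795901))) 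
(.lf (nat_lit 2885766878) (dlOf (nat_lit 1) (nat_lit 0x300028007381)))) 
(.lf (nat_lit 536953822) (dlOf (nat_lit 3) (nat_lit 0xa05f0097581000102f804ba8080168008006000200020008002883))))))) 
(.nd (nat_lit 21) (.nd (nat_lit 26) (.nd (nat_lit 24) (.nd (nat_lit 27) (.nd (nat_lit 6) 
(.nd (nat_lit 19) (.lf (nat_lit 3221569566) (dlOf (nat_lit 1) (nat_lit 0x20018140481))) 
(.lf (nat_lit 39665694) (dlOf (nat_lit 2) (nat_lit 0x2125700109290008c938000c492000c22c80108f5c00076180008002000200091b0102)))) 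
(.lf (nat_lit 34423902) (dlOf (nat_lit 1) (nat_lit 0x80028fb2901)))) (.nd (nat_lit 7) 
(.nd (nat_lit 30) 
(.lf (nat_lit 671432734) (dlOf (nat_lit 21) (nat_lit 0x128094000de04009004a0006a02004a0250003301000901280018c0801280940002a04009404a00014020048025000098100270128000480801600940002204009404a00010020048025000078100240128000380801200940001a04009404a0000c020048025000058100240128000200801200940000e04009004a0000502004802500000810024012800000080a78008012000200560008190683))) 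
(.lf (nat_lit 3892658206) (dlOf (nat_lit 1) (nat_lit 0xd0008000c00200680008180103)))) 
(.lf (nat_lit 1208303774) (dlOf (nat_lit 1) (nat_lit 0x4004000200180c1302))))) (.nd (nat_lit 20) 
(.nd (nat_lit 8) (.lf (nat_lit 21839902) (dlOf (nat_lit 1) (nat_lit 0x40028a70481))) 
(.lf (nat_lit 25510174) (dlOf (nat_lit 1) (nat_lit 0x8008000800200020008c10703)))) (.nd (nat_lit 6) 
(.lf (nat_lit 51725470) (dlOf (nat_lit 1) (nat_lit 0x800200020009512b82))) 
(.lf (nat_lit 60115550) (dlOf (nat_lit 1) (nat_lit 0x100019845381)))))) (.nd (nat_lit 27) 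
(.nd (nat_lit 29) (.nd (nat_lit 31) 
(.lf (nat_lit 4362420254) (dlOf (nat_lit 1) (nat_lit 0x14002001c0008070602))) 
(.lf (nat_lit 6509903902) (dlOf (nat_lit 1) (nat_lit 0x70008002c00200120008160483)))) 
(.lf (nat_lit 604323870) (dlOf (nat_lit 2) (nat_lit 0xb01f8029e8080250008008800200240008160483)))) 
(.nd (nat_lit 6) (.nd (nat_lit 29) 
(.lf (nat_lit 2349154334) (dlOf (nat_lit 4) (nat_lit 0x220150011004000ec01c001a306001400e000b98100050070005bc080270008004c002006e00080e0483))) 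
(.lf (nat_lit 3959767070) (dlOf (nat_lit 1) (nat_lit 0x20018140481)))) 
(.lf (nat_lit 738541918) (dlOf (nat_lit 1) (nat_lit 0x4002000200080a7182)))))) (.nd (nat_lit 6) 
(.nd (nat_lit 19) (.nd (nat_lit 20) 
(.lf (nat_lit 27607070) (dlOf (nat_lit 1) (nat_lit 0x20008d00681))) 
(.lf (nat_lit 24461342) (dlOf (nat_lit 1) (nat_lit 0x20028ba0a01)))) (.nd (nat_lit 7) 
(.nd (nat_lit 8) (.lf (nat_lit 29179934) (dlOf (nat_lit 1) (nat_lit 0x400200020008dd0d02))) 
(.lf (nat_lit 54346014) (dlOf (nat_lit 1) (nat_lit 0x10008001000200080009650a83)))) 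
(.lf (nat_lit 36522654) (dlOf (nat_lit 1) (nat_lit 0x80019075581))))) (.nd (nat_lit 7) 
(.nd (nat_lit 9) (.lf (nat_lit 37044318) (dlOf (nat_lit 1) (nat_lit 0x800200020009081982))) 
(.lf (nat_lit 19745374) (dlOf (nat_lit 1) (nat_lit 0x9c00189d5381)))) (.nd (nat_lit 9) 
(.lf (nat_lit 44384478) (dlOf (nat_lit 1) (nat_lit 0x80019306481))) 
(.lf (nat_lit 69552862) (dlOf (nat_lit 1) (nat_lit 0x19b80080004002023a0008b45903)))))))) 
(.nd (nat_lit 18) (.nd (nat_lit 10) (.nd (nat_lit 19) (.nd (nat_lit 6) (.nd (nat_lit 11) 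
(.nd (nat_lit 20) (.lf (nat_lit 44122174) (dlOf (nat_lit 1) (nat_lit 0x4004000200092c0482))) 
(.nd (nat_lit 22) 
(.lf (nat_lit 2752593982) (dlOf (nat_lit 1) (nat_lit 0x180080004002000a0008020703))) 
(.lf (nat_lit 38879294) (dlOf (nat_lit 1) (nat_lit 0x800400060009170602))))) (.nd (nat_lit 8) 
(.lf (nat_lit 4362164286) (dlOf (nat_lit 9) (nat_lit 0x480cc0044804001006600223020094033001100100180198008740800100cc0041204000c0660020802001603300103810008019800000080ac80080004002007e000800a683))) 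
(.lf (nat_lit 20007742) (dlOf (nat_lit 1) (nat_lit 0x4002000200089d5c02))))) (.nd (nat_lit 26) 
(.nd (nat_lit 21) (.lf (nat_lit 3221307518) (dlOf (nat_lit 1) (nat_lit 0x400200020008090082))) 
(.lf (nat_lit 18956414) (dlOf (nat_lit 1) (nat_lit 0x18008000400200020008970483)))) 
(.nd (nat_lit 7) (.lf (nat_lit 3959505022) (dlOf (nat_lit 1) (nat_lit 0x400200020008090082))) 
(.lf (nat_lit 2348892670) (dlOf (nat_lit 1) (nat_lit 0xc0008017e01)))))) (.nd (nat_lit 20) 
(.nd (nat_lit 7) (.nd (nat_lit 27) (.nd (nat_lit 29) 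
(.lf (nat_lit 3221831742) (dlOf (nat_lit 4) (nat_lit 0x1f022800c0108003407e000550601400450077021004200fc01a406600054080066046000e02180108100000a20c00ec004000400081a1402))) 
(.lf (nat_lit 537477182) (dlOf (nat_lit 12) (nat_lit 0x11c0b20001e020354059035e025800070100dc817c05640600001b04034e05f014602c81b3812c03e80600001a08009405f00ed02c80006410074817c022c0b2000180400a20590000781005102f80a581640b680960000b06005c05f013902c819e012c000140c01700b205d004b000048200c702c80001c080770008068c002003000080a0c83)))) 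
(.lf (nat_lit 134823998) (dlOf (nat_lit 2) (nat_lit 0x15a0090002a0180c1400)))) 
(.lf (nat_lit 50938302) (dlOf (nat_lit 1) (nat_lit 0x180080010002000600094d7a83)))) 
(.nd (nat_lit 6) (.nd (nat_lit 8) 
(.lf (nat_lit 3751998) (dlOf (nat_lit 1) (nat_lit 0x20018220c01))) 
(.lf (nat_lit 58278206) (dlOf (nat_lit 1) (nat_lit 0x200297d7d01)))) 
(.lf (nat_lit 49892094) (dlOf (nat_lit 1) (nat_lit 0x4002000200094c5a82)))))) (.nd (nat_lit 11) 
(.nd (nat_lit 9) (.nd (nat_lit 20) (.nd (nat_lit 26) 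
(.lf (nat_lit 2818655294) (dlOf (nat_lit 1) (nat_lit 0xc002000200080d2882))) 
(.lf (nat_lit 4362159166) (dlOf (nat_lit 1) (nat_lit 0x34002001e0008002882)))) (.nd (nat_lit 21) 
(.lf (nat_lit 55657534) (dlOf (nat_lit 1) (nat_lit 0x4002000200096d2882))) 
(.lf (nat_lit 36783166) (dlOf (nat_lit 1) (nat_lit 0x20019072881))))) (.nd (nat_lit 6) 
(.lf (nat_lit 4496377406) (dlOf (nat_lit 7) (nat_lit 0x200078010c03800c601b006000c0032003c01c00160058009001000380006840024007001a8036000c01a006100c0030802c000301400cc034007c00a001100480004c18003806801f80140001104003a01a0000781000d00d0000802800000080920004000e0008053782))) 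
(.lf (nat_lit 536954750) (dlOf (nat_lit 1) (nat_lit 0x13800800a800200380008004103))))) 
(.nd (nat_lit 6) (.nd (nat_lit 20) 
(.lf (nat_lit 134302910) (dlOf (nat_lit 2) (nat_lit 0x2a054001501e800a80e000540660002308001e0028006301))) 
(.lf (nat_lit 20008126) (dlOf (nat_lit 1) (nat_lit 0x1c00189d6301)))) 
(.lf (nat_lit 609406) (dlOf (nat_lit 1) (nat_lit 0x20028006101)))))) (.nd (nat_lit 6) 
(.nd (nat_lit 19) (.nd (nat_lit 26) (.nd (nat_lit 10) (.nd (nat_lit 27) 
(.lf (nat_lit 5905924158) (dlOf (nat_lit 1) (nat_lit 0xe800800c4002001c0008160703))) 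
(.lf (nat_lit 3355787326) (dlOf (nat_lit 14) (nat_lit 0x280ac000404e00080200001f830009015800480a0000c04600020200001e8400010158000d80800500ac0004050001c0200001a0300040140001008c00400400002d060006020000160100030140001008c000c040000a01d00015040005015800300a00018046001002000014840002015800200a00004046000a02000011840001015800200a000100460002006000402b00030140001008c000c0400001f0800100280006011800700800003a0c0008056000802300010100000701800e0008000400200f20008110e83)))) 
(.lf (nat_lit 51725374) (dlOf (nat_lit 1) (nat_lit 0x1400200020009512882)))) (.nd (nat_lit 22) 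
(.nd (nat_lit 31) (.lf (nat_lit 67452990) (dlOf (nat_lit 1) (nat_lit 0x400400020018140902))) 
(.lf (nat_lit 6509903934) (dlOf (nat_lit 1) (nat_lit 0xe800800c4002001c0008160703)))) 
(.lf (nat_lit 2756001854) (dlOf (nat_lit 5) (nat_lit 0x701c8004c80801200e4009c0700012f04001a0510009101000c0288004800802000080010002000200081d0c03))))) 
(.nd (nat_lit 21) (.nd (nat_lit 23) 
(.lf (nat_lit 21839934) (dlOf (nat_lit 1) (nat_lit 0x20008a70701))) 
(.lf (nat_lit 13451326) (dlOf (nat_lit 1) (nat_lit 0x258008055c00201720008721683)))) 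
(.lf (nat_lit 11354174) (dlOf (nat_lit 19) (nat_lit 0x52a0000c94800034a380079f400007e10001cfa00003e02001295100064a800072520000528e001e7d0000b3ac0000f43000325200030fa000107580001b03000d4a880072520003cfa000227580001a0400084a88004a520002cfa00014758000180400054a8800325200014fa00008758000150400094a880049f400014eb00002906000294800013e800008c10004a5440021290000c7d000083ac0000802000425440014fa000087580000f8300094a8800525200030fa000147580000f04000a4a400009f400028eb00001c060012948000a3e800029d60000180c0018fa00000b02000a94800073e800031d60000140c0039290001e7d0000e3ac00002418004a544002929000147d0000b3ac0000002000580080010002001a0008690e83))))) 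
(.nd (nat_lit 9) (.nd (nat_lit 7) (.nd (nat_lit 10) 
(.lf (nat_lit 20273278) (dlOf (nat_lit 1) (nat_lit 0x18004000a00089da882))) 
(.lf (nat_lit 5503272062) (dlOf (nat_lit 2) (nat_lit 0x40260002602002600180e2a81)))) 
(.lf (nat_lit 20273406) (dlOf (nat_lit 2) (nat_lit 0x114d60002402000200189da981)))) 
(.nd (nat_lit 7) (.nd (nat_lit 8) 
(.lf (nat_lit 19745406) (dlOf (nat_lit 1) (nat_lit 0xf800189d5481))) 
(.lf (nat_lit 20271998) (dlOf (nat_lit 1) (nat_lit 0x200089d9001)))) 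
(.lf (nat_lit 8213246) (dlOf (nat_lit 1) (nat_lit 0x7c0008518f81)))))))) (.nd (nat_lit 27) 
(.nd (nat_lit 5) (.nd (nat_lit 18) (.nd (nat_lit 6) (.nd (nat_lit 8) (.nd (nat_lit 20) 
(.nd (nat_lit 26) 
(.lf (nat_lit 4563484702) (dlOf (nat_lit 1) (nat_lit 0x800805d800200f80008090003))) 
(.lf (nat_lit 335626270) (dlOf (nat_lit 1) (nat_lit 0x80080344002009c0008090003)))) 
(.lf (nat_lit 1343307806) (dlOf (nat_lit 2) (nat_lit 0x2402a000290181e0580)))) (.nd (nat_lit 7) 
(.nd (nat_lit 10) (.lf (nat_lit 2952872222) (dlOf (nat_lit 1) (nat_lit 0xac00200640008010702))) 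
(.lf (nat_lit 1345406238) (dlOf (nat_lit 1) (nat_lit 0x18008000400200020008bb3103)))) 
(.nd (nat_lit 9) (.lf (nat_lit 872497566) (dlOf (nat_lit 1) (nat_lit 0x8008000400200020008091003))) 
(.lf (nat_lit 5704338334) (dlOf (nat_lit 5) (nat_lit 0x308060000780400180300003a0200a60080001c01000800c0000dc080090008002000200460008055c83)))))) 
(.nd (nat_lit 8) (.nd (nat_lit 11) (.nd (nat_lit 19) 
(.lf (nat_lit 2952872030) (dlOf (nat_lit 1) (nat_lit 0x8008000400200020008010283))) 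
(.lf (nat_lit 4095295582) (dlOf (nat_lit 3) (nat_lit 0xf50430000540806682180002404001800200120008090702)))) 
(.nd (nat_lit 9) (.lf (nat_lit 1342262366) (dlOf (nat_lit 1) (nat_lit 0x40008006081))) 
(.lf (nat_lit 1346456158) (dlOf (nat_lit 2) (nat_lit 0x40b6000104080148008002c00200320008f65383))))) 
(.nd (nat_lit 7) (.nd (nat_lit 19) 
(.lf (nat_lit 2483110238) (dlOf (nat_lit 1) (nat_lit 0xc00400040008014e82))) 
(.lf (nat_lit 1342783838) (dlOf (nat_lit 2) (nat_lit 0x8151000168180c0680)))) 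
(.lf (nat_lit 1342263774) (dlOf (nat_lit 2) (nat_lit 0x108840095c040014004002a0008008682)))))) 
(.nd (nat_lit 31) (.nd (nat_lit 7) (.nd (nat_lit 6) (.nd (nat_lit 20) 
(.lf (nat_lit 4563746846) (dlOf (nat_lit 3) (nat_lit 0x601e0001781000400f00005c0800b0008007c002003c00080d0103))) 
(.lf (nat_lit 1343569950) (dlOf (nat_lit 1) (nat_lit 0x800400040008290502)))) 
(.lf (nat_lit 4563746910) (dlOf (nat_lit 3) (nat_lit 0x2d0060026e02900c2013805b806c0008000000150a044a0290016013800048100198008005c002001e00080d0703)))) 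
(.nd (nat_lit 9) (.nd (nat_lit 26) 
(.lf (nat_lit 5637488798) (dlOf (nat_lit 1) (nat_lit 0xa00280f1301))) 
(.lf (nat_lit 6241468574) (dlOf (nat_lit 1) (nat_lit 0xa00280f1301)))) 
(.lf (nat_lit 1880967838) (dlOf (nat_lit 1) (nat_lit 0x20018d75581))))) (.nd (nat_lit 26) 
(.nd (nat_lit 6) (.nd (nat_lit 8) 
(.lf (nat_lit 3490532510) (dlOf (nat_lit 1) (nat_lit 0x720008006281))) 
(.lf (nat_lit 3490007454) (dlOf (nat_lit 1) (nat_lit 0x400200020008004e82)))) 
(.lf (nat_lit 2953134174) (dlOf (nat_lit 2) (nat_lit 0x18058000c02b0007015000280a4002004e000a01a000500980050024001800a000e00200090000005105800180080008002000e0008160483)))) 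
(.nd (nat_lit 19) (.nd (nat_lit 29) 
(.lf (nat_lit 2483372062) (dlOf (nat_lit 4) (nat_lit 0x220150011004000ec01c001b306001400e000b88100050070005bc080270008004c002006e00080e0483))) 
(.lf (nat_lit 3020242974) (dlOf (nat_lit 1) (nat_lit 0x9800281a0581)))) 
(.lf (nat_lit 4094509086) (dlOf (nat_lit 1) (nat_lit 0x36000200de0008050002))))))) 
(.nd (nat_lit 11) (.nd (nat_lit 18) (.nd (nat_lit 7) (.nd (nat_lit 19) 
(.lf (nat_lit 3490791486) (dlOf (nat_lit 1) (nat_lit 0x180080004002000a0008020703))) 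
(.nd (nat_lit 21) 
(.lf (nat_lit 1409892414) (dlOf (nat_lit 12) (nat_lit 0x11c0b200036020354059035e0258000d0100dc817c05640600003304034e05f014602c81b3812c03e80600003208009405f00ed02c8000c410074817c022c0b2000300400a20590001381005102f80a581640b680960002306005c05f013902c819e012c000440c01700b205d004b000108200c702c80007c080770008068c002003000080a0c83))) 
(.lf (nat_lit 3492364350) (dlOf (nat_lit 2) (nat_lit 0x15079c000aa040004004001200180c1402))))) 
(.nd (nat_lit 6) 
(.lf (nat_lit 2952872126) (dlOf (nat_lit 1) (nat_lit 0x668008031800202260008010383))) 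
(.nd (nat_lit 8) 
(.lf (nat_lit 4563484926) (dlOf (nat_lit 2) (nat_lit 0xcb009000534080118008007400200ee0008090a83))) 
(.lf (nat_lit 1342263806) (dlOf (nat_lit 4) (nat_lit 0x222100256810003110801290080058884009360400bc00400080008008682)))))) 
(.nd (nat_lit 26) (.nd (nat_lit 19) (.nd (nat_lit 22) 
(.lf (nat_lit 4563746878) (dlOf (nat_lit 2) (nat_lit 0x248029005e013800238100378008039c00200b600080d0483))) 
(.lf (nat_lit 3494199358) (dlOf (nat_lit 5) (nat_lit 0x701c8004fc0801200e4009c0700013c04001a0510009881000c0288004bc0802000080010002000200081d0c03)))) 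
(.lf (nat_lit 1346191422) (dlOf (nat_lit 8) (nat_lit 0x9202c006980d9021204e014f823400492100b282c000a80d9005604e003f02340049010172c2c0004c14d05cd06c8041036018041380c0808d0175046006d01f00048e2009202c000ec09c00b6046800914180120580003f40406dc2c0001f2020168160032a06c810a0234003e00c0da800414ac0008e60602)))) 
(.nd (nat_lit 7) 
(.lf (nat_lit 3557113918) (dlOf (nat_lit 3) (nat_lit 0x4c0c2000403f00577820014030802bb8080020008006c00200020008130003))) 
(.lf (nat_lit 6241468606) (dlOf (nat_lit 1) (nat_lit 0x1c80080028002004c00080f1a83)))))) 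
(.nd (nat_lit 6) (.nd (nat_lit 7) (.nd (nat_lit 9) 
(.lf (nat_lit 1409371454) (dlOf (nat_lit 2) (nat_lit 0x4017c0005604000c00400060008006902))) 
(.lf (nat_lit 5704338238) (dlOf (nat_lit 2) (nat_lit 0x3a018003b004000238100038008001800200260008055c03)))) 
(.nd (nat_lit 8) 
(.lf (nat_lit 3490008254) (dlOf (nat_lit 2) (nat_lit 0x2202fc03c4114000230400100028006301))) 
(.lf (nat_lit 4094512062) (dlOf (nat_lit 1) (nat_lit 0x288008045400200ae0008055d03))))) 
(.nd (nat_lit 7) (.nd (nat_lit 8) (.nd (nat_lit 12) 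
(.lf (nat_lit 3492890750) (dlOf (nat_lit 2) (nat_lit 0x150140000a80800200080010002000a00080f4783))) 
(.lf (nat_lit 1342265470) (dlOf (nat_lit 1) (nat_lit 0x1380080094002007e000800a883)))) 
(.lf (nat_lit 1342266750) (dlOf (nat_lit 1) (nat_lit 0x3800800440020042000800c903)))) 
(.nd (nat_lit 10) (.lf (nat_lit 1342265598) (dlOf (nat_lit 1) (nat_lit 0xc004000a000800a982))) 
(.lf (nat_lit 1409371390) (dlOf (nat_lit 1) (nat_lit 0x13800800a4002002a0008006603)))))))) 
(.nd (nat_lit 6) (.nd (nat_lit 18) (.nd (nat_lit 29) (.nd (nat_lit 5) (.nd (nat_lit 26) 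
(.nd (nat_lit 32) 
(.lf (nat_lit 402735134) (dlOf (nat_lit 1) (nat_lit 0x80080344002009c0008090003))) 
(.lf (nat_lit 4697702430) (dlOf (nat_lit 1) (nat_lit 0x800805d800200f80008090003)))) 
(.lf (nat_lit 2617327646) (dlOf (nat_lit 1) (nat_lit 0x200280a0001)))) (.nd (nat_lit 8) 
(.lf (nat_lit 474562622) (dlOf (nat_lit 2) (nat_lit 0x10558004780400f8004002600091a0602))) 
(.lf (nat_lit 5773542718) (dlOf (nat_lit 1) (nat_lit 0xe00180e3281))))) (.nd (nat_lit 5) 
(.nd (nat_lit 7) (.nd (nat_lit 26) 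
(.lf (nat_lit 3087089694) (dlOf (nat_lit 4) (nat_lit 0x7a020000100c0036141000180740134c04000802e0000002000800080b0001))) 
(.lf (nat_lit 2080456734) (dlOf (nat_lit 1) (nat_lit 0x8008000400200020008090003)))) 
(.lf (nat_lit 5234576286) (dlOf (nat_lit 1) (nat_lit 0x20008001000200100008055c83)))) 
(.nd (nat_lit 8) 
(.lf (nat_lit 6308316734) (dlOf (nat_lit 8) (nat_lit 0xc601b007800c8016005800a80160002c0800b401b00540058000ac10012806c0184032004c00b0001503004700d8014806400f80160002906009001b007b00580001410033806c01a803200ba00b0000103004500d8004002c00000080074004005c0018053782))) 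
(.lf (nat_lit 4227943742) (dlOf (nat_lit 1) (nat_lit 0x180018006901)))))) (.nd (nat_lit 29) 
(.nd (nat_lit 26) (.nd (nat_lit 5) 
(.lf (nat_lit 4697964574) (dlOf (nat_lit 3) (nat_lit 0x601e0001781000400f00005c0800b0008007c002003c00080d0103))) 
(.nd (nat_lit 7) 
(.lf (nat_lit 4697964606) (dlOf (nat_lit 2) (nat_lit 0x248029005e013800238100378008039c00200b600080d0483))) 
(.lf (nat_lit 5773279422) (dlOf (nat_lit 1) (nat_lit 0x200180c1701))))) (.nd (nat_lit 30) 
(.nd (nat_lit 31) (.lf (nat_lit 470106142) (dlOf (nat_lit 1) (nat_lit 0x13c00200120008040482))) 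
(.lf (nat_lit 2617589790) (dlOf (nat_lit 1) (nat_lit 0x2400400120008100482)))) 
(.lf (nat_lit 1543847966) (dlOf (nat_lit 21) (nat_lit 0x128094000de04009004a0006a02004a025000330100090128001880801280940003004009404a000170200480250000b0100270128000480801600940002204009404a00010020048025000078100240128000380801200940001a04009404a0000c020048025000058100240128000200801200940000e04009004a0000602004802500000810024012800000080a78008012000200560008190683))))) 
(.nd (nat_lit 7) (.nd (nat_lit 26) 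
(.lf (nat_lit 4161093662) (dlOf (nat_lit 2) (nat_lit 0x9002b0004b018120480))) (.nd (nat_lit 30) 
(.lf (nat_lit 3154460702) (dlOf (nat_lit 3) (nat_lit 0x70031000a016801c00b200ce05500700290038013401a006800e0026004b00a0038001801c000600029160118055008b01a004900500004e0c003c002000c00081a0102))) 
(.lf (nat_lit 4228202526) (dlOf (nat_lit 1) (nat_lit 0x14002001c0008070602))))) (.nd (nat_lit 5) 
(.lf (nat_lit 2080719006) (dlOf (nat_lit 1) (nat_lit 0x4004000200180c1302))) 
(.lf (nat_lit 6377259198) (dlOf (nat_lit 1) (nat_lit 0x400280c1a81))))))) (.nd (nat_lit 8) 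
(.nd (nat_lit 29) (.nd (nat_lit 5) (.nd (nat_lit 11) (.nd (nat_lit 26) 
(.lf (nat_lit 4697964638) (dlOf (nat_lit 3) (nat_lit 0x2d0060026e02900c2013805b806c0008000000150a044a0290016013800048100198008005c002001e00080d0703))) 
(.lf (nat_lit 3691331678) (dlOf (nat_lit 2) (nat_lit 0x18058000c02b0007015000280a40020044000a01b000500a00050024001800a000e00200090000007545800180080008002000e0008160483)))) 
(.lf (nat_lit 3623966814) (dlOf (nat_lit 1) (nat_lit 0xdc002800a801)))) (.nd (nat_lit 7) 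
(.lf (nat_lit 3623962750) (dlOf (nat_lit 2) (nat_lit 0x900dc0005404000800200320008004782))) 
(.lf (nat_lit 473516798) (dlOf (nat_lit 1) (nat_lit 0x4400400020008f55a82))))) (.nd (nat_lit 7) 
(.nd (nat_lit 5) (.lf (nat_lit 1007504478) (dlOf (nat_lit 1) (nat_lit 0x5e00183d6081))) 
(.lf (nat_lit 6377522302) (dlOf (nat_lit 1) (nat_lit 0x200180e2a81)))) (.nd (nat_lit 9) 
(.lf (nat_lit 6308316382) (dlOf (nat_lit 1) (nat_lit 0x400202fe0008052e02))) (.nd (nat_lit 10) 
(.lf (nat_lit 6377523934) (dlOf (nat_lit 1) (nat_lit 0x80080004002000200080e5903))) 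
(.lf (nat_lit 1007505118) (dlOf (nat_lit 1) (nat_lit 0x400083d7381))))))) (.nd (nat_lit 5) 
(.nd (nat_lit 10) (.nd (nat_lit 7) (.nd (nat_lit 19) 
(.lf (nat_lit 939606366) (dlOf (nat_lit 23) (nat_lit 0x11580000009e0408c80000004c02024c000000258100020120001240804f8090032c0340004804013c02400ca00d00011c1003180680008a04029004801b001a0002202009c012006800680008608018c048007801f009200d0001081801d0090030c0340004104013202400c000d00fe0000000800c0204048002a01f00a700d0000f81806100680007a0402cc0340003c02004c024002b00d0000ec1004b80900304034040a0000001c0302310000000d4080f900000006804013004801be01a0001982000300d00005c080058068000000405e4002043200080b0682))) 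
(.lf (nat_lit 470368606) (dlOf (nat_lit 2) (nat_lit 0x8151000168180c0680)))) 
(.lf (nat_lit 5772493790) (dlOf (nat_lit 1) (nat_lit 0x1c0018092881)))) (.nd (nat_lit 7) 
(.nd (nat_lit 9) (.lf (nat_lit 4227947870) (dlOf (nat_lit 1) (nat_lit 0x10001800c901))) 
(.lf (nat_lit 469845854) (dlOf (nat_lit 1) (nat_lit 0x20018003f81)))) 
(.lf (nat_lit 4697703902) (dlOf (nat_lit 1) (nat_lit 0xe8002002e0008093602))))) (.nd (nat_lit 7) 
(.nd (nat_lit 10) 
(.lf (nat_lit 4697702782) (dlOf (nat_lit 2) (nat_lit 0x1400900053c0800c0008002000200720008091003))) 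
(.lf (nat_lit 4227947902) (dlOf (nat_lit 4) (nat_lit 0x14064005ed020020032002f601000f0190017a40809e000800b8002006c000800c903)))) 
(.nd (nat_lit 11) (.lf (nat_lit 6375425534) (dlOf (nat_lit 1) (nat_lit 0x400200020008003682))) 
(.lf (nat_lit 469851646) (dlOf (nat_lit 1) (nat_lit 0x80040024000800cd02))))))))))) 
(.nd (nat_lit 16) (.nd (nat_lit 5) (.nd (nat_lit 18) (.nd (nat_lit 6) (.nd (nat_lit 20) 
(.nd (nat_lit 26) (.nd (nat_lit 28) (.nd (nat_lit 21) (.nd (nat_lit 22) 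
(.lf (nat_lit 3221897246) (dlOf (nat_lit 11) (nat_lit 0x4580a801d805005d102281ac010803f407e04ba033004a0170031003c00c80120022612005c05404ff0230024810c00a00800021f080d1c046006b02180300100055c0700020c0800a8046000fb8100860230007d40823a0118003e404046405e001eb0204da02f000b98100880178005bc0800380bc0000004007c004001e00181b0482))) 
(.lf (nat_lit 13254686) (dlOf (nat_lit 1) (nat_lit 0x2300080004002004a0008710b03)))) 
(.nd (nat_lit 7) (.lf (nat_lit 6963230) (dlOf (nat_lit 1) (nat_lit 0x4002000200084a0682))) 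
(.lf (nat_lit 48383134) (dlOf (nat_lit 5) (nat_lit 0x21d040016204000ce120008902000c741000440100173a0800a1c240010e08002800400120009402b82))))) 
(.nd (nat_lit 27) (.nd (nat_lit 29) 
(.lf (nat_lit 5637292062) (dlOf (nat_lit 1) (nat_lit 0x400080004002000600080d0003))) 
(.lf (nat_lit 4026679326) (dlOf (nat_lit 1) (nat_lit 0x140028030901)))) (.nd (nat_lit 7) 
(.lf (nat_lit 4697769246) (dlOf (nat_lit 1) (nat_lit 0x240008004800200060008093103))) 
(.lf (nat_lit 5234639006) (dlOf (nat_lit 1) (nat_lit 0x400200020008071302)))))) (.nd (nat_lit 27) 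
(.nd (nat_lit 28) (.nd (nat_lit 29) 
(.lf (nat_lit 3288481822) (dlOf (nat_lit 1) (nat_lit 0x140028030901))) 
(.lf (nat_lit 604127262) (dlOf (nat_lit 4) (nat_lit 0x2008a0002d0200160450001601000b0228000a80800f8008000400200620008030103)))) 
(.nd (nat_lit 30) (.lf (nat_lit 5167530014) (dlOf (nat_lit 1) (nat_lit 0x20018080101))) 
(.lf (nat_lit 6241271838) (dlOf (nat_lit 1) (nat_lit 0x400080004002000600080d0003))))) 
(.nd (nat_lit 7) (.nd (nat_lit 19) 
(.lf (nat_lit 2885828638) (dlOf (nat_lit 1) (nat_lit 0x4e00280b0001))) 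
(.lf (nat_lit 3960094750) (dlOf (nat_lit 11) (nat_lit 0x4580a801d805005d102281ac010803f407e04ba033004a0170031003c00c80120022612005c05404ff0230024810c00a008000223080d1c046006b02180300100055c0700020e0800a8046000fb8100860230007d40823a0118003e604046405e001eb0204da02f000b88100880178005bc0800380bc0000004007c004001e00181b0482)))) 
(.nd (nat_lit 12) (.nd (nat_lit 32) 
(.lf (nat_lit 1543654558) (dlOf (nat_lit 2) (nat_lit 0xc0250002b818146280))) 
(.lf (nat_lit 5838621854) (dlOf (nat_lit 1) (nat_lit 0xc00180f6281)))) 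
(.lf (nat_lit 5838625950) (dlOf (nat_lit 1) (nat_lit 0x1000180fc201))))))) (.nd (nat_lit 7) 
(.nd (nat_lit 19) (.nd (nat_lit 21) (.nd (nat_lit 10) 
(.lf (nat_lit 22167582) (dlOf (nat_lit 3) (nat_lit 0xd5530001000800f2a980007c040090004001c0018aa0b82))) 
(.lf (nat_lit 59919390) (dlOf (nat_lit 1) (nat_lit 0x400400020009846002)))) (.nd (nat_lit 9) 
(.lf (nat_lit 15876126) (dlOf (nat_lit 1) (nat_lit 0x400200020008840682))) 
(.lf (nat_lit 11682334) (dlOf (nat_lit 1) (nat_lit 0x4004000200086c0d82))))) (.nd (nat_lit 21) 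
(.nd (nat_lit 22) (.lf (nat_lit 18497566) (dlOf (nat_lit 1) (nat_lit 0x400200020008940682))) 
(.lf (nat_lit 5914654) (dlOf (nat_lit 1) (nat_lit 0x400200020008410682)))) 
(.lf (nat_lit 45760542) (dlOf (nat_lit 1) (nat_lit 0x90002001a0009360102))))) (.nd (nat_lit 8) 
(.nd (nat_lit 9) (.lf (nat_lit 3293342) (dlOf (nat_lit 1) (nat_lit 0xc0018200201))) 
(.lf (nat_lit 1345473182) (dlOf (nat_lit 1) (nat_lit 0x1800400020008c35582)))) (.nd (nat_lit 10) 
(.lf (nat_lit 20071326) (dlOf (nat_lit 1) (nat_lit 0x2c00189d2581))) 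
(.lf (nat_lit 8013726) (dlOf (nat_lit 1) (nat_lit 0x1a60018514281))))))) (.nd (nat_lit 26) 
(.nd (nat_lit 27) (.nd (nat_lit 7) (.nd (nat_lit 10) (.nd (nat_lit 28) (.nd (nat_lit 8) 
(.lf (nat_lit 5368856670) (dlOf (nat_lit 19) (nat_lit 0x328054034402801ca013015e00880c20040061401c001e00a000b004000b800000068240004028036601301a200800118038000661002ac0520202021014a00b806a805805a802a03b801401e200980ef0044081802003fa00e0010005809280200468006029c00100530000000c878072005c026c02a00ea014015e009802280440508020027a00e00650008000c44000e005c0010028022c01301190080010003800060140090020008a004000178200120020000b40800200100005604025802a016601400ad008805a00380268002000250a0074013003300800008c10015804c00a80200002104016601501c700a00d60044062c01c011c0050000f8500c600a80e0805001a0026035a011001400800d2803801d800a01b00010000f0800c300a80dc805006b8022034600e00b0002803b00040003a180010028027800500e4000800070180920014034c0020001b04002c0120000a810010009800f00400001e0801a000400060018040702)))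 
(.lf (nat_lit 3221375326) (dlOf (nat_lit 1) (nat_lit 0x60008000800200400008114e83)))) 
(.nd (nat_lit 29) 
(.lf (nat_lit 268583006) (dlOf (nat_lit 3) (nat_lit 0x1a00c000d0058006802a0034014000600980005428097805804b802a027801400030098000482000c0008006400200040008090703))) 
(.lf (nat_lit 2952937566) (dlOf (nat_lit 1) (nat_lit 0x1480080100002005e0008030883))))) 
(.nd (nat_lit 20) (.lf (nat_lit 148574) (dlOf (nat_lit 1) (nat_lit 0x60018002901))) 
(.lf (nat_lit 38945886) (dlOf (nat_lit 1) (nat_lit 0x18004000e0009192902))))) (.nd (nat_lit 8) 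
(.nd (nat_lit 19) 
(.lf (nat_lit 19022046) (dlOf (nat_lit 1) (nat_lit 0x20008001000200060008970583))) 
(.lf (nat_lit 30032094) (dlOf (nat_lit 2) (nat_lit 0x56e84000210200020018e30581)))) 
(.lf (nat_lit 5637293534) (dlOf (nat_lit 1) (nat_lit 0x3000180d3601))))) (.nd (nat_lit 29) 
(.nd (nat_lit 28) 
(.lf (nat_lit 5503074398) (dlOf (nat_lit 19) (nat_lit 0x328054034402801ca013015e00880c20040061401c001e00a000b004000b800000068240004028036601301a200800118038000661002ac0520202021014a00b806a805805a802a03b801401e200980ef0044081802003fa00e0010005809280200468006029c00100530000000c878072005c026c02a00ea014015e009802280440508020027a00e00650008000c44000e005c0010028022c01301190080010003800060140090020008a004000178200120020000b40800200100005604025802a016601400ad008805a00380268002000250a0074013003300800008c10015804c00a80200002104016601501c700a00d60044062c01c011c0050000f8500c600a80e0805001a0026035a011001400800d2803801d800a01b00010000f0800c300a80dc805006b8022034600e00b0002803b00040003a180010028027800500e4000800070180920014034c0020001b04002c0120000a810010009800f00400001e0801a000400060018040702)))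 
(.lf (nat_lit 1476542558) (dlOf (nat_lit 1) (nat_lit 0xa0028050881)))) (.nd (nat_lit 7) 
(.nd (nat_lit 8) 
(.lf (nat_lit 4966203486) (dlOf (nat_lit 2) (nat_lit 0x180540034028000400f0001a038040700))) 
(.lf (nat_lit 671237982) (dlOf (nat_lit 4) (nat_lit 0x1a0140000b0100010118000805000028080018046000a020000600a000080000000a10002800200320008143f82)))) 
(.lf (nat_lit 671238366) (dlOf (nat_lit 2) (nat_lit 0x19806c00040060000d0400180018144a81)))))) 
(.nd (nat_lit 27) (.nd (nat_lit 29) (.nd (nat_lit 19) 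
(.lf (nat_lit 4630659166) (dlOf (nat_lit 1) (nat_lit 0x1000400040008040702))) 
(.lf (nat_lit 1409957982) (dlOf (nat_lit 1) (nat_lit 0xc400280a1301)))) (.nd (nat_lit 7) 
(.nd (nat_lit 28) (.lf (nat_lit 604127326) (dlOf (nat_lit 1) (nat_lit 0xe0018030881))) 
(.lf (nat_lit 5167530078) (dlOf (nat_lit 2) (nat_lit 0xd0140000640800200080018002000c0008080703)))) 
(.lf (nat_lit 872563934) (dlOf (nat_lit 1) (nat_lit 0x10008000400200020008092e03))))) 
(.nd (nat_lit 7) (.nd (nat_lit 28) 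
(.lf (nat_lit 5033312350) (dlOf (nat_lit 2) (nat_lit 0x180540034028000400f0001a038040700))) 
(.lf (nat_lit 4764876894) (dlOf (nat_lit 1) (nat_lit 0x1000400040008040702)))) (.nd (nat_lit 8) 
(.lf (nat_lit 1275217118) (dlOf (nat_lit 1) (nat_lit 0x20028092e01))) 
(.lf (nat_lit 3959577054) (dlOf (nat_lit 2) (nat_lit 0xa405e00bf7020002000811b281)))))))) 
(.nd (nat_lit 6) (.nd (nat_lit 26) (.nd (nat_lit 23) (.nd (nat_lit 20) (.nd (nat_lit 8) 
(.nd (nat_lit 7) (.nd (nat_lit 22) 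
(.lf (nat_lit 537280542) (dlOf (nat_lit 2) (nat_lit 0x40be000150200280028070601))) 
(.lf (nat_lit 3494264862) (dlOf (nat_lit 1) (nat_lit 0x20004000200181e0602)))) 
(.lf (nat_lit 36063902) (dlOf (nat_lit 1) (nat_lit 0x60019015581)))) (.nd (nat_lit 10) 
(.lf (nat_lit 19812638) (dlOf (nat_lit 1) (nat_lit 0x2200289d8081))) 
(.lf (nat_lit 1476805918) (dlOf (nat_lit 1) (nat_lit 0x20028203101))))) (.nd (nat_lit 7) 
(.nd (nat_lit 21) (.lf (nat_lit 1343635486) (dlOf (nat_lit 1) (nat_lit 0x200282d0681))) 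
(.lf (nat_lit 37109790) (dlOf (nat_lit 1) (nat_lit 0x4004000400190a0602)))) (.nd (nat_lit 10) 
(.lf (nat_lit 20856990) (dlOf (nat_lit 1) (nat_lit 0x200289e2b81))) 
(.lf (nat_lit 51791006) (dlOf (nat_lit 1) (nat_lit 0x40009512b81)))))) (.nd (nat_lit 22) 
(.nd (nat_lit 7) (.lf (nat_lit 59654174) (dlOf (nat_lit 1) (nat_lit 0x7800200020009820102))) 
(.nd (nat_lit 9) (.lf (nat_lit 8799646) (dlOf (nat_lit 1) (nat_lit 0x400200020008513602))) 
(.lf (nat_lit 8800158) (dlOf (nat_lit 1) (nat_lit 0x9c0028514281))))) (.nd (nat_lit 21) 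
(.nd (nat_lit 20) (.lf (nat_lit 12992542) (dlOf (nat_lit 1) (nat_lit 0x800286f0601))) 
(.lf (nat_lit 30818334) (dlOf (nat_lit 1) (nat_lit 0x40018e50a01)))) (.nd (nat_lit 25) 
(.lf (nat_lit 15089694) (dlOf (nat_lit 1) (nat_lit 0x200287b0701))) 
(.lf (nat_lit 48644126) (dlOf (nat_lit 1) (nat_lit 0x14004000e0009420102))))))) (.nd (nat_lit 28) 
(.nd (nat_lit 27) (.nd (nat_lit 22) 
(.lf (nat_lit 1678131230) (dlOf (nat_lit 1) (nat_lit 0x80080004002000200081a0003))) 
(.lf (nat_lit 2756067358) (dlOf (nat_lit 1) (nat_lit 0x20004000200181e0602)))) (.nd (nat_lit 9) 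
(.nd (nat_lit 31) (.lf (nat_lit 4496703518) (dlOf (nat_lit 1) (nat_lit 0x51000401440008130602))) 
(.lf (nat_lit 2349219870) (dlOf (nat_lit 1) (nat_lit 0x4002000200081c0902)))) 
(.lf (nat_lit 201736734) (dlOf (nat_lit 2) (nat_lit 0x581040000204000400200020008090d82))))) 
(.nd (nat_lit 30) (.nd (nat_lit 7) (.nd (nat_lit 29) 
(.lf (nat_lit 2483437598) (dlOf (nat_lit 1) (nat_lit 0x4002000200081c0902))) 
(.lf (nat_lit 3020308510) (dlOf (nat_lit 1) (nat_lit 0xe0008230681)))) 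
(.lf (nat_lit 474368414) (dlOf (nat_lit 1) (nat_lit 0x20029164e81)))) (.nd (nat_lit 8) 
(.nd (nat_lit 31) 
(.lf (nat_lit 1409695774) (dlOf (nat_lit 2) (nat_lit 0x40be000290200280028070601))) 
(.lf (nat_lit 3557179422) (dlOf (nat_lit 2) (nat_lit 0x4070016870200020018140501)))) 
(.lf (nat_lit 1410220318) (dlOf (nat_lit 1) (nat_lit 0x14002000200081b0482))))))) (.nd (nat_lit 8) 
(.nd (nat_lit 19) (.nd (nat_lit 7) (.nd (nat_lit 20) (.nd (nat_lit 21) 
(.lf (nat_lit 2483437662) (dlOf (nat_lit 1) (nat_lit 0x200281c1281))) 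
(.lf (nat_lit 48644190) (dlOf (nat_lit 1) (nat_lit 0x60019420881)))) 
(.lf (nat_lit 9846878) (dlOf (nat_lit 1) (nat_lit 0x40028580701)))) (.nd (nat_lit 10) 
(.lf (nat_lit 21381342) (dlOf (nat_lit 1) (nat_lit 0x40008a31d01))) 
(.lf (nat_lit 8799454) (dlOf (nat_lit 1) (nat_lit 0x400400040018512e02))))) (.nd (nat_lit 20) 
(.nd (nat_lit 26) 
(.lf (nat_lit 2819506270) (dlOf (nat_lit 2) (nat_lit 0x4c06c000e802001e00182c0481))) 
(.lf (nat_lit 3557703774) (dlOf (nat_lit 2) (nat_lit 0x4c0700017702001e00182c0481)))) 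
(.nd (nat_lit 7) (.nd (nat_lit 21) 
(.lf (nat_lit 52314206) (dlOf (nat_lit 1) (nat_lit 0xe80080064002001a0009521983))) 
(.lf (nat_lit 473841758) (dlOf (nat_lit 1) (nat_lit 0x400200020008fb1982)))) 
(.lf (nat_lit 8275166) (dlOf (nat_lit 1) (nat_lit 0x1f800801bc00200cc0008512e03)))))) 
(.nd (nat_lit 7) (.nd (nat_lit 32) (.nd (nat_lit 11) 
(.lf (nat_lit 3490595166) (dlOf (nat_lit 4) (nat_lit 0x34118803188bc000500800f046200ca22f000130200221178000940801500080050002002a0008014e83))) 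
(.lf (nat_lit 46549342) (dlOf (nat_lit 1) (nat_lit 0x400400020009384e82)))) (.nd (nat_lit 27) 
(.lf (nat_lit 4295377246) (dlOf (nat_lit 1) (nat_lit 0x200281a0681))) 
(.lf (nat_lit 4429594974) (dlOf (nat_lit 1) (nat_lit 0x200281a0681))))) (.nd (nat_lit 9) 
(.nd (nat_lit 27) 
(.lf (nat_lit 4362486238) (dlOf (nat_lit 1) (nat_lit 0x100080058002007a0008090b83))) 
(.lf (nat_lit 4228268510) (dlOf (nat_lit 1) (nat_lit 0x100080058002007a0008090b83)))) 
(.nd (nat_lit 10) (.lf (nat_lit 51790814) (dlOf (nat_lit 1) (nat_lit 0x340019512881))) 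
(.lf (nat_lit 8277982) (dlOf (nat_lit 1) (nat_lit 0x400400020018517a82))))))))) (.nd (nat_lit 30) 
(.nd (nat_lit 18) (.nd (nat_lit 7) (.nd (nat_lit 29) (.nd (nat_lit 20) (.nd (nat_lit 6) 
(.nd (nat_lit 10) (.lf (nat_lit 42614846) (dlOf (nat_lit 1) (nat_lit 0x400400040009260602))) 
(.lf (nat_lit 4697769022) (dlOf (nat_lit 1) (nat_lit 0x740028092881)))) (.nd (nat_lit 8) 
(.lf (nat_lit 2147633790) (dlOf (nat_lit 1) (nat_lit 0x20028095481))) 
(.lf (nat_lit 6509709694) (dlOf (nat_lit 1) (nat_lit 0x400400020018144e82))))) (.nd (nat_lit 21) 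
(.nd (nat_lit 6) 
(.lf (nat_lit 10108990) (dlOf (nat_lit 4) (nat_lit 0x142718c06ab7ac0004104009e7f10000e01002c3f880006c0800180080044002001800085b0703))) 
(.lf (nat_lit 9584766) (dlOf (nat_lit 1) (nat_lit 0x20028570d01)))) (.nd (nat_lit 8) 
(.lf (nat_lit 24264766) (dlOf (nat_lit 2) (nat_lit 0x100000002302000a0008b90c81))) 
(.lf (nat_lit 20073278) (dlOf (nat_lit 1) (nat_lit 0x200189d5c01)))))) (.nd (nat_lit 28) 
(.nd (nat_lit 6) (.nd (nat_lit 10) (.nd (nat_lit 11) 
(.lf (nat_lit 537542718) (dlOf (nat_lit 1) (nat_lit 0x200080008002000200080a0c83))) 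
(.lf (nat_lit 537024574) (dlOf (nat_lit 1) (nat_lit 0x2000800a681)))) 
(.lf (nat_lit 537019454) (dlOf (nat_lit 1) (nat_lit 0x20028002881)))) 
(.lf (nat_lit 2753708158) (dlOf (nat_lit 1) (nat_lit 0x20018090081)))) (.nd (nat_lit 26) 
(.nd (nat_lit 19) (.lf (nat_lit 2952937534) (dlOf (nat_lit 2) (nat_lit 0x20040003a818030480))) 
(.lf (nat_lit 805978174) (dlOf (nat_lit 3) (nat_lit 0x80ac00420130002782010102b0080814c0404064022001300190000001382802a80080084002001c0008201403)))) 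
(.nd (nat_lit 8) 
(.lf (nat_lit 5167530046) (dlOf (nat_lit 2) (nat_lit 0x2a0140001f80800b8008005400200080008080483))) 
(.lf (nat_lit 3154264382) (dlOf (nat_lit 1) (nat_lit 0x400200020008147d02))))))) (.nd (nat_lit 10) 
(.nd (nat_lit 6) (.nd (nat_lit 8) 
(.lf (nat_lit 2755805374) (dlOf (nat_lit 1) (nat_lit 0xef80080158002022200081b0403))) 
(.lf (nat_lit 9060798) (dlOf (nat_lit 1) (nat_lit 0x220028511081)))) (.nd (nat_lit 9) 
(.nd (nat_lit 21) (.lf (nat_lit 9585150) (dlOf (nat_lit 2) (nat_lit 0x28e000017018577e00))) 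
(.lf (nat_lit 11682302) (dlOf (nat_lit 1) (nat_lit 0x80080004002000200086c0d83)))) 
(.lf (nat_lit 8543230) (dlOf (nat_lit 1) (nat_lit 0x40020002000851bf02))))) (.nd (nat_lit 20) 
(.nd (nat_lit 9) (.lf (nat_lit 34227390) (dlOf (nat_lit 1) (nat_lit 0x8008000800200020008fb2c83))) 
(.nd (nat_lit 26) (.lf (nat_lit 805457598) (dlOf (nat_lit 1) (nat_lit 0x2a0028117281))) 
(.lf (nat_lit 6509711038) (dlOf (nat_lit 1) (nat_lit 0x20008147281))))) (.nd (nat_lit 11) 
(.lf (nat_lit 35275966) (dlOf (nat_lit 1) (nat_lit 0x200080010002000a0009012c83))) 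
(.nd (nat_lit 12) 
(.lf (nat_lit 20073662) (dlOf (nat_lit 2) (nat_lit 0xa4b7100e34e10071848c0384072000203700bd00000008c3000200080130002000c00089d6303))) 
(.lf (nat_lit 20077758) (dlOf (nat_lit 1) (nat_lit 0x4002000200089dc202)))))))) (.nd (nat_lit 19) 
(.nd (nat_lit 21) (.nd (nat_lit 7) (.nd (nat_lit 8) (.nd (nat_lit 22) 
(.lf (nat_lit 2617655358) (dlOf (nat_lit 5) (nat_lit 0x80400003402000e020000180100070100000a80800400800003c040038004001a0008130e82))) 
(.lf (nat_lit 54935614) (dlOf (nat_lit 1) (nat_lit 0x400400020019670482)))) 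
(.lf (nat_lit 872826174) (dlOf (nat_lit 1) (nat_lit 0x7200280e3281)))) (.nd (nat_lit 6) 
(.lf (nat_lit 21381310) (dlOf (nat_lit 2) (nat_lit 0x1fda800019018a31a80))) 
(.lf (nat_lit 43402750) (dlOf (nat_lit 1) (nat_lit 0x80080004002000200092a3683))))) 
(.nd (nat_lit 8) (.nd (nat_lit 23) (.nd (nat_lit 26) 
(.lf (nat_lit 2506814) (dlOf (nat_lit 1) (nat_lit 0x8008004800200800008160c83))) 
(.lf (nat_lit 2753970238) (dlOf (nat_lit 2) (nat_lit 0x1000000001604000c004000400080a0c82)))) 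
(.lf (nat_lit 61227070) (dlOf (nat_lit 1) (nat_lit 0x200298e0601)))) (.nd (nat_lit 6) 
(.lf (nat_lit 41304382) (dlOf (nat_lit 1) (nat_lit 0x100029237d01))) 
(.lf (nat_lit 2755026302) (dlOf (nat_lit 1) (nat_lit 0x4b80080098002022000080fc903)))))) 
(.nd (nat_lit 8) (.nd (nat_lit 9) (.nd (nat_lit 20) 
(.lf (nat_lit 59654206) (dlOf (nat_lit 2) (nat_lit 0x3e00000124819820600))) 
(.lf (nat_lit 25051198) (dlOf (nat_lit 2) (nat_lit 0x1dccbf00027018be1400)))) (.nd (nat_lit 6) 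
(.nd (nat_lit 11) (.lf (nat_lit 2753446462) (dlOf (nat_lit 1) (nat_lit 0x240018091081))) 
(.lf (nat_lit 58608190) (dlOf (nat_lit 1) (nat_lit 0x10004004600097e5202)))) 
(.lf (nat_lit 19812990) (dlOf (nat_lit 1) (nat_lit 0x200080004002000200089d8a83))))) 
(.nd (nat_lit 7) (.nd (nat_lit 10) 
(.lf (nat_lit 46022974) (dlOf (nat_lit 1) (nat_lit 0xea0019380b81))) 
(.lf (nat_lit 472794430) (dlOf (nat_lit 2) (nat_lit 0x130b280000c08007000800fc002000c0008b03283)))) 
(.nd (nat_lit 6) (.nd (nat_lit 11) 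
(.lf (nat_lit 43925950) (dlOf (nat_lit 3) (nat_lit 0x44c48000180800200000000004005c004000600192a1082))) 
(.lf (nat_lit 2754496958) (dlOf (nat_lit 1) (nat_lit 0x400180f4e81)))) 
(.lf (nat_lit 2752397822) (dlOf (nat_lit 9) (nat_lit 0x4984900002e02012c248000168100471240000a40806387e0000460404003f00002202023c1f80000f0100bc0fc0000700806207e0000360400f400400280008017e02)))))))) 
(.nd (nat_lit 8) (.nd (nat_lit 26) (.nd (nat_lit 18) (.nd (nat_lit 32) (.nd (nat_lit 7) 
(.nd (nat_lit 19) 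
(.lf (nat_lit 1346519102) (dlOf (nat_lit 1) (nat_lit 0x280080008002000a0008f80483))) 
(.lf (nat_lit 1344946238) (dlOf (nat_lit 4) (nat_lit 0x6414d008d06c801081f400c40f80024908009014d002403e0007c010012850c004427600bc0cd000b03a801381cc0038e140074004008800189a0602)))) 
(.lf (nat_lit 1744980670) (dlOf (nat_lit 1) (nat_lit 0x400200020008095782)))) (.nd (nat_lit 6) 
(.nd (nat_lit 27) 
(.lf (nat_lit 5368856638) (dlOf (nat_lit 3) (nat_lit 0x5009800b0040001c01c000a1060020015000700a0009004c0014022003e010000d0070001f83000a0008006c002003e0008040483))) 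
(.lf (nat_lit 5503074366) (dlOf (nat_lit 3) (nat_lit 0x5009800b0040001c01c000a1060020015000700a0009004c0014022003e010000d0070001f83000a0008006c002003e0008040483)))) 
(.lf (nat_lit 5905729278) (dlOf (nat_lit 1) (nat_lit 0x400400020008143b82))))) (.nd (nat_lit 9) 
(.nd (nat_lit 10) (.nd (nat_lit 21) 
(.lf (nat_lit 1346781246) (dlOf (nat_lit 2) (nat_lit 0x10558004780400f800400260009000602))) 
(.lf (nat_lit 3492167742) (dlOf (nat_lit 2) (nat_lit 0x1000000004604000c004000400080a0c82)))) 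
(.lf (nat_lit 5773870142) (dlOf (nat_lit 1) (nat_lit 0x12000400dc00180e2882)))) (.nd (nat_lit 6) 
(.lf (nat_lit 3491643966) (dlOf (nat_lit 1) (nat_lit 0x240018091081))) (.nd (nat_lit 10) 
(.lf (nat_lit 1345211134) (dlOf (nat_lit 1) (nat_lit 0xe0018b05a81))) 
(.lf (nat_lit 3492693758) (dlOf (nat_lit 4) (nat_lit 0x38033000f81000003208007c08000016020070066001f0200000501000100080018002000600080f3b83))))))) 
(.nd (nat_lit 6) (.nd (nat_lit 19) (.nd (nat_lit 9) (.nd (nat_lit 10) 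
(.lf (nat_lit 1946566718) (dlOf (nat_lit 1) (nat_lit 0x4c002000c00080c1402))) 
(.lf (nat_lit 1543654462) (dlOf (nat_lit 2) (nat_lit 0x2802500081018146080)))) 
(.lf (nat_lit 3959577150) (dlOf (nat_lit 14) (nat_lit 0x1000a80010050003c020000f00fc017c070003802e008a00b0001dc380050150005008000076040096054000b020803380bc002405c00d0014000388500080178001a80800480bc000d004013c05e000670200fa02f0003301004901780018c0802b00bc000c404011c05e002002e000308200490178001800802201440024094003a035000900f800480480005a1401200a80088040004b01f800e80e0013c066004e02f002201700000038175000801f4002004c000811b483)))) 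
(.nd (nat_lit 7) (.nd (nat_lit 27) 
(.lf (nat_lit 1409957950) (dlOf (nat_lit 1) (nat_lit 0x200080008002000200080a0c83))) 
(.lf (nat_lit 4228530238) (dlOf (nat_lit 3) (nat_lit 0x101900013c0801780c80009c040014004000600080f1402)))) 
(.lf (nat_lit 6377324734) (dlOf (nat_lit 1) (nat_lit 0x40004003600180c1a82))))) (.nd (nat_lit 10) 
(.nd (nat_lit 7) 
(.lf (nat_lit 5972838526) (dlOf (nat_lit 1) (nat_lit 0x10008000400200020008144783))) 
(.lf (nat_lit 3959572734) (dlOf (nat_lit 1) (nat_lit 0x120008114b81)))) (.nd (nat_lit 28) 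
(.lf (nat_lit 1275217150) (dlOf (nat_lit 1) (nat_lit 0x20028092f01))) 
(.lf (nat_lit 2080523518) (dlOf (nat_lit 1) (nat_lit 0xe0028092f01))))))) (.nd (nat_lit 7) 
(.nd (nat_lit 10) (.nd (nat_lit 6) (.nd (nat_lit 11) 
(.lf (nat_lit 3892461886) (dlOf (nat_lit 1) (nat_lit 0x8008000c00200020008147d03))) 
(.lf (nat_lit 3959572798) (dlOf (nat_lit 1) (nat_lit 0x200080080002008c0008114c83)))) 
(.nd (nat_lit 9) (.lf (nat_lit 3221635454) (dlOf (nat_lit 1) (nat_lit 0x20018170781))) 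
(.lf (nat_lit 3355595646) (dlOf (nat_lit 1) (nat_lit 0xc00080070002004200080a9003))))) 
(.nd (nat_lit 9) (.nd (nat_lit 26) (.nd (nat_lit 12) 
(.lf (nat_lit 3490073918) (dlOf (nat_lit 1) (nat_lit 0x400200020008006902))) 
(.lf (nat_lit 3221380414) (dlOf (nat_lit 3) (nat_lit 0x1c02a0013810000740700066016003410400090178016bc080068008004c002002e000811c903)))) 
(.nd (nat_lit 27) (.lf (nat_lit 1409436990) (dlOf (nat_lit 1) (nat_lit 0x1400200080008006902))) 
(.lf (nat_lit 1543654718) (dlOf (nat_lit 4) (nat_lit 0x100170001701000a012000800840005a08000c0460010020000a00b800080180018008005c002002a0008146903))))) 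
(.nd (nat_lit 6) (.lf (nat_lit 5905729342) (dlOf (nat_lit 1) (nat_lit 0x400400020008143e02))) 
(.lf (nat_lit 1344163710) (dlOf (nat_lit 1) (nat_lit 0x4002000200083d7782)))))) (.nd (nat_lit 6) 
(.nd (nat_lit 10) (.nd (nat_lit 19) (.nd (nat_lit 26) 
(.lf (nat_lit 3221635518) (dlOf (nat_lit 1) (nat_lit 0xb80018170881))) 
(.lf (nat_lit 3959833022) (dlOf (nat_lit 1) (nat_lit 0xb80018170881)))) 
(.lf (nat_lit 1346257342) (dlOf (nat_lit 8) (nat_lit 0x600180002e04003400c0001602001a0060000701000d0030000300800405b0004000c00040010000303000e0030000100800700180000004006c00400040018e81082)))) 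
(.nd (nat_lit 9) (.lf (nat_lit 1344165310) (dlOf (nat_lit 1) (nat_lit 0x800283d9a01))) 
(.lf (nat_lit 3959572414) (dlOf (nat_lit 4) (nat_lit 0x5080f8000440400e007c000210200ca00000004018114380))))) 
(.nd (nat_lit 27) (.nd (nat_lit 18) 
(.lf (nat_lit 1677870078) (dlOf (nat_lit 1) (nat_lit 0x80018112881))) 
(.lf (nat_lit 3492692990) (dlOf (nat_lit 1) (nat_lit 0x200080f2881)))) (.nd (nat_lit 9) 
(.lf (nat_lit 3959577086) (dlOf (nat_lit 1) (nat_lit 0x17000800f4002002e000811b283))) 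
(.lf (nat_lit 2080523262) (dlOf (nat_lit 1) (nat_lit 0x1c004000c0008092882)))))))))) 
(.nd (nat_lit 5) (.nd (nat_lit 18) (.nd (nat_lit 28) (.nd (nat_lit 11) (.nd (nat_lit 24) 
(.nd (nat_lit 8) (.nd (nat_lit 9) (.nd (nat_lit 22) (.nd (nat_lit 26) 
(.lf (nat_lit 1073954846) (dlOf (nat_lit 1) (nat_lit 0x4002000a0008030902))) 
(.lf (nat_lit 4496506910) (dlOf (nat_lit 1) (nat_lit 0x510004014400080a0602)))) 
(.lf (nat_lit 37961758) (dlOf (nat_lit 1) (nat_lit 0x600190f0101)))) (.nd (nat_lit 19) 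
(.lf (nat_lit 3359262) (dlOf (nat_lit 1) (nat_lit 0x98008007800200200008200d83))) 
(.lf (nat_lit 1611350558) (dlOf (nat_lit 1) (nat_lit 0x400400020018138702))))) (.nd (nat_lit 6) 
(.nd (nat_lit 7) (.lf (nat_lit 2885895966) (dlOf (nat_lit 1) (nat_lit 0x100008143c81))) 
(.lf (nat_lit 3288547742) (dlOf (nat_lit 1) (nat_lit 0x78008007400200180008090783)))) 
(.nd (nat_lit 9) (.lf (nat_lit 9650526) (dlOf (nat_lit 1) (nat_lit 0x20028574e81))) 
(.lf (nat_lit 671303518) (dlOf (nat_lit 6) (nat_lit 0x180140000b01000200000005408009805000200000001404000e0140000281000300a000010080018008005000200060008143f83)))))) 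
(.nd (nat_lit 6) (.nd (nat_lit 21) (.nd (nat_lit 19) 
(.lf (nat_lit 25378846) (dlOf (nat_lit 2) (nat_lit 0x555836001b30200b60018c00481))) 
(.lf (nat_lit 21708830) (dlOf (nat_lit 7) (nat_lit 0x1a3b6a04e3daa026fed4014276980a27b480103da00115ecf0133f50c003fa2008efb540475da8024ced30128769000dbb40015bd9e0066ea40117f50c003f82008d3b540463da80246ed3012576900097b400153d9e0229ea18007ec3813076a80983b5004e1da60274ed2003576800337b3c00cfd480253ea18007e8400030000002ca04076bae6029dd71019b000000570180910008060c00206a60008a60a83)))) 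
(.nd (nat_lit 7) (.lf (nat_lit 52641822) (dlOf (nat_lit 2) (nat_lit 0x2e300006c819560600))) 
(.lf (nat_lit 61031582) (dlOf (nat_lit 1) (nat_lit 0x200198c2b81))))) (.nd (nat_lit 20) 
(.nd (nat_lit 7) 
(.lf (nat_lit 23806302) (dlOf (nat_lit 3) (nat_lit 0x2b0f00015008005d8880005a04000400400020008b80682))) 
(.lf (nat_lit 16990430) (dlOf (nat_lit 1) (nat_lit 0x400088e0581)))) (.nd (nat_lit 9) 
(.lf (nat_lit 22233182) (dlOf (nat_lit 1) (nat_lit 0x400400020008ab1c02))) 
(.lf (nat_lit 20141662) (dlOf (nat_lit 1) (nat_lit 0x24002002800089d9c02))))))) (.nd (nat_lit 9) 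
(.nd (nat_lit 6) (.nd (nat_lit 10) (.nd (nat_lit 26) 
(.lf (nat_lit 537086238) (dlOf (nat_lit 1) (nat_lit 0x12c0028004b81))) 
(.lf (nat_lit 3959638302) (dlOf (nat_lit 1) (nat_lit 0x80018114b81)))) 
(.lf (nat_lit 2818792734) (dlOf (nat_lit 1) (nat_lit 0xa800800a4002006a000812c603)))) 
(.nd (nat_lit 7) (.nd (nat_lit 8) 
(.lf (nat_lit 3959642206) (dlOf (nat_lit 1) (nat_lit 0x1c0020002000811a802))) 
(.lf (nat_lit 8083806) (dlOf (nat_lit 1) (nat_lit 0x40040002001851ab82)))) 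
(.lf (nat_lit 671303902) (dlOf (nat_lit 3) (nat_lit 0x790160038806c008400200b2000000068400120160005806c0001608017000400160008144a82))))) 
(.nd (nat_lit 27) (.nd (nat_lit 7) 
(.lf (nat_lit 216606) (dlOf (nat_lit 1) (nat_lit 0x20018007101))) (.nd (nat_lit 19) 
(.lf (nat_lit 36915870) (dlOf (nat_lit 1) (nat_lit 0xa0019075581))) 
(.lf (nat_lit 39537310) (dlOf (nat_lit 1) (nat_lit 0xc0019195581))))) (.nd (nat_lit 6) 
(.nd (nat_lit 8) 
(.lf (nat_lit 2818792990) (dlOf (nat_lit 8) (nat_lit 0x1b01c800a00de00a003f001701a0001502001b01c8016807e000530400d603f000288100cb01f8001400804180fc0009c0400a00e400ea03f0002282008801f8000e408075800804040020012000812cf03))) 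
(.lf (nat_lit 2818792222) (dlOf (nat_lit 1) (nat_lit 0x6000812bb81)))) 
(.lf (nat_lit 6107122270) (dlOf (nat_lit 1) (nat_lit 0x400400020008095382))))))) (.nd (nat_lit 29) 
(.nd (nat_lit 26) (.nd (nat_lit 6) (.nd (nat_lit 7) (.nd (nat_lit 19) 
(.lf (nat_lit 1476608030) (dlOf (nat_lit 6) (nat_lit 0x5b80440008e040460022000c00e0002102011f00880010008017005c0007e040004000000390200ea00080a0581))) 
(.lf (nat_lit 1343963166) (dlOf (nat_lit 1) (nat_lit 0x20028380b01)))) 
(.lf (nat_lit 4563615902) (dlOf (nat_lit 1) (nat_lit 0x4004000200080a2b82)))) (.nd (nat_lit 8) 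
(.nd (nat_lit 27) (.lf (nat_lit 6711100638) (dlOf (nat_lit 1) (nat_lit 0x400400020008092e02))) 
(.lf (nat_lit 402867422) (dlOf (nat_lit 1) (nat_lit 0x20028092e01)))) (.nd (nat_lit 7) 
(.lf (nat_lit 3490401630) (dlOf (nat_lit 1) (nat_lit 0x8008000400200020008006a83))) 
(.lf (nat_lit 1344488414) (dlOf (nat_lit 1) (nat_lit 0x74400201480008802882)))))) (.nd (nat_lit 19) 
(.nd (nat_lit 7) (.nd (nat_lit 27) 
(.lf (nat_lit 5704466462) (dlOf (nat_lit 8) (nat_lit 0x1100d8022002c002be080020016003c000000af0200f000580878000002b808002c0160014302001801b0009e81002f00d8004e008006006c0026e040078002003e00080a0a82))) 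
(.lf (nat_lit 3691200542) (dlOf (nat_lit 10) (nat_lit 0x601d016200200b4000c000b40c05f00080005902015e0040002c01015d00200015c0806e0010000ac0400700440004b02030000401810018000141009e801004f4006000040402b000401600018000081000a80080018002000400080a0583)))) 
(.lf (nat_lit 473121950) (dlOf (nat_lit 2) (nat_lit 0xc04e0001e8080018008002800200060008d12b83)))) 
(.nd (nat_lit 8) (.nd (nat_lit 21) 
(.lf (nat_lit 3557507102) (dlOf (nat_lit 2) (nat_lit 0x4092000202100269828230680))) 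
(.lf (nat_lit 472596510) (dlOf (nat_lit 2) (nat_lit 0xe411a0003602000400189c0101)))) 
(.lf (nat_lit 473645342) (dlOf (nat_lit 1) (nat_lit 0x6400200180008f78002)))))) (.nd (nat_lit 26) 
(.nd (nat_lit 7) (.nd (nat_lit 9) (.nd (nat_lit 27) 
(.lf (nat_lit 2953003038) (dlOf (nat_lit 5) (nat_lit 0x5a0070000b40401e40380005902003001c0002c0100b400e00015c080088008005800201020008080583))) 
(.lf (nat_lit 6308446238) (dlOf (nat_lit 8) (nat_lit 0x1100d8022002c002aa080020016003c000000aa0200f000580878000002a408002c0160014302001801b0009e81002f00d8004e008006006c0026e040078002003e00080a0a82)))) 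
(.lf (nat_lit 4026745374) (dlOf (nat_lit 1) (nat_lit 0x400200060008090d82)))) (.nd (nat_lit 6) 
(.lf (nat_lit 4026745246) (dlOf (nat_lit 1) (nat_lit 0x48008002c002001c0008090783))) 
(.lf (nat_lit 1879785694) (dlOf (nat_lit 1) (nat_lit 0x20008370581))))) (.nd (nat_lit 21) 
(.nd (nat_lit 11) (.nd (nat_lit 7) 
(.lf (nat_lit 1946370078) (dlOf (nat_lit 1) (nat_lit 0x4002000a0008030902))) 
(.lf (nat_lit 6377128094) (dlOf (nat_lit 1) (nat_lit 0x3600180a2b81)))) (.nd (nat_lit 8) 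
(.lf (nat_lit 6241340446) (dlOf (nat_lit 1) (nat_lit 0x4004000200180d6002))) 
(.lf (nat_lit 6241340190) (dlOf (nat_lit 2) (nat_lit 0x80980048e040004002000400080d5c02))))) 
(.nd (nat_lit 6) (.nd (nat_lit 19) 
(.lf (nat_lit 4095950878) (dlOf (nat_lit 1) (nat_lit 0x4004000200080e0002))) 
(.lf (nat_lit 1009467422) (dlOf (nat_lit 1) (nat_lit 0x4000200060009180102)))) (.nd (nat_lit 7) 
(.lf (nat_lit 1008943454) (dlOf (nat_lit 1) (nat_lit 0x8008000400200020009000e03))) 
(.lf (nat_lit 4095951326) (dlOf (nat_lit 1) (nat_lit 0xf6000805e4002030200080e1283))))))))) 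
(.nd (nat_lit 29) (.nd (nat_lit 19) (.nd (nat_lit 30) (.nd (nat_lit 21) (.nd (nat_lit 22) 
(.nd (nat_lit 7) (.nd (nat_lit 8) 
(.lf (nat_lit 6510034974) (dlOf (nat_lit 1) (nat_lit 0x20008190b81))) 
(.lf (nat_lit 8866078) (dlOf (nat_lit 1) (nat_lit 0x3000400180018514b82)))) 
(.lf (nat_lit 476830) (dlOf (nat_lit 1) (nat_lit 0x800400cc0008003a82)))) (.nd (nat_lit 6) 
(.lf (nat_lit 21446686) (dlOf (nat_lit 1) (nat_lit 0xa0028a40101))) 
(.lf (nat_lit 21446750) (dlOf (nat_lit 2) (nat_lit 0x1cebd000e750c0006408002400400060018a40702))))) 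
(.nd (nat_lit 8) (.nd (nat_lit 25) 
(.lf (nat_lit 2572318) (dlOf (nat_lit 1) (nat_lit 0x60028170a01))) 
(.lf (nat_lit 36126750) (dlOf (nat_lit 2) (nat_lit 0x8404c0001d819030100)))) 
(.lf (nat_lit 52905246) (dlOf (nat_lit 1) (nat_lit 0x8008000400200020009573103))))) 
(.nd (nat_lit 28) (.nd (nat_lit 6) 
(.lf (nat_lit 3221700766) (dlOf (nat_lit 7) (nat_lit 0xc0460009901000b0170004bc080050118002c08a00123040010046000a022800488100040118002c08a00121040014046000c022800480100018008000800200060008170203))) 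
(.lf (nat_lit 3288815710) (dlOf (nat_lit 1) (nat_lit 0x4002000200080fa802)))) (.nd (nat_lit 8) 
(.nd (nat_lit 22) 
(.lf (nat_lit 5637619742) (dlOf (nat_lit 3) (nat_lit 0x2024001010100080120007ac080118008002400200040008120a83))) 
(.lf (nat_lit 3494330398) (dlOf (nat_lit 2) (nat_lit 0x2a00000000018200b00)))) 
(.lf (nat_lit 1345798430) (dlOf (nat_lit 3) (nat_lit 0x40e00004fc08002870000270040030002000a0008df8002)))))) 
(.nd (nat_lit 24) (.nd (nat_lit 27) (.nd (nat_lit 6) (.nd (nat_lit 7) 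
(.lf (nat_lit 5193758) (dlOf (nat_lit 1) (nat_lit 0x400400020008320582))) 
(.lf (nat_lit 3490660766) (dlOf (nat_lit 1) (nat_lit 0x400200020008016b82)))) 
(.lf (nat_lit 7291102) (dlOf (nat_lit 2) (nat_lit 0x364b0001540800080080004002000400084b0583)))) 
(.nd (nat_lit 8) (.nd (nat_lit 26) 
(.lf (nat_lit 5772361758) (dlOf (nat_lit 1) (nat_lit 0x800400020008090002))) 
(.lf (nat_lit 470761502) (dlOf (nat_lit 1) (nat_lit 0x20008170101)))) 
(.lf (nat_lit 472858910) (dlOf (nat_lit 2) (nat_lit 0x2c2ca0003e0200100018b28001))))) 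
(.nd (nat_lit 6) (.nd (nat_lit 10) (.nd (nat_lit 20) 
(.lf (nat_lit 59719710) (dlOf (nat_lit 1) (nat_lit 0x1800400040009820102))) 
(.lf (nat_lit 52379678) (dlOf (nat_lit 2) (nat_lit 0x342b2801a14ec00d090c006847000000049530100)))) 
(.lf (nat_lit 19880990) (dlOf (nat_lit 1) (nat_lit 0x400289dbf01)))) (.nd (nat_lit 9) 
(.lf (nat_lit 18825310) (dlOf (nat_lit 1) (nat_lit 0x80008970481))) 
(.lf (nat_lit 54479454) (dlOf (nat_lit 1) (nat_lit 0x80080024002000c0009655383))))))) 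
(.nd (nat_lit 30) (.nd (nat_lit 6) (.nd (nat_lit 21) (.nd (nat_lit 22) (.nd (nat_lit 27) 
(.lf (nat_lit 3020374046) (dlOf (nat_lit 1) (nat_lit 0x4600282b0681))) 
(.lf (nat_lit 738672670) (dlOf (nat_lit 1) (nat_lit 0x2000080110002010000080d0103)))) 
(.lf (nat_lit 2756132894) (dlOf (nat_lit 2) (nat_lit 0x2a00000000018200b00)))) (.nd (nat_lit 7) 
(.lf (nat_lit 1009205278) (dlOf (nat_lit 3) (nat_lit 0x2a075800283a40009c0800041d60000802000200190a0101))) 
(.lf (nat_lit 2754567582) (dlOf (nat_lit 1) (nat_lit 0x200080038002000200080fca83))))) 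
(.nd (nat_lit 8) (.nd (nat_lit 21) 
(.lf (nat_lit 738672734) (dlOf (nat_lit 5) (nat_lit 0x3c03f0002081018302b01b3012003080840464041019d020008200e40418060047402a012d014807e80240002a2800640900001402039e056017202401678104099008002ea03000860150000483006b000808c800203fe00080d0703))) 
(.lf (nat_lit 1009205342) (dlOf (nat_lit 2) (nat_lit 0xd0718000000800180080028002000e00090a0883)))) 
(.nd (nat_lit 10) (.lf (nat_lit 604457310) (dlOf (nat_lit 1) (nat_lit 0x1c00282d4e81))) 
(.lf (nat_lit 604456286) (dlOf (nat_lit 2) (nat_lit 0x3e043001f01e801a80e8007c06e0036034000b015000f80800080028003e00c001500480108000000682c00ec004002a00082d3402)))))) 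
(.nd (nat_lit 26) (.nd (nat_lit 31) (.nd (nat_lit 6) (.nd (nat_lit 32) 
(.lf (nat_lit 1611087902) (dlOf (nat_lit 1) (nat_lit 0x2000080110002010000080d0103))) 
(.lf (nat_lit 5906055198) (dlOf (nat_lit 1) (nat_lit 0x20008190b81)))) 
(.lf (nat_lit 1611087966) (dlOf (nat_lit 5) (nat_lit 0x3c03f0002081018302b01b3012003080840464041019d020008200e40418060047402a012d014807e80240002a2800640900001402039e056017202401678104099008002ea03000860150000483006b000808c800203fe00080d0703)))) 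
(.nd (nat_lit 27) (.lf (nat_lit 3758571550) (dlOf (nat_lit 1) (nat_lit 0x4600282b0681))) 
(.lf (nat_lit 3892789278) (dlOf (nat_lit 1) (nat_lit 0x340008270681))))) (.nd (nat_lit 6) 
(.nd (nat_lit 7) 
(.lf (nat_lit 6241599518) (dlOf (nat_lit 3) (nat_lit 0x2025000f0010008012800758080118008002400200040008120a83))) 
(.lf (nat_lit 3959898270) (dlOf (nat_lit 7) (nat_lit 0xc0460009f81000b0170004f0080050118002c08a00132040010046000a0228004c4100040118002c08a00130040014046000c0228004bc100018008000800200060008170203)))) 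
(.lf (nat_lit 6377390174) (dlOf (nat_lit 1) (nat_lit 0x4002000200080d1c02)))))))) (.nd (nat_lit 30) 
(.nd (nat_lit 6) (.nd (nat_lit 18) (.nd (nat_lit 27) (.nd (nat_lit 20) (.nd (nat_lit 22) 
(.nd (nat_lit 26) 
(.lf (nat_lit 2953003070) (dlOf (nat_lit 3) (nat_lit 0x2e00b803b003400c20180057c83007701700690068020403000af80602540018080901))) 
(.lf (nat_lit 604192830) (dlOf (nat_lit 1) (nat_lit 0xb4002002a0008080902)))) (.nd (nat_lit 21) 
(.lf (nat_lit 12795966) (dlOf (nat_lit 1) (nat_lit 0xc002000600086e0c02))) 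
(.lf (nat_lit 56836158) (dlOf (nat_lit 1) (nat_lit 0x40019770601))))) (.nd (nat_lit 7) 
(.lf (nat_lit 35340350) (dlOf (nat_lit 1) (nat_lit 0xd40019010001))) 
(.lf (nat_lit 28524734) (dlOf (nat_lit 1) (nat_lit 0x20028da0481))))) (.nd (nat_lit 26) 
(.nd (nat_lit 7) (.nd (nat_lit 28) 
(.lf (nat_lit 134430782) (dlOf (nat_lit 1) (nat_lit 0x20028020701))) 
(.lf (nat_lit 939737150) (dlOf (nat_lit 2) (nat_lit 0x2405200ec022000c00f003280740218038006601900590088025803000ec00e00b2005003f0000000505802c8008006c00200240008160703)))) 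
(.lf (nat_lit 2818790846) (dlOf (nat_lit 1) (nat_lit 0x2000801d000200400008129a03)))) 
(.nd (nat_lit 28) (.nd (nat_lit 7) 
(.lf (nat_lit 201539646) (dlOf (nat_lit 1) (nat_lit 0x20028020701))) 
(.lf (nat_lit 738935230) (dlOf (nat_lit 1) (nat_lit 0x60008157001)))) (.nd (nat_lit 10) 
(.lf (nat_lit 469975102) (dlOf (nat_lit 2) (nat_lit 0xe1c70000a018020700))) 
(.lf (nat_lit 473121854) (dlOf (nat_lit 2) (nat_lit 0x48270009ca04001000200060008d12882))))))) 
(.nd (nat_lit 19) (.nd (nat_lit 23) (.nd (nat_lit 27) (.nd (nat_lit 26) 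
(.lf (nat_lit 2572350) (dlOf (nat_lit 2) (nat_lit 0x4a5e00000018170c00))) 
(.lf (nat_lit 2754035774) (dlOf (nat_lit 2) (nat_lit 0x1907f800008040010004000c00180b1882)))) 
(.nd (nat_lit 9) 
(.lf (nat_lit 738672702) (dlOf (nat_lit 2) (nat_lit 0x3e02a00710048002741000880080004002005400080d0483))) 
(.lf (nat_lit 472336958) (dlOf (nat_lit 3) (nat_lit 0x2c0fa0007702000214d0003b018985200))))) 
(.nd (nat_lit 7) (.nd (nat_lit 9) 
(.lf (nat_lit 49758270) (dlOf (nat_lit 1) (nat_lit 0xc004000400094a0602))) 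
(.lf (nat_lit 44517950) (dlOf (nat_lit 1) (nat_lit 0x30008000800200040009325203)))) 
(.lf (nat_lit 47662270) (dlOf (nat_lit 8) (nat_lit 0x36a92000440200e75e0007daa480010410019578000bea92000400400475e00023aa48000ec10002d780001aa920003604000d5e00001a01000aaa4800000080038008003c00200120009402c83))))) 
(.nd (nat_lit 24) (.nd (nat_lit 10) (.nd (nat_lit 23) 
(.lf (nat_lit 473907262) (dlOf (nat_lit 2) (nat_lit 0xc160000c0a6800603640004138001607c00123858fc0600))) 
(.lf (nat_lit 12533822) (dlOf (nat_lit 4) (nat_lit 0x53a3e0000b020013d1f0000501000ae8f8000240800d0008000c002000200086d0c83)))) 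
(.lf (nat_lit 37700670) (dlOf (nat_lit 1) (nat_lit 0x200190d2881)))) (.nd (nat_lit 7) 
(.nd (nat_lit 21) (.lf (nat_lit 52379710) (dlOf (nat_lit 1) (nat_lit 0x400200020009530602))) 
(.lf (nat_lit 25116734) (dlOf (nat_lit 3) (nat_lit 0x1e21d80005102009104e00027018be1400)))) 
(.lf (nat_lit 19878334) (dlOf (nat_lit 1) (nat_lit 0x1000080008002002000089d8603))))))) 
(.nd (nat_lit 8) (.nd (nat_lit 28) (.nd (nat_lit 7) (.nd (nat_lit 18) 
(.lf (nat_lit 2753773694) (dlOf (nat_lit 1) (nat_lit 0x400400020018090082))) 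
(.lf (nat_lit 55001214) (dlOf (nat_lit 1) (nat_lit 0x1500080044002001c0009680d03)))) 
(.nd (nat_lit 9) (.nd (nat_lit 23) 
(.lf (nat_lit 51069182) (dlOf (nat_lit 1) (nat_lit 0x2a00194f2901))) 
(.lf (nat_lit 9126142) (dlOf (nat_lit 1) (nat_lit 0x4400400180018524602)))) 
(.lf (nat_lit 50809598) (dlOf (nat_lit 1) (nat_lit 0x200194c5a81))))) (.nd (nat_lit 9) 
(.nd (nat_lit 10) (.lf (nat_lit 2617458942) (dlOf (nat_lit 1) (nat_lit 0x3800180b4601))) 
(.lf (nat_lit 402867454) (dlOf (nat_lit 1) (nat_lit 0x20028092f01)))) (.nd (nat_lit 7) 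
(.lf (nat_lit 335759998) (dlOf (nat_lit 1) (nat_lit 0x20028095481))) 
(.lf (nat_lit 4563880702) (dlOf (nat_lit 1) (nat_lit 0x40028125a81)))))) (.nd (nat_lit 20) 
(.nd (nat_lit 26) (.nd (nat_lit 7) 
(.lf (nat_lit 3096958) (dlOf (nat_lit 1) (nat_lit 0x220018200781))) (.nd (nat_lit 27) 
(.lf (nat_lit 2416132606) (dlOf (nat_lit 1) (nat_lit 0x3800804c8002010a0008090d83))) 
(.lf (nat_lit 3087221246) (dlOf (nat_lit 3) (nat_lit 0x890000000b8080240008012c0000002d04000e0008157e01))))) 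
(.nd (nat_lit 9) 
(.lf (nat_lit 2752463358) (dlOf (nat_lit 8) (nat_lit 0x4c83f00002302029e1f80001101005f0fc0000840800587e00003c0404bc3f00001c02022e1f80000d8100e40fc0000680800c0008003000200040008017e03))) 
(.nd (nat_lit 11) (.lf (nat_lit 5033378814) (dlOf (nat_lit 1) (nat_lit 0x100018092881))) 
(.lf (nat_lit 738413566) (dlOf (nat_lit 1) (nat_lit 0x800400040018095f02)))))) (.nd (nat_lit 7) 
(.nd (nat_lit 18) (.lf (nat_lit 1261950) (dlOf (nat_lit 1) (nat_lit 0xb8008009c002002600080a5a83))) 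
(.lf (nat_lit 2755084670) (dlOf (nat_lit 1) (nat_lit 0x400400020018105a82)))) (.nd (nat_lit 10) 
(.nd (nat_lit 12) (.lf (nat_lit 9650686) (dlOf (nat_lit 1) (nat_lit 0x20018577e01))) 
(.lf (nat_lit 20140542) (dlOf (nat_lit 1) (nat_lit 0x10004000400089d8682)))) 
(.lf (nat_lit 43206142) (dlOf (nat_lit 1) (nat_lit 0x8002000200092a3682)))))))) (.nd (nat_lit 29) 
(.nd (nat_lit 28) (.nd (nat_lit 6) (.nd (nat_lit 9) (.nd (nat_lit 32) 
(.lf (nat_lit 1073954878) (dlOf (nat_lit 1) (nat_lit 0x20028030d81))) 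
(.lf (nat_lit 5368922174) (dlOf (nat_lit 1) (nat_lit 0x2e0018090001)))) 
(.lf (nat_lit 3288547902) (dlOf (nat_lit 1) (nat_lit 0xc800400680008091082)))) (.nd (nat_lit 7) 
(.nd (nat_lit 10) 
(.lf (nat_lit 3288547710) (dlOf (nat_lit 1) (nat_lit 0x110008002c00200260008090783))) 
(.lf (nat_lit 3221446014) (dlOf (nat_lit 5) (nat_lit 0x9408c004c045002f702003d023001f011400bda08010808c007c045002f602003f0230020811400bd208001c004002e001811c902)))) 
(.nd (nat_lit 8) (.nd (nat_lit 10) 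
(.lf (nat_lit 3355656446) (dlOf (nat_lit 1) (nat_lit 0x400080b4601))) 
(.lf (nat_lit 5368923390) (dlOf (nat_lit 2) (nat_lit 0x40260000702000a0008092f01)))) 
(.lf (nat_lit 3288547838) (dlOf (nat_lit 1) (nat_lit 0x40028090d81)))))) (.nd (nat_lit 8) 
(.nd (nat_lit 18) (.nd (nat_lit 26) 
(.lf (nat_lit 1342390334) (dlOf (nat_lit 2) (nat_lit 0xe1c700009818020700))) (.nd (nat_lit 31) 
(.lf (nat_lit 5838684222) (dlOf (nat_lit 1) (nat_lit 0x20018130901))) 
(.lf (nat_lit 3691200574) (dlOf (nat_lit 3) (nat_lit 0x9002a002a801004e01500153c0801280080018002000400080a0903))))) 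
(.nd (nat_lit 7) 
(.lf (nat_lit 3492233278) (dlOf (nat_lit 2) (nat_lit 0x1907b000008040010004000c00180b1882))) 
(.lf (nat_lit 1344750782) (dlOf (nat_lit 1) (nat_lit 0x6400400080008982c82))))) (.nd (nat_lit 6) 
(.nd (nat_lit 12) (.lf (nat_lit 3490139454) (dlOf (nat_lit 1) (nat_lit 0x20018006901))) 
(.lf (nat_lit 3489881406) (dlOf (nat_lit 1) (nat_lit 0x40040004000800c902)))) (.nd (nat_lit 9) 
(.lf (nat_lit 3493282174) (dlOf (nat_lit 1) (nat_lit 0x400400020018105a82))) 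
(.lf (nat_lit 3490143102) (dlOf (nat_lit 1) (nat_lit 0x4001800bc81))))))) (.nd (nat_lit 26) 
(.nd (nat_lit 28) (.nd (nat_lit 7) (.nd (nat_lit 10) 
(.lf (nat_lit 1611087934) (dlOf (nat_lit 2) (nat_lit 0x3e02a00710048002741000880080004002005400080d0483))) 
(.lf (nat_lit 5905794110) (dlOf (nat_lit 1) (nat_lit 0x1800400060018142882)))) (.nd (nat_lit 8) 
(.lf (nat_lit 1745046206) (dlOf (nat_lit 1) (nat_lit 0x400200020008095782))) 
(.lf (nat_lit 3758314942) (dlOf (nat_lit 1) (nat_lit 0x40018129a01))))) (.nd (nat_lit 6) 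
(.nd (nat_lit 8) (.lf (nat_lit 4026745406) (dlOf (nat_lit 1) (nat_lit 0xc800400680008091082))) 
(.lf (nat_lit 1881096510) (dlOf (nat_lit 1) (nat_lit 0xa0008e17d01)))) (.nd (nat_lit 7) 
(.lf (nat_lit 4160968318) (dlOf (nat_lit 2) (nat_lit 0x60158000000800180080014002000800080a9d83))) 
(.lf (nat_lit 4026745342) (dlOf (nat_lit 1) (nat_lit 0xd80008090d81)))))) (.nd (nat_lit 11) 
(.nd (nat_lit 19) (.nd (nat_lit 10) (.nd (nat_lit 27) 
(.lf (nat_lit 1946370110) (dlOf (nat_lit 1) (nat_lit 0x20028030d81))) 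
(.lf (nat_lit 1812152382) (dlOf (nat_lit 2) (nat_lit 0x2405200ec022000c00f003280740218038006601900590088025803000ec00e00b2005003f00000004c5802c8008006c00200240008160703)))) 
(.lf (nat_lit 3959637054) (dlOf (nat_lit 1) (nat_lit 0x8008001800200040008112883)))) 
(.nd (nat_lit 6) (.lf (nat_lit 4094378302) (dlOf (nat_lit 1) (nat_lit 0x60008050b81))) 
(.lf (nat_lit 6376341758) (dlOf (nat_lit 2) (nat_lit 0x370900002280800200080010002000c0008090a83))))) 
(.nd (nat_lit 6) (.nd (nat_lit 7) 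
(.lf (nat_lit 3959642174) (dlOf (nat_lit 6) (nat_lit 0xe023000381140041408005808c00260450010482000d023000901140041008003c08c000e0450010382001002300000008025000800300020002000811a683))) 
(.lf (nat_lit 6376606398) (dlOf (nat_lit 1) (nat_lit 0x5c00200020008095782)))) (.nd (nat_lit 18) 
(.lf (nat_lit 4094904958) (dlOf (nat_lit 1) (nat_lit 0x40028055481))) 
(.lf (nat_lit 6376868478) (dlOf (nat_lit 1) (nat_lit 0x400400020008095482))))))))))))

end

end Pool.Agent.Lib.MP_5854e1_co.Cz
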