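import Pool.Agent.Lib.MP_5854e1_co.DecRow

/-!
# Sparse corrections
-/

set_option autoImplicit false
set_option maxRecDepth 100000

namespace Pool.Agent.Lib.MP_5854e1_co.Cz

noncomputable section

noncomputable def tz21 : DT := (.nd (nat_lit 17) (.nd (nat_lit 18) (.nd (nat_lit 6) 
(.nd (nat_lit 4) (.nd (nat_lit 28) (.nd (nat_lit 5) (.nd (nat_lit 19) (.nd (nat_lit 8) 
(.nd (nat_lit 7) (.nd (nat_lit 22) (.nd (nat_lit 23) 
(.lf (nat_lit 17866760) (dlOf (nat_lit 2) (nat_lit 0x89620009c0200020018900581))) 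
(.lf (nat_lit 9478152) (dlOf (nat_lit 1) (nat_lit 0xa800400640008560482)))) 
(.lf (nat_lit 22061064) (dlOf (nat_lit 1) (nat_lit 0x18008000400200020008a90483)))) 
(.nd (nat_lit 11) (.lf (nat_lit 11575432) (dlOf (nat_lit 1) (nat_lit 0x80080028002002000086c0103))) 
(.lf (nat_lit 43144) (dlOf (nat_lit 1) (nat_lit 0x400400020008004802))))) (.nd (nat_lit 23) 
(.nd (nat_lit 11) (.nd (nat_lit 26) 
(.lf (nat_lit 4966097288) (dlOf (nat_lit 1) (nat_lit 0x100018001001))) 
(.lf (nat_lit 1140892040) (dlOf (nat_lit 1) (nat_lit 0x40028001001)))) 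
(.lf (nat_lit 2885724552) (dlOf (nat_lit 1) (nat_lit 0x58008005400200280008004e83)))) 
(.nd (nat_lit 7) (.lf (nat_lit 8434952) (dlOf (nat_lit 1) (nat_lit 0x150008005c00200d20008519603))) 
(.lf (nat_lit 8429960) (dlOf (nat_lit 1) (nat_lit 0x400200020008511002)))))) (.nd (nat_lit 21) 
(.nd (nat_lit 29) (.nd (nat_lit 22) 
(.lf (nat_lit 42508296) (dlOf (nat_lit 1) (nat_lit 0x40019260001))) 
(.lf (nat_lit 4759560) (dlOf (nat_lit 1) (nat_lit 0x400282b0001)))) (.nd (nat_lit 26) 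
(.lf (nat_lit 2819137544) (dlOf (nat_lit 1) (nat_lit 0xa80080004002003400081a0483))) 
(.lf (nat_lit 1678286856) (dlOf (nat_lit 4) (nat_lit 0x29022003fac08022811001f1e0400bc08800f7b02004000081d0001))))) 
(.nd (nat_lit 9) (.nd (nat_lit 24) 
(.lf (nat_lit 11051016) (dlOf (nat_lit 1) (nat_lit 0x1a0028660001))) 
(.lf (nat_lit 27828232) (dlOf (nat_lit 1) (nat_lit 0x280080010002001e0008d30003)))) 
(.lf (nat_lit 58237448) (dlOf (nat_lit 1) (nat_lit 0x380080014002001200097c7b03)))))) 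
(.nd (nat_lit 29) (.nd (nat_lit 7) (.nd (nat_lit 20) (.nd (nat_lit 9) 
(.lf (nat_lit 11051048) (dlOf (nat_lit 4) (nat_lit 0x4a0000002b010014c2900003808008e1480001404003000200320008660682))) 
(.lf (nat_lit 62958120) (dlOf (nat_lit 1) (nat_lit 0x8002000600099a5182)))) (.nd (nat_lit 22) 
(.lf (nat_lit 26255400) (dlOf (nat_lit 2) (nat_lit 0x1adfc00106648000a0100128008012400200440008c20903))) 
(.lf (nat_lit 13672488) (dlOf (nat_lit 1) (nat_lit 0x400400020008740502))))) (.nd (nat_lit 8) 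
(.nd (nat_lit 9) (.lf (nat_lit 23634088) (dlOf (nat_lit 1) (nat_lit 0x400400020008b80282))) 
(.lf (nat_lit 8434344) (dlOf (nat_lit 1) (nat_lit 0x400200020008518c82)))) (.nd (nat_lit 10) 
(.lf (nat_lit 2281747368) (dlOf (nat_lit 1) (nat_lit 0x400400020008009102))) 
(.lf (nat_lit 8431528) (dlOf (nat_lit 1) (nat_lit 0x400028514301)))))) (.nd (nat_lit 8) 
(.nd (nat_lit 26) (.nd (nat_lit 19) 
(.lf (nat_lit 671129640) (dlOf (nat_lit 2) (nat_lit 0x19003006d38080038008004c002001400080b0003))) 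
(.lf (nat_lit 2819137576) (dlOf (nat_lit 3) (nat_lit 0xf408a002e012000120200340228000840801500080018002006400081a0683)))) 
(.nd (nat_lit 11) 
(.lf (nat_lit 2755698728) (dlOf (nat_lit 3) (nat_lit 0x1a0b200da701000e059006d180801780080098002005c00081b0003))) 
(.lf (nat_lit 2751510568) (dlOf (nat_lit 1) (nat_lit 0x86000800a601))))) (.nd (nat_lit 7) 
(.lf (nat_lit 2818616104) (dlOf (nat_lit 5) (nat_lit 0x22802a00da0000011b82043a00b0234805410ac01c093000c042c003021a80101134000002260e01e6006010a00000088c100e600180041c04000c00400260018005c02))) 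
(.nd (nat_lit 22) 
(.lf (nat_lit 671130024) (dlOf (nat_lit 5) (nat_lit 0xa0170061280800300b8000c0000184904000402e00c210100030170061000802580080084002000400080b0783))) 
(.lf (nat_lit 2755699112) (dlOf (nat_lit 2) (nat_lit 0x2720590000000800e8008000c002002800081b0783)))))))) 
(.nd (nat_lit 7) (.nd (nat_lit 19) (.nd (nat_lit 30) (.nd (nat_lit 5) (.nd (nat_lit 8) 
(.lf (nat_lit 469804040) (dlOf (nat_lit 1) (nat_lit 0xfc0018002881))) 
(.lf (nat_lit 1006675720) (dlOf (nat_lit 1) (nat_lit 0x400400020008003b82)))) (.nd (nat_lit 8) 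
(.lf (nat_lit 470851624) (dlOf (nat_lit 1) (nat_lit 0x200080160002004e00081c0683))) 
(.lf (nat_lit 872459048) (dlOf (nat_lit 2) (nat_lit 0x28000000a8818005c00))))) (.nd (nat_lit 27) 
(.nd (nat_lit 8) (.lf (nat_lit 1881186312) (dlOf (nat_lit 1) (nat_lit 0x400400020008e40002))) 
(.lf (nat_lit 1342221576) (dlOf (nat_lit 1) (nat_lit 0x200028006681)))) (.nd (nat_lit 5) 
(.lf (nat_lit 5838513928) (dlOf (nat_lit 1) (nat_lit 0x1e0028003b81))) 
(.lf (nat_lit 5772453160) (dlOf (nat_lit 1) (nat_lit 0x400200020008093182)))))) (.nd (nat_lit 21) 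
(.nd (nat_lit 30) (.nd (nat_lit 22) 
(.lf (nat_lit 805871624) (dlOf (nat_lit 4) (nat_lit 0x290220041e008017811001f1604011408800f7f02004000081d0001))) 
(.lf (nat_lit 474521608) (dlOf (nat_lit 1) (nat_lit 0x200291a0001)))) (.nd (nat_lit 5) 
(.lf (nat_lit 3557335048) (dlOf (nat_lit 4) (nat_lit 0x80c2001cd020006061000e601000303080072c0802280080168002003e00081c0483))) 
(.lf (nat_lit 3557335080) (dlOf (nat_lit 1) (nat_lit 0x168008055800200b800081c0683))))) 
(.nd (nat_lit 8) (.nd (nat_lit 10) 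
(.lf (nat_lit 1345888776) (dlOf (nat_lit 1) (nat_lit 0x7c00400420008e07b02))) 
(.lf (nat_lit 1009296904) (dlOf (nat_lit 1) (nat_lit 0x54004026600090e3682)))) 
(.lf (nat_lit 1345888520) (dlOf (nat_lit 2) (nat_lit 0x341f6000df02000e0008e03a01)))))) 
(.nd (nat_lit 5) (.nd (nat_lit 8) (.nd (nat_lit 9) (.nd (nat_lit 26) 
(.lf (nat_lit 1342742664) (dlOf (nat_lit 1) (nat_lit 0x4002000200080c0102))) 
(.lf (nat_lit 470327432) (dlOf (nat_lit 1) (nat_lit 0x4002000200080c0102)))) (.nd (nat_lit 26) 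
(.lf (nat_lit 1476442760) (dlOf (nat_lit 2) (nat_lit 0x680000098c0400200020002000800b682))) 
(.lf (nat_lit 3691035272) (dlOf (nat_lit 1) (nat_lit 0x68008005c0020016000800b683))))) 
(.nd (nat_lit 10) (.nd (nat_lit 11) 
(.lf (nat_lit 5772452232) (dlOf (nat_lit 1) (nat_lit 0x2800400020018091002))) 
(.lf (nat_lit 1008249224) (dlOf (nat_lit 1) (nat_lit 0x50008003000200020008b04e83)))) 
(.lf (nat_lit 2483072392) (dlOf (nat_lit 1) (nat_lit 0x60028006c81))))) (.nd (nat_lit 9) 
(.nd (nat_lit 8) (.lf (nat_lit 3154682024) (dlOf (nat_lit 2) (nat_lit 0x440190053d818310480))) 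
(.nd (nat_lit 11) 
(.lf (nat_lit 335586728) (dlOf (nat_lit 2) (nat_lit 0x7009800180480017a08000c004001e0008003602))) 
(.lf (nat_lit 3489709480) (dlOf (nat_lit 9) (nat_lit 0x80fa8000c00800407d40005e0400203ea0002e0200101f5000168100100fa800700000000a0800103ea0000402000e1f5000a0e10000081000387d4002838400000040010001800cb81))))) 
(.nd (nat_lit 8) 
(.lf (nat_lit 2952835752) (dlOf (nat_lit 1) (nat_lit 0x28008000c00200060008008c83))) 
(.nd (nat_lit 32) 
(.lf (nat_lit 402697128) (dlOf (nat_lit 2) (nat_lit 0xc01300080090000381000400080078002000a0008005d03))) 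
(.lf (nat_lit 4697664424) (dlOf (nat_lit 3) (nat_lit 0x58108000408200160000000c0300020000000000800700080010002000a0008005d03))))))))) 
(.nd (nat_lit 5) (.nd (nat_lit 19) (.nd (nat_lit 7) (.nd (nat_lit 9) (.nd (nat_lit 10) 
(.nd (nat_lit 20) 
(.lf (nat_lit 14721048) (dlOf (nat_lit 2) (nat_lit 0x1105f5005c21f802e00c40068056001ea0800020018770081))) 
(.lf (nat_lit 26255384) (dlOf (nat_lit 2) (nat_lit 0x56c20000000800580080014002001c0008c20503)))) 
(.nd (nat_lit 26) (.lf (nat_lit 4697664536) (dlOf (nat_lit 1) (nat_lit 0xa80008006001))) 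
(.nd (nat_lit 28) (.lf (nat_lit 5033208856) (dlOf (nat_lit 1) (nat_lit 0xa0018006001))) 
(.lf (nat_lit 5301644312) (dlOf (nat_lit 2) (nat_lit 0x80580002f0200040028006001)))))) 
(.nd (nat_lit 10) (.nd (nat_lit 11) 
(.lf (nat_lit 1543545368) (dlOf (nat_lit 2) (nat_lit 0x70170001cc0800880080024002007200080b0d83))) 
(.lf (nat_lit 4026579480) (dlOf (nat_lit 2) (nat_lit 0x620360000001800b280)))) (.nd (nat_lit 8) 
(.lf (nat_lit 6106949144) (dlOf (nat_lit 1) (nat_lit 0x400400020008003702))) 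
(.lf (nat_lit 3691034392) (dlOf (nat_lit 1) (nat_lit 0x100040002001800a002)))))) (.nd (nat_lit 8) 
(.nd (nat_lit 21) (.nd (nat_lit 9) 
(.lf (nat_lit 738239640) (dlOf (nat_lit 1) (nat_lit 0x40028002b81))) 
(.lf (nat_lit 201369240) (dlOf (nat_lit 1) (nat_lit 0x340018003a81)))) (.nd (nat_lit 10) 
(.lf (nat_lit 11575448) (dlOf (nat_lit 1) (nat_lit 0x8004000600086c0182))) 
(.lf (nat_lit 35693720) (dlOf (nat_lit 1) (nat_lit 0x20019012b81))))) (.nd (nat_lit 9) 
(.nd (nat_lit 10) (.lf (nat_lit 1342220696) (dlOf (nat_lit 1) (nat_lit 0x60028004e81))) 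
(.lf (nat_lit 3489709464) (dlOf (nat_lit 1) (nat_lit 0x8002000a000800ca02)))) (.nd (nat_lit 28) 
(.lf (nat_lit 48024) (dlOf (nat_lit 1) (nat_lit 0x200040020001800bc82))) 
(.lf (nat_lit 3489708952) (dlOf (nat_lit 1) (nat_lit 0x118008000c0020018000800bc83))))))) 
(.nd (nat_lit 26) (.nd (nat_lit 20) (.nd (nat_lit 23) (.nd (nat_lit 27) 
(.lf (nat_lit 805871640) (dlOf (nat_lit 2) (nat_lit 0x64013000ac06a0001c0400e800281d0481))) 
(.lf (nat_lit 2819137560) (dlOf (nat_lit 1) (nat_lit 0x2e00181a0481)))) (.nd (nat_lit 9) 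
(.lf (nat_lit 11051032) (dlOf (nat_lit 2) (nat_lit 0x27f0960024a0200040028660481))) 
(.lf (nat_lit 8955416) (dlOf (nat_lit 1) (nat_lit 0x2c0028513701))))) (.nd (nat_lit 9) 
(.nd (nat_lit 28) (.lf (nat_lit 1613848) (dlOf (nat_lit 1) (nat_lit 0x8008083400201800008100483))) 
(.lf (nat_lit 3491274776) (dlOf (nat_lit 2) (nat_lit 0x1a0fd800000080058008003000200020008080503)))) 
(.lf (nat_lit 12100120) (dlOf (nat_lit 1) (nat_lit 0x4004000200086c0d82))))) (.nd (nat_lit 28) 
(.nd (nat_lit 20) (.nd (nat_lit 29) 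
(.lf (nat_lit 4362641432) (dlOf (nat_lit 2) (nat_lit 0x8801980008c0800280080014002001400080c0403))) 
(.lf (nat_lit 1678286872) (dlOf (nat_lit 7) (nat_lit 0x37815000740a6010401100011830155022001200ec000400800c80880001f02053002d0000e8100cb0168000700805180b4000100401d4002016800081d0402)))) 
(.lf (nat_lit 2753077272) (dlOf (nat_lit 2) (nat_lit 0x1a108000000080058008003000200020008080503)))) 
(.nd (nat_lit 27) (.lf (nat_lit 3557335064) (dlOf (nat_lit 1) (nat_lit 0x28004001800081c0482))) 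
(.nd (nat_lit 30) (.lf (nat_lit 1007198232) (dlOf (nat_lit 1) (nat_lit 0x40018240481))) 
(.lf (nat_lit 4228423704) (dlOf (nat_lit 2) (nat_lit 0xa20190000700800700080018002001c00080c0483)))))))) 
(.nd (nat_lit 20) (.nd (nat_lit 30) (.nd (nat_lit 21) (.nd (nat_lit 8) (.nd (nat_lit 19) 
(.lf (nat_lit 25206840) (dlOf (nat_lit 1) (nat_lit 0x15400200260008bf0b82))) 
(.lf (nat_lit 2756223032) (dlOf (nat_lit 1) (nat_lit 0x20008220b81)))) (.nd (nat_lit 10) 
(.lf (nat_lit 2755699000) (dlOf (nat_lit 4) (nat_lit 0xf01640003802006a0b20001b010006043800098080010008002c002000e00081b0583))) 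
(.lf (nat_lit 8435000) (dlOf (nat_lit 1) (nat_lit 0x400200020008519902))))) (.nd (nat_lit 7) 
(.nd (nat_lit 9) (.lf (nat_lit 52469816) (dlOf (nat_lit 1) (nat_lit 0x8008000400200020009530503))) 
(.lf (nat_lit 44608056) (dlOf (nat_lit 1) (nat_lit 0x20029325201)))) 
(.lf (nat_lit 60859576) (dlOf (nat_lit 1) (nat_lit 0x80080004002000200098c2c83))))) 
(.nd (nat_lit 7) (.nd (nat_lit 9) 
(.lf (nat_lit 3494420536) (dlOf (nat_lit 1) (nat_lit 0x20008220b81))) 
(.lf (nat_lit 3355489848) (dlOf (nat_lit 1) (nat_lit 0x4a0008009c01)))) (.nd (nat_lit 8) 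
(.lf (nat_lit 1342221496) (dlOf (nat_lit 1) (nat_lit 0x800400040008006282))) (.nd (nat_lit 27) 
(.lf (nat_lit 1677769656) (dlOf (nat_lit 4) (nat_lit 0x502a80020138001806e0008012000a00500058018004261800100aa000804e000501b800180ac001404800060120006005000300180040620001c0aa001004e000801b800180ac002c048000e012000300800050028002000c0020212000a001800be01))) 
(.lf (nat_lit 3959471032) (dlOf (nat_lit 5) (nat_lit 0x1080280042204003c0ac001e052001101b000780ac000803c001e011001f005000100180040620000c0ac0008052000501b000a80ac002803c0008011002d00500058018004042000d80a2002604e002a026801b00d40020068007401f000b00f00058018003802000340020002000800be02))))))) 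
(.nd (nat_lit 21) (.nd (nat_lit 7) (.nd (nat_lit 24) 
(.lf (nat_lit 470851640) (dlOf (nat_lit 2) (nat_lit 0x86a00004c0400a0004001800081c0882))) 
(.lf (nat_lit 17866808) (dlOf (nat_lit 1) (nat_lit 0xa0008900c01)))) (.nd (nat_lit 8) 
(.lf (nat_lit 6376434360) (dlOf (nat_lit 1) (nat_lit 0x400400020008095702))) 
(.lf (nat_lit 51423672) (dlOf (nat_lit 1) (nat_lit 0x400400020019514e82))))) (.nd (nat_lit 9) 
(.nd (nat_lit 7) (.lf (nat_lit 3711032) (dlOf (nat_lit 1) (nat_lit 0x58002000c0008220b02))) 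
(.lf (nat_lit 36742328) (dlOf (nat_lit 1) (nat_lit 0x460019072c81)))) (.nd (nat_lit 11) 
(.lf (nat_lit 19968568) (dlOf (nat_lit 1) (nat_lit 0x4004000400189d8982))) 
(.lf (nat_lit 54045240) (dlOf (nat_lit 1) (nat_lit 0x4002000200095f5202))))))))) (.nd (nat_lit 5) 
(.nd (nat_lit 4) (.nd (nat_lit 7) (.nd (nat_lit 21) (.nd (nat_lit 28) (.nd (nat_lit 27) 
(.nd (nat_lit 11) (.lf (nat_lit 12623944) (dlOf (nat_lit 1) (nat_lit 0x4004000200086d0e82))) 
(.lf (nat_lit 3221272648) (dlOf (nat_lit 5) (nat_lit 0xc015800640a40032036001b015800500780068022004000a000c00300087040010015800080aa0044052002201b001180ac004003c0046011001e00500070018004342400dc0a2002004e0014026801b80d40030068007201f000e00f00068018003a62000d40a2000404e000f026801a00d400d403e001201e000b00300074838005000800080020006000800a683)))) 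
(.nd (nat_lit 9) (.lf (nat_lit 738762824) (dlOf (nat_lit 1) (nat_lit 0x40002001e0008101402))) 
(.lf (nat_lit 4966098504) (dlOf (nat_lit 1) (nat_lit 0x400400020008003802))))) (.nd (nat_lit 8) 
(.nd (nat_lit 10) 
(.lf (nat_lit 805353544) (dlOf (nat_lit 4) (nat_lit 0x28154003c09c00080370009015800400900010024000c00a0007003000870400030154004409c000c037000c01580048090001c024001000a0008003000868400008090000000400540040014000800a682))) 
(.lf (nat_lit 2952836168) (dlOf (nat_lit 1) (nat_lit 0x40028009301)))) (.nd (nat_lit 26) 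
(.lf (nat_lit 1342742856) (dlOf (nat_lit 1) (nat_lit 0x8008004c002001800080c0603))) 
(.lf (nat_lit 470327624) (dlOf (nat_lit 1) (nat_lit 0x8008004c002001800080c0603)))))) 
(.nd (nat_lit 8) (.nd (nat_lit 9) (.nd (nat_lit 10) 
(.lf (nat_lit 44081224) (dlOf (nat_lit 2) (nat_lit 0x294b00004002002c00292c0601))) 
(.lf (nat_lit 57189448) (dlOf (nat_lit 1) (nat_lit 0x400400060019792882)))) (.nd (nat_lit 11) 
(.lf (nat_lit 19968584) (dlOf (nat_lit 1) (nat_lit 0x4004000200189d8982))) 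
(.lf (nat_lit 62433864) (dlOf (nat_lit 1) (nat_lit 0x4004000200099a5202))))) (.nd (nat_lit 9) 
(.nd (nat_lit 12) (.lf (nat_lit 39888200) (dlOf (nat_lit 1) (nat_lit 0x4004000200091f3302))) 
(.lf (nat_lit 20493640) (dlOf (nat_lit 1) (nat_lit 0x200289d9901)))) 
(.lf (nat_lit 19970888) (dlOf (nat_lit 1) (nat_lit 0x200089dbc81)))))) (.nd (nat_lit 8) 
(.nd (nat_lit 10) (.nd (nat_lit 26) 
(.lf (nat_lit 1611178184) (dlOf (nat_lit 6) (nat_lit 0x501480045204000c0a400224020006052001100100040290008700800200800038a0401e800400120018105882))) 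
(.lf (nat_lit 738762952) (dlOf (nat_lit 1) (nat_lit 0x3800400180008105982)))) (.nd (nat_lit 11) 
(.lf (nat_lit 37266632) (dlOf (nat_lit 1) (nat_lit 0x8004000200190d2d02))) (.nd (nat_lit 28) 
(.lf (nat_lit 3288378568) (dlOf (nat_lit 1) (nat_lit 0x60004007c0008006382))) 
(.lf (nat_lit 2483072200) (dlOf (nat_lit 1) (nat_lit 0x1800400020008006382)))))) (.nd (nat_lit 9) 
(.nd (nat_lit 10) (.lf (nat_lit 43033032) (dlOf (nat_lit 1) (nat_lit 0x4002000200092a1102))) 
(.lf (nat_lit 1409330632) (dlOf (nat_lit 1) (nat_lit 0x400200020008006d02)))) (.nd (nat_lit 28) 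
(.lf (nat_lit 5972736968) (dlOf (nat_lit 1) (nat_lit 0x16001800be81))) 
(.lf (nat_lit 2483076040) (dlOf (nat_lit 1) (nat_lit 0x3c002800be81))))))) (.nd (nat_lit 7) 
(.nd (nat_lit 10) (.nd (nat_lit 9) (.nd (nat_lit 19) (.nd (nat_lit 21) 
(.lf (nat_lit 16818264) (dlOf (nat_lit 1) (nat_lit 0x2400288e0381))) 
(.lf (nat_lit 10526808) (dlOf (nat_lit 1) (nat_lit 0x1800185f1781)))) (.nd (nat_lit 22) 
(.lf (nat_lit 1611178072) (dlOf (nat_lit 1) (nat_lit 0x300080004002002a0008101783))) 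
(.lf (nat_lit 21536856) (dlOf (nat_lit 6) (nat_lit 0x27ed4000d769800abb400041d9e000dea1801574fc00f37340004c0e006dda80033ed30005769000e7a7e001fb9a0002585005aed50027f69800080080107b54002dda60001f820001ed00000f8080120008007800200280008a40603))))) 
(.nd (nat_lit 8) (.nd (nat_lit 11) 
(.lf (nat_lit 19968600) (dlOf (nat_lit 1) (nat_lit 0x4004000400189d8982))) 
(.lf (nat_lit 62958168) (dlOf (nat_lit 1) (nat_lit 0x800199a5301)))) 
(.lf (nat_lit 3959470936) (dlOf (nat_lit 1) (nat_lit 0x140040006000800bc82))))) (.nd (nat_lit 8) 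
(.nd (nat_lit 26) (.lf (nat_lit 42072) (dlOf (nat_lit 1) (nat_lit 0x20028002901))) 
(.lf (nat_lit 4898989144) (dlOf (nat_lit 1) (nat_lit 0x20018002901)))) (.nd (nat_lit 9) 
(.nd (nat_lit 11) (.nd (nat_lit 24) 
(.lf (nat_lit 5637186904) (dlOf (nat_lit 1) (nat_lit 0x400400020008003382))) 
(.lf (nat_lit 50373976) (dlOf (nat_lit 2) (nat_lit 0x79d0c00022040020004000200094c3382)))) 
(.lf (nat_lit 2483072344) (dlOf (nat_lit 1) (nat_lit 0x28008001c002000a0008006a83)))) 
(.nd (nat_lit 30) (.lf (nat_lit 42840) (dlOf (nat_lit 1) (nat_lit 0x20028003f81))) 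
(.lf (nat_lit 1073784664) (dlOf (nat_lit 1) (nat_lit 0x1400400180008003f82))))))) (.nd (nat_lit 28) 
(.nd (nat_lit 9) (.nd (nat_lit 19) (.nd (nat_lit 11) (.nd (nat_lit 23) 
(.lf (nat_lit 2755698904) (dlOf (nat_lit 2) (nat_lit 0x36605900000c080178008009c002006e00081b0483))) 
(.lf (nat_lit 46178520) (dlOf (nat_lit 1) (nat_lit 0x400400040009380982)))) 
(.lf (nat_lit 43224) (dlOf (nat_lit 1) (nat_lit 0x20028004a81)))) (.nd (nat_lit 20) 
(.lf (nat_lit 738762968) (dlOf (nat_lit 2) (nat_lit 0xc0aa006790200020028105d81))) 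
(.lf (nat_lit 28877016) (dlOf (nat_lit 1) (nat_lit 0xe0018da0501))))) (.nd (nat_lit 11) 
(.lf (nat_lit 45784) (dlOf (nat_lit 1) (nat_lit 0x400400020008008c82))) 
(.lf (nat_lit 19970776) (dlOf (nat_lit 1) (nat_lit 0x2400080004002005200089db983))))) 
(.nd (nat_lit 26) (.nd (nat_lit 8) (.nd (nat_lit 11) 
(.lf (nat_lit 3493896408) (dlOf (nat_lit 2) (nat_lit 0x1a0d30004a0181b0480))) 
(.lf (nat_lit 4026575064) (dlOf (nat_lit 2) (nat_lit 0x180d40007604002c00200160008004a82)))) 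
(.lf (nat_lit 268476888) (dlOf (nat_lit 1) (nat_lit 0x124002004a0008051202)))) (.nd (nat_lit 9) 
(.nd (nat_lit 10) 
(.lf (nat_lit 4094206424) (dlOf (nat_lit 1) (nat_lit 0x8008000400200020008017b03))) 
(.lf (nat_lit 469808600) (dlOf (nat_lit 2) (nat_lit 0x411c000200200020018009b01)))) 
(.lf (nat_lit 872459224) (dlOf (nat_lit 1) (nat_lit 0x4a0018005e01)))))))) (.nd (nat_lit 26) 
(.nd (nat_lit 11) (.nd (nat_lit 7) (.nd (nat_lit 12) (.nd (nat_lit 8) (.nd (nat_lit 19) 
(.lf (nat_lit 38838376) (dlOf (nat_lit 1) (nat_lit 0x80009170981))) 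
(.lf (nat_lit 21536872) (dlOf (nat_lit 1) (nat_lit 0x120008002800200700008a40783)))) 
(.lf (nat_lit 671129960) (dlOf (nat_lit 3) (nat_lit 0x15016000c006c005400c000e00300150000000a42800480b0002c0360014006000c00000009c2000380080028002000e00080b0703)))) 
(.nd (nat_lit 4) (.nd (nat_lit 9) 
(.lf (nat_lit 1476441192) (dlOf (nat_lit 3) (nat_lit 0x3203f0001781001301f80009008004000800b000200160008009403))) 
(.lf (nat_lit 19968616) (dlOf (nat_lit 1) (nat_lit 0x4004000200189d8982)))) 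
(.lf (nat_lit 1476440184) (dlOf (nat_lit 1) (nat_lit 0x400400020008007d82))))) (.nd (nat_lit 8) 
(.nd (nat_lit 9) (.lf (nat_lit 10526952) (dlOf (nat_lit 1) (nat_lit 0x4004000200085f6b82))) 
(.lf (nat_lit 42728) (dlOf (nat_lit 1) (nat_lit 0x20028003b01)))) (.nd (nat_lit 9) 
(.lf (nat_lit 11575784) (dlOf (nat_lit 1) (nat_lit 0x80080008002000200086c0c83))) (.nd (nat_lit 12) 
(.lf (nat_lit 42984) (dlOf (nat_lit 1) (nat_lit 0xe0028004601))) 
(.lf (nat_lit 3221272552) (dlOf (nat_lit 1) (nat_lit 0x30004001a000800a602))))))) (.nd (nat_lit 7) 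
(.nd (nat_lit 9) (.nd (nat_lit 4) (.nd (nat_lit 8) 
(.lf (nat_lit 2952838248) (dlOf (nat_lit 5) (nat_lit 0x3004600ce01e0027009800a00240064000000280a0010000000138100210138000808c00f803c0054013001000480070020006800a00980000001308000100f0018004c0024012001e0050016000000094280090008011c0020010000800c083))) 
(.lf (nat_lit 3489709416) (dlOf (nat_lit 1) (nat_lit 0x1000800100020030000800c903)))) 
(.lf (nat_lit 1476442232) (dlOf (nat_lit 1) (nat_lit 0x800800040020002000800a883)))) 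
(.nd (nat_lit 4) (.nd (nat_lit 19) 
(.lf (nat_lit 2818615912) (dlOf (nat_lit 2) (nat_lit 0x8b002804b80000007608005800200140008005382))) 
(.lf (nat_lit 20490856) (dlOf (nat_lit 1) (nat_lit 0x680080004002000200089d5383)))) 
(.lf (nat_lit 20491128) (dlOf (nat_lit 1) (nat_lit 0x100080004002000200089d5c03))))) 
(.nd (nat_lit 10) (.nd (nat_lit 9) (.nd (nat_lit 12) 
(.lf (nat_lit 57190888) (dlOf (nat_lit 1) (nat_lit 0x8008000c00200020009794e83))) 
(.lf (nat_lit 536918504) (dlOf (nat_lit 1) (nat_lit 0x2000800b281)))) 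
(.lf (nat_lit 2952838120) (dlOf (nat_lit 1) (nat_lit 0x8000800480020018000800bf03)))) 
(.nd (nat_lit 4) 
(.lf (nat_lit 3087052008) (dlOf (nat_lit 2) (nat_lit 0x180000002d0200380018006501))) 
(.lf (nat_lit 2952838648) (dlOf (nat_lit 1) (nat_lit 0x68008005c0020016000800cd03))))))) 
(.nd (nat_lit 10) (.nd (nat_lit 4) (.nd (nat_lit 8) (.nd (nat_lit 9) 
(.lf (nat_lit 474521704) (dlOf (nat_lit 2) (nat_lit 0x14074000210191a0980))) 
(.lf (nat_lit 473999976) (dlOf (nat_lit 1) (nat_lit 0x240029005381)))) (.nd (nat_lit 7) 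
(.nd (nat_lit 22) 
(.lf (nat_lit 1543545192) (dlOf (nat_lit 3) (nat_lit 0x15016000c0064005400c000e00300150000000a42800480b0002c0320014006000c00000009c2000380080028002000e00080b0703))) 
(.lf (nat_lit 2755699048) (dlOf (nat_lit 7) (nat_lit 0x19901640002c0200ce0b2000158100400428000a40800102c80004a0400e0164000210200020b20000d8181b0700)))) 
(.lf (nat_lit 604027880) (dlOf (nat_lit 2) (nat_lit 0x5007001308080008008005c002005e000800bf03))))) 
(.nd (nat_lit 32) (.nd (nat_lit 7) (.nd (nat_lit 12) 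
(.lf (nat_lit 469805176) (dlOf (nat_lit 1) (nat_lit 0x400400020008004782))) 
(.lf (nat_lit 3691034744) (dlOf (nat_lit 1) (nat_lit 0x940020046000800a882)))) 
(.lf (nat_lit 3691034872) (dlOf (nat_lit 1) (nat_lit 0x32000800a981)))) (.nd (nat_lit 8) 
(.lf (nat_lit 4362119288) (dlOf (nat_lit 1) (nat_lit 0x20008004781))) (.nd (nat_lit 9) 
(.lf (nat_lit 5301643640) (dlOf (nat_lit 1) (nat_lit 0x20028004e81))) 
(.lf (nat_lit 5301644152) (dlOf (nat_lit 1) (nat_lit 0x400200020008005c02))))))) (.nd (nat_lit 4) 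
(.nd (nat_lit 7) (.nd (nat_lit 8) (.nd (nat_lit 11) 
(.lf (nat_lit 3691033704) (dlOf (nat_lit 5) (nat_lit 0x56005002e80000005e08015401400c20000001682005b0050000ac0802d80280005404004000400740018009402))) 
(.lf (nat_lit 604028008) (dlOf (nat_lit 5) (nat_lit 0x38003801f801801580000002506006800700410030008000c0150000000230800080070000d81002e003800060080160008032000200d6000800c083)))) 
(.lf (nat_lit 3691032424) (dlOf (nat_lit 1) (nat_lit 0x28008000c00200060008007783)))) 
(.nd (nat_lit 8) (.lf (nat_lit 2754653416) (dlOf (nat_lit 1) (nat_lit 0x200180f6501))) 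
(.lf (nat_lit 5435860456) (dlOf (nat_lit 1) (nat_lit 0x400200020008003602))))) (.nd (nat_lit 8) 
(.nd (nat_lit 7) (.nd (nat_lit 19) 
(.lf (nat_lit 335586936) (dlOf (nat_lit 2) (nat_lit 0x4f00c8000f0080008008001400200020008003983))) 
(.lf (nat_lit 1009297016) (dlOf (nat_lit 3) (nat_lit 0x290158020c0a600f4050007302680004c20001014c0002404001c004000400190e3982)))) 
(.lf (nat_lit 3825247992) (dlOf (nat_lit 1) (nat_lit 0x400200020008003b82)))) (.nd (nat_lit 7) 
(.nd (nat_lit 27) 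
(.lf (nat_lit 4362119032) (dlOf (nat_lit 3) (nat_lit 0x40660000702000403300000018004080))) 
(.lf (nat_lit 469804920) (dlOf (nat_lit 1) (nat_lit 0x10008000400200020008004083)))) 
(.lf (nat_lit 604028408) (dlOf (nat_lit 2) (nat_lit 0x68000014b60400200020002000800cd02)))))))))) 
(.nd (nat_lit 4) (.nd (nat_lit 5) (.nd (nat_lit 28) (.nd (nat_lit 6) (.nd (nat_lit 29) 
(.nd (nat_lit 7) (.nd (nat_lit 8) (.nd (nat_lit 9) (.nd (nat_lit 19) 
(.lf (nat_lit 3355746312) (dlOf (nat_lit 1) (nat_lit 0x1800280f0001))) 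
(.lf (nat_lit 9216008) (dlOf (nat_lit 2) (nat_lit 0x117c5006f9018530000)))) 
(.lf (nat_lit 8172040) (dlOf (nat_lit 1) (nat_lit 0xae0008518681)))) 
(.lf (nat_lit 17604872) (dlOf (nat_lit 1) (nat_lit 0xa00288e0701)))) (.nd (nat_lit 8) 
(.lf (nat_lit 11837576) (dlOf (nat_lit 1) (nat_lit 0xc002000200086c0102))) (.nd (nat_lit 10) 
(.lf (nat_lit 8171912) (dlOf (nat_lit 1) (nat_lit 0xa0028518381))) 
(.lf (nat_lit 306568) (dlOf (nat_lit 1) (nat_lit 0x20028006c81)))))) (.nd (nat_lit 30) 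
(.nd (nat_lit 7) (.nd (nat_lit 10) 
(.lf (nat_lit 2755960840) (dlOf (nat_lit 1) (nat_lit 0x100080048002000800081c0403))) 
(.lf (nat_lit 2751767560) (dlOf (nat_lit 1) (nat_lit 0x20018002881)))) 
(.lf (nat_lit 5033468040) (dlOf (nat_lit 1) (nat_lit 0x1200180c0e01)))) (.nd (nat_lit 26) 
(.nd (nat_lit 7) 
(.lf (nat_lit 3758399496) (dlOf (nat_lit 2) (nat_lit 0x5c054000402300000028170000))) 
(.lf (nat_lit 1745133704) (dlOf (nat_lit 1) (nat_lit 0x2d800801fc002008c00080a2403)))) 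
(.nd (nat_lit 31) 
(.lf (nat_lit 1678024712) (dlOf (nat_lit 2) (nat_lit 0x3800000124040148002008a0008140582))) 
(.lf (nat_lit 3825508360) (dlOf (nat_lit 3) (nat_lit 0xc0160007502000600b00039818170480))))))) 
(.nd (nat_lit 20) (.nd (nat_lit 30) (.nd (nat_lit 7) (.nd (nat_lit 8) 
(.lf (nat_lit 2818880584) (dlOf (nat_lit 1) (nat_lit 0x20018129301))) 
(.lf (nat_lit 6442754376) (dlOf (nat_lit 1) (nat_lit 0x4002000400081b0602)))) 
(.lf (nat_lit 53257672) (dlOf (nat_lit 1) (nat_lit 0x20019573601)))) (.nd (nat_lit 9) 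
(.lf (nat_lit 1208262728) (dlOf (nat_lit 1) (nat_lit 0x80080004002000200080b0603))) 
(.nd (nat_lit 31) 
(.lf (nat_lit 1074045512) (dlOf (nat_lit 7) (nat_lit 0x31805200026020182029000128100be0148000900802d80a4000400401a0052000600e0000b82002e01480004c080170008012c00200320008091103))) 
(.lf (nat_lit 3221529160) (dlOf (nat_lit 1) (nat_lit 0x34002008c0008128802)))))) (.nd (nat_lit 7) 
(.nd (nat_lit 8) (.nd (nat_lit 19) 
(.lf (nat_lit 47490120) (dlOf (nat_lit 1) (nat_lit 0x1400400020009402882))) 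
(.lf (nat_lit 8168520) (dlOf (nat_lit 1) (nat_lit 0x80080068002001e0008512883)))) 
(.lf (nat_lit 1876296) (dlOf (nat_lit 1) (nat_lit 0x15400200720008150602)))) (.nd (nat_lit 8) 
(.lf (nat_lit 20230856) (dlOf (nat_lit 1) (nat_lit 0x4002000200089d8c82))) 
(.lf (nat_lit 8171976) (dlOf (nat_lit 1) (nat_lit 0x100028518681))))))) (.nd (nat_lit 26) 
(.nd (nat_lit 27) (.nd (nat_lit 20) (.nd (nat_lit 29) (.nd (nat_lit 31) (.nd (nat_lit 30) 
(.lf (nat_lit 4563705864) (dlOf (nat_lit 4) (nat_lit 0x7017800300b4001803e0191306000c02f00040168007009c00340360191108001402f000300f8061b410026800800dc002000e00080c0003))) 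
(.lf (nat_lit 5637447688) (dlOf (nat_lit 1) (nat_lit 0x1f80080008002005400080f0003)))) 
(.nd (nat_lit 6) 
(.lf (nat_lit 3494158344) (dlOf (nat_lit 1) (nat_lit 0x100080048002000800081c0403))) 
(.lf (nat_lit 3492061256) (dlOf (nat_lit 1) (nat_lit 0x80080004002000200080a0e03))))) 
(.nd (nat_lit 30) 
(.lf (nat_lit 805609480) (dlOf (nat_lit 2) (nat_lit 0x3800000124040148002008a0008140582))) 
(.lf (nat_lit 1879351304) (dlOf (nat_lit 1) (nat_lit 0x300080024002001400080f0003))))) 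
(.nd (nat_lit 6) (.nd (nat_lit 8) 
(.lf (nat_lit 1343528968) (dlOf (nat_lit 3) (nat_lit 0x3013a001608e0027402000604700135c080018008001c00200040008290003))) 
(.lf (nat_lit 3493111560) (dlOf (nat_lit 2) (nat_lit 0x760400000a0180f3b80)))) (.nd (nat_lit 8) 
(.lf (nat_lit 1346150472) (dlOf (nat_lit 3) (nat_lit 0x8414c006906b8005681003e052803900f4000be0400240028e60601))) 
(.lf (nat_lit 1345627464) (dlOf (nat_lit 1) (nat_lit 0xac00200d80008dd3302)))))) (.nd (nat_lit 30) 
(.nd (nat_lit 31) (.nd (nat_lit 32) 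
(.lf (nat_lit 402956296) (dlOf (nat_lit 6) (nat_lit 0x15300d006d38080008090007400001b3b0400040170066901001400b8033400800d002400000040020004010600180b0002))) 
(.lf (nat_lit 4697923592) (dlOf (nat_lit 4) (nat_lit 0x7017800300b4001803e01c6006000c02f00040168007009c003403601c5e08001402f000300f806f4c10026800800dc002000e00080c0003)))) 
(.nd (nat_lit 6) 
(.lf (nat_lit 3087310856) (dlOf (nat_lit 3) (nat_lit 0xc0160007502000600b00039818170480))) 
(.lf (nat_lit 2550440008) (dlOf (nat_lit 1) (nat_lit 0x4002000200080a0e02))))) (.nd (nat_lit 7) 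
(.lf (nat_lit 1476698120) (dlOf (nat_lit 1) (nat_lit 0x400400060018140002))) 
(.lf (nat_lit 5771667848) (dlOf (nat_lit 2) (nat_lit 0x1405000e140200020018004e81)))))) 
(.nd (nat_lit 6) (.nd (nat_lit 30) (.nd (nat_lit 27) (.nd (nat_lit 29) 
(.lf (nat_lit 335847432) (dlOf (nat_lit 6) (nat_lit 0x15300c805f880800080980074000017d2040004017003ab81001400b801d540800d002800000040020004010600180b0002))) 
(.lf (nat_lit 5167685640) (dlOf (nat_lit 1) (nat_lit 0x800200040008100002)))) 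
(.lf (nat_lit 1006936072) (dlOf (nat_lit 1) (nat_lit 0x300080024002001400080f0003)))) 
(.nd (nat_lit 7) (.nd (nat_lit 8) 
(.lf (nat_lit 6241427464) (dlOf (nat_lit 1) (nat_lit 0x1f80080008002005400080f0003))) 
(.lf (nat_lit 1410115336) (dlOf (nat_lit 6) (nat_lit 0x280b4000a80400040ce00060230002882000b0168000cc0800380b40030048000a01e0000c8300090120000600801080080008002011000080f3b83)))) 
(.lf (nat_lit 6376171912) (dlOf (nat_lit 1) (nat_lit 0x800400020008094e82))))) (.nd (nat_lit 8) 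
(.nd (nat_lit 9) 
(.lf (nat_lit 2080677960) (dlOf (nat_lit 1) (nat_lit 0x80080004002000200080b0603))) 
(.lf (nat_lit 1946460744) (dlOf (nat_lit 7) (nat_lit 0x31805200026020182029000128100be0148000900802d80a4000400401a0052000600d0000b82002e01480004c080170008012c00200320008091103)))) 
(.nd (nat_lit 27) (.lf (nat_lit 1409589576) (dlOf (nat_lit 1) (nat_lit 0x180028047f01))) 
(.lf (nat_lit 5838774600) (dlOf (nat_lit 1) (nat_lit 0x4002000400081b0602)))))))) (.nd (nat_lit 26) 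
(.nd (nat_lit 20) (.nd (nat_lit 28) (.nd (nat_lit 6) (.nd (nat_lit 7) 
(.lf (nat_lit 42770472) (dlOf (nat_lit 1) (nat_lit 0x138002016c0009280202))) (.nd (nat_lit 9) 
(.nd (nat_lit 30) 
(.lf (nat_lit 671391912) (dlOf (nat_lit 1) (nat_lit 0x280080078002000e0008184c03))) 
(.lf (nat_lit 1745133736) (dlOf (nat_lit 3) (nat_lit 0xc06e00032020006037000188180a2c00)))) 
(.lf (nat_lit 2818880168) (dlOf (nat_lit 1) (nat_lit 0x9d8008000400200c00008128c83))))) 
(.nd (nat_lit 7) (.nd (nat_lit 8) 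
(.lf (nat_lit 42770536) (dlOf (nat_lit 2) (nat_lit 0x27ad20041b8c00009829280980))) 
(.lf (nat_lit 5905883496) (dlOf (nat_lit 1) (nat_lit 0x400400020008155202)))) (.nd (nat_lit 8) 
(.lf (nat_lit 537701608) (dlOf (nat_lit 1) (nat_lit 0x110002004000080f6502))) 
(.lf (nat_lit 3221529064) (dlOf (nat_lit 3) (nat_lit 0x2e001c0002202017400e0000f018127300)))))) 
(.nd (nat_lit 31) (.nd (nat_lit 27) (.nd (nat_lit 29) 
(.lf (nat_lit 1342480424) (dlOf (nat_lit 4) (nat_lit 0x1a123800388f000183a200101c500029840015123800608f0002c3a2001c1c50001a84000511e0000c8080078008007400200260008040583))) 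
(.lf (nat_lit 1879351336) (dlOf (nat_lit 6) (nat_lit 0x180a80012051000502700003818004815c00140a80010051000602700003420006815c00240a8000a051000902700003020005815c00200a80018051000902700002c20001815400000040008002000a00080f0a02)))) 
(.nd (nat_lit 6) 
(.lf (nat_lit 402956328) (dlOf (nat_lit 3) (nat_lit 0x5040340002f02033e01a001a0000000b8100100008000c002002600080b0383))) 
(.lf (nat_lit 4697923816) (dlOf (nat_lit 1) (nat_lit 0x200280c1e01))))) (.nd (nat_lit 8) 
(.nd (nat_lit 19) 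
(.lf (nat_lit 3494158376) (dlOf (nat_lit 1) (nat_lit 0x100080064002003200081c0903))) 
(.lf (nat_lit 3492585512) (dlOf (nat_lit 12) (nat_lit 0x1630fe80b687a012e42be004214f051a09c0001c828003857c000e20400bc2a00006f0200521500003701000209c00009008016857c000440400b42be000210200081e80000f8100370af8000700801587a001482be00c81380000d8300190af0000000804980080080002006600080e0503)))) 
(.lf (nat_lit 3489967400) (dlOf (nat_lit 2) (nat_lit 0xc116000000200020018006801)))))) 
(.nd (nat_lit 19) (.nd (nat_lit 6) (.nd (nat_lit 8) (.nd (nat_lit 9) 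
(.lf (nat_lit 32809000) (dlOf (nat_lit 1) (nat_lit 0x8008000800200020008f20803))) 
(.lf (nat_lit 57975336) (dlOf (nat_lit 2) (nat_lit 0x517a4000f2040060002000a00097a8882)))) 
(.nd (nat_lit 7) (.lf (nat_lit 20230440) (dlOf (nat_lit 1) (nat_lit 0x400189d8081))) 
(.lf (nat_lit 5772714408) (dlOf (nat_lit 1) (nat_lit 0x160008091001))))) (.nd (nat_lit 9) 
(.nd (nat_lit 21) (.lf (nat_lit 9740392) (dlOf (nat_lit 1) (nat_lit 0x700080054002002e0008580783))) 
(.lf (nat_lit 62169192) (dlOf (nat_lit 1) (nat_lit 0x1000400080009960782)))) 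
(.lf (nat_lit 20230760) (dlOf (nat_lit 1) (nat_lit 0x200189d8981))))) (.nd (nat_lit 21) 
(.nd (nat_lit 24) (.nd (nat_lit 7) 
(.lf (nat_lit 5773238312) (dlOf (nat_lit 1) (nat_lit 0x600180b0381))) 
(.lf (nat_lit 35432872) (dlOf (nat_lit 1) (nat_lit 0x1c0019014e81)))) (.nd (nat_lit 22) 
(.lf (nat_lit 27041832) (dlOf (nat_lit 2) (nat_lit 0x260000002f818ca0680))) 
(.lf (nat_lit 22847528) (dlOf (nat_lit 1) (nat_lit 0x8008000400200020008b30603))))) 
(.nd (nat_lit 6) (.lf (nat_lit 45916200) (dlOf (nat_lit 1) (nat_lit 0x400400020009370802))) 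
(.lf (nat_lit 1346150504) (dlOf (nat_lit 7) (nat_lit 0x7414d007c06c801e836001340fa009407c000070500560a68004836401340f80000d06002c14d008106c801c81f400980f80000c08021414d014f06c8088836004d80fa026207c0000505000d03e80001808000853401301b2003607d001a03e0000002022d8008010800200560008e60983))))))) 
(.nd (nat_lit 29) (.nd (nat_lit 7) (.nd (nat_lit 27) (.nd (nat_lit 28) 
(.lf (nat_lit 2214895656) (dlOf (nat_lit 2) (nat_lit 0x200d0001440800b8008005c00200180008100683))) 
(.lf (nat_lit 335847464) (dlOf (nat_lit 3) (nat_lit 0x5040320002c02033e019001a0000000ac100100008000c002002600080b0383)))) 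
(.nd (nat_lit 28) (.lf (nat_lit 6644080680) (dlOf (nat_lit 1) (nat_lit 0x200180e0601))) 
(.lf (nat_lit 470065192) (dlOf (nat_lit 4) (nat_lit 0x1a123800388f000183a200101c500029840015123800608f0002c3a2001c1c50001a84000511e0000c8080078008007400200260008040583))))) 
(.nd (nat_lit 8) (.nd (nat_lit 27) 
(.lf (nat_lit 4362379432) (dlOf (nat_lit 1) (nat_lit 0x40028044c01))) 
(.lf (nat_lit 1543807144) (dlOf (nat_lit 1) (nat_lit 0x280080078002000e0008184c03)))) 
(.nd (nat_lit 6) 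
(.lf (nat_lit 3288637864) (dlOf (nat_lit 1) (nat_lit 0x10008000c00200060008090783))) 
(.lf (nat_lit 67943400) (dlOf (nat_lit 1) (nat_lit 0x800800040020002000833bf03)))))) 
(.nd (nat_lit 6) (.nd (nat_lit 19) (.nd (nat_lit 7) (.nd (nat_lit 22) 
(.lf (nat_lit 1006936104) (dlOf (nat_lit 6) (nat_lit 0x180a80012051000502700003818004815c00140a80010051000602700003420006815c00240a8000a051000902700003020005815c00200a80018051000902700002c20001815400000040008002000a00080f0a02))) 
(.lf (nat_lit 2755960872) (dlOf (nat_lit 1) (nat_lit 0x100080064002003200081c0903)))) 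
(.lf (nat_lit 4228161704) (dlOf (nat_lit 1) (nat_lit 0x40028044c01)))) (.nd (nat_lit 20) 
(.nd (nat_lit 28) 
(.lf (nat_lit 2754388008) (dlOf (nat_lit 12) (nat_lit 0x16310900b687e812e42aa004214f051a09c0001c8280038554000e20400bc2a00006f0200521500003701000209c000090080168554000440400b42aa000210200081fa0000f8100370aa8000700801587e801482aa00c81380000d8300190aa0000000804980080080002006600080e0503))) 
(.lf (nat_lit 4096565288) (dlOf (nat_lit 1) (nat_lit 0x400400020008130982)))) 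
(.lf (nat_lit 6377218088) (dlOf (nat_lit 1) (nat_lit 0x600180b0381))))) (.nd (nat_lit 8) 
(.nd (nat_lit 7) (.lf (nat_lit 2753863784) (dlOf (nat_lit 2) (nat_lit 0x1015f000098180a1400))) 
(.lf (nat_lit 2754915560) (dlOf (nat_lit 2) (nat_lit 0x51238000b40800100080014002000800080f6503)))) 
(.nd (nat_lit 9) (.lf (nat_lit 3959726440) (dlOf (nat_lit 1) (nat_lit 0x40018125201))) 
(.lf (nat_lit 2751768424) (dlOf (nat_lit 1) (nat_lit 0x80018004001))))))))) (.nd (nat_lit 6) 
(.nd (nat_lit 19) (.nd (nat_lit 29) (.nd (nat_lit 7) (.nd (nat_lit 24) (.nd (nat_lit 5) 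
(.nd (nat_lit 26) (.nd (nat_lit 30) 
(.lf (nat_lit 134520856) (dlOf (nat_lit 2) (nat_lit 0xb010400c6804000c00200040008050482))) 
(.lf (nat_lit 3355746328) (dlOf (nat_lit 1) (nat_lit 0x80080004002000200080f0503)))) 
(.lf (nat_lit 2617548824) (dlOf (nat_lit 1) (nat_lit 0x1400280f0501)))) (.nd (nat_lit 26) 
(.lf (nat_lit 402956344) (dlOf (nat_lit 1) (nat_lit 0x500080024002000400080b0483))) 
(.lf (nat_lit 335847480) (dlOf (nat_lit 1) (nat_lit 0x500080024002000400080b0483))))) 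
(.nd (nat_lit 22) (.nd (nat_lit 20) 
(.lf (nat_lit 17080344) (dlOf (nat_lit 1) (nat_lit 0x4002000200088e0002))) 
(.lf (nat_lit 26517528) (dlOf (nat_lit 2) (nat_lit 0x130b8300894ea004e0474024405e001fc0800020018c50081)))) 
(.nd (nat_lit 5) 
(.lf (nat_lit 22323224) (dlOf (nat_lit 3) (nat_lit 0xb84ec00242540004604001613b00022818ac0180))) 
(.lf (nat_lit 22323256) (dlOf (nat_lit 9) (nat_lit 0xa813b00090950001581002384ec00142540005504008813b0002a0100450a780013808021853c0006e040005524000320200a213b000f09500004c1002304ec0014254000120400040018ac0681)))))) 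
(.nd (nat_lit 10) (.nd (nat_lit 5) (.nd (nat_lit 8) 
(.lf (nat_lit 11837592) (dlOf (nat_lit 1) (nat_lit 0x4002000200086c0182))) 
(.lf (nat_lit 4563706264) (dlOf (nat_lit 1) (nat_lit 0x800080034002001000080c6483)))) 
(.lf (nat_lit 4563706040) (dlOf (nat_lit 1) (nat_lit 0x200280c1981)))) (.nd (nat_lit 5) 
(.nd (nat_lit 9) (.lf (nat_lit 52733080) (dlOf (nat_lit 1) (nat_lit 0xc0029572b81))) 
(.lf (nat_lit 20229784) (dlOf (nat_lit 1) (nat_lit 0x600089d7201)))) 
(.lf (nat_lit 39101624) (dlOf (nat_lit 1) (nat_lit 0x580019192c81)))))) (.nd (nat_lit 10) 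
(.nd (nat_lit 5) (.nd (nat_lit 8) (.nd (nat_lit 26) 
(.lf (nat_lit 3758399512) (dlOf (nat_lit 3) (nat_lit 0x29c07a04740300240015811b009008b40440292013000ae86011d018006c00ac030c04801ac022000ae048170080))) 
(.lf (nat_lit 3020202008) (dlOf (nat_lit 1) (nat_lit 0xc00400020008150082)))) 
(.lf (nat_lit 671392024) (dlOf (nat_lit 2) (nat_lit 0x40000005d02000e0008187f01)))) 
(.nd (nat_lit 21) 
(.lf (nat_lit 3758399544) (dlOf (nat_lit 2) (nat_lit 0x120062003c0250005e828170480))) 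
(.lf (nat_lit 2753863736) (dlOf (nat_lit 1) (nat_lit 0x200180a0a81))))) (.nd (nat_lit 11) 
(.nd (nat_lit 5) (.lf (nat_lit 2751767576) (dlOf (nat_lit 1) (nat_lit 0x400200020008002882))) 
(.lf (nat_lit 2885986104) (dlOf (nat_lit 1) (nat_lit 0x20008143e01)))) (.nd (nat_lit 26) 
(.lf (nat_lit 5100579864) (dlOf (nat_lit 1) (nat_lit 0x700080064002001400080d6003))) 
(.nd (nat_lit 27) 
(.lf (nat_lit 4899253272) (dlOf (nat_lit 1) (nat_lit 0x500080038002001400080d6003))) 
(.lf (nat_lit 738503704) (dlOf (nat_lit 1) (nat_lit 0x40028096001)))))))) (.nd (nat_lit 21) 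
(.nd (nat_lit 27) (.nd (nat_lit 5) (.nd (nat_lit 10) (.nd (nat_lit 20) 
(.lf (nat_lit 21798936) (dlOf (nat_lit 1) (nat_lit 0x8008000400200040008a70483))) 
(.lf (nat_lit 22847512) (dlOf (nat_lit 1) (nat_lit 0x340008b30401)))) 
(.lf (nat_lit 46967832) (dlOf (nat_lit 1) (nat_lit 0x7a0009386001)))) (.nd (nat_lit 7) 
(.lf (nat_lit 21798968) (dlOf (nat_lit 1) (nat_lit 0x4000200040008a70682))) 
(.lf (nat_lit 1876152) (dlOf (nat_lit 1) (nat_lit 0x260028150381))))) (.nd (nat_lit 8) 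
(.nd (nat_lit 7) (.lf (nat_lit 202154520) (dlOf (nat_lit 1) (nat_lit 0x80080004002000200081b0d83))) 
(.lf (nat_lit 5772190872) (dlOf (nat_lit 1) (nat_lit 0x400200060008092b82)))) (.nd (nat_lit 26) 
(.lf (nat_lit 135045400) (dlOf (nat_lit 4) (nat_lit 0x4816c0018000001c004001605b000490100010000000000800080080264002001600081b0483))) 
(.nd (nat_lit 28) (.lf (nat_lit 202154264) (dlOf (nat_lit 1) (nat_lit 0x4200081b0481))) 
(.lf (nat_lit 4228686104) (dlOf (nat_lit 4) (nat_lit 0x100000049a04002c022001e000001210200030000005c808001000801b4002001a00081a0483))))))) 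
(.nd (nat_lit 5) (.nd (nat_lit 28) (.nd (nat_lit 7) 
(.lf (nat_lit 2754387992) (dlOf (nat_lit 2) (nat_lit 0x9c3ea0003202000200280e0381))) 
(.lf (nat_lit 53256600) (dlOf (nat_lit 1) (nat_lit 0x400400020009571002)))) (.nd (nat_lit 20) 
(.lf (nat_lit 3492585496) (dlOf (nat_lit 2) (nat_lit 0x9c3c60002f02000200280e0381))) 
(.lf (nat_lit 1346150424) (dlOf (nat_lit 6) (nat_lit 0x34286000c07500070398007b41800501cc003d60400080e6001ea02000c0c4000505100030068003a40c001c034001d102001c0008e60081))))) 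
(.nd (nat_lit 7) (.lf (nat_lit 8174136) (dlOf (nat_lit 1) (nat_lit 0x2800800040020002000851b403))) 
(.nd (nat_lit 8) (.lf (nat_lit 1345103032) (dlOf (nat_lit 1) (nat_lit 0x200189e2c81))) 
(.lf (nat_lit 8167864) (dlOf (nat_lit 1) (nat_lit 0x400200020008511002)))))))) (.nd (nat_lit 8) 
(.nd (nat_lit 19) (.nd (nat_lit 9) (.nd (nat_lit 7) (.nd (nat_lit 20) 
(.lf (nat_lit 3758399576) (dlOf (nat_lit 2) (nat_lit 0x1da0300001a818170800))) 
(.lf (nat_lit 9740376) (dlOf (nat_lit 7) (nat_lit 0x43a3b0008cee0017e768000a60c007f47600052020005a3b0002cee0001441003968ec02033b8000470400b3a3b0042cee0001181001168ec007f3b8000450400300028580601)))) 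
(.nd (nat_lit 26) 
(.lf (nat_lit 268738776) (dlOf (nat_lit 1) (nat_lit 0x8008000400200020008111c03))) 
(.lf (nat_lit 5033468120) (dlOf (nat_lit 1) (nat_lit 0x4002000200080c1902))))) (.nd (nat_lit 10) 
(.nd (nat_lit 5) 
(.lf (nat_lit 34908760) (dlOf (nat_lit 2) (nat_lit 0xa2ca800000080018008000800200040008fb5303))) 
(.lf (nat_lit 5436123896) (dlOf (nat_lit 5) (nat_lit 0x66011000158101eb0188000a00801700c40004e0401c00280248011000128280e5a00)))) 
(.nd (nat_lit 21) (.lf (nat_lit 4832142968) (dlOf (nat_lit 1) (nat_lit 0x4002000200080d3982))) 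
(.lf (nat_lit 52733560) (dlOf (nat_lit 1) (nat_lit 0x4000400040009573982)))))) (.nd (nat_lit 21) 
(.nd (nat_lit 27) (.nd (nat_lit 10) 
(.lf (nat_lit 4362903640) (dlOf (nat_lit 1) (nat_lit 0x2c002001800081a0002))) 
(.lf (nat_lit 34382936) (dlOf (nat_lit 1) (nat_lit 0x40028fb2901)))) (.nd (nat_lit 5) 
(.lf (nat_lit 202154072) (dlOf (nat_lit 1) (nat_lit 0x18002000600081b0002))) 
(.lf (nat_lit 202154232) (dlOf (nat_lit 1) (nat_lit 0x400081b0481))))) (.nd (nat_lit 7) 
(.nd (nat_lit 9) 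
(.lf (nat_lit 1346150488) (dlOf (nat_lit 2) (nat_lit 0x210a60011035c004c0fa005807c003d000000098280190008007c002007e0008e60803))) 
(.lf (nat_lit 33335896) (dlOf (nat_lit 1) (nat_lit 0x400400020008f55302)))) (.nd (nat_lit 9) 
(.lf (nat_lit 12361944) (dlOf (nat_lit 1) (nat_lit 0x4004000200086c0482))) 
(.lf (nat_lit 19707608) (dlOf (nat_lit 1) (nat_lit 0x68008000c002000a00089da003))))))) 
(.nd (nat_lit 5) (.nd (nat_lit 19) (.nd (nat_lit 9) (.nd (nat_lit 7) 
(.lf (nat_lit 3959726424) (dlOf (nat_lit 12) (nat_lit 0x25600a0003201007f00500018c0808d0028000c40404bc0140006102005a00a00030010040005000114080218028000880403980140004202006404d012300500010010024013c000409a026c00a0001f83008f0050000f80805c00080128002006a0008124e03))) 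
(.nd (nat_lit 20) (.lf (nat_lit 3221529048) (dlOf (nat_lit 1) (nat_lit 0x24002000e0008127102))) 
(.lf (nat_lit 57975256) (dlOf (nat_lit 1) (nat_lit 0xce00097a7b01))))) (.nd (nat_lit 11) 
(.lf (nat_lit 2751767512) (dlOf (nat_lit 1) (nat_lit 0x20008002881))) 
(.lf (nat_lit 738503640) (dlOf (nat_lit 1) (nat_lit 0x40028095e01))))) (.nd (nat_lit 7) 
(.nd (nat_lit 20) (.lf (nat_lit 7119192) (dlOf (nat_lit 1) (nat_lit 0x80080004002000200084b0883))) 
(.lf (nat_lit 1876312) (dlOf (nat_lit 1) (nat_lit 0x400400020008150682)))) (.nd (nat_lit 9) 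
(.lf (nat_lit 8171992) (dlOf (nat_lit 1) (nat_lit 0xa0028518681))) 
(.lf (nat_lit 46967768) (dlOf (nat_lit 1) (nat_lit 0x20009385e01)))))) (.nd (nat_lit 11) 
(.nd (nat_lit 9) (.nd (nat_lit 26) 
(.lf (nat_lit 5905883640) (dlOf (nat_lit 1) (nat_lit 0xc400400020018157e02))) 
(.lf (nat_lit 3959726584) (dlOf (nat_lit 11) (nat_lit 0x10201f00560038015401800900000001204006601f00008c080ad00f802dc01c00b200c0062002002700000004414058c07c00c203c00b40070029003000c0000000200a01e003e00800070029003000b40000001f0800b000e0000f01016101f003000f002cc01c00a200c0047000000074280030038000380402cc01c0001b0201b603e004200700006810e3300080140002011e0008127e03)))) 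
(.nd (nat_lit 19) (.lf (nat_lit 2751767544) (dlOf (nat_lit 1) (nat_lit 0xc00200020008002882))) 
(.lf (nat_lit 473736184) (dlOf (nat_lit 1) (nat_lit 0xc00400180008fa2882))))) (.nd (nat_lit 26) 
(.nd (nat_lit 9) (.lf (nat_lit 3624185336) (dlOf (nat_lit 1) (nat_lit 0xde0028146f81))) 
(.lf (nat_lit 54832120) (dlOf (nat_lit 1) (nat_lit 0x1000400040009655f02)))) (.nd (nat_lit 7) 
(.lf (nat_lit 4496599928) (dlOf (nat_lit 1) (nat_lit 0x4002000200080e5c02))) 
(.lf (nat_lit 738503672) (dlOf (nat_lit 1) (nat_lit 0x1a0028095f01))))))))))) (.nd (nat_lit 5) 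
(.nd (nat_lit 6) (.nd (nat_lit 4) (.nd (nat_lit 18) (.nd (nat_lit 7) (.nd (nat_lit 21) 
(.nd (nat_lit 10) (.nd (nat_lit 24) (.nd (nat_lit 11) (.nd (nat_lit 19) 
(.lf (nat_lit 4832010248) (dlOf (nat_lit 1) (nat_lit 0x400400020018080002))) 
(.lf (nat_lit 10133512) (dlOf (nat_lit 1) (nat_lit 0x8004000200085b0002)))) (.nd (nat_lit 8) 
(.lf (nat_lit 2751641608) (dlOf (nat_lit 1) (nat_lit 0x2000800a601))) 
(.lf (nat_lit 1141025544) (dlOf (nat_lit 1) (nat_lit 0x10008000800200040008095b03))))) 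
(.nd (nat_lit 19) (.nd (nat_lit 22) 
(.lf (nat_lit 25337864) (dlOf (nat_lit 1) (nat_lit 0x10c002009e0008bf0482))) 
(.lf (nat_lit 21143560) (dlOf (nat_lit 1) (nat_lit 0x240018a10481)))) 
(.lf (nat_lit 21667848) (dlOf (nat_lit 1) (nat_lit 0x20028a60a01))))) (.nd (nat_lit 8) 
(.nd (nat_lit 11) (.nd (nat_lit 26) 
(.lf (nat_lit 5637317640) (dlOf (nat_lit 1) (nat_lit 0x22600180d2881))) 
(.lf (nat_lit 3959596040) (dlOf (nat_lit 1) (nat_lit 0x1c00200060008112882)))) 
(.lf (nat_lit 59943944) (dlOf (nat_lit 1) (nat_lit 0xc00400060009845f82)))) (.nd (nat_lit 11) 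
(.lf (nat_lit 8566024) (dlOf (nat_lit 1) (nat_lit 0x1c0008006400200d20008519603))) 
(.lf (nat_lit 3221400840) (dlOf (nat_lit 1) (nat_lit 0x20028116681)))))) (.nd (nat_lit 20) 
(.nd (nat_lit 22) (.nd (nat_lit 26) 
(.lf (nat_lit 3492454408) (dlOf (nat_lit 1) (nat_lit 0x200080004002001a00080d0483))) 
(.nd (nat_lit 27) 
(.lf (nat_lit 2754256904) (dlOf (nat_lit 1) (nat_lit 0x200080004002001a00080d0483))) 
(.lf (nat_lit 472555528) (dlOf (nat_lit 1) (nat_lit 0x80080004002000200089c0003))))) 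
(.nd (nat_lit 19) (.lf (nat_lit 56795144) (dlOf (nat_lit 1) (nat_lit 0x400400020009760082))) 
(.lf (nat_lit 15376392) (dlOf (nat_lit 1) (nat_lit 0x18002000200087e0482))))) (.nd (nat_lit 19) 
(.nd (nat_lit 8) (.lf (nat_lit 62038024) (dlOf (nat_lit 1) (nat_lit 0x20029940001))) 
(.lf (nat_lit 3492980488) (dlOf (nat_lit 2) (nat_lit 0x24158000260180f3b80)))) (.nd (nat_lit 23) 
(.lf (nat_lit 3842056) (dlOf (nat_lit 2) (nat_lit 0xf12800000004000c00400040008230002))) 
(.lf (nat_lit 45785096) (dlOf (nat_lit 1) (nat_lit 0x15800200760009360002))))))) (.nd (nat_lit 8) 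
(.nd (nat_lit 26) (.nd (nat_lit 20) (.nd (nat_lit 27) 
(.lf (nat_lit 5100445832) (dlOf (nat_lit 1) (nat_lit 0x8008001400200040008080e03))) 
(.lf (nat_lit 6308405384) (dlOf (nat_lit 2) (nat_lit 0x4046007a01d003f00d8010006000ec02e0078008003b0038000c838004000800ac002000a0008070e03)))) 
(.lf (nat_lit 9609352) (dlOf (nat_lit 4) (nat_lit 0x203ac00121ca00080e2800485e00006c1000243ac00021d3000b0e500050714002c2f0000340a00141d600090e500048714002c2f00002b08002c0028570e01)))) 
(.nd (nat_lit 11) 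
(.lf (nat_lit 5570207880) (dlOf (nat_lit 1) (nat_lit 0x28008001c00200080008080e03))) 
(.lf (nat_lit 1677895816) (dlOf (nat_lit 1) (nat_lit 0x1800200140008114802))))) (.nd (nat_lit 29) 
(.nd (nat_lit 19) (.nd (nat_lit 23) 
(.lf (nat_lit 1342349704) (dlOf (nat_lit 1) (nat_lit 0x8008000400200020008015c83))) 
(.lf (nat_lit 8561032) (dlOf (nat_lit 1) (nat_lit 0x400200020008511002)))) 
(.lf (nat_lit 53125512) (dlOf (nat_lit 1) (nat_lit 0x20029571001)))) (.nd (nat_lit 10) 
(.nd (nat_lit 27) 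
(.lf (nat_lit 872587656) (dlOf (nat_lit 3) (nat_lit 0xe0170004681000800b800214080058008001000200060008091003))) 
(.lf (nat_lit 4228030856) (dlOf (nat_lit 2) (nat_lit 0x1009400ca03e00034028015c80)))) 
(.lf (nat_lit 805481864) (dlOf (nat_lit 1) (nat_lit 0x1800800ac00200020008116c83))))))) 
(.nd (nat_lit 20) (.nd (nat_lit 28) (.nd (nat_lit 7) (.nd (nat_lit 19) (.nd (nat_lit 29) 
(.lf (nat_lit 4362510344) (dlOf (nat_lit 1) (nat_lit 0x60028090001))) 
(.lf (nat_lit 1678155784) (dlOf (nat_lit 1) (nat_lit 0x600281a0001)))) 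
(.lf (nat_lit 15638536) (dlOf (nat_lit 1) (nat_lit 0x20018810281)))) (.nd (nat_lit 8) 
(.lf (nat_lit 537305224) (dlOf (nat_lit 1) (nat_lit 0x58008001000200260008090103))) 
(.nd (nat_lit 23) 
(.lf (nat_lit 3221660040) (dlOf (nat_lit 2) (nat_lit 0x10118010fe04000800200040008170782))) 
(.lf (nat_lit 8823176) (dlOf (nat_lit 1) (nat_lit 0x20008511001)))))) (.nd (nat_lit 29) 
(.nd (nat_lit 7) (.nd (nat_lit 27) 
(.lf (nat_lit 4563836936) (dlOf (nat_lit 4) (nat_lit 0x19cc05800cbf02008a02c0065e8100110160032f0080450008018c00201fc00080f0a03))) 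
(.lf (nat_lit 4698054664) (dlOf (nat_lit 4) (nat_lit 0x19cc0580071502008a02c0038a010011016001c4c080450008018c00201fc00080f0a03)))) 
(.lf (nat_lit 1409720456) (dlOf (nat_lit 1) (nat_lit 0x58008001000200260008090103)))) 
(.nd (nat_lit 7) (.nd (nat_lit 26) 
(.lf (nat_lit 805740552) (dlOf (nat_lit 1) (nat_lit 0x600281a0001))) 
(.lf (nat_lit 4228292616) (dlOf (nat_lit 1) (nat_lit 0x60028090001)))) 
(.lf (nat_lit 805740936) (dlOf (nat_lit 1) (nat_lit 0x4004000200181a0782)))))) (.nd (nat_lit 7) 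
(.nd (nat_lit 21) (.nd (nat_lit 19) (.nd (nat_lit 22) 
(.lf (nat_lit 26648584) (dlOf (nat_lit 1) (nat_lit 0x40018c50001))) 
(.lf (nat_lit 22454280) (dlOf (nat_lit 4) (nat_lit 0x5614001f2020006b0a000f70100125878005e00800180080004002001e0008ae0483)))) 
(.lf (nat_lit 14589960) (dlOf (nat_lit 1) (nat_lit 0x10008000400200020008770003)))) 
(.nd (nat_lit 8) (.nd (nat_lit 26) 
(.lf (nat_lit 4104200) (dlOf (nat_lit 1) (nat_lit 0x400400020008280002))) 
(.lf (nat_lit 473866248) (dlOf (nat_lit 1) (nat_lit 0x8008000400200020008fc0003)))) 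
(.lf (nat_lit 8299784) (dlOf (nat_lit 1) (nat_lit 0x60018512f81))))) (.nd (nat_lit 8) 
(.nd (nat_lit 19) (.lf (nat_lit 11968648) (dlOf (nat_lit 1) (nat_lit 0x8002000200086c0102))) 
(.lf (nat_lit 6377349256) (dlOf (nat_lit 1) (nat_lit 0x200180c0f01)))) (.nd (nat_lit 22) 
(.lf (nat_lit 1346281864) (dlOf (nat_lit 1) (nat_lit 0x400400020008e81002))) 
(.lf (nat_lit 8298888) (dlOf (nat_lit 1) (nat_lit 0xc00200020008511002)))))))) (.nd (nat_lit 28) 
(.nd (nat_lit 19) (.nd (nat_lit 22) (.nd (nat_lit 7) (.nd (nat_lit 11) (.nd (nat_lit 8) 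
(.nd (nat_lit 18) (.lf (nat_lit 2348982296) (dlOf (nat_lit 1) (nat_lit 0x160018080501))) 
(.lf (nat_lit 26648600) (dlOf (nat_lit 8) (nat_lit 0xc64700006b5a000f469000ff83011cc8e001e6468041ab5a00435ab010ca348015ca9c003fc1800db51e012b91c0043c8d8002e4680072e3201015ad0076ad6001cd6ac021e8d200ff2a7006e848003fbda401e8000001fd1a0251a8902b2c8e0036e468052f1f00041886013dc3f814d56b40206b58019f5ab02a3a348007d0f0020a76e00072a700488ff0006c3cc00b21200018f69001378600788000003f84c02c6b58001e70201815ac000f301002bb9a000574080078008004000200040008c50083)))) 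
(.lf (nat_lit 2269464) (dlOf (nat_lit 2) (nat_lit 0x4d7e00121018150480)))) (.nd (nat_lit 9) 
(.lf (nat_lit 1141025816) (dlOf (nat_lit 1) (nat_lit 0x800400020008096002))) 
(.lf (nat_lit 1677900312) (dlOf (nat_lit 9) (nat_lit 0x2205600170298006804c017f80c004c0ac002a0530011009802fec18008815800780a6002e013005fd03000f02b0008014c003c02600bf906002405600170298006004c016540c003c0ac0022053000d009802ca418005015800400a600180130059403001102b000a814c004402600b27060020002811b281))))) 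
(.nd (nat_lit 8) (.nd (nat_lit 11) 
(.lf (nat_lit 8823960) (dlOf (nat_lit 2) (nat_lit 0x1f734001fa02000e0008512b81))) 
(.lf (nat_lit 20098200) (dlOf (nat_lit 1) (nat_lit 0x200189d6201)))) (.nd (nat_lit 11) 
(.lf (nat_lit 738632088) (dlOf (nat_lit 1) (nat_lit 0x88008013c002009600080c6483))) 
(.lf (nat_lit 3221399960) (dlOf (nat_lit 1) (nat_lit 0x4400400040018114e82)))))) (.nd (nat_lit 21) 
(.nd (nat_lit 18) (.nd (nat_lit 20) 
(.lf (nat_lit 29532184) (dlOf (nat_lit 1) (nat_lit 0x10008002c00200240008e10683))) 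
(.lf (nat_lit 22192152) (dlOf (nat_lit 1) (nat_lit 0x400200020008aa0a82)))) 
(.lf (nat_lit 2756091928) (dlOf (nat_lit 1) (nat_lit 0x200281f0901)))) (.nd (nat_lit 7) 
(.nd (nat_lit 20) 
(.lf (nat_lit 56795160) (dlOf (nat_lit 1) (nat_lit 0x40008000400200100009760603))) 
(.lf (nat_lit 15900696) (dlOf (nat_lit 1) (nat_lit 0x1c002000e0008840482)))) 
(.lf (nat_lit 23503000) (dlOf (nat_lit 1) (nat_lit 0x20028b80181)))))) (.nd (nat_lit 27) 
(.nd (nat_lit 18) (.nd (nat_lit 8) (.nd (nat_lit 26) 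
(.lf (nat_lit 3221921816) (dlOf (nat_lit 4) (nat_lit 0x402b000400440002408000c0ac00020110000682004301a8000000805000080060002027600081b0383))) 
(.lf (nat_lit 1678417944) (dlOf (nat_lit 4) (nat_lit 0xa3015801d0026000200400360130000f81002902b00004c0801c0008020c00200260008210383)))) 
(.lf (nat_lit 9085208) (dlOf (nat_lit 1) (nat_lit 0x8008002000200020008524b03)))) (.nd (nat_lit 8) 
(.nd (nat_lit 21) 
(.lf (nat_lit 14589976) (dlOf (nat_lit 2) (nat_lit 0xfe348007a80801d0008003800200060008770083))) 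
(.lf (nat_lit 16687128) (dlOf (nat_lit 2) (nat_lit 0xd8b2e000a3f6000180288d0400)))) 
(.lf (nat_lit 8299800) (dlOf (nat_lit 1) (nat_lit 0x60018513081))))) (.nd (nat_lit 26) 
(.nd (nat_lit 29) (.lf (nat_lit 134914072) (dlOf (nat_lit 1) (nat_lit 0x7800200b200080e0382))) 
(.lf (nat_lit 3893010456) (dlOf (nat_lit 1) (nat_lit 0x600182d0481)))) (.nd (nat_lit 29) 
(.lf (nat_lit 202022936) (dlOf (nat_lit 1) (nat_lit 0x7800200b200080e0382))) 
(.lf (nat_lit 3960119320) (dlOf (nat_lit 4) (nat_lit 0x402b000400440002408000c0ac00020110000682004301a8000000805000080060002027600081b0383))))))) 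
(.nd (nat_lit 26) (.nd (nat_lit 19) (.nd (nat_lit 31) (.nd (nat_lit 22) (.nd (nat_lit 27) 
(.lf (nat_lit 268607512) (dlOf (nat_lit 1) (nat_lit 0x9400080b0a01))) 
(.lf (nat_lit 1476567064) (dlOf (nat_lit 1) (nat_lit 0x2c00080050002000c0008050083)))) 
(.lf (nat_lit 1346543640) (dlOf (nat_lit 2) (nat_lit 0x84320000502003e0028fb0481)))) 
(.nd (nat_lit 8) (.nd (nat_lit 18) 
(.lf (nat_lit 6711058456) (dlOf (nat_lit 2) (nat_lit 0x30058001802a000a014000a002803368200010008000400200060008060a03))) 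
(.lf (nat_lit 3494289432) (dlOf (nat_lit 1) (nat_lit 0x200281f0901)))) 
(.lf (nat_lit 3624050968) (dlOf (nat_lit 1) (nat_lit 0x80080004002000200080b0483))))) 
(.nd (nat_lit 7) (.nd (nat_lit 18) (.nd (nat_lit 27) 
(.lf (nat_lit 806002712) (dlOf (nat_lit 4) (nat_lit 0xa3015801d0026000200400360130000f81002902b00004c0801c0008020c00200260008210383))) 
(.lf (nat_lit 5772058648) (dlOf (nat_lit 3) (nat_lit 0x10534000828600d5204000214d00020a1803544100038008000400200040008060a03)))) 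
(.lf (nat_lit 1343135768) (dlOf (nat_lit 1) (nat_lit 0x8008000400200020008160503)))) 
(.lf (nat_lit 1346020504) (dlOf (nat_lit 1) (nat_lit 0x20028e22b81))))) (.nd (nat_lit 30) 
(.nd (nat_lit 19) (.nd (nat_lit 27) 
(.lf (nat_lit 2483200024) (dlOf (nat_lit 1) (nat_lit 0x160018080501))) 
(.lf (nat_lit 4764901400) (dlOf (nat_lit 3) (nat_lit 0x16016004600a0005801401bf80c003402c0026014000d0028037ec180110008018c002000e0008060a03)))) 
(.nd (nat_lit 21) 
(.lf (nat_lit 3154812952) (dlOf (nat_lit 2) (nat_lit 0x600c8033a4080028008004c00200540008330a03))) 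
(.lf (nat_lit 472555544) (dlOf (nat_lit 1) (nat_lit 0x4002000800089c0082))))) (.nd (nat_lit 7) 
(.nd (nat_lit 8) (.lf (nat_lit 3691159576) (dlOf (nat_lit 2) (nat_lit 0x184000000ae818050080))) 
(.lf (nat_lit 1410244888) (dlOf (nat_lit 1) (nat_lit 0x400081b0481)))) (.nd (nat_lit 8) 
(.lf (nat_lit 1543679128) (dlOf (nat_lit 1) (nat_lit 0x420028146201))) 
(.lf (nat_lit 5704425880) (dlOf (nat_lit 1) (nat_lit 0x30008002400200080008076483))))))))) 
(.nd (nat_lit 4) (.nd (nat_lit 9) (.nd (nat_lit 21) (.nd (nat_lit 10) (.nd (nat_lit 19) 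
(.nd (nat_lit 7) (.nd (nat_lit 12) 
(.lf (nat_lit 2214764616) (dlOf (nat_lit 1) (nat_lit 0x1800180a0001))) 
(.lf (nat_lit 3154292808) (dlOf (nat_lit 1) (nat_lit 0x800400020018157d82)))) (.nd (nat_lit 8) 
(.lf (nat_lit 738631880) (dlOf (nat_lit 2) (nat_lit 0x1c07e0000002000600080c1b81))) 
(.lf (nat_lit 43164104) (dlOf (nat_lit 1) (nat_lit 0x100080004002000200092a1103))))) 
(.nd (nat_lit 20) (.lf (nat_lit 34250824) (dlOf (nat_lit 1) (nat_lit 0x220028fb0001))) 
(.nd (nat_lit 23) (.lf (nat_lit 1880793160) (dlOf (nat_lit 1) (nat_lit 0x80028b90601))) 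
(.lf (nat_lit 10133576) (dlOf (nat_lit 1) (nat_lit 0xa00085b0881)))))) (.nd (nat_lit 7) 
(.nd (nat_lit 26) (.nd (nat_lit 27) 
(.lf (nat_lit 173128) (dlOf (nat_lit 1) (nat_lit 0x20028002881))) 
(.lf (nat_lit 2013439048) (dlOf (nat_lit 1) (nat_lit 0x8008000400200020008092883)))) 
(.lf (nat_lit 2751636552) (dlOf (nat_lit 1) (nat_lit 0x400400020008002882)))) (.nd (nat_lit 18) 
(.lf (nat_lit 55223496) (dlOf (nat_lit 1) (nat_lit 0x200296d2d01))) 
(.lf (nat_lit 47621320) (dlOf (nat_lit 1) (nat_lit 0x220029402d01)))))) (.nd (nat_lit 8) 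
(.nd (nat_lit 20) (.nd (nat_lit 19) 
(.lf (nat_lit 1344446536) (dlOf (nat_lit 1) (nat_lit 0x20028800001))) (.nd (nat_lit 26) 
(.lf (nat_lit 3492454472) (dlOf (nat_lit 1) (nat_lit 0x200180d0c81))) 
(.lf (nat_lit 2754256968) (dlOf (nat_lit 1) (nat_lit 0x200180d0c81))))) (.nd (nat_lit 7) 
(.nd (nat_lit 18) (.lf (nat_lit 62038088) (dlOf (nat_lit 1) (nat_lit 0x1e0009940601))) 
(.lf (nat_lit 25075784) (dlOf (nat_lit 1) (nat_lit 0x1800028be1481)))) 
(.lf (nat_lit 58369224) (dlOf (nat_lit 13) (nat_lit 0x60cfc0050595002326a0000b81801219f000ecb2a00444e6002d26a0000b02001519f800050040084cfc0001f02002467e0000f01009633f0056165401689cc00f44d40000e04004033f000419f00100b2a00744e6003426a00006c2800f99f80038b2a0001504003e67e00222ca8000381000b19f800014040050cfa000667c000d332801e16500004b26007e4e6003b26a001192700000c200050cfa0086594002d26a0008000000000100028004004400197e2d02))))) 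
(.nd (nat_lit 18) (.nd (nat_lit 10) 
(.lf (nat_lit 12230984) (dlOf (nat_lit 1) (nat_lit 0x4002001400086c0602))) (.nd (nat_lit 12) 
(.lf (nat_lit 69903688) (dlOf (nat_lit 1) (nat_lit 0x400400020008e13302))) 
(.lf (nat_lit 20624712) (dlOf (nat_lit 2) (nat_lit 0xb9460051a8189d9900))))) (.nd (nat_lit 7) 
(.nd (nat_lit 20) (.lf (nat_lit 23503176) (dlOf (nat_lit 1) (nat_lit 0x400200020008b80602))) 
(.lf (nat_lit 11968840) (dlOf (nat_lit 1) (nat_lit 0x400186c0601)))) 
(.lf (nat_lit 472295880) (dlOf (nat_lit 1) (nat_lit 0x800400020008984e82))))))) (.nd (nat_lit 7) 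
(.nd (nat_lit 26) (.nd (nat_lit 18) (.nd (nat_lit 19) (.nd (nat_lit 20) 
(.lf (nat_lit 134390344) (dlOf (nat_lit 1) (nat_lit 0x100028018801))) 
(.lf (nat_lit 11706952) (dlOf (nat_lit 1) (nat_lit 0x4002000200086c1102)))) 
(.lf (nat_lit 3491406408) (dlOf (nat_lit 2) (nat_lit 0xa61ed00013018091100)))) (.nd (nat_lit 11) 
(.lf (nat_lit 134652488) (dlOf (nat_lit 2) (nat_lit 0x1409400c204600013028091100))) 
(.lf (nat_lit 1344711240) (dlOf (nat_lit 1) (nat_lit 0x20008985201))))) (.nd (nat_lit 29) 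
(.nd (nat_lit 18) (.nd (nat_lit 27) 
(.lf (nat_lit 4362248776) (dlOf (nat_lit 1) (nat_lit 0x1800400180008018d02))) 
(.lf (nat_lit 201499208) (dlOf (nat_lit 1) (nat_lit 0x18008000800200040008018d03)))) 
(.lf (nat_lit 201761352) (dlOf (nat_lit 2) (nat_lit 0x1409400c204600013028091100)))) 
(.nd (nat_lit 8) (.nd (nat_lit 18) 
(.lf (nat_lit 2753208904) (dlOf (nat_lit 2) (nat_lit 0xa61ff00013018091100))) 
(.lf (nat_lit 2752422472) (dlOf (nat_lit 1) (nat_lit 0x40028018d01)))) 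
(.lf (nat_lit 6241299272) (dlOf (nat_lit 1) (nat_lit 0x3000280d5c01)))))) (.nd (nat_lit 29) 
(.nd (nat_lit 25) (.nd (nat_lit 8) 
(.lf (nat_lit 20099784) (dlOf (nat_lit 1) (nat_lit 0x4002000200089d8c82))) 
(.lf (nat_lit 1141025736) (dlOf (nat_lit 2) (nat_lit 0x280240000e818095d80)))) (.nd (nat_lit 18) 
(.lf (nat_lit 34251720) (dlOf (nat_lit 1) (nat_lit 0x60008002c00200020008fb2883))) 
(.lf (nat_lit 38183880) (dlOf (nat_lit 1) (nat_lit 0x20019132881))))) (.nd (nat_lit 11) 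
(.nd (nat_lit 8) 
(.lf (nat_lit 3758273224) (dlOf (nat_lit 1) (nat_lit 0x8a8008014400200ae0008128c83))) 
(.nd (nat_lit 27) (.lf (nat_lit 1610785736) (dlOf (nat_lit 1) (nat_lit 0x400400020008092882))) 
(.lf (nat_lit 2013438920) (dlOf (nat_lit 1) (nat_lit 0x8008000400200020008092883))))) 
(.nd (nat_lit 10) 
(.lf (nat_lit 805485512) (dlOf (nat_lit 10) (nat_lit 0x1b02a8004f8080058154002680400380ac001c053000e00980044018007815800480a6001e0130008783000d02b0008014c00300260010e06001e05600110298007804c0021a0c000c0a60010c0200200530007b81001e009800000080110008002c0020002000811be83))) 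
(.lf (nat_lit 3892490184) (dlOf (nat_lit 1) (nat_lit 0x2400400080008157a82)))))))) (.nd (nat_lit 7) 
(.nd (nat_lit 26) (.nd (nat_lit 8) (.nd (nat_lit 11) (.nd (nat_lit 10) (.nd (nat_lit 18) 
(.lf (nat_lit 24289368) (dlOf (nat_lit 1) (nat_lit 0x2a0008b91101))) 
(.lf (nat_lit 2819006552) (dlOf (nat_lit 10) (nat_lit 0x46d03900e500fc0005e0811f80e4026a03f0001702045803900e680fc0005a0811ac0e4039a03f000160203d203900cc80fc0005608017c07e000280208c207201c401f80007c1024501c8068007e0001e04053a072002a01f800074100128008000400200280008150803)))) 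
(.lf (nat_lit 57058392) (dlOf (nat_lit 1) (nat_lit 0x4c00400320019792902)))) (.nd (nat_lit 9) 
(.lf (nat_lit 178264) (dlOf (nat_lit 1) (nat_lit 0x6002800a781))) (.nd (nat_lit 10) 
(.lf (nat_lit 62827096) (dlOf (nat_lit 1) (nat_lit 0x200099a5301))) 
(.lf (nat_lit 175704) (dlOf (nat_lit 1) (nat_lit 0x20018007181)))))) (.nd (nat_lit 20) 
(.nd (nat_lit 10) 
(.lf (nat_lit 939696472) (dlOf (nat_lit 1) (nat_lit 0x8008000400200020008154e03))) 
(.lf (nat_lit 805481816) (dlOf (nat_lit 1) (nat_lit 0x20018116a81)))) (.nd (nat_lit 18) 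
(.lf (nat_lit 9609560) (dlOf (nat_lit 1) (nat_lit 0x40028574e01))) 
(.lf (nat_lit 3493241176) (dlOf (nat_lit 1) (nat_lit 0x400400020008104e02)))))) (.nd (nat_lit 8) 
(.nd (nat_lit 19) (.nd (nat_lit 21) (.nd (nat_lit 27) 
(.lf (nat_lit 4899119192) (dlOf (nat_lit 1) (nat_lit 0x40028080601))) 
(.lf (nat_lit 3691159640) (dlOf (nat_lit 3) (nat_lit 0x1c01d0001a81000100c0000a40800c8008001400200180008050803)))) 
(.lf (nat_lit 472031320) (dlOf (nat_lit 1) (nat_lit 0x20028800001)))) (.nd (nat_lit 10) 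
(.lf (nat_lit 4362772568) (dlOf (nat_lit 1) (nat_lit 0x200280f1a81))) 
(.lf (nat_lit 1009427544) (dlOf (nat_lit 1) (nat_lit 0x280029162901))))) (.nd (nat_lit 10) 
(.nd (nat_lit 27) (.lf (nat_lit 5972861272) (dlOf (nat_lit 1) (nat_lit 0x400400020008154e02))) 
(.lf (nat_lit 4228030808) (dlOf (nat_lit 7) (nat_lit 0x5810001dc0580002e04000c040001e0160000b4100148100000440400200800001b02000c0400000c810006020000060080050008011800200700008014d83)))) 
(.nd (nat_lit 9) (.nd (nat_lit 11) 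
(.lf (nat_lit 472819032) (dlOf (nat_lit 1) (nat_lit 0x1c004002c0008b03382))) 
(.lf (nat_lit 1543679320) (dlOf (nat_lit 1) (nat_lit 0x780028146a81)))) 
(.lf (nat_lit 2752161624) (dlOf (nat_lit 1) (nat_lit 0x1080080028002003a0008003f83))))))) 
(.nd (nat_lit 18) (.nd (nat_lit 26) (.nd (nat_lit 21) (.nd (nat_lit 8) (.nd (nat_lit 10) 
(.lf (nat_lit 13803736) (dlOf (nat_lit 1) (nat_lit 0x40028750581))) 
(.lf (nat_lit 2281878744) (dlOf (nat_lit 1) (nat_lit 0x4004000200180a9502)))) 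
(.lf (nat_lit 1342349784) (dlOf (nat_lit 1) (nat_lit 0x6400200080008017102)))) (.nd (nat_lit 9) 
(.lf (nat_lit 3317976) (dlOf (nat_lit 1) (nat_lit 0x20008000800200040008200483))) (.nd (nat_lit 10) 
(.lf (nat_lit 49982168) (dlOf (nat_lit 1) (nat_lit 0x1c002000c00094c5902))) 
(.lf (nat_lit 8042200) (dlOf (nat_lit 1) (nat_lit 0x40020002000851a002)))))) (.nd (nat_lit 27) 
(.nd (nat_lit 11) 
(.lf (nat_lit 2755829976) (dlOf (nat_lit 2) (nat_lit 0xc041200261f900300df8018054c005829c00601110004a0681b0480))) 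
(.nd (nat_lit 19) 
(.lf (nat_lit 1677895896) (dlOf (nat_lit 2) (nat_lit 0x702a0000b0080068008004800200120008114a83))) 
(.lf (nat_lit 2752162008) (dlOf (nat_lit 1) (nat_lit 0x140028004a81))))) (.nd (nat_lit 8) 
(.lf (nat_lit 2885853400) (dlOf (nat_lit 3) (nat_lit 0x111000000744080a8000000102040148002005a00080b0482))) 
(.nd (nat_lit 9) 
(.lf (nat_lit 4228030936) (dlOf (nat_lit 2) (nat_lit 0x404f00c9000000000100140008033800200a40008017103))) 
(.lf (nat_lit 3959595992) (dlOf (nat_lit 1) (nat_lit 0x8002000a0008112882))))))) (.nd (nat_lit 8) 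
(.nd (nat_lit 9) (.nd (nat_lit 19) (.nd (nat_lit 20) 
(.lf (nat_lit 738631896) (dlOf (nat_lit 1) (nat_lit 0x200180c1c01))) 
(.lf (nat_lit 3580120) (dlOf (nat_lit 2) (nat_lit 0x10330000b19300108b1c007c4980011b848200480)))) 
(.lf (nat_lit 24027352) (dlOf (nat_lit 1) (nat_lit 0x400400020008b80482)))) (.nd (nat_lit 11) 
(.lf (nat_lit 8303320) (dlOf (nat_lit 1) (nat_lit 0x8008000400200020008518c83))) 
(.lf (nat_lit 19839704) (dlOf (nat_lit 1) (nat_lit 0x1880080004002004800089db983))))) 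
(.nd (nat_lit 26) (.nd (nat_lit 9) (.nd (nat_lit 28) 
(.lf (nat_lit 3221660120) (dlOf (nat_lit 1) (nat_lit 0x8008010400200440008170b03))) 
(.lf (nat_lit 805741016) (dlOf (nat_lit 1) (nat_lit 0x80080004002000200081a0b03)))) 
(.lf (nat_lit 8299480) (dlOf (nat_lit 1) (nat_lit 0x60018512881)))) (.nd (nat_lit 27) 
(.lf (nat_lit 1678156248) (dlOf (nat_lit 1) (nat_lit 0x80080004002000200081a0b03))) 
(.lf (nat_lit 3959857624) (dlOf (nat_lit 1) (nat_lit 0x8008010400200440008170b03)))))))))) 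
(.nd (nat_lit 4) (.nd (nat_lit 19) (.nd (nat_lit 8) (.nd (nat_lit 18) (.nd (nat_lit 26) 
(.nd (nat_lit 6) (.nd (nat_lit 7) (.nd (nat_lit 21) 
(.lf (nat_lit 6711058472) (dlOf (nat_lit 2) (nat_lit 0x1000a0000340800100080018002000e0008060c83))) 
(.lf (nat_lit 56795176) (dlOf (nat_lit 1) (nat_lit 0x400400020009760802)))) 
(.lf (nat_lit 8565416) (dlOf (nat_lit 1) (nat_lit 0x400200020008518c82)))) (.nd (nat_lit 7) 
(.nd (nat_lit 9) (.lf (nat_lit 20100200) (dlOf (nat_lit 1) (nat_lit 0x600289d9401))) 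
(.lf (nat_lit 54700648) (dlOf (nat_lit 2) (nat_lit 0x2c95140007604006800200220009655382)))) 
(.nd (nat_lit 11) (.lf (nat_lit 5637317864) (dlOf (nat_lit 1) (nat_lit 0x200180d2e01))) 
(.lf (nat_lit 175336) (dlOf (nat_lit 1) (nat_lit 0x190008004000200200008006503)))))) 
(.nd (nat_lit 9) (.nd (nat_lit 27) (.nd (nat_lit 11) 
(.lf (nat_lit 67280936) (dlOf (nat_lit 2) (nat_lit 0x601f8001580800b0008000400200160008090683))) 
(.lf (nat_lit 1677895720) (dlOf (nat_lit 1) (nat_lit 0x120018114701)))) (.nd (nat_lit 30) 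
(.lf (nat_lit 2885853224) (dlOf (nat_lit 2) (nat_lit 0xd8026004200500da70280b0000))) 
(.lf (nat_lit 6107078696) (dlOf (nat_lit 2) (nat_lit 0x1000a0000340800100080018002000e0008060c83))))) 
(.nd (nat_lit 7) (.nd (nat_lit 12) 
(.lf (nat_lit 6376565288) (dlOf (nat_lit 1) (nat_lit 0x380028095181))) 
(.lf (nat_lit 2751642152) (dlOf (nat_lit 1) (nat_lit 0x18002000c000800b282)))) 
(.lf (nat_lit 3020075688) (dlOf (nat_lit 1) (nat_lit 0x30004000e0008128c82)))))) (.nd (nat_lit 32) 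
(.nd (nat_lit 20) (.nd (nat_lit 26) (.nd (nat_lit 7) (.nd (nat_lit 22) 
(.lf (nat_lit 1074176040) (dlOf (nat_lit 1) (nat_lit 0x8e00280d0981))) 
(.lf (nat_lit 13017128) (dlOf (nat_lit 6) (nat_lit 0x4c7e00066280000702000631f8000340800498a000018040028c7e000e6280000582000831f800098a000000080020004000c00086f0a02)))) 
(.lf (nat_lit 1611047080) (dlOf (nat_lit 1) (nat_lit 0x124004005a00080c1402)))) (.nd (nat_lit 6) 
(.lf (nat_lit 1946591272) (dlOf (nat_lit 1) (nat_lit 0x8e00280d0981))) 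
(.lf (nat_lit 604416616) (dlOf (nat_lit 13) (nat_lit 0x1f022801d80f0009406c0004a06007403c003301b0022008c000860c00780460004202005c03c003b01b001e808c000820c010808a006a01c0001f82002900e0000f808026011400f40380003d04010e045000301f804480f000e807200e80360088011803a8070000761c003808a0003902001a0450001c0100100228000dc0800701140006c0400e000400020018205382))))) 
(.nd (nat_lit 6) (.nd (nat_lit 22) 
(.lf (nat_lit 9871400) (dlOf (nat_lit 1) (nat_lit 0x140018590981))) 
(.lf (nat_lit 22454312) (dlOf (nat_lit 2) (nat_lit 0x6f2c3c0005404000800400440018ae0582)))) 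
(.lf (nat_lit 60205672) (dlOf (nat_lit 1) (nat_lit 0x38008001000200040009845383))))) 
(.nd (nat_lit 26) (.nd (nat_lit 27) (.nd (nat_lit 28) 
(.lf (nat_lit 5906014248) (dlOf (nat_lit 1) (nat_lit 0x20028180581))) 
(.lf (nat_lit 4563836968) (dlOf (nat_lit 1) (nat_lit 0xa80080064002006400080f0c83)))) 
(.lf (nat_lit 4698054696) (dlOf (nat_lit 1) (nat_lit 0xa80080064002006400080f0c83)))) 
(.nd (nat_lit 27) (.lf (nat_lit 6509994024) (dlOf (nat_lit 1) (nat_lit 0x20028180581))) 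
(.lf (nat_lit 4496728104) (dlOf (nat_lit 1) (nat_lit 0x100028160481))))))) (.nd (nat_lit 26) 
(.nd (nat_lit 6) (.nd (nat_lit 9) (.nd (nat_lit 7) (.nd (nat_lit 10) 
(.lf (nat_lit 2818744616) (dlOf (nat_lit 1) (nat_lit 0x4a800202e400080f8182))) 
(.lf (nat_lit 3221400872) (dlOf (nat_lit 1) (nat_lit 0x40018116801)))) 
(.lf (nat_lit 8824232) (dlOf (nat_lit 2) (nat_lit 0xc33c40017a04005000400120008513602)))) 
(.nd (nat_lit 7) (.nd (nat_lit 11) 
(.lf (nat_lit 3355620136) (dlOf (nat_lit 1) (nat_lit 0x200180a8f81))) 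
(.lf (nat_lit 54700840) (dlOf (nat_lit 2) (nat_lit 0x1c72a3000898080048008000800200140009655c03)))) 
(.lf (nat_lit 8562600) (dlOf (nat_lit 1) (nat_lit 0x640028514301))))) (.nd (nat_lit 7) 
(.nd (nat_lit 9) (.lf (nat_lit 175464) (dlOf (nat_lit 1) (nat_lit 0x20018006a81))) 
(.nd (nat_lit 11) (.lf (nat_lit 2281878376) (dlOf (nat_lit 1) (nat_lit 0x4004000200080a8f82))) 
(.lf (nat_lit 805485416) (dlOf (nat_lit 1) (nat_lit 0x4004000c001811bc82))))) (.nd (nat_lit 9) 
(.nd (nat_lit 10) (.lf (nat_lit 1344449000) (dlOf (nat_lit 1) (nat_lit 0x400400020008804e82))) 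
(.lf (nat_lit 1476830696) (dlOf (nat_lit 2) (nat_lit 0x6e02000117018203600)))) 
(.lf (nat_lit 8824808) (dlOf (nat_lit 2) (nat_lit 0x175b40006404000400200020008514602)))))) 
(.nd (nat_lit 7) (.nd (nat_lit 6) (.nd (nat_lit 9) (.nd (nat_lit 27) 
(.lf (nat_lit 5435990312) (dlOf (nat_lit 1) (nat_lit 0x160018090b01))) 
(.lf (nat_lit 738369832) (dlOf (nat_lit 3) (nat_lit 0x900c80007004000c096000250200020008090b01)))) 
(.lf (nat_lit 604416808) (dlOf (nat_lit 28) (nat_lit 0x1c40280023d020296043019101d00c000dc0668068015402a017d0100036003000cc01203220000011e0901aa02180c380e805e006e035203401aa01500d280800010032002330e000c0200011901019702180bc00e802f806e0322034019201500c88080004621808d8086003204000a301e811680e808dc06e047803402380150119008006f0028047c00c022a004811600000045e3005e4040032e01401ba00600de002407040000022d0a000c020001160100080100008ac0800900e8005806e00360340011303002c0060008900804f0050037801801520000011183004c0060008500800e0050001c018002100400d20140038006000838100260050012c0180020a040002014005c006000824100048050034c018002000400d400c000ff01001a00a0007e8080080030003ee040020028002200c000fa82013500a00860030003e6080028028006200c000f882007100a00050030003e008037402801ae00c000f7820067010000000080270008007c00200020008205c03))))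 
(.nd (nat_lit 18) (.nd (nat_lit 22) (.nd (nat_lit 28) 
(.lf (nat_lit 2885853544) (dlOf (nat_lit 5) (nat_lit 0x10006000b202f0047017002300b40140048007401a003f00c0027005c013402600920110051007801200300138016009c00500550010006800401dc0000002922003402e001a00c0000a01001880b8019005a0054024003400d001a80600138026008e0110063002802e8008003400200c8000000138b00fd0180009003c0004a080034004004600180b0702))) 
(.lf (nat_lit 4228030824) (dlOf (nat_lit 1) (nat_lit 0x14004000e0008015202)))) 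
(.lf (nat_lit 2755830120) (dlOf (nat_lit 3) (nat_lit 0x1d88e000ac23000031040018217000128181b0700)))) 
(.lf (nat_lit 2886115688) (dlOf (nat_lit 2) (nat_lit 0xcc01040148a04001800401000018155202))))) 
(.nd (nat_lit 27) (.nd (nat_lit 6) 
(.lf (nat_lit 3556942248) (dlOf (nat_lit 1) (nat_lit 0x10008001c00200300008106e83))) 
(.nd (nat_lit 9) 
(.lf (nat_lit 1141025256) (dlOf (nat_lit 1) (nat_lit 0x8008000400200020008094e83))) 
(.lf (nat_lit 1677895656) (dlOf (nat_lit 1) (nat_lit 0x2a0008114601))))) (.nd (nat_lit 6) 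
(.lf (nat_lit 2885853608) (dlOf (nat_lit 6) (nat_lit 0x900e000d001000340000184a06000e01c0018002000c0000030920c001c038002800400150000061081800380700054008003800000c2003000300c0000000800280080184002001800080b0783))) 
(.nd (nat_lit 18) 
(.lf (nat_lit 4228030952) (dlOf (nat_lit 2) (nat_lit 0x2940540006602000e0028017301))) 
(.lf (nat_lit 2886115816) (dlOf (nat_lit 1) (nat_lit 0x20028157d01))))))))) (.nd (nat_lit 20) 
(.nd (nat_lit 27) (.nd (nat_lit 29) (.nd (nat_lit 6) (.nd (nat_lit 8) (.nd (nat_lit 23) 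
(.lf (nat_lit 3221921832) (dlOf (nat_lit 26) (nat_lit 0x32302a81b381441330094036c04903f401f802f00dc140406a03cc03400f7019813f00c4006005c09fc01f01ed00f02e78048010c020000e00f021500500d700200f8800c08c20000003a14035102a816101440d2409406d4040006c01f81f000d4034805c000730e18d80560c0202a802b80fc1bf8064007602f0c3800880020028000e41c122c0ac00860520033025802e80bc0824022000710a07a6056034f02a80ed014800040a200a804b00be01f804c80d809f4064000801303920088001c05020b815812180aa040805100040248145010404cc0720086034037601901a200c410fc05e06ba02e022b01580b400a408f8022059601001430050073802000880000006f240438056033102a808f01440b20082022e039007701a019600c80c90062084a02f01c801700c480ac058405202fa01101730080130802805a4010010e000000371106f4020013780fc0274070041a02f000368405bc020002480fc049c05e0006c060aea040005e01f812780bc000d60c000405e0002802033a05603b402a811901440c00096000204903c502080010100044407e00ae039003101b017700c8042c062088402f03e2017007200ac028005202c0011013e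00800e10028011801000fc0060001215000601780008c0808b015810600aa041805103fa0258004812413b008202aa04004c501f809b00e40fe406207d202f03a901700fa80ac056805202de01102810080011002800044440f340ac062405502ed02900e681440514096094004001d801f817f00d804cc06203cc02f01dd017004f00ac0b7c02204ec01000f2005008d8018000424000080ac004e0550003020004400c403f405c01a6011004d008000080381c001580c4c0aa00cc054033a02901fc014401240a0056e04b006a020821b81000dc807e00b0038045701b000580d40cd406206b202f02e2017016a00ac00d803c002e014000700981a700440e14020051800a019100401a9001802bc0000001f34029402f0000f0100ff020001600bc0003a080d340ac067e055036102900cd814400900a003da04b011a0208315810011b007e032003803dc01b015080c40d3805e048602e01af015801180500d08022065e010017f005002b80200d1800c0001c2a0a14056050f02a8038815000300a6094405203ea028803101400f880960b90041043802002ab80fc01f00720b360360013019821d00c4159805e093202e038f0158023004c13e40220af601002e000500df00200e4000c01ae0000000d9902d302b00eb8144006c0960b98040006301f800080e0089006a015803201e40178054004403e80140001a16000c05600ca028824e810005a007e00a803800b201a80b180bc008802800019100174056000102a8018814401b0082060a04000e301f800600d801e406a00200320302017801e00b800600280124011000d00800068028000303c0dd00aa002a054001a029827281440e100940ba404907d1020013e00fc019c0700b8003505cb01a004f00c4071405c05fe01e011200801a300180000040060c0040f9c00181b0502)))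 
(.lf (nat_lit 42639400) (dlOf (nat_lit 1) (nat_lit 0x8008000400200020009260203)))) 
(.lf (nat_lit 46836520) (dlOf (nat_lit 1) (nat_lit 0x400400020009385c02)))) (.nd (nat_lit 10) 
(.lf (nat_lit 1344970856) (dlOf (nat_lit 3) (nat_lit 0x402c000120d9006f04e0035023401b00fa0000e0a00a8160006904e00308234000000c0158004001800089a0982))) 
(.lf (nat_lit 44999784) (dlOf (nat_lit 1) (nat_lit 0x1800200040009322982))))) (.nd (nat_lit 18) 
(.nd (nat_lit 26) 
(.lf (nat_lit 806002728) (dlOf (nat_lit 34) (nat_lit 0xed028806b00e8000e40804900aa00b4053015c02700ba00dc050405601ae02401250090043804003e801400020080142003000118580a10154025409c0226037012f009000114200488154054809c02a40370139015809c009001f402401040100173005009d002004dc00c025c000000220b023202a8049014c081009c040e03701fe01580ce809008a40240426010018500500ff0018000862808440aa04900530218027010400dc06bc062029a02b00ea0120014005808ec024042401000cd00500a38018000843001ac0aa012404e009301b80330048018c014000410a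00ec0550113027008a00dc02140240004008098805603f902a8047014c0b1c09c06e403200320120236004c01b40140003f10036e05600ce0098000f81007001580124026000600a0001e8300640168000e40803c0114022405a013a02b00bd005001b00180068000000370c025c054016a029809a81140520060024202d00c501580030090029402e00440060001b09014402a00a0014c04e406001ac02b00280088000d0280028150000660400580a80002c0200c0054000158100ba02b0000a0080c301580004e0402200ac002001200140050000901807c8158000460404d80ac00022020368056001902a8003804c000420c02600ac000a0550000f82018b02b000078080a381580003a0404500ac00160130000e02019602b0006004c0003608054c0ac0110055007b0270004804c000341005d40ac00d8055005a0270049004c01b4014000190a01fa0560000c01009f02b0000000800e0008009c00200340008210503))) 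
(.lf (nat_lit 1678417960) (dlOf (nat_lit 34) (nat_lit 0xed028806b00e8000e40804900aa00b4053015c02700ba00dc050405601ae02401250090043804003e801400020080142003000124580a10154025409c0226037012f009000120200488154054809c02a40370139015809c009001f402401040100173005009d002004dc00c025c000000238b023202a8049014c081009c040e03701fe01580ce809008a40240426010018500500ff00180008c2808440aa04900530218027010400dc06bc062029a02b00ea0120014005808ec024042401000cd00500a380180008a3001ac0aa012404e009301b80330048018c014000440a00ec0550113027008a00dc02140240004308098805603f902a8047014c0b1c09c06e403200320120236004c01b40140003f10036e05600ce0098000f81007001580124026000600a0001e8300640168000ec0803c0114022405a013a02b00bd005001b00180068000000390c025c054016a029809a81140520060024202d00c501580030090029402e00440060001c09014402a00a0014c04e406001ac02b00280088000d0280028150000660400580a80002c0200c0054000158100ba02b0000a0080c301580004e0402200ac002001200140050000901807c8158000460404d80ac00022020368056001902a8003804c000420c02600ac000a0550000f82018b02b000078080a381580003a0404500ac00160130000e02019602b0006004c0003608054c0ac0110055007b0270004804c000341005d40ac00d8055005a0270049004c01b4014000190a01fa0560000c01009f02b0000000800e0008009c00200340008210503))))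 
(.nd (nat_lit 6) 
(.lf (nat_lit 537829416) (dlOf (nat_lit 2) (nat_lit 0x401c00369c040088002004600081b0002))) 
(.lf (nat_lit 537829736) (dlOf (nat_lit 8) (nat_lit 0x5481d802500cc00f80000001883007003b00298198000600802b00c20002c020116076005103a803501c001e80cc002c0650037031003580000004a1c020c0f000dc076004d03a803a81c402fc0e0000206f00820368031019800080ca018e06200aa03080248000000423002880ea006206500cd000000070180018000000360400dc004000800181b0702)))))) 
(.nd (nat_lit 28) (.nd (nat_lit 26) (.nd (nat_lit 29) 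
(.lf (nat_lit 134914088) (dlOf (nat_lit 2) (nat_lit 0x70000000e404006000200c400080e0502))) 
(.lf (nat_lit 2819268648) (dlOf (nat_lit 1) (nat_lit 0x40008001000200080008210703)))) 
(.nd (nat_lit 29) 
(.lf (nat_lit 202022952) (dlOf (nat_lit 2) (nat_lit 0x70000000e404006000200c400080e0502))) 
(.lf (nat_lit 3960119336) (dlOf (nat_lit 26) (nat_lit 0x32302a81b381441330094036c04903f401f802f00dc140406a03cc03400f7019813f00c4006005c09fc01f01ed00f02e78048010c020000e00f021500500d700200f8800c08c20000003a14035102a816101440d2409406d4040006c01f81f000d4034805c000730e18d80560c0202a802b80fc1bf8064007602f0c3800880020028000e41c122c0ac00860520033025802e80bc0824022000710a07a6056034f02a80ed014800040a200a804b00be01f804c80d809f4064000801303920088001c05020b815812180aa040805100040248145010404cc0720086034037601901a200c410fc05e06ba02e022b01580b400a408f8022059601001430050073802000880000006f240438056033102a808f01440b20082022e039007701a019600c80c90062084a02f01c801700c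480ac058405202fa01101730080130802805a4010010e000000371106f4020013780fc0274070041a02f000368405bc020002480fc049c05e0006c060aea040005e01f812780bc000d60c000405e0002802033a05603b402a811901440c00096000204903c502080010100044407e00ae039003101b017700c8042c062088402f03e2017007200ac028005202c0011013e00800e10028011801000fc0060001215000601780008c0808b015810600aa041805103fa0258004812413b008202aa04004c501f809b00e40fe406207d202f03a901700fa80ac056805202de01102810080011002800044440f340ac062405502ed02900e681440514096094004001d801f817f00d804cc06203cc02f01dd017004f00ac0b7c02204ec01000f2005008d8018000424000080ac004e0550003020004400c403f405c01a6011004d008000080381c001580c4c0aa00cc054033a02901fc014401240a0056e04b006a020821b81000dc807e00b0038045701b000580d40cd406206b202f02e2017016a00ac00d803c002e014000700981a700440e14020051800a019100401a9001802bc0000001f34029402f0000f0100ff020001600bc0003a080d340ac067e055036102900cd814400900a003da04b011a0208315810011b007e03200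3803dc01b015080c40d3805e048602e01af015801180500d08022065e010017f005002b80200d1800c0001c2a0a14056050f02a8038815000300a6094405203ea028803101400f880960b90041043802002ab80fc01f00720b360360013019821d00c4159805e093202e038f0158023004c13e40220af601002e000500df00200e4000c01ae0000000d9902d302b00eb8144006c0960b98040006301f800080e0089006a015803201e40178054004403e80140001a16000c05600ca028824e810005a007e00a803800b201a80b180bc008802800019100174056000102a8018814401b0082060a04000e301f800600d801e406a00200320302017801e00b800600280124011000d00800068028000303c0dd00aa002a054001a029827281440e100940ba404907d1020013e00fc019c0700b8003505cb01a004f00c4071405c05fe01e011200801a300180000040060c0040f9c00181b0502))))) 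
(.nd (nat_lit 29) (.nd (nat_lit 6) 
(.lf (nat_lit 5772058664) (dlOf (nat_lit 1) (nat_lit 0x1400400020018060c82))) 
(.lf (nat_lit 472555624) (dlOf (nat_lit 4) (nat_lit 0x1441b200a409c00550468000381800e8234000180401642c0008a14d004104e0020823400000100024004001a00189c0982)))) 
(.nd (nat_lit 30) 
(.lf (nat_lit 3154812968) (dlOf (nat_lit 2) (nat_lit 0x2057000101b8001806400040300002f0800080008330b01))) 
(.nd (nat_lit 31) (.lf (nat_lit 6376038440) (dlOf (nat_lit 1) (nat_lit 0x1400400020018060c82))) 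
(.lf (nat_lit 4228554792) (dlOf (nat_lit 7) (nat_lit 0xa02a0002b8100330150001500800280a8000a60400140540003702000c02a0001981000e0150000c80801e0008004c002002800080f0c03)))))))) 
(.nd (nat_lit 18) (.nd (nat_lit 9) (.nd (nat_lit 7) (.nd (nat_lit 6) 
(.lf (nat_lit 3842088) (dlOf (nat_lit 6) (nat_lit 0xb131c002095000144960000703000625f800e92f4008895000404960000684000d25e800d92a0008892c0000c0600024c7001d25e801112a0008892c0000b0800284c9000525f800000100098008006400200220008230a03))) 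
(.lf (nat_lit 45785192) (dlOf (nat_lit 1) (nat_lit 0x1a0008012800200860009360983)))) 
(.nd (nat_lit 10) (.lf (nat_lit 60465320) (dlOf (nat_lit 1) (nat_lit 0x1000400020009871482))) 
(.lf (nat_lit 58369192) (dlOf (nat_lit 3) (nat_lit 0x1964c000b8040038b24002c4e5005e2698000901800900080018002002c00097e2c03))))) 
(.nd (nat_lit 6) (.nd (nat_lit 8) 
(.lf (nat_lit 473604648) (dlOf (nat_lit 2) (nat_lit 0xb0000001e40800a8008001c00200080008f68883))) 
(.lf (nat_lit 20622120) (dlOf (nat_lit 2) (nat_lit 0x1392e000f48189d5c00)))) 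
(.lf (nat_lit 20621928) (dlOf (nat_lit 2) (nat_lit 0x10dc00003b02003400189d5381))))) 
(.nd (nat_lit 23) (.nd (nat_lit 6) (.nd (nat_lit 8) 
(.lf (nat_lit 1881055784) (dlOf (nat_lit 1) (nat_lit 0x100008de8881))) (.nd (nat_lit 9) 
(.lf (nat_lit 8299816) (dlOf (nat_lit 1) (nat_lit 0x60018513181))) 
(.lf (nat_lit 54438696) (dlOf (nat_lit 1) (nat_lit 0x20029655c01))))) (.nd (nat_lit 9) 
(.lf (nat_lit 473866344) (dlOf (nat_lit 2) (nat_lit 0xa60d900007018fc0980))) 
(.lf (nat_lit 54438504) (dlOf (nat_lit 1) (nat_lit 0x20029655381))))) (.nd (nat_lit 22) 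
(.nd (nat_lit 21) 
(.lf (nat_lit 10395688) (dlOf (nat_lit 3) (nat_lit 0x277e00010000000841000422140014efc0001d04001800085d0581))) 
(.lf (nat_lit 29270056) (dlOf (nat_lit 1) (nat_lit 0x380018df0601)))) (.nd (nat_lit 6) 
(.lf (nat_lit 16687144) (dlOf (nat_lit 1) (nat_lit 0xc00288d0801))) 
(.lf (nat_lit 50242920) (dlOf (nat_lit 1) (nat_lit 0x4004000200094c3482))))))))) (.nd (nat_lit 18) 
(.nd (nat_lit 26) (.nd (nat_lit 21) (.nd (nat_lit 23) (.nd (nat_lit 28) (.nd (nat_lit 6) 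
(.nd (nat_lit 9) (.nd (nat_lit 12) 
(.lf (nat_lit 17997880) (dlOf (nat_lit 1) (nat_lit 0x400200020008900c02))) 
(.lf (nat_lit 3892490296) (dlOf (nat_lit 1) (nat_lit 0x18008001400200080008157c83)))) 
(.lf (nat_lit 6576841272) (dlOf (nat_lit 1) (nat_lit 0x120018158181)))) (.nd (nat_lit 7) 
(.lf (nat_lit 178296) (dlOf (nat_lit 2) (nat_lit 0x1c000004c6020014001800a881))) 
(.lf (nat_lit 3758274808) (dlOf (nat_lit 1) (nat_lit 0x66002812a981))))) (.nd (nat_lit 10) 
(.nd (nat_lit 20) (.lf (nat_lit 806002744) (dlOf (nat_lit 1) (nat_lit 0x2800200180008210782))) 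
(.lf (nat_lit 1343922232) (dlOf (nat_lit 1) (nat_lit 0x400400080008381102)))) (.nd (nat_lit 6) 
(.lf (nat_lit 5637318200) (dlOf (nat_lit 1) (nat_lit 0x1f200180d3781))) 
(.lf (nat_lit 2013439352) (dlOf (nat_lit 1) (nat_lit 0x7000400160018093502)))))) (.nd (nat_lit 8) 
(.nd (nat_lit 7) (.nd (nat_lit 24) 
(.lf (nat_lit 12755000) (dlOf (nat_lit 1) (nat_lit 0x40004000200086e0b02))) 
(.lf (nat_lit 29532216) (dlOf (nat_lit 2) (nat_lit 0x2e000000000040004002004e0008e10902)))) 
(.lf (nat_lit 13803704) (dlOf (nat_lit 1) (nat_lit 0x20028750301)))) (.nd (nat_lit 6) 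
(.lf (nat_lit 8566072) (dlOf (nat_lit 1) (nat_lit 0x400200020008519902))) 
(.lf (nat_lit 58894712) (dlOf (nat_lit 1) (nat_lit 0x3400197e4e81)))))) (.nd (nat_lit 9) 
(.nd (nat_lit 19) (.nd (nat_lit 7) 
(.lf (nat_lit 52600888) (dlOf (nat_lit 1) (nat_lit 0x48008001400200100009550503))) 
(.lf (nat_lit 35824824) (dlOf (nat_lit 1) (nat_lit 0x20019012c81)))) (.nd (nat_lit 20) 
(.lf (nat_lit 3492454456) (dlOf (nat_lit 2) (nat_lit 0x901eb000e88180d0b80))) 
(.lf (nat_lit 45785144) (dlOf (nat_lit 8) (nat_lit 0x68e12000320200347090001881000d3848000c00800e1c240005e040048e120002e0200207090001681001b3848000b00801880080048002001a0009360503))))) 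
(.nd (nat_lit 6) (.nd (nat_lit 11) 
(.lf (nat_lit 2269752) (dlOf (nat_lit 1) (nat_lit 0x200028151001))) 
(.lf (nat_lit 36350520) (dlOf (nat_lit 1) (nat_lit 0x20019075201)))) 
(.lf (nat_lit 58369016) (dlOf (nat_lit 3) (nat_lit 0x2326980183808007939400b50040024004001c00097e2882)))))) 
(.nd (nat_lit 27) (.nd (nat_lit 9) (.nd (nat_lit 6) (.nd (nat_lit 19) 
(.lf (nat_lit 69378104) (dlOf (nat_lit 9) (nat_lit 0x1410e0003202001a087000188100020438000c008002821c000c0c80002f0400100870001701000a0438000b408006021c000580400302300000302000e0018940501))) 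
(.lf (nat_lit 2754256952) (dlOf (nat_lit 2) (nat_lit 0x901fd000e88180d0b80)))) (.nd (nat_lit 11) 
(.nd (nat_lit 12) (.lf (nat_lit 69903480) (dlOf (nat_lit 1) (nat_lit 0x240018e12a01))) 
(.lf (nat_lit 3020076152) (dlOf (nat_lit 1) (nat_lit 0x80008129481)))) 
(.lf (nat_lit 3020078200) (dlOf (nat_lit 1) (nat_lit 0x11c002812c101))))) (.nd (nat_lit 7) 
(.nd (nat_lit 6) 
(.lf (nat_lit 2751642168) (dlOf (nat_lit 2) (nat_lit 0x2e883c000f60400b80020034000800b402))) 
(.lf (nat_lit 6241299064) (dlOf (nat_lit 1) (nat_lit 0x4002000200080d5402)))) (.nd (nat_lit 12) 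
(.lf (nat_lit 1677895672) (dlOf (nat_lit 1) (nat_lit 0x40002001e0008114682))) 
(.lf (nat_lit 1677899768) (dlOf (nat_lit 10) (nat_lit 0x480ac002605300050098015ac18009015800480a6000a013002b503000802b0003814c00200260056906001a056000c0298015a01000d804c00ab20400080aa005460200020530029f81000b0098014f408000804c007bc0401080040002001811a602)))))) 
(.nd (nat_lit 6) (.nd (nat_lit 19) (.nd (nat_lit 9) (.nd (nat_lit 28) 
(.lf (nat_lit 3422724152) (dlOf (nat_lit 1) (nat_lit 0x8008000c00200020008090d83))) 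
(.lf (nat_lit 3691159608) (dlOf (nat_lit 1) (nat_lit 0x800400020008050482)))) 
(.lf (nat_lit 1007856184) (dlOf (nat_lit 1) (nat_lit 0x240018805201)))) (.nd (nat_lit 28) 
(.lf (nat_lit 3960119352) (dlOf (nat_lit 2) (nat_lit 0x16c02f0048f8181b0780))) 
(.lf (nat_lit 3154812984) (dlOf (nat_lit 1) (nat_lit 0x20018330c01))))) (.nd (nat_lit 10) 
(.nd (nat_lit 20) 
(.lf (nat_lit 738372472) (dlOf (nat_lit 2) (nat_lit 0x2020800004080060008000400200040008095c03))) 
(.lf (nat_lit 473082744) (dlOf (nat_lit 3) (nat_lit 0x80b28006d00800505940034404001400400100018c95c02)))) 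
(.nd (nat_lit 7) 
(.lf (nat_lit 3959596920) (dlOf (nat_lit 2) (nat_lit 0x300bc0002c04005400200040008114082))) 
(.lf (nat_lit 1543679480) (dlOf (nat_lit 1) (nat_lit 0xc00028146f81)))))))) (.nd (nat_lit 20) 
(.nd (nat_lit 26) (.nd (nat_lit 8) (.nd (nat_lit 22) (.nd (nat_lit 21) 
(.lf (nat_lit 2819006520) (dlOf (nat_lit 5) (nat_lit 0x7100e4001ac02005003f0005081003c039003a80fc000fc0807100e400ea03f00015028150480))) 
(.lf (nat_lit 2531384) (dlOf (nat_lit 1) (nat_lit 0x100028170b01)))) (.nd (nat_lit 6) 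
(.lf (nat_lit 4628536) (dlOf (nat_lit 1) (nat_lit 0x60008003400200440008290003))) 
(.lf (nat_lit 21405816) (dlOf (nat_lit 1) (nat_lit 0x560018a30c01))))) (.nd (nat_lit 6) 
(.nd (nat_lit 7) (.lf (nat_lit 537829688) (dlOf (nat_lit 2) (nat_lit 0x11e074000130181b0580))) 
(.lf (nat_lit 5772321208) (dlOf (nat_lit 4) (nat_lit 0xcc09f006e84c40358260001600601c812f0004e0100f10978002300800200080084002003c0008091003)))) 
(.lf (nat_lit 5771799416) (dlOf (nat_lit 1) (nat_lit 0x8008000400200060008005c03))))) 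
(.nd (nat_lit 6) (.nd (nat_lit 7) (.nd (nat_lit 8) 
(.lf (nat_lit 4496728120) (dlOf (nat_lit 1) (nat_lit 0x68008003400200040008160683))) 
(.lf (nat_lit 2751899448) (dlOf (nat_lit 2) (nat_lit 0x982800004004000c00400060008003e02)))) 
(.nd (nat_lit 8) (.lf (nat_lit 1009165496) (dlOf (nat_lit 1) (nat_lit 0x80029082c81))) 
(.lf (nat_lit 2752422328) (dlOf (nat_lit 1) (nat_lit 0x400200020008017782))))) (.nd (nat_lit 7) 
(.nd (nat_lit 9) 
(.lf (nat_lit 1409720696) (dlOf (nat_lit 1) (nat_lit 0x8008000400200020008090783))) 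
(.lf (nat_lit 604416888) (dlOf (nat_lit 2) (nat_lit 0x6e02000117018205c00)))) 
(.lf (nat_lit 2886115832) (dlOf (nat_lit 6) (nat_lit 0x19406e00ec03500750000000bc1800e80e805a406e023e03500280080068802805240000002d0c008203a00f801b804a8028000560c00cc07401e2037008d0050000a81808180dc007006a012a00a00500000000a02000680080498002004a0008157e03)))))) 
(.nd (nat_lit 7) (.nd (nat_lit 21) (.nd (nat_lit 6) 
(.lf (nat_lit 51817016) (dlOf (nat_lit 1) (nat_lit 0x400400020009515202))) (.nd (nat_lit 8) 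
(.lf (nat_lit 5773369464) (dlOf (nat_lit 2) (nat_lit 0x2025000320180c0b80))) 
(.lf (nat_lit 60205944) (dlOf (nat_lit 1) (nat_lit 0x2a0029845c01))))) (.nd (nat_lit 24) 
(.nd (nat_lit 10) (.lf (nat_lit 41331256) (dlOf (nat_lit 1) (nat_lit 0x400400020009245202))) 
(.lf (nat_lit 8300088) (dlOf (nat_lit 1) (nat_lit 0x1d0008019800200860008513783)))) 
(.nd (nat_lit 22) (.lf (nat_lit 53914168) (dlOf (nat_lit 1) (nat_lit 0x4002000200095f5202))) 
(.lf (nat_lit 32942648) (dlOf (nat_lit 1) (nat_lit 0x20028f55201)))))) (.nd (nat_lit 19) 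
(.nd (nat_lit 6) (.nd (nat_lit 9) 
(.lf (nat_lit 41329848) (dlOf (nat_lit 1) (nat_lit 0x300029242c81))) 
(.lf (nat_lit 20362936) (dlOf (nat_lit 1) (nat_lit 0x4002000200089da002)))) 
(.lf (nat_lit 41329656) (dlOf (nat_lit 1) (nat_lit 0x3000400020019242882)))) (.nd (nat_lit 8) 
(.nd (nat_lit 21) (.lf (nat_lit 60728504) (dlOf (nat_lit 1) (nat_lit 0xc00198c2c81))) 
(.lf (nat_lit 41854136) (dlOf (nat_lit 1) (nat_lit 0x20009242c81)))) 
(.lf (nat_lit 8299960) (dlOf (nat_lit 1) (nat_lit 0x38008000400200060008513603)))))))))))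

end

end Pool.Agent.Lib.MP_5854e1_co.Cz

namespace Pool.Agent.Lib.MP_5854e1_co.Cz

noncomputable section

noncomputable def tz22 : DT := (.nd (nat_lit 4) (.nd (nat_lit 5) (.nd (nat_lit 28) 
(.nd (nat_lit 21) (.nd (nat_lit 26) (.nd (nat_lit 17) (.nd (nat_lit 27) (.nd (nat_lit 19) 
(.nd (nat_lit 6) (.nd (nat_lit 18) (.nd (nat_lit 20) (.nd (nat_lit 7) 
(.lf (nat_lit 4295065608) (dlOf (nat_lit 1) (nat_lit 0x20008000800200040008030583))) 
(.lf (nat_lit 8487304) (dlOf (nat_lit 1) (nat_lit 0x800200020008511002)))) (.nd (nat_lit 23) 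
(.lf (nat_lit 17924104) (dlOf (nat_lit 1) (nat_lit 0x40018900581))) 
(.lf (nat_lit 9535496) (dlOf (nat_lit 1) (nat_lit 0x240018560481))))) (.nd (nat_lit 11) 
(.nd (nat_lit 29) 
(.lf (nat_lit 3221585928) (dlOf (nat_lit 9) (nat_lit 0xc08e0163202003404600a8381001a0230053e40800d0118029ee04006808c014f602003404600a63810019023000a6c0800d01180000004016400201820008150502))) 
(.lf (nat_lit 537231368) (dlOf (nat_lit 1) (nat_lit 0xa8008003c00200160008060483)))) 
(.lf (nat_lit 362504) (dlOf (nat_lit 1) (nat_lit 0x1c0008004701))))) (.nd (nat_lit 9) 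
(.nd (nat_lit 31) (.lf (nat_lit 99400) (dlOf (nat_lit 1) (nat_lit 0x20028002881))) 
(.lf (nat_lit 6442550344) (dlOf (nat_lit 1) (nat_lit 0x80080004002000200080f2883)))) 
(.lf (nat_lit 6442555976) (dlOf (nat_lit 1) (nat_lit 0x600180fb581))))) (.nd (nat_lit 18) 
(.nd (nat_lit 23) (.nd (nat_lit 6) 
(.lf (nat_lit 629384) (dlOf (nat_lit 1) (nat_lit 0x1000800080020004000800b683))) 
(.lf (nat_lit 537493576) (dlOf (nat_lit 1) (nat_lit 0x80080288002003800080a0e83)))) 
(.nd (nat_lit 20) (.lf (nat_lit 42565640) (dlOf (nat_lit 1) (nat_lit 0x1800400020009260002))) 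
(.lf (nat_lit 31031304) (dlOf (nat_lit 1) (nat_lit 0x400400260008e60582))))) (.nd (nat_lit 7) 
(.nd (nat_lit 23) (.lf (nat_lit 52264968) (dlOf (nat_lit 1) (nat_lit 0xa0029520001))) 
(.lf (nat_lit 10321928) (dlOf (nat_lit 1) (nat_lit 0x4002000200085d0482)))) 
(.lf (nat_lit 1933704) (dlOf (nat_lit 1) (nat_lit 0x8008040000200c60008150783)))))) 
(.nd (nat_lit 7) (.nd (nat_lit 18) (.nd (nat_lit 6) (.nd (nat_lit 31) 
(.lf (nat_lit 4429283336) (dlOf (nat_lit 1) (nat_lit 0x20008000800200040008030583))) 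
(.lf (nat_lit 6576766984) (dlOf (nat_lit 3) (nat_lit 0x2000006ec808000800003762040018004002000080d0002)))) 
(.lf (nat_lit 134840392) (dlOf (nat_lit 1) (nat_lit 0x20008000c002000200080c1483)))) 
(.nd (nat_lit 19) 
(.lf (nat_lit 3355803656) (dlOf (nat_lit 2) (nat_lit 0xec03200c50090032d4100010008000c002000e0008120003))) 
(.lf (nat_lit 2819457032) (dlOf (nat_lit 1) (nat_lit 0xc00200080008290282))))) (.nd (nat_lit 6) 
(.nd (nat_lit 8) (.nd (nat_lit 10) 
(.lf (nat_lit 1208320136) (dlOf (nat_lit 2) (nat_lit 0x80620004030000118280c0f00))) 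
(.lf (nat_lit 2818671752) (dlOf (nat_lit 1) (nat_lit 0x2a00280d2b01)))) 
(.lf (nat_lit 134319496) (dlOf (nat_lit 1) (nat_lit 0x13c0008006c81)))) (.nd (nat_lit 8) 
(.lf (nat_lit 134319304) (dlOf (nat_lit 1) (nat_lit 0x1000800e800200040008006383))) 
(.lf (nat_lit 134323144) (dlOf (nat_lit 2) (nat_lit 0x603b0003d01800be80))))))) (.nd (nat_lit 29) 
(.nd (nat_lit 6) (.nd (nat_lit 18) (.nd (nat_lit 7) (.nd (nat_lit 19) 
(.lf (nat_lit 29589512) (dlOf (nat_lit 1) (nat_lit 0x20018e20281))) 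
(.lf (nat_lit 13336584) (dlOf (nat_lit 1) (nat_lit 0x400200020008720802)))) 
(.lf (nat_lit 9666696) (dlOf (nat_lit 2) (nat_lit 0x271b0001b018570e00)))) (.nd (nat_lit 19) 
(.lf (nat_lit 13074440) (dlOf (nat_lit 1) (nat_lit 0x4004000200186f0002))) 
(.lf (nat_lit 47153160) (dlOf (nat_lit 1) (nat_lit 0x8004000200093b0002))))) (.nd (nat_lit 7) 
(.lf (nat_lit 4295196744) (dlOf (nat_lit 2) (nat_lit 0x40040003202000200180a0e01))) 
(.nd (nat_lit 9) (.lf (nat_lit 22249672) (dlOf (nat_lit 1) (nat_lit 0x1e0028ab5981))) 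
(.lf (nat_lit 8622792) (dlOf (nat_lit 1) (nat_lit 0x400200020008518c82)))))) (.nd (nat_lit 18) 
(.nd (nat_lit 6) (.nd (nat_lit 11) 
(.lf (nat_lit 2819325960) (dlOf (nat_lit 1) (nat_lit 0x6400400020008240282))) 
(.lf (nat_lit 5905811464) (dlOf (nat_lit 1) (nat_lit 0x400200020008144702)))) (.nd (nat_lit 7) 
(.lf (nat_lit 4832068680) (dlOf (nat_lit 1) (nat_lit 0x80080004002000200080d2883))) 
(.lf (nat_lit 4832068552) (dlOf (nat_lit 1) (nat_lit 0x4002000200080d2882))))) (.nd (nat_lit 7) 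
(.nd (nat_lit 27) (.lf (nat_lit 1611104264) (dlOf (nat_lit 1) (nat_lit 0x3200080e0001))) 
(.lf (nat_lit 2819063816) (dlOf (nat_lit 1) (nat_lit 0xb0008001400200100008190283)))) 
(.lf (nat_lit 537362568) (dlOf (nat_lit 2) (nat_lit 0x817c0002604002c00400020008090102))))))) 
(.nd (nat_lit 31) (.nd (nat_lit 29) (.nd (nat_lit 27) (.nd (nat_lit 17) (.nd (nat_lit 7) 
(.lf (nat_lit 5435916296) (dlOf (nat_lit 1) (nat_lit 0x400400e40008030002))) 
(.lf (nat_lit 5435916424) (dlOf (nat_lit 5) (nat_lit 0x200fc001807c000a03a000601a800200000006c14001007400080000001a82000701f800400f8001c074000e035000a0000000d02800400fc002407c000e03a000701a8000ac200030008003000200020008030e03)))) 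
(.nd (nat_lit 18) 
(.lf (nat_lit 4362305544) (dlOf (nat_lit 1) (nat_lit 0x18008001400200040008020483))) 
(.lf (nat_lit 68124680) (dlOf (nat_lit 1) (nat_lit 0x400400020008400002))))) (.nd (nat_lit 6) 
(.nd (nat_lit 7) (.lf (nat_lit 4496654344) (dlOf (nat_lit 1) (nat_lit 0x400400020008110002))) 
(.lf (nat_lit 201426824) (dlOf (nat_lit 1) (nat_lit 0x4004001a0018004182)))) 
(.lf (nat_lit 4496393800) (dlOf (nat_lit 1) (nat_lit 0x400400020008053802))))) (.nd (nat_lit 6) 
(.nd (nat_lit 17) (.nd (nat_lit 19) 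
(.lf (nat_lit 5972787208) (dlOf (nat_lit 3) (nat_lit 0x2000006194080008000030c8040018004002000080d0002))) 
(.lf (nat_lit 1678344200) (dlOf (nat_lit 1) (nat_lit 0xf00080044002001200081f0583)))) 
(.nd (nat_lit 10) (.lf (nat_lit 738689032) (dlOf (nat_lit 1) (nat_lit 0x3200080e0001))) 
(.lf (nat_lit 4899179528) (dlOf (nat_lit 1) (nat_lit 0x4004000200080d5f82))))) (.nd (nat_lit 7) 
(.nd (nat_lit 8) 
(.lf (nat_lit 1677951560) (dlOf (nat_lit 1) (nat_lit 0xc8008002c00200040008128d03))) 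
(.lf (nat_lit 4899179336) (dlOf (nat_lit 2) (nat_lit 0x100640008e02000200180d5c01)))) 
(.lf (nat_lit 1812041416) (dlOf (nat_lit 1) (nat_lit 0x20018147301)))))) (.nd (nat_lit 30) 
(.nd (nat_lit 7) (.nd (nat_lit 6) (.nd (nat_lit 8) (.nd (nat_lit 10) 
(.lf (nat_lit 2752741384) (dlOf (nat_lit 2) (nat_lit 0x20028001d40800c8008008c00200ae0008030483))) 
(.lf (nat_lit 2751693832) (dlOf (nat_lit 1) (nat_lit 0x20008002881)))) 
(.lf (nat_lit 2752349960) (dlOf (nat_lit 1) (nat_lit 0x20018003b81)))) (.nd (nat_lit 9) 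
(.lf (nat_lit 2348908616) (dlOf (nat_lit 2) (nat_lit 0x180140000b408049800800e8002015a0008020883))) 
(.lf (nat_lit 2753135176) (dlOf (nat_lit 10) (nat_lit 0x32824c000a0ff801105740004c0c065c49800161ff00220ae801085700004a100648498000c1ff00220ae8000901800187fc0004604000c3fe0001e0200061ff0000d8101351260003892c0002e080484498000c1ff000098200350ff8000000804b8008027400203420008091103))))) 
(.nd (nat_lit 8) (.nd (nat_lit 17) 
(.lf (nat_lit 2885779592) (dlOf (nat_lit 1) (nat_lit 0x1c0028063d01))) 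
(.lf (nat_lit 2349039752) (dlOf (nat_lit 2) (nat_lit 0x3001e0004a0200020028090101)))) 
(.nd (nat_lit 6) (.lf (nat_lit 2753134984) (dlOf (nat_lit 1) (nat_lit 0xa0008090781))) 
(.lf (nat_lit 2753135048) (dlOf (nat_lit 6) (nat_lit 0x221fa0000e01000d0fd0000680800087e8000280400443f4000130200581f900000018090980)))))) 
(.nd (nat_lit 6) (.nd (nat_lit 8) (.nd (nat_lit 27) 
(.lf (nat_lit 3288694792) (dlOf (nat_lit 1) (nat_lit 0x7c004003400080c0802))) 
(.lf (nat_lit 3959783432) (dlOf (nat_lit 9) (nat_lit 0x6808c0167602003404600b3001001a0230059780800d011802cba04006808c0163202000604700a63810019023000a540800d01180000004016400201820008150502)))) 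
(.nd (nat_lit 7) 
(.lf (nat_lit 3422650632) (dlOf (nat_lit 4) (nat_lit 0x3806000a400200180330051701000101980289c0800600080028002001e0008014803))) 
(.lf (nat_lit 3825307016) (dlOf (nat_lit 1) (nat_lit 0x20028146c81))))) (.nd (nat_lit 9) 
(.nd (nat_lit 18) 
(.lf (nat_lit 3960045640) (dlOf (nat_lit 2) (nat_lit 0xe8046001e022800f00e0000000c000c002003200081a1882))) 
(.lf (nat_lit 3288694856) (dlOf (nat_lit 1) (nat_lit 0x980080004002000200080c1483)))) 
(.lf (nat_lit 3288433224) (dlOf (nat_lit 2) (nat_lit 0xa036000d0158012c41000f0008004400200120008018803)))))))) 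
(.nd (nat_lit 19) (.nd (nat_lit 23) (.nd (nat_lit 6) (.nd (nat_lit 7) (.nd (nat_lit 8) 
(.nd (nat_lit 20) (.lf (nat_lit 2588680) (dlOf (nat_lit 1) (nat_lit 0x2c00200160008170002))) 
(.lf (nat_lit 37191688) (dlOf (nat_lit 1) (nat_lit 0x600290b0001)))) 
(.lf (nat_lit 40993032) (dlOf (nat_lit 1) (nat_lit 0x60019203581)))) (.nd (nat_lit 8) 
(.lf (nat_lit 23560328) (dlOf (nat_lit 1) (nat_lit 0x800200020008b80102))) 
(.lf (nat_lit 2754840968) (dlOf (nat_lit 1) (nat_lit 0x4002000200080f4e82))))) (.nd (nat_lit 9) 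
(.nd (nat_lit 17) (.lf (nat_lit 24215624) (dlOf (nat_lit 1) (nat_lit 0x400200020008b90e02))) 
(.nd (nat_lit 18) 
(.lf (nat_lit 24346696) (dlOf (nat_lit 1) (nat_lit 0x10008000800200060008b90e03))) 
(.lf (nat_lit 3637320) (dlOf (nat_lit 2) (nat_lit 0x119b200100000000600800dc00200600008210e02))))) 
(.nd (nat_lit 17) 
(.lf (nat_lit 23429704) (dlOf (nat_lit 1) (nat_lit 0x10008000400200020008b81103))) 
(.lf (nat_lit 23298632) (dlOf (nat_lit 1) (nat_lit 0x400400020008b81102)))))) (.nd (nat_lit 6) 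
(.nd (nat_lit 7) (.nd (nat_lit 17) 
(.lf (nat_lit 28409864) (dlOf (nat_lit 1) (nat_lit 0x80008d90281))) 
(.lf (nat_lit 44269576) (dlOf (nat_lit 1) (nat_lit 0x200192e0001)))) (.nd (nat_lit 18) 
(.nd (nat_lit 24) (.lf (nat_lit 11763848) (dlOf (nat_lit 1) (nat_lit 0x80080004002000200086c0103))) 
(.lf (nat_lit 62095496) (dlOf (nat_lit 1) (nat_lit 0x20029950e01)))) (.nd (nat_lit 8) 
(.lf (nat_lit 11894920) (dlOf (nat_lit 1) (nat_lit 0x80080008002000200086c0103))) 
(.lf (nat_lit 12026248) (dlOf (nat_lit 1) (nat_lit 0x800802c4002009400086c0783)))))) 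
(.nd (nat_lit 9) (.nd (nat_lit 8) 
(.lf (nat_lit 62226504) (dlOf (nat_lit 1) (nat_lit 0x400400020009981382))) 
(.lf (nat_lit 11764040) (dlOf (nat_lit 1) (nat_lit 0x100080004002000200086c0603)))) 
(.nd (nat_lit 17) (.lf (nat_lit 11633224) (dlOf (nat_lit 1) (nat_lit 0x4002000200086c1102))) 
(.lf (nat_lit 12026440) (dlOf (nat_lit 1) (nat_lit 0x4002000200086c1102))))))) (.nd (nat_lit 8) 
(.nd (nat_lit 18) (.nd (nat_lit 7) (.nd (nat_lit 26) (.nd (nat_lit 17) 
(.lf (nat_lit 11108360) (dlOf (nat_lit 1) (nat_lit 0x280080018002000c0008660003))) 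
(.lf (nat_lit 2850824) (dlOf (nat_lit 1) (nat_lit 0x200281c0481)))) (.nd (nat_lit 6) 
(.lf (nat_lit 2755231752) (dlOf (nat_lit 3) (nat_lit 0x80110028cc0800380880145004002000400120008130482))) 
(.lf (nat_lit 2754183240) (dlOf (nat_lit 4) (nat_lit 0x1e03f2001550200e81f9000a981007b0fc8000000801f000800f000200a800080c1883))))) 
(.nd (nat_lit 10) (.lf (nat_lit 23691400) (dlOf (nat_lit 1) (nat_lit 0x8008000400200020008b80103))) 
(.lf (nat_lit 49906824) (dlOf (nat_lit 1) (nat_lit 0x4004000200094c2b02))))) (.nd (nat_lit 20) 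
(.nd (nat_lit 6) (.lf (nat_lit 15564808) (dlOf (nat_lit 1) (nat_lit 0xe40028800281))) 
(.lf (nat_lit 53313608) (dlOf (nat_lit 1) (nat_lit 0x1a0029590601)))) (.nd (nat_lit 9) 
(.nd (nat_lit 22) (.lf (nat_lit 2755493896) (dlOf (nat_lit 1) (nat_lit 0xa00181a0001))) 
(.lf (nat_lit 25001992) (dlOf (nat_lit 1) (nat_lit 0x10008001000200040008bd0583)))) 
(.lf (nat_lit 8231432) (dlOf (nat_lit 1) (nat_lit 0x2001851b281)))))) (.nd (nat_lit 9) 
(.nd (nat_lit 6) (.nd (nat_lit 7) 
(.lf (nat_lit 36406536) (dlOf (nat_lit 1) (nat_lit 0x20019072f81))) (.nd (nat_lit 11) 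
(.lf (nat_lit 8356232) (dlOf (nat_lit 1) (nat_lit 0x20008511001))) 
(.lf (nat_lit 20547976) (dlOf (nat_lit 2) (nat_lit 0x582200c8b0189d4e80))))) (.nd (nat_lit 7) 
(.nd (nat_lit 10) (.lf (nat_lit 23953736) (dlOf (nat_lit 1) (nat_lit 0x400200480008b80602))) 
(.lf (nat_lit 49907016) (dlOf (nat_lit 1) (nat_lit 0x600080044002001600094c3303)))) 
(.lf (nat_lit 7963080) (dlOf (nat_lit 1) (nat_lit 0x280008511101))))) (.nd (nat_lit 11) 
(.nd (nat_lit 18) (.nd (nat_lit 20) 
(.lf (nat_lit 57246664) (dlOf (nat_lit 1) (nat_lit 0x2000400060009792882))) 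
(.lf (nat_lit 49906632) (dlOf (nat_lit 1) (nat_lit 0xc004000200094c2882)))) 
(.lf (nat_lit 8225736) (dlOf (nat_lit 1) (nat_lit 0xc0018512881)))) (.nd (nat_lit 6) 
(.lf (nat_lit 19762056) (dlOf (nat_lit 1) (nat_lit 0x8008000c002000200089d5c03))) 
(.lf (nat_lit 19893064) (dlOf (nat_lit 1) (nat_lit 0x4002000200089d5c02))))))))) (.nd (nat_lit 27) 
(.nd (nat_lit 18) (.nd (nat_lit 6) (.nd (nat_lit 8) (.nd (nat_lit 17) (.nd (nat_lit 20) 
(.nd (nat_lit 21) 
(.lf (nat_lit 805928968) (dlOf (nat_lit 1) (nat_lit 0xf00080044002001200081f0583))) 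
(.lf (nat_lit 4096360456) (dlOf (nat_lit 1) (nat_lit 0x2800200020008100002)))) 
(.lf (nat_lit 3493429256) (dlOf (nat_lit 3) (nat_lit 0x80110012780800380880092604002000400120008130482)))) 
(.nd (nat_lit 7) (.nd (nat_lit 19) 
(.lf (nat_lit 3490938888) (dlOf (nat_lit 2) (nat_lit 0x20028001d40800c8008008c00200ae0008030483))) 
(.lf (nat_lit 1342930952) (dlOf (nat_lit 8) (nat_lit 0x1823c00090b980046c10000890c0028478000e23700030b98004642000385cc001f404000c486000e23c0007b82000111780015c0800488bc001044c0000504001422f000411300000c1001280080018002002a0008110583)))) 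
(.lf (nat_lit 3489893512) (dlOf (nat_lit 2) (nat_lit 0x21d400000018006180))))) (.nd (nat_lit 11) 
(.nd (nat_lit 7) (.nd (nat_lit 9) 
(.lf (nat_lit 4094263560) (dlOf (nat_lit 1) (nat_lit 0x8008000400200020008027c03))) 
(.lf (nat_lit 3493037832) (dlOf (nat_lit 5) (nat_lit 0x601400002402003c0a00001101000a0530002021c000320800101500001802000a00180f3b81)))) 
(.lf (nat_lit 3491332488) (dlOf (nat_lit 2) (nat_lit 0x841e700440018090780)))) (.nd (nat_lit 10) 
(.nd (nat_lit 31) (.lf (nat_lit 5637245320) (dlOf (nat_lit 1) (nat_lit 0x400008054e81))) 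
(.lf (nat_lit 3489761672) (dlOf (nat_lit 1) (nat_lit 0x400200020008004e82)))) 
(.lf (nat_lit 1946258824) (dlOf (nat_lit 1) (nat_lit 0xc0008006c81)))))) (.nd (nat_lit 19) 
(.nd (nat_lit 8) (.nd (nat_lit 9) (.nd (nat_lit 17) 
(.lf (nat_lit 2483126344) (dlOf (nat_lit 2) (nat_lit 0x180140000b408049800800e8002015a0008020883))) 
(.lf (nat_lit 1342406728) (dlOf (nat_lit 2) (nat_lit 0x1441c70001c018020880)))) 
(.lf (nat_lit 2416149064) (dlOf (nat_lit 2) (nat_lit 0x40110000b818091100)))) (.nd (nat_lit 7) 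
(.nd (nat_lit 10) (.lf (nat_lit 3493953864) (dlOf (nat_lit 1) (nat_lit 0x200081b0601))) 
(.lf (nat_lit 3489893704) (dlOf (nat_lit 2) (nat_lit 0x2623000008018006980)))) 
(.lf (nat_lit 4563504072) (dlOf (nat_lit 3) (nat_lit 0x500520001d0200200310000a818095d80))))) 
(.nd (nat_lit 20) (.nd (nat_lit 21) (.nd (nat_lit 26) 
(.lf (nat_lit 1342799944) (dlOf (nat_lit 1) (nat_lit 0x4004000200080d0e02))) 
(.lf (nat_lit 1409908808) (dlOf (nat_lit 2) (nat_lit 0x36809000040040008002000600080a0e02)))) 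
(.lf (nat_lit 3492380744) (dlOf (nat_lit 2) (nat_lit 0xc01e7000170180c1480)))) (.nd (nat_lit 7) 
(.lf (nat_lit 3491332680) (dlOf (nat_lit 10) (nat_lit 0x328234000a0f6801105600004c0c065c46800161ed00220ac0010855c0004a100648468000c1ed00220ac0000901800187b40004604000c3da0001e0200061ed0000d81013511a000388cc0002e080484468000c1ed000098200350f68000000804b8008027400203420008091103))) 
(.lf (nat_lit 3491332552) (dlOf (nat_lit 6) (nat_lit 0x221e80000f81000d0f40000680800087a0000280400443d0000130200581e700000018090980))))))) 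
(.nd (nat_lit 17) (.nd (nat_lit 21) (.nd (nat_lit 26) (.nd (nat_lit 31) (.nd (nat_lit 22) 
(.lf (nat_lit 1342537736) (dlOf (nat_lit 11) (nat_lit 0x209400010400007101000082500004102001c2040002081000e00100020408006f8080008250002ee04001448e000e243000611e000308dc000c3a2000a1cd00060e28003070400202e60011b12000c2470006121800308f0001846e00101d100070e680030714001c382001191000081c10008b810001121800408f0000446e000c1d100070e680030714000438200121730007d0800051238005890c0020478000c23700060e880060734001838a00041c1000a0b98003dc48005800800b4002003a0008050583))) 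
(.lf (nat_lit 1346732040) (dlOf (nat_lit 1) (nat_lit 0x8008000400200020009000003)))) 
(.nd (nat_lit 20) (.lf (nat_lit 4026892296) (dlOf (nat_lit 1) (nat_lit 0x7c004003400080c0802))) 
(.lf (nat_lit 3491069960) (dlOf (nat_lit 1) (nat_lit 0x20008050001))))) (.nd (nat_lit 19) 
(.lf (nat_lit 1409646600) (dlOf (nat_lit 1) (nat_lit 0xa8008003c00200160008060483))) 
(.nd (nat_lit 31) (.lf (nat_lit 1410170888) (dlOf (nat_lit 1) (nat_lit 0x4002000c0008160002))) 
(.lf (nat_lit 3557654536) (dlOf (nat_lit 1) (nat_lit 0xc00200080008290282)))))) (.nd (nat_lit 7) 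
(.nd (nat_lit 6) (.nd (nat_lit 8) (.nd (nat_lit 11) 
(.lf (nat_lit 3493691400) (dlOf (nat_lit 1) (nat_lit 0xa00181a0001))) 
(.lf (nat_lit 3493169160) (dlOf (nat_lit 6) (nat_lit 0x24e0890002a0101280448001440803c03000009e040158180016e08c007c04580013818001822c0000004004c004002200080f4702)))) 
(.lf (nat_lit 3493168904) (dlOf (nat_lit 3) (nat_lit 0x608a00028810002043800064080330008007800200a000080f3b83)))) 
(.lf (nat_lit 3492118600) (dlOf (nat_lit 1) (nat_lit 0x4004000400080a0e02)))) (.nd (nat_lit 8) 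
(.lf (nat_lit 3493169288) (dlOf (nat_lit 5) (nat_lit 0x6d03000007a04035c1800003c0201b20c00001d81009806000004c0800180080094002006200080f4803))) 
(.lf (nat_lit 4096098696) (dlOf (nat_lit 1) (nat_lit 0x400280e1001)))))) (.nd (nat_lit 6) 
(.nd (nat_lit 7) (.nd (nat_lit 8) 
(.lf (nat_lit 3492775944) (dlOf (nat_lit 1) (nat_lit 0x400080018002001000080f4703))) 
(.nd (nat_lit 20) (.lf (nat_lit 1342669064) (dlOf (nat_lit 1) (nat_lit 0x1b400400ae00080c0482))) 
(.lf (nat_lit 1345814792) (dlOf (nat_lit 1) (nat_lit 0xc00200020008e03a02))))) (.nd (nat_lit 11) 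
(.nd (nat_lit 26) (.lf (nat_lit 1342668936) (dlOf (nat_lit 1) (nat_lit 0x4002000200080c0102))) 
(.lf (nat_lit 1409777800) (dlOf (nat_lit 2) (nat_lit 0x817c0002604002c00400020008090102)))) 
(.nd (nat_lit 19) 
(.lf (nat_lit 1946650760) (dlOf (nat_lit 1) (nat_lit 0x38008000c002000200080f4803))) 
(.lf (nat_lit 3492776072) (dlOf (nat_lit 1) (nat_lit 0x2c004000200080f4802)))))) (.nd (nat_lit 8) 
(.nd (nat_lit 21) (.nd (nat_lit 9) 
(.lf (nat_lit 4095180872) (dlOf (nat_lit 2) (nat_lit 0x98000000000400cc002000c0008070602))) 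
(.lf (nat_lit 1342669384) (dlOf (nat_lit 5) (nat_lit 0x1d11e00013c080028550000900400282a8000470200021540001c0180c1100)))) 
(.nd (nat_lit 10) (.lf (nat_lit 1344766024) (dlOf (nat_lit 1) (nat_lit 0x1c00400300008980002))) 
(.lf (nat_lit 1345291336) (dlOf (nat_lit 1) (nat_lit 0x400400020008b52882))))) (.nd (nat_lit 19) 
(.lf (nat_lit 1342669128) (dlOf (nat_lit 1) (nat_lit 0x80080008002000400080c0603))) 
(.lf (nat_lit 1344241992) (dlOf (nat_lit 1) (nat_lit 0xb5000800dc00200180008520783)))))))) 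
(.nd (nat_lit 17) (.nd (nat_lit 18) (.nd (nat_lit 29) (.nd (nat_lit 26) (.nd (nat_lit 8) 
(.nd (nat_lit 19) (.lf (nat_lit 3623977096) (dlOf (nat_lit 1) (nat_lit 0x1c0028063d01))) 
(.lf (nat_lit 5771985032) (dlOf (nat_lit 4) (nat_lit 0x3029e001814e00100a68008850c0006a10005c29e002c14e00110a680078518005c286000340a001814f00140a700060534003028c001a14300020808000a83000080080018002001a0008030f03)))) 
(.lf (nat_lit 4697719176) (dlOf (nat_lit 1) (nat_lit 0x7400200120008091002)))) (.nd (nat_lit 6) 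
(.lf (nat_lit 2617344648) (dlOf (nat_lit 1) (nat_lit 0x80080004002000200080a1a03))) 
(.nd (nat_lit 8) 
(.lf (nat_lit 2617344584) (dlOf (nat_lit 2) (nat_lit 0x240660001902000400180a1581))) 
(.lf (nat_lit 5838576968) (dlOf (nat_lit 1) (nat_lit 0x180080014002000200080fc903)))))) 
(.nd (nat_lit 7) (.nd (nat_lit 8) (.nd (nat_lit 9) 
(.lf (nat_lit 5301698568) (dlOf (nat_lit 1) (nat_lit 0x400400e40008030002))) 
(.lf (nat_lit 6375441928) (dlOf (nat_lit 1) (nat_lit 0x6c0018003681)))) 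
(.lf (nat_lit 6378062088) (dlOf (nat_lit 1) (nat_lit 0xc00080f3581)))) (.nd (nat_lit 6) 
(.nd (nat_lit 19) 
(.lf (nat_lit 5301698696) (dlOf (nat_lit 4) (nat_lit 0x1007e000a03e000501d000280dc0006a10001c07e001203e000801d000380dc0050000000340a000403f000701f000380e8000406e0002a0800120018030f01))) 
(.lf (nat_lit 6375964808) (dlOf (nat_lit 5) (nat_lit 0x10280000813f000609f000304d00006c10019026e00035020010140000609f800304f8001826e000e1340001a0500070a0000384fc001827c000c137000709a000303d00005618001800400020018030e02)))) 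
(.lf (nat_lit 6375964872) (dlOf (nat_lit 1) (nat_lit 0xe60008031781)))))) (.nd (nat_lit 7) 
(.nd (nat_lit 26) (.nd (nat_lit 6) 
(.lf (nat_lit 5234851848) (dlOf (nat_lit 1) (nat_lit 0x300028100001))) (.nd (nat_lit 10) 
(.lf (nat_lit 5772247112) (dlOf (nat_lit 1) (nat_lit 0x400400020018090002))) 
(.lf (nat_lit 5772248136) (dlOf (nat_lit 1) (nat_lit 0x400400020008092882))))) (.nd (nat_lit 20) 
(.nd (nat_lit 31) 
(.lf (nat_lit 470122504) (dlOf (nat_lit 11) (nat_lit 0x209400010400007101000082500004102001c2040002081000e00100020408006f8080008250002ea04001448e000e243000611e000308dc000c3a2000a1cd00060e28003070400202e20011712000c2470006121800308f0001846e00101d100070e680030714001c382001151000081c100089810001121800408f0000446e000c1d100070e680030714000438200121710007d8800051238005890c0020478000c23700060e880060734001838a00041c1000a0b88003dc48005800800b4002003a0008050583))) 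
(.lf (nat_lit 2617606152) (dlOf (nat_lit 1) (nat_lit 0x1400400120018100002)))) 
(.lf (nat_lit 471171080) (dlOf (nat_lit 1) (nat_lit 0x94004001c00082a0002))))) (.nd (nat_lit 6) 
(.nd (nat_lit 8) (.nd (nat_lit 29) 
(.lf (nat_lit 3691348104) (dlOf (nat_lit 1) (nat_lit 0x400200040008160482))) 
(.lf (nat_lit 2080735368) (dlOf (nat_lit 2) (nat_lit 0x4031000120180c0e00)))) 
(.lf (nat_lit 6377802120) (dlOf (nat_lit 1) (nat_lit 0xc004000600080e4e82)))) (.nd (nat_lit 10) 
(.nd (nat_lit 19) 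
(.lf (nat_lit 2080735432) (dlOf (nat_lit 1) (nat_lit 0x180080044002001000080c1783))) 
(.lf (nat_lit 470646984) (dlOf (nat_lit 1) (nat_lit 0xe0018150401)))) 
(.lf (nat_lit 3624242376) (dlOf (nat_lit 3) (nat_lit 0xec03a003c01c001e0000000c81800300000004604003c00400540018146382))))))) 
(.nd (nat_lit 29) (.nd (nat_lit 6) (.nd (nat_lit 7) (.nd (nat_lit 26) (.nd (nat_lit 30) 
(.lf (nat_lit 4697849864) (dlOf (nat_lit 1) (nat_lit 0x4400080a0001))) 
(.lf (nat_lit 1476624392) (dlOf (nat_lit 2) (nat_lit 0x68007000f00180a0480)))) (.nd (nat_lit 9) 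
(.nd (nat_lit 19) (.nd (nat_lit 20) 
(.lf (nat_lit 3691216904) (dlOf (nat_lit 3) (nat_lit 0x2801c000ed01000600e8006ec080040008020800201d200080a0483))) 
(.lf (nat_lit 471040008) (dlOf (nat_lit 4) (nat_lit 0x20584000c13a00c0a04000a09d0060481000404e803020080030008003c00200120008250283)))) 
(.lf (nat_lit 470515720) (dlOf (nat_lit 8) (nat_lit 0x1823c00090b880045c10000890c0028478000e23700030b88004542000385c4001f604000c486000e23c0007b8200011178001640800488bc001044c0000604001422f00041130000101001280080018002002a0008110583)))) 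
(.lf (nat_lit 474187272) (dlOf (nat_lit 7) (nat_lit 0x160b90001780800805c8000ba0400342e40005b0200121720002d01000a0000000fc0800d800000068040014002001600090e3682))))) 
(.nd (nat_lit 8) (.lf (nat_lit 470253704) (dlOf (nat_lit 1) (nat_lit 0x4002000200080c0102))) 
(.nd (nat_lit 20) 
(.lf (nat_lit 474186120) (dlOf (nat_lit 2) (nat_lit 0x382e40000002000400290e1001))) 
(.lf (nat_lit 5772640648) (dlOf (nat_lit 2) (nat_lit 0x1098000580080060008000400200060008091003)))))) 
(.nd (nat_lit 9) (.nd (nat_lit 8) (.nd (nat_lit 10) 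
(.lf (nat_lit 469991496) (dlOf (nat_lit 2) (nat_lit 0x1441c70001c018020880))) 
(.lf (nat_lit 472876104) (dlOf (nat_lit 1) (nat_lit 0x400400020008b52882)))) 
(.lf (nat_lit 470253896) (dlOf (nat_lit 1) (nat_lit 0x80080008002000400080c0603)))) 
(.nd (nat_lit 7) (.nd (nat_lit 18) 
(.lf (nat_lit 2550366792) (dlOf (nat_lit 2) (nat_lit 0x40110000b818091100))) 
(.lf (nat_lit 470254152) (dlOf (nat_lit 5) (nat_lit 0x1d11e00013c080028550000900400282a8000470200021540001c0180c1100)))) 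
(.lf (nat_lit 472351688) (dlOf (nat_lit 1) (nat_lit 0x20028982881)))))) (.nd (nat_lit 8) 
(.nd (nat_lit 10) (.nd (nat_lit 19) 
(.lf (nat_lit 4228087816) (dlOf (nat_lit 1) (nat_lit 0x18008001400200040008020483))) 
(.nd (nat_lit 21) 
(.lf (nat_lit 1007386632) (dlOf (nat_lit 1) (nat_lit 0x8008000400200020008310583))) 
(.lf (nat_lit 1009483784) (dlOf (nat_lit 1) (nat_lit 0x4004000200091a0002))))) (.nd (nat_lit 6) 
(.lf (nat_lit 5234721800) (dlOf (nat_lit 1) (nat_lit 0x900080040002000400080d2883))) 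
(.lf (nat_lit 5234721864) (dlOf (nat_lit 1) (nat_lit 0x4004000200080d2882))))) (.nd (nat_lit 7) 
(.lf (nat_lit 1008959752) (dlOf (nat_lit 1) (nat_lit 0x20029000a81))) (.nd (nat_lit 10) 
(.lf (nat_lit 2080604552) (dlOf (nat_lit 1) (nat_lit 0x800200020008091002))) 
(.lf (nat_lit 5234722184) (dlOf (nat_lit 1) (nat_lit 0x200180d3601)))))))))) (.nd (nat_lit 17) 
(.nd (nat_lit 18) (.nd (nat_lit 8) (.nd (nat_lit 19) (.nd (nat_lit 26) (.nd (nat_lit 20) 
(.nd (nat_lit 12) (.nd (nat_lit 21) 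
(.lf (nat_lit 6576767016) (dlOf (nat_lit 3) (nat_lit 0x801a0008000004750200020000023a40800b80080020002000200080d0a03))) 
(.lf (nat_lit 23167016) (dlOf (nat_lit 2) (nat_lit 0x75e40009aeb40002808000800400040008b60882)))) 
(.nd (nat_lit 6) (.lf (nat_lit 8491688) (dlOf (nat_lit 1) (nat_lit 0x400200020008518c82))) 
(.lf (nat_lit 1342280808) (dlOf (nat_lit 2) (nat_lit 0x2b04e800088080020008001c00200020008009403))))) 
(.nd (nat_lit 22) (.nd (nat_lit 28) 
(.lf (nat_lit 1146920) (dlOf (nat_lit 1) (nat_lit 0x1c00400020008080582))) 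
(.lf (nat_lit 3490807848) (dlOf (nat_lit 1) (nat_lit 0xa0004004e0008020502)))) (.nd (nat_lit 23) 
(.lf (nat_lit 22118440) (dlOf (nat_lit 2) (nat_lit 0x328d40004204003000400260018a90582))) 
(.lf (nat_lit 13729832) (dlOf (nat_lit 2) (nat_lit 0xde5580001f818740500)))))) (.nd (nat_lit 6) 
(.nd (nat_lit 7) (.nd (nat_lit 20) 
(.lf (nat_lit 5972787240) (dlOf (nat_lit 3) (nat_lit 0x801a0008000006c70200020000036340800b80080020002000200080d0a03))) 
(.lf (nat_lit 2752610344) (dlOf (nat_lit 1) (nat_lit 0xa0004004e0008020502)))) 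
(.lf (nat_lit 3825306792) (dlOf (nat_lit 1) (nat_lit 0x20008146281)))) (.nd (nat_lit 7) 
(.nd (nat_lit 9) 
(.lf (nat_lit 469867624) (dlOf (nat_lit 4) (nat_lit 0x48584000c13a00022040024161000d04e80090238000400c00502c2001c09d00130470000601802a800800b00020040000800c083))) 
(.lf (nat_lit 2617344616) (dlOf (nat_lit 2) (nat_lit 0x780d00006a040018002000e00080a1802)))) 
(.nd (nat_lit 11) 
(.lf (nat_lit 335642856) (dlOf (nat_lit 2) (nat_lit 0xe400c80648058006001c01cc00d00050000002f42801f8008001000200080008090a83))) 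
(.lf (nat_lit 201427176) (dlOf (nat_lit 1) (nat_lit 0x70008023c00200360008004b03))))))) 
(.nd (nat_lit 30) (.nd (nat_lit 24) (.nd (nat_lit 6) (.nd (nat_lit 21) 
(.lf (nat_lit 537493544) (dlOf (nat_lit 1) (nat_lit 0xa00180a0901))) 
(.lf (nat_lit 2754183208) (dlOf (nat_lit 4) (nat_lit 0x200fc01038564000320800e43f0046c1590000c0200c00ac800054080050008000c002003e00080c0d03)))) 
(.nd (nat_lit 9) 
(.lf (nat_lit 9016424) (dlOf (nat_lit 2) (nat_lit 0x3f2630001a4080008008000800200020008519403))) 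
(.lf (nat_lit 627304) (dlOf (nat_lit 1) (nat_lit 0x3a0028008981))))) (.nd (nat_lit 9) 
(.nd (nat_lit 21) (.lf (nat_lit 22642728) (dlOf (nat_lit 1) (nat_lit 0x1a0028b10881))) 
(.lf (nat_lit 24739880) (dlOf (nat_lit 1) (nat_lit 0x1640008bb0a01)))) 
(.lf (nat_lit 50954792) (dlOf (nat_lit 2) (nat_lit 0x32580001e4080048008002c002001000094d8883))))) 
(.nd (nat_lit 26) (.nd (nat_lit 6) (.nd (nat_lit 21) 
(.lf (nat_lit 3892936744) (dlOf (nat_lit 2) (nat_lit 0x6406e0006018000178282a0b00))) 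
(.lf (nat_lit 3492380712) (dlOf (nat_lit 3) (nat_lit 0x4b02a80001602009a1e60000a0180c0c00)))) 
(.lf (nat_lit 3490286824) (dlOf (nat_lit 1) (nat_lit 0xc00400020008006502)))) (.nd (nat_lit 21) 
(.nd (nat_lit 27) (.lf (nat_lit 1409908776) (dlOf (nat_lit 1) (nat_lit 0xa00180a0901))) 
(.lf (nat_lit 3960045608) (dlOf (nat_lit 1) (nat_lit 0x50008002c002001400081a0d03)))) 
(.lf (nat_lit 4096360488) (dlOf (nat_lit 1) (nat_lit 0x670008020000201ae0008100383))))))) 
(.nd (nat_lit 6) (.nd (nat_lit 28) (.nd (nat_lit 7) (.nd (nat_lit 21) 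
(.lf (nat_lit 604078376) (dlOf (nat_lit 1) (nat_lit 0x8008009800201920008010703))) 
(.lf (nat_lit 2195752) (dlOf (nat_lit 1) (nat_lit 0x8008006c00200220008150503)))) (.nd (nat_lit 9) 
(.nd (nat_lit 11) (.lf (nat_lit 1677820328) (dlOf (nat_lit 1) (nat_lit 0x40028090781))) 
(.lf (nat_lit 53578152) (dlOf (nat_lit 1) (nat_lit 0x380080010002000400095f4e83)))) 
(.lf (nat_lit 536971176) (dlOf (nat_lit 1) (nat_lit 0x400200020008004302))))) (.nd (nat_lit 9) 
(.nd (nat_lit 10) (.lf (nat_lit 1345421736) (dlOf (nat_lit 1) (nat_lit 0x1a0028bb1001))) 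
(.nd (nat_lit 27) 
(.lf (nat_lit 6241224104) (dlOf (nat_lit 1) (nat_lit 0x600080014002001c0008053603))) 
(.lf (nat_lit 6375441832) (dlOf (nat_lit 1) (nat_lit 0x540018003601))))) (.nd (nat_lit 7) 
(.lf (nat_lit 3087107880) (dlOf (nat_lit 1) (nat_lit 0x40018143d01))) 
(.lf (nat_lit 5637245864) (dlOf (nat_lit 3) (nat_lit 0x1300a800f001000580060001706002e01500200020000441000b00080068002001a0008055d03)))))) 
(.nd (nat_lit 7) (.nd (nat_lit 10) (.nd (nat_lit 11) (.nd (nat_lit 20) 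
(.lf (nat_lit 6643876200) (dlOf (nat_lit 1) (nat_lit 0x820028017401))) 
(.lf (nat_lit 3244392) (dlOf (nat_lit 1) (nat_lit 0xd0008005000200100008200703)))) 
(.lf (nat_lit 738298216) (dlOf (nat_lit 1) (nat_lit 0x160028094e81)))) (.nd (nat_lit 9) 
(.lf (nat_lit 101736) (dlOf (nat_lit 1) (nat_lit 0x400400040008006a82))) 
(.lf (nat_lit 1342279528) (dlOf (nat_lit 1) (nat_lit 0x10008001000200060008007783))))) 
(.nd (nat_lit 10) (.nd (nat_lit 23) (.nd (nat_lit 26) 
(.lf (nat_lit 100840) (dlOf (nat_lit 1) (nat_lit 0x20028004e81))) 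
(.lf (nat_lit 5838572008) (dlOf (nat_lit 1) (nat_lit 0x80080004002000200080f4e83)))) 
(.nd (nat_lit 9) (.lf (nat_lit 49908200) (dlOf (nat_lit 1) (nat_lit 0x80080008002000200094c4e83))) 
(.lf (nat_lit 8494056) (dlOf (nat_lit 1) (nat_lit 0x18004000a000851bf02))))) (.nd (nat_lit 11) 
(.nd (nat_lit 20) 
(.lf (nat_lit 4496393704) (dlOf (nat_lit 1) (nat_lit 0x8008000400200020008053603))) 
(.lf (nat_lit 1345422824) (dlOf (nat_lit 3) (nat_lit 0xb0b28006b40800185940012404004000400020018bb3602)))) 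
(.lf (nat_lit 1543605736) (dlOf (nat_lit 2) (nat_lit 0x600000000018146e80)))))))) (.nd (nat_lit 6) 
(.nd (nat_lit 19) (.nd (nat_lit 30) (.nd (nat_lit 29) (.nd (nat_lit 9) (.nd (nat_lit 21) 
(.lf (nat_lit 2617606184) (dlOf (nat_lit 1) (nat_lit 0x200080008002000a0008100683))) 
(.lf (nat_lit 2457640) (dlOf (nat_lit 1) (nat_lit 0x200008160901)))) 
(.lf (nat_lit 45451816) (dlOf (nat_lit 3) (nat_lit 0x13675000232d80011408004d9d40006cb600044029325180)))) 
(.nd (nat_lit 26) (.nd (nat_lit 27) 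
(.lf (nat_lit 537231400) (dlOf (nat_lit 11) (nat_lit 0x3403300308000000a60801a00000005102006c06600a6000000140100128198008c0000004f0400120000001e81000f0000000d40804000000006604035400000032020106000000188100250000000c00801b8008018400200380008060583))) 
(.lf (nat_lit 671449128) (dlOf (nat_lit 2) (nat_lit 0x21000000082040054002003000081a0582)))) 
(.lf (nat_lit 604340264) (dlOf (nat_lit 1) (nat_lit 0xa0008180781))))) (.nd (nat_lit 26) 
(.nd (nat_lit 27) (.nd (nat_lit 28) 
(.lf (nat_lit 3221585960) (dlOf (nat_lit 10) (nat_lit 0x5e022800781080007c0800a408c0003d02006e0460001e0100db0230000e8080468118000720400f409c0001702000c04e000040100080270000040804681180000004025c00200500008150882))) 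
(.lf (nat_lit 4026892328) (dlOf (nat_lit 1) (nat_lit 0x80080160002006a00080c0d03)))) 
(.lf (nat_lit 1476755496) (dlOf (nat_lit 1) (nat_lit 0xa0008180781)))) (.nd (nat_lit 27) 
(.lf (nat_lit 1409646632) (dlOf (nat_lit 11) (nat_lit 0x3403300308000000a60801a00000005102006c06600a6000000140100128198008c0000004f0400120000001e81000f0000000d40804000000006604035400000032020106000000188100250000000c00801b8008018400200380008060583))) 
(.nd (nat_lit 28) 
(.lf (nat_lit 3959783464) (dlOf (nat_lit 8) (nat_lit 0x159811c00040880002e0405960470128022810e8110006408205a402f0001605008c02b0165013c043809a04c204b02e802380320118069808a04e6044000301b001400c8014c062054e00a000060c000d01900002408011811c000100407640ac05c203200ec00880000c180e3811c00a008c0150045017b022000e01040bf405e041802e02ac00a000000400020008003800200180008150803))) 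
(.lf (nat_lit 1543864360) (dlOf (nat_lit 2) (nat_lit 0x21000000082040054002003000081a0582))))))) 
(.nd (nat_lit 21) (.nd (nat_lit 20) (.nd (nat_lit 7) (.nd (nat_lit 26) 
(.lf (nat_lit 2819457064) (dlOf (nat_lit 1) (nat_lit 0x8008003400200020008290803))) 
(.lf (nat_lit 3557654568) (dlOf (nat_lit 1) (nat_lit 0x8008003400200020008290803)))) 
(.lf (nat_lit 5772247208) (dlOf (nat_lit 1) (nat_lit 0x8008000400200020008090603)))) 
(.nd (nat_lit 24) (.lf (nat_lit 10321960) (dlOf (nat_lit 2) (nat_lit 0xc0000002102000a00285d0581))) 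
(.lf (nat_lit 27099176) (dlOf (nat_lit 2) (nat_lit 0x1a8000000be04013000200020008ca0682))))) 
(.nd (nat_lit 7) (.nd (nat_lit 9) (.nd (nat_lit 22) 
(.lf (nat_lit 1346207784) (dlOf (nat_lit 15) (nat_lit 0x45b0560003427a11660cf094704b04a4020c09e80e6000290c098e15804c70678304825815bc1060002808116815808b406784aa8258255c10604e4073000e01080009c300070560003819e0020096000d04180008020013025800941060001d04013c0960097041800070100c5025805101060001a04030a09601520418000501000902580038106000130400100830000901000704b000044080010258016c1060001004008a158000204b000038100150560008019e004a0960039041800034200b18008037c00204300008e60203))) 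
(.lf (nat_lit 16613416) (dlOf (nat_lit 1) (nat_lit 0x600088c0781)))) 
(.lf (nat_lit 36538920) (dlOf (nat_lit 1) (nat_lit 0x1a0019075181)))) (.nd (nat_lit 8) 
(.lf (nat_lit 20807848) (dlOf (nat_lit 1) (nat_lit 0x4002000200089e2c02))) 
(.lf (nat_lit 8225704) (dlOf (nat_lit 1) (nat_lit 0x20018512681))))))) (.nd (nat_lit 10) 
(.nd (nat_lit 26) (.nd (nat_lit 7) (.nd (nat_lit 9) 
(.lf (nat_lit 1346732136) (dlOf (nat_lit 3) (nat_lit 0x4683300008404000c036000130200020009000981))) 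
(.lf (nat_lit 20288104) (dlOf (nat_lit 1) (nat_lit 0x4004000200189d8982)))) (.nd (nat_lit 8) 
(.lf (nat_lit 17662184) (dlOf (nat_lit 1) (nat_lit 0x1800188e0601))) 
(.lf (nat_lit 54364648) (dlOf (nat_lit 1) (nat_lit 0x40029654e81))))) (.nd (nat_lit 28) 
(.nd (nat_lit 21) (.lf (nat_lit 4899307624) (dlOf (nat_lit 1) (nat_lit 0x20018100781))) 
(.lf (nat_lit 2753921128) (dlOf (nat_lit 2) (nat_lit 0xa07b000098180a1400)))) (.nd (nat_lit 7) 
(.lf (nat_lit 3557130600) (dlOf (nat_lit 1) (nat_lit 0x80018130981))) 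
(.lf (nat_lit 6376227048) (dlOf (nat_lit 1) (nat_lit 0x2c0018090a81)))))) (.nd (nat_lit 8) 
(.nd (nat_lit 9) (.nd (nat_lit 7) 
(.lf (nat_lit 20288616) (dlOf (nat_lit 2) (nat_lit 0xeb1e000110189d9400))) (.nd (nat_lit 11) 
(.lf (nat_lit 5772248296) (dlOf (nat_lit 1) (nat_lit 0x1400400040008092e02))) 
(.lf (nat_lit 2754972904) (dlOf (nat_lit 1) (nat_lit 0x1000180f6501))))) (.nd (nat_lit 7) 
(.lf (nat_lit 52790888) (dlOf (nat_lit 1) (nat_lit 0x1800400040009573902))) (.nd (nat_lit 19) 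
(.lf (nat_lit 8750824) (dlOf (nat_lit 1) (nat_lit 0x40028513b01))) 
(.lf (nat_lit 2752349928) (dlOf (nat_lit 1) (nat_lit 0x20018003b01)))))) (.nd (nat_lit 9) 
(.nd (nat_lit 19) (.lf (nat_lit 8750568) (dlOf (nat_lit 2) (nat_lit 0x417800001818513600))) 
(.lf (nat_lit 8226280) (dlOf (nat_lit 1) (nat_lit 0x400200020008513602)))) (.nd (nat_lit 20) 
(.nd (nat_lit 23) (.lf (nat_lit 362472) (dlOf (nat_lit 1) (nat_lit 0x180028004601))) 
(.lf (nat_lit 8751080) (dlOf (nat_lit 1) (nat_lit 0x40028514601)))) 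
(.lf (nat_lit 3493169128) (dlOf (nat_lit 2) (nat_lit 0x1e0600000dc0801c0008010c002008400080f4603))))))))) 
(.nd (nat_lit 18) (.nd (nat_lit 6) (.nd (nat_lit 26) (.nd (nat_lit 19) (.nd (nat_lit 24) 
(.nd (nat_lit 27) (.nd (nat_lit 7) 
(.lf (nat_lit 12812328) (dlOf (nat_lit 1) (nat_lit 0x4002000200086e0a02))) 
(.lf (nat_lit 4563632296) (dlOf (nat_lit 1) (nat_lit 0xa00280a2c01)))) (.nd (nat_lit 8) 
(.nd (nat_lit 29) 
(.lf (nat_lit 1476624424) (dlOf (nat_lit 7) (nat_lit 0x803b0003781002c01e0001b40800200f0000cc0400100780002402000203c0001081000801e000000080008008010c00200e800080a0683))) 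
(.lf (nat_lit 939753512) (dlOf (nat_lit 2) (nat_lit 0x2804c0009d0200040008160501)))) 
(.lf (nat_lit 671318312) (dlOf (nat_lit 1) (nat_lit 0x2700008154601))))) (.nd (nat_lit 23) 
(.nd (nat_lit 8) (.lf (nat_lit 18055208) (dlOf (nat_lit 1) (nat_lit 0xc0028900b01))) 
(.lf (nat_lit 54758184) (dlOf (nat_lit 2) (nat_lit 0x82cc800793a009cc9ac001a30600040019655c01)))) 
(.nd (nat_lit 25) 
(.lf (nat_lit 25395240) (dlOf (nat_lit 2) (nat_lit 0xc6b2fc0007e040018002000c0008c00502))) 
(.lf (nat_lit 58949672) (dlOf (nat_lit 1) (nat_lit 0x180080014002000800097e0003)))))) 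
(.nd (nat_lit 11) (.nd (nat_lit 23) (.nd (nat_lit 28) 
(.lf (nat_lit 537624616) (dlOf (nat_lit 1) (nat_lit 0x280080020002000c00080e0503))) 
(.lf (nat_lit 1342930984) (dlOf (nat_lit 1) (nat_lit 0x68002001e0008110d02)))) 
(.lf (nat_lit 9142312) (dlOf (nat_lit 1) (nat_lit 0x20028520a01)))) (.nd (nat_lit 7) 
(.nd (nat_lit 8) (.lf (nat_lit 8100392) (dlOf (nat_lit 1) (nat_lit 0xa000800040020010000851b283))) 
(.lf (nat_lit 20679464) (dlOf (nat_lit 1) (nat_lit 0x200189d5c01)))) 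
(.lf (nat_lit 48990632) (dlOf (nat_lit 1) (nat_lit 0x20019464e81)))))) (.nd (nat_lit 28) 
(.nd (nat_lit 7) (.nd (nat_lit 27) (.nd (nat_lit 30) 
(.lf (nat_lit 4362305576) (dlOf (nat_lit 3) (nat_lit 0x100ac000202b0000e82000602480006c080040008000800200200008020583))) 
(.lf (nat_lit 5436047400) (dlOf (nat_lit 1) (nat_lit 0x48008000800200160008090003)))) 
(.lf (nat_lit 1812168744) (dlOf (nat_lit 2) (nat_lit 0x2804c000470200040008160501)))) 
(.nd (nat_lit 8) (.nd (nat_lit 9) 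
(.lf (nat_lit 2349039784) (dlOf (nat_lit 1) (nat_lit 0x10008000800200040008090283))) 
(.lf (nat_lit 6509792936) (dlOf (nat_lit 1) (nat_lit 0x400200020008147202)))) (.nd (nat_lit 11) 
(.lf (nat_lit 2755887528) (dlOf (nat_lit 1) (nat_lit 0x4004000200181b0782))) 
(.lf (nat_lit 6107138472) (dlOf (nat_lit 1) (nat_lit 0x20028094e81)))))) (.nd (nat_lit 19) 
(.nd (nat_lit 7) (.nd (nat_lit 9) 
(.lf (nat_lit 4228087848) (dlOf (nat_lit 3) (nat_lit 0x1009e000202a0000e82000602100006c080040008000800200200008020583))) 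
(.lf (nat_lit 6376622632) (dlOf (nat_lit 1) (nat_lit 0x8c0028095181)))) 
(.lf (nat_lit 474187176) (dlOf (nat_lit 2) (nat_lit 0x905c8000fc040018002001000090e3602)))) 
(.nd (nat_lit 27) (.nd (nat_lit 31) 
(.lf (nat_lit 1410039848) (dlOf (nat_lit 1) (nat_lit 0x280080020002000c00080e0503))) 
(.lf (nat_lit 3557523496) (dlOf (nat_lit 1) (nat_lit 0x1c000800bc002009a0008240783)))) 
(.nd (nat_lit 21) (.lf (nat_lit 470515752) (dlOf (nat_lit 1) (nat_lit 0x68002001e0008110d02))) 
(.lf (nat_lit 472612904) (dlOf (nat_lit 4) (nat_lit 0x1c19e0002902002e0cf000138100540ac0000340800300080004002000600089c0203)))))))) 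
(.nd (nat_lit 7) (.nd (nat_lit 8) (.nd (nat_lit 9) (.nd (nat_lit 19) 
(.lf (nat_lit 4429414504) (dlOf (nat_lit 2) (nat_lit 0x1013800040080068008000c002000800080a1403))) 
(.lf (nat_lit 472612968) (dlOf (nat_lit 6) (nat_lit 0x160160009f06c804f036002e0138018e08d00bf03e805701f00001c1c033811a017e07d0000602001a0b000040364001c1b0005409c003a0468007023000ac0fa004007c000050800040b0000018080518580027c29a003a0d9000106c0057027002f811a016407d00a403e0000004002800080088002003400089c0983)))) 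
(.nd (nat_lit 11) (.lf (nat_lit 20157032) (dlOf (nat_lit 1) (nat_lit 0x600189d8981))) 
(.nd (nat_lit 22) (.lf (nat_lit 5771594344) (dlOf (nat_lit 1) (nat_lit 0x400400020008005382))) 
(.lf (nat_lit 54757992) (dlOf (nat_lit 2) (nat_lit 0x1a9a2000bcce8008a673000832e000a19180188b100006587003927000369330001092800303e10001d8b9655380)))))) 
(.nd (nat_lit 26) (.nd (nat_lit 21) (.nd (nat_lit 9) 
(.lf (nat_lit 671318376) (dlOf (nat_lit 5) (nat_lit 0x4401c00a5b02000e00e0052d01000e0070029640801480700148a04010000400420018155202))) 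
(.lf (nat_lit 5100505960) (dlOf (nat_lit 1) (nat_lit 0x80080008002000200080d5c03)))) 
(.nd (nat_lit 19) 
(.lf (nat_lit 2326888) (dlOf (nat_lit 2) (nat_lit 0xb370b000064080008008000c00200100008150703))) 
(.lf (nat_lit 8094056) (dlOf (nat_lit 1) (nat_lit 0x10002000e0008510f02))))) (.nd (nat_lit 9) 
(.nd (nat_lit 22) (.lf (nat_lit 1543733608) (dlOf (nat_lit 1) (nat_lit 0x240028155201))) 
(.lf (nat_lit 2755887464) (dlOf (nat_lit 5) (nat_lit 0x436079000188101e503c8000c0080dd01e40004a0407a00f2000210200de00181b0701)))) 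
(.lf (nat_lit 4899179368) (dlOf (nat_lit 2) (nat_lit 0x480c80011a040010002000200080d5c02)))))) 
(.nd (nat_lit 29) (.nd (nat_lit 8) (.nd (nat_lit 11) 
(.lf (nat_lit 6711117032) (dlOf (nat_lit 1) (nat_lit 0x10008000400200020008092e03))) 
(.lf (nat_lit 6509792488) (dlOf (nat_lit 1) (nat_lit 0x400200040008146502)))) (.nd (nat_lit 21) 
(.nd (nat_lit 27) (.lf (nat_lit 2416148968) (dlOf (nat_lit 1) (nat_lit 0x100028090c81))) 
(.lf (nat_lit 2550366696) (dlOf (nat_lit 1) (nat_lit 0x100028090c81)))) 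
(.lf (nat_lit 23298536) (dlOf (nat_lit 1) (nat_lit 0x400200760008b80c82))))) (.nd (nat_lit 11) 
(.nd (nat_lit 9) (.nd (nat_lit 10) 
(.lf (nat_lit 3087237608) (dlOf (nat_lit 2) (nat_lit 0x403e00a601b0003003800000180078008019800200340008157d03))) 
(.lf (nat_lit 5167613416) (dlOf (nat_lit 1) (nat_lit 0x10004001600080d3602)))) 
(.lf (nat_lit 2751693800) (dlOf (nat_lit 1) (nat_lit 0x400200020008002882)))) (.nd (nat_lit 26) 
(.lf (nat_lit 5100505576) (dlOf (nat_lit 1) (nat_lit 0x80080004002000200080d4e83))) 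
(.lf (nat_lit 4899178984) (dlOf (nat_lit 1) (nat_lit 0x8004000200080d4e82)))))))) (.nd (nat_lit 21) 
(.nd (nat_lit 8) (.nd (nat_lit 20) (.nd (nat_lit 22) (.nd (nat_lit 25) 
(.lf (nat_lit 2416410664) (dlOf (nat_lit 1) (nat_lit 0x4004000600181b0002))) 
(.lf (nat_lit 34045992) (dlOf (nat_lit 1) (nat_lit 0x400400020008fa0802)))) (.nd (nat_lit 6) 
(.lf (nat_lit 21987368) (dlOf (nat_lit 1) (nat_lit 0x6c00200440008a80a82))) 
(.lf (nat_lit 46631528) (dlOf (nat_lit 1) (nat_lit 0x8008001800200140009385383))))) 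
(.nd (nat_lit 31) (.nd (nat_lit 23) 
(.lf (nat_lit 35094568) (dlOf (nat_lit 2) (nat_lit 0x180000005204000800200060008fd0202))) 
(.lf (nat_lit 9928744) (dlOf (nat_lit 1) (nat_lit 0x8008000400200020008590983)))) (.nd (nat_lit 26) 
(.lf (nat_lit 3491201064) (dlOf (nat_lit 1) (nat_lit 0x24004000a0018070882))) 
(.lf (nat_lit 2753003560) (dlOf (nat_lit 2) (nat_lit 0x390738000a00802200080150002002e0008070803)))))) 
(.nd (nat_lit 30) (.nd (nat_lit 28) (.nd (nat_lit 6) 
(.lf (nat_lit 46631720) (dlOf (nat_lit 1) (nat_lit 0xc00200020009385c02))) 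
(.lf (nat_lit 2752479720) (dlOf (nat_lit 1) (nat_lit 0x100080020002000a0008017d03)))) 
(.nd (nat_lit 27) (.lf (nat_lit 2416410984) (dlOf (nat_lit 1) (nat_lit 0x2c004001800081b0702))) 
(.lf (nat_lit 2550628712) (dlOf (nat_lit 1) (nat_lit 0x2c004001800081b0702))))) (.nd (nat_lit 6) 
(.nd (nat_lit 19) (.lf (nat_lit 1745322408) (dlOf (nat_lit 1) (nat_lit 0x400400020008116e82))) 
(.lf (nat_lit 3491725736) (dlOf (nat_lit 1) (nat_lit 0x400400020008090782)))) (.nd (nat_lit 10) 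
(.lf (nat_lit 3490677224) (dlOf (nat_lit 2) (nat_lit 0x3c1e600011018017300))) 
(.lf (nat_lit 6375835112) (dlOf (nat_lit 1) (nat_lit 0x8008000400200060008003603))))))) 
(.nd (nat_lit 7) (.nd (nat_lit 19) (.nd (nat_lit 6) (.nd (nat_lit 20) 
(.lf (nat_lit 15171624) (dlOf (nat_lit 2) (nat_lit 0x260000002f8187c0680))) (.nd (nat_lit 22) 
(.lf (nat_lit 3637288) (dlOf (nat_lit 1) (nat_lit 0x20018210901))) 
(.lf (nat_lit 24608808) (dlOf (nat_lit 1) (nat_lit 0x148002004e0008ba0a02))))) (.nd (nat_lit 20) 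
(.lf (nat_lit 36143208) (dlOf (nat_lit 2) (nat_lit 0x72a4300028819030980))) 
(.lf (nat_lit 3637352) (dlOf (nat_lit 1) (nat_lit 0x70008001000200100008211403))))) 
(.nd (nat_lit 28) (.nd (nat_lit 6) (.nd (nat_lit 20) 
(.lf (nat_lit 28278824) (dlOf (nat_lit 1) (nat_lit 0x400200040008d80782))) 
(.lf (nat_lit 25133096) (dlOf (nat_lit 1) (nat_lit 0x400200020008be0c02)))) 
(.lf (nat_lit 12550248) (dlOf (nat_lit 3) (nat_lit 0xb86f8001800000026080015f880001002000200086d1401)))) 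
(.nd (nat_lit 9) (.nd (nat_lit 26) 
(.lf (nat_lit 1346338856) (dlOf (nat_lit 1) (nat_lit 0x1000200020008f00002))) 
(.lf (nat_lit 473923624) (dlOf (nat_lit 3) (nat_lit 0x92856001bc2ac024c0cf00e004b007c820c000521404942b000c41560126067807f825803f8106000270a00060028fc0201)))) 
(.lf (nat_lit 1346341416) (dlOf (nat_lit 3) (nat_lit 0x100068001140400042ce000880200040028f05181)))))) 
(.nd (nat_lit 6) (.nd (nat_lit 11) (.nd (nat_lit 8) 
(.lf (nat_lit 8360616) (dlOf (nat_lit 1) (nat_lit 0x8008000400200020008518c83))) 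
(.lf (nat_lit 4096229800) (dlOf (nat_lit 1) (nat_lit 0x7800180e1001)))) (.nd (nat_lit 19) 
(.nd (nat_lit 26) (.lf (nat_lit 1344768680) (dlOf (nat_lit 1) (nat_lit 0x3000400180018985602))) 
(.lf (nat_lit 472353448) (dlOf (nat_lit 1) (nat_lit 0x180008985601)))) 
(.lf (nat_lit 472877736) (dlOf (nat_lit 2) (nat_lit 0x101b2000140200020018b55601))))) 
(.nd (nat_lit 10) (.nd (nat_lit 8) 
(.lf (nat_lit 28803304) (dlOf (nat_lit 1) (nat_lit 0x400400020018da0602))) (.nd (nat_lit 26) 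
(.lf (nat_lit 1345292776) (dlOf (nat_lit 1) (nat_lit 0x20028b54e81))) 
(.lf (nat_lit 472877544) (dlOf (nat_lit 1) (nat_lit 0x18008000400200020008b54e83))))) 
(.nd (nat_lit 19) (.lf (nat_lit 52921832) (dlOf (nat_lit 1) (nat_lit 0x340019573601))) 
(.lf (nat_lit 61834728) (dlOf (nat_lit 1) (nat_lit 0x60019923601))))))))))) (.nd (nat_lit 17) 
(.nd (nat_lit 5) (.nd (nat_lit 6) (.nd (nat_lit 19) (.nd (nat_lit 30) (.nd (nat_lit 21) 
(.nd (nat_lit 27) (.nd (nat_lit 10) (.nd (nat_lit 9) 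
(.lf (nat_lit 26574872) (dlOf (nat_lit 2) (nat_lit 0x7b5c1804da75002a823a001fc0600020018c50081))) 
(.lf (nat_lit 8493592) (dlOf (nat_lit 1) (nat_lit 0x2000851b281)))) (.nd (nat_lit 7) 
(.lf (nat_lit 59870232) (dlOf (nat_lit 1) (nat_lit 0x100019846001))) 
(.lf (nat_lit 4899046808) (dlOf (nat_lit 1) (nat_lit 0x400200040008053602))))) (.nd (nat_lit 26) 
(.nd (nat_lit 32) 
(.lf (nat_lit 2281799704) (dlOf (nat_lit 1) (nat_lit 0x60008003000200160008020703))) 
(.lf (nat_lit 6576767000) (dlOf (nat_lit 1) (nat_lit 0x24002000e00080d0a02)))) (.nd (nat_lit 9) 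
(.lf (nat_lit 3154477080) (dlOf (nat_lit 7) (nat_lit 0x3018000700a80d5205106b90278086013004d809400de0460009019803080c80004062022c024010b0110006807401c403600a8019000400a001100140008004001ff24034406001b802a01fe014416f809e01aa04c01dc02500d080cc02b406203d602401e201100bb006c067002c033e01401bb002805a000802c0000001fe200122060009702a0385814400c80a00e2204f019c02600dd812802b008e0230046008b019806e00c800f0062034602401c40110004807405200360136019009100b004a805001cc00a003c00200260000007f4b006b019018700c00c4405402230288035811c185806604e4031000d01402a780900dd0044080e01d061c00b03100050146800a064e00204080000007f080133814401340480012005000f38301b7028800798081ee800802600020e4400081a0083))) 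
(.lf (nat_lit 201431576) (dlOf (nat_lit 6) (nat_lit 0x1c00000c130200e403b0053d81006a01d8029e80803c80ec014d204018007600a68020002001800b281)))))) 
(.nd (nat_lit 7) (.nd (nat_lit 20) (.nd (nat_lit 22) 
(.lf (nat_lit 27361304) (dlOf (nat_lit 1) (nat_lit 0x8008000400200020008cd0483))) 
(.lf (nat_lit 14778392) (dlOf (nat_lit 2) (nat_lit 0x7b2fa804d90fc02a8356001ea0600020018770081)))) 
(.nd (nat_lit 9) 
(.lf (nat_lit 28409880) (dlOf (nat_lit 6) (nat_lit 0x26a90001b324000aa080059b1c0024d5200176a000073368006d992000540a00d8d8e00776a9000635440225a800004d3f000266d00123324000a41c0005a80000acc9000260200066c7000235480011a800002d3f000166d0005b3240009618005c004003a0018d90402))) 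
(.lf (nat_lit 3506712) (dlOf (nat_lit 1) (nat_lit 0x1c0028200d81))))) (.nd (nat_lit 23) 
(.nd (nat_lit 8) (.lf (nat_lit 2195608) (dlOf (nat_lit 1) (nat_lit 0x7000400200008150182))) 
(.lf (nat_lit 2195864) (dlOf (nat_lit 1) (nat_lit 0x1d0008007800200e00008150783)))) 
(.nd (nat_lit 10) (.lf (nat_lit 11894936) (dlOf (nat_lit 1) (nat_lit 0x200286c0181))) 
(.lf (nat_lit 60916888) (dlOf (nat_lit 1) (nat_lit 0x200098c2b81))))))) (.nd (nat_lit 28) 
(.nd (nat_lit 18) (.nd (nat_lit 26) 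
(.lf (nat_lit 3221323800) (dlOf (nat_lit 1) (nat_lit 0x400200020008090002))) 
(.lf (nat_lit 5972787224) (dlOf (nat_lit 1) (nat_lit 0x24002000e00080d0a02)))) (.nd (nat_lit 26) 
(.nd (nat_lit 31) (.lf (nat_lit 1074102296) (dlOf (nat_lit 1) (nat_lit 0x40028090001))) 
(.lf (nat_lit 3221585944) (dlOf (nat_lit 3) (nat_lit 0x150228052440801e81180000004021800201b80008150502)))) 
(.lf (nat_lit 3959783448) (dlOf (nat_lit 3) (nat_lit 0x1502280580c0801e81180000004021800201b80008150502))))) 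
(.nd (nat_lit 8) (.nd (nat_lit 10) 
(.lf (nat_lit 3490807832) (dlOf (nat_lit 2) (nat_lit 0xa158000c4818020480))) 
(.lf (nat_lit 5637245976) (dlOf (nat_lit 1) (nat_lit 0x1940008056001)))) (.nd (nat_lit 7) 
(.lf (nat_lit 1342281496) (dlOf (nat_lit 1) (nat_lit 0x18004000a000800a002))) 
(.lf (nat_lit 3493953944) (dlOf (nat_lit 1) (nat_lit 0xb8008007c002001c00081b0783))))))) 
(.nd (nat_lit 21) (.nd (nat_lit 18) (.nd (nat_lit 30) (.nd (nat_lit 22) (.nd (nat_lit 7) 
(.lf (nat_lit 42565656) (dlOf (nat_lit 1) (nat_lit 0x80029260081))) 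
(.lf (nat_lit 628888) (dlOf (nat_lit 1) (nat_lit 0x40040002000800a882)))) (.nd (nat_lit 23) 
(.lf (nat_lit 55148568) (dlOf (nat_lit 1) (nat_lit 0x200196c0181))) 
(.lf (nat_lit 13205528) (dlOf (nat_lit 1) (nat_lit 0x40028700901))))) (.nd (nat_lit 7) 
(.nd (nat_lit 27) (.lf (nat_lit 1879670808) (dlOf (nat_lit 1) (nat_lit 0x4002000400082b0482))) 
(.lf (nat_lit 3892936728) (dlOf (nat_lit 2) (nat_lit 0x200b000ff2040004004000200082a0a02)))) 
(.lf (nat_lit 3491332504) (dlOf (nat_lit 2) (nat_lit 0x8a1e70043d818090780))))) (.nd (nat_lit 28) 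
(.nd (nat_lit 23) (.nd (nat_lit 27) 
(.lf (nat_lit 537755672) (dlOf (nat_lit 2) (nat_lit 0x3402200329818160480))) 
(.lf (nat_lit 2819457048) (dlOf (nat_lit 1) (nat_lit 0x20028290481)))) 
(.lf (nat_lit 42827800) (dlOf (nat_lit 1) (nat_lit 0x400400040009280082)))) (.nd (nat_lit 7) 
(.lf (nat_lit 3557654552) (dlOf (nat_lit 1) (nat_lit 0x20028290481))) (.nd (nat_lit 9) 
(.lf (nat_lit 3491594392) (dlOf (nat_lit 1) (nat_lit 0x40008090181))) 
(.lf (nat_lit 4094528152) (dlOf (nat_lit 1) (nat_lit 0x400400020008055502))))))) (.nd (nat_lit 20) 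
(.nd (nat_lit 11) (.nd (nat_lit 22) 
(.lf (nat_lit 36274200) (dlOf (nat_lit 1) (nat_lit 0x400400020019060602))) 
(.lf (nat_lit 48857112) (dlOf (nat_lit 2) (nat_lit 0x5824001ed02003a0009440081)))) (.nd (nat_lit 9) 
(.lf (nat_lit 69831704) (dlOf (nat_lit 1) (nat_lit 0x5c00200020008cd6002))) 
(.lf (nat_lit 57248280) (dlOf (nat_lit 1) (nat_lit 0x400400020009795082))))) (.nd (nat_lit 31) 
(.nd (nat_lit 22) (.lf (nat_lit 3768344) (dlOf (nat_lit 1) (nat_lit 0xc0028220a01))) 
(.lf (nat_lit 24739864) (dlOf (nat_lit 3) (nat_lit 0xf6910000a810011b488000500800a8008003800200120008bb0483)))) 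
(.nd (nat_lit 26) 
(.lf (nat_lit 3493429272) (dlOf (nat_lit 2) (nat_lit 0x480880092a040038004000a0008130482))) 
(.lf (nat_lit 2755231768) (dlOf (nat_lit 2) (nat_lit 0x4808801454040038004000a0008130482)))))))) 
(.nd (nat_lit 18) (.nd (nat_lit 7) (.nd (nat_lit 31) (.nd (nat_lit 8) (.nd (nat_lit 10) 
(.nd (nat_lit 26) 
(.lf (nat_lit 2013364312) (dlOf (nat_lit 3) (nat_lit 0x130128000f40800200940007804001400400040018020702))) 
(.lf (nat_lit 1140949080) (dlOf (nat_lit 3) (nat_lit 0x130128000f40800200940007804001400400040018020702)))) 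
(.lf (nat_lit 60916824) (dlOf (nat_lit 1) (nat_lit 0xa00298c2901)))) (.nd (nat_lit 9) 
(.nd (nat_lit 21) (.lf (nat_lit 1476493656) (dlOf (nat_lit 1) (nat_lit 0x720008010881))) 
(.lf (nat_lit 1344373080) (dlOf (nat_lit 1) (nat_lit 0x1c0018740881)))) (.nd (nat_lit 12) 
(.lf (nat_lit 1073842008) (dlOf (nat_lit 1) (nat_lit 0x1c00200060008003f82))) 
(.lf (nat_lit 7968600) (dlOf (nat_lit 1) (nat_lit 0x6001851a281)))))) (.nd (nat_lit 26) 
(.nd (nat_lit 9) (.nd (nat_lit 10) 
(.lf (nat_lit 4026630488) (dlOf (nat_lit 3) (nat_lit 0x3f01a8001500802200d4000a204002000400080008014e02))) 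
(.lf (nat_lit 2818671960) (dlOf (nat_lit 2) (nat_lit 0x28000000150180d3380)))) 
(.lf (nat_lit 3355542360) (dlOf (nat_lit 2) (nat_lit 0xe02b0002c0180a2580)))) (.nd (nat_lit 19) 
(.nd (nat_lit 27) (.lf (nat_lit 3288432984) (dlOf (nat_lit 1) (nat_lit 0x800400040008014d82))) 
(.lf (nat_lit 3691086168) (dlOf (nat_lit 2) (nat_lit 0x8012000000200160008010881)))) 
(.nd (nat_lit 8) (.lf (nat_lit 2754183256) (dlOf (nat_lit 2) (nat_lit 0x141f9000038180c1a80))) 
(.lf (nat_lit 3154739544) (dlOf (nat_lit 1) (nat_lit 0x20028310881))))))) (.nd (nat_lit 30) 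
(.nd (nat_lit 28) (.nd (nat_lit 8) (.nd (nat_lit 20) 
(.lf (nat_lit 6509658328) (dlOf (nat_lit 2) (nat_lit 0x1001200150000008dc10000800800dc002005400080b0483))) 
(.lf (nat_lit 3244248) (dlOf (nat_lit 2) (nat_lit 0xae1f40008dc0800700080018002000a0008200483)))) 
(.lf (nat_lit 59870168) (dlOf (nat_lit 1) (nat_lit 0x340019845e01)))) (.nd (nat_lit 9) 
(.nd (nat_lit 11) 
(.lf (nat_lit 805404888) (dlOf (nat_lit 2) (nat_lit 0x368144022007400d6039003e000000250200040008001c002000e0008090483))) 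
(.lf (nat_lit 3087108312) (dlOf (nat_lit 1) (nat_lit 0x20028144a81)))) 
(.lf (nat_lit 2617344728) (dlOf (nat_lit 2) (nat_lit 0xe0340002c0180a2100))))) (.nd (nat_lit 29) 
(.nd (nat_lit 11) (.nd (nat_lit 19) 
(.lf (nat_lit 3221323992) (dlOf (nat_lit 2) (nat_lit 0x406e000940200020008090481))) 
(.lf (nat_lit 1343848664) (dlOf (nat_lit 1) (nat_lit 0x280028370501)))) 
(.lf (nat_lit 1073842392) (dlOf (nat_lit 1) (nat_lit 0x1c00200060008004a82)))) (.nd (nat_lit 26) 
(.lf (nat_lit 5905678552) (dlOf (nat_lit 2) (nat_lit 0x1001100150000008dc10000800800dc002005400080b0483))) 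
(.nd (nat_lit 27) 
(.lf (nat_lit 1677820120) (dlOf (nat_lit 2) (nat_lit 0x368144022007400d6039003e000000250200040008001c002000e0008090483))) 
(.lf (nat_lit 3959521496) (dlOf (nat_lit 2) (nat_lit 0x406e000940200020008090481)))))))) 
(.nd (nat_lit 7) (.nd (nat_lit 25) (.nd (nat_lit 27) (.nd (nat_lit 23) (.nd (nat_lit 26) 
(.lf (nat_lit 4563763288) (dlOf (nat_lit 2) (nat_lit 0x15b01a80aa80ac0ab805203cc027012400d8000c8280308008008000200e000080d0603))) 
(.lf (nat_lit 335904856) (dlOf (nat_lit 1) (nat_lit 0x1e00180d1b81)))) (.nd (nat_lit 8) 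
(.lf (nat_lit 9797720) (dlOf (nat_lit 3) (nat_lit 0x21e21001363a0012707800053060013c420010c1e000148100240008008c00200020008580603))) 
(.lf (nat_lit 8750936) (dlOf (nat_lit 1) (nat_lit 0x20028513f81))))) (.nd (nat_lit 29) 
(.nd (nat_lit 32) (.lf (nat_lit 403013720) (dlOf (nat_lit 1) (nat_lit 0x800080d1781))) 
(.lf (nat_lit 4697981016) (dlOf (nat_lit 2) (nat_lit 0x15b01a80aa80ac0ab805203cc027012400d8000cc280308008008000200e000080d0603)))) 
(.lf (nat_lit 5234851928) (dlOf (nat_lit 9) (nat_lit 0x5802a0005d0201900190002101016800c803c8054001c0260004106001a0190000e0100ba00c8000680801080640003204004002a00016020180019000100a800050100860008026800200080008100603))))) 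
(.nd (nat_lit 19) (.nd (nat_lit 9) (.nd (nat_lit 10) 
(.lf (nat_lit 55935064) (dlOf (nat_lit 1) (nat_lit 0x200296f0801))) 
(.lf (nat_lit 38110296) (dlOf (nat_lit 1) (nat_lit 0x400200020009132902)))) (.nd (nat_lit 20) 
(.lf (nat_lit 42306136) (dlOf (nat_lit 1) (nat_lit 0x40019245301))) 
(.lf (nat_lit 45451864) (dlOf (nat_lit 19) (nat_lit 0x8718805b33a8000500801fddbe00caea500a8718806f33a80004c1002cd9d40001f02017acea0000e81005d752803038c402a99d40001a0600daea50066718804eb3a8000320c01bdd4a00dae31007167500006018013ba940121c620164cea0000b830018752800ab3a8000280800fdd4a007ee31003567500004c18000ba94020d9d40001004002ecea000078100b16750000340800d33a8000180400d19d4000090200ceedf00757528036b8c40000a0c014ddbe00c8ea5006a71880000c1801ab8c400000040020004000a0019325302))))) 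
(.nd (nat_lit 8) (.nd (nat_lit 21) 
(.lf (nat_lit 42827864) (dlOf (nat_lit 1) (nat_lit 0x400400020009280802))) 
(.lf (nat_lit 53313624) (dlOf (nat_lit 3) (nat_lit 0x93140005204004098a00044bb0002253000094180038008001800200020009590703)))) 
(.lf (nat_lit 50169176) (dlOf (nat_lit 1) (nat_lit 0x200294c3381)))))) (.nd (nat_lit 27) 
(.nd (nat_lit 19) (.nd (nat_lit 11) (.nd (nat_lit 20) 
(.lf (nat_lit 25526488) (dlOf (nat_lit 1) (nat_lit 0x1c0008c10581))) 
(.lf (nat_lit 28672216) (dlOf (nat_lit 1) (nat_lit 0x20028da0501)))) 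
(.lf (nat_lit 8751320) (dlOf (nat_lit 1) (nat_lit 0x40028514a81)))) (.nd (nat_lit 23) 
(.lf (nat_lit 20807896) (dlOf (nat_lit 1) (nat_lit 0x200189e3f01))) 
(.lf (nat_lit 45973720) (dlOf (nat_lit 10) (nat_lit 0x4b108000bc08003d8840005c04001ec420002d02000562100016010007b108000ac0800358840005404001ec420002902000b6210000c010006b108000000802f800800f8002006a0009380983))))) 
(.nd (nat_lit 11) (.nd (nat_lit 19) (.nd (nat_lit 26) 
(.lf (nat_lit 1208320216) (dlOf (nat_lit 1) (nat_lit 0x8004000600080c1c02))) 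
(.lf (nat_lit 3691348184) (dlOf (nat_lit 2) (nat_lit 0x803a000560200040018160501)))) 
(.lf (nat_lit 6377275608) (dlOf (nat_lit 1) (nat_lit 0x4002000200080c1c02)))) (.nd (nat_lit 10) 
(.lf (nat_lit 2886043864) (dlOf (nat_lit 1) (nat_lit 0x400200020008144a82))) 
(.lf (nat_lit 3624242392) (dlOf (nat_lit 1) (nat_lit 0x50008001c00200320008146483))))))))) 
(.nd (nat_lit 18) (.nd (nat_lit 6) (.nd (nat_lit 30) (.nd (nat_lit 20) (.nd (nat_lit 28) 
(.nd (nat_lit 23) (.nd (nat_lit 8) (.nd (nat_lit 19) 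
(.lf (nat_lit 2147582008) (dlOf (nat_lit 1) (nat_lit 0x20028090001))) 
(.lf (nat_lit 537493560) (dlOf (nat_lit 1) (nat_lit 0x4004000200080a0a82)))) 
(.lf (nat_lit 100152) (dlOf (nat_lit 1) (nat_lit 0x98002000c0008003e02)))) (.nd (nat_lit 21) 
(.lf (nat_lit 29458488) (dlOf (nat_lit 1) (nat_lit 0xc00200060008e10902))) 
(.lf (nat_lit 10584120) (dlOf (nat_lit 1) (nat_lit 0x4002000200085f0b82))))) (.nd (nat_lit 8) 
(.nd (nat_lit 9) 
(.lf (nat_lit 4563501112) (dlOf (nat_lit 2) (nat_lit 0x6801a0000000803600080148002005c0008090003))) 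
(.lf (nat_lit 4697720376) (dlOf (nat_lit 1) (nat_lit 0x20018093781)))) 
(.lf (nat_lit 471957816) (dlOf (nat_lit 1) (nat_lit 0x8008000400200020008740703))))) 
(.nd (nat_lit 7) (.nd (nat_lit 26) 
(.lf (nat_lit 1146936) (dlOf (nat_lit 1) (nat_lit 0x3c00200060008080702))) 
(.lf (nat_lit 2752610360) (dlOf (nat_lit 1) (nat_lit 0x20008020681)))) (.nd (nat_lit 8) 
(.nd (nat_lit 10) (.lf (nat_lit 7438520) (dlOf (nat_lit 1) (nat_lit 0x1200084b0481))) 
(.lf (nat_lit 36799672) (dlOf (nat_lit 1) (nat_lit 0x20019072c81)))) 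
(.lf (nat_lit 37325240) (dlOf (nat_lit 1) (nat_lit 0x200090d4e81)))))) (.nd (nat_lit 28) 
(.nd (nat_lit 7) (.nd (nat_lit 10) (.nd (nat_lit 19) 
(.lf (nat_lit 3355541560) (dlOf (nat_lit 1) (nat_lit 0x80080054002000400080a0003))) 
(.lf (nat_lit 3892936760) (dlOf (nat_lit 4) (nat_lit 0xc408e007602c00320038000a41801980b000050040114058006402b003b00380009c1800600080050002002200082a0c03)))) 
(.lf (nat_lit 1610712120) (dlOf (nat_lit 1) (nat_lit 0x160028092881)))) (.nd (nat_lit 10) 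
(.lf (nat_lit 5435916472) (dlOf (nat_lit 1) (nat_lit 0x300080024002000e0008031703))) 
(.lf (nat_lit 3825306808) (dlOf (nat_lit 1) (nat_lit 0x20008146281))))) (.nd (nat_lit 19) 
(.nd (nat_lit 7) (.lf (nat_lit 3490807864) (dlOf (nat_lit 1) (nat_lit 0x20008020681))) 
(.lf (nat_lit 3492907192) (dlOf (nat_lit 1) (nat_lit 0x3a00280f4901)))) (.nd (nat_lit 21) 
(.lf (nat_lit 1342799928) (dlOf (nat_lit 1) (nat_lit 0x1600180d0b81))) 
(.lf (nat_lit 1881767992) (dlOf (nat_lit 1) (nat_lit 0xc0029000501))))))) (.nd (nat_lit 11) 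
(.nd (nat_lit 27) (.nd (nat_lit 9) (.nd (nat_lit 10) (.nd (nat_lit 22) 
(.lf (nat_lit 5435916408) (dlOf (nat_lit 3) (nat_lit 0x403900021810006009800104080038008003400200020008030b83))) 
(.lf (nat_lit 3493953656) (dlOf (nat_lit 1) (nat_lit 0x2800281b0081)))) 
(.lf (nat_lit 49906808) (dlOf (nat_lit 1) (nat_lit 0x5000194c2a01)))) (.nd (nat_lit 7) 
(.nd (nat_lit 19) (.lf (nat_lit 6241224312) (dlOf (nat_lit 1) (nat_lit 0x400400280008053982))) 
(.lf (nat_lit 53053048) (dlOf (nat_lit 1) (nat_lit 0x20029573981)))) 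
(.lf (nat_lit 49906680) (dlOf (nat_lit 1) (nat_lit 0x14004001400194c2882))))) (.nd (nat_lit 8) 
(.nd (nat_lit 9) (.nd (nat_lit 21) 
(.lf (nat_lit 6375964792) (dlOf (nat_lit 2) (nat_lit 0x1421a000410200060018030b81))) 
(.lf (nat_lit 1009352824) (dlOf (nat_lit 5) (nat_lit 0x3815800040a600060500007026800080200008e14000829c0020056000a02980048140003409a0002000000230600060308003817c000880800142980006061000402e8005815800080a6000a050000a026800180040007020002c004001c0019110b82)))) 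
(.lf (nat_lit 3355542136) (dlOf (nat_lit 8) (nat_lit 0xa90158000d80804500ac00068040004052000320200ce02b000170100660158000b40803f00ac000560400140540002402007800180a1901)))) 
(.nd (nat_lit 7) (.lf (nat_lit 4697720184) (dlOf (nat_lit 1) (nat_lit 0x3c0008093501))) 
(.nd (nat_lit 9) 
(.lf (nat_lit 3355542008) (dlOf (nat_lit 2) (nat_lit 0x100ac001b2040030004000e00080a1482))) 
(.lf (nat_lit 201431032) (dlOf (nat_lit 4) (nat_lit 0x3c03b0023b01001c01d8011d40800a80ec008e804017c004004e001800a602))))))) 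
(.nd (nat_lit 7) (.nd (nat_lit 12) (.nd (nat_lit 27) (.nd (nat_lit 23) 
(.lf (nat_lit 3556870520) (dlOf (nat_lit 1) (nat_lit 0x3c00280d4e81))) 
(.lf (nat_lit 58820984) (dlOf (nat_lit 1) (nat_lit 0x4800197e4e81)))) (.nd (nat_lit 10) 
(.lf (nat_lit 134318456) (dlOf (nat_lit 1) (nat_lit 0x16000801b4002004a0008004e83))) 
(.lf (nat_lit 134319480) (dlOf (nat_lit 1) (nat_lit 0x80008008000200180008006b83))))) 
(.nd (nat_lit 8) (.lf (nat_lit 104568) (dlOf (nat_lit 2) (nat_lit 0x24000004c6020018001800a881))) 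
(.lf (nat_lit 104824) (dlOf (nat_lit 1) (nat_lit 0x2002800ae01))))) (.nd (nat_lit 32) 
(.nd (nat_lit 19) (.nd (nat_lit 8) 
(.lf (nat_lit 50432760) (dlOf (nat_lit 1) (nat_lit 0x200194c5a01))) 
(.lf (nat_lit 8494072) (dlOf (nat_lit 1) (nat_lit 0x2002851bf01)))) (.nd (nat_lit 20) 
(.lf (nat_lit 69831672) (dlOf (nat_lit 1) (nat_lit 0x20028cd5f01))) 
(.lf (nat_lit 60394488) (dlOf (nat_lit 1) (nat_lit 0x48004001c0009845f02))))) (.nd (nat_lit 9) 
(.nd (nat_lit 10) (.lf (nat_lit 6442555896) (dlOf (nat_lit 1) (nat_lit 0x4004000200080fb282))) 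
(.lf (nat_lit 5838573048) (dlOf (nat_lit 1) (nat_lit 0x4004000200080f6f82)))) (.nd (nat_lit 27) 
(.lf (nat_lit 4831939576) (dlOf (nat_lit 1) (nat_lit 0x340018055f01))) 
(.lf (nat_lit 5234592760) (dlOf (nat_lit 1) (nat_lit 0x340018055f01))))))))) (.nd (nat_lit 28) 
(.nd (nat_lit 21) (.nd (nat_lit 7) (.nd (nat_lit 22) (.nd (nat_lit 26) (.nd (nat_lit 27) 
(.lf (nat_lit 537231416) (dlOf (nat_lit 1) (nat_lit 0x60028060701))) 
(.lf (nat_lit 671449144) (dlOf (nat_lit 2) (nat_lit 0x13801c0057c0181a0700)))) 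
(.lf (nat_lit 604340280) (dlOf (nat_lit 1) (nat_lit 0x28008000400200020008180903)))) 
(.nd (nat_lit 9) 
(.lf (nat_lit 55935032) (dlOf (nat_lit 2) (nat_lit 0x153480000c0800180080008002000600096f0503))) 
(.lf (nat_lit 38636088) (dlOf (nat_lit 1) (nat_lit 0x4004001c0009135202))))) (.nd (nat_lit 8) 
(.nd (nat_lit 10) (.lf (nat_lit 362680) (dlOf (nat_lit 1) (nat_lit 0x8a0018004901))) 
(.lf (nat_lit 60654776) (dlOf (nat_lit 1) (nat_lit 0x580080004002001000098c2c83)))) 
(.nd (nat_lit 6) (.nd (nat_lit 19) 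
(.lf (nat_lit 8751032) (dlOf (nat_lit 1) (nat_lit 0x20028514381))) 
(.lf (nat_lit 2752350136) (dlOf (nat_lit 1) (nat_lit 0x8008000c00200020008004383)))) 
(.lf (nat_lit 60654584) (dlOf (nat_lit 1) (nat_lit 0x4002000200098c2882)))))) (.nd (nat_lit 20) 
(.nd (nat_lit 6) (.nd (nat_lit 22) 
(.lf (nat_lit 36538936) (dlOf (nat_lit 1) (nat_lit 0x4c0009075201))) 
(.lf (nat_lit 32344632) (dlOf (nat_lit 2) (nat_lit 0x160980017c0800c8008000800200100008ef5203)))) 
(.nd (nat_lit 10) (.lf (nat_lit 36538744) (dlOf (nat_lit 1) (nat_lit 0x20019074e81))) 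
(.lf (nat_lit 19766648) (dlOf (nat_lit 1) (nat_lit 0x8400089dc901))))) (.nd (nat_lit 7) 
(.nd (nat_lit 9) (.lf (nat_lit 16613432) (dlOf (nat_lit 2) (nat_lit 0x180000000002009200088c0901))) 
(.lf (nat_lit 45451832) (dlOf (nat_lit 2) (nat_lit 0x1033a8005196c0005f0400080019325201)))) 
(.nd (nat_lit 6) (.lf (nat_lit 37586104) (dlOf (nat_lit 1) (nat_lit 0x4002000200090d2c82))) 
(.lf (nat_lit 8226040) (dlOf (nat_lit 2) (nat_lit 0x40f70000a40800400080024002000c0008512e83))))))) 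
(.nd (nat_lit 27) (.nd (nat_lit 30) (.nd (nat_lit 26) (.nd (nat_lit 6) (.nd (nat_lit 8) 
(.lf (nat_lit 4563763256) (dlOf (nat_lit 2) (nat_lit 0xa0148002080802b800800f000200f000080d0483))) 
(.lf (nat_lit 2953150776) (dlOf (nat_lit 1) (nat_lit 0x6a0018160701)))) 
(.lf (nat_lit 2953150584) (dlOf (nat_lit 3) (nat_lit 0x700980051408005004c001400a001420400480018160481)))) 
(.nd (nat_lit 29) (.lf (nat_lit 335904824) (dlOf (nat_lit 1) (nat_lit 0x50002001600080d0c82))) 
(.lf (nat_lit 872775736) (dlOf (nat_lit 2) (nat_lit 0x101c800080d0000c0360001406000200280d0b81))))) 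
(.nd (nat_lit 20) (.nd (nat_lit 26) (.nd (nat_lit 8) 
(.lf (nat_lit 6174375992) (dlOf (nat_lit 1) (nat_lit 0x80018130b81))) 
(.lf (nat_lit 1343062328) (dlOf (nat_lit 1) (nat_lit 0xb000200260008150702)))) (.nd (nat_lit 32) 
(.lf (nat_lit 1409646648) (dlOf (nat_lit 1) (nat_lit 0x60028060701))) 
(.lf (nat_lit 5704613944) (dlOf (nat_lit 1) (nat_lit 0xe0008130b81))))) (.nd (nat_lit 6) 
(.nd (nat_lit 7) (.lf (nat_lit 1344116536) (dlOf (nat_lit 1) (nat_lit 0x4004001400083da102))) 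
(.lf (nat_lit 3493169336) (dlOf (nat_lit 2) (nat_lit 0x3606000001c0801a00080074002007c00080f4903)))) 
(.lf (nat_lit 3493168888) (dlOf (nat_lit 2) (nat_lit 0x1008b000198180f3b80)))))) (.nd (nat_lit 26) 
(.nd (nat_lit 30) (.nd (nat_lit 29) (.nd (nat_lit 32) 
(.lf (nat_lit 403013688) (dlOf (nat_lit 1) (nat_lit 0x8004000600080d0b82))) 
(.lf (nat_lit 4697980984) (dlOf (nat_lit 2) (nat_lit 0xa0148002080802b800800f000200f000080d0483)))) 
(.lf (nat_lit 5234851896) (dlOf (nat_lit 1) (nat_lit 0x20028100481)))) (.nd (nat_lit 6) 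
(.lf (nat_lit 1476755512) (dlOf (nat_lit 1) (nat_lit 0x28008000400200020008180903))) 
(.lf (nat_lit 5773295736) (dlOf (nat_lit 2) (nat_lit 0x101c8001900800100080008002000600080c0b83))))) 
(.nd (nat_lit 30) (.nd (nat_lit 8) 
(.lf (nat_lit 474316856) (dlOf (nat_lit 3) (nat_lit 0x6207000305a000202480028006000510800081c20001b819140b80))) 
(.nd (nat_lit 9) (.lf (nat_lit 470647096) (dlOf (nat_lit 1) (nat_lit 0x20028150701))) 
(.lf (nat_lit 471701304) (dlOf (nat_lit 1) (nat_lit 0x1000083da101))))) (.nd (nat_lit 6) 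
(.nd (nat_lit 7) (.lf (nat_lit 1543864376) (dlOf (nat_lit 2) (nat_lit 0x13801a002a78181a0700))) 
(.lf (nat_lit 2080735416) (dlOf (nat_lit 1) (nat_lit 0x10004000800080c1702)))) 
(.lf (nat_lit 2080735352) (dlOf (nat_lit 2) (nat_lit 0x600280040000000c8080048004001000180c0b82)))))))))) 
(.nd (nat_lit 5) (.nd (nat_lit 6) (.nd (nat_lit 26) (.nd (nat_lit 18) (.nd (nat_lit 19) 
(.nd (nat_lit 27) (.nd (nat_lit 24) (.nd (nat_lit 8) (.nd (nat_lit 21) 
(.lf (nat_lit 1342406680) (dlOf (nat_lit 5) (nat_lit 0x130e68006ac0804e07340034a0400c039a001a20200141cd000c5818020480))) 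
(.lf (nat_lit 2326552) (dlOf (nat_lit 1) (nat_lit 0x90004002c0018150002)))) 
(.lf (nat_lit 8622872) (dlOf (nat_lit 1) (nat_lit 0x2400400220008518f82)))) (.nd (nat_lit 10) 
(.nd (nat_lit 21) 
(.lf (nat_lit 29589528) (dlOf (nat_lit 2) (nat_lit 0x119d6001e99000018028e20400))) 
(.lf (nat_lit 52658200) (dlOf (nat_lit 4) (nat_lit 0x3ae960012381003e6750005500800c38b80012804007400400660009560602)))) 
(.lf (nat_lit 54758424) (dlOf (nat_lit 2) (nat_lit 0x18340800054080078008008c00200040009656003))))) 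
(.nd (nat_lit 8) (.nd (nat_lit 28) 
(.lf (nat_lit 134447128) (dlOf (nat_lit 2) (nat_lit 0x202f000c5818020480))) 
(.lf (nat_lit 6308462616) (dlOf (nat_lit 1) (nat_lit 0x2e00280c0181)))) (.nd (nat_lit 7) 
(.lf (nat_lit 2818806040) (dlOf (nat_lit 1) (nat_lit 0x140028128081))) 
(.lf (nat_lit 2550366616) (dlOf (nat_lit 1) (nat_lit 0x60018090781)))))) (.nd (nat_lit 21) 
(.nd (nat_lit 29) (.nd (nat_lit 22) 
(.lf (nat_lit 1342930968) (dlOf (nat_lit 2) (nat_lit 0x5113000570080008008006800200320008110a83))) 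
(.lf (nat_lit 4947992) (dlOf (nat_lit 3) (nat_lit 0x2c181c014cbf700a553c00592998003fa10003581c0008bf7000953c0007f01801680080060002000a00082d0083)))) 
(.nd (nat_lit 27) 
(.lf (nat_lit 537624600) (dlOf (nat_lit 4) (nat_lit 0x2880c8000640401580a200ea032000188200040190000bc0800100080074002000200080e0383))) 
(.lf (nat_lit 2819325976) (dlOf (nat_lit 1) (nat_lit 0x1b0008009c00200cc0008240483))))) 
(.nd (nat_lit 10) (.lf (nat_lit 16482328) (dlOf (nat_lit 1) (nat_lit 0xc4004000200188b0482))) 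
(.lf (nat_lit 36406296) (dlOf (nat_lit 1) (nat_lit 0x20019072881)))))) (.nd (nat_lit 30) 
(.nd (nat_lit 19) (.nd (nat_lit 7) (.nd (nat_lit 9) 
(.lf (nat_lit 1540120) (dlOf (nat_lit 1) (nat_lit 0x18008000c002000800080e0a83))) 
(.lf (nat_lit 134709784) (dlOf (nat_lit 1) (nat_lit 0x180028090d81)))) 
(.lf (nat_lit 537362584) (dlOf (nat_lit 2) (nat_lit 0x402f8000bc080098008000400200040008090183)))) 
(.nd (nat_lit 21) (.nd (nat_lit 20) 
(.lf (nat_lit 17793048) (dlOf (nat_lit 1) (nat_lit 0x200288f0901))) 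
(.lf (nat_lit 14647320) (dlOf (nat_lit 3) (nat_lit 0x2ba19000f5810084d0c8007a80800c0008001000200080008770083)))) 
(.nd (nat_lit 8) (.lf (nat_lit 24085016) (dlOf (nat_lit 1) (nat_lit 0x1a0008b80d81))) 
(.lf (nat_lit 24084760) (dlOf (nat_lit 1) (nat_lit 0x1000200020008b80482)))))) (.nd (nat_lit 7) 
(.nd (nat_lit 29) (.nd (nat_lit 19) 
(.lf (nat_lit 3492249624) (dlOf (nat_lit 1) (nat_lit 0x30008001c002000600080b0903))) 
(.lf (nat_lit 1343193112) (dlOf (nat_lit 1) (nat_lit 0x400400020018190082)))) (.nd (nat_lit 28) 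
(.lf (nat_lit 5906071576) (dlOf (nat_lit 5) (nat_lit 0x50128007f00800a0094002ba04000c04a00151020004025000400b8004d0100010008008800200460008190a83))) 
(.lf (nat_lit 4027023384) (dlOf (nat_lit 1) (nat_lit 0x4004000200081b0002))))) (.nd (nat_lit 10) 
(.lf (nat_lit 3624370328) (dlOf (nat_lit 1) (nat_lit 0x26400201660008184082))) 
(.lf (nat_lit 3490155672) (dlOf (nat_lit 1) (nat_lit 0x4000400240018006202))))))) (.nd (nat_lit 28) 
(.nd (nat_lit 18) (.nd (nat_lit 9) (.nd (nat_lit 10) (.nd (nat_lit 27) 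
(.lf (nat_lit 4362305560) (dlOf (nat_lit 1) (nat_lit 0xa000200120008020482))) 
(.lf (nat_lit 1812168728) (dlOf (nat_lit 2) (nat_lit 0x1f0060024c016014000400390000000002003d00080874002006a0008160483)))) 
(.lf (nat_lit 2751693848) (dlOf (nat_lit 1) (nat_lit 0x20008002881)))) (.nd (nat_lit 7) 
(.lf (nat_lit 3959659032) (dlOf (nat_lit 2) (nat_lit 0x48118000408600c13040018002811b281))) 
(.lf (nat_lit 2751694744) (dlOf (nat_lit 1) (nat_lit 0x20008004201))))) (.nd (nat_lit 27) 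
(.nd (nat_lit 9) (.nd (nat_lit 21) 
(.lf (nat_lit 6510051352) (dlOf (nat_lit 5) (nat_lit 0x50130007a8080018098002b604005004c00158020004026000400b8004d0100010008008800200460008190a83))) 
(.lf (nat_lit 2754052120) (dlOf (nat_lit 1) (nat_lit 0x30008001c002000600080b0903)))) 
(.lf (nat_lit 2751961624) (dlOf (nat_lit 1) (nat_lit 0xa000800b281)))) (.nd (nat_lit 7) 
(.lf (nat_lit 738689048) (dlOf (nat_lit 1) (nat_lit 0x880080024002005a00080e0483))) 
(.lf (nat_lit 2886172824) (dlOf (nat_lit 1) (nat_lit 0x26400201660008184082)))))) (.nd (nat_lit 19) 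
(.nd (nat_lit 7) (.nd (nat_lit 31) (.nd (nat_lit 27) 
(.lf (nat_lit 5704482840) (dlOf (nat_lit 1) (nat_lit 0x2e00280c0181))) 
(.lf (nat_lit 469991448) (dlOf (nat_lit 3) (nat_lit 0x28039a0011d0200ee1cd0007d818020480)))) 
(.nd (nat_lit 29) (.lf (nat_lit 3691216920) (dlOf (nat_lit 2) (nat_lit 0x2a01d000c90180a0480))) 
(.lf (nat_lit 4228087832) (dlOf (nat_lit 1) (nat_lit 0xa000200120008020482))))) (.nd (nat_lit 10) 
(.lf (nat_lit 1409777816) (dlOf (nat_lit 2) (nat_lit 0x402f8000bc080098008000400200040008090183))) 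
(.lf (nat_lit 474186904) (dlOf (nat_lit 1) (nat_lit 0x8004000200090e2b82))))) (.nd (nat_lit 21) 
(.nd (nat_lit 27) 
(.lf (nat_lit 1410039832) (dlOf (nat_lit 4) (nat_lit 0x2880c80005e0401580a200ea032000170200040190000b00800100080074002000200080e0383))) 
(.nd (nat_lit 29) 
(.lf (nat_lit 470515736) (dlOf (nat_lit 2) (nat_lit 0x5113000548080008008006800200320008110a83))) 
(.lf (nat_lit 3154870296) (dlOf (nat_lit 1) (nat_lit 0x60018360481))))) (.nd (nat_lit 8) 
(.lf (nat_lit 472612888) (dlOf (nat_lit 2) (nat_lit 0x304ec003da040028004001000089c0082))) 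
(.lf (nat_lit 473661720) (dlOf (nat_lit 1) (nat_lit 0x3000400300008f97502)))))))) (.nd (nat_lit 18) 
(.nd (nat_lit 7) (.nd (nat_lit 8) (.nd (nat_lit 19) (.nd (nat_lit 27) (.nd (nat_lit 22) 
(.lf (nat_lit 4295196760) (dlOf (nat_lit 1) (nat_lit 0x200180a1101))) 
(.lf (nat_lit 63144024) (dlOf (nat_lit 1) (nat_lit 0x200299e0801)))) (.nd (nat_lit 26) 
(.lf (nat_lit 4429414488) (dlOf (nat_lit 1) (nat_lit 0x200180a1101))) 
(.lf (nat_lit 469991512) (dlOf (nat_lit 1) (nat_lit 0x40018020901))))) (.nd (nat_lit 10) 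
(.lf (nat_lit 4096491608) (dlOf (nat_lit 2) (nat_lit 0x402a00019818120600))) 
(.lf (nat_lit 38503512) (dlOf (nat_lit 1) (nat_lit 0x40019132901))))) (.nd (nat_lit 9) 
(.nd (nat_lit 22) (.nd (nat_lit 26) 
(.lf (nat_lit 4563632472) (dlOf (nat_lit 1) (nat_lit 0x80080020002002200080a7083))) 
(.lf (nat_lit 1677951320) (dlOf (nat_lit 1) (nat_lit 0x2000400080018124e02)))) 
(.lf (nat_lit 4424024) (dlOf (nat_lit 3) (nat_lit 0xcbbc000740100035de000028080008008000400200040008290883)))) 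
(.nd (nat_lit 26) 
(.lf (nat_lit 5100505944) (dlOf (nat_lit 1) (nat_lit 0x200080008002000600080d5c03))) 
(.lf (nat_lit 4899179352) (dlOf (nat_lit 1) (nat_lit 0x200080008002000400080d5c03)))))) 
(.nd (nat_lit 19) (.nd (nat_lit 21) (.nd (nat_lit 8) (.nd (nat_lit 26) 
(.lf (nat_lit 3494084824) (dlOf (nat_lit 1) (nat_lit 0x100080004002000200081b0483))) 
(.lf (nat_lit 2755887320) (dlOf (nat_lit 1) (nat_lit 0x4002000200081b0482)))) 
(.lf (nat_lit 3825435096) (dlOf (nat_lit 1) (nat_lit 0x320028157101)))) (.nd (nat_lit 26) 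
(.lf (nat_lit 2326744) (dlOf (nat_lit 3) (nat_lit 0x269c2c01c2cee000b882004b6770002500800680080080002003a0008150483))) 
(.lf (nat_lit 1008959704) (dlOf (nat_lit 1) (nat_lit 0x20029000981))))) (.nd (nat_lit 21) 
(.nd (nat_lit 11) (.lf (nat_lit 9142488) (dlOf (nat_lit 1) (nat_lit 0x20028523f01))) 
(.lf (nat_lit 2752219352) (dlOf (nat_lit 1) (nat_lit 0x40028004a81)))) (.nd (nat_lit 8) 
(.lf (nat_lit 8098008) (dlOf (nat_lit 1) (nat_lit 0x20028518081))) 
(.lf (nat_lit 69960152) (dlOf (nat_lit 1) (nat_lit 0x400400020008e27b02))))))) (.nd (nat_lit 28) 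
(.nd (nat_lit 7) (.nd (nat_lit 20) (.nd (nat_lit 27) (.nd (nat_lit 8) 
(.lf (nat_lit 21463128) (dlOf (nat_lit 4) (nat_lit 0x1f41d2000400200ca0e90001f8100140748000f80800b0008000c00200080008a40603))) 
(.lf (nat_lit 492888) (dlOf (nat_lit 1) (nat_lit 0x20028003381)))) (.nd (nat_lit 29) 
(.lf (nat_lit 134709336) (dlOf (nat_lit 1) (nat_lit 0x8c00400080018090002))) 
(.lf (nat_lit 3892805720) (dlOf (nat_lit 1) (nat_lit 0x68008000800200080008280383))))) 
(.nd (nat_lit 19) (.lf (nat_lit 37191768) (dlOf (nat_lit 1) (nat_lit 0x8c002000e00090b0802))) 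
(.lf (nat_lit 20938840) (dlOf (nat_lit 1) (nat_lit 0xa00289f0701))))) (.nd (nat_lit 8) 
(.lf (nat_lit 1678213336) (dlOf (nat_lit 2) (nat_lit 0x49016800250080008008000c002000200081a0483))) 
(.lf (nat_lit 495576) (dlOf (nat_lit 1) (nat_lit 0x8008000400200020008007a83))))) (.nd (nat_lit 26) 
(.nd (nat_lit 7) (.nd (nat_lit 8) 
(.lf (nat_lit 1346341464) (dlOf (nat_lit 20) (nat_lit 0x482d2003401d0001402008c0b4800d85a0010028a017c01d000900e0000982803f05a401dc03a0001f04011c169007a00e8000741003c05a4002428a00e401d0000d0300790b4800a8514002c18e00dc01d0000c8400690b4800c051401a403a00018060006169005c00e80005c1001185a4003c03a000140400b4169002400e80004c1000985a400c803a0001004003001d0000781002500e800034080068074000180401e42d2001e168007900e8000141803a05a400282d000f201d000018300230b480178074000040800442d2000201d000008200090b4001900740000008005c00200200008f05302))) 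
(.nd (nat_lit 10) 
(.lf (nat_lit 3490677080) (dlOf (nat_lit 1) (nat_lit 0x400080030002000c0008014d83))) 
(.lf (nat_lit 3490155864) (dlOf (nat_lit 1) (nat_lit 0x20018006a81))))) (.nd (nat_lit 27) 
(.nd (nat_lit 29) 
(.lf (nat_lit 2416410840) (dlOf (nat_lit 1) (nat_lit 0x180080008002000200081b0483))) 
(.lf (nat_lit 805798104) (dlOf (nat_lit 2) (nat_lit 0x49016800250080008008000c002000200081a0483)))) 
(.lf (nat_lit 2550628568) (dlOf (nat_lit 1) (nat_lit 0x180080008002000200081b0483))))) 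
(.nd (nat_lit 27) (.nd (nat_lit 7) (.nd (nat_lit 20) 
(.lf (nat_lit 6241615960) (dlOf (nat_lit 1) (nat_lit 0x280018131b81))) 
(.lf (nat_lit 4095180888) (dlOf (nat_lit 1) (nat_lit 0x60008070701)))) 
(.lf (nat_lit 872907224) (dlOf (nat_lit 3) (nat_lit 0xe8114005c086000603e00100000008bc2000b011400434040220004001800080f7b02)))) 
(.nd (nat_lit 9) (.nd (nat_lit 21) 
(.lf (nat_lit 4228350040) (dlOf (nat_lit 1) (nat_lit 0x100028090001))) 
(.lf (nat_lit 472350808) (dlOf (nat_lit 1) (nat_lit 0x1c00400300008980002)))) 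
(.lf (nat_lit 474450520) (dlOf (nat_lit 1) (nat_lit 0x14002000a0009165302))))))))) (.nd (nat_lit 6) 
(.nd (nat_lit 21) (.nd (nat_lit 26) (.nd (nat_lit 28) (.nd (nat_lit 18) (.nd (nat_lit 23) 
(.nd (nat_lit 8) (.nd (nat_lit 32) 
(.lf (nat_lit 134447160) (dlOf (nat_lit 3) (nat_lit 0x1160208001400800081040009404001000400020008020682))) 
(.lf (nat_lit 4429414456) (dlOf (nat_lit 1) (nat_lit 0xe00080a0a81)))) 
(.lf (nat_lit 1611366712) (dlOf (nat_lit 1) (nat_lit 0x3f8008000400200180008167b03)))) 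
(.nd (nat_lit 22) (.lf (nat_lit 25395256) (dlOf (nat_lit 1) (nat_lit 0x94002002e0008c00782))) 
(.nd (nat_lit 24) (.lf (nat_lit 12812344) (dlOf (nat_lit 1) (nat_lit 0x4004000200086e0b02))) 
(.lf (nat_lit 63143992) (dlOf (nat_lit 2) (nat_lit 0x126a00000c0800180080008002000600099e0503)))))) 
(.nd (nat_lit 8) (.nd (nat_lit 9) 
(.lf (nat_lit 30900280) (dlOf (nat_lit 1) (nat_lit 0x20008e50c01))) 
(.lf (nat_lit 34572856) (dlOf (nat_lit 1) (nat_lit 0x400400020008fb5202)))) (.nd (nat_lit 9) 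
(.lf (nat_lit 496952) (dlOf (nat_lit 1) (nat_lit 0x20028009901))) 
(.lf (nat_lit 493368) (dlOf (nat_lit 1) (nat_lit 0xe0008003e01)))))) (.nd (nat_lit 27) 
(.nd (nat_lit 7) (.nd (nat_lit 9) 
(.lf (nat_lit 3490938936) (dlOf (nat_lit 2) (nat_lit 0x2e0b500012018030d00))) 
(.lf (nat_lit 805536312) (dlOf (nat_lit 1) (nat_lit 0x380018128181)))) 
(.lf (nat_lit 4027023544) (dlOf (nat_lit 3) (nat_lit 0x80000002404000c0000001102001000081b0381)))) 
(.nd (nat_lit 30) (.nd (nat_lit 9) 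
(.lf (nat_lit 939753528) (dlOf (nat_lit 1) (nat_lit 0x380080034002003c0008160683))) 
(.lf (nat_lit 5234722360) (dlOf (nat_lit 1) (nat_lit 0x200080d3781)))) (.nd (nat_lit 18) 
(.lf (nat_lit 6308462648) (dlOf (nat_lit 2) (nat_lit 0x200b0001580801e00080030002002c00080c0683))) 
(.lf (nat_lit 5773426744) (dlOf (nat_lit 1) (nat_lit 0x200080d0b81))))))) (.nd (nat_lit 30) 
(.nd (nat_lit 20) (.nd (nat_lit 27) (.nd (nat_lit 8) 
(.lf (nat_lit 4362305592) (dlOf (nat_lit 1) (nat_lit 0x8008000400200020008020703))) 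
(.lf (nat_lit 4899179320) (dlOf (nat_lit 2) (nat_lit 0xc0640008e02000200180d5c01)))) 
(.nd (nat_lit 31) 
(.lf (nat_lit 201556024) (dlOf (nat_lit 3) (nat_lit 0x1160208001400800081040009404001000400020008020682))) 
(.lf (nat_lit 2349039672) (dlOf (nat_lit 2) (nat_lit 0xa801e009580200980018090001))))) 
(.nd (nat_lit 18) (.lf (nat_lit 2752741432) (dlOf (nat_lit 2) (nat_lit 0x2e0e500015018030d00))) 
(.lf (nat_lit 69173304) (dlOf (nat_lit 2) (nat_lit 0x3021c00000040008002000600088c0502))))) 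
(.nd (nat_lit 27) (.nd (nat_lit 7) (.nd (nat_lit 18) 
(.lf (nat_lit 5704482872) (dlOf (nat_lit 2) (nat_lit 0x200b0001580801e00080030002002c00080c0683))) 
(.lf (nat_lit 3288825912) (dlOf (nat_lit 1) (nat_lit 0xa00181b0001)))) 
(.lf (nat_lit 3288826040) (dlOf (nat_lit 3) (nat_lit 0x80000002404000c0000001102001000081b0381)))) 
(.nd (nat_lit 9) (.nd (nat_lit 28) 
(.lf (nat_lit 1812168760) (dlOf (nat_lit 1) (nat_lit 0x380080034002003c0008160683))) 
(.lf (nat_lit 4228087864) (dlOf (nat_lit 1) (nat_lit 0x8008000400200020008020703)))) 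
(.lf (nat_lit 3422787128) (dlOf (nat_lit 1) (nat_lit 0x124002000200080a9c02))))))) 
(.nd (nat_lit 20) (.nd (nat_lit 18) (.nd (nat_lit 19) (.nd (nat_lit 8) 
(.lf (nat_lit 56852536) (dlOf (nat_lit 1) (nat_lit 0x60029770501))) 
(.lf (nat_lit 2326840) (dlOf (nat_lit 2) (nat_lit 0xc76770000940801b80080158002001c0008150583)))) 
(.nd (nat_lit 26) (.lf (nat_lit 2850872) (dlOf (nat_lit 1) (nat_lit 0x4002000400081c0b82))) 
(.lf (nat_lit 1009483832) (dlOf (nat_lit 1) (nat_lit 0x50008008c002003000091a0503))))) 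
(.nd (nat_lit 25) (.nd (nat_lit 24) 
(.lf (nat_lit 2588728) (dlOf (nat_lit 2) (nat_lit 0x6688000e00000000028170b00))) 
(.lf (nat_lit 19365944) (dlOf (nat_lit 1) (nat_lit 0x40008990c01)))) (.nd (nat_lit 9) 
(.lf (nat_lit 48726072) (dlOf (nat_lit 8) (nat_lit 0x56e7c0002f02000d73e00017010001b9f0000ac08000dcf800054040012e7c0002902000efeb000018100037f58000000802600080018002000e0009420503))) 
(.lf (nat_lit 36670008) (dlOf (nat_lit 1) (nat_lit 0x400200040009075202)))))) (.nd (nat_lit 9) 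
(.nd (nat_lit 7) (.nd (nat_lit 18) 
(.lf (nat_lit 45842488) (dlOf (nat_lit 1) (nat_lit 0x8a0029360501))) 
(.lf (nat_lit 473923640) (dlOf (nat_lit 2) (nat_lit 0xdd0af8079835c00000080078004000c0008fc0502)))) 
(.nd (nat_lit 10) (.lf (nat_lit 8094136) (dlOf (nat_lit 1) (nat_lit 0x400200020008511002))) 
(.lf (nat_lit 8095160) (dlOf (nat_lit 1) (nat_lit 0x400200020008513602))))) (.nd (nat_lit 11) 
(.lf (nat_lit 8094264) (dlOf (nat_lit 1) (nat_lit 0xc0018511481))) (.nd (nat_lit 19) 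
(.lf (nat_lit 36932152) (dlOf (nat_lit 1) (nat_lit 0x20019075201))) 
(.lf (nat_lit 58427960) (dlOf (nat_lit 1) (nat_lit 0xc800802c0002011a00097e5203)))))))) 
(.nd (nat_lit 7) (.nd (nat_lit 9) (.nd (nat_lit 8) (.nd (nat_lit 19) (.nd (nat_lit 20) 
(.lf (nat_lit 2349039736) (dlOf (nat_lit 4) (nat_lit 0x1800800088038003fe08000c01c001fc02002c010000e0070007e01001c0008009c00200400008090083))) 
(.lf (nat_lit 62095480) (dlOf (nat_lit 4) (nat_lit 0x10e8000386fc002809c000470600221bf0004027000118100028650000809c000380400480019950b81)))) 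
(.lf (nat_lit 473661560) (dlOf (nat_lit 1) (nat_lit 0x1180080064002002c0008f92903)))) 
(.nd (nat_lit 28) (.nd (nat_lit 18) (.nd (nat_lit 21) 
(.lf (nat_lit 3288564088) (dlOf (nat_lit 1) (nat_lit 0x20028090781))) 
(.lf (nat_lit 23298424) (dlOf (nat_lit 1) (nat_lit 0x20008000800200040008b80783)))) 
(.lf (nat_lit 537362808) (dlOf (nat_lit 1) (nat_lit 0x10008000800200020008090783)))) 
(.nd (nat_lit 10) 
(.lf (nat_lit 4563632504) (dlOf (nat_lit 1) (nat_lit 0xc80080028002001600080a7d03))) 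
(.lf (nat_lit 5234722168) (dlOf (nat_lit 1) (nat_lit 0x200080d3501)))))) (.nd (nat_lit 8) 
(.nd (nat_lit 10) (.nd (nat_lit 26) 
(.lf (nat_lit 5100505720) (dlOf (nat_lit 1) (nat_lit 0xc002000200080d5402))) 
(.lf (nat_lit 4899179128) (dlOf (nat_lit 1) (nat_lit 0x80080004002000200080d5403)))) 
(.nd (nat_lit 12) 
(.lf (nat_lit 474187384) (dlOf (nat_lit 17) (nat_lit 0x845c022a225001e105805086c80604000000560a019e22e017911280df082c06ec3640005508018823b001c11c813588d800a03ec00201f400030e80001873801e0380032017000400b70001385000108d80009a0407c446c00c81c00002602000f0b90001140800385c8000880400242e40004302004e2360001d8101d411b0000e00800889080310476050223600270e000c385c00006e1409dc46c000350201182360001a0100020d58000c80812208b80cc444a061c20b02ff0d900004c2000388b803d044a018e20b00be0d90000482000d800804fc002024400090e3983))) 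
(.lf (nat_lit 20158072) (dlOf (nat_lit 1) (nat_lit 0x1d00080048002004a00089d9d03))))) 
(.nd (nat_lit 18) (.nd (nat_lit 11) 
(.lf (nat_lit 4160979832) (dlOf (nat_lit 1) (nat_lit 0x1600180a2581))) 
(.lf (nat_lit 54758264) (dlOf (nat_lit 3) (nat_lit 0x1340800248080009a040000204000400400060009655c02)))) 
(.nd (nat_lit 20) (.lf (nat_lit 5771856760) (dlOf (nat_lit 1) (nat_lit 0x20028005c01))) 
(.lf (nat_lit 60263288) (dlOf (nat_lit 1) (nat_lit 0x400400020009845c02))))))) (.nd (nat_lit 18) 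
(.nd (nat_lit 9) (.nd (nat_lit 26) (.nd (nat_lit 19) 
(.lf (nat_lit 671318520) (dlOf (nat_lit 1) (nat_lit 0x8008001000200260008157e03))) 
(.lf (nat_lit 754168) (dlOf (nat_lit 1) (nat_lit 0x20018017e01)))) (.nd (nat_lit 27) 
(.lf (nat_lit 1677951480) (dlOf (nat_lit 2) (nat_lit 0x1040000004002000e0008127e01))) 
(.lf (nat_lit 1543733752) (dlOf (nat_lit 1) (nat_lit 0x1c00200260008157802))))) (.nd (nat_lit 8) 
(.lf (nat_lit 2214822648) (dlOf (nat_lit 1) (nat_lit 0x1600280a2101))) (.nd (nat_lit 11) 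
(.lf (nat_lit 36406264) (dlOf (nat_lit 1) (nat_lit 0x400200b00009072882))) 
(.lf (nat_lit 4630744056) (dlOf (nat_lit 1) (nat_lit 0x900018095f01)))))) (.nd (nat_lit 8) 
(.nd (nat_lit 19) (.nd (nat_lit 20) 
(.lf (nat_lit 1009221880) (dlOf (nat_lit 1) (nat_lit 0xc002000800090a2482))) 
(.lf (nat_lit 35094776) (dlOf (nat_lit 1) (nat_lit 0x154002001a0008fd2482)))) (.nd (nat_lit 21) 
(.lf (nat_lit 38764792) (dlOf (nat_lit 1) (nat_lit 0x400201220009152482))) 
(.lf (nat_lit 19890424) (dlOf (nat_lit 1) (nat_lit 0x80080004002000200089d0a83))))) 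
(.nd (nat_lit 9) (.nd (nat_lit 10) 
(.lf (nat_lit 134709752) (dlOf (nat_lit 2) (nat_lit 0x40820000602000e0028090d81))) 
(.nd (nat_lit 12) (.lf (nat_lit 3490156024) (dlOf (nat_lit 1) (nat_lit 0x3e0018006f81))) 
(.lf (nat_lit 499192) (dlOf (nat_lit 1) (nat_lit 0x2a000800cd01))))) (.nd (nat_lit 10) 
(.lf (nat_lit 498680) (dlOf (nat_lit 1) (nat_lit 0x6002800bf01))) 
(.lf (nat_lit 497656) (dlOf (nat_lit 1) (nat_lit 0x152001800a601))))))))))))

end

end Pool.Agent.Lib.MP_5854e1_co.Cz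

namespace Pool.Agent.Lib.MP_5854e1_co.Cz

noncomputable section

noncomputable def tz23 : DT := (.nd (nat_lit 5) (.nd (nat_lit 4) (.nd (nat_lit 17) 
(.nd (nat_lit 30) (.nd (nat_lit 7) (.nd (nat_lit 20) (.nd (nat_lit 18) (.nd (nat_lit 19) 
(.nd (nat_lit 23) (.nd (nat_lit 26) 
(.lf (nat_lit 4966162440) (dlOf (nat_lit 1) (nat_lit 0x8008000400200020008030003))) 
(.nd (nat_lit 31) 
(.lf (nat_lit 5033271304) (dlOf (nat_lit 1) (nat_lit 0x8008000400200020008030003))) 
(.lf (nat_lit 2885787656) (dlOf (nat_lit 1) (nat_lit 0x280080008002000c0008070003))))) 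
(.nd (nat_lit 21) (.lf (nat_lit 25272328) (dlOf (nat_lit 1) (nat_lit 0x8008000400200020008bf0483))) 
(.nd (nat_lit 25) (.lf (nat_lit 10592264) (dlOf (nat_lit 1) (nat_lit 0x400400020018600002))) 
(.lf (nat_lit 44146696) (dlOf (nat_lit 1) (nat_lit 0x8004000200092d0002)))))) (.nd (nat_lit 6) 
(.nd (nat_lit 9) 
(.lf (nat_lit 805937160) (dlOf (nat_lit 3) (nat_lit 0x101c00086008002013c0042604007c004000400081f0582))) 
(.lf (nat_lit 634376) (dlOf (nat_lit 1) (nat_lit 0x20018007001)))) (.nd (nat_lit 8) 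
(.lf (nat_lit 637000) (dlOf (nat_lit 1) (nat_lit 0x2002800a681))) 
(.lf (nat_lit 23699784) (dlOf (nat_lit 1) (nat_lit 0x400400020008b80602)))))) (.nd (nat_lit 27) 
(.nd (nat_lit 22) (.nd (nat_lit 6) (.nd (nat_lit 21) 
(.lf (nat_lit 604348424) (dlOf (nat_lit 4) (nat_lit 0x800c00120058000c02a0042011001000800038038016000e000c0060015001800d00080098000006281600020110031101000a00b001b001c00b7208002000400100008190282))) 
(.lf (nat_lit 2465800) (dlOf (nat_lit 1) (nat_lit 0x360008160401)))) 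
(.lf (nat_lit 2483402824) (dlOf (nat_lit 2) (nat_lit 0xb00a80040050001200c00090018008902001480080244002000400080fa683)))) 
(.nd (nat_lit 6) (.nd (nat_lit 19) 
(.lf (nat_lit 2756026376) (dlOf (nat_lit 5) (nat_lit 0xc456000622a000711480020854010ca10001c456000e22a000a11480030854010c8100028456001222a000711480030854010c6100014456000a22a000711480048854010c0100004002000400081d0002))) 
(.lf (nat_lit 15573000) (dlOf (nat_lit 1) (nat_lit 0x8008000400200020008800283)))) 
(.lf (nat_lit 21864520) (dlOf (nat_lit 1) (nat_lit 0x400400020008a70882))))) (.nd (nat_lit 28) 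
(.nd (nat_lit 6) 
(.lf (nat_lit 671457288) (dlOf (nat_lit 2) (nat_lit 0x1c00300053c08004800800a0002004000081a0483))) 
(.lf (nat_lit 738566216) (dlOf (nat_lit 1) (nat_lit 0x3c004001200080b0602)))) (.nd (nat_lit 29) 
(.nd (nat_lit 31) 
(.lf (nat_lit 470130696) (dlOf (nat_lit 5) (nat_lit 0x448e001170200022470008a8100031238003ec08001891c001ee04000400400380008050582))) 
(.lf (nat_lit 2617614344) (dlOf (nat_lit 2) (nat_lit 0x7802f0034d018100000)))) 
(.lf (nat_lit 1007001608) (dlOf (nat_lit 1) (nat_lit 0x20028130481))))))) (.nd (nat_lit 21) 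
(.nd (nat_lit 6) (.nd (nat_lit 18) (.nd (nat_lit 23) (.nd (nat_lit 24) 
(.lf (nat_lit 470917128) (dlOf (nat_lit 1) (nat_lit 0x300080004002002600081f0003))) 
(.lf (nat_lit 17932296) (dlOf (nat_lit 1) (nat_lit 0x2800400060008900582)))) 
(.lf (nat_lit 9543688) (dlOf (nat_lit 1) (nat_lit 0x10800200280008560482)))) (.nd (nat_lit 9) 
(.lf (nat_lit 22913032) (dlOf (nat_lit 2) (nat_lit 0x356f100000004014400400e60018b40002))) 
(.lf (nat_lit 43361800) (dlOf (nat_lit 2) (nat_lit 0x12a4b8001c80801000080088002003000092a3683))))) 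
(.nd (nat_lit 9) (.nd (nat_lit 19) 
(.lf (nat_lit 2752618568) (dlOf (nat_lit 2) (nat_lit 0x4600000012018020880))) 
(.lf (nat_lit 10068040) (dlOf (nat_lit 1) (nat_lit 0x4004000200085b0882)))) 
(.lf (nat_lit 2753143368) (dlOf (nat_lit 2) (nat_lit 0x53107803307fc0004c08000400400020008091102))))) 
(.nd (nat_lit 19) (.nd (nat_lit 6) (.nd (nat_lit 8) 
(.lf (nat_lit 28418056) (dlOf (nat_lit 2) (nat_lit 0x25bf80010d8e00386a90000b544000da800016cda00196648000b320017a820002400400040008d90282))) 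
(.lf (nat_lit 20032264) (dlOf (nat_lit 2) (nat_lit 0x17acf0000b80800180080068002000200089d5b03)))) 
(.nd (nat_lit 9) (.lf (nat_lit 24223816) (dlOf (nat_lit 1) (nat_lit 0x400200020008b90e02))) 
(.lf (nat_lit 11641416) (dlOf (nat_lit 1) (nat_lit 0x4002000200086c1102))))) (.nd (nat_lit 18) 
(.nd (nat_lit 22) (.lf (nat_lit 3776520) (dlOf (nat_lit 1) (nat_lit 0x2c00200160008220002))) 
(.lf (nat_lit 24748040) (dlOf (nat_lit 1) (nat_lit 0xa80008bb0001)))) 
(.lf (nat_lit 4038664) (dlOf (nat_lit 1) (nat_lit 0x20028270481))))))) (.nd (nat_lit 9) 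
(.nd (nat_lit 27) (.nd (nat_lit 8) (.nd (nat_lit 11) (.nd (nat_lit 18) 
(.lf (nat_lit 23699592) (dlOf (nat_lit 1) (nat_lit 0x400200020008b80102))) 
(.lf (nat_lit 11903112) (dlOf (nat_lit 1) (nat_lit 0x8002000200086c0102)))) 
(.lf (nat_lit 4295338120) (dlOf (nat_lit 1) (nat_lit 0x1c0018114801)))) (.nd (nat_lit 18) 
(.lf (nat_lit 8495496) (dlOf (nat_lit 1) (nat_lit 0x4000200200008511002))) 
(.lf (nat_lit 43360648) (dlOf (nat_lit 2) (nat_lit 0x6bfc0016602000600092a1001))))) 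
(.nd (nat_lit 10) (.nd (nat_lit 8) 
(.lf (nat_lit 4966162568) (dlOf (nat_lit 1) (nat_lit 0x4004000a0008030e02))) 
(.lf (nat_lit 3154225544) (dlOf (nat_lit 1) (nat_lit 0x8008000400200020008104e83)))) 
(.nd (nat_lit 6) (.lf (nat_lit 2818679944) (dlOf (nat_lit 1) (nat_lit 0x28002002200080d2b02))) 
(.lf (nat_lit 134327496) (dlOf (nat_lit 1) (nat_lit 0x30004003c0018006382)))))) (.nd (nat_lit 11) 
(.nd (nat_lit 19) (.nd (nat_lit 6) 
(.lf (nat_lit 201435016) (dlOf (nat_lit 1) (nat_lit 0x1400200020008004182))) (.nd (nat_lit 20) 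
(.lf (nat_lit 872522696) (dlOf (nat_lit 1) (nat_lit 0x160028092881))) 
(.lf (nat_lit 51487688) (dlOf (nat_lit 1) (nat_lit 0x18008000400200040009512883))))) 
(.nd (nat_lit 21) (.lf (nat_lit 34186184) (dlOf (nat_lit 1) (nat_lit 0x1a0028fb2881))) 
(.lf (nat_lit 57254856) (dlOf (nat_lit 2) (nat_lit 0x2aef0015a019792880))))) (.nd (nat_lit 6) 
(.nd (nat_lit 8) (.lf (nat_lit 637576) (dlOf (nat_lit 1) (nat_lit 0x2a000800b681))) 
(.lf (nat_lit 113544) (dlOf (nat_lit 1) (nat_lit 0x80020004000800bc82)))) (.nd (nat_lit 12) 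
(.lf (nat_lit 4563512264) (dlOf (nat_lit 1) (nat_lit 0x38008000400200020008095d83))) 
(.lf (nat_lit 2349185992) (dlOf (nat_lit 1) (nat_lit 0x18002000800080fbe82)))))))) 
(.nd (nat_lit 26) (.nd (nat_lit 18) (.nd (nat_lit 6) (.nd (nat_lit 7) (.nd (nat_lit 28) 
(.nd (nat_lit 27) 
(.lf (nat_lit 5368815624) (dlOf (nat_lit 1) (nat_lit 0x8008000400200020008030003))) 
(.lf (nat_lit 5503033352) (dlOf (nat_lit 1) (nat_lit 0x8008000400200020008030003)))) 
(.nd (nat_lit 19) 
(.lf (nat_lit 3623985160) (dlOf (nat_lit 1) (nat_lit 0x8008000c002000e0008070003))) 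
(.lf (nat_lit 5771993096) (dlOf (nat_lit 2) (nat_lit 0x602800e0f818030000))))) (.nd (nat_lit 27) 
(.nd (nat_lit 8) 
(.lf (nat_lit 5368815752) (dlOf (nat_lit 4) (nat_lit 0x28044008402000035040002015000800a0003004c0020022000c01000070070000d0300020054001c026000c01100030080000a8200040008007800200120008030f03))) 
(.lf (nat_lit 3758205320) (dlOf (nat_lit 1) (nat_lit 0x80080004002000200080d4e83)))) 
(.nd (nat_lit 19) 
(.lf (nat_lit 5503033480) (dlOf (nat_lit 4) (nat_lit 0xc0140005009800200440008020000a00e000e0020000d8300020054001c028000e013000700880030040001c01c000340c000c015000900a0003804c0020022000c01000070070000ac3000500080090002000a0008030e03))) 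
(.lf (nat_lit 5771993224) (dlOf (nat_lit 11) (nat_lit 0x20140000e40800280a00006c040050050000c0250002011800880800054030000350a000e02800150128001808c0020044002a020001900c0000d03000800a0000404a00040230004010000080600005a140080050000402600210128004808c001c044002a020001800c0000a83800e00a00002a04009c05000013020046028000060100240140000280809d80080144002006a0008030f03)))))) 
(.nd (nat_lit 19) (.nd (nat_lit 28) (.nd (nat_lit 7) 
(.lf (nat_lit 1073848904) (dlOf (nat_lit 1) (nat_lit 0x20008018d01))) 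
(.lf (nat_lit 5503033544) (dlOf (nat_lit 1) (nat_lit 0x2000400080008031782)))) (.nd (nat_lit 8) 
(.lf (nat_lit 3490816072) (dlOf (nat_lit 2) (nat_lit 0x4600000012018020880))) 
(.lf (nat_lit 3493962056) (dlOf (nat_lit 1) (nat_lit 0x3000281b0601))))) (.nd (nat_lit 9) 
(.nd (nat_lit 28) 
(.lf (nat_lit 3221856328) (dlOf (nat_lit 6) (nat_lit 0x210170000b80800400bc0004604004005e001402e000110200330178000400800400bc0001a040120004001000181a1482))) 
(.lf (nat_lit 1342808136) (dlOf (nat_lit 1) (nat_lit 0x280080018002001800080d0e03)))) 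
(.lf (nat_lit 3491340872) (dlOf (nat_lit 2) (nat_lit 0x530fd003307b40004c08000400400020008091102)))))) 
(.nd (nat_lit 31) (.nd (nat_lit 29) (.nd (nat_lit 27) (.nd (nat_lit 11) (.nd (nat_lit 22) 
(.lf (nat_lit 1342545928) (dlOf (nat_lit 5) (nat_lit 0x448e0011b0200022470008c8100031238003e808001891c001ee04000400400380008050582))) 
(.lf (nat_lit 1346740232) (dlOf (nat_lit 1) (nat_lit 0x20029000001)))) 
(.lf (nat_lit 1344120840) (dlOf (nat_lit 1) (nat_lit 0x200283d4701)))) (.nd (nat_lit 6) 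
(.lf (nat_lit 1476763656) (dlOf (nat_lit 4) (nat_lit 0x800c0012005c000c02c0042011001000800038038016000e000c0060015002000d0008009800000bbd160002011005db81000a00b801b001c0168a08002000400100008190282))) 
(.lf (nat_lit 1208328392) (dlOf (nat_lit 1) (nat_lit 0x4002000200080c1b82))))) (.nd (nat_lit 6) 
(.nd (nat_lit 21) (.lf (nat_lit 1879416840) (dlOf (nat_lit 1) (nat_lit 0x20028130481))) 
(.lf (nat_lit 1881513992) (dlOf (nat_lit 1) (nat_lit 0x8008000400200020008f40003)))) 
(.lf (nat_lit 1610981448) (dlOf (nat_lit 1) (nat_lit 0x3c004001200080b0602))))) (.nd (nat_lit 21) 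
(.nd (nat_lit 22) (.nd (nat_lit 27) 
(.lf (nat_lit 4026900488) (dlOf (nat_lit 2) (nat_lit 0x60120015480801a8008008000200b000080c0803))) 
(.lf (nat_lit 3355811848) (dlOf (nat_lit 11) (nat_lit 0x13c008003b0a040a0404001d8302053e02000eae010185010006d2c0811580800366e04080806401e2031029f00900808044027c01200cb50a01ae032000501880178048018920c006006400c240200a602f004d78102b10100000000803c0008009800200080008120003)))) 
(.lf (nat_lit 3494223880) (dlOf (nat_lit 5) (nat_lit 0xc42c0006215000710a0002080001d0a10001c42c000e215000a10a0003080001d0810002842c0012215000710a0003080001d0610001442c000a215000710a0004880001d00100004002000400081d0002)))) 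
(.nd (nat_lit 6) (.lf (nat_lit 3493177096) (dlOf (nat_lit 2) (nat_lit 0x342300000c8180f3b80))) 
(.lf (nat_lit 3492126792) (dlOf (nat_lit 3) (nat_lit 0x92022c000400401781160000b02008400180a0e01))))))) 
(.nd (nat_lit 6) (.nd (nat_lit 7) (.nd (nat_lit 18) (.nd (nat_lit 9) (.nd (nat_lit 27) 
(.lf (nat_lit 1678352392) (dlOf (nat_lit 3) (nat_lit 0x101c00087808002013c0043204007c004000400081f0582))) 
(.lf (nat_lit 6375972872) (dlOf (nat_lit 2) (nat_lit 0x602800c5d018030000)))) 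
(.lf (nat_lit 6241232392) (dlOf (nat_lit 2) (nat_lit 0x4004000360200020028053681)))) 
(.nd (nat_lit 27) 
(.lf (nat_lit 3288702984) (dlOf (nat_lit 2) (nat_lit 0x6012002bec0801a8008008000200b000080c0803))) 
(.lf (nat_lit 1543872520) (dlOf (nat_lit 2) (nat_lit 0x1c00300078008004800800a0002004000081a0483))))) 
(.nd (nat_lit 10) (.nd (nat_lit 8) (.nd (nat_lit 19) 
(.lf (nat_lit 5435924616) (dlOf (nat_lit 5) (nat_lit 0x2c07c0003602000603a001c01a8000d41000100f80006804002c07c0002b0200120008030e01))) 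
(.lf (nat_lit 6375973000) (dlOf (nat_lit 11) (nat_lit 0xa60280001d0100190140000809c000804c0016025000601180048088004c040002a0180001b08006901400198098011004a0068022001e00d801a00600006a180060050000c02600130128002808c00180440028020001600c0000d03801480a0001004c0002025000168300320140000b00800c00a0007004a000e0230008011000a0080005c0300002b0c009a028000068100150140000300801b80a00001404053000400160008030e02)))) 
(.lf (nat_lit 2080481672) (dlOf (nat_lit 2) (nat_lit 0x2019800580080008008000c00200020008091003)))) 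
(.nd (nat_lit 8) (.nd (nat_lit 9) 
(.lf (nat_lit 4093748360) (dlOf (nat_lit 1) (nat_lit 0x10008001000200080008002b03))) 
(.lf (nat_lit 4095846024) (dlOf (nat_lit 1) (nat_lit 0x4002000200080e3a02)))) 
(.lf (nat_lit 4227968392) (dlOf (nat_lit 2) (nat_lit 0x680000002c04000800200020008006c82)))))) 
(.nd (nat_lit 29) (.nd (nat_lit 7) (.nd (nat_lit 9) 
(.lf (nat_lit 1409917000) (dlOf (nat_lit 2) (nat_lit 0x1ac048005a01f000100280a0e00))) 
(.lf (nat_lit 3288441416) (dlOf (nat_lit 3) (nat_lit 0x301b0012c40800480b80093604004000400060008018802)))) 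
(.nd (nat_lit 9) (.lf (nat_lit 1140957384) (dlOf (nat_lit 1) (nat_lit 0x20018031781))) 
(.lf (nat_lit 5838581448) (dlOf (nat_lit 1) (nat_lit 0x4004000200080f7302))))) (.nd (nat_lit 32) 
(.nd (nat_lit 18) 
(.lf (nat_lit 3960053832) (dlOf (nat_lit 5) (nat_lit 0x21802f00410170005541008600bc004c05c0015304021c02f000890100240178004400801c00080018002005a00081a1883))) 
(.lf (nat_lit 1946525768) (dlOf (nat_lit 2) (nat_lit 0x4014800090080020008000c002000600080a0e03)))) 
(.nd (nat_lit 10) (.lf (nat_lit 5972797512) (dlOf (nat_lit 1) (nat_lit 0x800400020008144702))) 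
(.lf (nat_lit 5972796488) (dlOf (nat_lit 1) (nat_lit 0x400400020008142882))))))))) 
(.nd (nat_lit 30) (.nd (nat_lit 21) (.nd (nat_lit 28) (.nd (nat_lit 18) (.nd (nat_lit 8) 
(.nd (nat_lit 19) (.nd (nat_lit 6) (.nd (nat_lit 7) 
(.lf (nat_lit 604217352) (dlOf (nat_lit 1) (nat_lit 0x280080054002000c00080b0003))) 
(.lf (nat_lit 9674888) (dlOf (nat_lit 6) (nat_lit 0xaad228021690c00eb4820077a3f0038cee0000d82802ae91402df4860065a41002fd1f8000d4200146914000f4860003404015fa450047d218020690400e347e007d9dc0001585001dd22800028080c70008039c002011a0008570e03)))) 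
(.lf (nat_lit 2751702088) (dlOf (nat_lit 1) (nat_lit 0xf8008039c00201200008002883)))) 
(.nd (nat_lit 9) (.lf (nat_lit 60530696) (dlOf (nat_lit 1) (nat_lit 0x400200040009890002))) 
(.lf (nat_lit 51094024) (dlOf (nat_lit 1) (nat_lit 0x200194f7b01))))) (.nd (nat_lit 9) 
(.nd (nat_lit 7) 
(.lf (nat_lit 9150728) (dlOf (nat_lit 2) (nat_lit 0x90800147204001400400120008524802))) 
(.lf (nat_lit 2147723656) (dlOf (nat_lit 1) (nat_lit 0x200280e4e81)))) (.nd (nat_lit 6) 
(.nd (nat_lit 26) 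
(.lf (nat_lit 134981384) (dlOf (nat_lit 2) (nat_lit 0x10088001440800080080008002000400080f3b83))) 
(.lf (nat_lit 2752227080) (dlOf (nat_lit 1) (nat_lit 0x20028003b81)))) 
(.lf (nat_lit 4899187528) (dlOf (nat_lit 1) (nat_lit 0x200180d5c01)))))) (.nd (nat_lit 19) 
(.nd (nat_lit 7) (.nd (nat_lit 11) (.nd (nat_lit 20) 
(.lf (nat_lit 13082632) (dlOf (nat_lit 3) (nat_lit 0xf52300b9f010008a91805aec0800a00080040002001c00086f0003))) 
(.lf (nat_lit 22519816) (dlOf (nat_lit 1) (nat_lit 0x8008000400200020008af0483)))) 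
(.lf (nat_lit 8890376) (dlOf (nat_lit 1) (nat_lit 0x60028514701)))) (.nd (nat_lit 6) 
(.lf (nat_lit 604480648) (dlOf (nat_lit 1) (nat_lit 0xc80080048002002a00082d2b03))) 
(.lf (nat_lit 47686856) (dlOf (nat_lit 1) (nat_lit 0x400200020009402d02))))) (.nd (nat_lit 6) 
(.nd (nat_lit 23) 
(.lf (nat_lit 21995528) (dlOf (nat_lit 3) (nat_lit 0x16ab4000ac01000455a00033c080358008011c00200a40008a80483))) 
(.lf (nat_lit 47161352) (dlOf (nat_lit 1) (nat_lit 0x4004000200093b0002)))) 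
(.lf (nat_lit 13606984) (dlOf (nat_lit 1) (nat_lit 0x400080098002010a0008730c83)))))) 
(.nd (nat_lit 32) (.nd (nat_lit 7) (.nd (nat_lit 19) (.nd (nat_lit 20) 
(.lf (nat_lit 2953027592) (dlOf (nat_lit 1) (nat_lit 0xc4002004600080b0002))) 
(.lf (nat_lit 471048200) (dlOf (nat_lit 1) (nat_lit 0x18008004c00200080008250283)))) 
(.lf (nat_lit 470523912) (dlOf (nat_lit 4) (nat_lit 0x2c3a200041cd00020e2800207040022e10001c3a200081c10008a8200040e880010704001f6080148004008a0008110582)))) 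
(.nd (nat_lit 8) 
(.lf (nat_lit 2483265672) (dlOf (nat_lit 2) (nat_lit 0x3001e0004a0200020028090101))) 
(.lf (nat_lit 805544328) (dlOf (nat_lit 3) (nat_lit 0xe03500034810001022000500ec00180360003f0600020028125c81))))) 
(.nd (nat_lit 6) (.nd (nat_lit 7) (.nd (nat_lit 27) 
(.lf (nat_lit 4563640328) (dlOf (nat_lit 2) (nat_lit 0x100bc0309604006c004004e00080b0002))) 
(.lf (nat_lit 4697858056) (dlOf (nat_lit 2) (nat_lit 0x100bc0378804006c004004e00080b0002)))) 
(.lf (nat_lit 4630751880) (dlOf (nat_lit 1) (nat_lit 0xc00200060008095482)))) (.nd (nat_lit 27) 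
(.lf (nat_lit 4563640392) (dlOf (nat_lit 2) (nat_lit 0xa0064009202d00120090000cc180270008004c002002400080b0603))) 
(.lf (nat_lit 4697858120) (dlOf (nat_lit 2) (nat_lit 0xa0064009202d00120090000c8180270008004c002002400080b0603))))))) 
(.nd (nat_lit 22) (.nd (nat_lit 18) (.nd (nat_lit 9) (.nd (nat_lit 7) 
(.lf (nat_lit 2754322440) (dlOf (nat_lit 1) (nat_lit 0x200180d0481))) (.nd (nat_lit 20) 
(.lf (nat_lit 1008967816) (dlOf (nat_lit 1) (nat_lit 0x860009000381))) 
(.lf (nat_lit 62103688) (dlOf (nat_lit 3) (nat_lit 0xdca5b002952c801d294400854780052a2a0001905002352d8000c008068000801a000200020009950e03))))) 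
(.nd (nat_lit 7) (.lf (nat_lit 19643912) (dlOf (nat_lit 1) (nat_lit 0x200080010002001200089dcd83))) 
(.nd (nat_lit 12) (.lf (nat_lit 19639176) (dlOf (nat_lit 1) (nat_lit 0x4002000200089d5c02))) 
(.lf (nat_lit 19643272) (dlOf (nat_lit 1) (nat_lit 0x18004000200189dbc82)))))) (.nd (nat_lit 6) 
(.nd (nat_lit 19) 
(.lf (nat_lit 2596872) (dlOf (nat_lit 5) (nat_lit 0x2d1d0001676c01d0a0800074880005a400002d1d0001e76c01d0810000f4880009a400007d1d0003e76c01d0610000f4880009a400007d1d0003e76c01d0010000800200060008170002))) 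
(.nd (nat_lit 20) 
(.lf (nat_lit 53452808) (dlOf (nat_lit 1) (nat_lit 0x180080024002000c00095e0003))) 
(.lf (nat_lit 20946952) (dlOf (nat_lit 2) (nat_lit 0x14ef005f88080008008026400200c400089f0003))))) 
(.nd (nat_lit 8) (.lf (nat_lit 20947016) (dlOf (nat_lit 2) (nat_lit 0x2c7c000298189f0600))) 
(.lf (nat_lit 19901256) (dlOf (nat_lit 1) (nat_lit 0x4002000200089d5c02)))))) (.nd (nat_lit 6) 
(.nd (nat_lit 7) (.nd (nat_lit 8) 
(.lf (nat_lit 16228360) (dlOf (nat_lit 2) (nat_lit 0x115140165c04003000400060018870002))) 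
(.lf (nat_lit 58171656) (dlOf (nat_lit 1) (nat_lit 0x4004000200097c3a02)))) (.nd (nat_lit 8) 
(.nd (nat_lit 10) (.lf (nat_lit 23568520) (dlOf (nat_lit 1) (nat_lit 0x400200620008b80102))) 
(.lf (nat_lit 40346760) (dlOf (nat_lit 2) (nat_lit 0x833c8000980800080080028002000800091f2b03)))) 
(.lf (nat_lit 8364424) (dlOf (nat_lit 1) (nat_lit 0x800200020008511002))))) (.nd (nat_lit 10) 
(.nd (nat_lit 7) (.nd (nat_lit 8) 
(.lf (nat_lit 23306824) (dlOf (nat_lit 2) (nat_lit 0xb4ec0007004001000400100018b81102))) 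
(.lf (nat_lit 23568712) (dlOf (nat_lit 3) (nat_lit 0x6d240004c02000369200020018b80600)))) 
(.lf (nat_lit 8106440) (dlOf (nat_lit 1) (nat_lit 0x40028518681)))) (.nd (nat_lit 7) 
(.nd (nat_lit 18) (.lf (nat_lit 8102984) (dlOf (nat_lit 1) (nat_lit 0x400400020008512882))) 
(.lf (nat_lit 57123912) (dlOf (nat_lit 1) (nat_lit 0x20029792881)))) 
(.lf (nat_lit 8107208) (dlOf (nat_lit 1) (nat_lit 0x20028519501)))))))) (.nd (nat_lit 28) 
(.nd (nat_lit 29) (.nd (nat_lit 10) (.nd (nat_lit 9) (.nd (nat_lit 26) 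
(.lf (nat_lit 3355680776) (dlOf (nat_lit 1) (nat_lit 0x80080004002000200080c0283))) 
(.lf (nat_lit 1141088264) (dlOf (nat_lit 1) (nat_lit 0x4004000200080c0002)))) 
(.lf (nat_lit 3288572424) (dlOf (nat_lit 3) (nat_lit 0x340400014d02012400b0006e018090d80)))) 
(.nd (nat_lit 7) (.nd (nat_lit 9) 
(.lf (nat_lit 5570276360) (dlOf (nat_lit 1) (nat_lit 0x4004000200080d5f82))) 
(.lf (nat_lit 3422795272) (dlOf (nat_lit 1) (nat_lit 0x880080010002000600080a9c03)))) 
(.lf (nat_lit 1074245000) (dlOf (nat_lit 1) (nat_lit 0x1c002000400080f6c82))))) (.nd (nat_lit 6) 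
(.nd (nat_lit 7) (.nd (nat_lit 18) 
(.lf (nat_lit 3758333960) (dlOf (nat_lit 1) (nat_lit 0x880080020002001e0008130003))) 
(.lf (nat_lit 3892813832) (dlOf (nat_lit 1) (nat_lit 0x18008000400200040008280003)))) 
(.nd (nat_lit 9) (.lf (nat_lit 5905819784) (dlOf (nat_lit 1) (nat_lit 0x20008144801))) 
(.lf (nat_lit 1610851976) (dlOf (nat_lit 1) (nat_lit 0x20018093a01))))) (.nd (nat_lit 9) 
(.lf (nat_lit 3892813896) (dlOf (nat_lit 1) (nat_lit 0x20028280081))) (.nd (nat_lit 10) 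
(.lf (nat_lit 1677959752) (dlOf (nat_lit 4) (nat_lit 0x25812c000480400380a2000200200160510000e818128d00))) 
(.lf (nat_lit 1610851912) (dlOf (nat_lit 1) (nat_lit 0xa0028093801))))))) (.nd (nat_lit 6) 
(.nd (nat_lit 19) (.nd (nat_lit 7) (.nd (nat_lit 9) (.nd (nat_lit 10) 
(.lf (nat_lit 2013503496) (dlOf (nat_lit 1) (nat_lit 0x4004000200080c0002))) 
(.lf (nat_lit 6308473864) (dlOf (nat_lit 1) (nat_lit 0x80080008002000800080d5f83)))) 
(.lf (nat_lit 1476897288) (dlOf (nat_lit 1) (nat_lit 0xe80080030002003a00082d5003)))) 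
(.nd (nat_lit 8) (.lf (nat_lit 3493046408) (dlOf (nat_lit 1) (nat_lit 0x600280f4801))) 
(.lf (nat_lit 2080612744) (dlOf (nat_lit 1) (nat_lit 0x4000400020008091002))))) (.nd (nat_lit 21) 
(.nd (nat_lit 20) 
(.lf (nat_lit 1342939144) (dlOf (nat_lit 4) (nat_lit 0x2c3a200041cd00020e2800207040023610001c3a200081c10008c8200040e880010704001f4080148004008a0008110582))) 
(.lf (nat_lit 1343987720) (dlOf (nat_lit 1) (nat_lit 0xda0018390581)))) (.nd (nat_lit 31) 
(.lf (nat_lit 1345036296) (dlOf (nat_lit 1) (nat_lit 0x30008000c002000400089d0083))) 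
(.lf (nat_lit 3492519944) (dlOf (nat_lit 1) (nat_lit 0x200180d0481)))))) (.nd (nat_lit 10) 
(.nd (nat_lit 9) (.nd (nat_lit 26) 
(.lf (nat_lit 5773172808) (dlOf (nat_lit 1) (nat_lit 0xd8004007e00080b0602))) 
(.lf (nat_lit 6377152584) (dlOf (nat_lit 1) (nat_lit 0xd8004007e00080b0602)))) (.nd (nat_lit 7) 
(.lf (nat_lit 1409524296) (dlOf (nat_lit 1) (nat_lit 0x400400060008018802))) 
(.lf (nat_lit 4095714248) (dlOf (nat_lit 1) (nat_lit 0x68008003c002003000080e2883))))) 
(.nd (nat_lit 7) (.nd (nat_lit 26) 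
(.lf (nat_lit 6174254152) (dlOf (nat_lit 1) (nat_lit 0x80080004002000200080d2883))) 
(.lf (nat_lit 5704492104) (dlOf (nat_lit 1) (nat_lit 0x4004000200080d2882)))) 
(.lf (nat_lit 3490163912) (dlOf (nat_lit 2) (nat_lit 0x183580004604000400400100018006382))))))))) 
(.nd (nat_lit 17) (.nd (nat_lit 18) (.nd (nat_lit 30) (.nd (nat_lit 19) (.nd (nat_lit 6) 
(.nd (nat_lit 23) (.nd (nat_lit 26) (.nd (nat_lit 7) 
(.lf (nat_lit 4429291800) (dlOf (nat_lit 1) (nat_lit 0x2800400140008047f02))) (.nd (nat_lit 8) 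
(.lf (nat_lit 4966162584) (dlOf (nat_lit 1) (nat_lit 0x1c00200020008031182))) 
(.lf (nat_lit 113560) (dlOf (nat_lit 2) (nat_lit 0x1a682001827480151810000800802200020002000800bc83))))) 
(.nd (nat_lit 20) (.nd (nat_lit 27) 
(.lf (nat_lit 2483134488) (dlOf (nat_lit 3) (nat_lit 0x1e015001480a000c740800880540010028002c9028020480))) 
(.lf (nat_lit 2885787672) (dlOf (nat_lit 2) (nat_lit 0x2001000a0204000c00400020008070482)))) 
(.lf (nat_lit 68263960) (dlOf (nat_lit 1) (nat_lit 0x100080010002000400084d0483))))) 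
(.nd (nat_lit 20) (.nd (nat_lit 7) 
(.lf (nat_lit 14786584) (dlOf (nat_lit 2) (nat_lit 0x869da00450c5c01b86220126210000f5048770080))) 
(.lf (nat_lit 8496536) (dlOf (nat_lit 2) (nat_lit 0x200100048e04000400200020008513602)))) 
(.nd (nat_lit 21) (.lf (nat_lit 9543704) (dlOf (nat_lit 1) (nat_lit 0xa00008560481))) 
(.lf (nat_lit 28418072) (dlOf (nat_lit 11) (nat_lit 0x28cc90002f8100306fe00123638010daa40034d40003466d000eb324000aa18013dbf80004dfb00446c7000136340195aa40068d40005166d002f3324000a82002f9bf8015edfb00a86c70041b6340325aa40196d40000c69f8059b36802fd99200052120050dfc002d6c7002db5480079a800052cda00376648001443001037f0009db1c00a0d5200176a00010b36800b19920004c0c011edfc00a06fd804f36380289b1a018ed5200756a0000234fc02599b40150cc9000258900136fb00073624004d9a80054971000198400086a60005b32400252e200030060006d4c000d4b88000bc100018008001c00200480008d90403)))))) 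
(.nd (nat_lit 31) (.nd (nat_lit 7) 
(.lf (nat_lit 109656) (dlOf (nat_lit 1) (nat_lit 0x80018006081))) (.nd (nat_lit 9) 
(.nd (nat_lit 20) 
(.lf (nat_lit 805413080) (dlOf (nat_lit 17) (nat_lit 0x15409e00ac0380120013005500000049210016409e00c4026008000000092018034013c01a0070020202600ab00000091c20001013c01d804c0002000001228300580130008dc08008013c009804c0021f04003a04f00200130008301000f813c001c04c001fc040052026000fd01002902780170098003f008001809e0104026000fb8200750130007cc0800b813c00cc04c001f104009804f00d70130007c01002c813c025804c001ef04046005101550280089812c00b008c013804300e301f811f00e806b407200ec03301f5013805b808c0498034018a019005b000000250702438008198400206b60008090483))) 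
(.lf (nat_lit 3252440) (dlOf (nat_lit 2) (nat_lit 0x8a5490011b818200480)))) 
(.lf (nat_lit 111320) (dlOf (nat_lit 1) (nat_lit 0x240018008c81))))) (.nd (nat_lit 7) 
(.nd (nat_lit 10) (.lf (nat_lit 2416025944) (dlOf (nat_lit 1) (nat_lit 0x20028014e01))) 
(.lf (nat_lit 2818680152) (dlOf (nat_lit 1) (nat_lit 0x28002001e00080d3382)))) (.nd (nat_lit 22) 
(.lf (nat_lit 6509666520) (dlOf (nat_lit 18) (nat_lit 0x3d00fc01e807600f403a007a01c801400d0016c06400f4030007a017803d00b8010802800080010011e0b010a0000008e0080a4804805680000023704022c0000011a8100a20000008a80808b000000452040324000002280201a6000001138100370090008980809180000043e04013000000200020036000000ff0100130090007dc080678000003dc040030000001eb02028a000000408100c8000000200080008008007800200fa00080b0483))) 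
(.lf (nat_lit 2755764440) (dlOf (nat_lit 2) (nat_lit 0x1203f000e88181b0480))))))) (.nd (nat_lit 20) 
(.nd (nat_lit 9) (.nd (nat_lit 21) (.nd (nat_lit 22) 
(.lf (nat_lit 2819203096) (dlOf (nat_lit 1) (nat_lit 0x60004003000181e0482))) 
(.lf (nat_lit 55156760) (dlOf (nat_lit 1) (nat_lit 0x3000096c0181)))) 
(.lf (nat_lit 27893784) (dlOf (nat_lit 1) (nat_lit 0x400400020008d40482)))) (.nd (nat_lit 7) 
(.lf (nat_lit 57256472) (dlOf (nat_lit 2) (nat_lit 0x2caee00000019795080))) 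
(.lf (nat_lit 634520) (dlOf (nat_lit 1) (nat_lit 0xc40008007201))))) (.nd (nat_lit 22) 
(.nd (nat_lit 6) (.nd (nat_lit 10) 
(.lf (nat_lit 2755239960) (dlOf (nat_lit 3) (nat_lit 0x1445e000a228000408580018404003d810001c45e000e228000708580008404003d610002000400040018140a82))) 
(.lf (nat_lit 20556824) (dlOf (nat_lit 1) (nat_lit 0x18004006a00189d6002)))) 
(.lf (nat_lit 20557912) (dlOf (nat_lit 1) (nat_lit 0x4002000200089d7d82)))) (.nd (nat_lit 7) 
(.nd (nat_lit 9) 
(.lf (nat_lit 24748056) (dlOf (nat_lit 4) (nat_lit 0x65e480032eb80002c0800397920001402000cbc900035d70000141000780080060002001e0008bb0483))) 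
(.lf (nat_lit 49916440) (dlOf (nat_lit 1) (nat_lit 0xc004001600094c5082)))) 
(.lf (nat_lit 7975832) (dlOf (nat_lit 1) (nat_lit 0x1800400020008519102))))))) (.nd (nat_lit 7) 
(.nd (nat_lit 6) (.nd (nat_lit 19) (.nd (nat_lit 8) (.nd (nat_lit 9) 
(.lf (nat_lit 1343332376) (dlOf (nat_lit 1) (nat_lit 0x80080004002000200081f0483))) 
(.lf (nat_lit 4095845912) (dlOf (nat_lit 1) (nat_lit 0x800080e3701)))) 
(.lf (nat_lit 5972797208) (dlOf (nat_lit 1) (nat_lit 0x20028143c81)))) (.nd (nat_lit 20) 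
(.nd (nat_lit 26) 
(.lf (nat_lit 3221856280) (dlOf (nat_lit 3) (nat_lit 0x3005e01a8b02000e02f00d440181a0a80))) 
(.lf (nat_lit 3960053784) (dlOf (nat_lit 3) (nat_lit 0x3005e01df702000e02f00efb0181a0a80)))) 
(.lf (nat_lit 3493437464) (dlOf (nat_lit 3) (nat_lit 0x14434000a213000408880018404003fc10001c434000e213000708880008404003fa10002000400040018140a82))))) 
(.nd (nat_lit 31) (.nd (nat_lit 8) 
(.lf (nat_lit 5773567064) (dlOf (nat_lit 1) (nat_lit 0x4004000200080e2902))) (.nd (nat_lit 27) 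
(.lf (nat_lit 1073848664) (dlOf (nat_lit 1) (nat_lit 0x400400020008014e02))) 
(.lf (nat_lit 1476501848) (dlOf (nat_lit 2) (nat_lit 0x14000000000200fa0008010881))))) 
(.nd (nat_lit 8) 
(.lf (nat_lit 3960053848) (dlOf (nat_lit 8) (nat_lit 0xc0178000480800600bc0002204003005e0000b02001802f0000401000c01780001c0800100bc0000204003005e0000002000800181a1a81))) 
(.nd (nat_lit 26) 
(.lf (nat_lit 4026638680) (dlOf (nat_lit 2) (nat_lit 0x280d4000a204000800200020008014e02))) 
(.lf (nat_lit 3691094360) (dlOf (nat_lit 1) (nat_lit 0xc00400040008010882))))))) (.nd (nat_lit 8) 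
(.nd (nat_lit 26) (.nd (nat_lit 29) 
(.lf (nat_lit 3221332184) (dlOf (nat_lit 17) (nat_lit 0x6240a60318037004c012008d8080036c000001c70a00a2024000e30101e202980f180dc01c004802b8020002800a808c00000038a180148048001e000000e18200580000007040807180800300000001bd0400a202400b80100006181002880900208040001840400a2024000c18100510120094008000304080030048001780200a202400470100005d810028809000c00400017404008402400140100005c410028809000640400016f040366053013302800738130013c08a0248042014001f809800e806d806e022a033007e018008000b0033c050019e025000201200a18084046c040026c01d012b00c00ad005403a401e027400500d8000000250b000c8008028400200320008090483))) 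
(.lf (nat_lit 5905686744) (dlOf (nat_lit 18) (nat_lit 0x3d00fc01e807600f403a007a01c801400d0016c06400f4031007a017803d00b8010802800080010011e0b010a0000008e0080a4804405680000023704022c0000011a8100a20000008a80808b000000452040324000002280201a60000011381003700880089808091800000446040130000001ff020036000000ff0100130088007dc080678000003dc040030000001eb02028a000000408100c8000000200080008008007800200fa00080b0483)))) 
(.nd (nat_lit 6) (.lf (nat_lit 5972797592) (dlOf (nat_lit 1) (nat_lit 0x4a0018144801))) 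
(.nd (nat_lit 27) 
(.lf (nat_lit 1677828312) (dlOf (nat_lit 17) (nat_lit 0x15409e00ac0380120013005500000049210016409e00c4026008000000092018034013c01a0070020202600ab00000091c20001013c01d804c0002000001228300580130008dc08008013c009804c0022304003a04f0020013000838100148098003f804007c09e000e026000fd02002902780170098003f008001809e0104026000fb8200750130007c80800b813c00cc04c001f104009804f00d70130007c01002c813c025804c001ef04046005101550280089812c00b008c013804300e301f811f00e806b407200ec03301f5013805b808c0498034018a019005b000000250702438008198400206b60008090483))) 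
(.lf (nat_lit 3959529688) (dlOf (nat_lit 17) (nat_lit 0x6240a60318037004c012008d8080036c000001c70a00a2024000e30101e202980f180dc01c004802b8020002800a808c00000038a180148048001e000000e18200580000007040807180800300000001bd0400a202400b80100005f010028809002080400017b0400a2024000bd01005101200940080002f2080144048008e020000bc02000c0120005d808028809000c00400017404008402400140100005cc10028809000640400016f040366053013302800738130013c08a0248042014001f809800e806d806e022a033007e018008000b0033c050019e025000201200a18084046c040026c01d012b00c00ad005403a401e027400500d8000000250b000c8008028400200320008090483)))))) 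
(.nd (nat_lit 6) (.nd (nat_lit 10) (.nd (nat_lit 20) 
(.lf (nat_lit 3493962136) (dlOf (nat_lit 1) (nat_lit 0x80080024002000400081b0783))) 
(.lf (nat_lit 1345429912) (dlOf (nat_lit 1) (nat_lit 0x400400020008bb1002)))) 
(.lf (nat_lit 6308341144) (dlOf (nat_lit 1) (nat_lit 0x400200020008053602)))) (.nd (nat_lit 9) 
(.lf (nat_lit 1946264024) (dlOf (nat_lit 1) (nat_lit 0xc00400060008017102))) (.nd (nat_lit 22) 
(.lf (nat_lit 5771471832) (dlOf (nat_lit 1) (nat_lit 0x720018005e01))) 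
(.lf (nat_lit 1346481112) (dlOf (nat_lit 1) (nat_lit 0x2c0028f65e01))))))))) (.nd (nat_lit 26) 
(.nd (nat_lit 20) (.nd (nat_lit 6) (.nd (nat_lit 28) (.nd (nat_lit 7) (.nd (nat_lit 27) 
(.lf (nat_lit 6442819608) (dlOf (nat_lit 2) (nat_lit 0x3000002bb404004c002003000081c0902))) 
(.lf (nat_lit 134586392) (dlOf (nat_lit 1) (nat_lit 0xc00400100008080502)))) 
(.lf (nat_lit 21340568) (dlOf (nat_lit 1) (nat_lit 0xa0008a36481)))) (.nd (nat_lit 21) 
(.nd (nat_lit 27) 
(.lf (nat_lit 1342545944) (dlOf (nat_lit 9) (nat_lit 0xa88c40046a04004c4620023402002e231001198100151188008c80800189240044204000c492002200200d024700120b88007ac1000a891c003a404001800200040008050a82))) 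
(.lf (nat_lit 1476763672) (dlOf (nat_lit 5) (nat_lit 0x14201700d50038001701000f805c00bc00e0005b0400f601700a30038001681000280000008004007000400100018190402)))) 
(.lf (nat_lit 1881514008) (dlOf (nat_lit 1) (nat_lit 0x380080030002000c0008f40083))))) 
(.nd (nat_lit 28) (.nd (nat_lit 10) (.nd (nat_lit 19) 
(.lf (nat_lit 5905948760) (dlOf (nat_lit 1) (nat_lit 0x8008004400200140008160903))) 
(.lf (nat_lit 13475928) (dlOf (nat_lit 1) (nat_lit 0x34004000a0018721a82)))) 
(.lf (nat_lit 38118488) (dlOf (nat_lit 1) (nat_lit 0x400200020009132902)))) (.nd (nat_lit 27) 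
(.nd (nat_lit 29) 
(.lf (nat_lit 4563771480) (dlOf (nat_lit 2) (nat_lit 0x8701a803900ac0324052015e027008d00d8000c82800700080014002000e00080d0603))) 
(.lf (nat_lit 4026900568) (dlOf (nat_lit 1) (nat_lit 0x200180c1a81)))) 
(.lf (nat_lit 4697989208) (dlOf (nat_lit 2) (nat_lit 0x8701a803900ac0324052015e027008d00d8000cc2800700080014002000e00080d0603)))))) 
(.nd (nat_lit 21) (.nd (nat_lit 23) (.nd (nat_lit 22) (.nd (nat_lit 6) 
(.lf (nat_lit 1343594520) (dlOf (nat_lit 1) (nat_lit 0x10002001200082b0482))) 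
(.lf (nat_lit 34974296) (dlOf (nat_lit 1) (nat_lit 0x20028fb5301)))) (.nd (nat_lit 19) 
(.lf (nat_lit 22388760) (dlOf (nat_lit 2) (nat_lit 0x12c3400c3204000400400020018ad0482))) 
(.lf (nat_lit 22913048) (dlOf (nat_lit 2) (nat_lit 0x7fbc400125018b40480))))) (.nd (nat_lit 6) 
(.nd (nat_lit 7) 
(.lf (nat_lit 26583064) (dlOf (nat_lit 2) (nat_lit 0x869ca80450e4001b8714012620e000fe048c50080))) 
(.lf (nat_lit 43361432) (dlOf (nat_lit 6) (nat_lit 0x95fe0004a460005401000252300028804000a9180014102000348c000a0010005aff0002523000270080004002002800092a2b82)))) 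
(.lf (nat_lit 9805912) (dlOf (nat_lit 3) (nat_lit 0x14f51000298100077a8800148080070008000800200240008580603))))) 
(.nd (nat_lit 23) (.nd (nat_lit 6) (.nd (nat_lit 31) 
(.lf (nat_lit 1346215960) (dlOf (nat_lit 2) (nat_lit 0x103640048e04000400200020008e70602))) 
(.lf (nat_lit 3493699608) (dlOf (nat_lit 1) (nat_lit 0x2200081a0501)))) 
(.lf (nat_lit 54373336) (dlOf (nat_lit 1) (nat_lit 0x800400020009655e02)))) (.nd (nat_lit 8) 
(.nd (nat_lit 24) 
(.lf (nat_lit 16097304) (dlOf (nat_lit 1) (nat_lit 0x30008004400200120008860483))) 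
(.lf (nat_lit 32874520) (dlOf (nat_lit 1) (nat_lit 0x20028f30081)))) 
(.lf (nat_lit 12427544) (dlOf (nat_lit 1) (nat_lit 0x198004001a00186c0482))))))) (.nd (nat_lit 27) 
(.nd (nat_lit 31) (.nd (nat_lit 6) (.nd (nat_lit 29) (.nd (nat_lit 32) 
(.lf (nat_lit 67477528) (dlOf (nat_lit 1) (nat_lit 0x2800200040008170482))) 
(.lf (nat_lit 4362444824) (dlOf (nat_lit 3) (nat_lit 0x1808e0150e02001004700050198051f8100010008011c002008e0008080503)))) 
(.lf (nat_lit 604348440) (dlOf (nat_lit 5) (nat_lit 0x14201600d50038001701000f805800bc00e0005b0400f601600a30038001681000280000008004007000400100018190402)))) 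
(.nd (nat_lit 7) 
(.lf (nat_lit 4899315800) (dlOf (nat_lit 1) (nat_lit 0x10008000400200020008100603))) 
(.lf (nat_lit 70101976) (dlOf (nat_lit 1) (nat_lit 0x840018ec5e01))))) (.nd (nat_lit 7) 
(.nd (nat_lit 6) (.nd (nat_lit 9) 
(.lf (nat_lit 2755502104) (dlOf (nat_lit 1) (nat_lit 0x2200081a0501))) 
(.lf (nat_lit 2751838744) (dlOf (nat_lit 3) (nat_lit 0x38510018260400282a400bfc020004000800b281)))) 
(.lf (nat_lit 3557138776) (dlOf (nat_lit 1) (nat_lit 0x38008003800200180008130883)))) 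
(.nd (nat_lit 8) (.lf (nat_lit 2753405080) (dlOf (nat_lit 1) (nat_lit 0x298004007e0018090182))) 
(.lf (nat_lit 2754460568) (dlOf (nat_lit 1) (nat_lit 0x20008000c002000200080fbc83)))))) 
(.nd (nat_lit 30) (.nd (nat_lit 6) (.nd (nat_lit 22) (.nd (nat_lit 28) 
(.lf (nat_lit 201695256) (dlOf (nat_lit 1) (nat_lit 0xc00400100008080502))) (.nd (nat_lit 31) 
(.lf (nat_lit 470130712) (dlOf (nat_lit 9) (nat_lit 0xa88c40049a04004c4620024c02002e231001258100151188009280800189240046c04000c492002350200d024700120b98007f41000a891c003ce04001800200040008050a82))) 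
(.lf (nat_lit 2617614360) (dlOf (nat_lit 2) (nat_lit 0x19016800380ac0000008001400400120008100482))))) 
(.lf (nat_lit 474325016) (dlOf (nat_lit 1) (nat_lit 0x20019150181)))) 
(.lf (nat_lit 470655192) (dlOf (nat_lit 2) (nat_lit 0x1125000094080008008000400200040008150583)))) 
(.nd (nat_lit 6) (.nd (nat_lit 29) 
(.lf (nat_lit 5838839832) (dlOf (nat_lit 2) (nat_lit 0x3000002e7004004c002003000081c0902))) 
(.lf (nat_lit 4228227096) (dlOf (nat_lit 3) (nat_lit 0x180800167d02001004000050190057b4100010008011c002008e0008080503)))) 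
(.lf (nat_lit 6377283800) (dlOf (nat_lit 1) (nat_lit 0x4002000200080c1c02)))))))) (.nd (nat_lit 19) 
(.nd (nat_lit 6) (.nd (nat_lit 28) (.nd (nat_lit 26) (.nd (nat_lit 23) (.nd (nat_lit 9) 
(.nd (nat_lit 18) (.lf (nat_lit 6576906264) (dlOf (nat_lit 1) (nat_lit 0x400400020008190a82))) 
(.lf (nat_lit 35102744) (dlOf (nat_lit 1) (nat_lit 0x20028fd0081)))) 
(.lf (nat_lit 2818814488) (dlOf (nat_lit 1) (nat_lit 0x400200040008128782)))) (.nd (nat_lit 7) 
(.nd (nat_lit 21) 
(.lf (nat_lit 29597720) (dlOf (nat_lit 3) (nat_lit 0x56cb70001981002365b8000c008003800800a8002001e0008e20403))) 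
(.lf (nat_lit 14917656) (dlOf (nat_lit 2) (nat_lit 0x4000000c1818790080)))) 
(.lf (nat_lit 62103704) (dlOf (nat_lit 2) (nat_lit 0xa8f00002404000400400040009951182))))) 
(.nd (nat_lit 7) (.nd (nat_lit 11) (.nd (nat_lit 18) 
(.lf (nat_lit 5972926488) (dlOf (nat_lit 1) (nat_lit 0x400400020008190a82))) 
(.lf (nat_lit 1678221336) (dlOf (nat_lit 1) (nat_lit 0x400281a0001)))) (.nd (nat_lit 9) 
(.lf (nat_lit 4899187736) (dlOf (nat_lit 1) (nat_lit 0x200180d6001))) 
(.lf (nat_lit 2751969816) (dlOf (nat_lit 2) (nat_lit 0x60548017f80400080040012000800b282))))) 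
(.nd (nat_lit 8) (.lf (nat_lit 2886181016) (dlOf (nat_lit 1) (nat_lit 0x520028184081))) 
(.nd (nat_lit 27) 
(.lf (nat_lit 3288572312) (dlOf (nat_lit 2) (nat_lit 0x4b0064000000200080008090781))) 
(.lf (nat_lit 2349048216) (dlOf (nat_lit 2) (nat_lit 0x980a801db4040038004006a0008090782))))))) 
(.nd (nat_lit 7) (.nd (nat_lit 30) (.nd (nat_lit 27) (.nd (nat_lit 29) 
(.lf (nat_lit 4563640344) (dlOf (nat_lit 1) (nat_lit 0xc800280b0081))) 
(.lf (nat_lit 2953027608) (dlOf (nat_lit 1) (nat_lit 0x200280b0481)))) 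
(.lf (nat_lit 4697858072) (dlOf (nat_lit 1) (nat_lit 0xc800280b0081)))) (.nd (nat_lit 18) 
(.lf (nat_lit 1342414872) (dlOf (nat_lit 2) (nat_lit 0x27448e001ab0200020018020481))) 
(.lf (nat_lit 1343725592) (dlOf (nat_lit 1) (nat_lit 0x400200020008340482))))) (.nd (nat_lit 8) 
(.nd (nat_lit 18) (.lf (nat_lit 335782040) (dlOf (nat_lit 1) (nat_lit 0x4004000200080a2b82))) 
(.lf (nat_lit 3624378520) (dlOf (nat_lit 1) (nat_lit 0x520028184081)))) (.nd (nat_lit 10) 
(.lf (nat_lit 2550374808) (dlOf (nat_lit 1) (nat_lit 0xc00400300018090782))) (.nd (nat_lit 26) 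
(.lf (nat_lit 5637383576) (dlOf (nat_lit 1) (nat_lit 0x200080164002000200080d3603))) 
(.lf (nat_lit 5704492440) (dlOf (nat_lit 1) (nat_lit 0xb80080040002000200080d3603)))))))) 
(.nd (nat_lit 7) (.nd (nat_lit 8) (.nd (nat_lit 18) (.nd (nat_lit 12) (.nd (nat_lit 27) 
(.lf (nat_lit 4563640408) (dlOf (nat_lit 2) (nat_lit 0x3701780004c08022800800cc002000800080b0703))) 
(.lf (nat_lit 4697858136) (dlOf (nat_lit 2) (nat_lit 0x3701780004c08022800800cc002000800080b0703)))) 
(.lf (nat_lit 3154358360) (dlOf (nat_lit 1) (nat_lit 0xe0018157d81)))) (.nd (nat_lit 10) 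
(.lf (nat_lit 21471320) (dlOf (nat_lit 5) (nat_lit 0x120508000980400342840004b0201000e9000200100470748000fc080088008001400200060008a40603))) 
(.lf (nat_lit 59221080) (dlOf (nat_lit 1) (nat_lit 0x200097e2901))))) (.nd (nat_lit 11) 
(.nd (nat_lit 20) (.nd (nat_lit 22) 
(.lf (nat_lit 1677959512) (dlOf (nat_lit 21) (nat_lit 0xf30028021400c000690400ce0550069027003480dc019c024032000a00850030001a030098015404e809c024c037012700900e0002803a800c000670c0320055017e02700318128060406e0008031005b017802c00ac03b005200c8024019000900750040073401401fc006000330d000d02a80068138003406e001a0120003284008f005002080180008808000401400780060002102019f005000104080cf015403d80a6031e04e004202600c800dc03ac05e00c802b001101480350090067402401d601001ee005006b8020047800c000401c034005500ed02980c781380350098032003700e1017802880ac029805200ae024019e009007080400764014019e008010a0030000fc7003c015000a402200024040082054004100880008c1003f015001ec09a00f4036008000880008820042015001ec09a00f6049007c01b001d80c001f00220001c0c00f60300000781007b0180000300800700d8000080401ec060000020200700300000081016e005000000080a8000809a80020e4e0008124e03)))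 
(.lf (nat_lit 4432216) (dlOf (nat_lit 1) (nat_lit 0x1800400060008290882)))) 
(.lf (nat_lit 9675096) (dlOf (nat_lit 1) (nat_lit 0x3a0008574e01)))) (.nd (nat_lit 9) 
(.lf (nat_lit 3490164056) (dlOf (nat_lit 1) (nat_lit 0x400400020008006a82))) 
(.lf (nat_lit 5570276184) (dlOf (nat_lit 1) (nat_lit 0x1000080d5c01)))))) (.nd (nat_lit 9) 
(.nd (nat_lit 18) (.nd (nat_lit 20) (.nd (nat_lit 26) 
(.lf (nat_lit 2334936) (dlOf (nat_lit 1) (nat_lit 0x18008000800200040008150483))) 
(.lf (nat_lit 1008967896) (dlOf (nat_lit 1) (nat_lit 0x2000400160009000982)))) 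
(.lf (nat_lit 3383512) (dlOf (nat_lit 2) (nat_lit 0x984c70011b818200480)))) (.nd (nat_lit 26) 
(.lf (nat_lit 805806296) (dlOf (nat_lit 3) (nat_lit 0x6004c002c024002a011c00b406800ae024000e285009e016803e805c001280800cc004005000081a0482))) 
(.lf (nat_lit 1678221528) (dlOf (nat_lit 3) (nat_lit 0x6004c002c024002a011c00b406800ae024000e285009e016803e805c001280800cc004005000081a0482))))) 
(.nd (nat_lit 29) (.nd (nat_lit 8) 
(.lf (nat_lit 57125592) (dlOf (nat_lit 1) (nat_lit 0x400400020009795902))) 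
(.lf (nat_lit 4630752216) (dlOf (nat_lit 1) (nat_lit 0x20028095e01)))) (.nd (nat_lit 27) 
(.lf (nat_lit 4899187672) (dlOf (nat_lit 1) (nat_lit 0x4004000200180d5e02))) 
(.lf (nat_lit 738438104) (dlOf (nat_lit 1) (nat_lit 0x80028095e01)))))))) (.nd (nat_lit 21) 
(.nd (nat_lit 20) (.nd (nat_lit 22) (.nd (nat_lit 27) (.nd (nat_lit 6) (.nd (nat_lit 8) 
(.lf (nat_lit 1342939160) (dlOf (nat_lit 1) (nat_lit 0x2400200160008110a82))) 
(.lf (nat_lit 9150744) (dlOf (nat_lit 1) (nat_lit 0xc00200020008524b02)))) (.nd (nat_lit 10) 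
(.lf (nat_lit 59482200) (dlOf (nat_lit 3) (nat_lit 0x25920001381002633d8014199000a0b24004a4e5002a2698000942800e000800b0002001e0009800803))) 
(.lf (nat_lit 34317400) (dlOf (nat_lit 1) (nat_lit 0x40028fb2901))))) (.nd (nat_lit 7) 
(.nd (nat_lit 26) 
(.lf (nat_lit 2819334168) (dlOf (nat_lit 6) (nat_lit 0x281bc00140b6000a03c000601a00010420005816c0014078000e034000200300080378001816c00280680003e06000c06f000602d800180f000080680003d08000c06f000801a000000100058008008800200060008240483))) 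
(.lf (nat_lit 470523928) (dlOf (nat_lit 1) (nat_lit 0x2400200160008110a82)))) 
(.lf (nat_lit 6376368792) (dlOf (nat_lit 1) (nat_lit 0x400200020008095502))))) (.nd (nat_lit 25) 
(.nd (nat_lit 24) (.lf (nat_lit 4956184) (dlOf (nat_lit 1) (nat_lit 0x80080004002000200082d0083))) 
(.lf (nat_lit 21733400) (dlOf (nat_lit 7) (nat_lit 0x2e13b006c701001009d8036340801d04ec01b0804005828a002c142000409c800383a401aa410005828a002c142000409c800683a401aa21000341d20099b0200060028a60a01)))) 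
(.nd (nat_lit 6) (.lf (nat_lit 46899480) (dlOf (nat_lit 1) (nat_lit 0x400200020009380a82))) 
(.lf (nat_lit 38511704) (dlOf (nat_lit 1) (nat_lit 0x400200020009132902)))))) (.nd (nat_lit 26) 
(.nd (nat_lit 6) 
(.lf (nat_lit 14655512) (dlOf (nat_lit 2) (nat_lit 0x5590fc0324356006202b000f5038770080))) 
(.nd (nat_lit 7) (.lf (nat_lit 31435352) (dlOf (nat_lit 1) (nat_lit 0x400400020008e95302))) 
(.lf (nat_lit 2072792) (dlOf (nat_lit 2) (nat_lit 0x8aaf20011b818150480))))) (.nd (nat_lit 9) 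
(.nd (nat_lit 27) (.lf (nat_lit 4095451160) (dlOf (nat_lit 1) (nat_lit 0xe00080b0a01))) 
(.lf (nat_lit 471572504) (dlOf (nat_lit 1) (nat_lit 0x1000200120008340482)))) 
(.lf (nat_lit 2753536536) (dlOf (nat_lit 1) (nat_lit 0x400200020008090d82)))))) (.nd (nat_lit 6) 
(.nd (nat_lit 8) (.nd (nat_lit 9) (.nd (nat_lit 10) (.nd (nat_lit 18) 
(.lf (nat_lit 472621080) (dlOf (nat_lit 1) (nat_lit 0x800189d0601))) 
(.lf (nat_lit 15704088) (dlOf (nat_lit 1) (nat_lit 0xc00200020008820482)))) 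
(.lf (nat_lit 50045976) (dlOf (nat_lit 1) (nat_lit 0xc00294c2881)))) (.nd (nat_lit 18) 
(.lf (nat_lit 12296728) (dlOf (nat_lit 1) (nat_lit 0x200286c0d81))) 
(.lf (nat_lit 24093208) (dlOf (nat_lit 3) (nat_lit 0x1f85d0000181000fc2e80000408003800800fc00200020008b80d83))))) 
(.nd (nat_lit 7) (.nd (nat_lit 12) 
(.lf (nat_lit 473669912) (dlOf (nat_lit 1) (nat_lit 0x20018f97501))) 
(.lf (nat_lit 19640600) (dlOf (nat_lit 1) (nat_lit 0x2c00289d8081)))) (.nd (nat_lit 9) 
(.lf (nat_lit 19643800) (dlOf (nat_lit 1) (nat_lit 0x180080008002000a00089dca03))) 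
(.lf (nat_lit 19643288) (dlOf (nat_lit 1) (nat_lit 0x124004000400189dbc82)))))) (.nd (nat_lit 9) 
(.nd (nat_lit 20) (.nd (nat_lit 11) 
(.lf (nat_lit 4096499800) (dlOf (nat_lit 2) (nat_lit 0x18a02a00019818120600))) 
(.lf (nat_lit 3492788312) (dlOf (nat_lit 3) (nat_lit 0x407b0010a81000203d8008000800100080014002001000080fa783)))) 
(.nd (nat_lit 7) (.lf (nat_lit 37725272) (dlOf (nat_lit 1) (nat_lit 0x8002000200090d2902))) 
(.lf (nat_lit 46112984) (dlOf (nat_lit 12) (nat_lit 0x16bfc000c00000018020005b10800457f800180000002f06000f62100070000000b810000d8840005a04001ec42000b5fe00070000000b018003588400180000002b04000d62100060000000a8100035884001400000029040005621000100000006010003d2b800006040006c4200174ae0008a46000000180078008005800200340009380983))))) 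
(.nd (nat_lit 8) (.nd (nat_lit 10) (.nd (nat_lit 18) 
(.lf (nat_lit 1881909848) (dlOf (nat_lit 1) (nat_lit 0x400200020009165302))) 
(.lf (nat_lit 41921112) (dlOf (nat_lit 1) (nat_lit 0x40019245301)))) 
(.lf (nat_lit 19639896) (dlOf (nat_lit 1) (nat_lit 0x80080004002000200089d7183)))) (.nd (nat_lit 7) 
(.lf (nat_lit 19640152) (dlOf (nat_lit 1) (nat_lit 0x2c004001600089d7782))) 
(.lf (nat_lit 50045912) (dlOf (nat_lit 1) (nat_lit 0xc00294c2881))))))))))) (.nd (nat_lit 17) 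
(.nd (nat_lit 4) (.nd (nat_lit 8) (.nd (nat_lit 18) (.nd (nat_lit 6) (.nd (nat_lit 24) 
(.nd (nat_lit 27) (.nd (nat_lit 30) (.nd (nat_lit 7) (.nd (nat_lit 21) 
(.lf (nat_lit 6509666344) (dlOf (nat_lit 2) (nat_lit 0x22c0000038a8180b0000))) 
(.lf (nat_lit 10592296) (dlOf (nat_lit 1) (nat_lit 0x18008001400200060008600483)))) 
(.lf (nat_lit 8499880) (dlOf (nat_lit 1) (nat_lit 0x400200020008518c82)))) (.nd (nat_lit 7) 
(.nd (nat_lit 19) 
(.lf (nat_lit 3221332008) (dlOf (nat_lit 4) (nat_lit 0xe28098007dc04043404c003eb020018026001ed818090000))) 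
(.lf (nat_lit 3221856296) (dlOf (nat_lit 3) (nat_lit 0x2801c0001602000400e0000a0181a0c00)))) 
(.lf (nat_lit 3825314984) (dlOf (nat_lit 1) (nat_lit 0x8008000400200020008146283))))) 
(.nd (nat_lit 19) (.nd (nat_lit 7) (.nd (nat_lit 26) 
(.lf (nat_lit 6039904296) (dlOf (nat_lit 1) (nat_lit 0x260008020981))) 
(.lf (nat_lit 6643884072) (dlOf (nat_lit 2) (nat_lit 0x80620001d0200040008020981)))) 
(.lf (nat_lit 6576778920) (dlOf (nat_lit 1) (nat_lit 0x8008000400200020008147203)))) 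
(.nd (nat_lit 26) (.lf (nat_lit 134848552) (dlOf (nat_lit 1) (nat_lit 0x200280c0c01))) 
(.lf (nat_lit 3960053800) (dlOf (nat_lit 1) (nat_lit 0x48002002800081a0d02)))))) (.nd (nat_lit 19) 
(.nd (nat_lit 20) (.nd (nat_lit 21) 
(.lf (nat_lit 29466664) (dlOf (nat_lit 2) (nat_lit 0x19cf80022c0800200080004002000c0008e10783))) 
(.nd (nat_lit 23) (.lf (nat_lit 18980904) (dlOf (nat_lit 1) (nat_lit 0x20018970001))) 
(.lf (nat_lit 27369512) (dlOf (nat_lit 1) (nat_lit 0x40018cd0781))))) (.nd (nat_lit 7) 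
(.lf (nat_lit 22126632) (dlOf (nat_lit 2) (nat_lit 0x257f80014c080008008000800200040008a90583))) 
(.lf (nat_lit 51489448) (dlOf (nat_lit 1) (nat_lit 0x20019515601))))) (.nd (nat_lit 9) 
(.nd (nat_lit 10) (.lf (nat_lit 21602344) (dlOf (nat_lit 1) (nat_lit 0x8008000800200020008a50a83))) 
(.lf (nat_lit 20556840) (dlOf (nat_lit 1) (nat_lit 0xa00289d6081)))) 
(.lf (nat_lit 50962984) (dlOf (nat_lit 2) (nat_lit 0xf2580001e4080180008008c002003a00094d8883)))))) 
(.nd (nat_lit 10) (.nd (nat_lit 7) (.nd (nat_lit 9) (.nd (nat_lit 20) 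
(.lf (nat_lit 12689512) (dlOf (nat_lit 2) (nat_lit 0x10686000080186d1400))) 
(.lf (nat_lit 59875432) (dlOf (nat_lit 1) (nat_lit 0x2a0029840101)))) (.nd (nat_lit 22) 
(.lf (nat_lit 5167491688) (dlOf (nat_lit 1) (nat_lit 0x400200020008055382))) 
(.lf (nat_lit 1346480744) (dlOf (nat_lit 3) (nat_lit 0x82d80012004000208200810b6002482fc01700020003b0600880018f65381))))) 
(.nd (nat_lit 26) (.lf (nat_lit 5771993320) (dlOf (nat_lit 2) (nat_lit 0x6202800013018031e00))) 
(.lf (nat_lit 3154747624) (dlOf (nat_lit 1) (nat_lit 0x20028310601))))) (.nd (nat_lit 11) 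
(.nd (nat_lit 9) (.nd (nat_lit 19) 
(.lf (nat_lit 1342289000) (dlOf (nat_lit 4) (nat_lit 0x102ca00066020010165000200100190b2800088080008008007400200140008009403))) 
(.lf (nat_lit 636008) (dlOf (nat_lit 1) (nat_lit 0x80080004002000e0008009403)))) 
(.lf (nat_lit 5100381800) (dlOf (nat_lit 1) (nat_lit 0x20018053901)))) (.nd (nat_lit 7) 
(.lf (nat_lit 469875816) (dlOf (nat_lit 2) (nat_lit 0x20bd0000d81800c080))) 
(.lf (nat_lit 3490295016) (dlOf (nat_lit 1) (nat_lit 0x400400020008006502))))))) (.nd (nat_lit 28) 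
(.nd (nat_lit 19) (.nd (nat_lit 26) (.nd (nat_lit 27) (.nd (nat_lit 6) (.nd (nat_lit 7) 
(.lf (nat_lit 24485928) (dlOf (nat_lit 1) (nat_lit 0x140008ba0a01))) 
(.lf (nat_lit 8763560) (dlOf (nat_lit 1) (nat_lit 0x40040002000851a882)))) 
(.lf (nat_lit 6442819688) (dlOf (nat_lit 1) (nat_lit 0x400080020002000e00081c1403)))) 
(.nd (nat_lit 29) (.lf (nat_lit 3355811880) (dlOf (nat_lit 1) (nat_lit 0x60028120681))) 
(.lf (nat_lit 671457320) (dlOf (nat_lit 21) (nat_lit 0x480480005702010e0230002601001501180012408001808c000900400d000c002e0030002302002400d80bb801803a8006005a000000228401760030074800c0008808021804600a001b000210200bc016002500a4037404c02ec023004301000b0006c052800c01a800300720000001044800100a4003004c027c023010d00d809a00180314006011200000020070111011807980180378006011a0000001f84017c0030066000c0007a08001803602a400600c80018028000000076100244046018e0060001c82001f00d804200180007008009c046012801b01800030060800c01f0000000350a010e02300670030000c0100b9009002d00460132021007301000318044000541403b8048000290201aa02400110118000241002700080258002000600081a0583)))))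 
(.nd (nat_lit 6) (.nd (nat_lit 20) (.nd (nat_lit 21) 
(.lf (nat_lit 1678090280) (dlOf (nat_lit 4) (nat_lit 0x10138000200400100a60000f02001005300100098000381000200080040002000c0008180803))) 
(.lf (nat_lit 2753929256) (dlOf (nat_lit 1) (nat_lit 0xf000801b8002002a00080a0903)))) 
(.lf (nat_lit 2752880680) (dlOf (nat_lit 2) (nat_lit 0x180a8000500200040028060581)))) 
(.nd (nat_lit 7) 
(.lf (nat_lit 2753929320) (dlOf (nat_lit 1) (nat_lit 0x280080030002000400080a1403))) 
(.lf (nat_lit 2349182184) (dlOf (nat_lit 2) (nat_lit 0x40198000d80800700080094002004800080f6503)))))) 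
(.nd (nat_lit 21) (.nd (nat_lit 22) (.nd (nat_lit 24) 
(.lf (nat_lit 10330152) (dlOf (nat_lit 1) (nat_lit 0x200185d0581))) 
(.lf (nat_lit 27107368) (dlOf (nat_lit 2) (nat_lit 0xe8000000be040024002003c0008ca0682)))) 
(.lf (nat_lit 22913064) (dlOf (nat_lit 2) (nat_lit 0x160000000560200060008b40681)))) 
(.nd (nat_lit 6) (.nd (nat_lit 7) 
(.lf (nat_lit 28155944) (dlOf (nat_lit 1) (nat_lit 0x40018d60701))) 
(.lf (nat_lit 20816040) (dlOf (nat_lit 2) (nat_lit 0x306f0000d00800080080010002000200089e2c03)))) 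
(.lf (nat_lit 49128552) (dlOf (nat_lit 1) (nat_lit 0xc00400020009462982)))))) (.nd (nat_lit 30) 
(.nd (nat_lit 6) (.nd (nat_lit 27) (.nd (nat_lit 29) 
(.lf (nat_lit 4563771432) (dlOf (nat_lit 1) (nat_lit 0x200180d0281))) 
(.lf (nat_lit 805675048) (dlOf (nat_lit 1) (nat_lit 0x1a0018180881)))) (.nd (nat_lit 26) 
(.lf (nat_lit 4697989160) (dlOf (nat_lit 1) (nat_lit 0x200180d0281))) 
(.lf (nat_lit 2617614376) (dlOf (nat_lit 15) (nat_lit 0x16602d000250100370148001140800080c800cc05a003602900022030001019000e80b400680520004306018a02d000210100480168001000803280b40007804000805a0003702017602d011700c0033800c00740000003208014402d0001881012000c003480000005a0800e00000002c0200a8018002b00000005c1003080680000004007000400040018100682))))) 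
(.nd (nat_lit 27) 
(.lf (nat_lit 4563771496) (dlOf (nat_lit 2) (nat_lit 0x4003c0000002001800180d0781))) 
(.nd (nat_lit 29) 
(.lf (nat_lit 4697989224) (dlOf (nat_lit 2) (nat_lit 0x4003c0000002001800180d0781))) 
(.lf (nat_lit 5234860136) (dlOf (nat_lit 1) (nat_lit 0x2a0028100781)))))) (.nd (nat_lit 6) 
(.nd (nat_lit 26) (.nd (nat_lit 20) 
(.lf (nat_lit 3492126760) (dlOf (nat_lit 1) (nat_lit 0xf000801b8002002a00080a0903))) 
(.lf (nat_lit 3491078184) (dlOf (nat_lit 2) (nat_lit 0x180a8000500200040028060581)))) 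
(.nd (nat_lit 27) 
(.lf (nat_lit 1409654824) (dlOf (nat_lit 1) (nat_lit 0x300080014002000c0008070883))) 
(.lf (nat_lit 1543872552) (dlOf (nat_lit 21) (nat_lit 0x480480005702010e0230002601001501180012408001808c000900400d000c002e0030002302002400c80bb801803a8006005a000000228401760030074800c0008808021804600a0019000210200bc016002500a4037404c02ec023004301000b00064052800c01a800300720000001044800100a4003004c027c023010d00c809a00180314006011200000020070111011807980180378006011a0000001f84017c0030066000c0007a08001803202a400600c80018028000000076100244046018e0060001c82001f00c804200180007008009c046012801901800030060800c01f0000000350a010e02300670030000c0100b9009002d00460132021007301000318044000541403b8048000290201aa02400110118000241002700080258002000600081a0583))))) 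
(.nd (nat_lit 21) (.lf (nat_lit 1346740328) (dlOf (nat_lit 2) (nat_lit 0x1407400021019000980))) 
(.lf (nat_lit 1881514088) (dlOf (nat_lit 1) (nat_lit 0x20028f40981)))))))) (.nd (nat_lit 7) 
(.nd (nat_lit 11) (.nd (nat_lit 6) (.nd (nat_lit 18) (.nd (nat_lit 9) (.nd (nat_lit 22) 
(.lf (nat_lit 2416025896) (dlOf (nat_lit 1) (nat_lit 0xc0018014601))) 
(.lf (nat_lit 3493962024) (dlOf (nat_lit 1) (nat_lit 0x1c8002005e00081b0502)))) 
(.lf (nat_lit 108328) (dlOf (nat_lit 1) (nat_lit 0x20018003d01)))) (.nd (nat_lit 22) 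
(.lf (nat_lit 2818941224) (dlOf (nat_lit 1) (nat_lit 0x8008000400200020008130703))) 
(.lf (nat_lit 21340456) (dlOf (nat_lit 1) (nat_lit 0x1c0008a34601))))) (.nd (nat_lit 10) 
(.nd (nat_lit 26) (.nd (nat_lit 28) 
(.lf (nat_lit 3221332328) (dlOf (nat_lit 1) (nat_lit 0x20018090701))) 
(.lf (nat_lit 2416025960) (dlOf (nat_lit 1) (nat_lit 0x1c004000c0018015202)))) 
(.lf (nat_lit 3959529832) (dlOf (nat_lit 1) (nat_lit 0x20018090701)))) (.nd (nat_lit 9) 
(.lf (nat_lit 2818680168) (dlOf (nat_lit 4) (nat_lit 0x40058002002a001400e0008006000980180028008000c0000001f0700110030000e808003003800000040044004002600180d3482))) 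
(.lf (nat_lit 108392) (dlOf (nat_lit 1) (nat_lit 0x1c0018004001)))))) (.nd (nat_lit 12) 
(.nd (nat_lit 9) (.nd (nat_lit 18) 
(.lf (nat_lit 1812049192) (dlOf (nat_lit 1) (nat_lit 0x400400020008146802))) 
(.lf (nat_lit 3490032936) (dlOf (nat_lit 1) (nat_lit 0x20008006801)))) (.nd (nat_lit 19) 
(.lf (nat_lit 1346480936) (dlOf (nat_lit 1) (nat_lit 0x28008004400200180008f65c03))) 
(.lf (nat_lit 69839656) (dlOf (nat_lit 1) (nat_lit 0x2800400340018cd5c02))))) (.nd (nat_lit 6) 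
(.nd (nat_lit 18) 
(.lf (nat_lit 113448) (dlOf (nat_lit 2) (nat_lit 0x1a341000d93a400aa20800d00020046000800bc82))) 
(.lf (nat_lit 2754460456) (dlOf (nat_lit 1) (nat_lit 0x600180fbc81)))) (.nd (nat_lit 9) 
(.lf (nat_lit 20561256) (dlOf (nat_lit 1) (nat_lit 0x1c002000200089dc902))) (.nd (nat_lit 18) 
(.lf (nat_lit 134331240) (dlOf (nat_lit 1) (nat_lit 0x80040002000800bc82))) 
(.lf (nat_lit 20298600) (dlOf (nat_lit 1) (nat_lit 0x38000189dbc81)))))))) (.nd (nat_lit 10) 
(.nd (nat_lit 11) (.nd (nat_lit 28) (.nd (nat_lit 18) (.nd (nat_lit 27) 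
(.lf (nat_lit 1677828520) (dlOf (nat_lit 2) (nat_lit 0x88022000000200020008090781))) 
(.lf (nat_lit 3959529896) (dlOf (nat_lit 2) (nat_lit 0x18a01e00431818090780)))) 
(.lf (nat_lit 52797864) (dlOf (nat_lit 1) (nat_lit 0x20019571001)))) (.nd (nat_lit 6) 
(.lf (nat_lit 4094271912) (dlOf (nat_lit 1) (nat_lit 0x400400020008036e82))) 
(.lf (nat_lit 872522216) (dlOf (nat_lit 2) (nat_lit 0x10110000b0080008008000400200020008091303))))) 
(.nd (nat_lit 30) (.nd (nat_lit 6) (.nd (nat_lit 9) 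
(.lf (nat_lit 20031912) (dlOf (nat_lit 1) (nat_lit 0x200189d4e81))) 
(.lf (nat_lit 20556712) (dlOf (nat_lit 1) (nat_lit 0x2400089d5d01)))) 
(.lf (nat_lit 6576777704) (dlOf (nat_lit 1) (nat_lit 0x400400020008144e82)))) (.nd (nat_lit 9) 
(.nd (nat_lit 18) (.lf (nat_lit 1812048296) (dlOf (nat_lit 1) (nat_lit 0x1c0028144e81))) 
(.lf (nat_lit 3490032040) (dlOf (nat_lit 1) (nat_lit 0x20018004e81)))) 
(.lf (nat_lit 5637254056) (dlOf (nat_lit 4) (nat_lit 0x3800a800e8010007000600017060070015001c0020000441000980540000004000800400540018055d02)))))) 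
(.nd (nat_lit 26) (.nd (nat_lit 20) (.nd (nat_lit 6) (.nd (nat_lit 9) 
(.lf (nat_lit 114088) (dlOf (nat_lit 1) (nat_lit 0xfc00401fe000800cb82))) 
(.lf (nat_lit 536979368) (dlOf (nat_lit 1) (nat_lit 0x400400580018004302)))) 
(.lf (nat_lit 1610720744) (dlOf (nat_lit 1) (nat_lit 0x80028093601)))) (.nd (nat_lit 18) 
(.nd (nat_lit 23) 
(.lf (nat_lit 1345431016) (dlOf (nat_lit 3) (nat_lit 0xa0b28006c80800405940035a04001400400100018bb3602))) 
(.lf (nat_lit 61973992) (dlOf (nat_lit 2) (nat_lit 0x1152d8005c8080008008000800200020009923603)))) 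
(.lf (nat_lit 43886056) (dlOf (nat_lit 1) (nat_lit 0x200192a3601))))) (.nd (nat_lit 6) 
(.nd (nat_lit 9) 
(.lf (nat_lit 6241232296) (dlOf (nat_lit 4) (nat_lit 0x70050000c0080016104001e0020004e8100030010002380800b000800ac00200040008053603))) 
(.lf (nat_lit 5972797352) (dlOf (nat_lit 1) (nat_lit 0x400400020008144302)))) (.nd (nat_lit 18) 
(.nd (nat_lit 21) (.lf (nat_lit 4496401896) (dlOf (nat_lit 1) (nat_lit 0x400200020008053602))) 
(.lf (nat_lit 4095845864) (dlOf (nat_lit 1) (nat_lit 0x1a00280e3601)))) (.nd (nat_lit 9) 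
(.lf (nat_lit 6375712232) (dlOf (nat_lit 1) (nat_lit 0x400200020008003602))) 
(.lf (nat_lit 2483402728) (dlOf (nat_lit 1) (nat_lit 0x80080038002000e00080fa603)))))))))) 
(.nd (nat_lit 18) (.nd (nat_lit 8) (.nd (nat_lit 30) (.nd (nat_lit 7) (.nd (nat_lit 23) 
(.nd (nat_lit 19) (.nd (nat_lit 27) 
(.lf (nat_lit 2483134520) (dlOf (nat_lit 3) (nat_lit 0xa8040006001c00d600d0002a03000300700011408011800800d400200140008020683))) 
(.lf (nat_lit 2348916792) (dlOf (nat_lit 3) (nat_lit 0xa8040006001c00d600d0002a03000300700010808011800800d400200140008020683)))) 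
(.nd (nat_lit 20) (.lf (nat_lit 470392888) (dlOf (nat_lit 1) (nat_lit 0x18004000600080d0a82))) 
(.lf (nat_lit 3776568) (dlOf (nat_lit 2) (nat_lit 0x6674000e00000000028220b00))))) (.nd (nat_lit 6) 
(.lf (nat_lit 29466680) (dlOf (nat_lit 1) (nat_lit 0x1000400040008e10902))) (.nd (nat_lit 20) 
(.lf (nat_lit 44146808) (dlOf (nat_lit 3) (nat_lit 0x119880008e04002695c0014fe7002d38280039ac40008c100018004002600192d0b82))) 
(.lf (nat_lit 59875448) (dlOf (nat_lit 2) (nat_lit 0x3251e0000000802d00080030002012c0009840203)))))) 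
(.nd (nat_lit 10) (.nd (nat_lit 6) 
(.lf (nat_lit 20033720) (dlOf (nat_lit 1) (nat_lit 0x4004007200089d7e82))) 
(.lf (nat_lit 20029688) (dlOf (nat_lit 1) (nat_lit 0x8002000200089d0a82)))) (.nd (nat_lit 20) 
(.nd (nat_lit 22) (.lf (nat_lit 35759288) (dlOf (nat_lit 1) (nat_lit 0x20019012c81))) 
(.lf (nat_lit 31564984) (dlOf (nat_lit 1) (nat_lit 0x20018e92c81)))) (.nd (nat_lit 11) 
(.lf (nat_lit 36807864) (dlOf (nat_lit 1) (nat_lit 0x20019072c81))) 
(.lf (nat_lit 20032696) (dlOf (nat_lit 1) (nat_lit 0x200189d6281))))))) (.nd (nat_lit 6) 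
(.nd (nat_lit 19) (.nd (nat_lit 7) (.nd (nat_lit 10) 
(.lf (nat_lit 1208066104) (dlOf (nat_lit 1) (nat_lit 0x2e800801b0002008a0008090003))) 
(.lf (nat_lit 1610720312) (dlOf (nat_lit 1) (nat_lit 0x60028092881)))) 
(.lf (nat_lit 5503033528) (dlOf (nat_lit 1) (nat_lit 0x20018031701)))) (.nd (nat_lit 26) 
(.lf (nat_lit 3221856312) (dlOf (nat_lit 1) (nat_lit 0x600181a1281))) 
(.lf (nat_lit 1409916984) (dlOf (nat_lit 1) (nat_lit 0x28008000c002000800080a0b83))))) 
(.nd (nat_lit 27) (.nd (nat_lit 9) (.nd (nat_lit 21) 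
(.lf (nat_lit 5368815736) (dlOf (nat_lit 2) (nat_lit 0x3009000000080058008004c00200080008030c03))) 
(.lf (nat_lit 1344381048) (dlOf (nat_lit 1) (nat_lit 0x8008000400200020008740483)))) 
(.lf (nat_lit 6241232504) (dlOf (nat_lit 1) (nat_lit 0xbc004008e0018053982)))) (.nd (nat_lit 9) 
(.nd (nat_lit 19) (.lf (nat_lit 5503033464) (dlOf (nat_lit 2) (nat_lit 0x400000020018030b80))) 
(.lf (nat_lit 6375972984) (dlOf (nat_lit 2) (nat_lit 0x100280000e018030b80)))) 
(.lf (nat_lit 1208068728) (dlOf (nat_lit 1) (nat_lit 0x400400020008095402))))))) (.nd (nat_lit 31) 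
(.nd (nat_lit 7) (.nd (nat_lit 30) (.nd (nat_lit 9) 
(.lf (nat_lit 805413176) (dlOf (nat_lit 2) (nat_lit 0x2b0290089014403040a000e404b00550230032010c016c07e022403a010601c802a80cc038405c022402c014201380098098013404600b401f005e00d002e006400c001e00ba0050057000000094a80290008444400203a40008090583))) 
(.lf (nat_lit 536979256) (dlOf (nat_lit 1) (nat_lit 0x8008000400200080008003e03)))) 
(.nd (nat_lit 26) 
(.lf (nat_lit 5905686840) (dlOf (nat_lit 2) (nat_lit 0x16200000005c08000800800b4002001400080b0583))) 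
(.lf (nat_lit 1677828408) (dlOf (nat_lit 2) (nat_lit 0x2b0290089014403040a000e404b00550230032010c016c07e022403a010601c802a80cc038405c022402c014201380098098013404600b401f005e00d002e006400c001e00ba0050057000000098a80290008444400203a40008090583))))) 
(.nd (nat_lit 6) (.nd (nat_lit 12) 
(.lf (nat_lit 4697728440) (dlOf (nat_lit 1) (nat_lit 0x220028093601))) 
(.lf (nat_lit 112056) (dlOf (nat_lit 1) (nat_lit 0x580008009981)))) (.nd (nat_lit 9) 
(.lf (nat_lit 7971320) (dlOf (nat_lit 1) (nat_lit 0x20008003000200140008511483))) 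
(.lf (nat_lit 6174125048) (dlOf (nat_lit 1) (nat_lit 0x380018055f01)))))) (.nd (nat_lit 6) 
(.nd (nat_lit 26) (.nd (nat_lit 27) (.nd (nat_lit 28) 
(.lf (nat_lit 3221332280) (dlOf (nat_lit 2) (nat_lit 0x38014c009c0a0001004c000102280188108010407e007803a007401b800400cc006404200d4020002500e801d8060007402a004a005001d000000094800cb000801c8002004c0008090583))) 
(.lf (nat_lit 2416025912) (dlOf (nat_lit 1) (nat_lit 0x4800400180008014c02)))) 
(.lf (nat_lit 2550243640) (dlOf (nat_lit 1) (nat_lit 0x4800400180008014c02)))) (.nd (nat_lit 27) 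
(.lf (nat_lit 6509666616) (dlOf (nat_lit 2) (nat_lit 0x16200000005c08000800800b4002001400080b0583))) 
(.lf (nat_lit 3959529784) (dlOf (nat_lit 2) (nat_lit 0x38014c009c0a0001004c000102280188108010407e007803a007401b800400cc006404200d4020002500e801d8060007402a004a005001d000000098800cb000801c8002004c0008090583))))) 
(.nd (nat_lit 9) (.nd (nat_lit 10) 
(.lf (nat_lit 2416026104) (dlOf (nat_lit 1) (nat_lit 0x2a0008017e01))) 
(.lf (nat_lit 6576778744) (dlOf (nat_lit 1) (nat_lit 0x400400020008146f82)))) 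
(.lf (nat_lit 6442558456) (dlOf (nat_lit 1) (nat_lit 0x1200180f2881))))))) (.nd (nat_lit 19) 
(.nd (nat_lit 29) (.nd (nat_lit 23) (.nd (nat_lit 21) (.nd (nat_lit 22) 
(.lf (nat_lit 1543872568) (dlOf (nat_lit 3) (nat_lit 0x20025002a801000a01280e0006800a9e080084002000600081a0702))) 
(.lf (nat_lit 3494223928) (dlOf (nat_lit 1) (nat_lit 0x4004003800081d0b02)))) (.nd (nat_lit 7) 
(.lf (nat_lit 24485944) (dlOf (nat_lit 2) (nat_lit 0x982e002ac00000153f000000180060008004400200020008ba0b03))) 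
(.lf (nat_lit 52797624) (dlOf (nat_lit 1) (nat_lit 0x1000400020009570702))))) (.nd (nat_lit 8) 
(.nd (nat_lit 9) (.lf (nat_lit 28680312) (dlOf (nat_lit 1) (nat_lit 0x400200020008da0482))) 
(.lf (nat_lit 43361912) (dlOf (nat_lit 32) (nat_lit 0x32cee00b36090069a8e8024d46005fea26004b50e005ca840196d25c002048400056120027609014ea8e8135d44c0cde92e000550801ed4970002a010001a8c0001543801ae92e000947e000298400d6a8980c4525c0009c08003aa2600894970002602022ea4b800c52300009408086a92e003548c00022820096a4b80010c080bdd25c00ea918000420402c54970002081017ca4b8001000811ed25c0007e0406ae92e0003e0200374970001e81034ba4b8000f0081a4525c0007604080692e000370200d94970001b01010aa4b8000d00808cd25c0006604053ea3a050b513035ba4b800e5230000641004a292e0003102021b49700a5a460000b41003252300005804018292e011f48c0000b8200bba8980b3d25c0002c08000aa48022551d0394a898009d2dc0eea92e003400000009860011a8e8143544c0c9292e000120600dd49700008010057a4b8000000862e800801cc002009a00092a3983)))) 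
(.nd (nat_lit 6) (.lf (nat_lit 8759224) (dlOf (nat_lit 1) (nat_lit 0x400400020008514382))) 
(.lf (nat_lit 46508920) (dlOf (nat_lit 1) (nat_lit 0xc00400020019385c02)))))) (.nd (nat_lit 26) 
(.nd (nat_lit 27) 
(.lf (nat_lit 1610981432) (dlOf (nat_lit 2) (nat_lit 0x40aa00020370004e8280b0480))) 
(.lf (nat_lit 671457336) (dlOf (nat_lit 3) (nat_lit 0x200250057c81000a01280e00070015f0080084002000600081a0702)))) 
(.nd (nat_lit 7) (.nd (nat_lit 22) 
(.lf (nat_lit 738566200) (dlOf (nat_lit 2) (nat_lit 0x40aa00020370004e8280b0480))) 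
(.lf (nat_lit 2756026424) (dlOf (nat_lit 1) (nat_lit 0x4004003800081d0b02)))) 
(.lf (nat_lit 1009099960) (dlOf (nat_lit 1) (nat_lit 0xc0029082c81)))))) (.nd (nat_lit 20) 
(.nd (nat_lit 9) (.nd (nat_lit 8) (.nd (nat_lit 26) 
(.lf (nat_lit 2819465272) (dlOf (nat_lit 1) (nat_lit 0x4002000200082a0902))) 
(.lf (nat_lit 3557662776) (dlOf (nat_lit 1) (nat_lit 0x4002000200082a0902)))) 
(.lf (nat_lit 470655288) (dlOf (nat_lit 1) (nat_lit 0x240008150701)))) (.nd (nat_lit 6) 
(.lf (nat_lit 38644280) (dlOf (nat_lit 2) (nat_lit 0x47400002f819135200))) 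
(.lf (nat_lit 61711992) (dlOf (nat_lit 1) (nat_lit 0x1000200040009923982))))) (.nd (nat_lit 6) 
(.nd (nat_lit 7) (.lf (nat_lit 4038712) (dlOf (nat_lit 1) (nat_lit 0x400200040008270b82))) 
(.lf (nat_lit 1344121016) (dlOf (nat_lit 1) (nat_lit 0x200283d4901)))) (.nd (nat_lit 7) 
(.lf (nat_lit 5773303928) (dlOf (nat_lit 2) (nat_lit 0x20170000c8040004004001c00180c0b82))) 
(.lf (nat_lit 8235256) (dlOf (nat_lit 1) (nat_lit 0x440028514b81))))))))) (.nd (nat_lit 4) 
(.nd (nat_lit 8) (.nd (nat_lit 18) (.nd (nat_lit 28) (.nd (nat_lit 20) (.nd (nat_lit 21) 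
(.nd (nat_lit 26) (.nd (nat_lit 23) 
(.lf (nat_lit 3355680808) (dlOf (nat_lit 3) (nat_lit 0x40560003e02000602b0001b8180c0980))) 
(.lf (nat_lit 25403432) (dlOf (nat_lit 1) (nat_lit 0x400200020008c00502)))) (.nd (nat_lit 27) 
(.lf (nat_lit 4362313768) (dlOf (nat_lit 5) (nat_lit 0x180ac000420400040560002002000202b0000e810001015800070080058008002800200140008020583))) 
(.lf (nat_lit 4496531496) (dlOf (nat_lit 1) (nat_lit 0x1000280d0481))))) (.nd (nat_lit 19) 
(.lf (nat_lit 10723368) (dlOf (nat_lit 3) (nat_lit 0x4e1f68000a80802412c80003a04002400400040008620582))) 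
(.lf (nat_lit 2859048) (dlOf (nat_lit 1) (nat_lit 0x400281c0981))))) (.nd (nat_lit 6) 
(.nd (nat_lit 7) (.lf (nat_lit 8108584) (dlOf (nat_lit 1) (nat_lit 0x180020010000851b282))) 
(.lf (nat_lit 58436264) (dlOf (nat_lit 1) (nat_lit 0x2200297e5601)))) (.nd (nat_lit 7) 
(.nd (nat_lit 9) (.lf (nat_lit 20165736) (dlOf (nat_lit 2) (nat_lit 0xebdc000110189d9400))) 
(.lf (nat_lit 20165224) (dlOf (nat_lit 1) (nat_lit 0x8004000200189d8982)))) 
(.lf (nat_lit 2752749800) (dlOf (nat_lit 1) (nat_lit 0x400400020008046b82)))))) (.nd (nat_lit 26) 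
(.nd (nat_lit 30) (.nd (nat_lit 9) (.nd (nat_lit 27) 
(.lf (nat_lit 4563640360) (dlOf (nat_lit 2) (nat_lit 0x180bc00022040024004003e00080b0382))) 
(.lf (nat_lit 4697858088) (dlOf (nat_lit 2) (nat_lit 0x180bc00022040024004003e00080b0382)))) 
(.lf (nat_lit 268675624) (dlOf (nat_lit 1) (nat_lit 0x80080014002000200080e5183)))) 
(.nd (nat_lit 6) (.nd (nat_lit 21) 
(.lf (nat_lit 1342939176) (dlOf (nat_lit 1) (nat_lit 0x20028110d01))) 
(.lf (nat_lit 1345036328) (dlOf (nat_lit 1) (nat_lit 0xe0008003c002002200089d0803)))) 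
(.lf (nat_lit 3490947304) (dlOf (nat_lit 1) (nat_lit 0x4f8008000400200900008046b83))))) 
(.nd (nat_lit 27) (.nd (nat_lit 6) (.nd (nat_lit 7) 
(.lf (nat_lit 4095451176) (dlOf (nat_lit 1) (nat_lit 0x400280b0c81))) 
(.lf (nat_lit 2483265704) (dlOf (nat_lit 1) (nat_lit 0x10008000800200040008090283)))) 
(.lf (nat_lit 5167621736) (dlOf (nat_lit 1) (nat_lit 0x200180d3901)))) (.nd (nat_lit 9) 
(.nd (nat_lit 19) 
(.lf (nat_lit 4228096040) (dlOf (nat_lit 5) (nat_lit 0x180a8000420400040540002002000202a0000e810001015000070080058008002800200140008020583))) 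
(.lf (nat_lit 470523944) (dlOf (nat_lit 1) (nat_lit 0x20028110d01)))) 
(.lf (nat_lit 6376630824) (dlOf (nat_lit 1) (nat_lit 0x540028095181))))))) (.nd (nat_lit 19) 
(.nd (nat_lit 23) (.nd (nat_lit 6) (.nd (nat_lit 28) 
(.lf (nat_lit 1611112488) (dlOf (nat_lit 1) (nat_lit 0x10008000c002000200080e0983))) 
(.lf (nat_lit 805806120) (dlOf (nat_lit 3) (nat_lit 0x17102b006b804c01a900805c80ac0196013006a30281a0000)))) 
(.nd (nat_lit 28) 
(.lf (nat_lit 1074244840) (dlOf (nat_lit 3) (nat_lit 0x1200000006c0400700000002e02006800180f6501))) 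
(.lf (nat_lit 3490163944) (dlOf (nat_lit 1) (nat_lit 0x80028006501))))) (.nd (nat_lit 21) 
(.nd (nat_lit 20) 
(.lf (nat_lit 13082664) (dlOf (nat_lit 6) (nat_lit 0x15478001aa28000f49800007030006a928002d4780026a28000d49800006840007a928004d478001ea28001349800006040007a928002d478001ea28001349800005840003a8f0000000800800080004002000200086f0a03))) 
(.lf (nat_lit 9936936) (dlOf (nat_lit 1) (nat_lit 0x400200020008590982)))) (.nd (nat_lit 6) 
(.nd (nat_lit 22) (.lf (nat_lit 27762728) (dlOf (nat_lit 1) (nat_lit 0x8008000400200020008d20783))) 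
(.lf (nat_lit 15179816) (dlOf (nat_lit 2) (nat_lit 0x4565c000700000017c100030008001c002004a00087c0683)))) 
(.lf (nat_lit 61318376) (dlOf (nat_lit 1) (nat_lit 0x18800400100009922e02)))))) (.nd (nat_lit 21) 
(.nd (nat_lit 6) (.nd (nat_lit 22) 
(.lf (nat_lit 17801256) (dlOf (nat_lit 1) (nat_lit 0x200188f0d81))) 
(.lf (nat_lit 21995560) (dlOf (nat_lit 1) (nat_lit 0x10002000c0008a80a82)))) (.nd (nat_lit 7) 
(.lf (nat_lit 52404328) (dlOf (nat_lit 1) (nat_lit 0x400200020009530982))) 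
(.lf (nat_lit 42968296) (dlOf (nat_lit 3) (nat_lit 0x29fce0078705000f35880011418005d25c00070040008004000400092a2e02))))) 
(.nd (nat_lit 7) (.nd (nat_lit 6) 
(.lf (nat_lit 28287016) (dlOf (nat_lit 1) (nat_lit 0x68008006c002004c0008d80783))) 
(.lf (nat_lit 54504040) (dlOf (nat_lit 1) (nat_lit 0x400400020009655382)))) (.nd (nat_lit 11) 
(.lf (nat_lit 8368808) (dlOf (nat_lit 1) (nat_lit 0x400200020008518c82))) 
(.lf (nat_lit 472885928) (dlOf (nat_lit 1) (nat_lit 0x20018b55601)))))))) (.nd (nat_lit 7) 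
(.nd (nat_lit 6) (.nd (nat_lit 11) (.nd (nat_lit 18) (.nd (nat_lit 27) 
(.lf (nat_lit 3020136744) (dlOf (nat_lit 1) (nat_lit 0x5000200020008130702))) 
(.lf (nat_lit 1543741736) (dlOf (nat_lit 1) (nat_lit 0x80018154601)))) (.nd (nat_lit 10) 
(.lf (nat_lit 18850088) (dlOf (nat_lit 1) (nat_lit 0x20028970701))) 
(.lf (nat_lit 5772387624) (dlOf (nat_lit 1) (nat_lit 0x8008000400200020008093183))))) 
(.nd (nat_lit 9) (.nd (nat_lit 10) 
(.lf (nat_lit 3492788520) (dlOf (nat_lit 1) (nat_lit 0x1000180fab81))) 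
(.lf (nat_lit 19643688) (dlOf (nat_lit 1) (nat_lit 0x8004000200089dc602)))) (.nd (nat_lit 19) 
(.lf (nat_lit 4094929704) (dlOf (nat_lit 1) (nat_lit 0x400400020008055c02))) 
(.lf (nat_lit 1008446248) (dlOf (nat_lit 1) (nat_lit 0x20028c95c01)))))) (.nd (nat_lit 29) 
(.nd (nat_lit 9) (.nd (nat_lit 18) (.nd (nat_lit 20) 
(.lf (nat_lit 3494093160) (dlOf (nat_lit 2) (nat_lit 0xd1010000940800100080020002000800081b0703))) 
(.lf (nat_lit 9675112) (dlOf (nat_lit 1) (nat_lit 0x1e0008575201)))) 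
(.lf (nat_lit 42967400) (dlOf (nat_lit 3) (nat_lit 0x94ae00017810002a570000b80800680080010002000200092a0f03)))) 
(.nd (nat_lit 11) (.lf (nat_lit 67875688) (dlOf (nat_lit 1) (nat_lit 0x400400020008338f82))) 
(.lf (nat_lit 5570276200) (dlOf (nat_lit 1) (nat_lit 0x4004000200080d5c02))))) (.nd (nat_lit 18) 
(.nd (nat_lit 9) (.nd (nat_lit 27) 
(.lf (nat_lit 537108840) (dlOf (nat_lit 1) (nat_lit 0x40008015201))) 
(.lf (nat_lit 671326568) (dlOf (nat_lit 2) (nat_lit 0x801c00522818155200)))) 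
(.lf (nat_lit 6308473704) (dlOf (nat_lit 1) (nat_lit 0x200280d5c01)))) (.nd (nat_lit 10) 
(.lf (nat_lit 2752487784) (dlOf (nat_lit 3) (nat_lit 0x80010014b60401241ca00b80b20030050802914180050008014800200060008015203))) 
(.lf (nat_lit 604480872) (dlOf (nat_lit 4) (nat_lit 0x1020000c80f40018068002202a000f01000060030002001200340000001f880001006000100000007a08000407a000a03400180000000001801480080018002002400082d3483))))))) 
(.nd (nat_lit 29) (.nd (nat_lit 21) (.nd (nat_lit 6) (.nd (nat_lit 10) 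
(.lf (nat_lit 8626600) (dlOf (nat_lit 1) (nat_lit 0x800400300008511002))) 
(.lf (nat_lit 43230632) (dlOf (nat_lit 1) (nat_lit 0xa0004000200092a3602)))) (.nd (nat_lit 11) 
(.nd (nat_lit 20) 
(.lf (nat_lit 3288572392) (dlOf (nat_lit 3) (nat_lit 0x8001900000c0804c00c80018048000000400340008090c81))) 
(.lf (nat_lit 9675240) (dlOf (nat_lit 1) (nat_lit 0xa50008078400204be0008577d03)))) 
(.lf (nat_lit 5570275816) (dlOf (nat_lit 1) (nat_lit 0x100080004002000200080d4e83))))) 
(.nd (nat_lit 10) (.nd (nat_lit 6) (.nd (nat_lit 11) 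
(.lf (nat_lit 23830952) (dlOf (nat_lit 1) (nat_lit 0x20028b80781))) 
(.lf (nat_lit 58698152) (dlOf (nat_lit 1) (nat_lit 0x200197e4e81)))) 
(.lf (nat_lit 57125352) (dlOf (nat_lit 1) (nat_lit 0x20029794e81)))) (.nd (nat_lit 9) 
(.lf (nat_lit 19643816) (dlOf (nat_lit 4) (nat_lit 0x4b010000d81001858080006808003ac0400030040008004000600089dcb82))) 
(.lf (nat_lit 19642280) (dlOf (nat_lit 1) (nat_lit 0x200289da301)))))) (.nd (nat_lit 27) 
(.nd (nat_lit 10) (.nd (nat_lit 28) 
(.lf (nat_lit 537108968) (dlOf (nat_lit 2) (nat_lit 0x205f0002e818017d00))) 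
(.lf (nat_lit 4026769896) (dlOf (nat_lit 3) (nat_lit 0x8001900000c0804c00c80018048000000400340008090c81)))) 
(.nd (nat_lit 18) (.lf (nat_lit 1610851816) (dlOf (nat_lit 1) (nat_lit 0x20018093601))) 
(.lf (nat_lit 4095714792) (dlOf (nat_lit 1) (nat_lit 0x1c002000200080e3602))))) (.nd (nat_lit 9) 
(.nd (nat_lit 11) (.lf (nat_lit 671326696) (dlOf (nat_lit 1) (nat_lit 0x40008157d01))) 
(.lf (nat_lit 6308473320) (dlOf (nat_lit 1) (nat_lit 0x4004000200080d4e82)))) (.nd (nat_lit 10) 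
(.lf (nat_lit 738438120) (dlOf (nat_lit 1) (nat_lit 0x400200020008095e82))) 
(.lf (nat_lit 4228622312) (dlOf (nat_lit 1) (nat_lit 0x20028114601))))))))) (.nd (nat_lit 26) 
(.nd (nat_lit 6) (.nd (nat_lit 19) (.nd (nat_lit 18) (.nd (nat_lit 29) (.nd (nat_lit 27) 
(.lf (nat_lit 1342414904) (dlOf (nat_lit 1) (nat_lit 0x20002006e0008020682))) 
(.lf (nat_lit 134455352) (dlOf (nat_lit 1) (nat_lit 0x10008001800200060008020683)))) 
(.nd (nat_lit 8) (.lf (nat_lit 805544504) (dlOf (nat_lit 1) (nat_lit 0x400200020008128182))) 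
(.lf (nat_lit 805544248) (dlOf (nat_lit 4) (nat_lit 0x980280085a04002c0aa0040c02000605500205818124c00))))) 
(.nd (nat_lit 25) (.nd (nat_lit 8) (.nd (nat_lit 28) 
(.lf (nat_lit 1611112504) (dlOf (nat_lit 1) (nat_lit 0x680080010002000200080e1403))) 
(.lf (nat_lit 5637644344) (dlOf (nat_lit 1) (nat_lit 0x400400020008140682)))) 
(.lf (nat_lit 805806392) (dlOf (nat_lit 2) (nat_lit 0x210168000980803280080204002005e00081a0583)))) 
(.nd (nat_lit 20) 
(.lf (nat_lit 48734264) (dlOf (nat_lit 11) (nat_lit 0x22e7c00096bb0002ad40000bc18002645c000f0f2001773e0003b5d8001d6a0000e8c8000e00000017070005b9f0000b408001645c000ee7c00035a800016030009b9f0000ac08003dcf80005404000722e001573e0002ad4000151900005210000ee7c000180200175e000001810005af00000000801480080048002000c0009420503))) 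
(.lf (nat_lit 35102776) (dlOf (nat_lit 1) (nat_lit 0xc0018fd0501)))))) (.nd (nat_lit 7) 
(.nd (nat_lit 18) (.nd (nat_lit 20) (.nd (nat_lit 21) 
(.lf (nat_lit 59482168) (dlOf (nat_lit 1) (nat_lit 0x2000800c4002003a0009800503))) 
(.lf (nat_lit 3492519992) (dlOf (nat_lit 1) (nat_lit 0x10004000600080d0b82)))) 
(.lf (nat_lit 45850680) (dlOf (nat_lit 2) (nat_lit 0x1dd7800006404017400200320009360502)))) 
(.nd (nat_lit 20) 
(.lf (nat_lit 28287032) (dlOf (nat_lit 2) (nat_lit 0x85870000000800f00080044002001c0008d80903))) 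
(.lf (nat_lit 5773434936) (dlOf (nat_lit 1) (nat_lit 0x20008001c002000200080d0b83))))) 
(.nd (nat_lit 8) (.nd (nat_lit 18) 
(.lf (nat_lit 36414648) (dlOf (nat_lit 1) (nat_lit 0x20019072c81))) 
(.lf (nat_lit 48211128) (dlOf (nat_lit 1) (nat_lit 0x100019402c81)))) (.nd (nat_lit 9) 
(.lf (nat_lit 51093944) (dlOf (nat_lit 1) (nat_lit 0x200094f6e81))) 
(.lf (nat_lit 20691896) (dlOf (nat_lit 1) (nat_lit 0x80080014002000200089dbe03))))))) 
(.nd (nat_lit 9) (.nd (nat_lit 7) (.nd (nat_lit 8) (.nd (nat_lit 11) 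
(.lf (nat_lit 62103672) (dlOf (nat_lit 4) (nat_lit 0xaa96800314b2007aa5001465278009a8e80049450003697b0002387000e52d0004a96400994a0028aa4f000951d8001a8e800194520016a28001a4bd80011848004296800914a002b0a4f00035148000e0201708008030000205ea0009950b83))) 
(.lf (nat_lit 8370296) (dlOf (nat_lit 1) (nat_lit 0x8000851a881)))) (.nd (nat_lit 19) 
(.lf (nat_lit 61318520) (dlOf (nat_lit 2) (nat_lit 0x80ca0000bc080078008008c002001c0009923503))) 
(.lf (nat_lit 42968440) (dlOf (nat_lit 1) (nat_lit 0x400292a3501))))) (.nd (nat_lit 8) 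
(.nd (nat_lit 18) 
(.lf (nat_lit 1879286008) (dlOf (nat_lit 1) (nat_lit 0x18008000c002000200080c0483))) 
(.nd (nat_lit 19) 
(.lf (nat_lit 48734456) (dlOf (nat_lit 1) (nat_lit 0x48008004400200720009422483))) 
(.lf (nat_lit 19898616) (dlOf (nat_lit 1) (nat_lit 0x200189d0a81))))) (.nd (nat_lit 20) 
(.lf (nat_lit 537108984) (dlOf (nat_lit 3) (nat_lit 0xd005f0001001006702f8000740801b800800a000200360008017e03))) 
(.lf (nat_lit 9675256) (dlOf (nat_lit 4) (nat_lit 0xa3800050f440002f0400028ec000168100043cf000064080130008002000200620008577e03)))))) 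
(.nd (nat_lit 10) (.nd (nat_lit 7) (.nd (nat_lit 8) (.nd (nat_lit 11) 
(.lf (nat_lit 19636856) (dlOf (nat_lit 2) (nat_lit 0xc95f60003202000200289d1901))) 
(.lf (nat_lit 19901048) (dlOf (nat_lit 1) (nat_lit 0x4002000200089d5402)))) 
(.lf (nat_lit 6040036216) (dlOf (nat_lit 1) (nat_lit 0x600180b2581)))) (.nd (nat_lit 19) 
(.lf (nat_lit 5234729976) (dlOf (nat_lit 1) (nat_lit 0xa00080064002003800080d2883))) 
(.lf (nat_lit 50045944) (dlOf (nat_lit 1) (nat_lit 0x200094c2881))))) (.nd (nat_lit 19) 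
(.nd (nat_lit 12) 
(.lf (nat_lit 43230840) (dlOf (nat_lit 2) (nat_lit 0x4b048003cd8800184840005606000800292a3981))) 
(.lf (nat_lit 20166264) (dlOf (nat_lit 1) (nat_lit 0xdc004014a00089d9d02)))) (.nd (nat_lit 18) 
(.lf (nat_lit 43755128) (dlOf (nat_lit 1) (nat_lit 0x5c002000c00092a3982))) 
(.lf (nat_lit 42968696) (dlOf (nat_lit 1) (nat_lit 0x600292a3981)))))))) (.nd (nat_lit 8) 
(.nd (nat_lit 18) (.nd (nat_lit 31) (.nd (nat_lit 28) (.nd (nat_lit 32) 
(.lf (nat_lit 201564216) (dlOf (nat_lit 1) (nat_lit 0x10008001800200060008020683))) 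
(.lf (nat_lit 4496531512) (dlOf (nat_lit 1) (nat_lit 0x680080034002000400080d0683)))) 
(.nd (nat_lit 19) (.lf (nat_lit 469999672) (dlOf (nat_lit 1) (nat_lit 0x20002006e0008020682))) 
(.lf (nat_lit 1009492024) (dlOf (nat_lit 1) (nat_lit 0xc00291a0501))))) (.nd (nat_lit 6) 
(.nd (nat_lit 9) (.lf (nat_lit 2754322488) (dlOf (nat_lit 1) (nat_lit 0x10004000600080d0b82))) 
(.lf (nat_lit 2751707704) (dlOf (nat_lit 1) (nat_lit 0x40040002000800b402)))) (.nd (nat_lit 7) 
(.lf (nat_lit 2483265656) (dlOf (nat_lit 4) (nat_lit 0x1800800088038003da08000c01c001ea02002c010000e0070007981001c0008009c00200400008090083))) 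
(.lf (nat_lit 6644015864) (dlOf (nat_lit 1) (nat_lit 0x600180b2101)))))) (.nd (nat_lit 21) 
(.nd (nat_lit 27) (.nd (nat_lit 19) 
(.lf (nat_lit 6241624120) (dlOf (nat_lit 1) (nat_lit 0x400400020008140682))) 
(.lf (nat_lit 69181496) (dlOf (nat_lit 3) (nat_lit 0x4087000018100020438000000800600080008002000e00088c0503)))) 
(.nd (nat_lit 28) (.nd (nat_lit 30) 
(.lf (nat_lit 738697272) (dlOf (nat_lit 1) (nat_lit 0x680080010002000200080e1403))) 
(.lf (nat_lit 3959922744) (dlOf (nat_lit 2) (nat_lit 0x4080007d40200020008170001)))) 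
(.lf (nat_lit 1007132728) (dlOf (nat_lit 1) (nat_lit 0x1c002001200081c0882))))) (.nd (nat_lit 6) 
(.nd (nat_lit 19) 
(.lf (nat_lit 1009229880) (dlOf (nat_lit 3) (nat_lit 0x158388005c1c00000304005a0e2000000190a0500))) 
(.lf (nat_lit 473931832) (dlOf (nat_lit 1) (nat_lit 0x11800400600008fc0502)))) 
(.lf (nat_lit 1009230072) (dlOf (nat_lit 1) (nat_lit 0x9c004003c00090a2482)))))) (.nd (nat_lit 6) 
(.nd (nat_lit 7) (.nd (nat_lit 9) (.nd (nat_lit 18) 
(.lf (nat_lit 1677959480) (dlOf (nat_lit 4) (nat_lit 0x980280138404000c0aa009a6020016055004d2018124c00))) 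
(.lf (nat_lit 1678221624) (dlOf (nat_lit 2) (nat_lit 0x210168000940803280080204002005e00081a0583)))) 
(.lf (nat_lit 4899187512) (dlOf (nat_lit 1) (nat_lit 0x200180d5c01)))) (.nd (nat_lit 11) 
(.nd (nat_lit 10) 
(.lf (nat_lit 2752487864) (dlOf (nat_lit 1) (nat_lit 0x498008000400200a60008017783))) 
(.lf (nat_lit 5704492472) (dlOf (nat_lit 1) (nat_lit 0x200280d3601)))) (.nd (nat_lit 9) 
(.lf (nat_lit 1008970168) (dlOf (nat_lit 1) (nat_lit 0x2000400040009004e82))) 
(.lf (nat_lit 2754591672) (dlOf (nat_lit 1) (nat_lit 0x80080004002001400080fbe03)))))) 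
(.nd (nat_lit 7) (.nd (nat_lit 9) (.nd (nat_lit 11) (.nd (nat_lit 27) 
(.lf (nat_lit 3288572280) (dlOf (nat_lit 2) (nat_lit 0x40320015012005f881000e0008001c00200a60008090783))) 
(.lf (nat_lit 2349048184) (dlOf (nat_lit 1) (nat_lit 0x280080004002000a0008090783)))) 
(.lf (nat_lit 738437496) (dlOf (nat_lit 1) (nat_lit 0x20028094e81)))) (.nd (nat_lit 10) 
(.lf (nat_lit 738438008) (dlOf (nat_lit 1) (nat_lit 0x20018095c01))) 
(.lf (nat_lit 67876728) (dlOf (nat_lit 1) (nat_lit 0x4001833a301))))) (.nd (nat_lit 9) 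
(.nd (nat_lit 18) (.lf (nat_lit 1006871032) (dlOf (nat_lit 1) (nat_lit 0x600180c0d81))) 
(.lf (nat_lit 2752487928) (dlOf (nat_lit 10) (nat_lit 0x12052801300140005a08003c14a006000500015820020052800d80140005408006014a0062005000140200930000000880801a03a00220000000200400680e8008900000007410007038803dc164000809e0000c83000e071007f82c80002c0800d0002005a0008017e02)))) 
(.lf (nat_lit 738438136) (dlOf (nat_lit 3) (nat_lit 0x802d0001000800081680007c04005400400020018095f02)))))))))))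

end

end Pool.Agent.Lib.MP_5854e1_co.Cz

namespace Pool.Agent.Lib.MP_5854e1_co.Cz

noncomputable section

noncomputable def tz24 : DT := (.nd (nat_lit 16) (.nd (nat_lit 6) (.nd (nat_lit 13) 
(.nd (nat_lit 15) (.nd (nat_lit 26) (.nd (nat_lit 18) (.nd (nat_lit 19) (.nd (nat_lit 27) 
(.nd (nat_lit 7) (.nd (nat_lit 8) 
(.lf (nat_lit 2952794124) (dlOf (nat_lit 1) (nat_lit 0x80018007a81))) 
(.lf (nat_lit 2952795916) (dlOf (nat_lit 1) (nat_lit 0x80040002000800a002)))) 
(.lf (nat_lit 24117388) (dlOf (nat_lit 1) (nat_lit 0x400200020008b80102)))) (.nd (nat_lit 7) 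
(.nd (nat_lit 11) 
(.lf (nat_lit 1476399116) (dlOf (nat_lit 1) (nat_lit 0x650008037800201ea0008007a83))) 
(.lf (nat_lit 3623884812) (dlOf (nat_lit 1) (nat_lit 0x2001800a601)))) 
(.lf (nat_lit 1476401548) (dlOf (nat_lit 1) (nat_lit 0x2001800af81))))) (.nd (nat_lit 21) 
(.nd (nat_lit 7) (.nd (nat_lit 10) 
(.lf (nat_lit 4027056140) (dlOf (nat_lit 2) (nat_lit 0x8000012f6040004004000c00081c0682))) 
(.lf (nat_lit 56099852) (dlOf (nat_lit 1) (nat_lit 0x20019732881)))) 
(.lf (nat_lit 46664076) (dlOf (nat_lit 1) (nat_lit 0x20029384e81)))) (.nd (nat_lit 8) 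
(.nd (nat_lit 10) (.lf (nat_lit 15204364) (dlOf (nat_lit 1) (nat_lit 0xc00087c0481))) 
(.lf (nat_lit 1344799756) (dlOf (nat_lit 1) (nat_lit 0x20028982881)))) 
(.lf (nat_lit 1345847564) (dlOf (nat_lit 1) (nat_lit 0x2400400180008e03a02)))))) (.nd (nat_lit 7) 
(.nd (nat_lit 9) (.nd (nat_lit 19) (.nd (nat_lit 8) 
(.lf (nat_lit 134479884) (dlOf (nat_lit 6) (nat_lit 0xc05e0009a0200a402f0004b0100340178002300801780bc0010a04008005e000830200300028030481))) 
(.lf (nat_lit 41156876) (dlOf (nat_lit 2) (nat_lit 0x2d9ce000000200080009223a01)))) 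
(.nd (nat_lit 20) 
(.lf (nat_lit 2819358732) (dlOf (nat_lit 2) (nat_lit 0x102180010070002e208002c00200160008250182))) 
(.lf (nat_lit 5773197324) (dlOf (nat_lit 1) (nat_lit 0x58008000c002003a00080b0003))))) 
(.nd (nat_lit 8) (.nd (nat_lit 19) 
(.lf (nat_lit 5234755084) (dlOf (nat_lit 1) (nat_lit 0x80080008002000400080d3683))) 
(.lf (nat_lit 8128012) (dlOf (nat_lit 1) (nat_lit 0x20028513681)))) 
(.lf (nat_lit 5100538636) (dlOf (nat_lit 1) (nat_lit 0x200180d5b01))))) (.nd (nat_lit 11) 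
(.nd (nat_lit 8) (.lf (nat_lit 12320908) (dlOf (nat_lit 1) (nat_lit 0x4002000200086c0102))) 
(.nd (nat_lit 10) (.lf (nat_lit 8126860) (dlOf (nat_lit 1) (nat_lit 0x400200020008511002))) 
(.lf (nat_lit 8127884) (dlOf (nat_lit 1) (nat_lit 0x400200020008513602))))) (.nd (nat_lit 20) 
(.nd (nat_lit 23) (.lf (nat_lit 5771626892) (dlOf (nat_lit 1) (nat_lit 0x400200020008004e82))) 
(.lf (nat_lit 58984844) (dlOf (nat_lit 1) (nat_lit 0x200297e4e81)))) 
(.lf (nat_lit 53741964) (dlOf (nat_lit 1) (nat_lit 0x200195f4e81))))))) (.nd (nat_lit 30) 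
(.nd (nat_lit 10) (.nd (nat_lit 18) (.nd (nat_lit 7) (.nd (nat_lit 9) 
(.lf (nat_lit 738721804) (dlOf (nat_lit 1) (nat_lit 0x3c00080f0a01))) 
(.lf (nat_lit 4362082828) (dlOf (nat_lit 1) (nat_lit 0x1b800800780020004000800b283)))) 
(.lf (nat_lit 2214593420) (dlOf (nat_lit 1) (nat_lit 0x3000400240008002582)))) (.nd (nat_lit 20) 
(.nd (nat_lit 7) 
(.lf (nat_lit 201588748) (dlOf (nat_lit 6) (nat_lit 0xc05e0009a0200a402f0004b0100340178002300801780bc0010a04008005e000830200300028030481))) 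
(.lf (nat_lit 4496556172) (dlOf (nat_lit 1) (nat_lit 0x200280e0401)))) (.nd (nat_lit 19) 
(.lf (nat_lit 471072780) (dlOf (nat_lit 1) (nat_lit 0x78002002a0008260282))) 
(.lf (nat_lit 471597068) (dlOf (nat_lit 4) (nat_lit 0x170b0800b8274003c11c0060f06000e161000804e8001823800bf80c00302c2001809d000c0470016e0180030008002800200020008350283)))))) 
(.nd (nat_lit 31) (.nd (nat_lit 8) 
(.lf (nat_lit 603987468) (dlOf (nat_lit 1) (nat_lit 0x16001800cd81))) (.nd (nat_lit 29) 
(.lf (nat_lit 469769484) (dlOf (nat_lit 1) (nat_lit 0x4002800c601))) 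
(.lf (nat_lit 1006640396) (dlOf (nat_lit 1) (nat_lit 0x140040002000800c602))))) (.nd (nat_lit 7) 
(.lf (nat_lit 2885944332) (dlOf (nat_lit 2) (nat_lit 0x803401c670200040028142881))) 
(.nd (nat_lit 9) (.lf (nat_lit 2885684364) (dlOf (nat_lit 1) (nat_lit 0x480008006181))) 
(.lf (nat_lit 2214598284) (dlOf (nat_lit 1) (nat_lit 0x1e0008009e01))))))) (.nd (nat_lit 7) 
(.nd (nat_lit 18) (.nd (nat_lit 8) (.nd (nat_lit 12) (.nd (nat_lit 19) 
(.lf (nat_lit 1140850700) (dlOf (nat_lit 1) (nat_lit 0x80008000001))) 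
(.lf (nat_lit 3288858636) (dlOf (nat_lit 2) (nat_lit 0x8000007c2040004004000c00081c0682)))) 
(.lf (nat_lit 3690991628) (dlOf (nat_lit 1) (nat_lit 0x2c00200020008007a82)))) 
(.lf (nat_lit 3288337676) (dlOf (nat_lit 1) (nat_lit 0x400400020018006682)))) (.nd (nat_lit 9) 
(.nd (nat_lit 19) 
(.lf (nat_lit 3691249676) (dlOf (nat_lit 1) (nat_lit 0x70008027c002002000080e0283))) 
(.lf (nat_lit 6377177100) (dlOf (nat_lit 1) (nat_lit 0x58008000c002003a00080b0003)))) 
(.lf (nat_lit 3557036556) (dlOf (nat_lit 1) (nat_lit 0x8008000400200020008128683))))) 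
(.nd (nat_lit 9) (.nd (nat_lit 10) (.nd (nat_lit 11) 
(.lf (nat_lit 3288596876) (dlOf (nat_lit 1) (nat_lit 0x278008004400200960008090783))) 
(.lf (nat_lit 3690994060) (dlOf (nat_lit 1) (nat_lit 0x4002800af81)))) 
(.lf (nat_lit 3690993036) (dlOf (nat_lit 1) (nat_lit 0x20018009901)))) (.nd (nat_lit 8) 
(.nd (nat_lit 10) (.lf (nat_lit 6376131212) (dlOf (nat_lit 1) (nat_lit 0x20028095481))) 
(.lf (nat_lit 5435819660) (dlOf (nat_lit 2) (nat_lit 0xd0188000bc080010008000c00200040008003a03)))) 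
(.lf (nat_lit 3690993548) (dlOf (nat_lit 1) (nat_lit 0x800800040020002000800a303)))))))) 
(.nd (nat_lit 18) (.nd (nat_lit 8) (.nd (nat_lit 19) (.nd (nat_lit 9) (.nd (nat_lit 10) 
(.nd (nat_lit 21) (.nd (nat_lit 22) 
(.lf (nat_lit 68190220) (dlOf (nat_lit 1) (nat_lit 0x400200020008450482))) 
(.lf (nat_lit 13664268) (dlOf (nat_lit 1) (nat_lit 0x400400020008740082)))) 
(.lf (nat_lit 28344332) (dlOf (nat_lit 1) (nat_lit 0x20018d80281)))) (.nd (nat_lit 7) 
(.lf (nat_lit 4362109964) (dlOf (nat_lit 3) (nat_lit 0x602d00e390100030168071c40800d8008014400200140008002883))) 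
(.lf (nat_lit 134253708) (dlOf (nat_lit 4) (nat_lit 0x560000001201000100000008c0800880000004404011800200de0008006182))))) 
(.nd (nat_lit 7) (.nd (nat_lit 26) 
(.lf (nat_lit 5502961164) (dlOf (nat_lit 1) (nat_lit 0x6800400180008003682))) 
(.lf (nat_lit 4630545932) (dlOf (nat_lit 1) (nat_lit 0x2000400060008003682)))) (.nd (nat_lit 26) 
(.lf (nat_lit 2684393100) (dlOf (nat_lit 8) (nat_lit 0x8803400580180007704001400d0003b01000b0068001c4080048034000e004002001a0006302001200d00030810007006800000080110008012000200080008009e03))) 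
(.lf (nat_lit 6643816076) (dlOf (nat_lit 3) (nat_lit 0x800d400440680006d04002c035001801a000000100058008003400200160008009e03)))))) 
(.nd (nat_lit 20) (.nd (nat_lit 26) (.nd (nat_lit 21) 
(.lf (nat_lit 3624435724) (dlOf (nat_lit 2) (nat_lit 0x4f810000ec06c0000004000200081a0481))) 
(.lf (nat_lit 11042828) (dlOf (nat_lit 2) (nat_lit 0xe753003b0000000ec100068008000c00200120008660103)))) 
(.nd (nat_lit 27) (.lf (nat_lit 3557326860) (dlOf (nat_lit 2) (nat_lit 0x26072000d78181c0480))) 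
(.lf (nat_lit 2886238220) (dlOf (nat_lit 2) (nat_lit 0x4f810000ec06c0000004000200081a0481))))) 
(.nd (nat_lit 21) (.lf (nat_lit 22577164) (dlOf (nat_lit 1) (nat_lit 0x1a800400a20018b00182))) 
(.nd (nat_lit 22) (.lf (nat_lit 3702796) (dlOf (nat_lit 1) (nat_lit 0x1400400180008210682))) 
(.lf (nat_lit 24674316) (dlOf (nat_lit 1) (nat_lit 0x660008bb0081))))))) (.nd (nat_lit 11) 
(.nd (nat_lit 7) (.nd (nat_lit 20) (.nd (nat_lit 26) 
(.lf (nat_lit 1476952332) (dlOf (nat_lit 2) (nat_lit 0x8021800480f40028068001802a000a0100002805000240180014009000c000000744480010008001000200060008317403))) 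
(.lf (nat_lit 470319372) (dlOf (nat_lit 2) (nat_lit 0x581f20003e0180c0480)))) (.nd (nat_lit 22) 
(.lf (nat_lit 1345880332) (dlOf (nat_lit 4) (nat_lit 0x401f60006202000a0fb0002f81000107d8000000801b0008007000200060008e03a03))) 
(.lf (nat_lit 58229004) (dlOf (nat_lit 1) (nat_lit 0x4004000a00197c3a02))))) (.nd (nat_lit 12) 
(.nd (nat_lit 27) (.lf (nat_lit 4630544780) (dlOf (nat_lit 1) (nat_lit 0x80008001001))) 
(.lf (nat_lit 6106939788) (dlOf (nat_lit 1) (nat_lit 0x20028001001)))) 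
(.lf (nat_lit 67146124) (dlOf (nat_lit 1) (nat_lit 0x400400040018008382))))) (.nd (nat_lit 9) 
(.nd (nat_lit 7) (.nd (nat_lit 12) 
(.lf (nat_lit 2483064076) (dlOf (nat_lit 2) (nat_lit 0x20140000b0080010008000c00200020008006683))) 
(.lf (nat_lit 19963148) (dlOf (nat_lit 1) (nat_lit 0x200189dc601)))) 
(.lf (nat_lit 2483064204) (dlOf (nat_lit 1) (nat_lit 0x1c00200040008006c82)))) (.nd (nat_lit 26) 
(.nd (nat_lit 28) 
(.lf (nat_lit 5368744716) (dlOf (nat_lit 3) (nat_lit 0x200a00017810031004001000140000008017000200160008005b02))) 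
(.lf (nat_lit 6710921996) (dlOf (nat_lit 2) (nat_lit 0x9d00e0000bc081070008038400200760008005b03)))) 
(.lf (nat_lit 4764764940) (dlOf (nat_lit 1) (nat_lit 0x8008001400200020008005b03))))))) 
(.nd (nat_lit 31) (.nd (nat_lit 22) (.nd (nat_lit 26) (.nd (nat_lit 7) (.nd (nat_lit 19) 
(.lf (nat_lit 134512652) (dlOf (nat_lit 1) (nat_lit 0x1c0008050101))) 
(.lf (nat_lit 819212) (dlOf (nat_lit 1) (nat_lit 0x8008000400200020008020483)))) 
(.lf (nat_lit 12353676) (dlOf (nat_lit 1) (nat_lit 0x4002000200086c0102)))) (.nd (nat_lit 20) 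
(.nd (nat_lit 28) (.lf (nat_lit 201621516) (dlOf (nat_lit 1) (nat_lit 0x1c0008050101))) 
(.lf (nat_lit 5838766092) (dlOf (nat_lit 1) (nat_lit 0x9a00081b0001)))) 
(.lf (nat_lit 471105548) (dlOf (nat_lit 2) (nat_lit 0x701f8000f604001000400240008270182))))) 
(.nd (nat_lit 19) (.nd (nat_lit 21) (.nd (nat_lit 23) 
(.lf (nat_lit 5537804) (dlOf (nat_lit 1) (nat_lit 0x1a0018390281))) 
(.lf (nat_lit 30703628) (dlOf (nat_lit 2) (nat_lit 0x2ec8d001fc00802b0008001000200d80008e40783)))) 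
(.nd (nat_lit 8) (.lf (nat_lit 24412172) (dlOf (nat_lit 1) (nat_lit 0xa8008000400200300008b90683))) 
(.lf (nat_lit 41189644) (dlOf (nat_lit 1) (nat_lit 0x1c00200020009223a02))))) (.nd (nat_lit 9) 
(.lf (nat_lit 15499276) (dlOf (nat_lit 1) (nat_lit 0x2c0028800281))) 
(.lf (nat_lit 8165900) (dlOf (nat_lit 1) (nat_lit 0x40040002000851b282)))))) (.nd (nat_lit 26) 
(.nd (nat_lit 28) (.nd (nat_lit 19) (.nd (nat_lit 27) 
(.lf (nat_lit 2684649484) (dlOf (nat_lit 2) (nat_lit 0x34203200090158000ec1000b00080004002001e0008100103))) 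
(.lf (nat_lit 3355738124) (dlOf (nat_lit 4) (nat_lit 0x405e0002602000202f000128100030068000880800800080044002002e00080e0183)))) 
(.lf (nat_lit 2819391500) (dlOf (nat_lit 1) (nat_lit 0x880080098002002a0008250183)))) 
(.nd (nat_lit 7) (.nd (nat_lit 22) 
(.lf (nat_lit 2953084940) (dlOf (nat_lit 2) (nat_lit 0x500a0006400800a80080018002000200080f0183))) 
(.lf (nat_lit 3494150156) (dlOf (nat_lit 3) (nat_lit 0x421400021000015ac10001080000ad4040028004001000081c0682)))) 
(.lf (nat_lit 3491529100) (dlOf (nat_lit 1) (nat_lit 0x160018090781))))) (.nd (nat_lit 27) 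
(.nd (nat_lit 30) (.nd (nat_lit 22) 
(.lf (nat_lit 2214887436) (dlOf (nat_lit 1) (nat_lit 0x400400020008100102))) 
(.lf (nat_lit 2755952652) (dlOf (nat_lit 3) (nat_lit 0x4229000210a802b98100010854015ca040028004001000081c0682)))) 
(.nd (nat_lit 9) 
(.lf (nat_lit 3557589004) (dlOf (nat_lit 1) (nat_lit 0x8008001c00200040008270183))) 
(.lf (nat_lit 3288629772) (dlOf (nat_lit 2) (nat_lit 0x3403600160158005941007e8008007800200020008090d83))))) 
(.nd (nat_lit 28) 
(.lf (nat_lit 3422846988) (dlOf (nat_lit 2) (nat_lit 0x14580c8000760400e0004000e0008120102))) 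
(.nd (nat_lit 30) (.lf (nat_lit 2617540620) (dlOf (nat_lit 1) (nat_lit 0x60002001000080e0182))) 
(.lf (nat_lit 3691282444) (dlOf (nat_lit 1) (nat_lit 0x20018110181)))))))))) (.nd (nat_lit 18) 
(.nd (nat_lit 19) (.nd (nat_lit 7) (.nd (nat_lit 10) (.nd (nat_lit 12) (.nd (nat_lit 8) 
(.nd (nat_lit 15) (.lf (nat_lit 11542540) (dlOf (nat_lit 1) (nat_lit 0xa00286b0081))) 
(.lf (nat_lit 470851596) (dlOf (nat_lit 2) (nat_lit 0xa40480012302000800281c0481)))) 
(.lf (nat_lit 201369868) (dlOf (nat_lit 1) (nat_lit 0x1e0028004b81)))) (.nd (nat_lit 8) 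
(.nd (nat_lit 27) 
(.lf (nat_lit 4362091020) (dlOf (nat_lit 2) (nat_lit 0x9806600bf7020540001800b281))) 
(.lf (nat_lit 469776908) (dlOf (nat_lit 1) (nat_lit 0x40040002000800b282)))) 
(.lf (nat_lit 1476409612) (dlOf (nat_lit 1) (nat_lit 0x2800800100020010000800aa03))))) 
(.nd (nat_lit 8) (.nd (nat_lit 12) (.nd (nat_lit 20) 
(.lf (nat_lit 5771373580) (dlOf (nat_lit 1) (nat_lit 0x400200020008005f82))) 
(.lf (nat_lit 19934220) (dlOf (nat_lit 2) (nat_lit 0x2429e0000e02000200289d5f81)))) 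
(.lf (nat_lit 67157004) (dlOf (nat_lit 2) (nat_lit 0x82e000a4f020002001800bf01)))) 
(.nd (nat_lit 12) 
(.lf (nat_lit 2754620684) (dlOf (nat_lit 1) (nat_lit 0x80080004002000200080f6683))) 
(.lf (nat_lit 19971340) (dlOf (nat_lit 1) (nat_lit 0x200189dc601)))))) (.nd (nat_lit 9) 
(.nd (nat_lit 8) (.nd (nat_lit 20) (.nd (nat_lit 26) 
(.lf (nat_lit 3491766412) (dlOf (nat_lit 1) (nat_lit 0x8008000c00200060008090103))) 
(.lf (nat_lit 2753568908) (dlOf (nat_lit 1) (nat_lit 0x8008000c00200060008090103)))) 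
(.lf (nat_lit 1880105100) (dlOf (nat_lit 1) (nat_lit 0x20018740481)))) (.nd (nat_lit 15) 
(.nd (nat_lit 20) (.lf (nat_lit 5167393164) (dlOf (nat_lit 1) (nat_lit 0x220008004e81))) 
(.lf (nat_lit 57682316) (dlOf (nat_lit 1) (nat_lit 0x20029794e81)))) (.nd (nat_lit 21) 
(.lf (nat_lit 3758139788) (dlOf (nat_lit 1) (nat_lit 0x20028084e81))) 
(.lf (nat_lit 31500684) (dlOf (nat_lit 1) (nat_lit 0x3800801e800200140008e94e83)))))) 
(.nd (nat_lit 12) (.nd (nat_lit 10) (.nd (nat_lit 27) 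
(.lf (nat_lit 6710897292) (dlOf (nat_lit 1) (nat_lit 0x80018005481))) 
(.lf (nat_lit 5771373196) (dlOf (nat_lit 1) (nat_lit 0xe80080160002003a0008005483)))) 
(.lf (nat_lit 1140860556) (dlOf (nat_lit 1) (nat_lit 0xe0018003a01)))) (.nd (nat_lit 26) 
(.nd (nat_lit 27) 
(.lf (nat_lit 2684368524) (dlOf (nat_lit 8) (nat_lit 0x9803400500180007704001400d0003b01000a0068001c4080040034000e004002001a0006302001000d0003081000600680000008007800800b800200200008009e03))) 
(.lf (nat_lit 2281715340) (dlOf (nat_lit 1) (nat_lit 0x30008001c00200060008009e03)))) 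
(.lf (nat_lit 6643791500) (dlOf (nat_lit 1) (nat_lit 0x48008002400200040008009e03))))))) 
(.nd (nat_lit 29) (.nd (nat_lit 20) (.nd (nat_lit 15) (.nd (nat_lit 7) (.nd (nat_lit 21) 
(.lf (nat_lit 3624411148) (dlOf (nat_lit 4) (nat_lit 0x50000000b404002400000059020008039000801b000500d00009c0c0004004001c0018190102))) 
(.lf (nat_lit 2629644) (dlOf (nat_lit 2) (nat_lit 0x1291c0018e04000400400240008180082)))) 
(.nd (nat_lit 8) 
(.lf (nat_lit 3221758092) (dlOf (nat_lit 2) (nat_lit 0xa01b800200800006208000800400040008170102))) 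
(.lf (nat_lit 1346906508) (dlOf (nat_lit 1) (nat_lit 0x4004000600190a4e82))))) (.nd (nat_lit 8) 
(.nd (nat_lit 24) 
(.lf (nat_lit 11051020) (dlOf (nat_lit 2) (nat_lit 0xc0000000ec0800100080058002001c0008660103))) 
(.lf (nat_lit 27828236) (dlOf (nat_lit 4) (nat_lit 0xab0200145720004ab8c000d5a20004a0a0004605000558100042b9000295c60004ad100045840005581000a2b9000255c60006ad10002505000224280008008001c00200120008d30183)))) 
(.lf (nat_lit 470327564) (dlOf (nat_lit 2) (nat_lit 0x707c8000f804000c002000200080c0482))))) 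
(.nd (nat_lit 8) (.nd (nat_lit 9) (.nd (nat_lit 10) 
(.lf (nat_lit 16261132) (dlOf (nat_lit 1) (nat_lit 0x8008000400200020008880103))) 
(.lf (nat_lit 56108044) (dlOf (nat_lit 1) (nat_lit 0x20019732881)))) 
(.lf (nat_lit 1345856012) (dlOf (nat_lit 1) (nat_lit 0x20028e07b01)))) (.nd (nat_lit 15) 
(.nd (nat_lit 22) 
(.lf (nat_lit 1345855756) (dlOf (nat_lit 3) (nat_lit 0x207d8001880800282d00000004002800400080008e03a02))) 
(.lf (nat_lit 58204428) (dlOf (nat_lit 1) (nat_lit 0x1800197c3a01)))) 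
(.lf (nat_lit 1345888524) (dlOf (nat_lit 1) (nat_lit 0x8008000400200020008e03a03)))))) 
(.nd (nat_lit 26) (.nd (nat_lit 15) (.nd (nat_lit 30) (.nd (nat_lit 27) 
(.lf (nat_lit 805838860) (dlOf (nat_lit 2) (nat_lit 0x100880009302002600281c0301))) 
(.lf (nat_lit 2819104780) (dlOf (nat_lit 2) (nat_lit 0x26072000918181a0480)))) (.nd (nat_lit 7) 
(.lf (nat_lit 3892846860) (dlOf (nat_lit 2) (nat_lit 0x1809000a6404003800200180008280702))) 
(.lf (nat_lit 3892846732) (dlOf (nat_lit 1) (nat_lit 0x400400020008280482))))) (.nd (nat_lit 27) 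
(.lf (nat_lit 805871628) (dlOf (nat_lit 1) (nat_lit 0x400181d0081))) 
(.lf (nat_lit 2819137548) (dlOf (nat_lit 15) (nat_lit 0x6c0000016202014806a00a203480048c1004f81a802840d20012104009606a000888100730350003f00804901a8001f40402580d4000f802012806a00890348003741005181a8025c0d2000d704006806a0002781009d035004a01a4000380802780d401260690000b820098035004c01a40002a0803d80d401a0069008a03080300108022c06c015c022003200d800000380018008001c002003200081a0483))))) 
(.nd (nat_lit 27) (.nd (nat_lit 15) 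
(.lf (nat_lit 1678254092) (dlOf (nat_lit 2) (nat_lit 0x100880009302002600281c0301))) 
(.lf (nat_lit 1678286860) (dlOf (nat_lit 1) (nat_lit 0x400181d0081)))) (.nd (nat_lit 7) 
(.nd (nat_lit 28) 
(.lf (nat_lit 2886213644) (dlOf (nat_lit 4) (nat_lit 0x50000000b404002400000059020008039000801b000500d00009c0c0004004001c0018190102))) 
(.lf (nat_lit 1007165452) (dlOf (nat_lit 1) (nat_lit 0x8008001000200020008200283)))) 
(.lf (nat_lit 3959955596) (dlOf (nat_lit 2) (nat_lit 0xa01b800200800006208000800400040008170102)))))))) 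
(.nd (nat_lit 15) (.nd (nat_lit 27) (.nd (nat_lit 26) (.nd (nat_lit 20) (.nd (nat_lit 7) 
(.nd (nat_lit 21) (.lf (nat_lit 6442721292) (dlOf (nat_lit 1) (nat_lit 0x400400ee0018190502))) 
(.lf (nat_lit 44310540) (dlOf (nat_lit 1) (nat_lit 0x580080008002001a00092f0083)))) 
(.lf (nat_lit 3221498252) (dlOf (nat_lit 3) (nat_lit 0x802000ba8810005000005cbc080008008001c00200060008114e83)))) 
(.nd (nat_lit 7) (.nd (nat_lit 24) 
(.lf (nat_lit 47456268) (dlOf (nat_lit 1) (nat_lit 0x4004000200093f0002))) 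
(.lf (nat_lit 30679052) (dlOf (nat_lit 2) (nat_lit 0x5e46800fe0040094004000c0018e40782)))) 
(.lf (nat_lit 8135052) (dlOf (nat_lit 1) (nat_lit 0x400200020008511002))))) (.nd (nat_lit 7) 
(.nd (nat_lit 30) (.nd (nat_lit 28) 
(.lf (nat_lit 4362346508) (dlOf (nat_lit 3) (nat_lit 0xa046003820100080230000000800d0008000400200320008030a03))) 
(.lf (nat_lit 335814668) (dlOf (nat_lit 1) (nat_lit 0x100080010002000400080b0003)))) 
(.nd (nat_lit 29) (.lf (nat_lit 5436088332) (dlOf (nat_lit 1) (nat_lit 0x34002000e00080c0002))) 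
(.lf (nat_lit 1677991948) (dlOf (nat_lit 1) (nat_lit 0xc00400060008130482))))) (.nd (nat_lit 8) 
(.lf (nat_lit 3557046412) (dlOf (nat_lit 3) (nat_lit 0xdc08a0034038000600d8029541801280e00149004000c0040094000812a882))) 
(.nd (nat_lit 9) (.lf (nat_lit 4093913484) (dlOf (nat_lit 1) (nat_lit 0x20028004e81))) 
(.lf (nat_lit 3557046156) (dlOf (nat_lit 2) (nat_lit 0x4038001f781812a300))))))) (.nd (nat_lit 29) 
(.nd (nat_lit 26) (.nd (nat_lit 19) (.nd (nat_lit 28) 
(.lf (nat_lit 134488076) (dlOf (nat_lit 1) (nat_lit 0x20028030481))) 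
(.lf (nat_lit 402923532) (dlOf (nat_lit 1) (nat_lit 0x100080010002000400080b0003)))) 
(.lf (nat_lit 5773205516) (dlOf (nat_lit 2) (nat_lit 0x2d0978000000801580080004002007800080b0003)))) 
(.nd (nat_lit 28) (.nd (nat_lit 8) 
(.lf (nat_lit 201596940) (dlOf (nat_lit 1) (nat_lit 0x20028030481))) 
(.lf (nat_lit 4496567052) (dlOf (nat_lit 3) (nat_lit 0x40340001781000d01a0000a40804080080130002000a00080e5b03)))) 
(.nd (nat_lit 19) (.lf (nat_lit 5838741516) (dlOf (nat_lit 1) (nat_lit 0x400400ee0018190502))) 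
(.lf (nat_lit 471605260) (dlOf (nat_lit 4) (nat_lit 0x1404e800c823801940fc0060f06002009d0002047001e01f800bf80c00a413a004c08e005c03f0016e01805500080aa800200740008350283)))))) 
(.nd (nat_lit 19) (.nd (nat_lit 26) 
(.lf (nat_lit 939794444) (dlOf (nat_lit 1) (nat_lit 0x2100080160002002a0008180483))) 
(.nd (nat_lit 30) (.lf (nat_lit 5301870604) (dlOf (nat_lit 1) (nat_lit 0x34002000e00080c0002))) 
(.lf (nat_lit 4228128780) (dlOf (nat_lit 3) (nat_lit 0xa03f0065881000801f8000000800d0008000400200320008030a03))))) 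
(.nd (nat_lit 20) (.nd (nat_lit 26) 
(.lf (nat_lit 2819366924) (dlOf (nat_lit 1) (nat_lit 0x8008001c00200040008250183))) 
(.lf (nat_lit 1007427596) (dlOf (nat_lit 1) (nat_lit 0x400400020008350282)))) 
(.lf (nat_lit 6377185292) (dlOf (nat_lit 2) (nat_lit 0x2d0900000000801580080004002007800080b0003))))))) 
(.nd (nat_lit 26) (.nd (nat_lit 31) (.nd (nat_lit 8) (.nd (nat_lit 19) 
(.lf (nat_lit 805609484) (dlOf (nat_lit 2) (nat_lit 0x481300185604002400400160008140a02))) 
(.nd (nat_lit 20) 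
(.lf (nat_lit 1343004684) (dlOf (nat_lit 2) (nat_lit 0xc08dc001ae04004c00400020008130482))) 
(.lf (nat_lit 10264588) (dlOf (nat_lit 1) (nat_lit 0x200185c0481))))) (.nd (nat_lit 7) 
(.lf (nat_lit 41197836) (dlOf (nat_lit 1) (nat_lit 0x400400020009223a02))) (.nd (nat_lit 27) 
(.lf (nat_lit 4563706252) (dlOf (nat_lit 1) (nat_lit 0x180080048002001800080c5d83))) 
(.lf (nat_lit 4697923980) (dlOf (nat_lit 1) (nat_lit 0x800080034002001000080c5d83)))))) 
(.nd (nat_lit 7) (.nd (nat_lit 22) (.nd (nat_lit 27) 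
(.lf (nat_lit 2684657676) (dlOf (nat_lit 1) (nat_lit 0x18004001a0008110082))) 
(.lf (nat_lit 3087310860) (dlOf (nat_lit 3) (nat_lit 0x200b0003e0100080058001d4080178008002c002006a0008170483)))) 
(.lf (nat_lit 3494158348) (dlOf (nat_lit 1) (nat_lit 0x900080030002004000081c0683)))) 
(.nd (nat_lit 8) (.lf (nat_lit 4026835084) (dlOf (nat_lit 1) (nat_lit 0x28002000e0008090102))) 
(.lf (nat_lit 3490490764) (dlOf (nat_lit 1) (nat_lit 0x8008002c00200100008004e83)))))) 
(.nd (nat_lit 27) (.nd (nat_lit 29) (.nd (nat_lit 7) 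
(.lf (nat_lit 2214895628) (dlOf (nat_lit 2) (nat_lit 0x120050001d818100100))) 
(.lf (nat_lit 3288637580) (dlOf (nat_lit 1) (nat_lit 0x28002000e0008090102)))) (.nd (nat_lit 19) 
(.nd (nat_lit 22) (.nd (nat_lit 31) 
(.lf (nat_lit 1678024716) (dlOf (nat_lit 2) (nat_lit 0x4813000d3804002400400160008140a02))) 
(.lf (nat_lit 3825508364) (dlOf (nat_lit 3) (nat_lit 0x200b0003e0100080058001d4080178008002c002006a0008170483)))) 
(.lf (nat_lit 2755960844) (dlOf (nat_lit 1) (nat_lit 0x900080030002004000081c0683)))) 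
(.lf (nat_lit 4095516684) (dlOf (nat_lit 1) (nat_lit 0xc00180d0001))))) (.nd (nat_lit 28) 
(.nd (nat_lit 7) (.nd (nat_lit 30) 
(.lf (nat_lit 6644080652) (dlOf (nat_lit 2) (nat_lit 0xc40460036021001a0088003a41800200080018002001800080e0483))) 
(.lf (nat_lit 3422855180) (dlOf (nat_lit 2) (nat_lit 0x34203200090158000ec1000b00080004002001e0008120103)))) 
(.lf (nat_lit 738503052) (dlOf (nat_lit 1) (nat_lit 0x20028094e81)))) (.nd (nat_lit 7) 
(.nd (nat_lit 19) (.nd (nat_lit 20) 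
(.lf (nat_lit 3691290636) (dlOf (nat_lit 2) (nat_lit 0x500a8006600800a8008001800200020008110183))) 
(.lf (nat_lit 471113740) (dlOf (nat_lit 1) (nat_lit 0x20018270181)))) 
(.lf (nat_lit 470589452) (dlOf (nat_lit 2) (nat_lit 0xc08dc001ae04004c00400020008130482)))) 
(.lf (nat_lit 1009035660) (dlOf (nat_lit 1) (nat_lit 0x400400020009004e82)))))))))) 
(.nd (nat_lit 8) (.nd (nat_lit 13) (.nd (nat_lit 7) (.nd (nat_lit 15) (.nd (nat_lit 26) 
(.nd (nat_lit 9) (.nd (nat_lit 11) (.nd (nat_lit 18) 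
(.lf (nat_lit 25165900) (dlOf (nat_lit 1) (nat_lit 0x20028be1501))) (.nd (nat_lit 21) 
(.lf (nat_lit 134479948) (dlOf (nat_lit 4) (nat_lit 0x3c03100250088000101000200c40000404002c0a800520310031008800000181540008008000200060008030f83))) 
(.lf (nat_lit 19136588) (dlOf (nat_lit 1) (nat_lit 0x400400020008970182))))) (.nd (nat_lit 10) 
(.lf (nat_lit 1073748044) (dlOf (nat_lit 1) (nat_lit 0x6000800c4002000e000800a683))) 
(.lf (nat_lit 3489664076) (dlOf (nat_lit 1) (nat_lit 0x1c0028006081))))) (.nd (nat_lit 10) 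
(.nd (nat_lit 11) (.lf (nat_lit 787020) (dlOf (nat_lit 1) (nat_lit 0x60018018d81))) 
(.lf (nat_lit 33032780) (dlOf (nat_lit 1) (nat_lit 0x400200020008f55282)))) 
(.lf (nat_lit 6039803468) (dlOf (nat_lit 1) (nat_lit 0x2a0018009c01))))) (.nd (nat_lit 12) 
(.nd (nat_lit 18) (.lf (nat_lit 2756182092) (dlOf (nat_lit 1) (nat_lit 0x400200020008211502))) 
(.nd (nat_lit 28) 
(.lf (nat_lit 201588812) (dlOf (nat_lit 4) (nat_lit 0x3c03100250088000101000200c40000404002c0aa00520310031008800000181540008008000200060008030f83))) 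
(.lf (nat_lit 2080637004) (dlOf (nat_lit 1) (nat_lit 0xc8008004c002002e00080a1683))))) 
(.nd (nat_lit 9) (.nd (nat_lit 27) 
(.lf (nat_lit 4362082380) (dlOf (nat_lit 1) (nat_lit 0x800800200020008000800a683))) 
(.lf (nat_lit 469768268) (dlOf (nat_lit 1) (nat_lit 0x2001800a681)))) 
(.lf (nat_lit 3422557772) (dlOf (nat_lit 1) (nat_lit 0x80018009c01)))))) (.nd (nat_lit 26) 
(.nd (nat_lit 21) (.nd (nat_lit 18) (.nd (nat_lit 19) 
(.lf (nat_lit 30441548) (dlOf (nat_lit 4) (nat_lit 0x270c6001b8620002c298001df4c00090c6000890a000b8630013c310000e14c0006fa600088080015863000dc31000218100020008000800200060008e30183))) 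
(.lf (nat_lit 3494412364) (dlOf (nat_lit 1) (nat_lit 0x400200020008220d02)))) (.nd (nat_lit 20) 
(.lf (nat_lit 17596492) (dlOf (nat_lit 4) (nat_lit 0xb7980013bb0000ddd78001ecf40009d060008c0a0003bcc0005dd80009eebc000767a0008b080015bb0000ddd78002241000200080008002000600088e0183))) 
(.lf (nat_lit 10256460) (dlOf (nat_lit 3) (nat_lit 0x2718c000f7ac00004040025c630013deb0000001000100080074002000e00085c0f83))))) 
(.nd (nat_lit 22) (.nd (nat_lit 20) 
(.lf (nat_lit 3492315212) (dlOf (nat_lit 7) (nat_lit 0x2e07f402143d000aa15f00030a7801284e0016426e000270c009c1fd009a0f4001c84dc0004c0c018c3fa01181e8006c0af8003853c01482700008137000120600650fe803f07a001682be0074138000118400950f40000880804407f402c43d0014215e005b0ae0000002000a8008007800201ae00080c1503))) 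
(.lf (nat_lit 3493363788) (dlOf (nat_lit 2) (nat_lit 0x2601a001580840060023003c00f00002c2001d8008005c002002e0008120f83)))) 
(.nd (nat_lit 9) (.lf (nat_lit 24412236) (dlOf (nat_lit 1) (nat_lit 0x20018b90f01))) 
(.lf (nat_lit 41454156) (dlOf (nat_lit 1) (nat_lit 0x400200020009245282)))))) (.nd (nat_lit 19) 
(.nd (nat_lit 11) (.nd (nat_lit 18) 
(.lf (nat_lit 4764762188) (dlOf (nat_lit 1) (nat_lit 0xc0008000001))) 
(.lf (nat_lit 5167677516) (dlOf (nat_lit 1) (nat_lit 0x240008100501)))) (.nd (nat_lit 10) 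
(.lf (nat_lit 201365580) (dlOf (nat_lit 1) (nat_lit 0x240040004000800a682))) 
(.lf (nat_lit 3288370252) (dlOf (nat_lit 1) (nat_lit 0x20008006081))))) (.nd (nat_lit 20) 
(.nd (nat_lit 21) (.lf (nat_lit 2756214860) (dlOf (nat_lit 1) (nat_lit 0x400200020008220d02))) 
(.lf (nat_lit 2754117708) (dlOf (nat_lit 3) (nat_lit 0x5c42200441f90002982000e108800507e400000080228004002200080c1882)))) 
(.lf (nat_lit 2755166284) (dlOf (nat_lit 2) (nat_lit 0x2601a001580840060023003c00f00002c2001d8008005c002002e0008120f83))))))) 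
(.nd (nat_lit 31) (.nd (nat_lit 15) (.nd (nat_lit 10) (.nd (nat_lit 19) (.nd (nat_lit 9) 
(.nd (nat_lit 18) (.lf (nat_lit 24117452) (dlOf (nat_lit 1) (nat_lit 0x400400060008b80482))) 
(.lf (nat_lit 4697882828) (dlOf (nat_lit 1) (nat_lit 0x3000080c1781)))) 
(.lf (nat_lit 1476399820) (dlOf (nat_lit 1) (nat_lit 0x400200020008008c82)))) (.nd (nat_lit 26) 
(.lf (nat_lit 1074266316) (dlOf (nat_lit 2) (nat_lit 0x2e80000039a04008c002002c00081b0482))) 
(.lf (nat_lit 1946681548) (dlOf (nat_lit 2) (nat_lit 0x2e80000039a04008c002002c00081b0482))))) 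
(.nd (nat_lit 11) (.nd (nat_lit 18) 
(.lf (nat_lit 67114188) (dlOf (nat_lit 1) (nat_lit 0x20028009501))) 
(.lf (nat_lit 20190412) (dlOf (nat_lit 1) (nat_lit 0xd4004005c00089d9502)))) 
(.lf (nat_lit 3276) (dlOf (nat_lit 1) (nat_lit 0x3000800b800200240008006403))))) (.nd (nat_lit 19) 
(.nd (nat_lit 10) (.lf (nat_lit 24150220) (dlOf (nat_lit 1) (nat_lit 0x20028b80481))) 
(.lf (nat_lit 134253772) (dlOf (nat_lit 2) (nat_lit 0x1a00000006404000c00400780018006402)))) 
(.nd (nat_lit 18) (.nd (nat_lit 26) 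
(.lf (nat_lit 1074299084) (dlOf (nat_lit 30) (nat_lit 0x548000003cc040438000001e402021c000000f181008101e804100000039a0802cc07a0168000000e582002601e8007240805700f400390040210000001c502003c000000dd8100170000006c408012000000346040274000001a002004c000000cf01010e000000664080870000003120404380000018802021c000000c381001901e8005fc0808a8000002fa0400840000017c020176000000bd81002801e8005e4080080000002ec04021807a019a000000ba02001c01e8005cc080338000002de040224000000a502021c0000004081001d01e80000008006800801d8002000400081b0483))) 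
(.lf (nat_lit 1946714316) (dlOf (nat_lit 30) (nat_lit 0x548000003cc040438000001e402021c000000f181008101f004100000039a0802cc07c0168000000e582002601f0007240805700f800390040210000001c502003c000000dd8100240000006cc0804e80000036004005c000001aa02021c000000ce810026000000670080870000003140404380000018802021c000000c38100210000006180808a80000030a0402ec0000018402005003e000c101001901f0005e8080080000002f004021807c019a000000ba02001c01f0005c4080338000002de040224000000a502021c0000004081001d01f00000008006800801d8002000400081b0483)))) 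
(.lf (nat_lit 14450892) (dlOf (nat_lit 1) (nat_lit 0x14004000c0008750482)))))) (.nd (nat_lit 26) 
(.nd (nat_lit 10) (.nd (nat_lit 15) (.nd (nat_lit 18) 
(.lf (nat_lit 3493855436) (dlOf (nat_lit 2) (nat_lit 0x36051000e68181b0480))) 
(.lf (nat_lit 3494117580) (dlOf (nat_lit 2) (nat_lit 0x68190000e28181b0480)))) 
(.lf (nat_lit 3493888204) (dlOf (nat_lit 3) (nat_lit 0x2c3c4001c702000a1fc000b0ae8007141000780080044002001a00081b0483)))) 
(.nd (nat_lit 27) (.lf (nat_lit 2684359884) (dlOf (nat_lit 1) (nat_lit 0x20028009501))) 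
(.lf (nat_lit 2281706700) (dlOf (nat_lit 1) (nat_lit 0x20028009501))))) (.nd (nat_lit 10) 
(.nd (nat_lit 15) (.nd (nat_lit 18) 
(.lf (nat_lit 2755657932) (dlOf (nat_lit 2) (nat_lit 0x36051000e68181b0480))) 
(.lf (nat_lit 2755920076) (dlOf (nat_lit 1) (nat_lit 0x18004000200181b0482)))) 
(.lf (nat_lit 2755690700) (dlOf (nat_lit 2) (nat_lit 0x440e80013062800481d40014024001c508000200181b0481)))) 
(.nd (nat_lit 11) (.lf (nat_lit 2214597836) (dlOf (nat_lit 1) (nat_lit 0x400400020008009502))) 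
(.lf (nat_lit 2885684428) (dlOf (nat_lit 1) (nat_lit 0x8000200ae0008006402)))))))) 
(.nd (nat_lit 18) (.nd (nat_lit 19) (.nd (nat_lit 7) (.nd (nat_lit 9) (.nd (nat_lit 10) 
(.nd (nat_lit 12) (.lf (nat_lit 25174092) (dlOf (nat_lit 1) (nat_lit 0x420008be1501))) 
(.lf (nat_lit 1476407372) (dlOf (nat_lit 1) (nat_lit 0x8008000800200020008007d83)))) 
(.lf (nat_lit 2550148172) (dlOf (nat_lit 1) (nat_lit 0x80028006081)))) (.nd (nat_lit 11) 
(.lf (nat_lit 2281710156) (dlOf (nat_lit 1) (nat_lit 0x800800fc00200140008001603))) 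
(.lf (nat_lit 51391052) (dlOf (nat_lit 3) (nat_lit 0x319d20001702003ae2e0001675001133a4000280c001400400240009515282))))) 
(.nd (nat_lit 15) (.nd (nat_lit 9) (.nd (nat_lit 26) 
(.lf (nat_lit 3493863628) (dlOf (nat_lit 3) (nat_lit 0x28814c00b6087000e882000c0a68032034c02381700074075000e28481b0480))) 
(.lf (nat_lit 2755666124) (dlOf (nat_lit 3) (nat_lit 0x28814600b6084000e882000c0a6804703a0019018a0074075000e28481b0480)))) 
(.lf (nat_lit 19935948) (dlOf (nat_lit 1) (nat_lit 0x80080004002000200089d8c83)))) 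
(.nd (nat_lit 26) 
(.lf (nat_lit 3493896396) (dlOf (nat_lit 2) (nat_lit 0x260d3002205c000481d40014024001c508000200181b0481))) 
(.lf (nat_lit 2755698892) (dlOf (nat_lit 2) (nat_lit 0xb00b1000e68181b0480)))))) (.nd (nat_lit 29) 
(.nd (nat_lit 20) (.nd (nat_lit 9) 
(.lf (nat_lit 48767052) (dlOf (nat_lit 1) (nat_lit 0x20009420681))) 
(.lf (nat_lit 61351500) (dlOf (nat_lit 1) (nat_lit 0xaa0019923801)))) (.nd (nat_lit 7) 
(.lf (nat_lit 3493371980) (dlOf (nat_lit 1) (nat_lit 0x100004001a0008120f82))) 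
(.lf (nat_lit 1581260) (dlOf (nat_lit 1) (nat_lit 0x8200180f5a81))))) (.nd (nat_lit 21) 
(.nd (nat_lit 26) 
(.lf (nat_lit 3892879436) (dlOf (nat_lit 5) (nat_lit 0xc058000bf02001c020000900f80038064001180c000c040000401f001300c00022c18004007c001c032000890400220018280181))) 
(.lf (nat_lit 738762828) (dlOf (nat_lit 1) (nat_lit 0x1000200020008101582)))) (.nd (nat_lit 20) 
(.lf (nat_lit 2754125900) (dlOf (nat_lit 1) (nat_lit 0x11600080c1881))) 
(.lf (nat_lit 2755174476) (dlOf (nat_lit 1) (nat_lit 0x100004001a0008120f82))))))) 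
(.nd (nat_lit 15) (.nd (nat_lit 28) (.nd (nat_lit 27) (.nd (nat_lit 7) (.nd (nat_lit 19) 
(.lf (nat_lit 537141324) (dlOf (nat_lit 1) (nat_lit 0x80080024002003c0008030f83))) 
(.lf (nat_lit 59514956) (dlOf (nat_lit 2) (nat_lit 0x10c67b008b2c90041139402309a6000360800680019800681)))) 
(.lf (nat_lit 2755928268) (dlOf (nat_lit 2) (nat_lit 0x328146001c084000e88281b0480)))) 
(.nd (nat_lit 7) (.nd (nat_lit 26) 
(.lf (nat_lit 134488140) (dlOf (nat_lit 3) (nat_lit 0x1406200004020024031000e0088000001000780080068002001c0008030f83))) 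
(.lf (nat_lit 201597004) (dlOf (nat_lit 3) (nat_lit 0x1406200004020024031000e0088000001000780080068002001c0008030f83)))) 
(.lf (nat_lit 3892584652) (dlOf (nat_lit 2) (nat_lit 0x1201800000018160480))))) (.nd (nat_lit 7) 
(.nd (nat_lit 26) (.lf (nat_lit 1342447692) (dlOf (nat_lit 1) (nat_lit 0xc002000a0008030f82))) 
(.nd (nat_lit 27) 
(.lf (nat_lit 1409556556) (dlOf (nat_lit 1) (nat_lit 0x80080024002003c0008030f83))) 
(.lf (nat_lit 470032460) (dlOf (nat_lit 1) (nat_lit 0xc002000a0008030f82))))) (.nd (nat_lit 22) 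
(.nd (nat_lit 27) (.lf (nat_lit 4563673292) (dlOf (nat_lit 1) (nat_lit 0xc0002006600080c1b82))) 
(.lf (nat_lit 4697891020) (dlOf (nat_lit 1) (nat_lit 0x200180c1781)))) 
(.lf (nat_lit 3494125772) (dlOf (nat_lit 1) (nat_lit 0x600181b0481)))))) (.nd (nat_lit 19) 
(.nd (nat_lit 7) (.nd (nat_lit 9) (.nd (nat_lit 20) 
(.lf (nat_lit 4295270476) (dlOf (nat_lit 1) (nat_lit 0x4004000200080f1502))) 
(.lf (nat_lit 24420428) (dlOf (nat_lit 1) (nat_lit 0x20018b90f01)))) 
(.lf (nat_lit 3959726668) (dlOf (nat_lit 2) (nat_lit 0x17600e00006018128d80)))) (.nd (nat_lit 27) 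
(.lf (nat_lit 5637447884) (dlOf (nat_lit 1) (nat_lit 0x8004000200080f1782))) 
(.lf (nat_lit 4697923788) (dlOf (nat_lit 2) (nat_lit 0x70160000600800400080024002001200080c1783))))) 
(.nd (nat_lit 22) (.nd (nat_lit 23) 
(.lf (nat_lit 471638092) (dlOf (nat_lit 3) (nat_lit 0x42c80007902000216500037818370180))) 
(.lf (nat_lit 10264652) (dlOf (nat_lit 4) (nat_lit 0x3e318000ef580000808001b7ac00002020025c630012deb000000100010008015c002000400085c0f83)))) 
(.nd (nat_lit 11) (.lf (nat_lit 21798988) (dlOf (nat_lit 1) (nat_lit 0x28000200020008a70902))) 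
(.lf (nat_lit 8173644) (dlOf (nat_lit 1) (nat_lit 0x2002851a681))))))))) (.nd (nat_lit 9) 
(.nd (nat_lit 28) (.nd (nat_lit 13) (.nd (nat_lit 18) (.nd (nat_lit 15) (.nd (nat_lit 20) 
(.nd (nat_lit 10) 
(.lf (nat_lit 1074266444) (dlOf (nat_lit 3) (nat_lit 0x1300000013008007000000080040020002000600081b0602))) 
(.lf (nat_lit 4294974796) (dlOf (nat_lit 1) (nat_lit 0x2002800c901)))) (.nd (nat_lit 21) 
(.lf (nat_lit 2752512332) (dlOf (nat_lit 1) (nat_lit 0x10008000800200040008014c83))) 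
(.lf (nat_lit 24117580) (dlOf (nat_lit 2) (nat_lit 0xea1100019018b80600))))) (.nd (nat_lit 19) 
(.lf (nat_lit 24150348) (dlOf (nat_lit 1) (nat_lit 0x40028b80601))) (.nd (nat_lit 20) 
(.lf (nat_lit 1074299212) (dlOf (nat_lit 15) (nat_lit 0x6e80f4000aa04036007a0005402019603d0002981000a01e8001480808b8000000980403800000004b0201de000000250100da0000001240806d00000009004020c07a010e000000210200db01e807e0000000800803dc0000003f0201c40000001f0100da0000000f4080008008024c002002200081b0603))) 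
(.lf (nat_lit 14188876) (dlOf (nat_lit 1) (nat_lit 0x100018750801)))))) (.nd (nat_lit 19) 
(.nd (nat_lit 7) (.nd (nat_lit 12) 
(.lf (nat_lit 3408204) (dlOf (nat_lit 2) (nat_lit 0xde4b200019018200600))) 
(.lf (nat_lit 2818838860) (dlOf (nat_lit 2) (nat_lit 0x10070000b8080008008001400200140008128303)))) 
(.nd (nat_lit 11) 
(.lf (nat_lit 6509822412) (dlOf (nat_lit 1) (nat_lit 0x28008000400200080008157103))) 
(.lf (nat_lit 42240460) (dlOf (nat_lit 1) (nat_lit 0x80029244e81))))) (.nd (nat_lit 20) 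
(.nd (nat_lit 7) (.lf (nat_lit 25952588) (dlOf (nat_lit 1) (nat_lit 0xc0008008c00200380008c10803))) 
(.lf (nat_lit 69994956) (dlOf (nat_lit 1) (nat_lit 0x400400020008e64e82)))) (.nd (nat_lit 12) 
(.lf (nat_lit 12321100) (dlOf (nat_lit 2) (nat_lit 0x3c682000198186c0600))) 
(.lf (nat_lit 8130892) (dlOf (nat_lit 1) (nat_lit 0x400400040018518302))))))) (.nd (nat_lit 15) 
(.nd (nat_lit 26) (.nd (nat_lit 7) (.nd (nat_lit 10) 
(.lf (nat_lit 24125772) (dlOf (nat_lit 2) (nat_lit 0x3aac500019018b80600))) (.nd (nat_lit 11) 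
(.lf (nat_lit 57681228) (dlOf (nat_lit 1) (nat_lit 0x8008000400200020009793303))) 
(.lf (nat_lit 134233420) (dlOf (nat_lit 1) (nat_lit 0x4000800040020004000800c903))))) 
(.nd (nat_lit 11) 
(.lf (nat_lit 1074012620) (dlOf (nat_lit 2) (nat_lit 0xb1009c0000004001c00400240018090982))) 
(.lf (nat_lit 671099340) (dlOf (nat_lit 1) (nat_lit 0x60008000800200200008004e83))))) 
(.nd (nat_lit 29) (.nd (nat_lit 7) 
(.lf (nat_lit 4362086732) (dlOf (nat_lit 1) (nat_lit 0x48002000e0008004d82))) 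
(.lf (nat_lit 6509830604) (dlOf (nat_lit 1) (nat_lit 0x400200020008157102)))) (.nd (nat_lit 12) 
(.lf (nat_lit 2755666252) (dlOf (nat_lit 2) (nat_lit 0x441d0003e0c5000160281b0600))) 
(.lf (nat_lit 603992396) (dlOf (nat_lit 1) (nat_lit 0x1e0028008301)))))) (.nd (nat_lit 18) 
(.nd (nat_lit 10) (.nd (nat_lit 22) 
(.lf (nat_lit 671129932) (dlOf (nat_lit 2) (nat_lit 0x1b01600013c0800a80080004002000800080b0603))) 
(.lf (nat_lit 2755699020) (dlOf (nat_lit 3) (nat_lit 0x94164000550200e40b2000288181b0600)))) 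
(.lf (nat_lit 57713996) (dlOf (nat_lit 1) (nat_lit 0x400200020009793302)))) (.nd (nat_lit 7) 
(.lf (nat_lit 23896396) (dlOf (nat_lit 1) (nat_lit 0x20018b80601))) (.nd (nat_lit 31) 
(.lf (nat_lit 1074045388) (dlOf (nat_lit 2) (nat_lit 0x69c04e01a801a00e5008000000180020008005000200300008090983))) 
(.lf (nat_lit 3221529036) (dlOf (nat_lit 1) (nat_lit 0x100080080002001a0008127103)))))))) 
(.nd (nat_lit 26) (.nd (nat_lit 11) (.nd (nat_lit 22) (.nd (nat_lit 10) (.nd (nat_lit 15) 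
(.lf (nat_lit 3490709836) (dlOf (nat_lit 1) (nat_lit 0x10008000800200040008014c83))) 
(.lf (nat_lit 6711181644) (dlOf (nat_lit 1) (nat_lit 0x4002000200080a6682)))) 
(.lf (nat_lit 5773722956) (dlOf (nat_lit 1) (nat_lit 0x11a00080e3301)))) (.nd (nat_lit 13) 
(.nd (nat_lit 15) (.lf (nat_lit 1346371916) (dlOf (nat_lit 1) (nat_lit 0x20018f60d01))) 
(.lf (nat_lit 3493888332) (dlOf (nat_lit 4) (nat_lit 0x81fc00130f3800c0574004429c002a136000198500020fe0000b40803687f001682ca005415d00420ae0000ac2000100080030002001400081b0603)))) 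
(.lf (nat_lit 3493863756) (dlOf (nat_lit 2) (nat_lit 0x7c1a600220b8000168281b0600))))) 
(.nd (nat_lit 7) (.nd (nat_lit 12) 
(.lf (nat_lit 3489672524) (dlOf (nat_lit 1) (nat_lit 0x20008006a01))) (.nd (nat_lit 13) 
(.lf (nat_lit 2550144332) (dlOf (nat_lit 1) (nat_lit 0x2002800c901))) (.nd (nat_lit 18) 
(.lf (nat_lit 1342192972) (dlOf (nat_lit 1) (nat_lit 0x40040002000800c902))) 
(.lf (nat_lit 3489938764) (dlOf (nat_lit 1) (nat_lit 0x2001800c901)))))) (.nd (nat_lit 12) 
(.nd (nat_lit 18) 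
(.lf (nat_lit 1344833996) (dlOf (nat_lit 1) (nat_lit 0x8008000400200020008984e83))) 
(.lf (nat_lit 3490482636) (dlOf (nat_lit 1) (nat_lit 0x400200020008004e82)))) 
(.lf (nat_lit 1342192076) (dlOf (nat_lit 2) (nat_lit 0xc04e8003d40800400080094002000e000800b083)))))) 
(.nd (nat_lit 10) (.nd (nat_lit 7) (.nd (nat_lit 19) (.nd (nat_lit 13) 
(.lf (nat_lit 1409581388) (dlOf (nat_lit 1) (nat_lit 0x50008007c00200020008048003))) 
(.lf (nat_lit 1543545164) (dlOf (nat_lit 2) (nat_lit 0x1b0160001580800a80080004002000800080b0603)))) 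
(.nd (nat_lit 15) 
(.lf (nat_lit 1946681676) (dlOf (nat_lit 3) (nat_lit 0x1300000014c0800700000008e040020002000600081b0602))) 
(.lf (nat_lit 1946714444) (dlOf (nat_lit 15) (nat_lit 0x6e80f8000b804036007c0005b02019603e0002d01000a01f0001640808b8000000a6040380000000520201de000000288100da0000001400806d00000009e04020c07c010e000000248200db01f007e00000008e0803dc000000460201c4000000228100da000000110080008008024c002002200081b0603))))) 
(.nd (nat_lit 11) (.nd (nat_lit 15) 
(.lf (nat_lit 1946427852) (dlOf (nat_lit 2) (nat_lit 0xb1009c0000004001c00400240018090982))) 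
(.lf (nat_lit 1946460620) (dlOf (nat_lit 2) (nat_lit 0x69c04e01a801a00e5008000000180020008005000200300008090983)))) 
(.lf (nat_lit 473172428) (dlOf (nat_lit 1) (nat_lit 0x60028d74e81))))) (.nd (nat_lit 11) 
(.nd (nat_lit 7) (.lf (nat_lit 4093912396) (dlOf (nat_lit 1) (nat_lit 0x400400ca0008003302))) 
(.nd (nat_lit 13) (.lf (nat_lit 469800396) (dlOf (nat_lit 1) (nat_lit 0x5400400060008009a82))) 
(.lf (nat_lit 469775820) (dlOf (nat_lit 1) (nat_lit 0x400400020018009a82))))) (.nd (nat_lit 30) 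
(.nd (nat_lit 12) (.lf (nat_lit 2483031372) (dlOf (nat_lit 1) (nat_lit 0x40018006a01))) 
(.lf (nat_lit 2483035468) (dlOf (nat_lit 1) (nat_lit 0x14000800c901)))) (.nd (nat_lit 13) 
(.lf (nat_lit 4227865932) (dlOf (nat_lit 1) (nat_lit 0x1000800800020020000800c903))) 
(.lf (nat_lit 1409301836) (dlOf (nat_lit 1) (nat_lit 0x2002800c901))))))))) (.nd (nat_lit 11) 
(.nd (nat_lit 7) (.nd (nat_lit 26) (.nd (nat_lit 12) (.nd (nat_lit 28) (.nd (nat_lit 29) 
(.lf (nat_lit 1073743692) (dlOf (nat_lit 1) (nat_lit 0x400400020008003e82))) 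
(.lf (nat_lit 536872780) (dlOf (nat_lit 1) (nat_lit 0x400400020008003e82)))) (.nd (nat_lit 29) 
(.lf (nat_lit 2415920972) (dlOf (nat_lit 1) (nat_lit 0x400400020008003e82))) 
(.lf (nat_lit 4026533708) (dlOf (nat_lit 1) (nat_lit 0x20028003e81))))) (.nd (nat_lit 13) 
(.nd (nat_lit 15) (.lf (nat_lit 8918860) (dlOf (nat_lit 1) (nat_lit 0x4002851a201))) 
(.lf (nat_lit 1342216012) (dlOf (nat_lit 1) (nat_lit 0x2000800a201)))) 
(.lf (nat_lit 20461388) (dlOf (nat_lit 1) (nat_lit 0x200289da201))))) (.nd (nat_lit 12) 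
(.nd (nat_lit 28) (.nd (nat_lit 31) 
(.lf (nat_lit 201328460) (dlOf (nat_lit 1) (nat_lit 0x400400020008003e82))) 
(.lf (nat_lit 2348812108) (dlOf (nat_lit 1) (nat_lit 0x400400020008003e82)))) (.nd (nat_lit 29) 
(.lf (nat_lit 469763916) (dlOf (nat_lit 1) (nat_lit 0x400400020008003e82))) 
(.lf (nat_lit 1006634828) (dlOf (nat_lit 1) (nat_lit 0x400400020008003e82))))) (.nd (nat_lit 13) 
(.nd (nat_lit 15) (.lf (nat_lit 3557037900) (dlOf (nat_lit 1) (nat_lit 0x10002812a201))) 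
(.lf (nat_lit 67147596) (dlOf (nat_lit 1) (nat_lit 0xc001800a201)))) 
(.lf (nat_lit 67123020) (dlOf (nat_lit 1) (nat_lit 0x40040002000800a202)))))) (.nd (nat_lit 10) 
(.nd (nat_lit 13) (.nd (nat_lit 15) (.nd (nat_lit 26) 
(.lf (nat_lit 4026532812) (dlOf (nat_lit 1) (nat_lit 0x7c00200120008002882))) 
(.lf (nat_lit 5435818956) (dlOf (nat_lit 1) (nat_lit 0xa0028002881)))) (.nd (nat_lit 12) 
(.lf (nat_lit 2751759308) (dlOf (nat_lit 2) (nat_lit 0x102200259604001000400080008002882))) 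
(.lf (nat_lit 3691025356) (dlOf (nat_lit 1) (nat_lit 0x3000200880008009202))))) (.nd (nat_lit 18) 
(.lf (nat_lit 5435827148) (dlOf (nat_lit 1) (nat_lit 0x60018002881))) (.nd (nat_lit 19) 
(.lf (nat_lit 2751734732) (dlOf (nat_lit 1) (nat_lit 0x400200020008002882))) 
(.lf (nat_lit 50078668) (dlOf (nat_lit 3) (nat_lit 0x90a8c0167a02008254600b3c0194c2880)))))) 
(.nd (nat_lit 13) (.nd (nat_lit 15) (.nd (nat_lit 26) 
(.lf (nat_lit 536872908) (dlOf (nat_lit 2) (nat_lit 0x817c0001c04000c002001a0008004482))) 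
(.lf (nat_lit 2348812236) (dlOf (nat_lit 1) (nat_lit 0x60028004481)))) 
(.lf (nat_lit 2751760332) (dlOf (nat_lit 6) (nat_lit 0x14086000088100110430000400800482180001e0400341120000e0200160890004044000034100078008004800200140008004483)))) 
(.nd (nat_lit 12) 
(.lf (nat_lit 2751735756) (dlOf (nat_lit 3) (nat_lit 0x5822400101100000e04000e0890006044000034100020008001800200040008004483))) 
(.nd (nat_lit 15) 
(.lf (nat_lit 1543518156) (dlOf (nat_lit 2) (nat_lit 0x980a0009100400080020004000800a602))) 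
(.lf (nat_lit 805353420) (dlOf (nat_lit 1) (nat_lit 0x2001800a601)))))))) (.nd (nat_lit 12) 
(.nd (nat_lit 7) (.nd (nat_lit 13) (.nd (nat_lit 15) (.nd (nat_lit 20) 
(.lf (nat_lit 4899212108) (dlOf (nat_lit 1) (nat_lit 0x200180d5c01))) 
(.lf (nat_lit 20187980) (dlOf (nat_lit 1) (nat_lit 0x4002000200089d5c02)))) 
(.lf (nat_lit 20220748) (dlOf (nat_lit 1) (nat_lit 0x4002000200089d5c02)))) (.nd (nat_lit 15) 
(.nd (nat_lit 20) (.lf (nat_lit 4899220300) (dlOf (nat_lit 2) (nat_lit 0x6000000470180d5c00))) 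
(.lf (nat_lit 20196172) (dlOf (nat_lit 1) (nat_lit 0x4002000200089d5c02)))) 
(.lf (nat_lit 20228940) (dlOf (nat_lit 1) (nat_lit 0x4002000200089d5c02))))) (.nd (nat_lit 13) 
(.nd (nat_lit 26) (.lf (nat_lit 402688972) (dlOf (nat_lit 1) (nat_lit 0x1000400220008005d82))) 
(.lf (nat_lit 1275104204) (dlOf (nat_lit 2) (nat_lit 0x80028001800000044080008004002e0018005d82)))) 
(.nd (nat_lit 15) (.lf (nat_lit 1275079628) (dlOf (nat_lit 1) (nat_lit 0xc00200140008005d82))) 
(.nd (nat_lit 32) 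
(.lf (nat_lit 402697164) (dlOf (nat_lit 2) (nat_lit 0x4012000d0088000641000100080070002000e0008005d83))) 
(.lf (nat_lit 4697664460) (dlOf (nat_lit 2) (nat_lit 0xc04200060000000b8100038008000400200040008005d83))))))) 
(.nd (nat_lit 13) (.nd (nat_lit 15) (.nd (nat_lit 7) (.nd (nat_lit 18) 
(.lf (nat_lit 671095628) (dlOf (nat_lit 2) (nat_lit 0x806c000000400200040010000800bc82))) 
(.lf (nat_lit 2754878284) (dlOf (nat_lit 2) (nat_lit 0x44700055202001200080fbc81)))) 
(.lf (nat_lit 4227865548) (dlOf (nat_lit 1) (nat_lit 0x48008000c0020004000800be83)))) 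
(.nd (nat_lit 18) (.nd (nat_lit 27) 
(.lf (nat_lit 1677761356) (dlOf (nat_lit 1) (nat_lit 0x2000800bc81))) 
(.lf (nat_lit 3959462732) (dlOf (nat_lit 2) (nat_lit 0x28028000000400040020004000800bc82)))) 
(.lf (nat_lit 3490487116) (dlOf (nat_lit 1) (nat_lit 0x40020002000800bc82))))) (.nd (nat_lit 15) 
(.nd (nat_lit 18) (.lf (nat_lit 671103820) (dlOf (nat_lit 1) (nat_lit 0xc002000a000800bc82))) 
(.lf (nat_lit 2754886476) (dlOf (nat_lit 1) (nat_lit 0x8004000600180fbc82)))) (.nd (nat_lit 26) 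
(.lf (nat_lit 5905627980) (dlOf (nat_lit 1) (nat_lit 0xec0020058000800bc82))) (.nd (nat_lit 27) 
(.lf (nat_lit 1677769548) (dlOf (nat_lit 5) (nat_lit 0x280dc001401400afb04000404f000201c0010d410001813c000c070003d2040002037000301200038028000c00c0000008007c002800bc81))) 
(.lf (nat_lit 3959470924) (dlOf (nat_lit 5) (nat_lit 0x1c09e000a0440056e020003029800200dc0086a0800080a60004037001e902000300300000008004000800280020022000800bc83)))))))))))) 
(.nd (nat_lit 15) (.nd (nat_lit 13) (.nd (nat_lit 6) (.nd (nat_lit 18) (.nd (nat_lit 7) 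
(.nd (nat_lit 19) (.nd (nat_lit 8) (.nd (nat_lit 10) (.nd (nat_lit 20) (.nd (nat_lit 11) 
(.nd (nat_lit 22) (.lf (nat_lit 3825270796) (dlOf (nat_lit 1) (nat_lit 0xc002000200080b0002))) 
(.lf (nat_lit 12648460) (dlOf (nat_lit 1) (nat_lit 0x200186d0681)))) 
(.lf (nat_lit 8456204) (dlOf (nat_lit 1) (nat_lit 0x1a0008514701)))) (.nd (nat_lit 23) 
(.nd (nat_lit 26) 
(.lf (nat_lit 1343291404) (dlOf (nat_lit 2) (nat_lit 0xa4054001af02000800281e0481))) 
(.lf (nat_lit 470876172) (dlOf (nat_lit 5) (nat_lit 0x106a0017a804001c35000bcc02001a1a8005e48102af01200048c0801f00080150002000e00081c0483)))) 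
(.lf (nat_lit 9502732) (dlOf (nat_lit 2) (nat_lit 0x34000001780200140018560481))))) 
(.nd (nat_lit 9) (.nd (nat_lit 26) 
(.lf (nat_lit 671155212) (dlOf (nat_lit 1) (nat_lit 0x40008142881))) 
(.lf (nat_lit 4496360460) (dlOf (nat_lit 1) (nat_lit 0x8008000400200020008052883)))) 
(.lf (nat_lit 5100340748) (dlOf (nat_lit 1) (nat_lit 0x2e0018053681))))) (.nd (nat_lit 11) 
(.nd (nat_lit 9) 
(.lf (nat_lit 4563468556) (dlOf (nat_lit 2) (nat_lit 0x1801780059408003800800a800200080008090a83))) 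
(.nd (nat_lit 26) (.lf (nat_lit 2684424972) (dlOf (nat_lit 1) (nat_lit 0x2800400040018008f82))) 
(.lf (nat_lit 67179276) (dlOf (nat_lit 1) (nat_lit 0x20028008f81))))) (.nd (nat_lit 20) 
(.lf (nat_lit 5234559756) (dlOf (nat_lit 1) (nat_lit 0x400400020008055b02))) 
(.lf (nat_lit 19991308) (dlOf (nat_lit 1) (nat_lit 0x200080008002000600089d5b03)))))) 
(.nd (nat_lit 20) (.nd (nat_lit 21) (.nd (nat_lit 26) 
(.lf (nat_lit 3892903948) (dlOf (nat_lit 3) (nat_lit 0xe012006e680800500900369c04002400400160018290782))) 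
(.lf (nat_lit 3557359628) (dlOf (nat_lit 15) (nat_lit 0x6c000001f3020096061000db0100a4030805101800035e08027c0c20142060000d6820092030800634080398184003180402580c20018902012806100890300005b8100518184025c0c0001680400680610001f01009d030804a0180000220802780c2012606000007020098030804c0180000180802280c801ec06100d003000300114022c070015c022003200d800000380018008001c002003200081c0483)))) 
(.nd (nat_lit 9) (.lf (nat_lit 19464204) (dlOf (nat_lit 1) (nat_lit 0x4002000200089a0682))) 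
(.lf (nat_lit 61408780) (dlOf (nat_lit 1) (nat_lit 0x20019923681))))) (.nd (nat_lit 24) 
(.nd (nat_lit 12) (.nd (nat_lit 22) 
(.lf (nat_lit 2755198988) (dlOf (nat_lit 2) (nat_lit 0x10100029c4080010008000800200040008130483))) 
(.lf (nat_lit 16318476) (dlOf (nat_lit 1) (nat_lit 0x400200060008890182)))) 
(.lf (nat_lit 7933964) (dlOf (nat_lit 1) (nat_lit 0x20008001000200060008517a83)))) (.nd (nat_lit 8) 
(.lf (nat_lit 24707084) (dlOf (nat_lit 1) (nat_lit 0x20018bb0081))) 
(.lf (nat_lit 58261772) (dlOf (nat_lit 4) (nat_lit 0x7338c003800400359c600195020006ced000967600013c1000180080008002000400097d7403))))))) 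
(.nd (nat_lit 29) (.nd (nat_lit 32) (.nd (nat_lit 11) (.nd (nat_lit 8) 
(.lf (nat_lit 3211404) (dlOf (nat_lit 3) (nat_lit 0xd5da000218100143bc80010408001000800a000200020008200103))) 
(.lf (nat_lit 201394060) (dlOf (nat_lit 2) (nat_lit 0x1c076000100200020018004181)))) 
(.nd (nat_lit 19) (.lf (nat_lit 49351052) (dlOf (nat_lit 1) (nat_lit 0xa0029464e81))) 
(.lf (nat_lit 51972492) (dlOf (nat_lit 1) (nat_lit 0x460029514e81))))) (.nd (nat_lit 26) 
(.nd (nat_lit 27) (.nd (nat_lit 28) 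
(.lf (nat_lit 6442516620) (dlOf (nat_lit 1) (nat_lit 0x400200060008090102))) 
(.lf (nat_lit 4563468428) (dlOf (nat_lit 1) (nat_lit 0x20028090401)))) 
(.lf (nat_lit 6576734348) (dlOf (nat_lit 2) (nat_lit 0x2001c0008604000c004000400180b0102)))) 
(.nd (nat_lit 27) 
(.lf (nat_lit 6509625484) (dlOf (nat_lit 3) (nat_lit 0x220190001280800b80e0005c064002e001000208380b0100))) 
(.lf (nat_lit 5838536844) (dlOf (nat_lit 1) (nat_lit 0x400200060008090102)))))) (.nd (nat_lit 26) 
(.nd (nat_lit 27) (.nd (nat_lit 28) 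
(.lf (nat_lit 5905645708) (dlOf (nat_lit 3) (nat_lit 0x220190001280800b80dc005c064002e001000208380b0100))) 
(.lf (nat_lit 805372044) (dlOf (nat_lit 2) (nat_lit 0x10404c007201a8000c4100018008001400200020008090103)))) 
(.nd (nat_lit 9) (.lf (nat_lit 5234557068) (dlOf (nat_lit 1) (nat_lit 0x20028050401))) 
(.lf (nat_lit 5234559628) (dlOf (nat_lit 1) (nat_lit 0x1a00080184002019e0008055483))))) 
(.nd (nat_lit 8) (.nd (nat_lit 32) 
(.lf (nat_lit 1677787276) (dlOf (nat_lit 2) (nat_lit 0x10404c007201a8000c4100018008001400200020008090103))) 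
(.lf (nat_lit 5972754572) (dlOf (nat_lit 2) (nat_lit 0x2001c0008604000c004000400180b0102)))) 
(.lf (nat_lit 872481164) (dlOf (nat_lit 1) (nat_lit 0x8004000c0008091002))))))) (.nd (nat_lit 28) 
(.nd (nat_lit 21) (.nd (nat_lit 26) (.nd (nat_lit 23) (.nd (nat_lit 27) 
(.lf (nat_lit 4832165900) (dlOf (nat_lit 1) (nat_lit 0x1180080a1c00202bc00080f0003))) 
(.nd (nat_lit 29) (.lf (nat_lit 3355770892) (dlOf (nat_lit 1) (nat_lit 0x1000400080008110082))) 
(.lf (nat_lit 671416332) (dlOf (nat_lit 3) (nat_lit 0x600a000104080030000000540400b0004009e0018190102))))) 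
(.nd (nat_lit 8) (.nd (nat_lit 20) 
(.lf (nat_lit 9240588) (dlOf (nat_lit 1) (nat_lit 0x8008000400200020008530003))) 
(.lf (nat_lit 27066380) (dlOf (nat_lit 1) (nat_lit 0x1c00400600008ca0482)))) 
(.lf (nat_lit 46465292) (dlOf (nat_lit 1) (nat_lit 0x20019380a81))))) (.nd (nat_lit 20) 
(.nd (nat_lit 8) (.nd (nat_lit 32) 
(.lf (nat_lit 67436556) (dlOf (nat_lit 1) (nat_lit 0x400200020008140482))) 
(.lf (nat_lit 4362403852) (dlOf (nat_lit 1) (nat_lit 0x80008060481)))) 
(.lf (nat_lit 1678049548) (dlOf (nat_lit 1) (nat_lit 0x17a0028157d01)))) (.nd (nat_lit 29) 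
(.lf (nat_lit 68485132) (dlOf (nat_lit 1) (nat_lit 0x4004000e0018580782))) 
(.lf (nat_lit 2752839692) (dlOf (nat_lit 1) (nat_lit 0x40028050101)))))) (.nd (nat_lit 8) 
(.nd (nat_lit 7) (.nd (nat_lit 19) 
(.lf (nat_lit 2424844) (dlOf (nat_lit 2) (nat_lit 0x2afa0023b018160680))) 
(.lf (nat_lit 28114956) (dlOf (nat_lit 2) (nat_lit 0x352d8001e4080008008001000200020008d50183)))) 
(.nd (nat_lit 19) (.lf (nat_lit 3473548) (dlOf (nat_lit 1) (nat_lit 0x400200020008200102))) 
(.lf (nat_lit 23920780) (dlOf (nat_lit 2) (nat_lit 0x174cf000104080008008001400200020008b80103))))) 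
(.nd (nat_lit 11) (.nd (nat_lit 7) 
(.lf (nat_lit 41222412) (dlOf (nat_lit 1) (nat_lit 0x800400020009223a02))) 
(.lf (nat_lit 8192396) (dlOf (nat_lit 1) (nat_lit 0x400200020008511002)))) (.nd (nat_lit 19) 
(.lf (nat_lit 31787404) (dlOf (nat_lit 1) (nat_lit 0xa0028e94e81))) 
(.lf (nat_lit 37554572) (dlOf (nat_lit 1) (nat_lit 0x4002000200090d4e82))))))) (.nd (nat_lit 26) 
(.nd (nat_lit 31) (.nd (nat_lit 7) (.nd (nat_lit 20) (.nd (nat_lit 29) 
(.lf (nat_lit 1342504972) (dlOf (nat_lit 2) (nat_lit 0x10aa000560080010008000c00200080008040483))) 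
(.lf (nat_lit 5100601356) (dlOf (nat_lit 1) (nat_lit 0x3380080cc8002018000080f0003)))) 
(.lf (nat_lit 1343553548) (dlOf (nat_lit 1) (nat_lit 0x20018290181)))) 
(.lf (nat_lit 1346701708) (dlOf (nat_lit 1) (nat_lit 0x20028fe4e81)))) (.nd (nat_lit 7) 
(.nd (nat_lit 20) 
(.lf (nat_lit 2953117708) (dlOf (nat_lit 4) (nat_lit 0x1002e0008016000700ac0028054001a029000a01380030078002c02e00080130006008800300300004012000c008000b0028006800800300000063e20001002e0005016000100ac00040540016029000801380018078002402e000801100020010005000000c642c003005c001602c000c0150004009c0008042001a01e00070048000800800c5e20001c004002c0018140282))) 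
(.lf (nat_lit 3491037196) (dlOf (nat_lit 1) (nat_lit 0x40028050101)))) 
(.lf (nat_lit 3624209804) (dlOf (nat_lit 1) (nat_lit 0x20008146c81))))) (.nd (nat_lit 30) 
(.nd (nat_lit 7) (.nd (nat_lit 21) (.nd (nat_lit 31) 
(.lf (nat_lit 470089740) (dlOf (nat_lit 1) (nat_lit 0xc00200020008040482))) 
(.lf (nat_lit 2617573388) (dlOf (nat_lit 3) (nat_lit 0xa0178001040800800b800076040028004000a0008100102)))) 
(.lf (nat_lit 1009057804) (dlOf (nat_lit 1) (nat_lit 0xc0029030001)))) 
(.lf (nat_lit 335872140) (dlOf (nat_lit 1) (nat_lit 0x1e00180c0f81)))) (.nd (nat_lit 29) 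
(.nd (nat_lit 31) 
(.lf (nat_lit 1543831564) (dlOf (nat_lit 3) (nat_lit 0x600a000104080030000000540400b0004009e0018190102))) 
(.lf (nat_lit 3691315212) (dlOf (nat_lit 4) (nat_lit 0x1002e0008016000700ac0028054001a029000a01100030064001002800160120006008800300300004012000c008000b00280068008003000000bd320001002e0005016000100ac00040540016029000801100018064002402400080110002001000500000178a2c003005c001602c000c015000400880008042001a0190007004800080080178820001c004002c0018140282)))) 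
(.lf (nat_lit 4228186124) (dlOf (nat_lit 1) (nat_lit 0x80008060481)))))))) (.nd (nat_lit 8) 
(.nd (nat_lit 19) (.nd (nat_lit 7) (.nd (nat_lit 29) (.nd (nat_lit 18) 
(.lf (nat_lit 335609932) (dlOf (nat_lit 1) (nat_lit 0x40018090001))) (.nd (nat_lit 27) 
(.lf (nat_lit 4563730508) (dlOf (nat_lit 1) (nat_lit 0x200280d0501))) 
(.lf (nat_lit 4697948236) (dlOf (nat_lit 1) (nat_lit 0x200280d0501))))) (.nd (nat_lit 18) 
(.lf (nat_lit 6174081100) (dlOf (nat_lit 1) (nat_lit 0x400400020008050002))) (.nd (nat_lit 28) 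
(.lf (nat_lit 4832165964) (dlOf (nat_lit 1) (nat_lit 0x200280f0601))) 
(.lf (nat_lit 5100601420) (dlOf (nat_lit 1) (nat_lit 0x1c00280f0601)))))) (.nd (nat_lit 26) 
(.nd (nat_lit 28) (.nd (nat_lit 20) 
(.lf (nat_lit 3221291212) (dlOf (nat_lit 2) (nat_lit 0x6c01b803380000038a080038002001a0008090482))) 
(.lf (nat_lit 3211468) (dlOf (nat_lit 2) (nat_lit 0x214aa0009a3140010fa600427c400053bf00051cbc0084a520042521002128c80091c480038008001c002000a0008200483)))) 
(.nd (nat_lit 18) 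
(.lf (nat_lit 805372108) (dlOf (nat_lit 2) (nat_lit 0x58070002000000123828090480))) 
(.lf (nat_lit 6711214284) (dlOf (nat_lit 1) (nat_lit 0x10002000200080c1782))))) (.nd (nat_lit 22) 
(.nd (nat_lit 27) 
(.lf (nat_lit 1677787340) (dlOf (nat_lit 2) (nat_lit 0x58070002000000123828090480))) 
(.lf (nat_lit 3959488716) (dlOf (nat_lit 2) (nat_lit 0x6c01b803380000038a080038002001a0008090482)))) 
(.lf (nat_lit 2755723468) (dlOf (nat_lit 2) (nat_lit 0xd807e001d102000200181b0481)))))) 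
(.nd (nat_lit 18) (.nd (nat_lit 21) (.nd (nat_lit 24) (.nd (nat_lit 26) 
(.lf (nat_lit 3494445132) (dlOf (nat_lit 5) (nat_lit 0x3011804500780005808029403c0002b02000e06800060210001808c022403c0002a080002023008a00f0000a010007800800b800200800008220d03))) 
(.lf (nat_lit 2756247628) (dlOf (nat_lit 5) (nat_lit 0x3011804500780005a08029403c0002c02000e06800060210001808c022403c0002b080002023008a00f0000a410007800800b800200800008220d03)))) 
(.lf (nat_lit 21561420) (dlOf (nat_lit 1) (nat_lit 0x40018a40501)))) (.nd (nat_lit 7) 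
(.nd (nat_lit 9) 
(.lf (nat_lit 7936076) (dlOf (nat_lit 2) (nat_lit 0x12ac0008b408005800800140020014000851a683))) 
(.lf (nat_lit 7930444) (dlOf (nat_lit 1) (nat_lit 0x20018511601)))) 
(.lf (nat_lit 61408460) (dlOf (nat_lit 1) (nat_lit 0x80080004002006c0009922d83))))) 
(.nd (nat_lit 20) (.nd (nat_lit 21) 
(.lf (nat_lit 21823564) (dlOf (nat_lit 1) (nat_lit 0x220018a70901))) 
(.lf (nat_lit 36503628) (dlOf (nat_lit 1) (nat_lit 0x10e0019070001)))) (.nd (nat_lit 9) 
(.nd (nat_lit 21) (.lf (nat_lit 69009484) (dlOf (nat_lit 1) (nat_lit 0xc00200020008860682))) 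
(.lf (nat_lit 3997772) (dlOf (nat_lit 2) (nat_lit 0x38ab0001648800012028261500)))) 
(.lf (nat_lit 58526284) (dlOf (nat_lit 1) (nat_lit 0x200197e5281))))))) (.nd (nat_lit 27) 
(.nd (nat_lit 7) (.nd (nat_lit 18) (.nd (nat_lit 20) (.nd (nat_lit 9) 
(.lf (nat_lit 3221291340) (dlOf (nat_lit 2) (nat_lit 0x203700016818090600))) 
(.lf (nat_lit 6710954828) (dlOf (nat_lit 1) (nat_lit 0x400400020008005c02)))) (.nd (nat_lit 19) 
(.lf (nat_lit 3211596) (dlOf (nat_lit 2) (nat_lit 0xa9a080006404009c00400300018200602))) 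
(.lf (nat_lit 1343816012) (dlOf (nat_lit 1) (nat_lit 0x20008001000200080008370783))))) 
(.nd (nat_lit 9) (.nd (nat_lit 20) 
(.lf (nat_lit 3221553484) (dlOf (nat_lit 1) (nat_lit 0xc00400020008138002))) 
(.lf (nat_lit 3473740) (dlOf (nat_lit 2) (nat_lit 0x140000000c8080018008000400200020008200603)))) 
(.lf (nat_lit 20253516) (dlOf (nat_lit 1) (nat_lit 0x4002000200089d5c02))))) (.nd (nat_lit 11) 
(.nd (nat_lit 20) (.nd (nat_lit 28) 
(.lf (nat_lit 4295033292) (dlOf (nat_lit 1) (nat_lit 0x400400020008017102))) 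
(.lf (nat_lit 1879114188) (dlOf (nat_lit 1) (nat_lit 0x400400020008017102)))) 
(.lf (nat_lit 11600332) (dlOf (nat_lit 2) (nat_lit 0x4793000000186c0980)))) (.nd (nat_lit 18) 
(.nd (nat_lit 20) 
(.lf (nat_lit 48302540) (dlOf (nat_lit 2) (nat_lit 0x72090028b8080020008003800200280009404e83))) 
(.lf (nat_lit 36768204) (dlOf (nat_lit 1) (nat_lit 0x40029074e81)))) 
(.lf (nat_lit 1880426956) (dlOf (nat_lit 1) (nat_lit 0x8008005000200020008984e83)))))) 
(.nd (nat_lit 29) (.nd (nat_lit 26) (.nd (nat_lit 9) 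
(.lf (nat_lit 4697686476) (dlOf (nat_lit 2) (nat_lit 0x80540000004000c004000c0008091102))) 
(.nd (nat_lit 11) (.lf (nat_lit 4697686988) (dlOf (nat_lit 1) (nat_lit 0x400400040008092882))) 
(.lf (nat_lit 5771693004) (dlOf (nat_lit 1) (nat_lit 0x20028005d81))))) (.nd (nat_lit 10) 
(.nd (nat_lit 11) (.lf (nat_lit 201393100) (dlOf (nat_lit 1) (nat_lit 0x2400200060008002882))) 
(.lf (nat_lit 4496624588) (dlOf (nat_lit 1) (nat_lit 0x2200280e5d81)))) (.nd (nat_lit 12) 
(.lf (nat_lit 201394124) (dlOf (nat_lit 4) (nat_lit 0x180940001002004804a0000701002102500000c080140008013400200780008004483))) 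
(.lf (nat_lit 201398220) (dlOf (nat_lit 1) (nat_lit 0xc0040004001800a602)))))) (.nd (nat_lit 7) 
(.nd (nat_lit 9) (.lf (nat_lit 3959488844) (dlOf (nat_lit 2) (nat_lit 0x203700016018090600))) 
(.nd (nat_lit 10) 
(.lf (nat_lit 2885753676) (dlOf (nat_lit 4) (nat_lit 0x20000021a810001000000f24080008000000000400200020016000800bc82))) 
(.lf (nat_lit 671156044) (dlOf (nat_lit 1) (nat_lit 0x20028143e81))))) (.nd (nat_lit 11) 
(.lf (nat_lit 2080440780) (dlOf (nat_lit 1) (nat_lit 0x1c00400120008091102))) 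
(.lf (nat_lit 2885749196) (dlOf (nat_lit 2) (nat_lit 0x8000020e8040018002000e0008004e82))))))))) 
(.nd (nat_lit 6) (.nd (nat_lit 18) (.nd (nat_lit 28) (.nd (nat_lit 7) (.nd (nat_lit 20) 
(.nd (nat_lit 21) (.nd (nat_lit 9) 
(.lf (nat_lit 3892912140) (dlOf (nat_lit 3) (nat_lit 0x50100033b4080070060019d804011c00400340008290782))) 
(.lf (nat_lit 4496369164) (dlOf (nat_lit 1) (nat_lit 0x180080030002000a0008053683)))) 
(.nd (nat_lit 24) (.lf (nat_lit 11083788) (dlOf (nat_lit 1) (nat_lit 0x20028660101))) 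
(.lf (nat_lit 27861004) (dlOf (nat_lit 4) (nat_lit 0x1757200062b8c00214140008c06001eae4000c5718001a828001160c005d5c80018ae30007505000224180008008000c00200020008d30183))))) 
(.nd (nat_lit 19) (.nd (nat_lit 8) 
(.lf (nat_lit 2752585740) (dlOf (nat_lit 1) (nat_lit 0x5a0008020481))) 
(.lf (nat_lit 19999500) (dlOf (nat_lit 1) (nat_lit 0x4002000200089d5b02)))) (.nd (nat_lit 21) 
(.lf (nat_lit 22618124) (dlOf (nat_lit 1) (nat_lit 0x400400580008b00182))) 
(.lf (nat_lit 7938060) (dlOf (nat_lit 1) (nat_lit 0x180028510001)))))) (.nd (nat_lit 26) 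
(.nd (nat_lit 20) 
(.lf (nat_lit 5905653900) (dlOf (nat_lit 4) (nat_lit 0x407e000203b000101c000080dc000406800020330001019000080b400040520002028000250a000701d800200e0000406800080290002184004401f802180ec01000700078037003a01a001e00c800f005a005202b003c015002080a4003004c0078015003c00a0001046800480080040002003a00080b0103))) 
(.lf (nat_lit 24191116) (dlOf (nat_lit 1) (nat_lit 0x40028b80101)))) (.nd (nat_lit 27) 
(.nd (nat_lit 29) 
(.lf (nat_lit 6509633676) (dlOf (nat_lit 4) (nat_lit 0x407e000203b000101c000080d4000406800020330001019000080a800040520002023000250a000701d800200d4000406800080290002184004401f802180ec00f00700080035003a01a001e00c800a4058007802b003c015002080a4003004e0078015003c00a0001046800480080040002003a00080b0103))) 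
(.lf (nat_lit 1677795468) (dlOf (nat_lit 18) (nat_lit 0x40a8000604d0001982012d029812c813000100900134047024d01a80dc80d008f004a0468024008100a00768040091c00c0364000000188c001302980918130045c06a010a0340106012807f8090044400c0110000000180800a602600040120026c06a00b2034007c012803b0090018402800cc006000178800ff026007a00d4017c068019c02500c7012006480180005c18048c0a80002c0201ac05400015010012012000070080028090000320400b0048000170201d004c000501a805a0090000220c004804800010020012024000068100a402a00000c080908150000040402f00a800001020252054005c018000000100868008010800205c40008090103)))) 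
(.lf (nat_lit 1812013196) (dlOf (nat_lit 5) (nat_lit 0xde026006c0110031007401ac0380004a0800f80260075011003c808401c403a00f001c002000880010c3004a00980248044011e021009800f004300740238038008c011000208700020110000f40800600080144002000200080b0103)))))) 
(.nd (nat_lit 7) (.nd (nat_lit 8) (.nd (nat_lit 9) 
(.lf (nat_lit 3490783244) (dlOf (nat_lit 1) (nat_lit 0x5a0008020481))) (.nd (nat_lit 10) 
(.lf (nat_lit 1342255628) (dlOf (nat_lit 1) (nat_lit 0x140028008681))) 
(.lf (nat_lit 6308308492) (dlOf (nat_lit 6) (nat_lit 0x1900c80011808012806000074040094030000380200040180001b81002500c0000d4080048008001000200100008053683))))) 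
(.nd (nat_lit 9) 
(.lf (nat_lit 4563476748) (dlOf (nat_lit 2) (nat_lit 0x2380bc002ca040030002000c0008090a82))) 
(.nd (nat_lit 27) 
(.lf (nat_lit 6174092044) (dlOf (nat_lit 2) (nat_lit 0x120058000bc080058008001000200100008055b03))) 
(.lf (nat_lit 5234567948) (dlOf (nat_lit 2) (nat_lit 0x880b80000004017000400080008055b02)))))) 
(.nd (nat_lit 27) (.nd (nat_lit 9) (.nd (nat_lit 21) 
(.lf (nat_lit 805380236) (dlOf (nat_lit 18) (nat_lit 0x40a8000604d0001982012d029812c813000100900134047024d01a80dc80d008f004a0468024008100a00768040091c00c0364000000188c001302980918130045c06a010a0340106012807f8090044400c0110000000180800a602600040120026c06a00b2034007c012803b0090018402800cc006000178800ff026007a00d4017c068019c02500c7012006480180005c18048c0a80002c0201ac05400015010012012000074080028090000340400b0048000170201d004c000501a805a0090000220c004804800010020012024000068100a402a000010080908150000040402f00a800001020252054005c018000000100868008010800205c40008090103)))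 
(.lf (nat_lit 3491831948) (dlOf (nat_lit 1) (nat_lit 0x400400020008090102)))) 
(.lf (nat_lit 4563479180) (dlOf (nat_lit 3) (nat_lit 0x340000000a4080040000000340400a0002003e0008095482)))) 
(.nd (nat_lit 8) 
(.lf (nat_lit 939597964) (dlOf (nat_lit 5) (nat_lit 0xde026006c0110031007401ac0380004a0800f80260075011003c808401c403a00f001c002000880010c3004a00980248044011e021009800f004300740238038008c011000208700020110000f40800600080144002000200080b0103))) 
(.lf (nat_lit 4697694604) (dlOf (nat_lit 2) (nat_lit 0x2009000534080028008004000200360008091003))))))) 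
(.nd (nat_lit 28) (.nd (nat_lit 21) (.nd (nat_lit 23) (.nd (nat_lit 26) (.nd (nat_lit 27) 
(.lf (nat_lit 537206796) (dlOf (nat_lit 4) (nat_lit 0x1e0000001540801080000006e04001c0b80000002000c0018050101))) 
(.nd (nat_lit 29) 
(.lf (nat_lit 134553612) (dlOf (nat_lit 3) (nat_lit 0xd000000e9c08017010c006a204000800400380018070502))) 
(.lf (nat_lit 2818908172) (dlOf (nat_lit 1) (nat_lit 0x30002001e0008130002))))) (.nd (nat_lit 20) 
(.lf (nat_lit 201662476) (dlOf (nat_lit 3) (nat_lit 0xd000000c9c08017010c005a204000800400380018070502))) 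
(.lf (nat_lit 2752847884) (dlOf (nat_lit 1) (nat_lit 0x1400400020018050102))))) (.nd (nat_lit 8) 
(.nd (nat_lit 20) (.lf (nat_lit 59580428) (dlOf (nat_lit 1) (nat_lit 0x5c004007a0009810182))) 
(.lf (nat_lit 27074572) (dlOf (nat_lit 1) (nat_lit 0xc0008ca0481)))) 
(.lf (nat_lit 46473484) (dlOf (nat_lit 1) (nat_lit 0x10008001800200060009380a83))))) 
(.nd (nat_lit 8) (.nd (nat_lit 20) (.nd (nat_lit 19) (.nd (nat_lit 22) 
(.lf (nat_lit 2433036) (dlOf (nat_lit 1) (nat_lit 0x20018160681))) 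
(.lf (nat_lit 6627340) (dlOf (nat_lit 1) (nat_lit 0x20008440581)))) 
(.lf (nat_lit 2957324) (dlOf (nat_lit 1) (nat_lit 0x1c004000e00081e0502)))) (.nd (nat_lit 24) 
(.lf (nat_lit 7675916) (dlOf (nat_lit 1) (nat_lit 0x200084d0581))) 
(.lf (nat_lit 24453132) (dlOf (nat_lit 1) (nat_lit 0x80008ba0301))))) (.nd (nat_lit 7) 
(.nd (nat_lit 10) (.lf (nat_lit 41230604) (dlOf (nat_lit 1) (nat_lit 0x8008000400200020009223a03))) 
(.lf (nat_lit 8207628) (dlOf (nat_lit 1) (nat_lit 0x40040002000851c602)))) 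
(.lf (nat_lit 37562764) (dlOf (nat_lit 1) (nat_lit 0x200090d4e81)))))) (.nd (nat_lit 26) 
(.nd (nat_lit 27) (.nd (nat_lit 20) (.nd (nat_lit 30) 
(.lf (nat_lit 4563738636) (dlOf (nat_lit 1) (nat_lit 0x80080004002000200080d0003))) 
(.lf (nat_lit 5637480460) (dlOf (nat_lit 1) (nat_lit 0x200280f0001)))) 
(.lf (nat_lit 3491045388) (dlOf (nat_lit 1) (nat_lit 0x1400400020018050102)))) (.nd (nat_lit 30) 
(.nd (nat_lit 32) (.lf (nat_lit 402989068) (dlOf (nat_lit 1) (nat_lit 0x200280c0001))) 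
(.lf (nat_lit 4697956364) (dlOf (nat_lit 1) (nat_lit 0x80080004002000200080d0003)))) 
(.nd (nat_lit 19) 
(.lf (nat_lit 4161085452) (dlOf (nat_lit 1) (nat_lit 0x10008001000200020008120103))) 
(.lf (nat_lit 5773271052) (dlOf (nat_lit 1) (nat_lit 0xc004000200180c0002)))))) (.nd (nat_lit 27) 
(.nd (nat_lit 29) (.nd (nat_lit 30) 
(.lf (nat_lit 335880204) (dlOf (nat_lit 1) (nat_lit 0x200280c0001))) 
(.lf (nat_lit 1409622028) (dlOf (nat_lit 4) (nat_lit 0x1e0000001540801080000006e04001c0b80000002000c0018050101)))) 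
(.lf (nat_lit 6241460236) (dlOf (nat_lit 1) (nat_lit 0x200280f0001)))) (.nd (nat_lit 7) 
(.nd (nat_lit 19) 
(.lf (nat_lit 2617581580) (dlOf (nat_lit 3) (nat_lit 0x70012000208100a90088000ec080268008001800200820008100103))) 
(.lf (nat_lit 6377250828) (dlOf (nat_lit 1) (nat_lit 0xc004000200180c0002)))) 
(.lf (nat_lit 6377250956) (dlOf (nat_lit 1) (nat_lit 0x14004001800180c0f82)))))))) (.nd (nat_lit 7) 
(.nd (nat_lit 19) (.nd (nat_lit 29) (.nd (nat_lit 18) (.nd (nat_lit 20) (.nd (nat_lit 24) 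
(.lf (nat_lit 3221299532) (dlOf (nat_lit 11) (nat_lit 0x3c0450007019800380c0004405c000e00f000600580030000000661c04700a6027603701140100000b4180350080000580402180a801fc05300fa01b807f008000c002a015c0000001586001f0100000a80803d808000052040030000000240200180000001181000f0000000880800600000004204010000200020008090602))) 
(.lf (nat_lit 16851276) (dlOf (nat_lit 1) (nat_lit 0xa00288e0781)))) 
(.lf (nat_lit 3219788) (dlOf (nat_lit 2) (nat_lit 0xb49f0003c3f900019028200600)))) (.nd (nat_lit 8) 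
(.lf (nat_lit 2550472780) (dlOf (nat_lit 1) (nat_lit 0xc00080c1501))) 
(.lf (nat_lit 20261708) (dlOf (nat_lit 1) (nat_lit 0x4002000200089d5c02))))) (.nd (nat_lit 27) 
(.nd (nat_lit 26) 
(.lf (nat_lit 805380428) (dlOf (nat_lit 2) (nat_lit 0xe80240006604004c00200140008090602))) 
(.nd (nat_lit 31) 
(.lf (nat_lit 1677795660) (dlOf (nat_lit 2) (nat_lit 0xe80240006404004c00200140008090602))) 
(.lf (nat_lit 3825279308) (dlOf (nat_lit 2) (nat_lit 0x13c0000002b0180b0600))))) (.nd (nat_lit 9) 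
(.nd (nat_lit 26) (.lf (nat_lit 3087081804) (dlOf (nat_lit 2) (nat_lit 0x13c000000278180b0600))) 
(.lf (nat_lit 3959497036) (dlOf (nat_lit 11) (nat_lit 0x3c0450007019800380c0004405c000e00f000600580030000000641c04700a6027603701140100000b0180350080000560402180a801fc05300fa01b807f008000c002a015c0000001506001f0100000a40803d808000050040030000000240200180000001181000f0000000880800600000004204010000200020008090602)))) 
(.lf (nat_lit 2886018892) (dlOf (nat_lit 1) (nat_lit 0x10008001000200020008143e83)))))) 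
(.nd (nat_lit 20) (.nd (nat_lit 21) (.nd (nat_lit 22) 
(.lf (nat_lit 201924684) (dlOf (nat_lit 1) (nat_lit 0x2800180c1881))) 
(.lf (nat_lit 474554444) (dlOf (nat_lit 1) (nat_lit 0x280080004002000200091a0683)))) 
(.nd (nat_lit 8) (.nd (nat_lit 18) 
(.lf (nat_lit 3492356172) (dlOf (nat_lit 2) (nat_lit 0x3c1e8000130180c1500))) 
(.lf (nat_lit 53289036) (dlOf (nat_lit 2) (nat_lit 0x5129c000a004003c00400080009581682)))) 
(.lf (nat_lit 40445260) (dlOf (nat_lit 1) (nat_lit 0x1000291f3301))))) (.nd (nat_lit 18) 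
(.nd (nat_lit 8) (.lf (nat_lit 28909644) (dlOf (nat_lit 1) (nat_lit 0x400400020008da0182))) 
(.lf (nat_lit 14229836) (dlOf (nat_lit 1) (nat_lit 0xa0018750801)))) (.nd (nat_lit 28) 
(.lf (nat_lit 4005964) (dlOf (nat_lit 2) (nat_lit 0xb4a22000240200020008261501))) 
(.lf (nat_lit 1346183244) (dlOf (nat_lit 2) (nat_lit 0xa05800007004002400400060008e60682))))))) 
(.nd (nat_lit 30) (.nd (nat_lit 20) (.nd (nat_lit 27) (.nd (nat_lit 26) 
(.lf (nat_lit 805380300) (dlOf (nat_lit 4) (nat_lit 0xd0027806800e0038804c0198000001248400c8027806780e0032004c015c000001238400270000007c008017800800e0002004e0008090483))) 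
(.lf (nat_lit 6509633740) (dlOf (nat_lit 2) (nat_lit 0x1007e01040290011e0280b0480)))) 
(.nd (nat_lit 31) 
(.lf (nat_lit 939598028) (dlOf (nat_lit 2) (nat_lit 0x1e024000a00f8008f01001680080050002006000080b0483))) 
(.lf (nat_lit 3087081676) (dlOf (nat_lit 2) (nat_lit 0x246000000e88180b0480))))) (.nd (nat_lit 9) 
(.nd (nat_lit 8) (.nd (nat_lit 18) 
(.lf (nat_lit 3219660) (dlOf (nat_lit 2) (nat_lit 0x25ca5200ae52100123828200480))) 
(.lf (nat_lit 3481804) (dlOf (nat_lit 2) (nat_lit 0x247d00123818200480)))) 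
(.lf (nat_lit 11608524) (dlOf (nat_lit 2) (nat_lit 0x246715000000186c0980)))) (.nd (nat_lit 19) 
(.lf (nat_lit 20001484) (dlOf (nat_lit 1) (nat_lit 0x4002000200089d8c82))) 
(.lf (nat_lit 7942860) (dlOf (nat_lit 1) (nat_lit 0x20018518c81)))))) (.nd (nat_lit 27) 
(.nd (nat_lit 26) (.nd (nat_lit 29) 
(.lf (nat_lit 3221299404) (dlOf (nat_lit 5) (nat_lit 0x70029803780dc01f404000de000000e3840085029804180dc001005c001402a008a010000f005401ec000001c50e0004000000e081004a0298006f40800d8008014800200480008090483))) 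
(.lf (nat_lit 5905653964) (dlOf (nat_lit 2) (nat_lit 0x1007e01040290011e0280b0480)))) 
(.nd (nat_lit 31) 
(.lf (nat_lit 1677795532) (dlOf (nat_lit 4) (nat_lit 0xd0027806800e0038804c0198000001248400c8027806780e0032004c015c000001238400270000007c008017800800e0002004e0008090483))) 
(.lf (nat_lit 3825279180) (dlOf (nat_lit 2) (nat_lit 0x246000000e88180b0480))))) (.nd (nat_lit 8) 
(.nd (nat_lit 18) (.nd (nat_lit 31) 
(.lf (nat_lit 1812013260) (dlOf (nat_lit 2) (nat_lit 0x1e024000a00f8008f01001680080050002006000080b0483))) 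
(.lf (nat_lit 3959496908) (dlOf (nat_lit 5) (nat_lit 0x70029803780dc01f404000de000000e3840085029804180dc001005c001402a008a010000f005401ec000001c50e0004000000e081004a0298006f40800d8008014800200480008090483)))) 
(.lf (nat_lit 2080710860) (dlOf (nat_lit 1) (nat_lit 0x1400080c1781)))) (.nd (nat_lit 9) 
(.lf (nat_lit 2080448972) (dlOf (nat_lit 1) (nat_lit 0x400400020008091102))) 
(.lf (nat_lit 5771701196) (dlOf (nat_lit 1) (nat_lit 0x20028005d81)))))))))) (.nd (nat_lit 13) 
(.nd (nat_lit 6) (.nd (nat_lit 18) (.nd (nat_lit 27) (.nd (nat_lit 7) (.nd (nat_lit 20) 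
(.nd (nat_lit 19) (.nd (nat_lit 24) (.nd (nat_lit 8) (.nd (nat_lit 26) 
(.lf (nat_lit 5368807436) (dlOf (nat_lit 1) (nat_lit 0xb00080a4400203120008020003))) 
(.lf (nat_lit 1140949004) (dlOf (nat_lit 1) (nat_lit 0x800400020008020002)))) 
(.lf (nat_lit 4563503884) (dlOf (nat_lit 1) (nat_lit 0x34002000e0008095b02)))) (.nd (nat_lit 21) 
(.lf (nat_lit 16875532) (dlOf (nat_lit 1) (nat_lit 0xa00188e0001))) 
(.lf (nat_lit 23166988) (dlOf (nat_lit 2) (nat_lit 0x1c000002790200020018b60501))))) 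
(.nd (nat_lit 21) (.nd (nat_lit 26) 
(.lf (nat_lit 805928972) (dlOf (nat_lit 1) (nat_lit 0x200281f0a01))) 
(.lf (nat_lit 1678344204) (dlOf (nat_lit 1) (nat_lit 0x200281f0a01)))) 
(.lf (nat_lit 11108364) (dlOf (nat_lit 1) (nat_lit 0x4002000c0008660102))))) (.nd (nat_lit 24) 
(.nd (nat_lit 19) (.nd (nat_lit 26) 
(.lf (nat_lit 3490807820) (dlOf (nat_lit 2) (nat_lit 0x4158000d5018020480))) 
(.lf (nat_lit 2752610316) (dlOf (nat_lit 2) (nat_lit 0x415d00090018020480)))) 
(.lf (nat_lit 16351244) (dlOf (nat_lit 4) (nat_lit 0xa56900072b4000295640014a7a00023de00041ee8002243000415a00010ab200063dd000440300052b4800395a00014ab2000c53d00021ef00020f740010c180030002001c0008890182)))) 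
(.nd (nat_lit 8) (.nd (nat_lit 19) 
(.lf (nat_lit 17924108) (dlOf (nat_lit 1) (nat_lit 0x20018900581))) 
(.lf (nat_lit 26837004) (dlOf (nat_lit 1) (nat_lit 0x700080038002003e0008c80483)))) 
(.lf (nat_lit 20024076) (dlOf (nat_lit 2) (nat_lit 0x12f4e000979d0004acf00024aec00224220002f0a003400289d5b01)))))) 
(.nd (nat_lit 21) (.nd (nat_lit 26) (.nd (nat_lit 28) 
(.lf (nat_lit 5905678476) (dlOf (nat_lit 2) (nat_lit 0x2a001000250180b0100))) 
(.lf (nat_lit 805404812) (dlOf (nat_lit 2) (nat_lit 0x2481300006204012000400040008090102)))) 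
(.nd (nat_lit 29) (.lf (nat_lit 6509658252) (dlOf (nat_lit 2) (nat_lit 0x2a001000250180b0100))) 
(.lf (nat_lit 1677820044) (dlOf (nat_lit 2) (nat_lit 0x2481300006204012000400040008090102))))) 
(.nd (nat_lit 20) (.nd (nat_lit 26) 
(.lf (nat_lit 3491856524) (dlOf (nat_lit 1) (nat_lit 0x400200020008090102))) 
(.lf (nat_lit 2753659020) (dlOf (nat_lit 1) (nat_lit 0x40028090101)))) 
(.lf (nat_lit 3244172) (dlOf (nat_lit 1) (nat_lit 0x60008200101)))))) (.nd (nat_lit 8) 
(.nd (nat_lit 26) (.nd (nat_lit 30) (.nd (nat_lit 19) 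
(.lf (nat_lit 4966154252) (dlOf (nat_lit 1) (nat_lit 0x880080a1800203040008020003))) 
(.lf (nat_lit 2819194892) (dlOf (nat_lit 1) (nat_lit 0x19400281e0281)))) (.nd (nat_lit 28) 
(.lf (nat_lit 5503025164) (dlOf (nat_lit 1) (nat_lit 0xb00080a4400203120008020003))) 
(.lf (nat_lit 2013364236) (dlOf (nat_lit 1) (nat_lit 0x800400020008020002))))) (.nd (nat_lit 7) 
(.nd (nat_lit 10) 
(.lf (nat_lit 5033263116) (dlOf (nat_lit 1) (nat_lit 0x880080a1800203040008020003))) 
(.lf (nat_lit 1275167756) (dlOf (nat_lit 1) (nat_lit 0x8008000400200020008092883)))) 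
(.lf (nat_lit 2617344652) (dlOf (nat_lit 1) (nat_lit 0x200280a1a81))))) (.nd (nat_lit 7) 
(.nd (nat_lit 10) 
(.lf (nat_lit 3422650636) (dlOf (nat_lit 7) (nat_lit 0x501c8029440800380e4014a004001407200a4f02000a029005228100080198028c00800080cc0145404009800200060008014802))) 
(.lf (nat_lit 134319372) (dlOf (nat_lit 1) (nat_lit 0x38008003c002000a0008006683)))) 
(.nd (nat_lit 28) (.nd (nat_lit 10) 
(.lf (nat_lit 3892414860) (dlOf (nat_lit 1) (nat_lit 0x200008104e81))) 
(.lf (nat_lit 134319500) (dlOf (nat_lit 1) (nat_lit 0x70008023c00200360008006c83)))) 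
(.nd (nat_lit 11) 
(.lf (nat_lit 4697719180) (dlOf (nat_lit 1) (nat_lit 0xd0008001000200340008091003))) 
(.lf (nat_lit 473532812) (dlOf (nat_lit 1) (nat_lit 0x400400040008f54e82)))))))) (.nd (nat_lit 19) 
(.nd (nat_lit 27) (.nd (nat_lit 7) (.nd (nat_lit 20) (.nd (nat_lit 21) (.nd (nat_lit 26) 
(.lf (nat_lit 3221585932) (dlOf (nat_lit 1) (nat_lit 0x4000802d4002021a0008150503))) 
(.lf (nat_lit 604340236) (dlOf (nat_lit 5) (nat_lit 0x40060003c02c001c015000b00880070040002001e001200e00080030007800c003c004000c001000f00000189c600030060000c022000c00f0005003000180080018000006170c000c018000a00b00020044001001e001800e000700380185030006005800b7004000400400340018180282)))) 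
(.lf (nat_lit 2457612) (dlOf (nat_lit 1) (nat_lit 0x60004000c0008160682)))) 
(.lf (nat_lit 22380556) (dlOf (nat_lit 1) (nat_lit 0x400200020008ad0102)))) (.nd (nat_lit 8) 
(.nd (nat_lit 26) 
(.lf (nat_lit 1074102412) (dlOf (nat_lit 3) (nat_lit 0x200000008c0400180000003d02001e0008090101))) 
(.lf (nat_lit 1946517644) (dlOf (nat_lit 3) (nat_lit 0x200000008c0400180000003d02001e0008090101)))) 
(.lf (nat_lit 362892) (dlOf (nat_lit 1) (nat_lit 0x300018004e81))))) (.nd (nat_lit 26) 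
(.nd (nat_lit 28) (.nd (nat_lit 30) 
(.lf (nat_lit 134578188) (dlOf (nat_lit 1) (nat_lit 0x20028080081))) 
(.lf (nat_lit 3355803660) (dlOf (nat_lit 3) (nat_lit 0x70012000208100a90088000ec080268008001800200820008120103)))) 
(.nd (nat_lit 7) 
(.lf (nat_lit 1476755468) (dlOf (nat_lit 5) (nat_lit 0x40060003c02e001c016000b00880070040002001e001200e000800300078010003c004000c001000f000002ef0600030060000c022000c00f000500300018008001800000baa0c000c018000a00b80020044001001e001800e0007003802ea430006005c0168804000400400340018180282))) 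
(.lf (nat_lit 3624242572) (dlOf (nat_lit 1) (nat_lit 0x400080018002002c0008146c83))))) 
(.nd (nat_lit 28) (.nd (nat_lit 29) 
(.lf (nat_lit 201687052) (dlOf (nat_lit 1) (nat_lit 0x20028080081))) 
(.lf (nat_lit 3959783436) (dlOf (nat_lit 1) (nat_lit 0x4000802d4002021a0008150503)))) 
(.lf (nat_lit 2617606156) (dlOf (nat_lit 6) (nat_lit 0x240178001280807f00bc000820400a005e000400201ee02e00710088000ec1001300bc0000004015c002001e0008100102)))))) 
(.nd (nat_lit 8) (.nd (nat_lit 21) (.nd (nat_lit 20) 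
(.lf (nat_lit 67993612) (dlOf (nat_lit 1) (nat_lit 0x400200020008370482))) 
(.lf (nat_lit 22904844) (dlOf (nat_lit 2) (nat_lit 0xa0d460001d818b40100)))) (.nd (nat_lit 23) 
(.nd (nat_lit 28) (.lf (nat_lit 4030476) (dlOf (nat_lit 1) (nat_lit 0xa0008270481))) 
(.lf (nat_lit 1346207756) (dlOf (nat_lit 2) (nat_lit 0x815800711018e60000)))) 
(.lf (nat_lit 29196300) (dlOf (nat_lit 1) (nat_lit 0x400200020008dd0682))))) (.nd (nat_lit 7) 
(.nd (nat_lit 10) (.lf (nat_lit 45973772) (dlOf (nat_lit 1) (nat_lit 0x20029380a81))) 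
(.lf (nat_lit 8232204) (dlOf (nat_lit 1) (nat_lit 0x800800240020002000851c603)))) 
(.lf (nat_lit 37587340) (dlOf (nat_lit 1) (nat_lit 0x200190d4e81))))))) (.nd (nat_lit 7) 
(.nd (nat_lit 8) (.nd (nat_lit 31) (.nd (nat_lit 18) (.nd (nat_lit 9) (.nd (nat_lit 12) 
(.lf (nat_lit 4563501132) (dlOf (nat_lit 2) (nat_lit 0x1501a0000000800b8008000400200060008090003))) 
(.lf (nat_lit 7966796) (dlOf (nat_lit 1) (nat_lit 0x40018517d81)))) 
(.lf (nat_lit 7963212) (dlOf (nat_lit 1) (nat_lit 0x1a0008511601)))) (.nd (nat_lit 19) 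
(.lf (nat_lit 1409100) (dlOf (nat_lit 1) (nat_lit 0x200280c0f81))) 
(.lf (nat_lit 42827852) (dlOf (nat_lit 1) (nat_lit 0x60019280681))))) (.nd (nat_lit 26) 
(.nd (nat_lit 11) (.nd (nat_lit 21) 
(.lf (nat_lit 3221848140) (dlOf (nat_lit 5) (nat_lit 0x1002b00009c0800400280004c0400480ac000400a0001202000602b0000802800046080008004005200181a1502))) 
(.lf (nat_lit 3492380748) (dlOf (nat_lit 4) (nat_lit 0xc3d0000270200061e8000130100080f400008c0800280080030002003200080c1503)))) 
(.lf (nat_lit 6442555468) (dlOf (nat_lit 1) (nat_lit 0x200280fa681)))) (.nd (nat_lit 18) 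
(.nd (nat_lit 28) 
(.lf (nat_lit 3960045644) (dlOf (nat_lit 2) (nat_lit 0x50230001400802c000800f4002000e00081a1883))) 
(.lf (nat_lit 3154739276) (dlOf (nat_lit 5) (nat_lit 0xc058000b102001c020000900f80038064001120c000c040000401f001300c00022018004007c001c032000860400220018310181)))) 
(.lf (nat_lit 3288694860) (dlOf (nat_lit 1) (nat_lit 0x4004002400180c1502)))))) (.nd (nat_lit 30) 
(.nd (nat_lit 9) (.nd (nat_lit 10) (.nd (nat_lit 20) 
(.lf (nat_lit 805405004) (dlOf (nat_lit 1) (nat_lit 0x40018090601))) 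
(.lf (nat_lit 3244364) (dlOf (nat_lit 2) (nat_lit 0x22748006136000064080014002000a0008200602)))) 
(.lf (nat_lit 469865804) (dlOf (nat_lit 1) (nat_lit 0x40028009901)))) (.nd (nat_lit 10) 
(.lf (nat_lit 20286284) (dlOf (nat_lit 1) (nat_lit 0x4002000200089d5c02))) (.nd (nat_lit 12) 
(.lf (nat_lit 6442551116) (dlOf (nat_lit 1) (nat_lit 0x4004000200080f3e82))) 
(.lf (nat_lit 8755020) (dlOf (nat_lit 1) (nat_lit 0x80040002001851a202)))))) (.nd (nat_lit 31) 
(.nd (nat_lit 10) (.nd (nat_lit 18) 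
(.lf (nat_lit 1677820236) (dlOf (nat_lit 1) (nat_lit 0x40018090601))) 
(.lf (nat_lit 6376227148) (dlOf (nat_lit 1) (nat_lit 0x8008000400200020008090d03)))) 
(.lf (nat_lit 5838576972) (dlOf (nat_lit 1) (nat_lit 0x80080014002000200080fc903)))) 
(.nd (nat_lit 10) (.nd (nat_lit 26) 
(.lf (nat_lit 3221324108) (dlOf (nat_lit 2) (nat_lit 0x3e03700016818090600))) 
(.lf (nat_lit 3959521612) (dlOf (nat_lit 2) (nat_lit 0x3e03700016018090600)))) 
(.lf (nat_lit 3892413772) (dlOf (nat_lit 1) (nat_lit 0x400200020008103302))))))) (.nd (nat_lit 30) 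
(.nd (nat_lit 20) (.nd (nat_lit 10) (.nd (nat_lit 8) 
(.lf (nat_lit 805404876) (dlOf (nat_lit 2) (nat_lit 0x120070008a026005e00000091c1800280080004002000e0008090483))) 
(.lf (nat_lit 6442550220) (dlOf (nat_lit 1) (nat_lit 0xb80080010002001000080f2883)))) 
(.nd (nat_lit 18) (.nd (nat_lit 23) 
(.lf (nat_lit 4362180556) (dlOf (nat_lit 1) (nat_lit 0x2000800a601))) 
(.lf (nat_lit 8493004) (dlOf (nat_lit 1) (nat_lit 0xec0040064000851a602)))) 
(.lf (nat_lit 2483394508) (dlOf (nat_lit 2) (nat_lit 0x802a000201400156c1000200080004002000400080fa603))))) 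
(.nd (nat_lit 9) (.nd (nat_lit 11) 
(.lf (nat_lit 2753135052) (dlOf (nat_lit 14) (nat_lit 0x1b884405243f200261f60001f0300040fd0000880803d07e8000360401e83f40001a0200501fa0000c81007a0fd0000600803d07e80002e04016c3f4000160200f41fa0000a81007a0fd0000500803d07e8000200401083f40000902028a24a00c811a80ad07e400303d6022c1e300d30d680260680048c2d2014415301160a70067851004282760192136001b097000000700070008113c002025c0008090983))) 
(.nd (nat_lit 18) (.lf (nat_lit 49908172) (dlOf (nat_lit 1) (nat_lit 0x4004000200094c4e82))) 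
(.lf (nat_lit 50170316) (dlOf (nat_lit 1) (nat_lit 0x8008000c002001400094c4e83))))) 
(.nd (nat_lit 8) (.lf (nat_lit 20026060) (dlOf (nat_lit 1) (nat_lit 0x80080004002000200089d8c83))) 
(.lf (nat_lit 49906636) (dlOf (nat_lit 1) (nat_lit 0xc004000400194c2882)))))) (.nd (nat_lit 8) 
(.nd (nat_lit 26) (.nd (nat_lit 18) (.nd (nat_lit 21) 
(.lf (nat_lit 3221323980) (dlOf (nat_lit 2) (nat_lit 0x180dc0004000001c50400220018090481))) 
(.lf (nat_lit 1881243852) (dlOf (nat_lit 1) (nat_lit 0xa0018e80881)))) 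
(.lf (nat_lit 5773295820) (dlOf (nat_lit 1) (nat_lit 0x4002000200080c1782)))) (.nd (nat_lit 27) 
(.lf (nat_lit 1677820108) (dlOf (nat_lit 2) (nat_lit 0x120070008a026005e00000091c1800280080004002000e0008090483))) 
(.lf (nat_lit 3959521484) (dlOf (nat_lit 2) (nat_lit 0x180dc0004000001c50400220018090481))))) 
(.nd (nat_lit 11) (.nd (nat_lit 19) 
(.lf (nat_lit 3288433100) (dlOf (nat_lit 1) (nat_lit 0x400400020008017102))) 
(.lf (nat_lit 3491332556) (dlOf (nat_lit 14) (nat_lit 0x1b87f005243ce00261e40001e8300040f40000880803d07a00003c0401e83d00001a0200501e80000c81007a0f40000600803d07a00002e04016c3d0000160200f41e80000a81007a0f40000500803d07a0000200401083d0000090201a6248004c11d80a288c8032044002b41e7000c0eb008b0738048c2ca014415d01160a70067851004282760192136001b097000000700070008113c002025c0008090983)))) 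
(.nd (nat_lit 9) (.lf (nat_lit 1346472396) (dlOf (nat_lit 1) (nat_lit 0x2000400140008f64e82))) 
(.lf (nat_lit 5637245900) (dlOf (nat_lit 1) (nat_lit 0x24004001e0008055d82))))))))) 
(.nd (nat_lit 6) (.nd (nat_lit 18) (.nd (nat_lit 7) (.nd (nat_lit 19) (.nd (nat_lit 8) 
(.nd (nat_lit 27) (.nd (nat_lit 23) 
(.lf (nat_lit 6710992908) (dlOf (nat_lit 1) (nat_lit 0x36000809f400202300008020003))) 
(.lf (nat_lit 25272332) (dlOf (nat_lit 1) (nat_lit 0x20028bf0481)))) (.nd (nat_lit 26) 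
(.lf (nat_lit 2281807884) (dlOf (nat_lit 1) (nat_lit 0x2c00200120008030482))) 
(.lf (nat_lit 6107013132) (dlOf (nat_lit 1) (nat_lit 0x36000809f400202300008020003))))) 
(.nd (nat_lit 9) (.nd (nat_lit 10) 
(.lf (nat_lit 3493961996) (dlOf (nat_lit 1) (nat_lit 0x200181b0481))) 
(.lf (nat_lit 134327564) (dlOf (nat_lit 1) (nat_lit 0x40008001c00200140008006683)))) 
(.lf (nat_lit 20032268) (dlOf (nat_lit 2) (nat_lit 0x576a0027acf000bcaec000e01a0002f08000400089d5b01))))) 
(.nd (nat_lit 28) (.nd (nat_lit 22) 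
(.lf (nat_lit 1678352396) (dlOf (nat_lit 1) (nat_lit 0x200281f0a01))) (.nd (nat_lit 25) 
(.lf (nat_lit 21602316) (dlOf (nat_lit 1) (nat_lit 0x8008000400200020008a50083))) 
(.lf (nat_lit 55156748) (dlOf (nat_lit 1) (nat_lit 0x200296c0001))))) (.nd (nat_lit 27) 
(.nd (nat_lit 30) (.lf (nat_lit 805937164) (dlOf (nat_lit 1) (nat_lit 0x200281f0a01))) 
(.lf (nat_lit 1879678988) (dlOf (nat_lit 1) (nat_lit 0x4004000200082c0282)))) (.nd (nat_lit 26) 
(.lf (nat_lit 5771993100) (dlOf (nat_lit 2) (nat_lit 0x802800e01818030000))) 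
(.lf (nat_lit 6375972876) (dlOf (nat_lit 2) (nat_lit 0x802800c4d818030000))))))) (.nd (nat_lit 29) 
(.nd (nat_lit 8) (.nd (nat_lit 11) (.nd (nat_lit 21) 
(.lf (nat_lit 6509666444) (dlOf (nat_lit 5) (nat_lit 0x1805004f8000000430400da000000208101170000000ec08068000000070040044002001800080b0102))) 
(.lf (nat_lit 2203788) (dlOf (nat_lit 1) (nat_lit 0x40028150101)))) 
(.lf (nat_lit 637068) (dlOf (nat_lit 1) (nat_lit 0x6002800a881)))) (.nd (nat_lit 11) 
(.lf (nat_lit 20033932) (dlOf (nat_lit 1) (nat_lit 0x4002000200089d8382))) 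
(.lf (nat_lit 1346480524) (dlOf (nat_lit 1) (nat_lit 0x8008000800200060008f64e83))))) 
(.nd (nat_lit 26) (.nd (nat_lit 28) 
(.lf (nat_lit 5905686668) (dlOf (nat_lit 5) (nat_lit 0x1805004f8000000430400da000000208101170000000ec08068000000070040044002001800080b0102))) 
(.lf (nat_lit 805413004) (dlOf (nat_lit 7) (nat_lit 0x14902600a10120051008e029a035015b01280b30090000621800600980036047001901a80178094009c048000300a006a04c002a0240016011c00d806a0064025003c0120000bc300028130001008e0020035002d012800c80900005c1400240980020025001101200004418001809000018040064004004c0018090102)))) 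
(.nd (nat_lit 8) 
(.lf (nat_lit 1677828236) (dlOf (nat_lit 7) (nat_lit 0x14902600a10120051008e029a035015b01280b30090000621800600980036047001901a80178094009c048000300a006a04c002a0240016011c00d806a0064025003c0120000bc300028130001008e0020035002d012800c80900005c1400240980020025001101200004418001809000018040064004004c0018090102))) 
(.lf (nat_lit 5301707148) (dlOf (nat_lit 1) (nat_lit 0x38002006a0008035d82))))))) (.nd (nat_lit 19) 
(.nd (nat_lit 26) (.nd (nat_lit 20) (.nd (nat_lit 21) (.nd (nat_lit 27) 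
(.lf (nat_lit 805675020) (dlOf (nat_lit 1) (nat_lit 0x3000400320008180502))) 
(.lf (nat_lit 3355811852) (dlOf (nat_lit 4) (nat_lit 0x12401200025010007019002080480008208092c06200ea01202240088000ec1817f000805fc00208b80008120103)))) 
(.lf (nat_lit 2465804) (dlOf (nat_lit 1) (nat_lit 0x1000400120008160682)))) (.nd (nat_lit 21) 
(.lf (nat_lit 22388748) (dlOf (nat_lit 1) (nat_lit 0x28008000400200020008ad0103))) 
(.lf (nat_lit 24485900) (dlOf (nat_lit 1) (nat_lit 0x40008ba0301))))) (.nd (nat_lit 27) 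
(.nd (nat_lit 29) 
(.lf (nat_lit 4362444812) (dlOf (nat_lit 2) (nat_lit 0x10198003c80800480080028002001c0008080083))) 
(.lf (nat_lit 1678090252) (dlOf (nat_lit 1) (nat_lit 0x3000400320008180502)))) (.nd (nat_lit 29) 
(.lf (nat_lit 2617614348) (dlOf (nat_lit 22) (nat_lit 0x1c30178001280800500c0056405e0004904001e030023401780010c1009080bc00740520004204001e030014e017803c80b800600240004108021002f0002001015a0178000fc0802100c0063405e032e02e000f009010300440007614001005c0003a02011a02f00920170000d81000400b80004804001005c0002302000402e00010810038017800180b80004008009005c0001e02000402e0000c01007001700005c0801300bc0002c04016405c000120200020300158017800044100a800bc000000400f400400580018100102))) 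
(.lf (nat_lit 4228227084) (dlOf (nat_lit 2) (nat_lit 0x101900041c0800480080028002001c0008080083)))))) 
(.nd (nat_lit 7) (.nd (nat_lit 20) (.nd (nat_lit 21) (.nd (nat_lit 26) 
(.lf (nat_lit 2819465228) (dlOf (nat_lit 4) (nat_lit 0x1a0360031381000e01b0018500800500d800b70040018004002800182a0282))) 
(.lf (nat_lit 3557662732) (dlOf (nat_lit 4) (nat_lit 0x1a038005de01000e01c002ea40800500e001688040018004002800182a0282)))) 
(.lf (nat_lit 15573004) (dlOf (nat_lit 1) (nat_lit 0x400200020008800282)))) (.nd (nat_lit 8) 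
(.lf (nat_lit 22913036) (dlOf (nat_lit 2) (nat_lit 0xecce003b0000000ec100068008000c00200120008b40103))) 
(.nd (nat_lit 21) (.lf (nat_lit 18718988) (dlOf (nat_lit 1) (nat_lit 0x140028970701))) 
(.lf (nat_lit 45981964) (dlOf (nat_lit 1) (nat_lit 0x400200020009380a82)))))) (.nd (nat_lit 8) 
(.nd (nat_lit 21) (.nd (nat_lit 26) 
(.lf (nat_lit 1879941260) (dlOf (nat_lit 2) (nat_lit 0x33c0000004102005e0018490101))) 
(.lf (nat_lit 1007526028) (dlOf (nat_lit 2) (nat_lit 0x33c0000004102005e0018490101)))) 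
(.lf (nat_lit 23961740) (dlOf (nat_lit 1) (nat_lit 0x3c800400ec0008b80102)))) (.nd (nat_lit 21) 
(.lf (nat_lit 471705996) (dlOf (nat_lit 1) (nat_lit 0x200283d4e81))) 
(.lf (nat_lit 37595532) (dlOf (nat_lit 1) (nat_lit 0x200090d4e81)))))))) (.nd (nat_lit 7) 
(.nd (nat_lit 29) (.nd (nat_lit 21) (.nd (nat_lit 18) (.nd (nat_lit 8) 
(.lf (nat_lit 3221856332) (dlOf (nat_lit 7) (nat_lit 0x12e056002202a801f814800d806c00120320095018804400ac00b8052011201e009f008804e004000040140106006000138d00960050000980804c815801480aa0136052009901b000200c80258062013802b009000f004f80440268020011200a001e00400480018000483402180ac0118052008b01b004580c40248056010001e008c008803f804001ec0140108006000118a009200500008808027815403600a201b803500ae01a006c807c02d403c015c01200b4003000000400178008011c002004200081a1503))) 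
(.nd (nat_lit 10) 
(.lf (nat_lit 3221332300) (dlOf (nat_lit 7) (nat_lit 0xc040000330201de05300ee01b801d009003b00400002d08007002400340100000b010080814c040c06e020c020004000a80510000000561400640480002a02001a024001e0100000a4100068008019c00200320008090603))) 
(.lf (nat_lit 469873996) (dlOf (nat_lit 1) (nat_lit 0x4004000e0018009902))))) (.nd (nat_lit 8) 
(.lf (nat_lit 893004) (dlOf (nat_lit 1) (nat_lit 0x60018030f81))) (.nd (nat_lit 22) 
(.lf (nat_lit 25534796) (dlOf (nat_lit 1) (nat_lit 0x400200020008c10802))) 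
(.lf (nat_lit 29729100) (dlOf (nat_lit 1) (nat_lit 0x20028e30781)))))) (.nd (nat_lit 9) 
(.nd (nat_lit 20) (.nd (nat_lit 8) 
(.lf (nat_lit 471965772) (dlOf (nat_lit 1) (nat_lit 0xc0028740181))) 
(.lf (nat_lit 2203980) (dlOf (nat_lit 2) (nat_lit 0x9aafa00019818150600)))) (.nd (nat_lit 19) 
(.lf (nat_lit 3252556) (dlOf (nat_lit 2) (nat_lit 0x6d2a88000c8080008008000800200040008200603))) 
(.lf (nat_lit 12165452) (dlOf (nat_lit 1) (nat_lit 0x14002000200086c0602))))) (.nd (nat_lit 8) 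
(.lf (nat_lit 12427852) (dlOf (nat_lit 1) (nat_lit 0x1600186c1181))) (.nd (nat_lit 10) 
(.lf (nat_lit 20294476) (dlOf (nat_lit 1) (nat_lit 0x4002000200089d5c02))) 
(.lf (nat_lit 7976780) (dlOf (nat_lit 1) (nat_lit 0x2001851a201))))))) (.nd (nat_lit 30) 
(.nd (nat_lit 9) (.nd (nat_lit 18) (.nd (nat_lit 22) 
(.lf (nat_lit 805413196) (dlOf (nat_lit 2) (nat_lit 0x4404e002c02600019828090600))) 
(.lf (nat_lit 2755764556) (dlOf (nat_lit 2) (nat_lit 0xb2050000200181b0600)))) 
(.lf (nat_lit 1007526220) (dlOf (nat_lit 1) (nat_lit 0x260018490601)))) (.nd (nat_lit 27) 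
(.lf (nat_lit 4831947596) (dlOf (nat_lit 1) (nat_lit 0x20008055c01))) 
(.lf (nat_lit 5234600780) (dlOf (nat_lit 1) (nat_lit 0x400400020008055c02))))) (.nd (nat_lit 31) 
(.nd (nat_lit 9) (.nd (nat_lit 18) 
(.lf (nat_lit 1677828428) (dlOf (nat_lit 2) (nat_lit 0x4404e002c02600019028090600))) 
(.lf (nat_lit 1879941452) (dlOf (nat_lit 1) (nat_lit 0x260018490601)))) 
(.lf (nat_lit 5972797260) (dlOf (nat_lit 1) (nat_lit 0x400400020008143e82)))) (.nd (nat_lit 8) 
(.lf (nat_lit 3960053836) (dlOf (nat_lit 12) (nat_lit 0x2002f000c0170005641000800bc002ae04001005e0010202002002f0008001000c01f800680cc000a608000c08000020160002802000f0178000a00800800bc0001404004005e0000802002a02f00000810009017800880b8000000800b8004004c00081a1882))) 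
(.nd (nat_lit 10) 
(.lf (nat_lit 3959529804) (dlOf (nat_lit 7) (nat_lit 0xc040000320201de05300ee01b801d009003b00400002c08007002400340100000ac10080814c040c06e020c020004000a80510000000541400640480002902001a024001e0100000a0100068008019c00200320008090603))) 
(.lf (nat_lit 3825315148) (dlOf (nat_lit 1) (nat_lit 0xd20028146a01)))))))) (.nd (nat_lit 8) 
(.nd (nat_lit 26) (.nd (nat_lit 30) (.nd (nat_lit 9) (.nd (nat_lit 19) 
(.lf (nat_lit 805413068) (dlOf (nat_lit 8) (nat_lit 0x10004f008e01c00b40098006c04002420000012485010d027808d80e0079004c0010020002000c00db80000048e1801c404c001f002004a051000e2810076028803f00e8006804e0009406005a0510004881002d028800000083378008129800200a80008090483))) 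
(.lf (nat_lit 12165324) (dlOf (nat_lit 1) (nat_lit 0x4000086c0481)))) 
(.lf (nat_lit 20034252) (dlOf (nat_lit 1) (nat_lit 0x80080004002000400089d8c83)))) 
(.nd (nat_lit 27) (.nd (nat_lit 29) 
(.lf (nat_lit 3221332172) (dlOf (nat_lit 4) (nat_lit 0x72029803c00dc02d4048013e020002300a803300000038e1803600a601b803700d201200768080009c02a0180000000e286000f0100006f4080ef8008020800200200008090483))) 
(.lf (nat_lit 5905686732) (dlOf (nat_lit 7) (nat_lit 0x10000002380202c4011009700100d680000046e0c04780000023502009a000001140100010000007b4080990000003d60400e8002002e00080b0482)))) 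
(.lf (nat_lit 5503033548) (dlOf (nat_lit 1) (nat_lit 0x1400200020008031782))))) (.nd (nat_lit 27) 
(.nd (nat_lit 29) (.nd (nat_lit 30) 
(.lf (nat_lit 6509666508) (dlOf (nat_lit 7) (nat_lit 0x10000002380202c4012009700100d680000046e0c04780000023502009a000001140100010000007b4080990000003d60400e8002002e00080b0482))) 
(.lf (nat_lit 5435924684) (dlOf (nat_lit 1) (nat_lit 0x10008001000200020008031783)))) 
(.lf (nat_lit 1677828300) (dlOf (nat_lit 8) (nat_lit 0x10004f008e01c00b40098006c04002420000012485010d027808d80e0079004c0010020002000c00db80000048e1801c404c001f002004a051000e2810076028803f00e8006804e0009406005a0510004881002d028800000083378008129800200a80008090483)))) 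
(.nd (nat_lit 19) 
(.lf (nat_lit 3959529676) (dlOf (nat_lit 4) (nat_lit 0x72029803c00dc02d4048013e020002300a803300000038e1803600a601b803700d201200768080009c02a0180000000e286000f0100006f4080ef8008020800200200008090483))) 
(.lf (nat_lit 6375973068) (dlOf (nat_lit 1) (nat_lit 0x140008018800200a80008031783)))))) 
(.nd (nat_lit 9) (.nd (nat_lit 19) (.nd (nat_lit 10) 
(.lf (nat_lit 1946264012) (dlOf (nat_lit 1) (nat_lit 0x400400020008017102))) 
(.lf (nat_lit 112076) (dlOf (nat_lit 1) (nat_lit 0x80018009a81)))) (.nd (nat_lit 26) 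
(.lf (nat_lit 3491340748) (dlOf (nat_lit 3) (nat_lit 0xf03f80003d02003e1fc00000018090980))) 
(.lf (nat_lit 2753143244) (dlOf (nat_lit 3) (nat_lit 0xf04220003e02003e21100000018090980))))) 
(.nd (nat_lit 10) (.nd (nat_lit 27) 
(.lf (nat_lit 5637254092) (dlOf (nat_lit 4) (nat_lit 0x1300a8000b4080100054001400a0002a04002801500020028000081000a800800cc00200160008055d83))) 
(.lf (nat_lit 5771471820) (dlOf (nat_lit 1) (nat_lit 0x200018005d81)))) (.nd (nat_lit 12) 
(.lf (nat_lit 671197132) (dlOf (nat_lit 1) (nat_lit 0x8008000400200020008144483))) 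
(.lf (nat_lit 2483402700) (dlOf (nat_lit 2) (nat_lit 0x5017000100a8001c050000c018000400800038038001c018000e003000600000156c4800580080024002003600080fa603))))))))))))

end

end Pool.Agent.Lib.MP_5854e1_co.Cz

namespace Pool.Agent.Lib.MP_5854e1_co.Cz

noncomputable section

noncomputable def tz25 : DT := (.nd (nat_lit 6) (.nd (nat_lit 13) (.nd (nat_lit 16) 
(.nd (nat_lit 18) (.nd (nat_lit 15) (.nd (nat_lit 26) (.nd (nat_lit 21) (.nd (nat_lit 28) 
(.nd (nat_lit 22) (.nd (nat_lit 27) (.nd (nat_lit 7) (.nd (nat_lit 29) 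
(.lf (nat_lit 5368840204) (dlOf (nat_lit 1) (nat_lit 0x8008000400200020008040003))) 
(.lf (nat_lit 2684485644) (dlOf (nat_lit 1) (nat_lit 0x400200020008050102)))) 
(.lf (nat_lit 50465164) (dlOf (nat_lit 1) (nat_lit 0x200094c4e81)))) (.nd (nat_lit 7) 
(.nd (nat_lit 8) 
(.lf (nat_lit 5503057932) (dlOf (nat_lit 1) (nat_lit 0x8008000400200020008040003))) 
(.lf (nat_lit 671222028) (dlOf (nat_lit 1) (nat_lit 0x20028144b81)))) 
(.lf (nat_lit 3355580044) (dlOf (nat_lit 1) (nat_lit 0xc004000400080a9e02))))) (.nd (nat_lit 19) 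
(.nd (nat_lit 20) 
(.lf (nat_lit 21102604) (dlOf (nat_lit 2) (nat_lit 0xd0000001d204012400200060008a10482))) 
(.lf (nat_lit 47317004) (dlOf (nat_lit 1) (nat_lit 0x580080008002001a00093d0083)))) 
(.lf (nat_lit 21626892) (dlOf (nat_lit 1) (nat_lit 0x8008000400200020008a50083))))) 
(.nd (nat_lit 7) (.nd (nat_lit 8) (.nd (nat_lit 10) 
(.lf (nat_lit 1342832652) (dlOf (nat_lit 1) (nat_lit 0x400280e0301))) 
(.lf (nat_lit 3087139852) (dlOf (nat_lit 1) (nat_lit 0x20018142881)))) 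
(.lf (nat_lit 4563536652) (dlOf (nat_lit 1) (nat_lit 0x8008000c00200020008095b03)))) 
(.nd (nat_lit 9) (.lf (nat_lit 1346502796) (dlOf (nat_lit 1) (nat_lit 0x20028f72601))) 
(.lf (nat_lit 4563536524) (dlOf (nat_lit 1) (nat_lit 0x80018095481)))))) (.nd (nat_lit 19) 
(.nd (nat_lit 7) (.nd (nat_lit 8) (.nd (nat_lit 20) 
(.lf (nat_lit 1344405516) (dlOf (nat_lit 3) (nat_lit 0x439c00081cc000af820001123000108ec001b208001400400300008760582))) 
(.lf (nat_lit 15859724) (dlOf (nat_lit 2) (nat_lit 0x347380019428009a608000800200020008840282)))) 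
(.lf (nat_lit 20056844) (dlOf (nat_lit 1) (nat_lit 0x4004000200189d5b02)))) (.nd (nat_lit 8) 
(.lf (nat_lit 20059788) (dlOf (nat_lit 2) (nat_lit 0x16f10000f0040018004000200089d9e02))) 
(.lf (nat_lit 31590796) (dlOf (nat_lit 2) (nat_lit 0x867e0001333802c341003000080174002000e0008e94e83))))) 
(.nd (nat_lit 20) (.nd (nat_lit 22) 
(.lf (nat_lit 11141132) (dlOf (nat_lit 2) (nat_lit 0xe0000001d818660100))) 
(.lf (nat_lit 15335436) (dlOf (nat_lit 2) (nat_lit 0x1131400c10040080004003200187e0482)))) 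
(.nd (nat_lit 22) 
(.lf (nat_lit 3493462028) (dlOf (nat_lit 2) (nat_lit 0x34048007150200320008140a01))) 
(.lf (nat_lit 24772620) (dlOf (nat_lit 1) (nat_lit 0x20028bb0081))))))) (.nd (nat_lit 28) 
(.nd (nat_lit 27) (.nd (nat_lit 20) (.nd (nat_lit 7) 
(.lf (nat_lit 2214723596) (dlOf (nat_lit 1) (nat_lit 0x10e0028070081))) 
(.lf (nat_lit 2753691788) (dlOf (nat_lit 1) (nat_lit 0x400200020008090102)))) (.nd (nat_lit 19) 
(.lf (nat_lit 68288524) (dlOf (nat_lit 1) (nat_lit 0x40028500181))) 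
(.lf (nat_lit 2755264524) (dlOf (nat_lit 2) (nat_lit 0x3404800cbf0200320008140a01))))) 
(.nd (nat_lit 8) (.nd (nat_lit 9) 
(.lf (nat_lit 3422683148) (dlOf (nat_lit 1) (nat_lit 0xa0028050101))) 
(.lf (nat_lit 3959560716) (dlOf (nat_lit 1) (nat_lit 0x80080058002000a000811b283)))) 
(.lf (nat_lit 738328844) (dlOf (nat_lit 5) (nat_lit 0x20074002b80400600aa003c03700072020004010800368080050084001a804001400400080018090a82))))) 
(.nd (nat_lit 7) (.nd (nat_lit 8) (.nd (nat_lit 29) 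
(.lf (nat_lit 470417420) (dlOf (nat_lit 1) (nat_lit 0x400280e0301))) 
(.lf (nat_lit 3154771980) (dlOf (nat_lit 3) (nat_lit 0x5010001d1008007006000e8604011c00400340008320782)))) 
(.lf (nat_lit 3154247948) (dlOf (nat_lit 1) (nat_lit 0x60018133a01)))) (.nd (nat_lit 8) 
(.lf (nat_lit 2617382028) (dlOf (nat_lit 3) (nat_lit 0x180b0002d404002005e0001502000200280a9501))) 
(.nd (nat_lit 27) 
(.lf (nat_lit 872546700) (dlOf (nat_lit 1) (nat_lit 0x8008000400200040008091003))) 
(.lf (nat_lit 4764860812) (dlOf (nat_lit 1) (nat_lit 0x400400080008035d82)))))))) (.nd (nat_lit 28) 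
(.nd (nat_lit 26) (.nd (nat_lit 7) (.nd (nat_lit 27) (.nd (nat_lit 11) (.nd (nat_lit 20) 
(.nd (nat_lit 29) 
(.lf (nat_lit 5368872972) (dlOf (nat_lit 3) (nat_lit 0x802a0002014001300980038044001c020000200e006a586000400a800380500058026000200e0003002803528280028008007400200200008060a03))) 
(.lf (nat_lit 2684518412) (dlOf (nat_lit 2) (nat_lit 0xb0058000ec08005800800b400200420008080103)))) 
(.lf (nat_lit 15892492) (dlOf (nat_lit 2) (nat_lit 0x677400269818840280)))) 
(.lf (nat_lit 169996) (dlOf (nat_lit 1) (nat_lit 0x800800080020006000800a603)))) (.nd (nat_lit 19) 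
(.lf (nat_lit 4966219788) (dlOf (nat_lit 1) (nat_lit 0x8008000800200040008060a03))) 
(.lf (nat_lit 134905868) (dlOf (nat_lit 3) (nat_lit 0x18128000f804001805e0007302000200280d0481))))) 
(.nd (nat_lit 8) (.nd (nat_lit 10) 
(.lf (nat_lit 1208126092) (dlOf (nat_lit 1) (nat_lit 0x8008000400200020008095483))) 
(.lf (nat_lit 1610778252) (dlOf (nat_lit 5) (nat_lit 0x501680005e0400140b40002d02000605a0001601001102d00007c0801a000801d800200180008093a03)))) 
(.lf (nat_lit 169868) (dlOf (nat_lit 1) (nat_lit 0xf8001800a301))))) (.nd (nat_lit 19) 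
(.nd (nat_lit 9) (.nd (nat_lit 27) 
(.lf (nat_lit 1141014540) (dlOf (nat_lit 1) (nat_lit 0x2800200060008080002))) 
(.lf (nat_lit 2348974092) (dlOf (nat_lit 2) (nat_lit 0x8007800c9c0800b8008005c00200180008070503)))) 
(.lf (nat_lit 2751633932) (dlOf (nat_lit 1) (nat_lit 0x8002800b281)))) (.nd (nat_lit 27) 
(.lf (nat_lit 1678409740) (dlOf (nat_lit 1) (nat_lit 0x80018210081))) 
(.lf (nat_lit 202014732) (dlOf (nat_lit 3) (nat_lit 0x18128000f804001805e0007302000200280d0481)))))) 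
(.nd (nat_lit 26) (.nd (nat_lit 27) (.nd (nat_lit 19) 
(.lf (nat_lit 2952953868) (dlOf (nat_lit 1) (nat_lit 0x3a0028030001))) (.nd (nat_lit 29) 
(.lf (nat_lit 1342865420) (dlOf (nat_lit 1) (nat_lit 0x4004000400180f0082))) 
(.lf (nat_lit 805994508) (dlOf (nat_lit 1) (nat_lit 0x80018210081))))) (.nd (nat_lit 7) 
(.lf (nat_lit 2013429772) (dlOf (nat_lit 1) (nat_lit 0x2800200060008080002))) (.nd (nat_lit 30) 
(.lf (nat_lit 5234655628) (dlOf (nat_lit 1) (nat_lit 0x20028075d81))) 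
(.lf (nat_lit 6308397452) (dlOf (nat_lit 3) (nat_lit 0x4806400cf8040028030004e60200160028075d81)))))) 
(.nd (nat_lit 27) (.nd (nat_lit 8) (.nd (nat_lit 29) 
(.lf (nat_lit 2483191820) (dlOf (nat_lit 2) (nat_lit 0x8007800e9c0800b8008005c00200180008070503))) 
(.lf (nat_lit 5167546380) (dlOf (nat_lit 1) (nat_lit 0x200180a0a01)))) 
(.lf (nat_lit 1409453324) (dlOf (nat_lit 1) (nat_lit 0x240008006681)))) (.nd (nat_lit 9) 
(.nd (nat_lit 21) (.lf (nat_lit 470450188) (dlOf (nat_lit 1) (nat_lit 0x4004000400180f0082))) 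
(.lf (nat_lit 472547340) (dlOf (nat_lit 2) (nat_lit 0x801f400000040004004000400089b0182)))) 
(.lf (nat_lit 469926412) (dlOf (nat_lit 1) (nat_lit 0x80028018401)))))))) (.nd (nat_lit 19) 
(.nd (nat_lit 30) (.nd (nat_lit 15) (.nd (nat_lit 27) (.nd (nat_lit 29) (.nd (nat_lit 26) 
(.lf (nat_lit 4563795980) (dlOf (nat_lit 1) (nat_lit 0x148004007600080e0082))) 
(.lf (nat_lit 6509953036) (dlOf (nat_lit 1) (nat_lit 0x1a0008007800200660008170483)))) 
(.nd (nat_lit 7) (.lf (nat_lit 2756050956) (dlOf (nat_lit 1) (nat_lit 0x200081e0081))) 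
(.lf (nat_lit 604373132) (dlOf (nat_lit 1) (nat_lit 0x480080028002001e00081a0483))))) 
(.nd (nat_lit 20) (.nd (nat_lit 26) 
(.lf (nat_lit 4698013708) (dlOf (nat_lit 1) (nat_lit 0x148004007600080e0082))) 
(.lf (nat_lit 738590732) (dlOf (nat_lit 2) (nat_lit 0x320520021f8180b0000)))) 
(.lf (nat_lit 471203852) (dlOf (nat_lit 1) (nat_lit 0x200282c0281))))) (.nd (nat_lit 28) 
(.nd (nat_lit 21) (.nd (nat_lit 7) 
(.lf (nat_lit 67534860) (dlOf (nat_lit 1) (nat_lit 0x400281f0181))) 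
(.lf (nat_lit 21397900) (dlOf (nat_lit 1) (nat_lit 0x1000400140008a35d82)))) (.nd (nat_lit 20) 
(.lf (nat_lit 44466188) (dlOf (nat_lit 1) (nat_lit 0x400400020009310002))) 
(.lf (nat_lit 16154636) (dlOf (nat_lit 1) (nat_lit 0x720008870181))))) (.nd (nat_lit 29) 
(.nd (nat_lit 27) 
(.lf (nat_lit 4563828748) (dlOf (nat_lit 2) (nat_lit 0x7200c401bb00400c8004004600080f0a02))) 
(.lf (nat_lit 4698046476) (dlOf (nat_lit 2) (nat_lit 0x5f80620000002001c00280f0a01)))) 
(.nd (nat_lit 26) (.lf (nat_lit 805732364) (dlOf (nat_lit 1) (nat_lit 0x160004000400081a0002))) 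
(.lf (nat_lit 3020324876) (dlOf (nat_lit 1) (nat_lit 0x8008000400200020008250183))))))) 
(.nd (nat_lit 29) (.nd (nat_lit 28) (.nd (nat_lit 15) (.nd (nat_lit 27) 
(.lf (nat_lit 3221618700) (dlOf (nat_lit 2) (nat_lit 0x1d0178003fc080080008014800200140008160083))) 
(.lf (nat_lit 3355836428) (dlOf (nat_lit 22) (nat_lit 0x1c30190001280800500cc05640640004904001e033023401900010c1009080c800740580004204001e033014e019003c80c40060024000410802100320002001015a0190000fc0802100cc0634064032e031000f00901030044000761400100620003a02011a03200920188000d81000100c4000460400200620002202000803100010810038019000180c40003e0800900620001e0200040310000c01007001880005c0801300c80002a040164062000120200020330158019000044100a800c8000000400f400400580018120102)))) 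
(.lf (nat_lit 3221651468) (dlOf (nat_lit 2) (nat_lit 0x28046004d6018170000)))) (.nd (nat_lit 15) 
(.nd (nat_lit 20) (.lf (nat_lit 3494248460) (dlOf (nat_lit 1) (nat_lit 0x200081e0081))) 
(.lf (nat_lit 1343619084) (dlOf (nat_lit 4) (nat_lit 0x170b0800b8274003c11c00ba406000e161000804e80018238017220c00302c2001809d000c047002d101800300080028002000200082c0283)))) 
(.lf (nat_lit 3557195788) (dlOf (nat_lit 1) (nat_lit 0x53c002040e0008160182))))) (.nd (nat_lit 26) 
(.nd (nat_lit 27) (.nd (nat_lit 32) 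
(.lf (nat_lit 1611005964) (dlOf (nat_lit 2) (nat_lit 0x32052004ea0180b0000))) 
(.lf (nat_lit 5905973260) (dlOf (nat_lit 1) (nat_lit 0x1a0008007800200660008170483)))) 
(.lf (nat_lit 3892707340) (dlOf (nat_lit 1) (nat_lit 0x200080044002000c00081d0483)))) 
(.nd (nat_lit 7) (.nd (nat_lit 28) 
(.lf (nat_lit 3959816204) (dlOf (nat_lit 2) (nat_lit 0x1d017800458080080008014800200140008160083))) 
(.lf (nat_lit 4228251660) (dlOf (nat_lit 1) (nat_lit 0x80018090001)))) 
(.lf (nat_lit 3959849356) (dlOf (nat_lit 2) (nat_lit 0x2204500718018170780))))))) (.nd (nat_lit 7) 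
(.nd (nat_lit 21) (.nd (nat_lit 15) (.nd (nat_lit 20) (.nd (nat_lit 22) 
(.lf (nat_lit 17694732) (dlOf (nat_lit 2) (nat_lit 0x5a4ac019da040038002001400088f0782))) 
(.lf (nat_lit 21889036) (dlOf (nat_lit 1) (nat_lit 0x20028a80481)))) 
(.lf (nat_lit 22937612) (dlOf (nat_lit 1) (nat_lit 0xa0018b40101)))) (.nd (nat_lit 8) 
(.nd (nat_lit 9) (.lf (nat_lit 21921804) (dlOf (nat_lit 1) (nat_lit 0x800400020018a80482))) 
(.lf (nat_lit 2752414220) (dlOf (nat_lit 2) (nat_lit 0x4024800257018018400)))) 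
(.lf (nat_lit 4094593804) (dlOf (nat_lit 2) (nat_lit 0x260000000bc080018008008c002000e0008055b03))))) 
(.nd (nat_lit 8) (.nd (nat_lit 10) (.nd (nat_lit 15) 
(.lf (nat_lit 16646156) (dlOf (nat_lit 1) (nat_lit 0x200288c0281))) 
(.lf (nat_lit 16678924) (dlOf (nat_lit 1) (nat_lit 0x80080004002000200088d0283)))) 
(.lf (nat_lit 19794956) (dlOf (nat_lit 2) (nat_lit 0x22f9400000040004004000200089d5f82)))) 
(.nd (nat_lit 9) (.nd (nat_lit 10) 
(.lf (nat_lit 19792140) (dlOf (nat_lit 1) (nat_lit 0x200089d0a81))) 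
(.lf (nat_lit 19832076) (dlOf (nat_lit 1) (nat_lit 0x200189dc601)))) 
(.lf (nat_lit 19794700) (dlOf (nat_lit 1) (nat_lit 0x100080010002000200089d5b03)))))) 
(.nd (nat_lit 8) (.nd (nat_lit 15) (.nd (nat_lit 9) (.nd (nat_lit 20) 
(.lf (nat_lit 23986316) (dlOf (nat_lit 1) (nat_lit 0x400200020008b80102))) 
(.lf (nat_lit 12451980) (dlOf (nat_lit 1) (nat_lit 0x4002000200086c0102)))) 
(.lf (nat_lit 19796620) (dlOf (nat_lit 2) (nat_lit 0x4646800050040004002000600089d8c02)))) 
(.nd (nat_lit 21) (.nd (nat_lit 26) 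
(.lf (nat_lit 1344176268) (dlOf (nat_lit 6) (nat_lit 0x6049200281f000160e3800a06f40009410006838e00046020134000000208100100e38000f40802b0924000620400b000200020008490102))) 
(.lf (nat_lit 471761036) (dlOf (nat_lit 6) (nat_lit 0x6049200281f000160e3800a06f40009410006838e00046020134000000208100100e38000f40802b0924000620400b000200020008490102)))) 
(.nd (nat_lit 20) (.lf (nat_lit 24019084) (dlOf (nat_lit 1) (nat_lit 0x400200020008b80102))) 
(.lf (nat_lit 12484748) (dlOf (nat_lit 2) (nat_lit 0x8d4e0004102002600286c0101)))))) 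
(.nd (nat_lit 20) (.nd (nat_lit 9) (.nd (nat_lit 11) 
(.lf (nat_lit 19796364) (dlOf (nat_lit 1) (nat_lit 0x8004000200089d8382))) 
(.lf (nat_lit 57575820) (dlOf (nat_lit 1) (nat_lit 0x400400020009794e82)))) 
(.lf (nat_lit 19797900) (dlOf (nat_lit 1) (nat_lit 0x4004000200089da302)))) (.nd (nat_lit 21) 
(.nd (nat_lit 11) (.lf (nat_lit 4095607180) (dlOf (nat_lit 1) (nat_lit 0x600080e1001))) 
(.lf (nat_lit 35522956) (dlOf (nat_lit 1) (nat_lit 0x8008000400200020009014e83)))) 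
(.nd (nat_lit 15) (.lf (nat_lit 8257932) (dlOf (nat_lit 1) (nat_lit 0x400200020008511002))) 
(.lf (nat_lit 8290700) (dlOf (nat_lit 1) (nat_lit 0x400400020008511002)))))))))) (.nd (nat_lit 15) 
(.nd (nat_lit 19) (.nd (nat_lit 29) (.nd (nat_lit 20) (.nd (nat_lit 7) (.nd (nat_lit 22) 
(.nd (nat_lit 21) 
(.lf (nat_lit 3288530956) (dlOf (nat_lit 3) (nat_lit 0x4600d80280064015002b001a883000401b000d340800180080008002001a0008070503))) 
(.lf (nat_lit 10682380) (dlOf (nat_lit 1) (nat_lit 0x28008000400200020008610103)))) 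
(.nd (nat_lit 18) 
(.lf (nat_lit 21168140) (dlOf (nat_lit 2) (nat_lit 0x2e2480004ec0800c0008000800200020008a10483))) 
(.lf (nat_lit 3494313996) (dlOf (nat_lit 1) (nat_lit 0x20028200a01))))) (.nd (nat_lit 11) 
(.nd (nat_lit 18) (.lf (nat_lit 2483224972) (dlOf (nat_lit 1) (nat_lit 0x60028090781))) 
(.lf (nat_lit 54985100) (dlOf (nat_lit 1) (nat_lit 0xf000800e800200e00009685d83)))) 
(.nd (nat_lit 10) (.nd (nat_lit 24) 
(.lf (nat_lit 48433548) (dlOf (nat_lit 1) (nat_lit 0x20029404e81))) 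
(.lf (nat_lit 31656332) (dlOf (nat_lit 1) (nat_lit 0x40028e94e81)))) 
(.lf (nat_lit 1543703948) (dlOf (nat_lit 3) (nat_lit 0xc02c0000c81000a016000060080048008005400200300008146c83)))))) 
(.nd (nat_lit 23) (.nd (nat_lit 7) (.nd (nat_lit 8) 
(.lf (nat_lit 22478860) (dlOf (nat_lit 1) (nat_lit 0x680080058002003e0008ae0483))) 
(.nd (nat_lit 21) (.lf (nat_lit 68354316) (dlOf (nat_lit 1) (nat_lit 0x1e0018570701))) 
(.lf (nat_lit 41091340) (dlOf (nat_lit 1) (nat_lit 0x20019223a01))))) (.nd (nat_lit 18) 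
(.lf (nat_lit 3342476) (dlOf (nat_lit 1) (nat_lit 0x800400020018200102))) 
(.lf (nat_lit 3604620) (dlOf (nat_lit 1) (nat_lit 0x20008200101))))) (.nd (nat_lit 7) 
(.nd (nat_lit 9) (.nd (nat_lit 18) 
(.lf (nat_lit 26411020) (dlOf (nat_lit 1) (nat_lit 0x20028c40181))) 
(.lf (nat_lit 9895948) (dlOf (nat_lit 1) (nat_lit 0x8008000400200020008590083)))) 
(.lf (nat_lit 43189772) (dlOf (nat_lit 1) (nat_lit 0x600292a3681)))) 
(.lf (nat_lit 9634188) (dlOf (nat_lit 1) (nat_lit 0xa0008575d81)))))) (.nd (nat_lit 28) 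
(.nd (nat_lit 31) (.nd (nat_lit 7) (.nd (nat_lit 11) 
(.lf (nat_lit 4899143692) (dlOf (nat_lit 1) (nat_lit 0x4004000e0008090082))) 
(.lf (nat_lit 5905778700) (dlOf (nat_lit 1) (nat_lit 0x400200020008144702)))) 
(.lf (nat_lit 5033361804) (dlOf (nat_lit 1) (nat_lit 0x780008091001)))) (.nd (nat_lit 9) 
(.nd (nat_lit 18) (.lf (nat_lit 2753757196) (dlOf (nat_lit 1) (nat_lit 0x3c00400020008090002))) 
(.lf (nat_lit 2756116492) (dlOf (nat_lit 1) (nat_lit 0x20028200a01)))) (.nd (nat_lit 7) 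
(.lf (nat_lit 2753757708) (dlOf (nat_lit 1) (nat_lit 0x20028090d81))) 
(.lf (nat_lit 3892517516) (dlOf (nat_lit 1) (nat_lit 0x8002815b681)))))) (.nd (nat_lit 9) 
(.nd (nat_lit 7) (.nd (nat_lit 10) 
(.lf (nat_lit 4026728460) (dlOf (nat_lit 3) (nat_lit 0x4600d80280064015002b0016883000401b000b340800180080008002001a0008070503))) 
(.lf (nat_lit 3154320396) (dlOf (nat_lit 1) (nat_lit 0x4001815bf01)))) 
(.lf (nat_lit 6241321100) (dlOf (nat_lit 1) (nat_lit 0x40002000800080d0402)))) (.nd (nat_lit 7) 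
(.nd (nat_lit 8) (.lf (nat_lit 939721228) (dlOf (nat_lit 1) (nat_lit 0x400400060018158402))) 
(.lf (nat_lit 6241323788) (dlOf (nat_lit 1) (nat_lit 0x400280d5b01)))) 
(.lf (nat_lit 4160951948) (dlOf (nat_lit 4) (nat_lit 0x3802b000330100050158001940800300ac00000040034004002e00180a9e02))))))) 
(.nd (nat_lit 18) (.nd (nat_lit 20) (.nd (nat_lit 26) (.nd (nat_lit 24) (.nd (nat_lit 21) 
(.nd (nat_lit 29) (.lf (nat_lit 134938636) (dlOf (nat_lit 1) (nat_lit 0x84002002400080e0082))) 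
(.lf (nat_lit 2819293196) (dlOf (nat_lit 1) (nat_lit 0x20028220281)))) 
(.lf (nat_lit 1344995340) (dlOf (nat_lit 2) (nat_lit 0x70b000009c080030008000c002001000089b0183)))) 
(.nd (nat_lit 8) 
(.lf (nat_lit 21692428) (dlOf (nat_lit 3) (nat_lit 0xfb5400d4b020009daa0003ed30035281000b80080004002003a0008a60a03))) 
(.lf (nat_lit 51052812) (dlOf (nat_lit 1) (nat_lit 0x1c00194f3a01))))) (.nd (nat_lit 27) 
(.nd (nat_lit 7) (.lf (nat_lit 4094361868) (dlOf (nat_lit 1) (nat_lit 0x20028050a81))) 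
(.lf (nat_lit 4094364300) (dlOf (nat_lit 1) (nat_lit 0x1c000800b8002001e0008055483)))) 
(.nd (nat_lit 21) (.lf (nat_lit 202047500) (dlOf (nat_lit 1) (nat_lit 0x84002002400080e0082))) 
(.lf (nat_lit 472580108) (dlOf (nat_lit 2) (nat_lit 0x1807c0065c0189c0000)))))) (.nd (nat_lit 24) 
(.nd (nat_lit 9) (.nd (nat_lit 21) 
(.lf (nat_lit 1769484) (dlOf (nat_lit 1) (nat_lit 0x1c004000e0008130502))) 
(.lf (nat_lit 8060940) (dlOf (nat_lit 1) (nat_lit 0x3e0028510001)))) 
(.lf (nat_lit 8067596) (dlOf (nat_lit 1) (nat_lit 0x40040002001851b282)))) (.nd (nat_lit 8) 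
(.nd (nat_lit 21) (.lf (nat_lit 18546700) (dlOf (nat_lit 2) (nat_lit 0xf5d60031f018950280))) 
(.lf (nat_lit 54198284) (dlOf (nat_lit 1) (nat_lit 0xc00400120009650002)))) 
(.lf (nat_lit 54201100) (dlOf (nat_lit 1) (nat_lit 0x20029655b01)))))) (.nd (nat_lit 20) 
(.nd (nat_lit 21) (.nd (nat_lit 22) 
(.lf (nat_lit 470745100) (dlOf (nat_lit 1) (nat_lit 0xe0008014400200ca0008170003))) 
(.nd (nat_lit 23) (.nd (nat_lit 24) 
(.lf (nat_lit 5177356) (dlOf (nat_lit 1) (nat_lit 0x60008320481))) 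
(.lf (nat_lit 21954572) (dlOf (nat_lit 1) (nat_lit 0x20018a80481)))) 
(.lf (nat_lit 13565964) (dlOf (nat_lit 1) (nat_lit 0x20028730481))))) (.nd (nat_lit 9) 
(.lf (nat_lit 3492743180) (dlOf (nat_lit 3) (nat_lit 0xa01d0002a81000500e8001440800780080048002000600080f4703))) 
(.lf (nat_lit 24052236) (dlOf (nat_lit 2) (nat_lit 0x13c2e8009e1640006f860016506000a0028b80d81))))) 
(.nd (nat_lit 7) (.nd (nat_lit 9) 
(.lf (nat_lit 23003148) (dlOf (nat_lit 2) (nat_lit 0x2fac40026e0200586f3802fb65c01a1a8c004495e00610000000ec3801780080250002000c0008b40103))) 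
(.lf (nat_lit 8324620) (dlOf (nat_lit 1) (nat_lit 0x400200020008513682)))) (.nd (nat_lit 8) 
(.nd (nat_lit 26) 
(.lf (nat_lit 1344209036) (dlOf (nat_lit 2) (nat_lit 0x3e00000008204008000200040008490102))) 
(.lf (nat_lit 471793804) (dlOf (nat_lit 2) (nat_lit 0x3e00000008204008000200040008490102)))) 
(.lf (nat_lit 8323468) (dlOf (nat_lit 1) (nat_lit 0x400200020008511002)))))))) (.nd (nat_lit 18) 
(.nd (nat_lit 7) (.nd (nat_lit 27) (.nd (nat_lit 29) (.nd (nat_lit 20) (.nd (nat_lit 8) 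
(.nd (nat_lit 21) (.lf (nat_lit 1342406668) (dlOf (nat_lit 2) (nat_lit 0x1981cd000ef818020480))) 
(.lf (nat_lit 52658188) (dlOf (nat_lit 1) (nat_lit 0x5c004007a0009560182)))) 
(.lf (nat_lit 9142540) (dlOf (nat_lit 3) (nat_lit 0x6d0480296c0800a1af4006084000a450400320028524801)))) 
(.nd (nat_lit 21) (.lf (nat_lit 3490938892) (dlOf (nat_lit 1) (nat_lit 0x20028030481))) 
(.lf (nat_lit 24346636) (dlOf (nat_lit 1) (nat_lit 0x48008001400200080008b90683))))) 
(.nd (nat_lit 11) (.nd (nat_lit 10) 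
(.lf (nat_lit 2752741388) (dlOf (nat_lit 1) (nat_lit 0x20028030481))) 
(.lf (nat_lit 2751693836) (dlOf (nat_lit 1) (nat_lit 0x20008002881)))) (.nd (nat_lit 9) 
(.lf (nat_lit 5905811468) (dlOf (nat_lit 1) (nat_lit 0x400200020008144702))) 
(.lf (nat_lit 2751699468) (dlOf (nat_lit 1) (nat_lit 0x40040002000800b282)))))) (.nd (nat_lit 26) 
(.nd (nat_lit 28) (.nd (nat_lit 19) 
(.lf (nat_lit 134447116) (dlOf (nat_lit 3) (nat_lit 0x4980bc0035404001405e001a70200060018020481))) 
(.lf (nat_lit 2819325964) (dlOf (nat_lit 1) (nat_lit 0x6800400740008240282)))) (.nd (nat_lit 9) 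
(.nd (nat_lit 29) 
(.lf (nat_lit 1476624396) (dlOf (nat_lit 4) (nat_lit 0x301e00142c08004801c0035e0401c000e004c0060079000000000180158008006400200b600080a0483))) 
(.lf (nat_lit 939753484) (dlOf (nat_lit 2) (nat_lit 0x2e018003d00580048024000c0080020002000e000000538300048008005000200340008160483)))) 
(.lf (nat_lit 3087237644) (dlOf (nat_lit 2) (nat_lit 0x1800b00257018158400))))) (.nd (nat_lit 28) 
(.nd (nat_lit 29) 
(.lf (nat_lit 201555980) (dlOf (nat_lit 3) (nat_lit 0x4980bc0024004001405e0011b0200060018020481))) 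
(.lf (nat_lit 1812168716) (dlOf (nat_lit 2) (nat_lit 0x2e018003d00580048024000c0080020002000e00000077c300048008005000200340008160483)))) 
(.nd (nat_lit 30) (.lf (nat_lit 469991436) (dlOf (nat_lit 2) (nat_lit 0x1981cd000a7018020480))) 
(.lf (nat_lit 3691216908) (dlOf (nat_lit 24) (nat_lit 0x1500e80148c08018007400a3e0400900380049802004e01c0024901000f00e8010300800480740080e0400a803a005601c001f702003100e80020070007da08005803a005c01c019300b000680100038006001af0a002001d005b00e00bd80580035a0c00dc038001c018000c602002700e801f807005e802c0016e06001201d005500e00ad0058002d00c008803a000bf02003001d0002201004c00e800280700007c08000403a0003c02008801d0001a81000e00e8000cc0802c00700002204000403a00a801c0000702000c00e800e00700001808001405c002c02c002300e80340070025803201f6018017b00b00a2005405dc02802ec00f01150048004000c0508000000001a08a200280a0481))))))) 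
(.nd (nat_lit 8) (.nd (nat_lit 10) (.nd (nat_lit 20) (.nd (nat_lit 28) 
(.lf (nat_lit 2326668) (dlOf (nat_lit 2) (nat_lit 0x30e1600020818150100))) 
(.lf (nat_lit 3491987596) (dlOf (nat_lit 1) (nat_lit 0x40028090101)))) (.nd (nat_lit 19) 
(.lf (nat_lit 3375244) (dlOf (nat_lit 1) (nat_lit 0x40028200101))) 
(.lf (nat_lit 12288140) (dlOf (nat_lit 1) (nat_lit 0x4002000200086c0102))))) (.nd (nat_lit 9) 
(.lf (nat_lit 3489897612) (dlOf (nat_lit 1) (nat_lit 0x40040002000800c202))) 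
(.lf (nat_lit 4832069260) (dlOf (nat_lit 1) (nat_lit 0x8002000200080d3a02))))) (.nd (nat_lit 11) 
(.nd (nat_lit 10) (.lf (nat_lit 8094092) (dlOf (nat_lit 1) (nat_lit 0x400200020008511002))) 
(.lf (nat_lit 8095116) (dlOf (nat_lit 1) (nat_lit 0x8008000400200020008513603)))) (.nd (nat_lit 22) 
(.lf (nat_lit 50563468) (dlOf (nat_lit 1) (nat_lit 0x200294c4e81))) 
(.lf (nat_lit 54757772) (dlOf (nat_lit 1) (nat_lit 0x8008000400200020009654e83))))))) 
(.nd (nat_lit 26) (.nd (nat_lit 21) (.nd (nat_lit 30) (.nd (nat_lit 19) (.nd (nat_lit 20) 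
(.lf (nat_lit 2819063820) (dlOf (nat_lit 1) (nat_lit 0x20028190281))) 
(.lf (nat_lit 9928716) (dlOf (nat_lit 1) (nat_lit 0x8008000400200020008590083)))) 
(.lf (nat_lit 17793036) (dlOf (nat_lit 2) (nat_lit 0x5f19c01c2c040094004000c00188f0782)))) 
(.nd (nat_lit 20) (.nd (nat_lit 22) 
(.lf (nat_lit 1611104268) (dlOf (nat_lit 2) (nat_lit 0x201b8001c80800a80080014002000a00080e0083))) 
(.lf (nat_lit 3494346764) (dlOf (nat_lit 1) (nat_lit 0xc00200080008200a02)))) 
(.lf (nat_lit 3491201036) (dlOf (nat_lit 3) (nat_lit 0x21530013c8100010aa0009740800100080010002000a0008070503))))) 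
(.nd (nat_lit 19) (.nd (nat_lit 8) 
(.lf (nat_lit 10977292) (dlOf (nat_lit 3) (nat_lit 0x18f9a000c7cb0001502000c3e68000a0080078008001800200120008650103))) 
(.lf (nat_lit 1345814796) (dlOf (nat_lit 1) (nat_lit 0x8800400040008e03a02)))) (.nd (nat_lit 9) 
(.lf (nat_lit 28278796) (dlOf (nat_lit 2) (nat_lit 0xf734005e9818d80280))) 
(.lf (nat_lit 24085004) (dlOf (nat_lit 2) (nat_lit 0x17c2e800661640012f86001650600020018b80d81)))))) 
(.nd (nat_lit 27) (.nd (nat_lit 7) (.nd (nat_lit 22) 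
(.lf (nat_lit 4362567692) (dlOf (nat_lit 1) (nat_lit 0x100028090001))) 
(.lf (nat_lit 2756149260) (dlOf (nat_lit 1) (nat_lit 0xc00200080008200a02)))) 
(.lf (nat_lit 68651404) (dlOf (nat_lit 1) (nat_lit 0x200028664e81)))) (.nd (nat_lit 9) 
(.lf (nat_lit 738689036) (dlOf (nat_lit 2) (nat_lit 0x201b8003f80800a80080014002000a00080e0083))) 
(.lf (nat_lit 201818636) (dlOf (nat_lit 1) (nat_lit 0x20018090d81))))))))) (.nd (nat_lit 15) 
(.nd (nat_lit 16) (.nd (nat_lit 26) (.nd (nat_lit 18) (.nd (nat_lit 19) (.nd (nat_lit 30) 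
(.nd (nat_lit 20) (.nd (nat_lit 28) (.nd (nat_lit 22) 
(.lf (nat_lit 2684493836) (dlOf (nat_lit 1) (nat_lit 0x48008002400200140008070083))) 
(.lf (nat_lit 21110796) (dlOf (nat_lit 2) (nat_lit 0x34000000e90200140018a10481)))) 
(.nd (nat_lit 11) (.lf (nat_lit 6711025676) (dlOf (nat_lit 1) (nat_lit 0x400400020008040002))) 
(.lf (nat_lit 939665420) (dlOf (nat_lit 1) (nat_lit 0x400200020008144702))))) (.nd (nat_lit 7) 
(.nd (nat_lit 8) (.lf (nat_lit 15867916) (dlOf (nat_lit 1) (nat_lit 0xc00200040008840282))) 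
(.lf (nat_lit 20065036) (dlOf (nat_lit 1) (nat_lit 0x200189d5b01)))) 
(.lf (nat_lit 20067980) (dlOf (nat_lit 2) (nat_lit 0x8de20001e00800280080008002000a00089d9e03))))) 
(.nd (nat_lit 7) (.nd (nat_lit 8) (.nd (nat_lit 9) 
(.lf (nat_lit 1476534284) (dlOf (nat_lit 1) (nat_lit 0x1880008040181))) 
(.lf (nat_lit 3758236172) (dlOf (nat_lit 1) (nat_lit 0x8002003e0008107b02)))) 
(.lf (nat_lit 3758235916) (dlOf (nat_lit 1) (nat_lit 0xc00400040008103a02)))) (.nd (nat_lit 8) 
(.nd (nat_lit 10) (.lf (nat_lit 1208101516) (dlOf (nat_lit 1) (nat_lit 0x400200020008095482))) 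
(.lf (nat_lit 3355588236) (dlOf (nat_lit 2) (nat_lit 0x80600000002000400280a9e01)))) 
(.nd (nat_lit 10) 
(.lf (nat_lit 1610752396) (dlOf (nat_lit 3) (nat_lit 0x1c035000ac01000402980070084002ac08000400200020008091002))) 
(.lf (nat_lit 1610753420) (dlOf (nat_lit 1) (nat_lit 0xc00200020008093602))))))) (.nd (nat_lit 23) 
(.nd (nat_lit 21) (.nd (nat_lit 22) 
(.lf (nat_lit 134881292) (dlOf (nat_lit 2) (nat_lit 0x90230001f00800680080070002002200080d0483))) 
(.lf (nat_lit 21635084) (dlOf (nat_lit 1) (nat_lit 0x8008000400200020008a50083)))) 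
(.nd (nat_lit 10) (.lf (nat_lit 3492421644) (dlOf (nat_lit 1) (nat_lit 0xc002000600080d0482))) 
(.lf (nat_lit 36316172) (dlOf (nat_lit 1) (nat_lit 0x20019072881))))) (.nd (nat_lit 20) 
(.nd (nat_lit 22) 
(.lf (nat_lit 11149324) (dlOf (nat_lit 3) (nat_lit 0x6956c000820403e4ab60003b02008c0028660101))) 
(.lf (nat_lit 15343628) (dlOf (nat_lit 1) (nat_lit 0x700080038002003e00087e0483)))) 
(.nd (nat_lit 7) (.lf (nat_lit 10100748) (dlOf (nat_lit 1) (nat_lit 0x200285b0481))) 
(.lf (nat_lit 12198028) (dlOf (nat_lit 2) (nat_lit 0x172020001040800080080014002000200086c0103))))))) 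
(.nd (nat_lit 20) (.nd (nat_lit 29) (.nd (nat_lit 22) (.nd (nat_lit 27) 
(.lf (nat_lit 3221626892) (dlOf (nat_lit 6) (nat_lit 0x300bc003405c0011604000a02e0008a8100010178004500800300bc000805c00120140007f83000c0178003c8080718008002c00200020008160083))) 
(.lf (nat_lit 3355844620) (dlOf (nat_lit 24) (nat_lit 0x2c003200270090001281006d00c8000920402380660370032000d01600010c1805180c80004058000420402ee0320016018800380b001dc024000410802280320002001012f0190000fc0809d00c8098006200bc01700c600900e1804403080000003b0c00100320001b8100aa019006680c40006c0800180620002402000a031000110100030188000840800f00c800040620001f0400320310000f0100040188000680800080c4000300401b406400d40310000b8200450188000540803380c40002404035806400011020002031000050101290190000000806b0008219000205d80008120103)))) 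
(.nd (nat_lit 19) (.lf (nat_lit 12984332) (dlOf (nat_lit 1) (nat_lit 0x6600086f0081))) 
(.lf (nat_lit 15605772) (dlOf (nat_lit 2) (nat_lit 0x124f0016c4080010008000400200020008810283))))) 
(.nd (nat_lit 28) (.nd (nat_lit 27) 
(.lf (nat_lit 537272332) (dlOf (nat_lit 1) (nat_lit 0x20028070501))) 
(.lf (nat_lit 3892715532) (dlOf (nat_lit 9) (nat_lit 0xb0010017a804005800800bd102002a004005e7810016002002f380800b00100179804006400800bc902002c004005e1010009016002ee8080110008007c002006800081d0483)))) 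
(.nd (nat_lit 7) 
(.lf (nat_lit 805707788) (dlOf (nat_lit 6) (nat_lit 0x101580021a0400300ac0010902000a0560008301000302b000414080018158002060401c400400140008190082))) 
(.lf (nat_lit 1879974028) (dlOf (nat_lit 2) (nat_lit 0x5300000008204002000200020008490102)))))) 
(.nd (nat_lit 8) (.nd (nat_lit 22) 
(.lf (nat_lit 1343627276) (dlOf (nat_lit 4) (nat_lit 0x1404e800c823801940fc00ba406002009d0002047001e01f8017220c00a413a004c08e005c03f002d101805500080aa8002007400082c0283))) 
(.lf (nat_lit 30810124) (dlOf (nat_lit 1) (nat_lit 0x400400020018e50582)))) (.nd (nat_lit 7) 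
(.nd (nat_lit 19) (.lf (nat_lit 41296140) (dlOf (nat_lit 1) (nat_lit 0xc0019237401))) 
(.lf (nat_lit 46014732) (dlOf (nat_lit 1) (nat_lit 0xf000200260009380a82)))) 
(.lf (nat_lit 8266124) (dlOf (nat_lit 1) (nat_lit 0x400200020008511002))))))) (.nd (nat_lit 28) 
(.nd (nat_lit 27) (.nd (nat_lit 19) (.nd (nat_lit 10) (.nd (nat_lit 11) (.nd (nat_lit 18) 
(.lf (nat_lit 2214731788) (dlOf (nat_lit 1) (nat_lit 0x400400020008080102))) 
(.lf (nat_lit 1678123020) (dlOf (nat_lit 6) (nat_lit 0x10158001f00400300ac000f402000a0560007881000302b0003c0080018158001dc0401c400400140008190082)))) 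
(.lf (nat_lit 5972830220) (dlOf (nat_lit 1) (nat_lit 0x400200020008144702)))) 
(.lf (nat_lit 1677861900) (dlOf (nat_lit 1) (nat_lit 0x8008000400200020008112883)))) 
(.nd (nat_lit 8) (.nd (nat_lit 21) 
(.lf (nat_lit 67772428) (dlOf (nat_lit 1) (nat_lit 0x200082e0781))) 
(.lf (nat_lit 2754224140) (dlOf (nat_lit 1) (nat_lit 0xc002000600080d0482)))) 
(.lf (nat_lit 2755535116) (dlOf (nat_lit 1) (nat_lit 0x200281b0481))))) (.nd (nat_lit 29) 
(.nd (nat_lit 7) (.nd (nat_lit 19) 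
(.lf (nat_lit 3422691340) (dlOf (nat_lit 2) (nat_lit 0x300330001d818060100))) 
(.lf (nat_lit 201990156) (dlOf (nat_lit 2) (nat_lit 0x90230001f00800680080070002002200080d0483)))) 
(.lf (nat_lit 201728396) (dlOf (nat_lit 2) (nat_lit 0x3603b00675018090780)))) (.nd (nat_lit 9) 
(.nd (nat_lit 18) (.lf (nat_lit 6107045900) (dlOf (nat_lit 1) (nat_lit 0x400400020008040002))) 
(.lf (nat_lit 3959824396) (dlOf (nat_lit 6) (nat_lit 0x300bc000805c00120140008b03000c01780041c0800300bc003405c000ff04000a02e0007f0100010178003f4080718008002c00200020008160083)))) 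
(.nd (nat_lit 8) 
(.lf (nat_lit 3959568908) (dlOf (nat_lit 1) (nat_lit 0x10800800240020026000811b283))) 
(.lf (nat_lit 738339596) (dlOf (nat_lit 2) (nat_lit 0x620520001025801900d0008c05e0046008001b0020000bc300018008009400200020008095b03))))))) 
(.nd (nat_lit 29) (.nd (nat_lit 18) (.nd (nat_lit 8) (.nd (nat_lit 20) 
(.lf (nat_lit 472522764) (dlOf (nat_lit 1) (nat_lit 0x380080004002001a00089b0183))) 
(.lf (nat_lit 471474188) (dlOf (nat_lit 1) (nat_lit 0x1c0008310681)))) 
(.lf (nat_lit 1409428748) (dlOf (nat_lit 1) (nat_lit 0xa0008006681)))) (.nd (nat_lit 7) 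
(.nd (nat_lit 27) (.lf (nat_lit 1409687564) (dlOf (nat_lit 1) (nat_lit 0x20028070501))) 
(.lf (nat_lit 2617647116) (dlOf (nat_lit 1) (nat_lit 0x1000400080008130082)))) 
(.lf (nat_lit 473311628) (dlOf (nat_lit 1) (nat_lit 0x4800400060008e94e82))))) (.nd (nat_lit 7) 
(.nd (nat_lit 18) (.nd (nat_lit 19) 
(.lf (nat_lit 5301739532) (dlOf (nat_lit 3) (nat_lit 0x100fc00180740010037006a583000301f800200f80024074000e03700010000035282800c00080050002001a0008060a03))) 
(.lf (nat_lit 3154780172) (dlOf (nat_lit 5) (nat_lit 0x10120060f00803000b000fe004001804000744020016018001a004801d0c100180008002000200ac0008320783)))) 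
(.nd (nat_lit 30) 
(.lf (nat_lit 3154518028) (dlOf (nat_lit 1) (nat_lit 0x200080044002000c00081f0483))) 
(.lf (nat_lit 4228259852) (dlOf (nat_lit 2) (nat_lit 0xa03200693818090000))))) (.nd (nat_lit 8) 
(.lf (nat_lit 1007558796) (dlOf (nat_lit 2) (nat_lit 0x5300000008204002000200020008490102))) 
(.lf (nat_lit 4094044556) (dlOf (nat_lit 1) (nat_lit 0xe0018004e81)))))))) (.nd (nat_lit 18) 
(.nd (nat_lit 7) (.nd (nat_lit 19) (.nd (nat_lit 29) (.nd (nat_lit 22) (.nd (nat_lit 9) 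
(.nd (nat_lit 21) (.lf (nat_lit 25370636) (dlOf (nat_lit 1) (nat_lit 0x400400020008c00082))) 
(.lf (nat_lit 2301964) (dlOf (nat_lit 1) (nat_lit 0x200018150001)))) 
(.lf (nat_lit 5637350924) (dlOf (nat_lit 1) (nat_lit 0x4004000200080d3682)))) (.nd (nat_lit 23) 
(.lf (nat_lit 1346576396) (dlOf (nat_lit 1) (nat_lit 0x8008001800200380008fd0003))) 
(.lf (nat_lit 29564940) (dlOf (nat_lit 1) (nat_lit 0x8008000400200020008e20283))))) 
(.nd (nat_lit 28) (.nd (nat_lit 8) (.nd (nat_lit 11) 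
(.lf (nat_lit 604184588) (dlOf (nat_lit 4) (nat_lit 0x2805801ec022001230400080110007e01009e00b00478054033c02200c6007003a003005400000000018023400200780008080482))) 
(.lf (nat_lit 5905786892) (dlOf (nat_lit 1) (nat_lit 0x400200020008144702)))) 
(.lf (nat_lit 2818782988) (dlOf (nat_lit 1) (nat_lit 0xc0020004000812a002)))) (.nd (nat_lit 21) 
(.lf (nat_lit 2952994828) (dlOf (nat_lit 12) (nat_lit 0x10400800ab402000e003004c30100e40020071000c0024608038800801ba003000908200c20020061800c001ba08034c00801b20030006b82001e00180013c0806a8010036c0060001c0401a600400d500180005c10055001002cc0060001504019602c00f1015002b809c00c403c00b800900eb0020072800c000001c008c002003c0008080482))) 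
(.lf (nat_lit 1881350156) (dlOf (nat_lit 1) (nat_lit 0xc0028eb0001)))))) (.nd (nat_lit 20) 
(.nd (nat_lit 22) (.nd (nat_lit 26) 
(.lf (nat_lit 134946828) (dlOf (nat_lit 8) (nat_lit 0x901e80057c0800480f4002bc04000407a0015d02000e03d000201c0005701000480f4002b204000407e0102013000a202002401f8004d80801c000800b000200da00080e0083))) 
(.lf (nat_lit 202055692) (dlOf (nat_lit 8) (nat_lit 0x901e8005680800480f4002b204000407a0015802000e03d000201c00055c1000480f4002a804000407e0102013000a202002401f8004d80801c000800b000200da00080e0083)))) 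
(.lf (nat_lit 21700620) (dlOf (nat_lit 1) (nat_lit 0x300080038002001c0008a60a03)))) 
(.nd (nat_lit 10) 
(.lf (nat_lit 22749196) (dlOf (nat_lit 2) (nat_lit 0x716080006adc0001b028b20100))) 
(.lf (nat_lit 54209548) (dlOf (nat_lit 1) (nat_lit 0x8008000800200020009655f83)))))) 
(.nd (nat_lit 11) (.nd (nat_lit 8) (.nd (nat_lit 9) (.nd (nat_lit 20) 
(.lf (nat_lit 3491963020) (dlOf (nat_lit 3) (nat_lit 0x3200000011808008800000026040050002000a0008090102))) 
(.lf (nat_lit 3350668) (dlOf (nat_lit 1) (nat_lit 0x400400060008200102)))) 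
(.lf (nat_lit 4160960140) (dlOf (nat_lit 4) (nat_lit 0x3602b0003301000c0158001940800180ac00000040014004004c00080a9e02)))) 
(.nd (nat_lit 10) (.lf (nat_lit 5033369996) (dlOf (nat_lit 1) (nat_lit 0x260008091001))) 
(.lf (nat_lit 2818782604) (dlOf (nat_lit 1) (nat_lit 0xba00080128002029c0008129903))))) 
(.nd (nat_lit 26) (.nd (nat_lit 21) 
(.lf (nat_lit 4563609996) (dlOf (nat_lit 1) (nat_lit 0x480028094e81))) 
(.lf (nat_lit 31664524) (dlOf (nat_lit 1) (nat_lit 0x400200020008e94e82)))) (.nd (nat_lit 10) 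
(.nd (nat_lit 20) (.lf (nat_lit 1409493388) (dlOf (nat_lit 1) (nat_lit 0x20028004e81))) 
(.lf (nat_lit 4094896524) (dlOf (nat_lit 1) (nat_lit 0x20028054e81)))) 
(.lf (nat_lit 1543712140) (dlOf (nat_lit 1) (nat_lit 0x8004000c0008146c82))))))) (.nd (nat_lit 8) 
(.nd (nat_lit 20) (.nd (nat_lit 26) (.nd (nat_lit 19) (.nd (nat_lit 27) 
(.lf (nat_lit 3758563340) (dlOf (nat_lit 2) (nat_lit 0x6030005e98182a0280))) 
(.lf (nat_lit 3624345612) (dlOf (nat_lit 4) (nat_lit 0x380dc000fa04001006e0007c0200260370003a818170480)))) 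
(.lf (nat_lit 11477004) (dlOf (nat_lit 2) (nat_lit 0x1c0000026b02000200186a0501)))) 
(.nd (nat_lit 27) (.lf (nat_lit 3020365836) (dlOf (nat_lit 2) (nat_lit 0x60300031f0182a0280))) 
(.lf (nat_lit 2886148108) (dlOf (nat_lit 4) (nat_lit 0x380dc000fa04001006e0007c0200260370003a818170480))))) 
(.nd (nat_lit 19) (.nd (nat_lit 21) 
(.lf (nat_lit 9904140) (dlOf (nat_lit 1) (nat_lit 0x90008000400200100008590083))) 
(.lf (nat_lit 3612684) (dlOf (nat_lit 2) (nat_lit 0x255100506018210680)))) (.nd (nat_lit 7) 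
(.nd (nat_lit 21) (.lf (nat_lit 23011340) (dlOf (nat_lit 2) (nat_lit 0xe0000001d818b40100))) 
(.lf (nat_lit 12525580) (dlOf (nat_lit 1) (nat_lit 0x20004000800086d0682)))) 
(.lf (nat_lit 2039948) (dlOf (nat_lit 1) (nat_lit 0x60008150101)))))) (.nd (nat_lit 28) 
(.nd (nat_lit 7) (.nd (nat_lit 20) 
(.lf (nat_lit 19865868) (dlOf (nat_lit 1) (nat_lit 0x8002000200089d0a82))) 
(.lf (nat_lit 6234380) (dlOf (nat_lit 1) (nat_lit 0x440028420701)))) (.nd (nat_lit 11) 
(.lf (nat_lit 54993292) (dlOf (nat_lit 3) (nat_lit 0x1a03c0021b01000801e0010cc0800f8008005c002001c0009685d83))) 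
(.lf (nat_lit 19872140) (dlOf (nat_lit 1) (nat_lit 0x80080008002000200089daf83))))) 
(.nd (nat_lit 10) (.nd (nat_lit 20) (.nd (nat_lit 21) 
(.lf (nat_lit 1476864396) (dlOf (nat_lit 1) (nat_lit 0x400400060018284e82))) 
(.lf (nat_lit 5773928844) (dlOf (nat_lit 1) (nat_lit 0xa00180e4e81)))) 
(.lf (nat_lit 1008150924) (dlOf (nat_lit 1) (nat_lit 0x120028a44e81)))) 
(.lf (nat_lit 3490131340) (dlOf (nat_lit 2) (nat_lit 0x40f6000180200020028006c81)))))))) 
(.nd (nat_lit 18) (.nd (nat_lit 16) (.nd (nat_lit 28) (.nd (nat_lit 26) (.nd (nat_lit 8) 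
(.nd (nat_lit 19) 
(.lf (nat_lit 30580748) (dlOf (nat_lit 2) (nat_lit 0x5b74800e8804003800200140008e40782))) 
(.nd (nat_lit 27) 
(.lf (nat_lit 3221921804) (dlOf (nat_lit 5) (nat_lit 0x580bc003620401e4080001ae0200c0040000d681006e0200006b0080a08008011c002020400081b0083))) 
(.lf (nat_lit 134914060) (dlOf (nat_lit 1) (nat_lit 0x60002006c00080e0082))))) (.nd (nat_lit 7) 
(.lf (nat_lit 4295139596) (dlOf (nat_lit 1) (nat_lit 0x400400020008090482))) (.nd (nat_lit 20) 
(.lf (nat_lit 46836108) (dlOf (nat_lit 1) (nat_lit 0x400400020009384e82))) 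
(.lf (nat_lit 56273292) (dlOf (nat_lit 2) (nat_lit 0x926c0183604002c00200020009734e82)))))) 
(.nd (nat_lit 27) (.nd (nat_lit 8) (.nd (nat_lit 29) 
(.lf (nat_lit 67805196) (dlOf (nat_lit 1) (nat_lit 0xa00080034002002400082f0583))) 
(.lf (nat_lit 1678417932) (dlOf (nat_lit 2) (nat_lit 0xca02b00091c0803c0008002400200700008210083)))) 
(.lf (nat_lit 1141025548) (dlOf (nat_lit 2) (nat_lit 0x9404c005600d00017828095b00)))) 
(.nd (nat_lit 19) 
(.lf (nat_lit 3422724108) (dlOf (nat_lit 1) (nat_lit 0x48008002400200140008090083))) 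
(.nd (nat_lit 29) (.lf (nat_lit 202022924) (dlOf (nat_lit 1) (nat_lit 0x60002006c00080e0082))) 
(.lf (nat_lit 3960119308) (dlOf (nat_lit 5) (nat_lit 0x580bc004980401e4080002490200c00400012401006e02000091c080a08008011c002020400081b0083))))))) 
(.nd (nat_lit 27) (.nd (nat_lit 8) (.nd (nat_lit 9) (.nd (nat_lit 19) 
(.lf (nat_lit 6711058444) (dlOf (nat_lit 2) (nat_lit 0x200280334c080008008000800200060008060a03))) 
(.lf (nat_lit 806002700) (dlOf (nat_lit 2) (nat_lit 0xca02b0006b00803c0008002400200700008210083)))) 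
(.lf (nat_lit 3556942348) (dlOf (nat_lit 1) (nat_lit 0xb20008107b01)))) (.nd (nat_lit 7) 
(.nd (nat_lit 10) 
(.lf (nat_lit 3556942092) (dlOf (nat_lit 2) (nat_lit 0x800a0000002001a0008103a01))) 
(.lf (nat_lit 805481740) (dlOf (nat_lit 3) (nat_lit 0x201300012010004029800078080050008001c00200080008116683)))) 
(.lf (nat_lit 5637318028) (dlOf (nat_lit 1) (nat_lit 0x200180d3601))))) (.nd (nat_lit 10) 
(.nd (nat_lit 7) (.nd (nat_lit 30) 
(.lf (nat_lit 4764901388) (dlOf (nat_lit 3) (nat_lit 0x4402800df5020018014006fa018060a00))) 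
(.lf (nat_lit 3691159564) (dlOf (nat_lit 1) (nat_lit 0x3a0028050001)))) 
(.lf (nat_lit 6308405644) (dlOf (nat_lit 1) (nat_lit 0x30008002400200080008075d83)))) 
(.nd (nat_lit 7) (.nd (nat_lit 9) 
(.lf (nat_lit 2080547852) (dlOf (nat_lit 1) (nat_lit 0x400400020008092882))) 
(.lf (nat_lit 2013439500) (dlOf (nat_lit 1) (nat_lit 0x4004000e0008093682)))) 
(.lf (nat_lit 2013439628) (dlOf (nat_lit 1) (nat_lit 0x800400020008093a02))))))) (.nd (nat_lit 19) 
(.nd (nat_lit 27) (.nd (nat_lit 7) (.nd (nat_lit 9) (.nd (nat_lit 20) 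
(.lf (nat_lit 1342414860) (dlOf (nat_lit 2) (nat_lit 0x2091c003be04002000200200008020482))) 
(.lf (nat_lit 24354828) (dlOf (nat_lit 1) (nat_lit 0x20018b90681)))) 
(.lf (nat_lit 4832077324) (dlOf (nat_lit 1) (nat_lit 0x1b000080d3681)))) (.nd (nat_lit 9) 
(.lf (nat_lit 3383436) (dlOf (nat_lit 1) (nat_lit 0xc00400020008200102))) 
(.lf (nat_lit 4899187340) (dlOf (nat_lit 1) (nat_lit 0xc00180d5481))))) (.nd (nat_lit 26) 
(.nd (nat_lit 10) 
(.lf (nat_lit 3355680780) (dlOf (nat_lit 2) (nat_lit 0x40000050202000200180c0281))) 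
(.lf (nat_lit 6308473868) (dlOf (nat_lit 1) (nat_lit 0x4002004600080d5f82)))) (.nd (nat_lit 28) 
(.lf (nat_lit 4496531468) (dlOf (nat_lit 1) (nat_lit 0x4002000200080d0002))) (.nd (nat_lit 31) 
(.lf (nat_lit 469999628) (dlOf (nat_lit 2) (nat_lit 0x2091c0029c04002000200200008020482))) 
(.lf (nat_lit 2617483276) (dlOf (nat_lit 1) (nat_lit 0x1400180c0281))))))) (.nd (nat_lit 21) 
(.nd (nat_lit 8) (.nd (nat_lit 20) 
(.lf (nat_lit 21733388) (dlOf (nat_lit 1) (nat_lit 0x2d8008008800200580008a60a03))) 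
(.nd (nat_lit 23) (.lf (nat_lit 4095451148) (dlOf (nat_lit 1) (nat_lit 0x4004003e00080b0a02))) 
(.lf (nat_lit 10199052) (dlOf (nat_lit 1) (nat_lit 0x200185c0481))))) (.nd (nat_lit 10) 
(.lf (nat_lit 9150732) (dlOf (nat_lit 1) (nat_lit 0x20018524801))) 
(.lf (nat_lit 67878156) (dlOf (nat_lit 1) (nat_lit 0x1800800040020002000833c603))))) 
(.nd (nat_lit 20) (.nd (nat_lit 23) (.nd (nat_lit 26) 
(.lf (nat_lit 1345036300) (dlOf (nat_lit 2) (nat_lit 0x70a68000000800a00080038002003c00089d0183))) 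
(.lf (nat_lit 472621068) (dlOf (nat_lit 2) (nat_lit 0x70b000009c080030008000c002001000089d0183)))) 
(.lf (nat_lit 28024844) (dlOf (nat_lit 1) (nat_lit 0x720008d50181)))) (.nd (nat_lit 7) 
(.lf (nat_lit 50045964) (dlOf (nat_lit 1) (nat_lit 0xc00294c2881))) 
(.lf (nat_lit 20689804) (dlOf (nat_lit 1) (nat_lit 0x2a00189d9001)))))))) (.nd (nat_lit 16) 
(.nd (nat_lit 19) (.nd (nat_lit 29) (.nd (nat_lit 32) (.nd (nat_lit 7) (.nd (nat_lit 20) 
(.lf (nat_lit 13017100) (dlOf (nat_lit 1) (nat_lit 0x200186f0081))) 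
(.lf (nat_lit 35037196) (dlOf (nat_lit 1) (nat_lit 0x8008000400200020008fc0083)))) 
(.lf (nat_lit 20359564) (dlOf (nat_lit 1) (nat_lit 0x1c00089d4e81)))) (.nd (nat_lit 26) 
(.nd (nat_lit 30) 
(.lf (nat_lit 4563836940) (dlOf (nat_lit 3) (nat_lit 0x1004a00df5020006025006fa0180f0a00))) 
(.lf (nat_lit 5637578764) (dlOf (nat_lit 1) (nat_lit 0x28008000800200100008110083)))) 
(.lf (nat_lit 4496728076) (dlOf (nat_lit 1) (nat_lit 0x400200020008160002))))) (.nd (nat_lit 26) 
(.nd (nat_lit 30) (.nd (nat_lit 27) 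
(.lf (nat_lit 805740556) (dlOf (nat_lit 1) (nat_lit 0x600281a0001))) 
(.lf (nat_lit 2819006476) (dlOf (nat_lit 4) (nat_lit 0x400fc03b0a04014007e01d8302003a03f00000018150000)))) 
(.nd (nat_lit 7) 
(.lf (nat_lit 3758530572) (dlOf (nat_lit 1) (nat_lit 0x8008000400200020008270183))) 
(.lf (nat_lit 1611047308) (dlOf (nat_lit 1) (nat_lit 0x88008013c002009600080c5d83))))) 
(.nd (nat_lit 7) (.nd (nat_lit 27) 
(.lf (nat_lit 6241558540) (dlOf (nat_lit 1) (nat_lit 0x28008000800200100008110083))) 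
(.lf (nat_lit 4228292620) (dlOf (nat_lit 1) (nat_lit 0x60028090001)))) 
(.lf (nat_lit 738632076) (dlOf (nat_lit 5) (nat_lit 0x40b4005ee02000e05a00110028017b410002815c00bd80400280b4000405700040028017a4180490008010c002003e00080c5d83)))))) 
(.nd (nat_lit 22) (.nd (nat_lit 9) (.nd (nat_lit 8) 
(.lf (nat_lit 2753470476) (dlOf (nat_lit 1) (nat_lit 0x400200020008090002))) 
(.lf (nat_lit 5772322060) (dlOf (nat_lit 1) (nat_lit 0x20008092f81)))) (.nd (nat_lit 20) 
(.lf (nat_lit 1410245132) (dlOf (nat_lit 1) (nat_lit 0x2600281b0d81))) 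
(.lf (nat_lit 3491668492) (dlOf (nat_lit 1) (nat_lit 0x100018090d81))))) (.nd (nat_lit 23) 
(.nd (nat_lit 7) (.lf (nat_lit 22978572) (dlOf (nat_lit 1) (nat_lit 0x4002000c0008b40102))) 
(.lf (nat_lit 8298892) (dlOf (nat_lit 1) (nat_lit 0x400200020008511002)))) (.nd (nat_lit 20) 
(.lf (nat_lit 15638540) (dlOf (nat_lit 1) (nat_lit 0x2a0028810281))) 
(.lf (nat_lit 16687116) (dlOf (nat_lit 1) (nat_lit 0x4002000200088d0282))))))) (.nd (nat_lit 7) 
(.nd (nat_lit 21) (.nd (nat_lit 31) (.nd (nat_lit 19) (.nd (nat_lit 8) 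
(.lf (nat_lit 9936908) (dlOf (nat_lit 1) (nat_lit 0x400200020008590082))) 
(.lf (nat_lit 5906080012) (dlOf (nat_lit 1) (nat_lit 0x9400281a7d01)))) (.nd (nat_lit 22) 
(.lf (nat_lit 17801228) (dlOf (nat_lit 1) (nat_lit 0x4004000200188f0782))) 
(.lf (nat_lit 47161356) (dlOf (nat_lit 1) (nat_lit 0xc00293b0001))))) (.nd (nat_lit 20) 
(.nd (nat_lit 27) 
(.lf (nat_lit 2416418828) (dlOf (nat_lit 2) (nat_lit 0x2012000100780008034015cc0c0008002001800081c0682))) 
(.lf (nat_lit 2550636556) (dlOf (nat_lit 2) (nat_lit 0x201200010078000803400ad60c0008002001800081c0682)))) 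
(.lf (nat_lit 2753011724) (dlOf (nat_lit 3) (nat_lit 0x50448009ac0800b82200049204000c00400100008070502))))) 
(.nd (nat_lit 9) (.nd (nat_lit 19) (.nd (nat_lit 20) 
(.lf (nat_lit 61317132) (dlOf (nat_lit 1) (nat_lit 0xc00400100009920002))) 
(.lf (nat_lit 3645452) (dlOf (nat_lit 1) (nat_lit 0x20008002000200080008210683)))) 
(.lf (nat_lit 20946956) (dlOf (nat_lit 1) (nat_lit 0x80080004002000200089f0003)))) 
(.nd (nat_lit 10) 
(.lf (nat_lit 24093196) (dlOf (nat_lit 2) (nat_lit 0x470ba00238590002be1800594180018008000400200060008b80d83))) 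
(.lf (nat_lit 61318668) (dlOf (nat_lit 1) (nat_lit 0xc0002019c0009923682)))))) (.nd (nat_lit 28) 
(.nd (nat_lit 26) (.lf (nat_lit 134717580) (dlOf (nat_lit 1) (nat_lit 0x400400020008090102))) 
(.nd (nat_lit 27) 
(.lf (nat_lit 1678221452) (dlOf (nat_lit 5) (nat_lit 0x200288000d4080060144000660400500a2005803a0001882000c0288000a8080300008000400200a800081a0103))) 
(.lf (nat_lit 201826444) (dlOf (nat_lit 1) (nat_lit 0x400400020008090102))))) (.nd (nat_lit 8) 
(.nd (nat_lit 9) 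
(.lf (nat_lit 805806220) (dlOf (nat_lit 5) (nat_lit 0x200288000d4080060144000660400500a2005803a0001882000c0288000a8080300008000400200a800081a0103))) 
(.lf (nat_lit 6376368780) (dlOf (nat_lit 1) (nat_lit 0x400200020008095482)))) 
(.lf (nat_lit 470262156) (dlOf (nat_lit 1) (nat_lit 0x200180c0781)))))))))) (.nd (nat_lit 15) 
(.nd (nat_lit 13) (.nd (nat_lit 8) (.nd (nat_lit 16) (.nd (nat_lit 30) (.nd (nat_lit 24) 
(.nd (nat_lit 19) (.nd (nat_lit 7) (.nd (nat_lit 28) (.nd (nat_lit 20) 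
(.lf (nat_lit 12714060) (dlOf (nat_lit 1) (nat_lit 0x200186d0f01))) 
(.lf (nat_lit 2752643148) (dlOf (nat_lit 1) (nat_lit 0x10008005800200060008020903)))) 
(.nd (nat_lit 27) (.lf (nat_lit 2416050252) (dlOf (nat_lit 1) (nat_lit 0x8e0008020901))) 
(.lf (nat_lit 2550267980) (dlOf (nat_lit 1) (nat_lit 0x8e0008020901))))) (.nd (nat_lit 20) 
(.lf (nat_lit 2755789004) (dlOf (nat_lit 2) (nat_lit 0x407e001d102000400081b0481))) 
(.lf (nat_lit 43122892) (dlOf (nat_lit 1) (nat_lit 0x224002026600092a0882))))) (.nd (nat_lit 18) 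
(.nd (nat_lit 20) 
(.lf (nat_lit 805961804) (dlOf (nat_lit 8) (nat_lit 0x22055017302700b980dc096801400360060001905000702a80fa813807a806e00040120288005001300180006018048409c024a0370277005000e00180005c10042809c02480370001682000302a80f88138079c06e0002012028600500110018000561800180aa03e604e01e901b800080480a300140046006000150601180050000a408002800802b400204860008201503))) 
(.lf (nat_lit 10092620) (dlOf (nat_lit 1) (nat_lit 0x280002000200085b0902)))) (.nd (nat_lit 7) 
(.lf (nat_lit 917580) (dlOf (nat_lit 3) (nat_lit 0xa1f100050ba000485a8008c15e00420a30000585002d0f8801685d000000080104004000c0018030f82))) 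
(.lf (nat_lit 12452044) (dlOf (nat_lit 1) (nat_lit 0x4004000600086c0482)))))) (.nd (nat_lit 7) 
(.nd (nat_lit 18) (.nd (nat_lit 21) 
(.lf (nat_lit 25296972) (dlOf (nat_lit 1) (nat_lit 0x400400020008bf0d02))) 
(.lf (nat_lit 52559948) (dlOf (nat_lit 2) (nat_lit 0x16b04000c17f2005cb27002c53d0017a9a00007014003000400100019550682)))) 
(.nd (nat_lit 21) (.lf (nat_lit 54919244) (dlOf (nat_lit 1) (nat_lit 0x8008000400200020009670603))) 
(.lf (nat_lit 61210700) (dlOf (nat_lit 1) (nat_lit 0x4f0008000400200a400098e0683))))) 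
(.nd (nat_lit 9) (.lf (nat_lit 20060364) (dlOf (nat_lit 1) (nat_lit 0x800289da881))) 
(.nd (nat_lit 18) (.lf (nat_lit 20058828) (dlOf (nat_lit 1) (nat_lit 0x80080004002000200089d8c83))) 
(.lf (nat_lit 19796684) (dlOf (nat_lit 1) (nat_lit 0x80080004002000200089d8c83))))))) 
(.nd (nat_lit 26) (.nd (nat_lit 18) (.nd (nat_lit 28) (.nd (nat_lit 9) 
(.lf (nat_lit 3221880908) (dlOf (nat_lit 5) (nat_lit 0xc03c0002702000601e0001201003200f00008c08034814401a406a014201f006400f0000002000a800800c8002003600081a1503))) 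
(.lf (nat_lit 3355574860) (dlOf (nat_lit 4) (nat_lit 0x4805c0002302001602e000110100300170000840802700080004002009400080a1603)))) 
(.nd (nat_lit 7) 
(.lf (nat_lit 3490840652) (dlOf (nat_lit 1) (nat_lit 0x10008005800200060008020903))) 
(.lf (nat_lit 3493986508) (dlOf (nat_lit 1) (nat_lit 0x18004000200181b0482))))) (.nd (nat_lit 7) 
(.nd (nat_lit 21) (.lf (nat_lit 4026925132) (dlOf (nat_lit 2) (nat_lit 0x164020000210180d0d00))) 
(.lf (nat_lit 1881538636) (dlOf (nat_lit 1) (nat_lit 0x178008006c00200360008f40683)))) 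
(.lf (nat_lit 5773328588) (dlOf (nat_lit 1) (nat_lit 0x4002000200080c1782))))) (.nd (nat_lit 11) 
(.nd (nat_lit 18) (.nd (nat_lit 27) 
(.lf (nat_lit 1678377036) (dlOf (nat_lit 4) (nat_lit 0x800028001ea04004009c001a0370002f820025009800134080040008001000200300008201883))) 
(.lf (nat_lit 3960078412) (dlOf (nat_lit 2) (nat_lit 0x84040000280181a1880)))) (.nd (nat_lit 7) 
(.lf (nat_lit 3288727628) (dlOf (nat_lit 2) (nat_lit 0x164020000248180d0d00))) 
(.lf (nat_lit 2080768204) (dlOf (nat_lit 1) (nat_lit 0x30004001a00180c1782))))) (.nd (nat_lit 12) 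
(.lf (nat_lit 1677854796) (dlOf (nat_lit 2) (nat_lit 0x400e0006f818114700))) (.nd (nat_lit 27) 
(.lf (nat_lit 1677858892) (dlOf (nat_lit 2) (nat_lit 0x202b00087408027000800100020088000811a683))) 
(.lf (nat_lit 3959560268) (dlOf (nat_lit 1) (nat_lit 0x3c40040038000811a682)))))))) 
(.nd (nat_lit 19) (.nd (nat_lit 31) (.nd (nat_lit 18) (.nd (nat_lit 9) 
(.lf (nat_lit 62062668) (dlOf (nat_lit 2) (nat_lit 0x1086c000000200060029940601))) 
(.nd (nat_lit 28) (.lf (nat_lit 6039994956) (dlOf (nat_lit 1) (nat_lit 0x200180b1601))) 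
(.lf (nat_lit 939721292) (dlOf (nat_lit 2) (nat_lit 0x201f00014018158d80))))) (.nd (nat_lit 22) 
(.nd (nat_lit 26) (.lf (nat_lit 1611071564) (dlOf (nat_lit 1) (nat_lit 0x200280d0501))) 
(.lf (nat_lit 738656332) (dlOf (nat_lit 1) (nat_lit 0x200280d0501)))) 
(.lf (nat_lit 38207564) (dlOf (nat_lit 1) (nat_lit 0x12c0019130001))))) (.nd (nat_lit 9) 
(.nd (nat_lit 18) 
(.lf (nat_lit 2755854540) (dlOf (nat_lit 3) (nat_lit 0x1306700038e04000435a00021a000010cf000086700024324000216d00010b5800085a400042be000c15200010a6800084d4000425c00021280001092000084780038a400004004000400181b0482))) 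
(.nd (nat_lit 27) (.lf (nat_lit 2416378060) (dlOf (nat_lit 1) (nat_lit 0x200081b0481))) 
(.lf (nat_lit 2550595788) (dlOf (nat_lit 1) (nat_lit 0x200081b0481))))) (.nd (nat_lit 7) 
(.nd (nat_lit 21) 
(.lf (nat_lit 4228055628) (dlOf (nat_lit 2) (nat_lit 0x102000118c0800800080030002002e0008018b03))) 
(.lf (nat_lit 2753757772) (dlOf (nat_lit 2) (nat_lit 0x21d800000018091180)))) 
(.lf (nat_lit 3556971212) (dlOf (nat_lit 1) (nat_lit 0x20018128c81)))))) (.nd (nat_lit 28) 
(.nd (nat_lit 7) (.nd (nat_lit 18) 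
(.lf (nat_lit 537591884) (dlOf (nat_lit 2) (nat_lit 0xc0520002b0180c1880))) (.nd (nat_lit 20) 
(.lf (nat_lit 21954636) (dlOf (nat_lit 1) (nat_lit 0x8008000400200020008a80f83))) 
(.lf (nat_lit 52363340) (dlOf (nat_lit 1) (nat_lit 0x400400020019530682))))) (.nd (nat_lit 10) 
(.nd (nat_lit 20) (.lf (nat_lit 26149068) (dlOf (nat_lit 1) (nat_lit 0x400200020008c10482))) 
(.lf (nat_lit 2031820) (dlOf (nat_lit 2) (nat_lit 0x25d57c00aeab600123828150480)))) 
(.lf (nat_lit 2754546892) (dlOf (nat_lit 1) (nat_lit 0x60002000600080f6402))))) (.nd (nat_lit 20) 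
(.nd (nat_lit 18) (.nd (nat_lit 21) 
(.lf (nat_lit 1410007116) (dlOf (nat_lit 1) (nat_lit 0x80080004002000200080c1503))) 
(.lf (nat_lit 472580172) (dlOf (nat_lit 2) (nat_lit 0x80ea0004802000200289c0681)))) 
(.lf (nat_lit 470745164) (dlOf (nat_lit 2) (nat_lit 0x20000000000200480008170681)))) 
(.nd (nat_lit 7) (.lf (nat_lit 3493790284) (dlOf (nat_lit 1) (nat_lit 0x400081b1181))) 
(.nd (nat_lit 26) (.lf (nat_lit 1344209100) (dlOf (nat_lit 1) (nat_lit 0x20008490481))) 
(.lf (nat_lit 471793868) (dlOf (nat_lit 1) (nat_lit 0x20008490481))))))))) (.nd (nat_lit 7) 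
(.nd (nat_lit 18) (.nd (nat_lit 29) (.nd (nat_lit 16) (.nd (nat_lit 20) (.nd (nat_lit 10) 
(.lf (nat_lit 2228556) (dlOf (nat_lit 2) (nat_lit 0xdea6d003651a8000cc1000a000800b000200480008150603))) 
(.lf (nat_lit 3221364044) (dlOf (nat_lit 1) (nat_lit 0xa000811c901)))) (.nd (nat_lit 19) 
(.lf (nat_lit 3277132) (dlOf (nat_lit 2) (nat_lit 0xa64b200019018200600))) 
(.lf (nat_lit 12190028) (dlOf (nat_lit 1) (nat_lit 0x200186c0601))))) (.nd (nat_lit 9) 
(.nd (nat_lit 19) (.lf (nat_lit 3342668) (dlOf (nat_lit 1) (nat_lit 0x4004000a0008200602))) 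
(.lf (nat_lit 5773132108) (dlOf (nat_lit 2) (nat_lit 0x684bc014f604005000400be00180a6682)))) 
(.lf (nat_lit 20122444) (dlOf (nat_lit 1) (nat_lit 0x4002000200089d5c02))))) (.nd (nat_lit 27) 
(.nd (nat_lit 12) (.nd (nat_lit 9) 
(.lf (nat_lit 1677855052) (dlOf (nat_lit 1) (nat_lit 0x1000200060008114d82))) 
(.lf (nat_lit 6241258316) (dlOf (nat_lit 1) (nat_lit 0x5c00280d5c01)))) (.nd (nat_lit 10) 
(.lf (nat_lit 1677859148) (dlOf (nat_lit 1) (nat_lit 0x2001811ab81))) 
(.lf (nat_lit 805444940) (dlOf (nat_lit 1) (nat_lit 0x680080018002005c000811c903))))) 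
(.nd (nat_lit 9) (.nd (nat_lit 16) 
(.lf (nat_lit 3959556428) (dlOf (nat_lit 1) (nat_lit 0x458008000400200440008114d83))) 
(.lf (nat_lit 2885880140) (dlOf (nat_lit 1) (nat_lit 0x40028144d81)))) 
(.lf (nat_lit 2885879628) (dlOf (nat_lit 1) (nat_lit 0x400400020008143e82)))))) (.nd (nat_lit 24) 
(.nd (nat_lit 16) (.nd (nat_lit 10) 
(.lf (nat_lit 12452172) (dlOf (nat_lit 2) (nat_lit 0xe488000198186c0600))) (.nd (nat_lit 12) 
(.lf (nat_lit 403047756) (dlOf (nat_lit 1) (nat_lit 0xc00080e3301))) 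
(.lf (nat_lit 471733580) (dlOf (nat_lit 1) (nat_lit 0x80080004002000200083d9903))))) 
(.nd (nat_lit 28) (.nd (nat_lit 19) 
(.lf (nat_lit 3604812) (dlOf (nat_lit 2) (nat_lit 0xe04b20070250000c0fe4000640c001000200020008200602))) 
(.lf (nat_lit 2031948) (dlOf (nat_lit 2) (nat_lit 0xb551a003c99300019828150600)))) 
(.nd (nat_lit 26) 
(.lf (nat_lit 1344209228) (dlOf (nat_lit 2) (nat_lit 0x542c4004e012001f008000c003c0006610000800400040018490602))) 
(.lf (nat_lit 471793996) (dlOf (nat_lit 2) (nat_lit 0x542c4004e048001f022800c01100006410000800400040018490602)))))) 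
(.nd (nat_lit 9) (.nd (nat_lit 10) (.nd (nat_lit 19) 
(.lf (nat_lit 58065228) (dlOf (nat_lit 2) (nat_lit 0x124300001e40800100080020002000800097b8883))) 
(.lf (nat_lit 23986508) (dlOf (nat_lit 2) (nat_lit 0x3cc1700019018b80600)))) 
(.lf (nat_lit 19799372) (dlOf (nat_lit 1) (nat_lit 0x480080018002000800089dc903)))) 
(.nd (nat_lit 10) (.nd (nat_lit 19) 
(.lf (nat_lit 20319052) (dlOf (nat_lit 1) (nat_lit 0x4002000200089d5c02))) 
(.lf (nat_lit 19794764) (dlOf (nat_lit 1) (nat_lit 0x4002000200089d5c02)))) 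
(.lf (nat_lit 19795788) (dlOf (nat_lit 1) (nat_lit 0x80080004002000400089d7783))))))) 
(.nd (nat_lit 16) (.nd (nat_lit 18) (.nd (nat_lit 11) (.nd (nat_lit 9) 
(.lf (nat_lit 1610745292) (dlOf (nat_lit 1) (nat_lit 0x1000200060008093602))) 
(.lf (nat_lit 5637276620) (dlOf (nat_lit 1) (nat_lit 0x80080004002000200080d2883)))) 
(.nd (nat_lit 19) (.nd (nat_lit 22) 
(.lf (nat_lit 5771495884) (dlOf (nat_lit 1) (nat_lit 0xc00200060008004e82))) 
(.lf (nat_lit 474089932) (dlOf (nat_lit 1) (nat_lit 0x3c8008009c00201e60009084e83)))) 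
(.lf (nat_lit 46795212) (dlOf (nat_lit 2) (nat_lit 0x233c80040738019640800c000400100009384e82))))) 
(.nd (nat_lit 27) (.nd (nat_lit 9) (.nd (nat_lit 22) 
(.lf (nat_lit 4362469836) (dlOf (nat_lit 2) (nat_lit 0x5380cc0000004007400400120008090982))) 
(.lf (nat_lit 21365196) (dlOf (nat_lit 1) (nat_lit 0x20018a37101)))) 
(.lf (nat_lit 4095607756) (dlOf (nat_lit 1) (nat_lit 0x4004000200080e2882)))) (.nd (nat_lit 9) 
(.nd (nat_lit 11) 
(.lf (nat_lit 4228252108) (dlOf (nat_lit 2) (nat_lit 0x5380c80000004007400400120008090982))) 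
(.lf (nat_lit 473303500) (dlOf (nat_lit 1) (nat_lit 0x20008e94e81)))) 
(.lf (nat_lit 472777676) (dlOf (nat_lit 4) (nat_lit 0x1302ca0166e02008816500b368100540b2805388080020008006800200080008b02883)))))) 
(.nd (nat_lit 26) (.nd (nat_lit 18) (.nd (nat_lit 11) (.nd (nat_lit 19) 
(.lf (nat_lit 1245644) (dlOf (nat_lit 1) (nat_lit 0x200080a7101))) 
(.lf (nat_lit 3491430860) (dlOf (nat_lit 4) (nat_lit 0xb1079c0007a04025c3ce0000502035a1e701320eb008f07380004300000813b004d09b00000030019800802a400200a40008090983)))) 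
(.lf (nat_lit 51579340) (dlOf (nat_lit 1) (nat_lit 0xc00400020009514e82)))) (.nd (nat_lit 9) 
(.nd (nat_lit 12) (.lf (nat_lit 3221684684) (dlOf (nat_lit 1) (nat_lit 0x20008170981))) 
(.lf (nat_lit 19861964) (dlOf (nat_lit 1) (nat_lit 0x400189d8681)))) 
(.lf (nat_lit 3492742092) (dlOf (nat_lit 2) (nat_lit 0x1010005ee4080028008000c002000c00080f2883))))) 
(.nd (nat_lit 30) (.nd (nat_lit 9) 
(.lf (nat_lit 2753233356) (dlOf (nat_lit 4) (nat_lit 0xb107e40007c04025c3f20000502035a1f901320f5808f078c0004300000813b004d09b00000030019800802a400200a40008090983))) 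
(.nd (nat_lit 10) (.lf (nat_lit 5167580108) (dlOf (nat_lit 1) (nat_lit 0xa00180d2881))) 
(.lf (nat_lit 2885879756) (dlOf (nat_lit 2) (nat_lit 0x203700008818144480))))) (.nd (nat_lit 11) 
(.nd (nat_lit 18) (.lf (nat_lit 3825402316) (dlOf (nat_lit 1) (nat_lit 0x400400020008157102))) 
(.lf (nat_lit 3959882188) (dlOf (nat_lit 1) (nat_lit 0x20008170981)))) 
(.lf (nat_lit 3556973004) (dlOf (nat_lit 1) (nat_lit 0x40040002000812b082))))))))) 
(.nd (nat_lit 16) (.nd (nat_lit 18) (.nd (nat_lit 31) (.nd (nat_lit 28) (.nd (nat_lit 8) 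
(.nd (nat_lit 19) (.nd (nat_lit 7) (.nd (nat_lit 23) 
(.lf (nat_lit 6107045964) (dlOf (nat_lit 1) (nat_lit 0x20008040501))) 
(.lf (nat_lit 25305164) (dlOf (nat_lit 2) (nat_lit 0x2645800cf0e0000460400040028bf0d01)))) 
(.lf (nat_lit 28451020) (dlOf (nat_lit 1) (nat_lit 0x580028da0481)))) (.nd (nat_lit 7) 
(.nd (nat_lit 23) 
(.lf (nat_lit 1678385228) (dlOf (nat_lit 2) (nat_lit 0xe02b000134080230008004c002001a0008201883))) 
(.lf (nat_lit 42606668) (dlOf (nat_lit 1) (nat_lit 0x20019260681)))) 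
(.lf (nat_lit 53093580) (dlOf (nat_lit 1) (nat_lit 0x3400400060009572d82))))) (.nd (nat_lit 7) 
(.nd (nat_lit 10) 
(.lf (nat_lit 2236748) (dlOf (nat_lit 2) (nat_lit 0x3028d40006604001000200060008150602))) 
(.nd (nat_lit 19) 
(.lf (nat_lit 50472268) (dlOf (nat_lit 1) (nat_lit 0x200080018002000800094c3303))) 
(.lf (nat_lit 738862412) (dlOf (nat_lit 1) (nat_lit 0x8008000c00200040008123303))))) 
(.nd (nat_lit 11) 
(.lf (nat_lit 11674060) (dlOf (nat_lit 2) (nat_lit 0x31c5400000040018004000600086c0982))) 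
(.lf (nat_lit 35793356) (dlOf (nat_lit 1) (nat_lit 0x800200040009014e82)))))) (.nd (nat_lit 26) 
(.nd (nat_lit 19) (.nd (nat_lit 10) 
(.lf (nat_lit 4563542092) (dlOf (nat_lit 1) (nat_lit 0x80028090001))) 
(.lf (nat_lit 5637284940) (dlOf (nat_lit 1) (nat_lit 0xc00180d2881)))) (.nd (nat_lit 21) 
(.lf (nat_lit 805969996) (dlOf (nat_lit 7) (nat_lit 0x400550012027000900dc0048024000a00a00090030000c8300110154006009c002e0370018018800600900088024001800a00090030000c0400020138000406e000a02b00060120002004800080140002e0c00080550004027000200dc00100240002d08003c0550016027000a80dc0030056001a024002000900050028001c00c0002b10003a0550003029800a8138005406e001402b000d012000f80480054020001200a00070030000a85001200080008002034c0008201503))) 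
(.lf (nat_lit 1344938060) (dlOf (nat_lit 1) (nat_lit 0xf80080030002000400089a0683))))) 
(.nd (nat_lit 27) (.nd (nat_lit 29) 
(.lf (nat_lit 4630650956) (dlOf (nat_lit 1) (nat_lit 0x80080004002001c0008040503))) 
(.lf (nat_lit 5167521868) (dlOf (nat_lit 1) (nat_lit 0x240008080501)))) 
(.lf (nat_lit 4764868684) (dlOf (nat_lit 1) (nat_lit 0x80080004002001c0008040503)))))) 
(.nd (nat_lit 29) (.nd (nat_lit 27) (.nd (nat_lit 7) (.nd (nat_lit 19) (.nd (nat_lit 20) 
(.nd (nat_lit 26) (.lf (nat_lit 6711025740) (dlOf (nat_lit 1) (nat_lit 0x20008040501))) 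
(.lf (nat_lit 3288473676) (dlOf (nat_lit 1) (nat_lit 0xe400200540008020902)))) 
(.lf (nat_lit 3490848844) (dlOf (nat_lit 4) (nat_lit 0x6438a00341ae000020200160e2800c06b80000408007438a00421ae000200000000018038000800e000201560008030f83)))) 
(.lf (nat_lit 3492421708) (dlOf (nat_lit 1) (nat_lit 0x18008001c002000a00080d0d03)))) 
(.lf (nat_lit 3493994700) (dlOf (nat_lit 2) (nat_lit 0x32814c001c087000e88281b0480)))) 
(.nd (nat_lit 7) (.nd (nat_lit 8) 
(.lf (nat_lit 3355583052) (dlOf (nat_lit 4) (nat_lit 0x1180d0001805c0002304000602e0001101001201a00008408002000802bc002002600080a1603))) 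
(.lf (nat_lit 3624018252) (dlOf (nat_lit 2) (nat_lit 0x1b000000158080018008002c002000800080b0603)))) 
(.lf (nat_lit 3624018124) (dlOf (nat_lit 2) (nat_lit 0xc4000001d102012800180b0481))))) 
(.nd (nat_lit 27) (.nd (nat_lit 7) (.nd (nat_lit 19) (.nd (nat_lit 20) 
(.lf (nat_lit 4026671180) (dlOf (nat_lit 1) (nat_lit 0xe400200540008020902))) 
(.lf (nat_lit 2752651340) (dlOf (nat_lit 4) (nat_lit 0x643ae00341c3000020200160eb800c070c000040800743ae00421c3000200000000018038000800e000201560008030f83)))) 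
(.lf (nat_lit 2754224204) (dlOf (nat_lit 1) (nat_lit 0x18008001c002000a00080d0d03)))) 
(.lf (nat_lit 2751603660) (dlOf (nat_lit 1) (nat_lit 0x20018002881)))) (.nd (nat_lit 8) 
(.nd (nat_lit 7) (.lf (nat_lit 3959568460) (dlOf (nat_lit 1) (nat_lit 0x780040076000811a682))) 
(.lf (nat_lit 2885820620) (dlOf (nat_lit 2) (nat_lit 0xc4000001d102012800180b0481)))) 
(.nd (nat_lit 26) (.lf (nat_lit 3892453708) (dlOf (nat_lit 1) (nat_lit 0x400200020008128882))) 
(.lf (nat_lit 2885820748) (dlOf (nat_lit 2) (nat_lit 0x1b00000013c080018008002c002000800080b0603)))))))) 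
(.nd (nat_lit 8) (.nd (nat_lit 28) (.nd (nat_lit 25) (.nd (nat_lit 7) (.nd (nat_lit 9) 
(.lf (nat_lit 3288735820) (dlOf (nat_lit 2) (nat_lit 0x9e020000268180d0d00))) 
(.lf (nat_lit 2752389708) (dlOf (nat_lit 1) (nat_lit 0x400080008002000a0008018d83)))) 
(.lf (nat_lit 2755014348) (dlOf (nat_lit 1) (nat_lit 0xaa00280f7301)))) (.nd (nat_lit 19) 
(.nd (nat_lit 20) (.lf (nat_lit 54927436) (dlOf (nat_lit 1) (nat_lit 0x20029670601))) 
(.lf (nat_lit 49684556) (dlOf (nat_lit 1) (nat_lit 0x160009480681)))) 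
(.lf (nat_lit 59646028) (dlOf (nat_lit 1) (nat_lit 0x400400020019820682))))) (.nd (nat_lit 7) 
(.nd (nat_lit 21) (.nd (nat_lit 22) 
(.lf (nat_lit 4026933324) (dlOf (nat_lit 2) (nat_lit 0x9e020000230180d0d00))) 
(.lf (nat_lit 1346773068) (dlOf (nat_lit 1) (nat_lit 0x28008000400200020009000683)))) 
(.lf (nat_lit 1881546828) (dlOf (nat_lit 1) (nat_lit 0xa8008000c002000e0008f40683)))) 
(.nd (nat_lit 19) (.lf (nat_lit 1007034572) (dlOf (nat_lit 1) (nat_lit 0x1400400020018150482))) 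
(.lf (nat_lit 5773336780) (dlOf (nat_lit 1) (nat_lit 0xc004000600080c1782)))))) (.nd (nat_lit 19) 
(.nd (nat_lit 7) (.nd (nat_lit 9) (.nd (nat_lit 20) 
(.lf (nat_lit 69607756) (dlOf (nat_lit 1) (nat_lit 0x60008b68881))) 
(.lf (nat_lit 58073420) (dlOf (nat_lit 2) (nat_lit 0xb4300001e40800100080034002001000097b8883)))) 
(.lf (nat_lit 20327244) (dlOf (nat_lit 1) (nat_lit 0x4002000200089d5c02)))) (.nd (nat_lit 26) 
(.lf (nat_lit 134619596) (dlOf (nat_lit 1) (nat_lit 0x20018090981))) (.nd (nat_lit 27) 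
(.lf (nat_lit 4362478028) (dlOf (nat_lit 2) (nat_lit 0x283019800000080d9000804c400200460008090983))) 
(.nd (nat_lit 28) (.lf (nat_lit 201728460) (dlOf (nat_lit 1) (nat_lit 0x20018090981))) 
(.lf (nat_lit 4228260300) (dlOf (nat_lit 2) (nat_lit 0x283019000000080d9000804c400200460008090983))))))) 
(.nd (nat_lit 29) (.nd (nat_lit 7) (.nd (nat_lit 20) 
(.lf (nat_lit 1410212172) (dlOf (nat_lit 4) (nat_lit 0xa0000002981002d00000011c0800600000008a04004c004005800181b0602))) 
(.lf (nat_lit 12460364) (dlOf (nat_lit 2) (nat_lit 0x3a531000198186c0600)))) 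
(.lf (nat_lit 3490587084) (dlOf (nat_lit 1) (nat_lit 0x8008000400200020008017103)))) 
(.nd (nat_lit 26) (.nd (nat_lit 28) 
(.lf (nat_lit 537796940) (dlOf (nat_lit 4) (nat_lit 0xa0000002601002d0000001000800600000007c04004c004005800181b0602))) 
(.lf (nat_lit 1879974220) (dlOf (nat_lit 2) (nat_lit 0xb40e0000330200060018490601)))) 
(.lf (nat_lit 1007558988) (dlOf (nat_lit 2) (nat_lit 0xb414c000320200060018490601)))))))) 
(.nd (nat_lit 8) (.nd (nat_lit 27) (.nd (nat_lit 19) (.nd (nat_lit 30) (.nd (nat_lit 7) 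
(.nd (nat_lit 20) 
(.lf (nat_lit 6442655820) (dlOf (nat_lit 2) (nat_lit 0x480e8002404a001201a000900c00002c2000500080028002000c0008120f83))) 
(.lf (nat_lit 2752716876) (dlOf (nat_lit 4) (nat_lit 0x103ce000040200081e7000010100100f3800000080160008000c00200060008030f83)))) 
(.nd (nat_lit 12) (.lf (nat_lit 4295172300) (dlOf (nat_lit 1) (nat_lit 0x20028090481))) 
(.lf (nat_lit 8597708) (dlOf (nat_lit 1) (nat_lit 0x60028518001))))) (.nd (nat_lit 18) 
(.nd (nat_lit 20) (.lf (nat_lit 1342382156) (dlOf (nat_lit 1) (nat_lit 0x118004005a0008020902))) 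
(.lf (nat_lit 3490914380) (dlOf (nat_lit 4) (nat_lit 0x103a4000040200081d2000010100100e9000000080160008000c00200060008030f83)))) 
(.lf (nat_lit 1611079756) (dlOf (nat_lit 1) (nat_lit 0x800280d0501))))) (.nd (nat_lit 18) 
(.nd (nat_lit 24) (.nd (nat_lit 26) 
(.lf (nat_lit 537600076) (dlOf (nat_lit 1) (nat_lit 0x10004000a00180d0d02))) 
(.lf (nat_lit 1410015308) (dlOf (nat_lit 1) (nat_lit 0x10004000a00180d0d02)))) 
(.lf (nat_lit 17506380) (dlOf (nat_lit 4) (nat_lit 0x196f80008c020002b7c000458100055be0002240800080080004002000400088e0183)))) 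
(.nd (nat_lit 20) (.nd (nat_lit 7) (.nd (nat_lit 23) 
(.lf (nat_lit 21962828) (dlOf (nat_lit 3) (nat_lit 0x26458000f0e0000040400259160013c380000001000100080074002000e0008a80f83))) 
(.lf (nat_lit 30351436) (dlOf (nat_lit 4) (nat_lit 0x18bd8000890200025ec000440100052f6000218080008008000400200040008e30183)))) 
(.lf (nat_lit 61809868) (dlOf (nat_lit 2) (nat_lit 0x89f1000d4cd80010410027000800b400200060009922d83)))) 
(.nd (nat_lit 9) (.lf (nat_lit 25108556) (dlOf (nat_lit 1) (nat_lit 0x8400200240008be1502))) 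
(.lf (nat_lit 3493798476) (dlOf (nat_lit 1) (nat_lit 0x28008000c002000200081b1183))))))) 
(.nd (nat_lit 26) (.nd (nat_lit 29) (.nd (nat_lit 7) (.nd (nat_lit 30) 
(.lf (nat_lit 134422604) (dlOf (nat_lit 1) (nat_lit 0x20028020901))) 
(.lf (nat_lit 5503131724) (dlOf (nat_lit 1) (nat_lit 0x8008000400200020008090003)))) 
(.lf (nat_lit 4429390028) (dlOf (nat_lit 1) (nat_lit 0x20028090481)))) (.nd (nat_lit 28) 
(.lf (nat_lit 6040002636) (dlOf (nat_lit 1) (nat_lit 0x4004000200080b0002))) 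
(.lf (nat_lit 4160954444) (dlOf (nat_lit 1) (nat_lit 0x8004000a00080a0002))))) (.nd (nat_lit 28) 
(.nd (nat_lit 18) (.lf (nat_lit 201531468) (dlOf (nat_lit 1) (nat_lit 0x20028020901))) 
(.lf (nat_lit 738664524) (dlOf (nat_lit 1) (nat_lit 0x800280d0501)))) (.nd (nat_lit 22) 
(.nd (nat_lit 30) (.lf (nat_lit 469966924) (dlOf (nat_lit 1) (nat_lit 0x118004005a0008020902))) 
(.lf (nat_lit 5838676044) (dlOf (nat_lit 2) (nat_lit 0x480e8002404a001201a000900c00002c2000500080028002000c0008120f83)))) 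
(.lf (nat_lit 474161228) (dlOf (nat_lit 1) (nat_lit 0x200290e0001))))))) (.nd (nat_lit 31) 
(.nd (nat_lit 11) (.nd (nat_lit 10) (.nd (nat_lit 18) (.nd (nat_lit 27) 
(.lf (nat_lit 4295172428) (dlOf (nat_lit 1) (nat_lit 0x400200240008090602))) 
(.lf (nat_lit 4429390156) (dlOf (nat_lit 1) (nat_lit 0x400200240008090602)))) 
(.lf (nat_lit 2040140) (dlOf (nat_lit 2) (nat_lit 0x253f000629b400066080014002000a0008150602)))) 
(.nd (nat_lit 9) (.lf (nat_lit 50799948) (dlOf (nat_lit 1) (nat_lit 0x200294c3301))) 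
(.lf (nat_lit 5905786700) (dlOf (nat_lit 1) (nat_lit 0x380018143e81))))) (.nd (nat_lit 9) 
(.nd (nat_lit 7) (.lf (nat_lit 8595788) (dlOf (nat_lit 1) (nat_lit 0xe0018514d81))) 
(.lf (nat_lit 45296076) (dlOf (nat_lit 1) (nat_lit 0x400200060009324e82)))) (.nd (nat_lit 20) 
(.lf (nat_lit 1141058380) (dlOf (nat_lit 3) (nat_lit 0x160260003f0100c30130000a80800680080010002000c0008095c03))) 
(.lf (nat_lit 20130636) (dlOf (nat_lit 1) (nat_lit 0x4002000200089d5c02)))))) (.nd (nat_lit 7) 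
(.nd (nat_lit 12) (.nd (nat_lit 26) 
(.lf (nat_lit 2818781004) (dlOf (nat_lit 1) (nat_lit 0xc00400020008127782))) 
(.lf (nat_lit 3556978508) (dlOf (nat_lit 1) (nat_lit 0xc00400020008127782)))) (.nd (nat_lit 9) 
(.lf (nat_lit 3489873228) (dlOf (nat_lit 1) (nat_lit 0x2002800c901))) 
(.lf (nat_lit 3020109644) (dlOf (nat_lit 2) (nat_lit 0x401300008808000800800040020004000812a203))))) 
(.nd (nat_lit 18) (.nd (nat_lit 26) 
(.lf (nat_lit 3491439052) (dlOf (nat_lit 2) (nat_lit 0x1b00b800000018090980))) 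
(.lf (nat_lit 2753241548) (dlOf (nat_lit 2) (nat_lit 0x1b00e800000018090980)))) (.nd (nat_lit 9) 
(.nd (nat_lit 26) 
(.lf (nat_lit 3221692876) (dlOf (nat_lit 4) (nat_lit 0xc405e022c0000001e8200b40000000f00805d815002c80a00254040012a01f809200e004a806602440300124015002f00a0049003a02480160124007808a0024049000e02480050042000000000800008008014c00201920008170983))) 
(.lf (nat_lit 3959890380) (dlOf (nat_lit 4) (nat_lit 0xc405e022c0000001f0200b40000000f40805d815002c80a00254040012a01f809200e004a806602440300124015002f00a0049003a02480160124007808a0024049000e02480050042000000000800008008014c00201920008170983)))) 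
(.lf (nat_lit 2751936460) (dlOf (nat_lit 1) (nat_lit 0x2000800a601)))))))))) (.nd (nat_lit 7) 
(.nd (nat_lit 13) (.nd (nat_lit 8) (.nd (nat_lit 26) (.nd (nat_lit 20) (.nd (nat_lit 21) 
(.nd (nat_lit 16) (.nd (nat_lit 19) 
(.lf (nat_lit 4026695756) (dlOf (nat_lit 4) (nat_lit 0x1c0100007002c00008080014016000020200620200014005800000100030008011400200360008030f83))) 
(.lf (nat_lit 134905932) (dlOf (nat_lit 2) (nat_lit 0x100310002b0180d0d00)))) (.nd (nat_lit 18) 
(.lf (nat_lit 4697849932) (dlOf (nat_lit 1) (nat_lit 0x24004000e00080a1682))) 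
(.lf (nat_lit 13598796) (dlOf (nat_lit 2) (nat_lit 0x2718c00cf7ac0003f0400040028730d01))))) 
(.nd (nat_lit 24) (.nd (nat_lit 9) 
(.lf (nat_lit 3492446284) (dlOf (nat_lit 1) (nat_lit 0xa00280d0d01))) 
(.lf (nat_lit 3491922508) (dlOf (nat_lit 2) (nat_lit 0x21c600000018091180)))) (.nd (nat_lit 16) 
(.lf (nat_lit 52592716) (dlOf (nat_lit 2) (nat_lit 0x10cc10008b593804129e802314d0000380800680019550681))) 
(.lf (nat_lit 56852556) (dlOf (nat_lit 1) (nat_lit 0x160009770681)))))) (.nd (nat_lit 22) 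
(.nd (nat_lit 9) (.nd (nat_lit 16) 
(.lf (nat_lit 26640460) (dlOf (nat_lit 1) (nat_lit 0x800400060008c50682))) 
(.lf (nat_lit 3490938956) (dlOf (nat_lit 1) (nat_lit 0x40018030f81)))) 
(.lf (nat_lit 3491660364) (dlOf (nat_lit 1) (nat_lit 0x20008091181)))) (.nd (nat_lit 18) 
(.lf (nat_lit 24281164) (dlOf (nat_lit 1) (nat_lit 0x400400020008b90f02))) (.nd (nat_lit 19) 
(.lf (nat_lit 47611980) (dlOf (nat_lit 1) (nat_lit 0x800200040009400002))) 
(.lf (nat_lit 25067596) (dlOf (nat_lit 1) (nat_lit 0x320028be1501))))))) (.nd (nat_lit 19) 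
(.nd (nat_lit 9) (.nd (nat_lit 27) (.nd (nat_lit 16) 
(.lf (nat_lit 3288498252) (dlOf (nat_lit 4) (nat_lit 0x1c0100007002c00008080014016000020200620200014005800000100030008011400200360008030f83))) 
(.lf (nat_lit 2752741452) (dlOf (nat_lit 1) (nat_lit 0x40018030f81)))) (.nd (nat_lit 18) 
(.lf (nat_lit 6107136076) (dlOf (nat_lit 1) (nat_lit 0x240018090001))) 
(.lf (nat_lit 1009221708) (dlOf (nat_lit 1) (nat_lit 0x600290a0681))))) (.nd (nat_lit 29) 
(.nd (nat_lit 11) (.lf (nat_lit 469926476) (dlOf (nat_lit 1) (nat_lit 0x60028018d81))) 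
(.lf (nat_lit 472287820) (dlOf (nat_lit 2) (nat_lit 0x703a8000700800d0008000800200140008985283)))) 
(.nd (nat_lit 28) (.lf (nat_lit 2885845580) (dlOf (nat_lit 1) (nat_lit 0x24004000400080b1182))) 
(.lf (nat_lit 4228022860) (dlOf (nat_lit 1) (nat_lit 0x38008001800200100008018b03)))))) 
(.nd (nat_lit 18) (.nd (nat_lit 27) (.nd (nat_lit 21) 
(.lf (nat_lit 4362764364) (dlOf (nat_lit 2) (nat_lit 0x800cc0009a0400d4004004400080f1882))) 
(.lf (nat_lit 2754248780) (dlOf (nat_lit 1) (nat_lit 0xa00280d0d01)))) (.nd (nat_lit 28) 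
(.lf (nat_lit 202014796) (dlOf (nat_lit 2) (nat_lit 0x10031000278180d0d00))) 
(.lf (nat_lit 4228546636) (dlOf (nat_lit 7) (nat_lit 0x188130000c090004204000060160000c820002814401040980080040000d0160000c02000901000008064000602c00017030026026001a01000005a080100098007e040000901f000500c800280580002b0a0038053003e0260000812800f4080001c032000a0160000a83001a00080024002003400080f1503))))) 
(.nd (nat_lit 9) (.nd (nat_lit 16) 
(.lf (nat_lit 68059212) (dlOf (nat_lit 1) (nat_lit 0xe00183e0101))) 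
(.lf (nat_lit 473923660) (dlOf (nat_lit 2) (nat_lit 0x11c2c0000360200040018fc0681)))) 
(.nd (nat_lit 16) (.lf (nat_lit 2753462860) (dlOf (nat_lit 1) (nat_lit 0x20008091181))) 
(.lf (nat_lit 2752479820) (dlOf (nat_lit 2) (nat_lit 0x215d0000f018018d80)))))))) (.nd (nat_lit 18) 
(.nd (nat_lit 16) (.nd (nat_lit 11) (.nd (nat_lit 10) (.nd (nat_lit 20) 
(.lf (nat_lit 2261324) (dlOf (nat_lit 2) (nat_lit 0xdea4700019818150600))) 
(.lf (nat_lit 41058636) (dlOf (nat_lit 2) (nat_lit 0x1bac0000f204000400200060009218882)))) 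
(.lf (nat_lit 40535372) (dlOf (nat_lit 1) (nat_lit 0x4004000400091f3302)))) (.nd (nat_lit 9) 
(.lf (nat_lit 2751629644) (dlOf (nat_lit 1) (nat_lit 0x380080004002001a0008004d83))) 
(.nd (nat_lit 20) (.lf (nat_lit 4563569484) (dlOf (nat_lit 1) (nat_lit 0x400400020008095c02))) 
(.lf (nat_lit 20089676) (dlOf (nat_lit 1) (nat_lit 0x4002000200089d5c02)))))) (.nd (nat_lit 21) 
(.nd (nat_lit 9) (.lf (nat_lit 4697850188) (dlOf (nat_lit 1) (nat_lit 0x50004000600080a6682))) 
(.nd (nat_lit 28) (.lf (nat_lit 4899179340) (dlOf (nat_lit 2) (nat_lit 0x8032000470180d5c00))) 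
(.lf (nat_lit 6241356620) (dlOf (nat_lit 1) (nat_lit 0x5c004000200080d5c02))))) (.nd (nat_lit 10) 
(.nd (nat_lit 20) 
(.lf (nat_lit 2326860) (dlOf (nat_lit 2) (nat_lit 0x29dc60014eaa001671b00df33b80006610000800200080008150602))) 
(.lf (nat_lit 3375436) (dlOf (nat_lit 2) (nat_lit 0x9a55100019018200600)))) 
(.lf (nat_lit 57902412) (dlOf (nat_lit 1) (nat_lit 0x40019793301)))))) (.nd (nat_lit 19) 
(.nd (nat_lit 9) (.nd (nat_lit 16) 
(.lf (nat_lit 3572044) (dlOf (nat_lit 2) (nat_lit 0x12c4b200019018200600))) (.nd (nat_lit 26) 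
(.lf (nat_lit 805798220) (dlOf (nat_lit 2) (nat_lit 0x37811001bc086009a033000190381a0600))) 
(.lf (nat_lit 1678213452) (dlOf (nat_lit 2) (nat_lit 0x37811001bc086009a033000198381a0600))))) 
(.nd (nat_lit 10) (.nd (nat_lit 16) 
(.lf (nat_lit 2416352076) (dlOf (nat_lit 2) (nat_lit 0x4002400aa4040008004001a00180fbc82))) 
(.lf (nat_lit 498508) (dlOf (nat_lit 2) (nat_lit 0xe7bd002a901800bc80)))) 
(.lf (nat_lit 2751891276) (dlOf (nat_lit 1) (nat_lit 0x7800400260008003e82))))) (.nd (nat_lit 30) 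
(.nd (nat_lit 26) (.nd (nat_lit 16) 
(.lf (nat_lit 12484940) (dlOf (nat_lit 2) (nat_lit 0xa223c00066040008002000a00086c0602))) 
(.lf (nat_lit 2064716) (dlOf (nat_lit 2) (nat_lit 0x10d48e000699300019828150600)))) 
(.nd (nat_lit 20) (.lf (nat_lit 1007583564) (dlOf (nat_lit 1) (nat_lit 0x160018520801))) 
(.lf (nat_lit 471761228) (dlOf (nat_lit 2) (nat_lit 0x9040200480ae0024053001202780094090004804500240220000c8380018008002800200040008490603))))) 
(.nd (nat_lit 16) (.nd (nat_lit 20) 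
(.lf (nat_lit 1343127884) (dlOf (nat_lit 1) (nat_lit 0x400400020008150802))) 
(.lf (nat_lit 1344176460) (dlOf (nat_lit 2) (nat_lit 0x9040200480ae0024053001202780094024004801000240078000cc380018008002800200040008490603)))) 
(.lf (nat_lit 1344241996) (dlOf (nat_lit 1) (nat_lit 0x20018520801)))))))) (.nd (nat_lit 16) 
(.nd (nat_lit 31) (.nd (nat_lit 18) (.nd (nat_lit 9) (.nd (nat_lit 20) (.nd (nat_lit 21) 
(.lf (nat_lit 5234663500) (dlOf (nat_lit 1) (nat_lit 0x8008000400200020008080503))) 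
(.lf (nat_lit 52600908) (dlOf (nat_lit 2) (nat_lit 0x8ec10000c5fc8025ac9c01214f40094a6800404c58000e0300178008002c00200100009550683)))) 
(.lf (nat_lit 62038092) (dlOf (nat_lit 1) (nat_lit 0x8008000400200020009940603)))) (.nd (nat_lit 8) 
(.lf (nat_lit 4362248780) (dlOf (nat_lit 1) (nat_lit 0xe800200080008018d82))) (.nd (nat_lit 20) 
(.lf (nat_lit 4563577676) (dlOf (nat_lit 1) (nat_lit 0x400400020008095c02))) 
(.lf (nat_lit 20097868) (dlOf (nat_lit 1) (nat_lit 0x4002000200089d5c02)))))) (.nd (nat_lit 8) 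
(.nd (nat_lit 9) 
(.lf (nat_lit 1343660108) (dlOf (nat_lit 3) (nat_lit 0x42c80007b020002165000378182e0180))) 
(.nd (nat_lit 23) 
(.lf (nat_lit 472296012) (dlOf (nat_lit 3) (nat_lit 0xc0000001402000214d00020a1800000100028008007400200100008985283))) 
(.lf (nat_lit 44477004) (dlOf (nat_lit 1) (nat_lit 0x20019325281))))) (.nd (nat_lit 19) 
(.lf (nat_lit 3580236) (dlOf (nat_lit 2) (nat_lit 0xde4d800362500000c81000a000800b000200480008200603))) 
(.nd (nat_lit 20) (.lf (nat_lit 537829708) (dlOf (nat_lit 1) (nat_lit 0x10004000600181b0602))) 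
(.lf (nat_lit 12493132) (dlOf (nat_lit 2) (nat_lit 0x3a488000198186c0600))))))) (.nd (nat_lit 26) 
(.nd (nat_lit 27) (.nd (nat_lit 19) 
(.lf (nat_lit 3490881612) (dlOf (nat_lit 1) (nat_lit 0xd8008001800200ca0008030f83))) 
(.lf (nat_lit 3492454476) (dlOf (nat_lit 1) (nat_lit 0xe8008004400200cc00080d0d03)))) 
(.nd (nat_lit 8) (.nd (nat_lit 9) 
(.lf (nat_lit 2819006540) (dlOf (nat_lit 2) (nat_lit 0x2a03f0000b818150680))) 
(.lf (nat_lit 3624051276) (dlOf (nat_lit 1) (nat_lit 0x24004000400080b1182)))) 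
(.lf (nat_lit 3892490572) (dlOf (nat_lit 1) (nat_lit 0x1a0008010400200160008158303))))) 
(.nd (nat_lit 19) (.nd (nat_lit 8) (.nd (nat_lit 9) 
(.lf (nat_lit 2752684108) (dlOf (nat_lit 1) (nat_lit 0xd8008001800200ca0008030f83))) 
(.lf (nat_lit 4228031052) (dlOf (nat_lit 10) (nat_lit 0x22040007601600118c100060100008240400300800041002001e040001fe01000c020000fe8080068100007e8040030080003f302001a040001f901000c020000fc4080060008004c00200340008018b03)))) 
(.lf (nat_lit 2885853516) (dlOf (nat_lit 2) (nat_lit 0xa080000009e040148002005a00080b0602)))) 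
(.nd (nat_lit 21) 
(.lf (nat_lit 4228554828) (dlOf (nat_lit 1) (nat_lit 0x100008000c002000c00080f1503))) 
(.lf (nat_lit 2754256972) (dlOf (nat_lit 1) (nat_lit 0xe8008004400200cc00080d0d03))))))) 
(.nd (nat_lit 18) (.nd (nat_lit 19) (.nd (nat_lit 8) (.nd (nat_lit 9) (.nd (nat_lit 27) 
(.lf (nat_lit 4563640396) (dlOf (nat_lit 2) (nat_lit 0x28064009802d002a00a8016804800066100228004007c00080b0602))) 
(.lf (nat_lit 4697858124) (dlOf (nat_lit 2) (nat_lit 0x28064009802d002a00a8016804800064100228004007c00080b0602)))) 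
(.lf (nat_lit 537109068) (dlOf (nat_lit 1) (nat_lit 0x20028018d81)))) (.nd (nat_lit 9) 
(.nd (nat_lit 20) (.lf (nat_lit 2335052) (dlOf (nat_lit 2) (nat_lit 0xda99300019818150600))) 
(.lf (nat_lit 3383628) (dlOf (nat_lit 2) (nat_lit 0x2e4b200019018200600)))) 
(.lf (nat_lit 6241364812) (dlOf (nat_lit 1) (nat_lit 0x200080d5c01))))) (.nd (nat_lit 11) 
(.nd (nat_lit 20) (.nd (nat_lit 21) 
(.lf (nat_lit 59482188) (dlOf (nat_lit 2) (nat_lit 0x1699ec00c0cc8005c592002c2728017934c0006c14003000400100019800682))) 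
(.lf (nat_lit 2859084) (dlOf (nat_lit 1) (nat_lit 0x2000281c0d01)))) 
(.lf (nat_lit 10199116) (dlOf (nat_lit 1) (nat_lit 0x3c004001200085c0f82)))) (.nd (nat_lit 9) 
(.lf (nat_lit 8108108) (dlOf (nat_lit 1) (nat_lit 0x1000800040020002000851a683))) 
(.lf (nat_lit 58436172) (dlOf (nat_lit 1) (nat_lit 0x2800297e5281)))))) (.nd (nat_lit 8) 
(.nd (nat_lit 19) (.nd (nat_lit 21) 
(.lf (nat_lit 2756157516) (dlOf (nat_lit 1) (nat_lit 0x10008000400200020008211503))) 
(.nd (nat_lit 22) 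
(.lf (nat_lit 1009229900) (dlOf (nat_lit 1) (nat_lit 0x178008006c002003600090a0683))) 
(.lf (nat_lit 48734284) (dlOf (nat_lit 1) (nat_lit 0x580080070002004c0009420683))))) 
(.nd (nat_lit 9) 
(.lf (nat_lit 13606988) (dlOf (nat_lit 6) (nat_lit 0x10b8c6008bbd600023020014e3180166f58000840801678c600e1bd60001f820044e318000f808022f18c014f7ac0003d0400080008730d01))) 
(.lf (nat_lit 24093260) (dlOf (nat_lit 1) (nat_lit 0x160018b81181))))) (.nd (nat_lit 28) 
(.nd (nat_lit 9) (.nd (nat_lit 19) 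
(.lf (nat_lit 1678221644) (dlOf (nat_lit 2) (nat_lit 0x34408801ca043001a01d801080cc0006610009c004005a00081a0602))) 
(.lf (nat_lit 2072908) (dlOf (nat_lit 2) (nat_lit 0x6d57d0000cc080008008000800200040008150603)))) 
(.lf (nat_lit 506700) (dlOf (nat_lit 2) (nat_lit 0x192748015480800680080030002000c000800bc83)))) 
(.nd (nat_lit 10) 
(.lf (nat_lit 805806412) (dlOf (nat_lit 2) (nat_lit 0x34408801ca043001a01d801080cc0006410009c004005a00081a0602))) 
(.lf (nat_lit 4563903820) (dlOf (nat_lit 1) (nat_lit 0x120028123301))))))))) (.nd (nat_lit 8) 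
(.nd (nat_lit 16) (.nd (nat_lit 18) (.nd (nat_lit 28) (.nd (nat_lit 10) (.nd (nat_lit 9) 
(.nd (nat_lit 13) (.lf (nat_lit 2755297484) (dlOf (nat_lit 1) (nat_lit 0x200018155a81))) 
(.lf (nat_lit 2885853388) (dlOf (nat_lit 2) (nat_lit 0x180000003a20400e0002006a00080b0482)))) 
(.lf (nat_lit 3758265036) (dlOf (nat_lit 1) (nat_lit 0x838008000400200d40008128c83)))) 
(.nd (nat_lit 11) (.lf (nat_lit 20092108) (dlOf (nat_lit 1) (nat_lit 0x200189d9501))) 
(.lf (nat_lit 167116) (dlOf (nat_lit 2) (nat_lit 0x141be000360200060018006401))))) 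
(.nd (nat_lit 10) (.nd (nat_lit 19) (.nd (nat_lit 22) 
(.lf (nat_lit 3624042700) (dlOf (nat_lit 2) (nat_lit 0x254000000e88180b0480))) 
(.lf (nat_lit 3494019276) (dlOf (nat_lit 2) (nat_lit 0x407e001d102000400081b0481)))) 
(.lf (nat_lit 3493494988) (dlOf (nat_lit 1) (nat_lit 0x200018155a81)))) (.nd (nat_lit 13) 
(.lf (nat_lit 5301765324) (dlOf (nat_lit 1) (nat_lit 0x1800400120008092d82))) 
(.lf (nat_lit 872588492) (dlOf (nat_lit 1) (nat_lit 0x2f800401bc0008092d82)))))) (.nd (nat_lit 28) 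
(.nd (nat_lit 13) (.nd (nat_lit 19) 
(.lf (nat_lit 3571916) (dlOf (nat_lit 1) (nat_lit 0x20028200481))) 
(.lf (nat_lit 12484812) (dlOf (nat_lit 2) (nat_lit 0x10b43e0007c80801080080074002002800086c0483)))) 
(.nd (nat_lit 19) 
(.lf (nat_lit 1611047116) (dlOf (nat_lit 3) (nat_lit 0xc03f0000601000801f80000008010800800a8002000600080c1783))) 
(.nd (nat_lit 20) 
(.lf (nat_lit 537829580) (dlOf (nat_lit 1) (nat_lit 0x300080058002002000081b0483))) 
(.lf (nat_lit 12493004) (dlOf (nat_lit 1) (nat_lit 0x180080004002000400086c0483)))))) 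
(.nd (nat_lit 26) (.nd (nat_lit 27) 
(.lf (nat_lit 1344176332) (dlOf (nat_lit 1) (nat_lit 0x8008000400200020008490483))) 
(.lf (nat_lit 5773361356) (dlOf (nat_lit 1) (nat_lit 0x4002000200080c1782)))) (.nd (nat_lit 20) 
(.lf (nat_lit 1410236620) (dlOf (nat_lit 2) (nat_lit 0xc0000000e68181b0480))) (.nd (nat_lit 29) 
(.lf (nat_lit 471761100) (dlOf (nat_lit 1) (nat_lit 0x8008000400200020008490483))) 
(.lf (nat_lit 6377341132) (dlOf (nat_lit 1) (nat_lit 0x4002000200080c1b82)))))))) (.nd (nat_lit 13) 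
(.nd (nat_lit 28) (.nd (nat_lit 21) (.nd (nat_lit 18) (.nd (nat_lit 20) 
(.lf (nat_lit 2755887308) (dlOf (nat_lit 2) (nat_lit 0x68198000e28181b0480))) 
(.lf (nat_lit 9666764) (dlOf (nat_lit 1) (nat_lit 0xc0018571781)))) 
(.lf (nat_lit 1678213324) (dlOf (nat_lit 1) (nat_lit 0x200080004002000800081a0483)))) 
(.nd (nat_lit 9) (.nd (nat_lit 19) 
(.lf (nat_lit 2326732) (dlOf (nat_lit 5) (nat_lit 0x47bba8023dbf0003ed76008f68f8047b448023d9fc011ecf5008f66b0047b314008d2e600247140058ef000016c80016343c004780c0315c2c020ccee000b882000270b0005bc080028008002000200180008150483))) 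
(.lf (nat_lit 12288204) (dlOf (nat_lit 1) (nat_lit 0xc00286c0481)))) 
(.lf (nat_lit 19894988) (dlOf (nat_lit 1) (nat_lit 0x4002000200089d8c82))))) (.nd (nat_lit 18) 
(.nd (nat_lit 10) (.nd (nat_lit 9) 
(.lf (nat_lit 2617475276) (dlOf (nat_lit 1) (nat_lit 0x480080018002000e00080b3b83))) 
(.lf (nat_lit 3557003980) (dlOf (nat_lit 1) (nat_lit 0x490008000400200680008128c83)))) 
(.nd (nat_lit 11) (.lf (nat_lit 5234721996) (dlOf (nat_lit 1) (nat_lit 0x200180d2d81))) 
(.lf (nat_lit 3489893580) (dlOf (nat_lit 2) (nat_lit 0x121d300019018006400))))) (.nd (nat_lit 27) 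
(.nd (nat_lit 29) (.lf (nat_lit 2416410828) (dlOf (nat_lit 1) (nat_lit 0x8004000200081b0482))) 
(.lf (nat_lit 805798092) (dlOf (nat_lit 1) (nat_lit 0x200080004002000800081a0483)))) 
(.lf (nat_lit 2550628556) (dlOf (nat_lit 1) (nat_lit 0x8004000200081b0482)))))) (.nd (nat_lit 18) 
(.nd (nat_lit 22) (.nd (nat_lit 9) (.nd (nat_lit 20) 
(.lf (nat_lit 2334924) (dlOf (nat_lit 2) (nat_lit 0x22d43c000c97300123828150480))) 
(.lf (nat_lit 9674956) (dlOf (nat_lit 1) (nat_lit 0x20028571781)))) 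
(.lf (nat_lit 67877580) (dlOf (nat_lit 1) (nat_lit 0x6001833b981)))) (.nd (nat_lit 26) 
(.lf (nat_lit 3494093004) (dlOf (nat_lit 3) (nat_lit 0x180213000e8810024087800283ec0038a080008002000200081b0482))) 
(.lf (nat_lit 2755895500) (dlOf (nat_lit 1) (nat_lit 0x600181b0481))))) (.nd (nat_lit 26) 
(.nd (nat_lit 9) 
(.lf (nat_lit 805806284) (dlOf (nat_lit 22) (nat_lit 0x19302780c700e0079004c0024906000404f00124010099027804b80e0002806601ca026000e00c00091c28011013c008807000680260012283009d02000090c0801300000045404009800000228020064026000fe01003d027800e8098003ee08006009e0012026000fa82000601c00260098003e408051009e028e03801880130007c018007813c009804c001ef04034004c01e702400f3811c067406a02ca03401ee01280f380900038e1c0444098022604700dd01a008a80900038c10022009801a604800d3023804180d40340068019e02500c9012001900180038a200134098008c047004d01a800480d00214048001c30a01ba04c014001a809180940037a0c0064088001bb020074044000b981000c0168002500804e800804a000200d600081a0483)))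 
(.lf (nat_lit 19903180) (dlOf (nat_lit 1) (nat_lit 0x4002000200089d8c82)))) (.nd (nat_lit 27) 
(.nd (nat_lit 29) 
(.lf (nat_lit 4362576076) (dlOf (nat_lit 1) (nat_lit 0x10008000400200020008090483))) 
(.lf (nat_lit 1678221516) (dlOf (nat_lit 22) (nat_lit 0x19302780c700e0079004c0024906000404f00124010099027804b80e0002806601ca026000e00c00091c28011013c008807000680260012283009d02000090c0801300000045404009800000228020064026000fd01003d027800e8098003ee08006009e0012026000fa82000601c00260098003e608051009e028e03801880130007c018007813c009804c001ef04034004c01e702400f3811c067406a02ca03401ee01280f380900038e1c0444098022604700dd01a008a80900038c10022009801a604800d3023804180d40340068019e02500c9012001900180038a200134098008c047004d01a800480d00214048001c30a01ba04c014001a809180940037a0c0064088001bb020074044000b881000c0168002500804e800804a000200d600081a0483)))) 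
(.lf (nat_lit 4228358348) (dlOf (nat_lit 1) (nat_lit 0x10008000400200020008090483)))))))) 
(.nd (nat_lit 13) (.nd (nat_lit 18) (.nd (nat_lit 21) (.nd (nat_lit 9) (.nd (nat_lit 16) 
(.nd (nat_lit 26) (.lf (nat_lit 134382028) (dlOf (nat_lit 1) (nat_lit 0x400400020008017102))) 
(.lf (nat_lit 5301764556) (dlOf (nat_lit 1) (nat_lit 0x20018091101)))) 
(.lf (nat_lit 805536204) (dlOf (nat_lit 1) (nat_lit 0x1880080004002003e0008127103)))) 
(.nd (nat_lit 16) 
(.lf (nat_lit 5301765068) (dlOf (nat_lit 3) (nat_lit 0x60110048e810001008802408080008008000800200020008092883))) 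
(.lf (nat_lit 4832068556) (dlOf (nat_lit 1) (nat_lit 0x200180d2881))))) (.nd (nat_lit 11) 
(.nd (nat_lit 9) 
(.lf (nat_lit 23298508) (dlOf (nat_lit 2) (nat_lit 0x4265f800000080040008004000200060008b80983))) 
(.nd (nat_lit 16) (.lf (nat_lit 3492976588) (dlOf (nat_lit 1) (nat_lit 0x1600280fa601))) 
(.lf (nat_lit 3493042124) (dlOf (nat_lit 1) (nat_lit 0x200080014002001200080fa603))))) 
(.nd (nat_lit 20) (.lf (nat_lit 35817932) (dlOf (nat_lit 1) (nat_lit 0x8008000c00200120009014e83))) 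
(.nd (nat_lit 22) 
(.lf (nat_lit 473074124) (dlOf (nat_lit 2) (nat_lit 0xf10d800a06640196408003400200020008c94e82))) 
(.lf (nat_lit 57838028) (dlOf (nat_lit 1) (nat_lit 0x668008068800201120009794e83))))))) 
(.nd (nat_lit 26) (.nd (nat_lit 25) (.nd (nat_lit 19) (.nd (nat_lit 28) 
(.lf (nat_lit 3221651916) (dlOf (nat_lit 3) (nat_lit 0x64c08e02f8044016b02080c700e405e405e031c02e001300a002b003c0007a2006ac0980e2604607110228223010c11300840760040034101f821700e00f4c066042e00900890028000005825080080dd40021bf80008170983))) 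
(.lf (nat_lit 805732812) (dlOf (nat_lit 2) (nat_lit 0x2ba815806d40a603120320583009800000201a400080de80021e7a00081a0983)))) 
(.lf (nat_lit 5772313036) (dlOf (nat_lit 2) (nat_lit 0x280262000140200040008091101)))) 
(.nd (nat_lit 9) 
(.lf (nat_lit 60262860) (dlOf (nat_lit 1) (nat_lit 0x5d0008001c00200020009844e83))) 
(.lf (nat_lit 40272844) (dlOf (nat_lit 1) (nat_lit 0x38008008400200e600091f2883))))) 
(.nd (nat_lit 27) (.nd (nat_lit 11) (.nd (nat_lit 29) 
(.lf (nat_lit 4362502604) (dlOf (nat_lit 2) (nat_lit 0xd0198000000800300080020002000c0008090983))) 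
(.lf (nat_lit 1678148044) (dlOf (nat_lit 2) (nat_lit 0x2ba815806d40a603120320583009800000201a400080de80021e7a00081a0983)))) 
(.lf (nat_lit 604408268) (dlOf (nat_lit 3) (nat_lit 0x601f800080e4003806c00180230065904000201f8031180800480080014002001a0008204e83)))) 
(.nd (nat_lit 28) 
(.lf (nat_lit 3959849420) (dlOf (nat_lit 3) (nat_lit 0x64c08e02f8044016b02080c700e405e405e031c02e001300a002b003c0007c2006ac0980e2604607110228223010c11300840760040034101f821700e00f4c066042e00900890028000005825080080dd40021bf80008170983))) 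
(.lf (nat_lit 4228284876) (dlOf (nat_lit 2) (nat_lit 0xd0190000000800300080020002000c0008090983))))))) 
(.nd (nat_lit 31) (.nd (nat_lit 21) (.nd (nat_lit 9) (.nd (nat_lit 26) 
(.lf (nat_lit 805741004) (dlOf (nat_lit 2) (nat_lit 0x14602b00a7004c0000008007c004002000181a0982))) 
(.lf (nat_lit 1678156236) (dlOf (nat_lit 2) (nat_lit 0x14602b00a7004c0000008007c004002000181a0982)))) 
(.nd (nat_lit 10) (.lf (nat_lit 38183884) (dlOf (nat_lit 1) (nat_lit 0x20019132881))) 
(.lf (nat_lit 1677899724) (dlOf (nat_lit 5) (nat_lit 0x5814c00abe0400f00260055802001e013002ab81000a0098015540803780080318002002c000811a603))))) 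
(.nd (nat_lit 11) (.nd (nat_lit 10) (.nd (nat_lit 16) 
(.lf (nat_lit 11706828) (dlOf (nat_lit 2) (nat_lit 0x831c540000004000c002000600086c0982))) 
(.lf (nat_lit 23306700) (dlOf (nat_lit 2) (nat_lit 0x4d2900000018b80980)))) 
(.lf (nat_lit 8103372) (dlOf (nat_lit 1) (nat_lit 0x20018513601)))) (.nd (nat_lit 12) 
(.nd (nat_lit 20) (.lf (nat_lit 35826124) (dlOf (nat_lit 1) (nat_lit 0x800200020009014e82))) 
(.lf (nat_lit 473082316) (dlOf (nat_lit 2) (nat_lit 0x3886c0196404003800400140008c94e82)))) 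
(.lf (nat_lit 19642828) (dlOf (nat_lit 1) (nat_lit 0x2600289db081)))))) (.nd (nat_lit 26) 
(.nd (nat_lit 18) (.nd (nat_lit 16) (.nd (nat_lit 19) 
(.lf (nat_lit 6576841164) (dlOf (nat_lit 1) (nat_lit 0x400400020008157102))) 
(.lf (nat_lit 3491406284) (dlOf (nat_lit 2) (nat_lit 0xc83ce0003d0200020008090981)))) 
(.lf (nat_lit 4026769868) (dlOf (nat_lit 2) (nat_lit 0x5800000000018090980)))) (.nd (nat_lit 19) 
(.lf (nat_lit 3221660108) (dlOf (nat_lit 2) (nat_lit 0xa38118050408a013004200db020006580e00000014006000400480018170982))) 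
(.lf (nat_lit 3490619852) (dlOf (nat_lit 1) (nat_lit 0x8008000400200020008017103))))) 
(.nd (nat_lit 9) (.nd (nat_lit 16) (.nd (nat_lit 18) 
(.lf (nat_lit 2753208780) (dlOf (nat_lit 2) (nat_lit 0xc83f20003e0200020008090981))) 
(.lf (nat_lit 3959857612) (dlOf (nat_lit 2) (nat_lit 0xa38118050408a013004200db020006580e00000014006000400480018170982)))) 
(.lf (nat_lit 3288572364) (dlOf (nat_lit 2) (nat_lit 0x5800000000018090980)))) (.nd (nat_lit 10) 
(.nd (nat_lit 16) (.lf (nat_lit 4095648716) (dlOf (nat_lit 1) (nat_lit 0x4004000200080e2882))) 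
(.lf (nat_lit 2885919692) (dlOf (nat_lit 1) (nat_lit 0x20018142881)))) 
(.lf (nat_lit 2885920716) (dlOf (nat_lit 1) (nat_lit 0x8008000400200020008144483))))))))))))

end

end Pool.Agent.Lib.MP_5854e1_co.Cz

namespace Pool.Agent.Lib.MP_5854e1_co.Cz

noncomputable section

noncomputable def tz26 : DT := (.nd (nat_lit 16) (.nd (nat_lit 13) (.nd (nat_lit 6) 
(.nd (nat_lit 18) (.nd (nat_lit 26) (.nd (nat_lit 19) (.nd (nat_lit 9) (.nd (nat_lit 15) 
(.nd (nat_lit 7) (.nd (nat_lit 10) (.nd (nat_lit 11) 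
(.lf (nat_lit 12582956) (dlOf (nat_lit 1) (nat_lit 0x200186d0981))) 
(.lf (nat_lit 536877100) (dlOf (nat_lit 1) (nat_lit 0x4a001800a601)))) 
(.lf (nat_lit 3116) (dlOf (nat_lit 1) (nat_lit 0x40018006081)))) (.nd (nat_lit 8) 
(.lf (nat_lit 36701356) (dlOf (nat_lit 1) (nat_lit 0x20019072c01))) 
(.lf (nat_lit 1342180780) (dlOf (nat_lit 1) (nat_lit 0x400400020008006d02))))) (.nd (nat_lit 7) 
(.nd (nat_lit 8) (.nd (nat_lit 20) 
(.lf (nat_lit 52461612) (dlOf (nat_lit 1) (nat_lit 0x400400020009530282))) 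
(.lf (nat_lit 47218732) (dlOf (nat_lit 1) (nat_lit 0x4004000200093c0302)))) 
(.lf (nat_lit 1342213420) (dlOf (nat_lit 1) (nat_lit 0x2000400100008006802)))) (.nd (nat_lit 8) 
(.lf (nat_lit 36734124) (dlOf (nat_lit 1) (nat_lit 0x20019072c01))) 
(.lf (nat_lit 1476433324) (dlOf (nat_lit 1) (nat_lit 0x18008004c00200340008009903)))))) 
(.nd (nat_lit 7) (.nd (nat_lit 28) (.nd (nat_lit 23) (.nd (nat_lit 27) 
(.lf (nat_lit 2147517996) (dlOf (nat_lit 1) (nat_lit 0x60008001400200160008003783))) 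
(.lf (nat_lit 5502961196) (dlOf (nat_lit 1) (nat_lit 0x1400400140008003782)))) 
(.lf (nat_lit 8422956) (dlOf (nat_lit 1) (nat_lit 0x60028513781)))) (.nd (nat_lit 8) 
(.lf (nat_lit 268469804) (dlOf (nat_lit 1) (nat_lit 0x800400020008053782))) 
(.lf (nat_lit 3489700652) (dlOf (nat_lit 1) (nat_lit 0x7000800440020004000800bc83))))) 
(.nd (nat_lit 28) (.nd (nat_lit 11) 
(.lf (nat_lit 2281735084) (dlOf (nat_lit 1) (nat_lit 0x220008002681))) 
(.lf (nat_lit 5368744876) (dlOf (nat_lit 3) (nat_lit 0x5c015005700a0001004400bc00a0000f08004a015000700a001200140000e0c00f000200160008005d02)))) 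
(.nd (nat_lit 8) (.lf (nat_lit 6710921900) (dlOf (nat_lit 1) (nat_lit 0xc0028005681))) 
(.nd (nat_lit 10) 
(.lf (nat_lit 6710922156) (dlOf (nat_lit 2) (nat_lit 0x2c02c0016015000100a000038180060008001000200160008005d03))) 
(.lf (nat_lit 2952794028) (dlOf (nat_lit 1) (nat_lit 0x40028007981)))))))) (.nd (nat_lit 21) 
(.nd (nat_lit 30) (.nd (nat_lit 22) (.nd (nat_lit 9) (.nd (nat_lit 15) 
(.lf (nat_lit 9961516) (dlOf (nat_lit 1) (nat_lit 0x4002002400085a0d02))) 
(.lf (nat_lit 2819129388) (dlOf (nat_lit 8) (nat_lit 0x3e011800e40420006b04008e045003801c8006805400e400a000240800a804600e3022804f80e4000c00000022080004057000d0230000841000b0114001400a0001f04015a0050000901000402300000008019800801b4002003000081a0683)))) 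
(.lf (nat_lit 50889260) (dlOf (nat_lit 2) (nat_lit 0x32a80000e408009000800c0002004c00094d8a03)))) 
(.nd (nat_lit 25) 
(.lf (nat_lit 21528620) (dlOf (nat_lit 2) (nat_lit 0x15d90000496000000028a40300))) 
(.lf (nat_lit 55083052) (dlOf (nat_lit 6) (nat_lit 0x893180030988000a4ba00052528003124c0001c14001498c000a4c4001625d000d1294005c9260000d0a000e4c60007262000092f0005c97400344a50017249800030300029318001c98800064bc001725d000d129400689260000b0c00644c400082498000001000a80080028002006400096a0c03))))) 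
(.nd (nat_lit 8) (.nd (nat_lit 27) 
(.lf (nat_lit 3221782572) (dlOf (nat_lit 1) (nat_lit 0x220018180981))) 
(.lf (nat_lit 3892871212) (dlOf (nat_lit 1) (nat_lit 0x60008280001)))) (.nd (nat_lit 7) 
(.lf (nat_lit 1342734636) (dlOf (nat_lit 1) (nat_lit 0x80080008002000200080c0503))) 
(.lf (nat_lit 1342734764) (dlOf (nat_lit 2) (nat_lit 0x204a001c2408009800801d8002003200080c0783)))))) 
(.nd (nat_lit 22) (.nd (nat_lit 23) (.nd (nat_lit 10) 
(.lf (nat_lit 2621484) (dlOf (nat_lit 2) (nat_lit 0x18700000f6040044004000a0008180b02))) 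
(.lf (nat_lit 1344799788) (dlOf (nat_lit 2) (nat_lit 0x42c00067e0200020018982881)))) 
(.nd (nat_lit 20) (.lf (nat_lit 27787308) (dlOf (nat_lit 1) (nat_lit 0x60008d20801))) 
(.lf (nat_lit 45613100) (dlOf (nat_lit 1) (nat_lit 0x10008000800200040009340283))))) 
(.nd (nat_lit 24) (.nd (nat_lit 15) 
(.lf (nat_lit 15204396) (dlOf (nat_lit 11) (nat_lit 0xd5f8d40017c580339df601885c500d368980005f0a01fdc6a00c8df6005f5c5004428980005d080285c6a0128df60001641008071a803737d80005704019fdff017aefc80d7745c0107908032fc7103d7e3501fc71a4001b8d006d5c6700e6e2c01cef15c00577e0073fbec03a9df5812b6fa401735b802c171b0411b8a00045c4c04aeb68002547c040da26001fd0f8097655200ab27500569038001c3d405e6124028700503327b58144bc38000a47c0317bf200efd170102e38802cf1a8020f8d201f3c680094e2c004d715c00df7d80117bea0154b8a00c4dc4c052ee2400055690069a3e00a1d130065289600074480176954800f49d4007a40e005b00500d47f5007a3dac0211e1c0004b320099c67000200100aee338000fc0808971a8037b7d800033040229c6a00dfdf60000c0100f80008057c002020600087c0683)))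 
(.lf (nat_lit 15237164) (dlOf (nat_lit 9) (nat_lit 0x58c1ab01920d281af0000000be0c00780000005d0202c40000002c81001b000000160080038000000ae0413c8bea023643f04990d581780694116c062003c02b03630000001483803617d4000cb64020a41100400d580620694047c062003602b012800000012c40047800000060040148004006200187c0682)))) 
(.nd (nat_lit 20) (.lf (nat_lit 32014380) (dlOf (nat_lit 1) (nat_lit 0x400400020008ed0282))) 
(.lf (nat_lit 24674348) (dlOf (nat_lit 1) (nat_lit 0x60008bb0b01)))))))) (.nd (nat_lit 10) 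
(.nd (nat_lit 28) (.nd (nat_lit 12) (.nd (nat_lit 19) (.nd (nat_lit 7) 
(.lf (nat_lit 68190252) (dlOf (nat_lit 1) (nat_lit 0x1c00400020008450682))) 
(.lf (nat_lit 2214593452) (dlOf (nat_lit 1) (nat_lit 0x80028002681)))) (.nd (nat_lit 21) 
(.lf (nat_lit 3959980076) (dlOf (nat_lit 1) (nat_lit 0x220018180981))) 
(.lf (nat_lit 2754117676) (dlOf (nat_lit 5) (nat_lit 0x121f800040ac8000641000707e0000300400443f0000c1590000b0200090fc00018564000280800c0004005c00080c0d02))))) 
(.nd (nat_lit 7) (.nd (nat_lit 8) 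
(.lf (nat_lit 4362082348) (dlOf (nat_lit 1) (nat_lit 0x80040002001800a602))) 
(.lf (nat_lit 4362082604) (dlOf (nat_lit 1) (nat_lit 0x80040002001800ab82)))) 
(.lf (nat_lit 603984556) (dlOf (nat_lit 1) (nat_lit 0x400200020008008c82))))) (.nd (nat_lit 7) 
(.nd (nat_lit 19) (.nd (nat_lit 20) 
(.lf (nat_lit 471892012) (dlOf (nat_lit 1) (nat_lit 0x24004003200086b0002))) 
(.lf (nat_lit 470843436) (dlOf (nat_lit 2) (nat_lit 0x561a8000258181c0680)))) (.nd (nat_lit 8) 
(.lf (nat_lit 3557326892) (dlOf (nat_lit 1) (nat_lit 0x4600081c0681))) 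
(.lf (nat_lit 470319404) (dlOf (nat_lit 1) (nat_lit 0x80080008002000200080c0503))))) 
(.nd (nat_lit 8) (.lf (nat_lit 3154673836) (dlOf (nat_lit 1) (nat_lit 0x400400020008310482))) 
(.nd (nat_lit 9) (.lf (nat_lit 1409843628) (dlOf (nat_lit 1) (nat_lit 0xe0008090781))) 
(.lf (nat_lit 4764765100) (dlOf (nat_lit 2) (nat_lit 0x300b0005001400030080008004001c0008005d02))))))) 
(.nd (nat_lit 7) (.nd (nat_lit 9) (.nd (nat_lit 12) (.nd (nat_lit 15) 
(.lf (nat_lit 4362077228) (dlOf (nat_lit 1) (nat_lit 0x20028002881))) 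
(.lf (nat_lit 4362109996) (dlOf (nat_lit 1) (nat_lit 0xa00080044002000e0008002883)))) 
(.lf (nat_lit 3690992684) (dlOf (nat_lit 1) (nat_lit 0xa40018009201)))) (.nd (nat_lit 28) 
(.nd (nat_lit 15) (.lf (nat_lit 6106908204) (dlOf (nat_lit 1) (nat_lit 0x400400020008003782))) 
(.lf (nat_lit 738231852) (dlOf (nat_lit 1) (nat_lit 0xd800400080008003782)))) (.nd (nat_lit 27) 
(.lf (nat_lit 4630513196) (dlOf (nat_lit 1) (nat_lit 0x400400020008003782))) 
(.lf (nat_lit 6375343660) (dlOf (nat_lit 1) (nat_lit 0x140028003781)))))) (.nd (nat_lit 11) 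
(.nd (nat_lit 8) 
(.lf (nat_lit 2348844716) (dlOf (nat_lit 2) (nat_lit 0x60140003740800280080020002000e0008003a83))) 
(.nd (nat_lit 15) 
(.lf (nat_lit 3690993068) (dlOf (nat_lit 1) (nat_lit 0x98008002000200020008009903))) 
(.lf (nat_lit 3691025836) (dlOf (nat_lit 13) (nat_lit 0x3b0054014602900af00d800e0064019802a015e00600e100100296c380468008014b404038005401c802900ba00a806e8018036000400a590a013c02d008e0000029441003d00b4021c0560190000005278300df016807d00a8016400c00a460601a202d00f0015002c008402d402a01dc00600b40000029143003f80b40148404010805a008602a003000a804a8018007800000a3c0a003802d0051d0100020168028e40800100080254000000000400740028009901))))) 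
(.nd (nat_lit 27) 
(.lf (nat_lit 1409289644) (dlOf (nat_lit 1) (nat_lit 0x8008000400200020008006d03))) 
(.lf (nat_lit 4227861932) (dlOf (nat_lit 1) (nat_lit 0x400400020008006d02)))))))) (.nd (nat_lit 19) 
(.nd (nat_lit 30) (.nd (nat_lit 21) (.nd (nat_lit 29) (.nd (nat_lit 27) (.nd (nat_lit 22) 
(.lf (nat_lit 4295229484) (dlOf (nat_lit 1) (nat_lit 0x4004000200080c0b02))) 
(.lf (nat_lit 63176748) (dlOf (nat_lit 1) (nat_lit 0x8008000c002000200099f0983)))) 
(.nd (nat_lit 31) (.lf (nat_lit 4429447212) (dlOf (nat_lit 1) (nat_lit 0x4004000200080c0b02))) 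
(.lf (nat_lit 6576930860) (dlOf (nat_lit 1) (nat_lit 0x4004000200081c0602))))) (.nd (nat_lit 7) 
(.nd (nat_lit 8) (.nd (nat_lit 9) 
(.lf (nat_lit 3020193836) (dlOf (nat_lit 2) (nat_lit 0x240200001d0200020028150401))) 
(.lf (nat_lit 5234787884) (dlOf (nat_lit 1) (nat_lit 0x1400180d3781)))) 
(.lf (nat_lit 2885945132) (dlOf (nat_lit 1) (nat_lit 0xa0028143d81)))) (.nd (nat_lit 9) 
(.lf (nat_lit 5301862572) (dlOf (nat_lit 2) (nat_lit 0xf80110000a8180c1500))) 
(.lf (nat_lit 2818839212) (dlOf (nat_lit 1) (nat_lit 0x9c002006a0008128c82)))))) (.nd (nat_lit 7) 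
(.nd (nat_lit 22) (.nd (nat_lit 15) 
(.lf (nat_lit 44302380) (dlOf (nat_lit 1) (nat_lit 0x400292f0c01))) 
(.lf (nat_lit 44335148) (dlOf (nat_lit 6) (nat_lit 0xcc7c0008627000f3078000381800898f80048c4e001e60f000f2dc0000342000918f80050c4e001e60f00112dc0000302000a18f80054c4e001e60f00102dc00002c2000218f80018c4e0000004001400192f0c01)))) 
(.nd (nat_lit 9) (.lf (nat_lit 16023596) (dlOf (nat_lit 1) (nat_lit 0x20018860801))) 
(.lf (nat_lit 23364140) (dlOf (nat_lit 3) (nat_lit 0xec0000000702019827900000018b80e80))))) 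
(.nd (nat_lit 20) (.nd (nat_lit 15) (.nd (nat_lit 22) 
(.lf (nat_lit 61080748) (dlOf (nat_lit 1) (nat_lit 0x4002000200098c2c02))) 
(.lf (nat_lit 48497836) (dlOf (nat_lit 2) (nat_lit 0x28cfc0005902000e0029402c01)))) 
(.lf (nat_lit 69502124) (dlOf (nat_lit 2) (nat_lit 0x80b000017c0800400080054002001e0008a82c03)))) 
(.nd (nat_lit 9) (.lf (nat_lit 36963500) (dlOf (nat_lit 1) (nat_lit 0x10008000800200040009072c03))) 
(.lf (nat_lit 20190892) (dlOf (nat_lit 1) (nat_lit 0xbf80080004002032800089da003))))))) 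
(.nd (nat_lit 26) (.nd (nat_lit 31) (.nd (nat_lit 9) (.nd (nat_lit 15) 
(.lf (nat_lit 1343488044) (dlOf (nat_lit 3) (nat_lit 0xd0150001700800980000004804008c00200060008260802))) 
(.nd (nat_lit 27) 
(.lf (nat_lit 1879343148) (dlOf (nat_lit 1) (nat_lit 0x480080044002005a00080e0a03))) 
(.lf (nat_lit 1476689964) (dlOf (nat_lit 1) (nat_lit 0x10002001a0008120802))))) 
(.lf (nat_lit 1074037292) (dlOf (nat_lit 2) (nat_lit 0x19402700000018090e80)))) (.nd (nat_lit 8) 
(.nd (nat_lit 9) (.lf (nat_lit 3758391340) (dlOf (nat_lit 1) (nat_lit 0x80018170401))) 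
(.lf (nat_lit 3221520940) (dlOf (nat_lit 6) (nat_lit 0x2a803800740180082000000120300510070000880802900380104000000200400b20000000e810045000000070080268008010c002004e0008128003)))) 
(.nd (nat_lit 7) (.lf (nat_lit 3489926444) (dlOf (nat_lit 1) (nat_lit 0x400200020008006802))) 
(.lf (nat_lit 4026827180) (dlOf (nat_lit 2) (nat_lit 0xe02e00100168033a8100130008006400200260008090783)))))) 
(.nd (nat_lit 9) (.nd (nat_lit 7) (.nd (nat_lit 27) 
(.lf (nat_lit 5972951084) (dlOf (nat_lit 1) (nat_lit 0x4004000200081c0602))) 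
(.lf (nat_lit 3691249708) (dlOf (nat_lit 1) (nat_lit 0x34002001c00080e0802)))) (.nd (nat_lit 10) 
(.lf (nat_lit 3288596908) (dlOf (nat_lit 2) (nat_lit 0x5005a0074102004c0028090781))) 
(.lf (nat_lit 3557070252) (dlOf (nat_lit 8) (nat_lit 0x8008014b604003003800a4602000a0650052281000a00e0028e80800e01bc00180d000a34040098068004c0100028cc1000080800145004000c00200020008129902))))) 
(.nd (nat_lit 15) (.nd (nat_lit 27) 
(.lf (nat_lit 5704517164) (dlOf (nat_lit 1) (nat_lit 0x5c4002031e00080d3782))) 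
(.lf (nat_lit 6375605804) (dlOf (nat_lit 1) (nat_lit 0x1000200020008003782)))) (.nd (nat_lit 10) 
(.lf (nat_lit 1946452524) (dlOf (nat_lit 2) (nat_lit 0x19402700000018090e80))) 
(.lf (nat_lit 4096034348) (dlOf (nat_lit 1) (nat_lit 0x15600280e3781)))))))) (.nd (nat_lit 20) 
(.nd (nat_lit 21) (.nd (nat_lit 27) (.nd (nat_lit 8) (.nd (nat_lit 15) 
(.lf (nat_lit 3557556268) (dlOf (nat_lit 2) (nat_lit 0x180d00144004003000400040008260702))) 
(.lf (nat_lit 13402156) (dlOf (nat_lit 1) (nat_lit 0x6000400140008720d02)))) (.nd (nat_lit 10) 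
(.lf (nat_lit 537664300) (dlOf (nat_lit 1) (nat_lit 0x8004000a00080fbc82))) 
(.lf (nat_lit 2752251692) (dlOf (nat_lit 1) (nat_lit 0xe0008003d81))))) (.nd (nat_lit 7) 
(.nd (nat_lit 9) 
(.lf (nat_lit 470548524) (dlOf (nat_lit 12) (nat_lit 0x15f04a000144080030250000a00401701280004f02003a0940002701000312380012008013891c00b038a0004704004a0940001f81002204a0000820400070080134128001c0810001b82004404a0000d808011825000041020003304001c0028120d01))) 
(.lf (nat_lit 6376131116) (dlOf (nat_lit 1) (nat_lit 0x80028095181)))) (.nd (nat_lit 8) 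
(.lf (nat_lit 5772148908) (dlOf (nat_lit 2) (nat_lit 0x105340001c04001c00200040008090602))) 
(.lf (nat_lit 4228678060) (dlOf (nat_lit 1) (nat_lit 0x1200181a0781)))))) (.nd (nat_lit 15) 
(.nd (nat_lit 26) (.nd (nat_lit 8) (.nd (nat_lit 28) 
(.lf (nat_lit 2883628) (dlOf (nat_lit 3) (nat_lit 0x3e0000000480815380000002204003c002000200081c0a82))) 
(.lf (nat_lit 3492544556) (dlOf (nat_lit 2) (nat_lit 0x540000001302000200180d0a81)))) 
(.lf (nat_lit 19667756) (dlOf (nat_lit 1) (nat_lit 0x8002000c00089dbc82)))) (.nd (nat_lit 7) 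
(.lf (nat_lit 2754347052) (dlOf (nat_lit 2) (nat_lit 0x540000001302000200180d0a81))) 
(.lf (nat_lit 472646828) (dlOf (nat_lit 1) (nat_lit 0x80080004002000200089e2c03))))) 
(.nd (nat_lit 31) (.nd (nat_lit 7) 
(.lf (nat_lit 2916396) (dlOf (nat_lit 1) (nat_lit 0x200181d0601))) 
(.lf (nat_lit 36473260) (dlOf (nat_lit 1) (nat_lit 0x20019074e81)))) (.nd (nat_lit 26) 
(.lf (nat_lit 3492577324) (dlOf (nat_lit 1) (nat_lit 0x200080034002001400080e0603))) 
(.lf (nat_lit 2754379820) (dlOf (nat_lit 1) (nat_lit 0x200080034002001400080e0603))))))) 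
(.nd (nat_lit 7) (.nd (nat_lit 24) (.nd (nat_lit 28) (.nd (nat_lit 23) 
(.lf (nat_lit 2755395628) (dlOf (nat_lit 1) (nat_lit 0x500028170601))) 
(.lf (nat_lit 45875244) (dlOf (nat_lit 1) (nat_lit 0x3000400140009360282)))) (.nd (nat_lit 15) 
(.lf (nat_lit 3493593132) (dlOf (nat_lit 1) (nat_lit 0x500028170601))) 
(.lf (nat_lit 1346142252) (dlOf (nat_lit 5) (nat_lit 0x8b102806485a0033828a019c0cf0009059001581cc0001618001840a008016800990a2804c833c000141002a82d0015214500aa0678000241805f05a002c028a015e0cf00a20630000002003e80080084002054a0008e60283))))) 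
(.nd (nat_lit 8) (.nd (nat_lit 15) 
(.lf (nat_lit 27000876) (dlOf (nat_lit 1) (nat_lit 0x400200020008ca0682))) 
(.lf (nat_lit 22839340) (dlOf (nat_lit 1) (nat_lit 0x5400400060018b30682)))) 
(.lf (nat_lit 20709676) (dlOf (nat_lit 1) (nat_lit 0x2200289d0b01))))) (.nd (nat_lit 8) 
(.nd (nat_lit 9) (.lf (nat_lit 1008501932) (dlOf (nat_lit 1) (nat_lit 0x1400200280008d12c02))) 
(.lf (nat_lit 8127148) (dlOf (nat_lit 1) (nat_lit 0x10008002400200060008511d83)))) 
(.nd (nat_lit 15) (.lf (nat_lit 8127916) (dlOf (nat_lit 1) (nat_lit 0x400200020008513602))) 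
(.lf (nat_lit 8160684) (dlOf (nat_lit 1) (nat_lit 0x400200020008513602))))))))) (.nd (nat_lit 28) 
(.nd (nat_lit 11) (.nd (nat_lit 9) (.nd (nat_lit 15) (.nd (nat_lit 7) (.nd (nat_lit 8) 
(.nd (nat_lit 20) 
(.lf (nat_lit 55050348) (dlOf (nat_lit 1) (nat_lit 0x68008004800200400009690b03))) 
(.lf (nat_lit 28835948) (dlOf (nat_lit 1) (nat_lit 0x400200020008da0482)))) 
(.lf (nat_lit 25952620) (dlOf (nat_lit 2) (nat_lit 0x1190c000250200020028c10a01)))) 
(.nd (nat_lit 10) (.lf (nat_lit 4966056428) (dlOf (nat_lit 1) (nat_lit 0x20028001381))) 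
(.lf (nat_lit 61867500) (dlOf (nat_lit 1) (nat_lit 0x60029923601))))) (.nd (nat_lit 19) 
(.nd (nat_lit 7) (.lf (nat_lit 39880044) (dlOf (nat_lit 1) (nat_lit 0xc00291f3481))) 
(.nd (nat_lit 26) 
(.lf (nat_lit 3221520876) (dlOf (nat_lit 6) (nat_lit 0x26c03e000d01e0026803800e401800360000001185014f01f003e003802040180012004004c0000000882809880f8012801c004c00c004d002000d00000003c14042807c007400e0016006002b001000040000001c0a022203e003d00700006c10063800806fc002010c0008127303))) 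
(.lf (nat_lit 6509855212) (dlOf (nat_lit 5) (nat_lit 0x1a8098000ba0400e004c0005c020100026000210100010130000f80800b8008001400200260008157303))))) 
(.nd (nat_lit 8) (.lf (nat_lit 48791660) (dlOf (nat_lit 1) (nat_lit 0xc0019431e81))) 
(.nd (nat_lit 10) (.lf (nat_lit 14188908) (dlOf (nat_lit 1) (nat_lit 0x2000200560008750a02))) 
(.lf (nat_lit 49841516) (dlOf (nat_lit 1) (nat_lit 0x80080008002000400094c3483))))))) 
(.nd (nat_lit 27) (.nd (nat_lit 7) (.nd (nat_lit 26) 
(.lf (nat_lit 2684355436) (dlOf (nat_lit 1) (nat_lit 0x400400020008002582))) (.nd (nat_lit 31) 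
(.lf (nat_lit 67109740) (dlOf (nat_lit 1) (nat_lit 0x8008000400200020008002583))) 
(.lf (nat_lit 2214593388) (dlOf (nat_lit 1) (nat_lit 0x400400020008002582))))) (.nd (nat_lit 19) 
(.nd (nat_lit 8) (.lf (nat_lit 6509561580) (dlOf (nat_lit 1) (nat_lit 0x40018003b01))) 
(.lf (nat_lit 536871916) (dlOf (nat_lit 1) (nat_lit 0x20008002881)))) (.nd (nat_lit 15) 
(.lf (nat_lit 49021932) (dlOf (nat_lit 1) (nat_lit 0xe0009462881))) 
(.lf (nat_lit 49841132) (dlOf (nat_lit 1) (nat_lit 0x4002000200094c2882)))))) (.nd (nat_lit 8) 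
(.nd (nat_lit 26) (.nd (nat_lit 29) 
(.lf (nat_lit 5502928492) (dlOf (nat_lit 1) (nat_lit 0x400400020008003902))) 
(.lf (nat_lit 4966057580) (dlOf (nat_lit 1) (nat_lit 0x400400020008003902)))) (.nd (nat_lit 10) 
(.lf (nat_lit 6643778156) (dlOf (nat_lit 1) (nat_lit 0x400200020008001802))) 
(.lf (nat_lit 6106908268) (dlOf (nat_lit 1) (nat_lit 0x400400020008003902))))) (.nd (nat_lit 7) 
(.nd (nat_lit 26) (.nd (nat_lit 29) 
(.lf (nat_lit 2281702252) (dlOf (nat_lit 1) (nat_lit 0x400400020008002582))) 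
(.lf (nat_lit 6039798636) (dlOf (nat_lit 1) (nat_lit 0x8008000400200020008002583)))) 
(.lf (nat_lit 6643778412) (dlOf (nat_lit 1) (nat_lit 0x8008000400200020008002583)))) 
(.lf (nat_lit 6576670700) (dlOf (nat_lit 1) (nat_lit 0x14c0028004601))))))) (.nd (nat_lit 7) 
(.nd (nat_lit 12) (.nd (nat_lit 9) (.nd (nat_lit 15) (.nd (nat_lit 21) 
(.lf (nat_lit 2885683564) (dlOf (nat_lit 1) (nat_lit 0x20028004e81))) 
(.lf (nat_lit 39848300) (dlOf (nat_lit 1) (nat_lit 0xa00291f4e81)))) (.nd (nat_lit 18) 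
(.lf (nat_lit 57182572) (dlOf (nat_lit 1) (nat_lit 0x18008000400200020009794e83))) 
(.nd (nat_lit 19) (.lf (nat_lit 56920428) (dlOf (nat_lit 1) (nat_lit 0x800200020009794e82))) 
(.lf (nat_lit 36473196) (dlOf (nat_lit 1) (nat_lit 0x20019074e81)))))) (.nd (nat_lit 15) 
(.nd (nat_lit 26) (.lf (nat_lit 5368712044) (dlOf (nat_lit 1) (nat_lit 0x400400020008005c02))) 
(.lf (nat_lit 5033167724) (dlOf (nat_lit 1) (nat_lit 0x400400020008005c02)))) (.nd (nat_lit 8) 
(.lf (nat_lit 5368744556) (dlOf (nat_lit 2) (nat_lit 0x12300900000008008800804d400200040008005383))) 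
(.lf (nat_lit 54299500) (dlOf (nat_lit 1) (nat_lit 0x400400020009655c02)))))) (.nd (nat_lit 26) 
(.nd (nat_lit 10) (.nd (nat_lit 29) 
(.lf (nat_lit 1073748332) (dlOf (nat_lit 1) (nat_lit 0x40040002000800ac82))) 
(.lf (nat_lit 536877420) (dlOf (nat_lit 1) (nat_lit 0x800800040020002000800ac83)))) 
(.lf (nat_lit 537664876) (dlOf (nat_lit 1) (nat_lit 0x1400180fc901)))) (.nd (nat_lit 31) 
(.nd (nat_lit 15) 
(.lf (nat_lit 201333100) (dlOf (nat_lit 1) (nat_lit 0x800800040020002000800ac83))) 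
(.lf (nat_lit 201365868) (dlOf (nat_lit 9) (nat_lit 0x310250001a0080188128003408c0006404006204a0003181001401f802a00f400c0074000e0380002d04003401f801980f4000b20800c407a0005802006203d0000281003701e80001008014800800540020044000800ac83)))) 
(.nd (nat_lit 10) (.lf (nat_lit 2348816748) (dlOf (nat_lit 1) (nat_lit 0x40020002000800ac82))) 
(.lf (nat_lit 2885688684) (dlOf (nat_lit 1) (nat_lit 0x40040004000800c902))))))) (.nd (nat_lit 8) 
(.nd (nat_lit 9) (.nd (nat_lit 10) (.nd (nat_lit 27) 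
(.lf (nat_lit 4362078444) (dlOf (nat_lit 1) (nat_lit 0x400400020008004b02))) 
(.lf (nat_lit 201328876) (dlOf (nat_lit 1) (nat_lit 0x400400020008004b02)))) (.nd (nat_lit 12) 
(.lf (nat_lit 2754645228) (dlOf (nat_lit 1) (nat_lit 0xc002000e00080f6502))) 
(.lf (nat_lit 603987180) (dlOf (nat_lit 1) (nat_lit 0x2001800c601))))) (.nd (nat_lit 12) 
(.nd (nat_lit 15) (.lf (nat_lit 57412332) (dlOf (nat_lit 1) (nat_lit 0xc00200020009795a02))) 
(.lf (nat_lit 40405740) (dlOf (nat_lit 1) (nat_lit 0x3e00191f5a01)))) 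
(.lf (nat_lit 2818841324) (dlOf (nat_lit 1) (nat_lit 0xe002812b981))))) (.nd (nat_lit 19) 
(.nd (nat_lit 10) (.nd (nat_lit 26) 
(.lf (nat_lit 4429191660) (dlOf (nat_lit 1) (nat_lit 0x80040002000800b282))) 
(.lf (nat_lit 2751470060) (dlOf (nat_lit 1) (nat_lit 0x14002800b281)))) 
(.lf (nat_lit 134221292) (dlOf (nat_lit 1) (nat_lit 0x400400020008006e82)))) (.nd (nat_lit 9) 
(.nd (nat_lit 15) (.lf (nat_lit 49809900) (dlOf (nat_lit 1) (nat_lit 0x200194c4f01))) 
(.lf (nat_lit 37259756) (dlOf (nat_lit 1) (nat_lit 0x4002000200090d4f02)))) 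
(.lf (nat_lit 67932140) (dlOf (nat_lit 1) (nat_lit 0x60018337a81)))))))) (.nd (nat_lit 26) 
(.nd (nat_lit 7) (.nd (nat_lit 31) (.nd (nat_lit 9) (.nd (nat_lit 10) (.nd (nat_lit 15) 
(.nd (nat_lit 27) 
(.lf (nat_lit 1342183532) (dlOf (nat_lit 2) (nat_lit 0x248584007813a00a208e0052383800a880))) 
(.lf (nat_lit 1476401260) (dlOf (nat_lit 1) (nat_lit 0x140040008001800a882)))) 
(.lf (nat_lit 1342216300) (dlOf (nat_lit 2) (nat_lit 0x1081f80148e04003c002000a000800a882)))) 
(.lf (nat_lit 1342182508) (dlOf (nat_lit 1) (nat_lit 0x6e0004033e0008009402)))) (.nd (nat_lit 8) 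
(.lf (nat_lit 5100538476) (dlOf (nat_lit 2) (nat_lit 0x8018000100a800076080004004000c00080d5382))) 
(.lf (nat_lit 2013268844) (dlOf (nat_lit 1) (nat_lit 0x400400020008005c02))))) (.nd (nat_lit 12) 
(.nd (nat_lit 9) (.lf (nat_lit 3489663340) (dlOf (nat_lit 1) (nat_lit 0x20008004e81))) 
(.nd (nat_lit 11) (.lf (nat_lit 4160750444) (dlOf (nat_lit 1) (nat_lit 0x400400020008002582))) 
(.lf (nat_lit 6710889324) (dlOf (nat_lit 1) (nat_lit 0x8008000400200020008005c03))))) 
(.nd (nat_lit 10) (.nd (nat_lit 29) 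
(.lf (nat_lit 2415925612) (dlOf (nat_lit 1) (nat_lit 0x40040002000800ac82))) 
(.lf (nat_lit 4026538348) (dlOf (nat_lit 1) (nat_lit 0x2001800ac81)))) 
(.lf (nat_lit 3489668460) (dlOf (nat_lit 2) (nat_lit 0x486e800cfc0400740040006000800c902)))))) 
(.nd (nat_lit 12) (.nd (nat_lit 15) (.nd (nat_lit 11) 
(.lf (nat_lit 1342702060) (dlOf (nat_lit 1) (nat_lit 0x200180c0d01))) (.nd (nat_lit 18) 
(.lf (nat_lit 5773986284) (dlOf (nat_lit 1) (nat_lit 0x4004000200080e4f02))) 
(.lf (nat_lit 5773724140) (dlOf (nat_lit 1) (nat_lit 0x200280e4f01))))) (.nd (nat_lit 8) 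
(.lf (nat_lit 1879084268) (dlOf (nat_lit 2) (nat_lit 0x20088000320200060008006501))) 
(.lf (nat_lit 1881704940) (dlOf (nat_lit 1) (nat_lit 0x280028fe4f01))))) (.nd (nat_lit 8) 
(.nd (nat_lit 9) (.lf (nat_lit 2952797420) (dlOf (nat_lit 1) (nat_lit 0x4002800c601))) 
(.lf (nat_lit 2952829676) (dlOf (nat_lit 1) (nat_lit 0x80080004002000c000800b983)))) 
(.nd (nat_lit 9) (.nd (nat_lit 10) 
(.lf (nat_lit 2415925740) (dlOf (nat_lit 1) (nat_lit 0x80040002000800b282))) 
(.lf (nat_lit 4161017324) (dlOf (nat_lit 1) (nat_lit 0xc00180a9c01)))) 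
(.lf (nat_lit 1342182380) (dlOf (nat_lit 1) (nat_lit 0x300028009201))))))) (.nd (nat_lit 11) 
(.nd (nat_lit 7) (.nd (nat_lit 8) (.nd (nat_lit 9) 
(.lf (nat_lit 1006638188) (dlOf (nat_lit 1) (nat_lit 0x8008000400200020008009403))) 
(.nd (nat_lit 12) (.lf (nat_lit 4630513260) (dlOf (nat_lit 1) (nat_lit 0x400400020008003902))) 
(.lf (nat_lit 2617284204) (dlOf (nat_lit 1) (nat_lit 0x120008009c81))))) (.nd (nat_lit 10) 
(.lf (nat_lit 3154379116) (dlOf (nat_lit 1) (nat_lit 0x400200020008160a02))) 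
(.lf (nat_lit 473466220) (dlOf (nat_lit 1) (nat_lit 0xc40018f53481))))) (.nd (nat_lit 10) 
(.nd (nat_lit 20) (.nd (nat_lit 9) 
(.lf (nat_lit 470286828) (dlOf (nat_lit 1) (nat_lit 0x200180c0d01))) 
(.lf (nat_lit 469767148) (dlOf (nat_lit 1) (nat_lit 0x280028009201)))) (.nd (nat_lit 15) 
(.lf (nat_lit 473695212) (dlOf (nat_lit 1) (nat_lit 0x20018fa2881))) 
(.lf (nat_lit 473465836) (dlOf (nat_lit 1) (nat_lit 0x2c004000c0008f52882))))) (.nd (nat_lit 8) 
(.lf (nat_lit 4630512876) (dlOf (nat_lit 1) (nat_lit 0x8008000400200040008002e83))) 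
(.nd (nat_lit 12) (.lf (nat_lit 1410107372) (dlOf (nat_lit 1) (nat_lit 0x1c004016800180f4602))) 
(.lf (nat_lit 1543509996) (dlOf (nat_lit 1) (nat_lit 0x2001800a601))))))) (.nd (nat_lit 9) 
(.nd (nat_lit 8) (.nd (nat_lit 7) 
(.lf (nat_lit 3557038188) (dlOf (nat_lit 4) (nat_lit 0x3e0320067018400440b600a4045009e01100297028000818400680c000aa0220052383000101c00005408008000800780020018000812a883))) 
(.nd (nat_lit 10) (.lf (nat_lit 3690993900) (dlOf (nat_lit 1) (nat_lit 0x4001800a901))) 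
(.lf (nat_lit 1409289452) (dlOf (nat_lit 1) (nat_lit 0x400400040008006502))))) (.nd (nat_lit 7) 
(.lf (nat_lit 1006639468) (dlOf (nat_lit 1) (nat_lit 0x800800040020002000800ac83))) 
(.nd (nat_lit 10) (.lf (nat_lit 6377703916) (dlOf (nat_lit 1) (nat_lit 0x200280e4f01))) 
(.lf (nat_lit 4227861996) (dlOf (nat_lit 1) (nat_lit 0x400400020008006e82)))))) (.nd (nat_lit 27) 
(.nd (nat_lit 8) (.lf (nat_lit 5167417964) (dlOf (nat_lit 1) (nat_lit 0x80028055381))) 
(.nd (nat_lit 10) 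
(.lf (nat_lit 5167418220) (dlOf (nat_lit 1) (nat_lit 0x8008000800200040008055c03))) 
(.lf (nat_lit 3557035884) (dlOf (nat_lit 2) (nat_lit 0x1c07000a580200020018127781))))) 
(.nd (nat_lit 8) (.lf (nat_lit 5301602924) (dlOf (nat_lit 1) (nat_lit 0x20028005381))) 
(.nd (nat_lit 29) (.lf (nat_lit 4764732268) (dlOf (nat_lit 1) (nat_lit 0x400400020008005c02))) 
(.lf (nat_lit 5301603180) (dlOf (nat_lit 1) (nat_lit 0x80080018002000c0008005c03))))))))))) 
(.nd (nat_lit 15) (.nd (nat_lit 7) (.nd (nat_lit 19) (.nd (nat_lit 28) (.nd (nat_lit 18) 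
(.nd (nat_lit 6) (.nd (nat_lit 9) (.nd (nat_lit 8) (.nd (nat_lit 11) 
(.lf (nat_lit 28319788) (dlOf (nat_lit 1) (nat_lit 0x400200020008d80802))) 
(.lf (nat_lit 4362090540) (dlOf (nat_lit 1) (nat_lit 0x80040002001800a602)))) 
(.lf (nat_lit 2105644) (dlOf (nat_lit 1) (nat_lit 0xb00080004002001e0008150503)))) 
(.nd (nat_lit 10) 
(.lf (nat_lit 40903212) (dlOf (nat_lit 2) (nat_lit 0x200000007204002400200120009208a02))) 
(.lf (nat_lit 4966065708) (dlOf (nat_lit 1) (nat_lit 0x400400020008003782))))) (.nd (nat_lit 8) 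
(.nd (nat_lit 9) (.nd (nat_lit 10) 
(.lf (nat_lit 47194220) (dlOf (nat_lit 1) (nat_lit 0x800193b0a81))) 
(.lf (nat_lit 2754620524) (dlOf (nat_lit 1) (nat_lit 0x400180f6081)))) (.nd (nat_lit 20) 
(.lf (nat_lit 5368719980) (dlOf (nat_lit 2) (nat_lit 0x210090000000800300080008002001c0008005383))) 
(.lf (nat_lit 19933804) (dlOf (nat_lit 4) (nat_lit 0x12145000278100020a78000c408005850800000040020004000e00089d5382))))) 
(.nd (nat_lit 12) (.lf (nat_lit 51390828) (dlOf (nat_lit 1) (nat_lit 0x4000200120009514e82))) 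
(.lf (nat_lit 201341292) (dlOf (nat_lit 1) (nat_lit 0x3c002800ac81)))))) (.nd (nat_lit 23) 
(.nd (nat_lit 6) (.nd (nat_lit 8) (.nd (nat_lit 9) 
(.lf (nat_lit 67379244) (dlOf (nat_lit 1) (nat_lit 0x4004000200080f0402))) 
(.lf (nat_lit 1074012716) (dlOf (nat_lit 2) (nat_lit 0x1e402700000018090e80)))) 
(.lf (nat_lit 2885953324) (dlOf (nat_lit 1) (nat_lit 0x200028143d81)))) (.nd (nat_lit 8) 
(.lf (nat_lit 2349080684) (dlOf (nat_lit 2) (nat_lit 0x1a80a000032040044004001c00080a1482))) 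
(.lf (nat_lit 1208230252) (dlOf (nat_lit 1) (nat_lit 0x10002000400080a7602))))) (.nd (nat_lit 24) 
(.nd (nat_lit 25) (.lf (nat_lit 10756140) (dlOf (nat_lit 1) (nat_lit 0x400400140008620602))) 
(.lf (nat_lit 44310572) (dlOf (nat_lit 6) (nat_lit 0x431f0002989c0001c08001cc7c00106270000682000731f0004189c00018080024c7c000e6270000582000a31f0003989c00000080030002000a00092f0c02)))) 
(.nd (nat_lit 20) 
(.lf (nat_lit 25436204) (dlOf (nat_lit 2) (nat_lit 0x1d5808000cc0800a0008003400200160008c00603))) 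
(.lf (nat_lit 62136364) (dlOf (nat_lit 2) (nat_lit 0x7000000094080008008002000200060009960303))))))) 
(.nd (nat_lit 6) (.nd (nat_lit 8) (.nd (nat_lit 10) (.nd (nat_lit 9) 
(.lf (nat_lit 3691257900) (dlOf (nat_lit 2) (nat_lit 0x1805400c000c000000400040008100701))) 
(.nd (nat_lit 11) (.lf (nat_lit 1946427948) (dlOf (nat_lit 2) (nat_lit 0x1e402700000018090e80))) 
(.lf (nat_lit 1881418284) (dlOf (nat_lit 2) (nat_lit 0x20e000060018f05180))))) (.nd (nat_lit 27) 
(.lf (nat_lit 335554092) (dlOf (nat_lit 1) (nat_lit 0x8008000400200020008003783))) 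
(.lf (nat_lit 6375351852) (dlOf (nat_lit 1) (nat_lit 0x1400200020008003782))))) (.nd (nat_lit 9) 
(.nd (nat_lit 18) 
(.lf (nat_lit 3489672492) (dlOf (nat_lit 1) (nat_lit 0xa80080004002000e0008006803))) 
(.lf (nat_lit 3489934636) (dlOf (nat_lit 2) (nat_lit 0x1c116000000200020018006801)))) 
(.nd (nat_lit 26) (.lf (nat_lit 2415929132) (dlOf (nat_lit 1) (nat_lit 0x400400020008003d82))) 
(.lf (nat_lit 1006642988) (dlOf (nat_lit 1) (nat_lit 0x20008003d81)))))) (.nd (nat_lit 8) 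
(.nd (nat_lit 11) (.nd (nat_lit 12) 
(.lf (nat_lit 2483298412) (dlOf (nat_lit 2) (nat_lit 0x1a80a000032040044004001c00080a1482))) 
(.lf (nat_lit 3557044332) (dlOf (nat_lit 2) (nat_lit 0xc07e004690200200008127d81)))) 
(.nd (nat_lit 26) (.nd (nat_lit 27) 
(.lf (nat_lit 1342191724) (dlOf (nat_lit 1) (nat_lit 0x800800180020004000800a883))) 
(.lf (nat_lit 1476409452) (dlOf (nat_lit 5) (nat_lit 0x170044014bc040cc0022028200e0052e02000100b80291c08012000000000040004002001e000800a882)))) 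
(.lf (nat_lit 3691001964) (dlOf (nat_lit 4) (nat_lit 0x13202c00960150002806403a000a00a5c08002602a00020148002808800080360012019000600a00010048016000a0036002005238900550000000000801c00080028002003a000800a883))))) 
(.nd (nat_lit 9) (.nd (nat_lit 10) 
(.lf (nat_lit 3489933676) (dlOf (nat_lit 2) (nat_lit 0x208b00978018004e80))) 
(.lf (nat_lit 3624152428) (dlOf (nat_lit 1) (nat_lit 0x140028146b01)))) (.nd (nat_lit 10) 
(.lf (nat_lit 5771373420) (dlOf (nat_lit 1) (nat_lit 0x400400020008005c02))) 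
(.lf (nat_lit 1476407148) (dlOf (nat_lit 2) (nat_lit 0x2005c014b004001c00200100008007782)))))))) 
(.nd (nat_lit 23) (.nd (nat_lit 27) (.nd (nat_lit 29) (.nd (nat_lit 24) (.nd (nat_lit 10) 
(.nd (nat_lit 21) (.lf (nat_lit 6510092332) (dlOf (nat_lit 1) (nat_lit 0x4004000200081c0602))) 
(.lf (nat_lit 2629676) (dlOf (nat_lit 4) (nat_lit 0xd52e8003a95000054a6000e306000ca540007101000252a00022948000f608007000400020008180b02)))) 
(.lf (nat_lit 1344807980) (dlOf (nat_lit 2) (nat_lit 0x70468019f8080088008000400200040008982883)))) 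
(.nd (nat_lit 9) (.nd (nat_lit 25) 
(.lf (nat_lit 21504044) (dlOf (nat_lit 2) (nat_lit 0x33b2000000040058004003c0008a40302))) 
(.lf (nat_lit 55058476) (dlOf (nat_lit 5) (nat_lit 0x1096800180f40001c08000407a0000d02000412d00006010004096800100f400016080018004000e00096a0c02)))) 
(.lf (nat_lit 50864684) (dlOf (nat_lit 2) (nat_lit 0x15ca80001c8194d8a00))))) (.nd (nat_lit 28) 
(.nd (nat_lit 21) (.lf (nat_lit 5906112556) (dlOf (nat_lit 1) (nat_lit 0x4004000200081c0602))) 
(.lf (nat_lit 2754093100) (dlOf (nat_lit 9) (nat_lit 0x7b011203fe088000120201ed04480fe8220000440800a01120002002001e0890000f8101e90fc00f885640003208075c3f003ac1590000c0201ac0fc00d605640002c0806ac3f003561590000a0280c0d00)))) 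
(.nd (nat_lit 31) 
(.lf (nat_lit 1879580716) (dlOf (nat_lit 1) (nat_lit 0x8008000400200020008200883))) 
(.lf (nat_lit 4027064364) (dlOf (nat_lit 2) (nat_lit 0x38018001800000cda04000400281d0a01)))))) 
(.nd (nat_lit 26) (.nd (nat_lit 6) (.nd (nat_lit 29) 
(.lf (nat_lit 134750252) (dlOf (nat_lit 1) (nat_lit 0x1a00280a0981))) 
(.lf (nat_lit 2819104812) (dlOf (nat_lit 1) (nat_lit 0x4600081a0681)))) (.nd (nat_lit 29) 
(.lf (nat_lit 134750316) (dlOf (nat_lit 1) (nat_lit 0x88008007c002002600080a1483))) 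
(.lf (nat_lit 3892846700) (dlOf (nat_lit 12) (nat_lit 0x58060009d0040018032004e50200040190027081000500c801380080030064009ae040004032004d3020008016000700a00127c1000380500093c0400080280049d02000c0140024b01000b00a00124c0802c0008017400200920008280483))))) 
(.nd (nat_lit 28) (.nd (nat_lit 6) 
(.lf (nat_lit 201859116) (dlOf (nat_lit 1) (nat_lit 0x1a00280a0981))) 
(.lf (nat_lit 201859180) (dlOf (nat_lit 1) (nat_lit 0x88008007c002002600080a1483)))) 
(.nd (nat_lit 18) (.lf (nat_lit 474488876) (dlOf (nat_lit 1) (nat_lit 0x20019180281))) 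
(.lf (nat_lit 471605292) (dlOf (nat_lit 1) (nat_lit 0x70002002c0008350802))))))) (.nd (nat_lit 18) 
(.nd (nat_lit 20) (.nd (nat_lit 22) 
(.lf (nat_lit 27795500) (dlOf (nat_lit 2) (nat_lit 0x13519800090080040008006c00200020008d20803))) 
(.lf (nat_lit 15212588) (dlOf (nat_lit 3) (nat_lit 0x7a1b0000a40400f8e10005a411000258287c0680)))) 
(.nd (nat_lit 6) (.lf (nat_lit 9969708) (dlOf (nat_lit 1) (nat_lit 0x200085a0d01))) 
(.lf (nat_lit 28844140) (dlOf (nat_lit 1) (nat_lit 0x20028da0481))))) (.nd (nat_lit 20) 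
(.nd (nat_lit 22) (.lf (nat_lit 59514924) (dlOf (nat_lit 1) (nat_lit 0x6000400160009800282))) 
(.lf (nat_lit 13377580) (dlOf (nat_lit 14) (nat_lit 0x2a2c7201735140002a870001d3f8001295e00c14980061a46800351f801f0484001e230000511600014458000d450000691a0004f040379514001ea4c000114100cad450000880406f6a280041498000218200f4a8a800108080795454000820403fea2a000400200fd5140001f810143a8a0035d260000700800b6c720277514001ca84000bd3f8033693000dd367005c1210000dc3801cd8e402fea28004b5080029a7f0058d26001f4484000360c025551400a0a4c0000b01001c8008032c00200bc0008720d03)))) 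
(.nd (nat_lit 21) (.lf (nat_lit 27009068) (dlOf (nat_lit 2) (nat_lit 0x9d8500029018ca0680))) 
(.lf (nat_lit 29106220) (dlOf (nat_lit 1) (nat_lit 0x2a000400bc0008dc0b02)))))))) (.nd (nat_lit 6) 
(.nd (nat_lit 9) (.nd (nat_lit 10) (.nd (nat_lit 26) (.nd (nat_lit 18) 
(.lf (nat_lit 6710897068) (dlOf (nat_lit 1) (nat_lit 0x20028004e81))) 
(.lf (nat_lit 3489933740) (dlOf (nat_lit 1) (nat_lit 0x20008004e81)))) (.nd (nat_lit 20) 
(.nd (nat_lit 28) (.lf (nat_lit 3288345004) (dlOf (nat_lit 1) (nat_lit 0x400400020008004e82))) 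
(.lf (nat_lit 1946167724) (dlOf (nat_lit 1) (nat_lit 0x400400020008004e82)))) 
(.lf (nat_lit 2754619820) (dlOf (nat_lit 1) (nat_lit 0x200180f4e81))))) (.nd (nat_lit 8) 
(.nd (nat_lit 18) (.lf (nat_lit 36709548) (dlOf (nat_lit 1) (nat_lit 0x20019072c01))) 
(.nd (nat_lit 25) (.lf (nat_lit 1345070252) (dlOf (nat_lit 1) (nat_lit 0xc002001c00089e2c02))) 
(.lf (nat_lit 36447404) (dlOf (nat_lit 1) (nat_lit 0x180009072c01))))) (.nd (nat_lit 11) 
(.lf (nat_lit 3557045676) (dlOf (nat_lit 18) (nat_lit 0x2340e4002a03f0052d820048039002900fc014b40802340e4005c03f0052c82008602300410070014a20800180e2011c046008700e00293c1805a81c802d808c005a03f00ae00e0029182005481c802ec08c003203f00ae00e0029142005c81c801c008c00a601c0051e030090023004e00700147408017008c00cc01c0051c8200cb03780860124044809001ee02100dc0100028d02802501bc00380d0023604901250240085008403e404000a330c0004049005180100d003780840124043c09001fc02100e90100028a828009812400340900054021005148300ca03780840124043c09001e002100d80100028a02803101240050090001c021000601000289c200380008013000200080008129903)))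 
(.nd (nat_lit 26) 
(.lf (nat_lit 134233516) (dlOf (nat_lit 1) (nat_lit 0x1800800040020002000800cc03))) 
(.lf (nat_lit 4227874220) (dlOf (nat_lit 1) (nat_lit 0x4001800cc01))))))) (.nd (nat_lit 8) 
(.nd (nat_lit 11) (.nd (nat_lit 18) (.nd (nat_lit 27) 
(.lf (nat_lit 603992748) (dlOf (nat_lit 2) (nat_lit 0x3a045001fa018008c80))) 
(.lf (nat_lit 469775020) (dlOf (nat_lit 1) (nat_lit 0x20018008c81)))) 
(.lf (nat_lit 8139436) (dlOf (nat_lit 1) (nat_lit 0x60028518c81)))) (.nd (nat_lit 26) 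
(.lf (nat_lit 1476410028) (dlOf (nat_lit 2) (nat_lit 0x58000000bc0400200020018000800b782))) 
(.lf (nat_lit 3691002540) (dlOf (nat_lit 1) (nat_lit 0x24800801b80020004000800b783))))) 
(.nd (nat_lit 26) (.nd (nat_lit 11) 
(.lf (nat_lit 2281710508) (dlOf (nat_lit 1) (nat_lit 0x40028002681))) (.nd (nat_lit 20) 
(.lf (nat_lit 5368720300) (dlOf (nat_lit 1) (nat_lit 0x400400020008005d02))) 
(.lf (nat_lit 19934124) (dlOf (nat_lit 1) (nat_lit 0x3400080160002004600089d5d03))))) 
(.nd (nat_lit 10) (.nd (nat_lit 18) 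
(.lf (nat_lit 4764740524) (dlOf (nat_lit 1) (nat_lit 0x8008000400200020008005d03))) 
(.lf (nat_lit 4496567212) (dlOf (nat_lit 4) (nat_lit 0xb01a000580c80000e0800040680000602001803400010190000001000080080014002005000080e5d03)))) 
(.lf (nat_lit 4362086316) (dlOf (nat_lit 1) (nat_lit 0x60002005a0008004302))))))) (.nd (nat_lit 26) 
(.nd (nat_lit 30) (.nd (nat_lit 11) (.nd (nat_lit 9) 
(.lf (nat_lit 2281715180) (dlOf (nat_lit 1) (nat_lit 0x28008000c00200080008009c03))) 
(.lf (nat_lit 49030124) (dlOf (nat_lit 1) (nat_lit 0x400400020009462882)))) (.nd (nat_lit 18) 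
(.lf (nat_lit 53488108) (dlOf (nat_lit 1) (nat_lit 0x200295f4f01))) (.nd (nat_lit 19) 
(.lf (nat_lit 50604524) (dlOf (nat_lit 1) (nat_lit 0x200194c4f01))) 
(.lf (nat_lit 33303020) (dlOf (nat_lit 1) (nat_lit 0xc0028f54f01)))))) (.nd (nat_lit 10) 
(.nd (nat_lit 8) (.lf (nat_lit 3892846828) (dlOf (nat_lit 2) (nat_lit 0x20190003c818280600))) 
(.nd (nat_lit 12) (.lf (nat_lit 5772681708) (dlOf (nat_lit 1) (nat_lit 0x80008091381))) 
(.lf (nat_lit 1342190060) (dlOf (nat_lit 1) (nat_lit 0x20018008681))))) (.nd (nat_lit 8) 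
(.lf (nat_lit 5772944620) (dlOf (nat_lit 1) (nat_lit 0x40008000400200120008092e83))) 
(.nd (nat_lit 9) (.lf (nat_lit 1342193132) (dlOf (nat_lit 1) (nat_lit 0x40020002000800cd02))) 
(.lf (nat_lit 3221235692) (dlOf (nat_lit 1) (nat_lit 0xc002000a0008004602))))))) (.nd (nat_lit 10) 
(.nd (nat_lit 11) (.nd (nat_lit 8) 
(.lf (nat_lit 471343340) (dlOf (nat_lit 1) (nat_lit 0x400282e0601))) (.nd (nat_lit 9) 
(.lf (nat_lit 6509830636) (dlOf (nat_lit 1) (nat_lit 0x20018157301))) 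
(.lf (nat_lit 2751472620) (dlOf (nat_lit 1) (nat_lit 0x20018002881))))) (.nd (nat_lit 12) 
(.nd (nat_lit 18) (.lf (nat_lit 4093651436) (dlOf (nat_lit 1) (nat_lit 0x20028004f01))) 
(.lf (nat_lit 4093913580) (dlOf (nat_lit 1) (nat_lit 0x20028004f01)))) 
(.lf (nat_lit 201341420) (dlOf (nat_lit 2) (nat_lit 0x180d8013260400640040014000800b282))))) 
(.nd (nat_lit 9) (.nd (nat_lit 8) 
(.lf (nat_lit 2754620652) (dlOf (nat_lit 1) (nat_lit 0x2200180f6501))) (.nd (nat_lit 27) 
(.lf (nat_lit 67122668) (dlOf (nat_lit 1) (nat_lit 0x20008009c01))) 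
(.lf (nat_lit 6643791340) (dlOf (nat_lit 1) (nat_lit 0x20028009c01))))) (.nd (nat_lit 8) 
(.lf (nat_lit 1811949292) (dlOf (nat_lit 1) (nat_lit 0x740008003b01))) (.nd (nat_lit 18) 
(.lf (nat_lit 1543518188) (dlOf (nat_lit 1) (nat_lit 0x2002800a601))) 
(.lf (nat_lit 1410086892) (dlOf (nat_lit 1) (nat_lit 0x14004002200080fa602)))))))))) 
(.nd (nat_lit 18) (.nd (nat_lit 19) (.nd (nat_lit 8) (.nd (nat_lit 7) (.nd (nat_lit 9) 
(.nd (nat_lit 22) (.nd (nat_lit 26) 
(.lf (nat_lit 1343266860) (dlOf (nat_lit 2) (nat_lit 0x5461ad000258181e0680))) 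
(.lf (nat_lit 470851628) (dlOf (nat_lit 2) (nat_lit 0x2006a00009604004c004001c00181c0682)))) 
(.lf (nat_lit 13672492) (dlOf (nat_lit 2) (nat_lit 0x2c73430000c8080058008022400201140008740603)))) 
(.nd (nat_lit 10) 
(.lf (nat_lit 11575852) (dlOf (nat_lit 3) (nat_lit 0x5c718c0000e0403344d60000002000600286c0e81))) 
(.nd (nat_lit 26) (.lf (nat_lit 4563445292) (dlOf (nat_lit 1) (nat_lit 0xc00400040018003782))) 
(.lf (nat_lit 5435860524) (dlOf (nat_lit 1) (nat_lit 0x1c8002013c0008003782)))))) (.nd (nat_lit 6) 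
(.nd (nat_lit 20) 
(.lf (nat_lit 60859564) (dlOf (nat_lit 1) (nat_lit 0x100080004002000200098c2c03))) 
(.nd (nat_lit 22) (.lf (nat_lit 36742316) (dlOf (nat_lit 1) (nat_lit 0x20019072c01))) 
(.lf (nat_lit 49325228) (dlOf (nat_lit 1) (nat_lit 0xe0019462c01))))) (.nd (nat_lit 9) 
(.lf (nat_lit 2754653420) (dlOf (nat_lit 4) (nat_lit 0xe80e40006c0400280d80003402000a03c000b0018000c010006000800a0002001800080f6503))) 
(.lf (nat_lit 3623921388) (dlOf (nat_lit 1) (nat_lit 0x800400040008003b02)))))) (.nd (nat_lit 12) 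
(.nd (nat_lit 6) (.nd (nat_lit 7) (.lf (nat_lit 42796) (dlOf (nat_lit 1) (nat_lit 0x20028003d81))) 
(.nd (nat_lit 26) (.lf (nat_lit 1342220716) (dlOf (nat_lit 1) (nat_lit 0x60028004e81))) 
(.lf (nat_lit 1946200492) (dlOf (nat_lit 1) (nat_lit 0x400400020008004e82))))) (.nd (nat_lit 7) 
(.lf (nat_lit 42348) (dlOf (nat_lit 1) (nat_lit 0x20018003481))) 
(.lf (nat_lit 469804012) (dlOf (nat_lit 1) (nat_lit 0xa0028002881))))) (.nd (nat_lit 6) 
(.nd (nat_lit 7) (.lf (nat_lit 3489708844) (dlOf (nat_lit 1) (nat_lit 0x2002800bc81))) 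
(.nd (nat_lit 26) 
(.lf (nat_lit 1476441516) (dlOf (nat_lit 2) (nat_lit 0x601f800280780146608000400200560008009902))) 
(.lf (nat_lit 3691034028) (dlOf (nat_lit 12) (nat_lit 0x240240040011000f807c0084036012c019001800a80150050007c024002c00b0052d8900400110007007c02b003200500150022009001d8018014b218005001400280000052882003c005002180000149e0800e804400b4019003f005001100180148c1000d004400f4019002300a801d802800b400c005a00000522860023005002908080040088000c01400480060051e03000d0050028ec08000802801474040040000000000203660018009901))))) 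
(.nd (nat_lit 9) (.lf (nat_lit 2617292268) (dlOf (nat_lit 1) (nat_lit 0x20028009c01))) 
(.lf (nat_lit 3221272556) (dlOf (nat_lit 1) (nat_lit 0x140040006000800a602))))))) (.nd (nat_lit 21) 
(.nd (nat_lit 28) (.nd (nat_lit 22) (.nd (nat_lit 26) 
(.lf (nat_lit 2819137580) (dlOf (nat_lit 1) (nat_lit 0x26c004012e00081a0682))) 
(.lf (nat_lit 1678286892) (dlOf (nat_lit 4) (nat_lit 0x3c00000075810039025800e8000001b008000c0700000002000400081d0b01)))) 
(.nd (nat_lit 6) (.nd (nat_lit 24) 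
(.lf (nat_lit 2756223020) (dlOf (nat_lit 1) (nat_lit 0x18008001400200060008220a83))) 
(.lf (nat_lit 21536812) (dlOf (nat_lit 2) (nat_lit 0x13b2000000040060004002e0018a40302)))) 
(.lf (nat_lit 14197100) (dlOf (nat_lit 1) (nat_lit 0x20028750a01))))) (.nd (nat_lit 26) 
(.nd (nat_lit 22) (.nd (nat_lit 30) 
(.lf (nat_lit 805871660) (dlOf (nat_lit 4) (nat_lit 0x3c00000075810039025800e8000001b208000c0700000002000400081d0b01))) 
(.lf (nat_lit 1879613484) (dlOf (nat_lit 1) (nat_lit 0x20028240881)))) 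
(.lf (nat_lit 3494420524) (dlOf (nat_lit 1) (nat_lit 0x18008001400200060008220a83)))) 
(.nd (nat_lit 6) (.lf (nat_lit 6375908908) (dlOf (nat_lit 1) (nat_lit 0x400200020008003782))) 
(.lf (nat_lit 3154681964) (dlOf (nat_lit 1) (nat_lit 0x88008011800200460008310483)))))) 
(.nd (nat_lit 24) (.nd (nat_lit 6) (.nd (nat_lit 20) 
(.lf (nat_lit 2754125868) (dlOf (nat_lit 1) (nat_lit 0x200080008002000600080c0d03))) 
(.lf (nat_lit 45654060) (dlOf (nat_lit 1) (nat_lit 0x24004004c0009340282)))) (.nd (nat_lit 23) 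
(.lf (nat_lit 1345888492) (dlOf (nat_lit 1) (nat_lit 0x640008e01e81))) 
(.lf (nat_lit 45654252) (dlOf (nat_lit 1) (nat_lit 0xa0029341e81))))) (.nd (nat_lit 8) 
(.nd (nat_lit 6) (.lf (nat_lit 32022572) (dlOf (nat_lit 1) (nat_lit 0x400400020008ed0282))) 
(.lf (nat_lit 28876908) (dlOf (nat_lit 1) (nat_lit 0x400200020008da0482)))) (.nd (nat_lit 7) 
(.lf (nat_lit 57190764) (dlOf (nat_lit 1) (nat_lit 0x28008000400200020009794e83))) 
(.lf (nat_lit 33073644) (dlOf (nat_lit 1) (nat_lit 0x60028f54f01)))))))) (.nd (nat_lit 30) 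
(.nd (nat_lit 19) (.nd (nat_lit 21) (.nd (nat_lit 26) (.nd (nat_lit 6) (.nd (nat_lit 8) 
(.lf (nat_lit 402956332) (dlOf (nat_lit 1) (nat_lit 0x400180b0401))) 
(.lf (nat_lit 6442754348) (dlOf (nat_lit 1) (nat_lit 0x180080204002008400081b0503)))) 
(.lf (nat_lit 38051948) (dlOf (nat_lit 1) (nat_lit 0x8008000400200020009121e83)))) 
(.nd (nat_lit 29) (.nd (nat_lit 7) 
(.lf (nat_lit 335847468) (dlOf (nat_lit 1) (nat_lit 0x400180b0401))) 
(.lf (nat_lit 4362379436) (dlOf (nat_lit 1) (nat_lit 0x8008000400200020008044c03)))) 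
(.nd (nat_lit 27) (.lf (nat_lit 5167685676) (dlOf (nat_lit 2) (nat_lit 0x400200001018100300))) 
(.lf (nat_lit 1006936108) (dlOf (nat_lit 5) (nat_lit 0x2058000202b8007815400280a8001604f001202700038c30002015c008409e000204e0007103000202c0000815c00400aa0018054000f0288001ec280040150000f4040184004000c00080f0b02)))))) 
(.nd (nat_lit 24) (.nd (nat_lit 20) 
(.lf (nat_lit 44343340) (dlOf (nat_lit 5) (nat_lit 0x463e00023138000341000198f8000cc4e0000c04000863e000431380002c1000098f800000040020004000200192f0c02))) 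
(.lf (nat_lit 16031788) (dlOf (nat_lit 2) (nat_lit 0x15257800170080010008003400200080008860803)))) 
(.nd (nat_lit 6) (.lf (nat_lit 20231852) (dlOf (nat_lit 1) (nat_lit 0x4002000200089da002))) 
(.lf (nat_lit 62169196) (dlOf (nat_lit 1) (nat_lit 0x68008004800200400009960b03)))))) 
(.nd (nat_lit 6) (.nd (nat_lit 20) (.nd (nat_lit 21) (.nd (nat_lit 22) 
(.lf (nat_lit 42770476) (dlOf (nat_lit 1) (nat_lit 0x8008000c00200020009280283))) 
(.lf (nat_lit 13410348) (dlOf (nat_lit 2) (nat_lit 0x55dc00028818720d00)))) 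
(.lf (nat_lit 2924588) (dlOf (nat_lit 1) (nat_lit 0x200181d0601)))) (.nd (nat_lit 7) 
(.lf (nat_lit 45916204) (dlOf (nat_lit 1) (nat_lit 0x400400020009370982))) 
(.lf (nat_lit 8171948) (dlOf (nat_lit 1) (nat_lit 0x60028518481))))) (.nd (nat_lit 7) 
(.nd (nat_lit 8) (.lf (nat_lit 67940972) (dlOf (nat_lit 1) (nat_lit 0x80018338981))) 
(.nd (nat_lit 9) (.lf (nat_lit 8173932) (dlOf (nat_lit 1) (nat_lit 0x800800240020008000851ac83))) 
(.lf (nat_lit 8168300) (dlOf (nat_lit 1) (nat_lit 0x800803f000201060008512583))))) (.nd (nat_lit 8) 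
(.lf (nat_lit 19708652) (dlOf (nat_lit 1) (nat_lit 0x4002000200089db982))) 
(.lf (nat_lit 33335788) (dlOf (nat_lit 1) (nat_lit 0x60028f54f01))))))) (.nd (nat_lit 7) 
(.nd (nat_lit 29) (.nd (nat_lit 9) (.nd (nat_lit 8) 
(.lf (nat_lit 1346150444) (dlOf (nat_lit 5) (nat_lit 0xb80a2805b833c00c814401d6073004100e00002c2803f051401f819e011c073000c00e000028200380514021c19e0022073000500e000024200378514026019e00fa0c600c3039800000200278008002800200740008e60283))) 
(.lf (nat_lit 5838774572) (dlOf (nat_lit 1) (nat_lit 0x180080204002008400081b0503)))) 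
(.nd (nat_lit 31) (.lf (nat_lit 1074045484) (dlOf (nat_lit 2) (nat_lit 0x25202700000018090e80))) 
(.lf (nat_lit 3221529132) (dlOf (nat_lit 6) (nat_lit 0x8001c0002402003800e00011010018007000100000004008005c0000001d02002e00e0008000000070100288008012800200640008128003))))) 
(.nd (nat_lit 26) (.nd (nat_lit 28) 
(.lf (nat_lit 3758399532) (dlOf (nat_lit 2) (nat_lit 0x240200001d0200020028170401))) 
(.lf (nat_lit 1879351340) (dlOf (nat_lit 5) (nat_lit 0x2058000202b8007815400280a8001604f001202700038c30002015c008409e000204e0007103000202c0000815c00400aa0018054000f0288001d8280040150000ea040184004000c00080f0b02)))) 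
(.nd (nat_lit 9) (.lf (nat_lit 4095516716) (dlOf (nat_lit 1) (nat_lit 0x400280d0481))) 
(.lf (nat_lit 1946460716) (dlOf (nat_lit 2) (nat_lit 0x25202700000018090e80)))))) (.nd (nat_lit 6) 
(.nd (nat_lit 8) (.nd (nat_lit 10) 
(.lf (nat_lit 4228161708) (dlOf (nat_lit 1) (nat_lit 0x8008000400200020008044c03))) 
(.lf (nat_lit 1344578732) (dlOf (nat_lit 1) (nat_lit 0x120018862c01)))) 
(.lf (nat_lit 3557078444) (dlOf (nat_lit 5) (nat_lit 0x30230028e80800b01240146804017809200a3302001c04900514018129900)))) 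
(.nd (nat_lit 8) (.nd (nat_lit 9) 
(.lf (nat_lit 3624185068) (dlOf (nat_lit 1) (nat_lit 0x800400020018146502))) 
(.lf (nat_lit 5436123884) (dlOf (nat_lit 2) (nat_lit 0x910188000a00800c00080078002003000080e5a03)))) 
(.nd (nat_lit 11) 
(.lf (nat_lit 3221529068) (dlOf (nat_lit 8) (nat_lit 0x6e407c001003c010a007007f003002a4000000230a031e03e01070070087803003480000002208004c00e0001081021d01f00b88038058001802340000000f04017901f006e80380378018013a0000000e04010501f003400380003608004c01c0001a0201b80028127301))) 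
(.lf (nat_lit 1346677228) (dlOf (nat_lit 1) (nat_lit 0x1e0028fe4f01))))))))))) (.nd (nat_lit 15) 
(.nd (nat_lit 18) (.nd (nat_lit 28) (.nd (nat_lit 7) (.nd (nat_lit 19) (.nd (nat_lit 6) 
(.nd (nat_lit 10) (.nd (nat_lit 9) (.nd (nat_lit 20) 
(.lf (nat_lit 23142444) (dlOf (nat_lit 1) (nat_lit 0xe00080008002000a0008b60903))) 
(.nd (nat_lit 22) (.lf (nat_lit 17899564) (dlOf (nat_lit 1) (nat_lit 0x400200020008900b02))) 
(.lf (nat_lit 38871084) (dlOf (nat_lit 1) (nat_lit 0x20029170281))))) (.nd (nat_lit 29) 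
(.lf (nat_lit 1208027692) (dlOf (nat_lit 1) (nat_lit 0x40028095181))) 
(.lf (nat_lit 1744898604) (dlOf (nat_lit 1) (nat_lit 0x800200020008095182))))) (.nd (nat_lit 13) 
(.nd (nat_lit 8) 
(.lf (nat_lit 4496361004) (dlOf (nat_lit 1) (nat_lit 0xb00080088002000a0008053783))) 
(.lf (nat_lit 536938284) (dlOf (nat_lit 1) (nat_lit 0x20018003d81)))) (.nd (nat_lit 23) 
(.lf (nat_lit 1140925996) (dlOf (nat_lit 1) (nat_lit 0x40008000400200020008003783))) 
(.lf (nat_lit 8463916) (dlOf (nat_lit 1) (nat_lit 0x400200020008513782)))))) (.nd (nat_lit 27) 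
(.nd (nat_lit 8) (.nd (nat_lit 9) 
(.lf (nat_lit 47251564) (dlOf (nat_lit 1) (nat_lit 0x200193c0b01))) 
(.lf (nat_lit 4831906412) (dlOf (nat_lit 1) (nat_lit 0x400200020008055382)))) 
(.lf (nat_lit 39912812) (dlOf (nat_lit 1) (nat_lit 0x200191f3481)))) (.nd (nat_lit 10) 
(.nd (nat_lit 11) (.lf (nat_lit 3355509612) (dlOf (nat_lit 1) (nat_lit 0x4004000200080a2582))) 
(.lf (nat_lit 738274156) (dlOf (nat_lit 1) (nat_lit 0x400400020008095c02)))) 
(.lf (nat_lit 2348877676) (dlOf (nat_lit 1) (nat_lit 0x100080014002001e0008004003)))))) 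
(.nd (nat_lit 21) (.nd (nat_lit 26) (.nd (nat_lit 13) (.nd (nat_lit 23) 
(.lf (nat_lit 1611202604) (dlOf (nat_lit 2) (nat_lit 0x400240010a04000400400060018110482))) 
(.lf (nat_lit 42532908) (dlOf (nat_lit 1) (nat_lit 0x8008000c00200020009260283)))) 
(.lf (nat_lit 3892912172) (dlOf (nat_lit 1) (nat_lit 0x20008290e01)))) (.nd (nat_lit 27) 
(.nd (nat_lit 9) 
(.lf (nat_lit 2756247596) (dlOf (nat_lit 3) (nat_lit 0x2460000000901002e076021700000002208047c0020f840008220a82))) 
(.lf (nat_lit 2753110572) (dlOf (nat_lit 2) (nat_lit 0x5043800000080080008006400200120008090e83)))) 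
(.nd (nat_lit 29) (.lf (nat_lit 201916460) (dlOf (nat_lit 2) (nat_lit 0x20000000c8180c0d00))) 
(.lf (nat_lit 738787372) (dlOf (nat_lit 2) (nat_lit 0x400240010a04000400400060018110482)))))) 
(.nd (nat_lit 20) (.nd (nat_lit 6) (.nd (nat_lit 13) 
(.lf (nat_lit 2754150444) (dlOf (nat_lit 3) (nat_lit 0x530112017e0880001202014d0448060822000044080034004000200080c0d02))) 
(.lf (nat_lit 2754158636) (dlOf (nat_lit 5) (nat_lit 0x261f800010ac8000641003087e000402b2000180400381f80000b0100110fc0002056400028080010004004a00180c0d02)))) 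
(.lf (nat_lit 61408876) (dlOf (nat_lit 1) (nat_lit 0x800400020019923902)))) (.nd (nat_lit 8) 
(.lf (nat_lit 24707116) (dlOf (nat_lit 1) (nat_lit 0xa0008bb0b01))) (.nd (nat_lit 11) 
(.lf (nat_lit 7934252) (dlOf (nat_lit 1) (nat_lit 0x2c0028518081))) 
(.lf (nat_lit 7940396) (dlOf (nat_lit 1) (nat_lit 0x80028514b81)))))))) (.nd (nat_lit 10) 
(.nd (nat_lit 9) (.nd (nat_lit 13) (.nd (nat_lit 19) (.nd (nat_lit 6) 
(.lf (nat_lit 2147551660) (dlOf (nat_lit 1) (nat_lit 0x400400020008094e82))) 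
(.lf (nat_lit 19993068) (dlOf (nat_lit 1) (nat_lit 0xc00289d8681)))) (.nd (nat_lit 22) 
(.lf (nat_lit 37292524) (dlOf (nat_lit 1) (nat_lit 0x4002000200090d4f02))) 
(.lf (nat_lit 41486828) (dlOf (nat_lit 1) (nat_lit 0x40029244f01))))) (.nd (nat_lit 8) 
(.lf (nat_lit 67707116) (dlOf (nat_lit 1) (nat_lit 0x800282d0601))) (.nd (nat_lit 19) 
(.lf (nat_lit 34679276) (dlOf (nat_lit 1) (nat_lit 0xa0028fb4f01))) 
(.lf (nat_lit 33106412) (dlOf (nat_lit 1) (nat_lit 0x40028f54f01)))))) (.nd (nat_lit 6) 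
(.nd (nat_lit 11) (.nd (nat_lit 13) 
(.lf (nat_lit 3355509676) (dlOf (nat_lit 1) (nat_lit 0x3c00280a2681))) 
(.lf (nat_lit 3355517868) (dlOf (nat_lit 1) (nat_lit 0x5200280a2681)))) (.nd (nat_lit 8) 
(.lf (nat_lit 7944876) (dlOf (nat_lit 1) (nat_lit 0xa80020084000851b782))) 
(.lf (nat_lit 134290348) (dlOf (nat_lit 1) (nat_lit 0x4002000a000800bd82))))) (.nd (nat_lit 11) 
(.nd (nat_lit 20) (.lf (nat_lit 39912428) (dlOf (nat_lit 1) (nat_lit 0x10000191f2881))) 
(.lf (nat_lit 43058156) (dlOf (nat_lit 1) (nat_lit 0x4004000200192a2882)))) (.nd (nat_lit 8) 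
(.lf (nat_lit 20527852) (dlOf (nat_lit 1) (nat_lit 0x180080004002000200089db983))) 
(.lf (nat_lit 738274284) (dlOf (nat_lit 1) (nat_lit 0x400200020008095e82))))))) (.nd (nat_lit 6) 
(.nd (nat_lit 23) (.nd (nat_lit 8) (.nd (nat_lit 19) 
(.lf (nat_lit 36766892) (dlOf (nat_lit 1) (nat_lit 0x400200040009072c02))) 
(.lf (nat_lit 34145452) (dlOf (nat_lit 1) (nat_lit 0x68004001a0008fb2c02)))) 
(.lf (nat_lit 4899014060) (dlOf (nat_lit 1) (nat_lit 0x400200020008053602)))) (.nd (nat_lit 13) 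
(.nd (nat_lit 22) (.lf (nat_lit 60884140) (dlOf (nat_lit 1) (nat_lit 0x4002000200098c2c02))) 
(.lf (nat_lit 48301228) (dlOf (nat_lit 2) (nat_lit 0x199f8000b20400b0004000c0009402c02)))) 
(.lf (nat_lit 60892332) (dlOf (nat_lit 1) (nat_lit 0x480080004002000600098c2c03))))) 
(.nd (nat_lit 31) (.nd (nat_lit 20) (.nd (nat_lit 8) 
(.lf (nat_lit 5435884780) (dlOf (nat_lit 1) (nat_lit 0x1000200380008002e82))) 
(.lf (nat_lit 67180012) (dlOf (nat_lit 1) (nat_lit 0xe0018009c01)))) (.nd (nat_lit 13) 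
(.lf (nat_lit 19994092) (dlOf (nat_lit 1) (nat_lit 0x600189d9c01))) 
(.lf (nat_lit 20526572) (dlOf (nat_lit 1) (nat_lit 0xc002000200089d9c02))))) (.nd (nat_lit 8) 
(.lf (nat_lit 3288403180) (dlOf (nat_lit 1) (nat_lit 0x20008006501))) (.nd (nat_lit 13) 
(.lf (nat_lit 6643848684) (dlOf (nat_lit 1) (nat_lit 0x160018009c01))) 
(.lf (nat_lit 6643856876) (dlOf (nat_lit 1) (nat_lit 0x1a0018009c01))))))))) (.nd (nat_lit 26) 
(.nd (nat_lit 6) (.nd (nat_lit 13) (.nd (nat_lit 10) (.nd (nat_lit 29) (.nd (nat_lit 19) 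
(.lf (nat_lit 1343291436) (dlOf (nat_lit 2) (nat_lit 0x2006b40009604004c004001c00181e0682))) 
(.lf (nat_lit 3494445100) (dlOf (nat_lit 3) (nat_lit 0x2460000000901002e076021700000002208047c0020f840008220a82)))) 
(.nd (nat_lit 7) (.lf (nat_lit 1881210924) (dlOf (nat_lit 1) (nat_lit 0x400200020008e60282))) 
(.lf (nat_lit 5234559916) (dlOf (nat_lit 1) (nat_lit 0x400400020008055d02))))) (.nd (nat_lit 9) 
(.nd (nat_lit 29) (.lf (nat_lit 4697687084) (dlOf (nat_lit 1) (nat_lit 0x3c002000a0008092882))) 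
(.lf (nat_lit 6308299820) (dlOf (nat_lit 1) (nat_lit 0x8008013000201ca0008052883)))) 
(.lf (nat_lit 6308300332) (dlOf (nat_lit 1) (nat_lit 0x38008003c002000c0008053783))))) 
(.nd (nat_lit 7) (.nd (nat_lit 9) (.nd (nat_lit 20) 
(.lf (nat_lit 1881219116) (dlOf (nat_lit 2) (nat_lit 0x1481c4000000200020018e60281))) 
(.lf (nat_lit 1343299628) (dlOf (nat_lit 2) (nat_lit 0xc10810062035a012c16300530aa80b0850803f825e02d40bc007f04a802a820806040000004b14001400181e0681)))) 
(.lf (nat_lit 3491308076) (dlOf (nat_lit 2) (nat_lit 0x5045000000080080008006400200120008090e83)))) 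
(.nd (nat_lit 11) (.nd (nat_lit 10) 
(.lf (nat_lit 4697694636) (dlOf (nat_lit 1) (nat_lit 0x88008001c00200420008091003))) 
(.lf (nat_lit 6308308396) (dlOf (nat_lit 3) (nat_lit 0x4c0180004c81001100c0000b00800480080014002000e0008053603)))) 
(.nd (nat_lit 9) (.lf (nat_lit 1342253484) (dlOf (nat_lit 1) (nat_lit 0x4002000a0008004e82))) 
(.lf (nat_lit 5234568108) (dlOf (nat_lit 2) (nat_lit 0x1001700000008002800800b400200040008055d03))))))) 
(.nd (nat_lit 13) (.nd (nat_lit 8) (.nd (nat_lit 9) 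
(.lf (nat_lit 1342249068) (dlOf (nat_lit 2) (nat_lit 0x8538002c0fc00a47040006002800a881))) 
(.nd (nat_lit 27) 
(.lf (nat_lit 6174083692) (dlOf (nat_lit 1) (nat_lit 0x8008000400200020008055383))) 
(.lf (nat_lit 5234559596) (dlOf (nat_lit 1) (nat_lit 0x100028055381))))) (.nd (nat_lit 7) 
(.nd (nat_lit 10) 
(.lf (nat_lit 4563471212) (dlOf (nat_lit 1) (nat_lit 0x50008009000200520008095c03))) 
(.lf (nat_lit 1342246764) (dlOf (nat_lit 1) (nat_lit 0x8008002000200040008007783)))) 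
(.nd (nat_lit 9) 
(.lf (nat_lit 1342250476) (dlOf (nat_lit 1) (nat_lit 0x800800040020002000800cd03))) 
(.lf (nat_lit 3623950316) (dlOf (nat_lit 1) (nat_lit 0x2002800a601)))))) (.nd (nat_lit 9) 
(.nd (nat_lit 7) (.nd (nat_lit 8) 
(.lf (nat_lit 1342257260) (dlOf (nat_lit 2) (nat_lit 0x4f0a7002881f80148e0800040040002001800a882))) 
(.lf (nat_lit 4697694572) (dlOf (nat_lit 1) (nat_lit 0x40002000e0008090f82)))) 
(.lf (nat_lit 1342258668) (dlOf (nat_lit 2) (nat_lit 0x9097800f78080008008006c0020092000800cd03)))) 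
(.nd (nat_lit 7) (.nd (nat_lit 8) 
(.lf (nat_lit 5234567788) (dlOf (nat_lit 1) (nat_lit 0x5c00400020008055382))) 
(.lf (nat_lit 4563479404) (dlOf (nat_lit 1) (nat_lit 0x540008095c01)))) 
(.lf (nat_lit 4697695212) (dlOf (nat_lit 1) (nat_lit 0x800800b800200200008092883))))))) 
(.nd (nat_lit 30) (.nd (nat_lit 6) (.nd (nat_lit 8) (.nd (nat_lit 9) (.nd (nat_lit 13) 
(.nd (nat_lit 19) 
(.lf (nat_lit 470876204) (dlOf (nat_lit 2) (nat_lit 0x1b03500004b02002e00181c0681))) 
(.lf (nat_lit 474546220) (dlOf (nat_lit 1) (nat_lit 0x80080008002000200091a0283)))) 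
(.lf (nat_lit 5167456300) (dlOf (nat_lit 1) (nat_lit 0x20028050001)))) (.nd (nat_lit 7) 
(.lf (nat_lit 2617311788) (dlOf (nat_lit 1) (nat_lit 0x4004000800180a1482))) 
(.lf (nat_lit 469832364) (dlOf (nat_lit 1) (nat_lit 0x50002000e0008008c82))))) (.nd (nat_lit 9) 
(.nd (nat_lit 13) 
(.lf (nat_lit 474022188) (dlOf (nat_lit 9) (nat_lit 0x200140002c04001400a00015020008005000070100040028000300800285b000201f4000e00500050008000182000205b00000a0400181f4000a0050000202000507d000280140000008001c004000e0019000b02))) 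
(.lf (nat_lit 474030380) (dlOf (nat_lit 8) (nat_lit 0xe0050000b0100070028000540800380140001c04001400a0000c02001e0fa0007002800580040000c0c002c1f400100050000202000c07d000400140000008001000200040009000b02)))) 
(.lf (nat_lit 2617312044) (dlOf (nat_lit 1) (nat_lit 0x64004000400180a2202))))) (.nd (nat_lit 7) 
(.nd (nat_lit 13) (.lf (nat_lit 335612524) (dlOf (nat_lit 1) (nat_lit 0x2c002006c0008095382))) 
(.lf (nat_lit 335620716) (dlOf (nat_lit 1) (nat_lit 0xc00400020008095382)))) (.nd (nat_lit 8) 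
(.nd (nat_lit 10) (.lf (nat_lit 3154706668) (dlOf (nat_lit 2) (nat_lit 0x20190003d818310600))) 
(.lf (nat_lit 2483096812) (dlOf (nat_lit 1) (nat_lit 0x800400160008006502)))) 
(.lf (nat_lit 872489452) (dlOf (nat_lit 1) (nat_lit 0x20028091381)))))) (.nd (nat_lit 6) 
(.nd (nat_lit 32) (.nd (nat_lit 12) (.nd (nat_lit 7) 
(.lf (nat_lit 3557359660) (dlOf (nat_lit 1) (nat_lit 0x26c004012e00081c0682))) 
(.lf (nat_lit 1543572908) (dlOf (nat_lit 1) (nat_lit 0x9000080354002019a0008146d03)))) 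
(.nd (nat_lit 13) (.lf (nat_lit 3691057196) (dlOf (nat_lit 1) (nat_lit 0x3000200060008007c02))) 
(.lf (nat_lit 3691065388) (dlOf (nat_lit 1) (nat_lit 0xc800200420008007c02))))) (.nd (nat_lit 7) 
(.nd (nat_lit 27) (.lf (nat_lit 6241191468) (dlOf (nat_lit 1) (nat_lit 0x80028053781))) 
(.lf (nat_lit 6375409196) (dlOf (nat_lit 1) (nat_lit 0x400400020018003782)))) (.nd (nat_lit 9) 
(.lf (nat_lit 6376466860) (dlOf (nat_lit 1) (nat_lit 0x400400020008094e82))) 
(.lf (nat_lit 5704330156) (dlOf (nat_lit 5) (nat_lit 0x5c032001800a001000480005c1800400280002c0400c8032003400a00008820010005000000080078008009c00200040008055d03)))))) 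
(.nd (nat_lit 8) (.nd (nat_lit 7) (.nd (nat_lit 9) 
(.lf (nat_lit 4095287404) (dlOf (nat_lit 1) (nat_lit 0x8008001400200020008090b03))) 
(.lf (nat_lit 5704321644) (dlOf (nat_lit 1) (nat_lit 0x20018055381)))) 
(.lf (nat_lit 1543572716) (dlOf (nat_lit 1) (nat_lit 0x1800200060008146502)))) (.nd (nat_lit 10) 
(.nd (nat_lit 11) (.lf (nat_lit 2080440684) (dlOf (nat_lit 1) (nat_lit 0x380018090f81))) 
(.lf (nat_lit 1543580012) (dlOf (nat_lit 1) (nat_lit 0x40028144e81)))) (.nd (nat_lit 29) 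
(.lf (nat_lit 1543572844) (dlOf (nat_lit 1) (nat_lit 0x800400300008146b02))) 
(.lf (nat_lit 4227927404) (dlOf (nat_lit 1) (nat_lit 0x400400020008006b02)))))))))) 
(.nd (nat_lit 13) (.nd (nat_lit 19) (.nd (nat_lit 28) (.nd (nat_lit 22) (.nd (nat_lit 26) 
(.nd (nat_lit 7) (.nd (nat_lit 20) (.nd (nat_lit 29) 
(.lf (nat_lit 1208287276) (dlOf (nat_lit 2) (nat_lit 0x16028000078180b0400))) 
(.lf (nat_lit 1745158188) (dlOf (nat_lit 8) (nat_lit 0xbc0320001281000401b802f00c80004808017806600bc0240000e82000201c001b80cc00a00480001a060004033002c0120000641001a00cc01840480001804007c023003e0080000001000700080020002002c00080b0403)))) 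
(.lf (nat_lit 62193708) (dlOf (nat_lit 5) (nat_lit 0x103a000081bf00070ca000381380001c1000043a000061bf00060ca000301380001a1000103a000081bf00080ca000401380001810000c3a000061bf00090ca000401380001610000400400060009970c02)))) 
(.nd (nat_lit 6) (.lf (nat_lit 20256428) (dlOf (nat_lit 1) (nat_lit 0x4002000200089da002))) 
(.lf (nat_lit 20253932) (dlOf (nat_lit 1) (nat_lit 0x900080024002000600089d6503))))) 
(.nd (nat_lit 30) (.nd (nat_lit 27) 
(.lf (nat_lit 67436588) (dlOf (nat_lit 1) (nat_lit 0x1c00400020008140682))) 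
(.lf (nat_lit 2349137964) (dlOf (nat_lit 9) (nat_lit 0xb801500d700a00010030016c0100001904007401500c980a001a403000ac01000740070000c42801000a806b40500002f0401200280001701008c0140000b40800180a803000500002c0401160280000901009f01400004408006000800c4002002400080d0a83)))) 
(.nd (nat_lit 6) (.lf (nat_lit 1678049452) (dlOf (nat_lit 1) (nat_lit 0x400200020008154c02))) 
(.lf (nat_lit 3288662124) (dlOf (nat_lit 4) (nat_lit 0x806c000160200060360000581000d01b0000280806100080118002026c00080a1483)))))) 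
(.nd (nat_lit 24) (.nd (nat_lit 8) (.nd (nat_lit 20) 
(.lf (nat_lit 4522028) (dlOf (nat_lit 1) (nat_lit 0x3c00200080008290002))) (.nd (nat_lit 21) 
(.lf (nat_lit 5570604) (dlOf (nat_lit 2) (nat_lit 0xd7280005c02000e00183a0801))) 
(.lf (nat_lit 16056364) (dlOf (nat_lit 1) (nat_lit 0x8008000400200020008860803))))) 
(.nd (nat_lit 6) (.lf (nat_lit 46465324) (dlOf (nat_lit 1) (nat_lit 0x10008002000200060009380b03))) 
(.lf (nat_lit 46467948) (dlOf (nat_lit 1) (nat_lit 0x400400020009385c02))))) (.nd (nat_lit 6) 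
(.nd (nat_lit 21) (.lf (nat_lit 21299756) (dlOf (nat_lit 1) (nat_lit 0x400200020008a38002))) 
(.lf (nat_lit 23396908) (dlOf (nat_lit 6) (nat_lit 0x1aac8b008761c000040080a3b22c0515870000078202e7c8b0175e1c00000e080a5b22c051987000001820296c8b014a61c00000008013800400fa0008b80e82)))) 
(.nd (nat_lit 7) (.lf (nat_lit 21299308) (dlOf (nat_lit 1) (nat_lit 0x8008044800201340008a30a83))) 
(.lf (nat_lit 21299692) (dlOf (nat_lit 1) (nat_lit 0x20018a37301))))))) (.nd (nat_lit 6) 
(.nd (nat_lit 26) (.nd (nat_lit 7) (.nd (nat_lit 27) 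
(.lf (nat_lit 2416246828) (dlOf (nat_lit 1) (nat_lit 0x600280c0d01))) 
(.lf (nat_lit 6308560940) (dlOf (nat_lit 1) (nat_lit 0x20018100301)))) 
(.lf (nat_lit 805634220) (dlOf (nat_lit 1) (nat_lit 0x400200020008154c02)))) (.nd (nat_lit 29) 
(.nd (nat_lit 30) 
(.lf (nat_lit 2483355692) (dlOf (nat_lit 9) (nat_lit 0xb801500d700a00010030016c0100001784007401500c980a001a403000ac01000740070000b82801000a806b40500002c0401200280001581008c0140000a80800180a80300050000290401160280000901009f01400004408006000800c4002002400080d0a83))) 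
(.lf (nat_lit 5704581164) (dlOf (nat_lit 1) (nat_lit 0x20018100301)))) (.nd (nat_lit 27) 
(.lf (nat_lit 872742956) (dlOf (nat_lit 8) (nat_lit 0xbc0320001301000401b802f00c80004a08017806600bc0240000e82000201c001b80cc00a00480001a060004033002c0120000641001a00cc01840480001804007c023003e0080000001000700080020002002c00080b0403))) 
(.lf (nat_lit 2080702508) (dlOf (nat_lit 2) (nat_lit 0x16028000078180b0400)))))) (.nd (nat_lit 30) 
(.nd (nat_lit 27) (.nd (nat_lit 26) 
(.lf (nat_lit 4563730540) (dlOf (nat_lit 2) (nat_lit 0x20198000480800980080050002000800080d0b03))) 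
(.lf (nat_lit 335872108) (dlOf (nat_lit 1) (nat_lit 0x80080198002005000080c0a83)))) 
(.nd (nat_lit 32) 
(.lf (nat_lit 402980972) (dlOf (nat_lit 1) (nat_lit 0x80080198002005000080c0a83))) 
(.lf (nat_lit 4697948268) (dlOf (nat_lit 2) (nat_lit 0x20198000480800980080050002000800080d0b03))))) 
(.nd (nat_lit 29) (.nd (nat_lit 7) 
(.lf (nat_lit 5637472364) (dlOf (nat_lit 1) (nat_lit 0x80080010002000400080f0a83))) 
(.lf (nat_lit 3624209644) (dlOf (nat_lit 1) (nat_lit 0x3800801b0002006e0008146503)))) 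
(.nd (nat_lit 26) 
(.lf (nat_lit 4026859628) (dlOf (nat_lit 4) (nat_lit 0x806c000160200060360000581000d01b0000280806100080118002026c00080a1483))) 
(.lf (nat_lit 6241452140) (dlOf (nat_lit 1) (nat_lit 0x80080010002000400080f0a83)))))))) 
(.nd (nat_lit 7) (.nd (nat_lit 20) (.nd (nat_lit 22) (.nd (nat_lit 6) (.nd (nat_lit 24) 
(.lf (nat_lit 42795052) (dlOf (nat_lit 4) (nat_lit 0x255d4a014ae3100906750050b2d800016100135d4a00a8e31005a675002bb2d8000141000b9d4a004ae31003065b000000180360008000c00200380009280283))) 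
(.lf (nat_lit 59572268) (dlOf (nat_lit 1) (nat_lit 0x1000400040009810982)))) 
(.lf (nat_lit 26018156) (dlOf (nat_lit 1) (nat_lit 0x180028c10a01)))) (.nd (nat_lit 24) 
(.lf (nat_lit 5046316) (dlOf (nat_lit 3) (nat_lit 0x5ea4d100029010039271802e13440009608001c00400040008300682))) 
(.lf (nat_lit 21823532) (dlOf (nat_lit 1) (nat_lit 0x20018a70581))))) (.nd (nat_lit 21) 
(.nd (nat_lit 8) 
(.lf (nat_lit 27066412) (dlOf (nat_lit 5) (nat_lit 0x4d791d033ba3480017c1003dd1a4000ba04022fbfa0013d85008fe8a8020f2dc018f374066b91d0327c8e0016646800f721601358f80126c79802c6218094b102004187f0090a34801847f80a69d1403f8dd200029120007c8e8051e470038596a0004b06005e0018ca0681))) 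
(.lf (nat_lit 1900844) (dlOf (nat_lit 1) (nat_lit 0x10800200520008150502)))) (.nd (nat_lit 31) 
(.nd (nat_lit 9) (.lf (nat_lit 3997740) (dlOf (nat_lit 1) (nat_lit 0x60028260c81))) 
(.lf (nat_lit 58526252) (dlOf (nat_lit 1) (nat_lit 0x80080004002000200097e5183)))) 
(.nd (nat_lit 26) (.lf (nat_lit 3493658668) (dlOf (nat_lit 1) (nat_lit 0x400400020008190802))) 
(.lf (nat_lit 2755461164) (dlOf (nat_lit 1) (nat_lit 0x400400020008190902))))))) (.nd (nat_lit 10) 
(.nd (nat_lit 6) (.nd (nat_lit 11) 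
(.lf (nat_lit 12386732) (dlOf (nat_lit 2) (nat_lit 0x5dd400036e98002764e00cea06003000286c0781))) 
(.lf (nat_lit 36506028) (dlOf (nat_lit 1) (nat_lit 0x20019074e81)))) (.nd (nat_lit 9) 
(.nd (nat_lit 21) 
(.lf (nat_lit 38603244) (dlOf (nat_lit 1) (nat_lit 0x340008000400200700009134f03))) 
(.lf (nat_lit 1345128940) (dlOf (nat_lit 1) (nat_lit 0xc00400020008a44f02)))) 
(.lf (nat_lit 473760748) (dlOf (nat_lit 2) (nat_lit 0x504b0013e4080058008003800200100008fa2883))))) 
(.nd (nat_lit 8) (.nd (nat_lit 9) 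
(.lf (nat_lit 32310444) (dlOf (nat_lit 1) (nat_lit 0x160018ef2c01))) 
(.lf (nat_lit 20780716) (dlOf (nat_lit 1) (nat_lit 0x4004000400189da002)))) (.nd (nat_lit 9) 
(.lf (nat_lit 8193452) (dlOf (nat_lit 1) (nat_lit 0x400200020008513602))) 
(.lf (nat_lit 8193964) (dlOf (nat_lit 1) (nat_lit 0x520028514301)))))))) (.nd (nat_lit 6) 
(.nd (nat_lit 19) (.nd (nat_lit 26) (.nd (nat_lit 7) (.nd (nat_lit 21) (.nd (nat_lit 27) 
(.lf (nat_lit 5905915948) (dlOf (nat_lit 1) (nat_lit 0x20028160581))) 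
(.lf (nat_lit 134553644) (dlOf (nat_lit 4) (nat_lit 0x8d021000100f80008072006e011000140400350088000780802580440003004000c00400140018070902)))) 
(.nd (nat_lit 9) 
(.lf (nat_lit 62201900) (dlOf (nat_lit 6) (nat_lit 0x8a96c00314b2000aa4f000551d000328a00001c1400154b6000aa590016527800d28e8005d4500000d0a000ea5b000752c8000a944005d49e0034a3a001751400003030002a96c001d4b20006a510017527800d28e800694500000b0c0064a5900085140000001000a8008002800200640009970c03))) 
(.lf (nat_lit 23405100) (dlOf (nat_lit 6) (nat_lit 0x3f91600010010091c8b0046e1c00001e0803fb22c02038700000382009ec8b004d61c00000608010355e01279160092c380000001801600080054002007a0008b80e83))))) 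
(.nd (nat_lit 8) (.nd (nat_lit 9) 
(.lf (nat_lit 4832174252) (dlOf (nat_lit 1) (nat_lit 0x40028101501))) 
(.lf (nat_lit 20264620) (dlOf (nat_lit 1) (nat_lit 0x4002000200089da002)))) 
(.lf (nat_lit 6442787244) (dlOf (nat_lit 1) (nat_lit 0x3e00281b0781))))) (.nd (nat_lit 28) 
(.nd (nat_lit 27) (.lf (nat_lit 6509895724) (dlOf (nat_lit 1) (nat_lit 0x20028160581))) 
(.nd (nat_lit 31) 
(.lf (nat_lit 201662508) (dlOf (nat_lit 4) (nat_lit 0x6e04200014010024021000380440003a080064022000180200280008070801))) 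
(.lf (nat_lit 2349146156) (dlOf (nat_lit 14) (nat_lit 0x30054019e0100001a02001a015001f8040009001c0003306033802c02e601500d580a0033c03a0718018042b0080058803c0d7001c035c00c003f00401d4000c0280000000321801b202c0296015020e00600d70020015000f08110070148003414300180048008055d00180138000000622c07e805800cc02a024b00c00d70040143001c04d000c029f001800d00000006020007405804f202a022e01400060074084403005cc0100006007814b0038002401a00cc00c001a0040140800c00c80000002f1a03f802c022e0150034806006ac020000800d00f0001802280000005c1c0580058042202a0069014017a80600e30020083800e024b0060190800c00980000002d12046c02c0281015007800a00c840300750010055d007014f80300d4800600ac00000016090248016000e80a807f005002c0018019c008006c803807e8018046c0030000c0800060150058804002a001c0001206001202a000401401480038000220c00c8054008a028002600c00500040009c01c003400c005600180000038122800802e40020b9000080d0a83))))) 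
(.nd (nat_lit 7) (.nd (nat_lit 29) 
(.lf (nat_lit 2483363884) (dlOf (nat_lit 14) (nat_lit 0x30054019e0100001882001a015001f8040009001c0003006033802e02e601500d580a0033c03c0718018042b0080058803c0d7001c035c00c003f00481d4000c02800000002f1801b202e0296015020e00600d70020015000f08110070148003414300180048009055d001801380000005c2c07e805c00cc02a024b00c00d70040143001c04d000c029f001800d00000005a20007405c04f202a022e01400060078084403005cc0100006007814b0038002401a00cc00c001a0048140800c00c80000002c1a03f802e022e0150034806006ac020000800d00f000180228000000561c058005c042202a0069014017a80600e30020083800e024b0060190800c00980000002a12046c02e0281015007800a00c840300750010055d007014f80300d4800600ac00000014890248017000e80a807f005002c0018019c008006c803807e8018046c0030000c0800060150058804002a001c0001206001202a000401401480038000220c00c8054008a028002600c00500040009c01c003400c005600180000038122800802e40020b9000080d0a83))) 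
(.lf (nat_lit 5167718444) (dlOf (nat_lit 1) (nat_lit 0x20008140481)))) 
(.lf (nat_lit 872751276) (dlOf (nat_lit 2) (nat_lit 0x1801c00004c0800180080010002000200080c1503)))))) 
(.nd (nat_lit 21) (.nd (nat_lit 22) (.nd (nat_lit 20) 
(.lf (nat_lit 2819432492) (dlOf (nat_lit 1) (nat_lit 0x2c0018280701))) 
(.lf (nat_lit 27074604) (dlOf (nat_lit 11) (nat_lit 0xd5f23a00178f40339c41018856b40d368d20005f0a01fd91d00c8c41005f56b404428d20005d08028591d0128c4100016410080647403731040005704019fa8f017ad4480d766e80f5f23a07f191c0006c8d81b564680107216032f8f800e6c7a01cee3cc005710c073f88203a9c40812b61fc0172eec02577190160ad90208d6b40022b58081b4690012a2e801fd0f0097654e00ad27300559028001c3cc050e12002f300303327b48144bc30000a47c031751200ef9ba0059c8e8041e47003e723602058f80094c7a004d63cc00df10401178800002b6e00aa56b40626b5802975ab0143a3480ca51a0000e8ca00d345d0176953800f49cc007a40a005b09000d483b807a3da40211e180004b32009991a000200100aec8d0000fc080896474037b1040003304022991d00dfc410000c0100f80008057c00202060008ca0683))))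 
(.nd (nat_lit 23) (.lf (nat_lit 5054508) (dlOf (nat_lit 2) (nat_lit 0x3899600025818300680))) 
(.lf (nat_lit 13443116) (dlOf (nat_lit 1) (nat_lit 0x400400020008720d02))))) (.nd (nat_lit 7) 
(.nd (nat_lit 20) (.nd (nat_lit 23) 
(.lf (nat_lit 2957356) (dlOf (nat_lit 2) (nat_lit 0x606c8003803000054080058002000600081e0902))) 
(.lf (nat_lit 11345964) (dlOf (nat_lit 1) (nat_lit 0x5400400060018690682)))) 
(.lf (nat_lit 1346183212) (dlOf (nat_lit 5) (nat_lit 0x320d7004a8560007c2ac00621450094067801d02c800c015400740a2003404b001c020c00e40e60072021001100d00002c680330560019819e0016096000a04180030084000141401ac2b0002a145001509e8036033c000121000142be00d615800140aa800a8514005427a00d80cf001406300078258000002003c400405aa0008e60282)))) 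
(.nd (nat_lit 11) (.lf (nat_lit 12394924) (dlOf (nat_lit 1) (nat_lit 0x1c004000e00086c0782))) 
(.lf (nat_lit 36514220) (dlOf (nat_lit 1) (nat_lit 0x20019074e81))))))) (.nd (nat_lit 7) 
(.nd (nat_lit 22) (.nd (nat_lit 19) (.nd (nat_lit 27) (.nd (nat_lit 29) 
(.lf (nat_lit 4563738732) (dlOf (nat_lit 1) (nat_lit 0x300080008002001200080d0b03))) 
(.lf (nat_lit 6174351468) (dlOf (nat_lit 1) (nat_lit 0x30008000400200060008110b03)))) 
(.nd (nat_lit 26) 
(.lf (nat_lit 4697956460) (dlOf (nat_lit 1) (nat_lit 0x300080008002001200080d0b03))) 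
(.lf (nat_lit 5570371692) (dlOf (nat_lit 1) (nat_lit 0x30008000400200060008110b03))))) 
(.nd (nat_lit 26) 
(.lf (nat_lit 5773271148) (dlOf (nat_lit 1) (nat_lit 0x100080208002007200080c0a83))) 
(.lf (nat_lit 6377250924) (dlOf (nat_lit 1) (nat_lit 0x100080208002007200080c0a83))))) 
(.nd (nat_lit 8) (.nd (nat_lit 10) (.nd (nat_lit 24) 
(.lf (nat_lit 474292332) (dlOf (nat_lit 1) (nat_lit 0x120009120b01))) 
(.lf (nat_lit 21307500) (dlOf (nat_lit 1) (nat_lit 0x8008000400200020008a30a83)))) 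
(.lf (nat_lit 8205420) (dlOf (nat_lit 1) (nat_lit 0x3400200020008519402)))) (.nd (nat_lit 10) 
(.lf (nat_lit 47524204) (dlOf (nat_lit 1) (nat_lit 0x940019404e81))) 
(.lf (nat_lit 56960364) (dlOf (nat_lit 1) (nat_lit 0x1c00009793481)))))) (.nd (nat_lit 20) 
(.nd (nat_lit 9) (.nd (nat_lit 11) 
(.lf (nat_lit 21307884) (dlOf (nat_lit 3) (nat_lit 0xa6a1000174080013508000b804000c00400060018a37302))) 
(.lf (nat_lit 38611436) (dlOf (nat_lit 1) (nat_lit 0x8008000400200020009134f03)))) (.nd (nat_lit 8) 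
(.lf (nat_lit 19741420) (dlOf (nat_lit 1) (nat_lit 0x4002000200089db982))) 
(.lf (nat_lit 38085612) (dlOf (nat_lit 1) (nat_lit 0x240009132881))))) (.nd (nat_lit 10) 
(.nd (nat_lit 24) (.lf (nat_lit 1345661420) (dlOf (nat_lit 1) (nat_lit 0xc0018dd4f01))) 
(.lf (nat_lit 53815788) (dlOf (nat_lit 1) (nat_lit 0xa00295f4f01)))) (.nd (nat_lit 8) 
(.lf (nat_lit 20262124) (dlOf (nat_lit 1) (nat_lit 0x4004000200089d6502))) 
(.lf (nat_lit 43853292) (dlOf (nat_lit 1) (nat_lit 0x100080064002004a00092a3603)))))))))) 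
(.nd (nat_lit 13) (.nd (nat_lit 18) (.nd (nat_lit 6) (.nd (nat_lit 19) (.nd (nat_lit 26) 
(.nd (nat_lit 28) (.nd (nat_lit 7) (.nd (nat_lit 8) (.nd (nat_lit 20) 
(.lf (nat_lit 25264172) (dlOf (nat_lit 2) (nat_lit 0x1812300008818bf0a80))) 
(.lf (nat_lit 13729836) (dlOf (nat_lit 2) (nat_lit 0x1d2ac0000c80800a0008003400200160008740603)))) 
(.lf (nat_lit 2195756) (dlOf (nat_lit 1) (nat_lit 0x9700080944002037e0008150503)))) 
(.nd (nat_lit 8) (.nd (nat_lit 10) 
(.lf (nat_lit 43090092) (dlOf (nat_lit 1) (nat_lit 0x200192a0601))) 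
(.lf (nat_lit 48333996) (dlOf (nat_lit 1) (nat_lit 0x40009402c01)))) 
(.lf (nat_lit 2147584428) (dlOf (nat_lit 1) (nat_lit 0x3000400120008094e82))))) (.nd (nat_lit 8) 
(.nd (nat_lit 9) (.lf (nat_lit 2013364268) (dlOf (nat_lit 1) (nat_lit 0x400200040008020402))) 
(.nd (nat_lit 10) 
(.lf (nat_lit 4563503660) (dlOf (nat_lit 2) (nat_lit 0x101a0004e00800600080028002000c0008095183))) 
(.lf (nat_lit 4697720364) (dlOf (nat_lit 1) (nat_lit 0x100080040002000a0008093783))))) 
(.nd (nat_lit 7) (.lf (nat_lit 1346470188) (dlOf (nat_lit 1) (nat_lit 0x60018f60b01))) 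
(.lf (nat_lit 4697719212) (dlOf (nat_lit 6) (nat_lit 0x4032000c0178003007c002d80c00140680004032000200f80001c1800380d00018064000a01f0000303000301a000100c8002803e0000406000603400080190003807c000020c000c00400460018091002)))))) 
(.nd (nat_lit 27) (.nd (nat_lit 32) (.nd (nat_lit 7) 
(.lf (nat_lit 1140949036) (dlOf (nat_lit 1) (nat_lit 0x400200040008020402))) 
(.lf (nat_lit 3825306028) (dlOf (nat_lit 1) (nat_lit 0x400400020008144e82)))) (.nd (nat_lit 9) 
(.lf (nat_lit 5972787244) (dlOf (nat_lit 2) (nat_lit 0xa00d0002000003638100058008001c002000a00080d0a03))) 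
(.lf (nat_lit 6241224236) (dlOf (nat_lit 1) (nat_lit 0x10008000400200020008053783))))) 
(.nd (nat_lit 7) (.nd (nat_lit 8) 
(.lf (nat_lit 3959521324) (dlOf (nat_lit 1) (nat_lit 0x8008000400200020008090003))) 
(.lf (nat_lit 201426732) (dlOf (nat_lit 1) (nat_lit 0x14400201f80008003d82)))) (.nd (nat_lit 8) 
(.lf (nat_lit 474055852) (dlOf (nat_lit 1) (nat_lit 0x10008000800200020009082c03))) 
(.lf (nat_lit 2617349036) (dlOf (nat_lit 1) (nat_lit 0x28002008400080a9182))))))) (.nd (nat_lit 20) 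
(.nd (nat_lit 26) (.nd (nat_lit 30) (.nd (nat_lit 7) 
(.lf (nat_lit 50954796) (dlOf (nat_lit 2) (nat_lit 0x80f000072040020004000600094d8a02))) 
(.lf (nat_lit 628140) (dlOf (nat_lit 1) (nat_lit 0x740028009901)))) (.nd (nat_lit 22) 
(.lf (nat_lit 3892936748) (dlOf (nat_lit 2) (nat_lit 0x1c01f000500c00005c1000a000800c4002001200082a0b03))) 
(.lf (nat_lit 3494477868) (dlOf (nat_lit 1) (nat_lit 0x800800d0002003a0008230603))))) 
(.nd (nat_lit 30) (.nd (nat_lit 21) 
(.lf (nat_lit 2756280364) (dlOf (nat_lit 1) (nat_lit 0x800800d0002003a0008230603))) 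
(.lf (nat_lit 2754183212) (dlOf (nat_lit 5) (nat_lit 0x4a43f0017415f05b40ac811a855c055827400921350000c86012d0fc02db856402e82ae019613a001509a8000602809807e0003c2be0b1215902080ab802484e80002c1404d43f00b14159005b09d0000501801400081144002043400080c0d03)))) 
(.nd (nat_lit 27) (.lf (nat_lit 3557392428) (dlOf (nat_lit 1) (nat_lit 0x17800281e0881))) 
(.lf (nat_lit 3960045612) (dlOf (nat_lit 4) (nat_lit 0x4e00f8026801c000190400bc03e0000c01001401f0001003800500000001606004000081a0d01)))))) 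
(.nd (nat_lit 9) (.nd (nat_lit 21) 
(.lf (nat_lit 1671212) (dlOf (nat_lit 1) (nat_lit 0x400400020008110602))) (.nd (nat_lit 22) 
(.lf (nat_lit 54100012) (dlOf (nat_lit 1) (nat_lit 0x20029610281))) 
(.lf (nat_lit 24739884) (dlOf (nat_lit 1) (nat_lit 0x400400020008bb0b02))))) (.nd (nat_lit 26) 
(.lf (nat_lit 3491332652) (dlOf (nat_lit 2) (nat_lit 0xf508c807a43d6000000400020028090e81))) 
(.lf (nat_lit 2753135148) (dlOf (nat_lit 2) (nat_lit 0xf5092807a43fa000000400020028090e81))))))) 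
(.nd (nat_lit 7) (.nd (nat_lit 20) (.nd (nat_lit 8) (.nd (nat_lit 21) (.nd (nat_lit 27) 
(.lf (nat_lit 5435916396) (dlOf (nat_lit 1) (nat_lit 0x80028030a81))) 
(.lf (nat_lit 5301698668) (dlOf (nat_lit 1) (nat_lit 0x80028030a81)))) 
(.lf (nat_lit 52527212) (dlOf (nat_lit 1) (nat_lit 0x20019541e81)))) (.nd (nat_lit 9) 
(.lf (nat_lit 6442555756) (dlOf (nat_lit 1) (nat_lit 0x80080004002000200080fac83))) 
(.lf (nat_lit 201426796) (dlOf (nat_lit 1) (nat_lit 0x580080084002001a0008004003))))) 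
(.nd (nat_lit 19) (.nd (nat_lit 9) 
(.lf (nat_lit 47284332) (dlOf (nat_lit 2) (nat_lit 0x55e28002aea800026080028002001600093c0b02))) 
(.lf (nat_lit 20026988) (dlOf (nat_lit 1) (nat_lit 0xa200189d9c81)))) (.nd (nat_lit 8) 
(.nd (nat_lit 21) (.lf (nat_lit 4095311980) (dlOf (nat_lit 1) (nat_lit 0x400200020008090b02))) 
(.lf (nat_lit 45711468) (dlOf (nat_lit 1) (nat_lit 0x8008000400200020009351e83)))) 
(.lf (nat_lit 14254444) (dlOf (nat_lit 1) (nat_lit 0x60008750a01)))))) (.nd (nat_lit 11) 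
(.nd (nat_lit 10) (.nd (nat_lit 8) 
(.lf (nat_lit 5905678572) (dlOf (nat_lit 1) (nat_lit 0x200180b0481))) (.nd (nat_lit 9) 
(.lf (nat_lit 2550235628) (dlOf (nat_lit 1) (nat_lit 0x40018017301))) 
(.lf (nat_lit 4697719788) (dlOf (nat_lit 2) (nat_lit 0x80680094302002a0008092881))))) 
(.nd (nat_lit 12) 
(.lf (nat_lit 1345422828) (dlOf (nat_lit 3) (nat_lit 0x110b28006c80800105940000004000c004002e0018bb3602))) 
(.nd (nat_lit 19) 
(.lf (nat_lit 3355547116) (dlOf (nat_lit 1) (nat_lit 0x300080074002000a00080a9c03))) 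
(.lf (nat_lit 20551148) (dlOf (nat_lit 1) (nat_lit 0x38002000c00089d9c02)))))) (.nd (nat_lit 8) 
(.nd (nat_lit 9) (.nd (nat_lit 19) 
(.lf (nat_lit 5838572780) (dlOf (nat_lit 2) (nat_lit 0x300b8005401a0003604000c00080f6501))) 
(.lf (nat_lit 625900) (dlOf (nat_lit 2) (nat_lit 0x380000001b018006500)))) (.nd (nat_lit 12) 
(.lf (nat_lit 3556870892) (dlOf (nat_lit 1) (nat_lit 0x800080d5a01))) 
(.lf (nat_lit 20552428) (dlOf (nat_lit 1) (nat_lit 0x80080004002000200089db983))))) 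
(.nd (nat_lit 12) (.lf (nat_lit 37849580) (dlOf (nat_lit 1) (nat_lit 0x400190d4f01))) 
(.lf (nat_lit 6442555884) (dlOf (nat_lit 1) (nat_lit 0x180080014002000200080fb283)))))))) 
(.nd (nat_lit 19) (.nd (nat_lit 29) (.nd (nat_lit 10) (.nd (nat_lit 23) (.nd (nat_lit 26) 
(.nd (nat_lit 27) 
(.lf (nat_lit 3221585964) (dlOf (nat_lit 6) (nat_lit 0x4e008e0056045006902200a700bc0005c10056808e0002c02016e04f00a10238034811002380140000c080248032000018100dc02380d5011801a4088001804101c9017804f00b806a8028000000e001e0008150901))) 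
(.lf (nat_lit 3355803692) (dlOf (nat_lit 2) (nat_lit 0x3603200000018120780)))) (.nd (nat_lit 27) 
(.lf (nat_lit 1409646636) (dlOf (nat_lit 1) (nat_lit 0x800200020008060602))) 
(.lf (nat_lit 1543864364) (dlOf (nat_lit 1) (nat_lit 0x4004000200081a0602))))) (.nd (nat_lit 20) 
(.lf (nat_lit 27623468) (dlOf (nat_lit 1) (nat_lit 0x400400020018d00882))) 
(.lf (nat_lit 9797676) (dlOf (nat_lit 2) (nat_lit 0x3228c00000040058004003c0008580302))))) 
(.nd (nat_lit 6) (.nd (nat_lit 7) (.nd (nat_lit 8) 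
(.lf (nat_lit 8750636) (dlOf (nat_lit 1) (nat_lit 0x20028513781))) 
(.lf (nat_lit 8750892) (dlOf (nat_lit 1) (nat_lit 0x20028513d81)))) 
(.lf (nat_lit 472220844) (dlOf (nat_lit 1) (nat_lit 0x400400020008922c02)))) (.nd (nat_lit 8) 
(.lf (nat_lit 3624242412) (dlOf (nat_lit 1) (nat_lit 0x800400020008146502))) 
(.lf (nat_lit 8754668) (dlOf (nat_lit 1) (nat_lit 0x400400020018519c02)))))) (.nd (nat_lit 27) 
(.nd (nat_lit 28) (.nd (nat_lit 30) 
(.lf (nat_lit 537231404) (dlOf (nat_lit 1) (nat_lit 0x800200020008060602))) 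
(.lf (nat_lit 1610973228) (dlOf (nat_lit 1) (nat_lit 0x2400080b0401)))) (.nd (nat_lit 6) 
(.nd (nat_lit 9) 
(.lf (nat_lit 4026892332) (dlOf (nat_lit 1) (nat_lit 0x80080004002000200080c0d03))) 
(.lf (nat_lit 4096099884) (dlOf (nat_lit 1) (nat_lit 0x200280e3781)))) 
(.lf (nat_lit 5100634220) (dlOf (nat_lit 1) (nat_lit 0x40028110b01))))) (.nd (nat_lit 26) 
(.nd (nat_lit 28) (.lf (nat_lit 671449132) (dlOf (nat_lit 1) (nat_lit 0x4004000200081a0602))) 
(.lf (nat_lit 5234851884) (dlOf (nat_lit 4) (nat_lit 0x18028000030200120140000101001500a000000080128008000400200020008100303)))) 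
(.nd (nat_lit 30) (.lf (nat_lit 738557996) (dlOf (nat_lit 1) (nat_lit 0x2400080b0401))) 
(.lf (nat_lit 3959783468) (dlOf (nat_lit 7) (nat_lit 0x3e0470001701003a0238000b008004013c004408e0000c0400f60320000481008701900000c08019011c018408c00d402f0009017001f80500000014002c00200560008150802))))))) 
(.nd (nat_lit 6) (.nd (nat_lit 20) (.nd (nat_lit 21) (.nd (nat_lit 22) 
(.lf (nat_lit 42827820) (dlOf (nat_lit 3) (nat_lit 0x1400000005810006000000000080050008000400200280009280283))) 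
(.lf (nat_lit 5079084) (dlOf (nat_lit 1) (nat_lit 0x1400400020008300682)))) (.nd (nat_lit 8) 
(.lf (nat_lit 28147756) (dlOf (nat_lit 2) (nat_lit 0xd83e00aee0200040018d60701))) 
(.lf (nat_lit 23953708) (dlOf (nat_lit 1) (nat_lit 0x80028b80501))))) (.nd (nat_lit 9) 
(.nd (nat_lit 21) (.lf (nat_lit 27099180) (dlOf (nat_lit 2) (nat_lit 0x27d8500029018ca0680))) 
(.lf (nat_lit 1346207788) (dlOf (nat_lit 6) (nat_lit 0x186a401bc2b0001a145001c0920041833c04d012c02660830096039800b808400200380000b14005a1580044067807a825803d410600c2073001700e000028300438560026c19e000090400a0096001a04180001c1004c856000742aa01580cf00090660013032800c418c01ae0960053039800000400a58008471400204d60008e60283)))) 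
(.nd (nat_lit 10) (.lf (nat_lit 58559020) (dlOf (nat_lit 1) (nat_lit 0x4002000200097e5182))) 
(.lf (nat_lit 4095575596) (dlOf (nat_lit 1) (nat_lit 0x4004000200080e3782)))))) (.nd (nat_lit 9) 
(.nd (nat_lit 8) (.nd (nat_lit 7) 
(.lf (nat_lit 8229996) (dlOf (nat_lit 1) (nat_lit 0x8008000400200020008519403))) 
(.lf (nat_lit 45973740) (dlOf (nat_lit 1) (nat_lit 0x6c0029380a81)))) (.nd (nat_lit 11) 
(.lf (nat_lit 8225260) (dlOf (nat_lit 1) (nat_lit 0x20008511381))) 
(.lf (nat_lit 38636012) (dlOf (nat_lit 1) (nat_lit 0x5c00200260009134f02))))) (.nd (nat_lit 7) 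
(.nd (nat_lit 8) 
(.lf (nat_lit 45976172) (dlOf (nat_lit 2) (nat_lit 0xace700106590006b118000760c003800400100019385382))) 
(.lf (nat_lit 54365036) (dlOf (nat_lit 1) (nat_lit 0x20008014c00200640009655c03)))) 
(.nd (nat_lit 20) (.lf (nat_lit 5772248044) (dlOf (nat_lit 1) (nat_lit 0x180018092881))) 
(.lf (nat_lit 1880982508) (dlOf (nat_lit 1) (nat_lit 0xe000080da8002037e0008dd2883))))))))) 
(.nd (nat_lit 18) (.nd (nat_lit 6) (.nd (nat_lit 26) (.nd (nat_lit 9) (.nd (nat_lit 23) 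
(.nd (nat_lit 8) (.nd (nat_lit 21) 
(.lf (nat_lit 5905686572) (dlOf (nat_lit 2) (nat_lit 0x9180000197e0400c8002002a00080b0002))) 
(.lf (nat_lit 23175212) (dlOf (nat_lit 5) (nat_lit 0x276c18000a80802db0ac000300402adafc0001002004acbf00007018b60900)))) 
(.lf (nat_lit 3493962028) (dlOf (nat_lit 1) (nat_lit 0x2d0002010600081b0502)))) (.nd (nat_lit 19) 
(.nd (nat_lit 21) 
(.lf (nat_lit 25272364) (dlOf (nat_lit 8) (nat_lit 0x578d440005e040a0c6a20002e0200d8351000168100251a88000b00802c8d44000540402ac6a20002902006e3510000c018bf0a80))) 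
(.lf (nat_lit 10592300) (dlOf (nat_lit 1) (nat_lit 0x20008000400200020008600483)))) 
(.lf (nat_lit 43622444) (dlOf (nat_lit 1) (nat_lit 0x3c00192a0001))))) (.nd (nat_lit 7) 
(.nd (nat_lit 19) (.nd (nat_lit 8) 
(.lf (nat_lit 11641388) (dlOf (nat_lit 2) (nat_lit 0x18c000000038186c0e80))) 
(.lf (nat_lit 113452) (dlOf (nat_lit 1) (nat_lit 0x80020004000800bc82)))) (.nd (nat_lit 20) 
(.lf (nat_lit 50962988) (dlOf (nat_lit 2) (nat_lit 0xf92c40007204004c002000800094d8a02))) 
(.lf (nat_lit 3491340844) (dlOf (nat_lit 2) (nat_lit 0x1941eb00000018090e80))))) (.nd (nat_lit 8) 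
(.lf (nat_lit 536979116) (dlOf (nat_lit 1) (nat_lit 0x400400040018003a82))) 
(.lf (nat_lit 3355550636) (dlOf (nat_lit 1) (nat_lit 0x5e00280a2681)))))) (.nd (nat_lit 19) 
(.nd (nat_lit 9) (.nd (nat_lit 7) (.nd (nat_lit 27) 
(.lf (nat_lit 1677828140) (dlOf (nat_lit 2) (nat_lit 0x360260065c818090000))) 
(.lf (nat_lit 3959529516) (dlOf (nat_lit 4) (nat_lit 0x407000d660200ae026004c301009b0130025d808004000800a800200160008090003)))) 
(.lf (nat_lit 6376499628) (dlOf (nat_lit 1) (nat_lit 0x400400120008094e82)))) (.nd (nat_lit 8) 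
(.nd (nat_lit 27) 
(.lf (nat_lit 6241232428) (dlOf (nat_lit 2) (nat_lit 0x1f00a0000b4080010008003000200120008053783))) 
(.lf (nat_lit 6375450156) (dlOf (nat_lit 1) (nat_lit 0x1400200080008003782)))) 
(.lf (nat_lit 469870380) (dlOf (nat_lit 1) (nat_lit 0x20018003d81))))) (.nd (nat_lit 20) 
(.nd (nat_lit 21) (.nd (nat_lit 29) 
(.lf (nat_lit 201957420) (dlOf (nat_lit 5) (nat_lit 0xa80000000640801c800000030040130000000160200da0000000a0180c0d00))) 
(.lf (nat_lit 3960053804) (dlOf (nat_lit 5) (nat_lit 0x17807c007401c007c00700160010017c000000190a00ee03e005200e0049003800a000800040000000c05005701f0042803800ac018001c002003b0000000582802f00f80004038015c00e000800000005020001000800bc002000600081a0d03)))) 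
(.lf (nat_lit 2754191404) (dlOf (nat_lit 3) (nat_lit 0x1e00a00012010052005000088080080008001c002000800080c0d03)))) 
(.nd (nat_lit 9) 
(.lf (nat_lit 471441452) (dlOf (nat_lit 2) (nat_lit 0x42ca000c161000404e8000ec1800300080010002002a0008300b03))) 
(.lf (nat_lit 2753143340) (dlOf (nat_lit 2) (nat_lit 0x1941fd00000018090e80))))))) (.nd (nat_lit 7) 
(.nd (nat_lit 8) (.nd (nat_lit 32) (.nd (nat_lit 20) (.nd (nat_lit 19) 
(.lf (nat_lit 2952896620) (dlOf (nat_lit 1) (nat_lit 0x18008000400200040008010283))) 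
(.lf (nat_lit 1009361004) (dlOf (nat_lit 2) (nat_lit 0x4000000130200260009120b01)))) 
(.nd (nat_lit 9) (.nd (nat_lit 22) 
(.lf (nat_lit 59875436) (dlOf (nat_lit 1) (nat_lit 0x20008000400200020009840183))) 
(.lf (nat_lit 47292524) (dlOf (nat_lit 1) (nat_lit 0x4004001200093c0b02)))) 
(.lf (nat_lit 20032108) (dlOf (nat_lit 2) (nat_lit 0x8406400076040024004001200089d5382))))) 
(.nd (nat_lit 26) (.nd (nat_lit 27) 
(.lf (nat_lit 5368815724) (dlOf (nat_lit 2) (nat_lit 0x90090003500800680080010002000a0008030a83))) 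
(.lf (nat_lit 5503033452) (dlOf (nat_lit 2) (nat_lit 0x90090005980800680080010002000a0008030a83)))) 
(.nd (nat_lit 27) (.lf (nat_lit 5435924588) (dlOf (nat_lit 1) (nat_lit 0x32400200a80008030a82))) 
(.lf (nat_lit 5301706860) (dlOf (nat_lit 1) (nat_lit 0x32400200a80008030a82)))))) (.nd (nat_lit 9) 
(.nd (nat_lit 10) (.lf (nat_lit 4301164) (dlOf (nat_lit 1) (nat_lit 0x20028290a01))) 
(.lf (nat_lit 114028) (dlOf (nat_lit 1) (nat_lit 0x10001800c901)))) (.nd (nat_lit 10) 
(.lf (nat_lit 59878252) (dlOf (nat_lit 1) (nat_lit 0x2b000400f00009845c02))) 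
(.lf (nat_lit 201434988) (dlOf (nat_lit 1) (nat_lit 0x2c0018004001)))))) (.nd (nat_lit 11) 
(.nd (nat_lit 8) (.nd (nat_lit 26) 
(.lf (nat_lit 805413100) (dlOf (nat_lit 2) (nat_lit 0x1e03a00047018090480))) (.nd (nat_lit 27) 
(.lf (nat_lit 1677828332) (dlOf (nat_lit 1) (nat_lit 0x4400200040008090482))) 
(.lf (nat_lit 3959529708) (dlOf (nat_lit 2) (nat_lit 0x160200004c018090480))))) (.nd (nat_lit 10) 
(.nd (nat_lit 28) (.lf (nat_lit 3288441324) (dlOf (nat_lit 1) (nat_lit 0x800400020018017302))) 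
(.lf (nat_lit 872522220) (dlOf (nat_lit 1) (nat_lit 0x400400020008091382)))) 
(.lf (nat_lit 1345431020) (dlOf (nat_lit 2) (nat_lit 0x1585940036404000800400360018bb3602))))) 
(.nd (nat_lit 9) (.nd (nat_lit 28) (.nd (nat_lit 8) 
(.lf (nat_lit 634092) (dlOf (nat_lit 4) (nat_lit 0x576a4006fb4e000fda50021ed18004f67c007fb3a0017d42000bdcc800080000006c240023b52000dda50005ea10000d018003f6a40017b4a0019d9f000aea10000ac200008008001c00200140008006503))) 
(.lf (nat_lit 37857772) (dlOf (nat_lit 1) (nat_lit 0x4002000200090d4f02)))) (.nd (nat_lit 26) 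
(.lf (nat_lit 1342287084) (dlOf (nat_lit 2) (nat_lit 0x4462000360200020018006501))) 
(.lf (nat_lit 1409395948) (dlOf (nat_lit 2) (nat_lit 0x808400002040004004001a0018006502))))) 
(.nd (nat_lit 12) (.nd (nat_lit 19) 
(.lf (nat_lit 3556879084) (dlOf (nat_lit 1) (nat_lit 0x1c002001200080d5a02))) 
(.lf (nat_lit 738831084) (dlOf (nat_lit 1) (nat_lit 0xe0018125a01)))) 
(.lf (nat_lit 20560620) (dlOf (nat_lit 1) (nat_lit 0x4002000200089db982)))))))) (.nd (nat_lit 19) 
(.nd (nat_lit 28) (.nd (nat_lit 21) (.nd (nat_lit 29) (.nd (nat_lit 6) (.nd (nat_lit 22) 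
(.lf (nat_lit 9805868) (dlOf (nat_lit 2) (nat_lit 0x239e40010f3f000377a8000941800e800800ac00200020008580303))) 
(.lf (nat_lit 55943212) (dlOf (nat_lit 1) (nat_lit 0x4004000200096f0282)))) 
(.lf (nat_lit 2349182188) (dlOf (nat_lit 4) (nat_lit 0x4a01a003800cc019806200c202e00290000000d82802400d001b806600c4031005e0170000d02002400d001a406600c6031005f0170000ac20004000803e80020ab000080f6503)))) 
(.nd (nat_lit 26) (.nd (nat_lit 27) 
(.lf (nat_lit 537239596) (dlOf (nat_lit 1) (nat_lit 0x8008000400200020008070803))) 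
(.lf (nat_lit 671457324) (dlOf (nat_lit 1) (nat_lit 0x2200281a0601)))) 
(.lf (nat_lit 1678090284) (dlOf (nat_lit 3) (nat_lit 0x2e055000c02980003c1000b804c0001c04007c00400300008180802))))) 
(.nd (nat_lit 7) (.nd (nat_lit 9) (.nd (nat_lit 23) 
(.lf (nat_lit 24485932) (dlOf (nat_lit 1) (nat_lit 0x400400700018ba0a02))) 
(.lf (nat_lit 16097324) (dlOf (nat_lit 2) (nat_lit 0x9273800170080018008002000200020008860803)))) 
(.lf (nat_lit 23437868) (dlOf (nat_lit 1) (nat_lit 0x8008000800200020008b80e83)))) (.nd (nat_lit 6) 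
(.lf (nat_lit 52797612) (dlOf (nat_lit 1) (nat_lit 0x20008000400200020009570603))) (.nd (nat_lit 8) 
(.lf (nat_lit 20294892) (dlOf (nat_lit 1) (nat_lit 0x14002000400089d6502))) 
(.lf (nat_lit 52797932) (dlOf (nat_lit 1) (nat_lit 0x400400020009571382))))))) (.nd (nat_lit 27) 
(.nd (nat_lit 29) (.nd (nat_lit 6) (.nd (nat_lit 30) 
(.lf (nat_lit 2416287788) (dlOf (nat_lit 3) (nat_lit 0x630000000c80800e800000058040018004000a00180d0a82))) 
(.lf (nat_lit 5637513260) (dlOf (nat_lit 1) (nat_lit 0x20018100301)))) 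
(.lf (nat_lit 3490033004) (dlOf (nat_lit 1) (nat_lit 0x400200020008006b02)))) (.nd (nat_lit 30) 
(.nd (nat_lit 32) 
(.lf (nat_lit 805675052) (dlOf (nat_lit 7) (nat_lit 0x518154000c0a801340530092027000a0130012408a00ba037006a018800b0058015802400c8000000080b000e02980003c080168158008c0a6000404e0014025000880dc0064064012c013000f009000900280001c24011c0260000d0200340530000481001a00980000c080110008002c00200120008180903))) 
(.lf (nat_lit 5100642348) (dlOf (nat_lit 1) (nat_lit 0x400400020008110302)))) (.nd (nat_lit 26) 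
(.lf (nat_lit 4026900524) (dlOf (nat_lit 1) (nat_lit 0x54002005000080c0d02))) 
(.lf (nat_lit 6241493036) (dlOf (nat_lit 1) (nat_lit 0x20018100301)))))) (.nd (nat_lit 7) 
(.nd (nat_lit 26) (.nd (nat_lit 29) 
(.lf (nat_lit 2550505516) (dlOf (nat_lit 3) (nat_lit 0x630000000bc0800e800000052040018004000a00180d0a82))) 
(.lf (nat_lit 5234860076) (dlOf (nat_lit 4) (nat_lit 0x600a00000c08003005c001c0280000204000c01400000018100300)))) 
(.nd (nat_lit 30) 
(.lf (nat_lit 2617614380) (dlOf (nat_lit 2) (nat_lit 0x2f017800000080148008008400200560008100783))) 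
(.lf (nat_lit 1543872556) (dlOf (nat_lit 1) (nat_lit 0x2200281a0601))))) (.nd (nat_lit 6) 
(.lf (nat_lit 472229036) (dlOf (nat_lit 1) (nat_lit 0xa0028922c01))) 
(.lf (nat_lit 1009099756) (dlOf (nat_lit 1) (nat_lit 0x190008013800200a80009082883))))))) 
(.nd (nat_lit 9) (.nd (nat_lit 20) (.nd (nat_lit 26) (.nd (nat_lit 29) (.nd (nat_lit 6) 
(.lf (nat_lit 28155948) (dlOf (nat_lit 3) (nat_lit 0xdaa400aef020012d5200577018d60700))) 
(.lf (nat_lit 38644204) (dlOf (nat_lit 1) (nat_lit 0x800200020009134f02)))) (.nd (nat_lit 27) 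
(.lf (nat_lit 537763884) (dlOf (nat_lit 2) (nat_lit 0x40090000f2040094004001e0008170602))) 
(.lf (nat_lit 2819465260) (dlOf (nat_lit 1) (nat_lit 0x80080004002000200082a0803))))) 
(.nd (nat_lit 31) 
(.lf (nat_lit 1410179116) (dlOf (nat_lit 2) (nat_lit 0x40090000f6040094004001e0008170602))) 
(.lf (nat_lit 3557662764) (dlOf (nat_lit 1) (nat_lit 0x80080004002000200082a0803))))) 
(.nd (nat_lit 6) (.nd (nat_lit 21) 
(.lf (nat_lit 27107372) (dlOf (nat_lit 9) (nat_lit 0x58c11d019208b81af0000000be0c00780000005d0202c40000002c81001b000000160080038000000ae0413c970602369d4049908e8178045c116c05e003c0290363000000148380362e0c000d696020a9af004008e8062045c047c05e0036029012800000012c4004780000006004014800400620018ca0682))) 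
(.lf (nat_lit 4038700) (dlOf (nat_lit 3) (nat_lit 0x1100000001202039000000008818270a80)))) 
(.lf (nat_lit 8238188) (dlOf (nat_lit 1) (nat_lit 0x8002000c0008519402))))) (.nd (nat_lit 20) 
(.nd (nat_lit 7) (.nd (nat_lit 10) 
(.lf (nat_lit 4094536236) (dlOf (nat_lit 1) (nat_lit 0x400400020008055182))) 
(.lf (nat_lit 2754457132) (dlOf (nat_lit 1) (nat_lit 0xe00280f7181)))) (.nd (nat_lit 6) 
(.lf (nat_lit 2754457260) (dlOf (nat_lit 1) (nat_lit 0xa600280f7281))) 
(.lf (nat_lit 19774188) (dlOf (nat_lit 1) (nat_lit 0x4002000200089db982))))) (.nd (nat_lit 6) 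
(.nd (nat_lit 22) (.lf (nat_lit 45984300) (dlOf (nat_lit 1) (nat_lit 0x20029385181))) 
(.lf (nat_lit 58567212) (dlOf (nat_lit 1) (nat_lit 0x30002000400097e5182)))) (.nd (nat_lit 7) 
(.lf (nat_lit 45984364) (dlOf (nat_lit 1) (nat_lit 0x20019385381))) 
(.lf (nat_lit 69051372) (dlOf (nat_lit 1) (nat_lit 0xc00188a2881))))))))))))

end

end Pool.Agent.Lib.MP_5854e1_co.Cz

namespace Pool.Agent.Lib.MP_5854e1_co.Cz

noncomputable section

noncomputable def tz27 : DT := (.nd (nat_lit 13) (.nd (nat_lit 15) (.nd (nat_lit 16) 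
(.nd (nat_lit 18) (.nd (nat_lit 29) (.nd (nat_lit 19) (.nd (nat_lit 6) (.nd (nat_lit 9) 
(.nd (nat_lit 24) (.nd (nat_lit 20) (.nd (nat_lit 7) (.nd (nat_lit 10) 
(.lf (nat_lit 5435949100) (dlOf (nat_lit 1) (nat_lit 0x2c00200240008050c02))) 
(.lf (nat_lit 4697752620) (dlOf (nat_lit 1) (nat_lit 0x140028092881)))) 
(.lf (nat_lit 4697751980) (dlOf (nat_lit 5) (nat_lit 0x100b4001003e0016c04000401f00003810002017800180b4001803e0000606000a02f000100f8000041002a0008000c002001a0008091003)))) 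
(.nd (nat_lit 22) (.lf (nat_lit 1179692) (dlOf (nat_lit 1) (nat_lit 0x400400020008080602))) 
(.lf (nat_lit 47317036) (dlOf (nat_lit 6) (nat_lit 0x45e98002aef00001c08001d7a60010bbc000068200075e980042ef0000180800257a6000ebbc0000582000a5e98003aef000000080030002000a00093d0c02))))) 
(.nd (nat_lit 22) (.nd (nat_lit 21) 
(.lf (nat_lit 25296940) (dlOf (nat_lit 1) (nat_lit 0x4400400520008bf0a82))) 
(.lf (nat_lit 52559916) (dlOf (nat_lit 2) (nat_lit 0x59609801f304400217f8000cb2a0047534800088280278008000c00200220009550283)))) 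
(.nd (nat_lit 23) (.lf (nat_lit 21102636) (dlOf (nat_lit 1) (nat_lit 0x400200020008a10682))) 
(.lf (nat_lit 63045676) (dlOf (nat_lit 1) (nat_lit 0x4004000200099c0282)))))) (.nd (nat_lit 7) 
(.nd (nat_lit 23) (.nd (nat_lit 26) 
(.lf (nat_lit 4697753132) (dlOf (nat_lit 1) (nat_lit 0x20028093781))) 
(.lf (nat_lit 4496426540) (dlOf (nat_lit 1) (nat_lit 0x1e0028053781)))) 
(.lf (nat_lit 8521260) (dlOf (nat_lit 1) (nat_lit 0x400200020008513782)))) (.nd (nat_lit 11) 
(.nd (nat_lit 20) (.lf (nat_lit 3355575212) (dlOf (nat_lit 1) (nat_lit 0x4c00280a2681))) 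
(.lf (nat_lit 20054956) (dlOf (nat_lit 1) (nat_lit 0x1600289d2681)))) 
(.lf (nat_lit 4563536812) (dlOf (nat_lit 1) (nat_lit 0x110008002000200100008095d03)))))) 
(.nd (nat_lit 7) (.nd (nat_lit 8) (.nd (nat_lit 9) 
(.lf (nat_lit 20060268) (dlOf (nat_lit 1) (nat_lit 0x4004000400189da882))) 
(.lf (nat_lit 20056684) (dlOf (nat_lit 1) (nat_lit 0x200189d5381)))) (.nd (nat_lit 10) 
(.lf (nat_lit 3221358956) (dlOf (nat_lit 1) (nat_lit 0x140018114e81))) 
(.lf (nat_lit 20057452) (dlOf (nat_lit 1) (nat_lit 0x70008001c002000600089d6b03))))) 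
(.nd (nat_lit 8) (.nd (nat_lit 26) 
(.lf (nat_lit 134352108) (dlOf (nat_lit 1) (nat_lit 0x40018006501))) 
(.lf (nat_lit 5838605548) (dlOf (nat_lit 2) (nat_lit 0x1a0170001b0180f6500)))) (.nd (nat_lit 10) 
(.lf (nat_lit 37882348) (dlOf (nat_lit 1) (nat_lit 0x200190d4f01))) 
(.lf (nat_lit 3355579884) (dlOf (nat_lit 1) (nat_lit 0x10004000200080a9c02))))))) (.nd (nat_lit 20) 
(.nd (nat_lit 28) (.nd (nat_lit 8) (.nd (nat_lit 26) 
(.lf (nat_lit 134873132) (dlOf (nat_lit 2) (nat_lit 0x22042000128180d0a80))) 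
(.lf (nat_lit 201981996) (dlOf (nat_lit 2) (nat_lit 0x22042000128180d0a80)))) 
(.lf (nat_lit 46793004) (dlOf (nat_lit 2) (nat_lit 0x233c8000180800c80080008002004a0009380b03)))) 
(.nd (nat_lit 21) (.nd (nat_lit 26) 
(.lf (nat_lit 1342832684) (dlOf (nat_lit 3) (nat_lit 0x102e200d400200061710069f8180e0a00))) 
(.lf (nat_lit 3557425196) (dlOf (nat_lit 1) (nat_lit 0x200281f0801)))) 
(.lf (nat_lit 1344929836) (dlOf (nat_lit 2) (nat_lit 0x2c2b00000002000200089a0281))))) 
(.nd (nat_lit 6) (.nd (nat_lit 9) (.nd (nat_lit 22) 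
(.lf (nat_lit 3801132) (dlOf (nat_lit 1) (nat_lit 0x9c0008220a01))) 
(.lf (nat_lit 24772652) (dlOf (nat_lit 2) (nat_lit 0x2a8bc001c604001400400020008bb0b02)))) 
(.lf (nat_lit 3491365420) (dlOf (nat_lit 2) (nat_lit 0x1a00e700000018090e80)))) (.nd (nat_lit 8) 
(.lf (nat_lit 20584044) (dlOf (nat_lit 1) (nat_lit 0x800189d9c81))) 
(.lf (nat_lit 14287212) (dlOf (nat_lit 1) (nat_lit 0x400400020008750a02))))))) (.nd (nat_lit 8) 
(.nd (nat_lit 19) (.nd (nat_lit 9) (.nd (nat_lit 28) (.nd (nat_lit 6) 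
(.lf (nat_lit 3959560236) (dlOf (nat_lit 1) (nat_lit 0x18001811a601))) 
(.lf (nat_lit 738328812) (dlOf (nat_lit 2) (nat_lit 0x24051000e3818090a80)))) (.nd (nat_lit 20) 
(.lf (nat_lit 5301731372) (dlOf (nat_lit 1) (nat_lit 0x2c00200240008050c02))) 
(.lf (nat_lit 1880227884) (dlOf (nat_lit 2) (nat_lit 0x5707180248388013c0f60000b06000200087e0281))))) 
(.nd (nat_lit 6) (.nd (nat_lit 7) 
(.lf (nat_lit 3959560748) (dlOf (nat_lit 2) (nat_lit 0x1c0230002e008013800800240020052000811b303))) 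
(.lf (nat_lit 805441196) (dlOf (nat_lit 1) (nat_lit 0x1000200060008117282)))) 
(.lf (nat_lit 1610745452) (dlOf (nat_lit 2) (nat_lit 0x3005a00023818093900))))) (.nd (nat_lit 28) 
(.nd (nat_lit 30) (.nd (nat_lit 9) 
(.lf (nat_lit 2754215980) (dlOf (nat_lit 6) (nat_lit 0xf381a407b00c803bc04401d901200180080000481407940d203cc06401dc02200eb0090000441004d40880002002026c0440000f8100910220000740800400080084002001800080c0d03))) 
(.lf (nat_lit 2753167916) (dlOf (nat_lit 2) (nat_lit 0x1a00d900000018090e80)))) (.nd (nat_lit 27) 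
(.lf (nat_lit 1678377004) (dlOf (nat_lit 9) (nat_lit 0xe4021007400380088008000570601c004200e500700288010000a80c038808401b400e004f0020000dc180700108036401c001400c00510020000cc200c201440604074000190400a6051005101d000060100bd814405e40740001604024c051011e01d0000501000c00080018002001c0008200d03))) 
(.lf (nat_lit 3960078380) (dlOf (nat_lit 10) (nat_lit 0xa4600e02cf00601768000000320c142801c01e60040154000000060182628038134401800140040039001026c00000002c1403a401c000150209f400e00ed0000000501001d80380002604022801c0000b0202a40000000381001a000000000080040008019000209d000081a0d03))))) 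
(.nd (nat_lit 6) (.nd (nat_lit 7) 
(.lf (nat_lit 3154772012) (dlOf (nat_lit 1) (nat_lit 0x20008320e01))) 
(.lf (nat_lit 1881801900) (dlOf (nat_lit 1) (nat_lit 0x20029042c01)))) 
(.lf (nat_lit 4095344748) (dlOf (nat_lit 1) (nat_lit 0x40018090b01)))))) (.nd (nat_lit 6) 
(.nd (nat_lit 26) (.nd (nat_lit 9) 
(.lf (nat_lit 5905713452) (dlOf (nat_lit 1) (nat_lit 0x40028144b81))) (.nd (nat_lit 28) 
(.lf (nat_lit 671221548) (dlOf (nat_lit 1) (nat_lit 0x99800802bc002018c0008143d83))) 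
(.lf (nat_lit 3087140652) (dlOf (nat_lit 2) (nat_lit 0x300000003404002800400020008143d82))))) 
(.nd (nat_lit 12) (.lf (nat_lit 3959556396) (dlOf (nat_lit 1) (nat_lit 0x400400040018114b82))) 
(.nd (nat_lit 27) (.lf (nat_lit 1677859116) (dlOf (nat_lit 1) (nat_lit 0x40020002000811ab82))) 
(.lf (nat_lit 3959560492) (dlOf (nat_lit 2) (nat_lit 0x402300127808002800800040020014000811ab83)))))) 
(.nd (nat_lit 7) (.nd (nat_lit 9) 
(.lf (nat_lit 805439852) (dlOf (nat_lit 1) (nat_lit 0x58008000800200500008114e83))) 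
(.nd (nat_lit 27) 
(.lf (nat_lit 6241258348) (dlOf (nat_lit 1) (nat_lit 0x8008001c002001400080d5c03))) 
(.lf (nat_lit 738331500) (dlOf (nat_lit 1) (nat_lit 0xc002000a0008095c02))))) (.nd (nat_lit 12) 
(.nd (nat_lit 11) 
(.lf (nat_lit 2080506348) (dlOf (nat_lit 2) (nat_lit 0x400940000004000800400220018091382))) 
(.lf (nat_lit 738855404) (dlOf (nat_lit 1) (nat_lit 0x180018124f01)))) (.nd (nat_lit 27) 
(.lf (nat_lit 1677859308) (dlOf (nat_lit 2) (nat_lit 0x302b002ffc08005800800080020052000811b283))) 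
(.lf (nat_lit 3959560684) (dlOf (nat_lit 1) (nat_lit 0xe000811b281))))))))) (.nd (nat_lit 21) 
(.nd (nat_lit 28) (.nd (nat_lit 26) (.nd (nat_lit 22) (.nd (nat_lit 23) (.nd (nat_lit 31) 
(.nd (nat_lit 9) 
(.lf (nat_lit 1074135084) (dlOf (nat_lit 10) (nat_lit 0x402e01df014800090100ed80a400b80500002204024a0290001001012501480007c0805300a40003a0402280520001b0200220290000501003b01480001c0808c80a40000a040040004000200080c0d02))) 
(.lf (nat_lit 134611500) (dlOf (nat_lit 2) (nat_lit 0x19403100000018090e80)))) (.nd (nat_lit 29) 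
(.lf (nat_lit 3355836460) (dlOf (nat_lit 3) (nat_lit 0x602f00be68100c2019000000080098008002400200320008120783))) 
(.lf (nat_lit 3892707372) (dlOf (nat_lit 3) (nat_lit 0x305014017f809e003203205fd01181b48088009c0380074015008300a00060010000a42404400a0019a04f0083023804e0118024c08800c2043002b01c002100c800b406001cc02300880110069007000096300010004001e00181d0682))))) 
(.nd (nat_lit 9) (.nd (nat_lit 19) 
(.lf (nat_lit 9830444) (dlOf (nat_lit 2) (nat_lit 0x1228c00000040060004002e0018580302))) 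
(.lf (nat_lit 59637804) (dlOf (nat_lit 3) (nat_lit 0x18a03000012040051018007a74100000029820280)))) 
(.lf (nat_lit 8783404) (dlOf (nat_lit 1) (nat_lit 0x60028513781))))) (.nd (nat_lit 6) 
(.nd (nat_lit 19) (.lf (nat_lit 55967788) (dlOf (nat_lit 1) (nat_lit 0x8008000c00200020009700983))) 
(.lf (nat_lit 5111852) (dlOf (nat_lit 1) (nat_lit 0x10002001c0008310902)))) 
(.lf (nat_lit 21365228) (dlOf (nat_lit 3) (nat_lit 0x9af560002e0200437ab00016818a37300))))) 
(.nd (nat_lit 6) (.nd (nat_lit 9) (.nd (nat_lit 30) 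
(.lf (nat_lit 67502124) (dlOf (nat_lit 1) (nat_lit 0x180080008002000400081a0883))) 
(.lf (nat_lit 3288727596) (dlOf (nat_lit 10) (nat_lit 0x306034007801800a6807c000680c0158068015603000360148052807c0006610011406a00640340052018803e00c00088054003200c0000c06007900f80004c080d000d4050006800ce030000e0060000482031200d40e6006200d8030008d01500f1808c09e0018000110c013e035000201880003c1005180d4000120400ec06a001e03100260180000001821780080ca0002126000080d0a83)))) 
(.lf (nat_lit 201720364) (dlOf (nat_lit 2) (nat_lit 0x19403100000018090e80)))) 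
(.lf (nat_lit 4362469484) (dlOf (nat_lit 1) (nat_lit 0x60018090001))))) (.nd (nat_lit 27) 
(.nd (nat_lit 7) (.nd (nat_lit 22) (.nd (nat_lit 29) 
(.lf (nat_lit 2416312364) (dlOf (nat_lit 20) (nat_lit 0x240240001a0100cc0120000cc0801280940d2c0480068022008a00e00e9005c0cc400801b600103380000000c8401608090035804400c001c022500b81a70010024c002055c0000001887009b01200638070040c02e031600400880000000c02801a00940a08048034a022003201000ab8070096002e0008015002600681d40010013400204de000000178b01e2012003400700e14008003c00101cd0000000b8280e40090013c0380478017032f00200db00000005a140a7c04800b001c012f00b816280100a2c0000002c0a0024024001f01002578000000560c05ec0000002a0201720040001481008101200570088014404000b801d00c000b8061001001c0000000180e00ee024000090105d701200b10080070802a0001106001c0040000801001001200003c08006009000012040028048000e020001000e800d005c02c40080002000000000680d0a80))) 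
(.lf (nat_lit 4026925100) (dlOf (nat_lit 10) (nat_lit 0x306034007801800a6807c000560c0158068015603000360148052807c0005410011406a00640340052018803e00c00088054003200c0000c06007900f80004c080d000d4050006800ce030000e0060000482031200d40e6006200d8030008d01500f1808c09e0018000110c013e035000201880003c1005180d4000120400ec06a001e03100260180000001821780080ca0002126000080d0a83)))) 
(.lf (nat_lit 1346764844) (dlOf (nat_lit 1) (nat_lit 0x8008000800200020009000283)))) 
(.nd (nat_lit 6) 
(.lf (nat_lit 1342570668) (dlOf (nat_lit 1) (nat_lit 0x8008000400200020008064c03))) 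
(.lf (nat_lit 1880490220) (dlOf (nat_lit 1) (nat_lit 0xe00189a1e81))))) (.nd (nat_lit 30) 
(.nd (nat_lit 7) (.nd (nat_lit 26) 
(.lf (nat_lit 2550530092) (dlOf (nat_lit 20) (nat_lit 0x24026001f01002578000000680c05ec00000033020172004000190100120130000c40806600980006004009404e0696026003401100450074074802e066200400db000819c00000005e200b0404c01ac022006000e8112805c0d38008012600102ae0000000b83804d8098031c03a0206017018b002004400000005a1400d004e050402601a501100190080055c03a04b0017000400a801300340ea0008009a001026f0000000b0580f1009801a003a070a004001e00080e680000005614072004c009e01d023c00b8197801006d80000002a0a053e026005800e8097805c0b1400805160000001485008101300570088014404000b801c00c000b8061001001c0000000180e00ee026000090105d701300b10080070802a0001106001c0040000801001001300003c0800600980001204002804c000e020001000e000d005c02c40080002000000000680d0a80))) 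
(.lf (nat_lit 3154509868) (dlOf (nat_lit 3) (nat_lit 0x86e05004d502782a5008c1434044030601c044c00a800a0050000a41c005409e001c047000b0230010810c0174070021402300d501100638070000962001c800400a000181f0682)))) 
(.lf (nat_lit 470155436) (dlOf (nat_lit 1) (nat_lit 0x8008000400200020008064c03)))) 
(.nd (nat_lit 6) 
(.lf (nat_lit 5838864428) (dlOf (nat_lit 3) (nat_lit 0x100c8005c06200d5204003c031006a78181d0a00))) 
(.nd (nat_lit 26) 
(.lf (nat_lit 1476788332) (dlOf (nat_lit 1) (nat_lit 0x80008002c002001c00081a0483))) 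
(.lf (nat_lit 4228251756) (dlOf (nat_lit 1) (nat_lit 0x20018090001)))))))) (.nd (nat_lit 24) 
(.nd (nat_lit 7) (.nd (nat_lit 31) (.nd (nat_lit 6) (.nd (nat_lit 19) 
(.lf (nat_lit 37093420) (dlOf (nat_lit 1) (nat_lit 0x400400020019090282))) 
(.lf (nat_lit 4063276) (dlOf (nat_lit 4) (nat_lit 0x2100000000901053a0000000440800300000001a0401b800200a00008270a82)))) 
(.lf (nat_lit 46008940) (dlOf (nat_lit 2) (nat_lit 0x64d60001a624000760800dc00400180009385382)))) 
(.nd (nat_lit 6) (.nd (nat_lit 26) 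
(.lf (nat_lit 3493724460) (dlOf (nat_lit 1) (nat_lit 0x80080008002000200081b0503))) 
(.lf (nat_lit 2755526956) (dlOf (nat_lit 1) (nat_lit 0x80080008002000200081b0503)))) 
(.lf (nat_lit 2753953900) (dlOf (nat_lit 1) (nat_lit 0x600280a1481))))) (.nd (nat_lit 9) 
(.nd (nat_lit 11) 
(.lf (nat_lit 36045996) (dlOf (nat_lit 1) (nat_lit 0x58008003000200160009012c03))) 
(.lf (nat_lit 2754481324) (dlOf (nat_lit 2) (nat_lit 0x9a06600390200000641000080080018002000600080f6283)))) 
(.nd (nat_lit 6) (.lf (nat_lit 8262316) (dlOf (nat_lit 1) (nat_lit 0x400200020008518c82))) 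
(.lf (nat_lit 1009124332) (dlOf (nat_lit 1) (nat_lit 0x6800400060009082882)))))) (.nd (nat_lit 7) 
(.nd (nat_lit 8) (.nd (nat_lit 6) 
(.lf (nat_lit 19796524) (dlOf (nat_lit 1) (nat_lit 0x18002000600089d8982))) (.nd (nat_lit 9) 
(.lf (nat_lit 19796076) (dlOf (nat_lit 1) (nat_lit 0x4004000200089d7d82))) 
(.lf (nat_lit 19794540) (dlOf (nat_lit 1) (nat_lit 0x8002000200089d5382))))) (.nd (nat_lit 11) 
(.lf (nat_lit 19792748) (dlOf (nat_lit 1) (nat_lit 0x80080004002000200089d2583))) 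
(.lf (nat_lit 19794796) (dlOf (nat_lit 1) (nat_lit 0x80080004002000200089d5c03))))) 
(.nd (nat_lit 6) (.nd (nat_lit 8) 
(.lf (nat_lit 19797676) (dlOf (nat_lit 1) (nat_lit 0x4002000200089da002))) (.nd (nat_lit 9) 
(.lf (nat_lit 19795372) (dlOf (nat_lit 1) (nat_lit 0x4004000200089d6d02))) 
(.lf (nat_lit 19792812) (dlOf (nat_lit 1) (nat_lit 0x800289d2681))))) (.nd (nat_lit 10) 
(.lf (nat_lit 33425900) (dlOf (nat_lit 1) (nat_lit 0x60028f54f01))) 
(.lf (nat_lit 19797484) (dlOf (nat_lit 1) (nat_lit 0x4002000200089d9c02))))))))) (.nd (nat_lit 28) 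
(.nd (nat_lit 19) (.nd (nat_lit 26) (.nd (nat_lit 20) (.nd (nat_lit 7) (.nd (nat_lit 18) 
(.lf (nat_lit 25362476) (dlOf (nat_lit 2) (nat_lit 0x130c1b00019818c00600))) (.nd (nat_lit 22) 
(.lf (nat_lit 61276204) (dlOf (nat_lit 1) (nat_lit 0x20029900281))) 
(.lf (nat_lit 15138860) (dlOf (nat_lit 2) (nat_lit 0x9a19000290187c0680))))) (.nd (nat_lit 6) 
(.nd (nat_lit 9) (.lf (nat_lit 35849388) (dlOf (nat_lit 1) (nat_lit 0xc20029012c01))) 
(.lf (nat_lit 2818773676) (dlOf (nat_lit 1) (nat_lit 0xfc004003c0008128c82)))) 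
(.lf (nat_lit 134414828) (dlOf (nat_lit 1) (nat_lit 0x20028017301))))) (.nd (nat_lit 21) 
(.nd (nat_lit 25) (.nd (nat_lit 23) 
(.lf (nat_lit 22478892) (dlOf (nat_lit 1) (nat_lit 0x20028ae0601))) 
(.lf (nat_lit 30867500) (dlOf (nat_lit 1) (nat_lit 0x4004000c0008e50b02)))) (.nd (nat_lit 22) 
(.lf (nat_lit 35061804) (dlOf (nat_lit 2) (nat_lit 0x2610100005818fd0280))) 
(.lf (nat_lit 56033324) (dlOf (nat_lit 1) (nat_lit 0x400400020009710282))))) (.nd (nat_lit 9) 
(.lf (nat_lit 24576044) (dlOf (nat_lit 1) (nat_lit 0x20028ba0a01))) 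
(.lf (nat_lit 11731500) (dlOf (nat_lit 1) (nat_lit 0x80080008002000200086c0e83)))))) 
(.nd (nat_lit 31) (.nd (nat_lit 8) (.nd (nat_lit 27) (.nd (nat_lit 6) 
(.lf (nat_lit 604176428) (dlOf (nat_lit 1) (nat_lit 0x1400400020008080682))) 
(.lf (nat_lit 68354284) (dlOf (nat_lit 1) (nat_lit 0x4000400140018570602)))) (.nd (nat_lit 9) 
(.lf (nat_lit 5570232364) (dlOf (nat_lit 1) (nat_lit 0x1c00200060008090302))) 
(.lf (nat_lit 1812136492) (dlOf (nat_lit 1) (nat_lit 0x4000800c800200820008158003))))) 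
(.nd (nat_lit 6) (.nd (nat_lit 18) 
(.lf (nat_lit 4362273068) (dlOf (nat_lit 1) (nat_lit 0x800200020008014902))) 
(.lf (nat_lit 1678180652) (dlOf (nat_lit 1) (nat_lit 0x4002000200081a0502)))) 
(.lf (nat_lit 1812136428) (dlOf (nat_lit 9) (nat_lit 0x30802c00c80000005d0400ca00b00600000001701002f8000000a40400880160005002004400b0002381005300c0054802c0064008018c000000210400130058000f80800100000005c0400c000400020008157302))))) 
(.nd (nat_lit 6) (.nd (nat_lit 7) (.nd (nat_lit 9) 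
(.lf (nat_lit 2754019372) (dlOf (nat_lit 1) (nat_lit 0xc004000400080b0e82))) 
(.lf (nat_lit 2214789676) (dlOf (nat_lit 1) (nat_lit 0x500080040002001c00080a1483)))) 
(.lf (nat_lit 2753757612) (dlOf (nat_lit 1) (nat_lit 0x800805f800200480008090783)))) 
(.nd (nat_lit 7) (.nd (nat_lit 9) 
(.lf (nat_lit 2755068268) (dlOf (nat_lit 1) (nat_lit 0x168004003c0008105502))) 
(.lf (nat_lit 2751924076) (dlOf (nat_lit 1) (nat_lit 0x480008004001)))) (.nd (nat_lit 10) 
(.lf (nat_lit 3825402348) (dlOf (nat_lit 2) (nat_lit 0x10058000a4080010008000c00200040008157303))) 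
(.lf (nat_lit 3422754284) (dlOf (nat_lit 3) (nat_lit 0xc064000602b0053f0200030158029b40800780080034002003000080a9c03)))))))) 
(.nd (nat_lit 18) (.nd (nat_lit 20) (.nd (nat_lit 26) (.nd (nat_lit 6) (.nd (nat_lit 21) 
(.lf (nat_lit 537591852) (dlOf (nat_lit 10) (nat_lit 0x11bc0be008e02a002101380009018182017c000460411a80be001405e005801380008818189817c009c05401bc0270001003031502f803480a8019404e0001f0604f605f0000e8101f802f80006c080b1817c0000e0400140be0000502043e00180c0d01))) 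
(.lf (nat_lit 2818092) (dlOf (nat_lit 1) (nat_lit 0x8008000c002000600081b0d03)))) 
(.lf (nat_lit 17498220) (dlOf (nat_lit 1) (nat_lit 0x200288e0481)))) (.nd (nat_lit 8) 
(.lf (nat_lit 4362797100) (dlOf (nat_lit 3) (nat_lit 0x4f0033000190100010198000c4080118008003400200600008100603))) 
(.lf (nat_lit 2752186156) (dlOf (nat_lit 1) (nat_lit 0x20008003d81))))) (.nd (nat_lit 9) 
(.nd (nat_lit 21) (.nd (nat_lit 23) 
(.lf (nat_lit 1769516) (dlOf (nat_lit 2) (nat_lit 0x1616a000205180060054000540c0018002000e0008130802))) 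
(.lf (nat_lit 60489772) (dlOf (nat_lit 1) (nat_lit 0x400400020009880302)))) (.nd (nat_lit 8) 
(.lf (nat_lit 16449580) (dlOf (nat_lit 1) (nat_lit 0x2200188a0701))) 
(.lf (nat_lit 8068396) (dlOf (nat_lit 1) (nat_lit 0x2002851c681))))) (.nd (nat_lit 6) 
(.lf (nat_lit 2753233452) (dlOf (nat_lit 2) (nat_lit 0x607f40000004003400400ba0008090e82))) 
(.nd (nat_lit 7) (.lf (nat_lit 54201196) (dlOf (nat_lit 1) (nat_lit 0x400400020009655c02))) 
(.lf (nat_lit 8065772) (dlOf (nat_lit 1) (nat_lit 0x8008000800200040008518e03))))))) 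
(.nd (nat_lit 21) (.nd (nat_lit 20) (.nd (nat_lit 10) (.nd (nat_lit 23) 
(.lf (nat_lit 5177388) (dlOf (nat_lit 4) (nat_lit 0x4eafdc000be04141981c01d4bf70002592831329e000514e80bd6a66001051700014838012b03803817ee0002b25018c53c000329d009294cc0020a2e00025878320680))) 
(.lf (nat_lit 13565996) (dlOf (nat_lit 8) (nat_lit 0x578b4400064040a0c5a2000310200d82d1000180100251688000bc0802c8b440005a0402ac5a20002c02006e2d10000c018730a80)))) 
(.lf (nat_lit 51315756) (dlOf (nat_lit 1) (nat_lit 0x400200020009512882)))) (.nd (nat_lit 6) 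
(.lf (nat_lit 14614572) (dlOf (nat_lit 1) (nat_lit 0x400400020008770402))) 
(.lf (nat_lit 6226028) (dlOf (nat_lit 1) (nat_lit 0x400400020008420482))))) (.nd (nat_lit 6) 
(.nd (nat_lit 7) (.nd (nat_lit 9) 
(.lf (nat_lit 11468844) (dlOf (nat_lit 3) (nat_lit 0x762908000400806294840001e040060004000e00086a0802))) 
(.lf (nat_lit 19862060) (dlOf (nat_lit 1) (nat_lit 0x1a00289d8981)))) 
(.lf (nat_lit 8327852) (dlOf (nat_lit 1) (nat_lit 0x8008000400200020008518c83)))) (.nd (nat_lit 9) 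
(.lf (nat_lit 2754551148) (dlOf (nat_lit 1) (nat_lit 0x80080004002000200080fc903))) 
(.nd (nat_lit 11) (.lf (nat_lit 19858284) (dlOf (nat_lit 1) (nat_lit 0x4004000200089d2582))) 
(.lf (nat_lit 19860332) (dlOf (nat_lit 1) (nat_lit 0x80080004002000200089d5c03))))))))) 
(.nd (nat_lit 18) (.nd (nat_lit 26) (.nd (nat_lit 6) (.nd (nat_lit 29) (.nd (nat_lit 9) 
(.nd (nat_lit 7) (.nd (nat_lit 21) 
(.lf (nat_lit 1342898220) (dlOf (nat_lit 1) (nat_lit 0x20018100e81))) 
(.lf (nat_lit 1344995372) (dlOf (nat_lit 2) (nat_lit 0x604e000038080008008001c002000200089b0983)))) 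
(.lf (nat_lit 3624078764) (dlOf (nat_lit 1) (nat_lit 0xef8008060000202080008146d03)))) 
(.nd (nat_lit 10) 
(.lf (nat_lit 3491430956) (dlOf (nat_lit 2) (nat_lit 0x607ac0000004003400400ba0008090e82))) 
(.lf (nat_lit 5637342764) (dlOf (nat_lit 1) (nat_lit 0x28004001200080d3782))))) (.nd (nat_lit 27) 
(.nd (nat_lit 30) 
(.lf (nat_lit 5100470316) (dlOf (nat_lit 2) (nat_lit 0x200240004e04002000200040008090302))) 
(.lf (nat_lit 6174212140) (dlOf (nat_lit 1) (nat_lit 0x1c00200060008090302)))) (.nd (nat_lit 9) 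
(.lf (nat_lit 6308429868) (dlOf (nat_lit 1) (nat_lit 0x4000800dc002001c0008080303))) 
(.lf (nat_lit 2013464108) (dlOf (nat_lit 3) (nat_lit 0x120240000e01002d01200006808003000800a400200120008093783)))))) 
(.nd (nat_lit 7) (.nd (nat_lit 8) (.nd (nat_lit 20) 
(.lf (nat_lit 1344995436) (dlOf (nat_lit 1) (nat_lit 0x80080004002000200089b1e83))) 
(.lf (nat_lit 3491430508) (dlOf (nat_lit 1) (nat_lit 0x820018090001)))) 
(.lf (nat_lit 268634988) (dlOf (nat_lit 1) (nat_lit 0x4004000200080e5c02)))) (.nd (nat_lit 8) 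
(.lf (nat_lit 6711084268) (dlOf (nat_lit 1) (nat_lit 0x20018092e81))) 
(.lf (nat_lit 1342374380) (dlOf (nat_lit 10) (nat_lit 0x619c00030000001841000f873c003439a000470400021cf00120e6800118100048744006439e000a1c500450ce00048000000841400403380003f0200521cf0001e8100020ec800707140005c08001c3c600061d900020bf8000b41800205500004604016400400040008017302)))))) 
(.nd (nat_lit 6) (.nd (nat_lit 19) (.nd (nat_lit 7) (.nd (nat_lit 8) 
(.lf (nat_lit 5704450092) (dlOf (nat_lit 1) (nat_lit 0x4000800dc002001c0008080303))) 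
(.lf (nat_lit 4228055340) (dlOf (nat_lit 1) (nat_lit 0x800200020008014902)))) (.nd (nat_lit 8) 
(.lf (nat_lit 3556970668) (dlOf (nat_lit 1) (nat_lit 0x780080078002002a0008127d83))) 
(.lf (nat_lit 6241323948) (dlOf (nat_lit 1) (nat_lit 0x5e00280d5d01))))) (.nd (nat_lit 9) 
(.nd (nat_lit 21) 
(.lf (nat_lit 4228579372) (dlOf (nat_lit 3) (nat_lit 0x4f0032000198100010190000c8080118008003400200600008100603))) 
(.lf (nat_lit 472580140) (dlOf (nat_lit 3) (nat_lit 0xb0a2800b833c0001208071c28a000e13d00db0678000001800a00080050002000800089c0283)))) 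
(.lf (nat_lit 473629228) (dlOf (nat_lit 1) (nat_lit 0xc004001c0008f68a02))))) (.nd (nat_lit 7) 
(.nd (nat_lit 8) (.lf (nat_lit 3556972652) (dlOf (nat_lit 2) (nat_lit 0x340380052e01812a880))) 
(.lf (nat_lit 4630711148) (dlOf (nat_lit 1) (nat_lit 0x400400020008095c02)))) (.nd (nat_lit 8) 
(.nd (nat_lit 10) (.lf (nat_lit 1008926956) (dlOf (nat_lit 1) (nat_lit 0x40028fe1e81))) 
(.lf (nat_lit 1543703788) (dlOf (nat_lit 2) (nat_lit 0x1500f8007004c0004008011000200300008146502)))) 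
(.lf (nat_lit 4228055532) (dlOf (nat_lit 11) (nat_lit 0x80027803681340110084054202a00034040024027801381340a58054000670600a804f004c0268009010809cc0540006608000e04f0003181000302780018408040013c015809a004004202a101500010820036013c0b88054000410400ae04f001e0268007810809c80540003f08001204f01c90150000f810010013c00b409a000230401120028017301))))))) 
(.nd (nat_lit 19) (.nd (nat_lit 30) (.nd (nat_lit 27) (.nd (nat_lit 8) 
(.lf (nat_lit 4563861548) (dlOf (nat_lit 1) (nat_lit 0x78008002000200020008110483))) 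
(.lf (nat_lit 805765420) (dlOf (nat_lit 1) (nat_lit 0x4002000200081a0502)))) (.nd (nat_lit 26) 
(.lf (nat_lit 4698079276) (dlOf (nat_lit 1) (nat_lit 0x78008002000200020008110483))) 
(.lf (nat_lit 470220844) (dlOf (nat_lit 3) (nat_lit 0x87480005404002449200122310000c0280a0800))))) 
(.nd (nat_lit 31) (.nd (nat_lit 29) (.nd (nat_lit 6) (.nd (nat_lit 32) 
(.lf (nat_lit 1342636076) (dlOf (nat_lit 3) (nat_lit 0x48249000811900018748000540c00b049200842310000c0280a0900))) 
(.lf (nat_lit 5637603372) (dlOf (nat_lit 1) (nat_lit 0x800400020018120d02)))) 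
(.lf (nat_lit 1346830444) (dlOf (nat_lit 1) (nat_lit 0x80019031e81)))) (.nd (nat_lit 26) 
(.lf (nat_lit 1879506988) (dlOf (nat_lit 1) (nat_lit 0x800400060008190402))) 
(.lf (nat_lit 6241583148) (dlOf (nat_lit 1) (nat_lit 0x800400020018120d02))))) (.nd (nat_lit 6) 
(.nd (nat_lit 20) (.lf (nat_lit 3492216876) (dlOf (nat_lit 1) (nat_lit 0xc004000200080b0e82))) 
(.lf (nat_lit 3491168300) (dlOf (nat_lit 1) (nat_lit 0x400400020008070902)))) 
(.lf (nat_lit 3493265772) (dlOf (nat_lit 1) (nat_lit 0x168004003c0008105502)))))) (.nd (nat_lit 6) 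
(.nd (nat_lit 21) (.nd (nat_lit 9) 
(.lf (nat_lit 470745132) (dlOf (nat_lit 1) (nat_lit 0x20018170401))) 
(.lf (nat_lit 3490644524) (dlOf (nat_lit 1) (nat_lit 0x400200020008018002)))) (.nd (nat_lit 20) 
(.lf (nat_lit 4096720940) (dlOf (nat_lit 1) (nat_lit 0x400200020008160482))) 
(.lf (nat_lit 473890860) (dlOf (nat_lit 5) (nat_lit 0x3f081001902d000f616600640a2803f033c020002e0000b0c0002204002f0b4001e0598008028a00680cf003700b8000283002a85a000642cc00a814500600678031005c000121401602d200a816800330b30038851400f428400c80cf00550630033805c000002001e0004000a0018fc0282))))) 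
(.nd (nat_lit 7) 
(.lf (nat_lit 6376327532) (dlOf (nat_lit 1) (nat_lit 0x10008000800200080008094e83))) 
(.nd (nat_lit 9) 
(.lf (nat_lit 3490644460) (dlOf (nat_lit 3) (nat_lit 0x1460c00000b810068060000a81b80002a0800a400400360018017302))) 
(.lf (nat_lit 3492742124) (dlOf (nat_lit 1) (nat_lit 0x2200180f2881)))))))))) (.nd (nat_lit 16) 
(.nd (nat_lit 28) (.nd (nat_lit 6) (.nd (nat_lit 18) (.nd (nat_lit 19) (.nd (nat_lit 25) 
(.nd (nat_lit 8) (.nd (nat_lit 23) (.nd (nat_lit 31) 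
(.lf (nat_lit 1141014572) (dlOf (nat_lit 1) (nat_lit 0x20028080481))) 
(.lf (nat_lit 3288498220) (dlOf (nat_lit 1) (nat_lit 0x10008000800200040008030b83)))) 
(.nd (nat_lit 9) (.nd (nat_lit 22) 
(.lf (nat_lit 25329708) (dlOf (nat_lit 6) (nat_lit 0x5e80000006804000593e0002f020012ebc000160101b200000004c0800d0000000000400d000200120008bf0a82))) 
(.lf (nat_lit 29524012) (dlOf (nat_lit 1) (nat_lit 0xb0008002c00200080008e10803)))) 
(.lf (nat_lit 11698732) (dlOf (nat_lit 6) (nat_lit 0x3fc6300010010091e318046ef580001e0803fb8c60203bd60000382009ee31804d6f5800008080103c3e0127c630092deb0000001801600080054002007a00086c0e83))))) 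
(.nd (nat_lit 7) (.nd (nat_lit 27) 
(.lf (nat_lit 4295131436) (dlOf (nat_lit 1) (nat_lit 0x8008000400200020008090503))) 
(.lf (nat_lit 4429349164) (dlOf (nat_lit 1) (nat_lit 0x8008000400200020008090503)))) 
(.nd (nat_lit 9) (.lf (nat_lit 201490860) (dlOf (nat_lit 1) (nat_lit 0x420018017181))) 
(.lf (nat_lit 2751629228) (dlOf (nat_lit 1) (nat_lit 0x400400060008004302)))))) (.nd (nat_lit 7) 
(.nd (nat_lit 10) (.nd (nat_lit 20) 
(.lf (nat_lit 52592684) (dlOf (nat_lit 1) (nat_lit 0x6000400160009550282))) 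
(.lf (nat_lit 47349804) (dlOf (nat_lit 5) (nat_lit 0x4bd300025de00003410001af4c000d7780000c040008bd300045de00002c10000af4c00000040020004000200193d0c02)))) 
(.lf (nat_lit 51545132) (dlOf (nat_lit 1) (nat_lit 0x8008000800200020009512883)))) 
(.nd (nat_lit 20) (.lf (nat_lit 35816620) (dlOf (nat_lit 1) (nat_lit 0x20019012c01))) 
(.lf (nat_lit 36865196) (dlOf (nat_lit 1) (nat_lit 0x3a0009072c01)))))) (.nd (nat_lit 26) 
(.nd (nat_lit 27) (.nd (nat_lit 20) 
(.lf (nat_lit 3221913644) (dlOf (nat_lit 3) (nat_lit 0x30178000380800400bc00000040080004000600081b0602))) 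
(.lf (nat_lit 16416812) (dlOf (nat_lit 1) (nat_lit 0xc004000200088a0702)))) (.nd (nat_lit 29) 
(.lf (nat_lit 134905900) (dlOf (nat_lit 15) (nat_lit 0x62801d031480d411e002600033060114054012801f810400e8097406a004a03301d60098000c83000f8120006808800ae02d002301401148064010001400680000001787000c022001800a00a7c0320002e060298019000160101c601f00e080e400700680002806002603e000c01e800980e4004c0680026033001300800009c3010a0150078407c030c03d01db01c800b80e000d8068042e030013f008001f800c08500000002514041c054005401f810600f40834074044a03501e00198006004c000c006000181000420000000b0104eb02a022580f41134072016e038018401a003600cc0e08060065802b023c0080283800c145c00000013160026058001002a001380f8001c074000e035002201a00228048000241c016c0b0056805400ab01f010280f4049c07405b403900f001c011380d40aa80240154010000088a021502a010a00fc070807a03f603a013f01c811b80d40070068049a033004201800e9004c008802003e400301f9000000000680db00080d7800204ba00080d0a83))) 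
(.lf (nat_lit 2819260460) (dlOf (nat_lit 1) (nat_lit 0x2000400020008210702))))) (.nd (nat_lit 27) 
(.nd (nat_lit 9) (.nd (nat_lit 29) 
(.lf (nat_lit 4362764332) (dlOf (nat_lit 3) (nat_lit 0x3480560005402016c02b000198180f0d00))) 
(.lf (nat_lit 1678409772) (dlOf (nat_lit 3) (nat_lit 0xf90158000806403720130001903001002b0000c40803a8008000c00200a40008210603)))) 
(.lf (nat_lit 2753200684) (dlOf (nat_lit 2) (nat_lit 0x6507f402843ce000000400100018090e81)))) 
(.nd (nat_lit 29) 
(.lf (nat_lit 202014764) (dlOf (nat_lit 15) (nat_lit 0x1f024000d0110015c05a0046028022900d0020002800d0000000320e00180440030014014f8068000620c05300340002f020c5003a062901a823c004c000540c02280aa025003f020801d012e80d4009406603ac013000148601c601f00e080e400700680002806002603e000c01e800980e4004c0680026033001300800009c3010a0154078407c030c03d01db01c800b80e000d8068042e030013f008001f801008500000002514041c055005401f810600f40834074044a03501e00198006004c000c008000181000420000000b0104eb02a822580f41134072016e038018401a003600cc0e08060065802b023c00802838010145c00000013160026059001002a801380f8001c074000e035002201a00228048000241c016c0b2056805500ab01f010280f4049c07405b403900f001c011380d40aa80240154010000088a021502a810a00fc070807a03f603a013f01c811b80d40070068049a033004201800e9004c008802003e400401f9000000000680db00080d7800204ba00080d0a83)))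 
(.lf (nat_lit 3960111148) (dlOf (nat_lit 3) (nat_lit 0x30178000380800400bc00000040080004000600081b0602))))))) 
(.nd (nat_lit 20) (.nd (nat_lit 9) (.nd (nat_lit 27) (.nd (nat_lit 8) 
(.lf (nat_lit 3288760364) (dlOf (nat_lit 1) (nat_lit 0x24004003000080e0602))) 
(.lf (nat_lit 21397804) (dlOf (nat_lit 1) (nat_lit 0x58008002800200160008a34903)))) 
(.nd (nat_lit 29) 
(.lf (nat_lit 4429611052) (dlOf (nat_lit 3) (nat_lit 0x1b00a8003801401bf808001c02a0018005006fd8281c0a00))) 
(.lf (nat_lit 2818998316) (dlOf (nat_lit 1) (nat_lit 0xc00400020008150402))))) (.nd (nat_lit 22) 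
(.nd (nat_lit 26) 
(.lf (nat_lit 134644268) (dlOf (nat_lit 2) (nat_lit 0x16c01880000008007000800d000200540008090e83))) 
(.lf (nat_lit 201753132) (dlOf (nat_lit 2) (nat_lit 0x16c01880000008007000800d000200540008090e83)))) 
(.lf (nat_lit 21398060) (dlOf (nat_lit 1) (nat_lit 0x80008a38001))))) (.nd (nat_lit 7) 
(.nd (nat_lit 21) (.nd (nat_lit 22) 
(.lf (nat_lit 2752938028) (dlOf (nat_lit 1) (nat_lit 0x8008000400200020008060603))) 
(.lf (nat_lit 30834732) (dlOf (nat_lit 1) (nat_lit 0x400200020008e50b02)))) 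
(.lf (nat_lit 11960364) (dlOf (nat_lit 1) (nat_lit 0x1800286c0001)))) (.nd (nat_lit 8) 
(.nd (nat_lit 9) (.lf (nat_lit 56525996) (dlOf (nat_lit 1) (nat_lit 0x400200020009732c02))) 
(.lf (nat_lit 8295084) (dlOf (nat_lit 1) (nat_lit 0x400200020008518c82)))) 
(.lf (nat_lit 8291756) (dlOf (nat_lit 1) (nat_lit 0x400200020008513602))))))) (.nd (nat_lit 11) 
(.nd (nat_lit 7) (.nd (nat_lit 8) (.nd (nat_lit 9) (.nd (nat_lit 18) 
(.lf (nat_lit 9601132) (dlOf (nat_lit 1) (nat_lit 0x8008000400200020008570a83))) 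
(.lf (nat_lit 1678147692) (dlOf (nat_lit 1) (nat_lit 0xa00080054002002600081a0003)))) 
(.lf (nat_lit 19825260) (dlOf (nat_lit 1) (nat_lit 0xe0004003c00089d1802)))) (.nd (nat_lit 12) 
(.lf (nat_lit 25854316) (dlOf (nat_lit 1) (nat_lit 0x8008000400200020008c10a03))) 
(.lf (nat_lit 3892482412) (dlOf (nat_lit 2) (nat_lit 0x1804600a5a02000e0018158381))))) 
(.nd (nat_lit 8) (.nd (nat_lit 9) (.nd (nat_lit 18) 
(.lf (nat_lit 28475628) (dlOf (nat_lit 1) (nat_lit 0x100028da0601))) 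
(.lf (nat_lit 20873452) (dlOf (nat_lit 1) (nat_lit 0x800289e4481)))) 
(.lf (nat_lit 8029932) (dlOf (nat_lit 1) (nat_lit 0x120018513b01)))) (.nd (nat_lit 10) 
(.nd (nat_lit 20) (.lf (nat_lit 4362240492) (dlOf (nat_lit 2) (nat_lit 0x6800000520018017d00))) 
(.lf (nat_lit 9601516) (dlOf (nat_lit 1) (nat_lit 0x120028577d01)))) 
(.lf (nat_lit 43943404) (dlOf (nat_lit 1) (nat_lit 0x290002003400092a3602)))))) (.nd (nat_lit 26) 
(.nd (nat_lit 10) (.nd (nat_lit 7) 
(.lf (nat_lit 3758266476) (dlOf (nat_lit 1) (nat_lit 0x40020002000812a882))) (.nd (nat_lit 8) 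
(.lf (nat_lit 166636) (dlOf (nat_lit 1) (nat_lit 0x400400020008005a02))) 
(.lf (nat_lit 47614444) (dlOf (nat_lit 1) (nat_lit 0x400200040009404f02))))) (.nd (nat_lit 19) 
(.lf (nat_lit 167148) (dlOf (nat_lit 1) (nat_lit 0x220008006501))) 
(.lf (nat_lit 691436) (dlOf (nat_lit 1) (nat_lit 0x580008006501))))) (.nd (nat_lit 9) 
(.nd (nat_lit 8) (.lf (nat_lit 2751629548) (dlOf (nat_lit 1) (nat_lit 0x2e0008004b01))) 
(.lf (nat_lit 2751633900) (dlOf (nat_lit 1) (nat_lit 0x4002800b281)))) (.nd (nat_lit 7) 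
(.lf (nat_lit 5435984492) (dlOf (nat_lit 1) (nat_lit 0xc00200020008095382))) 
(.lf (nat_lit 738888428) (dlOf (nat_lit 1) (nat_lit 0x3000400020008125a02)))))))) (.nd (nat_lit 27) 
(.nd (nat_lit 18) (.nd (nat_lit 29) (.nd (nat_lit 6) (.nd (nat_lit 7) (.nd (nat_lit 8) 
(.lf (nat_lit 3491398188) (dlOf (nat_lit 2) (nat_lit 0x6507ac02843a4000000400100018090e81))) 
(.lf (nat_lit 1342341420) (dlOf (nat_lit 1) (nat_lit 0x20008014901)))) 
(.lf (nat_lit 2416083116) (dlOf (nat_lit 1) (nat_lit 0x400400020008044c02)))) (.nd (nat_lit 7) 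
(.nd (nat_lit 8) (.lf (nat_lit 1346535532) (dlOf (nat_lit 1) (nat_lit 0x120008fa0b01))) 
(.lf (nat_lit 3489827180) (dlOf (nat_lit 1) (nat_lit 0x400200020008004e82)))) 
(.lf (nat_lit 1342341612) (dlOf (nat_lit 2) (nat_lit 0x511b800108080008008001400200040008017303))))) 
(.nd (nat_lit 7) (.nd (nat_lit 12) (.nd (nat_lit 19) 
(.lf (nat_lit 4026695724) (dlOf (nat_lit 1) (nat_lit 0x10008000800200040008030b83))) 
(.lf (nat_lit 805994540) (dlOf (nat_lit 3) (nat_lit 0xf90158000806403720130001983001002b0000c80803a8008000c00200a40008210603)))) 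
(.lf (nat_lit 3020066860) (dlOf (nat_lit 1) (nat_lit 0x60018127c01)))) (.nd (nat_lit 6) 
(.lf (nat_lit 805472684) (dlOf (nat_lit 1) (nat_lit 0x1400400020018114e82))) 
(.lf (nat_lit 872580332) (dlOf (nat_lit 1) (nat_lit 0x44004000c0008092e82)))))) (.nd (nat_lit 19) 
(.nd (nat_lit 31) (.nd (nat_lit 30) 
(.lf (nat_lit 4563828780) (dlOf (nat_lit 2) (nat_lit 0x3180620000502001c00280f0d01))) 
(.lf (nat_lit 1342603308) (dlOf (nat_lit 1) (nat_lit 0x400400020008080602)))) (.nd (nat_lit 20) 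
(.lf (nat_lit 4026957868) (dlOf (nat_lit 1) (nat_lit 0x24004003000080e0602))) 
(.lf (nat_lit 3491135532) (dlOf (nat_lit 1) (nat_lit 0x8008000400200020008060603))))) 
(.nd (nat_lit 8) (.nd (nat_lit 6) 
(.lf (nat_lit 3490611756) (dlOf (nat_lit 5) (nat_lit 0x4215400940a9000090100418548000400400a82a80001f0201421520000e818018000))) 
(.lf (nat_lit 3492710124) (dlOf (nat_lit 1) (nat_lit 0x8a00180f3b01)))) (.nd (nat_lit 9) 
(.lf (nat_lit 3490611692) (dlOf (nat_lit 22) (nat_lit 0x1a02300001b8100671180000d80814688c000e845c0002e0404fa230000168101781180000b00813b08c0000520407c04600002702043a230000130101de1180000940800288d007f43cc00ce154002e0a9000184e8000461408d03cc000a15a00a10aa00288548000441000dc2a40002102001423401f90f3000c8734018c2a8001013a0029000000078300fc0798016839a00dc154003c0000000702012a879801802a80001b0400062310000a810085118000020080ec88c0000080402b0460000030200f6230000010100b811800000008037000806b400200200008017303))) 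
(.lf (nat_lit 3492710380) (dlOf (nat_lit 1) (nat_lit 0x4004000200080f4602))))))) (.nd (nat_lit 7) 
(.nd (nat_lit 18) (.nd (nat_lit 19) (.nd (nat_lit 8) (.nd (nat_lit 21) 
(.lf (nat_lit 2013429804) (dlOf (nat_lit 1) (nat_lit 0x20028080481))) 
(.lf (nat_lit 1008893996) (dlOf (nat_lit 1) (nat_lit 0x400200020008fc0282)))) 
(.lf (nat_lit 469926188) (dlOf (nat_lit 1) (nat_lit 0x20008014901)))) (.nd (nat_lit 21) 
(.nd (nat_lit 26) 
(.lf (nat_lit 5772050476) (dlOf (nat_lit 1) (nat_lit 0x60008015400200140008050c03))) 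
(.lf (nat_lit 6376030252) (dlOf (nat_lit 1) (nat_lit 0x60008015400200140008050c03)))) 
(.lf (nat_lit 472547372) (dlOf (nat_lit 1) (nat_lit 0x800289b0981))))) (.nd (nat_lit 19) 
(.nd (nat_lit 9) (.nd (nat_lit 26) 
(.lf (nat_lit 4698046508) (dlOf (nat_lit 2) (nat_lit 0x3180620000502001c00280f0d01))) 
(.lf (nat_lit 470188076) (dlOf (nat_lit 1) (nat_lit 0x400400020008080602)))) 
(.lf (nat_lit 6375769644) (dlOf (nat_lit 1) (nat_lit 0x38008000400200080008003783)))) 
(.nd (nat_lit 6) 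
(.lf (nat_lit 473858092) (dlOf (nat_lit 5) (nat_lit 0xc42d001a2145002906780130258001802e0000b0a000416800890a28000281001885a0031028a00400cf000100b8000242001785a0030c28a00400cf000600b800000200670008021c00201c20008fc0283))) 
(.lf (nat_lit 6376292460) (dlOf (nat_lit 1) (nat_lit 0x8e0008090181)))))) (.nd (nat_lit 26) 
(.nd (nat_lit 18) (.nd (nat_lit 6) 
(.lf (nat_lit 2550300844) (dlOf (nat_lit 1) (nat_lit 0x400400020008044c02))) 
(.lf (nat_lit 5773625836) (dlOf (nat_lit 1) (nat_lit 0x4004000200080e4f02)))) (.nd (nat_lit 10) 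
(.lf (nat_lit 3624305132) (dlOf (nat_lit 3) (nat_lit 0x700000005c0401980000002d02002a0028157301))) 
(.lf (nat_lit 1476822508) (dlOf (nat_lit 4) (nat_lit 0x14034000a0000008ec1000800f40010074000e0340008015000400800020018001000900070000008b84000700f40000004001000400040008203602))))) 
(.nd (nat_lit 30) (.nd (nat_lit 6) 
(.lf (nat_lit 474120620) (dlOf (nat_lit 1) (nat_lit 0xe400090e1001))) (.nd (nat_lit 10) 
(.lf (nat_lit 5301764588) (dlOf (nat_lit 2) (nat_lit 0x80b80000004001c00400040008091382))) 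
(.lf (nat_lit 3154288108) (dlOf (nat_lit 1) (nat_lit 0x40040004001815cd02))))) (.nd (nat_lit 6) 
(.lf (nat_lit 6378127788) (dlOf (nat_lit 1) (nat_lit 0x88008001000200080008116e83))) 
(.nd (nat_lit 8) 
(.lf (nat_lit 1543671020) (dlOf (nat_lit 2) (nat_lit 0x80b80004804001800400060018146502))) 
(.lf (nat_lit 4228022764) (dlOf (nat_lit 5) (nat_lit 0x5e03a00da01800178088006c0340006808013e0300003301002b027801201080360060005602a002b0110001082804a00c00007e04005c004000c0008017302)))))))))) 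
(.nd (nat_lit 28) (.nd (nat_lit 19) (.nd (nat_lit 18) (.nd (nat_lit 6) (.nd (nat_lit 26) 
(.nd (nat_lit 9) (.nd (nat_lit 8) (.nd (nat_lit 23) 
(.lf (nat_lit 134447148) (dlOf (nat_lit 2) (nat_lit 0xca02f00010018020580))) 
(.lf (nat_lit 25395244) (dlOf (nat_lit 3) (nat_lit 0x634cbf000198101c565f8000c8080120008005000200240008c00603)))) 
(.lf (nat_lit 11764012) (dlOf (nat_lit 1) (nat_lit 0x600286c0501)))) (.nd (nat_lit 7) 
(.lf (nat_lit 23298604) (dlOf (nat_lit 2) (nat_lit 0x800000003818b80e80))) 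
(.lf (nat_lit 20158124) (dlOf (nat_lit 1) (nat_lit 0x100080004002000200089da003))))) 
(.nd (nat_lit 27) (.nd (nat_lit 9) 
(.lf (nat_lit 4362305580) (dlOf (nat_lit 2) (nat_lit 0x181180007204000c00400040008020682))) 
(.lf (nat_lit 3288564268) (dlOf (nat_lit 7) (nat_lit 0x59010003d002c000400800580160001f020078020000100580003c1001300800000e040098040000030200f002000850058000001002680080010002000c0008090e83)))) 
(.nd (nat_lit 29) (.lf (nat_lit 201556012) (dlOf (nat_lit 2) (nat_lit 0xca02f00010018020580))) 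
(.lf (nat_lit 1812168748) (dlOf (nat_lit 2) (nat_lit 0xc4016002e00400020828160580)))))) 
(.nd (nat_lit 7) (.nd (nat_lit 10) (.nd (nat_lit 8) 
(.lf (nat_lit 6107138668) (dlOf (nat_lit 1) (nat_lit 0x400400020008095382))) 
(.lf (nat_lit 4899179372) (dlOf (nat_lit 1) (nat_lit 0x4004000200080d5c02)))) (.nd (nat_lit 12) 
(.lf (nat_lit 4832069228) (dlOf (nat_lit 1) (nat_lit 0x80080008002000200080d3903))) 
(.nd (nat_lit 26) 
(.lf (nat_lit 2684589676) (dlOf (nat_lit 2) (nat_lit 0x2140760000002000200280a9c81))) 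
(.lf (nat_lit 3422787180) (dlOf (nat_lit 3) (nat_lit 0x10a01d8005780807b80ec0000004000c004007200180a9c82)))))) 
(.nd (nat_lit 10) (.nd (nat_lit 11) 
(.lf (nat_lit 3825435116) (dlOf (nat_lit 24) (nat_lit 0x7e0058000dc0803a002c0006c0400e40000003102023e00b00c8004806380000005c0c047c016017e00900c00000000b41803f802c000580403d80160052000000148200ca00580009c0805b002c0004c0401c8016000250200720000000a81003900000005008038802c0002004001c0160000d02016e00b00390000000301005b802c00e40000000b04009a00b0000401003900580001c08043002c0000c04029c0160000402016400b002d00000000c1001a800000004040004016000000200220018157301))) 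
(.lf (nat_lit 39029228) (dlOf (nat_lit 1) (nat_lit 0x60019194f01)))) (.nd (nat_lit 20) 
(.lf (nat_lit 3422787052) (dlOf (nat_lit 7) (nat_lit 0xf4076000da02034003b0006c8100cc01d8003600804800ec001ae0400600760001b02030c03b000060180a9c00))) 
(.lf (nat_lit 20157932) (dlOf (nat_lit 1) (nat_lit 0x4004000200089d9c02))))))) (.nd (nat_lit 23) 
(.nd (nat_lit 20) (.nd (nat_lit 7) (.nd (nat_lit 22) 
(.lf (nat_lit 17268780) (dlOf (nat_lit 1) (nat_lit 0xc002000400088e0002))) 
(.lf (nat_lit 55017516) (dlOf (nat_lit 2) (nat_lit 0x7000000094080008008002000200060009690303)))) 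
(.lf (nat_lit 201818540) (dlOf (nat_lit 1) (nat_lit 0x8800400320008090782)))) (.nd (nat_lit 6) 
(.nd (nat_lit 21) (.lf (nat_lit 2753003564) (dlOf (nat_lit 2) (nat_lit 0x2c0e700014018070800))) 
(.lf (nat_lit 37191724) (dlOf (nat_lit 1) (nat_lit 0x4004000200190b0282)))) 
(.lf (nat_lit 35094764) (dlOf (nat_lit 1) (nat_lit 0x6800200040008fd1e82))))) (.nd (nat_lit 21) 
(.nd (nat_lit 22) (.lf (nat_lit 9928748) (dlOf (nat_lit 1) (nat_lit 0x5000400080008590c02))) 
(.lf (nat_lit 30900268) (dlOf (nat_lit 1) (nat_lit 0x400200020008e50b02)))) (.nd (nat_lit 9) 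
(.nd (nat_lit 20) 
(.lf (nat_lit 27754540) (dlOf (nat_lit 2) (nat_lit 0xb54800099920005904006c0028d20801))) 
(.lf (nat_lit 28803116) (dlOf (nat_lit 2) (nat_lit 0x23024017a604000800200060008da0002)))) 
(.lf (nat_lit 12026412) (dlOf (nat_lit 2) (nat_lit 0x2200000000f02004200086c0e81))))))) 
(.nd (nat_lit 21) (.nd (nat_lit 25) (.nd (nat_lit 6) (.nd (nat_lit 8) (.nd (nat_lit 18) 
(.lf (nat_lit 67862572) (dlOf (nat_lit 1) (nat_lit 0x80018320701))) 
(.lf (nat_lit 13598764) (dlOf (nat_lit 8) (nat_lit 0x97a3e0fdfc6207d7dea8000ac181bcf18808ff7aa0002a040005c6200014810005e31000060080af718800026040ccba3e00c3165017b8460000441800971880000004019800200920008730a82)))) 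
(.lf (nat_lit 2752479532) (dlOf (nat_lit 1) (nat_lit 0x20018014901)))) (.nd (nat_lit 7) 
(.lf (nat_lit 26181996) (dlOf (nat_lit 1) (nat_lit 0x100028c10a01))) 
(.lf (nat_lit 738951404) (dlOf (nat_lit 1) (nat_lit 0x240028166e81))))) (.nd (nat_lit 8) 
(.nd (nat_lit 18) (.nd (nat_lit 20) 
(.lf (nat_lit 42696748) (dlOf (nat_lit 1) (nat_lit 0x320029270981))) 
(.lf (nat_lit 60522540) (dlOf (nat_lit 1) (nat_lit 0x20019890c01)))) 
(.lf (nat_lit 59736108) (dlOf (nat_lit 2) (nat_lit 0x6e67e00000019820280)))) (.nd (nat_lit 6) 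
(.lf (nat_lit 46891308) (dlOf (nat_lit 1) (nat_lit 0x20029380b01))) 
(.lf (nat_lit 39553516) (dlOf (nat_lit 1) (nat_lit 0x20029194f01)))))) (.nd (nat_lit 11) 
(.nd (nat_lit 20) (.nd (nat_lit 7) (.nd (nat_lit 26) 
(.lf (nat_lit 2850860) (dlOf (nat_lit 3) (nat_lit 0x11000000012020390000000088181c0a80))) 
(.lf (nat_lit 2754314284) (dlOf (nat_lit 2) (nat_lit 0x3e03f8008e1e6000098280d0a80)))) 
(.lf (nat_lit 19891116) (dlOf (nat_lit 1) (nat_lit 0x400289d2681)))) (.nd (nat_lit 8) 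
(.nd (nat_lit 9) (.lf (nat_lit 37717164) (dlOf (nat_lit 1) (nat_lit 0x100080048002000400090d2c03))) 
(.lf (nat_lit 8098476) (dlOf (nat_lit 2) (nat_lit 0xcfa8003f40200200028518c81)))) 
(.lf (nat_lit 8095148) (dlOf (nat_lit 1) (nat_lit 0x400200020008513602))))) (.nd (nat_lit 6) 
(.nd (nat_lit 7) (.lf (nat_lit 46107180) (dlOf (nat_lit 1) (nat_lit 0x1a0029385181))) 
(.lf (nat_lit 48990636) (dlOf (nat_lit 1) (nat_lit 0x20019464e81)))) (.nd (nat_lit 7) 
(.lf (nat_lit 46107244) (dlOf (nat_lit 2) (nat_lit 0x85fb8000ec080028008001c00200120009385383))) 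
(.nd (nat_lit 8) (.lf (nat_lit 8101100) (dlOf (nat_lit 1) (nat_lit 0x1000800040020002000851c603))) 
(.lf (nat_lit 33262060) (dlOf (nat_lit 1) (nat_lit 0x40028f54f01))))))))) (.nd (nat_lit 30) 
(.nd (nat_lit 27) (.nd (nat_lit 6) (.nd (nat_lit 9) (.nd (nat_lit 7) 
(.lf (nat_lit 5167611948) (dlOf (nat_lit 1) (nat_lit 0x200280d0001))) 
(.lf (nat_lit 4563632300) (dlOf (nat_lit 1) (nat_lit 0x200280a2d01)))) (.nd (nat_lit 8) 
(.nd (nat_lit 29) (.lf (nat_lit 2416149036) (dlOf (nat_lit 2) (nat_lit 0x19402000000018090e80))) 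
(.lf (nat_lit 805536300) (dlOf (nat_lit 1) (nat_lit 0x220028128001)))) 
(.lf (nat_lit 4630743852) (dlOf (nat_lit 1) (nat_lit 0x220018095c01))))) (.nd (nat_lit 9) 
(.nd (nat_lit 7) (.lf (nat_lit 4563632492) (dlOf (nat_lit 1) (nat_lit 0x13c004000200180a7602))) 
(.lf (nat_lit 805536236) (dlOf (nat_lit 3) (nat_lit 0x1980000008404018c0000003f0200020018127301)))) 
(.nd (nat_lit 8) (.lf (nat_lit 5100505708) (dlOf (nat_lit 1) (nat_lit 0x4002000200080d5382))) 
(.lf (nat_lit 5100505964) (dlOf (nat_lit 1) (nat_lit 0x80080004002000200080d5c03)))))) 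
(.nd (nat_lit 6) (.nd (nat_lit 26) (.nd (nat_lit 8) (.nd (nat_lit 9) 
(.lf (nat_lit 939753516) (dlOf (nat_lit 2) (nat_lit 0xc4016002e00400020828160580))) 
(.lf (nat_lit 2550366764) (dlOf (nat_lit 2) (nat_lit 0x19402000000018090e80)))) 
(.lf (nat_lit 4697850156) (dlOf (nat_lit 1) (nat_lit 0x80080020002002200080a5a03)))) 
(.nd (nat_lit 18) 
(.lf (nat_lit 469991468) (dlOf (nat_lit 5) (nat_lit 0x5439a000550200081cd0002801000c0e68000dc0800d87340006404001000200300008020582))) 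
(.lf (nat_lit 473923628) (dlOf (nat_lit 6) (nat_lit 0x3802b0002415600de0678071025803881060000b0a01e415800f60678040025801b41060000a0801f415800f706780002410044856001bc19e000080401fe1580101067800e0258000000c0010004003a0018fc0282))))) 
(.nd (nat_lit 7) (.nd (nat_lit 8) 
(.lf (nat_lit 5234722412) (dlOf (nat_lit 1) (nat_lit 0x4004000200080d3902))) 
(.lf (nat_lit 473400684) (dlOf (nat_lit 1) (nat_lit 0x340018f53481)))) (.nd (nat_lit 10) 
(.lf (nat_lit 473923820) (dlOf (nat_lit 1) (nat_lit 0x20018fc1e81))) 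
(.lf (nat_lit 5234722028) (dlOf (nat_lit 1) (nat_lit 0x200180d2e81))))))) (.nd (nat_lit 8) 
(.nd (nat_lit 19) (.nd (nat_lit 29) (.nd (nat_lit 18) (.nd (nat_lit 26) 
(.lf (nat_lit 1342406700) (dlOf (nat_lit 5) (nat_lit 0x5439a000550200081cd0002801000c0e68000dc0800d87340006404001000200300008020582))) 
(.lf (nat_lit 5704482860) (dlOf (nat_lit 1) (nat_lit 0x40004000e00080c0482)))) (.nd (nat_lit 6) 
(.lf (nat_lit 3491201068) (dlOf (nat_lit 4) (nat_lit 0x1a4280000280200681380000601005d0a8000084e00000608000800400160018070902))) 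
(.lf (nat_lit 3490155756) (dlOf (nat_lit 1) (nat_lit 0x400400020008006502))))) (.nd (nat_lit 9) 
(.nd (nat_lit 26) (.lf (nat_lit 6308462636) (dlOf (nat_lit 1) (nat_lit 0x40004000e00080c0482))) 
(.lf (nat_lit 4228087852) (dlOf (nat_lit 2) (nat_lit 0x180fc0007404000c00400040008020682)))) 
(.lf (nat_lit 4026761772) (dlOf (nat_lit 7) (nat_lit 0x59010003d002c000400800580160001f020078020000100580003c1001300800000e040098040000040200f002000850058000001002680080010002000c0008090e83))))) 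
(.nd (nat_lit 9) (.nd (nat_lit 20) (.nd (nat_lit 21) 
(.lf (nat_lit 3557523500) (dlOf (nat_lit 14) (nat_lit 0x3037800580d0000be0800080e4000a0610002c82000602f000100fc000aa0800040bc000a0450002a02000202280014808000818400400bc000c042000e01f8001442000701780008084001c03f000258300030300001140800581740007e04000c0700003302000e05b000601a0000c810003016c002c07000060340001803000102d00001c0802d000800d000200040008240803))) 
(.lf (nat_lit 3492511788) (dlOf (nat_lit 2) (nat_lit 0x3e03d4008e1d1000098280d0a80)))) 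
(.lf (nat_lit 1343979564) (dlOf (nat_lit 1) (nat_lit 0x20018390b01)))) 
(.lf (nat_lit 3490677292) (dlOf (nat_lit 7) (nat_lit 0x855001f02a400024040002154000110100010aa00398548000400800042a80001f0200ae1520000e81007c0a90000700800d000800e800200a60008018003))))) 
(.nd (nat_lit 7) (.nd (nat_lit 18) (.nd (nat_lit 6) 
(.lf (nat_lit 3557003564) (dlOf (nat_lit 1) (nat_lit 0x140028128081))) 
(.lf (nat_lit 3489892716) (dlOf (nat_lit 1) (nat_lit 0x400200020008004e82)))) (.nd (nat_lit 19) 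
(.lf (nat_lit 3624370476) (dlOf (nat_lit 1) (nat_lit 0x40018187981))) 
(.lf (nat_lit 3490677036) (dlOf (nat_lit 1) (nat_lit 0x20018014901))))) (.nd (nat_lit 6) 
(.nd (nat_lit 10) 
(.lf (nat_lit 3491463596) (dlOf (nat_lit 3) (nat_lit 0x7878c00e8204000c3cc007090200300018090781))) 
(.lf (nat_lit 3489897900) (dlOf (nat_lit 2) (nat_lit 0x43f400037020002002800cc01)))) 
(.nd (nat_lit 18) (.lf (nat_lit 1543733740) (dlOf (nat_lit 1) (nat_lit 0x60008157301))) 
(.lf (nat_lit 3490677228) (dlOf (nat_lit 10) (nat_lit 0x1e239004611a020408c00b1845c04d822c02c810e015f80000005c1c0dec46003be22e02150000000b41816d879803d02a80184152000118302f10f30087055002a82a400022060188152000108103410f300ac055004f02a40001e06058a1e600e60aa00178548000380c0a843cc00b61540000d8200710f3000068081370008086800208220008017303))))))))))) 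
(.nd (nat_lit 16) (.nd (nat_lit 15) (.nd (nat_lit 18) (.nd (nat_lit 26) (.nd (nat_lit 19) 
(.nd (nat_lit 7) (.nd (nat_lit 24) (.nd (nat_lit 20) (.nd (nat_lit 30) 
(.lf (nat_lit 2952929324) (dlOf (nat_lit 1) (nat_lit 0x8008000400200020008030403))) 
(.lf (nat_lit 4026671148) (dlOf (nat_lit 1) (nat_lit 0x18002001a0008020582)))) (.nd (nat_lit 9) 
(.lf (nat_lit 47325228) (dlOf (nat_lit 3) (nat_lit 0x97a60006bbc000060200045de00002c0800180080034002000e00093d0c03))) 
(.lf (nat_lit 11674156) (dlOf (nat_lit 3) (nat_lit 0x3dbd600007810066e31802b6f580000e080050004000c00086c0e82))))) 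
(.nd (nat_lit 6) (.nd (nat_lit 10) (.nd (nat_lit 20) 
(.lf (nat_lit 25305132) (dlOf (nat_lit 8) (nat_lit 0x973880fdf91507d7c378000d0181bce45408ff0de0003304000591500019010005c8a800060080af645400026040ccb38800c3158017b7ff0000441800964540000004019800200920008bf0a82))) 
(.lf (nat_lit 17965100) (dlOf (nat_lit 1) (nat_lit 0x400200020008900b02)))) 
(.lf (nat_lit 51520556) (dlOf (nat_lit 1) (nat_lit 0x400200020009512882)))) 
(.lf (nat_lit 20068460) (dlOf (nat_lit 1) (nat_lit 0x80080028002000200089da883))))) 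
(.nd (nat_lit 10) (.nd (nat_lit 11) (.nd (nat_lit 8) 
(.lf (nat_lit 43131052) (dlOf (nat_lit 1) (nat_lit 0x2c00292a0601))) (.nd (nat_lit 27) 
(.lf (nat_lit 3758236076) (dlOf (nat_lit 1) (nat_lit 0x24002000e0008106e82))) 
(.lf (nat_lit 4697760172) (dlOf (nat_lit 6) (nat_lit 0x6034002f0178001807c002d80c004405e002c02d000f00f80001c1800100bc001005a000601f00003030001017800180b4002803e0000406000202f00070168004007c000020c005c004000e0018091002))))) 
(.nd (nat_lit 6) (.lf (nat_lit 1208101292) (dlOf (nat_lit 1) (nat_lit 0x400400020008094e82))) 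
(.lf (nat_lit 58862060) (dlOf (nat_lit 1) (nat_lit 0x1000197e4f01))))) (.nd (nat_lit 8) 
(.nd (nat_lit 20) (.lf (nat_lit 48374956) (dlOf (nat_lit 2) (nat_lit 0x3480c0002f819402c00))) 
(.lf (nat_lit 34743468) (dlOf (nat_lit 1) (nat_lit 0x20018fb2c01)))) (.nd (nat_lit 6) 
(.lf (nat_lit 5637285292) (dlOf (nat_lit 1) (nat_lit 0x4400280d3601))) 
(.lf (nat_lit 3355588076) (dlOf (nat_lit 1) (nat_lit 0x500080008002001e00080a9c03))))))) 
(.nd (nat_lit 6) (.nd (nat_lit 28) (.nd (nat_lit 21) (.nd (nat_lit 22) 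
(.lf (nat_lit 134881324) (dlOf (nat_lit 5) (nat_lit 0xe03e000128100a601c80004c080060048000240401580240001102000200180d0a81))) 
(.lf (nat_lit 21635116) (dlOf (nat_lit 1) (nat_lit 0x5000400080008a50c02)))) (.nd (nat_lit 9) 
(.nd (nat_lit 10) (.nd (nat_lit 20) 
(.lf (nat_lit 11149356) (dlOf (nat_lit 1) (nat_lit 0x80028660781))) 
(.lf (nat_lit 3809324) (dlOf (nat_lit 2) (nat_lit 0x184b8000ec040044004000a0008230b02)))) 
(.lf (nat_lit 36316204) (dlOf (nat_lit 1) (nat_lit 0x400200020009072882)))) 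
(.lf (nat_lit 23732780) (dlOf (nat_lit 2) (nat_lit 0x2200000000f0200420008b80e81))))) 
(.nd (nat_lit 9) (.nd (nat_lit 31) 
(.lf (nat_lit 1344938028) (dlOf (nat_lit 4) (nat_lit 0x1405a40002e0400e82d2004a168000048200340b4002d0514001019e002c01d000000489a0280))) 
(.lf (nat_lit 3492421676) (dlOf (nat_lit 3) (nat_lit 0x241028000bc08007800000026040004004000800180d0a82)))) 
(.lf (nat_lit 1345989164) (dlOf (nat_lit 2) (nat_lit 0x202ac00320d900040668001ec1800f8008004800200220008e25183))))) 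
(.nd (nat_lit 8) (.nd (nat_lit 7) 
(.lf (nat_lit 537534572) (dlOf (nat_lit 2) (nat_lit 0x80b20002702000200080a1481))) (.nd (nat_lit 9) 
(.lf (nat_lit 1344938220) (dlOf (nat_lit 1) (nat_lit 0x4004000200189a1e82))) 
(.lf (nat_lit 8005356) (dlOf (nat_lit 1) (nat_lit 0x160004003a0008513b02))))) (.nd (nat_lit 9) 
(.lf (nat_lit 33171948) (dlOf (nat_lit 1) (nat_lit 0x40028f54f01))) (.nd (nat_lit 21) 
(.lf (nat_lit 34218988) (dlOf (nat_lit 1) (nat_lit 0x1000400020008fb2882))) 
(.lf (nat_lit 36316140) (dlOf (nat_lit 1) (nat_lit 0x40019072881)))))))) (.nd (nat_lit 27) 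
(.nd (nat_lit 6) (.nd (nat_lit 31) (.nd (nat_lit 7) (.nd (nat_lit 19) 
(.lf (nat_lit 69345324) (dlOf (nat_lit 1) (nat_lit 0x400400020008940282))) 
(.lf (nat_lit 67772460) (dlOf (nat_lit 1) (nat_lit 0xc00182e0e01)))) (.nd (nat_lit 11) 
(.lf (nat_lit 872554924) (dlOf (nat_lit 1) (nat_lit 0x860008091001))) 
(.lf (nat_lit 335686060) (dlOf (nat_lit 1) (nat_lit 0x400400020008094e82))))) (.nd (nat_lit 9) 
(.nd (nat_lit 19) (.lf (nat_lit 3288473644) (dlOf (nat_lit 1) (nat_lit 0x18002001a0008020582))) 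
(.lf (nat_lit 2754224172) (dlOf (nat_lit 3) (nat_lit 0x2410d0000c808007800000026040004004000800180d0a82)))) 
(.lf (nat_lit 6509702700) (dlOf (nat_lit 1) (nat_lit 0x400200020008147182))))) (.nd (nat_lit 8) 
(.nd (nat_lit 9) (.nd (nat_lit 19) 
(.lf (nat_lit 4630650988) (dlOf (nat_lit 1) (nat_lit 0x288008000400200b60008040b03))) 
(.lf (nat_lit 1409949804) (dlOf (nat_lit 2) (nat_lit 0x80b20002702000200080a1481)))) 
(.lf (nat_lit 6241266284) (dlOf (nat_lit 1) (nat_lit 0x1c004000400080d5382)))) (.nd (nat_lit 7) 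
(.lf (nat_lit 6241266540) (dlOf (nat_lit 1) (nat_lit 0x4004005e00080d5c02))) 
(.lf (nat_lit 1946296812) (dlOf (nat_lit 6) (nat_lit 0x210148000b80801100a40005a04004c052000230200580290000f01003d014800000080028008000c00200020008017303)))))) 
(.nd (nat_lit 28) (.nd (nat_lit 8) (.nd (nat_lit 9) (.nd (nat_lit 11) 
(.lf (nat_lit 201990188) (dlOf (nat_lit 5) (nat_lit 0xe03e000128100a601c80004c080060048000240401580240001102000200180d0a81))) 
(.lf (nat_lit 3959568428) (dlOf (nat_lit 1) (nat_lit 0x12002811a601)))) 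
(.lf (nat_lit 4496434732) (dlOf (nat_lit 1) (nat_lit 0x3c0028053781)))) (.nd (nat_lit 6) 
(.lf (nat_lit 3959564588) (dlOf (nat_lit 1) (nat_lit 0x400400020008114b82))) 
(.lf (nat_lit 738339820) (dlOf (nat_lit 1) (nat_lit 0x400200020008095e82))))) (.nd (nat_lit 6) 
(.nd (nat_lit 7) (.nd (nat_lit 19) (.nd (nat_lit 20) 
(.lf (nat_lit 3691126828) (dlOf (nat_lit 1) (nat_lit 0x60008040881))) 
(.lf (nat_lit 470949932) (dlOf (nat_lit 1) (nat_lit 0xa0028210801)))) 
(.lf (nat_lit 472522796) (dlOf (nat_lit 1) (nat_lit 0x100080008002002600089b0983)))) 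
(.lf (nat_lit 474096812) (dlOf (nat_lit 1) (nat_lit 0x2c00400100009082c02)))) (.nd (nat_lit 8) 
(.lf (nat_lit 4764868716) (dlOf (nat_lit 1) (nat_lit 0x288008000400200b60008040b03))) 
(.lf (nat_lit 1543646572) (dlOf (nat_lit 2) (nat_lit 0x180140005a04000800200020008146b02)))))))) 
(.nd (nat_lit 7) (.nd (nat_lit 31) (.nd (nat_lit 22) (.nd (nat_lit 28) (.nd (nat_lit 26) 
(.nd (nat_lit 9) (.nd (nat_lit 19) 
(.lf (nat_lit 9838636) (dlOf (nat_lit 2) (nat_lit 0xe3280000000800f0008023800201140008580303))) 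
(.lf (nat_lit 4071468) (dlOf (nat_lit 3) (nat_lit 0x3e0000000480815380000002204003c00200020008270a82)))) 
(.lf (nat_lit 134619692) (dlOf (nat_lit 2) (nat_lit 0x2d00c40000004003000200220008090e82)))) 
(.nd (nat_lit 6) (.nd (nat_lit 9) 
(.lf (nat_lit 4899348524) (dlOf (nat_lit 2) (nat_lit 0x30170001d4080018008004800200140008140483))) 
(.lf (nat_lit 201728556) (dlOf (nat_lit 2) (nat_lit 0x2d00c40000004003000200220008090e82)))) 
(.lf (nat_lit 4362477676) (dlOf (nat_lit 1) (nat_lit 0x28008004c002000c0008090003))))) 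
(.nd (nat_lit 29) (.nd (nat_lit 19) (.nd (nat_lit 20) 
(.lf (nat_lit 5637546028) (dlOf (nat_lit 1) (nat_lit 0x1800800d800200700008100303))) 
(.lf (nat_lit 1343627308) (dlOf (nat_lit 1) (nat_lit 0x70002002c00082c0802)))) 
(.lf (nat_lit 1343103020) (dlOf (nat_lit 1) (nat_lit 0x980080064002002e0008150003)))) 
(.nd (nat_lit 26) 
(.lf (nat_lit 5234892844) (dlOf (nat_lit 2) (nat_lit 0x28032000750200020008140481))) 
(.lf (nat_lit 6241525804) (dlOf (nat_lit 1) (nat_lit 0x1800800d800200700008100303)))))) 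
(.nd (nat_lit 6) (.nd (nat_lit 10) (.nd (nat_lit 19) 
(.lf (nat_lit 12984364) (dlOf (nat_lit 1) (nat_lit 0x600086f0b01))) 
(.lf (nat_lit 15605804) (dlOf (nat_lit 1) (nat_lit 0x1800200060008810802)))) 
(.lf (nat_lit 8266796) (dlOf (nat_lit 1) (nat_lit 0x800400020018512882)))) (.nd (nat_lit 8) 
(.lf (nat_lit 29761644) (dlOf (nat_lit 1) (nat_lit 0x80028e30481))) (.nd (nat_lit 11) 
(.lf (nat_lit 8270188) (dlOf (nat_lit 1) (nat_lit 0x400200020008518382))) 
(.lf (nat_lit 57026924) (dlOf (nat_lit 1) (nat_lit 0xc00200020009794e82))))))) (.nd (nat_lit 26) 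
(.nd (nat_lit 27) (.nd (nat_lit 9) (.nd (nat_lit 20) 
(.lf (nat_lit 4026933292) (dlOf (nat_lit 3) (nat_lit 0xfc023000090104cf0118038003000022080390004001200080d0a82))) 
(.lf (nat_lit 3491110956) (dlOf (nat_lit 3) (nat_lit 0x307f400143d0000c15f000609c0003242000287f400143d0000c15f000609c000320200088008000800200020008060603)))) 
(.lf (nat_lit 3490587180) (dlOf (nat_lit 1) (nat_lit 0x20008001000200060008018003)))) 
(.nd (nat_lit 19) (.nd (nat_lit 29) 
(.lf (nat_lit 3355844652) (dlOf (nat_lit 2) (nat_lit 0x1580c800000040014004001e0008120782))) 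
(.lf (nat_lit 3892715564) (dlOf (nat_lit 28) (nat_lit 0x15680c80156062052403003c1816817f00b20d0805500fe02a01d88148143c09a0d1403403c401781dc00b800b00580a44028007301302a5805006a000c0f50003028f00100318000000be5010d80c8080c060055502d01ef01640e640aa01e805200ee026820400d0020805e004602e0021016020a00a011480280aae0030002e8e056b02d000b8154007009a064e02f056500180016428093000c000b00415740b40012055000c026814180bc1580006000570a006805a0002a8104560320090018812cc0c00f6405a086502c8298816011bc0ac01280550a4b02a0005014c23900a0126204f009c02683ef012c19cc094075804701ab023008d810804d8080043c038039a01a843b80c81d0406201be030063701780e180b8183005809a202b004401404c4008c2508044102c01c050f00d813b005c1f9002a0b7c01402a8003869100101b9400606de002002300082268000000a4a8005c0b4000510201e202c001e00200013c1014501900a700c601f406102510300091817c11d00b406a805902b102c0021015415840a809b605302780280135013c06a009c001004d0236025813a81280384092004204806ef02383590118141008806fe043013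e02102728104161808001b6039065d01c003380d414c8064050c031024c01801d680bc0a8c05a04ba02c0579015801e80a40038050021c027000c01300ad80940d200460466022008101081908070017c036025401a028b00a818b00500fb8026086c00b044500383b7801011040060054002032c00080e2800000096e401880b400a4004000250201750160001180803380b00008a040290058000430200e202c000210106c20160001000836100b00007e0407040580003d02037202c0001e0101930160000e80815f80b00007204004405800038020b3002c0001b01057202d001a8164003409a071802f05750018000cc282a1016802580b2001404d038101782ac800c000601401500b4000080201ec05403980160000001039700080cb0002099a00081d0683)))) 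
(.lf (nat_lit 2819498028) (dlOf (nat_lit 1) (nat_lit 0x800182b0981))))) (.nd (nat_lit 8) 
(.nd (nat_lit 28) (.nd (nat_lit 20) 
(.lf (nat_lit 3288735788) (dlOf (nat_lit 3) (nat_lit 0xfc023000090104cf0118038003000022080390004001200080d0a82))) 
(.lf (nat_lit 2752913452) (dlOf (nat_lit 3) (nat_lit 0x3084800143f4000c155000609c00035c20002884800143f4000c155000609c000358200088008000800200020008060603)))) 
(.nd (nat_lit 19) 
(.lf (nat_lit 3154518060) (dlOf (nat_lit 3) (nat_lit 0x305014017f809e003203205fd01181b48088009c0380074015008300a00060010000a42404400a0019a04f0083023804e0118024c08800c2043002b01c002100c800b406001cc02300880110069007000096300010004001e00181f0682))) 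
(.lf (nat_lit 3557695532) (dlOf (nat_lit 1) (nat_lit 0x800182b0981))))) (.nd (nat_lit 9) 
(.lf (nat_lit 2755535148) (dlOf (nat_lit 1) (nat_lit 0x100080178002006000081b0503))) 
(.nd (nat_lit 10) (.lf (nat_lit 2754493228) (dlOf (nat_lit 1) (nat_lit 0x8004000200080fbc82))) 
(.lf (nat_lit 2886084396) (dlOf (nat_lit 1) (nat_lit 0x20028143d81)))))))) (.nd (nat_lit 19) 
(.nd (nat_lit 26) (.nd (nat_lit 6) (.nd (nat_lit 8) (.nd (nat_lit 27) 
(.lf (nat_lit 1611014316) (dlOf (nat_lit 1) (nat_lit 0x80080004002000200080c1503))) 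
(.lf (nat_lit 134619308) (dlOf (nat_lit 1) (nat_lit 0xb800400280008090282)))) 
(.lf (nat_lit 23470508) (dlOf (nat_lit 1) (nat_lit 0x5800400220008b80782)))) (.nd (nat_lit 22) 
(.lf (nat_lit 134619628) (dlOf (nat_lit 2) (nat_lit 0xc004100002018090d00))) 
(.lf (nat_lit 21373420) (dlOf (nat_lit 2) (nat_lit 0xbae2100017018a37300))))) (.nd (nat_lit 11) 
(.nd (nat_lit 6) (.lf (nat_lit 201728172) (dlOf (nat_lit 1) (nat_lit 0xb800400280008090282))) 
(.nd (nat_lit 8) (.lf (nat_lit 1008083180) (dlOf (nat_lit 1) (nat_lit 0xe00189c1e81))) 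
(.lf (nat_lit 201728492) (dlOf (nat_lit 2) (nat_lit 0xc004100002018090d00))))) (.nd (nat_lit 9) 
(.lf (nat_lit 2755013868) (dlOf (nat_lit 5) (nat_lit 0xa22b0007115000188a4000c42a0003608001821d0001a810002115800288a80028452000c21d000710a8000d02800108ac00184540004229000210e8004085400056140008004002600180f6502))) 
(.lf (nat_lit 335948524) (dlOf (nat_lit 1) (nat_lit 0xa00180e5a01)))))) (.nd (nat_lit 6) 
(.nd (nat_lit 8) (.nd (nat_lit 9) 
(.lf (nat_lit 53354668) (dlOf (nat_lit 1) (nat_lit 0x200080004002000400095a1503))) 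
(.lf (nat_lit 8270508) (dlOf (nat_lit 1) (nat_lit 0x8008000400200020008518c83)))) (.nd (nat_lit 10) 
(.lf (nat_lit 3023276) (dlOf (nat_lit 1) (nat_lit 0x40018200781))) 
(.lf (nat_lit 8267180) (dlOf (nat_lit 1) (nat_lit 0x400200020008513602))))) (.nd (nat_lit 8) 
(.nd (nat_lit 9) (.nd (nat_lit 20) 
(.lf (nat_lit 537796844) (dlOf (nat_lit 1) (nat_lit 0x800281b0481))) 
(.lf (nat_lit 18751724) (dlOf (nat_lit 1) (nat_lit 0x100028970601)))) 
(.lf (nat_lit 1345202924) (dlOf (nat_lit 2) (nat_lit 0x182f000054040030004000a0008b05a02)))) 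
(.nd (nat_lit 10) 
(.lf (nat_lit 3490587116) (dlOf (nat_lit 4) (nat_lit 0x720870001701005706000005c0800583000002a04004c002000c0008017302))) 
(.lf (nat_lit 43918828) (dlOf (nat_lit 1) (nat_lit 0x80080018002000200092a3603))))))))) 
(.nd (nat_lit 28) (.nd (nat_lit 8) (.nd (nat_lit 18) (.nd (nat_lit 19) (.nd (nat_lit 10) 
(.nd (nat_lit 9) (.nd (nat_lit 20) (.nd (nat_lit 22) 
(.lf (nat_lit 44212268) (dlOf (nat_lit 1) (nat_lit 0x4004000200092e0302))) 
(.lf (nat_lit 56795180) (dlOf (nat_lit 1) (nat_lit 0x400400020009760982)))) (.nd (nat_lit 6) 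
(.lf (nat_lit 17997868) (dlOf (nat_lit 1) (nat_lit 0x400200020008900b02))) 
(.lf (nat_lit 24289388) (dlOf (nat_lit 1) (nat_lit 0x40008b91481))))) (.nd (nat_lit 20) 
(.nd (nat_lit 26) 
(.lf (nat_lit 134390316) (dlOf (nat_lit 1) (nat_lit 0x48008001c002001e0008018003))) 
(.lf (nat_lit 1812111916) (dlOf (nat_lit 1) (nat_lit 0xc0018158001)))) 
(.lf (nat_lit 11706924) (dlOf (nat_lit 2) (nat_lit 0x2000000038186c0e80))))) (.nd (nat_lit 6) 
(.nd (nat_lit 21) (.nd (nat_lit 9) 
(.lf (nat_lit 51553324) (dlOf (nat_lit 1) (nat_lit 0x400200020009512882))) 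
(.lf (nat_lit 6509735468) (dlOf (nat_lit 1) (nat_lit 0x400200020008147182)))) (.nd (nat_lit 7) 
(.lf (nat_lit 40018988) (dlOf (nat_lit 1) (nat_lit 0x20008003c002000a00091f2883))) 
(.lf (nat_lit 31630508) (dlOf (nat_lit 1) (nat_lit 0xbe0008e92c01))))) (.nd (nat_lit 7) 
(.lf (nat_lit 3355620972) (dlOf (nat_lit 1) (nat_lit 0x4004000200080a9c82))) 
(.lf (nat_lit 175340) (dlOf (nat_lit 1) (nat_lit 0x1520008006501)))))) (.nd (nat_lit 26) 
(.nd (nat_lit 23) (.nd (nat_lit 22) 
(.lf (nat_lit 17473580) (dlOf (nat_lit 1) (nat_lit 0x400288e0001))) 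
(.lf (nat_lit 21667884) (dlOf (nat_lit 1) (nat_lit 0x400200240008a60d02)))) (.nd (nat_lit 20) 
(.lf (nat_lit 42639404) (dlOf (nat_lit 1) (nat_lit 0x180029260281))) 
(.lf (nat_lit 26910764) (dlOf (nat_lit 1) (nat_lit 0xc0028c90901))))) (.nd (nat_lit 31) 
(.nd (nat_lit 29) 
(.lf (nat_lit 4362772524) (dlOf (nat_lit 10) (nat_lit 0xb780ac000ae0405c40560005402001602b0002981009d0158000e0080ba00ac0006e0400d40560003602030e02b000198100320158000c80802d00ac000620400a8004001000180f0d02))) 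
(.lf (nat_lit 1678417964) (dlOf (nat_lit 2) (nat_lit 0x68005602a40098000c81002900080068002006c0008210603)))) 
(.nd (nat_lit 9) (.lf (nat_lit 2754256940) (dlOf (nat_lit 2) (nat_lit 0x44245000190180d0a80))) 
(.lf (nat_lit 2753208876) (dlOf (nat_lit 2) (nat_lit 0xf00fe800000080028008008c00200040008090e83))))))) 
(.nd (nat_lit 21) (.nd (nat_lit 27) (.nd (nat_lit 9) (.nd (nat_lit 22) (.nd (nat_lit 25) 
(.lf (nat_lit 1074176044) (dlOf (nat_lit 3) (nat_lit 0xb809c0006404001c04e0002c02000200280d0a81))) 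
(.lf (nat_lit 33988652) (dlOf (nat_lit 2) (nat_lit 0x2619200005818f90280)))) 
(.lf (nat_lit 13017132) (dlOf (nat_lit 1) (nat_lit 0xa00086f0b01)))) 
(.lf (nat_lit 537305644) (dlOf (nat_lit 2) (nat_lit 0x3b02e8000000800600080018002000c0008090e83)))) 
(.nd (nat_lit 9) (.nd (nat_lit 26) (.nd (nat_lit 30) 
(.lf (nat_lit 2819006508) (dlOf (nat_lit 4) (nat_lit 0xc03f0001381002e01f8000740800880fc0003004007000201000008150402))) 
(.lf (nat_lit 3892748332) (dlOf (nat_lit 1) (nat_lit 0x20028220801)))) 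
(.lf (nat_lit 4496728108) (dlOf (nat_lit 2) (nat_lit 0x20064000960200060008160481)))) 
(.nd (nat_lit 26) 
(.lf (nat_lit 134652460) (dlOf (nat_lit 2) (nat_lit 0x1be03100ba008800000100008008002000200140008090e83))) 
(.lf (nat_lit 201761324) (dlOf (nat_lit 2) (nat_lit 0x1be03100ba008800000100008008002000200140008090e83)))))) 
(.nd (nat_lit 6) (.nd (nat_lit 9) (.nd (nat_lit 19) 
(.lf (nat_lit 19308588) (dlOf (nat_lit 1) (nat_lit 0x20018980e01))) 
(.lf (nat_lit 4104236) (dlOf (nat_lit 1) (nat_lit 0x20018280601)))) 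
(.lf (nat_lit 41331244) (dlOf (nat_lit 1) (nat_lit 0x20019245181)))) (.nd (nat_lit 10) 
(.lf (nat_lit 53387372) (dlOf (nat_lit 1) (nat_lit 0x18004003200095b0b02))) 
(.lf (nat_lit 19838060) (dlOf (nat_lit 1) (nat_lit 0x80080004002000200089d9403))))))) 
(.nd (nat_lit 7) (.nd (nat_lit 6) (.nd (nat_lit 9) (.nd (nat_lit 27) 
(.lf (nat_lit 4295139628) (dlOf (nat_lit 1) (nat_lit 0x1000400020018090502))) 
(.lf (nat_lit 4429357356) (dlOf (nat_lit 1) (nat_lit 0x1000400020018090502)))) 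
(.lf (nat_lit 2752161580) (dlOf (nat_lit 1) (nat_lit 0xf8008003800200320008003d83)))) 
(.nd (nat_lit 11) (.nd (nat_lit 10) (.nd (nat_lit 12) 
(.lf (nat_lit 25862508) (dlOf (nat_lit 1) (nat_lit 0x220018c10a01))) 
(.lf (nat_lit 3892490604) (dlOf (nat_lit 1) (nat_lit 0x400200020008158382)))) 
(.lf (nat_lit 40019308) (dlOf (nat_lit 1) (nat_lit 0xf000191f3481)))) (.nd (nat_lit 9) 
(.nd (nat_lit 10) (.lf (nat_lit 49981804) (dlOf (nat_lit 1) (nat_lit 0x8002000400094c4e82))) 
(.lf (nat_lit 3221400940) (dlOf (nat_lit 1) (nat_lit 0x800400040018116b02)))) 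
(.lf (nat_lit 1141025644) (dlOf (nat_lit 1) (nat_lit 0x800800a0002005a0008095c03)))))) 
(.nd (nat_lit 6) (.nd (nat_lit 10) (.nd (nat_lit 26) 
(.lf (nat_lit 1208134060) (dlOf (nat_lit 1) (nat_lit 0x1c00400080008094e82))) 
(.lf (nat_lit 6509734316) (dlOf (nat_lit 1) (nat_lit 0x400400020008144e82)))) (.nd (nat_lit 9) 
(.nd (nat_lit 12) (.lf (nat_lit 8299948) (dlOf (nat_lit 1) (nat_lit 0x400200020008513602))) 
(.lf (nat_lit 3758273964) (dlOf (nat_lit 1) (nat_lit 0x8008000400200020008129903)))) 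
(.lf (nat_lit 3959596972) (dlOf (nat_lit 1) (nat_lit 0x20018114301))))) (.nd (nat_lit 20) 
(.nd (nat_lit 31) 
(.lf (nat_lit 134390252) (dlOf (nat_lit 3) (nat_lit 0x3a80000003c04000c0000001c0200160008017301))) 
(.lf (nat_lit 6576841196) (dlOf (nat_lit 1) (nat_lit 0x40028157301)))) (.nd (nat_lit 9) 
(.lf (nat_lit 8041964) (dlOf (nat_lit 1) (nat_lit 0x1000400080018519c02))) 
(.lf (nat_lit 41329644) (dlOf (nat_lit 1) (nat_lit 0x180019242881)))))))) (.nd (nat_lit 27) 
(.nd (nat_lit 7) (.nd (nat_lit 19) (.nd (nat_lit 18) (.nd (nat_lit 30) (.nd (nat_lit 6) 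
(.lf (nat_lit 4630683692) (dlOf (nat_lit 1) (nat_lit 0x20028060d01))) 
(.lf (nat_lit 5100445804) (dlOf (nat_lit 1) (nat_lit 0x20008080a81)))) (.nd (nat_lit 9) 
(.lf (nat_lit 1346543660) (dlOf (nat_lit 5) (nat_lit 0x845c00042250006106800286880001c10000844a000c20d00050d10000341800108b8000c44a000e20d00060d10000302000188b8001444a000e20d00060d100002c200008008000800200040008fb0c03))) 
(.lf (nat_lit 1342349868) (dlOf (nat_lit 1) (nat_lit 0x10000200100008018002))))) (.nd (nat_lit 9) 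
(.nd (nat_lit 26) 
(.lf (nat_lit 4563836972) (dlOf (nat_lit 4) (nat_lit 0x160160000180802380c40000a04000c0380000102000400280f0d01))) 
(.lf (nat_lit 1946591276) (dlOf (nat_lit 3) (nat_lit 0xb809c0005e04001c04e0002902000200280d0a81)))) 
(.lf (nat_lit 1409720876) (dlOf (nat_lit 2) (nat_lit 0x3b02e8000000800600080018002000c0008090e83))))) 
(.nd (nat_lit 20) (.nd (nat_lit 21) 
(.lf (nat_lit 806002732) (dlOf (nat_lit 2) (nat_lit 0x68005602a40098000cc1002900080068002006c0008210603))) 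
(.lf (nat_lit 3492454444) (dlOf (nat_lit 2) (nat_lit 0x4422d000178180d0a80)))) (.nd (nat_lit 9) 
(.lf (nat_lit 1343922220) (dlOf (nat_lit 1) (nat_lit 0x60028380e01))) 
(.lf (nat_lit 3491406380) (dlOf (nat_lit 2) (nat_lit 0xf00f5800000080028008008c00200040008090e83)))))) 
(.nd (nat_lit 6) (.nd (nat_lit 8) 
(.lf (nat_lit 1880269996) (dlOf (nat_lit 1) (nat_lit 0x7400200140008802c02))) (.nd (nat_lit 11) 
(.lf (nat_lit 5637318060) (dlOf (nat_lit 1) (nat_lit 0x3400280d3601))) 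
(.lf (nat_lit 3489836460) (dlOf (nat_lit 1) (nat_lit 0xa0028006d01))))) (.nd (nat_lit 18) 
(.lf (nat_lit 1342349804) (dlOf (nat_lit 7) (nat_lit 0x30714000d004001439e0004702000c1cf0002301000a0e880010734001c38a0004206001a1c50001f8100060e78003872c0007a08008c00400160008017302))) 
(.lf (nat_lit 3490619884) (dlOf (nat_lit 2) (nat_lit 0x80c00000a818017300)))))) (.nd (nat_lit 29) 
(.nd (nat_lit 8) (.nd (nat_lit 19) (.nd (nat_lit 18) 
(.lf (nat_lit 4764901420) (dlOf (nat_lit 1) (nat_lit 0x20028060d01))) 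
(.lf (nat_lit 4698054700) (dlOf (nat_lit 4) (nat_lit 0x160160000180802380c40000a04000c0380000102000400280f0d01)))) 
(.nd (nat_lit 9) 
(.lf (nat_lit 472555564) (dlOf (nat_lit 2) (nat_lit 0x2c2b00000002000200089c0281))) 
(.lf (nat_lit 473604652) (dlOf (nat_lit 1) (nat_lit 0x2400200060008f68a02))))) (.nd (nat_lit 7) 
(.nd (nat_lit 6) (.lf (nat_lit 5772322092) (dlOf (nat_lit 1) (nat_lit 0x20008093181))) 
(.lf (nat_lit 5772321132) (dlOf (nat_lit 1) (nat_lit 0x800800dc00200400008090f83)))) 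
(.nd (nat_lit 11) 
(.lf (nat_lit 3624313324) (dlOf (nat_lit 3) (nat_lit 0x8406e0002e02004e03700016818157300))) 
(.lf (nat_lit 473344492) (dlOf (nat_lit 1) (nat_lit 0x6800400680008ef4f02)))))) (.nd (nat_lit 6) 
(.nd (nat_lit 19) (.nd (nat_lit 9) 
(.lf (nat_lit 1008902188) (dlOf (nat_lit 2) (nat_lit 0x1481c4000000200020018fc0281))) 
(.lf (nat_lit 4228031020) (dlOf (nat_lit 1) (nat_lit 0x1d0008024000200680008018003)))) 
(.nd (nat_lit 20) (.lf (nat_lit 3154812972) (dlOf (nat_lit 2) (nat_lit 0xa0190000a818330b00))) 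
(.lf (nat_lit 1008377900) (dlOf (nat_lit 1) (nat_lit 0x580028b80981))))) (.nd (nat_lit 31) 
(.nd (nat_lit 7) (.lf (nat_lit 5234663532) (dlOf (nat_lit 1) (nat_lit 0x2ec004007c0008080b02))) 
(.lf (nat_lit 5301772780) (dlOf (nat_lit 1) (nat_lit 0xe0008091381)))) (.nd (nat_lit 10) 
(.lf (nat_lit 4228030956) (dlOf (nat_lit 11) (nat_lit 0x4f813c00b409a023604200e0015007a8088000d014025809e009404d013301500019c18042013c002c09a01ca04200bd01500658088000cc14004409e0006302004e04f000308100a502780080134046008401be02a00f60110001082803e813c0464054000410400f804f00dd021005980a803240440003f08003604f0001f01002c02780008c082cd0008000800200560008017303))) 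
(.lf (nat_lit 3154296300) (dlOf (nat_lit 2) (nat_lit 0x38168008ce040004004000a000815cd02)))))))))) 
(.nd (nat_lit 15) (.nd (nat_lit 28) (.nd (nat_lit 6) (.nd (nat_lit 19) (.nd (nat_lit 8) 
(.nd (nat_lit 20) (.nd (nat_lit 26) (.nd (nat_lit 7) (.nd (nat_lit 18) 
(.lf (nat_lit 52633644) (dlOf (nat_lit 2) (nat_lit 0xdb3a400000040014004001c0009560982))) 
(.lf (nat_lit 6442917932) (dlOf (nat_lit 2) (nat_lit 0x2a401d0000800800180080018002000a0008220a83)))) 
(.lf (nat_lit 8600236) (dlOf (nat_lit 1) (nat_lit 0x3a001851b781)))) (.nd (nat_lit 18) 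
(.nd (nat_lit 27) 
(.lf (nat_lit 604184620) (dlOf (nat_lit 9) (nat_lit 0x289022802500fc000d60805c808a00068020038045008401f8000a81004d00fc005c06c0038000000120300fe01f806580d8000c060014400000011040036022808400fc021806c004e000000108400b900000007c080558114000000400b400400380008080682))) 
(.lf (nat_lit 5570240556) (dlOf (nat_lit 1) (nat_lit 0xb0008011000200140008090303)))) 
(.lf (nat_lit 4362543148) (dlOf (nat_lit 1) (nat_lit 0xc004000e0018090002))))) (.nd (nat_lit 7) 
(.nd (nat_lit 9) (.lf (nat_lit 30875692) (dlOf (nat_lit 1) (nat_lit 0x400200020008e50b02))) 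
(.lf (nat_lit 11739692) (dlOf (nat_lit 1) (nat_lit 0x1c002000200086c0e82)))) (.nd (nat_lit 9) 
(.lf (nat_lit 34809004) (dlOf (nat_lit 1) (nat_lit 0x3400200220008fb2c02))) 
(.lf (nat_lit 20133548) (dlOf (nat_lit 1) (nat_lit 0x4002000200089da002)))))) (.nd (nat_lit 7) 
(.nd (nat_lit 10) (.nd (nat_lit 9) 
(.lf (nat_lit 3825410348) (dlOf (nat_lit 1) (nat_lit 0x160018154901))) 
(.lf (nat_lit 2214798124) (dlOf (nat_lit 2) (nat_lit 0x80980001c040004002000200080a2202)))) 
(.nd (nat_lit 18) (.lf (nat_lit 537077548) (dlOf (nat_lit 1) (nat_lit 0x20028003d81))) 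
(.lf (nat_lit 2751932204) (dlOf (nat_lit 1) (nat_lit 0x400200020008003d82))))) (.nd (nat_lit 18) 
(.nd (nat_lit 20) (.lf (nat_lit 2753765804) (dlOf (nat_lit 1) (nat_lit 0x3800200040008090782))) 
(.lf (nat_lit 1253804) (dlOf (nat_lit 1) (nat_lit 0x14000800a0002002c00080a6e83)))) 
(.lf (nat_lit 134685100) (dlOf (nat_lit 2) (nat_lit 0xdc03b003a0818090780)))))) (.nd (nat_lit 20) 
(.nd (nat_lit 22) (.nd (nat_lit 10) (.nd (nat_lit 26) 
(.lf (nat_lit 537600044) (dlOf (nat_lit 5) (nat_lit 0xfc05b010102c0000c81001c016c022c0b000da0230001883000e02d8013016000280ac0002f06002a058000138180d0a80))) 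
(.lf (nat_lit 4362805292) (dlOf (nat_lit 4) (nat_lit 0x10ac066000320204de0330001881004c0198000c00801e8008002400200120008100603)))) 
(.lf (nat_lit 36381740) (dlOf (nat_lit 1) (nat_lit 0x8002006e0009072882)))) (.nd (nat_lit 18) 
(.nd (nat_lit 8) (.lf (nat_lit 30089260) (dlOf (nat_lit 1) (nat_lit 0x8008003400200060008e30003))) 
(.lf (nat_lit 46866732) (dlOf (nat_lit 3) (nat_lit 0x41f78000180800200000000004005c00400060019380b02)))) 
(.nd (nat_lit 21) (.lf (nat_lit 5185580) (dlOf (nat_lit 2) (nat_lit 0x2923fe00025818320680))) 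
(.lf (nat_lit 15671340) (dlOf (nat_lit 1) (nat_lit 0x400400020008810802)))))) (.nd (nat_lit 21) 
(.nd (nat_lit 7) (.nd (nat_lit 9) 
(.lf (nat_lit 52371500) (dlOf (nat_lit 2) (nat_lit 0xc400000000019530280))) 
(.lf (nat_lit 2753241644) (dlOf (nat_lit 2) (nat_lit 0x19400800000018090e80)))) 
(.lf (nat_lit 2753503660) (dlOf (nat_lit 1) (nat_lit 0x20028090781)))) (.nd (nat_lit 8) 
(.nd (nat_lit 24) (.lf (nat_lit 45817900) (dlOf (nat_lit 1) (nat_lit 0x140019360281))) 
(.lf (nat_lit 29040684) (dlOf (nat_lit 1) (nat_lit 0x20018db0e01)))) 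
(.lf (nat_lit 12263724) (dlOf (nat_lit 1) (nat_lit 0x800286c0501))))))) (.nd (nat_lit 7) 
(.nd (nat_lit 21) (.nd (nat_lit 10) (.nd (nat_lit 8) (.nd (nat_lit 18) 
(.lf (nat_lit 42672236) (dlOf (nat_lit 1) (nat_lit 0x160019271e81))) 
(.lf (nat_lit 6234220) (dlOf (nat_lit 1) (nat_lit 0x60018420481)))) (.nd (nat_lit 9) 
(.lf (nat_lit 67314028) (dlOf (nat_lit 1) (nat_lit 0x7800080b0a01))) 
(.lf (nat_lit 8594284) (dlOf (nat_lit 1) (nat_lit 0x20028512581))))) (.nd (nat_lit 9) 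
(.nd (nat_lit 11) (.lf (nat_lit 8598636) (dlOf (nat_lit 1) (nat_lit 0x78008006000200380008519403))) 
(.lf (nat_lit 2818784364) (dlOf (nat_lit 1) (nat_lit 0x200020006000812c082)))) (.nd (nat_lit 12) 
(.lf (nat_lit 43460204) (dlOf (nat_lit 1) (nat_lit 0x4004000200092a3902))) 
(.lf (nat_lit 3355653740) (dlOf (nat_lit 3) (nat_lit 0x6000000204080008000000fe04003c002000a00080a9c82)))))) 
(.nd (nat_lit 19) (.nd (nat_lit 18) (.nd (nat_lit 23) 
(.lf (nat_lit 52633708) (dlOf (nat_lit 1) (nat_lit 0x20029561e81))) 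
(.lf (nat_lit 44245100) (dlOf (nat_lit 1) (nat_lit 0x200192e0b01)))) 
(.lf (nat_lit 28778604) (dlOf (nat_lit 1) (nat_lit 0x400200020008da0482)))) (.nd (nat_lit 8) 
(.nd (nat_lit 9) (.lf (nat_lit 8074348) (dlOf (nat_lit 1) (nat_lit 0x400200020008519402))) 
(.lf (nat_lit 54209132) (dlOf (nat_lit 1) (nat_lit 0x2e0009655381)))) 
(.lf (nat_lit 19868524) (dlOf (nat_lit 1) (nat_lit 0x80080004002000200089d5c03)))))) 
(.nd (nat_lit 8) (.nd (nat_lit 10) (.nd (nat_lit 11) (.nd (nat_lit 19) 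
(.lf (nat_lit 34021612) (dlOf (nat_lit 1) (nat_lit 0x6800200040008f91e82))) 
(.lf (nat_lit 19865836) (dlOf (nat_lit 1) (nat_lit 0x18004016600089d0a82)))) (.nd (nat_lit 9) 
(.lf (nat_lit 2885888236) (dlOf (nat_lit 1) (nat_lit 0x40008144b01))) 
(.lf (nat_lit 20658924) (dlOf (nat_lit 1) (nat_lit 0x80080008002000200089db983))))) 
(.nd (nat_lit 26) (.lf (nat_lit 208108) (dlOf (nat_lit 2) (nat_lit 0x2a0000001b018006500))) 
(.lf (nat_lit 6509767916) (dlOf (nat_lit 1) (nat_lit 0x20028146501))))) (.nd (nat_lit 9) 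
(.nd (nat_lit 10) (.nd (nat_lit 11) 
(.lf (nat_lit 3825410540) (dlOf (nat_lit 21) (nat_lit 0x520058000dc08024002c0006c040114000000310201e200b00e3004807880000005c0c03b001601bc00900eb0000000b418028002c000580404640160096000000148200a800580009c08052002c0004c040144016000250200e800b001d00000005410028002c0002004024c016005400000006020093005802280000001608004c0160000802000200b0000381005200580001808053802c000080401d0016003a00000001820012005800000080200008002400200020008157303))) 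
(.lf (nat_lit 53946860) (dlOf (nat_lit 1) (nat_lit 0x98004003a00195f4f02)))) 
(.lf (nat_lit 3422762476) (dlOf (nat_lit 3) (nat_lit 0x50190029f80800700c8014da0401bc004005000180a9c02)))) 
(.nd (nat_lit 10) 
(.lf (nat_lit 2751669228) (dlOf (nat_lit 2) (nat_lit 0x103f0014470200020018002881))) 
(.lf (nat_lit 1677928428) (dlOf (nat_lit 1) (nat_lit 0x340008114601)))))))) (.nd (nat_lit 27) 
(.nd (nat_lit 18) (.nd (nat_lit 31) (.nd (nat_lit 19) (.nd (nat_lit 7) (.nd (nat_lit 8) 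
(.lf (nat_lit 6174220332) (dlOf (nat_lit 1) (nat_lit 0xb0008011000200140008090303))) 
(.lf (nat_lit 1879253292) (dlOf (nat_lit 1) (nat_lit 0x80080004002000200080c0503)))) 
(.lf (nat_lit 1344480428) (dlOf (nat_lit 1) (nat_lit 0x400200020008802c02)))) (.nd (nat_lit 21) 
(.lf (nat_lit 1410015276) (dlOf (nat_lit 5) (nat_lit 0xfc05b010102c0000bc1001c016c022c0b000da0230001703000e02d8013016000280ac0002c06002a058000138180d0a80))) 
(.lf (nat_lit 1345003564) (dlOf (nat_lit 1) (nat_lit 0x4002000200089b0982))))) (.nd (nat_lit 6) 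
(.nd (nat_lit 7) (.nd (nat_lit 8) 
(.lf (nat_lit 3491439148) (dlOf (nat_lit 2) (nat_lit 0x19400800000018090e80))) 
(.lf (nat_lit 3489869100) (dlOf (nat_lit 1) (nat_lit 0x400400060008006802)))) 
(.lf (nat_lit 3556980652) (dlOf (nat_lit 1) (nat_lit 0x1800800080020002000812a383)))) 
(.nd (nat_lit 7) (.lf (nat_lit 3489868140) (dlOf (nat_lit 1) (nat_lit 0x1800400040008004e82))) 
(.lf (nat_lit 3556980972) (dlOf (nat_lit 1) (nat_lit 0xc0020004000812a902)))))) (.nd (nat_lit 19) 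
(.nd (nat_lit 10) (.nd (nat_lit 9) (.nd (nat_lit 20) 
(.lf (nat_lit 4563869740) (dlOf (nat_lit 2) (nat_lit 0x1014800258080010008000400200020008110483))) 
(.lf (nat_lit 3491176492) (dlOf (nat_lit 1) (nat_lit 0xe0028070901)))) 
(.lf (nat_lit 1345790508) (dlOf (nat_lit 2) (nat_lit 0x400000000004009000200260008de8a02)))) 
(.nd (nat_lit 6) 
(.lf (nat_lit 1344742444) (dlOf (nat_lit 1) (nat_lit 0x10008001400200040008982883))) 
(.lf (nat_lit 4027002092) (dlOf (nat_lit 2) (nat_lit 0x3c0600002b02001400180f6501))))) 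
(.nd (nat_lit 8) (.nd (nat_lit 29) 
(.lf (nat_lit 1343168556) (dlOf (nat_lit 1) (nat_lit 0x400400020008190402))) 
(.lf (nat_lit 1880039468) (dlOf (nat_lit 1) (nat_lit 0x240018540401)))) (.nd (nat_lit 6) 
(.lf (nat_lit 3492751148) (dlOf (nat_lit 1) (nat_lit 0x200280f3d81))) 
(.lf (nat_lit 3490652652) (dlOf (nat_lit 2) (nat_lit 0x3c24b00690f3002d07340003c0c000400400060008017302))))))) 
(.nd (nat_lit 18) (.nd (nat_lit 10) (.nd (nat_lit 8) (.nd (nat_lit 7) (.nd (nat_lit 19) 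
(.lf (nat_lit 1476599852) (dlOf (nat_lit 1) (nat_lit 0x14004000200080a0682))) 
(.lf (nat_lit 4228587564) (dlOf (nat_lit 4) (nat_lit 0x10ac064000330204de0320001901004c0190000c40801e8008002400200120008100603)))) 
(.lf (nat_lit 474161324) (dlOf (nat_lit 1) (nat_lit 0x200290e0601)))) (.nd (nat_lit 26) 
(.lf (nat_lit 3087212844) (dlOf (nat_lit 1) (nat_lit 0x160018154901))) 
(.lf (nat_lit 1006838060) (dlOf (nat_lit 1) (nat_lit 0x80080004002000200080c0503))))) 
(.nd (nat_lit 6) (.nd (nat_lit 26) 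
(.lf (nat_lit 2013472300) (dlOf (nat_lit 1) (nat_lit 0x8008000400200020008093783))) 
(.lf (nat_lit 4764935724) (dlOf (nat_lit 1) (nat_lit 0x400400020008093782)))) (.nd (nat_lit 7) 
(.lf (nat_lit 4160960108) (dlOf (nat_lit 1) (nat_lit 0x1c000080a9c81))) (.nd (nat_lit 8) 
(.lf (nat_lit 1543711980) (dlOf (nat_lit 3) (nat_lit 0x100170000900800a009400040040004004000c0008146502))) 
(.lf (nat_lit 2617456108) (dlOf (nat_lit 1) (nat_lit 0x200180a9c01))))))) (.nd (nat_lit 21) 
(.nd (nat_lit 7) (.nd (nat_lit 26) 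
(.lf (nat_lit 4698087468) (dlOf (nat_lit 2) (nat_lit 0x1014800258080010008000400200020008110483))) 
(.lf (nat_lit 5838938156) (dlOf (nat_lit 2) (nat_lit 0x2a401d0000800800180080018002000a0008220a83)))) 
(.lf (nat_lit 4228325804) (dlOf (nat_lit 1) (nat_lit 0x80018090781)))) (.nd (nat_lit 9) 
(.nd (nat_lit 7) 
(.lf (nat_lit 473899052) (dlOf (nat_lit 6) (nat_lit 0x24c1020125868408942d0043614500230a18113833c09301640468073022800b80050054000162807f840804061a101de0b400e98514075019e03d20b201da03980f0005c00014200124408038c16801c20a280e0033c070802e000090a013e145008806780f781cc0000e0c078040803d81a100850b480e285a005002ce036414501b1067809a0318060817801b80b701da03980e1805c0000030059c00404180008fc0282))) 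
(.lf (nat_lit 472328620) (dlOf (nat_lit 1) (nat_lit 0x20028984e81)))) (.nd (nat_lit 11) 
(.lf (nat_lit 472850988) (dlOf (nat_lit 2) (nat_lit 0xb42ca000390200080028b18a01))) 
(.lf (nat_lit 472328748) (dlOf (nat_lit 1) (nat_lit 0x1200080030002000c0008985183))))))))) 
(.nd (nat_lit 19) (.nd (nat_lit 28) (.nd (nat_lit 18) (.nd (nat_lit 6) (.nd (nat_lit 7) 
(.nd (nat_lit 9) (.nd (nat_lit 22) 
(.lf (nat_lit 4496531500) (dlOf (nat_lit 2) (nat_lit 0x200340009602000600080d0481))) 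
(.lf (nat_lit 63152172) (dlOf (nat_lit 1) (nat_lit 0x4004000200099e0282)))) 
(.lf (nat_lit 3288572460) (dlOf (nat_lit 9) (nat_lit 0x17808000180160003d040032020000140102450100125802c000400805e4040026800b0000f8203030100168802c0001e08011c0800266020004600580001c1812e008002f00160000304060202003090058000001007d0008048800205c20008090e83)))) 
(.nd (nat_lit 8) (.lf (nat_lit 20166316) (dlOf (nat_lit 1) (nat_lit 0x100080004002000200089da003))) 
(.lf (nat_lit 20166060) (dlOf (nat_lit 1) (nat_lit 0x4004000200089d9902))))) (.nd (nat_lit 10) 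
(.nd (nat_lit 8) 
(.lf (nat_lit 44277868) (dlOf (nat_lit 2) (nat_lit 0x53190002985c00026080028002001600092e0b02))) 
(.nd (nat_lit 9) (.lf (nat_lit 2751707500) (dlOf (nat_lit 1) (nat_lit 0x400040050000800ac82))) 
(.lf (nat_lit 5570276204) (dlOf (nat_lit 1) (nat_lit 0x80080004002000200080d5c03))))) 
(.nd (nat_lit 7) (.lf (nat_lit 3422795372) (dlOf (nat_lit 1) (nat_lit 0x200180a9c81))) 
(.nd (nat_lit 23) 
(.lf (nat_lit 3422795244) (dlOf (nat_lit 1) (nat_lit 0x8008000c002000400080a9c03))) 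
(.lf (nat_lit 8631788) (dlOf (nat_lit 1) (nat_lit 0x20028519c01))))))) (.nd (nat_lit 21) 
(.nd (nat_lit 7) (.nd (nat_lit 20) (.nd (nat_lit 22) 
(.lf (nat_lit 17276972) (dlOf (nat_lit 1) (nat_lit 0x3e00288e0001))) 
(.lf (nat_lit 55025708) (dlOf (nat_lit 1) (nat_lit 0x800400020019690302)))) 
(.lf (nat_lit 35102764) (dlOf (nat_lit 1) (nat_lit 0x8008000400200020008fd0283)))) (.nd (nat_lit 8) 
(.lf (nat_lit 3892813996) (dlOf (nat_lit 1) (nat_lit 0x400400020008280482))) 
(.lf (nat_lit 1745330604) (dlOf (nat_lit 1) (nat_lit 0x60004000a0018116e82))))) (.nd (nat_lit 24) 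
(.nd (nat_lit 25) 
(.lf (nat_lit 15179820) (dlOf (nat_lit 3) (nat_lit 0x13bd970006ecb401834fc001c9c200090c5c007c420000200000029070013b31808459700272cb600334fc026ca5880012c280fe00080218002008800087c0683))) 
(.lf (nat_lit 48734252) (dlOf (nat_lit 3) (nat_lit 0xfea8e000220200515460000b819420280)))) 
(.nd (nat_lit 22) (.lf (nat_lit 19374124) (dlOf (nat_lit 1) (nat_lit 0x2a000400bc0008990b02))) 
(.lf (nat_lit 31957036) (dlOf (nat_lit 1) (nat_lit 0x400400020008eb0282))))))) (.nd (nat_lit 7) 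
(.nd (nat_lit 9) (.nd (nat_lit 10) (.nd (nat_lit 20) (.nd (nat_lit 26) 
(.lf (nat_lit 1342414892) (dlOf (nat_lit 4) (nat_lit 0x2c891c000a604016448e000370200b224700019018020580))) 
(.lf (nat_lit 469999660) (dlOf (nat_lit 4) (nat_lit 0x2c891c000a604016448e000370200b224700019018020580)))) 
(.nd (nat_lit 18) (.lf (nat_lit 1880334380) (dlOf (nat_lit 1) (nat_lit 0x3c0028860001))) 
(.lf (nat_lit 3491209260) (dlOf (nat_lit 2) (nat_lit 0x1016e000280200020018070901))))) 
(.nd (nat_lit 8) 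
(.lf (nat_lit 1344775212) (dlOf (nat_lit 1) (nat_lit 0x90008001400200080008982883))) 
(.lf (nat_lit 3489901868) (dlOf (nat_lit 1) (nat_lit 0x20018006801))))) (.nd (nat_lit 29) 
(.nd (nat_lit 6) (.nd (nat_lit 27) 
(.lf (nat_lit 2416157228) (dlOf (nat_lit 2) (nat_lit 0x16002000000018090e80))) 
(.lf (nat_lit 2550374956) (dlOf (nat_lit 2) (nat_lit 0x16002000000018090e80)))) 
(.lf (nat_lit 5704492652) (dlOf (nat_lit 1) (nat_lit 0x4004000200080d3902)))) (.nd (nat_lit 6) 
(.nd (nat_lit 10) 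
(.lf (nat_lit 4026769964) (dlOf (nat_lit 9) (nat_lit 0x17808000180160003d040032020000140102450100125802c000400805e4040026800b0000f8203030100168802c0001e08011c0800266020004600580001c1812e008002f00160000404060202003090058000001007d0008048800205c20008090e83))) 
(.lf (nat_lit 5167621676) (dlOf (nat_lit 1) (nat_lit 0x4004000a00080d3782)))) 
(.lf (nat_lit 6308473708) (dlOf (nat_lit 1) (nat_lit 0x4004000200080d5c02)))))) (.nd (nat_lit 30) 
(.nd (nat_lit 6) (.nd (nat_lit 27) 
(.lf (nat_lit 2483265964) (dlOf (nat_lit 30) (nat_lit 0x33803c0340804001401e01a0002005a00f0055006805f341003400a80008030008801000100070022e820030804001172040130020008b8020034010004570100430080022300801b0040011140400a0020000200e004448200670080007003c011000803b0020002c00e0043f8200fa00800160038010fc0803840200087d02019401000a30078021c41001f804000b801c0086004000a0100041e81000d0080005803c003c01c0080c0600b0010004d00700202c100210040004401c0080a0400c2010004f00700202410008004000ffa040318020000a00e003f482013e0110002003c04e40000074106010a00f0109006801d001004f803400e6e040024020003f202001200f001eb8100500148037004002fc01e004e00e0069006800000281b30008097000205280008090783)))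 
(.lf (nat_lit 1006870956) (dlOf (nat_lit 1) (nat_lit 0x900080004002001c00080c0783)))) 
(.nd (nat_lit 8) (.lf (nat_lit 872654060) (dlOf (nat_lit 1) (nat_lit 0x400200020008092e82))) 
(.nd (nat_lit 18) 
(.lf (nat_lit 805544428) (dlOf (nat_lit 7) (nat_lit 0x60084001a022006c0070006803000cc000000680a007a00e000b00000019c10022803800cc0000006604002a042000c011002d003800f40000004208006800e00020810040007000600000007e08002c00200260008127302))) 
(.lf (nat_lit 470262252) (dlOf (nat_lit 1) (nat_lit 0x280080020002000c00080c0d03)))))) 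
(.nd (nat_lit 8) (.nd (nat_lit 6) 
(.lf (nat_lit 1345561772) (dlOf (nat_lit 2) (nat_lit 0x1011a0002f818d12c00))) 
(.lf (nat_lit 3490163948) (dlOf (nat_lit 1) (nat_lit 0x400400020008006502)))) (.nd (nat_lit 9) 
(.nd (nat_lit 11) 
(.lf (nat_lit 1342677484) (dlOf (nat_lit 1) (nat_lit 0x280080020002000c00080c0d03))) 
(.lf (nat_lit 1346873836) (dlOf (nat_lit 2) (nat_lit 0x1411a0009d0200020019044f01)))) 
(.lf (nat_lit 1346610156) (dlOf (nat_lit 1) (nat_lit 0x400400020008fe2882)))))))) (.nd (nat_lit 18) 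
(.nd (nat_lit 6) (.nd (nat_lit 21) (.nd (nat_lit 20) (.nd (nat_lit 23) 
(.lf (nat_lit 3557531692) (dlOf (nat_lit 1) (nat_lit 0x28008001c002000a0008240803))) 
(.lf (nat_lit 59482156) (dlOf (nat_lit 2) (nat_lit 0x5933f001f19f00020cce000c595004726a000088280278008000c00200220009800283)))) 
(.nd (nat_lit 24) (.lf (nat_lit 1343987756) (dlOf (nat_lit 1) (nat_lit 0x20018390b01))) 
(.lf (nat_lit 18587692) (dlOf (nat_lit 1) (nat_lit 0x400200020008950802))))) (.nd (nat_lit 28) 
(.nd (nat_lit 7) (.lf (nat_lit 50045996) (dlOf (nat_lit 1) (nat_lit 0xe00294c2881))) 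
(.lf (nat_lit 19639212) (dlOf (nat_lit 1) (nat_lit 0xea00289d5d01)))) (.nd (nat_lit 26) 
(.lf (nat_lit 1345036332) (dlOf (nat_lit 1) (nat_lit 0x1400080078002003e00089d0983))) 
(.lf (nat_lit 472621100) (dlOf (nat_lit 2) (nat_lit 0x604e000038080008008001c002000200089d0983)))))) 
(.nd (nat_lit 9) (.nd (nat_lit 7) (.nd (nat_lit 8) 
(.lf (nat_lit 4096499820) (dlOf (nat_lit 1) (nat_lit 0x400200020008120b02))) (.nd (nat_lit 10) 
(.lf (nat_lit 8108396) (dlOf (nat_lit 1) (nat_lit 0x40040002000851ac82))) 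
(.lf (nat_lit 50046316) (dlOf (nat_lit 1) (nat_lit 0x200094c3481))))) (.nd (nat_lit 8) 
(.lf (nat_lit 6004972) (dlOf (nat_lit 1) (nat_lit 0x160018420601))) 
(.lf (nat_lit 8108524) (dlOf (nat_lit 1) (nat_lit 0x21e001851b281))))) (.nd (nat_lit 7) 
(.nd (nat_lit 11) (.nd (nat_lit 20) 
(.lf (nat_lit 67871596) (dlOf (nat_lit 1) (nat_lit 0x8008000400200020008332583))) 
(.lf (nat_lit 8102764) (dlOf (nat_lit 1) (nat_lit 0x400400020008512582)))) 
(.lf (nat_lit 19639148) (dlOf (nat_lit 1) (nat_lit 0xf400289d5c01)))) (.nd (nat_lit 8) 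
(.lf (nat_lit 20691692) (dlOf (nat_lit 1) (nat_lit 0x4002000200089db982))) 
(.lf (nat_lit 50045932) (dlOf (nat_lit 2) (nat_lit 0x182a30000000800180080064002001000094c2883))))))) 
(.nd (nat_lit 7) (.nd (nat_lit 6) (.nd (nat_lit 23) (.nd (nat_lit 20) (.nd (nat_lit 24) 
(.lf (nat_lit 68132908) (dlOf (nat_lit 1) (nat_lit 0x400400020008400402))) 
(.lf (nat_lit 17801260) (dlOf (nat_lit 1) (nat_lit 0x200188f0e01)))) 
(.lf (nat_lit 473931820) (dlOf (nat_lit 7) (nat_lit 0x610560003028a01700cf003800b80002c2000c0560007819e0000a040132158001d0a28053833c000120c00fc2b00000802002e158000038100920ac0056833c000000803d400400020008fc0282)))) 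
(.nd (nat_lit 22) (.lf (nat_lit 59744300) (dlOf (nat_lit 1) (nat_lit 0x400400020009820282))) 
(.lf (nat_lit 13606956) (dlOf (nat_lit 28) (nat_lit 0x85f120369f87c188bc3a013de100036f04805bf6f41a27b7003b5db6004ce7c0062f11403af618008d72100fbb7d800f56d80102abe00d30a801a28530005c0d002edfc00040f9b00ad7bc00aabd780a61eb200eef170044783002e000000064681a47c3e0c67e1d0043f04800ef6f418bfb700515db60079e2280095c840186df6001d5e900a3ae8805bd6fc0512b6c02b355f0088a9b0219c298043e06800b502d021f7f00085bf00009def001f6f5e01c67ac8000c4b8046f87c01a3b7000030040a37e1f0065f0e827b76e00005e0c11d3c3e07dbdb800017020154f0f809576e00005a08115fc3e06b7e1d03f2edc000d7114004ee420002c0a0095c6e0f8be3107e3ef5409100000002b080083c6e0c8ae3100ff7178310f7aa01c400000015050588e3102d0ef5400052080025f1c00e0f23000100200e1e3180846f580003a0800fb7ac0001c020037c6300f7deb00006c1027f718811f77aa0001a0405a9c62023adea80006410217f18806cb7ba07efbd500049fe80ca80000003014086b8c4025dbd50000b82034de3100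91ef540002c080c0b8c400015020e87c6203fadea80b50000000260c004fc3e0309e0700ecf028002f4840277a3e00d1c6e002ce318035f188016f8bc003fbdd001fdeb00186f5400577a007fb70b04a0b84802b5680048e8ea003545a0063a21003bcfd001ba11800b6f6f01e4788815f000000024601db3c3e12bde070003f028010f6e00c1ba3e044fc6e006ce3181dcf18812738bc021dc5000b7deb01ce6f54102b7a0037fad60a86b85850d5c24007ab6c011b5a001599fa0498cab41d5a1180004fdf00787e382e9bdbc1cac00000011320641c6200f3dea80003c10065718800177ac000090401d9c63000018102bae3182f2f188057b7ba054dbd604ffdea80b980000000018045c002013e0008730a82))))) 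
(.nd (nat_lit 10) (.nd (nat_lit 8) 
(.lf (nat_lit 8368748) (dlOf (nat_lit 2) (nat_lit 0x74a000518018518980))) 
(.lf (nat_lit 471834988) (dlOf (nat_lit 1) (nat_lit 0x1720028520a01)))) (.nd (nat_lit 12) 
(.lf (nat_lit 42968684) (dlOf (nat_lit 1) (nat_lit 0x200192a3901))) 
(.lf (nat_lit 19904108) (dlOf (nat_lit 1) (nat_lit 0x80080004002000200089d9c83)))))) 
(.nd (nat_lit 10) (.nd (nat_lit 21) (.nd (nat_lit 6) (.nd (nat_lit 23) 
(.lf (nat_lit 2752487852) (dlOf (nat_lit 1) (nat_lit 0x20028017181))) 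
(.lf (nat_lit 42967468) (dlOf (nat_lit 1) (nat_lit 0x7600292a1001)))) 
(.lf (nat_lit 3490685420) (dlOf (nat_lit 3) (nat_lit 0x4003000002e0400b0180000150200020028017301)))) 
(.nd (nat_lit 9) (.lf (nat_lit 58698156) (dlOf (nat_lit 1) (nat_lit 0x200197e4e81))) 
(.lf (nat_lit 19899308) (dlOf (nat_lit 1) (nat_lit 0x600289d2681))))) (.nd (nat_lit 6) 
(.nd (nat_lit 20) (.lf (nat_lit 36676780) (dlOf (nat_lit 1) (nat_lit 0x3000200240009072c02))) 
(.lf (nat_lit 37725356) (dlOf (nat_lit 2) (nat_lit 0x1b3a4000be04000c004003600090d2c02)))) 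
(.lf (nat_lit 61842924) (dlOf (nat_lit 1) (nat_lit 0x3400400040009923602)))))))))))

end

end Pool.Agent.Lib.MP_5854e1_co.Cz
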