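import Pool.Agent.Lib.MP_5854e1_co.DecRow

/-!
# Sparse corrections
-/

set_option autoImplicit false
set_option maxRecDepth 100000

namespace Pool.Agent.Lib.MP_5854e1_co.Cz

noncomputable section

noncomputable def tz229 : DT := (.nd (nat_lit 16) (.nd (nat_lit 18) (.nd (nat_lit 15) 
(.nd (nat_lit 29) (.nd (nat_lit 5) (.nd (nat_lit 19) (.nd (nat_lit 27) (.nd (nat_lit 21) 
(.nd (nat_lit 23) (.nd (nat_lit 6) (.nd (nat_lit 7) 
(.lf (nat_lit 335675675) (dlOf (nat_lit 1) (nat_lit 0x20018090a81))) 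
(.lf (nat_lit 2483159195) (dlOf (nat_lit 1) (nat_lit 0x400400020018044282)))) 
(.lf (nat_lit 1140981851) (dlOf (nat_lit 2) (nat_lit 0x1a0028000180800e000800a400200120008040683)))) 
(.nd (nat_lit 6) (.nd (nat_lit 20) 
(.lf (nat_lit 25296923) (dlOf (nat_lit 1) (nat_lit 0x198008000400200120008bf0883))) 
(.lf (nat_lit 43122715) (dlOf (nat_lit 1) (nat_lit 0x380080048002000c00092a0003)))) 
(.lf (nat_lit 8525403) (dlOf (nat_lit 1) (nat_lit 0x28008000c00200060008519c03))))) 
(.nd (nat_lit 7) (.nd (nat_lit 20) (.nd (nat_lit 6) 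
(.lf (nat_lit 52559899) (dlOf (nat_lit 2) (nat_lit 0x530400002204003000400240009550102))) 
(.lf (nat_lit 52559963) (dlOf (nat_lit 4) (nat_lit 0x426090025b04400b97f6009abfa00535948027a9ec00dd4d20000b0e007ac1200295fd8022aca4000120c00e9824007cbfb0048594800000180258008005800200460009550883)))) 
(.nd (nat_lit 9) (.lf (nat_lit 15859739) (dlOf (nat_lit 1) (nat_lit 0x5800400120018840602))) 
(.lf (nat_lit 3277339) (dlOf (nat_lit 1) (nat_lit 0x4004019a0008200d82))))) (.nd (nat_lit 6) 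
(.nd (nat_lit 9) (.lf (nat_lit 32638107) (dlOf (nat_lit 1) (nat_lit 0x10008000800200020008ef2b83))) 
(.lf (nat_lit 1345456795) (dlOf (nat_lit 1) (nat_lit 0x20028c35581)))) 
(.lf (nat_lit 2228443) (dlOf (nat_lit 1) (nat_lit 0x20028150481)))))) (.nd (nat_lit 10) 
(.nd (nat_lit 6) (.nd (nat_lit 9) (.nd (nat_lit 20) 
(.lf (nat_lit 6643908635) (dlOf (nat_lit 1) (nat_lit 0x80c00401520008050502))) 
(.lf (nat_lit 470941723) (dlOf (nat_lit 1) (nat_lit 0x1860018200601)))) 
(.lf (nat_lit 3355574811) (dlOf (nat_lit 2) (nat_lit 0x1d0170000000802a0008000c002009c00080a1483)))) 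
(.nd (nat_lit 7) 
(.lf (nat_lit 1208090971) (dlOf (nat_lit 2) (nat_lit 0x400940000004000800400220018090e02))) 
(.lf (nat_lit 4764860635) (dlOf (nat_lit 1) (nat_lit 0x10008000400200020008031c83))))) 
(.nd (nat_lit 8) (.nd (nat_lit 12) 
(.lf (nat_lit 4697753115) (dlOf (nat_lit 1) (nat_lit 0x108008002c002001a0008093703))) 
(.lf (nat_lit 3355579931) (dlOf (nat_lit 1) (nat_lit 0x200280a9c01)))) (.nd (nat_lit 6) 
(.lf (nat_lit 2617382171) (dlOf (nat_lit 1) (nat_lit 0x400280a9701))) 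
(.lf (nat_lit 4697753051) (dlOf (nat_lit 1) (nat_lit 0x280028093601))))))) (.nd (nat_lit 21) 
(.nd (nat_lit 26) (.nd (nat_lit 22) (.nd (nat_lit 28) (.nd (nat_lit 7) 
(.lf (nat_lit 134873115) (dlOf (nat_lit 1) (nat_lit 0x58004000800080d0882))) 
(.lf (nat_lit 60424347) (dlOf (nat_lit 3) (nat_lit 0xca3c00028810004523000138080230008002800200420009852b83)))) 
(.nd (nat_lit 6) (.lf (nat_lit 1342832667) (dlOf (nat_lit 1) (nat_lit 0x1e00180e0a01))) 
(.lf (nat_lit 3490323803) (dlOf (nat_lit 1) (nat_lit 0x8004006e000800c902))))) (.nd (nat_lit 24) 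
(.lf (nat_lit 4849691) (dlOf (nat_lit 1) (nat_lit 0x600182d0101))) 
(.lf (nat_lit 21626907) (dlOf (nat_lit 5) (nat_lit 0x237cc00052c40002e040006962000168100064b000009c0800225800004c040058004002e0008a50502))))) 
(.nd (nat_lit 27) (.nd (nat_lit 28) 
(.lf (nat_lit 4362731547) (dlOf (nat_lit 6) (nat_lit 0x50154002d20400200ac0015c0200cc056000ac81009b02b000560080258158002ae04003c004001400180e0a82))) 
(.lf (nat_lit 1409941531) (dlOf (nat_lit 2) (nat_lit 0x2003100d578180a0900)))) (.nd (nat_lit 28) 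
(.lf (nat_lit 201981979) (dlOf (nat_lit 1) (nat_lit 0x58004000800080d0882))) 
(.lf (nat_lit 470417435) (dlOf (nat_lit 1) (nat_lit 0x1e00180e0a01)))))) (.nd (nat_lit 23) 
(.nd (nat_lit 9) (.nd (nat_lit 20) 
(.lf (nat_lit 1344929819) (dlOf (nat_lit 2) (nat_lit 0x1023000022040008004000a00089a0102))) 
(.nd (nat_lit 28) (.lf (nat_lit 3801115) (dlOf (nat_lit 1) (nat_lit 0x400400080008220a02))) 
(.lf (nat_lit 3493462043) (dlOf (nat_lit 6) (nat_lit 0x13807c0005a04001c0480001e0200180240000b81000d01000005808001007c00014040230004003c0008140b02))))) 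
(.nd (nat_lit 6) (.lf (nat_lit 20578843) (dlOf (nat_lit 1) (nat_lit 0xe00289d1481))) 
(.lf (nat_lit 1345981019) (dlOf (nat_lit 1) (nat_lit 0x8004000c0008e25302))))) (.nd (nat_lit 20) 
(.lf (nat_lit 27918363) (dlOf (nat_lit 1) (nat_lit 0x300018d40481))) (.nd (nat_lit 22) 
(.lf (nat_lit 45744155) (dlOf (nat_lit 4) (nat_lit 0x119f400082040010cf60008592000b2728000fc1800393940007c040060004004e0019360102))) 
(.lf (nat_lit 16384027) (dlOf (nat_lit 1) (nat_lit 0x80080004002000200088a0483)))))))) 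
(.nd (nat_lit 6) (.nd (nat_lit 10) (.nd (nat_lit 22) (.nd (nat_lit 26) (.nd (nat_lit 7) 
(.lf (nat_lit 52559931) (dlOf (nat_lit 1) (nat_lit 0x68008004800200260009550583))) 
(.lf (nat_lit 268566715) (dlOf (nat_lit 1) (nat_lit 0x20018081701)))) (.nd (nat_lit 8) 
(.nd (nat_lit 32) (.lf (nat_lit 1140981819) (dlOf (nat_lit 1) (nat_lit 0x180002006e0008040482))) 
(.lf (nat_lit 5435949115) (dlOf (nat_lit 5) (nat_lit 0xd01f800180f800180740010035002b204000301f800180f800180740010035000600000158c2800380fc001807c001203a000701a8015842000200fc001807c001003a000701a80157c200070008006800200080008051683)))) 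
(.lf (nat_lit 2348941627) (dlOf (nat_lit 1) (nat_lit 0xc00400020008048502))))) (.nd (nat_lit 19) 
(.lf (nat_lit 54657083) (dlOf (nat_lit 1) (nat_lit 0x200009650001))) (.nd (nat_lit 23) 
(.lf (nat_lit 21626939) (dlOf (nat_lit 2) (nat_lit 0xf6a0015bc04011800400420008a51682))) 
(.lf (nat_lit 46792763) (dlOf (nat_lit 2) (nat_lit 0x2833c801d10080150008002800200040009380003)))))) 
(.nd (nat_lit 7) (.nd (nat_lit 8) (.nd (nat_lit 27) 
(.lf (nat_lit 5637277243) (dlOf (nat_lit 2) (nat_lit 0x440260002d02000c00280d3781))) 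
(.lf (nat_lit 4697753147) (dlOf (nat_lit 3) (nat_lit 0x220290000d0100090148000600801d0008000800200040008093783)))) 
(.lf (nat_lit 1342314299) (dlOf (nat_lit 1) (nat_lit 0x140040004000800a102)))) (.nd (nat_lit 19) 
(.lf (nat_lit 474088635) (dlOf (nat_lit 10) (nat_lit 0x800b8001100800485a0002002e000430400100170001e0100090b40005805c0007608003c4080024168000f0b30009850c004c19e0022073001700b800380540006e20004c408000416800040b3000f0514005c28600160cf000b0398004805c002402a00036120002168000600b8000d41000505a0002019e00220170001a0300200b4000605140068284004a0cf002800b8000002802a8008005c00200040009082c83))) 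
(.lf (nat_lit 32113851) (dlOf (nat_lit 1) (nat_lit 0x20008ef2c81)))))) (.nd (nat_lit 9) 
(.nd (nat_lit 10) (.nd (nat_lit 7) 
(.lf (nat_lit 3493986427) (dlOf (nat_lit 1) (nat_lit 0x900080038002000200081b0083))) 
(.nd (nat_lit 11) (.lf (nat_lit 3355574779) (dlOf (nat_lit 1) (nat_lit 0x4004000a00080a1482))) 
(.lf (nat_lit 37882363) (dlOf (nat_lit 1) (nat_lit 0x8800090d4f81))))) (.nd (nat_lit 11) 
(.lf (nat_lit 3355579899) (dlOf (nat_lit 1) (nat_lit 0xc80080020002004400080a9c03))) 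
(.nd (nat_lit 26) (.lf (nat_lit 6576803323) (dlOf (nat_lit 1) (nat_lit 0x400200040008146f82))) 
(.lf (nat_lit 1409420795) (dlOf (nat_lit 1) (nat_lit 0x400200020008006f82)))))) (.nd (nat_lit 7) 
(.nd (nat_lit 11) (.lf (nat_lit 2617381755) (dlOf (nat_lit 1) (nat_lit 0x4004000a00080a9002))) 
(.nd (nat_lit 19) (.lf (nat_lit 5771496315) (dlOf (nat_lit 1) (nat_lit 0x400200020008005c02))) 
(.lf (nat_lit 46795643) (dlOf (nat_lit 1) (nat_lit 0x60009385c01))))) (.nd (nat_lit 11) 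
(.nd (nat_lit 19) 
(.lf (nat_lit 57803771) (dlOf (nat_lit 1) (nat_lit 0x18008000800200040009792883))) 
(.lf (nat_lit 69862395) (dlOf (nat_lit 1) (nat_lit 0x10008000400200040008d52883)))) 
(.lf (nat_lit 138235) (dlOf (nat_lit 1) (nat_lit 0xc002800bf01)))))))) (.nd (nat_lit 6) 
(.nd (nat_lit 26) (.nd (nat_lit 7) (.nd (nat_lit 28) (.nd (nat_lit 27) (.nd (nat_lit 5) 
(.lf (nat_lit 537526299) (dlOf (nat_lit 2) (nat_lit 0x2003100f0f8180a0900))) 
(.lf (nat_lit 537526331) (dlOf (nat_lit 3) (nat_lit 0x3c04c0001a81000f0260000000800a00080034002003400080a0c03)))) 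
(.nd (nat_lit 9) 
(.lf (nat_lit 2819227675) (dlOf (nat_lit 2) (nat_lit 0x80880002d02000400081f0601))) 
(.lf (nat_lit 3892445723) (dlOf (nat_lit 5) (nat_lit 0x2203400110198007c000000af06002c0680005681002203400100000001460800580d0000a10200100028118701))))) 
(.nd (nat_lit 5) (.nd (nat_lit 19) 
(.lf (nat_lit 2952921115) (dlOf (nat_lit 1) (nat_lit 0x3c00400060008020502))) 
(.lf (nat_lit 805961755) (dlOf (nat_lit 4) (nat_lit 0x25015803378040150026018f702005201300000018200a80)))) 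
(.nd (nat_lit 19) (.lf (nat_lit 2013397051) (dlOf (nat_lit 1) (nat_lit 0x180002006e0008040482))) 
(.lf (nat_lit 805961787) (dlOf (nat_lit 3) (nat_lit 0x1180ac00700130002782003502b000138080188008005400200fc0008201403)))))) 
(.nd (nat_lit 9) (.nd (nat_lit 5) (.nd (nat_lit 8) 
(.lf (nat_lit 1610743963) (dlOf (nat_lit 4) (nat_lit 0x2e0148002b00400080a40015402005a052000a9818090500))) 
(.lf (nat_lit 1610744219) (dlOf (nat_lit 5) (nat_lit 0x20074002b80400600aa003c03700072020004010800368080050084001a804001400400080018091002)))) 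
(.lf (nat_lit 1610743995) (dlOf (nat_lit 2) (nat_lit 0x710340032819801900000000006000c0018090701)))) 
(.nd (nat_lit 5) (.nd (nat_lit 28) 
(.lf (nat_lit 671221403) (dlOf (nat_lit 2) (nat_lit 0x1401f0001a818143a80))) 
(.lf (nat_lit 3087140507) (dlOf (nat_lit 2) (nat_lit 0x18016001520200040008143a81)))) 
(.lf (nat_lit 537003963) (dlOf (nat_lit 1) (nat_lit 0x3c00400140018004382)))))) (.nd (nat_lit 31) 
(.nd (nat_lit 5) (.nd (nat_lit 9) (.nd (nat_lit 10) 
(.lf (nat_lit 1678376987) (dlOf (nat_lit 4) (nat_lit 0x25015803a2a04015002601c7002005201300000018200a80))) 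
(.lf (nat_lit 6241258523) (dlOf (nat_lit 1) (nat_lit 0x4004000200080d6002)))) (.nd (nat_lit 8) 
(.lf (nat_lit 738855451) (dlOf (nat_lit 1) (nat_lit 0x160018125101))) 
(.lf (nat_lit 6241258267) (dlOf (nat_lit 1) (nat_lit 0x2e00180d5c01))))) (.nd (nat_lit 11) 
(.nd (nat_lit 7) 
(.lf (nat_lit 5301731387) (dlOf (nat_lit 5) (nat_lit 0xd01f800180f8001807400100370056f84000301f800180f8001807400100370006000002b782800380fc001807c001203a000701b802b702000200fc001807c001003a000701b802b68200070008006800200080008051683))) 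
(.lf (nat_lit 6107037883) (dlOf (nat_lit 1) (nat_lit 0x20008003000200020008031703)))) 
(.nd (nat_lit 8) 
(.lf (nat_lit 1677858875) (dlOf (nat_lit 3) (nat_lit 0x280b4015de04002402e00aee020054002811a601))) 
(.lf (nat_lit 1677855035) (dlOf (nat_lit 1) (nat_lit 0x680080014002005a0008114c83)))))) 
(.nd (nat_lit 27) (.nd (nat_lit 21) (.nd (nat_lit 9) 
(.lf (nat_lit 2755788827) (dlOf (nat_lit 2) (nat_lit 0xa01500ed50181b0000))) 
(.lf (nat_lit 3020030491) (dlOf (nat_lit 2) (nat_lit 0x28038002d4040008004000200180e8702)))) 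
(.nd (nat_lit 7) 
(.lf (nat_lit 2755264539) (dlOf (nat_lit 6) (nat_lit 0x13807c0005a04001c0480001e0200180240000b81000d01000005408001007c00014040230004003c0008140b02))) 
(.lf (nat_lit 2753691803) (dlOf (nat_lit 2) (nat_lit 0x2008900017818090180))))) (.nd (nat_lit 5) 
(.nd (nat_lit 30) (.lf (nat_lit 3154771995) (dlOf (nat_lit 1) (nat_lit 0x20018320981))) 
(.lf (nat_lit 4228513819) (dlOf (nat_lit 6) (nat_lit 0x50138002ca04002009e001570200cc04f000aa01009b02780054c08025813c002a404003c004001400180e0a82)))) 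
(.nd (nat_lit 9) 
(.lf (nat_lit 3959560251) (dlOf (nat_lit 1) (nat_lit 0x6a000801080020056000811a603))) 
(.lf (nat_lit 3959560763) (dlOf (nat_lit 1) (nat_lit 0xb0001811b481)))))))) (.nd (nat_lit 8) 
(.nd (nat_lit 7) (.nd (nat_lit 28) (.nd (nat_lit 11) (.nd (nat_lit 19) 
(.lf (nat_lit 2752643163) (dlOf (nat_lit 1) (nat_lit 0x2400200040008020a82))) 
(.lf (nat_lit 1678377051) (dlOf (nat_lit 3) (nat_lit 0x180140002502018005600000818201a80)))) 
(.lf (nat_lit 1677858907) (dlOf (nat_lit 1) (nat_lit 0x1000800dc0020048000811a783)))) 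
(.nd (nat_lit 9) 
(.lf (nat_lit 2013397083) (dlOf (nat_lit 2) (nat_lit 0x1a0028000180800e000800a400200120008040683))) 
(.lf (nat_lit 4095870555) (dlOf (nat_lit 1) (nat_lit 0x800080e3901))))) (.nd (nat_lit 5) 
(.nd (nat_lit 11) (.lf (nat_lit 2080507099) (dlOf (nat_lit 1) (nat_lit 0x1400400080008092e02))) 
(.lf (nat_lit 805444827) (dlOf (nat_lit 1) (nat_lit 0x2001811c401)))) (.nd (nat_lit 9) 
(.lf (nat_lit 2080507131) (dlOf (nat_lit 2) (nat_lit 0x580b40004004000800400040018092f02))) 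
(.nd (nat_lit 21) (.lf (nat_lit 4093774587) (dlOf (nat_lit 1) (nat_lit 0x20008005a01))) 
(.lf (nat_lit 6377573115) (dlOf (nat_lit 1) (nat_lit 0x4004000200080e5a02))))))) (.nd (nat_lit 5) 
(.nd (nat_lit 11) (.nd (nat_lit 7) 
(.lf (nat_lit 4093773147) (dlOf (nat_lit 1) (nat_lit 0x400400020008003382))) (.nd (nat_lit 27) 
(.lf (nat_lit 1610744283) (dlOf (nat_lit 2) (nat_lit 0x100520000b818091200))) 
(.lf (nat_lit 3892445659) (dlOf (nat_lit 2) (nat_lit 0x800000000004002800200100008117c02))))) 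
(.nd (nat_lit 27) (.nd (nat_lit 30) 
(.lf (nat_lit 2751601115) (dlOf (nat_lit 1) (nat_lit 0x4000800b281))) 
(.lf (nat_lit 1677859291) (dlOf (nat_lit 3) (nat_lit 0x28158001402600c1b04004205600140098030001001e80080020002000a000811b283)))) 
(.lf (nat_lit 3959560667) (dlOf (nat_lit 3) (nat_lit 0x2008c002c0380060b8200060230028d4080130008003c0020008000811b283))))) 
(.nd (nat_lit 7) (.nd (nat_lit 11) (.nd (nat_lit 26) 
(.lf (nat_lit 1610744187) (dlOf (nat_lit 1) (nat_lit 0x20018091001))) 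
(.lf (nat_lit 5167513979) (dlOf (nat_lit 1) (nat_lit 0x168008018800202460008075a03)))) 
(.lf (nat_lit 3959560571) (dlOf (nat_lit 1) (nat_lit 0x4001811ae81)))) (.nd (nat_lit 19) 
(.lf (nat_lit 1946288635) (dlOf (nat_lit 4) (nat_lit 0x6029005198100090148028a80800780a40145004007c00400100018017802))) 
(.lf (nat_lit 2753167867) (dlOf (nat_lit 1) (nat_lit 0xb20018090d81))))))))) (.nd (nat_lit 5) 
(.nd (nat_lit 30) (.nd (nat_lit 6) (.nd (nat_lit 19) (.nd (nat_lit 21) (.nd (nat_lit 26) 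
(.nd (nat_lit 11) (.nd (nat_lit 23) (.nd (nat_lit 28) 
(.lf (nat_lit 2684518427) (dlOf (nat_lit 2) (nat_lit 0x100700020000000fc08002800400040008080482))) 
(.lf (nat_lit 268599323) (dlOf (nat_lit 3) (nat_lit 0x57c0260003202002400a000180180a0400)))) 
(.nd (nat_lit 20) (.lf (nat_lit 25329691) (dlOf (nat_lit 1) (nat_lit 0x8008000400200020008bf0883))) 
(.lf (nat_lit 47349787) (dlOf (nat_lit 3) (nat_lit 0x5af10002575200020040012bc400075d48000781000700080010002000e00093d0503))))) 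
(.nd (nat_lit 7) (.lf (nat_lit 166427) (dlOf (nat_lit 1) (nat_lit 0x100028005101))) 
(.lf (nat_lit 167323) (dlOf (nat_lit 1) (nat_lit 0x400200040008006d02))))) (.nd (nat_lit 27) 
(.lf (nat_lit 4630675483) (dlOf (nat_lit 3) (nat_lit 0x2da01402360020000c8100008058000620400a800400560018050402))) 
(.nd (nat_lit 28) 
(.lf (nat_lit 6643941403) (dlOf (nat_lit 2) (nat_lit 0x406a001a00700047028090480))) 
(.lf (nat_lit 4764893211) (dlOf (nat_lit 2) (nat_lit 0x30020000c8080088008003000200020008050503)))))) 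
(.nd (nat_lit 7) (.nd (nat_lit 22) 
(.lf (nat_lit 52592667) (dlOf (nat_lit 1) (nat_lit 0xc00400080019550102))) 
(.lf (nat_lit 56786971) (dlOf (nat_lit 1) (nat_lit 0x800400020009750102)))) 
(.lf (nat_lit 2261147) (dlOf (nat_lit 3) (nat_lit 0x36a3d0002301000651e800114080020008001400200080008150183))))) 
(.nd (nat_lit 21) (.nd (nat_lit 26) (.nd (nat_lit 27) 
(.lf (nat_lit 805994523) (dlOf (nat_lit 2) (nat_lit 0x1300ac0018013000d9828210480))) 
(.lf (nat_lit 134905883) (dlOf (nat_lit 2) (nat_lit 0x4815000000040014004000800080d0882)))) 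
(.nd (nat_lit 27) (.lf (nat_lit 4362764315) (dlOf (nat_lit 1) (nat_lit 0xa0004002400080f0a82))) 
(.lf (nat_lit 202014747) (dlOf (nat_lit 2) (nat_lit 0x4815400000040014004000800080d0882))))) 
(.nd (nat_lit 20) (.nd (nat_lit 7) 
(.lf (nat_lit 15368219) (dlOf (nat_lit 1) (nat_lit 0x200187e0501))) 
(.lf (nat_lit 36342427) (dlOf (nat_lit 1) (nat_lit 0xc00200040009075582)))) (.nd (nat_lit 22) 
(.lf (nat_lit 3833883) (dlOf (nat_lit 2) (nat_lit 0x601940000804000400200180008230502))) 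
(.lf (nat_lit 24805403) (dlOf (nat_lit 4) (nat_lit 0x145e48000fc080808000000480400257900012bad00015ca80003c180158008002c00200280008bb0503))))))) 
(.nd (nat_lit 26) (.nd (nat_lit 8) (.nd (nat_lit 7) (.nd (nat_lit 10) 
(.lf (nat_lit 52592731) (dlOf (nat_lit 6) (nat_lit 0x22b04c000360400398260001a020082c12006f608803daca4008d65000d4a7b006353480002c30014b04801c565200009040090c1200645948000001001b0008006c002005a0009550883))) 
(.lf (nat_lit 57836635) (dlOf (nat_lit 1) (nat_lit 0x43000804a800200540009792903)))) 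
(.lf (nat_lit 691931) (dlOf (nat_lit 1) (nat_lit 0x60018007381)))) (.nd (nat_lit 7) 
(.nd (nat_lit 11) (.lf (nat_lit 134381915) (dlOf (nat_lit 1) (nat_lit 0x400400020008014e82))) 
(.lf (nat_lit 170331) (dlOf (nat_lit 1) (nat_lit 0x2002800ab81)))) 
(.lf (nat_lit 2818736603) (dlOf (nat_lit 1) (nat_lit 0x200080e7c01))))) (.nd (nat_lit 12) 
(.nd (nat_lit 27) 
(.lf (nat_lit 4362240347) (dlOf (nat_lit 5) (nat_lit 0x40660006802034c033000220101f7019800108080a100cc000480401cc004015e0008014e02))) 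
(.lf (nat_lit 201490779) (dlOf (nat_lit 1) (nat_lit 0x200080020002000a0008014e03)))) 
(.nd (nat_lit 7) (.lf (nat_lit 3154286427) (dlOf (nat_lit 1) (nat_lit 0x40020002000815a302))) 
(.lf (nat_lit 2751633883) (dlOf (nat_lit 4) (nat_lit 0x58844003c42000c1704001c20f0053f0100101078029b40800b000800280020014000800b283))))))) 
(.nd (nat_lit 28) (.nd (nat_lit 26) (.nd (nat_lit 7) (.nd (nat_lit 19) (.nd (nat_lit 29) 
(.lf (nat_lit 5503090715) (dlOf (nat_lit 4) (nat_lit 0x900a80020050005c0260010011000c00800058038002800a007d70e0004015001b00980048044003401c001a005003eb050002009801f50080018008001000200120008060a03))) 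
(.lf (nat_lit 6039961627) (dlOf (nat_lit 2) (nat_lit 0xd40000008e0200120008070481)))) 
(.lf (nat_lit 3221913627) (dlOf (nat_lit 13) (nat_lit 0x6600b80046e04000405c0022802001003f01340170008981001780bc003dc04006805e001eb02005602f000f48100600178006080800c80bc002f00402d805e001730200ca02f000b881002d0178005bc0803480bc00000040128004006200081b0482)))) 
(.nd (nat_lit 8) (.lf (nat_lit 3892484763) (dlOf (nat_lit 1) (nat_lit 0x40040004001815b682))) 
(.nd (nat_lit 9) 
(.lf (nat_lit 3758265755) (dlOf (nat_lit 2) (nat_lit 0x10170028c4080018008003800200020008129903))) 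
(.lf (nat_lit 3355612059) (dlOf (nat_lit 1) (nat_lit 0xa00280a9101)))))) (.nd (nat_lit 19) 
(.nd (nat_lit 6) (.nd (nat_lit 7) 
(.lf (nat_lit 3288498203) (dlOf (nat_lit 1) (nat_lit 0x80018030881))) 
(.lf (nat_lit 1677887643) (dlOf (nat_lit 2) (nat_lit 0x300000001404000c00200040008114802)))) 
(.lf (nat_lit 5435982171) (dlOf (nat_lit 2) (nat_lit 0x80b80000004001c00400040008090e02)))) 
(.nd (nat_lit 27) 
(.lf (nat_lit 1678409755) (dlOf (nat_lit 2) (nat_lit 0x1300ac0018013000d1828210480))) 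
(.lf (nat_lit 3960111131) (dlOf (nat_lit 13) (nat_lit 0x6600b80046e04000405c0022802001003f01340170008981001780bc003dc04006805e001eb02005602f000f48100600178005e40800c80bc002ec04019405e0017302016c02f000b881002d0178005bc0803480bc00000040128004006200081b0482)))))) 
(.nd (nat_lit 6) (.nd (nat_lit 7) (.nd (nat_lit 19) (.nd (nat_lit 22) 
(.lf (nat_lit 4026695707) (dlOf (nat_lit 1) (nat_lit 0x80018030881))) 
(.lf (nat_lit 1346535451) (dlOf (nat_lit 1) (nat_lit 0x20008fa0081)))) 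
(.lf (nat_lit 4228546587) (dlOf (nat_lit 1) (nat_lit 0xa0004002400080f0a82)))) (.nd (nat_lit 9) 
(.lf (nat_lit 3493494939) (dlOf (nat_lit 1) (nat_lit 0x40018154281))) 
(.lf (nat_lit 1344440987) (dlOf (nat_lit 1) (nat_lit 0x6600080004002000200087a5583))))) 
(.nd (nat_lit 7) (.nd (nat_lit 8) 
(.lf (nat_lit 1476558939) (dlOf (nat_lit 1) (nat_lit 0xc0028050881))) (.nd (nat_lit 10) 
(.lf (nat_lit 5838635355) (dlOf (nat_lit 1) (nat_lit 0x100008104e81))) 
(.lf (nat_lit 1409457499) (dlOf (nat_lit 1) (nat_lit 0xb00040124000800c902))))) (.nd (nat_lit 8) 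
(.lf (nat_lit 3624042715) (dlOf (nat_lit 1) (nat_lit 0xe00180b0481))) 
(.lf (nat_lit 1342341595) (dlOf (nat_lit 1) (nat_lit 0x40028017101)))))))) (.nd (nat_lit 26) 
(.nd (nat_lit 6) (.nd (nat_lit 7) (.nd (nat_lit 9) (.nd (nat_lit 24) (.nd (nat_lit 28) 
(.nd (nat_lit 11) 
(.lf (nat_lit 134905915) (dlOf (nat_lit 2) (nat_lit 0x1c03100080088001f8100088008015400200c600080d0b83))) 
(.lf (nat_lit 170043) (dlOf (nat_lit 3) (nat_lit 0x653f002bbc0800529f8015dc0400a8004012e001800a602)))) 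
(.nd (nat_lit 29) (.lf (nat_lit 268599355) (dlOf (nat_lit 1) (nat_lit 0x1800280a1681))) 
(.lf (nat_lit 4026695739) (dlOf (nat_lit 5) (nat_lit 0x74040001a00b000b602004e0100024802c0029e08000c040000a00b0007b8200080100003002c0000208005c00400280018030d02))))) 
(.nd (nat_lit 20) (.lf (nat_lit 25329723) (dlOf (nat_lit 1) (nat_lit 0x20008bf0b81))) 
(.lf (nat_lit 24281147) (dlOf (nat_lit 1) (nat_lit 0x60008b90c01))))) (.nd (nat_lit 20) 
(.nd (nat_lit 11) (.lf (nat_lit 1342341691) (dlOf (nat_lit 1) (nat_lit 0x80028018201))) 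
(.lf (nat_lit 58886715) (dlOf (nat_lit 1) (nat_lit 0x100080098002002c00097e5203)))) 
(.nd (nat_lit 19) 
(.lf (nat_lit 11698747) (dlOf (nat_lit 4) (nat_lit 0xdc630001deb00007410008f18c00b37ac0001c04001fc630023deb0000681000d00080054002005e00086c1003))) 
(.lf (nat_lit 3491398203) (dlOf (nat_lit 4) (nat_lit 0x2e1d20000e8100130e900007008008874800034040004004002c0018091002)))))) 
(.nd (nat_lit 10) (.nd (nat_lit 8) 
(.lf (nat_lit 3309755) (dlOf (nat_lit 1) (nat_lit 0x20028200381))) 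
(.lf (nat_lit 3892482491) (dlOf (nat_lit 2) (nat_lit 0x1811c0008804000800400060018158582)))) 
(.nd (nat_lit 9) (.nd (nat_lit 21) 
(.lf (nat_lit 33719483) (dlOf (nat_lit 1) (nat_lit 0x8008000400200020008f52c83))) 
(.lf (nat_lit 35816635) (dlOf (nat_lit 1) (nat_lit 0x4002000c0009012c82)))) 
(.lf (nat_lit 167611) (dlOf (nat_lit 1) (nat_lit 0x400200020008007282)))))) (.nd (nat_lit 7) 
(.nd (nat_lit 10) (.nd (nat_lit 11) (.nd (nat_lit 27) 
(.lf (nat_lit 4832002171) (dlOf (nat_lit 1) (nat_lit 0x2800400020008080c82))) 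
(.lf (nat_lit 5234655355) (dlOf (nat_lit 1) (nat_lit 0x38008001400200060008070c83)))) 
(.lf (nat_lit 170107) (dlOf (nat_lit 1) (nat_lit 0xc001800a881)))) (.nd (nat_lit 9) 
(.lf (nat_lit 171131) (dlOf (nat_lit 2) (nat_lit 0x981c00053020002001800c101))) 
(.lf (nat_lit 1881310843) (dlOf (nat_lit 1) (nat_lit 0x400200020008e83982))))) (.nd (nat_lit 8) 
(.nd (nat_lit 10) (.lf (nat_lit 11698427) (dlOf (nat_lit 1) (nat_lit 0x22c004005800086c0482))) 
(.lf (nat_lit 1610777851) (dlOf (nat_lit 1) (nat_lit 0xa0028092f01)))) (.nd (nat_lit 9) 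
(.nd (nat_lit 11) 
(.lf (nat_lit 11698683) (dlOf (nat_lit 1) (nat_lit 0x1900080080002006000086c0d83))) 
(.lf (nat_lit 33196539) (dlOf (nat_lit 1) (nat_lit 0x1e0018f54f81)))) 
(.lf (nat_lit 54692859) (dlOf (nat_lit 4) (nat_lit 0x70fde0003a020040744000190100123a20000c4080058008000800200660009655f03))))))) 
(.nd (nat_lit 6) (.nd (nat_lit 27) (.nd (nat_lit 8) (.nd (nat_lit 9) (.nd (nat_lit 19) 
(.lf (nat_lit 3288498235) (dlOf (nat_lit 5) (nat_lit 0x74040001a00b000b602004e0100024802c0029e08000c040000a00b0007b8200080100003002c0000208005c00400280018030d02))) 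
(.lf (nat_lit 67797051) (dlOf (nat_lit 1) (nat_lit 0x1200282f0c81)))) 
(.lf (nat_lit 2753200699) (dlOf (nat_lit 4) (nat_lit 0x2e1e70000e8100130f380007008008879c00034040004004002c0018091002)))) 
(.nd (nat_lit 9) (.nd (nat_lit 11) 
(.lf (nat_lit 5435982139) (dlOf (nat_lit 1) (nat_lit 0x20018090b81))) 
(.lf (nat_lit 2751629627) (dlOf (nat_lit 2) (nat_lit 0x1891c00000040030004000a0018004c82)))) 
(.lf (nat_lit 6241291067) (dlOf (nat_lit 1) (nat_lit 0x5800280d5c01))))) (.nd (nat_lit 19) 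
(.nd (nat_lit 7) (.nd (nat_lit 9) 
(.lf (nat_lit 1008894011) (dlOf (nat_lit 1) (nat_lit 0x20018fc0581))) 
(.lf (nat_lit 4228022843) (dlOf (nat_lit 1) (nat_lit 0x1c004000a0008018202)))) 
(.lf (nat_lit 4496457915) (dlOf (nat_lit 1) (nat_lit 0xc00400020008081702)))) (.nd (nat_lit 28) 
(.lf (nat_lit 202014779) (dlOf (nat_lit 2) (nat_lit 0x1c03100080088001f8100088008015400200c600080d0b83))) 
(.lf (nat_lit 4228546619) (dlOf (nat_lit 2) (nat_lit 0x700c80009e040004002002600080f1402)))))) 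
(.nd (nat_lit 7) (.nd (nat_lit 11) (.nd (nat_lit 9) (.nd (nat_lit 31) 
(.lf (nat_lit 5704417403) (dlOf (nat_lit 1) (nat_lit 0x20028070c81))) 
(.lf (nat_lit 3556933755) (dlOf (nat_lit 1) (nat_lit 0x8002000400080f3582)))) 
(.lf (nat_lit 6375507579) (dlOf (nat_lit 1) (nat_lit 0x18008000400200020008003983)))) 
(.nd (nat_lit 8) 
(.lf (nat_lit 1677887611) (dlOf (nat_lit 1) (nat_lit 0x10008003c00200020008114783))) 
(.nd (nat_lit 9) (.lf (nat_lit 1409452411) (dlOf (nat_lit 1) (nat_lit 0x20018004e81))) 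
(.lf (nat_lit 473074555) (dlOf (nat_lit 3) (nat_lit 0xb0b28006d00800105940034404002c00400080008c95c02)))))) 
(.nd (nat_lit 10) (.nd (nat_lit 11) (.nd (nat_lit 27) 
(.lf (nat_lit 4362240507) (dlOf (nat_lit 5) (nat_lit 0xc7020800500c40274056019e028003f01000019c280858104001c0640010031010c015809200a00174040002201a000100a0001984002300ac000820405f00820078038017b01b000680d4001c0640010031015b015801b80a0082c044003001a000100a0000fc58098800806c800200460008017e03))) 
(.lf (nat_lit 469926395) (dlOf (nat_lit 2) (nat_lit 0x100000007e04007400200120008017e02)))) 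
(.lf (nat_lit 1007847931) (dlOf (nat_lit 2) (nat_lit 0x240ec0005a02000e0008804f81)))) 
(.nd (nat_lit 8) (.lf (nat_lit 2214761723) (dlOf (nat_lit 1) (nat_lit 0x4004000200080a9502))) 
(.lf (nat_lit 1409453563) (dlOf (nat_lit 1) (nat_lit 0x10008000400200020008006f83)))))))))) 
(.nd (nat_lit 5) (.nd (nat_lit 19) (.nd (nat_lit 28) (.nd (nat_lit 22) (.nd (nat_lit 15) 
(.nd (nat_lit 30) (.nd (nat_lit 6) (.nd (nat_lit 21) 
(.lf (nat_lit 738590747) (dlOf (nat_lit 6) (nat_lit 0x15802800a980c8054c04002a601c00018840119010008f0070000600806b80a0037e03201a401000d700700005e1003d00a0012403200e5010007580700005c1002640a00001102000800180b0101))) 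
(.nd (nat_lit 26) (.lf (nat_lit 2490395) (dlOf (nat_lit 1) (nat_lit 0x28008000800200060008160903))) 
(.lf (nat_lit 2753953819) (dlOf (nat_lit 7) (nat_lit 0x1408700e3701004004380718c08002021c038c404002410e01c5e02007408700deb010001043806f5408010000801ac002006400080a0903))))) 
(.nd (nat_lit 27) (.nd (nat_lit 20) 
(.lf (nat_lit 2753953883) (dlOf (nat_lit 1) (nat_lit 0x1200180a1201))) 
(.lf (nat_lit 9830491) (dlOf (nat_lit 2) (nat_lit 0x26cbf001364b8006910c004c851001242200131120000ac18005c00400340008580682)))) 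
(.nd (nat_lit 29) (.lf (nat_lit 4496687195) (dlOf (nat_lit 1) (nat_lit 0x20028120681))) 
(.lf (nat_lit 738590811) (dlOf (nat_lit 2) (nat_lit 0x20052007588180b0780)))))) (.nd (nat_lit 26) 
(.nd (nat_lit 29) (.nd (nat_lit 27) 
(.lf (nat_lit 3221618715) (dlOf (nat_lit 1) (nat_lit 0x60028160501))) 
(.lf (nat_lit 3355836443) (dlOf (nat_lit 2) (nat_lit 0x860300053017000000100078008000800200060008120483)))) 
(.nd (nat_lit 6) 
(.lf (nat_lit 1611005979) (dlOf (nat_lit 6) (nat_lit 0x15802800a980c8054c04002a601c00018840119010008f0070000600806b80a0037e03201a401000d700700005e1003d00a0012403200e5010007580700005c1002640a00001102000800180b0101))) 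
(.lf (nat_lit 1611006043) (dlOf (nat_lit 2) (nat_lit 0x20052004470180b0780))))) (.nd (nat_lit 27) 
(.nd (nat_lit 29) 
(.lf (nat_lit 3288727579) (dlOf (nat_lit 2) (nat_lit 0x20036006b0190000001000f00080038002007000080d0883))) 
(.lf (nat_lit 1678114843) (dlOf (nat_lit 1) (nat_lit 0x8008006c00200340008190503)))) 
(.lf (nat_lit 3959816219) (dlOf (nat_lit 1) (nat_lit 0x60028160501)))))) (.nd (nat_lit 20) 
(.nd (nat_lit 23) (.nd (nat_lit 7) (.nd (nat_lit 27) 
(.lf (nat_lit 4295393307) (dlOf (nat_lit 3) (nat_lit 0x7402c0018004004a882000300b00088010012a008003c004000400081c0a02))) 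
(.lf (nat_lit 4429611035) (dlOf (nat_lit 3) (nat_lit 0x7402a0018004006fa82000300a8008801001be808003c004000400081c0a02)))) 
(.lf (nat_lit 3959849371) (dlOf (nat_lit 2) (nat_lit 0x378118012408a00e310400020028170781)))) 
(.nd (nat_lit 6) (.nd (nat_lit 9) 
(.lf (nat_lit 27688987) (dlOf (nat_lit 1) (nat_lit 0xa0018d10681))) 
(.lf (nat_lit 8815131) (dlOf (nat_lit 1) (nat_lit 0x20018511481)))) 
(.lf (nat_lit 25592155) (dlOf (nat_lit 1) (nat_lit 0x20018c10901))))) (.nd (nat_lit 7) 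
(.nd (nat_lit 21) 
(.lf (nat_lit 18251803) (dlOf (nat_lit 2) (nat_lit 0x2980800950080050008003800200140008920583))) 
(.lf (nat_lit 37126171) (dlOf (nat_lit 1) (nat_lit 0xe600090a0601)))) (.nd (nat_lit 21) 
(.lf (nat_lit 51806363) (dlOf (nat_lit 1) (nat_lit 0x2e0029510501))) 
(.lf (nat_lit 3571867) (dlOf (nat_lit 3) (nat_lit 0x898e002c4bd001224b0001181800792f4000492c0004504000c0018200181))))))) 
(.nd (nat_lit 6) (.nd (nat_lit 20) (.nd (nat_lit 15) (.nd (nat_lit 21) (.nd (nat_lit 24) 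
(.lf (nat_lit 12976155) (dlOf (nat_lit 1) (nat_lit 0x380080004002000400086f0403))) 
(.lf (nat_lit 29753371) (dlOf (nat_lit 1) (nat_lit 0x8008000400200020008e30003)))) 
(.lf (nat_lit 15073307) (dlOf (nat_lit 4) (nat_lit 0x7cfae0001b0201407d70000c0100023eb8000140800f00080118002003600087b0583)))) 
(.nd (nat_lit 21) 
(.lf (nat_lit 13008923) (dlOf (nat_lit 2) (nat_lit 0x1d94240004804000c004000600086f0402))) 
(.lf (nat_lit 48660507) (dlOf (nat_lit 2) (nat_lit 0x2c1f00004a0200260029420101))))) 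
(.nd (nat_lit 24) (.nd (nat_lit 25) 
(.lf (nat_lit 16121883) (dlOf (nat_lit 1) (nat_lit 0x4002000a0008870482))) 
(.lf (nat_lit 49676315) (dlOf (nat_lit 1) (nat_lit 0x1000400060009480102)))) (.nd (nat_lit 23) 
(.lf (nat_lit 24510491) (dlOf (nat_lit 1) (nat_lit 0x400400020008ba0a02))) 
(.lf (nat_lit 32899099) (dlOf (nat_lit 1) (nat_lit 0x400400020008f40602)))))) (.nd (nat_lit 8) 
(.nd (nat_lit 7) (.nd (nat_lit 9) (.nd (nat_lit 21) 
(.lf (nat_lit 29753435) (dlOf (nat_lit 1) (nat_lit 0x40018e30401))) 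
(.lf (nat_lit 48627803) (dlOf (nat_lit 2) (nat_lit 0x1800000000804005400200120009420882)))) 
(.lf (nat_lit 38177371) (dlOf (nat_lit 1) (nat_lit 0x18008000400200020009135303)))) 
(.nd (nat_lit 20) (.lf (nat_lit 29753563) (dlOf (nat_lit 1) (nat_lit 0x3400200020008e30582))) 
(.lf (nat_lit 14024923) (dlOf (nat_lit 1) (nat_lit 0x40028750581))))) (.nd (nat_lit 15) 
(.nd (nat_lit 21) (.nd (nat_lit 24) 
(.lf (nat_lit 4587867) (dlOf (nat_lit 1) (nat_lit 0x28008001c00200060008290903))) 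
(.lf (nat_lit 21365083) (dlOf (nat_lit 4) (nat_lit 0x13af560002802000b8e70000d810005c73800060080018008003c002000a0008a34e83)))) 
(.lf (nat_lit 23462235) (dlOf (nat_lit 3) (nat_lit 0x1d6940007afe000158100085a500042d0600155fc00009838b80680)))) 
(.lf (nat_lit 21397851) (dlOf (nat_lit 3) (nat_lit 0x2a350001001001c54680006008011000802f8002001e0008a34e83))))))) 
(.nd (nat_lit 30) (.nd (nat_lit 27) (.nd (nat_lit 7) (.nd (nat_lit 29) (.nd (nat_lit 31) 
(.lf (nat_lit 4563795995) (dlOf (nat_lit 3) (nat_lit 0x182031000190100c10198000900805180080490002003000080e0503))) 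
(.lf (nat_lit 2416312347) (dlOf (nat_lit 1) (nat_lit 0x540008005c002004600080d0883)))) 
(.lf (nat_lit 805699611) (dlOf (nat_lit 1) (nat_lit 0x8008006c00200340008190503)))) 
(.nd (nat_lit 6) (.lf (nat_lit 805732763) (dlOf (nat_lit 1) (nat_lit 0x40002000a00081a0782))) 
(.lf (nat_lit 872809435) (dlOf (nat_lit 1) (nat_lit 0x4200280e2881))))) (.nd (nat_lit 26) 
(.nd (nat_lit 15) (.nd (nat_lit 31) 
(.lf (nat_lit 4698013723) (dlOf (nat_lit 10) (nat_lit 0x1004800070040bc4062018201c02dd00a00d180440978000000320a00b801400ac0000000c41002180c400d402800f20000001803000c020800100f800d407a014e038004400a004500000005618014407a018a03800c600a00628000000541007ec066000e01200012020004019806f00540400024000220601e601500e2009000000100228008024c002021600080e0403))) 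
(.lf (nat_lit 2550530075) (dlOf (nat_lit 1) (nat_lit 0x540008005c002004600080d0883)))) 
(.lf (nat_lit 4698046491) (dlOf (nat_lit 1) (nat_lit 0xc00080214002008800080f0a03)))) 
(.nd (nat_lit 6) 
(.lf (nat_lit 2617638939) (dlOf (nat_lit 1) (nat_lit 0x28008001000200400008110483))) 
(.nd (nat_lit 9) (.lf (nat_lit 473302107) (dlOf (nat_lit 1) (nat_lit 0x4004000c0018e92902))) 
(.lf (nat_lit 474384987) (dlOf (nat_lit 2) (nat_lit 0x270af80008c080010008000800200020009165303))))))) 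
(.nd (nat_lit 29) (.nd (nat_lit 6) (.nd (nat_lit 7) (.nd (nat_lit 22) 
(.lf (nat_lit 5637537819) (dlOf (nat_lit 1) (nat_lit 0x2000200100008100082))) 
(.lf (nat_lit 3494248475) (dlOf (nat_lit 2) (nat_lit 0x9804c000120181e0400)))) 
(.lf (nat_lit 1476788379) (dlOf (nat_lit 1) (nat_lit 0xb00080038002002c00081a0483)))) 
(.nd (nat_lit 8) (.nd (nat_lit 21) 
(.lf (nat_lit 5637537883) (dlOf (nat_lit 3) (nat_lit 0x3d00a002b0008000640800e40260002d0200060028100681))) 
(.lf (nat_lit 3492151387) (dlOf (nat_lit 1) (nat_lit 0xc00280a1201)))) 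
(.lf (nat_lit 3624304987) (dlOf (nat_lit 2) (nat_lit 0x4c040012601b004200a00210008000c000000280a004a0028154e81))))) 
(.nd (nat_lit 26) (.nd (nat_lit 6) (.nd (nat_lit 21) 
(.lf (nat_lit 4026925083) (dlOf (nat_lit 2) (nat_lit 0x20036006b0190000001000f00080038002007000080d0883))) 
(.lf (nat_lit 1881538587) (dlOf (nat_lit 5) (nat_lit 0x6411c0003f02000408e0001f0100220470000f40800c01f40000004001c004001c0008f40102)))) 
(.lf (nat_lit 1881538651) (dlOf (nat_lit 4) (nat_lit 0x1007180006c08000838c00ac1c4001007b00002030032071801e81ec0000008022400400260008f40882)))) 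
(.nd (nat_lit 27) (.nd (nat_lit 6) 
(.lf (nat_lit 6241517595) (dlOf (nat_lit 1) (nat_lit 0x2000200100008100082))) 
(.lf (nat_lit 6241517659) (dlOf (nat_lit 3) (nat_lit 0x3d009802b0008000640800e40240002d0200060028100681)))) 
(.nd (nat_lit 7) (.lf (nat_lit 2080803355) (dlOf (nat_lit 1) (nat_lit 0x4002000200080e5102))) 
(.lf (nat_lit 4228252059) (dlOf (nat_lit 1) (nat_lit 0x28008002c00200180008090783))))))))) 
(.nd (nat_lit 20) (.nd (nat_lit 24) (.nd (nat_lit 21) (.nd (nat_lit 6) (.nd (nat_lit 28) 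
(.nd (nat_lit 27) (.lf (nat_lit 917531) (dlOf (nat_lit 1) (nat_lit 0x70008005000200120008030883))) 
(.lf (nat_lit 2819489819) (dlOf (nat_lit 1) (nat_lit 0x98002001200082b0582)))) (.nd (nat_lit 9) 
(.lf (nat_lit 3557687323) (dlOf (nat_lit 1) (nat_lit 0x98002001200082b0582))) 
(.lf (nat_lit 3490611739) (dlOf (nat_lit 2) (nat_lit 0x30460004a00200200018017f01))))) 
(.nd (nat_lit 27) 
(.lf (nat_lit 2752414043) (dlOf (nat_lit 7) (nat_lit 0x4261fa0003201020c0fd00018c0800987e8000c004084c3f4000440200a81fa000218102260fd000108080528008043000201120008014e03))) 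
(.nd (nat_lit 30) (.lf (nat_lit 1007583579) (dlOf (nat_lit 1) (nat_lit 0x400200020008520902))) 
(.lf (nat_lit 6376292699) (dlOf (nat_lit 1) (nat_lit 0x1000200040008090e02)))))) (.nd (nat_lit 6) 
(.nd (nat_lit 7) (.nd (nat_lit 15) 
(.lf (nat_lit 15597595) (dlOf (nat_lit 1) (nat_lit 0x60018810601))) 
(.lf (nat_lit 15630363) (dlOf (nat_lit 1) (nat_lit 0x480080018002000c0008810603)))) 
(.nd (nat_lit 8) (.lf (nat_lit 49153179) (dlOf (nat_lit 1) (nat_lit 0x20004000c0019462b82))) 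
(.lf (nat_lit 2754480539) (dlOf (nat_lit 1) (nat_lit 0x200080f4e81))))) (.nd (nat_lit 7) 
(.lf (nat_lit 3492677723) (dlOf (nat_lit 1) (nat_lit 0xa00080f4701))) (.nd (nat_lit 26) 
(.lf (nat_lit 1345194715) (dlOf (nat_lit 4) (nat_lit 0xae1650001701004a0b28000400802505940000004003c004000c0018b05902))) 
(.lf (nat_lit 472779483) (dlOf (nat_lit 2) (nat_lit 0x9a16500008018b05900))))))) (.nd (nat_lit 6) 
(.nd (nat_lit 7) (.nd (nat_lit 8) (.nd (nat_lit 9) (.nd (nat_lit 10) 
(.lf (nat_lit 59670555) (dlOf (nat_lit 1) (nat_lit 0x400400240009820102))) 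
(.lf (nat_lit 19794971) (dlOf (nat_lit 1) (nat_lit 0x4004000200089d6002)))) 
(.lf (nat_lit 19795483) (dlOf (nat_lit 1) (nat_lit 0x200089d7101)))) (.nd (nat_lit 15) 
(.lf (nat_lit 19792155) (dlOf (nat_lit 1) (nat_lit 0x4002000200089d0a82))) 
(.lf (nat_lit 19824923) (dlOf (nat_lit 1) (nat_lit 0x4002000200089d0a82))))) (.nd (nat_lit 10) 
(.nd (nat_lit 15) (.lf (nat_lit 23986331) (dlOf (nat_lit 1) (nat_lit 0x3400400300018b80182))) 
(.lf (nat_lit 24019099) (dlOf (nat_lit 1) (nat_lit 0x4002004c0008b80182)))) 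
(.lf (nat_lit 19795099) (dlOf (nat_lit 1) (nat_lit 0x80080004002000200089d6283))))) 
(.nd (nat_lit 7) (.nd (nat_lit 9) 
(.lf (nat_lit 19824987) (dlOf (nat_lit 1) (nat_lit 0x600089d0e01))) (.nd (nat_lit 10) 
(.lf (nat_lit 19798875) (dlOf (nat_lit 1) (nat_lit 0x4004000200089dbc82))) 
(.lf (nat_lit 19797851) (dlOf (nat_lit 1) (nat_lit 0x8002000400089da302))))) (.nd (nat_lit 8) 
(.nd (nat_lit 9) (.lf (nat_lit 19797211) (dlOf (nat_lit 1) (nat_lit 0x1c00189d9501))) 
(.lf (nat_lit 19792603) (dlOf (nat_lit 1) (nat_lit 0x200089d2101)))) 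
(.lf (nat_lit 19794907) (dlOf (nat_lit 1) (nat_lit 0x100080008002000600089d5e03))))))) 
(.nd (nat_lit 6) (.nd (nat_lit 15) (.nd (nat_lit 10) (.nd (nat_lit 7) 
(.lf (nat_lit 8259611) (dlOf (nat_lit 1) (nat_lit 0x4c00200100008514702))) (.nd (nat_lit 23) 
(.lf (nat_lit 20840603) (dlOf (nat_lit 1) (nat_lit 0x108008008c002001c00089e2b83))) 
(.lf (nat_lit 12451995) (dlOf (nat_lit 1) (nat_lit 0x4002000200086c0182))))) (.nd (nat_lit 8) 
(.nd (nat_lit 21) (.lf (nat_lit 48104603) (dlOf (nat_lit 1) (nat_lit 0x8004000a0009402b82))) 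
(.lf (nat_lit 1346241691) (dlOf (nat_lit 1) (nat_lit 0x120028e82b81)))) 
(.lf (nat_lit 8263579) (dlOf (nat_lit 1) (nat_lit 0x10800800040020026000851a303))))) 
(.nd (nat_lit 7) (.nd (nat_lit 21) (.nd (nat_lit 22) 
(.lf (nat_lit 27164699) (dlOf (nat_lit 1) (nat_lit 0x150004001c0018cb0482))) 
(.lf (nat_lit 22970395) (dlOf (nat_lit 1) (nat_lit 0x400400020008b40482)))) 
(.lf (nat_lit 473858075) (dlOf (nat_lit 5) (nat_lit 0x330b3001d850c00ec276015e13900690668000c42804d055801e8286008c0cd003e04b000d821400740ea00be073000180701990a1805004ec0914272025c0cd000178400020a1801584ec0002208000800400080008fc0102)))) 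
(.nd (nat_lit 21) (.nd (nat_lit 26) 
(.lf (nat_lit 1344176283) (dlOf (nat_lit 4) (nat_lit 0xe892c034c42600101e800cf0c70061860400742fe01ae04e000230700b4125801387b400203d000f21e3008b0ec801c8618030430200ac17f00da00000011448006871c0007c040088002001a0008490182))) 
(.lf (nat_lit 471761051) (dlOf (nat_lit 4) (nat_lit 0xe892c034c44600101e800cf0c6806185f000742f401ae04e000230700b4125801387b400203d000f21e3008b0ec801c85fc03042f800ac17a00da00000011448006871c0007c040088002001a0008490182)))) 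
(.nd (nat_lit 8) 
(.lf (nat_lit 12484763) (dlOf (nat_lit 2) (nat_lit 0x58a27c0008c040020002001200086c0182))) 
(.lf (nat_lit 8296347) (dlOf (nat_lit 1) (nat_lit 0x2001851a301))))))) (.nd (nat_lit 15) 
(.nd (nat_lit 8) (.nd (nat_lit 9) (.nd (nat_lit 21) 
(.lf (nat_lit 6377308379) (dlOf (nat_lit 1) (nat_lit 0x8002000200080c1c82))) 
(.lf (nat_lit 20840667) (dlOf (nat_lit 1) (nat_lit 0xe0004002c00089e3f02)))) 
(.lf (nat_lit 471732955) (dlOf (nat_lit 1) (nat_lit 0x200183d8c81)))) (.nd (nat_lit 9) 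
(.lf (nat_lit 8259035) (dlOf (nat_lit 1) (nat_lit 0x210008000400200320008513603))) 
(.nd (nat_lit 10) (.lf (nat_lit 69075931) (dlOf (nat_lit 1) (nat_lit 0x5c00188a2881))) 
(.lf (nat_lit 8261595) (dlOf (nat_lit 1) (nat_lit 0x20018517a81)))))) (.nd (nat_lit 21) 
(.nd (nat_lit 24) (.nd (nat_lit 26) 
(.lf (nat_lit 1344176347) (dlOf (nat_lit 1) (nat_lit 0x10008001800200080008490483))) 
(.lf (nat_lit 6377341147) (dlOf (nat_lit 1) (nat_lit 0x300080018002000200080c1c83)))) 
(.lf (nat_lit 18776283) (dlOf (nat_lit 1) (nat_lit 0x50004000c0018970582)))) (.nd (nat_lit 7) 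
(.nd (nat_lit 10) 
(.lf (nat_lit 473858139) (dlOf (nat_lit 4) (nat_lit 0x19214c00c40a58065035c000160c02f429800e80d7000048200bc0a6005e835c0000008000400200020008fc0882))) 
(.lf (nat_lit 50234459) (dlOf (nat_lit 1) (nat_lit 0x4002000200094c2902)))) 
(.lf (nat_lit 8291803) (dlOf (nat_lit 1) (nat_lit 0x50008000400200040008513603))))))))) 
(.nd (nat_lit 15) (.nd (nat_lit 19) (.nd (nat_lit 28) (.nd (nat_lit 26) (.nd (nat_lit 20) 
(.nd (nat_lit 8) (.nd (nat_lit 9) 
(.lf (nat_lit 6442844219) (dlOf (nat_lit 2) (nat_lit 0xa00cc00024040038002003c00081d0b82))) 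
(.lf (nat_lit 134611515) (dlOf (nat_lit 4) (nat_lit 0x340620001d0200040310000e010001018800980440003408000800200080008091002)))) 
(.nd (nat_lit 6) (.lf (nat_lit 399163) (dlOf (nat_lit 1) (nat_lit 0x2002800a101))) 
(.lf (nat_lit 21365243) (dlOf (nat_lit 1) (nat_lit 0x4004000e0018a37802))))) (.nd (nat_lit 21) 
(.lf (nat_lit 9830459) (dlOf (nat_lit 1) (nat_lit 0x900080028002000e0008580483))) (.nd (nat_lit 22) 
(.lf (nat_lit 62259259) (dlOf (nat_lit 1) (nat_lit 0x28008001000200020009990783))) 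
(.lf (nat_lit 24510523) (dlOf (nat_lit 2) (nat_lit 0x120c1b00017018ba0b80)))))) (.nd (nat_lit 6) 
(.nd (nat_lit 7) (.nd (nat_lit 9) 
(.lf (nat_lit 3288727611) (dlOf (nat_lit 2) (nat_lit 0x540200003f0180d0b80))) 
(.lf (nat_lit 201720379) (dlOf (nat_lit 4) (nat_lit 0x340620001d0200040310000e010001018800980440003408000800200080008091002)))) 
(.lf (nat_lit 2349203643) (dlOf (nat_lit 1) (nat_lit 0x7c002000200081b0382)))) (.nd (nat_lit 7) 
(.lf (nat_lit 604373115) (dlOf (nat_lit 3) (nat_lit 0x220070007e0100060038003e00800b00080074002002e00081a0483))) 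
(.lf (nat_lit 604373243) (dlOf (nat_lit 1) (nat_lit 0x200281a0681)))))) (.nd (nat_lit 6) 
(.nd (nat_lit 27) (.nd (nat_lit 29) (.nd (nat_lit 30) 
(.lf (nat_lit 4563796027) (dlOf (nat_lit 1) (nat_lit 0x200180e1681))) 
(.lf (nat_lit 5637537851) (dlOf (nat_lit 1) (nat_lit 0x74004000c0008100482)))) (.nd (nat_lit 26) 
(.lf (nat_lit 4026925115) (dlOf (nat_lit 2) (nat_lit 0x540200003f0180d0b80))) 
(.lf (nat_lit 6241517627) (dlOf (nat_lit 1) (nat_lit 0x74004000c0008100482))))) (.nd (nat_lit 26) 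
(.nd (nat_lit 29) (.lf (nat_lit 4698013755) (dlOf (nat_lit 1) (nat_lit 0x200180e1681))) 
(.lf (nat_lit 5234884667) (dlOf (nat_lit 1) (nat_lit 0x700008130d01)))) (.nd (nat_lit 7) 
(.lf (nat_lit 5838864443) (dlOf (nat_lit 2) (nat_lit 0xa00cc00024040038002003c00081d0b82))) 
(.lf (nat_lit 473302203) (dlOf (nat_lit 1) (nat_lit 0x20018e92c81)))))) (.nd (nat_lit 9) 
(.nd (nat_lit 7) (.nd (nat_lit 8) 
(.lf (nat_lit 872809595) (dlOf (nat_lit 1) (nat_lit 0x3200180e2a81))) 
(.lf (nat_lit 4228252027) (dlOf (nat_lit 1) (nat_lit 0x40018090781)))) 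
(.lf (nat_lit 1476788475) (dlOf (nat_lit 1) (nat_lit 0x200281a0681)))) (.nd (nat_lit 20) 
(.nd (nat_lit 26) (.lf (nat_lit 5773853691) (dlOf (nat_lit 1) (nat_lit 0x4004006200080e2882))) 
(.lf (nat_lit 6377833467) (dlOf (nat_lit 1) (nat_lit 0x4004006400080e2882)))) 
(.lf (nat_lit 3493200891) (dlOf (nat_lit 1) (nat_lit 0x200180f2881))))))) (.nd (nat_lit 6) 
(.nd (nat_lit 20) (.nd (nat_lit 7) (.nd (nat_lit 8) 
(.lf (nat_lit 917563) (dlOf (nat_lit 4) (nat_lit 0x407c400342e8000816a00220578010028c002a41400543e200281740007b8200180f8800c05d0001ea0800c000400360018030d02))) 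
(.nd (nat_lit 9) (.lf (nat_lit 19795259) (dlOf (nat_lit 1) (nat_lit 0xc00289d6901))) 
(.lf (nat_lit 19794747) (dlOf (nat_lit 1) (nat_lit 0x200089d5c01))))) (.nd (nat_lit 9) 
(.lf (nat_lit 30277819) (dlOf (nat_lit 1) (nat_lit 0x400400020008e30482))) 
(.lf (nat_lit 2754481851) (dlOf (nat_lit 4) (nat_lit 0x606900220220000c81000c01000004e0400e80cc000205e0024020000080880004c100008004000200080f7282))))) 
(.nd (nat_lit 7) (.nd (nat_lit 10) (.nd (nat_lit 26) 
(.lf (nat_lit 4063291) (dlOf (nat_lit 2) (nat_lit 0x18b7300047018270b80))) 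
(.lf (nat_lit 2755526715) (dlOf (nat_lit 1) (nat_lit 0x400181b0001)))) 
(.lf (nat_lit 1344148539) (dlOf (nat_lit 1) (nat_lit 0xc00083d9281)))) (.nd (nat_lit 8) 
(.lf (nat_lit 5773328571) (dlOf (nat_lit 1) (nat_lit 0x4002000200080c1702))) 
(.lf (nat_lit 8262075) (dlOf (nat_lit 1) (nat_lit 0x400200020008518582)))))) (.nd (nat_lit 7) 
(.nd (nat_lit 9) (.nd (nat_lit 10) 
(.lf (nat_lit 12451963) (dlOf (nat_lit 3) (nat_lit 0x1b4e2a0021102002a715001078186c0080))) 
(.lf (nat_lit 471733371) (dlOf (nat_lit 1) (nat_lit 0x4004000200183d9482)))) (.nd (nat_lit 11) 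
(.lf (nat_lit 19796603) (dlOf (nat_lit 1) (nat_lit 0x45800801c0002008a00089d8a03))) 
(.lf (nat_lit 54397563) (dlOf (nat_lit 1) (nat_lit 0x40019655401))))) (.nd (nat_lit 8) 
(.nd (nat_lit 10) (.lf (nat_lit 19798267) (dlOf (nat_lit 1) (nat_lit 0x200089da981))) 
(.lf (nat_lit 2754481403) (dlOf (nat_lit 1) (nat_lit 0x200080f6601)))) (.nd (nat_lit 9) 
(.lf (nat_lit 19797499) (dlOf (nat_lit 1) (nat_lit 0x200189d9c01))) 
(.lf (nat_lit 38667259) (dlOf (nat_lit 1) (nat_lit 0x400400020019132882)))))))) (.nd (nat_lit 6) 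
(.nd (nat_lit 9) (.nd (nat_lit 30) (.nd (nat_lit 22) (.nd (nat_lit 32) (.nd (nat_lit 21) 
(.nd (nat_lit 8) (.lf (nat_lit 60194875) (dlOf (nat_lit 1) (nat_lit 0x8008000400200020009840003))) 
(.lf (nat_lit 2751895867) (dlOf (nat_lit 1) (nat_lit 0xe40040052000800ab82)))) (.nd (nat_lit 7) 
(.lf (nat_lit 2523195) (dlOf (nat_lit 2) (nat_lit 0x485a80058000000000400040018170b81))) 
(.lf (nat_lit 70157499) (dlOf (nat_lit 1) (nat_lit 0x400200020008f42c82))))) (.nd (nat_lit 27) 
(.nd (nat_lit 31) 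
(.lf (nat_lit 4295393339) (dlOf (nat_lit 3) (nat_lit 0x1c0054010000400040040012015000f0010000fc100018008000c002001600081c0b83))) 
(.lf (nat_lit 6442876987) (dlOf (nat_lit 1) (nat_lit 0x4002000200081f1602)))) 
(.lf (nat_lit 4429611067) (dlOf (nat_lit 3) (nat_lit 0x1c0050010000400040040012014000f0010000fc100018008000c002001600081c0b83))))) 
(.nd (nat_lit 7) (.nd (nat_lit 19) 
(.lf (nat_lit 29786171) (dlOf (nat_lit 1) (nat_lit 0x20008e30001))) 
(.lf (nat_lit 38699067) (dlOf (nat_lit 1) (nat_lit 0x460019130001)))) 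
(.lf (nat_lit 21397691) (dlOf (nat_lit 1) (nat_lit 0x60018a31a01))))) (.nd (nat_lit 7) 
(.nd (nat_lit 26) (.nd (nat_lit 28) 
(.lf (nat_lit 5906006075) (dlOf (nat_lit 1) (nat_lit 0x280028180781))) 
(.lf (nat_lit 4026957883) (dlOf (nat_lit 1) (nat_lit 0x4004000200080e0d82)))) (.nd (nat_lit 27) 
(.lf (nat_lit 3288760379) (dlOf (nat_lit 1) (nat_lit 0x4004000200080e0d82))) 
(.lf (nat_lit 5838897211) (dlOf (nat_lit 1) (nat_lit 0x4002000200081f1602))))) (.nd (nat_lit 8) 
(.lf (nat_lit 5773361339) (dlOf (nat_lit 1) (nat_lit 0x4002000200080c1702))) (.nd (nat_lit 26) 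
(.lf (nat_lit 3221651899) (dlOf (nat_lit 2) (nat_lit 0xe5006801c002c0000008000c002000a0008170882))) 
(.lf (nat_lit 3959849403) (dlOf (nat_lit 2) (nat_lit 0xe5006801c002c0000008000c002000a0008170882))))))) 
(.nd (nat_lit 20) (.nd (nat_lit 11) (.nd (nat_lit 19) (.nd (nat_lit 26) 
(.lf (nat_lit 134644283) (dlOf (nat_lit 6) (nat_lit 0x5a058003c02a00458104009007a0060031028201800c480b0013c02805220110048008000c800c0003a2c001006204ae030004301601310044000381000280b00030054004e020800100f400b406204f8030016b016000480500a30022000a0100000d0a00020188000140830180c400000040164004062a0018091002))) 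
(.lf (nat_lit 201753147) (dlOf (nat_lit 6) (nat_lit 0x5a059003c02a80458104009007a0060031028201800c480b0013c02805220110048008000c80100003a2c001006204ae030004301601310044000381000280b20030055004e020800100f400b406204f8030016b016000480500a30022000a0100000d0a00020188000140830180c400000040164004062a0018091002)))) 
(.lf (nat_lit 3047995) (dlOf (nat_lit 2) (nat_lit 0x1200380004c04000c00400020008201002)))) 
(.nd (nat_lit 22) (.lf (nat_lit 42371643) (dlOf (nat_lit 1) (nat_lit 0x400200020009245202))) 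
(.lf (nat_lit 38177339) (dlOf (nat_lit 1) (nat_lit 0x20029135201))))) (.nd (nat_lit 19) 
(.nd (nat_lit 8) (.lf (nat_lit 51808827) (dlOf (nat_lit 1) (nat_lit 0xa8008001400200360009515203))) 
(.lf (nat_lit 20354875) (dlOf (nat_lit 2) (nat_lit 0x55770000fc0800100080008002000200089da103)))) 
(.nd (nat_lit 26) 
(.lf (nat_lit 3493757499) (dlOf (nat_lit 3) (nat_lit 0x4e06800080318000981002881a0000c0c60002404000200181b1001))) 
(.lf (nat_lit 2755559995) (dlOf (nat_lit 3) (nat_lit 0x4e06800080318000981002881a0000c0c60002404000200181b1001))))))) 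
(.nd (nat_lit 7) (.nd (nat_lit 8) (.nd (nat_lit 28) (.nd (nat_lit 19) 
(.lf (nat_lit 21397627) (dlOf (nat_lit 1) (nat_lit 0x8008005c00200260008a30c83))) 
(.lf (nat_lit 12484731) (dlOf (nat_lit 3) (nat_lit 0x278e2a00211020044715001078186c0080)))) 
(.nd (nat_lit 26) (.lf (nat_lit 1344176251) (dlOf (nat_lit 2) (nat_lit 0x68249000fc018490080))) 
(.lf (nat_lit 471761019) (dlOf (nat_lit 2) (nat_lit 0x68249000f3018490080))))) (.nd (nat_lit 28) 
(.nd (nat_lit 9) 
(.lf (nat_lit 3221651835) (dlOf (nat_lit 11) (nat_lit 0x3808c002a04500442020025023000c01140110408002408c00380450044082001f02300008114010fa08010808c007c0450040802005e023001f01140101e0801b408c006c0450040702006b023001a81140101a0801dc08c007604500404820029023001ff4080130008004800200700008170783))) 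
(.lf (nat_lit 604408699) (dlOf (nat_lit 4) (nat_lit 0xd01a000600000047608004407a00100340007015000400800020018001000900080000008b83800280f40018054000000400020028205c01)))) 
(.nd (nat_lit 19) 
(.lf (nat_lit 805732731) (dlOf (nat_lit 9) (nat_lit 0x1102b002210080180158011060401140ac008810200c80560054009802040100330158013c0260080f04012205600550098020381003e015800d40260080d0400fe05600570098020241002300080028002007000081a0783))) 
(.lf (nat_lit 5772312955) (dlOf (nat_lit 1) (nat_lit 0x70008002c00200720008091003)))))) 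
(.nd (nat_lit 26) (.nd (nat_lit 24) (.nd (nat_lit 28) 
(.lf (nat_lit 134644219) (dlOf (nat_lit 5) (nat_lit 0xda04a008601780086810007812801e805e0021804001e04a009601780085c1000980c400236040050004004c0008090d82))) 
(.lf (nat_lit 3624305147) (dlOf (nat_lit 2) (nat_lit 0x1204400527818157800)))) (.nd (nat_lit 9) 
(.lf (nat_lit 21398011) (dlOf (nat_lit 8) (nat_lit 0x20000005278100500000029180800b00000148a04003c00000a3c02006211100100000028e81000180000145404001800000a280200460018a37801))) 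
(.lf (nat_lit 20356091) (dlOf (nat_lit 1) (nat_lit 0x1f80080004002007000089dbf03))))) 
(.nd (nat_lit 9) (.nd (nat_lit 19) (.nd (nat_lit 29) 
(.lf (nat_lit 201753083) (dlOf (nat_lit 5) (nat_lit 0xd0128018c05e0021e04002c02f0010e81004801780086c0803200c4001ee04003c004003e0008090d82))) 
(.lf (nat_lit 2886107643) (dlOf (nat_lit 3) (nat_lit 0x1680000002e0200da00000016818157e00)))) 
(.lf (nat_lit 2752414203) (dlOf (nat_lit 5) (nat_lit 0x4ea248002d1230000b81013b0920009448c0002d040314248000138100970fc000088080178008029000200080008017e03)))) 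
(.nd (nat_lit 20) 
(.lf (nat_lit 6375769083) (dlOf (nat_lit 2) (nat_lit 0x24050007ef0200060018002881))) 
(.lf (nat_lit 473334779) (dlOf (nat_lit 1) (nat_lit 0x60008ef2881))))))))))) (.nd (nat_lit 15) 
(.nd (nat_lit 5) (.nd (nat_lit 19) (.nd (nat_lit 28) (.nd (nat_lit 31) (.nd (nat_lit 18) 
(.nd (nat_lit 6) (.nd (nat_lit 9) (.nd (nat_lit 7) (.nd (nat_lit 22) 
(.lf (nat_lit 1073938459) (dlOf (nat_lit 1) (nat_lit 0x20028030881))) 
(.lf (nat_lit 63111195) (dlOf (nat_lit 1) (nat_lit 0x200299e0101)))) 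
(.lf (nat_lit 3342491) (dlOf (nat_lit 1) (nat_lit 0x20028200181)))) (.nd (nat_lit 20) 
(.nd (nat_lit 29) (.lf (nat_lit 5503126171) (dlOf (nat_lit 1) (nat_lit 0x400400020008095582))) 
(.lf (nat_lit 4966255259) (dlOf (nat_lit 1) (nat_lit 0x20028095581)))) 
(.lf (nat_lit 36899483) (dlOf (nat_lit 1) (nat_lit 0x20019075581))))) (.nd (nat_lit 7) 
(.nd (nat_lit 8) (.lf (nat_lit 4496490587) (dlOf (nat_lit 1) (nat_lit 0x20028090681))) 
(.lf (nat_lit 4362273115) (dlOf (nat_lit 7) (nat_lit 0x4a408e003002d00034820124023801800b4000d008000408e00065020002051012802380128114007805a0004408023e0470002101001b023000090081a80008002c00208f20008014e03)))) 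
(.nd (nat_lit 9) (.lf (nat_lit 28508379) (dlOf (nat_lit 1) (nat_lit 0x50004000c0018da0582))) 
(.lf (nat_lit 8590043) (dlOf (nat_lit 1) (nat_lit 0x10008000400200020008518c83)))))) 
(.nd (nat_lit 6) (.nd (nat_lit 7) (.nd (nat_lit 20) (.nd (nat_lit 21) 
(.lf (nat_lit 1074200603) (dlOf (nat_lit 1) (nat_lit 0x1000280d0881))) 
(.lf (nat_lit 48693275) (dlOf (nat_lit 3) (nat_lit 0x4166d0002081001bb000000f4080008008000c00200020009420103)))) 
(.lf (nat_lit 9895963) (dlOf (nat_lit 2) (nat_lit 0x999c40004804001c00400060008590402)))) 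
(.nd (nat_lit 10) 
(.lf (nat_lit 3604635) (dlOf (nat_lit 3) (nat_lit 0x24098e005c4bd0093254004812580008c10018c98e00504bd0063254003192580008a10000400200040008200182))) 
(.lf (nat_lit 42402971) (dlOf (nat_lit 2) (nat_lit 0x96b08002b3a40011008000c004001c0009242b82))))) 
(.nd (nat_lit 9) (.nd (nat_lit 26) 
(.lf (nat_lit 1611071579) (dlOf (nat_lit 2) (nat_lit 0x601a800028080040008002c002000600080d0683))) 
(.lf (nat_lit 738656347) (dlOf (nat_lit 2) (nat_lit 0x601a800028080040008002c002000600080d0683)))) 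
(.nd (nat_lit 22) (.lf (nat_lit 62327387) (dlOf (nat_lit 1) (nat_lit 0xc004000200099a5302))) 
(.lf (nat_lit 41355867) (dlOf (nat_lit 2) (nat_lit 0x1840000000c019245300))))))) (.nd (nat_lit 9) 
(.nd (nat_lit 6) (.nd (nat_lit 29) (.nd (nat_lit 18) 
(.lf (nat_lit 3288530971) (dlOf (nat_lit 1) (nat_lit 0x40018070581))) 
(.lf (nat_lit 6510018587) (dlOf (nat_lit 2) (nat_lit 0x50000028cc080008008000c00200020008180483)))) 
(.nd (nat_lit 8) 
(.lf (nat_lit 2755854363) (dlOf (nat_lit 3) (nat_lit 0x4400001daa02003e00000ed40181b0000))) 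
(.lf (nat_lit 2818776347) (dlOf (nat_lit 1) (nat_lit 0xa80040020000812c602))))) (.nd (nat_lit 8) 
(.lf (nat_lit 2818776155) (dlOf (nat_lit 1) (nat_lit 0x2001812c001))) (.nd (nat_lit 18) 
(.lf (nat_lit 3825402203) (dlOf (nat_lit 2) (nat_lit 0xf806c0005004003400400060008154e82))) 
(.lf (nat_lit 2755068251) (dlOf (nat_lit 1) (nat_lit 0x460028104e81)))))) (.nd (nat_lit 10) 
(.nd (nat_lit 7) (.lf (nat_lit 2818773531) (dlOf (nat_lit 1) (nat_lit 0x20008128781))) 
(.nd (nat_lit 27) (.lf (nat_lit 2684556187) (dlOf (nat_lit 1) (nat_lit 0x200180a9101))) 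
(.lf (nat_lit 3355644827) (dlOf (nat_lit 1) (nat_lit 0x4004000200180a9102))))) (.nd (nat_lit 6) 
(.nd (nat_lit 12) (.lf (nat_lit 2751661723) (dlOf (nat_lit 1) (nat_lit 0x60008003a81))) 
(.lf (nat_lit 3422754459) (dlOf (nat_lit 1) (nat_lit 0x10004000400080a9f02)))) (.nd (nat_lit 7) 
(.lf (nat_lit 2214794843) (dlOf (nat_lit 1) (nat_lit 0x4004001200180a9c02))) 
(.lf (nat_lit 2885879515) (dlOf (nat_lit 1) (nat_lit 0x9c0018143a81)))))))) (.nd (nat_lit 27) 
(.nd (nat_lit 26) (.nd (nat_lit 30) (.nd (nat_lit 7) (.nd (nat_lit 10) 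
(.lf (nat_lit 2952986651) (dlOf (nat_lit 1) (nat_lit 0x38008000400200040008080503))) 
(.lf (nat_lit 268635163) (dlOf (nat_lit 1) (nat_lit 0x4004000200080e6002)))) 
(.lf (nat_lit 4563602075) (dlOf (nat_lit 1) (nat_lit 0x400400020008095582)))) (.nd (nat_lit 9) 
(.nd (nat_lit 18) (.lf (nat_lit 4026728475) (dlOf (nat_lit 1) (nat_lit 0x40018070581))) 
(.lf (nat_lit 5637603355) (dlOf (nat_lit 2) (nat_lit 0x2806800f560400f4002002a0008120a02)))) 
(.lf (nat_lit 5637342747) (dlOf (nat_lit 1) (nat_lit 0x2c00280d3701))))) (.nd (nat_lit 6) 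
(.nd (nat_lit 10) (.nd (nat_lit 18) 
(.lf (nat_lit 1946353691) (dlOf (nat_lit 1) (nat_lit 0x20028030881))) 
(.lf (nat_lit 1946615835) (dlOf (nat_lit 1) (nat_lit 0x1000280d0881)))) (.nd (nat_lit 7) 
(.lf (nat_lit 4630711323) (dlOf (nat_lit 1) (nat_lit 0x400400020008096002))) 
(.lf (nat_lit 3556971931) (dlOf (nat_lit 1) (nat_lit 0x80018129901))))) (.nd (nat_lit 8) 
(.lf (nat_lit 5704450139) (dlOf (nat_lit 10) (nat_lit 0x2100d004f8064013402e0030016005f004800158280020064000aa0401a80320005402010c0190002981002900c800148080160028000260400680140001202005000a00008810038005000040080300008053400202840008080683))) 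
(.nd (nat_lit 9) (.lf (nat_lit 3556970843) (dlOf (nat_lit 1) (nat_lit 0x16a0028128381))) 
(.lf (nat_lit 3556970331) (dlOf (nat_lit 1) (nat_lit 0x400400020008127782))))))) (.nd (nat_lit 29) 
(.nd (nat_lit 6) (.nd (nat_lit 7) (.nd (nat_lit 26) 
(.lf (nat_lit 1476591643) (dlOf (nat_lit 1) (nat_lit 0x280018090481))) 
(.lf (nat_lit 3691184155) (dlOf (nat_lit 4) (nat_lit 0x600e002a540800280740151004017c03a003001c0046002000000180e2800808ac002037e0008090483)))) 
(.nd (nat_lit 10) (.lf (nat_lit 4764926107) (dlOf (nat_lit 1) (nat_lit 0x400400020008090502))) 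
(.lf (nat_lit 3624078491) (dlOf (nat_lit 1) (nat_lit 0x8008000400200020008146283))))) 
(.nd (nat_lit 10) (.lf (nat_lit 2550595803) (dlOf (nat_lit 1) (nat_lit 0x200281b0481))) 
(.lf (nat_lit 3624078555) (dlOf (nat_lit 1) (nat_lit 0x558008015c00201100008146483))))) 
(.nd (nat_lit 8) (.nd (nat_lit 9) (.nd (nat_lit 21) 
(.lf (nat_lit 6308429915) (dlOf (nat_lit 10) (nat_lit 0x2100d004f8064013402e0030016005f004800158280020064000aa0401a80320005402010c0190002981002900c800148080160028000260400680140001202005000a00008810038005000040080300008053400202840008080683))) 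
(.lf (nat_lit 1008926811) (dlOf (nat_lit 1) (nat_lit 0x800400020008fe0882)))) 
(.lf (nat_lit 2013464155) (dlOf (nat_lit 6) (nat_lit 0x1d0130001340806f80980008e04035404c0004602011c02600022810086013000110080020008001c00200260008093903)))) 
(.nd (nat_lit 31) 
(.lf (nat_lit 939721051) (dlOf (nat_lit 2) (nat_lit 0x1680980004004002c00200220008154e02))) 
(.lf (nat_lit 3087204699) (dlOf (nat_lit 1) (nat_lit 0x20018154e01)))))))) (.nd (nat_lit 21) 
(.nd (nat_lit 18) (.nd (nat_lit 26) (.nd (nat_lit 6) (.nd (nat_lit 7) (.nd (nat_lit 28) 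
(.lf (nat_lit 537591835) (dlOf (nat_lit 2) (nat_lit 0x3c07e01c0302002c00080c0a81))) 
(.lf (nat_lit 1342898203) (dlOf (nat_lit 1) (nat_lit 0x400200020008100982)))) 
(.lf (nat_lit 43713691) (dlOf (nat_lit 1) (nat_lit 0x4004000400092a2b82)))) (.nd (nat_lit 7) 
(.lf (nat_lit 537591899) (dlOf (nat_lit 1) (nat_lit 0x3800800b0002008e00080c1a83))) 
(.lf (nat_lit 9109723) (dlOf (nat_lit 1) (nat_lit 0x40018523f01))))) (.nd (nat_lit 27) 
(.nd (nat_lit 28) (.lf (nat_lit 4362797083) (dlOf (nat_lit 2) (nat_lit 0x7a033000d1818100480))) 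
(.lf (nat_lit 1410007067) (dlOf (nat_lit 2) (nat_lit 0x3c07e0189b02002c00080c0a81)))) 
(.nd (nat_lit 29) (.lf (nat_lit 470482971) (dlOf (nat_lit 1) (nat_lit 0x400200020008100982))) 
(.lf (nat_lit 4228579355) (dlOf (nat_lit 2) (nat_lit 0x7a032000d9818100480)))))) (.nd (nat_lit 7) 
(.nd (nat_lit 6) (.nd (nat_lit 20) (.nd (nat_lit 26) 
(.lf (nat_lit 983067) (dlOf (nat_lit 1) (nat_lit 0x400400020018040482))) 
(.lf (nat_lit 470745115) (dlOf (nat_lit 2) (nat_lit 0x80d40000000800180080030002001c0008170103)))) 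
(.lf (nat_lit 6225947) (dlOf (nat_lit 1) (nat_lit 0xc0008420001)))) (.nd (nat_lit 8) 
(.lf (nat_lit 51315803) (dlOf (nat_lit 1) (nat_lit 0x20029512901))) 
(.lf (nat_lit 3490644315) (dlOf (nat_lit 2) (nat_lit 0x786600005004001800200020008014e82))))) 
(.nd (nat_lit 26) (.nd (nat_lit 28) 
(.lf (nat_lit 2031771) (dlOf (nat_lit 2) (nat_lit 0x132bdf002e59080522a60019d5060126a2b00023058150180))) 
(.lf (nat_lit 1344209051) (dlOf (nat_lit 2) (nat_lit 0xde11e00023018490180)))) (.nd (nat_lit 6) 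
(.lf (nat_lit 471793819) (dlOf (nat_lit 2) (nat_lit 0xde10e00023018490180))) 
(.lf (nat_lit 68092123) (dlOf (nat_lit 2) (nat_lit 0x300000000004002c002005000083e0582))))))) 
(.nd (nat_lit 7) (.nd (nat_lit 18) (.nd (nat_lit 22) (.nd (nat_lit 23) 
(.lf (nat_lit 472580123) (dlOf (nat_lit 17) (nat_lit 0x88530000aa04038429801a20d70002a02017403e00011c0803f81f401ec0f80004604005a07c0002281002503e805b01f00006a0800300fa0003402006607d00c203e0000cc1001e053403c40f80002404002e14d00d303e00008010023853403d00f80001f04004814d004f03e804f81f00003a0c019429a010a07d012b03e0000701800881f401700f8000150401ee14d003206c804b81f406240f80001108009814d008503e808681f0000140c009c002005a00089c0102))) 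
(.lf (nat_lit 11206683) (dlOf (nat_lit 2) (nat_lit 0x6e1480048e04000c00200060008670482)))) 
(.lf (nat_lit 15400987) (dlOf (nat_lit 1) (nat_lit 0x80080004002000200087f0483)))) 
(.nd (nat_lit 20) (.nd (nat_lit 6) (.nd (nat_lit 22) 
(.lf (nat_lit 53411867) (dlOf (nat_lit 1) (nat_lit 0x14004000200095c0402))) 
(.lf (nat_lit 15663131) (dlOf (nat_lit 4) (nat_lit 0x493a0000360400789ae000170200124d6000824f0000581001c8008010000200020008810603)))) 
(.lf (nat_lit 3080539) (dlOf (nat_lit 1) (nat_lit 0x17800400820008200682)))) (.nd (nat_lit 6) 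
(.nd (nat_lit 24) 
(.lf (nat_lit 473890843) (dlOf (nat_lit 2) (nat_lit 0x50028600160cd00017828fc0100))) 
(.lf (nat_lit 20906011) (dlOf (nat_lit 1) (nat_lit 0x4002000200089f0102)))) 
(.lf (nat_lit 473890907) (dlOf (nat_lit 5) (nat_lit 0x2ae14c003a0a580ab835c00941ac0000b08025414c012a06b80002410024853001241ae0000804025a14c012c06b80000010054800800b000203400008fc0883)))))) 
(.nd (nat_lit 20) (.nd (nat_lit 10) (.nd (nat_lit 6) (.nd (nat_lit 9) 
(.lf (nat_lit 32178331) (dlOf (nat_lit 1) (nat_lit 0x6c002001e0008ef0502))) 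
(.lf (nat_lit 19862171) (dlOf (nat_lit 1) (nat_lit 0x80080004002000200089d8c83)))) 
(.lf (nat_lit 3492742107) (dlOf (nat_lit 1) (nat_lit 0x600180f2881)))) (.nd (nat_lit 11) 
(.lf (nat_lit 1881867419) (dlOf (nat_lit 1) (nat_lit 0x80080024002000600090a2b83))) 
(.nd (nat_lit 24) (.lf (nat_lit 2754546843) (dlOf (nat_lit 1) (nat_lit 0x14002000200080f6282))) 
(.lf (nat_lit 19860635) (dlOf (nat_lit 1) (nat_lit 0x4004000200089d6282)))))) (.nd (nat_lit 6) 
(.nd (nat_lit 8) (.nd (nat_lit 9) 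
(.lf (nat_lit 20649115) (dlOf (nat_lit 1) (nat_lit 0x8004000200089d9502))) 
(.lf (nat_lit 8324763) (dlOf (nat_lit 3) (nat_lit 0xc63c000b301001631e000594080068008005400200080008513a83)))) 
(.lf (nat_lit 8329115) (dlOf (nat_lit 1) (nat_lit 0x2002851a301)))) (.nd (nat_lit 12) 
(.lf (nat_lit 8324571) (dlOf (nat_lit 1) (nat_lit 0x3a0008000400200060008513603))) 
(.lf (nat_lit 8328667) (dlOf (nat_lit 1) (nat_lit 0x4002002a0008519b02))))))))) (.nd (nat_lit 6) 
(.nd (nat_lit 19) (.nd (nat_lit 28) (.nd (nat_lit 23) (.nd (nat_lit 9) (.nd (nat_lit 26) 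
(.nd (nat_lit 18) (.lf (nat_lit 2281898043) (dlOf (nat_lit 1) (nat_lit 0x400180a0001))) 
(.lf (nat_lit 24576059) (dlOf (nat_lit 1) (nat_lit 0x2c004000a0008ba0b82)))) (.nd (nat_lit 8) 
(.lf (nat_lit 2886139963) (dlOf (nat_lit 1) (nat_lit 0x600018160701))) 
(.lf (nat_lit 2751928635) (dlOf (nat_lit 1) (nat_lit 0xe0008002c002002a000800ab83))))) 
(.nd (nat_lit 27) (.nd (nat_lit 7) 
(.lf (nat_lit 36899387) (dlOf (nat_lit 1) (nat_lit 0x620009075201))) 
(.lf (nat_lit 1677920187) (dlOf (nat_lit 1) (nat_lit 0x400200020008114382)))) (.nd (nat_lit 29) 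
(.lf (nat_lit 5503126203) (dlOf (nat_lit 1) (nat_lit 0x400400020008095782))) 
(.lf (nat_lit 4966255291) (dlOf (nat_lit 1) (nat_lit 0x20028095781)))))) (.nd (nat_lit 20) 
(.nd (nat_lit 25) (.nd (nat_lit 7) 
(.lf (nat_lit 12779579) (dlOf (nat_lit 2) (nat_lit 0x91d300118e2a0002e04000400286e0b81))) 
(.lf (nat_lit 8587195) (dlOf (nat_lit 1) (nat_lit 0x400400020008514382)))) (.nd (nat_lit 18) 
(.lf (nat_lit 46334011) (dlOf (nat_lit 1) (nat_lit 0x20029380001))) 
(.lf (nat_lit 46596155) (dlOf (nat_lit 1) (nat_lit 0x10004001c0009380002))))) (.nd (nat_lit 7) 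
(.nd (nat_lit 8) (.nd (nat_lit 9) 
(.lf (nat_lit 43188283) (dlOf (nat_lit 1) (nat_lit 0xc00292a0001))) 
(.lf (nat_lit 11731515) (dlOf (nat_lit 5) (nat_lit 0x67f50001301003d3f8800088080009fc40003e0400080000001a02000a00086c1001)))) 
(.lf (nat_lit 9634107) (dlOf (nat_lit 1) (nat_lit 0x800200060008574c02)))) 
(.lf (nat_lit 14090427) (dlOf (nat_lit 1) (nat_lit 0x400200020008750382)))))) (.nd (nat_lit 9) 
(.nd (nat_lit 18) (.nd (nat_lit 26) (.nd (nat_lit 22) (.nd (nat_lit 27) 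
(.lf (nat_lit 4563599419) (dlOf (nat_lit 1) (nat_lit 0x40028090001))) 
(.lf (nat_lit 6308429883) (dlOf (nat_lit 2) (nat_lit 0x9801900058818080480)))) 
(.lf (nat_lit 1346568251) (dlOf (nat_lit 1) (nat_lit 0xa0018fd0781)))) (.nd (nat_lit 7) 
(.lf (nat_lit 5704450107) (dlOf (nat_lit 2) (nat_lit 0x9801900058818080480))) 
(.lf (nat_lit 3556972731) (dlOf (nat_lit 1) (nat_lit 0x80040008001812a882))))) (.nd (nat_lit 26) 
(.nd (nat_lit 31) (.lf (nat_lit 1476853819) (dlOf (nat_lit 1) (nat_lit 0x20028280001))) 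
(.lf (nat_lit 3624337467) (dlOf (nat_lit 1) (nat_lit 0x600018160701)))) 
(.lf (nat_lit 1409744955) (dlOf (nat_lit 1) (nat_lit 0x60018090001))))) (.nd (nat_lit 29) 
(.nd (nat_lit 7) (.nd (nat_lit 10) 
(.lf (nat_lit 1342374459) (dlOf (nat_lit 1) (nat_lit 0x8008000400200020008018203))) 
(.lf (nat_lit 5637342779) (dlOf (nat_lit 2) (nat_lit 0x6c03a0002d02003000280d3781)))) 
(.lf (nat_lit 4563602107) (dlOf (nat_lit 1) (nat_lit 0x400400020008095782)))) (.nd (nat_lit 26) 
(.lf (nat_lit 1879245371) (dlOf (nat_lit 2) (nat_lit 0x1843000044040008004000200080c1002))) 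
(.nd (nat_lit 30) 
(.lf (nat_lit 1006830139) (dlOf (nat_lit 2) (nat_lit 0x1845400044040008004000200080c1002))) 
(.lf (nat_lit 4228055611) (dlOf (nat_lit 1) (nat_lit 0x40002002c0008018202)))))))) 
(.nd (nat_lit 20) (.nd (nat_lit 18) (.nd (nat_lit 21) (.nd (nat_lit 26) (.nd (nat_lit 22) 
(.lf (nat_lit 134938683) (dlOf (nat_lit 2) (nat_lit 0x2003c00000040018002000400080e0d82))) 
(.lf (nat_lit 46858299) (dlOf (nat_lit 2) (nat_lit 0x32a5001d10080008008000400200020009380003)))) 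
(.nd (nat_lit 27) (.lf (nat_lit 1410007099) (dlOf (nat_lit 2) (nat_lit 0x640520002c0180c1400))) 
(.lf (nat_lit 202047547) (dlOf (nat_lit 2) (nat_lit 0x2003800000040018002000400080e0d82))))) 
(.nd (nat_lit 23) (.nd (nat_lit 29) 
(.lf (nat_lit 472580155) (dlOf (nat_lit 2) (nat_lit 0x1814d004403e805e01f00001e0c0050002001400089c0582))) 
(.lf (nat_lit 1009451067) (dlOf (nat_lit 1) (nat_lit 0xa0029160001)))) 
(.lf (nat_lit 11206715) (dlOf (nat_lit 1) (nat_lit 0x20028670d81))))) (.nd (nat_lit 7) 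
(.nd (nat_lit 8) 
(.lf (nat_lit 13566011) (dlOf (nat_lit 3) (nat_lit 0x542d100050810015a910002740800300080008002002e0008730b83))) 
(.nd (nat_lit 9) (.lf (nat_lit 3492747579) (dlOf (nat_lit 1) (nat_lit 0x4004000200080fab82))) 
(.lf (nat_lit 3492742971) (dlOf (nat_lit 1) (nat_lit 0x480080008002000600080f3e03))))) 
(.nd (nat_lit 8) (.lf (nat_lit 3080379) (dlOf (nat_lit 1) (nat_lit 0x200028200381))) 
(.lf (nat_lit 19863483) (dlOf (nat_lit 1) (nat_lit 0x200089da581)))))) (.nd (nat_lit 21) 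
(.nd (nat_lit 26) (.nd (nat_lit 9) 
(.lf (nat_lit 35323963) (dlOf (nat_lit 1) (nat_lit 0x6a0019010001))) 
(.lf (nat_lit 3491430971) (dlOf (nat_lit 5) (nat_lit 0x3c0f7006d07ac00d43d4005e1e300170ec8095074801383a200a41ca00340ab008605000003a2802a83d600261ea00ff0e900030744007c39401c21400000e0600010f7007507ac00183d4000a1e3013f0e9000407440038394000415600dc0a00000684833a87ac000000400fc004026a0018091002)))) 
(.nd (nat_lit 10) 
(.lf (nat_lit 2753233467) (dlOf (nat_lit 5) (nat_lit 0x3c100006d07f400d43f8005e1f500170f70095079c01383cc00a41df00340ad808605000003a2802a83fa00261fc00ff0f380030798007c3be01c21400000e060001100007507f400183f8000a1f5013f0f38004079800383be000415b00dc0a00000684833a87f4000000400fc004026a0018091002))) 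
(.lf (nat_lit 4095673915) (dlOf (nat_lit 2) (nat_lit 0x80580000a0180e3780))))) (.nd (nat_lit 7) 
(.nd (nat_lit 8) (.nd (nat_lit 9) 
(.lf (nat_lit 24838203) (dlOf (nat_lit 1) (nat_lit 0x400400020008bc1602))) 
(.lf (nat_lit 8324667) (dlOf (nat_lit 1) (nat_lit 0x14004000a0008513782)))) 
(.lf (nat_lit 8061755) (dlOf (nat_lit 1) (nat_lit 0x320028512301)))) (.nd (nat_lit 8) 
(.lf (nat_lit 8065723) (dlOf (nat_lit 1) (nat_lit 0x20028518c81))) 
(.lf (nat_lit 46074299) (dlOf (nat_lit 1) (nat_lit 0x400400020009384e82)))))))) (.nd (nat_lit 28) 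
(.nd (nat_lit 11) (.nd (nat_lit 26) (.nd (nat_lit 8) (.nd (nat_lit 7) (.nd (nat_lit 9) 
(.lf (nat_lit 19071099) (dlOf (nat_lit 1) (nat_lit 0x40018970481))) 
(.lf (nat_lit 43714171) (dlOf (nat_lit 1) (nat_lit 0x6200092a3981)))) 
(.lf (nat_lit 19071227) (dlOf (nat_lit 1) (nat_lit 0x20028970681)))) (.nd (nat_lit 9) 
(.lf (nat_lit 134414843) (dlOf (nat_lit 1) (nat_lit 0x3c0008017801))) (.nd (nat_lit 18) 
(.lf (nat_lit 50529275) (dlOf (nat_lit 1) (nat_lit 0x8004000200094c2882))) 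
(.lf (nat_lit 50791419) (dlOf (nat_lit 1) (nat_lit 0x600194c2881)))))) (.nd (nat_lit 19) 
(.nd (nat_lit 7) 
(.lf (nat_lit 2755854459) (dlOf (nat_lit 1) (nat_lit 0x80080004002000200081b0083))) 
(.nd (nat_lit 29) 
(.lf (nat_lit 4362273275) (dlOf (nat_lit 14) (nat_lit 0x6a0560003601001e0248001a008017817412a00ac095205400070248068810c07980820322040002b01f806d80e800bc072109802b004e0140183808004880340188014000338f000402e8049815c12a00ac095405400af0278067810c03a408403f004101ed02000a200fc03e0076029403a013101c807a00d0034806001b002f00c9017041d80ac0c5c05007b002703d801000a20068030c028000662e003e0490003281000f0268001380800181340009a04000c0920004502003e0490002101046802b000201240130080007a03f004b01c843c80ac0234034000410e022005d005d02c006a015c129c0ac07ea05504a202a0078013c00ec0900190043017b02101100104090c08004a603f02b401d817e00e809bc07204640340233018012100bc0b0805c107c02b03f8015006380a403b805000f20270400011006d0084017804002e401a001400c808480500007e7c00240920003d02026805602f002a00002c101ba800812840021bf80008017e03)))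 
(.lf (nat_lit 3825402363) (dlOf (nat_lit 1) (nat_lit 0xc00200040008157802))))) (.nd (nat_lit 7) 
(.lf (nat_lit 70190715) (dlOf (nat_lit 2) (nat_lit 0xc074000560200160008fa3981))) (.nd (nat_lit 18) 
(.lf (nat_lit 2753233403) (dlOf (nat_lit 4) (nat_lit 0x240ff8008780800287fc004360403003fa000f70200020028090d81))) 
(.lf (nat_lit 2752446971) (dlOf (nat_lit 2) (nat_lit 0x1d00b20000a818017e00))))))) (.nd (nat_lit 7) 
(.nd (nat_lit 8) (.nd (nat_lit 29) 
(.lf (nat_lit 1208158843) (dlOf (nat_lit 1) (nat_lit 0x400400020008095402))) 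
(.lf (nat_lit 1745029755) (dlOf (nat_lit 2) (nat_lit 0x1405a000000200140028095401)))) 
(.nd (nat_lit 18) (.lf (nat_lit 6107105659) (dlOf (nat_lit 1) (nat_lit 0x20018094e81))) 
(.lf (nat_lit 62851451) (dlOf (nat_lit 1) (nat_lit 0x1400199a4e81))))) (.nd (nat_lit 9) 
(.nd (nat_lit 10) (.nd (nat_lit 18) 
(.lf (nat_lit 37423611) (dlOf (nat_lit 1) (nat_lit 0x200190d4f81))) 
(.lf (nat_lit 62851579) (dlOf (nat_lit 1) (nat_lit 0x4002000200099a4f82)))) 
(.lf (nat_lit 6509759995) (dlOf (nat_lit 1) (nat_lit 0x8008001c00200020008146f83)))) 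
(.nd (nat_lit 20) 
(.lf (nat_lit 54725627) (dlOf (nat_lit 7) (nat_lit 0x53a00001200801b1fbc0007404020ce8800fe7430001902004d408004d9d100278e8600b8737000188400943a200401d0c0006008000915e000273800000029655f00))) 
(.lf (nat_lit 59968507) (dlOf (nat_lit 1) (nat_lit 0x34004000e0019845f02))))))) (.nd (nat_lit 30) 
(.nd (nat_lit 8) (.nd (nat_lit 7) 
(.lf (nat_lit 1008404091) (dlOf (nat_lit 2) (nat_lit 0x8280000ac04001000200080008bb3982))) 
(.nd (nat_lit 10) (.lf (nat_lit 1007616251) (dlOf (nat_lit 1) (nat_lit 0xc0018520701))) 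
(.lf (nat_lit 5167580411) (dlOf (nat_lit 1) (nat_lit 0xe00080110002004c00080d2f03))))) 
(.nd (nat_lit 26) (.nd (nat_lit 9) (.nd (nat_lit 31) 
(.lf (nat_lit 939721211) (dlOf (nat_lit 8) (nat_lit 0x12002c000ba04000803000cc00b004200480008010010c004008e0000002e06002400580014408032802c010801200020040041001001f0000000a0140078016000450200080250000a81004500000001008007800800e400200dc0008157e03))) 
(.lf (nat_lit 3087204859) (dlOf (nat_lit 1) (nat_lit 0x28008000c00200040008157e03)))) 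
(.lf (nat_lit 4563602427) (dlOf (nat_lit 1) (nat_lit 0x8800200b60008095f02)))) (.nd (nat_lit 9) 
(.nd (nat_lit 11) 
(.lf (nat_lit 469959163) (dlOf (nat_lit 2) (nat_lit 0x3c0e88038873c013c39a00ae1cb003f0e2800114280198008006c00200160008017e03))) 
(.lf (nat_lit 472058363) (dlOf (nat_lit 1) (nat_lit 0x400200060008804f82)))) 
(.lf (nat_lit 872875003) (dlOf (nat_lit 1) (nat_lit 0x2c004000400080e2882)))))) (.nd (nat_lit 7) 
(.nd (nat_lit 8) (.nd (nat_lit 9) 
(.lf (nat_lit 3624078459) (dlOf (nat_lit 1) (nat_lit 0x400400020008146082))) 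
(.lf (nat_lit 6375540347) (dlOf (nat_lit 1) (nat_lit 0x800400020008003982)))) (.nd (nat_lit 10) 
(.lf (nat_lit 3491430779) (dlOf (nat_lit 4) (nat_lit 0x56079800e160401803cc0070a0201561e600384018090780))) 
(.lf (nat_lit 3624078715) (dlOf (nat_lit 1) (nat_lit 0x400400020018146b82))))) (.nd (nat_lit 10) 
(.nd (nat_lit 9) (.lf (nat_lit 3490644475) (dlOf (nat_lit 1) (nat_lit 0x20018017801))) 
(.lf (nat_lit 1345782779) (dlOf (nat_lit 1) (nat_lit 0x400400020008dd2882)))) (.nd (nat_lit 8) 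
(.lf (nat_lit 3490385147) (dlOf (nat_lit 1) (nat_lit 0x3800401400008006602))) (.nd (nat_lit 11) 
(.lf (nat_lit 4160951803) (dlOf (nat_lit 2) (nat_lit 0x1e0158030000801080080080002001e00080a9c03))) 
(.lf (nat_lit 1543704059) (dlOf (nat_lit 5) (nat_lit 0x17806800c001a00560000000b03004800f801f8068007c0000001406005601a002c006801380000000a0c00ac034005800d0028000000010180078008003800200080008146f83))))))))))) 
(.nd (nat_lit 5) (.nd (nat_lit 18) (.nd (nat_lit 28) (.nd (nat_lit 26) (.nd (nat_lit 21) 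
(.nd (nat_lit 6) (.nd (nat_lit 23) (.nd (nat_lit 27) (.nd (nat_lit 19) 
(.lf (nat_lit 4295196699) (dlOf (nat_lit 1) (nat_lit 0x200180a0901))) 
(.lf (nat_lit 537624603) (dlOf (nat_lit 5) (nat_lit 0x1002d001a815c002803e0023c06003805d000102d000f015c00740a40023308001e05d001502d00040148004620c00040660022d02000400080e0481)))) 
(.nd (nat_lit 32) (.lf (nat_lit 134447131) (dlOf (nat_lit 2) (nat_lit 0x2002f000c4818020480))) 
(.lf (nat_lit 4429414427) (dlOf (nat_lit 1) (nat_lit 0x200180a0901))))) (.nd (nat_lit 22) 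
(.lf (nat_lit 25395227) (dlOf (nat_lit 2) (nat_lit 0x15a65f8006cc080038008003c00200100008c00483))) 
(.lf (nat_lit 63143963) (dlOf (nat_lit 1) (nat_lit 0x100080004002000400099e0103))))) 
(.nd (nat_lit 8) (.nd (nat_lit 7) (.nd (nat_lit 10) 
(.lf (nat_lit 63144027) (dlOf (nat_lit 2) (nat_lit 0x333f0000100800a00080028002001600099e0883))) 
(.lf (nat_lit 38503515) (dlOf (nat_lit 1) (nat_lit 0x80019132901)))) 
(.lf (nat_lit 9142491) (dlOf (nat_lit 1) (nat_lit 0x8008001000200020008523f03)))) (.nd (nat_lit 19) 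
(.lf (nat_lit 1278299) (dlOf (nat_lit 1) (nat_lit 0xa00280a4e81))) 
(.lf (nat_lit 754011) (dlOf (nat_lit 1) (nat_lit 0x1180080074002000e0008014e03)))))) 
(.nd (nat_lit 8) (.nd (nat_lit 9) (.nd (nat_lit 6) (.nd (nat_lit 7) 
(.lf (nat_lit 44269595) (dlOf (nat_lit 1) (nat_lit 0x4004000200092e0082))) 
(.lf (nat_lit 2326683) (dlOf (nat_lit 4) (nat_lit 0xe4e28000f6720001181000438a000059c800045040016e2b00021018150180)))) 
(.lf (nat_lit 2326747) (dlOf (nat_lit 2) (nat_lit 0x116770006a00800b0008000800200220008150483)))) 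
(.nd (nat_lit 7) (.lf (nat_lit 23822875) (dlOf (nat_lit 1) (nat_lit 0x20028b80d81))) 
(.nd (nat_lit 11) (.lf (nat_lit 8094363) (dlOf (nat_lit 1) (nat_lit 0x280018511b81))) 
(.lf (nat_lit 36932251) (dlOf (nat_lit 1) (nat_lit 0x60019075581)))))) (.nd (nat_lit 6) 
(.nd (nat_lit 7) (.lf (nat_lit 8099099) (dlOf (nat_lit 1) (nat_lit 0x3c002001c0008519702))) 
(.nd (nat_lit 9) (.lf (nat_lit 8094107) (dlOf (nat_lit 1) (nat_lit 0x400200020008511002))) 
(.lf (nat_lit 8099739) (dlOf (nat_lit 1) (nat_lit 0x40020002000851a302))))) (.nd (nat_lit 9) 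
(.lf (nat_lit 8095195) (dlOf (nat_lit 1) (nat_lit 0x400200020008513602))) 
(.lf (nat_lit 20155355) (dlOf (nat_lit 1) (nat_lit 0x4002000200089d5e02))))))) (.nd (nat_lit 29) 
(.nd (nat_lit 9) (.nd (nat_lit 6) 
(.lf (nat_lit 68387099) (dlOf (nat_lit 1) (nat_lit 0x100018570701))) (.nd (nat_lit 7) 
(.lf (nat_lit 201556059) (dlOf (nat_lit 2) (nat_lit 0x13402f00000018020a80))) 
(.lf (nat_lit 68387035) (dlOf (nat_lit 1) (nat_lit 0x40018570581))))) (.nd (nat_lit 7) 
(.nd (nat_lit 11) (.lf (nat_lit 69960219) (dlOf (nat_lit 1) (nat_lit 0x400400020008e28702))) 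
(.lf (nat_lit 1275300379) (dlOf (nat_lit 1) (nat_lit 0x200280e5101)))) 
(.lf (nat_lit 5436050075) (dlOf (nat_lit 1) (nat_lit 0xe0008095581))))) (.nd (nat_lit 6) 
(.nd (nat_lit 30) (.nd (nat_lit 10) (.nd (nat_lit 22) 
(.lf (nat_lit 604209179) (dlOf (nat_lit 1) (nat_lit 0x8008000400200020008090483))) 
(.lf (nat_lit 2755887131) (dlOf (nat_lit 10) (nat_lit 0xf00500002021404b000801daa06000c08500ed40102de03c8076980811381e403b480400a80f201d6402013c07900ea201025803c80750c080d581e403a7e0402200f20000002015e00281b0001)))) 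
(.lf (nat_lit 4899179547) (dlOf (nat_lit 1) (nat_lit 0x4004000200080d6002)))) (.nd (nat_lit 8) 
(.lf (nat_lit 1812168731) (dlOf (nat_lit 2) (nat_lit 0x1404c0049f0200060028160481))) 
(.lf (nat_lit 3825434907) (dlOf (nat_lit 3) (nat_lit 0x5c0074008d004001803a004670200020018154001))))) 
(.nd (nat_lit 7) (.nd (nat_lit 8) 
(.lf (nat_lit 2751699035) (dlOf (nat_lit 1) (nat_lit 0xc0020004000800a782))) 
(.lf (nat_lit 1677951323) (dlOf (nat_lit 6) (nat_lit 0x20028000d00401000a6002800a000220200230298001080802a8150000480400440a8000230200020018124e01)))) 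
(.lf (nat_lit 4899179483) (dlOf (nat_lit 2) (nat_lit 0x200b40004c040004002000200080d5e02))))))) 
(.nd (nat_lit 27) (.nd (nat_lit 30) (.nd (nat_lit 6) (.nd (nat_lit 7) (.nd (nat_lit 10) 
(.lf (nat_lit 2953019419) (dlOf (nat_lit 1) (nat_lit 0x8008000400200020008090483))) 
(.lf (nat_lit 5100506139) (dlOf (nat_lit 1) (nat_lit 0x4004000200080d6002)))) 
(.lf (nat_lit 4563632283) (dlOf (nat_lit 1) (nat_lit 0x8004001200080a2b82)))) (.nd (nat_lit 29) 
(.lf (nat_lit 4563632475) (dlOf (nat_lit 1) (nat_lit 0x18008001c002000a00080a7083))) 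
(.nd (nat_lit 32) (.lf (nat_lit 805536091) (dlOf (nat_lit 1) (nat_lit 0x60018124e81))) 
(.lf (nat_lit 5100503387) (dlOf (nat_lit 1) (nat_lit 0x200180d0e01)))))) (.nd (nat_lit 19) 
(.nd (nat_lit 6) (.nd (nat_lit 7) (.nd (nat_lit 20) 
(.lf (nat_lit 1342406683) (dlOf (nat_lit 7) (nat_lit 0xd00e68006ac0806807340034e04016439a001a50200dc1cd000d10101120e680062c08067873400312040014002001a0008020482))) 
(.lf (nat_lit 1343455259) (dlOf (nat_lit 4) (nat_lit 0x20584000c13a0067504000a09d0033a01000404e8019cc080030008003c00200120008250683)))) 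
(.lf (nat_lit 3489893531) (dlOf (nat_lit 2) (nat_lit 0x61a300016018006280)))) 
(.lf (nat_lit 1409515867) (dlOf (nat_lit 2) (nat_lit 0x13400000014018014e80)))) (.nd (nat_lit 6) 
(.nd (nat_lit 26) 
(.lf (nat_lit 1342930971) (dlOf (nat_lit 3) (nat_lit 0xba1f3000fe01005d1130005700804f80080014002000e0008110a83))) 
(.lf (nat_lit 1410039835) (dlOf (nat_lit 5) (nat_lit 0x1002d001a815c002803e0023c06003805d000102d000f015c00740a40023308001e05d001502d00040148004620c00040660022d02000400080e0481)))) 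
(.lf (nat_lit 4096491611) (dlOf (nat_lit 1) (nat_lit 0x400400020008120682)))))) (.nd (nat_lit 30) 
(.nd (nat_lit 26) (.nd (nat_lit 6) 
(.lf (nat_lit 3087237403) (dlOf (nat_lit 3) (nat_lit 0x5c0074013fa04001803a009fc0200020018154001))) 
(.nd (nat_lit 32) (.lf (nat_lit 402882651) (dlOf (nat_lit 1) (nat_lit 0x200180a1881))) 
(.lf (nat_lit 4697849947) (dlOf (nat_lit 1) (nat_lit 0x400280a1881))))) (.nd (nat_lit 19) 
(.lf (nat_lit 469991451) (dlOf (nat_lit 4) (nat_lit 0x5507340023a0401ec39a000fb0201361cd0007c018020480))) 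
(.nd (nat_lit 21) 
(.lf (nat_lit 470515739) (dlOf (nat_lit 3) (nat_lit 0xba1f20010881005d1130005480804f80080014002000e0008110a83))) 
(.lf (nat_lit 1009483803) (dlOf (nat_lit 3) (nat_lit 0x2983ac01140f000400730002503000c070800104080008008000c002000800091a0103)))))) 
(.nd (nat_lit 19) (.nd (nat_lit 31) (.nd (nat_lit 6) 
(.lf (nat_lit 1476624411) (dlOf (nat_lit 3) (nat_lit 0x901e00011c0800380f000012040028002007600080a0502))) 
(.lf (nat_lit 1543733595) (dlOf (nat_lit 3) (nat_lit 0xf800980338032003000302230000000a02000d80980004c04005800200200008154e82)))) 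
(.nd (nat_lit 29) 
(.lf (nat_lit 3691216923) (dlOf (nat_lit 4) (nat_lit 0x4803a001320200060150002e0100a400e8000000805980080098002003200080a0503))) 
(.lf (nat_lit 4228087835) (dlOf (nat_lit 2) (nat_lit 0x6813c008c09a002003c00010150003ec200120008016400200120008020483))))) 
(.nd (nat_lit 26) (.lf (nat_lit 5773164571) (dlOf (nat_lit 1) (nat_lit 0x200180b0101))) 
(.lf (nat_lit 6377144347) (dlOf (nat_lit 1) (nat_lit 0x200180b0101)))))))) (.nd (nat_lit 20) 
(.nd (nat_lit 29) (.nd (nat_lit 21) (.nd (nat_lit 31) (.nd (nat_lit 19) (.nd (nat_lit 22) 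
(.lf (nat_lit 34045979) (dlOf (nat_lit 1) (nat_lit 0x400400020008fa0602))) 
(.lf (nat_lit 13074459) (dlOf (nat_lit 4) (nat_lit 0x8c686000120102e334300008c0801d1a180003e04015c00200a000086f0402)))) 
(.nd (nat_lit 6) (.lf (nat_lit 1015835) (dlOf (nat_lit 1) (nat_lit 0x20028050b01))) 
(.lf (nat_lit 26181979) (dlOf (nat_lit 1) (nat_lit 0x40028c10901))))) (.nd (nat_lit 6) 
(.nd (nat_lit 22) 
(.lf (nat_lit 6510051355) (dlOf (nat_lit 4) (nat_lit 0x140700003b0200220000001b01001100000005c08006000800dc00200400008190b03))) 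
(.lf (nat_lit 3494346779) (dlOf (nat_lit 3) (nat_lit 0xa01c80093008003815c003f204003c00400120018200a82)))) 
(.lf (nat_lit 2550628571) (dlOf (nat_lit 1) (nat_lit 0xa80080004002003200081b0483))))) 
(.nd (nat_lit 6) (.nd (nat_lit 22) 
(.lf (nat_lit 3492249627) (dlOf (nat_lit 2) (nat_lit 0x107b4002c404000c004000a00080b0982))) 
(.nd (nat_lit 23) (.lf (nat_lit 6783003) (dlOf (nat_lit 1) (nat_lit 0x3e0018460581))) 
(.lf (nat_lit 48726043) (dlOf (nat_lit 4) (nat_lit 0xadcf400082040012e76000972f0001f820006b978000f4080058008000c00200080009420103))))) 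
(.nd (nat_lit 9) (.lf (nat_lit 48726107) (dlOf (nat_lit 1) (nat_lit 0x4004000a0019420882))) 
(.lf (nat_lit 44534363) (dlOf (nat_lit 1) (nat_lit 0x20009325301)))))) (.nd (nat_lit 31) 
(.nd (nat_lit 28) (.nd (nat_lit 26) (.nd (nat_lit 32) 
(.lf (nat_lit 1611104283) (dlOf (nat_lit 2) (nat_lit 0x24027801b807c07f80000003206001000280e0401))) 
(.lf (nat_lit 5906071579) (dlOf (nat_lit 4) (nat_lit 0x1406e0003b0200220000001b01001100000005c08006000800dc00200400008190b03)))) 
(.lf (nat_lit 738689051) (dlOf (nat_lit 2) (nat_lit 0x2e029800c808400064080030004000a00080e0502)))) 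
(.nd (nat_lit 6) (.nd (nat_lit 9) 
(.lf (nat_lit 1007124507) (dlOf (nat_lit 1) (nat_lit 0x64002001000081b0582))) 
(.lf (nat_lit 872907291) (dlOf (nat_lit 2) (nat_lit 0x1021800754080028008000c002001a00080f8703)))) 
(.lf (nat_lit 6241615963) (dlOf (nat_lit 1) (nat_lit 0x400400020008131b82))))) (.nd (nat_lit 6) 
(.nd (nat_lit 21) (.nd (nat_lit 22) 
(.lf (nat_lit 2819063835) (dlOf (nat_lit 3) (nat_lit 0x5203a00a901b0000941012800d80004604000c00400960018190582))) 
(.lf (nat_lit 2756149275) (dlOf (nat_lit 3) (nat_lit 0xa01c8008d008003815c003ce04003c00400120018200a82)))) 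
(.lf (nat_lit 2754052123) (dlOf (nat_lit 2) (nat_lit 0x107fc001a004000c004000a00080b0982)))) 
(.lf (nat_lit 2752479579) (dlOf (nat_lit 6) (nat_lit 0x270fd0001900801907e8000c60400903f4000e1380002202000a0fd00010c0801807e80008404004400400020018014e02)))))) 
(.nd (nat_lit 6) (.nd (nat_lit 21) (.nd (nat_lit 28) (.nd (nat_lit 7) (.nd (nat_lit 19) 
(.lf (nat_lit 5734427) (dlOf (nat_lit 1) (nat_lit 0x4004000200083d0482))) 
(.lf (nat_lit 14647323) (dlOf (nat_lit 3) (nat_lit 0x30000000a40802000000004e040228002007c0008770102)))) 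
(.lf (nat_lit 2064539) (dlOf (nat_lit 2) (nat_lit 0xf6a2b00023018150180)))) (.nd (nat_lit 7) 
(.nd (nat_lit 9) (.lf (nat_lit 4095180827) (dlOf (nat_lit 1) (nat_lit 0x800400040008070102))) 
(.lf (nat_lit 3491725851) (dlOf (nat_lit 1) (nat_lit 0x400200020008090d82)))) 
(.lf (nat_lit 1344241819) (dlOf (nat_lit 1) (nat_lit 0x1920008520281))))) (.nd (nat_lit 26) 
(.nd (nat_lit 19) (.lf (nat_lit 7831579) (dlOf (nat_lit 1) (nat_lit 0x3e00184f0581))) 
(.lf (nat_lit 20938779) (dlOf (nat_lit 1) (nat_lit 0x200089f0101)))) (.nd (nat_lit 27) 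
(.lf (nat_lit 2755624987) (dlOf (nat_lit 3) (nat_lit 0x402a01daa0200d801500ed40181b0000))) 
(.lf (nat_lit 473923611) (dlOf (nat_lit 6) (nat_lit 0x468558027419a01300960050046804f8214000621403702ac01c20cd00e604b007a82140006010079c2ac00dc143010b09c80f3833407c812c020208d01f00428000bc3800102140005a04001411a000110201b00028fc0101)))))) 
(.nd (nat_lit 9) (.nd (nat_lit 28) (.nd (nat_lit 10) 
(.lf (nat_lit 20938843) (dlOf (nat_lit 1) (nat_lit 0x400189f0781))) 
(.lf (nat_lit 37717083) (dlOf (nat_lit 1) (nat_lit 0x4002000200090d2902)))) (.nd (nat_lit 19) 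
(.lf (nat_lit 3493298267) (dlOf (nat_lit 1) (nat_lit 0x3800200120008110a82))) 
(.lf (nat_lit 473923675) (dlOf (nat_lit 5) (nat_lit 0x9d057c01282bc027c0d7003906b0027826c00a012a00a208b000058701700af80bb035c000120800602be0000802032a15f019f06b800000100518008004800201800008fc0883))))) 
(.nd (nat_lit 7) (.lf (nat_lit 41388635) (dlOf (nat_lit 2) (nat_lit 0xc43f40000c019245300))) 
(.nd (nat_lit 10) 
(.lf (nat_lit 8360667) (dlOf (nat_lit 1) (nat_lit 0x158008000400200680008518c83))) 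
(.lf (nat_lit 20418267) (dlOf (nat_lit 1) (nat_lit 0x200189d7381))))))))) (.nd (nat_lit 7) 
(.nd (nat_lit 29) (.nd (nat_lit 6) (.nd (nat_lit 18) (.nd (nat_lit 9) (.nd (nat_lit 20) 
(.nd (nat_lit 23) (.lf (nat_lit 4362305595) (dlOf (nat_lit 1) (nat_lit 0x40028020781))) 
(.lf (nat_lit 25395259) (dlOf (nat_lit 1) (nat_lit 0xa8002003c0008c00d82)))) 
(.lf (nat_lit 3490938939) (dlOf (nat_lit 2) (nat_lit 0x300b5000e6018030d00)))) (.nd (nat_lit 26) 
(.nd (nat_lit 27) 
(.lf (nat_lit 2416149051) (dlOf (nat_lit 4) (nat_lit 0x6402400df011000a0070046402e01be0000000e85005d00000007008001008000000040004002000a0008091002))) 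
(.lf (nat_lit 2550366779) (dlOf (nat_lit 4) (nat_lit 0x6402600df011000a0074046402e01be0000000e85005d00000007008001008000000040004002000a0008091002)))) 
(.lf (nat_lit 3288564283) (dlOf (nat_lit 4) (nat_lit 0xb4020003f0058000741001d008000d40160001c0400300200014005800068100010008001c00200120008091003))))) 
(.nd (nat_lit 19) (.nd (nat_lit 20) 
(.lf (nat_lit 2588731) (dlOf (nat_lit 2) (nat_lit 0x205f200162688002c00000000038170b80))) 
(.nd (nat_lit 24) 
(.lf (nat_lit 9928763) (dlOf (nat_lit 5) (nat_lit 0x83ac000a1ca00090e2800485e000ac81000083ac00021d300050e50004871400242f0005630a00121d600060e50003071400182f00056108000a1d600080e500058714002c2f00055f0800140008591681))) 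
(.lf (nat_lit 60260411) (dlOf (nat_lit 1) (nat_lit 0x400080020002000a0009840003))))) 
(.nd (nat_lit 9) (.nd (nat_lit 20) 
(.lf (nat_lit 13598779) (dlOf (nat_lit 4) (nat_lit 0x19bd600050810009e31800e6f58000fc0800d38c60002a0200020028730b81))) 
(.lf (nat_lit 12550203) (dlOf (nat_lit 2) (nat_lit 0xac0e800068040018004000e00086d0c02)))) 
(.lf (nat_lit 1346341435) (dlOf (nat_lit 9) (nat_lit 0x86a40004164003601c0002f830015102800906a400082d000040cf0006059000e807000e80340005d0e0058169002700e8001641001505a4000b00400342d200057020090169004900e8001501002305a4008803a0004204000a168000300e0000c81000f000800a800200440008f05203)))))) 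
(.nd (nat_lit 9) (.nd (nat_lit 8) (.nd (nat_lit 18) (.nd (nat_lit 20) 
(.lf (nat_lit 3491987579) (dlOf (nat_lit 2) (nat_lit 0x1082a401c4114001fc0400100018090081))) 
(.lf (nat_lit 62095483) (dlOf (nat_lit 1) (nat_lit 0x20029950b81)))) 
(.lf (nat_lit 47153275) (dlOf (nat_lit 1) (nat_lit 0x80080004002000200093b0c83)))) 
(.nd (nat_lit 10) 
(.lf (nat_lit 1346341243) (dlOf (nat_lit 1) (nat_lit 0x130008004800200360008f04e83))) 
(.lf (nat_lit 3489893755) (dlOf (nat_lit 1) (nat_lit 0x20028006b81))))) (.nd (nat_lit 11) 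
(.nd (nat_lit 18) (.lf (nat_lit 61572731) (dlOf (nat_lit 1) (nat_lit 0x400400020009923982))) 
(.lf (nat_lit 61834875) (dlOf (nat_lit 1) (nat_lit 0x140019923981)))) (.nd (nat_lit 8) 
(.lf (nat_lit 5436050043) (dlOf (nat_lit 1) (nat_lit 0x2800400100008095402))) 
(.lf (nat_lit 3557003131) (dlOf (nat_lit 1) (nat_lit 0x40018127781))))))) (.nd (nat_lit 28) 
(.nd (nat_lit 8) (.nd (nat_lit 6) (.nd (nat_lit 18) 
(.lf (nat_lit 2752741435) (dlOf (nat_lit 2) (nat_lit 0x300e5000e6018030d00))) (.nd (nat_lit 26) 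
(.lf (nat_lit 1611104315) (dlOf (nat_lit 1) (nat_lit 0x1a00080080002004200080e1683))) 
(.lf (nat_lit 738689083) (dlOf (nat_lit 1) (nat_lit 0x1a00080080002004200080e1683))))) 
(.nd (nat_lit 18) (.lf (nat_lit 1611366523) (dlOf (nat_lit 1) (nat_lit 0x2fc00402120008163582))) 
(.lf (nat_lit 1678213243) (dlOf (nat_lit 3) (nat_lit 0xb402b0008440800c01580041e040050004001400181a0082))))) 
(.nd (nat_lit 27) (.nd (nat_lit 9) 
(.lf (nat_lit 1677951291) (dlOf (nat_lit 1) (nat_lit 0x60008124c01))) 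
(.lf (nat_lit 4899179323) (dlOf (nat_lit 2) (nat_lit 0x80640008e02000200180d5c01)))) 
(.nd (nat_lit 18) (.lf (nat_lit 738951483) (dlOf (nat_lit 1) (nat_lit 0x4004000e0018167b82))) 
(.lf (nat_lit 2886172987) (dlOf (nat_lit 3) (nat_lit 0x301f000380dc0008a08004407401180370071008003c000000072100084002000e0008188502)))))) 
(.nd (nat_lit 26) (.nd (nat_lit 9) (.nd (nat_lit 6) (.nd (nat_lit 8) 
(.lf (nat_lit 4027023419) (dlOf (nat_lit 1) (nat_lit 0xa00181b0001))) 
(.lf (nat_lit 805536059) (dlOf (nat_lit 1) (nat_lit 0x60008124c01)))) 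
(.lf (nat_lit 805798011) (dlOf (nat_lit 3) (nat_lit 0xb402b0007f00800c0158003f4040050004001400181a0082)))) 
(.nd (nat_lit 10) 
(.lf (nat_lit 4026761787) (dlOf (nat_lit 4) (nat_lit 0xb4020003f0058000741001d008000d40160001c0400300200014005800068100010008001c00200120008091003))) 
(.lf (nat_lit 5234722363) (dlOf (nat_lit 1) (nat_lit 0x8002000400080d3782))))) (.nd (nat_lit 21) 
(.nd (nat_lit 6) (.lf (nat_lit 1007910971) (dlOf (nat_lit 1) (nat_lit 0x4a0028860001))) 
(.lf (nat_lit 6241356411) (dlOf (nat_lit 1) (nat_lit 0x80080004002000200080d5403)))) 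
(.nd (nat_lit 18) (.lf (nat_lit 1009483835) (dlOf (nat_lit 1) (nat_lit 0x400091a0581))) 
(.lf (nat_lit 1009221691) (dlOf (nat_lit 1) (nat_lit 0x38002001000090a0582)))))))) (.nd (nat_lit 8) 
(.nd (nat_lit 19) (.nd (nat_lit 6) (.nd (nat_lit 9) (.nd (nat_lit 18) 
(.lf (nat_lit 2617475259) (dlOf (nat_lit 1) (nat_lit 0x4004000c00180b3302))) 
(.lf (nat_lit 4027023547) (dlOf (nat_lit 2) (nat_lit 0x7800000024040014002000400081b0382)))) 
(.nd (nat_lit 26) (.lf (nat_lit 1208191675) (dlOf (nat_lit 1) (nat_lit 0x400200020008095782))) 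
(.lf (nat_lit 5436050107) (dlOf (nat_lit 1) (nat_lit 0xa0008095781))))) (.nd (nat_lit 10) 
(.nd (nat_lit 9) (.lf (nat_lit 1345814779) (dlOf (nat_lit 1) (nat_lit 0x60018e02901))) 
(.lf (nat_lit 57117435) (dlOf (nat_lit 1) (nat_lit 0xc00400020009795a02)))) (.nd (nat_lit 12) 
(.lf (nat_lit 5234722043) (dlOf (nat_lit 1) (nat_lit 0x1600080d2f01))) 
(.lf (nat_lit 2281936123) (dlOf (nat_lit 1) (nat_lit 0x80080004002000200080a9503)))))) 
(.nd (nat_lit 10) (.nd (nat_lit 6) (.nd (nat_lit 9) (.nd (nat_lit 20) 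
(.lf (nat_lit 7307451) (dlOf (nat_lit 1) (nat_lit 0x2d800800ec002009e00084b0483))) 
(.lf (nat_lit 3493822651) (dlOf (nat_lit 1) (nat_lit 0x4004000200181b0382)))) 
(.lf (nat_lit 6376360635) (dlOf (nat_lit 1) (nat_lit 0x400200020008095782)))) (.nd (nat_lit 21) 
(.lf (nat_lit 6376358139) (dlOf (nat_lit 3) (nat_lit 0x584c4002c004000825e0009c0200120018090a81))) 
(.lf (nat_lit 19890427) (dlOf (nat_lit 1) (nat_lit 0x4002000200089d0a82))))) (.nd (nat_lit 20) 
(.nd (nat_lit 18) (.lf (nat_lit 55280827) (dlOf (nat_lit 1) (nat_lit 0x4004000200096d2c82))) 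
(.lf (nat_lit 472876219) (dlOf (nat_lit 2) (nat_lit 0xc1340001b0200080008b52c81)))) 
(.nd (nat_lit 6) (.lf (nat_lit 31425723) (dlOf (nat_lit 1) (nat_lit 0x400400020008e92c82))) 
(.lf (nat_lit 4095706363) (dlOf (nat_lit 2) (nat_lit 0x202a00002c080008008000c002000400080e2f03))))))) 
(.nd (nat_lit 9) (.nd (nat_lit 28) (.nd (nat_lit 19) (.nd (nat_lit 6) 
(.lf (nat_lit 4832069051) (dlOf (nat_lit 1) (nat_lit 0x80080008002000200080d3603))) 
(.nd (nat_lit 11) (.lf (nat_lit 9667067) (dlOf (nat_lit 2) (nat_lit 0x1e7fc00017018577e00))) 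
(.lf (nat_lit 39029243) (dlOf (nat_lit 1) (nat_lit 0x98008005000200180009194f83))))) 
(.nd (nat_lit 18) (.lf (nat_lit 754171) (dlOf (nat_lit 2) (nat_lit 0x28b94000c42600022828017e00))) 
(.lf (nat_lit 2752479739) (dlOf (nat_lit 9) (nat_lit 0x9c849000ca2460030120804988c4035c0000002e0a05062480064123007e00000005a0c08f43f0007c159002f0ab8000881800e855c000420400e83f00001e0204701f800350ac8013055c000380c085c3f00001b02015c1f800060ac80002c102a70008016800203bc0008017e03))))) 
(.nd (nat_lit 6) (.nd (nat_lit 10) 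
(.lf (nat_lit 1345814971) (dlOf (nat_lit 1) (nat_lit 0x400400020008e06f82))) 
(.lf (nat_lit 5234722235) (dlOf (nat_lit 1) (nat_lit 0x18800800f8002004000080d3603)))) 
(.nd (nat_lit 26) 
(.lf (nat_lit 3087237627) (dlOf (nat_lit 4) (nat_lit 0x5b00160214009010b0000000b8180b7002c042801202140000001683007000580009c080298008000400201920008157e03))) 
(.nd (nat_lit 27) (.lf (nat_lit 1409516027) (dlOf (nat_lit 2) (nat_lit 0x5205f00514018017800))) 
(.lf (nat_lit 1543733755) (dlOf (nat_lit 8) (nat_lit 0x2880b0020004c0060023004200e801e806000f402000340050039001002d0000014b62401e804c0058023002b00e8017806000c802000720080056002802b0008014800000a5912004a0000052c010022011804c807401f403000b6005005230400170118025007401d0030006c00800740028029142800b008c026403a00fe0180037004003980140147814000400a00a3a0200f00028157801))))))) 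
(.nd (nat_lit 25) (.nd (nat_lit 20) (.nd (nat_lit 6) 
(.lf (nat_lit 2751956923) (dlOf (nat_lit 1) (nat_lit 0x800200020008004382))) 
(.lf (nat_lit 6375572475) (dlOf (nat_lit 2) (nat_lit 0x380a000fde04000800200080008002882)))) 
(.nd (nat_lit 19) (.lf (nat_lit 1345553403) (dlOf (nat_lit 1) (nat_lit 0x400400020008d12882))) 
(.lf (nat_lit 1346077691) (dlOf (nat_lit 1) (nat_lit 0x400400020008e22882))))) (.nd (nat_lit 11) 
(.nd (nat_lit 18) (.nd (nat_lit 19) 
(.lf (nat_lit 34833403) (dlOf (nat_lit 1) (nat_lit 0x400400020008fb2882))) 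
(.lf (nat_lit 40600571) (dlOf (nat_lit 1) (nat_lit 0x200291f2881)))) 
(.lf (nat_lit 59212795) (dlOf (nat_lit 1) (nat_lit 0x20008000c002000600097e2883)))) 
(.nd (nat_lit 18) 
(.lf (nat_lit 54758395) (dlOf (nat_lit 3) (nat_lit 0x126b0000c80800799cc0000004000400200060009655f02))) 
(.lf (nat_lit 46631931) (dlOf (nat_lit 2) (nat_lit 0x263200025819385f00))))))))))))

end

end Pool.Agent.Lib.MP_5854e1_co.Cz

namespace Pool.Agent.Lib.MP_5854e1_co.Cz

noncomputable section

noncomputable def tz230 : DT := (.nd (nat_lit 16) (.nd (nat_lit 18) (.nd (nat_lit 5) 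
(.nd (nat_lit 30) (.nd (nat_lit 19) (.nd (nat_lit 28) (.nd (nat_lit 7) (.nd (nat_lit 6) 
(.nd (nat_lit 3) (.nd (nat_lit 27) (.nd (nat_lit 20) 
(.lf (nat_lit 2684493843) (dlOf (nat_lit 4) (nat_lit 0x500cc00300580002f0400100330001701000c019800050080040008006000200020008070183))) 
(.lf (nat_lit 24256531) (dlOf (nat_lit 1) (nat_lit 0xc0008b90681)))) (.nd (nat_lit 8) 
(.lf (nat_lit 6643916819) (dlOf (nat_lit 3) (nat_lit 0x180400002a02000202000030020000a4100020008000c002000c0008060403))) 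
(.lf (nat_lit 671229715) (dlOf (nat_lit 1) (nat_lit 0x40018143c01))))) (.nd (nat_lit 21) 
(.nd (nat_lit 27) 
(.lf (nat_lit 2214731803) (dlOf (nat_lit 2) (nat_lit 0x700b8001f8080078008004400200060008080483))) 
(.lf (nat_lit 2885820443) (dlOf (nat_lit 2) (nat_lit 0x14002e00a001300ed40280b0000)))) 
(.nd (nat_lit 8) (.lf (nat_lit 52568091) (dlOf (nat_lit 1) (nat_lit 0x800400060009550102))) 
(.lf (nat_lit 41034011) (dlOf (nat_lit 1) (nat_lit 0x8008000400200040009218003)))))) 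
(.nd (nat_lit 8) (.nd (nat_lit 20) (.nd (nat_lit 23) 
(.lf (nat_lit 4899086419) (dlOf (nat_lit 1) (nat_lit 0x400400020008061782))) 
(.lf (nat_lit 25305171) (dlOf (nat_lit 3) (nat_lit 0x2747dc001c00000033040005915000ac37800078100030008001800200100008bf0d83)))) 
(.lf (nat_lit 43130963) (dlOf (nat_lit 1) (nat_lit 0x20004006800092a0002)))) (.nd (nat_lit 21) 
(.lf (nat_lit 9576787) (dlOf (nat_lit 1) (nat_lit 0x60018574d81))) 
(.lf (nat_lit 11673939) (dlOf (nat_lit 2) (nat_lit 0x1eb8a001f550000f81c8007bf4400024100010002000a00086c0682)))))) 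
(.nd (nat_lit 8) (.nd (nat_lit 3) (.nd (nat_lit 6) (.nd (nat_lit 10) 
(.lf (nat_lit 11673747) (dlOf (nat_lit 3) (nat_lit 0x681a00013408010a0c00008c040010002000e00086c0182))) 
(.lf (nat_lit 48374931) (dlOf (nat_lit 3) (nat_lit 0x16741000438100013a0800214080040008002400200520009402b83)))) 
(.lf (nat_lit 20069075) (dlOf (nat_lit 1) (nat_lit 0x4004000200189db982)))) (.nd (nat_lit 9) 
(.lf (nat_lit 42083483) (dlOf (nat_lit 2) (nat_lit 0x714f40008802000e0029242b81))) 
(.nd (nat_lit 11) 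
(.lf (nat_lit 671229595) (dlOf (nat_lit 2) (nat_lit 0xf804a000350200220018143a81))) 
(.lf (nat_lit 6509702811) (dlOf (nat_lit 1) (nat_lit 0x20008147201)))))) (.nd (nat_lit 6) 
(.nd (nat_lit 9) 
(.lf (nat_lit 134359443) (dlOf (nat_lit 2) (nat_lit 0x14094017310200020018004e81))) 
(.lf (nat_lit 537012115) (dlOf (nat_lit 1) (nat_lit 0x40018004201)))) (.nd (nat_lit 10) 
(.lf (nat_lit 20065235) (dlOf (nat_lit 1) (nat_lit 0x4002000200089d5d82))) 
(.lf (nat_lit 537012179) (dlOf (nat_lit 3) (nat_lit 0xa02f80004008005817c0001c04001c004001c0018004502))))))) 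
(.nd (nat_lit 31) (.nd (nat_lit 26) (.nd (nat_lit 3) (.nd (nat_lit 6) 
(.lf (nat_lit 805449235) (dlOf (nat_lit 1) (nat_lit 0x28008004800200100008117083))) 
(.lf (nat_lit 4563545043) (dlOf (nat_lit 2) (nat_lit 0x320290000d818095d80)))) (.nd (nat_lit 6) 
(.lf (nat_lit 4563542043) (dlOf (nat_lit 5) (nat_lit 0x1c05e001202d000800f8061941800180bc002405a0186404000802f000a0168005807c030c60c001005e001002d000b00f80618818008000800fc00200020008090003))) 
(.lf (nat_lit 805453147) (dlOf (nat_lit 1) (nat_lit 0x880080050002000e000811c903))))) 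
(.nd (nat_lit 20) (.nd (nat_lit 7) 
(.lf (nat_lit 5301739539) (dlOf (nat_lit 3) (nat_lit 0x80fc000c07c000c03700010000035482000080fc000407c000a03a000401b8000800001aa214001c00400020008060a02))) 
(.lf (nat_lit 474096787) (dlOf (nat_lit 3) (nat_lit 0x1000540010e0400042ce000850200040029082b81)))) 
(.nd (nat_lit 3) (.lf (nat_lit 470949907) (dlOf (nat_lit 1) (nat_lit 0x40028210381))) 
(.lf (nat_lit 470949915) (dlOf (nat_lit 1) (nat_lit 0x108008001800200040008210603)))))) 
(.nd (nat_lit 6) (.nd (nat_lit 3) (.nd (nat_lit 8) (.nd (nat_lit 29) 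
(.lf (nat_lit 2617385491) (dlOf (nat_lit 4) (nat_lit 0x240560015c02002c0310008c01002201580000008015000800fc002002600080a1483))) 
(.lf (nat_lit 3154256403) (dlOf (nat_lit 1) (nat_lit 0x20028137c81)))) 
(.lf (nat_lit 2617390355) (dlOf (nat_lit 2) (nat_lit 0x80060001202f000601700008048000f21002b8004001800080a9682)))) 
(.nd (nat_lit 27) (.lf (nat_lit 2416058395) (dlOf (nat_lit 1) (nat_lit 0x20018030881))) 
(.lf (nat_lit 2550276123) (dlOf (nat_lit 1) (nat_lit 0x20018030881))))) (.nd (nat_lit 27) 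
(.nd (nat_lit 32) 
(.lf (nat_lit 2416058451) (dlOf (nat_lit 1) (nat_lit 0x1800800b800200220008031083))) 
(.lf (nat_lit 6711025747) (dlOf (nat_lit 1) (nat_lit 0x20018040501)))) 
(.lf (nat_lit 2550276179) (dlOf (nat_lit 1) (nat_lit 0x1800800b800200220008031083))))))) 
(.nd (nat_lit 21) (.nd (nat_lit 3) (.nd (nat_lit 6) (.nd (nat_lit 20) (.nd (nat_lit 26) 
(.lf (nat_lit 134881299) (dlOf (nat_lit 1) (nat_lit 0x44004000400080d0882))) 
(.lf (nat_lit 201990163) (dlOf (nat_lit 1) (nat_lit 0x44004000400080d0882)))) (.nd (nat_lit 8) 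
(.nd (nat_lit 22) (.lf (nat_lit 10100755) (dlOf (nat_lit 1) (nat_lit 0x80080004002000200085b0483))) 
(.lf (nat_lit 5906451) (dlOf (nat_lit 1) (nat_lit 0x80028400681)))) 
(.lf (nat_lit 14295315) (dlOf (nat_lit 1) (nat_lit 0x400400020008750702))))) (.nd (nat_lit 20) 
(.nd (nat_lit 26) 
(.lf (nat_lit 134881363) (dlOf (nat_lit 5) (nat_lit 0x1280a800aa03d004201c002800cc0005210003807e000250200240130001081000301d0013804c00036080084002000a00080d0d82))) 
(.lf (nat_lit 201990227) (dlOf (nat_lit 5) (nat_lit 0x1280aa00aa03d004201c002800cc0005210003807e000250200240130001081000301d0013804c00036080084002000a00080d0d82)))) 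
(.nd (nat_lit 7) (.lf (nat_lit 35269203) (dlOf (nat_lit 1) (nat_lit 0x200080010002000a0009015283))) 
(.lf (nat_lit 43656403) (dlOf (nat_lit 1) (nat_lit 0x200292a2d81)))))) (.nd (nat_lit 27) 
(.nd (nat_lit 29) (.nd (nat_lit 8) 
(.lf (nat_lit 1712155) (dlOf (nat_lit 1) (nat_lit 0x400200020008120682))) 
(.lf (nat_lit 50995483) (dlOf (nat_lit 2) (nat_lit 0x10a8c0012e02002200294e8001)))) 
(.nd (nat_lit 6) 
(.lf (nat_lit 537534491) (dlOf (nat_lit 26) (nat_lit 0x203100f1201005501880787c0800080c403c3a0400040be01e1702005a05f00f0901004002f8078400800500c403bc80400980be01d1f02002405d00e3701009f02e801c8150011408a01c6306006205f004e02e8000815c02180a800fe04500e3105003002f8023817401f00a8010004500e2f04009f02e802d0150013808a01bd606009e05d008902a003e8114037aa0c000c0a801bd302000605400de801001302c8040dc0800981640206c0400340b2010350200260590081a01002e02f803f9008009816401f9e0401040be00fc702005c05f007c901001302c803dd80800c000800c4002000e00080a0903))) 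
(.lf (nat_lit 537534555) (dlOf (nat_lit 2) (nat_lit 0x2c0580002028800068100068008002c002002400080a1203))))) 
(.nd (nat_lit 26) (.lf (nat_lit 134881307) (dlOf (nat_lit 2) (nat_lit 0x8013000000180d0880))) 
(.lf (nat_lit 201990171) (dlOf (nat_lit 2) (nat_lit 0x8013000000180d0880)))))) (.nd (nat_lit 20) 
(.nd (nat_lit 24) (.nd (nat_lit 6) (.nd (nat_lit 3) 
(.lf (nat_lit 6955027) (dlOf (nat_lit 1) (nat_lit 0x80028490681))) 
(.lf (nat_lit 36317851) (dlOf (nat_lit 1) (nat_lit 0x20019075581)))) (.nd (nat_lit 26) 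
(.lf (nat_lit 2760787) (dlOf (nat_lit 1) (nat_lit 0x4002000200081b1982))) 
(.lf (nat_lit 2754224211) (dlOf (nat_lit 3) (nat_lit 0xac44a005a21f004310d0017075800ac200000290a002021a00020eb00009c1000600080064002003000080d0d83))))) 
(.nd (nat_lit 7) (.nd (nat_lit 23) 
(.lf (nat_lit 19537939) (dlOf (nat_lit 2) (nat_lit 0x26750001f8189c0200))) 
(.lf (nat_lit 27926547) (dlOf (nat_lit 14) (nat_lit 0x3735440008a0400ddbf6007ad51000220200666fd8016b54401a9a7e010ccc80002084004f6fd803034fc002d9b200c2cc8000200400596fd800f3544019da7e0002cd9007c6640000f82802eb7ec00adaa200d2d3f007b6640000f420001354400078040005aa20003b02011ed4f003a6640000dc10019b5440231a9e0034d3d003f6640000d82001437ec00a1aa20048cc80001a83002c6fd8014b54400519b20062cc80001a04004d6fd8003b5440145a7e003acd9006d664000000280008008008000200120008d40283)))) 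
(.lf (nat_lit 53093523) (dlOf (nat_lit 1) (nat_lit 0x18008001000200060009572b83))))) 
(.nd (nat_lit 26) (.nd (nat_lit 6) (.nd (nat_lit 3) 
(.lf (nat_lit 24780819) (dlOf (nat_lit 2) (nat_lit 0x360d8000bc0800100080018002000c0008bb0283))) 
(.lf (nat_lit 45752347) (dlOf (nat_lit 1) (nat_lit 0x8008000400200060009360103)))) (.nd (nat_lit 8) 
(.lf (nat_lit 37364827) (dlOf (nat_lit 1) (nat_lit 0x4002000200090d2902))) 
(.lf (nat_lit 20594011) (dlOf (nat_lit 1) (nat_lit 0x4004000200089dc902))))) (.nd (nat_lit 3) 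
(.lf (nat_lit 2755272723) (dlOf (nat_lit 1) (nat_lit 0xe0028140a01))) (.nd (nat_lit 9) 
(.lf (nat_lit 2755272731) (dlOf (nat_lit 1) (nat_lit 0x1000800a400200380008140b03))) 
(.lf (nat_lit 473571867) (dlOf (nat_lit 4) (nat_lit 0x16119000708c0000815c003e20c0044232000205700030000005d018040046c0000004006000400020018f68702))))))))) 
(.nd (nat_lit 26) (.nd (nat_lit 3) (.nd (nat_lit 7) (.nd (nat_lit 6) (.nd (nat_lit 19) 
(.nd (nat_lit 28) (.lf (nat_lit 6039937043) (dlOf (nat_lit 1) (nat_lit 0x40008060401))) 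
(.lf (nat_lit 2013405203) (dlOf (nat_lit 3) (nat_lit 0x48088001400a0002004000120300050000000880801180080028002002a0008050283)))) 
(.nd (nat_lit 20) (.lf (nat_lit 5772025875) (dlOf (nat_lit 1) (nat_lit 0x800200040008040002))) 
(.lf (nat_lit 3493470227) (dlOf (nat_lit 1) (nat_lit 0xe0028140a01))))) (.nd (nat_lit 9) 
(.nd (nat_lit 21) 
(.lf (nat_lit 5772025939) (dlOf (nat_lit 2) (nat_lit 0xc6028006201300019010026800800f0002002a0008040503))) 
(.lf (nat_lit 3492421715) (dlOf (nat_lit 3) (nat_lit 0xac420005a20a00431028017071000ac200000290a002020500020e200009c1000600080064002003000080d0d83)))) 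
(.lf (nat_lit 1345989203) (dlOf (nat_lit 2) (nat_lit 0x190af80098234000280800a0004002e0008e25282))))) 
(.nd (nat_lit 12) (.nd (nat_lit 6) (.nd (nat_lit 8) 
(.lf (nat_lit 5772551315) (dlOf (nat_lit 1) (nat_lit 0x380028092b81))) 
(.lf (nat_lit 3221368211) (dlOf (nat_lit 1) (nat_lit 0x400400020008116d02)))) 
(.lf (nat_lit 5637285331) (dlOf (nat_lit 1) (nat_lit 0x40002004200080d3602)))) (.nd (nat_lit 6) 
(.nd (nat_lit 9) (.lf (nat_lit 3221372051) (dlOf (nat_lit 1) (nat_lit 0x8001811c201))) 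
(.lf (nat_lit 3355588243) (dlOf (nat_lit 1) (nat_lit 0x4400180a9e81)))) 
(.lf (nat_lit 3355587795) (dlOf (nat_lit 1) (nat_lit 0x24004001200080a9502)))))) (.nd (nat_lit 19) 
(.nd (nat_lit 6) (.nd (nat_lit 7) (.nd (nat_lit 9) 
(.lf (nat_lit 2013405211) (dlOf (nat_lit 2) (nat_lit 0x68044000320200400018050501))) 
(.lf (nat_lit 3355583003) (dlOf (nat_lit 1) (nat_lit 0x1880080128002003a00080a1483)))) 
(.lf (nat_lit 1345464987) (dlOf (nat_lit 1) (nat_lit 0x20008c35581)))) (.nd (nat_lit 7) 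
(.lf (nat_lit 1342321755) (dlOf (nat_lit 1) (nat_lit 0x20028009381))) 
(.lf (nat_lit 3493994715) (dlOf (nat_lit 1) (nat_lit 0x200081b0481))))) (.nd (nat_lit 6) 
(.nd (nat_lit 20) 
(.lf (nat_lit 3221889051) (dlOf (nat_lit 2) (nat_lit 0x1011800418040010004000c00081b0482))) 
(.nd (nat_lit 31) (.lf (nat_lit 1345986587) (dlOf (nat_lit 1) (nat_lit 0xa0018e20001))) 
(.lf (nat_lit 3493470235) (dlOf (nat_lit 1) (nat_lit 0x1000800a400200380008140b03))))) 
(.nd (nat_lit 9) 
(.lf (nat_lit 1344938075) (dlOf (nat_lit 1) (nat_lit 0x500080010002000200089a0883))) 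
(.lf (nat_lit 1345989211) (dlOf (nat_lit 3) (nat_lit 0x54857c02b81ae01a809b00d204580002020065057c03241ae0000004005e0028e25301))))))) 
(.nd (nat_lit 29) (.nd (nat_lit 3) (.nd (nat_lit 11) (.nd (nat_lit 27) (.nd (nat_lit 32) 
(.lf (nat_lit 1140989971) (dlOf (nat_lit 1) (nat_lit 0x40018050181))) 
(.lf (nat_lit 5435957267) (dlOf (nat_lit 3) (nat_lit 0x80fc000c07c000c0350001000001f5c2000080fc000407c000a03a000401a8000800000fac14001c00400020008060a02)))) 
(.lf (nat_lit 3422691347) (dlOf (nat_lit 2) (nat_lit 0x1101c0000b80800100080004002000a0008060383)))) 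
(.nd (nat_lit 6) (.nd (nat_lit 8) 
(.lf (nat_lit 3556911635) (dlOf (nat_lit 3) (nat_lit 0xec02400740000000302000e009000180000000a080084002001600080d5082))) 
(.lf (nat_lit 1409428755) (dlOf (nat_lit 1) (nat_lit 0x40018006701)))) 
(.lf (nat_lit 3556911827) (dlOf (nat_lit 1) (nat_lit 0x10002002200080d5882))))) (.nd (nat_lit 6) 
(.nd (nat_lit 19) (.nd (nat_lit 32) 
(.lf (nat_lit 1140989979) (dlOf (nat_lit 2) (nat_lit 0x9300880006404000400400320018050402))) 
(.lf (nat_lit 5435957275) (dlOf (nat_lit 3) (nat_lit 0x407e000c03e000a01a8004000000fae10000c07e001203a000701a8000800000fac10010000400040018060a02)))) 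
(.lf (nat_lit 1409949723) (dlOf (nat_lit 26) (nat_lit 0x205f00d5f81002d02f806ae808020017c0357004000406201ab40200aa03100d57810001018806ab40800500c4035000400980be019c402002405d00c9081009f02e801c815001140840191606006205f004e02e8000815c02180a800fe04200c8a85003002f8023817401f00a8010004200c8884009f02e802d015001380840187006009e05d008902a003e8108030de0c000c0a80186d02000605400c3581001302c8042e8080098164021720400340b2010b80200260590085b81002e02f8041b8080098164020ac0401040be0105002005c05f007c181001302c803dc80800c000800c4002000e00080a0903)))) 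
(.nd (nat_lit 8) 
(.lf (nat_lit 1409949787) (dlOf (nat_lit 2) (nat_lit 0x2c05800020288000c0100068008002c002002400080a1203))) 
(.lf (nat_lit 1409432923) (dlOf (nat_lit 1) (nat_lit 0x260008000400201ca000800c903)))))) 
(.nd (nat_lit 7) (.nd (nat_lit 6) (.nd (nat_lit 3) 
(.lf (nat_lit 3959564563) (dlOf (nat_lit 1) (nat_lit 0x400400020008114b82))) (.nd (nat_lit 10) 
(.lf (nat_lit 3960086555) (dlOf (nat_lit 2) (nat_lit 0x101180041c040010004000c00081b0482))) 
(.lf (nat_lit 3959563291) (dlOf (nat_lit 2) (nat_lit 0xcc01c014470200020018112881))))) 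
(.nd (nat_lit 19) (.lf (nat_lit 6107045971) (dlOf (nat_lit 1) (nat_lit 0x20018040501))) 
(.nd (nat_lit 27) 
(.lf (nat_lit 1678385235) (dlOf (nat_lit 7) (nat_lit 0x400550012027000900dc0048024000a00a00090030000c8300110154006009c002e0370018018800600900088024001800a00090030000c0400020138000406e000a02b00060120002004800080140002e0c00080550004027000200dc00100240002d08003c0550016027000a80dc0030056001a024002000900050028001c00c0002b10003a0550003029800a8138005406e001402b000d012000f80480054020001200a00070030000a85001200080008002034c0008201983))) 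
(.lf (nat_lit 6376005715) (dlOf (nat_lit 2) (nat_lit 0xc6028006201300018410026800800f0002002a0008040503)))))) 
(.nd (nat_lit 11) (.nd (nat_lit 6) 
(.lf (nat_lit 6375481747) (dlOf (nat_lit 1) (nat_lit 0x400400020008001002))) (.nd (nat_lit 9) 
(.lf (nat_lit 1946296787) (dlOf (nat_lit 2) (nat_lit 0x280a4001360401b400400600008017102))) 
(.lf (nat_lit 3959563219) (dlOf (nat_lit 3) (nat_lit 0x19803802bb60400cc01c015d10200020018112881))))) 
(.nd (nat_lit 3) (.lf (nat_lit 3825347027) (dlOf (nat_lit 1) (nat_lit 0x140018144e81))) 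
(.lf (nat_lit 3959568859) (dlOf (nat_lit 2) (nat_lit 0x3a038002100b00305c100208008002c0020036000811b283))))))))) 
(.nd (nat_lit 30) (.nd (nat_lit 3) (.nd (nat_lit 6) (.nd (nat_lit 29) (.nd (nat_lit 24) 
(.nd (nat_lit 7) (.nd (nat_lit 19) (.nd (nat_lit 9) 
(.lf (nat_lit 10625075) (dlOf (nat_lit 1) (nat_lit 0x20008000800200040008600603))) 
(.lf (nat_lit 6576811571) (dlOf (nat_lit 1) (nat_lit 0x1000200020008147182)))) (.nd (nat_lit 27) 
(.lf (nat_lit 67772467) (dlOf (nat_lit 1) (nat_lit 0x600082e0f01))) 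
(.lf (nat_lit 470425651) (dlOf (nat_lit 1) (nat_lit 0x18004001800080e0a82))))) (.nd (nat_lit 8) 
(.lf (nat_lit 4333747) (dlOf (nat_lit 1) (nat_lit 0x400400020018290302))) 
(.lf (nat_lit 8529331) (dlOf (nat_lit 1) (nat_lit 0x400200020008513602))))) (.nd (nat_lit 20) 
(.nd (nat_lit 19) 
(.lf (nat_lit 25305139) (dlOf (nat_lit 3) (nat_lit 0x16e45800ab0e0001cd04003b916001fc3800072c1000b8008007800200c20008bf0b83))) 
(.lf (nat_lit 21635123) (dlOf (nat_lit 1) (nat_lit 0x80008a51001)))) (.nd (nat_lit 7) 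
(.lf (nat_lit 24256563) (dlOf (nat_lit 3) (nat_lit 0x180000003404000c0000001902001e0008b90a01))) 
(.lf (nat_lit 20068787) (dlOf (nat_lit 1) (nat_lit 0x9c004008600189daf82)))))) (.nd (nat_lit 26) 
(.nd (nat_lit 10) (.nd (nat_lit 28) 
(.lf (nat_lit 537534515) (dlOf (nat_lit 10) (nat_lit 0x1817c01f80b2008004b0000a03005d02c80004c0801f0164000240400280be0001102001205f0000801004b02580001408026812c000080400280be005804b0000182005302c8000000801a000800a400200ae00080a0a03))) 
(.lf (nat_lit 805969971) (dlOf (nat_lit 1) (nat_lit 0x20018201001)))) (.nd (nat_lit 7) 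
(.lf (nat_lit 805449011) (dlOf (nat_lit 1) (nat_lit 0x440028116881))) 
(.lf (nat_lit 939665075) (dlOf (nat_lit 1) (nat_lit 0x17000200020008143a82))))) (.nd (nat_lit 28) 
(.nd (nat_lit 20) (.lf (nat_lit 2885820467) (dlOf (nat_lit 1) (nat_lit 0xc004001800180b0002))) 
(.lf (nat_lit 2752651315) (dlOf (nat_lit 2) (nat_lit 0x1c450000e226000910b80073c1802100080068002003e0008030d03)))) 
(.nd (nat_lit 9) 
(.lf (nat_lit 3154780211) (dlOf (nat_lit 11) (nat_lit 0x17d02d0027805003d80060002706000c047003f023001f80e000fc058009802b0005003800280000004a1c02f00c8018e06001e802d0034011c019805001780140142001800b8008000142001140c8007a060016402d0007013400b0050008a01400d3001801c0008000122000bc0b400080030000382002a0018000180801e81680000a04031c0b4002c0030000202008b02d000b8010000060804380b4000a04700810018000001801c800800d400200920008320f03))) 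
(.lf (nat_lit 1008871987) (dlOf (nat_lit 2) (nat_lit 0x403e4000c0da0008b0400060028fa5181))))))) 
(.nd (nat_lit 7) (.nd (nat_lit 8) (.nd (nat_lit 9) (.nd (nat_lit 20) 
(.lf (nat_lit 537534579) (dlOf (nat_lit 2) (nat_lit 0x4e0160001c604007c002006c00080a1602))) 
(.lf (nat_lit 28975219) (dlOf (nat_lit 1) (nat_lit 0x8008000400200020008da0483)))) 
(.lf (nat_lit 53094003) (dlOf (nat_lit 1) (nat_lit 0x400200020009573982)))) (.nd (nat_lit 9) 
(.nd (nat_lit 11) 
(.lf (nat_lit 43131251) (dlOf (nat_lit 1) (nat_lit 0x2b80080004002008c00092a1003))) 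
(.lf (nat_lit 36317555) (dlOf (nat_lit 1) (nat_lit 0x20019074e81)))) 
(.lf (nat_lit 8533875) (dlOf (nat_lit 1) (nat_lit 0x5100080004002008a000851a303))))) 
(.nd (nat_lit 9) (.nd (nat_lit 8) (.nd (nat_lit 24) 
(.lf (nat_lit 11673843) (dlOf (nat_lit 1) (nat_lit 0x200080010002000600086c0483))) 
(.lf (nat_lit 28451059) (dlOf (nat_lit 1) (nat_lit 0x400200020008da0602)))) 
(.lf (nat_lit 9057779) (dlOf (nat_lit 1) (nat_lit 0x10008000800200080008519c03)))) 
(.nd (nat_lit 19) (.nd (nat_lit 20) 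
(.lf (nat_lit 37889011) (dlOf (nat_lit 1) (nat_lit 0x800290d2881))) 
(.lf (nat_lit 53617651) (dlOf (nat_lit 1) (nat_lit 0x4004000200095f2882)))) 
(.lf (nat_lit 738862067) (dlOf (nat_lit 1) (nat_lit 0x30004002a0018122882))))))) (.nd (nat_lit 7) 
(.nd (nat_lit 8) (.nd (nat_lit 23) (.nd (nat_lit 19) (.nd (nat_lit 6) (.nd (nat_lit 9) 
(.lf (nat_lit 4697759803) (dlOf (nat_lit 1) (nat_lit 0x10c00400040018090002))) 
(.lf (nat_lit 4697761339) (dlOf (nat_lit 3) (nat_lit 0x3c0520001a0200060290000c018093780)))) 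
(.lf (nat_lit 2885820539) (dlOf (nat_lit 1) (nat_lit 0x200180b0081)))) (.nd (nat_lit 22) 
(.nd (nat_lit 28) 
(.lf (nat_lit 537534523) (dlOf (nat_lit 3) (nat_lit 0x7a0570001a81003402e8006015c00000080004004000200080a0c02))) 
(.lf (nat_lit 805969979) (dlOf (nat_lit 2) (nat_lit 0x402b00013c080090008001400200240008201403)))) 
(.lf (nat_lit 21635131) (dlOf (nat_lit 5) (nat_lit 0x828a000a139000909a000483a4015be10000828a0002142000509c800484d000241d200ade0a0012145000609c800304d000181d200adc08000a145000809c800584d0002c1d200ada0800140008a51681))))) 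
(.nd (nat_lit 22) (.nd (nat_lit 9) 
(.lf (nat_lit 25305147) (dlOf (nat_lit 4) (nat_lit 0x1987000050810009c8b000e61c0000fc0800d322c000240200020028bf0b81))) 
(.lf (nat_lit 11674171) (dlOf (nat_lit 4) (nat_lit 0x85c63003cdeb00007410015718c00977ac0001c040017c63002adeb0000681000380080008002000600086c1003)))) 
(.nd (nat_lit 25) 
(.lf (nat_lit 12722235) (dlOf (nat_lit 3) (nat_lit 0x268600017810170343002114840005c08001c002000600086e0b82))) 
(.lf (nat_lit 46276667) (dlOf (nat_lit 1) (nat_lit 0x60029380001)))))) (.nd (nat_lit 6) 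
(.nd (nat_lit 11) (.nd (nat_lit 19) 
(.lf (nat_lit 1006772539) (dlOf (nat_lit 1) (nat_lit 0xc00400080008068502))) 
(.lf (nat_lit 30023995) (dlOf (nat_lit 1) (nat_lit 0x400400020008e30702)))) 
(.lf (nat_lit 537016635) (dlOf (nat_lit 1) (nat_lit 0x4001800ab81)))) (.nd (nat_lit 9) 
(.lf (nat_lit 68823419) (dlOf (nat_lit 1) (nat_lit 0x160018784e81))) 
(.lf (nat_lit 54668155) (dlOf (nat_lit 1) (nat_lit 0xdc0029655c01)))))) (.nd (nat_lit 6) 
(.nd (nat_lit 10) (.nd (nat_lit 20) (.nd (nat_lit 8) 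
(.lf (nat_lit 268574907) (dlOf (nat_lit 1) (nat_lit 0x160028081701))) 
(.lf (nat_lit 32123323) (dlOf (nat_lit 1) (nat_lit 0x20028ef4e81)))) (.nd (nat_lit 21) 
(.lf (nat_lit 9576635) (dlOf (nat_lit 1) (nat_lit 0x48008000400200160008571703))) 
(.lf (nat_lit 3285179) (dlOf (nat_lit 1) (nat_lit 0x400400020018200382))))) (.nd (nat_lit 9) 
(.nd (nat_lit 21) 
(.lf (nat_lit 474096827) (dlOf (nat_lit 7) (nat_lit 0x602d0004a0170001e82004000b8000ec080278810010c3420042168005b0a28025033c00cc164004c073002f00b800400540006e240130408007e1a1001c0b4002c8514012419e00660b200280398014805c013402a0003612001216800350a2801a833c006c02e0003408006220400220d0800885a000d028a00540cf0038039800a005c000001c005000400200009082c82))) 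
(.lf (nat_lit 48374971) (dlOf (nat_lit 6) (nat_lit 0xa280c000208100514060000f408028a0300114e820003704013c80c00413a08000d81001100000000004002c00200100009402c82)))) 
(.lf (nat_lit 805449403) (dlOf (nat_lit 5) (nat_lit 0x3813c0014098000803800019030003027800680e0001804c0002e06000804f00030130000b410001000000014040170004006a0008117282))))) 
(.nd (nat_lit 8) (.nd (nat_lit 10) 
(.lf (nat_lit 50995451) (dlOf (nat_lit 1) (nat_lit 0x200194e7a81))) (.nd (nat_lit 11) 
(.lf (nat_lit 8533243) (dlOf (nat_lit 1) (nat_lit 0x400200020008519502))) 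
(.lf (nat_lit 805448955) (dlOf (nat_lit 1) (nat_lit 0x70008002400200060008116603))))) 
(.nd (nat_lit 20) (.lf (nat_lit 6442591227) (dlOf (nat_lit 1) (nat_lit 0x188004005000080f2882))) 
(.lf (nat_lit 57811963) (dlOf (nat_lit 1) (nat_lit 0x8008000800200020009792883)))))))) 
(.nd (nat_lit 3) (.nd (nat_lit 26) (.nd (nat_lit 28) (.nd (nat_lit 6) (.nd (nat_lit 7) 
(.nd (nat_lit 8) 
(.lf (nat_lit 3221889075) (dlOf (nat_lit 9) (nat_lit 0xde408604fa04003de01c000150180cb8118068008600ee040000a01c00014c2006c01180340086016e0400002903010a0228079810803f40660001b06008604c005802280280108010c07e008e0330025017002200240002e1c016808400014020010045003702100004410028010c00000040094004000800181b0682))) 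
(.lf (nat_lit 1073881395) (dlOf (nat_lit 1) (nat_lit 0x8008000400200020008014c03)))) 
(.nd (nat_lit 11) 
(.lf (nat_lit 1073881523) (dlOf (nat_lit 1) (nat_lit 0x8008008000200020008017783))) 
(.lf (nat_lit 3221367219) (dlOf (nat_lit 3) (nat_lit 0x19803802e7c04005001c0173c0200020018114e81))))) 
(.nd (nat_lit 7) (.nd (nat_lit 29) 
(.lf (nat_lit 1208101491) (dlOf (nat_lit 1) (nat_lit 0xc0018095401))) 
(.lf (nat_lit 1744972403) (dlOf (nat_lit 2) (nat_lit 0x5016800000080008008000800200020008095403)))) 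
(.lf (nat_lit 3758236147) (dlOf (nat_lit 2) (nat_lit 0x3400e00090060006fc1001a0008002000200160008107403))))) 
(.nd (nat_lit 6) (.nd (nat_lit 19) (.nd (nat_lit 20) (.nd (nat_lit 29) 
(.lf (nat_lit 1476534323) (dlOf (nat_lit 4) (nat_lit 0xc024000600a00020000001181800180000008804002407e0000002000c0008040d81))) 
(.lf (nat_lit 2013405235) (dlOf (nat_lit 1) (nat_lit 0x400200060008051002)))) 
(.lf (nat_lit 3490848819) (dlOf (nat_lit 2) (nat_lit 0x1c426000e211000910100073c1802100080068002003e0008030d03)))) 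
(.nd (nat_lit 7) (.lf (nat_lit 1342840883) (dlOf (nat_lit 1) (nat_lit 0x18004001800080e0a82))) 
(.lf (nat_lit 3490327731) (dlOf (nat_lit 1) (nat_lit 0x20028006281))))) (.nd (nat_lit 10) 
(.nd (nat_lit 20) (.lf (nat_lit 3493994611) (dlOf (nat_lit 1) (nat_lit 0x4004000600081b0082))) 
(.lf (nat_lit 1880236147) (dlOf (nat_lit 1) (nat_lit 0x2a00187f2581)))) 
(.lf (nat_lit 5773599859) (dlOf (nat_lit 1) (nat_lit 0x200280e2a01)))))) (.nd (nat_lit 6) 
(.nd (nat_lit 28) (.nd (nat_lit 7) (.nd (nat_lit 19) 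
(.lf (nat_lit 1140990003) (dlOf (nat_lit 1) (nat_lit 0x400200060008051002))) 
(.lf (nat_lit 3960086579) (dlOf (nat_lit 9) (nat_lit 0xde408604fa04003de01c000150180cb8118068008600ee040000a01c00014c2006c01180340086016e0400002903010a0228079810803f40660001b06008604c005802280280108010c07e008e0330025017002200240002e1c016808400014020010045003702100004410028010c00000040094004000800181b0682)))) 
(.lf (nat_lit 3825347763) (dlOf (nat_lit 1) (nat_lit 0x400200020008146282)))) (.nd (nat_lit 29) 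
(.nd (nat_lit 19) 
(.lf (nat_lit 3691126835) (dlOf (nat_lit 5) (nat_lit 0x20150000b0100040148004804800024080004052001001200007020001005000280000000008001800200080008040d82))) 
(.lf (nat_lit 1409949747) (dlOf (nat_lit 10) (nat_lit 0x1817c01f80b2008004b0001583005d02c8000a80801f0164000520400280be0002702001205f0001301004b02580006c08026812c000340400280be005804b0000c82005302c8000000801a000800a400200ae00080a0a03)))) 
(.nd (nat_lit 8) 
(.lf (nat_lit 1946296883) (dlOf (nat_lit 10) (nat_lit 0xd40148003cc0806a00a4001d804019c0520001102003a029000068100d401480002c0800080a40000c0400680520000402005e02900001810102014800000080058008004c00200020008018003))) 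
(.lf (nat_lit 1946296627) (dlOf (nat_lit 1) (nat_lit 0x8008000400200020008014c03)))))) 
(.nd (nat_lit 9) (.nd (nat_lit 7) 
(.lf (nat_lit 1409949811) (dlOf (nat_lit 2) (nat_lit 0x4e0160001c604007c002006c00080a1602))) 
(.nd (nat_lit 10) (.lf (nat_lit 3959564531) (dlOf (nat_lit 1) (nat_lit 0x2800400020008114b82))) 
(.lf (nat_lit 1543646451) (dlOf (nat_lit 1) (nat_lit 0x20008146581))))) (.nd (nat_lit 8) 
(.nd (nat_lit 21) (.lf (nat_lit 4093782771) (dlOf (nat_lit 1) (nat_lit 0x400400020008005a02))) 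
(.lf (nat_lit 6377581299) (dlOf (nat_lit 1) (nat_lit 0x4004000200080e5a02)))) 
(.lf (nat_lit 6241266675) (dlOf (nat_lit 1) (nat_lit 0x2400280d5f01))))))) (.nd (nat_lit 7) 
(.nd (nat_lit 8) (.nd (nat_lit 27) (.nd (nat_lit 9) (.nd (nat_lit 26) 
(.lf (nat_lit 4026671163) (dlOf (nat_lit 3) (nat_lit 0x1100200002081005d0100000f40803600080110002017c0008020703))) 
(.lf (nat_lit 3288473659) (dlOf (nat_lit 3) (nat_lit 0x1100200002081005d0100000f40803600080110002017c0008020703)))) 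
(.lf (nat_lit 1610753595) (dlOf (nat_lit 3) (nat_lit 0x1281600054082005c032002e00e000a805c005402c000a00d00280018000684000380a80002804006c00400040018093782)))) 
(.nd (nat_lit 6) (.lf (nat_lit 3624017979) (dlOf (nat_lit 1) (nat_lit 0xa00280b0001))) 
(.lf (nat_lit 3624018043) (dlOf (nat_lit 1) (nat_lit 0x200180b0081))))) (.nd (nat_lit 6) 
(.nd (nat_lit 9) (.lf (nat_lit 1543646523) (dlOf (nat_lit 1) (nat_lit 0x3000200020008146902))) 
(.nd (nat_lit 10) (.lf (nat_lit 6241266491) (dlOf (nat_lit 1) (nat_lit 0x4a00280d5c01))) 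
(.lf (nat_lit 1342322491) (dlOf (nat_lit 2) (nat_lit 0x58594000380400080040004001800a102))))) 
(.nd (nat_lit 9) 
(.lf (nat_lit 3556911483) (dlOf (nat_lit 2) (nat_lit 0x58034004f2040004004000200180d4e82))) 
(.nd (nat_lit 10) (.lf (nat_lit 5771504507) (dlOf (nat_lit 1) (nat_lit 0x400200020008005c02))) 
(.lf (nat_lit 1677862779) (dlOf (nat_lit 2) (nat_lit 0x15009800090080288008006c00200140008114103))))))) 
(.nd (nat_lit 6) (.nd (nat_lit 9) (.nd (nat_lit 10) (.nd (nat_lit 22) 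
(.lf (nat_lit 3624018107) (dlOf (nat_lit 2) (nat_lit 0xa00a0000000800300080130002000e00080b0383))) 
(.lf (nat_lit 3493994683) (dlOf (nat_lit 1) (nat_lit 0x600181b0381)))) 
(.lf (nat_lit 1543646395) (dlOf (nat_lit 1) (nat_lit 0xa0018146301)))) (.nd (nat_lit 8) 
(.lf (nat_lit 1208101563) (dlOf (nat_lit 1) (nat_lit 0x400200020008095782))) 
(.lf (nat_lit 5972830139) (dlOf (nat_lit 1) (nat_lit 0x20028144381))))) (.nd (nat_lit 10) 
(.nd (nat_lit 27) 
(.lf (nat_lit 1073881595) (dlOf (nat_lit 2) (nat_lit 0x74052000000200020008017e01))) 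
(.lf (nat_lit 3355582971) (dlOf (nat_lit 1) (nat_lit 0x1d000800b8002003800080a1483)))) 
(.nd (nat_lit 9) 
(.lf (nat_lit 3355588091) (dlOf (nat_lit 3) (nat_lit 0x203100010090029f81000c00c4014da040054004001a00080a9c02))) 
(.lf (nat_lit 5905721339) (dlOf (nat_lit 1) (nat_lit 0x40028144681)))))))))) (.nd (nat_lit 3) 
(.nd (nat_lit 5) (.nd (nat_lit 6) (.nd (nat_lit 26) (.nd (nat_lit 19) (.nd (nat_lit 23) 
(.nd (nat_lit 27) (.nd (nat_lit 32) (.nd (nat_lit 7) 
(.lf (nat_lit 805707795) (dlOf (nat_lit 2) (nat_lit 0xa80b40000a04001c004000a0008190302))) 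
(.nd (nat_lit 8) (.lf (nat_lit 1611014291) (dlOf (nat_lit 1) (nat_lit 0x600180c1081))) 
(.lf (nat_lit 1611014547) (dlOf (nat_lit 1) (nat_lit 0x200180c6481))))) (.nd (nat_lit 28) 
(.nd (nat_lit 29) 
(.lf (nat_lit 6442852371) (dlOf (nat_lit 1) (nat_lit 0xe80080130002006a00081e0183))) 
(.lf (nat_lit 4832239635) (dlOf (nat_lit 1) (nat_lit 0x80080050002000c0008140103)))) 
(.lf (nat_lit 4563804179) (dlOf (nat_lit 4) (nat_lit 0xdc0660000a020048033000028101fe0198000000800a800800dc002000200080e0283))))) 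
(.nd (nat_lit 28) (.nd (nat_lit 7) (.nd (nat_lit 29) 
(.lf (nat_lit 3355844627) (dlOf (nat_lit 6) (nat_lit 0x80520003202002202b000a0148000c41000880ac0005e040048056000400f000170200050158000a808085800801a4002027e0008120383))) 
(.lf (nat_lit 3892715539) (dlOf (nat_lit 1) (nat_lit 0x28002000400081d0482)))) 
(.lf (nat_lit 134619283) (dlOf (nat_lit 5) (nat_lit 0x3440760005602003403b0002a8100e501d8000440801080ec0002004023400400020008090182)))) 
(.nd (nat_lit 30) 
(.lf (nat_lit 4698021907) (dlOf (nat_lit 7) (nat_lit 0x180c8000c804021c066000190203440330000b0100330198000500803c80cc0000a04017c0660000202000200280e0181))) 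
(.lf (nat_lit 1476796435) (dlOf (nat_lit 3) (nat_lit 0xa0000002a01000600000012c0800580080008002001a00081f0203)))))) 
(.nd (nat_lit 21) (.nd (nat_lit 20) (.nd (nat_lit 24) 
(.lf (nat_lit 12984339) (dlOf (nat_lit 1) (nat_lit 0x4002000400086f0182))) 
(.lf (nat_lit 29761555) (dlOf (nat_lit 1) (nat_lit 0x400200020008e30002)))) 
(.lf (nat_lit 26615827) (dlOf (nat_lit 2) (nat_lit 0x1a966100d2a7a805f4e8402065f8017c39000711070007e03001180080080002001e0008c50083)))) 
(.nd (nat_lit 22) (.lf (nat_lit 10887187) (dlOf (nat_lit 1) (nat_lit 0x80c00201520008640482))) 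
(.lf (nat_lit 15081491) (dlOf (nat_lit 1) (nat_lit 0x4002000200087b0382)))))) (.nd (nat_lit 8) 
(.nd (nat_lit 20) (.nd (nat_lit 21) (.nd (nat_lit 22) 
(.lf (nat_lit 2819498003) (dlOf (nat_lit 3) (nat_lit 0x701b00033c0801580b000000040038004000a00082b0382))) 
(.lf (nat_lit 13508627) (dlOf (nat_lit 1) (nat_lit 0x900080004002001a0008730883)))) 
(.lf (nat_lit 15605779) (dlOf (nat_lit 1) (nat_lit 0x400400080018810382)))) (.nd (nat_lit 7) 
(.nd (nat_lit 21) (.lf (nat_lit 27140115) (dlOf (nat_lit 1) (nat_lit 0x8008001400200060008cb0203))) 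
(.lf (nat_lit 29237267) (dlOf (nat_lit 2) (nat_lit 0x42b0200014018de0380)))) 
(.lf (nat_lit 3491635347) (dlOf (nat_lit 2) (nat_lit 0x420700017818090180))))) (.nd (nat_lit 7) 
(.nd (nat_lit 9) (.nd (nat_lit 10) 
(.lf (nat_lit 19800339) (dlOf (nat_lit 1) (nat_lit 0x200089d0a81))) 
(.lf (nat_lit 8271123) (dlOf (nat_lit 1) (nat_lit 0xc004001a0008519682)))) 
(.lf (nat_lit 19806995) (dlOf (nat_lit 1) (nat_lit 0x20008001c002000400089dba83)))) 
(.nd (nat_lit 11) 
(.lf (nat_lit 1346249107) (dlOf (nat_lit 2) (nat_lit 0x82d800160060003000800594180018008001400200040008e81003))) 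
(.lf (nat_lit 37628307) (dlOf (nat_lit 1) (nat_lit 0x200090d4e81))))))) (.nd (nat_lit 29) 
(.nd (nat_lit 20) (.nd (nat_lit 19) (.nd (nat_lit 7) (.nd (nat_lit 30) 
(.lf (nat_lit 2617647123) (dlOf (nat_lit 5) (nat_lit 0x300b8000ac040034064001202f0001782000f0178000500801980000000004004400400020018130182))) 
(.lf (nat_lit 5838872595) (dlOf (nat_lit 5) (nat_lit 0x130000000640800a80000003004005400000016020022033000c018000f00000000a0c00dc002002e00081e0282)))) 
(.lf (nat_lit 201728147) (dlOf (nat_lit 5) (nat_lit 0x3440760005602003403b0002a8100e501d8000440801080ec0002004023400400020008090182)))) 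
(.nd (nat_lit 28) (.lf (nat_lit 68034579) (dlOf (nat_lit 1) (nat_lit 0x200183a0381))) 
(.lf (nat_lit 3557695507) (dlOf (nat_lit 3) (nat_lit 0x701c0003740801580b000000040038004000a00082b0382))))) 
(.nd (nat_lit 7) (.nd (nat_lit 27) 
(.lf (nat_lit 68558867) (dlOf (nat_lit 1) (nat_lit 0x8200185b0381))) 
(.lf (nat_lit 471212051) (dlOf (nat_lit 1) (nat_lit 0x200080014002001a00082c0683)))) 
(.lf (nat_lit 473311635) (dlOf (nat_lit 1) (nat_lit 0x74004004c0018e94e82))))) (.nd (nat_lit 31) 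
(.nd (nat_lit 7) (.nd (nat_lit 30) (.nd (nat_lit 32) 
(.lf (nat_lit 604381203) (dlOf (nat_lit 3) (nat_lit 0xa0000002a01000600000012c0800580080008002001a00081f0203))) 
(.lf (nat_lit 4899348499) (dlOf (nat_lit 1) (nat_lit 0xa0008140101)))) 
(.lf (nat_lit 1678123027) (dlOf (nat_lit 5) (nat_lit 0x880b40002004002c05a0000f02005c0440000701001601680001408030800801c800200300008190403)))) 
(.lf (nat_lit 738599059) (dlOf (nat_lit 1) (nat_lit 0x600180c1081)))) (.nd (nat_lit 7) 
(.nd (nat_lit 10) (.lf (nat_lit 3020300307) (dlOf (nat_lit 1) (nat_lit 0x9800400340018220402))) 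
(.lf (nat_lit 2751865875) (dlOf (nat_lit 1) (nat_lit 0x400200020008002882)))) 
(.lf (nat_lit 2753437843) (dlOf (nat_lit 2) (nat_lit 0x421c00017818090180))))))) (.nd (nat_lit 30) 
(.nd (nat_lit 24) (.nd (nat_lit 32) (.nd (nat_lit 19) (.nd (nat_lit 9) 
(.lf (nat_lit 37101651) (dlOf (nat_lit 1) (nat_lit 0x20029090781))) 
(.lf (nat_lit 8790611) (dlOf (nat_lit 1) (nat_lit 0x400200020008511682)))) (.nd (nat_lit 8) 
(.lf (nat_lit 42868819) (dlOf (nat_lit 4) (nat_lit 0x40000001301002b0000000940801800000004204000c00200020009280782))) 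
(.lf (nat_lit 2752389459) (dlOf (nat_lit 1) (nat_lit 0x50002000c0008014d82))))) (.nd (nat_lit 8) 
(.nd (nat_lit 27) 
(.lf (nat_lit 6509961299) (dlOf (nat_lit 1) (nat_lit 0xe80080034002000a0008171083))) 
(.lf (nat_lit 4496695379) (dlOf (nat_lit 5) (nat_lit 0x880d800f406800f20330083019000880c0004405e002002a00180138013008c00e0042000451400880340062019803a00c8000406000c80230001f85011c019000080bc056404401840210001c04006101900680088000680811d400400040018120502)))) 
(.nd (nat_lit 7) (.lf (nat_lit 4362477907) (dlOf (nat_lit 1) (nat_lit 0x40018090681))) 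
(.lf (nat_lit 4362478035) (dlOf (nat_lit 2) (nat_lit 0x7019800000080090008003400200180008090a83)))))) 
(.nd (nat_lit 7) (.nd (nat_lit 20) (.nd (nat_lit 22) 
(.lf (nat_lit 17178707) (dlOf (nat_lit 2) (nat_lit 0x5a43f0001b8188e0280))) 
(.lf (nat_lit 29761619) (dlOf (nat_lit 2) (nat_lit 0xc5d14005e9d40001b828e30280)))) 
(.lf (nat_lit 26615891) (dlOf (nat_lit 2) (nat_lit 0xa3b30805b53d00005608000400400020008c50782)))) 
(.nd (nat_lit 8) (.nd (nat_lit 11) 
(.lf (nat_lit 61744339) (dlOf (nat_lit 2) (nat_lit 0x205770000ec080010008000c00200040009922d83))) 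
(.lf (nat_lit 19807443) (dlOf (nat_lit 1) (nat_lit 0x400289dc301)))) 
(.lf (nat_lit 19806675) (dlOf (nat_lit 1) (nat_lit 0x200289db181)))))) (.nd (nat_lit 7) 
(.nd (nat_lit 26) (.nd (nat_lit 21) (.nd (nat_lit 28) 
(.lf (nat_lit 5905981523) (dlOf (nat_lit 1) (nat_lit 0xe80080034002000a0008171083))) 
(.lf (nat_lit 4026933331) (dlOf (nat_lit 1) (nat_lit 0x84004006200080d0d82)))) 
(.lf (nat_lit 1881546835) (dlOf (nat_lit 7) (nat_lit 0x1801c600da07b0001102005503d80002808027038c01740f60000904002607b0000381001903d80000c08026038c01480f6000000400540028f40781)))) 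
(.nd (nat_lit 8) (.lf (nat_lit 3288735827) (dlOf (nat_lit 1) (nat_lit 0x84004006200080d0d82))) 
(.lf (nat_lit 4228260179) (dlOf (nat_lit 1) (nat_lit 0x40018090681))))) (.nd (nat_lit 19) 
(.nd (nat_lit 8) (.nd (nat_lit 9) 
(.lf (nat_lit 3624283347) (dlOf (nat_lit 1) (nat_lit 0x20028146481))) 
(.lf (nat_lit 1745234643) (dlOf (nat_lit 1) (nat_lit 0x2000280e5881)))) 
(.lf (nat_lit 4228260307) (dlOf (nat_lit 2) (nat_lit 0x7019000000080090008003400200180008090a83)))) 
(.nd (nat_lit 8) (.nd (nat_lit 9) 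
(.lf (nat_lit 3493732563) (dlOf (nat_lit 1) (nat_lit 0x200181b0481))) 
(.lf (nat_lit 1345202899) (dlOf (nat_lit 3) (nat_lit 0x30000000340400140000001802000e0008b05881)))) 
(.lf (nat_lit 6376270291) (dlOf (nat_lit 1) (nat_lit 0x4c00200140008094e82)))))))) 
(.nd (nat_lit 28) (.nd (nat_lit 19) (.nd (nat_lit 6) (.nd (nat_lit 29) (.nd (nat_lit 9) 
(.nd (nat_lit 30) (.nd (nat_lit 7) 
(.lf (nat_lit 29761587) (dlOf (nat_lit 1) (nat_lit 0x400200020008e30002))) 
(.lf (nat_lit 3547315) (dlOf (nat_lit 1) (nat_lit 0x20018200301)))) (.nd (nat_lit 26) 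
(.lf (nat_lit 1208361011) (dlOf (nat_lit 1) (nat_lit 0x4004000200080d0a82))) 
(.lf (nat_lit 3288735795) (dlOf (nat_lit 3) (nat_lit 0x1f0040001cd0200fc020000e58180d0b80))))) 
(.nd (nat_lit 11) 
(.lf (nat_lit 21373491) (dlOf (nat_lit 3) (nat_lit 0xdc67a8000780801e33d400038040004004000a0008a38002))) 
(.lf (nat_lit 42347059) (dlOf (nat_lit 2) (nat_lit 0x1a00000045819245180))))) (.nd (nat_lit 21) 
(.nd (nat_lit 27) 
(.lf (nat_lit 537272371) (dlOf (nat_lit 3) (nat_lit 0xc05a0016029000d00cc001c05600100220001f850010029000a00cc000c0560010022000200f8000002800080080028002000c0008070983))) 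
(.lf (nat_lit 3892715571) (dlOf (nat_lit 25) (nat_lit 0x2f80700002b02003a03802e10160000a410005016802380a8000260400280580014022003f0104000807000b802b00360058000943000e8104000480403080c60096061005b02f80a7016002f80ac0230053003b0270043012409b808e04e8046016102200d8010c07b00820296040025401c005100d404c406001cc02d027c015803e009c004404a006401301b10058086800403d40000002332063a02c0001101006501600008408036018c00500c2004a05f016102c006f814c002c09c0036049028c023814701180460088034c04301f302080bb810009a807002a6030004801680b680b0006c05600b8027008d00580078004000405403540a80001d02003e0040000d8102db02d00b781640128008017a0030000d0400500320181016805780b20120055011402a002200e0071805e036a02c00a200a0080001c017400805840030000c8c00eb03201e78168080c0b2035c055016a02a00080134050c07000f20340021019014b00bc05c00580086028013d00a004f00100e68006000181e05c605a010b02a002a00100002e0c02f80700001602017c03800560020000541000f8168000280401080580001102019205a0000801002a02d005f80e0051405800300040000484036e02d002a0150085405e066c0030000284034602d0025015007b405e05f20030000184037202d00700154008807003ca02f030e0018000002843f000802e4002008e00081d0783))))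 
(.lf (nat_lit 2753962035) (dlOf (nat_lit 1) (nat_lit 0x400080a0a01))))) (.nd (nat_lit 7) 
(.nd (nat_lit 8) 
(.lf (nat_lit 9838707) (dlOf (nat_lit 3) (nat_lit 0x20ca000141e00010282000e3280000000800c8008008400200640008580d83))) 
(.nd (nat_lit 26) 
(.lf (nat_lit 134619507) (dlOf (nat_lit 3) (nat_lit 0x440760073e02006403b0039b818090780))) 
(.lf (nat_lit 201728371) (dlOf (nat_lit 3) (nat_lit 0x4407600ce702006403b00670018090780))))) 
(.nd (nat_lit 8) (.lf (nat_lit 20330739) (dlOf (nat_lit 1) (nat_lit 0x200189da901))) 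
(.lf (nat_lit 36054003) (dlOf (nat_lit 1) (nat_lit 0x400400020009012882)))))) (.nd (nat_lit 6) 
(.nd (nat_lit 26) (.nd (nat_lit 7) (.nd (nat_lit 24) 
(.lf (nat_lit 537796659) (dlOf (nat_lit 1) (nat_lit 0x500080010002001400081b0003))) 
(.lf (nat_lit 17702963) (dlOf (nat_lit 1) (nat_lit 0x4002000200088f0f02)))) 
(.lf (nat_lit 8270515) (dlOf (nat_lit 1) (nat_lit 0x8008000400200020008518c83)))) (.nd (nat_lit 7) 
(.nd (nat_lit 8) (.lf (nat_lit 2752389683) (dlOf (nat_lit 1) (nat_lit 0x20028018b01))) 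
(.lf (nat_lit 2755535155) (dlOf (nat_lit 2) (nat_lit 0x18051000308181b0500)))) 
(.lf (nat_lit 2752389555) (dlOf (nat_lit 1) (nat_lit 0xa78008002000201860008017783))))) 
(.nd (nat_lit 7) (.nd (nat_lit 8) 
(.lf (nat_lit 52306035) (dlOf (nat_lit 1) (nat_lit 0x60029521e81))) 
(.lf (nat_lit 8267123) (dlOf (nat_lit 2) (nat_lit 0x26e46000526100015828513500)))) 
(.nd (nat_lit 21) (.lf (nat_lit 18751731) (dlOf (nat_lit 1) (nat_lit 0x400200020008970602))) 
(.lf (nat_lit 20848883) (dlOf (nat_lit 2) (nat_lit 0xa6d400948040014004001200089e4502))))))) 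
(.nd (nat_lit 31) (.nd (nat_lit 26) (.nd (nat_lit 6) (.nd (nat_lit 21) (.nd (nat_lit 27) 
(.lf (nat_lit 4563804211) (dlOf (nat_lit 3) (nat_lit 0x809c0086c04005c056000e02900060138010cc18009800800d0002005400080e1003))) 
(.lf (nat_lit 4698021939) (dlOf (nat_lit 3) (nat_lit 0x809c0139a04005c056000e029000601380272818009800800d0002005400080e1003)))) 
(.lf (nat_lit 1881546803) (dlOf (nat_lit 1) (nat_lit 0xc00200060008f40402)))) (.nd (nat_lit 7) 
(.lf (nat_lit 5637546099) (dlOf (nat_lit 2) (nat_lit 0x2025001700c000814100010008003c00200240008100d83))) 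
(.lf (nat_lit 1881546995) (dlOf (nat_lit 1) (nat_lit 0x400200100008f42482))))) (.nd (nat_lit 19) 
(.nd (nat_lit 6) (.lf (nat_lit 2080776243) (dlOf (nat_lit 1) (nat_lit 0x4004000200080d0a82))) 
(.lf (nat_lit 6241525875) (dlOf (nat_lit 2) (nat_lit 0x2026001700c000810100010008003c00200240008100d83)))) 
(.nd (nat_lit 9) (.lf (nat_lit 471740467) (dlOf (nat_lit 1) (nat_lit 0x9400283d7c81))) 
(.lf (nat_lit 6376270387) (dlOf (nat_lit 2) (nat_lit 0x801d0007b40800100080054002000a0008095183)))))) 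
(.nd (nat_lit 27) (.nd (nat_lit 19) (.nd (nat_lit 21) (.nd (nat_lit 29) 
(.lf (nat_lit 2416320563) (dlOf (nat_lit 3) (nat_lit 0x11400c0004c0200920060001a8180e0680))) 
(.lf (nat_lit 4026933299) (dlOf (nat_lit 3) (nat_lit 0x1f0040001cd0200fc020000e58180d0b80)))) 
(.lf (nat_lit 3492159539) (dlOf (nat_lit 1) (nat_lit 0x400080a0a01)))) (.nd (nat_lit 6) 
(.lf (nat_lit 3490587187) (dlOf (nat_lit 1) (nat_lit 0x10004000e0008018002))) 
(.lf (nat_lit 4095615475) (dlOf (nat_lit 1) (nat_lit 0x200280e1401))))) (.nd (nat_lit 10) 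
(.nd (nat_lit 26) 
(.lf (nat_lit 2550538291) (dlOf (nat_lit 3) (nat_lit 0x11400c0004c0200920060001a8180e0680))) 
(.lf (nat_lit 3154518067) (dlOf (nat_lit 5) (nat_lit 0x3023800094080b1011c060008c02f8044013d02180578104057407002b003000dc00580008c400b4011c060408c027a04301600180000802000e0140000360400bc004001000081f0782)))) 
(.nd (nat_lit 6) (.lf (nat_lit 3624283315) (dlOf (nat_lit 1) (nat_lit 0x20028146281))) 
(.lf (nat_lit 3624283507) (dlOf (nat_lit 1) (nat_lit 0x20028146b81))))))))) (.nd (nat_lit 5) 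
(.nd (nat_lit 28) (.nd (nat_lit 22) (.nd (nat_lit 27) (.nd (nat_lit 20) (.nd (nat_lit 8) 
(.nd (nat_lit 26) (.nd (nat_lit 29) 
(.lf (nat_lit 3221626907) (dlOf (nat_lit 1) (nat_lit 0x40008002000200040008160503))) 
(.lf (nat_lit 5905981467) (dlOf (nat_lit 1) (nat_lit 0x2400200680008170882)))) 
(.lf (nat_lit 6509961243) (dlOf (nat_lit 1) (nat_lit 0x2400200680008170882)))) (.nd (nat_lit 7) 
(.lf (nat_lit 19800347) (dlOf (nat_lit 1) (nat_lit 0x200089d0a81))) 
(.lf (nat_lit 19807643) (dlOf (nat_lit 1) (nat_lit 0x4002001800089dca82))))) (.nd (nat_lit 6) 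
(.nd (nat_lit 7) (.nd (nat_lit 21) 
(.lf (nat_lit 26615835) (dlOf (nat_lit 2) (nat_lit 0x99d08000a4080010008000c00200020008c50103))) 
(.lf (nat_lit 62267419) (dlOf (nat_lit 1) (nat_lit 0x20009990201)))) 
(.lf (nat_lit 12460187) (dlOf (nat_lit 1) (nat_lit 0x600186c0181)))) (.nd (nat_lit 7) 
(.lf (nat_lit 9838683) (dlOf (nat_lit 16) (nat_lit 0x2a0398016c1bb00710ce000158180418730027037600ac19c0002a83000a0e60001500801387300050376000530400041e00002781005f0f0003187680009c08006c3c0002c1da000268200040f00000ec08013878001803b4000370400321e0000e0ed0000d81000213f40006404027c398015a1bb00760ce00004c18050873002b037600a419c0000903002d0e6000b86ec00143380001106012a1cc00a30dd801d0670000200c004000201480008580682))) 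
(.lf (nat_lit 2755535067) (dlOf (nat_lit 2) (nat_lit 0x98051000150181b0480)))))) (.nd (nat_lit 26) 
(.nd (nat_lit 30) (.nd (nat_lit 7) 
(.lf (nat_lit 2819498011) (dlOf (nat_lit 2) (nat_lit 0x180b0001b2040028004000200082b0582))) 
(.lf (nat_lit 134619547) (dlOf (nat_lit 2) (nat_lit 0x9a03b0039f018090780)))) (.nd (nat_lit 6) 
(.lf (nat_lit 3355844635) (dlOf (nat_lit 2) (nat_lit 0x8002b0003f018120480))) 
(.lf (nat_lit 1208361051) (dlOf (nat_lit 1) (nat_lit 0x4004000200080d1b82))))) (.nd (nat_lit 31) 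
(.nd (nat_lit 6) (.lf (nat_lit 201728411) (dlOf (nat_lit 2) (nat_lit 0x2e03b00675018090780))) 
(.lf (nat_lit 4496695387) (dlOf (nat_lit 1) (nat_lit 0x248008011400200940008120683)))) 
(.nd (nat_lit 9) 
(.lf (nat_lit 3959824411) (dlOf (nat_lit 1) (nat_lit 0x40008002000200040008160503))) 
(.lf (nat_lit 2349212187) (dlOf (nat_lit 1) (nat_lit 0xc002000200081b0d82))))))) (.nd (nat_lit 19) 
(.nd (nat_lit 6) (.nd (nat_lit 21) (.nd (nat_lit 23) 
(.lf (nat_lit 2756059163) (dlOf (nat_lit 1) (nat_lit 0x180080008002000800081e0503))) 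
(.nd (nat_lit 24) 
(.lf (nat_lit 12984347) (dlOf (nat_lit 2) (nat_lit 0x12a44000751a000200286f0400))) 
(.lf (nat_lit 29761563) (dlOf (nat_lit 1) (nat_lit 0x400200020008e30002))))) 
(.lf (nat_lit 15081499) (dlOf (nat_lit 10) (nat_lit 0x1d1d4001e7d700063af800b9ccc000381005f52b003188ea01993eb801b1eb0061cebe02fc7330000d8602694ac013d23a80a20fae01e47ac02623af81341ccc000301800711d400407d70000b8200044ac000b23a80080fae002875f001939980005028000a56001411d400b47d7000b3af801f1ccc000261403b51d402107d700d939980001418000a56003cd1d4020c7d700e639980000c20000a56002ad1d4012a7d700c6399800000200280008007c002000a00087b0583)))) 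
(.nd (nat_lit 8) 
(.lf (nat_lit 48635995) (dlOf (nat_lit 3) (nat_lit 0xf600000002010068000000008080078008014c00200560009420883))) 
(.nd (nat_lit 21) (.lf (nat_lit 4596059) (dlOf (nat_lit 1) (nat_lit 0x400200020008290902))) 
(.lf (nat_lit 23470427) (dlOf (nat_lit 1) (nat_lit 0x100008000c00200040008b80683)))))) 
(.nd (nat_lit 10) (.nd (nat_lit 7) (.nd (nat_lit 21) 
(.lf (nat_lit 13508635) (dlOf (nat_lit 1) (nat_lit 0x400200020008730882))) 
(.lf (nat_lit 15605787) (dlOf (nat_lit 1) (nat_lit 0x3000200060008810602)))) (.nd (nat_lit 9) 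
(.lf (nat_lit 8267931) (dlOf (nat_lit 1) (nat_lit 0x100018514801))) 
(.lf (nat_lit 8272539) (dlOf (nat_lit 2) (nat_lit 0x7e338027e008002800800540020068000851b683))))) 
(.nd (nat_lit 6) (.nd (nat_lit 8) 
(.lf (nat_lit 48112795) (dlOf (nat_lit 1) (nat_lit 0x400200060009402b82))) 
(.lf (nat_lit 8271771) (dlOf (nat_lit 1) (nat_lit 0x26000800040020072000851a303)))) 
(.lf (nat_lit 8267227) (dlOf (nat_lit 1) (nat_lit 0x400200020008513602))))))) (.nd (nat_lit 29) 
(.nd (nat_lit 6) (.nd (nat_lit 32) (.nd (nat_lit 19) (.nd (nat_lit 31) 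
(.lf (nat_lit 1346773019) (dlOf (nat_lit 3) (nat_lit 0x9015600460a1800984ec010419a002c085000250500c90ab0055050c01d0276014e0cd0034042800104280060008000800200140009000103))) 
(.lf (nat_lit 3494256667) (dlOf (nat_lit 2) (nat_lit 0x2e068000c00f000000100010008000c002000a00081e0403)))) 
(.lf (nat_lit 3557695515) (dlOf (nat_lit 2) (nat_lit 0x180b0001c6040028004000200082b0582)))) 
(.nd (nat_lit 27) (.nd (nat_lit 30) 
(.lf (nat_lit 4563804187) (dlOf (nat_lit 13) (nat_lit 0x7ec062000801c000190200de00e007980000005c08001c0620004022010000e007100000005a100b740660088032005c017006300b400d403c000270a0346033000130102f10198021807800048080304066000220200040320000401000c0190000140801a80c8014405a0000404014e03200c501680000c1012f00cc0228064015802e00c5016803c8078000001400cc004016600180e0502))) 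
(.lf (nat_lit 5637546011) (dlOf (nat_lit 1) (nat_lit 0x1380008100081)))) 
(.lf (nat_lit 4698021915) (dlOf (nat_lit 27) (nat_lit 0x9f019809900c8048805c039602d005a00f0001002800380cc0054064000e02e001401680028078000701422640620496030000701582dd80a0082004e013e025001301200038088066c0400c5e01c011d00d805b00500ec8000000321a010e038018d018810300c00a54058043202b03800140091009407c0048000e022006101000890070000803608f4000000188d027901880b580c00288058002e02b0334014002d009400e8048000a022003d01000c2007010b400000030160270038000d01a80ca00c407e0058034002b013201280db80900054044000a020036300e0001002816dc0000002b18004403a009801c80af80e000fc06a034003102e301600ee80ac0304050039602502ae012000a008801f8040026401c004a00d8019806800f80140b600000001511007d016000f00900eec0000002906016c0330001381089901980ca00c8063405c034002d027900f000090280fc00c80a5405c05c602d000d0158051007801f403a000230c0c5e0330363019008900b804c805a030801e000110505bb01981c000b8030405a066801e0000e84019b019800280c8018405c00fc02d003d00f0000702801100b4000300400cc05a0001402001a032003f01680004c1012580cc081805c02d601e0000683000701980d000c8086405c03ba02d000d016000b807800040000000c0e04100330000581011d019800100b8012805a0000a06013002d00003810138019004380b8057c05a0000306002603301b701900f800b80ab805a007401e001e00e8000083000100c800f805a0000104076403305b7019023d00b816c005a000202b042d00f01dd8074000001c01ec002000400080e0402)))))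 
(.nd (nat_lit 22) (.nd (nat_lit 8) 
(.lf (nat_lit 5637546075) (dlOf (nat_lit 11) (nat_lit 0x1001d0002b01000f00c0001440800700600009c0400240300004d02001a0180002601000c00c0001100800780600007404003c03000038020006014000190100160098000b40800800080134002008c0008100683))) 
(.lf (nat_lit 3490586971) (dlOf (nat_lit 2) (nat_lit 0x9a08800014018014e80)))) (.nd (nat_lit 9) 
(.lf (nat_lit 1346773083) (dlOf (nat_lit 2) (nat_lit 0x20d700010019000880))) 
(.lf (nat_lit 474360411) (dlOf (nat_lit 1) (nat_lit 0x4a0029165301)))))) (.nd (nat_lit 6) 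
(.nd (nat_lit 7) (.nd (nat_lit 21) 
(.lf (nat_lit 6241525787) (dlOf (nat_lit 1) (nat_lit 0x1380008100081))) 
(.lf (nat_lit 1881546779) (dlOf (nat_lit 2) (nat_lit 0x2013b0002a018f40100)))) (.nd (nat_lit 8) 
(.nd (nat_lit 26) 
(.lf (nat_lit 1879974043) (dlOf (nat_lit 2) (nat_lit 0x1600000004502000e0018490181))) 
(.lf (nat_lit 1007558811) (dlOf (nat_lit 2) (nat_lit 0x1600000004502000e0018490181)))) 
(.lf (nat_lit 4228260251) (dlOf (nat_lit 1) (nat_lit 0x1c00400020018090782))))) (.nd (nat_lit 7) 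
(.nd (nat_lit 8) (.nd (nat_lit 21) 
(.lf (nat_lit 6241525851) (dlOf (nat_lit 11) (nat_lit 0x1001d0002b01000f00c0001440800700600009c0400240300004d02001a0180002601000c00c0001100800780600007404003c03000038020006013000190100160090000b40800800080134002008c0008100683))) 
(.lf (nat_lit 1881546843) (dlOf (nat_lit 4) (nat_lit 0x3e0e30000d8100240718015838800980f6000040600b00e3005703d8000001002f0008003000200600008f40883)))) 
(.lf (nat_lit 1879449947) (dlOf (nat_lit 1) (nat_lit 0x420018150901)))) (.nd (nat_lit 8) 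
(.lf (nat_lit 6377316571) (dlOf (nat_lit 1) (nat_lit 0x8002000200080c1c82))) 
(.lf (nat_lit 1009132507) (dlOf (nat_lit 1) (nat_lit 0x80029082881)))))))) (.nd (nat_lit 30) 
(.nd (nat_lit 9) (.nd (nat_lit 24) (.nd (nat_lit 6) (.nd (nat_lit 21) (.nd (nat_lit 8) 
(.lf (nat_lit 2617647163) (dlOf (nat_lit 1) (nat_lit 0xd0008000800200260008130d83))) 
(.lf (nat_lit 2752389435) (dlOf (nat_lit 1) (nat_lit 0x20008001000200060008014c03)))) 
(.nd (nat_lit 22) (.lf (nat_lit 2753962043) (dlOf (nat_lit 1) (nat_lit 0x200080a0c01))) 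
(.lf (nat_lit 48635963) (dlOf (nat_lit 1) (nat_lit 0x20008010c002001a0009420583))))) 
(.nd (nat_lit 7) (.nd (nat_lit 26) 
(.lf (nat_lit 134619515) (dlOf (nat_lit 1) (nat_lit 0x18008001c00200360008090783))) 
(.lf (nat_lit 201728379) (dlOf (nat_lit 1) (nat_lit 0xe0008090781)))) 
(.lf (nat_lit 2752389627) (dlOf (nat_lit 4) (nat_lit 0x22086000170100060430000b40800b02c80002a04001800200060008017e02))))) 
(.nd (nat_lit 7) (.nd (nat_lit 22) (.nd (nat_lit 21) 
(.lf (nat_lit 60170299) (dlOf (nat_lit 1) (nat_lit 0x20029840001))) 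
(.lf (nat_lit 62267451) (dlOf (nat_lit 1) (nat_lit 0x20019990781)))) (.nd (nat_lit 20) 
(.lf (nat_lit 29761595) (dlOf (nat_lit 1) (nat_lit 0x400200020008e30002))) 
(.lf (nat_lit 30810171) (dlOf (nat_lit 2) (nat_lit 0x664680000004000400200020008e50c82))))) 
(.nd (nat_lit 6) (.nd (nat_lit 19) 
(.lf (nat_lit 23470267) (dlOf (nat_lit 1) (nat_lit 0x38008000400200020008b80383))) 
(.lf (nat_lit 20848827) (dlOf (nat_lit 1) (nat_lit 0x4002000200089e3302)))) 
(.lf (nat_lit 21373435) (dlOf (nat_lit 1) (nat_lit 0x40008a37801)))))) (.nd (nat_lit 6) 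
(.nd (nat_lit 19) (.nd (nat_lit 11) (.nd (nat_lit 26) 
(.lf (nat_lit 134619707) (dlOf (nat_lit 5) (nat_lit 0x1101600200062009202c001a00a002480440003a14016406200460110000e02000802c002880c40050058002a0110000d0400980188000000800380080150002000a0008091003))) 
(.lf (nat_lit 201728571) (dlOf (nat_lit 5) (nat_lit 0x1101640200062009202c001a00a002480440003a14016406200460110000e02000802c802880c40050058002a0110000d0400980188000000800380080150002000a0008091003)))) 
(.lf (nat_lit 42347067) (dlOf (nat_lit 1) (nat_lit 0xc00400300009245202)))) (.nd (nat_lit 20) 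
(.lf (nat_lit 3023419) (dlOf (nat_lit 2) (nat_lit 0x10b0000088080020008000400200020008201003))) 
(.lf (nat_lit 2753438267) (dlOf (nat_lit 3) (nat_lit 0x290e18000740801c075c00403860001c0400040028091001))))) 
(.nd (nat_lit 8) (.nd (nat_lit 7) 
(.lf (nat_lit 61744763) (dlOf (nat_lit 1) (nat_lit 0xe0019923981))) 
(.lf (nat_lit 8266491) (dlOf (nat_lit 1) (nat_lit 0x400400020008512102)))) (.nd (nat_lit 11) 
(.lf (nat_lit 38675451) (dlOf (nat_lit 1) (nat_lit 0x400400020019132882))) 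
(.lf (nat_lit 60173307) (dlOf (nat_lit 2) (nat_lit 0x24370001f819845f00))))))) (.nd (nat_lit 19) 
(.nd (nat_lit 29) (.nd (nat_lit 31) (.nd (nat_lit 22) 
(.lf (nat_lit 5637546043) (dlOf (nat_lit 2) (nat_lit 0x700740016204001800400060008100482))) 
(.lf (nat_lit 1346773051) (dlOf (nat_lit 1) (nat_lit 0x8008000400200020009000583)))) 
(.nd (nat_lit 6) 
(.lf (nat_lit 3288735803) (dlOf (nat_lit 4) (nat_lit 0x33808000142040028040000420200ea0200001a8180d0b80))) 
(.lf (nat_lit 3490065915) (dlOf (nat_lit 2) (nat_lit 0x40c00000a018006f80))))) (.nd (nat_lit 6) 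
(.nd (nat_lit 7) (.nd (nat_lit 26) 
(.lf (nat_lit 4026933307) (dlOf (nat_lit 4) (nat_lit 0x33808000142040028040000400200ea0200001d0180d0b80))) 
(.lf (nat_lit 6241525819) (dlOf (nat_lit 2) (nat_lit 0x700740016204001800400060008100482)))) 
(.lf (nat_lit 1611014331) (dlOf (nat_lit 1) (nat_lit 0x80080004002000200080c1703)))) 
(.nd (nat_lit 8) (.lf (nat_lit 6375745147) (dlOf (nat_lit 1) (nat_lit 0x400200020008003982))) 
(.lf (nat_lit 1745234299) (dlOf (nat_lit 1) (nat_lit 0x6e00280e4e81)))))) (.nd (nat_lit 7) 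
(.nd (nat_lit 6) (.nd (nat_lit 8) 
(.lf (nat_lit 3491635771) (dlOf (nat_lit 3) (nat_lit 0x290d70000740801c0714004035c0001c0400040028091001))) 
(.lf (nat_lit 3490586939) (dlOf (nat_lit 1) (nat_lit 0x20008001000200060008014c03)))) 
(.lf (nat_lit 6376270459) (dlOf (nat_lit 1) (nat_lit 0x28008000c00200080008095403)))) 
(.nd (nat_lit 6) (.nd (nat_lit 20) 
(.lf (nat_lit 1410212027) (dlOf (nat_lit 2) (nat_lit 0x503b8000819800022080174004003200081b0382))) 
(.lf (nat_lit 5773336763) (dlOf (nat_lit 1) (nat_lit 0x80080004002000200080c1703)))) 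
(.lf (nat_lit 3490587131) (dlOf (nat_lit 13) (nat_lit 0x980890052881009b04480293c0804d02240148c04025411200a4502013e0890051e0100890448028e8080428230020011600a3404011808c00840458028cc100448230021011600a2a04001008b0051481008e0460044022c0145008000811600a270200060018017801)))))))))) 
(.nd (nat_lit 3) (.nd (nat_lit 18) (.nd (nat_lit 28) (.nd (nat_lit 6) (.nd (nat_lit 20) 
(.nd (nat_lit 29) (.nd (nat_lit 19) (.nd (nat_lit 10) (.nd (nat_lit 26) 
(.lf (nat_lit 134422547) (dlOf (nat_lit 1) (nat_lit 0x400400020018020482))) 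
(.lf (nat_lit 201531411) (dlOf (nat_lit 1) (nat_lit 0x400400020018020482)))) (.nd (nat_lit 5) 
(.lf (nat_lit 2281911571) (dlOf (nat_lit 2) (nat_lit 0x100090001e40800200080068002000200080a9683))) 
(.lf (nat_lit 6509768243) (dlOf (nat_lit 1) (nat_lit 0x400200020008147182))))) (.nd (nat_lit 24) 
(.nd (nat_lit 26) 
(.lf (nat_lit 134946835) (dlOf (nat_lit 5) (nat_lit 0x6402b002c814c0280090005404400a001e01be00ec028006e06dc036007c019009080b4028004406c80170015000000118681a080ec0cd806c06580170002283005701d8000dc0810d80d8000000402d400406ca00180e0182))) 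
(.nd (nat_lit 27) (.lf (nat_lit 4362805267) (dlOf (nat_lit 1) (nat_lit 0x640008100181))) 
(.lf (nat_lit 202055699) (dlOf (nat_lit 5) (nat_lit 0x6402b002c814c0280090005404400a001e01be00ec028006e06dc036007c019009080b4028004806c80170015000000118681a080ec0cd806c06580170002283005701d8000dc0810d80d8000000402d400406ca00180e0182))))) 
(.nd (nat_lit 7) (.lf (nat_lit 21700627) (dlOf (nat_lit 2) (nat_lit 0x53b2e0086c89006a0028a60a00))) 
(.lf (nat_lit 61547923) (dlOf (nat_lit 3) (nat_lit 0x1594780022602005aa3c00106019923600)))))) 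
(.nd (nat_lit 26) (.nd (nat_lit 7) (.nd (nat_lit 10) (.nd (nat_lit 12) 
(.lf (nat_lit 2819301395) (dlOf (nat_lit 4) (nat_lit 0x402d8001040800b016c0007c0400040b60003d02002c0028230481))) 
(.lf (nat_lit 2818781203) (dlOf (nat_lit 1) (nat_lit 0x33800800a000200a40008127a83)))) 
(.lf (nat_lit 2818782227) (dlOf (nat_lit 1) (nat_lit 0x400400020008129202)))) (.nd (nat_lit 8) 
(.lf (nat_lit 2818781843) (dlOf (nat_lit 1) (nat_lit 0x20028128c81))) 
(.lf (nat_lit 5905786771) (dlOf (nat_lit 1) (nat_lit 0x400018144201))))) (.nd (nat_lit 21) 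
(.nd (nat_lit 5) (.lf (nat_lit 4899151891) (dlOf (nat_lit 1) (nat_lit 0x400180a0a01))) 
(.lf (nat_lit 2885887027) (dlOf (nat_lit 1) (nat_lit 0x10c0028142881)))) (.nd (nat_lit 7) 
(.lf (nat_lit 2753765939) (dlOf (nat_lit 1) (nat_lit 0x10008002800200020008090f83))) 
(.lf (nat_lit 2753765555) (dlOf (nat_lit 2) (nat_lit 0x441d6001f0e100002c10003800800bc00200140008090303))))))) 
(.nd (nat_lit 19) (.nd (nat_lit 5) (.nd (nat_lit 7) (.nd (nat_lit 10) 
(.lf (nat_lit 15933459) (dlOf (nat_lit 1) (nat_lit 0x8008000400200020008850483))) 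
(.lf (nat_lit 20130835) (dlOf (nat_lit 1) (nat_lit 0x80080004002000400089d5f83)))) 
(.lf (nat_lit 11739283) (dlOf (nat_lit 2) (nat_lit 0xae18fc013cc5000ac610000230386c0180)))) 
(.nd (nat_lit 8) (.nd (nat_lit 22) 
(.lf (nat_lit 26419251) (dlOf (nat_lit 1) (nat_lit 0xc0028c40d81))) 
(.lf (nat_lit 30613555) (dlOf (nat_lit 1) (nat_lit 0x324004016a0008e40f02)))) (.nd (nat_lit 7) 
(.lf (nat_lit 20133683) (dlOf (nat_lit 3) (nat_lit 0x1097d20006b1e003b541001da8a8000481000ed7d20008b1e000100289da100))) 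
(.lf (nat_lit 9642419) (dlOf (nat_lit 1) (nat_lit 0x400200020008577782)))))) (.nd (nat_lit 24) 
(.nd (nat_lit 7) (.nd (nat_lit 10) 
(.lf (nat_lit 16457747) (dlOf (nat_lit 1) (nat_lit 0x1200288a0281))) 
(.lf (nat_lit 68887571) (dlOf (nat_lit 1) (nat_lit 0x4002000200087e2882)))) (.nd (nat_lit 10) 
(.lf (nat_lit 2753241235) (dlOf (nat_lit 2) (nat_lit 0x800a00017818090180))) 
(.lf (nat_lit 68887699) (dlOf (nat_lit 1) (nat_lit 0x8004000600087e2b82))))) (.nd (nat_lit 5) 
(.lf (nat_lit 26943507) (dlOf (nat_lit 11) (nat_lit 0x2b7f00015b1c000cd5200066a0000333680019992000550c000adfc00056c70003b5480019a800012cda000866480015030003b7f0001db1c0012d5200076a0000433680039992000520c0002d5200066a00000b368001d99200051080008dfc00066c7000335480019a80000ccda000666480013030005b7f0002db1c0018d52000a6a00006336800399920004b0c000edfc00076c70004b548001d9b400033080002dfc00016c70001354800099b400032080010dfc00096c70005b54800259b400031080006dfc00036c70001b54800119b40003008003e0018c90201)))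 
(.nd (nat_lit 22) (.lf (nat_lit 18554931) (dlOf (nat_lit 1) (nat_lit 0x40028950881))) 
(.lf (nat_lit 22749235) (dlOf (nat_lit 12) (nat_lit 0x115be0003f02000ab04000656f8003258c0007a0c00115be0003602000cadf00064b200028000000680c0019608000eadf00014b20000a818002ac1000052040009608000cadf000756f000080180032b7c000180400115be0000a02000cadf0000481000756f8000000800b000800e4002001e0008b20e83)))))))) 
(.nd (nat_lit 8) (.nd (nat_lit 21) (.nd (nat_lit 26) (.nd (nat_lit 5) (.nd (nat_lit 19) 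
(.lf (nat_lit 6442655827) (dlOf (nat_lit 1) (nat_lit 0x8008000400201c40008121083))) 
(.lf (nat_lit 537600083) (dlOf (nat_lit 2) (nat_lit 0x1202e80d40150063408a0002906001800180d0d81)))) 
(.lf (nat_lit 5905786995) (dlOf (nat_lit 1) (nat_lit 0x400400020008144782)))) (.nd (nat_lit 5) 
(.nd (nat_lit 7) 
(.lf (nat_lit 4496498771) (dlOf (nat_lit 5) (nat_lit 0x8807800f403800f201b008300d00088060004402e002001200180078013002c00e00120004214008801c006200d803a0068000403000c800b0001f85011c00d0000805c056401401840090001b04006100d00680028000680811d400400040018090502))) 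
(.lf (nat_lit 6509768403) (dlOf (nat_lit 1) (nat_lit 0x20028147381)))) 
(.lf (nat_lit 3422762227) (dlOf (nat_lit 1) (nat_lit 0x200080a9501))))) (.nd (nat_lit 23) 
(.nd (nat_lit 7) (.nd (nat_lit 20) 
(.lf (nat_lit 2754289747) (dlOf (nat_lit 3) (nat_lit 0x430748021838c00981b600a00cb0043063002182cc010c156008609f004304600218200010c0f40084001000148c000705880009c080010008000c002000400080d0d83))) 
(.lf (nat_lit 54206547) (dlOf (nat_lit 1) (nat_lit 0x60019650001)))) 
(.lf (nat_lit 53159123) (dlOf (nat_lit 1) (nat_lit 0x400400020009572d82)))) (.nd (nat_lit 5) 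
(.nd (nat_lit 7) (.lf (nat_lit 32189011) (dlOf (nat_lit 1) (nat_lit 0x180008ef5281))) 
(.lf (nat_lit 61547731) (dlOf (nat_lit 2) (nat_lit 0x7ea3b0001d819922d80)))) 
(.lf (nat_lit 48963699) (dlOf (nat_lit 1) (nat_lit 0x8008005000200020009452583)))))) 
(.nd (nat_lit 5) (.nd (nat_lit 30) (.nd (nat_lit 9) (.nd (nat_lit 12) 
(.lf (nat_lit 11739475) (dlOf (nat_lit 2) (nat_lit 0xaa63f0002a0186c0680))) 
(.lf (nat_lit 8597843) (dlOf (nat_lit 1) (nat_lit 0x100028518381)))) 
(.lf (nat_lit 2818781011) (dlOf (nat_lit 1) (nat_lit 0xc00400040008127782)))) (.nd (nat_lit 7) 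
(.lf (nat_lit 3825410387) (dlOf (nat_lit 2) (nat_lit 0x202300017818154d00))) (.nd (nat_lit 19) 
(.lf (nat_lit 3825410515) (dlOf (nat_lit 1) (nat_lit 0x800200320008157102))) 
(.lf (nat_lit 1611342291) (dlOf (nat_lit 1) (nat_lit 0x900028137b01)))))) (.nd (nat_lit 9) 
(.nd (nat_lit 7) (.lf (nat_lit 3221432691) (dlOf (nat_lit 1) (nat_lit 0x2400400040018114e82))) 
(.lf (nat_lit 8070643) (dlOf (nat_lit 1) (nat_lit 0x400200020008513602)))) (.nd (nat_lit 10) 
(.lf (nat_lit 6643983219) (dlOf (nat_lit 1) (nat_lit 0x600280b2581))) (.nd (nat_lit 19) 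
(.lf (nat_lit 3892524915) (dlOf (nat_lit 1) (nat_lit 0x6880080004002009c000815a303))) 
(.lf (nat_lit 8075123) (dlOf (nat_lit 1) (nat_lit 0x1c800800040020030000851a303))))))))) 
(.nd (nat_lit 31) (.nd (nat_lit 5) (.nd (nat_lit 7) (.nd (nat_lit 26) (.nd (nat_lit 22) 
(.nd (nat_lit 30) 
(.lf (nat_lit 5234696211) (dlOf (nat_lit 3) (nat_lit 0x8018000300b8002404200d4006000c02e00080108034fc1000a80080020002001800080a0a03))) 
(.lf (nat_lit 6308438035) (dlOf (nat_lit 3) (nat_lit 0x80180002401000d00c00011c080078008000c002000e0008090183)))) 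
(.lf (nat_lit 1346576403) (dlOf (nat_lit 1) (nat_lit 0x1400200300008fd0102)))) (.nd (nat_lit 6) 
(.nd (nat_lit 9) 
(.lf (nat_lit 5704458259) (dlOf (nat_lit 3) (nat_lit 0x380b8000a2040004032000240200260018090281))) 
(.lf (nat_lit 6378168851) (dlOf (nat_lit 1) (nat_lit 0x44800401700008117c82)))) (.nd (nat_lit 19) 
(.lf (nat_lit 5838676051) (dlOf (nat_lit 1) (nat_lit 0x8008000400201c40008121083))) 
(.lf (nat_lit 1410015315) (dlOf (nat_lit 2) (nat_lit 0x1202e80d4015006340840002906001800180d0d81)))))) 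
(.nd (nat_lit 8) (.nd (nat_lit 6) (.nd (nat_lit 9) 
(.lf (nat_lit 5301806227) (dlOf (nat_lit 1) (nat_lit 0x20028092b81))) 
(.lf (nat_lit 4630719123) (dlOf (nat_lit 1) (nat_lit 0x400400020008095502)))) 
(.lf (nat_lit 1409494227) (dlOf (nat_lit 1) (nat_lit 0x20028006481)))) (.nd (nat_lit 6) 
(.nd (nat_lit 26) (.lf (nat_lit 4697826707) (dlOf (nat_lit 1) (nat_lit 0x60028093601))) 
(.lf (nat_lit 6375548307) (dlOf (nat_lit 2) (nat_lit 0xa12300040018003600)))) 
(.lf (nat_lit 6241332179) (dlOf (nat_lit 2) (nat_lit 0x2a807400058040048004003400180d5d82)))))) 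
(.nd (nat_lit 8) (.nd (nat_lit 10) (.nd (nat_lit 7) 
(.lf (nat_lit 1343954995) (dlOf (nat_lit 3) (nat_lit 0xc25e0000402002812f00001818380f00))) 
(.lf (nat_lit 4630719155) (dlOf (nat_lit 1) (nat_lit 0x400400020008095702)))) (.nd (nat_lit 6) 
(.nd (nat_lit 27) (.lf (nat_lit 1409494195) (dlOf (nat_lit 1) (nat_lit 0x20028006281))) 
(.lf (nat_lit 1543711923) (dlOf (nat_lit 2) (nat_lit 0x120250002b818146280)))) 
(.lf (nat_lit 4697826547) (dlOf (nat_lit 2) (nat_lit 0xac084004e00000014828092e80))))) 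
(.nd (nat_lit 9) (.nd (nat_lit 7) (.nd (nat_lit 10) 
(.lf (nat_lit 474161523) (dlOf (nat_lit 6) (nat_lit 0x5448c002215200150a7800583d4004781000482a4005e14f001198200200a9000102480046208001848c000815200050a78008bc1801b89180045a0400b0004002400090e1002))) 
(.lf (nat_lit 1409494387) (dlOf (nat_lit 1) (nat_lit 0x20028006b81)))) 
(.lf (nat_lit 6378168819) (dlOf (nat_lit 1) (nat_lit 0x20028117401)))) (.nd (nat_lit 19) 
(.nd (nat_lit 26) (.lf (nat_lit 5773665267) (dlOf (nat_lit 1) (nat_lit 0x4004000600080e2882))) 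
(.lf (nat_lit 6377645043) (dlOf (nat_lit 1) (nat_lit 0x4004000600080e2882)))) 
(.lf (nat_lit 1881875443) (dlOf (nat_lit 1) (nat_lit 0x400400020009102882))))))) (.nd (nat_lit 29) 
(.nd (nat_lit 10) (.nd (nat_lit 30) (.nd (nat_lit 8) (.nd (nat_lit 27) 
(.lf (nat_lit 2416124051) (dlOf (nat_lit 1) (nat_lit 0x2000400080018090182))) 
(.lf (nat_lit 2550341779) (dlOf (nat_lit 1) (nat_lit 0x2000400080018090182)))) 
(.lf (nat_lit 2617455507) (dlOf (nat_lit 1) (nat_lit 0x1c00280a9081)))) (.nd (nat_lit 6) 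
(.nd (nat_lit 12) (.lf (nat_lit 3491438739) (dlOf (nat_lit 2) (nat_lit 0x800a00017818090180))) 
(.lf (nat_lit 3556978835) (dlOf (nat_lit 1) (nat_lit 0xc00200020008127d82)))) 
(.lf (nat_lit 3492487251) (dlOf (nat_lit 3) (nat_lit 0x2607480280364010c1a800860c1004305c802182cc010c144008609f004304180218200010c0f80084001000148c000705f80009c080010008000c002000400080d0d83))))) 
(.nd (nat_lit 5) (.nd (nat_lit 6) 
(.lf (nat_lit 3556979731) (dlOf (nat_lit 1) (nat_lit 0x400400020008129202))) (.nd (nat_lit 12) 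
(.lf (nat_lit 3489869139) (dlOf (nat_lit 1) (nat_lit 0x10008000400200060008006a03))) 
(.lf (nat_lit 3489873235) (dlOf (nat_lit 1) (nat_lit 0x4001800c901))))) (.nd (nat_lit 6) 
(.lf (nat_lit 3556978483) (dlOf (nat_lit 1) (nat_lit 0x40018127481))) (.nd (nat_lit 9) 
(.lf (nat_lit 3489869043) (dlOf (nat_lit 1) (nat_lit 0x20018006581))) 
(.lf (nat_lit 3556978419) (dlOf (nat_lit 1) (nat_lit 0x4000200060008127482))))))) (.nd (nat_lit 5) 
(.nd (nat_lit 9) (.nd (nat_lit 6) 
(.lf (nat_lit 4228587539) (dlOf (nat_lit 1) (nat_lit 0x640008100181))) (.nd (nat_lit 7) 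
(.lf (nat_lit 3087212883) (dlOf (nat_lit 4) (nat_lit 0x20022000100500190000000500c0020014007a0000001302002b0050000940801580080248002007e0008154d83))) 
(.lf (nat_lit 3154329043) (dlOf (nat_lit 1) (nat_lit 0x10008004c0020002000815cd03))))) 
(.nd (nat_lit 10) (.nd (nat_lit 19) 
(.lf (nat_lit 4094896787) (dlOf (nat_lit 1) (nat_lit 0x40028055501))) 
(.lf (nat_lit 4094372499) (dlOf (nat_lit 1) (nat_lit 0x400400020008055502)))) 
(.lf (nat_lit 4160960147) (dlOf (nat_lit 5) (nat_lit 0x3401b0000d8100070158014806c00030080080034001200f0000a02001e00d00004408002800800cc002002e00080a9e83))))) 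
(.nd (nat_lit 8) (.nd (nat_lit 7) 
(.lf (nat_lit 3020107827) (dlOf (nat_lit 1) (nat_lit 0x8008001400200020008127c83))) 
(.nd (nat_lit 19) (.lf (nat_lit 4094896819) (dlOf (nat_lit 1) (nat_lit 0x20028055701))) 
(.lf (nat_lit 4094372531) (dlOf (nat_lit 1) (nat_lit 0x400400020008055702))))) (.nd (nat_lit 6) 
(.lf (nat_lit 3087212979) (dlOf (nat_lit 1) (nat_lit 0x160018157781))) (.nd (nat_lit 7) 
(.lf (nat_lit 4160959347) (dlOf (nat_lit 1) (nat_lit 0x8004000e00080a8f82))) 
(.lf (nat_lit 4093846515) (dlOf (nat_lit 1) (nat_lit 0xc00400060008002882)))))))))) 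
(.nd (nat_lit 5) (.nd (nat_lit 28) (.nd (nat_lit 19) (.nd (nat_lit 6) (.nd (nat_lit 26) 
(.nd (nat_lit 20) (.nd (nat_lit 7) (.nd (nat_lit 22) 
(.lf (nat_lit 6442917907) (dlOf (nat_lit 1) (nat_lit 0x400200020008220882))) 
(.lf (nat_lit 13049875) (dlOf (nat_lit 2) (nat_lit 0x279300063a60000b01001180080004002000200086f0183)))) 
(.lf (nat_lit 3221692563) (dlOf (nat_lit 7) (nat_lit 0xa1007004f80000004008015c01c016c0000000f820058007004f80000003c08014c000000120200a00000000301003500000000008004000800c400200460008170183)))) 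
(.nd (nat_lit 9) 
(.lf (nat_lit 9904147) (dlOf (nat_lit 3) (nat_lit 0x1667d000a928c0005104000e00000023018590180))) 
(.lf (nat_lit 58139155) (dlOf (nat_lit 1) (nat_lit 0x8008010c002003c00097c7c83))))) 
(.nd (nat_lit 7) (.nd (nat_lit 10) 
(.lf (nat_lit 2886148115) (dlOf (nat_lit 4) (nat_lit 0x3200d806f1008009806c003800601bbe040008029000f002006d381001f0008008400200160008170883))) 
(.lf (nat_lit 2751931411) (dlOf (nat_lit 1) (nat_lit 0x20018002881)))) 
(.lf (nat_lit 3959890067) (dlOf (nat_lit 7) (nat_lit 0xa1007004f80000004008015c01c016c0000000f820058007004f80000003c08014c000000120200a00000000301003500000000008004000800c400200460008170183))))) 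
(.nd (nat_lit 9) (.nd (nat_lit 29) (.nd (nat_lit 20) 
(.lf (nat_lit 21438547) (dlOf (nat_lit 1) (nat_lit 0x20028a40501))) 
(.lf (nat_lit 35070035) (dlOf (nat_lit 3) (nat_lit 0x9578c0002b930000c02000e5c980004c080008008000c00200020008fd0783)))) 
(.nd (nat_lit 26) 
(.lf (nat_lit 1611079763) (dlOf (nat_lit 2) (nat_lit 0x730150000d8080130008001c002003e00080d0503))) 
(.lf (nat_lit 738664531) (dlOf (nat_lit 2) (nat_lit 0x730150000e0080130008001c002003e00080d0503))))) 
(.nd (nat_lit 7) (.lf (nat_lit 41364051) (dlOf (nat_lit 1) (nat_lit 0x40019245281))) 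
(.lf (nat_lit 8859603) (dlOf (nat_lit 1) (nat_lit 0x8008000400200020008517a83)))))) 
(.nd (nat_lit 8) (.nd (nat_lit 21) (.nd (nat_lit 6) (.nd (nat_lit 20) 
(.lf (nat_lit 13574163) (dlOf (nat_lit 1) (nat_lit 0x118008000c00200220008730883))) 
(.lf (nat_lit 14622739) (dlOf (nat_lit 2) (nat_lit 0x721c900068c5c01c84200014031000f3048770080)))) 
(.lf (nat_lit 21962835) (dlOf (nat_lit 1) (nat_lit 0xec00400120018a81082)))) (.nd (nat_lit 6) 
(.nd (nat_lit 7) (.lf (nat_lit 29302803) (dlOf (nat_lit 1) (nat_lit 0x1400400040018df0202))) 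
(.lf (nat_lit 61809811) (dlOf (nat_lit 1) (nat_lit 0x8008000c00200040009922b83)))) 
(.lf (nat_lit 2754559187) (dlOf (nat_lit 1) (nat_lit 0x200280fc301))))) (.nd (nat_lit 6) 
(.nd (nat_lit 9) (.nd (nat_lit 10) 
(.lf (nat_lit 19865875) (dlOf (nat_lit 1) (nat_lit 0x200289d0a81))) 
(.lf (nat_lit 58664211) (dlOf (nat_lit 1) (nat_lit 0x200197e3001)))) 
(.lf (nat_lit 19872531) (dlOf (nat_lit 1) (nat_lit 0x600089dba81)))) (.nd (nat_lit 7) 
(.lf (nat_lit 2752454995) (dlOf (nat_lit 1) (nat_lit 0x100028014d81))) 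
(.lf (nat_lit 19870163) (dlOf (nat_lit 2) (nat_lit 0xcca70024d8189d8680))))))) (.nd (nat_lit 26) 
(.nd (nat_lit 6) (.nd (nat_lit 11) (.nd (nat_lit 27) (.nd (nat_lit 29) 
(.lf (nat_lit 5637611539) (dlOf (nat_lit 1) (nat_lit 0x80018120a01))) 
(.lf (nat_lit 1879515155) (dlOf (nat_lit 2) (nat_lit 0x1d02040049004002c002002a0008190082)))) 
(.lf (nat_lit 3624345619) (dlOf (nat_lit 4) (nat_lit 0x3200e00612c08009807000380060184504000802a000f002005f881001f0008008400200160008170883)))) 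
(.nd (nat_lit 7) (.lf (nat_lit 4027002131) (dlOf (nat_lit 1) (nat_lit 0x600180f6701))) 
(.lf (nat_lit 3492751507) (dlOf (nat_lit 1) (nat_lit 0x400080060002000a00080f4803))))) 
(.nd (nat_lit 7) (.nd (nat_lit 8) 
(.lf (nat_lit 1879515219) (dlOf (nat_lit 1) (nat_lit 0x500080104002003e0008190783))) 
(.lf (nat_lit 3490652499) (dlOf (nat_lit 1) (nat_lit 0x20008000c00200040008014d03)))) 
(.nd (nat_lit 19) 
(.lf (nat_lit 1345790419) (dlOf (nat_lit 2) (nat_lit 0x111700042c080048008001400200100008de7b03))) 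
(.lf (nat_lit 3490652627) (dlOf (nat_lit 1) (nat_lit 0x890008007400201420008017103)))))) 
(.nd (nat_lit 29) (.nd (nat_lit 30) (.nd (nat_lit 7) (.nd (nat_lit 9) 
(.lf (nat_lit 471277651) (dlOf (nat_lit 1) (nat_lit 0x200182e0281))) 
(.lf (nat_lit 472328787) (dlOf (nat_lit 3) (nat_lit 0x381d4000360400100fa000020200020018985281)))) 
(.lf (nat_lit 472850899) (dlOf (nat_lit 2) (nat_lit 0x40b28000000800e80080038002005e0008b17b03)))) 
(.nd (nat_lit 6) (.nd (nat_lit 27) 
(.lf (nat_lit 3557236755) (dlOf (nat_lit 1) (nat_lit 0x28008001000200020008170083))) 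
(.lf (nat_lit 5838938131) (dlOf (nat_lit 1) (nat_lit 0x400200020008220882)))) 
(.lf (nat_lit 3557236819) (dlOf (nat_lit 2) (nat_lit 0x3b303901ca01440008e080028004001c0018170782))))) 
(.nd (nat_lit 19) (.nd (nat_lit 27) 
(.lf (nat_lit 6241591315) (dlOf (nat_lit 1) (nat_lit 0x80018120a01))) (.nd (nat_lit 30) 
(.lf (nat_lit 1007099923) (dlOf (nat_lit 1) (nat_lit 0xc00400040008170082))) 
(.lf (nat_lit 4228325395) (dlOf (nat_lit 1) (nat_lit 0x210008001400200440008090003))))) 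
(.nd (nat_lit 8) 
(.lf (nat_lit 1007624211) (dlOf (nat_lit 2) (nat_lit 0xcf03580078000003cc08000c00200020008540082))) 
(.lf (nat_lit 6376333587) (dlOf (nat_lit 3) (nat_lit 0x28024400e8121000b002004d0900002700800180080094002004e0008090a83)))))))) 
(.nd (nat_lit 19) (.nd (nat_lit 28) (.nd (nat_lit 21) (.nd (nat_lit 26) (.nd (nat_lit 27) 
(.nd (nat_lit 20) 
(.lf (nat_lit 1074208819) (dlOf (nat_lit 3) (nat_lit 0x42000000260100840138000b4080018008000c002000600080e0683))) 
(.lf (nat_lit 9904179) (dlOf (nat_lit 1) (nat_lit 0x58008007400200600008591003)))) (.nd (nat_lit 6) 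
(.lf (nat_lit 2819039283) (dlOf (nat_lit 1) (nat_lit 0x20018160d81))) 
(.lf (nat_lit 1208427507) (dlOf (nat_lit 1) (nat_lit 0x600080e2881))))) (.nd (nat_lit 27) 
(.nd (nat_lit 32) 
(.lf (nat_lit 67575859) (dlOf (nat_lit 3) (nat_lit 0x10bd00004c0800200000002404000c00200040008220882))) 
(.lf (nat_lit 4362543155) (dlOf (nat_lit 1) (nat_lit 0x24004000c0018090002)))) 
(.lf (nat_lit 2886148147) (dlOf (nat_lit 2) (nat_lit 0x8406c001a034002300000073c1800f0008005c00200c20008170d03))))) 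
(.nd (nat_lit 6) (.nd (nat_lit 22) (.nd (nat_lit 24) 
(.lf (nat_lit 2564147) (dlOf (nat_lit 3) (nat_lit 0x2563000125d4002d208001d5e4001540200040018170a81))) 
(.lf (nat_lit 19341363) (dlOf (nat_lit 1) (nat_lit 0x40018980f01)))) 
(.lf (nat_lit 15147059) (dlOf (nat_lit 7) (nat_lit 0x1f432000250200fda19006ad0980316140017307e00bb7f90066bf180310000000461c021743200dfa13006ac28003360fc01a2ff200d97e3005d0000000803800380000003204001343200d20000000c0200710000000140800200080144002002200087c0783)))) 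
(.nd (nat_lit 7) (.lf (nat_lit 45555827) (dlOf (nat_lit 1) (nat_lit 0x1c0019331e81))) 
(.lf (nat_lit 28778739) (dlOf (nat_lit 1) (nat_lit 0x400200020008da0602)))))) (.nd (nat_lit 30) 
(.nd (nat_lit 8) (.nd (nat_lit 27) 
(.lf (nat_lit 4563869747) (dlOf (nat_lit 1) (nat_lit 0x20028110601))) 
(.lf (nat_lit 4698087475) (dlOf (nat_lit 1) (nat_lit 0x20028110601)))) (.nd (nat_lit 27) 
(.lf (nat_lit 2416386355) (dlOf (nat_lit 1) (nat_lit 0x1e400081b0501))) 
(.lf (nat_lit 2550604083) (dlOf (nat_lit 1) (nat_lit 0x1e400081b0501))))) (.nd (nat_lit 26) 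
(.nd (nat_lit 20) (.nd (nat_lit 27) 
(.lf (nat_lit 1879515187) (dlOf (nat_lit 2) (nat_lit 0x84000000a8818190480))) 
(.lf (nat_lit 3624345651) (dlOf (nat_lit 2) (nat_lit 0x8406c001a034002300000073c1800f0008005c00200c20008170d03)))) 
(.lf (nat_lit 3491176499) (dlOf (nat_lit 1) (nat_lit 0x19c00400360008070982)))) (.nd (nat_lit 29) 
(.lf (nat_lit 3557236787) (dlOf (nat_lit 1) (nat_lit 0x7800800c800200180008170483))) 
(.lf (nat_lit 1946624051) (dlOf (nat_lit 3) (nat_lit 0x42000000260100840138000b4080018008000c002000600080e0683))))))) 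
(.nd (nat_lit 20) (.nd (nat_lit 21) (.nd (nat_lit 8) (.nd (nat_lit 9) 
(.lf (nat_lit 6376333363) (dlOf (nat_lit 1) (nat_lit 0x8004000e0008090002))) 
(.lf (nat_lit 3490652723) (dlOf (nat_lit 4) (nat_lit 0x170560000cc0400b82b00003f02006215400011018018000)))) 
(.nd (nat_lit 7) 
(.lf (nat_lit 6376333619) (dlOf (nat_lit 2) (nat_lit 0x6a84800006c04004000400040018090b02))) 
(.lf (nat_lit 2752455091) (dlOf (nat_lit 1) (nat_lit 0x400200020008017782))))) (.nd (nat_lit 7) 
(.nd (nat_lit 8) 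
(.lf (nat_lit 11477043) (dlOf (nat_lit 2) (nat_lit 0x1f18cc0028c300001404001600286a0981))) 
(.lf (nat_lit 19865907) (dlOf (nat_lit 1) (nat_lit 0x4002000200089d0b02)))) (.nd (nat_lit 6) 
(.lf (nat_lit 24060339) (dlOf (nat_lit 1) (nat_lit 0x1c004000e0008b80782))) 
(.lf (nat_lit 40838131) (dlOf (nat_lit 1) (nat_lit 0x600091f2881)))))) (.nd (nat_lit 10) 
(.nd (nat_lit 9) (.nd (nat_lit 21) 
(.lf (nat_lit 14622771) (dlOf (nat_lit 1) (nat_lit 0x8008000400200020008770483))) 
(.lf (nat_lit 12525619) (dlOf (nat_lit 4) (nat_lit 0x4ee8f80001408025f47c00008040137a3e0000302001000286d0a01)))) 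
(.nd (nat_lit 11) (.lf (nat_lit 2753503795) (dlOf (nat_lit 1) (nat_lit 0x20018090f81))) 
(.lf (nat_lit 1346316851) (dlOf (nat_lit 4) (nat_lit 0x50b30002fc080008598001180400342ce002216600020a2000083140010188001c01b000d00d0002283800100080004002000c0008f05183))))) 
(.nd (nat_lit 6) (.nd (nat_lit 7) 
(.lf (nat_lit 8332851) (dlOf (nat_lit 1) (nat_lit 0x20018513781))) 
(.lf (nat_lit 8332723) (dlOf (nat_lit 1) (nat_lit 0x400200020008513602)))) (.nd (nat_lit 8) 
(.lf (nat_lit 8332915) (dlOf (nat_lit 1) (nat_lit 0x1800400020008513982))) 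
(.lf (nat_lit 8337267) (dlOf (nat_lit 1) (nat_lit 0x1300080004002003c000851a303)))))))))) 
(.nd (nat_lit 5) (.nd (nat_lit 28) (.nd (nat_lit 18) (.nd (nat_lit 31) (.nd (nat_lit 6) 
(.nd (nat_lit 26) (.nd (nat_lit 22) (.nd (nat_lit 19) 
(.lf (nat_lit 4832043035) (dlOf (nat_lit 1) (nat_lit 0x600080a0501))) 
(.lf (nat_lit 134946843) (dlOf (nat_lit 2) (nat_lit 0x7b0000003e40400d000200fe00080e0482)))) 
(.nd (nat_lit 7) 
(.lf (nat_lit 31137819) (dlOf (nat_lit 2) (nat_lit 0x297c000908080050008003800200140008e70583))) 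
(.lf (nat_lit 32186523) (dlOf (nat_lit 1) (nat_lit 0x400200020008ef0502))))) (.nd (nat_lit 11) 
(.nd (nat_lit 27) 
(.lf (nat_lit 4362805275) (dlOf (nat_lit 5) (nat_lit 0x4b8033000d18101c40198005f4080f080cc002e6040110066000940202dc0028100481))) 
(.lf (nat_lit 202055707) (dlOf (nat_lit 2) (nat_lit 0x7b0000003e60400d000200fe00080e0482)))) 
(.nd (nat_lit 8) 
(.lf (nat_lit 1141058587) (dlOf (nat_lit 6) (nat_lit 0xd20130000bc0802680980005c0402fc04c0002c0200fc0260000f8100620130000780800f8008008c002003e0008096003))) 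
(.lf (nat_lit 1141058331) (dlOf (nat_lit 1) (nat_lit 0x8008000400200020008095c03)))))) 
(.nd (nat_lit 8) (.nd (nat_lit 7) (.nd (nat_lit 10) 
(.lf (nat_lit 4496498779) (dlOf (nat_lit 1) (nat_lit 0x248008011400200940008090683))) 
(.lf (nat_lit 57877595) (dlOf (nat_lit 1) (nat_lit 0x1880080124002002a0009792903)))) 
(.lf (nat_lit 20656859) (dlOf (nat_lit 1) (nat_lit 0x4002000200089d8c82)))) (.nd (nat_lit 10) 
(.nd (nat_lit 7) (.lf (nat_lit 28516699) (dlOf (nat_lit 1) (nat_lit 0x400200020008da0902))) 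
(.lf (nat_lit 36381659) (dlOf (nat_lit 1) (nat_lit 0x2400200100009072882)))) (.nd (nat_lit 12) 
(.lf (nat_lit 5905786715) (dlOf (nat_lit 1) (nat_lit 0x3a0018143f81))) 
(.lf (nat_lit 8599387) (dlOf (nat_lit 1) (nat_lit 0x40020002000851a302))))))) (.nd (nat_lit 8) 
(.nd (nat_lit 12) (.nd (nat_lit 7) (.nd (nat_lit 9) 
(.lf (nat_lit 2754289691) (dlOf (nat_lit 1) (nat_lit 0x2400080d0881))) 
(.lf (nat_lit 3355648539) (dlOf (nat_lit 1) (nat_lit 0x200280a1481)))) 
(.lf (nat_lit 2751669915) (dlOf (nat_lit 1) (nat_lit 0x20028003a81)))) (.nd (nat_lit 6) 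
(.lf (nat_lit 3422762651) (dlOf (nat_lit 2) (nat_lit 0xf0160000e80800a800800f4002001400080a9f03))) 
(.nd (nat_lit 9) (.lf (nat_lit 2818784347) (dlOf (nat_lit 1) (nat_lit 0xc0020004000812c002))) 
(.lf (nat_lit 2684565083) (dlOf (nat_lit 7) (nat_lit 0x1101d800780e4001406a000803000050138004b42800080e4002320400300600010202000c03000020148004041001180cc0007a0400180660003c02002800180a9c01)))))) 
(.nd (nat_lit 10) (.nd (nat_lit 6) 
(.lf (nat_lit 3355653019) (dlOf (nat_lit 1) (nat_lit 0x200280a9101))) (.nd (nat_lit 11) 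
(.lf (nat_lit 3825410395) (dlOf (nat_lit 2) (nat_lit 0x4180880380036001c01700eb005007080000005014001000400020008154e82))) 
(.lf (nat_lit 2885888347) (dlOf (nat_lit 1) (nat_lit 0x160028144e01))))) (.nd (nat_lit 9) 
(.nd (nat_lit 11) (.lf (nat_lit 2281911579) (dlOf (nat_lit 1) (nat_lit 0x34004000600080a9702))) 
(.lf (nat_lit 2818784539) (dlOf (nat_lit 1) (nat_lit 0xc40040024000812c602)))) 
(.lf (nat_lit 2818780955) (dlOf (nat_lit 1) (nat_lit 0x21800800d000200aa0008127483))))))) 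
(.nd (nat_lit 19) (.nd (nat_lit 7) (.nd (nat_lit 21) (.nd (nat_lit 9) (.nd (nat_lit 20) 
(.lf (nat_lit 6442917915) (dlOf (nat_lit 1) (nat_lit 0x1340008220881))) 
(.lf (nat_lit 1515547) (dlOf (nat_lit 1) (nat_lit 0x600180e0b01)))) 
(.lf (nat_lit 8856091) (dlOf (nat_lit 1) (nat_lit 0x100028511481)))) (.nd (nat_lit 6) 
(.nd (nat_lit 20) 
(.lf (nat_lit 48701467) (dlOf (nat_lit 2) (nat_lit 0x45822001c05000025029420100))) 
(.lf (nat_lit 49750043) (dlOf (nat_lit 1) (nat_lit 0x10004000200094a0102)))) 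
(.lf (nat_lit 23535963) (dlOf (nat_lit 2) (nat_lit 0x15a2800150080028008003000200200008b80683))))) 
(.nd (nat_lit 6) (.nd (nat_lit 9) 
(.lf (nat_lit 42411163) (dlOf (nat_lit 2) (nat_lit 0x1a53d0004a9a00011008001400200200009242b82))) 
(.lf (nat_lit 53947035) (dlOf (nat_lit 1) (nat_lit 0xc80080078002000800095f5583)))) 
(.nd (nat_lit 26) (.lf (nat_lit 3221692891) (dlOf (nat_lit 1) (nat_lit 0x20002002c0008170b02))) 
(.lf (nat_lit 3959890395) (dlOf (nat_lit 1) (nat_lit 0x20002002c0008170b02)))))) (.nd (nat_lit 6) 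
(.nd (nat_lit 20) (.nd (nat_lit 21) 
(.lf (nat_lit 13574171) (dlOf (nat_lit 1) (nat_lit 0x2b8008007800200440008730883))) 
(.lf (nat_lit 53420059) (dlOf (nat_lit 1) (nat_lit 0x10008001c002000400095c0403)))) 
(.nd (nat_lit 7) (.nd (nat_lit 23) 
(.lf (nat_lit 20914203) (dlOf (nat_lit 2) (nat_lit 0x28000000208189f0100))) 
(.lf (nat_lit 29302811) (dlOf (nat_lit 1) (nat_lit 0x400400020008df0482)))) 
(.lf (nat_lit 2039963) (dlOf (nat_lit 2) (nat_lit 0x1126080008c04002c00200160008150182))))) 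
(.nd (nat_lit 7) (.nd (nat_lit 8) 
(.lf (nat_lit 61810267) (dlOf (nat_lit 2) (nat_lit 0x552d800000080030008000c00200120009923903))) 
(.lf (nat_lit 2752455003) (dlOf (nat_lit 3) (nat_lit 0xa83f4000630200521fa00021018014e00)))) 
(.nd (nat_lit 8) (.lf (nat_lit 8336091) (dlOf (nat_lit 1) (nat_lit 0x400200020008518c82))) 
(.lf (nat_lit 19872731) (dlOf (nat_lit 1) (nat_lit 0x800289dbf01)))))))) (.nd (nat_lit 27) 
(.nd (nat_lit 7) (.nd (nat_lit 19) (.nd (nat_lit 6) (.nd (nat_lit 18) (.nd (nat_lit 29) 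
(.lf (nat_lit 5704458267) (dlOf (nat_lit 2) (nat_lit 0x4032000320200120028090501))) 
(.lf (nat_lit 6241329179) (dlOf (nat_lit 1) (nat_lit 0x8004000200180d0002)))) 
(.lf (nat_lit 5637611547) (dlOf (nat_lit 1) (nat_lit 0x10008001000200040008120a03)))) 
(.nd (nat_lit 9) (.lf (nat_lit 1409498459) (dlOf (nat_lit 1) (nat_lit 0x80040064000800c902))) 
(.lf (nat_lit 3556978523) (dlOf (nat_lit 1) (nat_lit 0xc00400040008127782))))) (.nd (nat_lit 6) 
(.nd (nat_lit 11) (.nd (nat_lit 31) 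
(.lf (nat_lit 1345003547) (dlOf (nat_lit 1) (nat_lit 0x200189b0601))) 
(.lf (nat_lit 3492487195) (dlOf (nat_lit 1) (nat_lit 0x2400080d0881)))) 
(.lf (nat_lit 3492751387) (dlOf (nat_lit 2) (nat_lit 0xa00e8000000800080080060002000400080f4703)))) 
(.nd (nat_lit 18) (.lf (nat_lit 1879777627) (dlOf (nat_lit 1) (nat_lit 0x2c0018370901))) 
(.lf (nat_lit 3490652507) (dlOf (nat_lit 2) (nat_lit 0x2c16900014018014e80)))))) (.nd (nat_lit 18) 
(.nd (nat_lit 26) (.nd (nat_lit 6) (.nd (nat_lit 9) 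
(.lf (nat_lit 3491963035) (dlOf (nat_lit 2) (nat_lit 0x40000002f02000c0008090181))) 
(.lf (nat_lit 4563610267) (dlOf (nat_lit 1) (nat_lit 0x1800400660008095582)))) 
(.lf (nat_lit 3489869019) (dlOf (nat_lit 1) (nat_lit 0x10008000400200060008006483)))) 
(.nd (nat_lit 19) (.nd (nat_lit 20) 
(.lf (nat_lit 4630719131) (dlOf (nat_lit 1) (nat_lit 0x400400020008095582))) 
(.lf (nat_lit 4094896795) (dlOf (nat_lit 1) (nat_lit 0x20028055581)))) 
(.lf (nat_lit 4094372507) (dlOf (nat_lit 1) (nat_lit 0x20028055581))))) (.nd (nat_lit 6) 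
(.nd (nat_lit 9) 
(.lf (nat_lit 3492751515) (dlOf (nat_lit 3) (nat_lit 0x88048003e02000017020004012000100800005608004c004000800180f4802))) 
(.lf (nat_lit 3492751003) (dlOf (nat_lit 1) (nat_lit 0x100080014002000c00080f3a83)))) 
(.nd (nat_lit 8) (.lf (nat_lit 4027002587) (dlOf (nat_lit 1) (nat_lit 0xa00180f7381))) 
(.nd (nat_lit 9) (.lf (nat_lit 1345790427) (dlOf (nat_lit 1) (nat_lit 0x800400060018de7c02))) 
(.lf (nat_lit 3492750299) (dlOf (nat_lit 1) (nat_lit 0x380080014002000400080f2883)))))))) 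
(.nd (nat_lit 18) (.nd (nat_lit 6) (.nd (nat_lit 31) (.nd (nat_lit 7) 
(.lf (nat_lit 6308438043) (dlOf (nat_lit 2) (nat_lit 0x114036021801900ef0050000c8180008008001000200060008090403))) 
(.nd (nat_lit 10) (.lf (nat_lit 6377119899) (dlOf (nat_lit 1) (nat_lit 0x17000280a2b81))) 
(.lf (nat_lit 6375548059) (dlOf (nat_lit 1) (nat_lit 0x400400020008002b82))))) (.nd (nat_lit 8) 
(.nd (nat_lit 19) 
(.lf (nat_lit 3691192347) (dlOf (nat_lit 1) (nat_lit 0x380080004002000400080a0503))) 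
(.lf (nat_lit 4228587547) (dlOf (nat_lit 5) (nat_lit 0x4b8032000d98101c4019000614080f080c8002e2040110064000940202dc0028100481)))) 
(.lf (nat_lit 3154327835) (dlOf (nat_lit 1) (nat_lit 0x10001815ab01))))) (.nd (nat_lit 9) 
(.nd (nat_lit 26) (.lf (nat_lit 939728987) (dlOf (nat_lit 1) (nat_lit 0x20028160a81))) 
(.lf (nat_lit 469966939) (dlOf (nat_lit 1) (nat_lit 0x8000400200008020a82)))) 
(.lf (nat_lit 2013472347) (dlOf (nat_lit 1) (nat_lit 0x8008000800200060008093903))))) 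
(.nd (nat_lit 7) (.nd (nat_lit 6) (.nd (nat_lit 9) (.nd (nat_lit 19) 
(.lf (nat_lit 5838938139) (dlOf (nat_lit 1) (nat_lit 0x1340008220881))) 
(.lf (nat_lit 473899035) (dlOf (nat_lit 3) (nat_lit 0x20a1800f8334000600800b4286003213900017828fc0100)))) 
(.lf (nat_lit 472850971) (dlOf (nat_lit 1) (nat_lit 0x800400040018b18702)))) (.nd (nat_lit 8) 
(.lf (nat_lit 473899099) (dlOf (nat_lit 4) (nat_lit 0x94404006a1a0008e0a6002f852c020c28401220d7009e06b00148328014416e00920af009103d802100a0013c0000000b1a00f814c008306b8000241003a853001d41ae008e0290009000000000200240008001400200780008fc0883))) 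
(.lf (nat_lit 471802203) (dlOf (nat_lit 1) (nat_lit 0xa0028520901))))) (.nd (nat_lit 8) 
(.nd (nat_lit 20) 
(.lf (nat_lit 472328859) (dlOf (nat_lit 2) (nat_lit 0x80f80003a0200020028985581))) 
(.lf (nat_lit 6376860315) (dlOf (nat_lit 1) (nat_lit 0x400400020008095582)))) (.nd (nat_lit 6) 
(.lf (nat_lit 472328603) (dlOf (nat_lit 1) (nat_lit 0x10008000800200040008984e83))) 
(.lf (nat_lit 472850907) (dlOf (nat_lit 2) (nat_lit 0xc05940000004000400400680018b17c02))))))))) 
(.nd (nat_lit 30) (.nd (nat_lit 19) (.nd (nat_lit 6) (.nd (nat_lit 20) (.nd (nat_lit 28) 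
(.nd (nat_lit 18) 
(.lf (nat_lit 6442655803) (dlOf (nat_lit 2) (nat_lit 0x400e8002004a001001a000900c000548200070008001c002000a0008120d03))) 
(.nd (nat_lit 21) 
(.lf (nat_lit 6442917947) (dlOf (nat_lit 2) (nat_lit 0x700d000238080018008000800200060008220b83))) 
(.lf (nat_lit 2564155) (dlOf (nat_lit 6) (nat_lit 0x95f400056020006b010001c0100025808000d4080052be80002c040018000000000200060008170b81))))) 
(.nd (nat_lit 7) (.nd (nat_lit 9) 
(.lf (nat_lit 4563607611) (dlOf (nat_lit 1) (nat_lit 0x20008005c00200460008090003))) 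
(.lf (nat_lit 4764935739) (dlOf (nat_lit 1) (nat_lit 0x400400020018093782)))) 
(.lf (nat_lit 4630719163) (dlOf (nat_lit 1) (nat_lit 0x400400020008095782))))) (.nd (nat_lit 18) 
(.nd (nat_lit 10) (.nd (nat_lit 21) 
(.lf (nat_lit 2752716859) (dlOf (nat_lit 4) (nat_lit 0x243ce0014f02000e1e70007b8100070f38003d40801f8008000400200140008030d03))) 
(.lf (nat_lit 24322107) (dlOf (nat_lit 1) (nat_lit 0x400400040018b90c02)))) 
(.lf (nat_lit 39003195) (dlOf (nat_lit 1) (nat_lit 0x40019192881)))) (.nd (nat_lit 7) 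
(.nd (nat_lit 21) 
(.lf (nat_lit 9904187) (dlOf (nat_lit 5) (nat_lit 0x9a450006d20800468ec00273b800564080011a450006d208003e8ec001f3b800563080019a450002d20800268ec000b3b80056108000ba450004d20800368ec001f3b80055f0800f80008591681))) 
(.lf (nat_lit 24584251) (dlOf (nat_lit 2) (nat_lit 0x358abe00017018ba0b80)))) 
(.lf (nat_lit 43460027) (dlOf (nat_lit 1) (nat_lit 0x4004000200092a3602)))))) (.nd (nat_lit 25) 
(.nd (nat_lit 8) (.nd (nat_lit 9) 
(.lf (nat_lit 2684564731) (dlOf (nat_lit 2) (nat_lit 0xa03300130190013501002400080094002005e00080a9503))) 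
(.lf (nat_lit 6643983099) (dlOf (nat_lit 1) (nat_lit 0x4004000200080b2102)))) (.nd (nat_lit 7) 
(.lf (nat_lit 537077627) (dlOf (nat_lit 1) (nat_lit 0x20028004101))) (.nd (nat_lit 11) 
(.lf (nat_lit 3087213051) (dlOf (nat_lit 5) (nat_lit 0x157005809500240124004025a0000001704015700580950024012400402580000001684003a00580009c08012802c0004c0401dc00400760018157e02))) 
(.lf (nat_lit 472066555) (dlOf (nat_lit 1) (nat_lit 0x20008804f81)))))) (.nd (nat_lit 11) 
(.nd (nat_lit 7) (.lf (nat_lit 52897403) (dlOf (nat_lit 1) (nat_lit 0x20029573981))) 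
(.nd (nat_lit 18) (.lf (nat_lit 33760251) (dlOf (nat_lit 1) (nat_lit 0x180018f52881))) 
(.lf (nat_lit 53945339) (dlOf (nat_lit 1) (nat_lit 0x80080004002000200095f2883))))) 
(.nd (nat_lit 18) 
(.lf (nat_lit 54733819) (dlOf (nat_lit 2) (nat_lit 0x11fc0000c40800500080044002000a0009655f03))) 
(.lf (nat_lit 60238843) (dlOf (nat_lit 1) (nat_lit 0x400400020009845f02))))))) (.nd (nat_lit 21) 
(.nd (nat_lit 18) (.nd (nat_lit 26) (.nd (nat_lit 22) 
(.lf (nat_lit 134946875) (dlOf (nat_lit 2) (nat_lit 0x90078018000000000080108002012400080e0d82))) 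
(.lf (nat_lit 46866491) (dlOf (nat_lit 2) (nat_lit 0x1639f001d100800f80080004002001e0009380003)))) 
(.nd (nat_lit 9) 
(.lf (nat_lit 202055739) (dlOf (nat_lit 2) (nat_lit 0x90070018000000000080108002012400080e0d82))) 
(.lf (nat_lit 2753241659) (dlOf (nat_lit 3) (nat_lit 0x10000000700800180000003404009000200300008091002))))) 
(.nd (nat_lit 10) (.nd (nat_lit 6) (.nd (nat_lit 20) 
(.lf (nat_lit 13574203) (dlOf (nat_lit 1) (nat_lit 0x1c00400080008730b82))) 
(.lf (nat_lit 31399995) (dlOf (nat_lit 1) (nat_lit 0x8008000400200020008e90003)))) 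
(.lf (nat_lit 1008675323) (dlOf (nat_lit 1) (nat_lit 0xa0028ef4f81)))) (.nd (nat_lit 6) 
(.nd (nat_lit 7) (.lf (nat_lit 51323963) (dlOf (nat_lit 1) (nat_lit 0x400200020009512882))) 
(.lf (nat_lit 34546875) (dlOf (nat_lit 1) (nat_lit 0x458008016c00200da0008fb2c83)))) 
(.lf (nat_lit 43984507) (dlOf (nat_lit 2) (nat_lit 0x15d5e0020ca00002b0292a3980)))))) 
(.nd (nat_lit 6) (.nd (nat_lit 22) (.nd (nat_lit 23) (.nd (nat_lit 25) 
(.lf (nat_lit 2826299) (dlOf (nat_lit 2) (nat_lit 0x8431000470181c0b80))) 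
(.lf (nat_lit 36380731) (dlOf (nat_lit 1) (nat_lit 0x460019070001)))) 
(.lf (nat_lit 11214907) (dlOf (nat_lit 1) (nat_lit 0x8008000400200020008670d83)))) (.nd (nat_lit 8) 
(.lf (nat_lit 32188987) (dlOf (nat_lit 1) (nat_lit 0x20008000400200040008ef5203))) 
(.lf (nat_lit 50013499) (dlOf (nat_lit 1) (nat_lit 0x4004000200094c3282))))) (.nd (nat_lit 7) 
(.nd (nat_lit 9) (.nd (nat_lit 10) 
(.lf (nat_lit 473636987) (dlOf (nat_lit 1) (nat_lit 0xc0028f73581))) 
(.lf (nat_lit 2754555003) (dlOf (nat_lit 1) (nat_lit 0x68004002400180f6082)))) 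
(.lf (nat_lit 53159547) (dlOf (nat_lit 2) (nat_lit 0xd1c1c000ac04000c00200020009573982)))) 
(.nd (nat_lit 9) (.lf (nat_lit 37431803) (dlOf (nat_lit 1) (nat_lit 0x800805b000201d400090d4f83))) 
(.nd (nat_lit 18) (.lf (nat_lit 69936123) (dlOf (nat_lit 1) (nat_lit 0x80018e12881))) 
(.lf (nat_lit 32449531) (dlOf (nat_lit 1) (nat_lit 0x400400020008ef2882))))))))) (.nd (nat_lit 6) 
(.nd (nat_lit 7) (.nd (nat_lit 26) (.nd (nat_lit 9) (.nd (nat_lit 20) 
(.lf (nat_lit 3355648059) (dlOf (nat_lit 1) (nat_lit 0x200280a0001))) 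
(.lf (nat_lit 3490914363) (dlOf (nat_lit 4) (nat_lit 0x243a40014f02000e1d20007b8100070e90003d40801f8008000400200140008030d03)))) 
(.nd (nat_lit 10) (.nd (nat_lit 11) 
(.lf (nat_lit 3491439163) (dlOf (nat_lit 3) (nat_lit 0x10000000700800180000003404009000200300008091002))) 
(.lf (nat_lit 1346316859) (dlOf (nat_lit 6) (nat_lit 0x1e168000a0b300018560001419e0002096000203980050070002c0340005d10000a16900070b400030074000b20c00042d200058020026169001b0b3000a0074000a80c00282d20024166000a00e800108180128008005c00200080008f05203)))) 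
(.lf (nat_lit 5637350971) (dlOf (nat_lit 2) (nat_lit 0x1001d000168180d3780))))) (.nd (nat_lit 8) 
(.nd (nat_lit 18) 
(.lf (nat_lit 5838676027) (dlOf (nat_lit 2) (nat_lit 0x400e8002004a001001a000900c000548200070008001c002000a0008120d03))) 
(.nd (nat_lit 29) 
(.lf (nat_lit 5838938171) (dlOf (nat_lit 2) (nat_lit 0x700d000238080018008000800200060008220b83))) 
(.lf (nat_lit 4228325435) (dlOf (nat_lit 1) (nat_lit 0x2400400040018090002))))) (.nd (nat_lit 9) 
(.lf (nat_lit 6376333627) (dlOf (nat_lit 2) (nat_lit 0x280244000140200040008090b81))) 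
(.lf (nat_lit 3556978491) (dlOf (nat_lit 1) (nat_lit 0x8008008800200540008127583)))))) 
(.nd (nat_lit 8) (.nd (nat_lit 20) (.nd (nat_lit 9) 
(.lf (nat_lit 1344480443) (dlOf (nat_lit 1) (nat_lit 0x400400020008802c82))) (.nd (nat_lit 19) 
(.lf (nat_lit 1208167099) (dlOf (nat_lit 1) (nat_lit 0x400200020008095782))) 
(.lf (nat_lit 4094372539) (dlOf (nat_lit 1) (nat_lit 0x400400020008055782))))) (.nd (nat_lit 18) 
(.lf (nat_lit 4094896827) (dlOf (nat_lit 1) (nat_lit 0x40028055781))) 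
(.lf (nat_lit 6376860347) (dlOf (nat_lit 1) (nat_lit 0xc00400020008095782))))) (.nd (nat_lit 18) 
(.nd (nat_lit 9) 
(.lf (nat_lit 6378168763) (dlOf (nat_lit 1) (nat_lit 0x24800802fc00200a80008116f83))) 
(.lf (nat_lit 5905786811) (dlOf (nat_lit 1) (nat_lit 0x400400020008144382)))) (.nd (nat_lit 26) 
(.lf (nat_lit 3221692859) (dlOf (nat_lit 1) (nat_lit 0x3c00400080018170882))) 
(.lf (nat_lit 3959890363) (dlOf (nat_lit 1) (nat_lit 0x3c00400080018170882))))))) (.nd (nat_lit 7) 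
(.nd (nat_lit 8) (.nd (nat_lit 27) (.nd (nat_lit 11) 
(.lf (nat_lit 3494060155) (dlOf (nat_lit 1) (nat_lit 0x400081b0081))) 
(.lf (nat_lit 3492751483) (dlOf (nat_lit 3) (nat_lit 0x700e8000b80800500740004e040004004001e00180f4782)))) 
(.nd (nat_lit 9) (.lf (nat_lit 3624086651) (dlOf (nat_lit 1) (nat_lit 0xe0018146081))) 
(.lf (nat_lit 1208167035) (dlOf (nat_lit 1) (nat_lit 0x400400020008095402))))) (.nd (nat_lit 9) 
(.nd (nat_lit 19) (.lf (nat_lit 3490130299) (dlOf (nat_lit 1) (nat_lit 0x400400020018004e82))) 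
(.lf (nat_lit 1346316667) (dlOf (nat_lit 1) (nat_lit 0x20008002c00200320008f04e83)))) 
(.nd (nat_lit 10) (.nd (nat_lit 12) 
(.lf (nat_lit 5771832187) (dlOf (nat_lit 1) (nat_lit 0x400200020008005c02))) 
(.lf (nat_lit 1409497979) (dlOf (nat_lit 1) (nat_lit 0x2002800bc81)))) 
(.lf (nat_lit 3959629691) (dlOf (nat_lit 1) (nat_lit 0x20028114101)))))) (.nd (nat_lit 8) 
(.nd (nat_lit 9) (.nd (nat_lit 10) 
(.lf (nat_lit 1344217339) (dlOf (nat_lit 1) (nat_lit 0x8008000400200020008520703))) 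
(.lf (nat_lit 1409494267) (dlOf (nat_lit 1) (nat_lit 0x20028006601)))) (.nd (nat_lit 10) 
(.lf (nat_lit 3422761723) (dlOf (nat_lit 2) (nat_lit 0x7018002844080008008004c002000400080a8f83))) 
(.lf (nat_lit 3556980475) (dlOf (nat_lit 1) (nat_lit 0xba00080128002029c000812a003))))) 
(.nd (nat_lit 10) (.nd (nat_lit 9) (.nd (nat_lit 18) 
(.lf (nat_lit 3825410555) (dlOf (nat_lit 8) (nat_lit 0x114044001c0170052d82004100580148024012000000a510600f600b0071004803200000149e0c01a801600a460200c600b0052281006f0058028f008011802c014740401c8004002e0018157802))) 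
(.lf (nat_lit 3490652667) (dlOf (nat_lit 2) (nat_lit 0x1c23000527818017800)))) 
(.lf (nat_lit 2080842747) (dlOf (nat_lit 1) (nat_lit 0x4004000200080e2882)))) (.nd (nat_lit 11) 
(.lf (nat_lit 4160959995) (dlOf (nat_lit 2) (nat_lit 0x1e0158030000800c0008001c002003a00080a9c03))) 
(.lf (nat_lit 1543712251) (dlOf (nat_lit 5) (nat_lit 0x2801a0008006800280000002c0c019004a004201f001a00d000050180078068001401a00020000000283000f00d0000803400008080104004001a0008146f82))))))))))))

end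

end Pool.Agent.Lib.MP_5854e1_co.Cz

namespace Pool.Agent.Lib.MP_5854e1_co.Cz

noncomputable section

noncomputable def tz231 : DT := (.nd (nat_lit 16) (.nd (nat_lit 3) (.nd (nat_lit 18) 
(.nd (nat_lit 5) (.nd (nat_lit 19) (.nd (nat_lit 26) (.nd (nat_lit 6) (.nd (nat_lit 28) 
(.nd (nat_lit 24) (.nd (nat_lit 7) (.nd (nat_lit 8) 
(.lf (nat_lit 2684526611) (dlOf (nat_lit 1) (nat_lit 0x8008000800200020008090183))) 
(.lf (nat_lit 4366611) (dlOf (nat_lit 1) (nat_lit 0x400400020008290702)))) 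
(.lf (nat_lit 175763) (dlOf (nat_lit 1) (nat_lit 0x400400020008007202)))) (.nd (nat_lit 7) 
(.nd (nat_lit 21) (.lf (nat_lit 25337875) (dlOf (nat_lit 1) (nat_lit 0xcc002007a0008bf0882))) 
(.lf (nat_lit 27435027) (dlOf (nat_lit 1) (nat_lit 0x8008002c00200160008ce0283)))) 
(.lf (nat_lit 16949395) (dlOf (nat_lit 1) (nat_lit 0x4e8008059400200ea00088e0483))))) 
(.nd (nat_lit 30) (.nd (nat_lit 31) 
(.lf (nat_lit 268607507) (dlOf (nat_lit 3) (nat_lit 0xd8058004802a00620140039983001600b0008005400b40280073206000a00280b0a01))) 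
(.lf (nat_lit 6711058451) (dlOf (nat_lit 2) (nat_lit 0x1402c000c015000600a00048014019b410000400200100008060a02)))) 
(.nd (nat_lit 22) 
(.lf (nat_lit 1476567059) (dlOf (nat_lit 3) (nat_lit 0x1a03c000ac81000101e00051c0801b0008004000200320008050083))) 
(.lf (nat_lit 1346543635) (dlOf (nat_lit 2) (nat_lit 0x9045400066040034002000a0008fb0282)))))) 
(.nd (nat_lit 8) (.nd (nat_lit 28) (.nd (nat_lit 9) 
(.lf (nat_lit 52600915) (dlOf (nat_lit 8) (nat_lit 0x1b5348000b408028b044009d6540004b28001353d801e29a4000581400416540002b02004cc13001b595002629ec00dd4d20002a080004c13001459500001c10027304c0175822000ac07006f5fe0021aca801294f600aca690000207002a609802cb04400a17f8003eb2a002353d801529a40000618008c004001a0019550782))) 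
(.lf (nat_lit 3355615827) (dlOf (nat_lit 1) (nat_lit 0x4004000200080a1682)))) (.nd (nat_lit 29) 
(.lf (nat_lit 1476567123) (dlOf (nat_lit 1) (nat_lit 0x3000200280008050782))) 
(.lf (nat_lit 5234663507) (dlOf (nat_lit 3) (nat_lit 0x58042000640200040210002f018080500))))) 
(.nd (nat_lit 7) (.nd (nat_lit 20) 
(.lf (nat_lit 6576841043) (dlOf (nat_lit 1) (nat_lit 0x400400020008154d02))) 
(.lf (nat_lit 11706707) (dlOf (nat_lit 2) (nat_lit 0x164180002a0186c0680)))) (.nd (nat_lit 9) 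
(.lf (nat_lit 805480915) (dlOf (nat_lit 4) (nat_lit 0x201440008096000403a00b9e83000101d005cbc0800280e8025b004007400400120008114e82))) 
(.lf (nat_lit 671262675) (dlOf (nat_lit 1) (nat_lit 0x2c0028144501))))))) (.nd (nat_lit 27) 
(.nd (nat_lit 6) (.nd (nat_lit 9) (.nd (nat_lit 22) (.nd (nat_lit 28) 
(.lf (nat_lit 67280915) (dlOf (nat_lit 1) (nat_lit 0x20018090381))) 
(.lf (nat_lit 4630683667) (dlOf (nat_lit 3) (nat_lit 0x28058003c028000a005004ac03000600b00030014012ae08000800400060008060a02)))) 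
(.lf (nat_lit 2755829779) (dlOf (nat_lit 1) (nat_lit 0x4002000200081b0002)))) (.nd (nat_lit 8) 
(.lf (nat_lit 3556942355) (dlOf (nat_lit 1) (nat_lit 0xc000202520008107c82))) 
(.lf (nat_lit 3020076819) (dlOf (nat_lit 1) (nat_lit 0x800800040020002000812a003))))) 
(.nd (nat_lit 7) (.lf (nat_lit 69378131) (dlOf (nat_lit 2) (nat_lit 0x900f20001c02000a0008940781))) 
(.nd (nat_lit 9) (.nd (nat_lit 28) 
(.lf (nat_lit 1141025235) (dlOf (nat_lit 1) (nat_lit 0x20008094e81))) 
(.lf (nat_lit 1409460691) (dlOf (nat_lit 1) (nat_lit 0x20028004e81)))) 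
(.lf (nat_lit 1141025747) (dlOf (nat_lit 2) (nat_lit 0x1c0480001b0200020028095d81)))))) 
(.nd (nat_lit 6) (.nd (nat_lit 28) (.nd (nat_lit 29) (.nd (nat_lit 30) 
(.lf (nat_lit 6643949587) (dlOf (nat_lit 1) (nat_lit 0x20018090381))) 
(.lf (nat_lit 3422724115) (dlOf (nat_lit 4) (nat_lit 0x500cc00300580002f0400100330001701000c019800050080040008006000200020008090183)))) 
(.lf (nat_lit 6107078675) (dlOf (nat_lit 2) (nat_lit 0x1402c000c015000600a0004801400ebe10000400200100008060a02)))) 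
(.nd (nat_lit 30) 
(.lf (nat_lit 4764901395) (dlOf (nat_lit 3) (nat_lit 0x28058003c028000a005006fe03000600b0003001401bf608000800400060008060a02))) 
(.lf (nat_lit 3691159571) (dlOf (nat_lit 4) (nat_lit 0x5a000000ac81000200000055c08004805400270040004002001e0008050082))))) 
(.nd (nat_lit 8) (.nd (nat_lit 7) 
(.lf (nat_lit 3691159635) (dlOf (nat_lit 2) (nat_lit 0x10050000b804000400400300008050782))) 
(.lf (nat_lit 3154295507) (dlOf (nat_lit 1) (nat_lit 0x1b80040076000815b982)))) (.nd (nat_lit 11) 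
(.lf (nat_lit 1812111699) (dlOf (nat_lit 1) (nat_lit 0x8008000400200020008154d03))) 
(.lf (nat_lit 3959597395) (dlOf (nat_lit 1) (nat_lit 0x40018114e01)))))))) (.nd (nat_lit 21) 
(.nd (nat_lit 27) (.nd (nat_lit 20) (.nd (nat_lit 26) (.nd (nat_lit 8) (.nd (nat_lit 22) 
(.lf (nat_lit 3221921811) (dlOf (nat_lit 5) (nat_lit 0x11402e0001381008a0170000980800280ec01c405c0002404000603e000100181b0180))) 
(.lf (nat_lit 21667859) (dlOf (nat_lit 1) (nat_lit 0x220004003c0008a60a02)))) 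
(.lf (nat_lit 9085203) (dlOf (nat_lit 1) (nat_lit 0x20018524a01)))) (.nd (nat_lit 6) 
(.lf (nat_lit 4362772499) (dlOf (nat_lit 1) (nat_lit 0x8008000c002000200080f0a83))) 
(.lf (nat_lit 4362772563) (dlOf (nat_lit 1) (nat_lit 0x100008000c002000c00080f1983))))) 
(.nd (nat_lit 7) (.nd (nat_lit 22) 
(.lf (nat_lit 10133523) (dlOf (nat_lit 1) (nat_lit 0x400285b0481))) 
(.lf (nat_lit 31105043) (dlOf (nat_lit 1) (nat_lit 0xc00400060008e70482)))) (.nd (nat_lit 6) 
(.nd (nat_lit 26) (.lf (nat_lit 3491405971) (dlOf (nat_lit 2) (nat_lit 0x121e600010018090180))) 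
(.lf (nat_lit 2753208467) (dlOf (nat_lit 2) (nat_lit 0x121f800010018090180)))) 
(.lf (nat_lit 43689171) (dlOf (nat_lit 1) (nat_lit 0x80080004002000200092a2d83)))))) 
(.nd (nat_lit 26) (.nd (nat_lit 29) (.nd (nat_lit 28) 
(.lf (nat_lit 134914067) (dlOf (nat_lit 3) (nat_lit 0xee03b0002301006e01d800114080648008008000200a600080e0183))) 
(.lf (nat_lit 5772058643) (dlOf (nat_lit 1) (nat_lit 0x80008060a01)))) (.nd (nat_lit 30) 
(.lf (nat_lit 2819268627) (dlOf (nat_lit 2) (nat_lit 0x203a000281100000008002400400180018210282))) 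
(.lf (nat_lit 3893010451) (dlOf (nat_lit 1) (nat_lit 0x4004000200182d0202))))) (.nd (nat_lit 28) 
(.nd (nat_lit 29) 
(.lf (nat_lit 202022931) (dlOf (nat_lit 3) (nat_lit 0xee03b0002301006e01d800114080648008008000200a600080e0183))) 
(.lf (nat_lit 3960119315) (dlOf (nat_lit 5) (nat_lit 0x11402e0001381008a0170000980800280ec01c405c0002404000603e000100181b0180)))) 
(.nd (nat_lit 30) (.lf (nat_lit 3154812947) (dlOf (nat_lit 2) (nat_lit 0x601900677018330a00))) 
(.nd (nat_lit 31) (.lf (nat_lit 6376038419) (dlOf (nat_lit 1) (nat_lit 0x80008060a01))) 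
(.lf (nat_lit 4228554771) (dlOf (nat_lit 1) (nat_lit 0x8008000c002000200080f0a83)))))))) 
(.nd (nat_lit 6) (.nd (nat_lit 20) (.nd (nat_lit 7) (.nd (nat_lit 23) 
(.lf (nat_lit 19570707) (dlOf (nat_lit 1) (nat_lit 0x14004000400189c0202))) 
(.lf (nat_lit 11182099) (dlOf (nat_lit 1) (nat_lit 0x94004000c0018670182)))) (.nd (nat_lit 8) 
(.lf (nat_lit 4096434323) (dlOf (nat_lit 1) (nat_lit 0x408008000c00200840008111083))) 
(.lf (nat_lit 36350355) (dlOf (nat_lit 1) (nat_lit 0x20019074e81))))) (.nd (nat_lit 9) 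
(.nd (nat_lit 22) 
(.lf (nat_lit 3842067) (dlOf (nat_lit 17) (nat_lit 0x4a496401c84a00002d02003728880015c0808694440390a120005504027a51100e4284800150100111444000a6040234a220092509003f2328000dc1801714440006c040430a2201ca50900022328000d01809d94440010a2001dc50900da2328000cc200299444000640400e0a22000310200b24b2002b2500000281002692c800e8940000090401f64b2008a2500000141009592c80340940000030401da4b200bb25000000810006000800e000200120008230283))) 
(.lf (nat_lit 16424979) (dlOf (nat_lit 13) (nat_lit 0x347d60002201001d3eb00010c08022255c0094fac008c732000208300484ab801a9f580100e64000400600c895700243eb000d1eac0024e640003e08005c95700253eb00101cc80007a0c0054fac0003c0200047d6004f3ea000e9cc80006e0c00bcfac00ac7d4004f3990000d81800a9f580018e64000350400447d60001a0100394ab80009d7800e8e640000006001600188a0281)))) 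
(.lf (nat_lit 8037907) (dlOf (nat_lit 1) (nat_lit 0x288008011c00200aa0008513703))))) 
(.nd (nat_lit 9) (.nd (nat_lit 26) (.nd (nat_lit 28) 
(.lf (nat_lit 2793555) (dlOf (nat_lit 2) (nat_lit 0x16b01000120181b1980))) 
(.lf (nat_lit 3492454483) (dlOf (nat_lit 3) (nat_lit 0x15c46400bc22d009d0f50013078c010c3b2002a1d1000148600390f500009c0801800080020002019e00080d0d83)))) 
(.nd (nat_lit 8) 
(.lf (nat_lit 2754256979) (dlOf (nat_lit 3) (nat_lit 0x15c49400bc245009d0fe001307d4010c3dc002a1e6000148600390fe00009c0801800080020002019e00080d0d83))) 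
(.lf (nat_lit 69903699) (dlOf (nat_lit 2) (nat_lit 0xc0e8000105e800000100008008003000200020008e13303))))) 
(.nd (nat_lit 7) (.lf (nat_lit 8036947) (dlOf (nat_lit 1) (nat_lit 0x400200020008511682))) 
(.lf (nat_lit 57322195) (dlOf (nat_lit 1) (nat_lit 0x220019795881)))))))) (.nd (nat_lit 30) 
(.nd (nat_lit 9) (.nd (nat_lit 26) (.nd (nat_lit 7) (.nd (nat_lit 27) (.nd (nat_lit 20) 
(.lf (nat_lit 2147655731) (dlOf (nat_lit 2) (nat_lit 0x50048008f00800200080010002000200080b0483))) 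
(.lf (nat_lit 30580787) (dlOf (nat_lit 9) (nat_lit 0x18ad6800a37480004e08004b234000250200b1882001bc40802c53d402528d20012dd200005050007c410000e20400fe8d2000090600058f400003810001c7a00001408007e474000f1e800278820001a348000102000b63d00000004000400400060018e40f02)))) 
(.nd (nat_lit 19) (.lf (nat_lit 2281873459) (dlOf (nat_lit 1) (nat_lit 0x600180a0001))) 
(.lf (nat_lit 134914099) (dlOf (nat_lit 2) (nat_lit 0x24c0b4046004c0039004811b00200a840000002d0a012a00080e0681))))) 
(.nd (nat_lit 8) (.nd (nat_lit 6) 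
(.lf (nat_lit 2269363) (dlOf (nat_lit 1) (nat_lit 0x8008000400200020008150303))) 
(.lf (nat_lit 20100339) (dlOf (nat_lit 1) (nat_lit 0x18004000e00189d9502)))) (.nd (nat_lit 23) 
(.lf (nat_lit 4697793971) (dlOf (nat_lit 1) (nat_lit 0x400400020008093602))) 
(.lf (nat_lit 8562099) (dlOf (nat_lit 1) (nat_lit 0x400200020008513602)))))) (.nd (nat_lit 19) 
(.nd (nat_lit 8) (.nd (nat_lit 6) 
(.lf (nat_lit 2885853235) (dlOf (nat_lit 1) (nat_lit 0x18004000e00080b0002))) 
(.lf (nat_lit 2885853299) (dlOf (nat_lit 1) (nat_lit 0x604002016600080b0082)))) (.nd (nat_lit 27) 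
(.lf (nat_lit 4362248499) (dlOf (nat_lit 46) (nat_lit 0x180b800c80470052882006402380293408009811c014980401d805a00a4a0200020470052401000602380291408007011c0147e04017808e016202d0051e0200030230028e00800081180145a04002808c00a2a02005a047004f38100370238027940801c011c013ba04006808e000e02d004ec820006023800600b4013b008005008e009d702005e04700a401680275410032811c028805a009d4040006053003802380274c10007011c029005a009d204001e047000401680271c10010011c002c05a009c3040006047004e101000101680270008007011c0136c04008408e009b4020092047004d381002302380269408033811c0134204017c08e0099f0200ce047004cf01002f02380267408016011c0133804003c08e009870200ce047004c181006702380260408033811c012f804004808e0097a0200c6047004bc81002a0238025e00800c011c012ee04019408e0096002008004700042010050023800208080248008018000200080008014c03))) 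
(.lf (nat_lit 469934387) (dlOf (nat_lit 1) (nat_lit 0xa0028014c01))))) (.nd (nat_lit 21) 
(.nd (nat_lit 28) 
(.lf (nat_lit 202022963) (dlOf (nat_lit 2) (nat_lit 0x24c0b6046004c0039004811b00200a840000002d0a012a00080e0681))) 
(.lf (nat_lit 3154812979) (dlOf (nat_lit 2) (nat_lit 0x27011c0034088003804200014838330c00)))) 
(.nd (nat_lit 10) (.lf (nat_lit 2754256947) (dlOf (nat_lit 1) (nat_lit 0x200080d0b81))) 
(.lf (nat_lit 69903411) (dlOf (nat_lit 1) (nat_lit 0xe0018e12881))))))) (.nd (nat_lit 6) 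
(.nd (nat_lit 11) (.nd (nat_lit 8) 
(.lf (nat_lit 134390323) (dlOf (nat_lit 7) (nat_lit 0x2c02f0003401000a01780019c0800a80bc000cc04001c0940004202002402f000208100150178000fc0800700080060002004a0008018003))) 
(.lf (nat_lit 20100915) (dlOf (nat_lit 3) (nat_lit 0xabe8000240200035f4000100189da100)))) 
(.nd (nat_lit 23) (.nd (nat_lit 26) 
(.lf (nat_lit 4563577395) (dlOf (nat_lit 1) (nat_lit 0x3000400220008095182))) 
(.lf (nat_lit 335718963) (dlOf (nat_lit 1) (nat_lit 0x1000400040008095182)))) 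
(.lf (nat_lit 58894899) (dlOf (nat_lit 1) (nat_lit 0x400097e5181))))) (.nd (nat_lit 7) 
(.nd (nat_lit 8) (.nd (nat_lit 10) 
(.lf (nat_lit 46312051) (dlOf (nat_lit 1) (nat_lit 0x400400020009385402))) 
(.lf (nat_lit 175731) (dlOf (nat_lit 1) (nat_lit 0x20028007181)))) 
(.lf (nat_lit 8566643) (dlOf (nat_lit 1) (nat_lit 0x500080004002000a000851a303)))) 
(.nd (nat_lit 19) (.lf (nat_lit 49456115) (dlOf (nat_lit 2) (nat_lit 0xca3000343019462880))) 
(.lf (nat_lit 56271859) (dlOf (nat_lit 1) (nat_lit 0x20009732881))))))) (.nd (nat_lit 29) 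
(.nd (nat_lit 7) (.nd (nat_lit 19) (.nd (nat_lit 8) (.nd (nat_lit 9) 
(.lf (nat_lit 1275240499) (dlOf (nat_lit 2) (nat_lit 0x50048008f00800200080010002000200080b0483))) 
(.lf (nat_lit 3491930675) (dlOf (nat_lit 1) (nat_lit 0x10008002800200020008090f83)))) 
(.lf (nat_lit 1342349619) (dlOf (nat_lit 1) (nat_lit 0xa0028014c01)))) (.nd (nat_lit 20) 
(.lf (nat_lit 3492454451) (dlOf (nat_lit 1) (nat_lit 0x200080d0b81))) 
(.lf (nat_lit 1343922227) (dlOf (nat_lit 2) (nat_lit 0x288100004a040018004003c0008380f02))))) 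
(.nd (nat_lit 6) (.nd (nat_lit 8) (.nd (nat_lit 21) 
(.lf (nat_lit 3624050867) (dlOf (nat_lit 5) (nat_lit 0x100e8000c00800080740005804000803a0002b02003201d00060020003000c000160c0024002001400080b0302))) 
(.lf (nat_lit 3491930291) (dlOf (nat_lit 2) (nat_lit 0x441c4001f0d680002c10003800800bc00200140008090303)))) 
(.lf (nat_lit 3491930547) (dlOf (nat_lit 1) (nat_lit 0x3800200040008090782)))) (.nd (nat_lit 9) 
(.lf (nat_lit 3556942323) (dlOf (nat_lit 4) (nat_lit 0x6017000200b000180380010018000400400080000006fc3000180180032804000400c001920200040028107401))) 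
(.nd (nat_lit 11) (.lf (nat_lit 1345496051) (dlOf (nat_lit 1) (nat_lit 0x400400020008c32882))) 
(.lf (nat_lit 1141025779) (dlOf (nat_lit 1) (nat_lit 0x800400020008095f02))))))) (.nd (nat_lit 8) 
(.nd (nat_lit 9) (.nd (nat_lit 7) (.nd (nat_lit 12) 
(.lf (nat_lit 1879220275) (dlOf (nat_lit 1) (nat_lit 0xd000280a0981))) 
(.lf (nat_lit 3892490291) (dlOf (nat_lit 1) (nat_lit 0x400200020008157c82)))) 
(.lf (nat_lit 4026704051) (dlOf (nat_lit 1) (nat_lit 0x20028044e81)))) (.nd (nat_lit 6) 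
(.nd (nat_lit 11) (.lf (nat_lit 4228031027) (dlOf (nat_lit 2) (nat_lit 0x4e04d0000f018018000))) 
(.lf (nat_lit 1745005107) (dlOf (nat_lit 1) (nat_lit 0x20028095181)))) 
(.lf (nat_lit 1745005171) (dlOf (nat_lit 1) (nat_lit 0x20028095401))))) (.nd (nat_lit 6) 
(.nd (nat_lit 9) 
(.lf (nat_lit 4228030771) (dlOf (nat_lit 46) (nat_lit 0x180aa00c80400025e0200640200012e00800981000096e0401d8058004b5020002040002598100060200012c008007010000954040178080016202c0025382000301f80128c0800080fc0093004002807e004950200700400022781001a020000380b000896080018080001802c0022502002d0200011180801b8100008880400bc080014802c00220020065020005100b00087e0800500800043e02000604c00380200010f010007010002900580043b04001e04000040160010c8100100100002c0580042e040006040002168100010160010ac080070100008420400840800041f0200920400020b0100230200010280803381000080e04017c080004060200ce0400020201002f02000100c0801601000080204003c080003ec0200ce040001f4810067020000f9c080338100007c4040048080003e00200c6040001ef81002a020000f780800c0100007ba040194080003cf02008004000061010050020000300080248008018000200080008014c03)))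 
(.lf (nat_lit 3758274355) (dlOf (nat_lit 1) (nat_lit 0x14000812a101)))) (.nd (nat_lit 7) 
(.lf (nat_lit 2013439347) (dlOf (nat_lit 1) (nat_lit 0x10008000800200040008093503))) 
(.nd (nat_lit 11) 
(.lf (nat_lit 6375515123) (dlOf (nat_lit 2) (nat_lit 0x700a000fe204000800200060008002882))) 
(.lf (nat_lit 6241299443) (dlOf (nat_lit 1) (nat_lit 0xe00280d5f01)))))))))) (.nd (nat_lit 6) 
(.nd (nat_lit 5) (.nd (nat_lit 7) (.nd (nat_lit 22) (.nd (nat_lit 23) (.nd (nat_lit 26) 
(.nd (nat_lit 27) 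
(.lf (nat_lit 4563836947) (dlOf (nat_lit 3) (nat_lit 0x4060000602900030108033241800280a4019900400c4004007e00080f0a02))) 
(.nd (nat_lit 28) 
(.lf (nat_lit 2819006483) (dlOf (nat_lit 17) (nat_lit 0x29007e0024c0201ae03f0012181006401f8009080803080fc0048204031007e0023e02005c046000ca0100a8039003a01c404d808c02b604300ac02080c480840574038001580e01a2046017002180ac008405d00380015708036404601d902180a40104083004203c001c013c00c80055030066010c0164038001530402b2043015e00e0005481001401c8002880400cc0420013d020050072002c0108004e81001601c80198086001380401da03f00000018150080))) 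
(.lf (nat_lit 4698054675) (dlOf (nat_lit 3) (nat_lit 0x406000060290003010801ccc1800280a400e640400c4004007e00080f0a02))))) 
(.nd (nat_lit 10) (.lf (nat_lit 470720531) (dlOf (nat_lit 1) (nat_lit 0x20018160301))) 
(.lf (nat_lit 2751898643) (dlOf (nat_lit 1) (nat_lit 0x400200020008002882))))) (.nd (nat_lit 19) 
(.nd (nat_lit 20) (.lf (nat_lit 27697171) (dlOf (nat_lit 1) (nat_lit 0x140018d10481))) 
(.lf (nat_lit 26648595) (dlOf (nat_lit 3) (nat_lit 0x2f74000124010209c8e0055e46800171e6013377601e3ad68074d6b0029eb5603e546900d4953803bbda40008000001f81600020028c50081)))) 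
(.nd (nat_lit 20) 
(.lf (nat_lit 9347091) (dlOf (nat_lit 27) (nat_lit 0x4a54400292900004947000449c00041f40001ceb000047570002f87002c4a88008a540006d290000a947001549c000e1f40001479a0005d0e0010951000a4a400059f400034eb00005908003e95100144a4000e9f400050eb00005808001295100134a4000f9f400034eb00005708001c95100224a400029f400040eb000055080032951000a4a4000c1d60000a80c00312a2000695000143e8000b9f3c0074f96000e7580002906000d4a8800a25200068fa000247580002884001d4a880092520004cfa00022758000260400144a88006a520002d1c600107d0001f3e780089f2c0030eb00004b0e002895100034a400009f400060eb00004a0800267550002281000d4a280101c5c0007e080004fa00003c02002e7d00001b8100123e80000d80800fa544002929000147d000173ac0000cc20003a544002929000307d000093ac0000c82000aa544006d290000e7d000153ac0000c4200102544005d290002c7d000183ac0000c02000a1f4000014040054fa0000090200067d0000030100143e8000008080099f40000020400f400400260018540482))) 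
(.nd (nat_lit 21) (.lf (nat_lit 10395667) (dlOf (nat_lit 1) (nat_lit 0x200085d0481))) 
(.lf (nat_lit 29270035) (dlOf (nat_lit 2) (nat_lit 0x2c0a0001f818df0200))))))) (.nd (nat_lit 20) 
(.nd (nat_lit 23) (.nd (nat_lit 26) 
(.lf (nat_lit 3494289427) (dlOf (nat_lit 2) (nat_lit 0x287d4001c000015d604001800181f0901))) 
(.lf (nat_lit 2756091923) (dlOf (nat_lit 2) (nat_lit 0x28828001c0000173404001800181f0901)))) 
(.nd (nat_lit 19) 
(.lf (nat_lit 13017107) (dlOf (nat_lit 3) (nat_lit 0x1206330002d0100122748001500801280080094002000200086f0183))) 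
(.lf (nat_lit 13541395) (dlOf (nat_lit 1) (nat_lit 0x20018730881))))) (.nd (nat_lit 19) 
(.nd (nat_lit 21) (.lf (nat_lit 22454291) (dlOf (nat_lit 1) (nat_lit 0x40028ae0481))) 
(.lf (nat_lit 24551443) (dlOf (nat_lit 1) (nat_lit 0x800200020008ba0582)))) (.nd (nat_lit 8) 
(.lf (nat_lit 14589971) (dlOf (nat_lit 2) (nat_lit 0x8b8d2001e60200040018770081))) 
(.lf (nat_lit 8303891) (dlOf (nat_lit 1) (nat_lit 0x800400040008519682))))))) (.nd (nat_lit 26) 
(.nd (nat_lit 8) (.nd (nat_lit 22) (.nd (nat_lit 27) 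
(.lf (nat_lit 537305235) (dlOf (nat_lit 1) (nat_lit 0x1a0028090181))) 
(.lf (nat_lit 134652051) (dlOf (nat_lit 4) (nat_lit 0x900bc000a60400e005e0005202007a02f0001b018090180)))) 
(.lf (nat_lit 54960275) (dlOf (nat_lit 1) (nat_lit 0x80019681081)))) (.nd (nat_lit 19) 
(.lf (nat_lit 1476830611) (dlOf (nat_lit 28) (nat_lit 0x1c40280023d020296043019101d00c000dc0668068015402a017d0100036003000cc01203220000011e0901aa02180c380e805e006e035203401aa01500d280800010032002330e000c0200011901019702180bc00e802f806e0322034019201500c88080004621808d8086003204000a301e811680e808dc06e047803402380150119008006f0028047c00c022a004811600000045e3005e4040032e01401ba00600de002407040000022d0a000c020001160100080100008ac0800900e8005806e00360340011303004c0060008900801600300044004027802801bc00c00a900000087c1800e0050001c0180020e0400d20140038006000830100260050012c0180020a040002014005c006000820100048050034c018001ff0400d400c000ff01001a00a0007f0080080030003ee040020028002200c000fa82013500a00860030003e4080028028006200c000f882007100a00050030003e008037402801ae00c000f7820067010000000080270008007c00200020008203603)))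 
(.lf (nat_lit 1346282899) (dlOf (nat_lit 1) (nat_lit 0x20028e83601))))) (.nd (nat_lit 27) 
(.nd (nat_lit 8) (.nd (nat_lit 28) 
(.lf (nat_lit 4362510483) (dlOf (nat_lit 3) (nat_lit 0x2980ac0004e0402580560002602001c0018090181))) 
(.lf (nat_lit 1409720467) (dlOf (nat_lit 1) (nat_lit 0x1a0028090181)))) 
(.lf (nat_lit 2754521491) (dlOf (nat_lit 1) (nat_lit 0x4002000200080f4e82)))) (.nd (nat_lit 28) 
(.lf (nat_lit 201760915) (dlOf (nat_lit 4) (nat_lit 0x900bc000a60400e005e0005202007a02f0001b018090180))) 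
(.lf (nat_lit 4228292755) (dlOf (nat_lit 3) (nat_lit 0x2980a80004e0402580540002602001c0018090181))))))) 
(.nd (nat_lit 19) (.nd (nat_lit 31) (.nd (nat_lit 21) (.nd (nat_lit 9) (.nd (nat_lit 24) 
(.lf (nat_lit 4496728115) (dlOf (nat_lit 2) (nat_lit 0x18064000320200020028160601))) 
(.lf (nat_lit 17211443) (dlOf (nat_lit 1) (nat_lit 0x6000288e0001)))) 
(.lf (nat_lit 21406259) (dlOf (nat_lit 2) (nat_lit 0x1cb010000f018a38000)))) (.nd (nat_lit 7) 
(.lf (nat_lit 24551475) (dlOf (nat_lit 1) (nat_lit 0x800400020018ba0a82))) 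
(.lf (nat_lit 472294579) (dlOf (nat_lit 1) (nat_lit 0x20008982c01))))) (.nd (nat_lit 8) 
(.nd (nat_lit 9) (.nd (nat_lit 26) 
(.lf (nat_lit 2819006515) (dlOf (nat_lit 7) (nat_lit 0x309039004180fc003cc0802e40840040041020600d8007441805a8108080c0360006019000e7830331039003e00fc0039a080ce00e4010e03f000e58200ca039000624080008008002c00200020008150483))) 
(.lf (nat_lit 3557204019) (dlOf (nat_lit 4) (nat_lit 0x8037000401a800780cc0008c0c00540b4000440200020650005031800201180010088000000800560028160d81)))) 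
(.lf (nat_lit 3624313395) (dlOf (nat_lit 6) (nat_lit 0x25802a0006b0201220150003501000a00a80018c080490054000c20400cc014000390200920028158001)))) 
(.nd (nat_lit 26) 
(.lf (nat_lit 3624313139) (dlOf (nat_lit 1) (nat_lit 0x38008007000200a60008154c03))) 
(.lf (nat_lit 2886115635) (dlOf (nat_lit 1) (nat_lit 0x38008007000200a60008154c03)))))) 
(.nd (nat_lit 28) (.nd (nat_lit 21) (.nd (nat_lit 7) 
(.lf (nat_lit 17735731) (dlOf (nat_lit 1) (nat_lit 0x200288f0f01))) (.nd (nat_lit 8) 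
(.lf (nat_lit 2753470643) (dlOf (nat_lit 1) (nat_lit 0x8008001c00200020008090303))) 
(.lf (nat_lit 2752422323) (dlOf (nat_lit 1) (nat_lit 0x3f8004013e0008017782))))) (.nd (nat_lit 10) 
(.lf (nat_lit 4104243) (dlOf (nat_lit 1) (nat_lit 0x30008000400200060008280683))) (.nd (nat_lit 11) 
(.lf (nat_lit 58631219) (dlOf (nat_lit 1) (nat_lit 0x600197e2881))) 
(.lf (nat_lit 8305715) (dlOf (nat_lit 1) (nat_lit 0x14002851bf01)))))) (.nd (nat_lit 20) 
(.nd (nat_lit 8) 
(.lf (nat_lit 1410244787) (dlOf (nat_lit 4) (nat_lit 0x1401c0001481000200e00003008003007000016040008004000400181b0302))) 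
(.lf (nat_lit 5772321203) (dlOf (nat_lit 2) (nat_lit 0x1013e00170988005801000380080058002003a0008091003)))) 
(.nd (nat_lit 26) (.nd (nat_lit 31) 
(.lf (nat_lit 1344184499) (dlOf (nat_lit 1) (nat_lit 0x8008001c00200020008490303))) 
(.lf (nat_lit 3491668147) (dlOf (nat_lit 1) (nat_lit 0x8008001c00200020008090303)))) 
(.lf (nat_lit 471769267) (dlOf (nat_lit 1) (nat_lit 0x8008001c00200020008490303)))))))) 
(.nd (nat_lit 8) (.nd (nat_lit 20) (.nd (nat_lit 28) (.nd (nat_lit 23) (.nd (nat_lit 5) 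
(.nd (nat_lit 27) 
(.lf (nat_lit 1074176083) (dlOf (nat_lit 2) (nat_lit 0x6c04e003801f000148280d0d80))) 
(.lf (nat_lit 2819006547) (dlOf (nat_lit 21) (nat_lit 0x1aa01f8001540801081080009e0400800840004d02049003f0002601029501f80012c0812c00fc000940408e407e000490200e403f0002401005c039011d80fc0008c0801fc07e000450208ce072055701f80010810ba181c802a407e0004004263407200ed01f8000fc1057001c8000407e0003e040cd40720001e81023301f8000e40804000fc0003c04089c07e0001a02046403f0000a01006801f8000000816900080608002025e0008150783)))) 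
(.lf (nat_lit 4362510579) (dlOf (nat_lit 1) (nat_lit 0x8008000400200040008090483)))) 
(.nd (nat_lit 5) (.nd (nat_lit 21) 
(.lf (nat_lit 29794387) (dlOf (nat_lit 2) (nat_lit 0x70b8300394ea001884740006e0c001000400020008e30282))) 
(.lf (nat_lit 48668755) (dlOf (nat_lit 1) (nat_lit 0x40019420781)))) 
(.lf (nat_lit 8826995) (dlOf (nat_lit 2) (nat_lit 0x3b4d00263018517d80))))) (.nd (nat_lit 5) 
(.nd (nat_lit 7) 
(.lf (nat_lit 1946591315) (dlOf (nat_lit 2) (nat_lit 0x6c04e003801c000148280d0d80))) 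
(.nd (nat_lit 9) 
(.lf (nat_lit 1476830419) (dlOf (nat_lit 13) (nat_lit 0x1f022801d80f0009406c0004a06007403c003301b0022008c000860c00780460004202005c03c003b01b001e808c000820c010808a006a01c0001f82002900e0000f808026011400f40380003d04010e045000301f804480f000e807200e80360088011803a8070000761c003808a0003902001a0450001c0100100228000dc0800701140006c0400e000400020018202d82))) 
(.lf (nat_lit 1345235667) (dlOf (nat_lit 1) (nat_lit 0x4c00400260008b05882))))) (.nd (nat_lit 7) 
(.lf (nat_lit 472818803) (dlOf (nat_lit 1) (nat_lit 0x400200020008b02a02))) 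
(.lf (nat_lit 4228292851) (dlOf (nat_lit 1) (nat_lit 0x8008000400200040008090483)))))) 
(.nd (nat_lit 19) (.nd (nat_lit 9) (.nd (nat_lit 5) 
(.lf (nat_lit 26648659) (dlOf (nat_lit 2) (nat_lit 0x1e46c000f23400135ac00015838c50780))) 
(.lf (nat_lit 3580019) (dlOf (nat_lit 1) (nat_lit 0x20028200081)))) (.nd (nat_lit 22) 
(.lf (nat_lit 62302803) (dlOf (nat_lit 1) (nat_lit 0x4004000600199a5282))) 
(.lf (nat_lit 32942675) (dlOf (nat_lit 1) (nat_lit 0x20008000800200020008f55283))))) 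
(.nd (nat_lit 5) (.nd (nat_lit 21) 
(.lf (nat_lit 14590035) (dlOf (nat_lit 2) (nat_lit 0xca4ac00290d800086cf00015038770780))) 
(.lf (nat_lit 473866323) (dlOf (nat_lit 1) (nat_lit 0x440008fc0781)))) 
(.lf (nat_lit 39755891) (dlOf (nat_lit 1) (nat_lit 0x400191e2581)))))) (.nd (nat_lit 29) 
(.nd (nat_lit 7) (.nd (nat_lit 19) (.nd (nat_lit 20) 
(.lf (nat_lit 4362510675) (dlOf (nat_lit 8) (nat_lit 0xb00ac000a02b0001382003102b000201500034056000260600440560001281002c02b00010150002c056000240600280550021015000018100080154001c0540000504001a05500200000000001000c800800e400200080008090683))) 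
(.lf (nat_lit 3493241171) (dlOf (nat_lit 1) (nat_lit 0x420008104d81)))) (.nd (nat_lit 5) 
(.lf (nat_lit 8300883) (dlOf (nat_lit 1) (nat_lit 0x60018514e01))) 
(.lf (nat_lit 8299891) (dlOf (nat_lit 1) (nat_lit 0x8008001400200020008513503))))) (.nd (nat_lit 5) 
(.nd (nat_lit 11) (.nd (nat_lit 19) 
(.lf (nat_lit 3624313299) (dlOf (nat_lit 1) (nat_lit 0x20028157101))) 
(.lf (nat_lit 5772321235) (dlOf (nat_lit 1) (nat_lit 0xc00200020008091182)))) 
(.lf (nat_lit 62826963) (dlOf (nat_lit 1) (nat_lit 0x4002000200099a4e82)))) (.nd (nat_lit 22) 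
(.lf (nat_lit 36611059) (dlOf (nat_lit 1) (nat_lit 0x400200020009072882))) 
(.lf (nat_lit 49193971) (dlOf (nat_lit 2) (nat_lit 0x319d4006860200060019462881)))))) 
(.nd (nat_lit 26) (.nd (nat_lit 5) (.nd (nat_lit 7) 
(.lf (nat_lit 805740883) (dlOf (nat_lit 1) (nat_lit 0x900080008002000a00081a0683))) 
(.lf (nat_lit 1881055699) (dlOf (nat_lit 1) (nat_lit 0x400400020008de7b02)))) (.nd (nat_lit 7) 
(.lf (nat_lit 1611047283) (dlOf (nat_lit 1) (nat_lit 0xe00080128002000400080c5803))) 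
(.lf (nat_lit 1745265651) (dlOf (nat_lit 1) (nat_lit 0x6c002001200080e2882))))) (.nd (nat_lit 27) 
(.nd (nat_lit 20) 
(.lf (nat_lit 1678156115) (dlOf (nat_lit 1) (nat_lit 0x900080008002000a00081a0683))) 
(.lf (nat_lit 2755043667) (dlOf (nat_lit 1) (nat_lit 0x400400020008104d02)))) (.nd (nat_lit 5) 
(.nd (nat_lit 28) 
(.lf (nat_lit 2886115667) (dlOf (nat_lit 5) (nat_lit 0x4040010e01b0086806808f4026002a0000001405011301b009980680b8c026028400c001f000000098280f0004c02b4018015a005000128300f200980008c08091000803e800205c20008154d83))) 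
(.lf (nat_lit 4228292947) (dlOf (nat_lit 8) (nat_lit 0xb009e000a02a000138200310278002013400340540002606004404f0001281002c02780010134002c0540002406002804e0021014800018100080138001c0520000504001a04e00200000000001000c800800e400200080008090683)))) 
(.lf (nat_lit 738632051) (dlOf (nat_lit 1) (nat_lit 0xe00080128002000400080c5803)))))))))) 
(.nd (nat_lit 5) (.nd (nat_lit 6) (.nd (nat_lit 18) (.nd (nat_lit 26) (.nd (nat_lit 30) 
(.nd (nat_lit 19) (.nd (nat_lit 31) (.nd (nat_lit 24) (.nd (nat_lit 7) 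
(.lf (nat_lit 268607515) (dlOf (nat_lit 4) (nat_lit 0x30016001400a800f0050001002600733080022016000e00a800d005000e640c00b4028006ef02002000280b0a01))) 
(.lf (nat_lit 175259) (dlOf (nat_lit 1) (nat_lit 0x20028006281)))) (.nd (nat_lit 21) 
(.lf (nat_lit 25337883) (dlOf (nat_lit 1) (nat_lit 0x14002001c0008bf0882))) 
(.lf (nat_lit 52600859) (dlOf (nat_lit 1) (nat_lit 0x148004005a0009550102))))) (.nd (nat_lit 8) 
(.lf (nat_lit 2147655707) (dlOf (nat_lit 2) (nat_lit 0x13006c009801a0004a04000200180b0101))) 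
(.nd (nat_lit 10) 
(.lf (nat_lit 2818744603) (dlOf (nat_lit 3) (nat_lit 0x30058001802a000c00e0006006000600180014008000e0000009707000a00300040c0800600080004002000800080f8003))) 
(.lf (nat_lit 2281878811) (dlOf (nat_lit 1) (nat_lit 0x4004000400180a9702)))))) (.nd (nat_lit 20) 
(.nd (nat_lit 21) (.nd (nat_lit 27) 
(.lf (nat_lit 806002715) (dlOf (nat_lit 5) (nat_lit 0x4202b0006ec080dd01580560026001b30402e4056000c281017302b0005c40803a80080120002000c0008210483))) 
(.lf (nat_lit 134914075) (dlOf (nat_lit 1) (nat_lit 0xec002005c00080e0482)))) (.nd (nat_lit 7) 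
(.lf (nat_lit 19570715) (dlOf (nat_lit 1) (nat_lit 0x4004000200089c0482))) 
(.lf (nat_lit 36350619) (dlOf (nat_lit 1) (nat_lit 0x800200020009075582))))) (.nd (nat_lit 22) 
(.lf (nat_lit 3842075) (dlOf (nat_lit 2) (nat_lit 0x1309640000f0200180008230501))) 
(.lf (nat_lit 16424987) (dlOf (nat_lit 1) (nat_lit 0x3000188a0481)))))) (.nd (nat_lit 7) 
(.nd (nat_lit 9) (.nd (nat_lit 11) (.nd (nat_lit 19) 
(.lf (nat_lit 3490881563) (dlOf (nat_lit 2) (nat_lit 0x1117000000080018008002400200220008030883))) 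
(.lf (nat_lit 3221921819) (dlOf (nat_lit 22) (nat_lit 0xae0150057805c002370400b00540011501000c02a002a00b8004500806700a800c8050001802400d900fc0614066009003001d9017002280a800fc01e000600900020038008985809001500ee40800021f0407fa040007101c000830100398100003e60408f408003f402e000f90201490178007b8080a780bc003d604053005e001e902005e02f000d601002d0178006a4080a800bc0030404011805e0017802004c02f000bb01004e0178005d0080a200bc002e60404a005e0017102024402f000b78101410178000000803800080f0c00200b400081b0483)))) 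
(.lf (nat_lit 5905754139) (dlOf (nat_lit 1) (nat_lit 0x400400020008144702)))) 
(.lf (nat_lit 3355615771) (dlOf (nat_lit 1) (nat_lit 0x4004000200080a1482)))) (.nd (nat_lit 10) 
(.nd (nat_lit 9) (.lf (nat_lit 5905754267) (dlOf (nat_lit 1) (nat_lit 0x2000200080008144802))) 
(.lf (nat_lit 3892492955) (dlOf (nat_lit 2) (nat_lit 0x38168013f8040004004000a000815b682)))) 
(.nd (nat_lit 8) (.lf (nat_lit 5905753755) (dlOf (nat_lit 1) (nat_lit 0x6c00400540008143a82))) 
(.lf (nat_lit 5905754011) (dlOf (nat_lit 1) (nat_lit 0x1580028144281))))))) (.nd (nat_lit 27) 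
(.nd (nat_lit 29) (.nd (nat_lit 30) (.nd (nat_lit 21) 
(.lf (nat_lit 4630683675) (dlOf (nat_lit 3) (nat_lit 0x280580048028000a005004ac03000600b00030014012ae080004004000a0008060a02))) 
(.lf (nat_lit 69378075) (dlOf (nat_lit 1) (nat_lit 0x2000400060018940102)))) (.nd (nat_lit 8) 
(.lf (nat_lit 1141025819) (dlOf (nat_lit 1) (nat_lit 0x20008096001))) 
(.lf (nat_lit 5435990299) (dlOf (nat_lit 1) (nat_lit 0x40018090a81))))) (.nd (nat_lit 19) 
(.nd (nat_lit 20) (.lf (nat_lit 2755829787) (dlOf (nat_lit 2) (nat_lit 0x3424700ed40181b0000))) 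
(.lf (nat_lit 2752684059) (dlOf (nat_lit 2) (nat_lit 0x1123000000080018008002400200220008030883)))) 
(.lf (nat_lit 1678417947) (dlOf (nat_lit 5) (nat_lit 0x4202b0006ec080dd01580560026001a30402e4056000be81017302b0005cc0803a80080120002000c0008210483))))) 
(.nd (nat_lit 19) (.nd (nat_lit 29) (.nd (nat_lit 30) 
(.lf (nat_lit 6643949595) (dlOf (nat_lit 2) (nat_lit 0xd40000008e0200120008090481))) 
(.lf (nat_lit 1275240475) (dlOf (nat_lit 2) (nat_lit 0x13006c009801a0004a04000200180b0101)))) 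
(.nd (nat_lit 30) 
(.lf (nat_lit 2885853211) (dlOf (nat_lit 3) (nat_lit 0x4c20300282017813a00b809c805a04d8024026100d012f006009b402e04d601302660088067803c06c401804d600b0261004813b001409d400404bc00102740000076a89012580c009e005e04e802e027101681350090095803404ba018026900b8134004c0980022018000f002e0060129802c098001204ec00502730010100800409a400001da824000e00280b0001))) 
(.lf (nat_lit 6107078683) (dlOf (nat_lit 3) (nat_lit 0x20058001402a000c0140008002801d7c20004001400e4e04000400400020008060a02))))) 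
(.nd (nat_lit 28) (.nd (nat_lit 29) 
(.lf (nat_lit 202022939) (dlOf (nat_lit 1) (nat_lit 0xec002005c00080e0482))) 
(.lf (nat_lit 3960119323) (dlOf (nat_lit 22) (nat_lit 0xae0150057805c002370400b00540011501000c02a002a00b8004500806700a800c8050001802400d900fc0614066009003001d9017002280a800fc01e000600900020038008985809001500ee4080002230407fa040007101c0008381011e810007e805c001f30400e6040000f90101490178007b8080a780bc003d604053005e001e902005e02f000d981002d0178006c0080a800bc002f204009805e0017802008c02f000bb01004e0178005d00809400bc002e604051005e0017102024402f000b78101410178000000803800080f0c00200b400081b0483)))) 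
(.nd (nat_lit 21) 
(.lf (nat_lit 6376038427) (dlOf (nat_lit 1) (nat_lit 0x20008001400200140008060a03))) 
(.lf (nat_lit 472555547) (dlOf (nat_lit 2) (nat_lit 0x1023000022040008004000a00089c0102)))))))) 
(.nd (nat_lit 7) (.nd (nat_lit 32) (.nd (nat_lit 19) (.nd (nat_lit 22) (.nd (nat_lit 20) 
(.lf (nat_lit 2819006491) (dlOf (nat_lit 11) (nat_lit 0x10230000fc0800081180007a0400f008c0003502005e04600d90108000b41000381c0003408c0002021000160300370380034811800040420002b06000c07000040328080811804bc0420002a08006a074001303280810118000408a026e02100fc0000000583003f8118028c0420000904011e046012f01080000010002000800fc00200d40008150103))) 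
(.lf (nat_lit 9871387) (dlOf (nat_lit 1) (nat_lit 0x40028590401)))) (.nd (nat_lit 21) 
(.lf (nat_lit 13017115) (dlOf (nat_lit 6) (nat_lit 0xc118d80568c360004004017e50900012010006319800b98600058ae8000a4e90001004009f2ba004693a40003e0804e4c66000261801202ba000034180520008032c00201a000086f0403))) 
(.lf (nat_lit 48668699) (dlOf (nat_lit 2) (nat_lit 0x414f40003f0200020019420101))))) 
(.nd (nat_lit 8) (.nd (nat_lit 20) 
(.lf (nat_lit 537829403) (dlOf (nat_lit 16) (nat_lit 0x681c003b6a0401380e001db202029600000ed50101fe03c00f101d807980ea03e60710239038004701bc07340cc03c8065021c03100fc018405500c003b600000ed30c00e103c009901d803f00ea024e07100e40380091019802780ca014e0620085030808c800003b4828015c0cc01d6e02008a076004003300759010017000003a9e0400380ec01d4602007a0760046033007510100ae01d805400cc01d4304020207600ca0330074fc1000b80000378e04026800000de40201bc076005b03800528198000000c00ec004002200081b0002))) 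
(.lf (nat_lit 473866267) (dlOf (nat_lit 3) (nat_lit 0x3419a0003102009c143002109c808003340005e0c000800400040018fc0102)))) 
(.lf (nat_lit 19833115) (dlOf (nat_lit 1) (nat_lit 0x4002000200089d0a82))))) (.nd (nat_lit 26) 
(.nd (nat_lit 27) (.nd (nat_lit 28) 
(.lf (nat_lit 6442885147) (dlOf (nat_lit 1) (nat_lit 0x4004000e0008200a82))) (.nd (nat_lit 30) 
(.lf (nat_lit 4563836955) (dlOf (nat_lit 2) (nat_lit 0x760310065a0180f0a00))) 
(.lf (nat_lit 5637578779) (dlOf (nat_lit 2) (nat_lit 0xc00300012018110400))))) 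
(.lf (nat_lit 4698054683) (dlOf (nat_lit 8) (nat_lit 0x304025004ac01015a01280255c0800280a40234042007440402720300006014801ccc1000080c0005c0520073204017e03100383810120018000b00a4027c042006ef0600e800180f0a01)))) 
(.nd (nat_lit 27) (.lf (nat_lit 6509994011) (dlOf (nat_lit 1) (nat_lit 0x60008180481))) 
(.lf (nat_lit 5838905371) (dlOf (nat_lit 1) (nat_lit 0x4004000e0008200a82)))))) (.nd (nat_lit 19) 
(.nd (nat_lit 20) (.nd (nat_lit 23) 
(.lf (nat_lit 1476830363) (dlOf (nat_lit 1) (nat_lit 0xd0008002800200380008202b83))) 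
(.lf (nat_lit 42378395) (dlOf (nat_lit 2) (nat_lit 0x2053d000129a00011008001000400280009242b82)))) 
(.nd (nat_lit 8) (.lf (nat_lit 1008116891) (dlOf (nat_lit 1) (nat_lit 0x8004000200089e2b82))) 
(.lf (nat_lit 2755043739) (dlOf (nat_lit 1) (nat_lit 0xc0028106881))))) (.nd (nat_lit 8) 
(.nd (nat_lit 11) (.nd (nat_lit 20) 
(.lf (nat_lit 24027291) (dlOf (nat_lit 1) (nat_lit 0x1400200040008b80182))) 
(.lf (nat_lit 12492955) (dlOf (nat_lit 2) (nat_lit 0x2418000230186c0180)))) (.nd (nat_lit 9) 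
(.lf (nat_lit 8300699) (dlOf (nat_lit 1) (nat_lit 0x8008000400200020008514803))) 
(.lf (nat_lit 62827163) (dlOf (nat_lit 1) (nat_lit 0x4002000200099a5582))))) (.nd (nat_lit 20) 
(.lf (nat_lit 5772321179) (dlOf (nat_lit 6) (nat_lit 0x3d04f8024c262010a130000b083006709f003c84c4002b8080030262000d40202d412f0004e8101350978002380800500080024002000e0008091003))) 
(.lf (nat_lit 2755568027) (dlOf (nat_lit 1) (nat_lit 0x400081b0781)))))))) (.nd (nat_lit 8) 
(.nd (nat_lit 7) (.nd (nat_lit 9) (.nd (nat_lit 29) (.nd (nat_lit 19) (.nd (nat_lit 21) 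
(.lf (nat_lit 5503098971) (dlOf (nat_lit 1) (nat_lit 0x20028071801))) 
(.lf (nat_lit 52600923) (dlOf (nat_lit 4) (nat_lit 0x256088014aca400656500082a7b003053480002c28014b0480171652000090400b6c120082594800000100298008006400200360009550883)))) 
(.lf (nat_lit 10133595) (dlOf (nat_lit 2) (nat_lit 0x4779001038185b0a80)))) (.nd (nat_lit 10) 
(.lf (nat_lit 4899119195) (dlOf (nat_lit 2) (nat_lit 0x40220002b018080680))) 
(.lf (nat_lit 3758273627) (dlOf (nat_lit 1) (nat_lit 0x80008129381))))) (.nd (nat_lit 10) 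
(.nd (nat_lit 20) (.lf (nat_lit 44477019) (dlOf (nat_lit 1) (nat_lit 0x80009325301))) 
(.lf (nat_lit 62302811) (dlOf (nat_lit 2) (nat_lit 0x544d4000000199a5300)))) 
(.lf (nat_lit 2617423451) (dlOf (nat_lit 4) (nat_lit 0x5c0580012d02000602f0001e8100180178000f00800700080028002001000080a9c03))))) 
(.nd (nat_lit 26) (.nd (nat_lit 9) (.nd (nat_lit 10) 
(.lf (nat_lit 3493503195) (dlOf (nat_lit 1) (nat_lit 0xb400200060008156182))) 
(.lf (nat_lit 179419) (dlOf (nat_lit 1) (nat_lit 0x2002800c401)))) 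
(.lf (nat_lit 8565467) (dlOf (nat_lit 1) (nat_lit 0x400200020008518c82)))) (.nd (nat_lit 27) 
(.nd (nat_lit 9) (.lf (nat_lit 5704425691) (dlOf (nat_lit 2) (nat_lit 0x300190001e818071c80))) 
(.lf (nat_lit 69905115) (dlOf (nat_lit 1) (nat_lit 0x400200020008e15902)))) (.nd (nat_lit 10) 
(.lf (nat_lit 738631899) (dlOf (nat_lit 3) (nat_lit 0x2035000168100020260000a80800680080018002003000080c1c83))) 
(.lf (nat_lit 5301773531) (dlOf (nat_lit 1) (nat_lit 0x6f800404540008092e02))))))) 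
(.nd (nat_lit 30) (.nd (nat_lit 21) (.nd (nat_lit 26) (.nd (nat_lit 27) (.nd (nat_lit 18) 
(.lf (nat_lit 4295139675) (dlOf (nat_lit 1) (nat_lit 0x80008000400200020008090683))) 
(.lf (nat_lit 21406043) (dlOf (nat_lit 1) (nat_lit 0x20028a34e81)))) (.nd (nat_lit 31) 
(.lf (nat_lit 4429357403) (dlOf (nat_lit 1) (nat_lit 0x80008000400200020008090683))) 
(.lf (nat_lit 6576841051) (dlOf (nat_lit 1) (nat_lit 0xc002002e0008154e82))))) (.nd (nat_lit 7) 
(.nd (nat_lit 9) 
(.lf (nat_lit 4362248539) (dlOf (nat_lit 7) (nat_lit 0x3702980a5011c03b805a000690600680530148023807c80b4000d00c036408e00b602d0003282003602980250144052408e01d202d0002204002102380010c0801e814c00580a2029c04701010168001082004f0008021c00207f40008014e03))) 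
(.lf (nat_lit 3154294619) (dlOf (nat_lit 1) (nat_lit 0x2001815a301)))) 
(.lf (nat_lit 2751642075) (dlOf (nat_lit 4) (nat_lit 0x60844004c42000c1704001820f0053f01000f1078029b40801400080038002000c000800b283))))) 
(.nd (nat_lit 10) (.nd (nat_lit 7) 
(.lf (nat_lit 3055963) (dlOf (nat_lit 1) (nat_lit 0x10008000400200040008200683))) 
(.lf (nat_lit 44475355) (dlOf (nat_lit 1) (nat_lit 0x60009322881)))) (.nd (nat_lit 20) 
(.lf (nat_lit 69903707) (dlOf (nat_lit 1) (nat_lit 0x18002000c0008e13382))) 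
(.lf (nat_lit 49980763) (dlOf (nat_lit 1) (nat_lit 0x10004000a00194c3382)))))) (.nd (nat_lit 18) 
(.nd (nat_lit 10) (.nd (nat_lit 27) 
(.lf (nat_lit 5435990363) (dlOf (nat_lit 1) (nat_lit 0xe0008090e01))) 
(.lf (nat_lit 1812111707) (dlOf (nat_lit 1) (nat_lit 0x60018154e81)))) (.nd (nat_lit 12) 
(.lf (nat_lit 3221400923) (dlOf (nat_lit 1) (nat_lit 0x1400200020008116a82))) 
(.lf (nat_lit 3221405019) (dlOf (nat_lit 1) (nat_lit 0x2001811c901))))) (.nd (nat_lit 7) 
(.lf (nat_lit 3624313179) (dlOf (nat_lit 3) (nat_lit 0x12b01b0103806c06900280008002000140400ae00a000098080110008011800200080008154e83))) 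
(.nd (nat_lit 20) 
(.lf (nat_lit 5772321243) (dlOf (nat_lit 2) (nat_lit 0x1b0978000a00800200080014002000e0008091203))) 
(.lf (nat_lit 1881055707) (dlOf (nat_lit 1) (nat_lit 0x800200020008de7c02))))))))) (.nd (nat_lit 6) 
(.nd (nat_lit 19) (.nd (nat_lit 29) (.nd (nat_lit 10) (.nd (nat_lit 9) (.nd (nat_lit 7) 
(.nd (nat_lit 18) (.lf (nat_lit 24289339) (dlOf (nat_lit 1) (nat_lit 0x800400040008b90c02))) 
(.lf (nat_lit 60203067) (dlOf (nat_lit 1) (nat_lit 0x400400020009840002)))) (.nd (nat_lit 20) 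
(.lf (nat_lit 4295139515) (dlOf (nat_lit 1) (nat_lit 0x20018090381))) 
(.lf (nat_lit 9609403) (dlOf (nat_lit 1) (nat_lit 0x20028571701))))) (.nd (nat_lit 11) 
(.nd (nat_lit 26) 
(.lf (nat_lit 134652475) (dlOf (nat_lit 4) (nat_lit 0x4018800100440003a0800240620001c0200080310001008800068100018008002400200100008091003))) 
(.lf (nat_lit 201761339) (dlOf (nat_lit 4) (nat_lit 0x4018800100440003a0800240620001c0200080310001008800068100018008002400200100008091003)))) 
(.lf (nat_lit 58894907) (dlOf (nat_lit 1) (nat_lit 0x2dc002004000097e5202))))) (.nd (nat_lit 7) 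
(.nd (nat_lit 8) (.lf (nat_lit 38183995) (dlOf (nat_lit 1) (nat_lit 0x20019132881))) 
(.nd (nat_lit 9) (.lf (nat_lit 6509735227) (dlOf (nat_lit 1) (nat_lit 0xe40028146901))) 
(.lf (nat_lit 20363067) (dlOf (nat_lit 1) (nat_lit 0x80080004002000200089da103))))) 
(.nd (nat_lit 9) (.nd (nat_lit 21) 
(.lf (nat_lit 33727675) (dlOf (nat_lit 1) (nat_lit 0x400400020008f52c82))) 
(.lf (nat_lit 48407739) (dlOf (nat_lit 2) (nat_lit 0x1200000000019402c80)))) 
(.lf (nat_lit 6509735611) (dlOf (nat_lit 1) (nat_lit 0x400200020008147282)))))) (.nd (nat_lit 7) 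
(.nd (nat_lit 9) (.nd (nat_lit 8) (.nd (nat_lit 10) 
(.lf (nat_lit 2819006523) (dlOf (nat_lit 3) (nat_lit 0x200e4001ad02005803f00015018150480))) 
(.lf (nat_lit 2013439035) (dlOf (nat_lit 1) (nat_lit 0xa0018092881)))) 
(.lf (nat_lit 4026704187) (dlOf (nat_lit 1) (nat_lit 0x28008003000200060008048503)))) 
(.nd (nat_lit 11) (.nd (nat_lit 10) 
(.lf (nat_lit 4228031035) (dlOf (nat_lit 1) (nat_lit 0x13000200020008018202))) 
(.lf (nat_lit 2013439547) (dlOf (nat_lit 2) (nat_lit 0x320240000d018093780)))) (.nd (nat_lit 8) 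
(.lf (nat_lit 1007856187) (dlOf (nat_lit 1) (nat_lit 0x400400020008805202))) 
(.lf (nat_lit 6241299259) (dlOf (nat_lit 1) (nat_lit 0x4000280d5c01)))))) (.nd (nat_lit 18) 
(.nd (nat_lit 12) (.nd (nat_lit 9) 
(.lf (nat_lit 1880270011) (dlOf (nat_lit 1) (nat_lit 0x400400020008802c82))) 
(.lf (nat_lit 1745005243) (dlOf (nat_lit 1) (nat_lit 0x220018095781)))) (.nd (nat_lit 8) 
(.lf (nat_lit 3154292923) (dlOf (nat_lit 1) (nat_lit 0x18008001400200080008157e83))) 
(.lf (nat_lit 3892490683) (dlOf (nat_lit 2) (nat_lit 0x6811c00080700004404005e0018158581))))) 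
(.nd (nat_lit 8) (.nd (nat_lit 26) 
(.lf (nat_lit 1611047099) (dlOf (nat_lit 2) (nat_lit 0x801f8000000800180080030002000c00080c1703))) 
(.lf (nat_lit 738631867) (dlOf (nat_lit 2) (nat_lit 0x401f80006c0800100080014002000600080c1a03)))) 
(.lf (nat_lit 2751899579) (dlOf (nat_lit 1) (nat_lit 0x60028004381))))))) (.nd (nat_lit 20) 
(.nd (nat_lit 26) (.nd (nat_lit 7) (.nd (nat_lit 27) (.nd (nat_lit 28) 
(.lf (nat_lit 537567291) (dlOf (nat_lit 1) (nat_lit 0x4004000200080b1602))) 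
(.lf (nat_lit 1342873659) (dlOf (nat_lit 1) (nat_lit 0x400400020008101602)))) 
(.lf (nat_lit 134914107) (dlOf (nat_lit 1) (nat_lit 0x80002009400080e0d82)))) (.nd (nat_lit 10) 
(.lf (nat_lit 5772320955) (dlOf (nat_lit 2) (nat_lit 0x10812a000000200020018090701))) 
(.lf (nat_lit 34514107) (dlOf (nat_lit 1) (nat_lit 0x400400020008fb2c82))))) (.nd (nat_lit 27) 
(.nd (nat_lit 28) (.lf (nat_lit 67805243) (dlOf (nat_lit 2) (nat_lit 0xc000000020182f0c80))) 
(.lf (nat_lit 1409982523) (dlOf (nat_lit 1) (nat_lit 0x4004000200080b1602)))) (.nd (nat_lit 28) 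
(.lf (nat_lit 202022971) (dlOf (nat_lit 1) (nat_lit 0x80002009400080e0d82))) (.nd (nat_lit 29) 
(.lf (nat_lit 470458427) (dlOf (nat_lit 1) (nat_lit 0x400400020008101602))) 
(.lf (nat_lit 3154812987) (dlOf (nat_lit 6) (nat_lit 0x3c0160002802001c032000200a00006410006811c0008082002200b0000783000e01600001c0800801200038084001c02c00000038330c80))))))) 
(.nd (nat_lit 21) (.nd (nat_lit 9) (.nd (nat_lit 22) 
(.lf (nat_lit 10133563) (dlOf (nat_lit 1) (nat_lit 0x80080008002000600085b0703))) 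
(.lf (nat_lit 56270907) (dlOf (nat_lit 1) (nat_lit 0x400200020009730002)))) (.nd (nat_lit 26) 
(.lf (nat_lit 3491406395) (dlOf (nat_lit 4) (nat_lit 0x103d60001d0200221eb0000e0100060f5800068080020008000800200160008091003))) 
(.lf (nat_lit 2753208891) (dlOf (nat_lit 4) (nat_lit 0x103fa0001d0200221fd0000e0100060fe800068080020008000800200160008091003))))) 
(.nd (nat_lit 18) (.nd (nat_lit 7) 
(.lf (nat_lit 45785147) (dlOf (nat_lit 1) (nat_lit 0x28008002c00200300009360583))) 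
(.lf (nat_lit 37397691) (dlOf (nat_lit 1) (nat_lit 0x4004000200090d2c82)))) (.nd (nat_lit 22) 
(.lf (nat_lit 1346281531) (dlOf (nat_lit 1) (nat_lit 0x1a0028e80001))) 
(.lf (nat_lit 41852987) (dlOf (nat_lit 1) (nat_lit 0x400400020009240002)))))))) (.nd (nat_lit 7) 
(.nd (nat_lit 8) (.nd (nat_lit 32) (.nd (nat_lit 18) (.nd (nat_lit 20) 
(.lf (nat_lit 2755829883) (dlOf (nat_lit 1) (nat_lit 0x400081b0081))) 
(.lf (nat_lit 41066619) (dlOf (nat_lit 1) (nat_lit 0x40029213581)))) (.nd (nat_lit 9) 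
(.lf (nat_lit 8300667) (dlOf (nat_lit 1) (nat_lit 0x40004008e0008514782))) 
(.lf (nat_lit 1476830843) (dlOf (nat_lit 11) (nat_lit 0x68050002801800051040018014002500600014010021805001140180004f04002a01400020048001381000f805000c00180004b04004603a000f01b800b80d0009c0540004408000a03a000301b800108100040000000740400240280003802002001400260060000001001200080084002001e0008203983))))) 
(.nd (nat_lit 28) (.nd (nat_lit 11) 
(.lf (nat_lit 4832010363) (dlOf (nat_lit 1) (nat_lit 0x8008000400200020008080c83))) 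
(.lf (nat_lit 5905754235) (dlOf (nat_lit 1) (nat_lit 0x400400020008144782)))) (.nd (nat_lit 9) 
(.lf (nat_lit 5100445819) (dlOf (nat_lit 2) (nat_lit 0x800a0001003800144100038008001400200040008080b83))) 
(.lf (nat_lit 6375515771) (dlOf (nat_lit 1) (nat_lit 0x8008001000200020008003983)))))) 
(.nd (nat_lit 18) (.nd (nat_lit 9) (.nd (nat_lit 11) 
(.lf (nat_lit 6308405627) (dlOf (nat_lit 1) (nat_lit 0x2000200100008075a02))) 
(.lf (nat_lit 2751641979) (dlOf (nat_lit 1) (nat_lit 0x3c001800ae81)))) (.nd (nat_lit 10) 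
(.lf (nat_lit 473082747) (dlOf (nat_lit 3) (nat_lit 0x60b28006d00800385940034404000c00400140018c95c02))) 
(.lf (nat_lit 175995) (dlOf (nat_lit 1) (nat_lit 0x80018007781))))) (.nd (nat_lit 26) 
(.nd (nat_lit 19) 
(.lf (nat_lit 1611047291) (dlOf (nat_lit 1) (nat_lit 0x2600080318002008200080c5a03))) 
(.lf (nat_lit 5772321147) (dlOf (nat_lit 1) (nat_lit 0x40008002c00200320008091003)))) 
(.nd (nat_lit 27) (.nd (nat_lit 28) 
(.lf (nat_lit 1678156155) (dlOf (nat_lit 1) (nat_lit 0xc00281a0781))) 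
(.lf (nat_lit 1409720699) (dlOf (nat_lit 2) (nat_lit 0x280c000e8804003000400a80008090782)))) 
(.lf (nat_lit 738632059) (dlOf (nat_lit 13) (nat_lit 0x602c8001815c0027c08001c0b20013402000205a0008c01000402b800450080038168002c0ae00200050008803000102d0001015c002800a0010f06000605a000502b800480140021c0c001c0b40014057000d00280043418001815c0021804000800a000f702000a057000778100010028000000801680080064002003000080c5a03))))))) 
(.nd (nat_lit 18) (.nd (nat_lit 26) (.nd (nat_lit 8) (.nd (nat_lit 9) 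
(.lf (nat_lit 2281878779) (dlOf (nat_lit 1) (nat_lit 0x4004000200080a9502))) (.nd (nat_lit 19) 
(.lf (nat_lit 174843) (dlOf (nat_lit 1) (nat_lit 0x8008000400200020008005a03))) 
(.lf (nat_lit 49982203) (dlOf (nat_lit 2) (nat_lit 0x63a1000054040030004001c00094c5a02))))) 
(.nd (nat_lit 9) (.lf (nat_lit 805481979) (dlOf (nat_lit 2) (nat_lit 0x801100002818116f80))) 
(.nd (nat_lit 20) (.lf (nat_lit 50504699) (dlOf (nat_lit 1) (nat_lit 0x200294c2881))) 
(.lf (nat_lit 36873211) (dlOf (nat_lit 1) (nat_lit 0x180019072881)))))) (.nd (nat_lit 8) 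
(.nd (nat_lit 10) (.lf (nat_lit 473604347) (dlOf (nat_lit 1) (nat_lit 0x1800200020008f62902))) 
(.lf (nat_lit 2617423099) (dlOf (nat_lit 3) (nat_lit 0xa000000cfc04005c0000059502008800180a9501)))) 
(.nd (nat_lit 11) (.nd (nat_lit 27) 
(.lf (nat_lit 4362248699) (dlOf (nat_lit 13) (nat_lit 0x6c0490003401002402e821b815810440a80074049009102181020104017c0800ad402b01460148194808001c00280006716015a05d008102c0080815c10e00ac081c054003e0248047810c012c08403ee041009c020003000c0013c05e00be02e0586015800200a400140500382022038501000998068023c0280006628006c049000328100020248001280801d81240008a0400840920004202080a056003702482c500ac003c044000410803c605d01a602c0105815c10c80ac0748055040602a002a813c00f8092018a04301e402101390104037408001fe03401bb01800c300bc15cc056074602a01ae0148077009c0ff40440126020017400d006880500007e5c00d80920003d02007a05400005810036024800000081bd00080d200021e7a0008017e03))) 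
(.lf (nat_lit 469934587) (dlOf (nat_lit 3) (nat_lit 0x8714000a804008839e00101cd000d0e5800e87140008a10007000400100018017e02)))) 
(.nd (nat_lit 20) (.lf (nat_lit 472033787) (dlOf (nat_lit 1) (nat_lit 0x20018804f81))) 
(.lf (nat_lit 1007856123) (dlOf (nat_lit 1) (nat_lit 0x60008804f81))))))) (.nd (nat_lit 9) 
(.nd (nat_lit 19) (.nd (nat_lit 10) 
(.lf (nat_lit 3624313339) (dlOf (nat_lit 9) (nat_lit 0xf30140016009c01d004c01c801b009b00c80648054006002800c80120014005806b8008014b628016004c0006021009500d8040006403d002a014001200e700680720018002c00400a591200a8044005f01e007b00dc035406a024a000005288500c7022010300f802e407800b403b015a01b809e80d4004401402720000052788015601b80270098018c0320198015000c0050029182808500f8054c06e009a026007600c8070805403a401a001200a00f7003002914400ab00dc008c03201c60150036006800c8028039800c00a3c0c027a037003c00a8028e8100c480080be400208480008157803))) 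
(.lf (nat_lit 43427323) (dlOf (nat_lit 1) (nat_lit 0xe00292a3681)))) (.nd (nat_lit 11) 
(.nd (nat_lit 26) (.lf (nat_lit 3490619899) (dlOf (nat_lit 2) (nat_lit 0x608b00514018017800))) 
(.lf (nat_lit 2752422395) (dlOf (nat_lit 3) (nat_lit 0x24c1920002e02013c0c900016818017e00)))) 
(.lf (nat_lit 62827003) (dlOf (nat_lit 1) (nat_lit 0x4002000200099a4f82))))) (.nd (nat_lit 11) 
(.nd (nat_lit 19) (.lf (nat_lit 2550572027) (dlOf (nat_lit 1) (nat_lit 0x200280f2881))) 
(.nd (nat_lit 20) (.lf (nat_lit 38708219) (dlOf (nat_lit 1) (nat_lit 0x20019132881))) 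
(.lf (nat_lit 37659643) (dlOf (nat_lit 1) (nat_lit 0x4004000200090d2882))))) (.nd (nat_lit 20) 
(.lf (nat_lit 604417019) (dlOf (nat_lit 2) (nat_lit 0x52014001c0060000001002800080078002003c0008205f03))) 
(.lf (nat_lit 20360187) (dlOf (nat_lit 1) (nat_lit 0x4002000200089d5f02))))))))))) (.nd (nat_lit 3) 
(.nd (nat_lit 5) (.nd (nat_lit 6) (.nd (nat_lit 18) (.nd (nat_lit 7) (.nd (nat_lit 19) 
(.nd (nat_lit 26) (.nd (nat_lit 29) (.nd (nat_lit 20) 
(.lf (nat_lit 1342414867) (dlOf (nat_lit 5) (nat_lit 0x191238006340800c891c0031804006448e0018a020032247000c4818020480))) 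
(.nd (nat_lit 21) (.lf (nat_lit 1343463443) (dlOf (nat_lit 1) (nat_lit 0x1e0008250481))) 
(.lf (nat_lit 15966227) (dlOf (nat_lit 1) (nat_lit 0x10008000400200080008850483))))) 
(.nd (nat_lit 8) 
(.lf (nat_lit 2953027603) (dlOf (nat_lit 12) (nat_lit 0xe00b80078054003a027001b010800580780008030000550c004002e0024013800f0084005403c005201a001600c000f0008000a81c007405c003402a001f013800b8084003003c0002018000c0010001483800e00b8007c054003c027001a010800680780010030000510c003802e001b0150010009c006c042003c01e001e00c0001303000b80b8009804e0036021000700f0010006800140300032002000258700060000000fc0801100a400700400036017001400a000e0044007400c000330c00440290020010000f805c008002200032080040029001d010000d005c00700220003108000602900160100007005c00a80280034011001a00680110018000601c00bc004000e00180b0202))) 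
(.nd (nat_lit 27) 
(.lf (nat_lit 1879286035) (dlOf (nat_lit 1) (nat_lit 0x480080098002002800080c0483))) 
(.lf (nat_lit 671326483) (dlOf (nat_lit 1) (nat_lit 0x20018153d01)))))) (.nd (nat_lit 28) 
(.nd (nat_lit 9) (.nd (nat_lit 27) 
(.lf (nat_lit 604217363) (dlOf (nat_lit 2) (nat_lit 0x110000001700801480080088002001800080b0203))) 
(.lf (nat_lit 2349047827) (dlOf (nat_lit 1) (nat_lit 0x8008000400200080008090003)))) 
(.lf (nat_lit 3288572435) (dlOf (nat_lit 2) (nat_lit 0xf8020000a6818090d80)))) (.nd (nat_lit 8) 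
(.nd (nat_lit 20) (.nd (nat_lit 31) 
(.lf (nat_lit 469999635) (dlOf (nat_lit 5) (nat_lit 0x191238003f00800c891c001f404006448e000f90200322470007c018020480))) 
(.lf (nat_lit 2617483283) (dlOf (nat_lit 3) (nat_lit 0x5b0158001480805c80ac000960400e4004003a00180c0482)))) 
(.lf (nat_lit 471048211) (dlOf (nat_lit 1) (nat_lit 0x400400020018250482)))) 
(.lf (nat_lit 1543741715) (dlOf (nat_lit 1) (nat_lit 0x20018153d01)))))) (.nd (nat_lit 21) 
(.nd (nat_lit 22) (.nd (nat_lit 9) (.nd (nat_lit 20) 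
(.lf (nat_lit 2819334163) (dlOf (nat_lit 2) (nat_lit 0x281c00011804002c00400160018240382))) 
(.lf (nat_lit 60530707) (dlOf (nat_lit 1) (nat_lit 0x28008000c00200140009890283)))) 
(.lf (nat_lit 51094035) (dlOf (nat_lit 2) (nat_lit 0x16b7900034e50001ec1000100080038002000400094f7c83)))) 
(.nd (nat_lit 10) (.lf (nat_lit 4956179) (dlOf (nat_lit 1) (nat_lit 0xc004000600082d0082))) 
(.lf (nat_lit 38511635) (dlOf (nat_lit 1) (nat_lit 0x20009132881))))) (.nd (nat_lit 9) 
(.nd (nat_lit 8) 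
(.lf (nat_lit 15441939) (dlOf (nat_lit 4) (nat_lit 0x87d7000a399800150100021f5c0018e66000520400107d7000839980012c100010008002c002001a00087f0203))) 
(.lf (nat_lit 19636499) (dlOf (nat_lit 1) (nat_lit 0x4002000200089d0a82)))) (.nd (nat_lit 11) 
(.lf (nat_lit 20689683) (dlOf (nat_lit 1) (nat_lit 0x10002000200089d8f82))) 
(.lf (nat_lit 19643155) (dlOf (nat_lit 1) (nat_lit 0x4004000400089dba82))))))) (.nd (nat_lit 8) 
(.nd (nat_lit 31) (.nd (nat_lit 20) (.nd (nat_lit 9) 
(.lf (nat_lit 23306387) (dlOf (nat_lit 1) (nat_lit 0xb000800ec00200060008b80183))) 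
(.lf (nat_lit 4899187347) (dlOf (nat_lit 1) (nat_lit 0x4004000200180d5502)))) (.nd (nat_lit 19) 
(.lf (nat_lit 62103699) (dlOf (nat_lit 1) (nat_lit 0x128800804b8002037e0009951083))) 
(.lf (nat_lit 6004883) (dlOf (nat_lit 1) (nat_lit 0x800018420481))))) (.nd (nat_lit 30) 
(.nd (nat_lit 27) (.lf (nat_lit 2416156819) (dlOf (nat_lit 2) (nat_lit 0x3c00500017818090180))) 
(.lf (nat_lit 2550374547) (dlOf (nat_lit 2) (nat_lit 0x3c00500017818090180)))) (.nd (nat_lit 26) 
(.lf (nat_lit 4026769555) (dlOf (nat_lit 2) (nat_lit 0x6c00a0000a0200920018090181))) 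
(.lf (nat_lit 3288572051) (dlOf (nat_lit 2) (nat_lit 0x6c00a0000a0200920018090181)))))) 
(.nd (nat_lit 21) (.nd (nat_lit 9) 
(.lf (nat_lit 805544339) (dlOf (nat_lit 2) (nat_lit 0xb800a0051a018126180))) 
(.lf (nat_lit 46377875) (dlOf (nat_lit 1) (nat_lit 0x260029385c81)))) (.nd (nat_lit 10) 
(.nd (nat_lit 20) (.lf (nat_lit 4095975827) (dlOf (nat_lit 1) (nat_lit 0x4004000200080e1002))) 
(.lf (nat_lit 62103955) (dlOf (nat_lit 1) (nat_lit 0x720008035000202420009956483)))) 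
(.lf (nat_lit 53192083) (dlOf (nat_lit 1) (nat_lit 0x1c00200080009573602))))))) (.nd (nat_lit 19) 
(.nd (nat_lit 28) (.nd (nat_lit 30) (.nd (nat_lit 10) (.nd (nat_lit 9) 
(.lf (nat_lit 55025683) (dlOf (nat_lit 1) (nat_lit 0x20029690001))) 
(.lf (nat_lit 58171923) (dlOf (nat_lit 1) (nat_lit 0x108008001c002004a00097c7c83)))) 
(.nd (nat_lit 7) (.lf (nat_lit 39298067) (dlOf (nat_lit 1) (nat_lit 0x400400020019192882))) 
(.lf (nat_lit 8889747) (dlOf (nat_lit 2) (nat_lit 0x249e9000f4818513600))))) (.nd (nat_lit 26) 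
(.nd (nat_lit 8) (.lf (nat_lit 1611112467) (dlOf (nat_lit 2) (nat_lit 0x40550000a0180e0180))) 
(.lf (nat_lit 3892814099) (dlOf (nat_lit 2) (nat_lit 0x100b00079204001c004000e0008280702)))) 
(.nd (nat_lit 9) (.lf (nat_lit 3959922707) (dlOf (nat_lit 1) (nat_lit 0x20028170001))) 
(.lf (nat_lit 3288834579) (dlOf (nat_lit 1) (nat_lit 0x30004000200081b0d82)))))) (.nd (nat_lit 7) 
(.nd (nat_lit 11) 
(.lf (nat_lit 1345823251) (dlOf (nat_lit 1) (nat_lit 0x18008000c00200040008e07c83))) 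
(.lf (nat_lit 1476897299) (dlOf (nat_lit 4) (nat_lit 0x360360040016801e807400cc0000000608002002d001100e800080000000a0c005805a002601d00090000000001800580080020002000200082d5083)))) 
(.nd (nat_lit 8) (.nd (nat_lit 26) 
(.lf (nat_lit 1342677139) (dlOf (nat_lit 2) (nat_lit 0x15c1a3000230180c0180))) 
(.lf (nat_lit 470261907) (dlOf (nat_lit 2) (nat_lit 0x15c1b3000230180c0180)))) 
(.lf (nat_lit 4094142867) (dlOf (nat_lit 1) (nat_lit 0x280018004e81)))))) (.nd (nat_lit 22) 
(.nd (nat_lit 8) (.nd (nat_lit 21) (.nd (nat_lit 23) 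
(.lf (nat_lit 1343201299) (dlOf (nat_lit 2) (nat_lit 0x42d6002480200080008190081))) 
(.lf (nat_lit 42967059) (dlOf (nat_lit 2) (nat_lit 0x2d2b80378404002c004000200092a0002)))) 
(.lf (nat_lit 11509779) (dlOf (nat_lit 1) (nat_lit 0x200286b0401)))) (.nd (nat_lit 7) 
(.lf (nat_lit 1345299731) (dlOf (nat_lit 1) (nat_lit 0x20018b53001))) 
(.lf (nat_lit 19902867) (dlOf (nat_lit 1) (nat_lit 0x2800289d8381))))) (.nd (nat_lit 20) 
(.nd (nat_lit 21) 
(.lf (nat_lit 13606931) (dlOf (nat_lit 3) (nat_lit 0x2b6f4c01afa0400338c40063c60009bde980000018025000800dc002001e0008730883))) 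
(.lf (nat_lit 15704083) (dlOf (nat_lit 1) (nat_lit 0x20018820281)))) (.nd (nat_lit 8) 
(.nd (nat_lit 21) 
(.lf (nat_lit 14655507) (dlOf (nat_lit 2) (nat_lit 0x16c87e01921ab000f3028770080))) 
(.lf (nat_lit 16752659) (dlOf (nat_lit 1) (nat_lit 0x4002000200088e0002)))) 
(.lf (nat_lit 41919763) (dlOf (nat_lit 1) (nat_lit 0x20029243001)))))))) (.nd (nat_lit 8) 
(.nd (nat_lit 18) (.nd (nat_lit 19) (.nd (nat_lit 28) (.nd (nat_lit 9) (.nd (nat_lit 10) 
(.lf (nat_lit 3288571987) (dlOf (nat_lit 1) (nat_lit 0xa80028090001))) 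
(.lf (nat_lit 2818817107) (dlOf (nat_lit 2) (nat_lit 0x9008800026040014004000a000812bf82)))) 
(.lf (nat_lit 1610851923) (dlOf (nat_lit 1) (nat_lit 0x400200020008093882)))) (.nd (nat_lit 27) 
(.nd (nat_lit 29) 
(.lf (nat_lit 1342414931) (dlOf (nat_lit 2) (nat_lit 0xd1238000855000a8c080034002002a0008020902))) 
(.lf (nat_lit 4026769491) (dlOf (nat_lit 1) (nat_lit 0xa80028090001)))) 
(.lf (nat_lit 402890835) (dlOf (nat_lit 1) (nat_lit 0x80080004002000200080a1783))))) 
(.nd (nat_lit 9) (.nd (nat_lit 21) 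
(.lf (nat_lit 59482195) (dlOf (nat_lit 11) (nat_lit 0x28cf80036665001e2ca80069398004c9a80002c0a004066700242ca8000ac1000519f80090cf8003a66700253328011965400ac9cc001e4d40001507002833f0014999c009cb2a0002906005c67e0021333801096540000e0c0004cfc0000602005067e002b3338000141002619f80154cf800a666700503328029165401089cc00624d40000207003d33f001f99f00110cce008466500422ca8018939800609a8000030e004a67e002833380111654000040c005c00400220019800782))) 
(.nd (nat_lit 26) 
(.lf (nat_lit 3492520019) (dlOf (nat_lit 2) (nat_lit 0xdc3d4001a1d1000148280d0d80))) 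
(.lf (nat_lit 2754322515) (dlOf (nat_lit 2) (nat_lit 0xdc3f8001a1e6000148280d0d80))))) 
(.nd (nat_lit 20) (.lf (nat_lit 48998995) (dlOf (nat_lit 1) (nat_lit 0x20029465281))) 
(.lf (nat_lit 68921939) (dlOf (nat_lit 1) (nat_lit 0x20008000c00200020008845283)))))) 
(.nd (nat_lit 21) (.nd (nat_lit 30) (.nd (nat_lit 19) 
(.lf (nat_lit 21471315) (dlOf (nat_lit 1) (nat_lit 0x20008a40501))) (.nd (nat_lit 20) 
(.lf (nat_lit 13606995) (dlOf (nat_lit 12) (nat_lit 0xfa3e000bc6e0043e2800026f400e3ae12055800000019860135e2f0021ef40057ee1200031060029c600066e2280364a74008df360002908017dc620098dea80009410071718803637aa000210403c1c6201b3dea800078100adf188052b7aa0001d0402d1c62015edea800070100496f540003604012a062001efc700009820003818800004080140008030000200360008730d83))) 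
(.lf (nat_lit 14655571) (dlOf (nat_lit 2) (nat_lit 0x5443f00015018770780))))) (.nd (nat_lit 7) 
(.nd (nat_lit 22) 
(.lf (nat_lit 3892813907) (dlOf (nat_lit 4) (nat_lit 0x160590032028801f80cc00d403a006a01600350028000dc3000c8144002406600036040048054003a028801d813c00880480060022002600d800f8050000001c007400400da0018280282))) 
(.lf (nat_lit 3494355027) (dlOf (nat_lit 1) (nat_lit 0x10008000400200020008211983)))) 
(.lf (nat_lit 1476897491) (dlOf (nat_lit 2) (nat_lit 0x4029000200f8000a01001980080054002001600082d5883))))) 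
(.nd (nat_lit 19) (.nd (nat_lit 7) (.nd (nat_lit 20) (.nd (nat_lit 22) 
(.lf (nat_lit 1009229907) (dlOf (nat_lit 7) (nat_lit 0x1601c6009c0760001382000907100002808020838c00b41c400a007600004830007071000181d80001008001c0ec000030200360e3000203b0000001002900080008002002400090a0783))) 
(.lf (nat_lit 48734291) (dlOf (nat_lit 6) (nat_lit 0x3aaf0001b55240004e080072bc0003d54900005020004af0001355240001208006ea92000080200115e00024aa4800000100050008001c002000e0009420783)))) 
(.lf (nat_lit 37199955) (dlOf (nat_lit 1) (nat_lit 0x200290b0781)))) 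
(.lf (nat_lit 52929747) (dlOf (nat_lit 1) (nat_lit 0x400200040009572d82)))) (.nd (nat_lit 22) 
(.nd (nat_lit 23) (.lf (nat_lit 473931859) (dlOf (nat_lit 1) (nat_lit 0xb000400280008fc0782))) 
(.lf (nat_lit 12558419) (dlOf (nat_lit 1) (nat_lit 0x4004000200086d1082)))) 
(.lf (nat_lit 16752723) (dlOf (nat_lit 2) (nat_lit 0x5a43f0001b8188e0280))))))) (.nd (nat_lit 26) 
(.nd (nat_lit 19) (.nd (nat_lit 28) (.nd (nat_lit 20) (.nd (nat_lit 21) 
(.lf (nat_lit 537108819) (dlOf (nat_lit 2) (nat_lit 0x900000008c0800200080134002000c0008014d83))) 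
(.lf (nat_lit 23306579) (dlOf (nat_lit 1) (nat_lit 0xa0008006400200100008b80683)))) 
(.lf (nat_lit 9675091) (dlOf (nat_lit 2) (nat_lit 0xcf3f800006c080020008001400200120008574d83)))) 
(.nd (nat_lit 29) (.nd (nat_lit 18) 
(.lf (nat_lit 3490947411) (dlOf (nat_lit 1) (nat_lit 0x400400020008048202))) 
(.lf (nat_lit 1342677331) (dlOf (nat_lit 3) (nat_lit 0x6891c0006e04002444c002a1a3000090280c0680)))) 
(.nd (nat_lit 7) 
(.lf (nat_lit 805544275) (dlOf (nat_lit 21) (nat_lit 0xf30028021400c000690400ce0550069027003480dc019c024032000a00850030001a030098015404e809c024c037012700900e0002803a800c000670c0320055017e02700318128060406e0008031005b017802c00ac03b005200c8024019000900750040073401401fc006000330d000d02a80068138003406e001a0120003284008f005002080180008808000401400780060002102019f005000104080cf015403d80a6031e04e004202600c800dc03ac05e00c802b001101480350090067402401d601001ee005006b8020047800c000401c034005500ed02980c781380350098032003700e1017802880ac029805200ae024019e009007080400764014019e008010a0030000fc7003c015000a402200024040082054004100880008c1003f015001ec09a00f4036008000880008820042015001ec09a00f6049007c01b001d80c001f00220001c0c00f60300000781007b0180000300800700d8000080401ec060000020200700300000081016e005000000080a8000809a80020e4e0008124d03)))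 
(.lf (nat_lit 6308473299) (dlOf (nat_lit 1) (nat_lit 0x4004000200080d4e82)))))) (.nd (nat_lit 7) 
(.nd (nat_lit 9) (.lf (nat_lit 46113107) (dlOf (nat_lit 1) (nat_lit 0x20019380d81))) 
(.lf (nat_lit 20691795) (dlOf (nat_lit 1) (nat_lit 0x80080010002000200089dbc83)))) (.nd (nat_lit 9) 
(.nd (nat_lit 10) (.lf (nat_lit 42967507) (dlOf (nat_lit 1) (nat_lit 0x2000092a1181))) 
(.lf (nat_lit 8103379) (dlOf (nat_lit 1) (nat_lit 0x400200020008513602)))) 
(.lf (nat_lit 19901395) (dlOf (nat_lit 2) (nat_lit 0x58d910000a0189d5d80)))))) (.nd (nat_lit 7) 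
(.nd (nat_lit 9) (.nd (nat_lit 18) 
(.lf (nat_lit 1677959507) (dlOf (nat_lit 2) (nat_lit 0x205400006818124d80))) (.nd (nat_lit 19) 
(.lf (nat_lit 470262099) (dlOf (nat_lit 3) (nat_lit 0x6891c0006e04002444c002a1b3000090280c0680))) 
(.lf (nat_lit 2752487763) (dlOf (nat_lit 1) (nat_lit 0x6000200080008014d82))))) (.nd (nat_lit 12) 
(.lf (nat_lit 5570276179) (dlOf (nat_lit 1) (nat_lit 0xe00180d5c01))) 
(.lf (nat_lit 2754591571) (dlOf (nat_lit 1) (nat_lit 0x1c004000400080fbc82))))) (.nd (nat_lit 27) 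
(.nd (nat_lit 9) (.nd (nat_lit 19) 
(.lf (nat_lit 1409524179) (dlOf (nat_lit 2) (nat_lit 0x205f0004d818017100))) 
(.lf (nat_lit 69968339) (dlOf (nat_lit 1) (nat_lit 0x194004006e0008e27b02)))) 
(.lf (nat_lit 2751701971) (dlOf (nat_lit 1) (nat_lit 0x60028002881)))) (.nd (nat_lit 11) 
(.lf (nat_lit 1543741907) (dlOf (nat_lit 1) (nat_lit 0x40008157101))) 
(.lf (nat_lit 5570275795) (dlOf (nat_lit 1) (nat_lit 0x4004000200080d4e82))))))))) 
(.nd (nat_lit 18) (.nd (nat_lit 28) (.nd (nat_lit 9) (.nd (nat_lit 19) (.nd (nat_lit 8) 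
(.nd (nat_lit 21) (.nd (nat_lit 27) 
(.lf (nat_lit 3825442867) (dlOf (nat_lit 1) (nat_lit 0x10008000400200020008160603))) 
(.lf (nat_lit 4496531507) (dlOf (nat_lit 2) (nat_lit 0x180340003302000200280d0601)))) 
(.nd (nat_lit 6) 
(.lf (nat_lit 24354867) (dlOf (nat_lit 2) (nat_lit 0x2513c8000ac08007800800a800200960008b90a03))) 
(.lf (nat_lit 23306483) (dlOf (nat_lit 1) (nat_lit 0x5000200180008b80482))))) (.nd (nat_lit 7) 
(.nd (nat_lit 11) (.lf (nat_lit 537108787) (dlOf (nat_lit 1) (nat_lit 0x20018014c01))) 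
(.lf (nat_lit 2885921075) (dlOf (nat_lit 2) (nat_lit 0x1201b0001d818144c00)))) 
(.lf (nat_lit 537108915) (dlOf (nat_lit 1) (nat_lit 0x400200020008017782))))) (.nd (nat_lit 7) 
(.nd (nat_lit 20) 
(.lf (nat_lit 537632819) (dlOf (nat_lit 31) (nat_lit 0x12702780ab80f4054001e007c0000002a04025300000013c0803a01a002c40000004d04049a0000002601011c029000124080bc0148000900401580a40004702016605200023010393029000114083ef8148000880418ec0a40004302071e0520002101006f02900010408027016801240ae01a4052033f000000100201cb81480007c0409cc0a40003d02067e0520001e0106ce0290000ec081450148000700411100000003602003605a01010000000d41023f0000000680401000b40010057000b00f8000cc1802c8148000600410100b40010057067c029000900d000f805c0002d0a004c05a0000d81001702d004601480002e0800400b40001402000205a0077029000044100510148000000400d0004000600080e0682))) 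
(.nd (nat_lit 21) 
(.lf (nat_lit 22782003) (dlOf (nat_lit 8) (nat_lit 0xcadf0001e81000656f8000d008003ab7c000540400195be0002002000cadf0000601000656f800024080032b7c0000004002800200020008b20e82))) 
(.lf (nat_lit 29073459) (dlOf (nat_lit 1) (nat_lit 0x40018db0f01))))) (.nd (nat_lit 6) 
(.nd (nat_lit 11) (.lf (nat_lit 58434739) (dlOf (nat_lit 1) (nat_lit 0x4004000200097e2c02))) 
(.lf (nat_lit 202091699) (dlOf (nat_lit 1) (nat_lit 0x800180f6281)))) 
(.lf (nat_lit 8108531) (dlOf (nat_lit 1) (nat_lit 0x800800080020002000851b283)))))) 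
(.nd (nat_lit 8) (.nd (nat_lit 19) (.nd (nat_lit 6) (.nd (nat_lit 20) 
(.lf (nat_lit 5503167027) (dlOf (nat_lit 1) (nat_lit 0x60008095181))) 
(.lf (nat_lit 36940339) (dlOf (nat_lit 1) (nat_lit 0x20019075181)))) 
(.lf (nat_lit 4899187315) (dlOf (nat_lit 1) (nat_lit 0x4004000200180d5402)))) (.nd (nat_lit 6) 
(.nd (nat_lit 10) (.lf (nat_lit 8102579) (dlOf (nat_lit 1) (nat_lit 0x100080004002000c0008511d83))) 
(.lf (nat_lit 19639987) (dlOf (nat_lit 1) (nat_lit 0x200289d7281)))) 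
(.lf (nat_lit 67876467) (dlOf (nat_lit 1) (nat_lit 0x20018339d01))))) (.nd (nat_lit 10) 
(.nd (nat_lit 7) (.lf (nat_lit 67871603) (dlOf (nat_lit 1) (nat_lit 0x1000400080018332582))) 
(.nd (nat_lit 19) (.lf (nat_lit 55813107) (dlOf (nat_lit 1) (nat_lit 0x4004000200096d2882))) 
(.lf (nat_lit 56337395) (dlOf (nat_lit 1) (nat_lit 0x140029732881))))) (.nd (nat_lit 6) 
(.lf (nat_lit 8105779) (dlOf (nat_lit 3) (nat_lit 0x226ef0052d810007377802968080088008000400200100008517483))) 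
(.nd (nat_lit 19) (.lf (nat_lit 8632179) (dlOf (nat_lit 1) (nat_lit 0x40020002000851a302))) 
(.lf (nat_lit 67876723) (dlOf (nat_lit 1) (nat_lit 0x6001833a301)))))))) (.nd (nat_lit 30) 
(.nd (nat_lit 26) (.nd (nat_lit 27) (.nd (nat_lit 9) 
(.lf (nat_lit 4563640371) (dlOf (nat_lit 4) (nat_lit 0x1d00000048e04004405a0024012000d982002a0168005c40800980080048002006200080b0483))) 
(.lf (nat_lit 805544499) (dlOf (nat_lit 4) (nat_lit 0x2e051000901d00008c10065014401c4096013603a0000f03001a028800680e8000380800dc002000c0008128002)))) 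
(.nd (nat_lit 6) (.nd (nat_lit 29) 
(.lf (nat_lit 4697858099) (dlOf (nat_lit 4) (nat_lit 0x1d00000048e04004405a0024012000d182002a0168005cc0800980080048002006200080b0483))) 
(.lf (nat_lit 3087245363) (dlOf (nat_lit 1) (nat_lit 0x10008000400200020008160603)))) 
(.lf (nat_lit 5234730355) (dlOf (nat_lit 1) (nat_lit 0x1000280d3501))))) (.nd (nat_lit 7) 
(.nd (nat_lit 8) (.nd (nat_lit 19) 
(.lf (nat_lit 469999667) (dlOf (nat_lit 2) (nat_lit 0x8550001ba04001000400420008020602))) 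
(.lf (nat_lit 1009492019) (dlOf (nat_lit 1) (nat_lit 0x800291a0401)))) 
(.lf (nat_lit 473669939) (dlOf (nat_lit 2) (nat_lit 0x78000014fc040028002001a0008f97b02)))) 
(.nd (nat_lit 6) (.lf (nat_lit 1008446131) (dlOf (nat_lit 1) (nat_lit 0x20028c95701))) 
(.nd (nat_lit 10) (.lf (nat_lit 1009492211) (dlOf (nat_lit 1) (nat_lit 0x200191a2481))) 
(.lf (nat_lit 4764968179) (dlOf (nat_lit 1) (nat_lit 0xc00200060008092e82))))))) (.nd (nat_lit 9) 
(.nd (nat_lit 8) (.nd (nat_lit 6) (.nd (nat_lit 19) 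
(.lf (nat_lit 1342414899) (dlOf (nat_lit 2) (nat_lit 0x85500019e04001000400420008020602))) 
(.lf (nat_lit 1410048051) (dlOf (nat_lit 31) (nat_lit 0x12702780ab80f4054001e007c0000002a04025300000013c0803a01a002c40000004d04049a0000002601011c029000124080bc0148000900401580a40004702016605200023010393029000114083ef8148000880418ec0a40004302071e0520002101006f02900010408027016801240ae01a4052033f000000100201cb81480007c0409cc0a40003d02067e0520001e0106ce0290000ec081450148000700411100000003602003605a01010000000d41023f0000000680401000b40010057000b00f8000cc1802c8148000600410100b40010057067c029000900d000f805c0002d0a004c05a0000d81001702d004601480002e0800400b40001402000205a0077029000044100510148000000400d0004000600080e0682)))) 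
(.lf (nat_lit 3557012595) (dlOf (nat_lit 1) (nat_lit 0x20008002000200140008129403)))) 
(.nd (nat_lit 7) (.lf (nat_lit 1409524019) (dlOf (nat_lit 1) (nat_lit 0x20018014c01))) 
(.nd (nat_lit 10) 
(.lf (nat_lit 1879286195) (dlOf (nat_lit 1) (nat_lit 0x900080004002001c00080c0783))) 
(.lf (nat_lit 5637383603) (dlOf (nat_lit 1) (nat_lit 0x200080d3601)))))) (.nd (nat_lit 6) 
(.nd (nat_lit 11) (.lf (nat_lit 1409524275) (dlOf (nat_lit 1) (nat_lit 0x100008018001))) 
(.lf (nat_lit 6241364531) (dlOf (nat_lit 1) (nat_lit 0x6400280d5181)))) (.nd (nat_lit 7) 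
(.nd (nat_lit 26) (.lf (nat_lit 6174254707) (dlOf (nat_lit 1) (nat_lit 0x4004000200080d3982))) 
(.lf (nat_lit 5704492659) (dlOf (nat_lit 1) (nat_lit 0x80080008002000800080d3983)))) 
(.lf (nat_lit 4228621299) (dlOf (nat_lit 1) (nat_lit 0xb4004006c0008112882)))))))) (.nd (nat_lit 6) 
(.nd (nat_lit 19) (.nd (nat_lit 21) (.nd (nat_lit 26) (.nd (nat_lit 28) (.nd (nat_lit 20) 
(.lf (nat_lit 1611112499) (dlOf (nat_lit 1) (nat_lit 0x880080014002000c00080e1003))) 
(.lf (nat_lit 9936947) (dlOf (nat_lit 1) (nat_lit 0x300080018002000c0008591003)))) (.nd (nat_lit 9) 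
(.lf (nat_lit 805806131) (dlOf (nat_lit 4) (nat_lit 0xae015801aa404013c0ac00d510200ac056006a80181a0000))) 
(.lf (nat_lit 1346873907) (dlOf (nat_lit 1) (nat_lit 0x100019045181))))) (.nd (nat_lit 20) 
(.nd (nat_lit 27) 
(.lf (nat_lit 3557269555) (dlOf (nat_lit 3) (nat_lit 0x8a038000128102b101c00008c080018008000800200020008190a03))) 
(.lf (nat_lit 738697267) (dlOf (nat_lit 1) (nat_lit 0x880080014002000c00080e1003)))) 
(.lf (nat_lit 2753011763) (dlOf (nat_lit 3) (nat_lit 0x40821c0007e0401e410e0000002000e0008070981))))) 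
(.nd (nat_lit 22) (.nd (nat_lit 7) 
(.lf (nat_lit 2596915) (dlOf (nat_lit 5) (nat_lit 0xda440005d200003e8e8001f3b60021208000ba440004d200005e8e8001b3b600211080011a440007d200005e8e800273b600210080013a440007d200002e8e800173b60020f0800020018170a81))) 
(.lf (nat_lit 12034227) (dlOf (nat_lit 1) (nat_lit 0x200286c0301)))) (.nd (nat_lit 25) 
(.lf (nat_lit 15179827) (dlOf (nat_lit 5) (nat_lit 0x159700003204000400000018020058000000028100060000000000800980080138002006e00087c0783))) 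
(.lf (nat_lit 48734259) (dlOf (nat_lit 1) (nat_lit 0x60009420401)))))) (.nd (nat_lit 31) 
(.nd (nat_lit 20) (.nd (nat_lit 22) (.nd (nat_lit 21) (.nd (nat_lit 24) 
(.lf (nat_lit 470786099) (dlOf (nat_lit 1) (nat_lit 0x1c004001200081a0d82))) 
(.lf (nat_lit 17801267) (dlOf (nat_lit 7) (nat_lit 0x1a25800098080a2d130000140403828980000902014d44c0000201008ea2600000c08059d130000000400b0002000200088f0f02)))) 
(.lf (nat_lit 28287027) (dlOf (nat_lit 1) (nat_lit 0x40028d80881)))) (.nd (nat_lit 7) 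
(.lf (nat_lit 13606963) (dlOf (nat_lit 3) (nat_lit 0x85f18c03237ac001cd040217c6300c4deb00072c1001d80080038002003a0008730b83))) 
(.lf (nat_lit 47161523) (dlOf (nat_lit 1) (nat_lit 0x6400293b1681))))) (.nd (nat_lit 7) 
(.nd (nat_lit 8) (.lf (nat_lit 69181491) (dlOf (nat_lit 1) (nat_lit 0x200088c0401))) 
(.lf (nat_lit 44015923) (dlOf (nat_lit 2) (nat_lit 0x3a5700082c0800d80080018002000800092b5b83)))) 
(.nd (nat_lit 8) (.lf (nat_lit 54504115) (dlOf (nat_lit 1) (nat_lit 0x20029655701))) 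
(.lf (nat_lit 8365491) (dlOf (nat_lit 1) (nat_lit 0x400200020008513602)))))) (.nd (nat_lit 8) 
(.nd (nat_lit 9) (.lf (nat_lit 3492784179) (dlOf (nat_lit 1) (nat_lit 0x4002000200080f4702))) 
(.nd (nat_lit 11) 
(.lf (nat_lit 3490685491) (dlOf (nat_lit 4) (nat_lit 0x82dc000d004001416e000420200500a80001c818018000))) 
(.lf (nat_lit 3492788787) (dlOf (nat_lit 1) (nat_lit 0x8004000c00080fb382))))) (.nd (nat_lit 7) 
(.nd (nat_lit 26) 
(.lf (nat_lit 3490685235) (dlOf (nat_lit 1) (nat_lit 0x38008003400200040008014c03))) 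
(.lf (nat_lit 2752487731) (dlOf (nat_lit 1) (nat_lit 0x38008003400200040008014c03)))) 
(.lf (nat_lit 2752487859) (dlOf (nat_lit 1) (nat_lit 0xb30008001000200e20008017783))))))) 
(.nd (nat_lit 28) (.nd (nat_lit 26) (.nd (nat_lit 8) (.nd (nat_lit 7) (.nd (nat_lit 25) 
(.lf (nat_lit 134717555) (dlOf (nat_lit 1) (nat_lit 0x20028090081))) 
(.lf (nat_lit 34054259) (dlOf (nat_lit 2) (nat_lit 0x320280007404000c00400040008fa2582)))) 
(.lf (nat_lit 38772979) (dlOf (nat_lit 1) (nat_lit 0xac00200420009152482)))) (.nd (nat_lit 7) 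
(.nd (nat_lit 9) (.lf (nat_lit 4170099) (dlOf (nat_lit 1) (nat_lit 0x40028290a81))) 
(.lf (nat_lit 8370035) (dlOf (nat_lit 1) (nat_lit 0x40020002000851a302)))) 
(.lf (nat_lit 58171891) (dlOf (nat_lit 1) (nat_lit 0x580080034002002800097c7403))))) 
(.nd (nat_lit 29) (.nd (nat_lit 27) 
(.lf (nat_lit 4362575987) (dlOf (nat_lit 1) (nat_lit 0x20018090081))) 
(.lf (nat_lit 201826419) (dlOf (nat_lit 1) (nat_lit 0x20028090081)))) (.nd (nat_lit 10) 
(.lf (nat_lit 1678221427) (dlOf (nat_lit 2) (nat_lit 0x6004c0048e04000c004000200081a0082))) 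
(.lf (nat_lit 604480627) (dlOf (nat_lit 4) (nat_lit 0x30118000580800100fc0002a04000807c000a03600020118000501801d80080024002001800082d2a03)))))) 
(.nd (nat_lit 7) (.nd (nat_lit 27) (.nd (nat_lit 29) 
(.lf (nat_lit 2416418931) (dlOf (nat_lit 1) (nat_lit 0x200181c1601))) 
(.lf (nat_lit 805806195) (dlOf (nat_lit 2) (nat_lit 0x6004c0045e04000c004000200081a0082)))) 
(.nd (nat_lit 26) (.lf (nat_lit 2550636659) (dlOf (nat_lit 1) (nat_lit 0x200181c1601))) 
(.lf (nat_lit 4228358259) (dlOf (nat_lit 1) (nat_lit 0x20018090081))))) (.nd (nat_lit 26) 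
(.nd (nat_lit 8) (.nd (nat_lit 10) 
(.lf (nat_lit 1342677235) (dlOf (nat_lit 1) (nat_lit 0x10800801b000200d200080c0483))) 
(.lf (nat_lit 5772911859) (dlOf (nat_lit 1) (nat_lit 0xc00400020008092e82)))) 
(.lf (nat_lit 4698121203) (dlOf (nat_lit 1) (nat_lit 0xc00400020008122882)))) (.nd (nat_lit 21) 
(.lf (nat_lit 470262003) (dlOf (nat_lit 1) (nat_lit 0x10800801b000200d200080c0483))) 
(.lf (nat_lit 1009230067) (dlOf (nat_lit 1) (nat_lit 0x18002001e00090a2482)))))))))) 
(.nd (nat_lit 5) (.nd (nat_lit 19) (.nd (nat_lit 29) (.nd (nat_lit 6) (.nd (nat_lit 7) 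
(.nd (nat_lit 28) (.nd (nat_lit 18) (.nd (nat_lit 9) 
(.lf (nat_lit 44277787) (dlOf (nat_lit 1) (nat_lit 0x900080034002001c00092e0083))) 
(.lf (nat_lit 2281939483) (dlOf (nat_lit 1) (nat_lit 0xa00280a1481)))) (.nd (nat_lit 20) 
(.lf (nat_lit 48734235) (dlOf (nat_lit 2) (nat_lit 0xaae7a0055582002a7bf800104180008008005400200080009420103))) 
(.lf (nat_lit 9936923) (dlOf (nat_lit 2) (nat_lit 0x193780010946000240400040028590401))))) 
(.nd (nat_lit 27) (.nd (nat_lit 20) 
(.lf (nat_lit 1342414875) (dlOf (nat_lit 2) (nat_lit 0xb6247000d5818020480))) 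
(.lf (nat_lit 1343463451) (dlOf (nat_lit 1) (nat_lit 0x18008004c00200080008250683)))) 
(.nd (nat_lit 26) 
(.lf (nat_lit 1476632603) (dlOf (nat_lit 1) (nat_lit 0x80080004002000200080b0483))) 
(.lf (nat_lit 3691225115) (dlOf (nat_lit 1) (nat_lit 0x80080004002000200080b0483)))))) 
(.nd (nat_lit 10) (.nd (nat_lit 8) 
(.lf (nat_lit 36940443) (dlOf (nat_lit 1) (nat_lit 0x20019075581))) (.nd (nat_lit 9) 
(.lf (nat_lit 470262171) (dlOf (nat_lit 1) (nat_lit 0xa00180c0781))) 
(.lf (nat_lit 20165531) (dlOf (nat_lit 1) (nat_lit 0x3c004001200189d9102))))) (.nd (nat_lit 12) 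
(.nd (nat_lit 20) (.lf (nat_lit 1344513179) (dlOf (nat_lit 1) (nat_lit 0xa0018802b81))) 
(.lf (nat_lit 55813275) (dlOf (nat_lit 1) (nat_lit 0x800800a8002002000096d2b83)))) 
(.lf (nat_lit 2281944219) (dlOf (nat_lit 1) (nat_lit 0x380080018002000200080a9503)))))) 
(.nd (nat_lit 28) (.nd (nat_lit 10) (.nd (nat_lit 8) (.nd (nat_lit 21) 
(.lf (nat_lit 21471323) (dlOf (nat_lit 2) (nat_lit 0x8946e000320200020018a40681))) 
(.lf (nat_lit 48734299) (dlOf (nat_lit 2) (nat_lit 0x655e0002eaa480001010027800800f800200620009420883)))) 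
(.lf (nat_lit 1286491) (dlOf (nat_lit 1) (nat_lit 0xe00280a4e81)))) (.nd (nat_lit 8) 
(.nd (nat_lit 20) (.lf (nat_lit 40346715) (dlOf (nat_lit 1) (nat_lit 0x200291f2901))) 
(.lf (nat_lit 39298139) (dlOf (nat_lit 1) (nat_lit 0x140029192901)))) 
(.lf (nat_lit 57124187) (dlOf (nat_lit 1) (nat_lit 0xa0009793381))))) (.nd (nat_lit 26) 
(.nd (nat_lit 18) 
(.lf (nat_lit 1342414939) (dlOf (nat_lit 3) (nat_lit 0x67891c002a204003c48e000000200020028020a01))) 
(.nd (nat_lit 27) (.lf (nat_lit 2416418907) (dlOf (nat_lit 1) (nat_lit 0x11a00081c1201))) 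
(.lf (nat_lit 2550636635) (dlOf (nat_lit 1) (nat_lit 0x11a00081c1201))))) (.nd (nat_lit 8) 
(.lf (nat_lit 469999707) (dlOf (nat_lit 1) (nat_lit 0x20018020a81))) (.nd (nat_lit 27) 
(.lf (nat_lit 1409524059) (dlOf (nat_lit 2) (nat_lit 0x278000000280200140008014e81))) 
(.lf (nat_lit 1543741787) (dlOf (nat_lit 2) (nat_lit 0xce0160038801806a0000000280600340028154e81)))))))) 
(.nd (nat_lit 18) (.nd (nat_lit 26) (.nd (nat_lit 30) (.nd (nat_lit 7) (.nd (nat_lit 9) 
(.lf (nat_lit 2953027611) (dlOf (nat_lit 4) (nat_lit 0x600d801400080028070009e604017c038003001b0046002000000180e2800808ac002037e00080b0483))) 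
(.lf (nat_lit 805544475) (dlOf (nat_lit 1) (nat_lit 0x800080044002002a0008127f03)))) 
(.lf (nat_lit 5100513947) (dlOf (nat_lit 1) (nat_lit 0x4004000200080d5582)))) (.nd (nat_lit 6) 
(.nd (nat_lit 7) (.lf (nat_lit 6308473883) (dlOf (nat_lit 1) (nat_lit 0x4004000200080d6002))) 
(.lf (nat_lit 6174253211) (dlOf (nat_lit 1) (nat_lit 0x4004000200080d0502)))) (.nd (nat_lit 8) 
(.lf (nat_lit 3892555867) (dlOf (nat_lit 1) (nat_lit 0x40018157d81))) 
(.lf (nat_lit 3758334299) (dlOf (nat_lit 1) (nat_lit 0x400400020008130902)))))) (.nd (nat_lit 6) 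
(.nd (nat_lit 7) (.nd (nat_lit 10) (.nd (nat_lit 22) 
(.lf (nat_lit 604217371) (dlOf (nat_lit 1) (nat_lit 0x2800180b0481))) 
(.lf (nat_lit 2755895323) (dlOf (nat_lit 2) (nat_lit 0x2c038002c01500ed40281b0000)))) 
(.lf (nat_lit 2751702043) (dlOf (nat_lit 1) (nat_lit 0x60028002881)))) (.nd (nat_lit 8) 
(.lf (nat_lit 4899187355) (dlOf (nat_lit 1) (nat_lit 0x200280d5581))) 
(.lf (nat_lit 1677959579) (dlOf (nat_lit 2) (nat_lit 0xb800a0024f818126880))))) (.nd (nat_lit 7) 
(.nd (nat_lit 8) 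
(.lf (nat_lit 2751707227) (dlOf (nat_lit 1) (nat_lit 0x9000800880020016000800a783))) 
(.lf (nat_lit 1677959515) (dlOf (nat_lit 11) (nat_lit 0xd40550058027002d80dc01a802403aa00a00fa0030001a4300388154017809c00c4037006f00900e8002803e800c000680c007e055003f027002100dc00f4024013e00a00280030001943000a815801a40aa00520530057027004b0130016806e00e602f004a015800900a4012404800d2012003600800ea002802a401001f2006000220f006d02a8011814c017c09c012204c006201b802080ac011804800e001201d3005007c0018000842800c80a8007804d0044024801e80d801100600050024003c00880090040000482000ac0a8006c04d003601b001b0044000461001f80600000e0200e60300000501007e018000004080aa800809400020d780008124e03)))) 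
(.nd (nat_lit 9) (.lf (nat_lit 1008970203) (dlOf (nat_lit 1) (nat_lit 0x14004000a0009004e82))) 
(.lf (nat_lit 738438107) (dlOf (nat_lit 1) (nat_lit 0xa0028095e01))))))) (.nd (nat_lit 27) 
(.nd (nat_lit 6) (.nd (nat_lit 7) 
(.lf (nat_lit 1611112475) (dlOf (nat_lit 3) (nat_lit 0x110814c078009e045603502180108065007c085803a043c0000001907002a01b80008c0801e00080004002000200080e0403))) 
(.nd (nat_lit 26) (.lf (nat_lit 805806235) (dlOf (nat_lit 1) (nat_lit 0x200081a0181))) 
(.lf (nat_lit 1678221467) (dlOf (nat_lit 1) (nat_lit 0x200081a0181))))) (.nd (nat_lit 7) 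
(.lf (nat_lit 604480603) (dlOf (nat_lit 1) (nat_lit 0x4004000600182d2902))) 
(.lf (nat_lit 1678221531) (dlOf (nat_lit 2) (nat_lit 0x200b40012a040024004003800081a0482))))) 
(.nd (nat_lit 28) (.nd (nat_lit 6) (.nd (nat_lit 26) 
(.lf (nat_lit 2819072027) (dlOf (nat_lit 3) (nat_lit 0x8a036000128102b101b00008c080018008000800200020008190583))) 
(.lf (nat_lit 738697243) (dlOf (nat_lit 1) (nat_lit 0x2c004000a00080e0502)))) 
(.lf (nat_lit 3892813915) (dlOf (nat_lit 2) (nat_lit 0x204700016818280400)))) (.nd (nat_lit 6) 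
(.nd (nat_lit 21) (.lf (nat_lit 4228358171) (dlOf (nat_lit 1) (nat_lit 0xe0018090001))) 
(.lf (nat_lit 1009229851) (dlOf (nat_lit 5) (nat_lit 0x641120003f0200040890001f0100220448000f40800c01e00000004001c004001c00090a0102)))) 
(.lf (nat_lit 1009229915) (dlOf (nat_lit 4) (nat_lit 0x1007180006c08000838c00ac1c4001007600002030032071801e81d800000080224004002600090a0882)))))))) 
(.nd (nat_lit 18) (.nd (nat_lit 21) (.nd (nat_lit 26) (.nd (nat_lit 6) (.nd (nat_lit 27) 
(.nd (nat_lit 23) (.nd (nat_lit 28) 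
(.lf (nat_lit 537632795) (dlOf (nat_lit 2) (nat_lit 0x930290008cc0800100080008002000a00080e0483))) 
(.lf (nat_lit 1342939163) (dlOf (nat_lit 5) (nat_lit 0x10ed002105f4003f808003039e001e20200d81a3000ae0100240d180056c0804780080210002000a0008110a83)))) 
(.lf (nat_lit 59482139) (dlOf (nat_lit 2) (nat_lit 0x519ec0002204003000400240009800102)))) 
(.nd (nat_lit 20) 
(.lf (nat_lit 2819334171) (dlOf (nat_lit 1) (nat_lit 0x40008001c00200120008240603))) 
(.lf (nat_lit 5773172763) (dlOf (nat_lit 1) (nat_lit 0x200280b0101))))) (.nd (nat_lit 8) 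
(.nd (nat_lit 10) 
(.lf (nat_lit 59482203) (dlOf (nat_lit 4) (nat_lit 0x4233e802599f000b8ccc009a66500532ca0027939800dc9a80000b0e007a67d002933300229650000120c00e8cfa007c66600482ca000000180258008005800200460009800883))) 
(.nd (nat_lit 22) (.lf (nat_lit 34317403) (dlOf (nat_lit 1) (nat_lit 0x40028fb2901))) 
(.lf (nat_lit 38511707) (dlOf (nat_lit 1) (nat_lit 0x800200040009132902))))) 
(.lf (nat_lit 3490430299) (dlOf (nat_lit 1) (nat_lit 0x2800800480020008000800c903))))) 
(.nd (nat_lit 12) (.nd (nat_lit 20) (.nd (nat_lit 27) 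
(.lf (nat_lit 1410048027) (dlOf (nat_lit 2) (nat_lit 0x930290008cc0800100080008002000a00080e0483))) 
(.lf (nat_lit 470523931) (dlOf (nat_lit 5) (nat_lit 0x10ed002106140042208003039e002040200d81b3000a90100240d98005440804780080210002000a0008110a83)))) 
(.lf (nat_lit 6377152539) (dlOf (nat_lit 1) (nat_lit 0x200280b0101)))) (.nd (nat_lit 6) 
(.nd (nat_lit 8) (.lf (nat_lit 67877019) (dlOf (nat_lit 1) (nat_lit 0xa002833a881))) 
(.lf (nat_lit 67876763) (dlOf (nat_lit 1) (nat_lit 0x6001833a301)))) 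
(.lf (nat_lit 202095963) (dlOf (nat_lit 1) (nat_lit 0x4004000200080fc902)))))) (.nd (nat_lit 6) 
(.nd (nat_lit 24) (.nd (nat_lit 20) (.nd (nat_lit 9) (.nd (nat_lit 26) 
(.lf (nat_lit 1345036315) (dlOf (nat_lit 2) (nat_lit 0x10194000be02000200189d0601))) 
(.lf (nat_lit 1009491995) (dlOf (nat_lit 2) (nat_lit 0x540eb000250191a0100)))) 
(.lf (nat_lit 69968411) (dlOf (nat_lit 6) (nat_lit 0x483a0008417a001f10400060bd000f781001b05e8006c40801102f4002e804001417a001720200380028e28701)))) 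
(.nd (nat_lit 23) (.lf (nat_lit 3907611) (dlOf (nat_lit 1) (nat_lit 0xc00400020008250a82))) 
(.lf (nat_lit 45850651) (dlOf (nat_lit 5) (nat_lit 0x96bbc0004a0200855df00020810008aee8000fc08002d7740007a0400b000400260019360102))))) 
(.nd (nat_lit 7) (.lf (nat_lit 23831067) (dlOf (nat_lit 1) (nat_lit 0x20028b80d81))) 
(.nd (nat_lit 8) (.lf (nat_lit 61580443) (dlOf (nat_lit 1) (nat_lit 0x240019922b81))) 
(.lf (nat_lit 19640731) (dlOf (nat_lit 1) (nat_lit 0x80080004002000200089d8383)))))) 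
(.nd (nat_lit 7) (.nd (nat_lit 10) 
(.lf (nat_lit 4096499803) (dlOf (nat_lit 1) (nat_lit 0x400200020008120682))) 
(.lf (nat_lit 8109147) (dlOf (nat_lit 1) (nat_lit 0x20004000c000851c002)))) (.nd (nat_lit 8) 
(.lf (nat_lit 20689627) (dlOf (nat_lit 1) (nat_lit 0x160002007200089d8c82))) 
(.lf (nat_lit 69968347) (dlOf (nat_lit 1) (nat_lit 0x20018e27c01))))))) (.nd (nat_lit 20) 
(.nd (nat_lit 6) (.nd (nat_lit 7) (.nd (nat_lit 8) (.nd (nat_lit 21) 
(.lf (nat_lit 13606939) (dlOf (nat_lit 3) (nat_lit 0xa38c401b69020021bd3006be818730880))) 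
(.lf (nat_lit 15704091) (dlOf (nat_lit 1) (nat_lit 0x20028820481)))) 
(.lf (nat_lit 24092955) (dlOf (nat_lit 1) (nat_lit 0x11a0008b80481)))) (.nd (nat_lit 8) 
(.nd (nat_lit 22) (.lf (nat_lit 19901083) (dlOf (nat_lit 1) (nat_lit 0xc00189d5581))) 
(.lf (nat_lit 49261211) (dlOf (nat_lit 1) (nat_lit 0x20009465581)))) 
(.lf (nat_lit 42967451) (dlOf (nat_lit 1) (nat_lit 0x200292a1001))))) (.nd (nat_lit 7) 
(.nd (nat_lit 11) (.nd (nat_lit 26) 
(.lf (nat_lit 3490685275) (dlOf (nat_lit 4) (nat_lit 0x41433000f00c2001005e80e882d4046c16800b00af01f1053809602900420146001a0a102880500007826c016412c015a004016e0010000a07800602d4028c14e00da0040001303000600580008c08058800802e0002020e0008014e83))) 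
(.lf (nat_lit 2752487771) (dlOf (nat_lit 1) (nat_lit 0x20028014e01)))) 
(.lf (nat_lit 3492788571) (dlOf (nat_lit 1) (nat_lit 0x4004000200080fab82)))) (.nd (nat_lit 9) 
(.lf (nat_lit 40870363) (dlOf (nat_lit 1) (nat_lit 0x280008000400200fa0009207c03))) 
(.lf (nat_lit 3492788187) (dlOf (nat_lit 1) (nat_lit 0x800180fa601)))))) (.nd (nat_lit 6) 
(.nd (nat_lit 7) (.nd (nat_lit 23) (.nd (nat_lit 24) 
(.lf (nat_lit 473931803) (dlOf (nat_lit 5) (nat_lit 0x300ab002b03340006208016c2ac010e0cd000903a801501cc000601003c82ac01f814300fc09d808184e404f019a00680960029042807001d400d40e60002f12000213b0005066800044100cd0008008c00200880008fc0103))) 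
(.lf (nat_lit 20946971) (dlOf (nat_lit 2) (nat_lit 0xb80000004102002400189f0101)))) 
(.nd (nat_lit 21) (.lf (nat_lit 10461211) (dlOf (nat_lit 2) (nat_lit 0x145110001d8185e0b00))) 
(.lf (nat_lit 12558363) (dlOf (nat_lit 1) (nat_lit 0x10004000200086d0902))))) (.nd (nat_lit 9) 
(.lf (nat_lit 2072731) (dlOf (nat_lit 1) (nat_lit 0x20028150181))) 
(.lf (nat_lit 54504091) (dlOf (nat_lit 1) (nat_lit 0x20029655581))))) (.nd (nat_lit 9) 
(.nd (nat_lit 10) (.nd (nat_lit 23) 
(.lf (nat_lit 473931867) (dlOf (nat_lit 4) (nat_lit 0x1402be008414c005106b80008358000161001182be008e0d70000482003f0af801f835c0000008032c00400440008fc0882))) 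
(.lf (nat_lit 12558427) (dlOf (nat_lit 1) (nat_lit 0x10008001c002000600086d1203)))) 
(.lf (nat_lit 37725275) (dlOf (nat_lit 1) (nat_lit 0xc002000600090d2902)))) (.nd (nat_lit 7) 
(.lf (nat_lit 41921115) (dlOf (nat_lit 1) (nat_lit 0x3800200c60009245302))) 
(.lf (nat_lit 8368859) (dlOf (nat_lit 1) (nat_lit 0x400200020008518c82))))))))) (.nd (nat_lit 18) 
(.nd (nat_lit 26) (.nd (nat_lit 19) (.nd (nat_lit 20) (.nd (nat_lit 28) (.nd (nat_lit 22) 
(.nd (nat_lit 27) (.lf (nat_lit 4295204923) (dlOf (nat_lit 1) (nat_lit 0x400180b0b81))) 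
(.lf (nat_lit 4429422651) (dlOf (nat_lit 1) (nat_lit 0x400180b0b81)))) (.nd (nat_lit 9) 
(.nd (nat_lit 25) (.lf (nat_lit 12820539) (dlOf (nat_lit 2) (nat_lit 0x28521000170186e0b80))) 
(.lf (nat_lit 46374971) (dlOf (nat_lit 1) (nat_lit 0x400029380001)))) 
(.lf (nat_lit 23306811) (dlOf (nat_lit 1) (nat_lit 0x80008b81001))))) (.nd (nat_lit 7) 
(.nd (nat_lit 6) (.nd (nat_lit 8) 
(.lf (nat_lit 4026769979) (dlOf (nat_lit 10) (nat_lit 0x2c20100145802c0004e080ba404005ec00b0000e8202fa0100182802c0003808096004004cc00b0000d02028b0100145802c000220802ec0400001002017e02000c4005800034100a1008008ec0160000c04025a020014d0058000001003900080004002006c0008091003))) 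
(.lf (nat_lit 805544251) (dlOf (nat_lit 8) (nat_lit 0x4d02b0012fc0800281580097a0400bc014004aa02005c00a0020581000c02a801014080170028008080400240aa003d70200080008124c01)))) 
(.lf (nat_lit 3494092923) (dlOf (nat_lit 3) (nat_lit 0x1a1c20012601000a0838007e40800280080004002000a00081b0083)))) 
(.nd (nat_lit 6) (.nd (nat_lit 8) 
(.lf (nat_lit 5771602619) (dlOf (nat_lit 1) (nat_lit 0x400400020008005782))) 
(.lf (nat_lit 4026769851) (dlOf (nat_lit 1) (nat_lit 0x58002004c0008090882)))) 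
(.lf (nat_lit 4026769915) (dlOf (nat_lit 3) (nat_lit 0xa040000a78100a40100065002c001ee08001800200200008090d82)))))) 
(.nd (nat_lit 6) (.nd (nat_lit 23) (.nd (nat_lit 9) 
(.lf (nat_lit 18063419) (dlOf (nat_lit 2) (nat_lit 0x126280001d02000a0018900c81))) 
(.lf (nat_lit 36940347) (dlOf (nat_lit 1) (nat_lit 0x1000400080009075202)))) (.nd (nat_lit 7) 
(.lf (nat_lit 47423547) (dlOf (nat_lit 1) (nat_lit 0x800093f0781))) 
(.lf (nat_lit 9674939) (dlOf (nat_lit 2) (nat_lit 0x597900028818571700))))) (.nd (nat_lit 7) 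
(.lf (nat_lit 9674875) (dlOf (nat_lit 2) (nat_lit 0x48a300012018570b80))) 
(.lf (nat_lit 9675259) (dlOf (nat_lit 2) (nat_lit 0x6a8e000017018577e00)))))) (.nd (nat_lit 9) 
(.nd (nat_lit 6) (.nd (nat_lit 7) 
(.lf (nat_lit 59482171) (dlOf (nat_lit 1) (nat_lit 0x68008004800200260009800583))) (.nd (nat_lit 8) 
(.lf (nat_lit 58434747) (dlOf (nat_lit 1) (nat_lit 0x4004002c00097e2c82))) 
(.lf (nat_lit 51093947) (dlOf (nat_lit 1) (nat_lit 0x400094f6f81))))) (.nd (nat_lit 8) 
(.lf (nat_lit 12296315) (dlOf (nat_lit 1) (nat_lit 0x200286c0081))) 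
(.lf (nat_lit 8106363) (dlOf (nat_lit 1) (nat_lit 0x40028518381))))) (.nd (nat_lit 6) 
(.nd (nat_lit 7) (.nd (nat_lit 11) 
(.lf (nat_lit 19636795) (dlOf (nat_lit 1) (nat_lit 0xc00289d1501))) 
(.lf (nat_lit 32221755) (dlOf (nat_lit 1) (nat_lit 0x8008000c00200020008ef5203)))) 
(.lf (nat_lit 19639995) (dlOf (nat_lit 1) (nat_lit 0x80080004002000200089d7283)))) (.nd (nat_lit 8) 
(.lf (nat_lit 53192315) (dlOf (nat_lit 2) (nat_lit 0x2a3a0000158080010008000400200660009573983))) 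
(.lf (nat_lit 3490429819) (dlOf (nat_lit 1) (nat_lit 0x80020002000800bc82))))))) (.nd (nat_lit 6) 
(.nd (nat_lit 29) (.nd (nat_lit 7) (.nd (nat_lit 9) (.nd (nat_lit 27) 
(.lf (nat_lit 2483265595) (dlOf (nat_lit 2) (nat_lit 0xa801e00dfc0200980018090001))) 
(.lf (nat_lit 6644015163) (dlOf (nat_lit 1) (nat_lit 0x400180b0001)))) 
(.lf (nat_lit 3288572475) (dlOf (nat_lit 10) (nat_lit 0x2c20100145802c0004e080ba404005ec00b0000e8202fa0100182802c0003808096004004cc00b0000d02028b0100145802c000220802ec0400001002017e02000c4005800034100a1008008ec0160000c04025a020014d0058000001003900080004002006c0008091003)))) 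
(.nd (nat_lit 8) (.lf (nat_lit 67875515) (dlOf (nat_lit 1) (nat_lit 0x20018338c81))) 
(.nd (nat_lit 10) (.lf (nat_lit 3288572347) (dlOf (nat_lit 1) (nat_lit 0x58002004c0008090882))) 
(.lf (nat_lit 5704492475) (dlOf (nat_lit 1) (nat_lit 0x4004000200080d3602)))))) (.nd (nat_lit 8) 
(.nd (nat_lit 7) (.nd (nat_lit 20) 
(.lf (nat_lit 1008967739) (dlOf (nat_lit 2) (nat_lit 0x1817c00e88040014004000a0009000002))) 
(.lf (nat_lit 1007919163) (dlOf (nat_lit 1) (nat_lit 0x640028860001)))) 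
(.lf (nat_lit 4899187387) (dlOf (nat_lit 1) (nat_lit 0x200180d5781)))) (.nd (nat_lit 20) 
(.lf (nat_lit 1677959483) (dlOf (nat_lit 8) (nat_lit 0x4d02b002950080028158014a40400bc01400a3f02005c00a004d301000c02a8026800801700280133c0400240aa009710200080008124c01))) 
(.lf (nat_lit 2752749883) (dlOf (nat_lit 2) (nat_lit 0x5802f0001c818048500)))))) (.nd (nat_lit 7) 
(.nd (nat_lit 8) (.nd (nat_lit 11) 
(.lf (nat_lit 2753798267) (dlOf (nat_lit 1) (nat_lit 0x10008000c00200140008090083))) 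
(.lf (nat_lit 67876987) (dlOf (nat_lit 1) (nat_lit 0xc002833a881)))) (.nd (nat_lit 9) 
(.nd (nat_lit 10) (.lf (nat_lit 1141088635) (dlOf (nat_lit 1) (nat_lit 0x60004019600180c5a02))) 
(.lf (nat_lit 3557012859) (dlOf (nat_lit 4) (nat_lit 0x60650051c8100080340028c80800201a00146004000800200020008129902)))) 
(.lf (nat_lit 3959662459) (dlOf (nat_lit 1) (nat_lit 0x400200020008114102))))) (.nd (nat_lit 9) 
(.nd (nat_lit 27) (.nd (nat_lit 28) 
(.lf (nat_lit 1677959675) (dlOf (nat_lit 3) (nat_lit 0x33801c000660202ca00e0001f818127e00))) 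
(.lf (nat_lit 1409524219) (dlOf (nat_lit 5) (nat_lit 0x4a817c0146804027c0be00a3302012e05f0051501009c02f8028a0080230008036000200b00008017803)))) 
(.lf (nat_lit 1543741947) (dlOf (nat_lit 2) (nat_lit 0x3380b0014b60400d000400020018157802)))) 
(.nd (nat_lit 11) (.nd (nat_lit 20) 
(.lf (nat_lit 6375580667) (dlOf (nat_lit 1) (nat_lit 0x400200060008002882))) 
(.lf (nat_lit 1007920123) (dlOf (nat_lit 1) (nat_lit 0x400400020008862882)))) 
(.lf (nat_lit 4094929915) (dlOf (nat_lit 1) (nat_lit 0x400200020008055f02)))))))) (.nd (nat_lit 19) 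
(.nd (nat_lit 6) (.nd (nat_lit 26) (.nd (nat_lit 22) (.nd (nat_lit 21) (.nd (nat_lit 28) 
(.lf (nat_lit 3221725243) (dlOf (nat_lit 2) (nat_lit 0x408000d4f0200020008170001))) 
(.lf (nat_lit 5637644347) (dlOf (nat_lit 1) (nat_lit 0x13d80080400002017a0008140783)))) 
(.lf (nat_lit 2596923) (dlOf (nat_lit 2) (nat_lit 0xe5f200000004002000200420008170b82)))) 
(.nd (nat_lit 9) (.nd (nat_lit 21) 
(.lf (nat_lit 46637115) (dlOf (nat_lit 2) (nat_lit 0xe2a5001d10080018008002000200060009380003))) 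
(.lf (nat_lit 48734267) (dlOf (nat_lit 1) (nat_lit 0x200080010002000e0009420583)))) 
(.lf (nat_lit 38251067) (dlOf (nat_lit 1) (nat_lit 0x400400020009135202))))) (.nd (nat_lit 29) 
(.nd (nat_lit 9) (.lf (nat_lit 4362575931) (dlOf (nat_lit 1) (nat_lit 0x80028090001))) 
(.lf (nat_lit 68659771) (dlOf (nat_lit 1) (nat_lit 0x1c004000e0008665202)))) (.nd (nat_lit 8) 
(.lf (nat_lit 6241624123) (dlOf (nat_lit 1) (nat_lit 0x13d80080400002017a0008140783))) 
(.lf (nat_lit 2886181179) (dlOf (nat_lit 2) (nat_lit 0x190020000390200040028188501)))))) 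
(.nd (nat_lit 8) (.nd (nat_lit 26) (.nd (nat_lit 9) (.nd (nat_lit 27) 
(.lf (nat_lit 805806203) (dlOf (nat_lit 3) (nat_lit 0xe202b003f004c003f80802280ac0032013000fd0281a0080))) 
(.lf (nat_lit 134717563) (dlOf (nat_lit 1) (nat_lit 0x40018090081)))) 
(.lf (nat_lit 52930171) (dlOf (nat_lit 2) (nat_lit 0x2134c000ac04000400400020009573982)))) 
(.nd (nat_lit 27) 
(.lf (nat_lit 1678221435) (dlOf (nat_lit 3) (nat_lit 0xe202b003f004c004220802280ac0032013001078281a0080))) 
(.lf (nat_lit 201826427) (dlOf (nat_lit 1) (nat_lit 0x40018090081))))) (.nd (nat_lit 7) 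
(.nd (nat_lit 21) (.lf (nat_lit 470262139) (dlOf (nat_lit 1) (nat_lit 0x6800080c0781))) 
(.lf (nat_lit 1881645435) (dlOf (nat_lit 2) (nat_lit 0x2680000000004009c00200140008f95a02)))) 
(.nd (nat_lit 11) (.lf (nat_lit 59220987) (dlOf (nat_lit 1) (nat_lit 0x4004000200097e2882))) 
(.lf (nat_lit 5771865083) (dlOf (nat_lit 1) (nat_lit 0x180018005f01))))))) (.nd (nat_lit 7) 
(.nd (nat_lit 10) (.nd (nat_lit 11) (.nd (nat_lit 20) 
(.lf (nat_lit 13606971) (dlOf (nat_lit 12) (nat_lit 0x2b6f58003c40402cf8c60137bd6000d6020083e318011ef58003560800638c60129bd6000ce820001deb0006340807ef18c03137ac000a1040287c6300e4deb0001f81008df18c036f7ac0002a040153c630094deb00006010020718c0002e0400ab8c60007bd60000a828730b80))) 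
(.lf (nat_lit 473931835) (dlOf (nat_lit 1) (nat_lit 0x9c00401f00008fc0582)))) (.nd (nat_lit 8) 
(.lf (nat_lit 3492788283) (dlOf (nat_lit 1) (nat_lit 0x1400180fa601))) 
(.lf (nat_lit 19901243) (dlOf (nat_lit 1) (nat_lit 0x4002000200089d5c02))))) (.nd (nat_lit 6) 
(.nd (nat_lit 20) (.lf (nat_lit 51356731) (dlOf (nat_lit 1) (nat_lit 0x400200020009512882))) 
(.lf (nat_lit 41919547) (dlOf (nat_lit 2) (nat_lit 0x5a9e800cfc04001400400260019242882)))) 
(.lf (nat_lit 42968443) (dlOf (nat_lit 1) (nat_lit 0x200192a3581))))) (.nd (nat_lit 6) 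
(.nd (nat_lit 10) (.nd (nat_lit 9) 
(.lf (nat_lit 2072763) (dlOf (nat_lit 1) (nat_lit 0x10008000c00200060008150383))) 
(.lf (nat_lit 6376368827) (dlOf (nat_lit 1) (nat_lit 0x400200020008095782)))) (.nd (nat_lit 8) 
(.lf (nat_lit 37725371) (dlOf (nat_lit 1) (nat_lit 0x80080004002000200090d2c83))) 
(.lf (nat_lit 42968507) (dlOf (nat_lit 1) (nat_lit 0x200192a3601))))) (.nd (nat_lit 8) 
(.nd (nat_lit 21) 
(.lf (nat_lit 6376366331) (dlOf (nat_lit 2) (nat_lit 0x204c400142420016004000e0018090a81))) 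
(.lf (nat_lit 19898619) (dlOf (nat_lit 1) (nat_lit 0x4002000200089d0a82)))) (.nd (nat_lit 26) 
(.lf (nat_lit 3490685435) (dlOf (nat_lit 14) (nat_lit 0x1202f400f416a003a0b4002b057802082b400a8142017a0a0001704d800e02640078126004e090005100100296c6000282d4014b40400e816a00a5902006a0a8000f0028029441003e02a0015800a00a4f04006e0b50018054002a80140148c0c00b416a00960a80019050802700140148a1000f816a00640a80007050802d80140147810007815000800050051d02006c06000148028009401200520010051a04002600500140024014660801b4180001a0ab002b0050014802400a400200a2a0a00d20c0002f00500150024014500c0060004004a0018017802))) 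
(.lf (nat_lit 2752487931) (dlOf (nat_lit 2) (nat_lit 0x2240b20000a818017e00))))))))))))

end

end Pool.Agent.Lib.MP_5854e1_co.Cz

namespace Pool.Agent.Lib.MP_5854e1_co.Cz

noncomputable section

noncomputable def tz232 : DT := (.nd (nat_lit 13) (.nd (nat_lit 15) (.nd (nat_lit 17) 
(.nd (nat_lit 18) (.nd (nat_lit 6) (.nd (nat_lit 26) (.nd (nat_lit 30) (.nd (nat_lit 19) 
(.nd (nat_lit 11) (.nd (nat_lit 20) (.nd (nat_lit 21) 
(.lf (nat_lit 4966055959) (dlOf (nat_lit 1) (nat_lit 0x20028000001))) 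
(.lf (nat_lit 10485783) (dlOf (nat_lit 1) (nat_lit 0x19c002005a00085e0a82)))) (.nd (nat_lit 8) 
(.lf (nat_lit 13631511) (dlOf (nat_lit 1) (nat_lit 0x400200020008730882))) 
(.lf (nat_lit 1048855) (dlOf (nat_lit 1) (nat_lit 0x400200020008067f02))))) (.nd (nat_lit 28) 
(.nd (nat_lit 27) (.lf (nat_lit 536877079) (dlOf (nat_lit 1) (nat_lit 0x40040002000800a602))) 
(.lf (nat_lit 4429191191) (dlOf (nat_lit 1) (nat_lit 0x40040002000800a602)))) (.nd (nat_lit 9) 
(.lf (nat_lit 2415925271) (dlOf (nat_lit 1) (nat_lit 0x80040002000800a602))) 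
(.lf (nat_lit 2952797719) (dlOf (nat_lit 1) (nat_lit 0x8001800ce81)))))) (.nd (nat_lit 21) 
(.nd (nat_lit 10) (.nd (nat_lit 20) 
(.lf (nat_lit 134742039) (dlOf (nat_lit 2) (nat_lit 0xc8082006003d00c8d0280a0900))) 
(.lf (nat_lit 9961495) (dlOf (nat_lit 2) (nat_lit 0xd52b0023a40800180080060002000800085a0a03)))) 
(.lf (nat_lit 56099863) (dlOf (nat_lit 1) (nat_lit 0x20019732881)))) (.nd (nat_lit 23) 
(.nd (nat_lit 7) (.lf (nat_lit 37224471) (dlOf (nat_lit 1) (nat_lit 0xfa00090c0601))) 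
(.lf (nat_lit 23593111) (dlOf (nat_lit 1) (nat_lit 0x800200020008b80182)))) (.nd (nat_lit 8) 
(.lf (nat_lit 45613079) (dlOf (nat_lit 2) (nat_lit 0x48cf80020f0200180009340081))) 
(.lf (nat_lit 12058903) (dlOf (nat_lit 2) (nat_lit 0x12ac0002480800200080008002000200086c0483))))))) 
(.nd (nat_lit 8) (.nd (nat_lit 11) (.nd (nat_lit 9) (.nd (nat_lit 28) 
(.lf (nat_lit 1611137047) (dlOf (nat_lit 9) (nat_lit 0x3019001d100800300c800e860400140a00073802000205300450278007010400080800068038002601800030084005803e004600d003998900390278006010400dc080003a0380023018000c807c0054034007320e00480410003020000580e0003803e0073108002002a0037e8100120190000000802400080228002000a00080f0a03))) 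
(.lf (nat_lit 4027056151) (dlOf (nat_lit 1) (nat_lit 0x28002001000081c0902)))) 
(.lf (nat_lit 1345847831) (dlOf (nat_lit 1) (nat_lit 0xc0008e07e01)))) (.nd (nat_lit 28) 
(.lf (nat_lit 1073747991) (dlOf (nat_lit 1) (nat_lit 0x1000800180020002000800a603))) 
(.lf (nat_lit 4026538007) (dlOf (nat_lit 1) (nat_lit 0x800800b40020014000800a603))))) 
(.nd (nat_lit 9) (.nd (nat_lit 10) 
(.lf (nat_lit 3490709783) (dlOf (nat_lit 1) (nat_lit 0x1000200060008014002))) (.nd (nat_lit 29) 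
(.lf (nat_lit 3355448599) (dlOf (nat_lit 1) (nat_lit 0x400400020008009702))) 
(.lf (nat_lit 6039803159) (dlOf (nat_lit 1) (nat_lit 0x400400020008009702))))) (.nd (nat_lit 7) 
(.lf (nat_lit 3623880471) (dlOf (nat_lit 1) (nat_lit 0x8008000400200020008003c83))) 
(.nd (nat_lit 11) (.lf (nat_lit 1476401047) (dlOf (nat_lit 1) (nat_lit 0x2000800a301))) 
(.lf (nat_lit 1476398999) (dlOf (nat_lit 1) (nat_lit 0xc0008007781)))))))) (.nd (nat_lit 27) 
(.nd (nat_lit 31) (.nd (nat_lit 10) (.nd (nat_lit 11) (.nd (nat_lit 19) 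
(.lf (nat_lit 68157463) (dlOf (nat_lit 3) (nat_lit 0x884a4003ce0400180000018902000c0008400081))) 
(.lf (nat_lit 4362600471) (dlOf (nat_lit 1) (nat_lit 0x1a80080060002003e00080a0903)))) 
(.lf (nat_lit 4362082327) (dlOf (nat_lit 1) (nat_lit 0x40040002000800a602)))) (.nd (nat_lit 7) 
(.lf (nat_lit 603984919) (dlOf (nat_lit 1) (nat_lit 0x20028009201))) 
(.lf (nat_lit 1409293719) (dlOf (nat_lit 1) (nat_lit 0x40040002000800ca02))))) (.nd (nat_lit 19) 
(.nd (nat_lit 8) (.lf (nat_lit 2751464471) (dlOf (nat_lit 1) (nat_lit 0x40028002881))) 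
(.lf (nat_lit 2752512279) (dlOf (nat_lit 1) (nat_lit 0x1000200060008014002)))) (.nd (nat_lit 28) 
(.lf (nat_lit 3288858647) (dlOf (nat_lit 1) (nat_lit 0x28002001000081c0902))) 
(.lf (nat_lit 3557294103) (dlOf (nat_lit 1) (nat_lit 0x1600281b0401)))))) (.nd (nat_lit 11) 
(.nd (nat_lit 28) (.nd (nat_lit 29) 
(.lf (nat_lit 201850903) (dlOf (nat_lit 2) (nat_lit 0xc8082006003d00e338280a0900))) 
(.lf (nat_lit 738721815) (dlOf (nat_lit 9) (nat_lit 0x30190033b40800300c8019d80400140a000ce102000205300450278007010400080800068038002601800030084005803e004600d006648900390278006010400dc080003a0380023018000c807c005403400cc80e00480410003020000580e0003803e00cc708002002a006538100120190000000802400080228002000a00080f0a03)))) 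
(.nd (nat_lit 19) (.lf (nat_lit 473956375) (dlOf (nat_lit 1) (nat_lit 0x20018fd0601))) 
(.nd (nat_lit 20) 
(.lf (nat_lit 4228382743) (dlOf (nat_lit 1) (nat_lit 0x1a80080060002003e00080a0903))) 
(.lf (nat_lit 471334935) (dlOf (nat_lit 1) (nat_lit 0xa00282e0001)))))) (.nd (nat_lit 7) 
(.nd (nat_lit 28) (.nd (nat_lit 31) 
(.lf (nat_lit 201332759) (dlOf (nat_lit 1) (nat_lit 0x800800b00020028000800a603))) 
(.lf (nat_lit 2348816407) (dlOf (nat_lit 1) (nat_lit 0x40040002000800a602)))) 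
(.lf (nat_lit 1006639127) (dlOf (nat_lit 1) (nat_lit 0x40040002000800a602)))) (.nd (nat_lit 8) 
(.lf (nat_lit 3690994327) (dlOf (nat_lit 1) (nat_lit 0x52000800b681))) 
(.lf (nat_lit 3690991511) (dlOf (nat_lit 4) (nat_lit 0x601d0052781000b00e8028f00800080740147404000400400060008007782)))))))) 
(.nd (nat_lit 9) (.nd (nat_lit 26) (.nd (nat_lit 8) (.nd (nat_lit 11) (.nd (nat_lit 19) 
(.lf (nat_lit 14680151) (dlOf (nat_lit 1) (nat_lit 0x1990008019c00201800008770803))) 
(.lf (nat_lit 134742103) (dlOf (nat_lit 1) (nat_lit 0x280080038002001000080a1103)))) 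
(.nd (nat_lit 7) (.lf (nat_lit 536877143) (dlOf (nat_lit 1) (nat_lit 0x6001800a781))) 
(.lf (nat_lit 1073744087) (dlOf (nat_lit 1) (nat_lit 0xa0018004a01))))) (.nd (nat_lit 20) 
(.nd (nat_lit 11) (.lf (nat_lit 16777559) (dlOf (nat_lit 1) (nat_lit 0x9400188e0881))) 
(.lf (nat_lit 4026534231) (dlOf (nat_lit 1) (nat_lit 0x40002000a0008004e02)))) (.nd (nat_lit 12) 
(.lf (nat_lit 1048919) (dlOf (nat_lit 1) (nat_lit 0x8008000400200020008068b03))) 
(.lf (nat_lit 19927383) (dlOf (nat_lit 1) (nat_lit 0x8002000200089d8382)))))) (.nd (nat_lit 19) 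
(.nd (nat_lit 7) (.nd (nat_lit 8) 
(.lf (nat_lit 68157527) (dlOf (nat_lit 1) (nat_lit 0xd8008006c00200700008400803))) 
(.lf (nat_lit 67113303) (dlOf (nat_lit 1) (nat_lit 0x400400020008008382)))) (.nd (nat_lit 8) 
(.lf (nat_lit 5435819223) (dlOf (nat_lit 1) (nat_lit 0x20028002d81))) 
(.lf (nat_lit 1946160599) (dlOf (nat_lit 1) (nat_lit 0x40008000800200080008006d83))))) 
(.nd (nat_lit 28) (.nd (nat_lit 27) 
(.lf (nat_lit 4362600535) (dlOf (nat_lit 1) (nat_lit 0x9000180a1101))) 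
(.lf (nat_lit 201850967) (dlOf (nat_lit 1) (nat_lit 0x280080038002001000080a1103)))) 
(.nd (nat_lit 7) (.lf (nat_lit 4228382807) (dlOf (nat_lit 1) (nat_lit 0x9000180a1101))) 
(.lf (nat_lit 472386007) (dlOf (nat_lit 2) (nat_lit 0x503a802fe8080008008000400200020008984e83))))))) 
(.nd (nat_lit 7) (.nd (nat_lit 28) (.nd (nat_lit 8) (.nd (nat_lit 10) 
(.lf (nat_lit 34605655) (dlOf (nat_lit 1) (nat_lit 0x80018fb5301))) 
(.lf (nat_lit 4294970967) (dlOf (nat_lit 1) (nat_lit 0x400400020008007182)))) 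
(.lf (nat_lit 6039802711) (dlOf (nat_lit 1) (nat_lit 0x20028008f81)))) (.nd (nat_lit 8) 
(.nd (nat_lit 10) (.lf (nat_lit 1476401751) (dlOf (nat_lit 1) (nat_lit 0x2000800b681))) 
(.lf (nat_lit 1879051863) (dlOf (nat_lit 1) (nat_lit 0x20028007181)))) 
(.lf (nat_lit 1346374487) (dlOf (nat_lit 1) (nat_lit 0x40028f65c01))))) (.nd (nat_lit 8) 
(.nd (nat_lit 11) (.nd (nat_lit 10) 
(.lf (nat_lit 8393431) (dlOf (nat_lit 1) (nat_lit 0x400200020008518c82))) 
(.lf (nat_lit 2751465175) (dlOf (nat_lit 1) (nat_lit 0x400400040008003a82)))) (.nd (nat_lit 12) 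
(.lf (nat_lit 1880623831) (dlOf (nat_lit 1) (nat_lit 0x400400020008b05902))) 
(.lf (nat_lit 67115735) (dlOf (nat_lit 1) (nat_lit 0x6001800b981))))) (.nd (nat_lit 11) 
(.nd (nat_lit 19) (.lf (nat_lit 536871895) (dlOf (nat_lit 1) (nat_lit 0x4002000a0008002882))) 
(.lf (nat_lit 1344799703) (dlOf (nat_lit 2) (nat_lit 0xa07300336018982880)))) (.nd (nat_lit 22) 
(.lf (nat_lit 5368712151) (dlOf (nat_lit 1) (nat_lit 0x80008005e01))) 
(.lf (nat_lit 1346374615) (dlOf (nat_lit 1) (nat_lit 0x20018f65e01))))))))) (.nd (nat_lit 28) 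
(.nd (nat_lit 6) (.nd (nat_lit 23) (.nd (nat_lit 26) (.nd (nat_lit 32) (.nd (nat_lit 7) 
(.nd (nat_lit 10) (.lf (nat_lit 786711) (dlOf (nat_lit 1) (nat_lit 0x4002001e0008014002))) 
(.lf (nat_lit 20714775) (dlOf (nat_lit 1) (nat_lit 0x80080010002000200089d9703)))) (.nd (nat_lit 8) 
(.lf (nat_lit 1074004119) (dlOf (nat_lit 1) (nat_lit 0xc0028090181))) 
(.lf (nat_lit 54266263) (dlOf (nat_lit 1) (nat_lit 0x20009654e81))))) (.nd (nat_lit 27) 
(.nd (nat_lit 31) 
(.lf (nat_lit 4295229463) (dlOf (nat_lit 2) (nat_lit 0xa0098003004a0003204000800080c0381))) 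
(.lf (nat_lit 6442713111) (dlOf (nat_lit 1) (nat_lit 0x400400020008180602)))) (.nd (nat_lit 31) 
(.lf (nat_lit 4429447191) (dlOf (nat_lit 2) (nat_lit 0xa009c003004a0001a04000800080c0381))) 
(.lf (nat_lit 6576930839) (dlOf (nat_lit 1) (nat_lit 0x400181c0481)))))) (.nd (nat_lit 30) 
(.nd (nat_lit 8) (.nd (nat_lit 32) 
(.lf (nat_lit 67371031) (dlOf (nat_lit 1) (nat_lit 0x80080564002016800080f0083))) 
(.lf (nat_lit 4362338327) (dlOf (nat_lit 1) (nat_lit 0x80080118002004a0008030a83)))) 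
(.lf (nat_lit 2752774423) (dlOf (nat_lit 1) (nat_lit 0x38008000400200020008047f03)))) 
(.nd (nat_lit 7) (.nd (nat_lit 29) 
(.lf (nat_lit 1141112855) (dlOf (nat_lit 1) (nat_lit 0x1400280f0a01))) 
(.lf (nat_lit 5972951063) (dlOf (nat_lit 1) (nat_lit 0x400181c0481)))) 
(.lf (nat_lit 3288596631) (dlOf (nat_lit 1) (nat_lit 0x150008008400200060008090183)))))) 
(.nd (nat_lit 21) (.nd (nat_lit 24) 
(.lf (nat_lit 12845079) (dlOf (nat_lit 3) (nat_lit 0xf52600021010003a9300000008000800800a8002000200086e0983))) 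
(.nd (nat_lit 25) 
(.lf (nat_lit 29622295) (dlOf (nat_lit 2) (nat_lit 0x453e0003a9a80006008000400400040008e20402))) 
(.lf (nat_lit 63176727) (dlOf (nat_lit 1) (nat_lit 0x80080008002000200099f0603))))) 
(.nd (nat_lit 20) (.nd (nat_lit 24) 
(.lf (nat_lit 10747927) (dlOf (nat_lit 1) (nat_lit 0xa0018620481))) 
(.lf (nat_lit 27525143) (dlOf (nat_lit 1) (nat_lit 0x280080160002000c0008cf0483)))) 
(.nd (nat_lit 7) (.lf (nat_lit 32768023) (dlOf (nat_lit 1) (nat_lit 0x400200020008f10082))) 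
(.lf (nat_lit 11796631) (dlOf (nat_lit 1) (nat_lit 0x3000086c0181))))))) (.nd (nat_lit 11) 
(.nd (nat_lit 7) (.nd (nat_lit 19) 
(.lf (nat_lit 22282583) (dlOf (nat_lit 1) (nat_lit 0x400200060008ab8502))) 
(.lf (nat_lit 786775) (dlOf (nat_lit 1) (nat_lit 0x400400060008014e02)))) (.nd (nat_lit 8) 
(.nd (nat_lit 19) (.lf (nat_lit 2818839255) (dlOf (nat_lit 1) (nat_lit 0xe0028128c81))) 
(.lf (nat_lit 8131287) (dlOf (nat_lit 1) (nat_lit 0x400200020008518c82)))) 
(.lf (nat_lit 3288596951) (dlOf (nat_lit 1) (nat_lit 0x20018090b01))))) (.nd (nat_lit 19) 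
(.nd (nat_lit 7) (.lf (nat_lit 69470807) (dlOf (nat_lit 1) (nat_lit 0x8008000c00200020008a25303))) 
(.lf (nat_lit 20191959) (dlOf (nat_lit 1) (nat_lit 0x700080004002001000089db983)))) 
(.nd (nat_lit 8) (.nd (nat_lit 20) 
(.lf (nat_lit 32246359) (dlOf (nat_lit 1) (nat_lit 0x400200060008ef5302))) 
(.lf (nat_lit 52169303) (dlOf (nat_lit 1) (nat_lit 0x180029515301)))) 
(.lf (nat_lit 4362866007) (dlOf (nat_lit 1) (nat_lit 0x400400020018116a82))))))) (.nd (nat_lit 27) 
(.nd (nat_lit 6) (.nd (nat_lit 7) (.nd (nat_lit 19) (.nd (nat_lit 22) 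
(.lf (nat_lit 2953052183) (dlOf (nat_lit 7) (nat_lit 0x30170002809c001c042000a01e000600c0001542800380b8000c054000e027000300f00038060000402600140000002a070008017000500a8000404e000c021000400f000280600014000000520e000402e00030150003009c0014042000c01800028850007017000280a8002c04e000e021000200f000380600009818001c05c001602a000501380048084001403c0008018000500000012c3800280080048002003800080e0403))) 
(.lf (nat_lit 3494117399) (dlOf (nat_lit 6) (nat_lit 0x7300f601a410203a807b00d1f8101f203d806770080ed81ec033b40406dc0f6000000200e200181b0001)))) 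
(.lf (nat_lit 3557556247) (dlOf (nat_lit 2) (nat_lit 0xf3037804800d000a0408006800400040008260482)))) 
(.nd (nat_lit 26) (.nd (nat_lit 29) 
(.lf (nat_lit 2416181399) (dlOf (nat_lit 1) (nat_lit 0x400400020008090182))) 
(.lf (nat_lit 4026794135) (dlOf (nat_lit 1) (nat_lit 0x150008008400200060008090183)))) 
(.lf (nat_lit 1946419351) (dlOf (nat_lit 1) (nat_lit 0xc0028090181))))) (.nd (nat_lit 9) 
(.nd (nat_lit 7) (.nd (nat_lit 10) 
(.lf (nat_lit 3557036375) (dlOf (nat_lit 2) (nat_lit 0x1c0000096002000e0008128381))) 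
(.lf (nat_lit 3489926487) (dlOf (nat_lit 1) (nat_lit 0x20028006a81)))) 
(.lf (nat_lit 4026794455) (dlOf (nat_lit 1) (nat_lit 0x20018090b01)))) (.nd (nat_lit 8) 
(.lf (nat_lit 1881410135) (dlOf (nat_lit 1) (nat_lit 0x20018f05301))) 
(.lf (nat_lit 3557037911) (dlOf (nat_lit 1) (nat_lit 0x14002812a281)))))) (.nd (nat_lit 26) 
(.nd (nat_lit 7) (.nd (nat_lit 9) (.nd (nat_lit 10) 
(.lf (nat_lit 2013528087) (dlOf (nat_lit 1) (nat_lit 0x1400280f0a01))) 
(.lf (nat_lit 5234754583) (dlOf (nat_lit 1) (nat_lit 0x2200280d2881)))) 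
(.lf (nat_lit 5234755095) (dlOf (nat_lit 3) (nat_lit 0x20180001b01001100c0000000800700080178002004c00080d3703)))) 
(.nd (nat_lit 6) (.lf (nat_lit 2550399127) (dlOf (nat_lit 1) (nat_lit 0x400400020008090182))) 
(.lf (nat_lit 5234754775) (dlOf (nat_lit 2) (nat_lit 0x1801a001100c0000001000b80080054002000a00080d2d83))))) 
(.nd (nat_lit 30) (.nd (nat_lit 6) (.nd (nat_lit 20) 
(.lf (nat_lit 472121367) (dlOf (nat_lit 1) (nat_lit 0x400400b00008840082))) 
(.lf (nat_lit 471072791) (dlOf (nat_lit 2) (nat_lit 0x404e800048080048008008400200160008260403)))) 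
(.lf (nat_lit 470548567) (dlOf (nat_lit 1) (nat_lit 0x2000200020008121a82)))) (.nd (nat_lit 7) 
(.nd (nat_lit 29) (.lf (nat_lit 5838733335) (dlOf (nat_lit 1) (nat_lit 0x400400020008180602))) 
(.lf (nat_lit 4228120599) (dlOf (nat_lit 1) (nat_lit 0x80080118002004a0008030a83)))) 
(.lf (nat_lit 6376131223) (dlOf (nat_lit 1) (nat_lit 0xf800800a0002001c0008095503))))))))) 
(.nd (nat_lit 18) (.nd (nat_lit 19) (.nd (nat_lit 6) (.nd (nat_lit 10) (.nd (nat_lit 20) 
(.nd (nat_lit 29) (.nd (nat_lit 8) (.nd (nat_lit 21) 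
(.lf (nat_lit 1140981783) (dlOf (nat_lit 1) (nat_lit 0x400200080008040002))) 
(.lf (nat_lit 10616855) (dlOf (nat_lit 2) (nat_lit 0x201cc00023018600180)))) 
(.lf (nat_lit 16908567) (dlOf (nat_lit 1) (nat_lit 0x200188e0701)))) (.nd (nat_lit 26) 
(.nd (nat_lit 28) (.lf (nat_lit 2684485655) (dlOf (nat_lit 1) (nat_lit 0x80028050501))) 
(.lf (nat_lit 1879179287) (dlOf (nat_lit 1) (nat_lit 0x8008000400200020008050a83)))) 
(.lf (nat_lit 1006764055) (dlOf (nat_lit 1) (nat_lit 0x8008000400200020008050a83))))) 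
(.nd (nat_lit 21) (.nd (nat_lit 23) 
(.lf (nat_lit 22151191) (dlOf (nat_lit 1) (nat_lit 0x40018aa0a81))) 
(.lf (nat_lit 47317015) (dlOf (nat_lit 4) (nat_lit 0x25e20000aea400064080061788002aba90001182001c5e2000c2ea400044080070002000600093d0382)))) 
(.lf (nat_lit 15859735) (dlOf (nat_lit 1) (nat_lit 0x1000400040018840482))))) (.nd (nat_lit 7) 
(.nd (nat_lit 9) (.nd (nat_lit 8) 
(.lf (nat_lit 738331671) (dlOf (nat_lit 3) (nat_lit 0x480b40002f02002a05a00016018096000))) 
(.lf (nat_lit 2617382167) (dlOf (nat_lit 1) (nat_lit 0x24004000600080a9702)))) (.nd (nat_lit 11) 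
(.lf (nat_lit 4697753111) (dlOf (nat_lit 1) (nat_lit 0x110008002000200100008093703))) 
(.lf (nat_lit 805441047) (dlOf (nat_lit 2) (nat_lit 0xc00e0000e818117100))))) (.nd (nat_lit 8) 
(.nd (nat_lit 9) 
(.lf (nat_lit 2617382039) (dlOf (nat_lit 1) (nat_lit 0xc80080020002004400080a9503))) 
(.lf (nat_lit 6576803479) (dlOf (nat_lit 1) (nat_lit 0x800400140018147202)))) 
(.lf (nat_lit 805440919) (dlOf (nat_lit 1) (nat_lit 0x1000200060008116d02)))))) (.nd (nat_lit 7) 
(.nd (nat_lit 8) (.nd (nat_lit 30) (.nd (nat_lit 10) 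
(.lf (nat_lit 52559959) (dlOf (nat_lit 2) (nat_lit 0x5b04000897f2000ab27000353d000098200040008002400200100009550803))) 
(.lf (nat_lit 8526935) (dlOf (nat_lit 2) (nat_lit 0xe1fbc000e80400240040022001851bf82)))) 
(.nd (nat_lit 27) (.lf (nat_lit 5368840279) (dlOf (nat_lit 1) (nat_lit 0x800400160008040602))) 
(.lf (nat_lit 5503058007) (dlOf (nat_lit 1) (nat_lit 0x800400160008040602))))) (.nd (nat_lit 10) 
(.nd (nat_lit 26) (.lf (nat_lit 537004375) (dlOf (nat_lit 1) (nat_lit 0x400200020008004e02))) 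
(.lf (nat_lit 5972822359) (dlOf (nat_lit 1) (nat_lit 0x400200040008144e02)))) (.nd (nat_lit 11) 
(.lf (nat_lit 39978327) (dlOf (nat_lit 1) (nat_lit 0x4002000200091f3382))) (.nd (nat_lit 28) 
(.lf (nat_lit 3221364055) (dlOf (nat_lit 1) (nat_lit 0x280020014000811c902))) 
(.lf (nat_lit 805444951) (dlOf (nat_lit 1) (nat_lit 0x1500080018002005a000811c903))))))) 
(.nd (nat_lit 12) (.nd (nat_lit 26) (.nd (nat_lit 8) 
(.lf (nat_lit 7471319) (dlOf (nat_lit 1) (nat_lit 0x3e00184b0501))) 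
(.lf (nat_lit 3892445655) (dlOf (nat_lit 3) (nat_lit 0x281a000140cc000400000080830007034000300fc001fa0800f400400040018117b02)))) 
(.nd (nat_lit 9) 
(.lf (nat_lit 3020030423) (dlOf (nat_lit 3) (nat_lit 0x1007000080300021608000801c001030200fa00280e7b01))) 
(.lf (nat_lit 738331607) (dlOf (nat_lit 1) (nat_lit 0xc00200040008095e02))))) (.nd (nat_lit 9) 
(.nd (nat_lit 28) 
(.lf (nat_lit 3221363927) (dlOf (nat_lit 4) (nat_lit 0x3008c000a40200060460005181000202300002c0801b000800080020054000811c383))) 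
(.lf (nat_lit 805444823) (dlOf (nat_lit 3) (nat_lit 0x180560005201000102b00028c0800600080038002002a000811c383)))) 
(.nd (nat_lit 23) (.lf (nat_lit 1342313175) (dlOf (nat_lit 1) (nat_lit 0x400400020018008c82))) 
(.lf (nat_lit 8524503) (dlOf (nat_lit 1) (nat_lit 0x400200020008518c82)))))))) (.nd (nat_lit 21) 
(.nd (nat_lit 26) (.nd (nat_lit 28) (.nd (nat_lit 20) (.nd (nat_lit 6) 
(.lf (nat_lit 13238295) (dlOf (nat_lit 1) (nat_lit 0xc00200020008710a02))) 
(.lf (nat_lit 42598487) (dlOf (nat_lit 1) (nat_lit 0x800400040019260802)))) (.nd (nat_lit 24) 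
(.lf (nat_lit 5898263) (dlOf (nat_lit 2) (nat_lit 0x34cf20063f0200040008400681))) 
(.lf (nat_lit 22675479) (dlOf (nat_lit 1) (nat_lit 0x10008000400200020008b10503))))) 
(.nd (nat_lit 6) (.nd (nat_lit 29) 
(.lf (nat_lit 1342832663) (dlOf (nat_lit 2) (nat_lit 0x4c0000000002004200080e0981))) 
(.lf (nat_lit 805961751) (dlOf (nat_lit 4) (nat_lit 0x1e0158033380400d80ac019990200fa01300000018200a80)))) 
(.nd (nat_lit 8) (.lf (nat_lit 5772017751) (dlOf (nat_lit 1) (nat_lit 0xc0028040601))) 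
(.lf (nat_lit 3490319703) (dlOf (nat_lit 1) (nat_lit 0x180008006a81)))))) (.nd (nat_lit 28) 
(.nd (nat_lit 6) (.nd (nat_lit 29) 
(.lf (nat_lit 4362731543) (dlOf (nat_lit 6) (nat_lit 0x4c0aa0095202003802d003a0810032016801d000800200c4007805a001602c00384830003029000000080218008000400200f400080e0a03))) 
(.lf (nat_lit 1678376983) (dlOf (nat_lit 4) (nat_lit 0x1e0158039fe0400d80ac01cfe0200fa01300000018200a80)))) 
(.lf (nat_lit 3960078423) (dlOf (nat_lit 5) (nat_lit 0x10050000240400180280001102000e02f000028100160178000100801500080110002002400081a1a83)))) 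
(.nd (nat_lit 30) (.nd (nat_lit 29) 
(.lf (nat_lit 470417431) (dlOf (nat_lit 2) (nat_lit 0x4c0000000002004200080e0981))) 
(.lf (nat_lit 3154771991) (dlOf (nat_lit 1) (nat_lit 0x80018320881)))) (.nd (nat_lit 6) 
(.lf (nat_lit 4228513815) (dlOf (nat_lit 6) (nat_lit 0x4c09c00df602003802c006750100320160033a40800200c00078058001602b0065b030003025800000080218008000400200f400080e0a03))) 
(.lf (nat_lit 6375997527) (dlOf (nat_lit 1) (nat_lit 0xc0028040601))))))) (.nd (nat_lit 22) 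
(.nd (nat_lit 26) (.nd (nat_lit 20) 
(.lf (nat_lit 2752535) (dlOf (nat_lit 1) (nat_lit 0x200281a0a01))) (.nd (nat_lit 23) 
(.lf (nat_lit 3493462039) (dlOf (nat_lit 7) (nat_lit 0x206600490110007f81001e819800340c2005805e004302e004f016402a00ae007804000350110024007400cc036001fa140012066000802e0000816400200ae0062022000fc850045033001a8178012c0b8018205900d502b80218100001005e0066022004600e8011806c003f028008c0cc0008061000302b805180b40278044000801b000300a0007dc38002015c00b4044001f50400860028140a81))) 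
(.lf (nat_lit 45744151) (dlOf (nat_lit 1) (nat_lit 0x8008000400200020009360083))))) 
(.nd (nat_lit 9) (.nd (nat_lit 20) 
(.lf (nat_lit 4096393239) (dlOf (nat_lit 1) (nat_lit 0x10008000400200040008100083))) 
(.lf (nat_lit 2755264535) (dlOf (nat_lit 7) (nat_lit 0x206600490110007b01001e819800340c2005805e004302e004f016402a00ae007804000350110024007400cc036001e8140012066000802e0000816400200ae0062022000f3850045033001a8178012c0b8018205900d502b80218100001005e0066022004600e8011806c003cc28008c0cc0008061000302b805180b40278044000801b000300a00079438002015c00b4044001e30400860028140a81)))) 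
(.lf (nat_lit 473563671) (dlOf (nat_lit 3) (nat_lit 0x12119000308c0007c4100060464002e804017c00400060018f68702))))) 
(.nd (nat_lit 7) (.nd (nat_lit 20) 
(.lf (nat_lit 6946839) (dlOf (nat_lit 2) (nat_lit 0x3581c00bd40200040008490681))) (.nd (nat_lit 23) 
(.lf (nat_lit 24772631) (dlOf (nat_lit 1) (nat_lit 0x120028bb0381))) 
(.lf (nat_lit 16384023) (dlOf (nat_lit 1) (nat_lit 0x4004000200088a0482))))) (.nd (nat_lit 6) 
(.lf (nat_lit 23724439) (dlOf (nat_lit 1) (nat_lit 0xe0028b80781))) 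
(.lf (nat_lit 8000215) (dlOf (nat_lit 1) (nat_lit 0x20018518c81)))))))) (.nd (nat_lit 21) 
(.nd (nat_lit 28) (.nd (nat_lit 29) (.nd (nat_lit 20) (.nd (nat_lit 22) (.nd (nat_lit 26) 
(.nd (nat_lit 8) 
(.lf (nat_lit 3355836439) (dlOf (nat_lit 6) (nat_lit 0x420180008f40803a80c000478040184060007602c001190200bb0180008c40802a00b8003a404002800400060018120482))) 
(.lf (nat_lit 8787223) (dlOf (nat_lit 1) (nat_lit 0x20028519701)))) (.nd (nat_lit 27) 
(.lf (nat_lit 3288727575) (dlOf (nat_lit 2) (nat_lit 0x2d019000000080098008002c002003a00080d0883))) 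
(.lf (nat_lit 2349203479) (dlOf (nat_lit 1) (nat_lit 0x200281b0001))))) (.nd (nat_lit 6) 
(.lf (nat_lit 38142999) (dlOf (nat_lit 1) (nat_lit 0xe0009132881))) (.nd (nat_lit 7) 
(.lf (nat_lit 29753431) (dlOf (nat_lit 13) (nat_lit 0x55e474020f10400f95ad0006ad6003dd1a4000501402c723a010f882007bad6803dd1a40004c10025b23a00d38820000f820097c8e8000780801164740003804027b23a00e7882006ead68013d1a40003610025723a00d388200007820093c8e8034e2080001c08024f23a00d38820000482009dc8e803be20801b6b5a000030600af91d002cc410000041004e647401bb23800f3882006ead68022d1a4000001400d400400060018e30302))) 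
(.lf (nat_lit 38142935) (dlOf (nat_lit 1) (nat_lit 0x400009132881)))))) (.nd (nat_lit 19) 
(.nd (nat_lit 6) (.nd (nat_lit 22) 
(.lf (nat_lit 26607639) (dlOf (nat_lit 2) (nat_lit 0x560a8003acb0004980800b800400040018c50082))) 
(.lf (nat_lit 55967767) (dlOf (nat_lit 1) (nat_lit 0x8008000800200020009700603)))) 
(.lf (nat_lit 9830487) (dlOf (nat_lit 3) (nat_lit 0x7b07800053020027a450014d2080011c10014800800a0002005e0008580603)))) 
(.nd (nat_lit 6) (.nd (nat_lit 23) 
(.lf (nat_lit 39714839) (dlOf (nat_lit 1) (nat_lit 0xc002000200091d0082))) 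
(.lf (nat_lit 14549015) (dlOf (nat_lit 1) (nat_lit 0x20028760501)))) 
(.lf (nat_lit 69075927) (dlOf (nat_lit 1) (nat_lit 0x200288a2881)))))) (.nd (nat_lit 26) 
(.nd (nat_lit 19) (.nd (nat_lit 8) (.nd (nat_lit 30) 
(.lf (nat_lit 537264151) (dlOf (nat_lit 1) (nat_lit 0x20008001000200040008070503))) 
(.lf (nat_lit 1611005975) (dlOf (nat_lit 5) (nat_lit 0x4a064002202b80af8148008c0a0000c04b005c01a002680800110036003a0080011a09000102b8000814000380400023206005805a000f681002702d000180bc003cc08000c004001600180b0082)))) 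
(.lf (nat_lit 2818965783) (dlOf (nat_lit 1) (nat_lit 0x60018130701)))) (.nd (nat_lit 27) 
(.lf (nat_lit 537788439) (dlOf (nat_lit 1) (nat_lit 0xc002000200081a0502))) 
(.lf (nat_lit 2819489815) (dlOf (nat_lit 2) (nat_lit 0x6806c0005c02000c00282b0401))))) 
(.nd (nat_lit 6) (.nd (nat_lit 20) (.nd (nat_lit 27) 
(.lf (nat_lit 1678114839) (dlOf (nat_lit 1) (nat_lit 0x68002002a0008190502))) 
(.lf (nat_lit 738590743) (dlOf (nat_lit 5) (nat_lit 0x4a064002202b80af8148008c0a0000c04b005c01a002680800110036003a0080012609000102b8000814000380400024a06005805a000ff81002702d000180bc003f008000c004001600180b0082)))) 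
(.lf (nat_lit 2752905239) (dlOf (nat_lit 2) (nat_lit 0x10058003ec0800800080024002000e0008060483)))) 
(.lf (nat_lit 604373207) (dlOf (nat_lit 2) (nat_lit 0x18000000156040058002001200081a0502)))))) 
(.nd (nat_lit 26) (.nd (nat_lit 32) (.nd (nat_lit 20) (.nd (nat_lit 7) (.nd (nat_lit 30) 
(.lf (nat_lit 805699607) (dlOf (nat_lit 1) (nat_lit 0x68002002a0008190502))) 
(.lf (nat_lit 4026925079) (dlOf (nat_lit 2) (nat_lit 0x2d019000000080098008002c002003a00080d0883)))) 
(.lf (nat_lit 3490057367) (dlOf (nat_lit 1) (nat_lit 0x20018006201)))) (.nd (nat_lit 29) 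
(.lf (nat_lit 3491102743) (dlOf (nat_lit 2) (nat_lit 0x100580062c0800800080024002000e0008060483))) 
(.lf (nat_lit 1880490007) (dlOf (nat_lit 1) (nat_lit 0x180080004002000200089a0083))))) 
(.nd (nat_lit 30) (.nd (nat_lit 27) 
(.lf (nat_lit 4563795991) (dlOf (nat_lit 1) (nat_lit 0x14004000c00080e0382))) 
(.lf (nat_lit 4698013719) (dlOf (nat_lit 1) (nat_lit 0x14004000c00080e0382)))) (.nd (nat_lit 6) 
(.lf (nat_lit 5637537815) (dlOf (nat_lit 1) (nat_lit 0x100028100001))) 
(.lf (nat_lit 5637537879) (dlOf (nat_lit 1) (nat_lit 0x40028100601)))))) (.nd (nat_lit 6) 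
(.nd (nat_lit 19) (.nd (nat_lit 27) 
(.lf (nat_lit 1409679383) (dlOf (nat_lit 1) (nat_lit 0x20008001000200040008070503))) 
(.lf (nat_lit 2617638935) (dlOf (nat_lit 1) (nat_lit 0x280080010002001a0008110383)))) 
(.nd (nat_lit 9) (.nd (nat_lit 31) 
(.lf (nat_lit 1410203671) (dlOf (nat_lit 1) (nat_lit 0xc002000200081a0502))) 
(.lf (nat_lit 3557687319) (dlOf (nat_lit 2) (nat_lit 0x680700005c02000c00282b0401)))) 
(.lf (nat_lit 4095608343) (dlOf (nat_lit 2) (nat_lit 0x400ac00000040004004000400080e3702))))) 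
(.nd (nat_lit 7) (.nd (nat_lit 22) 
(.lf (nat_lit 6241517655) (dlOf (nat_lit 1) (nat_lit 0x40028100601))) 
(.lf (nat_lit 474349655) (dlOf (nat_lit 1) (nat_lit 0x100019160001)))) 
(.lf (nat_lit 872809431) (dlOf (nat_lit 1) (nat_lit 0x3000180e2881))))))) (.nd (nat_lit 19) 
(.nd (nat_lit 20) (.nd (nat_lit 6) (.nd (nat_lit 7) (.nd (nat_lit 22) 
(.lf (nat_lit 2753953815) (dlOf (nat_lit 1) (nat_lit 0x38002000200080a0902))) 
(.lf (nat_lit 15073303) (dlOf (nat_lit 1) (nat_lit 0x280080058002001000087b0483)))) 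
(.lf (nat_lit 1009124503) (dlOf (nat_lit 2) (nat_lit 0x20e000059019082b80)))) (.nd (nat_lit 26) 
(.nd (nat_lit 28) (.lf (nat_lit 2490455) (dlOf (nat_lit 1) (nat_lit 0x400400020018161102))) 
(.lf (nat_lit 1881538647) (dlOf (nat_lit 1) (nat_lit 0x9c00400200008f40802)))) 
(.lf (nat_lit 2753953879) (dlOf (nat_lit 1) (nat_lit 0x180080014002001000080a1103))))) 
(.nd (nat_lit 7) (.nd (nat_lit 22) 
(.lf (nat_lit 37093399) (dlOf (nat_lit 1) (nat_lit 0x60029090081))) (.nd (nat_lit 24) 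
(.lf (nat_lit 49676311) (dlOf (nat_lit 1) (nat_lit 0x400400020009480082))) 
(.lf (nat_lit 32899095) (dlOf (nat_lit 1) (nat_lit 0x8008000c00200020008f40603))))) 
(.nd (nat_lit 6) (.lf (nat_lit 11927703) (dlOf (nat_lit 1) (nat_lit 0x4200086c0181))) 
(.lf (nat_lit 20323031) (dlOf (nat_lit 1) (nat_lit 0x200189db981)))))) (.nd (nat_lit 6) 
(.nd (nat_lit 7) (.nd (nat_lit 8) (.nd (nat_lit 10) 
(.lf (nat_lit 29229079) (dlOf (nat_lit 1) (nat_lit 0x4c0028de0581))) 
(.lf (nat_lit 19794967) (dlOf (nat_lit 1) (nat_lit 0x80080004002000400089d6003)))) 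
(.lf (nat_lit 19795735) (dlOf (nat_lit 1) (nat_lit 0x400089d7481)))) (.nd (nat_lit 8) 
(.lf (nat_lit 8262807) (dlOf (nat_lit 1) (nat_lit 0x38008002c00200020008519503))) (.nd (nat_lit 10) 
(.lf (nat_lit 53346711) (dlOf (nat_lit 1) (nat_lit 0x80080004002000200095a6483))) 
(.lf (nat_lit 19799447) (dlOf (nat_lit 1) (nat_lit 0x600189dca01)))))) (.nd (nat_lit 7) 
(.nd (nat_lit 9) (.lf (nat_lit 4096655447) (dlOf (nat_lit 1) (nat_lit 0x400400020008151782))) 
(.lf (nat_lit 19795543) (dlOf (nat_lit 1) (nat_lit 0x4004000400089d7182)))) (.nd (nat_lit 8) 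
(.nd (nat_lit 11) (.lf (nat_lit 8262359) (dlOf (nat_lit 1) (nat_lit 0x400200020008518c82))) 
(.lf (nat_lit 19798743) (dlOf (nat_lit 1) (nat_lit 0x500080004002000800089db983)))) 
(.lf (nat_lit 8261591) (dlOf (nat_lit 1) (nat_lit 0x400200020008517a82)))))))))) (.nd (nat_lit 26) 
(.nd (nat_lit 19) (.nd (nat_lit 6) (.nd (nat_lit 17) (.nd (nat_lit 18) (.nd (nat_lit 27) 
(.nd (nat_lit 20) (.nd (nat_lit 21) 
(.lf (nat_lit 3493888023) (dlOf (nat_lit 1) (nat_lit 0x10002000200081b0002))) 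
(.lf (nat_lit 14712855) (dlOf (nat_lit 3) (nat_lit 0xba92600234020025384000f3018770080)))) 
(.nd (nat_lit 7) (.lf (nat_lit 38830103) (dlOf (nat_lit 1) (nat_lit 0x28008006c00200140009170083))) 
(.lf (nat_lit 51414167) (dlOf (nat_lit 1) (nat_lit 0x400200020009512b82))))) (.nd (nat_lit 9) 
(.nd (nat_lit 7) (.nd (nat_lit 8) 
(.lf (nat_lit 5502960663) (dlOf (nat_lit 4) (nat_lit 0x110026007ef020020013003a201000600a001d0c0801c800801a000200020008002883))) 
(.lf (nat_lit 4160787735) (dlOf (nat_lit 2) (nat_lit 0x680500004804002c00400240008009702)))) 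
(.lf (nat_lit 4160787607) (dlOf (nat_lit 2) (nat_lit 0xa805000cd60400c8004002a0008009502)))) 
(.nd (nat_lit 12) 
(.lf (nat_lit 5502961175) (dlOf (nat_lit 3) (nat_lit 0x5c015005700a0001004400bc00a0000f08004a015000700a001200140000e0c00f000200160008003702))) 
(.lf (nat_lit 2281739799) (dlOf (nat_lit 1) (nat_lit 0xb400200120008009c02)))))) (.nd (nat_lit 28) 
(.nd (nat_lit 23) (.nd (nat_lit 30) 
(.lf (nat_lit 2684649495) (dlOf (nat_lit 1) (nat_lit 0x20028100481))) 
(.lf (nat_lit 3758391319) (dlOf (nat_lit 2) (nat_lit 0xcd00f4017006c001590400040028170081)))) 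
(.nd (nat_lit 20) 
(.lf (nat_lit 44335127) (dlOf (nat_lit 4) (nat_lit 0x5317800418500028bf80001a06000262f000830a000097f0000160c0018c280000a02006000192f0381))) 
(.lf (nat_lit 26509335) (dlOf (nat_lit 2) (nat_lit 0x14bfe00126018c50080))))) (.nd (nat_lit 7) 
(.nd (nat_lit 30) (.lf (nat_lit 805601303) (dlOf (nat_lit 1) (nat_lit 0x400200020008140a82))) 
(.lf (nat_lit 1879343127) (dlOf (nat_lit 2) (nat_lit 0x3000000108080030008002c002006e00080e0983)))) 
(.lf (nat_lit 4697915799) (dlOf (nat_lit 1) (nat_lit 0x8004000a00180c6482)))))) (.nd (nat_lit 18) 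
(.nd (nat_lit 27) (.nd (nat_lit 25) (.nd (nat_lit 8) (.nd (nat_lit 29) 
(.lf (nat_lit 5368872983) (dlOf (nat_lit 5) (nat_lit 0x2002a00100140007009800380440048020002400e000700280354838004005400500280050013001a008800d0040006401c002a005006a887001600a80088050007c0260034011001a008000d0038002800a00d500e001a015000d00a0010804c00680220034010001a00700353c300020008001800200040008060a03))) 
(.lf (nat_lit 2684518423) (dlOf (nat_lit 1) (nat_lit 0x40028080481)))) 
(.lf (nat_lit 165655) (dlOf (nat_lit 1) (nat_lit 0x10008000800200040008003c83)))) (.nd (nat_lit 7) 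
(.nd (nat_lit 10) 
(.lf (nat_lit 47349783) (dlOf (nat_lit 4) (nat_lit 0x1af100006404003d788001aba90001182000d5e20005aea400044080004004002000193d0382))) 
(.lf (nat_lit 51545111) (dlOf (nat_lit 1) (nat_lit 0x20019512881)))) 
(.lf (nat_lit 44204439) (dlOf (nat_lit 2) (nat_lit 0x330a0029a4080060008003c002000200092d6483))))) 
(.nd (nat_lit 29) (.nd (nat_lit 28) 
(.lf (nat_lit 5503090711) (dlOf (nat_lit 5) (nat_lit 0x2002a00100140007009800380440048020002400e0007002801f5c38004005400500280050013001a008800d0040006401c002a005003eb07001600a80088050007c0260034011001a008000d0038002800a007d50e001a015000d00a0010804c00680220034010001a007001f50300020008001800200040008060a03))) 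
(.lf (nat_lit 1476558871) (dlOf (nat_lit 13) (nat_lit 0x4c07e0015e02034803f000ac81002a01f8005580801080d8002a804000407200148020028036000a281002b01b0005100800480fc001c06c0013b04003803f0009b81002401f800400d80026c08002007e0006039003101b0004d01800f80d80000004015800400280008050082)))) 
(.nd (nat_lit 9) 
(.lf (nat_lit 6039961623) (dlOf (nat_lit 2) (nat_lit 0xfc06a0056034000de828070480))) 
(.lf (nat_lit 2818736663) (dlOf (nat_lit 1) (nat_lit 0x3a00280e8701)))))) (.nd (nat_lit 20) 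
(.nd (nat_lit 22) (.nd (nat_lit 27) 
(.lf (nat_lit 5637570583) (dlOf (nat_lit 1) (nat_lit 0x2400400020008110382))) 
(.lf (nat_lit 2818998295) (dlOf (nat_lit 2) (nat_lit 0x680c0013201c000aa028150080)))) 
(.lf (nat_lit 13008919) (dlOf (nat_lit 1) (nat_lit 0x80080008002000200086f0383)))) 
(.nd (nat_lit 21) (.nd (nat_lit 22) (.nd (nat_lit 24) 
(.lf (nat_lit 1343651863) (dlOf (nat_lit 18) (nat_lit 0xc02a0001981000104e800e023800240fc0002a06001409d0004047000581f8000480c006811c0002302002409d000d047000781f8000440c001c13a001c08e000a03f0000841800b0274006011c002807e0000f83001e04700005c0800f02380002a04007811c0001202003c08e0000881001e04700003c0800f02380001604008811c0000a02005808e0000481001d04700000c0800f023800002040090004003e00182d0402))) 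
(.lf (nat_lit 51806231) (dlOf (nat_lit 1) (nat_lit 0x220029510001)))) 
(.lf (nat_lit 5668887) (dlOf (nat_lit 1) (nat_lit 0x80080004002000200083c0483)))) (.nd (nat_lit 7) 
(.nd (nat_lit 22) (.lf (nat_lit 37126167) (dlOf (nat_lit 1) (nat_lit 0xfa00090a0601))) 
(.lf (nat_lit 24543255) (dlOf (nat_lit 1) (nat_lit 0x40028ba0981)))) 
(.lf (nat_lit 11960471) (dlOf (nat_lit 1) (nat_lit 0x200186c0181)))))))) (.nd (nat_lit 12) 
(.nd (nat_lit 18) (.nd (nat_lit 7) (.nd (nat_lit 17) (.nd (nat_lit 8) (.nd (nat_lit 22) 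
(.lf (nat_lit 44073047) (dlOf (nat_lit 1) (nat_lit 0x200292c0701))) 
(.lf (nat_lit 14712919) (dlOf (nat_lit 1) (nat_lit 0x3c00200160008770802)))) 
(.lf (nat_lit 24150359) (dlOf (nat_lit 1) (nat_lit 0x30008007000200020008b80683)))) 
(.nd (nat_lit 8) (.nd (nat_lit 9) 
(.lf (nat_lit 52592727) (dlOf (nat_lit 2) (nat_lit 0x12c10000f5938001a9a00004c0c000800400260019550802))) 
(.lf (nat_lit 34769495) (dlOf (nat_lit 1) (nat_lit 0x8008000400200020008fb5303)))) 
(.lf (nat_lit 1342341463) (dlOf (nat_lit 1) (nat_lit 0x20018014d01))))) (.nd (nat_lit 8) 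
(.nd (nat_lit 10) 
(.lf (nat_lit 3493888215) (dlOf (nat_lit 2) (nat_lit 0x3983f8019a1e700cd0ae8002501801100080008002005400081b0483))) 
(.nd (nat_lit 11) 
(.lf (nat_lit 5502960855) (dlOf (nat_lit 2) (nat_lit 0x12300900000008008800804d400200040008002d83))) 
(.lf (nat_lit 6442486999) (dlOf (nat_lit 1) (nat_lit 0x40018006481))))) (.nd (nat_lit 9) 
(.lf (nat_lit 2818736599) (dlOf (nat_lit 2) (nat_lit 0xc006000300000042c100008008001c002000a00080e7b03))) 
(.lf (nat_lit 1073775575) (dlOf (nat_lit 1) (nat_lit 0x1000400020018002882)))))) (.nd (nat_lit 23) 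
(.nd (nat_lit 8) (.nd (nat_lit 20) 
(.lf (nat_lit 4026826839) (dlOf (nat_lit 1) (nat_lit 0x20028090001))) 
(.lf (nat_lit 3440727) (dlOf (nat_lit 1) (nat_lit 0x60028200001)))) (.nd (nat_lit 17) 
(.lf (nat_lit 3221520727) (dlOf (nat_lit 11) (nat_lit 0x458014000640201fc00a000318100fe0050001800801d8118027c08a0004d04005e00a0002501011f0050001100807e80280008604040c014000420201a200a0001e810085022803b002800000080030004000e0008124d02))) 
(.lf (nat_lit 21397847) (dlOf (nat_lit 2) (nat_lit 0x1541ae000440200040018a34d01))))) 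
(.nd (nat_lit 17) (.nd (nat_lit 20) 
(.lf (nat_lit 29655127) (dlOf (nat_lit 1) (nat_lit 0x100008e30301))) 
(.lf (nat_lit 9732183) (dlOf (nat_lit 1) (nat_lit 0x800802d000200e60008580603)))) (.nd (nat_lit 9) 
(.lf (nat_lit 29786199) (dlOf (nat_lit 2) (nat_lit 0x400000000018e30300))) 
(.lf (nat_lit 59148887) (dlOf (nat_lit 1) (nat_lit 0x80080004002000200097e5303))))))) 
(.nd (nat_lit 10) (.nd (nat_lit 11) (.nd (nat_lit 23) (.nd (nat_lit 7) 
(.lf (nat_lit 1342214487) (dlOf (nat_lit 1) (nat_lit 0x10008001c00200040008008383))) 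
(.lf (nat_lit 2952827607) (dlOf (nat_lit 1) (nat_lit 0x1c000801ac002012c0008008c83)))) 
(.nd (nat_lit 17) (.lf (nat_lit 8426199) (dlOf (nat_lit 1) (nat_lit 0x8008000800200020008518c83))) 
(.lf (nat_lit 8557271) (dlOf (nat_lit 1) (nat_lit 0x400200020008518c82))))) (.nd (nat_lit 17) 
(.nd (nat_lit 18) 
(.lf (nat_lit 19962583) (dlOf (nat_lit 1) (nat_lit 0x1d00080004002003600089db983))) 
(.lf (nat_lit 20224727) (dlOf (nat_lit 1) (nat_lit 0x200189db981)))) 
(.lf (nat_lit 20093655) (dlOf (nat_lit 1) (nat_lit 0x8002000200089db982))))) (.nd (nat_lit 8) 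
(.nd (nat_lit 11) (.nd (nat_lit 17) 
(.lf (nat_lit 1342215255) (dlOf (nat_lit 3) (nat_lit 0x80470000140800182380000204001000400100008009382))) 
(.lf (nat_lit 3758265431) (dlOf (nat_lit 1) (nat_lit 0xe000800a400200120008129383)))) 
(.nd (nat_lit 18) (.lf (nat_lit 2952830039) (dlOf (nat_lit 1) (nat_lit 0xc0040002000800bf82))) 
(.lf (nat_lit 2818874455) (dlOf (nat_lit 1) (nat_lit 0xc0020002000812bf82))))) (.nd (nat_lit 9) 
(.lf (nat_lit 134258007) (dlOf (nat_lit 2) (nat_lit 0xec0000067e0200d4000800c901))) 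
(.nd (nat_lit 17) (.lf (nat_lit 1342216023) (dlOf (nat_lit 1) (nat_lit 0x740040036000800a282))) 
(.lf (nat_lit 3758266199) (dlOf (nat_lit 1) (nat_lit 0x6001812a281))))))))) (.nd (nat_lit 18) 
(.nd (nat_lit 21) (.nd (nat_lit 30) (.nd (nat_lit 22) (.nd (nat_lit 29) (.nd (nat_lit 17) 
(.nd (nat_lit 23) (.lf (nat_lit 134774807) (dlOf (nat_lit 1) (nat_lit 0x8002000400080b0902))) 
(.lf (nat_lit 42500119) (dlOf (nat_lit 1) (nat_lit 0x8008000400200020009260083)))) 
(.lf (nat_lit 10125335) (dlOf (nat_lit 1) (nat_lit 0x1d0004007c00085b0482)))) (.nd (nat_lit 6) 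
(.nd (nat_lit 7) 
(.lf (nat_lit 805863447) (dlOf (nat_lit 6) (nat_lit 0x3bc0a400a404300460198000cc1803b011000064040094088000310200860440001801002602900008c08018000801a8002006a00081d0383))) 
(.lf (nat_lit 537428119) (dlOf (nat_lit 1) (nat_lit 0xd8008001c00200360008090183)))) 
(.lf (nat_lit 537428439) (dlOf (nat_lit 1) (nat_lit 0x1040008090b01))))) (.nd (nat_lit 6) 
(.nd (nat_lit 17) 
(.lf (nat_lit 55083031) (dlOf (nat_lit 5) (nat_lit 0x104b1001a24f8000d01001212c0004093c0003204001a4b0000118100122580000880801b00080054002000600096a0383))) 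
(.lf (nat_lit 21659671) (dlOf (nat_lit 1) (nat_lit 0x60018a60a01)))) 
(.lf (nat_lit 21528663) (dlOf (nat_lit 1) (nat_lit 0x180018a40601))))) (.nd (nat_lit 6) 
(.nd (nat_lit 17) (.nd (nat_lit 7) (.nd (nat_lit 20) (.nd (nat_lit 22) 
(.lf (nat_lit 3624435735) (dlOf (nat_lit 2) (nat_lit 0x440800000002000200181a0481))) 
(.lf (nat_lit 3494412311) (dlOf (nat_lit 1) (nat_lit 0x400200020008220882)))) 
(.lf (nat_lit 3491266583) (dlOf (nat_lit 2) (nat_lit 0x1a1e60012e818080500)))) 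
(.lf (nat_lit 1342734487) (dlOf (nat_lit 2) (nat_lit 0x4c3460004602000200280c0181)))) 
(.nd (nat_lit 20) 
(.lf (nat_lit 3893002263) (dlOf (nat_lit 2) (nat_lit 0x10016000bc80800680080248002000c00082c0583))) 
(.lf (nat_lit 1880784919) (dlOf (nat_lit 1) (nat_lit 0x800400020008b90082))))) (.nd (nat_lit 7) 
(.nd (nat_lit 8) (.lf (nat_lit 3221782615) (dlOf (nat_lit 1) (nat_lit 0x80018181101))) 
(.lf (nat_lit 3490221399) (dlOf (nat_lit 1) (nat_lit 0x20018006a81)))) 
(.lf (nat_lit 1074299095) (dlOf (nat_lit 2) (nat_lit 0x610000002040800f80080184002003800081b0483)))))) 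
(.nd (nat_lit 20) (.nd (nat_lit 7) (.nd (nat_lit 22) (.nd (nat_lit 23) 
(.lf (nat_lit 2654231) (dlOf (nat_lit 5) (nat_lit 0x1f948e009ca350000d02005d523800728d40001608010d48e001aa350000502002652380002408000800800a400200240008180383))) 
(.lf (nat_lit 11042839) (dlOf (nat_lit 15) (nat_lit 0x3dc2580093808023e12c004980401d70a4008b7cf0045490800500000049210035f0960023f02002a000001140100730000008980803f0000003e60400fc000001ef02005e000000f701000bcae8006f4080120000003660400680000018602005e0000005701001b0000000000802e0008011400200400008660483)))) 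
(.lf (nat_lit 15237143) (dlOf (nat_lit 1) (nat_lit 0x80002000200087c0482)))) (.nd (nat_lit 8) 
(.lf (nat_lit 23625879) (dlOf (nat_lit 2) (nat_lit 0xaef40008a04001400400020008b80182))) 
(.lf (nat_lit 36342167) (dlOf (nat_lit 1) (nat_lit 0x40019074e81))))) (.nd (nat_lit 9) 
(.nd (nat_lit 6) (.nd (nat_lit 7) 
(.lf (nat_lit 24805399) (dlOf (nat_lit 6) (nat_lit 0x7abc8003b5d68000d010002300000d17900064bad0001903002a5e400132eb4000460800957900044bad000110200015e4000084080048008002c00200060008bb0383))) 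
(.lf (nat_lit 8030359) (dlOf (nat_lit 1) (nat_lit 0x280018514801)))) 
(.lf (nat_lit 49841495) (dlOf (nat_lit 3) (nat_lit 0x292c00002804004c9600001102001a00194c3381)))) 
(.nd (nat_lit 11) (.lf (nat_lit 1345880599) (dlOf (nat_lit 1) (nat_lit 0x20004000e0008e07e02))) 
(.lf (nat_lit 49973783) (dlOf (nat_lit 1) (nat_lit 0x4004003200094c5082))))))) (.nd (nat_lit 21) 
(.nd (nat_lit 28) (.nd (nat_lit 23) (.nd (nat_lit 8) (.nd (nat_lit 9) 
(.lf (nat_lit 18645015) (dlOf (nat_lit 3) (nat_lit 0x206800002f81000faeb0001480800d00080070002000c0008960403))) 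
(.lf (nat_lit 135037463) (dlOf (nat_lit 1) (nat_lit 0x600281b0d81)))) 
(.lf (nat_lit 51151127) (dlOf (nat_lit 1) (nat_lit 0x1000400220009507482)))) (.nd (nat_lit 6) 
(.nd (nat_lit 17) 
(.lf (nat_lit 42762263) (dlOf (nat_lit 1) (nat_lit 0x180080060002000e0009280083))) 
(.lf (nat_lit 9338903) (dlOf (nat_lit 1) (nat_lit 0x1000400060018540682)))) 
(.lf (nat_lit 13402199) (dlOf (nat_lit 1) (nat_lit 0x80008011c002000e0008721a83))))) 
(.nd (nat_lit 8) (.nd (nat_lit 7) 
(.lf (nat_lit 1342996503) (dlOf (nat_lit 1) (nat_lit 0x400200020008130882))) 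
(.lf (nat_lit 5772182679) (dlOf (nat_lit 1) (nat_lit 0x80028092b81)))) (.nd (nat_lit 6) 
(.lf (nat_lit 3490611479) (dlOf (nat_lit 1) (nat_lit 0x5c004002e0018014002))) 
(.lf (nat_lit 3490611543) (dlOf (nat_lit 11) (nat_lit 0x7003d00006402036c1e8000318101380f40001800800905400009a0403bc3d00004a0203941e8003f09c000110100d087a0000860406f43d0003e138000210201a10f40000f4080a607a0000000401f0004022c0018014d02)))))) 
(.nd (nat_lit 6) (.nd (nat_lit 17) (.nd (nat_lit 20) 
(.lf (nat_lit 36470807) (dlOf (nat_lit 1) (nat_lit 0x800400040019070002))) 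
(.lf (nat_lit 3964951) (dlOf (nat_lit 1) (nat_lit 0xa0018260a81)))) (.nd (nat_lit 9) 
(.nd (nat_lit 20) 
(.lf (nat_lit 15630359) (dlOf (nat_lit 2) (nat_lit 0x4a37c00060040024004000a0008810402))) 
(.lf (nat_lit 16678935) (dlOf (nat_lit 2) (nat_lit 0x11a0000060040004004000200088d0402)))) 
(.lf (nat_lit 8291863) (dlOf (nat_lit 1) (nat_lit 0x20028513701))))) (.nd (nat_lit 11) 
(.nd (nat_lit 17) (.lf (nat_lit 8164055) (dlOf (nat_lit 1) (nat_lit 0x8008000400200020008518c83))) 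
(.lf (nat_lit 8295127) (dlOf (nat_lit 1) (nat_lit 0x400200020008518c82)))) (.nd (nat_lit 7) 
(.lf (nat_lit 62687831) (dlOf (nat_lit 1) (nat_lit 0x3c00299a5301))) (.nd (nat_lit 8) 
(.lf (nat_lit 19831511) (dlOf (nat_lit 1) (nat_lit 0xc00080004002002800089db983))) 
(.lf (nat_lit 8294359) (dlOf (nat_lit 1) (nat_lit 0x20018517a81)))))))))) (.nd (nat_lit 29) 
(.nd (nat_lit 28) (.nd (nat_lit 27) (.nd (nat_lit 6) (.nd (nat_lit 18) (.nd (nat_lit 10) 
(.lf (nat_lit 4362633239) (dlOf (nat_lit 3) (nat_lit 0x402b00001c0800201580000c040014004000e00180b0982))) 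
(.lf (nat_lit 4362109975) (dlOf (nat_lit 1) (nat_lit 0x8004004c0018002882)))) (.nd (nat_lit 8) 
(.nd (nat_lit 20) 
(.lf (nat_lit 67403799) (dlOf (nat_lit 3) (nat_lit 0x8825c003f20400180000018802000c00080f0081))) 
(.lf (nat_lit 68452375) (dlOf (nat_lit 2) (nat_lit 0x101a0000000200080028580881)))) 
(.lf (nat_lit 4362895639) (dlOf (nat_lit 1) (nat_lit 0x1200181a0481))))) (.nd (nat_lit 19) 
(.nd (nat_lit 11) 
(.lf (nat_lit 67403863) (dlOf (nat_lit 1) (nat_lit 0xd8008006c002007000080f0803))) 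
(.lf (nat_lit 4362111063) (dlOf (nat_lit 1) (nat_lit 0xa8008003c002000c0008004703)))) 
(.nd (nat_lit 8) (.lf (nat_lit 67666007) (dlOf (nat_lit 1) (nat_lit 0x8008003c002001800082d0303))) 
(.lf (nat_lit 67666263) (dlOf (nat_lit 1) (nat_lit 0x200282d0881)))))) (.nd (nat_lit 8) 
(.nd (nat_lit 17) (.nd (nat_lit 6) (.nd (nat_lit 7) 
(.lf (nat_lit 201883671) (dlOf (nat_lit 1) (nat_lit 0x8002000400080b0902))) 
(.lf (nat_lit 3422590103) (dlOf (nat_lit 4) (nat_lit 0x68034004c0180068204002800b0027481000f0058013600801a0008004000200160008009503)))) 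
(.lf (nat_lit 2349105239) (dlOf (nat_lit 3) (nat_lit 0x980200000b02004c02a00270080000281000100080050002003c00080a1103)))) 
(.nd (nat_lit 30) 
(.lf (nat_lit 6643941399) (dlOf (nat_lit 2) (nat_lit 0x406a001bd02000e0018090481))) 
(.lf (nat_lit 3422715927) (dlOf (nat_lit 1) (nat_lit 0x400200020008070382))))) (.nd (nat_lit 6) 
(.nd (nat_lit 9) (.lf (nat_lit 3422590231) (dlOf (nat_lit 1) (nat_lit 0xc00400540018009702))) 
(.lf (nat_lit 201361175) (dlOf (nat_lit 3) (nat_lit 0x140000000460400400000002202004e0008003c81)))) 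
(.lf (nat_lit 2348845399) (dlOf (nat_lit 2) (nat_lit 0x900a802040500002604000c0028004e01)))))) 
(.nd (nat_lit 19) (.nd (nat_lit 6) (.nd (nat_lit 17) (.nd (nat_lit 9) (.nd (nat_lit 18) 
(.lf (nat_lit 471891991) (dlOf (nat_lit 1) (nat_lit 0x1400286b0001))) 
(.lf (nat_lit 3691282455) (dlOf (nat_lit 1) (nat_lit 0x800400080008110482)))) 
(.lf (nat_lit 4630545943) (dlOf (nat_lit 2) (nat_lit 0x300b0005001400030080008004001c0008003702)))) 
(.nd (nat_lit 18) 
(.lf (nat_lit 3691151383) (dlOf (nat_lit 2) (nat_lit 0x122802808a0000001590400060008050081))) 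
(.lf (nat_lit 471236631) (dlOf (nat_lit 2) (nat_lit 0x5081400066040020002000200082d0402))))) 
(.nd (nat_lit 8) (.nd (nat_lit 7) (.nd (nat_lit 17) 
(.lf (nat_lit 2483322967) (dlOf (nat_lit 3) (nat_lit 0x980200002102004c02a00270080000801000100080050002003c00080a1103))) 
(.lf (nat_lit 3691151447) (dlOf (nat_lit 2) (nat_lit 0x202200017818050800)))) 
(.lf (nat_lit 474121431) (dlOf (nat_lit 2) (nat_lit 0x10894000c4160012207000b0d9000206b400602d800940b400080000000ec4002700080014002000800090e2d83)))) 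
(.nd (nat_lit 9) (.nd (nat_lit 11) 
(.lf (nat_lit 469800407) (dlOf (nat_lit 2) (nat_lit 0xc0470000700800500080004002000e0008009b03))) 
(.lf (nat_lit 1409322455) (dlOf (nat_lit 1) (nat_lit 0x20018006d81)))) (.nd (nat_lit 10) 
(.lf (nat_lit 3691025367) (dlOf (nat_lit 2) (nat_lit 0x9e01500130c080028008000400200160008009203))) 
(.lf (nat_lit 469796823) (dlOf (nat_lit 1) (nat_lit 0x400400020008004502))))))) (.nd (nat_lit 18) 
(.nd (nat_lit 7) (.nd (nat_lit 17) 
(.lf (nat_lit 474513431) (dlOf (nat_lit 1) (nat_lit 0x200080004002000a00091a0083))) 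
(.nd (nat_lit 21) (.lf (nat_lit 3557457943) (dlOf (nat_lit 1) (nat_lit 0x400400020008210482))) 
(.lf (nat_lit 472547351) (dlOf (nat_lit 3) (nat_lit 0x505900058408001803c0011c0400ac004006600089b0602))))) 
(.nd (nat_lit 27) (.lf (nat_lit 1409843351) (dlOf (nat_lit 1) (nat_lit 0x400400020008090182))) 
(.lf (nat_lit 470319255) (dlOf (nat_lit 2) (nat_lit 0x4c3660004602000200280c0181))))) 
(.nd (nat_lit 20) (.nd (nat_lit 7) (.nd (nat_lit 27) 
(.lf (nat_lit 3557589015) (dlOf (nat_lit 1) (nat_lit 0x4000200020008270482))) 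
(.lf (nat_lit 470581271) (dlOf (nat_lit 1) (nat_lit 0x400200020008130882)))) 
(.lf (nat_lit 1410107543) (dlOf (nat_lit 1) (nat_lit 0xc400080508002026400080f4803)))) 
(.nd (nat_lit 6) (.nd (nat_lit 17) 
(.lf (nat_lit 471629847) (dlOf (nat_lit 18) (nat_lit 0xc0240001981000104e800e023800240fc0002a06001409d0004047000581f8000480c006811c0002302002409d000d047000781f8000440c001c13a001c08e000a03f0000841800b0274006011c002807e0000f83001e0470000600800f02380002804007811c0001202003c08e0000881001e04700003c0800f02380001604008811c0000a02005808e0000481001d04700000c0800f023800002040090004003e0018360402))) 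
(.lf (nat_lit 473858071) (dlOf (nat_lit 1) (nat_lit 0x8008009400200260008fc0083)))) 
(.lf (nat_lit 473858135) (dlOf (nat_lit 2) (nat_lit 0xa200000012818fc0800)))))))) (.nd (nat_lit 28) 
(.nd (nat_lit 19) (.nd (nat_lit 10) (.nd (nat_lit 18) (.nd (nat_lit 6) 
(.lf (nat_lit 604143639) (dlOf (nat_lit 5) (nat_lit 0x201e0005780800b80f00028a0400200780013402005203c000701c8000001001e8008001400200160008030083))) 
(.nd (nat_lit 9) (.lf (nat_lit 2755690711) (dlOf (nat_lit 2) (nat_lit 0x1720c50004a0181b0480))) 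
(.lf (nat_lit 604017367) (dlOf (nat_lit 1) (nat_lit 0x8008000400200020008008c83))))) 
(.nd (nat_lit 11) (.nd (nat_lit 30) 
(.lf (nat_lit 604274711) (dlOf (nat_lit 5) (nat_lit 0x300600020022000a00e00060000000cc200030060000c022001600f00050070000c8200018060001401e000a00e0001883000200c00050044001c01e000c00e00080000000c0280038008003800200020008120403))) 
(.lf (nat_lit 1678016535) (dlOf (nat_lit 1) (nat_lit 0x400200020008140a82)))) 
(.lf (nat_lit 2751895575) (dlOf (nat_lit 1) (nat_lit 0x2cc00401b8000800a602))))) (.nd (nat_lit 6) 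
(.nd (nat_lit 7) (.nd (nat_lit 8) 
(.lf (nat_lit 6106940951) (dlOf (nat_lit 2) (nat_lit 0x2c02c0016015000100a000038180060008001000200160008003703))) 
(.lf (nat_lit 6106940695) (dlOf (nat_lit 1) (nat_lit 0xc0028003081)))) 
(.lf (nat_lit 2751629207) (dlOf (nat_lit 1) (nat_lit 0x20008000400200060008004203)))) 
(.nd (nat_lit 7) (.lf (nat_lit 604019799) (dlOf (nat_lit 1) (nat_lit 0x80020012000800bf82))) 
(.nd (nat_lit 12) (.lf (nat_lit 2751629271) (dlOf (nat_lit 1) (nat_lit 0x400400080008004502))) 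
(.lf (nat_lit 3825244119) (dlOf (nat_lit 1) (nat_lit 0x20001800a601))))))) (.nd (nat_lit 6) 
(.nd (nat_lit 17) (.nd (nat_lit 20) (.nd (nat_lit 22) (.nd (nat_lit 27) 
(.lf (nat_lit 1678278679) (dlOf (nat_lit 6) (nat_lit 0x3bc0a400a4043004601980006c1803b011000034040094088000190200860440000c01002602900002c08018000801a8002006a00081d0383))) 
(.lf (nat_lit 2886238231) (dlOf (nat_lit 2) (nat_lit 0x440800000002000200181a0481)))) 
(.lf (nat_lit 2756214807) (dlOf (nat_lit 1) (nat_lit 0x400200020008220882)))) 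
(.lf (nat_lit 2753069079) (dlOf (nat_lit 2) (nat_lit 0x1a1f800124818080500)))) (.nd (nat_lit 8) 
(.lf (nat_lit 2753462807) (dlOf (nat_lit 1) (nat_lit 0x3000008090d81))) 
(.lf (nat_lit 2752413975) (dlOf (nat_lit 1) (nat_lit 0x5c004002e0018014002))))) (.nd (nat_lit 17) 
(.nd (nat_lit 21) (.lf (nat_lit 3959980119) (dlOf (nat_lit 1) (nat_lit 0x80018181101))) 
(.lf (nat_lit 2754117719) (dlOf (nat_lit 2) (nat_lit 0x120a90000100805c000800d0002006600080c1a83)))) 
(.lf (nat_lit 2753462359) (dlOf (nat_lit 2) (nat_lit 0x221c00382818090000)))))) (.nd (nat_lit 6) 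
(.nd (nat_lit 18) (.nd (nat_lit 17) (.nd (nat_lit 27) 
(.lf (nat_lit 1946714135) (dlOf (nat_lit 2) (nat_lit 0x1403e00d208181b0000))) 
(.lf (nat_lit 4228415511) (dlOf (nat_lit 3) (nat_lit 0x402780001c08002013c0000c040014004000e00180b0982)))) 
(.nd (nat_lit 7) (.nd (nat_lit 21) 
(.lf (nat_lit 5167546391) (dlOf (nat_lit 3) (nat_lit 0x280a0002c03400d40040008028000a00d0034fc1000900080010002000200080a0a03))) 
(.lf (nat_lit 1008893975) (dlOf (nat_lit 1) (nat_lit 0x400400020008fc0082)))) 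
(.lf (nat_lit 3020068247) (dlOf (nat_lit 1) (nat_lit 0x400200020008129902))))) (.nd (nat_lit 27) 
(.nd (nat_lit 10) (.nd (nat_lit 17) 
(.lf (nat_lit 3020193815) (dlOf (nat_lit 15) (nat_lit 0x2d0060004c022000ad0200b5018000a80ac00300480108022000ac8400b6018004580ac0190048002c022000ab8400a4018000f0088002aa08060407a05cc03002ee015801a80a40b7404805a602202a70098005503804f80c001700560088024004901100054c2005880c001b405600b0024005a0110005482005a00c0010c04800d0022000a88300370110005140801280c000140560054022000a20300380180004dc0801500c0000c0560036024000c0110004d82000380c000780440013404000c0320056018001980b8012804e008402200000058150080))) 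
(.lf (nat_lit 6241550359) (dlOf (nat_lit 1) (nat_lit 0x2400400020008110382)))) 
(.lf (nat_lit 4094462999) (dlOf (nat_lit 1) (nat_lit 0x34004002a0008056002)))) (.nd (nat_lit 8) 
(.lf (nat_lit 1006927895) (dlOf (nat_lit 2) (nat_lit 0x3000000108080030008002c002006e00080e0983))) 
(.lf (nat_lit 3154411799) (dlOf (nat_lit 1) (nat_lit 0x200028160701)))))) (.nd (nat_lit 7) 
(.nd (nat_lit 17) (.nd (nat_lit 18) 
(.lf (nat_lit 3154673751) (dlOf (nat_lit 2) (nat_lit 0x102d00006c080008008000800200060008310303))) 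
(.nd (nat_lit 31) (.lf (nat_lit 5167677527) (dlOf (nat_lit 1) (nat_lit 0x400400020008100602))) 
(.lf (nat_lit 3020193879) (dlOf (nat_lit 2) (nat_lit 0x603000017818150800))))) (.nd (nat_lit 8) 
(.lf (nat_lit 4228546647) (dlOf (nat_lit 1) (nat_lit 0xc002000400080f1782))) 
(.lf (nat_lit 4228022615) (dlOf (nat_lit 11) (nat_lit 0x1140190001a4080a200c8000d004072c06400044020134032000218101d40190001080804900c8000480404fc064000230201a40320001081003b0190000800804f00c80003c04005400400080008014d02))))) 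
(.nd (nat_lit 30) (.nd (nat_lit 9) 
(.lf (nat_lit 5301765335) (dlOf (nat_lit 1) (nat_lit 0xc00200020008092d82))) (.nd (nat_lit 17) 
(.lf (nat_lit 1006670551) (dlOf (nat_lit 1) (nat_lit 0x800200020008008c82))) 
(.lf (nat_lit 3020067543) (dlOf (nat_lit 1) (nat_lit 0x20028128c81))))) (.nd (nat_lit 8) 
(.nd (nat_lit 17) 
(.lf (nat_lit 1946714327) (dlOf (nat_lit 2) (nat_lit 0x610000002040800f80080184002003800081b0483))) 
(.lf (nat_lit 6377341143) (dlOf (nat_lit 1) (nat_lit 0x4002000200080c1c02)))) 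
(.lf (nat_lit 4228022743) (dlOf (nat_lit 2) (nat_lit 0x6800000255818017100))))))))))) 
(.nd (nat_lit 17) (.nd (nat_lit 6) (.nd (nat_lit 18) (.nd (nat_lit 15) (.nd (nat_lit 19) 
(.nd (nat_lit 26) (.nd (nat_lit 30) (.nd (nat_lit 20) (.nd (nat_lit 23) 
(.lf (nat_lit 52437015) (dlOf (nat_lit 1) (nat_lit 0x1400400020009530082))) 
(.lf (nat_lit 10493975) (dlOf (nat_lit 1) (nat_lit 0x3600285e0a81)))) (.nd (nat_lit 9) 
(.lf (nat_lit 13639703) (dlOf (nat_lit 1) (nat_lit 0x400400020018730882))) 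
(.lf (nat_lit 40903191) (dlOf (nat_lit 1) (nat_lit 0x8008001800200060009208703))))) 
(.nd (nat_lit 8) (.nd (nat_lit 9) 
(.lf (nat_lit 3493863447) (dlOf (nat_lit 1) (nat_lit 0x200181b0001))) 
(.lf (nat_lit 5502936599) (dlOf (nat_lit 1) (nat_lit 0x400400020008003702)))) (.nd (nat_lit 7) 
(.nd (nat_lit 28) (.lf (nat_lit 6039811351) (dlOf (nat_lit 1) (nat_lit 0x40028009701))) 
(.lf (nat_lit 4160763159) (dlOf (nat_lit 1) (nat_lit 0x20028009701)))) 
(.lf (nat_lit 3489671575) (dlOf (nat_lit 1) (nat_lit 0x20018004e81)))))) (.nd (nat_lit 8) 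
(.nd (nat_lit 7) (.nd (nat_lit 9) 
(.lf (nat_lit 473964567) (dlOf (nat_lit 1) (nat_lit 0x3e0008fe0081))) 
(.lf (nat_lit 4630521367) (dlOf (nat_lit 1) (nat_lit 0x8008000400200020008003703)))) 
(.nd (nat_lit 11) 
(.lf (nat_lit 3422565527) (dlOf (nat_lit 4) (nat_lit 0xb803400640180068204003c00b002748100130058013600800c0008002400200200008009503))) 
(.lf (nat_lit 2754620567) (dlOf (nat_lit 1) (nat_lit 0x78008006800200d200080f6203))))) 
(.nd (nat_lit 9) (.nd (nat_lit 7) 
(.lf (nat_lit 3422565655) (dlOf (nat_lit 1) (nat_lit 0x1000200080008009702))) 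
(.lf (nat_lit 603993495) (dlOf (nat_lit 1) (nat_lit 0x400400120018009902)))) (.nd (nat_lit 28) 
(.lf (nat_lit 201336599) (dlOf (nat_lit 1) (nat_lit 0x400200020008003c82))) 
(.lf (nat_lit 469772055) (dlOf (nat_lit 1) (nat_lit 0x400400040018003c82))))))) (.nd (nat_lit 30) 
(.nd (nat_lit 24) (.nd (nat_lit 26) (.nd (nat_lit 7) (.nd (nat_lit 21) 
(.lf (nat_lit 805838871) (dlOf (nat_lit 2) (nat_lit 0xd0200001040800f80080098002004200081c0983))) 
(.lf (nat_lit 2629655) (dlOf (nat_lit 4) (nat_lit 0x72a470000d01003152380002c08017291c0001404007c00200420008180382)))) 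
(.lf (nat_lit 537403543) (dlOf (nat_lit 1) (nat_lit 0x400400020008090182)))) (.nd (nat_lit 31) 
(.lf (nat_lit 4362608663) (dlOf (nat_lit 1) (nat_lit 0xc00180a0901))) 
(.lf (nat_lit 6510092311) (dlOf (nat_lit 1) (nat_lit 0x9200181c0481))))) (.nd (nat_lit 20) 
(.nd (nat_lit 9) 
(.lf (nat_lit 55058455) (dlOf (nat_lit 2) (nat_lit 0xb01e0000d00800400080008002000400096a0383))) 
(.lf (nat_lit 50864663) (dlOf (nat_lit 5) (nat_lit 0x1dbc3000cde10007c4100086f0c00437840017404002dbbb0017ddc8000ed08000767a000af080033bbb001addc80028c10010800800d4002000400094d8703)))) 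
(.nd (nat_lit 10) 
(.lf (nat_lit 24649751) (dlOf (nat_lit 2) (nat_lit 0x1f5848000c8080028008002000200120008bb0383))) 
(.lf (nat_lit 56108055) (dlOf (nat_lit 1) (nat_lit 0x20019732881)))))) (.nd (nat_lit 28) 
(.nd (nat_lit 26) (.nd (nat_lit 7) 
(.lf (nat_lit 5906112535) (dlOf (nat_lit 1) (nat_lit 0x9200181c0481))) 
(.lf (nat_lit 3892846743) (dlOf (nat_lit 1) (nat_lit 0x1800400060008280482)))) (.nd (nat_lit 27) 
(.lf (nat_lit 1678254103) (dlOf (nat_lit 2) (nat_lit 0xd0200001040800f80080098002004200081c0983))) 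
(.lf (nat_lit 3959955479) (dlOf (nat_lit 1) (nat_lit 0x8008000400200020008170003))))) 
(.nd (nat_lit 31) (.nd (nat_lit 7) 
(.lf (nat_lit 1345856023) (dlOf (nat_lit 1) (nat_lit 0x100008e07e01))) 
(.lf (nat_lit 1409818775) (dlOf (nat_lit 1) (nat_lit 0xd8008001c00200360008090183)))) 
(.nd (nat_lit 27) (.lf (nat_lit 3557302295) (dlOf (nat_lit 1) (nat_lit 0x34002001a00081b0402))) 
(.lf (nat_lit 4228390935) (dlOf (nat_lit 1) (nat_lit 0xc00180a0901)))))))) (.nd (nat_lit 19) 
(.nd (nat_lit 10) (.nd (nat_lit 22) (.nd (nat_lit 20) (.nd (nat_lit 21) 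
(.lf (nat_lit 1543544855) (dlOf (nat_lit 3) (nat_lit 0x9c05800520190026003001400000348a1000e805800740190031003001e800003486100030002001800080b0002))) 
(.lf (nat_lit 1881186327) (dlOf (nat_lit 1) (nat_lit 0x400400020008e40082)))) 
(.lf (nat_lit 17866775) (dlOf (nat_lit 1) (nat_lit 0x220008900a01)))) (.nd (nat_lit 8) 
(.nd (nat_lit 20) (.lf (nat_lit 14721047) (dlOf (nat_lit 2) (nat_lit 0x786800011a018770080))) 
(.lf (nat_lit 38838295) (dlOf (nat_lit 1) (nat_lit 0x20029170081)))) 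
(.lf (nat_lit 2755698967) (dlOf (nat_lit 2) (nat_lit 0x340b20003a8181b0480))))) (.nd (nat_lit 7) 
(.nd (nat_lit 11) (.lf (nat_lit 6039844119) (dlOf (nat_lit 1) (nat_lit 0x400200020008009702))) 
(.lf (nat_lit 134262039) (dlOf (nat_lit 1) (nat_lit 0x80028006701)))) (.nd (nat_lit 11) 
(.lf (nat_lit 51422359) (dlOf (nat_lit 1) (nat_lit 0x400200020009512b82))) 
(.lf (nat_lit 134266007) (dlOf (nat_lit 1) (nat_lit 0x80040004001800c202)))))) (.nd (nat_lit 26) 
(.nd (nat_lit 20) (.nd (nat_lit 21) (.nd (nat_lit 22) (.nd (nat_lit 27) 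
(.lf (nat_lit 805871639) (dlOf (nat_lit 12) (nat_lit 0x160220000d8080a481480118096126e0430065019800200b00006614285c088093004309ec01d8000c8183e901100c9407600031041336044074a02181e800ec000600c0d8805a0002f02010e02d000168100e602201ac00b400046080008088067802d000110200260220000840801a01100003e04023000201dc00081d0382))) 
(.lf (nat_lit 2819137559) (dlOf (nat_lit 2) (nat_lit 0x60350004f40800d00080180002005e00081a0483)))) 
(.lf (nat_lit 4759575) (dlOf (nat_lit 1) (nat_lit 0x4800282b0081)))) (.nd (nat_lit 23) 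
(.lf (nat_lit 36216855) (dlOf (nat_lit 1) (nat_lit 0x400400020009050082))) 
(.lf (nat_lit 11051031) (dlOf (nat_lit 7) (nat_lit 0x1f84b00127010040c25800930080b8e148004920401830a40024802000784b0012181009ec258008fc080058008008800200120008660483))))) 
(.nd (nat_lit 9) (.nd (nat_lit 21) (.nd (nat_lit 25) 
(.lf (nat_lit 3491274775) (dlOf (nat_lit 2) (nat_lit 0x707e80000004002000400100018080502))) 
(.lf (nat_lit 35168279) (dlOf (nat_lit 1) (nat_lit 0x400400020008ff0082)))) 
(.lf (nat_lit 12099607) (dlOf (nat_lit 1) (nat_lit 0x200286c0001)))) (.nd (nat_lit 22) 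
(.lf (nat_lit 1345888791) (dlOf (nat_lit 1) (nat_lit 0x40008e07e01))) 
(.lf (nat_lit 58237463) (dlOf (nat_lit 2) (nat_lit 0x813000074040020004000600097c7e02)))))) 
(.nd (nat_lit 27) (.nd (nat_lit 29) (.nd (nat_lit 7) 
(.lf (nat_lit 4362641431) (dlOf (nat_lit 4) (nat_lit 0x22a0320000d81002101900002c0800680c80000e04017c002001400080c0382))) 
(.lf (nat_lit 1409851543) (dlOf (nat_lit 1) (nat_lit 0x1000400020008090182)))) (.nd (nat_lit 20) 
(.lf (nat_lit 1678286871) (dlOf (nat_lit 12) (nat_lit 0x16022000078080a481480118096126e0430065019800200b00003614285c088093004309ec01d800068183e901100c9407600019041336044074a02181e800ec000300c0d8805a0001702010e02d0000a8100e602201ac00b400016080008088067802d000050200260220000240801a01100000e04023000201dc00081d0382))) 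
(.lf (nat_lit 2753077271) (dlOf (nat_lit 2) (nat_lit 0x7083c0000004002000400100018080502))))) 
(.nd (nat_lit 22) (.nd (nat_lit 30) 
(.lf (nat_lit 1007198231) (dlOf (nat_lit 1) (nat_lit 0x40028240481))) 
(.lf (nat_lit 4228423703) (dlOf (nat_lit 4) (nat_lit 0x22a0310001981002101880008c0800680c40003e04017c002001400080c0382)))) 
(.lf (nat_lit 474521623) (dlOf (nat_lit 1) (nat_lit 0x400291a0081)))))))) (.nd (nat_lit 15) 
(.nd (nat_lit 28) (.nd (nat_lit 32) (.nd (nat_lit 19) (.nd (nat_lit 23) (.nd (nat_lit 27) 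
(.nd (nat_lit 31) (.lf (nat_lit 1677991959) (dlOf (nat_lit 1) (nat_lit 0x420018130481))) 
(.lf (nat_lit 3825475607) (dlOf (nat_lit 1) (nat_lit 0x140008160481)))) 
(.lf (nat_lit 2349080599) (dlOf (nat_lit 1) (nat_lit 0x80080028002000600080a0903)))) 
(.nd (nat_lit 20) (.nd (nat_lit 21) 
(.lf (nat_lit 12853271) (dlOf (nat_lit 3) (nat_lit 0xa64000021010002320000000080038008004c002000c00086e0983))) 
(.lf (nat_lit 44310551) (dlOf (nat_lit 4) (nat_lit 0x23178000985000034080060c5e002a6140000582001c317800c185000014080070002000600092f0382)))) 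
(.lf (nat_lit 26484759) (dlOf (nat_lit 2) (nat_lit 0x2ce84003f004001c00200080008c50082))))) 
(.nd (nat_lit 8) (.nd (nat_lit 23) (.nd (nat_lit 20) 
(.lf (nat_lit 2819366935) (dlOf (nat_lit 1) (nat_lit 0x4000200020008250482))) 
(.lf (nat_lit 3940375) (dlOf (nat_lit 1) (nat_lit 0x20028250a01)))) (.nd (nat_lit 22) 
(.lf (nat_lit 42737687) (dlOf (nat_lit 1) (nat_lit 0x8008000400200020009280083))) 
(.lf (nat_lit 13377559) (dlOf (nat_lit 2) (nat_lit 0x8b440231604001400200060008720a82))))) 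
(.nd (nat_lit 10) (.lf (nat_lit 794903) (dlOf (nat_lit 1) (nat_lit 0x120008014001))) 
(.lf (nat_lit 19674391) (dlOf (nat_lit 1) (nat_lit 0x4002000200089d9702)))))) (.nd (nat_lit 8) 
(.nd (nat_lit 27) (.nd (nat_lit 26) 
(.lf (nat_lit 4295237655) (dlOf (nat_lit 2) (nat_lit 0x22026000190180c0380))) 
(.lf (nat_lit 5972959255) (dlOf (nat_lit 1) (nat_lit 0x200181d0601)))) (.nd (nat_lit 31) 
(.lf (nat_lit 4429455383) (dlOf (nat_lit 2) (nat_lit 0x220270000d0180c0380))) 
(.lf (nat_lit 6576939031) (dlOf (nat_lit 1) (nat_lit 0x200181d0601))))) (.nd (nat_lit 9) 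
(.nd (nat_lit 26) 
(.lf (nat_lit 5905850647) (dlOf (nat_lit 2) (nat_lit 0x30128000000800380080008002001a0008154003))) 
(.lf (nat_lit 6509830423) (dlOf (nat_lit 2) (nat_lit 0x30130000000800380080008002001a0008154003)))) 
(.lf (nat_lit 4899220247) (dlOf (nat_lit 1) (nat_lit 0x400280d5b81)))))) (.nd (nat_lit 30) 
(.nd (nat_lit 26) (.nd (nat_lit 27) (.nd (nat_lit 29) 
(.lf (nat_lit 2416189463) (dlOf (nat_lit 1) (nat_lit 0x8008000400200060008090003))) 
(.lf (nat_lit 805576727) (dlOf (nat_lit 1) (nat_lit 0x420018130481)))) 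
(.lf (nat_lit 3087278103) (dlOf (nat_lit 1) (nat_lit 0x140008160481)))) (.nd (nat_lit 27) 
(.lf (nat_lit 2483298327) (dlOf (nat_lit 1) (nat_lit 0x80080028002000600080a0903))) 
(.lf (nat_lit 470032407) (dlOf (nat_lit 1) (nat_lit 0x18008001800200060008030883))))) 
(.nd (nat_lit 19) (.nd (nat_lit 7) (.nd (nat_lit 22) 
(.lf (nat_lit 1342447639) (dlOf (nat_lit 1) (nat_lit 0x18008001800200060008030883))) 
(.lf (nat_lit 3494125591) (dlOf (nat_lit 1) (nat_lit 0x200081b0001)))) 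
(.lf (nat_lit 1346643095) (dlOf (nat_lit 2) (nat_lit 0x10558000f204000400400020018fe2b82)))) 
(.nd (nat_lit 21) (.nd (nat_lit 26) 
(.lf (nat_lit 5773205527) (dlOf (nat_lit 1) (nat_lit 0x8002003000080b0082))) 
(.lf (nat_lit 6377185303) (dlOf (nat_lit 1) (nat_lit 0x8002003000080b0082)))) 
(.lf (nat_lit 1346117655) (dlOf (nat_lit 1) (nat_lit 0x400200020008e50602))))))) (.nd (nat_lit 20) 
(.nd (nat_lit 29) (.nd (nat_lit 27) (.nd (nat_lit 22) (.nd (nat_lit 21) 
(.lf (nat_lit 17080343) (dlOf (nat_lit 1) (nat_lit 0x4002000200088e0002))) 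
(.lf (nat_lit 44343319) (dlOf (nat_lit 4) (nat_lit 0x198bc0003404003cc5e001a6140000582000d3178005985000014080004004002000192f0382)))) 
(.nd (nat_lit 19) 
(.lf (nat_lit 12886039) (dlOf (nat_lit 1) (nat_lit 0x280080004002000400086e0983))) 
(.lf (nat_lit 5021719) (dlOf (nat_lit 1) (nat_lit 0x200082f0481))))) (.nd (nat_lit 7) 
(.nd (nat_lit 8) (.lf (nat_lit 3422855191) (dlOf (nat_lit 1) (nat_lit 0x20028120481))) 
(.lf (nat_lit 135045399) (dlOf (nat_lit 2) (nat_lit 0x9816c00124040010004008c00181b0482)))) 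
(.lf (nat_lit 4697923991) (dlOf (nat_lit 3) (nat_lit 0xd00f00304c0800180b8001403c00c1204000a00280c6481))))) 
(.nd (nat_lit 28) (.nd (nat_lit 8) (.nd (nat_lit 10) 
(.lf (nat_lit 3758399511) (dlOf (nat_lit 15) (nat_lit 0x2d0060004c022000af8200b5018000a80ac00300480108022000af0400b6018004580ac0190048002c022000ae0400a4018000f0088002b408060407a05cc03002ee015801a80a40b7404805a602202a70098005643804f80c00170056008802400490110005602005880c001b405600b0024005a01100055c2005a00c0010c04800d0022000ab0300370110005140801280c000140560054022000a20300380180004dc0801500c0000c0560036024000c0110004d82000380c000780440013404000c0320056018001980b8012804e008402200000058170080))) 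
(.lf (nat_lit 2751767575) (dlOf (nat_lit 1) (nat_lit 0x400200020008002882)))) 
(.lf (nat_lit 3892617495) (dlOf (nat_lit 3) (nat_lit 0xa0470032a0100010238019480800480080008002000a0008160703)))) 
(.nd (nat_lit 26) (.nd (nat_lit 31) 
(.lf (nat_lit 1879351319) (dlOf (nat_lit 2) (nat_lit 0xe0dc000190180f0380))) 
(.lf (nat_lit 4026834967) (dlOf (nat_lit 1) (nat_lit 0xc00400040008090002)))) 
(.lf (nat_lit 1006936087) (dlOf (nat_lit 2) (nat_lit 0xe0dc0000d0180f0380)))))) (.nd (nat_lit 19) 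
(.nd (nat_lit 21) (.nd (nat_lit 22) 
(.lf (nat_lit 26517527) (dlOf (nat_lit 2) (nat_lit 0x7ac1500126018c50080))) 
(.lf (nat_lit 22323223) (dlOf (nat_lit 2) (nat_lit 0x2013b00023018ac0180)))) (.nd (nat_lit 9) 
(.lf (nat_lit 32808983) (dlOf (nat_lit 1) (nat_lit 0x8008000c00200020008f20603))) 
(.lf (nat_lit 1345628695) (dlOf (nat_lit 2) (nat_lit 0x102d8000240200020028dd5081))))) 
(.nd (nat_lit 7) (.nd (nat_lit 22) (.nd (nat_lit 23) 
(.lf (nat_lit 1346150423) (dlOf (nat_lit 2) (nat_lit 0x140e6001e70200020028e60081))) 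
(.lf (nat_lit 45916183) (dlOf (nat_lit 1) (nat_lit 0x400400020009370602)))) 
(.lf (nat_lit 24944663) (dlOf (nat_lit 1) (nat_lit 0xc00200020008bd0a02)))) 
(.lf (nat_lit 1876119) (dlOf (nat_lit 1) (nat_lit 0x400400020008150182)))))))) (.nd (nat_lit 8) 
(.nd (nat_lit 15) (.nd (nat_lit 18) (.nd (nat_lit 7) (.nd (nat_lit 21) (.nd (nat_lit 22) 
(.nd (nat_lit 10) (.nd (nat_lit 26) 
(.lf (nat_lit 134750295) (dlOf (nat_lit 1) (nat_lit 0x18002000600080a1102))) 
(.lf (nat_lit 201859159) (dlOf (nat_lit 1) (nat_lit 0x18002000600080a1102)))) 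
(.lf (nat_lit 3691000919) (dlOf (nat_lit 1) (nat_lit 0xc0008009381)))) (.nd (nat_lit 24) 
(.lf (nat_lit 4726871) (dlOf (nat_lit 2) (nat_lit 0x10c620003402000400182b0801))) 
(.lf (nat_lit 21504087) (dlOf (nat_lit 1) (nat_lit 0x78008005c00200020008a40603))))) 
(.nd (nat_lit 9) (.nd (nat_lit 20) 
(.lf (nat_lit 2754093143) (dlOf (nat_lit 1) (nat_lit 0x200180c1a81))) 
(.lf (nat_lit 3678295) (dlOf (nat_lit 1) (nat_lit 0x400400020018211102)))) (.nd (nat_lit 19) 
(.lf (nat_lit 53488215) (dlOf (nat_lit 1) (nat_lit 0x200295f5301))) 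
(.lf (nat_lit 472394327) (dlOf (nat_lit 1) (nat_lit 0x74004002e0008985302)))))) (.nd (nat_lit 10) 
(.nd (nat_lit 9) (.lf (nat_lit 18882775) (dlOf (nat_lit 1) (nat_lit 0xa0008970501))) 
(.nd (nat_lit 19) (.nd (nat_lit 23) 
(.lf (nat_lit 603992791) (dlOf (nat_lit 1) (nat_lit 0x20028008c81))) 
(.lf (nat_lit 8401623) (dlOf (nat_lit 1) (nat_lit 0x400200020008518c82)))) 
(.lf (nat_lit 537303) (dlOf (nat_lit 1) (nat_lit 0x400200020008008c82))))) (.nd (nat_lit 11) 
(.nd (nat_lit 19) 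
(.lf (nat_lit 5502936279) (dlOf (nat_lit 2) (nat_lit 0x210090000000800300080008002001c0008002d83))) 
(.lf (nat_lit 61351127) (dlOf (nat_lit 2) (nat_lit 0x1437e0020194000f0270000ec180140008000c002000c0009922d83)))) 
(.nd (nat_lit 27) (.lf (nat_lit 1342192855) (dlOf (nat_lit 1) (nat_lit 0x480020014000800c382))) 
(.lf (nat_lit 134233303) (dlOf (nat_lit 1) (nat_lit 0x2001800c381))))))) (.nd (nat_lit 9) 
(.nd (nat_lit 26) (.nd (nat_lit 23) (.nd (nat_lit 10) 
(.lf (nat_lit 402923607) (dlOf (nat_lit 1) (nat_lit 0x8c002000200080b0702))) 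
(.lf (nat_lit 2818849879) (dlOf (nat_lit 4) (nat_lit 0xf00d80002604009806c0000b02007e036000f0110000001002d0008006c002008e000812bf83)))) 
(.nd (nat_lit 19) (.lf (nat_lit 26484823) (dlOf (nat_lit 1) (nat_lit 0x800200020008c50802))) 
(.lf (nat_lit 59514967) (dlOf (nat_lit 2) (nat_lit 0x1267b000f2c90001934c0004a0c000800400260019800802))))) 
(.nd (nat_lit 27) (.nd (nat_lit 31) 
(.lf (nat_lit 335814743) (dlOf (nat_lit 1) (nat_lit 0x8c002000200080b0702))) 
(.lf (nat_lit 2483298391) (dlOf (nat_lit 2) (nat_lit 0x2f00a000040040030002001800080a1102)))) 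
(.lf (nat_lit 2349080663) (dlOf (nat_lit 2) (nat_lit 0x2f00a000014040030002001800080a1102))))) 
(.nd (nat_lit 7) (.nd (nat_lit 19) (.nd (nat_lit 22) 
(.lf (nat_lit 1881418327) (dlOf (nat_lit 1) (nat_lit 0x20018f05301))) 
(.lf (nat_lit 31730263) (dlOf (nat_lit 1) (nat_lit 0x400200020008e95302)))) 
(.lf (nat_lit 44837463) (dlOf (nat_lit 1) (nat_lit 0x20009325301)))) (.nd (nat_lit 11) 
(.nd (nat_lit 20) (.lf (nat_lit 19673815) (dlOf (nat_lit 1) (nat_lit 0x200189d8c81))) 
(.lf (nat_lit 8139479) (dlOf (nat_lit 1) (nat_lit 0x8008000400200020008518c83)))) 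
(.lf (nat_lit 20200151) (dlOf (nat_lit 1) (nat_lit 0x4002000200089db982))))))) (.nd (nat_lit 7) 
(.nd (nat_lit 29) (.nd (nat_lit 9) (.nd (nat_lit 19) (.nd (nat_lit 18) 
(.lf (nat_lit 10526807) (dlOf (nat_lit 1) (nat_lit 0x4004000200085f1782))) 
(.lf (nat_lit 9740375) (dlOf (nat_lit 2) (nat_lit 0x25a3b002acee00011c1000c8008013c00200060008580603)))) 
(.nd (nat_lit 20) 
(.lf (nat_lit 21536855) (dlOf (nat_lit 3) (nat_lit 0x7b7340004c020027daa0014ed300010010014800800a0002005e0008a40603))) 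
(.lf (nat_lit 1343791191) (dlOf (nat_lit 1) (nat_lit 0xc00200020008370302))))) (.nd (nat_lit 18) 
(.lf (nat_lit 41986647) (dlOf (nat_lit 1) (nat_lit 0x100019245301))) (.nd (nat_lit 19) 
(.lf (nat_lit 45394519) (dlOf (nat_lit 1) (nat_lit 0x20019325301))) 
(.lf (nat_lit 44870231) (dlOf (nat_lit 1) (nat_lit 0x900009325301)))))) (.nd (nat_lit 26) 
(.nd (nat_lit 10) (.nd (nat_lit 18) 
(.lf (nat_lit 1611178071) (dlOf (nat_lit 1) (nat_lit 0x7000200200008101782))) 
(.lf (nat_lit 3758399575) (dlOf (nat_lit 2) (nat_lit 0x603000017818170800)))) 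
(.lf (nat_lit 2952838231) (dlOf (nat_lit 2) (nat_lit 0x5e01c0003601800bf80)))) (.nd (nat_lit 10) 
(.nd (nat_lit 18) 
(.lf (nat_lit 3154681943) (dlOf (nat_lit 13) (nat_lit 0x2780b4004000300150010000a01804d016800c400600300020001303009902d000a000c0003e08019c0b40001e02013c05a00150018000741001b0168000380402380b4004c0030000d82009802d00003c0804b016800540060000e04000605a000500180002410045016800240000000304011e05a00140018000001001e800802a4002009e0008310303))) 
(.lf (nat_lit 5167685719) (dlOf (nat_lit 2) (nat_lit 0xb00500008204000800200020008100602)))) 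
(.lf (nat_lit 604027991) (dlOf (nat_lit 1) (nat_lit 0x8001800bf81)))))) (.nd (nat_lit 11) 
(.nd (nat_lit 26) (.nd (nat_lit 9) (.nd (nat_lit 22) 
(.lf (nat_lit 671129815) (dlOf (nat_lit 2) (nat_lit 0x2800000102040004002000600080b0482))) 
(.lf (nat_lit 3493896407) (dlOf (nat_lit 2) (nat_lit 0x1720d30004a0181b0480)))) 
(.lf (nat_lit 8434391) (dlOf (nat_lit 1) (nat_lit 0x400200020008518c82)))) (.nd (nat_lit 9) 
(.nd (nat_lit 22) 
(.lf (nat_lit 1543545047) (dlOf (nat_lit 2) (nat_lit 0x2800000102040004002000600080b0482))) 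
(.lf (nat_lit 2755698903) (dlOf (nat_lit 2) (nat_lit 0x24305900000c0801500080054002004a00081b0483)))) 
(.lf (nat_lit 604025559) (dlOf (nat_lit 1) (nat_lit 0x400200020008008c82))))) (.nd (nat_lit 10) 
(.nd (nat_lit 18) (.nd (nat_lit 20) 
(.lf (nat_lit 67156695) (dlOf (nat_lit 1) (nat_lit 0x4001800b981))) 
(.lf (nat_lit 19970775) (dlOf (nat_lit 1) (nat_lit 0x1980080004002003e00089db983)))) 
(.lf (nat_lit 20232919) (dlOf (nat_lit 1) (nat_lit 0x200189db981)))) (.nd (nat_lit 9) 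
(.lf (nat_lit 3624185047) (dlOf (nat_lit 1) (nat_lit 0x25c0028146481))) (.nd (nat_lit 26) 
(.lf (nat_lit 1342222039) (dlOf (nat_lit 1) (nat_lit 0x400400020008007382))) 
(.lf (nat_lit 4227903191) (dlOf (nat_lit 1) (nat_lit 0x20008007381))))))))) (.nd (nat_lit 30) 
(.nd (nat_lit 15) (.nd (nat_lit 10) (.nd (nat_lit 7) (.nd (nat_lit 12) (.nd (nat_lit 18) 
(.lf (nat_lit 1057111) (dlOf (nat_lit 1) (nat_lit 0x80008068b01))) 
(.lf (nat_lit 794967) (dlOf (nat_lit 2) (nat_lit 0x7154c000590200400018014e01)))) 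
(.lf (nat_lit 19935575) (dlOf (nat_lit 1) (nat_lit 0x28008000c002000200089d8383)))) 
(.nd (nat_lit 9) (.lf (nat_lit 40903127) (dlOf (nat_lit 1) (nat_lit 0x400400060019207b02))) 
(.nd (nat_lit 18) (.lf (nat_lit 44573655) (dlOf (nat_lit 1) (nat_lit 0x20029322881))) 
(.lf (nat_lit 2885952471) (dlOf (nat_lit 1) (nat_lit 0x20028142881)))))) (.nd (nat_lit 19) 
(.nd (nat_lit 12) (.nd (nat_lit 27) 
(.lf (nat_lit 4294978903) (dlOf (nat_lit 1) (nat_lit 0x400400020008006a82))) 
(.lf (nat_lit 2550148439) (dlOf (nat_lit 1) (nat_lit 0xc00400020008006a82)))) 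
(.lf (nat_lit 134233431) (dlOf (nat_lit 1) (nat_lit 0x4000800040020004000800c903)))) 
(.nd (nat_lit 11) 
(.lf (nat_lit 1008215383) (dlOf (nat_lit 2) (nat_lit 0x7837c0002604003800400660018b03382))) 
(.lf (nat_lit 20458839) (dlOf (nat_lit 1) (nat_lit 0x600289d6a81)))))) (.nd (nat_lit 18) 
(.nd (nat_lit 21) (.nd (nat_lit 11) 
(.lf (nat_lit 3154682199) (dlOf (nat_lit 1) (nat_lit 0x600008310881))) 
(.lf (nat_lit 2348853591) (dlOf (nat_lit 2) (nat_lit 0x2202800013018004e00)))) (.nd (nat_lit 20) 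
(.lf (nat_lit 10527063) (dlOf (nat_lit 1) (nat_lit 0x400185f8b01))) 
(.lf (nat_lit 3187031) (dlOf (nat_lit 2) (nat_lit 0x2451100007018200680))))) (.nd (nat_lit 20) 
(.nd (nat_lit 7) (.lf (nat_lit 537174359) (dlOf (nat_lit 1) (nat_lit 0x180028048b01))) 
(.lf (nat_lit 2751767511) (dlOf (nat_lit 1) (nat_lit 0x20018002881)))) (.nd (nat_lit 12) 
(.lf (nat_lit 57975255) (dlOf (nat_lit 1) (nat_lit 0x8008002c002002800097a7b03))) 
(.lf (nat_lit 8171991) (dlOf (nat_lit 1) (nat_lit 0x60028518681))))))) (.nd (nat_lit 10) 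
(.nd (nat_lit 18) (.nd (nat_lit 7) (.nd (nat_lit 11) 
(.lf (nat_lit 1476407639) (dlOf (nat_lit 1) (nat_lit 0x80018008381))) 
(.lf (nat_lit 4026575191) (dlOf (nat_lit 1) (nat_lit 0x400400020008004e02)))) (.nd (nat_lit 9) 
(.nd (nat_lit 11) (.lf (nat_lit 1409819095) (dlOf (nat_lit 1) (nat_lit 0x1040008090b01))) 
(.lf (nat_lit 1946167767) (dlOf (nat_lit 1) (nat_lit 0x440028004e81)))) 
(.lf (nat_lit 1073750999) (dlOf (nat_lit 1) (nat_lit 0x80018002881))))) (.nd (nat_lit 7) 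
(.nd (nat_lit 26) 
(.lf (nat_lit 3221528919) (dlOf (nat_lit 8) (nat_lit 0x4dc0140006402026e00a000318100010050001800801e813c008409a025a00a0002203002400500010c08005813c009409a025e00a000210300050138000e0080380008000800200420008124d03))) 
(.lf (nat_lit 3959726423) (dlOf (nat_lit 6) (nat_lit 0xbe00a000320100210050001880803c8028000c204004809e015600a000200200800050000fc080760008010000200080008124e03)))) 
(.nd (nat_lit 9) (.nd (nat_lit 11) 
(.lf (nat_lit 5772681687) (dlOf (nat_lit 1) (nat_lit 0x400400020008091202))) 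
(.lf (nat_lit 3624151511) (dlOf (nat_lit 1) (nat_lit 0xe0028144e81)))) 
(.lf (nat_lit 3557045207) (dlOf (nat_lit 2) (nat_lit 0x12039003d80fc00986080034004004a0008129202)))))) 
(.nd (nat_lit 12) (.nd (nat_lit 18) (.nd (nat_lit 15) (.nd (nat_lit 29) 
(.lf (nat_lit 3489672535) (dlOf (nat_lit 1) (nat_lit 0x400400020008006a82))) 
(.lf (nat_lit 1879059799) (dlOf (nat_lit 1) (nat_lit 0x20008006a81)))) 
(.lf (nat_lit 3490229591) (dlOf (nat_lit 1) (nat_lit 0x400200020008006a82)))) (.nd (nat_lit 15) 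
(.nd (nat_lit 27) (.lf (nat_lit 3221499223) (dlOf (nat_lit 1) (nat_lit 0x60018116a81))) 
(.lf (nat_lit 3624152407) (dlOf (nat_lit 1) (nat_lit 0x40018146a81)))) 
(.lf (nat_lit 3489967447) (dlOf (nat_lit 1) (nat_lit 0xa0028006a81))))) (.nd (nat_lit 31) 
(.nd (nat_lit 9) (.lf (nat_lit 1342192983) (dlOf (nat_lit 1) (nat_lit 0x4004000e001800c902))) 
(.lf (nat_lit 1342191447) (dlOf (nat_lit 1) (nat_lit 0x40040002001800a282)))) (.nd (nat_lit 7) 
(.lf (nat_lit 3691001687) (dlOf (nat_lit 1) (nat_lit 0x40040002000800a282))) 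
(.lf (nat_lit 3221272535) (dlOf (nat_lit 2) (nat_lit 0x40230015b408004000800080020002000800a603)))))))))) 
(.nd (nat_lit 15) (.nd (nat_lit 19) (.nd (nat_lit 18) (.nd (nat_lit 6) (.nd (nat_lit 26) 
(.nd (nat_lit 11) (.nd (nat_lit 20) (.nd (nat_lit 23) 
(.lf (nat_lit 2952929303) (dlOf (nat_lit 2) (nat_lit 0x94000000aa018030080))) 
(.lf (nat_lit 25305111) (dlOf (nat_lit 2) (nat_lit 0x3186d0046d018bf0880)))) 
(.lf (nat_lit 47325207) (dlOf (nat_lit 4) (nat_lit 0x14bc400065d48000c810004af1000257520002304001ebc4000d5d48000881000280080070002000800093d0383)))) 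
(.nd (nat_lit 7) (.lf (nat_lit 537016343) (dlOf (nat_lit 1) (nat_lit 0x4001800a601))) 
(.nd (nat_lit 8) 
(.lf (nat_lit 805452951) (dlOf (nat_lit 1) (nat_lit 0xc000800400020002000811c203))) 
(.lf (nat_lit 3221368215) (dlOf (nat_lit 1) (nat_lit 0x2800400020008116d02)))))) (.nd (nat_lit 27) 
(.nd (nat_lit 21) (.nd (nat_lit 28) 
(.lf (nat_lit 5435957271) (dlOf (nat_lit 5) (nat_lit 0x100740012035003eb82000701d000280d400fac08001c07e000e03e000b01d000400d400faa10001c07c001603a000801a801f50180050008001400200020008060a03))) 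
(.lf (nat_lit 2483167255) (dlOf (nat_lit 1) (nat_lit 0x400400020018050482)))) 
(.lf (nat_lit 69345303) (dlOf (nat_lit 1) (nat_lit 0x800800c800200420008940083)))) (.nd (nat_lit 7) 
(.nd (nat_lit 28) (.lf (nat_lit 2348949527) (dlOf (nat_lit 1) (nat_lit 0x400400020018050482))) 
(.lf (nat_lit 5301739543) (dlOf (nat_lit 5) (nat_lit 0x100740012037006a902000701d000280dc01aa208001c07e000e03e000b01d000400dc01aa010001c07c001603a000801b80353c180050008001400200020008060a03)))) 
(.lf (nat_lit 2617390231) (dlOf (nat_lit 3) (nat_lit 0x202e00010090013a41000c00b8009b0040054004001a00080a9502)))))) 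
(.nd (nat_lit 28) (.nd (nat_lit 8) (.nd (nat_lit 7) 
(.lf (nat_lit 1610753623) (dlOf (nat_lit 1) (nat_lit 0x400200020008093882))) (.nd (nat_lit 9) 
(.lf (nat_lit 3221372119) (dlOf (nat_lit 2) (nat_lit 0x9401c0007b020002001811c381))) 
(.lf (nat_lit 8532695) (dlOf (nat_lit 1) (nat_lit 0x400200020008518c82))))) (.nd (nat_lit 21) 
(.lf (nat_lit 671228887) (dlOf (nat_lit 1) (nat_lit 0x7400200020008142882))) 
(.lf (nat_lit 39986135) (dlOf (nat_lit 1) (nat_lit 0x4004000200091f2882))))) (.nd (nat_lit 7) 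
(.nd (nat_lit 8) (.nd (nat_lit 26) 
(.lf (nat_lit 2952929367) (dlOf (nat_lit 1) (nat_lit 0x8008000400200020008030803))) 
(.lf (nat_lit 5167521879) (dlOf (nat_lit 1) (nat_lit 0x400400020008080602)))) 
(.lf (nat_lit 1946296663) (dlOf (nat_lit 1) (nat_lit 0x20028014d01)))) (.nd (nat_lit 8) 
(.lf (nat_lit 5637285079) (dlOf (nat_lit 1) (nat_lit 0x1c004000400080d2d82))) 
(.lf (nat_lit 5637285335) (dlOf (nat_lit 1) (nat_lit 0x8004000200080d3602))))))) (.nd (nat_lit 27) 
(.nd (nat_lit 20) (.nd (nat_lit 6) (.nd (nat_lit 28) (.nd (nat_lit 21) 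
(.lf (nat_lit 1678123031) (dlOf (nat_lit 1) (nat_lit 0x3800080004002000c0008190503))) 
(.lf (nat_lit 15081495) (dlOf (nat_lit 2) (nat_lit 0x31f5c000be04001c002002800087b0482)))) 
(.nd (nat_lit 29) 
(.lf (nat_lit 4563804183) (dlOf (nat_lit 3) (nat_lit 0x3f40660002f02009c033000168180e0380))) 
(.lf (nat_lit 805707799) (dlOf (nat_lit 1) (nat_lit 0x3800080004002000c0008190503))))) 
(.nd (nat_lit 7) (.nd (nat_lit 21) 
(.lf (nat_lit 29761623) (dlOf (nat_lit 1) (nat_lit 0x20018e30301))) 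
(.lf (nat_lit 1881546839) (dlOf (nat_lit 1) (nat_lit 0x300080014002000a0008f40803)))) 
(.lf (nat_lit 2483429591) (dlOf (nat_lit 1) (nat_lit 0x1e00281b0481))))) (.nd (nat_lit 21) 
(.nd (nat_lit 6) (.nd (nat_lit 23) 
(.lf (nat_lit 68558871) (dlOf (nat_lit 1) (nat_lit 0x14004000200185b0582))) 
(.lf (nat_lit 26615831) (dlOf (nat_lit 3) (nat_lit 0xbac0a0024c0200253a1000fc018c50080)))) 
(.lf (nat_lit 26615895) (dlOf (nat_lit 1) (nat_lit 0x3c00200160008c50802)))) (.nd (nat_lit 6) 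
(.nd (nat_lit 7) (.lf (nat_lit 62267415) (dlOf (nat_lit 1) (nat_lit 0x2000400020009990182))) 
(.lf (nat_lit 11935895) (dlOf (nat_lit 1) (nat_lit 0x1400086c0181)))) 
(.lf (nat_lit 20331223) (dlOf (nat_lit 1) (nat_lit 0x200189db981)))))) (.nd (nat_lit 26) 
(.nd (nat_lit 8) (.nd (nat_lit 28) (.nd (nat_lit 29) 
(.lf (nat_lit 3355844631) (dlOf (nat_lit 10) (nat_lit 0x16c0180008f4080cf00c0004780400b80600023a0200aa0300011981009601980e300c008040580023206005403301e101800c600b00044020002310800a0030001158100760000007cc0808a80d008e005c001d204001e0008120481))) 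
(.lf (nat_lit 3892715543) (dlOf (nat_lit 4) (nat_lit 0x130168017a604003c05800baa02003202c005d48181d0480)))) 
(.lf (nat_lit 4698021911) (dlOf (nat_lit 3) (nat_lit 0x3f40660001702009c0330000a8180e0380)))) 
(.nd (nat_lit 6) 
(.lf (nat_lit 2818973975) (dlOf (nat_lit 3) (nat_lit 0x3000000a04040004000005000200020008130701))) 
(.lf (nat_lit 3624283479) (dlOf (nat_lit 1) (nat_lit 0x800400280008146a82))))) (.nd (nat_lit 6) 
(.nd (nat_lit 7) 
(.lf (nat_lit 1008082967) (dlOf (nat_lit 1) (nat_lit 0x180080004002000200089c0083))) 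
(.lf (nat_lit 1009132695) (dlOf (nat_lit 2) (nat_lit 0x201c2001407400070398002141800380080088002005c0009082b83)))) 
(.nd (nat_lit 7) 
(.lf (nat_lit 4496695383) (dlOf (nat_lit 2) (nat_lit 0x13c068001803300e70190000c8180368008017800200500008120603))) 
(.nd (nat_lit 8) (.lf (nat_lit 2349211863) (dlOf (nat_lit 1) (nat_lit 0x1e00281b0481))) 
(.lf (nat_lit 1009132503) (dlOf (nat_lit 1) (nat_lit 0xa60009082881))))))))) (.nd (nat_lit 21) 
(.nd (nat_lit 26) (.nd (nat_lit 29) (.nd (nat_lit 22) (.nd (nat_lit 6) (.nd (nat_lit 20) 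
(.lf (nat_lit 134881303) (dlOf (nat_lit 2) (nat_lit 0x1804c00000040028002008000080d0882))) 
(.lf (nat_lit 10100759) (dlOf (nat_lit 1) (nat_lit 0x80080004002000200085b0483)))) 
(.lf (nat_lit 5772025943) (dlOf (nat_lit 3) (nat_lit 0xa0280002a81000500c0001000800c0008003400200140008040603)))) 
(.nd (nat_lit 18) (.nd (nat_lit 20) 
(.lf (nat_lit 30023703) (dlOf (nat_lit 1) (nat_lit 0x400200020008e30002))) 
(.lf (nat_lit 22683671) (dlOf (nat_lit 2) (nat_lit 0xede20009ac08015800800ac002000a0008b10503)))) 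
(.lf (nat_lit 13508631) (dlOf (nat_lit 1) (nat_lit 0x20008730881))))) (.nd (nat_lit 6) 
(.nd (nat_lit 18) (.nd (nat_lit 27) 
(.lf (nat_lit 537534487) (dlOf (nat_lit 2) (nat_lit 0x102e80719c0801f0008005c002004e00080a0903))) 
(.lf (nat_lit 2819235863) (dlOf (nat_lit 1) (nat_lit 0x400400020008200482)))) 
(.lf (nat_lit 2819498007) (dlOf (nat_lit 16) (nat_lit 0x4c0de0005f0201000360011016006b8088000b80c019006c01320220002d82006601b000880b002cc0440005a060034078000e039009601a800540bc000404b002301f8001543000481a800c40d2000540400260780030039009581a800f80d2007205e003402e800b012c008407e008e0360002909001803c000e01c804780d4004a05e003301f8001442801401a8000980400a80f0008e0720001038809c81a801080d2008205e004002e800e012c00cc07e0004b1200260360001e81001401b0000e00808b81a80006604045c0d40003002002a036000701600000c10012000800c4002000c00082b0403)))) 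
(.nd (nat_lit 7) (.lf (nat_lit 805970007) (dlOf (nat_lit 1) (nat_lit 0x10002000e0008201782))) 
(.lf (nat_lit 537796823) (dlOf (nat_lit 2) (nat_lit 0xca0330004a0181b0480)))))) (.nd (nat_lit 27) 
(.nd (nat_lit 18) (.nd (nat_lit 28) 
(.lf (nat_lit 4362739735) (dlOf (nat_lit 2) (nat_lit 0xa027801c240800a8008001c002001000080e0a03))) 
(.lf (nat_lit 1409949719) (dlOf (nat_lit 2) (nat_lit 0x102e8064680801f0008005c002004e00080a0903)))) 
(.nd (nat_lit 6) (.nd (nat_lit 31) 
(.lf (nat_lit 1410211863) (dlOf (nat_lit 1) (nat_lit 0x11800081b0001))) 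
(.lf (nat_lit 3557695511) (dlOf (nat_lit 16) (nat_lit 0x4c0de0005f0201000380011016006b8088000b80c019007001320220002d82006601c000880b002cc0440005a060034078000e0390096018400540bc0004042002301f80015430004818400c40c00005404002607800300390095818400f80c0007205e003402e800b0108008407e008e0380002909001803c000e01c804780c2004a05e003301f800144280140184000980400a80f0008e0720001038809c818401080c0008205e004002e800e010800cc07e0004b1200260380001e81001401c0000e00808b81840006604045c0c20003002002a038000701600000c10012000800c4002000c00082b0403)))) 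
(.lf (nat_lit 1410212055) (dlOf (nat_lit 2) (nat_lit 0xca0330004a0181b0480))))) (.nd (nat_lit 6) 
(.nd (nat_lit 28) 
(.lf (nat_lit 201990167) (dlOf (nat_lit 2) (nat_lit 0x1804c00000040028002008000080d0882))) 
(.nd (nat_lit 30) 
(.lf (nat_lit 3154780183) (dlOf (nat_lit 2) (nat_lit 0x3f0000000000200220008320881))) 
(.lf (nat_lit 4228522007) (dlOf (nat_lit 2) (nat_lit 0xa0240032d80800a8008001c002001000080e0a03))))) 
(.nd (nat_lit 7) 
(.lf (nat_lit 6376005719) (dlOf (nat_lit 3) (nat_lit 0xa0280002e01000500c00011c0800c0008003400200140008040603))) 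
(.lf (nat_lit 471741143) (dlOf (nat_lit 1) (nat_lit 0xa00283d8c81))))))) (.nd (nat_lit 18) 
(.nd (nat_lit 28) (.nd (nat_lit 24) (.nd (nat_lit 20) (.nd (nat_lit 23) 
(.lf (nat_lit 36315159) (dlOf (nat_lit 1) (nat_lit 0x20019070001))) 
(.lf (nat_lit 11149335) (dlOf (nat_lit 5) (nat_lit 0x1ac1000466040014ab600232020010b0400062ad8008c410003156c003a404005800400060008660482)))) 
(.nd (nat_lit 23) 
(.lf (nat_lit 2755272727) (dlOf (nat_lit 2) (nat_lit 0x500e800798080028008005c002001e0008140a83))) 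
(.lf (nat_lit 45752343) (dlOf (nat_lit 1) (nat_lit 0x30008001000200020009360083))))) 
(.nd (nat_lit 6) (.nd (nat_lit 20) 
(.lf (nat_lit 19537943) (dlOf (nat_lit 1) (nat_lit 0x400189c0401))) (.nd (nat_lit 22) 
(.lf (nat_lit 54140951) (dlOf (nat_lit 1) (nat_lit 0x400400120019630082))) 
(.lf (nat_lit 24780823) (dlOf (nat_lit 2) (nat_lit 0x12b0900019018bb0380))))) 
(.lf (nat_lit 28975319) (dlOf (nat_lit 1) (nat_lit 0x18008000400200120008da0503))))) 
(.nd (nat_lit 26) (.nd (nat_lit 6) (.nd (nat_lit 20) 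
(.lf (nat_lit 1344938007) (dlOf (nat_lit 1) (nat_lit 0x8008042400200ac00089a0083))) 
(.lf (nat_lit 3493470231) (dlOf (nat_lit 2) (nat_lit 0x500e8007e0080028008005c002001e0008140a83)))) 
(.lf (nat_lit 1345989079) (dlOf (nat_lit 2) (nat_lit 0x1c1b200c110200020018e24e81)))) 
(.nd (nat_lit 6) (.nd (nat_lit 9) 
(.lf (nat_lit 472522775) (dlOf (nat_lit 4) (nat_lit 0x1c05e000584080020490001a80400842c60008e02000200289b0601))) 
(.lf (nat_lit 473571863) (dlOf (nat_lit 4) (nat_lit 0x5c2320028118000a0000007c41800d846400040ae000e000000ba03000708d800000080240008000c00200040008f68703)))) 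
(.lf (nat_lit 473571799) (dlOf (nat_lit 2) (nat_lit 0x1022e000f10200020018f67b01)))))) 
(.nd (nat_lit 7) (.nd (nat_lit 6) (.nd (nat_lit 9) (.nd (nat_lit 22) 
(.lf (nat_lit 28188695) (dlOf (nat_lit 1) (nat_lit 0x160018d70481))) 
(.lf (nat_lit 15605783) (dlOf (nat_lit 2) (nat_lit 0x393a00004804001c00400240018810402)))) 
(.lf (nat_lit 8267287) (dlOf (nat_lit 1) (nat_lit 0x20028513701)))) (.nd (nat_lit 9) 
(.nd (nat_lit 8) (.lf (nat_lit 2754489431) (dlOf (nat_lit 1) (nat_lit 0x1e00180f6081))) 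
(.lf (nat_lit 19807575) (dlOf (nat_lit 1) (nat_lit 0x400289dc901)))) (.nd (nat_lit 20) 
(.lf (nat_lit 36579927) (dlOf (nat_lit 1) (nat_lit 0x400400020009075302))) 
(.lf (nat_lit 473836119) (dlOf (nat_lit 1) (nat_lit 0x400400020018fa5302)))))) (.nd (nat_lit 9) 
(.nd (nat_lit 6) (.lf (nat_lit 8270999) (dlOf (nat_lit 1) (nat_lit 0xc00400120018519502))) 
(.nd (nat_lit 10) (.lf (nat_lit 19800279) (dlOf (nat_lit 1) (nat_lit 0x600189d0981))) 
(.lf (nat_lit 8266967) (dlOf (nat_lit 1) (nat_lit 0x400200040008512d82))))) (.nd (nat_lit 11) 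
(.lf (nat_lit 8270551) (dlOf (nat_lit 1) (nat_lit 0x400200020008518c82))) 
(.lf (nat_lit 19806935) (dlOf (nat_lit 1) (nat_lit 0x380080020002001400089db983))))))))) 
(.nd (nat_lit 18) (.nd (nat_lit 28) (.nd (nat_lit 6) (.nd (nat_lit 19) (.nd (nat_lit 24) 
(.nd (nat_lit 27) (.nd (nat_lit 7) 
(.lf (nat_lit 2684526615) (dlOf (nat_lit 1) (nat_lit 0x400200020008090382))) 
(.lf (nat_lit 1141025687) (dlOf (nat_lit 1) (nat_lit 0x800400020008095c82)))) (.nd (nat_lit 29) 
(.lf (nat_lit 6643949591) (dlOf (nat_lit 2) (nat_lit 0xfc06a0056034000de828090480))) 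
(.lf (nat_lit 6107078679) (dlOf (nat_lit 3) (nat_lit 0x700b000280540014028001a005003af84000b00a0003801400ebc08001000400100018060a02))))) 
(.nd (nat_lit 20) (.nd (nat_lit 21) 
(.lf (nat_lit 25337879) (dlOf (nat_lit 1) (nat_lit 0x400200020008bf0882))) 
(.lf (nat_lit 56795159) (dlOf (nat_lit 1) (nat_lit 0x400400020009760602)))) 
(.lf (nat_lit 22192151) (dlOf (nat_lit 1) (nat_lit 0x19c002005a0008aa0a82))))) (.nd (nat_lit 20) 
(.nd (nat_lit 22) (.nd (nat_lit 26) 
(.lf (nat_lit 134914071) (dlOf (nat_lit 1) (nat_lit 0x7c002007000080e0302))) 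
(.lf (nat_lit 202022935) (dlOf (nat_lit 1) (nat_lit 0x7c002007000080e0302)))) 
(.lf (nat_lit 21667863) (dlOf (nat_lit 2) (nat_lit 0xd260803634080018008006000200080008a60a03)))) 
(.nd (nat_lit 23) 
(.lf (nat_lit 3842071) (dlOf (nat_lit 5) (nat_lit 0x1f8964009c4a00001902005d259000712800004608010c964001a4a00001102002625900008408000800800a400200240008230383))) 
(.lf (nat_lit 45785111) (dlOf (nat_lit 1) (nat_lit 0x10000200640009360082)))))) (.nd (nat_lit 7) 
(.nd (nat_lit 8) (.nd (nat_lit 21) (.nd (nat_lit 10) 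
(.lf (nat_lit 34777687) (dlOf (nat_lit 1) (nat_lit 0x400400020008fb5302))) 
(.lf (nat_lit 175703) (dlOf (nat_lit 1) (nat_lit 0x8008000400200020008007183)))) (.nd (nat_lit 9) 
(.lf (nat_lit 52600919) (dlOf (nat_lit 1) (nat_lit 0x480080014002000e0009550803))) 
(.lf (nat_lit 44739159) (dlOf (nat_lit 1) (nat_lit 0x400200020009325302))))) (.nd (nat_lit 11) 
(.nd (nat_lit 26) (.lf (nat_lit 134390103) (dlOf (nat_lit 1) (nat_lit 0x20028014d01))) 
(.lf (nat_lit 738369879) (dlOf (nat_lit 1) (nat_lit 0xb0008005400200020008090d83)))) 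
(.lf (nat_lit 1677896023) (dlOf (nat_lit 2) (nat_lit 0x801100002818114e00))))) (.nd (nat_lit 19) 
(.nd (nat_lit 9) 
(.lf (nat_lit 2885853399) (dlOf (nat_lit 2) (nat_lit 0x22800000102040024002001200080b0482))) 
(.nd (nat_lit 11) (.lf (nat_lit 8565463) (dlOf (nat_lit 1) (nat_lit 0x400200020008518c82))) 
(.lf (nat_lit 20101847) (dlOf (nat_lit 1) (nat_lit 0x4002000200089db982))))) (.nd (nat_lit 11) 
(.nd (nat_lit 22) (.lf (nat_lit 20624087) (dlOf (nat_lit 1) (nat_lit 0x8008000c002000200089d8c83))) 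
(.lf (nat_lit 8041175) (dlOf (nat_lit 1) (nat_lit 0xa0008000400200020008518c83)))) 
(.lf (nat_lit 49982167) (dlOf (nat_lit 1) (nat_lit 0x800294c5901))))))) (.nd (nat_lit 27) 
(.nd (nat_lit 7) (.nd (nat_lit 30) (.nd (nat_lit 26) (.nd (nat_lit 31) 
(.lf (nat_lit 268607511) (dlOf (nat_lit 4) (nat_lit 0x100b002b005000e6608001c02c0006015005c00a001cc81802f005000e620400a8004005400180b0a02))) 
(.lf (nat_lit 6711058455) (dlOf (nat_lit 3) (nat_lit 0x700b000280540014028001a0050066d04000b00a00038014019b208001000400100018060a02)))) 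
(.lf (nat_lit 4630683671) (dlOf (nat_lit 3) (nat_lit 0x3c02c001e014000b002802560180058058003800a009570400020028060a01)))) 
(.nd (nat_lit 8) 
(.lf (nat_lit 1343922199) (dlOf (nat_lit 5) (nat_lit 0x4130000c0780002502000604c000301e000086080018130000a0780002082000204c000301e00007608000400400140018380882))) 
(.lf (nat_lit 1342349591) (dlOf (nat_lit 1) (nat_lit 0x400200020008014002))))) (.nd (nat_lit 8) 
(.nd (nat_lit 10) (.lf (nat_lit 6241299095) (dlOf (nat_lit 1) (nat_lit 0x4004000200080d5502))) 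
(.lf (nat_lit 805482135) (dlOf (nat_lit 1) (nat_lit 0x400018117201)))) (.nd (nat_lit 10) 
(.lf (nat_lit 5100446103) (dlOf (nat_lit 1) (nat_lit 0x1060008086481))) 
(.lf (nat_lit 3489840535) (dlOf (nat_lit 1) (nat_lit 0xe002800ca01)))))) (.nd (nat_lit 29) 
(.nd (nat_lit 26) (.nd (nat_lit 19) 
(.lf (nat_lit 1476567063) (dlOf (nat_lit 5) (nat_lit 0x201e0005500800b80f00028a0400200780013402005203c000701c8000001001e8008001400200160008050083))) 
(.lf (nat_lit 5772058647) (dlOf (nat_lit 5) (nat_lit 0x1029a00d5202000214e00030a680354410002853c001029c000e14d00070a180354020002853c001029c000c14d00070a180353c200008008000400200020008060a03)))) 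
(.nd (nat_lit 8) 
(.lf (nat_lit 4764901399) (dlOf (nat_lit 3) (nat_lit 0x3c02c001e014000b0028037f0180058058003800a00dfb0400020028060a01))) 
(.lf (nat_lit 469934359) (dlOf (nat_lit 1) (nat_lit 0x400200020008014002))))) (.nd (nat_lit 6) 
(.nd (nat_lit 30) (.lf (nat_lit 3154812951) (dlOf (nat_lit 2) (nat_lit 0x601900000018330a00))) 
(.lf (nat_lit 6376038423) (dlOf (nat_lit 5) (nat_lit 0x1027c007d702000213f000309f001f58100028500001027e000e13e000709a001f54200028500001027e000c13e000709a001f50200008008000400200020008060a03)))) 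
(.nd (nat_lit 8) (.lf (nat_lit 2013438039) (dlOf (nat_lit 1) (nat_lit 0x20008090001))) 
(.nd (nat_lit 12) 
(.lf (nat_lit 4228030807) (dlOf (nat_lit 14) (nat_lit 0x18e04c01d7020009f80b0000d20c031009803a404001250160001a01803681300604080021002c000328300c602600090128075c080028002c0002204006e02600a081000420058000430601a804c001002500f0010004d80580004208010e02c0001e810039025801c00fc000480801a409600d203f00011820037025801a80fc000400800d8096006803f0000f820036025801a80fc0003c080100098027c04000bc016000000180ae000800940020a200008014d03))) 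
(.lf (nat_lit 3154293079) (dlOf (nat_lit 2) (nat_lit 0x10280000808c0098c080004004001e0018158382))))))))) 
(.nd (nat_lit 19) (.nd (nat_lit 29) (.nd (nat_lit 20) (.nd (nat_lit 6) (.nd (nat_lit 7) 
(.nd (nat_lit 8) 
(.lf (nat_lit 13017111) (dlOf (nat_lit 5) (nat_lit 0x723198003986000038080020cd6001a633000530c002315d000209d20001a0a0020633000a30c00002c1000718cc001cc300000a04003a00186f0381))) 
(.lf (nat_lit 46574359) (dlOf (nat_lit 1) (nat_lit 0x8008000400200040009385b83)))) 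
(.lf (nat_lit 1409720471) (dlOf (nat_lit 1) (nat_lit 0x60008090181)))) (.nd (nat_lit 7) 
(.lf (nat_lit 31894103) (dlOf (nat_lit 1) (nat_lit 0x400200020008e95302))) 
(.lf (nat_lit 1409720791) (dlOf (nat_lit 1) (nat_lit 0x3a0008090b01))))) (.nd (nat_lit 21) 
(.nd (nat_lit 22) 
(.lf (nat_lit 26648599) (dlOf (nat_lit 12) (nat_lit 0x335d0000498040132e800024a02002974000122810004ad600083c0801c56b0003f40406f3238002b91a01a3ad68016d6ac06b68d200f2000000fc860048c8e001d646800b6b5a00655ac003aad58019d1a4008a54e001f80e000b91c000fb810012c8e001a56b400068d2001f506003f734000ac810051b9a000000080008008006c00200020008c50083))) 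
(.lf (nat_lit 22454295) (dlOf (nat_lit 1) (nat_lit 0xa0018ae0481)))) (.nd (nat_lit 6) 
(.nd (nat_lit 7) 
(.lf (nat_lit 24551447) (dlOf (nat_lit 3) (nat_lit 0xf69500021010003b4a80000008000800800a800200020008ba0983))) 
(.lf (nat_lit 41329815) (dlOf (nat_lit 1) (nat_lit 0x20019242b81)))) 
(.lf (nat_lit 53914199) (dlOf (nat_lit 1) (nat_lit 0x4002000200095f5302)))))) (.nd (nat_lit 7) 
(.nd (nat_lit 6) (.nd (nat_lit 11) 
(.lf (nat_lit 3154550807) (dlOf (nat_lit 1) (nat_lit 0x20028220401))) 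
(.lf (nat_lit 2751903767) (dlOf (nat_lit 1) (nat_lit 0x4001800a601)))) (.nd (nat_lit 8) 
(.lf (nat_lit 2819006551) (dlOf (nat_lit 10) (nat_lit 0x1f681c8018807e0002f040884072009f01f8000b81020c01c8030c07e0002d04069e07200bd01f8000b01005c81c802b407e0002b0408b007200c101f80007c1023081c8030c07e0001e0408ca07200b901f8000741000380fc0003804000800400240018150802))) 
(.lf (nat_lit 2751899991) (dlOf (nat_lit 4) (nat_lit 0x2c164000140200040b200002810007059000010080030008001000200080008004e03))))) 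
(.nd (nat_lit 8) (.nd (nat_lit 26) 
(.lf (nat_lit 537305239) (dlOf (nat_lit 1) (nat_lit 0x60008090181))) 
(.lf (nat_lit 738631831) (dlOf (nat_lit 1) (nat_lit 0x1c00080c1181)))) (.nd (nat_lit 6) 
(.lf (nat_lit 1611047319) (dlOf (nat_lit 10) (nat_lit 0x18138000c06e00c1304001205a000102b802ff01000f016800200ae000e005005fd83000302b80008014017f40800180b400bf902001205a000302b802ca810008016800280ae00120050059483000902d0002815c016500800400b400120570009002802c9c18034800800dc002001000080c6483))) 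
(.lf (nat_lit 537305559) (dlOf (nat_lit 1) (nat_lit 0x3a0008090b01))))))) (.nd (nat_lit 20) 
(.nd (nat_lit 8) (.nd (nat_lit 6) (.nd (nat_lit 21) (.nd (nat_lit 23) 
(.lf (nat_lit 5772320791) (dlOf (nat_lit 1) (nat_lit 0x880008090001))) 
(.lf (nat_lit 9347095) (dlOf (nat_lit 1) (nat_lit 0x180018540681)))) 
(.lf (nat_lit 15638551) (dlOf (nat_lit 2) (nat_lit 0xd46f8000c0080080008000c002000c0008810403)))) 
(.nd (nat_lit 7) (.lf (nat_lit 5772320855) (dlOf (nat_lit 1) (nat_lit 0x2a0008090001))) 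
(.lf (nat_lit 19839703) (dlOf (nat_lit 1) (nat_lit 0xf80080004002003400089db983))))) 
(.nd (nat_lit 7) (.nd (nat_lit 23) 
(.lf (nat_lit 1410244887) (dlOf (nat_lit 1) (nat_lit 0x1a00081b0481))) 
(.lf (nat_lit 26124567) (dlOf (nat_lit 1) (nat_lit 0x1c0028c10701)))) (.nd (nat_lit 6) 
(.lf (nat_lit 2754521495) (dlOf (nat_lit 1) (nat_lit 0x4002000200080f4e82))) 
(.lf (nat_lit 5772321239) (dlOf (nat_lit 3) (nat_lit 0xc12f000140100b4097800094080020008001c00200100008091203)))))) 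
(.nd (nat_lit 6) (.nd (nat_lit 22) (.nd (nat_lit 23) 
(.lf (nat_lit 473866263) (dlOf (nat_lit 1) (nat_lit 0x2e0018fc0081))) 
(.lf (nat_lit 29270039) (dlOf (nat_lit 1) (nat_lit 0x40018df0401)))) (.nd (nat_lit 7) 
(.lf (nat_lit 14589975) (dlOf (nat_lit 4) (nat_lit 0x1f1a000114cd200825970011a03000f49580008840003cc080070316001540200060028770081))) 
(.lf (nat_lit 8303767) (dlOf (nat_lit 1) (nat_lit 0x1e0018519501))))) (.nd (nat_lit 8) 
(.nd (nat_lit 9) (.lf (nat_lit 6377349335) (dlOf (nat_lit 1) (nat_lit 0x4002000200080c1c02))) 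
(.lf (nat_lit 8303319) (dlOf (nat_lit 1) (nat_lit 0x8008000400200020008518c83)))) (.nd (nat_lit 7) 
(.lf (nat_lit 2007383) (dlOf (nat_lit 2) (nat_lit 0x24aa600007018150680))) 
(.lf (nat_lit 1881055703) (dlOf (nat_lit 2) (nat_lit 0x502b00042c080018008004c00200020008de7b03))))))))))))

end

end Pool.Agent.Lib.MP_5854e1_co.Cz

namespace Pool.Agent.Lib.MP_5854e1_co.Cz

noncomputable section

noncomputable def tz233 : DT := (.nd (nat_lit 15) (.nd (nat_lit 13) (.nd (nat_lit 17) 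
(.nd (nat_lit 7) (.nd (nat_lit 18) (.nd (nat_lit 27) (.nd (nat_lit 6) (.nd (nat_lit 8) 
(.nd (nat_lit 19) (.nd (nat_lit 10) (.nd (nat_lit 9) (.nd (nat_lit 20) 
(.lf (nat_lit 14680119) (dlOf (nat_lit 1) (nat_lit 0x8008000800200020008770483))) 
(.lf (nat_lit 13631543) (dlOf (nat_lit 1) (nat_lit 0x400400020008730b82)))) 
(.lf (nat_lit 2751470135) (dlOf (nat_lit 2) (nat_lit 0xb11180018870000f6080028004000e000800b402)))) 
(.nd (nat_lit 11) (.lf (nat_lit 41944119) (dlOf (nat_lit 1) (nat_lit 0x800200040009242882))) 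
(.lf (nat_lit 3489664055) (dlOf (nat_lit 1) (nat_lit 0x180028006081))))) (.nd (nat_lit 20) 
(.nd (nat_lit 22) 
(.lf (nat_lit 805830711) (dlOf (nat_lit 4) (nat_lit 0x3f80e000046040070070000220200640380000e0181b0b80))) 
(.lf (nat_lit 4718647) (dlOf (nat_lit 1) (nat_lit 0x200282b0481)))) 
(.lf (nat_lit 3670071) (dlOf (nat_lit 1) (nat_lit 0x40018210b81))))) (.nd (nat_lit 9) 
(.nd (nat_lit 10) (.nd (nat_lit 26) 
(.lf (nat_lit 3490709815) (dlOf (nat_lit 3) (nat_lit 0xe00fc003c05c00a5704003003f000a017002958100040008011c00200020008014c03))) 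
(.lf (nat_lit 2752512311) (dlOf (nat_lit 3) (nat_lit 0xe00fc003c05c004c204003003f000a017001304100040008011c00200020008014c03)))) 
(.lf (nat_lit 2952797495) (dlOf (nat_lit 1) (nat_lit 0x3800800040020002000800c803)))) 
(.nd (nat_lit 10) (.lf (nat_lit 19925815) (dlOf (nat_lit 1) (nat_lit 0x4002000200089d5c02))) 
(.lf (nat_lit 1342183223) (dlOf (nat_lit 3) (nat_lit 0x2011c0002002000408e0000e81800a100)))))) 
(.nd (nat_lit 10) (.nd (nat_lit 19) (.nd (nat_lit 9) 
(.lf (nat_lit 12583031) (dlOf (nat_lit 1) (nat_lit 0xe00080004002001600086d1883))) 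
(.lf (nat_lit 54528631) (dlOf (nat_lit 1) (nat_lit 0x1b0008000400200920009655403)))) 
(.nd (nat_lit 20) 
(.lf (nat_lit 55050359) (dlOf (nat_lit 1) (nat_lit 0x60008004800200400009691183))) 
(.lf (nat_lit 28835959) (dlOf (nat_lit 1) (nat_lit 0x400200020008da0482))))) (.nd (nat_lit 8) 
(.lf (nat_lit 8395895) (dlOf (nat_lit 1) (nat_lit 0x40020002000851c102))) (.nd (nat_lit 9) 
(.lf (nat_lit 3288337783) (dlOf (nat_lit 1) (nat_lit 0x18008000400200060008006b83))) 
(.lf (nat_lit 8394615) (dlOf (nat_lit 1) (nat_lit 0x2001851a301))))))) (.nd (nat_lit 8) 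
(.nd (nat_lit 26) (.nd (nat_lit 19) (.nd (nat_lit 10) 
(.lf (nat_lit 2281701431) (dlOf (nat_lit 1) (nat_lit 0x60018000001))) 
(.lf (nat_lit 2550139959) (dlOf (nat_lit 1) (nat_lit 0x1c0028006081)))) (.nd (nat_lit 6) 
(.lf (nat_lit 134742071) (dlOf (nat_lit 14) (nat_lit 0x238100017c078091e03b003d01b00016820177012800e005e0005504054604a0002a0102fc025004280bc022805404ac00c0001c0403460250101811809c005404a000c0001a040285025009c811805d405e018002a02690060000c82813700ec00058040f5c07601020170000582023001d80001c0832580ec00d806c00fa0170000203041501d802880d8016002e0000306065803b0000101003b0000000000810f00080f18002005e00080a0b83))) 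
(.lf (nat_lit 134742135) (dlOf (nat_lit 4) (nat_lit 0x56003c02a8000000160400f40000000a010005024801900a40000a080004002006c00080a1882))))) 
(.nd (nat_lit 30) (.nd (nat_lit 6) 
(.lf (nat_lit 3154640951) (dlOf (nat_lit 2) (nat_lit 0x3605a0000b8182f0900))) 
(.lf (nat_lit 201850999) (dlOf (nat_lit 4) (nat_lit 0x56003802a8000000160400f40000000a010005024801900a40000a080004002006c00080a1882)))) 
(.nd (nat_lit 9) 
(.lf (nat_lit 4228382775) (dlOf (nat_lit 3) (nat_lit 0xb018801d0000000460800c40000002202005800180a0b81))) 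
(.lf (nat_lit 6376393271) (dlOf (nat_lit 1) (nat_lit 0x14002001c0008095182)))))) (.nd (nat_lit 11) 
(.nd (nat_lit 26) (.nd (nat_lit 28) 
(.lf (nat_lit 6039798583) (dlOf (nat_lit 1) (nat_lit 0x8008004800200020008002283))) 
(.lf (nat_lit 4160750391) (dlOf (nat_lit 1) (nat_lit 0x400400020008002282)))) (.nd (nat_lit 6) 
(.lf (nat_lit 3422552887) (dlOf (nat_lit 2) (nat_lit 0x200e80001a040008004000c0008002282))) 
(.lf (nat_lit 3690993015) (dlOf (nat_lit 1) (nat_lit 0x78008001c00200040008009903))))) 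
(.nd (nat_lit 6) (.nd (nat_lit 28) 
(.lf (nat_lit 2885688119) (dlOf (nat_lit 1) (nat_lit 0x6000800100020014000800bc83))) 
(.lf (nat_lit 4227865399) (dlOf (nat_lit 1) (nat_lit 0x40040002000800bc82)))) 
(.lf (nat_lit 5301602679) (dlOf (nat_lit 1) (nat_lit 0x20018004e81))))))) (.nd (nat_lit 30) 
(.nd (nat_lit 21) (.nd (nat_lit 27) (.nd (nat_lit 6) (.nd (nat_lit 19) 
(.lf (nat_lit 537133111) (dlOf (nat_lit 1) (nat_lit 0x8008000400200020008020683))) 
(.lf (nat_lit 21758007) (dlOf (nat_lit 1) (nat_lit 0x580080034002000c0008a70683)))) 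
(.nd (nat_lit 9) (.lf (nat_lit 335806583) (dlOf (nat_lit 1) (nat_lit 0xb8004006600080a1f02))) 
(.lf (nat_lit 46402167) (dlOf (nat_lit 16) (nat_lit 0xa2bfc0004f0202055fe0002701009baff0001340809b57f80008e04019ad0403135fe015cafd80011818034da08033ec4203835fe0137000000114200b857f8000860405f2bfc000420200155fe00020810140aff0000f80801757f80006a040086bfc04dd5fb000190202a8afd802b5420030692e001f48c00881210000bc280e7d7ec016a92e0001404024d5fb00008819385400))))) 
(.nd (nat_lit 26) (.nd (nat_lit 10) (.nd (nat_lit 31) 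
(.lf (nat_lit 134479927) (dlOf (nat_lit 2) (nat_lit 0x3a008200ac03d00690180004c41800b0008004c00200de0008030d03))) 
(.lf (nat_lit 6576930871) (dlOf (nat_lit 1) (nat_lit 0x8008002c002000200081c0703)))) 
(.lf (nat_lit 2818841655) (dlOf (nat_lit 1) (nat_lit 0xe002812bf01)))) (.nd (nat_lit 28) 
(.lf (nat_lit 201588791) (dlOf (nat_lit 2) (nat_lit 0x3a008200ac03d00690180004bc1800b0008004c00200de0008030d03))) 
(.lf (nat_lit 470024247) (dlOf (nat_lit 1) (nat_lit 0x400400020018030d02)))))) (.nd (nat_lit 8) 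
(.nd (nat_lit 19) (.nd (nat_lit 6) 
(.lf (nat_lit 2753822775) (dlOf (nat_lit 2) (nat_lit 0x28088000603d00080100000b01800400080004002000600080a0a83))) 
(.lf (nat_lit 24379511) (dlOf (nat_lit 1) (nat_lit 0x400200020008b91882)))) (.nd (nat_lit 26) 
(.lf (nat_lit 2883639) (dlOf (nat_lit 2) (nat_lit 0x180000037a040008002000200081c0b82))) 
(.lf (nat_lit 2754347063) (dlOf (nat_lit 2) (nat_lit 0x238000003a2040080002001800080d0b82))))) 
(.nd (nat_lit 6) (.nd (nat_lit 12) 
(.lf (nat_lit 19661111) (dlOf (nat_lit 2) (nat_lit 0x2afe000000189d0b80))) 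
(.lf (nat_lit 8130871) (dlOf (nat_lit 1) (nat_lit 0x140028518101)))) 
(.lf (nat_lit 57411959) (dlOf (nat_lit 1) (nat_lit 0xa0008006c002001e0009794e83)))))) 
(.nd (nat_lit 26) (.nd (nat_lit 29) (.nd (nat_lit 19) 
(.lf (nat_lit 1342439479) (dlOf (nat_lit 1) (nat_lit 0x400400020018030d02))) (.nd (nat_lit 20) 
(.lf (nat_lit 3492544567) (dlOf (nat_lit 2) (nat_lit 0x238000003a2040080002001800080d0b82))) 
(.lf (nat_lit 5773197367) (dlOf (nat_lit 1) (nat_lit 0x38008014c002002e00080b0483))))) 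
(.nd (nat_lit 6) (.nd (nat_lit 31) 
(.lf (nat_lit 1879310391) (dlOf (nat_lit 1) (nat_lit 0x18004001200080d0b82))) 
(.lf (nat_lit 4026794039) (dlOf (nat_lit 1) (nat_lit 0x300080010002000a0008090003)))) 
(.nd (nat_lit 8) 
(.lf (nat_lit 4026794103) (dlOf (nat_lit 2) (nat_lit 0x406c001550200020028090081))) 
(.lf (nat_lit 6308497783) (dlOf (nat_lit 1) (nat_lit 0x600280d4e81)))))) (.nd (nat_lit 6) 
(.nd (nat_lit 19) (.nd (nat_lit 28) 
(.lf (nat_lit 5972951095) (dlOf (nat_lit 1) (nat_lit 0x8008002c002000200081c0703))) 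
(.lf (nat_lit 1409548343) (dlOf (nat_lit 1) (nat_lit 0x8008000400200020008020683)))) 
(.lf (nat_lit 6377177143) (dlOf (nat_lit 1) (nat_lit 0x38008014c002002e00080b0483)))) 
(.nd (nat_lit 8) (.nd (nat_lit 31) 
(.lf (nat_lit 5436080247) (dlOf (nat_lit 2) (nat_lit 0x8300440006a040010004001a00080c0c02))) 
(.lf (nat_lit 3288596599) (dlOf (nat_lit 2) (nat_lit 0x406c0015f0200020028090081)))) 
(.lf (nat_lit 5704516983) (dlOf (nat_lit 1) (nat_lit 0x80080008002000200080d3503)))))))) 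
(.nd (nat_lit 8) (.nd (nat_lit 6) (.nd (nat_lit 10) (.nd (nat_lit 9) (.nd (nat_lit 19) 
(.nd (nat_lit 20) 
(.lf (nat_lit 5436080311) (dlOf (nat_lit 2) (nat_lit 0xed0044001c604039c004008a00080c1702))) 
(.lf (nat_lit 2752774327) (dlOf (nat_lit 1) (nat_lit 0x20018045201)))) 
(.lf (nat_lit 1835191) (dlOf (nat_lit 1) (nat_lit 0x560028150381)))) (.nd (nat_lit 18) 
(.nd (nat_lit 26) (.lf (nat_lit 1879055031) (dlOf (nat_lit 1) (nat_lit 0x2000800b881))) 
(.lf (nat_lit 3690994359) (dlOf (nat_lit 1) (nat_lit 0x2002800b881)))) 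
(.lf (nat_lit 3557038775) (dlOf (nat_lit 1) (nat_lit 0x12000802bc002010a000812b883))))) 
(.nd (nat_lit 11) (.nd (nat_lit 9) (.nd (nat_lit 12) 
(.lf (nat_lit 51381431) (dlOf (nat_lit 1) (nat_lit 0x1400400060009512c82))) 
(.lf (nat_lit 67900599) (dlOf (nat_lit 1) (nat_lit 0x8008000400200020008339503)))) 
(.nd (nat_lit 12) (.lf (nat_lit 2751465143) (dlOf (nat_lit 1) (nat_lit 0x1c0028003a81))) 
(.lf (nat_lit 20453047) (dlOf (nat_lit 1) (nat_lit 0x4002000200089da002))))) (.nd (nat_lit 12) 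
(.nd (nat_lit 18) (.lf (nat_lit 3288337591) (dlOf (nat_lit 1) (nat_lit 0x20018006281))) 
(.lf (nat_lit 20188343) (dlOf (nat_lit 1) (nat_lit 0x80080008002000200089d6283)))) 
(.lf (nat_lit 1879055543) (dlOf (nat_lit 1) (nat_lit 0x40040002000800c202)))))) (.nd (nat_lit 11) 
(.nd (nat_lit 28) (.nd (nat_lit 22) (.nd (nat_lit 18) 
(.lf (nat_lit 19923191) (dlOf (nat_lit 1) (nat_lit 0x4002000200089d0a82))) 
(.lf (nat_lit 20185335) (dlOf (nat_lit 1) (nat_lit 0x4002000200089d0a82)))) (.nd (nat_lit 12) 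
(.lf (nat_lit 46399735) (dlOf (nat_lit 2) (nat_lit 0x6918001660200060009380a81))) 
(.lf (nat_lit 8130807) (dlOf (nat_lit 1) (nat_lit 0x400400040018518082))))) (.nd (nat_lit 26) 
(.nd (nat_lit 27) (.lf (nat_lit 5100536055) (dlOf (nat_lit 1) (nat_lit 0x8004000200080d0a82))) 
(.lf (nat_lit 5771624695) (dlOf (nat_lit 1) (nat_lit 0x20028000a81)))) (.nd (nat_lit 19) 
(.lf (nat_lit 3154378999) (dlOf (nat_lit 1) (nat_lit 0x40028160701))) 
(.lf (nat_lit 6376128759) (dlOf (nat_lit 1) (nat_lit 0xa0018090a81)))))) (.nd (nat_lit 19) 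
(.nd (nat_lit 9) (.nd (nat_lit 12) 
(.lf (nat_lit 3288337655) (dlOf (nat_lit 1) (nat_lit 0xa800400040008006582))) 
(.lf (nat_lit 603987191) (dlOf (nat_lit 1) (nat_lit 0x40020002000800c602)))) 
(.lf (nat_lit 2147748599) (dlOf (nat_lit 1) (nat_lit 0x4004000200080e5a02)))) (.nd (nat_lit 18) 
(.nd (nat_lit 26) (.lf (nat_lit 1476922103) (dlOf (nat_lit 1) (nat_lit 0x4004000200182d5a02))) 
(.lf (nat_lit 4094167799) (dlOf (nat_lit 1) (nat_lit 0x8008000800200020008005a03)))) 
(.lf (nat_lit 57412343) (dlOf (nat_lit 1) (nat_lit 0x80019795a01))))))) (.nd (nat_lit 26) 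
(.nd (nat_lit 9) (.nd (nat_lit 19) (.nd (nat_lit 6) (.nd (nat_lit 10) 
(.lf (nat_lit 9699767) (dlOf (nat_lit 1) (nat_lit 0x1400200020008577782))) 
(.lf (nat_lit 2818842039) (dlOf (nat_lit 1) (nat_lit 0x3c40020038000812cd02)))) (.nd (nat_lit 20) 
(.lf (nat_lit 5905842679) (dlOf (nat_lit 3) (nat_lit 0x9a0250002201001e01280010c080010008000c00200040008157e03))) 
(.lf (nat_lit 9699831) (dlOf (nat_lit 1) (nat_lit 0x20028577e01))))) (.nd (nat_lit 18) 
(.nd (nat_lit 20) 
(.lf (nat_lit 1346898359) (dlOf (nat_lit 2) (nat_lit 0x3058001726040004002000200090a4e82))) 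
(.lf (nat_lit 60295607) (dlOf (nat_lit 1) (nat_lit 0x20008000c00200080009844e83)))) 
(.nd (nat_lit 6) (.lf (nat_lit 8134071) (dlOf (nat_lit 1) (nat_lit 0x4000800040020008000851cd03))) 
(.lf (nat_lit 37489143) (dlOf (nat_lit 1) (nat_lit 0x4002000200090d4f82)))))) (.nd (nat_lit 6) 
(.nd (nat_lit 27) (.nd (nat_lit 11) 
(.lf (nat_lit 2684355511) (dlOf (nat_lit 2) (nat_lit 0x200e80001a040008004000c0008002702))) 
(.lf (nat_lit 3221494711) (dlOf (nat_lit 1) (nat_lit 0x40020002000811be02)))) (.nd (nat_lit 28) 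
(.lf (nat_lit 2281702327) (dlOf (nat_lit 1) (nat_lit 0x3000400020018002702))) 
(.lf (nat_lit 4160750519) (dlOf (nat_lit 1) (nat_lit 0x400400020008002702))))) (.nd (nat_lit 18) 
(.lf (nat_lit 4026532855) (dlOf (nat_lit 2) (nat_lit 0x402b00932818002880))) (.nd (nat_lit 21) 
(.lf (nat_lit 38536183) (dlOf (nat_lit 1) (nat_lit 0x400200020009132882))) 
(.lf (nat_lit 36439031) (dlOf (nat_lit 1) (nat_lit 0x20019072881))))))) (.nd (nat_lit 32) 
(.nd (nat_lit 29) (.nd (nat_lit 6) (.nd (nat_lit 31) 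
(.lf (nat_lit 67109815) (dlOf (nat_lit 1) (nat_lit 0x6800200040008002702))) 
(.lf (nat_lit 2214593463) (dlOf (nat_lit 1) (nat_lit 0x3400400020008002702)))) 
(.lf (nat_lit 67116023) (dlOf (nat_lit 1) (nat_lit 0xe002800bf01)))) (.nd (nat_lit 9) 
(.nd (nat_lit 11) 
(.lf (nat_lit 2752512439) (dlOf (nat_lit 2) (nat_lit 0x40d2000206400120120000001800f00080004002000c0008017783))) 
(.lf (nat_lit 872417719) (dlOf (nat_lit 1) (nat_lit 0x400400020008004e82)))) (.nd (nat_lit 6) 
(.lf (nat_lit 2751989687) (dlOf (nat_lit 1) (nat_lit 0x40028004381))) 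
(.lf (nat_lit 2751988727) (dlOf (nat_lit 1) (nat_lit 0x400200020008002882)))))) (.nd (nat_lit 6) 
(.nd (nat_lit 9) (.lf (nat_lit 6377966007) (dlOf (nat_lit 1) (nat_lit 0x1c00180e4e81))) 
(.nd (nat_lit 11) 
(.lf (nat_lit 6643778487) (dlOf (nat_lit 1) (nat_lit 0x8008004800200020008002703))) 
(.lf (nat_lit 5301603255) (dlOf (nat_lit 1) (nat_lit 0x400200020008005d02))))) (.nd (nat_lit 9) 
(.lf (nat_lit 6375342583) (dlOf (nat_lit 2) (nat_lit 0x1600000018818001400))) (.nd (nat_lit 10) 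
(.lf (nat_lit 5301603319) (dlOf (nat_lit 1) (nat_lit 0x1a0028005f01))) 
(.lf (nat_lit 4362078199) (dlOf (nat_lit 1) (nat_lit 0x20018004681)))))))))) (.nd (nat_lit 18) 
(.nd (nat_lit 6) (.nd (nat_lit 26) (.nd (nat_lit 28) (.nd (nat_lit 19) (.nd (nat_lit 21) 
(.nd (nat_lit 8) 
(.lf (nat_lit 25296951) (dlOf (nat_lit 3) (nat_lit 0xac8b00073408005e1c0002e204008c00400780008bf0b82))) 
(.lf (nat_lit 1073873207) (dlOf (nat_lit 1) (nat_lit 0x40028014c01)))) (.nd (nat_lit 20) 
(.nd (nat_lit 23) (.lf (nat_lit 52559927) (dlOf (nat_lit 1) (nat_lit 0x1400200060009550502))) 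
(.lf (nat_lit 10616887) (dlOf (nat_lit 6) (nat_lit 0xa1e00001c0100020f00000d0080031a380024cdc000e66d002e3280006193c001cc86003a5c4002527f000c93f40064946003a3d6000f1e8800e8f3c0005a340024ca00002c0200081cc00060dd80005c1000080080004002002c0008600683)))) 
(.lf (nat_lit 24248375) (dlOf (nat_lit 4) (nat_lit 0x7b4a0003da340022bf8000470600056940005b468000d7f00008c0c0022d28002168d0006afe0000e01800c8008006000200040008b90b83))))) 
(.nd (nat_lit 20) (.nd (nat_lit 7) (.nd (nat_lit 23) 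
(.lf (nat_lit 134873143) (dlOf (nat_lit 3) (nat_lit 0x78018803e0044003a208004c0620044011000408280d0b80))) 
(.lf (nat_lit 42598455) (dlOf (nat_lit 1) (nat_lit 0xc00400020019260502)))) 
(.lf (nat_lit 1611270583) (dlOf (nat_lit 1) (nat_lit 0x180018124e81)))) (.nd (nat_lit 21) 
(.lf (nat_lit 10092599) (dlOf (nat_lit 1) (nat_lit 0x580080030002000a00085b0683))) 
(.lf (nat_lit 3801143) (dlOf (nat_lit 1) (nat_lit 0x3fc0008220b01)))))) (.nd (nat_lit 29) 
(.nd (nat_lit 7) (.nd (nat_lit 20) (.nd (nat_lit 27) 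
(.lf (nat_lit 2416050231) (dlOf (nat_lit 1) (nat_lit 0x20008020681))) 
(.lf (nat_lit 2550267959) (dlOf (nat_lit 1) (nat_lit 0x20008020681)))) 
(.lf (nat_lit 3490840631) (dlOf (nat_lit 1) (nat_lit 0x20028020681)))) 
(.lf (nat_lit 4563536823) (dlOf (nat_lit 2) (nat_lit 0x1c0148000e4080478008003800200360008095d03)))) 
(.nd (nat_lit 8) (.nd (nat_lit 20) (.nd (nat_lit 27) 
(.lf (nat_lit 4026662967) (dlOf (nat_lit 2) (nat_lit 0x1201480017c080060008001c00200060008020683))) 
(.lf (nat_lit 2013397047) (dlOf (nat_lit 2) (nat_lit 0x1c0028008fc080058008001000200240008040483)))) 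
(.lf (nat_lit 1880227895) (dlOf (nat_lit 1) (nat_lit 0x4002000200087e0502)))) 
(.lf (nat_lit 805440823) (dlOf (nat_lit 1) (nat_lit 0x60028116881)))))) (.nd (nat_lit 27) 
(.nd (nat_lit 29) (.nd (nat_lit 19) (.nd (nat_lit 31) 
(.lf (nat_lit 1140981815) (dlOf (nat_lit 2) (nat_lit 0x1c0028008fc080058008001000200240008040483))) 
(.lf (nat_lit 3288465463) (dlOf (nat_lit 2) (nat_lit 0x1201480017c080060008001c00200060008020683)))) 
(.lf (nat_lit 1409941559) (dlOf (nat_lit 1) (nat_lit 0x4004000800180a0b82)))) (.nd (nat_lit 7) 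
(.nd (nat_lit 8) (.lf (nat_lit 2752643127) (dlOf (nat_lit 1) (nat_lit 0x20028020681))) 
(.lf (nat_lit 1946288439) (dlOf (nat_lit 1) (nat_lit 0x40028014c01)))) 
(.lf (nat_lit 2752120759) (dlOf (nat_lit 1) (nat_lit 0x660008004381))))) (.nd (nat_lit 9) 
(.nd (nat_lit 7) (.nd (nat_lit 28) 
(.lf (nat_lit 201982007) (dlOf (nat_lit 3) (nat_lit 0x78018803e0044003a208004c0620044011000408280d0b80))) 
(.lf (nat_lit 3154772023) (dlOf (nat_lit 2) (nat_lit 0x10000000000800300080010002003c0008321083)))) 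
(.lf (nat_lit 469895351) (dlOf (nat_lit 1) (nat_lit 0x20018004901)))) (.nd (nat_lit 7) 
(.nd (nat_lit 10) (.lf (nat_lit 738331191) (dlOf (nat_lit 1) (nat_lit 0x28002000a0008095182))) 
(.lf (nat_lit 4496426551) (dlOf (nat_lit 1) (nat_lit 0x220028053781)))) 
(.lf (nat_lit 201459639) (dlOf (nat_lit 1) (nat_lit 0x520018004381))))))) (.nd (nat_lit 8) 
(.nd (nat_lit 27) (.nd (nat_lit 7) (.nd (nat_lit 19) 
(.lf (nat_lit 5368840311) (dlOf (nat_lit 1) (nat_lit 0x8008005400200300008041183))) 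
(.nd (nat_lit 26) 
(.lf (nat_lit 537526391) (dlOf (nat_lit 4) (nat_lit 0x3302a801700c40002c0800980aa0001402001805500060188000141000a80080078002001e00080a1883))) 
(.lf (nat_lit 1409941623) (dlOf (nat_lit 4) (nat_lit 0x3302a801700c40002c0800980aa0001402001805500060188000141000a80080078002001e00080a1883))))) 
(.nd (nat_lit 9) (.nd (nat_lit 10) 
(.lf (nat_lit 4563534071) (dlOf (nat_lit 1) (nat_lit 0x400400020008090a82))) 
(.lf (nat_lit 8525047) (dlOf (nat_lit 1) (nat_lit 0x20008519501)))) 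
(.lf (nat_lit 3492939511) (dlOf (nat_lit 1) (nat_lit 0x4400080f3b81))))) (.nd (nat_lit 26) 
(.nd (nat_lit 28) (.nd (nat_lit 29) 
(.lf (nat_lit 5503058039) (dlOf (nat_lit 1) (nat_lit 0x8008005400200300008041183))) 
(.lf (nat_lit 4966187127) (dlOf (nat_lit 2) (nat_lit 0x201300017818041180)))) (.nd (nat_lit 7) 
(.lf (nat_lit 5772017783) (dlOf (nat_lit 1) (nat_lit 0x1400200180008041182))) 
(.lf (nat_lit 4697752823) (dlOf (nat_lit 1) (nat_lit 0x80018092e81))))) (.nd (nat_lit 19) 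
(.nd (nat_lit 21) (.lf (nat_lit 5033295991) (dlOf (nat_lit 2) (nat_lit 0x201300017818041180))) 
(.lf (nat_lit 471990391) (dlOf (nat_lit 1) (nat_lit 0x20028740481)))) 
(.lf (nat_lit 6375997559) (dlOf (nat_lit 1) (nat_lit 0x1400200180008041182)))))) (.nd (nat_lit 7) 
(.nd (nat_lit 11) (.nd (nat_lit 9) 
(.lf (nat_lit 1610744183) (dlOf (nat_lit 3) (nat_lit 0x8042000da0200060520003f018091000))) 
(.lf (nat_lit 8525687) (dlOf (nat_lit 1) (nat_lit 0x2001851a301)))) (.nd (nat_lit 12) 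
(.nd (nat_lit 22) (.lf (nat_lit 1409419639) (dlOf (nat_lit 1) (nat_lit 0x400400020018004e82))) 
(.lf (nat_lit 37882231) (dlOf (nat_lit 1) (nat_lit 0x44002007a00090d4e82)))) 
(.lf (nat_lit 1677859191) (dlOf (nat_lit 1) (nat_lit 0x4800800300020050000811ae03))))) 
(.nd (nat_lit 9) (.nd (nat_lit 10) (.nd (nat_lit 11) 
(.lf (nat_lit 1073873399) (dlOf (nat_lit 2) (nat_lit 0x130148000000800280080014002000a0008017e03))) 
(.lf (nat_lit 37882359) (dlOf (nat_lit 1) (nat_lit 0x7200090d4f81)))) 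
(.lf (nat_lit 20057591) (dlOf (nat_lit 1) (nat_lit 0x600080024002000200089d6f83)))) 
(.nd (nat_lit 22) (.lf (nat_lit 537002999) (dlOf (nat_lit 1) (nat_lit 0x20018002881))) 
(.lf (nat_lit 474088439) (dlOf (nat_lit 2) (nat_lit 0x85a400c4404003800400060009082882)))))))) 
(.nd (nat_lit 21) (.nd (nat_lit 28) (.nd (nat_lit 6) (.nd (nat_lit 19) (.nd (nat_lit 26) 
(.nd (nat_lit 7) 
(.lf (nat_lit 1611006007) (dlOf (nat_lit 2) (nat_lit 0x3c0aa00a40370004a8280b0480))) 
(.lf (nat_lit 8787639) (dlOf (nat_lit 1) (nat_lit 0x800800180020002000851a003)))) (.nd (nat_lit 20) 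
(.nd (nat_lit 27) 
(.lf (nat_lit 3288727607) (dlOf (nat_lit 6) (nat_lit 0x8b0100007980811780800039a040030040001cb02001801f000d981009d010000204080018008000c002000e00080d0b83))) 
(.lf (nat_lit 738590775) (dlOf (nat_lit 2) (nat_lit 0x3c0aa00a40370004a8280b0480)))) 
(.lf (nat_lit 2752905271) (dlOf (nat_lit 1) (nat_lit 0x20028060701))))) (.nd (nat_lit 9) 
(.nd (nat_lit 22) (.lf (nat_lit 917559) (dlOf (nat_lit 1) (nat_lit 0x80008003c00200280008030d03))) 
(.lf (nat_lit 13500471) (dlOf (nat_lit 4) (nat_lit 0x130000000e68100030000005f40801780000010204001c00200080008730b82)))) 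
(.lf (nat_lit 60688951) (dlOf (nat_lit 1) (nat_lit 0x4004000200098c5182))))) (.nd (nat_lit 7) 
(.nd (nat_lit 26) (.nd (nat_lit 12) 
(.lf (nat_lit 1208352887) (dlOf (nat_lit 1) (nat_lit 0x200180c0c01))) 
(.lf (nat_lit 8786039) (dlOf (nat_lit 1) (nat_lit 0xc00400120018517d82)))) (.nd (nat_lit 8) 
(.lf (nat_lit 604373111) (dlOf (nat_lit 2) (nat_lit 0x6800000272040004002001000081a0482))) 
(.lf (nat_lit 4362469751) (dlOf (nat_lit 1) (nat_lit 0x80018090781))))) (.nd (nat_lit 8) 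
(.lf (nat_lit 29753591) (dlOf (nat_lit 1) (nat_lit 0x20018e30681))) (.nd (nat_lit 19) 
(.lf (nat_lit 50725879) (dlOf (nat_lit 1) (nat_lit 0x4004000400194c2882))) 
(.lf (nat_lit 34472951) (dlOf (nat_lit 1) (nat_lit 0x20018fb2881))))))) (.nd (nat_lit 30) 
(.nd (nat_lit 7) (.nd (nat_lit 20) (.nd (nat_lit 27) 
(.lf (nat_lit 2416312375) (dlOf (nat_lit 2) (nat_lit 0x809000006040004004000200180d0b82))) 
(.lf (nat_lit 2550530103) (dlOf (nat_lit 2) (nat_lit 0x80980000e040004004000200180d0b82)))) 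
(.lf (nat_lit 471203895) (dlOf (nat_lit 1) (nat_lit 0x3000282c0901)))) (.nd (nat_lit 8) 
(.lf (nat_lit 470155447) (dlOf (nat_lit 1) (nat_lit 0x8008000400200020008065203))) 
(.lf (nat_lit 403048887) (dlOf (nat_lit 1) (nat_lit 0x3c002000600080e4e82))))) (.nd (nat_lit 6) 
(.nd (nat_lit 20) (.nd (nat_lit 26) 
(.lf (nat_lit 4026925111) (dlOf (nat_lit 6) (nat_lit 0x8b0100007980811780800039a040030040001cb02001801f000d181009d010000204080018008000c002000e00080d0b83))) 
(.lf (nat_lit 3557163063) (dlOf (nat_lit 2) (nat_lit 0x380c200aef0200020018130001)))) 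
(.lf (nat_lit 3491102775) (dlOf (nat_lit 1) (nat_lit 0x20028060701)))) (.nd (nat_lit 8) 
(.lf (nat_lit 1476788343) (dlOf (nat_lit 3) (nat_lit 0x22007000c601000f0038006240800f000800a0002003e00081a0483))) 
(.lf (nat_lit 4228252023) (dlOf (nat_lit 1) (nat_lit 0x60018090781))))))) (.nd (nat_lit 6) 
(.nd (nat_lit 11) (.nd (nat_lit 19) (.nd (nat_lit 7) (.nd (nat_lit 26) 
(.lf (nat_lit 3492151351) (dlOf (nat_lit 3) (nat_lit 0x100230000580400201180002b02000400180a0b81))) 
(.lf (nat_lit 2753953847) (dlOf (nat_lit 2) (nat_lit 0xa0448000b00800180080014002000c00080a0a83)))) 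
(.lf (nat_lit 28704951) (dlOf (nat_lit 1) (nat_lit 0x8008000400200020008da0483)))) (.nd (nat_lit 9) 
(.nd (nat_lit 10) 
(.lf (nat_lit 4063287) (dlOf (nat_lit 6) (nat_lit 0x340b0001b838c00c80e20074065000e0840001038800380000037a0800800e2001710200221600013071800b81c400540ca0009408000a160001e071800f01c400800ca000000800560018270b81))) 
(.lf (nat_lit 36570167) (dlOf (nat_lit 1) (nat_lit 0x20029072881)))) 
(.lf (nat_lit 19796535) (dlOf (nat_lit 1) (nat_lit 0x80080004002000200089d8983))))) 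
(.nd (nat_lit 7) (.nd (nat_lit 8) 
(.lf (nat_lit 3492682295) (dlOf (nat_lit 1) (nat_lit 0x28004000400180fb402))) 
(.lf (nat_lit 19794743) (dlOf (nat_lit 1) (nat_lit 0x4002000200089d5c02)))) (.nd (nat_lit 10) 
(.lf (nat_lit 473303479) (dlOf (nat_lit 2) (nat_lit 0x10b00003e0080008008001000200040008e94e83))) 
(.lf (nat_lit 8265143) (dlOf (nat_lit 1) (nat_lit 0x1000800040020002000851cd03)))))) 
(.nd (nat_lit 8) (.nd (nat_lit 19) (.nd (nat_lit 7) (.nd (nat_lit 26) 
(.lf (nat_lit 2490487) (dlOf (nat_lit 1) (nat_lit 0xf40008161881))) 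
(.lf (nat_lit 2753953911) (dlOf (nat_lit 1) (nat_lit 0xd0008005c002003a00080a1883)))) 
(.lf (nat_lit 20316407) (dlOf (nat_lit 1) (nat_lit 0x4002000200089d0a82)))) (.nd (nat_lit 11) 
(.nd (nat_lit 12) 
(.lf (nat_lit 20840695) (dlOf (nat_lit 3) (nat_lit 0x6eb80013180800a3148006136a004b004003200289e4501))) 
(.lf (nat_lit 8261879) (dlOf (nat_lit 1) (nat_lit 0x6c0028518081)))) 
(.lf (nat_lit 19798263) (dlOf (nat_lit 1) (nat_lit 0x200089da981))))) (.nd (nat_lit 9) 
(.nd (nat_lit 10) (.nd (nat_lit 20) 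
(.lf (nat_lit 49154551) (dlOf (nat_lit 1) (nat_lit 0x1400400040009464f82))) 
(.lf (nat_lit 37620215) (dlOf (nat_lit 1) (nat_lit 0x180080010002000600090d4f83)))) 
(.lf (nat_lit 2754481655) (dlOf (nat_lit 1) (nat_lit 0x300080008002000600080f6f83)))) 
(.nd (nat_lit 7) (.lf (nat_lit 19794807) (dlOf (nat_lit 1) (nat_lit 0xc80080064002001800089d5c03))) 
(.lf (nat_lit 46009335) (dlOf (nat_lit 1) (nat_lit 0x100029385f01)))))))))) (.nd (nat_lit 18) 
(.nd (nat_lit 6) (.nd (nat_lit 17) (.nd (nat_lit 10) (.nd (nat_lit 19) (.nd (nat_lit 7) 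
(.nd (nat_lit 20) (.nd (nat_lit 22) 
(.lf (nat_lit 52437047) (dlOf (nat_lit 1) (nat_lit 0x20029530501))) 
(.lf (nat_lit 23076919) (dlOf (nat_lit 1) (nat_lit 0x80028b50781)))) (.nd (nat_lit 8) 
(.nd (nat_lit 22) (.lf (nat_lit 51388471) (dlOf (nat_lit 1) (nat_lit 0x3000400060009510002))) 
(.lf (nat_lit 13639735) (dlOf (nat_lit 2) (nat_lit 0x2600e000e6818730b80)))) 
(.lf (nat_lit 19934007) (dlOf (nat_lit 1) (nat_lit 0x4002000200089d5c02))))) (.nd (nat_lit 8) 
(.nd (nat_lit 9) (.lf (nat_lit 47194295) (dlOf (nat_lit 2) (nat_lit 0x2e918000e002000200293b1701))) 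
(.nd (nat_lit 26) (.lf (nat_lit 1879063223) (dlOf (nat_lit 1) (nat_lit 0x18002800b881))) 
(.lf (nat_lit 3691002551) (dlOf (nat_lit 4) (nat_lit 0x2f8010000320400ec008000180200380040000b81800b880))))) 
(.nd (nat_lit 11) 
(.lf (nat_lit 603992503) (dlOf (nat_lit 1) (nat_lit 0x60008002000200480008008583))) 
(.nd (nat_lit 26) (.lf (nat_lit 4697631159) (dlOf (nat_lit 1) (nat_lit 0x20028004e81))) 
(.lf (nat_lit 2885691831) (dlOf (nat_lit 1) (nat_lit 0x280008004e81))))))) (.nd (nat_lit 26) 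
(.nd (nat_lit 21) (.nd (nat_lit 28) (.nd (nat_lit 22) (.nd (nat_lit 27) 
(.lf (nat_lit 5906112567) (dlOf (nat_lit 1) (nat_lit 0xc004000200081c0702))) 
(.lf (nat_lit 134750263) (dlOf (nat_lit 2) (nat_lit 0x2301d8001680801a0008005c002006000080a0b83)))) 
(.lf (nat_lit 4726839) (dlOf (nat_lit 3) (nat_lit 0x349e000aa81000aa4f0002540800400080018002000a00082b0483)))) 
(.nd (nat_lit 30) (.lf (nat_lit 805838903) (dlOf (nat_lit 1) (nat_lit 0x14002001200081c0b02))) 
(.lf (nat_lit 4027064375) (dlOf (nat_lit 2) (nat_lit 0x2007800100360003104000600281d0b01))))) 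
(.nd (nat_lit 8) (.nd (nat_lit 20) 
(.lf (nat_lit 3492290615) (dlOf (nat_lit 1) (nat_lit 0x200180c1201))) 
(.lf (nat_lit 3678263) (dlOf (nat_lit 2) (nat_lit 0xc4c7000825e8000e0100190008009000200260008210b83)))) 
(.lf (nat_lit 28844343) (dlOf (nat_lit 1) (nat_lit 0x800400020018da0702))))) (.nd (nat_lit 30) 
(.nd (nat_lit 27) (.nd (nat_lit 31) 
(.lf (nat_lit 4362608695) (dlOf (nat_lit 1) (nat_lit 0x200280a0a81))) 
(.lf (nat_lit 6510092343) (dlOf (nat_lit 1) (nat_lit 0xc004000200081c0702)))) 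
(.lf (nat_lit 201859127) (dlOf (nat_lit 3) (nat_lit 0x1803b0002d0100170250001540801b0008000c002007000080a0a83)))) 
(.nd (nat_lit 29) 
(.lf (nat_lit 3288866871) (dlOf (nat_lit 2) (nat_lit 0x2007800100360003104000600281d0b01))) 
(.lf (nat_lit 1678254135) (dlOf (nat_lit 1) (nat_lit 0x14002001200081c0b02))))))) (.nd (nat_lit 11) 
(.nd (nat_lit 9) (.nd (nat_lit 12) (.nd (nat_lit 7) 
(.lf (nat_lit 1543513143) (dlOf (nat_lit 1) (nat_lit 0x3400080104002003e0008002883))) 
(.lf (nat_lit 51389623) (dlOf (nat_lit 1) (nat_lit 0x20019512c81)))) (.nd (nat_lit 8) 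
(.lf (nat_lit 1342190647) (dlOf (nat_lit 1) (nat_lit 0x800400060008009202))) 
(.lf (nat_lit 8402231) (dlOf (nat_lit 1) (nat_lit 0x400200020008519902))))) (.nd (nat_lit 7) 
(.nd (nat_lit 8) (.lf (nat_lit 2147493431) (dlOf (nat_lit 1) (nat_lit 0xc00200140008003782))) 
(.lf (nat_lit 1342191415) (dlOf (nat_lit 2) (nat_lit 0xa09d000204700008010001800800200020002000800a103)))) 
(.lf (nat_lit 2415929015) (dlOf (nat_lit 1) (nat_lit 0x80028003a81))))) (.nd (nat_lit 12) 
(.nd (nat_lit 26) (.nd (nat_lit 27) 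
(.lf (nat_lit 1879059511) (dlOf (nat_lit 1) (nat_lit 0x20018006081))) 
(.lf (nat_lit 2550148151) (dlOf (nat_lit 1) (nat_lit 0x20008006081)))) (.nd (nat_lit 9) 
(.lf (nat_lit 3288345655) (dlOf (nat_lit 1) (nat_lit 0x24c00200840008006082))) 
(.lf (nat_lit 3959434807) (dlOf (nat_lit 1) (nat_lit 0x10008000800200040008007183))))) 
(.nd (nat_lit 7) (.nd (nat_lit 26) 
(.lf (nat_lit 2952805431) (dlOf (nat_lit 1) (nat_lit 0x2001800bf01))) 
(.lf (nat_lit 603995191) (dlOf (nat_lit 1) (nat_lit 0x4000800bf01)))) (.nd (nat_lit 26) 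
(.lf (nat_lit 2952805815) (dlOf (nat_lit 2) (nat_lit 0x2900000291c0801e000801540020010000800cd03))) 
(.lf (nat_lit 603995575) (dlOf (nat_lit 2) (nat_lit 0x180000148e0400200020018000800cd02)))))))) 
(.nd (nat_lit 29) (.nd (nat_lit 19) (.nd (nat_lit 23) (.nd (nat_lit 20) (.nd (nat_lit 26) 
(.nd (nat_lit 27) 
(.lf (nat_lit 2416058423) (dlOf (nat_lit 2) (nat_lit 0xc012000390080050008002000200080008030d03))) 
(.lf (nat_lit 2550276151) (dlOf (nat_lit 2) (nat_lit 0xc013000390080050008002000200080008030d03)))) 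
(.lf (nat_lit 3288473655) (dlOf (nat_lit 3) (nat_lit 0x734040027c00b0002f8200030100001640801500080124002003c0008020683)))) 
(.nd (nat_lit 21) 
(.lf (nat_lit 3490848823) (dlOf (nat_lit 2) (nat_lit 0x60388001310200080008030d01))) 
(.lf (nat_lit 24256567) (dlOf (nat_lit 1) (nat_lit 0x20028b90b81))))) (.nd (nat_lit 7) 
(.nd (nat_lit 21) (.nd (nat_lit 22) 
(.lf (nat_lit 25305143) (dlOf (nat_lit 6) (nat_lit 0x9fc8b004fe1c0003cc08043f22c0221870000e682007cc8b002161c00039608028322c0161870000b882001ec8b000fe1c0001020800ac00400120008bf0b82))) 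
(.lf (nat_lit 12722231) (dlOf (nat_lit 1) (nat_lit 0x100080004002000200086e0b03)))) 
(.lf (nat_lit 10625079) (dlOf (nat_lit 1) (nat_lit 0x10008000400200020008600683)))) 
(.lf (nat_lit 9576887) (dlOf (nat_lit 1) (nat_lit 0x10008000400200020008577783))))) 
(.nd (nat_lit 26) (.nd (nat_lit 7) 
(.lf (nat_lit 134881335) (dlOf (nat_lit 5) (nat_lit 0x124031007b016003d805002100220008010000e885000200a00073c0800800c400b0058003e0110004083000900a00001c08004000802f4002002200080d0b83))) 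
(.lf (nat_lit 669367) (dlOf (nat_lit 2) (nat_lit 0x5af4c0096404000c0020002000800a002)))) 
(.nd (nat_lit 27) 
(.lf (nat_lit 1409949751) (dlOf (nat_lit 6) (nat_lit 0xa902f8000b00803d817c000560400980be0000b02000c05f0000381003802f8000100802e80080020002000400080a0b83))) 
(.lf (nat_lit 201990199) (dlOf (nat_lit 5) (nat_lit 0x124031007b016003d805002100220008010000e885000200a00073c0800800c400b0058003e0110004083000900a00000c08004000802f4002002200080d0b83)))))) 
(.nd (nat_lit 31) (.nd (nat_lit 8) (.nd (nat_lit 10) (.nd (nat_lit 19) 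
(.lf (nat_lit 604119095) (dlOf (nat_lit 2) (nat_lit 0x30070000203500020108008807c001c810000400400320008030482))) 
(.lf (nat_lit 537534519) (dlOf (nat_lit 2) (nat_lit 0x7302f8000b00801b80080020002001c00080a0a83)))) 
(.lf (nat_lit 1008870455) (dlOf (nat_lit 1) (nat_lit 0x800400040008fa2882)))) (.nd (nat_lit 7) 
(.nd (nat_lit 10) (.lf (nat_lit 6241266487) (dlOf (nat_lit 1) (nat_lit 0x4a00280d5c01))) 
(.lf (nat_lit 537012023) (dlOf (nat_lit 1) (nat_lit 0x40018003e01)))) 
(.lf (nat_lit 738863543) (dlOf (nat_lit 1) (nat_lit 0x300080024002000c0008124e83))))) 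
(.nd (nat_lit 28) (.nd (nat_lit 7) 
(.lf (nat_lit 2752651319) (dlOf (nat_lit 2) (nat_lit 0x603ac0012f0200080008030d01))) 
(.nd (nat_lit 8) 
(.lf (nat_lit 3825347767) (dlOf (nat_lit 1) (nat_lit 0x8008000400200020008146283))) 
(.lf (nat_lit 2752128951) (dlOf (nat_lit 1) (nat_lit 0x20028004381))))) (.nd (nat_lit 19) 
(.nd (nat_lit 30) (.lf (nat_lit 2952929335) (dlOf (nat_lit 1) (nat_lit 0x400400020018030482))) 
(.lf (nat_lit 4026671159) (dlOf (nat_lit 3) (nat_lit 0x734040027c00b0002f8200030100001640801500080124002003c0008020683)))) 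
(.lf (nat_lit 3154780215) (dlOf (nat_lit 2) (nat_lit 0x24000000000200240008321081)))))))) 
(.nd (nat_lit 26) (.nd (nat_lit 19) (.nd (nat_lit 9) (.nd (nat_lit 7) (.nd (nat_lit 10) 
(.nd (nat_lit 11) (.lf (nat_lit 47194231) (dlOf (nat_lit 1) (nat_lit 0x200193b0c01))) 
(.lf (nat_lit 5905721463) (dlOf (nat_lit 1) (nat_lit 0x20008144781)))) (.nd (nat_lit 11) 
(.lf (nat_lit 39855223) (dlOf (nat_lit 1) (nat_lit 0x1800191f2a01))) 
(.lf (nat_lit 8404087) (dlOf (nat_lit 1) (nat_lit 0x2001851c101))))) (.nd (nat_lit 17) 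
(.nd (nat_lit 8) (.lf (nat_lit 19931383) (dlOf (nat_lit 1) (nat_lit 0x4002000200089d0a82))) 
(.lf (nat_lit 53488119) (dlOf (nat_lit 1) (nat_lit 0x200295f4f81)))) (.nd (nat_lit 20) 
(.lf (nat_lit 4563542263) (dlOf (nat_lit 2) (nat_lit 0x10015800534080030008000400200040008090a83))) 
(.lf (nat_lit 20062455) (dlOf (nat_lit 2) (nat_lit 0x3d760004e0189d0a80)))))) (.nd (nat_lit 12) 
(.nd (nat_lit 7) (.nd (nat_lit 8) 
(.lf (nat_lit 46279287) (dlOf (nat_lit 1) (nat_lit 0x2380080004002003c0009385403))) 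
(.lf (nat_lit 2952802167) (dlOf (nat_lit 2) (nat_lit 0x2401c00257018007780)))) (.nd (nat_lit 21) 
(.lf (nat_lit 8528887) (dlOf (nat_lit 1) (nat_lit 0x20028512881))) 
(.lf (nat_lit 48374775) (dlOf (nat_lit 2) (nat_lit 0x11880c00311019402880))))) (.nd (nat_lit 8) 
(.nd (nat_lit 27) 
(.lf (nat_lit 2684368503) (dlOf (nat_lit 1) (nat_lit 0x2b80080098002015c0008009d03))) 
(.lf (nat_lit 2281715319) (dlOf (nat_lit 1) (nat_lit 0xa000201540008009d02)))) (.nd (nat_lit 17) 
(.lf (nat_lit 8402807) (dlOf (nat_lit 1) (nat_lit 0x800800040020002000851a303))) 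
(.lf (nat_lit 8533879) (dlOf (nat_lit 1) (nat_lit 0x4600080004002007a000851a303))))))) 
(.nd (nat_lit 21) (.nd (nat_lit 17) (.nd (nat_lit 7) (.nd (nat_lit 12) 
(.lf (nat_lit 134750327) (dlOf (nat_lit 3) (nat_lit 0x3000000058080090000000280400c4002005400080a1882))) 
(.lf (nat_lit 8925303) (dlOf (nat_lit 1) (nat_lit 0x280018517d81)))) 
(.lf (nat_lit 1342710263) (dlOf (nat_lit 5) (nat_lit 0x50aa0008e40802a891c03c847800781540010d030047123807c08f000430080018478006e1540010b0280c0d80)))) 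
(.nd (nat_lit 7) (.nd (nat_lit 24) 
(.lf (nat_lit 537534583) (dlOf (nat_lit 5) (nat_lit 0x840aa00500310000b02000b02f80005408020816400b80aa00014040030055001e018800280600000a0c0084004000800080a1882))) 
(.lf (nat_lit 50995319) (dlOf (nat_lit 1) (nat_lit 0x200094e2901)))) 
(.lf (nat_lit 56240631) (dlOf (nat_lit 1) (nat_lit 0xc00400080009734f82))))) (.nd (nat_lit 10) 
(.nd (nat_lit 8) (.nd (nat_lit 12) 
(.lf (nat_lit 3678327) (dlOf (nat_lit 1) (nat_lit 0xf40008211881))) 
(.lf (nat_lit 20459639) (dlOf (nat_lit 1) (nat_lit 0x200289d7d81)))) 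
(.lf (nat_lit 40380791) (dlOf (nat_lit 1) (nat_lit 0x800291f4e81)))) (.nd (nat_lit 9) 
(.lf (nat_lit 20462711) (dlOf (nat_lit 1) (nat_lit 0x4004001800089dc102))) 
(.lf (nat_lit 61351543) (dlOf (nat_lit 1) (nat_lit 0xa00019923981))))))) (.nd (nat_lit 7) 
(.nd (nat_lit 27) (.nd (nat_lit 9) (.nd (nat_lit 8) (.nd (nat_lit 19) 
(.lf (nat_lit 5167521911) (dlOf (nat_lit 1) (nat_lit 0x20028081181))) 
(.lf (nat_lit 1409949815) (dlOf (nat_lit 5) (nat_lit 0x840aa00500310000b02000b02f80005408020816400b80aa00014040030055001e018800280540000a0c0084004000800080a1882)))) 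
(.nd (nat_lit 12) (.lf (nat_lit 2754619767) (dlOf (nat_lit 1) (nat_lit 0x4004000400080f4e82))) 
(.lf (nat_lit 4362090871) (dlOf (nat_lit 1) (nat_lit 0xa002800ae01))))) (.nd (nat_lit 11) 
(.nd (nat_lit 17) 
(.lf (nat_lit 4362086263) (dlOf (nat_lit 4) (nat_lit 0x1201980002c0800680cc00012040008066000080200360028004081))) 
(.lf (nat_lit 1677862775) (dlOf (nat_lit 2) (nat_lit 0xe009800038080068008002400200140008114083)))) 
(.lf (nat_lit 603991927) (dlOf (nat_lit 1) (nat_lit 0x1c00200100008007782))))) (.nd (nat_lit 8) 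
(.nd (nat_lit 9) 
(.lf (nat_lit 201859191) (dlOf (nat_lit 3) (nat_lit 0x3000000058080090000000280400c4002005400080a1882))) 
(.nd (nat_lit 10) 
(.lf (nat_lit 1275079287) (dlOf (nat_lit 2) (nat_lit 0x80220003502002a0018005401))) 
(.lf (nat_lit 6375351927) (dlOf (nat_lit 1) (nat_lit 0x400200020008003982))))) (.nd (nat_lit 11) 
(.nd (nat_lit 17) (.lf (nat_lit 470294903) (dlOf (nat_lit 2) (nat_lit 0x54154006590180c0780))) 
(.lf (nat_lit 6377054583) (dlOf (nat_lit 1) (nat_lit 0x4002000200080a7d02)))) 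
(.lf (nat_lit 469776759) (dlOf (nat_lit 1) (nat_lit 0x1000800a00020022000800ae03)))))) 
(.nd (nat_lit 10) (.nd (nat_lit 8) (.nd (nat_lit 12) (.nd (nat_lit 17) 
(.lf (nat_lit 1946689783) (dlOf (nat_lit 1) (nat_lit 0xf4002006a00081b0482))) 
(.lf (nat_lit 6376530167) (dlOf (nat_lit 1) (nat_lit 0x400400020018090a82)))) (.nd (nat_lit 9) 
(.lf (nat_lit 603992311) (dlOf (nat_lit 1) (nat_lit 0x400200020008008082))) 
(.lf (nat_lit 469777143) (dlOf (nat_lit 2) (nat_lit 0x382740131c0400080040004001800b982))))) 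
(.nd (nat_lit 9) 
(.lf (nat_lit 470295031) (dlOf (nat_lit 5) (nat_lit 0x50aa0008e408023891c03e04780021e0400aa24700f211e001e05500043a0c0018478006e1540010d0280c0d80))) 
(.lf (nat_lit 738339831) (dlOf (nat_lit 2) (nat_lit 0x400b4000400200060028095f01))))) 
(.nd (nat_lit 9) (.nd (nat_lit 28) (.nd (nat_lit 11) 
(.lf (nat_lit 6106916087) (dlOf (nat_lit 1) (nat_lit 0x80018002e81))) 
(.lf (nat_lit 603995383) (dlOf (nat_lit 1) (nat_lit 0x2001800c601)))) (.nd (nat_lit 17) 
(.lf (nat_lit 6375351543) (dlOf (nat_lit 1) (nat_lit 0xe80080160002003a0008002e83))) 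
(.lf (nat_lit 2080515319) (dlOf (nat_lit 1) (nat_lit 0x400200020008092e82))))) (.nd (nat_lit 8) 
(.nd (nat_lit 17) 
(.lf (nat_lit 3825215223) (dlOf (nat_lit 3) (nat_lit 0xc040000801d000500c8001006000048100008040000401d000600c8001806000044100004004001e0018003b82))) 
(.lf (nat_lit 201467639) (dlOf (nat_lit 1) (nat_lit 0x40028003b81)))) 
(.lf (nat_lit 2348824567) (dlOf (nat_lit 1) (nat_lit 0xf400400bc000800a602))))))))) 
(.nd (nat_lit 17) (.nd (nat_lit 7) (.nd (nat_lit 28) (.nd (nat_lit 6) (.nd (nat_lit 19) 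
(.nd (nat_lit 26) (.nd (nat_lit 22) (.nd (nat_lit 27) 
(.lf (nat_lit 537141303) (dlOf (nat_lit 5) (nat_lit 0x1600ba009e054004e022801200000025e1000e80b0000a0320007202001702c0002f808010016000178040054004000e0008030d02))) 
(.lf (nat_lit 134488119) (dlOf (nat_lit 1) (nat_lit 0x58008000c00200220008030d03)))) 
(.lf (nat_lit 4464695) (dlOf (nat_lit 1) (nat_lit 0x80018290001)))) (.nd (nat_lit 27) 
(.lf (nat_lit 3825475639) (dlOf (nat_lit 2) (nat_lit 0x6a00a0037000000000100028008016000200200008160683))) 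
(.lf (nat_lit 201596983) (dlOf (nat_lit 1) (nat_lit 0x58008000c00200220008030d03))))) 
(.nd (nat_lit 21) (.nd (nat_lit 22) 
(.lf (nat_lit 59514935) (dlOf (nat_lit 2) (nat_lit 0xb19f80000004008800400460009800502))) 
(.lf (nat_lit 21766199) (dlOf (nat_lit 2) (nat_lit 0x1ec580017c0800280080220002001e0008a70683)))) 
(.nd (nat_lit 10) 
(.lf (nat_lit 45883447) (dlOf (nat_lit 2) (nat_lit 0x43848000b8080030008000c00200040009360503))) 
(.lf (nat_lit 53224503) (dlOf (nat_lit 1) (nat_lit 0x500080030002000c0009572883)))))) 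
(.nd (nat_lit 8) (.nd (nat_lit 10) (.nd (nat_lit 27) 
(.lf (nat_lit 5436088439) (dlOf (nat_lit 2) (nat_lit 0x80088000d40801280080008002002c00080c0c03))) 
(.lf (nat_lit 2349080695) (dlOf (nat_lit 8) (nat_lit 0x16404e002200b0000a02002701380004808003009c0001604019404e0022021000d00a001a002c0000a10015404e00004020038027000018100010138000080800080080030002000600080a1883)))) 
(.lf (nat_lit 2818849911) (dlOf (nat_lit 1) (nat_lit 0x2002812c101)))) (.nd (nat_lit 10) 
(.nd (nat_lit 19) (.lf (nat_lit 57944439) (dlOf (nat_lit 1) (nat_lit 0xc00200100009794e82))) 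
(.lf (nat_lit 33302903) (dlOf (nat_lit 1) (nat_lit 0x1c0028f54e81)))) 
(.lf (nat_lit 4832109943) (dlOf (nat_lit 1) (nat_lit 0x1400280d3501)))))) (.nd (nat_lit 19) 
(.nd (nat_lit 26) (.nd (nat_lit 29) (.nd (nat_lit 6) 
(.lf (nat_lit 3624152119) (dlOf (nat_lit 1) (nat_lit 0x80008146081))) 
(.lf (nat_lit 5772681591) (dlOf (nat_lit 1) (nat_lit 0x2c0018091001)))) (.nd (nat_lit 27) 
(.lf (nat_lit 1879318583) (dlOf (nat_lit 4) (nat_lit 0x1815c002c0a8000e04e0002383000302b80030150002000000046060004057000b02a0008013c002c09c0003808003c00180d0b81))) 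
(.lf (nat_lit 3087278135) (dlOf (nat_lit 2) (nat_lit 0x6a00a0037000000000100028008016000200200008160683))))) 
(.nd (nat_lit 6) (.nd (nat_lit 30) 
(.lf (nat_lit 2483298359) (dlOf (nat_lit 8) (nat_lit 0x2900220002d01000301380012c08002809c0008004007404e00038020030022000058100d301100000c0801d00880000404009c004007200180a0b82))) 
(.lf (nat_lit 1409556535) (dlOf (nat_lit 5) (nat_lit 0x1600ba009e054004e02100120000002621000e80b0000a0320007202002002c0002f80800b81600017a040054004000e0008030d02)))) 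
(.lf (nat_lit 2483298423) (dlOf (nat_lit 8) (nat_lit 0x16404e002200b0000a02002701380004808003009c0001604019404e0022021000d00a001a002c0000a10015404e00004020038027000018100010138000080800080080030002000600080a1883))))) 
(.nd (nat_lit 20) (.nd (nat_lit 8) 
(.lf (nat_lit 4096532535) (dlOf (nat_lit 1) (nat_lit 0x180018120481))) 
(.lf (nat_lit 6376137015) (dlOf (nat_lit 8) (nat_lit 0x613e000309a0012843c007821c0001608001610f0000a81000b087800100000002208002c21e0001002001610f0000181000b08780000808004043c00381ee003600000000038090b80)))) 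
(.nd (nat_lit 26) 
(.lf (nat_lit 5773205559) (dlOf (nat_lit 11) (nat_lit 0x4262002120200041310010301000309e807804c401bc2600020406018c131000f601001e0990002bc0800304c8000e404009c2640002a02003e1320001401001e09900009c0800e84c40000004009000400b600080b0482))) 
(.nd (nat_lit 29) (.lf (nat_lit 471605303) (dlOf (nat_lit 1) (nat_lit 0x3e0008350901))) 
(.lf (nat_lit 6377185335) (dlOf (nat_lit 11) (nat_lit 0x42440022202000613000f0091003784840040c0c00082440020502018c122000f601001e0918002bc08003048c000e404007c2460002502004e1230001201001e0918000880800e84880000004009000400b600080b0482)))))))) 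
(.nd (nat_lit 6) (.nd (nat_lit 8) (.nd (nat_lit 10) (.nd (nat_lit 26) 
(.lf (nat_lit 4563673271) (dlOf (nat_lit 7) (nat_lit 0x1001200071810069009000388080310048000ec040104024000750200800120003a0100410090001cc0801880080030002001800080c1703))) 
(.lf (nat_lit 5436088503) (dlOf (nat_lit 8) (nat_lit 0x538050075c022000e304004a011000710100760088003840805f8044000ec0400b00220007502009a0110003a01003f0088001cc080880008014c002094a00080c1703)))) 
(.nd (nat_lit 9) (.lf (nat_lit 20196535) (dlOf (nat_lit 1) (nat_lit 0x400189d6281))) 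
(.lf (nat_lit 3557045943) (dlOf (nat_lit 2) (nat_lit 0x80460025001812a000))))) (.nd (nat_lit 9) 
(.nd (nat_lit 10) (.nd (nat_lit 11) 
(.lf (nat_lit 9707959) (dlOf (nat_lit 1) (nat_lit 0x40018577781))) 
(.lf (nat_lit 1745103287) (dlOf (nat_lit 1) (nat_lit 0x20018094e81)))) 
(.lf (nat_lit 43263415) (dlOf (nat_lit 1) (nat_lit 0x600192a3601)))) (.nd (nat_lit 12) 
(.lf (nat_lit 4496567223) (dlOf (nat_lit 1) (nat_lit 0x2400180e5d01))) 
(.lf (nat_lit 3221502903) (dlOf (nat_lit 1) (nat_lit 0x2002811be01)))))) (.nd (nat_lit 8) 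
(.nd (nat_lit 26) (.nd (nat_lit 10) (.nd (nat_lit 20) 
(.lf (nat_lit 38019319) (dlOf (nat_lit 1) (nat_lit 0x4004007e0009112482))) 
(.lf (nat_lit 20193527) (dlOf (nat_lit 1) (nat_lit 0x4002000200089d0a82)))) 
(.lf (nat_lit 8664311) (dlOf (nat_lit 1) (nat_lit 0x20018519501)))) (.nd (nat_lit 11) 
(.lf (nat_lit 6376661239) (dlOf (nat_lit 1) (nat_lit 0x20028090a81))) (.nd (nat_lit 12) 
(.lf (nat_lit 2751736055) (dlOf (nat_lit 1) (nat_lit 0xa80028004b81))) 
(.lf (nat_lit 3557046519) (dlOf (nat_lit 2) (nat_lit 0x1001f8000bc0800e800800bc0020168000812a983)))))) 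
(.nd (nat_lit 9) (.nd (nat_lit 11) 
(.lf (nat_lit 5905850871) (dlOf (nat_lit 8) (nat_lit 0xd01280017c0800700b000a8050008a02708b60128263807822d002e0005e0c001c02c002001404598094131c03c11680170002e05000e00b80016c080c280fc0628076000403a009e01c000380d4009805a002002c0012014801280a0000804e128e025060900f04aa805c0008834054807e028803b005b01d004b80e0009405a001a02c0008015000700a400e40501290025056f00f04ab805c000863009e804a04e401700021028157e00))) 
(.lf (nat_lit 37497335) (dlOf (nat_lit 1) (nat_lit 0x4002000200090d4f82)))) (.nd (nat_lit 10) 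
(.lf (nat_lit 36447223) (dlOf (nat_lit 1) (nat_lit 0x20008000400200020009072883))) 
(.lf (nat_lit 2751739895) (dlOf (nat_lit 1) (nat_lit 0x2001800a601)))))))) (.nd (nat_lit 19) 
(.nd (nat_lit 26) (.nd (nat_lit 28) (.nd (nat_lit 20) (.nd (nat_lit 27) (.nd (nat_lit 21) 
(.lf (nat_lit 5905981495) (dlOf (nat_lit 1) (nat_lit 0x20028170d01))) 
(.lf (nat_lit 48635959) (dlOf (nat_lit 1) (nat_lit 0x20009420501)))) (.nd (nat_lit 6) 
(.lf (nat_lit 134619703) (dlOf (nat_lit 2) (nat_lit 0x26043000e0208000001000f0008004c00200ae0008090f83))) 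
(.lf (nat_lit 134619511) (dlOf (nat_lit 2) (nat_lit 0xda03b0039b818090780))))) (.nd (nat_lit 21) 
(.lf (nat_lit 26615863) (dlOf (nat_lit 1) (nat_lit 0x10000801c800200380008c50483))) 
(.lf (nat_lit 24518711) (dlOf (nat_lit 1) (nat_lit 0x60018ba0b01))))) (.nd (nat_lit 31) 
(.nd (nat_lit 6) (.nd (nat_lit 20) (.nd (nat_lit 22) 
(.lf (nat_lit 5637546039) (dlOf (nat_lit 2) (nat_lit 0x74026001f20200020028100481))) 
(.lf (nat_lit 1346773047) (dlOf (nat_lit 1) (nat_lit 0x68008000c00200100009000503)))) 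
(.lf (nat_lit 1343627319) (dlOf (nat_lit 1) (nat_lit 0x3e00082c0901)))) 
(.lf (nat_lit 1881546999) (dlOf (nat_lit 1) (nat_lit 0x20018f42481)))) (.nd (nat_lit 6) 
(.nd (nat_lit 21) 
(.lf (nat_lit 4026933303) (dlOf (nat_lit 7) (nat_lit 0x10c040001e602013a02000390058007341000a808000396040098040001730200ae0200004081005e01000000c08010800801a000200a600080d0b83))) 
(.lf (nat_lit 3492159543) (dlOf (nat_lit 3) (nat_lit 0x400000003802000a0ab000160180a0b80)))) 
(.lf (nat_lit 3490064759) (dlOf (nat_lit 1) (nat_lit 0x20018004e81)))))) (.nd (nat_lit 27) 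
(.nd (nat_lit 29) (.nd (nat_lit 30) (.nd (nat_lit 6) 
(.lf (nat_lit 6509961271) (dlOf (nat_lit 1) (nat_lit 0x20028170d01))) 
(.lf (nat_lit 4362477943) (dlOf (nat_lit 2) (nat_lit 0x1203300716018090780)))) (.nd (nat_lit 28) 
(.lf (nat_lit 3288735799) (dlOf (nat_lit 7) (nat_lit 0x10c040001e602013a02000390058007341000a808000396040098040001710200ae0200004081005e01000001c08010800801a000200a600080d0b83))) 
(.lf (nat_lit 3557171255) (dlOf (nat_lit 1) (nat_lit 0xe0028130001))))) (.nd (nat_lit 7) 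
(.nd (nat_lit 28) (.lf (nat_lit 4899348535) (dlOf (nat_lit 1) (nat_lit 0x400400080008140682))) 
(.lf (nat_lit 6241525815) (dlOf (nat_lit 2) (nat_lit 0x74024001f30200020028100481)))) 
(.lf (nat_lit 2755017655) (dlOf (nat_lit 1) (nat_lit 0x70004014000080fbe02))))) (.nd (nat_lit 7) 
(.nd (nat_lit 9) 
(.lf (nat_lit 4496695351) (dlOf (nat_lit 1) (nat_lit 0x1b8008005c00200f20008120483))) 
(.lf (nat_lit 201728567) (dlOf (nat_lit 2) (nat_lit 0x26043000e0208000001000f0008004c00200ae0008090f83)))) 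
(.nd (nat_lit 6) (.nd (nat_lit 8) 
(.lf (nat_lit 738599095) (dlOf (nat_lit 1) (nat_lit 0x1a00080040002000400080c1703))) 
(.lf (nat_lit 2886084535) (dlOf (nat_lit 1) (nat_lit 0x4004005e0008144382)))) 
(.lf (nat_lit 473311735) (dlOf (nat_lit 3) (nat_lit 0x42c0001209c000108200090468000700800d000800d800200040008e94f83))))))) 
(.nd (nat_lit 7) (.nd (nat_lit 28) (.nd (nat_lit 20) (.nd (nat_lit 8) 
(.lf (nat_lit 13508663) (dlOf (nat_lit 2) (nat_lit 0x626b000e6818730b80))) 
(.lf (nat_lit 2752389431) (dlOf (nat_lit 1) (nat_lit 0x30008002400200140008014c03)))) 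
(.nd (nat_lit 10) 
(.lf (nat_lit 4071479) (dlOf (nat_lit 2) (nat_lit 0x180000037a04000800200020008270b82))) 
(.lf (nat_lit 43918391) (dlOf (nat_lit 1) (nat_lit 0x50004000400192a2882))))) (.nd (nat_lit 6) 
(.nd (nat_lit 8) 
(.lf (nat_lit 1345201207) (dlOf (nat_lit 2) (nat_lit 0x301720151302000a0028b02881))) 
(.lf (nat_lit 3490586935) (dlOf (nat_lit 1) (nat_lit 0x30008002400200140008014c03)))) 
(.nd (nat_lit 8) 
(.lf (nat_lit 3493732471) (dlOf (nat_lit 1) (nat_lit 0x80080078002000a00081b0083))) 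
(.lf (nat_lit 1343103351) (dlOf (nat_lit 1) (nat_lit 0x20008150b01)))))) (.nd (nat_lit 8) 
(.nd (nat_lit 6) (.nd (nat_lit 20) 
(.lf (nat_lit 3023031) (dlOf (nat_lit 1) (nat_lit 0x560028200381))) 
(.lf (nat_lit 6377316535) (dlOf (nat_lit 1) (nat_lit 0x1200280c1701)))) (.nd (nat_lit 12) 
(.lf (nat_lit 20848887) (dlOf (nat_lit 1) (nat_lit 0x200189e4501))) 
(.lf (nat_lit 8270071) (dlOf (nat_lit 1) (nat_lit 0x460028518081))))) (.nd (nat_lit 25) 
(.nd (nat_lit 6) 
(.lf (nat_lit 2752389559) (dlOf (nat_lit 1) (nat_lit 0x10008000800200040008017783))) 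
(.lf (nat_lit 2752389623) (dlOf (nat_lit 4) (nat_lit 0x1a0860001581000c0430000a80801902c80002c0400cc00200060008017e02)))) 
(.nd (nat_lit 9) (.lf (nat_lit 37628407) (dlOf (nat_lit 1) (nat_lit 0x4002000200090d4f82))) 
(.lf (nat_lit 34481143) (dlOf (nat_lit 1) (nat_lit 0x20018fb2881))))))))))) (.nd (nat_lit 17) 
(.nd (nat_lit 18) (.nd (nat_lit 28) (.nd (nat_lit 26) (.nd (nat_lit 6) (.nd (nat_lit 10) 
(.nd (nat_lit 7) (.nd (nat_lit 13) (.nd (nat_lit 19) 
(.lf (nat_lit 14712887) (dlOf (nat_lit 1) (nat_lit 0x10000801c800200380008770483))) 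
(.nd (nat_lit 20) 
(.lf (nat_lit 4751415) (dlOf (nat_lit 4) (nat_lit 0x5967c002b6040028c5c0014613000a2cd80039018006000000176040018002001000082b0482))) 
(.lf (nat_lit 3702839) (dlOf (nat_lit 4) (nat_lit 0x21931c002c97a00184a8000c24b00011c20020131c001497a00124a8000824b0001182001a931c002c97a00184a8000b24b0000e0200610008038000201740008210b83))))) 
(.nd (nat_lit 20) 
(.lf (nat_lit 25206839) (dlOf (nat_lit 4) (nat_lit 0x130000000e68100030000006140801780000010204001c00200080008bf0b82))) 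
(.lf (nat_lit 17866807) (dlOf (nat_lit 1) (nat_lit 0x40008900c01))))) (.nd (nat_lit 8) 
(.lf (nat_lit 30441655) (dlOf (nat_lit 1) (nat_lit 0x62800801ec002018c0008e30483))) 
(.nd (nat_lit 12) 
(.lf (nat_lit 5368744887) (dlOf (nat_lit 2) (nat_lit 0x190028000fc0800a8008002400200300008005d03))) 
(.lf (nat_lit 6442490807) (dlOf (nat_lit 1) (nat_lit 0x8001800be01)))))) (.nd (nat_lit 8) 
(.nd (nat_lit 23) (.nd (nat_lit 9) 
(.lf (nat_lit 4831872055) (dlOf (nat_lit 1) (nat_lit 0x11c00200500008002882))) 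
(.lf (nat_lit 2147518007) (dlOf (nat_lit 2) (nat_lit 0x8002800180000004e080008004002e0018003782)))) 
(.nd (nat_lit 7) (.lf (nat_lit 58754103) (dlOf (nat_lit 1) (nat_lit 0x400097e2881))) 
(.lf (nat_lit 33072311) (dlOf (nat_lit 1) (nat_lit 0x400200540008f52c82))))) (.nd (nat_lit 7) 
(.nd (nat_lit 9) (.lf (nat_lit 8434999) (dlOf (nat_lit 1) (nat_lit 0x400200020008519902))) 
(.lf (nat_lit 558903) (dlOf (nat_lit 1) (nat_lit 0xa80080114002000a0008003e03)))) 
(.lf (nat_lit 2147517879) (dlOf (nat_lit 1) (nat_lit 0xf0008000c002000c0008003603)))))) 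
(.nd (nat_lit 7) (.nd (nat_lit 8) (.nd (nat_lit 10) (.nd (nat_lit 19) 
(.lf (nat_lit 18907255) (dlOf (nat_lit 1) (nat_lit 0x400200020008970482))) 
(.lf (nat_lit 3702903) (dlOf (nat_lit 1) (nat_lit 0x12000800a800200780008211883)))) 
(.nd (nat_lit 13) (.lf (nat_lit 8428663) (dlOf (nat_lit 1) (nat_lit 0x40020002000851c102))) 
(.lf (nat_lit 8436855) (dlOf (nat_lit 1) (nat_lit 0x40020002000851c102))))) (.nd (nat_lit 9) 
(.lf (nat_lit 62949751) (dlOf (nat_lit 1) (nat_lit 0xa00080004002000200099a4e83))) 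
(.nd (nat_lit 13) (.lf (nat_lit 8427383) (dlOf (nat_lit 1) (nat_lit 0x2001851a301))) 
(.lf (nat_lit 8435575) (dlOf (nat_lit 1) (nat_lit 0x800800080020002000851a303)))))) 
(.nd (nat_lit 9) (.nd (nat_lit 13) (.nd (nat_lit 19) 
(.lf (nat_lit 37784055) (dlOf (nat_lit 1) (nat_lit 0x4002000200090d4f82))) 
(.lf (nat_lit 37259767) (dlOf (nat_lit 1) (nat_lit 0x1600090d4f81)))) 
(.lf (nat_lit 37792247) (dlOf (nat_lit 1) (nat_lit 0x80080008002000400090d4f83)))) (.nd (nat_lit 8) 
(.lf (nat_lit 4831873783) (dlOf (nat_lit 1) (nat_lit 0x400400020008005a02))) (.nd (nat_lit 11) 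
(.lf (nat_lit 50373623) (dlOf (nat_lit 1) (nat_lit 0x200194c2881))) 
(.lf (nat_lit 5368744951) (dlOf (nat_lit 1) (nat_lit 0x380080074002000e0008005f03)))))))) 
(.nd (nat_lit 11) (.nd (nat_lit 19) (.nd (nat_lit 8) (.nd (nat_lit 7) (.nd (nat_lit 6) 
(.lf (nat_lit 2752544823) (dlOf (nat_lit 2) (nat_lit 0xb891c000000400d8002008a0008020682))) 
(.lf (nat_lit 6643816055) (dlOf (nat_lit 1) (nat_lit 0x1800200020008009d02)))) (.nd (nat_lit 13) 
(.lf (nat_lit 1275101431) (dlOf (nat_lit 1) (nat_lit 0x4c000800c800200e40008000a83))) 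
(.lf (nat_lit 5033206007) (dlOf (nat_lit 1) (nat_lit 0x100018000a81))))) (.nd (nat_lit 6) 
(.lf (nat_lit 2348853047) (dlOf (nat_lit 1) (nat_lit 0x500080044002000e0008003e03))) 
(.nd (nat_lit 9) 
(.lf (nat_lit 5435852151) (dlOf (nat_lit 1) (nat_lit 0x18008001000200040008003503))) 
(.lf (nat_lit 4362110839) (dlOf (nat_lit 2) (nat_lit 0x1011c0001004008800200140008004082)))))) 
(.nd (nat_lit 21) (.nd (nat_lit 13) (.nd (nat_lit 30) 
(.lf (nat_lit 2886238263) (dlOf (nat_lit 3) (nat_lit 0x2e80410057c01002000d802bbc080c580080700002019000081a0703))) 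
(.lf (nat_lit 3959980087) (dlOf (nat_lit 2) (nat_lit 0x100000000c018180a80)))) 
(.lf (nat_lit 2756223031) (dlOf (nat_lit 2) (nat_lit 0x2a21a0003080000280000038a0c000400400400018220b82)))) 
(.nd (nat_lit 13) (.nd (nat_lit 20) 
(.lf (nat_lit 2754117687) (dlOf (nat_lit 1) (nat_lit 0xc00280c1201))) 
(.lf (nat_lit 2755166263) (dlOf (nat_lit 1) (nat_lit 0x20018120d01)))) 
(.lf (nat_lit 2755174455) (dlOf (nat_lit 2) (nat_lit 0x20340005540800a8008002c00200100008120d03)))))) 
(.nd (nat_lit 7) (.nd (nat_lit 6) (.nd (nat_lit 13) 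
(.lf (nat_lit 2751502903) (dlOf (nat_lit 2) (nat_lit 0x2220700020000001ec10004800800380020020000800b403))) 
(.lf (nat_lit 2751511095) (dlOf (nat_lit 2) (nat_lit 0x3881c000f60400200040016000800b402)))) 
(.nd (nat_lit 20) (.lf (nat_lit 5033199991) (dlOf (nat_lit 1) (nat_lit 0xa0018004e81))) 
(.lf (nat_lit 2754644343) (dlOf (nat_lit 1) (nat_lit 0x4002000200080f4e82))))) (.nd (nat_lit 9) 
(.nd (nat_lit 13) (.nd (nat_lit 20) 
(.lf (nat_lit 5972724919) (dlOf (nat_lit 1) (nat_lit 0x1000200100008006282))) 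
(.lf (nat_lit 2754645175) (dlOf (nat_lit 4) (nat_lit 0x38080000190200080400000b01000e02f0000500800400080014002000600080f6283)))) 
(.lf (nat_lit 2754653367) (dlOf (nat_lit 1) (nat_lit 0x200280f6281)))) (.nd (nat_lit 6) 
(.lf (nat_lit 1677769655) (dlOf (nat_lit 1) (nat_lit 0x40020002000800be02))) 
(.lf (nat_lit 4496329463) (dlOf (nat_lit 1) (nat_lit 0x20018005a01)))))))) (.nd (nat_lit 7) 
(.nd (nat_lit 30) (.nd (nat_lit 10) (.nd (nat_lit 29) (.nd (nat_lit 8) (.nd (nat_lit 9) 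
(.lf (nat_lit 471367799) (dlOf (nat_lit 1) (nat_lit 0x4004000200082e0482))) 
(.lf (nat_lit 402688631) (dlOf (nat_lit 2) (nat_lit 0x40200001a818005400)))) 
(.lf (nat_lit 2483063159) (dlOf (nat_lit 3) (nat_lit 0x402800795010009014003c9c0800c00080064002002a0008004e83)))) 
(.nd (nat_lit 6) (.lf (nat_lit 3154673719) (dlOf (nat_lit 1) (nat_lit 0x400200020008310002))) 
(.nd (nat_lit 8) (.lf (nat_lit 872450679) (dlOf (nat_lit 1) (nat_lit 0x400200020008005402))) 
(.lf (nat_lit 5234526583) (dlOf (nat_lit 1) (nat_lit 0x580018004e81)))))) (.nd (nat_lit 6) 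
(.nd (nat_lit 26) (.nd (nat_lit 9) 
(.lf (nat_lit 2952838199) (dlOf (nat_lit 1) (nat_lit 0x20002000a000800bf02))) 
(.lf (nat_lit 4563445303) (dlOf (nat_lit 2) (nat_lit 0xc04200060000000b8100038008000400200040008003783)))) 
(.nd (nat_lit 13) (.lf (nat_lit 335578679) (dlOf (nat_lit 1) (nat_lit 0x1000400220008003782))) 
(.lf (nat_lit 335586871) (dlOf (nat_lit 2) (nat_lit 0x4012000d0088000781000100080070002000e0008003783))))) 
(.nd (nat_lit 13) (.lf (nat_lit 469796727) (dlOf (nat_lit 1) (nat_lit 0xc00400240008004082))) 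
(.lf (nat_lit 469804919) (dlOf (nat_lit 1) (nat_lit 0x100028004081)))))) (.nd (nat_lit 19) 
(.nd (nat_lit 8) (.nd (nat_lit 6) (.nd (nat_lit 10) 
(.lf (nat_lit 3490742327) (dlOf (nat_lit 2) (nat_lit 0xb88bc000000400d8002008a0008020682))) 
(.lf (nat_lit 1342215223) (dlOf (nat_lit 2) (nat_lit 0x1e0470012700803c0008000c00200440008009203)))) 
(.nd (nat_lit 10) 
(.lf (nat_lit 3691027063) (dlOf (nat_lit 2) (nat_lit 0x1800000956040014002002a000800b682))) 
(.lf (nat_lit 4227894903) (dlOf (nat_lit 1) (nat_lit 0xa8008003c002000c0008007183))))) 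
(.nd (nat_lit 9) (.lf (nat_lit 1346404663) (dlOf (nat_lit 1) (nat_lit 0x1240008f60b81))) 
(.nd (nat_lit 13) 
(.lf (nat_lit 1342215991) (dlOf (nat_lit 6) (nat_lit 0x1408e0001201000a047000101f80004008000811c0001f02003408e0000f0100100470000740801800080120002000c000800a103))) 
(.lf (nat_lit 1342224183) (dlOf (nat_lit 2) (nat_lit 0x608e0001001800a100)))))) (.nd (nat_lit 20) 
(.nd (nat_lit 13) (.nd (nat_lit 21) 
(.lf (nat_lit 3624435767) (dlOf (nat_lit 3) (nat_lit 0x2e8041002a781002000e001518080c580080700002019000081a0703))) 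
(.lf (nat_lit 3492315191) (dlOf (nat_lit 1) (nat_lit 0xc00280c1201)))) 
(.lf (nat_lit 3494420535) (dlOf (nat_lit 2) (nat_lit 0x2a2050003080000280000038a0c000400400400018220b82)))) 
(.nd (nat_lit 13) (.nd (nat_lit 21) 
(.lf (nat_lit 1343782967) (dlOf (nat_lit 1) (nat_lit 0x8008000400200020008370003))) 
(.lf (nat_lit 3493363767) (dlOf (nat_lit 1) (nat_lit 0x20018120d01)))) 
(.lf (nat_lit 3493371959) (dlOf (nat_lit 2) (nat_lit 0x20340005540800a8008002c00200100008120d03))))))) 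
(.nd (nat_lit 11) (.nd (nat_lit 10) (.nd (nat_lit 6) (.nd (nat_lit 8) (.nd (nat_lit 20) 
(.lf (nat_lit 471892151) (dlOf (nat_lit 1) (nat_lit 0x800286b0481))) 
(.lf (nat_lit 1880129719) (dlOf (nat_lit 1) (nat_lit 0x40018740481)))) 
(.lf (nat_lit 1476432823) (dlOf (nat_lit 1) (nat_lit 0x2e0018009201)))) (.nd (nat_lit 13) 
(.nd (nat_lit 19) (.nd (nat_lit 26) 
(.lf (nat_lit 2013298935) (dlOf (nat_lit 1) (nat_lit 0x2a0008000a81))) 
(.lf (nat_lit 872448247) (dlOf (nat_lit 1) (nat_lit 0x400400080018000a82)))) 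
(.lf (nat_lit 1476952311) (dlOf (nat_lit 1) (nat_lit 0x9c0008316f81)))) 
(.lf (nat_lit 2013307127) (dlOf (nat_lit 1) (nat_lit 0x60028000a81))))) (.nd (nat_lit 8) 
(.nd (nat_lit 9) (.lf (nat_lit 4160787639) (dlOf (nat_lit 1) (nat_lit 0x1c0028009501))) 
(.lf (nat_lit 4026566327) (dlOf (nat_lit 1) (nat_lit 0x20008003a81)))) (.nd (nat_lit 19) 
(.nd (nat_lit 26) (.lf (nat_lit 4563445175) (dlOf (nat_lit 1) (nat_lit 0x540008003601))) 
(.lf (nat_lit 335586743) (dlOf (nat_lit 1) (nat_lit 0x4004002e0008003602)))) 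
(.lf (nat_lit 1009296823) (dlOf (nat_lit 1) (nat_lit 0x200190e3601)))))) (.nd (nat_lit 6) 
(.nd (nat_lit 9) (.nd (nat_lit 8) 
(.lf (nat_lit 1543538871) (dlOf (nat_lit 2) (nat_lit 0x200500000018004900))) (.nd (nat_lit 10) 
(.lf (nat_lit 872450487) (dlOf (nat_lit 1) (nat_lit 0xc0028004e81))) 
(.lf (nat_lit 469802423) (dlOf (nat_lit 1) (nat_lit 0x800800040020002000800cd03))))) 
(.nd (nat_lit 12) (.nd (nat_lit 26) 
(.lf (nat_lit 6710922167) (dlOf (nat_lit 2) (nat_lit 0x300b0002005400000080008002000c0008005d02))) 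
(.lf (nat_lit 4764765111) (dlOf (nat_lit 1) (nat_lit 0x40008005d01)))) (.nd (nat_lit 8) 
(.lf (nat_lit 1342216887) (dlOf (nat_lit 2) (nat_lit 0xc05080008008000800800080020008000800b883))) 
(.lf (nat_lit 2483076023) (dlOf (nat_lit 1) (nat_lit 0x1c002800be01)))))) (.nd (nat_lit 29) 
(.nd (nat_lit 9) (.nd (nat_lit 13) 
(.lf (nat_lit 3691026679) (dlOf (nat_lit 2) (nat_lit 0x270020000bc08013800800200020014000800a983))) 
(.lf (nat_lit 3691034871) (dlOf (nat_lit 2) (nat_lit 0x580250001781800a980)))) (.nd (nat_lit 8) 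
(.lf (nat_lit 5704289015) (dlOf (nat_lit 1) (nat_lit 0x400400020008005a02))) 
(.lf (nat_lit 4764765175) (dlOf (nat_lit 2) (nat_lit 0x300200009008024800800a8002000c0008005f03))))) 
(.nd (nat_lit 19) (.nd (nat_lit 27) 
(.lf (nat_lit 5100309239) (dlOf (nat_lit 1) (nat_lit 0x30008000400200020008005a03))) 
(.lf (nat_lit 6308268791) (dlOf (nat_lit 1) (nat_lit 0x800400020018005a02)))) 
(.lf (nat_lit 6377999095) (dlOf (nat_lit 1) (nat_lit 0x100080008002000200080e5a03))))))))) 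
(.nd (nat_lit 13) (.nd (nat_lit 6) (.nd (nat_lit 26) (.nd (nat_lit 22) (.nd (nat_lit 29) 
(.nd (nat_lit 7) (.nd (nat_lit 19) (.nd (nat_lit 21) 
(.lf (nat_lit 1208254519) (dlOf (nat_lit 2) (nat_lit 0x70148000900800080080004002000200080b0483))) 
(.lf (nat_lit 3492053047) (dlOf (nat_lit 1) (nat_lit 0x600080a0b81)))) 
(.lf (nat_lit 10256439) (dlOf (nat_lit 1) (nat_lit 0x380080050002000c00085c0d03)))) 
(.nd (nat_lit 10) 
(.lf (nat_lit 4563697847) (dlOf (nat_lit 4) (nat_lit 0x100900038c080010048000ea0400080240007302005000280c1701))) 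
(.lf (nat_lit 36471991) (dlOf (nat_lit 2) (nat_lit 0x667b00009819072c80))))) (.nd (nat_lit 7) 
(.nd (nat_lit 9) (.nd (nat_lit 27) 
(.lf (nat_lit 3758391351) (dlOf (nat_lit 2) (nat_lit 0x4603b00000018170480))) 
(.lf (nat_lit 671383607) (dlOf (nat_lit 25) (nat_lit 0x2e004a0214022000f102018201280dd80880035a0802dc04a021a022000d582013c01280bb008800350080064044001a702024402501870110006741000700880033604012404a01c8022000c2820005012806200880014608038804a02380220004f8200a801280808088000f208017404a01920220003c02011901280a78088000e40800a804400043020092022000210100de012808b008800180240003c06011402500ba0110000ec100158094000740400bc04400038020486025028e0110000a8100720094047c044000280401b8025011d01100009c10052809404180440001404026402501770110000001050580080aa8002006a0008170d03)))) 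
(.lf (nat_lit 537693751) (dlOf (nat_lit 1) (nat_lit 0x4c00280f7181)))) 
(.lf (nat_lit 537166007) (dlOf (nat_lit 1) (nat_lit 0x400200020008045202))))) (.nd (nat_lit 9) 
(.nd (nat_lit 7) (.nd (nat_lit 21) 
(.lf (nat_lit 30703671) (dlOf (nat_lit 1) (nat_lit 0x40018e41081))) 
(.lf (nat_lit 24412215) (dlOf (nat_lit 5) (nat_lit 0x4bd4001a5de8005ae94000900c00317a80010bbd00055d28005ad140008e1000317a80012ba5000b5a2800118180062f50002177a0002bb7000a5d280032d140007014004000400040018b90b82)))) 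
(.lf (nat_lit 47482039) (dlOf (nat_lit 1) (nat_lit 0x20019402c81)))) (.nd (nat_lit 8) 
(.nd (nat_lit 11) (.lf (nat_lit 23364151) (dlOf (nat_lit 1) (nat_lit 0x60028b80f81))) 
(.lf (nat_lit 55347767) (dlOf (nat_lit 1) (nat_lit 0x200196d5181)))) 
(.lf (nat_lit 8160055) (dlOf (nat_lit 1) (nat_lit 0x8008000400200020008512283)))))) 
(.nd (nat_lit 27) (.nd (nat_lit 28) (.nd (nat_lit 7) 
(.lf (nat_lit 68977719) (dlOf (nat_lit 1) (nat_lit 0x400400020008842882))) 
(.lf (nat_lit 4362371255) (dlOf (nat_lit 1) (nat_lit 0x400400020008045202)))) (.nd (nat_lit 29) 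
(.lf (nat_lit 2483322935) (dlOf (nat_lit 4) (nat_lit 0x128011000168080520088000403400080050000183003b01100000808001800800a0002001000080a0b83))) 
(.lf (nat_lit 3020193847) (dlOf (nat_lit 4) (nat_lit 0x72018802680b0007c04a0012f060084031005c0128003901005f80c00224044000000400020008150481))))) 
(.nd (nat_lit 8) (.nd (nat_lit 9) (.nd (nat_lit 29) 
(.lf (nat_lit 1543798839) (dlOf (nat_lit 25) (nat_lit 0x2e004a0214022000f102018201280dd8088003500802dc04a021a022000d202013c01280bb008800346080064044001a0020244025018701100066c1000700880033204012404a01c8022000bf020005012806200880014608038804a02380220004f8200a801280808088000f208017404a01920220003c02011901280a78088000e40800a80440003b0200920220001d0100de012808b008800180240003906011402500ba0110000d81001580940006a0400bc044000340201c8025011f0110000941012180940a38044000240401b8025011d01100008810052809404180440000f04026402501770110000001050580080aa8002006a0008170d03))) 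
(.lf (nat_lit 2080669751) (dlOf (nat_lit 2) (nat_lit 0x70148000a80800080080004002000200080b0483)))) 
(.lf (nat_lit 3959718455) (dlOf (nat_lit 1) (nat_lit 0x20018128b01)))) 
(.lf (nat_lit 6376161591) (dlOf (nat_lit 8) (nat_lit 0x210f0000b01000708780005408007043c0002204001c21e0001002000a10f0000181000708780000808005843c0008000000000400100018090b81)))))) 
(.nd (nat_lit 7) (.nd (nat_lit 21) (.nd (nat_lit 8) (.nd (nat_lit 28) (.nd (nat_lit 12) 
(.lf (nat_lit 2349105271) (dlOf (nat_lit 4) (nat_lit 0x22029001200780068034000280c0080052004000f000028200090148000100802880080114002000e00080a1883))) 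
(.lf (nat_lit 299127) (dlOf (nat_lit 1) (nat_lit 0x140028007d81)))) (.nd (nat_lit 29) 
(.lf (nat_lit 2483322999) (dlOf (nat_lit 4) (nat_lit 0x22029001200780068034000280c0080052004000f000028200090148000100802880080114002000e00080a1883))) 
(.lf (nat_lit 5167677559) (dlOf (nat_lit 1) (nat_lit 0x20028101181))))) (.nd (nat_lit 9) 
(.lf (nat_lit 6107201911) (dlOf (nat_lit 1) (nat_lit 0x4002000200080a7d02))) 
(.lf (nat_lit 67934071) (dlOf (nat_lit 1) (nat_lit 0x4001833a301))))) (.nd (nat_lit 8) 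
(.nd (nat_lit 20) (.nd (nat_lit 26) 
(.lf (nat_lit 3492053111) (dlOf (nat_lit 1) (nat_lit 0x4002000200080a1882))) 
(.lf (nat_lit 2753855607) (dlOf (nat_lit 1) (nat_lit 0x4002000200080a1882)))) (.nd (nat_lit 22) 
(.lf (nat_lit 62161015) (dlOf (nat_lit 1) (nat_lit 0x2800200100009961182))) 
(.lf (nat_lit 24412279) (dlOf (nat_lit 1) (nat_lit 0x8008000400200020008b91883))))) 
(.nd (nat_lit 11) 
(.lf (nat_lit 8159607) (dlOf (nat_lit 1) (nat_lit 0x8f0008000400200a20008511003))) 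
(.nd (nat_lit 19) (.lf (nat_lit 49580407) (dlOf (nat_lit 1) (nat_lit 0x400200020009464e82))) 
(.lf (nat_lit 36473207) (dlOf (nat_lit 1) (nat_lit 0x20019074e81))))))) (.nd (nat_lit 26) 
(.nd (nat_lit 8) (.nd (nat_lit 10) (.nd (nat_lit 22) 
(.lf (nat_lit 537166071) (dlOf (nat_lit 1) (nat_lit 0x28008005000200020008047783))) 
(.lf (nat_lit 38043895) (dlOf (nat_lit 1) (nat_lit 0x500009112481)))) (.nd (nat_lit 12) 
(.lf (nat_lit 5772182775) (dlOf (nat_lit 1) (nat_lit 0x20028092e81))) 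
(.lf (nat_lit 8688887) (dlOf (nat_lit 1) (nat_lit 0x20018519501))))) (.nd (nat_lit 11) 
(.lf (nat_lit 5905875447) (dlOf (nat_lit 5) (nat_lit 0x17804a0005e0200dc0250002e0100a90128001100804e00940008604001400400020018157e02))) 
(.lf (nat_lit 49056247) (dlOf (nat_lit 1) (nat_lit 0x78008004000200040009464f83))))) 
(.nd (nat_lit 11) (.nd (nat_lit 20) 
(.lf (nat_lit 4362371319) (dlOf (nat_lit 1) (nat_lit 0x560028047781))) (.nd (nat_lit 27) 
(.lf (nat_lit 2752807159) (dlOf (nat_lit 1) (nat_lit 0xa0018047781))) 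
(.lf (nat_lit 6376685815) (dlOf (nat_lit 2) (nat_lit 0x1090800580080060008000400200060008090a83))))) 
(.nd (nat_lit 8) (.lf (nat_lit 3557071095) (dlOf (nat_lit 1) (nat_lit 0x98001812a981))) 
(.lf (nat_lit 472680951) (dlOf (nat_lit 1) (nat_lit 0x400200020008a44f82)))))))) (.nd (nat_lit 7) 
(.nd (nat_lit 19) (.nd (nat_lit 28) (.nd (nat_lit 30) (.nd (nat_lit 6) (.nd (nat_lit 20) 
(.lf (nat_lit 12886071) (dlOf (nat_lit 1) (nat_lit 0x8004000200186e0b02))) 
(.lf (nat_lit 22323255) (dlOf (nat_lit 6) (nat_lit 0xa14f0001c0100020a78000d008003308c0025806000ec02002e5f280062f90001d7b0003ab560025549800caa480065470003a968000f4b3000ea5800005a3400257ca0002c02000813b000609500005c1000080080004002002c0008ac0683)))) 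
(.lf (nat_lit 62169207) (dlOf (nat_lit 1) (nat_lit 0x60008004800200400009961183)))) 
(.nd (nat_lit 8) 
(.lf (nat_lit 3758399543) (dlOf (nat_lit 4) (nat_lit 0x72018802680b0007c04a00131060084031005c0128003901005f80c00224044000000400020008170481))) 
(.nd (nat_lit 26) (.lf (nat_lit 3221528887) (dlOf (nat_lit 2) (nat_lit 0xe0420025c018124c00))) 
(.lf (nat_lit 3959726391) (dlOf (nat_lit 2) (nat_lit 0xe04200526818124c00)))))) (.nd (nat_lit 27) 
(.nd (nat_lit 21) (.nd (nat_lit 29) 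
(.lf (nat_lit 335847479) (dlOf (nat_lit 1) (nat_lit 0x280080064002001800080b0483))) 
(.lf (nat_lit 3020202039) (dlOf (nat_lit 1) (nat_lit 0x400200020008150482)))) (.nd (nat_lit 6) 
(.lf (nat_lit 3492061239) (dlOf (nat_lit 2) (nat_lit 0x28023000058040010002000400080a0b82))) 
(.lf (nat_lit 3492061303) (dlOf (nat_lit 1) (nat_lit 0x4002000200080a1882))))) (.nd (nat_lit 6) 
(.nd (nat_lit 10) 
(.lf (nat_lit 402956343) (dlOf (nat_lit 1) (nat_lit 0x280080064002001800080b0483))) 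
(.lf (nat_lit 5772715063) (dlOf (nat_lit 1) (nat_lit 0x20008092881)))) 
(.lf (nat_lit 2013571447) (dlOf (nat_lit 1) (nat_lit 0xe0018124e81)))))) (.nd (nat_lit 20) 
(.nd (nat_lit 26) (.nd (nat_lit 22) (.nd (nat_lit 23) 
(.lf (nat_lit 1343004727) (dlOf (nat_lit 1) (nat_lit 0x20018130b81))) 
(.lf (nat_lit 25993271) (dlOf (nat_lit 1) (nat_lit 0x800400020008c10002)))) 
(.lf (nat_lit 21798967) (dlOf (nat_lit 1) (nat_lit 0x580080030002000a0008a70683)))) 
(.nd (nat_lit 6) (.nd (nat_lit 21) 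
(.lf (nat_lit 470589495) (dlOf (nat_lit 1) (nat_lit 0x20018130b81))) 
(.lf (nat_lit 2754388023) (dlOf (nat_lit 2) (nat_lit 0x261ff003a20180e0780)))) 
(.lf (nat_lit 67942263) (dlOf (nat_lit 1) (nat_lit 0x6001833a301))))) (.nd (nat_lit 6) 
(.nd (nat_lit 21) 
(.lf (nat_lit 10264631) (dlOf (nat_lit 1) (nat_lit 0xd80080070002003600085c0d03))) 
(.lf (nat_lit 8167479) (dlOf (nat_lit 1) (nat_lit 0x20028510001)))) 
(.lf (nat_lit 1876087) (dlOf (nat_lit 1) (nat_lit 0x400400020008150082)))))) (.nd (nat_lit 6) 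
(.nd (nat_lit 19) (.nd (nat_lit 26) (.nd (nat_lit 27) (.nd (nat_lit 32) 
(.lf (nat_lit 268738743) (dlOf (nat_lit 1) (nat_lit 0x8008000400200020008111703))) 
(.lf (nat_lit 4563706039) (dlOf (nat_lit 20) (nat_lit 0x31017801480b400f8056006801f00071040037017801c80b400d403e000e006007c02f003e0168027007c001ba0c009805e0009d02004c02f0004e0100260178004007c0013408009805e0009502006202f000100f8002301001300bc0011204009c05e001801f000440200260178002140801480bc00b805a0008104006202f0002016800e807c000f40c009805e0007902004e02f000300f8001e01001300bc000ee0400a005e0007302004c02f0003681002501780000008057000801a4002001000080c1703)))) 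
(.nd (nat_lit 28) (.lf (nat_lit 671391927) (dlOf (nat_lit 1) (nat_lit 0x40028185201))) 
(.lf (nat_lit 939827383) (dlOf (nat_lit 1) (nat_lit 0x80080004002000200081a5203))))) 
(.nd (nat_lit 8) (.nd (nat_lit 9) 
(.lf (nat_lit 4362379447) (dlOf (nat_lit 1) (nat_lit 0x8008000400200020008045203))) 
(.lf (nat_lit 3557078711) (dlOf (nat_lit 1) (nat_lit 0x2001812a001)))) 
(.lf (nat_lit 738503095) (dlOf (nat_lit 1) (nat_lit 0x400400020018094e82))))) (.nd (nat_lit 8) 
(.nd (nat_lit 9) (.lf (nat_lit 1876151) (dlOf (nat_lit 1) (nat_lit 0x2a0028150381))) 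
(.lf (nat_lit 8172215) (dlOf (nat_lit 1) (nat_lit 0x20028518c81)))) (.nd (nat_lit 9) 
(.lf (nat_lit 44870071) (dlOf (nat_lit 1) (nat_lit 0x8008000400200020009324e83))) 
(.lf (nat_lit 8168375) (dlOf (nat_lit 1) (nat_lit 0x20018512701)))))) (.nd (nat_lit 30) 
(.nd (nat_lit 19) (.nd (nat_lit 20) (.nd (nat_lit 21) 
(.lf (nat_lit 5100577015) (dlOf (nat_lit 1) (nat_lit 0x1800280d0a81))) 
(.lf (nat_lit 2400503) (dlOf (nat_lit 1) (nat_lit 0x2000200060008150482)))) 
(.lf (nat_lit 20226295) (dlOf (nat_lit 1) (nat_lit 0x4002000200089d0a82)))) (.nd (nat_lit 8) 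
(.lf (nat_lit 135045367) (dlOf (nat_lit 1) (nat_lit 0x400081b0481))) 
(.lf (nat_lit 34382839) (dlOf (nat_lit 1) (nat_lit 0x40018fb2881))))) (.nd (nat_lit 8) 
(.nd (nat_lit 32) (.lf (nat_lit 1141156599) (dlOf (nat_lit 1) (nat_lit 0xc0018125a01))) 
(.lf (nat_lit 5436123895) (dlOf (nat_lit 4) (nat_lit 0x3080c4000500400b00620002702045a01402960088000881004800080100002010c00080e5a03)))) 
(.nd (nat_lit 26) 
(.lf (nat_lit 5905883639) (dlOf (nat_lit 5) (nat_lit 0x2a01900188094010802e0005e060076025006d00b8001701002780c8007405e00a4025008800b80050050000881400c4064001a02f00310128044805c001c028000430a00ca0028157e01))) 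
(.lf (nat_lit 3959726583) (dlOf (nat_lit 14) (nat_lit 0x1500380006604053807c016a00e007f006002880000004810050407c015200e0065006001f800000046101ce407c0d9a00e06bf006006a80081a1c000000220a028003e00a70070038003000f0000000200800be00e0000f81014301f005580380003c08051407c018200e00b6006003980000003a10014c07c003600e0000e02072701f036100380003608001c01c0001602003e00e00002810004000000008080790008007000200020008127e03)))))))))) 
(.nd (nat_lit 6) (.nd (nat_lit 13) (.nd (nat_lit 30) (.nd (nat_lit 18) (.nd (nat_lit 26) 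
(.nd (nat_lit 23) (.nd (nat_lit 19) (.nd (nat_lit 21) (.nd (nat_lit 7) (.nd (nat_lit 11) 
(.lf (nat_lit 268599351) (dlOf (nat_lit 1) (nat_lit 0x600280a1401))) 
(.lf (nat_lit 170039) (dlOf (nat_lit 1) (nat_lit 0x16001800a601)))) 
(.lf (nat_lit 2416083127) (dlOf (nat_lit 1) (nat_lit 0x8008000400200020008045203)))) 
(.nd (nat_lit 20) 
(.lf (nat_lit 52592695) (dlOf (nat_lit 2) (nat_lit 0xb304c0000004008800400460009550502))) 
(.lf (nat_lit 24281143) (dlOf (nat_lit 5) (nat_lit 0x28bd400085de80012d14000900c00057a80018bbd00045a280011c1800aaf5000157840010bbd000359d00011820012af50004977a0006bb700125a280012ce80007014002c00400340018b90b82))))) 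
(.nd (nat_lit 22) 
(.lf (nat_lit 134905911) (dlOf (nat_lit 3) (nat_lit 0x4080c40240022001d10400cc031006500880020410004000800e0002002000080d0b83))) 
(.lf (nat_lit 4882487) (dlOf (nat_lit 4) (nat_lit 0x5acc8002b60400297860014ba8000a59800039018006000000176040018002001000082d0482))))) 
(.nd (nat_lit 7) (.nd (nat_lit 19) (.nd (nat_lit 20) 
(.lf (nat_lit 25329719) (dlOf (nat_lit 2) (nat_lit 0x100000039a04001000400020008bf0b82))) 
(.lf (nat_lit 30572599) (dlOf (nat_lit 1) (nat_lit 0x800400060008e41082)))) 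
(.lf (nat_lit 15368247) (dlOf (nat_lit 1) (nat_lit 0x9400187e0801)))) (.nd (nat_lit 8) 
(.lf (nat_lit 9601207) (dlOf (nat_lit 1) (nat_lit 0x4004000c0008571702))) 
(.lf (nat_lit 9601463) (dlOf (nat_lit 1) (nat_lit 0x20028577781)))))) (.nd (nat_lit 19) 
(.nd (nat_lit 8) (.nd (nat_lit 20) 
(.lf (nat_lit 69369911) (dlOf (nat_lit 1) (nat_lit 0x2c00400020008940502))) 
(.lf (nat_lit 2752675895) (dlOf (nat_lit 2) (nat_lit 0x240b100580438004bc1000a0008002400200160008030d03)))) 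
(.nd (nat_lit 7) (.lf (nat_lit 2214757175) (dlOf (nat_lit 1) (nat_lit 0x34004000200080a2282))) 
(.lf (nat_lit 2754780087) (dlOf (nat_lit 1) (nat_lit 0xa4004006600080fbe02))))) (.nd (nat_lit 10) 
(.nd (nat_lit 21) 
(.lf (nat_lit 202014775) (dlOf (nat_lit 3) (nat_lit 0x4080c40240022001d10400cc031006500880020410004000800e0002002000080d0b83))) 
(.lf (nat_lit 2754248759) (dlOf (nat_lit 1) (nat_lit 0x8002000400080d0b82)))) 
(.lf (nat_lit 738886711) (dlOf (nat_lit 1) (nat_lit 0x20008122881)))))) (.nd (nat_lit 20) 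
(.nd (nat_lit 26) (.nd (nat_lit 7) (.nd (nat_lit 9) (.nd (nat_lit 19) 
(.lf (nat_lit 2818998327) (dlOf (nat_lit 1) (nat_lit 0x20008000800200080008150483))) 
(.lf (nat_lit 13533239) (dlOf (nat_lit 2) (nat_lit 0x84000001cd0200020018730b81)))) 
(.lf (nat_lit 134644279) (dlOf (nat_lit 2) (nat_lit 0x240218016010401cc060000000600020028090f81)))) 
(.nd (nat_lit 8) (.lf (nat_lit 21397687) (dlOf (nat_lit 1) (nat_lit 0x480080050002001e0008a31703))) 
(.lf (nat_lit 51284407) (dlOf (nat_lit 1) (nat_lit 0x3e0029514e81))))) (.nd (nat_lit 8) 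
(.nd (nat_lit 9) (.lf (nat_lit 2753986615) (dlOf (nat_lit 1) (nat_lit 0x18002000200080b1402))) 
(.lf (nat_lit 201753143) (dlOf (nat_lit 2) (nat_lit 0x240218016010401cc060000000600020028090f81)))) 
(.nd (nat_lit 7) 
(.lf (nat_lit 2886107447) (dlOf (nat_lit 2) (nat_lit 0x18026004c10200020028154c01))) 
(.lf (nat_lit 2752414135) (dlOf (nat_lit 5) (nat_lit 0x112248004fe01008a1240027ec0804a0920013f004008c498000000200080028017781)))))) 
(.nd (nat_lit 19) (.nd (nat_lit 7) (.nd (nat_lit 9) 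
(.lf (nat_lit 26640439) (dlOf (nat_lit 2) (nat_lit 0x1c70a8003900800b800800d800200380008c50483))) 
(.lf (nat_lit 51808823) (dlOf (nat_lit 1) (nat_lit 0x20029515181)))) (.nd (nat_lit 8) 
(.lf (nat_lit 51807415) (dlOf (nat_lit 1) (nat_lit 0x280029512c81))) 
(.lf (nat_lit 20356023) (dlOf (nat_lit 1) (nat_lit 0x1c00189dbe01))))) (.nd (nat_lit 8) 
(.nd (nat_lit 22) (.lf (nat_lit 18776119) (dlOf (nat_lit 1) (nat_lit 0x6c0028970001))) 
(.lf (nat_lit 14581815) (dlOf (nat_lit 1) (nat_lit 0x48008002c00200280008770483)))) 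
(.nd (nat_lit 7) (.lf (nat_lit 12484919) (dlOf (nat_lit 1) (nat_lit 0xc002001600086c0582))) 
(.lf (nat_lit 8297911) (dlOf (nat_lit 1) (nat_lit 0x1880080030002000e000851cd03)))))))) 
(.nd (nat_lit 31) (.nd (nat_lit 26) (.nd (nat_lit 18) (.nd (nat_lit 27) (.nd (nat_lit 9) 
(.lf (nat_lit 1073905719) (dlOf (nat_lit 1) (nat_lit 0x20028020681))) 
(.lf (nat_lit 1342341687) (dlOf (nat_lit 1) (nat_lit 0x80028018181)))) (.nd (nat_lit 29) 
(.lf (nat_lit 1476558903) (dlOf (nat_lit 1) (nat_lit 0x20028050481))) 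
(.lf (nat_lit 2013429815) (dlOf (nat_lit 1) (nat_lit 0xc0018080681))))) (.nd (nat_lit 7) 
(.lf (nat_lit 5772312631) (dlOf (nat_lit 1) (nat_lit 0x8004000e0008090002))) (.nd (nat_lit 10) 
(.lf (nat_lit 5773361335) (dlOf (nat_lit 1) (nat_lit 0x4002000200080c1702))) 
(.lf (nat_lit 1344701623) (dlOf (nat_lit 2) (nat_lit 0x703a80006c0800d0008000800200140008982c83)))))) 
(.nd (nat_lit 29) (.nd (nat_lit 19) 
(.lf (nat_lit 1141014583) (dlOf (nat_lit 1) (nat_lit 0xc0018080681))) 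
(.lf (nat_lit 1409974327) (dlOf (nat_lit 1) (nat_lit 0x400080024002000800080a0b83)))) 
(.nd (nat_lit 8) (.lf (nat_lit 1946320951) (dlOf (nat_lit 1) (nat_lit 0x20028020681))) 
(.lf (nat_lit 6241291063) (dlOf (nat_lit 1) (nat_lit 0x5c00280d5c01)))))) (.nd (nat_lit 26) 
(.nd (nat_lit 7) (.nd (nat_lit 18) (.nd (nat_lit 19) (.nd (nat_lit 20) 
(.lf (nat_lit 4026695735) (dlOf (nat_lit 8) (nat_lit 0xec040005e00b000b1820010005800524080018080001801600142040020020000978100270100004b80800600800018016000bc04007202000060058002ec1003f800801d000200600008030d03))) 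
(.lf (nat_lit 3490873399) (dlOf (nat_lit 2) (nat_lit 0x240bf00580450004c41000a0008002400200160008030d03)))) 
(.lf (nat_lit 3492446263) (dlOf (nat_lit 1) (nat_lit 0x8002000400080d0b82)))) (.nd (nat_lit 8) 
(.lf (nat_lit 4026957879) (dlOf (nat_lit 2) (nat_lit 0x602b00bf18180e0780))) 
(.lf (nat_lit 3624304951) (dlOf (nat_lit 2) (nat_lit 0x1802800a560200020028154c01))))) 
(.nd (nat_lit 8) (.nd (nat_lit 9) 
(.lf (nat_lit 3493494967) (dlOf (nat_lit 1) (nat_lit 0x40018155201))) 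
(.lf (nat_lit 3758267063) (dlOf (nat_lit 1) (nat_lit 0x47800802040020108000812b883)))) 
(.lf (nat_lit 3491922359) (dlOf (nat_lit 1) (nat_lit 0x2800400040008090802))))) (.nd (nat_lit 27) 
(.nd (nat_lit 7) (.nd (nat_lit 18) 
(.lf (nat_lit 3288498231) (dlOf (nat_lit 8) (nat_lit 0xec040005e00b000b1820010005800524080018080001801600142040020020000988100270100004b80800600800018016000be04007202000060058002ec1003f800801d000200600008030d03))) 
(.lf (nat_lit 3288760375) (dlOf (nat_lit 1) (nat_lit 0x80004000200080e0782)))) 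
(.lf (nat_lit 3825372343) (dlOf (nat_lit 1) (nat_lit 0x400200020008146282)))) (.nd (nat_lit 19) 
(.lf (nat_lit 3691151415) (dlOf (nat_lit 2) (nat_lit 0xdc00000000018050480))) 
(.lf (nat_lit 3960111159) (dlOf (nat_lit 1) (nat_lit 0x7400081b0781)))))))) (.nd (nat_lit 26) 
(.nd (nat_lit 18) (.nd (nat_lit 8) (.nd (nat_lit 19) (.nd (nat_lit 7) 
(.lf (nat_lit 25337911) (dlOf (nat_lit 1) (nat_lit 0x400400020008bf0b82))) 
(.lf (nat_lit 6174187703) (dlOf (nat_lit 1) (nat_lit 0x8008000400200020008081703)))) 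
(.nd (nat_lit 20) (.nd (nat_lit 21) 
(.lf (nat_lit 3221921847) (dlOf (nat_lit 1) (nat_lit 0x4004002400081b0782))) 
(.lf (nat_lit 3492454455) (dlOf (nat_lit 2) (nat_lit 0x1687ac003a2040004002000a00080d0b82)))) 
(.lf (nat_lit 45785143) (dlOf (nat_lit 2) (nat_lit 0x33848000b80801b0008009400200400009360503))))) 
(.nd (nat_lit 7) (.nd (nat_lit 9) 
(.lf (nat_lit 8566071) (dlOf (nat_lit 1) (nat_lit 0x400200020008519902))) 
(.lf (nat_lit 2281874231) (dlOf (nat_lit 1) (nat_lit 0x30004000200180a2282)))) (.nd (nat_lit 9) 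
(.nd (nat_lit 10) (.lf (nat_lit 3892490679) (dlOf (nat_lit 1) (nat_lit 0x20008158581))) 
(.lf (nat_lit 3892493751) (dlOf (nat_lit 1) (nat_lit 0x2001815cd01)))) 
(.lf (nat_lit 805485495) (dlOf (nat_lit 10) (nat_lit 0x602a8008500800e804c0041e04004c0260020e02000a0550010001000e02b0009014c0034026001f5060028056001a0298008804c003e80c004c0ac002c05300130098007cc18006015800480a6001a013000f90300140298000000801e00080034002001e000811be03)))))) 
(.nd (nat_lit 28) (.nd (nat_lit 19) (.nd (nat_lit 7) (.nd (nat_lit 20) 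
(.lf (nat_lit 2819006519) (dlOf (nat_lit 63) (nat_lit 0x13620720a5001f8007881034880fc003a60414680e4001af023a8207203d401f820180680035a0c27080e4001ab0204d6072008c01f8006a81043881c800680840b1603f000d4030316039004900fc0034e082b700e40019d0202a6072000cd81015c0390006340819301c8030007e001850400ce072017e01f8006001001a81c8103007e0017e040cc6000000a48100f1000000520080b900000028e0403cc0000014602043c000000a101001203b036e01d00afc0e604c00700506037001801ac00080d000be063000502e01d1016800ec0920a5a0440036020027f80f411940760a3c037001a01a824600cc0eb4062048802e0368015003780a000ac04e084602401d000f81c9006002740000012f360122070032801e8004b81001081c000080d6005c04400af01e800e007c0134000000e40c0ac20000006a0101b9000000344080e20000001a004149c000000ca020596044004800f8002f8100d60110001403e000bc0406e0044006a00f8002ec1002681100016e0421cc07e000a3020b1a0720b6e01f80027c1022101c828e007e00079040018072083b01f8001e01002b80fc000ee0416a007e00076020b7207207e901f808d00d0000e40c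01a807e000430200d803f0002101008c01f8001000833600fc0007e04021007e0003e020a9807207a901f8000f01026481c82c0407e0003b0401d0072000501f8000e81003880fc000720401480e4139403f0001c02009701f8000dc0803680fc0006c041b2407e000350200ba03f000198106a901f8000ac0877501c83f2807e0002a040d1e07207c801f8000a01050f81c82cfc07e0002704005a03f0001301004301f8000940802700fc000480403940e415ce03f0001182009401f8000880823b81c829f007e000140415dc0720365038805281b004200c20624060096c02103ba0104261807e024803e09e900d84d40064000002c000400402360018150482))) 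
(.lf (nat_lit 26648631) (dlOf (nat_lit 2) (nat_lit 0xd73100098818c50480)))) 
(.lf (nat_lit 8824247) (dlOf (nat_lit 2) (nat_lit 0xb3c40011c04002800400040008513602)))) 
(.nd (nat_lit 7) (.nd (nat_lit 8) 
(.lf (nat_lit 14590007) (dlOf (nat_lit 1) (nat_lit 0x400400060008770482))) 
(.lf (nat_lit 46047543) (dlOf (nat_lit 1) (nat_lit 0x400400020019380b82)))) 
(.lf (nat_lit 19840183) (dlOf (nat_lit 1) (nat_lit 0x4004000200189dc202))))) (.nd (nat_lit 10) 
(.nd (nat_lit 8) (.nd (nat_lit 19) 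
(.lf (nat_lit 3494289463) (dlOf (nat_lit 1) (nat_lit 0x1400181f1401))) 
(.lf (nat_lit 5772320823) (dlOf (nat_lit 1) (nat_lit 0x34004005c0008090002)))) 
(.lf (nat_lit 3624313143) (dlOf (nat_lit 5) (nat_lit 0x12901b000400d008f4028019a0090052b840010020009080d800d00680520014012000600008024048000a00a560e002401400524810001020000000080698008039c00205160008154c03)))) 
(.nd (nat_lit 7) (.lf (nat_lit 4026969655) (dlOf (nat_lit 1) (nat_lit 0x400180f7181))) 
(.lf (nat_lit 1344709815) (dlOf (nat_lit 3) (nat_lit 0xc0000001302000214d00020a1800000100028008007400200100008982c83))))))) 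
(.nd (nat_lit 31) (.nd (nat_lit 11) (.nd (nat_lit 7) (.nd (nat_lit 10) (.nd (nat_lit 21) 
(.lf (nat_lit 4899119159) (dlOf (nat_lit 1) (nat_lit 0x120018080481))) 
(.lf (nat_lit 69378103) (dlOf (nat_lit 2) (nat_lit 0x6021c0005c0400c800400020018940502)))) 
(.lf (nat_lit 472032311) (dlOf (nat_lit 1) (nat_lit 0x400400020008802882)))) (.nd (nat_lit 8) 
(.lf (nat_lit 738631863) (dlOf (nat_lit 3) (nat_lit 0x120570007581000302c0000000801000080068002003000080c1703))) 
(.lf (nat_lit 4362248631) (dlOf (nat_lit 4) (nat_lit 0x8404d0052881002702680293c0800101580147804000400400100008017782))))) 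
(.nd (nat_lit 7) (.nd (nat_lit 8) (.nd (nat_lit 27) 
(.lf (nat_lit 69642807) (dlOf (nat_lit 1) (nat_lit 0x20028b95181))) 
(.lf (nat_lit 472295991) (dlOf (nat_lit 2) (nat_lit 0xb0a68001ec080048008006800200060008985183)))) 
(.lf (nat_lit 6241299255) (dlOf (nat_lit 1) (nat_lit 0x3e00280d5c01)))) (.nd (nat_lit 9) 
(.lf (nat_lit 1009428919) (dlOf (nat_lit 1) (nat_lit 0x1c0029164e81))) 
(.lf (nat_lit 1409465271) (dlOf (nat_lit 1) (nat_lit 0x2000800be01)))))) (.nd (nat_lit 8) 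
(.nd (nat_lit 27) (.nd (nat_lit 10) (.nd (nat_lit 18) 
(.lf (nat_lit 2754256951) (dlOf (nat_lit 2) (nat_lit 0x1687f4003a2040004002000a00080d0b82))) 
(.lf (nat_lit 2756091959) (dlOf (nat_lit 1) (nat_lit 0x4004000200181f1402)))) 
(.lf (nat_lit 6509734967) (dlOf (nat_lit 1) (nat_lit 0x400400020008146082)))) (.nd (nat_lit 7) 
(.nd (nat_lit 9) 
(.lf (nat_lit 3960119351) (dlOf (nat_lit 4) (nat_lit 0x890178025580804480bc012aa04022405e0095202001600281b0781))) 
(.lf (nat_lit 4228031031) (dlOf (nat_lit 1) (nat_lit 0x16000200040008018182)))) 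
(.lf (nat_lit 3154292919) (dlOf (nat_lit 1) (nat_lit 0x18008001400200080008157e83))))) 
(.nd (nat_lit 7) (.nd (nat_lit 18) 
(.lf (nat_lit 2755830071) (dlOf (nat_lit 1) (nat_lit 0x200181b0581))) 
(.lf (nat_lit 2886115639) (dlOf (nat_lit 5) (nat_lit 0x12901b000400d008f4026019a00900261040010020009080d800d00680520013012000600008024048000a004c10e00240130025a010001020000000080698008039c00205160008154c03)))) 
(.nd (nat_lit 9) (.lf (nat_lit 2752422327) (dlOf (nat_lit 1) (nat_lit 0x4a000401280008017782))) 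
(.lf (nat_lit 2754788279) (dlOf (nat_lit 1) (nat_lit 0x508002025400080fbe02))))))))) 
(.nd (nat_lit 13) (.nd (nat_lit 18) (.nd (nat_lit 29) (.nd (nat_lit 7) (.nd (nat_lit 8) 
(.nd (nat_lit 9) (.nd (nat_lit 19) 
(.lf (nat_lit 1346535543) (dlOf (nat_lit 2) (nat_lit 0x800000000040060002000c0008fa1182))) 
(.lf (nat_lit 1409974391) (dlOf (nat_lit 4) (nat_lit 0x1402a800800c40002c08003c0aa0001402001c055000b0188000141001380080068002001c00080a1883)))) 
(.lf (nat_lit 474121847) (dlOf (nat_lit 1) (nat_lit 0x400290e3981)))) (.nd (nat_lit 9) 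
(.nd (nat_lit 12) (.lf (nat_lit 33196407) (dlOf (nat_lit 1) (nat_lit 0x180018f54e81))) 
(.lf (nat_lit 170359) (dlOf (nat_lit 1) (nat_lit 0x40040002000800ae02)))) 
(.lf (nat_lit 8558455) (dlOf (nat_lit 1) (nat_lit 0x20008000c0020004000851a303))))) 
(.nd (nat_lit 8) (.nd (nat_lit 20) 
(.lf (nat_lit 2416083191) (dlOf (nat_lit 1) (nat_lit 0x8008000400200020008047783))) 
(.lf (nat_lit 20087031) (dlOf (nat_lit 1) (nat_lit 0x200189d0a81)))) (.nd (nat_lit 9) 
(.nd (nat_lit 11) (.lf (nat_lit 1342341623) (dlOf (nat_lit 1) (nat_lit 0x80028017801))) 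
(.lf (nat_lit 1344440823) (dlOf (nat_lit 1) (nat_lit 0x4004000200087a4f82)))) 
(.lf (nat_lit 36865015) (dlOf (nat_lit 1) (nat_lit 0x2c00400040019072882)))))) (.nd (nat_lit 9) 
(.nd (nat_lit 7) (.nd (nat_lit 8) 
(.lf (nat_lit 537559159) (dlOf (nat_lit 4) (nat_lit 0x1402a800800c40002c08003c0aa0001402001c055000b0188000141001380080068002001c00080a1883))) 
(.nd (nat_lit 11) 
(.lf (nat_lit 5301764471) (dlOf (nat_lit 2) (nat_lit 0x78060000be02000e0008091001))) 
(.lf (nat_lit 6377605495) (dlOf (nat_lit 1) (nat_lit 0x4004000200080e4e82))))) (.nd (nat_lit 8) 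
(.lf (nat_lit 2080539895) (dlOf (nat_lit 1) (nat_lit 0x8008000400200020008092e83))) 
(.lf (nat_lit 1007847927) (dlOf (nat_lit 1) (nat_lit 0x800400020008804f82))))) (.nd (nat_lit 8) 
(.nd (nat_lit 19) (.lf (nat_lit 4093807351) (dlOf (nat_lit 1) (nat_lit 0x400200020008005a02))) 
(.lf (nat_lit 738888439) (dlOf (nat_lit 2) (nat_lit 0x802100011018125a00)))) (.nd (nat_lit 11) 
(.nd (nat_lit 19) (.lf (nat_lit 537035767) (dlOf (nat_lit 1) (nat_lit 0x400200020008002882))) 
(.lf (nat_lit 1611301879) (dlOf (nat_lit 1) (nat_lit 0x100018122881)))) 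
(.lf (nat_lit 6241291255) (dlOf (nat_lit 1) (nat_lit 0x80080230002004e00080d5f03))))))) 
(.nd (nat_lit 19) (.nd (nat_lit 26) (.nd (nat_lit 8) (.nd (nat_lit 7) (.nd (nat_lit 10) 
(.lf (nat_lit 21397623) (dlOf (nat_lit 2) (nat_lit 0x150748000800800380080038002002c0008a30c03))) 
(.lf (nat_lit 20356215) (dlOf (nat_lit 1) (nat_lit 0x6c004001e00089dc102)))) 
(.lf (nat_lit 60195063) (dlOf (nat_lit 1) (nat_lit 0x20029840a81)))) (.nd (nat_lit 7) 
(.nd (nat_lit 11) (.lf (nat_lit 3221651831) (dlOf (nat_lit 2) (nat_lit 0x1400a00446818170780))) 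
(.lf (nat_lit 3490089335) (dlOf (nat_lit 1) (nat_lit 0x400200020008004e82)))) 
(.lf (nat_lit 134644215) (dlOf (nat_lit 5) (nat_lit 0x5025004280bc00434080014094011a02f0010c02000301880046c0800180c4001f404003000400260008090d82))))) 
(.nd (nat_lit 8) (.nd (nat_lit 20) 
(.lf (nat_lit 69632247) (dlOf (nat_lit 1) (nat_lit 0x1000200080008b86f82))) 
(.lf (nat_lit 6376816887) (dlOf (nat_lit 1) (nat_lit 0x140028090a81)))) (.nd (nat_lit 9) 
(.nd (nat_lit 29) 
(.lf (nat_lit 201753079) (dlOf (nat_lit 5) (nat_lit 0x5025004680bc0043c080014094010a02f0010e82000301880045c0800180c4001f604003000400260008090d82))) 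
(.lf (nat_lit 2886107639) (dlOf (nat_lit 1) (nat_lit 0x800400040018157e02)))) (.nd (nat_lit 21) 
(.lf (nat_lit 2751890423) (dlOf (nat_lit 1) (nat_lit 0x400400020018002882))) 
(.lf (nat_lit 6377866231) (dlOf (nat_lit 2) (nat_lit 0x4014000e580800180080008002000800080e2883))))))) 
(.nd (nat_lit 7) (.nd (nat_lit 28) (.nd (nat_lit 8) 
(.lf (nat_lit 2819522679) (dlOf (nat_lit 2) (nat_lit 0x601840028a040020002000400082c0482))) 
(.lf (nat_lit 40798583) (dlOf (nat_lit 1) (nat_lit 0x1a00291f4e81)))) (.nd (nat_lit 26) 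
(.lf (nat_lit 5772312951) (dlOf (nat_lit 5) (nat_lit 0xc09f00ef04c40788260001610600d213c00730978002f8100bc04bc0013a0404f025e0008e0200680028091001))) 
(.lf (nat_lit 1007583607) (dlOf (nat_lit 1) (nat_lit 0x160018520b01))))) (.nd (nat_lit 8) 
(.nd (nat_lit 22) (.lf (nat_lit 1345227511) (dlOf (nat_lit 1) (nat_lit 0x20018b05a01))) 
(.lf (nat_lit 40798967) (dlOf (nat_lit 1) (nat_lit 0x8004000200091f5a02)))) (.nd (nat_lit 9) 
(.nd (nat_lit 11) (.lf (nat_lit 3490611703) (dlOf (nat_lit 2) (nat_lit 0x4023000521818017800))) 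
(.lf (nat_lit 55478775) (dlOf (nat_lit 1) (nat_lit 0x1800296d4f81)))) 
(.lf (nat_lit 34505719) (dlOf (nat_lit 1) (nat_lit 0x40018fb2881)))))))) (.nd (nat_lit 29) 
(.nd (nat_lit 11) (.nd (nat_lit 8) (.nd (nat_lit 10) (.nd (nat_lit 7) 
(.lf (nat_lit 53387383) (dlOf (nat_lit 1) (nat_lit 0xc80080004002003200095b1183))) 
(.nd (nat_lit 18) (.lf (nat_lit 20095223) (dlOf (nat_lit 1) (nat_lit 0x8002000200089d0a82))) 
(.lf (nat_lit 20881655) (dlOf (nat_lit 1) (nat_lit 0x4002000200089e4502))))) (.nd (nat_lit 7) 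
(.lf (nat_lit 40019063) (dlOf (nat_lit 1) (nat_lit 0xbc00191f2a01))) (.nd (nat_lit 27) 
(.lf (nat_lit 2214769911) (dlOf (nat_lit 1) (nat_lit 0x1800280a9501))) 
(.lf (nat_lit 2617423095) (dlOf (nat_lit 2) (nat_lit 0x6000000cfc040024002000600080a9502)))))) 
(.nd (nat_lit 18) (.nd (nat_lit 7) 
(.lf (nat_lit 8566647) (dlOf (nat_lit 1) (nat_lit 0x800800080020002000851a303))) (.nd (nat_lit 20) 
(.lf (nat_lit 201499127) (dlOf (nat_lit 3) (nat_lit 0x52a0000000880801880000003604000400200040008017e02))) 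
(.lf (nat_lit 9609719) (dlOf (nat_lit 2) (nat_lit 0x41f2800178080018008000800200020008577e03))))) 
(.nd (nat_lit 7) 
(.lf (nat_lit 5772321143) (dlOf (nat_lit 9) (nat_lit 0x4fd09f028f04c414c0260001610601fe13d03dc09e003184ec002425e00080a9001205080b600000017c1c137025e0009d02062812f0004c01019809e024104bc0011c08002025e0008702026412f0001881001d098000584bc0005408006c004006c0018091002))) 
(.nd (nat_lit 9) 
(.lf (nat_lit 5772321271) (dlOf (nat_lit 1) (nat_lit 0x8008001400200160008091403))) 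
(.lf (nat_lit 34513911) (dlOf (nat_lit 1) (nat_lit 0x20008fb2881))))))) (.nd (nat_lit 7) 
(.nd (nat_lit 8) (.nd (nat_lit 18) 
(.lf (nat_lit 8567927) (dlOf (nat_lit 1) (nat_lit 0x800800040020002000851c103))) 
(.lf (nat_lit 20364407) (dlOf (nat_lit 1) (nat_lit 0x4004000200089dc102)))) (.nd (nat_lit 12) 
(.lf (nat_lit 1345235319) (dlOf (nat_lit 1) (nat_lit 0xb60018b04e81))) 
(.lf (nat_lit 178551) (dlOf (nat_lit 1) (nat_lit 0x40040002000800ae02))))) (.nd (nat_lit 20) 
(.nd (nat_lit 9) (.lf (nat_lit 3221401079) (dlOf (nat_lit 1) (nat_lit 0x40018116f81))) 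
(.lf (nat_lit 1141025783) (dlOf (nat_lit 2) (nat_lit 0xf013000100080080008000c002000a0008095f03)))) 
(.nd (nat_lit 18) (.nd (nat_lit 21) 
(.lf (nat_lit 55749111) (dlOf (nat_lit 1) (nat_lit 0x1800296d4f81))) 
(.lf (nat_lit 32680439) (dlOf (nat_lit 1) (nat_lit 0x400400020008ef4f82)))) 
(.lf (nat_lit 37661175) (dlOf (nat_lit 1) (nat_lit 0x4002000200090d4f82))))))) (.nd (nat_lit 7) 
(.nd (nat_lit 8) (.nd (nat_lit 26) (.nd (nat_lit 27) 
(.lf (nat_lit 5100445815) (dlOf (nat_lit 1) (nat_lit 0x400200020008080b82))) 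
(.lf (nat_lit 2818744439) (dlOf (nat_lit 1) (nat_lit 0xe00080f2901)))) (.nd (nat_lit 10) 
(.nd (nat_lit 19) 
(.lf (nat_lit 4899119223) (dlOf (nat_lit 3) (nat_lit 0x1e0180001781000200c0000b8080028008002400200080008081183))) 
(.lf (nat_lit 6377087095) (dlOf (nat_lit 1) (nat_lit 0xe00280a1f01)))) 
(.lf (nat_lit 3020078199) (dlOf (nat_lit 1) (nat_lit 0x10002812c101))))) (.nd (nat_lit 11) 
(.nd (nat_lit 18) 
(.lf (nat_lit 6377087351) (dlOf (nat_lit 1) (nat_lit 0x80080004002000200080a7d03))) 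
(.lf (nat_lit 537305463) (dlOf (nat_lit 1) (nat_lit 0x10c0008090781)))) (.nd (nat_lit 20) 
(.lf (nat_lit 805480823) (dlOf (nat_lit 1) (nat_lit 0x20018114e81))) 
(.lf (nat_lit 1007855991) (dlOf (nat_lit 1) (nat_lit 0x4c00201f80008804e82)))))) (.nd (nat_lit 26) 
(.nd (nat_lit 27) (.nd (nat_lit 11) 
(.lf (nat_lit 4026704119) (dlOf (nat_lit 1) (nat_lit 0x400400020008047782))) 
(.lf (nat_lit 3758274807) (dlOf (nat_lit 1) (nat_lit 0x198002812a981)))) (.nd (nat_lit 8) 
(.nd (nat_lit 9) 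
(.lf (nat_lit 1745002743) (dlOf (nat_lit 3) (nat_lit 0xe0170004681000800b800214080058008001000200060008090a83))) 
(.lf (nat_lit 3087181559) (dlOf (nat_lit 1) (nat_lit 0x8008000400200020008143b83)))) 
(.lf (nat_lit 939696631) (dlOf (nat_lit 3) (nat_lit 0xc0000002e01001a005800110080020008000800200060008157e03))))) 
(.nd (nat_lit 11) (.nd (nat_lit 18) 
(.lf (nat_lit 5972861431) (dlOf (nat_lit 5) (nat_lit 0x1080220005e02004a0110002e0100090088001100800100440008604000400400060018157e02))) 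
(.lf (nat_lit 2752422391) (dlOf (nat_lit 2) (nat_lit 0x9c164000160200540018017e01)))) 
(.nd (nat_lit 9) (.nd (nat_lit 18) 
(.lf (nat_lit 1007856119) (dlOf (nat_lit 1) (nat_lit 0xc00400060008804f82))) 
(.lf (nat_lit 1008118263) (dlOf (nat_lit 1) (nat_lit 0x400289e4f81)))) 
(.lf (nat_lit 6241299447) (dlOf (nat_lit 1) (nat_lit 0x1200280d5f01))))))))))))

end

end Pool.Agent.Lib.MP_5854e1_co.Cz

namespace Pool.Agent.Lib.MP_5854e1_co.Cz

noncomputable section

noncomputable def tz234 : DT := (.nd (nat_lit 13) (.nd (nat_lit 17) (.nd (nat_lit 5) 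
(.nd (nat_lit 18) (.nd (nat_lit 29) (.nd (nat_lit 19) (.nd (nat_lit 7) (.nd (nat_lit 6) 
(.nd (nat_lit 20) (.nd (nat_lit 21) (.nd (nat_lit 22) 
(.lf (nat_lit 3221291031) (dlOf (nat_lit 1) (nat_lit 0x20008090001))) 
(.lf (nat_lit 29425687) (dlOf (nat_lit 1) (nat_lit 0x540018e00481)))) (.nd (nat_lit 22) 
(.lf (nat_lit 44105751) (dlOf (nat_lit 1) (nat_lit 0x88002000600092c0082))) 
(.lf (nat_lit 14745623) (dlOf (nat_lit 12) (nat_lit 0x33578800468040132bc4002320200295e200116810004b898007e80801c5c4c003d00406f38d2002bc6701a3b8a0016dc4806b689800f2000000f3860048e34801d719c00b6e280065713003ab890019d130008a552001e60e000bc69000f2810012e34801a5c500006898001e306003f5d6000aa010051aeb000000080008008006c00200020008770083))))) 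
(.nd (nat_lit 23) (.lf (nat_lit 1345388567) (dlOf (nat_lit 1) (nat_lit 0x400400fa0008b90082))) 
(.lf (nat_lit 28377111) (dlOf (nat_lit 3) (nat_lit 0x20c150002f81000fb9a0001480800d00080070002000c0008d90403))))) 
(.nd (nat_lit 26) (.nd (nat_lit 8) 
(.lf (nat_lit 16842839) (dlOf (nat_lit 4) (nat_lit 0x1dc6a00014010001e350000640800271a800000040020002003000088e0302))) 
(.nd (nat_lit 10) (.lf (nat_lit 1342247255) (dlOf (nat_lit 1) (nat_lit 0x6400200140008008382))) 
(.lf (nat_lit 39912791) (dlOf (nat_lit 1) (nat_lit 0x800291f3381))))) (.nd (nat_lit 11) 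
(.lf (nat_lit 6509625687) (dlOf (nat_lit 1) (nat_lit 0x4004000200080b0682))) 
(.lf (nat_lit 2348878167) (dlOf (nat_lit 2) (nat_lit 0x13a02a00013018004e00)))))) (.nd (nat_lit 6) 
(.nd (nat_lit 27) (.nd (nat_lit 8) (.nd (nat_lit 10) 
(.lf (nat_lit 67735) (dlOf (nat_lit 1) (nat_lit 0x14002000c0008004802))) 
(.lf (nat_lit 19991703) (dlOf (nat_lit 1) (nat_lit 0x10002000400089d6202)))) 
(.lf (nat_lit 3489728919) (dlOf (nat_lit 1) (nat_lit 0x400200020008004e82)))) (.nd (nat_lit 8) 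
(.nd (nat_lit 10) (.lf (nat_lit 1208025239) (dlOf (nat_lit 1) (nat_lit 0x4a0018090481))) 
(.lf (nat_lit 1543572631) (dlOf (nat_lit 1) (nat_lit 0x8008000400200220008146203)))) 
(.lf (nat_lit 2617316247) (dlOf (nat_lit 1) (nat_lit 0x118004001200080a9082))))) (.nd (nat_lit 10) 
(.nd (nat_lit 9) (.lf (nat_lit 18940119) (dlOf (nat_lit 1) (nat_lit 0x20028970501))) 
(.lf (nat_lit 67181271) (dlOf (nat_lit 1) (nat_lit 0x6001800b981)))) (.nd (nat_lit 11) 
(.nd (nat_lit 26) (.lf (nat_lit 402719959) (dlOf (nat_lit 1) (nat_lit 0x2c002006c0008092d82))) 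
(.lf (nat_lit 5570102487) (dlOf (nat_lit 1) (nat_lit 0x8008000400200020008052d83)))) 
(.lf (nat_lit 1543572695) (dlOf (nat_lit 1) (nat_lit 0x20028146481))))))) (.nd (nat_lit 21) 
(.nd (nat_lit 20) (.nd (nat_lit 26) (.nd (nat_lit 22) 
(.lf (nat_lit 134807575) (dlOf (nat_lit 1) (nat_lit 0x500080024002003e00080c0a83))) 
(.lf (nat_lit 4784151) (dlOf (nat_lit 3) (nat_lit 0x58cf2000e6620011a02000930780056c0800680080010002002800082b0083)))) 
(.nd (nat_lit 27) 
(.lf (nat_lit 3557359639) (dlOf (nat_lit 2) (nat_lit 0x60308007380800d00080180002005e00081c0483))) 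
(.lf (nat_lit 201916439) (dlOf (nat_lit 1) (nat_lit 0x500080024002003e00080c0a83))))) 
(.nd (nat_lit 6) (.nd (nat_lit 23) 
(.lf (nat_lit 471400471) (dlOf (nat_lit 5) (nat_lit 0x604c000301e000094080018130000c0780002182000604c000301e00008208001c130000c0780001d8282f0880))) 
(.lf (nat_lit 26804247) (dlOf (nat_lit 1) (nat_lit 0x120028c70481)))) 
(.lf (nat_lit 51972695) (dlOf (nat_lit 1) (nat_lit 0x40029515301))))) (.nd (nat_lit 8) 
(.nd (nat_lit 9) (.nd (nat_lit 22) (.nd (nat_lit 23) 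
(.lf (nat_lit 3735575) (dlOf (nat_lit 2) (nat_lit 0x800000008404003800200340008220982))) 
(.lf (nat_lit 12124183) (dlOf (nat_lit 1) (nat_lit 0x10004000400086c0002)))) 
(.lf (nat_lit 24707095) (dlOf (nat_lit 5) (nat_lit 0x725e40003aeb400068080021800001abc800055d680232c2400214fc000320a0020bc8000a5d680008c100072f20001d75a0002204003a0018bb0381)))) 
(.nd (nat_lit 6) (.lf (nat_lit 7931415) (dlOf (nat_lit 1) (nat_lit 0xea0028513701))) 
(.lf (nat_lit 1344866903) (dlOf (nat_lit 1) (nat_lit 0x400400020008985302))))) (.nd (nat_lit 10) 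
(.nd (nat_lit 7) 
(.lf (nat_lit 58261783) (dlOf (nat_lit 2) (nat_lit 0x1b3b000056040028004002200097d7482))) 
(.lf (nat_lit 37292439) (dlOf (nat_lit 1) (nat_lit 0x4002004200090d4e82)))) (.nd (nat_lit 6) 
(.lf (nat_lit 7933847) (dlOf (nat_lit 1) (nat_lit 0x4000400040018517782))) 
(.lf (nat_lit 7931351) (dlOf (nat_lit 1) (nat_lit 0x1000028513601)))))))) (.nd (nat_lit 26) 
(.nd (nat_lit 6) (.nd (nat_lit 31) (.nd (nat_lit 9) (.nd (nat_lit 21) 
(.lf (nat_lit 805371927) (dlOf (nat_lit 2) (nat_lit 0x200540038c018090000))) 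
(.lf (nat_lit 1881210903) (dlOf (nat_lit 1) (nat_lit 0x400400020008e60082)))) 
(.lf (nat_lit 1880687127) (dlOf (nat_lit 2) (nat_lit 0x306f8000e8080018008000400200060008b37e03)))) 
(.nd (nat_lit 8) 
(.lf (nat_lit 3758164503) (dlOf (nat_lit 1) (nat_lit 0x80080004002000200080d5083))) 
(.nd (nat_lit 10) (.lf (nat_lit 3087073559) (dlOf (nat_lit 1) (nat_lit 0x38002000a00080b0482))) 
(.lf (nat_lit 4160820503) (dlOf (nat_lit 1) (nat_lit 0x60018009701)))))) (.nd (nat_lit 7) 
(.nd (nat_lit 8) (.lf (nat_lit 3087073367) (dlOf (nat_lit 1) (nat_lit 0xc00080b0001))) 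
(.nd (nat_lit 28) (.lf (nat_lit 5905645911) (dlOf (nat_lit 1) (nat_lit 0x4004000200080b0682))) 
(.lf (nat_lit 805372247) (dlOf (nat_lit 4) (nat_lit 0x4029000100e00001c0800c409e0000c02005404f0026000000000100070008007c00200180008090683))))) 
(.nd (nat_lit 10) (.nd (nat_lit 8) 
(.lf (nat_lit 805372119) (dlOf (nat_lit 2) (nat_lit 0x292051014e01d000250100030008000c00200020008090483))) 
(.lf (nat_lit 536937431) (dlOf (nat_lit 1) (nat_lit 0x40018002881)))) (.nd (nat_lit 27) 
(.lf (nat_lit 5100340439) (dlOf (nat_lit 2) (nat_lit 0x280000007604005000400100008052d82))) 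
(.lf (nat_lit 6308299991) (dlOf (nat_lit 1) (nat_lit 0x20018052d81))))))) (.nd (nat_lit 28) 
(.nd (nat_lit 6) (.nd (nat_lit 8) (.nd (nat_lit 10) (.nd (nat_lit 27) 
(.lf (nat_lit 3825271319) (dlOf (nat_lit 1) (nat_lit 0x180080050002000400080b0d83))) 
(.lf (nat_lit 1812005399) (dlOf (nat_lit 1) (nat_lit 0x28002000c00080b0d82)))) 
(.lf (nat_lit 4899014167) (dlOf (nat_lit 1) (nat_lit 0x4c00400f00008053702)))) (.nd (nat_lit 31) 
(.lf (nat_lit 1677787415) (dlOf (nat_lit 2) (nat_lit 0x1000a2007403a0004b028090480))) 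
(.lf (nat_lit 3825271063) (dlOf (nat_lit 3) (nat_lit 0x540000003f81000200d8001805c00000080174002000800080b0482))))) 
(.nd (nat_lit 7) (.nd (nat_lit 8) 
(.lf (nat_lit 1812004951) (dlOf (nat_lit 1) (nat_lit 0x18004000200180b0002))) 
(.lf (nat_lit 1677787479) (dlOf (nat_lit 4) (nat_lit 0x4029000100e00001c0800c409e0000c02005404f0026000000000100070008007c00200180008090683)))) 
(.lf (nat_lit 1677787351) (dlOf (nat_lit 2) (nat_lit 0x292051014e01d000250100030008000c00200020008090483))))) 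
(.nd (nat_lit 7) (.nd (nat_lit 19) (.nd (nat_lit 8) 
(.lf (nat_lit 4093707287) (dlOf (nat_lit 1) (nat_lit 0x20028002881))) 
(.lf (nat_lit 5167450903) (dlOf (nat_lit 2) (nat_lit 0x700a00002404001c004001e0018055b82)))) 
(.nd (nat_lit 6) (.lf (nat_lit 1007222807) (dlOf (nat_lit 1) (nat_lit 0xe0028270481))) 
(.lf (nat_lit 4096327767) (dlOf (nat_lit 1) (nat_lit 0x4004000200080f1882))))) (.nd (nat_lit 10) 
(.lf (nat_lit 3154706583) (dlOf (nat_lit 1) (nat_lit 0x180080018002001c0008310483))) 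
(.nd (nat_lit 27) (.lf (nat_lit 872481943) (dlOf (nat_lit 1) (nat_lit 0x800200020008092b82))) 
(.lf (nat_lit 2080441495) (dlOf (nat_lit 1) (nat_lit 0x40028092b81))))))))) (.nd (nat_lit 6) 
(.nd (nat_lit 19) (.nd (nat_lit 31) (.nd (nat_lit 24) (.nd (nat_lit 29) (.nd (nat_lit 7) 
(.nd (nat_lit 21) (.lf (nat_lit 33882135) (dlOf (nat_lit 1) (nat_lit 0x400400020008f70082))) 
(.lf (nat_lit 10813463) (dlOf (nat_lit 2) (nat_lit 0x12ba000334080038008000800200040008630603)))) 
(.lf (nat_lit 474284439) (dlOf (nat_lit 1) (nat_lit 0x200029116481)))) (.nd (nat_lit 26) 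
(.nd (nat_lit 27) (.lf (nat_lit 5905907735) (dlOf (nat_lit 1) (nat_lit 0x100028160481))) 
(.lf (nat_lit 1745158167) (dlOf (nat_lit 1) (nat_lit 0x1000080b0081)))) 
(.lf (nat_lit 872742935) (dlOf (nat_lit 1) (nat_lit 0x1000080b0081))))) (.nd (nat_lit 21) 
(.nd (nat_lit 20) (.lf (nat_lit 17104919) (dlOf (nat_lit 1) (nat_lit 0x4002000200088e0002))) 
(.lf (nat_lit 55902231) (dlOf (nat_lit 1) (nat_lit 0x100080004002000200096f0083)))) 
(.nd (nat_lit 22) 
(.lf (nat_lit 62193687) (dlOf (nat_lit 2) (nat_lit 0x161920007026000070100040008001400200100009970383))) 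
(.lf (nat_lit 24444951) (dlOf (nat_lit 3) (nat_lit 0x1d69500021010008b4a8002da380000008005c002000e0008ba0982)))))) 
(.nd (nat_lit 29) (.nd (nat_lit 32) (.nd (nat_lit 27) 
(.lf (nat_lit 3288662039) (dlOf (nat_lit 11) (nat_lit 0x203600c7801000201b0063380800280d8030de04000806c0176202002402e0085e810038017003e600800380b801f0204003005c00f8002006802e007af810034017003d2c0800380080034002007e00080a0903))) 
(.lf (nat_lit 2617573399) (dlOf (nat_lit 9) (nat_lit 0x1ca02d0011e8101280168008f00801800b4004660404f405a020a029001190201510168008c40800400b400456040084000001f202036802b000e9018100480)))) 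
(.nd (nat_lit 26) (.lf (nat_lit 6442778647) (dlOf (nat_lit 1) (nat_lit 0x4004000200081b0002))) 
(.lf (nat_lit 6509887511) (dlOf (nat_lit 1) (nat_lit 0x100028160481))))) (.nd (nat_lit 26) 
(.nd (nat_lit 27) 
(.lf (nat_lit 4026859543) (dlOf (nat_lit 11) (nat_lit 0x203600e2a01000201b0070d40800280d8037aa04000806c01ac602002402e0081d010007017003e4c0800600b801f200400e005c00f8802006802e007ac010034017003d300800380080034002007e00080a0903))) 
(.lf (nat_lit 3892641815) (dlOf (nat_lit 3) (nat_lit 0xd8144027c066001e70401bc05100de027800798100020008000800200060008180083)))) 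
(.nd (nat_lit 10) 
(.lf (nat_lit 3154444311) (dlOf (nat_lit 3) (nat_lit 0xe015000b80a2005c04f0007026000e00cc0030044000201d000fc87009b02a00ac0144057409e0024033006c00b00020050003f0180080004000800081a0082))) 
(.lf (nat_lit 2751792151) (dlOf (nat_lit 1) (nat_lit 0x20018002881))))))) (.nd (nat_lit 20) 
(.nd (nat_lit 23) (.nd (nat_lit 21) 
(.lf (nat_lit 2819424279) (dlOf (nat_lit 2) (nat_lit 0x100d00152e04000c00400020008280482))) 
(.lf (nat_lit 70058007) (dlOf (nat_lit 1) (nat_lit 0x800400020008e80082)))) (.nd (nat_lit 24) 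
(.nd (nat_lit 25) (.lf (nat_lit 9240599) (dlOf (nat_lit 1) (nat_lit 0x54004006c0008530082))) 
(.lf (nat_lit 42795031) (dlOf (nat_lit 5) (nat_lit 0x633a8003ce0400099d4001e6020012cea000f281001767500078c0801080080024002001c0009280083)))) 
(.lf (nat_lit 59572247) (dlOf (nat_lit 4) (nat_lit 0xaa1fc0065016004480a000a3a080058420012a0240013a0400710120008e02000c0019810601))))) 
(.nd (nat_lit 7) (.nd (nat_lit 21) (.nd (nat_lit 24) 
(.lf (nat_lit 3491561495) (dlOf (nat_lit 1) (nat_lit 0x160028090001))) 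
(.lf (nat_lit 18677783) (dlOf (nat_lit 7) (nat_lit 0x2237c000b8040004fae000c7ac0002399800154180011ccc000a80400511d4002a7d7000b3eb00179eb00058ebe001e733000290600023998001440800423a80014fae001a7ac000b39980012c200068008000800200020008960403)))) 
(.lf (nat_lit 3997719) (dlOf (nat_lit 1) (nat_lit 0x60018260a81)))) (.nd (nat_lit 10) 
(.lf (nat_lit 1900695) (dlOf (nat_lit 3) (nat_lit 0x18ca5c0002301002452e00011408031000800a000200a80008150183))) 
(.lf (nat_lit 473760919) (dlOf (nat_lit 1) (nat_lit 0x320008fa2b81))))))) (.nd (nat_lit 20) 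
(.nd (nat_lit 11) (.nd (nat_lit 28) (.nd (nat_lit 8) (.nd (nat_lit 26) 
(.lf (nat_lit 1745158231) (dlOf (nat_lit 2) (nat_lit 0x40700002033000148280b0700))) 
(.lf (nat_lit 3288662103) (dlOf (nat_lit 1) (nat_lit 0x100080020002000400080a1103)))) 
(.lf (nat_lit 56952151) (dlOf (nat_lit 1) (nat_lit 0x14004000a0009793382)))) (.nd (nat_lit 29) 
(.nd (nat_lit 27) (.lf (nat_lit 4563730519) (dlOf (nat_lit 1) (nat_lit 0x4004000200080d0602))) 
(.lf (nat_lit 4697948247) (dlOf (nat_lit 1) (nat_lit 0x4004000200080d0602)))) (.nd (nat_lit 26) 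
(.lf (nat_lit 4026859607) (dlOf (nat_lit 1) (nat_lit 0x100080020002000400080a1103))) 
(.lf (nat_lit 872742999) (dlOf (nat_lit 2) (nat_lit 0x40700002033000148280b0700)))))) 
(.nd (nat_lit 8) (.nd (nat_lit 23) (.nd (nat_lit 19) 
(.lf (nat_lit 1344604759) (dlOf (nat_lit 1) (nat_lit 0x3e00088c5301))) 
(.lf (nat_lit 1345129047) (dlOf (nat_lit 1) (nat_lit 0x7400400280018a45302)))) (.nd (nat_lit 22) 
(.lf (nat_lit 44894807) (dlOf (nat_lit 1) (nat_lit 0x60009325301))) 
(.lf (nat_lit 32311895) (dlOf (nat_lit 2) (nat_lit 0xa717800094080018008000c00200080008ef5303))))) 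
(.nd (nat_lit 7) 
(.lf (nat_lit 2886011223) (dlOf (nat_lit 4) (nat_lit 0xf02080005008002810400180000000504000a0410006000000010100018008007000200020008144e03))) 
(.lf (nat_lit 36506071) (dlOf (nat_lit 1) (nat_lit 0x20019074e81)))))) (.nd (nat_lit 7) 
(.nd (nat_lit 8) (.nd (nat_lit 24) 
(.lf (nat_lit 9764951) (dlOf (nat_lit 1) (nat_lit 0x400400020008580602))) 
(.lf (nat_lit 26542167) (dlOf (nat_lit 1) (nat_lit 0x1438008008c00202bc0008c50803)))) 
(.nd (nat_lit 10) (.lf (nat_lit 3473751) (dlOf (nat_lit 1) (nat_lit 0x460018200681))) 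
(.lf (nat_lit 50136407) (dlOf (nat_lit 1) (nat_lit 0xb00080038002000800094c3383))))) 
(.nd (nat_lit 9) (.nd (nat_lit 10) (.nd (nat_lit 19) 
(.lf (nat_lit 3473623) (dlOf (nat_lit 1) (nat_lit 0x400200020008200482))) 
(.lf (nat_lit 6377242839) (dlOf (nat_lit 1) (nat_lit 0x4002000400080c1c02)))) 
(.lf (nat_lit 20778199) (dlOf (nat_lit 1) (nat_lit 0x4b0004018000089d6482)))) (.nd (nat_lit 8) 
(.nd (nat_lit 11) (.lf (nat_lit 8196823) (dlOf (nat_lit 1) (nat_lit 0x400200020008518c82))) 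
(.lf (nat_lit 20257495) (dlOf (nat_lit 1) (nat_lit 0x54004001400089db982)))) 
(.lf (nat_lit 3493140439) (dlOf (nat_lit 1) (nat_lit 0xc004002400080fa602))))))))) (.nd (nat_lit 6) 
(.nd (nat_lit 18) (.nd (nat_lit 19) (.nd (nat_lit 20) (.nd (nat_lit 7) (.nd (nat_lit 8) 
(.nd (nat_lit 21) (.lf (nat_lit 25231415) (dlOf (nat_lit 1) (nat_lit 0x20018bf0b81))) 
(.nd (nat_lit 22) 
(.lf (nat_lit 44105783) (dlOf (nat_lit 1) (nat_lit 0x100080008002000400092c0483))) 
(.lf (nat_lit 14745655) (dlOf (nat_lit 2) (nat_lit 0xd5d300097818770480))))) (.nd (nat_lit 9) 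
(.nd (nat_lit 10) (.lf (nat_lit 201398583) (dlOf (nat_lit 1) (nat_lit 0x2001800ab81))) 
(.lf (nat_lit 8459575) (dlOf (nat_lit 1) (nat_lit 0x400200020008519902)))) 
(.lf (nat_lit 2617316151) (dlOf (nat_lit 1) (nat_lit 0x2c00280a8f81))))) (.nd (nat_lit 8) 
(.nd (nat_lit 9) (.lf (nat_lit 3288403127) (dlOf (nat_lit 1) (nat_lit 0x20018006281))) 
(.lf (nat_lit 2952861367) (dlOf (nat_lit 1) (nat_lit 0x90008000c002000e000800a003)))) 
(.nd (nat_lit 9) (.nd (nat_lit 11) 
(.lf (nat_lit 469832119) (dlOf (nat_lit 1) (nat_lit 0x8008002000200040008008583))) 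
(.lf (nat_lit 3556837815) (dlOf (nat_lit 1) (nat_lit 0x20008084e81)))) 
(.lf (nat_lit 2483100599) (dlOf (nat_lit 1) (nat_lit 0x6000800be01)))))) (.nd (nat_lit 22) 
(.nd (nat_lit 23) (.nd (nat_lit 7) (.nd (nat_lit 26) 
(.lf (nat_lit 3490775095) (dlOf (nat_lit 1) (nat_lit 0x400200020008020682))) 
(.lf (nat_lit 2752577591) (dlOf (nat_lit 1) (nat_lit 0x400200020008020682)))) 
(.lf (nat_lit 1007749559) (dlOf (nat_lit 1) (nat_lit 0x1000287a4e81)))) (.nd (nat_lit 10) 
(.lf (nat_lit 26279991) (dlOf (nat_lit 1) (nat_lit 0x80080004002002e0008c30483))) 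
(.lf (nat_lit 61932599) (dlOf (nat_lit 1) (nat_lit 0x8e800804f800201700009922883))))) 
(.nd (nat_lit 7) (.nd (nat_lit 23) 
(.lf (nat_lit 22085687) (dlOf (nat_lit 1) (nat_lit 0x400200020008a90702))) 
(.lf (nat_lit 13697079) (dlOf (nat_lit 1) (nat_lit 0x80018740781)))) 
(.lf (nat_lit 7405751) (dlOf (nat_lit 1) (nat_lit 0x2800184b0481)))))) (.nd (nat_lit 29) 
(.nd (nat_lit 21) (.nd (nat_lit 20) 
(.lf (nat_lit 3494445111) (dlOf (nat_lit 30) (nat_lit 0x91c0d004840420251011813380780038e1000d00d000c8023015e00f000718181c881a00e40084070602303ac00f0007142005481a001cc08401c4023009300f00070c200a0008c0037a04010803c001b50200d601e000d88100aa00f000698080cb8078003460407d803c001a002014e01e000cf81006e00f00066808094007800332040110046015001e000c782003d00f0006300803780780031204008403c0018802008401e000be8101f400f0005f0080fb0078002f604029003c0017a0203e801e000bc8101f200f0005e0080fb0078002ec04060c03c001740203e401e000b981013300f0005bc0802e81a803a00d00102063008402d806f014c0394084008402900e6011803c808403f003c00a601a00de00b80158034014401001340000004a0f00260340021808c0000008033800200d60008220b82)))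 
(.nd (nat_lit 26) 
(.lf (nat_lit 1343815735) (dlOf (nat_lit 1) (nat_lit 0x8008000400200020008370003))) 
(.lf (nat_lit 471400503) (dlOf (nat_lit 1) (nat_lit 0x10004000e00082f1082))))) (.nd (nat_lit 7) 
(.nd (nat_lit 8) 
(.lf (nat_lit 7936567) (dlOf (nat_lit 3) (nat_lit 0x10558000c701000c2ac0006340800e8008000c002003c000851b403))) 
(.lf (nat_lit 58261815) (dlOf (nat_lit 1) (nat_lit 0x1c004002000097d7b02)))) (.nd (nat_lit 8) 
(.lf (nat_lit 61407415) (dlOf (nat_lit 1) (nat_lit 0xe0019920681))) 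
(.lf (nat_lit 7930295) (dlOf (nat_lit 1) (nat_lit 0x20018511001)))))) (.nd (nat_lit 27) 
(.nd (nat_lit 31) (.nd (nat_lit 26) 
(.lf (nat_lit 1611202615) (dlOf (nat_lit 1) (nat_lit 0x60028110681))) 
(.lf (nat_lit 1678311479) (dlOf (nat_lit 1) (nat_lit 0xbc004000200081e1402)))) (.nd (nat_lit 7) 
(.lf (nat_lit 2756247607) (dlOf (nat_lit 30) (nat_lit 0x91c0d004840420251011813380780038e1000d00d000c8023015e00f000718181c881a00e40084070602303ac00f0007142005481a001cc08401c4023009300f00070c200a0008c0037a04065c03c001b30203ec01e000d80100a700f0006bc0802100780035c0401ac03c001aa02015401e000cf81006e00f0006780809400780033a040110046015001e000c782003d00f0006380803780780031404008403c001880203e801e000c301004200f000614080fb00780030804029003c001830203e801e000c10101f600f0005e0080f90078002ec04060c03c001740203e401e000b881013300f0005bc0802e81a803a00d00102063008402d806f014c0394084008402900e6011803c808403f003c00a601a00de00b80158034014401001340000004a0f00260340021808c0000008033800200d60008220b82)))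 
(.lf (nat_lit 4095279287) (dlOf (nat_lit 1) (nat_lit 0x20028081701))))) (.nd (nat_lit 26) 
(.lf (nat_lit 3892903991) (dlOf (nat_lit 1) (nat_lit 0x160008291081))) (.nd (nat_lit 30) 
(.lf (nat_lit 738787383) (dlOf (nat_lit 1) (nat_lit 0x60028110681))) 
(.lf (nat_lit 3960012855) (dlOf (nat_lit 1) (nat_lit 0x18008000400200020008191403)))))))) 
(.nd (nat_lit 30) (.nd (nat_lit 19) (.nd (nat_lit 26) (.nd (nat_lit 21) (.nd (nat_lit 27) 
(.lf (nat_lit 268763191) (dlOf (nat_lit 1) (nat_lit 0x60028131401))) 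
(.lf (nat_lit 3087335479) (dlOf (nat_lit 1) (nat_lit 0x80080004002000200081a0703)))) 
(.nd (nat_lit 20) 
(.lf (nat_lit 2424887) (dlOf (nat_lit 4) (nat_lit 0xcb0100032010003580800090080012bc80002c04000400400040018160a82))) 
(.lf (nat_lit 11862071) (dlOf (nat_lit 1) (nat_lit 0x800186c0001))))) (.nd (nat_lit 10) 
(.nd (nat_lit 29) (.lf (nat_lit 470089783) (dlOf (nat_lit 1) (nat_lit 0x20028040701))) 
(.lf (nat_lit 3154444343) (dlOf (nat_lit 1) (nat_lit 0x180080004002000200081a0483)))) 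
(.lf (nat_lit 1008010295) (dlOf (nat_lit 1) (nat_lit 0x20018982881))))) (.nd (nat_lit 20) 
(.nd (nat_lit 7) (.nd (nat_lit 22) 
(.lf (nat_lit 9240631) (dlOf (nat_lit 1) (nat_lit 0x20018530481))) 
(.lf (nat_lit 21823543) (dlOf (nat_lit 2) (nat_lit 0xac3800017c0800580080090002006a0008a70683)))) 
(.lf (nat_lit 44894647) (dlOf (nat_lit 1) (nat_lit 0x240009324e81)))) (.nd (nat_lit 7) 
(.nd (nat_lit 9) 
(.lf (nat_lit 10289207) (dlOf (nat_lit 8) (nat_lit 0x860b40000803001c800000163060108000000ae01007f000000524080458000002840400fc35e00901ad004b0b7002385a0006c06a00aa011004a007000b803000b80000012f1200140000009701000c31b8007188000742dc0002168001900880248038001c8180068004027800185c0d02))) 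
(.lf (nat_lit 58526263) (dlOf (nat_lit 1) (nat_lit 0x10008000c002000200097e5183)))) 
(.lf (nat_lit 20780727) (dlOf (nat_lit 1) (nat_lit 0x200189da001)))))) (.nd (nat_lit 7) 
(.nd (nat_lit 26) (.nd (nat_lit 27) 
(.lf (nat_lit 1342505015) (dlOf (nat_lit 1) (nat_lit 0x20028040701))) (.nd (nat_lit 29) 
(.lf (nat_lit 1208287287) (dlOf (nat_lit 8) (nat_lit 0xc00720020602001202800080058002bc1002200a40007204000405000b000b000128200010140000802c00048080004050001400b0001102002300600003c0800e00080004002001400080b0483))) 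
(.lf (nat_lit 3892641847) (dlOf (nat_lit 2) (nat_lit 0x2480d80035a040008004000a0008180482))))) 
(.nd (nat_lit 27) (.nd (nat_lit 29) 
(.lf (nat_lit 3288662071) (dlOf (nat_lit 12) (nat_lit 0x3c00500032010232017016780b4000b408030805c0002f02020802e0001701023a017004300b4000580803f405c0002b02030602e01cf01680002c1009680b80000e040d9805c02e402d0019013800010180ce80b8099005a0000304020c02e0175016800008101190008035800203fe00080a0b83))) 
(.lf (nat_lit 3825532983) (dlOf (nat_lit 1) (nat_lit 0x80080004002000200081a0703)))) 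
(.lf (nat_lit 2080702519) (dlOf (nat_lit 8) (nat_lit 0xc00720020402001202800080058002bc1002200a400078040004050000200b00015020001014002c002c00050080004050001400b000138200230060000500800e00080004002001400080b0483))))) 
(.nd (nat_lit 28) (.nd (nat_lit 27) 
(.lf (nat_lit 1678049463) (dlOf (nat_lit 1) (nat_lit 0x800800e000200320008155203))) 
(.nd (nat_lit 29) (.lf (nat_lit 5570363575) (dlOf (nat_lit 1) (nat_lit 0x400400120008101702))) 
(.lf (nat_lit 3959750839) (dlOf (nat_lit 1) (nat_lit 0x20018135201))))) (.nd (nat_lit 9) 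
(.nd (nat_lit 10) 
(.lf (nat_lit 5773263031) (dlOf (nat_lit 1) (nat_lit 0x80080004002000200080c1703))) 
(.lf (nat_lit 3624209591) (dlOf (nat_lit 1) (nat_lit 0x24002000e0008146282)))) 
(.lf (nat_lit 3557103287) (dlOf (nat_lit 1) (nat_lit 0x2001812a001)))))))) (.nd (nat_lit 7) 
(.nd (nat_lit 28) (.nd (nat_lit 11) (.nd (nat_lit 10) (.nd (nat_lit 18) (.nd (nat_lit 12) 
(.lf (nat_lit 47251575) (dlOf (nat_lit 2) (nat_lit 0x66038002afc000000080004002000400093c1182))) 
(.lf (nat_lit 604049527) (dlOf (nat_lit 1) (nat_lit 0x120008006000200080008007d83)))) 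
(.nd (nat_lit 22) 
(.lf (nat_lit 3288662135) (dlOf (nat_lit 2) (nat_lit 0x960000000580800d8008010c002008000080a1883))) 
(.lf (nat_lit 21299319) (dlOf (nat_lit 1) (nat_lit 0x400080004002000a0008a30c03))))) 
(.nd (nat_lit 8) (.nd (nat_lit 9) 
(.lf (nat_lit 56951927) (dlOf (nat_lit 1) (nat_lit 0xe00080070002001e0009792a03))) 
(.lf (nat_lit 7935607) (dlOf (nat_lit 2) (nat_lit 0xa55b0002d018519d00)))) 
(.lf (nat_lit 5435884919) (dlOf (nat_lit 9) (nat_lit 0x180500005e0400340280002e02000e0140001681000a00a0000b0080018050000560400340280002a02000a0140001481000300a0000000800a8008005400200020008003503))))) 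
(.nd (nat_lit 8) (.nd (nat_lit 9) (.nd (nat_lit 12) 
(.lf (nat_lit 134286455) (dlOf (nat_lit 1) (nat_lit 0x160008001000200380008006083))) 
(.lf (nat_lit 20520055) (dlOf (nat_lit 1) (nat_lit 0x2e00189dc101)))) (.nd (nat_lit 23) 
(.lf (nat_lit 54594167) (dlOf (nat_lit 3) (nat_lit 0x12545000230100152a2800114080090008002400200100009655403))) 
(.lf (nat_lit 46205559) (dlOf (nat_lit 2) (nat_lit 0xedb2000450200020029385401))))) 
(.nd (nat_lit 19) (.lf (nat_lit 61147511) (dlOf (nat_lit 1) (nat_lit 0xe00198c4e81))) 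
(.nd (nat_lit 20) (.lf (nat_lit 57477495) (dlOf (nat_lit 1) (nat_lit 0x40019794e81))) 
(.lf (nat_lit 20777335) (dlOf (nat_lit 1) (nat_lit 0x200289d4e81))))))) (.nd (nat_lit 8) 
(.nd (nat_lit 26) (.nd (nat_lit 10) (.nd (nat_lit 12) 
(.lf (nat_lit 4026859639) (dlOf (nat_lit 2) (nat_lit 0x960000000580800d8008010c002008000080a1883))) 
(.lf (nat_lit 2952859767) (dlOf (nat_lit 1) (nat_lit 0x20018007d81)))) 
(.lf (nat_lit 3489991799) (dlOf (nat_lit 1) (nat_lit 0x9a0018006081)))) (.nd (nat_lit 12) 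
(.nd (nat_lit 22) (.lf (nat_lit 335872119) (dlOf (nat_lit 1) (nat_lit 0xc00180c0c01))) 
(.lf (nat_lit 474284151) (dlOf (nat_lit 1) (nat_lit 0x220029110b81)))) 
(.lf (nat_lit 3691057271) (dlOf (nat_lit 1) (nat_lit 0x20028007d81))))) (.nd (nat_lit 11) 
(.nd (nat_lit 26) (.nd (nat_lit 32) 
(.lf (nat_lit 402719095) (dlOf (nat_lit 2) (nat_lit 0xd004c0017c04001000400080018091002))) 
(.lf (nat_lit 4697686391) (dlOf (nat_lit 2) (nat_lit 0x8c0178002f8080050008003800200100008091003)))) 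
(.nd (nat_lit 27) 
(.lf (nat_lit 872481143) (dlOf (nat_lit 2) (nat_lit 0x6d00e0026006a01ae03300d90120002f82000880080004002000a0008091003))) 
(.lf (nat_lit 2080440695) (dlOf (nat_lit 2) (nat_lit 0xc6012801380200017c080018004000a0018091002))))) 
(.nd (nat_lit 10) (.lf (nat_lit 4563470711) (dlOf (nat_lit 1) (nat_lit 0x20018094e81))) 
(.lf (nat_lit 3624209783) (dlOf (nat_lit 1) (nat_lit 0x800400020018146b82))))))) (.nd (nat_lit 8) 
(.nd (nat_lit 27) (.nd (nat_lit 18) (.nd (nat_lit 20) 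
(.lf (nat_lit 3825271031) (dlOf (nat_lit 1) (nat_lit 0x20002000e00080b0482))) 
(.lf (nat_lit 19988727) (dlOf (nat_lit 1) (nat_lit 0x800089d0a81)))) (.nd (nat_lit 9) 
(.nd (nat_lit 19) (.lf (nat_lit 20250871) (dlOf (nat_lit 1) (nat_lit 0x200089d0a81))) 
(.lf (nat_lit 12386551) (dlOf (nat_lit 1) (nat_lit 0xc002002800086c0482)))) 
(.lf (nat_lit 329463) (dlOf (nat_lit 1) (nat_lit 0xc00201240008003b82))))) (.nd (nat_lit 26) 
(.nd (nat_lit 28) (.lf (nat_lit 1208025335) (dlOf (nat_lit 2) (nat_lit 0x4009000b0018090a80))) 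
(.lf (nat_lit 2013331703) (dlOf (nat_lit 1) (nat_lit 0x48008003400201120008000a83)))) 
(.nd (nat_lit 10) (.nd (nat_lit 12) 
(.lf (nat_lit 1812005111) (dlOf (nat_lit 1) (nat_lit 0x1000080b0481))) 
(.lf (nat_lit 469831927) (dlOf (nat_lit 1) (nat_lit 0x8008002000200040008008083)))) 
(.lf (nat_lit 1543572727) (dlOf (nat_lit 1) (nat_lit 0x20028146581)))))) (.nd (nat_lit 9) 
(.nd (nat_lit 20) (.nd (nat_lit 10) (.nd (nat_lit 11) 
(.lf (nat_lit 2080440823) (dlOf (nat_lit 1) (nat_lit 0x320018091401))) 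
(.lf (nat_lit 1345128951) (dlOf (nat_lit 1) (nat_lit 0x40028a44f81)))) 
(.lf (nat_lit 4227927543) (dlOf (nat_lit 1) (nat_lit 0x20028006f81)))) (.nd (nat_lit 18) 
(.nd (nat_lit 22) (.lf (nat_lit 37292535) (dlOf (nat_lit 1) (nat_lit 0x4002006200090d4f82))) 
(.lf (nat_lit 33098231) (dlOf (nat_lit 1) (nat_lit 0x18800200500008f54f82)))) 
(.lf (nat_lit 37554679) (dlOf (nat_lit 1) (nat_lit 0x1b000200c200090d4f82))))) (.nd (nat_lit 28) 
(.nd (nat_lit 20) (.nd (nat_lit 10) 
(.lf (nat_lit 4831906807) (dlOf (nat_lit 1) (nat_lit 0x9000200020008055f02))) 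
(.lf (nat_lit 201398263) (dlOf (nat_lit 1) (nat_lit 0x28000800f400200a8000800a603)))) 
(.nd (nat_lit 21) (.lf (nat_lit 55641079) (dlOf (nat_lit 1) (nat_lit 0x200296d2881))) 
(.lf (nat_lit 36766711) (dlOf (nat_lit 1) (nat_lit 0xc00200900009072882))))) (.nd (nat_lit 11) 
(.nd (nat_lit 26) 
(.lf (nat_lit 4026598391) (dlOf (nat_lit 1) (nat_lit 0x10008000400200020008002883))) 
(.lf (nat_lit 4630578167) (dlOf (nat_lit 1) (nat_lit 0x20028002881)))) 
(.lf (nat_lit 6174084087) (dlOf (nat_lit 1) (nat_lit 0x4004000a0008055f02)))))))))) 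
(.nd (nat_lit 18) (.nd (nat_lit 30) (.nd (nat_lit 5) (.nd (nat_lit 20) (.nd (nat_lit 29) 
(.nd (nat_lit 22) (.nd (nat_lit 6) (.nd (nat_lit 7) 
(.lf (nat_lit 2294039) (dlOf (nat_lit 1) (nat_lit 0x28008003800200040008150483))) (.nd (nat_lit 9) 
(.lf (nat_lit 2281903255) (dlOf (nat_lit 1) (nat_lit 0x28004000c00080a9502))) 
(.lf (nat_lit 6509760151) (dlOf (nat_lit 1) (nat_lit 0x400200020008147202))))) (.nd (nat_lit 7) 
(.nd (nat_lit 19) (.lf (nat_lit 4630708311) (dlOf (nat_lit 1) (nat_lit 0x40018090001))) 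
(.lf (nat_lit 472580183) (dlOf (nat_lit 1) (nat_lit 0x200189c0801)))) 
(.lf (nat_lit 8590039) (dlOf (nat_lit 1) (nat_lit 0x8008000400200020008518c83))))) 
(.nd (nat_lit 19) (.nd (nat_lit 21) 
(.lf (nat_lit 63111191) (dlOf (nat_lit 1) (nat_lit 0x100080004002000200099e0083))) 
(.lf (nat_lit 56819735) (dlOf (nat_lit 1) (nat_lit 0x800400020009770082)))) (.nd (nat_lit 24) 
(.lf (nat_lit 4915223) (dlOf (nat_lit 1) (nat_lit 0x1200282d0081))) 
(.lf (nat_lit 21692439) (dlOf (nat_lit 5) (nat_lit 0x1ed50000f6a0003fb4c0019da40002ed00008f6780037a8600d520e002ddaa0012ed40000f6980023b400013d9e0008ea18035443000df6a8006fb500003da60009ed0000376780027a8600d500c0037daa001bed40000f6980027b400013d9e0009ea180353c300128008001800200140008a60a03)))))) 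
(.nd (nat_lit 6) (.nd (nat_lit 9) (.nd (nat_lit 10) (.nd (nat_lit 12) 
(.lf (nat_lit 537591831) (dlOf (nat_lit 1) (nat_lit 0x22800801b0002017400080c0a83))) 
(.lf (nat_lit 2818773015) (dlOf (nat_lit 1) (nat_lit 0x780080078002002a0008127a83)))) 
(.lf (nat_lit 5033362455) (dlOf (nat_lit 1) (nat_lit 0x20008092881)))) (.nd (nat_lit 7) 
(.lf (nat_lit 2753757719) (dlOf (nat_lit 4) (nat_lit 0xe1c2000b40100040eb8003070c002860800103ae000cd0200020028090d81))) 
(.lf (nat_lit 2752186007) (dlOf (nat_lit 1) (nat_lit 0x180008003a81))))) (.nd (nat_lit 7) 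
(.nd (nat_lit 9) 
(.lf (nat_lit 537591895) (dlOf (nat_lit 1) (nat_lit 0x200080018002000a00080c1a83))) 
(.lf (nat_lit 2818773591) (dlOf (nat_lit 1) (nat_lit 0x380018128981)))) (.nd (nat_lit 9) 
(.lf (nat_lit 2885880023) (dlOf (nat_lit 1) (nat_lit 0x400400020018144a02))) 
(.lf (nat_lit 3154320087) (dlOf (nat_lit 1) (nat_lit 0x7f8008000800200c8000815b983))))))) 
(.nd (nat_lit 10) (.nd (nat_lit 21) (.nd (nat_lit 19) (.nd (nat_lit 22) 
(.lf (nat_lit 471007255) (dlOf (nat_lit 1) (nat_lit 0x20028230481))) 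
(.lf (nat_lit 22216727) (dlOf (nat_lit 1) (nat_lit 0x400400020008aa0a82)))) 
(.lf (nat_lit 1769495) (dlOf (nat_lit 2) (nat_lit 0x30b5000380540295c08001400200060008130502)))) 
(.nd (nat_lit 6) (.nd (nat_lit 8) 
(.lf (nat_lit 16449559) (dlOf (nat_lit 1) (nat_lit 0x1000188a0481))) 
(.lf (nat_lit 20122391) (dlOf (nat_lit 1) (nat_lit 0x800400bc00189d5b82)))) (.nd (nat_lit 7) 
(.lf (nat_lit 62062679) (dlOf (nat_lit 1) (nat_lit 0x20029940701))) 
(.lf (nat_lit 20126423) (dlOf (nat_lit 1) (nat_lit 0x44004001000089db982)))))) (.nd (nat_lit 21) 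
(.nd (nat_lit 6) (.nd (nat_lit 7) 
(.lf (nat_lit 35324951) (dlOf (nat_lit 1) (nat_lit 0x1c0019012881))) 
(.lf (nat_lit 43189399) (dlOf (nat_lit 1) (nat_lit 0x1a00292a2b81)))) 
(.lf (nat_lit 43189463) (dlOf (nat_lit 2) (nat_lit 0x83310000ec080028008001c002001200092a2d83)))) 
(.nd (nat_lit 6) (.nd (nat_lit 8) 
(.lf (nat_lit 8066071) (dlOf (nat_lit 1) (nat_lit 0x20028519201))) 
(.lf (nat_lit 20649239) (dlOf (nat_lit 1) (nat_lit 0x200289d9701)))) 
(.lf (nat_lit 20647255) (dlOf (nat_lit 1) (nat_lit 0x800189d6a81))))))) (.nd (nat_lit 6) 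
(.nd (nat_lit 8) (.nd (nat_lit 21) (.nd (nat_lit 20) (.nd (nat_lit 22) 
(.lf (nat_lit 537591863) (dlOf (nat_lit 1) (nat_lit 0x200280c1201))) 
(.lf (nat_lit 4915255) (dlOf (nat_lit 1) (nat_lit 0x280080008002000400082d0483)))) (.nd (nat_lit 9) 
(.lf (nat_lit 2752708663) (dlOf (nat_lit 2) (nat_lit 0x2e0b100097818030d00))) 
(.lf (nat_lit 2753233463) (dlOf (nat_lit 2) (nat_lit 0x1743f80000002000e0008090f81))))) 
(.nd (nat_lit 7) (.nd (nat_lit 10) 
(.lf (nat_lit 14876727) (dlOf (nat_lit 1) (nat_lit 0x40028790481))) 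
(.lf (nat_lit 57345079) (dlOf (nat_lit 1) (nat_lit 0x40019792881)))) 
(.lf (nat_lit 32179383) (dlOf (nat_lit 2) (nat_lit 0x433e000000080008008000400200020008ef2c83))))) 
(.nd (nat_lit 7) (.nd (nat_lit 10) (.nd (nat_lit 19) 
(.lf (nat_lit 9634103) (dlOf (nat_lit 5) (nat_lit 0x60b44014ae0400185a20050e02002e2d1002610100041688013040801080080054002000a0008574c03))) 
(.lf (nat_lit 17498423) (dlOf (nat_lit 1) (nat_lit 0x8004000200088e0702)))) 
(.lf (nat_lit 8590647) (dlOf (nat_lit 1) (nat_lit 0x400200020008519902)))) (.nd (nat_lit 9) 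
(.nd (nat_lit 10) (.lf (nat_lit 2753757623) (dlOf (nat_lit 1) (nat_lit 0x2800400040008090802))) 
(.lf (nat_lit 2818776503) (dlOf (nat_lit 1) (nat_lit 0x2001812cd01)))) 
(.lf (nat_lit 671287223) (dlOf (nat_lit 2) (nat_lit 0x100200004804001000200040008144382)))))) 
(.nd (nat_lit 20) (.nd (nat_lit 8) (.nd (nat_lit 28) (.nd (nat_lit 21) 
(.lf (nat_lit 4966252791) (dlOf (nat_lit 1) (nat_lit 0x20008090a81))) 
(.lf (nat_lit 2294007) (dlOf (nat_lit 1) (nat_lit 0x9000400260008150482)))) (.nd (nat_lit 7) 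
(.lf (nat_lit 3020102775) (dlOf (nat_lit 1) (nat_lit 0xc001812c101))) 
(.lf (nat_lit 4563599607) (dlOf (nat_lit 1) (nat_lit 0x400400020008090a82))))) (.nd (nat_lit 7) 
(.lf (nat_lit 8591223) (dlOf (nat_lit 1) (nat_lit 0x2800800080020002000851a303))) (.nd (nat_lit 9) 
(.lf (nat_lit 201523703) (dlOf (nat_lit 1) (nat_lit 0x20018017e01))) 
(.lf (nat_lit 2885878775) (dlOf (nat_lit 1) (nat_lit 0x37800800fc00200cc0008142883)))))) 
(.nd (nat_lit 7) (.nd (nat_lit 11) (.nd (nat_lit 21) 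
(.lf (nat_lit 2753233271) (dlOf (nat_lit 2) (nat_lit 0x21f800652018090780))) 
(.lf (nat_lit 8061303) (dlOf (nat_lit 1) (nat_lit 0x810008000400200fe0008511003)))) 
(.lf (nat_lit 37423479) (dlOf (nat_lit 1) (nat_lit 0x4002000200090d4e82)))) (.nd (nat_lit 8) 
(.nd (nat_lit 19) (.lf (nat_lit 20119799) (dlOf (nat_lit 1) (nat_lit 0x200089d0a81))) 
(.lf (nat_lit 14352631) (dlOf (nat_lit 1) (nat_lit 0x180028750701)))) (.nd (nat_lit 11) 
(.lf (nat_lit 2753233399) (dlOf (nat_lit 3) (nat_lit 0xa43fe0021e02005a1ff0010e818090d80))) 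
(.lf (nat_lit 37423607) (dlOf (nat_lit 1) (nat_lit 0x4002000200090d4f82))))))))) (.nd (nat_lit 31) 
(.nd (nat_lit 5) (.nd (nat_lit 6) (.nd (nat_lit 19) (.nd (nat_lit 27) (.nd (nat_lit 9) 
(.nd (nat_lit 22) (.lf (nat_lit 5704450071) (dlOf (nat_lit 2) (nat_lit 0x9e0180065d818080000))) 
(.lf (nat_lit 1346568215) (dlOf (nat_lit 1) (nat_lit 0x8400200020008fd0182)))) 
(.lf (nat_lit 5637342743) (dlOf (nat_lit 1) (nat_lit 0x5e00280d3701)))) (.nd (nat_lit 29) 
(.lf (nat_lit 1476591639) (dlOf (nat_lit 1) (nat_lit 0x100080014002000a0008090403))) 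
(.lf (nat_lit 6308429847) (dlOf (nat_lit 3) (nat_lit 0xf20180038901007700c001bf40800480080008002001c0008080003))))) 
(.nd (nat_lit 20) (.nd (nat_lit 21) 
(.lf (nat_lit 1410007063) (dlOf (nat_lit 1) (nat_lit 0x22800801b0002017400080c0a83))) 
(.lf (nat_lit 1344995351) (dlOf (nat_lit 1) (nat_lit 0x14002000200089b0602)))) (.nd (nat_lit 7) 
(.lf (nat_lit 1343946775) (dlOf (nat_lit 5) (nat_lit 0xc15a00060a3800128100030568001828e0004304000a15a00060a3800104100030568001828e0003b0400160018380881))) 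
(.lf (nat_lit 1346046359) (dlOf (nat_lit 1) (nat_lit 0x400400380018e24e82)))))) (.nd (nat_lit 11) 
(.nd (nat_lit 8) (.lf (nat_lit 1881342039) (dlOf (nat_lit 2) (nat_lit 0x140640000f018ea0700))) 
(.nd (nat_lit 26) (.lf (nat_lit 1342374231) (dlOf (nat_lit 1) (nat_lit 0xc00200060008014d02))) 
(.lf (nat_lit 1812136279) (dlOf (nat_lit 3) (nat_lit 0x110130000780800c809800ac04a001002200060100000002000a8008000800200120008154d03))))) 
(.nd (nat_lit 8) (.lf (nat_lit 1346046551) (dlOf (nat_lit 1) (nat_lit 0x20008e25301))) 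
(.nd (nat_lit 10) 
(.lf (nat_lit 5905779031) (dlOf (nat_lit 1) (nat_lit 0x8008001c00200020008144e03))) 
(.lf (nat_lit 1543703895) (dlOf (nat_lit 2) (nat_lit 0x880200000604001400200040008146a82))))))) 
(.nd (nat_lit 7) (.nd (nat_lit 27) (.nd (nat_lit 19) (.nd (nat_lit 21) 
(.lf (nat_lit 5704450103) (dlOf (nat_lit 2) (nat_lit 0x1b8064003e404002c00400180008080482))) 
(.lf (nat_lit 1881342007) (dlOf (nat_lit 1) (nat_lit 0x800400060008ea0482)))) 
(.lf (nat_lit 1342898231) (dlOf (nat_lit 1) (nat_lit 0x18008000400200020008101403)))) 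
(.nd (nat_lit 6) 
(.lf (nat_lit 6308429879) (dlOf (nat_lit 2) (nat_lit 0x1b8064003e604002c00400180008080482))) 
(.lf (nat_lit 2013463927) (dlOf (nat_lit 16) (nat_lit 0x2200980006804025404c000310200f4026000180100e1013000c00940005e0802c804c000a025000170200dd0130000b40805080980005804036804c0002b0201ba026000150100de0130000a40800300980005004038404c00018020060026000090100410130000440806500980000004000c00400060018093502))))) 
(.nd (nat_lit 6) (.nd (nat_lit 8) 
(.lf (nat_lit 1543703735) (dlOf (nat_lit 10) (nat_lit 0x1500f80016808002807c000b00400b803e0005702002a01f0002b01002e00f80015008012807c000820400a003e0004002002a01f0001a8100070170000b0080318008013800200100008146283))) 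
(.lf (nat_lit 1345522103) (dlOf (nat_lit 1) (nat_lit 0x20008c94e81)))) (.nd (nat_lit 8) 
(.lf (nat_lit 5436014839) (dlOf (nat_lit 1) (nat_lit 0x8008000400200020008090a83))) 
(.lf (nat_lit 1812136439) (dlOf (nat_lit 1) (nat_lit 0x400400060018157802))))))) (.nd (nat_lit 8) 
(.nd (nat_lit 27) (.nd (nat_lit 9) (.nd (nat_lit 5) (.nd (nat_lit 7) 
(.lf (nat_lit 4095410199) (dlOf (nat_lit 1) (nat_lit 0x600080b0a01))) 
(.lf (nat_lit 3493005463) (dlOf (nat_lit 1) (nat_lit 0x80080004002000200080f4803)))) 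
(.lf (nat_lit 3490906167) (dlOf (nat_lit 2) (nat_lit 0x2e0bf00098818030d00)))) (.nd (nat_lit 5) 
(.nd (nat_lit 6) (.lf (nat_lit 3494052375) (dlOf (nat_lit 1) (nat_lit 0x24c004005400181b0d82))) 
(.lf (nat_lit 3758297815) (dlOf (nat_lit 1) (nat_lit 0x1000200020008128c82)))) 
(.lf (nat_lit 3491430967) (dlOf (nat_lit 2) (nat_lit 0x1743d40000002000e0008090f81))))) 
(.nd (nat_lit 6) (.nd (nat_lit 7) (.nd (nat_lit 10) 
(.lf (nat_lit 3691184151) (dlOf (nat_lit 1) (nat_lit 0x38008000c00200080008090403))) 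
(.lf (nat_lit 3959620631) (dlOf (nat_lit 2) (nat_lit 0x3800002bac04001800200120008112882)))) 
(.lf (nat_lit 3624078487) (dlOf (nat_lit 1) (nat_lit 0x8008000400200020008146203)))) 
(.nd (nat_lit 5) (.lf (nat_lit 3624078551) (dlOf (nat_lit 1) (nat_lit 0x20028146481))) 
(.lf (nat_lit 3624078455) (dlOf (nat_lit 1) (nat_lit 0x9c0018146081)))))) (.nd (nat_lit 5) 
(.nd (nat_lit 26) (.nd (nat_lit 6) (.nd (nat_lit 7) 
(.lf (nat_lit 3494052119) (dlOf (nat_lit 1) (nat_lit 0x300080004002000800081b0483))) 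
(.lf (nat_lit 4160947095) (dlOf (nat_lit 1) (nat_lit 0x4004000400180a2582)))) 
(.lf (nat_lit 3490385239) (dlOf (nat_lit 1) (nat_lit 0x20028006a81)))) (.nd (nat_lit 7) 
(.nd (nat_lit 12) 
(.lf (nat_lit 4228055383) (dlOf (nat_lit 12) (nat_lit 0x640aa00ac04c01d8020000100fc037c058000690a0012055004802600fe0100031807e01b202c000340500f0020000194080280130011c0940422040008b01f006b80b00118048000440c00be04c0044025010f810001f807c01aa02c0002105005f025804b80fc011c07c0002406016a04b012a01f803b80f8000460c007807e0002102004204b004101f8000801000c812c0003e0401cc09600c603f002201f000078182d08008036000218aa0008014d03))) 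
(.lf (nat_lit 3556970839) (dlOf (nat_lit 1) (nat_lit 0x13e0028128381)))) 
(.lf (nat_lit 3959620567) (dlOf (nat_lit 1) (nat_lit 0x58008001000200060008112883))))) 
(.nd (nat_lit 6) (.nd (nat_lit 9) 
(.lf (nat_lit 4094361911) (dlOf (nat_lit 1) (nat_lit 0x12a0028050b81))) 
(.lf (nat_lit 3556972343) (dlOf (nat_lit 2) (nat_lit 0x2007400024020022002812a101)))) 
(.nd (nat_lit 7) (.nd (nat_lit 9) 
(.lf (nat_lit 3491430775) (dlOf (nat_lit 3) (nat_lit 0x22c3cc006fa02000c1e60037b018090780))) 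
(.lf (nat_lit 3892516727) (dlOf (nat_lit 1) (nat_lit 0x618008000400200a0000815a303)))) 
(.lf (nat_lit 3491430903) (dlOf (nat_lit 3) (nat_lit 0xb43da0021a0200521ed0010c018090d80))))))))) 
(.nd (nat_lit 19) (.nd (nat_lit 26) (.nd (nat_lit 5) (.nd (nat_lit 21) (.nd (nat_lit 27) 
(.nd (nat_lit 28) (.nd (nat_lit 20) (.nd (nat_lit 7) 
(.lf (nat_lit 13041687) (dlOf (nat_lit 6) (nat_lit 0xe8c66000a6000000e02001c341000a99ac00bcc66000461800192748006128000034180088c660000b020042633000050100053198000240800880080014002000400086f0383))) 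
(.lf (nat_lit 537329815) (dlOf (nat_lit 1) (nat_lit 0x100028090181)))) (.nd (nat_lit 23) 
(.lf (nat_lit 1507351) (dlOf (nat_lit 2) (nat_lit 0x12b6800091e0003cc080004004000200180e0a82))) 
(.lf (nat_lit 9895959) (dlOf (nat_lit 1) (nat_lit 0x400200020008590382))))) (.nd (nat_lit 29) 
(.nd (nat_lit 32) 
(.lf (nat_lit 1342636055) (dlOf (nat_lit 2) (nat_lit 0x1c11f800088c802c42080020004001600080a0502))) 
(.lf (nat_lit 5637603351) (dlOf (nat_lit 3) (nat_lit 0x1006800f56040010034007a90200100018120a01)))) 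
(.lf (nat_lit 1879506967) (dlOf (nat_lit 2) (nat_lit 0x5a0e500126018190080))))) (.nd (nat_lit 6) 
(.nd (nat_lit 29) 
(.lf (nat_lit 134676503) (dlOf (nat_lit 2) (nat_lit 0x30208037b0080018008004000200680008090003))) 
(.lf (nat_lit 2819031063) (dlOf (nat_lit 1) (nat_lit 0x400400020018150082)))) 
(.lf (nat_lit 134676951) (dlOf (nat_lit 1) (nat_lit 0x700008090b01))))) (.nd (nat_lit 6) 
(.nd (nat_lit 22) (.nd (nat_lit 7) 
(.lf (nat_lit 2555927) (dlOf (nat_lit 2) (nat_lit 0x8800000084040034002002c0008170982))) 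
(.lf (nat_lit 11993239) (dlOf (nat_lit 2) (nat_lit 0x98a00008a040014004000200086c0182)))) 
(.nd (nat_lit 9) (.lf (nat_lit 49741847) (dlOf (nat_lit 1) (nat_lit 0x4004000200094a0082))) 
(.lf (nat_lit 58130967) (dlOf (nat_lit 2) (nat_lit 0x59430001d0197c7e00))))) (.nd (nat_lit 7) 
(.nd (nat_lit 9) (.lf (nat_lit 57082967) (dlOf (nat_lit 1) (nat_lit 0x40029792901))) 
(.lf (nat_lit 44501591) (dlOf (nat_lit 1) (nat_lit 0x20019325301)))) (.nd (nat_lit 8) 
(.lf (nat_lit 57084631) (dlOf (nat_lit 1) (nat_lit 0xe0029795901))) 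
(.lf (nat_lit 23527895) (dlOf (nat_lit 1) (nat_lit 0x1c400400880008b80b02))))))) (.nd (nat_lit 6) 
(.nd (nat_lit 7) (.nd (nat_lit 21) (.nd (nat_lit 27) 
(.lf (nat_lit 4563861559) (dlOf (nat_lit 1) (nat_lit 0x400400020008110682))) 
(.lf (nat_lit 4698079287) (dlOf (nat_lit 1) (nat_lit 0x400400020008110682)))) 
(.lf (nat_lit 3492216887) (dlOf (nat_lit 1) (nat_lit 0x200080b1401)))) (.nd (nat_lit 20) 
(.lf (nat_lit 1476856247) (dlOf (nat_lit 1) (nat_lit 0x20028284e81))) 
(.lf (nat_lit 60230071) (dlOf (nat_lit 1) (nat_lit 0x20008000400200040009844e83))))) 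
(.nd (nat_lit 7) (.nd (nat_lit 22) 
(.lf (nat_lit 134676599) (dlOf (nat_lit 2) (nat_lit 0x402080057c080088008006800200440008090083))) 
(.lf (nat_lit 21430391) (dlOf (nat_lit 1) (nat_lit 0x2000200080008a41182)))) (.nd (nat_lit 8) 
(.lf (nat_lit 1208421111) (dlOf (nat_lit 2) (nat_lit 0x34052003400c00660058000881808180080170002013600080e5a03))) 
(.lf (nat_lit 38210039) (dlOf (nat_lit 1) (nat_lit 0x20019134f81))))))) (.nd (nat_lit 27) 
(.nd (nat_lit 28) (.nd (nat_lit 5) (.nd (nat_lit 6) 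
(.lf (nat_lit 2751928343) (dlOf (nat_lit 1) (nat_lit 0x14800800340020018000800a603))) 
(.lf (nat_lit 2751924567) (dlOf (nat_lit 4) (nat_lit 0x220b20000a01000e0590000140800882c800008040058004000c0008004e02)))) 
(.nd (nat_lit 6) (.nd (nat_lit 8) 
(.lf (nat_lit 2754019383) (dlOf (nat_lit 1) (nat_lit 0xd00080058002000c00080b1403))) 
(.lf (nat_lit 2751924023) (dlOf (nat_lit 1) (nat_lit 0x20018003e01)))) 
(.lf (nat_lit 2751923191) (dlOf (nat_lit 1) (nat_lit 0x18008000400200020008002883))))) 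
(.nd (nat_lit 31) (.nd (nat_lit 7) 
(.lf (nat_lit 6241583127) (dlOf (nat_lit 3) (nat_lit 0x1006801a7e04001003400d3d0200100018120a01))) 
(.lf (nat_lit 1409745047) (dlOf (nat_lit 1) (nat_lit 0x100028090181)))) (.nd (nat_lit 5) 
(.nd (nat_lit 6) (.lf (nat_lit 3557228567) (dlOf (nat_lit 1) (nat_lit 0x4002000a0008170082))) 
(.lf (nat_lit 3557228631) (dlOf (nat_lit 1) (nat_lit 0x18008002c002003a0008170803)))) 
(.lf (nat_lit 3557228599) (dlOf (nat_lit 1) (nat_lit 0x20028170481)))))) (.nd (nat_lit 5) 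
(.nd (nat_lit 6) (.nd (nat_lit 29) 
(.lf (nat_lit 470220823) (dlOf (nat_lit 2) (nat_lit 0x1c11f800088c80295c080020004001600080a0502))) 
(.nd (nat_lit 30) (.lf (nat_lit 1007091735) (dlOf (nat_lit 2) (nat_lit 0xe007c0011a018170080))) 
(.lf (nat_lit 4228317207) (dlOf (nat_lit 1) (nat_lit 0x8008000400200020008090003))))) 
(.nd (nat_lit 7) (.nd (nat_lit 8) 
(.lf (nat_lit 471269463) (dlOf (nat_lit 1) (nat_lit 0x4002000200082e0302))) 
(.lf (nat_lit 471269719) (dlOf (nat_lit 1) (nat_lit 0x17a00182e0881)))) 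
(.lf (nat_lit 201785815) (dlOf (nat_lit 1) (nat_lit 0x700008090b01))))) (.nd (nat_lit 6) 
(.nd (nat_lit 28) (.lf (nat_lit 201785399) (dlOf (nat_lit 1) (nat_lit 0x400400500018090002))) 
(.lf (nat_lit 1007091767) (dlOf (nat_lit 2) (nat_lit 0xd0528001c8040004004000c0008170482)))) 
(.nd (nat_lit 7) (.nd (nat_lit 9) 
(.lf (nat_lit 201785463) (dlOf (nat_lit 2) (nat_lit 0x4020800554080088008006800200440008090083))) 
(.lf (nat_lit 6376852087) (dlOf (nat_lit 1) (nat_lit 0x400400020008095402)))) 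
(.lf (nat_lit 6377900791) (dlOf (nat_lit 2) (nat_lit 0x54132000110180e5a00)))))))) (.nd (nat_lit 5) 
(.nd (nat_lit 6) (.nd (nat_lit 20) (.nd (nat_lit 23) (.nd (nat_lit 28) (.nd (nat_lit 7) 
(.lf (nat_lit 983063) (dlOf (nat_lit 1) (nat_lit 0x2e0018040481))) 
(.lf (nat_lit 3080343) (dlOf (nat_lit 1) (nat_lit 0x400400020008200182)))) (.nd (nat_lit 10) 
(.lf (nat_lit 3492747287) (dlOf (nat_lit 1) (nat_lit 0x4004000200080fa602))) 
(.lf (nat_lit 3492742167) (dlOf (nat_lit 1) (nat_lit 0x4002000200080f2882))))) (.nd (nat_lit 21) 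
(.lf (nat_lit 47120407) (dlOf (nat_lit 1) (nat_lit 0x88002000600093a0082))) (.nd (nat_lit 22) 
(.lf (nat_lit 11468823) (dlOf (nat_lit 2) (nat_lit 0x138a42014ae02000e00286a0501))) 
(.lf (nat_lit 15663127) (dlOf (nat_lit 1) (nat_lit 0xc00200080008810402)))))) (.nd (nat_lit 22) 
(.nd (nat_lit 9) 
(.lf (nat_lit 473890839) (dlOf (nat_lit 2) (nat_lit 0x1050c000000400a800400200008fc0082))) 
(.lf (nat_lit 2755592727) (dlOf (nat_lit 1) (nat_lit 0x9600281b0d81)))) (.nd (nat_lit 8) 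
(.lf (nat_lit 23003159) (dlOf (nat_lit 3) (nat_lit 0x779600249020003bc40011f818b40480))) 
(.lf (nat_lit 8328471) (dlOf (nat_lit 1) (nat_lit 0x7c00400120008519702)))))) (.nd (nat_lit 7) 
(.nd (nat_lit 8) (.nd (nat_lit 9) (.nd (nat_lit 20) 
(.lf (nat_lit 470745175) (dlOf (nat_lit 2) (nat_lit 0x4040a0054087003900f8000d018014000800e000200860008170803))) 
(.lf (nat_lit 31391831) (dlOf (nat_lit 1) (nat_lit 0xc00200020008e90002)))) 
(.lf (nat_lit 45025879) (dlOf (nat_lit 1) (nat_lit 0x20029325301)))) (.nd (nat_lit 10) 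
(.lf (nat_lit 19862359) (dlOf (nat_lit 1) (nat_lit 0x200089d8f81))) 
(.lf (nat_lit 3492742999) (dlOf (nat_lit 1) (nat_lit 0x80080004002000200080f3f03))))) 
(.nd (nat_lit 8) (.nd (nat_lit 9) 
(.lf (nat_lit 8324311) (dlOf (nat_lit 1) (nat_lit 0x20028512d81))) 
(.lf (nat_lit 8327895) (dlOf (nat_lit 1) (nat_lit 0x8008000400200040008518c83)))) 
(.lf (nat_lit 3492742103) (dlOf (nat_lit 1) (nat_lit 0xc004001400180f2882)))))) (.nd (nat_lit 6) 
(.nd (nat_lit 23) (.nd (nat_lit 26) (.nd (nat_lit 7) (.nd (nat_lit 8) 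
(.lf (nat_lit 3492743223) (dlOf (nat_lit 1) (nat_lit 0x180080010002000200080f4703))) 
(.lf (nat_lit 3492742967) (dlOf (nat_lit 1) (nat_lit 0x280080008002000400080f3e03)))) 
(.lf (nat_lit 3080375) (dlOf (nat_lit 1) (nat_lit 0x2a0028200381)))) (.nd (nat_lit 21) 
(.lf (nat_lit 470745143) (dlOf (nat_lit 30) (nat_lit 0x23f0000002d604117443603f81ec047b0f38208066407142fc0108179048300000058c380210818002415e03aa000000ae03001f1030005540823b800000292040ebc0000014702041a000000a30104d500000050808007879c0027004057c3d802cc1e7014d0bd807405e40038000001330a06d221d038c10d81aa87b00dfc3ce070e19b03380cc81be85f80d402f60270179033b0000004bc5020887b012b43ce000a17e003e0bd826600000025c1402a02f60011d0200301ec000758102c40f600bb879c01d82fc02fc000000748400550f6005f8000001d00800103d80142000000738200080f3800785f8001ca0813b43d8079c1e7046c0bf028185ec04542f20012035000720600330f600500000001c60800083d8000e20200061ec0006f8101c10f600c8879c06182fc036017b00310bc80d800000019418002443600021ec00840f3808a066400602f604e00000005e06019610d800b07b002c83ce042019900040bf006a85ec1278000000bb0e02d60000005b81008500000008c0803f80000002804081c000000000200020018170481)))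 
(.lf (nat_lit 4096720951) (dlOf (nat_lit 2) (nat_lit 0x2e00000000004000400200020008160682))))) 
(.nd (nat_lit 20) (.nd (nat_lit 25) 
(.lf (nat_lit 13566007) (dlOf (nat_lit 2) (nat_lit 0xe426b000e6818730b80))) 
(.lf (nat_lit 47120439) (dlOf (nat_lit 1) (nat_lit 0x100080008002000400093a0483)))) 
(.nd (nat_lit 8) (.lf (nat_lit 12517431) (dlOf (nat_lit 1) (nat_lit 0x4002000200086d0a82))) 
(.lf (nat_lit 46072119) (dlOf (nat_lit 1) (nat_lit 0x400200020009380b82)))))) (.nd (nat_lit 8) 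
(.nd (nat_lit 28) (.nd (nat_lit 7) 
(.lf (nat_lit 3080311) (dlOf (nat_lit 1) (nat_lit 0x400400020008200082))) 
(.lf (nat_lit 8327415) (dlOf (nat_lit 1) (nat_lit 0xc0028518081)))) (.nd (nat_lit 10) 
(.lf (nat_lit 3492743415) (dlOf (nat_lit 1) (nat_lit 0x80008000c002015600080f4b83))) 
(.lf (nat_lit 5772346615) (dlOf (nat_lit 1) (nat_lit 0x400200020008092e82))))) (.nd (nat_lit 7) 
(.nd (nat_lit 9) (.lf (nat_lit 4094626167) (dlOf (nat_lit 1) (nat_lit 0x20018054e81))) 
(.lf (nat_lit 19860343) (dlOf (nat_lit 1) (nat_lit 0x80080004002000200089d5c03)))) 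
(.nd (nat_lit 11) 
(.lf (nat_lit 2752446967) (dlOf (nat_lit 2) (nat_lit 0x1102c80002c04006c004004e0018017e02))) 
(.lf (nat_lit 37685751) (dlOf (nat_lit 1) (nat_lit 0x4002000200090d4f82))))))))))) (.nd (nat_lit 5) 
(.nd (nat_lit 18) (.nd (nat_lit 6) (.nd (nat_lit 17) (.nd (nat_lit 29) (.nd (nat_lit 19) 
(.nd (nat_lit 10) (.nd (nat_lit 7) (.nd (nat_lit 8) 
(.lf (nat_lit 4697694231) (dlOf (nat_lit 1) (nat_lit 0x310008017000200800008090003))) 
(.lf (nat_lit 10559767) (dlOf (nat_lit 1) (nat_lit 0x1c00285f7f01)))) (.nd (nat_lit 9) 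
(.lf (nat_lit 4563476631) (dlOf (nat_lit 1) (nat_lit 0xc0028090481))) 
(.lf (nat_lit 4563479191) (dlOf (nat_lit 1) (nat_lit 0x70002002c0008095502))))) (.nd (nat_lit 8) 
(.nd (nat_lit 7) 
(.lf (nat_lit 4496369175) (dlOf (nat_lit 4) (nat_lit 0xb00e000580680000e0800040380000602001801c000100d000000100008008001400200500008053703))) 
(.lf (nat_lit 2415994519) (dlOf (nat_lit 1) (nat_lit 0x4e0018003a81)))) (.nd (nat_lit 23) 
(.lf (nat_lit 6643856663) (dlOf (nat_lit 1) (nat_lit 0x8008000400200020008009703))) 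
(.lf (nat_lit 8467735) (dlOf (nat_lit 1) (nat_lit 0x8008000400200020008519703)))))) 
(.nd (nat_lit 21) (.nd (nat_lit 26) (.nd (nat_lit 7) 
(.lf (nat_lit 4792343) (dlOf (nat_lit 1) (nat_lit 0x80080030002000a00082b0083))) 
(.lf (nat_lit 3491307671) (dlOf (nat_lit 1) (nat_lit 0x40008090181)))) (.nd (nat_lit 28) 
(.lf (nat_lit 4362674199) (dlOf (nat_lit 1) (nat_lit 0x8004000200080d0902))) 
(.lf (nat_lit 3557367831) (dlOf (nat_lit 1) (nat_lit 0x140002000400081d0402))))) (.nd (nat_lit 7) 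
(.nd (nat_lit 20) (.lf (nat_lit 19472407) (dlOf (nat_lit 1) (nat_lit 0x3c00289b0581))) 
(.lf (nat_lit 3743767) (dlOf (nat_lit 2) (nat_lit 0x8800000084040034002002c0008220982)))) 
(.nd (nat_lit 10) (.lf (nat_lit 23666839) (dlOf (nat_lit 1) (nat_lit 0x420008b80181))) 
(.lf (nat_lit 1345922199) (dlOf (nat_lit 1) (nat_lit 0x180028e22b81))))))) (.nd (nat_lit 27) 
(.nd (nat_lit 26) (.nd (nat_lit 28) 
(.lf (nat_lit 1611210775) (dlOf (nat_lit 2) (nat_lit 0x803f00000018110180))) (.nd (nat_lit 30) 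
(.lf (nat_lit 805904407) (dlOf (nat_lit 1) (nat_lit 0xc002000400081e0902))) 
(.lf (nat_lit 1879646231) (dlOf (nat_lit 1) (nat_lit 0xe0028290481))))) (.nd (nat_lit 10) 
(.nd (nat_lit 7) (.lf (nat_lit 1678319639) (dlOf (nat_lit 1) (nat_lit 0xc002000400081e0902))) 
(.lf (nat_lit 2753110167) (dlOf (nat_lit 1) (nat_lit 0x40008090181)))) (.nd (nat_lit 30) 
(.lf (nat_lit 3019973655) (dlOf (nat_lit 1) (nat_lit 0x4004000200080d2882))) 
(.lf (nat_lit 4093715479) (dlOf (nat_lit 1) (nat_lit 0xc00400020018002882)))))) (.nd (nat_lit 19) 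
(.nd (nat_lit 8) (.nd (nat_lit 9) 
(.lf (nat_lit 738271255) (dlOf (nat_lit 1) (nat_lit 0xe0018090001))) 
(.lf (nat_lit 6308308503) (dlOf (nat_lit 5) (nat_lit 0x5c032001800a00100048000581800400280002a0400c8032003400a00008820010005000000080078008009c00200040008053703)))) 
(.lf (nat_lit 3959496983) (dlOf (nat_lit 1) (nat_lit 0x3400200240008090482)))) (.nd (nat_lit 26) 
(.nd (nat_lit 30) (.lf (nat_lit 2819170327) (dlOf (nat_lit 1) (nat_lit 0x1600281d0401))) 
(.lf (nat_lit 3892912151) (dlOf (nat_lit 1) (nat_lit 0x80018290881)))) (.nd (nat_lit 28) 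
(.lf (nat_lit 738795543) (dlOf (nat_lit 2) (nat_lit 0x803f00000018110180))) 
(.lf (nat_lit 4228456471) (dlOf (nat_lit 1) (nat_lit 0x8004000200080d0902)))))))) (.nd (nat_lit 30) 
(.nd (nat_lit 27) (.nd (nat_lit 23) (.nd (nat_lit 26) (.nd (nat_lit 21) 
(.lf (nat_lit 4832043031) (dlOf (nat_lit 1) (nat_lit 0x6c002018a00080a0382))) 
(.lf (nat_lit 52633623) (dlOf (nat_lit 4) (nat_lit 0x93a90004dc600058e2f000b083000b7510011b8b801759d2000a98b0004e840019717002db3a40011c08004800400040019560602)))) 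
(.nd (nat_lit 7) (.lf (nat_lit 604184599) (dlOf (nat_lit 1) (nat_lit 0x100028080481))) 
(.lf (nat_lit 6509768343) (dlOf (nat_lit 1) (nat_lit 0x400200020008147202))))) (.nd (nat_lit 7) 
(.nd (nat_lit 25) 
(.lf (nat_lit 29564951) (dlOf (nat_lit 2) (nat_lit 0x130540006004000400400020008e20402))) 
(.lf (nat_lit 63119383) (dlOf (nat_lit 1) (nat_lit 0x4004000200099e0082)))) 
(.lf (nat_lit 9642391) (dlOf (nat_lit 2) (nat_lit 0x8b9600c110200140008576481))))) 
(.nd (nat_lit 19) (.nd (nat_lit 9) (.nd (nat_lit 26) 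
(.lf (nat_lit 5234696215) (dlOf (nat_lit 3) (nat_lit 0xc03000090170005808401a800c0014060000c02e00070108034fc1800600080034002001a00080a0a03))) 
(.lf (nat_lit 4496498711) (dlOf (nat_lit 1) (nat_lit 0x40018090001)))) 
(.lf (nat_lit 2818781719) (dlOf (nat_lit 1) (nat_lit 0x1c00200260008128782)))) (.nd (nat_lit 26) 
(.lf (nat_lit 134946839) (dlOf (nat_lit 2) (nat_lit 0x41803c0000004017800200e000080e0302))) 
(.nd (nat_lit 28) 
(.lf (nat_lit 202055703) (dlOf (nat_lit 2) (nat_lit 0x4180380000004017800200e000080e0302))) 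
(.lf (nat_lit 3154845719) (dlOf (nat_lit 1) (nat_lit 0x18008000c00200060008350583))))))) 
(.nd (nat_lit 11) (.nd (nat_lit 28) (.nd (nat_lit 10) (.nd (nat_lit 27) 
(.lf (nat_lit 3288539159) (dlOf (nat_lit 1) (nat_lit 0x80028080501))) 
(.lf (nat_lit 5570240535) (dlOf (nat_lit 1) (nat_lit 0x40028090001)))) 
(.lf (nat_lit 3959628823) (dlOf (nat_lit 2) (nat_lit 0x1c000015d60200020018112881)))) 
(.nd (nat_lit 19) (.nd (nat_lit 20) 
(.lf (nat_lit 4026736663) (dlOf (nat_lit 1) (nat_lit 0x80028080501))) 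
(.lf (nat_lit 1880301591) (dlOf (nat_lit 1) (nat_lit 0x400400020008820082)))) 
(.lf (nat_lit 3557498903) (dlOf (nat_lit 1) (nat_lit 0x10800800b400200280008230683))))) 
(.nd (nat_lit 7) (.nd (nat_lit 9) 
(.lf (nat_lit 3489869079) (dlOf (nat_lit 1) (nat_lit 0x10008000400200060008006703))) 
(.nd (nat_lit 10) (.lf (nat_lit 1141058327) (dlOf (nat_lit 2) (nat_lit 0xe0260000e818095b80))) 
(.lf (nat_lit 3556978455) (dlOf (nat_lit 1) (nat_lit 0x21800800d000200aa0008127483))))) 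
(.nd (nat_lit 8) (.nd (nat_lit 9) 
(.lf (nat_lit 1677928599) (dlOf (nat_lit 2) (nat_lit 0x80000000a0200020018114801))) 
(.lf (nat_lit 4094372503) (dlOf (nat_lit 1) (nat_lit 0x60018055501)))) (.nd (nat_lit 9) 
(.lf (nat_lit 3892525463) (dlOf (nat_lit 1) (nat_lit 0x4002815af81))) 
(.lf (nat_lit 3556978583) (dlOf (nat_lit 1) (nat_lit 0xc00400040008127782))))))))) (.nd (nat_lit 7) 
(.nd (nat_lit 8) (.nd (nat_lit 24) (.nd (nat_lit 9) (.nd (nat_lit 11) (.nd (nat_lit 17) 
(.lf (nat_lit 1343823959) (dlOf (nat_lit 1) (nat_lit 0x400200020008370302))) 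
(.lf (nat_lit 4496498775) (dlOf (nat_lit 2) (nat_lit 0x13c038001801b00e700d0000cc180368008017800200500008090603)))) 
(.lf (nat_lit 4362152023) (dlOf (nat_lit 1) (nat_lit 0x50008000c00200080008004703)))) 
(.nd (nat_lit 10) (.lf (nat_lit 44771927) (dlOf (nat_lit 1) (nat_lit 0x260009325301))) 
(.lf (nat_lit 1610688087) (dlOf (nat_lit 1) (nat_lit 0x400200020008093882))))) (.nd (nat_lit 17) 
(.nd (nat_lit 9) 
(.lf (nat_lit 16851031) (dlOf (nat_lit 3) (nat_lit 0x1f8d40015bec00014020005df60000980800180080008002000600088e0303))) 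
(.nd (nat_lit 19) (.lf (nat_lit 31533655) (dlOf (nat_lit 1) (nat_lit 0x8008000400200020008e95303))) 
(.lf (nat_lit 51980887) (dlOf (nat_lit 1) (nat_lit 0x80029515301))))) (.nd (nat_lit 20) 
(.lf (nat_lit 31664727) (dlOf (nat_lit 1) (nat_lit 0x200018e95301))) 
(.lf (nat_lit 53684823) (dlOf (nat_lit 1) (nat_lit 0x400295f5301)))))) (.nd (nat_lit 28) 
(.nd (nat_lit 17) (.nd (nat_lit 26) (.nd (nat_lit 10) 
(.lf (nat_lit 20001111) (dlOf (nat_lit 1) (nat_lit 0x8002000200089d8382))) 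
(.lf (nat_lit 3892389207) (dlOf (nat_lit 1) (nat_lit 0x20008103381)))) (.nd (nat_lit 27) 
(.lf (nat_lit 1677795671) (dlOf (nat_lit 3) (nat_lit 0x5c09e0046038002d013000038180010000000000400c000400460008090682))) 
(.lf (nat_lit 1812013399) (dlOf (nat_lit 7) (nat_lit 0x3100000013c0800f0000000980400e0048006e01f003500d0001081800200900128034000380400560000001a81000600f80000008010800800b0002003000080b0683))))) 
(.nd (nat_lit 9) (.nd (nat_lit 20) 
(.lf (nat_lit 3825410391) (dlOf (nat_lit 1) (nat_lit 0x3400200560008154d02))) 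
(.lf (nat_lit 9642327) (dlOf (nat_lit 1) (nat_lit 0x1400200020008574e02)))) 
(.lf (nat_lit 2818781015) (dlOf (nat_lit 1) (nat_lit 0xc00400040008127782))))) (.nd (nat_lit 10) 
(.nd (nat_lit 30) (.nd (nat_lit 27) 
(.lf (nat_lit 805380439) (dlOf (nat_lit 3) (nat_lit 0x5c09e0046038002d013000038180010000000000400c000400460008090682))) 
(.lf (nat_lit 939598167) (dlOf (nat_lit 7) (nat_lit 0x3100000013c0800f0000000980400e0048006e01f003500d0001081800200900128034000380400560000001a81000600f80000008010800800b0002003000080b0683)))) 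
(.nd (nat_lit 12) (.lf (nat_lit 1879122263) (dlOf (nat_lit 1) (nat_lit 0x400200020008014d02))) 
(.lf (nat_lit 1342255447) (dlOf (nat_lit 2) (nat_lit 0x50b2802934080038008002400200120008008383))))) 
(.nd (nat_lit 11) (.lf (nat_lit 3019973975) (dlOf (nat_lit 1) (nat_lit 0xc004000400080d3382))) 
(.nd (nat_lit 17) (.lf (nat_lit 3489738071) (dlOf (nat_lit 1) (nat_lit 0x60008006a81))) 
(.lf (nat_lit 1409494359) (dlOf (nat_lit 1) (nat_lit 0x400400360008006a82)))))))) (.nd (nat_lit 9) 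
(.nd (nat_lit 27) (.nd (nat_lit 10) (.nd (nat_lit 29) (.nd (nat_lit 8) 
(.lf (nat_lit 3221299415) (dlOf (nat_lit 2) (nat_lit 0x2de053010c02280b780dc04dc05c02ec020000400a8002503001580080198002002c0008090483))) 
(.lf (nat_lit 50930135) (dlOf (nat_lit 3) (nat_lit 0x277760019bb900080820003ddd8003f40802b0008007c002000400094d7b03)))) 
(.nd (nat_lit 26) 
(.lf (nat_lit 805380311) (dlOf (nat_lit 2) (nat_lit 0x5f40a20084050018101d00bd00e404b405802fe0270150000000250380080008005c00200120008090483))) 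
(.lf (nat_lit 1677795543) (dlOf (nat_lit 2) (nat_lit 0x5f40a20084050018101d00bd00e404b405802fe0270150000000250380080008005c00200120008090483))))) 
(.nd (nat_lit 8) (.nd (nat_lit 11) 
(.lf (nat_lit 5100348631) (dlOf (nat_lit 2) (nat_lit 0xa00500007604002c00400160008052d82))) 
(.lf (nat_lit 3489873111) (dlOf (nat_lit 1) (nat_lit 0x12002800c381)))) 
(.lf (nat_lit 7943639) (dlOf (nat_lit 1) (nat_lit 0x20028519b01))))) (.nd (nat_lit 8) 
(.nd (nat_lit 26) (.nd (nat_lit 10) 
(.lf (nat_lit 939598039) (dlOf (nat_lit 5) (nat_lit 0x5807c004780400080340023302000401a0011881000200d0008ac0800900080004002001800080b0483))) 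
(.lf (nat_lit 402728151) (dlOf (nat_lit 1) (nat_lit 0xc00400020008092d82)))) (.nd (nat_lit 31) 
(.lf (nat_lit 1812013271) (dlOf (nat_lit 5) (nat_lit 0x5807c004780400080340023302000401a0011881000200d0008ac0800900080004002001800080b0483))) 
(.lf (nat_lit 3959496919) (dlOf (nat_lit 2) (nat_lit 0x2de053010c02280b780dc04dc05c02ec020000400a8002503001580080198002002c0008090483))))) 
(.nd (nat_lit 10) (.nd (nat_lit 19) 
(.lf (nat_lit 4697694679) (dlOf (nat_lit 1) (nat_lit 0x280080004002001e0008091203))) 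
(.lf (nat_lit 5774057943) (dlOf (nat_lit 1) (nat_lit 0x280080004002000400080f7b03)))) 
(.lf (nat_lit 4697695703) (dlOf (nat_lit 1) (nat_lit 0x60028093601)))))) (.nd (nat_lit 17) 
(.nd (nat_lit 8) (.nd (nat_lit 19) (.nd (nat_lit 23) 
(.lf (nat_lit 1476473559) (dlOf (nat_lit 2) (nat_lit 0x301f8028a8080040008000800200020008008c83))) 
(.lf (nat_lit 8467159) (dlOf (nat_lit 1) (nat_lit 0x400200020008518c82)))) (.nd (nat_lit 20) 
(.lf (nat_lit 8991447) (dlOf (nat_lit 1) (nat_lit 0x20018518c81))) 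
(.lf (nat_lit 20525783) (dlOf (nat_lit 1) (nat_lit 0x100080004002000200089d8c83))))) 
(.nd (nat_lit 26) (.lf (nat_lit 536945623) (dlOf (nat_lit 1) (nat_lit 0x3a0018002881))) 
(.nd (nat_lit 27) (.lf (nat_lit 4899021783) (dlOf (nat_lit 1) (nat_lit 0x80018052881))) 
(.lf (nat_lit 4496368599) (dlOf (nat_lit 1) (nat_lit 0x24004001c0008052882)))))) (.nd (nat_lit 26) 
(.nd (nat_lit 11) (.nd (nat_lit 19) 
(.lf (nat_lit 3758306007) (dlOf (nat_lit 1) (nat_lit 0x1800400080018128c82))) 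
(.lf (nat_lit 20656855) (dlOf (nat_lit 1) (nat_lit 0x4002000200089d8c82)))) 
(.lf (nat_lit 20134615) (dlOf (nat_lit 1) (nat_lit 0x300080008002000400089db983)))) 
(.nd (nat_lit 8) (.nd (nat_lit 11) 
(.lf (nat_lit 3020108503) (dlOf (nat_lit 1) (nat_lit 0x18008000400200020008128c83))) 
(.lf (nat_lit 3154328279) (dlOf (nat_lit 1) (nat_lit 0x6880080004002009c000815b983)))) 
(.lf (nat_lit 2751670231) (dlOf (nat_lit 1) (nat_lit 0x20028004501))))))))) (.nd (nat_lit 17) 
(.nd (nat_lit 28) (.nd (nat_lit 20) (.nd (nat_lit 29) (.nd (nat_lit 22) (.nd (nat_lit 19) 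
(.nd (nat_lit 27) (.nd (nat_lit 7) 
(.lf (nat_lit 3221561367) (dlOf (nat_lit 1) (nat_lit 0x18008000800200020008140483))) 
(.lf (nat_lit 1074077847) (dlOf (nat_lit 1) (nat_lit 0x120028090181)))) (.nd (nat_lit 26) 
(.lf (nat_lit 134553623) (dlOf (nat_lit 8) (nat_lit 0x8804402d18040024084000801100b1082015601d8009080809e80ec00458040134076002200200820430002601003302180000008005000800ac002009a0008070503))) 
(.lf (nat_lit 201662487) (dlOf (nat_lit 8) (nat_lit 0x8804402a3a040024084000801100a5702015601d8009500802680ec004600404f40760021c0200820430001e01003302180000008005000800ac002009a0008070503))))) 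
(.nd (nat_lit 21) 
(.lf (nat_lit 59580439) (dlOf (nat_lit 4) (nat_lit 0x2d0fe002a80b001e40500211d04002c21000090fa003680900103a00002741800920240024e800008e0400500029810601))) 
(.lf (nat_lit 2957335) (dlOf (nat_lit 2) (nat_lit 0x306c8003803002c42080014002000600081e0502))))) 
(.nd (nat_lit 6) (.nd (nat_lit 7) (.nd (nat_lit 10) 
(.lf (nat_lit 21831703) (dlOf (nat_lit 1) (nat_lit 0x1d0004007c0008a70482))) 
(.lf (nat_lit 38085655) (dlOf (nat_lit 1) (nat_lit 0x400200120009132882)))) 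
(.lf (nat_lit 40184215) (dlOf (nat_lit 1) (nat_lit 0x4004000200091f4e82)))) (.nd (nat_lit 7) 
(.lf (nat_lit 56960343) (dlOf (nat_lit 8) (nat_lit 0x225ed000188100042f6800617b0001886c0002f0600044360001701000f2f68000868c0003c080014bda0001d02000a5ed0000d8100232f4800310cc00028080020004000e0009793382))) 
(.nd (nat_lit 9) (.lf (nat_lit 21307863) (dlOf (nat_lit 1) (nat_lit 0x120028a37101))) 
(.lf (nat_lit 38085591) (dlOf (nat_lit 1) (nat_lit 0x580009132881))))))) (.nd (nat_lit 26) 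
(.nd (nat_lit 7) (.nd (nat_lit 19) (.nd (nat_lit 27) 
(.lf (nat_lit 537206807) (dlOf (nat_lit 1) (nat_lit 0x20008000400200080008050483))) 
(.lf (nat_lit 3892650007) (dlOf (nat_lit 12) (nat_lit 0x2d0198007b40800b00cc000c02c001ec04005c033000f581002e0198007a80801680cc0048044001e90400860510045027801480900058044000a019001300b00078050003d01c04f40a8027c033002001100378074057402c02a8014000f38602c102a018281440c2009e049c04c026e025016080cc0b5c0480588022027200e8054006c0b0402c057a014000f30c001202a000e0144001809e002a04a0012019800100c400740480044022000200d800880580038028001e516005c033000f201004e02a007580cc001404800a002200f800b00268050003c618006800200420008180082)))) 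
(.lf (nat_lit 2819432471) (dlOf (nat_lit 2) (nat_lit 0xf3037804800d00152e08006800400040008280482)))) 
(.nd (nat_lit 6) (.lf (nat_lit 4832174487) (dlOf (nat_lit 1) (nat_lit 0x800200020008106482))) 
(.lf (nat_lit 2818908375) (dlOf (nat_lit 1) (nat_lit 0x110008007800200280008130503))))) 
(.nd (nat_lit 6) (.nd (nat_lit 27) 
(.lf (nat_lit 604315671) (dlOf (nat_lit 1) (nat_lit 0x680028140481))) 
(.lf (nat_lit 3959758871) (dlOf (nat_lit 1) (nat_lit 0x18008000800200020008140483)))) 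
(.lf (nat_lit 2886019415) (dlOf (nat_lit 4) (nat_lit 0x76041002501d8000501000201040060000000050400060410017000000010100160008009c002000e0008144e03)))))) 
(.nd (nat_lit 21) (.nd (nat_lit 6) (.nd (nat_lit 7) (.nd (nat_lit 19) 
(.lf (nat_lit 55910423) (dlOf (nat_lit 1) (nat_lit 0x4004000200096f0082))) 
(.lf (nat_lit 39657495) (dlOf (nat_lit 1) (nat_lit 0xc002000200091b0082)))) 
(.lf (nat_lit 2753372311) (dlOf (nat_lit 2) (nat_lit 0x87e00003c04000400200040008090182)))) 
(.nd (nat_lit 24) 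
(.lf (nat_lit 9773143) (dlOf (nat_lit 2) (nat_lit 0x805e00008e04000c00400060018580602))) 
(.lf (nat_lit 26550359) (dlOf (nat_lit 1) (nat_lit 0x1990008019c00201800008c50803))))) 
(.nd (nat_lit 6) (.nd (nat_lit 22) (.nd (nat_lit 19) 
(.lf (nat_lit 62201879) (dlOf (nat_lit 5) (nat_lit 0x10a46001a51a00007010012291400414660001a04001aa45000058100125228000280801b0008005400200060009970383))) 
(.lf (nat_lit 2755469335) (dlOf (nat_lit 1) (nat_lit 0x4002000200081a0502)))) (.nd (nat_lit 23) 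
(.lf (nat_lit 24453143) (dlOf (nat_lit 3) (nat_lit 0x1da5400084040006d2a000000200080018ba0981))) 
(.lf (nat_lit 32841751) (dlOf (nat_lit 1) (nat_lit 0x400400020008f30082))))) (.nd (nat_lit 7) 
(.lf (nat_lit 3481943) (dlOf (nat_lit 1) (nat_lit 0x1000200080008200682))) 
(.lf (nat_lit 20265687) (dlOf (nat_lit 1) (nat_lit 0x400080008002000c00089db983))))))) 
(.nd (nat_lit 26) (.nd (nat_lit 6) (.nd (nat_lit 30) (.nd (nat_lit 7) (.nd (nat_lit 29) 
(.lf (nat_lit 268771351) (dlOf (nat_lit 4) (nat_lit 0x1015002b00a00199208001c0540006029005c0140033201802f00a00198e0400a800400540018140a02))) 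
(.lf (nat_lit 2953125911) (dlOf (nat_lit 6) (nat_lit 0x5c05c003602a000e0148006009c004c0300016017000a0088001543804c804c0014022008a0050002a030024017000b80a8004c052003e027000f011801080840058040004601e002900d00050060007002e0018013000600880130008000a438006405c000c02a000e0148001009c002c0420006020000700f00018060004402e0016011000288a0021017000600a8003c052005a027001101080010080005403c002601a000e00c001b805c03a8026000a01100d9002800b000800096380044004004e0008150402)))) 
(.lf (nat_lit 5234827671) (dlOf (nat_lit 1) (nat_lit 0x200180f6481)))) (.nd (nat_lit 19) 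
(.nd (nat_lit 27) (.lf (nat_lit 6174351383) (dlOf (nat_lit 1) (nat_lit 0x400200020008110002))) 
(.lf (nat_lit 4161085463) (dlOf (nat_lit 1) (nat_lit 0x400200020008120482)))) 
(.lf (nat_lit 3493666839) (dlOf (nat_lit 1) (nat_lit 0x4002000200081a0502))))) (.nd (nat_lit 10) 
(.nd (nat_lit 19) (.nd (nat_lit 27) 
(.lf (nat_lit 4563738711) (dlOf (nat_lit 2) (nat_lit 0x20098000c40800b00080084002003000080d0603))) 
(.lf (nat_lit 4697956439) (dlOf (nat_lit 2) (nat_lit 0x20098000c80800b00080084002003000080d0603)))) 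
(.lf (nat_lit 1346183255) (dlOf (nat_lit 1) (nat_lit 0x20028e60801)))) (.nd (nat_lit 7) 
(.lf (nat_lit 3490524503) (dlOf (nat_lit 1) (nat_lit 0xc0018006a81))) 
(.lf (nat_lit 3624217815) (dlOf (nat_lit 1) (nat_lit 0x78008001400200160008146483)))))) 
(.nd (nat_lit 30) (.nd (nat_lit 6) (.nd (nat_lit 20) (.nd (nat_lit 29) 
(.lf (nat_lit 2617581591) (dlOf (nat_lit 4) (nat_lit 0x3580a40046404002805a0023102007402b000e9018100480))) 
(.lf (nat_lit 3154452503) (dlOf (nat_lit 3) (nat_lit 0xd8144027c066001f90401bc05100de0278007e01000200080008002000600081a0083)))) 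
(.lf (nat_lit 471146519) (dlOf (nat_lit 1) (nat_lit 0x400200020008280482)))) (.nd (nat_lit 20) 
(.lf (nat_lit 472722007) (dlOf (nat_lit 1) (nat_lit 0x40018a45301))) 
(.lf (nat_lit 473770583) (dlOf (nat_lit 2) (nat_lit 0x105a40002604000c00200020008fa5302))))) 
(.nd (nat_lit 7) (.nd (nat_lit 27) (.nd (nat_lit 31) 
(.lf (nat_lit 1409622039) (dlOf (nat_lit 1) (nat_lit 0x20008000400200080008050483))) 
(.lf (nat_lit 3557105687) (dlOf (nat_lit 1) (nat_lit 0x30002001e0008130002)))) 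
(.lf (nat_lit 3691323415) (dlOf (nat_lit 6) (nat_lit 0x5c05c003602a000e01480060088004c0300016012000a0088001543804c80500014022008a0050002a030024017000b80a8004c052001e024001f011001080840058040005201b002300c8005006000300280038012000600880130008000a438006405c000c02a000e01480010088002c0420006020000700c8001806000440240016011000288a0021017000600a8003c052005a022001101080010080004c036002a019000e00c0075005000dc024000a01100d9002800b000800096380044004004e0008150402)))) 
(.nd (nat_lit 6) (.lf (nat_lit 1946493079) (dlOf (nat_lit 1) (nat_lit 0x120028090181))) 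
(.lf (nat_lit 4094503895) (dlOf (nat_lit 1) (nat_lit 0x40008055e01)))))))) (.nd (nat_lit 21) 
(.nd (nat_lit 26) (.nd (nat_lit 6) (.nd (nat_lit 20) (.nd (nat_lit 22) (.nd (nat_lit 7) 
(.nd (nat_lit 28) 
(.lf (nat_lit 5906046999) (dlOf (nat_lit 1) (nat_lit 0x8008002000200020008190a83))) 
(.lf (nat_lit 1879515159) (dlOf (nat_lit 2) (nat_lit 0xe008100126018190080)))) 
(.lf (nat_lit 134684823) (dlOf (nat_lit 1) (nat_lit 0xc00200060008090182)))) (.nd (nat_lit 19) 
(.lf (nat_lit 3494322199) (dlOf (nat_lit 1) (nat_lit 0x1400200020008200a02))) 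
(.lf (nat_lit 13574167) (dlOf (nat_lit 1) (nat_lit 0x400200020008730882))))) (.nd (nat_lit 19) 
(.nd (nat_lit 23) 
(.lf (nat_lit 18292759) (dlOf (nat_lit 1) (nat_lit 0x158008002c002003a0008920583))) 
(.lf (nat_lit 9904151) (dlOf (nat_lit 1) (nat_lit 0x400200020008590382)))) 
(.lf (nat_lit 2039831) (dlOf (nat_lit 1) (nat_lit 0xc800800e8002002a0008150003))))) 
(.nd (nat_lit 11) (.nd (nat_lit 8) (.nd (nat_lit 22) 
(.lf (nat_lit 1611079767) (dlOf (nat_lit 3) (nat_lit 0xc0208000cc0800b81140005a040060004002200080d0602))) 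
(.lf (nat_lit 21438551) (dlOf (nat_lit 1) (nat_lit 0x800802d000200e60008a40603)))) 
(.lf (nat_lit 2040151) (dlOf (nat_lit 8) (nat_lit 0x72608000a80400093040005302000eb0f0002201000558d0001080801626080004404008557c0042ab6001b5570010aa7800552e60000e0a000ab0800054b9000010100160008012c00200280008150683)))) 
(.nd (nat_lit 7) (.lf (nat_lit 51849815) (dlOf (nat_lit 1) (nat_lit 0xd400400160019515302))) 
(.lf (nat_lit 4027002071) (dlOf (nat_lit 1) (nat_lit 0x800180f6481)))))) (.nd (nat_lit 27) 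
(.nd (nat_lit 28) (.nd (nat_lit 22) 
(.lf (nat_lit 6510026775) (dlOf (nat_lit 1) (nat_lit 0x8008002000200020008190a83))) 
(.lf (nat_lit 2756124695) (dlOf (nat_lit 1) (nat_lit 0x1400200020008200a02)))) (.nd (nat_lit 6) 
(.lf (nat_lit 3557236759) (dlOf (nat_lit 2) (nat_lit 0x18806500c600e0005641002f0008001000200100008170083))) 
(.lf (nat_lit 3557236823) (dlOf (nat_lit 1) (nat_lit 0x400200020008170802))))) (.nd (nat_lit 6) 
(.nd (nat_lit 7) (.nd (nat_lit 19) 
(.lf (nat_lit 1007099927) (dlOf (nat_lit 2) (nat_lit 0x1d03940046804000400200020008170082))) 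
(.lf (nat_lit 470753303) (dlOf (nat_lit 1) (nat_lit 0x20008000400200020008170083)))) 
(.lf (nat_lit 201793687) (dlOf (nat_lit 1) (nat_lit 0xc00200060008090182)))) (.nd (nat_lit 20) 
(.lf (nat_lit 738664535) (dlOf (nat_lit 3) (nat_lit 0xc0208000c80800b811400058040060004002200080d0602))) 
(.lf (nat_lit 471277655) (dlOf (nat_lit 1) (nat_lit 0x600182e0301))))))) (.nd (nat_lit 20) 
(.nd (nat_lit 8) (.nd (nat_lit 6) (.nd (nat_lit 7) (.nd (nat_lit 10) 
(.lf (nat_lit 36118551) (dlOf (nat_lit 1) (nat_lit 0x400400020009030082))) 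
(.lf (nat_lit 1344742423) (dlOf (nat_lit 1) (nat_lit 0x2c00400100008982882)))) 
(.lf (nat_lit 1344742551) (dlOf (nat_lit 1) (nat_lit 0x1200080030002000c0008982b83)))) 
(.nd (nat_lit 7) (.lf (nat_lit 19870295) (dlOf (nat_lit 1) (nat_lit 0xa400289d8981))) 
(.nd (nat_lit 9) (.lf (nat_lit 19869911) (dlOf (nat_lit 1) (nat_lit 0x4004000400189d8082))) 
(.lf (nat_lit 19866327) (dlOf (nat_lit 1) (nat_lit 0x200289d2081)))))) (.nd (nat_lit 9) 
(.nd (nat_lit 7) (.lf (nat_lit 2754559319) (dlOf (nat_lit 1) (nat_lit 0x200280fc901))) 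
(.nd (nat_lit 11) (.lf (nat_lit 472850903) (dlOf (nat_lit 1) (nat_lit 0xa0008b17b01))) 
(.lf (nat_lit 472328663) (dlOf (nat_lit 1) (nat_lit 0xc00200040008984e82))))) (.nd (nat_lit 11) 
(.lf (nat_lit 3492750295) (dlOf (nat_lit 1) (nat_lit 0x6000800ac002000c00080f2883))) 
(.lf (nat_lit 19872727) (dlOf (nat_lit 1) (nat_lit 0x800289dbf01)))))) (.nd (nat_lit 6) 
(.nd (nat_lit 8) (.nd (nat_lit 9) (.nd (nat_lit 22) 
(.lf (nat_lit 473899031) (dlOf (nat_lit 1) (nat_lit 0x64002000c0008fc0082))) 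
(.lf (nat_lit 16719895) (dlOf (nat_lit 3) (nat_lit 0x270a000198100043850000c00800180080020002000600088d0403)))) 
(.lf (nat_lit 3493798423) (dlOf (nat_lit 1) (nat_lit 0x200080010002000e00081b0d83)))) 
(.nd (nat_lit 10) (.nd (nat_lit 26) 
(.lf (nat_lit 3493273879) (dlOf (nat_lit 2) (nat_lit 0x90820014b4040058004001c0018104002))) 
(.lf (nat_lit 2755076375) (dlOf (nat_lit 2) (nat_lit 0x908740098a040058004001c0018104002)))) 
(.lf (nat_lit 8336663) (dlOf (nat_lit 1) (nat_lit 0x400200020008519702))))) (.nd (nat_lit 7) 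
(.nd (nat_lit 8) (.lf (nat_lit 53946967) (dlOf (nat_lit 1) (nat_lit 0x40002000800095f5302))) 
(.lf (nat_lit 8333655) (dlOf (nat_lit 1) (nat_lit 0x8008000800200020008514e03)))) (.nd (nat_lit 19) 
(.lf (nat_lit 20394711) (dlOf (nat_lit 1) (nat_lit 0x4002000200089d8c82))) 
(.lf (nat_lit 8336087) (dlOf (nat_lit 1) (nat_lit 0x400200020008518c82)))))))))) (.nd (nat_lit 6) 
(.nd (nat_lit 17) (.nd (nat_lit 18) (.nd (nat_lit 26) (.nd (nat_lit 29) (.nd (nat_lit 7) 
(.nd (nat_lit 32) (.nd (nat_lit 19) (.nd (nat_lit 20) 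
(.lf (nat_lit 25239607) (dlOf (nat_lit 2) (nat_lit 0x84000001cd0200020018bf0b81))) 
(.lf (nat_lit 26288183) (dlOf (nat_lit 1) (nat_lit 0x40028c30481)))) 
(.lf (nat_lit 3221823543) (dlOf (nat_lit 1) (nat_lit 0xf0008003400200200008191403)))) 
(.nd (nat_lit 8) 
(.lf (nat_lit 4563479095) (dlOf (nat_lit 1) (nat_lit 0xd0008004400200700008095183))) 
(.nd (nat_lit 27) (.lf (nat_lit 4295041335) (dlOf (nat_lit 1) (nat_lit 0x420028014c01))) 
(.lf (nat_lit 4429259063) (dlOf (nat_lit 1) (nat_lit 0x420028014c01)))))) (.nd (nat_lit 8) 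
(.nd (nat_lit 10) (.lf (nat_lit 2171063) (dlOf (nat_lit 1) (nat_lit 0x18008001800200020008150383))) 
(.lf (nat_lit 34153655) (dlOf (nat_lit 1) (nat_lit 0x400200020008fb2c82)))) 
(.lf (nat_lit 54602167) (dlOf (nat_lit 1) (nat_lit 0x80080040002000a0009654e83))))) 
(.nd (nat_lit 10) (.nd (nat_lit 27) (.nd (nat_lit 30) 
(.lf (nat_lit 537468983) (dlOf (nat_lit 2) (nat_lit 0xa02f8000b00801580080074002000200080a0a83))) 
(.lf (nat_lit 1611210807) (dlOf (nat_lit 3) (nat_lit 0xf01f8000980800400f400400000000004007c0008110681)))) 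
(.nd (nat_lit 7) 
(.lf (nat_lit 3892912183) (dlOf (nat_lit 2) (nat_lit 0x10000000000800300080010002003c0008291083))) 
(.lf (nat_lit 5234568119) (dlOf (nat_lit 1) (nat_lit 0x20008055d01))))) (.nd (nat_lit 7) 
(.nd (nat_lit 11) (.lf (nat_lit 1880171575) (dlOf (nat_lit 1) (nat_lit 0x4002000600087a2882))) 
(.lf (nat_lit 2952870967) (dlOf (nat_lit 1) (nat_lit 0x3800800180020016000800bf03)))) 
(.lf (nat_lit 2952869559) (dlOf (nat_lit 1) (nat_lit 0x140002004c000800a002)))))) (.nd (nat_lit 19) 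
(.nd (nat_lit 31) (.nd (nat_lit 8) 
(.lf (nat_lit 2080448695) (dlOf (nat_lit 1) (nat_lit 0x9400400100008090682))) (.nd (nat_lit 9) 
(.lf (nat_lit 469840311) (dlOf (nat_lit 1) (nat_lit 0x20028008581))) 
(.lf (nat_lit 5704330167) (dlOf (nat_lit 2) (nat_lit 0x4201900022818055d00))))) (.nd (nat_lit 7) 
(.lf (nat_lit 2617324343) (dlOf (nat_lit 1) (nat_lit 0x9e00280a8f81))) (.nd (nat_lit 8) 
(.lf (nat_lit 3691067063) (dlOf (nat_lit 1) (nat_lit 0x2800800480020024000800a003))) 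
(.lf (nat_lit 3288415159) (dlOf (nat_lit 1) (nat_lit 0x40020002000800be02)))))) (.nd (nat_lit 27) 
(.nd (nat_lit 28) (.nd (nat_lit 29) 
(.lf (nat_lit 4362674231) (dlOf (nat_lit 1) (nat_lit 0x18002000200080d1402))) 
(.lf (nat_lit 1678319671) (dlOf (nat_lit 3) (nat_lit 0x2c0560000801001402b00003c0802c80080090002001200081e1403)))) 
(.lf (nat_lit 1409884215) (dlOf (nat_lit 3) (nat_lit 0x102024008d0108001501001e80b40005804000c002000800080a0b82)))) 
(.nd (nat_lit 22) (.nd (nat_lit 30) 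
(.lf (nat_lit 738795575) (dlOf (nat_lit 3) (nat_lit 0xf01f8000980800400f400400000000004007c0008110681))) 
(.lf (nat_lit 3960021047) (dlOf (nat_lit 2) (nat_lit 0x14017800014080060008002c00200020008191403)))) 
(.lf (nat_lit 474554423) (dlOf (nat_lit 1) (nat_lit 0x68008000c002001000091a0503))))))) 
(.nd (nat_lit 26) (.nd (nat_lit 7) (.nd (nat_lit 20) (.nd (nat_lit 21) (.nd (nat_lit 28) 
(.lf (nat_lit 5905915959) (dlOf (nat_lit 1) (nat_lit 0x180080114002001e0008160683))) 
(.lf (nat_lit 805642295) (dlOf (nat_lit 1) (nat_lit 0x20018160701)))) (.nd (nat_lit 10) 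
(.lf (nat_lit 2433079) (dlOf (nat_lit 6) (nat_lit 0x25530001900800ea9700008e04002d4b80004602000aaa6000352f00009010000a9780002c04009400400980018160a82))) 
(.lf (nat_lit 35988535) (dlOf (nat_lit 1) (nat_lit 0x400400020009012882))))) (.nd (nat_lit 10) 
(.nd (nat_lit 19) (.lf (nat_lit 26550327) (dlOf (nat_lit 1) (nat_lit 0x8008000800200020008c50483))) 
(.lf (nat_lit 1346183223) (dlOf (nat_lit 1) (nat_lit 0x11000400160008e60502)))) 
(.lf (nat_lit 45425719) (dlOf (nat_lit 1) (nat_lit 0x4002000a0009322882))))) (.nd (nat_lit 8) 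
(.nd (nat_lit 19) (.lf (nat_lit 1208295607) (dlOf (nat_lit 1) (nat_lit 0x4c00080c1701))) 
(.lf (nat_lit 5773271223) (dlOf (nat_lit 1) (nat_lit 0x4002000200080c1702)))) (.nd (nat_lit 9) 
(.nd (nat_lit 11) (.lf (nat_lit 6442787255) (dlOf (nat_lit 1) (nat_lit 0x200281b0801))) 
(.lf (nat_lit 60107191) (dlOf (nat_lit 1) (nat_lit 0x400400020009844e82)))) 
(.lf (nat_lit 3490003895) (dlOf (nat_lit 1) (nat_lit 0x2002800be01)))))) (.nd (nat_lit 27) 
(.nd (nat_lit 29) (.nd (nat_lit 28) 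
(.lf (nat_lit 6509895735) (dlOf (nat_lit 1) (nat_lit 0x180080114002001e0008160683))) 
(.lf (nat_lit 2483363895) (dlOf (nat_lit 2) (nat_lit 0x44010000038180d0b80)))) (.nd (nat_lit 21) 
(.lf (nat_lit 1678057527) (dlOf (nat_lit 1) (nat_lit 0x20018160701))) 
(.lf (nat_lit 2753896503) (dlOf (nat_lit 1) (nat_lit 0x4002000200080a0a82))))) (.nd (nat_lit 7) 
(.nd (nat_lit 8) (.nd (nat_lit 28) 
(.lf (nat_lit 2349146167) (dlOf (nat_lit 2) (nat_lit 0x44010000018180d0b80))) 
(.lf (nat_lit 3154452535) (dlOf (nat_lit 2) (nat_lit 0x2480d800350040008004000a00081a0482)))) 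
(.lf (nat_lit 2886018871) (dlOf (nat_lit 1) (nat_lit 0x800400080018143e02)))) (.nd (nat_lit 10) 
(.lf (nat_lit 5838807479) (dlOf (nat_lit 1) (nat_lit 0x200281b0801))) 
(.lf (nat_lit 6375679415) (dlOf (nat_lit 1) (nat_lit 0x20018003601)))))))) (.nd (nat_lit 18) 
(.nd (nat_lit 7) (.nd (nat_lit 27) (.nd (nat_lit 8) (.nd (nat_lit 23) (.nd (nat_lit 26) 
(.lf (nat_lit 2952994871) (dlOf (nat_lit 2) (nat_lit 0x1400400002018080800))) 
(.lf (nat_lit 5972893751) (dlOf (nat_lit 1) (nat_lit 0x400400020008170d02)))) (.nd (nat_lit 19) 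
(.lf (nat_lit 14884919) (dlOf (nat_lit 3) (nat_lit 0x95bc80032728001c8080008202000ca02000e0018790481))) 
(.lf (nat_lit 10166327) (dlOf (nat_lit 1) (nat_lit 0x200185b0681))))) (.nd (nat_lit 9) 
(.nd (nat_lit 22) 
(.lf (nat_lit 3825410359) (dlOf (nat_lit 3) (nat_lit 0x6400a0052b81002e005002958080150008013000200300008154c03))) 
(.lf (nat_lit 3494060343) (dlOf (nat_lit 1) (nat_lit 0x200181b0581)))) 
(.lf (nat_lit 5905786679) (dlOf (nat_lit 1) (nat_lit 0x20028143e01))))) (.nd (nat_lit 26) 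
(.nd (nat_lit 31) (.nd (nat_lit 19) 
(.lf (nat_lit 134422583) (dlOf (nat_lit 1) (nat_lit 0x20028020681))) 
(.lf (nat_lit 134946871) (dlOf (nat_lit 2) (nat_lit 0x3200f4037760401d0002007000080e0782)))) 
(.nd (nat_lit 8) (.lf (nat_lit 6576873527) (dlOf (nat_lit 1) (nat_lit 0x400400020008170d02))) 
(.lf (nat_lit 3087212855) (dlOf (nat_lit 3) (nat_lit 0x6400a0026101002e005001304080150008013000200300008154c03))))) 
(.nd (nat_lit 19) (.nd (nat_lit 32) 
(.lf (nat_lit 201531447) (dlOf (nat_lit 1) (nat_lit 0x20028020681))) 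
(.lf (nat_lit 4496498743) (dlOf (nat_lit 1) (nat_lit 0x1b8008005c00200f20008090483)))) 
(.lf (nat_lit 202055735) (dlOf (nat_lit 3) (nat_lit 0x2901180164054007440400a6046005a015001d0c1000180080048002004000080e0783)))))) 
(.nd (nat_lit 8) (.nd (nat_lit 9) (.nd (nat_lit 12) 
(.lf (nat_lit 2147688631) (dlOf (nat_lit 1) (nat_lit 0x1200280c1701))) 
(.lf (nat_lit 8597687) (dlOf (nat_lit 1) (nat_lit 0x40018517e81)))) (.nd (nat_lit 26) 
(.lf (nat_lit 2818781879) (dlOf (nat_lit 1) (nat_lit 0x8008000400200020008128c83))) 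
(.lf (nat_lit 3556979383) (dlOf (nat_lit 1) (nat_lit 0x8008000400200020008128c83))))) 
(.nd (nat_lit 28) (.nd (nat_lit 9) 
(.lf (nat_lit 57878967) (dlOf (nat_lit 1) (nat_lit 0x800080004002000a0009794e83))) 
(.nd (nat_lit 10) (.lf (nat_lit 8594359) (dlOf (nat_lit 1) (nat_lit 0xc0008003c00200380008512703))) 
(.lf (nat_lit 537077687) (dlOf (nat_lit 1) (nat_lit 0x20028004381))))) (.nd (nat_lit 21) 
(.nd (nat_lit 26) (.lf (nat_lit 5771569591) (dlOf (nat_lit 1) (nat_lit 0x80028004e81))) 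
(.lf (nat_lit 1409493431) (dlOf (nat_lit 1) (nat_lit 0x20028004e81)))) 
(.lf (nat_lit 1344481719) (dlOf (nat_lit 1) (nat_lit 0x80018804e81))))))) (.nd (nat_lit 30) 
(.nd (nat_lit 19) (.nd (nat_lit 26) (.nd (nat_lit 21) 
(.lf (nat_lit 6442917943) (dlOf (nat_lit 2) (nat_lit 0x17c07400be025005f00d002f80600012810001000400060018220b82))) 
(.lf (nat_lit 48701495) (dlOf (nat_lit 1) (nat_lit 0x40019420501)))) (.nd (nat_lit 27) 
(.lf (nat_lit 4362543159) (dlOf (nat_lit 1) (nat_lit 0x20004000e0018090002))) (.nd (nat_lit 28) 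
(.lf (nat_lit 2886148151) (dlOf (nat_lit 3) (nat_lit 0x3c0000003500401240820176036008301a0051000000000100050004008e0018170d02))) 
(.lf (nat_lit 1007099959) (dlOf (nat_lit 1) (nat_lit 0x20018170481)))))) (.nd (nat_lit 20) 
(.nd (nat_lit 7) (.nd (nat_lit 22) 
(.lf (nat_lit 1007624247) (dlOf (nat_lit 1) (nat_lit 0x40028540481))) 
(.lf (nat_lit 21962807) (dlOf (nat_lit 1) (nat_lit 0x380080050002000c0008a80d03)))) 
(.lf (nat_lit 19871927) (dlOf (nat_lit 1) (nat_lit 0xdc00289da881)))) (.nd (nat_lit 8) 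
(.lf (nat_lit 471801911) (dlOf (nat_lit 1) (nat_lit 0x200028520001))) 
(.lf (nat_lit 46080311) (dlOf (nat_lit 1) (nat_lit 0x1b0008006800200c80009380b83)))))) 
(.nd (nat_lit 29) (.nd (nat_lit 27) (.nd (nat_lit 19) 
(.lf (nat_lit 3557236791) (dlOf (nat_lit 1) (nat_lit 0x240028170481))) (.nd (nat_lit 20) 
(.lf (nat_lit 1343168567) (dlOf (nat_lit 1) (nat_lit 0x8008000800200020008190483))) 
(.lf (nat_lit 1344217143) (dlOf (nat_lit 1) (nat_lit 0x200028520001))))) (.nd (nat_lit 7) 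
(.nd (nat_lit 26) 
(.lf (nat_lit 3624345655) (dlOf (nat_lit 3) (nat_lit 0x3c0000003460401240820176036008301a0051000000000100050004008e0018170d02))) 
(.lf (nat_lit 5838938167) (dlOf (nat_lit 2) (nat_lit 0x17c07400be025005f00d002f80600012810001000400060018220b82)))) 
(.lf (nat_lit 1208428983) (dlOf (nat_lit 1) (nat_lit 0x2400080e4e81))))) (.nd (nat_lit 19) 
(.nd (nat_lit 27) (.nd (nat_lit 7) 
(.lf (nat_lit 1879515191) (dlOf (nat_lit 2) (nat_lit 0xd0554001c8040004004000c0008190482))) 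
(.lf (nat_lit 4027005879) (dlOf (nat_lit 1) (nat_lit 0x1000180fbe01)))) (.nd (nat_lit 26) 
(.lf (nat_lit 3892781111) (dlOf (nat_lit 2) (nat_lit 0x3605a0000b818260900))) 
(.lf (nat_lit 4228325431) (dlOf (nat_lit 1) (nat_lit 0x24004000c0018090002))))) (.nd (nat_lit 21) 
(.lf (nat_lit 1880039479) (dlOf (nat_lit 2) (nat_lit 0xf0ac800390080028008000c00200020008540483))) 
(.lf (nat_lit 4096729143) (dlOf (nat_lit 2) (nat_lit 0x24000000000040060002003a0008160682))))))))) 
(.nd (nat_lit 8) (.nd (nat_lit 7) (.nd (nat_lit 28) (.nd (nat_lit 17) (.nd (nat_lit 9) 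
(.nd (nat_lit 12) (.nd (nat_lit 20) 
(.lf (nat_lit 18948215) (dlOf (nat_lit 1) (nat_lit 0x400200020008970482))) 
(.lf (nat_lit 30482551) (dlOf (nat_lit 1) (nat_lit 0x1400400020008e30482)))) 
(.lf (nat_lit 604057719) (dlOf (nat_lit 2) (nat_lit 0x500f0012f00800080080058002000a0008007d83)))) 
(.nd (nat_lit 10) 
(.lf (nat_lit 20523639) (dlOf (nat_lit 2) (nat_lit 0x146ec000a2040018002002a00089d5402))) 
(.lf (nat_lit 20002423) (dlOf (nat_lit 1) (nat_lit 0x88002002e00089d9d02))))) (.nd (nat_lit 18) 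
(.nd (nat_lit 21) 
(.lf (nat_lit 2349015159) (dlOf (nat_lit 1) (nat_lit 0x8008000400200020008090083))) 
(.lf (nat_lit 44245111) (dlOf (nat_lit 2) (nat_lit 0x63390002996c00000080004002000400092e1182)))) 
(.nd (nat_lit 19) 
(.lf (nat_lit 1678188663) (dlOf (nat_lit 1) (nat_lit 0x80080004002008c00081a0083))) 
(.lf (nat_lit 12525687) (dlOf (nat_lit 1) (nat_lit 0x4002000200086d1882)))))) (.nd (nat_lit 18) 
(.nd (nat_lit 9) (.nd (nat_lit 12) 
(.lf (nat_lit 2483232887) (dlOf (nat_lit 1) (nat_lit 0x8008000400200020008090083))) 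
(.nd (nat_lit 26) (.lf (nat_lit 2952867959) (dlOf (nat_lit 1) (nat_lit 0x8c00200160008007d82))) 
(.lf (nat_lit 3691065463) (dlOf (nat_lit 1) (nat_lit 0x40028007d81))))) (.nd (nat_lit 10) 
(.lf (nat_lit 1346447991) (dlOf (nat_lit 1) (nat_lit 0x20028f65401))) 
(.lf (nat_lit 4227935863) (dlOf (nat_lit 1) (nat_lit 0x50008000c00200080008007183))))) 
(.nd (nat_lit 30) (.nd (nat_lit 17) (.nd (nat_lit 21) 
(.lf (nat_lit 474292343) (dlOf (nat_lit 2) (nat_lit 0x800000000040060002000c0009121182))) 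
(.lf (nat_lit 1009066103) (dlOf (nat_lit 1) (nat_lit 0x40008001000200080009041183)))) 
(.lf (nat_lit 805773431) (dlOf (nat_lit 1) (nat_lit 0x80080004002008c00081a0083)))) 
(.nd (nat_lit 9) (.nd (nat_lit 10) 
(.lf (nat_lit 5773271159) (dlOf (nat_lit 1) (nat_lit 0x10004001a00180c0b82))) 
(.lf (nat_lit 3489999991) (dlOf (nat_lit 1) (nat_lit 0x20028006081)))) 
(.lf (nat_lit 5771700855) (dlOf (nat_lit 1) (nat_lit 0x140028005401))))))) (.nd (nat_lit 17) 
(.nd (nat_lit 20) (.nd (nat_lit 28) (.nd (nat_lit 18) 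
(.lf (nat_lit 10559735) (dlOf (nat_lit 1) (nat_lit 0x180080004002000200085f7783))) 
(.lf (nat_lit 6442787063) (dlOf (nat_lit 3) (nat_lit 0x4402f000e601001f0178007280801800080048002004c00081b0483)))) 
(.nd (nat_lit 10) (.nd (nat_lit 22) 
(.lf (nat_lit 3556843767) (dlOf (nat_lit 1) (nat_lit 0x400400020008080a82))) 
(.lf (nat_lit 1346445559) (dlOf (nat_lit 1) (nat_lit 0x1b800400900018f60a82)))) 
(.lf (nat_lit 4697695479) (dlOf (nat_lit 3) (nat_lit 0x340000000a4080040000000340400a0002003e0008092e82))))) 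
(.nd (nat_lit 19) (.nd (nat_lit 18) (.nd (nat_lit 21) 
(.lf (nat_lit 6376464631) (dlOf (nat_lit 1) (nat_lit 0x48008000400200020008090a83))) 
(.lf (nat_lit 19996919) (dlOf (nat_lit 1) (nat_lit 0x8002000200089d0a82)))) 
(.lf (nat_lit 20259063) (dlOf (nat_lit 1) (nat_lit 0x80080004002000200089d0a83)))) 
(.nd (nat_lit 10) (.lf (nat_lit 20521207) (dlOf (nat_lit 1) (nat_lit 0xc004000800089d0a82))) 
(.lf (nat_lit 7939319) (dlOf (nat_lit 1) (nat_lit 0xf000800ac00200500008512e83)))))) 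
(.nd (nat_lit 10) (.nd (nat_lit 32) (.nd (nat_lit 18) 
(.lf (nat_lit 20127991) (dlOf (nat_lit 1) (nat_lit 0x200089d0a81))) 
(.lf (nat_lit 34021623) (dlOf (nat_lit 1) (nat_lit 0x60008008800200020008f92483)))) 
(.nd (nat_lit 26) (.nd (nat_lit 27) 
(.lf (nat_lit 4563607799) (dlOf (nat_lit 2) (nat_lit 0x180ac0029a04000c00400020008090a82))) 
(.lf (nat_lit 4966260983) (dlOf (nat_lit 1) (nat_lit 0x20018090a81)))) 
(.lf (nat_lit 5436023031) (dlOf (nat_lit 1) (nat_lit 0x400200020008090a82))))) (.nd (nat_lit 12) 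
(.nd (nat_lit 9) (.lf (nat_lit 5772354807) (dlOf (nat_lit 1) (nat_lit 0x400200020008092e82))) 
(.lf (nat_lit 2818780919) (dlOf (nat_lit 1) (nat_lit 0x1440018127481)))) (.nd (nat_lit 18) 
(.lf (nat_lit 2617455863) (dlOf (nat_lit 2) (nat_lit 0x1800000cfc04001c002003000080a9502))) 
(.lf (nat_lit 8336631) (dlOf (nat_lit 1) (nat_lit 0x20028519501)))))))) (.nd (nat_lit 17) 
(.nd (nat_lit 27) (.nd (nat_lit 22) (.nd (nat_lit 18) (.nd (nat_lit 7) 
(.lf (nat_lit 872489335) (dlOf (nat_lit 2) (nat_lit 0x203300340120002f8100008008001000200020008091003))) 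
(.nd (nat_lit 20) (.lf (nat_lit 4831914999) (dlOf (nat_lit 1) (nat_lit 0x4800200020008055f02))) 
(.lf (nat_lit 19999735) (dlOf (nat_lit 1) (nat_lit 0x4002000600089d5f02))))) (.nd (nat_lit 19) 
(.lf (nat_lit 53815799) (dlOf (nat_lit 1) (nat_lit 0x600295f4f81))) (.nd (nat_lit 20) 
(.lf (nat_lit 1345137143) (dlOf (nat_lit 1) (nat_lit 0x8008003800200120008a44f83))) 
(.lf (nat_lit 37562871) (dlOf (nat_lit 1) (nat_lit 0x4002000200090d4f82)))))) (.nd (nat_lit 19) 
(.nd (nat_lit 20) (.lf (nat_lit 37825015) (dlOf (nat_lit 1) (nat_lit 0x4002000200090d4f82))) 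
(.nd (nat_lit 24) (.lf (nat_lit 49359351) (dlOf (nat_lit 1) (nat_lit 0x20019464f81))) 
(.lf (nat_lit 32582135) (dlOf (nat_lit 1) (nat_lit 0x20008ef4f81))))) (.nd (nat_lit 7) 
(.lf (nat_lit 14229879) (dlOf (nat_lit 1) (nat_lit 0xa0018750b01))) (.nd (nat_lit 9) 
(.lf (nat_lit 55388663) (dlOf (nat_lit 1) (nat_lit 0x1200296d4f81))) 
(.lf (nat_lit 8206327) (dlOf (nat_lit 1) (nat_lit 0x10000851a601))))))) (.nd (nat_lit 7) 
(.nd (nat_lit 11) (.nd (nat_lit 26) 
(.lf (nat_lit 4697694583) (dlOf (nat_lit 2) (nat_lit 0x12201a0002f808066800802a000200060008091003))) 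
(.lf (nat_lit 2080448887) (dlOf (nat_lit 2) (nat_lit 0xe4012804a80200364000000be0600020018091001)))) 
(.nd (nat_lit 10) (.nd (nat_lit 18) 
(.lf (nat_lit 738273655) (dlOf (nat_lit 1) (nat_lit 0x20018094e81))) 
(.lf (nat_lit 3624216951) (dlOf (nat_lit 1) (nat_lit 0x800400080018144e82)))) 
(.lf (nat_lit 3624217975) (dlOf (nat_lit 1) (nat_lit 0x10008001000200020008146b83))))) 
(.nd (nat_lit 9) (.nd (nat_lit 10) (.nd (nat_lit 26) 
(.lf (nat_lit 4697694711) (dlOf (nat_lit 1) (nat_lit 0x3a0028091401))) 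
(.lf (nat_lit 1006707191) (dlOf (nat_lit 1) (nat_lit 0xc00400060008017e02)))) 
(.lf (nat_lit 3355522551) (dlOf (nat_lit 1) (nat_lit 0x200180a9c01)))) (.nd (nat_lit 11) 
(.lf (nat_lit 2886018039) (dlOf (nat_lit 1) (nat_lit 0x1f80028142881))) 
(.lf (nat_lit 738274295) (dlOf (nat_lit 2) (nat_lit 0x1a02d0001000800d800800b000200280008095f03))))))) 
(.nd (nat_lit 20) (.nd (nat_lit 11) (.nd (nat_lit 7) (.nd (nat_lit 9) (.nd (nat_lit 10) 
(.lf (nat_lit 3959890295) (dlOf (nat_lit 1) (nat_lit 0xc0008002400200080008170783))) 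
(.lf (nat_lit 19871095) (dlOf (nat_lit 1) (nat_lit 0x38008003c002000400089d9903)))) 
(.lf (nat_lit 3892524919) (dlOf (nat_lit 1) (nat_lit 0x6000815a301)))) (.nd (nat_lit 18) 
(.lf (nat_lit 3087213047) (dlOf (nat_lit 9) (nat_lit 0x3000b000b0000000bc10011802c0054012003e0000001683002d0058000ac0801f802c000540400200160002802006400b0001301000200580002808016802c0000a0401f000400d60018157e02))) 
(.lf (nat_lit 2752455159) (dlOf (nat_lit 3) (nat_lit 0x7261f8000110103380fc00006c080040008000800200040008017e03))))) 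
(.nd (nat_lit 26) (.nd (nat_lit 12) 
(.lf (nat_lit 3490130295) (dlOf (nat_lit 1) (nat_lit 0x20028004e81))) 
(.lf (nat_lit 8599927) (dlOf (nat_lit 1) (nat_lit 0x2002851ae01)))) (.nd (nat_lit 27) 
(.lf (nat_lit 1141057911) (dlOf (nat_lit 4) (nat_lit 0x18004c01da60200c002600ed201000d0130075900801a800800c800200140008094e83))) 
(.lf (nat_lit 738404727) (dlOf (nat_lit 1) (nat_lit 0x60008094e81)))))) (.nd (nat_lit 18) 
(.nd (nat_lit 11) (.nd (nat_lit 9) 
(.lf (nat_lit 9642487) (dlOf (nat_lit 3) (nat_lit 0x29610000bc040088c76000a58400032958001942c00107cc00043e50002e068577e00))) 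
(.lf (nat_lit 57877495) (dlOf (nat_lit 2) (nat_lit 0x452d8000d40800c80080058002001e0009792883)))) 
(.nd (nat_lit 7) (.lf (nat_lit 37431671) (dlOf (nat_lit 1) (nat_lit 0x4002000200090d4e82))) 
(.nd (nat_lit 21) 
(.lf (nat_lit 39528951) (dlOf (nat_lit 2) (nat_lit 0x4199c0009c04003000400040019194f82))) 
(.lf (nat_lit 37431799) (dlOf (nat_lit 1) (nat_lit 0x600290d4f81)))))) (.nd (nat_lit 7) 
(.nd (nat_lit 9) 
(.lf (nat_lit 1008675191) (dlOf (nat_lit 1) (nat_lit 0x8008000400200020008ef4e83))) 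
(.lf (nat_lit 8337271) (dlOf (nat_lit 1) (nat_lit 0xf800800040020036000851a303)))) 
(.nd (nat_lit 19) (.lf (nat_lit 53946871) (dlOf (nat_lit 1) (nat_lit 0xd8004004800195f4f82))) 
(.lf (nat_lit 37693943) (dlOf (nat_lit 1) (nat_lit 0x4002000200090d4f82))))))))))))

end

end Pool.Agent.Lib.MP_5854e1_co.Cz

namespace Pool.Agent.Lib.MP_5854e1_co.Cz

noncomputable section

noncomputable def tz235 : DT := (.nd (nat_lit 13) (.nd (nat_lit 17) (.nd (nat_lit 6) 
(.nd (nat_lit 5) (.nd (nat_lit 18) (.nd (nat_lit 19) (.nd (nat_lit 7) (.nd (nat_lit 23) 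
(.nd (nat_lit 31) (.nd (nat_lit 20) (.nd (nat_lit 27) 
(.lf (nat_lit 4295065623) (dlOf (nat_lit 1) (nat_lit 0x8008000400200020008030a83))) 
(.lf (nat_lit 4429283351) (dlOf (nat_lit 1) (nat_lit 0x8008000400200020008030a83)))) 
(.lf (nat_lit 470908951) (dlOf (nat_lit 1) (nat_lit 0x5600281f0401)))) (.nd (nat_lit 8) 
(.lf (nat_lit 6442555415) (dlOf (nat_lit 1) (nat_lit 0x4004000200080fa602))) (.nd (nat_lit 26) 
(.lf (nat_lit 4026630423) (dlOf (nat_lit 1) (nat_lit 0x2d8008017c00201240008014003))) 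
(.lf (nat_lit 3288432919) (dlOf (nat_lit 1) (nat_lit 0x2d8008017c00201240008014003)))))) 
(.nd (nat_lit 20) (.nd (nat_lit 21) 
(.lf (nat_lit 12681239) (dlOf (nat_lit 1) (nat_lit 0x800186d0901))) 
(.lf (nat_lit 14778391) (dlOf (nat_lit 2) (nat_lit 0x746800011a018770080)))) (.nd (nat_lit 21) 
(.lf (nat_lit 26312727) (dlOf (nat_lit 1) (nat_lit 0x2400400020008c30082))) 
(.lf (nat_lit 28409879) (dlOf (nat_lit 7) (nat_lit 0x23610000b8040005aa4000cd400002664800154180013324000a8040051b1c002ad52000b6a88017b50000599b4001ecc9000290600026648001440800436380015aa4001ad40000b66480012c200068008000800200020008d90403)))))) 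
(.nd (nat_lit 11) (.nd (nat_lit 8) (.nd (nat_lit 12) 
(.lf (nat_lit 4697719959) (dlOf (nat_lit 2) (nat_lit 0x101a0004e00800600080028002000c0008092b83))) 
(.lf (nat_lit 2617349271) (dlOf (nat_lit 2) (nat_lit 0x1a008801360080178008009c002000a00080a9503)))) 
(.nd (nat_lit 10) 
(.lf (nat_lit 5435916695) (dlOf (nat_lit 2) (nat_lit 0x480c4017f804001c00400200018036482))) 
(.nd (nat_lit 26) (.lf (nat_lit 5100373399) (dlOf (nat_lit 1) (nat_lit 0x40018053601))) 
(.lf (nat_lit 4899046807) (dlOf (nat_lit 1) (nat_lit 0x20008053601)))))) (.nd (nat_lit 10) 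
(.nd (nat_lit 20) (.lf (nat_lit 3489761687) (dlOf (nat_lit 1) (nat_lit 0x400200020008004e82))) 
(.lf (nat_lit 59869591) (dlOf (nat_lit 1) (nat_lit 0x8008000400200020009844e83)))) (.nd (nat_lit 8) 
(.lf (nat_lit 3825306775) (dlOf (nat_lit 1) (nat_lit 0x40018146201))) 
(.lf (nat_lit 5838577047) (dlOf (nat_lit 1) (nat_lit 0xa00180fca01))))))) (.nd (nat_lit 20) 
(.nd (nat_lit 29) (.nd (nat_lit 9) (.nd (nat_lit 21) 
(.lf (nat_lit 55148567) (dlOf (nat_lit 1) (nat_lit 0x20004000200096c0182))) 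
(.lf (nat_lit 19496983) (dlOf (nat_lit 1) (nat_lit 0x4c00289b0581)))) (.nd (nat_lit 21) 
(.lf (nat_lit 50954775) (dlOf (nat_lit 2) (nat_lit 0x304c600082620005a810024000800c0002000400094d8703))) 
(.lf (nat_lit 5774082583) (dlOf (nat_lit 1) (nat_lit 0x200280f8701))))) (.nd (nat_lit 27) 
(.nd (nat_lit 26) 
(.lf (nat_lit 805928983) (dlOf (nat_lit 2) (nat_lit 0xe02d000d00b8032d81001c80080060002004800081f0a03))) 
(.lf (nat_lit 1678344215) (dlOf (nat_lit 2) (nat_lit 0xe02d000d00b801c241001c80080060002004800081f0a03)))) 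
(.nd (nat_lit 30) (.lf (nat_lit 2819194903) (dlOf (nat_lit 1) (nat_lit 0x10a00281e0481))) 
(.lf (nat_lit 3892936727) (dlOf (nat_lit 2) (nat_lit 0x802c0042c0182a0a00)))))) (.nd (nat_lit 21) 
(.nd (nat_lit 26) (.lf (nat_lit 1343848471) (dlOf (nat_lit 1) (nat_lit 0x400200020008370002))) 
(.lf (nat_lit 471433239) (dlOf (nat_lit 6) (nat_lit 0x30568001828e0004a04000c15a00060a380010c100030568001828e0004104000614e0001f8100070ad00010538001828e0003b06000400182f0881)))) 
(.nd (nat_lit 9) (.nd (nat_lit 23) 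
(.lf (nat_lit 24739863) (dlOf (nat_lit 2) (nat_lit 0x2600000019018bb0380))) 
(.lf (nat_lit 16351255) (dlOf (nat_lit 1) (nat_lit 0x100018890481)))) 
(.lf (nat_lit 49908247) (dlOf (nat_lit 1) (nat_lit 0x4004000200094c5082))))))) (.nd (nat_lit 20) 
(.nd (nat_lit 26) (.nd (nat_lit 22) (.nd (nat_lit 27) (.nd (nat_lit 29) 
(.lf (nat_lit 3221585943) (dlOf (nat_lit 13) (nat_lit 0xb011c02cda04002c09e00140470007019000100bc02c4210003408e0161d0200060470033023000580bc0014028015fe08002a04700afd8100090238057b40805e81180128086005003800a8403000102780040138002009a001e047007d02300090114002c08800f2043000b021001b00e0002c062014ae16006c047001602180525c10017811c028408c000a045001e0218052302005d0118028fc04001808e0202046000201c0000001804c0008024000200b40008150503))) 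
(.lf (nat_lit 537231383) (dlOf (nat_lit 3) (nat_lit 0x200520054b8100030330003ec080218008002000200460008060483)))) 
(.nd (nat_lit 30) 
(.lf (nat_lit 134578199) (dlOf (nat_lit 4) (nat_lit 0x12018805a380800900c402d1204006406c000000200140008080501))) 
(.lf (nat_lit 3355803671) (dlOf (nat_lit 4) (nat_lit 0x3580b0004640400280600023102007402e000e9018120480))))) 
(.nd (nat_lit 21) (.nd (nat_lit 23) 
(.lf (nat_lit 1346732055) (dlOf (nat_lit 1) (nat_lit 0x200080004002000a0009000083))) 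
(.lf (nat_lit 12943383) (dlOf (nat_lit 2) (nat_lit 0x1f2ba0000680800280080020002001200086f0383)))) 
(.nd (nat_lit 7) (.nd (nat_lit 23) 
(.lf (nat_lit 6651927) (dlOf (nat_lit 1) (nat_lit 0x8400400020008440a02))) 
(.lf (nat_lit 48594967) (dlOf (nat_lit 1) (nat_lit 0x800400020009420082)))) 
(.lf (nat_lit 56986007) (dlOf (nat_lit 1) (nat_lit 0x160029794e81)))))) (.nd (nat_lit 28) 
(.nd (nat_lit 27) 
(.lf (nat_lit 4362436631) (dlOf (nat_lit 1) (nat_lit 0x10008000c00200120008080503))) 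
(.nd (nat_lit 29) 
(.lf (nat_lit 201687063) (dlOf (nat_lit 4) (nat_lit 0x1201880547c0800900c402a3404006406c000000200140008080501))) 
(.lf (nat_lit 3959783447) (dlOf (nat_lit 13) (nat_lit 0x5e81180128086005003800b3b83000102780040138002009a001e047007d02300090114002c08800f2043000b021001b00e0002c0620162116005e04700a1023000281140078086015fe08006c04700160218057ec1005d011802bda04005808e014fe02001a04700a5b81000b0278005011c001c064000402f00a5704001502380525c08001811c00cc08c001602f000500a00523020004811c028fc04001808e0202046000201c0000001804c0008024000200b40008150503))))) 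
(.nd (nat_lit 29) (.nd (nat_lit 27) 
(.lf (nat_lit 1409646615) (dlOf (nat_lit 3) (nat_lit 0x200520028101000303300062c080218008002000200460008060483))) 
(.lf (nat_lit 2617606167) (dlOf (nat_lit 4) (nat_lit 0x1740520023202006802d00010148008c41003480ac003a404002c00400040018100482)))) 
(.nd (nat_lit 30) 
(.lf (nat_lit 3154477079) (dlOf (nat_lit 8) (nat_lit 0x2605100490278007fc10019013c003fc040b240a2053404f0005025003700c4028c048006c019013e00b00a08050003f4200c240c00616054038a02881ba013c05f4098029004a006d023018280cc000406405720310283012011d008805b803a02e401b017900c818680580c40028049200500e200100ba0000003f25000300c000400540693028801b81401a5409e027004c0142025006a0118004406601e0032000201880a480900508044016401b001700c8004805800380280084005000a0010007e0980180144007809e028603100c20010007dc20058018006d00a80410033019b01880d880900568044004201b023000b00b58050059000a026c002009e0000007d4601d1800802500020e3600081a0083))) 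
(.lf (nat_lit 4228218903) (dlOf (nat_lit 1) (nat_lit 0x10008000c00200120008080503))))))) 
(.nd (nat_lit 19) (.nd (nat_lit 22) (.nd (nat_lit 23) 
(.lf (nat_lit 1343586327) (dlOf (nat_lit 1) (nat_lit 0x4002000200082a0482))) 
(.lf (nat_lit 26574871) (dlOf (nat_lit 2) (nat_lit 0x74c1500126018c50080)))) (.nd (nat_lit 21) 
(.lf (nat_lit 55934999) (dlOf (nat_lit 1) (nat_lit 0x4004000200096f0082))) 
(.lf (nat_lit 24477719) (dlOf (nat_lit 2) (nat_lit 0x3af540008404001000400040018ba0982))))) 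
(.nd (nat_lit 23) (.nd (nat_lit 7) 
(.lf (nat_lit 22904855) (dlOf (nat_lit 3) (nat_lit 0x96f2c004920400b77880023f0200020008b40481))) 
(.lf (nat_lit 3491594391) (dlOf (nat_lit 2) (nat_lit 0x87980003c04000400200040008090182)))) 
(.nd (nat_lit 8) (.lf (nat_lit 60654615) (dlOf (nat_lit 1) (nat_lit 0x380080010002000400098c2883))) 
(.lf (nat_lit 12419351) (dlOf (nat_lit 1) (nat_lit 0x200186c0481)))))))) (.nd (nat_lit 28) 
(.nd (nat_lit 19) (.nd (nat_lit 7) (.nd (nat_lit 8) (.nd (nat_lit 10) (.nd (nat_lit 20) 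
(.lf (nat_lit 12681271) (dlOf (nat_lit 1) (nat_lit 0x200286d0a81))) 
(.lf (nat_lit 2752610359) (dlOf (nat_lit 2) (nat_lit 0x312380000008019800800c4002005c0008020683)))) 
(.lf (nat_lit 1812040759) (dlOf (nat_lit 1) (nat_lit 0x400400020008146082)))) (.nd (nat_lit 22) 
(.nd (nat_lit 29) 
(.lf (nat_lit 3288432951) (dlOf (nat_lit 2) (nat_lit 0x1800000a4c0200020008014c01))) 
(.lf (nat_lit 1677820215) (dlOf (nat_lit 1) (nat_lit 0x5e000400c80008090582)))) (.nd (nat_lit 18) 
(.lf (nat_lit 6390071) (dlOf (nat_lit 1) (nat_lit 0x4004001e0008420702))) 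
(.lf (nat_lit 21332279) (dlOf (nat_lit 2) (nat_lit 0x214fc00a4c0200020018a34c01)))))) 
(.nd (nat_lit 11) (.nd (nat_lit 12) (.nd (nat_lit 8) 
(.lf (nat_lit 54886583) (dlOf (nat_lit 2) (nat_lit 0x24253800000080068008003000200440009663003))) 
(.lf (nat_lit 1073842103) (dlOf (nat_lit 1) (nat_lit 0x8008000400200020008004383)))) 
(.nd (nat_lit 20) (.lf (nat_lit 8754871) (dlOf (nat_lit 1) (nat_lit 0x2001851a001))) 
(.lf (nat_lit 20289207) (dlOf (nat_lit 1) (nat_lit 0x4002000200089da002))))) (.nd (nat_lit 21) 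
(.nd (nat_lit 18) 
(.lf (nat_lit 134323127) (dlOf (nat_lit 1) (nat_lit 0x1800801380020006000800be03))) 
(.lf (nat_lit 2349177783) (dlOf (nat_lit 1) (nat_lit 0x400180fbe01)))) (.nd (nat_lit 9) 
(.lf (nat_lit 56986039) (dlOf (nat_lit 1) (nat_lit 0x180029794e81))) 
(.lf (nat_lit 2754976695) (dlOf (nat_lit 1) (nat_lit 0xa000400d200080fbe02))))))) (.nd (nat_lit 21) 
(.nd (nat_lit 20) (.nd (nat_lit 10) (.nd (nat_lit 18) 
(.lf (nat_lit 3892936759) (dlOf (nat_lit 4) (nat_lit 0x10047000f0160000a41000100b0000500400100580002702000200282a0c01))) 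
(.lf (nat_lit 21856311) (dlOf (nat_lit 2) (nat_lit 0xa0000002f818a70680)))) (.nd (nat_lit 7) 
(.lf (nat_lit 38634551) (dlOf (nat_lit 1) (nat_lit 0x20009132881))) 
(.lf (nat_lit 2752087991) (dlOf (nat_lit 1) (nat_lit 0x40028004381))))) (.nd (nat_lit 9) 
(.nd (nat_lit 23) (.lf (nat_lit 1671223) (dlOf (nat_lit 1) (nat_lit 0x60028110701))) 
(.lf (nat_lit 10059831) (dlOf (nat_lit 2) (nat_lit 0x1d0e80017c0800280080220002001e00085b0683)))) 
(.lf (nat_lit 2753135159) (dlOf (nat_lit 2) (nat_lit 0x81fc00000018090f80))))) (.nd (nat_lit 18) 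
(.nd (nat_lit 7) (.nd (nat_lit 8) 
(.lf (nat_lit 2755231799) (dlOf (nat_lit 1) (nat_lit 0x20028130701))) 
(.lf (nat_lit 7968567) (dlOf (nat_lit 1) (nat_lit 0x800800080020002000851a103)))) 
(.lf (nat_lit 7963063) (dlOf (nat_lit 1) (nat_lit 0x400200020008511002)))) (.nd (nat_lit 9) 
(.nd (nat_lit 10) 
(.lf (nat_lit 4030519) (dlOf (nat_lit 2) (nat_lit 0x80000038204001800200040008270b82))) 
(.lf (nat_lit 36537399) (dlOf (nat_lit 1) (nat_lit 0x80029072881)))) 
(.lf (nat_lit 54364727) (dlOf (nat_lit 1) (nat_lit 0x20019655181))))))) (.nd (nat_lit 27) 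
(.nd (nat_lit 31) (.nd (nat_lit 7) (.nd (nat_lit 8) (.nd (nat_lit 9) 
(.lf (nat_lit 1342799927) (dlOf (nat_lit 4) (nat_lit 0x60898003841c00181a30002383000211780058898003841c00161a30002304000311b800608bc003044c000620e00050d18000e028018000800a8002000400080d0b83))) 
(.lf (nat_lit 6241224247) (dlOf (nat_lit 1) (nat_lit 0x24004001e0008053782)))) 
(.lf (nat_lit 805404983) (dlOf (nat_lit 1) (nat_lit 0x5e000400c80008090582)))) (.nd (nat_lit 8) 
(.lf (nat_lit 4563503799) (dlOf (nat_lit 2) (nat_lit 0x34068000150200120028095701))) 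
(.nd (nat_lit 10) (.lf (nat_lit 1342282167) (dlOf (nat_lit 1) (nat_lit 0x6002800af81))) 
(.lf (nat_lit 6241224119) (dlOf (nat_lit 4) (nat_lit 0x300280024004001200180058418001804c00400040009d0400060130010001000238100098008001000200020008053603)))))) 
(.nd (nat_lit 20) (.nd (nat_lit 7) (.nd (nat_lit 8) 
(.lf (nat_lit 3492118583) (dlOf (nat_lit 2) (nat_lit 0x820460000b00800300080004002000200080a0b83))) 
(.lf (nat_lit 4026630455) (dlOf (nat_lit 2) (nat_lit 0x18000004b70200020008014c01)))) 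
(.lf (nat_lit 3493953719) (dlOf (nat_lit 1) (nat_lit 0x200181b0381)))) (.nd (nat_lit 19) 
(.nd (nat_lit 7) 
(.lf (nat_lit 3490807863) (dlOf (nat_lit 2) (nat_lit 0x311780000008019800800c4002005c0008020683))) 
(.lf (nat_lit 3493169335) (dlOf (nat_lit 2) (nat_lit 0x1506000001c0801180080160002008200080f4903)))) 
(.nd (nat_lit 9) (.lf (nat_lit 3493429303) (dlOf (nat_lit 1) (nat_lit 0x20028130701))) 
(.lf (nat_lit 3491332663) (dlOf (nat_lit 2) (nat_lit 0x81ea00000018090f80))))))) (.nd (nat_lit 18) 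
(.nd (nat_lit 7) (.nd (nat_lit 8) 
(.lf (nat_lit 6375441975) (dlOf (nat_lit 1) (nat_lit 0x200018003781))) 
(.lf (nat_lit 2617348919) (dlOf (nat_lit 1) (nat_lit 0x2c00280a8f81)))) (.nd (nat_lit 8) 
(.lf (nat_lit 402751671) (dlOf (nat_lit 1) (nat_lit 0x8008002000200040008090683))) 
(.lf (nat_lit 4227963831) (dlOf (nat_lit 1) (nat_lit 0x2000800be01))))) (.nd (nat_lit 26) 
(.nd (nat_lit 29) (.lf (nat_lit 403013687) (dlOf (nat_lit 1) (nat_lit 0x50002001600080d0b82))) 
(.lf (nat_lit 5234851895) (dlOf (nat_lit 1) (nat_lit 0x2800801c400200740008100483)))) 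
(.nd (nat_lit 30) (.nd (nat_lit 10) 
(.lf (nat_lit 3154477111) (dlOf (nat_lit 2) (nat_lit 0x1b8037000d40181a0480))) 
(.lf (nat_lit 473269303) (dlOf (nat_lit 1) (nat_lit 0xa4400405080008e32882)))) (.nd (nat_lit 7) 
(.lf (nat_lit 6376227127) (dlOf (nat_lit 2) (nat_lit 0x20000000000200160018090b81))) 
(.lf (nat_lit 2080735415) (dlOf (nat_lit 1) (nat_lit 0x28008001c002000a00080c1703)))))))))) 
(.nd (nat_lit 5) (.nd (nat_lit 18) (.nd (nat_lit 8) (.nd (nat_lit 7) (.nd (nat_lit 23) 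
(.nd (nat_lit 27) (.nd (nat_lit 24) 
(.lf (nat_lit 1140949079) (dlOf (nat_lit 2) (nat_lit 0x100250001e018020700))) 
(.lf (nat_lit 16875607) (dlOf (nat_lit 1) (nat_lit 0x200188e0301)))) (.nd (nat_lit 9) 
(.nd (nat_lit 29) (.lf (nat_lit 402751575) (dlOf (nat_lit 1) (nat_lit 0x1c00200100008090002))) 
(.lf (nat_lit 2013364311) (dlOf (nat_lit 2) (nat_lit 0x100250001e018020700)))) 
(.lf (nat_lit 3355542103) (dlOf (nat_lit 1) (nat_lit 0x14002001400080a1682))))) (.nd (nat_lit 9) 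
(.nd (nat_lit 21) 
(.lf (nat_lit 12681303) (dlOf (nat_lit 1) (nat_lit 0x780080024002002c00086d1103))) 
(.lf (nat_lit 14778455) (dlOf (nat_lit 1) (nat_lit 0x1430008004400203040008770803)))) 
(.nd (nat_lit 20) (.lf (nat_lit 32082519) (dlOf (nat_lit 1) (nat_lit 0xc00200060008ef5302))) 
(.lf (nat_lit 62491223) (dlOf (nat_lit 1) (nat_lit 0x34004002000099a5302)))))) (.nd (nat_lit 28) 
(.nd (nat_lit 9) (.nd (nat_lit 26) 
(.lf (nat_lit 2684453079) (dlOf (nat_lit 1) (nat_lit 0x10008000400200020008013e83))) 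
(.lf (nat_lit 1677820119) (dlOf (nat_lit 2) (nat_lit 0x7a0144044807400b00390001000000250200030008001000200080008090483)))) 
(.lf (nat_lit 8491735) (dlOf (nat_lit 1) (nat_lit 0x400200020008518c82)))) (.nd (nat_lit 19) 
(.nd (nat_lit 31) 
(.lf (nat_lit 805404887) (dlOf (nat_lit 2) (nat_lit 0x7a0144044807400b00390001000000250200030008001000200080008090483))) 
(.lf (nat_lit 2952888535) (dlOf (nat_lit 1) (nat_lit 0x40028010501)))) 
(.lf (nat_lit 5771985111) (dlOf (nat_lit 1) (nat_lit 0x5a0008031c01)))))) (.nd (nat_lit 10) 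
(.nd (nat_lit 29) (.nd (nat_lit 7) (.nd (nat_lit 20) 
(.lf (nat_lit 3288432983) (dlOf (nat_lit 1) (nat_lit 0x4800400320008014d02))) 
(.lf (nat_lit 3244375) (dlOf (nat_lit 8) (nat_lit 0x70fa0000a80400087d00005302000e579000220100052c2800108080160fa000044040084a520042521001b28c8010942400547b20000e0a000a57300051ec000010100160008012c00200280008200683)))) 
(.nd (nat_lit 12) (.lf (nat_lit 49906647) (dlOf (nat_lit 1) (nat_lit 0x8004000200194c2882))) 
(.lf (nat_lit 1342280663) (dlOf (nat_lit 1) (nat_lit 0x4c00400060008009202))))) (.nd (nat_lit 26) 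
(.nd (nat_lit 27) 
(.lf (nat_lit 805405015) (dlOf (nat_lit 1) (nat_lit 0x600080024002002c0008090683))) 
(.lf (nat_lit 1744929111) (dlOf (nat_lit 2) (nat_lit 0x10110000b4080008008000400200020008090d83)))) 
(.lf (nat_lit 1677820247) (dlOf (nat_lit 1) (nat_lit 0x600080024002002c0008090683))))) 
(.nd (nat_lit 30) (.nd (nat_lit 9) (.nd (nat_lit 11) 
(.lf (nat_lit 49907031) (dlOf (nat_lit 2) (nat_lit 0x29d100038e860001104000200194c3381))) 
(.lf (nat_lit 105815) (dlOf (nat_lit 1) (nat_lit 0x40040002000800c902)))) 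
(.lf (nat_lit 100183) (dlOf (nat_lit 1) (nat_lit 0x360008003f01)))) (.nd (nat_lit 9) 
(.nd (nat_lit 11) (.lf (nat_lit 1611236695) (dlOf (nat_lit 1) (nat_lit 0xc00200040008123382))) 
(.lf (nat_lit 1812041047) (dlOf (nat_lit 1) (nat_lit 0x20018146a81)))) 
(.lf (nat_lit 1342281559) (dlOf (nat_lit 1) (nat_lit 0x4002800a281))))))) (.nd (nat_lit 28) 
(.nd (nat_lit 23) (.nd (nat_lit 11) (.nd (nat_lit 26) (.nd (nat_lit 7) 
(.lf (nat_lit 1610973271) (dlOf (nat_lit 1) (nat_lit 0x11800080b0701))) 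
(.lf (nat_lit 2818932951) (dlOf (nat_lit 1) (nat_lit 0x40018130501)))) (.nd (nat_lit 27) 
(.lf (nat_lit 4899307607) (dlOf (nat_lit 1) (nat_lit 0x30008001800200060008100603))) 
(.lf (nat_lit 738558039) (dlOf (nat_lit 1) (nat_lit 0x11800080b0701))))) (.nd (nat_lit 7) 
(.nd (nat_lit 8) (.lf (nat_lit 51219031) (dlOf (nat_lit 1) (nat_lit 0x120009515301))) 
(.lf (nat_lit 2751826263) (dlOf (nat_lit 2) (nat_lit 0x40b20000a018004e00)))) (.nd (nat_lit 8) 
(.lf (nat_lit 20290263) (dlOf (nat_lit 1) (nat_lit 0x380080004002000c00089db983))) 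
(.lf (nat_lit 54365143) (dlOf (nat_lit 1) (nat_lit 0x20019655e01)))))) (.nd (nat_lit 19) 
(.nd (nat_lit 20) (.lf (nat_lit 29720663) (dlOf (nat_lit 1) (nat_lit 0x400200020008e30302))) 
(.nd (nat_lit 24) (.lf (nat_lit 9797719) (dlOf (nat_lit 1) (nat_lit 0x78008005c00200020008580603))) 
(.lf (nat_lit 26574935) (dlOf (nat_lit 1) (nat_lit 0x1430008004400203040008c50803))))) 
(.nd (nat_lit 20) (.nd (nat_lit 9) 
(.lf (nat_lit 42827863) (dlOf (nat_lit 1) (nat_lit 0x20019280801))) 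
(.lf (nat_lit 32344663) (dlOf (nat_lit 2) (nat_lit 0xb6088001aca40005650000250600020018ef5301)))) 
(.nd (nat_lit 7) (.lf (nat_lit 45973591) (dlOf (nat_lit 1) (nat_lit 0x160029380001))) 
(.lf (nat_lit 45973719) (dlOf (nat_lit 3) (nat_lit 0x962100016010002b108000ac080068008001000200020009380983))))))) 
(.nd (nat_lit 27) (.nd (nat_lit 29) (.nd (nat_lit 19) (.nd (nat_lit 30) 
(.lf (nat_lit 4563763287) (dlOf (nat_lit 2) (nat_lit 0x23a029000190180d0600))) 
(.lf (nat_lit 5637505111) (dlOf (nat_lit 1) (nat_lit 0x400400020008100602)))) 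
(.lf (nat_lit 1346207831) (dlOf (nat_lit 2) (nat_lit 0x2600000013018e60800)))) (.nd (nat_lit 7) 
(.nd (nat_lit 26) 
(.lf (nat_lit 4026892375) (dlOf (nat_lit 1) (nat_lit 0x680080078002001c00080c1a83))) 
(.lf (nat_lit 6241484887) (dlOf (nat_lit 1) (nat_lit 0x400400020008100602)))) 
(.lf (nat_lit 2953150679) (dlOf (nat_lit 2) (nat_lit 0x8038000ac0200040018160501))))) 
(.nd (nat_lit 7) (.nd (nat_lit 29) (.nd (nat_lit 32) 
(.lf (nat_lit 403013719) (dlOf (nat_lit 1) (nat_lit 0x800280d1781))) 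
(.lf (nat_lit 4697981015) (dlOf (nat_lit 2) (nat_lit 0x23a029000198180d0600)))) 
(.lf (nat_lit 5234851927) (dlOf (nat_lit 1) (nat_lit 0x20028100601)))) (.nd (nat_lit 9) 
(.lf (nat_lit 3624242391) (dlOf (nat_lit 1) (nat_lit 0xa0018146481))) 
(.lf (nat_lit 471700183) (dlOf (nat_lit 1) (nat_lit 0x12c004002e00083d8c82)))))))) (.nd (nat_lit 7) 
(.nd (nat_lit 8) (.nd (nat_lit 9) (.nd (nat_lit 18) (.nd (nat_lit 22) (.nd (nat_lit 10) 
(.lf (nat_lit 335642743) (dlOf (nat_lit 1) (nat_lit 0x2000400020018090202))) 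
(.lf (nat_lit 8494199) (dlOf (nat_lit 2) (nat_lit 0x109ac00024020002001851c101)))) 
(.nd (nat_lit 20) (.lf (nat_lit 12681335) (dlOf (nat_lit 1) (nat_lit 0x4002000200086d1882))) 
(.lf (nat_lit 47284343) (dlOf (nat_lit 2) (nat_lit 0x2301c00000040008004001800093c1182))))) 
(.nd (nat_lit 12) (.nd (nat_lit 26) 
(.lf (nat_lit 2953150583) (dlOf (nat_lit 2) (nat_lit 0x2027000e009800200000028a0c00ac00200660008160482))) 
(.lf (nat_lit 3691348087) (dlOf (nat_lit 2) (nat_lit 0x8000000000200080018160481)))) 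
(.lf (nat_lit 8753271) (dlOf (nat_lit 1) (nat_lit 0x10008000800200020008517d83))))) 
(.nd (nat_lit 10) (.nd (nat_lit 18) (.nd (nat_lit 19) 
(.lf (nat_lit 54626935) (dlOf (nat_lit 1) (nat_lit 0x24002000a0009655402))) 
(.lf (nat_lit 20548215) (dlOf (nat_lit 2) (nat_lit 0x160f000000040048004000600089d5402)))) 
(.nd (nat_lit 19) (.lf (nat_lit 60131959) (dlOf (nat_lit 1) (nat_lit 0x8008000400200020009845403))) 
(.lf (nat_lit 45976183) (dlOf (nat_lit 1) (nat_lit 0x120019385401))))) (.nd (nat_lit 19) 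
(.nd (nat_lit 20) (.lf (nat_lit 3355547255) (dlOf (nat_lit 1) (nat_lit 0x800180a9d01))) 
(.lf (nat_lit 20026999) (dlOf (nat_lit 1) (nat_lit 0x1800200ea00089d9d02)))) 
(.lf (nat_lit 7968375) (dlOf (nat_lit 2) (nat_lit 0x1156c000b404000400200020008519d02)))))) 
(.nd (nat_lit 11) (.nd (nat_lit 10) (.nd (nat_lit 18) (.nd (nat_lit 19) 
(.lf (nat_lit 402751863) (dlOf (nat_lit 2) (nat_lit 0xe400d00648058006001c01cc00d00050000002f82801f8008001000200080008091003))) 
(.lf (nat_lit 2753134967) (dlOf (nat_lit 2) (nat_lit 0x241f900750018090780)))) 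
(.lf (nat_lit 5772247415) (dlOf (nat_lit 1) (nat_lit 0x5a0018091001)))) (.nd (nat_lit 9) 
(.lf (nat_lit 268535159) (dlOf (nat_lit 1) (nat_lit 0x20008000c00200040008053503))) 
(.lf (nat_lit 8492919) (dlOf (nat_lit 1) (nat_lit 0x3800800100020008000851a303))))) 
(.nd (nat_lit 18) (.nd (nat_lit 22) 
(.lf (nat_lit 134318455) (dlOf (nat_lit 1) (nat_lit 0x120018004e81))) 
(.lf (nat_lit 37849463) (dlOf (nat_lit 1) (nat_lit 0x8800090d4e81)))) (.nd (nat_lit 19) 
(.lf (nat_lit 69568887) (dlOf (nat_lit 1) (nat_lit 0x400400020008b44e82))) 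
(.lf (nat_lit 36538743) (dlOf (nat_lit 1) (nat_lit 0x240019074e81))))))) (.nd (nat_lit 20) 
(.nd (nat_lit 30) (.nd (nat_lit 9) (.nd (nat_lit 28) 
(.lf (nat_lit 2684453111) (dlOf (nat_lit 7) (nat_lit 0x501c8012f00800380e400976040014072004ba02000a0290025801000801980126c0800080cc0092a04009800200060008014502))) 
(.lf (nat_lit 4563501303) (dlOf (nat_lit 1) (nat_lit 0x7400200120008090a82)))) (.nd (nat_lit 8) 
(.lf (nat_lit 50432759) (dlOf (nat_lit 1) (nat_lit 0x8004000400094c5a02))) 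
(.lf (nat_lit 4563504119) (dlOf (nat_lit 1) (nat_lit 0x8008000400200020008095f03))))) 
(.nd (nat_lit 18) (.nd (nat_lit 8) 
(.lf (nat_lit 3691086071) (dlOf (nat_lit 1) (nat_lit 0x400400160018010702))) 
(.lf (nat_lit 1346996727) (dlOf (nat_lit 1) (nat_lit 0x8008000400200020009164f83)))) 
(.nd (nat_lit 19) 
(.lf (nat_lit 5771722999) (dlOf (nat_lit 1) (nat_lit 0x2200080038002001e0008000a83))) 
(.lf (nat_lit 1343062263) (dlOf (nat_lit 1) (nat_lit 0x400200020008150702)))))) (.nd (nat_lit 8) 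
(.nd (nat_lit 18) (.nd (nat_lit 19) (.nd (nat_lit 21) 
(.lf (nat_lit 6376489207) (dlOf (nat_lit 1) (nat_lit 0x140028090a81))) 
(.lf (nat_lit 20021495) (dlOf (nat_lit 1) (nat_lit 0x34004000600089d0a82)))) 
(.lf (nat_lit 20545783) (dlOf (nat_lit 1) (nat_lit 0x200089d0a81)))) 
(.lf (nat_lit 20283639) (dlOf (nat_lit 1) (nat_lit 0x8002000200089d0a82)))) (.nd (nat_lit 9) 
(.nd (nat_lit 18) (.nd (nat_lit 21) 
(.lf (nat_lit 55675383) (dlOf (nat_lit 1) (nat_lit 0x4002000200096d4f82))) 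
(.lf (nat_lit 53578231) (dlOf (nat_lit 1) (nat_lit 0x400295f4f81)))) 
(.lf (nat_lit 35490295) (dlOf (nat_lit 1) (nat_lit 0x800400080009014f82)))) (.nd (nat_lit 11) 
(.lf (nat_lit 49906679) (dlOf (nat_lit 1) (nat_lit 0x8004000200194c2882))) 
(.lf (nat_lit 20024311) (dlOf (nat_lit 1) (nat_lit 0x1800189d5f01)))))))))) (.nd (nat_lit 5) 
(.nd (nat_lit 28) (.nd (nat_lit 18) (.nd (nat_lit 21) (.nd (nat_lit 26) (.nd (nat_lit 19) 
(.nd (nat_lit 8) (.nd (nat_lit 23) (.nd (nat_lit 27) 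
(.lf (nat_lit 6442680343) (dlOf (nat_lit 1) (nat_lit 0x8008000800200020008140a83))) 
(.lf (nat_lit 134447127) (dlOf (nat_lit 2) (nat_lit 0x5402f000c4818020480)))) (.nd (nat_lit 22) 
(.lf (nat_lit 25395223) (dlOf (nat_lit 1) (nat_lit 0x3a0018c00301))) 
(.lf (nat_lit 63143959) (dlOf (nat_lit 1) (nat_lit 0x4004000200099e0082))))) (.nd (nat_lit 6) 
(.lf (nat_lit 671318295) (dlOf (nat_lit 2) (nat_lit 0xa0140001004c013f808000800400060008154002))) 
(.lf (nat_lit 1278295) (dlOf (nat_lit 1) (nat_lit 0x800180a4d01))))) (.nd (nat_lit 29) 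
(.nd (nat_lit 20) 
(.lf (nat_lit 4947991) (dlOf (nat_lit 3) (nat_lit 0x5981c000ebf7001260200095d20005440800680080010002002800082d0083))) 
(.lf (nat_lit 60522519) (dlOf (nat_lit 1) (nat_lit 0x400400020009890382)))) (.nd (nat_lit 8) 
(.lf (nat_lit 2819325975) (dlOf (nat_lit 1) (nat_lit 0x108008002400200160008240403))) 
(.lf (nat_lit 1611366679) (dlOf (nat_lit 2) (nat_lit 0x301680008c04003400400080008167482)))))) 
(.nd (nat_lit 29) (.nd (nat_lit 27) (.nd (nat_lit 6) (.nd (nat_lit 8) 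
(.lf (nat_lit 4362305559) (dlOf (nat_lit 1) (nat_lit 0x8008000400200060008020483))) 
(.lf (nat_lit 2214827287) (dlOf (nat_lit 1) (nat_lit 0x600280a9701)))) 
(.lf (nat_lit 68386903) (dlOf (nat_lit 2) (nat_lit 0x205f800094080018008000800200100008570303)))) 
(.nd (nat_lit 7) (.lf (nat_lit 201555991) (dlOf (nat_lit 2) (nat_lit 0x5402f0007c018020480))) 
(.lf (nat_lit 2349039767) (dlOf (nat_lit 3) (nat_lit 0x401e0004002000e00f0001f818090180))))) 
(.nd (nat_lit 6) (.nd (nat_lit 10) 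
(.lf (nat_lit 4899176471) (dlOf (nat_lit 1) (nat_lit 0x280080004002000200080d0003))) 
(.lf (nat_lit 2751693847) (dlOf (nat_lit 1) (nat_lit 0x20008002881)))) (.nd (nat_lit 7) 
(.lf (nat_lit 3825434967) (dlOf (nat_lit 5) (nat_lit 0x9e02000016010074010003a0070000560801d4040009801d00014820057010002a807c0000008002000400220018154d02))) 
(.lf (nat_lit 2751693783) (dlOf (nat_lit 2) (nat_lit 0x408800975818002880))))))) (.nd (nat_lit 6) 
(.nd (nat_lit 24) (.nd (nat_lit 7) (.nd (nat_lit 10) 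
(.lf (nat_lit 2753789975) (dlOf (nat_lit 1) (nat_lit 0x400400020008090002))) 
(.lf (nat_lit 36406295) (dlOf (nat_lit 1) (nat_lit 0x20019072881)))) 
(.lf (nat_lit 8098967) (dlOf (nat_lit 2) (nat_lit 0x4f9a00087cb00274828519500)))) (.nd (nat_lit 7) 
(.nd (nat_lit 23) 
(.lf (nat_lit 52658199) (dlOf (nat_lit 4) (nat_lit 0x2dd48002ae30001e717802133a8002c2100009d440036e2e00106748002741800938b800259d20008e0400500029560601))) 
(.lf (nat_lit 27492375) (dlOf (nat_lit 1) (nat_lit 0x28008001400200120008cf0483)))) 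
(.lf (nat_lit 62095767) (dlOf (nat_lit 1) (nat_lit 0x40029956481))))) (.nd (nat_lit 9) 
(.nd (nat_lit 7) 
(.lf (nat_lit 2326871) (dlOf (nat_lit 3) (nat_lit 0x1a38580008804005d9dc000000200020028150681))) 
(.nd (nat_lit 10) (.nd (nat_lit 24) 
(.lf (nat_lit 2326743) (dlOf (nat_lit 2) (nat_lit 0x986770002500800780080024002001a0008150483))) 
(.lf (nat_lit 19103959) (dlOf (nat_lit 1) (nat_lit 0xe0018970501)))) 
(.lf (nat_lit 8094935) (dlOf (nat_lit 1) (nat_lit 0x400200120008512d82))))) (.nd (nat_lit 7) 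
(.lf (nat_lit 36932183) (dlOf (nat_lit 1) (nat_lit 0x220029075301))) (.nd (nat_lit 8) 
(.lf (nat_lit 20159191) (dlOf (nat_lit 1) (nat_lit 0x880080004002001400089db983))) 
(.lf (nat_lit 36406231) (dlOf (nat_lit 1) (nat_lit 0x20019072881)))))))) (.nd (nat_lit 21) 
(.nd (nat_lit 6) (.nd (nat_lit 19) (.nd (nat_lit 27) (.nd (nat_lit 30) (.nd (nat_lit 22) 
(.nd (nat_lit 25) 
(.lf (nat_lit 6510051351) (dlOf (nat_lit 7) (nat_lit 0x8000003fa04001403a009a000000fe020001012800300740094000001fa060064017000f3010006013000300780027008000404c0013402000a0028190a81))) 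
(.lf (nat_lit 34045975) (dlOf (nat_lit 1) (nat_lit 0x400400020008fa0602)))) 
(.lf (nat_lit 13074455) (dlOf (nat_lit 2) (nat_lit 0x125740000d0186f0380)))) (.nd (nat_lit 7) 
(.lf (nat_lit 5906071575) (dlOf (nat_lit 7) (nat_lit 0x80000042404001403a009a000001088200010120003007400940000020f060064017000fc010006012800300780027008000404a0013402000a0028190a81))) 
(.lf (nat_lit 3221717143) (dlOf (nat_lit 1) (nat_lit 0xc002000c0008170182))))) (.nd (nat_lit 7) 
(.nd (nat_lit 9) (.lf (nat_lit 2819063831) (dlOf (nat_lit 1) (nat_lit 0x300028190481))) 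
(.lf (nat_lit 201818647) (dlOf (nat_lit 2) (nat_lit 0x2041000501f8005a4100058008000400200060008090d83)))) 
(.nd (nat_lit 8) (.lf (nat_lit 3959914647) (dlOf (nat_lit 1) (nat_lit 0xc002000c0008170182))) 
(.lf (nat_lit 134709655) (dlOf (nat_lit 2) (nat_lit 0x100ec00e82040050004001a0008090782)))))) 
(.nd (nat_lit 20) (.nd (nat_lit 22) 
(.lf (nat_lit 68124695) (dlOf (nat_lit 1) (nat_lit 0x8008056400201680008400083))) 
(.lf (nat_lit 13598743) (dlOf (nat_lit 2) (nat_lit 0x31bd3006bf018730880)))) (.nd (nat_lit 23) 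
(.lf (nat_lit 23035927) (dlOf (nat_lit 1) (nat_lit 0x400200020008b40482))) 
(.lf (nat_lit 14647319) (dlOf (nat_lit 2) (nat_lit 0x4d0c800798080038008002c002000a0008770083)))))) 
(.nd (nat_lit 12) (.nd (nat_lit 7) (.nd (nat_lit 8) 
(.lf (nat_lit 3892805719) (dlOf (nat_lit 2) (nat_lit 0x806400040290000a0100010008002c00200060008280303))) 
(.lf (nat_lit 1678213463) (dlOf (nat_lit 2) (nat_lit 0x24038000070181a0680)))) 
(.lf (nat_lit 1678213335) (dlOf (nat_lit 2) (nat_lit 0x5700b400128040004004000200081a0482)))) 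
(.nd (nat_lit 7) (.nd (nat_lit 8) 
(.lf (nat_lit 498775) (dlOf (nat_lit 1) (nat_lit 0xca000800bf81))) 
(.lf (nat_lit 496983) (dlOf (nat_lit 1) (nat_lit 0x8008000400200020008009903)))) 
(.lf (nat_lit 8884951) (dlOf (nat_lit 1) (nat_lit 0x20018518c81)))))) (.nd (nat_lit 19) 
(.nd (nat_lit 24) (.nd (nat_lit 25) 
(.lf (nat_lit 3637271) (dlOf (nat_lit 1) (nat_lit 0x180008010c00200700008210903))) 
(.lf (nat_lit 37191703) (dlOf (nat_lit 1) (nat_lit 0x600290b0081)))) (.nd (nat_lit 6) 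
(.nd (nat_lit 20) (.lf (nat_lit 27754519) (dlOf (nat_lit 1) (nat_lit 0x400400020008d20402))) 
(.lf (nat_lit 24608791) (dlOf (nat_lit 3) (nat_lit 0x14bd500045df00010810001af5400000040028002000c0008ba0982)))) 
(.lf (nat_lit 20419287) (dlOf (nat_lit 1) (nat_lit 0x4002000600089d8c82))))) (.nd (nat_lit 7) 
(.nd (nat_lit 9) (.lf (nat_lit 8357911) (dlOf (nat_lit 1) (nat_lit 0x800200020008514702))) 
(.lf (nat_lit 19895831) (dlOf (nat_lit 1) (nat_lit 0x26400189d9c01)))) (.nd (nat_lit 6) 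
(.nd (nat_lit 9) (.lf (nat_lit 24084887) (dlOf (nat_lit 1) (nat_lit 0x2180008b80781))) 
(.lf (nat_lit 46107543) (dlOf (nat_lit 1) (nat_lit 0x60029385c81)))) 
(.lf (nat_lit 8360663) (dlOf (nat_lit 1) (nat_lit 0x8008000400200020008518c83)))))))) 
(.nd (nat_lit 30) (.nd (nat_lit 26) (.nd (nat_lit 7) (.nd (nat_lit 27) (.nd (nat_lit 6) 
(.lf (nat_lit 6711116823) (dlOf (nat_lit 1) (nat_lit 0x20028092881))) (.nd (nat_lit 18) 
(.lf (nat_lit 4563632471) (dlOf (nat_lit 1) (nat_lit 0x14002001e00080a7082))) 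
(.lf (nat_lit 805798231) (dlOf (nat_lit 2) (nat_lit 0x24038000070181a0680))))) (.nd (nat_lit 6) 
(.lf (nat_lit 2550628375) (dlOf (nat_lit 1) (nat_lit 0x14004000400081b0002))) (.nd (nat_lit 29) 
(.lf (nat_lit 402882647) (dlOf (nat_lit 1) (nat_lit 0x200180a1881))) 
(.lf (nat_lit 5234720855) (dlOf (nat_lit 1) (nat_lit 0x100004009600080d0002)))))) (.nd (nat_lit 10) 
(.nd (nat_lit 6) (.lf (nat_lit 4563632279) (dlOf (nat_lit 1) (nat_lit 0x800280a2b01))) 
(.lf (nat_lit 805798103) (dlOf (nat_lit 2) (nat_lit 0x5700b400128040004004000200081a0482)))) 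
(.nd (nat_lit 27) (.lf (nat_lit 6711117015) (dlOf (nat_lit 1) (nat_lit 0x400400020008092d82))) 
(.lf (nat_lit 5234722007) (dlOf (nat_lit 2) (nat_lit 0x2015000000180d2d80)))))) (.nd (nat_lit 19) 
(.nd (nat_lit 7) (.nd (nat_lit 27) 
(.lf (nat_lit 2483257367) (dlOf (nat_lit 1) (nat_lit 0x8008000400200080008090003))) 
(.nd (nat_lit 29) 
(.lf (nat_lit 469991447) (dlOf (nat_lit 5) (nat_lit 0xc90e68004740803e8734002360402cc39a000fb0200c81cd0007c018020480))) 
(.lf (nat_lit 1006862359) (dlOf (nat_lit 1) (nat_lit 0x200180c0001))))) (.nd (nat_lit 6) 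
(.nd (nat_lit 8) 
(.lf (nat_lit 2483257495) (dlOf (nat_lit 1) (nat_lit 0x20008000800200020008090183))) 
(.lf (nat_lit 4764960151) (dlOf (nat_lit 1) (nat_lit 0x220018093601)))) 
(.lf (nat_lit 872907223) (dlOf (nat_lit 2) (nat_lit 0x808a000404300010000008bc1803c80080020002003000080f7b03))))) 
(.nd (nat_lit 6) (.nd (nat_lit 21) 
(.lf (nat_lit 470515735) (dlOf (nat_lit 2) (nat_lit 0x2a113001048080010008003000200280008110a03))) 
(.nd (nat_lit 29) (.lf (nat_lit 472612887) (dlOf (nat_lit 1) (nat_lit 0xc00089c0081))) 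
(.lf (nat_lit 1009483799) (dlOf (nat_lit 1) (nat_lit 0x4004000200091a0082))))) 
(.lf (nat_lit 473923671) (dlOf (nat_lit 1) (nat_lit 0x60018fc0801)))))) (.nd (nat_lit 18) 
(.nd (nat_lit 27) (.nd (nat_lit 6) (.nd (nat_lit 19) (.nd (nat_lit 20) (.nd (nat_lit 26) 
(.lf (nat_lit 1342406679) (dlOf (nat_lit 5) (nat_lit 0xc90e68006ac0803e87340034e0402cc39a0018b0200c81cd000c4818020480))) 
(.lf (nat_lit 5704482839) (dlOf (nat_lit 2) (nat_lit 0x100c0001180800180080014002002a00080c0183)))) 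
(.lf (nat_lit 1343455255) (dlOf (nat_lit 1) (nat_lit 0x8008000c00200060008250683)))) 
(.nd (nat_lit 21) 
(.lf (nat_lit 1342930967) (dlOf (nat_lit 2) (nat_lit 0x2a1130026c0080010008003000200280008110a03))) 
(.lf (nat_lit 1345028119) (dlOf (nat_lit 1) (nat_lit 0x20004000400089d0602))))) (.nd (nat_lit 9) 
(.nd (nat_lit 8) (.lf (nat_lit 1342406743) (dlOf (nat_lit 1) (nat_lit 0x40018020901))) 
(.lf (nat_lit 3489897815) (dlOf (nat_lit 1) (nat_lit 0x20002800c901)))) (.nd (nat_lit 19) 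
(.lf (nat_lit 1344506455) (dlOf (nat_lit 1) (nat_lit 0x60028805301))) 
(.lf (nat_lit 1881901655) (dlOf (nat_lit 1) (nat_lit 0x88008003000200140009165303)))))) 
(.nd (nat_lit 31) (.nd (nat_lit 8) (.nd (nat_lit 26) 
(.lf (nat_lit 6308462615) (dlOf (nat_lit 2) (nat_lit 0x100c0001180800180080014002002a00080c0183))) 
(.lf (nat_lit 5838700567) (dlOf (nat_lit 1) (nat_lit 0x8008000800200020008140a83)))) 
(.lf (nat_lit 1543733527) (dlOf (nat_lit 2) (nat_lit 0xa0140001004c008ce08000800400060008154002)))) 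
(.nd (nat_lit 6) (.nd (nat_lit 29) 
(.lf (nat_lit 3691216919) (dlOf (nat_lit 2) (nat_lit 0x6007400324040004002002400080a0482))) 
(.lf (nat_lit 4228087831) (dlOf (nat_lit 1) (nat_lit 0x8008000400200060008020483)))) 
(.lf (nat_lit 3624111575) (dlOf (nat_lit 2) (nat_lit 0x1201c0001d818146d80)))))) (.nd (nat_lit 6) 
(.nd (nat_lit 20) (.nd (nat_lit 29) (.nd (nat_lit 19) 
(.lf (nat_lit 1342668823) (dlOf (nat_lit 1) (nat_lit 0x80080060002000200080c0003))) 
(.lf (nat_lit 1343193111) (dlOf (nat_lit 1) (nat_lit 0x28004000a0018190082)))) (.nd (nat_lit 7) 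
(.lf (nat_lit 1881636887) (dlOf (nat_lit 1) (nat_lit 0x8008000400200020008f80083))) 
(.lf (nat_lit 4228350359) (dlOf (nat_lit 1) (nat_lit 0xce0018090781))))) (.nd (nat_lit 31) 
(.lf (nat_lit 1343717399) (dlOf (nat_lit 1) (nat_lit 0x80018340481))) 
(.lf (nat_lit 3491201047) (dlOf (nat_lit 3) (nat_lit 0x50a80003050000182700162106000615f000809c0052b81000100080020002000c0008070503))))) 
(.nd (nat_lit 11) (.nd (nat_lit 8) 
(.lf (nat_lit 4095180887) (dlOf (nat_lit 2) (nat_lit 0x1800000000040020002000c0008070702))) 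
(.lf (nat_lit 3490677079) (dlOf (nat_lit 7) (nat_lit 0x2fc1e80003201018d0f400018c0800a87a0000c004000449202ea1e801100af80718540011829e010013c015709c002184dc0008820040c3d00004302030a1e8013a0af8021054001f427802ea138004009b8001083003e8008027c00200d20008014d03)))) 
(.nd (nat_lit 10) (.lf (nat_lit 3492776279) (dlOf (nat_lit 1) (nat_lit 0x400280f4e01))) 
(.lf (nat_lit 3490155863) (dlOf (nat_lit 1) (nat_lit 0x20018006a81))))))))) (.nd (nat_lit 7) 
(.nd (nat_lit 28) (.nd (nat_lit 20) (.nd (nat_lit 27) (.nd (nat_lit 18) (.nd (nat_lit 29) 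
(.nd (nat_lit 19) (.lf (nat_lit 12812343) (dlOf (nat_lit 1) (nat_lit 0x600186e0b01))) 
(.lf (nat_lit 2850871) (dlOf (nat_lit 4) (nat_lit 0x34000001c1020028000000de81001104d8002500800d00080088002002200081c0b83)))) 
(.nd (nat_lit 6) (.lf (nat_lit 4899176503) (dlOf (nat_lit 1) (nat_lit 0x200280d0001))) 
(.lf (nat_lit 4832069239) (dlOf (nat_lit 1) (nat_lit 0x600280d3981))))) (.nd (nat_lit 19) 
(.nd (nat_lit 21) (.lf (nat_lit 21463095) (dlOf (nat_lit 1) (nat_lit 0x1400400020018a40482))) 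
(.lf (nat_lit 48726071) (dlOf (nat_lit 2) (nat_lit 0xeb9f0000ac080118008000c00200120009420503)))) 
(.nd (nat_lit 8) (.nd (nat_lit 23) 
(.lf (nat_lit 21987383) (dlOf (nat_lit 1) (nat_lit 0xe000200120008a80d02))) 
(.lf (nat_lit 13598775) (dlOf (nat_lit 6) (nat_lit 0x9fe31804fef58003cc08043f8c60221bd6000e682007ce3180216f58003960802838c60161bd6000b982001ee31800fef58001020800ac00400120008730b82)))) 
(.lf (nat_lit 19893047) (dlOf (nat_lit 1) (nat_lit 0x4002000200089d5c02)))))) (.nd (nat_lit 26) 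
(.nd (nat_lit 6) (.nd (nat_lit 8) 
(.lf (nat_lit 134447159) (dlOf (nat_lit 3) (nat_lit 0x3c03f0002f8100050208001480800b000800f000200120008020683))) 
(.lf (nat_lit 671318327) (dlOf (nat_lit 3) (nat_lit 0xc0036002e003000c00000130818016806c00b4006000c001000d000001304200060008011800200600008154c03)))) 
(.lf (nat_lit 4966287735) (dlOf (nat_lit 1) (nat_lit 0x400400040018094e82)))) (.nd (nat_lit 6) 
(.nd (nat_lit 29) 
(.lf (nat_lit 201556023) (dlOf (nat_lit 3) (nat_lit 0x3c03f0002f8100050208001480800b000800f000200120008020683))) 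
(.lf (nat_lit 1812168759) (dlOf (nat_lit 1) (nat_lit 0x800200280008160682)))) 
(.lf (nat_lit 2349039735) (dlOf (nat_lit 2) (nat_lit 0xe00800020038003f408001000400020008090082)))))) 
(.nd (nat_lit 8) (.nd (nat_lit 10) (.nd (nat_lit 18) 
(.lf (nat_lit 2752741431) (dlOf (nat_lit 18) (nat_lit 0xac1ca001e20201440e5000d681005e0728006a00804183940033a0402ac00000149020004000000a38100b200000050808041865c00ac2ec01440e7005e0730003038405e416200380a6000f04f80080274000801a006a008002c000802c00000025e3400081ca0009f0200380e50003c8100350728001c8080078394000760405e41ca0002a02000c0e50001401001007280009c080160394000280401601ca00040c800ab052005900100000010006c00405e00018030d02))) 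
(.nd (nat_lit 22) (.lf (nat_lit 69173303) (dlOf (nat_lit 2) (nat_lit 0x41e20002b02000800188c0501))) 
(.lf (nat_lit 14647351) (dlOf (nat_lit 3) (nat_lit 0x583d880119ce40214dfa00a86a3001120000090f840025e1801651be00c08d9003f3cd80131c480198dde00126ad0039349801b0fb0001c82000e000400ce0018770482))))) 
(.nd (nat_lit 21) (.lf (nat_lit 39027767) (dlOf (nat_lit 1) (nat_lit 0x8008002000200380009192883))) 
(.lf (nat_lit 36930615) (dlOf (nat_lit 1) (nat_lit 0x400200020009072882))))) (.nd (nat_lit 6) 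
(.nd (nat_lit 19) (.lf (nat_lit 1278263) (dlOf (nat_lit 1) (nat_lit 0xc004000200080a4c02))) 
(.lf (nat_lit 54231351) (dlOf (nat_lit 2) (nat_lit 0x200000000019650b80)))) (.nd (nat_lit 11) 
(.lf (nat_lit 8094071) (dlOf (nat_lit 1) (nat_lit 0x20018511001))) 
(.lf (nat_lit 36931959) (dlOf (nat_lit 1) (nat_lit 0x40019074e81))))))) (.nd (nat_lit 26) 
(.nd (nat_lit 18) (.nd (nat_lit 27) (.nd (nat_lit 6) (.nd (nat_lit 20) 
(.lf (nat_lit 1342406711) (dlOf (nat_lit 4) (nat_lit 0x40c38e00141bd0002e02004c0e380016808076871c0004804002400400100008020682))) 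
(.lf (nat_lit 3490938935) (dlOf (nat_lit 18) (nat_lit 0xac16a001e20201440b5000d401005e05a80068c0804182d4003360402ac00000149020004000000a38100b200000050808041863c00ac2ec02f20bf00a205b802f02d8001816200380a9000f04f80080274000801a006a008002c000802c00000026234000816a0009f0200380b50003c81003505a8001c80800782d40006c04001816a000250202f20b50001201001005a8000880801602d40001e0400081ac00b00b500ab053805900100000010006c00405e00018030d02)))) 
(.lf (nat_lit 4563632503) (dlOf (nat_lit 1) (nat_lit 0x50004000600080a7d02)))) (.nd (nat_lit 29) 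
(.lf (nat_lit 1476624439) (dlOf (nat_lit 2) (nat_lit 0xa4078000a039000020280a0800))) 
(.nd (nat_lit 30) (.lf (nat_lit 939753527) (dlOf (nat_lit 1) (nat_lit 0x800200280008160682))) 
(.lf (nat_lit 6308462647) (dlOf (nat_lit 2) (nat_lit 0x500360002d02001a00180c0681)))))) 
(.nd (nat_lit 10) (.nd (nat_lit 29) 
(.lf (nat_lit 3492249655) (dlOf (nat_lit 2) (nat_lit 0x30ae00001008021000800dc002000800080b1403))) 
(.lf (nat_lit 1881636919) (dlOf (nat_lit 1) (nat_lit 0x20028f80481)))) (.nd (nat_lit 19) 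
(.lf (nat_lit 1346864183) (dlOf (nat_lit 1) (nat_lit 0x20019042881))) 
(.lf (nat_lit 1345291319) (dlOf (nat_lit 1) (nat_lit 0x400400020008b52882)))))) (.nd (nat_lit 27) 
(.nd (nat_lit 6) (.nd (nat_lit 18) 
(.lf (nat_lit 5704482871) (dlOf (nat_lit 2) (nat_lit 0x500360002d02001a00180c0681))) 
(.lf (nat_lit 1409777719) (dlOf (nat_lit 1) (nat_lit 0x1c0028090001)))) 
(.lf (nat_lit 5167613303) (dlOf (nat_lit 2) (nat_lit 0x700a00000c0800080080004002000200080d3503)))) 
(.nd (nat_lit 21) (.nd (nat_lit 8) 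
(.lf (nat_lit 469991479) (dlOf (nat_lit 4) (nat_lit 0x40c38e00141bd0002e02004c0e380016808076871c0004804002400400100008020682))) 
(.lf (nat_lit 1543733559) (dlOf (nat_lit 3) (nat_lit 0xc0032002e003000c00000295c18016806400b4006000c001000d000002958200060008011800200600008154c03)))) 
(.nd (nat_lit 18) (.lf (nat_lit 1009483831) (dlOf (nat_lit 1) (nat_lit 0x2800091a0501))) 
(.lf (nat_lit 1009221687) (dlOf (nat_lit 1) (nat_lit 0x6c00190a0501)))))))) (.nd (nat_lit 8) 
(.nd (nat_lit 30) (.nd (nat_lit 18) (.nd (nat_lit 12) (.nd (nat_lit 20) 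
(.lf (nat_lit 738427127) (dlOf (nat_lit 2) (nat_lit 0x80a000040320004b028090a80))) 
(.lf (nat_lit 20152567) (dlOf (nat_lit 1) (nat_lit 0x8002000200089d0a82)))) (.nd (nat_lit 6) 
(.lf (nat_lit 8623799) (dlOf (nat_lit 1) (nat_lit 0x40020002000851a002))) 
(.lf (nat_lit 20158711) (dlOf (nat_lit 1) (nat_lit 0x4002000600089da982))))) (.nd (nat_lit 22) 
(.nd (nat_lit 6) 
(.lf (nat_lit 2886172855) (dlOf (nat_lit 1) (nat_lit 0x8008000400200020008185203))) 
(.lf (nat_lit 35094775) (dlOf (nat_lit 1) (nat_lit 0x60008008800200020008fd2483)))) 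
(.nd (nat_lit 19) (.lf (nat_lit 48726263) (dlOf (nat_lit 1) (nat_lit 0x800401fc0019422482))) 
(.lf (nat_lit 38764791) (dlOf (nat_lit 1) (nat_lit 0x4004007e0009152482)))))) (.nd (nat_lit 6) 
(.nd (nat_lit 28) (.nd (nat_lit 26) 
(.lf (nat_lit 3758588087) (dlOf (nat_lit 1) (nat_lit 0x200282c0481))) 
(.lf (nat_lit 3288826039) (dlOf (nat_lit 1) (nat_lit 0x4004000200181b0382)))) (.nd (nat_lit 10) 
(.lf (nat_lit 4027023543) (dlOf (nat_lit 1) (nat_lit 0x4004000200181b0382))) 
(.lf (nat_lit 3490155703) (dlOf (nat_lit 1) (nat_lit 0x20018006281))))) (.nd (nat_lit 18) 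
(.nd (nat_lit 26) (.lf (nat_lit 1208189175) (dlOf (nat_lit 1) (nat_lit 0x800200020008090a82))) 
(.lf (nat_lit 5436047607) (dlOf (nat_lit 1) (nat_lit 0x188008008c002008a0008090a83)))) 
(.lf (nat_lit 6376358135) (dlOf (nat_lit 2) (nat_lit 0xc098800580080020008000c00200100008090a83)))))) 
(.nd (nat_lit 19) (.nd (nat_lit 18) (.nd (nat_lit 20) (.nd (nat_lit 6) 
(.lf (nat_lit 1677951415) (dlOf (nat_lit 1) (nat_lit 0x320018127781))) (.nd (nat_lit 31) 
(.lf (nat_lit 1677951479) (dlOf (nat_lit 5) (nat_lit 0x4b000e048d00000019c1001b800000088040144084038a00e00020820018000000100080008008000c00200020008127e03))) 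
(.lf (nat_lit 3825435127) (dlOf (nat_lit 2) (nat_lit 0x1800b00521818157800))))) (.nd (nat_lit 11) 
(.lf (nat_lit 9667063) (dlOf (nat_lit 2) (nat_lit 0x21f2800178080010008000800200060008577e03))) 
(.lf (nat_lit 39029239) (dlOf (nat_lit 2) (nat_lit 0x99f80009c04000400200040009194f82))))) 
(.nd (nat_lit 6) (.nd (nat_lit 9) 
(.lf (nat_lit 1345814967) (dlOf (nat_lit 1) (nat_lit 0x20018e06e81))) 
(.lf (nat_lit 2751956919) (dlOf (nat_lit 1) (nat_lit 0x400200020008004382)))) (.nd (nat_lit 26) 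
(.lf (nat_lit 492535) (dlOf (nat_lit 1) (nat_lit 0x400200020008002882))) 
(.lf (nat_lit 2751955959) (dlOf (nat_lit 1) (nat_lit 0xc0028002881)))))) (.nd (nat_lit 9) 
(.nd (nat_lit 21) (.nd (nat_lit 22) 
(.lf (nat_lit 1008437751) (dlOf (nat_lit 1) (nat_lit 0x20028c34f81))) 
(.lf (nat_lit 47942135) (dlOf (nat_lit 1) (nat_lit 0x2c00200040009404f82)))) (.nd (nat_lit 6) 
(.lf (nat_lit 8101303) (dlOf (nat_lit 1) (nat_lit 0x2002851cd01))) 
(.lf (nat_lit 37456375) (dlOf (nat_lit 1) (nat_lit 0x4002000200090d4f82))))) (.nd (nat_lit 6) 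
(.nd (nat_lit 10) (.lf (nat_lit 8094647) (dlOf (nat_lit 1) (nat_lit 0x6e0002033e0008512702))) 
(.lf (nat_lit 2752219063) (dlOf (nat_lit 1) (nat_lit 0x10008000400200020008004383)))) 
(.nd (nat_lit 10) (.lf (nat_lit 3492774903) (dlOf (nat_lit 1) (nat_lit 0x4002000200080f2882))) 
(.lf (nat_lit 8357879) (dlOf (nat_lit 1) (nat_lit 0x20018514681))))))))))) (.nd (nat_lit 5) 
(.nd (nat_lit 6) (.nd (nat_lit 18) (.nd (nat_lit 17) (.nd (nat_lit 19) (.nd (nat_lit 8) 
(.nd (nat_lit 10) (.nd (nat_lit 7) (.nd (nat_lit 21) 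
(.lf (nat_lit 6643884055) (dlOf (nat_lit 1) (nat_lit 0x2800400320008020682))) 
(.lf (nat_lit 23175191) (dlOf (nat_lit 3) (nat_lit 0x935f802d04040005afc000ecbf000761580588418026000800ec00200320008b60503)))) 
(.lf (nat_lit 4563511959) (dlOf (nat_lit 1) (nat_lit 0x400400020008095502)))) (.nd (nat_lit 7) 
(.nd (nat_lit 21) (.lf (nat_lit 939631639) (dlOf (nat_lit 1) (nat_lit 0x1c0028142881))) 
(.lf (nat_lit 5773566999) (dlOf (nat_lit 1) (nat_lit 0x18004000200180e2882)))) 
(.lf (nat_lit 20032663) (dlOf (nat_lit 1) (nat_lit 0x18600089d6201))))) (.nd (nat_lit 7) 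
(.nd (nat_lit 26) (.nd (nat_lit 10) 
(.lf (nat_lit 4301079) (dlOf (nat_lit 1) (nat_lit 0x8800800e000201b60008290703))) 
(.lf (nat_lit 8500503) (dlOf (nat_lit 1) (nat_lit 0x10008000400200020008519703)))) 
(.nd (nat_lit 27) 
(.lf (nat_lit 1677828375) (dlOf (nat_lit 2) (nat_lit 0x28014400d0074000960400020028090481))) 
(.lf (nat_lit 3959529751) (dlOf (nat_lit 2) (nat_lit 0xc0200004b018090480))))) (.nd (nat_lit 10) 
(.nd (nat_lit 11) (.lf (nat_lit 1881252247) (dlOf (nat_lit 1) (nat_lit 0x20028e81001))) 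
(.lf (nat_lit 1008839063) (dlOf (nat_lit 1) (nat_lit 0x400400020008fa4e82)))) 
(.lf (nat_lit 4899054999) (dlOf (nat_lit 1) (nat_lit 0x80018053601)))))) (.nd (nat_lit 20) 
(.nd (nat_lit 22) (.nd (nat_lit 21) (.nd (nat_lit 26) 
(.lf (nat_lit 805937175) (dlOf (nat_lit 5) (nat_lit 0x1e01a8033a808053806c019d204002808800cc30201dc02d01e900b8032d8100ec8008012400203fc00081f0a03))) 
(.lf (nat_lit 1678352407) (dlOf (nat_lit 5) (nat_lit 0x1e01a801d0408053806c00e800400280880072d0201dc02d01e900b801c24100ec8008012400203fc00081f0a03)))) 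
(.lf (nat_lit 27893783) (dlOf (nat_lit 1) (nat_lit 0x8008000400200020008d40483)))) (.nd (nat_lit 7) 
(.nd (nat_lit 25) (.lf (nat_lit 21602327) (dlOf (nat_lit 1) (nat_lit 0x400200020008a50382))) 
(.lf (nat_lit 55156759) (dlOf (nat_lit 1) (nat_lit 0x2200096c0181)))) 
(.lf (nat_lit 23699607) (dlOf (nat_lit 1) (nat_lit 0x20018b80181))))) (.nd (nat_lit 24) 
(.nd (nat_lit 23) (.nd (nat_lit 26) 
(.lf (nat_lit 3493437463) (dlOf (nat_lit 6) (nat_lit 0xc434000a213000fd02000510d0002884c00202220008101000fc84000a10d0004884c00142220002101000fc04000710d0007dc0800088680008222001f50400160028140a81))) 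
(.lf (nat_lit 2755239959) (dlOf (nat_lit 6) (nat_lit 0xc45e000a228000f4020005117800288a000202160008101000f384000a117800488a000142160002101000f30400071178007940800088bc0008216001e30400160028140a81)))) 
(.lf (nat_lit 45719575) (dlOf (nat_lit 1) (nat_lit 0x20029360081)))) (.nd (nat_lit 21) 
(.lf (nat_lit 18456599) (dlOf (nat_lit 1) (nat_lit 0x160018940481))) 
(.lf (nat_lit 24748055) (dlOf (nat_lit 6) (nat_lit 0xe9790000ab950001a02001c60b800ab00000bd7900004bad001953f000628d40006418008979000023020042bc8000110100055e4000084080088008001400200040008bb0383))))))) 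
(.nd (nat_lit 26) (.nd (nat_lit 19) (.nd (nat_lit 28) (.nd (nat_lit 7) (.nd (nat_lit 8) 
(.lf (nat_lit 6576906263) (dlOf (nat_lit 1) (nat_lit 0x8008003800200020008190a83))) 
(.lf (nat_lit 1286423) (dlOf (nat_lit 1) (nat_lit 0x4002000200080a4002)))) (.nd (nat_lit 8) 
(.lf (nat_lit 5905819799) (dlOf (nat_lit 1) (nat_lit 0x20008144801))) 
(.lf (nat_lit 9675159) (dlOf (nat_lit 3) (nat_lit 0x5a0d006098100c5d068001607c018220808e400400020008576482))))) 
(.nd (nat_lit 27) (.nd (nat_lit 29) (.nd (nat_lit 30) 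
(.lf (nat_lit 4563640343) (dlOf (nat_lit 1) (nat_lit 0x600080b0081))) 
(.lf (nat_lit 1342414871) (dlOf (nat_lit 5) (nat_lit 0x11f1238006ac0800b891c0034e04017048e0018b02007e247000c4818020480)))) 
(.lf (nat_lit 2953027607) (dlOf (nat_lit 1) (nat_lit 0x38008000c002000800080b0403)))) 
(.nd (nat_lit 9) (.lf (nat_lit 4697858071) (dlOf (nat_lit 1) (nat_lit 0x600080b0081))) 
(.lf (nat_lit 5234730519) (dlOf (nat_lit 1) (nat_lit 0x4004000600080d3702)))))) (.nd (nat_lit 21) 
(.nd (nat_lit 20) (.nd (nat_lit 22) (.nd (nat_lit 27) 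
(.lf (nat_lit 1342939159) (dlOf (nat_lit 3) (nat_lit 0x2094006c48100030e1800105d800082e200d3b06002a0008110a01))) 
(.lf (nat_lit 2819334167) (dlOf (nat_lit 17) (nat_lit 0x140680005f02000c0780008039000401a800280bc001804b000901f8001543000381e000200e4000806a000702f0004012c002007e000540c0004078000a039000401a8001c0bc001004b000901f8001483000381c8001c0d4000a05e000a025800400fc000a21400040f0000407200070350003012c000981000240e4001006a000802f0004812c001c07e0004b0a0006069000202e8001081000101a4001c0ba0003f04000c05b000201e000600d400140680003308000c06f000802d800400f000180680003208000406f000802d800300f000180680003108000a06f000602d800300f0001406c000e035000501a0000c0300010168000100400080dc001205a0000382000c037800380d00000608001000400080018240402)))) 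
(.lf (nat_lit 4956183) (dlOf (nat_lit 1) (nat_lit 0x80080030002000a00082d0083)))) 
(.lf (nat_lit 10199063) (dlOf (nat_lit 1) (nat_lit 0x4004000200085c0882)))) (.nd (nat_lit 7) 
(.nd (nat_lit 8) 
(.lf (nat_lit 1345036311) (dlOf (nat_lit 3) (nat_lit 0xf0650002f80800283280011c040004004001000089d0602))) 
(.lf (nat_lit 19640599) (dlOf (nat_lit 1) (nat_lit 0x2c00289d8081)))) 
(.lf (nat_lit 19638679) (dlOf (nat_lit 1) (nat_lit 0x1000189d4e81)))))) (.nd (nat_lit 27) 
(.nd (nat_lit 28) (.nd (nat_lit 10) (.nd (nat_lit 30) 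
(.lf (nat_lit 604217367) (dlOf (nat_lit 1) (nat_lit 0x100080014002000a00080b0403))) 
(.lf (nat_lit 5972926487) (dlOf (nat_lit 1) (nat_lit 0x8008003800200020008190a83)))) 
(.lf (nat_lit 67875863) (dlOf (nat_lit 1) (nat_lit 0x20018339201)))) (.nd (nat_lit 7) 
(.lf (nat_lit 2483265559) (dlOf (nat_lit 3) (nat_lit 0x22010004f001001b0080025840800100080094002002c0008090003))) 
(.lf (nat_lit 2483265687) (dlOf (nat_lit 3) (nat_lit 0x401e0004002000e00f0001f818090180))))) 
(.nd (nat_lit 19) (.nd (nat_lit 31) (.nd (nat_lit 8) (.nd (nat_lit 20) 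
(.lf (nat_lit 469999639) (dlOf (nat_lit 5) (nat_lit 0x11f1238004740800b891c0023604017048e000fb02007e2470007c018020480))) 
(.lf (nat_lit 471048215) (dlOf (nat_lit 1) (nat_lit 0x40018250681)))) 
(.lf (nat_lit 1006870807) (dlOf (nat_lit 1) (nat_lit 0x480080098002002800080c0483)))) 
(.nd (nat_lit 7) (.lf (nat_lit 2617483287) (dlOf (nat_lit 1) (nat_lit 0x200180c0681))) 
(.lf (nat_lit 2349047959) (dlOf (nat_lit 1) (nat_lit 0x20008000800200020008090183))))) 
(.nd (nat_lit 8) (.nd (nat_lit 21) 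
(.lf (nat_lit 470523927) (dlOf (nat_lit 3) (nat_lit 0x2094004728100030e1800105e000082e6007a706002a0008110a01))) 
(.lf (nat_lit 472621079) (dlOf (nat_lit 1) (nat_lit 0x14002000200089d0602)))) 
(.lf (nat_lit 473669911) (dlOf (nat_lit 1) (nat_lit 0x20018f97481)))))))) (.nd (nat_lit 21) 
(.nd (nat_lit 26) (.nd (nat_lit 30) (.nd (nat_lit 19) (.nd (nat_lit 17) (.nd (nat_lit 27) 
(.lf (nat_lit 805675031) (dlOf (nat_lit 2) (nat_lit 0x15605500afd818180500))) 
(.lf (nat_lit 134586391) (dlOf (nat_lit 2) (nat_lit 0x3406c000000200200018080501)))) 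
(.lf (nat_lit 22519831) (dlOf (nat_lit 2) (nat_lit 0x158480036c080038008000800200040008af0603)))) 
(.nd (nat_lit 20) (.nd (nat_lit 17) 
(.lf (nat_lit 892951) (dlOf (nat_lit 1) (nat_lit 0x400400020008030882))) 
(.lf (nat_lit 17801239) (dlOf (nat_lit 1) (nat_lit 0x200088f0881)))) (.nd (nat_lit 22) 
(.lf (nat_lit 27107351) (dlOf (nat_lit 1) (nat_lit 0x8000200020008ca0482))) 
(.lf (nat_lit 22913047) (dlOf (nat_lit 15) (nat_lit 0x3dde200093808023ef10004980401d7796008bb3900456e5000500000049210035f7880023f02002a000001140100730000008980803f0000003e40400fc000001ef02005e000000f701000be5d0006f4080120000003460400680000017c02005e0000005701001b0000000000802e0008011400200400008b40483)))))) 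
(.nd (nat_lit 17) (.nd (nat_lit 27) (.nd (nat_lit 22) 
(.lf (nat_lit 1342545943) (dlOf (nat_lit 4) (nat_lit 0x2824900261188008c81000a0204002a8040098102001380200140028050a81))) 
(.lf (nat_lit 1346740247) (dlOf (nat_lit 1) (nat_lit 0x40029000081)))) (.nd (nat_lit 28) 
(.lf (nat_lit 3355811863) (dlOf (nat_lit 8) (nat_lit 0x1400f0008cc0803e00b00190042007a01e005500a8039802400464140140060003601e004e0080008002400462100514000001f302009c000000f901010701700110080041c018001d206000802000040818120480))) 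
(.lf (nat_lit 1476763671) (dlOf (nat_lit 4) (nat_lit 0x2f805c022000e0005c0400720070002d81004500b8033801c000b4080004004001a0008190402))))) 
(.nd (nat_lit 7) (.nd (nat_lit 19) 
(.lf (nat_lit 3221725207) (dlOf (nat_lit 1) (nat_lit 0x20028170001))) 
(.lf (nat_lit 1343201303) (dlOf (nat_lit 2) (nat_lit 0x1802300126018190080)))) 
(.lf (nat_lit 3221725335) (dlOf (nat_lit 5) (nat_lit 0x80760002b02000c03e0000f01000501b8000280800400f00000c04003400400180018170182)))))) 
(.nd (nat_lit 27) (.nd (nat_lit 31) (.nd (nat_lit 29) 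
(.lf (nat_lit 4362444823) (dlOf (nat_lit 1) (nat_lit 0xd8008006000200620008080503))) 
(.nd (nat_lit 30) 
(.lf (nat_lit 604348439) (dlOf (nat_lit 4) (nat_lit 0x2f8058022000e0005c0400720070002d81004500b0033801c000b4080004004001a0008190402))) 
(.lf (nat_lit 1678090263) (dlOf (nat_lit 2) (nat_lit 0x15605500a4b818180500))))) (.nd (nat_lit 17) 
(.lf (nat_lit 3020267543) (dlOf (nat_lit 1) (nat_lit 0x200281e0481))) (.nd (nat_lit 19) 
(.lf (nat_lit 2753011735) (dlOf (nat_lit 1) (nat_lit 0x118008015000201900008070503))) 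
(.lf (nat_lit 2753536023) (dlOf (nat_lit 1) (nat_lit 0x8008000400200020008090003)))))) 
(.nd (nat_lit 28) (.nd (nat_lit 7) 
(.lf (nat_lit 201695255) (dlOf (nat_lit 2) (nat_lit 0x3406c000000200200018080501))) 
(.nd (nat_lit 9) 
(.lf (nat_lit 3959922839) (dlOf (nat_lit 5) (nat_lit 0x80760002b02000c03e0000f01000501b8000280800400f00000c04003400400180018170182))) 
(.lf (nat_lit 2349182615) (dlOf (nat_lit 1) (nat_lit 0x400180f7201))))) (.nd (nat_lit 31) 
(.nd (nat_lit 22) 
(.lf (nat_lit 470130711) (dlOf (nat_lit 4) (nat_lit 0x2824900261188009281000a0204002b2040098102001380200140028050a81))) 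
(.lf (nat_lit 474325015) (dlOf (nat_lit 1) (nat_lit 0x8400200020009150182)))) (.nd (nat_lit 29) 
(.lf (nat_lit 2617614359) (dlOf (nat_lit 6) (nat_lit 0x420168008f40803a80b40047804018405a0076029001190200bb0168008c40802a00ac003a404002800400060018100482))) 
(.lf (nat_lit 4228227095) (dlOf (nat_lit 1) (nat_lit 0xd8008006000200620008080503)))))))) 
(.nd (nat_lit 22) (.nd (nat_lit 28) (.nd (nat_lit 17) (.nd (nat_lit 23) 
(.lf (nat_lit 2755502103) (dlOf (nat_lit 1) (nat_lit 0x100080004002000200081a0503))) 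
(.nd (nat_lit 24) (.lf (nat_lit 45981719) (dlOf (nat_lit 1) (nat_lit 0x320029380001))) 
(.lf (nat_lit 29204503) (dlOf (nat_lit 1) (nat_lit 0x3c0028de0581))))) (.nd (nat_lit 9) 
(.nd (nat_lit 23) (.lf (nat_lit 20946967) (dlOf (nat_lit 1) (nat_lit 0x54004006c00089f0082))) 
(.lf (nat_lit 12558359) (dlOf (nat_lit 1) (nat_lit 0x4004000200086d0902)))) 
(.lf (nat_lit 19904023) (dlOf (nat_lit 1) (nat_lit 0x1c00189d9c01))))) (.nd (nat_lit 7) 
(.nd (nat_lit 19) (.lf (nat_lit 1881514007) (dlOf (nat_lit 1) (nat_lit 0x60008f40081))) 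
(.nd (nat_lit 20) (.lf (nat_lit 4096630807) (dlOf (nat_lit 1) (nat_lit 0x20028140a01))) 
(.lf (nat_lit 3493699607) (dlOf (nat_lit 1) (nat_lit 0x100080004002000200081a0503))))) 
(.nd (nat_lit 8) (.lf (nat_lit 3492653207) (dlOf (nat_lit 1) (nat_lit 0x1400280f4801))) 
(.lf (nat_lit 473803159) (dlOf (nat_lit 1) (nat_lit 0x20018fa4e81)))))) (.nd (nat_lit 20) 
(.nd (nat_lit 11) (.nd (nat_lit 17) 
(.lf (nat_lit 15573015) (dlOf (nat_lit 1) (nat_lit 0x2160028800481))) 
(.lf (nat_lit 15704087) (dlOf (nat_lit 1) (nat_lit 0xf8008002c00200040008820483)))) 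
(.nd (nat_lit 7) (.lf (nat_lit 57125399) (dlOf (nat_lit 1) (nat_lit 0xc00400020009795082))) 
(.lf (nat_lit 56994199) (dlOf (nat_lit 1) (nat_lit 0xc00400020009794e82))))) (.nd (nat_lit 23) 
(.nd (nat_lit 9) (.nd (nat_lit 24) 
(.lf (nat_lit 7708695) (dlOf (nat_lit 1) (nat_lit 0x84004000200084d0a02))) 
(.lf (nat_lit 24485911) (dlOf (nat_lit 3) (nat_lit 0x3af54000840400197aa000000200060008ba0981)))) 
(.lf (nat_lit 58171927) (dlOf (nat_lit 2) (nat_lit 0x357c8000e808009000800c0002004c00097c7e03)))) 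
(.nd (nat_lit 25) (.lf (nat_lit 16097303) (dlOf (nat_lit 1) (nat_lit 0x400400020008860402))) 
(.lf (nat_lit 49651735) (dlOf (nat_lit 1) (nat_lit 0x800400020009480082))))))))) (.nd (nat_lit 8) 
(.nd (nat_lit 18) (.nd (nat_lit 7) (.nd (nat_lit 9) (.nd (nat_lit 17) (.nd (nat_lit 10) 
(.nd (nat_lit 20) 
(.lf (nat_lit 3960053847) (dlOf (nat_lit 2) (nat_lit 0xb01780001008010800800b4002002a00081a1a83))) 
(.lf (nat_lit 4095320151) (dlOf (nat_lit 2) (nat_lit 0x60c500000018090600)))) 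
(.lf (nat_lit 7976023) (dlOf (nat_lit 1) (nat_lit 0x10008001000200040008519383)))) 
(.nd (nat_lit 19) (.nd (nat_lit 27) 
(.lf (nat_lit 4563640407) (dlOf (nat_lit 1) (nat_lit 0x44004002a00080b0702))) 
(.lf (nat_lit 4697858135) (dlOf (nat_lit 1) (nat_lit 0x44004002a00080b0702)))) 
(.lf (nat_lit 59482199) (dlOf (nat_lit 2) (nat_lit 0x599ec0088cc8000a5920003272800094200040008002400200100009800803))))) 
(.nd (nat_lit 21) (.nd (nat_lit 10) (.nd (nat_lit 19) 
(.lf (nat_lit 33663575) (dlOf (nat_lit 1) (nat_lit 0x9000200720008f55302))) 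
(.lf (nat_lit 52013655) (dlOf (nat_lit 2) (nat_lit 0x115fe00007c080010008006800200020009515303)))) 
(.lf (nat_lit 6576778839) (dlOf (nat_lit 1) (nat_lit 0xc00400020008147182)))) (.nd (nat_lit 17) 
(.nd (nat_lit 22) (.lf (nat_lit 44673623) (dlOf (nat_lit 1) (nat_lit 0x3c0029325301))) 
(.lf (nat_lit 32090711) (dlOf (nat_lit 1) (nat_lit 0x400200060008ef5302)))) 
(.lf (nat_lit 1881909847) (dlOf (nat_lit 1) (nat_lit 0x60019165301)))))) (.nd (nat_lit 29) 
(.nd (nat_lit 12) (.nd (nat_lit 19) (.nd (nat_lit 26) 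
(.lf (nat_lit 3221332183) (dlOf (nat_lit 15) (nat_lit 0x140020000e381004a0100007180805300800038a04026c040001c3020026020000de81009b0100006c00804000800031e04026c04000186020136020000c201009b01000060c0804d8080003040401d404000176020136020000b7810139029808a814000a809800ec04200b701f802780e804ec06e0054033001701400010090045404200b6020010400e803f0060045402a012a005000500000025088000800801b800200460008090483))) 
(.lf (nat_lit 6509666519) (dlOf (nat_lit 6) (nat_lit 0xc0000008e00800b80480046e0400bc000002350200ba0000011401007600000020408005800800d8002002800080b0483)))) 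
(.nd (nat_lit 10) (.lf (nat_lit 9150679) (dlOf (nat_lit 1) (nat_lit 0x2c0028523e81))) 
(.lf (nat_lit 634071) (dlOf (nat_lit 1) (nat_lit 0x10e0018006481))))) (.nd (nat_lit 9) 
(.lf (nat_lit 19640535) (dlOf (nat_lit 1) (nat_lit 0x2c00289d8081))) (.nd (nat_lit 11) 
(.lf (nat_lit 8499927) (dlOf (nat_lit 1) (nat_lit 0x8008000400200020008518c83))) 
(.lf (nat_lit 20167383) (dlOf (nat_lit 1) (nat_lit 0xd80080004002003400089db983)))))) 
(.nd (nat_lit 26) (.nd (nat_lit 10) (.nd (nat_lit 28) 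
(.lf (nat_lit 5905686743) (dlOf (nat_lit 6) (nat_lit 0xc0000008e00800b80440046e0400bc000002350200ba0000011401007600000020408005800800d8002002800080b0483))) 
(.lf (nat_lit 805413079) (dlOf (nat_lit 17) (nat_lit 0x6200980049204032004c00248020196026001238100c20130009140800a80980043e0402d804c0020c020184026000fe0100c20130007e8080610098003f00400b804c001f702014a026000fa8100c20130007cc080610098003e204030c04c001f0020184026000f78101e2028809981400398096003c043005b01f80f780e805c8072001c033019b013800d808c044c03401000190025000000250680a580081a4400204fa0008090483)))) 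
(.lf (nat_lit 5234730199) (dlOf (nat_lit 1) (nat_lit 0xc80080010002000400080d2d83)))) 
(.nd (nat_lit 27) 
(.lf (nat_lit 1677828311) (dlOf (nat_lit 17) (nat_lit 0x6200980049204032004c00248020196026001238100c20130009140800a8098004460402d804c0020e020184026000fe0100c20130007e8080610098003f00400b804c001f702014a026000fa8100c20130007c8080610098003e204030c04c001f0020184026000f78101e2028809981400398096003c043005b01f80f780e805c8072001c033019b013800d808c044c03401000190025000000250680a580081a4400204fa0008090483))) 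
(.lf (nat_lit 3959529687) (dlOf (nat_lit 15) (nat_lit 0x140020000e381004a0100007180805300800038a04026c040001c3020026020000de81009b0100006800804000800031e04026c0400017c020136020000bd81009b0100005e80804d8080002f20401d404000178020136020000b7810139029808a814000a809800ec04200b701f802780e804ec06e0054033001701400010090045404200b6020010400e803f0060045402a012a005000500000025088000800801b800200460008090483))))))) 
(.nd (nat_lit 17) (.nd (nat_lit 32) (.nd (nat_lit 19) (.nd (nat_lit 7) (.nd (nat_lit 20) 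
(.lf (nat_lit 29728855) (dlOf (nat_lit 4) (nat_lit 0x1d91d00014010001c8e80006c0800264740000004002000200300008e30302))) 
(.lf (nat_lit 9805911) (dlOf (nat_lit 2) (nat_lit 0x67a880014c0800e00080004002000c0008580603)))) 
(.lf (nat_lit 20298455) (dlOf (nat_lit 1) (nat_lit 0x1000080004002003000089db983)))) 
(.nd (nat_lit 7) (.nd (nat_lit 20) 
(.lf (nat_lit 42836055) (dlOf (nat_lit 1) (nat_lit 0x800400040019280802))) 
(.lf (nat_lit 12427351) (dlOf (nat_lit 1) (nat_lit 0x15c00086c0001)))) 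
(.lf (nat_lit 19774167) (dlOf (nat_lit 1) (nat_lit 0x4002000200089db982))))) (.nd (nat_lit 26) 
(.nd (nat_lit 27) 
(.lf (nat_lit 4563771479) (dlOf (nat_lit 3) (nat_lit 0xf00520003202002203500050138000c41001d00080048002009e00080d0603))) 
(.nd (nat_lit 29) 
(.lf (nat_lit 4697989207) (dlOf (nat_lit 3) (nat_lit 0xf00520003302002203500050138000c81001d00080048002009e00080d0603))) 
(.lf (nat_lit 5234860119) (dlOf (nat_lit 2) (nat_lit 0x2201a000e00c800104100128008004800200180008100603))))) 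
(.nd (nat_lit 29) 
(.lf (nat_lit 6509928535) (dlOf (nat_lit 1) (nat_lit 0x8008004400200140008160903))) 
(.lf (nat_lit 4899315799) (dlOf (nat_lit 1) (nat_lit 0x4c004002a0018100602)))))) (.nd (nat_lit 29) 
(.nd (nat_lit 9) (.nd (nat_lit 7) (.nd (nat_lit 19) 
(.lf (nat_lit 21471319) (dlOf (nat_lit 1) (nat_lit 0x400400020008a40602))) 
(.lf (nat_lit 5773434967) (dlOf (nat_lit 1) (nat_lit 0x200180d1781)))) 
(.lf (nat_lit 42968279) (dlOf (nat_lit 2) (nat_lit 0xa73e001038280069ac4000760c0038004001000192a2d82)))) 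
(.nd (nat_lit 7) (.nd (nat_lit 19) 
(.lf (nat_lit 44542551) (dlOf (nat_lit 1) (nat_lit 0x20019325301))) 
(.lf (nat_lit 58698327) (dlOf (nat_lit 1) (nat_lit 0x600080048002001000097e5303)))) 
(.lf (nat_lit 8368855) (dlOf (nat_lit 1) (nat_lit 0x400200020008518c82))))) (.nd (nat_lit 7) 
(.nd (nat_lit 21) (.nd (nat_lit 22) 
(.lf (nat_lit 3892813911) (dlOf (nat_lit 2) (nat_lit 0x102d000064080008008000800200060008280303))) 
(.lf (nat_lit 2756157527) (dlOf (nat_lit 1) (nat_lit 0x1420008211781)))) 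
(.lf (nat_lit 1009229911) (dlOf (nat_lit 1) (nat_lit 0x9c004002000090a0802)))) (.nd (nat_lit 26) 
(.lf (nat_lit 805806295) (dlOf (nat_lit 2) (nat_lit 0x16f0168006805c001280800c4004009800081a0482))) 
(.lf (nat_lit 1678221527) (dlOf (nat_lit 2) (nat_lit 0x16f0168006805c001280800c4004009800081a0482)))))))) 
(.nd (nat_lit 17) (.nd (nat_lit 26) (.nd (nat_lit 28) (.nd (nat_lit 10) (.nd (nat_lit 20) 
(.nd (nat_lit 7) (.nd (nat_lit 18) 
(.lf (nat_lit 5905686871) (dlOf (nat_lit 18) (nat_lit 0x4a800000054020248000000298101240000001480801880440005a04045000000022020248000000108101240000000800809200000003c0401780000001d0202440000000e0100bb00000006c080920000000300402c8000000140202540000000881012a0000000400809200000001e040458022016800a00420000000001801700080310002034400080b0683))) 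
(.lf (nat_lit 21340503) (dlOf (nat_lit 2) (nat_lit 0x1c35100022018a34d00)))) 
(.lf (nat_lit 107479) (dlOf (nat_lit 1) (nat_lit 0x1c0018002881)))) (.nd (nat_lit 19) 
(.lf (nat_lit 3252567) (dlOf (nat_lit 2) (nat_lit 0x515600001c04002000200160008200682))) 
(.lf (nat_lit 12165463) (dlOf (nat_lit 1) (nat_lit 0x200186c0681))))) (.nd (nat_lit 7) 
(.nd (nat_lit 9) (.lf (nat_lit 107863) (dlOf (nat_lit 1) (nat_lit 0x20008003381))) 
(.lf (nat_lit 671197015) (dlOf (nat_lit 4) (nat_lit 0xc0140000301000100a0000140800380500008000000000400040018143f01)))) 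
(.lf (nat_lit 61449687) (dlOf (nat_lit 1) (nat_lit 0x100019923601))))) (.nd (nat_lit 27) 
(.nd (nat_lit 7) (.nd (nat_lit 29) 
(.lf (nat_lit 2416025943) (dlOf (nat_lit 1) (nat_lit 0x1000400100008014e02))) 
(.lf (nat_lit 805413207) (dlOf (nat_lit 7) (nat_lit 0x3ec09e01f00380008013000300600001c1003dc04c0000d0201f804f0027013000e8000000180c040c04c0000a020258026000048100d5027806c0100012404c01ae020002d000000000285858008037c00206a20008090683)))) 
(.lf (nat_lit 1342288855) (dlOf (nat_lit 1) (nat_lit 0x320028009201)))) (.nd (nat_lit 30) 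
(.lf (nat_lit 2550243671) (dlOf (nat_lit 2) (nat_lit 0x18044000440200020018014d01))) 
(.lf (nat_lit 1476501847) (dlOf (nat_lit 1) (nat_lit 0x40028010881)))))) (.nd (nat_lit 27) 
(.nd (nat_lit 30) (.nd (nat_lit 7) 
(.lf (nat_lit 6509666647) (dlOf (nat_lit 18) (nat_lit 0x4a800000054020248000000298101240000001480801880480005a04045000000022020248000000108101240000000800809200000003c0401780000001d0202440000000e0100bb00000006c080920000000300402c8000000140202540000000881012a0000000400809200000001e040458024016800a00420000000001801700080310002034400080b0683))) 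
(.lf (nat_lit 2483402711) (dlOf (nat_lit 1) (nat_lit 0x74002001c00080fa602)))) (.nd (nat_lit 29) 
(.lf (nat_lit 3288441175) (dlOf (nat_lit 2) (nat_lit 0x5403500029818014d00))) 
(.lf (nat_lit 1677828439) (dlOf (nat_lit 7) (nat_lit 0x3ec09e01f00380008013000300600001c1003dc04c0000d0201f804f0027013000e8000000180c040c04c0000a020258026000048100d5027806c0100012404c01ae020002d000000000285858008037c00206a20008090683))))) 
(.nd (nat_lit 11) 
(.lf (nat_lit 738304343) (dlOf (nat_lit 2) (nat_lit 0x1001800000080078008000800200240008090d83))) 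
(.nd (nat_lit 18) 
(.lf (nat_lit 201435479) (dlOf (nat_lit 1) (nat_lit 0x40008001c00200160008004e03))) 
(.lf (nat_lit 2886052183) (dlOf (nat_lit 1) (nat_lit 0x400200020008144e02))))))) (.nd (nat_lit 19) 
(.nd (nat_lit 18) (.nd (nat_lit 10) (.nd (nat_lit 26) 
(.lf (nat_lit 805544279) (dlOf (nat_lit 13) (nat_lit 0x2c6055015102700030128055806e001c0310160009000680400770014021e0060003489017502a80b101380324098008204a016401b8010009005d402400ae01001c3005007c8018000d02803fc0aa01fe04e00ff01b807f804804f80140104006000328600b202b00af815403b80a6029a04e010302600a880dc01d005e00b002b005d01200ae804803bc02003bc00a00f400400878018000883802bc0ac02d405500ec02980af013804080980052047016101b800a00d001c405e009002b002b0148027809005a402401d801001cc00500900020040000c0004222010a054004d026804200d80158060002402400230088000903005c015001f809a017204900b501b004380c0011804800f8011003400800008c4004281500003e0401f00a8001803000250088000781802980c00001a0400ec0600000a02008c04c010101a8000001008f800809c40020d340008124d03)))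 
(.lf (nat_lit 1677959511) (dlOf (nat_lit 4) (nat_lit 0x440140006702002200a000330100170050001000802a0008008c00200da0008124e03)))) 
(.nd (nat_lit 7) 
(.lf (nat_lit 2885920599) (dlOf (nat_lit 3) (nat_lit 0x701e8000180800300f40014000000000400020018143f01))) 
(.lf (nat_lit 5704492503) (dlOf (nat_lit 1) (nat_lit 0x400280d3601))))) (.nd (nat_lit 7) 
(.nd (nat_lit 26) 
(.lf (nat_lit 805806423) (dlOf (nat_lit 3) (nat_lit 0x57027802c00e0028404c0000e06016c04f005302580280100027c070013e02600350000000003002700080004002005e00081a0683))) 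
(.lf (nat_lit 1678221655) (dlOf (nat_lit 3) (nat_lit 0x57027802c00e0028404c0000e06016c04f005302580280100027c070013e02600350000000003002700080004002005e00081a0683)))) 
(.lf (nat_lit 472361431) (dlOf (nat_lit 1) (nat_lit 0x800400020008984e82))))) (.nd (nat_lit 7) 
(.nd (nat_lit 18) (.nd (nat_lit 9) 
(.lf (nat_lit 762199) (dlOf (nat_lit 1) (nat_lit 0x240028014e01))) 
(.lf (nat_lit 67875671) (dlOf (nat_lit 1) (nat_lit 0x20018338f81)))) (.nd (nat_lit 21) 
(.lf (nat_lit 2072919) (dlOf (nat_lit 2) (nat_lit 0x52c040001c04002000200160008150682))) 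
(.lf (nat_lit 16752983) (dlOf (nat_lit 1) (nat_lit 0x2000188e0881))))) (.nd (nat_lit 9) 
(.lf (nat_lit 69968343) (dlOf (nat_lit 1) (nat_lit 0x60400406580008e27b02))) (.nd (nat_lit 20) 
(.lf (nat_lit 55288791) (dlOf (nat_lit 1) (nat_lit 0x600196d2881))) 
(.lf (nat_lit 50045911) (dlOf (nat_lit 1) (nat_lit 0x800294c2881)))))))))) (.nd (nat_lit 17) 
(.nd (nat_lit 6) (.nd (nat_lit 8) (.nd (nat_lit 18) (.nd (nat_lit 28) (.nd (nat_lit 23) 
(.nd (nat_lit 7) (.nd (nat_lit 19) 
(.lf (nat_lit 2348916791) (dlOf (nat_lit 3) (nat_lit 0x1f003c001001a00040090002f83001100700012c0802d0008012c00200060008020683))) 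
(.lf (nat_lit 537501751) (dlOf (nat_lit 3) (nat_lit 0x201080015c08000817c00058040020004000400080a0a82)))) 
(.lf (nat_lit 134327479) (dlOf (nat_lit 2) (nat_lit 0x2004100023818006280)))) (.nd (nat_lit 21) 
(.lf (nat_lit 25272375) (dlOf (nat_lit 2) (nat_lit 0xe4279000e6818bf0b80))) 
(.lf (nat_lit 10592311) (dlOf (nat_lit 3) (nat_lit 0x14a5700025268000b41000429340002e04001c004001e0018600682))))) 
(.nd (nat_lit 9) (.nd (nat_lit 7) (.nd (nat_lit 19) 
(.lf (nat_lit 2483134519) (dlOf (nat_lit 3) (nat_lit 0x1f003c001001a00040080002f83001100700012c0802d0008012c00200060008020683))) 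
(.lf (nat_lit 1342808119) (dlOf (nat_lit 4) (nat_lit 0x6445e003e226000d1070008868c0008e10005c45e003c226000b1070007868c0008c1000144780026237002911780178898007041c00401a300090b88000e03802d80080050002050e00080d0b83)))) 
(.lf (nat_lit 1409395895) (dlOf (nat_lit 1) (nat_lit 0x9c0008006281)))) (.nd (nat_lit 7) 
(.nd (nat_lit 10) (.lf (nat_lit 2550243895) (dlOf (nat_lit 1) (nat_lit 0x60018018181))) 
(.lf (nat_lit 6241232439) (dlOf (nat_lit 4) (nat_lit 0x1300a0000b4080100050001400a0002a04002801400020028000081000a800800cc00200160008053783)))) 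
(.lf (nat_lit 1342289591) (dlOf (nat_lit 1) (nat_lit 0x2002800a001)))))) (.nd (nat_lit 31) 
(.nd (nat_lit 7) (.nd (nat_lit 19) (.nd (nat_lit 27) (.nd (nat_lit 20) 
(.lf (nat_lit 5905948727) (dlOf (nat_lit 1) (nat_lit 0x1280080108002002a0008160683))) 
(.lf (nat_lit 24485943) (dlOf (nat_lit 1) (nat_lit 0x40028ba0b01)))) (.nd (nat_lit 26) 
(.lf (nat_lit 671457335) (dlOf (nat_lit 3) (nat_lit 0xe0250057c81008600e002be00800900080024002002400081a0703))) 
(.lf (nat_lit 1543872567) (dlOf (nat_lit 3) (nat_lit 0xe025002a801008600d00153c0800900080024002002400081a0703))))) 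
(.nd (nat_lit 20) (.lf (nat_lit 42836023) (dlOf (nat_lit 1) (nat_lit 0xc00400020019280502))) 
(.lf (nat_lit 4038711) (dlOf (nat_lit 4) (nat_lit 0x34000001c1020028000000de81001102e8002500800d0008008800200220008270b83))))) 
(.nd (nat_lit 10) (.nd (nat_lit 11) 
(.lf (nat_lit 21340343) (dlOf (nat_lit 1) (nat_lit 0x400200020008a31702))) 
(.lf (nat_lit 8759479) (dlOf (nat_lit 1) (nat_lit 0x740008514901)))) 
(.lf (nat_lit 69051575) (dlOf (nat_lit 1) (nat_lit 0x200188a2c81))))) (.nd (nat_lit 21) 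
(.nd (nat_lit 26) (.nd (nat_lit 27) 
(.lf (nat_lit 2416287799) (dlOf (nat_lit 1) (nat_lit 0x80080008002000600080d0b83))) 
(.lf (nat_lit 2550505527) (dlOf (nat_lit 1) (nat_lit 0x80080008002000600080d0b83)))) 
(.lf (nat_lit 6509928503) (dlOf (nat_lit 1) (nat_lit 0x1280080108002002a0008160683)))) 
(.nd (nat_lit 26) 
(.lf (nat_lit 3492126775) (dlOf (nat_lit 3) (nat_lit 0xf8230000580401c41180002b02001e00080a0b81))) 
(.lf (nat_lit 2753929271) (dlOf (nat_lit 2) (nat_lit 0x2008900080440000b01000080080094002000200080a0a83))))))) 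
(.nd (nat_lit 26) (.nd (nat_lit 29) (.nd (nat_lit 7) (.nd (nat_lit 18) (.nd (nat_lit 31) 
(.lf (nat_lit 1073848631) (dlOf (nat_lit 1) (nat_lit 0x1b0008000400200020008014c03))) 
(.lf (nat_lit 3221332279) (dlOf (nat_lit 2) (nat_lit 0x402000012818090580)))) 
(.lf (nat_lit 21340471) (dlOf (nat_lit 5) (nat_lit 0x30d440154604005c6a200a570200083510052b01000c1a88013080801080080054002000a0008a34c03)))) 
(.nd (nat_lit 9) (.lf (nat_lit 7971255) (dlOf (nat_lit 1) (nat_lit 0x8008000400200020008511003))) 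
(.lf (nat_lit 4429560759) (dlOf (nat_lit 1) (nat_lit 0x800800040020002000811be03))))) 
(.nd (nat_lit 9) (.nd (nat_lit 30) 
(.lf (nat_lit 805413175) (dlOf (nat_lit 1) (nat_lit 0x20028090581))) 
(.lf (nat_lit 4026638647) (dlOf (nat_lit 1) (nat_lit 0x7c00400080008014c02)))) (.nd (nat_lit 7) 
(.lf (nat_lit 536979255) (dlOf (nat_lit 1) (nat_lit 0x940008003e01))) 
(.lf (nat_lit 536979383) (dlOf (nat_lit 1) (nat_lit 0x20018004381)))))) (.nd (nat_lit 28) 
(.nd (nat_lit 9) (.nd (nat_lit 27) (.nd (nat_lit 29) 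
(.lf (nat_lit 3288441143) (dlOf (nat_lit 1) (nat_lit 0x7c00400080008014c02))) 
(.lf (nat_lit 1677828407) (dlOf (nat_lit 1) (nat_lit 0x20028090581)))) 
(.lf (nat_lit 3959529783) (dlOf (nat_lit 2) (nat_lit 0x402000013018090580)))) (.nd (nat_lit 27) 
(.lf (nat_lit 5972797239) (dlOf (nat_lit 1) (nat_lit 0x400400020008143e02))) 
(.lf (nat_lit 201434935) (dlOf (nat_lit 1) (nat_lit 0x280008003e01))))) (.nd (nat_lit 9) 
(.nd (nat_lit 7) 
(.lf (nat_lit 1946263863) (dlOf (nat_lit 1) (nat_lit 0x1b0008000400200020008014c03))) 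
(.nd (nat_lit 10) (.lf (nat_lit 473803191) (dlOf (nat_lit 1) (nat_lit 0xc0004005c0018fa4e82))) 
(.lf (nat_lit 6241232311) (dlOf (nat_lit 5) (nat_lit 0x5e014000a0020007800c002c20c0004028001590200160020004e8100070010002380800680080008002000e0008053603))))) 
(.nd (nat_lit 10) (.lf (nat_lit 1409399735) (dlOf (nat_lit 1) (nat_lit 0x2002800be01))) 
(.lf (nat_lit 469870519) (dlOf (nat_lit 1) (nat_lit 0x80018004381)))))))) (.nd (nat_lit 7) 
(.nd (nat_lit 28) (.nd (nat_lit 21) (.nd (nat_lit 8) (.nd (nat_lit 9) 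
(.lf (nat_lit 47292535) (dlOf (nat_lit 2) (nat_lit 0xafc000000040004002000c00093c1182))) 
(.nd (nat_lit 10) (.lf (nat_lit 46246519) (dlOf (nat_lit 1) (nat_lit 0x20029385401))) 
(.lf (nat_lit 3355555447) (dlOf (nat_lit 1) (nat_lit 0x200180a9d01))))) (.nd (nat_lit 9) 
(.lf (nat_lit 37857655) (dlOf (nat_lit 1) (nat_lit 0x1800200f400090d4e82))) 
(.lf (nat_lit 8501111) (dlOf (nat_lit 1) (nat_lit 0x380080004002000e000851a303))))) 
(.nd (nat_lit 23) (.nd (nat_lit 24) 
(.lf (nat_lit 2753929335) (dlOf (nat_lit 5) (nat_lit 0x341100001802007e0880000b010007044000050080038220000020401b8004004a00080a1882))) 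
(.lf (nat_lit 19243127) (dlOf (nat_lit 1) (nat_lit 0x8008000400200020008970483)))) (.nd (nat_lit 8) 
(.lf (nat_lit 28680311) (dlOf (nat_lit 1) (nat_lit 0x400200020008da0482))) 
(.lf (nat_lit 61448567) (dlOf (nat_lit 2) (nat_lit 0xc0000005f019921000)))))) (.nd (nat_lit 18) 
(.nd (nat_lit 26) (.nd (nat_lit 27) 
(.lf (nat_lit 1342808183) (dlOf (nat_lit 2) (nat_lit 0x188f00000a040004004000200080d1882))) 
(.lf (nat_lit 5771993207) (dlOf (nat_lit 1) (nat_lit 0x23400400340008030c02)))) (.nd (nat_lit 19) 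
(.lf (nat_lit 5301706871) (dlOf (nat_lit 2) (nat_lit 0x201d000080080008008000400200080008030c03))) 
(.nd (nat_lit 21) 
(.lf (nat_lit 470392951) (dlOf (nat_lit 2) (nat_lit 0x188f00000a040004004000200080d1882))) 
(.lf (nat_lit 1009361015) (dlOf (nat_lit 1) (nat_lit 0x1000200120009121182)))))) (.nd (nat_lit 8) 
(.lf (nat_lit 3492126839) (dlOf (nat_lit 5) (nat_lit 0x341160001802007e08b0000b01000704580005008003822c000020401b8004004a00080a1882))) 
(.nd (nat_lit 11) (.lf (nat_lit 5772255607) (dlOf (nat_lit 1) (nat_lit 0x40002001c0008091002))) 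
(.lf (nat_lit 3490556279) (dlOf (nat_lit 1) (nat_lit 0x20018004e81))))))) (.nd (nat_lit 21) 
(.nd (nat_lit 28) (.nd (nat_lit 8) (.nd (nat_lit 30) 
(.lf (nat_lit 4429291767) (dlOf (nat_lit 1) (nat_lit 0x800400020008047782))) 
(.lf (nat_lit 1208066295) (dlOf (nat_lit 2) (nat_lit 0x2019800580080008008000c00200020008090a83)))) 
(.nd (nat_lit 9) (.lf (nat_lit 37857783) (dlOf (nat_lit 1) (nat_lit 0x4002008e00090d4f82))) 
(.nd (nat_lit 18) (.lf (nat_lit 4362183671) (dlOf (nat_lit 1) (nat_lit 0x400200020008002882))) 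
(.lf (nat_lit 34448375) (dlOf (nat_lit 1) (nat_lit 0x20018fb2881)))))) (.nd (nat_lit 9) 
(.nd (nat_lit 8) 
(.lf (nat_lit 6376497399) (dlOf (nat_lit 2) (nat_lit 0x3098800580080028008000400200040008090a83))) 
(.nd (nat_lit 10) 
(.lf (nat_lit 4026638839) (dlOf (nat_lit 1) (nat_lit 0x28008000400200060008017e03))) 
(.lf (nat_lit 3490033143) (dlOf (nat_lit 1) (nat_lit 0x20008006f81))))) (.nd (nat_lit 18) 
(.lf (nat_lit 5100381175) (dlOf (nat_lit 1) (nat_lit 0x20018052881))) 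
(.lf (nat_lit 4094010359) (dlOf (nat_lit 1) (nat_lit 0xa0018002881)))))) (.nd (nat_lit 8) 
(.nd (nat_lit 18) (.nd (nat_lit 19) 
(.lf (nat_lit 20029687) (dlOf (nat_lit 2) (nat_lit 0x166080013804000c004000400089d0a82))) 
(.lf (nat_lit 20553975) (dlOf (nat_lit 2) (nat_lit 0xe4900013804000c004000200089d0a82)))) 
(.nd (nat_lit 20) (.lf (nat_lit 23437559) (dlOf (nat_lit 1) (nat_lit 0x700008b80481))) 
(.lf (nat_lit 20291831) (dlOf (nat_lit 1) (nat_lit 0x4c004001400089d0a82))))) (.nd (nat_lit 9) 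
(.nd (nat_lit 10) (.nd (nat_lit 18) 
(.lf (nat_lit 49392119) (dlOf (nat_lit 1) (nat_lit 0x400200020009464f82))) 
(.lf (nat_lit 37595639) (dlOf (nat_lit 1) (nat_lit 0x4002000200090d4f82)))) 
(.lf (nat_lit 61449719) (dlOf (nat_lit 1) (nat_lit 0x140019923681)))) (.nd (nat_lit 11) 
(.lf (nat_lit 36807671) (dlOf (nat_lit 1) (nat_lit 0x20019072881))) 
(.lf (nat_lit 20032503) (dlOf (nat_lit 1) (nat_lit 0x1200189d5f01))))))))) (.nd (nat_lit 8) 
(.nd (nat_lit 18) (.nd (nat_lit 26) (.nd (nat_lit 21) (.nd (nat_lit 27) (.nd (nat_lit 23) 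
(.nd (nat_lit 9) (.lf (nat_lit 1342414903) (dlOf (nat_lit 1) (nat_lit 0x7000200d20008020682))) 
(.lf (nat_lit 4026769975) (dlOf (nat_lit 2) (nat_lit 0x15603200001018090f80)))) (.nd (nat_lit 19) 
(.lf (nat_lit 26452023) (dlOf (nat_lit 1) (nat_lit 0x48008002c00200280008c50483))) 
(.lf (nat_lit 59482167) (dlOf (nat_lit 1) (nat_lit 0x1400200060009800502))))) (.nd (nat_lit 6) 
(.lf (nat_lit 134455351) (dlOf (nat_lit 1) (nat_lit 0x1400200020008020682))) (.nd (nat_lit 10) 
(.lf (nat_lit 1208197367) (dlOf (nat_lit 1) (nat_lit 0x4000400020008090a82))) 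
(.lf (nat_lit 5234730231) (dlOf (nat_lit 1) (nat_lit 0xdc00080d2e81)))))) (.nd (nat_lit 6) 
(.nd (nat_lit 20) (.nd (nat_lit 28) 
(.lf (nat_lit 2859063) (dlOf (nat_lit 2) (nat_lit 0xa1f1000e08181c0b80))) 
(.lf (nat_lit 3492519991) (dlOf (nat_lit 2) (nat_lit 0x90f58007440800280080024002000800080d0b83)))) 
(.nd (nat_lit 19) 
(.lf (nat_lit 24354871) (dlOf (nat_lit 1) (nat_lit 0x18008000400200020008b90b83))) 
(.lf (nat_lit 45850679) (dlOf (nat_lit 2) (nat_lit 0x2af00000b808000800800c8002000c0009360503))))) 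
(.nd (nat_lit 7) 
(.lf (nat_lit 44277879) (dlOf (nat_lit 2) (nat_lit 0x219c800000040008004001800092e1182))) 
(.nd (nat_lit 20) (.lf (nat_lit 23306487) (dlOf (nat_lit 1) (nat_lit 0x340028b80481))) 
(.lf (nat_lit 20160759) (dlOf (nat_lit 1) (nat_lit 0x4002000200089d0a82))))))) (.nd (nat_lit 28) 
(.nd (nat_lit 7) (.nd (nat_lit 9) (.nd (nat_lit 19) 
(.lf (nat_lit 201564215) (dlOf (nat_lit 1) (nat_lit 0x1400200020008020682))) 
(.lf (nat_lit 2754322487) (dlOf (nat_lit 2) (nat_lit 0x90fe8007440800280080024002000800080d0b83)))) 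
(.lf (nat_lit 3288572471) (dlOf (nat_lit 2) (nat_lit 0x15603200001018090f80)))) (.nd (nat_lit 6) 
(.lf (nat_lit 1141088439) (dlOf (nat_lit 1) (nat_lit 0xd0008009c002004000080c1703))) 
(.lf (nat_lit 2752749815) (dlOf (nat_lit 1) (nat_lit 0x2c004000c0008047782))))) (.nd (nat_lit 6) 
(.nd (nat_lit 7) (.nd (nat_lit 12) 
(.lf (nat_lit 469999671) (dlOf (nat_lit 1) (nat_lit 0x7000200d20008020682))) 
(.lf (nat_lit 3154358327) (dlOf (nat_lit 1) (nat_lit 0x840018157c81)))) 
(.lf (nat_lit 3020136631) (dlOf (nat_lit 1) (nat_lit 0x8008000400200020008130303)))) 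
(.nd (nat_lit 7) (.nd (nat_lit 9) 
(.lf (nat_lit 2483265655) (dlOf (nat_lit 2) (nat_lit 0xe00800020038003d008001000400020008090082))) 
(.lf (nat_lit 5704492663) (dlOf (nat_lit 1) (nat_lit 0x4002004600080d3982)))) 
(.lf (nat_lit 1006870775) (dlOf (nat_lit 1) (nat_lit 0x18008000c002000200080c0483))))))) 
(.nd (nat_lit 30) (.nd (nat_lit 22) (.nd (nat_lit 20) (.nd (nat_lit 6) 
(.lf (nat_lit 17801271) (dlOf (nat_lit 1) (nat_lit 0x200188f1081))) 
(.lf (nat_lit 19898615) (dlOf (nat_lit 1) (nat_lit 0x4002000200089d0a82)))) (.nd (nat_lit 21) 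
(.lf (nat_lit 69181495) (dlOf (nat_lit 1) (nat_lit 0x2c004000200088c0502))) 
(.lf (nat_lit 20946999) (dlOf (nat_lit 1) (nat_lit 0x200189f0481))))) (.nd (nat_lit 23) 
(.nd (nat_lit 6) 
(.lf (nat_lit 21995575) (dlOf (nat_lit 8) (nat_lit 0x8606b8000805401c800000163060108000000ae01007f000000524080458000002840400fc2460090121004b06e8023835c006c07200aa01c004a00b800b805400b8000001311200140000009701000c5e600072ed400741ba00020d7001900e0024805c001c818006800402780018a80d02))) 
(.lf (nat_lit 38772983) (dlOf (nat_lit 1) (nat_lit 0x80080594002045a0009152483)))) 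
(.nd (nat_lit 19) 
(.lf (nat_lit 48734263) (dlOf (nat_lit 3) (nat_lit 0x6b9f0001d6a00005808000ee7c00075a8000383c0000ac180098008001c00200140009420503))) 
(.nd (nat_lit 20) 
(.lf (nat_lit 13606967) (dlOf (nat_lit 2) (nat_lit 0x77c63003bdeb00073410003800800a400201200008730b83))) 
(.lf (nat_lit 14655543) (dlOf (nat_lit 1) (nat_lit 0x400400020008770482))))))) (.nd (nat_lit 6) 
(.nd (nat_lit 7) (.lf (nat_lit 1343201335) (dlOf (nat_lit 1) (nat_lit 0x20018190481))) 
(.nd (nat_lit 27) (.lf (nat_lit 5906079927) (dlOf (nat_lit 1) (nat_lit 0x4004000200081a5202))) 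
(.lf (nat_lit 3624378551) (dlOf (nat_lit 1) (nat_lit 0x540028184f01))))) (.nd (nat_lit 7) 
(.nd (nat_lit 26) 
(.lf (nat_lit 3221725303) (dlOf (nat_lit 3) (nat_lit 0x808c0004043000fe82000402700010134003d008003000400200018170082))) 
(.lf (nat_lit 3959922807) (dlOf (nat_lit 3) (nat_lit 0x808c00040430010902000402700010134003f408003000400200018170082)))) 
(.nd (nat_lit 9) 
(.lf (nat_lit 6376366327) (dlOf (nat_lit 2) (nat_lit 0x509880028484002c008000c004000c0018090a82))) 
(.lf (nat_lit 1476897527) (dlOf (nat_lit 1) (nat_lit 0x8008000c002000200082d5a03)))))))) 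
(.nd (nat_lit 6) (.nd (nat_lit 26) (.nd (nat_lit 18) (.nd (nat_lit 29) (.nd (nat_lit 7) 
(.lf (nat_lit 9675063) (dlOf (nat_lit 2) (nat_lit 0x87f00025a818574c00))) (.nd (nat_lit 11) 
(.lf (nat_lit 8631223) (dlOf (nat_lit 1) (nat_lit 0x8008000400200020008519203))) 
(.lf (nat_lit 3221470135) (dlOf (nat_lit 1) (nat_lit 0xb0000811be01))))) (.nd (nat_lit 27) 
(.nd (nat_lit 28) 
(.lf (nat_lit 537108791) (dlOf (nat_lit 2) (nat_lit 0x1d0368013080800a0008002400200100008014c03))) 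
(.lf (nat_lit 805544247) (dlOf (nat_lit 10) (nat_lit 0x5a056002d0098012e01004180280096a0401880140044f02000204e0068005001108100310028008640401880140042c0200d200a0021381002c027001080dc00b002400c400a0021084000102a80330028007a20800c0004000e0008124c02)))) 
(.lf (nat_lit 671326519) (dlOf (nat_lit 3) (nat_lit 0x3801b0026101000200d8013040800b80080020002001a0008154c03))))) 
(.nd (nat_lit 11) (.nd (nat_lit 19) 
(.lf (nat_lit 805806391) (dlOf (nat_lit 1) (nat_lit 0x280080004002001800081a0583))) 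
(.nd (nat_lit 20) 
(.lf (nat_lit 3490685239) (dlOf (nat_lit 2) (nat_lit 0x502c8002c13c004600b000a002002958200080008008000200200008014c03))) 
(.lf (nat_lit 46113079) (dlOf (nat_lit 2) (nat_lit 0x1a3f000089080004000000000600020009380b81))))) 
(.nd (nat_lit 7) (.lf (nat_lit 19901239) (dlOf (nat_lit 1) (nat_lit 0x4002000200089d5c02))) 
(.nd (nat_lit 19) (.lf (nat_lit 40348087) (dlOf (nat_lit 1) (nat_lit 0xc00191f4e81))) 
(.lf (nat_lit 37726647) (dlOf (nat_lit 1) (nat_lit 0x200090d4e81))))))) (.nd (nat_lit 29) 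
(.nd (nat_lit 7) (.nd (nat_lit 9) (.nd (nat_lit 27) 
(.lf (nat_lit 1409524023) (dlOf (nat_lit 2) (nat_lit 0x1d03680295c0800a0008002400200100008014c03))) 
(.lf (nat_lit 1543741751) (dlOf (nat_lit 3) (nat_lit 0x380190052b81000200c8029580800b80080020002001a0008154c03)))) 
(.lf (nat_lit 67871543) (dlOf (nat_lit 1) (nat_lit 0x6800200040008332282)))) (.nd (nat_lit 11) 
(.lf (nat_lit 67875255) (dlOf (nat_lit 1) (nat_lit 0xe000400260008338582))) 
(.lf (nat_lit 202090935) (dlOf (nat_lit 1) (nat_lit 0x100080014002000600080f4e83))))) 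
(.nd (nat_lit 18) (.nd (nat_lit 7) (.nd (nat_lit 21) 
(.lf (nat_lit 1677959479) (dlOf (nat_lit 10) (nat_lit 0x5a056002d00980293410041802801494040188014009dd02000204e00680050027241003100280138e040188014009c10200d200a004db81002c027001080dc00b002400c400a004db04000102a80330028012cc0800c0004000e0008124c02))) 
(.lf (nat_lit 1008967991) (dlOf (nat_lit 5) (nat_lit 0x29c0c80000f0201400640000381009d03200000c0804f01900000004005400400160009000b82)))) 
(.lf (nat_lit 4899187639) (dlOf (nat_lit 1) (nat_lit 0x200180d5d01)))) (.nd (nat_lit 7) 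
(.nd (nat_lit 19) 
(.lf (nat_lit 1678221623) (dlOf (nat_lit 1) (nat_lit 0x280080004002001800081a0583))) 
(.lf (nat_lit 2752487735) (dlOf (nat_lit 2) (nat_lit 0x50388002c13c004600b000a002001304200080008008000200200008014c03)))) 
(.lf (nat_lit 4094142903) (dlOf (nat_lit 1) (nat_lit 0x1c0018004e81))))))) (.nd (nat_lit 7) 
(.nd (nat_lit 11) (.nd (nat_lit 9) (.nd (nat_lit 19) 
(.lf (nat_lit 4026769783) (dlOf (nat_lit 2) (nat_lit 0x5300c80000004000400400020008090782))) 
(.lf (nat_lit 8102263) (dlOf (nat_lit 2) (nat_lit 0x5cb18002f8080008008005000200020008511003)))) 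
(.nd (nat_lit 18) (.lf (nat_lit 67876727) (dlOf (nat_lit 1) (nat_lit 0x4001833a301))) 
(.lf (nat_lit 8370039) (dlOf (nat_lit 1) (nat_lit 0x40020002000851a302))))) (.nd (nat_lit 20) 
(.nd (nat_lit 18) (.lf (nat_lit 268675447) (dlOf (nat_lit 1) (nat_lit 0x200280e4e81))) 
(.lf (nat_lit 1476897143) (dlOf (nat_lit 1) (nat_lit 0x200182d4e81)))) (.nd (nat_lit 12) 
(.lf (nat_lit 36940151) (dlOf (nat_lit 1) (nat_lit 0x20019074e81))) 
(.lf (nat_lit 8108407) (dlOf (nat_lit 1) (nat_lit 0x6000851ae01)))))) (.nd (nat_lit 22) 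
(.nd (nat_lit 19) (.nd (nat_lit 9) (.nd (nat_lit 20) 
(.lf (nat_lit 1677959671) (dlOf (nat_lit 11) (nat_lit 0x4201080050080037602200d0007004a0030031400801a8000000348701630210008010006a801c01b400c00e4002008f8000000d0182ca408404f00220b8400705a680301fe000807860020b8d00000019c3808b810808b804402ea00e006e006809d803005b000802f20000003307008502100308100008407001f002601bb01100680038025c018005a00b01030020064800802e0000000441602b404201a5007004d0010000840c29a808408de0220ac500702d800100008210034008400e004001e60110096003803bc018007400b014100200b70008049400000040120bf605101b00280017812c179c074031001a00011050002028800100e80003a080d7c0020c340008127e02))) 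
(.lf (nat_lit 9675255) (dlOf (nat_lit 3) (nat_lit 0x5a3ac009cff600707e600373d700009eb400e0f2e002a78000373bc80089de000e07cc00743e50002f0b00403d700059eb40014ef000ae3e600431f28001702801b00080130002007a0008577e03)))) 
(.lf (nat_lit 604480503) (dlOf (nat_lit 1) (nat_lit 0x19c00082d2881)))) (.nd (nat_lit 11) 
(.nd (nat_lit 18) (.lf (nat_lit 762359) (dlOf (nat_lit 1) (nat_lit 0x400200040008017e02))) 
(.lf (nat_lit 2752487927) (dlOf (nat_lit 2) (nat_lit 0x440b20000b018017e00)))) 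
(.lf (nat_lit 37464567) (dlOf (nat_lit 1) (nat_lit 0x4002000200090d4f82))))) (.nd (nat_lit 11) 
(.nd (nat_lit 9) (.lf (nat_lit 8102391) (dlOf (nat_lit 1) (nat_lit 0xa0028511401))) 
(.lf (nat_lit 38511607) (dlOf (nat_lit 1) (nat_lit 0x400009132881)))) (.nd (nat_lit 18) 
(.nd (nat_lit 20) (.lf (nat_lit 48998903) (dlOf (nat_lit 1) (nat_lit 0x400400020009464f82))) 
(.lf (nat_lit 47950327) (dlOf (nat_lit 1) (nat_lit 0x20019404f81)))) 
(.lf (nat_lit 38250999) (dlOf (nat_lit 1) (nat_lit 0x800400040009134f82))))))))))))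

end

end Pool.Agent.Lib.MP_5854e1_co.Cz
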