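import Pool.Agent.Lib.MP_5854e1_co.DecRow

/-!
# Sparse corrections
-/

set_option autoImplicit false
set_option maxRecDepth 100000

namespace Pool.Agent.Lib.MP_5854e1_co.Cz

noncomputable section

noncomputable def tz28 : DT := (.nd (nat_lit 16) (.nd (nat_lit 15) (.nd (nat_lit 7) 
(.nd (nat_lit 5) (.nd (nat_lit 28) (.nd (nat_lit 19) (.nd (nat_lit 26) (.nd (nat_lit 22) 
(.nd (nat_lit 8) (.nd (nat_lit 6) (.nd (nat_lit 9) (.nd (nat_lit 20) 
(.lf (nat_lit 10485788) (dlOf (nat_lit 3) (nat_lit 0x87b20003f02006877e00043a600061cbc00ec7b20003d08000600185e0b01))) 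
(.lf (nat_lit 11534364) (dlOf (nat_lit 2) (nat_lit 0x2071500a898186b0500)))) 
(.lf (nat_lit 3146268) (dlOf (nat_lit 1) (nat_lit 0xc00200060008200d82)))) (.nd (nat_lit 9) 
(.lf (nat_lit 6236) (dlOf (nat_lit 1) (nat_lit 0x800800040020002000800a783))) 
(.lf (nat_lit 2818839132) (dlOf (nat_lit 1) (nat_lit 0x8008000400200020008128983))))) 
(.nd (nat_lit 9) (.nd (nat_lit 20) 
(.lf (nat_lit 5368709404) (dlOf (nat_lit 1) (nat_lit 0xac00200020008000a82))) 
(.lf (nat_lit 1048860) (dlOf (nat_lit 1) (nat_lit 0x400400020008068002)))) 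
(.lf (nat_lit 2818841372) (dlOf (nat_lit 3) (nat_lit 0x500440006a020070036000201100002c10001000800d80020054000812bb83))))) 
(.nd (nat_lit 6) (.nd (nat_lit 21) (.nd (nat_lit 23) 
(.lf (nat_lit 20971548) (dlOf (nat_lit 2) (nat_lit 0x180000004102004800189f0101))) 
(.lf (nat_lit 29360156) (dlOf (nat_lit 1) (nat_lit 0x400200020008df0482)))) (.nd (nat_lit 18) 
(.lf (nat_lit 23068700) (dlOf (nat_lit 3) (nat_lit 0x853800478040010274002370200100008b50481))) 
(.lf (nat_lit 15990812) (dlOf (nat_lit 2) (nat_lit 0x14e14005f50200040018850681))))) 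
(.nd (nat_lit 10) (.nd (nat_lit 18) 
(.lf (nat_lit 12583004) (dlOf (nat_lit 2) (nat_lit 0x2e0000000a0186d1200))) 
(.lf (nat_lit 24379484) (dlOf (nat_lit 1) (nat_lit 0x160018b91201)))) 
(.lf (nat_lit 37749852) (dlOf (nat_lit 1) (nat_lit 0x80080008002000200090d2903)))))) 
(.nd (nat_lit 8) (.nd (nat_lit 6) (.nd (nat_lit 9) (.nd (nat_lit 10) 
(.lf (nat_lit 67371036) (dlOf (nat_lit 1) (nat_lit 0x1200080f0101))) 
(.lf (nat_lit 738462748) (dlOf (nat_lit 1) (nat_lit 0x2a0018096001)))) 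
(.lf (nat_lit 4362082844) (dlOf (nat_lit 1) (nat_lit 0x1800800040020002000800b283)))) 
(.nd (nat_lit 9) (.lf (nat_lit 2751469660) (dlOf (nat_lit 1) (nat_lit 0x480020224000800a782))) 
(.lf (nat_lit 5435819612) (dlOf (nat_lit 1) (nat_lit 0x400400080008003902))))) (.nd (nat_lit 6) 
(.nd (nat_lit 11) (.nd (nat_lit 18) 
(.lf (nat_lit 5033165084) (dlOf (nat_lit 1) (nat_lit 0x8008009000200020008000a83))) 
(.lf (nat_lit 738459932) (dlOf (nat_lit 3) (nat_lit 0x5006a0015602004003500066818090a80)))) 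
(.lf (nat_lit 2751465756) (dlOf (nat_lit 1) (nat_lit 0x100028004b81)))) (.nd (nat_lit 12) 
(.lf (nat_lit 2752774492) (dlOf (nat_lit 1) (nat_lit 0x800400020018048d02))) 
(.lf (nat_lit 67113308) (dlOf (nat_lit 1) (nat_lit 0x48008002000200120008008383))))))) 
(.nd (nat_lit 6) (.nd (nat_lit 18) (.nd (nat_lit 20) (.nd (nat_lit 26) (.nd (nat_lit 9) 
(.nd (nat_lit 22) 
(.lf (nat_lit 1611137052) (dlOf (nat_lit 4) (nat_lit 0xb00a00055c0800100340023604002801a0011802002e00080f0a81))) 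
(.lf (nat_lit 55050268) (dlOf (nat_lit 1) (nat_lit 0x20019690081)))) 
(.lf (nat_lit 8918556) (dlOf (nat_lit 1) (nat_lit 0x40018519c01)))) (.nd (nat_lit 27) 
(.lf (nat_lit 4362600476) (dlOf (nat_lit 1) (nat_lit 0x118008000c002002000080a0903))) 
(.lf (nat_lit 738721820) (dlOf (nat_lit 4) (nat_lit 0xb00a0005480800100340023604002801a0011802002e00080f0a81))))) 
(.nd (nat_lit 21) 
(.lf (nat_lit 9961500) (dlOf (nat_lit 4) (nat_lit 0x94ac0015502000aa56000852680055010008a95c00270040078002001600085a0a82))) 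
(.lf (nat_lit 37224476) (dlOf (nat_lit 1) (nat_lit 0x8c00090c0601))))) (.nd (nat_lit 20) 
(.nd (nat_lit 21) 
(.lf (nat_lit 2819358748) (dlOf (nat_lit 6) (nat_lit 0x1ba06f000201a0014881006481bc007d80401580de003e00200fa06f001ef81000203780062c080078008000400200180008250483))) 
(.lf (nat_lit 11272220) (dlOf (nat_lit 1) (nat_lit 0x400400520008680482)))) (.nd (nat_lit 9) 
(.lf (nat_lit 22806556) (dlOf (nat_lit 1) (nat_lit 0x60008b30481))) 
(.lf (nat_lit 8133148) (dlOf (nat_lit 1) (nat_lit 0x8008000c0020002000851b283)))))) 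
(.nd (nat_lit 25) (.nd (nat_lit 26) (.nd (nat_lit 10) 
(.lf (nat_lit 134742108) (dlOf (nat_lit 4) (nat_lit 0x4006e002c019007900a800080280005a100034090017402d00210140064007c05a002a018000a0001006000700a8000780806e0008067c00200fa00080a1203))) 
(.lf (nat_lit 537660508) (dlOf (nat_lit 1) (nat_lit 0x28002000a00080f6082)))) (.nd (nat_lit 27) 
(.lf (nat_lit 4362600540) (dlOf (nat_lit 1) (nat_lit 0x200280a1201))) 
(.lf (nat_lit 201850972) (dlOf (nat_lit 4) (nat_lit 0x4006e002c01a007900b000080280002e100034090017402d00210140064008005a002c018000a0000506000700b0000200806e0008067c00200fa00080a1203))))) 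
(.nd (nat_lit 8) (.nd (nat_lit 10) 
(.lf (nat_lit 41418844) (dlOf (nat_lit 1) (nat_lit 0x800400060009240082))) 
(.lf (nat_lit 38536284) (dlOf (nat_lit 1) (nat_lit 0x40019132901)))) 
(.lf (nat_lit 60296028) (dlOf (nat_lit 1) (nat_lit 0x20019845c01))))))) (.nd (nat_lit 27) 
(.nd (nat_lit 18) (.nd (nat_lit 6) (.nd (nat_lit 8) (.nd (nat_lit 10) (.nd (nat_lit 21) 
(.lf (nat_lit 1343750172) (dlOf (nat_lit 2) (nat_lit 0x205940002e04000400400040018360602))) 
(.lf (nat_lit 3493330972) (dlOf (nat_lit 2) (nat_lit 0x2819c001008200a8b0400020018110481)))) 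
(.lf (nat_lit 2952795164) (dlOf (nat_lit 1) (nat_lit 0xa40018009201)))) (.nd (nat_lit 11) 
(.lf (nat_lit 6710886684) (dlOf (nat_lit 1) (nat_lit 0x9000200020008000a82))) 
(.lf (nat_lit 1342183708) (dlOf (nat_lit 2) (nat_lit 0xa09d0001001800ab00))))) (.nd (nat_lit 11) 
(.nd (nat_lit 20) 
(.lf (nat_lit 1346371932) (dlOf (nat_lit 2) (nat_lit 0x30490000e0080018008000400200020008f60e03))) 
(.lf (nat_lit 3490709852) (dlOf (nat_lit 3) (nat_lit 0x10338001019800080c2000403f0001404000201f8000940800b8008004800200040008014e83)))) 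
(.lf (nat_lit 4026538332) (dlOf (nat_lit 1) (nat_lit 0x2c002800ab81))))) (.nd (nat_lit 6) 
(.nd (nat_lit 29) (.nd (nat_lit 8) (.nd (nat_lit 19) 
(.lf (nat_lit 1343488028) (dlOf (nat_lit 1) (nat_lit 0x1c00200040008260682))) 
(.lf (nat_lit 3557556252) (dlOf (nat_lit 3) (nat_lit 0xd80680050002000a0340027f818260480)))) 
(.lf (nat_lit 268697884) (dlOf (nat_lit 2) (nat_lit 0xe020000398180e0a80)))) (.nd (nat_lit 9) 
(.lf (nat_lit 4026794012) (dlOf (nat_lit 1) (nat_lit 0x4000400200008090002))) 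
(.lf (nat_lit 4026794524) (dlOf (nat_lit 11) (nat_lit 0x18036000d01a000600ac002d20c001c06c0004034000b402000501b00059c0800800d800400560016604003002b000b181000801a80031c0800580d800300680001d04000e036000701a0000701000480d8002c0680001b040016036000c01a0000681001b800801a400200100008090d83))))) 
(.nd (nat_lit 9) (.nd (nat_lit 10) 
(.lf (nat_lit 1410078812) (dlOf (nat_lit 5) (nat_lit 0x401dc00180ec000a0000010d03000703b800281d800100e200080700004031800281840014000002150e000a07700040330008201000281dc00400040024004000400180fa782))) 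
(.lf (nat_lit 1345586268) (dlOf (nat_lit 1) (nat_lit 0x160008d72901)))) 
(.lf (nat_lit 5704517212) (dlOf (nat_lit 1) (nat_lit 0xc00180d3901)))))) (.nd (nat_lit 29) 
(.nd (nat_lit 18) (.nd (nat_lit 8) (.nd (nat_lit 6) 
(.lf (nat_lit 469768732) (dlOf (nat_lit 1) (nat_lit 0x40040002000800b282))) 
(.lf (nat_lit 1476400220) (dlOf (nat_lit 1) (nat_lit 0x20008009381)))) (.nd (nat_lit 9) 
(.lf (nat_lit 4764729628) (dlOf (nat_lit 1) (nat_lit 0x20008000a81))) 
(.lf (nat_lit 3623880476) (dlOf (nat_lit 1) (nat_lit 0x20028003c81))))) (.nd (nat_lit 19) 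
(.nd (nat_lit 20) (.lf (nat_lit 3691249692) (dlOf (nat_lit 1) (nat_lit 0xc004000800180e0682))) 
(.lf (nat_lit 471072796) (dlOf (nat_lit 1) (nat_lit 0x800200020008260682)))) (.nd (nat_lit 26) 
(.lf (nat_lit 5773197340) (dlOf (nat_lit 3) (nat_lit 0x100ae80010c0800a04bc00076040004004000a00080b0102))) 
(.lf (nat_lit 471597084) (dlOf (nat_lit 1) (nat_lit 0x20008350681)))))) (.nd (nat_lit 8) 
(.nd (nat_lit 10) (.nd (nat_lit 6) (.nd (nat_lit 18) 
(.lf (nat_lit 4228382748) (dlOf (nat_lit 1) (nat_lit 0x118008000c002002000080a0903))) 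
(.lf (nat_lit 6377177116) (dlOf (nat_lit 3) (nat_lit 0x100a600010c0800a048000076040004004000a00080b0102)))) 
(.lf (nat_lit 4228382812) (dlOf (nat_lit 1) (nat_lit 0x200280a1201)))) (.nd (nat_lit 9) 
(.lf (nat_lit 2013269020) (dlOf (nat_lit 1) (nat_lit 0x7000400040018006002))) 
(.lf (nat_lit 4227862044) (dlOf (nat_lit 1) (nat_lit 0x20018007101))))) (.nd (nat_lit 10) 
(.nd (nat_lit 9) (.nd (nat_lit 26) 
(.lf (nat_lit 2013266204) (dlOf (nat_lit 1) (nat_lit 0x400400020008000a82))) 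
(.lf (nat_lit 5301600540) (dlOf (nat_lit 1) (nat_lit 0x20008000a81)))) 
(.lf (nat_lit 5301603100) (dlOf (nat_lit 1) (nat_lit 0x38008000400200040008005c03)))) 
(.nd (nat_lit 6) (.lf (nat_lit 4161017116) (dlOf (nat_lit 1) (nat_lit 0x2a00180a9701))) 
(.lf (nat_lit 1008207196) (dlOf (nat_lit 1) (nat_lit 0x400400020008b03402))))))))) 
(.nd (nat_lit 18) (.nd (nat_lit 10) (.nd (nat_lit 19) (.nd (nat_lit 6) (.nd (nat_lit 8) 
(.nd (nat_lit 9) (.lf (nat_lit 472907836) (dlOf (nat_lit 1) (nat_lit 0x8008000400200020008b50003))) 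
(.lf (nat_lit 603984444) (dlOf (nat_lit 1) (nat_lit 0x20008008981)))) (.nd (nat_lit 9) 
(.lf (nat_lit 54526268) (dlOf (nat_lit 1) (nat_lit 0xc00200060009650b82))) (.nd (nat_lit 11) 
(.lf (nat_lit 3422552892) (dlOf (nat_lit 1) (nat_lit 0x1c0028002301))) 
(.lf (nat_lit 19925820) (dlOf (nat_lit 1) (nat_lit 0x4002000200089d5c02)))))) (.nd (nat_lit 20) 
(.nd (nat_lit 9) (.nd (nat_lit 26) 
(.lf (nat_lit 3491758204) (dlOf (nat_lit 1) (nat_lit 0x400200020008090082))) 
(.lf (nat_lit 2753560700) (dlOf (nat_lit 1) (nat_lit 0x400200020008090082)))) 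
(.lf (nat_lit 1476399740) (dlOf (nat_lit 1) (nat_lit 0x1a0018008a81)))) (.nd (nat_lit 8) 
(.lf (nat_lit 47186044) (dlOf (nat_lit 1) (nat_lit 0x200193b0c81))) 
(.lf (nat_lit 5772411260) (dlOf (nat_lit 1) (nat_lit 0x120018091001)))))) (.nd (nat_lit 30) 
(.nd (nat_lit 20) (.nd (nat_lit 21) (.nd (nat_lit 26) 
(.lf (nat_lit 134742076) (dlOf (nat_lit 4) (nat_lit 0x4880760003202024603b0001181008201d8000880800780080024002001800080a0c83))) 
(.lf (nat_lit 201850940) (dlOf (nat_lit 4) (nat_lit 0x4880760001a02024603b0000581008201d8000280800780080024002001800080a0c83)))) 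
(.lf (nat_lit 19398716) (dlOf (nat_lit 2) (nat_lit 0xe4c500010018990c80)))) (.nd (nat_lit 8) 
(.lf (nat_lit 30933052) (dlOf (nat_lit 2) (nat_lit 0x2a680000e818e50c80))) 
(.lf (nat_lit 60293436) (dlOf (nat_lit 1) (nat_lit 0x9f0008047400201700009840b83))))) 
(.nd (nat_lit 6) 
(.lf (nat_lit 3221749820) (dlOf (nat_lit 2) (nat_lit 0x1c08c00d520200040018170001))) 
(.nd (nat_lit 8) (.nd (nat_lit 26) 
(.lf (nat_lit 3221749884) (dlOf (nat_lit 3) (nat_lit 0x8118003f40400240aa001ed0200020028170081))) 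
(.lf (nat_lit 3959947388) (dlOf (nat_lit 3) (nat_lit 0x81180041e0400240aa001ff0200020028170081)))) 
(.lf (nat_lit 3490187644) (dlOf (nat_lit 1) (nat_lit 0x20018004e81))))))) (.nd (nat_lit 8) 
(.nd (nat_lit 9) (.nd (nat_lit 6) (.nd (nat_lit 11) 
(.lf (nat_lit 41944124) (dlOf (nat_lit 1) (nat_lit 0x20029242881))) 
(.lf (nat_lit 3489664060) (dlOf (nat_lit 1) (nat_lit 0x260028006081)))) 
(.lf (nat_lit 603985020) (dlOf (nat_lit 1) (nat_lit 0x24002001e0008009482)))) (.nd (nat_lit 12) 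
(.nd (nat_lit 26) (.lf (nat_lit 1744832124) (dlOf (nat_lit 1) (nat_lit 0x800200160008003982))) 
(.lf (nat_lit 335545980) (dlOf (nat_lit 1) (nat_lit 0x2d8008022c00200da0008003983)))) 
(.nd (nat_lit 27) (.lf (nat_lit 2684360316) (dlOf (nat_lit 1) (nat_lit 0x400400020008009d82))) 
(.lf (nat_lit 2281707132) (dlOf (nat_lit 1) (nat_lit 0x400400020008009d82)))))) (.nd (nat_lit 11) 
(.nd (nat_lit 6) (.nd (nat_lit 9) 
(.lf (nat_lit 604505404) (dlOf (nat_lit 1) (nat_lit 0xc002001e00082d3282))) 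
(.lf (nat_lit 530236) (dlOf (nat_lit 1) (nat_lit 0x2002800a101)))) 
(.lf (nat_lit 3690993020) (dlOf (nat_lit 1) (nat_lit 0x28008000400200040008009903)))) 
(.nd (nat_lit 27) (.nd (nat_lit 26) (.nd (nat_lit 28) 
(.lf (nat_lit 4294970684) (dlOf (nat_lit 1) (nat_lit 0x400400020008006902))) 
(.lf (nat_lit 1879051580) (dlOf (nat_lit 1) (nat_lit 0x400400020008006902)))) 
(.lf (nat_lit 3288337724) (dlOf (nat_lit 1) (nat_lit 0x20028006901)))) (.nd (nat_lit 28) 
(.lf (nat_lit 134221116) (dlOf (nat_lit 1) (nat_lit 0x8008000400200020008006903))) 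
(.lf (nat_lit 2550140220) (dlOf (nat_lit 1) (nat_lit 0x400400020008006902)))))))) (.nd (nat_lit 27) 
(.nd (nat_lit 8) (.nd (nat_lit 9) (.nd (nat_lit 19) (.nd (nat_lit 20) 
(.lf (nat_lit 3825467452) (dlOf (nat_lit 1) (nat_lit 0x60008160701))) 
(.lf (nat_lit 1310780) (dlOf (nat_lit 1) (nat_lit 0x400180b0701)))) (.nd (nat_lit 20) 
(.lf (nat_lit 21758012) (dlOf (nat_lit 4) (nat_lit 0x14a0000001f0100330000000dc0800880000000004001400200060008a70702))) 
(.lf (nat_lit 20709436) (dlOf (nat_lit 1) (nat_lit 0x200189d0001))))) (.nd (nat_lit 6) 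
(.lf (nat_lit 1881410108) (dlOf (nat_lit 2) (nat_lit 0x1c1c4000a07a000b03c00017c180028008004c00200660008f05203))) 
(.nd (nat_lit 23) 
(.lf (nat_lit 5637408380) (dlOf (nat_lit 2) (nat_lit 0x5002c00280120014007800300040001c100004004000400080d3982))) 
(.lf (nat_lit 8652412) (dlOf (nat_lit 2) (nat_lit 0xd09840000e0200020008513981)))))) 
(.nd (nat_lit 9) (.nd (nat_lit 20) (.nd (nat_lit 26) 
(.lf (nat_lit 5905842492) (dlOf (nat_lit 1) (nat_lit 0x760004020c0008154c02))) 
(.lf (nat_lit 6509822268) (dlOf (nat_lit 1) (nat_lit 0x760004020c0008154c02)))) 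
(.lf (nat_lit 2752774460) (dlOf (nat_lit 2) (nat_lit 0xb059000010080070008000c00200120008048503)))) 
(.nd (nat_lit 11) (.lf (nat_lit 8127292) (dlOf (nat_lit 1) (nat_lit 0x28008001000200060008512303))) 
(.lf (nat_lit 2754878268) (dlOf (nat_lit 1) (nat_lit 0xf000800b4002008800080fbc83)))))) 
(.nd (nat_lit 26) (.nd (nat_lit 28) (.nd (nat_lit 8) (.nd (nat_lit 29) 
(.lf (nat_lit 134479932) (dlOf (nat_lit 2) (nat_lit 0x5c0620014302000c0018030d01))) 
(.lf (nat_lit 671350844) (dlOf (nat_lit 1) (nat_lit 0x80008160701)))) 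
(.lf (nat_lit 3892576572) (dlOf (nat_lit 1) (nat_lit 0x80028160701)))) (.nd (nat_lit 6) 
(.lf (nat_lit 3087269948) (dlOf (nat_lit 1) (nat_lit 0x60008160701))) (.nd (nat_lit 8) 
(.lf (nat_lit 4161017468) (dlOf (nat_lit 1) (nat_lit 0xa00180a9d81))) 
(.lf (nat_lit 4161012604) (dlOf (nat_lit 1) (nat_lit 0xe00180a2581)))))) (.nd (nat_lit 9) 
(.nd (nat_lit 20) (.nd (nat_lit 28) 
(.lf (nat_lit 201588796) (dlOf (nat_lit 2) (nat_lit 0x5c0620014302000c0018030d01))) 
(.lf (nat_lit 1543766076) (dlOf (nat_lit 1) (nat_lit 0x80008160701)))) 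
(.lf (nat_lit 473169980) (dlOf (nat_lit 1) (nat_lit 0x8008000400200020008d70003)))) 
(.nd (nat_lit 6) 
(.lf (nat_lit 4496558908) (dlOf (nat_lit 1) (nat_lit 0x1480080004002002400080e5c03))) 
(.nd (nat_lit 8) 
(.lf (nat_lit 6375605884) (dlOf (nat_lit 1) (nat_lit 0x8008000800200020008003983))) 
(.lf (nat_lit 1008470908) (dlOf (nat_lit 1) (nat_lit 0x20018c95c01)))))))))) (.nd (nat_lit 9) 
(.nd (nat_lit 10) (.nd (nat_lit 5) (.nd (nat_lit 6) (.nd (nat_lit 26) (.nd (nat_lit 27) 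
(.nd (nat_lit 19) (.nd (nat_lit 28) 
(.lf (nat_lit 1074004124) (dlOf (nat_lit 2) (nat_lit 0x40052001002600017828090180))) 
(.lf (nat_lit 4563665052) (dlOf (nat_lit 1) (nat_lit 0x3000280c1281)))) 
(.lf (nat_lit 3491496092) (dlOf (nat_lit 3) (nat_lit 0x9808c0001781007a0460000b8080038008001400200080008090183)))) 
(.nd (nat_lit 11) (.lf (nat_lit 4697882780) (dlOf (nat_lit 1) (nat_lit 0x3000280c1281))) 
(.lf (nat_lit 1476401308) (dlOf (nat_lit 1) (nat_lit 0x30000800a881))))) (.nd (nat_lit 19) 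
(.nd (nat_lit 8) 
(.lf (nat_lit 1946419356) (dlOf (nat_lit 2) (nat_lit 0x40052001002600017828090180))) 
(.lf (nat_lit 3288596892) (dlOf (nat_lit 5) (nat_lit 0x2a5017015300b401140500522027003a084024a017001d00080f280b8074404e007370403f003600100170000001003a0008032400200120008090783)))) 
(.nd (nat_lit 18) 
(.lf (nat_lit 1409810588) (dlOf (nat_lit 2) (nat_lit 0x1f0168003009c002c0060002f0600040018090181))) 
(.lf (nat_lit 2753298588) (dlOf (nat_lit 2) (nat_lit 0x24022400081100002f0400040028090181)))))) 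
(.nd (nat_lit 12) (.nd (nat_lit 19) (.nd (nat_lit 22) 
(.lf (nat_lit 18874588) (dlOf (nat_lit 1) (nat_lit 0x8008000400200020008970583))) 
(.lf (nat_lit 6291676) (dlOf (nat_lit 1) (nat_lit 0x60028420581)))) 
(.lf (nat_lit 28836060) (dlOf (nat_lit 1) (nat_lit 0x70008000400200020008da0583)))) 
(.nd (nat_lit 8) (.nd (nat_lit 19) 
(.lf (nat_lit 2818838748) (dlOf (nat_lit 1) (nat_lit 0x6c00200040008128082))) 
(.lf (nat_lit 8130780) (dlOf (nat_lit 1) (nat_lit 0x400400040018518082)))) 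
(.lf (nat_lit 2751470044) (dlOf (nat_lit 1) (nat_lit 0x2002800b281)))))) (.nd (nat_lit 6) 
(.nd (nat_lit 19) (.nd (nat_lit 8) (.nd (nat_lit 12) 
(.lf (nat_lit 5436080316) (dlOf (nat_lit 1) (nat_lit 0x1c00280c1a01))) 
(.lf (nat_lit 4284) (dlOf (nat_lit 1) (nat_lit 0x170008001800200240008007e83)))) (.nd (nat_lit 18) 
(.lf (nat_lit 3154117052) (dlOf (nat_lit 1) (nat_lit 0x8008000400200020008001083))) 
(.lf (nat_lit 41157052) (dlOf (nat_lit 1) (nat_lit 0x100019227001))))) (.nd (nat_lit 20) 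
(.nd (nat_lit 26) 
(.lf (nat_lit 1342702012) (dlOf (nat_lit 3) (nat_lit 0x181280004a020046094000208180c0880))) 
(.lf (nat_lit 470286780) (dlOf (nat_lit 3) (nat_lit 0x181280004a020046094000208180c0880)))) 
(.nd (nat_lit 18) (.nd (nat_lit 21) 
(.lf (nat_lit 43516348) (dlOf (nat_lit 1) (nat_lit 0x80080004002000200092a1083))) 
(.lf (nat_lit 58196412) (dlOf (nat_lit 1) (nat_lit 0x1000197c7001)))) 
(.lf (nat_lit 1835452) (dlOf (nat_lit 1) (nat_lit 0x80018150881)))))) (.nd (nat_lit 26) 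
(.nd (nat_lit 8) (.nd (nat_lit 19) 
(.lf (nat_lit 5368709372) (dlOf (nat_lit 1) (nat_lit 0x400400020008000a82))) 
(.lf (nat_lit 1345847548) (dlOf (nat_lit 2) (nat_lit 0x1d0a7800c03dc0029e08006c00400220018e02902)))) 
(.nd (nat_lit 12) 
(.lf (nat_lit 3490710012) (dlOf (nat_lit 6) (nat_lit 0x1640cc00b6061004c02000180088014a21002440cc012a061006b020001500880149e1001a808000a460200ce040005228100170200028f008013800800e800200aa0008017803))) 
(.lf (nat_lit 1476399612) (dlOf (nat_lit 1) (nat_lit 0x20028008681))))) (.nd (nat_lit 11) 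
(.nd (nat_lit 28) (.lf (nat_lit 5033165052) (dlOf (nat_lit 1) (nat_lit 0x400400020018000a82))) 
(.lf (nat_lit 4764729596) (dlOf (nat_lit 1) (nat_lit 0x400400020008000a82)))) 
(.lf (nat_lit 2751465724) (dlOf (nat_lit 1) (nat_lit 0x80028004b81))))))) (.nd (nat_lit 8) 
(.nd (nat_lit 12) (.nd (nat_lit 11) (.nd (nat_lit 18) (.nd (nat_lit 21) 
(.lf (nat_lit 56100028) (dlOf (nat_lit 1) (nat_lit 0x400200020009732c82))) 
(.lf (nat_lit 41419964) (dlOf (nat_lit 1) (nat_lit 0x9000200040009242c82)))) 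
(.lf (nat_lit 1346634940) (dlOf (nat_lit 1) (nat_lit 0xc00400040008fe2c82)))) (.nd (nat_lit 26) 
(.nd (nat_lit 5) (.lf (nat_lit 134221020) (dlOf (nat_lit 1) (nat_lit 0x800400040008006482))) 
(.lf (nat_lit 134220988) (dlOf (nat_lit 1) (nat_lit 0x800400160018006302)))) (.nd (nat_lit 28) 
(.lf (nat_lit 3288337596) (dlOf (nat_lit 1) (nat_lit 0x700080010002000a0008006303))) 
(.lf (nat_lit 1409289404) (dlOf (nat_lit 1) (nat_lit 0x80008002800200080008006303)))))) 
(.nd (nat_lit 26) (.nd (nat_lit 27) 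
(.lf (nat_lit 1342184636) (dlOf (nat_lit 1) (nat_lit 0x344004011a000800c202))) (.nd (nat_lit 28) 
(.lf (nat_lit 134225084) (dlOf (nat_lit 1) (nat_lit 0x80040002000800c202))) 
(.lf (nat_lit 2550144188) (dlOf (nat_lit 1) (nat_lit 0x180040002000800c202))))) (.nd (nat_lit 28) 
(.lf (nat_lit 3288341692) (dlOf (nat_lit 1) (nat_lit 0x800800040020002000800c203))) 
(.lf (nat_lit 2483035324) (dlOf (nat_lit 1) (nat_lit 0x100040002000800c202)))))) (.nd (nat_lit 5) 
(.nd (nat_lit 26) (.nd (nat_lit 11) 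
(.lf (nat_lit 43779484) (dlOf (nat_lit 1) (nat_lit 0xfe00092a3601))) (.nd (nat_lit 18) 
(.lf (nat_lit 3489668508) (dlOf (nat_lit 2) (nat_lit 0xb1070001881c000f2080028004000e000800ca82))) 
(.lf (nat_lit 19668380) (dlOf (nat_lit 3) (nat_lit 0x1eb01000cb0100145808006540801b00080034002002a00089dca83))))) 
(.nd (nat_lit 6) (.nd (nat_lit 11) 
(.lf (nat_lit 3154118044) (dlOf (nat_lit 1) (nat_lit 0x20018003601))) 
(.lf (nat_lit 1409289628) (dlOf (nat_lit 1) (nat_lit 0x400200020008006d02)))) 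
(.lf (nat_lit 1946160604) (dlOf (nat_lit 1) (nat_lit 0x1a0028006d81))))) (.nd (nat_lit 29) 
(.nd (nat_lit 6) (.lf (nat_lit 1476400572) (dlOf (nat_lit 1) (nat_lit 0x40028009a01))) 
(.nd (nat_lit 18) (.lf (nat_lit 1207961084) (dlOf (nat_lit 1) (nat_lit 0x10002000a0008003682))) 
(.lf (nat_lit 43779580) (dlOf (nat_lit 1) (nat_lit 0x400400f800092a3682))))) (.nd (nat_lit 6) 
(.lf (nat_lit 2818842044) (dlOf (nat_lit 1) (nat_lit 0xc00080030002000a000812cd03))) 
(.nd (nat_lit 26) 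
(.lf (nat_lit 1744831996) (dlOf (nat_lit 2) (nat_lit 0x100e0000e404000400200020008003682))) 
(.lf (nat_lit 738199036) (dlOf (nat_lit 1) (nat_lit 0x1e0028003681))))))))) (.nd (nat_lit 6) 
(.nd (nat_lit 11) (.nd (nat_lit 8) (.nd (nat_lit 12) (.nd (nat_lit 10) (.nd (nat_lit 26) 
(.lf (nat_lit 2684355228) (dlOf (nat_lit 1) (nat_lit 0x20008000400200020008001c03))) 
(.lf (nat_lit 3422552732) (dlOf (nat_lit 1) (nat_lit 0x20008000400200020008001c03)))) 
(.nd (nat_lit 18) (.lf (nat_lit 2751465116) (dlOf (nat_lit 1) (nat_lit 0x200028003a81))) 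
(.lf (nat_lit 2752251548) (dlOf (nat_lit 1) (nat_lit 0x3bc00401960008003a82))))) (.nd (nat_lit 18) 
(.nd (nat_lit 27) (.lf (nat_lit 603984540) (dlOf (nat_lit 1) (nat_lit 0x400200020008008c82))) 
(.lf (nat_lit 1006637724) (dlOf (nat_lit 1) (nat_lit 0x400200020008008c82)))) (.nd (nat_lit 19) 
(.lf (nat_lit 2818839196) (dlOf (nat_lit 5) (nat_lit 0xa010c013fa040074086009fc0200040450021e81000f02300000008040800802d800200360008128c83))) 
(.lf (nat_lit 8131228) (dlOf (nat_lit 1) (nat_lit 0x400200040008518c82)))))) (.nd (nat_lit 5) 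
(.nd (nat_lit 26) (.nd (nat_lit 10) 
(.lf (nat_lit 4160750492) (dlOf (nat_lit 1) (nat_lit 0x1000400020008002582))) 
(.lf (nat_lit 1476401052) (dlOf (nat_lit 1) (nat_lit 0x2000800040020008000800a303)))) 
(.nd (nat_lit 18) 
(.lf (nat_lit 2751465372) (dlOf (nat_lit 2) (nat_lit 0x4452000130200020028004281))) 
(.lf (nat_lit 2885945244) (dlOf (nat_lit 2) (nat_lit 0xa00d000054080008008001000200060008144283))))) 
(.nd (nat_lit 10) (.lf (nat_lit 2684355516) (dlOf (nat_lit 1) (nat_lit 0x1c0028002781))) 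
(.nd (nat_lit 18) (.lf (nat_lit 1980) (dlOf (nat_lit 1) (nat_lit 0xc00400020008004382))) 
(.lf (nat_lit 2751727548) (dlOf (nat_lit 1) (nat_lit 0xa0028004381))))))) (.nd (nat_lit 27) 
(.nd (nat_lit 26) (.nd (nat_lit 28) 
(.lf (nat_lit 4294974364) (dlOf (nat_lit 1) (nat_lit 0x40040002000800bc82))) (.nd (nat_lit 29) 
(.lf (nat_lit 1342184348) (dlOf (nat_lit 1) (nat_lit 0x7800800c00020042000800bc83))) 
(.lf (nat_lit 1879055260) (dlOf (nat_lit 1) (nat_lit 0x2800800a0002002e000800bc83))))) 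
(.nd (nat_lit 31) (.nd (nat_lit 29) 
(.lf (nat_lit 1409293212) (dlOf (nat_lit 1) (nat_lit 0x800800040020002000800bc83))) 
(.lf (nat_lit 1946164124) (dlOf (nat_lit 1) (nat_lit 0x40040002000800bc82)))) (.nd (nat_lit 10) 
(.nd (nat_lit 28) 
(.lf (nat_lit 3288341404) (dlOf (nat_lit 1) (nat_lit 0x800800040020002000800bc83))) 
(.lf (nat_lit 2483035036) (dlOf (nat_lit 1) (nat_lit 0xc0020008000800bc82)))) 
(.lf (nat_lit 3557035932) (dlOf (nat_lit 1) (nat_lit 0x28008008c002003a0008127803)))))) 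
(.nd (nat_lit 12) (.nd (nat_lit 18) (.nd (nat_lit 26) 
(.lf (nat_lit 2013268892) (dlOf (nat_lit 1) (nat_lit 0x8008000400200020008005c83))) 
(.lf (nat_lit 4764732316) (dlOf (nat_lit 1) (nat_lit 0x8008000400200020008005c83)))) 
(.nd (nat_lit 5) 
(.lf (nat_lit 4496559004) (dlOf (nat_lit 1) (nat_lit 0x180080008002000200080e5c83))) 
(.lf (nat_lit 4496559036) (dlOf (nat_lit 4) (nat_lit 0x2780d000f8064000070400140340000301000b01a0000000801480080010002001200080e5d03))))) 
(.nd (nat_lit 26) (.nd (nat_lit 28) 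
(.lf (nat_lit 134224796) (dlOf (nat_lit 1) (nat_lit 0x800800040020002000800bc83))) 
(.lf (nat_lit 2550143900) (dlOf (nat_lit 1) (nat_lit 0x40040002000800bc82)))) (.nd (nat_lit 5) 
(.lf (nat_lit 4227865500) (dlOf (nat_lit 1) (nat_lit 0x5c0020042000800bc82))) 
(.lf (nat_lit 4227865532) (dlOf (nat_lit 1) (nat_lit 0x2000800140020006000800be03)))))))) 
(.nd (nat_lit 26) (.nd (nat_lit 18) (.nd (nat_lit 28) (.nd (nat_lit 27) (.nd (nat_lit 8) 
(.lf (nat_lit 8393436) (dlOf (nat_lit 1) (nat_lit 0x400200020008518c82))) (.nd (nat_lit 29) 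
(.lf (nat_lit 1073742812) (dlOf (nat_lit 1) (nat_lit 0x400400020008002882))) 
(.lf (nat_lit 536871900) (dlOf (nat_lit 1) (nat_lit 0x400400020008002882))))) (.nd (nat_lit 29) 
(.nd (nat_lit 30) (.lf (nat_lit 4429186012) (dlOf (nat_lit 1) (nat_lit 0x400400020008002882))) 
(.lf (nat_lit 5502927836) (dlOf (nat_lit 1) (nat_lit 0x48008003000200160008002883)))) 
(.lf (nat_lit 4966056924) (dlOf (nat_lit 1) (nat_lit 0x400400020008002882))))) (.nd (nat_lit 5) 
(.nd (nat_lit 12) (.lf (nat_lit 2415920092) (dlOf (nat_lit 1) (nat_lit 0x400400020008002882))) 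
(.lf (nat_lit 1342182364) (dlOf (nat_lit 1) (nat_lit 0x700028009201)))) (.nd (nat_lit 11) 
(.nd (nat_lit 29) (.lf (nat_lit 2415920892) (dlOf (nat_lit 1) (nat_lit 0x400200060008003b82))) 
(.lf (nat_lit 4026533628) (dlOf (nat_lit 4) (nat_lit 0x1a01a80011c0800600d40008c04006406a0003802002c0028003b81)))) 
(.lf (nat_lit 1476398844) (dlOf (nat_lit 1) (nat_lit 0x20008007481)))))) (.nd (nat_lit 19) 
(.nd (nat_lit 11) (.nd (nat_lit 20) 
(.lf (nat_lit 42206172) (dlOf (nat_lit 1) (nat_lit 0x60019242881))) 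
(.lf (nat_lit 51643356) (dlOf (nat_lit 1) (nat_lit 0x20009512881)))) 
(.lf (nat_lit 6308498396) (dlOf (nat_lit 1) (nat_lit 0xc00180d5e01)))) (.nd (nat_lit 5) 
(.nd (nat_lit 22) (.lf (nat_lit 34341852) (dlOf (nat_lit 1) (nat_lit 0x20018fb2881))) 
(.lf (nat_lit 38536156) (dlOf (nat_lit 1) (nat_lit 0xc00200420009132882)))) 
(.lf (nat_lit 135006204) (dlOf (nat_lit 1) (nat_lit 0x800180f4701)))))) (.nd (nat_lit 27) 
(.nd (nat_lit 32) (.nd (nat_lit 8) (.nd (nat_lit 11) 
(.lf (nat_lit 603984604) (dlOf (nat_lit 1) (nat_lit 0x8008000400200020008008c83))) 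
(.lf (nat_lit 67115740) (dlOf (nat_lit 1) (nat_lit 0x6001800b981)))) (.nd (nat_lit 19) 
(.lf (nat_lit 1140851676) (dlOf (nat_lit 1) (nat_lit 0x400400020008002882))) 
(.lf (nat_lit 2751988700) (dlOf (nat_lit 1) (nat_lit 0xc00200020008002882))))) (.nd (nat_lit 28) 
(.nd (nat_lit 30) (.lf (nat_lit 4362077148) (dlOf (nat_lit 1) (nat_lit 0x400400020008002882))) 
(.lf (nat_lit 5435818972) (dlOf (nat_lit 1) (nat_lit 0x400400020008002882)))) 
(.lf (nat_lit 4630512604) (dlOf (nat_lit 1) (nat_lit 0x400400020008002882))))) (.nd (nat_lit 28) 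
(.nd (nat_lit 5) (.nd (nat_lit 11) 
(.lf (nat_lit 6106907612) (dlOf (nat_lit 1) (nat_lit 0x400400020008002882))) 
(.lf (nat_lit 738462684) (dlOf (nat_lit 1) (nat_lit 0x100028095e01)))) (.nd (nat_lit 8) 
(.nd (nat_lit 31) (.lf (nat_lit 201328380) (dlOf (nat_lit 1) (nat_lit 0x20028003b81))) 
(.lf (nat_lit 2348812028) (dlOf (nat_lit 4) (nat_lit 0x680a8000a204000c0540004402000802a000101400010040000700c007c00400180008003b82)))) 
(.lf (nat_lit 738462716) (dlOf (nat_lit 2) (nat_lit 0x1c0b4000400200020018095f01))))) 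
(.nd (nat_lit 29) (.nd (nat_lit 12) (.nd (nat_lit 20) 
(.lf (nat_lit 469763036) (dlOf (nat_lit 1) (nat_lit 0x400400020008002882))) 
(.lf (nat_lit 472908764) (dlOf (nat_lit 1) (nat_lit 0x3c0028b52881)))) 
(.lf (nat_lit 469767132) (dlOf (nat_lit 1) (nat_lit 0x700028009201)))) (.nd (nat_lit 5) 
(.lf (nat_lit 1006633948) (dlOf (nat_lit 1) (nat_lit 0x400400020008002882))) 
(.lf (nat_lit 4228646908) (dlOf (nat_lit 1) (nat_lit 0x400400020018114702))))))))))) 
(.nd (nat_lit 18) (.nd (nat_lit 5) (.nd (nat_lit 19) (.nd (nat_lit 26) (.nd (nat_lit 10) 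
(.nd (nat_lit 21) (.nd (nat_lit 6) (.nd (nat_lit 7) 
(.lf (nat_lit 1476434204) (dlOf (nat_lit 5) (nat_lit 0x30030002201701b70088006003c003001c00160010001286000c00c0005805c000802c035e01100180080006003c003001c00240040018001000580040004000000231600020000000f01000500b800060080c70008000c0020ad0000800ab03))) 
(.lf (nat_lit 268468636) (dlOf (nat_lit 1) (nat_lit 0x400200020008051002)))) (.nd (nat_lit 7) 
(.lf (nat_lit 30441564) (dlOf (nat_lit 1) (nat_lit 0x3400200100008e30402))) 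
(.lf (nat_lit 268469212) (dlOf (nat_lit 1) (nat_lit 0x20028052881))))) (.nd (nat_lit 24) 
(.nd (nat_lit 22) (.lf (nat_lit 3491790876) (dlOf (nat_lit 1) (nat_lit 0x20018090001))) 
(.lf (nat_lit 14712860) (dlOf (nat_lit 1) (nat_lit 0x1c002001e0008770102)))) (.nd (nat_lit 6) 
(.lf (nat_lit 52461596) (dlOf (nat_lit 1) (nat_lit 0x100029530101))) 
(.lf (nat_lit 19962588) (dlOf (nat_lit 1) (nat_lit 0x2700080004002004400089db983)))))) 
(.nd (nat_lit 6) (.nd (nat_lit 9) (.nd (nat_lit 7) 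
(.lf (nat_lit 3355481372) (dlOf (nat_lit 6) (nat_lit 0x30014001800800020000003b03000100280010000000e208000800a0007002000a00500030810003002800180000000008002c00400260018009702))) 
(.nd (nat_lit 11) (.lf (nat_lit 61900188) (dlOf (nat_lit 1) (nat_lit 0x80009923601))) 
(.lf (nat_lit 19959196) (dlOf (nat_lit 1) (nat_lit 0x400289d6d01))))) (.nd (nat_lit 29) 
(.lf (nat_lit 2415953820) (dlOf (nat_lit 2) (nat_lit 0xe00180004c080010008005000200140008004283))) 
(.lf (nat_lit 4026566556) (dlOf (nat_lit 1) (nat_lit 0x3400200060008004282))))) (.nd (nat_lit 8) 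
(.nd (nat_lit 7) (.lf (nat_lit 268469852) (dlOf (nat_lit 1) (nat_lit 0x20028053901))) 
(.lf (nat_lit 671125212) (dlOf (nat_lit 2) (nat_lit 0x200500000018007380)))) (.nd (nat_lit 12) 
(.lf (nat_lit 134254044) (dlOf (nat_lit 2) (nat_lit 0x1005400068040004002000c0008006d82))) 
(.lf (nat_lit 2952830428) (dlOf (nat_lit 2) (nat_lit 0x1800001480040014002002a000800cd02))))))) 
(.nd (nat_lit 11) (.nd (nat_lit 8) (.nd (nat_lit 10) (.nd (nat_lit 27) 
(.lf (nat_lit 2752544796) (dlOf (nat_lit 2) (nat_lit 0x562480051a018020480))) 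
(.lf (nat_lit 470843420) (dlOf (nat_lit 1) (nat_lit 0x108008006c002002e00081c0503)))) 
(.nd (nat_lit 6) (.lf (nat_lit 6106940956) (dlOf (nat_lit 1) (nat_lit 0x20028003701))) 
(.lf (nat_lit 3691025500) (dlOf (nat_lit 2) (nat_lit 0x4002a00330000000a01000e0008004000200480008009383))))) 
(.nd (nat_lit 6) (.nd (nat_lit 7) 
(.lf (nat_lit 201361180) (dlOf (nat_lit 3) (nat_lit 0x200000000900800a00000004404005000200e40008003c82))) 
(.lf (nat_lit 738231708) (dlOf (nat_lit 1) (nat_lit 0x140018003601)))) (.nd (nat_lit 9) 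
(.lf (nat_lit 67146204) (dlOf (nat_lit 1) (nat_lit 0x40018008681))) 
(.lf (nat_lit 2348843996) (dlOf (nat_lit 4) (nat_lit 0x1005001b1702003802800d89810004014003cd0080038008000c00200060008002883)))))) 
(.nd (nat_lit 12) (.nd (nat_lit 7) (.nd (nat_lit 10) 
(.lf (nat_lit 2751498524) (dlOf (nat_lit 1) (nat_lit 0x140028004b81))) 
(.lf (nat_lit 4227894556) (dlOf (nat_lit 1) (nat_lit 0x8008000400200020008006783)))) 
(.lf (nat_lit 4227893660) (dlOf (nat_lit 1) (nat_lit 0x48008003800200060008004e83)))) 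
(.nd (nat_lit 8) (.nd (nat_lit 6) 
(.lf (nat_lit 4362115612) (dlOf (nat_lit 1) (nat_lit 0x400080034002000c000800b283))) 
(.lf (nat_lit 2751502428) (dlOf (nat_lit 1) (nat_lit 0x800800040020002000800a783)))) 
(.nd (nat_lit 9) 
(.lf (nat_lit 3691026716) (dlOf (nat_lit 5) (nat_lit 0x72016000100ac02a005400e2029007800d8010805001c000a013200200630000000a04800580000004e0401d8058009002b00ad015005080a401e40360124014009d002804c000801c40000002612001a02a001401480058050002000a000250800ac002800ab01))) 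
(.lf (nat_lit 469801756) (dlOf (nat_lit 2) (nat_lit 0x503f00018c08003800800400020010000800bb83)))))))) 
(.nd (nat_lit 28) (.nd (nat_lit 21) (.nd (nat_lit 24) (.nd (nat_lit 29) (.nd (nat_lit 23) 
(.nd (nat_lit 6) (.lf (nat_lit 1074298908) (dlOf (nat_lit 2) (nat_lit 0x1403d00ed30181b0000))) 
(.lf (nat_lit 1074299100) (dlOf (nat_lit 1) (nat_lit 0x400181b0481)))) (.nd (nat_lit 20) 
(.lf (nat_lit 42500124) (dlOf (nat_lit 1) (nat_lit 0x2800400040009260102))) 
(.lf (nat_lit 9994268) (dlOf (nat_lit 2) (nat_lit 0x39dc001078185a0a80))))) (.nd (nat_lit 26) 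
(.nd (nat_lit 7) 
(.lf (nat_lit 537428508) (dlOf (nat_lit 1) (nat_lit 0x18008000800200020008090d83))) 
(.lf (nat_lit 537428124) (dlOf (nat_lit 21) (nat_lit 0x2540b8000604b0002b02009702e000154080280170022004801200210002a03007a02e000b809000b00420005306012e05c0097012004b0084000a20c02080b8014602400a301080014018029017001c804800f00210002003008302e0051009002a40420003f0600ae05c000e01200040084000780c00280b8000602400010108000ec18019817000a804800540210001d03001102e0007809000200420003906002a05c002d012001b0084000700c013c0b8004a02400270108000dc1802e81700040048001c0210001a83003402e0029009001700420003306017a05f03a102e0000bc1000c817c0004054001202400210108000b820039817002a009600ac0300089012004b00840002c1402340b8002a04c006a012004380840000010000800400040018090182)))) 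
(.nd (nat_lit 20) (.lf (nat_lit 2756214812) (dlOf (nat_lit 1) (nat_lit 0x400200020008220882))) 
(.lf (nat_lit 2753069084) (dlOf (nat_lit 2) (nat_lit 0x1e13800a89818080500)))))) (.nd (nat_lit 22) 
(.nd (nat_lit 9) (.lf (nat_lit 18382876) (dlOf (nat_lit 1) (nat_lit 0xc00400020018930482))) 
(.lf (nat_lit 50889244) (dlOf (nat_lit 3) (nat_lit 0xd1fb80138c08023153c009a2040128004068e00194d8702)))) 
(.nd (nat_lit 6) 
(.lf (nat_lit 55083036) (dlOf (nat_lit 6) (nat_lit 0x2e4b100022580005927c002c93c000200800124b1000325800007c1000092c40018960000130400024b100007810017258800092c0004493e0000b06003a00296a0501))) 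
(.lf (nat_lit 21528668) (dlOf (nat_lit 10) (nat_lit 0x2bb54001bda80002ed300017690005ba880003d430001e458000d03800576a0002fb4c00033040005da800019010002ed40000c40800f76a800a3b50000dda60003ed20003750c0003e14003fb540033da80000f020008ed50006f6a0000ba860001d060003daa0002ed400007010002f6a80003604005800200080008a40702)))))) 
(.nd (nat_lit 22) (.nd (nat_lit 26) (.nd (nat_lit 7) 
(.lf (nat_lit 11042844) (dlOf (nat_lit 6) (nat_lit 0xe12c009c000002060400178450002be900078000003500c0080000000af02000384b0004e81001700000005008000800801e4002000e0008660483))) 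
(.lf (nat_lit 37259676) (dlOf (nat_lit 1) (nat_lit 0x1400090d4e81)))) (.nd (nat_lit 6) 
(.lf (nat_lit 2754117660) (dlOf (nat_lit 1) (nat_lit 0x680080008002000a00080c0a83))) 
(.lf (nat_lit 2754117724) (dlOf (nat_lit 2) (nat_lit 0xa10a90000140812680080444002006a00080c1b03))))) 
(.nd (nat_lit 7) (.nd (nat_lit 20) 
(.lf (nat_lit 48791580) (dlOf (nat_lit 1) (nat_lit 0x6e0019430601))) 
(.lf (nat_lit 24674332) (dlOf (nat_lit 2) (nat_lit 0x12d22000768900020028bb0500)))) 
(.lf (nat_lit 23625884) (dlOf (nat_lit 4) (nat_lit 0x8af50005577a001cba5000e5a280011820008af50004d77a0022ba500105a2800114200092f50005177a0022ba500105a28000e02001200080028002000a0008b80183)))))) 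
(.nd (nat_lit 26) (.nd (nat_lit 31) (.nd (nat_lit 10) (.nd (nat_lit 8) 
(.lf (nat_lit 805863452) (dlOf (nat_lit 8) (nat_lit 0x3600d4015404a00ae024007400a000090208a7015045b80a6068a03010b000880008c20001014c000440400c80a4012201b0008000000080180810148034008800d403b00c300d80007c2005400b40003a0400300360000d02009800081d0501))) 
(.lf (nat_lit 1342734620) (dlOf (nat_lit 2) (nat_lit 0x581f30003e0180c0480)))) (.nd (nat_lit 7) 
(.lf (nat_lit 5771922460) (dlOf (nat_lit 1) (nat_lit 0x3800400160008006002))) 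
(.lf (nat_lit 1344832668) (dlOf (nat_lit 2) (nat_lit 0x604e000220080010008001000200040008982b83))))) 
(.nd (nat_lit 20) (.nd (nat_lit 21) 
(.lf (nat_lit 3494412316) (dlOf (nat_lit 1) (nat_lit 0x400200020008220882))) 
(.lf (nat_lit 3492315164) (dlOf (nat_lit 1) (nat_lit 0x680080008002000a00080c0a83)))) 
(.lf (nat_lit 3491266588) (dlOf (nat_lit 2) (nat_lit 0x1e13800b41018080500))))) (.nd (nat_lit 27) 
(.nd (nat_lit 6) (.nd (nat_lit 7) 
(.lf (nat_lit 3557326876) (dlOf (nat_lit 6) (nat_lit 0x10501c80029c0408280e40014d0204140720002b010136039000154080ae01c800fc07e000000401ee00081c0501))) 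
(.lf (nat_lit 1409843356) (dlOf (nat_lit 2) (nat_lit 0x940be0002f0200040018090181)))) 
(.lf (nat_lit 4094198236) (dlOf (nat_lit 1) (nat_lit 0xc00400020008017c82)))) (.nd (nat_lit 9) 
(.nd (nat_lit 22) 
(.lf (nat_lit 470319132) (dlOf (nat_lit 2) (nat_lit 0x7c3660071502000200280c0001))) 
(.lf (nat_lit 474513436) (dlOf (nat_lit 2) (nat_lit 0x5e15600330a1801d84ec00b019a0050085001c03a800e81cc000821c0008004000800191a0102)))) 
(.lf (nat_lit 470319644) (dlOf (nat_lit 2) (nat_lit 0x1823c001028180c0d80)))))))) (.nd (nat_lit 26) 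
(.nd (nat_lit 30) (.nd (nat_lit 6) (.nd (nat_lit 7) (.nd (nat_lit 8) 
(.lf (nat_lit 13664316) (dlOf (nat_lit 1) (nat_lit 0x18004000a0008740d82))) (.nd (nat_lit 10) 
(.lf (nat_lit 54559036) (dlOf (nat_lit 1) (nat_lit 0x400200020009650b82))) 
(.lf (nat_lit 38204) (dlOf (nat_lit 1) (nat_lit 0x18008000800200060008009903))))) (.nd (nat_lit 8) 
(.nd (nat_lit 10) (.lf (nat_lit 3178684) (dlOf (nat_lit 1) (nat_lit 0xc0028200381))) 
(.lf (nat_lit 34112700) (dlOf (nat_lit 1) (nat_lit 0x60028fb2c81)))) 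
(.lf (nat_lit 6710922172) (dlOf (nat_lit 4) (nat_lit 0x8016000300a801d80500001c0c009402800001020030016001700a80000010011000800d000200280008005d03))))) 
(.nd (nat_lit 9) (.nd (nat_lit 10) (.nd (nat_lit 8) 
(.lf (nat_lit 2130044) (dlOf (nat_lit 1) (nat_lit 0x40028150081))) 
(.lf (nat_lit 40405372) (dlOf (nat_lit 1) (nat_lit 0x800291f4e81)))) (.nd (nat_lit 7) 
(.lf (nat_lit 134258044) (dlOf (nat_lit 2) (nat_lit 0x1800000cfc0400cc00400ee000800c902))) 
(.lf (nat_lit 2684392956) (dlOf (nat_lit 1) (nat_lit 0x400400020018009c02))))) (.nd (nat_lit 10) 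
(.nd (nat_lit 7) (.lf (nat_lit 60328572) (dlOf (nat_lit 1) (nat_lit 0x140019845401))) 
(.lf (nat_lit 57182972) (dlOf (nat_lit 1) (nat_lit 0x10008000400200020009795a03)))) 
(.nd (nat_lit 12) 
(.lf (nat_lit 61900412) (dlOf (nat_lit 3) (nat_lit 0x1d67180014c08010b38c000a404008c00200040009923982))) 
(.lf (nat_lit 2684393084) (dlOf (nat_lit 2) (nat_lit 0x200b0003d818009d80))))))) (.nd (nat_lit 31) 
(.nd (nat_lit 7) (.nd (nat_lit 6) (.nd (nat_lit 11) 
(.lf (nat_lit 6039836220) (dlOf (nat_lit 2) (nat_lit 0x580bc017f8040004004001c0008009c02))) 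
(.lf (nat_lit 1342213692) (dlOf (nat_lit 1) (nat_lit 0x20028007181)))) 
(.lf (nat_lit 5773493372) (dlOf (nat_lit 1) (nat_lit 0x200180e2a81)))) (.nd (nat_lit 6) 
(.nd (nat_lit 9) (.lf (nat_lit 1345880508) (dlOf (nat_lit 1) (nat_lit 0x8000200160008e07002))) 
(.lf (nat_lit 5368744892) (dlOf (nat_lit 5) (nat_lit 0x6c015004c00a000800140001e0c028402a01400050000382002c00a80238050000402200004060082015005900a00080014000000c007c004005a0018005d02)))) 
(.lf (nat_lit 1345880316) (dlOf (nat_lit 2) (nat_lit 0x142a400120f70002079000782480029e10017400400080008e02902))))) 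
(.nd (nat_lit 6) (.nd (nat_lit 8) (.nd (nat_lit 19) 
(.lf (nat_lit 3490742332) (dlOf (nat_lit 9) (nat_lit 0x8011880009c0808e88c40004a0402f4462000240200e4231000050100b51188000180806408c4000040404744620000102025423100df1178000001001080080154002001c0008020703))) 
(.nd (nat_lit 20) 
(.lf (nat_lit 3492315196) (dlOf (nat_lit 2) (nat_lit 0x320fe00015008018800801cc002003000080c1403))) 
(.lf (nat_lit 3493363772) (dlOf (nat_lit 2) (nat_lit 0x3a068000af818120d00))))) (.nd (nat_lit 7) 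
(.lf (nat_lit 3892347196) (dlOf (nat_lit 1) (nat_lit 0x4004000a0008000b82))) 
(.lf (nat_lit 4026566588) (dlOf (nat_lit 1) (nat_lit 0x8008000400200020008004383))))) 
(.nd (nat_lit 7) 
(.lf (nat_lit 3493888124) (dlOf (nat_lit 10) (nat_lit 0x7dc3fa03fa1e802140af810a84e0004981005e02be01ee138001258201100fe808c87a004b82be025a138001250400d40fe8073857c00a4270002450600221e80011b8100050fe800287a0008c2bc001ff06000e1fd000a0f400138578003fc0c049c3fa00ee1fb01330f400a78578000c29e000e14d000309b8007f43805a07f402843f6017a1e800db0af0002053c003f814002c002000200081b0082))) 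
(.lf (nat_lit 3355476732) (dlOf (nat_lit 1) (nat_lit 0xc00400040018002102))))))) (.nd (nat_lit 10) 
(.nd (nat_lit 8) (.nd (nat_lit 27) (.nd (nat_lit 20) (.nd (nat_lit 7) 
(.lf (nat_lit 4095770684) (dlOf (nat_lit 1) (nat_lit 0x200280e0001))) 
(.lf (nat_lit 2755690684) (dlOf (nat_lit 1) (nat_lit 0xc00181b0381)))) (.nd (nat_lit 19) 
(.lf (nat_lit 2752544828) (dlOf (nat_lit 9) (nat_lit 0x801248000a00808e89240004a0402f4492000240200e4249000050100b5124800018080640924000040404744920000102025424900df1238000001001080080154002001c0008020703))) 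
(.lf (nat_lit 2755166268) (dlOf (nat_lit 2) (nat_lit 0x3a068000af818120d00))))) (.nd (nat_lit 6) 
(.nd (nat_lit 7) (.lf (nat_lit 1811974204) (dlOf (nat_lit 1) (nat_lit 0x160008004701))) 
(.lf (nat_lit 470319292) (dlOf (nat_lit 4) (nat_lit 0x7e2370026113000e0830000c38a00481c1002f0d9801685c40005e1c008448e0040243002711b800d0898006841800401cd002b0e280048704008c3660056171000170a001f10f800048080440008039c002029e00080c0383)))) 
(.lf (nat_lit 1543538812) (dlOf (nat_lit 1) (nat_lit 0x110008001c002005c0008004783))))) 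
(.nd (nat_lit 6) (.nd (nat_lit 7) 
(.lf (nat_lit 473989436) (dlOf (nat_lit 1) (nat_lit 0x400400040009000b82))) (.nd (nat_lit 9) 
(.lf (nat_lit 3154149820) (dlOf (nat_lit 1) (nat_lit 0x800200020008001082))) 
(.lf (nat_lit 4764765116) (dlOf (nat_lit 5) (nat_lit 0x280100002c04001402c000020200040050000081000d002000000080018008005000200080008005d03))))) 
(.nd (nat_lit 9) (.nd (nat_lit 12) 
(.lf (nat_lit 2754644348) (dlOf (nat_lit 1) (nat_lit 0x4002000200080f4e82))) 
(.lf (nat_lit 201365884) (dlOf (nat_lit 1) (nat_lit 0x4c001800ae81)))) 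
(.lf (nat_lit 2617279356) (dlOf (nat_lit 1) (nat_lit 0xc00400040018002582)))))) (.nd (nat_lit 11) 
(.nd (nat_lit 7) (.nd (nat_lit 6) 
(.lf (nat_lit 469796668) (dlOf (nat_lit 1) (nat_lit 0x1e0018003e01))) (.nd (nat_lit 12) 
(.lf (nat_lit 3556804220) (dlOf (nat_lit 7) (nat_lit 0x60060002a01000700300014c080090018000a40400ec01c0002d02005000e0001601000200700005c080088008000400200360008003983))) 
(.lf (nat_lit 2214631036) (dlOf (nat_lit 1) (nat_lit 0x20018009d81))))) (.nd (nat_lit 8) 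
(.lf (nat_lit 2348844796) (dlOf (nat_lit 6) (nat_lit 0x80140001440800180a0000a004001805000046020008028000220100130140000e00800b80080068002000e0008003b83))) 
(.nd (nat_lit 27) 
(.lf (nat_lit 4362110972) (dlOf (nat_lit 2) (nat_lit 0x48158001be04000c004000c0008004702))) 
(.lf (nat_lit 469796860) (dlOf (nat_lit 2) (nat_lit 0x40714001be04001c00200200008004702)))))) 
(.nd (nat_lit 27) (.nd (nat_lit 6) (.nd (nat_lit 7) 
(.lf (nat_lit 3288370236) (dlOf (nat_lit 1) (nat_lit 0x3000400020008006082))) 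
(.lf (nat_lit 1946197180) (dlOf (nat_lit 1) (nat_lit 0x40040006000800c202)))) 
(.lf (nat_lit 2483064188) (dlOf (nat_lit 1) (nat_lit 0x280080010002000a0008006c03)))) 
(.nd (nat_lit 6) (.nd (nat_lit 7) 
(.lf (nat_lit 4227894844) (dlOf (nat_lit 1) (nat_lit 0x20028007181))) 
(.lf (nat_lit 4227898556) (dlOf (nat_lit 1) (nat_lit 0xa80080044002000c000800c203)))) 
(.lf (nat_lit 4227894652) (dlOf (nat_lit 1) (nat_lit 0x300080014002000a0008006c03))))))))) 
(.nd (nat_lit 19) (.nd (nat_lit 26) (.nd (nat_lit 5) (.nd (nat_lit 28) (.nd (nat_lit 7) 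
(.nd (nat_lit 8) (.nd (nat_lit 21) 
(.lf (nat_lit 12877852) (dlOf (nat_lit 1) (nat_lit 0x1000800a4002001600086e0a03))) 
(.lf (nat_lit 14975004) (dlOf (nat_lit 2) (nat_lit 0x418880010c0800080080004002000200087a0503)))) 
(.nd (nat_lit 6) (.lf (nat_lit 298268) (dlOf (nat_lit 1) (nat_lit 0x20028006781))) 
(.lf (nat_lit 537166172) (dlOf (nat_lit 1) (nat_lit 0xc0008048d01))))) (.nd (nat_lit 6) 
(.nd (nat_lit 8) (.lf (nat_lit 1745125532) (dlOf (nat_lit 1) (nat_lit 0x2c004005000080a2b82))) 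
(.lf (nat_lit 6442746268) (dlOf (nat_lit 1) (nat_lit 0x400181b0781)))) 
(.lf (nat_lit 28606684) (dlOf (nat_lit 1) (nat_lit 0x8008000400200020008da0583))))) 
(.nd (nat_lit 29) (.nd (nat_lit 6) (.nd (nat_lit 30) 
(.lf (nat_lit 402948124) (dlOf (nat_lit 1) (nat_lit 0x2800800f4002001600080b0103))) 
(.lf (nat_lit 1476689948) (dlOf (nat_lit 1) (nat_lit 0x800200020008120682)))) 
(.lf (nat_lit 3492053084) (dlOf (nat_lit 1) (nat_lit 0xc002000200080a1202)))) (.nd (nat_lit 30) 
(.nd (nat_lit 31) 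
(.lf (nat_lit 805601308) (dlOf (nat_lit 5) (nat_lit 0x1480e0000940403bc09e02840380001f8201e702780f100e00007a0800200700003a0200020028140b01))) 
(.lf (nat_lit 2953084956) (dlOf (nat_lit 2) (nat_lit 0xb00000000004003c002002200080f0482)))) 
(.lf (nat_lit 1879343132) (dlOf (nat_lit 2) (nat_lit 0xc055000902a0003013801bd80c0080004004800080e0a02)))))) 
(.nd (nat_lit 6) (.nd (nat_lit 21) (.nd (nat_lit 29) 
(.lf (nat_lit 1208254524) (dlOf (nat_lit 2) (nat_lit 0x802900020060001fc1000080080028002001c00080b0483))) 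
(.lf (nat_lit 671383612) (dlOf (nat_lit 2) (nat_lit 0x180128001f00800b80080040002003e0008170d03)))) 
(.nd (nat_lit 7) (.lf (nat_lit 23364156) (dlOf (nat_lit 1) (nat_lit 0x18008001000200060008b81003))) 
(.lf (nat_lit 23364028) (dlOf (nat_lit 3) (nat_lit 0x1b47000fda100007e0800b0000000000200300018b80881))))) 
(.nd (nat_lit 9) (.nd (nat_lit 10) 
(.lf (nat_lit 5905875452) (dlOf (nat_lit 9) (nat_lit 0x9404a0005d0200460250002e0100170128001440800e0094000a004009404a0004c02003a0250002501000b0128001200801380940008404007000400160018157e02))) 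
(.lf (nat_lit 8685052) (dlOf (nat_lit 1) (nat_lit 0x20028513681)))) (.nd (nat_lit 8) 
(.lf (nat_lit 56920828) (dlOf (nat_lit 2) (nat_lit 0xd4b6000000200040029795a01))) 
(.lf (nat_lit 2818874364) (dlOf (nat_lit 1) (nat_lit 0x2800800040020002000812bf03))))))) 
(.nd (nat_lit 27) (.nd (nat_lit 6) (.nd (nat_lit 29) (.nd (nat_lit 5) (.nd (nat_lit 8) 
(.lf (nat_lit 335839260) (dlOf (nat_lit 1) (nat_lit 0x2800800f4002001600080b0103))) 
(.lf (nat_lit 3557071132) (dlOf (nat_lit 1) (nat_lit 0x7000800040020002000812ab03)))) 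
(.lf (nat_lit 69500988) (dlOf (nat_lit 1) (nat_lit 0x2a0018a80001)))) (.nd (nat_lit 31) 
(.nd (nat_lit 28) 
(.lf (nat_lit 1678016540) (dlOf (nat_lit 5) (nat_lit 0x1480e0000940403bc09e02840380001f8201e702780f100e00007a0800200700003a0200020028140b01))) 
(.lf (nat_lit 5167677468) (dlOf (nat_lit 1) (nat_lit 0xc0018100081)))) (.nd (nat_lit 5) 
(.lf (nat_lit 3020193820) (dlOf (nat_lit 2) (nat_lit 0x200c80000004001400400180008150102))) 
(.lf (nat_lit 3020193852) (dlOf (nat_lit 1) (nat_lit 0x20028150481)))))) (.nd (nat_lit 21) 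
(.nd (nat_lit 29) 
(.lf (nat_lit 2483322972) (dlOf (nat_lit 2) (nat_lit 0xd0150000b40800f00080014002001600080a1203))) 
(.lf (nat_lit 3020193884) (dlOf (nat_lit 3) (nat_lit 0x400480184702004002b00c1f818150880)))) 
(.nd (nat_lit 5) (.lf (nat_lit 2753855580) (dlOf (nat_lit 1) (nat_lit 0xc002000200080a1202))) 
(.lf (nat_lit 4096034300) (dlOf (nat_lit 1) (nat_lit 0x28004000600080e3682)))))) (.nd (nat_lit 6) 
(.nd (nat_lit 5) (.nd (nat_lit 8) (.nd (nat_lit 10) 
(.lf (nat_lit 471105564) (dlOf (nat_lit 2) (nat_lit 0x900a00062c080010008006800200080008270483))) 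
(.lf (nat_lit 4496591900) (dlOf (nat_lit 1) (nat_lit 0x400280e6001)))) 
(.lf (nat_lit 6376685852) (dlOf (nat_lit 3) (nat_lit 0x42090800580080090488004c242001560400060028090a81)))) 
(.nd (nat_lit 29) 
(.lf (nat_lit 1543798844) (dlOf (nat_lit 2) (nat_lit 0x180128001f00800b80080040002003e0008170d03))) 
(.lf (nat_lit 2080669756) (dlOf (nat_lit 2) (nat_lit 0x802900020060001fc1000080080028002001c00080b0483))))) 
(.nd (nat_lit 5) (.nd (nat_lit 8) 
(.lf (nat_lit 2349105244) (dlOf (nat_lit 2) (nat_lit 0xd01500005c0800f00080014002001600080a1203))) 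
(.nd (nat_lit 28) 
(.lf (nat_lit 3959718236) (dlOf (nat_lit 11) (nat_lit 0x458014000640201fc00a000318100fe0050001800801d8118027c08a0004d04005e00a0002501011f0050001100807e80280008604040c014000420201a200a0001e810085022803b002800000080030004000e0008124e02))) 
(.lf (nat_lit 4228153692) (dlOf (nat_lit 1) (nat_lit 0x400400020008048b02))))) (.nd (nat_lit 8) 
(.lf (nat_lit 2885977852) (dlOf (nat_lit 2) (nat_lit 0x80a4001c0380002c0400040028143b81))) 
(.lf (nat_lit 3959718396) (dlOf (nat_lit 7) (nat_lit 0x18501f006600380230018009e0000001184035001f008c00700a5c01c052c00c01dd002005080080908000000220e000600e000108101a301f006b80380003c0807d807c026a00e0000e0201cc01f008d0038000360802d800400780008127e02)))))))) 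
(.nd (nat_lit 20) (.nd (nat_lit 5) (.nd (nat_lit 21) (.nd (nat_lit 6) (.nd (nat_lit 23) 
(.nd (nat_lit 26) 
(.lf (nat_lit 2819391516) (dlOf (nat_lit 1) (nat_lit 0x480080020002000a0008250483))) 
(.lf (nat_lit 3557589020) (dlOf (nat_lit 5) (nat_lit 0x540c20011d02003c0610008b8100270308004580803d018400980c0000000400060028270481)))) 
(.lf (nat_lit 9207836) (dlOf (nat_lit 2) (nat_lit 0x4780000008204008000200080008530102)))) 
(.nd (nat_lit 23) (.nd (nat_lit 24) 
(.lf (nat_lit 6376161372) (dlOf (nat_lit 1) (nat_lit 0x40018090081))) 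
(.lf (nat_lit 17596508) (dlOf (nat_lit 1) (nat_lit 0x34002001000088e0402)))) 
(.lf (nat_lit 42762332) (dlOf (nat_lit 1) (nat_lit 0x2c0009280881))))) (.nd (nat_lit 7) 
(.nd (nat_lit 31) (.nd (nat_lit 8) 
(.lf (nat_lit 2916380) (dlOf (nat_lit 1) (nat_lit 0x200181d0481))) 
(.lf (nat_lit 19698972) (dlOf (nat_lit 1) (nat_lit 0x80080004002000200089d9703)))) 
(.nd (nat_lit 26) (.lf (nat_lit 3492577308) (dlOf (nat_lit 1) (nat_lit 0x8004000200180e0482))) 
(.lf (nat_lit 2754379804) (dlOf (nat_lit 1) (nat_lit 0x8004000200180e0482))))) (.nd (nat_lit 8) 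
(.nd (nat_lit 9) (.lf (nat_lit 36470940) (dlOf (nat_lit 1) (nat_lit 0x460009070501))) 
(.lf (nat_lit 36473500) (dlOf (nat_lit 1) (nat_lit 0x40019075581)))) 
(.lf (nat_lit 36473244) (dlOf (nat_lit 1) (nat_lit 0x20019074e81)))))) (.nd (nat_lit 29) 
(.nd (nat_lit 6) (.nd (nat_lit 9) (.nd (nat_lit 21) 
(.lf (nat_lit 819260) (dlOf (nat_lit 2) (nat_lit 0x710b50000000801280080060002004a0008020703))) 
(.lf (nat_lit 3492577340) (dlOf (nat_lit 1) (nat_lit 0x1600080040002015e00080e0d83)))) 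
(.lf (nat_lit 36473404) (dlOf (nat_lit 1) (nat_lit 0x4a0009075201)))) (.nd (nat_lit 8) 
(.lf (nat_lit 53249660) (dlOf (nat_lit 1) (nat_lit 0x8008013400200340009573983))) 
(.lf (nat_lit 36473212) (dlOf (nat_lit 1) (nat_lit 0x40019074e81))))) (.nd (nat_lit 21) 
(.nd (nat_lit 7) (.lf (nat_lit 6376161596) (dlOf (nat_lit 1) (nat_lit 0x44002007c0008090b82))) 
(.lf (nat_lit 537693884) (dlOf (nat_lit 1) (nat_lit 0xc400080508002026400080f7283)))) 
(.nd (nat_lit 28) 
(.lf (nat_lit 2754379836) (dlOf (nat_lit 1) (nat_lit 0x1600080040002015e00080e0d83))) 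
(.lf (nat_lit 4096557116) (dlOf (nat_lit 1) (nat_lit 0x20028131681))))))) (.nd (nat_lit 21) 
(.nd (nat_lit 7) (.nd (nat_lit 22) (.nd (nat_lit 26) 
(.lf (nat_lit 5773230108) (dlOf (nat_lit 3) (nat_lit 0x41016400bc07c0004a04000e059000218180b0100))) 
(.nd (nat_lit 29) 
(.lf (nat_lit 471629852) (dlOf (nat_lit 2) (nat_lit 0x2c09d000304700006c100060008023000200420008360603))) 
(.lf (nat_lit 6377209884) (dlOf (nat_lit 3) (nat_lit 0x41018000bc07e0004a04000e060000218180b0100))))) 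
(.nd (nat_lit 5) 
(.lf (nat_lit 22839324) (dlOf (nat_lit 2) (nat_lit 0xb7280011b920024704000c0018b30481))) 
(.lf (nat_lit 22839356) (dlOf (nat_lit 1) (nat_lit 0x18008002000200260008b30d83))))) 
(.nd (nat_lit 5) (.nd (nat_lit 26) 
(.lf (nat_lit 3491528860) (dlOf (nat_lit 2) (nat_lit 0x10c1180002f0200120028090181))) 
(.lf (nat_lit 2753331356) (dlOf (nat_lit 3) (nat_lit 0xa824c000811b8000bc10001854c0000004000800200060008090182)))) 
(.nd (nat_lit 6) (.lf (nat_lit 1867964) (dlOf (nat_lit 1) (nat_lit 0x5000800d800200100008150383))) 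
(.lf (nat_lit 43812348) (dlOf (nat_lit 1) (nat_lit 0x4004000200092a3682)))))) (.nd (nat_lit 5) 
(.nd (nat_lit 9) (.nd (nat_lit 6) (.nd (nat_lit 22) 
(.lf (nat_lit 1346142236) (dlOf (nat_lit 4) (nat_lit 0x36143001f09d801204e4007c19a000310804da143027d09d813e04e4096019a0002f0800be13b0060066800044100048008000400200620008e60103))) 
(.lf (nat_lit 24936476) (dlOf (nat_lit 5) (nat_lit 0xa69000468040009346001e10200049a3000f00100034d1800750080010008002400200320008bd0a83)))) 
(.lf (nat_lit 1346142300) (dlOf (nat_lit 2) (nat_lit 0x1285300038296003a0d7000d06b00002c200108008003c00200360008e60883)))) 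
(.nd (nat_lit 7) (.nd (nat_lit 6) 
(.lf (nat_lit 8166940) (dlOf (nat_lit 1) (nat_lit 0x6002851cf01))) 
(.lf (nat_lit 8165212) (dlOf (nat_lit 1) (nat_lit 0x40020002000851a302)))) (.nd (nat_lit 8) 
(.lf (nat_lit 8163996) (dlOf (nat_lit 1) (nat_lit 0x21000800fc00200840008518c83))) 
(.lf (nat_lit 8160156) (dlOf (nat_lit 1) (nat_lit 0x400200020008512582)))))) (.nd (nat_lit 6) 
(.nd (nat_lit 8) (.nd (nat_lit 24) 
(.lf (nat_lit 45908028) (dlOf (nat_lit 1) (nat_lit 0x40019360601))) 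
(.lf (nat_lit 29130812) (dlOf (nat_lit 2) (nat_lit 0xea5a00010018dc0c80)))) 
(.lf (nat_lit 8164668) (dlOf (nat_lit 1) (nat_lit 0x20018519901)))) (.nd (nat_lit 8) 
(.lf (nat_lit 8166524) (dlOf (nat_lit 1) (nat_lit 0x2002851c101))) 
(.lf (nat_lit 54299516) (dlOf (nat_lit 1) (nat_lit 0x220019655c01))))))))))) (.nd (nat_lit 15) 
(.nd (nat_lit 28) (.nd (nat_lit 5) (.nd (nat_lit 18) (.nd (nat_lit 6) (.nd (nat_lit 26) 
(.nd (nat_lit 19) (.nd (nat_lit 8) (.nd (nat_lit 9) (.nd (nat_lit 20) 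
(.lf (nat_lit 14745628) (dlOf (nat_lit 5) (nat_lit 0x56e2800029020011c6a0008df6000edc50002289800027080013c6a002db8a000070100095c500003004002c00200060008770102))) 
(.lf (nat_lit 15794204) (dlOf (nat_lit 1) (nat_lit 0x400200020008830482)))) 
(.lf (nat_lit 40960540) (dlOf (nat_lit 1) (nat_lit 0x800400060009208702)))) (.nd (nat_lit 7) 
(.lf (nat_lit 1744896284) (dlOf (nat_lit 2) (nat_lit 0x400980012c04001000200020008090a82))) 
(.nd (nat_lit 10) (.lf (nat_lit 3355513756) (dlOf (nat_lit 1) (nat_lit 0x8400280a9101))) 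
(.lf (nat_lit 536938396) (dlOf (nat_lit 1) (nat_lit 0x80018004281)))))) (.nd (nat_lit 20) 
(.nd (nat_lit 22) (.lf (nat_lit 3221815324) (dlOf (nat_lit 1) (nat_lit 0xe0008190981))) 
(.lf (nat_lit 4784156) (dlOf (nat_lit 1) (nat_lit 0x1e00282b0101)))) (.nd (nat_lit 8) 
(.nd (nat_lit 21) 
(.lf (nat_lit 10027036) (dlOf (nat_lit 2) (nat_lit 0x170bc0008440802880080114002000c00085a0a83))) 
(.lf (nat_lit 24707100) (dlOf (nat_lit 6) (nat_lit 0xc12f24056975c0004004017ea9e000120100065e4000baeb40059612000aa7e0001004009f5848046a9f80003e0804e57900002bad0120584800034180520008032c00201a00008bb0503)))) 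
(.lf (nat_lit 7932188) (dlOf (nat_lit 1) (nat_lit 0x400200020008514b82)))))) (.nd (nat_lit 29) 
(.nd (nat_lit 7) (.nd (nat_lit 10) 
(.lf (nat_lit 4362148380) (dlOf (nat_lit 1) (nat_lit 0x5000800340020004000800b283))) 
(.lf (nat_lit 4496360988) (dlOf (nat_lit 2) (nat_lit 0x100d000098080038008000400200040008053703)))) 
(.nd (nat_lit 8) (.nd (nat_lit 10) 
(.lf (nat_lit 4362143900) (dlOf (nat_lit 1) (nat_lit 0x80018004801))) 
(.lf (nat_lit 5435884700) (dlOf (nat_lit 1) (nat_lit 0x100028002b81)))) 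
(.lf (nat_lit 4362143644) (dlOf (nat_lit 1) (nat_lit 0x400200020008004282))))) (.nd (nat_lit 19) 
(.nd (nat_lit 8) (.nd (nat_lit 9) (.nd (nat_lit 27) 
(.lf (nat_lit 1677787164) (dlOf (nat_lit 2) (nat_lit 0x2005400644818090000))) 
(.lf (nat_lit 3959488540) (dlOf (nat_lit 1) (nat_lit 0x20008090001)))) 
(.lf (nat_lit 2753626652) (dlOf (nat_lit 1) (nat_lit 0x8008000400200020008090d83)))) 
(.lf (nat_lit 3825271068) (dlOf (nat_lit 1) (nat_lit 0x3c002000800080b0482)))) (.nd (nat_lit 20) 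
(.lf (nat_lit 3960012828) (dlOf (nat_lit 1) (nat_lit 0xe0008190981))) 
(.lf (nat_lit 2755199004) (dlOf (nat_lit 1) (nat_lit 0x40018130481))))))) (.nd (nat_lit 8) 
(.nd (nat_lit 10) (.nd (nat_lit 11) (.nd (nat_lit 7) (.nd (nat_lit 19) 
(.lf (nat_lit 12648540) (dlOf (nat_lit 2) (nat_lit 0x609ac0002e0400bc004001a00186d1202))) 
(.lf (nat_lit 35192924) (dlOf (nat_lit 1) (nat_lit 0x7800801cc00200840008ff0883)))) 
(.lf (nat_lit 3211484) (dlOf (nat_lit 1) (nat_lit 0x800400020018200482)))) (.nd (nat_lit 9) 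
(.lf (nat_lit 7936092) (dlOf (nat_lit 1) (nat_lit 0xf8000851a781))) 
(.lf (nat_lit 44632668) (dlOf (nat_lit 2) (nat_lit 0x1b5d8000a00800b8008001800200080009325303))))) 
(.nd (nat_lit 9) (.nd (nat_lit 7) (.nd (nat_lit 19) 
(.lf (nat_lit 37815388) (dlOf (nat_lit 1) (nat_lit 0x200190d2901))) 
(.lf (nat_lit 39388252) (dlOf (nat_lit 1) (nat_lit 0x20029192901)))) 
(.lf (nat_lit 61408476) (dlOf (nat_lit 1) (nat_lit 0x20029922e01)))) (.nd (nat_lit 7) 
(.nd (nat_lit 12) (.lf (nat_lit 8455772) (dlOf (nat_lit 1) (nat_lit 0x20028513901))) 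
(.lf (nat_lit 3355514460) (dlOf (nat_lit 1) (nat_lit 0x4002000200080a9c02)))) 
(.lf (nat_lit 671155932) (dlOf (nat_lit 1) (nat_lit 0x40018143a81)))))) (.nd (nat_lit 7) 
(.nd (nat_lit 27) (.nd (nat_lit 9) (.nd (nat_lit 21) 
(.lf (nat_lit 1677787484) (dlOf (nat_lit 2) (nat_lit 0x27813c0001404015000400080008090682))) 
(.lf (nat_lit 10551644) (dlOf (nat_lit 1) (nat_lit 0x100080008002000400085f8d03)))) 
(.lf (nat_lit 7935836) (dlOf (nat_lit 1) (nat_lit 0x40020002000851a302)))) (.nd (nat_lit 9) 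
(.nd (nat_lit 11) (.lf (nat_lit 1208025436) (dlOf (nat_lit 1) (nat_lit 0x800400280008090e02))) 
(.lf (nat_lit 201398620) (dlOf (nat_lit 1) (nat_lit 0x10002003c000800ab82)))) 
(.lf (nat_lit 671156060) (dlOf (nat_lit 1) (nat_lit 0x20028143f81))))) (.nd (nat_lit 19) 
(.nd (nat_lit 20) (.nd (nat_lit 26) 
(.lf (nat_lit 671155164) (dlOf (nat_lit 1) (nat_lit 0x20028142881))) 
(.lf (nat_lit 2348876764) (dlOf (nat_lit 2) (nat_lit 0x8015006c4c080040008000c002002a0008002883)))) 
(.lf (nat_lit 55641052) (dlOf (nat_lit 1) (nat_lit 0xc00196d2881)))) (.nd (nat_lit 9) 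
(.nd (nat_lit 12) (.lf (nat_lit 7931356) (dlOf (nat_lit 1) (nat_lit 0x400400020018513602))) 
(.lf (nat_lit 8984028) (dlOf (nat_lit 1) (nat_lit 0x20028519b01)))) 
(.lf (nat_lit 34145244) (dlOf (nat_lit 1) (nat_lit 0x8008000400200020008fb2883)))))))) 
(.nd (nat_lit 7) (.nd (nat_lit 20) (.nd (nat_lit 26) (.nd (nat_lit 25) (.nd (nat_lit 27) 
(.nd (nat_lit 19) 
(.lf (nat_lit 537198620) (dlOf (nat_lit 1) (nat_lit 0x8008000400200020008050583))) 
(.lf (nat_lit 9240604) (dlOf (nat_lit 2) (nat_lit 0x1800000020818530100)))) (.nd (nat_lit 29) 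
(.lf (nat_lit 1208287260) (dlOf (nat_lit 2) (nat_lit 0xc80700060025001e004001b000400040000003b0a000600080b0101))) 
(.lf (nat_lit 1745158172) (dlOf (nat_lit 5) (nat_lit 0x18100012407e056203a073601c83ad00d001200600eb402605b10128278006c139c02e070401203ab008811c00180bc400a0078001000250f012a01c801b00d80588068004a031015b013002d006c048c02e01da0160153009809d8048054c022001800e0153003003480140014000000431e0252039004101a80b100d0006c06200aa0300039017805800b8013c04e02b6026005b010802c006c03cc02e00c6016010f009805c0048038c022002c00e00c900300038000000824c068c07203a003400f20088000ec1804a00080e8c0020e3600080b0103))))) 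
(.nd (nat_lit 8) (.nd (nat_lit 10) 
(.lf (nat_lit 42795036) (dlOf (nat_lit 4) (nat_lit 0x99d46004ecea005c65b0000c418005bb7400bdd46002ee9600227070008b3a8004596c0002f0c001aea2005a674800044100300008006c002000c0009280103))) 
(.lf (nat_lit 54856732) (dlOf (nat_lit 1) (nat_lit 0x1000400040009656002)))) 
(.lf (nat_lit 54856476) (dlOf (nat_lit 2) (nat_lit 0x82630005c4080018008001800200120009655c03))))) 
(.nd (nat_lit 6) (.nd (nat_lit 22) (.nd (nat_lit 29) 
(.lf (nat_lit 3288662044) (dlOf (nat_lit 2) (nat_lit 0x28017003e0c0800b80080048002002c00080a0903))) 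
(.lf (nat_lit 604307484) (dlOf (nat_lit 2) (nat_lit 0x2401e0012780801f0008010000200020008130483)))) 
(.lf (nat_lit 2755985436) (dlOf (nat_lit 1) (nat_lit 0x20002004800081c0902)))) (.nd (nat_lit 8) 
(.lf (nat_lit 3288662108) (dlOf (nat_lit 2) (nat_lit 0x2401400420078000b41000080080044002005400080a1203))) 
(.nd (nat_lit 27) (.lf (nat_lit 1678049628) (dlOf (nat_lit 1) (nat_lit 0x20028158d01))) 
(.lf (nat_lit 3959751004) (dlOf (nat_lit 2) (nat_lit 0x180380003804002800200120008138d02))))))) 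
(.nd (nat_lit 19) (.nd (nat_lit 24) (.nd (nat_lit 6) 
(.lf (nat_lit 3473436) (dlOf (nat_lit 2) (nat_lit 0x6dcc8075cc080028008005800200040008200003))) 
(.lf (nat_lit 9764956) (dlOf (nat_lit 1) (nat_lit 0x8008000400200020008580703)))) (.nd (nat_lit 8) 
(.lf (nat_lit 57999900) (dlOf (nat_lit 1) (nat_lit 0x80080004002000200097a8703))) 
(.lf (nat_lit 20250908) (dlOf (nat_lit 1) (nat_lit 0xac004000200089d0a82))))) (.nd (nat_lit 8) 
(.nd (nat_lit 23) (.lf (nat_lit 39649308) (dlOf (nat_lit 2) (nat_lit 0x89b8000208191b0100))) 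
(.lf (nat_lit 14483484) (dlOf (nat_lit 1) (nat_lit 0x980080024002000e0008760503)))) 
(.lf (nat_lit 12386588) (dlOf (nat_lit 1) (nat_lit 0x4004000200086c0482)))))) (.nd (nat_lit 19) 
(.nd (nat_lit 29) (.nd (nat_lit 20) (.nd (nat_lit 22) 
(.lf (nat_lit 1074069660) (dlOf (nat_lit 2) (nat_lit 0x9a02600017818090180))) 
(.lf (nat_lit 21299356) (dlOf (nat_lit 1) (nat_lit 0x800803e800201080008a31283)))) 
(.lf (nat_lit 11862172) (dlOf (nat_lit 2) (nat_lit 0x1b525000da8a0006d2600008c0c005c004001e00186c0182)))) 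
(.nd (nat_lit 6) (.nd (nat_lit 8) 
(.lf (nat_lit 738525340) (dlOf (nat_lit 1) (nat_lit 0x400080a2b81))) 
(.lf (nat_lit 2751793052) (dlOf (nat_lit 1) (nat_lit 0x8008001400200080008004283)))) 
(.lf (nat_lit 2818905564) (dlOf (nat_lit 1) (nat_lit 0xd0008002400200060008129b03))))) 
(.nd (nat_lit 8) (.nd (nat_lit 9) (.nd (nat_lit 26) 
(.lf (nat_lit 1900700) (dlOf (nat_lit 4) (nat_lit 0x4c54b8019aa5200b051e805d28ac0008c1004c54b8019aa5200b151e805da8ac0008a1004c54b80198a5200b151e805e28ac0007010053000200160008150182))) 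
(.lf (nat_lit 2753364124) (dlOf (nat_lit 3) (nat_lit 0x12c1120002f02005008900017018090180)))) 
(.lf (nat_lit 36506268) (dlOf (nat_lit 1) (nat_lit 0x20019075581)))) (.nd (nat_lit 11) 
(.lf (nat_lit 8196508) (dlOf (nat_lit 1) (nat_lit 0x20018518381))) 
(.lf (nat_lit 36506012) (dlOf (nat_lit 1) (nat_lit 0x20019074e81)))))))) (.nd (nat_lit 7) 
(.nd (nat_lit 18) (.nd (nat_lit 6) (.nd (nat_lit 20) (.nd (nat_lit 8) (.nd (nat_lit 9) 
(.lf (nat_lit 37814332) (dlOf (nat_lit 1) (nat_lit 0x600290d0001))) (.nd (nat_lit 10) 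
(.lf (nat_lit 44632636) (dlOf (nat_lit 2) (nat_lit 0x26e7c000573c0013b5d80017c1800b80080018002000e0009325203))) 
(.lf (nat_lit 4496361020) (dlOf (nat_lit 1) (nat_lit 0x20018053781))))) (.nd (nat_lit 22) 
(.nd (nat_lit 26) (.lf (nat_lit 5905645884) (dlOf (nat_lit 1) (nat_lit 0x600280b0581))) 
(.lf (nat_lit 6509625660) (dlOf (nat_lit 1) (nat_lit 0x600280b0581)))) 
(.lf (nat_lit 54591804) (dlOf (nat_lit 1) (nat_lit 0x140002005e0009650b82))))) (.nd (nat_lit 24) 
(.nd (nat_lit 9) (.lf (nat_lit 12124220) (dlOf (nat_lit 1) (nat_lit 0x4004000200086c0002))) 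
(.lf (nat_lit 11600444) (dlOf (nat_lit 1) (nat_lit 0x600086c1001)))) (.nd (nat_lit 10) 
(.lf (nat_lit 17891388) (dlOf (nat_lit 2) (nat_lit 0x8719c000000400d8004000a0008900c82))) 
(.lf (nat_lit 61932604) (dlOf (nat_lit 1) (nat_lit 0x19800400860009922882)))))) (.nd (nat_lit 27) 
(.nd (nat_lit 29) (.nd (nat_lit 30) 
(.lf (nat_lit 6442516604) (dlOf (nat_lit 1) (nat_lit 0x400200060008090082))) 
(.lf (nat_lit 3221291132) (dlOf (nat_lit 2) (nat_lit 0x80a2001fd0200020008090081)))) 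
(.nd (nat_lit 8) (.nd (nat_lit 19) 
(.lf (nat_lit 1677787260) (dlOf (nat_lit 2) (nat_lit 0xa002a8050014c017009c006a03700a00090050002800468180018004000e0008090082))) 
(.lf (nat_lit 537460860) (dlOf (nat_lit 1) (nat_lit 0x40018090081)))) 
(.lf (nat_lit 536938364) (dlOf (nat_lit 1) (nat_lit 0x1c0018004101))))) (.nd (nat_lit 9) 
(.nd (nat_lit 26) (.lf (nat_lit 1744896124) (dlOf (nat_lit 2) (nat_lit 0x40380000b818090280))) 
(.lf (nat_lit 3959488636) (dlOf (nat_lit 2) (nat_lit 0x80a2001eb0200020008090081)))) 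
(.lf (nat_lit 1744898684) (dlOf (nat_lit 1) (nat_lit 0x20018095401)))))) (.nd (nat_lit 21) 
(.nd (nat_lit 27) (.nd (nat_lit 19) 
(.lf (nat_lit 3288662076) (dlOf (nat_lit 9) (nat_lit 0xf00170000d80808900b8000680404f005a0003202015402d00018010042017009e80b40004608049c05a000220201b002d000108100e60170000000803c800801a0002018200080a0c83))) 
(.nd (nat_lit 22) (.lf (nat_lit 34406460) (dlOf (nat_lit 1) (nat_lit 0x20028fb0001))) 
(.lf (nat_lit 21823548) (dlOf (nat_lit 5) (nat_lit 0xec6458075f0e00003e04001b9160010c380000f410039e45801b70e0001d86f0001b83000fc8b0006e1c00000008003400400c60018a70702))))) 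
(.nd (nat_lit 8) (.nd (nat_lit 31) 
(.lf (nat_lit 1208287292) (dlOf (nat_lit 3) (nat_lit 0x4e009c0270014002360402a20290022014006c8030000fe0c0134004005200080b0482))) 
(.lf (nat_lit 3355770940) (dlOf (nat_lit 1) (nat_lit 0x1b80080014002003e0008110d83)))) 
(.lf (nat_lit 3959750972) (dlOf (nat_lit 1) (nat_lit 0x40018138501))))) (.nd (nat_lit 19) 
(.nd (nat_lit 6) (.nd (nat_lit 9) 
(.lf (nat_lit 2753888316) (dlOf (nat_lit 1) (nat_lit 0x200080a0c81))) 
(.lf (nat_lit 23396924) (dlOf (nat_lit 2) (nat_lit 0x6be458033b0e0000040400300008b81001)))) 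
(.lf (nat_lit 35981692) (dlOf (nat_lit 1) (nat_lit 0x20019014e81)))) (.nd (nat_lit 8) 
(.nd (nat_lit 20) 
(.lf (nat_lit 11337788) (dlOf (nat_lit 2) (nat_lit 0x13e800050c080050008000c00200060008690d83))) 
(.lf (nat_lit 3997756) (dlOf (nat_lit 1) (nat_lit 0x1c0028261401)))) 
(.lf (nat_lit 8197436) (dlOf (nat_lit 1) (nat_lit 0x400200020008519902))))))) (.nd (nat_lit 8) 
(.nd (nat_lit 6) (.nd (nat_lit 18) (.nd (nat_lit 9) (.nd (nat_lit 20) 
(.lf (nat_lit 3959488700) (dlOf (nat_lit 1) (nat_lit 0x60008090381))) 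
(.lf (nat_lit 3211452) (dlOf (nat_lit 1) (nat_lit 0x20018200381)))) 
(.lf (nat_lit 201393852) (dlOf (nat_lit 1) (nat_lit 0xa0028003a81)))) (.nd (nat_lit 19) 
(.lf (nat_lit 11862204) (dlOf (nat_lit 3) (nat_lit 0x26a870000bc08009d4880002404002c004001000086c0382))) 
(.lf (nat_lit 1900732) (dlOf (nat_lit 10) (nat_lit 0x33a97801114ba001aa5c00ec52a0030a94c01614a401f4a3f004c51f002128f4002547201c2a2d00615158021a80000d93ea018c98800ca4c1000d260400a1300002097f0005213001f813c01b80000002f2c0020a5d000f52e000b295001354a40058a3f001151e8027a8ac00153100002980002e027801380000005c2c01a14ba0002c020004a5d0001501013e523800080080072978002d4b80008a47008551a8051a60800252e200ce43100052178016805402fc00000012140212a35009f4c9802a805401a4000000110800a00000000681013952380000008412000816c00020eb60008150383))))) 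
(.nd (nat_lit 10) (.nd (nat_lit 9) 
(.lf (nat_lit 1744896252) (dlOf (nat_lit 1) (nat_lit 0x20018090a81))) 
(.lf (nat_lit 7936764) (dlOf (nat_lit 1) (nat_lit 0x2002851b981)))) (.nd (nat_lit 26) 
(.lf (nat_lit 671155964) (dlOf (nat_lit 2) (nat_lit 0x240500002c02000a0008143b81))) 
(.lf (nat_lit 2348877564) (dlOf (nat_lit 10) (nat_lit 0x5602a000288100300150001400801280a80009e0400940540004802003c02a0002381002a0150001180801180a8000880400580540004302006002a00020080000e0100288008003800200120008003b83)))))) 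
(.nd (nat_lit 9) (.nd (nat_lit 10) (.nd (nat_lit 20) 
(.lf (nat_lit 2818638268) (dlOf (nat_lit 1) (nat_lit 0x8008000400200080008081083))) 
(.lf (nat_lit 11600316) (dlOf (nat_lit 1) (nat_lit 0x200286c0881)))) (.nd (nat_lit 18) 
(.lf (nat_lit 61408700) (dlOf (nat_lit 1) (nat_lit 0x240019923601))) 
(.lf (nat_lit 52757948) (dlOf (nat_lit 1) (nat_lit 0x20019573601))))) (.nd (nat_lit 6) 
(.nd (nat_lit 10) 
(.lf (nat_lit 134290364) (dlOf (nat_lit 1) (nat_lit 0xb8008000c0020044000800be03))) 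
(.lf (nat_lit 2751793084) (dlOf (nat_lit 1) (nat_lit 0x20018004381)))) (.nd (nat_lit 19) 
(.lf (nat_lit 2751529980) (dlOf (nat_lit 1) (nat_lit 0x400200020008002882))) 
(.lf (nat_lit 7930876) (dlOf (nat_lit 1) (nat_lit 0x100018512881))))))))) (.nd (nat_lit 26) 
(.nd (nat_lit 18) (.nd (nat_lit 7) (.nd (nat_lit 5) (.nd (nat_lit 6) (.nd (nat_lit 20) 
(.nd (nat_lit 8) (.lf (nat_lit 4563471388) (dlOf (nat_lit 1) (nat_lit 0x20018096001))) 
(.lf (nat_lit 4563468572) (dlOf (nat_lit 1) (nat_lit 0x400400020008090a82)))) (.nd (nat_lit 19) 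
(.lf (nat_lit 1343291420) (dlOf (nat_lit 1) (nat_lit 0x200181e0501))) 
(.lf (nat_lit 3493396508) (dlOf (nat_lit 1) (nat_lit 0x60018130481))))) (.nd (nat_lit 8) 
(.lf (nat_lit 3087073372) (dlOf (nat_lit 1) (nat_lit 0x40002000a00080b0002))) 
(.lf (nat_lit 805372252) (dlOf (nat_lit 2) (nat_lit 0x27813c0001404015000400080008090682))))) 
(.nd (nat_lit 9) (.nd (nat_lit 6) (.nd (nat_lit 11) 
(.lf (nat_lit 268501052) (dlOf (nat_lit 1) (nat_lit 0x90008004400200040008050003))) 
(.lf (nat_lit 3623946300) (dlOf (nat_lit 2) (nat_lit 0x400000000004004400200140008004702)))) 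
(.lf (nat_lit 805372028) (dlOf (nat_lit 2) (nat_lit 0xa002a8050014c017009c006a03700a00090050002800498180018004000e0008090082)))) 
(.nd (nat_lit 6) (.nd (nat_lit 27) 
(.lf (nat_lit 2952861500) (dlOf (nat_lit 2) (nat_lit 0x400d00138008000a20800140020024000800a102))) 
(.lf (nat_lit 1476466492) (dlOf (nat_lit 1) (nat_lit 0x140020006000800a102)))) 
(.lf (nat_lit 6710954620) (dlOf (nat_lit 1) (nat_lit 0x400200020008005402)))))) (.nd (nat_lit 6) 
(.nd (nat_lit 9) (.nd (nat_lit 5) (.nd (nat_lit 8) 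
(.lf (nat_lit 3491823772) (dlOf (nat_lit 2) (nat_lit 0x7e04400017818090180))) 
(.lf (nat_lit 3491824028) (dlOf (nat_lit 1) (nat_lit 0xa40008000400203e00008090783)))) 
(.lf (nat_lit 1342250172) (dlOf (nat_lit 1) (nat_lit 0x800800200020004000800c203)))) 
(.nd (nat_lit 5) (.nd (nat_lit 27) 
(.lf (nat_lit 4563471260) (dlOf (nat_lit 1) (nat_lit 0x2000800a400200320008095c83))) 
(.lf (nat_lit 5234559900) (dlOf (nat_lit 1) (nat_lit 0x100008008c00200160008055c83)))) 
(.lf (nat_lit 4563471292) (dlOf (nat_lit 1) (nat_lit 0x20028095d01))))) (.nd (nat_lit 11) 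
(.nd (nat_lit 8) 
(.lf (nat_lit 2952861404) (dlOf (nat_lit 1) (nat_lit 0x8008003c002004e000800a003))) 
(.nd (nat_lit 32) (.lf (nat_lit 402719708) (dlOf (nat_lit 1) (nat_lit 0x400400020008092882))) 
(.lf (nat_lit 4697687004) (dlOf (nat_lit 1) (nat_lit 0x8008000400200020008092883))))) 
(.nd (nat_lit 5) 
(.lf (nat_lit 4563471324) (dlOf (nat_lit 1) (nat_lit 0x88008000c002002c0008095e03))) 
(.lf (nat_lit 6710955004) (dlOf (nat_lit 1) (nat_lit 0x400400020008005f02))))))) (.nd (nat_lit 31) 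
(.nd (nat_lit 6) (.nd (nat_lit 5) (.nd (nat_lit 7) (.nd (nat_lit 30) 
(.lf (nat_lit 268763164) (dlOf (nat_lit 3) (nat_lit 0x57c04e0003202002401d00018018130500))) 
(.lf (nat_lit 1342504988) (dlOf (nat_lit 1) (nat_lit 0xc00200040008040482)))) 
(.lf (nat_lit 402981020) (dlOf (nat_lit 1) (nat_lit 0x1c00180c1281)))) (.nd (nat_lit 8) 
(.lf (nat_lit 268763196) (dlOf (nat_lit 3) (nat_lit 0xd015000680a4004405000a0c06001602a000b014800800a0014160c005c004000e0008131682))) 
(.lf (nat_lit 1879906108) (dlOf (nat_lit 1) (nat_lit 0x4004000200083da102))))) (.nd (nat_lit 7) 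
(.nd (nat_lit 8) (.lf (nat_lit 1346175068) (dlOf (nat_lit 1) (nat_lit 0x400400020008e60882))) 
(.lf (nat_lit 805634396) (dlOf (nat_lit 1) (nat_lit 0x20018158b01)))) (.nd (nat_lit 5) 
(.nd (nat_lit 8) (.lf (nat_lit 402981084) (dlOf (nat_lit 1) (nat_lit 0x4004000200080c1982))) 
(.lf (nat_lit 1880949724) (dlOf (nat_lit 1) (nat_lit 0x8008000400200020008d72883)))) 
(.lf (nat_lit 805634300) (dlOf (nat_lit 1) (nat_lit 0x17a0028157101)))))) (.nd (nat_lit 29) 
(.nd (nat_lit 5) (.nd (nat_lit 7) 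
(.lf (nat_lit 3494182940) (dlOf (nat_lit 1) (nat_lit 0x20002004800081c0902))) 
(.lf (nat_lit 3491561628) (dlOf (nat_lit 2) (nat_lit 0x60460000b80800280080028002002c0008090183)))) 
(.nd (nat_lit 7) (.nd (nat_lit 8) 
(.lf (nat_lit 3492085820) (dlOf (nat_lit 1) (nat_lit 0x200080a0c81))) 
(.lf (nat_lit 3624209724) (dlOf (nat_lit 1) (nat_lit 0xb4004006a0008146902)))) 
(.lf (nat_lit 3489995708) (dlOf (nat_lit 1) (nat_lit 0xa000800be01))))) (.nd (nat_lit 5) 
(.nd (nat_lit 6) (.nd (nat_lit 27) (.nd (nat_lit 30) 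
(.lf (nat_lit 2953117724) (dlOf (nat_lit 1) (nat_lit 0x400200020008140682))) 
(.lf (nat_lit 4026859548) (dlOf (nat_lit 2) (nat_lit 0x28017003e480800b80080048002002c00080a0903)))) 
(.lf (nat_lit 4161077276) (dlOf (nat_lit 1) (nat_lit 0x38008003800200200008120483)))) 
(.lf (nat_lit 4026859612) (dlOf (nat_lit 2) (nat_lit 0x24014004200780005c1000080080044002005400080a1203)))) 
(.lf (nat_lit 4026859580) (dlOf (nat_lit 9) (nat_lit 0xf00170000780808900b8000380404f005a0001a02015402d0000c010042017009e80b40001608049c05a0000a0201b002d000048100e60170000000803c800801a0002018200080a0c83))))))) 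
(.nd (nat_lit 5) (.nd (nat_lit 27) (.nd (nat_lit 7) (.nd (nat_lit 8) (.nd (nat_lit 18) 
(.lf (nat_lit 3557359644) (dlOf (nat_lit 1) (nat_lit 0x28008011c002005600081c0503))) 
(.nd (nat_lit 29) 
(.lf (nat_lit 1409613852) (dlOf (nat_lit 1) (nat_lit 0x8008000400200020008050583))) 
(.lf (nat_lit 872742940) (dlOf (nat_lit 5) (nat_lit 0x18100012407e056203a073601c83ad00d001200600eb402605b10128278006c139c02e070401203ab008811c00180bc400a0078001000250f012a01c801b00d80588068004a031015b013002d006c048c02e01da0160153009809d8048054c022001800e0153003003480140014000000431e0252039004101a80b100d0006c06200aa0300039017805800b8013c04e02b6026005b010802c006c03cc02e00c6016010f009805c0048038c022002c00e00c900300038000000824c068c07203a003400f20088000ec1804a00080e8c0020e3600080b0103))))) 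
(.nd (nat_lit 19) (.lf (nat_lit 335610140) (dlOf (nat_lit 1) (nat_lit 0x400400020008090a82))) 
(.lf (nat_lit 4094230812) (dlOf (nat_lit 1) (nat_lit 0x8008000400200020008028003))))) 
(.nd (nat_lit 30) (.nd (nat_lit 6) (.nd (nat_lit 10) 
(.lf (nat_lit 335872156) (dlOf (nat_lit 1) (nat_lit 0x1c00180c1281))) 
(.lf (nat_lit 872481948) (dlOf (nat_lit 1) (nat_lit 0xc00200020008092b82)))) 
(.lf (nat_lit 872481756) (dlOf (nat_lit 1) (nat_lit 0x400400020008092882)))) (.nd (nat_lit 8) 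
(.nd (nat_lit 18) (.lf (nat_lit 4095279260) (dlOf (nat_lit 1) (nat_lit 0x400400020008081282))) 
(.lf (nat_lit 1946484892) (dlOf (nat_lit 2) (nat_lit 0x9a02600017818090180)))) 
(.lf (nat_lit 5704321948) (dlOf (nat_lit 1) (nat_lit 0x40028055c81)))))) (.nd (nat_lit 18) 
(.nd (nat_lit 7) (.nd (nat_lit 9) (.nd (nat_lit 19) 
(.lf (nat_lit 470876188) (dlOf (nat_lit 1) (nat_lit 0x3c004000600081c0502))) (.nd (nat_lit 22) 
(.lf (nat_lit 1007222812) (dlOf (nat_lit 1) (nat_lit 0x1a0028270481))) 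
(.lf (nat_lit 474546204) (dlOf (nat_lit 2) (nat_lit 0x8304b003b021402140ea010a073006600d0001042801b80080004002000800091a0103))))) 
(.nd (nat_lit 6) (.lf (nat_lit 469834524) (dlOf (nat_lit 1) (nat_lit 0x2002800bb81))) 
(.lf (nat_lit 2617316956) (dlOf (nat_lit 1) (nat_lit 0x18004000400080a9c02))))) (.nd (nat_lit 6) 
(.nd (nat_lit 19) (.lf (nat_lit 471924892) (dlOf (nat_lit 1) (nat_lit 0x600086b0481))) 
(.lf (nat_lit 3154706588) (dlOf (nat_lit 1) (nat_lit 0x10008002400200040008310483)))) 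
(.lf (nat_lit 2080441564) (dlOf (nat_lit 1) (nat_lit 0x1c00400020018092e02))))) (.nd (nat_lit 30) 
(.nd (nat_lit 6) (.nd (nat_lit 31) 
(.lf (nat_lit 470089756) (dlOf (nat_lit 1) (nat_lit 0xc00200020008040482))) 
(.lf (nat_lit 2617573404) (dlOf (nat_lit 2) (nat_lit 0x7202b000d4018100480)))) 
(.lf (nat_lit 473759836) (dlOf (nat_lit 2) (nat_lit 0xe15700090670004001000100080014002000c0008fa0083)))) 
(.nd (nat_lit 29) (.nd (nat_lit 31) 
(.lf (nat_lit 5838798876) (dlOf (nat_lit 1) (nat_lit 0x4004000200081b0002))) 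
(.lf (nat_lit 3691315228) (dlOf (nat_lit 1) (nat_lit 0x400200020008140682)))) 
(.lf (nat_lit 2080702492) (dlOf (nat_lit 2) (nat_lit 0xc80700060025001e004001b000400040000003b0a000600080b0101))))))) 
(.nd (nat_lit 30) (.nd (nat_lit 7) (.nd (nat_lit 31) (.nd (nat_lit 18) (.nd (nat_lit 20) 
(.lf (nat_lit 474021948) (dlOf (nat_lit 4) (nat_lit 0x385b000200060014001003a203000b0b60003800c00240020074306000216c00090018005000400e740c001000400180019000002))) 
(.lf (nat_lit 470876220) (dlOf (nat_lit 1) (nat_lit 0x3800181c0901)))) 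
(.lf (nat_lit 1008533564) (dlOf (nat_lit 1) (nat_lit 0x340028d70001)))) (.nd (nat_lit 6) 
(.nd (nat_lit 9) 
(.lf (nat_lit 2617311292) (dlOf (nat_lit 1) (nat_lit 0x700080004002001e00080a0003))) 
(.lf (nat_lit 2617316924) (dlOf (nat_lit 1) (nat_lit 0x80080004002000200080a9c03)))) 
(.lf (nat_lit 2483096956) (dlOf (nat_lit 3) (nat_lit 0x100100001d0100080080000cc08009000800f000200620008006c03))))) 
(.nd (nat_lit 6) (.nd (nat_lit 10) 
(.lf (nat_lit 470352060) (dlOf (nat_lit 3) (nat_lit 0x1e0e28000bc0800d07140005c040010004005400180c0382))) 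
(.lf (nat_lit 473760956) (dlOf (nat_lit 1) (nat_lit 0x40018fa2c81)))) (.nd (nat_lit 8) 
(.lf (nat_lit 1008795900) (dlOf (nat_lit 2) (nat_lit 0x5030800000080008008001800200080008f82903))) 
(.lf (nat_lit 473498620) (dlOf (nat_lit 1) (nat_lit 0x400400020008f52882)))))) (.nd (nat_lit 6) 
(.nd (nat_lit 9) (.nd (nat_lit 7) (.nd (nat_lit 8) 
(.lf (nat_lit 2080702524) (dlOf (nat_lit 3) (nat_lit 0x4e009c0270014002360402a20290022014006c8030000fe0c0134004005200080b0482))) 
(.lf (nat_lit 3556835644) (dlOf (nat_lit 1) (nat_lit 0x20008080b81)))) 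
(.lf (nat_lit 1543572668) (dlOf (nat_lit 1) (nat_lit 0x18008002000200040008146303)))) 
(.nd (nat_lit 7) (.nd (nat_lit 18) 
(.lf (nat_lit 3691059004) (dlOf (nat_lit 1) (nat_lit 0x2002800a101))) 
(.lf (nat_lit 3557103420) (dlOf (nat_lit 3) (nat_lit 0xc000000110100030100000000800e800800140020010000812a103)))) 
(.lf (nat_lit 5704321980) (dlOf (nat_lit 8) (nat_lit 0x140190009005000500240002e0c002401400016020014019001d00500004410004806400240140001004001000a0000201000100c8002002800004080024014000000200640018055d01))))) 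
(.nd (nat_lit 7) (.nd (nat_lit 19) 
(.lf (nat_lit 5838536828) (dlOf (nat_lit 1) (nat_lit 0x400200060008090082))) 
(.lf (nat_lit 1409876092) (dlOf (nat_lit 1) (nat_lit 0x28008000400200020008090083)))) 
(.nd (nat_lit 8) (.nd (nat_lit 11) 
(.lf (nat_lit 2080441596) (dlOf (nat_lit 1) (nat_lit 0x20018092f01))) 
(.lf (nat_lit 1409355004) (dlOf (nat_lit 1) (nat_lit 0x1c0018006601)))) 
(.lf (nat_lit 4096067068) (dlOf (nat_lit 1) (nat_lit 0xa0008004c002001800080e3683)))))))))) 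
(.nd (nat_lit 5) (.nd (nat_lit 18) (.nd (nat_lit 6) (.nd (nat_lit 19) (.nd (nat_lit 26) 
(.nd (nat_lit 28) (.nd (nat_lit 7) (.nd (nat_lit 20) 
(.lf (nat_lit 6576767004) (dlOf (nat_lit 1) (nat_lit 0xa600080d0a01))) 
(.lf (nat_lit 3244060) (dlOf (nat_lit 1) (nat_lit 0xc800800e8002002a0008200003)))) 
(.lf (nat_lit 2195612) (dlOf (nat_lit 4) (nat_lit 0x1194b800046020068a5c0002281001e52e0000e0080340008034000200020008150183)))) 
(.nd (nat_lit 7) (.nd (nat_lit 8) 
(.lf (nat_lit 2013364252) (dlOf (nat_lit 1) (nat_lit 0x1c00400080008020102))) 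
(.lf (nat_lit 1342282012) (dlOf (nat_lit 4) (nat_lit 0xd0b080068274003411c00022060020161001004e80070238000400c003c2c2001e09d000e0470000601800f8008008c0020008000800ab03)))) 
(.lf (nat_lit 4563504028) (dlOf (nat_lit 2) (nat_lit 0x80280009004003000200060008095c82))))) 
(.nd (nat_lit 29) (.nd (nat_lit 7) (.nd (nat_lit 20) 
(.lf (nat_lit 1140949020) (dlOf (nat_lit 1) (nat_lit 0x1c00400080008020102))) 
(.lf (nat_lit 68255772) (dlOf (nat_lit 1) (nat_lit 0x200184c0481)))) 
(.lf (nat_lit 5838576540) (dlOf (nat_lit 1) (nat_lit 0x80080004002000200080fbc83)))) 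
(.nd (nat_lit 7) (.nd (nat_lit 20) 
(.lf (nat_lit 5972787228) (dlOf (nat_lit 4) (nat_lit 0x1c01a0004000006f602000400000379c0800c003401bbe040018004000a00180d0a02))) 
(.lf (nat_lit 2752610332) (dlOf (nat_lit 2) (nat_lit 0x1815d0007c018020480)))) 
(.lf (nat_lit 2751563420) (dlOf (nat_lit 1) (nat_lit 0x340028003a81)))))) (.nd (nat_lit 20) 
(.nd (nat_lit 22) (.nd (nat_lit 8) (.nd (nat_lit 9) 
(.lf (nat_lit 3557392412) (dlOf (nat_lit 1) (nat_lit 0x140004000200081e0682))) 
(.lf (nat_lit 50954780) (dlOf (nat_lit 3) (nat_lit 0xb92c0009c6040024960004d102004000194d8701)))) 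
(.lf (nat_lit 629020) (dlOf (nat_lit 1) (nat_lit 0x80008000c0020006000800ab03)))) (.nd (nat_lit 25) 
(.lf (nat_lit 21594140) (dlOf (nat_lit 2) (nat_lit 0x1362610099930400064080054002000c0008a50502))) 
(.lf (nat_lit 55148572) (dlOf (nat_lit 1) (nat_lit 0x200096c0281))))) (.nd (nat_lit 8) 
(.nd (nat_lit 21) 
(.lf (nat_lit 471433244) (dlOf (nat_lit 1) (nat_lit 0x10008027c002009600082f0a03))) 
(.lf (nat_lit 54099996) (dlOf (nat_lit 1) (nat_lit 0x1000400060009610102)))) (.nd (nat_lit 7) 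
(.lf (nat_lit 7964956) (dlOf (nat_lit 2) (nat_lit 0x8fb4001c604000400200020008514b82))) 
(.lf (nat_lit 2753135004) (dlOf (nat_lit 2) (nat_lit 0x8a1f900750018090780))))))) (.nd (nat_lit 8) 
(.nd (nat_lit 7) (.nd (nat_lit 19) (.nd (nat_lit 9) (.nd (nat_lit 10) 
(.lf (nat_lit 2483126364) (dlOf (nat_lit 1) (nat_lit 0x8008000400200020008020b03))) 
(.lf (nat_lit 2818671708) (dlOf (nat_lit 1) (nat_lit 0x3c00280d2901)))) 
(.lf (nat_lit 3355542108) (dlOf (nat_lit 2) (nat_lit 0x240540001902000400180a1681)))) 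
(.nd (nat_lit 11) (.lf (nat_lit 1008304220) (dlOf (nat_lit 1) (nat_lit 0x40018b50081))) 
(.lf (nat_lit 7968860) (dlOf (nat_lit 1) (nat_lit 0x40040002000851a782))))) (.nd (nat_lit 26) 
(.nd (nat_lit 10) 
(.lf (nat_lit 4563501276) (dlOf (nat_lit 9) (nat_lit 0x400d00002c0400dc068000401f0000a82004701a0000500800b00d00002604003c0680016032001000f8000141800500d00024064001601f0000203000e01a000600c8001803e0000306000c034000c0190004007c000040c000400400840018090a02))) 
(.lf (nat_lit 105692) (dlOf (nat_lit 1) (nat_lit 0x40040002000800c482)))) (.nd (nat_lit 20) 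
(.lf (nat_lit 3959521500) (dlOf (nat_lit 1) (nat_lit 0x20028090481))) 
(.lf (nat_lit 6376489180) (dlOf (nat_lit 1) (nat_lit 0x3800201100008090a02)))))) (.nd (nat_lit 29) 
(.nd (nat_lit 20) (.nd (nat_lit 26) (.nd (nat_lit 30) 
(.lf (nat_lit 2550235484) (dlOf (nat_lit 1) (nat_lit 0x40008001c002000c0008014e83))) 
(.lf (nat_lit 1476493660) (dlOf (nat_lit 1) (nat_lit 0x800200020008010902)))) (.nd (nat_lit 30) 
(.lf (nat_lit 6509658460) (dlOf (nat_lit 4) (nat_lit 0x2a0000002b01001d00000004c080008000000240400dc002003400080b0682))) 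
(.lf (nat_lit 3288432988) (dlOf (nat_lit 1) (nat_lit 0x400400020008014e82))))) (.nd (nat_lit 7) 
(.lf (nat_lit 3244380) (dlOf (nat_lit 1) (nat_lit 0x500080014002000a0008200683))) (.nd (nat_lit 19) 
(.lf (nat_lit 36799452) (dlOf (nat_lit 1) (nat_lit 0xa0019072881))) 
(.lf (nat_lit 49906652) (dlOf (nat_lit 1) (nat_lit 0x200094c2881)))))) (.nd (nat_lit 28) 
(.nd (nat_lit 7) (.nd (nat_lit 26) 
(.lf (nat_lit 5905678684) (dlOf (nat_lit 4) (nat_lit 0x2a0000002b01001d00000004c080008000000240400dc002003400080b0682))) 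
(.lf (nat_lit 1677820252) (dlOf (nat_lit 1) (nat_lit 0x280028090681)))) 
(.lf (nat_lit 2818671580) (dlOf (nat_lit 1) (nat_lit 0x3c00280d2881)))) (.nd (nat_lit 30) 
(.lf (nat_lit 805405020) (dlOf (nat_lit 1) (nat_lit 0x280028090681))) 
(.lf (nat_lit 4026630492) (dlOf (nat_lit 1) (nat_lit 0x4800400320008014e02)))))))) (.nd (nat_lit 6) 
(.nd (nat_lit 19) (.nd (nat_lit 26) (.nd (nat_lit 20) (.nd (nat_lit 30) (.nd (nat_lit 21) 
(.lf (nat_lit 134578204) (dlOf (nat_lit 2) (nat_lit 0x5400c402d1804000400400020008080502))) 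
(.lf (nat_lit 27623452) (dlOf (nat_lit 2) (nat_lit 0x553e00a680200060018d00681)))) 
(.nd (nat_lit 22) 
(.lf (nat_lit 3221585948) (dlOf (nat_lit 2) (nat_lit 0x1a02300048808008000801ec00201880008150583))) 
(.lf (nat_lit 1346732060) (dlOf (nat_lit 2) (nat_lit 0x5e15600330a1801d84ec00b019a0050085001c03a800e81cc000821c000800400080019000102))))) 
(.nd (nat_lit 8) (.lf (nat_lit 55935004) (dlOf (nat_lit 1) (nat_lit 0x500080008002000e00096f0103))) 
(.nd (nat_lit 22) 
(.lf (nat_lit 20283676) (dlOf (nat_lit 1) (nat_lit 0x1b80080004002000200089d0a83))) 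
(.lf (nat_lit 58032412) (dlOf (nat_lit 1) (nat_lit 0x400097b8001)))))) (.nd (nat_lit 28) 
(.nd (nat_lit 27) 
(.lf (nat_lit 4362436636) (dlOf (nat_lit 3) (nat_lit 0x2408e01513020010047000801980525c100018008014800200040008080503))) 
(.nd (nat_lit 29) 
(.lf (nat_lit 201687068) (dlOf (nat_lit 2) (nat_lit 0x5400c402a3a04000400400020008080502))) 
(.lf (nat_lit 3959783452) (dlOf (nat_lit 2) (nat_lit 0x1a02300049408008000801ec00201880008150583))))) 
(.nd (nat_lit 29) 
(.lf (nat_lit 2617606172) (dlOf (nat_lit 2) (nat_lit 0x10056001a80200020028100481))) 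
(.nd (nat_lit 30) 
(.lf (nat_lit 3154477084) (dlOf (nat_lit 4) (nat_lit 0x300aa0014034000300a0000a41800c819000c40c0000e05a002702a801580d0002005e004a028002200a0013000c0004e24000c0aa0006034000600a00007c180070008000c002002200081a0103))) 
(.lf (nat_lit 4228218908) (dlOf (nat_lit 3) (nat_lit 0x240800168202001004000080190057ec100018008014800200040008080503))))))) 
(.nd (nat_lit 7) (.nd (nat_lit 20) (.nd (nat_lit 21) (.nd (nat_lit 25) 
(.lf (nat_lit 9273372) (dlOf (nat_lit 1) (nat_lit 0x120018530101))) 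
(.lf (nat_lit 42827804) (dlOf (nat_lit 3) (nat_lit 0xd40000000bc0805300000000004005000400100009280102)))) 
(.nd (nat_lit 9) (.lf (nat_lit 11370524) (dlOf (nat_lit 1) (nat_lit 0x400400020018690482))) 
(.lf (nat_lit 19766812) (dlOf (nat_lit 1) (nat_lit 0x6c002004e00089dcf02))))) (.nd (nat_lit 8) 
(.nd (nat_lit 22) (.lf (nat_lit 27099164) (dlOf (nat_lit 1) (nat_lit 0x20018ca0501))) 
(.lf (nat_lit 22904860) (dlOf (nat_lit 1) (nat_lit 0x20028b40481)))) 
(.lf (nat_lit 12419356) (dlOf (nat_lit 1) (nat_lit 0x10002000200086c0482))))) (.nd (nat_lit 8) 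
(.nd (nat_lit 10) (.nd (nat_lit 20) 
(.lf (nat_lit 23953564) (dlOf (nat_lit 1) (nat_lit 0x52000402ce0008b80182))) 
(.lf (nat_lit 20807836) (dlOf (nat_lit 2) (nat_lit 0x473680009c040004002000200089e2b82)))) 
(.lf (nat_lit 5772248220) (dlOf (nat_lit 2) (nat_lit 0x301c8007e0080028008001400200080008092b83)))) 
(.nd (nat_lit 9) (.nd (nat_lit 20) 
(.lf (nat_lit 23953820) (dlOf (nat_lit 1) (nat_lit 0x294004006a0008b80782))) 
(.lf (nat_lit 8225180) (dlOf (nat_lit 1) (nat_lit 0x400200020008511002)))) 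
(.lf (nat_lit 45976476) (dlOf (nat_lit 1) (nat_lit 0x20029385c81))))))) (.nd (nat_lit 7) 
(.nd (nat_lit 26) (.nd (nat_lit 20) (.nd (nat_lit 21) (.nd (nat_lit 27) 
(.lf (nat_lit 4563763292) (dlOf (nat_lit 3) (nat_lit 0x19c06a007802b012d0148066009c0220036000201900050008000543805900d4047005201a8027000090380d0700))) 
(.lf (nat_lit 4697981020) (dlOf (nat_lit 3) (nat_lit 0x19c06a007802b012d0148066009c0220036000201900050008000543805900d4047005201a8027000090380d0700)))) 
(.lf (nat_lit 3492118620) (dlOf (nat_lit 1) (nat_lit 0x4004000200180a1202)))) (.nd (nat_lit 19) 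
(.lf (nat_lit 9797724) (dlOf (nat_lit 2) (nat_lit 0x37b30001a018580700))) 
(.lf (nat_lit 1346207836) (dlOf (nat_lit 3) (nat_lit 0x27857c01882bc00ac155005d06b802f83580118136006a095005804580002c400078554000000401bc00400220008e60882))))) 
(.nd (nat_lit 29) (.nd (nat_lit 8) 
(.lf (nat_lit 335904860) (dlOf (nat_lit 1) (nat_lit 0x200280d1b81))) 
(.lf (nat_lit 3557130588) (dlOf (nat_lit 1) (nat_lit 0x20018130901)))) (.nd (nat_lit 21) 
(.lf (nat_lit 872775772) (dlOf (nat_lit 1) (nat_lit 0x4004000200080d1882))) 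
(.lf (nat_lit 2753921116) (dlOf (nat_lit 1) (nat_lit 0x4004000200180a1202)))))) (.nd (nat_lit 9) 
(.nd (nat_lit 27) (.nd (nat_lit 20) 
(.lf (nat_lit 2953150684) (dlOf (nat_lit 2) (nat_lit 0x3013800104080020008007400200020008160583))) 
(.lf (nat_lit 13992156) (dlOf (nat_lit 2) (nat_lit 0x2377800094080008008000800200020008750583)))) 
(.nd (nat_lit 26) 
(.lf (nat_lit 1208320220) (dlOf (nat_lit 3) (nat_lit 0x402d000180100010188000980800100080004002000200080c1c83))) 
(.lf (nat_lit 3691348188) (dlOf (nat_lit 2) (nat_lit 0x3011000104080020008007400200020008160583))))) 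
(.nd (nat_lit 19) (.nd (nat_lit 8) 
(.lf (nat_lit 8754908) (dlOf (nat_lit 1) (nat_lit 0x1000800040020002000851a003))) 
(.lf (nat_lit 2751824860) (dlOf (nat_lit 1) (nat_lit 0xc00200020008002882)))) (.nd (nat_lit 20) 
(.lf (nat_lit 5772248028) (dlOf (nat_lit 1) (nat_lit 0x400400020008092882))) 
(.lf (nat_lit 62751708) (dlOf (nat_lit 1) (nat_lit 0x58002001e00099a2882))))))))) (.nd (nat_lit 6) 
(.nd (nat_lit 28) (.nd (nat_lit 19) (.nd (nat_lit 26) (.nd (nat_lit 8) (.nd (nat_lit 7) 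
(.nd (nat_lit 18) (.lf (nat_lit 6576767036) (dlOf (nat_lit 1) (nat_lit 0x10004000200180d0c02))) 
(.lf (nat_lit 37060668) (dlOf (nat_lit 1) (nat_lit 0x400200740009090602)))) 
(.lf (nat_lit 20289212) (dlOf (nat_lit 1) (nat_lit 0x4002000200089da002)))) (.nd (nat_lit 7) 
(.nd (nat_lit 9) (.lf (nat_lit 3244348) (dlOf (nat_lit 1) (nat_lit 0x50008000c002000e0008200583))) 
(.lf (nat_lit 100156) (dlOf (nat_lit 1) (nat_lit 0x800200040008003e02)))) 
(.lf (nat_lit 23429564) (dlOf (nat_lit 1) (nat_lit 0x400080010002000a0008b80883))))) 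
(.nd (nat_lit 29) (.nd (nat_lit 7) 
(.lf (nat_lit 2348908604) (dlOf (nat_lit 1) (nat_lit 0x1000200060008020702))) 
(.lf (nat_lit 5435916476) (dlOf (nat_lit 1) (nat_lit 0x20028031701)))) (.nd (nat_lit 18) 
(.nd (nat_lit 20) (.lf (nat_lit 5972787260) (dlOf (nat_lit 1) (nat_lit 0x10004000200180d0c02))) 
(.lf (nat_lit 2752610364) (dlOf (nat_lit 6) (nat_lit 0x1087f40008804025c49401e61fd000e0ad8000f81800089240004804005c2b40000602000824900020f3800000100128008002c00200960008020703)))) 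
(.lf (nat_lit 2756018236) (dlOf (nat_lit 1) (nat_lit 0x1600081d0c01)))))) (.nd (nat_lit 20) 
(.nd (nat_lit 18) (.nd (nat_lit 27) (.nd (nat_lit 29) 
(.lf (nat_lit 3221848124) (dlOf (nat_lit 1) (nat_lit 0x1980080134002002000081a1403))) 
(.lf (nat_lit 537493564) (dlOf (nat_lit 1) (nat_lit 0x80080004002008a00080a0c83)))) 
(.lf (nat_lit 3892936764) (dlOf (nat_lit 8) (nat_lit 0x3808e00019020004068000201f80006010008011c0001e0400ec0580000b02006a02c0000501003b016001900ac00cc00e0000706004802c00290038000001000080080004002002c00082a0c83)))) 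
(.nd (nat_lit 10) (.lf (nat_lit 34439228) (dlOf (nat_lit 1) (nat_lit 0xae0018fb0001))) 
(.lf (nat_lit 38634556) (dlOf (nat_lit 1) (nat_lit 0x800200020009132882))))) (.nd (nat_lit 7) 
(.nd (nat_lit 9) 
(.lf (nat_lit 10059836) (dlOf (nat_lit 4) (nat_lit 0x1b43a000a0000001f0200040000000dc0800c800000036040040002000800085b0702))) 
(.nd (nat_lit 12) 
(.lf (nat_lit 2753135164) (dlOf (nat_lit 2) (nat_lit 0x5049400241fd00000028091000))) 
(.lf (nat_lit 8229436) (dlOf (nat_lit 1) (nat_lit 0x20008518981))))) (.nd (nat_lit 8) 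
(.lf (nat_lit 7966908) (dlOf (nat_lit 1) (nat_lit 0x9800400960008517e82))) 
(.lf (nat_lit 2753135036) (dlOf (nat_lit 7) (nat_lit 0x4144980004602023c24c00060ac8000d81000809300002e0400182b20001502000c159000078100650fb800000080280008017400200500008090883))))))) 
(.nd (nat_lit 31) (.nd (nat_lit 18) (.nd (nat_lit 7) (.nd (nat_lit 8) (.nd (nat_lit 19) 
(.lf (nat_lit 1346469948) (dlOf (nat_lit 2) (nat_lit 0x10b6005f8c080010008000800200060008f60003))) 
(.lf (nat_lit 1409908796) (dlOf (nat_lit 1) (nat_lit 0x80080004002008a00080a0c83)))) 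
(.lf (nat_lit 1409387836) (dlOf (nat_lit 1) (nat_lit 0x400200020008006902)))) (.nd (nat_lit 8) 
(.lf (nat_lit 5838576828) (dlOf (nat_lit 1) (nat_lit 0x600280fc201))) 
(.lf (nat_lit 1881244092) (dlOf (nat_lit 1) (nat_lit 0x1400400020018e81082))))) (.nd (nat_lit 19) 
(.nd (nat_lit 27) 
(.lf (nat_lit 4563763260) (dlOf (nat_lit 2) (nat_lit 0x72014800208080088008001c002001600080d0483))) 
(.lf (nat_lit 4697980988) (dlOf (nat_lit 2) (nat_lit 0x72014800208080088008001c002001600080d0483)))) 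
(.lf (nat_lit 1346207804) (dlOf (nat_lit 3) (nat_lit 0x34136001808b000b08200320ae8002f8080090008004800200060008e60603))))) 
(.nd (nat_lit 20) (.nd (nat_lit 18) (.nd (nat_lit 7) 
(.lf (nat_lit 2483126332) (dlOf (nat_lit 1) (nat_lit 0x1000200060008020702))) 
(.lf (nat_lit 2952888508) (dlOf (nat_lit 1) (nat_lit 0x100080280002012c0008010383)))) 
(.nd (nat_lit 22) (.lf (nat_lit 3154477116) (dlOf (nat_lit 2) (nat_lit 0x34037000e20181a0480))) 
(.lf (nat_lit 3494215740) (dlOf (nat_lit 1) (nat_lit 0x1600081d0c01))))) (.nd (nat_lit 19) 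
(.nd (nat_lit 11) 
(.lf (nat_lit 3490807868) (dlOf (nat_lit 6) (nat_lit 0x1087ac0008604025c46401e61eb000e0ab0000f81800088c40004804005c2aa0000602000823100020e9000000100128008002c00200960008020703))) 
(.lf (nat_lit 3493169212) (dlOf (nat_lit 1) (nat_lit 0xc004001200080f4702)))) (.nd (nat_lit 7) 
(.nd (nat_lit 9) 
(.lf (nat_lit 3493429308) (dlOf (nat_lit 10) (nat_lit 0x40cc000205e000702e000180b40004044001d90a0004066000302e000100b40004044000201b000ec050004033000181700004044000401b000eb84000203300018170003c05e000402d00050110001006c003ac1800180cc000e05e000302e0001006c003a81000080cc000a05c0003016800100880004036001d30a0002066000702e000080b4003a40c00080cc000405c000102b800280b40024044001d10a000e040000700e80070c10007000800dc00200080008130783))) 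
(.lf (nat_lit 3491332668) (dlOf (nat_lit 2) (nat_lit 0x5046400241eb00000028091000)))) 
(.lf (nat_lit 3491332540) (dlOf (nat_lit 7) (nat_lit 0x4144680004602023c23400060aa0000d81000808d00002e0400182a80001602000c154000070100650f2800000080280008017400200500008090883)))))))) 
(.nd (nat_lit 8) (.nd (nat_lit 30) (.nd (nat_lit 9) (.nd (nat_lit 28) (.nd (nat_lit 7) 
(.nd (nat_lit 11) (.lf (nat_lit 30507132) (dlOf (nat_lit 1) (nat_lit 0x580018e30481))) 
(.lf (nat_lit 362620) (dlOf (nat_lit 1) (nat_lit 0x20028004781)))) 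
(.lf (nat_lit 2684453116) (dlOf (nat_lit 2) (nat_lit 0x280ec0007204001400200020008014602)))) 
(.nd (nat_lit 18) (.nd (nat_lit 26) 
(.lf (nat_lit 805404796) (dlOf (nat_lit 2) (nat_lit 0x79027001300dc001c02401a000a00126048090080))) 
(.lf (nat_lit 5301698684) (dlOf (nat_lit 1) (nat_lit 0x8008000400200020008030c83)))) 
(.lf (nat_lit 2953150588) (dlOf (nat_lit 2) (nat_lit 0x8000000000200080018160481))))) 
(.nd (nat_lit 23) (.nd (nat_lit 7) 
(.lf (nat_lit 473007740) (dlOf (nat_lit 1) (nat_lit 0x8008000400200020008bb3983))) 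
(.nd (nat_lit 26) (.lf (nat_lit 6442551036) (dlOf (nat_lit 1) (nat_lit 0x400080f3b81))) 
(.lf (nat_lit 201426684) (dlOf (nat_lit 2) (nat_lit 0x50208000e008003800800a400200180008003b83))))) 
(.nd (nat_lit 7) 
(.lf (nat_lit 8750716) (dlOf (nat_lit 3) (nat_lit 0x6c67100363370017990c00d8b7a006c4de003626d801b128c00d83c00000e10002e64300000018513980))) 
(.nd (nat_lit 11) (.lf (nat_lit 8749820) (dlOf (nat_lit 1) (nat_lit 0x20028512101))) 
(.lf (nat_lit 49908476) (dlOf (nat_lit 1) (nat_lit 0x200194c5a01))))))) (.nd (nat_lit 26) 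
(.nd (nat_lit 18) (.nd (nat_lit 9) 
(.lf (nat_lit 3221323900) (dlOf (nat_lit 1) (nat_lit 0x400400040008090082))) 
(.lf (nat_lit 3355547260) (dlOf (nat_lit 2) (nat_lit 0x70048000f6040008004000200080a9d82)))) 
(.nd (nat_lit 11) 
(.lf (nat_lit 1074102396) (dlOf (nat_lit 1) (nat_lit 0x18008000400200040008090083))) 
(.lf (nat_lit 3493169276) (dlOf (nat_lit 3) (nat_lit 0x18c0c0000080100270600000340800b00080118002004600080f4783))))) 
(.nd (nat_lit 27) (.nd (nat_lit 18) 
(.lf (nat_lit 1677820028) (dlOf (nat_lit 2) (nat_lit 0x79027001300dc001c02401a000a0011a048090080))) 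
(.lf (nat_lit 1946517628) (dlOf (nat_lit 1) (nat_lit 0x18008000400200040008090083)))) 
(.nd (nat_lit 7) (.lf (nat_lit 3959521404) (dlOf (nat_lit 1) (nat_lit 0x400400040008090082))) 
(.lf (nat_lit 3422650620) (dlOf (nat_lit 1) (nat_lit 0x10008001000200060008014603))))))) 
(.nd (nat_lit 7) (.nd (nat_lit 19) (.nd (nat_lit 10) 
(.lf (nat_lit 37849468) (dlOf (nat_lit 1) (nat_lit 0x200190d4e81))) (.nd (nat_lit 28) 
(.lf (nat_lit 3825307004) (dlOf (nat_lit 1) (nat_lit 0x20028146c01))) 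
(.lf (nat_lit 1946258812) (dlOf (nat_lit 1) (nat_lit 0x1c00200060008006c02))))) (.nd (nat_lit 11) 
(.nd (nat_lit 9) (.lf (nat_lit 3491332476) (dlOf (nat_lit 2) (nat_lit 0x15c1e700438818090780))) 
(.lf (nat_lit 20546428) (dlOf (nat_lit 1) (nat_lit 0x200089d2581)))) (.nd (nat_lit 20) 
(.lf (nat_lit 36538748) (dlOf (nat_lit 1) (nat_lit 0x40019074e81))) 
(.lf (nat_lit 33393020) (dlOf (nat_lit 1) (nat_lit 0x20008f54e81)))))) (.nd (nat_lit 9) 
(.nd (nat_lit 28) (.nd (nat_lit 18) 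
(.lf (nat_lit 2753135100) (dlOf (nat_lit 2) (nat_lit 0x9c1fd000a1818090d80))) 
(.lf (nat_lit 1933820) (dlOf (nat_lit 1) (nat_lit 0x168002003c0008150d82)))) (.nd (nat_lit 19) 
(.lf (nat_lit 2416017916) (dlOf (nat_lit 1) (nat_lit 0xc0028017e01))) 
(.lf (nat_lit 3491332604) (dlOf (nat_lit 2) (nat_lit 0x9c1eb000a1818090d80))))) (.nd (nat_lit 10) 
(.nd (nat_lit 11) (.lf (nat_lit 38110204) (dlOf (nat_lit 1) (nat_lit 0x480009132881))) 
(.lf (nat_lit 5704354812) (dlOf (nat_lit 1) (nat_lit 0x160018055f01)))) (.nd (nat_lit 18) 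
(.lf (nat_lit 469862396) (dlOf (nat_lit 2) (nat_lit 0x82470006f818004700))) (.nd (nat_lit 20) 
(.lf (nat_lit 8751100) (dlOf (nat_lit 1) (nat_lit 0x60028514701))) 
(.lf (nat_lit 3493169148) (dlOf (nat_lit 1) (nat_lit 0x2600080f4701)))))))))))))

end

end Pool.Agent.Lib.MP_5854e1_co.Cz

namespace Pool.Agent.Lib.MP_5854e1_co.Cz

noncomputable section

noncomputable def tz29 : DT := (.nd (nat_lit 16) (.nd (nat_lit 5) (.nd (nat_lit 18) 
(.nd (nat_lit 15) (.nd (nat_lit 6) (.nd (nat_lit 19) (.nd (nat_lit 7) (.nd (nat_lit 22) 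
(.nd (nat_lit 11) (.nd (nat_lit 9) 
(.lf (nat_lit 1343356956) (dlOf (nat_lit 1) (nat_lit 0x14000200020008200682))) 
(.lf (nat_lit 3355574812) (dlOf (nat_lit 1) (nat_lit 0xa00080a1481)))) (.nd (nat_lit 10) 
(.lf (nat_lit 3959560220) (dlOf (nat_lit 1) (nat_lit 0x7e001811a601))) 
(.lf (nat_lit 138268) (dlOf (nat_lit 1) (nat_lit 0x10002800bf01))))) (.nd (nat_lit 24) 
(.nd (nat_lit 20) (.lf (nat_lit 14811164) (dlOf (nat_lit 1) (nat_lit 0xc00400060018780502))) 
(.lf (nat_lit 47317020) (dlOf (nat_lit 2) (nat_lit 0xcbc400015d4800080100018008000c002001600093d0503)))) 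
(.nd (nat_lit 23) (.lf (nat_lit 21102620) (dlOf (nat_lit 1) (nat_lit 0x20008a10501))) 
(.lf (nat_lit 63045660) (dlOf (nat_lit 1) (nat_lit 0x1600299c0101)))))) (.nd (nat_lit 9) 
(.nd (nat_lit 8) (.nd (nat_lit 10) 
(.lf (nat_lit 402784412) (dlOf (nat_lit 1) (nat_lit 0x300018090501))) 
(.lf (nat_lit 6509694108) (dlOf (nat_lit 1) (nat_lit 0x1a0018146281)))) 
(.lf (nat_lit 4563536284) (dlOf (nat_lit 1) (nat_lit 0x3c80080048002001e0008094e83)))) 
(.nd (nat_lit 12) (.nd (nat_lit 26) 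
(.lf (nat_lit 4563536796) (dlOf (nat_lit 1) (nat_lit 0x50008007400200020008095c83))) 
(.lf (nat_lit 6241258396) (dlOf (nat_lit 1) (nat_lit 0x80080004002000200080d5c83)))) 
(.nd (nat_lit 28) (.lf (nat_lit 3221363612) (dlOf (nat_lit 1) (nat_lit 0x2b80020076000811bc82))) 
(.lf (nat_lit 805444508) (dlOf (nat_lit 1) (nat_lit 0x800803d800200a0000811bc83))))))) 
(.nd (nat_lit 26) (.nd (nat_lit 20) (.nd (nat_lit 21) (.nd (nat_lit 22) 
(.lf (nat_lit 1342832668) (dlOf (nat_lit 1) (nat_lit 0x8004002200080e0a02))) 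
(.lf (nat_lit 21626908) (dlOf (nat_lit 8) (nat_lit 0x10000000200100026b4800325a000062080005ad200030020044de600266f2000f35a400492d00002b080038d6900124b00000901001976880004004000dad20000c0200120008a50501)))) 
(.lf (nat_lit 48889884) (dlOf (nat_lit 1) (nat_lit 0xe0029440101)))) (.nd (nat_lit 7) 
(.nd (nat_lit 23) 
(.lf (nat_lit 3493462044) (dlOf (nat_lit 13) (nat_lit 0xa80d2005a064004a0220030810c0074056003802a002701200160080011003e0046019000188a002e021801580ac01a00540008024002f0100000c02803481a4007c0c8012004400a7021803580ac01b405400f0024007b010003f007c01140320002f14005602b0043015001780800005c0c019c0540002d020042069005901500328090000340c00a805600c802a005f012001780800002c1001a005400c80240000902001f034800f8110006c056003402a002f012001b00800002218019c05400c802400008020028015801580800001a08000c0540000c0200400028140b01))) 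
(.lf (nat_lit 45744156) (dlOf (nat_lit 2) (nat_lit 0x2e2c0001702c000d5de0005a478001c4480014ee4000667d0005309000297e8001cb28000a23000060c480010460004800800c8002000a0009360103)))) 
(.lf (nat_lit 60424348) (dlOf (nat_lit 2) (nat_lit 0xd523000138080080008011800200180009852b83))))) 
(.nd (nat_lit 30) (.nd (nat_lit 20) (.nd (nat_lit 27) 
(.lf (nat_lit 4362731548) (dlOf (nat_lit 5) (nat_lit 0x60154002d00401340ac0002054000ae82002502b0005700801b0158002ac040100002001e00080e0a82))) 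
(.lf (nat_lit 3154771996) (dlOf (nat_lit 4) (nat_lit 0x2408e0002402000204700011810002023800088080070008001800200240008320a03)))) 
(.lf (nat_lit 2755264540) (dlOf (nat_lit 13) (nat_lit 0xa80d2005a064004a0220030810c0074056003802a002701200160080011003e0046019000188a002e021801580ac01a00540008024002f0100000c02803481a4007c0c8012004400a7021803580ac01b405400f0024007b010003f007c01140320002f14005602b0043015001780800005c0c019c0540002d020042069005901500328090000320c00a805600c802a005f012001780800002a1001a005400c80240000902001f034800f8110006c056003402a002f012001b00800002218019c05400c802400008020028015801580800001a08000c0540000c0200400028140b01)))) 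
(.nd (nat_lit 21) (.nd (nat_lit 27) 
(.lf (nat_lit 3557425180) (dlOf (nat_lit 1) (nat_lit 0x48004000800181f0682))) 
(.lf (nat_lit 4228513820) (dlOf (nat_lit 5) (nat_lit 0x60138002c804013409e000204d000ac02002502780055c0801b013c002a2040100002001e00080e0a82)))) 
(.lf (nat_lit 4096393244) (dlOf (nat_lit 1) (nat_lit 0x40018100101))))))) (.nd (nat_lit 30) 
(.nd (nat_lit 7) (.nd (nat_lit 19) (.nd (nat_lit 8) (.nd (nat_lit 20) 
(.lf (nat_lit 52559964) (dlOf (nat_lit 2) (nat_lit 0xa0c120047608802eafec013d7f400bcb29004d53d802a29a4000161c005000400080019550882))) 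
(.lf (nat_lit 24248412) (dlOf (nat_lit 2) (nat_lit 0x2368a00015018b91200)))) 
(.lf (nat_lit 2483159388) (dlOf (nat_lit 1) (nat_lit 0x400400020008048b02)))) (.nd (nat_lit 12) 
(.nd (nat_lit 23) 
(.lf (nat_lit 537526364) (dlOf (nat_lit 2) (nat_lit 0xb0144007007e002a032001500380005c200080008005c002000400080a1203))) 
(.lf (nat_lit 42598492) (dlOf (nat_lit 1) (nat_lit 0xc80080068002002c0009260883)))) 
(.lf (nat_lit 20582492) (dlOf (nat_lit 1) (nat_lit 0x80080004002000200089d7d83))))) 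
(.nd (nat_lit 21) (.nd (nat_lit 8) (.nd (nat_lit 10) 
(.lf (nat_lit 4563534044) (dlOf (nat_lit 7) (nat_lit 0x480bc0002a04004c05e0001402000c02f00020168001007c0000a0c002005e000802d000800f8000101800500bc003005a0000304001002f00040168001007c000040c009c00400be0018090a02))) 
(.lf (nat_lit 805444828) (dlOf (nat_lit 1) (nat_lit 0x4800800300020050000811c483)))) 
(.lf (nat_lit 469898716) (dlOf (nat_lit 1) (nat_lit 0x18008000800200020008009b03)))) 
(.nd (nat_lit 8) (.nd (nat_lit 20) 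
(.lf (nat_lit 19005660) (dlOf (nat_lit 1) (nat_lit 0x120018970581))) 
(.lf (nat_lit 20054236) (dlOf (nat_lit 1) (nat_lit 0x6200089d0a01)))) 
(.lf (nat_lit 473563612) (dlOf (nat_lit 2) (nat_lit 0x508d800440080068008002000200060008f67c83)))))) 
(.nd (nat_lit 27) (.nd (nat_lit 7) (.nd (nat_lit 11) (.nd (nat_lit 19) 
(.lf (nat_lit 5368840284) (dlOf (nat_lit 1) (nat_lit 0x800400060008040702))) 
(.lf (nat_lit 1409941596) (dlOf (nat_lit 2) (nat_lit 0xb0144007007e002a03200150038000b4200080008005c002000400080a1203)))) 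
(.lf (nat_lit 1677854812) (dlOf (nat_lit 1) (nat_lit 0x58008000800200500008114703)))) 
(.nd (nat_lit 8) (.lf (nat_lit 1342312156) (dlOf (nat_lit 1) (nat_lit 0x20018007381))) 
(.nd (nat_lit 9) (.lf (nat_lit 3221359068) (dlOf (nat_lit 1) (nat_lit 0xe0018114e81))) 
(.lf (nat_lit 5637276636) (dlOf (nat_lit 1) (nat_lit 0x4004000200080d2882)))))) (.nd (nat_lit 19) 
(.nd (nat_lit 9) (.lf (nat_lit 5503058012) (dlOf (nat_lit 1) (nat_lit 0x800400060008040702))) 
(.lf (nat_lit 3355574876) (dlOf (nat_lit 5) (nat_lit 0x4a02f00180000000901000480bc010405a0002204002602f000100100050170000600800400080114002008c00080a1683)))) 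
(.nd (nat_lit 26) (.lf (nat_lit 5772017756) (dlOf (nat_lit 1) (nat_lit 0x20028040701))) 
(.nd (nat_lit 28) (.lf (nat_lit 3960078428) (dlOf (nat_lit 2) (nat_lit 0x12202f000028181a1b00))) 
(.lf (nat_lit 6375997532) (dlOf (nat_lit 1) (nat_lit 0x20028040701))))))))) (.nd (nat_lit 19) 
(.nd (nat_lit 8) (.nd (nat_lit 29) (.nd (nat_lit 20) (.nd (nat_lit 27) (.nd (nat_lit 6) 
(.nd (nat_lit 21) 
(.lf (nat_lit 5368872988) (dlOf (nat_lit 5) (nat_lit 0x2a015000500a0009804c0018020000a00e000fe85000100a800b8050009c0260032011001a008000d0038003f818000402a002a014001e009800d8044006c020003600e000fd86000600a8005805000a40260034011001a008000c0038003f41801b800200140008060a82))) 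
(.lf (nat_lit 14843932) (dlOf (nat_lit 4) (nat_lit 0x271a2800f47c00006104000668a0003001000231a00004408023000800bc00200100008780503)))) 
(.nd (nat_lit 11) 
(.lf (nat_lit 52592732) (dlOf (nat_lit 14) (nat_lit 0x22c13000a5950000741002c304c000380402298260001b0200aec130000d01002c60980006408040304c000d822001ca690000c0300156098000440801db04c0002004009d8260000e020136c120090608807a2ca4003965000f0a7b008353480002c30009b04801e565200009040006c1100003810062609003faca4000000801c400400040019550882))) 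
(.lf (nat_lit 170076) (dlOf (nat_lit 2) (nat_lit 0x2a7e000953680080010007800800800020004000800a783))))) 
(.nd (nat_lit 30) (.nd (nat_lit 7) 
(.lf (nat_lit 4764893212) (dlOf (nat_lit 3) (nat_lit 0x2da01402360020000c8100008058000620400a800400560018050502))) 
(.lf (nat_lit 4697785500) (dlOf (nat_lit 1) (nat_lit 0x400400020008092b82)))) (.nd (nat_lit 28) 
(.lf (nat_lit 5503090716) (dlOf (nat_lit 5) (nat_lit 0x2a015000500a0009804c0018020000a00e0010905000100a800b8050009c0260032011001a008000d00380042218000402a002a014001e009800d8044006c020003600e0010806000600a8005805000a40260034011001a008000c00380041e1801b800200140008060a82))) 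
(.lf (nat_lit 1476558876) (dlOf (nat_lit 2) (nat_lit 0x601f800000080010008018c00200ac0008050103)))))) 
(.nd (nat_lit 7) (.nd (nat_lit 21) 
(.lf (nat_lit 47349788) (dlOf (nat_lit 3) (nat_lit 0x1d788001cba90001002000e5e20009aea400016080018002002200093d0502))) 
(.lf (nat_lit 15892508) (dlOf (nat_lit 1) (nat_lit 0x1a0028840681)))) (.nd (nat_lit 21) 
(.lf (nat_lit 9601180) (dlOf (nat_lit 1) (nat_lit 0x8008000400200020008571283))) 
(.lf (nat_lit 3309724) (dlOf (nat_lit 3) (nat_lit 0x427e0004602000212e00022818200180)))))) 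
(.nd (nat_lit 26) (.nd (nat_lit 27) (.nd (nat_lit 7) 
(.lf (nat_lit 2684518428) (dlOf (nat_lit 2) (nat_lit 0x10200e00790000001f8100158008005000200380008080483))) 
(.lf (nat_lit 1610776732) (dlOf (nat_lit 1) (nat_lit 0x400400040008090502)))) (.nd (nat_lit 28) 
(.lf (nat_lit 4966219804) (dlOf (nat_lit 1) (nat_lit 0x78008002c00200140008060a83))) 
(.lf (nat_lit 4160913436) (dlOf (nat_lit 1) (nat_lit 0x8008002c00200020008070483))))) 
(.nd (nat_lit 9) (.nd (nat_lit 27) 
(.lf (nat_lit 5167546396) (dlOf (nat_lit 1) (nat_lit 0x80080004002000400080a0a83))) 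
(.lf (nat_lit 5033328668) (dlOf (nat_lit 1) (nat_lit 0x78008002c00200140008060a83)))) 
(.nd (nat_lit 7) (.lf (nat_lit 2751633948) (dlOf (nat_lit 1) (nat_lit 0x2002800b281))) 
(.lf (nat_lit 3020067484) (dlOf (nat_lit 1) (nat_lit 0x368008062400203460008128c83))))))) 
(.nd (nat_lit 6) (.nd (nat_lit 7) (.nd (nat_lit 20) (.nd (nat_lit 9) 
(.lf (nat_lit 4563566876) (dlOf (nat_lit 2) (nat_lit 0xc015800534080010008001400200040008090a83))) 
(.lf (nat_lit 3758266140) (dlOf (nat_lit 1) (nat_lit 0x40020002000812a002)))) (.nd (nat_lit 22) 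
(.lf (nat_lit 20087068) (dlOf (nat_lit 1) (nat_lit 0x4002000200089d0a82))) 
(.lf (nat_lit 41058588) (dlOf (nat_lit 1) (nat_lit 0xb800200040009218002))))) (.nd (nat_lit 9) 
(.lf (nat_lit 167324) (dlOf (nat_lit 1) (nat_lit 0xa40008006d01))) 
(.lf (nat_lit 3355612060) (dlOf (nat_lit 1) (nat_lit 0x1200280a9101))))) (.nd (nat_lit 7) 
(.nd (nat_lit 27) (.nd (nat_lit 30) 
(.lf (nat_lit 4362240348) (dlOf (nat_lit 11) (nat_lit 0x1140198001a4080a200cc000d004072c06600044020134033000218101d40198001080804900cc000480404fc066000230201a40330001081003b0198000800804f00cc0003c04005400400080008014e02))) 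
(.lf (nat_lit 5435982172) (dlOf (nat_lit 1) (nat_lit 0x20018090e01)))) (.nd (nat_lit 26) 
(.lf (nat_lit 2550301020) (dlOf (nat_lit 1) (nat_lit 0x400400020008048b02))) 
(.lf (nat_lit 469926236) (dlOf (nat_lit 1) (nat_lit 0x20018014e01))))) (.nd (nat_lit 9) 
(.nd (nat_lit 11) 
(.lf (nat_lit 1610777052) (dlOf (nat_lit 1) (nat_lit 0x98008000400200040008091283))) 
(.lf (nat_lit 170460) (dlOf (nat_lit 1) (nat_lit 0x30002002a000800b282)))) (.nd (nat_lit 11) 
(.lf (nat_lit 5301765084) (dlOf (nat_lit 1) (nat_lit 0x400400020008092882))) 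
(.lf (nat_lit 3020069852) (dlOf (nat_lit 1) (nat_lit 0x10002812bf01)))))))) (.nd (nat_lit 21) 
(.nd (nat_lit 26) (.nd (nat_lit 6) (.nd (nat_lit 22) (.nd (nat_lit 28) 
(.lf (nat_lit 3221913628) (dlOf (nat_lit 7) (nat_lit 0x18c02e0011b8100fa0170008980800b80bc003dc04010005e0017302001a02f000b88100060178005bc080218008000400200e800081b0483))) 
(.lf (nat_lit 805994524) (dlOf (nat_lit 2) (nat_lit 0xda05600340098006cc1002c00080010002004e0008210483)))) 
(.lf (nat_lit 21659676) (dlOf (nat_lit 2) (nat_lit 0x132aa0005780800f000800a800200040008a60a83)))) 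
(.nd (nat_lit 7) (.lf (nat_lit 537559132) (dlOf (nat_lit 1) (nat_lit 0x1c002002200080a1202))) 
(.lf (nat_lit 9082332) (dlOf (nat_lit 1) (nat_lit 0x20028519b01))))) (.nd (nat_lit 6) 
(.nd (nat_lit 20) (.nd (nat_lit 27) 
(.lf (nat_lit 1678409756) (dlOf (nat_lit 2) (nat_lit 0xda056003400980068c1002c00080010002004e0008210483))) 
(.lf (nat_lit 3960111132) (dlOf (nat_lit 7) (nat_lit 0x18c02e0011b8100fa0170008980800b80bc003dc04003405e0017302008002f000b88100060178005bc080218008000400200e800081b0483)))) 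
(.lf (nat_lit 4095377436) (dlOf (nat_lit 3) (nat_lit 0xb0728004827c003810a000320600120ac000a04f800081fc000600c000c002000600080a0502)))) 
(.nd (nat_lit 27) (.lf (nat_lit 1409974364) (dlOf (nat_lit 1) (nat_lit 0x1c002002200080a1202))) 
(.lf (nat_lit 4228546652) (dlOf (nat_lit 1) (nat_lit 0x8002000800080f1b02)))))) (.nd (nat_lit 20) 
(.nd (nat_lit 7) (.nd (nat_lit 23) 
(.lf (nat_lit 472547356) (dlOf (nat_lit 2) (nat_lit 0x282f0001816e0015f04000200189b0601))) 
(.lf (nat_lit 11173916) (dlOf (nat_lit 2) (nat_lit 0x64b3800830080008008000800200060008670483)))) 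
(.lf (nat_lit 57313692) (dlOf (nat_lit 1) (nat_lit 0x20029794e81)))) (.nd (nat_lit 6) 
(.nd (nat_lit 9) (.nd (nat_lit 22) (.nd (nat_lit 23) 
(.lf (nat_lit 3833884) (dlOf (nat_lit 2) (nat_lit 0x800000020018230500))) 
(.lf (nat_lit 45776924) (dlOf (nat_lit 2) (nat_lit 0xf99f7007cc9d003e605801f300800f8952007c472803e236401f11a000f87d1007c3e1002f1e9c01f0f0600f8772007c3b4003e1d640098e82004672d0016209000104900130008000400200020009360103)))) 
(.lf (nat_lit 24805404) (dlOf (nat_lit 4) (nat_lit 0xd790000abad000100200035e400007c08000af200001a04000c00200020008bb0502)))) 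
(.lf (nat_lit 473596444) (dlOf (nat_lit 1) (nat_lit 0x260028f68701)))) (.nd (nat_lit 7) 
(.lf (nat_lit 12222556) (dlOf (nat_lit 1) (nat_lit 0x1f0004016200086c0002))) 
(.lf (nat_lit 8030428) (dlOf (nat_lit 1) (nat_lit 0x2e0018514a81))))))))) (.nd (nat_lit 15) 
(.nd (nat_lit 19) (.nd (nat_lit 6) (.nd (nat_lit 28) (.nd (nat_lit 26) (.nd (nat_lit 20) 
(.nd (nat_lit 22) (.nd (nat_lit 9) 
(.lf (nat_lit 1611005980) (dlOf (nat_lit 5) (nat_lit 0x6e028003880c801b804000d601c000188400040280034808001a40380003006006805700e6028007680c8036804001d001c00017850048028002580c80138040008401c000170480b0100))) 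
(.lf (nat_lit 1745226268) (dlOf (nat_lit 1) (nat_lit 0x3200180e5101)))) (.nd (nat_lit 21) 
(.lf (nat_lit 12976156) (dlOf (nat_lit 1) (nat_lit 0x2400186f0481))) 
(.lf (nat_lit 48627740) (dlOf (nat_lit 2) (nat_lit 0xf5700008204000400400100009420102))))) 
(.nd (nat_lit 8) (.nd (nat_lit 21) 
(.lf (nat_lit 26607644) (dlOf (nat_lit 1) (nat_lit 0x20028c50101))) 
(.lf (nat_lit 37093404) (dlOf (nat_lit 1) (nat_lit 0x90008001000200020009090103)))) 
(.lf (nat_lit 20316444) (dlOf (nat_lit 1) (nat_lit 0x4002000200089d0a82))))) (.nd (nat_lit 29) 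
(.nd (nat_lit 7) (.lf (nat_lit 68550684) (dlOf (nat_lit 1) (nat_lit 0x10800185b0581))) 
(.lf (nat_lit 4362469788) (dlOf (nat_lit 1) (nat_lit 0x80018090781)))) (.nd (nat_lit 22) 
(.nd (nat_lit 27) 
(.lf (nat_lit 1678114844) (dlOf (nat_lit 1) (nat_lit 0x8008001800200140008190503))) 
(.lf (nat_lit 738590748) (dlOf (nat_lit 5) (nat_lit 0x6e028003880c801b804000d601c000188400040280034808001a40380003006006805700e6028007680c8036804001d001c00017850048028002580c80138040008401c000170480b0100)))) 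
(.lf (nat_lit 2756050972) (dlOf (nat_lit 2) (nat_lit 0x9804c000120181e0500)))))) (.nd (nat_lit 27) 
(.nd (nat_lit 22) (.nd (nat_lit 20) (.nd (nat_lit 29) 
(.lf (nat_lit 4563795996) (dlOf (nat_lit 10) (nat_lit 0x1004800070040bc4062018201c02dd00a00d180440978000000320a00b801400ac0000000c41002180c400d402800f20000001803000c020800100f800d407a014e03a004400a004500000005618014407a018a03a00c600a00628000000541007ec066000e01200012020004019806f00540400024000220601e601500e2009000000100228008024c002021600080e0503))) 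
(.lf (nat_lit 805699612) (dlOf (nat_lit 1) (nat_lit 0x8008001800200140008190503)))) 
(.lf (nat_lit 1343619100) (dlOf (nat_lit 1) (nat_lit 0x200082c0681)))) (.nd (nat_lit 31) 
(.lf (nat_lit 1346764828) (dlOf (nat_lit 2) (nat_lit 0x8304b003b021402140ea010a073006600f8001042801b8008000400200080009000103))) 
(.lf (nat_lit 3494248476) (dlOf (nat_lit 1) (nat_lit 0x400181e0481))))) (.nd (nat_lit 26) 
(.nd (nat_lit 7) (.lf (nat_lit 4698013724) (dlOf (nat_lit 1) (nat_lit 0x600280e0481))) 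
(.lf (nat_lit 1476788380) (dlOf (nat_lit 1) (nat_lit 0x480080034002003600081a0483)))) 
(.nd (nat_lit 30) (.lf (nat_lit 2617638940) (dlOf (nat_lit 2) (nat_lit 0x12402d0011e018110480))) 
(.lf (nat_lit 5838864412) (dlOf (nat_lit 1) (nat_lit 0x78008000c002002a00081d0a03))))))) 
(.nd (nat_lit 8) (.nd (nat_lit 7) (.nd (nat_lit 20) (.nd (nat_lit 26) 
(.lf (nat_lit 1881538652) (dlOf (nat_lit 5) (nat_lit 0xb038c00380f60001d0400140e3000303d80007010004038c00b01c4001607b00002030030071801a01ec0000008016000400020008f40882))) 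
(.lf (nat_lit 2753953884) (dlOf (nat_lit 3) (nat_lit 0x340870000b81000c0438000280800a00080060002003400080a1203)))) 
(.nd (nat_lit 10) 
(.lf (nat_lit 9830492) (dlOf (nat_lit 7) (nat_lit 0x37a450017d21800de904009747e00339dc0008cbc8000e5e000232e60009926000ac188002212000048880003418001ba450008d218001e904003f47e00033080003a4500019010008d228000e90c002f482002da3f0001d1d800567700003e18002f48a000da43000ad20800ae8fc00133b800039da0000f06000ad228003690c001f4820021a3f0009cee0000742803680080190002008c0008580703))) 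
(.lf (nat_lit 473302108) (dlOf (nat_lit 1) (nat_lit 0x4004000a0018e92902))))) (.nd (nat_lit 26) 
(.nd (nat_lit 21) 
(.lf (nat_lit 1476788444) (dlOf (nat_lit 1) (nat_lit 0xb80080044002002000081a0583))) 
(.lf (nat_lit 19267804) (dlOf (nat_lit 1) (nat_lit 0x30008000400200020008970583)))) 
(.nd (nat_lit 27) 
(.lf (nat_lit 604373212) (dlOf (nat_lit 1) (nat_lit 0xb80080044002002000081a0583))) 
(.lf (nat_lit 1007026396) (dlOf (nat_lit 1) (nat_lit 0xb800200020008150582)))))) (.nd (nat_lit 7) 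
(.nd (nat_lit 28) (.nd (nat_lit 22) (.nd (nat_lit 27) 
(.lf (nat_lit 4295360860) (dlOf (nat_lit 1) (nat_lit 0x8002000600081a0682))) 
(.lf (nat_lit 4429578588) (dlOf (nat_lit 1) (nat_lit 0x8002000600081a0682)))) 
(.lf (nat_lit 21365084) (dlOf (nat_lit 1) (nat_lit 0x40008a34e81)))) (.nd (nat_lit 29) 
(.lf (nat_lit 1342570844) (dlOf (nat_lit 1) (nat_lit 0x400400020008068b02))) 
(.lf (nat_lit 1879441756) (dlOf (nat_lit 1) (nat_lit 0x180018150901))))) (.nd (nat_lit 9) 
(.lf (nat_lit 398812) (dlOf (nat_lit 1) (nat_lit 0x120018009b01))) 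
(.lf (nat_lit 50725852) (dlOf (nat_lit 1) (nat_lit 0x10002001200094c2882))))))) (.nd (nat_lit 11) 
(.nd (nat_lit 20) (.nd (nat_lit 21) (.nd (nat_lit 23) (.nd (nat_lit 26) 
(.lf (nat_lit 2819489820) (dlOf (nat_lit 1) (nat_lit 0x1cc004010e00182b0602))) 
(.lf (nat_lit 3557687324) (dlOf (nat_lit 1) (nat_lit 0x1cc004010e00182b0602)))) 
(.lf (nat_lit 59637788) (dlOf (nat_lit 1) (nat_lit 0x60019820101)))) (.nd (nat_lit 6) 
(.nd (nat_lit 7) (.lf (nat_lit 19792156) (dlOf (nat_lit 1) (nat_lit 0x80080004002000200089d0a83))) 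
(.lf (nat_lit 19792540) (dlOf (nat_lit 1) (nat_lit 0x4002000200089d1c02)))) 
(.lf (nat_lit 4096655452) (dlOf (nat_lit 1) (nat_lit 0x400400020008151882))))) (.nd (nat_lit 6) 
(.nd (nat_lit 7) (.nd (nat_lit 21) 
(.lf (nat_lit 39714844) (dlOf (nat_lit 2) (nat_lit 0x3a8c400082040008004000e00191d0102))) 
(.lf (nat_lit 16646172) (dlOf (nat_lit 1) (nat_lit 0x4002000200088c0682)))) (.nd (nat_lit 9) 
(.lf (nat_lit 2753429660) (dlOf (nat_lit 2) (nat_lit 0xa00a00017818090180))) 
(.lf (nat_lit 8262300) (dlOf (nat_lit 1) (nat_lit 0x8008000800200020008518c83))))) (.nd (nat_lit 7) 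
(.lf (nat_lit 1344148572) (dlOf (nat_lit 1) (nat_lit 0x4004000200183d9382))) (.nd (nat_lit 8) 
(.lf (nat_lit 46006492) (dlOf (nat_lit 1) (nat_lit 0x2c0029380a01))) 
(.lf (nat_lit 4095607772) (dlOf (nat_lit 1) (nat_lit 0x4004000200080e2882))))))) (.nd (nat_lit 7) 
(.nd (nat_lit 8) (.nd (nat_lit 6) (.nd (nat_lit 9) 
(.lf (nat_lit 19794972) (dlOf (nat_lit 1) (nat_lit 0x10004001600189d6002))) 
(.lf (nat_lit 8264220) (dlOf (nat_lit 1) (nat_lit 0x40020002000851b282)))) 
(.lf (nat_lit 3492681820) (dlOf (nat_lit 1) (nat_lit 0x80080004002000200080fa783)))) 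
(.nd (nat_lit 10) (.nd (nat_lit 12) 
(.lf (nat_lit 3492677916) (dlOf (nat_lit 1) (nat_lit 0x80080004002000200080f4b83))) 
(.lf (nat_lit 19798300) (dlOf (nat_lit 1) (nat_lit 0x8008001c002000600089dab03)))) 
(.lf (nat_lit 2754481436) (dlOf (nat_lit 1) (nat_lit 0x200080f6781))))) (.nd (nat_lit 6) 
(.nd (nat_lit 9) (.lf (nat_lit 2754480540) (dlOf (nat_lit 1) (nat_lit 0x200080f4e81))) 
(.nd (nat_lit 12) (.lf (nat_lit 19794844) (dlOf (nat_lit 1) (nat_lit 0x80080008002000400089d5c83))) 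
(.lf (nat_lit 19798940) (dlOf (nat_lit 1) (nat_lit 0x80080004002000200089dbc83))))) 
(.nd (nat_lit 8) (.lf (nat_lit 19798748) (dlOf (nat_lit 1) (nat_lit 0x400080004002000600089db983))) 
(.lf (nat_lit 8261596) (dlOf (nat_lit 1) (nat_lit 0x40008517a81)))))))) (.nd (nat_lit 7) 
(.nd (nat_lit 19) (.nd (nat_lit 24) (.nd (nat_lit 30) (.nd (nat_lit 27) (.nd (nat_lit 8) 
(.nd (nat_lit 20) (.lf (nat_lit 537296924) (dlOf (nat_lit 1) (nat_lit 0x20028080501))) 
(.lf (nat_lit 37126172) (dlOf (nat_lit 1) (nat_lit 0x8c00090a0601)))) 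
(.lf (nat_lit 8819996) (dlOf (nat_lit 1) (nat_lit 0x540008519701)))) (.nd (nat_lit 29) 
(.lf (nat_lit 4429611036) (dlOf (nat_lit 3) (nat_lit 0x4c02a00df502001a015006fa0181c0a00))) 
(.lf (nat_lit 2818998300) (dlOf (nat_lit 1) (nat_lit 0x1000008150101))))) (.nd (nat_lit 26) 
(.nd (nat_lit 20) (.lf (nat_lit 4026957852) (dlOf (nat_lit 1) (nat_lit 0x24004003c00080e0482))) 
(.lf (nat_lit 1343651868) (dlOf (nat_lit 2) (nat_lit 0x2c09d000304700006c1000600080230002004200082d0603)))) 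
(.nd (nat_lit 28) (.lf (nat_lit 3288760348) (dlOf (nat_lit 1) (nat_lit 0x24004003c00080e0482))) 
(.lf (nat_lit 1409712156) (dlOf (nat_lit 1) (nat_lit 0x20028080501)))))) (.nd (nat_lit 8) 
(.nd (nat_lit 20) 
(.lf (nat_lit 19300380) (dlOf (nat_lit 2) (nat_lit 0x293180000004000800200040008980a02))) 
(.lf (nat_lit 51806236) (dlOf (nat_lit 1) (nat_lit 0x260029510001)))) (.nd (nat_lit 6) 
(.lf (nat_lit 21397788) (dlOf (nat_lit 1) (nat_lit 0x580080024002001c0008a34003))) 
(.lf (nat_lit 21397852) (dlOf (nat_lit 1) (nat_lit 0x40028a34e81)))))) (.nd (nat_lit 6) 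
(.nd (nat_lit 28) (.nd (nat_lit 22) 
(.lf (nat_lit 9338908) (dlOf (nat_lit 2) (nat_lit 0x2e3e8000000080158008001400200280008540703))) 
(.lf (nat_lit 21921820) (dlOf (nat_lit 1) (nat_lit 0x400400020008a80902)))) (.nd (nat_lit 9) 
(.lf (nat_lit 473858076) (dlOf (nat_lit 2) (nat_lit 0x1280a1804603340005e08000400400040008fc0102))) 
(.lf (nat_lit 3490611740) (dlOf (nat_lit 2) (nat_lit 0x42a8004050200020008017f01))))) 
(.nd (nat_lit 10) (.nd (nat_lit 8) 
(.lf (nat_lit 473858140) (dlOf (nat_lit 4) (nat_lit 0x738530031429601fc0d7004b06b00002c20037053003441ae0000904016e14c00ef06b8000001009200080148002005a0008fc0883))) 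
(.lf (nat_lit 2752414044) (dlOf (nat_lit 11) (nat_lit 0x7003f40006402036c1fa000318101380fd0001800800905400009a0403bc3f40004a0203941fa003f09c000110100d087e8000860406f43f4003e138000210201a10fd0000f4080a607e8000000401f0004022c0018014e02)))) 
(.nd (nat_lit 9) (.lf (nat_lit 34505820) (dlOf (nat_lit 1) (nat_lit 0x40028fb2901))) 
(.lf (nat_lit 61769308) (dlOf (nat_lit 1) (nat_lit 0x20019923901))))))) (.nd (nat_lit 6) 
(.nd (nat_lit 8) (.nd (nat_lit 19) (.nd (nat_lit 22) (.nd (nat_lit 26) 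
(.lf (nat_lit 1611038876) (dlOf (nat_lit 1) (nat_lit 0x200180c1281))) 
(.lf (nat_lit 738623644) (dlOf (nat_lit 1) (nat_lit 0x200180c1281)))) 
(.lf (nat_lit 21397660) (dlOf (nat_lit 1) (nat_lit 0xb80008a31281)))) (.nd (nat_lit 9) 
(.lf (nat_lit 41845916) (dlOf (nat_lit 1) (nat_lit 0x40029242b81))) 
(.lf (nat_lit 8295068) (dlOf (nat_lit 1) (nat_lit 0x8008000400200020008518c83))))) 
(.nd (nat_lit 27) (.nd (nat_lit 9) 
(.lf (nat_lit 1678147996) (dlOf (nat_lit 1) (nat_lit 0x60008009c002001a00081a0783))) 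
(.lf (nat_lit 4094593948) (dlOf (nat_lit 1) (nat_lit 0x400200020008055c82)))) (.nd (nat_lit 10) 
(.lf (nat_lit 3959849372) (dlOf (nat_lit 2) (nat_lit 0x14604600a2022803a801001100080024002002e0008170783))) 
(.lf (nat_lit 6375769500) (dlOf (nat_lit 1) (nat_lit 0x400400020008003602)))))) (.nd (nat_lit 8) 
(.nd (nat_lit 19) (.nd (nat_lit 20) (.nd (nat_lit 26) 
(.lf (nat_lit 1611038940) (dlOf (nat_lit 1) (nat_lit 0x200280c1981))) 
(.lf (nat_lit 738623708) (dlOf (nat_lit 3) (nat_lit 0x280d40005c04000c06a0002b02000400280c1c81)))) 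
(.lf (nat_lit 28737756) (dlOf (nat_lit 1) (nat_lit 0x120018da0581)))) (.nd (nat_lit 9) 
(.lf (nat_lit 471761116) (dlOf (nat_lit 1) (nat_lit 0x10008001800200080008490483))) 
(.lf (nat_lit 19831516) (dlOf (nat_lit 1) (nat_lit 0x1200080004002003800089db983))))) 
(.nd (nat_lit 19) (.nd (nat_lit 21) 
(.lf (nat_lit 2751890396) (dlOf (nat_lit 1) (nat_lit 0x1c80080004002005e0008002883))) 
(.lf (nat_lit 6377866204) (dlOf (nat_lit 1) (nat_lit 0x800080e2881)))) (.nd (nat_lit 20) 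
(.lf (nat_lit 34505692) (dlOf (nat_lit 1) (nat_lit 0x20018fb2881))) 
(.lf (nat_lit 50234332) (dlOf (nat_lit 1) (nat_lit 0x1e00094c2881)))))))))) (.nd (nat_lit 15) 
(.nd (nat_lit 19) (.nd (nat_lit 30) (.nd (nat_lit 18) (.nd (nat_lit 28) (.nd (nat_lit 9) 
(.nd (nat_lit 7) (.nd (nat_lit 6) (.nd (nat_lit 20) 
(.lf (nat_lit 52559932) (dlOf (nat_lit 4) (nat_lit 0xa6090007b04400417f6001abfa000c5948008aca0003d4f6001ca69000b088000e60800082fe4003d64e001ea7a0012534000274280043040002d7f20014b27000453d0006a9a00011c140088004000e0009550602))) 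
(.lf (nat_lit 2752643132) (dlOf (nat_lit 1) (nat_lit 0xc0008020701)))) 
(.lf (nat_lit 4362209404) (dlOf (nat_lit 1) (nat_lit 0x400400020008004782)))) (.nd (nat_lit 8) 
(.lf (nat_lit 20061372) (dlOf (nat_lit 1) (nat_lit 0x4004000400189dc202))) 
(.lf (nat_lit 11665852) (dlOf (nat_lit 2) (nat_lit 0xa4aea0003f02000800186c0881))))) 
(.nd (nat_lit 6) (.nd (nat_lit 8) 
(.lf (nat_lit 2751601212) (dlOf (nat_lit 1) (nat_lit 0xc0040004001800b482))) 
(.lf (nat_lit 20056892) (dlOf (nat_lit 1) (nat_lit 0x200189d5c01)))) (.nd (nat_lit 7) 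
(.lf (nat_lit 54659964) (dlOf (nat_lit 1) (nat_lit 0x60029655c01))) 
(.lf (nat_lit 537003772) (dlOf (nat_lit 1) (nat_lit 0x40028003b81)))))) (.nd (nat_lit 26) 
(.nd (nat_lit 9) (.nd (nat_lit 27) 
(.lf (nat_lit 2416050236) (dlOf (nat_lit 3) (nat_lit 0x300740006a04003003a000000200020028020701))) 
(.lf (nat_lit 2550267964) (dlOf (nat_lit 3) (nat_lit 0x300700006a040030038000000200020028020701)))) 
(.nd (nat_lit 6) (.lf (nat_lit 4697753148) (dlOf (nat_lit 1) (nat_lit 0x3400400020018093782))) 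
(.lf (nat_lit 805441148) (dlOf (nat_lit 1) (nat_lit 0x58008000800200500008117183))))) 
(.nd (nat_lit 6) (.nd (nat_lit 8) 
(.lf (nat_lit 5301731388) (dlOf (nat_lit 3) (nat_lit 0x403e000301d000200dc000400000ae608000403e000301d000200dc015ca0c000800400100008051682))) 
(.lf (nat_lit 2617377596) (dlOf (nat_lit 1) (nat_lit 0x18008005c002004400080a2303)))) 
(.nd (nat_lit 11) (.lf (nat_lit 5167513724) (dlOf (nat_lit 1) (nat_lit 0x400400020008070c82))) 
(.lf (nat_lit 469895292) (dlOf (nat_lit 1) (nat_lit 0x8008000400200020008004783))))))) 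
(.nd (nat_lit 26) (.nd (nat_lit 32) (.nd (nat_lit 6) (.nd (nat_lit 21) 
(.lf (nat_lit 30801980) (dlOf (nat_lit 1) (nat_lit 0xc0028e50c81))) 
(.lf (nat_lit 37093436) (dlOf (nat_lit 1) (nat_lit 0x8002014a0009090602)))) (.nd (nat_lit 7) 
(.lf (nat_lit 395388) (dlOf (nat_lit 1) (nat_lit 0x180018004781))) 
(.lf (nat_lit 40240124) (dlOf (nat_lit 1) (nat_lit 0x4004000200091f2882))))) (.nd (nat_lit 27) 
(.nd (nat_lit 28) 
(.lf (nat_lit 6442844220) (dlOf (nat_lit 2) (nat_lit 0x40190004f80801600080070002003600081d0c03))) 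
(.lf (nat_lit 4563796028) (dlOf (nat_lit 3) (nat_lit 0x2c0520012007005060200090148003801c014160800cc004008400080e1682)))) 
(.lf (nat_lit 4698013756) (dlOf (nat_lit 3) (nat_lit 0x2c05200120070023b0200090148003801c008ea0800cc004008400080e1682))))) 
(.nd (nat_lit 21) (.nd (nat_lit 6) (.nd (nat_lit 8) 
(.lf (nat_lit 738590780) (dlOf (nat_lit 5) (nat_lit 0x23014c012806a0096021004d00e8009182000680d4011c042008801d001038301ea02a80508150048009e000604801eb01b802500d804d8044027201e0004908000301a80008084001403a0000006002400180b0481))) 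
(.lf (nat_lit 604373308) (dlOf (nat_lit 1) (nat_lit 0x400281a0701)))) 
(.lf (nat_lit 604373116) (dlOf (nat_lit 3) (nat_lit 0x220070007e01000f0038003e00800f000800a0002003e00081a0483)))) 
(.nd (nat_lit 7) (.lf (nat_lit 2753953852) (dlOf (nat_lit 1) (nat_lit 0x1200180a0c81))) 
(.lf (nat_lit 1009124540) (dlOf (nat_lit 8) (nat_lit 0x320750002201000d071000d01d4000860800581c400320750001f02001a03a8000f00800f838800141c00038075001a0398000dc20008838800b80ea0003504003e0e2002303a80000010024800800c800200020009082c83))))))) 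
(.nd (nat_lit 26) (.nd (nat_lit 29) (.nd (nat_lit 6) (.nd (nat_lit 8) (.nd (nat_lit 9) 
(.lf (nat_lit 3490840636) (dlOf (nat_lit 1) (nat_lit 0xc0008020701))) 
(.lf (nat_lit 1073873468) (dlOf (nat_lit 1) (nat_lit 0x40028018b01)))) (.nd (nat_lit 7) 
(.lf (nat_lit 1342314300) (dlOf (nat_lit 1) (nat_lit 0x2002800a101))) 
(.lf (nat_lit 3355575228) (dlOf (nat_lit 1) (nat_lit 0x18008005c002004400080a2783))))) 
(.nd (nat_lit 7) (.nd (nat_lit 8) 
(.lf (nat_lit 3355580028) (dlOf (nat_lit 2) (nat_lit 0x80c4000f604001c004005800080a9d82))) 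
(.lf (nat_lit 3221364092) (dlOf (nat_lit 1) (nat_lit 0x2002811c901)))) 
(.lf (nat_lit 3355579900) (dlOf (nat_lit 2) (nat_lit 0x60088029b40800480080004002005400080a9c03))))) 
(.nd (nat_lit 7) (.nd (nat_lit 18) (.nd (nat_lit 27) 
(.lf (nat_lit 4026662972) (dlOf (nat_lit 3) (nat_lit 0x38804001f800b0001f02004d005000000080050008019400200020008020703))) 
(.lf (nat_lit 2013397052) (dlOf (nat_lit 1) (nat_lit 0x1400400100008040482)))) (.nd (nat_lit 21) 
(.lf (nat_lit 1611006012) (dlOf (nat_lit 5) (nat_lit 0x23014c012806a0096021004d00e8009182000680d4011c042008801d001040301ea02a80508150048009e000604801eb01b802500d804d8044027201e0004908000301a80008084001403a0000006002400180b0481))) 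
(.lf (nat_lit 1881538620) (dlOf (nat_lit 1) (nat_lit 0x160008009400200300008f40603))))) 
(.nd (nat_lit 6) (.nd (nat_lit 10) 
(.lf (nat_lit 3758227900) (dlOf (nat_lit 1) (nat_lit 0x4e0028107001))) 
(.lf (nat_lit 1610745276) (dlOf (nat_lit 1) (nat_lit 0xc0018093601)))) 
(.lf (nat_lit 1610745084) (dlOf (nat_lit 1) (nat_lit 0x20018092f01)))))) (.nd (nat_lit 6) 
(.nd (nat_lit 28) (.nd (nat_lit 31) (.nd (nat_lit 32) 
(.lf (nat_lit 1140981820) (dlOf (nat_lit 1) (nat_lit 0x1400400100008040482))) 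
(.lf (nat_lit 5435949116) (dlOf (nat_lit 3) (nat_lit 0x403e000301d000200d400040000056b08000403e000301d000200d400ad40c000800400100008051682)))) 
(.nd (nat_lit 9) 
(.lf (nat_lit 3288465468) (dlOf (nat_lit 3) (nat_lit 0x38804001f800b0001f02004d005000000080050008019400200020008020703))) 
(.lf (nat_lit 3959560764) (dlOf (nat_lit 1) (nat_lit 0x4000811b481))))) (.nd (nat_lit 7) 
(.nd (nat_lit 8) 
(.lf (nat_lit 5838864444) (dlOf (nat_lit 2) (nat_lit 0x40190004c40801600080070002003600081d0c03))) 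
(.lf (nat_lit 1409420604) (dlOf (nat_lit 1) (nat_lit 0x20018006901)))) (.nd (nat_lit 8) 
(.lf (nat_lit 2080768188) (dlOf (nat_lit 3) (nat_lit 0xa0310007b81000301680013c0800200080008002000400080c1703))) 
(.lf (nat_lit 6241258428) (dlOf (nat_lit 1) (nat_lit 0x4004000200080d5d02)))))) (.nd (nat_lit 7) 
(.nd (nat_lit 8) (.lf (nat_lit 6375736956) (dlOf (nat_lit 1) (nat_lit 0x400200020008003982))) 
(.nd (nat_lit 11) (.lf (nat_lit 4228252028) (dlOf (nat_lit 1) (nat_lit 0x20008090781))) 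
(.lf (nat_lit 3556903292) (dlOf (nat_lit 1) (nat_lit 0x5400280d4e81))))) (.nd (nat_lit 8) 
(.nd (nat_lit 9) (.lf (nat_lit 1677854972) (dlOf (nat_lit 1) (nat_lit 0x1000200060008114b82))) 
(.lf (nat_lit 6377573116) (dlOf (nat_lit 1) (nat_lit 0x200180e5a01)))) 
(.lf (nat_lit 1946288636) (dlOf (nat_lit 1) (nat_lit 0x18008000800200040008017803)))))))) 
(.nd (nat_lit 24) (.nd (nat_lit 28) (.nd (nat_lit 6) (.nd (nat_lit 7) (.nd (nat_lit 20) 
(.nd (nat_lit 22) 
(.lf (nat_lit 3221880892) (dlOf (nat_lit 3) (nat_lit 0x5c07e00280000002a820005020000144080188008006c002000c00081a1403))) 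
(.lf (nat_lit 46792764) (dlOf (nat_lit 3) (nat_lit 0x30679003a201000d33c801ce80802700080224002002c0009380003)))) 
(.nd (nat_lit 21) 
(.lf (nat_lit 10092604) (dlOf (nat_lit 3) (nat_lit 0xe1688000dc080048b4400000040044004000400185b0702))) 
(.lf (nat_lit 3801148) (dlOf (nat_lit 5) (nat_lit 0x61380007099800383a0002460c0004288000c1380009099800483a0002441000102880008138000a099800583a00024210001028800081380006099800383a00024010000400200020008220c02))))) 
(.nd (nat_lit 18) (.nd (nat_lit 20) 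
(.lf (nat_lit 34211004) (dlOf (nat_lit 1) (nat_lit 0x40028fb2c81))) 
(.lf (nat_lit 41551036) (dlOf (nat_lit 2) (nat_lit 0x1bee7a00df6ba0001f029242c80)))) 
(.lf (nat_lit 69076156) (dlOf (nat_lit 1) (nat_lit 0x300080020002000c00088a2c83))))) 
(.nd (nat_lit 7) (.nd (nat_lit 8) 
(.lf (nat_lit 9045628) (dlOf (nat_lit 2) (nat_lit 0x7894600663cf00007028513980))) (.nd (nat_lit 9) 
(.lf (nat_lit 2754481532) (dlOf (nat_lit 1) (nat_lit 0x200080f6c01))) 
(.lf (nat_lit 46795644) (dlOf (nat_lit 1) (nat_lit 0x100080064002004a0009385c03))))) 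
(.nd (nat_lit 18) (.lf (nat_lit 9046012) (dlOf (nat_lit 1) (nat_lit 0x300080020002000c0008514703))) 
(.lf (nat_lit 8259580) (dlOf (nat_lit 1) (nat_lit 0x20008514701)))))) (.nd (nat_lit 21) 
(.nd (nat_lit 27) (.nd (nat_lit 6) (.nd (nat_lit 29) 
(.lf (nat_lit 1342832700) (dlOf (nat_lit 2) (nat_lit 0x6233000990180e0c00))) 
(.lf (nat_lit 805961788) (dlOf (nat_lit 3) (nat_lit 0x600260004f02009c05600027018201400)))) 
(.lf (nat_lit 3490319740) (dlOf (nat_lit 1) (nat_lit 0x120008006c01)))) (.nd (nat_lit 7) 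
(.lf (nat_lit 470417468) (dlOf (nat_lit 2) (nat_lit 0x62330009f8180e0c00))) 
(.lf (nat_lit 5773328572) (dlOf (nat_lit 1) (nat_lit 0x4002000200080c1702))))) (.nd (nat_lit 26) 
(.nd (nat_lit 11) (.lf (nat_lit 1344929852) (dlOf (nat_lit 1) (nat_lit 0x200089a0601))) 
(.lf (nat_lit 3492677692) (dlOf (nat_lit 1) (nat_lit 0x14004001600080f4702)))) (.nd (nat_lit 27) 
(.lf (nat_lit 4096393276) (dlOf (nat_lit 1) (nat_lit 0x368008032400200480008100483))) 
(.lf (nat_lit 1009385532) (dlOf (nat_lit 1) (nat_lit 0x40029150781))))))) (.nd (nat_lit 7) 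
(.nd (nat_lit 9) (.nd (nat_lit 10) (.nd (nat_lit 8) 
(.lf (nat_lit 21626940) (dlOf (nat_lit 3) (nat_lit 0x376a80013b5000ae6040009daa0004ed4002b94100130008007c00200420008a51683))) 
(.lf (nat_lit 20840764) (dlOf (nat_lit 1) (nat_lit 0x28004001a00089e5d02)))) (.nd (nat_lit 6) 
(.lf (nat_lit 19795004) (dlOf (nat_lit 1) (nat_lit 0xc00189d6081))) 
(.lf (nat_lit 19795068) (dlOf (nat_lit 1) (nat_lit 0x200080004002000600089d6083))))) 
(.nd (nat_lit 6) (.nd (nat_lit 8) 
(.lf (nat_lit 19796540) (dlOf (nat_lit 1) (nat_lit 0x600289d8981))) 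
(.lf (nat_lit 19794748) (dlOf (nat_lit 1) (nat_lit 0x200089d5c01)))) (.nd (nat_lit 11) 
(.lf (nat_lit 19796604) (dlOf (nat_lit 1) (nat_lit 0x380080010002000600089d8a83))) 
(.lf (nat_lit 19794556) (dlOf (nat_lit 1) (nat_lit 0x8004000600089d5402)))))) (.nd (nat_lit 10) 
(.nd (nat_lit 6) (.nd (nat_lit 8) 
(.lf (nat_lit 25821372) (dlOf (nat_lit 1) (nat_lit 0x400400020008c10382))) (.nd (nat_lit 12) 
(.lf (nat_lit 23724476) (dlOf (nat_lit 1) (nat_lit 0x2c00400020008b80882))) 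
(.lf (nat_lit 19796412) (dlOf (nat_lit 1) (nat_lit 0x80080018002000600089d8583))))) 
(.nd (nat_lit 9) (.nd (nat_lit 11) 
(.lf (nat_lit 19792124) (dlOf (nat_lit 1) (nat_lit 0xc004000400089d0a82))) 
(.lf (nat_lit 19798268) (dlOf (nat_lit 1) (nat_lit 0x200089da981)))) 
(.lf (nat_lit 19798780) (dlOf (nat_lit 1) (nat_lit 0x200189db981))))) (.nd (nat_lit 18) 
(.nd (nat_lit 6) (.nd (nat_lit 21) 
(.lf (nat_lit 55182524) (dlOf (nat_lit 2) (nat_lit 0x31b04c00000040004004000600196d2c82))) 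
(.lf (nat_lit 32113852) (dlOf (nat_lit 1) (nat_lit 0xc0008ef2c81)))) 
(.lf (nat_lit 53085692) (dlOf (nat_lit 1) (nat_lit 0x400400020009573682)))) (.nd (nat_lit 11) 
(.lf (nat_lit 51250364) (dlOf (nat_lit 1) (nat_lit 0x40029512c81))) 
(.lf (nat_lit 19799228) (dlOf (nat_lit 1) (nat_lit 0x30008000c002000a00089dc203))))))))) 
(.nd (nat_lit 26) (.nd (nat_lit 6) (.nd (nat_lit 7) (.nd (nat_lit 18) (.nd (nat_lit 19) 
(.nd (nat_lit 21) (.nd (nat_lit 29) 
(.lf (nat_lit 268599356) (dlOf (nat_lit 3) (nat_lit 0xd00b00068054004402800476060016016000b00a80080050008ea0c005c004000e00080a1682))) 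
(.lf (nat_lit 4026695740) (dlOf (nat_lit 1) (nat_lit 0x120028030d01)))) 
(.lf (nat_lit 52592700) (dlOf (nat_lit 4) (nat_lit 0x98c12009f608804daca402256500134a7b009553480058430044b040023964e010aa7a008c53400027420042304000217f20110b27008053d004229a000093160008e0c00280019550601)))) 
(.nd (nat_lit 8) (.nd (nat_lit 21) 
(.lf (nat_lit 134905916) (dlOf (nat_lit 2) (nat_lit 0x2006200040110003f0280d0b80))) 
(.lf (nat_lit 3492446268) (dlOf (nat_lit 1) (nat_lit 0x4004000200080d0b82)))) 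
(.lf (nat_lit 20611388) (dlOf (nat_lit 1) (nat_lit 0x200289d0b81))))) (.nd (nat_lit 32) 
(.nd (nat_lit 8) (.lf (nat_lit 134644284) (dlOf (nat_lit 2) (nat_lit 0x22a03100000018091000))) 
(.lf (nat_lit 3624304956) (dlOf (nat_lit 1) (nat_lit 0x100018154c01)))) (.nd (nat_lit 27) 
(.lf (nat_lit 4295393340) (dlOf (nat_lit 2) (nat_lit 0xb805800176040004002001200081c0c02))) 
(.lf (nat_lit 4429611068) (dlOf (nat_lit 2) (nat_lit 0xb805400170040004002001200081c0c02)))))) 
(.nd (nat_lit 10) (.nd (nat_lit 8) (.nd (nat_lit 9) (.nd (nat_lit 12) 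
(.lf (nat_lit 3571900) (dlOf (nat_lit 1) (nat_lit 0xa0028200381))) 
(.lf (nat_lit 3758264508) (dlOf (nat_lit 1) (nat_lit 0x400200020008127e82)))) 
(.lf (nat_lit 1208126140) (dlOf (nat_lit 1) (nat_lit 0x8008000400200020008095783)))) 
(.nd (nat_lit 27) (.nd (nat_lit 28) 
(.lf (nat_lit 3221651900) (dlOf (nat_lit 7) (nat_lit 0x401e00016c0800100f8004c076003400e0001b03002a01f000480700002e0801f807c004e01c000b00700004c1800f8038001001800080000000703000d02280c180f40634078030c01b018d00680a0002c063400602de00100e30000000004800580080d4000208f20008170883))) 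
(.lf (nat_lit 805732796) (dlOf (nat_lit 8) (nat_lit 0x63813c03c0084008c03800f00110056003803140080004a0c0222040000b01c0004007802c801a018200b0001f8500ef02100768088029c01c018a0040001d8400f50210077808802f801c01900040001d0400020110000e4080080108000401c000160400d8051007801d000000100438008027800207f400081a0883)))) 
(.lf (nat_lit 134644156) (dlOf (nat_lit 2) (nat_lit 0x1c00000000004005800200200008090882))))) 
(.nd (nat_lit 18) (.nd (nat_lit 20) 
(.lf (nat_lit 55215292) (dlOf (nat_lit 2) (nat_lit 0x196098000000800180080008002000800096d2c83))) 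
(.lf (nat_lit 58361020) (dlOf (nat_lit 1) (nat_lit 0x24004000200097e2c82)))) (.nd (nat_lit 21) 
(.lf (nat_lit 31360188) (dlOf (nat_lit 1) (nat_lit 0x60028e92c81))) 
(.lf (nat_lit 41845948) (dlOf (nat_lit 1) (nat_lit 0xa0019242c81))))))) (.nd (nat_lit 7) 
(.nd (nat_lit 8) (.nd (nat_lit 9) (.nd (nat_lit 18) 
(.lf (nat_lit 44204156) (dlOf (nat_lit 1) (nat_lit 0x4002000200092d0c02))) (.nd (nat_lit 19) 
(.lf (nat_lit 21397628) (dlOf (nat_lit 3) (nat_lit 0x162f94003029e0002404001cbe500010a78000881001300080104002004e0008a30c83))) 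
(.lf (nat_lit 12484732) (dlOf (nat_lit 2) (nat_lit 0x12715001078186c0080))))) (.nd (nat_lit 20) 
(.lf (nat_lit 9078396) (dlOf (nat_lit 1) (nat_lit 0x400200020008513982))) 
(.lf (nat_lit 43681404) (dlOf (nat_lit 1) (nat_lit 0x200292a3981))))) (.nd (nat_lit 28) 
(.nd (nat_lit 22) (.nd (nat_lit 27) 
(.lf (nat_lit 3221651836) (dlOf (nat_lit 3) (nat_lit 0xe808c003004500438820027023002024080030008001800200340008170783))) 
(.lf (nat_lit 134644092) (dlOf (nat_lit 1) (nat_lit 0x9800400580008090782)))) 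
(.lf (nat_lit 21397884) (dlOf (nat_lit 1) (nat_lit 0x58008008800200260008a35a83)))) 
(.nd (nat_lit 11) 
(.lf (nat_lit 805732732) (dlOf (nat_lit 2) (nat_lit 0x2202b0021c40800d00080044002001e00081a0783))) 
(.lf (nat_lit 3490089340) (dlOf (nat_lit 1) (nat_lit 0x400200020008004e82)))))) (.nd (nat_lit 8) 
(.nd (nat_lit 10) (.nd (nat_lit 9) 
(.lf (nat_lit 2818736380) (dlOf (nat_lit 1) (nat_lit 0x200280e2901))) 
(.lf (nat_lit 40274684) (dlOf (nat_lit 1) (nat_lit 0x80080004002000200091f5a03)))) 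
(.nd (nat_lit 18) 
(.lf (nat_lit 671254268) (dlOf (nat_lit 2) (nat_lit 0x20170000b0080070008001c00200020008143b83))) 
(.lf (nat_lit 2550564604) (dlOf (nat_lit 1) (nat_lit 0x200180f3b81))))) (.nd (nat_lit 9) 
(.nd (nat_lit 18) (.lf (nat_lit 9601532) (dlOf (nat_lit 1) (nat_lit 0x20018577e01))) 
(.lf (nat_lit 3624305148) (dlOf (nat_lit 1) (nat_lit 0x20008000400200060008157803)))) 
(.nd (nat_lit 10) (.nd (nat_lit 11) 
(.lf (nat_lit 36340732) (dlOf (nat_lit 1) (nat_lit 0x40019072881))) 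
(.lf (nat_lit 4563569660) (dlOf (nat_lit 1) (nat_lit 0x400400020008095f02)))) 
(.lf (nat_lit 8030204) (dlOf (nat_lit 1) (nat_lit 0x500018514701)))))))) (.nd (nat_lit 27) 
(.nd (nat_lit 31) (.nd (nat_lit 7) (.nd (nat_lit 6) (.nd (nat_lit 18) (.nd (nat_lit 19) 
(.lf (nat_lit 4630675516) (dlOf (nat_lit 1) (nat_lit 0x60008051681))) 
(.lf (nat_lit 67797052) (dlOf (nat_lit 3) (nat_lit 0x20b10000600800b000000006040004004000200082f0c82)))) 
(.lf (nat_lit 604405820) (dlOf (nat_lit 1) (nat_lit 0x2140008200001)))) (.nd (nat_lit 8) 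
(.lf (nat_lit 5704417404) (dlOf (nat_lit 1) (nat_lit 0x58008000c00200080008070c83))) 
(.lf (nat_lit 604408700) (dlOf (nat_lit 4) (nat_lit 0x14034000a0000008ec1000800f40010074000e0340008015000400800020018001000900070000008b84000700f40000004001000400040008205c02))))) 
(.nd (nat_lit 6) (.nd (nat_lit 11) (.nd (nat_lit 29) 
(.lf (nat_lit 4362502588) (dlOf (nat_lit 2) (nat_lit 0x4015800128080038008001c00200080008090883))) 
(.lf (nat_lit 1678148028) (dlOf (nat_lit 8) (nat_lit 0x63813c03c0084008c03800f00110056003803140080004a0c0222040000b01c0004007802c801a018200b0001f8500ef02100768088029c01c018a0040001d8400f50210077808802f801c01900040001d0400020110000e4080080108000401c000150400d8051007801d000000100438008027800207f400081a0883)))) 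
(.lf (nat_lit 5435984316) (dlOf (nat_lit 1) (nat_lit 0x20018094e81)))) (.nd (nat_lit 9) 
(.lf (nat_lit 4362240508) (dlOf (nat_lit 3) (nat_lit 0xe40560016024800c0104007806c048203101230110001983005e8158003c082035003100c50110000fc200028008000c00200020008017e03))) 
(.lf (nat_lit 1677887484) (dlOf (nat_lit 2) (nat_lit 0x28038001be04000800200020008114702)))))) 
(.nd (nat_lit 18) (.nd (nat_lit 11) (.nd (nat_lit 19) 
(.lf (nat_lit 3288498236) (dlOf (nat_lit 1) (nat_lit 0x120028030d01))) 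
(.lf (nat_lit 2754248764) (dlOf (nat_lit 1) (nat_lit 0x4004000200080d0b82)))) (.nd (nat_lit 6) 
(.nd (nat_lit 8) (.lf (nat_lit 2751633980) (dlOf (nat_lit 1) (nat_lit 0x4000800b481))) 
(.lf (nat_lit 2751629628) (dlOf (nat_lit 1) (nat_lit 0x8008000400200020008004c83)))) 
(.lf (nat_lit 3020070012) (dlOf (nat_lit 1) (nat_lit 0x1380080050002002c000812c103))))) 
(.nd (nat_lit 6) (.nd (nat_lit 9) 
(.lf (nat_lit 6509985852) (dlOf (nat_lit 1) (nat_lit 0x280028180881))) 
(.lf (nat_lit 2752414268) (dlOf (nat_lit 1) (nat_lit 0xa0018018b01)))) (.nd (nat_lit 8) 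
(.lf (nat_lit 2751891196) (dlOf (nat_lit 1) (nat_lit 0x1c004000c0008003b82))) 
(.lf (nat_lit 2752414204) (dlOf (nat_lit 21) (nat_lit 0x331240000dc0813589200005c0409c04900002d0200c0248000160102671240000a4080d289200004e040a2849000026020454248000128100bf0fc00008c0814a07e000642ae000220401a21f80000f0101320fc0000700808d87e0000360408cc4900001202020824800008010015124000038080078920000160409244900000702014824800002010231124000a0918000000801fc00400020018017e02))))))) 
(.nd (nat_lit 30) (.nd (nat_lit 8) (.nd (nat_lit 19) (.nd (nat_lit 9) 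
(.lf (nat_lit 4764893244) (dlOf (nat_lit 1) (nat_lit 0x60008051681))) 
(.lf (nat_lit 201753148) (dlOf (nat_lit 2) (nat_lit 0x22a03100000018091000)))) (.nd (nat_lit 28) 
(.lf (nat_lit 202014780) (dlOf (nat_lit 2) (nat_lit 0x2006200040110003f0280d0b80))) 
(.lf (nat_lit 3154804796) (dlOf (nat_lit 3) (nat_lit 0x502380006008004011c0001e040060004003a0008330c82))))) 
(.nd (nat_lit 6) (.nd (nat_lit 7) 
(.lf (nat_lit 2886107452) (dlOf (nat_lit 1) (nat_lit 0x100018154c01))) 
(.lf (nat_lit 201753020) (dlOf (nat_lit 2) (nat_lit 0x1c00000000004005800200200008090882)))) 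
(.nd (nat_lit 7) 
(.lf (nat_lit 473074556) (dlOf (nat_lit 3) (nat_lit 0x110b28006880800105940000004000c004002e0018c95c02))) 
(.nd (nat_lit 11) (.lf (nat_lit 469926396) (dlOf (nat_lit 1) (nat_lit 0x4004000a0008017e02))) 
(.lf (nat_lit 1007847932) (dlOf (nat_lit 1) (nat_lit 0x20008804f81))))))) (.nd (nat_lit 6) 
(.nd (nat_lit 7) (.nd (nat_lit 8) (.nd (nat_lit 9) 
(.lf (nat_lit 4228546620) (dlOf (nat_lit 2) (nat_lit 0x901900013c0801b0008000c002002000080f1403))) 
(.lf (nat_lit 4228022844) (dlOf (nat_lit 3) (nat_lit 0xbc0320021b0100490190010cc080068008002000200160008018203)))) 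
(.lf (nat_lit 3959593276) (dlOf (nat_lit 1) (nat_lit 0x18000811ab81)))) (.nd (nat_lit 18) 
(.lf (nat_lit 6378127804) (dlOf (nat_lit 1) (nat_lit 0x1800400040008117002))) (.nd (nat_lit 28) 
(.lf (nat_lit 3959849404) (dlOf (nat_lit 7) (nat_lit 0x401e0001680800100f8004c076003400e0001b03002a01f000480700002e0801f807c004e01c000b00700004c1800f8038001001800080000000783000d02280c180f40634078030c01b018d00680a0002c063400602de00100e30000000004800580080d4000208f20008170883))) 
(.lf (nat_lit 4228284860) (dlOf (nat_lit 2) (nat_lit 0x4015000128080038008001c00200080008090883)))))) 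
(.nd (nat_lit 10) (.nd (nat_lit 8) 
(.lf (nat_lit 6376557180) (dlOf (nat_lit 1) (nat_lit 0x2400400080018095402))) 
(.lf (nat_lit 3959849340) (dlOf (nat_lit 2) (nat_lit 0x1804600742818170780)))) (.nd (nat_lit 7) 
(.lf (nat_lit 1812106620) (dlOf (nat_lit 1) (nat_lit 0x20028146c01))) 
(.lf (nat_lit 6375769596) (dlOf (nat_lit 1) (nat_lit 0xb60008000400201d40008003683))))))))))) 
(.nd (nat_lit 15) (.nd (nat_lit 5) (.nd (nat_lit 26) (.nd (nat_lit 21) (.nd (nat_lit 6) 
(.nd (nat_lit 18) (.nd (nat_lit 29) (.nd (nat_lit 19) (.nd (nat_lit 8) 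
(.lf (nat_lit 29556764) (dlOf (nat_lit 2) (nat_lit 0x129180002e04000400200040008e20602))) 
(.lf (nat_lit 268632348) (dlOf (nat_lit 1) (nat_lit 0x4004000200080e0a82)))) (.nd (nat_lit 22) 
(.lf (nat_lit 134938652) (dlOf (nat_lit 2) (nat_lit 0xc04f001130180e0480))) 
(.lf (nat_lit 21692444) (dlOf (nat_lit 5) (nat_lit 0x8ed5000376a00013b4c000bda40007ed00003f678001fa86001fd0e001fdaa0010ed4000576980033b480019da0000cecf0006f5200037a86001fc10001fdaa0011ed40005f698002fb48001bda0000cecf0007750c003f61c0033b540021da8000aed30002f6900033b400019d9e000dea18007e83801180080014002001c0008a60a83))))) 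
(.nd (nat_lit 7) (.nd (nat_lit 9) (.nd (nat_lit 30) 
(.lf (nat_lit 2952986652) (dlOf (nat_lit 2) (nat_lit 0x3200e0000000808f000801b0002000a0008080503))) 
(.lf (nat_lit 4026728476) (dlOf (nat_lit 1) (nat_lit 0x400400160008070582)))) 
(.lf (nat_lit 2818773532) (dlOf (nat_lit 1) (nat_lit 0xfc00400800008128782)))) (.nd (nat_lit 9) 
(.lf (nat_lit 1610810524) (dlOf (nat_lit 1) (nat_lit 0x28004000a0008092b82))) 
(.lf (nat_lit 2818773660) (dlOf (nat_lit 1) (nat_lit 0x40018128c81)))))) (.nd (nat_lit 22) 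
(.nd (nat_lit 7) (.lf (nat_lit 1507356) (dlOf (nat_lit 2) (nat_lit 0x4c488000250180e0b00))) 
(.nd (nat_lit 8) 
(.lf (nat_lit 134676636) (dlOf (nat_lit 4) (nat_lit 0x580ec000ac0400e0094002802a0001c02004901d801600d800a402e0001606008c0018090181))) 
(.lf (nat_lit 805765532) (dlOf (nat_lit 1) (nat_lit 0x1200281a0781))))) (.nd (nat_lit 19) 
(.lf (nat_lit 56033308) (dlOf (nat_lit 1) (nat_lit 0x160029710101))) (.nd (nat_lit 23) 
(.lf (nat_lit 23003164) (dlOf (nat_lit 3) (nat_lit 0xbbc40004e810017de58002380800880080004002001a0008b40483))) 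
(.lf (nat_lit 14614556) (dlOf (nat_lit 1) (nat_lit 0x20008770101))))))) (.nd (nat_lit 8) 
(.nd (nat_lit 18) (.nd (nat_lit 7) (.nd (nat_lit 9) 
(.lf (nat_lit 537591900) (dlOf (nat_lit 2) (nat_lit 0x1400fc0004c0400c8004000600080c1b02))) 
(.lf (nat_lit 2013464156) (dlOf (nat_lit 5) (nat_lit 0x2a026000268100150130001180800a80980008a04005404c000440200040018093901)))) 
(.lf (nat_lit 8590044) (dlOf (nat_lit 1) (nat_lit 0x8008000400200020008518c83)))) (.nd (nat_lit 7) 
(.nd (nat_lit 27) (.lf (nat_lit 1611071580) (dlOf (nat_lit 1) (nat_lit 0x4004000200080d0702))) 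
(.lf (nat_lit 3624337500) (dlOf (nat_lit 1) (nat_lit 0x80080014002000e0008160b03)))) 
(.lf (nat_lit 2416378076) (dlOf (nat_lit 1) (nat_lit 0x200281b0481))))) (.nd (nat_lit 7) 
(.nd (nat_lit 20) (.nd (nat_lit 28) 
(.lf (nat_lit 134414684) (dlOf (nat_lit 1) (nat_lit 0x20028014e81))) 
(.lf (nat_lit 939721052) (dlOf (nat_lit 3) (nat_lit 0x110130000780800c809800ac04a001002200060100000002000a8008000800200120008154e03)))) 
(.lf (nat_lit 9634140) (dlOf (nat_lit 2) (nat_lit 0x1c2d100022018574e00)))) (.nd (nat_lit 18) 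
(.nd (nat_lit 27) (.lf (nat_lit 6711083996) (dlOf (nat_lit 1) (nat_lit 0x400400020008092882))) 
(.lf (nat_lit 2013463516) (dlOf (nat_lit 1) (nat_lit 0x20028092881)))) 
(.lf (nat_lit 51315676) (dlOf (nat_lit 1) (nat_lit 0x20029512881))))))) (.nd (nat_lit 19) 
(.nd (nat_lit 20) (.nd (nat_lit 23) (.nd (nat_lit 7) (.nd (nat_lit 8) 
(.lf (nat_lit 3491954716) (dlOf (nat_lit 1) (nat_lit 0x400400020008090002))) 
(.lf (nat_lit 2294044) (dlOf (nat_lit 1) (nat_lit 0x800200020008150482)))) 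
(.lf (nat_lit 23527836) (dlOf (nat_lit 1) (nat_lit 0x3d80080004002004a0008b80783)))) 
(.nd (nat_lit 6) (.nd (nat_lit 22) 
(.lf (nat_lit 61276188) (dlOf (nat_lit 1) (nat_lit 0x1000400060009900102))) 
(.lf (nat_lit 15138844) (dlOf (nat_lit 1) (nat_lit 0x4004001e00087c0502)))) 
(.lf (nat_lit 44501596) (dlOf (nat_lit 1) (nat_lit 0x20019325301))))) (.nd (nat_lit 6) 
(.nd (nat_lit 8) (.nd (nat_lit 7) 
(.lf (nat_lit 49741852) (dlOf (nat_lit 1) (nat_lit 0x8002000200094a0102))) 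
(.lf (nat_lit 11993244) (dlOf (nat_lit 4) (nat_lit 0x898fc0054c50001c610000e2dc8001182000898fc004cc50002261000102dc8001142000918fc0050c50002261000102dc8000e02001200080028002000a00086c0183)))) 
(.nd (nat_lit 11) (.lf (nat_lit 20119836) (dlOf (nat_lit 1) (nat_lit 0x200089d0a81))) 
(.lf (nat_lit 20125980) (dlOf (nat_lit 1) (nat_lit 0x4004000200089dab02))))) (.nd (nat_lit 7) 
(.nd (nat_lit 9) 
(.lf (nat_lit 57869404) (dlOf (nat_lit 2) (nat_lit 0x186500021a04000400200020009792902))) 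
(.lf (nat_lit 62327388) (dlOf (nat_lit 1) (nat_lit 0xc00199a5301)))) 
(.lf (nat_lit 28770524) (dlOf (nat_lit 1) (nat_lit 0x20028da0581)))))) (.nd (nat_lit 9) 
(.nd (nat_lit 20) (.nd (nat_lit 22) (.nd (nat_lit 23) 
(.lf (nat_lit 1344995356) (dlOf (nat_lit 1) (nat_lit 0x200189b0601))) 
(.lf (nat_lit 11206684) (dlOf (nat_lit 2) (nat_lit 0x7000000366040098002000e0008670482)))) 
(.lf (nat_lit 32178204) (dlOf (nat_lit 1) (nat_lit 0x1a0028ef0001)))) (.nd (nat_lit 18) 
(.nd (nat_lit 23) (.lf (nat_lit 3866652) (dlOf (nat_lit 1) (nat_lit 0xa40008240981))) 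
(.lf (nat_lit 29032476) (dlOf (nat_lit 2) (nat_lit 0x2a96c0000004000800200040008db0a02)))) 
(.lf (nat_lit 20906012) (dlOf (nat_lit 1) (nat_lit 0xac80080004002016800089f0103))))) 
(.nd (nat_lit 6) (.nd (nat_lit 8) 
(.lf (nat_lit 8327836) (dlOf (nat_lit 1) (nat_lit 0x20008001400200020008518c83))) (.nd (nat_lit 10) 
(.lf (nat_lit 19864476) (dlOf (nat_lit 1) (nat_lit 0x4004000200089dbc82))) 
(.lf (nat_lit 8325020) (dlOf (nat_lit 1) (nat_lit 0x560028514281))))) (.nd (nat_lit 7) 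
(.lf (nat_lit 8066908) (dlOf (nat_lit 1) (nat_lit 0x1000800040020002000851a303))) (.nd (nat_lit 20) 
(.lf (nat_lit 3492742108) (dlOf (nat_lit 2) (nat_lit 0x2010005ee808005000800b8002000400080f2883))) 
(.lf (nat_lit 50267100) (dlOf (nat_lit 1) (nat_lit 0x38008000c002001200094c2883))))))))) 
(.nd (nat_lit 29) (.nd (nat_lit 27) (.nd (nat_lit 30) (.nd (nat_lit 8) (.nd (nat_lit 6) 
(.nd (nat_lit 18) 
(.lf (nat_lit 4362797084) (dlOf (nat_lit 3) (nat_lit 0x7280cc0034604002c08a000940200020018100481))) 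
(.lf (nat_lit 4362534940) (dlOf (nat_lit 1) (nat_lit 0x328008002800200660008090003)))) 
(.lf (nat_lit 69928028) (dlOf (nat_lit 1) (nat_lit 0x20028e12901)))) (.nd (nat_lit 6) 
(.nd (nat_lit 7) 
(.lf (nat_lit 4630708508) (dlOf (nat_lit 1) (nat_lit 0x8008008c00200020008090a83))) 
(.lf (nat_lit 4362273180) (dlOf (nat_lit 1) (nat_lit 0x20018016881)))) 
(.lf (nat_lit 4362273116) (dlOf (nat_lit 12) (nat_lit 0x640b800ac05301d802380010118037c05a000690a001205c004802980fe011c031808c01b202d000340500f002380019408028014c011c0a20422047008b022806b80b40118048000440c00be0530044028810f811c01f808a01aa02d0002105005f029004b8118011c08a0002406016a052012a023003b8114000460c007808c0002102004205200410230000801000c81480003e0401cc0a400c60460022022800078182d08008036000218aa0008014e03))))) 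
(.nd (nat_lit 9) (.nd (nat_lit 18) (.nd (nat_lit 19) 
(.lf (nat_lit 3288530972) (dlOf (nat_lit 1) (nat_lit 0x400400160008070582))) 
(.lf (nat_lit 3557490716) (dlOf (nat_lit 2) (nat_lit 0x38124014d804001000400240018220682)))) 
(.lf (nat_lit 3557228572) (dlOf (nat_lit 1) (nat_lit 0x120028170101)))) (.nd (nat_lit 6) 
(.lf (nat_lit 3288794780) (dlOf (nat_lit 1) (nat_lit 0x4004000400080f3a82))) 
(.lf (nat_lit 3556973148) (dlOf (nat_lit 1) (nat_lit 0x80080064002000e000812b683)))))) 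
(.nd (nat_lit 19) (.nd (nat_lit 6) (.nd (nat_lit 7) (.nd (nat_lit 9) 
(.lf (nat_lit 3691184156) (dlOf (nat_lit 1) (nat_lit 0x940018090481))) 
(.lf (nat_lit 201785884) (dlOf (nat_lit 1) (nat_lit 0x1c004000c0008090d82)))) 
(.lf (nat_lit 201785500) (dlOf (nat_lit 4) (nat_lit 0x580ec000ac0400e0094002802a0001c02004901d801600d800a402e0001606008c0018090181)))) 
(.nd (nat_lit 7) (.lf (nat_lit 469959004) (dlOf (nat_lit 1) (nat_lit 0xc00200060008014e02))) 
(.lf (nat_lit 4764926940) (dlOf (nat_lit 1) (nat_lit 0x400400020008092882))))) (.nd (nat_lit 20) 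
(.nd (nat_lit 6) (.nd (nat_lit 21) 
(.lf (nat_lit 202047516) (dlOf (nat_lit 2) (nat_lit 0xc04e001130180e0480))) 
(.lf (nat_lit 472580124) (dlOf (nat_lit 3) (nat_lit 0x78530000a804021029a009e07d00fe03e0000441800580080020002002200089c0103)))) 
(.lf (nat_lit 472580188) (dlOf (nat_lit 2) (nat_lit 0xfa0bc000038189c0880)))) (.nd (nat_lit 6) 
(.nd (nat_lit 9) 
(.lf (nat_lit 473890844) (dlOf (nat_lit 34) (nat_lit 0x7859c000c02c0005504026816304a70a1825404ec11a0272006a12604a80668000c4300018598001c2760008139001e03a800f81cc007c03400120150001807083e0a1842604ec21e427210760cd000178404000a18000b8080b9050c0488276011a13901440668000b4201fa850c000580400ec2860002b0207f0143000150100da0a18000a40800a050c000500408c828601e80cd000120202330a180690334000440805ec28601d20cd000100202b40a1807c03340003e08090c286032213b004c09c80f683340003a1009bc286005e13b004b09c8098833400038100440286005e13b000406680006818129850c00ac276007a139014406680006420121050c036019a0001804044014301e609d80fc03340002c0c0bf028601b613b014a0668000541806a050c024c19a000140401e014300af06680004c1002e850c00024040bc02c6094414304a909d825503340002210032028601a213b00cf06680004018161050c032419a0000f0401dc143004e09d818b83340001c0c01e428607b00cd000068200c70a18000300802f050c0c1c27607b00cd000058301090a1806204ec030c19a0000a06003e0028fc0101)))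 
(.lf (nat_lit 473629212) (dlOf (nat_lit 1) (nat_lit 0x1c0028f68701)))) 
(.lf (nat_lit 473890908) (dlOf (nat_lit 4) (nat_lit 0x14214c00a106b80002c10033053001981ae000090400cc14c006606b8000001000c0008000800200040008fc0883))))))) 
(.nd (nat_lit 7) (.nd (nat_lit 18) (.nd (nat_lit 8) (.nd (nat_lit 6) (.nd (nat_lit 9) 
(.lf (nat_lit 4228579356) (dlOf (nat_lit 3) (nat_lit 0x7280c80036604002c07c000940200020018100481))) 
(.lf (nat_lit 2751666716) (dlOf (nat_lit 1) (nat_lit 0x40020002000800b282)))) 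
(.lf (nat_lit 1008926812) (dlOf (nat_lit 2) (nat_lit 0x240ec0001d0200240028fe0881)))) 
(.nd (nat_lit 6) (.nd (nat_lit 30) 
(.lf (nat_lit 738394396) (dlOf (nat_lit 3) (nat_lit 0x540420015602007002100066818090a80))) 
(.lf (nat_lit 6107103516) (dlOf (nat_lit 1) (nat_lit 0x400400020008090a82)))) 
(.lf (nat_lit 2885879644) (dlOf (nat_lit 1) (nat_lit 0x20028143f81))))) (.nd (nat_lit 11) 
(.nd (nat_lit 6) (.nd (nat_lit 27) 
(.lf (nat_lit 1678180380) (dlOf (nat_lit 1) (nat_lit 0x600080008002001000081a0003))) 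
(.lf (nat_lit 1007091740) (dlOf (nat_lit 1) (nat_lit 0x1780080130002001a0008170103)))) 
(.lf (nat_lit 738656348) (dlOf (nat_lit 1) (nat_lit 0x4004000200080d0702)))) (.nd (nat_lit 8) 
(.lf (nat_lit 4094626844) (dlOf (nat_lit 1) (nat_lit 0x40018056001))) 
(.lf (nat_lit 4094626588) (dlOf (nat_lit 1) (nat_lit 0x180028055c01)))))) (.nd (nat_lit 9) 
(.nd (nat_lit 8) (.nd (nat_lit 6) (.nd (nat_lit 10) 
(.lf (nat_lit 4096458908) (dlOf (nat_lit 1) (nat_lit 0x1a0018111281))) 
(.lf (nat_lit 5301798044) (dlOf (nat_lit 1) (nat_lit 0x400400020018092b82)))) 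
(.lf (nat_lit 1678180572) (dlOf (nat_lit 1) (nat_lit 0x18400400a200081a0482)))) (.nd (nat_lit 11) 
(.nd (nat_lit 28) (.lf (nat_lit 3959882140) (dlOf (nat_lit 1) (nat_lit 0x400400020008170782))) 
(.lf (nat_lit 4228317596) (dlOf (nat_lit 1) (nat_lit 0x500018090781)))) 
(.lf (nat_lit 6241323420) (dlOf (nat_lit 1) (nat_lit 0xc0004000200180d4e82))))) (.nd (nat_lit 6) 
(.nd (nat_lit 8) (.lf (nat_lit 2752186012) (dlOf (nat_lit 1) (nat_lit 0x240028003a81))) 
(.nd (nat_lit 10) (.lf (nat_lit 2754550684) (dlOf (nat_lit 1) (nat_lit 0x200180fbc81))) 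
(.lf (nat_lit 3959621532) (dlOf (nat_lit 2) (nat_lit 0x200000002004000800200020008114282))))) 
(.nd (nat_lit 18) 
(.lf (nat_lit 2885878748) (dlOf (nat_lit 1) (nat_lit 0x8008000400200020008142883))) 
(.lf (nat_lit 2751923164) (dlOf (nat_lit 2) (nat_lit 0x82200255a04001c00400060008002882))))))))) 
(.nd (nat_lit 21) (.nd (nat_lit 26) (.nd (nat_lit 6) (.nd (nat_lit 19) (.nd (nat_lit 29) 
(.nd (nat_lit 7) (.nd (nat_lit 8) 
(.lf (nat_lit 5637342780) (dlOf (nat_lit 1) (nat_lit 0x14004000200080d3782))) 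
(.lf (nat_lit 4563599676) (dlOf (nat_lit 1) (nat_lit 0x40008090b81)))) 
(.lf (nat_lit 47645884) (dlOf (nat_lit 2) (nat_lit 0x77af0003ed5240007c08002000400020009402c82)))) 
(.nd (nat_lit 27) (.nd (nat_lit 28) 
(.lf (nat_lit 2684551228) (dlOf (nat_lit 1) (nat_lit 0x1c004000200080a0002))) 
(.lf (nat_lit 2952986684) (dlOf (nat_lit 1) (nat_lit 0x15000400020008080902)))) (.nd (nat_lit 30) 
(.lf (nat_lit 5234688060) (dlOf (nat_lit 3) (nat_lit 0x200b8001804000ad404000a02e0006010002b4c100098008001c002000c0008091683))) 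
(.lf (nat_lit 2013462588) (dlOf (nat_lit 1) (nat_lit 0x200080034002000c0008090003)))))) 
(.nd (nat_lit 18) (.nd (nat_lit 7) (.nd (nat_lit 9) 
(.lf (nat_lit 134938684) (dlOf (nat_lit 2) (nat_lit 0x190078000000800100080064002004600080e0d83))) 
(.lf (nat_lit 3491430972) (dlOf (nat_lit 2) (nat_lit 0x920f5800000080128008008400200d20008091003)))) 
(.lf (nat_lit 3491430844) (dlOf (nat_lit 3) (nat_lit 0x183cc000360200681e500100a980000010014800800d000200100008090883)))) 
(.nd (nat_lit 20) (.lf (nat_lit 13566012) (dlOf (nat_lit 2) (nat_lit 0x82d10004f818730b80))) 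
(.lf (nat_lit 52363324) (dlOf (nat_lit 1) (nat_lit 0x60029530601)))))) (.nd (nat_lit 7) 
(.nd (nat_lit 8) (.nd (nat_lit 10) 
(.lf (nat_lit 1745029756) (dlOf (nat_lit 1) (nat_lit 0x20008001000200060008095403))) 
(.nd (nat_lit 12) (.lf (nat_lit 43976316) (dlOf (nat_lit 1) (nat_lit 0x4004000200092a3982))) 
(.lf (nat_lit 4160951932) (dlOf (nat_lit 1) (nat_lit 0x200280a9d81))))) (.nd (nat_lit 9) 
(.lf (nat_lit 3490122108) (dlOf (nat_lit 1) (nat_lit 0x400200020008004e82))) 
(.lf (nat_lit 46861180) (dlOf (nat_lit 1) (nat_lit 0x8008001800200020009385c03))))) 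
(.nd (nat_lit 23) (.nd (nat_lit 10) (.nd (nat_lit 18) 
(.lf (nat_lit 939721212) (dlOf (nat_lit 17) (nat_lit 0x17500c00d0002c050c012031e004018b00100c30000000ba1805e8030035400b013d00480c60010061c00403000000002e0600fa000000148080d8002c04f8012031c004018700100c60000000a21404f802c035a00b013f00480c6801006200040314000000280601d200580da001001e40040350000000260401d300580db801006cc0000004a06039600b01af002000120100db006006f00160370004000200100c08000000841400800160003f02003400b0001e8100e60000000e40800100940002e0400100000000802007a0000000381003200f800000080b20008001000203ae0008157e03))) 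
(.lf (nat_lit 3490644476) (dlOf (nat_lit 2) (nat_lit 0xc0458028cc080008008000c00200040008017803)))) 
(.lf (nat_lit 4160951804) (dlOf (nat_lit 1) (nat_lit 0x400280a9c01)))) (.nd (nat_lit 8) 
(.nd (nat_lit 9) (.lf (nat_lit 9109756) (dlOf (nat_lit 2) (nat_lit 0x3a0b0001c018524600))) 
(.lf (nat_lit 8587004) (dlOf (nat_lit 1) (nat_lit 0x8008000400200020008513b83)))) 
(.lf (nat_lit 9634300) (dlOf (nat_lit 1) (nat_lit 0x18008001400200060008577e03))))))) 
(.nd (nat_lit 7) (.nd (nat_lit 29) (.nd (nat_lit 6) (.nd (nat_lit 19) (.nd (nat_lit 8) 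
(.lf (nat_lit 68354108) (dlOf (nat_lit 1) (nat_lit 0x5a0018570001))) 
(.lf (nat_lit 6509759804) (dlOf (nat_lit 1) (nat_lit 0x140018146901)))) (.nd (nat_lit 27) 
(.lf (nat_lit 1410007100) (dlOf (nat_lit 2) (nat_lit 0x1a0520002b8180c1400))) 
(.lf (nat_lit 202047548) (dlOf (nat_lit 2) (nat_lit 0x190070000000800100080064002004600080e0d83))))) 
(.nd (nat_lit 8) 
(.lf (nat_lit 3422754428) (dlOf (nat_lit 2) (nat_lit 0x1003200040158001ec1000580080004002003a00080a9d83))) 
(.lf (nat_lit 4362273148) (dlOf (nat_lit 1) (nat_lit 0x80018015a81))))) (.nd (nat_lit 8) 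
(.nd (nat_lit 9) (.nd (nat_lit 22) 
(.lf (nat_lit 4899143740) (dlOf (nat_lit 1) (nat_lit 0x40018091681))) 
(.lf (nat_lit 2755854396) (dlOf (nat_lit 1) (nat_lit 0x4002000200081b0002)))) 
(.lf (nat_lit 2753233468) (dlOf (nat_lit 2) (nat_lit 0x920fe800000080128008008400200d20008091003)))) 
(.nd (nat_lit 6) 
(.lf (nat_lit 3020101436) (dlOf (nat_lit 2) (nat_lit 0x401e8000e40800180080024002000c000812a103))) 
(.lf (nat_lit 4228055420) (dlOf (nat_lit 1) (nat_lit 0x80018015a81)))))) (.nd (nat_lit 6) 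
(.nd (nat_lit 28) (.nd (nat_lit 8) (.nd (nat_lit 29) 
(.lf (nat_lit 4362535100) (dlOf (nat_lit 2) (nat_lit 0x3005a000120200060018090381))) 
(.lf (nat_lit 1678180540) (dlOf (nat_lit 1) (nat_lit 0x80080004002000400081a0383)))) 
(.lf (nat_lit 2753233340) (dlOf (nat_lit 3) (nat_lit 0x183f0000360200681f700100ac00000010014800800d000200100008090883)))) 
(.nd (nat_lit 8) (.nd (nat_lit 9) 
(.lf (nat_lit 3556970684) (dlOf (nat_lit 1) (nat_lit 0x400400020008127e82))) 
(.lf (nat_lit 3556973244) (dlOf (nat_lit 1) (nat_lit 0x58002000a000812b902)))) 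
(.lf (nat_lit 6241323964) (dlOf (nat_lit 1) (nat_lit 0x100004002c00080d5d02))))) (.nd (nat_lit 8) 
(.nd (nat_lit 9) (.lf (nat_lit 4630708476) (dlOf (nat_lit 1) (nat_lit 0x400400020008090a82))) 
(.lf (nat_lit 2885879548) (dlOf (nat_lit 2) (nat_lit 0x70070000580400e4004003c0018143b82)))) 
(.nd (nat_lit 10) (.nd (nat_lit 27) 
(.lf (nat_lit 4362273276) (dlOf (nat_lit 33) (nat_lit 0x44056005e0158001a01004781580f9805600067040234056010b02a007d0124018c0820022031041d01580170068000cc1c000c056000650200440560003181002202b000184080128158001409a0004e04000604d0002681007802b0001300805b0158000940400100ac000460200540560033015800114100360158000840402280ac07b402b0002082008c02b0002815001e8092075a02b0001f84009e0158000f8080110158003c09a00f802b0001e83002002b0000e408011015800300a8009002b0001183001502a00008808003015800200a8000210400180540000901000c02a0000400800601500001c0400300a80000c02001c0540000581000902a00001c0800581500000c0400100a8000040200180540000101000402a00000408011015800380560000004024c0028017e01)))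 
(.lf (nat_lit 469959164) (dlOf (nat_lit 5) (nat_lit 0x2038a0005402000a1cf000260100290e78003872c0009008002439e0003d0200480028017e01)))) 
(.lf (nat_lit 3154320892) (dlOf (nat_lit 1) (nat_lit 0xa002815cd01)))))))) (.nd (nat_lit 18) 
(.nd (nat_lit 28) (.nd (nat_lit 7) (.nd (nat_lit 11) (.nd (nat_lit 6) (.nd (nat_lit 12) 
(.lf (nat_lit 24313916) (dlOf (nat_lit 1) (nat_lit 0x2a80080004002006c0008b90c83))) 
(.lf (nat_lit 8065084) (dlOf (nat_lit 1) (nat_lit 0x40028517d01)))) 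
(.lf (nat_lit 3342460) (dlOf (nat_lit 1) (nat_lit 0x40028200081)))) (.nd (nat_lit 8) 
(.lf (nat_lit 8067644) (dlOf (nat_lit 1) (nat_lit 0x400080010002000c000851b483))) 
(.lf (nat_lit 8068412) (dlOf (nat_lit 1) (nat_lit 0x2002851c881))))) (.nd (nat_lit 6) 
(.nd (nat_lit 8) (.lf (nat_lit 8066236) (dlOf (nat_lit 1) (nat_lit 0x20028519501))) 
(.lf (nat_lit 11731388) (dlOf (nat_lit 2) (nat_lit 0x27ec0001f8186c0880)))) (.nd (nat_lit 8) 
(.lf (nat_lit 20644604) (dlOf (nat_lit 1) (nat_lit 0x200289d2101))) 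
(.lf (nat_lit 37423612) (dlOf (nat_lit 1) (nat_lit 0x4002000200090d4f82)))))) (.nd (nat_lit 7) 
(.nd (nat_lit 26) (.nd (nat_lit 6) (.nd (nat_lit 29) 
(.lf (nat_lit 1344471100) (dlOf (nat_lit 1) (nat_lit 0x1e0018800001))) 
(.lf (nat_lit 1881342012) (dlOf (nat_lit 1) (nat_lit 0x120018ea0481)))) 
(.lf (nat_lit 3491954812) (dlOf (nat_lit 2) (nat_lit 0x4e1c2000f6818090080)))) (.nd (nat_lit 19) 
(.lf (nat_lit 1008926780) (dlOf (nat_lit 1) (nat_lit 0x20028fe0601))) 
(.lf (nat_lit 472580156) (dlOf (nat_lit 1) (nat_lit 0x11c002004600089c0602))))) (.nd (nat_lit 6) 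
(.nd (nat_lit 8) (.lf (nat_lit 4096458940) (dlOf (nat_lit 1) (nat_lit 0x140028111701))) 
(.lf (nat_lit 6378160572) (dlOf (nat_lit 1) (nat_lit 0x760028117001)))) (.nd (nat_lit 8) 
(.lf (nat_lit 473628924) (dlOf (nat_lit 2) (nat_lit 0xa152000607b800602480017a0c00e8004001e0008f62902))) 
(.lf (nat_lit 1346044924) (dlOf (nat_lit 1) (nat_lit 0x20018e22881))))))) (.nd (nat_lit 9) 
(.nd (nat_lit 19) (.nd (nat_lit 20) (.nd (nat_lit 26) 
(.lf (nat_lit 3492216892) (dlOf (nat_lit 1) (nat_lit 0x200180b1601))) 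
(.lf (nat_lit 2754019388) (dlOf (nat_lit 1) (nat_lit 0x200180b1601)))) (.nd (nat_lit 7) 
(.lf (nat_lit 37158972) (dlOf (nat_lit 1) (nat_lit 0x4002007400090b0602))) 
(.lf (nat_lit 11993276) (dlOf (nat_lit 2) (nat_lit 0x2a31b0000480801c8008000c002001400086c0383))))) 
(.nd (nat_lit 6) (.nd (nat_lit 7) (.nd (nat_lit 8) 
(.lf (nat_lit 473890876) (dlOf (nat_lit 3) (nat_lit 0x44298000c0d7000b08200160a50002f40800480080028002000c0008fc0603))) 
(.lf (nat_lit 50267452) (dlOf (nat_lit 2) (nat_lit 0x43a20000340800200080044002001200094c3283)))) 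
(.lf (nat_lit 19861948) (dlOf (nat_lit 1) (nat_lit 0xa00289d8581)))) (.nd (nat_lit 8) 
(.lf (nat_lit 3492743292) (dlOf (nat_lit 2) (nat_lit 0x401d000120180f4780))) 
(.lf (nat_lit 62851452) (dlOf (nat_lit 1) (nat_lit 0x2c00199a4e81)))))) (.nd (nat_lit 6) 
(.nd (nat_lit 10) (.nd (nat_lit 20) 
(.lf (nat_lit 44501564) (dlOf (nat_lit 2) (nat_lit 0xb08e0005f0200060009325201))) 
(.lf (nat_lit 62327356) (dlOf (nat_lit 1) (nat_lit 0x200299a5201)))) 
(.lf (nat_lit 8324668) (dlOf (nat_lit 1) (nat_lit 0x74004001e0008513782)))) (.nd (nat_lit 7) 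
(.nd (nat_lit 8) (.lf (nat_lit 52889212) (dlOf (nat_lit 1) (nat_lit 0x400200020009573982))) 
(.lf (nat_lit 19862396) (dlOf (nat_lit 1) (nat_lit 0x4004000200089d9002)))) (.nd (nat_lit 10) 
(.lf (nat_lit 19864316) (dlOf (nat_lit 1) (nat_lit 0x8002000200089db982))) 
(.lf (nat_lit 19861244) (dlOf (nat_lit 2) (nat_lit 0x26c20013180804a80080298002017600089d7483)))))))))) 
(.nd (nat_lit 5) (.nd (nat_lit 28) (.nd (nat_lit 18) (.nd (nat_lit 8) (.nd (nat_lit 19) 
(.nd (nat_lit 26) (.nd (nat_lit 20) (.nd (nat_lit 21) (.nd (nat_lit 22) 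
(.lf (nat_lit 25395228) (dlOf (nat_lit 2) (nat_lit 0x1af65f8006cc080078008003c002001a0008c00483))) 
(.lf (nat_lit 63143964) (dlOf (nat_lit 1) (nat_lit 0x500080008002000e00099e0103)))) 
(.lf (nat_lit 52658204) (dlOf (nat_lit 3) (nat_lit 0x871780057808002b3a40013404006c00400620009560602)))) 
(.nd (nat_lit 6) (.nd (nat_lit 9) 
(.lf (nat_lit 20155420) (dlOf (nat_lit 1) (nat_lit 0x200289d6001))) 
(.lf (nat_lit 1278492) (dlOf (nat_lit 1) (nat_lit 0x200280a7f01)))) 
(.lf (nat_lit 24346716) (dlOf (nat_lit 1) (nat_lit 0x20018b91201))))) (.nd (nat_lit 29) 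
(.nd (nat_lit 7) (.nd (nat_lit 9) 
(.lf (nat_lit 201555996) (dlOf (nat_lit 2) (nat_lit 0x2002f0007c018020480))) 
(.lf (nat_lit 3422787100) (dlOf (nat_lit 2) (nat_lit 0x21403b000000180a9c00)))) 
(.lf (nat_lit 2349039772) (dlOf (nat_lit 3) (nat_lit 0x2400780010008011803c0007e04001000400100018090182)))) 
(.nd (nat_lit 10) (.nd (nat_lit 20) 
(.lf (nat_lit 2755887132) (dlOf (nat_lit 6) (nat_lit 0x7300f201da60203a807900ed20101f203c80750c080ed81e403a7e0406dc0f2000000200e200181b0001))) 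
(.lf (nat_lit 2752741404) (dlOf (nat_lit 1) (nat_lit 0x58008004c002003a0008030903)))) 
(.lf (nat_lit 738429980) (dlOf (nat_lit 1) (nat_lit 0x160008096001)))))) (.nd (nat_lit 21) 
(.nd (nat_lit 22) (.nd (nat_lit 27) 
(.lf (nat_lit 537624604) (dlOf (nat_lit 11) (nat_lit 0x8016800880ae008a052000101980030088004781400140660023a02006a05700f1029007580cc004660c03700660023202002005a003402b807a8148035c0660008022001188500dd0198008c00800a0174004c0b40092057011b029008700cc0030056001e022000500f800580000045e24004c0660012000001168200d301980082c0802c00cc0000004008c004000800080e0482))) 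
(.lf (nat_lit 2819325980) (dlOf (nat_lit 1) (nat_lit 0x800400020008240682)))) (.nd (nat_lit 6) 
(.lf (nat_lit 4947996) (dlOf (nat_lit 1) (nat_lit 0x1e00282d0101))) 
(.lf (nat_lit 38503516) (dlOf (nat_lit 1) (nat_lit 0x60019132901))))) (.nd (nat_lit 9) 
(.nd (nat_lit 22) (.lf (nat_lit 19628060) (dlOf (nat_lit 1) (nat_lit 0x4002000200089c0482))) 
(.lf (nat_lit 23822364) (dlOf (nat_lit 1) (nat_lit 0x1000400040008b80002)))) 
(.lf (nat_lit 8100380) (dlOf (nat_lit 1) (nat_lit 0x40020002000851b282)))))) (.nd (nat_lit 29) 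
(.nd (nat_lit 6) (.nd (nat_lit 7) (.nd (nat_lit 20) 
(.lf (nat_lit 5436047644) (dlOf (nat_lit 15) (nat_lit 0x7c011000b48100590088005a0080278044002ce04002802200166020010013000ac010005009800558080468050023c0220014504000e014003300880050c10008005000c8022000d9040030014004700880033410008004c001640400040200008d020016010000428100050098000540800200080010002002e0008090a83))) 
(.lf (nat_lit 20152604) (dlOf (nat_lit 1) (nat_lit 0x1100080004002000200089d0a83)))) 
(.lf (nat_lit 48990620) (dlOf (nat_lit 1) (nat_lit 0x400200020009464e82)))) (.nd (nat_lit 7) 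
(.lf (nat_lit 3375452) (dlOf (nat_lit 1) (nat_lit 0x1400400020018200682))) (.nd (nat_lit 9) 
(.lf (nat_lit 69960156) (dlOf (nat_lit 1) (nat_lit 0xc0018e27c81))) 
(.lf (nat_lit 38503388) (dlOf (nat_lit 1) (nat_lit 0x4c00200360009132882)))))) (.nd (nat_lit 27) 
(.nd (nat_lit 6) 
(.lf (nat_lit 2684589340) (dlOf (nat_lit 2) (nat_lit 0x3701d001b80bc00000080004002000200080a9702))) 
(.lf (nat_lit 4832068572) (dlOf (nat_lit 1) (nat_lit 0x4004000200080d2882)))) (.nd (nat_lit 26) 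
(.nd (nat_lit 30) 
(.lf (nat_lit 4966285596) (dlOf (nat_lit 2) (nat_lit 0x802a0004006000ab028090a80))) 
(.lf (nat_lit 1745060124) (dlOf (nat_lit 2) (nat_lit 0x2e022000ab018090a80)))) 
(.lf (nat_lit 738427164) (dlOf (nat_lit 3) (nat_lit 0xd80d4007c0420015604007202100066818090a80))))))) 
(.nd (nat_lit 19) (.nd (nat_lit 29) (.nd (nat_lit 9) (.nd (nat_lit 20) (.nd (nat_lit 7) 
(.lf (nat_lit 6510051356) (dlOf (nat_lit 5) (nat_lit 0x36033001b011800d8088006c0380004a080016025000300c8001181000080640007a040014032000000200400028190b01))) 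
(.lf (nat_lit 3221717148) (dlOf (nat_lit 1) (nat_lit 0x60008170181)))) (.nd (nat_lit 22) 
(.lf (nat_lit 37191708) (dlOf (nat_lit 1) (nat_lit 0x900080010002000200090b0103))) 
(.lf (nat_lit 16220188) (dlOf (nat_lit 2) (nat_lit 0x124f00062c080020008001000200040008870483))))) 
(.nd (nat_lit 6) 
(.lf (nat_lit 3288826396) (dlOf (nat_lit 2) (nat_lit 0xa0050005140800780080030002000200081b0d83))) 
(.nd (nat_lit 8) (.lf (nat_lit 44534364) (dlOf (nat_lit 1) (nat_lit 0x20009325301))) 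
(.lf (nat_lit 493404) (dlOf (nat_lit 1) (nat_lit 0x10e0018003f81)))))) (.nd (nat_lit 26) 
(.nd (nat_lit 7) (.nd (nat_lit 9) 
(.lf (nat_lit 5906071580) (dlOf (nat_lit 5) (nat_lit 0x36033001b014000d8088006c0380004a080016024000300c8001181000080640007a040014032000000200400028190b01))) 
(.lf (nat_lit 537362972) (dlOf (nat_lit 1) (nat_lit 0x3c00200120008090d82)))) 
(.lf (nat_lit 537362588) (dlOf (nat_lit 2) (nat_lit 0x7405f00017818090180)))) (.nd (nat_lit 27) 
(.nd (nat_lit 21) 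
(.lf (nat_lit 2756149276) (dlOf (nat_lit 2) (nat_lit 0x1a80e40046604003800400480018200a82))) 
(.lf (nat_lit 2754052124) (dlOf (nat_lit 1) (nat_lit 0x200280b0981)))) (.nd (nat_lit 7) 
(.lf (nat_lit 738689052) (dlOf (nat_lit 2) (nat_lit 0x24027801b807c07f80000003206001000280e0501))) 
(.lf (nat_lit 3959914652) (dlOf (nat_lit 1) (nat_lit 0x60008170181))))))) (.nd (nat_lit 20) 
(.nd (nat_lit 6) (.nd (nat_lit 22) 
(.lf (nat_lit 68124700) (dlOf (nat_lit 1) (nat_lit 0x120008400101))) 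
(.lf (nat_lit 38764572) (dlOf (nat_lit 1) (nat_lit 0x8c00400020009150102)))) (.nd (nat_lit 7) 
(.lf (nat_lit 2752479580) (dlOf (nat_lit 7) (nat_lit 0x2fc1fa0003201018d0fd00018c0800a87e8000c00405d43f400021ae01100aa80718540011829e010013c015709c002184dc0008820040c3f40004302030a1fa013a0aa8021054001f427802ea138004009b8001083003e8008027c00200d20008014e03))) 
(.lf (nat_lit 7307484) (dlOf (nat_lit 1) (nat_lit 0x1200084b0581))))) (.nd (nat_lit 7) 
(.nd (nat_lit 6) (.lf (nat_lit 10453020) (dlOf (nat_lit 2) (nat_lit 0x845110001e8185e0b00))) 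
(.nd (nat_lit 8) (.lf (nat_lit 12550236) (dlOf (nat_lit 1) (nat_lit 0x400286d1201))) 
(.lf (nat_lit 8357724) (dlOf (nat_lit 1) (nat_lit 0x40008513f81))))) (.nd (nat_lit 9) 
(.lf (nat_lit 6258908) (dlOf (nat_lit 1) (nat_lit 0x120008420581))) 
(.lf (nat_lit 8360668) (dlOf (nat_lit 1) (nat_lit 0x1600080004002006a0008518c83)))))))) 
(.nd (nat_lit 27) (.nd (nat_lit 31) (.nd (nat_lit 7) (.nd (nat_lit 8) (.nd (nat_lit 19) 
(.nd (nat_lit 6) (.nd (nat_lit 29) 
(.lf (nat_lit 1342406684) (dlOf (nat_lit 4) (nat_lit 0x550734003560401ec39a0018b0201361cd000c4818020480))) 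
(.lf (nat_lit 1879277596) (dlOf (nat_lit 1) (nat_lit 0x200180c0001)))) 
(.lf (nat_lit 1346601052) (dlOf (nat_lit 1) (nat_lit 0x20028fe0081)))) (.nd (nat_lit 26) 
(.lf (nat_lit 1342930972) (dlOf (nat_lit 5) (nat_lit 0x6c0f9801205f4003f40800303f4001d2020084226000ad810001113000520080630008014c002004e0008110a83))) 
(.lf (nat_lit 1410039836) (dlOf (nat_lit 11) (nat_lit 0x8016800880ae008a052000101980030088004781400140660023a02006a05700f1029007580cc004660c03700660023202002005a003402b807a8148035c0660008022001188500dd0198008c00800a0174004c0b40092057011b029008700cc0030056001e022000500f800580000045e24004c0660012000001168200d301980083c0802c00cc0000004008c004000800080e0482))))) 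
(.nd (nat_lit 29) (.lf (nat_lit 268665116) (dlOf (nat_lit 2) (nat_lit 0x2a018000ab0180e0a80))) 
(.lf (nat_lit 5100503324) (dlOf (nat_lit 1) (nat_lit 0x4004000200080d0a82))))) (.nd (nat_lit 18) 
(.nd (nat_lit 10) 
(.lf (nat_lit 4563632284) (dlOf (nat_lit 2) (nat_lit 0x180cc0009e04000c004000400080a2b82))) 
(.lf (nat_lit 5637375132) (dlOf (nat_lit 1) (nat_lit 0x4004000200080d2b82)))) (.nd (nat_lit 21) 
(.nd (nat_lit 26) 
(.lf (nat_lit 1342668956) (dlOf (nat_lit 4) (nat_lit 0x3045e0020226000d1070008068c0008c10003c45e0026226000d1070003868c0008a10003c45e0026226000d1070008068c00070100080002000c00080c0182))) 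
(.lf (nat_lit 1409777820) (dlOf (nat_lit 2) (nat_lit 0x7405f00017818090180)))) (.nd (nat_lit 19) 
(.lf (nat_lit 1344766108) (dlOf (nat_lit 1) (nat_lit 0x180018980501))) 
(.lf (nat_lit 1345290396) (dlOf (nat_lit 1) (nat_lit 0x1a0018b50501))))))) (.nd (nat_lit 18) 
(.nd (nat_lit 7) (.nd (nat_lit 19) 
(.lf (nat_lit 3490938908) (dlOf (nat_lit 1) (nat_lit 0x58008004c002003a0008030903))) 
(.nd (nat_lit 21) (.lf (nat_lit 3557523484) (dlOf (nat_lit 1) (nat_lit 0x1c00400040008240682))) 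
(.lf (nat_lit 4096491548) (dlOf (nat_lit 1) (nat_lit 0x28008000400200020008120083))))) 
(.nd (nat_lit 6) (.nd (nat_lit 8) 
(.lf (nat_lit 2483257500) (dlOf (nat_lit 5) (nat_lit 0x50088000ac04000401e0004002000a0290002007800380340007e0c003c0440002f0200120008090181))) 
(.lf (nat_lit 2416148892) (dlOf (nat_lit 1) (nat_lit 0x60018090781)))) 
(.lf (nat_lit 3489892828) (dlOf (nat_lit 1) (nat_lit 0x20028004e81))))) (.nd (nat_lit 6) 
(.nd (nat_lit 20) (.nd (nat_lit 21) (.nd (nat_lit 22) 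
(.lf (nat_lit 2416410652) (dlOf (nat_lit 1) (nat_lit 0x14004000400081b0002))) 
(.lf (nat_lit 3494346780) (dlOf (nat_lit 2) (nat_lit 0x1a80e40049604003800400480018200a82)))) 
(.lf (nat_lit 3492249628) (dlOf (nat_lit 1) (nat_lit 0x200280b0981)))) (.nd (nat_lit 19) 
(.lf (nat_lit 4095180828) (dlOf (nat_lit 3) (nat_lit 0x3c0a70001781004a000000000080010008001000200060008070103))) 
(.lf (nat_lit 3491725340) (dlOf (nat_lit 1) (nat_lit 0x8008000400200020008090003))))) 
(.nd (nat_lit 8) 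
(.lf (nat_lit 2416410844) (dlOf (nat_lit 1) (nat_lit 0xa80080004002003200081b0483))) 
(.lf (nat_lit 3492774876) (dlOf (nat_lit 1) (nat_lit 0xc002000200080f2882))))))) (.nd (nat_lit 6) 
(.nd (nat_lit 19) (.nd (nat_lit 26) (.nd (nat_lit 29) 
(.lf (nat_lit 1476624412) (dlOf (nat_lit 16) (nat_lit 0xa40780005c02005203c0002901001a01e0001440801480f0000a004006c0780004f02004003c0002681003001e00011c0801480f00008c04009c0780004502005203c0002201003101e0001080801c00f0000820401240780000802005203c0000301002701e0000040801900080138002009000080a0503))) 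
(.lf (nat_lit 939753500) (dlOf (nat_lit 2) (nat_lit 0x1404c00a340200060028160481)))) 
(.nd (nat_lit 7) (.nd (nat_lit 30) 
(.lf (nat_lit 469991452) (dlOf (nat_lit 7) (nat_lit 0xd00e68004740806807340023604016439a001170200dc1cd0008b0101120e68003ec080678734001f0040014002001a0008020482))) 
(.lf (nat_lit 3691216924) (dlOf (nat_lit 5) (nat_lit 0x1c0150002b01000e00a800154080070054000a804049803a00100160001002000000189d28008088400201c000080a0503)))) 
(.lf (nat_lit 470253724) (dlOf (nat_lit 4) (nat_lit 0x3045e0020226000d106000806cc0008c10003c45e0026226000d106000386cc0008a10003c45e0026226000d106000806cc00070100080002000c00080c0182))))) 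
(.nd (nat_lit 20) (.nd (nat_lit 21) (.nd (nat_lit 29) 
(.lf (nat_lit 470515740) (dlOf (nat_lit 5) (nat_lit 0x6c0f9001206140041e0800303f8001e7020084226000a8810001113000520080630008014c002004e0008110a83))) 
(.lf (nat_lit 3154870300) (dlOf (nat_lit 1) (nat_lit 0x80018360481)))) 
(.lf (nat_lit 1009483804) (dlOf (nat_lit 3) (nat_lit 0x207580260384000820800581120003d02001800191a0101)))) 
(.nd (nat_lit 26) 
(.lf (nat_lit 5773164572) (dlOf (nat_lit 3) (nat_lit 0x502c0001013c000c082001603d000250400030ae8001816400086080008004000600180b0102))) 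
(.lf (nat_lit 6377144348) (dlOf (nat_lit 3) (nat_lit 0x502f80010158000c07c001603d000250400030a60001818000086080008004000600180b0102)))))) 
(.nd (nat_lit 8) (.nd (nat_lit 29) (.nd (nat_lit 10) 
(.lf (nat_lit 473923676) (dlOf (nat_lit 4) (nat_lit 0x9a857c01102bc003c155013906b801d035800e01360024095003604580002c400bb857c05ec1ae0000904030c15f019306b8000001004f0008004c002017a0008fc0883))) 
(.lf (nat_lit 5773952092) (dlOf (nat_lit 1) (nat_lit 0x400280e2901)))) (.nd (nat_lit 21) 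
(.lf (nat_lit 3154608220) (dlOf (nat_lit 1) (nat_lit 0x8008000800200020008280403))) 
(.lf (nat_lit 1009221724) (dlOf (nat_lit 1) (nat_lit 0x200290a0881))))) (.nd (nat_lit 9) 
(.nd (nat_lit 26) 
(.lf (nat_lit 3087237468) (dlOf (nat_lit 5) (nat_lit 0x9e02000016010074010003a0070000560801d4040009801d00014820057010002a807c0000008002000400220018154e02))) 
(.lf (nat_lit 1543733596) (dlOf (nat_lit 1) (nat_lit 0xf80080020002005e0008154e83)))) 
(.nd (nat_lit 7) (.lf (nat_lit 5771856732) (dlOf (nat_lit 1) (nat_lit 0x108004005c0008005c02))) 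
(.lf (nat_lit 5234721756) (dlOf (nat_lit 1) (nat_lit 0x4004000200080d2882))))))))) (.nd (nat_lit 6) 
(.nd (nat_lit 18) (.nd (nat_lit 27) (.nd (nat_lit 7) (.nd (nat_lit 20) (.nd (nat_lit 19) 
(.nd (nat_lit 8) (.nd (nat_lit 23) 
(.lf (nat_lit 1342406716) (dlOf (nat_lit 6) (nat_lit 0xb0790000360401d03c800121d200050be80178000000341002f83a4011c1c9000e0e4018a071c07c437a002017d003e0be004905e802042f2000141201961c7000098102730e38000000801d800802d0002078a0008020703))) 
(.lf (nat_lit 25395260) (dlOf (nat_lit 1) (nat_lit 0x20018c00d81)))) 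
(.lf (nat_lit 4899179324) (dlOf (nat_lit 2) (nat_lit 0x40640008e02000200180d5c01)))) 
(.nd (nat_lit 23) (.lf (nat_lit 38502460) (dlOf (nat_lit 1) (nat_lit 0x320019130001))) 
(.lf (nat_lit 46891068) (dlOf (nat_lit 1) (nat_lit 0x8008000400200060009380003))))) 
(.nd (nat_lit 8) (.nd (nat_lit 10) 
(.lf (nat_lit 68386876) (dlOf (nat_lit 1) (nat_lit 0x2a0018570001))) 
(.lf (nat_lit 39027772) (dlOf (nat_lit 1) (nat_lit 0xd0008002000200080009192883)))) 
(.lf (nat_lit 20155708) (dlOf (nat_lit 1) (nat_lit 0x4a00289d6901))))) (.nd (nat_lit 8) 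
(.nd (nat_lit 9) (.nd (nat_lit 20) 
(.lf (nat_lit 2755887292) (dlOf (nat_lit 1) (nat_lit 0x280080064002000e00081b0383))) 
(.lf (nat_lit 9666748) (dlOf (nat_lit 1) (nat_lit 0xa0018571701)))) 
(.lf (nat_lit 2754842300) (dlOf (nat_lit 1) (nat_lit 0x80080004002000200080f7283)))) 
(.nd (nat_lit 19) (.nd (nat_lit 21) 
(.lf (nat_lit 2416148924) (dlOf (nat_lit 2) (nat_lit 0x201a00000018090880))) 
(.lf (nat_lit 23298492) (dlOf (nat_lit 1) (nat_lit 0x20028b80881)))) 
(.lf (nat_lit 53182908) (dlOf (nat_lit 1) (nat_lit 0x8008000400200020009571083)))))) 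
(.nd (nat_lit 28) (.nd (nat_lit 26) (.nd (nat_lit 8) (.nd (nat_lit 11) 
(.lf (nat_lit 134447164) (dlOf (nat_lit 3) (nat_lit 0x3c0310001f01003201f8000dc08019000800a4002000c0008020703))) 
(.lf (nat_lit 134973500) (dlOf (nat_lit 1) (nat_lit 0x200180f4701)))) 
(.lf (nat_lit 671318332) (dlOf (nat_lit 2) (nat_lit 0x600300260018154c00)))) (.nd (nat_lit 29) 
(.lf (nat_lit 201556028) (dlOf (nat_lit 3) (nat_lit 0x3c0310001f01003201f8000dc08019000800a4002000c0008020703))) 
(.nd (nat_lit 30) (.lf (nat_lit 5033394236) (dlOf (nat_lit 1) (nat_lit 0x20028090001))) 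
(.lf (nat_lit 1812168764) (dlOf (nat_lit 7) (nat_lit 0x404a0002b02002202600030118010808800fc0420001708014a026005c011806100880298042007e01e003e00e80018070006802200420070000a09001201100004c0800200980002204002004600360220001010800000180850008001000200aa0008160703)))))) 
(.nd (nat_lit 8) (.nd (nat_lit 29) (.nd (nat_lit 19) 
(.lf (nat_lit 469991484) (dlOf (nat_lit 6) (nat_lit 0xb0790000380401d03c800121d200050c280178000000361002f83a4011c1c9000e0e4018a071c07c437a007c18600100c28049060c0204304000151201961c70000a0102730e38000000801d800802d0002078a0008020703))) 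
(.lf (nat_lit 472612924) (dlOf (nat_lit 1) (nat_lit 0x800089c0601)))) (.nd (nat_lit 26) 
(.lf (nat_lit 939753532) (dlOf (nat_lit 7) (nat_lit 0x404a0002602014a026005c011806100880298042007e01e003e00e80018070006802200420070000a890012011000050080088098000c0460042022003f0108000482000200980002204002004600360220001010800000180850008001000200aa0008160703))) 
(.lf (nat_lit 4228087868) (dlOf (nat_lit 1) (nat_lit 0x40028020881))))) (.nd (nat_lit 7) 
(.lf (nat_lit 1543733564) (dlOf (nat_lit 2) (nat_lit 0x60030052a818154c00))) 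
(.lf (nat_lit 2550366652) (dlOf (nat_lit 2) (nat_lit 0x201a00000018090880))))))) (.nd (nat_lit 21) 
(.nd (nat_lit 20) (.nd (nat_lit 26) (.nd (nat_lit 19) 
(.lf (nat_lit 1611104316) (dlOf (nat_lit 1) (nat_lit 0x580080018002006e00080e1683))) 
(.lf (nat_lit 13598780) (dlOf (nat_lit 2) (nat_lit 0x45c6300015018730b80)))) (.nd (nat_lit 7) 
(.nd (nat_lit 8) 
(.lf (nat_lit 738689084) (dlOf (nat_lit 1) (nat_lit 0x580080018002006e00080e1683))) 
(.lf (nat_lit 2886172988) (dlOf (nat_lit 1) (nat_lit 0x8008002400200600008188503)))) 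
(.lf (nat_lit 470253756) (dlOf (nat_lit 3) (nat_lit 0x1512380088734005438a0002f06001624700060e6800587140005c0c000c004003400180c0382))))) 
(.nd (nat_lit 19) (.nd (nat_lit 24) (.nd (nat_lit 23) 
(.lf (nat_lit 4095180860) (dlOf (nat_lit 1) (nat_lit 0xe4002001e0008070482))) 
(.lf (nat_lit 9928764) (dlOf (nat_lit 1) (nat_lit 0x260008591681)))) (.nd (nat_lit 8) 
(.lf (nat_lit 60260412) (dlOf (nat_lit 1) (nat_lit 0x400200020009840002))) 
(.lf (nat_lit 60260668) (dlOf (nat_lit 1) (nat_lit 0x600080028002000c0009840b83))))) 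
(.nd (nat_lit 7) (.lf (nat_lit 31424572) (dlOf (nat_lit 1) (nat_lit 0x8008004000200020008e90003))) 
(.nd (nat_lit 24) 
(.lf (nat_lit 471826620) (dlOf (nat_lit 7) (nat_lit 0x1448c0008242000311d800288d8004c398001a1c40002a86001d123000e89080068476003423600200e6000e8710000a618001448c0008242000311d800188d80024398000a1c400020e10001403800689180008484000823b000711b000887300034388000370c00062460003121000108ec000c46c000e1cc00030e20000d43000187300006404000800400140018520382))) 
(.lf (nat_lit 18841788) (dlOf (nat_lit 1) (nat_lit 0x1a0028970481))))))) (.nd (nat_lit 19) 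
(.nd (nat_lit 20) (.nd (nat_lit 26) 
(.lf (nat_lit 2588732) (dlOf (nat_lit 1) (nat_lit 0x2800200100008170c02))) 
(.lf (nat_lit 1009221692) (dlOf (nat_lit 1) (nat_lit 0x4004001c00090a0602)))) (.nd (nat_lit 25) 
(.nd (nat_lit 26) 
(.lf (nat_lit 3493298236) (dlOf (nat_lit 1) (nat_lit 0x90008000400200060008110703))) 
(.lf (nat_lit 2755100732) (dlOf (nat_lit 1) (nat_lit 0x90008000400200060008110703)))) 
(.lf (nat_lit 37191740) (dlOf (nat_lit 1) (nat_lit 0x8002014a00090b0602))))) (.nd (nat_lit 26) 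
(.nd (nat_lit 10) (.lf (nat_lit 16744508) (dlOf (nat_lit 1) (nat_lit 0x48002000200088e0002))) 
(.lf (nat_lit 19893308) (dlOf (nat_lit 1) (nat_lit 0x26200189d6081)))) (.nd (nat_lit 7) 
(.lf (nat_lit 473923644) (dlOf (nat_lit 4) (nat_lit 0xa0b0000703640050138001c08d001238400360af8013035c002c208004c2c00008e02009c0028fc0601))) 
(.lf (nat_lit 2755625148) (dlOf (nat_lit 1) (nat_lit 0x4004000200181b0382)))))))) (.nd (nat_lit 7) 
(.nd (nat_lit 9) (.nd (nat_lit 11) (.nd (nat_lit 8) (.nd (nat_lit 18) 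
(.lf (nat_lit 2753790076) (dlOf (nat_lit 2) (nat_lit 0x4e1d4000ff818090080))) 
(.lf (nat_lit 16744572) (dlOf (nat_lit 1) (nat_lit 0x80080004002000200088e0483)))) 
(.nd (nat_lit 18) (.lf (nat_lit 1278332) (dlOf (nat_lit 1) (nat_lit 0x2200280a5a81))) 
(.lf (nat_lit 1342669180) (dlOf (nat_lit 1) (nat_lit 0x1800180c0781))))) (.nd (nat_lit 20) 
(.nd (nat_lit 8) (.lf (nat_lit 5905811580) (dlOf (nat_lit 1) (nat_lit 0x400200020008144782))) 
(.lf (nat_lit 4966287740) (dlOf (nat_lit 1) (nat_lit 0xe0018094e81)))) (.nd (nat_lit 19) 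
(.lf (nat_lit 36931964) (dlOf (nat_lit 1) (nat_lit 0x40019074e81))) 
(.lf (nat_lit 33261948) (dlOf (nat_lit 1) (nat_lit 0x40018f54e81)))))) (.nd (nat_lit 30) 
(.nd (nat_lit 11) (.nd (nat_lit 12) (.nd (nat_lit 21) 
(.lf (nat_lit 8881788) (dlOf (nat_lit 1) (nat_lit 0x80008513981))) 
(.lf (nat_lit 52921980) (dlOf (nat_lit 1) (nat_lit 0x360019573981)))) 
(.lf (nat_lit 20158076) (dlOf (nat_lit 1) (nat_lit 0x200289d9d81)))) (.nd (nat_lit 8) 
(.lf (nat_lit 5100505724) (dlOf (nat_lit 2) (nat_lit 0x140640004502001200180d5401))) 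
(.lf (nat_lit 8621948) (dlOf (nat_lit 1) (nat_lit 0x400200020008517782))))) (.nd (nat_lit 10) 
(.nd (nat_lit 8) (.lf (nat_lit 5436050044) (dlOf (nat_lit 1) (nat_lit 0x18002002c0008095402))) 
(.lf (nat_lit 4160979836) (dlOf (nat_lit 1) (nat_lit 0x1600180a2581)))) (.nd (nat_lit 12) 
(.lf (nat_lit 6375573116) (dlOf (nat_lit 1) (nat_lit 0x8008000400200020008003983))) 
(.lf (nat_lit 3422787196) (dlOf (nat_lit 2) (nat_lit 0xa80c8000f6040058004000400080a9d82))))))) 
(.nd (nat_lit 8) (.nd (nat_lit 9) (.nd (nat_lit 18) (.nd (nat_lit 19) (.nd (nat_lit 26) 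
(.lf (nat_lit 5100503292) (dlOf (nat_lit 1) (nat_lit 0x4004000600180d0a82))) 
(.lf (nat_lit 2617475324) (dlOf (nat_lit 1) (nat_lit 0x80080004002000200080b4603)))) 
(.lf (nat_lit 51085564) (dlOf (nat_lit 1) (nat_lit 0x1a00094f2901)))) 
(.lf (nat_lit 1345814780) (dlOf (nat_lit 2) (nat_lit 0x214f000a7818e02900)))) (.nd (nat_lit 10) 
(.lf (nat_lit 57117436) (dlOf (nat_lit 2) (nat_lit 0xe1240013084000000400140029795a01))) 
(.nd (nat_lit 20) (.lf (nat_lit 3492775676) (dlOf (nat_lit 1) (nat_lit 0x20004001200080f3b82))) 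
(.lf (nat_lit 8357628) (dlOf (nat_lit 2) (nat_lit 0x809ac0007004001c00400040008513b82)))))) 
(.nd (nat_lit 27) (.nd (nat_lit 11) (.nd (nat_lit 18) 
(.lf (nat_lit 1677951484) (dlOf (nat_lit 1) (nat_lit 0x20018127e01))) 
(.lf (nat_lit 2752479740) (dlOf (nat_lit 14) (nat_lit 0x181240000b80800c09200005a04005449000029020030248000138100181240000980800c09200004a0409543f000d815900450ab80008c1823787e003503c401e615f01df0ac8086856007542ae021613a00d709a80008840026055c0004204097c3f000d21590000f0202e40fc002a056400038080bec3f0009a1590000d82001812400000008052800802f40020bc60008017e03)))) 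
(.nd (nat_lit 9) 
(.lf (nat_lit 39029244) (dlOf (nat_lit 2) (nat_lit 0x519f0000b404002800200500009194f82))) 
(.lf (nat_lit 6241356796) (dlOf (nat_lit 1) (nat_lit 0x1c004000200080d5f02))))) (.nd (nat_lit 9) 
(.nd (nat_lit 26) 
(.lf (nat_lit 3087237628) (dlOf (nat_lit 15) (nat_lit 0x3e801600cc009006c0000000b818080802c0230012011a000000168300630000000b008075002c000520402640160002702021c00b000130100700058000940802a802c000240400e0016000100200d000b0000701008e00580001c08048802c000080401340160000202010e00b00060000000001001e800801c800200560008157e03))) 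
(.lf (nat_lit 1543733756) (dlOf (nat_lit 9) (nat_lit 0x5004c002201d002300c00210040007000000a5b0a00a001d0052d01002b01300048074008403000b0010002c0028015800800e000000a590e001001d003b00c000300140148c0c000403a0056018002a00280291418036007400b800a00a3c0400020050051d0100010130000000800500080198002003c0008157803)))) 
(.lf (nat_lit 474186748) (dlOf (nat_lit 2) (nat_lit 0x985c800dfa040004004000600090e2882)))))))))))

end

end Pool.Agent.Lib.MP_5854e1_co.Cz

namespace Pool.Agent.Lib.MP_5854e1_co.Cz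

noncomputable section

noncomputable def tz30 : DT := (.nd (nat_lit 17) (.nd (nat_lit 5) (.nd (nat_lit 16) 
(.nd (nat_lit 26) (.nd (nat_lit 19) (.nd (nat_lit 28) (.nd (nat_lit 20) (.nd (nat_lit 9) 
(.nd (nat_lit 18) (.nd (nat_lit 8) (.nd (nat_lit 21) 
(.lf (nat_lit 20979740) (dlOf (nat_lit 1) (nat_lit 0x1200189f0101))) (.nd (nat_lit 22) 
(.lf (nat_lit 10493980) (dlOf (nat_lit 3) (nat_lit 0x444aa0018a3480110fa600887c400443c980221e14012cefc008876a00451ec800200000007e2802892a801c28da001b469006c1f4c0398f8801567b500e63cf00299e4c0398f0a015477e00823b500730f6403f00000003d1a004400185e0b01))) 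
(.lf (nat_lit 23076892) (dlOf (nat_lit 2) (nat_lit 0x7000000346040098002000e0008b50482))))) 
(.nd (nat_lit 7) (.lf (nat_lit 4294978844) (dlOf (nat_lit 1) (nat_lit 0x20008006781))) 
(.lf (nat_lit 1207969180) (dlOf (nat_lit 1) (nat_lit 0x400400020018003602))))) (.nd (nat_lit 27) 
(.nd (nat_lit 22) (.nd (nat_lit 29) 
(.lf (nat_lit 4295237660) (dlOf (nat_lit 4) (nat_lit 0x640140002402013c01b009400500008c10001002c00180000002004000a00180c0501))) 
(.lf (nat_lit 2684624924) (dlOf (nat_lit 1) (nat_lit 0x50002003400080e0502)))) 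
(.lf (nat_lit 38019100) (dlOf (nat_lit 1) (nat_lit 0x8c00400020009110102)))) (.nd (nat_lit 6) 
(.lf (nat_lit 671359004) (dlOf (nat_lit 2) (nat_lit 0x74022005ff818160480))) 
(.lf (nat_lit 2818848220) (dlOf (nat_lit 1) (nat_lit 0x6400400220008129b02)))))) (.nd (nat_lit 27) 
(.nd (nat_lit 6) (.nd (nat_lit 21) 
(.lf (nat_lit 2684363292) (dlOf (nat_lit 1) (nat_lit 0x180028001481))) 
(.lf (nat_lit 2105884) (dlOf (nat_lit 1) (nat_lit 0x200018150d81)))) 
(.lf (nat_lit 8401628) (dlOf (nat_lit 1) (nat_lit 0x400200020008518c82)))) (.nd (nat_lit 10) 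
(.lf (nat_lit 2281710108) (dlOf (nat_lit 1) (nat_lit 0x20028001481))) 
(.lf (nat_lit 4966065692) (dlOf (nat_lit 1) (nat_lit 0x400400020008003702)))))) (.nd (nat_lit 8) 
(.nd (nat_lit 24) (.nd (nat_lit 7) 
(.lf (nat_lit 11542556) (dlOf (nat_lit 2) (nat_lit 0x1079300a898186b0500))) 
(.lf (nat_lit 47194268) (dlOf (nat_lit 1) (nat_lit 0x4002000200093b1282)))) (.nd (nat_lit 18) 
(.lf (nat_lit 26222620) (dlOf (nat_lit 1) (nat_lit 0x1c00400080018c20502))) 
(.lf (nat_lit 26484764) (dlOf (nat_lit 1) (nat_lit 0x24002000a0008c50102))))) (.nd (nat_lit 7) 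
(.nd (nat_lit 12) (.lf (nat_lit 1057116) (dlOf (nat_lit 1) (nat_lit 0x400400020008068d02))) 
(.lf (nat_lit 19935580) (dlOf (nat_lit 1) (nat_lit 0x600289d8381)))) (.nd (nat_lit 6) 
(.lf (nat_lit 19934108) (dlOf (nat_lit 1) (nat_lit 0x4004000200189d5c82))) 
(.lf (nat_lit 40903132) (dlOf (nat_lit 1) (nat_lit 0x400400060019207c82))))))) (.nd (nat_lit 7) 
(.nd (nat_lit 6) (.nd (nat_lit 8) (.nd (nat_lit 9) (.nd (nat_lit 29) 
(.lf (nat_lit 2550407196) (dlOf (nat_lit 1) (nat_lit 0x8008000400200060008090003))) 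
(.lf (nat_lit 3087278108) (dlOf (nat_lit 1) (nat_lit 0x20018160481)))) 
(.lf (nat_lit 2952805916) (dlOf (nat_lit 1) (nat_lit 0x24800801b80020004000800cf03)))) 
(.nd (nat_lit 9) (.lf (nat_lit 1879059740) (dlOf (nat_lit 1) (nat_lit 0x20008006781))) 
(.lf (nat_lit 1476409116) (dlOf (nat_lit 1) (nat_lit 0x40040012001800a002))))) (.nd (nat_lit 11) 
(.nd (nat_lit 8) (.lf (nat_lit 3490717788) (dlOf (nat_lit 1) (nat_lit 0x12a0008020b01))) 
(.lf (nat_lit 3490980188) (dlOf (nat_lit 1) (nat_lit 0x8004002a0008048b02)))) (.nd (nat_lit 9) 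
(.lf (nat_lit 3623893084) (dlOf (nat_lit 2) (nat_lit 0x1c060000e02f0007017000300b40020050000401b000200c800380500024024000e0050006001000300000042c30000c0040004001800a782))) 
(.lf (nat_lit 1881418332) (dlOf (nat_lit 1) (nat_lit 0x23000800cc002005e0008f05303)))))) 
(.nd (nat_lit 6) (.nd (nat_lit 8) (.nd (nat_lit 10) (.nd (nat_lit 27) 
(.lf (nat_lit 4563673244) (dlOf (nat_lit 3) (nat_lit 0xe0330001201000401980008c0800a80080068002003600080c1283))) 
(.lf (nat_lit 4697890972) (dlOf (nat_lit 3) (nat_lit 0xe033000088100040198000400800a80080068002003600080c1283)))) 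
(.lf (nat_lit 1342192796) (dlOf (nat_lit 1) (nat_lit 0xc002000c000800c202)))) (.nd (nat_lit 11) 
(.lf (nat_lit 5772419484) (dlOf (nat_lit 1) (nat_lit 0xf0008000c00200220008091003))) 
(.lf (nat_lit 3489933724) (dlOf (nat_lit 1) (nat_lit 0x20008004e81))))) (.nd (nat_lit 11) 
(.nd (nat_lit 18) (.lf (nat_lit 1880105180) (dlOf (nat_lit 1) (nat_lit 0xe0018740581))) 
(.lf (nat_lit 4563673308) (dlOf (nat_lit 2) (nat_lit 0x2b80000001404001c002000200080c1c82)))) 
(.nd (nat_lit 8) 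
(.lf (nat_lit 1342192860) (dlOf (nat_lit 1) (nat_lit 0x1000800a00020022000800c483))) 
(.lf (nat_lit 2952805340) (dlOf (nat_lit 1) (nat_lit 0x80020010000800bf02)))))))) (.nd (nat_lit 18) 
(.nd (nat_lit 24) (.nd (nat_lit 30) (.nd (nat_lit 6) (.nd (nat_lit 7) (.nd (nat_lit 20) 
(.lf (nat_lit 2819104796) (dlOf (nat_lit 6) (nat_lit 0x10501c8002f20408280e400178020414072000560101360390002ac080ae01c800fc07e000000401ee00081a0501))) 
(.lf (nat_lit 9969692) (dlOf (nat_lit 1) (nat_lit 0x800080084002003200085a0a83)))) 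
(.lf (nat_lit 537403548) (dlOf (nat_lit 2) (nat_lit 0x940be0002f0200040018090181)))) 
(.nd (nat_lit 7) (.lf (nat_lit 48767068) (dlOf (nat_lit 1) (nat_lit 0x8c00400220009420882))) 
(.lf (nat_lit 8926684) (dlOf (nat_lit 1) (nat_lit 0x20018519b01))))) (.nd (nat_lit 20) 
(.nd (nat_lit 27) (.nd (nat_lit 28) 
(.lf (nat_lit 3221757980) (dlOf (nat_lit 1) (nat_lit 0x8008000400200020008170003))) 
(.lf (nat_lit 4027064348) (dlOf (nat_lit 2) (nat_lit 0x300300008000019a6080008004000200181d0a02)))) 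
(.lf (nat_lit 3624411164) (dlOf (nat_lit 2) (nat_lit 0x1401b00000018190580)))) 
(.lf (nat_lit 3491242012) (dlOf (nat_lit 1) (nat_lit 0x400400040018080502))))) (.nd (nat_lit 20) 
(.nd (nat_lit 6) (.nd (nat_lit 9) 
(.lf (nat_lit 55058460) (dlOf (nat_lit 4) (nat_lit 0xe03c0001001001701e00003008000840400180780000b04000600096a0501))) 
(.lf (nat_lit 50864668) (dlOf (nat_lit 1) (nat_lit 0x400094d8701)))) 
(.lf (nat_lit 21504092) (dlOf (nat_lit 2) (nat_lit 0x3b1e0001a018a40700)))) (.nd (nat_lit 6) 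
(.nd (nat_lit 8) 
(.lf (nat_lit 24649756) (dlOf (nat_lit 2) (nat_lit 0x19cd97e008ac82001161400008c180008008003c002000c0008bb0503))) 
(.lf (nat_lit 20458780) (dlOf (nat_lit 1) (nat_lit 0x400289d6781)))) 
(.lf (nat_lit 20461276) (dlOf (nat_lit 1) (nat_lit 0x200289da001)))))) (.nd (nat_lit 20) 
(.nd (nat_lit 9) (.nd (nat_lit 25) (.nd (nat_lit 23) 
(.lf (nat_lit 2819366940) (dlOf (nat_lit 1) (nat_lit 0x38008002800200080008250483))) 
(.lf (nat_lit 9183260) (dlOf (nat_lit 1) (nat_lit 0x2400200020008530102)))) (.nd (nat_lit 6) 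
(.lf (nat_lit 42737692) (dlOf (nat_lit 1) (nat_lit 0x2800400040009280102))) 
(.lf (nat_lit 59514972) (dlOf (nat_lit 14) (nat_lit 0x2267e000a2ca8000741002c19f800038040228cfc0001b0200ae67e0000d01002c33f0000640804019f8000ccf8001c4d40000c03001533f0000440801d99f80002004009ccfc0000e02013667d009033e007a16500038b2600f04e6008326a00002c3000999f401e4b280000904000667c0000381006233e803f9650000000801c400400040019800882))))) 
(.nd (nat_lit 6) (.nd (nat_lit 10) 
(.lf (nat_lit 795164) (dlOf (nat_lit 1) (nat_lit 0x8008000400200020008018703))) 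
(.lf (nat_lit 19676700) (dlOf (nat_lit 1) (nat_lit 0xac002009000089dcf02)))) 
(.lf (nat_lit 34350044) (dlOf (nat_lit 1) (nat_lit 0x20018fb2881))))) (.nd (nat_lit 28) 
(.nd (nat_lit 7) (.nd (nat_lit 9) 
(.lf (nat_lit 27009052) (dlOf (nat_lit 1) (nat_lit 0x4004001e0008ca0502))) 
(.lf (nat_lit 8141340) (dlOf (nat_lit 1) (nat_lit 0x2001851b281)))) 
(.lf (nat_lit 1843356) (dlOf (nat_lit 1) (nat_lit 0x30002000a0008150182)))) (.nd (nat_lit 7) 
(.nd (nat_lit 21) 
(.lf (nat_lit 5773205532) (dlOf (nat_lit 4) (nat_lit 0x13857802cc278000e0fa00090520001282005d04f0046425e0004304007213c00720978000ec10003000800dc002001400080b0103))) 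
(.lf (nat_lit 1346117660) (dlOf (nat_lit 1) (nat_lit 0x400400020008e50602)))) 
(.lf (nat_lit 3491504284) (dlOf (nat_lit 2) (nat_lit 0x24023000081160002f0400040028090181)))))))) 
(.nd (nat_lit 29) (.nd (nat_lit 8) (.nd (nat_lit 18) (.nd (nat_lit 9) (.nd (nat_lit 7) 
(.nd (nat_lit 6) (.nd (nat_lit 19) 
(.lf (nat_lit 473964572) (dlOf (nat_lit 2) (nat_lit 0xc2cc0000002000a0008fe0101))) 
(.lf (nat_lit 474488860) (dlOf (nat_lit 1) (nat_lit 0x20019180101)))) 
(.lf (nat_lit 473964636) (dlOf (nat_lit 1) (nat_lit 0xcc004000c0008fe0882)))) (.nd (nat_lit 10) 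
(.lf (nat_lit 1409818780) (dlOf (nat_lit 21) (nat_lit 0x2540b8000604b0002b02009702e000154080280170022004801200210002a03007a02e000b809000b00420005306012e05c0097012004b0084000a20c02080b8014602400a301080014018029017001c804800f00210002003008302e0051009002a40420003f0600ae05c000e01200040084000780c00280b8000602400010108000ec18019817000a804800540210001d03001102e0007809000200420003906002a05c002d012001b0084000700c013c0b8004a02400270108000dc1802e81700040048001c0210001a83003402e0029009001700420003306017a05f03a102e0000bc1000c817c0004054001202400210108000b820039817002a009600ac0300089012004b00840002c1402340b8002a04c006a012004380840000010000800400040018090182))) 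
(.lf (nat_lit 1409297564) (dlOf (nat_lit 1) (nat_lit 0x38008000400200040008006283))))) 
(.nd (nat_lit 6) (.nd (nat_lit 11) 
(.lf (nat_lit 6643786268) (dlOf (nat_lit 1) (nat_lit 0x28008000400200060008001483))) 
(.lf (nat_lit 201341468) (dlOf (nat_lit 2) (nat_lit 0x40360053481800b280)))) 
(.lf (nat_lit 6643786332) (dlOf (nat_lit 1) (nat_lit 0x100008003c00200dc0008001683))))) 
(.nd (nat_lit 27) (.nd (nat_lit 6) (.nd (nat_lit 7) 
(.lf (nat_lit 4362346524) (dlOf (nat_lit 2) (nat_lit 0x60320001e818030b00))) 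
(.lf (nat_lit 5436088476) (dlOf (nat_lit 1) (nat_lit 0x4002000800080c1282)))) (.nd (nat_lit 10) 
(.lf (nat_lit 2483298396) (dlOf (nat_lit 3) (nat_lit 0x1480280008012000c0078003c0380008015000168500730140000780800980080008002001000080a1203))) 
(.lf (nat_lit 3557045340) (dlOf (nat_lit 2) (nat_lit 0x70390000a00800580080050002009e0008129383))))) 
(.nd (nat_lit 20) (.nd (nat_lit 28) 
(.lf (nat_lit 2349080668) (dlOf (nat_lit 3) (nat_lit 0x1480280008012000c0074003c03800080150000b8500730140000200800980080008002001000080a1203))) 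
(.lf (nat_lit 1543774300) (dlOf (nat_lit 1) (nat_lit 0xc0018160b01)))) (.nd (nat_lit 6) 
(.lf (nat_lit 471080988) (dlOf (nat_lit 1) (nat_lit 0x400200020008270482))) 
(.lf (nat_lit 473702492) (dlOf (nat_lit 2) (nat_lit 0x100580020004000400200020008fa0082))))))) 
(.nd (nat_lit 10) (.nd (nat_lit 7) (.nd (nat_lit 9) 
(.lf (nat_lit 3557046556) (dlOf (nat_lit 9) (nat_lit 0x700e400c8045008201f801f006c000501000580e40098045007901f8030806c0004c1000c80de00fe038005501b003d00d00104044000a01b00012860030037803900e0000406c00fa034000101680238088000461800e4070000e0220000f82001901c000380880003c0800d407e0001b02007a038003f0110000601007700080350002018a000812ab03))) 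
(.lf (nat_lit 469777180) (dlOf (nat_lit 3) (nat_lit 0x104e8001b0080020274000d60400480040014000800bb82)))) 
(.nd (nat_lit 9) (.nd (nat_lit 12) 
(.lf (nat_lit 470294940) (dlOf (nat_lit 2) (nat_lit 0x2182a800cb202000800280c0781))) 
(.lf (nat_lit 67907996) (dlOf (nat_lit 1) (nat_lit 0x400400040018338382)))) 
(.lf (nat_lit 4764740508) (dlOf (nat_lit 1) (nat_lit 0x8008000400200020008005c83))))) 
(.nd (nat_lit 7) (.nd (nat_lit 6) 
(.lf (nat_lit 3690999580) (dlOf (nat_lit 2) (nat_lit 0x4401d001fa018007480))) 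
(.lf (nat_lit 469776220) (dlOf (nat_lit 1) (nat_lit 0x1b800800040020006000800a303)))) 
(.nd (nat_lit 9) 
(.lf (nat_lit 3556779420) (dlOf (nat_lit 1) (nat_lit 0x80008005800200180008003603))) 
(.nd (nat_lit 27) 
(.lf (nat_lit 4362086300) (dlOf (nat_lit 2) (nat_lit 0x100000002604002c00200100008004282))) 
(.lf (nat_lit 469772188) (dlOf (nat_lit 1) (nat_lit 0x240028004281)))))))) (.nd (nat_lit 18) 
(.nd (nat_lit 6) (.nd (nat_lit 11) (.nd (nat_lit 19) 
(.lf (nat_lit 2755665948) (dlOf (nat_lit 1) (nat_lit 0x200181b0001))) (.nd (nat_lit 20) 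
(.lf (nat_lit 2886213660) (dlOf (nat_lit 2) (nat_lit 0x1401a00000018190580))) 
(.lf (nat_lit 2753044508) (dlOf (nat_lit 1) (nat_lit 0x400400040018080502))))) (.nd (nat_lit 7) 
(.nd (nat_lit 8) 
(.lf (nat_lit 603995676) (dlOf (nat_lit 2) (nat_lit 0x58000000bc0400200020018000800cf02))) 
(.lf (nat_lit 603994908) (dlOf (nat_lit 1) (nat_lit 0x4001800bb81)))) (.nd (nat_lit 8) 
(.lf (nat_lit 4227873948) (dlOf (nat_lit 1) (nat_lit 0x2c002003a000800c202))) 
(.lf (nat_lit 2754619804) (dlOf (nat_lit 1) (nat_lit 0x4002000200080f4e82)))))) (.nd (nat_lit 10) 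
(.nd (nat_lit 7) (.lf (nat_lit 2754093148) (dlOf (nat_lit 1) (nat_lit 0x200180c1b01))) 
(.nd (nat_lit 9) (.lf (nat_lit 2751478236) (dlOf (nat_lit 1) (nat_lit 0x4002800b281))) 
(.lf (nat_lit 603995100) (dlOf (nat_lit 1) (nat_lit 0x6000800780020088000800bf03))))) 
(.nd (nat_lit 7) (.lf (nat_lit 4227870044) (dlOf (nat_lit 1) (nat_lit 0x3c002001a0008006a82))) 
(.nd (nat_lit 8) (.lf (nat_lit 4227874012) (dlOf (nat_lit 1) (nat_lit 0xa002800c481))) 
(.lf (nat_lit 1006645212) (dlOf (nat_lit 1) (nat_lit 0x20008007a81))))))) (.nd (nat_lit 6) 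
(.nd (nat_lit 20) (.nd (nat_lit 28) (.nd (nat_lit 8) 
(.lf (nat_lit 1677991964) (dlOf (nat_lit 1) (nat_lit 0x20028130481))) 
(.lf (nat_lit 738468124) (dlOf (nat_lit 3) (nat_lit 0x3e053001f01a800f8084002ac0c00e006a007002100066828090a80)))) 
(.nd (nat_lit 7) (.lf (nat_lit 4228128796) (dlOf (nat_lit 2) (nat_lit 0x60310001e818030b00))) 
(.lf (nat_lit 5301870748) (dlOf (nat_lit 1) (nat_lit 0x4002000800080c1282))))) (.nd (nat_lit 7) 
(.nd (nat_lit 8) 
(.lf (nat_lit 6377185308) (dlOf (nat_lit 4) (nat_lit 0x13853402cc25e000e0e9000904f8001282005d04bc04642400004304007212f00720900000ec10003000800dc002001400080b0103))) 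
(.lf (nat_lit 6376661276) (dlOf (nat_lit 4) (nat_lit 0x584c400902420016004002e131000ab0100080978002700800500080028002000a0008090a83)))) 
(.lf (nat_lit 2753306780) (dlOf (nat_lit 3) (nat_lit 0x980890001781007a0448000b8080038008001400200080008090183))))) 
(.nd (nat_lit 7) (.nd (nat_lit 8) 
(.lf (nat_lit 4096532572) (dlOf (nat_lit 2) (nat_lit 0xd0208000480800380080030002005e0008120703))) 
(.nd (nat_lit 11) 
(.lf (nat_lit 2752782684) (dlOf (nat_lit 1) (nat_lit 0x20008001000200060008048d03))) 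
(.lf (nat_lit 2751740252) (dlOf (nat_lit 1) (nat_lit 0x46000800ab81))))) (.nd (nat_lit 8) 
(.lf (nat_lit 2755928284) (dlOf (nat_lit 1) (nat_lit 0x200081b0481))) (.nd (nat_lit 11) 
(.lf (nat_lit 2752259036) (dlOf (nat_lit 1) (nat_lit 0xa00080010002000a0008002883))) 
(.lf (nat_lit 738470876) (dlOf (nat_lit 1) (nat_lit 0x120028095e01)))))))))) (.nd (nat_lit 18) 
(.nd (nat_lit 29) (.nd (nat_lit 9) (.nd (nat_lit 20) (.nd (nat_lit 8) (.nd (nat_lit 28) 
(.nd (nat_lit 22) 
(.lf (nat_lit 3221823516) (dlOf (nat_lit 2) (nat_lit 0x5c000000000080008008006000200600008190983))) 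
(.lf (nat_lit 4792348) (dlOf (nat_lit 1) (nat_lit 0x14004000c00082b0102)))) (.nd (nat_lit 6) 
(.lf (nat_lit 3494453276) (dlOf (nat_lit 1) (nat_lit 0x3e0018230481))) 
(.lf (nat_lit 474554460) (dlOf (nat_lit 2) (nat_lit 0x350af801d053000e01ae0002206000200291a0881))))) 
(.nd (nat_lit 6) (.nd (nat_lit 10) 
(.lf (nat_lit 4563478940) (dlOf (nat_lit 1) (nat_lit 0x100028094e81))) 
(.lf (nat_lit 1543581084) (dlOf (nat_lit 1) (nat_lit 0x70008001800200080008146d03)))) 
(.nd (nat_lit 19) 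
(.lf (nat_lit 1208033628) (dlOf (nat_lit 2) (nat_lit 0x10128000000800f8008000400200440008090e03))) 
(.lf (nat_lit 25764188) (dlOf (nat_lit 1) (nat_lit 0x40018c10901)))))) (.nd (nat_lit 22) 
(.nd (nat_lit 7) (.nd (nat_lit 6) 
(.lf (nat_lit 472981532) (dlOf (nat_lit 1) (nat_lit 0x1c0018ba0601))) 
(.lf (nat_lit 20525148) (dlOf (nat_lit 1) (nat_lit 0x5000289d7d81)))) (.nd (nat_lit 8) 
(.lf (nat_lit 3491307676) (dlOf (nat_lit 3) (nat_lit 0x1102300005e0400841180002e0200120018090181))) 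
(.lf (nat_lit 3491307932) (dlOf (nat_lit 1) (nat_lit 0x400400020008090782))))) (.nd (nat_lit 19) 
(.nd (nat_lit 6) (.lf (nat_lit 38871068) (dlOf (nat_lit 1) (nat_lit 0x2000400020019170102))) 
(.lf (nat_lit 30482652) (dlOf (nat_lit 1) (nat_lit 0x8008000c00200040008e30583)))) 
(.nd (nat_lit 21) (.lf (nat_lit 22618140) (dlOf (nat_lit 1) (nat_lit 0x600008b00501))) 
(.lf (nat_lit 24715292) (dlOf (nat_lit 5) (nat_lit 0xa65f800090087b132fc02699040346c28000118300036bf805835f800040080059afc0000b0200680028bb0501))))))) 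
(.nd (nat_lit 6) (.nd (nat_lit 27) (.nd (nat_lit 7) (.nd (nat_lit 11) 
(.lf (nat_lit 19997212) (dlOf (nat_lit 1) (nat_lit 0x2800089d1481))) 
(.lf (nat_lit 4362156572) (dlOf (nat_lit 3) (nat_lit 0x1a0470060c810004023802e4008027800801100020032000800b283)))) 
(.lf (nat_lit 19999644) (dlOf (nat_lit 1) (nat_lit 0x200289d5c81)))) (.nd (nat_lit 7) 
(.nd (nat_lit 8) 
(.lf (nat_lit 201407004) (dlOf (nat_lit 2) (nat_lit 0x1400000c13020014001800b281))) 
(.lf (nat_lit 469842716) (dlOf (nat_lit 1) (nat_lit 0x500020002000800bb82)))) 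
(.lf (nat_lit 469840540) (dlOf (nat_lit 1) (nat_lit 0x10008001000200040008008c83))))) 
(.nd (nat_lit 26) (.nd (nat_lit 7) 
(.lf (nat_lit 3355517532) (dlOf (nat_lit 1) (nat_lit 0x4002000200080a1682))) (.nd (nat_lit 8) 
(.lf (nat_lit 8467164) (dlOf (nat_lit 1) (nat_lit 0x28008000400200100008518c83))) 
(.lf (nat_lit 37299164) (dlOf (nat_lit 1) (nat_lit 0x4004000200090d2882))))) (.nd (nat_lit 7) 
(.lf (nat_lit 469840476) (dlOf (nat_lit 1) (nat_lit 0x140028008981))) (.nd (nat_lit 8) 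
(.lf (nat_lit 3691067100) (dlOf (nat_lit 2) (nat_lit 0x24044009f8020030001800a001))) 
(.lf (nat_lit 469842908) (dlOf (nat_lit 1) (nat_lit 0x40040002001800bf02)))))))) (.nd (nat_lit 7) 
(.nd (nat_lit 8) (.nd (nat_lit 27) (.nd (nat_lit 9) (.nd (nat_lit 20) 
(.lf (nat_lit 2756255772) (dlOf (nat_lit 1) (nat_lit 0x3e0018230481))) 
(.lf (nat_lit 4095287324) (dlOf (nat_lit 1) (nat_lit 0x80018090081)))) (.nd (nat_lit 11) 
(.lf (nat_lit 2753110556) (dlOf (nat_lit 1) (nat_lit 0x400400020008090d82))) 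
(.lf (nat_lit 536951324) (dlOf (nat_lit 2) (nat_lit 0x3c09600a69020006001800b281))))) 
(.nd (nat_lit 10) (.nd (nat_lit 26) 
(.lf (nat_lit 3892912156) (dlOf (nat_lit 4) (nat_lit 0x2408e0002402000204700011810002023800088080070008001800200240008290a03))) 
(.lf (nat_lit 3960021020) (dlOf (nat_lit 2) (nat_lit 0x5c000000000080008008006000200600008190983)))) 
(.lf (nat_lit 738274332) (dlOf (nat_lit 1) (nat_lit 0x8008003400200020008096003))))) 
(.nd (nat_lit 26) (.nd (nat_lit 6) 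
(.lf (nat_lit 2013339932) (dlOf (nat_lit 1) (nat_lit 0x800200020008000a82))) (.nd (nat_lit 27) 
(.lf (nat_lit 805380444) (dlOf (nat_lit 2) (nat_lit 0x1aa04f00ca01c006e8098000140c0060004000e0008090682))) 
(.lf (nat_lit 939598172) (dlOf (nat_lit 5) (nat_lit 0xc80000009c0400c4048003c01f000210200230000000dc0800500000006a040438002000800080b0682))))) 
(.nd (nat_lit 30) (.nd (nat_lit 6) 
(.lf (nat_lit 738271516) (dlOf (nat_lit 2) (nat_lit 0x7c098003c035000ab028090a80))) 
(.lf (nat_lit 1006707036) (dlOf (nat_lit 1) (nat_lit 0x400200020008014e02)))) (.nd (nat_lit 27) 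
(.lf (nat_lit 1677795676) (dlOf (nat_lit 2) (nat_lit 0x1aa04f00ca01c006e8098000140c0060004000e0008090682))) 
(.lf (nat_lit 1812013404) (dlOf (nat_lit 5) (nat_lit 0xc80000009c0400c4048003c01f000210200230000000dc0800500000006a040438002000800080b0682))))))) 
(.nd (nat_lit 6) (.nd (nat_lit 11) (.nd (nat_lit 8) (.nd (nat_lit 9) 
(.lf (nat_lit 2753110172) (dlOf (nat_lit 3) (nat_lit 0x1102240005e0400841120002e0200120018090181))) 
(.lf (nat_lit 4026607260) (dlOf (nat_lit 1) (nat_lit 0x980080140002004e0008003a83)))) 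
(.lf (nat_lit 872489372) (dlOf (nat_lit 1) (nat_lit 0x1c0008091001)))) (.nd (nat_lit 9) 
(.nd (nat_lit 26) (.lf (nat_lit 3758172572) (dlOf (nat_lit 1) (nat_lit 0x400080d4e81))) 
(.lf (nat_lit 3154192796) (dlOf (nat_lit 1) (nat_lit 0x3800201400008104e82)))) 
(.lf (nat_lit 738274204) (dlOf (nat_lit 1) (nat_lit 0x8008001400200020008095c83))))) 
(.nd (nat_lit 8) (.nd (nat_lit 9) (.nd (nat_lit 26) 
(.lf (nat_lit 5905653980) (dlOf (nat_lit 1) (nat_lit 0x14002000600080b0482))) 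
(.lf (nat_lit 3959496924) (dlOf (nat_lit 1) (nat_lit 0x60008090481)))) 
(.lf (nat_lit 2952869596) (dlOf (nat_lit 2) (nat_lit 0x98000009720400540020004000800a002)))) 
(.nd (nat_lit 10) (.nd (nat_lit 9) 
(.lf (nat_lit 872489436) (dlOf (nat_lit 1) (nat_lit 0x4800200180008091282))) 
(.lf (nat_lit 1610687452) (dlOf (nat_lit 1) (nat_lit 0x20028092881)))) (.nd (nat_lit 26) 
(.lf (nat_lit 2952869340) (dlOf (nat_lit 1) (nat_lit 0x60028009b01))) 
(.lf (nat_lit 604059100) (dlOf (nat_lit 2) (nat_lit 0x701c8001a0080098008001000200060008009b03))))))))) 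
(.nd (nat_lit 20) (.nd (nat_lit 27) (.nd (nat_lit 19) (.nd (nat_lit 32) (.nd (nat_lit 24) 
(.nd (nat_lit 9) (.lf (nat_lit 2953125916) (dlOf (nat_lit 1) (nat_lit 0x28004000a0018150602))) 
(.lf (nat_lit 2751805980) (dlOf (nat_lit 2) (nat_lit 0x2040400c13020014002800b281)))) 
(.nd (nat_lit 7) (.lf (nat_lit 27598876) (dlOf (nat_lit 1) (nat_lit 0x8004000c0018d00682))) 
(.lf (nat_lit 21307548) (dlOf (nat_lit 1) (nat_lit 0x8008000400200020008a31283))))) 
(.nd (nat_lit 28) (.nd (nat_lit 8) 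
(.lf (nat_lit 5905915932) (dlOf (nat_lit 2) (nat_lit 0x1d012800000080040008002800200460008160483))) 
(.lf (nat_lit 6442787100) (dlOf (nat_lit 1) (nat_lit 0x200181b0481)))) (.nd (nat_lit 6) 
(.lf (nat_lit 4563738652) (dlOf (nat_lit 1) (nat_lit 0x200180d0081))) 
(.lf (nat_lit 4563738716) (dlOf (nat_lit 2) (nat_lit 0x308064016402600a401000530038000542000280080050002000200080d0703)))))) 
(.nd (nat_lit 7) (.nd (nat_lit 21) 
(.lf (nat_lit 59580444) (dlOf (nat_lit 3) (nat_lit 0x8405000578080029d000013404006c00400620009810602))) 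
(.lf (nat_lit 11345948) (dlOf (nat_lit 2) (nat_lit 0xa48400112400024704000c0018690481)))) 
(.nd (nat_lit 8) (.lf (nat_lit 36514460) (dlOf (nat_lit 1) (nat_lit 0x20019075581))) 
(.lf (nat_lit 4094503836) (dlOf (nat_lit 1) (nat_lit 0x400200020008055c82)))))) (.nd (nat_lit 26) 
(.nd (nat_lit 28) (.nd (nat_lit 19) (.nd (nat_lit 29) 
(.lf (nat_lit 134553628) (dlOf (nat_lit 2) (nat_lit 0x40218004d80800300080070002002c0008070583))) 
(.lf (nat_lit 3892650012) (dlOf (nat_lit 3) (nat_lit 0x8154000520400600aa0030034001d00a00009c180048008004400200380008180103)))) 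
(.lf (nat_lit 2819432476) (dlOf (nat_lit 3) (nat_lit 0xd806800a9502000a0340054a018280480)))) 
(.nd (nat_lit 6) (.nd (nat_lit 30) 
(.lf (nat_lit 4697956380) (dlOf (nat_lit 1) (nat_lit 0x200180d0081))) 
(.lf (nat_lit 1476730908) (dlOf (nat_lit 2) (nat_lit 0x7007800a330200040028150481)))) 
(.lf (nat_lit 4697956444) (dlOf (nat_lit 2) (nat_lit 0x308064016402600a401000530038000542000280080050002000200080d0703))))) 
(.nd (nat_lit 29) (.nd (nat_lit 28) 
(.lf (nat_lit 201662492) (dlOf (nat_lit 2) (nat_lit 0x40218005840800300080070002002c0008070583))) 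
(.nd (nat_lit 30) (.lf (nat_lit 2617581596) (dlOf (nat_lit 2) (nat_lit 0x2c02b000d4018100480))) 
(.lf (nat_lit 3691323420) (dlOf (nat_lit 1) (nat_lit 0x28004000a0018150602))))) (.nd (nat_lit 6) 
(.lf (nat_lit 738533532) (dlOf (nat_lit 1) (nat_lit 0x8004000400180a2b82))) (.nd (nat_lit 7) 
(.lf (nat_lit 2886018908) (dlOf (nat_lit 1) (nat_lit 0x78008001400200160008143f83))) 
(.lf (nat_lit 2886018012) (dlOf (nat_lit 2) (nat_lit 0xf01e004a68080010008004c002000e0008142883)))))))) 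
(.nd (nat_lit 19) (.nd (nat_lit 22) (.nd (nat_lit 23) (.nd (nat_lit 8) 
(.lf (nat_lit 3481628) (dlOf (nat_lit 1) (nat_lit 0x10008000400200020008200003))) 
(.lf (nat_lit 20259100) (dlOf (nat_lit 1) (nat_lit 0x90004000200089d0a82)))) (.nd (nat_lit 6) 
(.lf (nat_lit 11870364) (dlOf (nat_lit 1) (nat_lit 0x20004000a00186c0182))) 
(.lf (nat_lit 9773148) (dlOf (nat_lit 1) (nat_lit 0x380080028002000a0008580703))))) 
(.nd (nat_lit 6) (.nd (nat_lit 9) 
(.lf (nat_lit 24453148) (dlOf (nat_lit 1) (nat_lit 0x8008000400200020008ba0a03))) 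
(.lf (nat_lit 58008092) (dlOf (nat_lit 4) (nat_lit 0xe2f6800217b000cf2080098bd200224330027182000a2f4800090cc009a2080068004000200097a8702)))) 
(.lf (nat_lit 32841820) (dlOf (nat_lit 1) (nat_lit 0x400200020008f30882))))) (.nd (nat_lit 28) 
(.nd (nat_lit 22) (.nd (nat_lit 21) 
(.lf (nat_lit 18685980) (dlOf (nat_lit 3) (nat_lit 0x708df0001c0100043998000b40801780080058002000a0008960603))) 
(.lf (nat_lit 29171740) (dlOf (nat_lit 1) (nat_lit 0x38000200f00008dd0c02)))) (.nd (nat_lit 23) 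
(.lf (nat_lit 39657500) (dlOf (nat_lit 2) (nat_lit 0x3927000082040008004000e00191b0102))) 
(.lf (nat_lit 31268892) (dlOf (nat_lit 1) (nat_lit 0xc00400020018e80482))))) (.nd (nat_lit 27) 
(.nd (nat_lit 6) (.lf (nat_lit 3491569820) (dlOf (nat_lit 2) (nat_lit 0xa00a00017818090180))) 
(.lf (nat_lit 1346183260) (dlOf (nat_lit 5) (nat_lit 0x270af80470578028c1ae00060d6009504d804b022c000161800f01ae0000902000e0d70000381004406b8000000801f8008001c00200060008e60883)))) 
(.nd (nat_lit 26) 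
(.lf (nat_lit 5773271196) (dlOf (nat_lit 1) (nat_lit 0x80080154002005400080c1283))) 
(.lf (nat_lit 6377250972) (dlOf (nat_lit 1) (nat_lit 0x80080154002005400080c1283)))))))))) 
(.nd (nat_lit 8) (.nd (nat_lit 18) (.nd (nat_lit 16) (.nd (nat_lit 6) (.nd (nat_lit 29) 
(.nd (nat_lit 30) (.nd (nat_lit 9) (.nd (nat_lit 10) 
(.lf (nat_lit 13639740) (dlOf (nat_lit 1) (nat_lit 0x940008730b81))) 
(.lf (nat_lit 2550148156) (dlOf (nat_lit 1) (nat_lit 0x40028006081)))) 
(.lf (nat_lit 53488188) (dlOf (nat_lit 1) (nat_lit 0x1a8008011c002000800095f5203)))) 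
(.nd (nat_lit 7) (.nd (nat_lit 26) 
(.lf (nat_lit 3221758012) (dlOf (nat_lit 2) (nat_lit 0x16040006a9018170000))) 
(.lf (nat_lit 3288866876) (dlOf (nat_lit 4) (nat_lit 0x500180012404000800c0010000000450200080000002200800200080014002000a00081d0c03)))) 
(.lf (nat_lit 1476407484) (dlOf (nat_lit 1) (nat_lit 0x8002000a0008007e82))))) (.nd (nat_lit 7) 
(.nd (nat_lit 19) 
(.lf (nat_lit 2755665980) (dlOf (nat_lit 1) (nat_lit 0x80080004002000200081b0003))) 
(.nd (nat_lit 21) 
(.lf (nat_lit 4027064380) (dlOf (nat_lit 4) (nat_lit 0x500180012004000800c0010000000450200080000002200800200080014002000a00081d0c03))) 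
(.lf (nat_lit 1881677884) (dlOf (nat_lit 1) (nat_lit 0x40028fd0781))))) (.nd (nat_lit 9) 
(.lf (nat_lit 2755666108) (dlOf (nat_lit 2) (nat_lit 0x340f20001102008a00181b0381))) 
(.lf (nat_lit 536880828) (dlOf (nat_lit 1) (nat_lit 0x8008012400200200008003a83)))))) 
(.nd (nat_lit 9) (.nd (nat_lit 22) (.nd (nat_lit 7) (.nd (nat_lit 26) 
(.lf (nat_lit 3221758076) (dlOf (nat_lit 5) (nat_lit 0x808c00160430010021000180fc003f41005ac0a2032a04d018b02480c400d005c004c02dc022019a00f0007b438001007c003d604015c0aa01ba05100eb0268050812403a006801ee026009601100728078003d420008000400220018170082))) 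
(.lf (nat_lit 3959955580) (dlOf (nat_lit 5) (nat_lit 0x808c00160430010021000180fc0041e1005ac0a2032a04d018b02480c400d005c004c02dc022019a00f0007fc38001007c003fa04015c0aa01ba05100eb0268050812403a006801ee026009601100728078003f820008000400220018170082)))) 
(.lf (nat_lit 469772540) (dlOf (nat_lit 1) (nat_lit 0x400400020018004b82)))) (.nd (nat_lit 7) 
(.nd (nat_lit 26) (.lf (nat_lit 3493863548) (dlOf (nat_lit 1) (nat_lit 0x600181b0081))) 
(.lf (nat_lit 2755666044) (dlOf (nat_lit 1) (nat_lit 0x600181b0081)))) 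
(.lf (nat_lit 40902908) (dlOf (nat_lit 2) (nat_lit 0x221ec0017a04000c00400020009202902))))) 
(.nd (nat_lit 12) (.nd (nat_lit 26) (.nd (nat_lit 19) 
(.lf (nat_lit 1207969404) (dlOf (nat_lit 1) (nat_lit 0x400400020018003982))) 
(.lf (nat_lit 8922748) (dlOf (nat_lit 2) (nat_lit 0x1993080001c040004002002c0008513982)))) 
(.nd (nat_lit 30) 
(.lf (nat_lit 335554172) (dlOf (nat_lit 1) (nat_lit 0xa0008028c00200500008003983))) 
(.lf (nat_lit 3556779644) (dlOf (nat_lit 1) (nat_lit 0x80028003981))))) (.nd (nat_lit 26) 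
(.lf (nat_lit 2684368508) (dlOf (nat_lit 1) (nat_lit 0x800200020008009d82))) (.nd (nat_lit 27) 
(.lf (nat_lit 67122812) (dlOf (nat_lit 1) (nat_lit 0x400400020008009d82))) 
(.lf (nat_lit 6643791484) (dlOf (nat_lit 1) (nat_lit 0x88008003c00200020008009d83)))))))) 
(.nd (nat_lit 30) (.nd (nat_lit 6) (.nd (nat_lit 19) (.nd (nat_lit 20) 
(.lf (nat_lit 474030140) (dlOf (nat_lit 4) (nat_lit 0x50018002800400e880800240060010001003a18200050018002800400e74080008004000e0019000002))) 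
(.lf (nat_lit 2752585788) (dlOf (nat_lit 1) (nat_lit 0x20028020701)))) (.nd (nat_lit 23) 
(.nd (nat_lit 27) 
(.lf (nat_lit 2756255804) (dlOf (nat_lit 1) (nat_lit 0x10008000800200040008230d83))) 
(.lf (nat_lit 474554428) (dlOf (nat_lit 1) (nat_lit 0x180080004002000200091a0603)))) 
(.nd (nat_lit 9) 
(.lf (nat_lit 10035260) (dlOf (nat_lit 2) (nat_lit 0x1e318000f80800600080030002003000085b0703))) 
(.lf (nat_lit 32057916) (dlOf (nat_lit 1) (nat_lit 0x800200020008ef5202)))))) (.nd (nat_lit 19) 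
(.nd (nat_lit 24) (.nd (nat_lit 26) 
(.lf (nat_lit 805380220) (dlOf (nat_lit 5) (nat_lit 0x81540049a04087c0aa044a04e022201b810c80ac0828048043e012021a005010a8018004982001bc09c00b003700d901200092c18035015400040a600ce04e006601b803c80ac015004800d80120004008003c802801d400c0024a1400040028090081))) 
(.lf (nat_lit 6509633660) (dlOf (nat_lit 1) (nat_lit 0x40002001200080b0082)))) (.nd (nat_lit 20) 
(.lf (nat_lit 18948220) (dlOf (nat_lit 1) (nat_lit 0x400200020008970482))) 
(.lf (nat_lit 30482556) (dlOf (nat_lit 1) (nat_lit 0x38008000400200020008e30483))))) 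
(.nd (nat_lit 7) (.nd (nat_lit 12) 
(.lf (nat_lit 8988284) (dlOf (nat_lit 2) (nat_lit 0x6866e0002321801a16f400d09bc00183cf00007058513980))) 
(.lf (nat_lit 20526716) (dlOf (nat_lit 1) (nat_lit 0xc00080040002001000089d9d83)))) 
(.lf (nat_lit 25764092) (dlOf (nat_lit 2) (nat_lit 0xf23a004fc0200020018c10701)))))) 
(.nd (nat_lit 31) (.nd (nat_lit 6) (.nd (nat_lit 7) (.nd (nat_lit 10) 
(.lf (nat_lit 1140924476) (dlOf (nat_lit 1) (nat_lit 0x400400020008000002))) 
(.lf (nat_lit 1342254140) (dlOf (nat_lit 1) (nat_lit 0x6c004000e0008006082)))) 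
(.lf (nat_lit 1409363132) (dlOf (nat_lit 1) (nat_lit 0xa00080094002001a0008006303)))) 
(.nd (nat_lit 26) (.nd (nat_lit 27) 
(.lf (nat_lit 5905653884) (dlOf (nat_lit 1) (nat_lit 0x40002001200080b0082))) 
(.lf (nat_lit 1744904316) (dlOf (nat_lit 2) (nat_lit 0x4070000170200040028090281)))) 
(.nd (nat_lit 10) 
(.lf (nat_lit 1677795452) (dlOf (nat_lit 5) (nat_lit 0x81540046a04087c0aa044a04e022201b810c80ac0828048043e012021a005010a8018004682001bc09c00b003700d90120008cc18035015400040a600ce04e006601b803c80ac015004800d80120004008003c802801d400c002321400040028090081))) 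
(.lf (nat_lit 1543580796) (dlOf (nat_lit 1) (nat_lit 0x40028146081)))))) (.nd (nat_lit 6) 
(.nd (nat_lit 7) (.nd (nat_lit 19) 
(.lf (nat_lit 3490783292) (dlOf (nat_lit 1) (nat_lit 0x20028020701))) 
(.lf (nat_lit 3494453308) (dlOf (nat_lit 1) (nat_lit 0x10008000800200040008230d83)))) 
(.lf (nat_lit 3959496892) (dlOf (nat_lit 5) (nat_lit 0xfc0000001e0200120000000c0100ad00000004808045000000022040154002002c0008090382)))) 
(.nd (nat_lit 27) (.nd (nat_lit 21) 
(.lf (nat_lit 3221299324) (dlOf (nat_lit 10) (nat_lit 0x51a0560292029014800d806bc06400dc0310270015814580780a34022050000a026b0030009305005d014802ec06c032601e001258300bb02b0007015402e80a40170036002e019005480ac030403c017201100b9005004b0018004942802180ac010805200a400f0009141800080440046c04035c0a2014a04e0095026801a012801e00920070045009601a803680d00104062002602e00c200f804a8078027c02400ba01000620030007fc7806d0144006009c009a04d000c025003e0124026406a00d603400c500f804c807800780200100006000ff0b010402880050138021c09a017804900c401a804d00d00164062020601f00d500f0031804002b800c001fd160114051010e0270096813400fc09401080490011021002600d40090068011801f005b00f007780480050020006c006001d0000007f0700020008016800200620008090083)))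 
(.lf (nat_lit 3491831932) (dlOf (nat_lit 1) (nat_lit 0x400400020008090082)))) (.nd (nat_lit 9) 
(.lf (nat_lit 3959496828) (dlOf (nat_lit 10) (nat_lit 0x51a0560292029014800d806bc06400dc0310270015814580780a34022050000a026b0030008d05005d014802ec06c032601e001198300bb02b0007015402e80a40170036002e019005480ac030403c017201100b9005004b0018004642802180ac010805200a400f0008b41800080440044204035c0a2014a04e0095026801a012801e00920070045009601a803680d00104062002602e00c200f804a8078027c02400ba01000620030007b47806d0144006009c009a04d000c025003e0124026406a00d603400c500f804c807800780200100006000f60b010402880050138021c09a017804900c401a804d00d00164062020601f00d500f0031804002b800c001eb160114051010e0270096813400fc09401080490011021002600d40090068011801f005b00f007780480050020006c006001d0000007a8700020008016800200620008090083))) 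
(.lf (nat_lit 3355522684) (dlOf (nat_lit 1) (nat_lit 0x14004000800180a9d82))))))))) 
(.nd (nat_lit 19) (.nd (nat_lit 28) (.nd (nat_lit 16) (.nd (nat_lit 26) (.nd (nat_lit 6) 
(.nd (nat_lit 9) 
(.lf (nat_lit 671359036) (dlOf (nat_lit 4) (nat_lit 0xd80880001404002404a000060200de02200000018160700))) 
(.lf (nat_lit 1074012732) (dlOf (nat_lit 2) (nat_lit 0x402700000018091000)))) 
(.lf (nat_lit 9707644) (dlOf (nat_lit 1) (nat_lit 0xc00400040008570c02)))) (.nd (nat_lit 29) 
(.nd (nat_lit 6) (.lf (nat_lit 67379260) (dlOf (nat_lit 1) (nat_lit 0x4004000200080f0482))) 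
(.lf (nat_lit 5436088444) (dlOf (nat_lit 3) (nat_lit 0x201900010050000b40800080000000002001000180c0c81)))) 
(.nd (nat_lit 7) 
(.lf (nat_lit 3825475644) (dlOf (nat_lit 5) (nat_lit 0xa0000000ac0803e00800004604004c03a000a01c0000502000b010005b0028001801000ee00700d6000000000280168008010800200280008160703))) 
(.lf (nat_lit 2755928252) (dlOf (nat_lit 1) (nat_lit 0x600181b0381)))))) (.nd (nat_lit 7) 
(.nd (nat_lit 26) (.nd (nat_lit 27) 
(.lf (nat_lit 5905915964) (dlOf (nat_lit 2) (nat_lit 0x1602b000800c000580540002a0c012c00200180008160702))) 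
(.lf (nat_lit 3355779132) (dlOf (nat_lit 1) (nat_lit 0x800400380008110d82)))) 
(.lf (nat_lit 6509895740) (dlOf (nat_lit 2) (nat_lit 0x1602c000800c00058054000280c012c00200180008160702)))) 
(.nd (nat_lit 6) (.lf (nat_lit 11870396) (dlOf (nat_lit 2) (nat_lit 0x42636000090186c0380))) 
(.lf (nat_lit 58007804) (dlOf (nat_lit 1) (nat_lit 0x1a00097a2901)))))) (.nd (nat_lit 26) 
(.nd (nat_lit 7) (.nd (nat_lit 6) (.nd (nat_lit 9) 
(.lf (nat_lit 3087278140) (dlOf (nat_lit 5) (nat_lit 0xa0000000980803e00800004604004c03a000a01c0000502000b010005b0028001801000ee00700d6000000000280168008010800200280008160703))) 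
(.lf (nat_lit 1881418300) (dlOf (nat_lit 2) (nat_lit 0x80710000838400481ba001c07a000f03c00017c2802b8008007c00200160008f05203)))) 
(.lf (nat_lit 5637416572) (dlOf (nat_lit 3) (nat_lit 0xa0058005002400280010000703000b00a0005004c00000080030004000200180d3982)))) 
(.nd (nat_lit 6) (.nd (nat_lit 16) 
(.lf (nat_lit 5772681404) (dlOf (nat_lit 1) (nat_lit 0x1c002001c0008090702))) 
(.lf (nat_lit 5234827452) (dlOf (nat_lit 2) (nat_lit 0xe02b000000180f1700)))) 
(.lf (nat_lit 5772682492) (dlOf (nat_lit 1) (nat_lit 0x10008000400200020008092f03))))) 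
(.nd (nat_lit 9) (.nd (nat_lit 20) (.nd (nat_lit 27) 
(.lf (nat_lit 5167652924) (dlOf (nat_lit 1) (nat_lit 0x400280e1201))) 
(.lf (nat_lit 1543774268) (dlOf (nat_lit 4) (nat_lit 0xd80880001404002404a000060200de02200000018160700)))) 
(.lf (nat_lit 473178172) (dlOf (nat_lit 1) (nat_lit 0x400400020018d70002)))) (.nd (nat_lit 7) 
(.lf (nat_lit 1946427964) (dlOf (nat_lit 2) (nat_lit 0x402700000018091000))) 
(.lf (nat_lit 3557045948) (dlOf (nat_lit 2) (nat_lit 0x150230012800800700080018002001c000812a003))))))) 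
(.nd (nat_lit 16) (.nd (nat_lit 26) (.nd (nat_lit 21) (.nd (nat_lit 20) (.nd (nat_lit 22) 
(.lf (nat_lit 59514940) (dlOf (nat_lit 4) (nat_lit 0x9867d009f33e004d96500224b2601344e6009526a0005843004499ec0238b24010a4e5008c2698002742004219ec0020cc8011059200802728042134c00087e20008e0c00280019800601))) 
(.lf (nat_lit 21766204) (dlOf (nat_lit 4) (nat_lit 0x1bb16000a0000001f0200040000000dc0800c80000003404004000200080008a70702)))) 
(.lf (nat_lit 5773205564) (dlOf (nat_lit 9) (nat_lit 0x3709f000b04c40046c0800442620023402000413e00110988008941000984c40043c04011c262001a130001040200110988007a80800a84fc002c264000b40400a613f00460990001fc100028008008c002005600080b0483)))) 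
(.nd (nat_lit 6) (.lf (nat_lit 3492552764) (dlOf (nat_lit 1) (nat_lit 0x8002000400080e0d82))) 
(.lf (nat_lit 61613692) (dlOf (nat_lit 1) (nat_lit 0x800400040019923982))))) (.nd (nat_lit 28) 
(.nd (nat_lit 6) (.nd (nat_lit 9) 
(.lf (nat_lit 2754355260) (dlOf (nat_lit 1) (nat_lit 0x8002000400080e0d82))) 
(.lf (nat_lit 67909180) (dlOf (nat_lit 2) (nat_lit 0x3406a00c1102000e0008339c01)))) 
(.lf (nat_lit 2752259836) (dlOf (nat_lit 1) (nat_lit 0x400200020008003b82)))) (.nd (nat_lit 20) 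
(.nd (nat_lit 21) (.lf (nat_lit 470556732) (dlOf (nat_lit 1) (nat_lit 0x120028121401))) 
(.lf (nat_lit 4096532540) (dlOf (nat_lit 1) (nat_lit 0xb000200260008120482)))) 
(.lf (nat_lit 6377185340) (dlOf (nat_lit 9) (nat_lit 0x37098800b04880046c0800442440023402000413100110910008941000984880043004011c244001a121001038200110910007a80800a84c8002c246000b40400a613200460918001fc100028008008c002005600080b0483)))))) 
(.nd (nat_lit 6) (.nd (nat_lit 20) (.nd (nat_lit 23) (.nd (nat_lit 26) 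
(.lf (nat_lit 3492618300) (dlOf (nat_lit 1) (nat_lit 0x2700080010002019400080e0d83))) 
(.lf (nat_lit 2754420796) (dlOf (nat_lit 1) (nat_lit 0x2700080010002019400080e0d83)))) 
(.lf (nat_lit 11345980) (dlOf (nat_lit 1) (nat_lit 0x18008002000200260008690d83)))) 
(.nd (nat_lit 22) 
(.lf (nat_lit 1346183228) (dlOf (nat_lit 2) (nat_lit 0xb06c80091c0800b80080020002000a0008e60603))) 
(.lf (nat_lit 16588860) (dlOf (nat_lit 1) (nat_lit 0xa00288c0981))))) (.nd (nat_lit 10) 
(.nd (nat_lit 7) (.lf (nat_lit 1879910524) (dlOf (nat_lit 1) (nat_lit 0x200183d4781))) 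
(.lf (nat_lit 8205052) (dlOf (nat_lit 1) (nat_lit 0x20018518f81)))) (.nd (nat_lit 12) 
(.lf (nat_lit 61679228) (dlOf (nat_lit 1) (nat_lit 0x80008000400200060009923983))) 
(.lf (nat_lit 19740284) (dlOf (nat_lit 1) (nat_lit 0x8004001000189d9d82))))))))) (.nd (nat_lit 10) 
(.nd (nat_lit 28) (.nd (nat_lit 7) (.nd (nat_lit 6) (.nd (nat_lit 24) (.nd (nat_lit 18) 
(.nd (nat_lit 27) (.lf (nat_lit 1610621244) (dlOf (nat_lit 1) (nat_lit 0x20028000b81))) 
(.lf (nat_lit 3892322620) (dlOf (nat_lit 2) (nat_lit 0x2811c0007804000c00400180018000b82)))) 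
(.lf (nat_lit 1745101116) (dlOf (nat_lit 1) (nat_lit 0x20018090b81)))) (.nd (nat_lit 9) 
(.nd (nat_lit 18) (.lf (nat_lit 54534460) (dlOf (nat_lit 1) (nat_lit 0x400400020009650b82))) 
(.lf (nat_lit 17572156) (dlOf (nat_lit 1) (nat_lit 0x200288e0701)))) 
(.lf (nat_lit 19999548) (dlOf (nat_lit 1) (nat_lit 0x4002000200089d5c02))))) (.nd (nat_lit 11) 
(.nd (nat_lit 9) (.lf (nat_lit 23404924) (dlOf (nat_lit 1) (nat_lit 0xc00080068002008a0008b80783))) 
(.lf (nat_lit 20456316) (dlOf (nat_lit 1) (nat_lit 0x200289d2581)))) (.nd (nat_lit 18) 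
(.lf (nat_lit 2754619772) (dlOf (nat_lit 1) (nat_lit 0x10002000200080f4e82))) (.nd (nat_lit 19) 
(.lf (nat_lit 4899219836) (dlOf (nat_lit 1) (nat_lit 0x800180d4e81))) 
(.lf (nat_lit 33302908) (dlOf (nat_lit 1) (nat_lit 0x20008f54e81))))))) (.nd (nat_lit 18) 
(.nd (nat_lit 16) (.nd (nat_lit 6) (.nd (nat_lit 19) 
(.lf (nat_lit 738206140) (dlOf (nat_lit 1) (nat_lit 0x60008001081))) 
(.lf (nat_lit 58204604) (dlOf (nat_lit 1) (nat_lit 0x1c800800c0002001800097c7003)))) 
(.lf (nat_lit 2751472636) (dlOf (nat_lit 1) (nat_lit 0x20018002881)))) (.nd (nat_lit 6) 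
(.nd (nat_lit 19) (.lf (nat_lit 11608508) (dlOf (nat_lit 1) (nat_lit 0x80080004002000200086c0883))) 
(.lf (nat_lit 43590076) (dlOf (nat_lit 1) (nat_lit 0x400292a1081)))) 
(.lf (nat_lit 738274300) (dlOf (nat_lit 1) (nat_lit 0x160018095f01))))) (.nd (nat_lit 25) 
(.nd (nat_lit 6) (.nd (nat_lit 9) 
(.lf (nat_lit 1074012604) (dlOf (nat_lit 2) (nat_lit 0x80148000d8080010008001000200200008090883))) 
(.lf (nat_lit 4496567228) (dlOf (nat_lit 5) (nat_lit 0xc6034000301900001c1000700d00000c0400100680000102001803400020190000001001e00080008002007000080e5d03)))) 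
(.lf (nat_lit 5905850876) (dlOf (nat_lit 1) (nat_lit 0x3240028157e01)))) (.nd (nat_lit 6) 
(.nd (nat_lit 16) (.lf (nat_lit 53223868) (dlOf (nat_lit 1) (nat_lit 0x1400400020019571082))) 
(.lf (nat_lit 43852220) (dlOf (nat_lit 1) (nat_lit 0x78008005c002005c00092a1083)))) 
(.lf (nat_lit 38085628) (dlOf (nat_lit 1) (nat_lit 0x400200360009132882))))))) (.nd (nat_lit 11) 
(.nd (nat_lit 27) (.nd (nat_lit 26) (.nd (nat_lit 6) (.nd (nat_lit 19) 
(.lf (nat_lit 4563411388) (dlOf (nat_lit 1) (nat_lit 0xaa0008001081))) 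
(.lf (nat_lit 1342710204) (dlOf (nat_lit 5) (nat_lit 0x1ff0aa0085054403d01280004a060402154010f0a8807b8250000860c07fc2a8021415100f404a00010418000891c08002a8021015100f504a0000ec2005e000801f4002055400080c0883)))) 
(.lf (nat_lit 2952803324) (dlOf (nat_lit 1) (nat_lit 0x800200040008009202)))) (.nd (nat_lit 7) 
(.lf (nat_lit 3556843836) (dlOf (nat_lit 1) (nat_lit 0xa4400205080008080b82))) 
(.lf (nat_lit 1946427836) (dlOf (nat_lit 2) (nat_lit 0x80148000d8080010008001000200200008090883))))) 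
(.nd (nat_lit 16) (.nd (nat_lit 7) 
(.lf (nat_lit 4697628988) (dlOf (nat_lit 1) (nat_lit 0xae0008000b81))) 
(.lf (nat_lit 470294972) (dlOf (nat_lit 5) (nat_lit 0x1ff0aa0085054403d01280004a060402154010f0a8807b8250000860c07fc2a8021415100f404a00010418000891c08002a8021015100f504a0000ec2005e000801f4002055400080c0883)))) 
(.nd (nat_lit 6) 
(.lf (nat_lit 5774057916) (dlOf (nat_lit 1) (nat_lit 0x20000800f8002004800080f7a83))) 
(.lf (nat_lit 5773534204) (dlOf (nat_lit 1) (nat_lit 0x8004000400080e2882)))))) (.nd (nat_lit 26) 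
(.nd (nat_lit 31) (.nd (nat_lit 9) 
(.lf (nat_lit 1345661372) (dlOf (nat_lit 1) (nat_lit 0x20028dd4e81))) 
(.lf (nat_lit 5234568124) (dlOf (nat_lit 2) (nat_lit 0x2c017000000080030008008400200120008055d03)))) 
(.nd (nat_lit 6) (.lf (nat_lit 3624151484) (dlOf (nat_lit 1) (nat_lit 0x180028144e81))) 
(.lf (nat_lit 3624216956) (dlOf (nat_lit 1) (nat_lit 0x10008001000200020008144e83))))) 
(.nd (nat_lit 6) (.nd (nat_lit 9) 
(.lf (nat_lit 1409362364) (dlOf (nat_lit 1) (nat_lit 0x400400040018004e82))) 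
(.lf (nat_lit 5704330172) (dlOf (nat_lit 9) (nat_lit 0x6a0190005005002200240002e0c00c8032005800a0000b02004000c80008028000220800ac032005c00a0000802000700c80170028000080800c4032005200a0000102002800c8000040800180280000004006c00400280018055d02)))) 
(.nd (nat_lit 7) (.lf (nat_lit 6377974140) (dlOf (nat_lit 1) (nat_lit 0x3400280e4e81))) 
(.lf (nat_lit 4094700540) (dlOf (nat_lit 1) (nat_lit 0x200018055f01)))))))) (.nd (nat_lit 6) 
(.nd (nat_lit 28) (.nd (nat_lit 12) (.nd (nat_lit 7) (.nd (nat_lit 26) 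
(.lf (nat_lit 10044) (dlOf (nat_lit 1) (nat_lit 0x120018003e01))) 
(.lf (nat_lit 2751473468) (dlOf (nat_lit 1) (nat_lit 0x360028003e01)))) (.nd (nat_lit 26) 
(.lf (nat_lit 10172) (dlOf (nat_lit 1) (nat_lit 0x6c004000c0008004382))) 
(.lf (nat_lit 4362086332) (dlOf (nat_lit 1) (nat_lit 0x2800200060008004382))))) (.nd (nat_lit 9) 
(.nd (nat_lit 16) (.lf (nat_lit 8140092) (dlOf (nat_lit 1) (nat_lit 0x20018519901))) 
(.lf (nat_lit 7943484) (dlOf (nat_lit 1) (nat_lit 0x8008000400200020008519903)))) (.nd (nat_lit 16) 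
(.lf (nat_lit 8927036) (dlOf (nat_lit 1) (nat_lit 0x28001851a101))) 
(.lf (nat_lit 67188540) (dlOf (nat_lit 1) (nat_lit 0x40040002000800a102)))))) (.nd (nat_lit 7) 
(.nd (nat_lit 9) (.nd (nat_lit 11) 
(.lf (nat_lit 469775676) (dlOf (nat_lit 1) (nat_lit 0x40018009901))) 
(.lf (nat_lit 3624217916) (dlOf (nat_lit 1) (nat_lit 0x10008001400200020008146903)))) 
(.nd (nat_lit 26) (.nd (nat_lit 27) 
(.lf (nat_lit 2952869692) (dlOf (nat_lit 4) (nat_lit 0xe0270002a01000f00d000144080098050000a00400740040022000800a102))) 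
(.lf (nat_lit 1476474684) (dlOf (nat_lit 3) (nat_lit 0x3301c8001980802100fc000000400380040018000800a102)))) 
(.lf (nat_lit 3691067196) (dlOf (nat_lit 3) (nat_lit 0x100050000e408007002800070040090004002e000800a102))))) 
(.nd (nat_lit 12) (.nd (nat_lit 26) 
(.lf (nat_lit 2550148540) (dlOf (nat_lit 1) (nat_lit 0x900028006d01))) 
(.lf (nat_lit 4227870140) (dlOf (nat_lit 1) (nat_lit 0x30008001800200200008006d03)))) 
(.nd (nat_lit 9) 
(.lf (nat_lit 2952805820) (dlOf (nat_lit 1) (nat_lit 0x2800800300020022000800cd03))) 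
(.lf (nat_lit 3691001788) (dlOf (nat_lit 1) (nat_lit 0x40020002000800a582))))))) (.nd (nat_lit 7) 
(.nd (nat_lit 28) (.nd (nat_lit 19) (.nd (nat_lit 12) (.nd (nat_lit 18) 
(.lf (nat_lit 4294978940) (dlOf (nat_lit 1) (nat_lit 0x400400020008006c02))) 
(.lf (nat_lit 3221499260) (dlOf (nat_lit 1) (nat_lit 0x10008003800200040008116c03)))) 
(.lf (nat_lit 134233468) (dlOf (nat_lit 1) (nat_lit 0x4000800040020004000800c903)))) 
(.nd (nat_lit 16) (.nd (nat_lit 18) 
(.lf (nat_lit 20458876) (dlOf (nat_lit 1) (nat_lit 0x400289d6c01))) 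
(.lf (nat_lit 4362874236) (dlOf (nat_lit 1) (nat_lit 0x3400400140018116c02)))) 
(.lf (nat_lit 20524412) (dlOf (nat_lit 1) (nat_lit 0x80080004002000200089d6c03))))) 
(.nd (nat_lit 27) (.nd (nat_lit 16) 
(.lf (nat_lit 1879059836) (dlOf (nat_lit 1) (nat_lit 0x20008006c01))) 
(.lf (nat_lit 3489738108) (dlOf (nat_lit 1) (nat_lit 0x240028006c01)))) (.nd (nat_lit 18) 
(.lf (nat_lit 2550148476) (dlOf (nat_lit 1) (nat_lit 0x8008000400200020008006c03))) 
(.lf (nat_lit 3624152444) (dlOf (nat_lit 1) (nat_lit 0x400400020008146c02)))))) (.nd (nat_lit 26) 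
(.nd (nat_lit 18) (.nd (nat_lit 27) (.nd (nat_lit 12) 
(.lf (nat_lit 4563412476) (dlOf (nat_lit 3) (nat_lit 0x301a0001840800380780007804000c002000c0008003682))) 
(.lf (nat_lit 2684368380) (dlOf (nat_lit 1) (nat_lit 0xa80018009c01)))) (.nd (nat_lit 9) 
(.lf (nat_lit 1207969276) (dlOf (nat_lit 1) (nat_lit 0xc00400020008003682))) 
(.lf (nat_lit 4429195260) (dlOf (nat_lit 1) (nat_lit 0x20008004701))))) (.nd (nat_lit 19) 
(.lf (nat_lit 8660476) (dlOf (nat_lit 2) (nat_lit 0x8e478000d8080008008000800200020008513683))) 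
(.lf (nat_lit 61613564) (dlOf (nat_lit 1) (nat_lit 0x10008000400200020009923683))))) 
(.nd (nat_lit 9) (.nd (nat_lit 16) (.nd (nat_lit 18) 
(.lf (nat_lit 3556779516) (dlOf (nat_lit 1) (nat_lit 0x88008007c00200220008003683))) 
(.lf (nat_lit 4096009724) (dlOf (nat_lit 1) (nat_lit 0x400280e3681)))) 
(.lf (nat_lit 6241199612) (dlOf (nat_lit 1) (nat_lit 0x400400060008053682)))) (.nd (nat_lit 31) 
(.lf (nat_lit 4362086396) (dlOf (nat_lit 2) (nat_lit 0x500ac001be04000c004001c0008004702))) 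
(.lf (nat_lit 6509570044) (dlOf (nat_lit 1) (nat_lit 0xb40028004701))))))))))) (.nd (nat_lit 5) 
(.nd (nat_lit 16) (.nd (nat_lit 18) (.nd (nat_lit 19) (.nd (nat_lit 30) (.nd (nat_lit 7) 
(.nd (nat_lit 28) (.nd (nat_lit 21) (.nd (nat_lit 20) (.nd (nat_lit 27) 
(.lf (nat_lit 4295106588) (dlOf (nat_lit 2) (nat_lit 0x200000b41018080500))) 
(.lf (nat_lit 4429324316) (dlOf (nat_lit 2) (nat_lit 0x200000a89818080500)))) 
(.lf (nat_lit 22159388) (dlOf (nat_lit 2) (nat_lit 0x84aa60001e818aa0b00)))) (.nd (nat_lit 22) 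
(.lf (nat_lit 69345308) (dlOf (nat_lit 1) (nat_lit 0x20028940101))) 
(.lf (nat_lit 14819356) (dlOf (nat_lit 2) (nat_lit 0x13eb800184080010008000c00200060008780503))))) 
(.nd (nat_lit 26) (.nd (nat_lit 8) (.nd (nat_lit 27) 
(.lf (nat_lit 2416058396) (dlOf (nat_lit 1) (nat_lit 0x400400020008030902))) 
(.lf (nat_lit 2550276124) (dlOf (nat_lit 1) (nat_lit 0x400400020008030902)))) 
(.lf (nat_lit 805448988) (dlOf (nat_lit 2) (nat_lit 0x15009800090080288008006c00200140008116783)))) 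
(.nd (nat_lit 27) (.lf (nat_lit 5167521820) (dlOf (nat_lit 1) (nat_lit 0xc0018080081))) 
(.lf (nat_lit 5301739548) (dlOf (nat_lit 5) (nat_lit 0x700fc004007c002203a001001b8007f42000400fc002007c001803a000a01b8007f02000380fc002807c001a03a000801b8007ec2000400fc001807c001803a000c01b8007e8200008008002c00200040008060a83)))))) 
(.nd (nat_lit 6) (.nd (nat_lit 8) (.nd (nat_lit 11) 
(.lf (nat_lit 6442591900) (dlOf (nat_lit 1) (nat_lit 0x300080084002000400080f3a83))) 
(.lf (nat_lit 6509702812) (dlOf (nat_lit 1) (nat_lit 0x20008147201)))) 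
(.lf (nat_lit 738339740) (dlOf (nat_lit 1) (nat_lit 0x1ec00200a80008095c82)))) (.nd (nat_lit 8) 
(.nd (nat_lit 21) 
(.lf (nat_lit 4563542236) (dlOf (nat_lit 7) (nat_lit 0x80d0003405e000201f0000a83000c0178000807c0002808002c05e001e02d000c00f8000141800200bc001405a000a01f00002030007017800380b4002403e0000306001202f00080168005007c000040c005400400540018090a02))) 
(.lf (nat_lit 19013852) (dlOf (nat_lit 1) (nat_lit 0x40028970581)))) (.nd (nat_lit 22) 
(.lf (nat_lit 537011164) (dlOf (nat_lit 2) (nat_lit 0x402f805108080048008001400200100008002883))) 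
(.lf (nat_lit 474096604) (dlOf (nat_lit 1) (nat_lit 0x700080028002009e0009082883))))))) 
(.nd (nat_lit 8) (.nd (nat_lit 9) (.nd (nat_lit 10) (.nd (nat_lit 20) (.nd (nat_lit 26) 
(.lf (nat_lit 2013405212) (dlOf (nat_lit 2) (nat_lit 0x9300880006404000400400320018050502))) 
(.lf (nat_lit 5435957276) (dlOf (nat_lit 5) (nat_lit 0x700fc004007c002203a001001a8008482000400fc002007c001803a000a01a8008442000380fc002807c001a03a000801a8008402000400fc001807c001803a000c01a80083c200008008002c00200040008060a83)))) 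
(.lf (nat_lit 1343365148) (dlOf (nat_lit 1) (nat_lit 0x1800400040018210682)))) (.nd (nat_lit 6) 
(.lf (nat_lit 3959563292) (dlOf (nat_lit 2) (nat_lit 0xc01c014470200020018112881))) 
(.lf (nat_lit 5773599836) (dlOf (nat_lit 1) (nat_lit 0x4004000200080e2902))))) (.nd (nat_lit 6) 
(.nd (nat_lit 11) 
(.lf (nat_lit 3355583004) (dlOf (nat_lit 1) (nat_lit 0x148008008c002002000080a1483))) 
(.lf (nat_lit 1677867548) (dlOf (nat_lit 1) (nat_lit 0x680080020002000c000811b283)))) 
(.lf (nat_lit 3355583068) (dlOf (nat_lit 5) (nat_lit 0xb0178001000000048080024068000602f002a016800200280004410000805c0001602000203400020170000501003a800802a000200d200080a1683))))) 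
(.nd (nat_lit 6) (.nd (nat_lit 7) 
(.lf (nat_lit 6376530204) (dlOf (nat_lit 4) (nat_lit 0x3009880120484002c00800cc262003c130001e09100150484007816a001560a005412f002a090000270100028008000800200040008090a83))) 
(.nd (nat_lit 12) 
(.lf (nat_lit 6241266588) (dlOf (nat_lit 1) (nat_lit 0x300080008002000200080d5c83))) 
(.lf (nat_lit 3221371804) (dlOf (nat_lit 1) (nat_lit 0x40040002000811bc82))))) (.nd (nat_lit 7) 
(.nd (nat_lit 11) (.lf (nat_lit 1073881436) (dlOf (nat_lit 1) (nat_lit 0x20028014e01))) 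
(.lf (nat_lit 3959564636) (dlOf (nat_lit 1) (nat_lit 0x400400020008114e02)))) (.nd (nat_lit 26) 
(.lf (nat_lit 3221367260) (dlOf (nat_lit 2) (nat_lit 0xcc01c0173e0200020018114e81))) 
(.lf (nat_lit 6241266140) (dlOf (nat_lit 1) (nat_lit 0x2c00180d4e81)))))))) (.nd (nat_lit 21) 
(.nd (nat_lit 26) (.nd (nat_lit 6) (.nd (nat_lit 23) (.nd (nat_lit 8) (.nd (nat_lit 27) 
(.lf (nat_lit 3221889052) (dlOf (nat_lit 3) (nat_lit 0x22045000f01980089810006811800418040130004000200081b0482))) 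
(.lf (nat_lit 134881308) (dlOf (nat_lit 2) (nat_lit 0x2804c00000040014002001c00080d0882)))) 
(.lf (nat_lit 50995484) (dlOf (nat_lit 2) (nat_lit 0xe2a30004b80800b0008004c002000200094e8003)))) 
(.nd (nat_lit 20) (.lf (nat_lit 13246492) (dlOf (nat_lit 1) (nat_lit 0x2a0028710a81))) 
(.nd (nat_lit 24) (.lf (nat_lit 10100764) (dlOf (nat_lit 1) (nat_lit 0x200285b0481))) 
(.lf (nat_lit 26877980) (dlOf (nat_lit 1) (nat_lit 0xb8008003c002000c0008c80503)))))) 
(.nd (nat_lit 7) (.nd (nat_lit 27) 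
(.lf (nat_lit 537534556) (dlOf (nat_lit 2) (nat_lit 0x2e02c000b01440002e080010004000200080a1202))) 
(.lf (nat_lit 5772025948) (dlOf (nat_lit 2) (nat_lit 0x80a00006804001c00400020008040702)))) 
(.lf (nat_lit 1879711964) (dlOf (nat_lit 1) (nat_lit 0xe00182e0581))))) (.nd (nat_lit 28) 
(.nd (nat_lit 27) (.lf (nat_lit 67772444) (dlOf (nat_lit 1) (nat_lit 0x3e00282e0a01))) 
(.nd (nat_lit 29) 
(.lf (nat_lit 201990172) (dlOf (nat_lit 2) (nat_lit 0x2804c00000040014002001c00080d0882))) 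
(.lf (nat_lit 3960086556) (dlOf (nat_lit 3) (nat_lit 0x22045000f0198008981000681180041c040130004000200081b0482))))) 
(.nd (nat_lit 6) (.nd (nat_lit 7) 
(.lf (nat_lit 3154780188) (dlOf (nat_lit 4) (nat_lit 0x46047004401c0000901000d811c0004604008808e000220200040028320a01))) 
(.lf (nat_lit 6377054364) (dlOf (nat_lit 1) (nat_lit 0x400080a2b81)))) (.nd (nat_lit 27) 
(.lf (nat_lit 1409949788) (dlOf (nat_lit 2) (nat_lit 0x2e02c000b01440005a080010004000200080a1202))) 
(.lf (nat_lit 6376005724) (dlOf (nat_lit 2) (nat_lit 0x80a00006804001c00400020008040702))))))) 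
(.nd (nat_lit 20) (.nd (nat_lit 28) (.nd (nat_lit 7) 
(.lf (nat_lit 11149340) (dlOf (nat_lit 1) (nat_lit 0x80018660481))) 
(.lf (nat_lit 36317852) (dlOf (nat_lit 1) (nat_lit 0x20019075581)))) (.nd (nat_lit 26) 
(.lf (nat_lit 1344938012) (dlOf (nat_lit 2) (nat_lit 0xc407d005e03e0000441000d00080040002003a00089a0103))) 
(.lf (nat_lit 472522780) (dlOf (nat_lit 2) (nat_lit 0x580bc000af8189b0600))))) (.nd (nat_lit 22) 
(.nd (nat_lit 26) (.nd (nat_lit 28) 
(.lf (nat_lit 3809308) (dlOf (nat_lit 3) (nat_lit 0x590000001000801003640000004005400200060008230502))) 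
(.lf (nat_lit 3493470236) (dlOf (nat_lit 11) (nat_lit 0x2801a400a808800a0043006a012002b808000e403e00320090001887000602200010090000600801b40d20092044000f0218041809001a40400002f0a00040200001681001e034801f00900003408009004800016020096069005201200488080000220c00b40480000e0200320200000681002e012000030080140008028800202cc0008140b03)))) 
(.lf (nat_lit 2755272732) (dlOf (nat_lit 11) (nat_lit 0x2801a400a808800a0043006a012002b808000e403e00320090001887000602200010090000600801b40d20092044000f0218041809001a40400002f0a00040200001681001e034801f00900003208009004800015020096069005201200488080000220c00b40480000f0200320200000681002e012000030080140008028800202cc0008140b03)))) 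
(.nd (nat_lit 6) (.nd (nat_lit 8) 
(.lf (nat_lit 24780828) (dlOf (nat_lit 4) (nat_lit 0x8cc1b000120102e360d80008c0801d306c0003e04015c00200a00008bb0502))) 
(.lf (nat_lit 8008988) (dlOf (nat_lit 1) (nat_lit 0x80080004002000c0008519703)))) 
(.lf (nat_lit 58337884) (dlOf (nat_lit 1) (nat_lit 0xc00197e5301)))))))) (.nd (nat_lit 6) 
(.nd (nat_lit 26) (.nd (nat_lit 20) (.nd (nat_lit 29) (.nd (nat_lit 23) (.nd (nat_lit 27) 
(.nd (nat_lit 28) 
(.lf (nat_lit 3221626908) (dlOf (nat_lit 13) (nat_lit 0x50158000c0a400060510002025800100780014022000200a0003003005a084000880bc006005c0166d04005602f00b10810034017801780b800cc028015fe06003002f00150170057ec1001200bc009005c004a01400af683001a00b0054200800780bc029fc04005005e014ae02004602f003c01700525c1001a00bc00d405c0148c04001e040005600b0000001001c000800bc002001e0008160503))) 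
(.lf (nat_lit 4563804188) (dlOf (nat_lit 27) (nat_lit 0x9f019809900c8048805c039602d005a00f0001002800380cc0054064000e02e001401680028078000701422640620496030000701582dd80a0082004e013e025001301200038088066c0400c5e01c011d00d805b00500ec8000000321a010e03a018d018810300c00a54058043202b03800140091009407c0048000e022006101000890070000803608f4000000188d027901880b580c00288058002e02b0334014002d009400e8048000a022003d01000c2007010b40000003016027003a000d01a80ca00c407e0058034002b013201280db80900054044000a020036300e0001002816dc0000002b18013003b015f01d001100e000fc06a034003102e301600ee80ac0304050039602502ae012000a008801f8040026401c004a00d8019806800f80140b600000001511007d016000f00900eec0000002906016c0330001381089901980ca00c8063405c034002d027900f000090280fc00c80a5405c05c602d000d0158051007801f403a000230c0c5e0330363019008900b804c805a030801e000110505bb01981c000b8030405a066801e0000e84019b019800280c8018405c00fc02d003d00f0000702801100b4000300400cc05a0001402001a032003f01680004c1012580cc081805c02d601e0000683000701980d000c8086405c03ba02d000d016000b807800040000000c0e04100330000581011d019800100b8012805a0000a06013002d00003810138019004380b8057c05a0000306002603301b701900f800b80ab805a007401e001e00e8000083000100c800f805a0000104076403305b7019023d00b816c005a000202b042d00f01dd8074000001c01ec002000400080e0502))))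 
(.lf (nat_lit 3355844636) (dlOf (nat_lit 6) (nat_lit 0x80034000cd8100da0000002c40800680d000a805c06ae02b02ea0150079009c0008034029201300430010001f8400a600ac0005404041c06804c40300072017008f80b0000001003700040c7e0018120482)))) 
(.nd (nat_lit 21) (.lf (nat_lit 12984348) (dlOf (nat_lit 1) (nat_lit 0x6000086f0481))) 
(.nd (nat_lit 22) (.lf (nat_lit 61218844) (dlOf (nat_lit 1) (nat_lit 0x4004000200098e0102))) 
(.lf (nat_lit 48635932) (dlOf (nat_lit 2) (nat_lit 0x160000000820400bc00200220009420102)))))) 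
(.nd (nat_lit 19) (.nd (nat_lit 28) 
(.lf (nat_lit 3758497820) (dlOf (nat_lit 1) (nat_lit 0x118008004000200040008220683))) 
(.lf (nat_lit 805707804) (dlOf (nat_lit 3) (nat_lit 0xc02b00190154003809c01682060082055002f0098057ec10015000800bc00200020008190503)))) 
(.nd (nat_lit 27) (.lf (nat_lit 537796636) (dlOf (nat_lit 1) (nat_lit 0x11800081b0001))) 
(.lf (nat_lit 2819498012) (dlOf (nat_lit 6) (nat_lit 0x3001b0000e40801b00d8000700400d806c0003702006c0360001b01003601b0000d408030000800c8002002000082b0603)))))) 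
(.nd (nat_lit 19) (.nd (nat_lit 8) (.nd (nat_lit 21) 
(.lf (nat_lit 26615836) (dlOf (nat_lit 1) (nat_lit 0x1c002001e0008c50102))) 
(.lf (nat_lit 62267420) (dlOf (nat_lit 1) (nat_lit 0x20009990281)))) 
(.lf (nat_lit 20324636) (dlOf (nat_lit 1) (nat_lit 0x4002000200089d0a82)))) (.nd (nat_lit 7) 
(.lf (nat_lit 22945820) (dlOf (nat_lit 1) (nat_lit 0x1980018b40481))) 
(.lf (nat_lit 8270492) (dlOf (nat_lit 1) (nat_lit 0x400200020008518c82)))))) (.nd (nat_lit 29) 
(.nd (nat_lit 7) (.nd (nat_lit 19) 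
(.lf (nat_lit 68558876) (dlOf (nat_lit 1) (nat_lit 0xa00185b0581))) 
(.lf (nat_lit 3557695516) (dlOf (nat_lit 6) (nat_lit 0x3001c0000e40801b00e0000700400d80700003702006c0380001b01003601c0000d408030000800c8002002000082b0603)))) 
(.nd (nat_lit 27) 
(.lf (nat_lit 4362477980) (dlOf (nat_lit 2) (nat_lit 0x3c00cc01d4004002800400080008090782))) 
(.lf (nat_lit 201728412) (dlOf (nat_lit 2) (nat_lit 0xda03b00673818090780))))) (.nd (nat_lit 30) 
(.nd (nat_lit 7) 
(.lf (nat_lit 2756059164) (dlOf (nat_lit 2) (nat_lit 0x2e068000c00f000000100010008000c002000a00081e0503))) 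
(.lf (nat_lit 2754493852) (dlOf (nat_lit 1) (nat_lit 0x200180fca81)))) (.nd (nat_lit 27) 
(.lf (nat_lit 1678123036) (dlOf (nat_lit 3) (nat_lit 0xc02b00190154003809c01513060082055002f00980525c10015000800bc00200020008190503))) 
(.lf (nat_lit 3959824412) (dlOf (nat_lit 13) (nat_lit 0xd005802cee04003c05e0166d02002802f00b10810034017801a80b802bfc08008c05e007802e00afd82000a02b00018148000c0a2000404b000200f000280440004014000600600a89880011017800c00b8029fc0800ac05e014ae02003002f001501700525c1001a00bc00bc05c006601400a46030024017801200b800940280147e06001e040005600b0000001001c000800bc002001e0008160503))))))) 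
(.nd (nat_lit 7) (.nd (nat_lit 30) (.nd (nat_lit 10) (.nd (nat_lit 20) 
(.lf (nat_lit 4496695388) (dlOf (nat_lit 5) (nat_lit 0x62603403c50198052809c1198046059a01f035d000000054301d480d00ed8066084603203c40180000482006180d000b4066001e0300000883005501180000c080ae800800a000200040008120703))) 
(.lf (nat_lit 9838684) (dlOf (nat_lit 9) (nat_lit 0x5c875802503a600121ca0001a0300be0eb004a874c000660803283ac0003202016a1d3000178100d40eb0058874c00282f00001f06018c1d600a40e9800105e00003c0c03183ac01381d30000e8200350e9800070080018008003400200280008580703)))) 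
(.lf (nat_lit 57025628) (dlOf (nat_lit 2) (nat_lit 0x1aa8f00021a04001400400100019792902)))) 
(.nd (nat_lit 21) (.nd (nat_lit 22) 
(.lf (nat_lit 1208361052) (dlOf (nat_lit 1) (nat_lit 0x4002000200080d1b82))) 
(.lf (nat_lit 1346773084) (dlOf (nat_lit 2) (nat_lit 0x350af801d053000e01ae000220600020029000881)))) 
(.lf (nat_lit 1881546844) (dlOf (nat_lit 6) (nat_lit 0x320e3001603d80007410007038c00380f60001c04000407b0000c01000a0718004838800100f60000406006a0e3002d03d8000001000f80080014002001a0008f40883))))) 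
(.nd (nat_lit 8) (.nd (nat_lit 9) (.nd (nat_lit 10) 
(.lf (nat_lit 1007034588) (dlOf (nat_lit 1) (nat_lit 0x60028150581))) 
(.lf (nat_lit 19807452) (dlOf (nat_lit 1) (nat_lit 0x400289dc481)))) 
(.lf (nat_lit 19806940) (dlOf (nat_lit 1) (nat_lit 0x80080008002000200089db983)))) 
(.nd (nat_lit 22) 
(.lf (nat_lit 2751865820) (dlOf (nat_lit 4) (nat_lit 0x70220025d8040038110012eb02001c08800975018002880))) 
(.lf (nat_lit 38151132) (dlOf (nat_lit 1) (nat_lit 0xc00200020009132882)))))))) (.nd (nat_lit 18) 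
(.nd (nat_lit 26) (.nd (nat_lit 7) (.nd (nat_lit 19) (.nd (nat_lit 28) (.nd (nat_lit 6) 
(.nd (nat_lit 8) (.lf (nat_lit 6040003100) (dlOf (nat_lit 1) (nat_lit 0x4004000200080b1482))) 
(.nd (nat_lit 10) (.lf (nat_lit 20128028) (dlOf (nat_lit 1) (nat_lit 0x200089d0a81))) 
(.lf (nat_lit 3221433628) (dlOf (nat_lit 1) (nat_lit 0x20028116781))))) (.nd (nat_lit 9) 
(.lf (nat_lit 57877596) (dlOf (nat_lit 1) (nat_lit 0x7c00400060009792902))) 
(.lf (nat_lit 6040003164) (dlOf (nat_lit 1) (nat_lit 0x80080008002000200080b1683))))) 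
(.nd (nat_lit 27) (.nd (nat_lit 9) (.nd (nat_lit 30) 
(.lf (nat_lit 2952994844) (dlOf (nat_lit 2) (nat_lit 0x4c01c002e00200000010026000800fc002001e0008080503))) 
(.lf (nat_lit 4026736668) (dlOf (nat_lit 2) (nat_lit 0x4603500a92018080500)))) 
(.lf (nat_lit 2416124444) (dlOf (nat_lit 1) (nat_lit 0x140008090d81)))) (.nd (nat_lit 6) 
(.lf (nat_lit 5234696220) (dlOf (nat_lit 3) (nat_lit 0xc060001d1020002030000e60180a0a80))) 
(.lf (nat_lit 3087212892) (dlOf (nat_lit 1) (nat_lit 0x3400200560008154e02)))))) (.nd (nat_lit 22) 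
(.nd (nat_lit 20) (.lf (nat_lit 27992092) (dlOf (nat_lit 1) (nat_lit 0x4002000a0008d50482))) 
(.nd (nat_lit 24) 
(.lf (nat_lit 45817884) (dlOf (nat_lit 4) (nat_lit 0x1e51f001c2730007937c00349a8001c49c00180c480078100000821c00b49ca0003f0200504e500022698000926c000c7e20003d0800120019360101))) 
(.lf (nat_lit 29040668) (dlOf (nat_lit 1) (nat_lit 0x3780028db0a01))))) (.nd (nat_lit 6) 
(.nd (nat_lit 20) (.lf (nat_lit 21700636) (dlOf (nat_lit 2) (nat_lit 0x3d43000fd018a60a80))) 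
(.lf (nat_lit 22749212) (dlOf (nat_lit 1) (nat_lit 0x40008b20481)))) 
(.lf (nat_lit 8075612) (dlOf (nat_lit 1) (nat_lit 0x2001851ab81)))))) (.nd (nat_lit 8) 
(.nd (nat_lit 10) (.nd (nat_lit 21) (.nd (nat_lit 27) 
(.lf (nat_lit 2416124060) (dlOf (nat_lit 2) (nat_lit 0x13c00a0002f02001a0018090181))) 
(.lf (nat_lit 2550341788) (dlOf (nat_lit 2) (nat_lit 0x13c00a0002f02001a0018090181)))) 
(.nd (nat_lit 6) (.lf (nat_lit 12263580) (dlOf (nat_lit 1) (nat_lit 0x52000402ce00086c0182))) 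
(.lf (nat_lit 19079388) (dlOf (nat_lit 1) (nat_lit 0x40028970581))))) (.nd (nat_lit 12) 
(.lf (nat_lit 3489868956) (dlOf (nat_lit 1) (nat_lit 0xe0018006281))) 
(.lf (nat_lit 3489873052) (dlOf (nat_lit 1) (nat_lit 0x140040004000800c202))))) (.nd (nat_lit 6) 
(.nd (nat_lit 11) (.lf (nat_lit 8069532) (dlOf (nat_lit 1) (nat_lit 0x20018511001))) 
(.lf (nat_lit 39004572) (dlOf (nat_lit 1) (nat_lit 0x20019194e81)))) (.nd (nat_lit 20) 
(.lf (nat_lit 5905785820) (dlOf (nat_lit 1) (nat_lit 0x20028142881))) 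
(.lf (nat_lit 57877468) (dlOf (nat_lit 2) (nat_lit 0xa96c0058604001400400140009792882))))))) 
(.nd (nat_lit 8) (.nd (nat_lit 27) (.nd (nat_lit 11) (.nd (nat_lit 30) (.nd (nat_lit 19) 
(.lf (nat_lit 604184604) (dlOf (nat_lit 3) (nat_lit 0x203f0005481007f0000000000800100080038002006c0008080503))) 
(.lf (nat_lit 4362805276) (dlOf (nat_lit 2) (nat_lit 0x2de01980068c080370008013000200d80008100483)))) 
(.nd (nat_lit 28) (.lf (nat_lit 3288539164) (dlOf (nat_lit 2) (nat_lit 0x4603500b49818080500))) 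
(.lf (nat_lit 5704458268) (dlOf (nat_lit 2) (nat_lit 0x114036021801900ef0050000c8180008008001000200060008090503))))) 
(.nd (nat_lit 7) 
(.lf (nat_lit 1141058588) (dlOf (nat_lit 12) (nat_lit 0x3e804c0002e0201ea026000168100cf0130000b0080770098000560400b004c0002902000a026000138100ee013000094080770098000420403b004c0001e0201e40260000e8100ee0130000700801b8008012c00200280008096003))) 
(.lf (nat_lit 3556981404) (dlOf (nat_lit 1) (nat_lit 0xc40020024000812b682))))) (.nd (nat_lit 10) 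
(.nd (nat_lit 6) (.nd (nat_lit 19) 
(.lf (nat_lit 3691192348) (dlOf (nat_lit 2) (nat_lit 0x3200e8000000808f000801b0002000a00080a0503))) 
(.lf (nat_lit 4228587548) (dlOf (nat_lit 2) (nat_lit 0x2de0190006cc080370008013000200d80008100483)))) 
(.lf (nat_lit 4496498780) (dlOf (nat_lit 5) (nat_lit 0x62601c03c500d8052803c1198016059a007035d000000054301d480700ed8036084601a03c400c00004820061807000b4036001e0180000883005500580000c080ae800800a000200040008090703)))) 
(.nd (nat_lit 7) (.lf (nat_lit 4764935708) (dlOf (nat_lit 1) (nat_lit 0x400400020008093702))) 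
(.lf (nat_lit 2080580764) (dlOf (nat_lit 1) (nat_lit 0x400400020008092b82)))))) (.nd (nat_lit 9) 
(.nd (nat_lit 27) (.nd (nat_lit 7) (.nd (nat_lit 10) 
(.lf (nat_lit 5436023068) (dlOf (nat_lit 1) (nat_lit 0x800400020008090a82))) 
(.lf (nat_lit 1409494300) (dlOf (nat_lit 1) (nat_lit 0x20028006781)))) 
(.lf (nat_lit 2483233180) (dlOf (nat_lit 1) (nat_lit 0x20028090781)))) (.nd (nat_lit 19) 
(.lf (nat_lit 738402588) (dlOf (nat_lit 3) (nat_lit 0xb80d4002ac04007c0a6005002100066828090a80))) 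
(.lf (nat_lit 738926876) (dlOf (nat_lit 1) (nat_lit 0xc00400060008148002))))) (.nd (nat_lit 6) 
(.nd (nat_lit 7) 
(.lf (nat_lit 1141058332) (dlOf (nat_lit 4) (nat_lit 0x37c04c001e60201c0026000e68100de01300072c080038008001000200260008095c03))) 
(.nd (nat_lit 12) 
(.lf (nat_lit 3959629724) (dlOf (nat_lit 2) (nat_lit 0x180000001002002e0028114281))) 
(.lf (nat_lit 3556980636) (dlOf (nat_lit 1) (nat_lit 0x82002812a301))))) (.nd (nat_lit 7) 
(.lf (nat_lit 3556978524) (dlOf (nat_lit 1) (nat_lit 0xc00400040008127782))) 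
(.lf (nat_lit 5301806044) (dlOf (nat_lit 1) (nat_lit 0x20028092881)))))))) (.nd (nat_lit 19) 
(.nd (nat_lit 30) (.nd (nat_lit 20) (.nd (nat_lit 26) (.nd (nat_lit 6) (.nd (nat_lit 21) 
(.lf (nat_lit 2819039260) (dlOf (nat_lit 1) (nat_lit 0x20028160501))) 
(.lf (nat_lit 36118556) (dlOf (nat_lit 1) (nat_lit 0x40019030101)))) 
(.lf (nat_lit 8857820) (dlOf (nat_lit 1) (nat_lit 0x100028514a81)))) (.nd (nat_lit 28) 
(.nd (nat_lit 6) 
(.lf (nat_lit 4362543132) (dlOf (nat_lit 1) (nat_lit 0x280008000400200420008090003))) 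
(.lf (nat_lit 738664540) (dlOf (nat_lit 3) (nat_lit 0x39020803980a80002a0801f80820124040002c018005280a800024100004004000400080d0702)))) 
(.nd (nat_lit 29) (.lf (nat_lit 470229020) (dlOf (nat_lit 1) (nat_lit 0x200280b0501))) 
(.lf (nat_lit 3154583580) (dlOf (nat_lit 1) (nat_lit 0x20018260681)))))) (.nd (nat_lit 21) 
(.nd (nat_lit 23) (.lf (nat_lit 1515548) (dlOf (nat_lit 1) (nat_lit 0x800800ac002002e00080e0b03))) 
(.lf (nat_lit 26681372) (dlOf (nat_lit 1) (nat_lit 0xc00400060018c60502)))) (.nd (nat_lit 6) 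
(.lf (nat_lit 49750044) (dlOf (nat_lit 2) (nat_lit 0x47f80004102000200094a0101))) 
(.lf (nat_lit 41364060) (dlOf (nat_lit 1) (nat_lit 0x100019245301)))))) (.nd (nat_lit 28) 
(.nd (nat_lit 26) (.nd (nat_lit 6) 
(.lf (nat_lit 1074208796) (dlOf (nat_lit 1) (nat_lit 0x8004000200080e0482))) 
(.lf (nat_lit 1611079772) (dlOf (nat_lit 3) (nat_lit 0x39020803980a80002a0801f80820124040002c018005280a800024100004004000400080d0702)))) 
(.nd (nat_lit 7) (.lf (nat_lit 1678188572) (dlOf (nat_lit 1) (nat_lit 0x4004000200181a0002))) 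
(.lf (nat_lit 3959890332) (dlOf (nat_lit 2) (nat_lit 0x500380196404000c00200040008170782))))) 
(.nd (nat_lit 29) (.nd (nat_lit 6) (.nd (nat_lit 9) 
(.lf (nat_lit 1342644252) (dlOf (nat_lit 1) (nat_lit 0x200280b0501))) 
(.lf (nat_lit 1345790492) (dlOf (nat_lit 13) (nat_lit 0x282d80060f02001e16c003048100060b60016a40800285b000b0c04002c2d80057602000c114000500000138c1000b8000009be040044000004d10200480000020b810009000000ff40800605b0007d404002c000000000200360018de8701)))) 
(.lf (nat_lit 1344741468) (dlOf (nat_lit 1) (nat_lit 0x20018980081)))) (.nd (nat_lit 9) 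
(.nd (nat_lit 26) 
(.lf (nat_lit 1879515164) (dlOf (nat_lit 1) (nat_lit 0x1780080130002001a0008190103))) 
(.lf (nat_lit 1946624028) (dlOf (nat_lit 1) (nat_lit 0x8004000200080e0482)))) 
(.lf (nat_lit 4027002396) (dlOf (nat_lit 1) (nat_lit 0x600180f7101))))))) (.nd (nat_lit 20) 
(.nd (nat_lit 8) (.nd (nat_lit 7) (.nd (nat_lit 6) 
(.lf (nat_lit 470753308) (dlOf (nat_lit 1) (nat_lit 0x30008000800200020008170103))) 
(.nd (nat_lit 9) (.lf (nat_lit 19872860) (dlOf (nat_lit 1) (nat_lit 0x400189dc001))) 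
(.lf (nat_lit 61810268) (dlOf (nat_lit 1) (nat_lit 0x18008000400200040009923903))))) 
(.nd (nat_lit 6) (.lf (nat_lit 19872412) (dlOf (nat_lit 1) (nat_lit 0x200189db681))) 
(.nd (nat_lit 10) (.lf (nat_lit 7282908) (dlOf (nat_lit 1) (nat_lit 0x600084b0581))) 
(.lf (nat_lit 2754559196) (dlOf (nat_lit 1) (nat_lit 0x200280fc481)))))) (.nd (nat_lit 21) 
(.nd (nat_lit 26) (.lf (nat_lit 3490652508) (dlOf (nat_lit 1) (nat_lit 0x60018014e81))) 
(.lf (nat_lit 6376333660) (dlOf (nat_lit 1) (nat_lit 0xd20008090e01)))) (.nd (nat_lit 7) 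
(.nd (nat_lit 9) 
(.lf (nat_lit 19865948) (dlOf (nat_lit 1) (nat_lit 0x6f80080094002020e00089d0e03))) 
(.lf (nat_lit 19869532) (dlOf (nat_lit 1) (nat_lit 0x400289d7781)))) 
(.lf (nat_lit 472850908) (dlOf (nat_lit 1) (nat_lit 0x18008000c00200240008b17c83)))))) 
(.nd (nat_lit 6) (.nd (nat_lit 22) (.nd (nat_lit 24) 
(.lf (nat_lit 473899036) (dlOf (nat_lit 9) (nat_lit 0x2859c000c02c001e0150002a830078102005b068400942ce0054166008c0a1804784ec022827202340cd0022066000203100080178004407d002203a801101d001b00e6000c02b002200a80110000000624801e828601f40cd000180200330b301d6850c0f9827607b4139041d066804f032c01200fa00bc075000300d003e005400380000002f16005c0cd0001681001106680005c0803183340002c04003040400181a0000e0b18002850c00102840016138001506c80858334003019400180c2000905b800602bc00300fa001002b0004007800044782a38008015c00216da0008fc0103))) 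
(.lf (nat_lit 20914204) (dlOf (nat_lit 2) (nat_lit 0x47800000082040080002000800089f0102)))) 
(.nd (nat_lit 7) (.lf (nat_lit 23011356) (dlOf (nat_lit 1) (nat_lit 0x7c800203b20008b40482))) 
(.lf (nat_lit 41886876) (dlOf (nat_lit 1) (nat_lit 0x20029242b81))))) (.nd (nat_lit 7) 
(.nd (nat_lit 8) (.lf (nat_lit 52371548) (dlOf (nat_lit 1) (nat_lit 0x8008000400200020009530883))) 
(.lf (nat_lit 2040156) (dlOf (nat_lit 1) (nat_lit 0x500080014002000a0008150683)))) (.nd (nat_lit 9) 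
(.lf (nat_lit 6234332) (dlOf (nat_lit 1) (nat_lit 0x380008420581))) 
(.lf (nat_lit 8336092) (dlOf (nat_lit 1) (nat_lit 0x400200020008518c82)))))))))) (.nd (nat_lit 30) 
(.nd (nat_lit 16) (.nd (nat_lit 18) (.nd (nat_lit 29) (.nd (nat_lit 20) (.nd (nat_lit 19) 
(.nd (nat_lit 6) (.nd (nat_lit 8) (.nd (nat_lit 9) 
(.lf (nat_lit 25305148) (dlOf (nat_lit 2) (nat_lit 0x4591600012018bf0b80))) 
(.lf (nat_lit 4697761340) (dlOf (nat_lit 1) (nat_lit 0x20028093781)))) 
(.lf (nat_lit 46276924) (dlOf (nat_lit 1) (nat_lit 0x11c00400500009380b82)))) 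
(.lf (nat_lit 8530044) (dlOf (nat_lit 1) (nat_lit 0x800400020008514782)))) (.nd (nat_lit 6) 
(.nd (nat_lit 9) (.lf (nat_lit 21635132) (dlOf (nat_lit 1) (nat_lit 0x260008a51681))) 
(.lf (nat_lit 36317756) (dlOf (nat_lit 1) (nat_lit 0xc00200940009075202)))) 
(.lf (nat_lit 50995452) (dlOf (nat_lit 1) (nat_lit 0x200194e7a81))))) (.nd (nat_lit 6) 
(.nd (nat_lit 8) (.nd (nat_lit 9) (.nd (nat_lit 19) 
(.lf (nat_lit 62005308) (dlOf (nat_lit 2) (nat_lit 0x2451e000000080068008003000200440009931203))) 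
(.lf (nat_lit 37363772) (dlOf (nat_lit 1) (nat_lit 0x4004000200190d0002)))) 
(.lf (nat_lit 11674172) (dlOf (nat_lit 1) (nat_lit 0x200080010002000600086c1003)))) 
(.nd (nat_lit 9) (.lf (nat_lit 9576764) (dlOf (nat_lit 1) (nat_lit 0x10008000400200020008574c03))) 
(.lf (nat_lit 20065084) (dlOf (nat_lit 1) (nat_lit 0x200189d5c01))))) (.nd (nat_lit 7) 
(.nd (nat_lit 9) (.lf (nat_lit 28450940) (dlOf (nat_lit 1) (nat_lit 0x400200020008da0482))) 
(.lf (nat_lit 43656828) (dlOf (nat_lit 1) (nat_lit 0x200292a3981)))) 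
(.lf (nat_lit 473571580) (dlOf (nat_lit 2) (nat_lit 0x2014f000a07b800781fc0017a0c00fc00400120008f62902)))))) 
(.nd (nat_lit 7) (.nd (nat_lit 6) (.nd (nat_lit 8) (.nd (nat_lit 28) 
(.lf (nat_lit 537534524) (dlOf (nat_lit 1) (nat_lit 0x880080028002006000080a0c83))) 
(.lf (nat_lit 805969980) (dlOf (nat_lit 2) (nat_lit 0x12056000900980013c1001600080024002001a0008201403)))) 
(.lf (nat_lit 2818712892) (dlOf (nat_lit 1) (nat_lit 0x14002000800080d3282)))) (.nd (nat_lit 8) 
(.lf (nat_lit 2885820540) (dlOf (nat_lit 2) (nat_lit 0x28070002b0040010002000400080b0082))) 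
(.lf (nat_lit 805449084) (dlOf (nat_lit 1) (nat_lit 0x400400020018116c02))))) (.nd (nat_lit 8) 
(.nd (nat_lit 10) 
(.lf (nat_lit 2885820604) (dlOf (nat_lit 2) (nat_lit 0xa0098000000800300080130002000e00080b0383))) 
(.lf (nat_lit 805452988) (dlOf (nat_lit 1) (nat_lit 0x100008004c0020004000811c203)))) 
(.nd (nat_lit 6) (.lf (nat_lit 3154256316) (dlOf (nat_lit 1) (nat_lit 0x2e0028137001))) 
(.lf (nat_lit 805449212) (dlOf (nat_lit 1) (nat_lit 0x20018116f81))))))) (.nd (nat_lit 7) 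
(.nd (nat_lit 23) (.nd (nat_lit 28) (.nd (nat_lit 6) (.nd (nat_lit 26) 
(.lf (nat_lit 134619708) (dlOf (nat_lit 2) (nat_lit 0x280062000000200020028091001))) 
(.lf (nat_lit 201728572) (dlOf (nat_lit 2) (nat_lit 0x280062000000200020028091001)))) 
(.lf (nat_lit 134619516) (dlOf (nat_lit 3) (nat_lit 0x100ec00e880400300760074302001c0008090781)))) 
(.nd (nat_lit 26) (.nd (nat_lit 27) 
(.lf (nat_lit 4563804220) (dlOf (nat_lit 3) (nat_lit 0xe029000e0138028301000700a4004c04e00a0b04002a00080e1681))) 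
(.lf (nat_lit 4698021948) (dlOf (nat_lit 3) (nat_lit 0xe029000e0138011d81000700a4004c04e0047504002a00080e1681)))) 
(.lf (nat_lit 2617647164) (dlOf (nat_lit 1) (nat_lit 0x1b80080014002003e0008130d83))))) 
(.nd (nat_lit 22) (.nd (nat_lit 6) (.nd (nat_lit 19) 
(.lf (nat_lit 9838652) (dlOf (nat_lit 1) (nat_lit 0x68008008000200720008580483))) 
(.lf (nat_lit 59646012) (dlOf (nat_lit 1) (nat_lit 0x60029820601)))) 
(.lf (nat_lit 8791676) (dlOf (nat_lit 3) (nat_lit 0x332610019928c001079e0000e0600283cf00000018513980)))) 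
(.nd (nat_lit 6) (.nd (nat_lit 8) 
(.lf (nat_lit 46538812) (dlOf (nat_lit 2) (nat_lit 0x4af300024c4805f8c100008008001000200040009380003))) 
(.lf (nat_lit 46539068) (dlOf (nat_lit 1) (nat_lit 0x20029380b81)))) 
(.lf (nat_lit 46541692) (dlOf (nat_lit 1) (nat_lit 0x20029385c01)))))) (.nd (nat_lit 8) 
(.nd (nat_lit 6) (.nd (nat_lit 10) 
(.lf (nat_lit 537796796) (dlOf (nat_lit 2) (nat_lit 0x503b0000819800022080174004003200081b0382))) 
(.nd (nat_lit 19) 
(.lf (nat_lit 1009132732) (dlOf (nat_lit 12) (nat_lit 0x901d4000880400600ea000430200180e2000c03a80010410006038800300ea0004004036e0e201af03a8000f810006038800300ea0003d0400300750001e01000b071000581d4000760800441c4001607500050398000dc1800101d40006a040004266000207500000029082c80))) 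
(.lf (nat_lit 69084348) (dlOf (nat_lit 1) (nat_lit 0x8008000c002000400088a2c83))))) 
(.nd (nat_lit 9) (.lf (nat_lit 58073340) (dlOf (nat_lit 1) (nat_lit 0x8400097b7a81))) 
(.nd (nat_lit 12) 
(.lf (nat_lit 57027324) (dlOf (nat_lit 2) (nat_lit 0x4a96c0000004000800400020019795a02))) 
(.lf (nat_lit 19806972) (dlOf (nat_lit 1) (nat_lit 0x200289db981)))))) (.nd (nat_lit 26) 
(.nd (nat_lit 6) (.nd (nat_lit 19) 
(.lf (nat_lit 134619580) (dlOf (nat_lit 3) (nat_lit 0x5c076000360200160260007003800000100470008008400200780008090883))) 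
(.lf (nat_lit 3023292) (dlOf (nat_lit 1) (nat_lit 0x80018200881)))) 
(.lf (nat_lit 40248316) (dlOf (nat_lit 1) (nat_lit 0x200191f2881)))) (.nd (nat_lit 19) 
(.nd (nat_lit 27) 
(.lf (nat_lit 4362478012) (dlOf (nat_lit 8) (nat_lit 0x400440004a02000c05500c20078061001c0308006003200201270000000fc3002700000007a0400480440003b0200240220001d01004d00000005c080620000000000401cc002015e0008090882))) 
(.lf (nat_lit 201728444) (dlOf (nat_lit 3) (nat_lit 0x5c076000360200160260007003800000100470008008400200780008090883)))) 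
(.lf (nat_lit 2753438140) (dlOf (nat_lit 1) (nat_lit 0xe8008008c002000e0008090883)))))))) 
(.nd (nat_lit 7) (.nd (nat_lit 19) (.nd (nat_lit 18) (.nd (nat_lit 27) (.nd (nat_lit 8) 
(.nd (nat_lit 23) 
(.lf (nat_lit 2684559420) (dlOf (nat_lit 1) (nat_lit 0x80080030002000400080a0003))) 
(.lf (nat_lit 25370684) (dlOf (nat_lit 1) (nat_lit 0x18004000a0008c00d82)))) 
(.lf (nat_lit 4563607868) (dlOf (nat_lit 3) (nat_lit 0x405c0003a02000600300015018090b80)))) 
(.nd (nat_lit 26) (.nd (nat_lit 12) 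
(.lf (nat_lit 134422588) (dlOf (nat_lit 1) (nat_lit 0x400400080008020702))) 
(.lf (nat_lit 2818781244) (dlOf (nat_lit 1) (nat_lit 0xf800800b4002005e0008127d03)))) 
(.nd (nat_lit 6) (.lf (nat_lit 201531452) (dlOf (nat_lit 1) (nat_lit 0x400400080008020702))) 
(.lf (nat_lit 472066428) (dlOf (nat_lit 1) (nat_lit 0x8008000400200020008804e83)))))) 
(.nd (nat_lit 20) (.nd (nat_lit 21) 
(.lf (nat_lit 6442917948) (dlOf (nat_lit 1) (nat_lit 0x6a0008220b81))) 
(.lf (nat_lit 48701500) (dlOf (nat_lit 1) (nat_lit 0x80009420601)))) (.nd (nat_lit 8) 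
(.lf (nat_lit 37167164) (dlOf (nat_lit 1) (nat_lit 0x1600090b0601))) 
(.lf (nat_lit 20390204) (dlOf (nat_lit 1) (nat_lit 0x4002000200089d0b82)))))) (.nd (nat_lit 21) 
(.nd (nat_lit 18) (.nd (nat_lit 22) (.nd (nat_lit 26) 
(.lf (nat_lit 134946876) (dlOf (nat_lit 2) (nat_lit 0xe0078039000000000080114002005200080e0d82))) 
(.lf (nat_lit 202055740) (dlOf (nat_lit 2) (nat_lit 0xe0070039000000000080114002005200080e0d82)))) 
(.lf (nat_lit 46866492) (dlOf (nat_lit 3) (nat_lit 0x1039f001d10080039cf800e7404000400400200019380002)))) 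
(.nd (nat_lit 8) (.lf (nat_lit 991292) (dlOf (nat_lit 1) (nat_lit 0x400200020008040782))) 
(.lf (nat_lit 2040124) (dlOf (nat_lit 1) (nat_lit 0x50008000c002000e0008150583))))) 
(.nd (nat_lit 6) (.nd (nat_lit 8) 
(.lf (nat_lit 32188988) (dlOf (nat_lit 2) (nat_lit 0x1531c0005f0200060018ef5201))) 
(.lf (nat_lit 19870012) (dlOf (nat_lit 1) (nat_lit 0x8008001c002000200089d8183)))) (.nd (nat_lit 8) 
(.nd (nat_lit 23) (.lf (nat_lit 53159548) (dlOf (nat_lit 1) (nat_lit 0x400400020009573982))) 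
(.lf (nat_lit 61548156) (dlOf (nat_lit 2) (nat_lit 0x30a3c00029019923980)))) 
(.lf (nat_lit 20654972) (dlOf (nat_lit 1) (nat_lit 0x400080008002000600089d5c03))))))) 
(.nd (nat_lit 6) (.nd (nat_lit 8) (.nd (nat_lit 10) (.nd (nat_lit 12) (.nd (nat_lit 18) 
(.lf (nat_lit 1006837948) (dlOf (nat_lit 1) (nat_lit 0x8002000200080c0382))) 
(.lf (nat_lit 4362543292) (dlOf (nat_lit 2) (nat_lit 0x580b40002404000400400060018090382)))) 
(.lf (nat_lit 8597692) (dlOf (nat_lit 1) (nat_lit 0x4c002001a0008517e82)))) (.nd (nat_lit 9) 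
(.lf (nat_lit 47654076) (dlOf (nat_lit 2) (nat_lit 0x23d78000fea920003e0400040029402c81))) 
(.lf (nat_lit 805514940) (dlOf (nat_lit 2) (nat_lit 0x80000000a0200020018117281))))) 
(.nd (nat_lit 27) (.nd (nat_lit 18) 
(.lf (nat_lit 11739580) (dlOf (nat_lit 2) (nat_lit 0x1995d40007e040050002002000086c0882))) 
(.lf (nat_lit 604447164) (dlOf (nat_lit 1) (nat_lit 0x140008281081)))) (.nd (nat_lit 12) 
(.lf (nat_lit 4697825724) (dlOf (nat_lit 3) (nat_lit 0x7e02f00003010007017800000080078008006800200080008091083))) 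
(.lf (nat_lit 2818781628) (dlOf (nat_lit 1) (nat_lit 0xc00200020008128582)))))) (.nd (nat_lit 11) 
(.nd (nat_lit 8) (.nd (nat_lit 9) 
(.lf (nat_lit 738926844) (dlOf (nat_lit 1) (nat_lit 0x400200020008147a82))) 
(.lf (nat_lit 8333052) (dlOf (nat_lit 2) (nat_lit 0x6c4d6000380200040008513b81)))) 
(.nd (nat_lit 18) 
(.lf (nat_lit 3087213052) (dlOf (nat_lit 15) (nat_lit 0x23801600f800900750000000b818048802c020c01200ea000000168300470000000b008048802c0005204017c0160002702013c00b0001301004200580009408012802c000240400d40160001002009200b0000701005100580001c08041802c000080400a40160000202009e00b0009000000000100430008009000200040008157e03))) 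
(.lf (nat_lit 2752455164) (dlOf (nat_lit 2) (nat_lit 0x81f80000d818017e00))))) (.nd (nat_lit 9) 
(.nd (nat_lit 8) (.lf (nat_lit 3154328828) (dlOf (nat_lit 1) (nat_lit 0x4002815c601))) 
(.lf (nat_lit 37431804) (dlOf (nat_lit 1) (nat_lit 0x4002000200090d4f82)))) (.nd (nat_lit 10) 
(.lf (nat_lit 19872508) (dlOf (nat_lit 1) (nat_lit 0x4002000200089db982))) 
(.lf (nat_lit 19869436) (dlOf (nat_lit 1) (nat_lit 0x2180080114002007800089d7483))))))))) 
(.nd (nat_lit 31) (.nd (nat_lit 26) (.nd (nat_lit 18) (.nd (nat_lit 8) (.nd (nat_lit 21) 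
(.nd (nat_lit 7) (.nd (nat_lit 16) 
(.lf (nat_lit 2013405244) (dlOf (nat_lit 3) (nat_lit 0x1003002854080010018000400000a140400080028051681))) 
(.lf (nat_lit 1880301628) (dlOf (nat_lit 1) (nat_lit 0x2800200020008820602)))) 
(.lf (nat_lit 1208101564) (dlOf (nat_lit 1) (nat_lit 0x400200020008095782)))) (.nd (nat_lit 9) 
(.nd (nat_lit 16) 
(.lf (nat_lit 1344938044) (dlOf (nat_lit 2) (nat_lit 0xa40000008e02002800089a0601))) 
(.lf (nat_lit 1344479292) (dlOf (nat_lit 1) (nat_lit 0x8008000400200020008800003)))) 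
(.lf (nat_lit 1345989180) (dlOf (nat_lit 1) (nat_lit 0xd0008000400200640008e25203))))) 
(.nd (nat_lit 9) (.nd (nat_lit 6) 
(.lf (nat_lit 5773600060) (dlOf (nat_lit 1) (nat_lit 0x3a00280e3281))) 
(.lf (nat_lit 1073881596) (dlOf (nat_lit 3) (nat_lit 0x20029000778100c9014800000080018008005c00200020008017e03)))) 
(.nd (nat_lit 12) 
(.lf (nat_lit 5905721148) (dlOf (nat_lit 2) (nat_lit 0x300940000c04000c002000c0008143e02))) 
(.lf (nat_lit 1342322492) (dlOf (nat_lit 2) (nat_lit 0x40b280007008001000800680020014000800a103)))))) 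
(.nd (nat_lit 7) (.nd (nat_lit 6) (.nd (nat_lit 20) (.nd (nat_lit 21) 
(.lf (nat_lit 1346773052) (dlOf (nat_lit 1) (nat_lit 0x18008000400200020009000603))) 
(.lf (nat_lit 1881546812) (dlOf (nat_lit 1) (nat_lit 0xf0008002c002000e0008f40603)))) 
(.lf (nat_lit 1880498236) (dlOf (nat_lit 1) (nat_lit 0x200089a0601)))) 
(.lf (nat_lit 1745234300) (dlOf (nat_lit 1) (nat_lit 0x7200280e4e81)))) (.nd (nat_lit 16) 
(.nd (nat_lit 8) 
(.lf (nat_lit 5773336764) (dlOf (nat_lit 1) (nat_lit 0x1080080004002000a00080c1703))) 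
(.lf (nat_lit 1346249148) (dlOf (nat_lit 1) (nat_lit 0x80028e81081)))) (.nd (nat_lit 6) 
(.lf (nat_lit 1344742588) (dlOf (nat_lit 2) (nat_lit 0xe0750000d018982c80))) 
(.lf (nat_lit 1345790204) (dlOf (nat_lit 2) (nat_lit 0x30b6000000080070008001400200040008de2903))))))) 
(.nd (nat_lit 8) (.nd (nat_lit 16) (.nd (nat_lit 11) (.nd (nat_lit 19) 
(.lf (nat_lit 1140990012) (dlOf (nat_lit 3) (nat_lit 0x100300123008001001800040000048b0400080028051681))) 
(.nd (nat_lit 28) (.lf (nat_lit 1678385212) (dlOf (nat_lit 1) (nat_lit 0x400200020008201402))) 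
(.lf (nat_lit 1409949756) (dlOf (nat_lit 1) (nat_lit 0x880080028002006000080a0c83))))) 
(.nd (nat_lit 6) (.lf (nat_lit 1543646396) (dlOf (nat_lit 1) (nat_lit 0x40018146301))) 
(.lf (nat_lit 6376270460) (dlOf (nat_lit 2) (nat_lit 0x280e80001c04001c00200020008095402))))) 
(.nd (nat_lit 6) (.nd (nat_lit 7) 
(.lf (nat_lit 5838938172) (dlOf (nat_lit 1) (nat_lit 0x6a0008220b81))) 
(.lf (nat_lit 1275273404) (dlOf (nat_lit 1) (nat_lit 0x1000280c1701)))) 
(.lf (nat_lit 6375548540) (dlOf (nat_lit 1) (nat_lit 0x400200020008003982))))) (.nd (nat_lit 6) 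
(.nd (nat_lit 9) (.nd (nat_lit 16) 
(.lf (nat_lit 1409428796) (dlOf (nat_lit 1) (nat_lit 0x380080018002000a0008006903))) 
(.lf (nat_lit 1543712060) (dlOf (nat_lit 1) (nat_lit 0x18008001c00200220008146903)))) 
(.nd (nat_lit 7) (.lf (nat_lit 6241266492) (dlOf (nat_lit 1) (nat_lit 0x3c00280d5c01))) 
(.lf (nat_lit 6241332156) (dlOf (nat_lit 1) (nat_lit 0x150004000200080d5d02))))) (.nd (nat_lit 9) 
(.nd (nat_lit 7) (.lf (nat_lit 1409494396) (dlOf (nat_lit 1) (nat_lit 0x40028006c01))) 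
(.lf (nat_lit 6375548412) (dlOf (nat_lit 1) (nat_lit 0x20008003681)))) (.nd (nat_lit 10) 
(.lf (nat_lit 1141058556) (dlOf (nat_lit 4) (nat_lit 0x5e0130001000803780980007e04001c04c0003e0200200008095f01))) 
(.lf (nat_lit 1677862908) (dlOf (nat_lit 2) (nat_lit 0x1401c000df0200060028114701)))))))) 
(.nd (nat_lit 6) (.nd (nat_lit 29) (.nd (nat_lit 26) (.nd (nat_lit 8) (.nd (nat_lit 7) 
(.lf (nat_lit 3624017980) (dlOf (nat_lit 1) (nat_lit 0x400280b0001))) 
(.lf (nat_lit 3493732540) (dlOf (nat_lit 1) (nat_lit 0x180080028002000600081b0383)))) 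
(.nd (nat_lit 16) 
(.lf (nat_lit 3491635644) (dlOf (nat_lit 1) (nat_lit 0xe8008008c002000e0008090883))) 
(.lf (nat_lit 3221692860) (dlOf (nat_lit 2) (nat_lit 0x200e0001b018170880))))) (.nd (nat_lit 16) 
(.nd (nat_lit 18) 
(.lf (nat_lit 3288473660) (dlOf (nat_lit 7) (nat_lit 0x1a10080091c0160003e04020c02000810058000f4100ec00800394016000370402000200001b0100850100044002c0006a080634040012400b0023005000000180af00080240002000e0008020703))) 
(.lf (nat_lit 3288735804) (dlOf (nat_lit 2) (nat_lit 0x1a4040000a102000200280d0b81)))) 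
(.nd (nat_lit 18) (.lf (nat_lit 3691192380) (dlOf (nat_lit 1) (nat_lit 0x150004000200080a0902))) 
(.lf (nat_lit 3557236796) (dlOf (nat_lit 1) (nat_lit 0x6dc00201d60008170482)))))) (.nd (nat_lit 8) 
(.nd (nat_lit 18) (.nd (nat_lit 9) 
(.lf (nat_lit 4026671164) (dlOf (nat_lit 7) (nat_lit 0x1a10080091c0160003e04020c02000810058000f4100ec00800394016000370402000200001b0100850100044002c0006a080634040012400b0023005000000180af00080240002000e0008020703))) 
(.lf (nat_lit 3959568956) (dlOf (nat_lit 1) (nat_lit 0x580020010000811b482)))) (.nd (nat_lit 16) 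
(.lf (nat_lit 4026933308) (dlOf (nat_lit 2) (nat_lit 0x1a4040000a102000200280d0b81))) 
(.lf (nat_lit 4095156284) (dlOf (nat_lit 1) (nat_lit 0x5f8008025c00200ae0008070483))))) 
(.nd (nat_lit 18) (.nd (nat_lit 7) 
(.lf (nat_lit 4094828860) (dlOf (nat_lit 1) (nat_lit 0xc00400060008050b82))) 
(.lf (nat_lit 3758236092) (dlOf (nat_lit 1) (nat_lit 0x60008107001)))) (.nd (nat_lit 16) 
(.lf (nat_lit 4228260284) (dlOf (nat_lit 8) (nat_lit 0x400440004a02000c04e00c20078061001c0308006003200201270000000fc3002700000007a0400480440003b0200240220001d01004d00000005c080620000000000401cc002015e0008090882))) 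
(.lf (nat_lit 3959890364) (dlOf (nat_lit 2) (nat_lit 0x200e0001b018170880))))))) (.nd (nat_lit 8) 
(.nd (nat_lit 9) (.nd (nat_lit 16) (.nd (nat_lit 7) 
(.lf (nat_lit 3624018044) (dlOf (nat_lit 2) (nat_lit 0x28074002ba040010002000400080b0082))) 
(.lf (nat_lit 3959564540) (dlOf (nat_lit 1) (nat_lit 0x400400020008114b82)))) (.nd (nat_lit 21) 
(.lf (nat_lit 3494060156) (dlOf (nat_lit 2) (nat_lit 0x861e8001260181b0080))) 
(.lf (nat_lit 3491963004) (dlOf (nat_lit 2) (nat_lit 0x900af002a84dc003da080008004000a0008090082))))) 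
(.nd (nat_lit 16) 
(.lf (nat_lit 3355588220) (dlOf (nat_lit 1) (nat_lit 0x200080004002001800080a9d83))) 
(.nd (nat_lit 26) (.lf (nat_lit 4160960124) (dlOf (nat_lit 1) (nat_lit 0x8004000a00080a9d82))) 
(.lf (nat_lit 3422762620) (dlOf (nat_lit 2) (nat_lit 0x1380c8000f60402d800400d800180a9d82)))))) 
(.nd (nat_lit 16) (.nd (nat_lit 11) (.nd (nat_lit 7) 
(.lf (nat_lit 4228260220) (dlOf (nat_lit 2) (nat_lit 0x280c8010e204002c004000e0008090782))) 
(.lf (nat_lit 3490587132) (dlOf (nat_lit 12) (nat_lit 0x2011200a510200580890052781002d0448029180800982240148a04008c11200a3a02003408c00140458028d01000e8230006c11600a3304001808c00090458028a810002822c01452040058118002608b005140200060460002822c0144e08009c00400020018017802)))) 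
(.nd (nat_lit 10) (.lf (nat_lit 3490064764) (dlOf (nat_lit 1) (nat_lit 0x20018004e81))) 
(.lf (nat_lit 3624283516) (dlOf (nat_lit 1) (nat_lit 0x18008000400200020008146c03))))) 
(.nd (nat_lit 7) (.nd (nat_lit 11) 
(.lf (nat_lit 3221692796) (dlOf (nat_lit 11) (nat_lit 0x28028011340400380800004038002c0048021c418003815800fde04006c01c0070b02004200e00385010021007001c2008010803800e0e04005401c006f602000a00d0034d010005006801a4c08019800802a4002000a0008170783))) 
(.lf (nat_lit 3490130300) (dlOf (nat_lit 1) (nat_lit 0x400400020018004e82)))) (.nd (nat_lit 9) 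
(.lf (nat_lit 3825410556) (dlOf (nat_lit 7) (nat_lit 0x29004802d8000014a20800a401600b8009008200000293c18020802c0148c0400c001600a4502004a00b0051e0100190058028e80801d0008014c00200560008157803))) 
(.lf (nat_lit 3492751356) (dlOf (nat_lit 2) (nat_lit 0x20074000a204000c004002600180f4702))))))))))))

end

end Pool.Agent.Lib.MP_5854e1_co.Cz

namespace Pool.Agent.Lib.MP_5854e1_co.Cz

noncomputable section

noncomputable def tz31 : DT := (.nd (nat_lit 16) (.nd (nat_lit 17) (.nd (nat_lit 18) 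
(.nd (nat_lit 5) (.nd (nat_lit 19) (.nd (nat_lit 6) (.nd (nat_lit 8) (.nd (nat_lit 26) 
(.nd (nat_lit 20) (.nd (nat_lit 11) 
(.lf (nat_lit 671129628) (dlOf (nat_lit 3) (nat_lit 0x9c058005201b00260030014000003b541000e8058007401b0031003001e800003b50100030002001800080b0002))) 
(.lf (nat_lit 43036) (dlOf (nat_lit 1) (nat_lit 0x20008004701)))) (.nd (nat_lit 7) 
(.lf (nat_lit 13672476) (dlOf (nat_lit 1) (nat_lit 0x60018740481))) 
(.lf (nat_lit 11575452) (dlOf (nat_lit 1) (nat_lit 0xc002000400086c0182))))) (.nd (nat_lit 9) 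
(.nd (nat_lit 20) 
(.lf (nat_lit 2755698716) (dlOf (nat_lit 13) (nat_lit 0x450214010000801daa04002e0c800bc0428001001003b500c0228164001c0b100ed302008305900769008006021c03b3c04035016401d730200040b200eb20100c8059006f1c0806782c80378c0402a416401b320201b00b200d930100020590000000804e00080ec8002004200081b0003))) 
(.lf (nat_lit 470851612) (dlOf (nat_lit 1) (nat_lit 0x200181c0501)))) (.nd (nat_lit 7) 
(.lf (nat_lit 201374236) (dlOf (nat_lit 2) (nat_lit 0x501d8029a408006800800280020004000800b283))) 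
(.lf (nat_lit 1006675612) (dlOf (nat_lit 1) (nat_lit 0x60018003a81)))))) (.nd (nat_lit 7) 
(.nd (nat_lit 10) (.nd (nat_lit 26) 
(.lf (nat_lit 1476442396) (dlOf (nat_lit 3) (nat_lit 0xb401e013a00e0007003801200040004a1000a801e010c00e0003003800a001800400080048001000800000008c380a10008004c00205a6000800ab03))) 
(.lf (nat_lit 3691034908) (dlOf (nat_lit 5) (nat_lit 0x1e01200210088017c032007201400420048014002000c000a00680000001408000a00000009c0801b8088014c03200920140038009001a002400e8010006c005002c0000000984000680880054028001400900130028000942002c800800a80020002000800ab03)))) 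
(.lf (nat_lit 3355489564) (dlOf (nat_lit 8) (nat_lit 0x2000a000c0040003b0200090028001d4080038014000e204002400a000700200120050003101000800280018408004001400000040018004000e0018009702)))) 
(.nd (nat_lit 11) (.nd (nat_lit 9) 
(.lf (nat_lit 3556812188) (dlOf (nat_lit 1) (nat_lit 0x40008003601))) 
(.lf (nat_lit 469804956) (dlOf (nat_lit 1) (nat_lit 0x340028004281)))) (.nd (nat_lit 12) 
(.lf (nat_lit 19967388) (dlOf (nat_lit 1) (nat_lit 0x4400289d6d01))) 
(.lf (nat_lit 3489709468) (dlOf (nat_lit 2) (nat_lit 0x221f200020000001e410004800800380020020000800ca83))))))) 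
(.nd (nat_lit 21) (.nd (nat_lit 9) (.nd (nat_lit 22) (.nd (nat_lit 20) 
(.lf (nat_lit 671129820) (dlOf (nat_lit 2) (nat_lit 0x100160000000800d0008002c002001e00080b0483))) 
(.lf (nat_lit 1880137948) (dlOf (nat_lit 1) (nat_lit 0x40018740581)))) (.nd (nat_lit 7) 
(.lf (nat_lit 3493896284) (dlOf (nat_lit 1) (nat_lit 0x200281b0001))) 
(.lf (nat_lit 2755698908) (dlOf (nat_lit 2) (nat_lit 0x1160b2000150181b0480))))) (.nd (nat_lit 7) 
(.lf (nat_lit 4966098524) (dlOf (nat_lit 1) (nat_lit 0x100018003901))) (.nd (nat_lit 11) 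
(.lf (nat_lit 2348852188) (dlOf (nat_lit 2) (nat_lit 0x1e02800d89818002880))) 
(.lf (nat_lit 5033208796) (dlOf (nat_lit 1) (nat_lit 0x100018005e01)))))) (.nd (nat_lit 26) 
(.nd (nat_lit 23) (.nd (nat_lit 7) 
(.lf (nat_lit 1881186396) (dlOf (nat_lit 1) (nat_lit 0x2000400080008e40882))) 
(.lf (nat_lit 19970780) (dlOf (nat_lit 1) (nat_lit 0x2000080004002004c00089db983)))) 
(.nd (nat_lit 8) (.lf (nat_lit 10526812) (dlOf (nat_lit 1) (nat_lit 0x4004000200085f1882))) 
(.lf (nat_lit 10527068) (dlOf (nat_lit 1) (nat_lit 0x4004000200085f8d02))))) (.nd (nat_lit 9) 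
(.nd (nat_lit 27) (.lf (nat_lit 2753601628) (dlOf (nat_lit 1) (nat_lit 0xac00400420008090002))) 
(.lf (nat_lit 471900252) (dlOf (nat_lit 1) (nat_lit 0x5a00286b0401)))) 
(.lf (nat_lit 69249628) (dlOf (nat_lit 1) (nat_lit 0x300018905301))))))) (.nd (nat_lit 28) 
(.nd (nat_lit 21) (.nd (nat_lit 29) (.nd (nat_lit 6) (.nd (nat_lit 20) 
(.lf (nat_lit 55091228) (dlOf (nat_lit 1) (nat_lit 0x10002001000096a0502))) 
(.lf (nat_lit 10002460) (dlOf (nat_lit 4) (nat_lit 0x3748a0019a430010882000dd2280084008000e91400334860020f04000200085a0a81)))) 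
(.lf (nat_lit 21536860) (dlOf (nat_lit 7) (nat_lit 0x37daa0017ed4000df6980097b480033d430008e6f0000f37400239b00009c8b000add1000239b400053ca0003418001bdaa0008ed40001f698003fb4800033080003daa00019010008ed50000f6a0002fb4c002dda40001ed00005750c0003e18002fb54000dda8000aed3000af6900013a860003d3f0000f06000aed5000376a0001fb4c0021da40009ea18000742803680080190002008c0008a40703)))) 
(.nd (nat_lit 26) (.nd (nat_lit 7) 
(.lf (nat_lit 2819137564) (dlOf (nat_lit 1) (nat_lit 0x28008011c002005600081a0503))) 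
(.lf (nat_lit 537436316) (dlOf (nat_lit 2) (nat_lit 0x24817c0005e04000c00200020008090182)))) 
(.nd (nat_lit 20) (.lf (nat_lit 1678286876) (dlOf (nat_lit 2) (nat_lit 0x22044000110181d0480))) 
(.lf (nat_lit 2753077276) (dlOf (nat_lit 2) (nat_lit 0x241fa00a4b818080500)))))) (.nd (nat_lit 20) 
(.nd (nat_lit 23) (.nd (nat_lit 24) 
(.lf (nat_lit 36216860) (dlOf (nat_lit 1) (nat_lit 0x40019050101))) 
(.lf (nat_lit 19439644) (dlOf (nat_lit 1) (nat_lit 0x38000200f000089a0c02)))) 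
(.lf (nat_lit 11051036) (dlOf (nat_lit 24) (nat_lit 0x3fa4c0023d058035682401eb3c800058520003c25804280000040c1c00e342c000d84b008fc228012e10c0186fc401257de007bbe900460000003502000d4000000b10200160000005801003c0000002bc08042614803230960009d04006184b0004c810055c258002600800261480012e0402170960009502011b8520004701008bc290002240800161480010e04022f0a4000860200c985200041010097c258001f808004612c00086040097096000390201a384b0001b010001c2580009408016e12c000440400f00000001402003b8520012c2580000010007000801f000200b40008660483)))) 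
(.nd (nat_lit 6) (.nd (nat_lit 22) 
(.lf (nat_lit 3711004) (dlOf (nat_lit 1) (nat_lit 0x400400020008220a02))) 
(.lf (nat_lit 24682524) (dlOf (nat_lit 3) (nat_lit 0x27c63001261740044000000120300808c6009442e813a609c095800000011848bb0500)))) 
(.lf (nat_lit 12099932) (dlOf (nat_lit 1) (nat_lit 0x200286c0681)))))) (.nd (nat_lit 26) 
(.nd (nat_lit 7) (.nd (nat_lit 20) (.nd (nat_lit 8) 
(.lf (nat_lit 805871644) (dlOf (nat_lit 32) (nat_lit 0x3c06a00042020318054000601a810b8044000800c00300a8005204c0001c02001a026000094084b9815025740a6001204f0f0c026884801301bf8096198e0490dc30240829011c192c08a0d1a044088002181d200f00034076214c036106301a880c00d00f1c06009ca02f0696015821080a4339c04a164a024001d00b81a28054406c02811f40110a2d008025000280f540101af20060db9000000091010a78150854c0a600a605200190278650013448e8098144604b0b5502480ff81200ab408e02c80450db001b01b280d41d180682ba40300d46017804900b43acc0560ca402903e901200b780548010022181a01007ef005019400201a5c00c10d8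000000119b090a02a047d014c3a8c09a201404c06cb025862b012432780901f620470360022800781100778078006a03b103401b07ee80d43ddc06806ba030049101782e580ac0af405202bc02509a1012007480542254022139201003d500501e300202b4000c110c000000111c01980290266013c1f2409623240441112021834e80f4498c076109003301190160148806c095801e08e4000000100c0a8002903a8813c2e6009600400461aa202204cb810c6d70076098a038027c019807200b001e405016de01b051b007852b00000003e3805a40a41e62044008202187d380ec093803603d60000000f06000b02a00b08148117008a152e04402cf021822e00f04cb405a00bc02c042900b800074485c500b4000380405e005a0001b0202de0440000c8100b00220000600805f00b400028040e18088004a04300d601d80004c1802481480f880961db40440dd0021874080ec1210066007202d0062016001c005c0002424008808801da03b0000882032d02200af810c02fc07600010060fc404404bc021813380ec0001e0c09400880000e0200360540a86029025e013c004c09a126604c0d3102581898120002408e05840460ada0228d518110686808609f803c1b5901d83b480d40d68068227a033000c017002d00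b41cf8058048802a0159014014280940038048002c0230b7300d849e005c034c028090400f021400300c7801427cc0000000d4000a205200620260025011426240880f4804307f001d800200b000b802e0000c100364052046402588e1811045300861d7c03b0873019840e80b4000161c05b80a405ae04c027b025800601201eb8088130e04302bb01d814680d408f4066027402d00040160009809400014301b9808807f2043012c01d8000241805400b4000060403f805a0000202011402d000008101c802a004a8134054c092212404402bc021869900ec017c06c05680350033016816a006c00340220000016000e00281d0501))) 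
(.lf (nat_lit 1342742812) (dlOf (nat_lit 2) (nat_lit 0x707cc000f804000c002000200080c0482)))) 
(.nd (nat_lit 31) 
(.lf (nat_lit 1343791132) (dlOf (nat_lit 1) (nat_lit 0x8008000400200020008370003))) 
(.lf (nat_lit 3491274780) (dlOf (nat_lit 2) (nat_lit 0x241e800afd818080500))))) (.nd (nat_lit 10) 
(.lf (nat_lit 1342742684) (dlOf (nat_lit 1) (nat_lit 0x1e00080c0181))) 
(.lf (nat_lit 1344840860) (dlOf (nat_lit 2) (nat_lit 0x4138000880200020018982b81))))) 
(.nd (nat_lit 7) (.nd (nat_lit 22) (.nd (nat_lit 27) 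
(.lf (nat_lit 3557335068) (dlOf (nat_lit 8) (nat_lit 0x166061000a70100b30308005340800e818400e00c000132040094061000980100190300004b80804c018400580c00012b04009406100060300000001000f800800a0002004800081c0503))) 
(.lf (nat_lit 4228423708) (dlOf (nat_lit 8) (nat_lit 0xa012c0314094028003f0167019006800b0000481402a807e233c032000201800b900b00004610001007e011c03200020160000881803280c4026406000c80000001003011901d010c00c407400600001f06000e0310000e81003801d002180c804d006200ee030000068480c0500)))) 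
(.lf (nat_lit 474521628) (dlOf (nat_lit 1) (nat_lit 0x600091a0101)))) (.nd (nat_lit 27) 
(.lf (nat_lit 1409851548) (dlOf (nat_lit 2) (nat_lit 0x9e05f00017818090180))) 
(.lf (nat_lit 470327452) (dlOf (nat_lit 1) (nat_lit 0x1e00080c0181)))))))) (.nd (nat_lit 26) 
(.nd (nat_lit 6) (.nd (nat_lit 20) (.nd (nat_lit 22) (.nd (nat_lit 7) (.nd (nat_lit 19) 
(.lf (nat_lit 1881186364) (dlOf (nat_lit 1) (nat_lit 0x440028e40601))) 
(.lf (nat_lit 134783036) (dlOf (nat_lit 1) (nat_lit 0x600280b1601)))) 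
(.lf (nat_lit 671129788) (dlOf (nat_lit 9) (nat_lit 0x200180006404002000c00030020030006000178100060030000b80800480180005a04003400c0002c0200140060000c01000300300000008009000800a4002000c00080b0383)))) 
(.nd (nat_lit 8) (.nd (nat_lit 23) 
(.lf (nat_lit 3493896252) (dlOf (nat_lit 1) (nat_lit 0x800181b0001))) 
(.lf (nat_lit 12623932) (dlOf (nat_lit 1) (nat_lit 0x4004000200086d0c82)))) 
(.lf (nat_lit 54567228) (dlOf (nat_lit 1) (nat_lit 0x800200040009650b82))))) (.nd (nat_lit 7) 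
(.nd (nat_lit 9) (.nd (nat_lit 22) 
(.lf (nat_lit 3490750524) (dlOf (nat_lit 1) (nat_lit 0x400200020008020702))) 
(.lf (nat_lit 13672508) (dlOf (nat_lit 1) (nat_lit 0x60028740d81)))) 
(.lf (nat_lit 19968572) (dlOf (nat_lit 1) (nat_lit 0x4004000200189d8982)))) (.nd (nat_lit 9) 
(.nd (nat_lit 19) (.lf (nat_lit 11575740) (dlOf (nat_lit 2) (nat_lit 0x445750001f8186c0880))) 
(.lf (nat_lit 58237372) (dlOf (nat_lit 1) (nat_lit 0x2000297c7001)))) 
(.lf (nat_lit 19971004) (dlOf (nat_lit 1) (nat_lit 0x1c00189dbe01)))))) (.nd (nat_lit 7) 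
(.nd (nat_lit 8) (.nd (nat_lit 9) 
(.lf (nat_lit 671129724) (dlOf (nat_lit 4) (nat_lit 0xe202e000ac01002d01700055c0801f80b8002ac0400dc004012c00180b0082))) 
(.lf (nat_lit 20493948) (dlOf (nat_lit 1) (nat_lit 0x80080004002000200089d9d83)))) 
(.nd (nat_lit 10) (.lf (nat_lit 41986428) (dlOf (nat_lit 1) (nat_lit 0x4a0029244e81))) 
(.lf (nat_lit 6442495356) (dlOf (nat_lit 1) (nat_lit 0x20018006c01))))) (.nd (nat_lit 9) 
(.nd (nat_lit 8) 
(.lf (nat_lit 1345888508) (dlOf (nat_lit 2) (nat_lit 0x50a9000383dc0029e08011800400080018e02902))) 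
(.lf (nat_lit 3892356604) (dlOf (nat_lit 1) (nat_lit 0x80028083681)))) (.nd (nat_lit 10) 
(.lf (nat_lit 57191164) (dlOf (nat_lit 1) (nat_lit 0x400200020009795a02))) (.nd (nat_lit 29) 
(.lf (nat_lit 2415961852) (dlOf (nat_lit 2) (nat_lit 0x24048000380200040018003b81))) 
(.lf (nat_lit 4026574588) (dlOf (nat_lit 3) (nat_lit 0xa0350002381000501a8000e00800e0008000400200060008003b83)))))))) 
(.nd (nat_lit 29) (.nd (nat_lit 6) (.nd (nat_lit 11) (.nd (nat_lit 7) (.nd (nat_lit 19) 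
(.lf (nat_lit 1543544892) (dlOf (nat_lit 1) (nat_lit 0x600080b0001))) 
(.lf (nat_lit 201891900) (dlOf (nat_lit 1) (nat_lit 0x600280b1601)))) 
(.lf (nat_lit 470327484) (dlOf (nat_lit 3) (nat_lit 0xb091c006038a0002f04001c24700030e6800887140005c0c0014004001200180c0382)))) 
(.nd (nat_lit 8) (.lf (nat_lit 6509602876) (dlOf (nat_lit 1) (nat_lit 0xe000400700008004702))) 
(.lf (nat_lit 4362123580) (dlOf (nat_lit 1) (nat_lit 0x2000800ab81))))) (.nd (nat_lit 7) 
(.nd (nat_lit 8) (.nd (nat_lit 9) 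
(.lf (nat_lit 1543544956) (dlOf (nat_lit 4) (nat_lit 0xe202e000ae81002d0170005700801f80b8002b60400dc004012c00180b0082))) 
(.lf (nat_lit 3556812412) (dlOf (nat_lit 6) (nat_lit 0x620060002981003500300014808001805c000c02c006c00e004d0060000b42002200380005804001002e0028016005100600005c1800b8008015400200040008003983)))) 
(.lf (nat_lit 3288378748) (dlOf (nat_lit 2) (nat_lit 0x180d40007604002c00200160008006c02)))) 
(.nd (nat_lit 8) (.lf (nat_lit 2348852988) (dlOf (nat_lit 1) (nat_lit 0x20018003b81))) 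
(.lf (nat_lit 469805052) (dlOf (nat_lit 2) (nat_lit 0x62470006f818004700)))))) (.nd (nat_lit 7) 
(.nd (nat_lit 9) (.nd (nat_lit 6) (.nd (nat_lit 8) 
(.lf (nat_lit 2752553020) (dlOf (nat_lit 1) (nat_lit 0x400200020008020702))) 
(.lf (nat_lit 2755699004) (dlOf (nat_lit 5) (nat_lit 0x4702c800070040004164000190201140b20000b810015059000000080028008019c002008800081b0583)))) 
(.lf (nat_lit 5033208188) (dlOf (nat_lit 1) (nat_lit 0x100018004e81)))) (.nd (nat_lit 10) 
(.nd (nat_lit 27) (.lf (nat_lit 1677769532) (dlOf (nat_lit 1) (nat_lit 0x80040008000800bc82))) 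
(.lf (nat_lit 3959470908) (dlOf (nat_lit 2) (nat_lit 0xa0550057e81800bc80)))) 
(.lf (nat_lit 1006679868) (dlOf (nat_lit 1) (nat_lit 0x40040054000800a102))))) (.nd (nat_lit 21) 
(.nd (nat_lit 8) 
(.lf (nat_lit 2755698876) (dlOf (nat_lit 6) (nat_lit 0x2380590000c80812d82c8000620406281640002f0200600b20001601023a059000000080590008028800209be00081b0383))) 
(.nd (nat_lit 10) 
(.lf (nat_lit 738238908) (dlOf (nat_lit 2) (nat_lit 0x381240009204000400200020008001082))) 
(.lf (nat_lit 1946201532) (dlOf (nat_lit 2) (nat_lit 0x2009c0005a04000c00200020008006d02))))) 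
(.nd (nat_lit 19) (.lf (nat_lit 1008771516) (dlOf (nat_lit 1) (nat_lit 0x11e0018f67a81))) 
(.lf (nat_lit 1009295804) (dlOf (nat_lit 1) (nat_lit 0x4400090e1081))))))))) (.nd (nat_lit 30) 
(.nd (nat_lit 19) (.nd (nat_lit 5) (.nd (nat_lit 28) (.nd (nat_lit 20) (.nd (nat_lit 8) 
(.nd (nat_lit 27) (.lf (nat_lit 2684657692) (dlOf (nat_lit 1) (nat_lit 0x1000200160008110482))) 
(.lf (nat_lit 2282004508) (dlOf (nat_lit 1) (nat_lit 0x400400020008100482)))) (.nd (nat_lit 6) 
(.lf (nat_lit 306460) (dlOf (nat_lit 1) (nat_lit 0x20028006781))) 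
(.lf (nat_lit 2885986140) (dlOf (nat_lit 1) (nat_lit 0x25c0028143f81))))) (.nd (nat_lit 6) 
(.nd (nat_lit 9) (.lf (nat_lit 62169116) (dlOf (nat_lit 1) (nat_lit 0x20019960081))) 
(.lf (nat_lit 57975324) (dlOf (nat_lit 3) (nat_lit 0x65ed00032f60019e41000897a4009c60400b8004000400197a8702)))) 
(.lf (nat_lit 9740380) (dlOf (nat_lit 7) (nat_lit 0x6b4760049a390029cee0000d01800768ec005f47200379dc0001983000dd1d800a67700006408001347600259dc0000f820012d1d8010677000073b40001e060005a3b0013cee0000741000e8008000400200040008580703))))) 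
(.nd (nat_lit 26) (.nd (nat_lit 7) (.nd (nat_lit 27) 
(.lf (nat_lit 805609500) (dlOf (nat_lit 7) (nat_lit 0x200a401d004f00e301c0000fc18042014805c809e02d4038000100c0000f420015813c00480700003a04005c04f0001c8100060260000d40800101500006604007c004006a0008140b02))) 
(.lf (nat_lit 402956316) (dlOf (nat_lit 3) (nat_lit 0xc02e0004202001c017000208180b0100)))) 
(.nd (nat_lit 27) 
(.lf (nat_lit 4563706012) (dlOf (nat_lit 1) (nat_lit 0xf00080038002003800080c1283))) 
(.lf (nat_lit 4697923740) (dlOf (nat_lit 1) (nat_lit 0xf00080038002003800080c1283))))) 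
(.nd (nat_lit 6) (.nd (nat_lit 29) 
(.lf (nat_lit 335847452) (dlOf (nat_lit 3) (nat_lit 0xc02e0004202001c017000208180b0100))) 
(.lf (nat_lit 3020202012) (dlOf (nat_lit 1) (nat_lit 0x60008150101)))) 
(.lf (nat_lit 5167685724) (dlOf (nat_lit 2) (nat_lit 0x9b00a0000640800900080094002000c0008100703)))))) 
(.nd (nat_lit 7) (.nd (nat_lit 26) (.nd (nat_lit 8) 
(.lf (nat_lit 31760444) (dlOf (nat_lit 1) (nat_lit 0x8008000800200020008e90003))) (.nd (nat_lit 27) 
(.lf (nat_lit 5100577084) (dlOf (nat_lit 1) (nat_lit 0x6c004005800080d0b82))) 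
(.lf (nat_lit 671392060) (dlOf (nat_lit 1) (nat_lit 0x130008017800200920008188503))))) 
(.nd (nat_lit 6) (.nd (nat_lit 8) 
(.lf (nat_lit 473211964) (dlOf (nat_lit 1) (nat_lit 0x20018dd2881))) 
(.lf (nat_lit 738500924) (dlOf (nat_lit 1) (nat_lit 0x80018090b81)))) 
(.lf (nat_lit 2751768444) (dlOf (nat_lit 1) (nat_lit 0x80018004101))))) (.nd (nat_lit 6) 
(.nd (nat_lit 8) 
(.lf (nat_lit 4697923772) (dlOf (nat_lit 1) (nat_lit 0x300080028002001200080c1703))) 
(.lf (nat_lit 23372220) (dlOf (nat_lit 2) (nat_lit 0xa56140003f0200080018b80881)))) 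
(.nd (nat_lit 9) (.lf (nat_lit 8693244) (dlOf (nat_lit 1) (nat_lit 0x80028513681))) 
(.lf (nat_lit 52732924) (dlOf (nat_lit 1) (nat_lit 0x8008000400200100009572883))))))) 
(.nd (nat_lit 7) (.nd (nat_lit 9) (.nd (nat_lit 23) (.nd (nat_lit 5) (.nd (nat_lit 6) 
(.nd (nat_lit 8) 
(.lf (nat_lit 2754387996) (dlOf (nat_lit 2) (nat_lit 0x187e40044c040004004000c00080e0482))) 
(.lf (nat_lit 135045404) (dlOf (nat_lit 1) (nat_lit 0x4200081b0481)))) 
(.lf (nat_lit 34382940) (dlOf (nat_lit 1) (nat_lit 0x80028fb2901)))) 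
(.lf (nat_lit 21798972) (dlOf (nat_lit 3) (nat_lit 0xe1a88000dc080048d440000004004400400040018a70702)))) 
(.nd (nat_lit 5) (.nd (nat_lit 21) 
(.lf (nat_lit 13410332) (dlOf (nat_lit 1) (nat_lit 0x7e0008720a81))) 
(.lf (nat_lit 11313180) (dlOf (nat_lit 1) (nat_lit 0x60008690481)))) 
(.lf (nat_lit 10264636) (dlOf (nat_lit 1) (nat_lit 0x200285c0d01))))) (.nd (nat_lit 6) 
(.nd (nat_lit 5) (.lf (nat_lit 2753339932) (dlOf (nat_lit 1) (nat_lit 0x400200300008090d82))) 
(.lf (nat_lit 36481596) (dlOf (nat_lit 1) (nat_lit 0x940009075201)))) (.nd (nat_lit 12) 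
(.lf (nat_lit 2752292700) (dlOf (nat_lit 1) (nat_lit 0x9b000405260008003f82))) 
(.lf (nat_lit 8173404) (dlOf (nat_lit 1) (nat_lit 0x800800040020002000851a303)))))) 
(.nd (nat_lit 5) (.nd (nat_lit 6) (.nd (nat_lit 10) 
(.lf (nat_lit 2753339548) (dlOf (nat_lit 2) (nat_lit 0x3f0668021822401141100002f06000c0028090181))) 
(.lf (nat_lit 48014492) (dlOf (nat_lit 2) (nat_lit 0x20a9a000890200040019402b81)))) 
(.nd (nat_lit 8) (.lf (nat_lit 1007460572) (dlOf (nat_lit 1) (nat_lit 0xe0018370581))) 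
(.lf (nat_lit 2752291804) (dlOf (nat_lit 1) (nat_lit 0x130008000c002001a0008002883))))) 
(.nd (nat_lit 6) (.nd (nat_lit 8) 
(.lf (nat_lit 473736380) (dlOf (nat_lit 1) (nat_lit 0xc0008fa2c81))) 
(.lf (nat_lit 53256636) (dlOf (nat_lit 1) (nat_lit 0x800800c000200520009571083)))) 
(.lf (nat_lit 8174332) (dlOf (nat_lit 1) (nat_lit 0x4002851b981))))))) (.nd (nat_lit 31) 
(.nd (nat_lit 5) (.nd (nat_lit 20) (.nd (nat_lit 26) (.nd (nat_lit 7) (.nd (nat_lit 28) 
(.lf (nat_lit 1208262684) (dlOf (nat_lit 2) (nat_lit 0xa009400076040014004001400180b0102))) 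
(.lf (nat_lit 1476698140) (dlOf (nat_lit 1) (nat_lit 0x20028140481)))) 
(.lf (nat_lit 1745133724) (dlOf (nat_lit 2) (nat_lit 0x200dc000b004000c004000200080a2b82)))) 
(.nd (nat_lit 27) 
(.lf (nat_lit 1678024732) (dlOf (nat_lit 7) (nat_lit 0x200a401d004f00e301c0000fc18042014805c809e02d4038000100c0000f420015813c00480700003a04005c04f0001c8100060260000d40800101500006604007c004006a0008140b02))) 
(.lf (nat_lit 2080677916) (dlOf (nat_lit 2) (nat_lit 0xa009400076040014004001400180b0102))))) 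
(.nd (nat_lit 21) (.nd (nat_lit 19) 
(.lf (nat_lit 1343528988) (dlOf (nat_lit 2) (nat_lit 0x9013a004a08e00000028290480))) 
(.nd (nat_lit 26) 
(.lf (nat_lit 5773238300) (dlOf (nat_lit 4) (nat_lit 0x175051000cc2860004a0400101440002181002b08e0000ec0800200080034002002800080b0103))) 
(.lf (nat_lit 6377218076) (dlOf (nat_lit 4) (nat_lit 0x17504d400cc2680004a0400101350002181002b0868000ec0800200080034002002800080b0103))))) 
(.nd (nat_lit 6) 
(.lf (nat_lit 1346150428) (dlOf (nat_lit 5) (nat_lit 0x15c286004813b006c09c802a0334000c19800120cb002003e804001d4001c0e80100073000188a000f0a18009033401100ea0040073000180402720a1814b04ec0b8827204e60cd01c9065815081d40a840e60002f0e003c143002709d8026033400b40fa00da07500560398000443004200080f20002006a0008e60103))) 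
(.lf (nat_lit 1346150492) (dlOf (nat_lit 2) (nat_lit 0x400a60027835c00016080034002001a0008e60882)))))) 
(.nd (nat_lit 29) (.nd (nat_lit 20) (.nd (nat_lit 6) (.nd (nat_lit 7) 
(.lf (nat_lit 1074045500) (dlOf (nat_lit 2) (nat_lit 0x5b0138000000800300080048002001e0008091003))) 
(.lf (nat_lit 1074045372) (dlOf (nat_lit 5) (nat_lit 0xc8052000460200840290001b01003201480005c0801900a400026040014002001c0008090882)))) 
(.lf (nat_lit 5503230076) (dlOf (nat_lit 1) (nat_lit 0x600280c0c81)))) (.nd (nat_lit 6) 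
(.nd (nat_lit 21) (.lf (nat_lit 5773238332) (dlOf (nat_lit 1) (nat_lit 0x6600080b0481))) 
(.lf (nat_lit 1346150460) (dlOf (nat_lit 3) (nat_lit 0x7214c0006d01000b0a5002b81e80017c08001800400020008e60602)))) 
(.lf (nat_lit 1345628924) (dlOf (nat_lit 1) (nat_lit 0x7a0008dd5a01))))) (.nd (nat_lit 6) 
(.nd (nat_lit 7) (.nd (nat_lit 9) 
(.lf (nat_lit 6377218108) (dlOf (nat_lit 1) (nat_lit 0x6600080b0481))) 
(.lf (nat_lit 1946460732) (dlOf (nat_lit 2) (nat_lit 0x5b0138000000800300080048002001e0008091003)))) 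
(.lf (nat_lit 1946460604) (dlOf (nat_lit 5) (nat_lit 0xc8052000460200840290001b01003201480005c0801900a400026040014002001c0008090882)))) 
(.nd (nat_lit 7) (.nd (nat_lit 11) 
(.lf (nat_lit 1946460540) (dlOf (nat_lit 2) (nat_lit 0x8009c010e204000c004002c0018090782))) 
(.lf (nat_lit 2013571452) (dlOf (nat_lit 1) (nat_lit 0xa0028124e81)))) 
(.lf (nat_lit 5905883644) (dlOf (nat_lit 1) (nat_lit 0x20028157e01))))))) (.nd (nat_lit 26) 
(.nd (nat_lit 6) (.nd (nat_lit 7) (.nd (nat_lit 5) (.nd (nat_lit 19) 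
(.lf (nat_lit 3758399516) (dlOf (nat_lit 2) (nat_lit 0x200c80000004001400400180008170102))) 
(.lf (nat_lit 3492585500) (dlOf (nat_lit 2) (nat_lit 0x1879c0044c040004004000c00080e0482)))) 
(.lf (nat_lit 3758399548) (dlOf (nat_lit 1) (nat_lit 0x20028170481)))) (.nd (nat_lit 8) 
(.lf (nat_lit 3491537052) (dlOf (nat_lit 3) (nat_lit 0xa823400081110000bc1000185740000004000800200060008090182))) 
(.lf (nat_lit 3491537308) (dlOf (nat_lit 3) (nat_lit 0x183f80080c0200061e600384818090780))))) 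
(.nd (nat_lit 5) (.nd (nat_lit 8) 
(.lf (nat_lit 3758399580) (dlOf (nat_lit 3) (nat_lit 0x4004801bc002004002b00ddc018170880))) 
(.lf (nat_lit 3489967452) (dlOf (nat_lit 1) (nat_lit 0x60028006a81)))) (.nd (nat_lit 7) 
(.lf (nat_lit 3624184188) (dlOf (nat_lit 1) (nat_lit 0x80028144e81))) 
(.lf (nat_lit 3221529084) (dlOf (nat_lit 4) (nat_lit 0x160000028cc0800100380130e04000401c0097702005c0008127801)))))) 
(.nd (nat_lit 6) (.nd (nat_lit 27) (.nd (nat_lit 5) (.nd (nat_lit 8) 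
(.lf (nat_lit 3288637468) (dlOf (nat_lit 1) (nat_lit 0xc00400040008090002))) 
(.lf (nat_lit 3557079324) (dlOf (nat_lit 1) (nat_lit 0x8002812ab01)))) 
(.lf (nat_lit 3288637500) (dlOf (nat_lit 1) (nat_lit 0x2400400a00008090002)))) (.nd (nat_lit 5) 
(.nd (nat_lit 28) (.lf (nat_lit 3422855196) (dlOf (nat_lit 1) (nat_lit 0x100018120481))) 
(.lf (nat_lit 3691290652) (dlOf (nat_lit 2) (nat_lit 0x100d8002805000000080008002000a0008110482)))) 
(.lf (nat_lit 3959726652) (dlOf (nat_lit 7) (nat_lit 0x21c01c009d402002a00e004d901000d0070026bc0803e80380135c04002c01c009a502008c00e004b8818128b00))))) 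
(.nd (nat_lit 28) (.nd (nat_lit 5) 
(.lf (nat_lit 3959726428) (dlOf (nat_lit 8) (nat_lit 0x4dc0140006402026e00a000318100010050001800801e813c008409a025a00a0002203002400500010c08005813c009409a025e00a000210300050138000e0080380008000800200420008124e03))) 
(.lf (nat_lit 3959726588) (dlOf (nat_lit 7) (nat_lit 0x70807c027a00e00d10060068000000046100f9807c06ae00e02f6006000680080bc0000000220a010800e000108101d801f00a400380003c08093c07c039a00e0000e02022701f00d78038000360801b400400020018127e02)))) 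
(.nd (nat_lit 8) (.lf (nat_lit 3557078108) (dlOf (nat_lit 1) (nat_lit 0x234002000c0008129382))) 
(.lf (nat_lit 4228161884) (dlOf (nat_lit 1) (nat_lit 0x400200020008048b02)))))))))) 
(.nd (nat_lit 5) (.nd (nat_lit 27) (.nd (nat_lit 18) (.nd (nat_lit 8) (.nd (nat_lit 24) 
(.nd (nat_lit 19) (.nd (nat_lit 26) (.nd (nat_lit 28) (.nd (nat_lit 6) 
(.lf (nat_lit 2147655708) (dlOf (nat_lit 3) (nat_lit 0x16b006c012c01a0004a04000e01b000218180b0100))) 
(.lf (nat_lit 8565468) (dlOf (nat_lit 1) (nat_lit 0x400200020008518c82)))) (.nd (nat_lit 22) 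
(.lf (nat_lit 6711058460) (dlOf (nat_lit 1) (nat_lit 0x10008000c00200040008060a83))) 
(.lf (nat_lit 1346543644) (dlOf (nat_lit 1) (nat_lit 0x2000400420008fb0502))))) (.nd (nat_lit 28) 
(.nd (nat_lit 10) (.lf (nat_lit 604151836) (dlOf (nat_lit 1) (nat_lit 0x1e0018040501))) 
(.lf (nat_lit 1141025820) (dlOf (nat_lit 1) (nat_lit 0x8008002000200020008096003)))) 
(.nd (nat_lit 6) 
(.lf (nat_lit 4630683676) (dlOf (nat_lit 2) (nat_lit 0x1700a0005a40800200080018002004c0008060a83))) 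
(.lf (nat_lit 3020075740) (dlOf (nat_lit 1) (nat_lit 0x8a8008014400200ae0008128c83)))))) 
(.nd (nat_lit 20) (.nd (nat_lit 26) 
(.lf (nat_lit 806002716) (dlOf (nat_lit 2) (nat_lit 0x404056018e0098006cc100ab000800b400200b80008210483))) 
(.lf (nat_lit 1678417948) (dlOf (nat_lit 2) (nat_lit 0x404056018e00980068c100ab000800b400200b80008210483)))) 
(.nd (nat_lit 6) (.nd (nat_lit 23) 
(.lf (nat_lit 3842076) (dlOf (nat_lit 1) (nat_lit 0x400400020008230502))) 
(.lf (nat_lit 45785116) (dlOf (nat_lit 5) (nat_lit 0x5ce82013270900712090001041800a9d000028e0e002c3f10001f8300123a00000f8080191d000044e0e004a6b300492080000f42000d8008002000200040009360103)))) 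
(.lf (nat_lit 49982172) (dlOf (nat_lit 1) (nat_lit 0x200194c5901)))))) (.nd (nat_lit 20) 
(.nd (nat_lit 22) (.nd (nat_lit 6) 
(.lf (nat_lit 27435036) (dlOf (nat_lit 1) (nat_lit 0x400200020008ce0482))) 
(.lf (nat_lit 52600924) (dlOf (nat_lit 5) (nat_lit 0x5b04c0003a04001d8240054c1100065fd801a2ca400956500094a7b002b53480002c38015b0480199652000090400c8c1200895948000001002200080030002000c0009550883)))) 
(.nd (nat_lit 19) (.lf (nat_lit 23240732) (dlOf (nat_lit 2) (nat_lit 0x20cbf00b41018b70500))) 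
(.lf (nat_lit 21667868) (dlOf (nat_lit 4) (nat_lit 0x89820015f02000a4c1000825c0005781000893080027004007800200160008a60a82))))) 
(.nd (nat_lit 6) (.nd (nat_lit 22) 
(.lf (nat_lit 26386460) (dlOf (nat_lit 2) (nat_lit 0x41c5000118080008008000400200020008c40503))) 
(.lf (nat_lit 22192156) (dlOf (nat_lit 3) (nat_lit 0x92e60003f020068d1f000467a8006331400ed2e60003d0800060018aa0b01)))) 
(.lf (nat_lit 51552348) (dlOf (nat_lit 2) (nat_lit 0x1b8bc0040a04002c00400380009510082)))))) 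
(.nd (nat_lit 20) (.nd (nat_lit 30) (.nd (nat_lit 6) (.nd (nat_lit 7) 
(.lf (nat_lit 4563575068) (dlOf (nat_lit 2) (nat_lit 0x8c02f000b1818090a80))) 
(.lf (nat_lit 4295139740) (dlOf (nat_lit 1) (nat_lit 0x400400020008090782)))) 
(.lf (nat_lit 4362248540) (dlOf (nat_lit 14) (nat_lit 0x18e05301d7023809f80b4000d20c03100a603a404701250168001a018036814c060408e021002d000328300c602980090144075c08e028002d0002204006e02980a0811c042005a000430601a8053001002880f0011c04d805a0004208010e02d0001e810039029001c0118000480801a40a400d204600011820037029001a8118000400800d80a400680460000f820036029001a81180003c0801000a6027c04700bc016800000180ae000800940020a200008014e03)))) 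
(.nd (nat_lit 6) (.nd (nat_lit 11) 
(.lf (nat_lit 1141023004) (dlOf (nat_lit 1) (nat_lit 0x20008090a81))) 
(.lf (nat_lit 3758274844) (dlOf (nat_lit 1) (nat_lit 0x2000800080020006000812ab03)))) 
(.lf (nat_lit 1344447452) (dlOf (nat_lit 1) (nat_lit 0x20028802881))))) (.nd (nat_lit 6) 
(.nd (nat_lit 7) (.nd (nat_lit 11) 
(.lf (nat_lit 20095260) (dlOf (nat_lit 1) (nat_lit 0x4002000200089d0a82))) 
(.lf (nat_lit 20101404) (dlOf (nat_lit 1) (nat_lit 0x1e80080138002007800089dab03)))) 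
(.lf (nat_lit 43689372) (dlOf (nat_lit 1) (nat_lit 0xe00092a3601)))) (.nd (nat_lit 7) 
(.lf (nat_lit 49980764) (dlOf (nat_lit 1) (nat_lit 0x14002000800094c3402))) 
(.lf (nat_lit 59943900) (dlOf (nat_lit 1) (nat_lit 0x40029845e01))))))) (.nd (nat_lit 21) 
(.nd (nat_lit 29) (.nd (nat_lit 20) (.nd (nat_lit 7) (.nd (nat_lit 28) 
(.lf (nat_lit 6442885148) (dlOf (nat_lit 1) (nat_lit 0x40028200a81))) 
(.lf (nat_lit 4563836956) (dlOf (nat_lit 1) (nat_lit 0xf00080064002006800080f0a83)))) 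
(.lf (nat_lit 1409720476) (dlOf (nat_lit 3) (nat_lit 0x805f000178100120168000b80800c8008001400200260008090183)))) 
(.nd (nat_lit 19) (.nd (nat_lit 22) 
(.lf (nat_lit 26648604) (dlOf (nat_lit 5) (nat_lit 0x56b5a0002902001191d0008c41000ed6b400228d20002708001391d002dad680007c1000956b40003004002c00200060008c50102))) 
(.lf (nat_lit 56008732) (dlOf (nat_lit 1) (nat_lit 0x400400020009710102)))) 
(.lf (nat_lit 22978588) (dlOf (nat_lit 1) (nat_lit 0x40008b40481))))) (.nd (nat_lit 7) 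
(.nd (nat_lit 9) (.nd (nat_lit 19) 
(.lf (nat_lit 6241558556) (dlOf (nat_lit 2) (nat_lit 0xc00300012018110500))) 
(.lf (nat_lit 537829404) (dlOf (nat_lit 9) (nat_lit 0x1807000eda81002b03c002d01d800900ea00f8071005d038000c81bc01600cc00460650086031003f018400180c0009600000ed30c000303c003201d800480ea016a071000903780320198005c0ca00d600000ed208007603b0034819803a860800700ec001206600e9f82002d000006f1c0801b800001bc80400100e00000002016e00281b0001)))) 
(.lf (nat_lit 537305628) (dlOf (nat_lit 1) (nat_lit 0x8008000400200020008090d83)))) 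
(.nd (nat_lit 6) 
(.lf (nat_lit 537305244) (dlOf (nat_lit 3) (nat_lit 0x805f000178100120168000b80800c8008001400200260008090183))) 
(.nd (nat_lit 8) (.lf (nat_lit 537829596) (dlOf (nat_lit 1) (nat_lit 0x200181b0481))) 
(.lf (nat_lit 2751898588) (dlOf (nat_lit 1) (nat_lit 0xc00200020008002882))))))) (.nd (nat_lit 6) 
(.nd (nat_lit 19) (.nd (nat_lit 22) (.nd (nat_lit 24) 
(.lf (nat_lit 2531356) (dlOf (nat_lit 1) (nat_lit 0x10008000c00200040008170a03))) 
(.lf (nat_lit 19308572) (dlOf (nat_lit 1) (nat_lit 0x3780028980a01)))) 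
(.lf (nat_lit 48668700) (dlOf (nat_lit 3) (nat_lit 0x103e0000820400414f4008aa680001f829420100)))) 
(.lf (nat_lit 4104220) (dlOf (nat_lit 1) (nat_lit 0x20018280481)))) (.nd (nat_lit 7) 
(.nd (nat_lit 9) (.lf (nat_lit 57058396) (dlOf (nat_lit 1) (nat_lit 0x100029792901))) 
(.lf (nat_lit 32942684) (dlOf (nat_lit 1) (nat_lit 0x120018f55301)))) (.nd (nat_lit 9) 
(.nd (nat_lit 23) (.lf (nat_lit 3580124) (dlOf (nat_lit 1) (nat_lit 0x20028200481))) 
(.lf (nat_lit 28745948) (dlOf (nat_lit 1) (nat_lit 0x40028da0581)))) 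
(.lf (nat_lit 19839708) (dlOf (nat_lit 1) (nat_lit 0x1600080004002004200089db983)))))))) 
(.nd (nat_lit 26) (.nd (nat_lit 28) (.nd (nat_lit 8) (.nd (nat_lit 19) (.nd (nat_lit 6) 
(.nd (nat_lit 9) 
(.lf (nat_lit 6039969820) (dlOf (nat_lit 2) (nat_lit 0x280d00038204001000200040008080482))) 
(.lf (nat_lit 6576841244) (dlOf (nat_lit 1) (nat_lit 0x1c0018157f01)))) 
(.lf (nat_lit 2819006556) (dlOf (nat_lit 2) (nat_lit 0x2203f00000018150880)))) (.nd (nat_lit 30) 
(.lf (nat_lit 2819268636) (dlOf (nat_lit 1) (nat_lit 0x20028210481))) 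
(.lf (nat_lit 3893010460) (dlOf (nat_lit 1) (nat_lit 0x800182d0481))))) (.nd (nat_lit 6) 
(.nd (nat_lit 30) 
(.lf (nat_lit 2818744604) (dlOf (nat_lit 3) (nat_lit 0x1c02c000e015000700700038030003400c000800400080000004b838001001800206040008004000200080f8002))) 
(.lf (nat_lit 1745002780) (dlOf (nat_lit 7) (nat_lit 0x402800158020030019002400a000558100008050001b20400e8028000cd0200440170004b01000300b800214080020008001000200040008090a83)))) 
(.lf (nat_lit 671261660) (dlOf (nat_lit 1) (nat_lit 0x100028142881))))) (.nd (nat_lit 8) 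
(.nd (nat_lit 18) (.nd (nat_lit 19) 
(.lf (nat_lit 4160921628) (dlOf (nat_lit 2) (nat_lit 0x280140001001800714100010008007400200020008090483))) 
(.lf (nat_lit 5772058652) (dlOf (nat_lit 5) (nat_lit 0x2029e001014e000a0a68005850c003fa10003029e001e14e00110a68007050c003f810003029e002014e00120a68008050c003f610002c29e002014e000e0a68007850c003f410003800200020008060a82)))) 
(.nd (nat_lit 7) 
(.lf (nat_lit 4698054684) (dlOf (nat_lit 1) (nat_lit 0xf00080064002006800080f0a83))) 
(.lf (nat_lit 2550572700) (dlOf (nat_lit 1) (nat_lit 0x80080004002000200080f3a83))))) 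
(.nd (nat_lit 7) (.nd (nat_lit 6) 
(.lf (nat_lit 5772322076) (dlOf (nat_lit 1) (nat_lit 0x20008093081))) 
(.lf (nat_lit 3624313180) (dlOf (nat_lit 1) (nat_lit 0x800008154e81)))) (.nd (nat_lit 29) 
(.lf (nat_lit 402826204) (dlOf (nat_lit 1) (nat_lit 0x20028092881))) 
(.lf (nat_lit 2013438940) (dlOf (nat_lit 1) (nat_lit 0x400400020008092882))))))) (.nd (nat_lit 7) 
(.nd (nat_lit 28) (.nd (nat_lit 29) (.nd (nat_lit 6) (.nd (nat_lit 30) 
(.lf (nat_lit 6643949596) (dlOf (nat_lit 1) (nat_lit 0x20008090481))) 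
(.lf (nat_lit 1275240476) (dlOf (nat_lit 3) (nat_lit 0x16b006c012c01a0004a04000e01b000218180b0100)))) 
(.lf (nat_lit 201498972) (dlOf (nat_lit 1) (nat_lit 0x20028014e01)))) (.nd (nat_lit 30) 
(.lf (nat_lit 2885853212) (dlOf (nat_lit 4) (nat_lit 0x11806000e002f0048017003d80b4009c04800c801a004c00c002c805c019002600b60110058007802b8030010401600620090061002802f000800c000200b800000ed5120093018003b80bc015405c00f602d001a012003b0068014803000b2013004f0088038001401b800400c400000ed40c000e000006f1c0801000080074002000a00080b0003))) 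
(.lf (nat_lit 6107078684) (dlOf (nat_lit 1) (nat_lit 0x10008000c00200040008060a83))))) 
(.nd (nat_lit 18) (.nd (nat_lit 9) (.nd (nat_lit 19) 
(.lf (nat_lit 4764901404) (dlOf (nat_lit 2) (nat_lit 0x1700a0005940800200080018002004c0008060a83))) 
(.lf (nat_lit 6376038428) (dlOf (nat_lit 5) (nat_lit 0x20280001013f000a09f000584d000424100030280001e13f001109f000704d000422100030280002013f001209f000804d00042010002c280002013f000e09f000784d00041e10003800200020008060a82)))) 
(.lf (nat_lit 473604636) (dlOf (nat_lit 4) (nat_lit 0x7046c002c2340067904001c11a002d781001108c8000000800c80080008002000c0008f68703)))) 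
(.nd (nat_lit 6) (.nd (nat_lit 19) (.nd (nat_lit 29) 
(.lf (nat_lit 5838905372) (dlOf (nat_lit 1) (nat_lit 0x40028200a81))) 
(.lf (nat_lit 1007067164) (dlOf (nat_lit 1) (nat_lit 0x80002009a0008160502)))) 
(.lf (nat_lit 473866268) (dlOf (nat_lit 2) (nat_lit 0x1828601120cd00017828fc0100)))) 
(.lf (nat_lit 474393180) (dlOf (nat_lit 2) (nat_lit 0x82be000250200020019165301)))))) 
(.nd (nat_lit 6) (.nd (nat_lit 8) 
(.lf (nat_lit 472031388) (dlOf (nat_lit 1) (nat_lit 0x1a0018800501))) (.nd (nat_lit 9) 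
(.lf (nat_lit 469934492) (dlOf (nat_lit 1) (nat_lit 0x80028016881))) 
(.lf (nat_lit 3959596956) (dlOf (nat_lit 1) (nat_lit 0x24002000c0008114282))))) (.nd (nat_lit 8) 
(.nd (nat_lit 10) (.lf (nat_lit 2885853404) (dlOf (nat_lit 2) (nat_lit 0x78000000390180b0480))) 
(.lf (nat_lit 474129628) (dlOf (nat_lit 1) (nat_lit 0x80080004002000200090e2e03)))) 
(.nd (nat_lit 9) (.lf (nat_lit 5301772764) (dlOf (nat_lit 1) (nat_lit 0x60018091281))) 
(.lf (nat_lit 472818652) (dlOf (nat_lit 1) (nat_lit 0x8008003000200020008b02883))))))))) 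
(.nd (nat_lit 26) (.nd (nat_lit 6) (.nd (nat_lit 18) (.nd (nat_lit 19) (.nd (nat_lit 27) 
(.nd (nat_lit 20) (.nd (nat_lit 24) 
(.lf (nat_lit 1344446524) (dlOf (nat_lit 1) (nat_lit 0x400400020008800002))) 
(.lf (nat_lit 52600892) (dlOf (nat_lit 4) (nat_lit 0x10c12002c5948011aca000b54f60026a69000b085000c608000b2c9c00694f4003aa6800064c580027428004b04000157f20026b27001453d000da9a000153160008e0c009a0029550601)))) 
(.lf (nat_lit 3490881596) (dlOf (nat_lit 1) (nat_lit 0x3000200080008030d02)))) (.nd (nat_lit 7) 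
(.lf (nat_lit 134390076) (dlOf (nat_lit 1) (nat_lit 0xc00200180008014c02))) (.nd (nat_lit 28) 
(.lf (nat_lit 4429357244) (dlOf (nat_lit 1) (nat_lit 0x10008001000200040008090383))) 
(.lf (nat_lit 6308405436) (dlOf (nat_lit 2) (nat_lit 0x60058003dc080008008002000200080008071703)))))) 
(.nd (nat_lit 7) (.nd (nat_lit 20) (.nd (nat_lit 23) 
(.lf (nat_lit 537567292) (dlOf (nat_lit 1) (nat_lit 0x4004000200080b1602))) 
(.lf (nat_lit 42639420) (dlOf (nat_lit 1) (nat_lit 0x400400020009260602)))) (.nd (nat_lit 8) 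
(.nd (nat_lit 9) (.lf (nat_lit 10133564) (dlOf (nat_lit 1) (nat_lit 0x200085b0701))) 
(.lf (nat_lit 3491406396) (dlOf (nat_lit 2) (nat_lit 0x181eb0000e018091000)))) 
(.lf (nat_lit 20619580) (dlOf (nat_lit 1) (nat_lit 0x4002000200089d0b82))))) (.nd (nat_lit 8) 
(.nd (nat_lit 20) (.lf (nat_lit 55223484) (dlOf (nat_lit 1) (nat_lit 0x200296d2c81))) 
(.lf (nat_lit 58369212) (dlOf (nat_lit 1) (nat_lit 0x198008001800200ce00097e2c83)))) 
(.lf (nat_lit 3491406268) (dlOf (nat_lit 3) (nat_lit 0xd03cc000360200701e600007018090880)))))) 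
(.nd (nat_lit 7) (.nd (nat_lit 8) (.nd (nat_lit 20) (.nd (nat_lit 27) 
(.lf (nat_lit 5637578812) (dlOf (nat_lit 1) (nat_lit 0x1c004000a0018111682))) 
(.lf (nat_lit 2819006524) (dlOf (nat_lit 3) (nat_lit 0x4681c800c807e001cc04022a03f00052018150480)))) 
(.nd (nat_lit 9) (.lf (nat_lit 30842940) (dlOf (nat_lit 1) (nat_lit 0x400200020008e50c82))) 
(.lf (nat_lit 32942652) (dlOf (nat_lit 1) (nat_lit 0x20028f55201))))) (.nd (nat_lit 19) 
(.lf (nat_lit 3624313148) (dlOf (nat_lit 3) (nat_lit 0x1302000148050014aa08004c080000000200340008154c01))) 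
(.lf (nat_lit 537829692) (dlOf (nat_lit 2) (nat_lit 0x580000002e0400cc002007600081b0582))))) 
(.nd (nat_lit 29) (.nd (nat_lit 8) 
(.lf (nat_lit 41329852) (dlOf (nat_lit 2) (nat_lit 0x7b73d0001f019242c80))) 
(.lf (nat_lit 1476829628) (dlOf (nat_lit 1) (nat_lit 0x20028201081)))) (.nd (nat_lit 19) 
(.lf (nat_lit 1611047100) (dlOf (nat_lit 3) (nat_lit 0xb0000001940800280fc00000040034002000200080c1702))) 
(.lf (nat_lit 537829564) (dlOf (nat_lit 2) (nat_lit 0x5807600020330000441003080080010002006800081b0383))))))) 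
(.nd (nat_lit 9) (.nd (nat_lit 30) (.nd (nat_lit 8) (.nd (nat_lit 20) 
(.lf (nat_lit 4832010364) (dlOf (nat_lit 1) (nat_lit 0x8008000800200020008080c83))) 
(.nd (nat_lit 22) (.lf (nat_lit 3317884) (dlOf (nat_lit 1) (nat_lit 0x40028200081))) 
(.lf (nat_lit 41066620) (dlOf (nat_lit 1) (nat_lit 0x40029213581))))) (.nd (nat_lit 7) 
(.lf (nat_lit 805481852) (dlOf (nat_lit 2) (nat_lit 0x702a0000b0080068008004800200120008116c03))) 
(.lf (nat_lit 134390268) (dlOf (nat_lit 1) (nat_lit 0x1660008017801))))) (.nd (nat_lit 11) 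
(.nd (nat_lit 7) (.nd (nat_lit 18) 
(.lf (nat_lit 1342349692) (dlOf (nat_lit 2) (nat_lit 0x8714014a204004c00400360008015a82))) 
(.lf (nat_lit 3221660028) (dlOf (nat_lit 1) (nat_lit 0x800200020008170782)))) 
(.lf (nat_lit 3624313340) (dlOf (nat_lit 11) (nat_lit 0x6802a00a5b02008a01500280090011802c008c00c00a5908000803e002c01b800580d4016c00000a510800ee03e00528010028022002100f8013406e008e035007600000293c2801200f8014006e00a4604002c03e003701b8029141001a00f8002806e00a3c0400960370051d01006201f000000080038008016000203520008157803)))) 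
(.nd (nat_lit 8) (.lf (nat_lit 3892493436) (dlOf (nat_lit 1) (nat_lit 0x1c001815c101))) 
(.lf (nat_lit 3490097532) (dlOf (nat_lit 1) (nat_lit 0x20018004e81)))))) (.nd (nat_lit 18) 
(.nd (nat_lit 11) (.nd (nat_lit 8) 
(.lf (nat_lit 671262460) (dlOf (nat_lit 3) (nat_lit 0x1402b00150140000b01000100ac0005604005c00400040018143b82))) 
(.lf (nat_lit 36348924) (dlOf (nat_lit 1) (nat_lit 0x20019072881)))) (.nd (nat_lit 7) 
(.lf (nat_lit 1745005180) (dlOf (nat_lit 6) (nat_lit 0x1402e0003502000c01b000300b00008010001806c001c02e00080160000f83000d00d8002005c0003c08000805a000000200060028095401))) 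
(.nd (nat_lit 19) (.lf (nat_lit 174844) (dlOf (nat_lit 1) (nat_lit 0x20018005a01))) 
(.lf (nat_lit 49982204) (dlOf (nat_lit 2) (nat_lit 0xf6040049d080002a04002c00294c5a01)))))) 
(.nd (nat_lit 7) (.nd (nat_lit 19) 
(.lf (nat_lit 1476830844) (dlOf (nat_lit 22) (nat_lit 0x188028006200c007500000013c1800980500009a0401cc028004200c007e0000001301800a00500009604013c07400a003400140150001201802780e8013c0680004704007602a002b01000011410002010c0114074008c037003501a003000a800b8040000440c0060043004d01d002500dc00c006800aa02a002b01000010c30019810c01240740078037004f01a001580800024018000420c001a03a000e01b80010410019810c00fc074004a037004201a0011805000b8018009e00000020070034021802880e8016806800580200001f040005021801a80e800e006e0044034002a0100000f028003008000780280003b04006203a001301b801d00d00018054002201400440000000e03000800000006c0401f8000000350200660000001a010032021802f00e8019806e0042034002b0100000cc2802a8050000000400b8002001e0008203982))) 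
(.lf (nat_lit 1346283132) (dlOf (nat_lit 1) (nat_lit 0x20028e83981)))) (.nd (nat_lit 8) 
(.lf (nat_lit 8823548) (dlOf (nat_lit 1) (nat_lit 0x20008512101))) 
(.lf (nat_lit 3492717564) (dlOf (nat_lit 1) (nat_lit 0x4002000200080f2882)))))))) (.nd (nat_lit 8) 
(.nd (nat_lit 27) (.nd (nat_lit 29) (.nd (nat_lit 19) (.nd (nat_lit 6) 
(.lf (nat_lit 4362248764) (dlOf (nat_lit 1) (nat_lit 0xe0028018b01))) 
(.lf (nat_lit 3556942076) (dlOf (nat_lit 1) (nat_lit 0x20028102901)))) (.nd (nat_lit 28) 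
(.lf (nat_lit 67805244) (dlOf (nat_lit 3) (nat_lit 0x280000000a0400200000000302000600182f0c81))) 
(.lf (nat_lit 1409982524) (dlOf (nat_lit 1) (nat_lit 0x4004000200080b1602))))) (.nd (nat_lit 6) 
(.nd (nat_lit 9) (.nd (nat_lit 18) 
(.lf (nat_lit 2752684092) (dlOf (nat_lit 1) (nat_lit 0x3000200080008030d02))) 
(.lf (nat_lit 6241558588) (dlOf (nat_lit 1) (nat_lit 0x1c004000a0018111682)))) 
(.lf (nat_lit 2753208892) (dlOf (nat_lit 2) (nat_lit 0x181fd0000e018091000)))) (.nd (nat_lit 11) 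
(.lf (nat_lit 2755829884) (dlOf (nat_lit 2) (nat_lit 0x861fa0011a0181b0080))) 
(.lf (nat_lit 1677895804) (dlOf (nat_lit 1) (nat_lit 0x500080030002000c0008114783)))))) 
(.nd (nat_lit 29) (.nd (nat_lit 19) (.nd (nat_lit 9) 
(.lf (nat_lit 471244860) (dlOf (nat_lit 1) (nat_lit 0x8000182e0001))) 
(.lf (nat_lit 472033852) (dlOf (nat_lit 2) (nat_lit 0x18864000be04000400200020008805202)))) 
(.nd (nat_lit 6) (.lf (nat_lit 472555580) (dlOf (nat_lit 1) (nat_lit 0x200089c0601))) 
(.lf (nat_lit 473604348) (dlOf (nat_lit 2) (nat_lit 0x8152000707b800402480017a0c0140004001e0008f62902))))) 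
(.nd (nat_lit 7) (.nd (nat_lit 6) (.nd (nat_lit 9) 
(.lf (nat_lit 3154812988) (dlOf (nat_lit 7) (nat_lit 0x603800130058000a0100080140002007e001803d00140190006008c005402a000190c0008047000701f80020048000300c002408e001800b0000782000c015800600040000e08002c0900000002007c0008330c81))) 
(.lf (nat_lit 4228031036) (dlOf (nat_lit 2) (nat_lit 0x9c0320021b018018200)))) 
(.lf (nat_lit 6375515772) (dlOf (nat_lit 1) (nat_lit 0x400200020008003982)))) (.nd (nat_lit 12) 
(.lf (nat_lit 2885853372) (dlOf (nat_lit 3) (nat_lit 0x805c0003202007801300360028000001000280080024002001000080b0383))) 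
(.lf (nat_lit 3154292924) (dlOf (nat_lit 2) (nat_lit 0x1811c000a604001000200120008157e82))))))) 
(.nd (nat_lit 29) (.nd (nat_lit 6) (.nd (nat_lit 10) (.nd (nat_lit 20) 
(.lf (nat_lit 201498940) (dlOf (nat_lit 1) (nat_lit 0xc00200180008014c02))) 
(.lf (nat_lit 473080124) (dlOf (nat_lit 1) (nat_lit 0x1680028c90b81)))) 
(.lf (nat_lit 472819004) (dlOf (nat_lit 1) (nat_lit 0x400400020018b03282)))) (.nd (nat_lit 7) 
(.nd (nat_lit 9) (.nd (nat_lit 18) 
(.lf (nat_lit 469934460) (dlOf (nat_lit 2) (nat_lit 0x87140097804004c00400360008015a82))) 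
(.lf (nat_lit 1409720700) (dlOf (nat_lit 1) (nat_lit 0x40028090781)))) 
(.lf (nat_lit 473082748) (dlOf (nat_lit 2) (nat_lit 0x1585940034404000800400360018c95c02)))) 
(.nd (nat_lit 27) 
(.lf (nat_lit 4362248700) (dlOf (nat_lit 16) (nat_lit 0x1ec0ac0080049001f015800e0088000d01008500ac075e02b0003382042f02b004381500fd409207c002b03da011000198280148158000c60400e40ac000610200aa056001a024800280ac00080440004a080036056001d0158001181000c815801f8056000450400c00560024024800100ac000840c0e7805600041020760056037602481b100ac0d800440003f08007c02b0001f01000902b004d80ac0007a0801180ac011802b000118200a20158000000803a000804c800201d60008017e03))) 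
(.lf (nat_lit 469934588) (dlOf (nat_lit 1) (nat_lit 0x400080008002001a0008017e03)))))) 
(.nd (nat_lit 6) (.nd (nat_lit 7) (.nd (nat_lit 11) (.nd (nat_lit 18) 
(.lf (nat_lit 2885853500) (dlOf (nat_lit 2) (nat_lit 0x180000002e04010c002005400080b0582))) 
(.lf (nat_lit 2886115644) (dlOf (nat_lit 3) (nat_lit 0x130200014804c0098008004c080000000200340008154c01)))) 
(.lf (nat_lit 3959601468) (dlOf (nat_lit 1) (nat_lit 0x140020002000811ab82)))) 
(.lf (nat_lit 2753208764) (dlOf (nat_lit 3) (nat_lit 0xd03f0000360200701f800007818090880)))) 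
(.nd (nat_lit 10) (.nd (nat_lit 7) 
(.lf (nat_lit 2755567996) (dlOf (nat_lit 1) (nat_lit 0x2800281b0781))) (.nd (nat_lit 18) 
(.lf (nat_lit 1812111868) (dlOf (nat_lit 1) (nat_lit 0x100018157801))) 
(.lf (nat_lit 2886115836) (dlOf (nat_lit 1) (nat_lit 0x20028157e01))))) (.nd (nat_lit 9) 
(.lf (nat_lit 4096173564) (dlOf (nat_lit 1) (nat_lit 0x4004000200080e3682))) 
(.lf (nat_lit 1677895676) (dlOf (nat_lit 1) (nat_lit 0x1a0008114701))))))))))) (.nd (nat_lit 17) 
(.nd (nat_lit 5) (.nd (nat_lit 6) (.nd (nat_lit 18) (.nd (nat_lit 19) (.nd (nat_lit 8) 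
(.nd (nat_lit 23) (.nd (nat_lit 7) (.nd (nat_lit 9) 
(.lf (nat_lit 2348916764) (dlOf (nat_lit 2) (nat_lit 0xc054000e02800593828020480))) 
(.lf (nat_lit 3493962268) (dlOf (nat_lit 3) (nat_lit 0xf02100033c080078170000e6040010002000400081b0d82)))) 
(.nd (nat_lit 26) (.lf (nat_lit 5100381340) (dlOf (nat_lit 1) (nat_lit 0x400200240008052b82))) 
(.lf (nat_lit 1275176092) (dlOf (nat_lit 1) (nat_lit 0x400400020008092b82))))) (.nd (nat_lit 20) 
(.nd (nat_lit 21) (.lf (nat_lit 63021084) (dlOf (nat_lit 1) (nat_lit 0x4004000200099c0102))) 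
(.nd (nat_lit 24) (.lf (nat_lit 10592284) (dlOf (nat_lit 1) (nat_lit 0xc0018600281))) 
(.lf (nat_lit 27369500) (dlOf (nat_lit 3) (nat_lit 0xd46600b4a020006a33005a0018cd0680))))) 
(.lf (nat_lit 28418076) (dlOf (nat_lit 3) (nat_lit 0x70d840001c0100046648000b40801780080058002000a0008d90603))))) 
(.nd (nat_lit 10) (.nd (nat_lit 11) 
(.lf (nat_lit 2147590428) (dlOf (nat_lit 1) (nat_lit 0x10008000c00200020008090a83))) 
(.lf (nat_lit 1342290204) (dlOf (nat_lit 4) (nat_lit 0x80a70000880800505380004004001c29c00018020004000800ab01)))) 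
(.nd (nat_lit 7) (.lf (nat_lit 20032796) (dlOf (nat_lit 1) (nat_lit 0x400089d6781))) 
(.lf (nat_lit 939632540) (dlOf (nat_lit 1) (nat_lit 0x840028144281)))))) (.nd (nat_lit 21) 
(.nd (nat_lit 29) (.nd (nat_lit 9) (.nd (nat_lit 22) 
(.lf (nat_lit 3221856284) (dlOf (nat_lit 1) (nat_lit 0x30002000400081a0a82))) 
(.lf (nat_lit 21602332) (dlOf (nat_lit 2) (nat_lit 0x9b0180004804001c00400060008a50502)))) 
(.lf (nat_lit 50962972) (dlOf (nat_lit 3) (nat_lit 0x78960004e30200104b1000d2580013441002300080074002001200094d8703)))) 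
(.nd (nat_lit 26) 
(.lf (nat_lit 805937180) (dlOf (nat_lit 1) (nat_lit 0x8008002c002001600081f0a83))) 
(.nd (nat_lit 27) 
(.lf (nat_lit 1678352412) (dlOf (nat_lit 1) (nat_lit 0x8008002c002001600081f0a83))) 
(.lf (nat_lit 3960053788) (dlOf (nat_lit 1) (nat_lit 0x30002000400081a0a82)))))) (.nd (nat_lit 20) 
(.nd (nat_lit 23) 
(.lf (nat_lit 2727964) (dlOf (nat_lit 2) (nat_lit 0x357d0000000800600080008002000200081a0a83))) 
(.nd (nat_lit 24) (.lf (nat_lit 11116572) (dlOf (nat_lit 1) (nat_lit 0x52400200b80008660482))) 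
(.lf (nat_lit 27893788) (dlOf (nat_lit 1) (nat_lit 0x8008000400200020008d40483))))) 
(.nd (nat_lit 8) (.nd (nat_lit 26) 
(.lf (nat_lit 3493437468) (dlOf (nat_lit 5) (nat_lit 0x22070001781000510380004408002881c0001c04001040e0000d02002a0018140b01))) 
(.lf (nat_lit 2755239964) (dlOf (nat_lit 5) (nat_lit 0x221c0001781000510e0000440800288700001e0400104380000d02002a0018140b01)))) 
(.lf (nat_lit 7973148) (dlOf (nat_lit 2) (nat_lit 0x8fb4001c604000400200040008514b82))))))) 
(.nd (nat_lit 30) (.nd (nat_lit 26) (.nd (nat_lit 19) (.nd (nat_lit 20) (.nd (nat_lit 21) 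
(.lf (nat_lit 134586396) (dlOf (nat_lit 1) (nat_lit 0x400200020008080502))) 
(.lf (nat_lit 27631644) (dlOf (nat_lit 2) (nat_lit 0xe07d8029f4080090008002c00200040008d00683)))) 
(.lf (nat_lit 55943196) (dlOf (nat_lit 1) (nat_lit 0xc00296f0101)))) (.nd (nat_lit 7) 
(.nd (nat_lit 20) (.lf (nat_lit 892956) (dlOf (nat_lit 1) (nat_lit 0x400400020008030902))) 
(.lf (nat_lit 22913052) (dlOf (nat_lit 2) (nat_lit 0x4bbc40004e818b40480)))) 
(.lf (nat_lit 8233372) (dlOf (nat_lit 1) (nat_lit 0x20018511001))))) (.nd (nat_lit 27) 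
(.nd (nat_lit 22) (.nd (nat_lit 29) 
(.lf (nat_lit 4362444828) (dlOf (nat_lit 3) (nat_lit 0x4402380544c0802e80cc0292e04036000400020008080502))) 
(.lf (nat_lit 604348444) (dlOf (nat_lit 2) (nat_lit 0x600b0000e4080030008001c002000e0008190603)))) 
(.lf (nat_lit 2756026396) (dlOf (nat_lit 2) (nat_lit 0x6229000310e8001085401a960c0004002000e00081d0a02)))) 
(.nd (nat_lit 28) (.lf (nat_lit 201695260) (dlOf (nat_lit 1) (nat_lit 0x400200020008080502))) 
(.nd (nat_lit 31) 
(.lf (nat_lit 470130716) (dlOf (nat_lit 2) (nat_lit 0x3092400062040084002002c0008050b02))) 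
(.lf (nat_lit 2617614364) (dlOf (nat_lit 3) (nat_lit 0x10c056001a802000a02b00000018100480))))))) 
(.nd (nat_lit 27) (.nd (nat_lit 21) (.nd (nat_lit 22) (.nd (nat_lit 28) 
(.lf (nat_lit 3221594140) (dlOf (nat_lit 2) (nat_lit 0x3204600000018160500))) 
(.lf (nat_lit 1342545948) (dlOf (nat_lit 2) (nat_lit 0x3092400062040084002002c0008050b02)))) 
(.lf (nat_lit 1346740252) (dlOf (nat_lit 1) (nat_lit 0x60009000101)))) (.nd (nat_lit 19) 
(.lf (nat_lit 1881514012) (dlOf (nat_lit 2) (nat_lit 0x441e60003d0200060008f40101))) 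
(.lf (nat_lit 4096630812) (dlOf (nat_lit 1) (nat_lit 0x20018140a81))))) (.nd (nat_lit 26) 
(.nd (nat_lit 28) (.nd (nat_lit 29) 
(.lf (nat_lit 3355811868) (dlOf (nat_lit 4) (nat_lit 0x250040000a10205a002000340098001f8100148080000540401a800200040008120482))) 
(.lf (nat_lit 3892682780) (dlOf (nat_lit 3) (nat_lit 0x1c0000004302003c02400210110000001001a000800f8002000800081b0503)))) 
(.lf (nat_lit 1476763676) (dlOf (nat_lit 2) (nat_lit 0x600b8000e4080030008001c002000e0008190603)))) 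
(.nd (nat_lit 28) (.lf (nat_lit 3959791644) (dlOf (nat_lit 2) (nat_lit 0x3204600000018160500))) 
(.lf (nat_lit 4228227100) (dlOf (nat_lit 3) (nat_lit 0x44020005a080802e80c802bf604036000400020008080502)))))))) 
(.nd (nat_lit 28) (.nd (nat_lit 7) (.nd (nat_lit 8) (.nd (nat_lit 18) (.nd (nat_lit 9) 
(.nd (nat_lit 23) 
(.lf (nat_lit 3960053852) (dlOf (nat_lit 3) (nat_lit 0xde02f000028100080178000100810e800801e8002006a00081a1b03))) 
(.lf (nat_lit 42573916) (dlOf (nat_lit 1) (nat_lit 0x20019260881)))) 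
(.lf (nat_lit 44673628) (dlOf (nat_lit 1) (nat_lit 0x400200020009325302)))) (.nd (nat_lit 21) 
(.nd (nat_lit 19) 
(.lf (nat_lit 6442819676) (dlOf (nat_lit 2) (nat_lit 0x24052000c0030015000000050180060008002c002001600081c1203))) 
(.lf (nat_lit 42836060) (dlOf (nat_lit 1) (nat_lit 0xc80080068002002c0009280883)))) 
(.nd (nat_lit 20) 
(.lf (nat_lit 2753929308) (dlOf (nat_lit 2) (nat_lit 0x3504380005c0800200080084002002200080a1203))) 
(.lf (nat_lit 32874588) (dlOf (nat_lit 1) (nat_lit 0x4a400201b80008f30882)))))) (.nd (nat_lit 26) 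
(.nd (nat_lit 21) 
(.lf (nat_lit 5905686876) (dlOf (nat_lit 8) (nat_lit 0x1fa0000002b0100e8000000154080730000000a804027400000053020206000000098100e7000000048080028000000200400dc002000400080b0682))) 
(.lf (nat_lit 2203996) (dlOf (nat_lit 1) (nat_lit 0x1400400020018150682)))) (.nd (nat_lit 29) 
(.lf (nat_lit 6509666652) (dlOf (nat_lit 8) (nat_lit 0x1fa0000002b0100e8000000154080730000000a804027400000053020206000000098100e7000000048080028000000200400dc002000400080b0682))) 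
(.lf (nat_lit 1677828444) (dlOf (nat_lit 4) (nat_lit 0x10c04c0000e0202140260000501009b013000000080060008011400200500008090683)))))) 
(.nd (nat_lit 8) (.nd (nat_lit 19) (.nd (nat_lit 26) 
(.lf (nat_lit 5905686748) (dlOf (nat_lit 2) (nat_lit 0x6c0000004080400c8002002a00080b0482))) 
(.nd (nat_lit 27) 
(.lf (nat_lit 1677828316) (dlOf (nat_lit 4) (nat_lit 0x7c00980044204000404c0021202000402600102018090480))) 
(.lf (nat_lit 3959529692) (dlOf (nat_lit 4) (nat_lit 0x5c00800035a0401400400019d020002020000cd818090480))))) 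
(.nd (nat_lit 9) (.lf (nat_lit 45981916) (dlOf (nat_lit 1) (nat_lit 0x300029380a01))) 
(.lf (nat_lit 49916636) (dlOf (nat_lit 1) (nat_lit 0x4600294c5901))))) (.nd (nat_lit 20) 
(.nd (nat_lit 26) (.lf (nat_lit 2818679772) (dlOf (nat_lit 1) (nat_lit 0x28002001800080d2882))) 
(.lf (nat_lit 5972796380) (dlOf (nat_lit 1) (nat_lit 0x400400020008142882)))) (.nd (nat_lit 10) 
(.lf (nat_lit 36807644) (dlOf (nat_lit 1) (nat_lit 0x800200020009072882))) 
(.lf (nat_lit 8239068) (dlOf (nat_lit 1) (nat_lit 0x20001851a601))))))) (.nd (nat_lit 18) 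
(.nd (nat_lit 8) (.nd (nat_lit 19) (.nd (nat_lit 7) (.nd (nat_lit 10) 
(.lf (nat_lit 3490816092) (dlOf (nat_lit 2) (nat_lit 0x1e0a00007b818020b00))) 
(.lf (nat_lit 1342288988) (dlOf (nat_lit 1) (nat_lit 0x20004000e0018009382)))) 
(.lf (nat_lit 1344381148) (dlOf (nat_lit 1) (nat_lit 0x20008740581)))) (.nd (nat_lit 26) 
(.nd (nat_lit 9) 
(.lf (nat_lit 1342808156) (dlOf (nat_lit 1) (nat_lit 0x18008012c002002600080d1203))) 
(.lf (nat_lit 1345956444) (dlOf (nat_lit 1) (nat_lit 0x8008000400200040008e25303)))) 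
(.nd (nat_lit 7) 
(.lf (nat_lit 470392924) (dlOf (nat_lit 1) (nat_lit 0x18008012c002002600080d1203))) 
(.lf (nat_lit 6375973084) (dlOf (nat_lit 2) (nat_lit 0x1d802800013018031980)))))) (.nd (nat_lit 31) 
(.nd (nat_lit 26) (.nd (nat_lit 27) 
(.lf (nat_lit 805413212) (dlOf (nat_lit 4) (nat_lit 0x10c04c0000e0202140260000501009b013000000080060008011400200500008090683))) 
(.lf (nat_lit 1476501852) (dlOf (nat_lit 1) (nat_lit 0x400200020008010902)))) 
(.lf (nat_lit 1946263900) (dlOf (nat_lit 1) (nat_lit 0x160028014e81)))) (.nd (nat_lit 7) 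
(.nd (nat_lit 29) 
(.lf (nat_lit 2416025948) (dlOf (nat_lit 2) (nat_lit 0x18044000440200020018014e01))) 
(.lf (nat_lit 4026638684) (dlOf (nat_lit 2) (nat_lit 0x5403500029818014e00)))) 
(.lf (nat_lit 4095845340) (dlOf (nat_lit 1) (nat_lit 0x4004000200080e2882)))))) (.nd (nat_lit 32) 
(.nd (nat_lit 8) (.nd (nat_lit 11) (.nd (nat_lit 29) 
(.lf (nat_lit 3492126812) (dlOf (nat_lit 2) (nat_lit 0x350450000b40800200080084002002200080a1203))) 
(.lf (nat_lit 1881514076) (dlOf (nat_lit 1) (nat_lit 0x100008004800200180008f40883)))) 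
(.lf (nat_lit 3492657244) (dlOf (nat_lit 1) (nat_lit 0x8008000c002000200080fa783)))) 
(.lf (nat_lit 3557138780) (dlOf (nat_lit 1) (nat_lit 0xd40008130901)))) (.nd (nat_lit 26) 
(.nd (nat_lit 27) 
(.lf (nat_lit 4563771484) (dlOf (nat_lit 3) (nat_lit 0xf00350082015804580a402b004e011a02100b300d804e00640002a1c016006a016e0290092013803f806c0002410022c00400a000180d0702))) 
(.nd (nat_lit 29) 
(.lf (nat_lit 4697989212) (dlOf (nat_lit 3) (nat_lit 0xf00350082015804580a402b004e011a02100b300d804e00640002a1c016006a016e0290092013803f806c0002410022c00400a000180d0702))) 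
(.lf (nat_lit 5234860124) (dlOf (nat_lit 2) (nat_lit 0xb00180000c818100700))))) 
(.lf (nat_lit 5838839900) (dlOf (nat_lit 2) (nat_lit 0x24052000c00500150000000a8180060008002c002001600081c1203)))))))) 
(.nd (nat_lit 6) (.nd (nat_lit 30) (.nd (nat_lit 18) (.nd (nat_lit 20) (.nd (nat_lit 8) 
(.nd (nat_lit 26) (.nd (nat_lit 21) 
(.lf (nat_lit 25272380) (dlOf (nat_lit 2) (nat_lit 0x83510004f818bf0b80))) 
(.lf (nat_lit 35758140) (dlOf (nat_lit 1) (nat_lit 0x380019010001)))) (.nd (nat_lit 7) 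
(.nd (nat_lit 27) 
(.lf (nat_lit 2483134524) (dlOf (nat_lit 4) (nat_lit 0x16801a001e0000001b82000b00e800600200006a0805c405402a2028000200e8003006000f8020003a00c000c0040000003802b0008007800200680008020703))) 
(.lf (nat_lit 2348916796) (dlOf (nat_lit 4) (nat_lit 0x16801a001e0000001b82000b00f000600240006a0805c405402a2028000200f0003006000f8020003a00c000c0048000003802b0008007800200680008020703)))) 
(.lf (nat_lit 604086460) (dlOf (nat_lit 1) (nat_lit 0x40008010381))))) (.nd (nat_lit 10) 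
(.nd (nat_lit 26) 
(.lf (nat_lit 805413180) (dlOf (nat_lit 4) (nat_lit 0x1f8144007407400025040082051001f01d0000901000580e8000380400b800400700008090582))) 
(.lf (nat_lit 6509666620) (dlOf (nat_lit 1) (nat_lit 0x80080044002000a00080b0583)))) 
(.nd (nat_lit 11) 
(.lf (nat_lit 2818680124) (dlOf (nat_lit 1) (nat_lit 0x280080030002001c00080d3283))) 
(.lf (nat_lit 6576778556) (dlOf (nat_lit 1) (nat_lit 0x400400020008146902)))))) (.nd (nat_lit 21) 
(.nd (nat_lit 19) (.nd (nat_lit 24) 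
(.lf (nat_lit 2752618556) (dlOf (nat_lit 3) (nat_lit 0x401ca0000a0200340e500000018020700))) 
(.lf (nat_lit 17932348) (dlOf (nat_lit 1) (nat_lit 0xc0028900c81)))) (.nd (nat_lit 9) 
(.lf (nat_lit 471441468) (dlOf (nat_lit 2) (nat_lit 0xa099800080080008008000800200020008300c83))) 
(.lf (nat_lit 2753143356) (dlOf (nat_lit 1) (nat_lit 0x40018091001))))) (.nd (nat_lit 7) 
(.nd (nat_lit 9) (.lf (nat_lit 3776572) (dlOf (nat_lit 1) (nat_lit 0x2800200100008220c02))) 
(.lf (nat_lit 7971388) (dlOf (nat_lit 1) (nat_lit 0x40028511501)))) (.nd (nat_lit 12) 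
(.lf (nat_lit 3252412) (dlOf (nat_lit 1) (nat_lit 0x10008000c00200060008200383))) 
(.lf (nat_lit 7975100) (dlOf (nat_lit 1) (nat_lit 0x8000400ae0008517e82))))))) (.nd (nat_lit 22) 
(.nd (nat_lit 21) (.nd (nat_lit 25) (.nd (nat_lit 27) 
(.lf (nat_lit 6509928508) (dlOf (nat_lit 3) (nat_lit 0xe80d40110064008002c003200c00068054003c024004400a002d00000005040003800000000040050002004e0008160702))) 
(.lf (nat_lit 738566204) (dlOf (nat_lit 1) (nat_lit 0x3c004000c00080b0482)))) (.nd (nat_lit 7) 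
(.lf (nat_lit 34447420) (dlOf (nat_lit 1) (nat_lit 0x400400020008fb0002))) 
(.lf (nat_lit 43360700) (dlOf (nat_lit 2) (nat_lit 0x26bfc0000602000200092a1081))))) 
(.nd (nat_lit 7) (.nd (nat_lit 10) 
(.lf (nat_lit 37068860) (dlOf (nat_lit 1) (nat_lit 0x160009090601))) 
(.lf (nat_lit 69575740) (dlOf (nat_lit 1) (nat_lit 0x800400040008b42882)))) 
(.lf (nat_lit 2754457276) (dlOf (nat_lit 1) (nat_lit 0x1400280f7281))))) (.nd (nat_lit 23) 
(.nd (nat_lit 7) (.nd (nat_lit 10) 
(.lf (nat_lit 2756026428) (dlOf (nat_lit 5) (nat_lit 0x8456000e22a000b11480028854002461000144540012229000410a8004881800308ac00184540008229000510a8004842000308ac00184540012229000910a8004802000100080028002000400081d0c03))) 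
(.lf (nat_lit 38642748) (dlOf (nat_lit 1) (nat_lit 0x20019132881)))) 
(.lf (nat_lit 23437756) (dlOf (nat_lit 2) (nat_lit 0x2e110001f818b80880)))) (.nd (nat_lit 20) 
(.lf (nat_lit 46506044) (dlOf (nat_lit 1) (nat_lit 0x20029380001))) 
(.lf (nat_lit 30777404) (dlOf (nat_lit 2) (nat_lit 0x86468000000400d8004000a0008e50c82))))))) 
(.nd (nat_lit 29) (.nd (nat_lit 31) (.nd (nat_lit 7) (.nd (nat_lit 8) 
(.lf (nat_lit 1345430588) (dlOf (nat_lit 1) (nat_lit 0x40018bb2881))) 
(.lf (nat_lit 1409396028) (dlOf (nat_lit 1) (nat_lit 0x400400580018006902)))) (.nd (nat_lit 8) 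
(.nd (nat_lit 9) (.lf (nat_lit 5503033532) (dlOf (nat_lit 1) (nat_lit 0x60018031701))) 
(.lf (nat_lit 1342289596) (dlOf (nat_lit 1) (nat_lit 0x2002800a001)))) 
(.lf (nat_lit 5774090684) (dlOf (nat_lit 1) (nat_lit 0x1000180f7a81))))) (.nd (nat_lit 18) 
(.nd (nat_lit 19) (.nd (nat_lit 8) 
(.lf (nat_lit 3490816060) (dlOf (nat_lit 3) (nat_lit 0x4016a0000a0200340b500000018020700))) 
(.lf (nat_lit 3221332284) (dlOf (nat_lit 2) (nat_lit 0x8e02000012818090580)))) (.nd (nat_lit 9) 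
(.lf (nat_lit 3221856316) (dlOf (nat_lit 7) (nat_lit 0x1602f000a781000b0178004140800180fc000aa04004805c0005402002602f0002781000a01780000c0801c000800b8002005400081a1403))) 
(.lf (nat_lit 3491340860) (dlOf (nat_lit 1) (nat_lit 0x40018091001))))) (.nd (nat_lit 8) 
(.nd (nat_lit 22) (.lf (nat_lit 3288703036) (dlOf (nat_lit 1) (nat_lit 0x4002000200080c1402))) 
(.lf (nat_lit 3494223932) (dlOf (nat_lit 5) (nat_lit 0x842c000e215000b10a000288000026410001442a001221400041000004c4180030858001842a000821400051000004c0200030858001842a001221400091000004bc2000100080028002000400081d0c03)))) 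
(.lf (nat_lit 3492652860) (dlOf (nat_lit 1) (nat_lit 0x400280f3e01)))))) (.nd (nat_lit 8) 
(.nd (nat_lit 18) (.nd (nat_lit 19) 
(.lf (nat_lit 1677828156) (dlOf (nat_lit 2) (nat_lit 0xe0260065c018090000))) (.nd (nat_lit 21) 
(.lf (nat_lit 3892944956) (dlOf (nat_lit 3) (nat_lit 0x502380006008004011c0001e040060004003a00082a0c82))) 
(.lf (nat_lit 4096368700) (dlOf (nat_lit 1) (nat_lit 0x120028100481))))) (.nd (nat_lit 32) 
(.lf (nat_lit 1610981436) (dlOf (nat_lit 1) (nat_lit 0x3c004000c00080b0482))) 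
(.lf (nat_lit 5905948732) (dlOf (nat_lit 3) (nat_lit 0xe80e00110064008002b003200c00068054003c022004400a002d00000005440003800000000040050002004e0008160702))))) 
(.nd (nat_lit 10) (.nd (nat_lit 32) (.nd (nat_lit 27) 
(.lf (nat_lit 1677828412) (dlOf (nat_lit 4) (nat_lit 0x1f8144007407400026040082051001f01d0000941000580e8000380400b800400700008090582))) 
(.lf (nat_lit 3959529788) (dlOf (nat_lit 2) (nat_lit 0x8e02000013018090580)))) (.nd (nat_lit 11) 
(.lf (nat_lit 5905686844) (dlOf (nat_lit 1) (nat_lit 0x80080044002000a00080b0583))) 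
(.lf (nat_lit 5972797756) (dlOf (nat_lit 1) (nat_lit 0x20028144c81))))) (.nd (nat_lit 7) 
(.lf (nat_lit 4093748540) (dlOf (nat_lit 1) (nat_lit 0x20018003281))) 
(.lf (nat_lit 1812049340) (dlOf (nat_lit 1) (nat_lit 0x8008000400200020008146d03)))))))) 
(.nd (nat_lit 26) (.nd (nat_lit 8) (.nd (nat_lit 24) (.nd (nat_lit 30) (.nd (nat_lit 9) 
(.nd (nat_lit 10) 
(.lf (nat_lit 805412988) (dlOf (nat_lit 2) (nat_lit 0x378055013802980eb0138040c094006004301d601b803b80c405e80520386024017800b00e80048060c020035a00801c8003000930700038008001c002000e0008090083))) 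
(.lf (nat_lit 6576778364) (dlOf (nat_lit 1) (nat_lit 0x20028146081)))) 
(.lf (nat_lit 8758908) (dlOf (nat_lit 3) (nat_lit 0x19928c004c79e0000e04001c3cf00000018513980)))) 
(.nd (nat_lit 21) (.nd (nat_lit 29) 
(.lf (nat_lit 3221332092) (dlOf (nat_lit 8) (nat_lit 0x5e015407480a4019004f002b0268035012c075406c036202d01b1014800c8098018404402ee01e01a900980df804406c4020025a00801b1003000930800ed0144023409c012404d01d701a802a809c013004c0092023006f01100ca007c064403c019c012000ff8b0180028803f0138022c09a03100350082013803c809800f4044032401f017b00f0007f8480f68144026c09c014204d01e801a803d009c01c004c00a8023006c01100dc007c06dc03c001fd14005a05101a202700c9013400a406a09f202704da0130118008c08c4044000a01f000300f007a8048003f82c005804e000a026000fa8200c302880020098038403c001e706008c0018090081))) 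
(.lf (nat_lit 5905686652) (dlOf (nat_lit 1) (nat_lit 0x200280b0081)))) 
(.lf (nat_lit 1344381052) (dlOf (nat_lit 1) (nat_lit 0x320018740481))))) (.nd (nat_lit 20) 
(.nd (nat_lit 19) (.nd (nat_lit 21) 
(.lf (nat_lit 21340284) (dlOf (nat_lit 1) (nat_lit 0x2c0008a30c81))) 
(.lf (nat_lit 19243132) (dlOf (nat_lit 1) (nat_lit 0x400200020008970482)))) 
(.lf (nat_lit 23961724) (dlOf (nat_lit 1) (nat_lit 0x2cc00400a40008b80082)))) (.nd (nat_lit 7) 
(.nd (nat_lit 9) 
(.lf (nat_lit 59875452) (dlOf (nat_lit 2) (nat_lit 0x252d800000080030008000c002000a0009840283))) 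
(.lf (nat_lit 20294268) (dlOf (nat_lit 1) (nat_lit 0x280080008002000800089d5403)))) 
(.lf (nat_lit 20561148) (dlOf (nat_lit 1) (nat_lit 0x1800189dc601)))))) (.nd (nat_lit 7) 
(.nd (nat_lit 10) (.nd (nat_lit 18) 
(.lf (nat_lit 37857660) (dlOf (nat_lit 1) (nat_lit 0x200090d4e81))) (.nd (nat_lit 21) 
(.lf (nat_lit 3490556284) (dlOf (nat_lit 1) (nat_lit 0x580080004002000e0008004e83))) 
(.lf (nat_lit 36546940) (dlOf (nat_lit 1) (nat_lit 0x20019074e81))))) (.nd (nat_lit 9) 
(.lf (nat_lit 20557180) (dlOf (nat_lit 1) (nat_lit 0x4002000200089d6c02))) 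
(.lf (nat_lit 108412) (dlOf (nat_lit 1) (nat_lit 0x1c0018004101))))) (.nd (nat_lit 9) 
(.nd (nat_lit 12) (.lf (nat_lit 4026638844) (dlOf (nat_lit 1) (nat_lit 0x800400060008017e02))) 
(.lf (nat_lit 8237564) (dlOf (nat_lit 1) (nat_lit 0x400400060018518682)))) (.nd (nat_lit 11) 
(.lf (nat_lit 38118396) (dlOf (nat_lit 1) (nat_lit 0x400200420009132882))) 
(.lf (nat_lit 5234600956) (dlOf (nat_lit 1) (nat_lit 0x400400020008055f02))))))) (.nd (nat_lit 9) 
(.nd (nat_lit 27) (.nd (nat_lit 29) 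
(.lf (nat_lit 6509666428) (dlOf (nat_lit 1) (nat_lit 0x200280b0081))) 
(.lf (nat_lit 1677828220) (dlOf (nat_lit 2) (nat_lit 0x378055013802980eb0138040c094006004301d601b803b80c405e80520386024017800b00e80048060c020035a00801c80030008d0700038008001c002000e0008090083)))) 
(.nd (nat_lit 28) (.nd (nat_lit 30) 
(.lf (nat_lit 738304124) (dlOf (nat_lit 2) (nat_lit 0x500fc0000004000800400020018090282))) 
(.lf (nat_lit 3959529596) (dlOf (nat_lit 8) (nat_lit 0x5e015407480a4019004f002b0268035012c075406c036202d01b1014800c8098018404402ee01e01a900980df804406c4020025a00801b10030008d0800ed0144023409c012404d01d701a802a809c013004c0092023006f01100ca007c064403c019c012000f68b0180028803f0138022c09a03100350082013803c809800f4044032401f017b00f0007b0480f68144026c09c014204d01e801a803d009c01c004c00a8023006c01100dc007c06dc03c001eb14005a05101a202700c9013400a406a09f202704da0130118008c08c4044000a01f000300f007a8048003d42c005804e000a026000f18200c302880020098038403c001d206008c0018090081))))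 
(.nd (nat_lit 11) 
(.lf (nat_lit 5301706876) (dlOf (nat_lit 4) (nat_lit 0xc0390002881000301c80013c0800a804c00066040048004002c0008030c82))) 
(.lf (nat_lit 469870716) (dlOf (nat_lit 1) (nat_lit 0x40018004781)))))) (.nd (nat_lit 18) 
(.nd (nat_lit 28) (.nd (nat_lit 27) 
(.lf (nat_lit 5972797180) (dlOf (nat_lit 1) (nat_lit 0x400400020008143b82))) 
(.lf (nat_lit 201434876) (dlOf (nat_lit 3) (nat_lit 0x802080011c0800281040007004001c004001e0018003b82)))) 
(.nd (nat_lit 7) (.lf (nat_lit 473015932) (dlOf (nat_lit 2) (nat_lit 0x4a16500007018bb3980))) 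
(.lf (nat_lit 6375449596) (dlOf (nat_lit 2) (nat_lit 0xd014001fbc080098008012400200140008002883))))) 
(.nd (nat_lit 7) (.lf (nat_lit 6375712380) (dlOf (nat_lit 1) (nat_lit 0x400200020008003982))) 
(.nd (nat_lit 8) (.lf (nat_lit 2886051580) (dlOf (nat_lit 1) (nat_lit 0x100028143b81))) 
(.lf (nat_lit 473801724) (dlOf (nat_lit 1) (nat_lit 0x400400380018fa2882)))))))))) (.nd (nat_lit 5) 
(.nd (nat_lit 19) (.nd (nat_lit 28) (.nd (nat_lit 18) (.nd (nat_lit 26) (.nd (nat_lit 8) 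
(.nd (nat_lit 20) (.nd (nat_lit 22) 
(.lf (nat_lit 3355680796) (dlOf (nat_lit 1) (nat_lit 0x200080c0701))) 
(.lf (nat_lit 63152156) (dlOf (nat_lit 1) (nat_lit 0xc00299e0101)))) (.nd (nat_lit 6) 
(.lf (nat_lit 9674908) (dlOf (nat_lit 1) (nat_lit 0x40028571281))) 
(.lf (nat_lit 24354908) (dlOf (nat_lit 2) (nat_lit 0x609e40005a0400bc004001a0018b91202))))) 
(.nd (nat_lit 10) (.nd (nat_lit 20) 
(.lf (nat_lit 671326492) (dlOf (nat_lit 1) (nat_lit 0x20018154001))) 
(.lf (nat_lit 20160796) (dlOf (nat_lit 1) (nat_lit 0x4002000200089d0a82)))) 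
(.lf (nat_lit 3221466396) (dlOf (nat_lit 1) (nat_lit 0x400200020008116782))))) (.nd (nat_lit 8) 
(.nd (nat_lit 27) (.nd (nat_lit 10) 
(.lf (nat_lit 2755895324) (dlOf (nat_lit 1) (nat_lit 0x200081b0001))) 
(.lf (nat_lit 2751702044) (dlOf (nat_lit 1) (nat_lit 0x60028002881)))) (.nd (nat_lit 7) 
(.lf (nat_lit 2349047836) (dlOf (nat_lit 1) (nat_lit 0x20028090001))) 
(.lf (nat_lit 2349047964) (dlOf (nat_lit 5) (nat_lit 0x50088000ac04000401e0004002000a0290002007800380340007e0c003c0440002f0200120008090181))))) 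
(.nd (nat_lit 6) 
(.lf (nat_lit 5570273564) (dlOf (nat_lit 1) (nat_lit 0x8008009c002000200080d0a83))) 
(.nd (nat_lit 20) 
(.lf (nat_lit 1677959516) (dlOf (nat_lit 13) (nat_lit 0x2c6055015102700030128055806e001c0310160009000680400770014021e0060003489017502a80b101380324098008204a016401b8010009005d402400ae01001c3005007c8018000d02803fc0aa01fe04e00ff01b807f804804f80140104006000328600b202b00af815403b80a6029a04e010302600a880dc01d005e00b002b005d01200ae804803bc02003bc00a00f400400878018000883802bc0ac02d405500ec02980af013804080980052047016101b800a00d001c405e009002b002b0148027809005a402401d801001cc00500900020040000c0004222010a054004d026804200d80158060002402400230088000903005c015001f809a017204900b501b004380c0011804800f8011003400800008c4004281500003e0401f00a8001803000250088000781802980c00001a0400ec0600000a02008c04c010101a8000001008f800809c40020d340008124e03))) 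
(.lf (nat_lit 2752749916) (dlOf (nat_lit 1) (nat_lit 0x400400020008048d02))))))) (.nd (nat_lit 22) 
(.nd (nat_lit 6) (.nd (nat_lit 7) (.nd (nat_lit 20) 
(.lf (nat_lit 738697244) (dlOf (nat_lit 3) (nat_lit 0x110814c078009e045603502180108065007c085803a043c0000001907002a01b80008c0801e00080004002000200080e0503))) 
(.lf (nat_lit 1548316) (dlOf (nat_lit 1) (nat_lit 0x4002000200080e0b02)))) 
(.lf (nat_lit 537370780) (dlOf (nat_lit 1) (nat_lit 0x400200020008090182)))) (.nd (nat_lit 7) 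
(.lf (nat_lit 1678221660) (dlOf (nat_lit 2) (nat_lit 0x4042000120181a0680))) 
(.lf (nat_lit 604480476) (dlOf (nat_lit 1) (nat_lit 0xd00080044002002800082d2883))))) 
(.nd (nat_lit 10) (.nd (nat_lit 6) 
(.lf (nat_lit 23568540) (dlOf (nat_lit 2) (nat_lit 0x1b694000db418006d7f00008c0c005c004001e0018b80182))) 
(.nd (nat_lit 21) (.lf (nat_lit 21471324) (dlOf (nat_lit 1) (nat_lit 0x8008000400200020008a40703))) 
(.lf (nat_lit 48734300) (dlOf (nat_lit 5) (nat_lit 0x3aa4000074080165524000300400eebc0005954900002020017aa480000808018800800f800200300009420883))))) 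
(.nd (nat_lit 20) (.lf (nat_lit 40346716) (dlOf (nat_lit 1) (nat_lit 0x200291f2901))) 
(.lf (nat_lit 39298140) (dlOf (nat_lit 1) (nat_lit 0x120029192901))))))) (.nd (nat_lit 7) 
(.nd (nat_lit 26) (.nd (nat_lit 29) (.nd (nat_lit 20) (.nd (nat_lit 27) 
(.lf (nat_lit 4563640348) (dlOf (nat_lit 1) (nat_lit 0x58008001c002000a00080b0103))) 
(.lf (nat_lit 4697858076) (dlOf (nat_lit 1) (nat_lit 0x58008001c002000a00080b0103)))) 
(.lf (nat_lit 1343463452) (dlOf (nat_lit 2) (nat_lit 0x3827400ce604000400200020008250682)))) 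
(.nd (nat_lit 6) (.nd (nat_lit 9) 
(.lf (nat_lit 2953027612) (dlOf (nat_lit 1) (nat_lit 0x9400180b0481))) 
(.lf (nat_lit 5234730524) (dlOf (nat_lit 1) (nat_lit 0x40008005c002002200080d3703)))) 
(.lf (nat_lit 805806428) (dlOf (nat_lit 2) (nat_lit 0x4042000120181a0680))))) (.nd (nat_lit 6) 
(.nd (nat_lit 8) (.nd (nat_lit 20) 
(.lf (nat_lit 469999644) (dlOf (nat_lit 2) (nat_lit 0xb62470008e818020480))) 
(.lf (nat_lit 471048220) (dlOf (nat_lit 1) (nat_lit 0x40018250681)))) 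
(.lf (nat_lit 1543741724) (dlOf (nat_lit 1) (nat_lit 0x20018154001)))) (.nd (nat_lit 18) 
(.lf (nat_lit 469999708) (dlOf (nat_lit 3) (nat_lit 0x67891c0028404003c48e000000200020028020b01))) 
(.lf (nat_lit 1009229916) (dlOf (nat_lit 5) (nat_lit 0xb038c00380ec0001d0400140e3000303b00007010004038c00b01c4001607600002030030071801a01d800000080160004000200090a0882)))))) 
(.nd (nat_lit 8) (.nd (nat_lit 6) (.nd (nat_lit 10) (.nd (nat_lit 18) 
(.lf (nat_lit 2483265692) (dlOf (nat_lit 3) (nat_lit 0x2400780010008011803c0007e04001000400100018090182))) 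
(.lf (nat_lit 1409786012) (dlOf (nat_lit 1) (nat_lit 0x400200020008090182)))) 
(.lf (nat_lit 5637383324) (dlOf (nat_lit 1) (nat_lit 0x9a00280d2b81)))) (.nd (nat_lit 20) 
(.lf (nat_lit 805806300) (dlOf (nat_lit 2) (nat_lit 0x200b40012a040024004003800081a0482))) 
(.lf (nat_lit 471310556) (dlOf (nat_lit 1) (nat_lit 0x18008002c002000200082e0583))))) 
(.nd (nat_lit 29) (.nd (nat_lit 6) (.nd (nat_lit 18) 
(.lf (nat_lit 2416157084) (dlOf (nat_lit 1) (nat_lit 0xc00400300018090782))) 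
(.lf (nat_lit 1409786268) (dlOf (nat_lit 1) (nat_lit 0x640028090781)))) 
(.lf (nat_lit 5704491996) (dlOf (nat_lit 1) (nat_lit 0x4004000200080d2882)))) (.nd (nat_lit 6) 
(.nd (nat_lit 30) (.lf (nat_lit 805544348) (dlOf (nat_lit 1) (nat_lit 0x20028126881))) 
(.lf (nat_lit 4026769820) (dlOf (nat_lit 2) (nat_lit 0x4b0064000000200080008090781)))) 
(.lf (nat_lit 6174254044) (dlOf (nat_lit 1) (nat_lit 0x80080004002000200080d2883)))))))) 
(.nd (nat_lit 18) (.nd (nat_lit 25) (.nd (nat_lit 26) (.nd (nat_lit 22) (.nd (nat_lit 7) 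
(.nd (nat_lit 20) (.nd (nat_lit 28) 
(.lf (nat_lit 537632796) (dlOf (nat_lit 2) (nat_lit 0x12c052001178180e0480))) 
(.lf (nat_lit 1342939164) (dlOf (nat_lit 1) (nat_lit 0xd400200620008110a82)))) 
(.lf (nat_lit 10199068) (dlOf (nat_lit 1) (nat_lit 0x39c00200f000085c0902)))) 
(.lf (nat_lit 19643804) (dlOf (nat_lit 3) (nat_lit 0x10b01000cb01000c5808006540800e8008000c002003c00089dca83)))) 
(.nd (nat_lit 24) (.lf (nat_lit 4956188) (dlOf (nat_lit 1) (nat_lit 0x14004000c00082d0102))) 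
(.lf (nat_lit 21733404) (dlOf (nat_lit 2) (nat_lit 0x170748007f00802880080114002000c0008a60a83))))) 
(.nd (nat_lit 27) (.nd (nat_lit 6) (.nd (nat_lit 31) 
(.lf (nat_lit 1410048028) (dlOf (nat_lit 2) (nat_lit 0x12c052001178180e0480))) 
(.lf (nat_lit 3557531676) (dlOf (nat_lit 3) (nat_lit 0x3a0610032a01000801a00190c0800b8008005c00200120008240683)))) 
(.lf (nat_lit 67876700) (dlOf (nat_lit 1) (nat_lit 0x2001833a301)))) (.nd (nat_lit 21) 
(.lf (nat_lit 470523932) (dlOf (nat_lit 1) (nat_lit 0xd400200620008110a82))) 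
(.lf (nat_lit 472621084) (dlOf (nat_lit 1) (nat_lit 0x200189d0601)))))) (.nd (nat_lit 22) 
(.nd (nat_lit 6) (.lf (nat_lit 60530716) (dlOf (nat_lit 1) (nat_lit 0x1400400020009890502))) 
(.nd (nat_lit 10) 
(.lf (nat_lit 59482204) (dlOf (nat_lit 2) (nat_lit 0xa067d004733e002e9998013ccca00bc594004d273002a1350000161c005000400080019800882))) 
(.lf (nat_lit 34317404) (dlOf (nat_lit 1) (nat_lit 0x1400200100008fb2902))))) (.nd (nat_lit 6) 
(.lf (nat_lit 48998812) (dlOf (nat_lit 1) (nat_lit 0x400200020009464e82))) (.nd (nat_lit 7) 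
(.lf (nat_lit 38511708) (dlOf (nat_lit 1) (nat_lit 0x400200020009132902))) 
(.lf (nat_lit 38511580) (dlOf (nat_lit 1) (nat_lit 0x104002006c0009132882))))))) (.nd (nat_lit 6) 
(.nd (nat_lit 20) (.nd (nat_lit 23) (.nd (nat_lit 26) 
(.lf (nat_lit 1024028) (dlOf (nat_lit 1) (nat_lit 0x58002001c0008050b02))) 
(.lf (nat_lit 470786076) (dlOf (nat_lit 2) (nat_lit 0x2039000230181a0500)))) (.nd (nat_lit 8) 
(.nd (nat_lit 21) (.lf (nat_lit 59744284) (dlOf (nat_lit 1) (nat_lit 0x100029820101))) 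
(.lf (nat_lit 11509788) (dlOf (nat_lit 1) (nat_lit 0x8002000600086b0502)))) 
(.lf (nat_lit 42968348) (dlOf (nat_lit 1) (nat_lit 0x200192a3081))))) (.nd (nat_lit 22) 
(.nd (nat_lit 21) 
(.lf (nat_lit 10461212) (dlOf (nat_lit 4) (nat_lit 0xd1444000940404d4a220003f0203005110001e8185e0b00))) 
(.lf (nat_lit 20946972) (dlOf (nat_lit 2) (nat_lit 0x18000000208189f0100)))) (.nd (nat_lit 23) 
(.lf (nat_lit 23044124) (dlOf (nat_lit 2) (nat_lit 0x61e9000838080008008000800200060008b50483))) 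
(.lf (nat_lit 14655516) (dlOf (nat_lit 1) (nat_lit 0x280018770101)))))) (.nd (nat_lit 7) 
(.nd (nat_lit 30) (.nd (nat_lit 10) 
(.lf (nat_lit 473931868) (dlOf (nat_lit 4) (nat_lit 0x9415f00510a60026035c001c1ac0000b08008615f004406b80002410021857c01101ae0000004012a0028fc0881))) 
(.lf (nat_lit 37725276) (dlOf (nat_lit 1) (nat_lit 0x8002000400090d2902)))) (.nd (nat_lit 11) 
(.lf (nat_lit 1881120860) (dlOf (nat_lit 1) (nat_lit 0x5d0008000400201a40008e20083))) 
(.lf (nat_lit 3492788316) (dlOf (nat_lit 3) (nat_lit 0x807b0010a81000a03d8008000800100080068002000200080fa783))))) 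
(.nd (nat_lit 12) (.nd (nat_lit 10) (.nd (nat_lit 20) 
(.lf (nat_lit 7315676) (dlOf (nat_lit 1) (nat_lit 0x600284b0581))) 
(.lf (nat_lit 6267100) (dlOf (nat_lit 1) (nat_lit 0x60028420581)))) 
(.lf (nat_lit 42968284) (dlOf (nat_lit 1) (nat_lit 0x200192a2e01)))) (.nd (nat_lit 8) 
(.lf (nat_lit 8368860) (dlOf (nat_lit 1) (nat_lit 0x400200020008518c82))) 
(.lf (nat_lit 3492788700) (dlOf (nat_lit 1) (nat_lit 0xc0002000800080fb282))))))))) 
(.nd (nat_lit 26) (.nd (nat_lit 18) (.nd (nat_lit 8) (.nd (nat_lit 9) (.nd (nat_lit 19) 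
(.nd (nat_lit 20) (.nd (nat_lit 27) (.nd (nat_lit 29) 
(.lf (nat_lit 1342414908) (dlOf (nat_lit 3) (nat_lit 0x2522490098124003188fc045447a007e2310114115808a08a0002044001ac1f001260f4809d871c033c37a00020000000a0d00850e38000000801d8008015000200920008020703))) 
(.lf (nat_lit 6174253116) (dlOf (nat_lit 1) (nat_lit 0xc004000200180d0002)))) (.nd (nat_lit 28) 
(.lf (nat_lit 134455356) (dlOf (nat_lit 2) (nat_lit 0x4880c400b4022000000400100028020701))) 
(.lf (nat_lit 3087245372) (dlOf (nat_lit 1) (nat_lit 0x28008001000200020008160703))))) 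
(.nd (nat_lit 6) (.lf (nat_lit 13869116) (dlOf (nat_lit 1) (nat_lit 0xc0028750001))) 
(.nd (nat_lit 23) (.lf (nat_lit 3383420) (dlOf (nat_lit 1) (nat_lit 0x40028200081))) 
(.lf (nat_lit 62103676) (dlOf (nat_lit 1) (nat_lit 0x3400400780009950c02)))))) (.nd (nat_lit 21) 
(.nd (nat_lit 22) 
(.lf (nat_lit 59482172) (dlOf (nat_lit 4) (nat_lit 0xa33e800799f00040ccc001a665000c2ca0008964c003c9cc001c4d4000b088000e33d80081990003cb24001e4e500122698002742800419ec002ccc8001459200042728006934c0011c140088004000e0009800602))) 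
(.lf (nat_lit 46899260) (dlOf (nat_lit 1) (nat_lit 0x400400040019380002)))) (.nd (nat_lit 7) 
(.lf (nat_lit 7053372) (dlOf (nat_lit 1) (nat_lit 0x4c00184b0001))) 
(.lf (nat_lit 19640508) (dlOf (nat_lit 1) (nat_lit 0x600289d7e81)))))) (.nd (nat_lit 6) 
(.nd (nat_lit 29) (.nd (nat_lit 7) 
(.lf (nat_lit 23306812) (dlOf (nat_lit 1) (nat_lit 0x60008b81001))) 
(.lf (nat_lit 8631996) (dlOf (nat_lit 1) (nat_lit 0x800800080020002000851a003)))) (.nd (nat_lit 27) 
(.lf (nat_lit 4026769980) (dlOf (nat_lit 3) (nat_lit 0x49808002800160001c0400d200b00006018091000))) 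
(.lf (nat_lit 671326780) (dlOf (nat_lit 1) (nat_lit 0x40018158b01))))) (.nd (nat_lit 10) 
(.lf (nat_lit 20163196) (dlOf (nat_lit 1) (nat_lit 0x48004000200189d5402))) (.nd (nat_lit 12) 
(.lf (nat_lit 53192316) (dlOf (nat_lit 1) (nat_lit 0x4002000a0009573982))) 
(.lf (nat_lit 8631932) (dlOf (nat_lit 1) (nat_lit 0x20028519d81))))))) (.nd (nat_lit 7) 
(.nd (nat_lit 6) (.nd (nat_lit 10) (.nd (nat_lit 28) 
(.lf (nat_lit 537108796) (dlOf (nat_lit 2) (nat_lit 0x2000001e9018014c00))) 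
(.lf (nat_lit 805544252) (dlOf (nat_lit 2) (nat_lit 0x40a8004a10200300008124c01)))) 
(.lf (nat_lit 20163900) (dlOf (nat_lit 1) (nat_lit 0x8c00289d6901)))) (.nd (nat_lit 9) 
(.nd (nat_lit 10) (.lf (nat_lit 33270140) (dlOf (nat_lit 1) (nat_lit 0x40008f54e81))) 
(.lf (nat_lit 3490426236) (dlOf (nat_lit 1) (nat_lit 0x40028006c01)))) 
(.lf (nat_lit 6040036220) (dlOf (nat_lit 1) (nat_lit 0x400180b2581))))) (.nd (nat_lit 9) 
(.nd (nat_lit 20) (.nd (nat_lit 21) 
(.lf (nat_lit 4026769852) (dlOf (nat_lit 2) (nat_lit 0x3e00000000018090880))) 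
(.lf (nat_lit 23306684) (dlOf (nat_lit 1) (nat_lit 0x20028b80881)))) 
(.lf (nat_lit 43229628) (dlOf (nat_lit 1) (nat_lit 0xa8004001a00092a1082)))) (.nd (nat_lit 6) 
(.lf (nat_lit 19639228) (dlOf (nat_lit 1) (nat_lit 0xe200289d5d01))) 
(.lf (nat_lit 134985724) (dlOf (nat_lit 1) (nat_lit 0x3e00180fa601))))))) (.nd (nat_lit 21) 
(.nd (nat_lit 8) (.nd (nat_lit 29) (.nd (nat_lit 6) (.nd (nat_lit 7) 
(.lf (nat_lit 13606972) (dlOf (nat_lit 1) (nat_lit 0x48008006c00200b40008730b83))) 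
(.lf (nat_lit 501948) (dlOf (nat_lit 1) (nat_lit 0x20028004901)))) 
(.lf (nat_lit 8889980) (dlOf (nat_lit 2) (nat_lit 0xccaa800663cf00007028513980)))) (.nd (nat_lit 6) 
(.nd (nat_lit 28) 
(.lf (nat_lit 1611112508) (dlOf (nat_lit 3) (nat_lit 0x100410023b0100070208011d40800100080008002000600080e1683))) 
(.lf (nat_lit 805806140) (dlOf (nat_lit 2) (nat_lit 0x78056006a88181a0000)))) 
(.lf (nat_lit 805806204) (dlOf (nat_lit 3) (nat_lit 0x50158003f404006c0a2008c03a000f68281a0080))))) 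
(.nd (nat_lit 7) (.nd (nat_lit 6) 
(.lf (nat_lit 3490685244) (dlOf (nat_lit 2) (nat_lit 0x5002c014aa04003400400200008014c02))) 
(.lf (nat_lit 3490163068) (dlOf (nat_lit 1) (nat_lit 0x20018004e81)))) (.nd (nat_lit 19) 
(.nd (nat_lit 27) 
(.lf (nat_lit 1342677436) (dlOf (nat_lit 2) (nat_lit 0x90128004a081000250280c0880))) 
(.lf (nat_lit 1745330620) (dlOf (nat_lit 1) (nat_lit 0x2a0008002000200080008117003)))) 
(.lf (nat_lit 42967484) (dlOf (nat_lit 1) (nat_lit 0x1000292a1081)))))) (.nd (nat_lit 7) 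
(.nd (nat_lit 19) (.nd (nat_lit 22) 
(.lf (nat_lit 2596924) (dlOf (nat_lit 6) (nat_lit 0x174800013e020003a440005d200005e8e8001b3b600132080003a440007d20000368e8001f3b60013108000da440004d200003e8e800273b600130080007a440006d200003e8e800233b60012f0800140028170c01))) 
(.lf (nat_lit 48734268) (dlOf (nat_lit 1) (nat_lit 0x90008002c002004a0009420603)))) 
(.nd (nat_lit 10) (.nd (nat_lit 22) 
(.lf (nat_lit 12558396) (dlOf (nat_lit 1) (nat_lit 0x4004000200086d0c82))) 
(.lf (nat_lit 25141308) (dlOf (nat_lit 1) (nat_lit 0xa0018be1401)))) 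
(.lf (nat_lit 19901500) (dlOf (nat_lit 1) (nat_lit 0x1c00189d6081))))) (.nd (nat_lit 6) 
(.nd (nat_lit 8) (.lf (nat_lit 19902652) (dlOf (nat_lit 1) (nat_lit 0x200289d7e81))) 
(.lf (nat_lit 58171836) (dlOf (nat_lit 1) (nat_lit 0x200197c7001)))) (.nd (nat_lit 8) 
(.lf (nat_lit 57125628) (dlOf (nat_lit 2) (nat_lit 0x2bf50000000800080080014002001a0009795a03))) 
(.nd (nat_lit 10) (.lf (nat_lit 3121660) (dlOf (nat_lit 1) (nat_lit 0x168002003c0008200d82))) 
(.lf (nat_lit 52930044) (dlOf (nat_lit 1) (nat_lit 0x11c00400060009573682))))))))) (.nd (nat_lit 8) 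
(.nd (nat_lit 6) (.nd (nat_lit 31) (.nd (nat_lit 18) (.nd (nat_lit 9) (.nd (nat_lit 28) 
(.lf (nat_lit 201564220) (dlOf (nat_lit 2) (nat_lit 0x4880c400b4022000000400100028020701))) 
(.lf (nat_lit 469999676) (dlOf (nat_lit 3) (nat_lit 0x2522490098124003188fc045447a007e2310114115808a08a0002043801ac1f001260f4809d871c033c37a00020000000a8d00850e38000000801d8008015000200920008020703)))) 
(.lf (nat_lit 67876412) (dlOf (nat_lit 1) (nat_lit 0x68008001800200040008339c03)))) 
(.nd (nat_lit 19) (.nd (nat_lit 21) 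
(.lf (nat_lit 738697276) (dlOf (nat_lit 3) (nat_lit 0x100410050601000702080282c0800100080008002000600080e1683))) 
(.lf (nat_lit 1009229884) (dlOf (nat_lit 1) (nat_lit 0x1600080094002003000090a0603)))) 
(.lf (nat_lit 68132924) (dlOf (nat_lit 1) (nat_lit 0x400400020008400482))))) (.nd (nat_lit 9) 
(.nd (nat_lit 18) (.nd (nat_lit 27) 
(.lf (nat_lit 3825442876) (dlOf (nat_lit 1) (nat_lit 0x28008001000200020008160703))) 
(.lf (nat_lit 6644015164) (dlOf (nat_lit 1) (nat_lit 0x800180b0001)))) 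
(.lf (nat_lit 3288834108) (dlOf (nat_lit 1) (nat_lit 0x200181b0001)))) (.nd (nat_lit 7) 
(.nd (nat_lit 12) 
(.lf (nat_lit 3288572476) (dlOf (nat_lit 3) (nat_lit 0x49808002800160001c0400d200b00006018091000))) 
(.lf (nat_lit 3557012028) (dlOf (nat_lit 1) (nat_lit 0x2400400100008128982)))) 
(.lf (nat_lit 6509801148) (dlOf (nat_lit 1) (nat_lit 0x20008147281)))))) (.nd (nat_lit 32) 
(.nd (nat_lit 11) (.nd (nat_lit 18) 
(.lf (nat_lit 2753798268) (dlOf (nat_lit 2) (nat_lit 0x50750003fe04000400400180018090082))) 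
(.nd (nat_lit 27) 
(.lf (nat_lit 1678221436) (dlOf (nat_lit 3) (nat_lit 0x501580041e04006c0a2008c03a000ff8281a0080))) 
(.lf (nat_lit 4228358268) (dlOf (nat_lit 1) (nat_lit 0xc00400020008090082))))) (.nd (nat_lit 7) 
(.lf (nat_lit 67876988) (dlOf (nat_lit 1) (nat_lit 0x4002833a881))) 
(.lf (nat_lit 67877116) (dlOf (nat_lit 1) (nat_lit 0x84001833a981))))) (.nd (nat_lit 7) 
(.nd (nat_lit 9) (.lf (nat_lit 4362575996) (dlOf (nat_lit 1) (nat_lit 0xc00400020008090082))) 
(.lf (nat_lit 5570275964) (dlOf (nat_lit 2) (nat_lit 0x540420004502003a00180d5401)))) 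
(.nd (nat_lit 9) (.nd (nat_lit 18) 
(.lf (nat_lit 5570273532) (dlOf (nat_lit 1) (nat_lit 0x4004000200080d0a82))) 
(.lf (nat_lit 6510059772) (dlOf (nat_lit 1) (nat_lit 0x9400281a7101)))) 
(.lf (nat_lit 6644015868) (dlOf (nat_lit 1) (nat_lit 0x400180b2101))))))) (.nd (nat_lit 29) 
(.nd (nat_lit 6) (.nd (nat_lit 18) (.nd (nat_lit 7) 
(.lf (nat_lit 1409524028) (dlOf (nat_lit 2) (nat_lit 0x2000004b3818014c00))) (.nd (nat_lit 19) 
(.lf (nat_lit 3288572348) (dlOf (nat_lit 2) (nat_lit 0x3e00000000018090880))) 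
(.lf (nat_lit 69968316) (dlOf (nat_lit 1) (nat_lit 0x4c0008e27a81))))) (.nd (nat_lit 11) 
(.lf (nat_lit 470262204) (dlOf (nat_lit 2) (nat_lit 0x90128004a081000250280c0880))) 
(.lf (nat_lit 472361404) (dlOf (nat_lit 1) (nat_lit 0x1c00400040008984e82))))) (.nd (nat_lit 7) 
(.nd (nat_lit 11) 
(.lf (nat_lit 3288572284) (dlOf (nat_lit 2) (nat_lit 0x18019000000080038008005400200860008090783))) 
(.lf (nat_lit 68659580) (dlOf (nat_lit 1) (nat_lit 0x5a0028664e81)))) (.nd (nat_lit 27) 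
(.lf (nat_lit 1409524220) (dlOf (nat_lit 7) (nat_lit 0x120530052881002002f8028d008011017c014660400940be00a2a02005405f0051401002002f80289c0800a0008002800200480008017803))) 
(.lf (nat_lit 1543741948) (dlOf (nat_lit 3) (nat_lit 0xb01600296c080048060014b204002c004000e0008157802)))))) 
(.nd (nat_lit 30) (.nd (nat_lit 9) (.nd (nat_lit 10) 
(.lf (nat_lit 2752487740) (dlOf (nat_lit 2) (nat_lit 0x5002c0098004003400400200008014c02))) 
(.lf (nat_lit 604480828) (dlOf (nat_lit 3) (nat_lit 0x6406a0001302000c029000600f8000081001580080058002000400082d3283)))) 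
(.nd (nat_lit 6) (.nd (nat_lit 12) 
(.lf (nat_lit 4899187516) (dlOf (nat_lit 1) (nat_lit 0x200180d5c01))) 
(.lf (nat_lit 2754591548) (dlOf (nat_lit 1) (nat_lit 0x180080008002000400080fbc83)))) 
(.lf (nat_lit 738438140) (dlOf (nat_lit 2) (nat_lit 0x401680008004003000400020018095f02))))) 
(.nd (nat_lit 28) (.nd (nat_lit 6) 
(.lf (nat_lit 1677959484) (dlOf (nat_lit 2) (nat_lit 0x40a800a360200300008124c01))) 
(.lf (nat_lit 1677959676) (dlOf (nat_lit 2) (nat_lit 0x8400e00033018127e00)))) (.nd (nat_lit 19) 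
(.lf (nat_lit 4094927164) (dlOf (nat_lit 1) (nat_lit 0x800400040008050b82))) 
(.lf (nat_lit 6378201404) (dlOf (nat_lit 1) (nat_lit 0x400200020008127c02))))))))))))

end

end Pool.Agent.Lib.MP_5854e1_co.Cz

namespace Pool.Agent.Lib.MP_5854e1_co.Cz

noncomputable section

noncomputable def tz32 : DT := (.nd (nat_lit 6) (.nd (nat_lit 15) (.nd (nat_lit 16) 
(.nd (nat_lit 28) (.nd (nat_lit 19) (.nd (nat_lit 18) (.nd (nat_lit 7) (.nd (nat_lit 8) 
(.nd (nat_lit 10) (.nd (nat_lit 20) 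
(.lf (nat_lit 14680065) (dlOf (nat_lit 1) (nat_lit 0x400200020008770002))) 
(.lf (nat_lit 47185921) (dlOf (nat_lit 1) (nat_lit 0xe00293b0001)))) (.nd (nat_lit 26) 
(.lf (nat_lit 5368712193) (dlOf (nat_lit 1) (nat_lit 0x400400020008005f02))) 
(.lf (nat_lit 5033167873) (dlOf (nat_lit 1) (nat_lit 0x400400020008005f02))))) (.nd (nat_lit 30) 
(.nd (nat_lit 12) 
(.lf (nat_lit 201328385) (dlOf (nat_lit 2) (nat_lit 0xb02080011c080048008002c00200020008003b83))) 
(.lf (nat_lit 603985665) (dlOf (nat_lit 1) (nat_lit 0x2002800a001)))) (.nd (nat_lit 9) 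
(.lf (nat_lit 5502928129) (dlOf (nat_lit 3) (nat_lit 0x20026001201000012020007009800280400004608005000200040008002f02))) 
(.lf (nat_lit 3422552833) (dlOf (nat_lit 1) (nat_lit 0x400400020018002102)))))) (.nd (nat_lit 30) 
(.nd (nat_lit 20) (.nd (nat_lit 8) 
(.lf (nat_lit 2097281) (dlOf (nat_lit 1) (nat_lit 0x800200020008150102))) 
(.lf (nat_lit 67115393) (dlOf (nat_lit 1) (nat_lit 0x3800800100020004000800af83)))) 
(.nd (nat_lit 13) (.lf (nat_lit 24117377) (dlOf (nat_lit 1) (nat_lit 0x8008000400200020008b80103))) 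
(.lf (nat_lit 24125569) (dlOf (nat_lit 1) (nat_lit 0x400200020008b80102))))) (.nd (nat_lit 8) 
(.nd (nat_lit 26) (.lf (nat_lit 5502928513) (dlOf (nat_lit 1) (nat_lit 0x140018003981))) 
(.lf (nat_lit 5435819649) (dlOf (nat_lit 1) (nat_lit 0x8008000c00200020008003983)))) 
(.nd (nat_lit 9) 
(.lf (nat_lit 5368711553) (dlOf (nat_lit 2) (nat_lit 0x70098038580800280080014002000a0008004e83))) 
(.lf (nat_lit 6039802753) (dlOf (nat_lit 1) (nat_lit 0x60008009001))))))) (.nd (nat_lit 23) 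
(.nd (nat_lit 26) (.nd (nat_lit 13) (.nd (nat_lit 7) 
(.lf (nat_lit 134479873) (dlOf (nat_lit 2) (nat_lit 0x4402f00000018030000))) 
(.lf (nat_lit 3408001) (dlOf (nat_lit 1) (nat_lit 0x60018200101)))) (.nd (nat_lit 8) 
(.lf (nat_lit 1074012161) (dlOf (nat_lit 1) (nat_lit 0x400400020018090002))) 
(.lf (nat_lit 57944833) (dlOf (nat_lit 1) (nat_lit 0x20019795a81))))) (.nd (nat_lit 7) 
(.nd (nat_lit 9) (.lf (nat_lit 201588737) (dlOf (nat_lit 2) (nat_lit 0x4402f00000018030000))) 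
(.lf (nat_lit 3288596993) (dlOf (nat_lit 3) (nat_lit 0x2402b000b181000c01a8002f00800f800800a8002000c0008090d83)))) 
(.lf (nat_lit 5436080257) (dlOf (nat_lit 2) (nat_lit 0xb0098001004000066080014004000a00080c0d82))))) 
(.nd (nat_lit 13) (.nd (nat_lit 9) (.nd (nat_lit 20) 
(.lf (nat_lit 10747905) (dlOf (nat_lit 1) (nat_lit 0x800400020008620002))) 
(.lf (nat_lit 15990785) (dlOf (nat_lit 1) (nat_lit 0x180018850001)))) 
(.lf (nat_lit 8656385) (dlOf (nat_lit 1) (nat_lit 0x6400400320008519c02)))) (.nd (nat_lit 7) 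
(.nd (nat_lit 20) 
(.lf (nat_lit 44310529) (dlOf (nat_lit 5) (nat_lit 0x16863e00b531380718c1000098f8038c4040240c7c011a62700deb02000231f0001189c037a608007c004001200192f0002))) 
(.lf (nat_lit 26484737) (dlOf (nat_lit 2) (nat_lit 0x199d0801fc0080100008002c002000e0008c50003)))) 
(.nd (nat_lit 20) (.lf (nat_lit 29630593) (dlOf (nat_lit 1) (nat_lit 0x8008000400200020008e30483))) 
(.lf (nat_lit 11804801) (dlOf (nat_lit 1) (nat_lit 0x4002000200086c0102)))))))) (.nd (nat_lit 22) 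
(.nd (nat_lit 13) (.nd (nat_lit 20) (.nd (nat_lit 7) (.nd (nat_lit 21) (.nd (nat_lit 26) 
(.lf (nat_lit 1611137025) (dlOf (nat_lit 5) (nat_lit 0x40cc01bbb02001600000da901000b000006cdc08002000000000040064002006a00080f0002))) 
(.lf (nat_lit 738721793) (dlOf (nat_lit 5) (nat_lit 0x40cc0184202001600000bf401000b000005f3408002000000000040064002006a00080f0002)))) 
(.lf (nat_lit 2621441) (dlOf (nat_lit 2) (nat_lit 0xd0e000718c080150008007800200040008180003)))) 
(.lf (nat_lit 537395329) (dlOf (nat_lit 1) (nat_lit 0x20008090101)))) (.nd (nat_lit 7) 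
(.nd (nat_lit 8) 
(.lf (nat_lit 9961473) (dlOf (nat_lit 3) (nat_lit 0x452b006ec808002295803762040058002001a00085a0002))) 
(.lf (nat_lit 60293377) (dlOf (nat_lit 1) (nat_lit 0x800400020009840a82)))) 
(.lf (nat_lit 12320897) (dlOf (nat_lit 1) (nat_lit 0x4002000200086c0102))))) (.nd (nat_lit 21) 
(.nd (nat_lit 18) (.nd (nat_lit 9) (.nd (nat_lit 27) 
(.lf (nat_lit 1678254081) (dlOf (nat_lit 2) (nat_lit 0xb0000076640800080080024002003400081c0003))) 
(.lf (nat_lit 2886213633) (dlOf (nat_lit 1) (nat_lit 0x58008002800200140008190003)))) 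
(.lf (nat_lit 8926721) (dlOf (nat_lit 1) (nat_lit 0x2c0018519c01)))) (.nd (nat_lit 8) 
(.lf (nat_lit 59514881) (dlOf (nat_lit 2) (nat_lit 0x1b33e0019964c00b89cc019250600020029800001))) 
(.lf (nat_lit 17572097) (dlOf (nat_lit 1) (nat_lit 0x14c00188e0701))))) (.nd (nat_lit 7) 
(.nd (nat_lit 20) 
(.lf (nat_lit 2629633) (dlOf (nat_lit 2) (nat_lit 0x152e0000a948038c608007800400160008180002))) 
(.lf (nat_lit 37232641) (dlOf (nat_lit 1) (nat_lit 0x8002000200090c0002)))) 
(.lf (nat_lit 61351553) (dlOf (nat_lit 3) (nat_lit 0x943a0007a1bf00420ca001f8138000ac1000983a0007c1bf003e0ca002081380002610000800400020019923982)))))) 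
(.nd (nat_lit 20) (.nd (nat_lit 13) (.nd (nat_lit 24) (.nd (nat_lit 21) 
(.lf (nat_lit 2756182017) (dlOf (nat_lit 1) (nat_lit 0x1f08008079c00206cc0008210003))) 
(.lf (nat_lit 6815745) (dlOf (nat_lit 1) (nat_lit 0x40018460001)))) (.nd (nat_lit 7) 
(.lf (nat_lit 57412353) (dlOf (nat_lit 2) (nat_lit 0x4633b402319d8000110400b60019795a81))) 
(.lf (nat_lit 23593089) (dlOf (nat_lit 1) (nat_lit 0x1000800fc00200540008b80103))))) 
(.nd (nat_lit 21) (.nd (nat_lit 24) 
(.lf (nat_lit 2756190209) (dlOf (nat_lit 1) (nat_lit 0x2e0008210001))) 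
(.lf (nat_lit 55058433) (dlOf (nat_lit 1) (nat_lit 0x400296a0001)))) (.nd (nat_lit 7) 
(.lf (nat_lit 40381185) (dlOf (nat_lit 1) (nat_lit 0x100080004002000200091f5a83))) 
(.lf (nat_lit 23601281) (dlOf (nat_lit 1) (nat_lit 0x8008000400200020008b80103)))))) 
(.nd (nat_lit 7) (.nd (nat_lit 18) (.nd (nat_lit 21) 
(.lf (nat_lit 30932993) (dlOf (nat_lit 1) (nat_lit 0x400400020008e50002))) 
(.lf (nat_lit 7864321) (dlOf (nat_lit 1) (nat_lit 0x400184f0001)))) (.nd (nat_lit 9) 
(.lf (nat_lit 31203329) (dlOf (nat_lit 1) (nat_lit 0xe0028e70001))) 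
(.lf (nat_lit 8128001) (dlOf (nat_lit 1) (nat_lit 0x20028513681))))) (.nd (nat_lit 8) 
(.lf (nat_lit 6029441) (dlOf (nat_lit 1) (nat_lit 0x1000400020008420482))) (.nd (nat_lit 13) 
(.lf (nat_lit 8132481) (dlOf (nat_lit 1) (nat_lit 0x40020002000851a302))) 
(.lf (nat_lit 8140673) (dlOf (nat_lit 1) (nat_lit 0xc0020002000851a302))))))))) (.nd (nat_lit 11) 
(.nd (nat_lit 18) (.nd (nat_lit 19) (.nd (nat_lit 7) (.nd (nat_lit 13) (.nd (nat_lit 26) 
(.lf (nat_lit 1344274433) (dlOf (nat_lit 2) (nat_lit 0x60920044b818560000))) 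
(.lf (nat_lit 471859201) (dlOf (nat_lit 2) (nat_lit 0x60920075e018540000)))) 
(.lf (nat_lit 473964545) (dlOf (nat_lit 1) (nat_lit 0x6e0008046000201bc0008fe0003)))) 
(.nd (nat_lit 9) (.nd (nat_lit 8) 
(.lf (nat_lit 3690991745) (dlOf (nat_lit 1) (nat_lit 0x640008007d81))) 
(.lf (nat_lit 3691001217) (dlOf (nat_lit 2) (nat_lit 0x802d00521818009900)))) (.nd (nat_lit 13) 
(.lf (nat_lit 6375343745) (dlOf (nat_lit 1) (nat_lit 0x20008003981))) 
(.lf (nat_lit 6375351937) (dlOf (nat_lit 1) (nat_lit 0x20008003981)))))) (.nd (nat_lit 22) 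
(.nd (nat_lit 26) (.nd (nat_lit 27) 
(.lf (nat_lit 805838849) (dlOf (nat_lit 2) (nat_lit 0xb0000068d00800080080024002003400081c0003))) 
(.lf (nat_lit 3624411137) (dlOf (nat_lit 1) (nat_lit 0x58008002800200140008190003)))) 
(.nd (nat_lit 7) (.lf (nat_lit 3557302273) (dlOf (nat_lit 1) (nat_lit 0x200181b0001))) 
(.lf (nat_lit 1409818753) (dlOf (nat_lit 2) (nat_lit 0x1f402e000000080058008003800200160008090103))))) 
(.nd (nat_lit 13) 
(.lf (nat_lit 3494379521) (dlOf (nat_lit 1) (nat_lit 0x1f08008079c00206cc0008210003))) 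
(.lf (nat_lit 3494387713) (dlOf (nat_lit 1) (nat_lit 0x2e0008210001)))))) (.nd (nat_lit 13) 
(.nd (nat_lit 7) (.nd (nat_lit 20) (.nd (nat_lit 9) 
(.lf (nat_lit 3557556225) (dlOf (nat_lit 1) (nat_lit 0x38002000a0008260002))) 
(.lf (nat_lit 4026794497) (dlOf (nat_lit 3) (nat_lit 0x2402b000b181000c01a8002f40800f800800a8002000c0008090d83)))) 
(.nd (nat_lit 26) 
(.lf (nat_lit 5773197313) (dlOf (nat_lit 2) (nat_lit 0x1025e00caa02000200180b0001))) 
(.lf (nat_lit 6377177089) (dlOf (nat_lit 2) (nat_lit 0x102400070102000200180b0001))))) 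
(.nd (nat_lit 8) (.nd (nat_lit 9) 
(.lf (nat_lit 5301862529) (dlOf (nat_lit 2) (nat_lit 0xb0098001004000036080014004000a00080c0d82))) 
(.lf (nat_lit 5234755201) (dlOf (nat_lit 2) (nat_lit 0x400b8000000800080080014002000600080d3983)))) 
(.lf (nat_lit 3557037441) (dlOf (nat_lit 1) (nat_lit 0x88008000800200200008129903))))) 
(.nd (nat_lit 19) (.nd (nat_lit 26) (.nd (nat_lit 27) 
(.lf (nat_lit 4563673089) (dlOf (nat_lit 1) (nat_lit 0x80080060002003800080c0003))) 
(.lf (nat_lit 4697890817) (dlOf (nat_lit 1) (nat_lit 0x80080060002003800080c0003)))) 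
(.nd (nat_lit 27) (.lf (nat_lit 1946427393) (dlOf (nat_lit 1) (nat_lit 0x400400020018090002))) 
(.lf (nat_lit 3691257857) (dlOf (nat_lit 2) (nat_lit 0xc02a00bbd0200020008100001))))) 
(.nd (nat_lit 26) 
(.lf (nat_lit 5773205505) (dlOf (nat_lit 6) (nat_lit 0x20025e00cbf02012a12f0065e8100930978032f00804204bc0195604031c25e00caa02000a00280b0001))) 
(.nd (nat_lit 29) 
(.lf (nat_lit 471605249) (dlOf (nat_lit 1) (nat_lit 0x10008003400200580008350003))) 
(.lf (nat_lit 6377185281) (dlOf (nat_lit 6) (nat_lit 0x2002400071502012a1200038a010093090001c4c08042048000e0604031c2400070102000a00280b0001)))))))) 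
(.nd (nat_lit 26) (.nd (nat_lit 27) (.nd (nat_lit 12) (.nd (nat_lit 10) (.nd (nat_lit 13) 
(.lf (nat_lit 3489663361) (dlOf (nat_lit 1) (nat_lit 0x2200008004e81))) 
(.lf (nat_lit 3489671553) (dlOf (nat_lit 1) (nat_lit 0x400200020008004e82)))) (.nd (nat_lit 7) 
(.lf (nat_lit 6710889473) (dlOf (nat_lit 1) (nat_lit 0x400400020008005f02))) 
(.lf (nat_lit 1342181249) (dlOf (nat_lit 1) (nat_lit 0x400400020008007782))))) (.nd (nat_lit 8) 
(.lf (nat_lit 1342183553) (dlOf (nat_lit 2) (nat_lit 0x202c2001209d0052482800a880))) 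
(.nd (nat_lit 29) 
(.lf (nat_lit 1342183809) (dlOf (nat_lit 1) (nat_lit 0xb8008000c0020006000800af83))) 
(.lf (nat_lit 1879054721) (dlOf (nat_lit 1) (nat_lit 0x6000800af81)))))) (.nd (nat_lit 32) 
(.nd (nat_lit 9) (.nd (nat_lit 12) 
(.lf (nat_lit 2013268353) (dlOf (nat_lit 1) (nat_lit 0x8008000400200020008004e83))) 
(.lf (nat_lit 1476401537) (dlOf (nat_lit 1) (nat_lit 0x6000800af81)))) 
(.lf (nat_lit 1476398977) (dlOf (nat_lit 1) (nat_lit 0x8008000400200020008007783)))) 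
(.nd (nat_lit 13) (.lf (nat_lit 5771364737) (dlOf (nat_lit 1) (nat_lit 0x3a0028004e81))) 
(.lf (nat_lit 5771372929) (dlOf (nat_lit 1) (nat_lit 0x20028004e81)))))) (.nd (nat_lit 8) 
(.nd (nat_lit 7) (.nd (nat_lit 9) 
(.lf (nat_lit 4764732417) (dlOf (nat_lit 1) (nat_lit 0x400400020008005f02))) 
(.lf (nat_lit 1543518721) (dlOf (nat_lit 1) (nat_lit 0x36000800b281)))) (.nd (nat_lit 9) 
(.nd (nat_lit 12) (.lf (nat_lit 469764225) (dlOf (nat_lit 1) (nat_lit 0x200028004781))) 
(.lf (nat_lit 3557046401) (dlOf (nat_lit 6) (nat_lit 0x2101c800f00de0102045008701f804700e0009c06c012203400560110026806c014ae2401140e4008006f0085022804600fc024c070012a034005a0110028806c014ac2001440e400e6038006f01a002780880149810016807000580220052502000901c002924080548008009c0020134000812a883)))) 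
(.lf (nat_lit 4764732033) (dlOf (nat_lit 1) (nat_lit 0x8008000400200040008005483))))) 
(.nd (nat_lit 13) (.nd (nat_lit 12) (.nd (nat_lit 29) 
(.lf (nat_lit 4764731777) (dlOf (nat_lit 1) (nat_lit 0x400400020018004e82))) 
(.lf (nat_lit 5301602689) (dlOf (nat_lit 1) (nat_lit 0x20008004e81)))) 
(.lf (nat_lit 3690994049) (dlOf (nat_lit 1) (nat_lit 0x6000800af81)))) (.nd (nat_lit 9) 
(.nd (nat_lit 20) 
(.lf (nat_lit 4227869057) (dlOf (nat_lit 1) (nat_lit 0x8008000800200020008004e83))) 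
(.lf (nat_lit 6376401281) (dlOf (nat_lit 1) (nat_lit 0x400200020008094e82)))) 
(.lf (nat_lit 3557044097) (dlOf (nat_lit 2) (nat_lit 0x1007e00a430200200008127781))))))))) 
(.nd (nat_lit 19) (.nd (nat_lit 13) (.nd (nat_lit 18) (.nd (nat_lit 7) (.nd (nat_lit 28) 
(.nd (nat_lit 8) (.nd (nat_lit 20) 
(.lf (nat_lit 16842753) (dlOf (nat_lit 1) (nat_lit 0x4002000200088e0002))) 
(.lf (nat_lit 22085633) (dlOf (nat_lit 1) (nat_lit 0x400200020008a90002)))) 
(.lf (nat_lit 5435884801) (dlOf (nat_lit 1) (nat_lit 0x15800800f0002009e0008002f03)))) 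
(.nd (nat_lit 8) (.nd (nat_lit 27) 
(.lf (nat_lit 4563468289) (dlOf (nat_lit 1) (nat_lit 0x8008003000200020008090003))) 
(.lf (nat_lit 4697686017) (dlOf (nat_lit 1) (nat_lit 0x8008003000200020008090003)))) 
(.lf (nat_lit 474022145) (dlOf (nat_lit 2) (nat_lit 0x1016c001200280090004002ca0c000400400020019000a82))))) 
(.nd (nat_lit 8) (.nd (nat_lit 11) 
(.lf (nat_lit 3211393) (dlOf (nat_lit 1) (nat_lit 0x8008000400200020008200103))) 
(.lf (nat_lit 8456321) (dlOf (nat_lit 1) (nat_lit 0x600008514781)))) (.nd (nat_lit 9) 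
(.lf (nat_lit 4697686401) (dlOf (nat_lit 2) (nat_lit 0x602f000b6018091000))) (.nd (nat_lit 28) 
(.lf (nat_lit 6039868289) (dlOf (nat_lit 2) (nat_lit 0x100100045e04000400200020008009002))) 
(.lf (nat_lit 4160820097) (dlOf (nat_lit 1) (nat_lit 0xc00200080008009002))))))) (.nd (nat_lit 20) 
(.nd (nat_lit 7) (.nd (nat_lit 29) (.nd (nat_lit 27) 
(.lf (nat_lit 4563730433) (dlOf (nat_lit 1) (nat_lit 0x4004000200080d0002))) 
(.lf (nat_lit 4697948161) (dlOf (nat_lit 1) (nat_lit 0x4004000200080d0002)))) (.nd (nat_lit 26) 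
(.lf (nat_lit 939851777) (dlOf (nat_lit 1) (nat_lit 0x200281d0001))) 
(.lf (nat_lit 1812267009) (dlOf (nat_lit 1) (nat_lit 0x200281d0001))))) (.nd (nat_lit 24) 
(.lf (nat_lit 474284161) (dlOf (nat_lit 1) (nat_lit 0x460009110d81))) 
(.lf (nat_lit 21299329) (dlOf (nat_lit 1) (nat_lit 0x100008a30d81))))) (.nd (nat_lit 7) 
(.nd (nat_lit 21) (.lf (nat_lit 26542081) (dlOf (nat_lit 1) (nat_lit 0x400200020008c50002))) 
(.nd (nat_lit 23) (.lf (nat_lit 37027841) (dlOf (nat_lit 1) (nat_lit 0x800200020009080002))) 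
(.lf (nat_lit 62193665) (dlOf (nat_lit 5) (nat_lit 0x183a0000a1bf00080ca00040138038c61000203a000101bf000a0ca00028138038c41000203a000141bf000d0ca00050138038c01000283a000161bf000a0ca00040138038bc10001800400020019970002))))) 
(.nd (nat_lit 23) (.lf (nat_lit 3473537) (dlOf (nat_lit 1) (nat_lit 0x20018200101))) 
(.lf (nat_lit 11862145) (dlOf (nat_lit 1) (nat_lit 0x400200d000086c0102))))))) (.nd (nat_lit 18) 
(.nd (nat_lit 28) (.nd (nat_lit 10) (.nd (nat_lit 7) (.nd (nat_lit 20) 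
(.lf (nat_lit 14753793) (dlOf (nat_lit 1) (nat_lit 0x8008000400200020008770003))) 
(.lf (nat_lit 22093825) (dlOf (nat_lit 1) (nat_lit 0x400200020008a90002)))) 
(.lf (nat_lit 3219585) (dlOf (nat_lit 1) (nat_lit 0x400200020008200102)))) (.nd (nat_lit 9) 
(.lf (nat_lit 3892388865) (dlOf (nat_lit 1) (nat_lit 0xdc0008102881))) 
(.lf (nat_lit 6039877121) (dlOf (nat_lit 1) (nat_lit 0x400400440008009c02))))) (.nd (nat_lit 8) 
(.nd (nat_lit 27) 
(.lf (nat_lit 4563476481) (dlOf (nat_lit 1) (nat_lit 0x880080014002002e0008090003))) 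
(.lf (nat_lit 4697694209) (dlOf (nat_lit 1) (nat_lit 0x880080014002002e0008090003)))) 
(.nd (nat_lit 7) (.nd (nat_lit 9) 
(.lf (nat_lit 474030337) (dlOf (nat_lit 2) (nat_lit 0x400140020002001650400020019000a81))) 
(.lf (nat_lit 2617320193) (dlOf (nat_lit 1) (nat_lit 0x800180a2101)))) 
(.lf (nat_lit 3691066753) (dlOf (nat_lit 1) (nat_lit 0x110008006400200620008009903)))))) 
(.nd (nat_lit 21) (.nd (nat_lit 28) (.nd (nat_lit 29) (.nd (nat_lit 8) (.nd (nat_lit 10) 
(.lf (nat_lit 26550273) (dlOf (nat_lit 1) (nat_lit 0x400200020008c50002))) 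
(.lf (nat_lit 38085633) (dlOf (nat_lit 1) (nat_lit 0x4002000c0009132882)))) 
(.lf (nat_lit 46473473) (dlOf (nat_lit 1) (nat_lit 0x20029380a81)))) (.nd (nat_lit 27) 
(.lf (nat_lit 537206785) (dlOf (nat_lit 2) (nat_lit 0x2017000348040024002000e0008050002))) 
(.nd (nat_lit 30) 
(.lf (nat_lit 671424513) (dlOf (nat_lit 1) (nat_lit 0x8008000400200020008190003))) 
(.lf (nat_lit 3892649985) (dlOf (nat_lit 2) (nat_lit 0xa00a0038880800400080004002001c0008180003)))))) 
(.nd (nat_lit 7) (.nd (nat_lit 8) (.nd (nat_lit 27) 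
(.lf (nat_lit 1409622017) (dlOf (nat_lit 2) (nat_lit 0x2017000234040024002000e0008050002))) 
(.lf (nat_lit 1543839745) (dlOf (nat_lit 1) (nat_lit 0x8008000400200020008190003)))) 
(.lf (nat_lit 3557105921) (dlOf (nat_lit 1) (nat_lit 0x20018130701)))) 
(.lf (nat_lit 5100609665) (dlOf (nat_lit 1) (nat_lit 0x1000400020008100d82))))) (.nd (nat_lit 7) 
(.nd (nat_lit 23) (.nd (nat_lit 22) 
(.lf (nat_lit 37036033) (dlOf (nat_lit 1) (nat_lit 0x400200260009080002))) 
(.lf (nat_lit 24453121) (dlOf (nat_lit 8) (nat_lit 0x6d280185e0200056940003b46806174100035a50030b6040012d280185902000769400be2010004b4a005f0c080025a5002f8204002c00400140008ba0002)))) 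
(.nd (nat_lit 20) (.lf (nat_lit 10821633) (dlOf (nat_lit 1) (nat_lit 0x400400260018630002))) 
(.lf (nat_lit 62201857) (dlOf (nat_lit 10) (nat_lit 0x414b60014a5900085288005293c00154780020a3a000e51400718c38005296c00254b2000ea5100075278001a8f000254740014a2a000951400718840006296c00294b20008a5100065278004a8e80031454000ea2800e3007000a52d8005296400194a2000ea4f000a51d000728a8003145001c5e0e0008a5b00dec81000752d8007a96400254a2001ca4f000751e0005a8a8037ac1800254b6001ca5900075288000a93c002d45401bd50a0010a5b00075288005a8a8037a60c000548c00f7802001a0029970001))))) 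
(.nd (nat_lit 9) (.nd (nat_lit 23) 
(.lf (nat_lit 3481729) (dlOf (nat_lit 1) (nat_lit 0x400200020008200102))) 
(.lf (nat_lit 11870337) (dlOf (nat_lit 1) (nat_lit 0x80080004002000200086c0103)))) 
(.lf (nat_lit 52766337) (dlOf (nat_lit 1) (nat_lit 0x480019573981)))))))) (.nd (nat_lit 21) 
(.nd (nat_lit 29) (.nd (nat_lit 13) (.nd (nat_lit 26) (.nd (nat_lit 22) (.nd (nat_lit 23) 
(.nd (nat_lit 9) (.lf (nat_lit 134807553) (dlOf (nat_lit 1) (nat_lit 0x1800080c0001))) 
(.lf (nat_lit 1342767617) (dlOf (nat_lit 1) (nat_lit 0x200180c0d81)))) (.nd (nat_lit 18) 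
(.lf (nat_lit 42532865) (dlOf (nat_lit 1) (nat_lit 0x20019260001))) 
(.lf (nat_lit 42795009) (dlOf (nat_lit 2) (nat_lit 0xccea00699019280000))))) (.nd (nat_lit 28) 
(.lf (nat_lit 4784129) (dlOf (nat_lit 1) (nat_lit 0x200082b0001))) 
(.lf (nat_lit 3494445057) (dlOf (nat_lit 1) (nat_lit 0x5000800b000200320008220003))))) 
(.nd (nat_lit 9) (.nd (nat_lit 27) 
(.lf (nat_lit 4362665985) (dlOf (nat_lit 1) (nat_lit 0x200180d0001))) 
(.lf (nat_lit 201916417) (dlOf (nat_lit 1) (nat_lit 0x1800080c0001)))) 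
(.lf (nat_lit 470352385) (dlOf (nat_lit 1) (nat_lit 0x200180c0d81))))) (.nd (nat_lit 18) 
(.nd (nat_lit 8) (.lf (nat_lit 3494453249) (dlOf (nat_lit 1) (nat_lit 0x20028230001))) 
(.lf (nat_lit 25764097) (dlOf (nat_lit 1) (nat_lit 0x10008000800200040008c10703)))) 
(.nd (nat_lit 20) (.lf (nat_lit 13443073) (dlOf (nat_lit 1) (nat_lit 0x800200c80008720002))) 
(.nd (nat_lit 23) 
(.lf (nat_lit 18685953) (dlOf (nat_lit 1) (nat_lit 0x600080014002000c0008960003))) 
(.lf (nat_lit 10297345) (dlOf (nat_lit 1) (nat_lit 0x80080004002000200085d0003))))))) 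
(.nd (nat_lit 27) (.nd (nat_lit 22) (.nd (nat_lit 7) (.nd (nat_lit 9) 
(.lf (nat_lit 1611202561) (dlOf (nat_lit 1) (nat_lit 0x380028110001))) 
(.lf (nat_lit 537461249) (dlOf (nat_lit 1) (nat_lit 0x120028090d81)))) 
(.lf (nat_lit 537460865) (dlOf (nat_lit 1) (nat_lit 0x120028090101)))) (.nd (nat_lit 13) 
(.lf (nat_lit 2756247553) (dlOf (nat_lit 1) (nat_lit 0x5000800b000200320008220003))) 
(.lf (nat_lit 2756255745) (dlOf (nat_lit 1) (nat_lit 0x20028230001))))) (.nd (nat_lit 18) 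
(.nd (nat_lit 26) (.lf (nat_lit 2819162113) (dlOf (nat_lit 1) (nat_lit 0x200181d0001))) 
(.nd (nat_lit 28) (.lf (nat_lit 738787329) (dlOf (nat_lit 1) (nat_lit 0x380028110001))) 
(.lf (nat_lit 4228448257) (dlOf (nat_lit 1) (nat_lit 0x200180d0001))))) (.nd (nat_lit 13) 
(.lf (nat_lit 2819424257) (dlOf (nat_lit 1) (nat_lit 0xa0028280001))) 
(.lf (nat_lit 2819432449) (dlOf (nat_lit 1) (nat_lit 0x38002000a0008280002))))))) (.nd (nat_lit 20) 
(.nd (nat_lit 7) (.nd (nat_lit 13) (.nd (nat_lit 26) (.nd (nat_lit 8) 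
(.lf (nat_lit 3492610049) (dlOf (nat_lit 2) (nat_lit 0x1ec1fa0038a8180e0000))) 
(.lf (nat_lit 57477889) (dlOf (nat_lit 2) (nat_lit 0x7b3b00002204002000400020009795a82)))) 
(.nd (nat_lit 28) (.lf (nat_lit 2754412545) (dlOf (nat_lit 2) (nat_lit 0x1ec20f0065f8180e0000))) 
(.lf (nat_lit 4096589825) (dlOf (nat_lit 1) (nat_lit 0xc8008000400200160008130003))))) 
(.nd (nat_lit 18) (.lf (nat_lit 2695169) (dlOf (nat_lit 1) (nat_lit 0x20028190001))) 
(.nd (nat_lit 23) 
(.lf (nat_lit 4096598017) (dlOf (nat_lit 1) (nat_lit 0x98008000400200100008130003))) 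
(.lf (nat_lit 11345921) (dlOf (nat_lit 1) (nat_lit 0x20028690001)))))) (.nd (nat_lit 22) 
(.nd (nat_lit 8) (.lf (nat_lit 19732097) (dlOf (nat_lit 2) (nat_lit 0x92ada0003d8189d9d80))) 
(.lf (nat_lit 44632449) (dlOf (nat_lit 4) (nat_lit 0x55e0005878100077c78029f80800a5ae0014da04007800400160009324e82)))) 
(.nd (nat_lit 13) (.lf (nat_lit 23658625) (dlOf (nat_lit 1) (nat_lit 0x8008000800200020008b80103))) 
(.lf (nat_lit 23666817) (dlOf (nat_lit 1) (nat_lit 0x800800c800200440008b80103)))))) 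
(.nd (nat_lit 13) (.nd (nat_lit 31) (.nd (nat_lit 7) (.nd (nat_lit 22) 
(.lf (nat_lit 3735553) (dlOf (nat_lit 5) (nat_lit 0x10970001840c000c07c0185e06000412e0004081800200f8030ba0c000827e000412e0007081800380f8030b610000827e000612e0007081800380f8030b210000400200080008220002))) 
(.lf (nat_lit 24707073) (dlOf (nat_lit 6) (nat_lit 0x3d7a80010bbd00c8b0200065ea006454080032f50001977a01870040008bd400c378100095ea0061b40800300080010002004c0008bb0003)))) 
(.lf (nat_lit 12124289) (dlOf (nat_lit 1) (nat_lit 0x20000200a000086c0102)))) (.nd (nat_lit 26) 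
(.lf (nat_lit 3493396481) (dlOf (nat_lit 1) (nat_lit 0x10008000400200080008130003))) 
(.lf (nat_lit 2755198977) (dlOf (nat_lit 1) (nat_lit 0x10008000400200080008130003))))) 
(.nd (nat_lit 7) (.nd (nat_lit 9) 
(.lf (nat_lit 3743745) (dlOf (nat_lit 5) (nat_lit 0x498e00024bd000525400031258030bc10000898e00064bd000325400021258030ba10001898e000c4bd000625400031258030b610001498e000c4bd000625400031258030b210000800200120008220002))) 
(.lf (nat_lit 8204801) (dlOf (nat_lit 1) (nat_lit 0xc0018518681)))) (.nd (nat_lit 12) 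
(.lf (nat_lit 7939713) (dlOf (nat_lit 1) (nat_lit 0x20028513981))) 
(.lf (nat_lit 20526721) (dlOf (nat_lit 1) (nat_lit 0x200089d9d81)))))))))) (.nd (nat_lit 13) 
(.nd (nat_lit 19) (.nd (nat_lit 18) (.nd (nat_lit 7) (.nd (nat_lit 10) (.nd (nat_lit 16) 
(.nd (nat_lit 20) (.nd (nat_lit 8) 
(.lf (nat_lit 14712833) (dlOf (nat_lit 1) (nat_lit 0x38008002000200380008770003))) 
(.lf (nat_lit 5704289025) (dlOf (nat_lit 1) (nat_lit 0x20008005a81)))) (.nd (nat_lit 21) 
(.lf (nat_lit 26247169) (dlOf (nat_lit 1) (nat_lit 0x20028c20001))) 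
(.lf (nat_lit 11567105) (dlOf (nat_lit 1) (nat_lit 0x80080004002000200086b0003))))) 
(.nd (nat_lit 8) (.nd (nat_lit 26) 
(.lf (nat_lit 3490807809) (dlOf (nat_lit 3) (nat_lit 0x1042b00012c0200ba158003f0ab800000100260008002c00200c80008020003))) 
(.lf (nat_lit 2752610305) (dlOf (nat_lit 3) (nat_lit 0x1042ba001bd0200ba15d003f0ae000000100260008002c00200c80008020003)))) 
(.lf (nat_lit 3556870913) (dlOf (nat_lit 2) (nat_lit 0x28000000150180d5a80))))) (.nd (nat_lit 30) 
(.nd (nat_lit 8) (.nd (nat_lit 27) 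
(.lf (nat_lit 4362109953) (dlOf (nat_lit 1) (nat_lit 0x8008007400200020008002883))) 
(.lf (nat_lit 469795841) (dlOf (nat_lit 1) (nat_lit 0x20028002881)))) 
(.lf (nat_lit 268535041) (dlOf (nat_lit 2) (nat_lit 0xc01b00010018052f00)))) (.nd (nat_lit 8) 
(.nd (nat_lit 27) 
(.lf (nat_lit 4026565633) (dlOf (nat_lit 1) (nat_lit 0x8008000400200040008002883))) 
(.lf (nat_lit 5502960641) (dlOf (nat_lit 2) (nat_lit 0x26013003f7818002880)))) 
(.lf (nat_lit 1342213377) (dlOf (nat_lit 1) (nat_lit 0x800400200008006602)))))) (.nd (nat_lit 26) 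
(.nd (nat_lit 11) (.nd (nat_lit 9) (.nd (nat_lit 16) 
(.lf (nat_lit 24150145) (dlOf (nat_lit 1) (nat_lit 0xc0008b80101))) 
(.lf (nat_lit 3244161) (dlOf (nat_lit 1) (nat_lit 0x8008000400200020008200103)))) 
(.lf (nat_lit 5502961281) (dlOf (nat_lit 1) (nat_lit 0x10002000c0008003982)))) (.nd (nat_lit 8) 
(.nd (nat_lit 16) 
(.lf (nat_lit 1476434049) (dlOf (nat_lit 3) (nat_lit 0xe00c0007005c06ac022001a010000f007800700380028004001a0010052b88000f00c0007805c06b80220012010000d007800680380044008000a002000c00080008000014ac2806d00040a4e000800a882))) 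
(.lf (nat_lit 1342281857) (dlOf (nat_lit 2) (nat_lit 0x20161001004e80293410005000800340020010000800a883)))) 
(.lf (nat_lit 19958657) (dlOf (nat_lit 1) (nat_lit 0x380080004002000600089d5c03))))) 
(.nd (nat_lit 10) (.nd (nat_lit 8) (.nd (nat_lit 12) 
(.lf (nat_lit 469862529) (dlOf (nat_lit 1) (nat_lit 0x20028004781))) 
(.lf (nat_lit 3691026561) (dlOf (nat_lit 4) (nat_lit 0x160058012602a00040148029805000a000a00b00000052b860056016004a80a800040520106014007e00280280000014ac1801100000000002009c002800a881)))) 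
(.lf (nat_lit 5167417729) (dlOf (nat_lit 1) (nat_lit 0x400200020008054e82)))) (.nd (nat_lit 9) 
(.lf (nat_lit 3288370305) (dlOf (nat_lit 1) (nat_lit 0x40028006101))) 
(.lf (nat_lit 2617284225) (dlOf (nat_lit 2) (nat_lit 0x3d017801c00b80030024008400300350000001ec280088008003800200080008009d83))))))) 
(.nd (nat_lit 16) (.nd (nat_lit 26) (.nd (nat_lit 20) (.nd (nat_lit 28) (.nd (nat_lit 9) 
(.lf (nat_lit 44335105) (dlOf (nat_lit 8) (nat_lit 0xb88c7c06166270319307818b96e0038c61000c0c7c000e60f00052dc0071881801c18f80008c4e001060f00072dc0071802001e18f80004c1e000c5b800e2f0302e631f017e189c0ae8c1e05805b800deb04001631f000a989c037aa080024c7c001e6270003307800396e0037a610003c004000800192f0002))) 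
(.lf (nat_lit 5905875457) (dlOf (nat_lit 1) (nat_lit 0x20008157f01)))) (.nd (nat_lit 27) 
(.lf (nat_lit 1879343105) (dlOf (nat_lit 5) (nat_lit 0x20510004027006178100038138030ba04000c09c0185b02001605100030270061641000d00080038002002800080e0003))) 
(.lf (nat_lit 3087302657) (dlOf (nat_lit 1) (nat_lit 0x4004001c0008170002))))) (.nd (nat_lit 7) 
(.nd (nat_lit 24) (.lf (nat_lit 9732097) (dlOf (nat_lit 1) (nat_lit 0x400400020008580002))) 
(.lf (nat_lit 26509313) (dlOf (nat_lit 1) (nat_lit 0x400200020008c50002)))) 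
(.lf (nat_lit 11829377) (dlOf (nat_lit 1) (nat_lit 0x80080008002000200086c0103))))) 
(.nd (nat_lit 29) (.nd (nat_lit 8) (.nd (nat_lit 27) 
(.lf (nat_lit 2214887425) (dlOf (nat_lit 2) (nat_lit 0x600180612c0800080080014002000a0008100003))) 
(.lf (nat_lit 2617540609) (dlOf (nat_lit 2) (nat_lit 0x100480000004000c004000600080e0002)))) 
(.lf (nat_lit 1409581313) (dlOf (nat_lit 1) (nat_lit 0x20018047101)))) (.nd (nat_lit 27) 
(.nd (nat_lit 28) (.lf (nat_lit 3825500161) (dlOf (nat_lit 1) (nat_lit 0x4004001c0008170002))) 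
(.lf (nat_lit 3020193793) (dlOf (nat_lit 6) (nat_lit 0x16e03c017f01a80d900c00710054035c02300180090076a83000880f0024006a034e03001b401500d5008c03b5014001406001ba2020026022006c281000901800347c0802c8008003000200020008150003)))) 
(.lf (nat_lit 1006927873) (dlOf (nat_lit 5) (nat_lit 0x20510004027006eac1000381380375404000c09c01ba80200160510003027006e981000d00080038002002800080e0003)))))) 
(.nd (nat_lit 27) (.nd (nat_lit 30) (.nd (nat_lit 7) (.nd (nat_lit 20) 
(.lf (nat_lit 537231361) (dlOf (nat_lit 2) (nat_lit 0xb01f8018c0080100008004800200220008060003))) 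
(.lf (nat_lit 37060609) (dlOf (nat_lit 1) (nat_lit 0x20009090001)))) 
(.lf (nat_lit 11894913) (dlOf (nat_lit 1) (nat_lit 0x80080004002000200086c0103)))) 
(.nd (nat_lit 26) (.nd (nat_lit 28) 
(.lf (nat_lit 3221585921) (dlOf (nat_lit 1) (nat_lit 0x60008008000200680008150003))) 
(.lf (nat_lit 1342537729) (dlOf (nat_lit 3) (nat_lit 0x4247004458100021238022280800a00080064002004c0008050003)))) 
(.lf (nat_lit 1409646593) (dlOf (nat_lit 2) (nat_lit 0xb01f802f18080100008004800200220008060003))))) 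
(.nd (nat_lit 29) (.nd (nat_lit 7) (.nd (nat_lit 20) 
(.lf (nat_lit 470122497) (dlOf (nat_lit 3) (nat_lit 0x424700758010002123803abc0800a00080064002004c0008050003))) 
(.lf (nat_lit 471171073) (dlOf (nat_lit 2) (nat_lit 0x230470013600803300080050002000a00082a0003)))) 
(.lf (nat_lit 1208320129) (dlOf (nat_lit 1) (nat_lit 0x900080004002001000080c0d83)))) 
(.nd (nat_lit 7) (.nd (nat_lit 26) 
(.lf (nat_lit 5234851841) (dlOf (nat_lit 1) (nat_lit 0xc00400040008100002))) 
(.lf (nat_lit 3959783425) (dlOf (nat_lit 1) (nat_lit 0x60008008000200680008150003)))) 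
(.lf (nat_lit 2080735361) (dlOf (nat_lit 1) (nat_lit 0x900080004002001000080c0d83)))))))) 
(.nd (nat_lit 16) (.nd (nat_lit 21) (.nd (nat_lit 29) (.nd (nat_lit 7) (.nd (nat_lit 18) 
(.nd (nat_lit 20) (.nd (nat_lit 22) 
(.lf (nat_lit 6510116865) (dlOf (nat_lit 1) (nat_lit 0x4002000200081d0002))) 
(.lf (nat_lit 55083009) (dlOf (nat_lit 10) (nat_lit 0x4098c00144c4000825e000512e8001494e00204a5000e2498064583800513180024988000e4bc000725d0001929c002494a00144950009249806454400061318002898800084bc000625d00049294003092a000e49300c8987000a263000513100018978000e4ba000a252800712540030926019110e00084c600c3a010007263000793100024978001c4ba000725380059254030e018002498c001c4c4000725e000092e8002c92a0186f0a00104c6000725e00059254030da0c000496200f7402001a00296a0001)))) 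
(.lf (nat_lit 9994241) (dlOf (nat_lit 4) (nat_lit 0xe77001d0a04001f47600059dc00742020001cee003a000800c80080030002001a00085a0003)))) 
(.nd (nat_lit 20) (.lf (nat_lit 819201) (dlOf (nat_lit 1) (nat_lit 0x7400202540008020002))) 
(.nd (nat_lit 23) (.lf (nat_lit 22839297) (dlOf (nat_lit 1) (nat_lit 0x20028b30001))) 
(.lf (nat_lit 31227905) (dlOf (nat_lit 1) (nat_lit 0x580028e70001)))))) (.nd (nat_lit 26) 
(.nd (nat_lit 27) 
(.lf (nat_lit 1342734465) (dlOf (nat_lit 2) (nat_lit 0x2e2260018107000b868c000760c0014004003c00180c0102))) 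
(.lf (nat_lit 1476952193) (dlOf (nat_lit 1) (nat_lit 0x140008313a01)))) 
(.lf (nat_lit 470319233) (dlOf (nat_lit 2) (nat_lit 0x2e2260018106000b86cc000760c0014004003c00180c0102))))) 
(.nd (nat_lit 26) (.nd (nat_lit 7) (.nd (nat_lit 28) 
(.lf (nat_lit 5906137089) (dlOf (nat_lit 1) (nat_lit 0x4002000200081d0002))) 
(.lf (nat_lit 805863425) (dlOf (nat_lit 4) (nat_lit 0x2007006ae008003813c033880400400960191102000200081d0001)))) 
(.lf (nat_lit 537428097) (dlOf (nat_lit 2) (nat_lit 0x1f402e000000080058008003800200160008090103)))) 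
(.nd (nat_lit 7) (.nd (nat_lit 8) 
(.lf (nat_lit 1678278657) (dlOf (nat_lit 4) (nat_lit 0x200700784008003813c03a3e04004009601c5e02000200081d0001))) 
(.lf (nat_lit 6376947969) (dlOf (nat_lit 2) (nat_lit 0x2086800238080008008000c00200040008090a83)))) 
(.lf (nat_lit 604536961) (dlOf (nat_lit 1) (nat_lit 0x68008000c00200040008313a03)))))) 
(.nd (nat_lit 7) (.nd (nat_lit 20) (.nd (nat_lit 31) (.nd (nat_lit 23) 
(.lf (nat_lit 2654209) (dlOf (nat_lit 8) (nat_lit 0xca5c000c529000a28f4005945601c63080010a5c0007529000428f4001d45601c62080010a5e000952e00042948002947a0014a2b00e3005000952f0006297000254a40016a3d000b51580717828003a978003d4a801bd604001aa5400dea81000452a006f400801080080044002001c0008180003))) 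
(.lf (nat_lit 11042817) (dlOf (nat_lit 2) (nat_lit 0x1b84b00000018660000)))) (.nd (nat_lit 26) 
(.lf (nat_lit 3492315137) (dlOf (nat_lit 1) (nat_lit 0x700080008002000800080c0003))) 
(.lf (nat_lit 2754117633) (dlOf (nat_lit 1) (nat_lit 0x700080008002000800080c0003))))) 
(.nd (nat_lit 9) (.nd (nat_lit 18) 
(.lf (nat_lit 24674305) (dlOf (nat_lit 3) (nat_lit 0x76940004b4680645810001da340322a04004c00400080008bb0002))) 
(.lf (nat_lit 45907969) (dlOf (nat_lit 2) (nat_lit 0x6864801c2c04000c00200300009360002)))) 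
(.lf (nat_lit 1345880577) (dlOf (nat_lit 1) (nat_lit 0x4000400080008e07b02))))) (.nd (nat_lit 8) 
(.nd (nat_lit 9) (.lf (nat_lit 23625857) (dlOf (nat_lit 1) (nat_lit 0x8008000400200020008b80103))) 
(.lf (nat_lit 19699329) (dlOf (nat_lit 2) (nat_lit 0x8b040003d8189d9d80)))) 
(.lf (nat_lit 36473217) (dlOf (nat_lit 1) (nat_lit 0x40019074e81)))))) (.nd (nat_lit 18) 
(.nd (nat_lit 21) (.nd (nat_lit 24) (.nd (nat_lit 26) (.nd (nat_lit 27) 
(.lf (nat_lit 805928961) (dlOf (nat_lit 5) (nat_lit 0x18130001c08e000a0350007003001c14200030130000c08e000a035000301a0002001800df6140018098000e0470006003001be018003000000000040090004002c00081f0002))) 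
(.lf (nat_lit 3892936705) (dlOf (nat_lit 1) (nat_lit 0xc8002005600082a0002)))) 
(.lf (nat_lit 1678344193) (dlOf (nat_lit 5) (nat_lit 0x18130001c08e000a03500070030032c8200030130000c08e000a035000301a0002001801944140018098000e047000600300328418003000000000040090004002c00081f0002)))) 
(.nd (nat_lit 20) 
(.lf (nat_lit 21594113) (dlOf (nat_lit 2) (nat_lit 0x1152b806710080010008002800200080008a50003))) 
(.lf (nat_lit 26836993) (dlOf (nat_lit 1) (nat_lit 0x40028c80001))))) (.nd (nat_lit 7) 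
(.nd (nat_lit 8) (.nd (nat_lit 20) 
(.lf (nat_lit 1881767937) (dlOf (nat_lit 1) (nat_lit 0x40009000001))) 
(.lf (nat_lit 24739841) (dlOf (nat_lit 1) (nat_lit 0x8008000400200040008bb0003)))) 
(.lf (nat_lit 7964929) (dlOf (nat_lit 1) (nat_lit 0x20018514b81)))) (.nd (nat_lit 9) 
(.lf (nat_lit 23691393) (dlOf (nat_lit 1) (nat_lit 0x170008000800200200008b80103))) 
(.lf (nat_lit 20551297) (dlOf (nat_lit 1) (nat_lit 0x2600089d9d81)))))) (.nd (nat_lit 28) 
(.nd (nat_lit 10) (.nd (nat_lit 20) 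
(.lf (nat_lit 42827777) (dlOf (nat_lit 1) (nat_lit 0x480019280001))) 
(.lf (nat_lit 27099137) (dlOf (nat_lit 1) (nat_lit 0x19000800e400200140008ca0003)))) 
(.nd (nat_lit 23) (.lf (nat_lit 54365185) (dlOf (nat_lit 1) (nat_lit 0x800400020019655f02))) 
(.lf (nat_lit 45976577) (dlOf (nat_lit 1) (nat_lit 0x20019385f01))))) (.nd (nat_lit 7) 
(.nd (nat_lit 8) 
(.lf (nat_lit 1346207745) (dlOf (nat_lit 2) (nat_lit 0xd820c01c4404001800400280008e60002))) 
(.lf (nat_lit 6376227073) (dlOf (nat_lit 1) (nat_lit 0x20018090a81)))) (.nd (nat_lit 26) 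
(.lf (nat_lit 5773295745) (dlOf (nat_lit 1) (nat_lit 0x8004000200080c0d82))) 
(.lf (nat_lit 6377275521) (dlOf (nat_lit 1) (nat_lit 0x8004000200080c0d82))))))))) 
(.nd (nat_lit 18) (.nd (nat_lit 19) (.nd (nat_lit 7) (.nd (nat_lit 9) (.nd (nat_lit 16) 
(.nd (nat_lit 20) (.nd (nat_lit 10) 
(.lf (nat_lit 14721025) (dlOf (nat_lit 1) (nat_lit 0x20018770001))) 
(.lf (nat_lit 469804033) (dlOf (nat_lit 1) (nat_lit 0x60028002881)))) (.nd (nat_lit 22) 
(.lf (nat_lit 1343266817) (dlOf (nat_lit 1) (nat_lit 0xa00281e0001))) 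
(.lf (nat_lit 13672449) (dlOf (nat_lit 1) (nat_lit 0x30008000c00200040008740003))))) 
(.nd (nat_lit 10) (.nd (nat_lit 21) 
(.lf (nat_lit 26320897) (dlOf (nat_lit 1) (nat_lit 0x80028c30001))) 
(.lf (nat_lit 28418049) (dlOf (nat_lit 1) (nat_lit 0x600080014002000c0008d90003)))) 
(.lf (nat_lit 2080482305) (dlOf (nat_lit 1) (nat_lit 0x400400020008092882))))) (.nd (nat_lit 8) 
(.nd (nat_lit 22) (.nd (nat_lit 26) 
(.lf (nat_lit 671130113) (dlOf (nat_lit 2) (nat_lit 0x40170001d40800880080020002007200080b0d83))) 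
(.lf (nat_lit 1543545345) (dlOf (nat_lit 2) (nat_lit 0x40170001d40800880080020002007200080b0d83)))) 
(.lf (nat_lit 2755699201) (dlOf (nat_lit 2) (nat_lit 0xec1640000002002000081b0d81)))) 
(.nd (nat_lit 10) (.nd (nat_lit 16) 
(.lf (nat_lit 6241168129) (dlOf (nat_lit 1) (nat_lit 0x400400020008005a82))) 
(.lf (nat_lit 3556879105) (dlOf (nat_lit 1) (nat_lit 0x28002001e00080d5a82)))) 
(.lf (nat_lit 42753) (dlOf (nat_lit 1) (nat_lit 0x20008003b81)))))) (.nd (nat_lit 16) 
(.nd (nat_lit 11) (.nd (nat_lit 10) (.nd (nat_lit 22) 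
(.lf (nat_lit 11575425) (dlOf (nat_lit 1) (nat_lit 0x80080030002001800086c0103))) 
(.lf (nat_lit 24158337) (dlOf (nat_lit 1) (nat_lit 0x400200020008b80102)))) (.nd (nat_lit 8) 
(.lf (nat_lit 2617292417) (dlOf (nat_lit 2) (nat_lit 0x1e808400d0036006c012002e0088021000c000f614002000200060008009d82))) 
(.lf (nat_lit 4095780225) (dlOf (nat_lit 1) (nat_lit 0xc00180e3581))))) (.nd (nat_lit 8) 
(.nd (nat_lit 26) 
(.lf (nat_lit 1476442241) (dlOf (nat_lit 3) (nat_lit 0xc801e00e600e000500380030018008c00200a570a005e00f007d0070003001c00340080046001000a000002958300790008001c00205a4000800a883))) 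
(.lf (nat_lit 3691034753) (dlOf (nat_lit 4) (nat_lit 0x330110021806400cc0280072009002b002800c0000014ae1800e4044008e019004400a001c002400d800a00580000052b0600170000000000801c000800880020016000800a883)))) 
(.lf (nat_lit 19966849) (dlOf (nat_lit 1) (nat_lit 0x800080004002000c00089d5c03))))) 
(.nd (nat_lit 30) (.nd (nat_lit 8) (.nd (nat_lit 10) 
(.lf (nat_lit 6509666433) (dlOf (nat_lit 2) (nat_lit 0x618000000760400c8002002a00080b0102))) 
(.lf (nat_lit 20032641) (dlOf (nat_lit 1) (nat_lit 0x40008000c002000400089d6103)))) 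
(.lf (nat_lit 8500097) (dlOf (nat_lit 1) (nat_lit 0x1c00200040008519002)))) (.nd (nat_lit 11) 
(.nd (nat_lit 27) (.nd (nat_lit 29) 
(.lf (nat_lit 5368815745) (dlOf (nat_lit 1) (nat_lit 0x20018030d81))) 
(.lf (nat_lit 5905686657) (dlOf (nat_lit 2) (nat_lit 0x618000000760400c8002002a00080b0102)))) 
(.lf (nat_lit 5503033473) (dlOf (nat_lit 1) (nat_lit 0x20018030d81)))) 
(.lf (nat_lit 1342290049) (dlOf (nat_lit 1) (nat_lit 0x40040002000800a882))))))) (.nd (nat_lit 16) 
(.nd (nat_lit 20) (.nd (nat_lit 26) (.nd (nat_lit 22) (.nd (nat_lit 8) (.nd (nat_lit 28) 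
(.lf (nat_lit 1611177985) (dlOf (nat_lit 1) (nat_lit 0x108004001e0008100002))) 
(.lf (nat_lit 805871617) (dlOf (nat_lit 5) (nat_lit 0x22027801200e00338808000807c019110200c6044007ba010320016803c740800c80080078002006800081d0003)))) 
(.lf (nat_lit 3892879617) (dlOf (nat_lit 1) (nat_lit 0xe60018280701)))) (.nd (nat_lit 7) 
(.lf (nat_lit 55091201) (dlOf (nat_lit 1) (nat_lit 0x80080004002000200096a0003))) 
(.lf (nat_lit 23634049) (dlOf (nat_lit 1) (nat_lit 0x400200020008b80102))))) (.nd (nat_lit 27) 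
(.lf (nat_lit 1678286849) (dlOf (nat_lit 5) (nat_lit 0x22027801200e003a3e08000807c01c5e0200c6044007bc010320016803c640800c80080078002006800081d0003))) 
(.nd (nat_lit 28) (.lf (nat_lit 738762753) (dlOf (nat_lit 1) (nat_lit 0x108004001e0008100002))) 
(.lf (nat_lit 3154681857) (dlOf (nat_lit 1) (nat_lit 0x80008310001)))))) (.nd (nat_lit 7) 
(.nd (nat_lit 9) (.lf (nat_lit 10002433) (dlOf (nat_lit 1) (nat_lit 0x800080024002003a00085a0003))) 
(.nd (nat_lit 22) 
(.lf (nat_lit 1345888769) (dlOf (nat_lit 3) (nat_lit 0x208a80058008000845400000040030004000c0008e07b02))) 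
(.lf (nat_lit 58237441) (dlOf (nat_lit 1) (nat_lit 0x18008001c002000a00097c7b03))))) 
(.nd (nat_lit 8) (.lf (nat_lit 12099713) (dlOf (nat_lit 1) (nat_lit 0x4002000200086c0102))) 
(.nd (nat_lit 21) 
(.lf (nat_lit 56142209) (dlOf (nat_lit 2) (nat_lit 0x3c93600c1b02000a0029734e81))) 
(.lf (nat_lit 62433665) (dlOf (nat_lit 1) (nat_lit 0x8004000200199a4e82))))))) (.nd (nat_lit 21) 
(.nd (nat_lit 26) (.nd (nat_lit 8) (.nd (nat_lit 22) 
(.lf (nat_lit 805937153) (dlOf (nat_lit 4) (nat_lit 0x40130002008e000c0350004003001c14200020130001008e000e035000401a0001801800df61400140980004047000501a00010040001800c006f80a004400281f0001))) 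
(.lf (nat_lit 21602305) (dlOf (nat_lit 2) (nat_lit 0x580c000abe500ce2028a50000)))) 
(.lf (nat_lit 633601) (dlOf (nat_lit 1) (nat_lit 0x20028005a81)))) (.nd (nat_lit 8) 
(.nd (nat_lit 27) 
(.lf (nat_lit 1678352385) (dlOf (nat_lit 4) (nat_lit 0x40130002008e000c03500040030032c8200020130001008e000e035000401a00018018019441400140980004047000501a00010040001800c00ca10a004400281f0001))) 
(.lf (nat_lit 1007263745) (dlOf (nat_lit 1) (nat_lit 0x80080004002000200082c0003)))) 
(.lf (nat_lit 738831105) (dlOf (nat_lit 2) (nat_lit 0x204e0000d818125a80))))) (.nd (nat_lit 20) 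
(.nd (nat_lit 7) (.lf (nat_lit 1344905217) (dlOf (nat_lit 1) (nat_lit 0x8004000c0018990002))) 
(.lf (nat_lit 23699585) (dlOf (nat_lit 1) (nat_lit 0x11400200560008b80102)))) (.nd (nat_lit 9) 
(.lf (nat_lit 12165249) (dlOf (nat_lit 1) (nat_lit 0x200186c0101))) 
(.lf (nat_lit 20559489) (dlOf (nat_lit 2) (nat_lit 0xa994c004c47c80220f40000f60c000c004000200089d9d82)))))))) 
(.nd (nat_lit 16) (.nd (nat_lit 28) (.nd (nat_lit 26) (.nd (nat_lit 20) (.nd (nat_lit 19) 
(.nd (nat_lit 21) 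
(.lf (nat_lit 3758399489) (dlOf (nat_lit 6) (nat_lit 0x16e03c017f01a80d900c00710054035c02300180090069143000880f0024006a034e03001b401500d5008c034861400140600183102002602200470010009018001df80802c8008003000200020008170003))) 
(.lf (nat_lit 44343297) (dlOf (nat_lit 1) (nat_lit 0x300080010002000c00092f0003)))) 
(.nd (nat_lit 7) (.lf (nat_lit 42770433) (dlOf (nat_lit 1) (nat_lit 0x20019280001))) 
(.lf (nat_lit 36479105) (dlOf (nat_lit 1) (nat_lit 0x20019070301))))) (.nd (nat_lit 7) 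
(.nd (nat_lit 22) (.lf (nat_lit 26517505) (dlOf (nat_lit 1) (nat_lit 0x400200020008c50002))) 
(.lf (nat_lit 22323201) (dlOf (nat_lit 1) (nat_lit 0x20008ac0001)))) (.nd (nat_lit 19) 
(.lf (nat_lit 11837569) (dlOf (nat_lit 1) (nat_lit 0x200186c0101))) 
(.lf (nat_lit 1876097) (dlOf (nat_lit 1) (nat_lit 0x100008150101)))))) (.nd (nat_lit 29) 
(.nd (nat_lit 7) (.nd (nat_lit 8) 
(.lf (nat_lit 2214895617) (dlOf (nat_lit 2) (nat_lit 0x4004c0309604001800400060008100002))) 
(.lf (nat_lit 5436123905) (dlOf (nat_lit 2) (nat_lit 0x1e00c400058040044004004400080e5a82)))) 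
(.lf (nat_lit 67941249) (dlOf (nat_lit 1) (nat_lit 0x20018339001)))) (.nd (nat_lit 10) 
(.nd (nat_lit 31) (.lf (nat_lit 1678024705) (dlOf (nat_lit 1) (nat_lit 0x1000200120008140002))) 
(.lf (nat_lit 3825508353) (dlOf (nat_lit 1) (nat_lit 0x2c00400100008170002)))) 
(.lf (nat_lit 2751767553) (dlOf (nat_lit 1) (nat_lit 0x400200020008002882)))))) (.nd (nat_lit 29) 
(.nd (nat_lit 19) (.nd (nat_lit 7) (.nd (nat_lit 20) 
(.lf (nat_lit 1476698113) (dlOf (nat_lit 1) (nat_lit 0x10008001800200040008140003))) 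
(.lf (nat_lit 1343528961) (dlOf (nat_lit 1) (nat_lit 0x1020008290001)))) (.nd (nat_lit 8) 
(.lf (nat_lit 5637447809) (dlOf (nat_lit 1) (nat_lit 0x80080004002000200080f0d83))) 
(.lf (nat_lit 3489966465) (dlOf (nat_lit 1) (nat_lit 0x400200020008004e82))))) (.nd (nat_lit 20) 
(.nd (nat_lit 26) (.lf (nat_lit 1343004673) (dlOf (nat_lit 1) (nat_lit 0x20008130001))) 
(.lf (nat_lit 470589441) (dlOf (nat_lit 1) (nat_lit 0x20008130001)))) 
(.lf (nat_lit 1346150401) (dlOf (nat_lit 1) (nat_lit 0x8008001000200220008e60003))))) 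
(.nd (nat_lit 26) (.nd (nat_lit 27) (.nd (nat_lit 30) 
(.lf (nat_lit 805609473) (dlOf (nat_lit 1) (nat_lit 0x1000200120008140002))) 
(.lf (nat_lit 1879351297) (dlOf (nat_lit 8) (nat_lit 0x3c0b001f2057005402a807f015004340a2020804e00c8b06009f02c007b815c03980aa020c05400fb028807681380322a1803880ae009e055010802a00860144041c09c019130a014805800cf02b8081815404200a8021a05100fc02700644430080816004040ae0216055010a02a000b813c043809c018700c014005800e702b8075015403fc0a801b004e00c378500d102c007c815c03980aa020e054010e0270061b42802e000805ec002002200080f0003)))) 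
(.lf (nat_lit 3087310849) (dlOf (nat_lit 1) (nat_lit 0x2c00400100008170002)))) (.nd (nat_lit 7) 
(.lf (nat_lit 1006936065) (dlOf (nat_lit 8) (nat_lit 0x3c0b001f2057005402a807f015004340a2020804e00e3186009f02c007b815c03980aa020c05400fb02880768138038c41803880ae009e055010802a00860144041c09c01c600a014805800cf02b8081815404200a8021a05100fc02700717830080816004040ae0216055010a02a000b813c043809c01bd60c014005800e702b8075015403fc0a801b004e00dea8500d102c007c815c03980aa020e054010e027006f4c2802e000805ec002002200080f0003))) 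
(.lf (nat_lit 6241427585) (dlOf (nat_lit 1) (nat_lit 0x80080004002000200080f0d83))))))) 
(.nd (nat_lit 20) (.nd (nat_lit 22) (.nd (nat_lit 26) (.nd (nat_lit 19) (.nd (nat_lit 27) 
(.lf (nat_lit 6442819585) (dlOf (nat_lit 2) (nat_lit 0x7008000000080088008004c002002200081c0003))) 
(.lf (nat_lit 671457281) (dlOf (nat_lit 1) (nat_lit 0x200181a0001)))) 
(.lf (nat_lit 2990081) (dlOf (nat_lit 3) (nat_lit 0x31a080008cd6000a4e9000826c005450200031a080008cd6000a4e9000d26c0052602000380080004002001200081f0003)))) 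
(.nd (nat_lit 19) (.nd (nat_lit 32) 
(.lf (nat_lit 1543872513) (dlOf (nat_lit 1) (nat_lit 0x200181a0001))) 
(.lf (nat_lit 5838839809) (dlOf (nat_lit 2) (nat_lit 0x7008000000080088008004c002002200081c0003)))) 
(.lf (nat_lit 4096630785) (dlOf (nat_lit 1) (nat_lit 0x20028140001))))) (.nd (nat_lit 23) 
(.nd (nat_lit 21) (.lf (nat_lit 474324993) (dlOf (nat_lit 1) (nat_lit 0x520029150001))) 
(.lf (nat_lit 23437313) (dlOf (nat_lit 1) (nat_lit 0x20018b80001)))) (.nd (nat_lit 8) 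
(.lf (nat_lit 29728769) (dlOf (nat_lit 1) (nat_lit 0x400200020008e30002))) 
(.lf (nat_lit 46506241) (dlOf (nat_lit 1) (nat_lit 0xe0029380a81)))))) (.nd (nat_lit 21) 
(.nd (nat_lit 22) (.nd (nat_lit 7) 
(.lf (nat_lit 10330113) (dlOf (nat_lit 1) (nat_lit 0x80080004002000200085d0003))) 
(.lf (nat_lit 18718849) (dlOf (nat_lit 1) (nat_lit 0x400200020008970482)))) (.nd (nat_lit 19) 
(.lf (nat_lit 22388737) (dlOf (nat_lit 1) (nat_lit 0x28008000800200060008ad0003))) 
(.lf (nat_lit 22913025) (dlOf (nat_lit 2) (nat_lit 0x1bbc400000018b40000))))) (.nd (nat_lit 19) 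
(.nd (nat_lit 7) (.lf (nat_lit 24485889) (dlOf (nat_lit 1) (nat_lit 0x400400040008ba0002))) 
(.lf (nat_lit 11903105) (dlOf (nat_lit 1) (nat_lit 0x4002000200086c0102)))) (.nd (nat_lit 9) 
(.nd (nat_lit 26) 
(.lf (nat_lit 3493699585) (dlOf (nat_lit 1) (nat_lit 0x200080004002000200081a0003))) 
(.lf (nat_lit 2755502081) (dlOf (nat_lit 1) (nat_lit 0x200080004002000200081a0003)))) 
(.lf (nat_lit 8237569) (dlOf (nat_lit 1) (nat_lit 0x400400020018518682))))))))))) (.nd (nat_lit 16) 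
(.nd (nat_lit 15) (.nd (nat_lit 13) (.nd (nat_lit 26) (.nd (nat_lit 18) (.nd (nat_lit 8) 
(.nd (nat_lit 20) (.nd (nat_lit 29) (.nd (nat_lit 9) (.nd (nat_lit 22) 
(.lf (nat_lit 5502926913) (dlOf (nat_lit 1) (nat_lit 0x400400020008000002))) 
(.lf (nat_lit 12582977) (dlOf (nat_lit 1) (nat_lit 0x80080018002000200086d0d03)))) 
(.lf (nat_lit 5502928449) (dlOf (nat_lit 1) (nat_lit 0x400400020008003802)))) (.nd (nat_lit 9) 
(.nd (nat_lit 28) (.lf (nat_lit 4966056001) (dlOf (nat_lit 1) (nat_lit 0x400400020008000002))) 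
(.lf (nat_lit 4160749633) (dlOf (nat_lit 1) (nat_lit 0x400400020008000002)))) 
(.lf (nat_lit 4966057537) (dlOf (nat_lit 1) (nat_lit 0x400400020008003802))))) (.nd (nat_lit 9) 
(.nd (nat_lit 7) (.nd (nat_lit 10) 
(.lf (nat_lit 60293185) (dlOf (nat_lit 1) (nat_lit 0x20019840001))) 
(.lf (nat_lit 51381313) (dlOf (nat_lit 1) (nat_lit 0x104004002c0009512882)))) 
(.lf (nat_lit 51381441) (dlOf (nat_lit 2) (nat_lit 0x199d2000060200040009512d01)))) 
(.nd (nat_lit 11) (.lf (nat_lit 20447809) (dlOf (nat_lit 1) (nat_lit 0x4002000200089d1582))) 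
(.lf (nat_lit 36702785) (dlOf (nat_lit 1) (nat_lit 0x20019075201)))))) (.nd (nat_lit 9) 
(.nd (nat_lit 11) (.nd (nat_lit 10) 
(.lf (nat_lit 2097473) (dlOf (nat_lit 1) (nat_lit 0x20028150601))) 
(.lf (nat_lit 5773460801) (dlOf (nat_lit 1) (nat_lit 0x14004000c00080e3282)))) (.nd (nat_lit 12) 
(.lf (nat_lit 19926337) (dlOf (nat_lit 1) (nat_lit 0xe00289d6901))) 
(.lf (nat_lit 3489668417) (dlOf (nat_lit 5) (nat_lit 0x420f00020fa000287cc00d040c00044000057902001420e000d0f90013a410004083800203e4004d804002e002800c901))))) 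
(.nd (nat_lit 7) (.nd (nat_lit 10) 
(.lf (nat_lit 19925825) (dlOf (nat_lit 1) (nat_lit 0x4002000200089d5c02))) 
(.lf (nat_lit 1879054145) (dlOf (nat_lit 2) (nat_lit 0x40df0000f01800a100)))) (.nd (nat_lit 10) 
(.nd (nat_lit 27) (.lf (nat_lit 6710889409) (dlOf (nat_lit 1) (nat_lit 0x400400020008005d82))) 
(.lf (nat_lit 5771365313) (dlOf (nat_lit 1) (nat_lit 0x140028005d81)))) 
(.lf (nat_lit 536876993) (dlOf (nat_lit 1) (nat_lit 0x30008000c0020006000800a603))))))) 
(.nd (nat_lit 8) (.nd (nat_lit 20) (.nd (nat_lit 27) (.nd (nat_lit 19) (.nd (nat_lit 28) 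
(.lf (nat_lit 537133121) (dlOf (nat_lit 1) (nat_lit 0x20028020781))) 
(.lf (nat_lit 1342439489) (dlOf (nat_lit 1) (nat_lit 0x20028030e01)))) 
(.lf (nat_lit 3492544577) (dlOf (nat_lit 5) (nat_lit 0x300000003e8100180000001d4080028000000e8040060000000730200d400180d0b81)))) 
(.nd (nat_lit 10) 
(.lf (nat_lit 134479937) (dlOf (nat_lit 5) (nat_lit 0x60310000701000100880001c0800280c4001402200006040026031008c01800070044000000c004800400da0008030e02))) 
(.lf (nat_lit 2818839617) (dlOf (nat_lit 1) (nat_lit 0xa7000805d0002048a0008129283))))) 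
(.nd (nat_lit 9) (.nd (nat_lit 10) (.nd (nat_lit 19) 
(.lf (nat_lit 11796545) (dlOf (nat_lit 1) (nat_lit 0x600186c0001))) 
(.lf (nat_lit 5773197377) (dlOf (nat_lit 1) (nat_lit 0x4c002000200080b0502)))) 
(.lf (nat_lit 8131649) (dlOf (nat_lit 1) (nat_lit 0x20018519281)))) (.nd (nat_lit 19) 
(.lf (nat_lit 53742145) (dlOf (nat_lit 1) (nat_lit 0x100080004002000200095f5203))) 
(.lf (nat_lit 62655041) (dlOf (nat_lit 1) (nat_lit 0x10002002800099a5202)))))) (.nd (nat_lit 7) 
(.nd (nat_lit 10) (.nd (nat_lit 19) 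
(.lf (nat_lit 3408193) (dlOf (nat_lit 1) (nat_lit 0x20018200601))) 
(.lf (nat_lit 12321089) (dlOf (nat_lit 1) (nat_lit 0x800286c0601)))) (.nd (nat_lit 9) 
(.nd (nat_lit 11) (.lf (nat_lit 19666241) (dlOf (nat_lit 1) (nat_lit 0xa00289d9901))) 
(.lf (nat_lit 19668289) (dlOf (nat_lit 1) (nat_lit 0x280080008002001000089dc903)))) 
(.lf (nat_lit 20191041) (dlOf (nat_lit 2) (nat_lit 0x2a6c0000f0189da100))))) (.nd (nat_lit 21) 
(.nd (nat_lit 29) (.lf (nat_lit 5771627457) (dlOf (nat_lit 1) (nat_lit 0x1000200020008005d82))) 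
(.lf (nat_lit 6308498369) (dlOf (nat_lit 1) (nat_lit 0x5c4002031e00080d5d82)))) (.nd (nat_lit 9) 
(.lf (nat_lit 2359745) (dlOf (nat_lit 1) (nat_lit 0x400028150901))) 
(.lf (nat_lit 20188097) (dlOf (nat_lit 1) (nat_lit 0xa0004005e00089d5d82)))))))) (.nd (nat_lit 27) 
(.nd (nat_lit 11) (.nd (nat_lit 18) (.nd (nat_lit 32) (.nd (nat_lit 20) (.nd (nat_lit 12) 
(.lf (nat_lit 1140850753) (dlOf (nat_lit 1) (nat_lit 0x400400020008000002))) 
(.lf (nat_lit 603983937) (dlOf (nat_lit 1) (nat_lit 0x1a0018007d01)))) (.nd (nat_lit 9) 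
(.lf (nat_lit 68157505) (dlOf (nat_lit 1) (nat_lit 0xa0018400501))) 
(.lf (nat_lit 2752512577) (dlOf (nat_lit 1) (nat_lit 0xe0008018c01))))) (.nd (nat_lit 28) 
(.nd (nat_lit 19) (.lf (nat_lit 5435818049) (dlOf (nat_lit 1) (nat_lit 0x400400020008000002))) 
(.lf (nat_lit 4362600513) (dlOf (nat_lit 3) (nat_lit 0x120000000c00800200000005404002c002000c00080a0d02)))) 
(.nd (nat_lit 9) (.lf (nat_lit 4630511681) (dlOf (nat_lit 1) (nat_lit 0x400400020008000002))) 
(.lf (nat_lit 4630513217) (dlOf (nat_lit 1) (nat_lit 0x400400020008003802)))))) (.nd (nat_lit 19) 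
(.nd (nat_lit 28) (.lf (nat_lit 3288596545) (dlOf (nat_lit 1) (nat_lit 0x1c0008090001))) 
(.lf (nat_lit 1409548353) (dlOf (nat_lit 1) (nat_lit 0x20028020781)))) (.nd (nat_lit 7) 
(.nd (nat_lit 9) 
(.lf (nat_lit 2754347073) (dlOf (nat_lit 5) (nat_lit 0x300000003e8100180000001d4080028000000e8040060000000730200d400180d0b81))) 
(.lf (nat_lit 67895873) (dlOf (nat_lit 1) (nat_lit 0x18c0018331581)))) 
(.lf (nat_lit 69993665) (dlOf (nat_lit 1) (nat_lit 0x100008e62d01)))))) (.nd (nat_lit 7) 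
(.nd (nat_lit 8) (.nd (nat_lit 18) 
(.lf (nat_lit 2751470145) (dlOf (nat_lit 6) (nat_lit 0x51050000c008005082800280000002e04000c20a000168100101050000180800388280000804005c0040002000800b502))) 
(.lf (nat_lit 1410079297) (dlOf (nat_lit 1) (nat_lit 0x200180fb501)))) (.nd (nat_lit 9) 
(.lf (nat_lit 2751465793) (dlOf (nat_lit 2) (nat_lit 0x910e800028080008008000400200080008004c83))) 
(.lf (nat_lit 2754878273) (dlOf (nat_lit 1) (nat_lit 0xc004002400080fbc82))))) (.nd (nat_lit 8) 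
(.nd (nat_lit 9) (.nd (nat_lit 10) 
(.lf (nat_lit 4362078401) (dlOf (nat_lit 1) (nat_lit 0x800400040008004982))) 
(.lf (nat_lit 1946160321) (dlOf (nat_lit 1) (nat_lit 0x20028006381)))) 
(.lf (nat_lit 67115713) (dlOf (nat_lit 1) (nat_lit 0x2001800b981)))) (.nd (nat_lit 9) 
(.lf (nat_lit 603987393) (dlOf (nat_lit 1) (nat_lit 0x1a001800cd01))) 
(.lf (nat_lit 2754878401) (dlOf (nat_lit 6) (nat_lit 0x18848001c3f40040155001b09c00081c20005884800483f40050155002509c0008142000285540020270001f404000c212000f0fd001c0550003820c001842400101fa00360aa0007001800100080088002001c00080fbe03))))))) 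
(.nd (nat_lit 28) (.nd (nat_lit 9) (.nd (nat_lit 30) (.nd (nat_lit 18) 
(.lf (nat_lit 201850945) (dlOf (nat_lit 6) (nat_lit 0x2ae01d800080080ad80ec000260405540760000c0203cc03b0000581012401d800028080100008018400200e000080a0d03))) 
(.lf (nat_lit 201588801) (dlOf (nat_lit 5) (nat_lit 0x60310000701000100880001c0800280c4001402200006040026031008c01800070044000000c004800400da0008030e02)))) 
(.nd (nat_lit 29) (.lf (nat_lit 3422552129) (dlOf (nat_lit 1) (nat_lit 0x400400020008000002))) 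
(.lf (nat_lit 6106906689) (dlOf (nat_lit 1) (nat_lit 0x400400020008000002))))) (.nd (nat_lit 7) 
(.lf (nat_lit 6106908225) (dlOf (nat_lit 1) (nat_lit 0x400400020008003802))) (.nd (nat_lit 8) 
(.lf (nat_lit 3422552769) (dlOf (nat_lit 1) (nat_lit 0x8004000a0018001e82))) 
(.lf (nat_lit 4496559041) (dlOf (nat_lit 1) (nat_lit 0xb00080088002000a00080e5d83)))))) 
(.nd (nat_lit 7) (.nd (nat_lit 18) (.nd (nat_lit 11) 
(.lf (nat_lit 1007681601) (dlOf (nat_lit 1) (nat_lit 0x4002000200086d0e02))) 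
(.lf (nat_lit 1543510081) (dlOf (nat_lit 2) (nat_lit 0x805c0010b020002000800a681)))) 
(.nd (nat_lit 19) (.lf (nat_lit 470024257) (dlOf (nat_lit 1) (nat_lit 0x20028030e01))) 
(.lf (nat_lit 6377177153) (dlOf (nat_lit 1) (nat_lit 0x4c002000200080b0502))))) (.nd (nat_lit 29) 
(.nd (nat_lit 9) (.lf (nat_lit 472385985) (dlOf (nat_lit 2) (nat_lit 0x42c000c130200020018984e81))) 
(.lf (nat_lit 4764732353) (dlOf (nat_lit 1) (nat_lit 0x400400020008005d82)))) (.nd (nat_lit 8) 
(.lf (nat_lit 5301862593) (dlOf (nat_lit 1) (nat_lit 0x400180c1701))) 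
(.lf (nat_lit 4227860929) (dlOf (nat_lit 1) (nat_lit 0x20028004e81))))))))) (.nd (nat_lit 18) 
(.nd (nat_lit 8) (.nd (nat_lit 19) (.nd (nat_lit 11) (.nd (nat_lit 10) (.nd (nat_lit 23) 
(.lf (nat_lit 473964609) (dlOf (nat_lit 1) (nat_lit 0x280008fe0601))) 
(.lf (nat_lit 12591169) (dlOf (nat_lit 1) (nat_lit 0x200186d0d01)))) (.nd (nat_lit 7) 
(.lf (nat_lit 51389505) (dlOf (nat_lit 3) (nat_lit 0x274b0019f808001ba5800cf804005400200080009512882))) 
(.lf (nat_lit 51389633) (dlOf (nat_lit 2) (nat_lit 0xba5800059d2000060400140009512d01))))) 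
(.nd (nat_lit 9) (.nd (nat_lit 10) 
(.lf (nat_lit 1543518273) (dlOf (nat_lit 2) (nat_lit 0x80280008581800a680))) 
(.lf (nat_lit 5905591361) (dlOf (nat_lit 1) (nat_lit 0x20028006081)))) (.nd (nat_lit 7) 
(.lf (nat_lit 36710977) (dlOf (nat_lit 1) (nat_lit 0x20019075201))) 
(.lf (nat_lit 1342192321) (dlOf (nat_lit 1) (nat_lit 0x1b800800040020006000800b983)))))) 
(.nd (nat_lit 21) (.nd (nat_lit 27) (.nd (nat_lit 9) (.nd (nat_lit 26) 
(.lf (nat_lit 4027064385) (dlOf (nat_lit 1) (nat_lit 0x8008001c002000e00081d0c83))) 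
(.lf (nat_lit 3288866881) (dlOf (nat_lit 1) (nat_lit 0x8008001c002000e00081d0c83)))) 
(.lf (nat_lit 1346906689) (dlOf (nat_lit 2) (nat_lit 0x60b00000880800100080010002000600090a5203)))) 
(.nd (nat_lit 26) (.nd (nat_lit 29) 
(.lf (nat_lit 134750273) (dlOf (nat_lit 2) (nat_lit 0x200000001402003400080a0d81))) 
(.lf (nat_lit 2819104833) (dlOf (nat_lit 2) (nat_lit 0x29203f002430181a0900)))) 
(.lf (nat_lit 201859137) (dlOf (nat_lit 2) (nat_lit 0x11d01d8000800802200080078002007200080a0d03))))) 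
(.nd (nat_lit 20) (.nd (nat_lit 22) 
(.lf (nat_lit 2754093121) (dlOf (nat_lit 1) (nat_lit 0x200180c1801))) 
(.lf (nat_lit 48767041) (dlOf (nat_lit 2) (nat_lit 0x2d7570009dd5c00b4ea30011729801f37d8004db120026d4c00016840008f04000e0008004c002000c0009420603)))) 
(.nd (nat_lit 9) (.lf (nat_lit 3678273) (dlOf (nat_lit 1) (nat_lit 0x640008210d81))) 
(.lf (nat_lit 20456001) (dlOf (nat_lit 1) (nat_lit 0x4002000200089d1582))))))) (.nd (nat_lit 9) 
(.nd (nat_lit 7) (.nd (nat_lit 10) (.nd (nat_lit 11) 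
(.lf (nat_lit 2105665) (dlOf (nat_lit 1) (nat_lit 0x20028150601))) 
(.lf (nat_lit 469772609) (dlOf (nat_lit 1) (nat_lit 0x520018004c81)))) 
(.lf (nat_lit 4227870017) (dlOf (nat_lit 2) (nat_lit 0x900000005a04003400200220008006902)))) 
(.nd (nat_lit 11) (.nd (nat_lit 19) 
(.lf (nat_lit 40903105) (dlOf (nat_lit 1) (nat_lit 0x640019207a81))) 
(.lf (nat_lit 50864577) (dlOf (nat_lit 1) (nat_lit 0x48008010c002002e00094d7a83)))) 
(.nd (nat_lit 10) 
(.lf (nat_lit 472394177) (dlOf (nat_lit 2) (nat_lit 0x704680304c080088008000400200040008984e83))) 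
(.lf (nat_lit 2550148545) (dlOf (nat_lit 1) (nat_lit 0x500028006d01)))))) (.nd (nat_lit 28) 
(.nd (nat_lit 29) (.nd (nat_lit 10) 
(.lf (nat_lit 20458433) (dlOf (nat_lit 1) (nat_lit 0x200289d5d81))) 
(.lf (nat_lit 4429195201) (dlOf (nat_lit 1) (nat_lit 0x20008004401)))) (.nd (nat_lit 12) 
(.lf (nat_lit 5033176001) (dlOf (nat_lit 1) (nat_lit 0x400400020008005d82))) 
(.lf (nat_lit 671103937) (dlOf (nat_lit 2) (nat_lit 0x40500008022000400f80043c18002000800080020004000800be03))))) 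
(.nd (nat_lit 10) (.nd (nat_lit 30) 
(.lf (nat_lit 402664385) (dlOf (nat_lit 1) (nat_lit 0x8008000400200020008005d83))) 
(.lf (nat_lit 5771373505) (dlOf (nat_lit 1) (nat_lit 0x1400200020008005d82)))) (.nd (nat_lit 26) 
(.lf (nat_lit 2415929281) (dlOf (nat_lit 1) (nat_lit 0x20028004401))) 
(.lf (nat_lit 1006643137) (dlOf (nat_lit 1) (nat_lit 0x20008004401)))))))) (.nd (nat_lit 20) 
(.nd (nat_lit 27) (.nd (nat_lit 21) (.nd (nat_lit 26) (.nd (nat_lit 19) (.nd (nat_lit 28) 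
(.lf (nat_lit 537141313) (dlOf (nat_lit 2) (nat_lit 0x202c000038080038008001000200020008030e03))) 
(.lf (nat_lit 1342447681) (dlOf (nat_lit 2) (nat_lit 0x5124800c871c0000008002000400240008030e02)))) 
(.lf (nat_lit 59514945) (dlOf (nat_lit 2) (nat_lit 0x7b33e802419f00398b28007e4e6001326a0005502800a80080014002000c0009800603)))) 
(.nd (nat_lit 30) 
(.lf (nat_lit 2483298369) (dlOf (nat_lit 3) (nat_lit 0x5809c0028046001e01b0000b0300310118000140801900080098002001e00080a0d83))) 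
(.lf (nat_lit 1409556545) (dlOf (nat_lit 2) (nat_lit 0x202c000038080038008001000200020008030e03))))) 
(.nd (nat_lit 7) (.nd (nat_lit 8) 
(.lf (nat_lit 69478977) (dlOf (nat_lit 2) (nat_lit 0x806700017c0800400080054002001e0008a25203))) 
(.lf (nat_lit 19676481) (dlOf (nat_lit 1) (nat_lit 0xa00189dc901)))) 
(.lf (nat_lit 2367937) (dlOf (nat_lit 1) (nat_lit 0x400200020008150902))))) (.nd (nat_lit 28) 
(.nd (nat_lit 31) (.nd (nat_lit 26) 
(.lf (nat_lit 134488129) (dlOf (nat_lit 3) (nat_lit 0xc0620004011000038200130188006804400000080040002002c0008030e02))) 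
(.lf (nat_lit 201596993) (dlOf (nat_lit 3) (nat_lit 0xc0620004011000038200130188006804400000080040002002c0008030e02)))) 
(.nd (nat_lit 9) 
(.lf (nat_lit 2349080641) (dlOf (nat_lit 4) (nat_lit 0x5cc044000200200300220000981008501100002c080088008005c002002000080a0d03))) 
(.lf (nat_lit 6644048449) (dlOf (nat_lit 1) (nat_lit 0x1c00180b1581))))) (.nd (nat_lit 8) 
(.nd (nat_lit 19) 
(.lf (nat_lit 470032449) (dlOf (nat_lit 2) (nat_lit 0x5124800c871c0000008002000400240008030e02))) 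
(.lf (nat_lit 470556737) (dlOf (nat_lit 1) (nat_lit 0x100018121801)))) (.nd (nat_lit 7) 
(.lf (nat_lit 2080645441) (dlOf (nat_lit 1) (nat_lit 0x10002000400080a5f82))) 
(.lf (nat_lit 3624152513) (dlOf (nat_lit 1) (nat_lit 0x80028146d01))))))) (.nd (nat_lit 19) 
(.nd (nat_lit 11) (.nd (nat_lit 8) (.nd (nat_lit 21) 
(.lf (nat_lit 26484801) (dlOf (nat_lit 1) (nat_lit 0x400400040008c50502))) 
(.lf (nat_lit 24387649) (dlOf (nat_lit 1) (nat_lit 0x400400020008b90d82)))) 
(.lf (nat_lit 20199233) (dlOf (nat_lit 1) (nat_lit 0x200189da101)))) (.nd (nat_lit 7) 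
(.nd (nat_lit 23) (.lf (nat_lit 53750337) (dlOf (nat_lit 1) (nat_lit 0x80080008002000400095f5203))) 
(.lf (nat_lit 45361729) (dlOf (nat_lit 2) (nat_lit 0x1b04c000b20400b0004000c0009325202)))) 
(.lf (nat_lit 2754886593) (dlOf (nat_lit 1) (nat_lit 0x4004000200080fbe02))))) (.nd (nat_lit 23) 
(.nd (nat_lit 8) (.nd (nat_lit 26) 
(.lf (nat_lit 5773205569) (dlOf (nat_lit 4) (nat_lit 0xe13f000390100060990001bc0800284fc0004a040008004002600080b0502))) 
(.lf (nat_lit 6377185345) (dlOf (nat_lit 4) (nat_lit 0xe132000390100060918001bc0800284c80004a040008004002600080b0502)))) 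
(.lf (nat_lit 1843521) (dlOf (nat_lit 1) (nat_lit 0xe0018150601)))) (.nd (nat_lit 7) 
(.lf (nat_lit 45883457) (dlOf (nat_lit 2) (nat_lit 0x2343f00121d040047808000800200020009360602))) 
(.lf (nat_lit 47981761) (dlOf (nat_lit 1) (nat_lit 0x20019402d01))))))))) (.nd (nat_lit 13) 
(.nd (nat_lit 8) (.nd (nat_lit 18) (.nd (nat_lit 31) (.nd (nat_lit 21) (.nd (nat_lit 11) 
(.nd (nat_lit 19) (.nd (nat_lit 20) 
(.lf (nat_lit 268468289) (dlOf (nat_lit 1) (nat_lit 0x400400020008050002))) 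
(.lf (nat_lit 13664321) (dlOf (nat_lit 4) (nat_lit 0x8af40003902000857a0001c0100032bd0000dc080040008001800200160008740e83)))) 
(.lf (nat_lit 474513473) (dlOf (nat_lit 1) (nat_lit 0x200191a0601)))) (.nd (nat_lit 26) 
(.lf (nat_lit 805345345) (dlOf (nat_lit 1) (nat_lit 0x6000800a681))) 
(.lf (nat_lit 1811978305) (dlOf (nat_lit 1) (nat_lit 0x40040002000800a682))))) (.nd (nat_lit 9) 
(.nd (nat_lit 19) (.nd (nat_lit 22) 
(.lf (nat_lit 44073025) (dlOf (nat_lit 1) (nat_lit 0x800092c0501))) 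
(.lf (nat_lit 14712897) (dlOf (nat_lit 1) (nat_lit 0xc0008026c002012e0008770503)))) 
(.lf (nat_lit 3702849) (dlOf (nat_lit 1) (nat_lit 0xd800800d400200720008210d83)))) 
(.nd (nat_lit 11) (.lf (nat_lit 20480577) (dlOf (nat_lit 1) (nat_lit 0x4002000200089d1582))) 
(.lf (nat_lit 36735553) (dlOf (nat_lit 1) (nat_lit 0x20019075201)))))) (.nd (nat_lit 19) 
(.nd (nat_lit 11) (.nd (nat_lit 26) 
(.lf (nat_lit 3355476545) (dlOf (nat_lit 1) (nat_lit 0x10008004800200020008001583))) 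
(.lf (nat_lit 2617279041) (dlOf (nat_lit 2) (nat_lit 0x402b0002d018001580)))) (.nd (nat_lit 9) 
(.lf (nat_lit 3221264449) (dlOf (nat_lit 1) (nat_lit 0x40020008000800a682))) 
(.lf (nat_lit 2751502913) (dlOf (nat_lit 6) (nat_lit 0x1420a0001801000a1050000b80800208280005a0400404140000602001820a000a0ea0000101000700080028002003e000800b503))))) 
(.nd (nat_lit 20) (.nd (nat_lit 21) (.nd (nat_lit 26) 
(.lf (nat_lit 3221782593) (dlOf (nat_lit 1) (nat_lit 0x20028180d81))) 
(.lf (nat_lit 3557326913) (dlOf (nat_lit 2) (nat_lit 0x29203f005078181c0900)))) 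
(.lf (nat_lit 3492315201) (dlOf (nat_lit 2) (nat_lit 0x1879c00294040018004005400080c1402)))) 
(.nd (nat_lit 26) 
(.lf (nat_lit 3493363777) (dlOf (nat_lit 2) (nat_lit 0x2806800170210016808c003803c000170800080008120e01))) 
(.lf (nat_lit 2755166273) (dlOf (nat_lit 2) (nat_lit 0x2806800170210016808c003803c000160800080008120e01))))))) 
(.nd (nat_lit 20) (.nd (nat_lit 9) (.nd (nat_lit 31) (.nd (nat_lit 22) 
(.lf (nat_lit 67403841) (dlOf (nat_lit 1) (nat_lit 0xa00180f0501))) 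
(.lf (nat_lit 12877889) (dlOf (nat_lit 2) (nat_lit 0x198cc00034040008004000600086e0c82)))) 
(.nd (nat_lit 21) (.nd (nat_lit 27) 
(.lf (nat_lit 2483322945) (dlOf (nat_lit 3) (nat_lit 0x200a40090046000401b0000b0300070118000140801c0008007c002000c00080a0d83))) 
(.lf (nat_lit 2349105217) (dlOf (nat_lit 3) (nat_lit 0x1740220001001006801100002c0801400080040002000c00080a0d03)))) 
(.lf (nat_lit 2753855553) (dlOf (nat_lit 2) (nat_lit 0xa004800080080018008002c002000200080a0d03))))) 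
(.nd (nat_lit 26) (.lf (nat_lit 4026827329) (dlOf (nat_lit 1) (nat_lit 0x40008091081))) 
(.nd (nat_lit 27) (.lf (nat_lit 3288629825) (dlOf (nat_lit 1) (nat_lit 0x40008091081))) 
(.lf (nat_lit 3959718465) (dlOf (nat_lit 3) (nat_lit 0x781140004804002008a000230200020028128c01)))))) 
(.nd (nat_lit 19) (.nd (nat_lit 9) (.nd (nat_lit 7) 
(.lf (nat_lit 24412225) (dlOf (nat_lit 2) (nat_lit 0x40000000a818b90d80))) 
(.lf (nat_lit 47482049) (dlOf (nat_lit 1) (nat_lit 0x20019402d01)))) (.nd (nat_lit 24) 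
(.lf (nat_lit 36997697) (dlOf (nat_lit 1) (nat_lit 0x3a0009075201))) 
(.lf (nat_lit 53774913) (dlOf (nat_lit 1) (nat_lit 0x4002000200095f5202))))) (.nd (nat_lit 21) 
(.lf (nat_lit 10256449) (dlOf (nat_lit 4) (nat_lit 0x3deb00001c08006f18c00337ac00006040023c630015deb0000001001300080034002001200085c0e03))) 
(.nd (nat_lit 23) 
(.lf (nat_lit 1346142273) (dlOf (nat_lit 2) (nat_lit 0xb80a6805c0364022c1b0002470600020028e60601))) 
(.lf (nat_lit 45908033) (dlOf (nat_lit 1) (nat_lit 0x40019360601)))))))) (.nd (nat_lit 28) 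
(.nd (nat_lit 9) (.nd (nat_lit 18) (.nd (nat_lit 10) 
(.lf (nat_lit 1074299201) (dlOf (nat_lit 2) (nat_lit 0x2f80000007e040250002000e00081b0602))) 
(.nd (nat_lit 19) (.lf (nat_lit 34113) (dlOf (nat_lit 1) (nat_lit 0x140018003281))) 
(.lf (nat_lit 49841473) (dlOf (nat_lit 1) (nat_lit 0x80080004002000200094c3283))))) 
(.nd (nat_lit 7) (.nd (nat_lit 26) 
(.lf (nat_lit 3221520705) (dlOf (nat_lit 4) (nat_lit 0x102300388114009720801ac08a003f0020006046007702280000010076000800cc002002e0008124c03))) 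
(.lf (nat_lit 3959718209) (dlOf (nat_lit 4) (nat_lit 0x1023003881140149c0801ac08a0098a020006046007702280000010076000800cc002002e0008124c03)))) 
(.nd (nat_lit 11) (.lf (nat_lit 3441089) (dlOf (nat_lit 1) (nat_lit 0x40028200901))) 
(.lf (nat_lit 36473281) (dlOf (nat_lit 1) (nat_lit 0x20019074e81)))))) (.nd (nat_lit 10) 
(.nd (nat_lit 18) (.nd (nat_lit 26) (.nd (nat_lit 29) 
(.lf (nat_lit 5368744897) (dlOf (nat_lit 1) (nat_lit 0x1400400140008005d82))) 
(.lf (nat_lit 1610648513) (dlOf (nat_lit 1) (nat_lit 0xd800400080008005d82)))) 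
(.lf (nat_lit 1275104193) (dlOf (nat_lit 1) (nat_lit 0x60008001400200160008005d83)))) 
(.lf (nat_lit 20220865) (dlOf (nat_lit 1) (nat_lit 0x4002000200089d5d82)))) (.nd (nat_lit 7) 
(.lf (nat_lit 20748097) (dlOf (nat_lit 1) (nat_lit 0x200189da101))) (.nd (nat_lit 18) 
(.lf (nat_lit 201365441) (dlOf (nat_lit 1) (nat_lit 0x2002800a601))) 
(.lf (nat_lit 8165313) (dlOf (nat_lit 1) (nat_lit 0x2000851a601))))))) (.nd (nat_lit 10) 
(.nd (nat_lit 19) (.nd (nat_lit 7) (.nd (nat_lit 9) 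
(.lf (nat_lit 3493888321) (dlOf (nat_lit 1) (nat_lit 0x80080004002000200081b0603))) 
(.lf (nat_lit 3087047489) (dlOf (nat_lit 1) (nat_lit 0x20001800bc81)))) (.nd (nat_lit 9) 
(.lf (nat_lit 4227893697) (dlOf (nat_lit 1) (nat_lit 0xa00080044002000e0008004e83))) 
(.lf (nat_lit 2952827841) (dlOf (nat_lit 2) (nat_lit 0x274054000000200180028009201))))) 
(.nd (nat_lit 29) (.nd (nat_lit 26) 
(.lf (nat_lit 1342734657) (dlOf (nat_lit 6) (nat_lit 0x110f480012c0801d07cc000800401443e60003f0200261710001d0100151118000b80800080080200002002400080c0603))) 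
(.lf (nat_lit 470319425) (dlOf (nat_lit 6) (nat_lit 0x110f48001480801d07c80008e0401443e4000460200261730002081001510f8000a00800080080200002002400080c0603)))) 
(.nd (nat_lit 7) 
(.lf (nat_lit 1946714433) (dlOf (nat_lit 2) (nat_lit 0x2f80000008c040250002000e00081b0602))) 
(.lf (nat_lit 4094198209) (dlOf (nat_lit 1) (nat_lit 0x1000400020008017a82)))))) (.nd (nat_lit 9) 
(.nd (nat_lit 29) (.nd (nat_lit 11) 
(.lf (nat_lit 469800257) (dlOf (nat_lit 1) (nat_lit 0x2400400060008009902))) 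
(.lf (nat_lit 1342213441) (dlOf (nat_lit 1) (nat_lit 0x4004000a0008006902)))) (.nd (nat_lit 7) 
(.lf (nat_lit 4227894593) (dlOf (nat_lit 1) (nat_lit 0xa0008006901))) 
(.lf (nat_lit 4227894721) (dlOf (nat_lit 1) (nat_lit 0x780080038002000c0008006d03))))) 
(.nd (nat_lit 18) (.nd (nat_lit 27) 
(.lf (nat_lit 1879086913) (dlOf (nat_lit 2) (nat_lit 0x241be0001e02002a002800a101))) 
(.lf (nat_lit 1476433729) (dlOf (nat_lit 2) (nat_lit 0xe0360003401800a100)))) 
(.lf (nat_lit 3557070657) (dlOf (nat_lit 4) (nat_lit 0x40014000d004000800a00040030002102000500300008c080068008000c0020026000812a103)))))))) 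
(.nd (nat_lit 19) (.nd (nat_lit 11) (.nd (nat_lit 18) (.nd (nat_lit 20) (.nd (nat_lit 7) 
(.nd (nat_lit 9) 
(.lf (nat_lit 2755699009) (dlOf (nat_lit 3) (nat_lit 0x1d20b20002a8100090590001500800100080038002001c00081b0603))) 
(.lf (nat_lit 1476441921) (dlOf (nat_lit 3) (nat_lit 0xe0360003401000401a00008c08001800800040020002000800a103)))) 
(.lf (nat_lit 2755698881) (dlOf (nat_lit 1) (nat_lit 0x48002001200081b0402)))) (.nd (nat_lit 22) 
(.nd (nat_lit 26) (.lf (nat_lit 3490750529) (dlOf (nat_lit 1) (nat_lit 0x20008020781))) 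
(.lf (nat_lit 2752553025) (dlOf (nat_lit 1) (nat_lit 0x20008020781)))) 
(.lf (nat_lit 13672513) (dlOf (nat_lit 4) (nat_lit 0x64af40003902003857a0001c01001b2bd0000dc0800e8008001c00200100008740e83))))) 
(.nd (nat_lit 20) (.nd (nat_lit 9) (.nd (nat_lit 26) 
(.lf (nat_lit 402956353) (dlOf (nat_lit 2) (nat_lit 0x30090000ea040008004001600180b0502))) 
(.lf (nat_lit 335847489) (dlOf (nat_lit 2) (nat_lit 0x30098000ea040008004001600180b0502)))) 
(.lf (nat_lit 3959726657) (dlOf (nat_lit 3) (nat_lit 0x29c0760002302001200e00011018128c00)))) 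
(.nd (nat_lit 7) (.nd (nat_lit 22) 
(.lf (nat_lit 1351745) (dlOf (nat_lit 1) (nat_lit 0x4002000200080b0782))) 
(.lf (nat_lit 22323265) (dlOf (nat_lit 1) (nat_lit 0xc800400560008ac0d82)))) 
(.lf (nat_lit 47489217) (dlOf (nat_lit 1) (nat_lit 0x18008000400200020009400783)))))) 
(.nd (nat_lit 8) (.nd (nat_lit 9) (.nd (nat_lit 28) 
(.lf (nat_lit 3221272641) (dlOf (nat_lit 8) (nat_lit 0x2800500089808007015800380a4001c036000f015800700440090014002180c00220560011029000880d80030056000401e0011008801480280042e1c0008014002160200680510019027001e013400d806a0010034003500f80078078003000c001d9100040051000102700060134006806a002601f001500f00070018003ae1c004809c001c3020012001800a681))) 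
(.lf (nat_lit 805353537) (dlOf (nat_lit 7) (nat_lit 0x50154002809c0014037000900900058028002800c002280c0016055000a027000500dc000c056000e024000a00900050028002000c00218100018055000c027000680dc00140480018012000c005000600180042e1c00180140021602000a054000101b000a0090002020c00180aa00000020006001800a681)))) 
(.nd (nat_lit 12) (.nd (nat_lit 18) 
(.lf (nat_lit 36743745) (dlOf (nat_lit 1) (nat_lit 0x20019075201))) 
(.lf (nat_lit 45394497) (dlOf (nat_lit 1) (nat_lit 0x40009325201)))) 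
(.lf (nat_lit 2751511105) (dlOf (nat_lit 5) (nat_lit 0x288280005c0400084140000602000420a0000201000110500000008002800800100020018000800b503))))) 
(.nd (nat_lit 28) (.nd (nat_lit 7) 
(.lf (nat_lit 3959470913) (dlOf (nat_lit 2) (nat_lit 0x4023002ba008004000800080020002000800bc83))) 
(.nd (nat_lit 27) 
(.lf (nat_lit 1677769665) (dlOf (nat_lit 4) (nat_lit 0x28154003c09c00080370009015800400900010024000c00a000700300081c400030154004409c000c037000c01580048090001c024001000a0008003000814400008090000000400540040014000800be02))) 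
(.lf (nat_lit 3959471041) (dlOf (nat_lit 5) (nat_lit 0xc015800640a40032036001b015800500780068022004000a000c00300081c40010015800080aa0044052002201b001180ac004003c0046011001e005000700180040a2400dc0a2002004e0014026801b80d40030068007201f000e00f00068018003822000d40a2000404e000f026801a00d400d403e001201e000b00300070038005000800080020006000800be03))))) 
(.nd (nat_lit 7) 
(.lf (nat_lit 3489709377) (dlOf (nat_lit 4) (nat_lit 0x903e8004c1f3003410200290f90013a40801287c8009b004000c004000e000800c902))) 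
(.nd (nat_lit 26) (.lf (nat_lit 4697664449) (dlOf (nat_lit 1) (nat_lit 0xc00400040018005d82))) 
(.lf (nat_lit 5301644225) (dlOf (nat_lit 1) (nat_lit 0x1c8002013c0008005d82)))))))) 
(.nd (nat_lit 18) (.nd (nat_lit 20) (.nd (nat_lit 7) (.nd (nat_lit 22) (.nd (nat_lit 26) 
(.lf (nat_lit 1611178049) (dlOf (nat_lit 1) (nat_lit 0x8004000a0008101002))) 
(.lf (nat_lit 738762817) (dlOf (nat_lit 1) (nat_lit 0x8004000a0008101002)))) 
(.lf (nat_lit 21536833) (dlOf (nat_lit 2) (nat_lit 0x40ed5001d76a00013b4c0003da4000aea40004f50c000fc18005c00400e80018a40482)))) 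
(.nd (nat_lit 26) 
(.lf (nat_lit 1611178177) (dlOf (nat_lit 2) (nat_lit 0xf0290002014000ab00800e400400100008105802))) 
(.lf (nat_lit 738762945) (dlOf (nat_lit 2) (nat_lit 0xf02900020140016020800e400400100008105802))))) 
(.nd (nat_lit 9) (.nd (nat_lit 26) 
(.lf (nat_lit 3493371969) (dlOf (nat_lit 2) (nat_lit 0x640680033021000b008c00d803c000170800020018120e01))) 
(.lf (nat_lit 2755174465) (dlOf (nat_lit 2) (nat_lit 0x640680033021000b008c00d803c000160800020018120e01)))) 
(.nd (nat_lit 7) (.lf (nat_lit 54045249) (dlOf (nat_lit 1) (nat_lit 0x4002000200095f5202))) 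
(.lf (nat_lit 20491201) (dlOf (nat_lit 1) (nat_lit 0x600289d5d81)))))) (.nd (nat_lit 21) 
(.nd (nat_lit 26) (.nd (nat_lit 20) (.nd (nat_lit 22) 
(.lf (nat_lit 1343004737) (dlOf (nat_lit 4) (nat_lit 0x70249003111f802c08ac01483e0004a1c700560de80025830006893000a4492004023f0002118800b08ac009c3e0002e1c700100e3001c86f400b42f40008514004e249002111f801207c0005438e004e1bd001f0bd0002103000b0008016400200460008130b83))) 
(.lf (nat_lit 21798977) (dlOf (nat_lit 3) (nat_lit 0x131a88000ac0800c80000004a04012800400020008a70782)))) 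
(.lf (nat_lit 10264641) (dlOf (nat_lit 4) (nat_lit 0x16f580000e0400378c60003bd600003020012e318009ef5800000080064004003000085c0e02)))) 
(.nd (nat_lit 7) 
(.lf (nat_lit 470589505) (dlOf (nat_lit 4) (nat_lit 0x70249003111f802c08ac01483e0004a1c700560de80025830006893000a4492004023f0002118800b08ac009c3e0002e1c700100e3001c86f400b43060008514004e249002111f801207c0005438e004e1bd001f0c18002103000b0008016400200460008130b83))) 
(.nd (nat_lit 27) 
(.lf (nat_lit 4362904001) (dlOf (nat_lit 2) (nat_lit 0x80000008004002c002001600081a0902))) 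
(.lf (nat_lit 4228686273) (dlOf (nat_lit 2) (nat_lit 0x80000008004002c002001600081a0902)))))) 
(.nd (nat_lit 9) (.nd (nat_lit 7) 
(.lf (nat_lit 1346150465) (dlOf (nat_lit 3) (nat_lit 0x2f029a02000d900c406c006381f404780f8002470a024c14c009606b802381ec002a80c05cc004002e0008e60602))) 
(.lf (nat_lit 36479169) (dlOf (nat_lit 1) (nat_lit 0x400200020009070782)))) (.nd (nat_lit 8) 
(.nd (nat_lit 11) (.lf (nat_lit 20750913) (dlOf (nat_lit 1) (nat_lit 0x4002000200089d1582))) 
(.lf (nat_lit 472689217) (dlOf (nat_lit 1) (nat_lit 0xc002001c0008a45202)))) 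
(.lf (nat_lit 8168257) (dlOf (nat_lit 1) (nat_lit 0x400200020008512302)))))))))) (.nd (nat_lit 28) 
(.nd (nat_lit 18) (.nd (nat_lit 15) (.nd (nat_lit 13) (.nd (nat_lit 9) (.nd (nat_lit 26) 
(.nd (nat_lit 22) (.nd (nat_lit 8) 
(.lf (nat_lit 34144321) (dlOf (nat_lit 1) (nat_lit 0x400400020008fb0002))) 
(.lf (nat_lit 1208025409) (dlOf (nat_lit 1) (nat_lit 0x400200020008090c02)))) (.nd (nat_lit 20) 
(.lf (nat_lit 14745665) (dlOf (nat_lit 2) (nat_lit 0x36892000490200080008770501))) 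
(.lf (nat_lit 13697089) (dlOf (nat_lit 1) (nat_lit 0x800200020008740e82))))) (.nd (nat_lit 7) 
(.nd (nat_lit 19) (.lf (nat_lit 2752577601) (dlOf (nat_lit 1) (nat_lit 0x400200020008020782))) 
(.lf (nat_lit 2756247617) (dlOf (nat_lit 8) (nat_lit 0x3001e000d301001700f0006900800b80780032804005c03c0019002000401e0004e01001700f0002680802401a00110084007c023005700f000258200168008002c00200100008220b83)))) 
(.nd (nat_lit 8) (.lf (nat_lit 1677787329) (dlOf (nat_lit 1) (nat_lit 0xc0028090401))) 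
(.lf (nat_lit 1812005313) (dlOf (nat_lit 2) (nat_lit 0x100d00010c0800100080024002000e00080b0903)))))) 
(.nd (nat_lit 19) (.nd (nat_lit 12) (.nd (nat_lit 26) 
(.lf (nat_lit 4429251137) (dlOf (nat_lit 1) (nat_lit 0x60028018c01))) 
(.lf (nat_lit 3825271361) (dlOf (nat_lit 1) (nat_lit 0x200280b1081)))) (.nd (nat_lit 8) 
(.lf (nat_lit 604049985) (dlOf (nat_lit 1) (nat_lit 0x800400020008008982))) 
(.lf (nat_lit 3355513665) (dlOf (nat_lit 1) (nat_lit 0x2c00280a8f81))))) (.nd (nat_lit 11) 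
(.nd (nat_lit 10) (.lf (nat_lit 20513345) (dlOf (nat_lit 1) (nat_lit 0x4002000200089d1582))) 
(.lf (nat_lit 61408833) (dlOf (nat_lit 1) (nat_lit 0x800400020019923802)))) (.nd (nat_lit 12) 
(.lf (nat_lit 69798465) (dlOf (nat_lit 1) (nat_lit 0x2400200260008c75202))) 
(.lf (nat_lit 7936577) (dlOf (nat_lit 5) (nat_lit 0x315600018aae0001d04000a5580000e0100072ac0000600800395600002a0400140020010000851b502))))))) 
(.nd (nat_lit 29) (.nd (nat_lit 30) (.nd (nat_lit 7) (.nd (nat_lit 8) 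
(.lf (nat_lit 8462401) (dlOf (nat_lit 1) (nat_lit 0x400200020008510002))) 
(.lf (nat_lit 3219777) (dlOf (nat_lit 1) (nat_lit 0x400200020008200602)))) (.nd (nat_lit 10) 
(.lf (nat_lit 50930113) (dlOf (nat_lit 1) (nat_lit 0x80080010002001a00094d7a83))) 
(.lf (nat_lit 7943617) (dlOf (nat_lit 1) (nat_lit 0x1c0028519a01))))) (.nd (nat_lit 9) 
(.nd (nat_lit 27) (.lf (nat_lit 3221299521) (dlOf (nat_lit 2) (nat_lit 0x5802000016818090600))) 
(.lf (nat_lit 1208033601) (dlOf (nat_lit 4) (nat_lit 0x480980005a0400280520002a02001402800001018090c00)))) 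
(.lf (nat_lit 3355521857) (dlOf (nat_lit 1) (nat_lit 0x9e00280a8f81))))) (.nd (nat_lit 8) 
(.nd (nat_lit 19) (.lf (nat_lit 1610686529) (dlOf (nat_lit 1) (nat_lit 0x20028090001))) 
(.nd (nat_lit 22) 
(.lf (nat_lit 537468993) (dlOf (nat_lit 2) (nat_lit 0xe0258000800800100080038002002400080a0d03))) 
(.lf (nat_lit 2756255809) (dlOf (nat_lit 1) (nat_lit 0x20028230e81))))) (.nd (nat_lit 22) 
(.nd (nat_lit 31) (.lf (nat_lit 1812013377) (dlOf (nat_lit 1) (nat_lit 0xca00080b0601))) 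
(.lf (nat_lit 3959497025) (dlOf (nat_lit 2) (nat_lit 0x5802000016018090600)))) 
(.lf (nat_lit 2755731777) (dlOf (nat_lit 1) (nat_lit 0x200281b0601))))))) (.nd (nat_lit 8) 
(.nd (nat_lit 31) (.nd (nat_lit 9) (.nd (nat_lit 13) (.nd (nat_lit 19) 
(.lf (nat_lit 12681281) (dlOf (nat_lit 1) (nat_lit 0x200286d0d01))) 
(.lf (nat_lit 3768385) (dlOf (nat_lit 2) (nat_lit 0x900000001a04002c00200040008220c82)))) 
(.nd (nat_lit 22) 
(.lf (nat_lit 25272385) (dlOf (nat_lit 2) (nat_lit 0x1006a2000750200020028bf0b81))) 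
(.lf (nat_lit 12689473) (dlOf (nat_lit 1) (nat_lit 0x4004000200086d0d02))))) (.nd (nat_lit 11) 
(.lf (nat_lit 1073848897) (dlOf (nat_lit 1) (nat_lit 0x120018018c01))) (.nd (nat_lit 12) 
(.lf (nat_lit 69306945) (dlOf (nat_lit 1) (nat_lit 0x300080028002001c0008905203))) 
(.lf (nat_lit 7969345) (dlOf (nat_lit 1) (nat_lit 0x800800040020002000851b503)))))) 
(.nd (nat_lit 19) (.nd (nat_lit 13) (.nd (nat_lit 20) 
(.lf (nat_lit 2348908609) (dlOf (nat_lit 3) (nat_lit 0x90054007e0280001582000f0140000940800e8008002c00200180008020783))) 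
(.lf (nat_lit 2752610369) (dlOf (nat_lit 1) (nat_lit 0x20008020781)))) 
(.lf (nat_lit 2348916801) (dlOf (nat_lit 7) (nat_lit 0xe016019c80a809a80500244018001800800060038014c00600fa000000158800be016016f80a80b28050020e01d014300c00d18040018801e02c000e017d006806a0030001c01603b400800b0001807a80000004a38045c05800ac018016d00800c20038020401800ac0000001186005a016000400a801c0050019e010001d00780610038012c01a006c0000001108002c01600238040000401c000200602b20100057007000058100fa0008045000207d80008020783)))) 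
(.nd (nat_lit 13) (.nd (nat_lit 22) 
(.lf (nat_lit 3221848129) (dlOf (nat_lit 2) (nat_lit 0xe8046001e022800f00e0000000c000c002003200081a1402))) 
(.lf (nat_lit 2756280385) (dlOf (nat_lit 1) (nat_lit 0x400200020008230e82)))) 
(.lf (nat_lit 3221856321) (dlOf (nat_lit 5) (nat_lit 0x21802f00410170005281008600bc004c05c0014804021c02f0008681002401780042c0801c00080018002005a00081a1403)))))) 
(.nd (nat_lit 9) (.nd (nat_lit 13) (.nd (nat_lit 19) (.nd (nat_lit 21) 
(.lf (nat_lit 1677820225) (dlOf (nat_lit 1) (nat_lit 0x5b4004000a0018090602))) 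
(.lf (nat_lit 2195777) (dlOf (nat_lit 1) (nat_lit 0x2000200060008150602)))) 
(.lf (nat_lit 23691585) (dlOf (nat_lit 1) (nat_lit 0x2d800400040008b80602)))) (.nd (nat_lit 19) 
(.nd (nat_lit 26) 
(.lf (nat_lit 3221332289) (dlOf (nat_lit 2) (nat_lit 0x3d0100000b4080118008011000200a20008090603))) 
(.lf (nat_lit 3959529793) (dlOf (nat_lit 2) (nat_lit 0x3d0100000b0080118008011000200a20008090603)))) 
(.lf (nat_lit 23699777) (dlOf (nat_lit 1) (nat_lit 0x18000400200008b80602))))) (.nd (nat_lit 12) 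
(.nd (nat_lit 7) (.nd (nat_lit 26) 
(.lf (nat_lit 100161) (dlOf (nat_lit 1) (nat_lit 0x158008007800200500008003e03))) 
(.lf (nat_lit 201426753) (dlOf (nat_lit 1) (nat_lit 0x80028003e01)))) 
(.lf (nat_lit 1073842113) (dlOf (nat_lit 1) (nat_lit 0x1c00200060008004402)))) (.nd (nat_lit 10) 
(.lf (nat_lit 3355546433) (dlOf (nat_lit 1) (nat_lit 0x2c00280a8f81))) 
(.lf (nat_lit 636737) (dlOf (nat_lit 1) (nat_lit 0x64000800a101)))))))) (.nd (nat_lit 21) 
(.nd (nat_lit 26) (.nd (nat_lit 19) (.nd (nat_lit 13) (.nd (nat_lit 7) (.nd (nat_lit 22) 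
(.nd (nat_lit 29) 
(.lf (nat_lit 1208287297) (dlOf (nat_lit 8) (nat_lit 0xe80a40018018000720400de02900100060001bc1002f00a400180180002104005a02900060060000801003500a400180180001c0400d20290000d0100010148000640800900080034002000c00080b0503))) 
(.lf (nat_lit 1745158209) (dlOf (nat_lit 2) (nat_lit 0x28024000310180b0500)))) 
(.lf (nat_lit 46465089) (dlOf (nat_lit 1) (nat_lit 0x400400020009380002)))) (.nd (nat_lit 8) 
(.lf (nat_lit 21332161) (dlOf (nat_lit 1) (nat_lit 0x800200080008a31b02))) 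
(.lf (nat_lit 8751041) (dlOf (nat_lit 1) (nat_lit 0x20028514401))))) (.nd (nat_lit 8) 
(.nd (nat_lit 9) (.lf (nat_lit 1384513) (dlOf (nat_lit 1) (nat_lit 0x200180c0e01))) 
(.lf (nat_lit 6442787393) (dlOf (nat_lit 1) (nat_lit 0x380080008002000400081b1083)))) 
(.lf (nat_lit 21340481) (dlOf (nat_lit 1) (nat_lit 0x2800200020008a34c02))))) (.nd (nat_lit 20) 
(.nd (nat_lit 9) (.nd (nat_lit 22) 
(.lf (nat_lit 34406465) (dlOf (nat_lit 1) (nat_lit 0x400400020008fb0002))) 
(.lf (nat_lit 21823553) (dlOf (nat_lit 3) (nat_lit 0x1591100012810003c8b000f61c000026080018004000c0008a70782)))) 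
(.lf (nat_lit 38636097) (dlOf (nat_lit 1) (nat_lit 0x1800400580009135202)))) (.nd (nat_lit 8) 
(.lf (nat_lit 10289217) (dlOf (nat_lit 5) (nat_lit 0x700000000b01005700000001c0801c00000000c04001cc78006a57a003528f801d8000000001000e4002002200085c0e02))) 
(.lf (nat_lit 1900865) (dlOf (nat_lit 2) (nat_lit 0x13548e000330200200008150601)))))) 
(.nd (nat_lit 13) (.nd (nat_lit 7) (.nd (nat_lit 27) 
(.lf (nat_lit 3288662081) (dlOf (nat_lit 2) (nat_lit 0x30000000500800f000800ac002004e00080a0d83))) 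
(.lf (nat_lit 2349137985) (dlOf (nat_lit 4) (nat_lit 0x3e00500007502013a0280003a01000f0140001cc0800680080084002000600080d0b83)))) 
(.nd (nat_lit 10) (.lf (nat_lit 4496624577) (dlOf (nat_lit 1) (nat_lit 0x1e00280e5d81))) 
(.lf (nat_lit 2751793089) (dlOf (nat_lit 1) (nat_lit 0x400200020008004402))))) (.nd (nat_lit 11) 
(.nd (nat_lit 15) 
(.lf (nat_lit 2349146177) (dlOf (nat_lit 3) (nat_lit 0x52016002900a80050050005401800dc00800d50038007c01000ac0030003a88001b01500010040024801c0007406000400280d0b81))) 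
(.lf (nat_lit 4899315777) (dlOf (nat_lit 1) (nat_lit 0x400400020018100482)))) (.nd (nat_lit 7) 
(.lf (nat_lit 2752362561) (dlOf (nat_lit 1) (nat_lit 0xc0040006000800a682))) 
(.lf (nat_lit 4496632769) (dlOf (nat_lit 1) (nat_lit 0x3c00280e5d81))))))) (.nd (nat_lit 8) 
(.nd (nat_lit 13) (.nd (nat_lit 20) (.nd (nat_lit 15) 
(.lf (nat_lit 35981889) (dlOf (nat_lit 1) (nat_lit 0x20019015201))) (.nd (nat_lit 19) 
(.lf (nat_lit 36014657) (dlOf (nat_lit 1) (nat_lit 0xc20029015201))) 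
(.lf (nat_lit 32344641) (dlOf (nat_lit 1) (nat_lit 0x1800400100018ef5202))))) (.nd (nat_lit 7) 
(.nd (nat_lit 9) (.lf (nat_lit 62226497) (dlOf (nat_lit 1) (nat_lit 0x400400020009981002))) 
(.lf (nat_lit 45451841) (dlOf (nat_lit 1) (nat_lit 0x50008006800200380009325203)))) 
(.lf (nat_lit 58524865) (dlOf (nat_lit 1) (nat_lit 0x200297e2d01))))) (.nd (nat_lit 9) 
(.nd (nat_lit 7) (.nd (nat_lit 15) 
(.lf (nat_lit 70066241) (dlOf (nat_lit 2) (nat_lit 0x1a07700124818e80600))) 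
(.lf (nat_lit 2753929281) (dlOf (nat_lit 3) (nat_lit 0x2f40880001001005d04400002c0804d00080430002000800080a0d03)))) 
(.lf (nat_lit 58533057) (dlOf (nat_lit 1) (nat_lit 0x58004001000097e2d02)))) (.nd (nat_lit 7) 
(.nd (nat_lit 11) (.lf (nat_lit 20783681) (dlOf (nat_lit 1) (nat_lit 0x80080004002000200089d1583))) 
(.lf (nat_lit 36547137) (dlOf (nat_lit 1) (nat_lit 0x20019075201)))) 
(.lf (nat_lit 19740353) (dlOf (nat_lit 1) (nat_lit 0x800289da001)))))) (.nd (nat_lit 19) 
(.nd (nat_lit 7) (.nd (nat_lit 10) (.nd (nat_lit 13) 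
(.lf (nat_lit 11862337) (dlOf (nat_lit 3) (nat_lit 0xaa4600052020011523000230186c0600))) 
(.lf (nat_lit 3481921) (dlOf (nat_lit 1) (nat_lit 0x400400120018200602)))) 
(.lf (nat_lit 56952129) (dlOf (nat_lit 1) (nat_lit 0xa10008062000202640009793283)))) 
(.nd (nat_lit 13) (.lf (nat_lit 3506625) (dlOf (nat_lit 1) (nat_lit 0x400028200901))) 
(.lf (nat_lit 3514817) (dlOf (nat_lit 1) (nat_lit 0x400200020008200902))))) (.nd (nat_lit 11) 
(.nd (nat_lit 7) (.lf (nat_lit 20780865) (dlOf (nat_lit 1) (nat_lit 0x200289da101))) 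
(.nd (nat_lit 13) (.lf (nat_lit 12386753) (dlOf (nat_lit 1) (nat_lit 0xfc002009000086c0902))) 
(.lf (nat_lit 12427713) (dlOf (nat_lit 1) (nat_lit 0x8a00086c0901))))) (.nd (nat_lit 13) 
(.lf (nat_lit 36506049) (dlOf (nat_lit 1) (nat_lit 0x800200640009074e82))) 
(.lf (nat_lit 58567105) (dlOf (nat_lit 1) (nat_lit 0x200197e4e81))))))))) (.nd (nat_lit 30) 
(.nd (nat_lit 26) (.nd (nat_lit 15) (.nd (nat_lit 8) (.nd (nat_lit 27) (.nd (nat_lit 7) 
(.nd (nat_lit 13) (.lf (nat_lit 4563730497) (dlOf (nat_lit 2) (nat_lit 0x1c02c000470180d0480))) 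
(.lf (nat_lit 4563738689) (dlOf (nat_lit 3) (nat_lit 0x1fc062001002c000e00a000b004c0044022002a01000160038002743804880c400240580006029000200a0007804c00100220002010000c0038002384000880080100002002800080d0483)))) 
(.lf (nat_lit 805372097) (dlOf (nat_lit 1) (nat_lit 0xc0028090401)))) (.nd (nat_lit 9) 
(.nd (nat_lit 32) (.lf (nat_lit 402718785) (dlOf (nat_lit 1) (nat_lit 0x400400020008090002))) 
(.lf (nat_lit 4697686081) (dlOf (nat_lit 1) (nat_lit 0x8008000400200020008090003)))) 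
(.lf (nat_lit 3087073857) (dlOf (nat_lit 1) (nat_lit 0x200280b1081))))) (.nd (nat_lit 13) 
(.nd (nat_lit 9) (.nd (nat_lit 11) 
(.lf (nat_lit 939590081) (dlOf (nat_lit 2) (nat_lit 0x100d00010c0800100080024002000e00080b0903))) 
(.lf (nat_lit 4563470785) (dlOf (nat_lit 1) (nat_lit 0x3c002000a0008094e82)))) 
(.lf (nat_lit 5234559937) (dlOf (nat_lit 1) (nat_lit 0x20028055d81)))) (.nd (nat_lit 7) 
(.nd (nat_lit 27) 
(.lf (nat_lit 4563476801) (dlOf (nat_lit 1) (nat_lit 0x558008014000200560008090c03))) 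
(.lf (nat_lit 939598145) (dlOf (nat_lit 1) (nat_lit 0xca00080b0601)))) 
(.lf (nat_lit 4697694657) (dlOf (nat_lit 1) (nat_lit 0x100008002400200640008091083)))))) 
(.nd (nat_lit 13) (.nd (nat_lit 32) (.nd (nat_lit 27) (.nd (nat_lit 29) 
(.lf (nat_lit 2416017729) (dlOf (nat_lit 2) (nat_lit 0xd80060000002000a0028014c01))) 
(.lf (nat_lit 805404993) (dlOf (nat_lit 1) (nat_lit 0x5b4004000a0018090602)))) 
(.lf (nat_lit 2550235457) (dlOf (nat_lit 2) (nat_lit 0xd80060000002000a0028014c01)))) 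
(.nd (nat_lit 7) (.nd (nat_lit 27) 
(.lf (nat_lit 4563763265) (dlOf (nat_lit 2) (nat_lit 0xca029000470180d0480))) 
(.lf (nat_lit 4697980993) (dlOf (nat_lit 3) (nat_lit 0x4805200089020040029000410180d0480)))) 
(.lf (nat_lit 4563504065) (dlOf (nat_lit 1) (nat_lit 0x100080040002000a0008095d83))))) 
(.nd (nat_lit 8) (.nd (nat_lit 27) 
(.lf (nat_lit 4563771457) (dlOf (nat_lit 7) (nat_lit 0x1d80d400d4058007a02b009a014802300a0021404e00a8021002c00e0002006c002c00e000a0010004e8b001501a800b00c4007c058004002b0001015004180a4004c05000de027003e010800880700098036002800700010000002386801d80a400110040158052000860200b00290004101006e0148000c4080910008019c002000800080d0483))) 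
(.lf (nat_lit 4697989185) (dlOf (nat_lit 2) (nat_lit 0x70148002380800d00080004002002a00080d0483)))) 
(.nd (nat_lit 7) (.nd (nat_lit 27) 
(.lf (nat_lit 2416025921) (dlOf (nat_lit 1) (nat_lit 0x400400020018014c02))) 
(.lf (nat_lit 2550243649) (dlOf (nat_lit 1) (nat_lit 0x400400020018014c02)))) 
(.lf (nat_lit 5234600897) (dlOf (nat_lit 1) (nat_lit 0x5b800201b80008055d82))))))) 
(.nd (nat_lit 13) (.nd (nat_lit 15) (.nd (nat_lit 18) (.nd (nat_lit 7) (.nd (nat_lit 19) 
(.nd (nat_lit 27) (.lf (nat_lit 872480833) (dlOf (nat_lit 1) (nat_lit 0x400400020008090002))) 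
(.lf (nat_lit 2617311297) (dlOf (nat_lit 1) (nat_lit 0x80080004002000200080a0003)))) 
(.lf (nat_lit 474546241) (dlOf (nat_lit 2) (nat_lit 0x280840011e0191a0600)))) (.nd (nat_lit 9) 
(.lf (nat_lit 1008796097) (dlOf (nat_lit 2) (nat_lit 0x380ac001110200320018f87001))) 
(.lf (nat_lit 5301668801) (dlOf (nat_lit 1) (nat_lit 0xc00400020008005d82))))) (.nd (nat_lit 27) 
(.nd (nat_lit 29) 
(.lf (nat_lit 2483355713) (dlOf (nat_lit 4) (nat_lit 0x3e00500007502013a0280003a01000f0140001cc0800680080084002000600080d0b83))) 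
(.lf (nat_lit 872742977) (dlOf (nat_lit 2) (nat_lit 0x28024000328180b0500)))) (.nd (nat_lit 7) 
(.lf (nat_lit 470614081) (dlOf (nat_lit 4) (nat_lit 0x2838e00081c600220de8003060c0012c1000183aa000c1d200070e4800d871c002038c00661bd00060db8003060c0010a2000183aa00081c9001f0e38004871800d837a000c1b700060c1800210380278008004800200280008130b83))) 
(.lf (nat_lit 1008010433) (dlOf (nat_lit 3) (nat_lit 0x307180007c08001038c0003604000800200020008982d02)))))) 
(.nd (nat_lit 8) (.nd (nat_lit 18) (.nd (nat_lit 7) (.nd (nat_lit 19) 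
(.lf (nat_lit 2483126337) (dlOf (nat_lit 3) (nat_lit 0x90054007e0280001582000f0140000940800e8008002c00200180008020783))) 
(.lf (nat_lit 470384705) (dlOf (nat_lit 1) (nat_lit 0x100080048002001000080d0d03)))) 
(.lf (nat_lit 5301698753) (dlOf (nat_lit 1) (nat_lit 0x140018031b01)))) (.nd (nat_lit 9) 
(.lf (nat_lit 3154477121) (dlOf (nat_lit 4) (nat_lit 0x501e800100b400180560004606000402b0002281000401580010c0800400080038002002c00081a0503))) 
(.lf (nat_lit 473270849) (dlOf (nat_lit 1) (nat_lit 0x140008e35201))))) (.nd (nat_lit 9) 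
(.lf (nat_lit 335642945) (dlOf (nat_lit 2) (nat_lit 0xa80000005a040020002000a0008090c02))) 
(.lf (nat_lit 469862209) (dlOf (nat_lit 1) (nat_lit 0x400400020008003e02)))))) (.nd (nat_lit 18) 
(.nd (nat_lit 19) (.nd (nat_lit 7) (.nd (nat_lit 15) 
(.lf (nat_lit 471932993) (dlOf (nat_lit 1) (nat_lit 0x4002000200086d0e02))) 
(.lf (nat_lit 2483134529) (dlOf (nat_lit 7) (nat_lit 0xe017019c80a809a80500244018001800800060038014c00600fa000000158800be017016f80a80b28050020e01e014300c00d18040018801e02c000e017d006806a0030001c01603b400900b0001807a80000004a38045c05c00ac018016d00800c20038020401800ac0000001186005a017000400a801c0050019e010001d00780610038012c01a006c0000001108002c01700238040000401c000200602b20100057007000058100fa0008045000207d80008020783)))) 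
(.lf (nat_lit 872489409) (dlOf (nat_lit 1) (nat_lit 0x100028091081)))) (.nd (nat_lit 9) 
(.nd (nat_lit 15) 
(.lf (nat_lit 474554433) (dlOf (nat_lit 4) (nat_lit 0x2100ab010a850c083419803840840011e0400010a18008cc0801c055800c42860022f04000400291a0601))) 
(.lf (nat_lit 471441473) (dlOf (nat_lit 1) (nat_lit 0x400200020008300e02)))) 
(.lf (nat_lit 470360641) (dlOf (nat_lit 2) (nat_lit 0x423c000038180c1080))))) (.nd (nat_lit 11) 
(.nd (nat_lit 7) (.nd (nat_lit 19) 
(.lf (nat_lit 2483363905) (dlOf (nat_lit 3) (nat_lit 0x52017002900a80050050005401800dc00800d50038007c01200ac0030003a88001b01500010040024801c0007406000400280d0b81))) 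
(.lf (nat_lit 470622273) (dlOf (nat_lit 1) (nat_lit 0x20028140e81)))) 
(.lf (nat_lit 1009099969) (dlOf (nat_lit 1) (nat_lit 0x400200060009082d02)))) (.nd (nat_lit 9) 
(.lf (nat_lit 2483402817) (dlOf (nat_lit 4) (nat_lit 0x1801c0022f02003002a0011181000300700070c080078008005c002000800080fa683))) 
(.lf (nat_lit 472197697) (dlOf (nat_lit 1) (nat_lit 0x1200188c5201)))))))) (.nd (nat_lit 15) 
(.nd (nat_lit 7) (.nd (nat_lit 19) (.nd (nat_lit 18) (.nd (nat_lit 8) 
(.lf (nat_lit 3490775105) (dlOf (nat_lit 1) (nat_lit 0x400200020008020782))) (.nd (nat_lit 10) 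
(.lf (nat_lit 3493929281) (dlOf (nat_lit 1) (nat_lit 0x200281b0601))) 
(.lf (nat_lit 1543572801) (dlOf (nat_lit 1) (nat_lit 0x4f8008046c00201aa0008146903))))) 
(.nd (nat_lit 26) (.nd (nat_lit 11) 
(.lf (nat_lit 4026859585) (dlOf (nat_lit 9) (nat_lit 0x2bb017018100b403c004e0002006003a02e0000f81013801700e100b4007404e0001306026e02e0000781014b017006380b4003404e0000c06043602e01e3016800e809c000160c061405c030e02d0000502002d0170000240814000080348002040e00080a0d03))) 
(.lf (nat_lit 3493140545) (dlOf (nat_lit 7) (nat_lit 0x503d0002260200081e8000309c0008681000207f400383d0001615f001109c0008602000787a000cc2be00301380010b8300120fe800d07a000e82bc001d906000c1fd00010f4000c8578003ae0c00a8002002600080fa682)))) 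
(.nd (nat_lit 9) 
(.lf (nat_lit 2080702529) (dlOf (nat_lit 8) (nat_lit 0xe80a40018018000720400de02900100060001bc1002f00a400180180002104005a02900060060000801003500a400180180001c0400d20290000d0100010148000640800900080034002000c00080b0503))) 
(.lf (nat_lit 5838807617) (dlOf (nat_lit 1) (nat_lit 0x380080008002000400081b1083)))))) 
(.nd (nat_lit 13) (.nd (nat_lit 21) (.nd (nat_lit 18) 
(.lf (nat_lit 3494445121) (dlOf (nat_lit 8) (nat_lit 0x3001e000d701001700f0006ac0800b80780032804005c03c0019002000401e0004e01001700f0002680802401a00110084007c023005700f000258200168008002c00200100008220b83))) 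
(.lf (nat_lit 1343029313) (dlOf (nat_lit 4) (nat_lit 0x2838e00081c600220de800305e80012c1000183aa000c1d200070e4800d871c002038c00661bd00060db800305e80010a2000183aa00081c9001f0e38004871800d837a000c1b700060bd000210380278008004800200280008130b83)))) 
(.nd (nat_lit 9) (.lf (nat_lit 1346175041) (dlOf (nat_lit 1) (nat_lit 0x800400060008e60602))) 
(.lf (nat_lit 1345129025) (dlOf (nat_lit 1) (nat_lit 0x8008000400200020008a45203))))) 
(.nd (nat_lit 18) (.nd (nat_lit 9) 
(.lf (nat_lit 3494453313) (dlOf (nat_lit 1) (nat_lit 0x20028230e81))) 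
(.lf (nat_lit 1342775873) (dlOf (nat_lit 2) (nat_lit 0x423c000038180c1080)))) (.nd (nat_lit 20) 
(.lf (nat_lit 1343037505) (dlOf (nat_lit 1) (nat_lit 0x20028140e81))) 
(.lf (nat_lit 1346183233) (dlOf (nat_lit 2) (nat_lit 0x9d058004701b2025809c00123838e60600))))))) 
(.nd (nat_lit 9) (.nd (nat_lit 10) (.nd (nat_lit 19) (.nd (nat_lit 11) 
(.lf (nat_lit 2080448961) (dlOf (nat_lit 1) (nat_lit 0x400400020018091082))) 
(.lf (nat_lit 5704321473) (dlOf (nat_lit 1) (nat_lit 0x8008013000201ca0008054e83)))) 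
(.nd (nat_lit 20) 
(.lf (nat_lit 5774057921) (dlOf (nat_lit 1) (nat_lit 0x880080010002000800080f7a83))) 
(.lf (nat_lit 1880695233) (dlOf (nat_lit 1) (nat_lit 0x800200020008b37002))))) (.nd (nat_lit 8) 
(.lf (nat_lit 1345922241) (dlOf (nat_lit 2) (nat_lit 0x216900000018e22d00))) (.nd (nat_lit 26) 
(.lf (nat_lit 1342254529) (dlOf (nat_lit 1) (nat_lit 0x1800200020008006d02))) 
(.lf (nat_lit 4227935681) (dlOf (nat_lit 1) (nat_lit 0x580080010002000a0008006d03)))))) 
(.nd (nat_lit 18) (.nd (nat_lit 26) (.nd (nat_lit 27) 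
(.lf (nat_lit 5637213121) (dlOf (nat_lit 1) (nat_lit 0x80028055d81))) (.nd (nat_lit 29) 
(.lf (nat_lit 5771430849) (dlOf (nat_lit 1) (nat_lit 0x400400020018005d82))) 
(.lf (nat_lit 2013334465) (dlOf (nat_lit 1) (nat_lit 0x40008000400200020008005d83))))) 
(.nd (nat_lit 8) (.lf (nat_lit 4227927745) (dlOf (nat_lit 1) (nat_lit 0x80018007281))) 
(.lf (nat_lit 5704321985) (dlOf (nat_lit 1) (nat_lit 0x38008003c002000c0008055d83))))) 
(.nd (nat_lit 13) (.lf (nat_lit 5771692993) (dlOf (nat_lit 1) (nat_lit 0x20028005d81))) 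
(.lf (nat_lit 5771701185) (dlOf (nat_lit 1) (nat_lit 0x20028005d81))))))) (.nd (nat_lit 13) 
(.nd (nat_lit 18) (.nd (nat_lit 8) (.nd (nat_lit 19) (.nd (nat_lit 9) 
(.lf (nat_lit 3490807873) (dlOf (nat_lit 1) (nat_lit 0x20008020781))) 
(.lf (nat_lit 4026630721) (dlOf (nat_lit 1) (nat_lit 0x8008000400200020008018c03)))) 
(.nd (nat_lit 21) (.lf (nat_lit 3494477889) (dlOf (nat_lit 1) (nat_lit 0x400200020008230e82))) 
(.nd (nat_lit 29) 
(.lf (nat_lit 3492380737) (dlOf (nat_lit 4) (nat_lit 0x1e03ce0014a0200e81e7000a401007b0f38000000801f000800f000200a800080c1403))) 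
(.lf (nat_lit 1881768001) (dlOf (nat_lit 1) (nat_lit 0x10008000400200020009000603)))))) 
(.nd (nat_lit 7) (.nd (nat_lit 9) 
(.lf (nat_lit 3493953857) (dlOf (nat_lit 1) (nat_lit 0x4004000200081b0602))) 
(.lf (nat_lit 1342281537) (dlOf (nat_lit 1) (nat_lit 0x2c0040002000800a102)))) (.nd (nat_lit 27) 
(.lf (nat_lit 5637245889) (dlOf (nat_lit 1) (nat_lit 0x10008000400200020008055d83))) 
(.lf (nat_lit 5771463617) (dlOf (nat_lit 1) (nat_lit 0x20018005d81)))))) (.nd (nat_lit 21) 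
(.nd (nat_lit 19) (.nd (nat_lit 22) 
(.lf (nat_lit 6241484865) (dlOf (nat_lit 1) (nat_lit 0x3400400040018100482))) 
(.lf (nat_lit 1346732097) (dlOf (nat_lit 1) (nat_lit 0x20019000601)))) 
(.lf (nat_lit 5772247105) (dlOf (nat_lit 1) (nat_lit 0x8008000400200020008090003)))) 
(.nd (nat_lit 9) (.nd (nat_lit 19) 
(.lf (nat_lit 3492118593) (dlOf (nat_lit 1) (nat_lit 0x4004001e00180a0d82))) 
(.lf (nat_lit 1346207809) (dlOf (nat_lit 32) (nat_lit 0xda0b0038a03641c301b000dc09c00cd046801e023004240fa021407c001248803ba06c80f28360004900808342c0023e14d085106c844f036006cc138042608d01c8046012601f409400f8002471202f40d900f206c000914100020268004860400081aa000e09a00040450008fc180a6836404981b0002230401ee0d9002306c00083810004836401101b00020c0400900d8001038100ba06c801a0360003f80805441b201360d8000fd02014d06c80378360003f00807b81b2001f70204780d9011d06c0007cc100b7836403181b0001f20400b20d9000f88100ca0b0037f036400101b000ac09c00c6046807181f400fc060001f00e01ee0d9000f781002d0ae8016035400a4114001c70600040d5000e28100100ae800403540037a0800201340017302052e15f02660af00668554004c1de05080d7022306b0158026c0ab81160015410036015f016006b808b026c04341160015308010615f003406b800444100d8057c06c81ae000fa0400140d70007c0101d30af8077055407a01ae000f406027c15f012906b8003cc10015057c0012804025800400180008e60602))))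 
(.lf (nat_lit 1344637505) (dlOf (nat_lit 1) (nat_lit 0x400400020008925202)))))) (.nd (nat_lit 18) 
(.nd (nat_lit 7) (.nd (nat_lit 8) 
(.lf (nat_lit 4095844417) (dlOf (nat_lit 1) (nat_lit 0x200080e0001))) (.nd (nat_lit 9) 
(.lf (nat_lit 3493962049) (dlOf (nat_lit 1) (nat_lit 0x600080028002000e00081b0603))) 
(.lf (nat_lit 1342289729) (dlOf (nat_lit 1) (nat_lit 0x60004002c001800a102))))) (.nd (nat_lit 8) 
(.nd (nat_lit 19) (.lf (nat_lit 3493961921) (dlOf (nat_lit 1) (nat_lit 0x12c002006800081b0402))) 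
(.lf (nat_lit 5771993281) (dlOf (nat_lit 3) (nat_lit 0x1a80500002a02003002800014818031b00)))) 
(.lf (nat_lit 5637254081) (dlOf (nat_lit 2) (nat_lit 0x1f00a8000b4080010008003000200120008055d83))))) 
(.nd (nat_lit 21) (.nd (nat_lit 26) 
(.lf (nat_lit 6308601921) (dlOf (nat_lit 1) (nat_lit 0x400200020008140d82))) 
(.lf (nat_lit 5704622145) (dlOf (nat_lit 1) (nat_lit 0x400200020008140d82)))) (.nd (nat_lit 9) 
(.lf (nat_lit 3492126785) (dlOf (nat_lit 3) (nat_lit 0xf05c80002c04003c1140001402001600180a0d81))) 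
(.lf (nat_lit 1344645697) (dlOf (nat_lit 1) (nat_lit 0xa0028925201))))))))))))

end

end Pool.Agent.Lib.MP_5854e1_co.Cz

namespace Pool.Agent.Lib.MP_5854e1_co.Cz

noncomputable section

noncomputable def tz33 : DT := (.nd (nat_lit 16) (.nd (nat_lit 13) (.nd (nat_lit 26) 
(.nd (nat_lit 15) (.nd (nat_lit 7) (.nd (nat_lit 18) (.nd (nat_lit 8) (.nd (nat_lit 22) 
(.nd (nat_lit 27) (.nd (nat_lit 28) (.nd (nat_lit 6) 
(.lf (nat_lit 1611137057) (dlOf (nat_lit 3) (nat_lit 0x18010800c80540003604001e02a000100480004c1001f0008001000200ae00080f0b03))) 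
(.lf (nat_lit 8914529) (dlOf (nat_lit 2) (nat_lit 0x392d40005a04000c00200020008513902)))) 
(.nd (nat_lit 19) 
(.lf (nat_lit 1344274465) (dlOf (nat_lit 2) (nat_lit 0x2a04900006c080098008009400200140008560183))) 
(.lf (nat_lit 805830689) (dlOf (nat_lit 2) (nat_lit 0x2100ac015ad02000400281b0901))))) 
(.nd (nat_lit 10) (.nd (nat_lit 29) 
(.lf (nat_lit 134742049) (dlOf (nat_lit 9) (nat_lit 0x6902180bb810405ac07e032603d015a01c00647428084810c04e0082024803f013e01e808280e00323814017c082007e03d00c8d82011d02180b28104042807e02cc03d010701c00646828053010c029c07e0188d040272043014301f80620810011010c00f807e0188104007e03b000000180a0900))) 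
(.lf (nat_lit 3892838433) (dlOf (nat_lit 1) (nat_lit 0x20018280001)))) (.nd (nat_lit 9) 
(.lf (nat_lit 1744831521) (dlOf (nat_lit 1) (nat_lit 0x400400020008002882))) 
(.lf (nat_lit 5502928417) (dlOf (nat_lit 1) (nat_lit 0x400400020008003702)))))) (.nd (nat_lit 19) 
(.nd (nat_lit 6) (.nd (nat_lit 20) 
(.lf (nat_lit 14680097) (dlOf (nat_lit 2) (nat_lit 0xa00000005818770180))) 
(.lf (nat_lit 13631521) (dlOf (nat_lit 1) (nat_lit 0x8008000400200020008730883)))) 
(.lf (nat_lit 12583009) (dlOf (nat_lit 1) (nat_lit 0x4002000200086d1282)))) (.nd (nat_lit 23) 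
(.nd (nat_lit 6) (.lf (nat_lit 55050273) (dlOf (nat_lit 1) (nat_lit 0x20009690181))) 
(.lf (nat_lit 55050337) (dlOf (nat_lit 1) (nat_lit 0x188008003400200420009690783)))) 
(.nd (nat_lit 20) (.lf (nat_lit 15204385) (dlOf (nat_lit 1) (nat_lit 0x400087c0601))) 
(.lf (nat_lit 30933025) (dlOf (nat_lit 1) (nat_lit 0x20018e50a81))))))) (.nd (nat_lit 6) 
(.nd (nat_lit 10) (.nd (nat_lit 9) 
(.lf (nat_lit 6710886689) (dlOf (nat_lit 1) (nat_lit 0x80018000a81))) 
(.lf (nat_lit 6039802657) (dlOf (nat_lit 1) (nat_lit 0x60018008f81)))) (.nd (nat_lit 12) 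
(.nd (nat_lit 29) (.lf (nat_lit 5502928161) (dlOf (nat_lit 1) (nat_lit 0x400400020008003102))) 
(.lf (nat_lit 4966057249) (dlOf (nat_lit 1) (nat_lit 0x400400020008003102)))) 
(.lf (nat_lit 4160754977) (dlOf (nat_lit 1) (nat_lit 0x180028009781))))) (.nd (nat_lit 12) 
(.nd (nat_lit 9) (.nd (nat_lit 11) 
(.lf (nat_lit 1342701921) (dlOf (nat_lit 1) (nat_lit 0x10008001c002001a00080c0703))) 
(.lf (nat_lit 39848289) (dlOf (nat_lit 1) (nat_lit 0xa00291f4e81)))) 
(.lf (nat_lit 2281702241) (dlOf (nat_lit 1) (nat_lit 0x20028002581)))) (.nd (nat_lit 10) 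
(.nd (nat_lit 29) (.lf (nat_lit 2415925601) (dlOf (nat_lit 1) (nat_lit 0x180040002000800ab82))) 
(.lf (nat_lit 4026538337) (dlOf (nat_lit 1) (nat_lit 0x800800040020002000800ab83)))) 
(.lf (nat_lit 1342184801) (dlOf (nat_lit 1) (nat_lit 0x6001800c901))))))) (.nd (nat_lit 20) 
(.nd (nat_lit 27) (.nd (nat_lit 19) (.nd (nat_lit 9) 
(.lf (nat_lit 2953052193) (dlOf (nat_lit 1) (nat_lit 0x54000802e4002011e00080e0683))) 
(.lf (nat_lit 4026794529) (dlOf (nat_lit 1) (nat_lit 0x5000400140008090d82)))) (.nd (nat_lit 6) 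
(.lf (nat_lit 786721) (dlOf (nat_lit 1) (nat_lit 0x60018014281))) 
(.lf (nat_lit 19668065) (dlOf (nat_lit 1) (nat_lit 0x1c0004015a00089dc002))))) (.nd (nat_lit 10) 
(.nd (nat_lit 19) 
(.lf (nat_lit 134479905) (dlOf (nat_lit 1) (nat_lit 0x168008000800200860008030983))) 
(.lf (nat_lit 2819358753) (dlOf (nat_lit 14) (nat_lit 0x349037800900d0001d00811e80de02c2034000738200c2037800300d0001cc0808940de00320340007182001c0000002240800181d400e000000087040014046000f0108001f81000e0000000f60400700000007a0204b006f001001a0000381001b01bc000140408840de001c034000040201aa037800600d80144068000000601360018250601)))) 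
(.nd (nat_lit 6) 
(.lf (nat_lit 5234755105) (dlOf (nat_lit 2) (nat_lit 0xf00c000000080050008004c002003400080d3703))) 
(.lf (nat_lit 2818841697) (dlOf (nat_lit 17) (nat_lit 0x680440005d0200040220002e010073035003481a4011c0c200a0042001700d8001502801981a800ac0d2004806100029830017021000f808800080360005106004802200028010035011000130080028088000900400080440004602005606a0020034800280d80088044000450800040220002101000201b0008008800b001a0003f06004c0220001e81000301100002c0800100880000804000c04400002020056001812c001)))))) 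
(.nd (nat_lit 19) (.nd (nat_lit 23) (.nd (nat_lit 8) 
(.lf (nat_lit 1343488033) (dlOf (nat_lit 1) (nat_lit 0x400400020008260682))) 
(.lf (nat_lit 3490971937) (dlOf (nat_lit 3) (nat_lit 0x6005005238100020540028f4080008008005c00200080008047803)))) 
(.nd (nat_lit 21) (.nd (nat_lit 22) 
(.lf (nat_lit 26476577) (dlOf (nat_lit 4) (nat_lit 0x67420000b0200073a10000481000f9d08000000800a800800b000200120008c50183))) 
(.lf (nat_lit 30670881) (dlOf (nat_lit 1) (nat_lit 0x60008001000200020008e40c83)))) 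
(.lf (nat_lit 11796513) (dlOf (nat_lit 1) (nat_lit 0x3000186c0001))))) (.nd (nat_lit 21) 
(.nd (nat_lit 24) (.lf (nat_lit 5773197345) (dlOf (nat_lit 1) (nat_lit 0xe00280b0181))) 
(.lf (nat_lit 18612257) (dlOf (nat_lit 1) (nat_lit 0x18008000400200020008950683)))) 
(.nd (nat_lit 22) (.lf (nat_lit 3932193) (dlOf (nat_lit 1) (nat_lit 0x40028250b01))) 
(.lf (nat_lit 24903713) (dlOf (nat_lit 1) (nat_lit 0xc0018bc0a01)))))))) (.nd (nat_lit 6) 
(.nd (nat_lit 28) (.nd (nat_lit 10) (.nd (nat_lit 8) (.nd (nat_lit 9) (.nd (nat_lit 11) 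
(.lf (nat_lit 3408033) (dlOf (nat_lit 1) (nat_lit 0x1580008200201))) 
(.lf (nat_lit 4429187233) (dlOf (nat_lit 1) (nat_lit 0x400400020008004882)))) 
(.lf (nat_lit 8131233) (dlOf (nat_lit 1) (nat_lit 0x400200020008518c82)))) (.nd (nat_lit 11) 
(.lf (nat_lit 8393121) (dlOf (nat_lit 1) (nat_lit 0x400200020008518382))) 
(.lf (nat_lit 5905582497) (dlOf (nat_lit 1) (nat_lit 0x100028004e81))))) (.nd (nat_lit 12) 
(.nd (nat_lit 8) 
(.lf (nat_lit 5905583265) (dlOf (nat_lit 2) (nat_lit 0x10094000c804000400200020008006282))) 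
(.lf (nat_lit 8127905) (dlOf (nat_lit 1) (nat_lit 0x400200020008513602)))) (.nd (nat_lit 27) 
(.lf (nat_lit 4294974625) (dlOf (nat_lit 1) (nat_lit 0x40040002000800c202))) 
(.lf (nat_lit 134225057) (dlOf (nat_lit 1) (nat_lit 0x800802300020072000800c203)))))) 
(.nd (nat_lit 29) (.nd (nat_lit 8) (.nd (nat_lit 10) 
(.lf (nat_lit 4563665057) (dlOf (nat_lit 1) (nat_lit 0x600280c1401))) (.nd (nat_lit 27) 
(.lf (nat_lit 1342184609) (dlOf (nat_lit 1) (nat_lit 0x40040002000800c202))) 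
(.lf (nat_lit 2550144161) (dlOf (nat_lit 1) (nat_lit 0x800801c4002005c000800c203))))) 
(.nd (nat_lit 10) 
(.lf (nat_lit 3490709921) (dlOf (nat_lit 1) (nat_lit 0x7c80080004002011c0008016b83))) 
(.lf (nat_lit 3489664417) (dlOf (nat_lit 1) (nat_lit 0x80028006d01))))) (.nd (nat_lit 27) 
(.nd (nat_lit 8) (.lf (nat_lit 1879055521) (dlOf (nat_lit 1) (nat_lit 0x40040002000800c202))) 
(.lf (nat_lit 4026794401) (dlOf (nat_lit 3) (nat_lit 0x403600daa01002301b0000000801f8008005c00200700008090783)))) 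
(.nd (nat_lit 31) 
(.lf (nat_lit 939527329) (dlOf (nat_lit 2) (nat_lit 0x4000000190080010008000c00200060008006283))) 
(.lf (nat_lit 3087010977) (dlOf (nat_lit 1) (nat_lit 0x400200060008006282))))))) (.nd (nat_lit 8) 
(.nd (nat_lit 10) (.nd (nat_lit 11) (.nd (nat_lit 9) 
(.lf (nat_lit 8130785) (dlOf (nat_lit 1) (nat_lit 0x400400040018518082))) 
(.lf (nat_lit 8393441) (dlOf (nat_lit 1) (nat_lit 0x400200020008518c82)))) (.nd (nat_lit 18) 
(.lf (nat_lit 19929825) (dlOf (nat_lit 1) (nat_lit 0x8002000200089db982))) 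
(.lf (nat_lit 20191969) (dlOf (nat_lit 1) (nat_lit 0x480080010002000a00089db983))))) 
(.nd (nat_lit 9) (.nd (nat_lit 11) 
(.lf (nat_lit 8127713) (dlOf (nat_lit 1) (nat_lit 0x20018512e01))) 
(.lf (nat_lit 3490188513) (dlOf (nat_lit 1) (nat_lit 0x60028006501)))) (.nd (nat_lit 12) 
(.lf (nat_lit 536872673) (dlOf (nat_lit 1) (nat_lit 0x400400020018003a82))) 
(.lf (nat_lit 2952795873) (dlOf (nat_lit 1) (nat_lit 0x78008001c0020004000800a003)))))) 
(.nd (nat_lit 28) (.nd (nat_lit 9) (.nd (nat_lit 10) 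
(.lf (nat_lit 5905842657) (dlOf (nat_lit 1) (nat_lit 0x28008000400200080008157d03))) 
(.lf (nat_lit 537660897) (dlOf (nat_lit 1) (nat_lit 0x200280f6e01)))) (.nd (nat_lit 29) 
(.lf (nat_lit 1073747937) (dlOf (nat_lit 1) (nat_lit 0x40040002000800a602))) 
(.lf (nat_lit 536877025) (dlOf (nat_lit 2) (nat_lit 0x2e033002af81800a600))))) (.nd (nat_lit 10) 
(.nd (nat_lit 29) (.lf (nat_lit 2415920097) (dlOf (nat_lit 1) (nat_lit 0x20018002881))) 
(.lf (nat_lit 4026532833) (dlOf (nat_lit 2) (nat_lit 0x402b00932818002880)))) (.nd (nat_lit 9) 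
(.lf (nat_lit 3489664481) (dlOf (nat_lit 1) (nat_lit 0x40028006e01))) 
(.lf (nat_lit 2415925217) (dlOf (nat_lit 1) (nat_lit 0x40040002000800a602))))))))) 
(.nd (nat_lit 19) (.nd (nat_lit 10) (.nd (nat_lit 18) (.nd (nat_lit 12) (.nd (nat_lit 20) 
(.nd (nat_lit 7) (.nd (nat_lit 21) 
(.lf (nat_lit 29392929) (dlOf (nat_lit 1) (nat_lit 0x80008002800200040008e00683))) 
(.lf (nat_lit 14712865) (dlOf (nat_lit 5) (nat_lit 0x11b2e000a4e10005c0000000b06000965c00159c20000241000200000000e040056cb80009305000d0000000001800a8008023000200600008770183)))) 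
(.lf (nat_lit 3493888161) (dlOf (nat_lit 2) (nat_lit 0x9615f000ae8181b0200)))) (.nd (nat_lit 21) 
(.lf (nat_lit 22052897) (dlOf (nat_lit 1) (nat_lit 0x400400040008a90482))) 
(.lf (nat_lit 28344353) (dlOf (nat_lit 2) (nat_lit 0x25198019f4080010008001800200060008d80683))))) 
(.nd (nat_lit 7) (.nd (nat_lit 8) 
(.lf (nat_lit 3492845665) (dlOf (nat_lit 3) (nat_lit 0x2001ec0027e0401700f60013402000200280fa801))) 
(.nd (nat_lit 9) (.lf (nat_lit 1073781089) (dlOf (nat_lit 1) (nat_lit 0x40040006000800ab82))) 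
(.lf (nat_lit 6039835489) (dlOf (nat_lit 2) (nat_lit 0xc008005450200020018008f81))))) 
(.nd (nat_lit 6) (.lf (nat_lit 8425889) (dlOf (nat_lit 1) (nat_lit 0x400200020008518382))) 
(.lf (nat_lit 8426209) (dlOf (nat_lit 1) (nat_lit 0x8008000400200020008518c83)))))) 
(.nd (nat_lit 31) (.nd (nat_lit 21) (.nd (nat_lit 7) (.nd (nat_lit 20) 
(.lf (nat_lit 1208254497) (dlOf (nat_lit 1) (nat_lit 0x4002000200080b0182))) 
(.lf (nat_lit 26509345) (dlOf (nat_lit 1) (nat_lit 0x20018c50181)))) 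
(.lf (nat_lit 537165985) (dlOf (nat_lit 1) (nat_lit 0x800800d4002004c0008044603)))) 
(.nd (nat_lit 6) 
(.lf (nat_lit 24412193) (dlOf (nat_lit 2) (nat_lit 0x14800002e6804000800200060008b90902))) 
(.nd (nat_lit 7) 
(.lf (nat_lit 62160993) (dlOf (nat_lit 5) (nat_lit 0x103a0000e1bf000a0ca00020138037641000083a0000e1bf000b0ca000281380376210000c3a000081bf00080ca00040138037601000143a0000c1bf00080ca000481380375e10000400400060009960782))) 
(.lf (nat_lit 20224737) (dlOf (nat_lit 1) (nat_lit 0x8002000200089db982)))))) (.nd (nat_lit 29) 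
(.nd (nat_lit 6) (.nd (nat_lit 9) 
(.lf (nat_lit 3355738145) (dlOf (nat_lit 1) (nat_lit 0xc002000600080e0702))) 
(.lf (nat_lit 3221520929) (dlOf (nat_lit 1) (nat_lit 0x20028127f01)))) 
(.lf (nat_lit 6442746209) (dlOf (nat_lit 1) (nat_lit 0x10800202e000081b0702)))) (.nd (nat_lit 28) 
(.lf (nat_lit 2684649505) (dlOf (nat_lit 2) (nat_lit 0x1d00d800174080350008033000200540008100503))) 
(.lf (nat_lit 2953084961) (dlOf (nat_lit 1) (nat_lit 0x74002004800080f0602))))))) (.nd (nat_lit 6) 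
(.nd (nat_lit 9) (.nd (nat_lit 8) (.nd (nat_lit 7) 
(.lf (nat_lit 1744864289) (dlOf (nat_lit 1) (nat_lit 0xc0028002881))) 
(.lf (nat_lit 4160787617) (dlOf (nat_lit 1) (nat_lit 0x1400400080008009502)))) (.nd (nat_lit 12) 
(.lf (nat_lit 268469537) (dlOf (nat_lit 1) (nat_lit 0x20028053101))) (.nd (nat_lit 28) 
(.lf (nat_lit 6039835937) (dlOf (nat_lit 4) (nat_lit 0x2c06a0018034000d0000000781800300d40020068000e0000000b83000401a800280d00014000000000600020018009781))) 
(.lf (nat_lit 4160787745) (dlOf (nat_lit 6) (nat_lit 0x100140003804002800a0001a020032014000e0028000601000280500004008000140400360140013002000044100080008009800200140008009783)))))) 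
(.nd (nat_lit 7) (.nd (nat_lit 11) 
(.lf (nat_lit 5502961185) (dlOf (nat_lit 3) (nat_lit 0x2f00a801b005000d000a0000f06006e015001500a0000001000080080068002001e0008003703))) 
(.lf (nat_lit 1342213665) (dlOf (nat_lit 2) (nat_lit 0x40714001be04001c00200200008007182)))) 
(.nd (nat_lit 11) (.lf (nat_lit 4026566305) (dlOf (nat_lit 1) (nat_lit 0xb800400020008003a82))) 
(.lf (nat_lit 671125153) (dlOf (nat_lit 1) (nat_lit 0x110008001c002005c0008007203)))))) 
(.nd (nat_lit 7) (.nd (nat_lit 11) (.nd (nat_lit 18) (.nd (nat_lit 28) 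
(.lf (nat_lit 2147518049) (dlOf (nat_lit 1) (nat_lit 0x20018003901))) 
(.lf (nat_lit 4563437153) (dlOf (nat_lit 2) (nat_lit 0x20178001700800b0008000c002000e0008003903)))) 
(.lf (nat_lit 43288161) (dlOf (nat_lit 1) (nat_lit 0x3a00292a3901)))) (.nd (nat_lit 9) 
(.lf (nat_lit 40033) (dlOf (nat_lit 1) (nat_lit 0x14000800c001))) 
(.lf (nat_lit 939560545) (dlOf (nat_lit 1) (nat_lit 0x160008007181))))) (.nd (nat_lit 27) 
(.nd (nat_lit 9) (.lf (nat_lit 2952828385) (dlOf (nat_lit 1) (nat_lit 0x1000400160008009b02))) 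
(.lf (nat_lit 536909793) (dlOf (nat_lit 2) (nat_lit 0x140a4000c012002af82800a600)))) 
(.nd (nat_lit 8) (.lf (nat_lit 134257889) (dlOf (nat_lit 1) (nat_lit 0x4c001800c501))) 
(.lf (nat_lit 2818872801) (dlOf (nat_lit 2) (nat_lit 0x700300008c080058008000400200200008129b03)))))))) 
(.nd (nat_lit 21) (.nd (nat_lit 23) (.nd (nat_lit 28) (.nd (nat_lit 29) (.nd (nat_lit 22) 
(.lf (nat_lit 3221782561) (dlOf (nat_lit 2) (nat_lit 0x1a811802b5a04004400400160008180902))) 
(.lf (nat_lit 21528609) (dlOf (nat_lit 2) (nat_lit 0x580000008a0400c4002000c0008a40182)))) 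
(.nd (nat_lit 6) 
(.lf (nat_lit 2819391521) (dlOf (nat_lit 2) (nat_lit 0x19000c00c800000043828250600))) 
(.lf (nat_lit 537428449) (dlOf (nat_lit 1) (nat_lit 0x8008000400200020008090c03))))) 
(.nd (nat_lit 6) (.nd (nat_lit 27) 
(.lf (nat_lit 1342734369) (dlOf (nat_lit 2) (nat_lit 0x7c34600cbf02000200280c0001))) 
(.lf (nat_lit 3624435745) (dlOf (nat_lit 2) (nat_lit 0x132040000000181a0500)))) 
(.lf (nat_lit 1342734561) (dlOf (nat_lit 2) (nat_lit 0x2a1f30003f0180c0480))))) (.nd (nat_lit 20) 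
(.nd (nat_lit 18) (.lf (nat_lit 42500129) (dlOf (nat_lit 1) (nat_lit 0x400200020009260182))) 
(.lf (nat_lit 13402145) (dlOf (nat_lit 1) (nat_lit 0x3400400140008720b02)))) (.nd (nat_lit 22) 
(.lf (nat_lit 9994273) (dlOf (nat_lit 6) (nat_lit 0x507520001b010016c2e000bdf08000620800a0ea40001602004fa2200002810031d148000000805000080020002000200085a0b03))) 
(.lf (nat_lit 30965793) (dlOf (nat_lit 1) (nat_lit 0x20018e50a81)))))) (.nd (nat_lit 18) 
(.nd (nat_lit 20) (.nd (nat_lit 10) (.nd (nat_lit 23) 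
(.lf (nat_lit 3492315169) (dlOf (nat_lit 2) (nat_lit 0x240f280014008004000800ac002002e00080c0b03))) 
(.lf (nat_lit 11042849) (dlOf (nat_lit 2) (nat_lit 0x11b84b0003c018660500)))) 
(.lf (nat_lit 1881703457) (dlOf (nat_lit 1) (nat_lit 0x1c0028fe2881)))) (.nd (nat_lit 22) 
(.nd (nat_lit 28) (.lf (nat_lit 3702817) (dlOf (nat_lit 2) (nat_lit 0x14a22017340200020018210901))) 
(.lf (nat_lit 3493363745) (dlOf (nat_lit 2) (nat_lit 0x1819c00180820022022000b00d8000a4200328008003800200820008120983)))) 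
(.lf (nat_lit 24674337) (dlOf (nat_lit 3) (nat_lit 0x5b49000054080035a48001a6ec000050400120018bb0801))))) 
(.nd (nat_lit 10) (.nd (nat_lit 25) (.nd (nat_lit 22) 
(.lf (nat_lit 1346142241) (dlOf (nat_lit 5) (nat_lit 0x620286032413b018309c80c783340001c100604276030e0cd000060200d40a1806a04ec034027201aa0cd0000504017809d80bf03340000008035c00400020018e60182))) 
(.lf (nat_lit 24936481) (dlOf (nat_lit 6) (nat_lit 0x7954c0038a47003251a80012818005aa980008c04000c0000003f02002699a0001601000455300005c08003800800f400200ba0008bd0b03)))) 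
(.nd (nat_lit 6) (.lf (nat_lit 45908001) (dlOf (nat_lit 2) (nat_lit 0x431200020400001f029360180))) 
(.lf (nat_lit 36473185) (dlOf (nat_lit 1) (nat_lit 0x20019074e81))))) (.nd (nat_lit 6) 
(.nd (nat_lit 8) (.lf (nat_lit 36471969) (dlOf (nat_lit 1) (nat_lit 0x20029072b81))) 
(.lf (nat_lit 8160673) (dlOf (nat_lit 1) (nat_lit 0x400200020008513602)))) 
(.lf (nat_lit 61638241) (dlOf (nat_lit 1) (nat_lit 0x10008001800200060009923903))))))))) 
(.nd (nat_lit 27) (.nd (nat_lit 31) (.nd (nat_lit 12) (.nd (nat_lit 10) (.nd (nat_lit 19) 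
(.nd (nat_lit 8) (.nd (nat_lit 15) (.nd (nat_lit 18) 
(.lf (nat_lit 68157473) (dlOf (nat_lit 2) (nat_lit 0x20d60000d818400180))) 
(.lf (nat_lit 67371041) (dlOf (nat_lit 1) (nat_lit 0x44004000200080f0182)))) 
(.lf (nat_lit 67403809) (dlOf (nat_lit 2) (nat_lit 0x21680000d8180f0180)))) (.nd (nat_lit 6) 
(.lf (nat_lit 1409581345) (dlOf (nat_lit 2) (nat_lit 0x2902f8028ac0800a8008003400200040008047803))) 
(.lf (nat_lit 4630512609) (dlOf (nat_lit 1) (nat_lit 0x20008000c00200040008002883))))) 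
(.nd (nat_lit 6) (.nd (nat_lit 29) 
(.lf (nat_lit 4362600481) (dlOf (nat_lit 5) (nat_lit 0x5280cc02e28040278066017130200b603300b8901006b0198000000800a00080014002000200080a0903))) 
(.lf (nat_lit 1678245921) (dlOf (nat_lit 2) (nat_lit 0x2100ac0171402000400281b0901)))) 
(.nd (nat_lit 7) (.nd (nat_lit 29) 
(.lf (nat_lit 4362600545) (dlOf (nat_lit 2) (nat_lit 0x301980000408020000800b4002003000080a1283))) 
(.lf (nat_lit 1678245985) (dlOf (nat_lit 1) (nat_lit 0x280080010002000c00081b1283)))) 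
(.lf (nat_lit 604505057) (dlOf (nat_lit 2) (nat_lit 0x400c000000182d2880)))))) (.nd (nat_lit 8) 
(.nd (nat_lit 6) (.nd (nat_lit 11) 
(.lf (nat_lit 4630545953) (dlOf (nat_lit 3) (nat_lit 0x100b0000600800080100000004002800200140008003702))) 
(.lf (nat_lit 4362866209) (dlOf (nat_lit 1) (nat_lit 0x400400020018117182)))) (.nd (nat_lit 7) 
(.lf (nat_lit 335578721) (dlOf (nat_lit 1) (nat_lit 0xc00400080008003902))) 
(.lf (nat_lit 1409289441) (dlOf (nat_lit 1) (nat_lit 0x400400020008006502))))) (.nd (nat_lit 28) 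
(.nd (nat_lit 32) (.lf (nat_lit 1140852001) (dlOf (nat_lit 1) (nat_lit 0x400400020008003102))) 
(.lf (nat_lit 5435819297) (dlOf (nat_lit 1) (nat_lit 0x400400020008003102)))) 
(.lf (nat_lit 4630512929) (dlOf (nat_lit 1) (nat_lit 0x400400020008003102)))))) (.nd (nat_lit 6) 
(.nd (nat_lit 7) (.nd (nat_lit 9) 
(.lf (nat_lit 603983905) (dlOf (nat_lit 1) (nat_lit 0x1a0018007b01))) (.nd (nat_lit 10) 
(.lf (nat_lit 603984417) (dlOf (nat_lit 1) (nat_lit 0x1a0018008881))) 
(.lf (nat_lit 67147297) (dlOf (nat_lit 1) (nat_lit 0xc0018009c01))))) (.nd (nat_lit 11) 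
(.nd (nat_lit 9) (.lf (nat_lit 67900577) (dlOf (nat_lit 1) (nat_lit 0x160018339501))) 
(.lf (nat_lit 603984545) (dlOf (nat_lit 1) (nat_lit 0x400200020008008c82)))) (.nd (nat_lit 29) 
(.lf (nat_lit 1409293473) (dlOf (nat_lit 1) (nat_lit 0x40040002000800c202))) 
(.lf (nat_lit 1946164385) (dlOf (nat_lit 1) (nat_lit 0x800800280020004000800c203)))))) 
(.nd (nat_lit 8) (.nd (nat_lit 9) (.nd (nat_lit 7) 
(.lf (nat_lit 603984993) (dlOf (nat_lit 1) (nat_lit 0x480080044002001c0008009403))) 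
(.lf (nat_lit 603984097) (dlOf (nat_lit 1) (nat_lit 0x8008000400200020008008083)))) 
(.nd (nat_lit 15) (.lf (nat_lit 67115745) (dlOf (nat_lit 1) (nat_lit 0x8001800b981))) 
(.lf (nat_lit 67148513) (dlOf (nat_lit 1) (nat_lit 0x8001800b981))))) (.nd (nat_lit 7) 
(.nd (nat_lit 9) 
(.lf (nat_lit 4362115425) (dlOf (nat_lit 1) (nat_lit 0xa80080044002000c000800ab83))) 
(.lf (nat_lit 67114849) (dlOf (nat_lit 1) (nat_lit 0x4001800a301)))) (.nd (nat_lit 9) 
(.lf (nat_lit 1410079201) (dlOf (nat_lit 1) (nat_lit 0xb000080fb281))) 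
(.lf (nat_lit 4362082273) (dlOf (nat_lit 2) (nat_lit 0x2102380154808008800800540020004000800a603)))))))) 
(.nd (nat_lit 18) (.nd (nat_lit 7) (.nd (nat_lit 15) (.nd (nat_lit 6) (.nd (nat_lit 8) 
(.lf (nat_lit 2751469601) (dlOf (nat_lit 1) (nat_lit 0x3800800040020002000800a603))) 
(.lf (nat_lit 2752512289) (dlOf (nat_lit 1) (nat_lit 0x8008000400200020008014283)))) 
(.lf (nat_lit 2214593377) (dlOf (nat_lit 1) (nat_lit 0x20028002581)))) (.nd (nat_lit 20) 
(.nd (nat_lit 21) 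
(.lf (nat_lit 3557326881) (dlOf (nat_lit 11) (nat_lit 0xc100fc001d004062007e000e70201fc03f0007281016a01f8003880804b00fc000160401fc07e0000a0200aa03f0000481005301f800014080b080fc0000804060407e000000202dc00181c0601))) 
(.lf (nat_lit 2754117665) (dlOf (nat_lit 2) (nat_lit 0x240fb80011408004000800ac002002e00080c0b03)))) 
(.lf (nat_lit 2755166241) (dlOf (nat_lit 2) (nat_lit 0x1819c00180820022022000b00d8000a4200328008003800200820008120983))))) 
(.nd (nat_lit 6) (.nd (nat_lit 9) (.nd (nat_lit 28) 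
(.lf (nat_lit 3288341665) (dlOf (nat_lit 1) (nat_lit 0x800801d00020006000800c203))) 
(.lf (nat_lit 2483035297) (dlOf (nat_lit 1) (nat_lit 0x40040002000800c202)))) 
(.lf (nat_lit 2751465121) (dlOf (nat_lit 1) (nat_lit 0x260028003a81)))) (.nd (nat_lit 8) 
(.lf (nat_lit 3288337633) (dlOf (nat_lit 1) (nat_lit 0x20028006501))) 
(.lf (nat_lit 2751988705) (dlOf (nat_lit 1) (nat_lit 0x400200020008002882)))))) (.nd (nat_lit 15) 
(.nd (nat_lit 7) (.nd (nat_lit 30) 
(.lf (nat_lit 2214854689) (dlOf (nat_lit 2) (nat_lit 0x50130001480800080080004002000200080d0583))) 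
(.lf (nat_lit 3288596513) (dlOf (nat_lit 1) (nat_lit 0x4000400200008090002)))) (.nd (nat_lit 8) 
(.lf (nat_lit 2752774305) (dlOf (nat_lit 1) (nat_lit 0x600008044601))) 
(.lf (nat_lit 3557037473) (dlOf (nat_lit 2) (nat_lit 0x100248028d0080130008000c00200520008129903))))) 
(.nd (nat_lit 28) (.nd (nat_lit 7) (.nd (nat_lit 9) 
(.lf (nat_lit 2214887457) (dlOf (nat_lit 3) (nat_lit 0x1180060005e02008e0030002d818100500))) 
(.lf (nat_lit 2753331745) (dlOf (nat_lit 1) (nat_lit 0x4004000a0018090d82)))) 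
(.lf (nat_lit 3288629665) (dlOf (nat_lit 5) (nat_lit 0x200b800e8804000405c0074302000a02e0007016801ce81000080b800e72040150004008e0018090782)))) 
(.nd (nat_lit 19) (.nd (nat_lit 29) 
(.lf (nat_lit 2483322913) (dlOf (nat_lit 10) (nat_lit 0x1ba02500a100e806474100020040031f00402f004a018820200c402a00480080056b41002c80a8010c020015ac04005a02a00150080056ac1000d00a8028e2040004054004a01000a34820032015002b0040028d0080208004005400180a0902))) 
(.lf (nat_lit 3020193825) (dlOf (nat_lit 3) (nat_lit 0x40130000080802980c8000405a00a802600110128000002000080080070002001c0008150183)))) 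
(.lf (nat_lit 3557589025) (dlOf (nat_lit 5) (nat_lit 0xc0328002a40800900a400d40000008a0400780000003e8100140248001e0080040008006c002001a0008270603)))))))) 
(.nd (nat_lit 28) (.nd (nat_lit 31) (.nd (nat_lit 6) (.nd (nat_lit 9) (.nd (nat_lit 8) 
(.nd (nat_lit 18) (.nd (nat_lit 29) 
(.lf (nat_lit 201850913) (dlOf (nat_lit 9) (nat_lit 0x6902180bb810405ac07e032603d015a01c0071a828084810c04e0082024803f013e01e808280e0038d214017c082007e03d00e3402011d02180b28104042807e02cc03d010701c00719c28053010c029c07e01bf9040272043014301f806fb010011010c00f807e01beb04007e03b000000180a0900))) 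
(.lf (nat_lit 738721825) (dlOf (nat_lit 3) (nat_lit 0x18010800c80540003604001e02a000100480004c1001f0008001000200ae00080f0b03)))) 
(.lf (nat_lit 201588769) (dlOf (nat_lit 1) (nat_lit 0x168008000800200860008030983)))) 
(.nd (nat_lit 7) (.lf (nat_lit 6106907937) (dlOf (nat_lit 1) (nat_lit 0x400400020008003102))) 
(.lf (nat_lit 1275103649) (dlOf (nat_lit 2) (nat_lit 0x30050019d804002c00200100008004e82))))) 
(.nd (nat_lit 10) 
(.lf (nat_lit 201366049) (dlOf (nat_lit 2) (nat_lit 0x2d80000182604003800200a6000800b282))) 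
(.nd (nat_lit 11) 
(.lf (nat_lit 6106940961) (dlOf (nat_lit 3) (nat_lit 0x500b00028054003c0280000e06000c016000600a800000100020008008800200360008003703))) 
(.lf (nat_lit 202116641) (dlOf (nat_lit 1) (nat_lit 0x800180f7181)))))) (.nd (nat_lit 7) 
(.nd (nat_lit 9) (.nd (nat_lit 11) 
(.lf (nat_lit 5033165153) (dlOf (nat_lit 1) (nat_lit 0x400200020008000e82))) 
(.lf (nat_lit 201333089) (dlOf (nat_lit 1) (nat_lit 0x80040002000800ab82)))) 
(.lf (nat_lit 201328481) (dlOf (nat_lit 1) (nat_lit 0x800400040008003f82)))) (.nd (nat_lit 8) 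
(.nd (nat_lit 10) 
(.lf (nat_lit 201361633) (dlOf (nat_lit 3) (nat_lit 0x14407a0003b02002c03d0001d018004a80))) 
(.lf (nat_lit 6106907873) (dlOf (nat_lit 1) (nat_lit 0x400200020008002e02)))) 
(.lf (nat_lit 201332705) (dlOf (nat_lit 1) (nat_lit 0x100040002001800a602)))))) (.nd (nat_lit 15) 
(.nd (nat_lit 6) (.nd (nat_lit 7) (.nd (nat_lit 8) 
(.lf (nat_lit 6643783201) (dlOf (nat_lit 1) (nat_lit 0x40018009c01))) 
(.lf (nat_lit 6643782433) (dlOf (nat_lit 1) (nat_lit 0x60018008f81)))) 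
(.lf (nat_lit 3422552737) (dlOf (nat_lit 1) (nat_lit 0x10008000400200020008001c03)))) 
(.nd (nat_lit 12) (.lf (nat_lit 2885683553) (dlOf (nat_lit 1) (nat_lit 0x20028004e81))) 
(.lf (nat_lit 2348816737) (dlOf (nat_lit 1) (nat_lit 0x100040002000800ab82))))) (.nd (nat_lit 19) 
(.nd (nat_lit 8) (.nd (nat_lit 9) 
(.lf (nat_lit 2349105185) (dlOf (nat_lit 10) (nat_lit 0x801000e388100dd01280508078038d40802f004a01bec0200c402a0048008005c501002c80a8010c0200171304005a02a0015008005c481000d00a8028a8040004054004a01000a26020032015002b004002896080208004005400180a0902))) 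
(.lf (nat_lit 6643810849) (dlOf (nat_lit 1) (nat_lit 0x40028001481)))) 
(.lf (nat_lit 3422590241) (dlOf (nat_lit 8) (nat_lit 0x2c01c000a00000017820021007000f00000005c08008c01c00380000001682000400700040000000140800b00000000602003000e0000101001e007000c80000000008000400400560018009782)))) 
(.nd (nat_lit 6) (.nd (nat_lit 30) 
(.lf (nat_lit 2886238241) (dlOf (nat_lit 2) (nat_lit 0x132040000000181a0500))) 
(.lf (nat_lit 3959980065) (dlOf (nat_lit 2) (nat_lit 0x1a811802e2804004400400160008180902)))) 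
(.lf (nat_lit 3959980129) (dlOf (nat_lit 10) (nat_lit 0x38138000440400ac0ac0002102001a0560000e0100030238000380800480bc0001204006c05e001802e001800a0000201800880bc0000604001805e0000102000402f00010170000001000b800800b000200020008181283))))))) 
(.nd (nat_lit 15) (.nd (nat_lit 7) (.nd (nat_lit 29) (.nd (nat_lit 6) (.nd (nat_lit 18) 
(.lf (nat_lit 471859233) (dlOf (nat_lit 2) (nat_lit 0x2a04900006c080098008009400200140008540183))) 
(.lf (nat_lit 471597089) (dlOf (nat_lit 2) (nat_lit 0xc2ca00c130200080018350681)))) 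
(.nd (nat_lit 11) 
(.lf (nat_lit 470286689) (dlOf (nat_lit 1) (nat_lit 0x10008001c002001a00080c0703))) 
(.lf (nat_lit 469768545) (dlOf (nat_lit 1) (nat_lit 0x344004011a000800ab82))))) (.nd (nat_lit 30) 
(.nd (nat_lit 10) 
(.lf (nat_lit 3154640929) (dlOf (nat_lit 2) (nat_lit 0x140400026019005348282f0680))) 
(.lf (nat_lit 5301603361) (dlOf (nat_lit 2) (nat_lit 0xd0188000bc080010008000c00200040008006003)))) 
(.nd (nat_lit 18) 
(.lf (nat_lit 4228382753) (dlOf (nat_lit 5) (nat_lit 0x5280c802b5a040278064015ac0200b603200ad581006b0190000000800a00080014002000200080a0903))) 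
(.lf (nat_lit 6377177121) (dlOf (nat_lit 1) (nat_lit 0xe00280b0181)))))) (.nd (nat_lit 6) 
(.nd (nat_lit 8) (.nd (nat_lit 10) 
(.lf (nat_lit 1006635169) (dlOf (nat_lit 1) (nat_lit 0x20028004881))) 
(.lf (nat_lit 4227865761) (dlOf (nat_lit 1) (nat_lit 0x40040002000800c202)))) 
(.lf (nat_lit 3690991521) (dlOf (nat_lit 1) (nat_lit 0x40028007881)))) (.nd (nat_lit 8) 
(.lf (nat_lit 5301862625) (dlOf (nat_lit 5) (nat_lit 0x5480440001a04030c0220000c02016801100005810097008800000080328008007c002006400080c1a83))) 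
(.nd (nat_lit 29) (.lf (nat_lit 469768161) (dlOf (nat_lit 1) (nat_lit 0x80040104001800a602))) 
(.lf (nat_lit 1006639073) (dlOf (nat_lit 1) (nat_lit 0x40040002000800a602))))))) (.nd (nat_lit 6) 
(.nd (nat_lit 18) (.nd (nat_lit 9) (.nd (nat_lit 22) 
(.lf (nat_lit 470319137) (dlOf (nat_lit 2) (nat_lit 0x2f0b980612c0800d00080054002003600080c0003))) 
(.lf (nat_lit 474513441) (dlOf (nat_lit 2) (nat_lit 0x54156002f0a1802b84ec017419a005a085005703a8000f83000500080034002001000091a0183)))) 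
(.lf (nat_lit 4227894817) (dlOf (nat_lit 2) (nat_lit 0x4813c001be04000c004000c0008007182)))) 
(.nd (nat_lit 10) (.nd (nat_lit 20) 
(.lf (nat_lit 2080669729) (dlOf (nat_lit 1) (nat_lit 0x4002000200080b0182))) 
(.lf (nat_lit 471105569) (dlOf (nat_lit 2) (nat_lit 0x260470002000800600080004002001c0008270603)))) 
(.lf (nat_lit 5301896225) (dlOf (nat_lit 1) (nat_lit 0x80080004002000200080e2883))))) 
(.nd (nat_lit 7) (.nd (nat_lit 8) 
(.lf (nat_lit 469802081) (dlOf (nat_lit 12) (nat_lit 0x407e0002d01000403f0001600800181f8000ae0400840fc0004e02004a07e0002681000e03f0001300800501f80008c0400800fc0004502001207e0001f81002503f0000f40800b81f800000040038004004a001800c002))) 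
(.lf (nat_lit 5838766433) (dlOf (nat_lit 1) (nat_lit 0x10800202e000081b0702)))) (.nd (nat_lit 8) 
(.nd (nat_lit 20) (.lf (nat_lit 470319329) (dlOf (nat_lit 2) (nat_lit 0x581f20003f0180c0480))) 
(.lf (nat_lit 471367905) (dlOf (nat_lit 2) (nat_lit 0x260b28000740800280080008002001000082e0583)))) 
(.lf (nat_lit 3691025377) (dlOf (nat_lit 1) (nat_lit 0x1b8008000400200400008009203)))))))))) 
(.nd (nat_lit 18) (.nd (nat_lit 10) (.nd (nat_lit 19) (.nd (nat_lit 7) (.nd (nat_lit 6) 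
(.nd (nat_lit 20) (.nd (nat_lit 11) (.nd (nat_lit 21) 
(.lf (nat_lit 473964577) (dlOf (nat_lit 1) (nat_lit 0x400200020008fe0182))) 
(.lf (nat_lit 14688289) (dlOf (nat_lit 1) (nat_lit 0x400200020008770182)))) (.nd (nat_lit 9) 
(.lf (nat_lit 3623893025) (dlOf (nat_lit 1) (nat_lit 0x8008000400202d0000800a603))) 
(.lf (nat_lit 201341473) (dlOf (nat_lit 1) (nat_lit 0x4000800040020004000800b283))))) 
(.nd (nat_lit 24) (.nd (nat_lit 15) (.nd (nat_lit 26) 
(.lf (nat_lit 1343234081) (dlOf (nat_lit 1) (nat_lit 0x18002000600081b0702))) 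
(.lf (nat_lit 68165665) (dlOf (nat_lit 1) (nat_lit 0x520008410601)))) 
(.lf (nat_lit 68198433) (dlOf (nat_lit 1) (nat_lit 0x2a0008450601)))) (.nd (nat_lit 22) 
(.lf (nat_lit 59777057) (dlOf (nat_lit 1) (nat_lit 0x400400020009830682))) 
(.lf (nat_lit 22028321) (dlOf (nat_lit 1) (nat_lit 0x2400400180008a90482)))))) (.nd (nat_lit 8) 
(.nd (nat_lit 15) (.nd (nat_lit 20) 
(.lf (nat_lit 473964641) (dlOf (nat_lit 1) (nat_lit 0x400200020008fe0902))) 
(.lf (nat_lit 30416993) (dlOf (nat_lit 1) (nat_lit 0x400400020008e30482)))) (.nd (nat_lit 11) 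
(.lf (nat_lit 10526817) (dlOf (nat_lit 1) (nat_lit 0x4004000200085f1a82))) 
(.lf (nat_lit 3492853857) (dlOf (nat_lit 1) (nat_lit 0x4002000200080fa802))))) (.nd (nat_lit 9) 
(.nd (nat_lit 11) (.lf (nat_lit 5033173345) (dlOf (nat_lit 1) (nat_lit 0x400200020008000e82))) 
(.lf (nat_lit 51390817) (dlOf (nat_lit 2) (nat_lit 0xace9005c4819514e80)))) (.nd (nat_lit 11) 
(.lf (nat_lit 6039810913) (dlOf (nat_lit 1) (nat_lit 0x3000200040008008f82))) 
(.lf (nat_lit 1409334113) (dlOf (nat_lit 1) (nat_lit 0x9800800340020006000800bc83))))))) 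
(.nd (nat_lit 28) (.nd (nat_lit 15) (.nd (nat_lit 6) (.nd (nat_lit 11) 
(.lf (nat_lit 8401313) (dlOf (nat_lit 1) (nat_lit 0x20018518381))) 
(.lf (nat_lit 3959433633) (dlOf (nat_lit 1) (nat_lit 0x20008004e81)))) (.nd (nat_lit 11) 
(.lf (nat_lit 8401633) (dlOf (nat_lit 1) (nat_lit 0x400200020008518c82))) 
(.lf (nat_lit 19938017) (dlOf (nat_lit 1) (nat_lit 0x8002000200089db982))))) (.nd (nat_lit 12) 
(.nd (nat_lit 8) (.lf (nat_lit 18915553) (dlOf (nat_lit 2) (nat_lit 0x4045f00020818970580))) 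
(.lf (nat_lit 50373601) (dlOf (nat_lit 1) (nat_lit 0x200194c2881)))) (.nd (nat_lit 11) 
(.lf (nat_lit 8434401) (dlOf (nat_lit 1) (nat_lit 0x400200020008518c82))) 
(.lf (nat_lit 67156705) (dlOf (nat_lit 1) (nat_lit 0x4001800b981)))))) (.nd (nat_lit 12) 
(.nd (nat_lit 31) (.nd (nat_lit 8) 
(.lf (nat_lit 469772449) (dlOf (nat_lit 1) (nat_lit 0x20028004881))) 
(.lf (nat_lit 6241135009) (dlOf (nat_lit 1) (nat_lit 0x20018004e81)))) (.nd (nat_lit 11) 
(.lf (nat_lit 3556811169) (dlOf (nat_lit 1) (nat_lit 0x460008001001))) 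
(.lf (nat_lit 3489671585) (dlOf (nat_lit 1) (nat_lit 0x400200020008004e82))))) (.nd (nat_lit 26) 
(.nd (nat_lit 27) (.lf (nat_lit 1342192033) (dlOf (nat_lit 1) (nat_lit 0x40040002001800af82))) 
(.lf (nat_lit 1476409761) (dlOf (nat_lit 1) (nat_lit 0x2001800af81)))) (.nd (nat_lit 6) 
(.lf (nat_lit 4227873697) (dlOf (nat_lit 3) (nat_lit 0x806400af90200020400057701800bc80))) 
(.lf (nat_lit 469774561) (dlOf (nat_lit 1) (nat_lit 0x800200020008008082)))))))) (.nd (nat_lit 15) 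
(.nd (nat_lit 27) (.nd (nat_lit 30) (.nd (nat_lit 6) (.nd (nat_lit 20) 
(.lf (nat_lit 21504033) (dlOf (nat_lit 2) (nat_lit 0x6ce9800466340008a08000400200020008a40182))) 
(.lf (nat_lit 35135521) (dlOf (nat_lit 1) (nat_lit 0x8008002800200020008fe0683)))) 
(.lf (nat_lit 42475617) (dlOf (nat_lit 2) (nat_lit 0x512480048a04000c00200020009251982)))) 
(.nd (nat_lit 6) (.nd (nat_lit 7) 
(.lf (nat_lit 1611145249) (dlOf (nat_lit 4) (nat_lit 0xa40540003602000c02a0000b81001b01500004c0800380080008002002600080f0b03))) 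
(.lf (nat_lit 3221758113) (dlOf (nat_lit 1) (nat_lit 0x1c00400720008170202)))) 
(.lf (nat_lit 1409819105) (dlOf (nat_lit 1) (nat_lit 0x8008000400200020008090c03))))) 
(.nd (nat_lit 26) (.nd (nat_lit 30) 
(.lf (nat_lit 2819104801) (dlOf (nat_lit 11) (nat_lit 0xc100fc0017004062007e000b70201fc03f0005a81016a01f8002c80804b00fc000160401fc07e0000a0200aa03f0000481005301f800014080b080fc0000804060407e000000202dc00181a0601))) 
(.lf (nat_lit 3892846625) (dlOf (nat_lit 1) (nat_lit 0x20018280001)))) (.nd (nat_lit 7) 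
(.nd (nat_lit 22) 
(.lf (nat_lit 738730017) (dlOf (nat_lit 4) (nat_lit 0xa40540003602000c02a0000b81001b01500004c0800380080008002002600080f0b03))) 
(.lf (nat_lit 474488865) (dlOf (nat_lit 3) (nat_lit 0x427200120cd0002b0200420ab0041850c001812c000550600040019180181)))) 
(.lf (nat_lit 3959955617) (dlOf (nat_lit 1) (nat_lit 0x1c00400720008170202)))))) (.nd (nat_lit 23) 
(.nd (nat_lit 20) (.nd (nat_lit 22) (.nd (nat_lit 26) 
(.lf (nat_lit 2819137569) (dlOf (nat_lit 9) (nat_lit 0x2a406a014b0348002d41006801a8032c0d2000b20400f806a002603480002c1003a01a801b00d20000a0400c406a005a0348000241003481a8018c0d20000504019606a00cd0348000101000101a8000000400fc004001c00081a0602))) 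
(.lf (nat_lit 3557335073) (dlOf (nat_lit 8) (nat_lit 0x2e4061011803000039410080818402a00c0000e2040126061004303000002c100770184027c0c00000a040176061006b0300000241005f018401c40c0000050400bc061006303000001010024000801d4002000c00081c0603)))) 
(.lf (nat_lit 21536801) (dlOf (nat_lit 1) (nat_lit 0x58004001c0008a40182)))) (.nd (nat_lit 26) 
(.lf (nat_lit 3493371937) (dlOf (nat_lit 1) (nat_lit 0x15400400260008120982))) 
(.lf (nat_lit 2755174433) (dlOf (nat_lit 1) (nat_lit 0x15400400260008120982))))) (.nd (nat_lit 6) 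
(.nd (nat_lit 20) (.lf (nat_lit 27828257) (dlOf (nat_lit 1) (nat_lit 0x40018d30601))) 
(.nd (nat_lit 21) 
(.lf (nat_lit 10002465) (dlOf (nat_lit 8) (nat_lit 0x32f0b801957c20001882000c4a000005c0804c61380000e04007b09c0000602011784e0000281002ac2700000808001e8a402f709c019184d00c5be280235f00000001401c8004001000085a0b02))) 
(.lf (nat_lit 45654049) (dlOf (nat_lit 2) (nat_lit 0x5c00000000019340180))))) (.nd (nat_lit 7) 
(.lf (nat_lit 25731425) (dlOf (nat_lit 3) (nat_lit 0x367d0002af680017c1000180000002404008c00400120018c10902))) 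
(.lf (nat_lit 59286497) (dlOf (nat_lit 1) (nat_lit 0x1e00297e2881)))))))) (.nd (nat_lit 9) 
(.nd (nat_lit 6) (.nd (nat_lit 7) (.nd (nat_lit 27) (.nd (nat_lit 15) 
(.lf (nat_lit 4563412001) (dlOf (nat_lit 1) (nat_lit 0x20028002881))) (.nd (nat_lit 19) 
(.lf (nat_lit 2751505441) (dlOf (nat_lit 1) (nat_lit 0x280008002881))) 
(.lf (nat_lit 52995105) (dlOf (nat_lit 1) (nat_lit 0x400400020009572882))))) (.nd (nat_lit 8) 
(.nd (nat_lit 11) (.lf (nat_lit 3623887905) (dlOf (nat_lit 1) (nat_lit 0x280008002881))) 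
(.lf (nat_lit 2013277217) (dlOf (nat_lit 1) (nat_lit 0xe0018006001)))) 
(.lf (nat_lit 3422565665) (dlOf (nat_lit 1) (nat_lit 0x40028009781))))) (.nd (nat_lit 8) 
(.nd (nat_lit 12) (.nd (nat_lit 31) 
(.lf (nat_lit 939535521) (dlOf (nat_lit 2) (nat_lit 0x50000000c8040028002000c0008006282))) 
(.lf (nat_lit 3087019169) (dlOf (nat_lit 10) (nat_lit 0x10080000803a0004019000400c00009020002006400140300002204001401d000800c80006c10007800000032040014000000180200060000000b01000d00000005408005000000028040018040000020200340018006281)))) 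
(.lf (nat_lit 2754624673) (dlOf (nat_lit 1) (nat_lit 0x4004000200080fc202)))) (.nd (nat_lit 11) 
(.nd (nat_lit 26) (.lf (nat_lit 1476408737) (dlOf (nat_lit 2) (nat_lit 0x40450021b018009900))) 
(.lf (nat_lit 3691001249) (dlOf (nat_lit 2) (nat_lit 0x2b000000000080008008001000200120008009903)))) 
(.lf (nat_lit 1342188961) (dlOf (nat_lit 1) (nat_lit 0x400400020018006d02)))))) (.nd (nat_lit 7) 
(.nd (nat_lit 8) (.nd (nat_lit 26) 
(.lf (nat_lit 2952805473) (dlOf (nat_lit 7) (nat_lit 0x3c80b0010405600e002a004a013803e8078007403400520090072004001a0014024400400fa0000002a0b0046016001a80ac00cc0540050029001401380190078002402e0056008006a0028025800801480000005316008c02c0002015000580a4002c00a015600000028850017015000f80a4008803c006e002000228400090020000b80800100b0002400800004040026002800c001))) 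
(.nd (nat_lit 27) 
(.lf (nat_lit 603995233) (dlOf (nat_lit 15) (nat_lit 0x6016001f00a802f0000000ba0c006002c005a015004f000000170180758044002000400052040052016002800a80508044008c020002000e001700100290000000a21c00b802c007c01500bb008801d0040006001c00080060037001801e0008014c0000005012003e0160002601000100b000118080160058008000e000450400320160002101002500b000400000007e08005002c0003e0200620160001e81000f00b00002c080318000000080408540020012000800c002))) 
(.lf (nat_lit 469777505) (dlOf (nat_lit 1) (nat_lit 0x40040002001800c002))))) (.nd (nat_lit 11) 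
(.lf (nat_lit 57189729) (dlOf (nat_lit 1) (nat_lit 0x400400040009793402))) (.nd (nat_lit 12) 
(.lf (nat_lit 20458849) (dlOf (nat_lit 1) (nat_lit 0x200289d6a81))) 
(.lf (nat_lit 2483043681) (dlOf (nat_lit 1) (nat_lit 0x6001800c901)))))) (.nd (nat_lit 8) 
(.nd (nat_lit 11) (.nd (nat_lit 20) 
(.lf (nat_lit 67122401) (dlOf (nat_lit 1) (nat_lit 0xd00080004002001c0008009503))) 
(.lf (nat_lit 19936481) (dlOf (nat_lit 1) (nat_lit 0x200189d9501)))) 
(.lf (nat_lit 2754620641) (dlOf (nat_lit 1) (nat_lit 0x2400180f6501)))) (.nd (nat_lit 26) 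
(.lf (nat_lit 2952836577) (dlOf (nat_lit 1) (nat_lit 0x800200020008009b02))) 
(.lf (nat_lit 604026337) (dlOf (nat_lit 2) (nat_lit 0x300d00004604000800200160008009b02))))))) 
(.nd (nat_lit 26) (.nd (nat_lit 6) (.nd (nat_lit 30) (.nd (nat_lit 19) 
(.lf (nat_lit 4294979105) (dlOf (nat_lit 1) (nat_lit 0x20008007181))) 
(.lf (nat_lit 20459041) (dlOf (nat_lit 1) (nat_lit 0x600289d7181)))) (.nd (nat_lit 11) 
(.lf (nat_lit 5502936609) (dlOf (nat_lit 1) (nat_lit 0x8008000400200020008003703))) 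
(.nd (nat_lit 15) (.lf (nat_lit 5905591841) (dlOf (nat_lit 1) (nat_lit 0xb40028007181))) 
(.lf (nat_lit 1342221857) (dlOf (nat_lit 2) (nat_lit 0x62470006f818007180)))))) (.nd (nat_lit 8) 
(.nd (nat_lit 11) (.nd (nat_lit 19) 
(.lf (nat_lit 4563445345) (dlOf (nat_lit 1) (nat_lit 0x58002000a0008003902))) 
(.lf (nat_lit 61384289) (dlOf (nat_lit 1) (nat_lit 0x80029923901)))) 
(.lf (nat_lit 5905624673) (dlOf (nat_lit 1) (nat_lit 0xe000400700008007182)))) (.nd (nat_lit 7) 
(.lf (nat_lit 1342191457) (dlOf (nat_lit 3) (nat_lit 0x809d0025001000104e800fa008014000800080020022000800a303))) 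
(.lf (nat_lit 536885217) (dlOf (nat_lit 2) (nat_lit 0x9e052002af81800a600)))))) (.nd (nat_lit 7) 
(.nd (nat_lit 6) (.nd (nat_lit 11) 
(.lf (nat_lit 4630521377) (dlOf (nat_lit 1) (nat_lit 0x400400020008003702))) (.nd (nat_lit 15) 
(.lf (nat_lit 4227870241) (dlOf (nat_lit 2) (nat_lit 0x500a8001be04000c004001c0008007182))) 
(.lf (nat_lit 2754653729) (dlOf (nat_lit 1) (nat_lit 0x680080020002001400080f7183))))) 
(.nd (nat_lit 15) 
(.lf (nat_lit 3154126433) (dlOf (nat_lit 1) (nat_lit 0x20008001c00200020008003903))) 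
(.lf (nat_lit 1009296993) (dlOf (nat_lit 2) (nat_lit 0x1c8000000a6040054002004600090e3902))))) 
(.nd (nat_lit 8) (.nd (nat_lit 15) 
(.lf (nat_lit 2754621089) (dlOf (nat_lit 2) (nat_lit 0x401d000120180f7200))) 
(.lf (nat_lit 2754653857) (dlOf (nat_lit 1) (nat_lit 0x800180f7201)))) (.nd (nat_lit 6) 
(.nd (nat_lit 15) (.lf (nat_lit 4362086305) (dlOf (nat_lit 1) (nat_lit 0x4c00200240008004282))) 
(.lf (nat_lit 4362119073) (dlOf (nat_lit 1) (nat_lit 0xc0028004281)))) 
(.lf (nat_lit 2348824545) (dlOf (nat_lit 2) (nat_lit 0x3d015001d8040000c01c0055f060002000800a601))))))))) 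
(.nd (nat_lit 15) (.nd (nat_lit 26) (.nd (nat_lit 7) (.nd (nat_lit 19) (.nd (nat_lit 28) 
(.nd (nat_lit 29) (.nd (nat_lit 20) 
(.lf (nat_lit 6442721313) (dlOf (nat_lit 1) (nat_lit 0x2000200260008190682))) 
(.lf (nat_lit 26484769) (dlOf (nat_lit 4) (nat_lit 0x2e742007e0000000582000a9d08000240800bce8400000040150002000a0008c50182)))) 
(.nd (nat_lit 27) 
(.lf (nat_lit 537141281) (dlOf (nat_lit 1) (nat_lit 0x20008000400200180008030983))) 
(.lf (nat_lit 671359009) (dlOf (nat_lit 5) (nat_lit 0x22011002ffc080098088017fa04000404400bf9020062022005f8018160480))))) 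
(.nd (nat_lit 31) (.nd (nat_lit 6) 
(.lf (nat_lit 805576737) (dlOf (nat_lit 1) (nat_lit 0x400400020008130482))) 
(.lf (nat_lit 1879318625) (dlOf (nat_lit 1) (nat_lit 0x2600180d1381)))) (.nd (nat_lit 27) 
(.lf (nat_lit 2953060385) (dlOf (nat_lit 1) (nat_lit 0x400080f0601))) 
(.lf (nat_lit 3087278113) (dlOf (nat_lit 1) (nat_lit 0x400400160008160482)))))) (.nd (nat_lit 20) 
(.nd (nat_lit 6) (.nd (nat_lit 23) 
(.lf (nat_lit 2819366945) (dlOf (nat_lit 5) (nat_lit 0xc0310002980800900a400d4000000870400280460003f01003c0000001ec080040008006c002001a0008250603))) 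
(.lf (nat_lit 42737697) (dlOf (nat_lit 1) (nat_lit 0x400200020009280182)))) 
(.lf (nat_lit 59514977) (dlOf (nat_lit 1) (nat_lit 0x10c00400360009800902)))) (.nd (nat_lit 21) 
(.nd (nat_lit 23) 
(.lf (nat_lit 5773205537) (dlOf (nat_lit 3) (nat_lit 0x1d04f002b825e0004604006c13c00b70978001141000200080070002002000080b0183))) 
(.lf (nat_lit 27009057) (dlOf (nat_lit 1) (nat_lit 0x2000800e800200540008ca0603)))) 
(.nd (nat_lit 6) (.lf (nat_lit 45883425) (dlOf (nat_lit 1) (nat_lit 0x40019360181))) 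
(.lf (nat_lit 8141921) (dlOf (nat_lit 2) (nat_lit 0x27ab0002a01851c000))))))) (.nd (nat_lit 8) 
(.nd (nat_lit 27) (.nd (nat_lit 19) (.nd (nat_lit 9) 
(.lf (nat_lit 4563673313) (dlOf (nat_lit 2) (nat_lit 0x600000000e04001c002000200080c1d02))) 
(.lf (nat_lit 20200161) (dlOf (nat_lit 1) (nat_lit 0x8002000200089db982)))) (.nd (nat_lit 6) 
(.lf (nat_lit 12329121) (dlOf (nat_lit 1) (nat_lit 0x4004000200086c0202))) 
(.lf (nat_lit 30154977) (dlOf (nat_lit 1) (nat_lit 0x40018e30581))))) (.nd (nat_lit 6) 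
(.lf (nat_lit 4697890977) (dlOf (nat_lit 1) (nat_lit 0x400180c1381))) (.nd (nat_lit 9) 
(.lf (nat_lit 4697891041) (dlOf (nat_lit 6) (nat_lit 0x20340000701002601a001280c800a403e006a01500120090000342800600d00004064002001f000200a800980480001814003c0680004032001300f80028054006c0240000b0a0006034000700f80000010026800800c8002002000080c1a83))) 
(.lf (nat_lit 2818847457) (dlOf (nat_lit 1) (nat_lit 0x9d800800a0002004c0008128c83)))))) 
(.nd (nat_lit 6) (.nd (nat_lit 10) (.nd (nat_lit 11) 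
(.lf (nat_lit 53223841) (dlOf (nat_lit 1) (nat_lit 0x40029571001))) 
(.lf (nat_lit 46410145) (dlOf (nat_lit 1) (nat_lit 0xc0019384e81)))) 
(.lf (nat_lit 8136097) (dlOf (nat_lit 1) (nat_lit 0x400200020008513602)))) (.nd (nat_lit 9) 
(.nd (nat_lit 10) (.lf (nat_lit 5905850849) (dlOf (nat_lit 1) (nat_lit 0x400200020008157d02))) 
(.lf (nat_lit 2818848225) (dlOf (nat_lit 2) (nat_lit 0x14040000000200020028129b01)))) 
(.lf (nat_lit 8138721) (dlOf (nat_lit 1) (nat_lit 0x20018517a81))))))) (.nd (nat_lit 31) 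
(.nd (nat_lit 27) (.nd (nat_lit 28) (.nd (nat_lit 6) (.nd (nat_lit 29) (.nd (nat_lit 32) 
(.lf (nat_lit 67379233) (dlOf (nat_lit 2) (nat_lit 0xc2dc0001b02000800080f0181))) 
(.lf (nat_lit 4362346529) (dlOf (nat_lit 4) (nat_lit 0x400cc0003e0400100660001c02001e03200140188000001000c8008002400200080008030c03)))) 
(.lf (nat_lit 1677991969) (dlOf (nat_lit 1) (nat_lit 0x400400020008130482)))) 
(.lf (nat_lit 68428001) (dlOf (nat_lit 1) (nat_lit 0x160028570581)))) (.nd (nat_lit 10) 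
(.lf (nat_lit 1409556513) (dlOf (nat_lit 1) (nat_lit 0x20008000400200180008030983))) 
(.lf (nat_lit 872686625) (dlOf (nat_lit 1) (nat_lit 0x20018092881))))) (.nd (nat_lit 19) 
(.nd (nat_lit 7) (.nd (nat_lit 32) 
(.lf (nat_lit 1543774241) (dlOf (nat_lit 2) (nat_lit 0x1c04a00d40220032d828160480))) 
(.lf (nat_lit 5838741537) (dlOf (nat_lit 1) (nat_lit 0x2000200260008190682)))) 
(.lf (nat_lit 5301870753) (dlOf (nat_lit 1) (nat_lit 0x200180c1381)))) (.nd (nat_lit 29) 
(.lf (nat_lit 471605281) (dlOf (nat_lit 3) (nat_lit 0xc16200080a1006098200060588003028401824080008002002a0008350682))) 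
(.lf (nat_lit 6377185313) (dlOf (nat_lit 3) (nat_lit 0x1d04bc02b82400004604006c12f00b70900001141000200080070002002000080b0183)))))) 
(.nd (nat_lit 6) (.nd (nat_lit 27) (.nd (nat_lit 19) 
(.lf (nat_lit 2483298337) (dlOf (nat_lit 9) (nat_lit 0x176012806474080388094032340401bc050018f30201a402801480128062081000a0094031020400400500146902003402800a3401000e014004edc0800280080060002001600080a0903))) 
(.lf (nat_lit 4096532513) (dlOf (nat_lit 2) (nat_lit 0x2810400046040010004000a0018120182)))) 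
(.nd (nat_lit 28) 
(.lf (nat_lit 2349080609) (dlOf (nat_lit 9) (nat_lit 0x1760128071a8080388094038ce0401bc05001c570201a40280148012806fb01000a0094037d60400400500144c02003402800a2581000e014004f000800280080060002001600080a0903))) 
(.lf (nat_lit 4228128801) (dlOf (nat_lit 4) (nat_lit 0x200c80003e0400200640001c02001e03100140180000001000c8008002400200080008030c03))))) 
(.nd (nat_lit 7) (.nd (nat_lit 27) 
(.lf (nat_lit 2483298401) (dlOf (nat_lit 1) (nat_lit 0x8002000600080a1382))) 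
(.lf (nat_lit 2349080673) (dlOf (nat_lit 2) (nat_lit 0x11e028000110180a1280)))) (.nd (nat_lit 10) 
(.nd (nat_lit 12) 
(.lf (nat_lit 2752259041) (dlOf (nat_lit 1) (nat_lit 0x170008000400200280008002883))) 
(.lf (nat_lit 3557045217) (dlOf (nat_lit 2) (nat_lit 0xa03900130c080030008000c00200380008129203)))) 
(.lf (nat_lit 2751739873) (dlOf (nat_lit 1) (nat_lit 0x3800800080020004000800a603)))))))) 
(.nd (nat_lit 28) (.nd (nat_lit 6) (.nd (nat_lit 30) (.nd (nat_lit 19) (.nd (nat_lit 20) 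
(.nd (nat_lit 31) (.lf (nat_lit 67412001) (dlOf (nat_lit 1) (nat_lit 0x520008100601))) 
(.lf (nat_lit 2214895649) (dlOf (nat_lit 4) (nat_lit 0x28804c00240060005e0400080130002e81005400980016c0801080080064002001c0008100503)))) 
(.nd (nat_lit 21) (.nd (nat_lit 22) 
(.lf (nat_lit 9740321) (dlOf (nat_lit 1) (nat_lit 0x38008003c002001a0008580183))) 
(.lf (nat_lit 22323233) (dlOf (nat_lit 4) (nat_lit 0xe14f000103f0008f01001484ec0046e04004028a0018139000e6828ac0480)))) 
(.lf (nat_lit 62169121) (dlOf (nat_lit 1) (nat_lit 0x20009960181))))) (.nd (nat_lit 21) 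
(.nd (nat_lit 7) 
(.lf (nat_lit 42770465) (dlOf (nat_lit 2) (nat_lit 0x7f5700001c04000c00200020009280182))) 
(.lf (nat_lit 4362903969) (dlOf (nat_lit 1) (nat_lit 0x200081a0781)))) (.nd (nat_lit 10) 
(.lf (nat_lit 28090401) (dlOf (nat_lit 2) (nat_lit 0x15ed0001f4080020008001400200060008d50603))) 
(.lf (nat_lit 53257249) (dlOf (nat_lit 1) (nat_lit 0x20008000c00200080009572883)))))) 
(.nd (nat_lit 29) (.nd (nat_lit 9) (.nd (nat_lit 26) 
(.lf (nat_lit 1208262689) (dlOf (nat_lit 2) (nat_lit 0x380940008c040004004000200180b0182))) 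
(.lf (nat_lit 3422855201) (dlOf (nat_lit 2) (nat_lit 0x1d00d800174080350008033000200540008120503)))) 
(.lf (nat_lit 3221529121) (dlOf (nat_lit 4) (nat_lit 0x5a00380080a0402f001c003d702017400e00000018127f00)))) 
(.nd (nat_lit 10) (.nd (nat_lit 26) 
(.lf (nat_lit 3758399521) (dlOf (nat_lit 3) (nat_lit 0x40130000080802980c8000405a00a802600110128000002000080080070002001c0008170183))) 
(.lf (nat_lit 1678024737) (dlOf (nat_lit 1) (nat_lit 0x60028140c01)))) 
(.lf (nat_lit 1610916897) (dlOf (nat_lit 1) (nat_lit 0x400400020018092882)))))) (.nd (nat_lit 7) 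
(.nd (nat_lit 19) (.nd (nat_lit 9) (.nd (nat_lit 20) 
(.lf (nat_lit 1745133665) (dlOf (nat_lit 1) (nat_lit 0x8008003c002004000080a1983))) 
(.lf (nat_lit 62169185) (dlOf (nat_lit 6) (nat_lit 0x452d80022964001549e000ea3a0005514006ec828001296c00194b2000aa4f000751d000328a0037621400294b60014a5900085278001a8e8001d45001bb00a0008a5b000452c8004293c000d474000ea2800dd785000652d806d0008023800800ec00200100009960783)))) 
(.lf (nat_lit 52733537) (dlOf (nat_lit 2) (nat_lit 0x225680011c080068008000c00200020009573903)))) 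
(.nd (nat_lit 8) (.nd (nat_lit 9) 
(.lf (nat_lit 39624801) (dlOf (nat_lit 1) (nat_lit 0x1800191a1981))) 
(.lf (nat_lit 61646433) (dlOf (nat_lit 1) (nat_lit 0x20009923901)))) 
(.lf (nat_lit 8171873) (dlOf (nat_lit 1) (nat_lit 0x80028518381))))) (.nd (nat_lit 8) 
(.nd (nat_lit 9) (.lf (nat_lit 28614881) (dlOf (nat_lit 1) (nat_lit 0x20008da0581))) 
(.nd (nat_lit 19) (.lf (nat_lit 20232929) (dlOf (nat_lit 1) (nat_lit 0x8002000200089db982))) 
(.lf (nat_lit 19708641) (dlOf (nat_lit 1) (nat_lit 0x4002000200089db982))))) (.nd (nat_lit 9) 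
(.nd (nat_lit 26) (.lf (nat_lit 3221529057) (dlOf (nat_lit 1) (nat_lit 0x20018127281))) 
(.lf (nat_lit 3959726561) (dlOf (nat_lit 1) (nat_lit 0x100080080002001a0008127d03)))) 
(.nd (nat_lit 19) (.lf (nat_lit 2885985249) (dlOf (nat_lit 1) (nat_lit 0x300028142881))) 
(.lf (nat_lit 2752291809) (dlOf (nat_lit 1) (nat_lit 0x218008006000200380008002883)))))))) 
(.nd (nat_lit 26) (.nd (nat_lit 19) (.nd (nat_lit 30) (.nd (nat_lit 27) (.nd (nat_lit 29) 
(.lf (nat_lit 2416222241) (dlOf (nat_lit 2) (nat_lit 0x2001d00e350180a0900))) 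
(.lf (nat_lit 805609505) (dlOf (nat_lit 1) (nat_lit 0x60028140c01)))) 
(.lf (nat_lit 2550439969) (dlOf (nat_lit 2) (nat_lit 0x2001c00c8e8180a0900)))) (.nd (nat_lit 6) 
(.lf (nat_lit 1342480417) (dlOf (nat_lit 1) (nat_lit 0x400400020008040482))) (.nd (nat_lit 7) 
(.lf (nat_lit 1345627489) (dlOf (nat_lit 1) (nat_lit 0x8008000400200020008dd3403))) 
(.lf (nat_lit 3624185057) (dlOf (nat_lit 1) (nat_lit 0x20008146501)))))) (.nd (nat_lit 20) 
(.nd (nat_lit 6) (.lf (nat_lit 1343004705) (dlOf (nat_lit 2) (nat_lit 0x5222d001f9818130880))) 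
(.lf (nat_lit 3490491745) (dlOf (nat_lit 1) (nat_lit 0x8008000c00200020008006a83)))) 
(.nd (nat_lit 21) 
(.lf (nat_lit 5773238305) (dlOf (nat_lit 2) (nat_lit 0xe08e000118080018008009c002000200080b0183))) 
(.lf (nat_lit 1346150433) (dlOf (nat_lit 6) (nat_lit 0x3ba143019c09d80f404e4076419a01400cc00ca065803901f4085c0ea01b60740214039801201c805dc03e004201a0058000000038700cb050c05ac27602be0cd01d103a80e781cc021403e0000c0c017a143008409d806b04e402fc19a00620cb002d03e801a01f004880ea0242073007f00f80080068000142c03e40ea0000602036a14301a609d80c9033407b40ea03d607300ee00f800000303308008121c00206b60008e60183)))))) 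
(.nd (nat_lit 30) (.nd (nat_lit 19) (.nd (nat_lit 10) (.nd (nat_lit 22) (.nd (nat_lit 27) 
(.lf (nat_lit 5167685665) (dlOf (nat_lit 2) (nat_lit 0x110098000e00800100080010002000a0008100183))) 
(.lf (nat_lit 470065185) (dlOf (nat_lit 1) (nat_lit 0x400400020008040482)))) 
(.lf (nat_lit 474259489) (dlOf (nat_lit 1) (nat_lit 0x1b800805a8002001800090f0783)))) 
(.lf (nat_lit 473211937) (dlOf (nat_lit 2) (nat_lit 0x3058000bfa04000400200020008dd2882)))) 
(.nd (nat_lit 6) (.lf (nat_lit 470589473) (dlOf (nat_lit 2) (nat_lit 0x5222d004c6818130880))) 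
(.lf (nat_lit 471638113) (dlOf (nat_lit 3) (nat_lit 0x30b080028274002660800142c2000e09d00040470003a0180040008002400200040008370483))))) 
(.nd (nat_lit 29) (.nd (nat_lit 8) (.nd (nat_lit 19) 
(.lf (nat_lit 3691290657) (dlOf (nat_lit 1) (nat_lit 0x7400200480008110602))) 
(.lf (nat_lit 3557597217) (dlOf (nat_lit 2) (nat_lit 0x1b80180011404002800200020008270602)))) 
(.nd (nat_lit 27) (.lf (nat_lit 1409589537) (dlOf (nat_lit 2) (nat_lit 0x2a05f00515818047800))) 
(.lf (nat_lit 1543807265) (dlOf (nat_lit 8) (nat_lit 0x480080032002803780000154c0c00a40580050026006f00c000f002000b000a004a002004c000002978380008098014ba04010805800840260002011803280740114030008e010004400400248014011c00400580000052e0a00a500e80328060018001000de0050052384000d0028028f80800300740000004002000400060018187802))))) 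
(.nd (nat_lit 32) (.nd (nat_lit 8) 
(.lf (nat_lit 2080677921) (dlOf (nat_lit 2) (nat_lit 0x380940008c040004004000200180b0182))) 
(.lf (nat_lit 4228161825) (dlOf (nat_lit 1) (nat_lit 0x20028047801)))) (.nd (nat_lit 6) 
(.lf (nat_lit 6377218081) (dlOf (nat_lit 2) (nat_lit 0xe086800118080018008009c002000200080b0183))) 
(.lf (nat_lit 6375646817) (dlOf (nat_lit 1) (nat_lit 0x28008000400200060008003903)))))))))))) 
(.nd (nat_lit 15) (.nd (nat_lit 13) (.nd (nat_lit 19) (.nd (nat_lit 27) (.nd (nat_lit 7) 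
(.nd (nat_lit 21) (.nd (nat_lit 28) (.nd (nat_lit 22) (.nd (nat_lit 18) 
(.lf (nat_lit 26279969) (dlOf (nat_lit 3) (nat_lit 0x6a968000360400154b4000000200100008c30181))) 
(.nd (nat_lit 26) (.lf (nat_lit 3758424097) (dlOf (nat_lit 2) (nat_lit 0x802a005e7818190700))) 
(.lf (nat_lit 3288662049) (dlOf (nat_lit 16) (nat_lit 0x4e80d80360068017003200d8018007380ac02800520191d0c0064036006b01a002e00c0017805600c2029000801200040088032381c00100680012030000101480646c1800c00d801cc068009e030005a015803300a40323414011806c000202b00c7a02002101b002b00ac031e608007006c018f202001e03600c7881000901b000580c00311a08006806c018860200fa036007301a804f00d002a4064014c03000ab01480368088031041c008c06c0188102001c03600c3f81000201b005e340800980d802eec040040004011400080a0902))))) 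
(.nd (nat_lit 6) (.lf (nat_lit 46465313) (dlOf (nat_lit 1) (nat_lit 0x18008000c00200020009380a83))) 
(.nd (nat_lit 9) (.lf (nat_lit 12648545) (dlOf (nat_lit 1) (nat_lit 0x4002000200086d1282))) 
(.lf (nat_lit 54856289) (dlOf (nat_lit 2) (nat_lit 0x845d000d20000010410027000800b400200060009655383)))))) 
(.nd (nat_lit 10) (.nd (nat_lit 26) 
(.lf (nat_lit 4026859553) (dlOf (nat_lit 16) (nat_lit 0x4e80d80360068017003200d8018007380ac028005201c6a0c0064036006b01a002e00c0017805600c2029000801200040088038d21c0010068001203000010148071a01800c00d801cc068009e030005a015803300a4038ce14011806c000202b00e2c02002101b002b00ac038ae08007006c01c5602001e03600e2a81000901b000580c0037f208006806c01bf00200fa036007301a804f00d002a4064014c03000ab01480368088037d81c008c06c01beb02001c03600df481000201b006bc00800980d8035b8040040004011400080a0902))) 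
(.nd (nat_lit 29) (.lf (nat_lit 2483355681) (dlOf (nat_lit 1) (nat_lit 0xa000080d0881))) 
(.lf (nat_lit 872742945) (dlOf (nat_lit 11) (nat_lit 0x6c072009e034004d0130001381800f00e4014806800a00260002683001f01c802900d0014404c00043060044039005401a002a0098000840c00e807200b003400600130000f81801b00e4015c06800c60260001e03003501c802b00d0000760800d406800038020072039005801a003000980006e0c017c0680003302007400280b0181))))) 
(.nd (nat_lit 8) (.lf (nat_lit 1880163361) (dlOf (nat_lit 1) (nat_lit 0x1000287a2881))) 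
(.lf (nat_lit 872482081) (dlOf (nat_lit 1) (nat_lit 0x400400020008093102)))))) (.nd (nat_lit 20) 
(.nd (nat_lit 23) (.nd (nat_lit 24) 
(.lf (nat_lit 1881210913) (dlOf (nat_lit 2) (nat_lit 0x1509d800183ac003c1d2000607d001e03c000038280010008000c00200040008e60183))) 
(.lf (nat_lit 52494369) (dlOf (nat_lit 1) (nat_lit 0x400400020009540682)))) (.nd (nat_lit 22) 
(.lf (nat_lit 27328545) (dlOf (nat_lit 1) (nat_lit 0x400400020018cd0682))) 
(.lf (nat_lit 14745633) (dlOf (nat_lit 6) (nat_lit 0x4378d40243bec00fab8a0086513000700000000b0a01cfc6a00fadf600675c5003aa898000c000000050500cbb8a006c5130000120801738d40119714000038200e2e350072efb001077d601a5714004eb89005dd1300000018000c00400180018770182))))) 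
(.nd (nat_lit 8) (.nd (nat_lit 9) (.nd (nat_lit 10) 
(.lf (nat_lit 1345388577) (dlOf (nat_lit 3) (nat_lit 0x1615e001706b000b026c0001c0c00041360000a0200080018b90181))) 
(.lf (nat_lit 61932577) (dlOf (nat_lit 1) (nat_lit 0x18008001000200080009922883)))) 
(.lf (nat_lit 19992097) (dlOf (nat_lit 1) (nat_lit 0x400289d7181)))) (.nd (nat_lit 6) 
(.lf (nat_lit 11600161) (dlOf (nat_lit 1) (nat_lit 0x3000286c0501))) 
(.lf (nat_lit 19988833) (dlOf (nat_lit 1) (nat_lit 0x80080004002000200089d0e83))))))) 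
(.nd (nat_lit 6) (.nd (nat_lit 18) (.nd (nat_lit 8) (.nd (nat_lit 26) 
(.lf (nat_lit 805372065) (dlOf (nat_lit 1) (nat_lit 0x20028090201))) 
(.lf (nat_lit 1677787297) (dlOf (nat_lit 1) (nat_lit 0x20028090201)))) (.nd (nat_lit 12) 
(.lf (nat_lit 3489728929) (dlOf (nat_lit 1) (nat_lit 0x38008000400200060008004e83))) 
(.lf (nat_lit 19995041) (dlOf (nat_lit 1) (nat_lit 0x400189daf81))))) (.nd (nat_lit 26) 
(.lf (nat_lit 5637472417) (dlOf (nat_lit 1) (nat_lit 0x100080004002000200080f1383))) 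
(.nd (nat_lit 29) (.lf (nat_lit 335872161) (dlOf (nat_lit 1) (nat_lit 0xc00180c1401))) 
(.lf (nat_lit 6241452193) (dlOf (nat_lit 1) (nat_lit 0xc004000200180f1402)))))) (.nd (nat_lit 12) 
(.nd (nat_lit 8) (.nd (nat_lit 10) 
(.lf (nat_lit 18940129) (dlOf (nat_lit 1) (nat_lit 0x8008000400200020008970583))) 
(.lf (nat_lit 872482017) (dlOf (nat_lit 1) (nat_lit 0x20018092e01)))) (.nd (nat_lit 20) 
(.lf (nat_lit 37815265) (dlOf (nat_lit 1) (nat_lit 0x8002000200090d2882))) 
(.lf (nat_lit 55641057) (dlOf (nat_lit 1) (nat_lit 0x1400196d2881))))) (.nd (nat_lit 11) 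
(.nd (nat_lit 9) (.lf (nat_lit 19993825) (dlOf (nat_lit 1) (nat_lit 0x480080008002000200089d9503))) 
(.lf (nat_lit 8458977) (dlOf (nat_lit 1) (nat_lit 0x400200020008518c82)))) (.nd (nat_lit 18) 
(.nd (nat_lit 20) (.lf (nat_lit 67181281) (dlOf (nat_lit 1) (nat_lit 0x100020002000800b982))) 
(.lf (nat_lit 19995361) (dlOf (nat_lit 1) (nat_lit 0x80080004002000200089db983)))) 
(.lf (nat_lit 20257505) (dlOf (nat_lit 1) (nat_lit 0x880080004002001000089db983)))))))) 
(.nd (nat_lit 6) (.nd (nat_lit 28) (.nd (nat_lit 9) (.nd (nat_lit 30) (.nd (nat_lit 10) 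
(.lf (nat_lit 2349137953) (dlOf (nat_lit 1) (nat_lit 0xa000080d0881))) 
(.lf (nat_lit 2818638881) (dlOf (nat_lit 1) (nat_lit 0x20008082881)))) (.nd (nat_lit 31) 
(.lf (nat_lit 1745158177) (dlOf (nat_lit 11) (nat_lit 0x6c072009e034004d0130001381800f00e4014806800a00260002683001f01c802900d0014404c00043060044039005401a002a0098000840c00e807200b003400600130000f81801b00e4015c06800c60260001e03003501c802b00d0000760800d406800038020072039005801a003000980006e0c017c0680003302007400280b0181))) 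
(.lf (nat_lit 3892641825) (dlOf (nat_lit 3) (nat_lit 0x14064000102900048050000160c00140c8001002e000600100000018002000800c400200180008180183))))) 
(.nd (nat_lit 7) (.nd (nat_lit 10) 
(.lf (nat_lit 3355509281) (dlOf (nat_lit 1) (nat_lit 0x8004000200180a1482))) 
(.lf (nat_lit 4496360993) (dlOf (nat_lit 1) (nat_lit 0xc00200060008053702)))) 
(.lf (nat_lit 3355513761) (dlOf (nat_lit 1) (nat_lit 0x8e00280a9101))))) (.nd (nat_lit 10) 
(.nd (nat_lit 7) (.nd (nat_lit 26) 
(.lf (nat_lit 4161077281) (dlOf (nat_lit 1) (nat_lit 0x28008000400200080008120503))) 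
(.lf (nat_lit 3154444321) (dlOf (nat_lit 2) (nat_lit 0xc05a000058181a0180)))) 
(.lf (nat_lit 402981025) (dlOf (nat_lit 1) (nat_lit 0x1a00180c1381)))) (.nd (nat_lit 8) 
(.nd (nat_lit 7) (.lf (nat_lit 6308300321) (dlOf (nat_lit 1) (nat_lit 0x18002001a0008053702))) 
(.lf (nat_lit 2080441505) (dlOf (nat_lit 1) (nat_lit 0x20018092b81)))) (.nd (nat_lit 32) 
(.lf (nat_lit 402720033) (dlOf (nat_lit 1) (nat_lit 0x400400020008093102))) 
(.lf (nat_lit 4697687329) (dlOf (nat_lit 1) (nat_lit 0x8008000400200020008093103))))))) 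
(.nd (nat_lit 7) (.nd (nat_lit 10) (.nd (nat_lit 8) (.nd (nat_lit 11) 
(.lf (nat_lit 738525281) (dlOf (nat_lit 1) (nat_lit 0x7800080a1981))) 
(.lf (nat_lit 3623950433) (dlOf (nat_lit 1) (nat_lit 0x18002000e000800a802)))) (.nd (nat_lit 11) 
(.lf (nat_lit 1744896353) (dlOf (nat_lit 1) (nat_lit 0x20028090e81))) 
(.lf (nat_lit 469834081) (dlOf (nat_lit 1) (nat_lit 0x800800200020004000800ab83))))) 
(.nd (nat_lit 9) (.nd (nat_lit 8) 
(.lf (nat_lit 469834849) (dlOf (nat_lit 2) (nat_lit 0x1007e0001e81800c000))) 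
(.lf (nat_lit 134290785) (dlOf (nat_lit 2) (nat_lit 0x601d80134c0800780080088002000c000800c903)))) 
(.nd (nat_lit 11) (.nd (nat_lit 18) 
(.lf (nat_lit 6375409249) (dlOf (nat_lit 1) (nat_lit 0x38008001800200020008003903))) 
(.lf (nat_lit 6375671393) (dlOf (nat_lit 1) (nat_lit 0x800200060008003902)))) 
(.lf (nat_lit 2885750369) (dlOf (nat_lit 2) (nat_lit 0x400000000004004400200140008007182)))))) 
(.nd (nat_lit 8) (.nd (nat_lit 9) (.nd (nat_lit 11) 
(.lf (nat_lit 1744896225) (dlOf (nat_lit 1) (nat_lit 0x400400020018090a82))) 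
(.lf (nat_lit 671156449) (dlOf (nat_lit 1) (nat_lit 0x8008000400200020008144a83)))) 
(.lf (nat_lit 671155937) (dlOf (nat_lit 1) (nat_lit 0x8d0008032800201660008143a83)))) 
(.nd (nat_lit 9) (.nd (nat_lit 26) 
(.lf (nat_lit 4429251041) (dlOf (nat_lit 1) (nat_lit 0x400400020008017d02))) 
(.lf (nat_lit 1006698977) (dlOf (nat_lit 1) (nat_lit 0x400400020008017d02)))) (.nd (nat_lit 10) 
(.lf (nat_lit 2886009825) (dlOf (nat_lit 1) (nat_lit 0x10002000a0008142882))) 
(.lf (nat_lit 201398241) (dlOf (nat_lit 5) (nat_lit 0x102080286408000810000abe040074084000a03e000501e800280c4000c0580050011002a906006b021800f240801200080040002008e000800a603))))))))) 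
(.nd (nat_lit 21) (.nd (nat_lit 26) (.nd (nat_lit 23) (.nd (nat_lit 30) (.nd (nat_lit 7) 
(.nd (nat_lit 22) 
(.lf (nat_lit 134807585) (dlOf (nat_lit 2) (nat_lit 0x40030024000000000080474002002e00080c0b02))) 
(.nd (nat_lit 24) 
(.lf (nat_lit 4784161) (dlOf (nat_lit 2) (nat_lit 0x74cf2001e66200012c80000938c000001000bc004000a00182b0182))) 
(.lf (nat_lit 21561377) (dlOf (nat_lit 1) (nat_lit 0x8008001400200040008a40183))))) 
(.nd (nat_lit 6) (.lf (nat_lit 537460897) (dlOf (nat_lit 1) (nat_lit 0x1840008090201))) 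
(.lf (nat_lit 34407393) (dlOf (nat_lit 1) (nat_lit 0x60008fb2881))))) (.nd (nat_lit 28) 
(.nd (nat_lit 27) (.lf (nat_lit 3221815329) (dlOf (nat_lit 1) (nat_lit 0x400200020008190a02))) 
(.lf (nat_lit 3892903969) (dlOf (nat_lit 2) (nat_lit 0x80120000000801480080020002000e0008290c83)))) 
(.nd (nat_lit 6) (.lf (nat_lit 3494445089) (dlOf (nat_lit 1) (nat_lit 0x20018220881))) 
(.lf (nat_lit 1342767329) (dlOf (nat_lit 1) (nat_lit 0x80080004002000200080c0483)))))) 
(.nd (nat_lit 18) (.nd (nat_lit 6) (.nd (nat_lit 20) 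
(.lf (nat_lit 42532897) (dlOf (nat_lit 2) (nat_lit 0x7e7dc0001c04000c00200020009260182))) 
(.lf (nat_lit 26804257) (dlOf (nat_lit 12) (nat_lit 0x106fe001e363803d1aa400bd5060004dfc00126fd808236380019b1a0090d6e00f86a90022b544012da9e0022d40001b69f800934f400519b4002acc9004e664002f5070008b7f00425b1c01f0d5200506a88023b53c0091a800026cda000f664802733200179e240019b1c0142d52005e70200e86c70002363403a5aa40096d5100466a7800335000039a7e0002cd9000266480243320017902800d9aa400bbe020060dfc011b6c7008e354800919b4009ccc9005de8500c16a9000233240176e080011bf800d0d8e00ec6a90006b3240175a10008dbf800e4d8e013b6a9002fb3240168a10001990c00b0d0200d40028c70701)))) 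
(.lf (nat_lit 25756001) (dlOf (nat_lit 2) (nat_lit 0x1385400096040018002000a0008c10902)))) 
(.nd (nat_lit 20) (.nd (nat_lit 24) 
(.lf (nat_lit 42795041) (dlOf (nat_lit 4) (nat_lit 0xfdd5c0009dbe003cba8c0201d4400ece96007e70d0039383801f9a1000b8cea00716748031b380017d96c0000e180012ea30004751000ab3a800759d20022cb600005050040674800000080320008005c00200040009280183))) 
(.lf (nat_lit 59572257) (dlOf (nat_lit 3) (nat_lit 0x214048000d808001a02800000040068004001a0009810682)))) 
(.lf (nat_lit 27066401) (dlOf (nat_lit 3) (nat_lit 0x1b7340000501000cb9a0000140800100080004002000c0008ca0603)))))) 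
(.nd (nat_lit 28) (.nd (nat_lit 22) (.nd (nat_lit 29) 
(.lf (nat_lit 201916449) (dlOf (nat_lit 2) (nat_lit 0x40030024000000000080474002002e00080c0b02))) 
(.lf (nat_lit 3960012833) (dlOf (nat_lit 1) (nat_lit 0x400200020008190a02)))) 
(.lf (nat_lit 2756247585) (dlOf (nat_lit 1) (nat_lit 0x20018220881)))) (.nd (nat_lit 31) 
(.nd (nat_lit 20) (.lf (nat_lit 474546209) (dlOf (nat_lit 1) (nat_lit 0x38004001600091a0182))) 
(.lf (nat_lit 471400481) (dlOf (nat_lit 1) (nat_lit 0x600282f0c81)))) (.nd (nat_lit 27) 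
(.lf (nat_lit 3557359649) (dlOf (nat_lit 9) (nat_lit 0x2a4061014b030000394100680184032c0c0000e20400f8061002603000002c1003a018401b00c00000a0400c4061005a030000024100348184018c0c00000504019606100cd030000010100010184000000400fc004001c00081c0602))) 
(.lf (nat_lit 3154706465) (dlOf (nat_lit 1) (nat_lit 0x20018310001))))))) (.nd (nat_lit 18) 
(.nd (nat_lit 8) (.nd (nat_lit 6) (.nd (nat_lit 7) (.nd (nat_lit 11) 
(.lf (nat_lit 24707105) (dlOf (nat_lit 5) (nat_lit 0x105e7800cac340002a08001179e0001302001abcf000028100025868000000803180080088002000e0008bb0803))) 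
(.lf (nat_lit 7936033) (dlOf (nat_lit 1) (nat_lit 0x180040002001851a602)))) 
(.lf (nat_lit 61408417) (dlOf (nat_lit 1) (nat_lit 0x20029922b81)))) (.nd (nat_lit 7) 
(.lf (nat_lit 54067297) (dlOf (nat_lit 1) (nat_lit 0x100019601981))) 
(.lf (nat_lit 7935201) (dlOf (nat_lit 1) (nat_lit 0x60028519501))))) (.nd (nat_lit 9) 
(.nd (nat_lit 7) (.lf (nat_lit 7935265) (dlOf (nat_lit 1) (nat_lit 0x18008000400200020008519783))) 
(.lf (nat_lit 37292449) (dlOf (nat_lit 1) (nat_lit 0x4002004000090d4e82)))) (.nd (nat_lit 6) 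
(.lf (nat_lit 7930657) (dlOf (nat_lit 1) (nat_lit 0x2c0028512181))) 
(.lf (nat_lit 7935841) (dlOf (nat_lit 1) (nat_lit 0x40020002000851a302)))))) (.nd (nat_lit 7) 
(.nd (nat_lit 20) (.nd (nat_lit 10) 
(.lf (nat_lit 28114977) (dlOf (nat_lit 2) (nat_lit 0x452d800228080008008000c00200020008d50603))) 
(.lf (nat_lit 36504609) (dlOf (nat_lit 1) (nat_lit 0x20019072881)))) (.nd (nat_lit 22) 
(.nd (nat_lit 23) 
(.lf (nat_lit 1346175009) (dlOf (nat_lit 2) (nat_lit 0x2105580108286008413b004709c80210334010812c0084085004203a802101cc0001c24000c00200080008e60182))) 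
(.lf (nat_lit 45940769) (dlOf (nat_lit 2) (nat_lit 0xccfa000720200060029370681)))) 
(.lf (nat_lit 24969249) (dlOf (nat_lit 1) (nat_lit 0x40018bd0b01))))) (.nd (nat_lit 6) 
(.nd (nat_lit 10) (.lf (nat_lit 49088929) (dlOf (nat_lit 1) (nat_lit 0x12400200020009464e82))) 
(.lf (nat_lit 8193441) (dlOf (nat_lit 1) (nat_lit 0x400200020008513602)))) (.nd (nat_lit 11) 
(.lf (nat_lit 8193249) (dlOf (nat_lit 1) (nat_lit 0x8008000400200020008512e03))) 
(.lf (nat_lit 20778209) (dlOf (nat_lit 1) (nat_lit 0x4004000200089d6502))))))))) (.nd (nat_lit 18) 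
(.nd (nat_lit 19) (.nd (nat_lit 6) (.nd (nat_lit 7) (.nd (nat_lit 20) (.nd (nat_lit 9) 
(.nd (nat_lit 22) 
(.lf (nat_lit 1881219105) (dlOf (nat_lit 2) (nat_lit 0xc0e9000e03c000038100008008000800200020008e60183))) 
(.lf (nat_lit 14753825) (dlOf (nat_lit 1) (nat_lit 0x400200120008770182)))) (.nd (nat_lit 26) 
(.lf (nat_lit 6308308513) (dlOf (nat_lit 2) (nat_lit 0x3c01900040050000441000800080018002001a0008053703))) 
(.lf (nat_lit 4496369185) (dlOf (nat_lit 2) (nat_lit 0xa00e0000000800c8008000c002001c0008053703))))) 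
(.nd (nat_lit 21) (.nd (nat_lit 23) 
(.lf (nat_lit 1343299617) (dlOf (nat_lit 3) (nat_lit 0x42b4000ce020002023000648181e0600))) 
(.lf (nat_lit 9510945) (dlOf (nat_lit 1) (nat_lit 0x3c00200040008560582)))) 
(.lf (nat_lit 472981537) (dlOf (nat_lit 1) (nat_lit 0x400200020008ba0682))))) (.nd (nat_lit 8) 
(.nd (nat_lit 10) 
(.lf (nat_lit 2080448673) (dlOf (nat_lit 1) (nat_lit 0x10008001800200040008090583))) 
(.lf (nat_lit 3489737889) (dlOf (nat_lit 1) (nat_lit 0x400400040008006282)))) (.nd (nat_lit 9) 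
(.nd (nat_lit 10) (.lf (nat_lit 8466849) (dlOf (nat_lit 1) (nat_lit 0x460028518381))) 
(.lf (nat_lit 20002209) (dlOf (nat_lit 1) (nat_lit 0x200289d9901)))) 
(.lf (nat_lit 4563479457) (dlOf (nat_lit 1) (nat_lit 0x7400200280008095c82)))))) (.nd (nat_lit 28) 
(.nd (nat_lit 12) (.nd (nat_lit 7) 
(.lf (nat_lit 12656737) (dlOf (nat_lit 1) (nat_lit 0xb80080048002001400086d1283))) (.nd (nat_lit 8) 
(.lf (nat_lit 1744904417) (dlOf (nat_lit 1) (nat_lit 0x8008000400200020008090a83))) 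
(.lf (nat_lit 4295041505) (dlOf (nat_lit 1) (nat_lit 0xb20028017281))))) (.nd (nat_lit 9) 
(.lf (nat_lit 20002017) (dlOf (nat_lit 1) (nat_lit 0x1c002000200089d9502))) (.nd (nat_lit 11) 
(.lf (nat_lit 8467169) (dlOf (nat_lit 1) (nat_lit 0x400200020008518c82))) 
(.lf (nat_lit 20003553) (dlOf (nat_lit 1) (nat_lit 0x1080080004002001a00089db983)))))) 
(.nd (nat_lit 8) (.nd (nat_lit 7) (.nd (nat_lit 10) 
(.lf (nat_lit 4563476577) (dlOf (nat_lit 2) (nat_lit 0x10000003f4040074002003a0008090082))) 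
(.lf (nat_lit 469843041) (dlOf (nat_lit 13) (nat_lit 0x10590000cc0400600fc0005a02003414e000103f0001601000a853800040fc00057040028161001a0a7001481f80009c0c002c2c2003e14e002d03f0001341800181f80009804000c0fc00046020026161001a0a7001301f80008a0c00542c8000a14e000503f0000fc180090584006429c005807e0001e83001503f00000008006000800040020012000800c003)))) 
(.lf (nat_lit 4563476705) (dlOf (nat_lit 1) (nat_lit 0x128008009c002007e0008090a83)))) 
(.nd (nat_lit 7) (.nd (nat_lit 9) 
(.lf (nat_lit 1543580001) (dlOf (nat_lit 1) (nat_lit 0xc0028144e81))) 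
(.lf (nat_lit 4563479393) (dlOf (nat_lit 1) (nat_lit 0x14002002a0008095c02)))) 
(.lf (nat_lit 4697694689) (dlOf (nat_lit 2) (nat_lit 0x6009000000080070008005800200480008091283))))))) 
(.nd (nat_lit 21) (.nd (nat_lit 27) (.nd (nat_lit 22) (.nd (nat_lit 23) (.nd (nat_lit 29) 
(.lf (nat_lit 3221823521) (dlOf (nat_lit 1) (nat_lit 0x50002004a0008190a02))) 
(.lf (nat_lit 1611210785) (dlOf (nat_lit 15) (nat_lit 0x19814c030806a0060021000b00e80538060004921400f80a6001404f000d024000380e8033006a000c03000320108002007c003403a0146018001238a006e01e801d0000004860800e40000022a02006800000114010001029801000d4003e008002c0a0016004500b1022000b80c80024040007601c000200d8055805c023402c0008006000e38a00a4022004300580038c0800080c000160570009028800c8140030008a01800440025019000c00c40034040007e01c000300d8055805c023802c000c006001e0010007147800200c8003820400100a20030032000de8200490208006cc080310104002e2040038012000940200ac0018110481)))) 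
(.lf (nat_lit 42541089) (dlOf (nat_lit 2) (nat_lit 0x10e7dc0085170005a87e00193f48000382000380080020002000e0009260183)))) 
(.nd (nat_lit 24) (.nd (nat_lit 26) 
(.lf (nat_lit 3494453281) (dlOf (nat_lit 1) (nat_lit 0x940028230481))) 
(.lf (nat_lit 2756255777) (dlOf (nat_lit 1) (nat_lit 0x940028230481)))) 
(.lf (nat_lit 21569569) (dlOf (nat_lit 2) (nat_lit 0x24c100023018a40180))))) (.nd (nat_lit 29) 
(.nd (nat_lit 22) (.nd (nat_lit 26) 
(.lf (nat_lit 134815777) (dlOf (nat_lit 1) (nat_lit 0x64002002a00080c0b02))) 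
(.lf (nat_lit 201924641) (dlOf (nat_lit 1) (nat_lit 0x64002002a00080c0b02)))) 
(.lf (nat_lit 474554401) (dlOf (nat_lit 2) (nat_lit 0x14e15600a10a1802504ec027019a0092085004803a8000f83000e0008000c002002000091a0183)))) 
(.nd (nat_lit 26) 
(.lf (nat_lit 3892912161) (dlOf (nat_lit 1) (nat_lit 0xf8008015c002003e0008290c83))) 
(.nd (nat_lit 30) 
(.lf (nat_lit 738795553) (dlOf (nat_lit 15) (nat_lit 0x19814c030806a0060021000b00e80538060004921400f80a6001404f000d024000380e8033006a000c03000320108002007c003403a0146018001238a006e01e801d0000004860800e40000022a02006800000114010001029801000d4003e008002c0a0016004500b1022000b80c80024040007601c000200d8055805c023402c0008006000e38a00a4022004300580038c0800080c000160570009028800c8140030008a01800440025019000c00c40034040007e01c000300d8055805c023802c000c006001e0010007147800200c8003820400100a20030032000de82004902080068c080310104002e6040038012000940200ac0018110481))) 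
(.lf (nat_lit 3960021025) (dlOf (nat_lit 1) (nat_lit 0x50002004a0008190a02))))))) (.nd (nat_lit 6) 
(.nd (nat_lit 10) (.nd (nat_lit 20) 
(.lf (nat_lit 11083809) (dlOf (nat_lit 2) (nat_lit 0x1b3ac0003c018660500))) (.nd (nat_lit 26) 
(.lf (nat_lit 3493404705) (dlOf (nat_lit 1) (nat_lit 0x19400200720008130482))) 
(.lf (nat_lit 2755207201) (dlOf (nat_lit 1) (nat_lit 0x19400200720008130482))))) (.nd (nat_lit 7) 
(.lf (nat_lit 20524577) (dlOf (nat_lit 1) (nat_lit 0x4004000200189d7182))) 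
(.lf (nat_lit 20524193) (dlOf (nat_lit 1) (nat_lit 0x400289d6281))))) (.nd (nat_lit 7) 
(.nd (nat_lit 8) 
(.lf (nat_lit 20524641) (dlOf (nat_lit 2) (nat_lit 0xa104001c6040004002000200089d7182))) 
(.lf (nat_lit 7944033) (dlOf (nat_lit 1) (nat_lit 0x40020002000851a302)))) (.nd (nat_lit 9) 
(.lf (nat_lit 7943393) (dlOf (nat_lit 1) (nat_lit 0xc00200020008519502))) 
(.lf (nat_lit 20527841) (dlOf (nat_lit 1) (nat_lit 0x600289db981)))))))) (.nd (nat_lit 20) 
(.nd (nat_lit 27) (.nd (nat_lit 22) (.nd (nat_lit 19) (.nd (nat_lit 26) (.nd (nat_lit 21) 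
(.nd (nat_lit 29) (.nd (nat_lit 32) 
(.lf (nat_lit 268771361) (dlOf (nat_lit 2) (nat_lit 0xf016000e00a80074052006a01f0001b048140b00))) 
(.lf (nat_lit 4563738657) (dlOf (nat_lit 2) (nat_lit 0xe01980004808059800803d0002000800080d0183)))) 
(.lf (nat_lit 1879384097) (dlOf (nat_lit 1) (nat_lit 0x80018110b01)))) 
(.lf (nat_lit 27598881) (dlOf (nat_lit 1) (nat_lit 0x40018d00681)))) (.nd (nat_lit 6) 
(.lf (nat_lit 67444769) (dlOf (nat_lit 1) (nat_lit 0x2a0008140601))) 
(.lf (nat_lit 3557106017) (dlOf (nat_lit 2) (nat_lit 0x100c6000000200080008130901))))) 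
(.nd (nat_lit 23) (.nd (nat_lit 6) 
(.lf (nat_lit 2957345) (dlOf (nat_lit 1) (nat_lit 0x1000281e0681))) 
(.lf (nat_lit 17637601) (dlOf (nat_lit 1) (nat_lit 0x4004000200088e0582)))) (.nd (nat_lit 24) 
(.lf (nat_lit 42803233) (dlOf (nat_lit 2) (nat_lit 0x2c98c00007019280180))) 
(.lf (nat_lit 59580449) (dlOf (nat_lit 2) (nat_lit 0x42809001d3a00000d81001100080028002000e0009810683)))))) 
(.nd (nat_lit 21) (.nd (nat_lit 31) (.nd (nat_lit 7) 
(.lf (nat_lit 13443105) (dlOf (nat_lit 1) (nat_lit 0x20008720b01))) 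
(.lf (nat_lit 21307809) (dlOf (nat_lit 1) (nat_lit 0x47800201e60008a36b82)))) (.nd (nat_lit 26) 
(.lf (nat_lit 3494191137) (dlOf (nat_lit 3) (nat_lit 0x1004c000e0000057581000501300289804001c002000200081c0902))) 
(.lf (nat_lit 2755993633) (dlOf (nat_lit 3) (nat_lit 0x1004c000e000005cd0100050130028d204001c002000200081c0902))))) 
(.nd (nat_lit 6) (.nd (nat_lit 7) 
(.lf (nat_lit 15015969) (dlOf (nat_lit 1) (nat_lit 0x9800287a0601))) 
(.lf (nat_lit 49095841) (dlOf (nat_lit 1) (nat_lit 0x400400020009462b82)))) 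
(.lf (nat_lit 23404897) (dlOf (nat_lit 1) (nat_lit 0x800200060008b80702)))))) (.nd (nat_lit 26) 
(.nd (nat_lit 30) (.nd (nat_lit 6) (.nd (nat_lit 28) 
(.lf (nat_lit 134553633) (dlOf (nat_lit 3) (nat_lit 0x20000000180800b80000000804008000200600008070682))) 
(.lf (nat_lit 4697956385) (dlOf (nat_lit 2) (nat_lit 0xe01980004808059800803d0002000800080d0183)))) 
(.lf (nat_lit 2818908385) (dlOf (nat_lit 1) (nat_lit 0x7400200080008130602)))) (.nd (nat_lit 6) 
(.nd (nat_lit 28) 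
(.lf (nat_lit 3892650017) (dlOf (nat_lit 6) (nat_lit 0x380640001702011c062009a02d004a0164025c0aa003004d009701a004a00980040036011c014004d003004d800c00700040000b1800080140000501004002a800f80d000d8028000070600d402e006400a00320008000000c009800400260008180182))) 
(.lf (nat_lit 4161085473) (dlOf (nat_lit 2) (nat_lit 0x3601b0001f818120500)))) 
(.lf (nat_lit 3892650081) (dlOf (nat_lit 1) (nat_lit 0x3c00200140008180882))))) (.nd (nat_lit 29) 
(.nd (nat_lit 6) (.nd (nat_lit 28) 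
(.lf (nat_lit 201662497) (dlOf (nat_lit 3) (nat_lit 0x20000000180800b80000000804008000200600008070682))) 
(.lf (nat_lit 2617581601) (dlOf (nat_lit 1) (nat_lit 0x8008000400200020008100503)))) 
(.lf (nat_lit 474292321) (dlOf (nat_lit 5) (nat_lit 0x422e00011128001882c001036401bb208000822e0004105800206c8037620c001c45c00062250007105800306c80376010001c45c00062250007105800386c80375e10000400400020009120782)))) 
(.nd (nat_lit 31) (.lf (nat_lit 1006968865) (dlOf (nat_lit 1) (nat_lit 0x80018110b01))) 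
(.lf (nat_lit 3154452513) (dlOf (nat_lit 3) (nat_lit 0x14064000102900048050000160c00140c8001002e000600100000018002000800c4002001800081a0183))))))) 
(.nd (nat_lit 19) (.nd (nat_lit 7) (.nd (nat_lit 25) (.nd (nat_lit 6) 
(.lf (nat_lit 26550305) (dlOf (nat_lit 2) (nat_lit 0xa00000005818c50180))) 
(.lf (nat_lit 9773153) (dlOf (nat_lit 1) (nat_lit 0x240028580781)))) (.nd (nat_lit 21) 
(.lf (nat_lit 47521889) (dlOf (nat_lit 1) (nat_lit 0x20009400081))) 
(.lf (nat_lit 37036129) (dlOf (nat_lit 1) (nat_lit 0x20019081981))))) (.nd (nat_lit 6) 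
(.lf (nat_lit 53815713) (dlOf (nat_lit 1) (nat_lit 0x200295f4e81))) (.nd (nat_lit 9) 
(.lf (nat_lit 28647649) (dlOf (nat_lit 1) (nat_lit 0x10008000c00200020008da0583))) 
(.lf (nat_lit 20265697) (dlOf (nat_lit 1) (nat_lit 0x28008000c002000600089db983)))))) 
(.nd (nat_lit 8) (.nd (nat_lit 7) (.nd (nat_lit 21) 
(.lf (nat_lit 27074593) (dlOf (nat_lit 1) (nat_lit 0x40008ca0601))) 
(.lf (nat_lit 1346183201) (dlOf (nat_lit 5) (nat_lit 0xb416000a80ab002e050c0298276015213900a6066801e0270016c12c00b208d005a046000682140001c2c03d42ac01e613b00f3066800030180318558009c2760070139005206680078270000141403242ac019213b00c70668000001803e8008002800200360008e60183)))) 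
(.nd (nat_lit 26) 
(.lf (nat_lit 5773271201) (dlOf (nat_lit 1) (nat_lit 0x8008011c002003c00080c1383))) 
(.lf (nat_lit 6377250977) (dlOf (nat_lit 1) (nat_lit 0x20004000a00180c1402))))) (.nd (nat_lit 6) 
(.nd (nat_lit 23) (.lf (nat_lit 2753372577) (dlOf (nat_lit 1) (nat_lit 0x400400020008090782))) 
(.lf (nat_lit 43852193) (dlOf (nat_lit 1) (nat_lit 0x80080084002001400092a1003)))) 
(.lf (nat_lit 8206305) (dlOf (nat_lit 2) (nat_lit 0x3a8780040914015f60800100020002000851a602))))))))) 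
(.nd (nat_lit 18) (.nd (nat_lit 13) (.nd (nat_lit 28) (.nd (nat_lit 7) (.nd (nat_lit 19) 
(.nd (nat_lit 26) (.nd (nat_lit 6) (.nd (nat_lit 20) 
(.lf (nat_lit 6576767009) (dlOf (nat_lit 1) (nat_lit 0x600180d0a01))) 
(.lf (nat_lit 47284257) (dlOf (nat_lit 1) (nat_lit 0xe00093c0181)))) 
(.lf (nat_lit 6442555745) (dlOf (nat_lit 1) (nat_lit 0x600280fab81)))) (.nd (nat_lit 29) 
(.nd (nat_lit 30) 
(.lf (nat_lit 2214690849) (dlOf (nat_lit 2) (nat_lit 0x5009800148080008008000400200020008030583))) 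
(.lf (nat_lit 1140949025) (dlOf (nat_lit 1) (nat_lit 0x2400400040008020182)))) 
(.lf (nat_lit 5972787233) (dlOf (nat_lit 1) (nat_lit 0x600180d0a01))))) (.nd (nat_lit 21) 
(.nd (nat_lit 29) (.nd (nat_lit 22) 
(.lf (nat_lit 42565665) (dlOf (nat_lit 2) (nat_lit 0x2c3f200007019260180))) 
(.lf (nat_lit 4816929) (dlOf (nat_lit 2) (nat_lit 0x6c0e000b5fb8000741000200080010002000400082c0603)))) 
(.nd (nat_lit 26) 
(.lf (nat_lit 3892936737) (dlOf (nat_lit 3) (nat_lit 0x812800140660004024000900b00038050003f414000c0a8000604f000302600030128000c066000602400040110003006c001002c000a014000fc0a82a0a80))) 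
(.lf (nat_lit 1678344225) (dlOf (nat_lit 2) (nat_lit 0x2000000250181f0b00))))) (.nd (nat_lit 20) 
(.nd (nat_lit 22) (.nd (nat_lit 23) 
(.lf (nat_lit 2754183201) (dlOf (nat_lit 7) (nat_lit 0xa8564001fe0400542b2000fe0200041590007e8100150ac8003e00804487dc01982b0000e157000228300a00ac0000000803b8008019c002003200080c0b03))) 
(.lf (nat_lit 11108385) (dlOf (nat_lit 2) (nat_lit 0x3c0000003f0200040018660501)))) 
(.lf (nat_lit 48857121) (dlOf (nat_lit 2) (nat_lit 0x3a59000038080010008001000200040009440183)))) 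
(.nd (nat_lit 23) 
(.lf (nat_lit 24739873) (dlOf (nat_lit 3) (nat_lit 0x96920000a810009b490000140800300080010002000c0008bb0803))) 
(.lf (nat_lit 16351265) (dlOf (nat_lit 1) (nat_lit 0x880008890601))))))) (.nd (nat_lit 11) 
(.nd (nat_lit 6) (.nd (nat_lit 26) (.nd (nat_lit 24) 
(.lf (nat_lit 3221323937) (dlOf (nat_lit 1) (nat_lit 0x400200020008090202))) 
(.lf (nat_lit 16875681) (dlOf (nat_lit 1) (nat_lit 0x800288e0481)))) (.nd (nat_lit 27) 
(.lf (nat_lit 1677820065) (dlOf (nat_lit 1) (nat_lit 0x40028090201))) 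
(.lf (nat_lit 3959521441) (dlOf (nat_lit 1) (nat_lit 0x400200020008090202))))) (.nd (nat_lit 8) 
(.nd (nat_lit 19) (.lf (nat_lit 3355546849) (dlOf (nat_lit 1) (nat_lit 0x200180a9501))) 
(.lf (nat_lit 7967969) (dlOf (nat_lit 3) (nat_lit 0x112b08006957c009ae0800b8abe004d60200360028519501)))) 
(.lf (nat_lit 6442555361) (dlOf (nat_lit 2) (nat_lit 0x1801380050040015f6080008004000400080fa602))))) 
(.nd (nat_lit 20) (.nd (nat_lit 6) (.nd (nat_lit 10) 
(.lf (nat_lit 100513) (dlOf (nat_lit 1) (nat_lit 0x8008000400200020008004883))) 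
(.lf (nat_lit 134323361) (dlOf (nat_lit 1) (nat_lit 0x28001800c201)))) 
(.lf (nat_lit 625889) (dlOf (nat_lit 1) (nat_lit 0x20008006501)))) (.nd (nat_lit 6) 
(.nd (nat_lit 19) (.lf (nat_lit 49383841) (dlOf (nat_lit 1) (nat_lit 0x400200020009464e82))) 
(.lf (nat_lit 20548001) (dlOf (nat_lit 1) (nat_lit 0x200289d4e81)))) 
(.lf (nat_lit 20028129) (dlOf (nat_lit 1) (nat_lit 0x1600189db981))))))) (.nd (nat_lit 27) 
(.nd (nat_lit 6) (.nd (nat_lit 19) (.nd (nat_lit 7) 
(.lf (nat_lit 1342279201) (dlOf (nat_lit 2) (nat_lit 0x82470006f818007180))) (.nd (nat_lit 8) 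
(.lf (nat_lit 805404833) (dlOf (nat_lit 1) (nat_lit 0x40028090201))) 
(.lf (nat_lit 3489761697) (dlOf (nat_lit 1) (nat_lit 0x400200020008004e82))))) (.nd (nat_lit 9) 
(.nd (nat_lit 21) (.nd (nat_lit 26) 
(.lf (nat_lit 805928993) (dlOf (nat_lit 2) (nat_lit 0x2000000250181f0b00))) 
(.lf (nat_lit 3557392417) (dlOf (nat_lit 1) (nat_lit 0x2a00281e0681)))) 
(.lf (nat_lit 3492380705) (dlOf (nat_lit 7) (nat_lit 0xa8550000e40400542a800071020004154000380100150aa0001ac08044879401982a6000e152000280300a00a98000000803b8008019c002003200080c0b03)))) 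
(.lf (nat_lit 3491332641) (dlOf (nat_lit 2) (nat_lit 0x121eb000a1818090d80))))) (.nd (nat_lit 7) 
(.nd (nat_lit 8) (.nd (nat_lit 9) 
(.lf (nat_lit 1344372833) (dlOf (nat_lit 2) (nat_lit 0x2047600041d00009c028740480))) 
(.lf (nat_lit 6241224289) (dlOf (nat_lit 1) (nat_lit 0x1000400240008053902)))) 
(.lf (nat_lit 4563501409) (dlOf (nat_lit 2) (nat_lit 0xf019000078080030008003800200140008090e83)))) 
(.nd (nat_lit 9) (.lf (nat_lit 4026630625) (dlOf (nat_lit 1) (nat_lit 0x400400020008017d02))) 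
(.lf (nat_lit 1342280673) (dlOf (nat_lit 2) (nat_lit 0x82380092404007800400060008009202)))))) 
(.nd (nat_lit 6) (.nd (nat_lit 10) (.nd (nat_lit 7) (.nd (nat_lit 19) 
(.lf (nat_lit 2013364257) (dlOf (nat_lit 1) (nat_lit 0x2400400040008020182))) 
(.lf (nat_lit 471433249) (dlOf (nat_lit 1) (nat_lit 0x10004000600082f0c82)))) 
(.lf (nat_lit 5771463073) (dlOf (nat_lit 1) (nat_lit 0x20018004e81)))) (.nd (nat_lit 11) 
(.nd (nat_lit 9) (.lf (nat_lit 473007137) (dlOf (nat_lit 1) (nat_lit 0x20008bb2881))) 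
(.lf (nat_lit 4697720353) (dlOf (nat_lit 1) (nat_lit 0x10008000400200080008093703)))) 
(.nd (nat_lit 7) (.lf (nat_lit 5838572833) (dlOf (nat_lit 1) (nat_lit 0xa00280f6781))) 
(.lf (nat_lit 5838576801) (dlOf (nat_lit 1) (nat_lit 0x4004000200080fc202)))))) (.nd (nat_lit 7) 
(.nd (nat_lit 8) (.lf (nat_lit 470384737) (dlOf (nat_lit 1) (nat_lit 0x4004000200080d1282))) 
(.lf (nat_lit 2617348961) (dlOf (nat_lit 1) (nat_lit 0x6c00280a8f81)))) (.nd (nat_lit 8) 
(.lf (nat_lit 1009352929) (dlOf (nat_lit 1) (nat_lit 0x20019111a81))) (.nd (nat_lit 10) 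
(.lf (nat_lit 2550235617) (dlOf (nat_lit 1) (nat_lit 0x10008000c00200080008017283))) 
(.lf (nat_lit 469865953) (dlOf (nat_lit 1) (nat_lit 0x20028009b01))))))))) (.nd (nat_lit 7) 
(.nd (nat_lit 19) (.nd (nat_lit 20) (.nd (nat_lit 8) (.nd (nat_lit 6) (.nd (nat_lit 26) 
(.lf (nat_lit 2281807905) (dlOf (nat_lit 2) (nat_lit 0x401300029018030580))) 
(.lf (nat_lit 2483134497) (dlOf (nat_lit 2) (nat_lit 0x4054000c028002c9028020480)))) 
(.lf (nat_lit 6241232481) (dlOf (nat_lit 1) (nat_lit 0x20018053901)))) (.nd (nat_lit 9) 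
(.lf (nat_lit 4095845665) (dlOf (nat_lit 1) (nat_lit 0x200280e3101))) 
(.lf (nat_lit 3087116065) (dlOf (nat_lit 1) (nat_lit 0x1a0028143d01))))) (.nd (nat_lit 22) 
(.nd (nat_lit 23) 
(.lf (nat_lit 17932321) (dlOf (nat_lit 2) (nat_lit 0x19c0800920080010008000800200020008900a83))) 
(.nd (nat_lit 24) 
(.lf (nat_lit 9543713) (dlOf (nat_lit 2) (nat_lit 0x41ed00020f48000d41000d80080050002003a0008560583))) 
(.lf (nat_lit 26320929) (dlOf (nat_lit 2) (nat_lit 0xa52d00006c080020008001400200040008c30183))))) 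
(.nd (nat_lit 6) (.nd (nat_lit 23) 
(.lf (nat_lit 22126625) (dlOf (nat_lit 1) (nat_lit 0x60018a90481))) 
(.lf (nat_lit 47292449) (dlOf (nat_lit 1) (nat_lit 0x1200193c0181)))) 
(.lf (nat_lit 47292513) (dlOf (nat_lit 1) (nat_lit 0x100080010002000800093c0783)))))) 
(.nd (nat_lit 29) (.nd (nat_lit 21) (.nd (nat_lit 22) (.nd (nat_lit 23) 
(.lf (nat_lit 3221856289) (dlOf (nat_lit 2) (nat_lit 0x6201e00014008006800800d8002002800081a0b03))) 
(.lf (nat_lit 42573857) (dlOf (nat_lit 1) (nat_lit 0x800200060009260182)))) (.nd (nat_lit 23) 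
(.lf (nat_lit 21602337) (dlOf (nat_lit 1) (nat_lit 0x800200020008a50782))) 
(.lf (nat_lit 13213729) (dlOf (nat_lit 1) (nat_lit 0x20008710b01))))) (.nd (nat_lit 20) 
(.nd (nat_lit 28) 
(.lf (nat_lit 2727969) (dlOf (nat_lit 6) (nat_lit 0x6b01000450880022820000940c00254220003d02000aa1100045040000ec10002284400154100003a04000eb01000650880032820000720c0028004000a00181a0b02))) 
(.lf (nat_lit 3492388897) (dlOf (nat_lit 1) (nat_lit 0x200280c0b01)))) 
(.lf (nat_lit 24748065) (dlOf (nat_lit 4) (nat_lit 0x18bcf00055dc00062c340002a0c000579e0002bb80000982000b5e78000140800b0008006400200100008bb0803))))) 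
(.nd (nat_lit 27) (.nd (nat_lit 21) (.nd (nat_lit 26) 
(.lf (nat_lit 805937185) (dlOf (nat_lit 9) (nat_lit 0xa000000025010009021801080f0009805a0004606000a0520001f8100170000000f40800380b40002804031c05a02f40170000982002301680004408026005c0002004010c00400d600081f0b02))) 
(.lf (nat_lit 1678352417) (dlOf (nat_lit 9) (nat_lit 0xa000000025010009021801080f0009805a0004606000a0520001f8100170000000f40800380b40002804031c05a02f40170000982002301680004408026005c0002004010c00400d600081f0b02)))) 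
(.lf (nat_lit 2754191393) (dlOf (nat_lit 1) (nat_lit 0x200280c0b01)))) (.nd (nat_lit 6) 
(.nd (nat_lit 26) 
(.lf (nat_lit 3892944929) (dlOf (nat_lit 2) (nat_lit 0xf0198007e00801b8008000c002004c00082a0a83))) 
(.lf (nat_lit 3960053793) (dlOf (nat_lit 2) (nat_lit 0x6201e00011408006800800d8002002800081a0b03)))) 
(.lf (nat_lit 1009360993) (dlOf (nat_lit 5) (nat_lit 0x502b0001014c00200a0000e04d00dd904000502b0001814c00200a0000e04d00dd884000702b0003814c00100a0000804d00dd804000702b0003814c00100a0000604d00dd7849120780))))))) 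
(.nd (nat_lit 6) (.nd (nat_lit 29) (.nd (nat_lit 11) (.nd (nat_lit 21) (.nd (nat_lit 26) 
(.lf (nat_lit 3221332129) (dlOf (nat_lit 5) (nat_lit 0x140440009d8100010220004c80800d8098001403c001160401aa026000500f00045410002800800a800200040008090203))) 
(.lf (nat_lit 6509666465) (dlOf (nat_lit 1) (nat_lit 0x400180b0201)))) (.nd (nat_lit 20) 
(.lf (nat_lit 3491864737) (dlOf (nat_lit 1) (nat_lit 0x30008000400200040008090203))) 
(.lf (nat_lit 3252385) (dlOf (nat_lit 1) (nat_lit 0x10008000c00200060008200203))))) 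
(.nd (nat_lit 8) (.lf (nat_lit 1342287521) (dlOf (nat_lit 1) (nat_lit 0x40018007201))) 
(.nd (nat_lit 20) (.lf (nat_lit 5771471265) (dlOf (nat_lit 1) (nat_lit 0x720018004e81))) 
(.lf (nat_lit 49392033) (dlOf (nat_lit 1) (nat_lit 0x20009464e81)))))) (.nd (nat_lit 26) 
(.nd (nat_lit 28) (.lf (nat_lit 5905686689) (dlOf (nat_lit 1) (nat_lit 0x400180b0201))) 
(.lf (nat_lit 805413025) (dlOf (nat_lit 1) (nat_lit 0x1c00200160008090202)))) (.nd (nat_lit 11) 
(.nd (nat_lit 27) (.lf (nat_lit 1677828257) (dlOf (nat_lit 1) (nat_lit 0x1c00200160008090202))) 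
(.lf (nat_lit 3959529633) (dlOf (nat_lit 5) (nat_lit 0x140440009701000102200048c0800d8098001403c0010a0401aa026000500f00042410002800800a800200040008090203)))) 
(.lf (nat_lit 5972797601) (dlOf (nat_lit 1) (nat_lit 0x400400020008144882)))))) (.nd (nat_lit 8) 
(.nd (nat_lit 11) (.nd (nat_lit 21) (.nd (nat_lit 26) 
(.lf (nat_lit 2952896737) (dlOf (nat_lit 1) (nat_lit 0xc00400040008010602))) 
(.lf (nat_lit 1140957409) (dlOf (nat_lit 2) (nat_lit 0x2012800030080008008001c00200020008031a83)))) 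
(.lf (nat_lit 44146913) (dlOf (nat_lit 1) (nat_lit 0x4004000200192d1a82)))) (.nd (nat_lit 9) 
(.nd (nat_lit 19) 
(.lf (nat_lit 1409395937) (dlOf (nat_lit 1) (nat_lit 0x8008000400200080008006503))) 
(.lf (nat_lit 634081) (dlOf (nat_lit 1) (nat_lit 0xe0008006501)))) 
(.lf (nat_lit 20560609) (dlOf (nat_lit 1) (nat_lit 0x4002000200089db982))))) (.nd (nat_lit 27) 
(.nd (nat_lit 9) (.lf (nat_lit 1073848801) (dlOf (nat_lit 1) (nat_lit 0x400400020008017d02))) 
(.lf (nat_lit 1342288865) (dlOf (nat_lit 1) (nat_lit 0x380028009201)))) (.nd (nat_lit 26) 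
(.lf (nat_lit 2818679777) (dlOf (nat_lit 2) (nat_lit 0x2001a0026b02000200080d2881))) 
(.lf (nat_lit 201434081) (dlOf (nat_lit 1) (nat_lit 0x60008002881))))))))) (.nd (nat_lit 13) 
(.nd (nat_lit 28) (.nd (nat_lit 6) (.nd (nat_lit 19) (.nd (nat_lit 7) (.nd (nat_lit 30) 
(.nd (nat_lit 20) (.lf (nat_lit 537231393) (dlOf (nat_lit 1) (nat_lit 0x20008060501))) 
(.lf (nat_lit 9797665) (dlOf (nat_lit 2) (nat_lit 0x6e98800473b40008a08000400200020008580182)))) 
(.nd (nat_lit 26) 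
(.lf (nat_lit 3355803681) (dlOf (nat_lit 1) (nat_lit 0x8008000400200020008120503))) 
(.lf (nat_lit 3288694817) (dlOf (nat_lit 2) (nat_lit 0xc0000000002000c00080c0b01))))) 
(.nd (nat_lit 8) (.lf (nat_lit 364193) (dlOf (nat_lit 1) (nat_lit 0x20028007201))) 
(.nd (nat_lit 11) (.lf (nat_lit 21332385) (dlOf (nat_lit 1) (nat_lit 0x800008a36b81))) 
(.lf (nat_lit 56986017) (dlOf (nat_lit 1) (nat_lit 0x1a0029794e81)))))) (.nd (nat_lit 20) 
(.nd (nat_lit 10) (.nd (nat_lit 24) 
(.lf (nat_lit 42827809) (dlOf (nat_lit 2) (nat_lit 0x25c0000000e0200500019280181))) 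
(.lf (nat_lit 59605025) (dlOf (nat_lit 1) (nat_lit 0x18004000c0009810682)))) (.nd (nat_lit 21) 
(.lf (nat_lit 38634529) (dlOf (nat_lit 1) (nat_lit 0x20009132881))) 
(.lf (nat_lit 36537377) (dlOf (nat_lit 1) (nat_lit 0x400400020019072882))))) (.nd (nat_lit 22) 
(.nd (nat_lit 24) (.lf (nat_lit 10321953) (dlOf (nat_lit 1) (nat_lit 0x24004001800085d0482))) 
(.lf (nat_lit 27099169) (dlOf (nat_lit 1) (nat_lit 0x10002000c0008ca0602)))) (.nd (nat_lit 21) 
(.lf (nat_lit 22904865) (dlOf (nat_lit 1) (nat_lit 0x20028b40501))) 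
(.lf (nat_lit 25002017) (dlOf (nat_lit 1) (nat_lit 0x400200020008bd0b02))))))) (.nd (nat_lit 7) 
(.nd (nat_lit 21) (.nd (nat_lit 26) (.nd (nat_lit 29) 
(.lf (nat_lit 6442811489) (dlOf (nat_lit 1) (nat_lit 0x200181c1281))) 
(.lf (nat_lit 1610973281) (dlOf (nat_lit 1) (nat_lit 0x800280b0781)))) 
(.lf (nat_lit 738558049) (dlOf (nat_lit 1) (nat_lit 0x800280b0781)))) (.nd (nat_lit 9) 
(.nd (nat_lit 20) (.lf (nat_lit 19234913) (dlOf (nat_lit 1) (nat_lit 0x20018970481))) 
(.lf (nat_lit 62226529) (dlOf (nat_lit 1) (nat_lit 0x400400020009981a82)))) 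
(.lf (nat_lit 54364769) (dlOf (nat_lit 1) (nat_lit 0x80080004002006c0009655383))))) 
(.nd (nat_lit 20) (.nd (nat_lit 19) (.nd (nat_lit 29) 
(.lf (nat_lit 1208320225) (dlOf (nat_lit 2) (nat_lit 0x70168000440800280080010002000a00080c1d03))) 
(.lf (nat_lit 2818932961) (dlOf (nat_lit 1) (nat_lit 0x14002000a0008130602)))) 
(.lf (nat_lit 17662177) (dlOf (nat_lit 1) (nat_lit 0x1a00188e0581)))) (.nd (nat_lit 8) 
(.nd (nat_lit 9) (.lf (nat_lit 28672225) (dlOf (nat_lit 1) (nat_lit 0x8008000400200020008da0583))) 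
(.lf (nat_lit 20290273) (dlOf (nat_lit 1) (nat_lit 0x18008000c002000600089db983)))) 
(.lf (nat_lit 8230881) (dlOf (nat_lit 1) (nat_lit 0x2002851a601))))))) (.nd (nat_lit 27) 
(.nd (nat_lit 6) (.nd (nat_lit 19) (.nd (nat_lit 22) (.nd (nat_lit 26) (.nd (nat_lit 29) 
(.nd (nat_lit 30) 
(.lf (nat_lit 4563763233) (dlOf (nat_lit 7) (nat_lit 0xc802e0000f81000f0168000580801d80b8009803c0001204004a02d0000701000c0168000300800600b8009805a000601e000900e8000002000080080178002001c00080d0183))) 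
(.lf (nat_lit 1342537761) (dlOf (nat_lit 3) (nat_lit 0x84620002902001e22600100d1800000100010008004000200020008050c03)))) 
(.lf (nat_lit 4026892321) (dlOf (nat_lit 2) (nat_lit 0xc0000000002000c00080c0b01)))) 
(.lf (nat_lit 1409646625) (dlOf (nat_lit 1) (nat_lit 0x20008060501)))) 
(.lf (nat_lit 1346732065) (dlOf (nat_lit 2) (nat_lit 0x54156002f0a1802b84ec017419a005a085005703a8000f8300050008003400200100009000183)))) 
(.lf (nat_lit 1346207777) (dlOf (nat_lit 6) (nat_lit 0x92c2ac00b21430c4709d85b684e409f819a01440cc006806580c7025801f011a0398085006104180f481d407800e60000e1a00da13b0000681024f0ab061104ec090019a03040960187042809c01d4000181805c82ac16f413b0a9d09c80d70334037812c023e0850022041809d81d404bc0e60000a1204ba1560c4409d812b8334065012c0338085013b03a800000300508008006400200320008e60183)))) 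
(.nd (nat_lit 7) (.nd (nat_lit 8) 
(.lf (nat_lit 5637505121) (dlOf (nat_lit 1) (nat_lit 0x1800400140018100782))) 
(.lf (nat_lit 1343062369) (dlOf (nat_lit 1) (nat_lit 0x400400080008150902)))) 
(.lf (nat_lit 2953150689) (dlOf (nat_lit 5) (nat_lit 0x11c0270067011804c008000d803c013201a009600b804f004c02280120134005009e00100018004023c0000004118004c027001400d000a805c0080026006200500150010002800400500000004010002a01300180028000c01000480240000004003800400540018160582))))) 
(.nd (nat_lit 7) (.nd (nat_lit 10) (.nd (nat_lit 26) (.nd (nat_lit 29) 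
(.lf (nat_lit 4697980961) (dlOf (nat_lit 7) (nat_lit 0xc802e0000f81000f0168000580801d80b8009803c0001204004a02d0000701000c0168000300800600b8009805a000601e000900e8000002000080080178002001c00080d0183))) 
(.lf (nat_lit 5234851873) (dlOf (nat_lit 2) (nat_lit 0x201c00022818100180)))) (.nd (nat_lit 29) 
(.lf (nat_lit 470122529) (dlOf (nat_lit 3) (nat_lit 0x84620002902001e22600100d9800000100010008004000200020008050c03))) 
(.lf (nat_lit 3154477089) (dlOf (nat_lit 7) (nat_lit 0x1800580001802015a02c0000b81021e0320003818807fc0c0047e05a007802c80fe015407f0068026c02f01f501400ff0050008c00c0400003000058c01f40320000818807080c0041805a01bf02a80df80d0043805e037202801c600a00e6800c000142802fc0b40276055013b01a009d00500000e1007600c8042c05a01ad02a80fb011c06ac06801c202f01ff017005680b00124050030e01401dc00180f7000800000300434004016400081a0182))))) 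
(.nd (nat_lit 8) (.lf (nat_lit 5773820961) (dlOf (nat_lit 1) (nat_lit 0x3e00180e2881))) 
(.lf (nat_lit 5772248353) (dlOf (nat_lit 1) (nat_lit 0x400400020008093102))))) (.nd (nat_lit 6) 
(.nd (nat_lit 19) 
(.lf (nat_lit 2080735393) (dlOf (nat_lit 1) (nat_lit 0x80080008002000200080c1383))) 
(.lf (nat_lit 5772247201) (dlOf (nat_lit 1) (nat_lit 0x400400020008090582)))) (.nd (nat_lit 10) 
(.nd (nat_lit 29) 
(.lf (nat_lit 3691348193) (dlOf (nat_lit 5) (nat_lit 0xce024008e011004c00800264036006c019009e00a004b004802280120134005009e00100018004023c0000004118004c022001400d801000500054024006200500150010002800400500000004010002a01400180028000c01000480240000004003800400540018160582))) 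
(.lf (nat_lit 2080735457) (dlOf (nat_lit 1) (nat_lit 0x58004000200080c1a82)))) 
(.lf (nat_lit 3624242401) (dlOf (nat_lit 2) (nat_lit 0xa80700004004007400400880018146502)))))))) 
(.nd (nat_lit 6) (.nd (nat_lit 28) (.nd (nat_lit 19) (.nd (nat_lit 31) (.nd (nat_lit 20) 
(.nd (nat_lit 25) 
(.lf (nat_lit 671457313) (dlOf (nat_lit 1) (nat_lit 0x2800800f4002006800081a0503))) 
(.lf (nat_lit 33923105) (dlOf (nat_lit 1) (nat_lit 0x400400020008f80682)))) (.nd (nat_lit 22) 
(.lf (nat_lit 9805857) (dlOf (nat_lit 2) (nat_lit 0x400000022818580180))) 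
(.lf (nat_lit 55943201) (dlOf (nat_lit 1) (nat_lit 0x10004000200096f0182))))) (.nd (nat_lit 26) 
(.nd (nat_lit 27) 
(.lf (nat_lit 6442819617) (dlOf (nat_lit 2) (nat_lit 0x7000002bac040004002000400081c0902))) 
(.lf (nat_lit 3355811873) (dlOf (nat_lit 3) (nat_lit 0x590100001900803f8080000c204000c00400180008120502)))) 
(.lf (nat_lit 3288703009) (dlOf (nat_lit 1) (nat_lit 0x600080c0b01))))) (.nd (nat_lit 20) 
(.nd (nat_lit 10) (.nd (nat_lit 23) 
(.lf (nat_lit 892961) (dlOf (nat_lit 1) (nat_lit 0x14004000c0008030982))) 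
(.lf (nat_lit 42836001) (dlOf (nat_lit 2) (nat_lit 0x1115fe0096ae0004456780222870011140c008898c00444b8800038380010008000c00200020009280183)))) 
(.lf (nat_lit 38642721) (dlOf (nat_lit 1) (nat_lit 0x20019132881)))) (.nd (nat_lit 8) 
(.nd (nat_lit 21) (.lf (nat_lit 22913057) (dlOf (nat_lit 2) (nat_lit 0x11bbc40003c018b40500))) 
(.lf (nat_lit 25010209) (dlOf (nat_lit 1) (nat_lit 0x20000800fc00200720008bd0b03)))) 
(.lf (nat_lit 8237345) (dlOf (nat_lit 1) (nat_lit 0x80028518081)))))) (.nd (nat_lit 26) 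
(.nd (nat_lit 27) (.nd (nat_lit 21) (.nd (nat_lit 29) 
(.lf (nat_lit 4563771425) (dlOf (nat_lit 3) (nat_lit 0x5901700007c0800280b40001c040014004003400180d0182))) 
(.lf (nat_lit 4026900513) (dlOf (nat_lit 1) (nat_lit 0x600080c0b01)))) 
(.lf (nat_lit 1881514017) (dlOf (nat_lit 1) (nat_lit 0x300080038002000a0008f40183)))) 
(.nd (nat_lit 29) 
(.lf (nat_lit 4697989153) (dlOf (nat_lit 3) (nat_lit 0x5901700007c0800280b40001c040014004003400180d0182))) 
(.nd (nat_lit 30) 
(.lf (nat_lit 5234860065) (dlOf (nat_lit 2) (nat_lit 0x100d000118080010008000c002000a0008100183))) 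
(.lf (nat_lit 6308601889) (dlOf (nat_lit 1) (nat_lit 0x20028140481)))))) (.nd (nat_lit 30) 
(.nd (nat_lit 7) 
(.lf (nat_lit 2617614369) (dlOf (nat_lit 18) (nat_lit 0x4c0300007202004603400a8015800200a801600400006a08025a02b000348100b901580019c0808980ac000c4040004068016e033005d018801500c0056c056004202800790100006004c002401e0006112001c03000130158000809400400260005e08010e02b00350098001741000700c800a4060003a02b00010098005003c000b614019001e0005902009e00f0002c01004f00780015c0800280d004a8066002e031000c015801e009c0038030000220c003a02b000801480006c1000200ac000340400780560001902001202b001c00000000010235800818f800207e40008100503))) 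
(.lf (nat_lit 473803169) (dlOf (nat_lit 1) (nat_lit 0x120018fa4e81)))) (.nd (nat_lit 27) 
(.lf (nat_lit 5704622113) (dlOf (nat_lit 1) (nat_lit 0x20028140481))) (.nd (nat_lit 32) 
(.lf (nat_lit 1543872545) (dlOf (nat_lit 1) (nat_lit 0x2800800f4002006800081a0503))) 
(.lf (nat_lit 5838839841) (dlOf (nat_lit 2) (nat_lit 0x7000002e68040004002000400081c0902)))))))) 
(.nd (nat_lit 7) (.nd (nat_lit 23) (.nd (nat_lit 8) (.nd (nat_lit 19) (.nd (nat_lit 21) 
(.lf (nat_lit 6442819681) (dlOf (nat_lit 1) (nat_lit 0x108002001c00081c1282))) 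
(.lf (nat_lit 3492126817) (dlOf (nat_lit 1) (nat_lit 0x3000180a1381)))) 
(.lf (nat_lit 1343070305) (dlOf (nat_lit 1) (nat_lit 0x1e0018150281)))) 
(.lf (nat_lit 3557138785) (dlOf (nat_lit 1) (nat_lit 0x40028130901)))) (.nd (nat_lit 9) 
(.nd (nat_lit 8) (.lf (nat_lit 44408929) (dlOf (nat_lit 1) (nat_lit 0x620029301a81))) 
(.lf (nat_lit 26059105) (dlOf (nat_lit 1) (nat_lit 0x6000400180008c10902)))) (.nd (nat_lit 19) 
(.lf (nat_lit 43361889) (dlOf (nat_lit 10) (nat_lit 0xed230000b80400169180005b02000b48c0002b010003a46000154080145230000a80401ae8fc0005302000360b00023810005a4600011808000d25c00030040018002000e00092a3902))) 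
(.lf (nat_lit 61711969) (dlOf (nat_lit 2) (nat_lit 0x328cc00066040318004000e0019923902)))))) 
(.nd (nat_lit 12) (.nd (nat_lit 10) (.nd (nat_lit 19) 
(.lf (nat_lit 19243233) (dlOf (nat_lit 1) (nat_lit 0xc00200020008970582))) (.nd (nat_lit 21) 
(.lf (nat_lit 5773304033) (dlOf (nat_lit 1) (nat_lit 0x400280c1a81))) 
(.lf (nat_lit 20816097) (dlOf (nat_lit 1) (nat_lit 0xe00289e4201))))) (.nd (nat_lit 19) 
(.lf (nat_lit 2349182177) (dlOf (nat_lit 2) (nat_lit 0xc0310001a8180f6500))) 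
(.lf (nat_lit 3490557153) (dlOf (nat_lit 1) (nat_lit 0x20018006501))))) (.nd (nat_lit 8) 
(.nd (nat_lit 11) (.lf (nat_lit 19772129) (dlOf (nat_lit 1) (nat_lit 0x4002000200089d8c82))) 
(.lf (nat_lit 20298465) (dlOf (nat_lit 1) (nat_lit 0xe80080004002002a00089db983)))) 
(.nd (nat_lit 9) (.nd (nat_lit 10) 
(.lf (nat_lit 8237537) (dlOf (nat_lit 1) (nat_lit 0x400400020018518682))) 
(.lf (nat_lit 19772897) (dlOf (nat_lit 1) (nat_lit 0x4002000200089d9b02)))) 
(.lf (nat_lit 8239073) (dlOf (nat_lit 1) (nat_lit 0x2001851a601))))))))))))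

end

end Pool.Agent.Lib.MP_5854e1_co.Cz

namespace Pool.Agent.Lib.MP_5854e1_co.Cz

noncomputable section

noncomputable def tz34 : DT := (.nd (nat_lit 16) (.nd (nat_lit 5) (.nd (nat_lit 13) 
(.nd (nat_lit 6) (.nd (nat_lit 18) (.nd (nat_lit 19) (.nd (nat_lit 27) (.nd (nat_lit 7) 
(.nd (nat_lit 22) (.nd (nat_lit 21) 
(.lf (nat_lit 1140981761) (dlOf (nat_lit 1) (nat_lit 0x1c002001c0008040002))) 
(.lf (nat_lit 10616833) (dlOf (nat_lit 1) (nat_lit 0x20008600001)))) (.nd (nat_lit 8) 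
(.lf (nat_lit 47316993) (dlOf (nat_lit 5) (nat_lit 0x168bd300b55de00645810000af4c0322a0402417a6011abbc00c380200025e980012ef0030da08007c004001200193d0002))) 
(.lf (nat_lit 54657281) (dlOf (nat_lit 1) (nat_lit 0x120029650a81))))) (.nd (nat_lit 8) 
(.nd (nat_lit 10) (.lf (nat_lit 2228353) (dlOf (nat_lit 1) (nat_lit 0x400200020008150102))) 
(.lf (nat_lit 20057217) (dlOf (nat_lit 1) (nat_lit 0x2c004000400189d6102)))) 
(.lf (nat_lit 3221363585) (dlOf (nat_lit 1) (nat_lit 0x7e001811bc81))))) (.nd (nat_lit 26) 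
(.nd (nat_lit 29) 
(.lf (nat_lit 3624009729) (dlOf (nat_lit 2) (nat_lit 0xe030000a017800300b8001405a001202500060120005806c004c0320004018000900a000600480014022000a00f000400480010020005800a0028002000f000005a509000d800800c0002000400080a0003))) 
(.nd (nat_lit 31) (.lf (nat_lit 2013396993) (dlOf (nat_lit 1) (nat_lit 0x1c002001c0008040002))) 
(.lf (nat_lit 4160880641) (dlOf (nat_lit 3) (nat_lit 0x30028000c00500b418200060028057f0080078008000c002001a0008050003))))) 
(.nd (nat_lit 9) (.nd (nat_lit 10) 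
(.lf (nat_lit 2885812225) (dlOf (nat_lit 2) (nat_lit 0xe030000a017800300b8001405a0012025000601200098078002c0340004018000c00b8004804c0014022000a00f000400480010020005800a0028002000f0000054949000d800800c0002000400080a0003))) 
(.lf (nat_lit 738331649) (dlOf (nat_lit 2) (nat_lit 0x3005a00020018095f00)))) 
(.lf (nat_lit 3154248193) (dlOf (nat_lit 2) (nat_lit 0x200000038818137b00)))))) (.nd (nat_lit 21) 
(.nd (nat_lit 26) (.nd (nat_lit 8) (.nd (nat_lit 22) 
(.lf (nat_lit 1342832641) (dlOf (nat_lit 1) (nat_lit 0x12000800b8002008600080e0003))) 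
(.lf (nat_lit 21626881) (dlOf (nat_lit 2) (nat_lit 0x4a96000ce2018a50000)))) 
(.lf (nat_lit 46792961) (dlOf (nat_lit 1) (nat_lit 0x60009380a81)))) (.nd (nat_lit 27) 
(.lf (nat_lit 4362731521) (dlOf (nat_lit 4) (nat_lit 0x702d000180b4019640800180b400080510009023000280cc001005a00ca20a000c05a0005028800200cc001005a00ca108001000080e0001))) 
(.nd (nat_lit 29) 
(.lf (nat_lit 470417409) (dlOf (nat_lit 1) (nat_lit 0x12000800b8002008600080e0003))) 
(.lf (nat_lit 4228513793) (dlOf (nat_lit 4) (nat_lit 0x7029800180b000e0a0800180a6000804a000901f800280c80010058006fb0a000c0530005025000200c80010058006f808001000080e0001)))))) 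
(.nd (nat_lit 20) (.nd (nat_lit 28) (.nd (nat_lit 24) 
(.lf (nat_lit 2754215937) (dlOf (nat_lit 1) (nat_lit 0x200280c0001))) 
(.lf (nat_lit 19529729) (dlOf (nat_lit 1) (nat_lit 0x4002000a00089b0002)))) (.nd (nat_lit 31) 
(.lf (nat_lit 1344929793) (dlOf (nat_lit 1) (nat_lit 0x180080018002000400089a0003))) 
(.lf (nat_lit 3492413441) (dlOf (nat_lit 1) (nat_lit 0x200280c0001))))) (.nd (nat_lit 7) 
(.lf (nat_lit 16384001) (dlOf (nat_lit 1) (nat_lit 0x880080038002002800088a0003))) 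
(.lf (nat_lit 20584065) (dlOf (nat_lit 2) (nat_lit 0xe55b80040ada002c4b08001ec1800200080008002000600089d9d83))))))) 
(.nd (nat_lit 19) (.nd (nat_lit 26) (.nd (nat_lit 22) (.nd (nat_lit 20) (.nd (nat_lit 21) 
(.nd (nat_lit 29) (.lf (nat_lit 5637537793) (dlOf (nat_lit 1) (nat_lit 0x400200020008100002))) 
(.lf (nat_lit 805699585) (dlOf (nat_lit 1) (nat_lit 0x1000200240008190002)))) 
(.lf (nat_lit 1881538561) (dlOf (nat_lit 3) (nat_lit 0x203f003701c000280780070b03000103c0033b80800280080018002000e0008f40003)))) 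
(.nd (nat_lit 7) (.lf (nat_lit 26607617) (dlOf (nat_lit 1) (nat_lit 0x400200020008c50002))) 
(.lf (nat_lit 11927681) (dlOf (nat_lit 1) (nat_lit 0x800800c8002004400086c0103))))) 
(.nd (nat_lit 7) (.nd (nat_lit 8) (.nd (nat_lit 10) (.nd (nat_lit 24) 
(.lf (nat_lit 3494248449) (dlOf (nat_lit 1) (nat_lit 0x1080080040002003200081e0003))) 
(.lf (nat_lit 54919169) (dlOf (nat_lit 1) (nat_lit 0x20029670001)))) 
(.lf (nat_lit 38142977) (dlOf (nat_lit 1) (nat_lit 0x800200020009132882)))) 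
(.lf (nat_lit 46530817) (dlOf (nat_lit 1) (nat_lit 0x8008001000200020009380a83)))) 
(.lf (nat_lit 41287809) (dlOf (nat_lit 1) (nat_lit 0x580029233a01))))) (.nd (nat_lit 28) 
(.nd (nat_lit 29) (.nd (nat_lit 7) 
(.lf (nat_lit 4362469377) (dlOf (nat_lit 1) (nat_lit 0x278008001000200360008090003))) 
(.lf (nat_lit 4362469761) (dlOf (nat_lit 1) (nat_lit 0x60018090781)))) (.nd (nat_lit 22) 
(.lf (nat_lit 1678114817) (dlOf (nat_lit 1) (nat_lit 0x1000200240008190002))) 
(.lf (nat_lit 2756050945) (dlOf (nat_lit 1) (nat_lit 0x1080080040002003200081e0003))))) 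
(.nd (nat_lit 20) (.nd (nat_lit 27) 
(.lf (nat_lit 6241517569) (dlOf (nat_lit 1) (nat_lit 0x400200020008100002))) 
(.lf (nat_lit 4228251649) (dlOf (nat_lit 1) (nat_lit 0x278008001000200360008090003)))) 
(.lf (nat_lit 471203841) (dlOf (nat_lit 1) (nat_lit 0x200182c0001)))))) (.nd (nat_lit 24) 
(.nd (nat_lit 7) (.nd (nat_lit 26) (.nd (nat_lit 20) 
(.lf (nat_lit 537788417) (dlOf (nat_lit 3) (nat_lit 0x2078000803b000281d400200e2000e07000080368004018800200c2001200000a8f09000703b0052600800180080004002000200081a0003))) 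
(.lf (nat_lit 4063233) (dlOf (nat_lit 1) (nat_lit 0x2c00401540008270002)))) (.nd (nat_lit 8) 
(.lf (nat_lit 1410203649) (dlOf (nat_lit 3) (nat_lit 0x2078000803b800281d800200e2000e07000080368004018c00200c2001200000b4689000703b8057f00800180080004002000200081a0003))) 
(.lf (nat_lit 6376259841) (dlOf (nat_lit 1) (nat_lit 0x400400020008090a82))))) (.nd (nat_lit 8) 
(.nd (nat_lit 9) (.lf (nat_lit 12451969) (dlOf (nat_lit 1) (nat_lit 0x80080004002000200086c0103))) 
(.lf (nat_lit 8259201) (dlOf (nat_lit 1) (nat_lit 0x20018513981)))) 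
(.lf (nat_lit 2754480513) (dlOf (nat_lit 1) (nat_lit 0x200080f4e81))))) (.nd (nat_lit 9) 
(.nd (nat_lit 7) (.lf (nat_lit 19794945) (dlOf (nat_lit 1) (nat_lit 0x4004000200089d5f02))) 
(.nd (nat_lit 11) (.lf (nat_lit 23986305) (dlOf (nat_lit 1) (nat_lit 0x400200020008b80102))) 
(.lf (nat_lit 19798145) (dlOf (nat_lit 1) (nat_lit 0x80080004002000400089da883))))) 
(.nd (nat_lit 8) (.lf (nat_lit 19796609) (dlOf (nat_lit 1) (nat_lit 0x80080008002000400089d8b03))) 
(.nd (nat_lit 10) (.lf (nat_lit 19794817) (dlOf (nat_lit 1) (nat_lit 0x4002000200089d5c02))) 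
(.lf (nat_lit 19795841) (dlOf (nat_lit 1) (nat_lit 0xc80080064002001800089d7783))))))))) 
(.nd (nat_lit 18) (.nd (nat_lit 28) (.nd (nat_lit 7) (.nd (nat_lit 23) (.nd (nat_lit 26) 
(.nd (nat_lit 9) (.nd (nat_lit 19) 
(.lf (nat_lit 52559937) (dlOf (nat_lit 2) (nat_lit 0xac1200085fd8027afe801596520058a7b002e534800550300028008002000200060009550603))) 
(.lf (nat_lit 134873153) (dlOf (nat_lit 2) (nat_lit 0x300c4000e6040004002001000080d0b82)))) 
(.nd (nat_lit 8) (.lf (nat_lit 36833857) (dlOf (nat_lit 1) (nat_lit 0x10008000800200040009075203))) 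
(.lf (nat_lit 537003841) (dlOf (nat_lit 1) (nat_lit 0x30800800d0002019e0008003e03))))) 
(.nd (nat_lit 29) (.nd (nat_lit 19) 
(.lf (nat_lit 3288465473) (dlOf (nat_lit 3) (nat_lit 0x1c0130001281000101000004c080008008000400200060008020783))) 
(.lf (nat_lit 201982017) (dlOf (nat_lit 2) (nat_lit 0x300c4000e6040004002001000080d0b82)))) 
(.nd (nat_lit 8) 
(.lf (nat_lit 3959555137) (dlOf (nat_lit 2) (nat_lit 0x7007005780080050008001800200020008112883))) 
(.lf (nat_lit 738328897) (dlOf (nat_lit 2) (nat_lit 0x3dc0aa002005400fd01b800700d803ec044008001f00fe00f000050380100008012400200b80008090c03)))))) 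
(.nd (nat_lit 19) (.nd (nat_lit 21) (.nd (nat_lit 22) 
(.lf (nat_lit 25296961) (dlOf (nat_lit 7) (nat_lit 0x1c8b00028808001e1c0000fa04004f22c000b8700003e020008c8b0001e1c0000e808004322c001d87000039820001c8b00008c080018008003400200660008bf0b83))) 
(.lf (nat_lit 12714049) (dlOf (nat_lit 1) (nat_lit 0x4004000200186d0d02)))) 
(.lf (nat_lit 10616897) (dlOf (nat_lit 1) (nat_lit 0xc800400560008600d82)))) 
(.lf (nat_lit 10092609) (dlOf (nat_lit 3) (nat_lit 0x131688000ac0800c80000004a040128004000200085b0782))))) 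
(.nd (nat_lit 9) (.nd (nat_lit 8) (.nd (nat_lit 20) 
(.lf (nat_lit 32113857) (dlOf (nat_lit 2) (nat_lit 0x3257000112700004a08001400200180008ef2d02))) 
(.lf (nat_lit 58328257) (dlOf (nat_lit 1) (nat_lit 0x1a00097e2d01)))) (.nd (nat_lit 10) 
(.lf (nat_lit 1610744257) (dlOf (nat_lit 2) (nat_lit 0x1805200032818091080))) 
(.lf (nat_lit 3825339841) (dlOf (nat_lit 1) (nat_lit 0x540028146d01))))) (.nd (nat_lit 10) 
(.lf (nat_lit 138177) (dlOf (nat_lit 2) (nat_lit 0x202d00020b020002000800be01))) (.nd (nat_lit 27) 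
(.lf (nat_lit 1677858753) (dlOf (nat_lit 1) (nat_lit 0x25800800940020012000811a603))) 
(.lf (nat_lit 3959560129) (dlOf (nat_lit 3) (nat_lit 0xa046004fa8100100230027bc0805780080090002010a000811a603))))))) 
(.nd (nat_lit 30) (.nd (nat_lit 7) (.nd (nat_lit 27) (.nd (nat_lit 19) 
(.lf (nat_lit 2416050241) (dlOf (nat_lit 2) (nat_lit 0x100110000ac080098008006c00200360008020783))) 
(.lf (nat_lit 805961793) (dlOf (nat_lit 26) (nat_lit 0x66c014000fd0200bc04e01be0050003e4100b5013805a806e033800a0007703003b027005180dc0004014000ed0600a804e001e01b8003b0100b7813805bc06e033c00a000740300130050003180800280280015e0405d409c02d60370005002009d027000a80dc0013e0802e409c00300370004c8200ec027000b00dc001300805b809c02d6037009400500025c180b8813805ac06e000960402a404e014d01b80024c100560138009806e0009204019204e0004881006d01b807c80280012008056809c027e03700047820124027000f80dc0011c0802b809c00600370004682018402700ba00dc000fc0800240aa000604e0003e02000202a80b58138059c06e036200a000a0030001b428195815802400a6013e032032a009800000200918008036c00205860008201403))))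 
(.nd (nat_lit 8) 
(.lf (nat_lit 2550267969) (dlOf (nat_lit 2) (nat_lit 0x100110000ac080098008006c00200360008020783))) 
(.lf (nat_lit 939657025) (dlOf (nat_lit 1) (nat_lit 0x400400020008143e02))))) (.nd (nat_lit 9) 
(.nd (nat_lit 11) (.lf (nat_lit 3020030401) (dlOf (nat_lit 1) (nat_lit 0x24002000e00080e7a82))) 
(.lf (nat_lit 4563536321) (dlOf (nat_lit 1) (nat_lit 0x140028094e81)))) 
(.lf (nat_lit 4563536833) (dlOf (nat_lit 1) (nat_lit 0x20028095d81))))) (.nd (nat_lit 21) 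
(.nd (nat_lit 26) (.nd (nat_lit 29) 
(.lf (nat_lit 5637275713) (dlOf (nat_lit 1) (nat_lit 0x4004000200080d0002))) 
(.lf (nat_lit 4026662977) (dlOf (nat_lit 3) (nat_lit 0x1c0130001281000101000004c080008008000400200060008020783)))) 
(.nd (nat_lit 7) 
(.lf (nat_lit 1409941569) (dlOf (nat_lit 3) (nat_lit 0x5004c0000b01000a0260000500800300080078002000c00080a0d83))) 
(.lf (nat_lit 1543638465) (dlOf (nat_lit 1) (nat_lit 0x8008000800200020008146d03))))) 
(.nd (nat_lit 19) (.nd (nat_lit 9) 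
(.lf (nat_lit 1344405569) (dlOf (nat_lit 1) (nat_lit 0x400200020008760e02))) 
(.lf (nat_lit 3491889729) (dlOf (nat_lit 1) (nat_lit 0x100018091081)))) (.nd (nat_lit 26) 
(.lf (nat_lit 1344929857) (dlOf (nat_lit 2) (nat_lit 0x280580008429a00a809c00430468007c02000500080034002001200089a0603))) 
(.lf (nat_lit 4096393281) (dlOf (nat_lit 1) (nat_lit 0xb00008100501)))))))) (.nd (nat_lit 19) 
(.nd (nat_lit 28) (.nd (nat_lit 21) (.nd (nat_lit 26) (.nd (nat_lit 8) 
(.lf (nat_lit 1611006017) (dlOf (nat_lit 2) (nat_lit 0x100aa00080370004011000100780007410000c004001000080b0502))) 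
(.lf (nat_lit 21365057) (dlOf (nat_lit 1) (nat_lit 0x8800400100008a34c02)))) (.nd (nat_lit 27) 
(.lf (nat_lit 3288727617) (dlOf (nat_lit 3) (nat_lit 0x2201a8001d40800d00d4000e8040068004002600080d0b82))) 
(.lf (nat_lit 738590785) (dlOf (nat_lit 2) (nat_lit 0x100aa00080370004011000100780007010000c004001000080b0502))))) 
(.nd (nat_lit 8) (.nd (nat_lit 22) 
(.lf (nat_lit 2753953857) (dlOf (nat_lit 2) (nat_lit 0xca088000100180a0d00))) 
(.lf (nat_lit 48627777) (dlOf (nat_lit 2) (nat_lit 0xb0900047804000c00200020009420602)))) 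
(.lf (nat_lit 23462209) (dlOf (nat_lit 4) (nat_lit 0x5da480009804002ed240004b0200796920001f818b80600))))) 
(.nd (nat_lit 31) (.nd (nat_lit 22) (.nd (nat_lit 7) 
(.lf (nat_lit 1881538625) (dlOf (nat_lit 2) (nat_lit 0x480e2000a8818f40600))) 
(.lf (nat_lit 2080768193) (dlOf (nat_lit 1) (nat_lit 0x400280c1701)))) (.nd (nat_lit 10) 
(.lf (nat_lit 1346764865) (dlOf (nat_lit 2) (nat_lit 0x280840011e019000600))) 
(.lf (nat_lit 474350657) (dlOf (nat_lit 1) (nat_lit 0x400400020009162882))))) (.nd (nat_lit 30) 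
(.nd (nat_lit 27) 
(.lf (nat_lit 2416312385) (dlOf (nat_lit 2) (nat_lit 0x10090000ea040004004000200180d0b82))) 
(.lf (nat_lit 2550530113) (dlOf (nat_lit 2) (nat_lit 0x10098000ea040004004000200180d0b82)))) 
(.nd (nat_lit 7) 
(.lf (nat_lit 4026925121) (dlOf (nat_lit 3) (nat_lit 0x2201a8001d40800d00d4000e8040068004002600080d0b82))) 
(.lf (nat_lit 3490057665) (dlOf (nat_lit 1) (nat_lit 0xac0028006d01))))))) (.nd (nat_lit 24) 
(.nd (nat_lit 20) (.nd (nat_lit 23) 
(.lf (nat_lit 917569) (dlOf (nat_lit 4) (nat_lit 0xc2d400680000000c0200030f8800305d0009015e00420a30000b8400230f8801305d00000008008000400080018030e02))) 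
(.lf (nat_lit 42860609) (dlOf (nat_lit 1) (nat_lit 0x400200020009280602)))) (.nd (nat_lit 8) 
(.nd (nat_lit 21) (.lf (nat_lit 4095606849) (dlOf (nat_lit 1) (nat_lit 0x4004000200080e0002))) 
(.lf (nat_lit 4063297) (dlOf (nat_lit 4) (nat_lit 0x230b00002857800202a0000e141000809a800404c000941c6000e0e1000606c801281c400880ca000961600401600021071800381c400240ca0008508004016000220718002101001600080120002007c0008270b83)))) 
(.lf (nat_lit 1344149313) (dlOf (nat_lit 1) (nat_lit 0x80080004002000200083da103))))) 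
(.nd (nat_lit 7) (.nd (nat_lit 9) (.nd (nat_lit 22) 
(.lf (nat_lit 19792193) (dlOf (nat_lit 1) (nat_lit 0x80080004002000400089d0c03))) 
(.lf (nat_lit 23986497) (dlOf (nat_lit 1) (nat_lit 0x80028b80601)))) 
(.lf (nat_lit 19794753) (dlOf (nat_lit 1) (nat_lit 0x200089d5c01)))) (.nd (nat_lit 9) 
(.lf (nat_lit 19795137) (dlOf (nat_lit 1) (nat_lit 0x200089d6381))) 
(.lf (nat_lit 19798721) (dlOf (nat_lit 1) (nat_lit 0x80080004002000200089db983))))))))) 
(.nd (nat_lit 18) (.nd (nat_lit 6) (.nd (nat_lit 19) (.nd (nat_lit 28) (.nd (nat_lit 20) 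
(.nd (nat_lit 21) (.nd (nat_lit 9) (.nd (nat_lit 30) 
(.lf (nat_lit 2214731777) (dlOf (nat_lit 2) (nat_lit 0x600b806f100800080080014002000a0008080003))) 
(.lf (nat_lit 5435957249) (dlOf (nat_lit 5) (nat_lit 0x80fc002007c001603a000901a803a142000100fc002007c001603a000501a803a102000280fc002c07c001203a000801a803a0c2000380fc001407c001203a000a01a803a002000080080064002000c0008060003)))) 
(.lf (nat_lit 2885820929) (dlOf (nat_lit 1) (nat_lit 0xa00080b0d81)))) (.nd (nat_lit 22) 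
(.lf (nat_lit 44179457) (dlOf (nat_lit 1) (nat_lit 0xe00292d0001))) 
(.lf (nat_lit 23207937) (dlOf (nat_lit 1) (nat_lit 0x400400060008b70002))))) (.nd (nat_lit 7) 
(.nd (nat_lit 8) 
(.lf (nat_lit 47325185) (dlOf (nat_lit 3) (nat_lit 0x117a60008bbc00c8b0200015e98061c00800d00080014002000c00093d0003))) 
(.lf (nat_lit 59908353) (dlOf (nat_lit 1) (nat_lit 0x400400020009840a82)))) (.nd (nat_lit 23) 
(.lf (nat_lit 3285121) (dlOf (nat_lit 1) (nat_lit 0x800200020008200102))) 
(.lf (nat_lit 28450945) (dlOf (nat_lit 1) (nat_lit 0x400200020008da0482)))))) (.nd (nat_lit 27) 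
(.nd (nat_lit 7) (.nd (nat_lit 8) 
(.lf (nat_lit 2416058369) (dlOf (nat_lit 1) (nat_lit 0x40008000400200020008030003))) 
(.lf (nat_lit 3556911873) (dlOf (nat_lit 2) (nat_lit 0x37000000054040010002000600080d5a82)))) 
(.lf (nat_lit 805448065) (dlOf (nat_lit 1) (nat_lit 0x20018114e81)))) (.nd (nat_lit 9) 
(.nd (nat_lit 26) 
(.lf (nat_lit 2550276097) (dlOf (nat_lit 1) (nat_lit 0x40008000400200020008030003))) 
(.lf (nat_lit 5301739521) (dlOf (nat_lit 5) (nat_lit 0x80fc002007c001603a000901b8021942000100fc002007c001603a000501b8021902000280fc002c07c001203a000801b80218c2000380fc001407c001203a000a01b8021802000080080064002000c0008060003)))) 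
(.lf (nat_lit 3624018433) (dlOf (nat_lit 1) (nat_lit 0xa00080b0d81)))))) (.nd (nat_lit 20) 
(.nd (nat_lit 21) (.nd (nat_lit 26) (.nd (nat_lit 23) (.nd (nat_lit 27) 
(.lf (nat_lit 1342840833) (dlOf (nat_lit 5) (nat_lit 0x444c0185e02000422600c2e81000211300616c080010898030b204001c004000e00180e0002))) 
(.lf (nat_lit 134881281) (dlOf (nat_lit 1) (nat_lit 0x2200080d0001)))) 
(.lf (nat_lit 42606593) (dlOf (nat_lit 1) (nat_lit 0x40029260001)))) (.nd (nat_lit 28) 
(.lf (nat_lit 201990145) (dlOf (nat_lit 1) (nat_lit 0x2200080d0001))) 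
(.lf (nat_lit 470425601) (dlOf (nat_lit 5) (nat_lit 0x444c01bab02000422600dd5010002113006ea00800108980374c04001c004000e00180e0002))))) 
(.nd (nat_lit 7) (.nd (nat_lit 22) 
(.lf (nat_lit 472522753) (dlOf (nat_lit 1) (nat_lit 0x7800089b0001))) 
(.lf (nat_lit 15343617) (dlOf (nat_lit 1) (nat_lit 0x400287e0001)))) (.nd (nat_lit 8) 
(.lf (nat_lit 36315265) (dlOf (nat_lit 1) (nat_lit 0x40019070301))) 
(.lf (nat_lit 1009396097) (dlOf (nat_lit 1) (nat_lit 0x20009164e81)))))) (.nd (nat_lit 7) 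
(.nd (nat_lit 8) (.nd (nat_lit 21) 
(.lf (nat_lit 1712129) (dlOf (nat_lit 1) (nat_lit 0x180018120001))) (.nd (nat_lit 22) 
(.lf (nat_lit 3809281) (dlOf (nat_lit 2) (nat_lit 0xd097006458080150008007800200040008230003))) 
(.lf (nat_lit 24780801) (dlOf (nat_lit 1) (nat_lit 0x58008003c00200140008bb0003))))) 
(.lf (nat_lit 473571585) (dlOf (nat_lit 2) (nat_lit 0x2c1f4000df02001a0028f63581)))) 
(.nd (nat_lit 8) (.lf (nat_lit 8009345) (dlOf (nat_lit 1) (nat_lit 0x20028519d81))) 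
(.lf (nat_lit 1345988993) (dlOf (nat_lit 4) (nat_lit 0x103640181a0400182ac001e0cd0053f0200030668029b40801300080034002001c0008e24e83))))))) 
(.nd (nat_lit 7) (.nd (nat_lit 26) (.nd (nat_lit 19) (.nd (nat_lit 20) (.nd (nat_lit 23) 
(.lf (nat_lit 4026671169) (dlOf (nat_lit 4) (nat_lit 0x1004c0004a04013404000014020356020008c00580004c100160008001c002008e0008020783))) 
(.lf (nat_lit 25305153) (dlOf (nat_lit 16) (nat_lit 0x379160010c380006981000be4580034204006f22c0021870000ca02001bc8b0002880800e6458005b0e00007d0400559160015c380001f010009e458002f0e00007a04005f9160025c380001d41001fe458011b0e00007304002991600011810002c8b00006808002e45800130e00001804000b9160001c3800005c10002e45800270e0000150400159160008c3800003c1000d00080048002001c0008bf0b83)))) 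
(.nd (nat_lit 8) (.lf (nat_lit 49424961) (dlOf (nat_lit 1) (nat_lit 0x400200020009465202))) 
(.lf (nat_lit 3285313) (dlOf (nat_lit 1) (nat_lit 0x20028200601))))) (.nd (nat_lit 20) 
(.nd (nat_lit 27) 
(.lf (nat_lit 805969985) (dlOf (nat_lit 2) (nat_lit 0x7015800000040044004002c0008201402))) 
(.lf (nat_lit 134881345) (dlOf (nat_lit 4) (nat_lit 0xf80c40004028000750400180310003a01001e01880048050000e60800a0002007000080d0b82)))) 
(.lf (nat_lit 45752385) (dlOf (nat_lit 2) (nat_lit 0x5d1b20023c0200020019360601))))) 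
(.nd (nat_lit 27) (.nd (nat_lit 19) (.nd (nat_lit 21) 
(.lf (nat_lit 3288473665) (dlOf (nat_lit 4) (nat_lit 0x1004c0004a04013404000014020356020008c00580004c100160008001c002008e0008020783))) 
(.lf (nat_lit 4095877185) (dlOf (nat_lit 1) (nat_lit 0x4004000200080e0002)))) (.nd (nat_lit 28) 
(.lf (nat_lit 1678385217) (dlOf (nat_lit 1) (nat_lit 0x58008003800200120008201803))) 
(.lf (nat_lit 1409949761) (dlOf (nat_lit 5) (nat_lit 0x1602b801b81300002c08011c0ba006605700500260000501802981300000a0400180980000402003800280a0d81))))) 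
(.nd (nat_lit 11) (.nd (nat_lit 10) 
(.lf (nat_lit 201990209) (dlOf (nat_lit 4) (nat_lit 0xf80c40004028000750400180310003a01001e01880048050000e60800a0002007000080d0b82))) 
(.lf (nat_lit 3959563329) (dlOf (nat_lit 2) (nat_lit 0xd001c015e00200020018112881)))) 
(.nd (nat_lit 8) (.lf (nat_lit 473049665) (dlOf (nat_lit 2) (nat_lit 0x1011f0002f818c35200))) 
(.lf (nat_lit 3959564609) (dlOf (nat_lit 1) (nat_lit 0x8008000400200020008114c83))))))) 
(.nd (nat_lit 21) (.nd (nat_lit 26) (.nd (nat_lit 8) (.nd (nat_lit 30) 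
(.lf (nat_lit 268574913) (dlOf (nat_lit 1) (nat_lit 0x240028081701))) 
(.lf (nat_lit 5637284033) (dlOf (nat_lit 1) (nat_lit 0x3600180d0781)))) 
(.lf (nat_lit 3758236097) (dlOf (nat_lit 3) (nat_lit 0x5001c000800c000888200020000004340802b8008001000200140008107003)))) 
(.nd (nat_lit 9) (.nd (nat_lit 19) 
(.lf (nat_lit 3154256321) (dlOf (nat_lit 2) (nat_lit 0x1c0d0000e066000201f800300000020210011c00400020018137002))) 
(.lf (nat_lit 4094304705) (dlOf (nat_lit 1) (nat_lit 0x6a0008037001)))) 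
(.lf (nat_lit 201467841) (dlOf (nat_lit 1) (nat_lit 0xe0018004401))))) (.nd (nat_lit 19) 
(.nd (nat_lit 8) (.lf (nat_lit 28451009) (dlOf (nat_lit 1) (nat_lit 0x400200020008da0482))) 
(.nd (nat_lit 9) 
(.lf (nat_lit 20065729) (dlOf (nat_lit 2) (nat_lit 0x93858001c6040024004001c00189d6d02))) 
(.lf (nat_lit 20065217) (dlOf (nat_lit 1) (nat_lit 0x80080004002000200089d5d83))))) 
(.nd (nat_lit 8) (.lf (nat_lit 36315329) (dlOf (nat_lit 1) (nat_lit 0xc00200020009070782))) 
(.nd (nat_lit 20) (.lf (nat_lit 36317633) (dlOf (nat_lit 1) (nat_lit 0x400200020009074e82))) 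
(.lf (nat_lit 1345989057) (dlOf (nat_lit 3) (nat_lit 0x120d90060901000106c8030440800a8008000400200200008e24e83))))))))) 
(.nd (nat_lit 6) (.nd (nat_lit 26) (.nd (nat_lit 20) (.nd (nat_lit 31) (.nd (nat_lit 21) 
(.nd (nat_lit 28) (.nd (nat_lit 22) 
(.lf (nat_lit 134619137) (dlOf (nat_lit 2) (nat_lit 0xe03b00651018090000))) 
(.lf (nat_lit 12984321) (dlOf (nat_lit 3) (nat_lit 0x75250004a8f00718c10001d478038c404004c004000800086f0002)))) 
(.nd (nat_lit 7) 
(.lf (nat_lit 805707777) (dlOf (nat_lit 1) (nat_lit 0x38008000400200040008190003))) 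
(.lf (nat_lit 1879974017) (dlOf (nat_lit 1) (nat_lit 0x1800200020008490102))))) (.nd (nat_lit 7) 
(.nd (nat_lit 22) (.lf (nat_lit 61218817) (dlOf (nat_lit 1) (nat_lit 0xa00198e0001))) 
(.lf (nat_lit 48635905) (dlOf (nat_lit 1) (nat_lit 0x60008001c00200040009420003)))) 
(.lf (nat_lit 19803009) (dlOf (nat_lit 1) (nat_lit 0x4002000200089d5c02))))) (.nd (nat_lit 27) 
(.nd (nat_lit 28) (.nd (nat_lit 30) 
(.lf (nat_lit 6442852353) (dlOf (nat_lit 2) (nat_lit 0x260340004018805c241002280080144002000c00081e0003))) 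
(.lf (nat_lit 3221626881) (dlOf (nat_lit 1) (nat_lit 0x30008005400200020008160003)))) 
(.lf (nat_lit 4026933249) (dlOf (nat_lit 2) (nat_lit 0x17000000000040048002004600080d0002)))) 
(.nd (nat_lit 19) 
(.lf (nat_lit 3355844609) (dlOf (nat_lit 3) (nat_lit 0x5e02b00da70100060170000000800c0008000400200680008120003))) 
(.lf (nat_lit 2819497985) (dlOf (nat_lit 2) (nat_lit 0xa00d800000040010004000600082b0002)))))) 
(.nd (nat_lit 19) (.nd (nat_lit 21) (.nd (nat_lit 23) (.nd (nat_lit 24) 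
(.lf (nat_lit 1343627265) (dlOf (nat_lit 1) (nat_lit 0x100080034002005800082c0003))) 
(.lf (nat_lit 18227201) (dlOf (nat_lit 1) (nat_lit 0x60028920001)))) 
(.lf (nat_lit 26615809) (dlOf (nat_lit 1) (nat_lit 0x38008002000200380008c50003)))) 
(.nd (nat_lit 7) (.lf (nat_lit 37101569) (dlOf (nat_lit 1) (nat_lit 0x80080004002006e0009090003))) 
(.lf (nat_lit 11935873) (dlOf (nat_lit 1) (nat_lit 0x4002005800086c0102))))) (.nd (nat_lit 7) 
(.nd (nat_lit 23) (.lf (nat_lit 52305921) (dlOf (nat_lit 1) (nat_lit 0x400200020009520002))) 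
(.lf (nat_lit 10362881) (dlOf (nat_lit 1) (nat_lit 0x3000800c0002007200085d0003)))) 
(.nd (nat_lit 8) (.lf (nat_lit 12460161) (dlOf (nat_lit 1) (nat_lit 0x4002000200086c0102))) 
(.lf (nat_lit 8271745) (dlOf (nat_lit 1) (nat_lit 0x800800040020002000851a303))))))) 
(.nd (nat_lit 27) (.nd (nat_lit 19) (.nd (nat_lit 7) (.nd (nat_lit 29) 
(.lf (nat_lit 3288735745) (dlOf (nat_lit 2) (nat_lit 0x17000000000040048002004600080d0002))) 
(.lf (nat_lit 1678123009) (dlOf (nat_lit 1) (nat_lit 0x38008000400200040008190003)))) 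
(.lf (nat_lit 4362477953) (dlOf (nat_lit 1) (nat_lit 0x200080080002001a0008090783)))) 
(.nd (nat_lit 9) 
(.lf (nat_lit 3557695489) (dlOf (nat_lit 2) (nat_lit 0xa00e000000040010004000600082b0002))) 
(.nd (nat_lit 20) (.lf (nat_lit 2752389633) (dlOf (nat_lit 1) (nat_lit 0x98004003a0008017f02))) 
(.lf (nat_lit 2755535361) (dlOf (nat_lit 4) (nat_lit 0xa01080029a04022c084001430200c0042000668181b0d80)))))) 
(.nd (nat_lit 7) (.nd (nat_lit 30) (.nd (nat_lit 32) 
(.lf (nat_lit 201728001) (dlOf (nat_lit 2) (nat_lit 0xe03b0037d818090000))) 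
(.lf (nat_lit 4496695297) (dlOf (nat_lit 2) (nat_lit 0x500680012033000a0180075e818014000800c8002010c0008120003)))) 
(.nd (nat_lit 28) 
(.lf (nat_lit 3959824385) (dlOf (nat_lit 1) (nat_lit 0x30008005400200020008160003))) 
(.lf (nat_lit 5838872577) (dlOf (nat_lit 2) (nat_lit 0x2603400040188056881002280080144002000c00081e0003))))) 
(.nd (nat_lit 8) (.lf (nat_lit 1007558785) (dlOf (nat_lit 1) (nat_lit 0x1800200020008490102))) 
(.lf (nat_lit 201728385) (dlOf (nat_lit 2) (nat_lit 0x1501d80338c0800f8008011000200500008090783))))))) 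
(.nd (nat_lit 8) (.nd (nat_lit 21) (.nd (nat_lit 23) (.nd (nat_lit 26) (.nd (nat_lit 22) 
(.lf (nat_lit 4026933313) (dlOf (nat_lit 16) (nat_lit 0x630100001f408038008000080160007c0400e20200003a8100720100001d00804700800038016000730401220200001e8100910100000d008046808000060040040040000200201280200000f810091010000078080148080000380401440400001b0201220200000d010091010000050080030008016c002009000080d0b83))) 
(.lf (nat_lit 1346773057) (dlOf (nat_lit 4) (nat_lit 0x2100ab010a850c083419803840840011e0400010a18008cc0801c055800c42860022f0400040029000601)))) 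
(.nd (nat_lit 27) 
(.lf (nat_lit 3288735809) (dlOf (nat_lit 16) (nat_lit 0x630100001f408038008000080160007c0400e20200003a8100720100001d00804700800038016000730401220200001b8100910100000b8080468080000560400400400001b0201280200000d0100910100000640801480800002e040144040000160201220200000a81009101000003c080030008016c002009000080d0b83))) 
(.lf (nat_lit 4496695361) (dlOf (nat_lit 3) (nat_lit 0x1406402920220004e820132011000238080078008014800200180008120483))))) 
(.nd (nat_lit 19) (.nd (nat_lit 22) 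
(.lf (nat_lit 26615873) (dlOf (nat_lit 1) (nat_lit 0xc0008026c002012e0008c50503))) 
(.lf (nat_lit 30810177) (dlOf (nat_lit 1) (nat_lit 0xc0018e50e01)))) 
(.lf (nat_lit 59646017) (dlOf (nat_lit 1) (nat_lit 0x8008000400200020009820603))))) 
(.nd (nat_lit 7) (.nd (nat_lit 22) (.nd (nat_lit 26) 
(.lf (nat_lit 1881546817) (dlOf (nat_lit 3) (nat_lit 0x31838c00881c400ca07b000a8830034071801e01ec0026e0800dc00400140018f40602))) 
(.lf (nat_lit 2753962049) (dlOf (nat_lit 2) (nat_lit 0xe4009000100180a0d00)))) 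
(.lf (nat_lit 48635969) (dlOf (nat_lit 2) (nat_lit 0x7ab80028d3b00144c6000a25c400500000023c0a00020029420601)))) 
(.nd (nat_lit 9) (.lf (nat_lit 58598593) (dlOf (nat_lit 2) (nat_lit 0x263f3000000197e2d00))) 
(.lf (nat_lit 19806913) (dlOf (nat_lit 1) (nat_lit 0x80080008002000200089db983)))))) 
(.nd (nat_lit 7) (.nd (nat_lit 21) (.nd (nat_lit 26) 
(.lf (nat_lit 537796929) (dlOf (nat_lit 2) (nat_lit 0xa00000007e040100002000800081b0602))) 
(.lf (nat_lit 1410212161) (dlOf (nat_lit 2) (nat_lit 0xa00000008c040100002000800081b0602)))) 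
(.nd (nat_lit 10) (.nd (nat_lit 19) 
(.lf (nat_lit 23470401) (dlOf (nat_lit 1) (nat_lit 0x30004001a0018b80602))) 
(.lf (nat_lit 2755535169) (dlOf (nat_lit 2) (nat_lit 0x23014c0007e0400a0004005c00081b0602)))) 
(.lf (nat_lit 2754493761) (dlOf (nat_lit 1) (nat_lit 0x200180fc901))))) (.nd (nat_lit 9) 
(.nd (nat_lit 27) (.lf (nat_lit 4295369153) (dlOf (nat_lit 1) (nat_lit 0x4002000200081a0902))) 
(.lf (nat_lit 4429586881) (dlOf (nat_lit 1) (nat_lit 0x4002000200081a0902)))) (.nd (nat_lit 10) 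
(.lf (nat_lit 20327361) (dlOf (nat_lit 1) (nat_lit 0x4002000200089d5d82))) 
(.lf (nat_lit 2886084545) (dlOf (nat_lit 1) (nat_lit 0x20028144401)))))))))) (.nd (nat_lit 13) 
(.nd (nat_lit 18) (.nd (nat_lit 19) (.nd (nat_lit 7) (.nd (nat_lit 6) (.nd (nat_lit 21) 
(.nd (nat_lit 26) (.nd (nat_lit 22) (.nd (nat_lit 27) 
(.lf (nat_lit 2684485665) (dlOf (nat_lit 1) (nat_lit 0xa0028050601))) 
(.lf (nat_lit 2013397025) (dlOf (nat_lit 1) (nat_lit 0x40028040181)))) 
(.lf (nat_lit 21102625) (dlOf (nat_lit 2) (nat_lit 0x30a70000d4080020008001000200060008a10583)))) 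
(.nd (nat_lit 9) (.nd (nat_lit 27) 
(.lf (nat_lit 1140981793) (dlOf (nat_lit 1) (nat_lit 0x40028040181))) 
(.lf (nat_lit 3422683169) (dlOf (nat_lit 1) (nat_lit 0x400200020008050602)))) (.nd (nat_lit 11) 
(.lf (nat_lit 3020030497) (dlOf (nat_lit 1) (nat_lit 0x8002003e00080e8702))) 
(.lf (nat_lit 1677859361) (dlOf (nat_lit 1) (nat_lit 0x980080018002005a000811b283)))))) 
(.nd (nat_lit 20) (.nd (nat_lit 22) 
(.lf (nat_lit 10616865) (dlOf (nat_lit 4) (nat_lit 0xe1e0000105e0008f01001487300046e0400403ac00181ca000e6828600480))) 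
(.lf (nat_lit 14811169) (dlOf (nat_lit 2) (nat_lit 0x613140003a04000c00200020008780602)))) 
(.nd (nat_lit 9) 
(.lf (nat_lit 24248353) (dlOf (nat_lit 2) (nat_lit 0x35a44028d204000400400060018b90902))) 
(.lf (nat_lit 20059681) (dlOf (nat_lit 1) (nat_lit 0x600289d9c01)))))) (.nd (nat_lit 8) 
(.nd (nat_lit 9) (.nd (nat_lit 26) 
(.lf (nat_lit 5503058017) (dlOf (nat_lit 1) (nat_lit 0x8008000400200020008040783))) 
(.lf (nat_lit 738328673) (dlOf (nat_lit 3) (nat_lit 0xb6052000ac01004102900055c0800c0008005c00200040008090083)))) 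
(.nd (nat_lit 11) 
(.lf (nat_lit 5570168417) (dlOf (nat_lit 2) (nat_lit 0x1c0320003302000e0018053901))) 
(.lf (nat_lit 2754743905) (dlOf (nat_lit 1) (nat_lit 0x3c00280f7181))))) (.nd (nat_lit 11) 
(.nd (nat_lit 9) 
(.lf (nat_lit 1744961889) (dlOf (nat_lit 1) (nat_lit 0xa8008007800200220008090e83))) 
(.lf (nat_lit 2617381729) (dlOf (nat_lit 1) (nat_lit 0x10c00080a8f81)))) (.nd (nat_lit 28) 
(.lf (nat_lit 3221358945) (dlOf (nat_lit 1) (nat_lit 0x100018114e81))) 
(.lf (nat_lit 805439841) (dlOf (nat_lit 1) (nat_lit 0x20008114e81))))))) (.nd (nat_lit 11) 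
(.nd (nat_lit 22) (.nd (nat_lit 12) (.nd (nat_lit 6) 
(.lf (nat_lit 5637275809) (dlOf (nat_lit 1) (nat_lit 0x4004000200080d0582))) 
(.lf (nat_lit 2751596257) (dlOf (nat_lit 1) (nat_lit 0x20028003a81)))) (.nd (nat_lit 20) 
(.lf (nat_lit 3355579617) (dlOf (nat_lit 3) (nat_lit 0x20178006ac0801280bc00000040118002007200080a9502))) 
(.lf (nat_lit 20059361) (dlOf (nat_lit 1) (nat_lit 0x4002000200089d9502))))) (.nd (nat_lit 6) 
(.nd (nat_lit 26) (.lf (nat_lit 1346502817) (dlOf (nat_lit 1) (nat_lit 0x80018f72b81))) 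
(.lf (nat_lit 2755788961) (dlOf (nat_lit 1) (nat_lit 0x100080004002000200081b0203)))) 
(.nd (nat_lit 8) (.lf (nat_lit 7471329) (dlOf (nat_lit 1) (nat_lit 0x1200084b0581))) 
(.lf (nat_lit 474088417) (dlOf (nat_lit 1) (nat_lit 0xc00200080009082882)))))) (.nd (nat_lit 8) 
(.nd (nat_lit 6) (.nd (nat_lit 26) 
(.lf (nat_lit 1342312097) (dlOf (nat_lit 1) (nat_lit 0x8008000400200020008007203))) 
(.lf (nat_lit 4227993249) (dlOf (nat_lit 1) (nat_lit 0x400400020008007202)))) (.nd (nat_lit 9) 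
(.lf (nat_lit 1677854945) (dlOf (nat_lit 1) (nat_lit 0x58008000800200500008114a83))) 
(.lf (nat_lit 20060897) (dlOf (nat_lit 1) (nat_lit 0x4002000200089db982))))) (.nd (nat_lit 9) 
(.nd (nat_lit 12) (.lf (nat_lit 805440929) (dlOf (nat_lit 1) (nat_lit 0x1000200060008116d02))) 
(.lf (nat_lit 3221364129) (dlOf (nat_lit 1) (nat_lit 0x4000811cb01)))) (.nd (nat_lit 28) 
(.lf (nat_lit 3221363617) (dlOf (nat_lit 1) (nat_lit 0x5c0020008000811bc82))) 
(.lf (nat_lit 805444513) (dlOf (nat_lit 2) (nat_lit 0x2602b002bb80808a000800c40020004000811bc83)))))))) 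
(.nd (nat_lit 26) (.nd (nat_lit 20) (.nd (nat_lit 21) (.nd (nat_lit 27) (.nd (nat_lit 22) 
(.nd (nat_lit 23) (.nd (nat_lit 28) 
(.lf (nat_lit 3221880865) (dlOf (nat_lit 2) (nat_lit 0x20000000280181a0b00))) 
(.lf (nat_lit 805961761) (dlOf (nat_lit 2) (nat_lit 0x10288000000800b0008001c002003a0008200b03)))) 
(.lf (nat_lit 42598433) (dlOf (nat_lit 2) (nat_lit 0x12caca0088556004429d802211ec01108e000883f200441eb800038380010008000c00200020009260183)))) 
(.lf (nat_lit 21626913) (dlOf (nat_lit 1) (nat_lit 0x3d000400be0008a50782)))) (.nd (nat_lit 29) 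
(.lf (nat_lit 134873121) (dlOf (nat_lit 1) (nat_lit 0x700080084002000600080d0883))) 
(.lf (nat_lit 2819227681) (dlOf (nat_lit 1) (nat_lit 0x200281f0681))))) (.nd (nat_lit 23) 
(.lf (nat_lit 1344929825) (dlOf (nat_lit 2) (nat_lit 0x3a08d000090189a0180))) 
(.lf (nat_lit 11141153) (dlOf (nat_lit 9) (nat_lit 0x650e5802d86e8015c336000720600c01cb005f0dd002d066c000de0c00d400a00820010002f0200032e9800787dc0004304005416c002e00280218004000b61805d40000003f0201dc1a40001e0100012f58000d80809d8000000680405f000200500008660502))))) 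
(.nd (nat_lit 6) (.nd (nat_lit 21) 
(.lf (nat_lit 22675489) (dlOf (nat_lit 3) (nat_lit 0x19a90000cd460000b02000c6a4000050080078008001800200120008b10603))) 
(.nd (nat_lit 23) (.lf (nat_lit 3493462049) (dlOf (nat_lit 2) (nat_lit 0x5005100014818140c00))) 
(.lf (nat_lit 45744161) (dlOf (nat_lit 2) (nat_lit 0x21890001f019360180))))) (.nd (nat_lit 21) 
(.nd (nat_lit 23) (.lf (nat_lit 1343881313) (dlOf (nat_lit 1) (nat_lit 0x460008370481))) 
(.lf (nat_lit 60424289) (dlOf (nat_lit 1) (nat_lit 0x20009851981)))) (.nd (nat_lit 7) 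
(.lf (nat_lit 7997025) (dlOf (nat_lit 2) (nat_lit 0x49840002d0200020018513901))) 
(.lf (nat_lit 28967137) (dlOf (nat_lit 1) (nat_lit 0x8008001400200020008da0583))))))) 
(.nd (nat_lit 31) (.nd (nat_lit 27) (.nd (nat_lit 29) 
(.lf (nat_lit 4362731553) (dlOf (nat_lit 10) (nat_lit 0x102c8000815400b40a80004044000b0140001282800800b000140520004604000e05900110220000f4100038118000405a0003404002204600020168000cc1000080b4000580400b405a0001102001602d0000701000501600003008001000800ec002001600080e0b03))) 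
(.lf (nat_lit 1678376993) (dlOf (nat_lit 2) (nat_lit 0x10288000000800b0008001c002003a0008200b03)))) 
(.nd (nat_lit 10) (.nd (nat_lit 21) 
(.lf (nat_lit 201981985) (dlOf (nat_lit 1) (nat_lit 0x700080084002000600080d0883))) 
(.lf (nat_lit 472514593) (dlOf (nat_lit 2) (nat_lit 0x415f000028189b0680)))) 
(.lf (nat_lit 738853921) (dlOf (nat_lit 1) (nat_lit 0x180018122881))))) (.nd (nat_lit 28) 
(.nd (nat_lit 20) (.lf (nat_lit 3960078369) (dlOf (nat_lit 2) (nat_lit 0x20000000228181a0b00))) 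
(.lf (nat_lit 2755264545) (dlOf (nat_lit 2) (nat_lit 0x5005100014818140c00)))) (.nd (nat_lit 30) 
(.lf (nat_lit 3154772001) (dlOf (nat_lit 1) (nat_lit 0xf8008015c002003e0008320c83))) 
(.lf (nat_lit 4228513825) (dlOf (nat_lit 10) (nat_lit 0x10290000813800b409a000403d000b0170001282800800ac00140500004604000e052001101e8000f41000380fc00040580003404002203f00020160000cc1000080b0000580400b40580001102001602c0000781000501580003008001000800ec002001600080e0b03)))))))) 
(.nd (nat_lit 21) (.nd (nat_lit 26) (.nd (nat_lit 28) (.nd (nat_lit 20) (.nd (nat_lit 25) 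
(.nd (nat_lit 29) 
(.lf (nat_lit 3355836449) (dlOf (nat_lit 18) (nat_lit 0x4c0300007202017202e000350101130170001940802e80d000a806602b602e0001015805b80a8008405000f2020000c0098004803c000c82402a005c000802d0023015802c0080000c21004b405c0006002001c03300130170000809400400260005e08010e02e00350098001741001480cc007405c001c02900010098005003c000b614019001e0005902009e00f0002c01004f00780015c0800b80d0003005c000a02b012a015001e009c0038030000220c003a02e000801600006c1000200b80003404007805c0001902001202e001c00000000010235800818f800207e40008120503))) 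
(.lf (nat_lit 3892707361) (dlOf (nat_lit 2) (nat_lit 0x3302880030008006800800b0002000800081d0603)))) 
(.nd (nat_lit 6) (.lf (nat_lit 42860577) (dlOf (nat_lit 2) (nat_lit 0x1dd460000e0200020009280181))) 
(.lf (nat_lit 50725857) (dlOf (nat_lit 1) (nat_lit 0x4004000600194c2882))))) (.nd (nat_lit 6) 
(.nd (nat_lit 22) (.nd (nat_lit 23) 
(.lf (nat_lit 1441825) (dlOf (nat_lit 1) (nat_lit 0x200180d0481))) 
(.lf (nat_lit 9830433) (dlOf (nat_lit 1) (nat_lit 0x58004001c0008580182)))) 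
(.lf (nat_lit 30801953) (dlOf (nat_lit 2) (nat_lit 0x19cf0008c0080010008000800200020008e50a83)))) 
(.nd (nat_lit 9) (.lf (nat_lit 52297825) (dlOf (nat_lit 1) (nat_lit 0x140019521981))) 
(.lf (nat_lit 43386465) (dlOf (nat_lit 1) (nat_lit 0x1200192a3901)))))) (.nd (nat_lit 29) 
(.nd (nat_lit 22) (.nd (nat_lit 6) (.nd (nat_lit 20) 
(.lf (nat_lit 4698013729) (dlOf (nat_lit 1) (nat_lit 0x1000080e0781))) 
(.lf (nat_lit 1343619105) (dlOf (nat_lit 2) (nat_lit 0xc2ca0067e02000800182c0681)))) 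
(.lf (nat_lit 1476788449) (dlOf (nat_lit 18) (nat_lit 0x1801e0005a02002800700090000001541002e801c000a804023c00e000530200bc007000400000014810014801c000a00401f000e0004f02001400f0002581002a0000000f40800380000006e040074000000360200b40000001a81001e0000000d00801080000006604010400000032020062007000028100030038000000801e8008021c002004c00081a0583)))) 
(.nd (nat_lit 31) (.lf (nat_lit 1346764833) (dlOf (nat_lit 1) (nat_lit 0x3800400160009000182))) 
(.lf (nat_lit 3494248481) (dlOf (nat_lit 1) (nat_lit 0x200281e0781))))) (.nd (nat_lit 7) 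
(.nd (nat_lit 30) (.lf (nat_lit 805699617) (dlOf (nat_lit 1) (nat_lit 0x1400200080008190702))) 
(.lf (nat_lit 4026925089) (dlOf (nat_lit 3) (nat_lit 0xa80c803aca04007006800080320003018000000180118008006400200ae00080d0883)))) 
(.lf (nat_lit 1881016737) (dlOf (nat_lit 1) (nat_lit 0x400400020008dd4e82)))))) (.nd (nat_lit 28) 
(.nd (nat_lit 29) (.nd (nat_lit 6) (.nd (nat_lit 8) 
(.lf (nat_lit 3288727585) (dlOf (nat_lit 3) (nat_lit 0xa80c80340004007006800080320003018000000180118008006400200ae00080d0883))) 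
(.lf (nat_lit 4362469665) (dlOf (nat_lit 1) (nat_lit 0x400200020008090502)))) 
(.lf (nat_lit 4362469473) (dlOf (nat_lit 1) (nat_lit 0xd8008000c00200180008090003)))) 
(.nd (nat_lit 7) (.nd (nat_lit 22) 
(.lf (nat_lit 1678114849) (dlOf (nat_lit 1) (nat_lit 0x1400200080008190702))) 
(.lf (nat_lit 2756050977) (dlOf (nat_lit 4) (nat_lit 0x8053000302800005010004015000200a2000a04e000b02280004c2004c815002580a20001204001800181e0801)))) 
(.nd (nat_lit 6) 
(.lf (nat_lit 604373153) (dlOf (nat_lit 2) (nat_lit 0x60038004740800880080098002004200081a0483))) 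
(.lf (nat_lit 604373217) (dlOf (nat_lit 18) (nat_lit 0x1801e0005a02002800700090000001541002e801c000a804023c00e000530200bc007000400000014810014801c000a00401f000e0004f02001400f0002581002a0000000f40800380000006e040074000000360200b40000001a81001e0000000d00801080000006604010400000032020062007000028100030038000000801e8008021c002004c00081a0583)))))) 
(.nd (nat_lit 10) (.nd (nat_lit 8) (.nd (nat_lit 20) 
(.lf (nat_lit 2483421217) (dlOf (nat_lit 1) (nat_lit 0x4004000200081b0002))) (.nd (nat_lit 29) 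
(.lf (nat_lit 471203873) (dlOf (nat_lit 1) (nat_lit 0xa00182c0681))) 
(.lf (nat_lit 1008074785) (dlOf (nat_lit 1) (nat_lit 0x100080008002000200089b0683))))) 
(.nd (nat_lit 6) (.lf (nat_lit 4228251937) (dlOf (nat_lit 1) (nat_lit 0x400200020008090502))) 
(.lf (nat_lit 474351969) (dlOf (nat_lit 1) (nat_lit 0x80019164e81))))) (.nd (nat_lit 19) 
(.nd (nat_lit 29) (.lf (nat_lit 335938593) (dlOf (nat_lit 1) (nat_lit 0x3c002000600080e2882))) 
(.lf (nat_lit 4094034977) (dlOf (nat_lit 1) (nat_lit 0x1c0018002881)))) (.nd (nat_lit 8) 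
(.lf (nat_lit 4095608353) (dlOf (nat_lit 2) (nat_lit 0x80560000002000200280e3701))) 
(.lf (nat_lit 4095608097) (dlOf (nat_lit 1) (nat_lit 0x4004000200080e3102)))))))) (.nd (nat_lit 6) 
(.nd (nat_lit 10) (.nd (nat_lit 19) (.nd (nat_lit 20) (.nd (nat_lit 26) 
(.lf (nat_lit 1881538593) (dlOf (nat_lit 1) (nat_lit 0x20004001c0008f40182))) 
(.lf (nat_lit 2753953825) (dlOf (nat_lit 2) (nat_lit 0x12043805c4c0801000080004002002200080a0903)))) 
(.lf (nat_lit 16121889) (dlOf (nat_lit 1) (nat_lit 0x40018870601)))) (.nd (nat_lit 11) 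
(.nd (nat_lit 22) (.lf (nat_lit 3493724193) (dlOf (nat_lit 1) (nat_lit 0x4002000200081b0002))) 
(.lf (nat_lit 25034785) (dlOf (nat_lit 1) (nat_lit 0x28002002e0008be0b02)))) 
(.lf (nat_lit 3492681761) (dlOf (nat_lit 1) (nat_lit 0x400180fa601))))) (.nd (nat_lit 7) 
(.nd (nat_lit 9) (.nd (nat_lit 23) 
(.lf (nat_lit 36570145) (dlOf (nat_lit 1) (nat_lit 0x20029072881))) 
(.lf (nat_lit 61735969) (dlOf (nat_lit 1) (nat_lit 0x80080040002000a0009922883)))) 
(.lf (nat_lit 8259105) (dlOf (nat_lit 1) (nat_lit 0x400400020008513702)))) (.nd (nat_lit 8) 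
(.lf (nat_lit 19799201) (dlOf (nat_lit 1) (nat_lit 0x4004000200089dc202))) 
(.lf (nat_lit 19797409) (dlOf (nat_lit 1) (nat_lit 0x300080014002000600089d9903)))))) 
(.nd (nat_lit 7) (.nd (nat_lit 24) (.nd (nat_lit 19) (.nd (nat_lit 26) 
(.lf (nat_lit 2490465) (dlOf (nat_lit 1) (nat_lit 0x28008000800200080008161283))) 
(.lf (nat_lit 2753953889) (dlOf (nat_lit 4) (nat_lit 0x810e0001c0200020870000b81000203d80000c0801200080084002003400080a1283)))) 
(.lf (nat_lit 4096655457) (dlOf (nat_lit 1) (nat_lit 0x400400020008151a82)))) (.nd (nat_lit 8) 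
(.lf (nat_lit 61736545) (dlOf (nat_lit 3) (nat_lit 0xd48a0004a330001982001952d800000080420008006400200040009923903))) 
(.nd (nat_lit 10) (.lf (nat_lit 19792225) (dlOf (nat_lit 1) (nat_lit 0x80080004002000200089d0e83))) 
(.lf (nat_lit 19799393) (dlOf (nat_lit 1) (nat_lit 0x200289dc901)))))) (.nd (nat_lit 9) 
(.nd (nat_lit 10) (.lf (nat_lit 19792097) (dlOf (nat_lit 1) (nat_lit 0x4004000200089d0a82))) 
(.lf (nat_lit 19797217) (dlOf (nat_lit 1) (nat_lit 0x4002000200089d9502)))) (.nd (nat_lit 8) 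
(.nd (nat_lit 19) (.lf (nat_lit 20323041) (dlOf (nat_lit 1) (nat_lit 0x8002000200089db982))) 
(.lf (nat_lit 19798753) (dlOf (nat_lit 1) (nat_lit 0x300080008002000400089db983)))) 
(.lf (nat_lit 8261601) (dlOf (nat_lit 1) (nat_lit 0x400200020008517a82))))))))) (.nd (nat_lit 18) 
(.nd (nat_lit 6) (.nd (nat_lit 26) (.nd (nat_lit 19) (.nd (nat_lit 7) (.nd (nat_lit 22) 
(.nd (nat_lit 9) (.nd (nat_lit 20) 
(.lf (nat_lit 4160888865) (dlOf (nat_lit 1) (nat_lit 0x28008000400200080008060503))) 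
(.lf (nat_lit 17965089) (dlOf (nat_lit 1) (nat_lit 0x8008002000200020008900a83)))) 
(.lf (nat_lit 805449249) (dlOf (nat_lit 2) (nat_lit 0x1401c000df0200060028117181)))) 
(.nd (nat_lit 8) (.lf (nat_lit 14819361) (dlOf (nat_lit 1) (nat_lit 0x20028780601))) 
(.lf (nat_lit 4333857) (dlOf (nat_lit 1) (nat_lit 0x20018290701))))) (.nd (nat_lit 27) 
(.nd (nat_lit 11) (.lf (nat_lit 5637285281) (dlOf (nat_lit 1) (nat_lit 0x4a00280d3601))) 
(.nd (nat_lit 12) (.lf (nat_lit 3221368225) (dlOf (nat_lit 1) (nat_lit 0x400400020008116d02))) 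
(.lf (nat_lit 3221372321) (dlOf (nat_lit 1) (nat_lit 0x580020010000811cb02))))) (.nd (nat_lit 8) 
(.lf (nat_lit 134360225) (dlOf (nat_lit 2) (nat_lit 0x48082000470200080018006281))) 
(.lf (nat_lit 134359457) (dlOf (nat_lit 2) (nat_lit 0x4094017310200020018004e81)))))) 
(.nd (nat_lit 20) (.nd (nat_lit 22) (.nd (nat_lit 10) 
(.lf (nat_lit 134881313) (dlOf (nat_lit 2) (nat_lit 0x403a000801a800a004c000000c0004004000200080d0882))) 
(.lf (nat_lit 1611277345) (dlOf (nat_lit 1) (nat_lit 0x300080024002000c0008122883)))) 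
(.nd (nat_lit 21) (.lf (nat_lit 21635105) (dlOf (nat_lit 1) (nat_lit 0x8008000400200020008a50783))) 
(.lf (nat_lit 48898081) (dlOf (nat_lit 2) (nat_lit 0x15d2c80001c04000800200020009440182))))) 
(.nd (nat_lit 21) (.lf (nat_lit 10100769) (dlOf (nat_lit 1) (nat_lit 0x80080004002000200085b0483))) 
(.nd (nat_lit 28) (.lf (nat_lit 3809313) (dlOf (nat_lit 2) (nat_lit 0xc1b2000130200040028230801))) 
(.lf (nat_lit 3493470241) (dlOf (nat_lit 2) (nat_lit 0x403800013818140c00))))))) (.nd (nat_lit 27) 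
(.nd (nat_lit 7) (.nd (nat_lit 19) (.nd (nat_lit 9) 
(.lf (nat_lit 2214731809) (dlOf (nat_lit 3) (nat_lit 0x11802e0005e02008e0170002d818080500))) 
(.lf (nat_lit 1946296865) (dlOf (nat_lit 2) (nat_lit 0x780a40000004003800400220008017f02)))) 
(.nd (nat_lit 20) 
(.lf (nat_lit 4362739745) (dlOf (nat_lit 3) (nat_lit 0x1802780005c0800c813c00024040170004000c00080e0b02))) 
(.lf (nat_lit 2755272737) (dlOf (nat_lit 2) (nat_lit 0x403800013818140c00))))) (.nd (nat_lit 8) 
(.nd (nat_lit 10) 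
(.lf (nat_lit 2753700001) (dlOf (nat_lit 1) (nat_lit 0x30008000400200040008090203))) 
(.lf (nat_lit 1409432737) (dlOf (nat_lit 1) (nat_lit 0x4001800c201)))) 
(.lf (nat_lit 1677862817) (dlOf (nat_lit 1) (nat_lit 0x580028114281))))) (.nd (nat_lit 19) 
(.nd (nat_lit 8) (.nd (nat_lit 7) 
(.lf (nat_lit 3422691361) (dlOf (nat_lit 1) (nat_lit 0x8008009400200020008060503))) 
(.lf (nat_lit 2617390241) (dlOf (nat_lit 1) (nat_lit 0x200180a9501)))) (.nd (nat_lit 9) 
(.lf (nat_lit 2617390369) (dlOf (nat_lit 1) (nat_lit 0x10002000200080a9782))) 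
(.lf (nat_lit 738339617) (dlOf (nat_lit 1) (nat_lit 0xc00200020008095c02))))) (.nd (nat_lit 29) 
(.nd (nat_lit 21) 
(.lf (nat_lit 201990177) (dlOf (nat_lit 2) (nat_lit 0x403a000801a800a004c000000c0004004000200080d0882))) 
(.lf (nat_lit 472522785) (dlOf (nat_lit 2) (nat_lit 0x2d0b18000d80800200080108002005000089b0683)))) 
(.nd (nat_lit 30) 
(.lf (nat_lit 3154780193) (dlOf (nat_lit 2) (nat_lit 0x480900000004002000400220008320c82))) 
(.lf (nat_lit 4228522017) (dlOf (nat_lit 3) (nat_lit 0x1802400005c0800c812000024040170004000c00080e0b02)))))))) 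
(.nd (nat_lit 7) (.nd (nat_lit 8) (.nd (nat_lit 19) (.nd (nat_lit 12) 
(.lf (nat_lit 6107045985) (dlOf (nat_lit 1) (nat_lit 0x3ac004017e0008040782))) 
(.lf (nat_lit 20066401) (dlOf (nat_lit 1) (nat_lit 0x4002000200089d7d82)))) (.nd (nat_lit 9) 
(.nd (nat_lit 26) 
(.lf (nat_lit 537534561) (dlOf (nat_lit 9) (nat_lit 0x1d81d001500d600e00520001203004802c001800fc0004008004c0b00001d0200280580000e01007f02c000701440008064000170600020580000b01000102c000054080058160000000400b800400a800180a1282))) 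
(.lf (nat_lit 1409949793) (dlOf (nat_lit 1) (nat_lit 0x1a80080088002004000080a1383)))) 
(.lf (nat_lit 8005217) (dlOf (nat_lit 2) (nat_lit 0x455400016818513900))))) (.nd (nat_lit 29) 
(.nd (nat_lit 10) (.nd (nat_lit 11) 
(.lf (nat_lit 13771105) (dlOf (nat_lit 1) (nat_lit 0x400400020008750902))) 
(.lf (nat_lit 3221367137) (dlOf (nat_lit 1) (nat_lit 0x40008114e81)))) 
(.lf (nat_lit 3490327905) (dlOf (nat_lit 1) (nat_lit 0x380008006a81)))) (.nd (nat_lit 9) 
(.nd (nat_lit 11) 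
(.lf (nat_lit 1744970081) (dlOf (nat_lit 1) (nat_lit 0x18008000400200020008090e83))) 
(.lf (nat_lit 1677867361) (dlOf (nat_lit 1) (nat_lit 0x100008004c0020004000811ab83)))) 
(.lf (nat_lit 6241266529) (dlOf (nat_lit 1) (nat_lit 0x44002003e00080d5c02)))))) (.nd (nat_lit 9) 
(.nd (nat_lit 23) (.nd (nat_lit 10) (.nd (nat_lit 19) 
(.lf (nat_lit 7479521) (dlOf (nat_lit 2) (nat_lit 0x1688d000148184b0580))) 
(.lf (nat_lit 1343889633) (dlOf (nat_lit 3) (nat_lit 0xe0b28000840800d85940003a04003c004001e0008370582)))) 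
(.lf (nat_lit 20067553) (dlOf (nat_lit 1) (nat_lit 0x4002000200089d9502)))) (.nd (nat_lit 8) 
(.nd (nat_lit 19) (.lf (nat_lit 44179681) (dlOf (nat_lit 1) (nat_lit 0x4004001400092d1a82))) 
(.lf (nat_lit 28975329) (dlOf (nat_lit 2) (nat_lit 0x4cec00000018da0580)))) 
(.lf (nat_lit 9576929) (dlOf (nat_lit 1) (nat_lit 0x8008000400200020008577d03))))) (.nd (nat_lit 8) 
(.nd (nat_lit 12) (.nd (nat_lit 19) 
(.lf (nat_lit 4093782753) (dlOf (nat_lit 1) (nat_lit 0x400200020008005982))) 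
(.lf (nat_lit 57289441) (dlOf (nat_lit 1) (nat_lit 0x400200020009795982)))) 
(.lf (nat_lit 20069089) (dlOf (nat_lit 1) (nat_lit 0x80080008002000200089db983)))) 
(.nd (nat_lit 22) (.nd (nat_lit 10) 
(.lf (nat_lit 2818712545) (dlOf (nat_lit 2) (nat_lit 0x58034004d6040004004000200180d2882))) 
(.lf (nat_lit 2751608801) (dlOf (nat_lit 1) (nat_lit 0x140020002000800a602)))) (.nd (nat_lit 21) 
(.lf (nat_lit 474096609) (dlOf (nat_lit 1) (nat_lit 0x130008004800200360009082883))) 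
(.lf (nat_lit 48374753) (dlOf (nat_lit 1) (nat_lit 0x20019402881))))))))) (.nd (nat_lit 26) 
(.nd (nat_lit 21) (.nd (nat_lit 28) (.nd (nat_lit 20) (.nd (nat_lit 27) (.nd (nat_lit 19) 
(.lf (nat_lit 6442852385) (dlOf (nat_lit 1) (nat_lit 0xe0008002c002001200081e0783))) 
(.lf (nat_lit 42868769) (dlOf (nat_lit 2) (nat_lit 0x2a6300001c04000c00200040009280182)))) 
(.nd (nat_lit 9) (.nd (nat_lit 29) 
(.lf (nat_lit 3355844641) (dlOf (nat_lit 2) (nat_lit 0x160158001840800a00080040002005a0008120503))) 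
(.lf (nat_lit 3892715553) (dlOf (nat_lit 2) (nat_lit 0x1e702a004301440230098014c03300290028003002804080080234002000400081d0603)))) 
(.lf (nat_lit 134619681) (dlOf (nat_lit 2) (nat_lit 0xb20410000b818090d80))))) (.nd (nat_lit 6) 
(.nd (nat_lit 24) 
(.lf (nat_lit 9838625) (dlOf (nat_lit 4) (nat_lit 0x7887300398376017a19c000230300be0e6005886ec02203380092000000228400b60e6005486ec0200338000380600020028580181))) 
(.lf (nat_lit 26615841) (dlOf (nat_lit 5) (nat_lit 0x11a7a800a4e84005c0000000b0600094f500159d08000241000200000000e0400569ea00092fc000d0000000001800a8008023000200600008c50183)))) 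
(.lf (nat_lit 6168801) (dlOf (nat_lit 3) (nat_lit 0x24bac000e4cc0000a810000a66000052040098004002e0018420582))))) 
(.nd (nat_lit 31) (.nd (nat_lit 30) (.nd (nat_lit 27) 
(.lf (nat_lit 805707809) (dlOf (nat_lit 1) (nat_lit 0x10008004800200040008190703))) 
(.lf (nat_lit 4698021921) (dlOf (nat_lit 2) (nat_lit 0x140520002502000200180e0781)))) 
(.nd (nat_lit 20) (.nd (nat_lit 22) 
(.lf (nat_lit 5637546017) (dlOf (nat_lit 8) (nat_lit 0xe804c000201d00023020014013000114080080098002c04a0004018000218300020128001080800200600007604004c0480026019000500c0000e01800200600006604003400200320008100182))) 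
(.lf (nat_lit 1346773025) (dlOf (nat_lit 2) (nat_lit 0x14e15600a10a1802504ec027019a0092085004803a8000f83000e0008000c00200200009000183)))) 
(.lf (nat_lit 1343627297) (dlOf (nat_lit 3) (nat_lit 0xc16200080a10033f0200060588003028400cfa080008002002a00082c0682))))) 
(.nd (nat_lit 7) (.nd (nat_lit 22) 
(.lf (nat_lit 4026933281) (dlOf (nat_lit 2) (nat_lit 0x1006401d6502000c00080d0881))) 
(.lf (nat_lit 3494256673) (dlOf (nat_lit 1) (nat_lit 0x4004000400181e0782)))) 
(.lf (nat_lit 3490587041) (dlOf (nat_lit 1) (nat_lit 0x2c004001c0008016b82)))))) (.nd (nat_lit 6) 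
(.nd (nat_lit 7) (.nd (nat_lit 10) (.nd (nat_lit 20) 
(.lf (nat_lit 48635937) (dlOf (nat_lit 2) (nat_lit 0x769d8000f8080008008003400200060009420183))) 
(.lf (nat_lit 16130081) (dlOf (nat_lit 1) (nat_lit 0x40018870601)))) 
(.lf (nat_lit 1346249761) (dlOf (nat_lit 1) (nat_lit 0x60028e82881)))) (.nd (nat_lit 8) 
(.lf (nat_lit 23994529) (dlOf (nat_lit 1) (nat_lit 0x400400020008b80202))) 
(.lf (nat_lit 19807137) (dlOf (nat_lit 1) (nat_lit 0x200289dbc81))))) (.nd (nat_lit 7) 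
(.nd (nat_lit 8) (.nd (nat_lit 9) 
(.lf (nat_lit 48636001) (dlOf (nat_lit 1) (nat_lit 0x20029420901))) 
(.lf (nat_lit 19800673) (dlOf (nat_lit 1) (nat_lit 0x400189d1701)))) 
(.lf (nat_lit 57026913) (dlOf (nat_lit 1) (nat_lit 0x40019794e81)))) (.nd (nat_lit 9) 
(.lf (nat_lit 19807457) (dlOf (nat_lit 1) (nat_lit 0x600289dc501))) 
(.lf (nat_lit 20331233) (dlOf (nat_lit 1) (nat_lit 0x8002000200089db982))))))) (.nd (nat_lit 31) 
(.nd (nat_lit 28) (.nd (nat_lit 32) (.nd (nat_lit 19) 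
(.lf (nat_lit 1678123041) (dlOf (nat_lit 1) (nat_lit 0x10008004800200040008190703))) 
(.lf (nat_lit 68034593) (dlOf (nat_lit 2) (nat_lit 0x50530000f0040020004000c00083a0502)))) 
(.nd (nat_lit 6) 
(.lf (nat_lit 4362477857) (dlOf (nat_lit 1) (nat_lit 0x40008003400200160008090503))) 
(.lf (nat_lit 4362477665) (dlOf (nat_lit 1) (nat_lit 0x12000400240008090002))))) (.nd (nat_lit 20) 
(.nd (nat_lit 27) 
(.lf (nat_lit 6241525793) (dlOf (nat_lit 8) (nat_lit 0xe804e000201d0002302001401380011408008009c002c04c0004018000218300020130001080800200600007604004c04a0026019000500c0000e01800200600006604003400200320008100182))) 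
(.lf (nat_lit 5838872609) (dlOf (nat_lit 6) (nat_lit 0x4064001402f0000a82000101a000100c400026080440068019e0310000902001701a000f80c4000100800180640000502000600181e0801)))) 
(.lf (nat_lit 471212065) (dlOf (nat_lit 2) (nat_lit 0x403f0019f80800280080018002002000082c0683))))) 
(.nd (nat_lit 6) (.nd (nat_lit 8) (.nd (nat_lit 22) (.nd (nat_lit 27) 
(.lf (nat_lit 3288735777) (dlOf (nat_lit 2) (nat_lit 0x1006401a0002000c00080d0881))) 
(.lf (nat_lit 3154518049) (dlOf (nat_lit 2) (nat_lit 0x330288002c808006800800b0002000800081f0603)))) 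
(.lf (nat_lit 2756059169) (dlOf (nat_lit 2) (nat_lit 0x180e40000a040034002000a00081e0802)))) 
(.nd (nat_lit 19) 
(.lf (nat_lit 4228260129) (dlOf (nat_lit 1) (nat_lit 0x40008003400200160008090503))) 
(.lf (nat_lit 2752389409) (dlOf (nat_lit 1) (nat_lit 0xc00400120018014282))))) (.nd (nat_lit 7) 
(.nd (nat_lit 11) 
(.lf (nat_lit 4096140897) (dlOf (nat_lit 1) (nat_lit 0xa80080004002000200080e3903))) 
(.lf (nat_lit 2754489953) (dlOf (nat_lit 1) (nat_lit 0x1200280f7181)))) (.nd (nat_lit 8) 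
(.lf (nat_lit 2755013857) (dlOf (nat_lit 4) (nat_lit 0x108a8001442a0003504000422b000611500020874000442a0003408000622a000210e8000a81000400080034002001a00080f6503))) 
(.lf (nat_lit 2752389601) (dlOf (nat_lit 1) (nat_lit 0x8008000400200020008017d03))))))))))) 
(.nd (nat_lit 6) (.nd (nat_lit 5) (.nd (nat_lit 18) (.nd (nat_lit 28) (.nd (nat_lit 19) 
(.nd (nat_lit 9) (.nd (nat_lit 13) (.nd (nat_lit 20) (.nd (nat_lit 7) (.nd (nat_lit 25) 
(.lf (nat_lit 10682369) (dlOf (nat_lit 1) (nat_lit 0x28008000800200060008610003))) 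
(.lf (nat_lit 44236801) (dlOf (nat_lit 1) (nat_lit 0x8004000200092e0002)))) 
(.lf (nat_lit 5905778817) (dlOf (nat_lit 1) (nat_lit 0x20018144781)))) (.nd (nat_lit 10) 
(.lf (nat_lit 11730945) (dlOf (nat_lit 1) (nat_lit 0x200186c0001))) 
(.lf (nat_lit 43189249) (dlOf (nat_lit 1) (nat_lit 0xc00192a2881))))) (.nd (nat_lit 26) 
(.nd (nat_lit 7) (.nd (nat_lit 20) 
(.lf (nat_lit 23273473) (dlOf (nat_lit 1) (nat_lit 0x8008000400200020008b70003))) 
(.lf (nat_lit 47390721) (dlOf (nat_lit 1) (nat_lit 0x4002000200093e0002)))) 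
(.lf (nat_lit 2684564609) (dlOf (nat_lit 1) (nat_lit 0x10002000800080a9502)))) (.nd (nat_lit 10) 
(.nd (nat_lit 27) 
(.lf (nat_lit 604184577) (dlOf (nat_lit 2) (nat_lit 0x680d800bfa04000400400020008080002))) 
(.lf (nat_lit 4496498689) (dlOf (nat_lit 2) (nat_lit 0x50038001201b000a00c0068a418014000800c8002010c0008090003)))) 
(.lf (nat_lit 3959628801) (dlOf (nat_lit 2) (nat_lit 0x6800002bac04001400200020008112882)))))) 
(.nd (nat_lit 26) (.nd (nat_lit 10) 
(.lf (nat_lit 9634305) (dlOf (nat_lit 1) (nat_lit 0x360008577f01))) (.nd (nat_lit 12) 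
(.lf (nat_lit 43189761) (dlOf (nat_lit 1) (nat_lit 0x600292a3681))) 
(.lf (nat_lit 3355653633) (dlOf (nat_lit 1) (nat_lit 0x200280a9c01))))) (.nd (nat_lit 31) 
(.nd (nat_lit 7) (.nd (nat_lit 27) 
(.lf (nat_lit 4362273281) (dlOf (nat_lit 2) (nat_lit 0x180000008a04014800200160008017f02))) 
(.lf (nat_lit 201523713) (dlOf (nat_lit 1) (nat_lit 0x20028017f01)))) 
(.lf (nat_lit 6107105921) (dlOf (nat_lit 1) (nat_lit 0x20018095481)))) (.nd (nat_lit 13) 
(.lf (nat_lit 2349007361) (dlOf (nat_lit 1) (nat_lit 0x20028090d81))) 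
(.lf (nat_lit 2349015553) (dlOf (nat_lit 1) (nat_lit 0x20028090d81))))))) (.nd (nat_lit 22) 
(.nd (nat_lit 13) (.nd (nat_lit 7) (.nd (nat_lit 23) (.nd (nat_lit 26) 
(.lf (nat_lit 134938625) (dlOf (nat_lit 1) (nat_lit 0x220004005c00080e0002))) 
(.lf (nat_lit 202047489) (dlOf (nat_lit 1) (nat_lit 0x220004005c00080e0002)))) 
(.lf (nat_lit 9109505) (dlOf (nat_lit 1) (nat_lit 0x8008000400200020008520003)))) (.nd (nat_lit 8) 
(.lf (nat_lit 36372609) (dlOf (nat_lit 1) (nat_lit 0x20019070301))) 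
(.lf (nat_lit 2753233281) (dlOf (nat_lit 10) (nat_lit 0x1087e0019700400843f000cb70200421f80065a8100210fc0032cc0800287e0019620400103f000caf0200261f8006540100210fc0032980800507e00194a04000400400020008090782))))) 
(.nd (nat_lit 7) (.nd (nat_lit 20) (.nd (nat_lit 26) 
(.lf (nat_lit 134946817) (dlOf (nat_lit 3) (nat_lit 0x200e8011b404007406c0071502006c00280e0001))) 
(.lf (nat_lit 202055681) (dlOf (nat_lit 3) (nat_lit 0x200e801afc04007406c00cbf02006c00280e0001)))) 
(.lf (nat_lit 26943489) (dlOf (nat_lit 1) (nat_lit 0x120008c90001)))) (.nd (nat_lit 8) 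
(.lf (nat_lit 738926721) (dlOf (nat_lit 1) (nat_lit 0x2fc00402120008143a02))) 
(.lf (nat_lit 2753241473) (dlOf (nat_lit 1) (nat_lit 0xa0008090781)))))) (.nd (nat_lit 8) 
(.nd (nat_lit 21) (.nd (nat_lit 13) 
(.lf (nat_lit 21692417) (dlOf (nat_lit 5) (nat_lit 0x33b540013da60005ed00006750c010ca100033b54000bda60007ed00004750c010c810002fb540011da6000aed00005f50c010c610002fb54000bda6000aed00004750c010c010001800200080008a60002))) 
(.lf (nat_lit 21700609) (dlOf (nat_lit 4) (nat_lit 0xf50c010ca04001fb400005d4300432020001ea18021800800c80080030002001a0008a60003)))) 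
(.nd (nat_lit 20) (.lf (nat_lit 32178177) (dlOf (nat_lit 1) (nat_lit 0x1a0028ef0001))) 
(.lf (nat_lit 24838145) (dlOf (nat_lit 1) (nat_lit 0x20018bc0001))))) (.nd (nat_lit 9) 
(.nd (nat_lit 7) (.lf (nat_lit 46866689) (dlOf (nat_lit 1) (nat_lit 0x2c00200080009380a82))) 
(.lf (nat_lit 8067457) (dlOf (nat_lit 1) (nat_lit 0x2002851af81)))) (.nd (nat_lit 10) 
(.lf (nat_lit 57346817) (dlOf (nat_lit 1) (nat_lit 0x20029795a81))) 
(.lf (nat_lit 8066817) (dlOf (nat_lit 1) (nat_lit 0x2002851a001)))))))) (.nd (nat_lit 27) 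
(.nd (nat_lit 31) (.nd (nat_lit 29) (.nd (nat_lit 32) (.nd (nat_lit 19) (.nd (nat_lit 20) 
(.lf (nat_lit 1346568193) (dlOf (nat_lit 1) (nat_lit 0x520028fd0001))) 
(.lf (nat_lit 1343422465) (dlOf (nat_lit 1) (nat_lit 0x100028230001)))) 
(.lf (nat_lit 1342898177) (dlOf (nat_lit 1) (nat_lit 0x400400020008100002)))) (.nd (nat_lit 7) 
(.lf (nat_lit 5704450049) (dlOf (nat_lit 5) (nat_lit 0x7900c0032e80800100600193c04016c03000c9d02010c019006b00c0000001002e0008008c002006e0008080003))) 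
(.lf (nat_lit 5637342849) (dlOf (nat_lit 1) (nat_lit 0x108002002600080d3982))))) (.nd (nat_lit 7) 
(.nd (nat_lit 30) (.lf (nat_lit 5100470273) (dlOf (nat_lit 1) (nat_lit 0x800400020018090002))) 
(.lf (nat_lit 1879244801) (dlOf (nat_lit 1) (nat_lit 0x5600180c0001)))) 
(.lf (nat_lit 1879253121) (dlOf (nat_lit 1) (nat_lit 0x400180c0101))))) (.nd (nat_lit 8) 
(.nd (nat_lit 9) (.lf (nat_lit 2952986625) (dlOf (nat_lit 1) (nat_lit 0x40018080001))) 
(.nd (nat_lit 13) (.lf (nat_lit 2483225089) (dlOf (nat_lit 1) (nat_lit 0x20028090d81))) 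
(.lf (nat_lit 2483233281) (dlOf (nat_lit 1) (nat_lit 0x20028090d81))))) (.nd (nat_lit 7) 
(.lf (nat_lit 3489869057) (dlOf (nat_lit 1) (nat_lit 0x400200040008006602))) 
(.lf (nat_lit 3489868161) (dlOf (nat_lit 1) (nat_lit 0x23400401880008004e82)))))) (.nd (nat_lit 19) 
(.nd (nat_lit 26) (.nd (nat_lit 7) (.nd (nat_lit 30) 
(.lf (nat_lit 5234688001) (dlOf (nat_lit 1) (nat_lit 0x20028090001))) 
(.lf (nat_lit 6308429825) (dlOf (nat_lit 5) (nat_lit 0x7900c001c4408001006000dea04016c030006f402010c019006b00c0000001002e0008008c002006e0008080003)))) 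
(.lf (nat_lit 3624077697) (dlOf (nat_lit 1) (nat_lit 0x1620028144e81)))) (.nd (nat_lit 13) 
(.nd (nat_lit 21) (.lf (nat_lit 1006829569) (dlOf (nat_lit 1) (nat_lit 0x5600180c0001))) 
(.lf (nat_lit 1008926721) (dlOf (nat_lit 1) (nat_lit 0x20008fe0001)))) (.nd (nat_lit 7) 
(.lf (nat_lit 3691192321) (dlOf (nat_lit 1) (nat_lit 0x400180a0001))) 
(.lf (nat_lit 1006837889) (dlOf (nat_lit 1) (nat_lit 0x400180c0101)))))) (.nd (nat_lit 13) 
(.nd (nat_lit 20) (.nd (nat_lit 21) 
(.lf (nat_lit 470482945) (dlOf (nat_lit 1) (nat_lit 0x400400020008100002))) 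
(.lf (nat_lit 472580097) (dlOf (nat_lit 2) (nat_lit 0x3d00f800cb902000200189c0001)))) 
(.lf (nat_lit 5773131777) (dlOf (nat_lit 1) (nat_lit 0xa80080084002000a00080a0003)))) 
(.nd (nat_lit 9) (.lf (nat_lit 3154845697) (dlOf (nat_lit 1) (nat_lit 0x800400040008350002))) 
(.lf (nat_lit 6378168833) (dlOf (nat_lit 1) (nat_lit 0x10008000800200020008117b03)))))))) 
(.nd (nat_lit 13) (.nd (nat_lit 7) (.nd (nat_lit 28) (.nd (nat_lit 9) (.nd (nat_lit 21) 
(.nd (nat_lit 24) (.lf (nat_lit 9895937) (dlOf (nat_lit 2) (nat_lit 0x4ce2000a65000e8f828590000))) 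
(.lf (nat_lit 26673153) (dlOf (nat_lit 1) (nat_lit 0x400200020008c50002)))) (.nd (nat_lit 20) 
(.lf (nat_lit 2555905) (dlOf (nat_lit 5) (nat_lit 0x54b80002a52000551e800328ac037561000094b80006a52000351e800228ac037541000194b8000ca52000651e800328ac037501000154b8000ca52000651e800328ac0374c10000800200120008170002))) 
(.lf (nat_lit 37158913) (dlOf (nat_lit 1) (nat_lit 0x200090b0001))))) (.nd (nat_lit 20) 
(.nd (nat_lit 26) 
(.lf (nat_lit 134676993) (dlOf (nat_lit 1) (nat_lit 0x240008008c002009c0008090d83))) 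
(.lf (nat_lit 201785857) (dlOf (nat_lit 1) (nat_lit 0x240008008c002009c0008090d83)))) 
(.lf (nat_lit 58130945) (dlOf (nat_lit 6) (nat_lit 0x21b094010b8490071bf500285fa4002c010021b094010b84900071820060d08804ae1080267080000d7d80071be98001c42804ae108028708000e37d30003283000ac2100018c0801a800803d4002028a00097c7b03))))) 
(.nd (nat_lit 19) (.nd (nat_lit 29) (.nd (nat_lit 26) 
(.lf (nat_lit 5637603329) (dlOf (nat_lit 1) (nat_lit 0x20028120001))) 
(.lf (nat_lit 3557228545) (dlOf (nat_lit 1) (nat_lit 0x188008004800200260008170003)))) 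
(.nd (nat_lit 8) (.lf (nat_lit 6241583105) (dlOf (nat_lit 1) (nat_lit 0x20028120001))) 
(.lf (nat_lit 4096197889) (dlOf (nat_lit 1) (nat_lit 0x80080014002000200080e2f03))))) 
(.nd (nat_lit 10) (.nd (nat_lit 11) 
(.lf (nat_lit 470745089) (dlOf (nat_lit 1) (nat_lit 0x40008170001))) 
(.lf (nat_lit 3492743169) (dlOf (nat_lit 1) (nat_lit 0x4004000200080f4702)))) 
(.lf (nat_lit 3492742145) (dlOf (nat_lit 1) (nat_lit 0x4002000200080f2882)))))) (.nd (nat_lit 19) 
(.nd (nat_lit 21) (.nd (nat_lit 8) (.nd (nat_lit 26) 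
(.lf (nat_lit 537329793) (dlOf (nat_lit 2) (nat_lit 0x601640000004004000400120018090102))) 
(.lf (nat_lit 1409745025) (dlOf (nat_lit 2) (nat_lit 0x601640000004004000400120018090102)))) 
(.lf (nat_lit 3959882113) (dlOf (nat_lit 1) (nat_lit 0x8008000400200020008170783)))) 
(.nd (nat_lit 8) (.nd (nat_lit 20) 
(.lf (nat_lit 23527553) (dlOf (nat_lit 1) (nat_lit 0x400200020008b80102))) 
(.lf (nat_lit 11993217) (dlOf (nat_lit 1) (nat_lit 0x80080004002000200086c0103)))) 
(.lf (nat_lit 41355649) (dlOf (nat_lit 1) (nat_lit 0x400200020009244e82))))) (.nd (nat_lit 20) 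
(.nd (nat_lit 9) (.lf (nat_lit 3080321) (dlOf (nat_lit 1) (nat_lit 0x100008200101))) 
(.lf (nat_lit 19862145) (dlOf (nat_lit 1) (nat_lit 0x1a00289d8b01)))) (.nd (nat_lit 26) 
(.nd (nat_lit 28) (.lf (nat_lit 2031745) (dlOf (nat_lit 1) (nat_lit 0x400200020008150102))) 
(.lf (nat_lit 1344209025) (dlOf (nat_lit 1) (nat_lit 0x8008000400200020008490103)))) 
(.lf (nat_lit 471793793) (dlOf (nat_lit 1) (nat_lit 0x8008000400200020008490103))))))) 
(.nd (nat_lit 21) (.nd (nat_lit 20) (.nd (nat_lit 26) (.nd (nat_lit 22) 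
(.lf (nat_lit 6442917889) (dlOf (nat_lit 1) (nat_lit 0x40008220001))) (.nd (nat_lit 23) 
(.lf (nat_lit 21438465) (dlOf (nat_lit 1) (nat_lit 0x400400020008a40002))) 
(.lf (nat_lit 13049857) (dlOf (nat_lit 1) (nat_lit 0x4004000200086f0002))))) (.nd (nat_lit 29) 
(.nd (nat_lit 27) 
(.lf (nat_lit 3557236737) (dlOf (nat_lit 2) (nat_lit 0xc04401a450200040028170001))) 
(.lf (nat_lit 5838938113) (dlOf (nat_lit 1) (nat_lit 0x40008220001)))) (.nd (nat_lit 8) 
(.lf (nat_lit 6376333313) (dlOf (nat_lit 1) (nat_lit 0x38008003000200700008090003))) 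
(.lf (nat_lit 6375810305) (dlOf (nat_lit 3) (nat_lit 0x808800048040010044000230200080018002f01)))))) 
(.nd (nat_lit 7) (.nd (nat_lit 23) (.nd (nat_lit 24) 
(.lf (nat_lit 35069953) (dlOf (nat_lit 1) (nat_lit 0x80018fd0001))) 
(.lf (nat_lit 18292737) (dlOf (nat_lit 2) (nat_lit 0x6f19c000000400ac00400220018920002)))) 
(.lf (nat_lit 9904129) (dlOf (nat_lit 4) (nat_lit 0x34f8001143cf00e8f82000dd148057700804568a402ba204002000200280008590002)))) 
(.lf (nat_lit 2039937) (dlOf (nat_lit 1) (nat_lit 0x8008000400200020008150103))))) 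
(.nd (nat_lit 28) (.nd (nat_lit 7) (.nd (nat_lit 9) 
(.lf (nat_lit 15147009) (dlOf (nat_lit 1) (nat_lit 0x400187c0001))) 
(.lf (nat_lit 2754555393) (dlOf (nat_lit 1) (nat_lit 0x250004008a00080f7002)))) (.nd (nat_lit 20) 
(.lf (nat_lit 23535745) (dlOf (nat_lit 1) (nat_lit 0x8008000800200020008b80103))) 
(.lf (nat_lit 12001409) (dlOf (nat_lit 1) (nat_lit 0x4002000200086c0102))))) (.nd (nat_lit 8) 
(.nd (nat_lit 10) (.lf (nat_lit 4096729089) (dlOf (nat_lit 1) (nat_lit 0x400200020008160002))) 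
(.lf (nat_lit 1344742401) (dlOf (nat_lit 1) (nat_lit 0x800200020008982882)))) 
(.lf (nat_lit 1881612545) (dlOf (nat_lit 1) (nat_lit 0xdc0018f60a81)))))))) (.nd (nat_lit 18) 
(.nd (nat_lit 13) (.nd (nat_lit 19) (.nd (nat_lit 26) (.nd (nat_lit 10) (.nd (nat_lit 27) 
(.nd (nat_lit 28) (.lf (nat_lit 1073938465) (dlOf (nat_lit 1) (nat_lit 0x1000200060008030982))) 
(.nd (nat_lit 30) 
(.lf (nat_lit 2952986657) (dlOf (nat_lit 1) (nat_lit 0x60008001800200140008080603))) 
(.lf (nat_lit 4026728481) (dlOf (nat_lit 1) (nat_lit 0x420028070681))))) (.nd (nat_lit 30) 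
(.lf (nat_lit 5234688033) (dlOf (nat_lit 1) (nat_lit 0xc002000a0008090782))) 
(.lf (nat_lit 6308429857) (dlOf (nat_lit 6) (nat_lit 0xd20180002381008f00c003d80200008c08015803000940080002282004700c0021002000070080008030000000200100028080181))))) 
(.nd (nat_lit 12) (.nd (nat_lit 27) 
(.lf (nat_lit 6711084321) (dlOf (nat_lit 1) (nat_lit 0x400400020008093102))) 
(.lf (nat_lit 2013463841) (dlOf (nat_lit 1) (nat_lit 0x200080034002000c0008093103)))) 
(.nd (nat_lit 8) (.lf (nat_lit 4160951841) (dlOf (nat_lit 1) (nat_lit 0x200180a9c01))) 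
(.lf (nat_lit 2281903393) (dlOf (nat_lit 3) (nat_lit 0x80130001281000200a0003804c00048080048004002400180a9782)))))) 
(.nd (nat_lit 27) (.nd (nat_lit 28) (.nd (nat_lit 8) 
(.lf (nat_lit 3288530977) (dlOf (nat_lit 1) (nat_lit 0x420028070681))) 
(.lf (nat_lit 3825402145) (dlOf (nat_lit 1) (nat_lit 0x280028154281)))) (.nd (nat_lit 29) 
(.lf (nat_lit 5704450081) (dlOf (nat_lit 6) (nat_lit 0xd20180002381008f00c003d80200008c08015803000940080002282004700c0021002000070080008030000000200100028080181))) 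
(.lf (nat_lit 1946353697) (dlOf (nat_lit 1) (nat_lit 0x1000200060008030982))))) (.nd (nat_lit 8) 
(.nd (nat_lit 9) 
(.lf (nat_lit 6375539745) (dlOf (nat_lit 1) (nat_lit 0x8008007c00200020008002883))) 
(.lf (nat_lit 1812136481) (dlOf (nat_lit 3) (nat_lit 0x90000013200801b80000000004004000200220008157f02)))) 
(.nd (nat_lit 10) 
(.lf (nat_lit 1812136225) (dlOf (nat_lit 4) (nat_lit 0x40058000a008002002c0004c0400280160002502000a0028154281))) 
(.lf (nat_lit 4764927265) (dlOf (nat_lit 1) (nat_lit 0x400400020008093102))))))) (.nd (nat_lit 20) 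
(.nd (nat_lit 21) (.nd (nat_lit 7) (.nd (nat_lit 22) 
(.lf (nat_lit 3557490721) (dlOf (nat_lit 2) (nat_lit 0x30240029a0080050008000800200020008220683))) 
(.lf (nat_lit 13303841) (dlOf (nat_lit 1) (nat_lit 0x20000800fc00200720008710b03)))) 
(.lf (nat_lit 3490385057) (dlOf (nat_lit 1) (nat_lit 0x40028006281)))) (.nd (nat_lit 26) 
(.lf (nat_lit 1344995361) (dlOf (nat_lit 2) (nat_lit 0x9c2c0003e14d001704e0000001801000080134002000400089b0683))) 
(.lf (nat_lit 472580129) (dlOf (nat_lit 6) (nat_lit 0x3a053401e00fa026407c0001383001103e00009808023047c0003c04002029a00ea07d011f03e0000481800081f4000200400cc002005000089c0182))))) 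
(.nd (nat_lit 10) (.nd (nat_lit 26) (.nd (nat_lit 27) (.nd (nat_lit 28) 
(.lf (nat_lit 1769505) (dlOf (nat_lit 1) (nat_lit 0x100028130681))) 
(.lf (nat_lit 1343946785) (dlOf (nat_lit 1) (nat_lit 0x20028380c81)))) 
(.lf (nat_lit 5773131809) (dlOf (nat_lit 1) (nat_lit 0x1600080a0781)))) 
(.lf (nat_lit 4095410209) (dlOf (nat_lit 2) (nat_lit 0x203a00004c0800080080008002000c00080b0b03)))) 
(.nd (nat_lit 21) (.lf (nat_lit 47907873) (dlOf (nat_lit 1) (nat_lit 0x8008000400200020009402883))) 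
(.nd (nat_lit 22) (.lf (nat_lit 1346044961) (dlOf (nat_lit 1) (nat_lit 0xc0004005c0018e22882))) 
(.lf (nat_lit 58393633) (dlOf (nat_lit 1) (nat_lit 0x480080018002000c00097e2883)))))))) 
(.nd (nat_lit 28) (.nd (nat_lit 29) (.nd (nat_lit 19) (.nd (nat_lit 20) (.nd (nat_lit 8) 
(.lf (nat_lit 52633633) (dlOf (nat_lit 2) (nat_lit 0x5751000e38b801659d2000380600060009560681))) 
(.lf (nat_lit 2281911585) (dlOf (nat_lit 3) (nat_lit 0x1005400100260002504000401500040098000901000500080018002000800080a9783)))) 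
(.nd (nat_lit 22) 
(.lf (nat_lit 18030625) (dlOf (nat_lit 1) (nat_lit 0x10008000400200020008900a83))) 
(.lf (nat_lit 30613537) (dlOf (nat_lit 1) (nat_lit 0x920028e40c81))))) (.nd (nat_lit 21) 
(.nd (nat_lit 23) 
(.lf (nat_lit 21700641) (dlOf (nat_lit 6) (nat_lit 0x50ccd0001b010016dd4800beca0000620800a199a0001502004fd9000002810031ebd000000080500008002000200020008a60b03))) 
(.lf (nat_lit 13312033) (dlOf (nat_lit 1) (nat_lit 0xc00400040008710b02)))) 
(.lf (nat_lit 27992097) (dlOf (nat_lit 1) (nat_lit 0x40018d50601))))) (.nd (nat_lit 7) 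
(.nd (nat_lit 9) (.nd (nat_lit 10) 
(.lf (nat_lit 604184609) (dlOf (nat_lit 4) (nat_lit 0x1200d80015004007406c000a0020084045001a01f8000001000c80080138002003c0008080603))) 
(.lf (nat_lit 537076769) (dlOf (nat_lit 1) (nat_lit 0x20028002881)))) 
(.lf (nat_lit 1611342369) (dlOf (nat_lit 1) (nat_lit 0x100008138701)))) (.nd (nat_lit 8) 
(.lf (nat_lit 2818781345) (dlOf (nat_lit 1) (nat_lit 0x980018127d81))) (.nd (nat_lit 11) 
(.lf (nat_lit 3892523425) (dlOf (nat_lit 1) (nat_lit 0xc0008158381))) 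
(.lf (nat_lit 2754816417) (dlOf (nat_lit 1) (nat_lit 0x200280f4e81))))))) (.nd (nat_lit 10) 
(.nd (nat_lit 19) (.nd (nat_lit 7) (.nd (nat_lit 26) 
(.lf (nat_lit 2952994849) (dlOf (nat_lit 14) (nat_lit 0xa280100508006000b50400e80040005a0100a40020052000c00164080460000000a8020098000000538100380000002840805d80000013c04037400801c0003000058200680020032800c0001408015400800a60030000482005e002002e000c0000a08035400801b80030000202001501380060094008c03800060040001001800600000000018026000200100008080602))) 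
(.lf (nat_lit 3691192353) (dlOf (nat_lit 1) (nat_lit 0x600080018002001400080a0603)))) 
(.lf (nat_lit 4697825697) (dlOf (nat_lit 1) (nat_lit 0x20028091001)))) (.nd (nat_lit 7) 
(.nd (nat_lit 20) 
(.lf (nat_lit 1345003553) (dlOf (nat_lit 2) (nat_lit 0x100ea0004302000400089b0681))) 
(.lf (nat_lit 4095418401) (dlOf (nat_lit 2) (nat_lit 0xb203a00004c080010008000c002000800080b0b03)))) 
(.lf (nat_lit 6377119905) (dlOf (nat_lit 1) (nat_lit 0x15400280a2b81))))) (.nd (nat_lit 27) 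
(.nd (nat_lit 7) (.nd (nat_lit 9) 
(.lf (nat_lit 1346053153) (dlOf (nat_lit 1) (nat_lit 0x3c00400060008e22882))) 
(.lf (nat_lit 5637350945) (dlOf (nat_lit 1) (nat_lit 0xc004000600080d3702)))) 
(.lf (nat_lit 3489873313) (dlOf (nat_lit 1) (nat_lit 0x4000800cb01)))) (.nd (nat_lit 9) 
(.nd (nat_lit 21) (.lf (nat_lit 6375547937) (dlOf (nat_lit 1) (nat_lit 0x80028002881))) 
(.lf (nat_lit 472065057) (dlOf (nat_lit 1) (nat_lit 0x80018802881)))) 
(.lf (nat_lit 4160960033) (dlOf (nat_lit 1) (nat_lit 0x200280a9c01)))))))) (.nd (nat_lit 13) 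
(.nd (nat_lit 19) (.nd (nat_lit 27) (.nd (nat_lit 26) (.nd (nat_lit 22) (.nd (nat_lit 20) 
(.lf (nat_lit 805765153) (dlOf (nat_lit 1) (nat_lit 0x600080008002001000081a0003))) 
(.lf (nat_lit 26673185) (dlOf (nat_lit 4) (nat_lit 0x410000000160400dc0000000a02002800000000018c50180)))) 
(.nd (nat_lit 21) (.lf (nat_lit 3494314017) (dlOf (nat_lit 2) (nat_lit 0x3220500018818200b00))) 
(.lf (nat_lit 15138849) (dlOf (nat_lit 1) (nat_lit 0x2000800e8002005400087c0603))))) 
(.nd (nat_lit 29) (.nd (nat_lit 28) 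
(.lf (nat_lit 4362534945) (dlOf (nat_lit 1) (nat_lit 0x350008000800200600008090003))) 
(.lf (nat_lit 3557228577) (dlOf (nat_lit 1) (nat_lit 0xf0008002400200020008170183)))) 
(.nd (nat_lit 10) (.lf (nat_lit 2756116513) (dlOf (nat_lit 2) (nat_lit 0x3221a00018818200b00))) 
(.lf (nat_lit 604439585) (dlOf (nat_lit 1) (nat_lit 0x20028282881)))))) (.nd (nat_lit 28) 
(.nd (nat_lit 7) (.nd (nat_lit 9) 
(.lf (nat_lit 201785377) (dlOf (nat_lit 2) (nat_lit 0x204300010208025201000b00080050002004a0008090003))) 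
(.lf (nat_lit 201785889) (dlOf (nat_lit 1) (nat_lit 0x2900080100002009e0008090d83)))) 
(.lf (nat_lit 201785761) (dlOf (nat_lit 1) (nat_lit 0x3c00400960018090782)))) (.nd (nat_lit 30) 
(.nd (nat_lit 7) 
(.lf (nat_lit 1007091745) (dlOf (nat_lit 1) (nat_lit 0x9800800f8002004c0008170183))) 
(.lf (nat_lit 1008142753) (dlOf (nat_lit 1) (nat_lit 0x140028a44e81)))) (.nd (nat_lit 10) 
(.lf (nat_lit 4228317217) (dlOf (nat_lit 1) (nat_lit 0x328008002800200660008090003))) 
(.lf (nat_lit 5773919265) (dlOf (nat_lit 1) (nat_lit 0x1c00180e2881))))))) (.nd (nat_lit 22) 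
(.nd (nat_lit 7) (.nd (nat_lit 20) (.nd (nat_lit 8) 
(.lf (nat_lit 470745121) (dlOf (nat_lit 5) (nat_lit 0x2110e8000880804002bc0004004000c4040001d020138202007e0d2004b0680023c15e0016095001001100006c300030008001400200100008170183))) 
(.lf (nat_lit 3492742945) (dlOf (nat_lit 1) (nat_lit 0x48004008200080f3d02)))) (.nd (nat_lit 21) 
(.lf (nat_lit 10420257) (dlOf (nat_lit 1) (nat_lit 0x600185d0481))) 
(.lf (nat_lit 473890849) (dlOf (nat_lit 7) (nat_lit 0x601020091059801f02c60246143012709d809404e4049819a00e20cb00fd03a803f01cc014c034010e015008200000003868029050c0001a0405f428602fc13b017e0668000301802e050c0001604032428600fc13b008d09c805203340001410054428602a413b014e0668000001800f0008000400200fa0008fc0183))))) 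
(.nd (nat_lit 8) 
(.lf (nat_lit 3492743329) (dlOf (nat_lit 1) (nat_lit 0x280080004002000200080f4883))) 
(.nd (nat_lit 24) 
(.lf (nat_lit 2754550689) (dlOf (nat_lit 1) (nat_lit 0x80080004002000200080fbc83))) 
(.lf (nat_lit 19864481) (dlOf (nat_lit 1) (nat_lit 0x200089dbc81)))))) (.nd (nat_lit 20) 
(.nd (nat_lit 7) (.nd (nat_lit 21) 
(.lf (nat_lit 5177377) (dlOf (nat_lit 1) (nat_lit 0x40018320601))) (.nd (nat_lit 23) 
(.lf (nat_lit 7274529) (dlOf (nat_lit 1) (nat_lit 0x800284b0001))) 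
(.lf (nat_lit 15663137) (dlOf (nat_lit 1) (nat_lit 0xc00200120008810682))))) 
(.lf (nat_lit 24052129) (dlOf (nat_lit 5) (nat_lit 0x8c2d8001e1640016f820074406000f85b0007c2c80045f0400e860c003b0b6001b8590017be0801ce818003df0400e7204003800400040008b80782)))) 
(.nd (nat_lit 10) (.nd (nat_lit 23) 
(.lf (nat_lit 6225953) (dlOf (nat_lit 1) (nat_lit 0x80028420001))) 
(.lf (nat_lit 14614561) (dlOf (nat_lit 2) (nat_lit 0x580000001604001c004000c0018770182)))) 
(.nd (nat_lit 7) 
(.lf (nat_lit 8324641) (dlOf (nat_lit 2) (nat_lit 0x485e0000000400bc00400060008513702))) 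
(.lf (nat_lit 8328353) (dlOf (nat_lit 1) (nat_lit 0xa800200080008519502)))))))) (.nd (nat_lit 28) 
(.nd (nat_lit 20) (.nd (nat_lit 7) (.nd (nat_lit 21) (.nd (nat_lit 26) 
(.lf (nat_lit 3892781089) (dlOf (nat_lit 2) (nat_lit 0x1404000260190026a028260680))) 
(.lf (nat_lit 4362543137) (dlOf (nat_lit 1) (nat_lit 0x2a8008000400200540008090003)))) 
(.lf (nat_lit 15147041) (dlOf (nat_lit 1) (nat_lit 0x400287c0601)))) (.nd (nat_lit 27) 
(.nd (nat_lit 29) (.lf (nat_lit 4362543521) (dlOf (nat_lit 1) (nat_lit 0x400400020008090782))) 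
(.lf (nat_lit 1678188961) (dlOf (nat_lit 1) (nat_lit 0x200281a0781)))) 
(.lf (nat_lit 201793953) (dlOf (nat_lit 1) (nat_lit 0x400400020008090782))))) (.nd (nat_lit 19) 
(.nd (nat_lit 21) (.nd (nat_lit 24) 
(.lf (nat_lit 9904161) (dlOf (nat_lit 1) (nat_lit 0x20018590781))) 
(.lf (nat_lit 26681377) (dlOf (nat_lit 2) (nat_lit 0x629680003804000c00200020008c60602)))) 
(.lf (nat_lit 16195617) (dlOf (nat_lit 1) (nat_lit 0x400200020008870602)))) (.nd (nat_lit 21) 
(.nd (nat_lit 22) 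
(.lf (nat_lit 52371489) (dlOf (nat_lit 1) (nat_lit 0x18008000400200020009530183))) 
(.lf (nat_lit 23011361) (dlOf (nat_lit 9) (nat_lit 0x6509d002d84a4015c218000720600c013a005f094802d0430000de0c00d400600820010002f0200035b38007859800041de00540db002e00180218004000b61805d40000003f020002b7b0001c0100ee08d0000d80809d8000000680405f000200500008b40502)))) 
(.lf (nat_lit 25108513) (dlOf (nat_lit 1) (nat_lit 0x3400400140008be0b02)))))) (.nd (nat_lit 19) 
(.nd (nat_lit 10) (.nd (nat_lit 26) (.nd (nat_lit 30) 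
(.lf (nat_lit 805773345) (dlOf (nat_lit 1) (nat_lit 0x4004000200181a0002))) 
(.lf (nat_lit 1879515169) (dlOf (nat_lit 1) (nat_lit 0x9800800f8002004c0008190183)))) 
(.nd (nat_lit 27) (.lf (nat_lit 3557236769) (dlOf (nat_lit 1) (nat_lit 0x400400060018170182))) 
(.lf (nat_lit 4228325409) (dlOf (nat_lit 1) (nat_lit 0x280008000400200420008090003))))) 
(.nd (nat_lit 7) (.lf (nat_lit 2080842785) (dlOf (nat_lit 1) (nat_lit 0x2400080e2881))) 
(.nd (nat_lit 9) (.lf (nat_lit 3490135201) (dlOf (nat_lit 1) (nat_lit 0xe40040052000800c202))) 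
(.lf (nat_lit 4027002529) (dlOf (nat_lit 1) (nat_lit 0x1a00180f7201)))))) (.nd (nat_lit 21) 
(.nd (nat_lit 9) (.nd (nat_lit 26) 
(.lf (nat_lit 1343168545) (dlOf (nat_lit 1) (nat_lit 0x800400020018190182))) 
(.lf (nat_lit 470753313) (dlOf (nat_lit 2) (nat_lit 0x5a15c0000d818170180)))) 
(.lf (nat_lit 3490652705) (dlOf (nat_lit 1) (nat_lit 0x20018017f01)))) (.nd (nat_lit 9) 
(.nd (nat_lit 20) 
(.lf (nat_lit 4096729121) (dlOf (nat_lit 1) (nat_lit 0x1800800dc002004c0008160483))) 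
(.lf (nat_lit 473899041) (dlOf (nat_lit 7) (nat_lit 0x3f03640004e04002c4080006202006e0d08042859801342c6084a143044209d821104e404141b208760cd009d0660043832c016c18800e807d00c003a804301d001880e6011802b009c00a803300000001c5000402860000d02058214303c209d8226833402340ea00220730000605004b0d080ed850c074c276035a139026c066800202dc00b40fa002a0750022039800080ac004c02a0000a160668143034e09d81e88334005019400d0075006a00d0000003028b800801d800216840008fc0183)))) 
(.lf (nat_lit 472850977) (dlOf (nat_lit 1) (nat_lit 0x5000400620008b18702)))))))))) 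
(.nd (nat_lit 8) (.nd (nat_lit 18) (.nd (nat_lit 26) (.nd (nat_lit 5) (.nd (nat_lit 31) 
(.nd (nat_lit 20) (.nd (nat_lit 19) (.nd (nat_lit 13) (.nd (nat_lit 21) 
(.lf (nat_lit 2013462593) (dlOf (nat_lit 1) (nat_lit 0x10008002c002000a0008090003))) 
(.lf (nat_lit 1881342017) (dlOf (nat_lit 1) (nat_lit 0x1f00008ea0501)))) 
(.lf (nat_lit 25370689) (dlOf (nat_lit 4) (nat_lit 0x961a00039020008b0d0001c0100035868000dc080040008001800200160008c00e83)))) 
(.nd (nat_lit 7) 
(.lf (nat_lit 537591873) (dlOf (nat_lit 3) (nat_lit 0x16501f8000b00800400fc00054040038004002200080c1802))) 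
(.lf (nat_lit 36372673) (dlOf (nat_lit 1) (nat_lit 0x400200020009070782))))) (.nd (nat_lit 11) 
(.nd (nat_lit 7) (.lf (nat_lit 20644417) (dlOf (nat_lit 1) (nat_lit 0x4002000200089d1582))) 
(.lf (nat_lit 28516545) (dlOf (nat_lit 1) (nat_lit 0xa0008000400200100008da0483)))) 
(.nd (nat_lit 21) (.lf (nat_lit 34802241) (dlOf (nat_lit 1) (nat_lit 0x8008001000200120008fb5203))) 
(.lf (nat_lit 36899393) (dlOf (nat_lit 1) (nat_lit 0x400200040009075202)))))) (.nd (nat_lit 28) 
(.nd (nat_lit 9) (.nd (nat_lit 10) 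
(.lf (nat_lit 6442655809) (dlOf (nat_lit 2) (nat_lit 0x4c0740026025001300d000980600002e10005400400060018120e02))) 
(.lf (nat_lit 2818776129) (dlOf (nat_lit 2) (nat_lit 0x501080098c04004c0040010000812bf02)))) 
(.lf (nat_lit 2684551745) (dlOf (nat_lit 1) (nat_lit 0x880080078002000c00080a1583)))) 
(.nd (nat_lit 30) (.nd (nat_lit 9) 
(.lf (nat_lit 6711083073) (dlOf (nat_lit 1) (nat_lit 0x400400020008090002))) 
(.lf (nat_lit 3087204929) (dlOf (nat_lit 1) (nat_lit 0x140018158c01)))) (.nd (nat_lit 13) 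
(.lf (nat_lit 3492479041) (dlOf (nat_lit 1) (nat_lit 0x200180d0b81))) 
(.lf (nat_lit 3490914369) (dlOf (nat_lit 4) (nat_lit 0x843a40000702001a1d2000030100230e9000000080190008006c00200520008030e03))))))) 
(.nd (nat_lit 9) (.nd (nat_lit 7) (.nd (nat_lit 13) (.nd (nat_lit 19) 
(.lf (nat_lit 1880293473) (dlOf (nat_lit 1) (nat_lit 0x2000400560008811982))) 
(.lf (nat_lit 5963873) (dlOf (nat_lit 1) (nat_lit 0xc0018420481)))) 
(.lf (nat_lit 44245089) (dlOf (nat_lit 1) (nat_lit 0x400092e0781)))) (.nd (nat_lit 10) 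
(.lf (nat_lit 2818773217) (dlOf (nat_lit 1) (nat_lit 0x10e0028128081))) (.nd (nat_lit 27) 
(.lf (nat_lit 199905) (dlOf (nat_lit 2) (nat_lit 0xc000000350200020018006501))) 
(.lf (nat_lit 3624078561) (dlOf (nat_lit 2) (nat_lit 0x480700004004005c00400820018146502)))))) 
(.nd (nat_lit 10) (.nd (nat_lit 11) (.nd (nat_lit 13) 
(.lf (nat_lit 8590049) (dlOf (nat_lit 1) (nat_lit 0x8008000400200020008518c83))) 
(.lf (nat_lit 20656865) (dlOf (nat_lit 1) (nat_lit 0x4002000200089d8c82)))) (.nd (nat_lit 13) 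
(.lf (nat_lit 20126433) (dlOf (nat_lit 1) (nat_lit 0x600080004002000c00089db983))) 
(.lf (nat_lit 20134625) (dlOf (nat_lit 1) (nat_lit 0xc002000200089db982))))) (.nd (nat_lit 7) 
(.nd (nat_lit 11) (.lf (nat_lit 1880819297) (dlOf (nat_lit 1) (nat_lit 0x40008bb3901))) 
(.lf (nat_lit 20647521) (dlOf (nat_lit 1) (nat_lit 0x200289d7181)))) 
(.lf (nat_lit 8062689) (dlOf (nat_lit 1) (nat_lit 0x20028513a81))))))) (.nd (nat_lit 31) 
(.nd (nat_lit 13) (.nd (nat_lit 21) (.nd (nat_lit 30) (.nd (nat_lit 28) 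
(.lf (nat_lit 4496490561) (dlOf (nat_lit 1) (nat_lit 0x80028090481))) 
(.lf (nat_lit 4764926017) (dlOf (nat_lit 1) (nat_lit 0x400400020008090002)))) (.nd (nat_lit 5) 
(.lf (nat_lit 5704450113) (dlOf (nat_lit 3) (nat_lit 0x800b0003f0100030058000a80800c00080124002005a0008080483))) 
(.lf (nat_lit 1543703777) (dlOf (nat_lit 2) (nat_lit 0x1100f8004804c00040080010004000c0008146502))))) 
(.nd (nat_lit 5) (.nd (nat_lit 19) 
(.lf (nat_lit 1008926785) (dlOf (nat_lit 2) (nat_lit 0xb0718005440800100080010002000a0008fe0603))) 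
(.lf (nat_lit 472580161) (dlOf (nat_lit 6) (nat_lit 0x7f0a68034036401a01b0017007d011803e00092428027053402280fa026207c000f803004e0a1802704e4013819a0166075009103980071c2803501d400ec0e6001bd0400100bc000aa0189c0600)))) 
(.lf (nat_lit 472580193) (dlOf (nat_lit 2) (nat_lit 0x64143003009d801884e400c819a011807500840398000a83001300080160002007800089c0903))))) 
(.nd (nat_lit 11) (.nd (nat_lit 19) (.nd (nat_lit 28) 
(.lf (nat_lit 4496498753) (dlOf (nat_lit 1) (nat_lit 0x800200040008090482))) 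
(.lf (nat_lit 5838676033) (dlOf (nat_lit 2) (nat_lit 0x4c0740026025001300d000980600002c10005400400060018120e02)))) 
(.lf (nat_lit 472588353) (dlOf (nat_lit 3) (nat_lit 0xe604e0070823402d01180024906008216000840a6808e027003e411a001f008006a00189c0601)))) 
(.nd (nat_lit 5) (.lf (nat_lit 472066625) (dlOf (nat_lit 1) (nat_lit 0x400200020008805202))) 
(.lf (nat_lit 1543711969) (dlOf (nat_lit 2) (nat_lit 0x4c04a000601300010028146500)))))) 
(.nd (nat_lit 7) (.nd (nat_lit 9) (.nd (nat_lit 5) (.nd (nat_lit 13) 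
(.lf (nat_lit 2754281537) (dlOf (nat_lit 1) (nat_lit 0x200180d0b81))) 
(.lf (nat_lit 2752716865) (dlOf (nat_lit 4) (nat_lit 0x843ce0000702001a1e7000030100230f3800000080190008006c00200520008030e03)))) 
(.lf (nat_lit 2753232993) (dlOf (nat_lit 1) (nat_lit 0x820018090001)))) (.nd (nat_lit 21) 
(.nd (nat_lit 27) 
(.lf (nat_lit 2214789697) (dlOf (nat_lit 1) (nat_lit 0x200080020002001000080a1583))) 
(.lf (nat_lit 4228055617) (dlOf (nat_lit 2) (nat_lit 0xe04000521018018500)))) 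
(.lf (nat_lit 2753757761) (dlOf (nat_lit 3) (nat_lit 0xc0ec0000440800487600000004000400400940018091082))))) 
(.nd (nat_lit 12) (.nd (nat_lit 5) 
(.lf (nat_lit 4096458945) (dlOf (nat_lit 1) (nat_lit 0x400200020008111702))) (.nd (nat_lit 10) 
(.lf (nat_lit 2885880033) (dlOf (nat_lit 1) (nat_lit 0x400400020008144a82))) 
(.lf (nat_lit 6509759713) (dlOf (nat_lit 1) (nat_lit 0x3e0018146501))))) (.nd (nat_lit 5) 
(.lf (nat_lit 3556970689) (dlOf (nat_lit 1) (nat_lit 0x15000800a400200440008127f03))) 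
(.nd (nat_lit 13) 
(.lf (nat_lit 3154320097) (dlOf (nat_lit 1) (nat_lit 0x7b8008000400200c0000815b983))) 
(.lf (nat_lit 3154328289) (dlOf (nat_lit 1) (nat_lit 0x2a800804c400202a8000815b983))))))))) 
(.nd (nat_lit 19) (.nd (nat_lit 13) (.nd (nat_lit 22) (.nd (nat_lit 26) (.nd (nat_lit 27) 
(.lf (nat_lit 1074200641) (dlOf (nat_lit 1) (nat_lit 0x4004000200080d0b82))) 
(.lf (nat_lit 2819031105) (dlOf (nat_lit 1) (nat_lit 0xc0028150501)))) (.nd (nat_lit 27) 
(.nd (nat_lit 28) (.lf (nat_lit 1678180417) (dlOf (nat_lit 1) (nat_lit 0x4004000600181a0002))) 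
(.lf (nat_lit 1946615873) (dlOf (nat_lit 1) (nat_lit 0x4004000200080d0b82)))) 
(.lf (nat_lit 738656321) (dlOf (nat_lit 2) (nat_lit 0x40150002740800180080034002000800080d0483))))) 
(.nd (nat_lit 7) (.nd (nat_lit 21) 
(.lf (nat_lit 21430337) (dlOf (nat_lit 1) (nat_lit 0x800200020008a40482))) 
(.lf (nat_lit 48693313) (dlOf (nat_lit 2) (nat_lit 0x9b6770008b368017580400606fa000621c0011e059420600)))) 
(.nd (nat_lit 5) (.lf (nat_lit 4653249) (dlOf (nat_lit 1) (nat_lit 0x20018290401))) 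
(.lf (nat_lit 4653281) (dlOf (nat_lit 1) (nat_lit 0x800400060008290602)))))) (.nd (nat_lit 26) 
(.nd (nat_lit 5) (.nd (nat_lit 21) (.nd (nat_lit 9) (.nd (nat_lit 25) 
(.lf (nat_lit 6442917953) (dlOf (nat_lit 2) (nat_lit 0xb00e8005804a002e01a001700c000258200040008000c002000a0008220b83))) 
(.lf (nat_lit 34021441) (dlOf (nat_lit 1) (nat_lit 0x1800400020018f90602)))) 
(.lf (nat_lit 8856129) (dlOf (nat_lit 1) (nat_lit 0x8008001c00200160008511583)))) (.nd (nat_lit 22) 
(.lf (nat_lit 2564161) (dlOf (nat_lit 2) (nat_lit 0xb00000001a040010002002a0008170c82))) 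
(.lf (nat_lit 48701505) (dlOf (nat_lit 2) (nat_lit 0x8c110011e019420600))))) (.nd (nat_lit 7) 
(.lf (nat_lit 1611079777) (dlOf (nat_lit 1) (nat_lit 0x400080004002001600080d0783))) 
(.lf (nat_lit 3490131169) (dlOf (nat_lit 1) (nat_lit 0x80028006501))))) (.nd (nat_lit 11) 
(.nd (nat_lit 27) (.lf (nat_lit 4362543169) (dlOf (nat_lit 1) (nat_lit 0x1400400100018090002))) 
(.nd (nat_lit 28) 
(.lf (nat_lit 738664513) (dlOf (nat_lit 2) (nat_lit 0xa0150002740800400080020002000e00080d0483))) 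
(.lf (nat_lit 5838938177) (dlOf (nat_lit 2) (nat_lit 0xb00e8005804a002e01a001700c000258200040008000c002000a0008220b83))))) 
(.nd (nat_lit 9) (.lf (nat_lit 3288807489) (dlOf (nat_lit 2) (nat_lit 0x2e035001158180fa680))) 
(.lf (nat_lit 1008151105) (dlOf (nat_lit 1) (nat_lit 0x1400400200008a45202))))))) (.nd (nat_lit 20) 
(.nd (nat_lit 7) (.nd (nat_lit 13) (.nd (nat_lit 22) 
(.lf (nat_lit 470745153) (dlOf (nat_lit 2) (nat_lit 0x720000000000800d8008001000200440008170503))) 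
(.lf (nat_lit 13566017) (dlOf (nat_lit 2) (nat_lit 0x1005a2000750200020028730b81)))) 
(.nd (nat_lit 5) (.nd (nat_lit 9) 
(.lf (nat_lit 21962817) (dlOf (nat_lit 4) (nat_lit 0x3c3800001c08006e45800330e0000060400239160015c38000000100130008003400200120008a80e03))) 
(.lf (nat_lit 2752455233) (dlOf (nat_lit 1) (nat_lit 0x120028018c01)))) 
(.lf (nat_lit 19865697) (dlOf (nat_lit 1) (nat_lit 0x3000089d0081))))) (.nd (nat_lit 5) 
(.nd (nat_lit 11) (.nd (nat_lit 12) 
(.lf (nat_lit 19866305) (dlOf (nat_lit 1) (nat_lit 0x4002000200089d1e82))) 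
(.lf (nat_lit 19870401) (dlOf (nat_lit 1) (nat_lit 0x8600089d8c81)))) 
(.lf (nat_lit 19872449) (dlOf (nat_lit 1) (nat_lit 0x80080008002000200089db983)))) 
(.nd (nat_lit 13) (.lf (nat_lit 6376325345) (dlOf (nat_lit 1) (nat_lit 0x400200020008090a82))) 
(.lf (nat_lit 6376333537) (dlOf (nat_lit 2) (nat_lit 0xc82400009d0200540008090a81)))))) 
(.nd (nat_lit 13) (.nd (nat_lit 22) (.nd (nat_lit 9) (.nd (nat_lit 21) 
(.lf (nat_lit 52363329) (dlOf (nat_lit 1) (nat_lit 0x8008000400200020009530603))) 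
(.lf (nat_lit 473890881) (dlOf (nat_lit 3) (nat_lit 0x3d0a680091c08034053001241ae001540400040028fc0601)))) 
(.lf (nat_lit 3491693121) (dlOf (nat_lit 1) (nat_lit 0xa0008003400200020008091083)))) 
(.nd (nat_lit 7) (.lf (nat_lit 14614593) (dlOf (nat_lit 1) (nat_lit 0x240008770501))) 
(.lf (nat_lit 31392961) (dlOf (nat_lit 1) (nat_lit 0x20018e92d01))))) (.nd (nat_lit 9) 
(.nd (nat_lit 21) (.lf (nat_lit 52371521) (dlOf (nat_lit 1) (nat_lit 0x1000200020009530602))) 
(.nd (nat_lit 23) 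
(.lf (nat_lit 473899073) (dlOf (nat_lit 2) (nat_lit 0x801b2000a0d800123828fc0600))) 
(.lf (nat_lit 12525633) (dlOf (nat_lit 1) (nat_lit 0x4004000200086d0d02))))) (.nd (nat_lit 5) 
(.lf (nat_lit 2753503809) (dlOf (nat_lit 3) (nat_lit 0x121d80000881000a0ec000000080108008018c002002c0008091083))) 
(.lf (nat_lit 8336097) (dlOf (nat_lit 1) (nat_lit 0x400200020008518c82))))))))) (.nd (nat_lit 7) 
(.nd (nat_lit 13) (.nd (nat_lit 26) (.nd (nat_lit 20) (.nd (nat_lit 27) (.nd (nat_lit 11) 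
(.lf (nat_lit 1342374209) (dlOf (nat_lit 1) (nat_lit 0xe0018014c01))) 
(.lf (nat_lit 3492743489) (dlOf (nat_lit 1) (nat_lit 0x4004000200080f4c82)))) (.nd (nat_lit 5) 
(.nd (nat_lit 28) 
(.lf (nat_lit 134414657) (dlOf (nat_lit 1) (nat_lit 0x18008000c00200020008014c03))) 
(.lf (nat_lit 939721025) (dlOf (nat_lit 2) (nat_lit 0x3b00940000004001c00400020008154c02)))) 
(.lf (nat_lit 939721057) (dlOf (nat_lit 1) (nat_lit 0x400400020018154f02))))) (.nd (nat_lit 19) 
(.nd (nat_lit 21) (.lf (nat_lit 9634113) (dlOf (nat_lit 1) (nat_lit 0x2800200020008574c02))) 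
(.nd (nat_lit 23) (.lf (nat_lit 3342657) (dlOf (nat_lit 1) (nat_lit 0x400400020008200602))) 
(.lf (nat_lit 28508481) (dlOf (nat_lit 1) (nat_lit 0x1120028da0701))))) (.nd (nat_lit 5) 
(.nd (nat_lit 10) (.lf (nat_lit 2031937) (dlOf (nat_lit 1) (nat_lit 0x400200020008150602))) 
(.lf (nat_lit 50005313) (dlOf (nat_lit 1) (nat_lit 0x200094c3281)))) 
(.lf (nat_lit 4129121) (dlOf (nat_lit 1) (nat_lit 0x400400020008290902)))))) (.nd (nat_lit 28) 
(.nd (nat_lit 27) (.nd (nat_lit 9) 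
(.lf (nat_lit 4362273089) (dlOf (nat_lit 2) (nat_lit 0x2c0238000000800900080040002002a0008014c03))) 
(.lf (nat_lit 2751924033) (dlOf (nat_lit 1) (nat_lit 0xc0028003e01)))) (.nd (nat_lit 29) 
(.lf (nat_lit 201523521) (dlOf (nat_lit 1) (nat_lit 0x18008000c00200020008014c03))) 
(.lf (nat_lit 1812136257) (dlOf (nat_lit 2) (nat_lit 0x3b00940000004001c00400020008154c02))))) 
(.nd (nat_lit 29) (.nd (nat_lit 5) 
(.lf (nat_lit 469958977) (dlOf (nat_lit 1) (nat_lit 0xe0018014c01))) 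
(.lf (nat_lit 3556972385) (dlOf (nat_lit 1) (nat_lit 0x2e002812a301)))) (.nd (nat_lit 18) 
(.lf (nat_lit 4228055361) (dlOf (nat_lit 2) (nat_lit 0x2c0200000000800900080040002002a0008014c03))) 
(.lf (nat_lit 6376325441) (dlOf (nat_lit 3) (nat_lit 0x30918000a80800a848c0000004005400400260018090c02))))))) 
(.nd (nat_lit 31) (.nd (nat_lit 5) (.nd (nat_lit 18) (.nd (nat_lit 11) 
(.lf (nat_lit 9642305) (dlOf (nat_lit 1) (nat_lit 0x1400200020008574c02))) 
(.lf (nat_lit 8595777) (dlOf (nat_lit 1) (nat_lit 0x60018514c81)))) (.nd (nat_lit 9) 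
(.nd (nat_lit 21) 
(.lf (nat_lit 6376333633) (dlOf (nat_lit 10) (nat_lit 0x188132006e098000d049c06182460002d0800101230001601005e09900c1848c000560803302640306123000150200c109900c1848c02e0000000290601b613201810918000181000d848c000080401882640312123000010200dd09900c3848c000000806d00020a4e0008090c02))) 
(.lf (nat_lit 3088705) (dlOf (nat_lit 1) (nat_lit 0xc0018200601)))) 
(.lf (nat_lit 19866433) (dlOf (nat_lit 1) (nat_lit 0x6d00080078002023800089d2303))))) 
(.nd (nat_lit 10) (.nd (nat_lit 9) 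
(.lf (nat_lit 11739489) (dlOf (nat_lit 1) (nat_lit 0x2f8008016c002012400086c0703))) 
(.lf (nat_lit 20394849) (dlOf (nat_lit 1) (nat_lit 0x1200289d8f81)))) (.nd (nat_lit 11) 
(.lf (nat_lit 8599393) (dlOf (nat_lit 1) (nat_lit 0x2001851a301))) 
(.lf (nat_lit 19869537) (dlOf (nat_lit 1) (nat_lit 0x80080004002000200089d7783)))))) 
(.nd (nat_lit 11) (.nd (nat_lit 26) (.nd (nat_lit 22) 
(.lf (nat_lit 3087212865) (dlOf (nat_lit 2) (nat_lit 0xf600a006800400000010017800800ec002004c0008154c03))) 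
(.lf (nat_lit 3494060353) (dlOf (nat_lit 1) (nat_lit 0x4002000200081b0602)))) (.nd (nat_lit 5) 
(.lf (nat_lit 3825410369) (dlOf (nat_lit 2) (nat_lit 0xf600a006800400000010017800800ec002004c0008154c03))) 
(.lf (nat_lit 2617455457) (dlOf (nat_lit 1) (nat_lit 0x600280a8f81))))) (.nd (nat_lit 5) 
(.nd (nat_lit 9) 
(.lf (nat_lit 3489869121) (dlOf (nat_lit 1) (nat_lit 0x18008000400200060008006903))) 
(.lf (nat_lit 2818780993) (dlOf (nat_lit 1) (nat_lit 0xc0018127601)))) (.nd (nat_lit 12) 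
(.lf (nat_lit 2754554209) (dlOf (nat_lit 1) (nat_lit 0x200280f4e81))) 
(.lf (nat_lit 3492755809) (dlOf (nat_lit 1) (nat_lit 0x200080fab81)))))))) (.nd (nat_lit 13) 
(.nd (nat_lit 5) (.nd (nat_lit 9) (.nd (nat_lit 19) (.nd (nat_lit 20) 
(.lf (nat_lit 2753757633) (dlOf (nat_lit 2) (nat_lit 0x43a4000000200060028090901))) 
(.lf (nat_lit 41091521) (dlOf (nat_lit 1) (nat_lit 0x800800ac00200020009227003)))) 
(.nd (nat_lit 18) (.nd (nat_lit 21) 
(.lf (nat_lit 51052993) (dlOf (nat_lit 1) (nat_lit 0x4004014a00094f7002))) 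
(.lf (nat_lit 6378160577) (dlOf (nat_lit 2) (nat_lit 0x1009f000284d000040000021a0600040018117001)))) 
(.lf (nat_lit 24052161) (dlOf (nat_lit 1) (nat_lit 0xfc00200900008b80902))))) (.nd (nat_lit 10) 
(.nd (nat_lit 26) (.lf (nat_lit 268635073) (dlOf (nat_lit 1) (nat_lit 0x8004000200080e5d82))) 
(.nd (nat_lit 28) 
(.lf (nat_lit 1141050305) (dlOf (nat_lit 1) (nat_lit 0x8008000400200020008095d83))) 
(.lf (nat_lit 6241323969) (dlOf (nat_lit 1) (nat_lit 0x28004001200080d5d82))))) (.nd (nat_lit 12) 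
(.lf (nat_lit 3959621569) (dlOf (nat_lit 1) (nat_lit 0x400200020008114402))) 
(.lf (nat_lit 3492747201) (dlOf (nat_lit 1) (nat_lit 0xc002000e00080fa602)))))) (.nd (nat_lit 9) 
(.nd (nat_lit 18) (.nd (nat_lit 10) 
(.lf (nat_lit 3087204833) (dlOf (nat_lit 1) (nat_lit 0x400400020008157d02))) 
(.lf (nat_lit 8062433) (dlOf (nat_lit 1) (nat_lit 0x20028513601)))) (.nd (nat_lit 21) 
(.nd (nat_lit 26) (.lf (nat_lit 134676961) (dlOf (nat_lit 1) (nat_lit 0x280008090c01))) 
(.lf (nat_lit 201785825) (dlOf (nat_lit 1) (nat_lit 0x280008090c01)))) 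
(.lf (nat_lit 23527905) (dlOf (nat_lit 1) (nat_lit 0x20028b80c01))))) (.nd (nat_lit 19) 
(.nd (nat_lit 18) (.lf (nat_lit 6711084001) (dlOf (nat_lit 1) (nat_lit 0x20018092881))) 
(.lf (nat_lit 2751923169) (dlOf (nat_lit 1) (nat_lit 0x8008000400200020008002883)))) 
(.nd (nat_lit 10) (.lf (nat_lit 3492742113) (dlOf (nat_lit 2) (nat_lit 0x202000ce00180f2880))) 
(.lf (nat_lit 3492747233) (dlOf (nat_lit 2) (nat_lit 0x20450057d8180fa600))))))) (.nd (nat_lit 21) 
(.nd (nat_lit 11) (.nd (nat_lit 5) (.nd (nat_lit 10) (.nd (nat_lit 9) 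
(.lf (nat_lit 2753503681) (dlOf (nat_lit 1) (nat_lit 0x8008000c00200060008090903))) 
(.lf (nat_lit 8594369) (dlOf (nat_lit 1) (nat_lit 0x1800200040008512782)))) (.nd (nat_lit 26) 
(.lf (nat_lit 537077697) (dlOf (nat_lit 1) (nat_lit 0x20028004401))) 
(.lf (nat_lit 2751670209) (dlOf (nat_lit 1) (nat_lit 0x4004000a0018004402))))) (.nd (nat_lit 18) 
(.lf (nat_lit 68887521) (dlOf (nat_lit 1) (nat_lit 0xa00187e2881))) 
(.lf (nat_lit 6375810017) (dlOf (nat_lit 2) (nat_lit 0x12014001fc00800b0008000400200140008002883))))) 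
(.nd (nat_lit 29) (.nd (nat_lit 28) 
(.lf (nat_lit 1141058497) (dlOf (nat_lit 3) (nat_lit 0x120240000e81002d01200006c08003000800a400200120008095d83))) 
(.lf (nat_lit 4630719425) (dlOf (nat_lit 1) (nat_lit 0x400400020008095d82)))) (.nd (nat_lit 19) 
(.lf (nat_lit 4094897089) (dlOf (nat_lit 1) (nat_lit 0x20028055d81))) 
(.lf (nat_lit 4094372801) (dlOf (nat_lit 1) (nat_lit 0x400400020008055d82)))))) (.nd (nat_lit 18) 
(.nd (nat_lit 26) (.nd (nat_lit 5) 
(.lf (nat_lit 2302401) (dlOf (nat_lit 2) (nat_lit 0xd58c000400200020028150901))) 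
(.lf (nat_lit 57877473) (dlOf (nat_lit 2) (nat_lit 0x752d800b0c0800c00080084002001c0009792883)))) 
(.nd (nat_lit 19) (.lf (nat_lit 2753765825) (dlOf (nat_lit 1) (nat_lit 0x1c00200080008090902))) 
(.lf (nat_lit 6378168769) (dlOf (nat_lit 1) (nat_lit 0x18008002000200020008117003))))) 
(.nd (nat_lit 5) (.nd (nat_lit 9) 
(.lf (nat_lit 472328641) (dlOf (nat_lit 1) (nat_lit 0x10008001400200040008984e83))) 
(.lf (nat_lit 19866561) (dlOf (nat_lit 1) (nat_lit 0x200289d2781)))) (.nd (nat_lit 9) 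
(.lf (nat_lit 57092577) (dlOf (nat_lit 1) (nat_lit 0xe0029794e81))) 
(.lf (nat_lit 61809633) (dlOf (nat_lit 1) (nat_lit 0x388008004000200d00009922883))))))))))))

end

end Pool.Agent.Lib.MP_5854e1_co.Cz
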