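import Pool.Agent.Lib.MP_5854e1_co.DecRow

/-!
# Sparse corrections
-/

set_option autoImplicit false
set_option maxRecDepth 100000

namespace Pool.Agent.Lib.MP_5854e1_co.Cz

noncomputable section

noncomputable def tz49 : DT := (.nd (nat_lit 15) (.nd (nat_lit 8) (.nd (nat_lit 13) 
(.nd (nat_lit 26) (.nd (nat_lit 4) (.nd (nat_lit 18) (.nd (nat_lit 9) (.nd (nat_lit 23) 
(.nd (nat_lit 22) (.nd (nat_lit 6) (.nd (nat_lit 7) 
(.lf (nat_lit 2621481) (dlOf (nat_lit 1) (nat_lit 0x60028180a81))) 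
(.lf (nat_lit 134220969) (dlOf (nat_lit 2) (nat_lit 0xe041000201e80011c100168008008000200180008006283)))) 
(.nd (nat_lit 10) (.lf (nat_lit 4026534121) (dlOf (nat_lit 1) (nat_lit 0x14002000a0008004b02))) 
(.lf (nat_lit 2147484905) (dlOf (nat_lit 1) (nat_lit 0x20008002e81))))) (.nd (nat_lit 19) 
(.nd (nat_lit 20) (.lf (nat_lit 23068713) (dlOf (nat_lit 1) (nat_lit 0x48002002c0008b50602))) 
(.lf (nat_lit 22020137) (dlOf (nat_lit 1) (nat_lit 0x400400080008a90602)))) (.nd (nat_lit 21) 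
(.lf (nat_lit 21495849) (dlOf (nat_lit 1) (nat_lit 0x400200020008a40282))) 
(.lf (nat_lit 23593001) (dlOf (nat_lit 3) (nat_lit 0x41997e00d4802020ccbf006a3018b80000)))))) 
(.nd (nat_lit 20) (.nd (nat_lit 22) (.nd (nat_lit 19) 
(.lf (nat_lit 25165865) (dlOf (nat_lit 2) (nat_lit 0x52a060001b818be0c00))) 
(.lf (nat_lit 27787305) (dlOf (nat_lit 1) (nat_lit 0x60018d20781)))) (.nd (nat_lit 6) 
(.lf (nat_lit 12582953) (dlOf (nat_lit 1) (nat_lit 0x200186d0981))) 
(.lf (nat_lit 12583017) (dlOf (nat_lit 2) (nat_lit 0xe738a805a1bac02d4d2c0001006046c00186d1401))))) 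
(.nd (nat_lit 6) (.nd (nat_lit 21) 
(.lf (nat_lit 26214441) (dlOf (nat_lit 1) (nat_lit 0x400200020008c20902))) 
(.lf (nat_lit 28311593) (dlOf (nat_lit 1) (nat_lit 0x10e0018d80781)))) 
(.lf (nat_lit 28836073) (dlOf (nat_lit 1) (nat_lit 0x400200020008da0602)))))) (.nd (nat_lit 12) 
(.nd (nat_lit 10) (.nd (nat_lit 11) (.nd (nat_lit 19) 
(.lf (nat_lit 2684355113) (dlOf (nat_lit 1) (nat_lit 0x400400020018001482))) 
(.lf (nat_lit 50856489) (dlOf (nat_lit 1) (nat_lit 0x80080120002004000094d8903)))) 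
(.nd (nat_lit 20) (.lf (nat_lit 31459881) (dlOf (nat_lit 1) (nat_lit 0x400400020008e95182))) 
(.lf (nat_lit 1345325609) (dlOf (nat_lit 1) (nat_lit 0x8008001c00200080008b55183))))) 
(.nd (nat_lit 29) (.lf (nat_lit 5502928425) (dlOf (nat_lit 1) (nat_lit 0x400400020008003702))) 
(.lf (nat_lit 4966057513) (dlOf (nat_lit 1) (nat_lit 0x400400020008003702))))) (.nd (nat_lit 10) 
(.nd (nat_lit 6) (.lf (nat_lit 1476399785) (dlOf (nat_lit 1) (nat_lit 0x400200020008008c82))) 
(.nd (nat_lit 7) (.lf (nat_lit 1342181993) (dlOf (nat_lit 1) (nat_lit 0xc0028008981))) 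
(.lf (nat_lit 2952794857) (dlOf (nat_lit 1) (nat_lit 0x10008000400200020008008d83))))) 
(.nd (nat_lit 27) 
(.lf (nat_lit 2952795881) (dlOf (nat_lit 1) (nat_lit 0xb8008001c0020004000800a003))) 
(.lf (nat_lit 1476400873) (dlOf (nat_lit 1) (nat_lit 0x7c000800a001))))))) (.nd (nat_lit 28) 
(.nd (nat_lit 7) (.nd (nat_lit 19) (.nd (nat_lit 20) 
(.lf (nat_lit 63176745) (dlOf (nat_lit 1) (nat_lit 0x8008000c002000200099f0883))) 
(.lf (nat_lit 5505065) (dlOf (nat_lit 1) (nat_lit 0x400400020008380802)))) 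
(.lf (nat_lit 18612265) (dlOf (nat_lit 3) (nat_lit 0x309ae0008c02000c4e8000b26b80022c100048008002400200140008950783)))) 
(.nd (nat_lit 6) (.nd (nat_lit 9) 
(.lf (nat_lit 20191401) (dlOf (nat_lit 1) (nat_lit 0x6d80080044002014e00089da883))) 
(.lf (nat_lit 20190889) (dlOf (nat_lit 1) (nat_lit 0x2e80080004002008400089da003)))) 
(.nd (nat_lit 10) (.lf (nat_lit 9175273) (dlOf (nat_lit 1) (nat_lit 0x80028524381))) 
(.lf (nat_lit 265449) (dlOf (nat_lit 1) (nat_lit 0x10008000800200140008006503)))))) 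
(.nd (nat_lit 19) (.nd (nat_lit 27) (.nd (nat_lit 7) (.nd (nat_lit 20) 
(.lf (nat_lit 3494117417) (dlOf (nat_lit 2) (nat_lit 0x2381ec0343a040028002000200081b0002))) 
(.lf (nat_lit 1343488041) (dlOf (nat_lit 4) (nat_lit 0x3808e000403f0002241001a0238000c0fc0008804001008e000303f00021c10030000800d8002003a0008260783)))) 
(.lf (nat_lit 4563665065) (dlOf (nat_lit 1) (nat_lit 0x80080004002003200080c1483)))) 
(.nd (nat_lit 29) 
(.lf (nat_lit 402915369) (dlOf (nat_lit 2) (nat_lit 0x80680006c04000c002000400080a0a02))) 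
(.lf (nat_lit 3087269929) (dlOf (nat_lit 1) (nat_lit 0x20018160501))))) (.nd (nat_lit 20) 
(.nd (nat_lit 29) 
(.lf (nat_lit 1342963753) (dlOf (nat_lit 5) (nat_lit 0x9d04a003202440178102000a00b006e0018001442804d0250018012200b6081006c00180013c200410250017c12200bc081005d0018000dc200480250011c12200d408100670018000d820022000807ec00205e40008120c03))) 
(.lf (nat_lit 1879834665) (dlOf (nat_lit 2) (nat_lit 0x9837c0007a04001000200020008390b02)))) 
(.lf (nat_lit 5773197353) (dlOf (nat_lit 2) (nat_lit 0x2304f0004425e0003104008200180b0381))))))) 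
(.nd (nat_lit 7) (.nd (nat_lit 18) (.nd (nat_lit 9) (.nd (nat_lit 10) (.nd (nat_lit 12) 
(.lf (nat_lit 23068729) (dlOf (nat_lit 1) (nat_lit 0x60028b50d81))) 
(.lf (nat_lit 4153) (dlOf (nat_lit 1) (nat_lit 0x170008001800200240008007c83)))) (.nd (nat_lit 11) 
(.lf (nat_lit 1476400185) (dlOf (nat_lit 1) (nat_lit 0x280018009201))) 
(.lf (nat_lit 2952797241) (dlOf (nat_lit 1) (nat_lit 0x800800040020002000800bf03))))) 
(.nd (nat_lit 6) (.nd (nat_lit 20) 
(.lf (nat_lit 6713) (dlOf (nat_lit 1) (nat_lit 0x40040002001800b402))) 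
(.lf (nat_lit 3492813369) (dlOf (nat_lit 1) (nat_lit 0x200280fb401)))) (.nd (nat_lit 11) 
(.lf (nat_lit 6039798393) (dlOf (nat_lit 2) (nat_lit 0x3011800080800006c08000400200060008001902))) 
(.lf (nat_lit 6710889081) (dlOf (nat_lit 1) (nat_lit 0x400200020008005402)))))) (.nd (nat_lit 21) 
(.nd (nat_lit 20) (.nd (nat_lit 27) 
(.lf (nat_lit 4026794041) (dlOf (nat_lit 1) (nat_lit 0x1c0008090001))) 
(.lf (nat_lit 671350841) (dlOf (nat_lit 2) (nat_lit 0x7601f00033018160680)))) 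
(.lf (nat_lit 30670905) (dlOf (nat_lit 1) (nat_lit 0x20018e41101)))) (.nd (nat_lit 19) 
(.nd (nat_lit 20) (.nd (nat_lit 22) 
(.lf (nat_lit 3492020281) (dlOf (nat_lit 2) (nat_lit 0x28088000603d00080100000b01800400080004002000600080a0b83))) 
(.lf (nat_lit 6553657) (dlOf (nat_lit 1) (nat_lit 0x400200020008431102)))) 
(.lf (nat_lit 7602233) (dlOf (nat_lit 1) (nat_lit 0x4002000200084c1102)))) (.nd (nat_lit 12) 
(.lf (nat_lit 3492544569) (dlOf (nat_lit 1) (nat_lit 0x200180d0b81))) 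
(.lf (nat_lit 19664953) (dlOf (nat_lit 1) (nat_lit 0x60004000600089d7c82))))))) (.nd (nat_lit 6) 
(.nd (nat_lit 9) (.nd (nat_lit 10) (.nd (nat_lit 11) 
(.lf (nat_lit 1835193) (dlOf (nat_lit 1) (nat_lit 0x560028150381))) 
(.lf (nat_lit 8132793) (dlOf (nat_lit 1) (nat_lit 0x4002851a881)))) 
(.lf (nat_lit 51643577) (dlOf (nat_lit 1) (nat_lit 0x18008000400200060009512c83)))) 
(.nd (nat_lit 10) (.nd (nat_lit 11) 
(.lf (nat_lit 1476399801) (dlOf (nat_lit 1) (nat_lit 0x20028008c81))) 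
(.lf (nat_lit 1879055033) (dlOf (nat_lit 1) (nat_lit 0x2000800b881)))) (.nd (nat_lit 18) 
(.lf (nat_lit 20453049) (dlOf (nat_lit 1) (nat_lit 0x4002000200089da002))) 
(.lf (nat_lit 8656569) (dlOf (nat_lit 1) (nat_lit 0x1a000400d2000851a002)))))) (.nd (nat_lit 20) 
(.nd (nat_lit 10) (.nd (nat_lit 9) 
(.lf (nat_lit 2359545) (dlOf (nat_lit 2) (nat_lit 0x95368005c008017800800d000200660008150483))) 
(.lf (nat_lit 2809) (dlOf (nat_lit 1) (nat_lit 0xe0028005a01)))) (.nd (nat_lit 27) 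
(.lf (nat_lit 2684359929) (dlOf (nat_lit 1) (nat_lit 0x20028009501))) 
(.lf (nat_lit 2281706745) (dlOf (nat_lit 1) (nat_lit 0x20028009501))))) (.nd (nat_lit 9) 
(.nd (nat_lit 21) (.lf (nat_lit 1048825) (dlOf (nat_lit 1) (nat_lit 0x5a0018067781))) 
(.lf (nat_lit 19923193) (dlOf (nat_lit 1) (nat_lit 0x200189d0a81)))) 
(.lf (nat_lit 49810169) (dlOf (nat_lit 4) (nat_lit 0xa5be80022df0000540800116fc0002202003eb7900144e50000401002e80080008002000400094c5a03)))))))) 
(.nd (nat_lit 30) (.nd (nat_lit 28) (.nd (nat_lit 7) (.nd (nat_lit 4) (.nd (nat_lit 27) 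
(.nd (nat_lit 6) (.lf (nat_lit 67633193) (dlOf (nat_lit 1) (nat_lit 0x200282b0781))) 
(.lf (nat_lit 4362600553) (dlOf (nat_lit 5) (nat_lit 0x5f02c00078150039008202cc0330063018800800a4000201803600660000f0202ce0330000701007701980001408038000802ac002039200080a1403)))) 
(.nd (nat_lit 18) (.lf (nat_lit 201850985) (dlOf (nat_lit 2) (nat_lit 0x1404e0000a0180a1400))) 
(.lf (nat_lit 2349072489) (dlOf (nat_lit 5) (nat_lit 0x400780004c0800c00a801100200001004000c010000070100100080000140801380080004002000200080a1403))))) 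
(.nd (nat_lit 9) (.nd (nat_lit 10) 
(.lf (nat_lit 2754347065) (dlOf (nat_lit 1) (nat_lit 0x200180d0b81))) 
(.lf (nat_lit 603987001) (dlOf (nat_lit 1) (nat_lit 0x800800040020002000800bf03)))) 
(.lf (nat_lit 2751470137) (dlOf (nat_lit 2) (nat_lit 0x4088c002840e0007b04001c002800b401))))) 
(.nd (nat_lit 4) (.nd (nat_lit 9) (.nd (nat_lit 6) 
(.lf (nat_lit 2885688489) (dlOf (nat_lit 1) (nat_lit 0x800800040020002000800c203))) 
(.lf (nat_lit 4362078441) (dlOf (nat_lit 2) (nat_lit 0x2700000002c04013c00200080008004b02)))) 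
(.nd (nat_lit 10) (.lf (nat_lit 603984553) (dlOf (nat_lit 1) (nat_lit 0x400200020008008c82))) 
(.lf (nat_lit 2751465129) (dlOf (nat_lit 1) (nat_lit 0x1c0028003a81))))) (.nd (nat_lit 6) 
(.lf (nat_lit 67113657) (dlOf (nat_lit 1) (nat_lit 0x20018008c81))) (.nd (nat_lit 10) 
(.lf (nat_lit 2751465721) (dlOf (nat_lit 1) (nat_lit 0x580008004b81))) 
(.lf (nat_lit 6643782905) (dlOf (nat_lit 1) (nat_lit 0x3a0018009501))))))) (.nd (nat_lit 10) 
(.nd (nat_lit 4) (.nd (nat_lit 9) (.nd (nat_lit 18) 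
(.lf (nat_lit 3154640937) (dlOf (nat_lit 2) (nat_lit 0x1a000000458182f0780))) (.nd (nat_lit 20) 
(.lf (nat_lit 472121385) (dlOf (nat_lit 1) (nat_lit 0x120008840201))) 
(.lf (nat_lit 471072809) (dlOf (nat_lit 1) (nat_lit 0x40018260781))))) (.nd (nat_lit 6) 
(.lf (nat_lit 4764731945) (dlOf (nat_lit 1) (nat_lit 0x8008000400200040008005183))) 
(.lf (nat_lit 469766889) (dlOf (nat_lit 1) (nat_lit 0x8008000800200020008008d83))))) 
(.nd (nat_lit 6) 
(.lf (nat_lit 3154640953) (dlOf (nat_lit 3) (nat_lit 0xa40c8009602e004100100007c180298168003405e0001304001800282f0901))) 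
(.lf (nat_lit 469768313) (dlOf (nat_lit 1) (nat_lit 0x10004000e000800a882))))) (.nd (nat_lit 7) 
(.nd (nat_lit 6) (.nd (nat_lit 9) 
(.lf (nat_lit 472384553) (dlOf (nat_lit 1) (nat_lit 0x1800400060008982882))) 
(.lf (nat_lit 4630513193) (dlOf (nat_lit 1) (nat_lit 0x400400020008003702)))) 
(.lf (nat_lit 469769321) (dlOf (nat_lit 2) (nat_lit 0xa09d0001001800c080)))) (.nd (nat_lit 4) 
(.lf (nat_lit 473695401) (dlOf (nat_lit 1) (nat_lit 0x20018fa2c01))) 
(.lf (nat_lit 1007944889) (dlOf (nat_lit 1) (nat_lit 0xc004000200088c2c82))))))) (.nd (nat_lit 27) 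
(.nd (nat_lit 7) (.nd (nat_lit 18) (.nd (nat_lit 9) (.nd (nat_lit 6) 
(.lf (nat_lit 3557294121) (dlOf (nat_lit 1) (nat_lit 0x4000181b0881))) 
(.lf (nat_lit 1678245993) (dlOf (nat_lit 2) (nat_lit 0xa902b0029804c0002008009400400f600181b1402)))) 
(.nd (nat_lit 32) (.lf (nat_lit 1140852265) (dlOf (nat_lit 1) (nat_lit 0x400400020008003702))) 
(.lf (nat_lit 5435819561) (dlOf (nat_lit 1) (nat_lit 0x8008000400200020008003703))))) 
(.nd (nat_lit 4) (.nd (nat_lit 19) (.nd (nat_lit 29) 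
(.lf (nat_lit 3288596521) (dlOf (nat_lit 2) (nat_lit 0xe01b00379c0800a0008001c00200280008090003))) 
(.lf (nat_lit 3825467433) (dlOf (nat_lit 1) (nat_lit 0x20018160501)))) 
(.lf (nat_lit 3557556265) (dlOf (nat_lit 1) (nat_lit 0x1000200060008260702)))) 
(.lf (nat_lit 3288596537) (dlOf (nat_lit 1) (nat_lit 0x380028090001))))) (.nd (nat_lit 4) 
(.nd (nat_lit 6) 
(.lf (nat_lit 1409289385) (dlOf (nat_lit 1) (nat_lit 0x88008003800200140008006283))) 
(.nd (nat_lit 12) (.lf (nat_lit 5436080361) (dlOf (nat_lit 1) (nat_lit 0x1e00280c1e01))) 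
(.lf (nat_lit 3557036265) (dlOf (nat_lit 1) (nat_lit 0x6c00200040008128082))))) (.nd (nat_lit 6) 
(.lf (nat_lit 3288341689) (dlOf (nat_lit 1) (nat_lit 0x2c002800c201))) (.nd (nat_lit 9) 
(.lf (nat_lit 3288337657) (dlOf (nat_lit 1) (nat_lit 0xb000400080008006602))) 
(.lf (nat_lit 4093643513) (dlOf (nat_lit 1) (nat_lit 0x20028005a01))))))) (.nd (nat_lit 4) 
(.nd (nat_lit 7) (.nd (nat_lit 6) (.nd (nat_lit 9) 
(.lf (nat_lit 6377177129) (dlOf (nat_lit 2) (nat_lit 0x2304bc00442400002e04008200180b0381))) 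
(.lf (nat_lit 6106908201) (dlOf (nat_lit 1) (nat_lit 0x8008000400200020008003703)))) 
(.lf (nat_lit 5570300521) (dlOf (nat_lit 1) (nat_lit 0x200280d5381)))) (.nd (nat_lit 6) 
(.nd (nat_lit 10) (.lf (nat_lit 3690994345) (dlOf (nat_lit 1) (nat_lit 0x84002800b781))) 
(.lf (nat_lit 3690993321) (dlOf (nat_lit 1) (nat_lit 0x4002800a001)))) 
(.lf (nat_lit 6375605481) (dlOf (nat_lit 1) (nat_lit 0x20028002e81))))) (.nd (nat_lit 6) 
(.nd (nat_lit 10) (.nd (nat_lit 9) 
(.lf (nat_lit 1543766073) (dlOf (nat_lit 2) (nat_lit 0x7601f00033018160680))) 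
(.lf (nat_lit 3422552633) (dlOf (nat_lit 1) (nat_lit 0x400400020018001482)))) (.nd (nat_lit 7) 
(.lf (nat_lit 3690992697) (dlOf (nat_lit 1) (nat_lit 0x460018009201))) 
(.lf (nat_lit 3422557369) (dlOf (nat_lit 1) (nat_lit 0x20028009501))))) (.nd (nat_lit 7) 
(.nd (nat_lit 20) (.lf (nat_lit 5570300537) (dlOf (nat_lit 2) (nat_lit 0xa021000228180d5400))) 
(.lf (nat_lit 6376655481) (dlOf (nat_lit 1) (nat_lit 0x60008095401)))) 
(.lf (nat_lit 3690993913) (dlOf (nat_lit 1) (nat_lit 0x38000800a981))))))))) (.nd (nat_lit 28) 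
(.nd (nat_lit 4) (.nd (nat_lit 19) (.nd (nat_lit 6) (.nd (nat_lit 18) (.nd (nat_lit 7) 
(.nd (nat_lit 20) (.nd (nat_lit 22) 
(.lf (nat_lit 52437033) (dlOf (nat_lit 1) (nat_lit 0x4000400060009530202))) 
(.lf (nat_lit 23076905) (dlOf (nat_lit 3) (nat_lit 0x126fa000933480009e080064000000310200340008b50601)))) 
(.lf (nat_lit 17834025) (dlOf (nat_lit 2) (nat_lit 0x4086c000b60188f0d80)))) (.nd (nat_lit 9) 
(.lf (nat_lit 134229161) (dlOf (nat_lit 2) (nat_lit 0x401040004070000470400020028006281))) 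
(.nd (nat_lit 10) 
(.lf (nat_lit 51391145) (dlOf (nat_lit 4) (nat_lit 0x919d20001b020048ce90000d0100246748000640800780080004002004e0009515603))) 
(.lf (nat_lit 11945) (dlOf (nat_lit 1) (nat_lit 0x120028007201)))))) (.nd (nat_lit 30) 
(.nd (nat_lit 9) (.nd (nat_lit 22) 
(.lf (nat_lit 671359017) (dlOf (nat_lit 1) (nat_lit 0x40018160501))) 
(.lf (nat_lit 12853289) (dlOf (nat_lit 1) (nat_lit 0x4a00186e0a01)))) 
(.lf (nat_lit 39070249) (dlOf (nat_lit 1) (nat_lit 0x400400020009195182)))) (.nd (nat_lit 7) 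
(.nd (nat_lit 9) 
(.lf (nat_lit 3825475625) (dlOf (nat_lit 3) (nat_lit 0x1540160013402003a01d0001d018160500))) 
(.lf (nat_lit 1074012713) (dlOf (nat_lit 2) (nat_lit 0x600520006f0200060018090e01)))) 
(.lf (nat_lit 5436088489) (dlOf (nat_lit 1) (nat_lit 0x200180c1481)))))) (.nd (nat_lit 7) 
(.nd (nat_lit 18) (.nd (nat_lit 21) 
(.lf (nat_lit 12591209) (dlOf (nat_lit 2) (nat_lit 0x9e3db000080186d1400))) 
(.lf (nat_lit 52437097) (dlOf (nat_lit 1) (nat_lit 0x80029530a01)))) (.nd (nat_lit 10) 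
(.lf (nat_lit 2349080681) (dlOf (nat_lit 26) (nat_lit 0xa80500002e0202180280001581003a0140000a80806b00a0000520400b4050000280200940280001381001d0140000980802380a00004a0401c8050000210202460280000f8101230140000780805200a00003a0402040500001c02025a0280000d8100470140000680801200a0000320404bc05000018020202027002e00b80004c10003009c0002204015c0500001002014a02800140070000381001880a0000100401b405000005020090028000008101010140000000800a80080038002000400080a1403))) 
(.lf (nat_lit 2818849897) (dlOf (nat_lit 9) (nat_lit 0x700e400c8042008201f801f006c000501000580e40098042007901f8030806c0004c1000c80de00aa03c007f01b003d00d00104044000a01b00012860030037800080f001c806c00fa034000101680238088000461800e406c000e0220000f82001901b000380880003c0800d407e0001b02007a036003f0110000601007700080350002018a000812c083))))) 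
(.nd (nat_lit 29) (.nd (nat_lit 10) 
(.lf (nat_lit 8399081) (dlOf (nat_lit 2) (nat_lit 0x5caf2000190200020018514b01))) 
(.lf (nat_lit 5502936297) (dlOf (nat_lit 1) (nat_lit 0x400400020008002e82)))) (.nd (nat_lit 26) 
(.lf (nat_lit 4966065385) (dlOf (nat_lit 1) (nat_lit 0x400400020008002e82))) 
(.lf (nat_lit 6106916073) (dlOf (nat_lit 1) (nat_lit 0x20028002e81))))))) (.nd (nat_lit 21) 
(.nd (nat_lit 26) (.nd (nat_lit 9) (.nd (nat_lit 18) 
(.lf (nat_lit 2819104809) (dlOf (nat_lit 9) (nat_lit 0x5681c000e408c000a0200003303000d0230001840801c0118027c0420002a0400f8074000d022802a008400100000002408007207400011010047023007180840058040000210600040450000701000301080000008004800800f4002001200081a0683))) 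
(.lf (nat_lit 27009065) (dlOf (nat_lit 5) (nat_lit 0x380000005f02000e0000002e810025ec28005f5fc005b96e0025b61001d65a80090000000a818006bb0a000dd7f0011db08001141800080080094002000c0008ca0683)))) 
(.lf (nat_lit 50864681) (dlOf (nat_lit 1) (nat_lit 0x3000800e0002001200094d8903)))) 
(.nd (nat_lit 6) (.nd (nat_lit 30) 
(.lf (nat_lit 67641385) (dlOf (nat_lit 1) (nat_lit 0xc4002000a00082c0802))) 
(.lf (nat_lit 3288866857) (dlOf (nat_lit 3) (nat_lit 0xa0030001800000ebe08001000c0075e02001800281d0a01)))) 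
(.lf (nat_lit 4362608745) (dlOf (nat_lit 2) (nat_lit 0x90033000080180a1400))))) (.nd (nat_lit 23) 
(.nd (nat_lit 26) 
(.lf (nat_lit 2629673) (dlOf (nat_lit 4) (nat_lit 0x1a9780003604001147a0000b020006a5c00035290000281000c0008000c00200080008180a83))) 
(.lf (nat_lit 2754093097) (dlOf (nat_lit 2) (nat_lit 0x6088000110180c0d00)))) (.nd (nat_lit 18) 
(.nd (nat_lit 20) (.lf (nat_lit 27795497) (dlOf (nat_lit 1) (nat_lit 0x400200020008d20782))) 
(.lf (nat_lit 45621289) (dlOf (nat_lit 1) (nat_lit 0x20019340201)))) 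
(.lf (nat_lit 11280425) (dlOf (nat_lit 1) (nat_lit 0x20028680681))))))) (.nd (nat_lit 18) 
(.nd (nat_lit 19) (.nd (nat_lit 21) (.nd (nat_lit 10) (.nd (nat_lit 12) 
(.lf (nat_lit 13639737) (dlOf (nat_lit 1) (nat_lit 0x20018730b81))) 
(.lf (nat_lit 603992121) (dlOf (nat_lit 1) (nat_lit 0x8002000a0008007c82)))) (.nd (nat_lit 7) 
(.lf (nat_lit 5435827257) (dlOf (nat_lit 1) (nat_lit 0x140018002881))) 
(.lf (nat_lit 6509569721) (dlOf (nat_lit 1) (nat_lit 0x20028003a81))))) (.nd (nat_lit 6) 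
(.lf (nat_lit 52437049) (dlOf (nat_lit 1) (nat_lit 0x40029530581))) (.nd (nat_lit 7) 
(.lf (nat_lit 18882681) (dlOf (nat_lit 1) (nat_lit 0x400400040008970482))) 
(.lf (nat_lit 19931385) (dlOf (nat_lit 1) (nat_lit 0x4002000200089d0a82)))))) (.nd (nat_lit 30) 
(.nd (nat_lit 7) (.nd (nat_lit 29) 
(.lf (nat_lit 134750265) (dlOf (nat_lit 3) (nat_lit 0x1803b0002d0100170250001540801b0008000c002007000080a0b83))) 
(.lf (nat_lit 2819104825) (dlOf (nat_lit 2) (nat_lit 0x2e0740000b8181a0880)))) (.nd (nat_lit 6) 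
(.lf (nat_lit 8926905) (dlOf (nat_lit 1) (nat_lit 0x2a001851a001))) 
(.lf (nat_lit 58204409) (dlOf (nat_lit 1) (nat_lit 0x14002000800097c2902))))) (.nd (nat_lit 6) 
(.nd (nat_lit 29) 
(.lf (nat_lit 3288866873) (dlOf (nat_lit 2) (nat_lit 0xd0028000180800800080044002000a00081d0b83))) 
(.lf (nat_lit 1678254137) (dlOf (nat_lit 3) (nat_lit 0xc05a000802c000178200040168000500800a00080044002003a00081c0b83)))) 
(.nd (nat_lit 26) 
(.lf (nat_lit 3221758073) (dlOf (nat_lit 4) (nat_lit 0x48108003f8040054084001fa02001a04d000f3018170080))) 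
(.lf (nat_lit 3959955577) (dlOf (nat_lit 4) (nat_lit 0x48108004220400540840020f02001a04d000fc018170080))))))) 
(.nd (nat_lit 7) (.nd (nat_lit 22) (.nd (nat_lit 9) (.nd (nat_lit 26) 
(.lf (nat_lit 671359033) (dlOf (nat_lit 8) (nat_lit 0x802500120110001bc1000f8094033804400066040038022000318100040128000500800200940002204001004a0001002000802500006018160680))) 
(.lf (nat_lit 3825475641) (dlOf (nat_lit 4) (nat_lit 0x5000000188080008000000c00402bc0140098008003800000000018022000800d800200460008160683)))) 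
(.lf (nat_lit 69478969) (dlOf (nat_lit 1) (nat_lit 0x18008000c00200040008a25203)))) 
(.nd (nat_lit 20) (.lf (nat_lit 29630521) (dlOf (nat_lit 1) (nat_lit 0x8008000400200020008e30003))) 
(.nd (nat_lit 21) (.lf (nat_lit 22290489) (dlOf (nat_lit 1) (nat_lit 0x400200020008ab0c82))) 
(.lf (nat_lit 24387641) (dlOf (nat_lit 1) (nat_lit 0x20028b90b81)))))) (.nd (nat_lit 10) 
(.nd (nat_lit 11) (.lf (nat_lit 28582073) (dlOf (nat_lit 1) (nat_lit 0x1c0028da0481))) 
(.lf (nat_lit 135014585) (dlOf (nat_lit 1) (nat_lit 0x200280f4901)))) (.nd (nat_lit 19) 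
(.lf (nat_lit 42214585) (dlOf (nat_lit 1) (nat_lit 0x64002004a0009242c82))) 
(.lf (nat_lit 47981753) (dlOf (nat_lit 1) (nat_lit 0x20029402c81)))))))) (.nd (nat_lit 18) 
(.nd (nat_lit 19) (.nd (nat_lit 9) (.nd (nat_lit 4) (.nd (nat_lit 6) (.nd (nat_lit 7) 
(.lf (nat_lit 469775401) (dlOf (nat_lit 1) (nat_lit 0x800400060008009202))) 
(.lf (nat_lit 1879059625) (dlOf (nat_lit 1) (nat_lit 0x20028006281)))) 
(.lf (nat_lit 4630521065) (dlOf (nat_lit 1) (nat_lit 0x20028002e81)))) (.nd (nat_lit 6) 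
(.nd (nat_lit 7) (.lf (nat_lit 1342190649) (dlOf (nat_lit 1) (nat_lit 0x2400400160008009202))) 
(.lf (nat_lit 1409297593) (dlOf (nat_lit 1) (nat_lit 0x200028006301)))) 
(.lf (nat_lit 1476407545) (dlOf (nat_lit 1) (nat_lit 0x400200020008008082))))) (.nd (nat_lit 10) 
(.nd (nat_lit 6) (.nd (nat_lit 29) 
(.lf (nat_lit 1342192313) (dlOf (nat_lit 1) (nat_lit 0x2002800b881))) 
(.lf (nat_lit 1879063225) (dlOf (nat_lit 1) (nat_lit 0xc0040004000800b882)))) 
(.lf (nat_lit 6377450233) (dlOf (nat_lit 2) (nat_lit 0x2044000044040010002001e00080e5a02)))) 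
(.nd (nat_lit 4) (.nd (nat_lit 7) 
(.lf (nat_lit 6375351849) (dlOf (nat_lit 1) (nat_lit 0x400400020008003702))) 
(.lf (nat_lit 2415929001) (dlOf (nat_lit 1) (nat_lit 0x80028003a81)))) 
(.lf (nat_lit 6375351929) (dlOf (nat_lit 1) (nat_lit 0x400200020008003982)))))) (.nd (nat_lit 4) 
(.nd (nat_lit 29) (.nd (nat_lit 20) (.nd (nat_lit 21) 
(.lf (nat_lit 1409818665) (dlOf (nat_lit 2) (nat_lit 0x402a00379c080058008006c002000a0008090003))) 
(.lf (nat_lit 3492290601) (dlOf (nat_lit 3) (nat_lit 0x550460027822c00048080298118013e08b000110280c0c00)))) 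
(.lf (nat_lit 1343758377) (dlOf (nat_lit 1) (nat_lit 0x60028360801)))) (.nd (nat_lit 31) 
(.lf (nat_lit 1879580713) (dlOf (nat_lit 1) (nat_lit 0x8008000400200020008200803))) 
(.lf (nat_lit 4027064361) (dlOf (nat_lit 3) (nat_lit 0xa00300018000019b408001000c00cd902001800281d0a01))))) 
(.nd (nat_lit 6) (.nd (nat_lit 21) (.nd (nat_lit 26) (.nd (nat_lit 30) 
(.lf (nat_lit 805838905) (dlOf (nat_lit 3) (nat_lit 0xc05a000802c000178200040168000500800a00080044002003a00081c0b83))) 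
(.lf (nat_lit 4027064377) (dlOf (nat_lit 2) (nat_lit 0xd0028000180800800080044002000a00081d0b83)))) 
(.lf (nat_lit 4228390969) (dlOf (nat_lit 1) (nat_lit 0x200280a0b81)))) 
(.lf (nat_lit 3492290617) (dlOf (nat_lit 2) (nat_lit 0x1408a0001d0180c1300)))) (.nd (nat_lit 9) 
(.nd (nat_lit 26) 
(.lf (nat_lit 1342710009) (dlOf (nat_lit 3) (nat_lit 0x1ac48e0023902010c247001170180c0480))) 
(.lf (nat_lit 1946689785) (dlOf (nat_lit 1) (nat_lit 0x60002005800081b0482)))) 
(.lf (nat_lit 1880632057) (dlOf (nat_lit 1) (nat_lit 0x4004000a0008b05a02))))))) (.nd (nat_lit 27) 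
(.nd (nat_lit 6) (.nd (nat_lit 7) (.nd (nat_lit 19) (.nd (nat_lit 9) 
(.lf (nat_lit 335814697) (dlOf (nat_lit 4) (nat_lit 0x9401000017810002009800180400005c08003c0320002c02001c00280b0381))) 
(.lf (nat_lit 1946427945) (dlOf (nat_lit 2) (nat_lit 0x600520006f0200060018090e01)))) 
(.nd (nat_lit 29) 
(.lf (nat_lit 1342971945) (dlOf (nat_lit 5) (nat_lit 0x200940002881000d04a00013c0800882500006e040034128000360200040008120c01))) 
(.lf (nat_lit 1879842857) (dlOf (nat_lit 1) (nat_lit 0x80008390b01))))) (.nd (nat_lit 10) 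
(.lf (nat_lit 4563673257) (dlOf (nat_lit 1) (nat_lit 0x400180c1481))) 
(.lf (nat_lit 1346643113) (dlOf (nat_lit 1) (nat_lit 0x20028fe2c01))))) (.nd (nat_lit 7) 
(.nd (nat_lit 4) (.nd (nat_lit 9) 
(.lf (nat_lit 2483298409) (dlOf (nat_lit 3) (nat_lit 0x18405000027020002028000128180a1400))) 
(.lf (nat_lit 5100546665) (dlOf (nat_lit 1) (nat_lit 0x200180d5381)))) 
(.lf (nat_lit 6241397369) (dlOf (nat_lit 1) (nat_lit 0x600180d5401)))) (.nd (nat_lit 26) 
(.lf (nat_lit 6711157993) (dlOf (nat_lit 1) (nat_lit 0x400400020008092e82))) 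
(.lf (nat_lit 872686825) (dlOf (nat_lit 1) (nat_lit 0xb800400680008092e82)))))) (.nd (nat_lit 30) 
(.nd (nat_lit 4) (.nd (nat_lit 7) (.nd (nat_lit 29) 
(.lf (nat_lit 402923561) (dlOf (nat_lit 4) (nat_lit 0x9401000019010002009800180400006208003c0340002f02001c00280b0381))) 
(.lf (nat_lit 3087278121) (dlOf (nat_lit 3) (nat_lit 0x1540160015e02003a01d0005a818160500)))) 
(.lf (nat_lit 473703593) (dlOf (nat_lit 2) (nat_lit 0x503640000004000400400020018fa2c02)))) 
(.nd (nat_lit 6) (.nd (nat_lit 19) 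
(.lf (nat_lit 3087278137) (dlOf (nat_lit 4) (nat_lit 0x500000018c080008000000c00402bc0140098008003800000000018022000800d800200460008160683))) 
(.lf (nat_lit 1007427641) (dlOf (nat_lit 1) (nat_lit 0x9c002001e0008350902)))) 
(.lf (nat_lit 5301870713) (dlOf (nat_lit 2) (nat_lit 0x60000000000801600080068002001400080c0b83))))) 
(.nd (nat_lit 32) (.nd (nat_lit 4) (.nd (nat_lit 31) 
(.lf (nat_lit 1543774249) (dlOf (nat_lit 1) (nat_lit 0x40018160501))) 
(.lf (nat_lit 3691257897) (dlOf (nat_lit 2) (nat_lit 0x601500180030000001000280080030002000c0008100703)))) 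
(.lf (nat_lit 1543774265) (dlOf (nat_lit 8) (nat_lit 0x802500120110001bc1000f80940338044000660400380220003101000401280005c0800200940002204001004a0001002000802500006018160680)))) 
(.nd (nat_lit 19) (.lf (nat_lit 5838741545) (dlOf (nat_lit 1) (nat_lit 0x1980028190881))) 
(.nd (nat_lit 26) 
(.lf (nat_lit 5773205545) (dlOf (nat_lit 5) (nat_lit 0x34278009c12f001e0588000c81803c04f000cc25e001a0b1000188300400588000bc0800c800000024040004004000c00080b0382))) 
(.lf (nat_lit 6377185321) (dlOf (nat_lit 5) (nat_lit 0x3425e009c120001e05a0000bc1803c04bc00cc240001a0b40001703004005a0000b00800c800000024040004004000c00080b0382))))))))))) 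
(.nd (nat_lit 6) (.nd (nat_lit 7) (.nd (nat_lit 9) (.nd (nat_lit 26) (.nd (nat_lit 11) 
(.nd (nat_lit 27) (.nd (nat_lit 4) 
(.lf (nat_lit 1048873) (dlOf (nat_lit 1) (nat_lit 0x800200020008068202))) (.nd (nat_lit 10) 
(.lf (nat_lit 19665209) (dlOf (nat_lit 1) (nat_lit 0x300080008002000600089d8183))) 
(.lf (nat_lit 8402233) (dlOf (nat_lit 1) (nat_lit 0x400200020008519902))))) (.nd (nat_lit 13) 
(.nd (nat_lit 29) (.lf (nat_lit 5502928169) (dlOf (nat_lit 1) (nat_lit 0x400400020008003182))) 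
(.lf (nat_lit 4966057257) (dlOf (nat_lit 1) (nat_lit 0x400400020008003182)))) 
(.lf (nat_lit 5772944681) (dlOf (nat_lit 1) (nat_lit 0x400200020008093182))))) (.nd (nat_lit 28) 
(.nd (nat_lit 4) (.nd (nat_lit 27) 
(.lf (nat_lit 4294970665) (dlOf (nat_lit 1) (nat_lit 0x400400020008006802))) 
(.lf (nat_lit 134221097) (dlOf (nat_lit 1) (nat_lit 0x400400020008006802)))) 
(.lf (nat_lit 1073744185) (dlOf (nat_lit 1) (nat_lit 0x40008000c002000a0008004c03)))) 
(.nd (nat_lit 31) (.nd (nat_lit 29) 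
(.lf (nat_lit 1342180649) (dlOf (nat_lit 1) (nat_lit 0x400400020008006802))) 
(.lf (nat_lit 1879051561) (dlOf (nat_lit 1) (nat_lit 0x400400020008006802)))) (.nd (nat_lit 19) 
(.lf (nat_lit 2550140201) (dlOf (nat_lit 1) (nat_lit 0x400400020008006802))) 
(.lf (nat_lit 3490188585) (dlOf (nat_lit 1) (nat_lit 0x20018006801))))))) (.nd (nat_lit 28) 
(.nd (nat_lit 11) (.nd (nat_lit 27) (.nd (nat_lit 32) 
(.lf (nat_lit 1140852009) (dlOf (nat_lit 1) (nat_lit 0x400400020008003182))) 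
(.lf (nat_lit 5435819305) (dlOf (nat_lit 1) (nat_lit 0x400400020008003182)))) 
(.lf (nat_lit 6106907945) (dlOf (nat_lit 1) (nat_lit 0x400400020008003182)))) (.nd (nat_lit 4) 
(.nd (nat_lit 10) 
(.lf (nat_lit 201341225) (dlOf (nat_lit 1) (nat_lit 0x800800040020002000800ab83))) 
(.lf (nat_lit 3288337705) (dlOf (nat_lit 1) (nat_lit 0x400400020008006802)))) 
(.lf (nat_lit 6509574457) (dlOf (nat_lit 2) (nat_lit 0x40000067c020002001800ab81))))) 
(.nd (nat_lit 30) (.nd (nat_lit 4) (.nd (nat_lit 11) 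
(.lf (nat_lit 4630512937) (dlOf (nat_lit 1) (nat_lit 0x400400020008003182))) 
(.lf (nat_lit 2483031337) (dlOf (nat_lit 1) (nat_lit 0x400400020008006802)))) 
(.lf (nat_lit 469777721) (dlOf (nat_lit 2) (nat_lit 0x2204e8003d408005000800380020010000800c803)))) 
(.nd (nat_lit 27) (.nd (nat_lit 29) 
(.lf (nat_lit 1409289513) (dlOf (nat_lit 1) (nat_lit 0x400400020008006802))) 
(.lf (nat_lit 1946160425) (dlOf (nat_lit 1) (nat_lit 0x400400020008006802)))) 
(.lf (nat_lit 4227861801) (dlOf (nat_lit 1) (nat_lit 0x400400020008006802))))))) (.nd (nat_lit 18) 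
(.nd (nat_lit 13) (.nd (nat_lit 4) (.nd (nat_lit 11) 
(.lf (nat_lit 67109673) (dlOf (nat_lit 1) (nat_lit 0x8008000400200020008002203))) 
(.lf (nat_lit 872418089) (dlOf (nat_lit 2) (nat_lit 0x8603800113018005c00)))) (.nd (nat_lit 10) 
(.nd (nat_lit 12) (.lf (nat_lit 19925817) (dlOf (nat_lit 1) (nat_lit 0x4002000200089d5c02))) 
(.lf (nat_lit 2885688121) (dlOf (nat_lit 1) (nat_lit 0x4001800bc81)))) 
(.lf (nat_lit 2415920953) (dlOf (nat_lit 1) (nat_lit 0x20018003e01))))) (.nd (nat_lit 12) 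
(.nd (nat_lit 4) 
(.lf (nat_lit 4697631529) (dlOf (nat_lit 2) (nat_lit 0x480cc0037e04000400400040018005c02))) 
(.nd (nat_lit 26) (.lf (nat_lit 6710897465) (dlOf (nat_lit 1) (nat_lit 0x20028005c01))) 
(.lf (nat_lit 5033175865) (dlOf (nat_lit 1) (nat_lit 0x270008002c00200020008005c03))))) 
(.nd (nat_lit 4) 
(.lf (nat_lit 2885696297) (dlOf (nat_lit 2) (nat_lit 0x500b80154408002000800140020018000800bc83))) 
(.nd (nat_lit 27) (.lf (nat_lit 1342191417) (dlOf (nat_lit 1) (nat_lit 0x8002800a101))) 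
(.lf (nat_lit 1476409145) (dlOf (nat_lit 3) (nat_lit 0x1006c0004502001a0340000f01800a100))))))) 
(.nd (nat_lit 4) (.nd (nat_lit 19) (.nd (nat_lit 13) (.nd (nat_lit 22) 
(.lf (nat_lit 6241389353) (dlOf (nat_lit 1) (nat_lit 0x4002000200080d5c02))) 
(.lf (nat_lit 54790953) (dlOf (nat_lit 1) (nat_lit 0xc00200120009655c02)))) 
(.lf (nat_lit 54799145) (dlOf (nat_lit 1) (nat_lit 0x80029655c01)))) (.nd (nat_lit 12) 
(.lf (nat_lit 46926633) (dlOf (nat_lit 2) (nat_lit 0x487500007cc08002000800d4002000a0009385c03))) 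
(.lf (nat_lit 537664297) (dlOf (nat_lit 4) (nat_lit 0x181d8002400000558040012076002a481000a03b0015200800500080038002003e00080fbc83))))) 
(.nd (nat_lit 10) (.nd (nat_lit 11) 
(.lf (nat_lit 19665721) (dlOf (nat_lit 1) (nat_lit 0x2000089d8f81))) 
(.lf (nat_lit 4496558905) (dlOf (nat_lit 1) (nat_lit 0x2000080094002004600080e5c03)))) 
(.nd (nat_lit 12) (.nd (nat_lit 19) 
(.lf (nat_lit 3493078841) (dlOf (nat_lit 5) (nat_lit 0x62080001b01001110b000108540004428005e20800011000000d4280078858000c42a00142140003104000408000006814005842c0008215000310a0003880000054100004004000400180f3e02))) 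
(.lf (nat_lit 2752259897) (dlOf (nat_lit 1) (nat_lit 0x8a0028003e01)))) 
(.lf (nat_lit 3557037881) (dlOf (nat_lit 4) (nat_lit 0x10028000fc0800080000003c04000400c0001c020034000812a101)))))))) 
(.nd (nat_lit 28) (.nd (nat_lit 26) (.nd (nat_lit 9) (.nd (nat_lit 13) (.nd (nat_lit 4) 
(.nd (nat_lit 10) (.lf (nat_lit 19927465) (dlOf (nat_lit 1) (nat_lit 0x200189d8401))) 
(.lf (nat_lit 4966057385) (dlOf (nat_lit 1) (nat_lit 0x640018003601)))) 
(.lf (nat_lit 60295609) (dlOf (nat_lit 1) (nat_lit 0x20019844e81)))) (.nd (nat_lit 4) 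
(.nd (nat_lit 12) 
(.lf (nat_lit 58204585) (dlOf (nat_lit 1) (nat_lit 0x300080004002000200097c6e83))) 
(.lf (nat_lit 19935657) (dlOf (nat_lit 1) (nat_lit 0x180080008002000200089d8403)))) 
(.lf (nat_lit 58204601) (dlOf (nat_lit 2) (nat_lit 0x784a000838197c6f00))))) (.nd (nat_lit 10) 
(.nd (nat_lit 4) (.nd (nat_lit 18) 
(.lf (nat_lit 7081) (dlOf (nat_lit 1) (nat_lit 0x800800040020002000800bd03))) 
(.lf (nat_lit 537664425) (dlOf (nat_lit 5) (nat_lit 0x401d800180ea000a0000011783000703b000281d400100e2000807000040310002818400140000022a0e000a07600040330008741000281d80042a040024004000400180fbd02)))) 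
(.lf (nat_lit 5368712121) (dlOf (nat_lit 1) (nat_lit 0x8008000400200020008005d03)))) 
(.nd (nat_lit 11) (.lf (nat_lit 8390569) (dlOf (nat_lit 1) (nat_lit 0x620028514301))) 
(.lf (nat_lit 2818838441) (dlOf (nat_lit 1) (nat_lit 0x10008000400200040008127983)))))) 
(.nd (nat_lit 31) (.nd (nat_lit 11) (.nd (nat_lit 4) (.nd (nat_lit 13) 
(.lf (nat_lit 1140851113) (dlOf (nat_lit 1) (nat_lit 0x800400020008001002))) 
(.lf (nat_lit 1140859305) (dlOf (nat_lit 1) (nat_lit 0x400400020008001002)))) 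
(.lf (nat_lit 1140851129) (dlOf (nat_lit 1) (nat_lit 0x1c004000c0018001082)))) (.nd (nat_lit 4) 
(.nd (nat_lit 9) (.lf (nat_lit 67115433) (dlOf (nat_lit 1) (nat_lit 0x1800800040020002000800af83))) 
(.lf (nat_lit 1275079593) (dlOf (nat_lit 3) (nat_lit 0x300000001e040004000000000200140008005d01)))) 
(.lf (nat_lit 67115449) (dlOf (nat_lit 1) (nat_lit 0x2000800af81))))) (.nd (nat_lit 9) 
(.nd (nat_lit 4) (.nd (nat_lit 11) 
(.lf (nat_lit 3288596905) (dlOf (nat_lit 3) (nat_lit 0x403600bf501002301b0000000801f8008005c00200700008090783))) 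
(.lf (nat_lit 2754619817) (dlOf (nat_lit 1) (nat_lit 0x4002000200080f4e82)))) 
(.lf (nat_lit 2752512441) (dlOf (nat_lit 1) (nat_lit 0x698008000400200f00008017783)))) 
(.nd (nat_lit 4) (.nd (nat_lit 11) 
(.lf (nat_lit 2214593449) (dlOf (nat_lit 1) (nat_lit 0x10004001c0008002682))) 
(.lf (nat_lit 2885696425) (dlOf (nat_lit 2) (nat_lit 0x1c060000e02f0007017000300b4002004e000401e000200d0004805c001c026000e0050006001000300000045630000c0040004001800bd02)))) 
(.lf (nat_lit 2751989689) (dlOf (nat_lit 1) (nat_lit 0x60028004381))))))) (.nd (nat_lit 10) 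
(.nd (nat_lit 12) (.nd (nat_lit 13) (.nd (nat_lit 4) 
(.lf (nat_lit 5772411305) (dlOf (nat_lit 1) (nat_lit 0x20028091001))) 
(.lf (nat_lit 1346898361) (dlOf (nat_lit 2) (nat_lit 0xc11800b4a02000200190a4e81)))) 
(.nd (nat_lit 9) (.nd (nat_lit 18) 
(.lf (nat_lit 5771372969) (dlOf (nat_lit 1) (nat_lit 0x20028004e81))) 
(.lf (nat_lit 3489933737) (dlOf (nat_lit 1) (nat_lit 0x20008004e81)))) 
(.lf (nat_lit 5771635625) (dlOf (nat_lit 1) (nat_lit 0xc00400020008005d02))))) (.nd (nat_lit 4) 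
(.nd (nat_lit 9) (.nd (nat_lit 29) 
(.lf (nat_lit 1342183849) (dlOf (nat_lit 1) (nat_lit 0x4002800af81))) 
(.lf (nat_lit 1879054761) (dlOf (nat_lit 1) (nat_lit 0x140040002000800af82)))) 
(.lf (nat_lit 3489668009) (dlOf (nat_lit 1) (nat_lit 0x480020224000800bd02)))) (.nd (nat_lit 13) 
(.nd (nat_lit 26) (.lf (nat_lit 1342183865) (dlOf (nat_lit 1) (nat_lit 0x40040002000800af82))) 
(.lf (nat_lit 3690994105) (dlOf (nat_lit 1) (nat_lit 0x2001800af81)))) 
(.lf (nat_lit 3557046713) (dlOf (nat_lit 1) (nat_lit 0x380080070002009a000812af83)))))) 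
(.nd (nat_lit 26) (.nd (nat_lit 4) (.nd (nat_lit 9) (.nd (nat_lit 13) 
(.lf (nat_lit 3489668521) (dlOf (nat_lit 2) (nat_lit 0x7e1f50001681800cb80))) 
(.lf (nat_lit 1342193065) (dlOf (nat_lit 1) (nat_lit 0x200020018000800cb82)))) 
(.lf (nat_lit 2952802217) (dlOf (nat_lit 1) (nat_lit 0xe0028007981)))) (.nd (nat_lit 9) 
(.nd (nat_lit 11) (.lf (nat_lit 5234755001) (dlOf (nat_lit 1) (nat_lit 0x200180d3601))) 
(.lf (nat_lit 2952805817) (dlOf (nat_lit 1) (nat_lit 0x3000800180020004000800cd03)))) 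
(.lf (nat_lit 2952794041) (dlOf (nat_lit 1) (nat_lit 0x9a0018007a81))))) (.nd (nat_lit 11) 
(.nd (nat_lit 4) 
(.lf (nat_lit 3690993065) (dlOf (nat_lit 1) (nat_lit 0xa8008001000200060008009903))) 
(.lf (nat_lit 469768121) (dlOf (nat_lit 1) (nat_lit 0x2001800a501)))) (.nd (nat_lit 13) 
(.nd (nat_lit 27) (.lf (nat_lit 2483035561) (dlOf (nat_lit 1) (nat_lit 0x80040002000800cb82))) 
(.lf (nat_lit 4227866025) (dlOf (nat_lit 1) (nat_lit 0x2002800cb81)))) 
(.lf (nat_lit 4227874217) (dlOf (nat_lit 7) (nat_lit 0xc00c8000c0580001c04002a040000501900006c1000781300014064004602c0000d030019020000200c8000300800e407e000130200e604b00f001f800044101c5800801b800203de000800cb83))))))))) 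
(.nd (nat_lit 26) (.nd (nat_lit 11) (.nd (nat_lit 18) (.nd (nat_lit 7) (.nd (nat_lit 4) 
(.nd (nat_lit 9) (.nd (nat_lit 10) 
(.lf (nat_lit 42991977) (dlOf (nat_lit 1) (nat_lit 0x200092a0f01))) 
(.lf (nat_lit 20460905) (dlOf (nat_lit 1) (nat_lit 0x100080004002000200089d9903)))) 
(.lf (nat_lit 1476401001) (dlOf (nat_lit 1) (nat_lit 0x288008012c00200a6000800a303)))) 
(.nd (nat_lit 12) (.nd (nat_lit 9) 
(.lf (nat_lit 25698681) (dlOf (nat_lit 1) (nat_lit 0xa0008c10b01))) 
(.lf (nat_lit 2281710457) (dlOf (nat_lit 1) (nat_lit 0x80028002581)))) (.nd (nat_lit 27) 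
(.lf (nat_lit 2684359545) (dlOf (nat_lit 1) (nat_lit 0x400400020008008f82))) 
(.lf (nat_lit 2281706361) (dlOf (nat_lit 1) (nat_lit 0x400400020008008f82)))))) (.nd (nat_lit 4) 
(.nd (nat_lit 9) (.lf (nat_lit 3490709993) (dlOf (nat_lit 2) (nat_lit 0xa006600017018017300))) 
(.nd (nat_lit 10) (.lf (nat_lit 6308234217) (dlOf (nat_lit 1) (nat_lit 0xe0028002881))) 
(.lf (nat_lit 2025) (dlOf (nat_lit 1) (nat_lit 0x40028004601))))) (.nd (nat_lit 10) 
(.nd (nat_lit 9) 
(.lf (nat_lit 1342710265) (dlOf (nat_lit 7) (nat_lit 0x450550003c2a20023b04005e23c0011c81009111e0008680806b08f00043004002848e01fa23c0010b82001011e0008580800a8008005c002007400080c0d83))) 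
(.lf (nat_lit 1744831481) (dlOf (nat_lit 1) (nat_lit 0x24002000a0008002882)))) (.nd (nat_lit 27) 
(.lf (nat_lit 2147493369) (dlOf (nat_lit 1) (nat_lit 0x40028003681))) 
(.lf (nat_lit 4966065657) (dlOf (nat_lit 1) (nat_lit 0x400400020008003682))))))) (.nd (nat_lit 19) 
(.nd (nat_lit 29) (.nd (nat_lit 4) 
(.lf (nat_lit 50602985) (dlOf (nat_lit 1) (nat_lit 0x2c00294c2881))) (.nd (nat_lit 7) 
(.lf (nat_lit 20190073) (dlOf (nat_lit 1) (nat_lit 0x180080014002000200089d8f83))) 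
(.lf (nat_lit 9699833) (dlOf (nat_lit 1) (nat_lit 0x8008001000200020008577e03))))) 
(.nd (nat_lit 10) (.nd (nat_lit 13) 
(.lf (nat_lit 5905842681) (dlOf (nat_lit 4) (nat_lit 0x80128001780800080940008804001004a0004302000e0008157e01))) 
(.lf (nat_lit 5905850873) (dlOf (nat_lit 6) (nat_lit 0x24a025012500b800178100930094049802e0005c0401c002500ff00b8001101007c809403f802e000430400de025006200b800100100040008002c00200040008157e03)))) 
(.nd (nat_lit 7) 
(.lf (nat_lit 5234754937) (dlOf (nat_lit 2) (nat_lit 0x38060000000400e4004002c00180d3502))) 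
(.lf (nat_lit 1610876409) (dlOf (nat_lit 1) (nat_lit 0x800400020018093682)))))) (.nd (nat_lit 20) 
(.nd (nat_lit 13) (.lf (nat_lit 786937) (dlOf (nat_lit 1) (nat_lit 0x20008017e01))) 
(.lf (nat_lit 795129) (dlOf (nat_lit 1) (nat_lit 0x20028017e01)))) (.nd (nat_lit 9) 
(.lf (nat_lit 43779577) (dlOf (nat_lit 1) (nat_lit 0x1800400f400092a3682))) 
(.lf (nat_lit 43779065) (dlOf (nat_lit 1) (nat_lit 0x4004000200092a2882))))))) (.nd (nat_lit 30) 
(.nd (nat_lit 13) (.nd (nat_lit 7) (.nd (nat_lit 4) (.nd (nat_lit 9) 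
(.lf (nat_lit 39848297) (dlOf (nat_lit 1) (nat_lit 0xe00291f4e81))) 
(.lf (nat_lit 6710889321) (dlOf (nat_lit 1) (nat_lit 0x18008000c00200020008005c03)))) 
(.lf (nat_lit 134225273) (dlOf (nat_lit 2) (nat_lit 0x201d80135808016800800980020012000800c903)))) 
(.nd (nat_lit 27) (.nd (nat_lit 28) 
(.lf (nat_lit 4294969833) (dlOf (nat_lit 1) (nat_lit 0x400400020008004e82))) 
(.lf (nat_lit 6710888937) (dlOf (nat_lit 1) (nat_lit 0x8008000400200020008004e83)))) 
(.nd (nat_lit 28) 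
(.lf (nat_lit 134220265) (dlOf (nat_lit 1) (nat_lit 0x8008000400200020008004e83))) 
(.lf (nat_lit 2550139369) (dlOf (nat_lit 1) (nat_lit 0x400400020008004e82)))))) (.nd (nat_lit 18) 
(.nd (nat_lit 7) (.lf (nat_lit 58730873) (dlOf (nat_lit 1) (nat_lit 0x3c00197e4e81))) 
(.nd (nat_lit 19) (.lf (nat_lit 4697631737) (dlOf (nat_lit 1) (nat_lit 0x48004000e0008005f02))) 
(.lf (nat_lit 20458489) (dlOf (nat_lit 1) (nat_lit 0x200189d5f01))))) (.nd (nat_lit 4) 
(.nd (nat_lit 10) 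
(.lf (nat_lit 2818849769) (dlOf (nat_lit 1) (nat_lit 0x80008008c00200b0000812bf03))) 
(.lf (nat_lit 2818846697) (dlOf (nat_lit 1) (nat_lit 0x9800200fa0008127a82)))) 
(.lf (nat_lit 33302905) (dlOf (nat_lit 1) (nat_lit 0x140028f54e81)))))) (.nd (nat_lit 29) 
(.nd (nat_lit 7) (.nd (nat_lit 4) (.nd (nat_lit 9) 
(.lf (nat_lit 1342187881) (dlOf (nat_lit 1) (nat_lit 0x400400020018004e82))) 
(.lf (nat_lit 5368712041) (dlOf (nat_lit 1) (nat_lit 0x8008004000200120008005c03)))) 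
(.lf (nat_lit 3489668473) (dlOf (nat_lit 2) (nat_lit 0x440e00022000026682800c900)))) 
(.nd (nat_lit 4) (.nd (nat_lit 28) 
(.lf (nat_lit 5368711657) (dlOf (nat_lit 1) (nat_lit 0x400400020008004e82))) 
(.lf (nat_lit 1342179817) (dlOf (nat_lit 1) (nat_lit 0x20018004e81)))) 
(.lf (nat_lit 5771627513) (dlOf (nat_lit 1) (nat_lit 0x10008000400200020008005f03))))) 
(.nd (nat_lit 4) (.nd (nat_lit 9) (.nd (nat_lit 27) 
(.lf (nat_lit 1879050729) (dlOf (nat_lit 1) (nat_lit 0x8008000400200020008004e83))) 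
(.lf (nat_lit 2013268457) (dlOf (nat_lit 1) (nat_lit 0x400400020008004e82)))) (.nd (nat_lit 7) 
(.lf (nat_lit 2013268841) (dlOf (nat_lit 1) (nat_lit 0x400400020008005c02))) 
(.lf (nat_lit 6308498409) (dlOf (nat_lit 1) (nat_lit 0xc00180d5e81))))) (.nd (nat_lit 7) 
(.lf (nat_lit 1879055225) (dlOf (nat_lit 1) (nat_lit 0x2002800bc81))) (.nd (nat_lit 13) 
(.lf (nat_lit 1881410041) (dlOf (nat_lit 1) (nat_lit 0xb8008005000200960008f04f83))) 
(.lf (nat_lit 1881418233) (dlOf (nat_lit 1) (nat_lit 0xb0004002a0008f04f82))))))))) 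
(.nd (nat_lit 4) (.nd (nat_lit 28) (.nd (nat_lit 7) (.nd (nat_lit 12) (.nd (nat_lit 9) 
(.lf (nat_lit 604505449) (dlOf (nat_lit 3) (nat_lit 0x320340023015001380800014024000800900200000000fc30016810c001807a0008034002201500108080001403200100120006004800e8000000002400bc002001400082d3482))) 
(.lf (nat_lit 5033167721) (dlOf (nat_lit 1) (nat_lit 0x20008000c00200020008005c03)))) 
(.nd (nat_lit 13) 
(.lf (nat_lit 201333097) (dlOf (nat_lit 1) (nat_lit 0x680080030002000c000800ac03))) 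
(.lf (nat_lit 201341289) (dlOf (nat_lit 1) (nat_lit 0x60008003c002000c000800ac03))))) 
(.nd (nat_lit 9) (.nd (nat_lit 13) (.nd (nat_lit 27) 
(.lf (nat_lit 3288336873) (dlOf (nat_lit 1) (nat_lit 0x8008000400200020008004e83))) 
(.lf (nat_lit 5033167337) (dlOf (nat_lit 1) (nat_lit 0x400400020008004e82)))) 
(.lf (nat_lit 2754619881) (dlOf (nat_lit 1) (nat_lit 0x80080004002000200080f4e83)))) 
(.nd (nat_lit 13) (.lf (nat_lit 738462697) (dlOf (nat_lit 1) (nat_lit 0x400200020008095e82))) 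
(.nd (nat_lit 27) (.lf (nat_lit 4899220457) (dlOf (nat_lit 1) (nat_lit 0xa00180d5e81))) 
(.lf (nat_lit 738470889) (dlOf (nat_lit 1) (nat_lit 0x400200020008095e82))))))) (.nd (nat_lit 32) 
(.nd (nat_lit 13) (.nd (nat_lit 27) (.nd (nat_lit 29) 
(.lf (nat_lit 1409288681) (dlOf (nat_lit 1) (nat_lit 0x400400020008004e82))) 
(.lf (nat_lit 1946159593) (dlOf (nat_lit 1) (nat_lit 0x400400020008004e82)))) 
(.lf (nat_lit 4227860969) (dlOf (nat_lit 1) (nat_lit 0x400400020008004e82)))) (.nd (nat_lit 7) 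
(.nd (nat_lit 12) (.lf (nat_lit 4227869033) (dlOf (nat_lit 1) (nat_lit 0x1400200040008004e82))) 
(.lf (nat_lit 469776745) (dlOf (nat_lit 1) (nat_lit 0x2002800ac01)))) (.nd (nat_lit 10) 
(.lf (nat_lit 4227869161) (dlOf (nat_lit 1) (nat_lit 0x20028004e81))) 
(.lf (nat_lit 4227870185) (dlOf (nat_lit 1) (nat_lit 0x40018006e81)))))) (.nd (nat_lit 7) 
(.nd (nat_lit 29) (.lf (nat_lit 4764732265) (dlOf (nat_lit 1) (nat_lit 0xc00400020008005c02))) 
(.lf (nat_lit 5301603177) (dlOf (nat_lit 1) (nat_lit 0x400400020008005c02)))) (.nd (nat_lit 30) 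
(.nd (nat_lit 29) (.lf (nat_lit 4764731881) (dlOf (nat_lit 1) (nat_lit 0x400400020008004e82))) 
(.lf (nat_lit 5301602793) (dlOf (nat_lit 1) (nat_lit 0x400400020008004e82)))) (.nd (nat_lit 11) 
(.lf (nat_lit 6375342569) (dlOf (nat_lit 1) (nat_lit 0x20028001301))) 
(.lf (nat_lit 6376393193) (dlOf (nat_lit 1) (nat_lit 0x4000804a400200e00008094e83)))))))) 
(.nd (nat_lit 11) (.nd (nat_lit 7) (.nd (nat_lit 10) (.nd (nat_lit 27) (.nd (nat_lit 31) 
(.lf (nat_lit 67113849) (dlOf (nat_lit 1) (nat_lit 0x400400020008008f82))) 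
(.lf (nat_lit 2214597497) (dlOf (nat_lit 1) (nat_lit 0x400400020008008f82)))) 
(.lf (nat_lit 6643782521) (dlOf (nat_lit 1) (nat_lit 0x400400020008008f82)))) (.nd (nat_lit 9) 
(.lf (nat_lit 4095747449) (dlOf (nat_lit 2) (nat_lit 0x260000000b0080018008008c002000e00080e3503))) 
(.lf (nat_lit 4362078073) (dlOf (nat_lit 1) (nat_lit 0x400400020008004082))))) (.nd (nat_lit 9) 
(.nd (nat_lit 10) (.nd (nat_lit 13) 
(.lf (nat_lit 2752512505) (dlOf (nat_lit 8) (nat_lit 0x18e03300c8018401f80b801f60570171020003f00f80005e1806600cc032c061007e02e0011816404080ae02fe040007e01f0000b4380310100000560401840800002a0200260400001401000b0000000880800500e40002c0400b000400300018017e02))) 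
(.lf (nat_lit 470295033) (dlOf (nat_lit 5) (nat_lit 0xb88f00043c04000848e01b023c00210aa00087418001091c02ec4780021b04001823c0010d0180c0d80)))) 
(.nd (nat_lit 13) (.lf (nat_lit 738199033) (dlOf (nat_lit 1) (nat_lit 0x180028003681))) 
(.lf (nat_lit 4096009721) (dlOf (nat_lit 1) (nat_lit 0x800280e3681))))) (.nd (nat_lit 32) 
(.nd (nat_lit 10) (.lf (nat_lit 2752250873) (dlOf (nat_lit 1) (nat_lit 0x800400020008002882))) 
(.lf (nat_lit 469764089) (dlOf (nat_lit 1) (nat_lit 0x400400020008004682)))) (.nd (nat_lit 13) 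
(.lf (nat_lit 6509560825) (dlOf (nat_lit 1) (nat_lit 0xc0028002881))) 
(.lf (nat_lit 6509569017) (dlOf (nat_lit 1) (nat_lit 0xc0028002881))))))) (.nd (nat_lit 13) 
(.nd (nat_lit 10) (.nd (nat_lit 9) 
(.lf (nat_lit 4362082681) (dlOf (nat_lit 1) (nat_lit 0x80040002001800ae02))) 
(.lf (nat_lit 1409293177) (dlOf (nat_lit 1) (nat_lit 0x800800040020002000800bc83)))) 
(.nd (nat_lit 27) (.nd (nat_lit 28) 
(.lf (nat_lit 3288341881) (dlOf (nat_lit 2) (nat_lit 0x1801700133408030000800d00020028000800c903))) 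
(.lf (nat_lit 2483035513) (dlOf (nat_lit 1) (nat_lit 0x800800040020002000800c903)))) 
(.nd (nat_lit 7) (.lf (nat_lit 4227865977) (dlOf (nat_lit 1) (nat_lit 0x440020012000800c902))) 
(.lf (nat_lit 4227862009) (dlOf (nat_lit 1) (nat_lit 0x20018006f81)))))) (.nd (nat_lit 29) 
(.nd (nat_lit 10) (.nd (nat_lit 27) 
(.lf (nat_lit 4362090873) (dlOf (nat_lit 1) (nat_lit 0x1800800040020002000800ae03))) 
(.lf (nat_lit 469776761) (dlOf (nat_lit 1) (nat_lit 0x80040002000800ae02)))) 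
(.lf (nat_lit 1409301881) (dlOf (nat_lit 2) (nat_lit 0xb02580133408030000800040020006000800c903)))) 
(.nd (nat_lit 7) (.nd (nat_lit 9) 
(.lf (nat_lit 2754619769) (dlOf (nat_lit 2) (nat_lit 0x100800362804001c004000400080f4e82))) 
(.lf (nat_lit 4227873657) (dlOf (nat_lit 1) (nat_lit 0x180040010001800bc82)))) 
(.lf (nat_lit 6241397753) (dlOf (nat_lit 1) (nat_lit 0x200280d5f01))))))))))) (.nd (nat_lit 18) 
(.nd (nat_lit 11) (.nd (nat_lit 19) (.nd (nat_lit 4) (.nd (nat_lit 10) (.nd (nat_lit 28) 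
(.nd (nat_lit 9) (.nd (nat_lit 20) (.nd (nat_lit 21) 
(.lf (nat_lit 29392937) (dlOf (nat_lit 1) (nat_lit 0x20028e00881))) 
(.lf (nat_lit 14712873) (dlOf (nat_lit 1) (nat_lit 0x60028770301)))) (.nd (nat_lit 6) 
(.nd (nat_lit 22) 
(.lf (nat_lit 2752544809) (dlOf (nat_lit 4) (nat_lit 0xe7124000578080430920002ac04012c2b80000002004c0018020501))) 
(.lf (nat_lit 38830121) (dlOf (nat_lit 1) (nat_lit 0xc00400020009170202)))) 
(.lf (nat_lit 59809897) (dlOf (nat_lit 1) (nat_lit 0x18008000800200040009831e83))))) 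
(.nd (nat_lit 7) (.nd (nat_lit 6) 
(.lf (nat_lit 40927785) (dlOf (nat_lit 1) (nat_lit 0x140029208901))) 
(.lf (nat_lit 19968617) (dlOf (nat_lit 1) (nat_lit 0x4004000400189d8982)))) (.nd (nat_lit 13) 
(.lf (nat_lit 19960489) (dlOf (nat_lit 1) (nat_lit 0x4002000200089d8c82))) 
(.lf (nat_lit 19968681) (dlOf (nat_lit 1) (nat_lit 0x4002000200089d8c82)))))) (.nd (nat_lit 13) 
(.nd (nat_lit 8) (.nd (nat_lit 26) 
(.lf (nat_lit 3490742313) (dlOf (nat_lit 4) (nat_lit 0xe71180004d00804308c00025604012c2ae0000002004c0018020501))) 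
(.lf (nat_lit 470843433) (dlOf (nat_lit 11) (nat_lit 0xc0890002d0100160d4000158080218818005c350001a1a3001c0578008825400441040018072000b01c80028000000a824000c3500004e02002a1a8000258100040d40001280800c06a00009004002440c00241a8000c0d1800d82bc002c12a00140820004039000300e4001c000000421200201a80001e010006000000090080068008008c002006000081c0683)))) 
(.nd (nat_lit 6) (.lf (nat_lit 1880129833) (dlOf (nat_lit 1) (nat_lit 0x60018740701))) 
(.lf (nat_lit 4093674473) (dlOf (nat_lit 1) (nat_lit 0x360018002881))))) (.nd (nat_lit 20) 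
(.nd (nat_lit 21) (.lf (nat_lit 1543544873) (dlOf (nat_lit 1) (nat_lit 0x4004000200180b0002))) 
(.lf (nat_lit 1881186345) (dlOf (nat_lit 1) (nat_lit 0x400400020008e40202)))) 
(.lf (nat_lit 470851625) (dlOf (nat_lit 6) (nat_lit 0x28350000560200361a8002c0d1801e027c011012a000e0820033039001880e400fc04a004000f002e0000001505000786a00009004004c35000521a3003904f801702540098104005c072002b01c801d0094000801e003a000000210a002c0d40000f008001800801d400200a400081c0683)))))) 
(.nd (nat_lit 6) (.nd (nat_lit 7) (.nd (nat_lit 8) (.nd (nat_lit 9) 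
(.lf (nat_lit 469799977) (dlOf (nat_lit 2) (nat_lit 0x1e0470028c40803c0008000c00200440008009203))) 
(.lf (nat_lit 268469801) (dlOf (nat_lit 1) (nat_lit 0x800400020008053702)))) 
(.lf (nat_lit 268469545) (dlOf (nat_lit 1) (nat_lit 0x400400020008053182)))) (.nd (nat_lit 9) 
(.nd (nat_lit 8) (.lf (nat_lit 51414185) (dlOf (nat_lit 1) (nat_lit 0x2000400440009512c02))) 
(.lf (nat_lit 6106940841) (dlOf (nat_lit 2) (nat_lit 0x802c000e015000b00a0002f4180038008000c00200220008003603)))) 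
(.nd (nat_lit 13) (.lf (nat_lit 8423337) (dlOf (nat_lit 1) (nat_lit 0x740028514301))) 
(.lf (nat_lit 8431529) (dlOf (nat_lit 1) (nat_lit 0x360028514301)))))) (.nd (nat_lit 9) 
(.nd (nat_lit 7) (.lf (nat_lit 50373993) (dlOf (nat_lit 1) (nat_lit 0x1c004000c00094c3482))) 
(.nd (nat_lit 8) 
(.lf (nat_lit 4563444969) (dlOf (nat_lit 1) (nat_lit 0x8008000400200020008002e83))) 
(.lf (nat_lit 268477929) (dlOf (nat_lit 1) (nat_lit 0x800080028002001c0008053603))))) 
(.nd (nat_lit 13) (.nd (nat_lit 20) 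
(.lf (nat_lit 3825244137) (dlOf (nat_lit 1) (nat_lit 0x4a001800a601))) 
(.lf (nat_lit 3492845545) (dlOf (nat_lit 1) (nat_lit 0x1c004000400080fa602)))) 
(.lf (nat_lit 3221272553) (dlOf (nat_lit 2) (nat_lit 0x10230015940800f800800180020016000800a603))))))) 
(.nd (nat_lit 6) (.nd (nat_lit 12) (.nd (nat_lit 20) (.nd (nat_lit 13) 
(.lf (nat_lit 12615737) (dlOf (nat_lit 1) (nat_lit 0x4004000400186d0b02))) (.nd (nat_lit 21) 
(.lf (nat_lit 25206841) (dlOf (nat_lit 3) (nat_lit 0x10000007340800b00000030a0400c400200020008bf0b82))) 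
(.lf (nat_lit 10526777) (dlOf (nat_lit 1) (nat_lit 0xa00185f0b81))))) (.nd (nat_lit 26) 
(.nd (nat_lit 24) 
(.lf (nat_lit 3490742329) (dlOf (nat_lit 2) (nat_lit 0x19117800000080048008008c00200b00008020683))) 
(.lf (nat_lit 17858617) (dlOf (nat_lit 1) (nat_lit 0x4002000200088f1102)))) (.nd (nat_lit 27) 
(.lf (nat_lit 2752544825) (dlOf (nat_lit 2) (nat_lit 0x19123800000080048008008c00200b00008020683))) 
(.lf (nat_lit 470843449) (dlOf (nat_lit 1) (nat_lit 0x8c004003400081c0882)))))) (.nd (nat_lit 8) 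
(.nd (nat_lit 9) 
(.lf (nat_lit 1342215225) (dlOf (nat_lit 2) (nat_lit 0x1c0470012700804e0008001000200540008009203))) 
(.lf (nat_lit 19968569) (dlOf (nat_lit 1) (nat_lit 0x4004000200189d8982)))) (.nd (nat_lit 7) 
(.nd (nat_lit 9) (.lf (nat_lit 8435001) (dlOf (nat_lit 1) (nat_lit 0x400200020008519902))) 
(.lf (nat_lit 1342215993) (dlOf (nat_lit 1) (nat_lit 0x7c0040012000800a102)))) 
(.lf (nat_lit 3691025337) (dlOf (nat_lit 1) (nat_lit 0x38008001000200100008009203)))))) 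
(.nd (nat_lit 7) (.nd (nat_lit 8) (.nd (nat_lit 21) (.nd (nat_lit 26) 
(.lf (nat_lit 671129721) (dlOf (nat_lit 1) (nat_lit 0xa80080020002006600080b0083))) 
(.lf (nat_lit 1543544953) (dlOf (nat_lit 1) (nat_lit 0xa80080020002006600080b0083)))) 
(.nd (nat_lit 13) 
(.lf (nat_lit 3491790969) (dlOf (nat_lit 1) (nat_lit 0x8008000c002000a0008090083))) 
(.lf (nat_lit 3186809) (dlOf (nat_lit 1) (nat_lit 0x20008200081))))) (.nd (nat_lit 26) 
(.lf (nat_lit 5502961017) (dlOf (nat_lit 3) (nat_lit 0x200a00016010031004001000140000008017000200160008003502))) 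
(.nd (nat_lit 27) 
(.lf (nat_lit 4630545785) (dlOf (nat_lit 1) (nat_lit 0x8008001400200020008003503))) 
(.lf (nat_lit 6106940793) (dlOf (nat_lit 2) (nat_lit 0x9d00e0000b0081070008038400200760008003503)))))) 
(.nd (nat_lit 10) (.nd (nat_lit 8) (.nd (nat_lit 26) 
(.lf (nat_lit 6710919417) (dlOf (nat_lit 1) (nat_lit 0x20028000a81))) 
(.lf (nat_lit 4764762361) (dlOf (nat_lit 1) (nat_lit 0x80008000a81)))) 
(.lf (nat_lit 1006674937) (dlOf (nat_lit 1) (nat_lit 0x60018002881)))) (.nd (nat_lit 9) 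
(.nd (nat_lit 20) (.lf (nat_lit 2147517945) (dlOf (nat_lit 1) (nat_lit 0x220028003681))) 
(.lf (nat_lit 61900281) (dlOf (nat_lit 2) (nat_lit 0x12e150002d819923680)))) 
(.lf (nat_lit 536909817) (dlOf (nat_lit 1) (nat_lit 0x9800800340020006000800a603)))))))) 
(.nd (nat_lit 28) (.nd (nat_lit 22) (.nd (nat_lit 13) (.nd (nat_lit 31) (.nd (nat_lit 4) 
(.nd (nat_lit 23) 
(.lf (nat_lit 2654249) (dlOf (nat_lit 6) (nat_lit 0x72950000360400054b80008a52000951e800528ac000161000114b8003ea52002251e801028ac000141000054b8000ea52001851e800ca8ac000121000894a40044a3d0021515800020180040008003000200060008180a83))) 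
(.lf (nat_lit 11042857) (dlOf (nat_lit 27) (nat_lit 0x2cb42a0177a100161d0580bde82405f3298011b8500150c1f800be0080602ff603017cd00203a9800410ec0700000000561a027394c018c000000154100be8000000a804001f29801040000002982016400000014808013693001ef46200bba2f0022cf20001442000a6930025f462018da2f0018d058032e798023b3c8004293b00343aa801d1c5c00e0db80166000000270b000ecf2000130080131d540008a04032c00000032020148000000188100153df0000b408021612c0004804006c0000001f0200200000000e81002cc258000580804be530000b09601177fb0029be680398000000261401900000001202002585200007010094c290000280801761480001204024f0960000802024184b00003010123c2580001008091e12c0000604025b0a4018184b0011000000000180008008004000202600008660683)))) 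
(.nd (nat_lit 7) (.lf (nat_lit 558905) (dlOf (nat_lit 1) (nat_lit 0x400008003e01))) 
(.lf (nat_lit 59278521) (dlOf (nat_lit 2) (nat_lit 0x41920000a0197e2c80))))) (.nd (nat_lit 26) 
(.nd (nat_lit 4) (.lf (nat_lit 2819129385) (dlOf (nat_lit 1) (nat_lit 0x800281a0681))) 
(.lf (nat_lit 3221782585) (dlOf (nat_lit 2) (nat_lit 0x100000000c018180b80)))) (.nd (nat_lit 6) 
(.lf (nat_lit 2754117673) (dlOf (nat_lit 3) (nat_lit 0x387e00002c0400103f00001402000200280c0d01))) 
(.lf (nat_lit 3959980137) (dlOf (nat_lit 4) (nat_lit 0x17c08a000140201ea046002e02180148100008c0700056016000098500080218000440802f00080248002001e0008181403)))))) 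
(.nd (nat_lit 4) (.nd (nat_lit 29) (.nd (nat_lit 9) 
(.lf (nat_lit 11051049) (dlOf (nat_lit 23) (nat_lit 0x1b7d0580d6682400930a002cb83f0193bfd8043df34081c000000560e00bda0b0192d0480768000000aa0c05700000005402024fa0900da00000014c100c20000000a404038349800919e40002882015dd260039682c01d741200719e6008acf20000a4ec0009c18012f4160004a0201de000000190100d93df0000b4080131ef80005804002f09600024020171a0b00cad048000e14801a2ff6011042000009850002d04800048080a261480001c0407b70a40000a02015985200004810128c25800020080e5612c0000c040697096000040200b384b00001810125c29009c612c0000008000400400460008660682))) 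
(.lf (nat_lit 50897449) (dlOf (nat_lit 1) (nat_lit 0x5c00294d8901)))) (.nd (nat_lit 26) 
(.lf (nat_lit 3892879401) (dlOf (nat_lit 2) (nat_lit 0x1012000000080028008004000200080008280003))) 
(.lf (nat_lit 1678286889) (dlOf (nat_lit 2) (nat_lit 0x3003e0000b0181d0a80))))) (.nd (nat_lit 7) 
(.lf (nat_lit 3711033) (dlOf (nat_lit 1) (nat_lit 0x40028220b81))) 
(.lf (nat_lit 59286713) (dlOf (nat_lit 1) (nat_lit 0x200197e2c81)))))) (.nd (nat_lit 21) 
(.nd (nat_lit 4) (.nd (nat_lit 13) (.nd (nat_lit 20) (.nd (nat_lit 25) 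
(.lf (nat_lit 21528617) (dlOf (nat_lit 1) (nat_lit 0x8008000400200080008a40283))) 
(.lf (nat_lit 55083049) (dlOf (nat_lit 1) (nat_lit 0x200196a0a81)))) 
(.lf (nat_lit 30965801) (dlOf (nat_lit 1) (nat_lit 0x20028e50b01)))) 
(.lf (nat_lit 21536809) (dlOf (nat_lit 1) (nat_lit 0x20008a40281)))) (.nd (nat_lit 13) 
(.lf (nat_lit 2756214841) (dlOf (nat_lit 2) (nat_lit 0x1300f0007140800f800800d000200020008220b83))) 
(.lf (nat_lit 2756223033) (dlOf (nat_lit 3) (nat_lit 0x408680038c040024000001c502001a0018220b81))))) 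
(.nd (nat_lit 4) (.nd (nat_lit 20) (.nd (nat_lit 23) 
(.lf (nat_lit 23625769) (dlOf (nat_lit 1) (nat_lit 0x1c00400040008b80002))) 
(.lf (nat_lit 15237161) (dlOf (nat_lit 1) (nat_lit 0x24002003000087c0682)))) 
(.lf (nat_lit 24674345) (dlOf (nat_lit 8) (nat_lit 0x3b4680006c08009da50005ad1a0001904000f6940000c010002b4a00025a3400016080006d28000f68d00005020007b4a00002408000da500006d1a0000804000c0018bb0a81)))) 
(.lf (nat_lit 23625913) (dlOf (nat_lit 1) (nat_lit 0x98008002c00200080008b80383)))))) 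
(.nd (nat_lit 4) (.nd (nat_lit 13) (.nd (nat_lit 29) (.nd (nat_lit 21) (.nd (nat_lit 22) 
(.lf (nat_lit 3557326889) (dlOf (nat_lit 9) (nat_lit 0x5681c000e4092000a0200003303000d0248001840801c0124027c0420002a0400f8074000d024002a008400100000002408007207400011010047024807180840058040000210600040480000701000301080000008004800800f4002001200081c0683))) 
(.lf (nat_lit 474513449) (dlOf (nat_lit 1) (nat_lit 0xf60008000400202e200091a0203)))) 
(.lf (nat_lit 3492315177) (dlOf (nat_lit 8) (nat_lit 0x4879800242a8000190400261e60000c01000f0f30006859400102b8000170600201e600030b280098550000c2a4000160800381e600080aa000050100020798000160400403cc0026154000709d0000001801c00080060002002800080c0c03)))) 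
(.nd (nat_lit 9) (.lf (nat_lit 1946714153) (dlOf (nat_lit 2) (nat_lit 0xe00000d0e8181b0000))) 
(.lf (nat_lit 4094198313) (dlOf (nat_lit 1) (nat_lit 0x8008000400200020008018903))))) 
(.nd (nat_lit 26) (.nd (nat_lit 29) 
(.lf (nat_lit 1342742569) (dlOf (nat_lit 1) (nat_lit 0x100080008002000400080c0003))) 
(.nd (nat_lit 30) (.lf (nat_lit 805871657) (dlOf (nat_lit 2) (nat_lit 0x3003e0000b0181d0a80))) 
(.lf (nat_lit 1879613481) (dlOf (nat_lit 1) (nat_lit 0x60028240801))))) (.nd (nat_lit 22) 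
(.lf (nat_lit 3557335081) (dlOf (nat_lit 4) (nat_lit 0x3024000300ec00048080004092000a021000108200080240000380800d00080148002006c00081c0683))) 
(.lf (nat_lit 474521641) (dlOf (nat_lit 1) (nat_lit 0x200291a0201)))))) (.nd (nat_lit 31) 
(.nd (nat_lit 7) (.nd (nat_lit 6) 
(.lf (nat_lit 471375929) (dlOf (nat_lit 1) (nat_lit 0x4002001400082f1102))) 
(.lf (nat_lit 1476952185) (dlOf (nat_lit 1) (nat_lit 0x800200080008312a02)))) (.nd (nat_lit 8) 
(.lf (nat_lit 1346938041) (dlOf (nat_lit 2) (nat_lit 0x283300000004001c00400080009102c82))) 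
(.lf (nat_lit 1345880505) (dlOf (nat_lit 2) (nat_lit 0x845c0041404003800400100008e06f02))))) 
(.nd (nat_lit 22) (.nd (nat_lit 21) (.nd (nat_lit 27) 
(.lf (nat_lit 3557326905) (dlOf (nat_lit 2) (nat_lit 0x2e0740000b8181c0880))) 
(.lf (nat_lit 3154673721) (dlOf (nat_lit 2) (nat_lit 0x1811c00a0404003800400120008310002)))) 
(.lf (nat_lit 3492315193) (dlOf (nat_lit 5) (nat_lit 0x341e3000198100220f1801a856c00182a20003206001c1e3000180100040f18000bc080078008007c002001a00080c1303)))) 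
(.nd (nat_lit 13) 
(.lf (nat_lit 3494412345) (dlOf (nat_lit 2) (nat_lit 0x1300f0007140800f800800d000200020008220b83))) 
(.lf (nat_lit 3494420537) (dlOf (nat_lit 3) (nat_lit 0x408140038c040024000001c502001a0018220b81))))))))) 
(.nd (nat_lit 9) (.nd (nat_lit 27) (.nd (nat_lit 10) (.nd (nat_lit 6) (.nd (nat_lit 20) 
(.nd (nat_lit 8) (.lf (nat_lit 4362119337) (dlOf (nat_lit 1) (nat_lit 0x400400020008004882))) 
(.lf (nat_lit 5368744361) (dlOf (nat_lit 2) (nat_lit 0x2e0130070a818004e80)))) (.nd (nat_lit 12) 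
(.lf (nat_lit 37259689) (dlOf (nat_lit 1) (nat_lit 0x8002000200090d4e82))) 
(.lf (nat_lit 19962281) (dlOf (nat_lit 1) (nat_lit 0x4004000200089daf82))))) (.nd (nat_lit 4) 
(.nd (nat_lit 8) (.lf (nat_lit 4026575081) (dlOf (nat_lit 1) (nat_lit 0x140008004b01))) 
(.nd (nat_lit 13) (.lf (nat_lit 5167417833) (dlOf (nat_lit 1) (nat_lit 0x400400020008054e82))) 
(.lf (nat_lit 57190889) (dlOf (nat_lit 1) (nat_lit 0x400400060019794e82))))) (.nd (nat_lit 20) 
(.lf (nat_lit 2483063161) (dlOf (nat_lit 2) (nat_lit 0x17014003c9c080260008004400200180008004e83))) 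
(.lf (nat_lit 2754644345) (dlOf (nat_lit 1) (nat_lit 0x200180f4e81)))))) (.nd (nat_lit 28) 
(.nd (nat_lit 7) (.nd (nat_lit 13) 
(.lf (nat_lit 604019817) (dlOf (nat_lit 5) (nat_lit 0x30030002201601b70088006003c003001c00160010001286000c00c00058058000802a035e01100180080006003c003001c00240030018001000580040004000000231600020000000f01000500b000060080c70008000c0020ad0000800c083))) 
(.lf (nat_lit 604028009) (dlOf (nat_lit 3) (nat_lit 0xb401e013a00e0007003801200040004a1000a801e010c00e0003003800a001800400060048001000800000008c380a10008004c00205a6000800c083)))) 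
(.nd (nat_lit 4) (.lf (nat_lit 5905620137) (dlOf (nat_lit 1) (nat_lit 0x40020002000800c202))) 
(.lf (nat_lit 19963385) (dlOf (nat_lit 1) (nat_lit 0x600289dcd01))))) (.nd (nat_lit 8) 
(.nd (nat_lit 6) (.lf (nat_lit 1342213289) (dlOf (nat_lit 1) (nat_lit 0x20018006281))) 
(.nd (nat_lit 13) 
(.lf (nat_lit 2952830057) (dlOf (nat_lit 5) (nat_lit 0x72016000100ac02a005400e2029007800d0010804c01c000a013200200630000000a04800580000004e0401d8058009002b00ad015005080a401e40340124013009d002804c000801c40000002612001a02a00140148005804c002000a000250800ac002800c081))) 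
(.lf (nat_lit 2952838249) (dlOf (nat_lit 5) (nat_lit 0x42013800f008c017c03c007201300420048014002000c000a00680000001408000a00000009c0801b809c014c03c00700170049009801a002400e8010006c005002c00000009840006809c0054026001400900130028000942002c800800a80020002000800c083))))) 
(.nd (nat_lit 4) (.lf (nat_lit 3489709417) (dlOf (nat_lit 1) (nat_lit 0x28004000a000800c902))) 
(.lf (nat_lit 1342213497) (dlOf (nat_lit 1) (nat_lit 0x100008006b81))))))) (.nd (nat_lit 4) 
(.nd (nat_lit 6) (.nd (nat_lit 7) 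
(.lf (nat_lit 134261801) (dlOf (nat_lit 1) (nat_lit 0x340018006081))) (.nd (nat_lit 8) 
(.nd (nat_lit 10) (.lf (nat_lit 469805225) (dlOf (nat_lit 1) (nat_lit 0x400400020008004882))) 
(.lf (nat_lit 134261929) (dlOf (nat_lit 2) (nat_lit 0x4020800380f40004070000470600080018006281)))) 
(.lf (nat_lit 134258089) (dlOf (nat_lit 3) (nat_lit 0x1f80a000fc00500800000000c01800280000000a0400740040006000800cb82))))) 
(.nd (nat_lit 7) (.nd (nat_lit 8) 
(.lf (nat_lit 134253673) (dlOf (nat_lit 1) (nat_lit 0x250008027400200540008006083))) 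
(.lf (nat_lit 201365865) (dlOf (nat_lit 2) (nat_lit 0x8403b0001581800ac00)))) (.nd (nat_lit 10) 
(.lf (nat_lit 2348845289) (dlOf (nat_lit 5) (nat_lit 0x440500002c0200020280001201001601400000c0801080a000000040004004000e0018004b02))) 
(.nd (nat_lit 13) 
(.lf (nat_lit 671124713) (dlOf (nat_lit 10) (nat_lit 0x1809801ac03e01020130001b030015011002a807c01e0026000340600dc02800400060000c81003700a0019c018002600000018030079014000d007c0204026009c00c000170400990140047807c02c4026013c00c0001684002e0140012807c008c0180002b06001a0280001481002f00f8000480801a8008011000200540008006503))) 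
(.lf (nat_lit 3087052009) (dlOf (nat_lit 2) (nat_lit 0xf600000016818006500))))))) (.nd (nat_lit 30) 
(.nd (nat_lit 6) (.nd (nat_lit 7) 
(.lf (nat_lit 201361721) (dlOf (nat_lit 2) (nat_lit 0x900160001a018004c00))) 
(.lf (nat_lit 134253753) (dlOf (nat_lit 3) (nat_lit 0x4601e80008c0800c80f40004404007400400100008006302)))) 
(.nd (nat_lit 7) (.nd (nat_lit 10) 
(.lf (nat_lit 5301643641) (dlOf (nat_lit 1) (nat_lit 0x8008002000200020008004e83))) 
(.lf (nat_lit 134258041) (dlOf (nat_lit 3) (nat_lit 0x7800000b12040004076004d6020060000800c901)))) 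
(.lf (nat_lit 469801465) (dlOf (nat_lit 1) (nat_lit 0x40020002000800b282))))) (.nd (nat_lit 13) 
(.nd (nat_lit 8) 
(.lf (nat_lit 1543538873) (dlOf (nat_lit 3) (nat_lit 0x60050000581000e00280000008001800800f8002000a0008004903))) 
(.nd (nat_lit 26) 
(.lf (nat_lit 1476434361) (dlOf (nat_lit 1) (nat_lit 0x128008000c002004e000800af83))) 
(.lf (nat_lit 3691026873) (dlOf (nat_lit 1) (nat_lit 0x1080080010002003c000800af83))))) 
(.nd (nat_lit 26) 
(.lf (nat_lit 1476442553) (dlOf (nat_lit 1) (nat_lit 0x80080090002003e000800af83))) 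
(.lf (nat_lit 3691035065) (dlOf (nat_lit 1) (nat_lit 0x40008001c002000a000800af83)))))))) 
(.nd (nat_lit 13) (.nd (nat_lit 7) (.nd (nat_lit 4) (.nd (nat_lit 8) (.nd (nat_lit 19) 
(.lf (nat_lit 4094724649) (dlOf (nat_lit 1) (nat_lit 0x18004003c0008055182))) 
(.lf (nat_lit 5771921961) (dlOf (nat_lit 1) (nat_lit 0x20008005181)))) (.nd (nat_lit 6) 
(.nd (nat_lit 26) 
(.lf (nat_lit 2818607913) (dlOf (nat_lit 6) (nat_lit 0x300380045404014002c001a01500560070007803001c800c0092004002d00000089838031801800e80000022304011c006001070100380070007cc080008008004400200120008005c03))) 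
(.lf (nat_lit 3019934505) (dlOf (nat_lit 2) (nat_lit 0x6600000113018005c00)))) 
(.lf (nat_lit 5167418217) (dlOf (nat_lit 1) (nat_lit 0x400400020008055c02))))) (.nd (nat_lit 8) 
(.nd (nat_lit 6) (.nd (nat_lit 12) 
(.lf (nat_lit 56658489) (dlOf (nat_lit 1) (nat_lit 0x10008000400200020009735203))) 
(.lf (nat_lit 2751502905) (dlOf (nat_lit 2) (nat_lit 0x15881c000f604001c0020006000800b402)))) 
(.lf (nat_lit 2818607737) (dlOf (nat_lit 3) (nat_lit 0x98014003c006001200000023030013002800200000008a08002800200120008005402)))) 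
(.nd (nat_lit 12) 
(.lf (nat_lit 5368744761) (dlOf (nat_lit 2) (nat_lit 0x38026001650200020028005c01))) 
(.lf (nat_lit 1409325881) (dlOf (nat_lit 1) (nat_lit 0x2001800bc81)))))) (.nd (nat_lit 6) 
(.nd (nat_lit 26) (.nd (nat_lit 12) (.nd (nat_lit 32) 
(.lf (nat_lit 402688937) (dlOf (nat_lit 3) (nat_lit 0x180260020012000600880003818003004c0000004008400400160008005d02))) 
(.lf (nat_lit 4697656233) (dlOf (nat_lit 1) (nat_lit 0x3000400040008005d02)))) 
(.lf (nat_lit 3489700777) (dlOf (nat_lit 1) (nat_lit 0x1800800400020006000800bd03)))) 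
(.nd (nat_lit 27) 
(.lf (nat_lit 872450985) (dlOf (nat_lit 3) (nat_lit 0xb80000001e040028000000000200100008005d01))) 
(.lf (nat_lit 1275104169) (dlOf (nat_lit 5) (nat_lit 0x2000a00340000001f82001a0000000d808005001400100000000f0400080050005000000000100008008001c00200180008005d03))))) 
(.nd (nat_lit 4) (.nd (nat_lit 26) 
(.lf (nat_lit 2952829929) (dlOf (nat_lit 2) (nat_lit 0x8a0000000000800a000800280020074000800bf03))) 
(.lf (nat_lit 604019689) (dlOf (nat_lit 3) (nat_lit 0x3b8044009840401f4022004c10200c0000800bf01)))) 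
(.nd (nat_lit 22) (.nd (nat_lit 30) 
(.lf (nat_lit 2818608121) (dlOf (nat_lit 2) (nat_lit 0xe03700027818005f00))) 
(.lf (nat_lit 3892349945) (dlOf (nat_lit 1) (nat_lit 0x20028005f01)))) 
(.lf (nat_lit 54561785) (dlOf (nat_lit 1) (nat_lit 0x20029655f01))))))) (.nd (nat_lit 29) 
(.nd (nat_lit 28) (.nd (nat_lit 4) (.nd (nat_lit 19) 
(.lf (nat_lit 54569769) (dlOf (nat_lit 1) (nat_lit 0x8008000c00200080009655c03))) 
(.lf (nat_lit 20491049) (dlOf (nat_lit 1) (nat_lit 0x400289d5c01)))) (.nd (nat_lit 7) 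
(.nd (nat_lit 22) (.lf (nat_lit 1275112057) (dlOf (nat_lit 1) (nat_lit 0x60008005401))) 
(.lf (nat_lit 54569593) (dlOf (nat_lit 1) (nat_lit 0x60019655401)))) 
(.lf (nat_lit 20491257) (dlOf (nat_lit 1) (nat_lit 0xc00289d5f01))))) (.nd (nat_lit 7) 
(.nd (nat_lit 4) (.lf (nat_lit 3489708841) (dlOf (nat_lit 1) (nat_lit 0x2002800bc81))) 
(.lf (nat_lit 6710930041) (dlOf (nat_lit 1) (nat_lit 0x400200020008005402)))) (.nd (nat_lit 12) 
(.nd (nat_lit 32) 
(.lf (nat_lit 402697129) (dlOf (nat_lit 5) (nat_lit 0x200f0001c81000300980020048007c0220000e06000601100001010003009800180480024022000000600180008005d01))) 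
(.lf (nat_lit 4697664425) (dlOf (nat_lit 3) (nat_lit 0xe04200060000000601000280000000004002400400040008005d02)))) 
(.lf (nat_lit 3489708969) (dlOf (nat_lit 1) (nat_lit 0x800800040020002000800bd03)))))) 
(.nd (nat_lit 7) (.nd (nat_lit 4) (.nd (nat_lit 8) 
(.lf (nat_lit 4227903017) (dlOf (nat_lit 1) (nat_lit 0x20008007181))) 
(.lf (nat_lit 2818616105) (dlOf (nat_lit 6) (nat_lit 0x1400a8008dc080350058014402a008000e005e006003280180160008006e00000113070063003001380000044608023c00c0020e02006200e00340060007cc100200008000400200020008005c03)))) 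
(.nd (nat_lit 6) 
(.lf (nat_lit 2751511097) (dlOf (nat_lit 2) (nat_lit 0x5081c000f604002c0020008000800b402))) 
(.nd (nat_lit 27) (.lf (nat_lit 3758140025) (dlOf (nat_lit 1) (nat_lit 0x40028085401))) 
(.lf (nat_lit 2818615929) (dlOf (nat_lit 3) (nat_lit 0x3000a0038003001e0000001181800600140078000000450400020008005401)))))) 
(.nd (nat_lit 6) (.nd (nat_lit 4) (.nd (nat_lit 8) 
(.lf (nat_lit 4227903145) (dlOf (nat_lit 1) (nat_lit 0xc004000c0008007202))) 
(.lf (nat_lit 1610656681) (dlOf (nat_lit 2) (nat_lit 0xe0000001e018005d00)))) 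
(.lf (nat_lit 1677769657) (dlOf (nat_lit 1) (nat_lit 0xa000800be01)))) (.nd (nat_lit 12) 
(.lf (nat_lit 5033208809) (dlOf (nat_lit 1) (nat_lit 0x140018005e81))) 
(.lf (nat_lit 604027881) (dlOf (nat_lit 2) (nat_lit 0x20007001304080058008008800200ae000800bf03)))))))))) 
(.nd (nat_lit 13) (.nd (nat_lit 19) (.nd (nat_lit 27) (.nd (nat_lit 31) (.nd (nat_lit 4) 
(.nd (nat_lit 9) (.nd (nat_lit 7) (.nd (nat_lit 20) 
(.lf (nat_lit 335839273) (dlOf (nat_lit 4) (nat_lit 0x60190001781000800c8000b8080370064000580401a8004005200080b0382))) 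
(.lf (nat_lit 30703657) (dlOf (nat_lit 7) (nat_lit 0x35ac00112810082d448017e6e801a3238006f91a0026c85801763c4020b0fe000977601daad6805ad6ac00421200002f0c000b60c00d9ad680053c08013d6b40000604058ab5a018b469000008200e6ad68000000803d8008010800200040008e40d83)))) 
(.nd (nat_lit 10) (.lf (nat_lit 268730537) (dlOf (nat_lit 1) (nat_lit 0xc00400020008111482))) 
(.lf (nat_lit 47482025) (dlOf (nat_lit 2) (nat_lit 0x4c1200038819402c00))))) (.nd (nat_lit 21) 
(.nd (nat_lit 26) 
(.lf (nat_lit 1074037289) (dlOf (nat_lit 2) (nat_lit 0x40520006f0200020018090e01))) 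
(.lf (nat_lit 1946452521) (dlOf (nat_lit 2) (nat_lit 0x40520006f0200020018090e01)))) 
(.nd (nat_lit 11) (.lf (nat_lit 23364137) (dlOf (nat_lit 1) (nat_lit 0x8008000400200020008b80e03))) 
(.lf (nat_lit 61114921) (dlOf (nat_lit 2) (nat_lit 0x2b8f000618198c5180)))))) (.nd (nat_lit 7) 
(.nd (nat_lit 20) (.lf (nat_lit 6586425) (dlOf (nat_lit 1) (nat_lit 0x20018431101))) 
(.nd (nat_lit 21) (.lf (nat_lit 30703673) (dlOf (nat_lit 1) (nat_lit 0x100008e41101))) 
(.lf (nat_lit 7635001) (dlOf (nat_lit 1) (nat_lit 0x200184c1101))))) (.nd (nat_lit 6) 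
(.nd (nat_lit 20) (.lf (nat_lit 42239161) (dlOf (nat_lit 1) (nat_lit 0x5c00400100009242c82))) 
(.lf (nat_lit 51676345) (dlOf (nat_lit 2) (nat_lit 0x534e800000080008008001000200040009512c83)))) 
(.nd (nat_lit 10) 
(.lf (nat_lit 5905875449) (dlOf (nat_lit 6) (nat_lit 0x1cc04a0005e0200780250002e0100750128001100803780940008604008404a000400200460028157e01))) 
(.lf (nat_lit 1610909177) (dlOf (nat_lit 1) (nat_lit 0x260028093681))))))) (.nd (nat_lit 7) 
(.nd (nat_lit 6) (.nd (nat_lit 28) (.nd (nat_lit 26) 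
(.lf (nat_lit 2684649513) (dlOf (nat_lit 3) (nat_lit 0xe00b000190100050000000b4080160008000400200040008100683))) 
(.lf (nat_lit 2214887465) (dlOf (nat_lit 1) (nat_lit 0x1000400020018100682)))) (.nd (nat_lit 4) 
(.lf (nat_lit 2483322921) (dlOf (nat_lit 1) (nat_lit 0x14004000200080a0982))) 
(.lf (nat_lit 3020193849) (dlOf (nat_lit 2) (nat_lit 0x480310005f018150480))))) (.nd (nat_lit 21) 
(.lf (nat_lit 2483322985) (dlOf (nat_lit 4) (nat_lit 0x440540002702001a02a0001301000e0150000940801f00080008002001000080a1403))) 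
(.nd (nat_lit 26) (.lf (nat_lit 3492053097) (dlOf (nat_lit 1) (nat_lit 0x800180a1401))) 
(.lf (nat_lit 2753855593) (dlOf (nat_lit 2) (nat_lit 0x130cc00004c0800100080024002002200080a1403)))))) 
(.nd (nat_lit 4) (.nd (nat_lit 8) (.nd (nat_lit 10) 
(.lf (nat_lit 3491004649) (dlOf (nat_lit 1) (nat_lit 0x20018046b81))) 
(.lf (nat_lit 2754907369) (dlOf (nat_lit 1) (nat_lit 0xc002002400080f6502)))) 
(.lf (nat_lit 3221520873) (dlOf (nat_lit 3) (nat_lit 0xb01f0000880802e00f80003804000400400040008127302)))) 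
(.nd (nat_lit 6) (.nd (nat_lit 26) 
(.lf (nat_lit 4026827193) (dlOf (nat_lit 2) (nat_lit 0x400b800230040080004001a0008090802))) 
(.lf (nat_lit 3288629689) (dlOf (nat_lit 2) (nat_lit 0x400b800230040080004001a0008090802)))) 
(.nd (nat_lit 11) (.lf (nat_lit 2752807161) (dlOf (nat_lit 1) (nat_lit 0x4a400401000008047782))) 
(.lf (nat_lit 3557071097) (dlOf (nat_lit 1) (nat_lit 0x40040004001812a982)))))))) (.nd (nat_lit 28) 
(.nd (nat_lit 26) (.nd (nat_lit 7) (.nd (nat_lit 4) (.nd (nat_lit 6) 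
(.lf (nat_lit 1208254505) (dlOf (nat_lit 3) (nat_lit 0x9e029000090100020148000440800600080018002001c00080b0383))) 
(.lf (nat_lit 2818874473) (dlOf (nat_lit 1) (nat_lit 0x7000800040020002000812c083)))) 
(.lf (nat_lit 671383609) (dlOf (nat_lit 2) (nat_lit 0x10128000a80803f000800f4002013c0008170d03)))) 
(.nd (nat_lit 6) (.nd (nat_lit 29) 
(.lf (nat_lit 5503221929) (dlOf (nat_lit 1) (nat_lit 0x180080004002000200080c1483))) 
(.lf (nat_lit 4966351017) (dlOf (nat_lit 1) (nat_lit 0x8004000200080c1482)))) 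
(.lf (nat_lit 2818874345) (dlOf (nat_lit 1) (nat_lit 0x40040002001812bf02))))) (.nd (nat_lit 4) 
(.nd (nat_lit 6) (.nd (nat_lit 30) 
(.lf (nat_lit 2349105193) (dlOf (nat_lit 1) (nat_lit 0x14004000200080a0982))) 
(.lf (nat_lit 3422847017) (dlOf (nat_lit 4) (nat_lit 0x2801600032020068000000168100290000000b00801b80080070002004c0008120683)))) 
(.lf (nat_lit 2349105257) (dlOf (nat_lit 14) (nat_lit 0x40540002702000202a0000f81006d01500006c0802700a800030040110052008800f00009820051015003d0040000200800e405400d20100000702006401500228040000100800e005400a6010000028200450080000100803200a8010c020000030400d802a00540080000041003280a8000000400c0004002200180a1402)))) 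
(.lf (nat_lit 2349105209) (dlOf (nat_lit 1) (nat_lit 0x400280a0b01))))) (.nd (nat_lit 4) 
(.nd (nat_lit 29) (.nd (nat_lit 30) (.nd (nat_lit 22) 
(.lf (nat_lit 402948137) (dlOf (nat_lit 4) (nat_lit 0x601a0001901000800d0000c40803700680005e0401a8004005200080b0382))) 
(.lf (nat_lit 474251305) (dlOf (nat_lit 1) (nat_lit 0x18002000600090f0a02)))) (.nd (nat_lit 8) 
(.lf (nat_lit 1476689961) (dlOf (nat_lit 2) (nat_lit 0x4800000112040108002003e0008120782))) 
(.lf (nat_lit 5771660073) (dlOf (nat_lit 1) (nat_lit 0x20028005c01))))) (.nd (nat_lit 6) 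
(.nd (nat_lit 8) 
(.lf (nat_lit 2080669737) (dlOf (nat_lit 3) (nat_lit 0x9e029000090100020148000440800600080018002001c00080b0383))) 
(.lf (nat_lit 6308530985) (dlOf (nat_lit 1) (nat_lit 0x200080d5c01)))) 
(.lf (nat_lit 5234787561) (dlOf (nat_lit 1) (nat_lit 0x200280d2e81))))) (.nd (nat_lit 7) 
(.nd (nat_lit 6) 
(.lf (nat_lit 1543798841) (dlOf (nat_lit 2) (nat_lit 0x10128000900803f000800f4002013c0008170d03))) 
(.lf (nat_lit 5771659897) (dlOf (nat_lit 1) (nat_lit 0x10008000400200340008005403)))) 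
(.nd (nat_lit 9) (.nd (nat_lit 10) 
(.lf (nat_lit 5838766585) (dlOf (nat_lit 1) (nat_lit 0xc00281b0d81))) 
(.lf (nat_lit 5234787833) (dlOf (nat_lit 1) (nat_lit 0x1c00180d3681)))) 
(.lf (nat_lit 5234787321) (dlOf (nat_lit 1) (nat_lit 0xc00180d2881)))))))) (.nd (nat_lit 4) 
(.nd (nat_lit 20) (.nd (nat_lit 7) (.nd (nat_lit 31) (.nd (nat_lit 23) (.nd (nat_lit 24) 
(.lf (nat_lit 819241) (dlOf (nat_lit 1) (nat_lit 0x100018020501))) 
(.lf (nat_lit 17596457) (dlOf (nat_lit 1) (nat_lit 0x8004000800088e0002)))) 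
(.lf (nat_lit 42762281) (dlOf (nat_lit 1) (nat_lit 0x1000800bc00200240009280203)))) 
(.nd (nat_lit 6) (.nd (nat_lit 26) 
(.lf (nat_lit 3492577321) (dlOf (nat_lit 1) (nat_lit 0x10200080e0581))) 
(.lf (nat_lit 2754379817) (dlOf (nat_lit 1) (nat_lit 0x10200080e0581)))) 
(.lf (nat_lit 4094462825) (dlOf (nat_lit 1) (nat_lit 0x20028055c01))))) (.nd (nat_lit 6) 
(.nd (nat_lit 8) (.lf (nat_lit 36473513) (dlOf (nat_lit 1) (nat_lit 0x20019075601))) 
(.lf (nat_lit 36473257) (dlOf (nat_lit 1) (nat_lit 0x20019074e81)))) (.nd (nat_lit 8) 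
(.lf (nat_lit 5772182761) (dlOf (nat_lit 1) (nat_lit 0x400400020008092e82))) 
(.lf (nat_lit 67932137) (dlOf (nat_lit 2) (nat_lit 0x38000014b4040058002001e0008337a82)))))) 
(.nd (nat_lit 21) (.nd (nat_lit 24) (.nd (nat_lit 26) (.nd (nat_lit 6) 
(.lf (nat_lit 5773230121) (dlOf (nat_lit 3) (nat_lit 0x180bc0002055001c01f800100e8000641000140740002f02001200080b0381))) 
(.lf (nat_lit 1868137) (dlOf (nat_lit 1) (nat_lit 0x20018150701)))) (.nd (nat_lit 29) 
(.lf (nat_lit 471629865) (dlOf (nat_lit 2) (nat_lit 0x50f38001700800a80080044002000c0008360803))) 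
(.lf (nat_lit 6377209897) (dlOf (nat_lit 3) (nat_lit 0x180ca000205c001c020000100ec0005e1000140760002c02001200080b0381))))) 
(.nd (nat_lit 22) (.nd (nat_lit 23) 
(.lf (nat_lit 18645033) (dlOf (nat_lit 1) (nat_lit 0xd0008005c00200240008960803))) 
(.lf (nat_lit 27033641) (dlOf (nat_lit 1) (nat_lit 0x80028ca0681)))) 
(.lf (nat_lit 22839337) (dlOf (nat_lit 1) (nat_lit 0x20018b30601))))) (.nd (nat_lit 7) 
(.nd (nat_lit 6) (.lf (nat_lit 3964969) (dlOf (nat_lit 2) (nat_lit 0x1813f0001b818260c00))) 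
(.lf (nat_lit 1346142313) (dlOf (nat_lit 1) (nat_lit 0xbc004003c0008e60a02)))) (.nd (nat_lit 8) 
(.lf (nat_lit 20747945) (dlOf (nat_lit 1) (nat_lit 0x4002000200089da002))) 
(.lf (nat_lit 8160681) (dlOf (nat_lit 1) (nat_lit 0x400200020008513602))))))) (.nd (nat_lit 6) 
(.nd (nat_lit 20) (.nd (nat_lit 7) (.nd (nat_lit 26) (.nd (nat_lit 9) 
(.lf (nat_lit 1342996537) (dlOf (nat_lit 1) (nat_lit 0x20008130b81))) 
(.lf (nat_lit 38570553) (dlOf (nat_lit 1) (nat_lit 0x1400400080019135202)))) (.nd (nat_lit 21) 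
(.lf (nat_lit 470581305) (dlOf (nat_lit 1) (nat_lit 0x20008130b81))) 
(.lf (nat_lit 4096557113) (dlOf (nat_lit 1) (nat_lit 0xc00200080008131402))))) (.nd (nat_lit 8) 
(.lf (nat_lit 1345094841) (dlOf (nat_lit 2) (nat_lit 0x3851400000040004004000200089e2c82))) 
(.lf (nat_lit 3490482617) (dlOf (nat_lit 1) (nat_lit 0x20028004e81))))) (.nd (nat_lit 21) 
(.nd (nat_lit 22) (.nd (nat_lit 26) 
(.lf (nat_lit 3491528761) (dlOf (nat_lit 1) (nat_lit 0x80028090001))) 
(.lf (nat_lit 4095508537) (dlOf (nat_lit 1) (nat_lit 0x200280d0701)))) 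
(.lf (nat_lit 22839353) (dlOf (nat_lit 3) (nat_lit 0x35a94001cd46000b28200066a5800524080068008001c00200080008b30d83)))) 
(.nd (nat_lit 7) (.nd (nat_lit 9) 
(.lf (nat_lit 1346142265) (dlOf (nat_lit 1) (nat_lit 0x88004003c0008e60582))) 
(.lf (nat_lit 33327673) (dlOf (nat_lit 1) (nat_lit 0x400400020008f55202)))) (.nd (nat_lit 9) 
(.lf (nat_lit 8160697) (dlOf (nat_lit 1) (nat_lit 0x400200020008513602))) 
(.lf (nat_lit 8165305) (dlOf (nat_lit 1) (nat_lit 0x6000851a501))))))) (.nd (nat_lit 7) 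
(.nd (nat_lit 8) (.nd (nat_lit 9) 
(.lf (nat_lit 67935353) (dlOf (nat_lit 1) (nat_lit 0x2002833c101))) 
(.lf (nat_lit 46959225) (dlOf (nat_lit 1) (nat_lit 0x8008000400200020009385403)))) 
(.nd (nat_lit 10) (.nd (nat_lit 20) 
(.lf (nat_lit 36473209) (dlOf (nat_lit 1) (nat_lit 0x20019074e81))) 
(.lf (nat_lit 33327481) (dlOf (nat_lit 1) (nat_lit 0x1a0028f54e81)))) 
(.lf (nat_lit 8160633) (dlOf (nat_lit 1) (nat_lit 0x400200020008513502))))) (.nd (nat_lit 24) 
(.nd (nat_lit 26) (.lf (nat_lit 135037177) (dlOf (nat_lit 2) (nat_lit 0x4000000df0181b0480))) 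
(.lf (nat_lit 4228677881) (dlOf (nat_lit 1) (nat_lit 0x180080004002000200081a0483)))) 
(.nd (nat_lit 8) (.lf (nat_lit 51151097) (dlOf (nat_lit 1) (nat_lit 0x1480009507001))) 
(.lf (nat_lit 55347705) (dlOf (nat_lit 1) (nat_lit 0xa000080004002000200096d4f83))))))))) 
(.nd (nat_lit 4) (.nd (nat_lit 26) (.nd (nat_lit 7) (.nd (nat_lit 20) (.nd (nat_lit 27) 
(.nd (nat_lit 9) (.nd (nat_lit 29) 
(.lf (nat_lit 6711189545) (dlOf (nat_lit 2) (nat_lit 0x380340002f02000400180b0381))) 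
(.lf (nat_lit 1879351337) (dlOf (nat_lit 8) (nat_lit 0x600b0000c055000802780006c18010815c00a00a8001c04e0000c83001e02b80028150009c09c0001806001c057000702a00018144000809c0000b080008057002002a00110144002409c0000a0800460540026028800f8138000120c00540a8004e05100220270000201800100080008002000800080f0a83)))) 
(.nd (nat_lit 21) 
(.lf (nat_lit 1074045481) (dlOf (nat_lit 2) (nat_lit 0x3080a4000de04001000400100008090e02))) 
(.lf (nat_lit 23372329) (dlOf (nat_lit 1) (nat_lit 0x8008000400200020008b80e03))))) 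
(.nd (nat_lit 28) (.nd (nat_lit 6) (.nd (nat_lit 30) 
(.lf (nat_lit 2282004521) (dlOf (nat_lit 1) (nat_lit 0x10008000c00200060008100683))) 
(.lf (nat_lit 1208262697) (dlOf (nat_lit 3) (nat_lit 0xc04a0002f02002a025000170180b0380)))) 
(.lf (nat_lit 2818882665) (dlOf (nat_lit 1) (nat_lit 0x8002812c081)))) (.nd (nat_lit 29) 
(.lf (nat_lit 402956329) (dlOf (nat_lit 10) (nat_lit 0xd8098043404a01f402400d9011801b0088057804002bc01f00f100f000b8074002803800d001b040f00d00b00058010c01c020c00d005b0060038000404780000003224019002500820120026008c048c040010601f000100f0015006c0ec80340222016003f0070088003400a40020140000000188d0001011802f008001c403e006401e033600d003900580238000000300e00de02300fa01000c8807c045803c000a01d041200d009f005806f00000002f10002801f002100f0183806800f802c01ae000000170500110100000807c0f9803400ec01601330000000b428044808c0430040022001f010700f02158068058802c02a2000000160701ca00d0000805800030080030048021801a000300000000018004800800ec00200f200080b0383)))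 
(.lf (nat_lit 3087310889) (dlOf (nat_lit 1) (nat_lit 0x800400020018170b02)))))) (.nd (nat_lit 19) 
(.nd (nat_lit 9) (.lf (nat_lit 32809001) (dlOf (nat_lit 1) (nat_lit 0x400400020008f20882))) 
(.nd (nat_lit 11) 
(.lf (nat_lit 57975337) (dlOf (nat_lit 8) (nat_lit 0x62f6800397b0000c86c000760600105ed0003a8100072f68001c40800497b4000e0040020bda000620200145ed0003081000d2f68000000800300080018002000e00097a8903))) 
(.lf (nat_lit 20228649) (dlOf (nat_lit 1) (nat_lit 0x600089d5181))))) (.nd (nat_lit 28) 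
(.nd (nat_lit 6) (.lf (nat_lit 45916201) (dlOf (nat_lit 1) (nat_lit 0x400400020009370882))) 
(.lf (nat_lit 8173673) (dlOf (nat_lit 1) (nat_lit 0x2002851a801)))) (.nd (nat_lit 21) 
(.lf (nat_lit 5773238313) (dlOf (nat_lit 3) (nat_lit 0x2f0470000640400042380003102000c00180b0381))) 
(.lf (nat_lit 1346150441) (dlOf (nat_lit 3) (nat_lit 0x150145001509e8055833c028c144015e07300a300e00338068000521c028428a013c0cf00c1039801180700004e10001000400160018e60202))))))) 
(.nd (nat_lit 10) (.nd (nat_lit 6) (.nd (nat_lit 8) (.nd (nat_lit 27) 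
(.lf (nat_lit 4563706025) (dlOf (nat_lit 2) (nat_lit 0xc0168000800800700080054002003200080c1483))) 
(.lf (nat_lit 671391913) (dlOf (nat_lit 1) (nat_lit 0x20028184c01)))) 
(.lf (nat_lit 8168361) (dlOf (nat_lit 1) (nat_lit 0x8008001000200020008512683)))) (.nd (nat_lit 11) 
(.lf (nat_lit 3221529065) (dlOf (nat_lit 4) (nat_lit 0x26a03e009e0070021003000dc0000002208027203e001001e004e803800cc01800560000000e05006d00700006c08054800800cc00200a40008127303))) 
(.lf (nat_lit 47491561) (dlOf (nat_lit 1) (nat_lit 0x1400400020009404e82))))) (.nd (nat_lit 11) 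
(.nd (nat_lit 6) (.lf (nat_lit 20231849) (dlOf (nat_lit 1) (nat_lit 0x4002000200089da002))) 
(.nd (nat_lit 27) (.lf (nat_lit 1610917097) (dlOf (nat_lit 1) (nat_lit 0x400400180008092e82))) 
(.lf (nat_lit 5234795753) (dlOf (nat_lit 1) (nat_lit 0x800280d2e81))))) (.nd (nat_lit 28) 
(.lf (nat_lit 537701609) (dlOf (nat_lit 6) (nat_lit 0x2203b001481d4008c0cc004c06500280000000d82800081d800100cc00035040046076002603a80118198009800000034080018078004203b004201c401b40cc01340000001705001903c000281d803380e2016c0660012030006b80000005a180004004004000180f6502))) 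
(.lf (nat_lit 3490491625) (dlOf (nat_lit 1) (nat_lit 0x8008004800200260008006503))))))) 
(.nd (nat_lit 27) (.nd (nat_lit 6) (.nd (nat_lit 28) (.nd (nat_lit 29) 
(.lf (nat_lit 2214895657) (dlOf (nat_lit 5) (nat_lit 0x60108000807c001c0340004e06000601a0002601000100d00012c0800280840006e04000400400040008100682))) 
(.lf (nat_lit 3825508393) (dlOf (nat_lit 1) (nat_lit 0x800400020018170b02)))) (.nd (nat_lit 7) 
(.nd (nat_lit 9) 
(.lf (nat_lit 335847465) (dlOf (nat_lit 10) (nat_lit 0x86809c03e804c003602400d9011801b0088057804002bc01f00f100f000b8074002803800d001b040f00c80b00058010c01c020c00d005b0060038000404780000002f24019002700820130026008c048c040010601f000100f0015006c0ec80320222016003f0070088003400a40020140000000170d0001011802f008001c403e006401e033600c8039005802380000002d0e00de02300fa01000c8807c045803c000a01d041200c809f005806f00000002c10002801f002100f0183806400f802c01ae000000158500110100000807c0f9803200ec01601330000000a828044808c0430040022001f010700f02158064058802c02a2000000148701ca00c800080580003008003004c0218019000300000000018004800800ec00200f200080b0383)))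 
(.lf (nat_lit 1946460713) (dlOf (nat_lit 2) (nat_lit 0x3080a4000de04001000400100008090e02)))) 
(.lf (nat_lit 6241427625) (dlOf (nat_lit 1) (nat_lit 0x100080008002003c00080f1483))))) 
(.nd (nat_lit 7) (.nd (nat_lit 8) 
(.lf (nat_lit 2753863785) (dlOf (nat_lit 2) (nat_lit 0xdc2be0001302000400280a1401))) 
(.lf (nat_lit 4094471017) (dlOf (nat_lit 1) (nat_lit 0x80080324002009c0008055c03)))) 
(.nd (nat_lit 10) (.lf (nat_lit 67943401) (dlOf (nat_lit 1) (nat_lit 0x10001833bf01))) 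
(.lf (nat_lit 67940329) (dlOf (nat_lit 2) (nat_lit 0x400000a5a0200240008337a81)))))) 
(.nd (nat_lit 28) (.nd (nat_lit 8) (.nd (nat_lit 29) 
(.lf (nat_lit 3422855209) (dlOf (nat_lit 3) (nat_lit 0xe00b000190100050000000b4080160008000400200040008120683))) 
(.lf (nat_lit 6107209769) (dlOf (nat_lit 2) (nat_lit 0x380340002c02000400180b0381)))) 
(.nd (nat_lit 6) (.lf (nat_lit 738503465) (dlOf (nat_lit 2) (nat_lit 0x602a00090818095c00))) 
(.lf (nat_lit 3959726569) (dlOf (nat_lit 3) (nat_lit 0x1000000a2e02000800000513818127d00))))) 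
(.nd (nat_lit 7) (.nd (nat_lit 19) (.nd (nat_lit 30) 
(.lf (nat_lit 1006936105) (dlOf (nat_lit 8) (nat_lit 0x600b0000c055000802780006c18010815c00a00a8001c04e0000c83001e02b80028150009c09c0001806001c057000702a00018144000809c0000b080008057002002a00110144002409c0000a0800460540026028800f8138000120c00540a8004e05100220270000201800100080008002000800080f0a83))) 
(.lf (nat_lit 2080677929) (dlOf (nat_lit 3) (nat_lit 0xc04a0003202002a025000188180b0380)))) 
(.lf (nat_lit 6377218089) (dlOf (nat_lit 3) (nat_lit 0x2f04340005e04000421a0002e02000c00180b0381)))) 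
(.nd (nat_lit 10) (.lf (nat_lit 1543807145) (dlOf (nat_lit 1) (nat_lit 0x20028184c01))) 
(.lf (nat_lit 473736361) (dlOf (nat_lit 1) (nat_lit 0x10008001400200060008fa2c03)))))))) 
(.nd (nat_lit 30) (.nd (nat_lit 19) (.nd (nat_lit 6) (.nd (nat_lit 8) (.nd (nat_lit 20) 
(.lf (nat_lit 12886073) (dlOf (nat_lit 1) (nat_lit 0x400286e0b81))) 
(.lf (nat_lit 22323257) (dlOf (nat_lit 1) (nat_lit 0x400200020008ac0702)))) (.nd (nat_lit 7) 
(.lf (nat_lit 17080633) (dlOf (nat_lit 1) (nat_lit 0x10004000800188e0702))) 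
(.lf (nat_lit 41198009) (dlOf (nat_lit 1) (nat_lit 0x10008000400200020009226f03))))) 
(.nd (nat_lit 7) (.nd (nat_lit 27) 
(.lf (nat_lit 4563706233) (dlOf (nat_lit 1) (nat_lit 0x200280c5901))) 
(.lf (nat_lit 4697923961) (dlOf (nat_lit 1) (nat_lit 0x5d800802b8002015a00080c5883)))) 
(.nd (nat_lit 8) 
(.lf (nat_lit 56929017) (dlOf (nat_lit 2) (nat_lit 0x829140001c04001400400400019795a02))) 
(.nd (nat_lit 9) 
(.lf (nat_lit 6509863417) (dlOf (nat_lit 5) (nat_lit 0x901b800480c8009005800a5b06000202c0052d01000101a0029400800500b00148a04001000400100008157802))) 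
(.lf (nat_lit 738503673) (dlOf (nat_lit 2) (nat_lit 0x102d000100080020008000400200060008095f03))))))) 
(.nd (nat_lit 7) (.nd (nat_lit 20) (.nd (nat_lit 9) (.nd (nat_lit 22) 
(.lf (nat_lit 470589497) (dlOf (nat_lit 1) (nat_lit 0x40008130b81))) 
(.lf (nat_lit 21798969) (dlOf (nat_lit 1) (nat_lit 0x8008000c00200020008a70683)))) 
(.lf (nat_lit 36481593) (dlOf (nat_lit 1) (nat_lit 0x60019075201)))) (.nd (nat_lit 22) 
(.lf (nat_lit 27041849) (dlOf (nat_lit 1) (nat_lit 0x800200020008ca0882))) 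
(.lf (nat_lit 22847545) (dlOf (nat_lit 3) (nat_lit 0x45a940028d46000b2820003669800524080108008003000200100008b30d83))))) 
(.nd (nat_lit 6) (.nd (nat_lit 8) 
(.lf (nat_lit 1876153) (dlOf (nat_lit 1) (nat_lit 0x240028150381))) 
(.lf (nat_lit 8173497) (dlOf (nat_lit 1) (nat_lit 0x200040004000851a502)))) (.nd (nat_lit 8) 
(.lf (nat_lit 135045369) (dlOf (nat_lit 3) (nat_lit 0x200b60006000000e00200020000006f808001800801f8002001600081b0483))) 
(.lf (nat_lit 55355897) (dlOf (nat_lit 1) (nat_lit 0x380080004002000200096d4f83))))))) 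
(.nd (nat_lit 26) (.nd (nat_lit 8) (.nd (nat_lit 19) (.nd (nat_lit 9) 
(.lf (nat_lit 3758399545) (dlOf (nat_lit 2) (nat_lit 0x480310005e818170480))) 
(.lf (nat_lit 3221529145) (dlOf (nat_lit 2) (nat_lit 0x7f009c0095c04002000400020008128202)))) 
(.nd (nat_lit 20) (.nd (nat_lit 21) 
(.lf (nat_lit 1343004729) (dlOf (nat_lit 1) (nat_lit 0x40008130b81))) 
(.lf (nat_lit 3492585529) (dlOf (nat_lit 2) (nat_lit 0x261ed006768180e0780)))) 
(.lf (nat_lit 5773238329) (dlOf (nat_lit 1) (nat_lit 0xac00080b0481))))) (.nd (nat_lit 10) 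
(.nd (nat_lit 6) (.lf (nat_lit 3221528889) (dlOf (nat_lit 1) (nat_lit 0x5000200220008124c02))) 
(.nd (nat_lit 29) 
(.lf (nat_lit 3221529081) (dlOf (nat_lit 5) (nat_lit 0x300070028a80803480380145204006001c00a2802000200e004bd818127800))) 
(.lf (nat_lit 5905883641) (dlOf (nat_lit 4) (nat_lit 0x4402e0005e02002a0170002e01001700b80010c080060008000800200080008157e03))))) 
(.nd (nat_lit 11) (.lf (nat_lit 1610917369) (dlOf (nat_lit 1) (nat_lit 0x240028093681))) 
(.lf (nat_lit 3624185337) (dlOf (nat_lit 1) (nat_lit 0x220028146f81)))))) (.nd (nat_lit 7) 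
(.nd (nat_lit 19) (.nd (nat_lit 8) (.nd (nat_lit 9) 
(.lf (nat_lit 5838774329) (dlOf (nat_lit 1) (nat_lit 0x200081b0001))) 
(.lf (nat_lit 3959726649) (dlOf (nat_lit 2) (nat_lit 0x17000e004b8818128b00)))) 
(.lf (nat_lit 3959726393) (dlOf (nat_lit 1) (nat_lit 0x5000200220008124c02)))) (.nd (nat_lit 20) 
(.lf (nat_lit 4094468153) (dlOf (nat_lit 1) (nat_lit 0x80018050001))) 
(.lf (nat_lit 6377218105) (dlOf (nat_lit 1) (nat_lit 0xac00080b0481))))) (.nd (nat_lit 6) 
(.nd (nat_lit 11) 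
(.lf (nat_lit 4228161721) (dlOf (nat_lit 1) (nat_lit 0x8008000400200020008045203))) 
(.lf (nat_lit 1410115769) (dlOf (nat_lit 1) (nat_lit 0x700080054002004200080f4903)))) 
(.nd (nat_lit 8) 
(.lf (nat_lit 4228686073) (dlOf (nat_lit 2) (nat_lit 0x6011000800000090810001800801a4002000c00081a0483))) 
(.nd (nat_lit 27) (.lf (nat_lit 1946460665) (dlOf (nat_lit 2) (nat_lit 0x4a0290011b018090d80))) 
(.lf (nat_lit 3959726585) (dlOf (nat_lit 11) (nat_lit 0x35c80f801e40780d0e00e04ee006021f80000004814004007c003c00e000118206a601f02f3003817c80180ae2000000110406bb01f0342803807a8018025c000000100401e600700007c0801c80380003c041a5007c03d403c015a00e02ed00381854018024c00401e000102ba00000003a2000b801c0001c02032e03e00ee00700006c100020038000120404d4004007e0018127e02)))))))))))))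

end

end Pool.Agent.Lib.MP_5854e1_co.Cz

namespace Pool.Agent.Lib.MP_5854e1_co.Cz

noncomputable section

noncomputable def tz50 : DT := (.nd (nat_lit 4) (.nd (nat_lit 18) (.nd (nat_lit 15) 
(.nd (nat_lit 6) (.nd (nat_lit 5) (.nd (nat_lit 26) (.nd (nat_lit 8) (.nd (nat_lit 19) 
(.nd (nat_lit 21) (.nd (nat_lit 20) (.nd (nat_lit 9) (.nd (nat_lit 10) 
(.lf (nat_lit 1879179273) (dlOf (nat_lit 1) (nat_lit 0x400400020008050582))) 
(.lf (nat_lit 2818704393) (dlOf (nat_lit 1) (nat_lit 0x5600280d2881)))) 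
(.lf (nat_lit 3892445705) (dlOf (nat_lit 2) (nat_lit 0x206800000018118000)))) (.nd (nat_lit 22) 
(.lf (nat_lit 9568265) (dlOf (nat_lit 1) (nat_lit 0xe0018560481))) 
(.lf (nat_lit 47317001) (dlOf (nat_lit 2) (nat_lit 0x32f4c00197780000004001e00093d0001))))) 
(.nd (nat_lit 7) (.nd (nat_lit 22) 
(.lf (nat_lit 52559881) (dlOf (nat_lit 1) (nat_lit 0x6400200d00009550002))) 
(.lf (nat_lit 6422537) (dlOf (nat_lit 1) (nat_lit 0x3000200300008420002)))) 
(.lf (nat_lit 2228361) (dlOf (nat_lit 1) (nat_lit 0x148008000400200360008150103))))) 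
(.nd (nat_lit 21) (.nd (nat_lit 27) 
(.lf (nat_lit 1342832649) (dlOf (nat_lit 2) (nat_lit 0x2231004388180e0000))) (.nd (nat_lit 29) 
(.lf (nat_lit 134873097) (dlOf (nat_lit 2) (nat_lit 0x8e025004b0118000f8080008004006600180d0482))) 
(.lf (nat_lit 2819227657) (dlOf (nat_lit 1) (nat_lit 0x600081f0281))))) (.nd (nat_lit 7) 
(.lf (nat_lit 3492413449) (dlOf (nat_lit 1) (nat_lit 0xb8004004400080c0802))) 
(.lf (nat_lit 12189833) (dlOf (nat_lit 1) (nat_lit 0x8002000200086c0102)))))) (.nd (nat_lit 9) 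
(.nd (nat_lit 7) (.nd (nat_lit 10) 
(.lf (nat_lit 3892445449) (dlOf (nat_lit 1) (nat_lit 0x10008000800200020008113683))) 
(.lf (nat_lit 5637276937) (dlOf (nat_lit 1) (nat_lit 0x4004000200080d2f82)))) 
(.lf (nat_lit 4697751945) (dlOf (nat_lit 1) (nat_lit 0x40028091001)))) (.nd (nat_lit 20) 
(.nd (nat_lit 23) 
(.lf (nat_lit 6442583817) (dlOf (nat_lit 1) (nat_lit 0x80080004002000200080f3b83))) 
(.lf (nat_lit 8521481) (dlOf (nat_lit 1) (nat_lit 0x20008513b81)))) (.nd (nat_lit 7) 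
(.lf (nat_lit 20056841) (dlOf (nat_lit 1) (nat_lit 0x200189d5b01))) 
(.lf (nat_lit 8001417) (dlOf (nat_lit 1) (nat_lit 0x40020002000851a302))))))) (.nd (nat_lit 27) 
(.nd (nat_lit 9) (.nd (nat_lit 32) (.nd (nat_lit 19) 
(.lf (nat_lit 335675401) (dlOf (nat_lit 1) (nat_lit 0x20018090001))) 
(.lf (nat_lit 2754215945) (dlOf (nat_lit 1) (nat_lit 0xb8004004400080c0802)))) (.nd (nat_lit 7) 
(.lf (nat_lit 6241258505) (dlOf (nat_lit 1) (nat_lit 0x180080004002000200080d5f83))) 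
(.lf (nat_lit 5167513737) (dlOf (nat_lit 2) (nat_lit 0x1b0138004005c0006408002800400320018070f02))))) 
(.nd (nat_lit 7) (.nd (nat_lit 11) 
(.lf (nat_lit 3020030473) (dlOf (nat_lit 2) (nat_lit 0x6001c000e00c00040000004b41801680080028002000e00080e8003))) 
(.lf (nat_lit 1677859337) (dlOf (nat_lit 1) (nat_lit 0x14000800680020040000811b283)))) 
(.lf (nat_lit 6241258377) (dlOf (nat_lit 1) (nat_lit 0x4004000200080d5c02))))) (.nd (nat_lit 28) 
(.nd (nat_lit 9) (.nd (nat_lit 11) 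
(.lf (nat_lit 201981961) (dlOf (nat_lit 2) (nat_lit 0x8e025004b0118000f8080008004006600180d0482))) 
(.lf (nat_lit 3959560201) (dlOf (nat_lit 2) (nat_lit 0x30230027bc08000800800080020004000811a603)))) 
(.lf (nat_lit 3959560713) (dlOf (nat_lit 1) (nat_lit 0x1800800980020052000811b283)))) 
(.nd (nat_lit 8) (.nd (nat_lit 19) (.nd (nat_lit 29) 
(.lf (nat_lit 3691118601) (dlOf (nat_lit 1) (nat_lit 0xa80008020001))) 
(.lf (nat_lit 1006764041) (dlOf (nat_lit 1) (nat_lit 0x400400020008050582)))) 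
(.lf (nat_lit 470417417) (dlOf (nat_lit 2) (nat_lit 0x22310074b0180e0000)))) 
(.lf (nat_lit 474088713) (dlOf (nat_lit 1) (nat_lit 0x20029082f81))))))) (.nd (nat_lit 19) 
(.nd (nat_lit 28) (.nd (nat_lit 9) (.nd (nat_lit 7) (.nd (nat_lit 8) 
(.lf (nat_lit 1677858857) (dlOf (nat_lit 1) (nat_lit 0x400040002001811a602))) 
(.lf (nat_lit 738328873) (dlOf (nat_lit 6) (nat_lit 0x60520003281000c010800480740008c08001404200044020016050000501900038084000700c00040a4000270200340018090b01)))) 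
(.nd (nat_lit 8) (.lf (nat_lit 3825339561) (dlOf (nat_lit 1) (nat_lit 0x20008146281))) 
(.lf (nat_lit 3221364137) (dlOf (nat_lit 7) (nat_lit 0x2a027001200d400c404e007c023006c00f80130078010c024004400a0024003002d00000006028009009c0002f02007c0560001701000502b00020028000080800400ac005a00a0000102000401300040078000000800a80020030000811cb82))))) 
(.nd (nat_lit 10) (.nd (nat_lit 20) 
(.lf (nat_lit 3892445737) (dlOf (nat_lit 1) (nat_lit 0x20008118901))) 
(.lf (nat_lit 11665961) (dlOf (nat_lit 1) (nat_lit 0x80080004002000200086c0e03)))) 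
(.lf (nat_lit 1610745385) (dlOf (nat_lit 2) (nat_lit 0x600a80007804001c00200060008093702))))) 
(.nd (nat_lit 7) (.nd (nat_lit 10) (.nd (nat_lit 20) 
(.lf (nat_lit 4160880681) (dlOf (nat_lit 1) (nat_lit 0x8008000400200020008050983))) 
(.lf (nat_lit 1880227881) (dlOf (nat_lit 1) (nat_lit 0x400087e0201)))) (.nd (nat_lit 8) 
(.lf (nat_lit 5637277225) (dlOf (nat_lit 1) (nat_lit 0x80080014002001000080d3703))) 
(.lf (nat_lit 5637276969) (dlOf (nat_lit 1) (nat_lit 0x4004000200080d3182))))) (.nd (nat_lit 8) 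
(.lf (nat_lit 1543638185) (dlOf (nat_lit 2) (nat_lit 0x10170000ac080008008000c00200040008146283))) 
(.nd (nat_lit 11) (.lf (nat_lit 4697753001) (dlOf (nat_lit 2) (nat_lit 0x2602900072018093600))) 
(.lf (nat_lit 805445033) (dlOf (nat_lit 11) (nat_lit 0x3002a800a8138009806e002a02b0014012001500480050020003000a0015003000070480020138001406e001c012000200500006c2001f0154008009c0058037001d015800f009000e4024006e010002100500038020008800c0001a140062056000b027000080c80068048001a0130000c0500070168000540800d80b4000260400cc0a80001102001e0560000481000402b00001408003015800002040098004000e000811cb82))))))) 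
(.nd (nat_lit 21) (.nd (nat_lit 26) (.nd (nat_lit 29) (.nd (nat_lit 22) 
(.lf (nat_lit 3221880873) (dlOf (nat_lit 7) (nat_lit 0xb400e005000600208000000320c02e801c0001802018400e0000b8100c7007005f003002b4000000160601a000e0000a0100460000000000800080080004002002e00081a0c03))) 
(.lf (nat_lit 21626921) (dlOf (nat_lit 3) (nat_lit 0x9d7a0004eb700001010005f5e80000004007800200180008a50a82)))) 
(.nd (nat_lit 27) 
(.lf (nat_lit 805961769) (dlOf (nat_lit 13) (nat_lit 0x255021001c008809bc01c01c40040002b84018502100080088050001c014a0040002b0401e2021000b0088078c01c0005506061e04200d6011018d0038071c0080005408004c04f00270170013009800340120004c08004e04f000d0170001281001d013c09400840016038003301101348038086c0180402004008a001013180000006e24001c0840003602030e0420148007005280100006a0c078408403c600e00a70020000d018136810800d404404f200e022500601000010037c00404e0000000198700120278000c00800c800812080020e700008200c03))) 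
(.lf (nat_lit 2819227689) (dlOf (nat_lit 1) (nat_lit 0x200081f0781))))) (.nd (nat_lit 9) 
(.nd (nat_lit 28) 
(.lf (nat_lit 3960078377) (dlOf (nat_lit 7) (nat_lit 0x260070000640801300380003004009801c0001702006400e002b006001000000002c0c009801c0001502008a00e0000a0181a0d00))) 
(.lf (nat_lit 3154772009) (dlOf (nat_lit 2) (nat_lit 0x2300a20016c0200060018320d81)))) 
(.lf (nat_lit 68815401) (dlOf (nat_lit 1) (nat_lit 0x8008000400200020008785183))))) 
(.nd (nat_lit 20) (.nd (nat_lit 23) (.nd (nat_lit 26) 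
(.lf (nat_lit 1344929833) (dlOf (nat_lit 1) (nat_lit 0x80080004002004400089a0203))) 
(.lf (nat_lit 2754215977) (dlOf (nat_lit 3) (nat_lit 0x240880002402000a06900060220000881000f0008003c002002600080c0d03)))) 
(.lf (nat_lit 11141161) (dlOf (nat_lit 16) (nat_lit 0x4039600701ba00050cd80028000000ac10020439601121ba0002a8200690e58000866c000a60802043ba000510202101df010d0ee807e876400443ae00460bb000605c80013830068077c00783ba0004c04002a1dd000258100230ef8000e8080b7877c04c03b2000370400941df0001b0100350ef8000d408086877c0006804003c374000160201e01cb010d0dd005a866c000260c01e4396010c1ba00180cd8000481800a00080110002003c0008660683)))) 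
(.nd (nat_lit 9) (.nd (nat_lit 23) 
(.lf (nat_lit 3801129) (dlOf (nat_lit 6) (nat_lit 0x613f006c70100010740035480800085100008270000a133000507400354420003051000202700014133000a07400354020000851000182700010133000807400353c200028008000800200020008220a03))) 
(.lf (nat_lit 45744169) (dlOf (nat_lit 1) (nat_lit 0x8008000400200020009360203)))) 
(.lf (nat_lit 473563689) (dlOf (nat_lit 3) (nat_lit 0xc11b0003b01000308d800000080008008001c00200040008f68903)))))))) 
(.nd (nat_lit 8) (.nd (nat_lit 28) (.nd (nat_lit 5) (.nd (nat_lit 19) (.nd (nat_lit 7) 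
(.nd (nat_lit 21) 
(.lf (nat_lit 3288465481) (dlOf (nat_lit 2) (nat_lit 0xed009800098080038008004000200080008020883))) 
(.lf (nat_lit 52559945) (dlOf (nat_lit 2) (nat_lit 0x8d7f4001520200020029550601)))) 
(.nd (nat_lit 10) 
(.lf (nat_lit 2755789001) (dlOf (nat_lit 1) (nat_lit 0x80080004002006e00081b0483))) 
(.lf (nat_lit 3355579593) (dlOf (nat_lit 1) (nat_lit 0x2800080a9501))))) (.nd (nat_lit 9) 
(.nd (nat_lit 20) 
(.lf (nat_lit 3221880905) (dlOf (nat_lit 6) (nat_lit 0x120140021c07e0114033008b01400458074003001201160070052002800280000005c2400040000002c02007a0160001481008b020004580e0022c02c0002706009001f004a00f0000001001b00080110002004600081a1483))) 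
(.lf (nat_lit 10092617) (dlOf (nat_lit 2) (nat_lit 0x9e2d1000130185b0880)))) 
(.lf (nat_lit 32115273) (dlOf (nat_lit 1) (nat_lit 0x8008000c00200020008ef5203))))) 
(.nd (nat_lit 23) (.nd (nat_lit 7) (.nd (nat_lit 10) 
(.lf (nat_lit 537526377) (dlOf (nat_lit 5) (nat_lit 0x4b029002d00cc001401000015060104052005c01980004c10024814801540660000504006a0520004019800010100140008008c002001c00080a1403))) 
(.lf (nat_lit 138345) (dlOf (nat_lit 1) (nat_lit 0x40040002000800c082)))) (.nd (nat_lit 9) 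
(.lf (nat_lit 3355579625) (dlOf (nat_lit 1) (nat_lit 0xb0004005400080a9502))) 
(.lf (nat_lit 20057833) (dlOf (nat_lit 1) (nat_lit 0x500080014002000400089d7403))))) 
(.nd (nat_lit 19) (.nd (nat_lit 10) 
(.lf (nat_lit 12714089) (dlOf (nat_lit 2) (nat_lit 0x4a1a1802687b60001004000200286d1401))) 
(.lf (nat_lit 8526953) (dlOf (nat_lit 1) (nat_lit 0xc004000a000851c082)))) (.nd (nat_lit 7) 
(.lf (nat_lit 44696681) (dlOf (nat_lit 1) (nat_lit 0x20009322981))) 
(.lf (nat_lit 9045225) (dlOf (nat_lit 1) (nat_lit 0x20018512e81))))))) (.nd (nat_lit 30) 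
(.nd (nat_lit 7) (.nd (nat_lit 19) (.nd (nat_lit 27) 
(.lf (nat_lit 2416050249) (dlOf (nat_lit 4) (nat_lit 0x2e004400dc01c007300b801b00000004c100110044000a0170001282004001100008808003000800b800200600008020883))) 
(.lf (nat_lit 2550267977) (dlOf (nat_lit 4) (nat_lit 0x2e004400dc01d007300b801b00000004c100110044000a0170001282004001100008808003000800b800200600008020883)))) 
(.lf (nat_lit 805961801) (dlOf (nat_lit 3) (nat_lit 0x13502b005d004c000200805b40ac0000d0200020028201481)))) 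
(.nd (nat_lit 5) 
(.lf (nat_lit 6711017673) (dlOf (nat_lit 1) (nat_lit 0x20008003000200020008031b83))) 
(.lf (nat_lit 335675625) (dlOf (nat_lit 2) (nat_lit 0x14042002490200080028090a81))))) 
(.nd (nat_lit 19) (.nd (nat_lit 5) (.nd (nat_lit 7) 
(.lf (nat_lit 4026662985) (dlOf (nat_lit 2) (nat_lit 0xed009800098080038008004000200080008020883))) 
(.lf (nat_lit 3556903625) (dlOf (nat_lit 1) (nat_lit 0x80080004002000200080d5803)))) 
(.lf (nat_lit 6376524393) (dlOf (nat_lit 1) (nat_lit 0x40028095381)))) (.nd (nat_lit 21) 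
(.nd (nat_lit 26) 
(.lf (nat_lit 5772017737) (dlOf (nat_lit 2) (nat_lit 0x4c01400019008011000800c000200ba0008040503))) 
(.lf (nat_lit 6375997513) (dlOf (nat_lit 2) (nat_lit 0x4c01400018408011000800c000200ba0008040503)))) 
(.lf (nat_lit 3492413513) (dlOf (nat_lit 4) (nat_lit 0x6a034001f819401c80c6003804d0067021000c8084000681801000d00090063003d0210000c81800881a000980a6004e0480023021000f807800062140090004004a00180c1482))))))) 
(.nd (nat_lit 5) (.nd (nat_lit 29) (.nd (nat_lit 19) (.nd (nat_lit 7) 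
(.lf (nat_lit 2617381705) (dlOf (nat_lit 1) (nat_lit 0x200280a8f81))) (.nd (nat_lit 20) 
(.nd (nat_lit 22) 
(.lf (nat_lit 33688009) (dlOf (nat_lit 1) (nat_lit 0x40008000c00200060008f54e83))) 
(.lf (nat_lit 474089929) (dlOf (nat_lit 1) (nat_lit 0x2e0009084e81)))) 
(.lf (nat_lit 473041353) (dlOf (nat_lit 1) (nat_lit 0x460028c34e81))))) (.nd (nat_lit 11) 
(.lf (nat_lit 23724489) (dlOf (nat_lit 1) (nat_lit 0x14000800a0002002c0008b80983))) 
(.nd (nat_lit 22) (.lf (nat_lit 3490318793) (dlOf (nat_lit 1) (nat_lit 0x460028004e81))) 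
(.lf (nat_lit 46795209) (dlOf (nat_lit 1) (nat_lit 0x5000800a800200040009384e83)))))) 
(.nd (nat_lit 9) (.nd (nat_lit 7) (.nd (nat_lit 10) 
(.lf (nat_lit 3959560521) (dlOf (nat_lit 1) (nat_lit 0x800800040020002000811ab83))) 
(.lf (nat_lit 738854217) (dlOf (nat_lit 2) (nat_lit 0x602d0000a0080080008003400200100008123303)))) 
(.nd (nat_lit 26) 
(.lf (nat_lit 1610744265) (dlOf (nat_lit 3) (nat_lit 0x30814c01c006a0126021009700e80005c2005a814c02e406a019802100c600e800000200050008019400200040008091103))) 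
(.lf (nat_lit 3020030409) (dlOf (nat_lit 1) (nat_lit 0x200280e7a81))))) (.nd (nat_lit 10) 
(.nd (nat_lit 26) 
(.lf (nat_lit 5905712073) (dlOf (nat_lit 1) (nat_lit 0x20008000800200080008142883))) 
(.lf (nat_lit 3959555017) (dlOf (nat_lit 1) (nat_lit 0x2800200020008112882)))) 
(.lf (nat_lit 1677858761) (dlOf (nat_lit 1) (nat_lit 0x1000800380020056000811a603)))))) 
(.nd (nat_lit 7) (.nd (nat_lit 12) (.nd (nat_lit 11) (.nd (nat_lit 10) 
(.lf (nat_lit 43123049) (dlOf (nat_lit 2) (nat_lit 0x1db6400000040020002001000092a0f02))) 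
(.lf (nat_lit 2818704745) (dlOf (nat_lit 1) (nat_lit 0x4004002800080d3482)))) (.nd (nat_lit 9) 
(.lf (nat_lit 3221358953) (dlOf (nat_lit 1) (nat_lit 0x140018114e81))) 
(.lf (nat_lit 6241258345) (dlOf (nat_lit 1) (nat_lit 0x100080004002000200080d5c03))))) 
(.nd (nat_lit 9) (.nd (nat_lit 27) 
(.lf (nat_lit 1677859177) (dlOf (nat_lit 1) (nat_lit 0x2001811ac01))) 
(.lf (nat_lit 3959560553) (dlOf (nat_lit 2) (nat_lit 0x302300013408055000800c40020076000811ac03)))) 
(.lf (nat_lit 134355817) (dlOf (nat_lit 1) (nat_lit 0x2002800bc81))))) (.nd (nat_lit 26) 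
(.nd (nat_lit 11) (.lf (nat_lit 1610744297) (dlOf (nat_lit 2) (nat_lit 0x205200026818091300))) 
(.nd (nat_lit 28) (.lf (nat_lit 3221359081) (dlOf (nat_lit 1) (nat_lit 0x140018114e81))) 
(.lf (nat_lit 805439977) (dlOf (nat_lit 1) (nat_lit 0x15400200520008114e82))))) (.nd (nat_lit 21) 
(.nd (nat_lit 31) (.lf (nat_lit 6241257961) (dlOf (nat_lit 1) (nat_lit 0x4004000200080d4e82))) 
(.lf (nat_lit 4093774313) (dlOf (nat_lit 1) (nat_lit 0x400400020008004e82)))) 
(.lf (nat_lit 6377572841) (dlOf (nat_lit 1) (nat_lit 0x200280e4e81))))))))) (.nd (nat_lit 28) 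
(.nd (nat_lit 5) (.nd (nat_lit 19) (.nd (nat_lit 6) (.nd (nat_lit 10) (.nd (nat_lit 9) 
(.nd (nat_lit 7) (.nd (nat_lit 20) 
(.lf (nat_lit 12746761) (dlOf (nat_lit 1) (nat_lit 0x280080014002000200086e0003))) 
(.lf (nat_lit 15892489) (dlOf (nat_lit 1) (nat_lit 0x20008840281)))) 
(.lf (nat_lit 2261129) (dlOf (nat_lit 1) (nat_lit 0x60018150101)))) (.nd (nat_lit 26) 
(.lf (nat_lit 2818736649) (dlOf (nat_lit 5) (nat_lit 0x2402c0012015000900700078030001c00c001a004000d0000004b43800380000023204002400c00102020002006000808180e8000))) 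
(.lf (nat_lit 2214756873) (dlOf (nat_lit 1) (nat_lit 0x4004000200080a1482))))) (.nd (nat_lit 8) 
(.lf (nat_lit 20089865) (dlOf (nat_lit 1) (nat_lit 0x58004000800189d5f82))) (.nd (nat_lit 20) 
(.lf (nat_lit 35816713) (dlOf (nat_lit 1) (nat_lit 0x1c00200080009012f82))) 
(.lf (nat_lit 36865289) (dlOf (nat_lit 1) (nat_lit 0x20019072f81)))))) (.nd (nat_lit 10) 
(.nd (nat_lit 21) (.nd (nat_lit 7) 
(.lf (nat_lit 3288498249) (dlOf (nat_lit 1) (nat_lit 0x10008006c00200120008030f03))) 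
(.lf (nat_lit 3758264521) (dlOf (nat_lit 1) (nat_lit 0x60018128001)))) (.nd (nat_lit 8) 
(.lf (nat_lit 52592713) (dlOf (nat_lit 2) (nat_lit 0x594f6002ca69000a9029550600))) 
(.lf (nat_lit 2261321) (dlOf (nat_lit 1) (nat_lit 0x340018150601))))) (.nd (nat_lit 7) 
(.nd (nat_lit 9) (.lf (nat_lit 51545161) (dlOf (nat_lit 1) (nat_lit 0x20019512881))) 
(.lf (nat_lit 2214762057) (dlOf (nat_lit 1) (nat_lit 0x4004000200080a9c02)))) 
(.lf (nat_lit 20092105) (dlOf (nat_lit 1) (nat_lit 0x200189d9501)))))) (.nd (nat_lit 20) 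
(.nd (nat_lit 26) (.nd (nat_lit 27) (.nd (nat_lit 22) 
(.lf (nat_lit 3221913609) (dlOf (nat_lit 1) (nat_lit 0x600081b0001))) 
(.lf (nat_lit 13271049) (dlOf (nat_lit 1) (nat_lit 0x120028710581)))) (.nd (nat_lit 29) 
(.lf (nat_lit 134905865) (dlOf (nat_lit 3) (nat_lit 0x18128000fa04030408c00ee02f008b0060001f018012800800b4002000200080d0483))) 
(.lf (nat_lit 3893002249) (dlOf (nat_lit 1) (nat_lit 0xb8008025c002002000082c0003))))) 
(.nd (nat_lit 27) (.nd (nat_lit 21) 
(.lf (nat_lit 67797001) (dlOf (nat_lit 1) (nat_lit 0x4004000200082f0582))) 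
(.lf (nat_lit 2754248713) (dlOf (nat_lit 3) (nat_lit 0xa0ff8001f40802e07fc00982ba005814c002c0a10001f02002780080054002002600080d0483)))) 
(.nd (nat_lit 29) 
(.lf (nat_lit 202014729) (dlOf (nat_lit 3) (nat_lit 0x18128000fa04030408c00ee02f008b0060001f018012800800b4002000200080d0483))) 
(.lf (nat_lit 3960111113) (dlOf (nat_lit 1) (nat_lit 0x600081b0001)))))) (.nd (nat_lit 6) 
(.nd (nat_lit 23) (.lf (nat_lit 18513929) (dlOf (nat_lit 1) (nat_lit 0x400400020008940282))) 
(.lf (nat_lit 10125321) (dlOf (nat_lit 1) (nat_lit 0x200285b0481)))) (.nd (nat_lit 7) 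
(.lf (nat_lit 10125385) (dlOf (nat_lit 1) (nat_lit 0x180080004002000600085b0883))) (.nd (nat_lit 8) 
(.lf (nat_lit 8029385) (dlOf (nat_lit 1) (nat_lit 0x9c0018512d81))) 
(.lf (nat_lit 8033737) (dlOf (nat_lit 1) (nat_lit 0xa00018519a81)))))))) (.nd (nat_lit 6) 
(.nd (nat_lit 9) (.nd (nat_lit 19) (.nd (nat_lit 11) (.nd (nat_lit 7) (.nd (nat_lit 22) 
(.lf (nat_lit 2684518441) (dlOf (nat_lit 6) (nat_lit 0x5801800040040002b02001a006000154080428034000260400f001a00120040000902000d0068000400802a8008040400200340008080683))) 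
(.lf (nat_lit 29524009) (dlOf (nat_lit 2) (nat_lit 0x40000008c02000e0018e10781)))) 
(.lf (nat_lit 2147647657) (dlOf (nat_lit 1) (nat_lit 0x800280a2c81)))) (.nd (nat_lit 8) 
(.lf (nat_lit 170025) (dlOf (nat_lit 2) (nat_lit 0xe53f002bcc08002800800240020012000800a603))) 
(.lf (nat_lit 170281) (dlOf (nat_lit 1) (nat_lit 0x8001800ab81))))) (.nd (nat_lit 7) 
(.nd (nat_lit 22) 
(.lf (nat_lit 3833897) (dlOf (nat_lit 4) (nat_lit 0x104fc000825c0006103000401f0000282000104fc000425c000c103000601f0000242000284fc000c25c000c103000601f000020200008008000400200020008230a83))) 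
(.lf (nat_lit 24805417) (dlOf (nat_lit 8) (nat_lit 0x5af50001577a0001b040008bd400075de800064100042f50002977a00018040016bd400055de80002c100042ef4000140400097a80014bbd0000482000b5ea0005aef40001008002000400080018bb0a82)))) 
(.lf (nat_lit 58361001) (dlOf (nat_lit 1) (nat_lit 0x1000297e2c01))))) (.nd (nat_lit 8) 
(.nd (nat_lit 11) (.nd (nat_lit 19) 
(.lf (nat_lit 11698729) (dlOf (nat_lit 3) (nat_lit 0xf188000b7aa00011040003c620006dea800034100040008007c002005e00086c0e03))) 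
(.lf (nat_lit 2753200681) (dlOf (nat_lit 1) (nat_lit 0x60028090e01)))) 
(.lf (nat_lit 5435984425) (dlOf (nat_lit 1) (nat_lit 0x400400020008095182)))) (.nd (nat_lit 11) 
(.lf (nat_lit 2214757161) (dlOf (nat_lit 1) (nat_lit 0x10004001c00080a2202))) (.nd (nat_lit 19) 
(.lf (nat_lit 54692649) (dlOf (nat_lit 4) (nat_lit 0x2439d000898080151ce80041c0400c0e88001a30200040009655c01))) 
(.lf (nat_lit 20613929) (dlOf (nat_lit 1) (nat_lit 0x4002000200089d5c02))))))) (.nd (nat_lit 8) 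
(.nd (nat_lit 7) (.nd (nat_lit 19) 
(.lf (nat_lit 69369961) (dlOf (nat_lit 1) (nat_lit 0x2c00400040018940a02))) 
(.lf (nat_lit 537559145) (dlOf (nat_lit 5) (nat_lit 0x96052004a0198000541002d0148012c06600013040080052003f01980001410003014800008040064004003c00180a1402)))) 
(.nd (nat_lit 11) (.lf (nat_lit 8029417) (dlOf (nat_lit 1) (nat_lit 0xf80018512e81))) 
(.nd (nat_lit 20) 
(.lf (nat_lit 1812106473) (dlOf (nat_lit 2) (nat_lit 0x44000000000200060028146501))) 
(.lf (nat_lit 2754776297) (dlOf (nat_lit 2) (nat_lit 0x5042e0002d02000200280f6501)))))) 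
(.nd (nat_lit 25) (.nd (nat_lit 11) 
(.lf (nat_lit 201490921) (dlOf (nat_lit 1) (nat_lit 0x20028017d01))) 
(.lf (nat_lit 5435984361) (dlOf (nat_lit 1) (nat_lit 0x8008000400200020008094e83)))) 
(.nd (nat_lit 7) (.lf (nat_lit 43155817) (dlOf (nat_lit 1) (nat_lit 0x4004000400092a0f02))) 
(.lf (nat_lit 36340713) (dlOf (nat_lit 1) (nat_lit 0x20019072881)))))))) (.nd (nat_lit 26) 
(.nd (nat_lit 7) (.nd (nat_lit 19) (.nd (nat_lit 6) (.nd (nat_lit 10) (.nd (nat_lit 22) 
(.nd (nat_lit 29) 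
(.lf (nat_lit 1476558857) (dlOf (nat_lit 2) (nat_lit 0x2101b0000000800b0008001800200900008050003))) 
(.lf (nat_lit 5234655241) (dlOf (nat_lit 1) (nat_lit 0x20018070001)))) 
(.lf (nat_lit 1346535433) (dlOf (nat_lit 1) (nat_lit 0x2c00400040008fa0002)))) (.nd (nat_lit 5) 
(.nd (nat_lit 9) (.lf (nat_lit 1880261641) (dlOf (nat_lit 1) (nat_lit 0x540028802881))) 
(.lf (nat_lit 5637309961) (dlOf (nat_lit 1) (nat_lit 0x200280d3681)))) 
(.lf (nat_lit 5772576041) (dlOf (nat_lit 1) (nat_lit 0x5c00200020008093182))))) (.nd (nat_lit 8) 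
(.nd (nat_lit 9) 
(.lf (nat_lit 4026695753) (dlOf (nat_lit 1) (nat_lit 0x10008006c00200120008030f03))) 
(.lf (nat_lit 1342341705) (dlOf (nat_lit 1) (nat_lit 0x20028018801)))) (.nd (nat_lit 10) 
(.lf (nat_lit 1342341449) (dlOf (nat_lit 1) (nat_lit 0xa0028014c01))) 
(.lf (nat_lit 3489832265) (dlOf (nat_lit 1) (nat_lit 0x14000800c901)))))) (.nd (nat_lit 5) 
(.nd (nat_lit 20) 
(.lf (nat_lit 3492446217) (dlOf (nat_lit 3) (nat_lit 0xa0f68001f40802e07b400982b0005814c002c0a10001f02002780080054002002600080d0483))) 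
(.lf (nat_lit 5773099017) (dlOf (nat_lit 1) (nat_lit 0x200280a0001)))) (.nd (nat_lit 9) 
(.nd (nat_lit 20) 
(.lf (nat_lit 1342865449) (dlOf (nat_lit 2) (nat_lit 0x445e0000b02001000280f0a81))) 
(.lf (nat_lit 1880784937) (dlOf (nat_lit 1) (nat_lit 0x400400020008b90202)))) 
(.lf (nat_lit 3491398185) (dlOf (nat_lit 1) (nat_lit 0x60028090e01)))))) (.nd (nat_lit 6) 
(.nd (nat_lit 5) (.nd (nat_lit 8) (.nd (nat_lit 10) 
(.lf (nat_lit 5234655369) (dlOf (nat_lit 3) (nat_lit 0xf40400003602005202d000901500018078000640c0018004000c0018070f02))) 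
(.lf (nat_lit 3489832073) (dlOf (nat_lit 1) (nat_lit 0x40040002000800c202)))) 
(.lf (nat_lit 805472649) (dlOf (nat_lit 1) (nat_lit 0x400400020018114e82)))) (.nd (nat_lit 8) 
(.nd (nat_lit 27) (.lf (nat_lit 6174179497) (dlOf (nat_lit 1) (nat_lit 0x800400040008081482))) 
(.lf (nat_lit 5234655401) (dlOf (nat_lit 1) (nat_lit 0x20018071481)))) 
(.lf (nat_lit 5637309865) (dlOf (nat_lit 1) (nat_lit 0x200280d3601))))) (.nd (nat_lit 31) 
(.nd (nat_lit 5) (.nd (nat_lit 8) 
(.lf (nat_lit 5234655433) (dlOf (nat_lit 1) (nat_lit 0x20008071b81))) 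
(.lf (nat_lit 1342341577) (dlOf (nat_lit 1) (nat_lit 0x60028017101)))) 
(.lf (nat_lit 1342341609) (dlOf (nat_lit 2) (nat_lit 0x100000007e04007400200120008017302)))) 
(.nd (nat_lit 5) (.nd (nat_lit 8) 
(.lf (nat_lit 3494019273) (dlOf (nat_lit 1) (nat_lit 0x80080004002006e00081b0483))) 
(.lf (nat_lit 3489828297) (dlOf (nat_lit 1) (nat_lit 0x1000400040008006d02)))) 
(.lf (nat_lit 3491922409) (dlOf (nat_lit 2) (nat_lit 0x8388000030200020028090d01))))))) 
(.nd (nat_lit 8) (.nd (nat_lit 29) (.nd (nat_lit 5) (.nd (nat_lit 6) (.nd (nat_lit 7) 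
(.lf (nat_lit 3557457929) (dlOf (nat_lit 1) (nat_lit 0x300028210001))) 
(.lf (nat_lit 5704417417) (dlOf (nat_lit 1) (nat_lit 0x20018070f01)))) (.nd (nat_lit 9) 
(.lf (nat_lit 3691151433) (dlOf (nat_lit 1) (nat_lit 0x1400200020008050682))) 
(.lf (nat_lit 469926473) (dlOf (nat_lit 1) (nat_lit 0x34800806e800200ec0008018d03))))) 
(.nd (nat_lit 19) (.lf (nat_lit 2483191849) (dlOf (nat_lit 1) (nat_lit 0x1000200040008070882))) 
(.nd (nat_lit 21) 
(.lf (nat_lit 470450217) (dlOf (nat_lit 2) (nat_lit 0x445e0000b02001000280f0a81))) 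
(.lf (nat_lit 472547369) (dlOf (nat_lit 2) (nat_lit 0x60bc000038189b0880)))))) (.nd (nat_lit 6) 
(.nd (nat_lit 19) (.nd (nat_lit 9) 
(.lf (nat_lit 1008893961) (dlOf (nat_lit 1) (nat_lit 0x150004007a0008fc0002))) 
(.lf (nat_lit 6377605641) (dlOf (nat_lit 1) (nat_lit 0x200280e5001)))) (.nd (nat_lit 5) 
(.lf (nat_lit 4095377417) (dlOf (nat_lit 1) (nat_lit 0x1d000280a0001))) 
(.lf (nat_lit 4228546601) (dlOf (nat_lit 8) (nat_lit 0x7c02a0002b8100010150001580800400a8000aa0403e00540005402005e02a0001b8100060150000d00802a80a800066040020004001a00180f0c02))))) 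
(.nd (nat_lit 5) (.nd (nat_lit 7) 
(.lf (nat_lit 4228546633) (dlOf (nat_lit 2) (nat_lit 0xe00c80002004007c004000200080f1482))) 
(.lf (nat_lit 872580297) (dlOf (nat_lit 1) (nat_lit 0x20028092d81)))) 
(.lf (nat_lit 872580329) (dlOf (nat_lit 1) (nat_lit 0x20028092e81)))))) (.nd (nat_lit 6) 
(.nd (nat_lit 5) (.nd (nat_lit 7) (.nd (nat_lit 9) 
(.lf (nat_lit 5301765385) (dlOf (nat_lit 1) (nat_lit 0x20008092f81))) 
(.lf (nat_lit 3154287369) (dlOf (nat_lit 1) (nat_lit 0xa38008000400200fe000815b983)))) 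
(.nd (nat_lit 11) (.lf (nat_lit 4228022665) (dlOf (nat_lit 1) (nat_lit 0x20028015d01))) 
(.lf (nat_lit 6241290633) (dlOf (nat_lit 1) (nat_lit 0x400280d4e81))))) (.nd (nat_lit 10) 
(.lf (nat_lit 469926185) (dlOf (nat_lit 1) (nat_lit 0x20028014601))) 
(.lf (nat_lit 872580393) (dlOf (nat_lit 1) (nat_lit 0x20008093181))))) (.nd (nat_lit 29) 
(.nd (nat_lit 5) (.nd (nat_lit 7) 
(.lf (nat_lit 469926217) (dlOf (nat_lit 1) (nat_lit 0xa0028014c01))) 
(.lf (nat_lit 473074121) (dlOf (nat_lit 2) (nat_lit 0x1021b000c0cc8032c8100008008007c002001e0008c94e83)))) 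
(.lf (nat_lit 469926249) (dlOf (nat_lit 1) (nat_lit 0x20008015201)))) (.nd (nat_lit 30) 
(.nd (nat_lit 10) (.lf (nat_lit 5301764553) (dlOf (nat_lit 2) (nat_lit 0x401400000018091100))) 
(.lf (nat_lit 3020068297) (dlOf (nat_lit 1) (nat_lit 0x60018129a81)))) (.nd (nat_lit 5) 
(.lf (nat_lit 4228022729) (dlOf (nat_lit 1) (nat_lit 0x400200740008017102))) 
(.lf (nat_lit 4228022761) (dlOf (nat_lit 5) (nat_lit 0xc701d000500c0033c05c013a02a003f01000019c2808580e8001c06200100300124017008600a80174040002201a000100a0001984002300a8000820405f00740078037017b01b000680d4001c0620010030003701700ad80a8082c044003001a000100a0000fc58098800806c800200460008017303))))))))))) 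
(.nd (nat_lit 5) (.nd (nat_lit 19) (.nd (nat_lit 15) (.nd (nat_lit 31) (.nd (nat_lit 32) 
(.nd (nat_lit 6) (.nd (nat_lit 27) (.nd (nat_lit 7) (.nd (nat_lit 23) 
(.lf (nat_lit 55967753) (dlOf (nat_lit 1) (nat_lit 0x8008002800200020009700083))) 
(.lf (nat_lit 30801929) (dlOf (nat_lit 2) (nat_lit 0x6c0e0009c0200020018e50581)))) 
(.lf (nat_lit 604373129) (dlOf (nat_lit 1) (nat_lit 0x180080018002000400081a0483)))) 
(.nd (nat_lit 7) (.nd (nat_lit 26) 
(.lf (nat_lit 134611465) (dlOf (nat_lit 1) (nat_lit 0x400400020018090d82))) 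
(.lf (nat_lit 201720329) (dlOf (nat_lit 1) (nat_lit 0x400400020018090d82)))) 
(.lf (nat_lit 1208352905) (dlOf (nat_lit 1) (nat_lit 0x400280c0f01))))) (.nd (nat_lit 20) 
(.nd (nat_lit 21) (.nd (nat_lit 22) 
(.lf (nat_lit 1946550345) (dlOf (nat_lit 3) (nat_lit 0x7e0270001a01001c0138000c4080008008002c002000400080c1483))) 
(.lf (nat_lit 29753417) (dlOf (nat_lit 1) (nat_lit 0x1f00008e30101)))) 
(.lf (nat_lit 1881538633) (dlOf (nat_lit 4) (nat_lit 0x381c6000e0e2001003d80053c18007038c004c0f6000f70400220e3001503d8003d41002a8008007c00200440008f40603)))) 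
(.nd (nat_lit 7) (.nd (nat_lit 9) 
(.lf (nat_lit 1345717577) (dlOf (nat_lit 2) (nat_lit 0xa00000007818dd3300))) 
(.lf (nat_lit 20319049) (dlOf (nat_lit 1) (nat_lit 0x4002000200089d5c02)))) 
(.lf (nat_lit 43386057) (dlOf (nat_lit 1) (nat_lit 0x14004000600092a2d82)))))) (.nd (nat_lit 27) 
(.nd (nat_lit 6) (.nd (nat_lit 7) (.nd (nat_lit 28) 
(.lf (nat_lit 5905973257) (dlOf (nat_lit 5) (nat_lit 0x200940027604001804a0013902000a0250006c81000f0128003600801d0008000c00200240008170483))) 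
(.lf (nat_lit 4563795977) (dlOf (nat_lit 5) (nat_lit 0xa002800080110012008005cf81801e005000880220173d0400280140008008805cec1000300cc02bc0040114004001a00080e0002)))) 
(.nd (nat_lit 8) (.lf (nat_lit 4295360649) (dlOf (nat_lit 1) (nat_lit 0x1800081a0101))) 
(.lf (nat_lit 4362469769) (dlOf (nat_lit 1) (nat_lit 0x20008090781))))) (.nd (nat_lit 8) 
(.lf (nat_lit 5905973321) (dlOf (nat_lit 1) (nat_lit 0x8008002c002000c0008170f03))) 
(.lf (nat_lit 4295360841) (dlOf (nat_lit 1) (nat_lit 0x12800281a0601))))) (.nd (nat_lit 28) 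
(.nd (nat_lit 6) (.lf (nat_lit 4429578377) (dlOf (nat_lit 1) (nat_lit 0x1800081a0101))) 
(.lf (nat_lit 4429578569) (dlOf (nat_lit 1) (nat_lit 0x12800281a0601)))) (.nd (nat_lit 26) 
(.lf (nat_lit 4698013705) (dlOf (nat_lit 5) (nat_lit 0x180660173e02005001400040088009004002bc00c00f0028004401100aef82001400a0004004402bba080114004001a00080e0002))) 
(.lf (nat_lit 5838864393) (dlOf (nat_lit 1) (nat_lit 0x3c004001400181d0002))))))) (.nd (nat_lit 26) 
(.nd (nat_lit 30) (.nd (nat_lit 27) (.nd (nat_lit 28) 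
(.lf (nat_lit 6442844169) (dlOf (nat_lit 1) (nat_lit 0x3c004001400181d0002))) 
(.lf (nat_lit 2416312329) (dlOf (nat_lit 1) (nat_lit 0x800080d0481)))) 
(.lf (nat_lit 2550530057) (dlOf (nat_lit 1) (nat_lit 0x800080d0481)))) (.nd (nat_lit 20) 
(.nd (nat_lit 22) 
(.lf (nat_lit 3355836425) (dlOf (nat_lit 3) (nat_lit 0x9c06400cb602004e03200651818120000))) 
(.lf (nat_lit 3494248457) (dlOf (nat_lit 8) (nat_lit 0x40a2000e039000a01c005cf818000815000040a6000205100010280000813802d76140024072001203800080038057801800400e402bbe04001c072015de020004055000401c80552410001015402a9004000c002000200081e0002)))) 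
(.nd (nat_lit 11) 
(.lf (nat_lit 3491102729) (dlOf (nat_lit 1) (nat_lit 0x50008001000200060008060483))) 
(.lf (nat_lit 3493201929) (dlOf (nat_lit 1) (nat_lit 0x23800800d4002000800080f4703)))))) 
(.nd (nat_lit 29) (.nd (nat_lit 9) (.nd (nat_lit 6) 
(.lf (nat_lit 6509953033) (dlOf (nat_lit 5) (nat_lit 0x200980027604001804c0013902000a0260006c81000f0130003600801d0008000c00200240008170483))) 
(.lf (nat_lit 6509953097) (dlOf (nat_lit 1) (nat_lit 0x8008002c002000c0008170f03)))) 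
(.nd (nat_lit 27) (.lf (nat_lit 2483421769) (dlOf (nat_lit 1) (nat_lit 0x200281b1181))) 
(.lf (nat_lit 2349204041) (dlOf (nat_lit 1) (nat_lit 0x200281b1181))))) (.nd (nat_lit 10) 
(.nd (nat_lit 20) (.nd (nat_lit 22) 
(.lf (nat_lit 3154509833) (dlOf (nat_lit 1) (nat_lit 0x90004001800081f0482))) 
(.lf (nat_lit 2756050953) (dlOf (nat_lit 8) (nat_lit 0x2407200120380008003805cf81800400e402e7a04001c0720173c020004055000401c805aec10001015402d740400040a2000e039000a01c00578018000815000040a6000205100010280000813802a9214000c002000200081e0002)))) 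
(.lf (nat_lit 2752905225) (dlOf (nat_lit 1) (nat_lit 0x50008001000200060008060483)))) 
(.lf (nat_lit 2751857673) (dlOf (nat_lit 1) (nat_lit 0x20018002881))))))) (.nd (nat_lit 8) 
(.nd (nat_lit 27) (.nd (nat_lit 20) (.nd (nat_lit 22) (.nd (nat_lit 10) 
(.lf (nat_lit 4563828745) (dlOf (nat_lit 3) (nat_lit 0xab0188037640810900c4000000400b8004004a00080f0a02))) 
(.lf (nat_lit 2751890441) (dlOf (nat_lit 1) (nat_lit 0x400400020018002882)))) (.nd (nat_lit 7) 
(.nd (nat_lit 21) (.lf (nat_lit 13008905) (dlOf (nat_lit 1) (nat_lit 0x8002000200086f0002))) 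
(.lf (nat_lit 15106057) (dlOf (nat_lit 2) (nat_lit 0x183160063c02000600087b0281)))) 
(.lf (nat_lit 21397641) (dlOf (nat_lit 3) (nat_lit 0x1a053c0006404001428a0002b0200380028a30f01))))) 
(.nd (nat_lit 11) (.nd (nat_lit 22) 
(.lf (nat_lit 1343651849) (dlOf (nat_lit 23) (nat_lit 0xf0238017b204002c11c00ba602000809d0001047000f81f80174a0c007811c00ba002003c08e005cf81001e047002e6c0800f02380173404003011c00b9602000609d0007047001301f80172a0c007811c00b8f02003c08e005a781000804e800f02380169208007011c00b4602002c09d001a047001c81f80168a0c002013a003a08e005a002000804e800f02380167e08007811c00b3b02003a08e0059d01000404e800f02380166c08007411c00b3502003c08e0059781001d047002c980813c800801ec002001000082d0283))) 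
(.lf (nat_lit 30834697) (dlOf (nat_lit 1) (nat_lit 0x800200060008e50582)))) (.nd (nat_lit 6) 
(.lf (nat_lit 3493234697) (dlOf (nat_lit 2) (nat_lit 0x403a0005402000200180f4701))) 
(.lf (nat_lit 20352073) (dlOf (nat_lit 1) (nat_lit 0x80080004002000200089d6083)))))) 
(.nd (nat_lit 26) (.nd (nat_lit 9) (.nd (nat_lit 28) 
(.lf (nat_lit 3892740105) (dlOf (nat_lit 1) (nat_lit 0xc0018210281))) 
(.lf (nat_lit 4698046473) (dlOf (nat_lit 3) (nat_lit 0xab0188024d40810900c4000000400b8004004a00080f0a02)))) 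
(.lf (nat_lit 134644233) (dlOf (nat_lit 2) (nat_lit 0x1320310006c818090d80)))) (.nd (nat_lit 6) 
(.lf (nat_lit 201753097) (dlOf (nat_lit 2) (nat_lit 0x1320310006c818090d80))) (.nd (nat_lit 11) 
(.lf (nat_lit 2886107721) (dlOf (nat_lit 1) (nat_lit 0x40028158d01))) 
(.lf (nat_lit 472287817) (dlOf (nat_lit 1) (nat_lit 0x800400040018985202))))))) (.nd (nat_lit 6) 
(.nd (nat_lit 27) (.nd (nat_lit 26) 
(.lf (nat_lit 3221651849) (dlOf (nat_lit 5) (nat_lit 0x46023002201140101808012c08c005c0450040582000e0230020280802c01180101204000c00400040008170782))) 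
(.lf (nat_lit 1678147977) (dlOf (nat_lit 3) (nat_lit 0x1e02b0002804c01c600800340ac0008013007170281a0780)))) 
(.nd (nat_lit 7) (.lf (nat_lit 4228284681) (dlOf (nat_lit 1) (nat_lit 0x20028090481))) 
(.lf (nat_lit 3959849353) (dlOf (nat_lit 4) (nat_lit 0xb4045007180100160228038bc0802a811401c5c04000800400020008170782))))) 
(.nd (nat_lit 11) (.nd (nat_lit 7) 
(.lf (nat_lit 1345750345) (dlOf (nat_lit 1) (nat_lit 0x400200020008dd3302))) 
(.lf (nat_lit 21397961) (dlOf (nat_lit 1) (nat_lit 0x8800800d400200260008a37103)))) 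
(.nd (nat_lit 26) (.lf (nat_lit 2416347593) (dlOf (nat_lit 1) (nat_lit 0x600180f4e81))) 
(.lf (nat_lit 604408265) (dlOf (nat_lit 2) (nat_lit 0x8072003003600070118032c8180090008001000200060008204e83)))))))) 
(.nd (nat_lit 6) (.nd (nat_lit 21) (.nd (nat_lit 30) (.nd (nat_lit 23) (.nd (nat_lit 7) 
(.nd (nat_lit 22) 
(.lf (nat_lit 2819489801) (dlOf (nat_lit 5) (nat_lit 0x810800c800400540840063f0200cc0420031e01002e0210018cc0804600080080002000400082b0283))) 
(.lf (nat_lit 21889033) (dlOf (nat_lit 1) (nat_lit 0x800400020018a80482)))) 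
(.lf (nat_lit 471761033) (dlOf (nat_lit 1) (nat_lit 0x40018490101)))) (.nd (nat_lit 15) 
(.nd (nat_lit 20) (.lf (nat_lit 13500425) (dlOf (nat_lit 1) (nat_lit 0x20028730481))) 
(.lf (nat_lit 27131913) (dlOf (nat_lit 1) (nat_lit 0x400400020008ca0482)))) 
(.lf (nat_lit 9338889) (dlOf (nat_lit 1) (nat_lit 0xc0008540281))))) (.nd (nat_lit 7) 
(.nd (nat_lit 15) 
(.lf (nat_lit 3557687305) (dlOf (nat_lit 5) (nat_lit 0x8114017aa04005408a00bd40200cc045005e781002e022802f200804600080080002000400082b0283))) 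
(.nd (nat_lit 26) (.lf (nat_lit 5773361161) (dlOf (nat_lit 1) (nat_lit 0x800080c0001))) 
(.lf (nat_lit 6377340937) (dlOf (nat_lit 1) (nat_lit 0x800080c0001))))) (.nd (nat_lit 9) 
(.nd (nat_lit 15) (.lf (nat_lit 6377308297) (dlOf (nat_lit 1) (nat_lit 0xc00180c0f01))) 
(.lf (nat_lit 1344176265) (dlOf (nat_lit 1) (nat_lit 0x40018490101)))) 
(.lf (nat_lit 4095608457) (dlOf (nat_lit 1) (nat_lit 0x200280e3a01)))))) (.nd (nat_lit 7) 
(.nd (nat_lit 11) (.nd (nat_lit 8) 
(.lf (nat_lit 61768713) (dlOf (nat_lit 1) (nat_lit 0x20019922881))) (.nd (nat_lit 10) 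
(.lf (nat_lit 3047689) (dlOf (nat_lit 1) (nat_lit 0x800801a000200600008200483))) 
(.lf (nat_lit 61768969) (dlOf (nat_lit 1) (nat_lit 0x20019922f81))))) (.nd (nat_lit 8) 
(.lf (nat_lit 19794953) (dlOf (nat_lit 1) (nat_lit 0x8004000600089d5f82))) (.nd (nat_lit 9) 
(.lf (nat_lit 19795209) (dlOf (nat_lit 1) (nat_lit 0x200089d6681))) 
(.lf (nat_lit 19798793) (dlOf (nat_lit 1) (nat_lit 0xc00080044002001800089db983)))))) 
(.nd (nat_lit 20) (.nd (nat_lit 8) (.nd (nat_lit 10) 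
(.lf (nat_lit 23986313) (dlOf (nat_lit 1) (nat_lit 0xc00200020008b80102))) 
(.lf (nat_lit 19795081) (dlOf (nat_lit 1) (nat_lit 0x8002000200089d6182)))) 
(.lf (nat_lit 19794825) (dlOf (nat_lit 1) (nat_lit 0x4002000200089d5c02)))) (.nd (nat_lit 8) 
(.nd (nat_lit 10) (.lf (nat_lit 12451977) (dlOf (nat_lit 1) (nat_lit 0x1c002001a00086c0102))) 
(.lf (nat_lit 8295561) (dlOf (nat_lit 1) (nat_lit 0x10008002000200080008519503)))) 
(.lf (nat_lit 8290697) (dlOf (nat_lit 1) (nat_lit 0x8008000400200020008511003))))))) 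
(.nd (nat_lit 15) (.nd (nat_lit 7) (.nd (nat_lit 21) (.nd (nat_lit 10) (.nd (nat_lit 22) 
(.lf (nat_lit 917577) (dlOf (nat_lit 1) (nat_lit 0x38008000c002000a0008030f03))) 
(.lf (nat_lit 21889097) (dlOf (nat_lit 1) (nat_lit 0x200018a80f01)))) 
(.lf (nat_lit 471733321) (dlOf (nat_lit 3) (nat_lit 0xe0570002c81000902b80015c080008008000c002000200083d9303)))) 
(.nd (nat_lit 8) (.nd (nat_lit 20) 
(.lf (nat_lit 4096655433) (dlOf (nat_lit 1) (nat_lit 0x400400020008151382))) 
(.lf (nat_lit 4063305) (dlOf (nat_lit 2) (nat_lit 0xd06c80000008004800800a0002001c0008270c83)))) 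
(.lf (nat_lit 19794761) (dlOf (nat_lit 1) (nat_lit 0x200089d5c01))))) (.nd (nat_lit 20) 
(.nd (nat_lit 9) (.nd (nat_lit 10) 
(.lf (nat_lit 23986377) (dlOf (nat_lit 1) (nat_lit 0x20028b80481))) 
(.lf (nat_lit 61736137) (dlOf (nat_lit 1) (nat_lit 0x80080040002000a0009922d83)))) 
(.lf (nat_lit 19796681) (dlOf (nat_lit 1) (nat_lit 0x80080004002000200089d8c83)))) (.nd (nat_lit 8) 
(.lf (nat_lit 6377308361) (dlOf (nat_lit 1) (nat_lit 0x4002000200080c1b82))) 
(.lf (nat_lit 4095607241) (dlOf (nat_lit 2) (nat_lit 0xc1070000c0180e1100)))))) (.nd (nat_lit 20) 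
(.nd (nat_lit 8) (.nd (nat_lit 7) 
(.lf (nat_lit 2752414281) (dlOf (nat_lit 1) (nat_lit 0x2400200040008018d02))) (.nd (nat_lit 26) 
(.lf (nat_lit 1879998665) (dlOf (nat_lit 1) (nat_lit 0x400200020008520482))) 
(.lf (nat_lit 1410236617) (dlOf (nat_lit 1) (nat_lit 0x400281b0481))))) (.nd (nat_lit 11) 
(.lf (nat_lit 5772313033) (dlOf (nat_lit 8) (nat_lit 0x7804c403cc2600001704016c1310000b0100ba0988000440805d04c4000200402d026200004020170131000010100b609880000008029800800b000200020008091103))) 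
(.lf (nat_lit 70158793) (dlOf (nat_lit 1) (nat_lit 0x10008000400200040008f44e83))))) 
(.nd (nat_lit 8) (.nd (nat_lit 21) (.nd (nat_lit 26) 
(.lf (nat_lit 5773361353) (dlOf (nat_lit 1) (nat_lit 0x4002000200080c1782))) 
(.lf (nat_lit 6377341129) (dlOf (nat_lit 1) (nat_lit 0x4002000200080c1b82)))) 
(.lf (nat_lit 12484809) (dlOf (nat_lit 1) (nat_lit 0x30008000c002000400086c0483)))) 
(.nd (nat_lit 26) (.lf (nat_lit 3491660233) (dlOf (nat_lit 1) (nat_lit 0x1000200020008090982))) 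
(.lf (nat_lit 2753462729) (dlOf (nat_lit 1) (nat_lit 0x1000200020008090982))))))))) 
(.nd (nat_lit 19) (.nd (nat_lit 15) (.nd (nat_lit 26) (.nd (nat_lit 30) (.nd (nat_lit 22) 
(.nd (nat_lit 28) (.nd (nat_lit 6) 
(.lf (nat_lit 9830441) (dlOf (nat_lit 1) (nat_lit 0x20008580281))) 
(.lf (nat_lit 396521) (dlOf (nat_lit 2) (nat_lit 0x9e7f000019018006500)))) (.nd (nat_lit 27) 
(.lf (nat_lit 4563796009) (dlOf (nat_lit 1) (nat_lit 0xe200180e0a81))) 
(.lf (nat_lit 4698013737) (dlOf (nat_lit 1) (nat_lit 0xb8004008800080e0a02))))) (.nd (nat_lit 20) 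
(.nd (nat_lit 7) (.lf (nat_lit 12976169) (dlOf (nat_lit 1) (nat_lit 0x1400186f0a81))) 
(.lf (nat_lit 21364905) (dlOf (nat_lit 1) (nat_lit 0x20008002c00200260008a31483)))) 
(.nd (nat_lit 21) (.lf (nat_lit 55967785) (dlOf (nat_lit 1) (nat_lit 0x8008000c00200020009700883))) 
(.lf (nat_lit 32899113) (dlOf (nat_lit 1) (nat_lit 0x400400020008f40882)))))) (.nd (nat_lit 27) 
(.nd (nat_lit 7) (.nd (nat_lit 20) 
(.lf (nat_lit 1611005993) (dlOf (nat_lit 4) (nat_lit 0x3cc0aa00b805300c001b800048180468154004c0a600c00370000883005602a801900dc00006080090002000200080b0382))) 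
(.lf (nat_lit 1880490025) (dlOf (nat_lit 1) (nat_lit 0x80080004002000200089a0203)))) 
(.lf (nat_lit 3490056617) (dlOf (nat_lit 1) (nat_lit 0x20008004e81)))) (.nd (nat_lit 29) 
(.lf (nat_lit 3355836457) (dlOf (nat_lit 17) (nat_lit 0xa40000005602030a030000250100070180001240804d80cc011c06001f602c00dd0148001142001100c00028058000440400020300002181011f0180001080801500c00007804027006000037020018033012c01800f10060039800600680000001905005a018001880600006208000803000030020372018011a0000000b41007a0000000580401cc0300001702020a01800009818120680))) 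
(.lf (nat_lit 3892707369) (dlOf (nat_lit 2) (nat_lit 0x8a01c0001500800680080010002001400081d0683)))))) 
(.nd (nat_lit 27) (.nd (nat_lit 6) (.nd (nat_lit 28) 
(.lf (nat_lit 67502121) (dlOf (nat_lit 1) (nat_lit 0x4004000200181a0802))) (.nd (nat_lit 29) 
(.lf (nat_lit 1409679401) (dlOf (nat_lit 1) (nat_lit 0x20008070881))) 
(.lf (nat_lit 1946550313) (dlOf (nat_lit 9) (nat_lit 0x1b8052000240200fe029000110100850148000800804500a40003e0401340520001e02008a0290000e81004301480006c0800400a400034040078004001600180c0c02))))) 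
(.nd (nat_lit 21) (.lf (nat_lit 4362469481) (dlOf (nat_lit 1) (nat_lit 0x20018090001))) 
(.lf (nat_lit 2753953897) (dlOf (nat_lit 2) (nat_lit 0x60b100040438000541000180080060002003200080a1403))))) 
(.nd (nat_lit 6) (.nd (nat_lit 28) 
(.lf (nat_lit 738590761) (dlOf (nat_lit 4) (nat_lit 0x3cc0aa00b805300c001b800048180468154004c0a600c00370000883005602a801900dc00006080090002000200080b0382))) 
(.nd (nat_lit 29) 
(.lf (nat_lit 2617638953) (dlOf (nat_lit 2) (nat_lit 0xb00a8000ac04000800400300008110602))) 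
(.lf (nat_lit 3154509865) (dlOf (nat_lit 3) (nat_lit 0x67015006680a001ac04f001d0238016011803a4088001c04302380190096008c0014044046401c027300a800600500210008000541c00340470026023000114100448008002c002011400081f0683))))) 
(.lf (nat_lit 4228251753) (dlOf (nat_lit 1) (nat_lit 0x40018090001)))))) (.nd (nat_lit 8) 
(.nd (nat_lit 26) (.nd (nat_lit 25) (.nd (nat_lit 27) (.nd (nat_lit 20) (.nd (nat_lit 28) 
(.lf (nat_lit 4295393321) (dlOf (nat_lit 3) (nat_lit 0x1a00b00010014012b008002400a0095702000c00281c0a01))) 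
(.lf (nat_lit 4026957865) (dlOf (nat_lit 1) (nat_lit 0x200180e0581)))) 
(.lf (nat_lit 1343651881) (dlOf (nat_lit 2) (nat_lit 0x50f38001700800a80080044002000c00082d0803)))) 
(.nd (nat_lit 9) 
(.lf (nat_lit 4429611049) (dlOf (nat_lit 3) (nat_lit 0x1a00a8001001401bf808002400a00dfb02000c00281c0a01))) 
(.lf (nat_lit 134644265) (dlOf (nat_lit 2) (nat_lit 0x50043002e020803380c0000000c000400400020018090e02))))) 
(.nd (nat_lit 6) (.nd (nat_lit 21) 
(.lf (nat_lit 33980457) (dlOf (nat_lit 1) (nat_lit 0x70008005000200100008f90203))) 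
(.lf (nat_lit 48660521) (dlOf (nat_lit 1) (nat_lit 0x400400020019420202)))) 
(.lf (nat_lit 49709161) (dlOf (nat_lit 3) (nat_lit 0xaa7b0001a01000d53d8000c8080018008000c002000a0009480a03))))) 
(.nd (nat_lit 6) (.nd (nat_lit 9) (.nd (nat_lit 20) 
(.lf (nat_lit 3288760361) (dlOf (nat_lit 1) (nat_lit 0x200180e0581))) 
(.lf (nat_lit 471236649) (dlOf (nat_lit 2) (nat_lit 0x10d40000cc0800e80080028002000400082d0803)))) 
(.lf (nat_lit 201753129) (dlOf (nat_lit 2) (nat_lit 0x50043002e020803380c0000000c000400400020018090e02)))) 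
(.nd (nat_lit 7) (.lf (nat_lit 4096165481) (dlOf (nat_lit 1) (nat_lit 0xc004000200080e3902))) 
(.nd (nat_lit 10) 
(.lf (nat_lit 2751891689) (dlOf (nat_lit 2) (nat_lit 0x380f2000190200020028004b01))) 
(.lf (nat_lit 6375769321) (dlOf (nat_lit 1) (nat_lit 0x3800400120008002e82))))))) (.nd (nat_lit 6) 
(.nd (nat_lit 7) (.nd (nat_lit 9) (.nd (nat_lit 10) 
(.lf (nat_lit 21397801) (dlOf (nat_lit 1) (nat_lit 0x2460008a34601))) 
(.lf (nat_lit 3490090281) (dlOf (nat_lit 1) (nat_lit 0x28000800f0002001e0008006803)))) 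
(.lf (nat_lit 20351785) (dlOf (nat_lit 1) (nat_lit 0x60008002c002000a00089d5c03)))) 
(.nd (nat_lit 27) 
(.lf (nat_lit 1678148009) (dlOf (nat_lit 5) (nat_lit 0x480158018c02600e3104005c05600280098038c0100498158018c02600e2f04012005600630098038b81000980080030002003400081a0783))) 
(.lf (nat_lit 3959849385) (dlOf (nat_lit 7) (nat_lit 0xac08c00ea5020118046007520100810230038c408040811801c6004020408c00e2f020110046001e0228038b81000600080040002002e0008170783))))) 
(.nd (nat_lit 22) (.nd (nat_lit 7) (.nd (nat_lit 26) 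
(.lf (nat_lit 3624305001) (dlOf (nat_lit 1) (nat_lit 0xa0018155201))) 
(.lf (nat_lit 2886107497) (dlOf (nat_lit 1) (nat_lit 0x100018155201)))) 
(.lf (nat_lit 3624305129) (dlOf (nat_lit 3) (nat_lit 0x1680000002e0200da00000016818157300)))) 
(.nd (nat_lit 7) (.nd (nat_lit 10) 
(.lf (nat_lit 21397865) (dlOf (nat_lit 1) (nat_lit 0x50008002c00200140008a35203))) 
(.lf (nat_lit 40273257) (dlOf (nat_lit 1) (nat_lit 0x6400191f3481)))) 
(.lf (nat_lit 38177257) (dlOf (nat_lit 1) (nat_lit 0x20029134e81)))))))) (.nd (nat_lit 7) 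
(.nd (nat_lit 21) (.nd (nat_lit 24) (.nd (nat_lit 10) (.nd (nat_lit 20) 
(.lf (nat_lit 9306153) (dlOf (nat_lit 1) (nat_lit 0x1400400060008540a02))) (.nd (nat_lit 22) 
(.lf (nat_lit 3491627049) (dlOf (nat_lit 1) (nat_lit 0x400200020008090002))) 
(.lf (nat_lit 14549033) (dlOf (nat_lit 1) (nat_lit 0x8008000400200020008760903))))) 
(.nd (nat_lit 8) (.lf (nat_lit 4095608361) (dlOf (nat_lit 1) (nat_lit 0x4004000200080e3702))) 
(.lf (nat_lit 4095608105) (dlOf (nat_lit 1) (nat_lit 0x4004000200080e3182))))) (.nd (nat_lit 20) 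
(.nd (nat_lit 23) 
(.lf (nat_lit 17694761) (dlOf (nat_lit 1) (nat_lit 0x7180080040002001200088f0d83))) 
(.lf (nat_lit 59637801) (dlOf (nat_lit 1) (nat_lit 0x12400200300009820202)))) (.nd (nat_lit 15) 
(.lf (nat_lit 22937641) (dlOf (nat_lit 3) (nat_lit 0xb8000000ac04005c274000130200040028b40681))) 
(.lf (nat_lit 22970409) (dlOf (nat_lit 2) (nat_lit 0x10000000560200240028b40681)))))) 
(.nd (nat_lit 9) (.nd (nat_lit 10) (.nd (nat_lit 15) 
(.lf (nat_lit 25034793) (dlOf (nat_lit 1) (nat_lit 0x400200040008be0c02))) 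
(.lf (nat_lit 11436073) (dlOf (nat_lit 1) (nat_lit 0xe00080008002000a00086a0803)))) 
(.nd (nat_lit 8) (.lf (nat_lit 3492676649) (dlOf (nat_lit 1) (nat_lit 0x400180f2881))) 
(.lf (nat_lit 19795241) (dlOf (nat_lit 1) (nat_lit 0x80080004002000200089d6803))))) 
(.nd (nat_lit 6) (.nd (nat_lit 12) 
(.lf (nat_lit 19792425) (dlOf (nat_lit 1) (nat_lit 0x4004000200089d1482))) 
(.lf (nat_lit 19796521) (dlOf (nat_lit 1) (nat_lit 0x5c0008034c00200d000089d8983)))) 
(.nd (nat_lit 8) (.lf (nat_lit 19796585) (dlOf (nat_lit 1) (nat_lit 0x10008000c002000400089d8983))) 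
(.lf (nat_lit 19794793) (dlOf (nat_lit 1) (nat_lit 0x80080020002000600089d5c03))))))) 
(.nd (nat_lit 9) (.nd (nat_lit 11) (.nd (nat_lit 6) (.nd (nat_lit 8) 
(.lf (nat_lit 5772312745) (dlOf (nat_lit 1) (nat_lit 0x20018090601))) 
(.lf (nat_lit 8258985) (dlOf (nat_lit 1) (nat_lit 0x400200020008513602)))) (.nd (nat_lit 27) 
(.lf (nat_lit 3490611689) (dlOf (nat_lit 5) (nat_lit 0x4ea230002d1170000b81013b08c0009445c0002d040314230000138100970f3000088080178008029000200080008017303))) 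
(.lf (nat_lit 5772313065) (dlOf (nat_lit 1) (nat_lit 0x3b400400b20008091302))))) (.nd (nat_lit 6) 
(.nd (nat_lit 8) (.lf (nat_lit 19795113) (dlOf (nat_lit 1) (nat_lit 0x200189d6281))) 
(.nd (nat_lit 12) (.lf (nat_lit 2754480553) (dlOf (nat_lit 1) (nat_lit 0x200080f4e81))) 
(.lf (nat_lit 19798441) (dlOf (nat_lit 1) (nat_lit 0x180080088002001a00089daf83))))) 
(.lf (nat_lit 19794409) (dlOf (nat_lit 1) (nat_lit 0x80080004002000200089d4e83))))) 
(.nd (nat_lit 6) (.nd (nat_lit 10) (.nd (nat_lit 15) 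
(.lf (nat_lit 19796649) (dlOf (nat_lit 1) (nat_lit 0x80080004002000200089d8c83))) 
(.lf (nat_lit 19829417) (dlOf (nat_lit 1) (nat_lit 0x80080004002000200089d8c83)))) 
(.nd (nat_lit 11) (.lf (nat_lit 19797673) (dlOf (nat_lit 1) (nat_lit 0x4002000200089da002))) 
(.lf (nat_lit 2754481833) (dlOf (nat_lit 1) (nat_lit 0xc002000200080f7202))))) (.nd (nat_lit 10) 
(.lf (nat_lit 1345194729) (dlOf (nat_lit 1) (nat_lit 0x8008001400200060008b05983))) 
(.nd (nat_lit 24) 
(.lf (nat_lit 2754481897) (dlOf (nat_lit 1) (nat_lit 0x300080008002000600080f7403))) 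
(.lf (nat_lit 19795689) (dlOf (nat_lit 1) (nat_lit 0x200289d7401))))))))))) (.nd (nat_lit 5) 
(.nd (nat_lit 6) (.nd (nat_lit 18) (.nd (nat_lit 28) (.nd (nat_lit 19) (.nd (nat_lit 15) 
(.nd (nat_lit 30) (.nd (nat_lit 20) (.nd (nat_lit 21) (.nd (nat_lit 7) 
(.lf (nat_lit 2751596825) (dlOf (nat_lit 1) (nat_lit 0x400400020008004b82))) 
(.lf (nat_lit 2348941465) (dlOf (nat_lit 1) (nat_lit 0x400400020018044182)))) (.nd (nat_lit 23) 
(.lf (nat_lit 52559897) (dlOf (nat_lit 1) (nat_lit 0x280080028002000e0009550103))) 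
(.lf (nat_lit 10616857) (dlOf (nat_lit 2) (nat_lit 0x260e60001180800a0008003000200220008600183))))) 
(.nd (nat_lit 21) (.lf (nat_lit 5373977) (dlOf (nat_lit 1) (nat_lit 0x624002001e0008360482))) 
(.nd (nat_lit 22) (.lf (nat_lit 28442649) (dlOf (nat_lit 1) (nat_lit 0x400200020008d90482))) 
(.lf (nat_lit 15859737) (dlOf (nat_lit 1) (nat_lit 0x3c00200060008840502)))))) (.nd (nat_lit 8) 
(.nd (nat_lit 9) (.nd (nat_lit 27) 
(.lf (nat_lit 5368840217) (dlOf (nat_lit 1) (nat_lit 0x1060008040001))) 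
(.lf (nat_lit 5503057945) (dlOf (nat_lit 1) (nat_lit 0x1060008040001)))) 
(.lf (nat_lit 3892445721) (dlOf (nat_lit 4) (nat_lit 0x481a000200cc000a000000578300010340002b40800501a0001c000000a30400080028118701)))) 
(.nd (nat_lit 7) (.lf (nat_lit 1208090905) (dlOf (nat_lit 1) (nat_lit 0x1580008090a81))) 
(.nd (nat_lit 10) 
(.lf (nat_lit 3221363609) (dlOf (nat_lit 1) (nat_lit 0x6a000801080020056000811bc83))) 
(.lf (nat_lit 1677854617) (dlOf (nat_lit 1) (nat_lit 0x60028114281))))))) (.nd (nat_lit 9) 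
(.nd (nat_lit 31) (.nd (nat_lit 21) (.nd (nat_lit 22) 
(.lf (nat_lit 5368872985) (dlOf (nat_lit 4) (nat_lit 0x900a80020050005c0260010011000c00800058038002800a00d520e0004015001b00980048044003401c001a005006a885000200980353c080018008001000200120008060a03))) 
(.lf (nat_lit 21135385) (dlOf (nat_lit 1) (nat_lit 0x60008a10481)))) 
(.lf (nat_lit 10649625) (dlOf (nat_lit 1) (nat_lit 0x40018600181)))) (.nd (nat_lit 8) 
(.lf (nat_lit 2684518425) (dlOf (nat_lit 1) (nat_lit 0x280018080481))) 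
(.lf (nat_lit 2214761753) (dlOf (nat_lit 1) (nat_lit 0xc00080a9701))))) (.nd (nat_lit 8) 
(.nd (nat_lit 11) (.lf (nat_lit 2818736665) (dlOf (nat_lit 1) (nat_lit 0x4004000e00080e8702))) 
(.lf (nat_lit 170521) (dlOf (nat_lit 1) (nat_lit 0x18004000c000800b282)))) 
(.lf (nat_lit 165657) (dlOf (nat_lit 2) (nat_lit 0x2ac3c00070040004004000c0018003c82)))))) 
(.nd (nat_lit 21) (.nd (nat_lit 29) (.nd (nat_lit 20) (.nd (nat_lit 15) 
(.lf (nat_lit 4362731545) (dlOf (nat_lit 1) (nat_lit 0x600080e0a81))) 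
(.lf (nat_lit 4362764313) (dlOf (nat_lit 2) (nat_lit 0x380660000002000200180f0a81)))) 
(.nd (nat_lit 22) (.lf (nat_lit 10092569) (dlOf (nat_lit 1) (nat_lit 0x80080004002000400085b0483))) 
(.lf (nat_lit 5898265) (dlOf (nat_lit 2) (nat_lit 0xa19e400c7e040004002001a0008400682))))) 
(.nd (nat_lit 27) (.nd (nat_lit 26) 
(.lf (nat_lit 537526297) (dlOf (nat_lit 3) (nat_lit 0xc06201e1c02000603100ee38180a0900))) 
(.lf (nat_lit 1678376985) (dlOf (nat_lit 2) (nat_lit 0x24009803f00280000008001000400300008200a82)))) 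
(.nd (nat_lit 15) (.nd (nat_lit 30) 
(.lf (nat_lit 2819227673) (dlOf (nat_lit 1) (nat_lit 0x200081f0501))) 
(.lf (nat_lit 3892969497) (dlOf (nat_lit 1) (nat_lit 0x80080014002000600082c0583)))) 
(.lf (nat_lit 3893002265) (dlOf (nat_lit 4) (nat_lit 0x80580031b02000202c0016a810002016000000080240008053c002005600082c0583)))))) 
(.nd (nat_lit 20) (.nd (nat_lit 22) 
(.lf (nat_lit 11141145) (dlOf (nat_lit 1) (nat_lit 0x500080010002000a0008660483))) 
(.nd (nat_lit 23) 
(.lf (nat_lit 6946841) (dlOf (nat_lit 2) (nat_lit 0xa3038017a8040004002001a0008490682))) 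
(.lf (nat_lit 48889881) (dlOf (nat_lit 1) (nat_lit 0x20029440101))))) (.nd (nat_lit 7) 
(.nd (nat_lit 15) (.lf (nat_lit 45744153) (dlOf (nat_lit 1) (nat_lit 0x40029360101))) 
(.lf (nat_lit 16416793) (dlOf (nat_lit 1) (nat_lit 0x200188a0481)))) 
(.lf (nat_lit 20584089) (dlOf (nat_lit 1) (nat_lit 0x400189d9f01))))))) (.nd (nat_lit 29) 
(.nd (nat_lit 26) (.nd (nat_lit 10) (.nd (nat_lit 30) (.nd (nat_lit 15) 
(.lf (nat_lit 4563533849) (dlOf (nat_lit 1) (nat_lit 0x3c0028090001))) 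
(.lf (nat_lit 268599321) (dlOf (nat_lit 2) (nat_lit 0x80260003202000600080a0401)))) 
(.nd (nat_lit 19) 
(.lf (nat_lit 1476526105) (dlOf (nat_lit 6) (nat_lit 0x300600010022000200f0007007005a54200080060003802e0022011000e00780068038003800e003800000b4a07000400c0003005c0018022000800f00030070003001c02d24180020030002a011000500780068038000c00e001200000b4886000a00b8003001c02d120800f000200020008020502))) 
(.lf (nat_lit 1342832665) (dlOf (nat_lit 1) (nat_lit 0x200280e0a01))))) (.nd (nat_lit 7) 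
(.nd (nat_lit 15) (.lf (nat_lit 5637276953) (dlOf (nat_lit 1) (nat_lit 0x4004000200080d3082))) 
(.lf (nat_lit 5772576025) (dlOf (nat_lit 1) (nat_lit 0x380018093081)))) 
(.lf (nat_lit 5637309593) (dlOf (nat_lit 1) (nat_lit 0x400280d2b81))))) (.nd (nat_lit 27) 
(.nd (nat_lit 7) (.nd (nat_lit 15) 
(.lf (nat_lit 1409941529) (dlOf (nat_lit 3) (nat_lit 0xc06201aac02000603100d2e8180a0900))) 
(.lf (nat_lit 4630675481) (dlOf (nat_lit 3) (nat_lit 0x40020000c008001800c0005a04001400400080008050402)))) 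
(.lf (nat_lit 5704417689) (dlOf (nat_lit 3) (nat_lit 0xa00c803044080058060014f604001000400040008076482)))) 
(.nd (nat_lit 8) (.nd (nat_lit 19) 
(.lf (nat_lit 3691118617) (dlOf (nat_lit 5) (nat_lit 0x7017000300a8001c04400140190003004805a542800480b80040058001002a000e011000680640034012016940c001402e000c016000400a80024044000e0190003004805a483000700b8002c0540022022000f00c805a4420004800800ac00200040008020503))) 
(.lf (nat_lit 470417433) (dlOf (nat_lit 1) (nat_lit 0x200280e0a01)))) 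
(.lf (nat_lit 2617382169) (dlOf (nat_lit 2) (nat_lit 0x980b400000040004004000200080a9702)))))) 
(.nd (nat_lit 9) (.nd (nat_lit 15) (.nd (nat_lit 8) (.nd (nat_lit 26) 
(.lf (nat_lit 805961753) (dlOf (nat_lit 2) (nat_lit 0x24009803f00280000008001000400300008200a82))) 
(.lf (nat_lit 4228513817) (dlOf (nat_lit 1) (nat_lit 0x600080e0a81)))) 
(.lf (nat_lit 1007288601) (dlOf (nat_lit 1) (nat_lit 0x8008004c002001000082e0703)))) 
(.nd (nat_lit 27) (.nd (nat_lit 7) 
(.lf (nat_lit 5167546393) (dlOf (nat_lit 3) (nat_lit 0xc028000900d0000806001a800c0018050001201a000100c0034fc1800700080054002001200080a0a03))) 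
(.lf (nat_lit 6241290649) (dlOf (nat_lit 1) (nat_lit 0x4004000200080d4e82)))) (.nd (nat_lit 19) 
(.lf (nat_lit 4160913433) (dlOf (nat_lit 1) (nat_lit 0xa0008070481))) 
(.lf (nat_lit 4228546585) (dlOf (nat_lit 2) (nat_lit 0x380640000002000200180f0a81)))))) 
(.nd (nat_lit 11) (.nd (nat_lit 7) (.nd (nat_lit 27) 
(.lf (nat_lit 3020030489) (dlOf (nat_lit 2) (nat_lit 0x40038002d4040004004000200180e8702))) 
(.lf (nat_lit 3154248217) (dlOf (nat_lit 1) (nat_lit 0x400200020008137e82)))) 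
(.lf (nat_lit 3020067481) (dlOf (nat_lit 1) (nat_lit 0x228008011400200940008128c83)))) 
(.nd (nat_lit 7) (.nd (nat_lit 21) 
(.lf (nat_lit 4093774361) (dlOf (nat_lit 1) (nat_lit 0x20028005081))) 
(.lf (nat_lit 6377572889) (dlOf (nat_lit 1) (nat_lit 0x200280e5081)))) 
(.lf (nat_lit 805444505) (dlOf (nat_lit 3) (nat_lit 0x280b400a8c04002402e00545020054002811bc81)))))))) 
(.nd (nat_lit 21) (.nd (nat_lit 28) (.nd (nat_lit 15) (.nd (nat_lit 26) (.nd (nat_lit 19) 
(.nd (nat_lit 27) 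
(.lf (nat_lit 3221618713) (dlOf (nat_lit 2) (nat_lit 0x900f000080180274208000c00400040008160502))) 
(.lf (nat_lit 3355836441) (dlOf (nat_lit 2) (nat_lit 0xda030000b0170000001000780080098002009a0008120483)))) 
(.lf (nat_lit 2819489817) (dlOf (nat_lit 2) (nat_lit 0x101b000000080128008016c002001000082b0483)))) 
(.nd (nat_lit 7) (.nd (nat_lit 27) 
(.lf (nat_lit 1678114841) (dlOf (nat_lit 2) (nat_lit 0x2604e00270000054b010000800800a8002000a0008190503))) 
(.lf (nat_lit 3959816217) (dlOf (nat_lit 2) (nat_lit 0x900f000080180270808000c00400040008160502)))) 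
(.lf (nat_lit 4362469785) (dlOf (nat_lit 1) (nat_lit 0x28008002c00200180008090783))))) 
(.nd (nat_lit 8) (.nd (nat_lit 7) (.nd (nat_lit 19) 
(.lf (nat_lit 18251801) (dlOf (nat_lit 1) (nat_lit 0x40028920581))) 
(.lf (nat_lit 27164697) (dlOf (nat_lit 1) (nat_lit 0x20018cb0481)))) 
(.lf (nat_lit 21397657) (dlOf (nat_lit 1) (nat_lit 0x60018a31201)))) (.nd (nat_lit 22) 
(.nd (nat_lit 26) 
(.lf (nat_lit 3221651865) (dlOf (nat_lit 3) (nat_lit 0x9808a0080b02000804500404818170780))) 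
(.lf (nat_lit 1678147993) (dlOf (nat_lit 1) (nat_lit 0x40002000a00081a0782)))) 
(.lf (nat_lit 21397913) (dlOf (nat_lit 3) (nat_lit 0x8276001612a0004086803044180010434018200401ac00400ba0008a36482)))))) 
(.nd (nat_lit 15) (.nd (nat_lit 27) (.nd (nat_lit 19) (.nd (nat_lit 20) (.nd (nat_lit 22) 
(.lf (nat_lit 805699609) (dlOf (nat_lit 2) (nat_lit 0x2604e0027000005a7010000800800a8002000a0008190503))) 
(.lf (nat_lit 3494248473) (dlOf (nat_lit 1) (nat_lit 0xa00080064002006000081e0403)))) 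
(.lf (nat_lit 1343619097) (dlOf (nat_lit 1) (nat_lit 0xa00282c0681)))) (.nd (nat_lit 8) 
(.lf (nat_lit 3557687321) (dlOf (nat_lit 2) (nat_lit 0x101c000000080128008016c002001000082b0483))) 
(.lf (nat_lit 1879965977) (dlOf (nat_lit 1) (nat_lit 0x40018490481))))) (.nd (nat_lit 7) 
(.lf (nat_lit 4698013721) (dlOf (nat_lit 1) (nat_lit 0xc8004009a00080e0402))) (.nd (nat_lit 8) 
(.lf (nat_lit 1476788377) (dlOf (nat_lit 2) (nat_lit 0x60038006ac0800880080098002004200081a0483))) 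
(.lf (nat_lit 4228252057) (dlOf (nat_lit 1) (nat_lit 0x20008090781)))))) (.nd (nat_lit 20) 
(.nd (nat_lit 7) (.nd (nat_lit 30) 
(.lf (nat_lit 4563828761) (dlOf (nat_lit 1) (nat_lit 0xc00080214002008800080f0a03))) 
(.lf (nat_lit 5637570585) (dlOf (nat_lit 2) (nat_lit 0x1402600017018110400)))) 
(.lf (nat_lit 805732761) (dlOf (nat_lit 3) (nat_lit 0x2802b0003004c010160800a40ac003c013004048281a0780)))) 
(.nd (nat_lit 26) 
(.lf (nat_lit 1343651865) (dlOf (nat_lit 3) (nat_lit 0x2808e0000b81001004700005408038000801d4002001000082d0483))) 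
(.lf (nat_lit 471236633) (dlOf (nat_lit 1) (nat_lit 0x80004003600182d0482))))))) (.nd (nat_lit 20) 
(.nd (nat_lit 8) (.nd (nat_lit 19) (.nd (nat_lit 22) (.nd (nat_lit 26) 
(.lf (nat_lit 1881538585) (dlOf (nat_lit 1) (nat_lit 0x40008f40101))) 
(.lf (nat_lit 2753953817) (dlOf (nat_lit 1) (nat_lit 0x180080014002001000080a0903)))) 
(.nd (nat_lit 15) 
(.lf (nat_lit 15073305) (dlOf (nat_lit 12) (nat_lit 0x21b3eb80017c0800c9f5c000bc040118fae0005d021a227d700083d600261d7c05b8e66000590800087d70002a8100163eb8001500802a1f5c017cfac002c7d40002903001f3eb800144080029f5c0064fac0004b0400be7d700013cb0000c0100039f5c00004040050004008a00187b0482))) 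
(.lf (nat_lit 15106073) (dlOf (nat_lit 3) (nat_lit 0x40138000303160005404019e4e000d20c58001481000380080014002000800087b0483))))) 
(.nd (nat_lit 9) (.nd (nat_lit 15) 
(.lf (nat_lit 23986201) (dlOf (nat_lit 1) (nat_lit 0xc0008b80001))) 
(.lf (nat_lit 15630361) (dlOf (nat_lit 1) (nat_lit 0x80018810501)))) 
(.lf (nat_lit 2754481689) (dlOf (nat_lit 1) (nat_lit 0x200080f7101))))) (.nd (nat_lit 7) 
(.nd (nat_lit 9) 
(.lf (nat_lit 19798297) (dlOf (nat_lit 2) (nat_lit 0x4b9a0003302800050080004004000400089dab02))) 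
(.lf (nat_lit 3492677401) (dlOf (nat_lit 1) (nat_lit 0x400280f3c81)))) (.nd (nat_lit 9) 
(.lf (nat_lit 2754480537) (dlOf (nat_lit 1) (nat_lit 0x200080f4e81))) (.nd (nat_lit 10) 
(.lf (nat_lit 19798937) (dlOf (nat_lit 1) (nat_lit 0x4002000200089dbc82))) 
(.lf (nat_lit 19795865) (dlOf (nat_lit 1) (nat_lit 0x280080008002000600089d7803))))))) 
(.nd (nat_lit 7) (.nd (nat_lit 8) (.nd (nat_lit 22) 
(.lf (nat_lit 37126169) (dlOf (nat_lit 1) (nat_lit 0xec00090a0601))) 
(.lf (nat_lit 24543257) (dlOf (nat_lit 1) (nat_lit 0x4002002a0008ba0a02)))) (.nd (nat_lit 9) 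
(.lf (nat_lit 20322585) (dlOf (nat_lit 1) (nat_lit 0xc00089dab01))) 
(.lf (nat_lit 46009113) (dlOf (nat_lit 1) (nat_lit 0x20029385b81))))) (.nd (nat_lit 9) 
(.nd (nat_lit 10) 
(.lf (nat_lit 12484761) (dlOf (nat_lit 2) (nat_lit 0x144f8002a0c00008c080004004000800086c0182))) 
(.lf (nat_lit 8258713) (dlOf (nat_lit 1) (nat_lit 0xa0018512b81)))) (.nd (nat_lit 15) 
(.lf (nat_lit 8262297) (dlOf (nat_lit 1) (nat_lit 0x400200020008518c82))) 
(.lf (nat_lit 8295065) (dlOf (nat_lit 1) (nat_lit 0x400200020008518c82))))))))) (.nd (nat_lit 15) 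
(.nd (nat_lit 30) (.nd (nat_lit 7) (.nd (nat_lit 10) (.nd (nat_lit 22) (.nd (nat_lit 19) 
(.nd (nat_lit 20) 
(.lf (nat_lit 738590809) (dlOf (nat_lit 4) (nat_lit 0x300a40002604015c0aa0084037004201080001c18001014c00000040030004003200080b0702))) 
(.lf (nat_lit 9830489) (dlOf (nat_lit 2) (nat_lit 0x2d97e0009422000158100160008002c002007e0008580683)))) 
(.nd (nat_lit 8) 
(.lf (nat_lit 537526361) (dlOf (nat_lit 3) (nat_lit 0xf028800054080040144003407e000e03200040038000482000180080014002000200080a1183))) 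
(.lf (nat_lit 19796825) (dlOf (nat_lit 1) (nat_lit 0x200289d8f81))))) (.nd (nat_lit 8) 
(.nd (nat_lit 9) 
(.lf (nat_lit 54919257) (dlOf (nat_lit 2) (nat_lit 0x44e78000000800e800800c8002000a0009670703))) 
(.lf (nat_lit 31853145) (dlOf (nat_lit 2) (nat_lit 0x24130c0004a040008004000a0008e95302)))) 
(.lf (nat_lit 29753689) (dlOf (nat_lit 2) (nat_lit 0x68ba0021302000e0008e30881))))) 
(.nd (nat_lit 8) (.nd (nat_lit 18) 
(.lf (nat_lit 44696665) (dlOf (nat_lit 1) (nat_lit 0x400200040009322902))) (.nd (nat_lit 22) 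
(.lf (nat_lit 872809561) (dlOf (nat_lit 1) (nat_lit 0x3400180e2901))) 
(.lf (nat_lit 38143065) (dlOf (nat_lit 1) (nat_lit 0x3bc00201960009132902))))) (.nd (nat_lit 12) 
(.lf (nat_lit 6576803161) (dlOf (nat_lit 1) (nat_lit 0x40028146a81))) 
(.lf (nat_lit 805444953) (dlOf (nat_lit 1) (nat_lit 0x98008001c002005c000811c903)))))) 
(.nd (nat_lit 21) (.nd (nat_lit 18) (.nd (nat_lit 26) (.nd (nat_lit 31) 
(.lf (nat_lit 268566745) (dlOf (nat_lit 1) (nat_lit 0x800400020008081902))) 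
(.lf (nat_lit 6711017689) (dlOf (nat_lit 1) (nat_lit 0x100028031c01)))) (.nd (nat_lit 27) 
(.lf (nat_lit 5167513817) (dlOf (nat_lit 1) (nat_lit 0x588008034800201a80008071c03))) 
(.lf (nat_lit 738328793) (dlOf (nat_lit 2) (nat_lit 0x602000016018090980))))) (.nd (nat_lit 22) 
(.nd (nat_lit 27) (.lf (nat_lit 2483421401) (dlOf (nat_lit 1) (nat_lit 0x4002000200081b0482))) 
(.lf (nat_lit 2349203673) (dlOf (nat_lit 1) (nat_lit 0x4002000200081b0482)))) 
(.lf (nat_lit 21364953) (dlOf (nat_lit 1) (nat_lit 0x58008001400200100008a31c03))))) 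
(.nd (nat_lit 12) (.nd (nat_lit 9) (.nd (nat_lit 11) 
(.lf (nat_lit 20840665) (dlOf (nat_lit 1) (nat_lit 0x80080010002000200089e3f03))) 
(.lf (nat_lit 8259801) (dlOf (nat_lit 1) (nat_lit 0x400400020008514a82)))) 
(.lf (nat_lit 472779481) (dlOf (nat_lit 2) (nat_lit 0x770b2800040080008008002400200060008b05903)))) 
(.nd (nat_lit 11) (.lf (nat_lit 8262361) (dlOf (nat_lit 1) (nat_lit 0x400200020008518c82))) 
(.nd (nat_lit 19) (.lf (nat_lit 20323033) (dlOf (nat_lit 1) (nat_lit 0x200189db981))) 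
(.lf (nat_lit 19798745) (dlOf (nat_lit 1) (nat_lit 0x280080004002000600089db983)))))))) 
(.nd (nat_lit 26) (.nd (nat_lit 18) (.nd (nat_lit 7) (.nd (nat_lit 8) (.nd (nat_lit 19) 
(.lf (nat_lit 2013397081) (dlOf (nat_lit 1) (nat_lit 0x100028040681))) 
(.lf (nat_lit 1343881305) (dlOf (nat_lit 1) (nat_lit 0xce0008370381)))) 
(.lf (nat_lit 3221364057) (dlOf (nat_lit 2) (nat_lit 0x5011800cfa04009c004006a000811c902)))) 
(.nd (nat_lit 28) (.lf (nat_lit 1610745305) (dlOf (nat_lit 1) (nat_lit 0xc002000a0008093602))) 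
(.lf (nat_lit 5637277145) (dlOf (nat_lit 1) (nat_lit 0x8008001c002001400080d3603))))) 
(.nd (nat_lit 28) (.nd (nat_lit 7) (.nd (nat_lit 29) 
(.lf (nat_lit 1074135129) (dlOf (nat_lit 1) (nat_lit 0x80080004002000200080c1a83))) 
(.lf (nat_lit 1611006041) (dlOf (nat_lit 4) (nat_lit 0x300a40002604015c0aa0084037004201080001c18001014c00000040030004003200080b0702)))) 
(.lf (nat_lit 1208352985) (dlOf (nat_lit 1) (nat_lit 0x4c004004200080c1c02)))) (.nd (nat_lit 9) 
(.nd (nat_lit 21) (.lf (nat_lit 5637537881) (dlOf (nat_lit 2) (nat_lit 0x401300016818100680))) 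
(.lf (nat_lit 1881538649) (dlOf (nat_lit 1) (nat_lit 0x18004001c0008f40802)))) (.nd (nat_lit 7) 
(.lf (nat_lit 1344149337) (dlOf (nat_lit 1) (nat_lit 0x400183da281))) 
(.lf (nat_lit 1345194713) (dlOf (nat_lit 7) (nat_lit 0x600b28000b80805605940002004012c2ca0000f020096165000070100030b28000340800185940000604000800400620018b05902))))))) 
(.nd (nat_lit 19) (.nd (nat_lit 7) (.nd (nat_lit 18) (.nd (nat_lit 31) 
(.lf (nat_lit 1140981849) (dlOf (nat_lit 1) (nat_lit 0x100028040681))) 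
(.lf (nat_lit 3288465497) (dlOf (nat_lit 1) (nat_lit 0x10008000800200040008020983)))) 
(.lf (nat_lit 6241517657) (dlOf (nat_lit 2) (nat_lit 0x401200016818100680)))) (.nd (nat_lit 8) 
(.lf (nat_lit 6107037913) (dlOf (nat_lit 1) (nat_lit 0x400400020008031902))) (.nd (nat_lit 27) 
(.lf (nat_lit 1677859289) (dlOf (nat_lit 1) (nat_lit 0xc800800540020022000811b283))) 
(.lf (nat_lit 3959560665) (dlOf (nat_lit 1) (nat_lit 0x400020014000811b282)))))) (.nd (nat_lit 31) 
(.nd (nat_lit 7) (.nd (nat_lit 28) 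
(.lf (nat_lit 1678377049) (dlOf (nat_lit 2) (nat_lit 0x2180ac000401300003828201a80))) 
(.lf (nat_lit 1409941593) (dlOf (nat_lit 3) (nat_lit 0xf0288000a0080040144003407e000e03200040038000942000180080014002000200080a1183)))) 
(.lf (nat_lit 6377308377) (dlOf (nat_lit 1) (nat_lit 0x4002000200080c1c02)))) (.nd (nat_lit 7) 
(.nd (nat_lit 21) 
(.lf (nat_lit 3960078425) (dlOf (nat_lit 2) (nat_lit 0x5017800480000000e080004004002000181a1a82))) 
(.lf (nat_lit 4096393305) (dlOf (nat_lit 2) (nat_lit 0x200000001c080020008001000200180008100703)))) 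
(.lf (nat_lit 4095608281) (dlOf (nat_lit 1) (nat_lit 0x4004000200080e3602)))))))) (.nd (nat_lit 7) 
(.nd (nat_lit 26) (.nd (nat_lit 20) (.nd (nat_lit 22) (.nd (nat_lit 27) (.nd (nat_lit 21) 
(.lf (nat_lit 2952953945) (dlOf (nat_lit 4) (nat_lit 0x100700006a04013405c03560180001482008c00c00009c0800c0008001400200080008030803))) 
(.lf (nat_lit 52592729) (dlOf (nat_lit 3) (nat_lit 0x894d000028020060c1000012819550800)))) 
(.nd (nat_lit 18) 
(.lf (nat_lit 1476558937) (dlOf (nat_lit 4) (nat_lit 0x7a001e073200e019a003807680180654000000290a025e00f02f4007006a801c02fc00c01600000001385003a00000006c080a9000804c4002072a0008050803))) 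
(.lf (nat_lit 2818998361) (dlOf (nat_lit 2) (nat_lit 0x4980d80005204007c002004a0008150802))))) 
(.nd (nat_lit 24) (.nd (nat_lit 9) 
(.lf (nat_lit 47087705) (dlOf (nat_lit 2) (nat_lit 0x5e4c3000128193a0700))) 
(.lf (nat_lit 38177369) (dlOf (nat_lit 1) (nat_lit 0x20029135301)))) (.nd (nat_lit 8) 
(.lf (nat_lit 54952025) (dlOf (nat_lit 2) (nat_lit 0x1100000000e040014004000a0009670702))) 
(.lf (nat_lit 21397849) (dlOf (nat_lit 1) (nat_lit 0x6000800dc002002e0008a34d83)))))) 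
(.nd (nat_lit 18) (.nd (nat_lit 9) (.nd (nat_lit 19) 
(.lf (nat_lit 62029913) (dlOf (nat_lit 1) (nat_lit 0x70008002000200100009931883))) 
(.lf (nat_lit 45776985) (dlOf (nat_lit 1) (nat_lit 0x80019360801)))) (.nd (nat_lit 19) 
(.lf (nat_lit 32672345) (dlOf (nat_lit 2) (nat_lit 0x4ea4300012818ef5300))) 
(.lf (nat_lit 33196633) (dlOf (nat_lit 1) (nat_lit 0x40008f55301))))) (.nd (nat_lit 23) 
(.nd (nat_lit 9) (.lf (nat_lit 3491659865) (dlOf (nat_lit 2) (nat_lit 0x220700659018090000))) 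
(.lf (nat_lit 51808857) (dlOf (nat_lit 1) (nat_lit 0x20019515301)))) (.nd (nat_lit 24) 
(.lf (nat_lit 9863257) (dlOf (nat_lit 2) (nat_lit 0x454ac0005602000c0028580681))) 
(.lf (nat_lit 26640473) (dlOf (nat_lit 1) (nat_lit 0x8008000400200020008c50803))))))) 
(.nd (nat_lit 8) (.nd (nat_lit 9) (.nd (nat_lit 27) 
(.lf (nat_lit 604143705) (dlOf (nat_lit 2) (nat_lit 0x220030000290200020028030801))) 
(.lf (nat_lit 3691151449) (dlOf (nat_lit 6) (nat_lit 0x200e8000d408000809007fc0440410019016500a0005803c094c0120008008023c0000000a44002180880034032000280402ba022016700c80d60024067c00000027080074022001e00c8000641001d0008007c002001c0008050803)))) 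
(.nd (nat_lit 10) 
(.lf (nat_lit 1007848025) (dlOf (nat_lit 2) (nat_lit 0x600ac0004a04003000400060008805302))) 
(.nd (nat_lit 27) (.lf (nat_lit 2214762073) (dlOf (nat_lit 1) (nat_lit 0x4004000200080a9c02))) 
(.lf (nat_lit 2617415257) (dlOf (nat_lit 1) (nat_lit 0x180080004002000200080a9c03)))))) 
(.nd (nat_lit 29) (.nd (nat_lit 27) 
(.lf (nat_lit 4362240345) (dlOf (nat_lit 10) (nat_lit 0x280cc000d204002006600068020010033000220100080198000f40800080cc0004804003006600023020010033000108100080198000800800400cc0003e04002400400100008014e02))) 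
(.nd (nat_lit 30) (.lf (nat_lit 469926233) (dlOf (nat_lit 1) (nat_lit 0x60028014e01))) 
(.lf (nat_lit 5838635353) (dlOf (nat_lit 1) (nat_lit 0x120028104d81))))) (.nd (nat_lit 9) 
(.nd (nat_lit 11) 
(.lf (nat_lit 2752414041) (dlOf (nat_lit 4) (nat_lit 0x5787e8000c80400143f40006302010e1fa00022018014e00))) 
(.lf (nat_lit 2751629657) (dlOf (nat_lit 1) (nat_lit 0x10008000400200060008004e03)))) 
(.lf (nat_lit 2751629145) (dlOf (nat_lit 1) (nat_lit 0x20018003f81))))))) (.nd (nat_lit 8) 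
(.nd (nat_lit 11) (.nd (nat_lit 12) (.nd (nat_lit 20) (.nd (nat_lit 26) 
(.lf (nat_lit 6308397273) (dlOf (nat_lit 1) (nat_lit 0x20028071901))) 
(.lf (nat_lit 4496457945) (dlOf (nat_lit 1) (nat_lit 0x800400020008081902)))) 
(.lf (nat_lit 3309785) (dlOf (nat_lit 1) (nat_lit 0x20028200481)))) (.nd (nat_lit 9) 
(.lf (nat_lit 168153) (dlOf (nat_lit 1) (nat_lit 0x2e0018008081))) 
(.lf (nat_lit 8295129) (dlOf (nat_lit 1) (nat_lit 0x8008000400200020008518c83))))) (.nd (nat_lit 9) 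
(.nd (nat_lit 30) (.lf (nat_lit 2751629529) (dlOf (nat_lit 1) (nat_lit 0x20028004a81))) 
(.lf (nat_lit 1677887705) (dlOf (nat_lit 1) (nat_lit 0x20018114a81)))) (.nd (nat_lit 12) 
(.lf (nat_lit 166617) (dlOf (nat_lit 3) (nat_lit 0x418460020c05001060100082f5c00416a20020b11001055d00082ac800414e40020a6f001051b8000a85800283600005004001c00200060008005902))) 
(.lf (nat_lit 20093657) (dlOf (nat_lit 1) (nat_lit 0x8002000200089db982)))))) (.nd (nat_lit 21) 
(.nd (nat_lit 19) (.nd (nat_lit 26) 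
(.lf (nat_lit 3221651929) (dlOf (nat_lit 1) (nat_lit 0xc0018170b01))) 
(.lf (nat_lit 3959849433) (dlOf (nat_lit 1) (nat_lit 0xc0018170b01)))) 
(.lf (nat_lit 5772313049) (dlOf (nat_lit 1) (nat_lit 0x1000400020008091202)))) (.nd (nat_lit 9) 
(.lf (nat_lit 11698649) (dlOf (nat_lit 1) (nat_lit 0x4004000200186c0b02))) (.nd (nat_lit 11) 
(.lf (nat_lit 40272857) (dlOf (nat_lit 1) (nat_lit 0xe00291f2881))) 
(.lf (nat_lit 20089817) (dlOf (nat_lit 1) (nat_lit 0x200189d5e01)))))))))) (.nd (nat_lit 15) 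
(.nd (nat_lit 8) (.nd (nat_lit 18) (.nd (nat_lit 19) (.nd (nat_lit 7) (.nd (nat_lit 23) 
(.nd (nat_lit 9) (.nd (nat_lit 26) 
(.lf (nat_lit 3490840633) (dlOf (nat_lit 1) (nat_lit 0x40008020681))) 
(.lf (nat_lit 2752643129) (dlOf (nat_lit 1) (nat_lit 0x40008020681)))) 
(.lf (nat_lit 2617382457) (dlOf (nat_lit 1) (nat_lit 0xa00180a9c01)))) (.nd (nat_lit 22) 
(.nd (nat_lit 21) 
(.lf (nat_lit 25296953) (dlOf (nat_lit 2) (nat_lit 0x199160001c38000734100298008004000200740008bf0b83))) 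
(.lf (nat_lit 10616889) (dlOf (nat_lit 1) (nat_lit 0x400200020008600702)))) (.nd (nat_lit 24) 
(.lf (nat_lit 12714041) (dlOf (nat_lit 2) (nat_lit 0x118a000046040010004001400186d0b02))) 
(.lf (nat_lit 29491257) (dlOf (nat_lit 1) (nat_lit 0x180008e10901)))))) (.nd (nat_lit 6) 
(.nd (nat_lit 21) 
(.lf (nat_lit 474088633) (dlOf (nat_lit 11) (nat_lit 0x6e017000220100170b40004031800f002e00043060020168001800b8001041005085a003ac18c01760170001f0300230b4001d005c0007808007c4080052168002c0b30007858c000c28a004a1430018067800a032c00041880032073002e00b801880540006e3000802cc00036020050168001f0a28016833c00f802e000350800080170001a0100520b4002f0514002028600c6142004f0678029805c0000018004c00400060019082c82))) 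
(.lf (nat_lit 48366777) (dlOf (nat_lit 2) (nat_lit 0x98a9a000370200020019402c81)))) 
(.nd (nat_lit 10) (.nd (nat_lit 20) 
(.lf (nat_lit 1744961785) (dlOf (nat_lit 1) (nat_lit 0x8008000400200040008090a83))) 
(.lf (nat_lit 20054265) (dlOf (nat_lit 1) (nat_lit 0x4002000200089d0a82)))) 
(.lf (nat_lit 1610745081) (dlOf (nat_lit 2) (nat_lit 0xc0d0002800000014828092e80)))))) 
(.nd (nat_lit 28) (.nd (nat_lit 20) (.nd (nat_lit 6) (.nd (nat_lit 21) 
(.lf (nat_lit 3221880889) (dlOf (nat_lit 3) (nat_lit 0x688158000580400880ac0002902000c00281a1301))) 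
(.lf (nat_lit 6946873) (dlOf (nat_lit 2) (nat_lit 0x30b0380005c04001800400600008490902)))) 
(.lf (nat_lit 57281273) (dlOf (nat_lit 1) (nat_lit 0x800400020009795a02)))) (.nd (nat_lit 21) 
(.nd (nat_lit 22) (.lf (nat_lit 10092601) (dlOf (nat_lit 1) (nat_lit 0x8008000c002000200085b0683))) 
(.lf (nat_lit 5898297) (dlOf (nat_lit 2) (nat_lit 0x3099e40005c04001800400600008400902)))) 
(.lf (nat_lit 3801145) (dlOf (nat_lit 2) (nat_lit 0x8000000000040010002001e0008220b82))))) 
(.nd (nat_lit 26) (.nd (nat_lit 21) (.nd (nat_lit 27) 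
(.lf (nat_lit 805961785) (dlOf (nat_lit 1) (nat_lit 0x28008000400200560008201303))) 
(.lf (nat_lit 5772017721) (dlOf (nat_lit 1) (nat_lit 0xe0018040481)))) 
(.lf (nat_lit 3492413497) (dlOf (nat_lit 2) (nat_lit 0x206800030210000ec1000080080008002001800080c1303)))) 
(.nd (nat_lit 30) (.lf (nat_lit 3154772025) (dlOf (nat_lit 1) (nat_lit 0x800400020008321102))) 
(.lf (nat_lit 6375997497) (dlOf (nat_lit 1) (nat_lit 0xe0018040481))))))) (.nd (nat_lit 19) 
(.nd (nat_lit 26) (.nd (nat_lit 27) (.nd (nat_lit 29) 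
(.lf (nat_lit 4563796025) (dlOf (nat_lit 1) (nat_lit 0x1cc004004600080e1402))) (.nd (nat_lit 30) 
(.lf (nat_lit 5100666937) (dlOf (nat_lit 1) (nat_lit 0x2800200020008130c82))) 
(.lf (nat_lit 4026925113) (dlOf (nat_lit 3) (nat_lit 0x4b2020000e681000901d0005f40800100080008002000600080d0b83))))) 
(.nd (nat_lit 6) (.lf (nat_lit 4698013753) (dlOf (nat_lit 1) (nat_lit 0x1cc004004600080e1402))) 
(.lf (nat_lit 1476788345) (dlOf (nat_lit 2) (nat_lit 0x70038006300800580080040002001a00081a0483))))) 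
(.nd (nat_lit 29) (.nd (nat_lit 7) (.nd (nat_lit 20) 
(.lf (nat_lit 3288727609) (dlOf (nat_lit 3) (nat_lit 0x4b2020000e681000901d0006140800100080008002000600080d0b83))) 
(.lf (nat_lit 471203897) (dlOf (nat_lit 1) (nat_lit 0x4004003800082c0902)))) 
(.lf (nat_lit 473302201) (dlOf (nat_lit 1) (nat_lit 0x3000200020008e92c82)))) (.nd (nat_lit 6) 
(.nd (nat_lit 21) (.lf (nat_lit 4899340345) (dlOf (nat_lit 1) (nat_lit 0x20018130c81))) 
(.lf (nat_lit 2753953849) (dlOf (nat_lit 1) (nat_lit 0x2600080a0b01)))) 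
(.lf (nat_lit 604373113) (dlOf (nat_lit 1) (nat_lit 0x580080018002001200081a0483)))))) 
(.nd (nat_lit 12) (.nd (nat_lit 21) (.nd (nat_lit 23) 
(.lf (nat_lit 21889081) (dlOf (nat_lit 1) (nat_lit 0x40018a80d01))) 
(.lf (nat_lit 13500473) (dlOf (nat_lit 3) (nat_lit 0x10000007340800b0000002fa0400c400200020008730b82)))) 
(.nd (nat_lit 10) (.lf (nat_lit 25034809) (dlOf (nat_lit 1) (nat_lit 0x11000200500008be1302))) 
(.lf (nat_lit 472777785) (dlOf (nat_lit 3) (nat_lit 0xc616500a898100480b280525c080030008001000200140008b02883))))) 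
(.nd (nat_lit 7) (.nd (nat_lit 6) 
(.lf (nat_lit 19796537) (dlOf (nat_lit 1) (nat_lit 0x600289d8981))) 
(.lf (nat_lit 19796089) (dlOf (nat_lit 1) (nat_lit 0x200089d7d81)))) (.nd (nat_lit 11) 
(.lf (nat_lit 19796217) (dlOf (nat_lit 1) (nat_lit 0x2c00289d8081))) 
(.lf (nat_lit 19798265) (dlOf (nat_lit 2) (nat_lit 0x2a9f4000cc040004004000200089da982)))))))) 
(.nd (nat_lit 28) (.nd (nat_lit 6) (.nd (nat_lit 11) (.nd (nat_lit 7) (.nd (nat_lit 18) 
(.nd (nat_lit 27) (.lf (nat_lit 1073873209) (dlOf (nat_lit 1) (nat_lit 0x40018014c01))) 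
(.lf (nat_lit 1208090937) (dlOf (nat_lit 3) (nat_lit 0xc0280001a010005014000080080050008003800200100008090b83)))) 
(.lf (nat_lit 21365049) (dlOf (nat_lit 1) (nat_lit 0x20018a34c01)))) (.nd (nat_lit 9) 
(.lf (nat_lit 3758227897) (dlOf (nat_lit 1) (nat_lit 0x4000200120008106f02))) 
(.lf (nat_lit 537003961) (dlOf (nat_lit 1) (nat_lit 0x160018004381))))) (.nd (nat_lit 21) 
(.nd (nat_lit 10) (.nd (nat_lit 30) 
(.lf (nat_lit 2751596857) (dlOf (nat_lit 1) (nat_lit 0x18008000400200020008004c03))) 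
(.lf (nat_lit 1677855033) (dlOf (nat_lit 1) (nat_lit 0x58008000800200500008114c03)))) 
(.lf (nat_lit 3221359929) (dlOf (nat_lit 1) (nat_lit 0x80018116901)))) (.nd (nat_lit 7) 
(.nd (nat_lit 18) (.lf (nat_lit 20056889) (dlOf (nat_lit 1) (nat_lit 0x4002000200089d5c02))) 
(.lf (nat_lit 19794745) (dlOf (nat_lit 1) (nat_lit 0x80080004002000200089d5c03)))) 
(.lf (nat_lit 19798457) (dlOf (nat_lit 1) (nat_lit 0x80080028002000400089daf83)))))) 
(.nd (nat_lit 7) (.nd (nat_lit 9) (.nd (nat_lit 11) 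
(.lf (nat_lit 8258937) (dlOf (nat_lit 2) (nat_lit 0x1192400016018513500))) (.nd (nat_lit 18) 
(.lf (nat_lit 3221364089) (dlOf (nat_lit 1) (nat_lit 0x5c0020008000811c902))) 
(.lf (nat_lit 19799417) (dlOf (nat_lit 1) (nat_lit 0x18008001c002000a00089dc903))))) 
(.nd (nat_lit 11) (.lf (nat_lit 19796857) (dlOf (nat_lit 1) (nat_lit 0x4004000200089d8f82))) 
(.lf (nat_lit 19798905) (dlOf (nat_lit 1) (nat_lit 0x580080008002000a00089dbc83))))) 
(.nd (nat_lit 9) (.nd (nat_lit 10) (.nd (nat_lit 18) 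
(.lf (nat_lit 1073873401) (dlOf (nat_lit 1) (nat_lit 0x48008000c00200100008017e03))) 
(.lf (nat_lit 21365241) (dlOf (nat_lit 1) (nat_lit 0x8008008000200180008a37803)))) 
(.lf (nat_lit 61736441) (dlOf (nat_lit 1) (nat_lit 0x80080040002000a0009923683)))) 
(.nd (nat_lit 10) 
(.lf (nat_lit 61735929) (dlOf (nat_lit 1) (nat_lit 0x25800800e400200080009922883))) 
(.lf (nat_lit 5972822009) (dlOf (nat_lit 2) (nat_lit 0x3008800060080030008000c00200040008144683))))))) 
(.nd (nat_lit 7) (.nd (nat_lit 29) (.nd (nat_lit 6) (.nd (nat_lit 9) 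
(.lf (nat_lit 335675705) (dlOf (nat_lit 3) (nat_lit 0xd0000001140800980000008604010800400340018090b82))) 
(.lf (nat_lit 2617381689) (dlOf (nat_lit 3) (nat_lit 0x200b0009180400380580048b02000200280a8f81)))) 
(.nd (nat_lit 10) (.nd (nat_lit 11) 
(.lf (nat_lit 4630643065) (dlOf (nat_lit 1) (nat_lit 0x920008035881))) 
(.lf (nat_lit 1409419641) (dlOf (nat_lit 1) (nat_lit 0x20018004e81)))) 
(.lf (nat_lit 4697752953) (dlOf (nat_lit 1) (nat_lit 0x8008000c00200020008093503))))) 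
(.nd (nat_lit 11) (.nd (nat_lit 6) 
(.lf (nat_lit 1946288441) (dlOf (nat_lit 1) (nat_lit 0x40018014c01))) (.nd (nat_lit 10) 
(.lf (nat_lit 4228252025) (dlOf (nat_lit 1) (nat_lit 0xc0018090781))) 
(.lf (nat_lit 4095608185) (dlOf (nat_lit 2) (nat_lit 0xa81fe0002c02000600280e3501))))) 
(.nd (nat_lit 9) (.nd (nat_lit 10) 
(.lf (nat_lit 6241257849) (dlOf (nat_lit 1) (nat_lit 0x4004000200080d4e82))) 
(.lf (nat_lit 805444985) (dlOf (nat_lit 1) (nat_lit 0xb80080020002005e000811c903)))) 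
(.lf (nat_lit 805444473) (dlOf (nat_lit 1) (nat_lit 0x800801000020002000811bc83)))))) 
(.nd (nat_lit 26) (.nd (nat_lit 9) (.nd (nat_lit 6) 
(.lf (nat_lit 5637277113) (dlOf (nat_lit 1) (nat_lit 0x5c00280d3601))) (.nd (nat_lit 10) 
(.lf (nat_lit 3491365369) (dlOf (nat_lit 1) (nat_lit 0xb20018090d81))) 
(.lf (nat_lit 4697753081) (dlOf (nat_lit 1) (nat_lit 0x120028093681))))) (.nd (nat_lit 20) 
(.lf (nat_lit 5773853689) (dlOf (nat_lit 1) (nat_lit 0x4004000200080e2882))) 
(.lf (nat_lit 3493200889) (dlOf (nat_lit 1) (nat_lit 0x200180f2881))))) (.nd (nat_lit 9) 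
(.nd (nat_lit 6) (.lf (nat_lit 4094296505) (dlOf (nat_lit 1) (nat_lit 0x400400040008036f02))) 
(.nd (nat_lit 10) 
(.lf (nat_lit 1946288633) (dlOf (nat_lit 5) (nat_lit 0x180a40146804002c05200a2a020044029005148100050148028a00800e00080014002001c0008017803))) 
(.lf (nat_lit 4095870457) (dlOf (nat_lit 1) (nat_lit 0x800280e3681))))) (.nd (nat_lit 21) 
(.lf (nat_lit 4094034937) (dlOf (nat_lit 1) (nat_lit 0x280018002881))) 
(.lf (nat_lit 6377833465) (dlOf (nat_lit 1) (nat_lit 0x4004000200080e2882))))))))) (.nd (nat_lit 8) 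
(.nd (nat_lit 31) (.nd (nat_lit 18) (.nd (nat_lit 20) (.nd (nat_lit 32) (.nd (nat_lit 10) 
(.nd (nat_lit 9) (.lf (nat_lit 12746809) (dlOf (nat_lit 1) (nat_lit 0xe00286e0b81))) 
(.lf (nat_lit 58886713) (dlOf (nat_lit 1) (nat_lit 0x80080004002000200097e5203)))) (.nd (nat_lit 7) 
(.lf (nat_lit 34243641) (dlOf (nat_lit 1) (nat_lit 0x40018fb2881))) 
(.lf (nat_lit 35816633) (dlOf (nat_lit 1) (nat_lit 0x20019012c81))))) (.nd (nat_lit 26) 
(.nd (nat_lit 6) (.lf (nat_lit 4295131193) (dlOf (nat_lit 1) (nat_lit 0x20008090001))) 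
(.lf (nat_lit 6308397177) (dlOf (nat_lit 1) (nat_lit 0x20028070b81)))) (.nd (nat_lit 9) 
(.lf (nat_lit 4362764345) (dlOf (nat_lit 1) (nat_lit 0xc002000400080f1302))) 
(.lf (nat_lit 4362240569) (dlOf (nat_lit 5) (nat_lit 0x680000020b8100340000010200801a0000007fc0400d0000003fb0200440008018b01)))))) 
(.nd (nat_lit 7) (.nd (nat_lit 9) (.nd (nat_lit 19) 
(.lf (nat_lit 30572601) (dlOf (nat_lit 1) (nat_lit 0x180080004002000a0008e41103))) 
(.lf (nat_lit 1343914041) (dlOf (nat_lit 1) (nat_lit 0x400200020008381102)))) 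
(.lf (nat_lit 33196601) (dlOf (nat_lit 1) (nat_lit 0x600018f55201)))) (.nd (nat_lit 6) 
(.nd (nat_lit 21) (.lf (nat_lit 1880261817) (dlOf (nat_lit 1) (nat_lit 0x20028802c81))) 
(.lf (nat_lit 36865209) (dlOf (nat_lit 2) (nat_lit 0x1d261800050080018008000c00200060009072c83)))) 
(.lf (nat_lit 20092153) (dlOf (nat_lit 1) (nat_lit 0x4004000200089d9502)))))) (.nd (nat_lit 19) 
(.nd (nat_lit 9) (.nd (nat_lit 32) (.nd (nat_lit 21) 
(.lf (nat_lit 29786169) (dlOf (nat_lit 1) (nat_lit 0x8008000400200020008e30003))) 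
(.lf (nat_lit 2523193) (dlOf (nat_lit 1) (nat_lit 0x40028170b81)))) (.nd (nat_lit 27) 
(.lf (nat_lit 4295393337) (dlOf (nat_lit 4) (nat_lit 0x4002000208100070010001000800180080007e040020002001c00081c0b82))) 
(.lf (nat_lit 4429611065) (dlOf (nat_lit 4) (nat_lit 0x4002000208100070010001000800180080007e040020002001c00081c0b82))))) 
(.nd (nat_lit 7) (.nd (nat_lit 26) 
(.lf (nat_lit 134644281) (dlOf (nat_lit 2) (nat_lit 0x1c403100000018091000))) 
(.lf (nat_lit 201753145) (dlOf (nat_lit 2) (nat_lit 0x1c403100000018091000)))) 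
(.lf (nat_lit 20354745) (dlOf (nat_lit 1) (nat_lit 0x4004000200089da002))))) (.nd (nat_lit 7) 
(.nd (nat_lit 20) (.lf (nat_lit 17727545) (dlOf (nat_lit 1) (nat_lit 0x4002000200088f1102))) 
(.lf (nat_lit 25067577) (dlOf (nat_lit 2) (nat_lit 0x180000004e04006000200340008be1302)))) 
(.nd (nat_lit 10) (.lf (nat_lit 5773361337) (dlOf (nat_lit 1) (nat_lit 0x4002000200080c1702))) 
(.lf (nat_lit 34505913) (dlOf (nat_lit 1) (nat_lit 0x4004000a0018fb2c82))))))) (.nd (nat_lit 26) 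
(.nd (nat_lit 7) (.nd (nat_lit 18) (.nd (nat_lit 19) 
(.lf (nat_lit 4026695737) (dlOf (nat_lit 2) (nat_lit 0x5000b000b2818030d00))) (.nd (nat_lit 21) 
(.lf (nat_lit 3221913657) (dlOf (nat_lit 1) (nat_lit 0x7400081b0781))) 
(.lf (nat_lit 3492446265) (dlOf (nat_lit 1) (nat_lit 0x7e00080d0b81))))) (.nd (nat_lit 6) 
(.lf (nat_lit 4026957881) (dlOf (nat_lit 1) (nat_lit 0x80004000200080e0782))) 
(.lf (nat_lit 2819522681) (dlOf (nat_lit 3) (nat_lit 0x1c0c200145020018061000a10182c0480))))) 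
(.nd (nat_lit 11) (.nd (nat_lit 6) 
(.lf (nat_lit 3758264505) (dlOf (nat_lit 1) (nat_lit 0x400200020008127e82))) 
(.lf (nat_lit 2818736377) (dlOf (nat_lit 1) (nat_lit 0x200280e2901)))) (.nd (nat_lit 9) 
(.lf (nat_lit 3493234873) (dlOf (nat_lit 1) (nat_lit 0xc00280f4901))) 
(.lf (nat_lit 3758267065) (dlOf (nat_lit 1) (nat_lit 0x11000800480020016000812b883)))))) 
(.nd (nat_lit 28) (.nd (nat_lit 29) (.nd (nat_lit 18) 
(.lf (nat_lit 3288498233) (dlOf (nat_lit 2) (nat_lit 0x5000b000b2818030d00))) 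
(.lf (nat_lit 3288760377) (dlOf (nat_lit 2) (nat_lit 0x602b00da58180e0780)))) (.nd (nat_lit 6) 
(.lf (nat_lit 2754248761) (dlOf (nat_lit 1) (nat_lit 0x7e00080d0b81))) 
(.lf (nat_lit 2751629561) (dlOf (nat_lit 1) (nat_lit 0x20008004b81))))) (.nd (nat_lit 12) 
(.nd (nat_lit 6) (.nd (nat_lit 9) 
(.lf (nat_lit 4228546617) (dlOf (nat_lit 1) (nat_lit 0x3200080f1301))) 
(.lf (nat_lit 4228022841) (dlOf (nat_lit 2) (nat_lit 0x5f0190010cc080048008002000200100008018203)))) 
(.lf (nat_lit 3556933753) (dlOf (nat_lit 1) (nat_lit 0x400080004002000200080f2a03)))) 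
(.nd (nat_lit 7) (.lf (nat_lit 3020066873) (dlOf (nat_lit 1) (nat_lit 0x400200020008127c82))) 
(.lf (nat_lit 3154284729) (dlOf (nat_lit 1) (nat_lit 0x8008000c00200020008157e83)))))))) 
(.nd (nat_lit 18) (.nd (nat_lit 7) (.nd (nat_lit 26) (.nd (nat_lit 6) (.nd (nat_lit 9) 
(.nd (nat_lit 27) (.lf (nat_lit 6442615097) (dlOf (nat_lit 1) (nat_lit 0x400400020008104c02))) 
(.lf (nat_lit 134381881) (dlOf (nat_lit 1) (nat_lit 0x20028014c01)))) 
(.lf (nat_lit 671254329) (dlOf (nat_lit 1) (nat_lit 0x128004000e0008143e02)))) (.nd (nat_lit 11) 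
(.lf (nat_lit 44204409) (dlOf (nat_lit 1) (nat_lit 0x80080014002001200092d5883))) 
(.lf (nat_lit 20089209) (dlOf (nat_lit 1) (nat_lit 0x8002000200089d4e82))))) (.nd (nat_lit 9) 
(.nd (nat_lit 11) (.nd (nat_lit 28) 
(.lf (nat_lit 201490745) (dlOf (nat_lit 1) (nat_lit 0x20028014c01))) 
(.lf (nat_lit 5838635321) (dlOf (nat_lit 1) (nat_lit 0x400400020008104c02)))) 
(.lf (nat_lit 2751629625) (dlOf (nat_lit 2) (nat_lit 0xe1f500019018004c00)))) (.nd (nat_lit 6) 
(.lf (nat_lit 6241291065) (dlOf (nat_lit 1) (nat_lit 0x1c00280d5c01))) 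
(.lf (nat_lit 738364281) (dlOf (nat_lit 1) (nat_lit 0x400400020008095c02)))))) (.nd (nat_lit 6) 
(.nd (nat_lit 29) (.nd (nat_lit 11) 
(.lf (nat_lit 9601465) (dlOf (nat_lit 1) (nat_lit 0x128002005a0008577782))) 
(.lf (nat_lit 170425) (dlOf (nat_lit 1) (nat_lit 0x40040002000800af82)))) (.nd (nat_lit 19) 
(.lf (nat_lit 1610777017) (dlOf (nat_lit 3) (nat_lit 0x900c80007404000c096000250200020008091081))) 
(.lf (nat_lit 6378127801) (dlOf (nat_lit 1) (nat_lit 0x20008116f01))))) (.nd (nat_lit 9) 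
(.nd (nat_lit 11) (.lf (nat_lit 134382073) (dlOf (nat_lit 1) (nat_lit 0x400400020008017802))) 
(.nd (nat_lit 27) (.lf (nat_lit 2751633913) (dlOf (nat_lit 1) (nat_lit 0x40020004000800b282))) 
(.lf (nat_lit 3959593465) (dlOf (nat_lit 1) (nat_lit 0x2001811b281))))) (.nd (nat_lit 11) 
(.lf (nat_lit 36340729) (dlOf (nat_lit 1) (nat_lit 0x20019072881))) 
(.lf (nat_lit 54692857) (dlOf (nat_lit 2) (nat_lit 0x14e88000320200040019655f01))))))) 
(.nd (nat_lit 27) (.nd (nat_lit 11) (.nd (nat_lit 7) (.nd (nat_lit 22) (.nd (nat_lit 28) 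
(.lf (nat_lit 3221651833) (dlOf (nat_lit 25) (nat_lit 0xc0230022f8080b20028011400405900140089f0201e400a0044e01008f0050022500807b0028011240402180140088f0200ea0460027022802214100368118012808a0087c0400e604600270228021c41003a01180104e04000808c008210200020460040e01007a023001e0114010220801d808c00880450040402000b023001ff408005811800fc40401d808c007e10200d000e0038081002c007001c0008011003800dfe04009001c006fc0200e2046001fc810008023000fc0080018008001400200340008170783))) 
(.lf (nat_lit 805732729) (dlOf (nat_lit 29) (nat_lit 0x138014008a00200440130005009002700280113e0c004c02400a600a0044e02004e0050022640802700280112e0400880140089402007400a0044901004f00500223c080270028011120401480ac008850200940560043e01005102b0021c40802e81580070026008110400a0056001d0098020201002281580070026007fd040002013003f881001502b000e004c00fd80801240ac003a013003f5820021009801f800800d8158008080401380ac003f9020098056001f801004c02b000e004c007dc0801300ac002e013001f582004c02b0009804c007b80801300ac001a013001ed020025009800f640800e004c007b004003c004003e00081a0782))))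 
(.lf (nat_lit 21397881) (dlOf (nat_lit 1) (nat_lit 0x40008001800200160008a35903)))) 
(.nd (nat_lit 6) (.nd (nat_lit 10) 
(.lf (nat_lit 2752414137) (dlOf (nat_lit 1) (nat_lit 0x400200020008017782))) 
(.lf (nat_lit 8291769) (dlOf (nat_lit 1) (nat_lit 0x400200020008513602)))) (.nd (nat_lit 19) 
(.lf (nat_lit 21398009) (dlOf (nat_lit 1) (nat_lit 0x9000800dc00200920008a37803))) 
(.lf (nat_lit 3490611705) (dlOf (nat_lit 9) (nat_lit 0x4f88c0014a20402c046000a5002014a2300052781009f1180029180805d88c00148a04022446000a3c0201382300051d81008c1180028e808006000800a400200400008017803)))))) 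
(.nd (nat_lit 6) (.nd (nat_lit 9) 
(.lf (nat_lit 50235833) (dlOf (nat_lit 1) (nat_lit 0x1200094c4e81))) 
(.lf (nat_lit 2416352185) (dlOf (nat_lit 1) (nat_lit 0x400180fbe01)))) (.nd (nat_lit 7) 
(.lf (nat_lit 3490089337) (dlOf (nat_lit 1) (nat_lit 0x400200020008004e82))) (.nd (nat_lit 9) 
(.lf (nat_lit 47614457) (dlOf (nat_lit 1) (nat_lit 0x20029404f81))) 
(.lf (nat_lit 60197881) (dlOf (nat_lit 1) (nat_lit 0xe0029845f01))))))) (.nd (nat_lit 7) 
(.nd (nat_lit 28) (.nd (nat_lit 26) 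
(.lf (nat_lit 134644089) (dlOf (nat_lit 2) (nat_lit 0x1e00ec00e8a04019800400e20008090782))) 
(.lf (nat_lit 3959849337) (dlOf (nat_lit 2) (nat_lit 0x7408c00e840200080028170781)))) 
(.nd (nat_lit 6) 
(.lf (nat_lit 2550564665) (dlOf (nat_lit 5) (nat_lit 0x402000036020016012000400880068040001c01e001800e00090068000d430006004800140220002010000900780008038002801a000340c001e01200050088003803c002001a0002a08003a00280f3e01))) 
(.lf (nat_lit 5772312953) (dlOf (nat_lit 2) (nat_lit 0x184bc0011c04000800200080008091002))))) 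
(.nd (nat_lit 26) (.nd (nat_lit 28) 
(.lf (nat_lit 134644217) (dlOf (nat_lit 5) (nat_lit 0xb00bc0043404006809400c602f0010c02004801780085c0803200c4001ee04003c004003e0008090d82))) 
(.lf (nat_lit 3624305145) (dlOf (nat_lit 2) (nat_lit 0xb803e00527818157800)))) (.nd (nat_lit 10) 
(.nd (nat_lit 29) 
(.lf (nat_lit 201753081) (dlOf (nat_lit 5) (nat_lit 0x1e04a007a017800878100368128021805e0021d04001e04a009601780086c1000980c40022e040050004004c0008090d82))) 
(.lf (nat_lit 2886107641) (dlOf (nat_lit 3) (nat_lit 0x790000000bc0804180000005a040004004000a0008157e02)))) 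
(.lf (nat_lit 6375769593) (dlOf (nat_lit 1) (nat_lit 0x400400020008003682))))))))))))

end

end Pool.Agent.Lib.MP_5854e1_co.Cz

namespace Pool.Agent.Lib.MP_5854e1_co.Cz

noncomputable section

noncomputable def tz51 : DT := (.nd (nat_lit 15) (.nd (nat_lit 18) (.nd (nat_lit 30) 
(.nd (nat_lit 19) (.nd (nat_lit 4) (.nd (nat_lit 31) (.nd (nat_lit 7) (.nd (nat_lit 20) 
(.nd (nat_lit 5) (.nd (nat_lit 8) 
(.lf (nat_lit 25305097) (dlOf (nat_lit 3) (nat_lit 0x265260007d02001f2930003e018bf0480))) 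
(.lf (nat_lit 35792137) (dlOf (nat_lit 1) (nat_lit 0x60019012f81)))) 
(.lf (nat_lit 69345321) (dlOf (nat_lit 1) (nat_lit 0x8008000c00200080008940203)))) 
(.nd (nat_lit 21) (.nd (nat_lit 22) 
(.lf (nat_lit 17965065) (dlOf (nat_lit 1) (nat_lit 0x800200060008900582))) 
(.lf (nat_lit 47325193) (dlOf (nat_lit 1) (nat_lit 0x90004003800093d0002)))) (.nd (nat_lit 6) 
(.lf (nat_lit 20069129) (dlOf (nat_lit 1) (nat_lit 0x200289db981))) 
(.lf (nat_lit 28450889) (dlOf (nat_lit 1) (nat_lit 0x20018da0101)))))) (.nd (nat_lit 6) 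
(.nd (nat_lit 8) (.lf (nat_lit 2236553) (dlOf (nat_lit 1) (nat_lit 0x400200020008150102))) 
(.lf (nat_lit 335686025) (dlOf (nat_lit 1) (nat_lit 0x400400020008094e82)))) (.nd (nat_lit 5) 
(.nd (nat_lit 10) 
(.lf (nat_lit 4333769) (dlOf (nat_lit 3) (nat_lit 0x1d81c0002bf70002a02000260700162fdc000960801a4002009a0008290482))) 
(.lf (nat_lit 402793673) (dlOf (nat_lit 1) (nat_lit 0x400400020008092d82)))) 
(.lf (nat_lit 402793705) (dlOf (nat_lit 1) (nat_lit 0x400400020008092e82)))))) (.nd (nat_lit 29) 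
(.nd (nat_lit 5) (.nd (nat_lit 7) 
(.lf (nat_lit 2483167241) (dlOf (nat_lit 1) (nat_lit 0x6e0008050001))) 
(.lf (nat_lit 6442592393) (dlOf (nat_lit 1) (nat_lit 0x4c002000c00080f4802)))) (.nd (nat_lit 9) 
(.nd (nat_lit 26) 
(.lf (nat_lit 2281840681) (dlOf (nat_lit 1) (nat_lit 0x10008000c00200060008080683))) 
(.lf (nat_lit 2214731817) (dlOf (nat_lit 1) (nat_lit 0x1000400020018080682)))) 
(.lf (nat_lit 6509702697) (dlOf (nat_lit 1) (nat_lit 0x20008147181))))) (.nd (nat_lit 7) 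
(.nd (nat_lit 5) 
(.lf (nat_lit 2752651273) (dlOf (nat_lit 10) (nat_lit 0x1303b2002c1c50004e0200510ec8009876000a438a00321c40004b0400470ec800a87140011a0801183b2003a1c50004282002e10c0001f4080140860000f80400844300007502000c2180003a01002110c0001cc08024000800b0002007c0008030483))) 
(.lf (nat_lit 2818712937) (dlOf (nat_lit 4) (nat_lit 0x140880003f02003400e00180000000f81000d011000100000000004008a00180d3481)))) 
(.nd (nat_lit 8) 
(.lf (nat_lit 2753700009) (dlOf (nat_lit 1) (nat_lit 0x18008000400200020008090283))) 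
(.lf (nat_lit 3154256297) (dlOf (nat_lit 1) (nat_lit 0x30008000c00200120008136e83))))))) 
(.nd (nat_lit 5) (.nd (nat_lit 26) (.nd (nat_lit 22) (.nd (nat_lit 6) (.nd (nat_lit 7) 
(.lf (nat_lit 4563542041) (dlOf (nat_lit 1) (nat_lit 0x1c00400020008090002))) 
(.lf (nat_lit 402793625) (dlOf (nat_lit 1) (nat_lit 0x400400020008092b82)))) (.nd (nat_lit 7) 
(.lf (nat_lit 2952929369) (dlOf (nat_lit 1) (nat_lit 0x28008000400200020008030803))) 
(.lf (nat_lit 9576665) (dlOf (nat_lit 1) (nat_lit 0x10008000400200140008571903))))) 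
(.nd (nat_lit 20) (.nd (nat_lit 23) 
(.lf (nat_lit 21110809) (dlOf (nat_lit 1) (nat_lit 0x20008000c00200040008a10483))) 
(.lf (nat_lit 12722201) (dlOf (nat_lit 1) (nat_lit 0x80080004002000200086e0a03)))) 
(.lf (nat_lit 47325209) (dlOf (nat_lit 1) (nat_lit 0x600293d0501))))) (.nd (nat_lit 27) 
(.nd (nat_lit 6) (.nd (nat_lit 28) 
(.lf (nat_lit 4899086361) (dlOf (nat_lit 1) (nat_lit 0x20028060581))) 
(.lf (nat_lit 2483167257) (dlOf (nat_lit 1) (nat_lit 0x1400400080018050482)))) 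
(.lf (nat_lit 604119129) (dlOf (nat_lit 2) (nat_lit 0x174030011000e00014828030800)))) 
(.nd (nat_lit 28) (.nd (nat_lit 8) 
(.lf (nat_lit 2348949529) (dlOf (nat_lit 1) (nat_lit 0x3400200020008050482))) 
(.lf (nat_lit 2885820697) (dlOf (nat_lit 1) (nat_lit 0xa00080b0481)))) (.nd (nat_lit 20) 
(.lf (nat_lit 5301739545) (dlOf (nat_lit 3) (nat_lit 0x407e000c03e000a01b8004000001aa410000c07e001203a000701b8000800001aa210010000400040018060a02))) 
(.lf (nat_lit 470949913) (dlOf (nat_lit 1) (nat_lit 0x20008000c00200060008210503))))))) 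
(.nd (nat_lit 6) (.nd (nat_lit 8) (.nd (nat_lit 9) (.nd (nat_lit 21) 
(.lf (nat_lit 474096825) (dlOf (nat_lit 11) (nat_lit 0xa85a0017402e000440400ea168009e00b80010c100f385a0073802e000410402a2168014000b800100101fc85a00f6402e0003e0400a60170001e0100d71020063868402642d001aa14500c5067805e02c802880e601be017010300a8000dc480708810034c342015a16800e80a2806a033c0328164017a07300dd00b806a80540006c2401642d00100145007c067802f805c0006a10022840801121a100720b4004d8514023819e00c8073003b00b8000003801e0008008400200020009082c83))) 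
(.lf (nat_lit 48374969) (dlOf (nat_lit 5) (nat_lit 0x1414060001040801722000cc10180003e0400027410001b810024000000000080d500080660002021a0009402c83)))) 
(.lf (nat_lit 20069049) (dlOf (nat_lit 1) (nat_lit 0x1c8004008a00189db882)))) (.nd (nat_lit 7) 
(.nd (nat_lit 9) (.lf (nat_lit 9576761) (dlOf (nat_lit 1) (nat_lit 0x8008000400200020008574c03))) 
(.lf (nat_lit 20065081) (dlOf (nat_lit 1) (nat_lit 0x4002000200089d5c02)))) 
(.lf (nat_lit 3154256313) (dlOf (nat_lit 2) (nat_lit 0x800000000004002800200100008136f02))))) 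
(.nd (nat_lit 7) (.nd (nat_lit 8) 
(.lf (nat_lit 44179577) (dlOf (nat_lit 1) (nat_lit 0x4004000200192d0b82))) 
(.lf (nat_lit 44179833) (dlOf (nat_lit 1) (nat_lit 0x200292d5881)))) (.nd (nat_lit 8) 
(.nd (nat_lit 20) 
(.lf (nat_lit 738337017) (dlOf (nat_lit 3) (nat_lit 0x1c035000ac01000402980070084002ac08000400200020008090a82))) 
(.lf (nat_lit 20062457) (dlOf (nat_lit 1) (nat_lit 0x4002000200089d0a82)))) 
(.lf (nat_lit 201466873) (dlOf (nat_lit 2) (nat_lit 0x14094015d30200020018002881)))))))) 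
(.nd (nat_lit 21) (.nd (nat_lit 20) (.nd (nat_lit 29) (.nd (nat_lit 26) (.nd (nat_lit 5) 
(.nd (nat_lit 4) (.nd (nat_lit 6) 
(.lf (nat_lit 134881289) (dlOf (nat_lit 2) (nat_lit 0x798118000f804009c00401a200180d0482))) 
(.lf (nat_lit 9058377) (dlOf (nat_lit 1) (nat_lit 0x40020002000851a682)))) 
(.lf (nat_lit 34219097) (dlOf (nat_lit 2) (nat_lit 0x45fe000000080108008001800200040008fb2903)))) 
(.nd (nat_lit 8) (.lf (nat_lit 21635113) (dlOf (nat_lit 1) (nat_lit 0x8008000400200020008a50a83))) 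
(.lf (nat_lit 9056553) (dlOf (nat_lit 1) (nat_lit 0x140028518081))))) (.nd (nat_lit 4) 
(.nd (nat_lit 27) (.lf (nat_lit 4362739721) (dlOf (nat_lit 1) (nat_lit 0x800080e0581))) 
(.lf (nat_lit 201990153) (dlOf (nat_lit 2) (nat_lit 0x798118000f804009c00401a200180d0482)))) 
(.lf (nat_lit 4362739737) (dlOf (nat_lit 2) (nat_lit 0x3002b000ac8180e0a80))))) (.nd (nat_lit 5) 
(.nd (nat_lit 6) (.nd (nat_lit 4) 
(.lf (nat_lit 2819235849) (dlOf (nat_lit 1) (nat_lit 0x300028200001))) 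
(.lf (nat_lit 537534489) (dlOf (nat_lit 1) (nat_lit 0xf00080024002001a00080a0903)))) 
(.nd (nat_lit 7) (.nd (nat_lit 28) 
(.lf (nat_lit 537534537) (dlOf (nat_lit 2) (nat_lit 0x3004c0000b0180a0e80))) 
(.lf (nat_lit 805969993) (dlOf (nat_lit 3) (nat_lit 0x1d02b0000400801c01580001a040004002000e0008201482)))) 
(.lf (nat_lit 738863561) (dlOf (nat_lit 1) (nat_lit 0x800200020008124e82))))) (.nd (nat_lit 28) 
(.nd (nat_lit 6) 
(.lf (nat_lit 537534505) (dlOf (nat_lit 2) (nat_lit 0xf02c8000d40801180080170002006e00080a0983))) 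
(.lf (nat_lit 537534569) (dlOf (nat_lit 7) (nat_lit 0x80570000b81008d02e802c015c02780a4014a033000100400005428029017400a80ae00ce052004f01980004c200468174015c0ae013e052009e019800100200000a14021c0ba000c0570068029002600cc0000810007c0ba000030200de00280a1401)))) 
(.nd (nat_lit 4) (.nd (nat_lit 26) 
(.lf (nat_lit 805969961) (dlOf (nat_lit 7) (nat_lit 0xe042001900700015c100020038000aa040228084019c00e0002a02000b007001180000006e08000401c0003402005800e002d00200198000000660c014400200060008200c02))) 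
(.lf (nat_lit 3154780201) (dlOf (nat_lit 8) (nat_lit 0x6c0460012101010e01b800480240044a0801cc0000017202008606400890300110016411440a2064204c0428023009c810c05a0080089c03300ac01802020090115403a094001604b5002820f8000002d83c00e80a200b604f005b0110027006c00a002800b6000000018600de03001ab81440d6809e003604a000901881c380900ec0044068c01b02c100a015b801403ac0040596000000008c000102d0000000814a80080bc0002058c0008320d83)))) 
(.lf (nat_lit 805969977) (dlOf (nat_lit 1) (nat_lit 0x300080038002001a0008201303))))))) 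
(.nd (nat_lit 4) (.nd (nat_lit 6) (.nd (nat_lit 23) 
(.lf (nat_lit 18489353) (dlOf (nat_lit 1) (nat_lit 0x400400020008940282))) (.nd (nat_lit 24) 
(.lf (nat_lit 10100745) (dlOf (nat_lit 1) (nat_lit 0x1c004000800085b0482))) 
(.lf (nat_lit 26877961) (dlOf (nat_lit 1) (nat_lit 0x800200020008c80482))))) (.nd (nat_lit 7) 
(.lf (nat_lit 10100809) (dlOf (nat_lit 2) (nat_lit 0x8608000130185b0880))) 
(.lf (nat_lit 43656393) (dlOf (nat_lit 1) (nat_lit 0x200292a2d81))))) (.nd (nat_lit 24) 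
(.nd (nat_lit 5) (.nd (nat_lit 6) 
(.lf (nat_lit 10100761) (dlOf (nat_lit 1) (nat_lit 0x200285b0481))) 
(.lf (nat_lit 68823641) (dlOf (nat_lit 1) (nat_lit 0x60018785301)))) 
(.lf (nat_lit 5906489) (dlOf (nat_lit 1) (nat_lit 0x20028400901)))) (.nd (nat_lit 6) 
(.nd (nat_lit 22) (.lf (nat_lit 18489369) (dlOf (nat_lit 1) (nat_lit 0x40028940481))) 
(.lf (nat_lit 22683673) (dlOf (nat_lit 3) (nat_lit 0x800000a8a81000f00000545008003800800bc002000c0008b10503)))) 
(.lf (nat_lit 60432473) (dlOf (nat_lit 3) (nat_lit 0x1052d0000a40800629680004a04006400400680019860702))))))) 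
(.nd (nat_lit 7) (.nd (nat_lit 20) (.nd (nat_lit 5) (.nd (nat_lit 8) (.nd (nat_lit 22) 
(.lf (nat_lit 2754224137) (dlOf (nat_lit 7) (nat_lit 0xe843800641d900140e280030000000fa10000444600a621c000f0ee80290764001420c00180fa00210760001f03801e087000d83b200361c50003a83002210e0001d00801d087000e83b200361c50003983002210e0001c80800a00080078002009200080d0483))) 
(.lf (nat_lit 15343625) (dlOf (nat_lit 1) (nat_lit 0x200087e0481)))) 
(.lf (nat_lit 53093641) (dlOf (nat_lit 1) (nat_lit 0x40008007c00200160009572f83)))) 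
(.nd (nat_lit 4) (.nd (nat_lit 23) (.nd (nat_lit 26) 
(.lf (nat_lit 2760745) (dlOf (nat_lit 1) (nat_lit 0x200081b0d01))) 
(.lf (nat_lit 472522793) (dlOf (nat_lit 2) (nat_lit 0x2041780000702001200089b0881)))) 
(.lf (nat_lit 11149353) (dlOf (nat_lit 15) (nat_lit 0x1f56080142afb00bd4b3805d257800ccaa402020000002b060079582000f2bec00595b400949670002a8400365820014259c000800000053060010b04000270100015820005956c0009408001cab600045020016b040001e0100085820000dc08007ac1000bd5f6006cada000d2b7800a957c0028ab6000655200161e800048f24001800000032140016b04000188100022ad800595480005a080014aa40002c020024b04000557d80004c10005ac100002404005400200020008660682)))) 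
(.nd (nat_lit 22) (.lf (nat_lit 2754224185) (dlOf (nat_lit 1) (nat_lit 0x200280d0b81))) 
(.lf (nat_lit 6955065) (dlOf (nat_lit 1) (nat_lit 0x20028490901)))))) (.nd (nat_lit 6) 
(.nd (nat_lit 23) (.nd (nat_lit 24) 
(.lf (nat_lit 3809321) (dlOf (nat_lit 1) (nat_lit 0x60028230a81))) 
(.lf (nat_lit 54140969) (dlOf (nat_lit 1) (nat_lit 0x400400060019630202)))) 
(.lf (nat_lit 45752361) (dlOf (nat_lit 1) (nat_lit 0x20009360201)))) (.nd (nat_lit 4) 
(.lf (nat_lit 20589385) (dlOf (nat_lit 2) (nat_lit 0x164bc0011c040004002000200089d5c02))) 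
(.lf (nat_lit 20589177) (dlOf (nat_lit 1) (nat_lit 0x200089d5401)))))) (.nd (nat_lit 5) 
(.nd (nat_lit 4) (.nd (nat_lit 8) 
(.lf (nat_lit 12198025) (dlOf (nat_lit 1) (nat_lit 0x24004000200186c0102))) (.nd (nat_lit 11) 
(.lf (nat_lit 23732617) (dlOf (nat_lit 1) (nat_lit 0x800802c400200940008b80783))) 
(.lf (nat_lit 36317577) (dlOf (nat_lit 1) (nat_lit 0x400200020009074e82))))) (.nd (nat_lit 6) 
(.lf (nat_lit 8008857) (dlOf (nat_lit 1) (nat_lit 0x600080064002003e0008519503))) (.nd (nat_lit 9) 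
(.lf (nat_lit 32123353) (dlOf (nat_lit 1) (nat_lit 0x20028ef4e81))) 
(.lf (nat_lit 36316121) (dlOf (nat_lit 1) (nat_lit 0x20019072881)))))) (.nd (nat_lit 6) 
(.nd (nat_lit 8) (.nd (nat_lit 9) 
(.lf (nat_lit 36316329) (dlOf (nat_lit 1) (nat_lit 0x20019072c01))) 
(.lf (nat_lit 36317865) (dlOf (nat_lit 1) (nat_lit 0x20019075601)))) 
(.lf (nat_lit 36317609) (dlOf (nat_lit 1) (nat_lit 0x20019074e81)))) (.nd (nat_lit 4) 
(.lf (nat_lit 28975337) (dlOf (nat_lit 1) (nat_lit 0x100028da0601))) 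
(.lf (nat_lit 33171961) (dlOf (nat_lit 2) (nat_lit 0x999c000ae04001000400040008f54f82))))))))) 
(.nd (nat_lit 26) (.nd (nat_lit 31) (.nd (nat_lit 10) (.nd (nat_lit 4) (.nd (nat_lit 27) 
(.nd (nat_lit 5) (.lf (nat_lit 1346510857) (dlOf (nat_lit 1) (nat_lit 0x400200020008f80002))) 
(.nd (nat_lit 19) (.lf (nat_lit 1343365161) (dlOf (nat_lit 1) (nat_lit 0x40028210781))) 
(.lf (nat_lit 1344938025) (dlOf (nat_lit 1) (nat_lit 0x14c002004600089a0202))))) (.nd (nat_lit 7) 
(.nd (nat_lit 29) (.lf (nat_lit 1476534281) (dlOf (nat_lit 1) (nat_lit 0x20028040081))) 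
(.lf (nat_lit 2013405193) (dlOf (nat_lit 2) (nat_lit 0x7002803fac080020008000400200040008050003)))) 
(.lf (nat_lit 1208101257) (dlOf (nat_lit 1) (nat_lit 0x20028094e81))))) (.nd (nat_lit 5) 
(.nd (nat_lit 6) (.lf (nat_lit 1344938009) (dlOf (nat_lit 1) (nat_lit 0x200189a0101))) 
(.lf (nat_lit 1346510937) (dlOf (nat_lit 1) (nat_lit 0x38004001e0008f80702)))) (.nd (nat_lit 6) 
(.lf (nat_lit 2013405241) (dlOf (nat_lit 1) (nat_lit 0x40018051401))) 
(.lf (nat_lit 5905721465) (dlOf (nat_lit 1) (nat_lit 0x20008144781)))))) (.nd (nat_lit 4) 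
(.nd (nat_lit 6) (.nd (nat_lit 5) (.nd (nat_lit 7) 
(.lf (nat_lit 5637285385) (dlOf (nat_lit 1) (nat_lit 0x600180d3681))) 
(.lf (nat_lit 5773599881) (dlOf (nat_lit 1) (nat_lit 0x4004000200080e2b02)))) 
(.lf (nat_lit 5637285417) (dlOf (nat_lit 1) (nat_lit 0x4004004a00080d3702)))) (.nd (nat_lit 5) 
(.nd (nat_lit 8) (.lf (nat_lit 1342319689) (dlOf (nat_lit 1) (nat_lit 0x60018006081))) 
(.lf (nat_lit 5905721161) (dlOf (nat_lit 1) (nat_lit 0x20018143e81)))) 
(.lf (nat_lit 1342319849) (dlOf (nat_lit 1) (nat_lit 0x60008006501))))) (.nd (nat_lit 5) 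
(.nd (nat_lit 6) (.lf (nat_lit 1610753177) (dlOf (nat_lit 1) (nat_lit 0x14004000a0008092b82))) 
(.nd (nat_lit 7) 
(.lf (nat_lit 1610753625) (dlOf (nat_lit 1) (nat_lit 0x8008000400200020008093883))) 
(.lf (nat_lit 5637285337) (dlOf (nat_lit 1) (nat_lit 0x4004005e00080d3602))))) (.nd (nat_lit 6) 
(.lf (nat_lit 5637285305) (dlOf (nat_lit 1) (nat_lit 0x4400280d3601))) 
(.lf (nat_lit 1610753401) (dlOf (nat_lit 2) (nat_lit 0x620520001025801900d0008c05e0046008001b0020000b0300018008009400200020008093503))))))) 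
(.nd (nat_lit 5) (.nd (nat_lit 4) (.nd (nat_lit 6) (.nd (nat_lit 19) (.nd (nat_lit 20) 
(.lf (nat_lit 4026671113) (dlOf (nat_lit 2) (nat_lit 0x9008c017a8040010002003c0008020482))) 
(.lf (nat_lit 3490848777) (dlOf (nat_lit 10) (nat_lit 0x13038e002c1b00004e0200510e38009871800a436000321af0004b0400470e3800a86c00011a08011838e003a1b00004282002e1018001f408014080c000f80400844060007502000c2030003a0100211018001cc08024000800b0002007c0008030483)))) 
(.nd (nat_lit 21) (.lf (nat_lit 3221889033) (dlOf (nat_lit 1) (nat_lit 0x18004001000181b0002))) 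
(.lf (nat_lit 3492421641) (dlOf (nat_lit 7) (nat_lit 0xe840e00641c700140d800030000000fa10000441c00a620700520e3800786ec001421800180fa00210760001f03801e081c00d838e00361b00003a8300221038001d00801d081c00e838e00361b0000398300221038001c80800a00080078002009200080d0483))))) 
(.nd (nat_lit 7) (.nd (nat_lit 10) 
(.lf (nat_lit 4026671177) (dlOf (nat_lit 11) (nat_lit 0x3f4020012c0058000e8101b580800b400160003404048a02001740058000cc10163008005c80160003204061602002890058000c4100d2008002a0016000300406b80200202009815e002c0004c0c037004001ae00b000120202f40100131802c000440800f40160000602043e0028020881))) 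
(.lf (nat_lit 3490327625) (dlOf (nat_lit 1) (nat_lit 0x120008006081)))) 
(.lf (nat_lit 3355587785) (dlOf (nat_lit 1) (nat_lit 0x198008000c002002600080a9503))))) 
(.nd (nat_lit 7) (.nd (nat_lit 27) 
(.lf (nat_lit 4026671129) (dlOf (nat_lit 1) (nat_lit 0xc800200060008020482))) 
(.lf (nat_lit 3624017945) (dlOf (nat_lit 1) (nat_lit 0x1000280b0001)))) 
(.lf (nat_lit 3221368217) (dlOf (nat_lit 1) (nat_lit 0x400400020008116d02))))) (.nd (nat_lit 6) 
(.nd (nat_lit 4) (.nd (nat_lit 7) (.nd (nat_lit 27) 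
(.lf (nat_lit 4026671145) (dlOf (nat_lit 1) (nat_lit 0x2bc00200a60008020502))) 
(.lf (nat_lit 4160888873) (dlOf (nat_lit 1) (nat_lit 0x1800400020008060682)))) 
(.lf (nat_lit 3221372329) (dlOf (nat_lit 8) (nat_lit 0x3302a80020128021c06a010801f002e00f0019004800c4014007000600970000000c048034815800f00a40068032001f00f0034004400e00140002e0c00660560036019001a80c400e4056006c0290038008801e804001000140002d100002056002501580128044009c020004c00a00270030000143002a015801600a400ae0360055015801d8078015c02200a400a004a00300001040026015801300a400960360032018802900ac00c003c00a401100600080028802800380100072006000010b006e028803700d400b806800d401f003500f0024001800000180060002028c000811cb82)))) 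
(.nd (nat_lit 7) (.nd (nat_lit 19) 
(.lf (nat_lit 4026671161) (dlOf (nat_lit 4) (nat_lit 0x1060100002002c000ba080484040000800b0002c0200380100000cc0801e0008007800201040008020683))) 
(.lf (nat_lit 3492421689) (dlOf (nat_lit 1) (nat_lit 0x200280d0b81)))) 
(.lf (nat_lit 3221368249) (dlOf (nat_lit 1) (nat_lit 0x400400020008116d02))))) (.nd (nat_lit 7) 
(.nd (nat_lit 4) 
(.lf (nat_lit 3221367145) (dlOf (nat_lit 3) (nat_lit 0x19803802e720400cc01c0172f0200020018114e81))) 
(.lf (nat_lit 3221372281) (dlOf (nat_lit 3) (nat_lit 0xa040000d01c0013005800d020c00140800014038000500b0019cc1801d00080140002002c000811c903)))) 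
(.nd (nat_lit 8) (.nd (nat_lit 11) 
(.lf (nat_lit 3355587817) (dlOf (nat_lit 14) (nat_lit 0x300c800440620043604004602f000df81001e0178006f40801000d0007c05e001a904001202f000d381003c01a000f80bc0034608001c05e001a202003c02f000ca0100590190001380803280c8000980400140640002f0200700320001481002801780000008022800801d8002002600080a9503))) 
(.lf (nat_lit 3490327785) (dlOf (nat_lit 1) (nat_lit 0x31000401060008006502)))) 
(.lf (nat_lit 3221367273) (dlOf (nat_lit 3) (nat_lit 0x33007005cec08009803800380000172f0400020018114e81)))))))) 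
(.nd (nat_lit 4) (.nd (nat_lit 27) (.nd (nat_lit 8) (.nd (nat_lit 5) (.nd (nat_lit 6) 
(.nd (nat_lit 31) 
(.lf (nat_lit 1140989961) (dlOf (nat_lit 2) (nat_lit 0x70028041e0080020008000400200040008050003))) 
(.lf (nat_lit 3288473609) (dlOf (nat_lit 2) (nat_lit 0x9008c00c7e040010002003c0008020482)))) 
(.lf (nat_lit 3288473673) (dlOf (nat_lit 11) (nat_lit 0x3f4020012c0058000e8101b580800b400160003404048a02001740058000cc10163008005c80160003204061602002890058000c4100d2008002a0016000300406b80200202009815e002c0004c0c037004001ae00b000120202f40100131802c000440800f40160000602043e0028020881)))) 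
(.nd (nat_lit 19) (.lf (nat_lit 3288473641) (dlOf (nat_lit 1) (nat_lit 0x2bc00200a60008020502))) 
(.lf (nat_lit 1409949737) (dlOf (nat_lit 2) (nat_lit 0xf02c8001040801180080170002006e00080a0983))))) 
(.nd (nat_lit 5) (.nd (nat_lit 6) (.nd (nat_lit 9) 
(.lf (nat_lit 4095878409) (dlOf (nat_lit 1) (nat_lit 0x180080004002000600080e2f83))) 
(.lf (nat_lit 5972829961) (dlOf (nat_lit 1) (nat_lit 0x400400020008143b82)))) 
(.lf (nat_lit 1946296777) (dlOf (nat_lit 1) (nat_lit 0x40008017101)))) (.nd (nat_lit 6) 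
(.lf (nat_lit 1409428777) (dlOf (nat_lit 1) (nat_lit 0x40018006801))) 
(.lf (nat_lit 1946296809) (dlOf (nat_lit 2) (nat_lit 0x74052000000200020008017301)))))) 
(.nd (nat_lit 5) (.nd (nat_lit 7) (.nd (nat_lit 8) (.nd (nat_lit 28) 
(.lf (nat_lit 3960086537) (dlOf (nat_lit 1) (nat_lit 0x18004001000181b0002))) 
(.lf (nat_lit 4228521993) (dlOf (nat_lit 1) (nat_lit 0x800080e0581)))) 
(.lf (nat_lit 3959564553) (dlOf (nat_lit 1) (nat_lit 0x400400020008114b82)))) (.nd (nat_lit 6) 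
(.lf (nat_lit 1543646601) (dlOf (nat_lit 1) (nat_lit 0x800200020008146c82))) (.nd (nat_lit 8) 
(.lf (nat_lit 2080515273) (dlOf (nat_lit 1) (nat_lit 0x20028092d81))) 
(.lf (nat_lit 3959563209) (dlOf (nat_lit 9) (nat_lit 0x360070057940801b003802bb80400d801c015db02006c00e00180000057681001b8038005c000015d904006c00e00aec010037007000b800002bae0800d801c002200000ae8828112880)))))) 
(.nd (nat_lit 6) (.nd (nat_lit 8) (.nd (nat_lit 11) 
(.lf (nat_lit 3422691369) (dlOf (nat_lit 5) (nat_lit 0x11a02200db0060014801000dc004011a0000002b05000601f001e807800200220004e0600bc00d0000981000f006800048080160008018800202580008060683))) 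
(.lf (nat_lit 3959568425) (dlOf (nat_lit 2) (nat_lit 0x402f002a501811a600)))) 
(.lf (nat_lit 3959568681) (dlOf (nat_lit 1) (nat_lit 0x8001811ab81)))) (.nd (nat_lit 11) 
(.lf (nat_lit 2080515305) (dlOf (nat_lit 1) (nat_lit 0x4004000e0018092e82))) 
(.lf (nat_lit 5838613737) (dlOf (nat_lit 2) (nat_lit 0x1a034000168180f6500))))))) (.nd (nat_lit 6) 
(.nd (nat_lit 5) (.nd (nat_lit 27) (.nd (nat_lit 19) 
(.lf (nat_lit 1140989977) (dlOf (nat_lit 2) (nat_lit 0x160110000c8080030008005c002001c0008050403))) 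
(.nd (nat_lit 31) 
(.lf (nat_lit 1409949721) (dlOf (nat_lit 1) (nat_lit 0xf00080024002001a00080a0903))) 
(.lf (nat_lit 3557433369) (dlOf (nat_lit 1) (nat_lit 0x2660018200481))))) (.nd (nat_lit 7) 
(.lf (nat_lit 4228522009) (dlOf (nat_lit 2) (nat_lit 0x3002a000aa0180e0a80))) (.nd (nat_lit 10) 
(.lf (nat_lit 6377054361) (dlOf (nat_lit 1) (nat_lit 0x80080004002000200080a2b83))) 
(.lf (nat_lit 2080515225) (dlOf (nat_lit 1) (nat_lit 0x400400020008092b82)))))) (.nd (nat_lit 19) 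
(.nd (nat_lit 8) (.nd (nat_lit 31) 
(.lf (nat_lit 1140990009) (dlOf (nat_lit 1) (nat_lit 0x40018051401))) 
(.lf (nat_lit 3288473657) (dlOf (nat_lit 4) (nat_lit 0x1060100002002c000ba080484040000800b0002c0200380100000cc0801e0008007800201040008020683)))) 
(.lf (nat_lit 6241266489) (dlOf (nat_lit 1) (nat_lit 0x4c00280d5c01)))) (.nd (nat_lit 28) 
(.lf (nat_lit 1678385209) (dlOf (nat_lit 1) (nat_lit 0x10002000e0008201302))) 
(.lf (nat_lit 1409949753) (dlOf (nat_lit 2) (nat_lit 0x7302f8000b00801b80080020002001c00080a0b83)))))) 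
(.nd (nat_lit 5) (.nd (nat_lit 7) (.nd (nat_lit 8) 
(.lf (nat_lit 4096401497) (dlOf (nat_lit 2) (nat_lit 0x603a000000080070008002000200260008100703))) 
(.lf (nat_lit 1677863257) (dlOf (nat_lit 1) (nat_lit 0x20018114e01)))) (.nd (nat_lit 8) 
(.lf (nat_lit 1409428697) (dlOf (nat_lit 1) (nat_lit 0x8008000400200040008006483))) 
(.lf (nat_lit 3959568857) (dlOf (nat_lit 2) (nat_lit 0x80580182e0400c80040038000811b282))))) 
(.nd (nat_lit 8) (.nd (nat_lit 9) 
(.lf (nat_lit 3959564537) (dlOf (nat_lit 1) (nat_lit 0x400400020008114b82))) 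
(.lf (nat_lit 6377581305) (dlOf (nat_lit 1) (nat_lit 0x80080004002000200080e5a03)))) 
(.nd (nat_lit 10) (.nd (nat_lit 7) 
(.lf (nat_lit 1409427833) (dlOf (nat_lit 1) (nat_lit 0x78008001c002000c0008004e83))) 
(.nd (nat_lit 11) 
(.lf (nat_lit 1946296825) (dlOf (nat_lit 6) (nat_lit 0x250148028d00801500a40146604009805200a2a02005002900514810028014800080380145008008000400320018017802))) 
(.lf (nat_lit 1677867513) (dlOf (nat_lit 1) (nat_lit 0x780080054002000c000811b283))))) 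
(.nd (nat_lit 11) (.lf (nat_lit 4095878649) (dlOf (nat_lit 1) (nat_lit 0x400280e3681))) 
(.lf (nat_lit 1409428985) (dlOf (nat_lit 1) (nat_lit 0x40018006f81))))))))))) (.nd (nat_lit 5) 
(.nd (nat_lit 4) (.nd (nat_lit 6) (.nd (nat_lit 19) (.nd (nat_lit 26) (.nd (nat_lit 27) 
(.nd (nat_lit 32) (.nd (nat_lit 10) (.nd (nat_lit 22) 
(.lf (nat_lit 4026933257) (dlOf (nat_lit 1) (nat_lit 0x200180d0481))) 
(.lf (nat_lit 12984329) (dlOf (nat_lit 1) (nat_lit 0x10004000800086f0002)))) 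
(.lf (nat_lit 38151177) (dlOf (nat_lit 1) (nat_lit 0x20019132881)))) (.nd (nat_lit 28) 
(.nd (nat_lit 29) 
(.lf (nat_lit 6442852361) (dlOf (nat_lit 3) (nat_lit 0x801a000200c80020062001802e000f0160002009c00700200173e0e00080340006019000100bc0064020016bb0800cc00281e0001))) 
(.lf (nat_lit 5905981449) (dlOf (nat_lit 1) (nat_lit 0x400400100008170482)))) 
(.lf (nat_lit 4563804169) (dlOf (nat_lit 3) (nat_lit 0x1360198057800809980cc02a9204002c004001e00080e0002))))) 
(.nd (nat_lit 30) (.nd (nat_lit 7) 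
(.lf (nat_lit 4698021897) (dlOf (nat_lit 3) (nat_lit 0x136019805cf80809980cc02d7604002c004001e00080e0002))) 
(.lf (nat_lit 134619529) (dlOf (nat_lit 2) (nat_lit 0xa603b003a0818090780)))) (.nd (nat_lit 29) 
(.lf (nat_lit 3355844617) (dlOf (nat_lit 2) (nat_lit 0x4b01900328c0800e00080034002007e0008120003))) 
(.lf (nat_lit 3892715529) (dlOf (nat_lit 1) (nat_lit 0x1e00181d0481)))))) (.nd (nat_lit 31) 
(.nd (nat_lit 32) (.nd (nat_lit 7) 
(.lf (nat_lit 68558857) (dlOf (nat_lit 1) (nat_lit 0x80080028002000200085b0003))) 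
(.lf (nat_lit 201728393) (dlOf (nat_lit 2) (nat_lit 0x4a03b00675018090780)))) (.nd (nat_lit 28) 
(.lf (nat_lit 4496695305) (dlOf (nat_lit 3) (nat_lit 0x1803200ec581000701a0075d4080138008005400200f80008120003))) 
(.lf (nat_lit 5838872585) (dlOf (nat_lit 3) (nat_lit 0x801a000200c80020062001802e000f0160002009c0070020015e00e00080340006019000100bc0064020015490800cc00281e0001))))) 
(.nd (nat_lit 29) (.nd (nat_lit 30) 
(.lf (nat_lit 6509961225) (dlOf (nat_lit 1) (nat_lit 0x400400100008170482))) 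
(.lf (nat_lit 3288735753) (dlOf (nat_lit 1) (nat_lit 0x200180d0481)))) (.nd (nat_lit 10) 
(.lf (nat_lit 3020300297) (dlOf (nat_lit 1) (nat_lit 0x20018220281))) 
(.lf (nat_lit 2751865865) (dlOf (nat_lit 1) (nat_lit 0x400200020008002882))))))) (.nd (nat_lit 7) 
(.nd (nat_lit 26) (.nd (nat_lit 22) (.nd (nat_lit 20) 
(.lf (nat_lit 2819497993) (dlOf (nat_lit 13) (nat_lit 0x480f0015e06a0001034800201780014084009603f0032006000103c006801a8002c0d200d4061002602f000081740004096007004200b701f801e806c00c7e2800100f000600720004038807d81a8010c0d200d2061005e02f0023812c002809400a004200d501f8026006c00c783001240d4002403f0031c82005b035000801a4023007e0063606020a06a00490348033818400c40bc000204b0038021007680fc01cc0360063310005606f001e037000f016c00780b4005003c001001d800580d8017006800460330034016000580ac022c044006281800040420031281000801a00188808017816c013007800bc0340030d830018037800b016c006007800660340003016003e808800c301801ac06c005e02c006a0110016e41805800080138002009200082b0283)))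 
(.lf (nat_lit 5773336585) (dlOf (nat_lit 1) (nat_lit 0x400280c0001)))) (.nd (nat_lit 21) 
(.lf (nat_lit 13508617) (dlOf (nat_lit 2) (nat_lit 0x2a4e4000a6818730480))) 
(.lf (nat_lit 15605769) (dlOf (nat_lit 2) (nat_lit 0x1127800b7204003c00400060008810282))))) 
(.nd (nat_lit 8) (.nd (nat_lit 20) 
(.lf (nat_lit 3557695497) (dlOf (nat_lit 13) (nat_lit 0x480f0015e061000103000020178001408a009603f005ea86000103c0035019003400c20016060002602f0000817400e008a000204200b701f801e806c017a82800100f0006007200040388034819003ec0c20086060005e02f00280114011c084001404100d501f8026006c0179e3001240c2002403f005e702005b03080080180023007e00bc90600ce06401050308024818000c40bc00700450001021007680fc01cc03600bc810005606f001e037000f016c00780b40016038002801b000800d4017006800460330034016000580ac022c04400bbd180004045005dc01000801a002edc08017816c013006c00bc034005d7030018037800b016c006006c00660340003016003e80880175a1801ac070005e02c006a011002d141805800080138002009200082b0283)))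 
(.lf (nat_lit 6377316361) (dlOf (nat_lit 1) (nat_lit 0x400280c0001)))) 
(.lf (nat_lit 6376268041) (dlOf (nat_lit 1) (nat_lit 0x400400020008090a82))))) (.nd (nat_lit 8) 
(.nd (nat_lit 10) (.lf (nat_lit 12460169) (dlOf (nat_lit 1) (nat_lit 0x8002000200086c0102))) 
(.lf (nat_lit 19807369) (dlOf (nat_lit 1) (nat_lit 0x18004000200089dc202)))) (.nd (nat_lit 9) 
(.nd (nat_lit 21) (.lf (nat_lit 3491635593) (dlOf (nat_lit 1) (nat_lit 0x400400020008090782))) 
(.lf (nat_lit 8266121) (dlOf (nat_lit 1) (nat_lit 0x400200020008511002)))) 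
(.lf (nat_lit 19803017) (dlOf (nat_lit 1) (nat_lit 0x4002000200089d5c02))))))) (.nd (nat_lit 26) 
(.nd (nat_lit 30) (.nd (nat_lit 8) (.nd (nat_lit 7) (.nd (nat_lit 19) 
(.lf (nat_lit 9838665) (dlOf (nat_lit 1) (nat_lit 0x60008001000200400008580503))) 
(.lf (nat_lit 13508681) (dlOf (nat_lit 1) (nat_lit 0x16000801b8002000e0008730c83)))) 
(.lf (nat_lit 23994569) (dlOf (nat_lit 1) (nat_lit 0x20008b80481)))) (.nd (nat_lit 7) 
(.nd (nat_lit 9) (.lf (nat_lit 19807561) (dlOf (nat_lit 1) (nat_lit 0xe0002002600089dc902))) 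
(.lf (nat_lit 20327241) (dlOf (nat_lit 1) (nat_lit 0x200189d5c01)))) 
(.lf (nat_lit 19803593) (dlOf (nat_lit 1) (nat_lit 0x200289d6d01))))) (.nd (nat_lit 29) 
(.nd (nat_lit 10) (.nd (nat_lit 19) 
(.lf (nat_lit 5637546057) (dlOf (nat_lit 3) (nat_lit 0x2001d0003a81001600e8001d008008000800c0002003e0008100503))) 
(.lf (nat_lit 3491635273) (dlOf (nat_lit 1) (nat_lit 0x360008090001)))) 
(.lf (nat_lit 3624283209) (dlOf (nat_lit 1) (nat_lit 0x1d000400840008146082)))) (.nd (nat_lit 7) 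
(.nd (nat_lit 21) 
(.lf (nat_lit 4026933321) (dlOf (nat_lit 2) (nat_lit 0x5b0100000000800780080034002006200080d0c83))) 
(.lf (nat_lit 1881546825) (dlOf (nat_lit 4) (nat_lit 0x6a0e3003503d80053c1001b838c00d80f6000f70400720e3003903d8003d4100138008004400200120008f40603)))) 
(.lf (nat_lit 1745234633) (dlOf (nat_lit 1) (nat_lit 0x1800280e5801)))))) (.nd (nat_lit 27) 
(.nd (nat_lit 19) (.nd (nat_lit 28) 
(.lf (nat_lit 3288735817) (dlOf (nat_lit 2) (nat_lit 0x5b0100000000800780080034002006200080d0c83))) 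
(.nd (nat_lit 32) (.lf (nat_lit 1946558537) (dlOf (nat_lit 2) (nat_lit 0x12027000188180c1480))) 
(.lf (nat_lit 6241525833) (dlOf (nat_lit 3) (nat_lit 0x2001d0003a81001600e8001d008008000800c0002003e0008100503))))) 
(.nd (nat_lit 9) (.lf (nat_lit 2753437769) (dlOf (nat_lit 1) (nat_lit 0x360008090001))) 
(.lf (nat_lit 2752389705) (dlOf (nat_lit 2) (nat_lit 0x290440000000801d0008000400200420008018d03))))) 
(.nd (nat_lit 28) (.nd (nat_lit 7) (.nd (nat_lit 8) 
(.lf (nat_lit 4496695369) (dlOf (nat_lit 3) (nat_lit 0x80032000228100980110000d00801a8008010800200960008120503))) 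
(.lf (nat_lit 2886084425) (dlOf (nat_lit 1) (nat_lit 0x20028143e81)))) 
(.lf (nat_lit 738599113) (dlOf (nat_lit 1) (nat_lit 0x80080004002000200080c1b83)))) 
(.nd (nat_lit 8) (.nd (nat_lit 19) 
(.lf (nat_lit 1007034569) (dlOf (nat_lit 1) (nat_lit 0x420018150481))) 
(.lf (nat_lit 6377316553) (dlOf (nat_lit 1) (nat_lit 0x80080004002000200080c1b83)))) 
(.lf (nat_lit 473311689) (dlOf (nat_lit 1) (nat_lit 0x2000400060008e94e82)))))))) (.nd (nat_lit 6) 
(.nd (nat_lit 29) (.nd (nat_lit 21) (.nd (nat_lit 26) (.nd (nat_lit 19) (.nd (nat_lit 31) 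
(.nd (nat_lit 7) (.lf (nat_lit 4563804185) (dlOf (nat_lit 1) (nat_lit 0xac002002c00080e0502))) 
(.lf (nat_lit 134619545) (dlOf (nat_lit 2) (nat_lit 0x8203b003a0818090780)))) (.nd (nat_lit 30) 
(.lf (nat_lit 6442852377) (dlOf (nat_lit 2) (nat_lit 0x4029000200900008810014800800c0002001800081e0403))) 
(.lf (nat_lit 3221626905) (dlOf (nat_lit 4) (nat_lit 0x4405c0166f02002802e00a7a81000c028800280d40274208003400400140018160502))))) 
(.nd (nat_lit 9) (.lf (nat_lit 59645977) (dlOf (nat_lit 1) (nat_lit 0x40019820101))) 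
(.lf (nat_lit 1974809) (dlOf (nat_lit 1) (nat_lit 0xc00200060008150d82))))) (.nd (nat_lit 7) 
(.nd (nat_lit 19) (.nd (nat_lit 20) 
(.lf (nat_lit 1409687577) (dlOf (nat_lit 1) (nat_lit 0x400400040018070502))) 
(.lf (nat_lit 471212057) (dlOf (nat_lit 1) (nat_lit 0x100080018002001c00082c0683)))) 
(.lf (nat_lit 3557695513) (dlOf (nat_lit 5) (nat_lit 0x408e0001d020004047000701c8000701000080dc000280401c4070004e034003c0160000001801280080130002001800082b0483)))) 
(.nd (nat_lit 27) (.lf (nat_lit 4362477977) (dlOf (nat_lit 1) (nat_lit 0x1c00400020018090782))) 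
(.lf (nat_lit 201728409) (dlOf (nat_lit 2) (nat_lit 0x9a03b00673818090780)))))) (.nd (nat_lit 20) 
(.nd (nat_lit 19) (.nd (nat_lit 22) 
(.lf (nat_lit 44441625) (dlOf (nat_lit 1) (nat_lit 0x48008008000200080009310183))) 
(.lf (nat_lit 15081497) (dlOf (nat_lit 21) (nat_lit 0x3d695801584ab8109a3a801411d203e47d7000a3af80181ccc000be1c008d1d400407d70002f02015c4ac00a8255c05c11d402b67d700033998001742851c256034bd1d41a527d7000b3d601189d7c34c0e66000590c001a8ea00063998001601007023a803a8fae01bc7330002b8300034ac000da3a8002cfae001e75f00023998001542801fa3a8008cfae011c7d600ba3ea002f9d7c000a81404912b00254957012a475000123a4042cfae02a67d601733ea00451eb0022cf56025e75f00373af008a9ccc042ce6400443df000290e00634ac003f23a801e4fae00b67ac007a3af80261ccc000a21800092b000388ea00193eb800130180082560005d1d4000c7d600023ea00061d7c0010e66000e732000258700033998000e00803aa56002651d4012e7d700913af801c9ccc0006614001d2b000308ea00163eb80059d7c0006410003d2b000508ea00133eb800d9d7c000621001752b000d68ea005c3eb802d9d7c0150e66000300a00248ea00033eb800028100011f5c00008040048fae000020200be00287b0481))))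 
(.lf (nat_lit 23994393) (dlOf (nat_lit 1) (nat_lit 0x400400740008b80002)))) (.nd (nat_lit 7) 
(.nd (nat_lit 8) (.lf (nat_lit 62267417) (dlOf (nat_lit 1) (nat_lit 0x400200100009990182))) 
(.lf (nat_lit 20330777) (dlOf (nat_lit 1) (nat_lit 0x10004000800189dab02)))) 
(.lf (nat_lit 8270489) (dlOf (nat_lit 1) (nat_lit 0x60008002800200180008518c83)))))) 
(.nd (nat_lit 27) (.nd (nat_lit 28) (.nd (nat_lit 26) 
(.lf (nat_lit 537272345) (dlOf (nat_lit 1) (nat_lit 0x400400040018070502))) 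
(.lf (nat_lit 1678123033) (dlOf (nat_lit 6) (nat_lit 0x1502b00597008001013802a58040010026014fc02000801300a5001000f009800000080008008009800200300008190503)))) 
(.nd (nat_lit 7) (.nd (nat_lit 32) 
(.lf (nat_lit 805707801) (dlOf (nat_lit 6) (nat_lit 0x2027005a7008002004c02cc20400100260161002002a05600a7a81000f009800000080008008009800200300008190503))) 
(.lf (nat_lit 5100675097) (dlOf (nat_lit 1) (nat_lit 0x400400020008140182)))) 
(.lf (nat_lit 1879974041) (dlOf (nat_lit 1) (nat_lit 0x80018490181))))) (.nd (nat_lit 7) 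
(.nd (nat_lit 19) (.nd (nat_lit 26) 
(.lf (nat_lit 3892715545) (dlOf (nat_lit 2) (nat_lit 0x8802c005d40181d0480))) 
(.lf (nat_lit 3959824409) (dlOf (nat_lit 4) (nat_lit 0x5005c0165c02002202e00a7f81000c028800280d40270808003400400140018160502)))) 
(.lf (nat_lit 2819498009) (dlOf (nat_lit 5) (nat_lit 0x40880001c020004044000701b80006c1000080d4000260401c406c004e034003c0160000001801280080130002001800082b0483)))) 
(.nd (nat_lit 8) (.lf (nat_lit 1007558809) (dlOf (nat_lit 1) (nat_lit 0x80018490181))) 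
(.lf (nat_lit 4228260249) (dlOf (nat_lit 2) (nat_lit 0x9803200404818090780))))))) (.nd (nat_lit 7) 
(.nd (nat_lit 30) (.nd (nat_lit 20) (.nd (nat_lit 8) (.nd (nat_lit 9) 
(.lf (nat_lit 54927449) (dlOf (nat_lit 3) (nat_lit 0x64000000038100054e78000000800080080040002000a0009670703))) 
(.lf (nat_lit 42347097) (dlOf (nat_lit 2) (nat_lit 0xf84f40002604000400200020009245302)))) 
(.lf (nat_lit 23470425) (dlOf (nat_lit 1) (nat_lit 0x20028b80681)))) (.nd (nat_lit 24) 
(.lf (nat_lit 9838681) (dlOf (nat_lit 9) (nat_lit 0xa2ed0061073002b4376011819c0002b0400b20e6004586ec01bc338000550600561cc00140dd80014c100130780003c3b40004e04003c1e00001b8100b70e6005086ec02083380001306016c1cc009b0dd80398670000240c02f0398011c1bb00830ce00004018020800800d400200100008580683))) 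
(.lf (nat_lit 26615897) (dlOf (nat_lit 6) (nat_lit 0x1a40000002e02009a0000001601004eb3e8017d7b4000409c0002906001767d0001381000caf6800681380003608015c004000c0018c50802))))) 
(.nd (nat_lit 29) (.nd (nat_lit 27) 
(.lf (nat_lit 5637546073) (dlOf (nat_lit 9) (nat_lit 0x1001d0002b01000900e8001540800880600009c0400380300004c0200200180002201000100a0000c8080088074004402800720130001683000400000005c0800100080158002004e0008100683))) 
(.lf (nat_lit 1208361049) (dlOf (nat_lit 1) (nat_lit 0x4002000200080d1b82)))) (.nd (nat_lit 21) 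
(.lf (nat_lit 6241525849) (dlOf (nat_lit 9) (nat_lit 0x1001d0002b01000900e8001540800880600009c0400380300004c020020018000220100010098000c8080088074004402600720120001683000400000005c0800100080158002004e0008100683))) 
(.lf (nat_lit 1881546841) (dlOf (nat_lit 1) (nat_lit 0xa80008f40801)))))) (.nd (nat_lit 20) 
(.nd (nat_lit 8) (.nd (nat_lit 22) 
(.lf (nat_lit 1611014361) (dlOf (nat_lit 1) (nat_lit 0x200180c1901))) 
(.lf (nat_lit 21373145) (dlOf (nat_lit 1) (nat_lit 0xc0018a31c01)))) (.nd (nat_lit 26) 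
(.lf (nat_lit 134619609) (dlOf (nat_lit 1) (nat_lit 0x20018090b01))) 
(.lf (nat_lit 201728473) (dlOf (nat_lit 1) (nat_lit 0x20018090b01))))) (.nd (nat_lit 9) 
(.nd (nat_lit 26) 
(.lf (nat_lit 3493732569) (dlOf (nat_lit 2) (nat_lit 0x407e001d102000200181b0481))) 
(.lf (nat_lit 2755535065) (dlOf (nat_lit 2) (nat_lit 0x81300038a040084002001600081b0482)))) 
(.nd (nat_lit 11) (.lf (nat_lit 8270553) (dlOf (nat_lit 1) (nat_lit 0x8008000400200020008518c83))) 
(.lf (nat_lit 20331225) (dlOf (nat_lit 1) (nat_lit 0x200189db981))))))))) (.nd (nat_lit 26) 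
(.nd (nat_lit 4) (.nd (nat_lit 21) (.nd (nat_lit 30) (.nd (nat_lit 20) (.nd (nat_lit 22) 
(.nd (nat_lit 9) (.nd (nat_lit 27) 
(.lf (nat_lit 4563804201) (dlOf (nat_lit 11) (nat_lit 0x5c019001b80b40003a0800a4064000203100280168000701801680c8000360400b406400015020056032000a017001600b4000403a000110800580320006018801500b40001e0c000806200005020006033002b019000180c4003405c000401c0000205000e0188000040800080cc00c806400d00310002016000a007400000140418004010e00180e0a82))) 
(.lf (nat_lit 4698021929) (dlOf (nat_lit 2) (nat_lit 0x900c8009005a0001304000200080e0a01)))) 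
(.lf (nat_lit 134619689) (dlOf (nat_lit 2) (nat_lit 0xd404100000018090e00)))) (.nd (nat_lit 6) 
(.lf (nat_lit 12984361) (dlOf (nat_lit 8) (nat_lit 0x3a8f00006c08009d494005aa3c0001904000f5250000c010002a928002547800016080006a4a000f51e00005020007a9280002408000d4940006a3c0000804000c00186f0a81))) 
(.lf (nat_lit 21373417) (dlOf (nat_lit 2) (nat_lit 0x1ee2100017018a37300))))) (.nd (nat_lit 8) 
(.nd (nat_lit 19) (.lf (nat_lit 26615849) (dlOf (nat_lit 1) (nat_lit 0x60028c50301))) 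
(.lf (nat_lit 22945833) (dlOf (nat_lit 2) (nat_lit 0x14274000130200020008b40681)))) 
(.nd (nat_lit 6) (.lf (nat_lit 60173097) (dlOf (nat_lit 1) (nat_lit 0x40019845c01))) 
(.lf (nat_lit 43394025) (dlOf (nat_lit 1) (nat_lit 0x1e00192a2881)))))) (.nd (nat_lit 28) 
(.nd (nat_lit 27) (.nd (nat_lit 31) 
(.lf (nat_lit 5905981481) (dlOf (nat_lit 2) (nat_lit 0x150000000a00800d0008006400200400008170b03))) 
(.lf (nat_lit 3758497833) (dlOf (nat_lit 1) (nat_lit 0x9800400340018220802)))) (.nd (nat_lit 29) 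
(.lf (nat_lit 3355844649) (dlOf (nat_lit 20) (nat_lit 0x2f00c000f0030006600300d3000000158200368000000aa04098c060009a029001c0080001281802880c0000920401fc066015e03002fb01600bb80a40008a10028006000ea02c00520148001101800600c00164058008402900021830155018000108080c800c0000780400e4060000370203ce033026a018002a80a4096c030002e007025600181220000000641c062006603c0030019200c003e800c0658000000310a008a01800560000000c01003f00000005e040d8c03006c8000000168203600000000b0080fb006007f4000000170400080050000b01002400c000e80000002608007800400280008120682))) 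
(.lf (nat_lit 3892715561) (dlOf (nat_lit 2) (nat_lit 0x1e502a00ce00e0000a8080004004000c00081d0682))))) 
(.nd (nat_lit 6) (.lf (nat_lit 3490065705) (dlOf (nat_lit 1) (nat_lit 0x20018006801))) 
(.nd (nat_lit 7) (.lf (nat_lit 1346773097) (dlOf (nat_lit 1) (nat_lit 0x60029000a01))) 
(.lf (nat_lit 3490587113) (dlOf (nat_lit 4) (nat_lit 0x22089000170100060448000b40800b03000002a04001800200060008017302))))))) 
(.nd (nat_lit 24) (.nd (nat_lit 8) (.nd (nat_lit 6) 
(.lf (nat_lit 3022889) (dlOf (nat_lit 1) (nat_lit 0x400400020008200002))) (.nd (nat_lit 20) 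
(.nd (nat_lit 28) (.lf (nat_lit 2498665) (dlOf (nat_lit 1) (nat_lit 0x8c00400060008161402))) 
(.lf (nat_lit 1881546857) (dlOf (nat_lit 2) (nat_lit 0x283840000004002400200360008f40a02)))) 
(.lf (nat_lit 49684585) (dlOf (nat_lit 2) (nat_lit 0x230440006404000800400040019480a02))))) 
(.nd (nat_lit 6) (.lf (nat_lit 8267177) (dlOf (nat_lit 2) (nat_lit 0x3ced00047018513600))) 
(.nd (nat_lit 12) (.lf (nat_lit 3493732713) (dlOf (nat_lit 1) (nat_lit 0x200181b0701))) 
(.lf (nat_lit 8270185) (dlOf (nat_lit 1) (nat_lit 0x1c0028518381)))))) (.nd (nat_lit 6) 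
(.nd (nat_lit 7) (.nd (nat_lit 20) 
(.lf (nat_lit 28188713) (dlOf (nat_lit 1) (nat_lit 0x624004001e0008d70882))) 
(.lf (nat_lit 25042985) (dlOf (nat_lit 1) (nat_lit 0x18008000400200060008be0c03)))) 
(.lf (nat_lit 19804841) (dlOf (nat_lit 1) (nat_lit 0x80080004002000200089d8c83)))) (.nd (nat_lit 7) 
(.lf (nat_lit 19802985) (dlOf (nat_lit 1) (nat_lit 0x800289d5c01))) (.nd (nat_lit 12) 
(.lf (nat_lit 57027305) (dlOf (nat_lit 1) (nat_lit 0x40029795981))) 
(.lf (nat_lit 19806953) (dlOf (nat_lit 1) (nat_lit 0x200289db981)))))))) (.nd (nat_lit 30) 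
(.nd (nat_lit 19) (.nd (nat_lit 27) (.nd (nat_lit 22) 
(.lf (nat_lit 4563804217) (dlOf (nat_lit 1) (nat_lit 0x10004000c00080e1402))) 
(.lf (nat_lit 29761593) (dlOf (nat_lit 1) (nat_lit 0x8008011400200020008e30003)))) (.nd (nat_lit 6) 
(.nd (nat_lit 9) (.lf (nat_lit 4698021945) (dlOf (nat_lit 1) (nat_lit 0x10004000c00080e1402))) 
(.lf (nat_lit 134619705) (dlOf (nat_lit 2) (nat_lit 0x13c03100000018091000)))) 
(.lf (nat_lit 134619513) (dlOf (nat_lit 4) (nat_lit 0x180076007450200b603b0039f81001b01d801cdc081ba800800c000200420008090783))))) 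
(.nd (nat_lit 7) (.nd (nat_lit 22) 
(.lf (nat_lit 17702969) (dlOf (nat_lit 1) (nat_lit 0x8002000200088f1102))) 
(.lf (nat_lit 13508665) (dlOf (nat_lit 1) (nat_lit 0x40028730b81)))) (.nd (nat_lit 6) 
(.lf (nat_lit 3023033) (dlOf (nat_lit 1) (nat_lit 0x560028200381))) 
(.lf (nat_lit 19800569) (dlOf (nat_lit 1) (nat_lit 0x600189d1481)))))) (.nd (nat_lit 8) 
(.nd (nat_lit 27) (.nd (nat_lit 21) 
(.lf (nat_lit 4026933305) (dlOf (nat_lit 2) (nat_lit 0x128028002fa040030002002800080d0b82))) 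
(.lf (nat_lit 1881546809) (dlOf (nat_lit 1) (nat_lit 0x400200120008f40582)))) (.nd (nat_lit 29) 
(.lf (nat_lit 1208361017) (dlOf (nat_lit 1) (nat_lit 0x400180d0c81))) 
(.lf (nat_lit 3892715577) (dlOf (nat_lit 2) (nat_lit 0x12038000168181d0880))))) (.nd (nat_lit 19) 
(.nd (nat_lit 11) (.lf (nat_lit 1611014521) (dlOf (nat_lit 1) (nat_lit 0xc002000200080c5882))) 
(.lf (nat_lit 3490064761) (dlOf (nat_lit 1) (nat_lit 0x20018004e81)))) (.nd (nat_lit 6) 
(.lf (nat_lit 3490586937) (dlOf (nat_lit 1) (nat_lit 0x8008000400200020008014c03))) 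
(.lf (nat_lit 3490587129) (dlOf (nat_lit 14) (nat_lit 0x14089005288100100448029400800602240149e04003c11200a4602001c0890052281000f0448028f00800682240147604004411200a3a02001e08c00040458028d0100090230003411600a3304001c08c00080458028a8100080230002c11600a2904001e08c000a0458028a0100038008004000200080008017803)))))))) 
(.nd (nat_lit 27) (.nd (nat_lit 7) (.nd (nat_lit 19) (.nd (nat_lit 28) (.nd (nat_lit 4) 
(.lf (nat_lit 6509961257) (dlOf (nat_lit 2) (nat_lit 0x150000000a00800d0008006400200400008170b03))) 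
(.lf (nat_lit 3288735801) (dlOf (nat_lit 2) (nat_lit 0x1280280030a040030002002800080d0b82)))) 
(.nd (nat_lit 29) 
(.lf (nat_lit 1409687593) (dlOf (nat_lit 1) (nat_lit 0x18008000800200060008070883))) 
(.lf (nat_lit 1946558505) (dlOf (nat_lit 5) (nat_lit 0x3a0148000900800c00a400044040030052000200200040260000f8180c0c00))))) 
(.nd (nat_lit 8) (.nd (nat_lit 4) (.nd (nat_lit 20) 
(.lf (nat_lit 68034601) (dlOf (nat_lit 2) (nat_lit 0xd00cc000ac040014004001000083a0682))) 
(.lf (nat_lit 2755534889) (dlOf (nat_lit 4) (nat_lit 0x780fc0378804003c0a601b4e0200d6051001001f8000001005d000801dc002001000081b0003)))) 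
(.lf (nat_lit 2755534905) (dlOf (nat_lit 1) (nat_lit 0x200181b0001)))) (.nd (nat_lit 4) 
(.nd (nat_lit 6) (.lf (nat_lit 2754493225) (dlOf (nat_lit 1) (nat_lit 0x28004002800080fbc82))) 
(.lf (nat_lit 2755535209) (dlOf (nat_lit 2) (nat_lit 0x470288000d00801200080064002001c00081b0703)))) 
(.lf (nat_lit 2752389433) (dlOf (nat_lit 1) (nat_lit 0x8008000400200020008014c03)))))) 
(.nd (nat_lit 4) (.nd (nat_lit 8) (.nd (nat_lit 6) 
(.lf (nat_lit 69084329) (dlOf (nat_lit 1) (nat_lit 0x400188a2c01))) 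
(.lf (nat_lit 1410212073) (dlOf (nat_lit 1) (nat_lit 0x800281b0481)))) (.nd (nat_lit 9) 
(.lf (nat_lit 4362477993) (dlOf (nat_lit 4) (nat_lit 0x2cc06600e31020166033007178100b30198038b8080030008001c00200100008090783))) 
(.lf (nat_lit 2754493353) (dlOf (nat_lit 1) (nat_lit 0x600080fbd01))))) (.nd (nat_lit 6) 
(.nd (nat_lit 8) 
(.lf (nat_lit 2755535033) (dlOf (nat_lit 1) (nat_lit 0x80080004002000200081b0383))) 
(.lf (nat_lit 2752389561) (dlOf (nat_lit 1) (nat_lit 0x7b0008001800201020008017783)))) 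
(.lf (nat_lit 2752389625) (dlOf (nat_lit 7) (nat_lit 0xd810c0002f02004c0860001681000e0fc0000900800707e0000440400503f0000200200141f80013044000074100010008001c00200060008017e03)))))) 
(.nd (nat_lit 29) (.nd (nat_lit 4) (.nd (nat_lit 6) (.nd (nat_lit 7) (.nd (nat_lit 9) 
(.lf (nat_lit 4496695337) (dlOf (nat_lit 1) (nat_lit 0x70008007000200420008120283))) 
(.lf (nat_lit 201728553) (dlOf (nat_lit 2) (nat_lit 0xd404100000018090e00)))) 
(.lf (nat_lit 201728425) (dlOf (nat_lit 4) (nat_lit 0x3800ec019d40401c007600ce902003003b00670018090780)))) 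
(.nd (nat_lit 19) 
(.lf (nat_lit 4496695401) (dlOf (nat_lit 1) (nat_lit 0x88008008c00200a40008120783))) 
(.lf (nat_lit 470687849) (dlOf (nat_lit 1) (nat_lit 0x8008000400200020008150283))))) 
(.nd (nat_lit 9) (.nd (nat_lit 19) 
(.lf (nat_lit 2617647161) (dlOf (nat_lit 2) (nat_lit 0x18016000594080210008003400200240008130d83))) 
(.lf (nat_lit 470687801) (dlOf (nat_lit 1) (nat_lit 0x980080064002002e0008150003)))) 
(.lf (nat_lit 201728569) (dlOf (nat_lit 2) (nat_lit 0x13c03100000018091000))))) (.nd (nat_lit 4) 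
(.nd (nat_lit 7) (.nd (nat_lit 20) 
(.lf (nat_lit 3154518057) (dlOf (nat_lit 2) (nat_lit 0x8a01c0001500800680080010002001400081f0683))) 
(.lf (nat_lit 1008082985) (dlOf (nat_lit 1) (nat_lit 0x80080004002000200089c0203)))) 
(.nd (nat_lit 6) (.nd (nat_lit 10) 
(.lf (nat_lit 738599081) (dlOf (nat_lit 1) (nat_lit 0x80080004002000200080c1483))) 
(.lf (nat_lit 1009132713) (dlOf (nat_lit 1) (nat_lit 0x14004000c0009082c02)))) 
(.lf (nat_lit 6376270313) (dlOf (nat_lit 1) (nat_lit 0x400400020008094e82))))) (.nd (nat_lit 9) 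
(.nd (nat_lit 7) (.lf (nat_lit 4228260217) (dlOf (nat_lit 1) (nat_lit 0x160018090781))) 
(.lf (nat_lit 4228260089) (dlOf (nat_lit 1) (nat_lit 0x340008090481)))) (.nd (nat_lit 19) 
(.lf (nat_lit 6376794745) (dlOf (nat_lit 1) (nat_lit 0x18008003800200360008095403))) 
(.lf (nat_lit 6376270457) (dlOf (nat_lit 2) (nat_lit 0x1301d0000000800780080100002000c0008095403))))))))))) 
(.nd (nat_lit 4) (.nd (nat_lit 5) (.nd (nat_lit 18) (.nd (nat_lit 19) (.nd (nat_lit 28) 
(.nd (nat_lit 6) (.nd (nat_lit 22) (.nd (nat_lit 9) (.nd (nat_lit 20) 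
(.lf (nat_lit 5570207753) (dlOf (nat_lit 1) (nat_lit 0x100080018002000a0008080003))) 
(.lf (nat_lit 2752684041) (dlOf (nat_lit 14) (nat_lit 0x109300028426052020f007110181de87fc006c3fc05301e902820b4000b05780d2c2ba048215c00580ab01e085080118228051e0000004e0f001c11f0003884c0a5041e000c20303ce0ff814907f80aa83d201be1e800010ef800c06d00084364002e1af00170cf806805a00d402ba06ba15c03c50a1014a05040080268002812d002a08a000f80000012c5800b447c00082130289107802f080c019c40007781ff00bd0fa803087cc0a283d200e21df00180da000c06c8001435e001c19f026a0b4002785780d2c2ba01c015c007b0ab003805440008298074a14200460a0805204d0001025a000c114028b000000234d811307fc05142ba0008c04003c23e00031098145883c019c40600be20003c40ff805b07d401203e605221e9006c0ef802006c80a1c2d000c815e032c0ae8022055801142a2000414c039d0a1003484d000102280024000000429500cd1240001f4080628920000f804021c4900007a0201942480003a8100861240001d0080638920000e604021c4900007202011e24c000e124000000100c88008087000207e60008030483))))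 
(.nd (nat_lit 7) 
(.lf (nat_lit 2281873929) (dlOf (nat_lit 1) (nat_lit 0x80080160002004a00080a1483))) 
(.lf (nat_lit 3355616137) (dlOf (nat_lit 1) (nat_lit 0x15800080a2581))))) (.nd (nat_lit 21) 
(.nd (nat_lit 23) (.lf (nat_lit 21143561) (dlOf (nat_lit 1) (nat_lit 0x4a0018a10481))) 
(.lf (nat_lit 12754953) (dlOf (nat_lit 1) (nat_lit 0x80080014002000800086e0003)))) 
(.lf (nat_lit 56795145) (dlOf (nat_lit 1) (nat_lit 0x400400020009760082))))) (.nd (nat_lit 9) 
(.nd (nat_lit 8) (.nd (nat_lit 7) 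
(.lf (nat_lit 52600905) (dlOf (nat_lit 5) (nat_lit 0xd98240066c11005e5948002aca001914f600b2a69000a906004e6090039aca4001ee08013182400e8b290007a820005534000248080308008001400200180009550603))) 
(.lf (nat_lit 2755829961) (dlOf (nat_lit 1) (nat_lit 0x400181b0481)))) (.nd (nat_lit 11) 
(.lf (nat_lit 4362248521) (dlOf (nat_lit 1) (nat_lit 0x3000200060008014c02))) 
(.lf (nat_lit 2751641929) (dlOf (nat_lit 1) (nat_lit 0x9800800340020002000800ab83))))) 
(.nd (nat_lit 7) (.nd (nat_lit 10) 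
(.lf (nat_lit 4362248777) (dlOf (nat_lit 1) (nat_lit 0x60028018d01))) 
(.lf (nat_lit 2281879113) (dlOf (nat_lit 1) (nat_lit 0x200080a9c01)))) 
(.lf (nat_lit 3892493001) (dlOf (nat_lit 1) (nat_lit 0x2001815b981)))))) (.nd (nat_lit 29) 
(.nd (nat_lit 8) (.nd (nat_lit 32) (.nd (nat_lit 20) 
(.lf (nat_lit 268607497) (dlOf (nat_lit 1) (nat_lit 0xe800080b0a01))) 
(.lf (nat_lit 3490881545) (dlOf (nat_lit 14) (nat_lit 0x108d000283fc05201fa03bd0f6800d87b001c43c205301d402820b2000b05640d2c2b0048215700580a881e085080118228051e0000004e0f0021126800b8928005c474003822900070ff014a07e80f383da05241ec00060f081550750037c3a600021ca00180cf806805900d402b006ba15703c50a1014a05040080268002812d002a08a000f80000012c58006049a000a24a000e11d001688a400103fc05121fa00670f701de07b402f43c600bc1e100610ef0145075001c4394003019f026a0b20038056c013c2b2069615800e00ab803d85440008298074a14200460a0805204d0001025a000c114028b000000234d811307b405142b00008c04008024d001e114800187f80a2c3f400be1ee03c40f6805b078c019c3c200901de02910ea003607280a1c2c8008a15b00640ac8196056001102a2000414c039d0a1003484d000102280024000000429500cd1180001f40806288c0000f804021c4600007a0201942300003a8100861180001d00806388c0000e604021c4600007202011e234000e118000000100c88008087000207e60008030483))))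 
(.nd (nat_lit 9) 
(.lf (nat_lit 5704425481) (dlOf (nat_lit 1) (nat_lit 0x8008002000200080008070003))) 
(.lf (nat_lit 5637318153) (dlOf (nat_lit 1) (nat_lit 0x28800180d3681))))) (.nd (nat_lit 6) 
(.nd (nat_lit 7) (.lf (nat_lit 1344447753) (dlOf (nat_lit 1) (nat_lit 0x20028802f81))) 
(.lf (nat_lit 2617422729) (dlOf (nat_lit 1) (nat_lit 0x400080a9001)))) 
(.lf (nat_lit 473082313) (dlOf (nat_lit 2) (nat_lit 0x6086c002033200cb20400320018c94e81))))) 
(.nd (nat_lit 27) (.nd (nat_lit 7) (.nd (nat_lit 30) 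
(.lf (nat_lit 5100445705) (dlOf (nat_lit 1) (nat_lit 0x20018080001))) 
(.lf (nat_lit 6174187529) (dlOf (nat_lit 1) (nat_lit 0x100080018002000a0008080003)))) 
(.nd (nat_lit 6) 
(.lf (nat_lit 805482121) (dlOf (nat_lit 2) (nat_lit 0xe0000001c20400b000200020008117182))) 
(.lf (nat_lit 805480905) (dlOf (nat_lit 1) (nat_lit 0x20400200420008114e82))))) (.nd (nat_lit 8) 
(.nd (nat_lit 9) 
(.lf (nat_lit 6308405257) (dlOf (nat_lit 1) (nat_lit 0x8008002000200080008070003))) 
(.lf (nat_lit 2013439497) (dlOf (nat_lit 2) (nat_lit 0x30130001a8080048008001000200080008093683)))) 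
(.nd (nat_lit 6) 
(.lf (nat_lit 3154295561) (dlOf (nat_lit 1) (nat_lit 0x758008000400200f6000815b983))) 
(.lf (nat_lit 4228030793) (dlOf (nat_lit 1) (nat_lit 0x3000200060008014c02)))))))) 
(.nd (nat_lit 21) (.nd (nat_lit 26) (.nd (nat_lit 20) (.nd (nat_lit 22) (.nd (nat_lit 27) 
(.lf (nat_lit 3221921801) (dlOf (nat_lit 1) (nat_lit 0x1200081b0001))) 
(.lf (nat_lit 134914057) (dlOf (nat_lit 1) (nat_lit 0x200180e0001)))) (.nd (nat_lit 23) 
(.lf (nat_lit 21667849) (dlOf (nat_lit 1) (nat_lit 0x80028a60a01))) 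
(.lf (nat_lit 13279241) (dlOf (nat_lit 1) (nat_lit 0x120028710581))))) (.nd (nat_lit 6) 
(.nd (nat_lit 7) (.lf (nat_lit 10133513) (dlOf (nat_lit 1) (nat_lit 0x200285b0481))) 
(.lf (nat_lit 60465289) (dlOf (nat_lit 1) (nat_lit 0x1400400020019870f02)))) 
(.lf (nat_lit 10133577) (dlOf (nat_lit 3) (nat_lit 0x21df00004c040044ef80002202000200085b0881))))) 
(.nd (nat_lit 27) (.nd (nat_lit 28) 
(.lf (nat_lit 67805193) (dlOf (nat_lit 1) (nat_lit 0xc004000200182f0582))) 
(.lf (nat_lit 3557466121) (dlOf (nat_lit 1) (nat_lit 0x120028210001)))) (.nd (nat_lit 6) 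
(.nd (nat_lit 29) (.lf (nat_lit 202022921) (dlOf (nat_lit 1) (nat_lit 0x200180e0001))) 
(.lf (nat_lit 3960119305) (dlOf (nat_lit 1) (nat_lit 0x1200081b0001)))) 
(.lf (nat_lit 4228554825) (dlOf (nat_lit 2) (nat_lit 0x2032000080180f1480)))))) (.nd (nat_lit 20) 
(.nd (nat_lit 6) (.nd (nat_lit 26) 
(.lf (nat_lit 3492454409) (dlOf (nat_lit 16) (nat_lit 0x1588d00013e04039846807061ed00e20ea0128856005002ae00c8142004409180218000000fa2001ac49a03ec24600fc11a002108a4065c3f403e41ee03ac0f680f9078c07d83c203061de00930ea00998728008433e007a16a006e0b30094059001082b603e815902670ac0052054407d829802bc14201f409a003784b402a0246015411d00a708a0001f0d802108d0000f60403784680007a0201d023403910f680548750091c2b0006814200260000001d43004088d0000e804039446807201ed00730ea01210560000e6100144468000720200ba2340001a01007911a0000c00802988d00005e040210468000210201bc2340000e81009a11a0000000811c8008058400209aa00080d0483))) 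
(.lf (nat_lit 2754256905) (dlOf (nat_lit 16) (nat_lit 0x1589300013e04039849807061ff00e20f48128857405002b800c8142004409380218000000fa2003f0498008423e019710780fb080c07c840007581ff01f20fa80c187cc024c3d202661df00210da003586c807d835600dc16a01280b4001e858807d02bc04ce15d00a40ab0021054407d829802bc14201f409a003784b402a024e015411d00a708a0001f0d80210930000f60403784980007a0201d024c03910ff805487a4091c2ba006814200260000001d4300408930000e804039449807201ff00730f481210574000e6100144498000720200ba24c000170100791260000ac080298930000540402104980001c0201bc24c0000c01009a1260000000811c8008058400209aa00080d0483)))) 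
(.nd (nat_lit 26) 
(.lf (nat_lit 3492454473) (dlOf (nat_lit 2) (nat_lit 0x1401eb001b0f1800f874800642800001708000200280d0c81))) 
(.lf (nat_lit 2754256969) (dlOf (nat_lit 2) (nat_lit 0x1401fd001b0fa800f879c00642800001708000200280d0c81))))) 
(.nd (nat_lit 8) (.nd (nat_lit 9) (.nd (nat_lit 24) 
(.lf (nat_lit 45785097) (dlOf (nat_lit 1) (nat_lit 0x20019360001))) 
(.lf (nat_lit 29007881) (dlOf (nat_lit 1) (nat_lit 0xc00400020008da0002)))) 
(.lf (nat_lit 473604617) (dlOf (nat_lit 1) (nat_lit 0x40028f68001)))) (.nd (nat_lit 6) 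
(.lf (nat_lit 8042377) (dlOf (nat_lit 1) (nat_lit 0x40020002000851a302))) 
(.lf (nat_lit 20622153) (dlOf (nat_lit 1) (nat_lit 0x200189d5c01)))))))) (.nd (nat_lit 6) 
(.nd (nat_lit 21) (.nd (nat_lit 29) (.nd (nat_lit 22) (.nd (nat_lit 28) (.nd (nat_lit 7) 
(.lf (nat_lit 1074176009) (dlOf (nat_lit 7) (nat_lit 0x120290004f81001b0148001f40801a00a4000f80400600520007502002c029000398100080148001c80800080080028002000600080d0483))) 
(.lf (nat_lit 8828809) (dlOf (nat_lit 1) (nat_lit 0x800800040020002000851a303)))) (.nd (nat_lit 20) 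
(.nd (nat_lit 27) 
(.lf (nat_lit 4563836937) (dlOf (nat_lit 5) (nat_lit 0xc100b00197404031c05800c9e02011602c0064e81002b018814280b0000000800bc00400c400080f0a02))) 
(.lf (nat_lit 4698054665) (dlOf (nat_lit 5) (nat_lit 0xc100b000e2204031c058006f502011602c0037a01002b018814280b0000000800bc00400c400080f0a02)))) 
(.lf (nat_lit 1343660041) (dlOf (nat_lit 1) (nat_lit 0x4004000200082e0002))))) (.nd (nat_lit 20) 
(.nd (nat_lit 7) (.nd (nat_lit 23) 
(.lf (nat_lit 3494289417) (dlOf (nat_lit 1) (nat_lit 0x6000081f0681))) 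
(.lf (nat_lit 13017097) (dlOf (nat_lit 1) (nat_lit 0x8c00086f0001)))) 
(.lf (nat_lit 38185353) (dlOf (nat_lit 1) (nat_lit 0x80029134e81)))) (.nd (nat_lit 23) 
(.lf (nat_lit 22454281) (dlOf (nat_lit 3) (nat_lit 0x65850007b80801cac3c002f0040024002001e0008ae0482))) 
(.lf (nat_lit 30842889) (dlOf (nat_lit 2) (nat_lit 0x34c9000270080040008003c00200020008e50583)))))) 
(.nd (nat_lit 30) (.nd (nat_lit 10) (.nd (nat_lit 22) (.nd (nat_lit 27) 
(.lf (nat_lit 3020333065) (dlOf (nat_lit 1) (nat_lit 0x8008000400200020008250003))) 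
(.lf (nat_lit 738631689) (dlOf (nat_lit 4) (nat_lit 0x140b00191102000204e000b01b805cbc10002812c022b004006c004000800080c0002)))) 
(.lf (nat_lit 2756091913) (dlOf (nat_lit 1) (nat_lit 0x6000081f0681)))) 
(.lf (nat_lit 2751898633) (dlOf (nat_lit 1) (nat_lit 0x400200020008002882)))) (.nd (nat_lit 7) 
(.nd (nat_lit 26) 
(.lf (nat_lit 1611046921) (dlOf (nat_lit 4) (nat_lit 0x140b001c5e02000204e000b01b80574410002812c022ca04006c004000800080c0002))) 
(.lf (nat_lit 1946591241) (dlOf (nat_lit 7) (nat_lit 0x120290004f81001b0148001f40801a00a4000f80400600520007502002c029000398100080148001c80800080080028002000600080d0483)))) 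
(.nd (nat_lit 27) (.lf (nat_lit 1678156169) (dlOf (nat_lit 1) (nat_lit 0x4004000200181a0782))) 
(.lf (nat_lit 3959857545) (dlOf (nat_lit 2) (nat_lit 0x1011801d4804000800200040008170782))))))) 
(.nd (nat_lit 7) (.nd (nat_lit 10) (.nd (nat_lit 9) (.nd (nat_lit 19) 
(.lf (nat_lit 27697161) (dlOf (nat_lit 2) (nat_lit 0x1596e00b830200040018d10281))) 
(.lf (nat_lit 28221449) (dlOf (nat_lit 1) (nat_lit 0x400400020008d70282)))) 
(.lf (nat_lit 1345235465) (dlOf (nat_lit 1) (nat_lit 0x400200020008b05002)))) (.nd (nat_lit 8) 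
(.lf (nat_lit 472818697) (dlOf (nat_lit 1) (nat_lit 0x20018b02881))) 
(.lf (nat_lit 8305929) (dlOf (nat_lit 1) (nat_lit 0x1a002851c601))))) (.nd (nat_lit 22) 
(.nd (nat_lit 19) 
(.lf (nat_lit 3580041) (dlOf (nat_lit 1) (nat_lit 0x148008000400200360008200103))) 
(.lf (nat_lit 12492937) (dlOf (nat_lit 1) (nat_lit 0x8008000c002000200086c0103)))) (.nd (nat_lit 8) 
(.lf (nat_lit 24027273) (dlOf (nat_lit 1) (nat_lit 0x8008000400200020008b80103))) 
(.lf (nat_lit 8298889) (dlOf (nat_lit 1) (nat_lit 0x400200020008511002))))))) (.nd (nat_lit 7) 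
(.nd (nat_lit 9) (.nd (nat_lit 8) (.nd (nat_lit 20) 
(.lf (nat_lit 2819006537) (dlOf (nat_lit 3) (nat_lit 0x1c0e400035020304072004001f80005c10056000800b800200d80008150683))) 
(.lf (nat_lit 26648649) (dlOf (nat_lit 1) (nat_lit 0x20018c50681)))) 
(.lf (nat_lit 537829705) (dlOf (nat_lit 3) (nat_lit 0x903a80012c0802d80000008004006c002001a00081b0602)))) 
(.nd (nat_lit 11) (.nd (nat_lit 26) 
(.lf (nat_lit 537305673) (dlOf (nat_lit 1) (nat_lit 0x17000200f80008091182))) 
(.lf (nat_lit 1409720905) (dlOf (nat_lit 1) (nat_lit 0x17000200f80008091182)))) (.nd (nat_lit 8) 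
(.nd (nat_lit 26) (.lf (nat_lit 1344711241) (dlOf (nat_lit 1) (nat_lit 0x800400060008985202))) 
(.lf (nat_lit 472296009) (dlOf (nat_lit 2) (nat_lit 0x105340000004000c002000e0008985202)))) 
(.lf (nat_lit 54438729) (dlOf (nat_lit 1) (nat_lit 0x60029655c01)))))) (.nd (nat_lit 28) 
(.nd (nat_lit 20) (.nd (nat_lit 19) 
(.lf (nat_lit 738631881) (dlOf (nat_lit 2) (nat_lit 0x801f8000000800180080030002000c00080c1b83))) 
(.lf (nat_lit 537829577) (dlOf (nat_lit 1) (nat_lit 0x200181b0481)))) (.nd (nat_lit 8) 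
(.lf (nat_lit 18784457) (dlOf (nat_lit 1) (nat_lit 0x400200020008970482))) 
(.lf (nat_lit 35563977) (dlOf (nat_lit 1) (nat_lit 0x4a0019014e81))))) (.nd (nat_lit 8) 
(.nd (nat_lit 20) 
(.lf (nat_lit 5772320969) (dlOf (nat_lit 1) (nat_lit 0x80080014002001c0008090803))) 
(.lf (nat_lit 5773369545) (dlOf (nat_lit 1) (nat_lit 0x4002000200080c1782)))) (.nd (nat_lit 19) 
(.lf (nat_lit 3624313289) (dlOf (nat_lit 1) (nat_lit 0x8008004800200180008157103))) 
(.lf (nat_lit 5772321225) (dlOf (nat_lit 8) (nat_lit 0x24a13e012209880a704c00002e0c034c27c020c1310000b0200f109f007b84c40002208031827c020c131000080200f309f007b84c4000080800bc27c02141310000102010909f008b04c40000008013c00200220008091102))))))))) 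
(.nd (nat_lit 26) (.nd (nat_lit 19) (.nd (nat_lit 28) (.nd (nat_lit 23) (.nd (nat_lit 6) 
(.nd (nat_lit 32) (.nd (nat_lit 9) 
(.lf (nat_lit 2147655721) (dlOf (nat_lit 3) (nat_lit 0x48064001c02c001200a0001783003c00b0000b80800100080014002000200080b0383))) 
(.lf (nat_lit 537305641) (dlOf (nat_lit 1) (nat_lit 0x40008090e01)))) (.nd (nat_lit 7) 
(.lf (nat_lit 6039969833) (dlOf (nat_lit 1) (nat_lit 0x58008002c00200160008080603))) 
(.lf (nat_lit 4832010409) (dlOf (nat_lit 1) (nat_lit 0x8008000400200020008081483))))) 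
(.nd (nat_lit 7) (.lf (nat_lit 52600937) (dlOf (nat_lit 1) (nat_lit 0x18002000e0009550a02))) 
(.nd (nat_lit 10) (.lf (nat_lit 174569) (dlOf (nat_lit 1) (nat_lit 0x20028004e81))) 
(.lf (nat_lit 1610786281) (dlOf (nat_lit 1) (nat_lit 0x400400020008093602)))))) (.nd (nat_lit 9) 
(.nd (nat_lit 18) (.nd (nat_lit 20) 
(.lf (nat_lit 29532201) (dlOf (nat_lit 3) (nat_lit 0x2400000023008012800000116040018002001a0008e10782))) 
(.lf (nat_lit 30580777) (dlOf (nat_lit 1) (nat_lit 0x718008004000200120008e40d83)))) 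
(.nd (nat_lit 20) 
(.lf (nat_lit 13017129) (dlOf (nat_lit 8) (nat_lit 0x28c7e001a6280000d82001731f800d98a00008b720001906001863f0000c01000931f800118a000016080010c7e0000a02001063f00093140000241000598fc0034c500000804000200186f0a81))) 
(.lf (nat_lit 30842921) (dlOf (nat_lit 1) (nat_lit 0x8008000400200020008e50b03))))) 
(.nd (nat_lit 11) (.nd (nat_lit 7) 
(.lf (nat_lit 11706921) (dlOf (nat_lit 1) (nat_lit 0x1600186c0e01))) 
(.lf (nat_lit 8562601) (dlOf (nat_lit 1) (nat_lit 0x5a0028514301)))) (.nd (nat_lit 20) 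
(.lf (nat_lit 58894889) (dlOf (nat_lit 1) (nat_lit 0x80080350002005400097e5183))) 
(.lf (nat_lit 59943465) (dlOf (nat_lit 1) (nat_lit 0x20029845181))))))) (.nd (nat_lit 27) 
(.nd (nat_lit 6) (.nd (nat_lit 18) (.nd (nat_lit 22) 
(.lf (nat_lit 6711058473) (dlOf (nat_lit 1) (nat_lit 0x1c20008060c81))) 
(.lf (nat_lit 1346543657) (dlOf (nat_lit 1) (nat_lit 0x280080004002000e0008fb0a83)))) 
(.lf (nat_lit 4563836969) (dlOf (nat_lit 5) (nat_lit 0x20148000980804f00b000040040064062012802c0000d820006014800000080120008001c002010c00080f0c83)))) 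
(.nd (nat_lit 8) (.lf (nat_lit 2416356585) (dlOf (nat_lit 1) (nat_lit 0xc004000200180f6502))) 
(.lf (nat_lit 1342349801) (dlOf (nat_lit 3) (nat_lit 0x8714000a804008839e00101cd000d0e5800e87140008a10007000400100018017302))))) 
(.nd (nat_lit 8) (.nd (nat_lit 6) (.nd (nat_lit 9) 
(.lf (nat_lit 4698054697) (dlOf (nat_lit 5) (nat_lit 0x20148000900804f00b000040040064062012802c0000d820006014800000080120008001c002010c00080f0c83))) 
(.lf (nat_lit 2013439529) (dlOf (nat_lit 1) (nat_lit 0x800800b0002006a0008093703)))) 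
(.lf (nat_lit 2013439593) (dlOf (nat_lit 1) (nat_lit 0x800400020008093902)))) (.nd (nat_lit 9) 
(.lf (nat_lit 2013439273) (dlOf (nat_lit 1) (nat_lit 0x400400020008093182))) 
(.lf (nat_lit 5771537193) (dlOf (nat_lit 1) (nat_lit 0x20028005c01))))))) (.nd (nat_lit 7) 
(.nd (nat_lit 18) (.nd (nat_lit 20) (.nd (nat_lit 27) (.nd (nat_lit 28) 
(.lf (nat_lit 3221921833) (dlOf (nat_lit 3) (nat_lit 0x8401780005c0801080d40000004008c004005000081b0582))) 
(.lf (nat_lit 806002729) (dlOf (nat_lit 2) (nat_lit 0x340ac000290200020018210581)))) 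
(.lf (nat_lit 134914089) (dlOf (nat_lit 1) (nat_lit 0x58002003e00080e0582)))) (.nd (nat_lit 23) 
(.lf (nat_lit 3842089) (dlOf (nat_lit 6) (nat_lit 0x712fc0003604000498e00084bd0009254000512580001610001098e003e4bd0022254001012580001410000498e000e4bd0018254000c92580001210008897a00444a8002124b000020180040008003000200060008230a83))) 
(.lf (nat_lit 29007913) (dlOf (nat_lit 1) (nat_lit 0xac00403520018da0002))))) (.nd (nat_lit 6) 
(.nd (nat_lit 21) (.lf (nat_lit 22978601) (dlOf (nat_lit 1) (nat_lit 0xc00200060008b40682))) 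
(.lf (nat_lit 16687145) (dlOf (nat_lit 1) (nat_lit 0xc00288d0801)))) (.nd (nat_lit 9) 
(.lf (nat_lit 3055977) (dlOf (nat_lit 1) (nat_lit 0x20018200701))) 
(.lf (nat_lit 8300393) (dlOf (nat_lit 1) (nat_lit 0x60018514001)))))) (.nd (nat_lit 6) 
(.nd (nat_lit 10) (.nd (nat_lit 9) (.nd (nat_lit 20) 
(.lf (nat_lit 5772320937) (dlOf (nat_lit 1) (nat_lit 0x1400200120008090602))) 
(.lf (nat_lit 20881577) (dlOf (nat_lit 1) (nat_lit 0x600189e2c81)))) 
(.lf (nat_lit 19837609) (dlOf (nat_lit 1) (nat_lit 0x4002000200089d8c82)))) (.nd (nat_lit 8) 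
(.lf (nat_lit 58369193) (dlOf (nat_lit 7) (nat_lit 0x526a00016c08005164c00309cc0005a04000267e0002481001c2728000cc08003139401309a600023040002592004c26980007c1001580080030002004000097e2c03))) 
(.lf (nat_lit 8299945) (dlOf (nat_lit 1) (nat_lit 0x400200020008513602))))) (.nd (nat_lit 9) 
(.nd (nat_lit 27) 
(.lf (nat_lit 3490619881) (dlOf (nat_lit 3) (nat_lit 0x24c1ae0002e02013c0d700016818017300))) 
(.lf (nat_lit 5772321257) (dlOf (nat_lit 2) (nat_lit 0x38232001c10c00016028091300)))) 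
(.nd (nat_lit 18) (.lf (nat_lit 36348905) (dlOf (nat_lit 1) (nat_lit 0x20019072881))) 
(.lf (nat_lit 3492717545) (dlOf (nat_lit 1) (nat_lit 0x4002000200080f2882)))))))) (.nd (nat_lit 27) 
(.nd (nat_lit 11) (.nd (nat_lit 28) (.nd (nat_lit 19) (.nd (nat_lit 29) 
(.lf (nat_lit 67280937) (dlOf (nat_lit 2) (nat_lit 0xd00fc000ac04001400400100008090682))) 
(.lf (nat_lit 4899119145) (dlOf (nat_lit 1) (nat_lit 0x1c0018080281)))) (.nd (nat_lit 29) 
(.lf (nat_lit 4362772521) (dlOf (nat_lit 7) (nat_lit 0xa02b0002b8100330158001500800280ac000a60400140560003702000c02b0001981000e0158000c80801e0008004c002002800080f0d03))) 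
(.lf (nat_lit 1678417961) (dlOf (nat_lit 2) (nat_lit 0x340ac000290200020018210581))))) 
(.nd (nat_lit 7) (.nd (nat_lit 8) 
(.lf (nat_lit 1409720873) (dlOf (nat_lit 1) (nat_lit 0x40008090e01))) 
(.lf (nat_lit 872588585) (dlOf (nat_lit 1) (nat_lit 0x1800800c400200fa0008093183)))) 
(.nd (nat_lit 6) (.lf (nat_lit 4095123625) (dlOf (nat_lit 1) (nat_lit 0x40018062c81))) 
(.lf (nat_lit 872588521) (dlOf (nat_lit 1) (nat_lit 0x20028092e81)))))) (.nd (nat_lit 7) 
(.nd (nat_lit 6) (.nd (nat_lit 9) 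
(.lf (nat_lit 2751641897) (dlOf (nat_lit 1) (nat_lit 0x5c001800ab81))) 
(.lf (nat_lit 604416809) (dlOf (nat_lit 9) (nat_lit 0x2c810c00e00740050037005b01a002d00a80164040002330c007a043002c01d000900dc00f8068002e02a003d0100008c430052010c013007a00fe03a008a01b804e80d001c0054013c020008a00a0047003002140120132000001178b000b010001180500018018003a00900350000008b428002005000446040060028002a00c000f982000100a0007c00800300800000004001400400100018205c02)))) 
(.nd (nat_lit 8) 
(.lf (nat_lit 3020078185) (dlOf (nat_lit 1) (nat_lit 0x2000800080020006000812c083))) 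
(.lf (nat_lit 1141025641) (dlOf (nat_lit 1) (nat_lit 0x400400020008095c02))))) (.nd (nat_lit 8) 
(.nd (nat_lit 10) 
(.lf (nat_lit 1677895913) (dlOf (nat_lit 2) (nat_lit 0x40000000160200140008114b01))) 
(.lf (nat_lit 2754784489) (dlOf (nat_lit 1) (nat_lit 0x200280f6501)))) 
(.lf (nat_lit 1141025257) (dlOf (nat_lit 1) (nat_lit 0x8008000400200020008094e83)))))) 
(.nd (nat_lit 19) (.nd (nat_lit 8) (.nd (nat_lit 29) (.nd (nat_lit 18) 
(.lf (nat_lit 1275240489) (dlOf (nat_lit 3) (nat_lit 0x48064001c02c001200a0001903003c00b0000c40800100080014002000200080b0383))) 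
(.lf (nat_lit 4496728105) (dlOf (nat_lit 1) (nat_lit 0x100028160481)))) (.nd (nat_lit 9) 
(.lf (nat_lit 6107078697) (dlOf (nat_lit 1) (nat_lit 0x1c20008060c81))) 
(.lf (nat_lit 1007856169) (dlOf (nat_lit 1) (nat_lit 0x8008000400200020008805183))))) 
(.nd (nat_lit 6) (.lf (nat_lit 469934377) (dlOf (nat_lit 1) (nat_lit 0x1800200080008014602))) 
(.nd (nat_lit 7) (.nd (nat_lit 9) 
(.lf (nat_lit 4228030825) (dlOf (nat_lit 1) (nat_lit 0x1c00080118002001c0008015203))) 
(.lf (nat_lit 3959596905) (dlOf (nat_lit 1) (nat_lit 0x40018114001)))) 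
(.lf (nat_lit 4228030953) (dlOf (nat_lit 13) (nat_lit 0x6c0420003401002402b021b813c104409a0074042009101e010200e8017c0720ad402a01460140194808001c00280006716015a05600810288080814010e009e081c04d003e021004780f0012c07603ee03a009c01c803000d0013c05e000a02e005f01682c300a800100500382022038501000998068023c0280006628006c042000328100020210001280801d81080008a0400840840004202080a04f003702102c500a8003c044000410803c605601a60288105814010c809e074804e0406026802a812000f8084018a03c01e401d813900e80374072037603400ff01980c300bc15cc054074602901ae0140077009c0ff40440126020017400d006880500007e5c00d80840003d02007a04d00005810036021000000081bd00080d200021e7a0008017303)))))) 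
(.nd (nat_lit 21) (.nd (nat_lit 28) (.nd (nat_lit 29) 
(.lf (nat_lit 202022953) (dlOf (nat_lit 1) (nat_lit 0x58002003e00080e0582))) 
(.lf (nat_lit 3960119337) (dlOf (nat_lit 3) (nat_lit 0x8401780005c0801080d40000004008c004005000081b0582)))) 
(.nd (nat_lit 30) 
(.lf (nat_lit 3154812969) (dlOf (nat_lit 9) (nat_lit 0x620000002a0100a102b805100dc029806c00fa021006d0100036807c02e80320168018000d005004b802400062280084032000300200d2057006a01b803700d80104040008401f008e00c804280600005e1c017c03e01380180000e02008f00c00005408042015c013c06e00d8020006d00f805c806402d4030005c0090000887001900c0000400803d800801ac00204020008330b03))) 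
(.lf (nat_lit 4228554793) (dlOf (nat_lit 9) (nat_lit 0x13602a0002b81004d0150001580803000a8000aa0405600540005402000a02a0002981004c0150000d40803200a8000680402980540003302001e00280f0c01))))) 
(.nd (nat_lit 6) (.nd (nat_lit 9) 
(.lf (nat_lit 472555561) (dlOf (nat_lit 1) (nat_lit 0x80080004002004400089c0203))) 
(.lf (nat_lit 473604649) (dlOf (nat_lit 4) (nat_lit 0x102360007602000211b0003a81000508d8000000800e80080018002000a0008f68903)))) 
(.lf (nat_lit 472819049) (dlOf (nat_lit 1) (nat_lit 0x4004003c0008b03482))))))))) (.nd (nat_lit 5) 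
(.nd (nat_lit 18) (.nd (nat_lit 6) (.nd (nat_lit 19) (.nd (nat_lit 26) (.nd (nat_lit 21) 
(.nd (nat_lit 7) (.nd (nat_lit 27) 
(.lf (nat_lit 6711058457) (dlOf (nat_lit 3) (nat_lit 0x20058001402a000c01400080028033682000400140193204000400400020008060a02))) 
(.lf (nat_lit 4160921625) (dlOf (nat_lit 2) (nat_lit 0x1000480013a04001c00400200018090482)))) 
(.lf (nat_lit 5637318041) (dlOf (nat_lit 1) (nat_lit 0x200180d3601)))) (.nd (nat_lit 7) 
(.nd (nat_lit 22) (.lf (nat_lit 10657817) (dlOf (nat_lit 1) (nat_lit 0x36000401e80008610482))) 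
(.lf (nat_lit 23240729) (dlOf (nat_lit 1) (nat_lit 0x8008000400200020008b70503)))) 
(.lf (nat_lit 3317913) (dlOf (nat_lit 1) (nat_lit 0x3a0008200181))))) (.nd (nat_lit 8) 
(.nd (nat_lit 10) (.nd (nat_lit 28) 
(.lf (nat_lit 2885853209) (dlOf (nat_lit 3) (nat_lit 0x25406000d402f0043017002380b400d0048007e01a003600c0027805c00f80260070011001f0060027802c013000a0098002004f0000076a87803a80c000e005e00a402e004300d001f006000fc026005c011003a00280278008013800001da814009a00180b0001))) 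
(.lf (nat_lit 4764901401) (dlOf (nat_lit 3) (nat_lit 0x280580048028000a005006fe03000600b0003001401bf6080004004000a0008060a02)))) 
(.lf (nat_lit 1141025817) (dlOf (nat_lit 2) (nat_lit 0x880980005e040004004000e0018096002)))) 
(.nd (nat_lit 7) (.nd (nat_lit 27) 
(.lf (nat_lit 5435990297) (dlOf (nat_lit 1) (nat_lit 0x20018090a81))) 
(.lf (nat_lit 738369817) (dlOf (nat_lit 2) (nat_lit 0x2003000e0018090a80)))) (.nd (nat_lit 28) 
(.lf (nat_lit 4362248601) (dlOf (nat_lit 2) (nat_lit 0x3202d00219818016880))) 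
(.lf (nat_lit 5704425881) (dlOf (nat_lit 3) (nat_lit 0x220190009004803044100080060014f60400c000400380008076482))))))) 
(.nd (nat_lit 27) (.nd (nat_lit 21) (.nd (nat_lit 30) (.nd (nat_lit 22) 
(.lf (nat_lit 42639385) (dlOf (nat_lit 1) (nat_lit 0x400400020009260102))) 
(.lf (nat_lit 21667865) (dlOf (nat_lit 1) (nat_lit 0x1800400020008a60a02)))) (.nd (nat_lit 20) 
(.lf (nat_lit 3221921817) (dlOf (nat_lit 2) (nat_lit 0x1240a2008a035000078281b0400))) 
(.lf (nat_lit 1343922201) (dlOf (nat_lit 11) (nat_lit 0x604c000301e00009c080014130000c0780002682000110300011808003026000140f00004304000c098000603c00010810001023800080040018130000c0780001f02000604c000301e000078080018130000c0780001d82000604c000301e00006e08000400400180018380902))))) 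
(.nd (nat_lit 22) (.nd (nat_lit 26) 
(.lf (nat_lit 3492454425) (dlOf (nat_lit 2) (nat_lit 0x1087a800000040004004002e00080d0882))) 
(.lf (nat_lit 2754256921) (dlOf (nat_lit 2) (nat_lit 0x1087f000000040004004002e00080d0882)))) 
(.nd (nat_lit 9) (.lf (nat_lit 49980441) (dlOf (nat_lit 1) (nat_lit 0x200194c2881))) 
(.lf (nat_lit 23765529) (dlOf (nat_lit 1) (nat_lit 0x400200020008b80d82)))))) (.nd (nat_lit 26) 
(.nd (nat_lit 28) (.lf (nat_lit 134914073) (dlOf (nat_lit 1) (nat_lit 0x78002007600080e0402))) 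
(.lf (nat_lit 5772058649) (dlOf (nat_lit 1) (nat_lit 0x20008001400200140008060a03)))) 
(.nd (nat_lit 20) (.nd (nat_lit 29) 
(.lf (nat_lit 202022937) (dlOf (nat_lit 1) (nat_lit 0x78002007600080e0402))) 
(.lf (nat_lit 3960119321) (dlOf (nat_lit 2) (nat_lit 0x1240a2008a035000078281b0400)))) 
(.lf (nat_lit 471506969) (dlOf (nat_lit 1) (nat_lit 0x400400020008320582))))))) (.nd (nat_lit 7) 
(.nd (nat_lit 8) (.nd (nat_lit 27) (.nd (nat_lit 19) (.nd (nat_lit 20) 
(.lf (nat_lit 2147655769) (dlOf (nat_lit 1) (nat_lit 0x800280b0701))) 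
(.lf (nat_lit 62038105) (dlOf (nat_lit 2) (nat_lit 0x421c0000000800e800800c8002000a0009940703)))) 
(.lf (nat_lit 4890713) (dlOf (nat_lit 1) (nat_lit 0x4004000200082d0802)))) (.nd (nat_lit 26) 
(.nd (nat_lit 9) 
(.lf (nat_lit 1476567129) (dlOf (nat_lit 2) (nat_lit 0x220030000290200020028050801))) 
(.lf (nat_lit 2281879129) (dlOf (nat_lit 1) (nat_lit 0x4004000200080a9c02)))) (.nd (nat_lit 28) 
(.lf (nat_lit 1275240537) (dlOf (nat_lit 1) (nat_lit 0x800280b0701))) 
(.lf (nat_lit 3691159641) (dlOf (nat_lit 4) (nat_lit 0x100740006a04013405c03560180001482008c00c00009c0800c0008001400200080008050803)))))) 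
(.nd (nat_lit 10) (.nd (nat_lit 11) 
(.lf (nat_lit 4362248537) (dlOf (nat_lit 6) (nat_lit 0x1280b4000d204001c08e005202d00034020005023801100b4000ca08001c08e004602d00022020012023801180b40008408000400200160008014e02))) 
(.lf (nat_lit 1677900121) (dlOf (nat_lit 1) (nat_lit 0x1d80020050000811ab82)))) (.nd (nat_lit 11) 
(.lf (nat_lit 40019289) (dlOf (nat_lit 1) (nat_lit 0x600291f3381))) (.nd (nat_lit 26) 
(.lf (nat_lit 805481817) (dlOf (nat_lit 1) (nat_lit 0x8008000400200020008116a83))) 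
(.lf (nat_lit 1543679321) (dlOf (nat_lit 1) (nat_lit 0x140028146a81))))))) (.nd (nat_lit 11) 
(.nd (nat_lit 20) (.nd (nat_lit 8) 
(.lf (nat_lit 5167554777) (dlOf (nat_lit 1) (nat_lit 0x4004000200080b5d82))) 
(.lf (nat_lit 2013439449) (dlOf (nat_lit 1) (nat_lit 0x800800a0002005a0008093603)))) 
(.nd (nat_lit 22) (.lf (nat_lit 9609433) (dlOf (nat_lit 1) (nat_lit 0x8008000400200020008571903))) 
(.lf (nat_lit 13803737) (dlOf (nat_lit 1) (nat_lit 0x18008000c00200060008750583))))) 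
(.nd (nat_lit 8) (.nd (nat_lit 9) 
(.lf (nat_lit 3959597273) (dlOf (nat_lit 2) (nat_lit 0x180b80006e04003c004000e0018114a82))) 
(.lf (nat_lit 20101849) (dlOf (nat_lit 1) (nat_lit 0x4002000200089db982)))) (.nd (nat_lit 9) 
(.lf (nat_lit 2751642073) (dlOf (nat_lit 1) (nat_lit 0x40040004000800b282))) 
(.lf (nat_lit 20098009) (dlOf (nat_lit 1) (nat_lit 0x400189d5e01)))))))) (.nd (nat_lit 7) 
(.nd (nat_lit 23) (.nd (nat_lit 28) (.nd (nat_lit 20) (.nd (nat_lit 29) (.nd (nat_lit 21) 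
(.lf (nat_lit 6442885145) (dlOf (nat_lit 1) (nat_lit 0x4004000c0018200a82))) 
(.lf (nat_lit 2531353) (dlOf (nat_lit 1) (nat_lit 0xa80018170a01)))) (.nd (nat_lit 6) 
(.lf (nat_lit 537829401) (dlOf (nat_lit 8) (nat_lit 0x601c003b6a0400880ec00200750026038803281c000240cc000e06500470310013018403b4c2000040f0004a076001103a801601c400340cc0020062000200000769038007019803adc04002c0ec001206600ea202002103b0004019803a860800300e00000002002800281b0001))) 
(.lf (nat_lit 2819006553) (dlOf (nat_lit 23) (nat_lit 0x5d007e0003502080407201a401f8000b8101d881c8073807e0002d0407de072000401f8000b0101af81c809c007e0002b040140036003b0110000a81018a81c80b300de00d206101a402d819601080ad807e034203c02d101b016f80d00bd4044046401e02aa00d8000a46011981c8049007e0002804050a072022e037801f018403500b604b2042021101f80fb80d80820068049602200ca00f0108006c0004e2c0c8c0e4024403f0001282000201f8000900815c81c8092c07e00b003600100110000842000201c8036407e0002004074e07201b401f800078101be81c804b807e0001d040806072000501f800070100d301c800f807e0212036014601100006c2016301c805d807e0001904039603f00004810198039009880fc0000e08007407e00001020286072023d01f800000100fd8008050400202f60008150803)))))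 
(.nd (nat_lit 22) (.lf (nat_lit 51814425) (dlOf (nat_lit 1) (nat_lit 0x100029510001))) 
(.lf (nat_lit 5677081) (dlOf (nat_lit 1) (nat_lit 0x400183c0481))))) (.nd (nat_lit 26) 
(.nd (nat_lit 19) (.nd (nat_lit 27) 
(.lf (nat_lit 4563836953) (dlOf (nat_lit 8) (nat_lit 0x304025006fe01015a0128037ec0800280a4023404200ced04027203000060148033241000080c0005c05200cc804017e0310065a010120018000b00a4027c04200c860600e800180f0a01))) 
(.lf (nat_lit 4698054681) (dlOf (nat_lit 2) (nat_lit 0x76031003838180f0a00)))) 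
(.lf (nat_lit 1343135769) (dlOf (nat_lit 1) (nat_lit 0x26000400e00008160502)))) (.nd (nat_lit 29) 
(.lf (nat_lit 5838905369) (dlOf (nat_lit 1) (nat_lit 0x4004000c0018200a82))) 
(.lf (nat_lit 3154550809) (dlOf (nat_lit 2) (nat_lit 0x2008c0005c04002c00400100018220502)))))) 
(.nd (nat_lit 6) (.nd (nat_lit 19) (.nd (nat_lit 20) 
(.lf (nat_lit 13017113) (dlOf (nat_lit 5) (nat_lit 0x1731b0001000800c9a0800d0c660072618003d2ba001193a400040140034c660000d02001e633000730c00002c1000b80080060002005000086f0403))) 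
(.lf (nat_lit 9871385) (dlOf (nat_lit 1) (nat_lit 0x800200040008590402)))) (.nd (nat_lit 20) 
(.lf (nat_lit 28221465) (dlOf (nat_lit 1) (nat_lit 0x40028d70481))) 
(.lf (nat_lit 16687129) (dlOf (nat_lit 1) (nat_lit 0xa800088d0481))))) (.nd (nat_lit 10) 
(.nd (nat_lit 20) (.lf (nat_lit 47095897) (dlOf (nat_lit 1) (nat_lit 0x4004000400093a0702))) 
(.lf (nat_lit 14590041) (dlOf (nat_lit 2) (nat_lit 0x123eb8000b0080088008000800200020008770803)))) 
(.lf (nat_lit 44475481) (dlOf (nat_lit 1) (nat_lit 0x40019322901)))))) (.nd (nat_lit 6) 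
(.nd (nat_lit 8) (.nd (nat_lit 19) (.nd (nat_lit 26) 
(.lf (nat_lit 1611047065) (dlOf (nat_lit 1) (nat_lit 0x200280c1201))) 
(.lf (nat_lit 738631833) (dlOf (nat_lit 1) (nat_lit 0x200280c1201)))) (.nd (nat_lit 10) 
(.lf (nat_lit 2007193) (dlOf (nat_lit 1) (nat_lit 0x20018150181))) 
(.lf (nat_lit 41854105) (dlOf (nat_lit 2) (nat_lit 0x6a9080011004000c004003c0009242b82))))) 
(.nd (nat_lit 19) (.nd (nat_lit 26) 
(.lf (nat_lit 805740953) (dlOf (nat_lit 1) (nat_lit 0x4004000200181a0782))) 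
(.lf (nat_lit 738632089) (dlOf (nat_lit 1) (nat_lit 0x50002001400080c6482)))) 
(.lf (nat_lit 3493765529) (dlOf (nat_lit 1) (nat_lit 0x400081b0781))))) (.nd (nat_lit 8) 
(.nd (nat_lit 20) (.nd (nat_lit 10) 
(.lf (nat_lit 738631897) (dlOf (nat_lit 2) (nat_lit 0x403f000060180c1c00))) 
(.lf (nat_lit 5772322009) (dlOf (nat_lit 1) (nat_lit 0x160018092d81)))) (.nd (nat_lit 9) 
(.lf (nat_lit 8300761) (dlOf (nat_lit 1) (nat_lit 0x20018514a81))) 
(.lf (nat_lit 8303321) (dlOf (nat_lit 1) (nat_lit 0x8008000400200020008518c83))))) 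
(.nd (nat_lit 19) (.nd (nat_lit 26) 
(.lf (nat_lit 3221660121) (dlOf (nat_lit 1) (nat_lit 0x20018170b01))) 
(.lf (nat_lit 3959857625) (dlOf (nat_lit 1) (nat_lit 0x20018170b01)))) 
(.lf (nat_lit 5772321241) (dlOf (nat_lit 6) (nat_lit 0xe60978000a00802784bc0004e0403b425e000250201de12f000120100010980000000801d8008003400200620008091203)))))))) 
(.nd (nat_lit 6) (.nd (nat_lit 19) (.nd (nat_lit 8) (.nd (nat_lit 7) (.nd (nat_lit 18) 
(.nd (nat_lit 9) (.nd (nat_lit 12) 
(.lf (nat_lit 12755001) (dlOf (nat_lit 1) (nat_lit 0x3e00286e0b81))) 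
(.lf (nat_lit 3892490297) (dlOf (nat_lit 2) (nat_lit 0x1811c000a604001000200120008157c82)))) 
(.lf (nat_lit 4362248761) (dlOf (nat_lit 1) (nat_lit 0xc0028018b01)))) (.nd (nat_lit 9) 
(.nd (nat_lit 22) 
(.lf (nat_lit 2819006521) (dlOf (nat_lit 6) (nat_lit 0x800fc001420400fc07e000a002001e072002501f8001f81007c01c8002407e0002a04004403f0000b818150480))) 
(.lf (nat_lit 29794361) (dlOf (nat_lit 1) (nat_lit 0x400200020008e30002)))) 
(.lf (nat_lit 6375777849) (dlOf (nat_lit 1) (nat_lit 0x8008000400200040008003783))))) 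
(.nd (nat_lit 10) (.nd (nat_lit 12) 
(.lf (nat_lit 474128569) (dlOf (nat_lit 1) (nat_lit 0x200190e0701))) 
(.lf (nat_lit 3154292921) (dlOf (nat_lit 2) (nat_lit 0x402380014c080018008001400200080008157e83)))) 
(.nd (nat_lit 9) (.lf (nat_lit 2281878713) (dlOf (nat_lit 1) (nat_lit 0x4004000200080a9502))) 
(.lf (nat_lit 20362937) (dlOf (nat_lit 1) (nat_lit 0x18400400c600089da002)))))) (.nd (nat_lit 26) 
(.nd (nat_lit 10) (.nd (nat_lit 20) 
(.lf (nat_lit 6576841017) (dlOf (nat_lit 1) (nat_lit 0x400400020008154c02))) 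
(.lf (nat_lit 9609529) (dlOf (nat_lit 1) (nat_lit 0x400400020008574c02)))) (.nd (nat_lit 7) 
(.lf (nat_lit 8566073) (dlOf (nat_lit 1) (nat_lit 0x400200020008519902))) 
(.lf (nat_lit 5637318073) (dlOf (nat_lit 1) (nat_lit 0x3a00280d3601))))) (.nd (nat_lit 7) 
(.nd (nat_lit 9) (.nd (nat_lit 27) 
(.lf (nat_lit 5972861241) (dlOf (nat_lit 1) (nat_lit 0x400400020008154c02))) 
(.lf (nat_lit 738369849) (dlOf (nat_lit 6) (nat_lit 0x200dc0007804004009c00140370001d02000202a80010138000c06e0003906000805500010270000dc1000280d40004042000000400280028090b81)))) 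
(.lf (nat_lit 6241299257) (dlOf (nat_lit 1) (nat_lit 0x4000280d5c01)))) (.nd (nat_lit 27) 
(.lf (nat_lit 3556942265) (dlOf (nat_lit 1) (nat_lit 0x20008106f01))) 
(.lf (nat_lit 5301772729) (dlOf (nat_lit 1) (nat_lit 0x160018091081))))))) (.nd (nat_lit 18) 
(.nd (nat_lit 20) (.nd (nat_lit 21) (.nd (nat_lit 26) 
(.lf (nat_lit 3221921849) (dlOf (nat_lit 4) (nat_lit 0x890178037e80804480bc01bf204022405e00df602001600281b0781))) 
(.lf (nat_lit 3960119353) (dlOf (nat_lit 1) (nat_lit 0x4004002400081b0782)))) (.nd (nat_lit 26) 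
(.lf (nat_lit 3492454457) (dlOf (nat_lit 2) (nat_lit 0x1423200d20f58007441000680080078002000800080d0b83))) 
(.lf (nat_lit 2754256953) (dlOf (nat_lit 2) (nat_lit 0x1424a00d20fe8007441000680080078002000800080d0b83))))) 
(.nd (nat_lit 23) (.nd (nat_lit 26) 
(.lf (nat_lit 1343922233) (dlOf (nat_lit 9) (nat_lit 0x3026000180f00004804000c098000603c00011c10003026000180f00004404000c098000603c00010c10003026000180f00004204000c098000603c00010010003026000180f00003e04000e098000603c0000e0100008008003000200020008381103))) 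
(.lf (nat_lit 4095385657) (dlOf (nat_lit 1) (nat_lit 0x300080038002002000080a1403)))) 
(.lf (nat_lit 10133561) (dlOf (nat_lit 1) (nat_lit 0x6c002004c00085b0682))))) (.nd (nat_lit 7) 
(.nd (nat_lit 8) (.nd (nat_lit 12) 
(.lf (nat_lit 17735737) (dlOf (nat_lit 1) (nat_lit 0x3480080004002006c00088f1103))) 
(.lf (nat_lit 8302649) (dlOf (nat_lit 1) (nat_lit 0x20028517c81)))) 
(.lf (nat_lit 537829689) (dlOf (nat_lit 1) (nat_lit 0x10c002003600081b0582)))) (.nd (nat_lit 8) 
(.lf (nat_lit 5772320953) (dlOf (nat_lit 2) (nat_lit 0x1209500000018090700))) (.nd (nat_lit 10) 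
(.lf (nat_lit 2752422329) (dlOf (nat_lit 1) (nat_lit 0x18008001800200020008017783))) 
(.lf (nat_lit 8299961) (dlOf (nat_lit 1) (nat_lit 0x400200020008513602)))))))) (.nd (nat_lit 7) 
(.nd (nat_lit 11) (.nd (nat_lit 18) (.nd (nat_lit 30) (.nd (nat_lit 8) 
(.lf (nat_lit 5100445817) (dlOf (nat_lit 2) (nat_lit 0x8028001000e000510400060018080b81))) 
(.lf (nat_lit 5100446073) (dlOf (nat_lit 1) (nat_lit 0xb0008001000200020008085883)))) 
(.nd (nat_lit 10) (.lf (nat_lit 5704425849) (dlOf (nat_lit 1) (nat_lit 0x2000200100008075902))) 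
(.lf (nat_lit 2013439353) (dlOf (nat_lit 2) (nat_lit 0x9404c005600d00016028093500))))) 
(.nd (nat_lit 19) (.nd (nat_lit 26) 
(.lf (nat_lit 1611047289) (dlOf (nat_lit 14) (nat_lit 0x240258008b40800501640045204007800a002240200280050011181000902d0007815c002800a0020a06001205a000602b80030014004120c00340b4001e057000e00280082018007816800300ae00140050010383001e02b80077808012815c003b804000c0ae001d4020014057000e981001002b8000000800c800800b4002002000080c5883))) 
(.lf (nat_lit 738632057) (dlOf (nat_lit 1) (nat_lit 0x2600080318002008200080c5903)))) 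
(.nd (nat_lit 8) (.lf (nat_lit 2007161) (dlOf (nat_lit 1) (nat_lit 0x20008150081))) 
(.lf (nat_lit 5772321145) (dlOf (nat_lit 2) (nat_lit 0xeb097800238080010008001000200140008091003)))))) 
(.nd (nat_lit 26) (.nd (nat_lit 8) (.nd (nat_lit 18) 
(.lf (nat_lit 54700665) (dlOf (nat_lit 1) (nat_lit 0x18008000400200040009655403))) 
(.lf (nat_lit 60205689) (dlOf (nat_lit 1) (nat_lit 0x48008004000200140009845403)))) 
(.nd (nat_lit 18) (.nd (nat_lit 19) 
(.lf (nat_lit 805480825) (dlOf (nat_lit 2) (nat_lit 0x80270046940800800080008002000a0008114e83))) 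
(.lf (nat_lit 57321849) (dlOf (nat_lit 1) (nat_lit 0x1e0019794e81)))) 
(.lf (nat_lit 1345235321) (dlOf (nat_lit 1) (nat_lit 0x2000400280008b04e82))))) (.nd (nat_lit 27) 
(.nd (nat_lit 8) 
(.lf (nat_lit 604416633) (dlOf (nat_lit 9) (nat_lit 0x880f0004c0720004e04002403c001501c80013410003008c0008c04006007800320390002182000c01e000780e4000840800840780003e02001803c000198100050228000400801e8008000400200180008205403))) 
(.lf (nat_lit 4093815161) (dlOf (nat_lit 1) (nat_lit 0x400400020018004e82)))) (.nd (nat_lit 20) 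
(.lf (nat_lit 6377613689) (dlOf (nat_lit 1) (nat_lit 0x200280e4e81))) 
(.lf (nat_lit 1007855993) (dlOf (nat_lit 1) (nat_lit 0x94004042a0008804e82))))))) (.nd (nat_lit 28) 
(.nd (nat_lit 26) (.nd (nat_lit 9) (.nd (nat_lit 8) 
(.lf (nat_lit 2269433) (dlOf (nat_lit 2) (nat_lit 0x970b0005c0080030008001400200040008150483))) 
(.lf (nat_lit 43689465) (dlOf (nat_lit 1) (nat_lit 0x4004000200092a3682)))) (.nd (nat_lit 11) 
(.lf (nat_lit 36348921) (dlOf (nat_lit 1) (nat_lit 0x20019072881))) 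
(.lf (nat_lit 20360185) (dlOf (nat_lit 1) (nat_lit 0x200089d5f01))))) (.nd (nat_lit 18) 
(.nd (nat_lit 9) 
(.lf (nat_lit 201499129) (dlOf (nat_lit 4) (nat_lit 0x1420000001101004d0000000800803e80000003a04000c00200160008017e02))) 
(.lf (nat_lit 1677895673) (dlOf (nat_lit 1) (nat_lit 0x4002000e0008114682)))) (.nd (nat_lit 19) 
(.lf (nat_lit 2886115833) (dlOf (nat_lit 7) (nat_lit 0x6007403be03701ae01a8058802808640000002f0a000803a01e601b80e080d407a001404360000001685005c01b800280280005608016c06e0002a0200460370001401001701b80009808000800801c8002006c0008157e03))) 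
(.lf (nat_lit 2752422393) (dlOf (nat_lit 1) (nat_lit 0x800200020008017e02)))))) (.nd (nat_lit 27) 
(.nd (nat_lit 8) (.nd (nat_lit 9) (.nd (nat_lit 18) 
(.lf (nat_lit 3556942073) (dlOf (nat_lit 1) (nat_lit 0x20028102901))) 
(.lf (nat_lit 1410244857) (dlOf (nat_lit 2) (nat_lit 0xc061000300000073010017000800d4002004600081b0483)))) 
(.lf (nat_lit 3492718329) (dlOf (nat_lit 1) (nat_lit 0x200280f3b81)))) (.nd (nat_lit 9) 
(.lf (nat_lit 1342349817) (dlOf (nat_lit 1) (nat_lit 0x4c00200020008017802))) 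
(.lf (nat_lit 3492717561) (dlOf (nat_lit 1) (nat_lit 0x4002000200080f2882))))) (.nd (nat_lit 29) 
(.nd (nat_lit 8) 
(.lf (nat_lit 3624050937) (dlOf (nat_lit 3) (nat_lit 0x9806c00100040006000000e803000c00d8007380801b80080120002002200080b0483))) 
(.lf (nat_lit 3624313337) (dlOf (nat_lit 12) (nat_lit 0x18c050002801b0052d82000400a8029640800600dc001406a00380000052883001301b800400d4008800000a50060008044009101f000700dc001806a003a0000052785002001b8029180801b00f8006406e000a0150052283001101b8028f00800780dc002c02a00a3b0400260370051d01000301b8028e40808e000802e400203fc0008157803)))) 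
(.nd (nat_lit 10) (.nd (nat_lit 26) 
(.lf (nat_lit 939696633) (dlOf (nat_lit 2) (nat_lit 0x1c016000440200100008157e01))) 
(.lf (nat_lit 4228030969) (dlOf (nat_lit 1) (nat_lit 0xe0028017801)))) 
(.lf (nat_lit 2013439481) (dlOf (nat_lit 1) (nat_lit 0x800400020008093682))))))))))))

end

end Pool.Agent.Lib.MP_5854e1_co.Cz

namespace Pool.Agent.Lib.MP_5854e1_co.Cz

noncomputable section

noncomputable def tz52 : DT := (.nd (nat_lit 4) (.nd (nat_lit 13) (.nd (nat_lit 5) 
(.nd (nat_lit 28) (.nd (nat_lit 20) (.nd (nat_lit 6) (.nd (nat_lit 18) (.nd (nat_lit 8) 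
(.nd (nat_lit 19) (.nd (nat_lit 9) 
(.lf (nat_lit 3825270793) (dlOf (nat_lit 1) (nat_lit 0x128002000a00080b0002))) 
(.lf (nat_lit 5570102793) (dlOf (nat_lit 1) (nat_lit 0x20018053681)))) (.nd (nat_lit 26) 
(.lf (nat_lit 1611202569) (dlOf (nat_lit 1) (nat_lit 0x3a0028110001))) (.nd (nat_lit 27) 
(.lf (nat_lit 1678311433) (dlOf (nat_lit 1) (nat_lit 0x200181e0681))) 
(.lf (nat_lit 738787337) (dlOf (nat_lit 1) (nat_lit 0x3a0028110001)))))) (.nd (nat_lit 7) 
(.nd (nat_lit 9) (.lf (nat_lit 671156489) (dlOf (nat_lit 1) (nat_lit 0x8008000400200020008144b83))) 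
(.lf (nat_lit 3355513609) (dlOf (nat_lit 1) (nat_lit 0x178004004c00080a8f82)))) (.nd (nat_lit 9) 
(.lf (nat_lit 2147551625) (dlOf (nat_lit 1) (nat_lit 0x400400020008094e82))) 
(.lf (nat_lit 2214658953) (dlOf (nat_lit 1) (nat_lit 0x20028002581)))))) (.nd (nat_lit 7) 
(.nd (nat_lit 26) (.nd (nat_lit 8) (.nd (nat_lit 9) 
(.lf (nat_lit 5046281) (dlOf (nat_lit 1) (nat_lit 0x20018300481))) 
(.lf (nat_lit 23396873) (dlOf (nat_lit 2) (nat_lit 0x722c00d9870000a5028b80d80)))) 
(.lf (nat_lit 34407689) (dlOf (nat_lit 1) (nat_lit 0x400400020008fb2f82)))) (.nd (nat_lit 8) 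
(.nd (nat_lit 27) (.lf (nat_lit 604307465) (dlOf (nat_lit 1) (nat_lit 0x60018130001))) 
(.lf (nat_lit 2349137929) (dlOf (nat_lit 1) (nat_lit 0x400080d0481)))) 
(.lf (nat_lit 2886010633) (dlOf (nat_lit 2) (nat_lit 0x60000000c818143b80))))) (.nd (nat_lit 19) 
(.nd (nat_lit 9) 
(.lf (nat_lit 21299337) (dlOf (nat_lit 6) (nat_lit 0x476800017a8600036040011da00007ea18000d0100057680002fb3c000fd430001703000ded00005f6780027a860002d060013da00005ea18000ac100018008000400200020008a30f03))) 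
(.lf (nat_lit 52758153) (dlOf (nat_lit 1) (nat_lit 0x400400020009573a02)))) (.nd (nat_lit 8) 
(.lf (nat_lit 23920777) (dlOf (nat_lit 1) (nat_lit 0x2400400020018b80102))) 
(.lf (nat_lit 36505993) (dlOf (nat_lit 1) (nat_lit 0x400200360009074e82))))))) (.nd (nat_lit 7) 
(.nd (nat_lit 27) (.nd (nat_lit 22) (.nd (nat_lit 8) 
(.lf (nat_lit 3825270857) (dlOf (nat_lit 1) (nat_lit 0x1a00180b0001))) 
(.lf (nat_lit 3221291337) (dlOf (nat_lit 2) (nat_lit 0xb01b8000b4080018008004800200040008090603)))) 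
(.nd (nat_lit 18) (.lf (nat_lit 14745673) (dlOf (nat_lit 1) (nat_lit 0x20018770681))) 
(.lf (nat_lit 21823561) (dlOf (nat_lit 9) (nat_lit 0x438700001d010201c8b010de1c00006808011722c00eb870000198201b7c8b0061e1c00006408077722c03eb87000018820023c8b000961c00006008046722c02438700001302002bc8b0016e1c0000440800ac004000a0008a70882))))) 
(.nd (nat_lit 8) (.nd (nat_lit 18) 
(.lf (nat_lit 134807625) (dlOf (nat_lit 1) (nat_lit 0x8004000200180c1482))) 
(.lf (nat_lit 2349137993) (dlOf (nat_lit 2) (nat_lit 0xdd01400005c0800100080010002000200080d0c83)))) 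
(.nd (nat_lit 10) 
(.lf (nat_lit 3959488841) (dlOf (nat_lit 2) (nat_lit 0xb01b8000b0080018008004800200040008090603))) 
(.lf (nat_lit 134286665) (dlOf (nat_lit 1) (nat_lit 0xc00200040008006982)))))) (.nd (nat_lit 8) 
(.nd (nat_lit 10) (.nd (nat_lit 18) 
(.lf (nat_lit 1677787337) (dlOf (nat_lit 1) (nat_lit 0x38008003000200040008090483))) 
(.nd (nat_lit 26) (.lf (nat_lit 6442778825) (dlOf (nat_lit 1) (nat_lit 0x800281b0481))) 
(.lf (nat_lit 4899274953) (dlOf (nat_lit 1) (nat_lit 0xc004000200080f1b82))))) (.nd (nat_lit 18) 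
(.nd (nat_lit 26) (.lf (nat_lit 2818639049) (dlOf (nat_lit 1) (nat_lit 0x400400040008082d82))) 
(.lf (nat_lit 5570102473) (dlOf (nat_lit 1) (nat_lit 0x20008052d81)))) 
(.lf (nat_lit 53281993) (dlOf (nat_lit 1) (nat_lit 0x20019572d81))))) (.nd (nat_lit 9) 
(.nd (nat_lit 21) (.lf (nat_lit 2885749193) (dlOf (nat_lit 1) (nat_lit 0x14002000a0008004e82))) 
(.lf (nat_lit 48302537) (dlOf (nat_lit 1) (nat_lit 0x27000800f0002003a0009404e83)))) 
(.nd (nat_lit 11) (.lf (nat_lit 61408201) (dlOf (nat_lit 1) (nat_lit 0x800400020019922882))) 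
(.lf (nat_lit 134290377) (dlOf (nat_lit 1) (nat_lit 0x4001800be81)))))))) (.nd (nat_lit 24) 
(.nd (nat_lit 19) (.nd (nat_lit 7) (.nd (nat_lit 8) (.nd (nat_lit 6) (.nd (nat_lit 18) 
(.lf (nat_lit 5308425) (dlOf (nat_lit 1) (nat_lit 0x1d40018340281))) 
(.lf (nat_lit 16056329) (dlOf (nat_lit 1) (nat_lit 0x1c00400020018860282)))) 
(.lf (nat_lit 2752577609) (dlOf (nat_lit 3) (nat_lit 0x2402c8000240400781640000f0200060018020881)))) 
(.nd (nat_lit 10) (.lf (nat_lit 40960265) (dlOf (nat_lit 1) (nat_lit 0x20029203681))) 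
(.lf (nat_lit 36766985) (dlOf (nat_lit 1) (nat_lit 0x800200020009072f82))))) (.nd (nat_lit 6) 
(.nd (nat_lit 18) (.lf (nat_lit 3211401) (dlOf (nat_lit 1) (nat_lit 0x8008000400200020008200103))) 
(.lf (nat_lit 3473545) (dlOf (nat_lit 1) (nat_lit 0x3e0008200101)))) 
(.lf (nat_lit 3473609) (dlOf (nat_lit 1) (nat_lit 0x8c0008037000201bc0008200483))))) 
(.nd (nat_lit 23) (.nd (nat_lit 6) (.nd (nat_lit 7) 
(.lf (nat_lit 2755198985) (dlOf (nat_lit 1) (nat_lit 0x20018130481))) 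
(.lf (nat_lit 8192393) (dlOf (nat_lit 1) (nat_lit 0x400200020008511002)))) 
(.lf (nat_lit 7934281) (dlOf (nat_lit 1) (nat_lit 0x260028518281)))) (.nd (nat_lit 7) 
(.nd (nat_lit 18) (.lf (nat_lit 10027017) (dlOf (nat_lit 1) (nat_lit 0x10002000600085a0a02))) 
(.lf (nat_lit 10289161) (dlOf (nat_lit 1) (nat_lit 0x68008002c002000a00085c0483)))) 
(.lf (nat_lit 12124297) (dlOf (nat_lit 1) (nat_lit 0x400200b000086c0102)))))) (.nd (nat_lit 11) 
(.nd (nat_lit 19) (.nd (nat_lit 6) (.nd (nat_lit 21) 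
(.lf (nat_lit 17891337) (dlOf (nat_lit 3) (nat_lit 0x2a040001380400149d00008c0200040018900581))) 
(.lf (nat_lit 28377097) (dlOf (nat_lit 1) (nat_lit 0x8008002800200080008d90283)))) (.nd (nat_lit 8) 
(.lf (nat_lit 26280009) (dlOf (nat_lit 1) (nat_lit 0x120028c30681))) 
(.lf (nat_lit 57738569) (dlOf (nat_lit 1) (nat_lit 0x20008000800200060009793303))))) 
(.nd (nat_lit 18) (.nd (nat_lit 21) 
(.lf (nat_lit 18415625) (dlOf (nat_lit 1) (nat_lit 0x80028930001))) 
(.lf (nat_lit 24707081) (dlOf (nat_lit 1) (nat_lit 0x8c0008bb0001)))) 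
(.lf (nat_lit 18677769) (dlOf (nat_lit 3) (nat_lit 0x19eac00c7e040088fac00447ab00013990018f018000800800a800200080008960283))))) 
(.nd (nat_lit 6) (.nd (nat_lit 7) (.nd (nat_lit 8) 
(.lf (nat_lit 20253705) (dlOf (nat_lit 2) (nat_lit 0x197ca0000002001e00289d5f81))) 
(.lf (nat_lit 19995401) (dlOf (nat_lit 1) (nat_lit 0x4002000200089db982)))) 
(.lf (nat_lit 62458249) (dlOf (nat_lit 1) (nat_lit 0xc00299a4e81)))) (.nd (nat_lit 8) 
(.lf (nat_lit 58526281) (dlOf (nat_lit 1) (nat_lit 0x14002000400097e5202))) 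
(.lf (nat_lit 20253513) (dlOf (nat_lit 1) (nat_lit 0x4002000200089d5c02)))))))) (.nd (nat_lit 30) 
(.nd (nat_lit 27) (.nd (nat_lit 29) (.nd (nat_lit 18) (.nd (nat_lit 7) (.nd (nat_lit 8) 
(.lf (nat_lit 4563468297) (dlOf (nat_lit 1) (nat_lit 0x40028090001))) 
(.lf (nat_lit 4563468553) (dlOf (nat_lit 1) (nat_lit 0x4002000e0008090a82)))) 
(.lf (nat_lit 4563471241) (dlOf (nat_lit 1) (nat_lit 0x400400020008095c02)))) (.nd (nat_lit 6) 
(.lf (nat_lit 2483355657) (dlOf (nat_lit 1) (nat_lit 0x400080d0481))) (.nd (nat_lit 26) 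
(.lf (nat_lit 4563730505) (dlOf (nat_lit 1) (nat_lit 0x8c002000800080d0502))) 
(.lf (nat_lit 2483355721) (dlOf (nat_lit 2) (nat_lit 0xdd01400005c0800100080010002000200080d0c83)))))) 
(.nd (nat_lit 6) (.nd (nat_lit 10) (.nd (nat_lit 18) 
(.lf (nat_lit 805896201) (dlOf (nat_lit 1) (nat_lit 0x200181e0681))) 
(.lf (nat_lit 3020226569) (dlOf (nat_lit 2) (nat_lit 0x802a0031e018190280)))) (.nd (nat_lit 9) 
(.lf (nat_lit 5167451145) (dlOf (nat_lit 2) (nat_lit 0x600b800000080130008003c00200040008055f83))) 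
(.lf (nat_lit 5100340745) (dlOf (nat_lit 1) (nat_lit 0x220028053681))))) (.nd (nat_lit 10) 
(.nd (nat_lit 12) 
(.lf (nat_lit 805372105) (dlOf (nat_lit 1) (nat_lit 0x38008003000200040008090483))) 
(.lf (nat_lit 2952859849) (dlOf (nat_lit 1) (nat_lit 0x3000200060008008002)))) 
(.lf (nat_lit 5100340425) (dlOf (nat_lit 2) (nat_lit 0x40000003b0200020018052d81)))))) 
(.nd (nat_lit 26) (.nd (nat_lit 6) (.nd (nat_lit 7) (.nd (nat_lit 8) (.nd (nat_lit 29) 
(.lf (nat_lit 4697686025) (dlOf (nat_lit 1) (nat_lit 0x40028090001))) 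
(.lf (nat_lit 3087073289) (dlOf (nat_lit 1) (nat_lit 0x128002000a00080b0002)))) 
(.lf (nat_lit 402720009) (dlOf (nat_lit 1) (nat_lit 0x20028092f81)))) 
(.lf (nat_lit 402981001) (dlOf (nat_lit 1) (nat_lit 0x1e00180c0e81)))) (.nd (nat_lit 7) 
(.nd (nat_lit 18) (.lf (nat_lit 3087073353) (dlOf (nat_lit 1) (nat_lit 0x1a00180b0001))) 
(.lf (nat_lit 4697948233) (dlOf (nat_lit 1) (nat_lit 0x8c002000800080d0502)))) 
(.lf (nat_lit 402719689) (dlOf (nat_lit 1) (nat_lit 0x400400020008092882))))) (.nd (nat_lit 9) 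
(.nd (nat_lit 6) (.nd (nat_lit 18) 
(.lf (nat_lit 470876169) (dlOf (nat_lit 2) (nat_lit 0x834048000fa02000200281c0481))) 
(.lf (nat_lit 470614025) (dlOf (nat_lit 11) (nat_lit 0x1cc3a200fe1c5000a68200770e8803b0714002860800242a80013b02000e1540009c8100050aa000498080020550002480400102a8000dc0200f01d1007f0e280010550001b20c004c2a8000d80200f01d100790e28003341006500080090002000c0008130483)))) 
(.lf (nat_lit 474024393) (dlOf (nat_lit 1) (nat_lit 0x1e80009004e81)))) (.nd (nat_lit 6) 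
(.nd (nat_lit 7) 
(.lf (nat_lit 2617311753) (dlOf (nat_lit 1) (nat_lit 0x80080004002000200080a1483))) 
(.lf (nat_lit 2617316233) (dlOf (nat_lit 1) (nat_lit 0x2000280a9001)))) 
(.lf (nat_lit 2617316937) (dlOf (nat_lit 1) (nat_lit 0x4004000200080a9c02))))))) (.nd (nat_lit 6) 
(.nd (nat_lit 11) (.nd (nat_lit 19) (.nd (nat_lit 7) (.nd (nat_lit 20) 
(.lf (nat_lit 1881210889) (dlOf (nat_lit 1) (nat_lit 0x150004007a0008e60002))) 
(.lf (nat_lit 1343291401) (dlOf (nat_lit 1) (nat_lit 0x14004000200181e0482)))) 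
(.lf (nat_lit 6241452169) (dlOf (nat_lit 1) (nat_lit 0x880080010002000800080f0f03)))) 
(.nd (nat_lit 18) (.nd (nat_lit 20) 
(.lf (nat_lit 3557359625) (dlOf (nat_lit 3) (nat_lit 0xc80e00104044001e004002805b002001c0007581000400080108002000200081c0483))) 
(.lf (nat_lit 3493396489) (dlOf (nat_lit 1) (nat_lit 0x20018130481)))) 
(.lf (nat_lit 1343029257) (dlOf (nat_lit 11) (nat_lit 0x1cc3a200fe1c5000a68200770e8803b0714002860800242a80013b02000e1540009c8100050aa00049c080020550002480400102a8000dd0200f01d1007f0e280010550001b20c004c2a8000d80200f01d100790e28003341006500080090002000c0008130483))))) 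
(.nd (nat_lit 7) (.nd (nat_lit 18) 
(.lf (nat_lit 3492874249) (dlOf (nat_lit 2) (nat_lit 0x3c03a0005402000200180f4701))) 
(.lf (nat_lit 1410140169) (dlOf (nat_lit 1) (nat_lit 0x200180f4701)))) (.nd (nat_lit 8) 
(.nd (nat_lit 10) (.lf (nat_lit 1410140297) (dlOf (nat_lit 1) (nat_lit 0x28e00280f4801))) 
(.lf (nat_lit 1543572617) (dlOf (nat_lit 1) (nat_lit 0x400400020008146182)))) 
(.lf (nat_lit 1409355145) (dlOf (nat_lit 1) (nat_lit 0x200018006c81)))))) (.nd (nat_lit 8) 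
(.nd (nat_lit 26) (.nd (nat_lit 7) (.nd (nat_lit 11) 
(.lf (nat_lit 3490775113) (dlOf (nat_lit 3) (nat_lit 0x240300000240400781800000f0200060018020881))) 
(.lf (nat_lit 3493140553) (dlOf (nat_lit 7) (nat_lit 0x187f4001c3d0003a15f001709c0008702000487f4003c3d0004a15f002509c0008682000607f400443d0006615e000ec83000e0fe800a07a000cc2bc001d806001e1fd00140f4001c0578003ae0c004c3fa002e1e800350af00075818001800800bc002001a00080fa683)))) 
(.lf (nat_lit 5773263049) (dlOf (nat_lit 1) (nat_lit 0x4002000400080c1782)))) (.nd (nat_lit 18) 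
(.lf (nat_lit 2080440521) (dlOf (nat_lit 1) (nat_lit 0x4a0018090801))) (.nd (nat_lit 19) 
(.lf (nat_lit 5838799049) (dlOf (nat_lit 1) (nat_lit 0x800281b0481))) 
(.lf (nat_lit 6377242825) (dlOf (nat_lit 1) (nat_lit 0x380080054002000e00080c1b83)))))) 
(.nd (nat_lit 7) (.nd (nat_lit 9) 
(.lf (nat_lit 3489992009) (dlOf (nat_lit 1) (nat_lit 0x20008006981))) 
(.lf (nat_lit 5637213001) (dlOf (nat_lit 1) (nat_lit 0x800200060008055c02)))) (.nd (nat_lit 9) 
(.nd (nat_lit 18) 
(.lf (nat_lit 3490253257) (dlOf (nat_lit 1) (nat_lit 0x8008000400200020008004e83))) 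
(.lf (nat_lit 4095019465) (dlOf (nat_lit 1) (nat_lit 0x40028054e81)))) 
(.lf (nat_lit 2080441289) (dlOf (nat_lit 1) (nat_lit 0x20018092881))))))))) (.nd (nat_lit 28) 
(.nd (nat_lit 18) (.nd (nat_lit 7) (.nd (nat_lit 19) (.nd (nat_lit 20) (.nd (nat_lit 8) 
(.nd (nat_lit 21) (.lf (nat_lit 6576734249) (dlOf (nat_lit 1) (nat_lit 0x200180b0001))) 
(.lf (nat_lit 23134249) (dlOf (nat_lit 2) (nat_lit 0x285e4000050080070008001c00200200008b60883)))) 
(.lf (nat_lit 5033233193) (dlOf (nat_lit 1) (nat_lit 0x400200020008005c02)))) (.nd (nat_lit 24) 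
(.nd (nat_lit 8) 
(.lf (nat_lit 2752577577) (dlOf (nat_lit 1) (nat_lit 0xa80080008002006a0008020503))) 
(.lf (nat_lit 7405865) (dlOf (nat_lit 1) (nat_lit 0x5600184b0701)))) (.nd (nat_lit 10) 
(.lf (nat_lit 28377129) (dlOf (nat_lit 1) (nat_lit 0xd0008005c00200240008d90803))) 
(.lf (nat_lit 19991593) (dlOf (nat_lit 1) (nat_lit 0x400289d6081)))))) (.nd (nat_lit 21) 
(.nd (nat_lit 9) (.nd (nat_lit 29) 
(.lf (nat_lit 134807593) (dlOf (nat_lit 2) (nat_lit 0x200bc00000040038004003c00080c0c02))) 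
(.lf (nat_lit 3892903977) (dlOf (nat_lit 3) (nat_lit 0x7c051000e00b0005b01009f013c0000204001000400020018290d82)))) 
(.lf (nat_lit 50922025) (dlOf (nat_lit 1) (nat_lit 0x200194d8901)))) (.nd (nat_lit 20) 
(.nd (nat_lit 23) 
(.lf (nat_lit 2754150441) (dlOf (nat_lit 3) (nat_lit 0x2089000120100010448000880800f80080010002001e00080c0d03))) 
(.lf (nat_lit 11075625) (dlOf (nat_lit 2) (nat_lit 0x14396000130200020008660681)))) 
(.lf (nat_lit 24707113) (dlOf (nat_lit 8) (nat_lit 0x297a8001abbd0000d8200175ea000daef4000968a00019060018bd40000c0100095ea00012ef4000160800117a80000a020010bd400095de80002410005af50003577a000080400020018bb0a81)))))) 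
(.nd (nat_lit 6) (.nd (nat_lit 8) (.nd (nat_lit 10) 
(.lf (nat_lit 537460905) (dlOf (nat_lit 1) (nat_lit 0x180028090281))) (.nd (nat_lit 11) 
(.lf (nat_lit 51446953) (dlOf (nat_lit 1) (nat_lit 0x1000400460009512c02))) 
(.lf (nat_lit 19991721) (dlOf (nat_lit 1) (nat_lit 0x100080004002000200089d6283))))) 
(.nd (nat_lit 9) (.nd (nat_lit 27) 
(.lf (nat_lit 4899014057) (dlOf (nat_lit 2) (nat_lit 0x201300047018053600))) 
(.lf (nat_lit 5570102697) (dlOf (nat_lit 1) (nat_lit 0x20018053601)))) (.nd (nat_lit 23) 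
(.lf (nat_lit 671156137) (dlOf (nat_lit 1) (nat_lit 0x400400020008144302))) 
(.lf (nat_lit 8456105) (dlOf (nat_lit 1) (nat_lit 0x1000400060018514302)))))) (.nd (nat_lit 11) 
(.nd (nat_lit 8) (.nd (nat_lit 12) 
(.lf (nat_lit 1275135209) (dlOf (nat_lit 1) (nat_lit 0x400400020008092e82))) 
(.lf (nat_lit 3355514089) (dlOf (nat_lit 1) (nat_lit 0x580080014002001a00080a9503)))) 
(.nd (nat_lit 21) (.lf (nat_lit 2751529961) (dlOf (nat_lit 1) (nat_lit 0x20018002881))) 
(.lf (nat_lit 35718121) (dlOf (nat_lit 1) (nat_lit 0x5e0029012881))))) (.nd (nat_lit 26) 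
(.nd (nat_lit 8) 
(.lf (nat_lit 8456425) (dlOf (nat_lit 2) (nat_lit 0x793600003204000800400040008514b02))) 
(.lf (nat_lit 1744898537) (dlOf (nat_lit 1) (nat_lit 0x400400020008094e82)))) (.nd (nat_lit 10) 
(.lf (nat_lit 2348878057) (dlOf (nat_lit 4) (nat_lit 0x620000000e81002000000006c0800080a800006040038002001c0008004b02))) 
(.lf (nat_lit 2754677993) (dlOf (nat_lit 3) (nat_lit 0x140380002e02019601c000168180f6500)))))))) 
(.nd (nat_lit 19) (.nd (nat_lit 7) (.nd (nat_lit 9) (.nd (nat_lit 27) (.nd (nat_lit 20) 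
(.lf (nat_lit 3288662057) (dlOf (nat_lit 2) (nat_lit 0x802e007c016800564100268008010800200ce00080a0983))) 
(.lf (nat_lit 55902249) (dlOf (nat_lit 1) (nat_lit 0x4004000200096f0202)))) (.nd (nat_lit 29) 
(.lf (nat_lit 1208287273) (dlOf (nat_lit 29) (nat_lit 0x56201c009000d00a180540b9802505a001002c7002008b400600b000105420000000bc4829280e0004806800240320061017010c00a816a404a0ace020001500902ba002003c00060026001042d0000000b86001580940005a04062c04a0294000000160204a301480a000300003a0805980520001c02035c0290000d8100e8014800068081ea00a4000320401e4052004400c0000c02042f01480005c080d200a40002c0400e0052000150208e2029000098105ea014819c0098003c042057000c00d10048000482830180a40b54018000110408d002902730060000401028b00a40001e04159405204d600c0000682052201480dd00300001808154805204a400c00005020562014813a8030000120800440180000702001200c000028100d50058000100800100a404a8050024200c01fb005800100080000614004401800001020162039000801580f900a00050018059e00b003d004800000300548008012c002020400080b0383)))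 
(.lf (nat_lit 1745158185) (dlOf (nat_lit 5) (nat_lit 0x480e00118066013803200960120000bc2002a80dc01580640002e04000a0320001601000b01c002c80dc016406600b2032000148480b0380))))) 
(.nd (nat_lit 6) (.nd (nat_lit 11) 
(.lf (nat_lit 23396905) (dlOf (nat_lit 1) (nat_lit 0x20008000800200120008b80e03))) 
(.lf (nat_lit 35981865) (dlOf (nat_lit 1) (nat_lit 0x20029015181)))) 
(.lf (nat_lit 2751793001) (dlOf (nat_lit 1) (nat_lit 0x20008004001))))) (.nd (nat_lit 8) 
(.nd (nat_lit 6) (.nd (nat_lit 9) 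
(.lf (nat_lit 4899274921) (dlOf (nat_lit 1) (nat_lit 0x8004000200080f1482))) 
(.lf (nat_lit 20256425) (dlOf (nat_lit 1) (nat_lit 0x4002000200089da002)))) 
(.lf (nat_lit 2886011113) (dlOf (nat_lit 4) (nat_lit 0x1a0100000360400bc080006e00000005820036020000a80000001408008400200060008144b02)))) 
(.nd (nat_lit 9) (.nd (nat_lit 11) 
(.lf (nat_lit 21299689) (dlOf (nat_lit 1) (nat_lit 0x400080004002000a0008a37303))) 
(.lf (nat_lit 46467561) (dlOf (nat_lit 1) (nat_lit 0x400400020009384e82)))) 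
(.lf (nat_lit 40174569) (dlOf (nat_lit 1) (nat_lit 0x4004000200091f2882)))))) (.nd (nat_lit 21) 
(.nd (nat_lit 23) (.nd (nat_lit 6) (.nd (nat_lit 20) 
(.lf (nat_lit 5046313) (dlOf (nat_lit 2) (nat_lit 0x1d268800150080068008005000200160008300683))) 
(.lf (nat_lit 18677801) (dlOf (nat_lit 2) (nat_lit 0x446f800170080180008007400200040008960803)))) 
(.lf (nat_lit 537726185) (dlOf (nat_lit 4) (nat_lit 0x600000006c0400440000002e020132000000168180f6500)))) 
(.nd (nat_lit 24) (.nd (nat_lit 25) 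
(.lf (nat_lit 9240617) (dlOf (nat_lit 3) (nat_lit 0xb24e8001483c000e0000000903000620f000044080008008018800200780008530383))) 
(.lf (nat_lit 42795049) (dlOf (nat_lit 3) (nat_lit 0x107528004b8c4002596c00029060028ea500057188006b3a8004996c000270800760029280201)))) 
(.lf (nat_lit 59572265) (dlOf (nat_lit 1) (nat_lit 0x280080020002000a0009810883))))) 
(.nd (nat_lit 7) (.nd (nat_lit 23) (.nd (nat_lit 6) (.nd (nat_lit 10) 
(.lf (nat_lit 70058025) (dlOf (nat_lit 1) (nat_lit 0x10008000400200020008e80203))) 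
(.lf (nat_lit 36504617) (dlOf (nat_lit 1) (nat_lit 0x20019072881)))) 
(.lf (nat_lit 19730537) (dlOf (nat_lit 1) (nat_lit 0x19400189d7d81)))) (.nd (nat_lit 9) 
(.lf (nat_lit 11337769) (dlOf (nat_lit 1) (nat_lit 0x1180008690601))) 
(.lf (nat_lit 33360425) (dlOf (nat_lit 1) (nat_lit 0x400400020008f55182))))) (.nd (nat_lit 8) 
(.lf (nat_lit 20780713) (dlOf (nat_lit 1) (nat_lit 0x4004000400189da002))) (.nd (nat_lit 10) 
(.lf (nat_lit 36506025) (dlOf (nat_lit 1) (nat_lit 0x20019074e81))) 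
(.lf (nat_lit 8193449) (dlOf (nat_lit 1) (nat_lit 0x400200020008513602))))))))) (.nd (nat_lit 27) 
(.nd (nat_lit 30) (.nd (nat_lit 6) (.nd (nat_lit 18) (.nd (nat_lit 10) (.nd (nat_lit 8) 
(.lf (nat_lit 4563468329) (dlOf (nat_lit 1) (nat_lit 0x40028090001))) 
(.lf (nat_lit 4563468585) (dlOf (nat_lit 3) (nat_lit 0x2602f0000301000b017800014080038008003400200140008090b03)))) 
(.nd (nat_lit 7) (.lf (nat_lit 872482089) (dlOf (nat_lit 1) (nat_lit 0x400400020008093182))) 
(.lf (nat_lit 5100340649) (dlOf (nat_lit 1) (nat_lit 0xb000400020018053602))))) (.nd (nat_lit 29) 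
(.nd (nat_lit 31) (.lf (nat_lit 4563730473) (dlOf (nat_lit 1) (nat_lit 0x18002000600080d0282))) 
(.lf (nat_lit 2416246825) (dlOf (nat_lit 1) (nat_lit 0x100080054002006a00080c0d03)))) 
(.nd (nat_lit 26) (.lf (nat_lit 5100601385) (dlOf (nat_lit 1) (nat_lit 0x400280f0381))) 
(.lf (nat_lit 872742953) (dlOf (nat_lit 5) (nat_lit 0x480e00118066013803200960120000c82002a80dc01580640003104000a0320001781000b01c002c80dc016406600b2032000160480b0380)))))) 
(.nd (nat_lit 7) (.nd (nat_lit 12) 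
(.lf (nat_lit 4563471209) (dlOf (nat_lit 1) (nat_lit 0x800400020008095c02))) 
(.lf (nat_lit 2483100521) (dlOf (nat_lit 1) (nat_lit 0x3c0040048000800bc82)))) (.nd (nat_lit 9) 
(.nd (nat_lit 26) 
(.lf (nat_lit 4563470825) (dlOf (nat_lit 1) (nat_lit 0x8008000400200020008094e83))) 
(.lf (nat_lit 335612393) (dlOf (nat_lit 1) (nat_lit 0x400400020008094e82)))) 
(.lf (nat_lit 4563471337) (dlOf (nat_lit 1) (nat_lit 0x2800800d800200360008095e83)))))) 
(.nd (nat_lit 18) (.nd (nat_lit 20) (.nd (nat_lit 7) 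
(.lf (nat_lit 3492347945) (dlOf (nat_lit 3) (nat_lit 0x2301180002402014208c000110180c0c00))) 
(.lf (nat_lit 1342247337) (dlOf (nat_lit 1) (nat_lit 0x50002000e0008008402)))) (.nd (nat_lit 21) 
(.nd (nat_lit 31) 
(.lf (nat_lit 1343291433) (dlOf (nat_lit 6) (nat_lit 0x2835a000560200361ad002c0d4001e027c011012a000e0820033039001880f000fc0500040014002e0000001505000786b40009204004c35a00521a8003904f801702540098104005c072002b01e001d00a00008028003a000000228a002c0d68000f008001800801d400200a400081e0683))) 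
(.lf (nat_lit 3490775081) (dlOf (nat_lit 1) (nat_lit 0xa80080008002006a0008020503)))) 
(.lf (nat_lit 1345388585) (dlOf (nat_lit 1) (nat_lit 0x440008b90201))))) (.nd (nat_lit 6) 
(.nd (nat_lit 19) 
(.lf (nat_lit 4026859561) (dlOf (nat_lit 2) (nat_lit 0x802e007c01680031c100268008010800200ce00080a0983))) 
(.nd (nat_lit 21) (.lf (nat_lit 3491561513) (dlOf (nat_lit 1) (nat_lit 0x20028090001))) 
(.lf (nat_lit 3493658665) (dlOf (nat_lit 1) (nat_lit 0x400400020008190802))))) (.nd (nat_lit 7) 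
(.lf (nat_lit 4026859625) (dlOf (nat_lit 4) (nat_lit 0x300b00002e0400dc0000001302001403500020150000041000380080058002017800080a1403))) 
(.nd (nat_lit 8) (.lf (nat_lit 6241452265) (dlOf (nat_lit 1) (nat_lit 0x18400200a200080f1e02))) 
(.lf (nat_lit 3493140457) (dlOf (nat_lit 1) (nat_lit 0x200180fa601)))))))) (.nd (nat_lit 8) 
(.nd (nat_lit 18) (.nd (nat_lit 9) (.nd (nat_lit 10) (.nd (nat_lit 20) 
(.lf (nat_lit 4697686057) (dlOf (nat_lit 1) (nat_lit 0x40028090001))) 
(.lf (nat_lit 470876201) (dlOf (nat_lit 2) (nat_lit 0x142131000210181c0680)))) 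
(.lf (nat_lit 3154183209) (dlOf (nat_lit 1) (nat_lit 0xe0018102881)))) (.nd (nat_lit 10) 
(.lf (nat_lit 5774049833) (dlOf (nat_lit 1) (nat_lit 0x4002000200080f8902))) 
(.lf (nat_lit 4697687593) (dlOf (nat_lit 1) (nat_lit 0x8008007800200520008093703))))) 
(.nd (nat_lit 29) (.nd (nat_lit 7) (.nd (nat_lit 26) 
(.lf (nat_lit 4697948201) (dlOf (nat_lit 1) (nat_lit 0x18002000600080d0282))) 
(.lf (nat_lit 2617573417) (dlOf (nat_lit 18) (nat_lit 0x3200b400a00000005604059402d000250102610168001240800180b40008e040034064005002d02e10148001141804600b40764052000440401d8029000218102a70168001080802980b40007804043805a0003702004603002e8016816580600acc006038e00000019050273016810e8060000400602f60000001884001900c000e000000060080b4803005fa000000168202ac0000000b00810600000002e04069805a025001800a800000004c180058008004c002000c0008100683)))) 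
(.lf (nat_lit 473760937) (dlOf (nat_lit 2) (nat_lit 0x4836400000040018004000a0008fa2c02)))) 
(.nd (nat_lit 7) (.nd (nat_lit 26) 
(.lf (nat_lit 4161077289) (dlOf (nat_lit 1) (nat_lit 0x1800400020008120682))) 
(.lf (nat_lit 2080702505) (dlOf (nat_lit 29) (nat_lit 0x56201c009000d00a180540b9802505a001002c7002008b400600b000105420000000c84829280e0004806800240320061017010c00a816a404a0ace020001500902ba002003c00060026001042d0000000c46001580940006004062c04a0294000000178204a301480a000300003a0805980520001c02035c0290000d8100e8014800068081ea00a4000320401e4052004400c0000c02042f01480005c080d200a40002c0400e0052000150208e2029000098105ea014819c0098003c042057000c00d10048000482830180a40b54018000110408d002902730060000401028b00a40001e04159405204d600c0000682052201480dd00300001808154805204a400c00005020562014813a8030000120800440180000702001200c000028100d50058000100800100a404a8050024200c01fb005800100080000614004401800001020162039000801580f900a00050018059e00b003d004800000300548008012c002020400080b0383))))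 
(.lf (nat_lit 6377242793) (dlOf (nat_lit 1) (nat_lit 0x8004000200080c1482)))))) (.nd (nat_lit 6) 
(.nd (nat_lit 7) (.nd (nat_lit 11) (.nd (nat_lit 32) 
(.lf (nat_lit 402720041) (dlOf (nat_lit 1) (nat_lit 0x400400020008093182))) 
(.lf (nat_lit 4697687337) (dlOf (nat_lit 1) (nat_lit 0x400400020018093182)))) 
(.lf (nat_lit 1543572777) (dlOf (nat_lit 1) (nat_lit 0x20028146801)))) (.nd (nat_lit 10) 
(.lf (nat_lit 1008796073) (dlOf (nat_lit 1) (nat_lit 0x180018f86e81))) (.nd (nat_lit 29) 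
(.lf (nat_lit 4697687465) (dlOf (nat_lit 1) (nat_lit 0xa8008002c00200540008093603))) 
(.lf (nat_lit 6308300201) (dlOf (nat_lit 1) (nat_lit 0x30008001c002000a0008053603)))))) 
(.nd (nat_lit 10) (.nd (nat_lit 9) 
(.lf (nat_lit 1543571945) (dlOf (nat_lit 1) (nat_lit 0x8008000400200040008144e83))) 
(.lf (nat_lit 6375670761) (dlOf (nat_lit 2) (nat_lit 0x204a805f88080010008000c00200040008002883)))) 
(.nd (nat_lit 7) 
(.lf (nat_lit 3691058537) (dlOf (nat_lit 1) (nat_lit 0x8008003c002004e0008009903))) 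
(.lf (nat_lit 1543572969) (dlOf (nat_lit 1) (nat_lit 0xc00200040008146e82)))))))))) 
(.nd (nat_lit 18) (.nd (nat_lit 5) (.nd (nat_lit 8) (.nd (nat_lit 20) (.nd (nat_lit 30) 
(.nd (nat_lit 6) (.nd (nat_lit 19) (.nd (nat_lit 7) 
(.lf (nat_lit 5167459337) (dlOf (nat_lit 1) (nat_lit 0x400400020018055f82))) 
(.lf (nat_lit 939597961) (dlOf (nat_lit 2) (nat_lit 0x34026000a0110001281000480080084002001c00080b0103)))) 
(.nd (nat_lit 23) (.lf (nat_lit 805904393) (dlOf (nat_lit 1) (nat_lit 0x400181e0681))) 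
(.lf (nat_lit 42541065) (dlOf (nat_lit 1) (nat_lit 0x400200020009260002))))) (.nd (nat_lit 7) 
(.lf (nat_lit 42541129) (dlOf (nat_lit 1) (nat_lit 0x40019260601))) (.nd (nat_lit 9) 
(.lf (nat_lit 2952868041) (dlOf (nat_lit 1) (nat_lit 0xc800200420008008002))) 
(.lf (nat_lit 671164105) (dlOf (nat_lit 1) (nat_lit 0x40028143a81)))))) (.nd (nat_lit 6) 
(.nd (nat_lit 7) (.nd (nat_lit 9) 
(.lf (nat_lit 1678319625) (dlOf (nat_lit 1) (nat_lit 0x400181e0681))) 
(.lf (nat_lit 6308308489) (dlOf (nat_lit 3) (nat_lit 0x4c0180001d01001700c0000d4080020008000800200020008053683)))) 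
(.nd (nat_lit 10) 
(.lf (nat_lit 1812013193) (dlOf (nat_lit 2) (nat_lit 0x34026000a0110001281000480080084002001c00080b0103))) 
(.lf (nat_lit 1543580809) (dlOf (nat_lit 1) (nat_lit 0x800400020018146182))))) (.nd (nat_lit 10) 
(.nd (nat_lit 26) (.lf (nat_lit 3221299401) (dlOf (nat_lit 2) (nat_lit 0x402e00047018090480))) 
(.lf (nat_lit 3959496905) (dlOf (nat_lit 2) (nat_lit 0x402e00047018090480)))) 
(.lf (nat_lit 5435892937) (dlOf (nat_lit 1) (nat_lit 0x40018002d81)))))) (.nd (nat_lit 21) 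
(.nd (nat_lit 6) (.nd (nat_lit 19) (.nd (nat_lit 22) (.nd (nat_lit 24) 
(.lf (nat_lit 1343299593) (dlOf (nat_lit 2) (nat_lit 0x302aa001a095003280281e0480))) 
(.lf (nat_lit 17899529) (dlOf (nat_lit 1) (nat_lit 0x40018900581)))) 
(.lf (nat_lit 47259657) (dlOf (nat_lit 1) (nat_lit 0x80080004002000200093c0003)))) (.nd (nat_lit 9) 
(.lf (nat_lit 39396361) (dlOf (nat_lit 1) (nat_lit 0x20019192881))) 
(.lf (nat_lit 1880695305) (dlOf (nat_lit 1) (nat_lit 0x400400020018b37b02))))) (.nd (nat_lit 23) 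
(.nd (nat_lit 26) 
(.lf (nat_lit 3490783305) (dlOf (nat_lit 5) (nat_lit 0xf8748000680400843a40003102003c1eb00340e90000981000c87480004404009400400080018020882))) 
(.lf (nat_lit 2752585801) (dlOf (nat_lit 5) (nat_lit 0xf879c000680400843ce0003102003c1fd00340f38000981000c879c0004404009400400080018020882)))) 
(.lf (nat_lit 26288201) (dlOf (nat_lit 1) (nat_lit 0xc0028c30681))))) (.nd (nat_lit 7) 
(.nd (nat_lit 6) (.lf (nat_lit 7413769) (dlOf (nat_lit 1) (nat_lit 0x30002003000084b0002))) 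
(.lf (nat_lit 1345923657) (dlOf (nat_lit 1) (nat_lit 0x20018e25201)))) (.nd (nat_lit 11) 
(.nd (nat_lit 19) (.nd (nat_lit 22) 
(.lf (nat_lit 3219593) (dlOf (nat_lit 1) (nat_lit 0x190008000400200420008200103))) 
(.lf (nat_lit 24191113) (dlOf (nat_lit 1) (nat_lit 0xc00400020008b80102)))) 
(.lf (nat_lit 12132489) (dlOf (nat_lit 1) (nat_lit 0x4002000200086c0102)))) 
(.lf (nat_lit 3492882569) (dlOf (nat_lit 1) (nat_lit 0xa00280f4801))))))) (.nd (nat_lit 27) 
(.nd (nat_lit 6) (.nd (nat_lit 9) (.nd (nat_lit 7) 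
(.lf (nat_lit 4563476745) (dlOf (nat_lit 1) (nat_lit 0x7400200700008090a82))) 
(.lf (nat_lit 3758172553) (dlOf (nat_lit 1) (nat_lit 0x2600180d4e81)))) (.nd (nat_lit 12) 
(.nd (nat_lit 26) 
(.lf (nat_lit 6174092041) (dlOf (nat_lit 1) (nat_lit 0x8008001000200040008055b03))) 
(.lf (nat_lit 5704329993) (dlOf (nat_lit 1) (nat_lit 0x33800401f40008055b02)))) 
(.lf (nat_lit 20003593) (dlOf (nat_lit 1) (nat_lit 0x3680080004002005e00089db983))))) 
(.nd (nat_lit 7) (.nd (nat_lit 22) 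
(.lf (nat_lit 3221299529) (dlOf (nat_lit 3) (nat_lit 0x203700360100000b41002480800005804000800400200008090602))) 
(.nd (nat_lit 26) (.lf (nat_lit 3493929289) (dlOf (nat_lit 1) (nat_lit 0x200281b0601))) 
(.lf (nat_lit 2755731785) (dlOf (nat_lit 1) (nat_lit 0x200281b0601))))) (.nd (nat_lit 9) 
(.nd (nat_lit 19) 
(.lf (nat_lit 1610686921) (dlOf (nat_lit 2) (nat_lit 0xc09800300350008010800000180138008004800200100008091103))) 
(.lf (nat_lit 50930121) (dlOf (nat_lit 1) (nat_lit 0x10002001400094d7a82)))) 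
(.lf (nat_lit 37299145) (dlOf (nat_lit 1) (nat_lit 0x4004000200090d2882)))))) (.nd (nat_lit 26) 
(.nd (nat_lit 28) (.nd (nat_lit 6) (.nd (nat_lit 11) 
(.lf (nat_lit 1208033545) (dlOf (nat_lit 1) (nat_lit 0x20028090a81))) 
(.lf (nat_lit 671164681) (dlOf (nat_lit 1) (nat_lit 0x240028144b81)))) 
(.lf (nat_lit 671164745) (dlOf (nat_lit 1) (nat_lit 0x120028144d81)))) (.nd (nat_lit 6) 
(.nd (nat_lit 7) (.lf (nat_lit 5774057737) (dlOf (nat_lit 1) (nat_lit 0x600180f3681))) 
(.lf (nat_lit 4697694601) (dlOf (nat_lit 1) (nat_lit 0x800200240008091002)))) 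
(.lf (nat_lit 4697694665) (dlOf (nat_lit 1) (nat_lit 0xf0008006000200240008091103))))) 
(.nd (nat_lit 6) (.nd (nat_lit 7) (.nd (nat_lit 19) 
(.lf (nat_lit 738271497) (dlOf (nat_lit 2) (nat_lit 0x2813800266040018002000a0008090a82))) 
(.lf (nat_lit 1008279817) (dlOf (nat_lit 2) (nat_lit 0x440000000002000a0018b27c81)))) 
(.lf (nat_lit 3154192777) (dlOf (nat_lit 1) (nat_lit 0x20018104e81)))) (.nd (nat_lit 7) 
(.lf (nat_lit 3959497033) (dlOf (nat_lit 3) (nat_lit 0x203700360100000b01002480800005604000800400200008090602))) 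
(.lf (nat_lit 1543581129) (dlOf (nat_lit 1) (nat_lit 0x1000400020008146d02)))))))) (.nd (nat_lit 7) 
(.nd (nat_lit 19) (.nd (nat_lit 6) (.nd (nat_lit 28) (.nd (nat_lit 10) (.nd (nat_lit 22) 
(.lf (nat_lit 3221299241) (dlOf (nat_lit 1) (nat_lit 0x70008001800200640008090003))) 
(.lf (nat_lit 21045289) (dlOf (nat_lit 2) (nat_lit 0x16a580006808011800800c400200140008a00a03)))) 
(.nd (nat_lit 8) (.lf (nat_lit 1610688041) (dlOf (nat_lit 1) (nat_lit 0x400400020008093702))) 
(.lf (nat_lit 8463657) (dlOf (nat_lit 1) (nat_lit 0x5c0018513181))))) (.nd (nat_lit 21) 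
(.nd (nat_lit 8) (.lf (nat_lit 4697695785) (dlOf (nat_lit 1) (nat_lit 0x800400060008093702))) 
(.lf (nat_lit 4563476777) (dlOf (nat_lit 1) (nat_lit 0x400200080008090b02)))) (.nd (nat_lit 20) 
(.lf (nat_lit 1344348201) (dlOf (nat_lit 1) (nat_lit 0x8008000400200020008740003))) 
(.lf (nat_lit 472981545) (dlOf (nat_lit 1) (nat_lit 0x400200020008ba0882)))))) (.nd (nat_lit 8) 
(.nd (nat_lit 9) (.nd (nat_lit 22) 
(.lf (nat_lit 1208033385) (dlOf (nat_lit 1) (nat_lit 0x94004000a0008090102))) 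
(.lf (nat_lit 12656745) (dlOf (nat_lit 2) (nat_lit 0x5a343001e146401687b600b43d9000080486d1400)))) 
(.lf (nat_lit 5167458921) (dlOf (nat_lit 1) (nat_lit 0x2000400080008055382)))) (.nd (nat_lit 9) 
(.nd (nat_lit 26) 
(.lf (nat_lit 2952869225) (dlOf (nat_lit 2) (nat_lit 0x2404e004630200300018009901))) 
(.lf (nat_lit 3691066729) (dlOf (nat_lit 2) (nat_lit 0x980000149c04005400200040008009902)))) 
(.nd (nat_lit 10) 
(.lf (nat_lit 738274153) (dlOf (nat_lit 1) (nat_lit 0x8008019c00200640008095c03))) 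
(.lf (nat_lit 536946537) (dlOf (nat_lit 1) (nat_lit 0x8008000400200020008004003))))))) 
(.nd (nat_lit 31) (.nd (nat_lit 22) (.nd (nat_lit 23) (.nd (nat_lit 9) 
(.lf (nat_lit 471408681) (dlOf (nat_lit 1) (nat_lit 0x1000282f0d81))) 
(.lf (nat_lit 50930217) (dlOf (nat_lit 1) (nat_lit 0x10004000200194d8902)))) (.nd (nat_lit 21) 
(.lf (nat_lit 42541097) (dlOf (nat_lit 1) (nat_lit 0x400200020009260202))) 
(.lf (nat_lit 11083817) (dlOf (nat_lit 4) (nat_lit 0x1c0000005602000762e00029810002a978000c80800e000800f400200040008660683))))) 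
(.nd (nat_lit 6) (.nd (nat_lit 8) 
(.lf (nat_lit 23666729) (dlOf (nat_lit 3) (nat_lit 0x35997e00d480201c2cbf006a3018b80000))) 
(.lf (nat_lit 46738217) (dlOf (nat_lit 1) (nat_lit 0x40029385c01)))) 
(.lf (nat_lit 474554473) (dlOf (nat_lit 1) (nat_lit 0x600291a0a01))))) (.nd (nat_lit 20) 
(.nd (nat_lit 21) (.nd (nat_lit 30) 
(.lf (nat_lit 2819170345) (dlOf (nat_lit 1) (nat_lit 0x4000181d0881))) 
(.lf (nat_lit 3892912169) (dlOf (nat_lit 2) (nat_lit 0x2300a20016c0200060018290d81)))) 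
(.lf (nat_lit 3492356137) (dlOf (nat_lit 1) (nat_lit 0xc002000600080c0c02)))) (.nd (nat_lit 9) 
(.lf (nat_lit 3491307561) (dlOf (nat_lit 1) (nat_lit 0x400200020008090002))) (.nd (nat_lit 26) 
(.lf (nat_lit 3491308073) (dlOf (nat_lit 1) (nat_lit 0x18008000800200100008090e03))) 
(.lf (nat_lit 2753110569) (dlOf (nat_lit 1) (nat_lit 0x18008000800200100008090e03)))))))) 
(.nd (nat_lit 29) (.nd (nat_lit 10) (.nd (nat_lit 8) (.nd (nat_lit 11) 
(.lf (nat_lit 30482665) (dlOf (nat_lit 1) (nat_lit 0x20028e30601))) 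
(.lf (nat_lit 8464617) (dlOf (nat_lit 1) (nat_lit 0xc0018514b01)))) (.nd (nat_lit 6) 
(.lf (nat_lit 20001193) (dlOf (nat_lit 1) (nat_lit 0x400189d8401))) (.nd (nat_lit 19) 
(.lf (nat_lit 1208035817) (dlOf (nat_lit 1) (nat_lit 0x800400020008094e82))) 
(.lf (nat_lit 37300713) (dlOf (nat_lit 1) (nat_lit 0x200290d4e81)))))) (.nd (nat_lit 6) 
(.nd (nat_lit 20) 
(.lf (nat_lit 1342254249) (dlOf (nat_lit 1) (nat_lit 0x58008000400200020008006283))) 
(.lf (nat_lit 19999913) (dlOf (nat_lit 1) (nat_lit 0x80080004002000200089d6283)))) 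
(.nd (nat_lit 11) (.nd (nat_lit 12) 
(.lf (nat_lit 4697695465) (dlOf (nat_lit 1) (nat_lit 0x74002002a0008092e82))) 
(.lf (nat_lit 3355522281) (dlOf (nat_lit 1) (nat_lit 0x8004000800180a9502)))) 
(.lf (nat_lit 3490262249) (dlOf (nat_lit 1) (nat_lit 0x1c0028006501)))))) (.nd (nat_lit 6) 
(.nd (nat_lit 11) (.nd (nat_lit 10) 
(.lf (nat_lit 1880695209) (dlOf (nat_lit 1) (nat_lit 0x50008000800200020008b36e83))) 
(.nd (nat_lit 26) 
(.lf (nat_lit 6308308393) (dlOf (nat_lit 1) (nat_lit 0x28008000800200020008053603))) 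
(.lf (nat_lit 4899022249) (dlOf (nat_lit 2) (nat_lit 0x200680011c04000400400040008053602))))) 
(.nd (nat_lit 26) (.nd (nat_lit 28) 
(.lf (nat_lit 3758172585) (dlOf (nat_lit 1) (nat_lit 0x8002000400080d4e82))) 
(.lf (nat_lit 6174091689) (dlOf (nat_lit 1) (nat_lit 0x20028054e81)))) 
(.lf (nat_lit 3154192809) (dlOf (nat_lit 1) (nat_lit 0xe00008104e81))))) (.nd (nat_lit 8) 
(.nd (nat_lit 20) 
(.lf (nat_lit 2885758185) (dlOf (nat_lit 2) (nat_lit 0x9b0000000b40800d0008000400200060008006503))) 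
(.lf (nat_lit 2754686185) (dlOf (nat_lit 2) (nat_lit 0x18201c000168180f6500)))) (.nd (nat_lit 9) 
(.lf (nat_lit 2080449001) (dlOf (nat_lit 2) (nat_lit 0x80580002c0200020018091301))) 
(.nd (nat_lit 11) 
(.lf (nat_lit 6375416809) (dlOf (nat_lit 2) (nat_lit 0x409b805f88080008008000800200020008002883))) 
(.lf (nat_lit 738274281) (dlOf (nat_lit 1) (nat_lit 0x400200020008095e82)))))))))) (.nd (nat_lit 5) 
(.nd (nat_lit 27) (.nd (nat_lit 6) (.nd (nat_lit 28) (.nd (nat_lit 21) (.nd (nat_lit 19) 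
(.nd (nat_lit 7) (.nd (nat_lit 26) 
(.lf (nat_lit 6442786825) (dlOf (nat_lit 1) (nat_lit 0x4002000200081b0002))) 
(.lf (nat_lit 604315657) (dlOf (nat_lit 1) (nat_lit 0x400400020008140002)))) (.nd (nat_lit 8) 
(.lf (nat_lit 21307529) (dlOf (nat_lit 7) (nat_lit 0x23b540025da80007ed30002f690000ba88000fd430001b060002ed5003d76a00053b4800035060011da60007ed20002750c000680c001bb540015da80009ed30003f6900023a860002e0a0019daa0014ed40005f698001fb480015d430001685000bed50005f6a0001bb4c000bda40007ea18000ac28010000800e000200040008a30f03))) 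
(.lf (nat_lit 8730505) (dlOf (nat_lit 1) (nat_lit 0x2800800040020002000851a303))))) 
(.nd (nat_lit 20) (.nd (nat_lit 23) 
(.lf (nat_lit 21831689) (dlOf (nat_lit 1) (nat_lit 0x20028a70481))) 
(.lf (nat_lit 13443081) (dlOf (nat_lit 1) (nat_lit 0x20018720801)))) 
(.lf (nat_lit 18685961) (dlOf (nat_lit 8) (nat_lit 0x212b00014957000a475001a9f5c00f0fac000c7ac00163d580049d7c0084e660036732003200a00154ac000b255c005d1d4000e8e900443eb800c1f580030f58001c7ab00173af80019d7800f0e66004c7320031f8c005b4ac002fa55c01751d400668e9008a3eb80181f580108f58009e7ab005d3af802c9d7801e0e6600da7320031e0c00293eb8018e408004a56000312ae00148ea00363eb801d9f58002cf5800307ab000b3af80151ccc0074e6400636140074958001f4ab801fa3a80194fae000e7d600353d6001c9d7c0144e66005e732003198900063e88016e4080048008004400200120008960283))))) 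
(.nd (nat_lit 7) (.nd (nat_lit 22) (.nd (nat_lit 10) 
(.lf (nat_lit 2433033) (dlOf (nat_lit 1) (nat_lit 0xc00200080008160402))) 
(.lf (nat_lit 20261897) (dlOf (nat_lit 2) (nat_lit 0xd5f28000000800580080018002000200089d5f83)))) 
(.nd (nat_lit 19) (.lf (nat_lit 16064521) (dlOf (nat_lit 2) (nat_lit 0x2743005ca818860280))) 
(.lf (nat_lit 24977417) (dlOf (nat_lit 1) (nat_lit 0x120028bd0581))))) (.nd (nat_lit 8) 
(.lf (nat_lit 3481737) (dlOf (nat_lit 1) (nat_lit 0x400200020008200102))) 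
(.lf (nat_lit 36514185) (dlOf (nat_lit 1) (nat_lit 0x800200280009074e82)))))) (.nd (nat_lit 26) 
(.nd (nat_lit 29) (.nd (nat_lit 30) (.nd (nat_lit 32) 
(.lf (nat_lit 268771337) (dlOf (nat_lit 1) (nat_lit 0xe80008140a01))) 
(.lf (nat_lit 4563738633) (dlOf (nat_lit 1) (nat_lit 0x8c004003e00080d0002)))) 
(.lf (nat_lit 1342513161) (dlOf (nat_lit 1) (nat_lit 0x3000200160008040482)))) (.nd (nat_lit 31) 
(.lf (nat_lit 5100609545) (dlOf (nat_lit 1) (nat_lit 0x20018100001))) 
(.lf (nat_lit 2953125897) (dlOf (nat_lit 7) (nat_lit 0x5202e0028016000580a800140520002027000d01080040080009803c0062018001f00b800c00440088000006401800ac02e0002016002580ac01000540070029006d0138002008c00640420024020001500f0010006800fc030005a0170107009801280440010018006000900070040076801400e8004005c0000031f9500a9017002600b001d4056008e02a004a0148067809c00ec04600a80210050010003b007801a003400fe018006b00b80a4804c019402200ce0090065004009e0014020400400c80000031e14001001500008084000403c00160180031c84002e017001600b000a0056006802a00060148005009c00300420012020002500f00038068007c030004001700a20098008004400fc00a001400200240000018d88803880b800c405800d402a001f0138002008c00e804200b601e005000d0027806000a001200fe00200260000018cc600100008000400200120008150283)))))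 
(.nd (nat_lit 7) 
(.lf (nat_lit 2483363849) (dlOf (nat_lit 3) (nat_lit 0x1700340032004048c01e085c00d000000280d0480))) 
(.lf (nat_lit 1410148489) (dlOf (nat_lit 1) (nat_lit 0x5800280f4801)))))) (.nd (nat_lit 7) 
(.nd (nat_lit 8) (.nd (nat_lit 19) (.nd (nat_lit 26) 
(.lf (nat_lit 4563738697) (dlOf (nat_lit 1) (nat_lit 0x22000801c8002002a00080d0503))) 
(.lf (nat_lit 2483363913) (dlOf (nat_lit 10) (nat_lit 0x9c0000003802014801000100070000dc1000d80a80004020000a00e0001a830012017001780a802d8020004400e0023001800064280af80a8053c050012201e002e00e00b00060096c020040a00e00380068016003003e401203bc0030000b8b0042015001580a0001401c000160600020100000a810041015005680400002808002c05001b001000ca0070000800c0000010002400205fe00080d0c82)))) 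
(.lf (nat_lit 21831753) (dlOf (nat_lit 1) (nat_lit 0x18008000400200060008a70883)))) 
(.nd (nat_lit 9) (.nd (nat_lit 11) 
(.lf (nat_lit 50668873) (dlOf (nat_lit 1) (nat_lit 0x1600294c3301))) 
(.lf (nat_lit 3490000201) (dlOf (nat_lit 2) (nat_lit 0x982300001a04000800400100018006982)))) 
(.nd (nat_lit 12) (.lf (nat_lit 20261705) (dlOf (nat_lit 1) (nat_lit 0x4002000200089d5c02))) 
(.lf (nat_lit 3490003785) (dlOf (nat_lit 1) (nat_lit 0x100020010000800bc82)))))) (.nd (nat_lit 8) 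
(.nd (nat_lit 19) (.nd (nat_lit 20) 
(.lf (nat_lit 52765897) (dlOf (nat_lit 1) (nat_lit 0x20029572d81))) 
(.lf (nat_lit 43328713) (dlOf (nat_lit 1) (nat_lit 0x200092a2d81)))) 
(.lf (nat_lit 61678793) (dlOf (nat_lit 1) (nat_lit 0x20029922d81)))) (.nd (nat_lit 9) 
(.nd (nat_lit 11) (.lf (nat_lit 21307849) (dlOf (nat_lit 1) (nat_lit 0x2f800400c40018a37102))) 
(.lf (nat_lit 2754947529) (dlOf (nat_lit 1) (nat_lit 0x200180f4e81)))) (.nd (nat_lit 12) 
(.lf (nat_lit 49095625) (dlOf (nat_lit 1) (nat_lit 0x400400020009462882))) 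
(.lf (nat_lit 8729545) (dlOf (nat_lit 1) (nat_lit 0xa0028519201)))))))) (.nd (nat_lit 28) 
(.nd (nat_lit 29) (.nd (nat_lit 26) (.nd (nat_lit 6) (.nd (nat_lit 30) 
(.lf (nat_lit 134553609) (dlOf (nat_lit 3) (nat_lit 0x15021800d440800f80ec0049004000c00400180018070502))) 
(.lf (nat_lit 1208295433) (dlOf (nat_lit 1) (nat_lit 0x8004000200080c0002)))) 
(.lf (nat_lit 1208295625) (dlOf (nat_lit 1) (nat_lit 0x8004002e00080c1b82)))) (.nd (nat_lit 6) 
(.nd (nat_lit 31) 
(.lf (nat_lit 201662473) (dlOf (nat_lit 3) (nat_lit 0x15021800b440800f80ec004b404000c00400180018070502))) 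
(.lf (nat_lit 2349146121) (dlOf (nat_lit 3) (nat_lit 0x1700340032004048c01e085c00d000000280d0480)))) 
(.lf (nat_lit 2349146185) (dlOf (nat_lit 10) (nat_lit 0x290020002000e0001c02001b01500008040001401c0003606004e0000001a810012016001780a802d8020004400e0023001800064280af80a8053c050012201d002e00e00b00060096c020040a00e00380068016003003e401003bc0030000b8b0042015001580a0001401c000160600020100000a810041015005680400002808002c05001b001000ca0070000800c0000010002400205fe00080d0c82))))) 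
(.nd (nat_lit 6) (.nd (nat_lit 7) (.nd (nat_lit 19) 
(.lf (nat_lit 3892649993) (dlOf (nat_lit 1) (nat_lit 0x380080054002003e0008180003))) 
(.lf (nat_lit 2819432457) (dlOf (nat_lit 1) (nat_lit 0x1000200060008280002)))) 
(.lf (nat_lit 1745166473) (dlOf (nat_lit 3) (nat_lit 0xa002c0002602001e016000110180c0f00)))) 
(.nd (nat_lit 7) 
(.lf (nat_lit 3892650057) (dlOf (nat_lit 1) (nat_lit 0x400080088002011a0008180683))) 
(.lf (nat_lit 1745166537) (dlOf (nat_lit 1) (nat_lit 0x4004000200080c1b82)))))) (.nd (nat_lit 26) 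
(.nd (nat_lit 30) (.nd (nat_lit 6) (.nd (nat_lit 29) 
(.lf (nat_lit 4697956361) (dlOf (nat_lit 1) (nat_lit 0x8c004003e00080d0002))) 
(.lf (nat_lit 5234827273) (dlOf (nat_lit 1) (nat_lit 0x80080004002000200080f0003)))) 
(.lf (nat_lit 4697956425) (dlOf (nat_lit 1) (nat_lit 0x22000801c8002002a00080d0503)))) 
(.nd (nat_lit 7) (.lf (nat_lit 1476730889) (dlOf (nat_lit 1) (nat_lit 0x60018150001))) 
(.lf (nat_lit 5773271177) (dlOf (nat_lit 1) (nat_lit 0x14004001800180c0e82))))) (.nd (nat_lit 30) 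
(.nd (nat_lit 22) (.lf (nat_lit 470097929) (dlOf (nat_lit 1) (nat_lit 0x3000200160008040482))) 
(.lf (nat_lit 474292233) (dlOf (nat_lit 1) (nat_lit 0x2c00400040009120002)))) (.nd (nat_lit 29) 
(.nd (nat_lit 31) (.lf (nat_lit 5838807049) (dlOf (nat_lit 1) (nat_lit 0x4002000200081b0002))) 
(.lf (nat_lit 3691323401) (dlOf (nat_lit 7) (nat_lit 0x5202e0028016000580a800140520002022000d0108004008000980320062018001f009000c0044008800000bd51800ac02e0002016002580ac0100054007002900040120036808800640420024020002000d800a806400fc030020e014002d009001280440010018006000900070040076801400e8004005c000005ea1500a9017002600b001d4056008e02a004a014801d8090033c04400a802100500100034006c01d803200fe018014900a00358048019402200ce0090065004009e0014020400400c8000005e79400100150000808400040320016018005e704002e017001600b000a0056006802a00060148005008800300420012020000700d80128064007c030014401400200090008004400fc00a00140020024000002f248803880b800c405800d402a0004012000f808800e804200a001b005b00c8027806000a001200fe0020026000002f20600100008000400200120008150283))))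 
(.lf (nat_lit 2080710665) (dlOf (nat_lit 1) (nat_lit 0x8004000200080c0002)))))))) (.nd (nat_lit 7) 
(.nd (nat_lit 19) (.nd (nat_lit 28) (.nd (nat_lit 21) (.nd (nat_lit 6) (.nd (nat_lit 26) 
(.lf (nat_lit 134553641) (dlOf (nat_lit 2) (nat_lit 0x60000001c818070880))) 
(.lf (nat_lit 201662505) (dlOf (nat_lit 4) (nat_lit 0x8d021000100f80008072006e011000140400350088000740802580440003004000c00400140018070802)))) 
(.lf (nat_lit 38085737) (dlOf (nat_lit 1) (nat_lit 0xc00200dc0009132982)))) (.nd (nat_lit 9) 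
(.lf (nat_lit 27598889) (dlOf (nat_lit 1) (nat_lit 0x800200020008d00802))) (.nd (nat_lit 20) 
(.lf (nat_lit 23405097) (dlOf (nat_lit 3) (nat_lit 0xe454000b0de000110400039150006c37800034100040008007c002005e0008b80e03))) 
(.lf (nat_lit 58008105) (dlOf (nat_lit 8) (nat_lit 0x65ec000121b0001d81000117b4000ea04000cbda000710200085ed000380100032f68001880800117b4000c2040020bda0000002000c00197a8901)))))) 
(.nd (nat_lit 27) (.nd (nat_lit 6) (.nd (nat_lit 10) 
(.lf (nat_lit 4563738665) (dlOf (nat_lit 1) (nat_lit 0x98004004400080d0282))) 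
(.lf (nat_lit 1345659945) (dlOf (nat_lit 1) (nat_lit 0x4000400300008dd2882)))) (.nd (nat_lit 8) 
(.lf (nat_lit 3494191209) (dlOf (nat_lit 1) (nat_lit 0x1e00080134002002a00081c1403))) 
(.lf (nat_lit 3557106025) (dlOf (nat_lit 1) (nat_lit 0x110008007800200280008130983))))) 
(.nd (nat_lit 8) (.nd (nat_lit 26) 
(.lf (nat_lit 4697956393) (dlOf (nat_lit 1) (nat_lit 0x98004004400080d0282))) 
(.lf (nat_lit 2617581609) (dlOf (nat_lit 8) (nat_lit 0x610000001580800400b4000940401ec064010e02900022820011016801d0060007c00600640000001904006a0000000b40801f800000058040024000000170200020018100681)))) 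
(.lf (nat_lit 3624217897) (dlOf (nat_lit 1) (nat_lit 0x10008001000200020008146803)))))) 
(.nd (nat_lit 23) (.nd (nat_lit 9) (.nd (nat_lit 21) 
(.lf (nat_lit 2819432489) (dlOf (nat_lit 1) (nat_lit 0x1000200060008280702))) 
(.lf (nat_lit 2957353) (dlOf (nat_lit 1) (nat_lit 0x1000281e0881)))) 
(.lf (nat_lit 38611497) (dlOf (nat_lit 1) (nat_lit 0x140029135181)))) (.nd (nat_lit 25) 
(.nd (nat_lit 21) (.lf (nat_lit 13443113) (dlOf (nat_lit 1) (nat_lit 0x20018720d01))) 
(.lf (nat_lit 11345961) (dlOf (nat_lit 1) (nat_lit 0x20018690601)))) (.nd (nat_lit 24) 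
(.lf (nat_lit 42803241) (dlOf (nat_lit 1) (nat_lit 0x13800400020009280202))) 
(.lf (nat_lit 59580457) (dlOf (nat_lit 1) (nat_lit 0x60004005e0009810882))))))) (.nd (nat_lit 6) 
(.nd (nat_lit 8) (.nd (nat_lit 10) (.nd (nat_lit 27) 
(.lf (nat_lit 5100609705) (dlOf (nat_lit 1) (nat_lit 0x20008000400200020008101483))) 
(.nd (nat_lit 29) (.lf (nat_lit 1208295593) (dlOf (nat_lit 1) (nat_lit 0x4004000200080c1482))) 
(.lf (nat_lit 1745166505) (dlOf (nat_lit 1) (nat_lit 0x4004000200080c1482))))) (.nd (nat_lit 9) 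
(.lf (nat_lit 47522985) (dlOf (nat_lit 1) (nat_lit 0xe0029402c01))) 
(.lf (nat_lit 20264617) (dlOf (nat_lit 1) (nat_lit 0x4002000200089da002))))) (.nd (nat_lit 9) 
(.nd (nat_lit 11) (.lf (nat_lit 8200617) (dlOf (nat_lit 1) (nat_lit 0x400200020008511002))) 
(.lf (nat_lit 36514217) (dlOf (nat_lit 1) (nat_lit 0x20019074e81)))) 
(.lf (nat_lit 2886018985) (dlOf (nat_lit 1) (nat_lit 0x10008001000200020008144303))))) 
(.nd (nat_lit 19) (.nd (nat_lit 8) (.nd (nat_lit 10) 
(.lf (nat_lit 2886019305) (dlOf (nat_lit 5) (nat_lit 0x400800140036001000000006c18016011000d80800142036004100000002c200238110013008000b2000000050300010220000240800e8008014800200020008144b03))) 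
(.lf (nat_lit 2754948329) (dlOf (nat_lit 3) (nat_lit 0x1800e0000b80803300700005a040008004000200180f6502)))) 
(.nd (nat_lit 10) (.lf (nat_lit 40182761) (dlOf (nat_lit 1) (nat_lit 0x1600191f2881))) 
(.lf (nat_lit 3493148649) (dlOf (nat_lit 2) (nat_lit 0x103d8027100800500080028002002000080fa603))))) 
(.nd (nat_lit 28) (.nd (nat_lit 8) 
(.lf (nat_lit 537734377) (dlOf (nat_lit 2) (nat_lit 0xc000000168180f6500))) 
(.lf (nat_lit 58534377) (dlOf (nat_lit 1) (nat_lit 0x4004000200197e4e82)))) (.nd (nat_lit 9) 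
(.lf (nat_lit 4094503401) (dlOf (nat_lit 1) (nat_lit 0x20008054e81))) 
(.lf (nat_lit 1879915497) (dlOf (nat_lit 1) (nat_lit 0x4002000200083dbf02))))))))))) 
(.nd (nat_lit 5) (.nd (nat_lit 13) (.nd (nat_lit 6) (.nd (nat_lit 26) (.nd (nat_lit 18) 
(.nd (nat_lit 19) (.nd (nat_lit 8) (.nd (nat_lit 7) (.nd (nat_lit 10) (.nd (nat_lit 21) 
(.lf (nat_lit 9502745) (dlOf (nat_lit 1) (nat_lit 0x20008000c00200040008560483))) 
(.lf (nat_lit 28377113) (dlOf (nat_lit 1) (nat_lit 0x2c8008010400200640008d90483)))) 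
(.lf (nat_lit 50398233) (dlOf (nat_lit 1) (nat_lit 0xc002000200094c2882)))) (.nd (nat_lit 10) 
(.lf (nat_lit 805372057) (dlOf (nat_lit 2) (nat_lit 0x1c01300001404006000400120008090182))) 
(.lf (nat_lit 5100340377) (dlOf (nat_lit 1) (nat_lit 0x20028052b81))))) (.nd (nat_lit 7) 
(.nd (nat_lit 10) (.lf (nat_lit 16843033) (dlOf (nat_lit 1) (nat_lit 0x400188e0701))) 
(.nd (nat_lit 11) (.lf (nat_lit 402720025) (dlOf (nat_lit 1) (nat_lit 0x400400020008093082))) 
(.lf (nat_lit 134286617) (dlOf (nat_lit 2) (nat_lit 0x1c076000100200020018006701))))) 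
(.nd (nat_lit 27) (.lf (nat_lit 5100340633) (dlOf (nat_lit 1) (nat_lit 0x940008053601))) 
(.lf (nat_lit 6308300185) (dlOf (nat_lit 1) (nat_lit 0x40028053601)))))) (.nd (nat_lit 20) 
(.nd (nat_lit 29) (.nd (nat_lit 9) (.nd (nat_lit 21) 
(.lf (nat_lit 134807577) (dlOf (nat_lit 1) (nat_lit 0xe8008007c00200da00080c0a83))) 
(.lf (nat_lit 6881305) (dlOf (nat_lit 1) (nat_lit 0x400400040008480482)))) 
(.lf (nat_lit 50922009) (dlOf (nat_lit 10) (nat_lit 0x12bbc30095de100056d4c003e20c001b786001ef0200c1bc3000d8810099de18050ef08002e80801c778600e3bc2000b9020086ddd80436ee40015e0801c7776000ad02010bbbb0085ddc80028c100286eec0014204000c004004600194d8702)))) 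
(.nd (nat_lit 7) (.lf (nat_lit 1879638041) (dlOf (nat_lit 1) (nat_lit 0x80018280481))) 
(.lf (nat_lit 537460889) (dlOf (nat_lit 1) (nat_lit 0x8008000400200040008090183))))) 
(.nd (nat_lit 8) (.nd (nat_lit 21) 
(.lf (nat_lit 5832729) (dlOf (nat_lit 1) (nat_lit 0x4004000400083f0482))) 
(.lf (nat_lit 3493396505) (dlOf (nat_lit 2) (nat_lit 0x60240001010001380100010008001c00200100008130483)))) 
(.lf (nat_lit 7931673) (dlOf (nat_lit 1) (nat_lit 0x8008000800200060008513c83)))))) 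
(.nd (nat_lit 19) (.nd (nat_lit 27) (.nd (nat_lit 20) (.nd (nat_lit 21) (.nd (nat_lit 29) 
(.lf (nat_lit 1342504985) (dlOf (nat_lit 1) (nat_lit 0xc00200040008040482))) 
(.lf (nat_lit 4026859545) (dlOf (nat_lit 25) (nat_lit 0xc06c01d3702001803600df081000501b006c480800380d80360a04000c06c01ad00201c402e007d4010023017003e800805600b801f1404038405c00f880201c202e007c281000a017003dd40804800b801ee604038405c00f6602007e02e007b20100e1017003d600806200b801eac04038405c00f540201c202e007a98100f8017003d440805000b801e9e04026c05c00f4e02011a02e007a68100a4017003d300802f00b801e9404021400401aa00080a0902)))) 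
(.lf (nat_lit 19202073) (dlOf (nat_lit 1) (nat_lit 0x1c0028970001)))) (.nd (nat_lit 22) 
(.lf (nat_lit 62193689) (dlOf (nat_lit 6) (nat_lit 0xa192000302600008010003064800140980000f04000c192000602600003410007064800380980000c040010192000702600002c100040008003800200120009970403))) 
(.lf (nat_lit 16056345) (dlOf (nat_lit 1) (nat_lit 0x10008000400200040008860503))))) 
(.nd (nat_lit 29) (.nd (nat_lit 7) 
(.lf (nat_lit 1208287257) (dlOf (nat_lit 2) (nat_lit 0x20380001d8180b0100))) 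
(.lf (nat_lit 402981017) (dlOf (nat_lit 1) (nat_lit 0x1400180c1201)))) (.nd (nat_lit 30) 
(.lf (nat_lit 671416345) (dlOf (nat_lit 3) (nat_lit 0x20130060f81000a014002c3808001000800cc00200060008190483))) 
(.lf (nat_lit 1745158169) (dlOf (nat_lit 3) (nat_lit 0x7801a00200098000940800b80680006026000208280b0100)))))) 
(.nd (nat_lit 8) (.nd (nat_lit 20) (.nd (nat_lit 24) 
(.lf (nat_lit 9240601) (dlOf (nat_lit 1) (nat_lit 0xa0008530101))) 
(.lf (nat_lit 59572249) (dlOf (nat_lit 1) (nat_lit 0x1000400080009810602)))) 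
(.lf (nat_lit 18677785) (dlOf (nat_lit 1) (nat_lit 0xf8008000800200240008960483)))) 
(.nd (nat_lit 7) 
(.lf (nat_lit 20781337) (dlOf (nat_lit 4) (nat_lit 0x55538001a8a00005008002154e0002302000eaa70000d8189dab00))) 
(.nd (nat_lit 10) (.lf (nat_lit 36506009) (dlOf (nat_lit 1) (nat_lit 0x20019074e81))) 
(.lf (nat_lit 8193433) (dlOf (nat_lit 1) (nat_lit 0x400200020008513602)))))))) (.nd (nat_lit 27) 
(.nd (nat_lit 8) (.nd (nat_lit 31) (.nd (nat_lit 7) (.nd (nat_lit 11) 
(.lf (nat_lit 872742937) (dlOf (nat_lit 3) (nat_lit 0x7801a00200098000940800b80680006026000208280b0100))) 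
(.lf (nat_lit 4362147865) (dlOf (nat_lit 1) (nat_lit 0x1e001800a601)))) (.nd (nat_lit 18) 
(.lf (nat_lit 1677787289) (dlOf (nat_lit 2) (nat_lit 0x1c01300001404006000400120008090182))) 
(.lf (nat_lit 335872153) (dlOf (nat_lit 1) (nat_lit 0x1400180c1201))))) (.nd (nat_lit 20) 
(.nd (nat_lit 28) 
(.lf (nat_lit 3288662041) (dlOf (nat_lit 25) (nat_lit 0xc06c019cb02001803600c5c81000501b005eb40800380d802f3204000c06c0176b0201c402e007d9810023017003eac0807080b801f3004038405c00f9502015802e007bd01000a017003de40804800b801eee04038405c00f6602007e02e007b28100c4017003d840807080b801ebe04038405c00f5d0201c202e007ae0100f8017003d680804d80b801e9e04028005c00f4e02011a02e007a68100a4017003d2c0802f00b801e9404021400401aa00080a0902))) 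
(.lf (nat_lit 3020226585) (dlOf (nat_lit 4) (nat_lit 0xa7018005e8028000be08002c060001c00a0002e820005015000150080028008001c00200080008190483)))) 
(.nd (nat_lit 18) 
(.lf (nat_lit 2755199001) (dlOf (nat_lit 2) (nat_lit 0x602400010100029d4100010008001c00200100008130483))) 
(.lf (nat_lit 2752839705) (dlOf (nat_lit 2) (nat_lit 0xc176005d7818050480)))))) (.nd (nat_lit 11) 
(.nd (nat_lit 10) (.nd (nat_lit 31) 
(.lf (nat_lit 1677787417) (dlOf (nat_lit 4) (nat_lit 0x51028802880e80012c0800fc0a2007c03a0004682003d028802280e80010a08001800400240018090482))) 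
(.lf (nat_lit 3825271065) (dlOf (nat_lit 1) (nat_lit 0x18002000c00080b0482)))) 
(.lf (nat_lit 872482073) (dlOf (nat_lit 1) (nat_lit 0x400400020008093082)))) (.nd (nat_lit 7) 
(.lf (nat_lit 67180825) (dlOf (nat_lit 1) (nat_lit 0x2000800040020002000800ab03))) 
(.lf (nat_lit 5704321945) (dlOf (nat_lit 1) (nat_lit 0x40028055c81)))))) (.nd (nat_lit 19) 
(.nd (nat_lit 28) (.nd (nat_lit 7) (.nd (nat_lit 31) 
(.lf (nat_lit 1812005145) (dlOf (nat_lit 1) (nat_lit 0x1200080b0481))) 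
(.lf (nat_lit 3959488793) (dlOf (nat_lit 1) (nat_lit 0x1400400160008090482)))) 
(.lf (nat_lit 2348877465) (dlOf (nat_lit 4) (nat_lit 0x5602a0006d0100220150003640802700a80000004024000400e40018003a82)))) 
(.nd (nat_lit 18) (.nd (nat_lit 7) 
(.lf (nat_lit 471924761) (dlOf (nat_lit 1) (nat_lit 0x4002000200086b0002))) 
(.lf (nat_lit 2080441497) (dlOf (nat_lit 1) (nat_lit 0x80028092b81)))) (.nd (nat_lit 29) 
(.lf (nat_lit 470089753) (dlOf (nat_lit 1) (nat_lit 0xc00200040008040482))) 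
(.lf (nat_lit 2080702489) (dlOf (nat_lit 2) (nat_lit 0x20380001d8180b0100)))))) (.nd (nat_lit 20) 
(.nd (nat_lit 7) (.nd (nat_lit 28) 
(.lf (nat_lit 201916441) (dlOf (nat_lit 1) (nat_lit 0xe8008007c00200da00080c0a83))) 
(.lf (nat_lit 1007222809) (dlOf (nat_lit 1) (nat_lit 0xa0028270481)))) 
(.lf (nat_lit 3154706585) (dlOf (nat_lit 1) (nat_lit 0x580080028002002a0008310483)))) 
(.nd (nat_lit 9) 
(.lf (nat_lit 471400473) (dlOf (nat_lit 10) (nat_lit 0x3826000140f00004e04000e098000603c00013410000825c0008c040018130000c0780002182000604c000281e000084080014130000c0780001f02000504c000301e000078080014130000c0780001d82000404c000301e00006e080008004000200182f0902))) 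
(.lf (nat_lit 1008271897) (dlOf (nat_lit 2) (nat_lit 0x81be0042a0200020028b18701)))))))) 
(.nd (nat_lit 7) (.nd (nat_lit 29) (.nd (nat_lit 23) (.nd (nat_lit 27) (.nd (nat_lit 8) 
(.nd (nat_lit 18) 
(.lf (nat_lit 21561433) (dlOf (nat_lit 1) (nat_lit 0x10008001400200060008a40683))) 
(.lf (nat_lit 3288662105) (dlOf (nat_lit 2) (nat_lit 0x400f000128180a1180)))) 
(.lf (nat_lit 16843097) (dlOf (nat_lit 1) (nat_lit 0x200288e0881)))) (.nd (nat_lit 8) 
(.nd (nat_lit 10) 
(.lf (nat_lit 472713817) (dlOf (nat_lit 2) (nat_lit 0x14030000000200020008a45301))) 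
(.lf (nat_lit 2617316953) (dlOf (nat_lit 1) (nat_lit 0x104004000e00080a9c02)))) 
(.lf (nat_lit 1543572825) (dlOf (nat_lit 1) (nat_lit 0x120028146a81))))) (.nd (nat_lit 18) 
(.nd (nat_lit 20) (.nd (nat_lit 21) 
(.lf (nat_lit 12648537) (dlOf (nat_lit 2) (nat_lit 0x204d60001202003400286d1181))) 
(.lf (nat_lit 44105817) (dlOf (nat_lit 2) (nat_lit 0x300000003002001a00092c0701)))) 
(.lf (nat_lit 26280025) (dlOf (nat_lit 1) (nat_lit 0x20028c30801)))) (.nd (nat_lit 8) 
(.lf (nat_lit 33360473) (dlOf (nat_lit 2) (nat_lit 0x681400012818f55300))) 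
(.lf (nat_lit 29688153) (dlOf (nat_lit 1) (nat_lit 0x2800200140008e30882)))))) (.nd (nat_lit 30) 
(.nd (nat_lit 18) (.nd (nat_lit 8) 
(.lf (nat_lit 939589721) (dlOf (nat_lit 1) (nat_lit 0x18004000200180b0002))) 
(.lf (nat_lit 536938329) (dlOf (nat_lit 1) (nat_lit 0x1c0018003f81)))) (.nd (nat_lit 26) 
(.nd (nat_lit 28) (.lf (nat_lit 4832165977) (dlOf (nat_lit 1) (nat_lit 0x400280f0701))) 
(.lf (nat_lit 5100601433) (dlOf (nat_lit 1) (nat_lit 0x40004000200080f0702)))) (.nd (nat_lit 27) 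
(.lf (nat_lit 872743001) (dlOf (nat_lit 3) (nat_lit 0x1c06400a0023004d00d002800400006a100024070001c033000148280b0700))) 
(.lf (nat_lit 3154444377) (dlOf (nat_lit 1) (nat_lit 0x4002000200081a0802)))))) (.nd (nat_lit 9) 
(.nd (nat_lit 27) (.nd (nat_lit 28) 
(.lf (nat_lit 1610940505) (dlOf (nat_lit 1) (nat_lit 0x80080004002000200080a1883))) 
(.lf (nat_lit 4026859609) (dlOf (nat_lit 2) (nat_lit 0x400f000090180a1180)))) 
(.lf (nat_lit 1745158233) (dlOf (nat_lit 3) (nat_lit 0x1c06400a0023004d00d002800400006a100024070001c033000148280b0700)))) 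
(.nd (nat_lit 18) (.lf (nat_lit 1880164953) (dlOf (nat_lit 1) (nat_lit 0x15c002000200087a5302))) 
(.lf (nat_lit 1881475673) (dlOf (nat_lit 2) (nat_lit 0x307180007c0800880080028002000a0008f05303))))))) 
(.nd (nat_lit 18) (.nd (nat_lit 8) (.nd (nat_lit 9) (.nd (nat_lit 10) 
(.lf (nat_lit 536938713) (dlOf (nat_lit 1) (nat_lit 0xc00200040008004a82))) (.nd (nat_lit 19) 
(.lf (nat_lit 2080441561) (dlOf (nat_lit 1) (nat_lit 0x60018092d81))) 
(.lf (nat_lit 61408473) (dlOf (nat_lit 1) (nat_lit 0x20029922d81))))) (.nd (nat_lit 12) 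
(.nd (nat_lit 26) 
(.lf (nat_lit 3758164697) (dlOf (nat_lit 3) (nat_lit 0x88000000198100180000000300800b800800dc002000800080d5903))) 
(.lf (nat_lit 3154184921) (dlOf (nat_lit 2) (nat_lit 0xc0580002000800038100008008000c00200040008105903)))) 
(.lf (nat_lit 67181273) (dlOf (nat_lit 1) (nat_lit 0x6001800b981))))) (.nd (nat_lit 10) 
(.nd (nat_lit 9) (.nd (nat_lit 26) 
(.lf (nat_lit 4697686489) (dlOf (nat_lit 1) (nat_lit 0x180008091201))) 
(.lf (nat_lit 872481241) (dlOf (nat_lit 1) (nat_lit 0x40008001400200060008091203)))) 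
(.lf (nat_lit 536937433) (dlOf (nat_lit 1) (nat_lit 0x20018002881)))) (.nd (nat_lit 19) 
(.nd (nat_lit 11) 
(.lf (nat_lit 4697687513) (dlOf (nat_lit 1) (nat_lit 0x50008009000200520008093603))) 
(.lf (nat_lit 134286809) (dlOf (nat_lit 1) (nat_lit 0x60018006d81)))) (.nd (nat_lit 20) 
(.lf (nat_lit 61408729) (dlOf (nat_lit 1) (nat_lit 0x20008014c00200640009923603))) 
(.lf (nat_lit 7931353) (dlOf (nat_lit 1) (nat_lit 0xf40028513601))))))) (.nd (nat_lit 20) 
(.nd (nat_lit 11) (.nd (nat_lit 8) (.nd (nat_lit 27) 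
(.lf (nat_lit 6711214297) (dlOf (nat_lit 1) (nat_lit 0x80080004002000200080c1903))) 
(.lf (nat_lit 5234819289) (dlOf (nat_lit 1) (nat_lit 0x100080004002000200080f1903)))) 
(.lf (nat_lit 23396825) (dlOf (nat_lit 1) (nat_lit 0x400200020008b80b02)))) (.nd (nat_lit 10) 
(.lf (nat_lit 2751793369) (dlOf (nat_lit 1) (nat_lit 0x4002000c0008004a82))) 
(.lf (nat_lit 3624209625) (dlOf (nat_lit 3) (nat_lit 0x10000000540800080f40000a040010004001a0018146482))))) 
(.nd (nat_lit 9) (.nd (nat_lit 26) (.nd (nat_lit 27) 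
(.lf (nat_lit 1900761) (dlOf (nat_lit 3) (nat_lit 0x1aa980048e04003d48e001710200420008150481))) 
(.lf (nat_lit 5773263065) (dlOf (nat_lit 1) (nat_lit 0x8004000200080c1902)))) 
(.lf (nat_lit 6377242841) (dlOf (nat_lit 1) (nat_lit 0x4002000400080c1c02)))) (.nd (nat_lit 11) 
(.lf (nat_lit 8196825) (dlOf (nat_lit 1) (nat_lit 0x400200020008518c82))) 
(.lf (nat_lit 20257497) (dlOf (nat_lit 1) (nat_lit 0x38004001200089db982))))))))) (.nd (nat_lit 18) 
(.nd (nat_lit 29) (.nd (nat_lit 6) (.nd (nat_lit 19) (.nd (nat_lit 7) (.nd (nat_lit 8) 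
(.nd (nat_lit 22) (.lf (nat_lit 1122329) (dlOf (nat_lit 1) (nat_lit 0x40018070481))) 
(.lf (nat_lit 30482457) (dlOf (nat_lit 1) (nat_lit 0x20028e30001)))) (.nd (nat_lit 10) 
(.lf (nat_lit 3219737) (dlOf (nat_lit 1) (nat_lit 0x20018200481))) 
(.lf (nat_lit 8463641) (dlOf (nat_lit 1) (nat_lit 0x580018513081))))) (.nd (nat_lit 8) 
(.nd (nat_lit 9) (.lf (nat_lit 6643856537) (dlOf (nat_lit 1) (nat_lit 0x20018009501))) 
(.lf (nat_lit 4563479193) (dlOf (nat_lit 1) (nat_lit 0x7400200280008095502)))) 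
(.lf (nat_lit 5704330137) (dlOf (nat_lit 3) (nat_lit 0x100180001e01001500c0000dc080020008000800200020008055c83))))) 
(.nd (nat_lit 20) (.nd (nat_lit 7) (.nd (nat_lit 9) 
(.lf (nat_lit 4362674201) (dlOf (nat_lit 2) (nat_lit 0x1005a0174d02000200180d0901))) 
(.lf (nat_lit 50930201) (dlOf (nat_lit 5) (nat_lit 0x33bc3001bde10007c41000def0c007778400174040039bbb001eddc8002bc1000e6eec007f772000a304002200294d8701)))) 
(.lf (nat_lit 29958297) (dlOf (nat_lit 1) (nat_lit 0xc0028e30481)))) (.nd (nat_lit 22) 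
(.lf (nat_lit 1345921049) (dlOf (nat_lit 1) (nat_lit 0x54004000e0018e20002))) 
(.lf (nat_lit 41492505) (dlOf (nat_lit 1) (nat_lit 0x1a0019240001)))))) (.nd (nat_lit 7) 
(.nd (nat_lit 19) (.nd (nat_lit 20) (.nd (nat_lit 9) 
(.lf (nat_lit 44114009) (dlOf (nat_lit 2) (nat_lit 0x4000000062040014002000200092c0702))) 
(.lf (nat_lit 2617320025) (dlOf (nat_lit 2) (nat_lit 0x501580011c0800180080010002000c00080a1683)))) 
(.nd (nat_lit 8) (.lf (nat_lit 26288217) (dlOf (nat_lit 1) (nat_lit 0x400400020008c30802))) 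
(.lf (nat_lit 20001113) (dlOf (nat_lit 1) (nat_lit 0x8002000200089d8382))))) (.nd (nat_lit 9) 
(.nd (nat_lit 22) (.lf (nat_lit 1409884249) (dlOf (nat_lit 1) (nat_lit 0x7000080a1181))) 
(.lf (nat_lit 21569625) (dlOf (nat_lit 2) (nat_lit 0x449820005602000c0028a40681)))) 
(.lf (nat_lit 62466649) (dlOf (nat_lit 1) (nat_lit 0x680080004002000200099a5303))))) 
(.nd (nat_lit 8) (.nd (nat_lit 9) 
(.lf (nat_lit 4563476697) (dlOf (nat_lit 1) (nat_lit 0xe0008004400200620008090983))) 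
(.nd (nat_lit 10) (.lf (nat_lit 7942873) (dlOf (nat_lit 1) (nat_lit 0x20018518c81))) 
(.lf (nat_lit 77529) (dlOf (nat_lit 1) (nat_lit 0xc0018007381))))) (.nd (nat_lit 10) 
(.nd (nat_lit 11) 
(.lf (nat_lit 4697694681) (dlOf (nat_lit 2) (nat_lit 0x48034001c00a8000001001000080080002004a0008091203))) 
(.lf (nat_lit 37300697) (dlOf (nat_lit 1) (nat_lit 0x80080004002000200090d4e83)))) 
(.nd (nat_lit 12) (.lf (nat_lit 4697695705) (dlOf (nat_lit 1) (nat_lit 0x540008093601))) 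
(.lf (nat_lit 7943641) (dlOf (nat_lit 1) (nat_lit 0x20028519b01)))))))) (.nd (nat_lit 26) 
(.nd (nat_lit 6) (.nd (nat_lit 7) (.nd (nat_lit 28) (.nd (nat_lit 27) 
(.lf (nat_lit 1611210777) (dlOf (nat_lit 1) (nat_lit 0x20028110181))) 
(.lf (nat_lit 2819170329) (dlOf (nat_lit 1) (nat_lit 0x200080010002000600081d0483)))) 
(.nd (nat_lit 19) (.lf (nat_lit 805380121) (dlOf (nat_lit 2) (nat_lit 0x1c05400394018090000))) 
(.lf (nat_lit 1879646233) (dlOf (nat_lit 1) (nat_lit 0xa0028290481))))) (.nd (nat_lit 8) 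
(.nd (nat_lit 10) 
(.lf (nat_lit 939597977) (dlOf (nat_lit 7) (nat_lit 0x3404c001002200027020007013000400880009a08005404c001e0220002182000c013000500880024042000601d0002104002f0130008808800180380003e060016026000d0110000f01000100080064002001000080b0183))) 
(.lf (nat_lit 6039876761) (dlOf (nat_lit 1) (nat_lit 0x40018009501)))) 
(.lf (nat_lit 6308308377) (dlOf (nat_lit 3) (nat_lit 0x2500c0002500800200600012604001000400040018053602))))) 
(.nd (nat_lit 7) (.nd (nat_lit 9) (.nd (nat_lit 10) 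
(.lf (nat_lit 537469017) (dlOf (nat_lit 1) (nat_lit 0x7000080a1181))) 
(.lf (nat_lit 3892388953) (dlOf (nat_lit 1) (nat_lit 0x80018102901)))) 
(.lf (nat_lit 1610688089) (dlOf (nat_lit 1) (nat_lit 0x400200020008093882)))) (.nd (nat_lit 8) 
(.lf (nat_lit 536946905) (dlOf (nat_lit 2) (nat_lit 0x40570001b818004a80))) 
(.lf (nat_lit 1610687961) (dlOf (nat_lit 1) (nat_lit 0x400400020008093602)))))) (.nd (nat_lit 8) 
(.nd (nat_lit 30) (.nd (nat_lit 6) (.nd (nat_lit 10) 
(.lf (nat_lit 738795545) (dlOf (nat_lit 1) (nat_lit 0x20028110181))) 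
(.lf (nat_lit 738274329) (dlOf (nat_lit 1) (nat_lit 0x2a0028096001)))) 
(.lf (nat_lit 3019973721) (dlOf (nat_lit 1) (nat_lit 0x2400180d2901)))) (.nd (nat_lit 7) 
(.nd (nat_lit 19) (.lf (nat_lit 1677795353) (dlOf (nat_lit 2) (nat_lit 0x4e0540064d018090000))) 
(.lf (nat_lit 4228456473) (dlOf (nat_lit 2) (nat_lit 0x10058015bf02000200180d0901)))) 
(.lf (nat_lit 1812013209) (dlOf (nat_lit 7) (nat_lit 0x3404c001002200027020007013000400880009a08005404c001e0220002182000c013000500880024042000601d0002104002f0130008808800180380003e060016026000d0110000f01000100080064002001000080b0183))))) 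
(.nd (nat_lit 6) (.nd (nat_lit 7) (.nd (nat_lit 27) 
(.lf (nat_lit 1677795609) (dlOf (nat_lit 2) (nat_lit 0x6404e000960200020008090481))) 
(.lf (nat_lit 3959496985) (dlOf (nat_lit 2) (nat_lit 0x120200004b018090480)))) 
(.lf (nat_lit 3154192793) (dlOf (nat_lit 1) (nat_lit 0xdc0008104e81)))) (.nd (nat_lit 9) 
(.lf (nat_lit 2080448985) (dlOf (nat_lit 2) (nat_lit 0x4052000120200560028091201))) 
(.lf (nat_lit 5167459289) (dlOf (nat_lit 1) (nat_lit 0x3800400040018055e02)))))))) (.nd (nat_lit 6) 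
(.nd (nat_lit 26) (.nd (nat_lit 19) (.nd (nat_lit 29) (.nd (nat_lit 20) (.nd (nat_lit 8) 
(.nd (nat_lit 27) 
(.lf (nat_lit 268771353) (dlOf (nat_lit 4) (nat_lit 0x3002a0014014800f00a0001004e00cc908002202a000e014800d00a0019900c00b405000c860200200028140a01))) 
(.lf (nat_lit 134553625) (dlOf (nat_lit 2) (nat_lit 0x4086000000200120008070501)))) 
(.lf (nat_lit 6442787097) (dlOf (nat_lit 1) (nat_lit 0x4002000200081b0482)))) (.nd (nat_lit 21) 
(.lf (nat_lit 22355993) (dlOf (nat_lit 1) (nat_lit 0x40018ac0181))) (.nd (nat_lit 23) 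
(.lf (nat_lit 3481625) (dlOf (nat_lit 1) (nat_lit 0x440018200001))) 
(.lf (nat_lit 62201881) (dlOf (nat_lit 11) (nat_lit 0x900000010008014a91800ad48a0048a3400225198000802000fa9180003e04004548c0001e02002aa46001151a0000481000da918005946800011040026a46000a51a00003c10007a91800294680000d040052a46002b522801428d000294660000b080002a46000351a0000281001b0008005800200040009970403)))))) 
(.nd (nat_lit 27) (.nd (nat_lit 28) 
(.lf (nat_lit 537206809) (dlOf (nat_lit 4) (nat_lit 0x406f0060f81004e02a00018114017940800f40a800bc202006a0018050481))) 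
(.lf (nat_lit 4026867737) (dlOf (nat_lit 1) (nat_lit 0x7000280b0901)))) (.nd (nat_lit 30) 
(.nd (nat_lit 31) (.lf (nat_lit 671424537) (dlOf (nat_lit 1) (nat_lit 0x400400020018190482))) 
(.lf (nat_lit 2818908185) (dlOf (nat_lit 1) (nat_lit 0x20018130001)))) 
(.lf (nat_lit 3892650009) (dlOf (nat_lit 2) (nat_lit 0xb40aa0046034002000a0000a4180048008001c00200140008180103)))))) 
(.nd (nat_lit 21) (.nd (nat_lit 20) (.nd (nat_lit 23) 
(.lf (nat_lit 2819432473) (dlOf (nat_lit 3) (nat_lit 0x3c06800a9402000803400546818280480))) 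
(.lf (nat_lit 9248793) (dlOf (nat_lit 1) (nat_lit 0x400200020008530102)))) (.nd (nat_lit 7) 
(.lf (nat_lit 18685977) (dlOf (nat_lit 2) (nat_lit 0x3398800070080010008000400200020008960483))) 
(.lf (nat_lit 5773271193) (dlOf (nat_lit 1) (nat_lit 0x18004001200180c1202))))) (.nd (nat_lit 7) 
(.nd (nat_lit 8) (.lf (nat_lit 15540249) (dlOf (nat_lit 1) (nat_lit 0xc0028800501))) 
(.lf (nat_lit 23929113) (dlOf (nat_lit 1) (nat_lit 0x75800400740008b80482)))) 
(.lf (nat_lit 36514201) (dlOf (nat_lit 1) (nat_lit 0x20019074e81)))))) (.nd (nat_lit 30) 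
(.nd (nat_lit 27) (.nd (nat_lit 28) 
(.lf (nat_lit 6509895705) (dlOf (nat_lit 1) (nat_lit 0x800400080008160482))) (.nd (nat_lit 29) 
(.lf (nat_lit 4630847513) (dlOf (nat_lit 1) (nat_lit 0x400400020008110182))) 
(.lf (nat_lit 5167718425) (dlOf (nat_lit 1) (nat_lit 0x20008140181))))) (.nd (nat_lit 28) 
(.lf (nat_lit 201662489) (dlOf (nat_lit 2) (nat_lit 0x4086000000200120008070501))) 
(.lf (nat_lit 4765065241) (dlOf (nat_lit 1) (nat_lit 0x400400020008110182))))) (.nd (nat_lit 7) 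
(.nd (nat_lit 19) (.nd (nat_lit 28) 
(.lf (nat_lit 3288670233) (dlOf (nat_lit 1) (nat_lit 0x7000280b0901))) 
(.lf (nat_lit 3557105689) (dlOf (nat_lit 1) (nat_lit 0x20018130001)))) 
(.lf (nat_lit 4096598041) (dlOf (nat_lit 2) (nat_lit 0x502b0000c0080018008002c00200100008130403)))) 
(.nd (nat_lit 8) (.lf (nat_lit 6377250969) (dlOf (nat_lit 1) (nat_lit 0x18004001200180c1202))) 
(.lf (nat_lit 6241460633) (dlOf (nat_lit 1) (nat_lit 0x14004000200180f6482))))))) (.nd (nat_lit 7) 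
(.nd (nat_lit 22) (.nd (nat_lit 23) (.nd (nat_lit 27) 
(.lf (nat_lit 4563738713) (dlOf (nat_lit 2) (nat_lit 0xf0088000000800680080084002005e00080d0683))) 
(.nd (nat_lit 28) (.lf (nat_lit 3892650073) (dlOf (nat_lit 1) (nat_lit 0x2400200020008180802))) 
(.lf (nat_lit 4697956441) (dlOf (nat_lit 2) (nat_lit 0xf0088000000800680080084002005e00080d0683))))) 
(.nd (nat_lit 9) (.nd (nat_lit 19) 
(.lf (nat_lit 9773145) (dlOf (nat_lit 1) (nat_lit 0x34002000e0008580682))) 
(.lf (nat_lit 9248857) (dlOf (nat_lit 3) (nat_lit 0x610780002604002c83c001641b00008028530700)))) 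
(.lf (nat_lit 45427289) (dlOf (nat_lit 1) (nat_lit 0x100019325301))))) (.nd (nat_lit 31) 
(.nd (nat_lit 9) (.lf (nat_lit 38085721) (dlOf (nat_lit 1) (nat_lit 0x20019132901))) 
(.lf (nat_lit 33368665) (dlOf (nat_lit 2) (nat_lit 0x5114000881200012828f55300)))) 
(.nd (nat_lit 26) (.lf (nat_lit 3494191193) (dlOf (nat_lit 1) (nat_lit 0x1800081c1181))) 
(.lf (nat_lit 2755993689) (dlOf (nat_lit 1) (nat_lit 0x1800081c1181)))))) (.nd (nat_lit 8) 
(.nd (nat_lit 9) (.nd (nat_lit 10) 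
(.lf (nat_lit 5637480665) (dlOf (nat_lit 1) (nat_lit 0xc00280f1901))) 
(.lf (nat_lit 3624217817) (dlOf (nat_lit 4) (nat_lit 0x100ec0002c04001406a001a0000000a8200050220000140800780080014002001e0008146483)))) 
(.lf (nat_lit 20265689) (dlOf (nat_lit 1) (nat_lit 0x280080008002000200089db983)))) 
(.nd (nat_lit 9) (.nd (nat_lit 10) 
(.lf (nat_lit 23405017) (dlOf (nat_lit 1) (nat_lit 0x400400020018b80b02))) 
(.lf (nat_lit 3490000345) (dlOf (nat_lit 1) (nat_lit 0x6000400020018006d82)))) 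
(.lf (nat_lit 38085593) (dlOf (nat_lit 1) (nat_lit 0x20019132881))))))))) (.nd (nat_lit 6) 
(.nd (nat_lit 18) (.nd (nat_lit 8) (.nd (nat_lit 27) (.nd (nat_lit 19) (.nd (nat_lit 21) 
(.nd (nat_lit 7) 
(.lf (nat_lit 12656697) (dlOf (nat_lit 2) (nat_lit 0xa18fc00046040014004000400086d0b02))) 
(.nd (nat_lit 9) 
(.lf (nat_lit 55641273) (dlOf (nat_lit 2) (nat_lit 0x36750000000800880080014002001800096d2c83))) 
(.lf (nat_lit 2952861369) (dlOf (nat_lit 2) (nat_lit 0x30000012fc08004000800e80020026000800a003))))) 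
(.nd (nat_lit 7) (.lf (nat_lit 56691257) (dlOf (nat_lit 1) (nat_lit 0x10008000400200040009735203))) 
(.nd (nat_lit 11) (.lf (nat_lit 2171065) (dlOf (nat_lit 1) (nat_lit 0xa0018150381))) 
(.lf (nat_lit 3492874425) (dlOf (nat_lit 1) (nat_lit 0x1200280f4901)))))) (.nd (nat_lit 30) 
(.nd (nat_lit 12) (.nd (nat_lit 7) 
(.lf (nat_lit 2756247609) (dlOf (nat_lit 2) (nat_lit 0xe200f000714080b90008041000200780008220b83))) 
(.lf (nat_lit 39396537) (dlOf (nat_lit 1) (nat_lit 0x20019192c81)))) (.nd (nat_lit 9) 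
(.lf (nat_lit 7934009) (dlOf (nat_lit 1) (nat_lit 0x60028517c81))) 
(.lf (nat_lit 7936569) (dlOf (nat_lit 3) (nat_lit 0x18558000c70100082ac0006340800a80080038002002c000851b403))))) 
(.nd (nat_lit 13) (.nd (nat_lit 21) 
(.lf (nat_lit 3494445113) (dlOf (nat_lit 2) (nat_lit 0xe200f000714080b90008041000200780008220b83))) 
(.lf (nat_lit 3492347961) (dlOf (nat_lit 2) (nat_lit 0xa0450000e80800980080040002001800080c1303)))) 
(.nd (nat_lit 26) 
(.lf (nat_lit 1611210809) (dlOf (nat_lit 3) (nat_lit 0x203f00020810005020800048080098008001400200540008110703))) 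
(.lf (nat_lit 1409884217) (dlOf (nat_lit 2) (nat_lit 0xa02f8000b00801580080074002000200080a0b83))))))) 
(.nd (nat_lit 13) (.nd (nat_lit 19) (.nd (nat_lit 7) 
(.lf (nat_lit 470876217) (dlOf (nat_lit 2) (nat_lit 0x2b86a00004c040058004000200081c0882))) 
(.nd (nat_lit 12) 
(.lf (nat_lit 1543572665) (dlOf (nat_lit 1) (nat_lit 0x8008000400200020008146303))) 
(.lf (nat_lit 134290617) (dlOf (nat_lit 1) (nat_lit 0x10002003c000800c202))))) (.nd (nat_lit 20) 
(.nd (nat_lit 29) 
(.lf (nat_lit 134807609) (dlOf (nat_lit 1) (nat_lit 0x100080018002001c00080c1303))) 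
(.lf (nat_lit 3892903993) (dlOf (nat_lit 2) (nat_lit 0xc0a6000204600000028291100)))) 
(.lf (nat_lit 471400505) (dlOf (nat_lit 11) (nat_lit 0xe098000603c00012010003026000180f00004704000c098000603c00011010003026000140f000043040006098000603c00010810002826000180f000040040008098000603c0000f810000825c00078040010130000c0780001c0200040120000d40800100080018002000200082f1103))))) 
(.nd (nat_lit 7) (.nd (nat_lit 26) (.nd (nat_lit 29) 
(.lf (nat_lit 134815801) (dlOf (nat_lit 1) (nat_lit 0x8008000c002000200080c1303))) 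
(.lf (nat_lit 3892912185) (dlOf (nat_lit 1) (nat_lit 0x800400020008291102)))) (.nd (nat_lit 20) 
(.lf (nat_lit 738795577) (dlOf (nat_lit 3) (nat_lit 0x203f00020810005020800048080098008001400200540008110703))) 
(.lf (nat_lit 471408697) (dlOf (nat_lit 1) (nat_lit 0x8002000200082f1102))))) (.nd (nat_lit 9) 
(.lf (nat_lit 3355522233) (dlOf (nat_lit 1) (nat_lit 0xe00080a9501))) (.nd (nat_lit 26) 
(.lf (nat_lit 1476474553) (dlOf (nat_lit 1) (nat_lit 0x4002800a001))) 
(.lf (nat_lit 3691067065) (dlOf (nat_lit 2) (nat_lit 0x3002800940040030002001c000800a002)))))))) 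
(.nd (nat_lit 28) (.nd (nat_lit 29) (.nd (nat_lit 9) (.nd (nat_lit 32) (.nd (nat_lit 7) 
(.nd (nat_lit 10) 
(.lf (nat_lit 3221299513) (dlOf (nat_lit 2) (nat_lit 0x3c06e007e02000012828090580))) 
(.lf (nat_lit 8459577) (dlOf (nat_lit 1) (nat_lit 0x400200020008519902)))) 
(.lf (nat_lit 34146745) (dlOf (nat_lit 1) (nat_lit 0x20028fb4e81)))) (.nd (nat_lit 26) 
(.nd (nat_lit 27) (.lf (nat_lit 4295033145) (dlOf (nat_lit 1) (nat_lit 0x400400020008014c02))) 
(.lf (nat_lit 4429250873) (dlOf (nat_lit 1) (nat_lit 0x400400020008014c02)))) 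
(.lf (nat_lit 6509625657) (dlOf (nat_lit 1) (nat_lit 0x800280b0581))))) (.nd (nat_lit 10) 
(.nd (nat_lit 13) (.lf (nat_lit 19991353) (dlOf (nat_lit 1) (nat_lit 0x4002000200089d5c02))) 
(.lf (nat_lit 19999545) (dlOf (nat_lit 1) (nat_lit 0x4002000200089d5c02)))) (.nd (nat_lit 7) 
(.lf (nat_lit 7943993) (dlOf (nat_lit 1) (nat_lit 0x40020004000851a102))) 
(.lf (nat_lit 7935929) (dlOf (nat_lit 1) (nat_lit 0x40040004000851a502)))))) (.nd (nat_lit 7) 
(.nd (nat_lit 13) (.nd (nat_lit 26) 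
(.lf (nat_lit 5905645881) (dlOf (nat_lit 1) (nat_lit 0x800280b0581))) 
(.lf (nat_lit 1677787449) (dlOf (nat_lit 2) (nat_lit 0x1b814400f0074000260400020018090581)))) 
(.lf (nat_lit 3959497017) (dlOf (nat_lit 2) (nat_lit 0x3c06e007e02000013028090580)))) 
(.nd (nat_lit 10) (.lf (nat_lit 3892382137) (dlOf (nat_lit 1) (nat_lit 0x6c00400460008104e82))) 
(.lf (nat_lit 4899014073) (dlOf (nat_lit 1) (nat_lit 0x400200020008053602)))))) (.nd (nat_lit 7) 
(.nd (nat_lit 9) (.nd (nat_lit 12) (.nd (nat_lit 29) 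
(.lf (nat_lit 4563468601) (dlOf (nat_lit 1) (nat_lit 0x4002000a0008090b82))) 
(.lf (nat_lit 805372217) (dlOf (nat_lit 2) (nat_lit 0x1b814400f0074000250400020018090581)))) 
(.lf (nat_lit 469831993) (dlOf (nat_lit 1) (nat_lit 0x8008000400200020008008183)))) 
(.nd (nat_lit 11) (.lf (nat_lit 2617316153) (dlOf (nat_lit 1) (nat_lit 0x1a00280a8f81))) 
(.nd (nat_lit 13) (.lf (nat_lit 5704321849) (dlOf (nat_lit 1) (nat_lit 0x40028055c01))) 
(.lf (nat_lit 5704330041) (dlOf (nat_lit 2) (nat_lit 0x2800c0000c4080020008000800200020008055c03)))))) 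
(.nd (nat_lit 13) (.nd (nat_lit 20) (.nd (nat_lit 21) 
(.lf (nat_lit 4697686457) (dlOf (nat_lit 2) (nat_lit 0x201200006818091080))) 
(.lf (nat_lit 1008796089) (dlOf (nat_lit 1) (nat_lit 0x1000400020008f86f02)))) (.nd (nat_lit 11) 
(.lf (nat_lit 1880687033) (dlOf (nat_lit 2) (nat_lit 0x154000000000200540018b36f01))) 
(.lf (nat_lit 1007749561) (dlOf (nat_lit 1) (nat_lit 0x1800287a4e81))))) (.nd (nat_lit 10) 
(.lf (nat_lit 1880695225) (dlOf (nat_lit 2) (nat_lit 0x1000000000018b36f00))) (.nd (nat_lit 11) 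
(.lf (nat_lit 6308308409) (dlOf (nat_lit 2) (nat_lit 0x600c0000b0080018008000800200020008053603))) 
(.lf (nat_lit 469843385) (dlOf (nat_lit 1) (nat_lit 0x12002800cd01))))))))) (.nd (nat_lit 30) 
(.nd (nat_lit 21) (.nd (nat_lit 26) (.nd (nat_lit 19) (.nd (nat_lit 13) 
(.lf (nat_lit 29687865) (dlOf (nat_lit 1) (nat_lit 0x800200020008e30002))) (.nd (nat_lit 20) 
(.lf (nat_lit 2550472761) (dlOf (nat_lit 1) (nat_lit 0x4c00080c1301))) 
(.lf (nat_lit 30744633) (dlOf (nat_lit 1) (nat_lit 0x400200020008e41102))))) (.nd (nat_lit 7) 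
(.nd (nat_lit 9) 
(.lf (nat_lit 21823545) (dlOf (nat_lit 2) (nat_lit 0x2c8b0001600800a0008007c00200640008a70683))) 
(.lf (nat_lit 38603321) (dlOf (nat_lit 1) (nat_lit 0xe0019135201)))) 
(.lf (nat_lit 34407609) (dlOf (nat_lit 1) (nat_lit 0x30008000400200080008fb2c83))))) 
(.nd (nat_lit 13) (.nd (nat_lit 27) (.nd (nat_lit 20) 
(.lf (nat_lit 2483355705) (dlOf (nat_lit 1) (nat_lit 0x1c002000400080d0b82))) 
(.lf (nat_lit 68485177) (dlOf (nat_lit 1) (nat_lit 0x400200020008581102)))) (.nd (nat_lit 8) 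
(.lf (nat_lit 2349137977) (dlOf (nat_lit 1) (nat_lit 0x1c002000400080d0b82))) 
(.lf (nat_lit 2886010681) (dlOf (nat_lit 1) (nat_lit 0x20028143e01))))) (.nd (nat_lit 27) 
(.nd (nat_lit 28) (.lf (nat_lit 6509895737) (dlOf (nat_lit 1) (nat_lit 0x7c00200020008160682))) 
(.lf (nat_lit 2483363897) (dlOf (nat_lit 2) (nat_lit 0x2fe02b000e68180d0b80)))) 
(.lf (nat_lit 2349146169) (dlOf (nat_lit 2) (nat_lit 0x2fe02b000e68180d0b80)))))) (.nd (nat_lit 19) 
(.nd (nat_lit 20) (.nd (nat_lit 9) 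
(.lf (nat_lit 2433081) (dlOf (nat_lit 2) (nat_lit 0x652e00008c080280008030400200c20008160b03))) 
(.lf (nat_lit 35981881) (dlOf (nat_lit 1) (nat_lit 0x20019015201)))) (.nd (nat_lit 7) 
(.lf (nat_lit 3473721) (dlOf (nat_lit 1) (nat_lit 0x400400020008200582))) 
(.lf (nat_lit 11862201) (dlOf (nat_lit 1) (nat_lit 0xdd8008002800204f000086c0383))))) 
(.nd (nat_lit 7) (.nd (nat_lit 13) (.nd (nat_lit 20) 
(.lf (nat_lit 11337785) (dlOf (nat_lit 2) (nat_lit 0x39f3c0018f960016504000c0018690d81))) 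
(.lf (nat_lit 16580665) (dlOf (nat_lit 1) (nat_lit 0x4004000600188c0902)))) 
(.lf (nat_lit 11345977) (dlOf (nat_lit 3) (nat_lit 0x34f9e001c7cb000b28200063e8000524080068008001c00200080008690d83)))) 
(.nd (nat_lit 10) 
(.lf (nat_lit 12386745) (dlOf (nat_lit 1) (nat_lit 0x580080010002001600086c0803))) 
(.lf (nat_lit 8193465) (dlOf (nat_lit 1) (nat_lit 0x400200020008513602))))))) (.nd (nat_lit 27) 
(.nd (nat_lit 29) (.nd (nat_lit 7) (.nd (nat_lit 13) 
(.lf (nat_lit 1346175033) (dlOf (nat_lit 1) (nat_lit 0x400400020008e60582))) 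
(.lf (nat_lit 3492094009) (dlOf (nat_lit 1) (nat_lit 0x4002000200080a0b82)))) 
(.lf (nat_lit 3557103289) (dlOf (nat_lit 1) (nat_lit 0xbc002000a000812a002)))) (.nd (nat_lit 7) 
(.nd (nat_lit 8) (.lf (nat_lit 5905915961) (dlOf (nat_lit 1) (nat_lit 0x7c00200020008160682))) 
(.lf (nat_lit 1678049593) (dlOf (nat_lit 1) (nat_lit 0x20018158481)))) 
(.lf (nat_lit 1879905977) (dlOf (nat_lit 1) (nat_lit 0x200283da001))))) (.nd (nat_lit 31) 
(.nd (nat_lit 7) (.nd (nat_lit 26) 
(.lf (nat_lit 1208287289) (dlOf (nat_lit 2) (nat_lit 0x88028000110180b0480))) 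
(.lf (nat_lit 2080702521) (dlOf (nat_lit 2) (nat_lit 0x88028000138180b0480)))) 
(.lf (nat_lit 5773263033) (dlOf (nat_lit 1) (nat_lit 0x4004000200180c1702)))) (.nd (nat_lit 13) 
(.lf (nat_lit 3355770937) (dlOf (nat_lit 2) (nat_lit 0x18017800594080210008003400200240008110d83))) 
(.nd (nat_lit 29) 
(.lf (nat_lit 3355779129) (dlOf (nat_lit 2) (nat_lit 0x7402f000500680059410002800800ac00200160008110d83))) 
(.lf (nat_lit 3892650041) (dlOf (nat_lit 1) (nat_lit 0x20018180481))))))))) (.nd (nat_lit 8) 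
(.nd (nat_lit 13) (.nd (nat_lit 7) (.nd (nat_lit 9) (.nd (nat_lit 20) (.nd (nat_lit 26) 
(.lf (nat_lit 6442516601) (dlOf (nat_lit 1) (nat_lit 0x400400040008090082))) 
(.lf (nat_lit 5838536825) (dlOf (nat_lit 1) (nat_lit 0x400400040008090082)))) (.nd (nat_lit 18) 
(.lf (nat_lit 58261625) (dlOf (nat_lit 1) (nat_lit 0x3000197d2a01))) 
(.lf (nat_lit 28639353) (dlOf (nat_lit 1) (nat_lit 0x400200020008da0482))))) (.nd (nat_lit 27) 
(.nd (nat_lit 10) (.lf (nat_lit 6710954617) (dlOf (nat_lit 1) (nat_lit 0x400200020008005402))) 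
(.lf (nat_lit 5100340857) (dlOf (nat_lit 1) (nat_lit 0x20018053981)))) (.nd (nat_lit 26) 
(.lf (nat_lit 1744898681) (dlOf (nat_lit 1) (nat_lit 0xc00200020008095402))) 
(.lf (nat_lit 5301668473) (dlOf (nat_lit 1) (nat_lit 0x380080008002000a0008005403)))))) 
(.nd (nat_lit 12) (.nd (nat_lit 26) (.nd (nat_lit 19) 
(.lf (nat_lit 1744896249) (dlOf (nat_lit 1) (nat_lit 0x8004000c0008090a82))) 
(.lf (nat_lit 50921721) (dlOf (nat_lit 1) (nat_lit 0x14002000800094d2902)))) (.nd (nat_lit 10) 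
(.nd (nat_lit 27) 
(.lf (nat_lit 3825271033) (dlOf (nat_lit 3) (nat_lit 0x801f000600d8007805c0014000001d008000801f000500b8007381000280080170002001a00080b0483))) 
(.lf (nat_lit 1812005113) (dlOf (nat_lit 2) (nat_lit 0x60090000803e002801a001a0000008ec2000100080184002001000080b0483)))) 
(.lf (nat_lit 2080441593) (dlOf (nat_lit 1) (nat_lit 0x60018092e81))))) (.nd (nat_lit 9) 
(.nd (nat_lit 10) (.nd (nat_lit 11) 
(.lf (nat_lit 1342247161) (dlOf (nat_lit 1) (nat_lit 0x8008002000200040008008083))) 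
(.lf (nat_lit 67180793) (dlOf (nat_lit 1) (nat_lit 0x8001800a981)))) 
(.lf (nat_lit 67179769) (dlOf (nat_lit 2) (nat_lit 0x1c1900067c02001c0008009501)))) 
(.nd (nat_lit 18) (.lf (nat_lit 6643847929) (dlOf (nat_lit 1) (nat_lit 0x120028008f81))) 
(.lf (nat_lit 20779769) (dlOf (nat_lit 1) (nat_lit 0x200080014002000a00089d8f83))))))) 
(.nd (nat_lit 7) (.nd (nat_lit 29) (.nd (nat_lit 9) (.nd (nat_lit 10) (.nd (nat_lit 27) 
(.lf (nat_lit 3221299321) (dlOf (nat_lit 1) (nat_lit 0x20028090081))) 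
(.lf (nat_lit 1208033401) (dlOf (nat_lit 1) (nat_lit 0x9400400100008090202)))) 
(.lf (nat_lit 8469625) (dlOf (nat_lit 1) (nat_lit 0x40020002000851c102)))) (.nd (nat_lit 11) 
(.lf (nat_lit 7938681) (dlOf (nat_lit 1) (nat_lit 0x8008000400200020008511903))) 
(.lf (nat_lit 46738041) (dlOf (nat_lit 1) (nat_lit 0x800400060009385402))))) (.nd (nat_lit 27) 
(.nd (nat_lit 9) (.nd (nat_lit 26) 
(.lf (nat_lit 805380217) (dlOf (nat_lit 2) (nat_lit 0x12013800dc06e000802400126038090080))) 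
(.lf (nat_lit 1677795449) (dlOf (nat_lit 2) (nat_lit 0x12013800dc06e00080240011a038090080)))) 
(.lf (nat_lit 4899022457) (dlOf (nat_lit 1) (nat_lit 0x380018053981)))) (.nd (nat_lit 9) 
(.nd (nat_lit 18) (.lf (nat_lit 3959496825) (dlOf (nat_lit 1) (nat_lit 0x20028090081))) 
(.lf (nat_lit 6377250937) (dlOf (nat_lit 1) (nat_lit 0x10004001a00180c0c82)))) 
(.lf (nat_lit 6308308601) (dlOf (nat_lit 1) (nat_lit 0x8008000400200020008053983)))))) 
(.nd (nat_lit 9) (.nd (nat_lit 28) (.nd (nat_lit 18) 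
(.lf (nat_lit 19996921) (dlOf (nat_lit 1) (nat_lit 0x4002000200089d0a82))) 
(.lf (nat_lit 6442787065) (dlOf (nat_lit 2) (nat_lit 0x170178007280801000080044002004600081b0483)))) 
(.nd (nat_lit 19) 
(.lf (nat_lit 4563476729) (dlOf (nat_lit 2) (nat_lit 0x2009000534080028008004000200360008090a83))) 
(.lf (nat_lit 470360313) (dlOf (nat_lit 1) (nat_lit 0x30002001800080c0482))))) (.nd (nat_lit 11) 
(.lf (nat_lit 8463097) (dlOf (nat_lit 1) (nat_lit 0x400200020008512102))) 
(.lf (nat_lit 39922425) (dlOf (nat_lit 1) (nat_lit 0x8008000c002000400091f5a03))))))) 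
(.nd (nat_lit 13) (.nd (nat_lit 7) (.nd (nat_lit 11) (.nd (nat_lit 10) (.nd (nat_lit 9) 
(.lf (nat_lit 474284409) (dlOf (nat_lit 1) (nat_lit 0x800802f800201600009115883))) 
(.lf (nat_lit 3355513721) (dlOf (nat_lit 1) (nat_lit 0x200080a8f81)))) (.nd (nat_lit 18) 
(.lf (nat_lit 5100340601) (dlOf (nat_lit 3) (nat_lit 0xc0190001781000600c8000b80800d8008000c00200020008053503))) 
(.lf (nat_lit 8193401) (dlOf (nat_lit 1) (nat_lit 0x400200020008513502))))) (.nd (nat_lit 26) 
(.nd (nat_lit 27) (.lf (nat_lit 4563470713) (dlOf (nat_lit 1) (nat_lit 0x400400020008094e82))) 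
(.lf (nat_lit 2013333881) (dlOf (nat_lit 1) (nat_lit 0x1c8004013c0008004e82)))) 
(.lf (nat_lit 335612281) (dlOf (nat_lit 1) (nat_lit 0x400400020008094e82))))) (.nd (nat_lit 9) 
(.nd (nat_lit 11) (.nd (nat_lit 10) 
(.lf (nat_lit 23396857) (dlOf (nat_lit 1) (nat_lit 0x800400420008b80d82))) (.nd (nat_lit 18) 
(.lf (nat_lit 61408761) (dlOf (nat_lit 1) (nat_lit 0x20019923681))) 
(.lf (nat_lit 43320825) (dlOf (nat_lit 1) (nat_lit 0x5800292a3681))))) (.nd (nat_lit 10) 
(.lf (nat_lit 44632569) (dlOf (nat_lit 1) (nat_lit 0x18008009400200320009324f83))) 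
(.nd (nat_lit 19) 
(.lf (nat_lit 3624209913) (dlOf (nat_lit 1) (nat_lit 0x8008000400200040008146f83))) 
(.lf (nat_lit 20778489) (dlOf (nat_lit 1) (nat_lit 0x2d8002003000089d6f82)))))) (.nd (nat_lit 26) 
(.nd (nat_lit 11) (.nd (nat_lit 31) 
(.lf (nat_lit 4966122489) (dlOf (nat_lit 1) (nat_lit 0x60018002881))) 
(.lf (nat_lit 2818638841) (dlOf (nat_lit 1) (nat_lit 0x5c00400260008082882)))) 
(.lf (nat_lit 1610681337) (dlOf (nat_lit 1) (nat_lit 0x20028005f01)))) (.nd (nat_lit 18) 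
(.lf (nat_lit 2751529977) (dlOf (nat_lit 1) (nat_lit 0x400200020008002882))) 
(.lf (nat_lit 4096066553) (dlOf (nat_lit 1) (nat_lit 0x600280e2881))))))) (.nd (nat_lit 7) 
(.nd (nat_lit 32) (.nd (nat_lit 19) (.nd (nat_lit 11) 
(.lf (nat_lit 3557106041) (dlOf (nat_lit 1) (nat_lit 0x118008006800200320008130b03))) 
(.lf (nat_lit 20261241) (dlOf (nat_lit 1) (nat_lit 0x4002000200089d4e82)))) (.nd (nat_lit 18) 
(.lf (nat_lit 7938425) (dlOf (nat_lit 1) (nat_lit 0x12800800b000200520008511003))) 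
(.lf (nat_lit 1909113) (dlOf (nat_lit 1) (nat_lit 0x220018150781))))) (.nd (nat_lit 26) 
(.nd (nat_lit 10) 
(.lf (nat_lit 4697694585) (dlOf (nat_lit 1) (nat_lit 0xb0008004c00200680008091003))) 
(.lf (nat_lit 5100348793) (dlOf (nat_lit 3) (nat_lit 0x1c019001400b0000bc100038064003002c0002e0400600028053501)))) 
(.nd (nat_lit 30) 
(.lf (nat_lit 4496369017) (dlOf (nat_lit 3) (nat_lit 0x1a01c0001901000200e0000b00804080080130002000a0008053503))) 
(.lf (nat_lit 5570110841) (dlOf (nat_lit 2) (nat_lit 0x120058000b0080058008001000200100008053503)))))) 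
(.nd (nat_lit 30) (.nd (nat_lit 10) (.nd (nat_lit 11) (.nd (nat_lit 21) 
(.lf (nat_lit 21307897) (dlOf (nat_lit 1) (nat_lit 0xc00400040008a37802))) 
(.lf (nat_lit 23405049) (dlOf (nat_lit 1) (nat_lit 0x190008008000200600008b80d83)))) 
(.lf (nat_lit 33106425) (dlOf (nat_lit 1) (nat_lit 0x8008000400200020008f54f83)))) 
(.nd (nat_lit 18) (.lf (nat_lit 4496369145) (dlOf (nat_lit 1) (nat_lit 0x20028053681))) 
(.lf (nat_lit 52766201) (dlOf (nat_lit 1) (nat_lit 0x20029573681))))) (.nd (nat_lit 9) 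
(.nd (nat_lit 10) 
(.lf (nat_lit 3491308025) (dlOf (nat_lit 2) (nat_lit 0x24116000000200100028090d81))) 
(.nd (nat_lit 11) 
(.lf (nat_lit 6308308473) (dlOf (nat_lit 2) (nat_lit 0xe00600007404001000400040018053682))) 
(.lf (nat_lit 3624218105) (dlOf (nat_lit 1) (nat_lit 0x50008004000200260008146f83))))) 
(.nd (nat_lit 26) (.lf (nat_lit 4026606585) (dlOf (nat_lit 1) (nat_lit 0x40018002881))) 
(.lf (nat_lit 5435892729) (dlOf (nat_lit 1) (nat_lit 0x40018002881))))))))))))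

end

end Pool.Agent.Lib.MP_5854e1_co.Cz

namespace Pool.Agent.Lib.MP_5854e1_co.Cz

noncomputable section

noncomputable def tz53 : DT := (.nd (nat_lit 5) (.nd (nat_lit 13) (.nd (nat_lit 4) 
(.nd (nat_lit 18) (.nd (nat_lit 28) (.nd (nat_lit 6) (.nd (nat_lit 10) (.nd (nat_lit 19) 
(.nd (nat_lit 20) (.nd (nat_lit 22) 
(.lf (nat_lit 1073938441) (dlOf (nat_lit 3) (nat_lit 0x200290004e010001014800234080008008000c00200040008030483))) 
(.lf (nat_lit 29556745) (dlOf (nat_lit 1) (nat_lit 0x120018e20281)))) (.nd (nat_lit 8) 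
(.lf (nat_lit 18022409) (dlOf (nat_lit 2) (nat_lit 0x49ee0009c0200020008900581))) 
(.lf (nat_lit 68354313) (dlOf (nat_lit 1) (nat_lit 0x220018570701))))) (.nd (nat_lit 20) 
(.nd (nat_lit 26) (.nd (nat_lit 29) 
(.lf (nat_lit 134938633) (dlOf (nat_lit 1) (nat_lit 0x20002000c00080e0002))) 
(.lf (nat_lit 2819293193) (dlOf (nat_lit 2) (nat_lit 0x680d000af404001000200020008220282)))) 
(.lf (nat_lit 202047497) (dlOf (nat_lit 1) (nat_lit 0x20002000c00080e0002)))) (.nd (nat_lit 8) 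
(.lf (nat_lit 8061449) (dlOf (nat_lit 1) (nat_lit 0x800801ac002005e0008511483))) 
(.lf (nat_lit 8063241) (dlOf (nat_lit 2) (nat_lit 0x20af2000e30200020028514b81)))))) 
(.nd (nat_lit 9) (.nd (nat_lit 20) (.nd (nat_lit 8) 
(.lf (nat_lit 69403657) (dlOf (nat_lit 1) (nat_lit 0x8008000400200020008962883))) 
(.lf (nat_lit 36373769) (dlOf (nat_lit 1) (nat_lit 0x20019072f81)))) (.nd (nat_lit 11) 
(.lf (nat_lit 51577865) (dlOf (nat_lit 1) (nat_lit 0x400200020009512882))) 
(.lf (nat_lit 20122633) (dlOf (nat_lit 2) (nat_lit 0x85f28000000800a00080024002001400089d5f83))))) 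
(.nd (nat_lit 7) (.lf (nat_lit 671287049) (dlOf (nat_lit 1) (nat_lit 0x2000400120008143b82))) 
(.nd (nat_lit 11) (.lf (nat_lit 8586889) (dlOf (nat_lit 1) (nat_lit 0x400400020018513a02))) 
(.lf (nat_lit 6509760137) (dlOf (nat_lit 1) (nat_lit 0x10008000c00200040008147183))))))) 
(.nd (nat_lit 7) (.nd (nat_lit 22) (.nd (nat_lit 8) (.nd (nat_lit 27) 
(.lf (nat_lit 4362273353) (dlOf (nat_lit 3) (nat_lit 0x1880a8000230200bc0540000f018018d00))) 
(.lf (nat_lit 2349007433) (dlOf (nat_lit 1) (nat_lit 0xc00400060008091182)))) (.nd (nat_lit 9) 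
(.lf (nat_lit 1812136265) (dlOf (nat_lit 2) (nat_lit 0x802500521818154c00))) 
(.lf (nat_lit 20122441) (dlOf (nat_lit 1) (nat_lit 0x4002000200089d5c02))))) (.nd (nat_lit 20) 
(.nd (nat_lit 9) (.lf (nat_lit 14876745) (dlOf (nat_lit 1) (nat_lit 0xc0028790681))) 
(.lf (nat_lit 32180809) (dlOf (nat_lit 1) (nat_lit 0x10008000800200020008ef5203)))) 
(.nd (nat_lit 10) (.lf (nat_lit 8061513) (dlOf (nat_lit 1) (nat_lit 0xe0028511581))) 
(.lf (nat_lit 8066633) (dlOf (nat_lit 1) (nat_lit 0x20028519c01)))))) (.nd (nat_lit 9) 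
(.nd (nat_lit 8) (.nd (nat_lit 19) 
(.lf (nat_lit 43189449) (dlOf (nat_lit 1) (nat_lit 0x40002000c00092a2d82))) 
(.lf (nat_lit 43713737) (dlOf (nat_lit 1) (nat_lit 0x8200092a2d81)))) 
(.lf (nat_lit 51579337) (dlOf (nat_lit 1) (nat_lit 0x40019514e81)))) (.nd (nat_lit 8) 
(.nd (nat_lit 10) (.lf (nat_lit 2818775753) (dlOf (nat_lit 1) (nat_lit 0x380040002000812b982))) 
(.lf (nat_lit 2885879497) (dlOf (nat_lit 1) (nat_lit 0x8008000400200020008143a83)))) 
(.lf (nat_lit 2885878729) (dlOf (nat_lit 1) (nat_lit 0x8008000400200020008142883))))))) 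
(.nd (nat_lit 26) (.nd (nat_lit 7) (.nd (nat_lit 6) (.nd (nat_lit 8) (.nd (nat_lit 21) 
(.lf (nat_lit 6308429833) (dlOf (nat_lit 4) (nat_lit 0x39c030007150201680180038a0100b500c001c4c0801300080144002001a0008080003))) 
(.lf (nat_lit 1881341961) (dlOf (nat_lit 1) (nat_lit 0x2920008ea0001)))) (.nd (nat_lit 10) 
(.lf (nat_lit 1879245065) (dlOf (nat_lit 1) (nat_lit 0x30008000c002000200080c0483))) 
(.lf (nat_lit 2013463817) (dlOf (nat_lit 1) (nat_lit 0x200080030002000c0008092f83))))) 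
(.nd (nat_lit 8) (.nd (nat_lit 9) 
(.lf (nat_lit 6308429897) (dlOf (nat_lit 1) (nat_lit 0x480080078002001a0008080503))) 
(.lf (nat_lit 939721289) (dlOf (nat_lit 1) (nat_lit 0xe8008003000200660008158d03)))) 
(.lf (nat_lit 939721033) (dlOf (nat_lit 2) (nat_lit 0x802500257018154c00))))) (.nd (nat_lit 10) 
(.nd (nat_lit 6) (.lf (nat_lit 268635017) (dlOf (nat_lit 1) (nat_lit 0x4004000200080e5c02))) 
(.nd (nat_lit 9) 
(.lf (nat_lit 1342374345) (dlOf (nat_lit 1) (nat_lit 0x48008002800200120008017103))) 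
(.lf (nat_lit 6711083977) (dlOf (nat_lit 1) (nat_lit 0x400400020008092882))))) (.nd (nat_lit 8) 
(.nd (nat_lit 12) 
(.lf (nat_lit 2013464201) (dlOf (nat_lit 7) (nat_lit 0x9500980005804018804c0002b020020025000a0120000a41000280980005004001404c000210200fe0260000e018093a00))) 
(.lf (nat_lit 4160951945) (dlOf (nat_lit 2) (nat_lit 0x3015800090080080008002c002001000080a9e03)))) 
(.lf (nat_lit 2013463945) (dlOf (nat_lit 1) (nat_lit 0x20008001000200080008093603)))))) 
(.nd (nat_lit 9) (.nd (nat_lit 32) (.nd (nat_lit 6) (.nd (nat_lit 19) 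
(.lf (nat_lit 1946353673) (dlOf (nat_lit 3) (nat_lit 0x200290004e010001014800234080008008000c00200040008030483))) 
(.lf (nat_lit 4096458761) (dlOf (nat_lit 2) (nat_lit 0x384c8003000001c620400060018110001)))) 
(.lf (nat_lit 1410007113) (dlOf (nat_lit 5) (nat_lit 0x805703be029003c0100000680c043c0a40003202007405d003202b80200088008003e000401c0001885004102900009c0800f000800f0002010400080c1483)))) 
(.nd (nat_lit 6) (.nd (nat_lit 8) 
(.lf (nat_lit 5704450057) (dlOf (nat_lit 4) (nat_lit 0x39c03000cbf0201680180065e8100b500c0032f00801300080144002001a0008080003))) 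
(.lf (nat_lit 4764927241) (dlOf (nat_lit 1) (nat_lit 0x400400020008092f82)))) 
(.lf (nat_lit 5704450121) (dlOf (nat_lit 1) (nat_lit 0x480080078002001a0008080503))))) 
(.nd (nat_lit 7) (.nd (nat_lit 6) (.nd (nat_lit 10) 
(.lf (nat_lit 6378160649) (dlOf (nat_lit 1) (nat_lit 0x60028117b01))) 
(.lf (nat_lit 4764927497) (dlOf (nat_lit 1) (nat_lit 0x620018093681)))) 
(.lf (nat_lit 2483225161) (dlOf (nat_lit 1) (nat_lit 0xc00400060008091182)))) (.nd (nat_lit 8) 
(.nd (nat_lit 10) (.lf (nat_lit 3556971145) (dlOf (nat_lit 1) (nat_lit 0x20008128b81))) 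
(.lf (nat_lit 4095936137) (dlOf (nat_lit 1) (nat_lit 0x8004000200080e3a02)))) 
(.lf (nat_lit 2617447305) (dlOf (nat_lit 1) (nat_lit 0x4004000200180a9002)))))))) (.nd (nat_lit 19) 
(.nd (nat_lit 26) (.nd (nat_lit 30) (.nd (nat_lit 22) (.nd (nat_lit 6) 
(.lf (nat_lit 1507337) (dlOf (nat_lit 1) (nat_lit 0xa80080014002000600080e0583))) 
(.lf (nat_lit 6442909769) (dlOf (nat_lit 1) (nat_lit 0x400400020008220c82)))) (.nd (nat_lit 21) 
(.lf (nat_lit 54984713) (dlOf (nat_lit 1) (nat_lit 0x28008000800200020009680003))) 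
(.lf (nat_lit 15138825) (dlOf (nat_lit 1) (nat_lit 0x114004002600187c0482))))) (.nd (nat_lit 27) 
(.nd (nat_lit 29) (.nd (nat_lit 28) 
(.lf (nat_lit 1074200585) (dlOf (nat_lit 8) (nat_lit 0x300520009f0200280290003e81002d0148001f00800a80a4000ea040038052000740200260290003981000e0148001c80800980080024002001e00080d0483))) 
(.lf (nat_lit 5637603337) (dlOf (nat_lit 1) (nat_lit 0x20028120a01)))) (.nd (nat_lit 6) 
(.lf (nat_lit 1611071497) (dlOf (nat_lit 1) (nat_lit 0x4004000200180d0002))) 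
(.lf (nat_lit 1611071561) (dlOf (nat_lit 2) (nat_lit 0x2032000228180d0500))))) (.nd (nat_lit 6) 
(.nd (nat_lit 28) (.lf (nat_lit 3892772873) (dlOf (nat_lit 1) (nat_lit 0x20028250281))) 
(.lf (nat_lit 3624337417) (dlOf (nat_lit 1) (nat_lit 0x8008001c00200600008160483)))) 
(.lf (nat_lit 3624337481) (dlOf (nat_lit 3) (nat_lit 0x100e8000440800100740001e04005400400500008160882)))))) 
(.nd (nat_lit 6) (.nd (nat_lit 28) (.nd (nat_lit 10) (.nd (nat_lit 31) 
(.lf (nat_lit 738656265) (dlOf (nat_lit 1) (nat_lit 0x4004000200180d0002))) 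
(.lf (nat_lit 2886139913) (dlOf (nat_lit 1) (nat_lit 0x8008001c00200600008160483)))) 
(.lf (nat_lit 2751923209) (dlOf (nat_lit 1) (nat_lit 0x400200020008002882)))) (.nd (nat_lit 29) 
(.lf (nat_lit 3557228553) (dlOf (nat_lit 2) (nat_lit 0x101c006874080170008005c00200420008170003))) 
(.nd (nat_lit 32) 
(.lf (nat_lit 1946615817) (dlOf (nat_lit 8) (nat_lit 0x300520009f0200280290003e81002d0148001f00800a80a4000ea040038052000740200260290003981000e0148001c80800980080024002001e00080d0483))) 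
(.lf (nat_lit 6241583113) (dlOf (nat_lit 1) (nat_lit 0x20028120a01)))))) (.nd (nat_lit 28) 
(.nd (nat_lit 7) (.nd (nat_lit 31) 
(.lf (nat_lit 738656329) (dlOf (nat_lit 2) (nat_lit 0x2032000240180d0500))) 
(.lf (nat_lit 2886139977) (dlOf (nat_lit 3) (nat_lit 0x100e0000440800100700001e04005400400500008160882)))) 
(.lf (nat_lit 604439753) (dlOf (nat_lit 1) (nat_lit 0x40028282d81)))) (.nd (nat_lit 7) 
(.nd (nat_lit 29) (.lf (nat_lit 5838929993) (dlOf (nat_lit 1) (nat_lit 0x400400020008220c82))) 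
(.lf (nat_lit 1007091785) (dlOf (nat_lit 2) (nat_lit 0x2e80000000004002400200c00008170682)))) 
(.lf (nat_lit 2080836041) (dlOf (nat_lit 1) (nat_lit 0x200180e4e81))))))) (.nd (nat_lit 7) 
(.nd (nat_lit 21) (.nd (nat_lit 6) (.nd (nat_lit 8) (.nd (nat_lit 20) 
(.lf (nat_lit 13565961) (dlOf (nat_lit 10) (nat_lit 0x1948d000a6810004a8a0004ec08002d45000272040012a280012f02001151400051180003641000108c0001b0040006a28000ca0200020000003e81005a0000001f008006000800d800200360008730483))) 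
(.lf (nat_lit 3491692553) (dlOf (nat_lit 1) (nat_lit 0x40008090001)))) 
(.lf (nat_lit 51315977) (dlOf (nat_lit 1) (nat_lit 0x400400020009512f82)))) (.nd (nat_lit 20) 
(.nd (nat_lit 22) 
(.lf (nat_lit 470745161) (dlOf (nat_lit 2) (nat_lit 0x83d800061e700000028170680))) 
(.lf (nat_lit 13566025) (dlOf (nat_lit 4) (nat_lit 0x60b44000320401445a200160000000b820001a8d0000d4400000008001c002001c0008730c82)))) 
(.lf (nat_lit 14614601) (dlOf (nat_lit 1) (nat_lit 0x10008000800200020008770683))))) 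
(.nd (nat_lit 10) (.nd (nat_lit 20) 
(.lf (nat_lit 28246025) (dlOf (nat_lit 1) (nat_lit 0x400400020008d70282))) (.nd (nat_lit 22) 
(.lf (nat_lit 3493789705) (dlOf (nat_lit 1) (nat_lit 0xc004000200081b0002))) 
(.lf (nat_lit 58654729) (dlOf (nat_lit 1) (nat_lit 0x3200197e0001))))) (.nd (nat_lit 6) 
(.lf (nat_lit 3492742153) (dlOf (nat_lit 1) (nat_lit 0x4002000200080f2882))) 
(.lf (nat_lit 19861321) (dlOf (nat_lit 1) (nat_lit 0x200189d7781)))))) (.nd (nat_lit 8) 
(.nd (nat_lit 21) (.nd (nat_lit 26) (.nd (nat_lit 28) 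
(.lf (nat_lit 2031753) (dlOf (nat_lit 1) (nat_lit 0x190008000400200420008150103))) 
(.lf (nat_lit 1344209033) (dlOf (nat_lit 1) (nat_lit 0x2e0028490101)))) 
(.lf (nat_lit 471793801) (dlOf (nat_lit 1) (nat_lit 0x2e0028490101)))) (.nd (nat_lit 6) 
(.nd (nat_lit 9) (.lf (nat_lit 2754550921) (dlOf (nat_lit 1) (nat_lit 0x4002000600080fc202))) 
(.lf (nat_lit 19858057) (dlOf (nat_lit 1) (nat_lit 0x3000089d1a01)))) 
(.lf (nat_lit 8329929) (dlOf (nat_lit 1) (nat_lit 0x2002851b981))))) (.nd (nat_lit 6) 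
(.nd (nat_lit 9) (.lf (nat_lit 8323465) (dlOf (nat_lit 1) (nat_lit 0x400200020008511002))) 
(.lf (nat_lit 19860361) (dlOf (nat_lit 1) (nat_lit 0x80080018002000a00089d5c03)))) (.nd (nat_lit 9) 
(.nd (nat_lit 11) 
(.lf (nat_lit 3491693001) (dlOf (nat_lit 2) (nat_lit 0x1c105800000080020008004400200080008090983))) 
(.lf (nat_lit 41880009) (dlOf (nat_lit 1) (nat_lit 0x400400020009244e82)))) 
(.lf (nat_lit 3492742089) (dlOf (nat_lit 1) (nat_lit 0xa00280f2881))))))))) (.nd (nat_lit 6) 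
(.nd (nat_lit 19) (.nd (nat_lit 18) (.nd (nat_lit 8) (.nd (nat_lit 9) (.nd (nat_lit 7) 
(.nd (nat_lit 23) (.lf (nat_lit 19071001) (dlOf (nat_lit 1) (nat_lit 0x400400080008970002))) 
(.lf (nat_lit 10682393) (dlOf (nat_lit 2) (nat_lit 0x115e80175e04000400400020018610482)))) 
(.lf (nat_lit 3342489) (dlOf (nat_lit 1) (nat_lit 0x8008000400200020008200183)))) (.nd (nat_lit 7) 
(.nd (nat_lit 10) (.lf (nat_lit 2818773529) (dlOf (nat_lit 1) (nat_lit 0x1400200020008128782))) 
(.lf (nat_lit 2818776601) (dlOf (nat_lit 1) (nat_lit 0x800800440020018000812cf03)))) 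
(.lf (nat_lit 6509760153) (dlOf (nat_lit 1) (nat_lit 0x400200020008147202))))) (.nd (nat_lit 27) 
(.nd (nat_lit 10) (.nd (nat_lit 20) (.nd (nat_lit 21) 
(.lf (nat_lit 1342374169) (dlOf (nat_lit 1) (nat_lit 0x20028014001))) 
(.lf (nat_lit 2294041) (dlOf (nat_lit 1) (nat_lit 0x400400020008150482)))) 
(.lf (nat_lit 3342617) (dlOf (nat_lit 2) (nat_lit 0x4b65a000960200020028200481)))) (.nd (nat_lit 7) 
(.lf (nat_lit 6711084313) (dlOf (nat_lit 1) (nat_lit 0x400400020008093082))) 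
(.lf (nat_lit 5637342617) (dlOf (nat_lit 1) (nat_lit 0x2800080d3601))))) (.nd (nat_lit 26) 
(.nd (nat_lit 10) (.lf (nat_lit 939720985) (dlOf (nat_lit 1) (nat_lit 0x20028154001))) 
(.lf (nat_lit 2281903385) (dlOf (nat_lit 1) (nat_lit 0x280080038002002000080a9703)))) 
(.nd (nat_lit 28) (.lf (nat_lit 1812136217) (dlOf (nat_lit 1) (nat_lit 0x20028154001))) 
(.lf (nat_lit 469958937) (dlOf (nat_lit 1) (nat_lit 0x20028014001))))))) (.nd (nat_lit 23) 
(.nd (nat_lit 28) (.nd (nat_lit 9) (.nd (nat_lit 20) 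
(.lf (nat_lit 2756116505) (dlOf (nat_lit 1) (nat_lit 0x400400060018200a82))) 
(.lf (nat_lit 22478873) (dlOf (nat_lit 1) (nat_lit 0x2800400240018ae0482)))) 
(.lf (nat_lit 58130969) (dlOf (nat_lit 2) (nat_lit 0x45f840008a040030004001800097c7e82)))) 
(.nd (nat_lit 22) (.nd (nat_lit 26) 
(.lf (nat_lit 2416377881) (dlOf (nat_lit 1) (nat_lit 0x800081b0001))) 
(.lf (nat_lit 6241583129) (dlOf (nat_lit 2) (nat_lit 0x2806801a7e0400f4002002a0008120a02)))) 
(.lf (nat_lit 3494314009) (dlOf (nat_lit 1) (nat_lit 0x400400060018200a82))))) (.nd (nat_lit 7) 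
(.nd (nat_lit 20) (.nd (nat_lit 21) 
(.lf (nat_lit 13041689) (dlOf (nat_lit 2) (nat_lit 0x9cd04000266b0035319800598600020c00005c4e9002d26c0000803800700080034002003000086f0403))) 
(.lf (nat_lit 48693273) (dlOf (nat_lit 1) (nat_lit 0x12000200720009420102)))) 
(.lf (nat_lit 9895961) (dlOf (nat_lit 3) (nat_lit 0xc4ce2000270200048340021338800098100018008001000200060008590403)))) 
(.lf (nat_lit 29819033) (dlOf (nat_lit 1) (nat_lit 0x20018e30481)))))) (.nd (nat_lit 21) 
(.nd (nat_lit 20) (.nd (nat_lit 26) (.nd (nat_lit 22) (.nd (nat_lit 9) (.nd (nat_lit 27) 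
(.lf (nat_lit 537591833) (dlOf (nat_lit 2) (nat_lit 0xaa80fc03806040018004001a00080c0a82))) 
(.lf (nat_lit 2819293209) (dlOf (nat_lit 1) (nat_lit 0x60008220501)))) 
(.lf (nat_lit 51053081) (dlOf (nat_lit 4) (nat_lit 0x196fa00045020006b7d000218100025be8000000801a000800bc002006600094f7e83)))) 
(.nd (nat_lit 23) 
(.lf (nat_lit 21692441) (dlOf (nat_lit 3) (nat_lit 0x3fb54000dda80006ed3000276900027b3c00d520a0011daa0006ed400354410020000800b400200140008a60a03))) 
(.lf (nat_lit 13303833) (dlOf (nat_lit 1) (nat_lit 0x40028710a81))))) (.nd (nat_lit 27) 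
(.nd (nat_lit 28) (.lf (nat_lit 4362797081) (dlOf (nat_lit 1) (nat_lit 0x40018100401))) 
(.lf (nat_lit 1410007065) (dlOf (nat_lit 2) (nat_lit 0xaa80fc03136040018004001a00080c0a82)))) 
(.nd (nat_lit 30) (.lf (nat_lit 1007353881) (dlOf (nat_lit 1) (nat_lit 0x200182f0901))) 
(.lf (nat_lit 4228579353) (dlOf (nat_lit 1) (nat_lit 0x40018100401)))))) (.nd (nat_lit 24) 
(.nd (nat_lit 7) 
(.lf (nat_lit 1343946777) (dlOf (nat_lit 9) (nat_lit 0x30568001828e0004e04000c15a00070a3800134100028568001028e0004304000a15a00060a3800108100030568001828e0003e04000a15a00060a38000f0100030568001828e0003b04000c15a00060a38000dc100020008003400200020008380903))) 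
(.lf (nat_lit 35325081) (dlOf (nat_lit 1) (nat_lit 0x40019012b81)))) (.nd (nat_lit 18) 
(.lf (nat_lit 18546713) (dlOf (nat_lit 1) (nat_lit 0x20018950681))) 
(.lf (nat_lit 52363289) (dlOf (nat_lit 1) (nat_lit 0x40019530101)))))) (.nd (nat_lit 20) 
(.nd (nat_lit 7) (.nd (nat_lit 28) (.nd (nat_lit 22) 
(.lf (nat_lit 53411865) (dlOf (nat_lit 1) (nat_lit 0x200295c0401))) 
(.lf (nat_lit 15663129) (dlOf (nat_lit 1) (nat_lit 0x20018810501)))) (.nd (nat_lit 9) 
(.lf (nat_lit 3492742169) (dlOf (nat_lit 2) (nat_lit 0x3010005ee40800480080034002000c00080f2883))) 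
(.lf (nat_lit 6378160665) (dlOf (nat_lit 1) (nat_lit 0xe0008117e81))))) (.nd (nat_lit 8) 
(.lf (nat_lit 32178329) (dlOf (nat_lit 1) (nat_lit 0x800800fc00200700008ef0503))) 
(.lf (nat_lit 2754550681) (dlOf (nat_lit 1) (nat_lit 0x1400180fbc81))))) (.nd (nat_lit 22) 
(.nd (nat_lit 9) (.nd (nat_lit 24) 
(.lf (nat_lit 473890841) (dlOf (nat_lit 2) (nat_lit 0x2850c0005e0400ac00400200008fc0102))) 
(.lf (nat_lit 20906009) (dlOf (nat_lit 1) (nat_lit 0x4002000200089f0102)))) 
(.lf (nat_lit 473629209) (dlOf (nat_lit 4) (nat_lit 0xc8464002c230001f1040034119000ba01000e08d80020464000000800cc00400300018f68702)))) 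
(.nd (nat_lit 7) (.nd (nat_lit 8) 
(.lf (nat_lit 16711705) (dlOf (nat_lit 1) (nat_lit 0x80080004002000800088d0483))) 
(.lf (nat_lit 8328473) (dlOf (nat_lit 1) (nat_lit 0xa40018519701)))) 
(.lf (nat_lit 8327833) (dlOf (nat_lit 1) (nat_lit 0x8008000400200020008518c83)))))))) 
(.nd (nat_lit 18) (.nd (nat_lit 7) (.nd (nat_lit 28) (.nd (nat_lit 19) (.nd (nat_lit 8) 
(.nd (nat_lit 20) (.lf (nat_lit 14876761) (dlOf (nat_lit 1) (nat_lit 0x400400020008790802))) 
(.lf (nat_lit 62062681) (dlOf (nat_lit 3) (nat_lit 0x1bc0000000702001a5f3000a2f7000690e0000000c0070002000a0009940702)))) 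
(.lf (nat_lit 4362273113) (dlOf (nat_lit 1) (nat_lit 0x18008001c002003c0008014e03)))) 
(.nd (nat_lit 8) (.nd (nat_lit 9) 
(.lf (nat_lit 537591897) (dlOf (nat_lit 2) (nat_lit 0x406b000000180c1a80))) 
(.lf (nat_lit 33229401) (dlOf (nat_lit 2) (nat_lit 0x237c80009a740004a08001800400040008f55302)))) 
(.lf (nat_lit 50005337) (dlOf (nat_lit 1) (nat_lit 0x200094c3381))))) (.nd (nat_lit 8) 
(.nd (nat_lit 21) (.nd (nat_lit 26) 
(.lf (nat_lit 6308429913) (dlOf (nat_lit 9) (nat_lit 0x8068007c0320020016000800780018024000ac14005c032000550200340190002a01000e00c80014c080038064000a40400500140001302002200a000090100110050000400801880080060002000e0008080683))) 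
(.lf (nat_lit 5704450137) (dlOf (nat_lit 9) (nat_lit 0x8068007c0320020016000800780018024000ac14005c032000550200340190002a01000e00c80014c080038064000a40400500140001302002200a000090100110050000400801880080060002000e0008080683)))) 
(.lf (nat_lit 1881342041) (dlOf (nat_lit 2) (nat_lit 0x100200005204002000400240018ea0702)))) 
(.nd (nat_lit 9) (.nd (nat_lit 26) 
(.lf (nat_lit 3624078681) (dlOf (nat_lit 1) (nat_lit 0x180028146a81))) 
(.lf (nat_lit 1543703897) (dlOf (nat_lit 2) (nat_lit 0x1b0040000980800e8008001c002000e0008146a83)))) 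
(.lf (nat_lit 3556970329) (dlOf (nat_lit 2) (nat_lit 0x601c0029580800280080004002000a0008127783)))))) 
(.nd (nat_lit 9) (.nd (nat_lit 8) (.nd (nat_lit 10) (.nd (nat_lit 12) 
(.lf (nat_lit 9109721) (dlOf (nat_lit 1) (nat_lit 0x400400020018523f02))) 
(.lf (nat_lit 3556970713) (dlOf (nat_lit 1) (nat_lit 0xd80080020002000c0008128083)))) 
(.lf (nat_lit 1543703769) (dlOf (nat_lit 6) (nat_lit 0x180140000b01000200000005408009805000200000001404000e0140000281000300a000010080018008005000200060008146483)))) 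
(.nd (nat_lit 10) (.lf (nat_lit 1342374361) (dlOf (nat_lit 1) (nat_lit 0x40028017101))) 
(.nd (nat_lit 12) (.lf (nat_lit 4764927449) (dlOf (nat_lit 1) (nat_lit 0x400400020008093602))) 
(.lf (nat_lit 2818774489) (dlOf (nat_lit 2) (nat_lit 0x20070000240200220028129b01)))))) 
(.nd (nat_lit 20) (.nd (nat_lit 8) 
(.lf (nat_lit 3154320089) (dlOf (nat_lit 1) (nat_lit 0x618008000400200a0000815b983))) 
(.nd (nat_lit 10) (.lf (nat_lit 4630711257) (dlOf (nat_lit 1) (nat_lit 0x20028095e01))) 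
(.lf (nat_lit 2885879769) (dlOf (nat_lit 1) (nat_lit 0x8008000400200020008144503))))) 
(.nd (nat_lit 10) (.nd (nat_lit 11) 
(.lf (nat_lit 8061657) (dlOf (nat_lit 1) (nat_lit 0x140028512101))) 
(.lf (nat_lit 20126425) (dlOf (nat_lit 1) (nat_lit 0x28004000800089db982)))) 
(.lf (nat_lit 2754809561) (dlOf (nat_lit 2) (nat_lit 0xe03880004c04003c002000600080f7382))))))) 
(.nd (nat_lit 19) (.nd (nat_lit 27) (.nd (nat_lit 20) (.nd (nat_lit 26) 
(.lf (nat_lit 1611071577) (dlOf (nat_lit 1) (nat_lit 0x200280d0681))) 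
(.lf (nat_lit 3557228633) (dlOf (nat_lit 3) (nat_lit 0xc08a039a0380001482013e01c00009c080478008008000200360008170803)))) 
(.nd (nat_lit 8) (.lf (nat_lit 26673241) (dlOf (nat_lit 1) (nat_lit 0x10000400060018c50802))) 
(.lf (nat_lit 11993433) (dlOf (nat_lit 2) (nat_lit 0x96e4000a8040020002000800086c0682))))) 
(.nd (nat_lit 26) (.nd (nat_lit 28) 
(.lf (nat_lit 2819031129) (dlOf (nat_lit 2) (nat_lit 0xa806c000290200020028150801))) 
(.lf (nat_lit 3624337497) (dlOf (nat_lit 1) (nat_lit 0xe000800e8002008a0008160983)))) 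
(.nd (nat_lit 31) (.lf (nat_lit 738656345) (dlOf (nat_lit 1) (nat_lit 0x200280d0681))) 
(.lf (nat_lit 2886139993) (dlOf (nat_lit 1) (nat_lit 0x80080014002000e0008160a03)))))) 
(.nd (nat_lit 20) (.nd (nat_lit 8) (.nd (nat_lit 22) 
(.lf (nat_lit 470745177) (dlOf (nat_lit 1) (nat_lit 0x900080044002000c0008170803))) 
(.lf (nat_lit 47120473) (dlOf (nat_lit 2) (nat_lit 0x300000003002001a00093a0701)))) 
(.nd (nat_lit 10) (.lf (nat_lit 3080537) (dlOf (nat_lit 1) (nat_lit 0x400400020008200682))) 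
(.lf (nat_lit 19864921) (dlOf (nat_lit 1) (nat_lit 0x4004000200089dc902))))) (.nd (nat_lit 7) 
(.nd (nat_lit 9) (.lf (nat_lit 14614617) (dlOf (nat_lit 1) (nat_lit 0x50004002e0018770802))) 
(.lf (nat_lit 62851673) (dlOf (nat_lit 2) (nat_lit 0x13a08000000800080080004002000800099a5303)))) 
(.lf (nat_lit 8327897) (dlOf (nat_lit 1) (nat_lit 0x8008000400200020008518c83))))))))) 
(.nd (nat_lit 6) (.nd (nat_lit 19) (.nd (nat_lit 31) (.nd (nat_lit 18) (.nd (nat_lit 26) 
(.nd (nat_lit 4) (.nd (nat_lit 10) (.nd (nat_lit 22) 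
(.lf (nat_lit 6174220297) (dlOf (nat_lit 1) (nat_lit 0x400400020008090002))) 
(.lf (nat_lit 21176329) (dlOf (nat_lit 1) (nat_lit 0xe0018a10481)))) (.nd (nat_lit 11) 
(.lf (nat_lit 57877513) (dlOf (nat_lit 1) (nat_lit 0x800080004002000a0009792883))) 
(.lf (nat_lit 20130825) (dlOf (nat_lit 2) (nat_lit 0x105f28000000800600080014002001000089d5f83))))) 
(.nd (nat_lit 21) (.nd (nat_lit 30) 
(.lf (nat_lit 5234696217) (dlOf (nat_lit 3) (nat_lit 0xa018000280b8002004200d4006000a02e00080108034fc1000c0008003c002001e00080a0a03))) 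
(.lf (nat_lit 6308438041) (dlOf (nat_lit 1) (nat_lit 0x68008001400200080008090403)))) 
(.lf (nat_lit 52633625) (dlOf (nat_lit 2) (nat_lit 0x1dd480004cea000ad029560600))))) 
(.nd (nat_lit 8) (.nd (nat_lit 27) (.nd (nat_lit 7) 
(.lf (nat_lit 604184585) (dlOf (nat_lit 4) (nat_lit 0xa0016000a781001f00b011d8044002c01e00fc00e000a284017f008800508080020008003c00200dc0008080483))) 
(.lf (nat_lit 1677928585) (dlOf (nat_lit 1) (nat_lit 0x20018114801)))) (.nd (nat_lit 30) 
(.lf (nat_lit 4496498697) (dlOf (nat_lit 3) (nat_lit 0xe01c00d1201000c00d006874080138008005400200f80008090003))) 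
(.nd (nat_lit 32) (.lf (nat_lit 1275273225) (dlOf (nat_lit 1) (nat_lit 0x200280c0001))) 
(.lf (nat_lit 5570240521) (dlOf (nat_lit 1) (nat_lit 0x400400020008090002)))))) (.nd (nat_lit 4) 
(.lf (nat_lit 872621321) (dlOf (nat_lit 1) (nat_lit 0x400400040018092f82))) (.nd (nat_lit 7) 
(.lf (nat_lit 68362521) (dlOf (nat_lit 1) (nat_lit 0x3c002000e0008570702))) 
(.lf (nat_lit 4630719385) (dlOf (nat_lit 1) (nat_lit 0x400400020008095c82))))))) (.nd (nat_lit 4) 
(.nd (nat_lit 20) (.nd (nat_lit 22) 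
(.lf (nat_lit 17244169) (dlOf (nat_lit 1) (nat_lit 0x4004000200088e0002))) (.nd (nat_lit 23) 
(.lf (nat_lit 21438473) (dlOf (nat_lit 1) (nat_lit 0x20018a40001))) 
(.lf (nat_lit 13049865) (dlOf (nat_lit 1) (nat_lit 0x80080008002000200086f0003))))) 
(.nd (nat_lit 23) (.nd (nat_lit 9) 
(.lf (nat_lit 37167113) (dlOf (nat_lit 1) (nat_lit 0x10002000e00090b0002))) 
(.lf (nat_lit 1345790473) (dlOf (nat_lit 3) (nat_lit 0x108ec0027c04005445c0012d0200100018de8001)))) 
(.nd (nat_lit 7) (.lf (nat_lit 9904137) (dlOf (nat_lit 2) (nat_lit 0x47452015e00200020028590001))) 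
(.lf (nat_lit 28778633) (dlOf (nat_lit 1) (nat_lit 0x400200020008da0482)))))) (.nd (nat_lit 7) 
(.nd (nat_lit 20) (.nd (nat_lit 22) 
(.lf (nat_lit 6241591321) (dlOf (nat_lit 1) (nat_lit 0x10008001000200040008120a03))) 
(.lf (nat_lit 13049881) (dlOf (nat_lit 3) (nat_lit 0xc11c540004604006d1b40002002000200186f0401)))) 
(.lf (nat_lit 9904153) (dlOf (nat_lit 5) (nat_lit 0x16000000180100014a30000b8080009d200004c0400a347a000200200020008590401)))) 
(.nd (nat_lit 8) 
(.lf (nat_lit 1344742553) (dlOf (nat_lit 1) (nat_lit 0x38008001000200040008982b83))) 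
(.lf (nat_lit 472328601) (dlOf (nat_lit 1) (nat_lit 0x800200020008984e82))))))) (.nd (nat_lit 28) 
(.nd (nat_lit 8) (.nd (nat_lit 26) (.nd (nat_lit 7) 
(.lf (nat_lit 2147688457) (dlOf (nat_lit 1) (nat_lit 0x200280c0001))) 
(.lf (nat_lit 2147688585) (dlOf (nat_lit 1) (nat_lit 0x4004000200080c0f02)))) (.nd (nat_lit 4) 
(.nd (nat_lit 18) 
(.lf (nat_lit 2752716809) (dlOf (nat_lit 5) (nat_lit 0x807fc001380400283fe0009602002a1ff000468100080ff8002140804e00080024002000c0008030483))) 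
(.lf (nat_lit 2886148105) (dlOf (nat_lit 6) (nat_lit 0x1001b8001f40800400dc000f804005406e0007502000c0370003a01000f01b8001cc0800900080068002001c0008170483)))) 
(.lf (nat_lit 3422762521) (dlOf (nat_lit 1) (nat_lit 0x1400080070002003800080a9c03))))) 
(.nd (nat_lit 4) (.nd (nat_lit 7) 
(.lf (nat_lit 2818781449) (dlOf (nat_lit 1) (nat_lit 0xe60018128081))) (.nd (nat_lit 10) 
(.lf (nat_lit 3355653001) (dlOf (nat_lit 1) (nat_lit 0x1400080a9001))) 
(.lf (nat_lit 2818781065) (dlOf (nat_lit 1) (nat_lit 0xc00400020008127782))))) (.nd (nat_lit 7) 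
(.lf (nat_lit 2818784537) (dlOf (nat_lit 1) (nat_lit 0xc0020002000812c602))) 
(.lf (nat_lit 3221432729) (dlOf (nat_lit 2) (nat_lit 0x6800002e6804001400200020008114e82)))))) 
(.nd (nat_lit 7) (.nd (nat_lit 18) (.nd (nat_lit 4) (.nd (nat_lit 20) 
(.lf (nat_lit 2952994825) (dlOf (nat_lit 2) (nat_lit 0x20016001000a80028a0800dc002005e0008080482))) 
(.lf (nat_lit 3490914313) (dlOf (nat_lit 5) (nat_lit 0x807b4001380400283da0009602002a1ed000468100080f68002140804e00080024002000c0008030483)))) 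
(.lf (nat_lit 2952994841) (dlOf (nat_lit 2) (nat_lit 0x4e02a0009e818080480)))) (.nd (nat_lit 8) 
(.lf (nat_lit 3624345609) (dlOf (nat_lit 6) (nat_lit 0x1001b8001f40800400dc000f804005406e0007502000c0370003a01000f01b8001cc0800900080068002001c0008170483))) 
(.lf (nat_lit 3490131209) (dlOf (nat_lit 1) (nat_lit 0x20028006681))))) (.nd (nat_lit 4) 
(.nd (nat_lit 12) (.lf (nat_lit 4095944329) (dlOf (nat_lit 1) (nat_lit 0x600080e3a01))) 
(.lf (nat_lit 4160960137) (dlOf (nat_lit 1) (nat_lit 0xc004002c00080a9e02)))) (.nd (nat_lit 8) 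
(.lf (nat_lit 3489868953) (dlOf (nat_lit 1) (nat_lit 0xc002000a0008006202))) 
(.lf (nat_lit 3489869209) (dlOf (nat_lit 1) (nat_lit 0x2e0008006d01)))))))) (.nd (nat_lit 4) 
(.nd (nat_lit 18) (.nd (nat_lit 26) (.nd (nat_lit 21) (.nd (nat_lit 27) 
(.lf (nat_lit 537600009) (dlOf (nat_lit 5) (nat_lit 0xd817c000fa0400c00be0007c02003005f0003a81001802f8001cc080010008003c002003000080d0483))) 
(.lf (nat_lit 134946825) (dlOf (nat_lit 1) (nat_lit 0x58004007c00080e0002)))) (.nd (nat_lit 7) 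
(.lf (nat_lit 3492487177) (dlOf (nat_lit 5) (nat_lit 0x281b60007d0200480db0003e01001006d8001d408007036c000e6040020004000600180d0482))) 
(.lf (nat_lit 23797897) (dlOf (nat_lit 1) (nat_lit 0x400200020008b80102))))) (.nd (nat_lit 27) 
(.nd (nat_lit 10) (.nd (nat_lit 21) 
(.lf (nat_lit 1410015241) (dlOf (nat_lit 5) (nat_lit 0xd817c000fa0400c00be0007c02003005f0003a81001802f8001cc080010008003c002003000080d0483))) 
(.lf (nat_lit 2754289673) (dlOf (nat_lit 5) (nat_lit 0x2819a0007d0200480cd0003e0100100668001d4080070334000e6040020004000600180d0482)))) 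
(.lf (nat_lit 68887561) (dlOf (nat_lit 1) (nat_lit 0x4002000200087e2882)))) (.nd (nat_lit 28) 
(.lf (nat_lit 202055689) (dlOf (nat_lit 1) (nat_lit 0x58004007c00080e0002))) 
(.lf (nat_lit 3154845705) (dlOf (nat_lit 2) (nat_lit 0x4012004e700800100080018002000a0008350003)))))) 
(.nd (nat_lit 7) (.nd (nat_lit 22) (.nd (nat_lit 8) (.nd (nat_lit 9) 
(.lf (nat_lit 470753289) (dlOf (nat_lit 1) (nat_lit 0x18008000800200040008170003))) 
(.lf (nat_lit 472850953) (dlOf (nat_lit 3) (nat_lit 0x585940007a04000c2ca0003c0200160018b18001)))) 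
(.lf (nat_lit 6376333577) (dlOf (nat_lit 2) (nat_lit 0x76090000238080100008000400200300008090a83)))) 
(.nd (nat_lit 23) (.lf (nat_lit 21962761) (dlOf (nat_lit 2) (nat_lit 0x24cac000a6818a80480))) 
(.lf (nat_lit 13574153) (dlOf (nat_lit 2) (nat_lit 0x2733d0016998c0064b220014d0600020028730481))))) 
(.nd (nat_lit 8) (.nd (nat_lit 10) 
(.lf (nat_lit 2039945) (dlOf (nat_lit 1) (nat_lit 0x60008150101))) 
(.lf (nat_lit 50275465) (dlOf (nat_lit 1) (nat_lit 0x80080008002000400094c2b03)))) (.nd (nat_lit 9) 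
(.lf (nat_lit 5772353929) (dlOf (nat_lit 1) (nat_lit 0x20018091001))) 
(.lf (nat_lit 19868553) (dlOf (nat_lit 1) (nat_lit 0x80080004002000200089d5c03))))))) 
(.nd (nat_lit 18) (.nd (nat_lit 27) (.nd (nat_lit 9) (.nd (nat_lit 7) (.nd (nat_lit 20) 
(.lf (nat_lit 21700633) (dlOf (nat_lit 1) (nat_lit 0x300080038002001c0008a60a03))) 
(.lf (nat_lit 31137817) (dlOf (nat_lit 1) (nat_lit 0x40028e70581)))) 
(.lf (nat_lit 36381849) (dlOf (nat_lit 1) (nat_lit 0x660009072b81)))) (.nd (nat_lit 8) 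
(.lf (nat_lit 1611342361) (dlOf (nat_lit 1) (nat_lit 0x110002005e0008138702))) 
(.lf (nat_lit 54209305) (dlOf (nat_lit 1) (nat_lit 0x8008000400200020009655b83))))) 
(.nd (nat_lit 28) (.nd (nat_lit 26) 
(.lf (nat_lit 134946841) (dlOf (nat_lit 2) (nat_lit 0x580150000e8180e0400))) 
(.lf (nat_lit 202055705) (dlOf (nat_lit 2) (nat_lit 0x580160000e8180e0400)))) (.nd (nat_lit 7) 
(.lf (nat_lit 3154845721) (dlOf (nat_lit 1) (nat_lit 0x1000400040008350582))) 
(.lf (nat_lit 6377119897) (dlOf (nat_lit 1) (nat_lit 0x15c00280a2b81)))))) (.nd (nat_lit 20) 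
(.nd (nat_lit 21) (.nd (nat_lit 22) 
(.lf (nat_lit 470753305) (dlOf (nat_lit 1) (nat_lit 0x10008000400200020008170103))) 
(.lf (nat_lit 21962777) (dlOf (nat_lit 1) (nat_lit 0x40018a80881)))) (.nd (nat_lit 9) 
(.lf (nat_lit 53420057) (dlOf (nat_lit 1) (nat_lit 0x1a00295c0401))) 
(.lf (nat_lit 472850969) (dlOf (nat_lit 1) (nat_lit 0x100080004002001c0008b18703))))) 
(.nd (nat_lit 21) (.nd (nat_lit 7) 
(.lf (nat_lit 23011353) (dlOf (nat_lit 1) (nat_lit 0x500080010002000a0008b40483))) 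
(.lf (nat_lit 2039961) (dlOf (nat_lit 2) (nat_lit 0x84c1000118080060008001c002000c0008150183)))) 
(.nd (nat_lit 9) (.nd (nat_lit 22) 
(.lf (nat_lit 20914201) (dlOf (nat_lit 1) (nat_lit 0x80080004002000200089f0103))) 
(.lf (nat_lit 16719897) (dlOf (nat_lit 1) (nat_lit 0x48002000400088d0482)))) 
(.lf (nat_lit 3493798425) (dlOf (nat_lit 2) (nat_lit 0x807800298040008004001a00081b0d82))))))))) 
(.nd (nat_lit 7) (.nd (nat_lit 18) (.nd (nat_lit 9) (.nd (nat_lit 27) (.nd (nat_lit 4) 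
(.nd (nat_lit 28) (.nd (nat_lit 8) 
(.lf (nat_lit 2754289737) (dlOf (nat_lit 1) (nat_lit 0x3c00080d0c81))) 
(.lf (nat_lit 40576329) (dlOf (nat_lit 1) (nat_lit 0x90008004c002002200091f3303)))) 
(.nd (nat_lit 19) (.lf (nat_lit 1880301641) (dlOf (nat_lit 1) (nat_lit 0x20018820601))) 
(.lf (nat_lit 3492487241) (dlOf (nat_lit 1) (nat_lit 0x3c00080d0c81))))) (.nd (nat_lit 8) 
(.nd (nat_lit 20) (.lf (nat_lit 14884953) (dlOf (nat_lit 1) (nat_lit 0xac00200220008790802))) 
(.lf (nat_lit 62070873) (dlOf (nat_lit 2) (nat_lit 0x1100000000e040014004000a0009940702)))) 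
(.lf (nat_lit 6509768025) (dlOf (nat_lit 1) (nat_lit 0x120018146a81))))) (.nd (nat_lit 26) 
(.nd (nat_lit 4) (.nd (nat_lit 10) 
(.lf (nat_lit 134422601) (dlOf (nat_lit 4) (nat_lit 0x1c0310001a0100040188000c40800680c40004404000400200020008020882))) 
(.lf (nat_lit 2818784329) (dlOf (nat_lit 1) (nat_lit 0xe6002812bf01)))) 
(.lf (nat_lit 134422617) (dlOf (nat_lit 1) (nat_lit 0x20028020981)))) (.nd (nat_lit 4) 
(.nd (nat_lit 32) 
(.lf (nat_lit 201531465) (dlOf (nat_lit 4) (nat_lit 0x1c0310001a0100040188000c40800680c40004404000400200020008020882))) 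
(.lf (nat_lit 4496498761) (dlOf (nat_lit 3) (nat_lit 0x8001a000210100980050000d00801a8008010800200960008090503)))) 
(.lf (nat_lit 1543712089) (dlOf (nat_lit 2) (nat_lit 0x2400800013018146a80)))))) (.nd (nat_lit 8) 
(.nd (nat_lit 23) (.nd (nat_lit 4) (.nd (nat_lit 27) 
(.lf (nat_lit 2483233353) (dlOf (nat_lit 2) (nat_lit 0x200f00030068000001000080080010002000c0008091183))) 
(.lf (nat_lit 2349015625) (dlOf (nat_lit 2) (nat_lit 0x200f00030068000001000080080010002000c0008091183)))) 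
(.lf (nat_lit 2684565081) (dlOf (nat_lit 1) (nat_lit 0x30002001400080a9c02)))) (.nd (nat_lit 4) 
(.nd (nat_lit 11) (.lf (nat_lit 8593993) (dlOf (nat_lit 1) (nat_lit 0x200080010002000c0008511583))) 
(.lf (nat_lit 32189001) (dlOf (nat_lit 1) (nat_lit 0x8008000400200020008ef5203)))) 
(.lf (nat_lit 32189017) (dlOf (nat_lit 1) (nat_lit 0x400400020008ef5302))))) (.nd (nat_lit 10) 
(.nd (nat_lit 20) 
(.lf (nat_lit 1141058377) (dlOf (nat_lit 3) (nat_lit 0x680260003f01002c0130000a80800600080010002000c0008095c03))) 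
(.nd (nat_lit 21) (.lf (nat_lit 4094896969) (dlOf (nat_lit 1) (nat_lit 0x80028055c01))) 
(.lf (nat_lit 20130633) (dlOf (nat_lit 1) (nat_lit 0x4002000200089d5c02))))) (.nd (nat_lit 26) 
(.nd (nat_lit 11) (.lf (nat_lit 537077577) (dlOf (nat_lit 1) (nat_lit 0x20028003e81))) 
(.lf (nat_lit 2818781001) (dlOf (nat_lit 1) (nat_lit 0xc00400020008127782)))) (.nd (nat_lit 4) 
(.lf (nat_lit 3556978505) (dlOf (nat_lit 1) (nat_lit 0xc00400020008127782))) 
(.lf (nat_lit 3556978521) (dlOf (nat_lit 2) (nat_lit 0x100e0014ac04001c00200160008127782)))))))) 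
(.nd (nat_lit 19) (.nd (nat_lit 4) (.nd (nat_lit 27) (.nd (nat_lit 21) (.nd (nat_lit 28) 
(.lf (nat_lit 1611079753) (dlOf (nat_lit 2) (nat_lit 0xa0150000d8080050008006c002001600080d0503))) 
(.lf (nat_lit 1879515209) (dlOf (nat_lit 2) (nat_lit 0x2e80000000004002400200c00008190682)))) 
(.nd (nat_lit 8) (.lf (nat_lit 1344742473) (dlOf (nat_lit 1) (nat_lit 0xc00200040008982882))) 
(.lf (nat_lit 20392777) (dlOf (nat_lit 2) (nat_lit 0x725e0008e02000200189d5c01))))) 
(.nd (nat_lit 26) (.lf (nat_lit 3624345673) (dlOf (nat_lit 1) (nat_lit 0x40018170f01))) 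
(.nd (nat_lit 31) 
(.lf (nat_lit 738664521) (dlOf (nat_lit 2) (nat_lit 0xa0150000e0080050008006c002001600080d0503))) 
(.lf (nat_lit 2886148169) (dlOf (nat_lit 1) (nat_lit 0x40018170f01)))))) (.nd (nat_lit 8) 
(.nd (nat_lit 26) (.lf (nat_lit 1611079769) (dlOf (nat_lit 1) (nat_lit 0x74004002600080d0682))) 
(.nd (nat_lit 27) 
(.lf (nat_lit 3557236825) (dlOf (nat_lit 3) (nat_lit 0x3803780908190041804400029060008064000401100009c1000700080180002003a0008170803))) 
(.lf (nat_lit 738664537) (dlOf (nat_lit 1) (nat_lit 0x74004002600080d0682))))) (.nd (nat_lit 26) 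
(.lf (nat_lit 805773657) (dlOf (nat_lit 1) (nat_lit 0x20008000c002000200081a0683))) 
(.lf (nat_lit 1678188889) (dlOf (nat_lit 1) (nat_lit 0x20008000c002000200081a0683)))))) 
(.nd (nat_lit 20) (.nd (nat_lit 4) (.nd (nat_lit 9) (.nd (nat_lit 23) 
(.lf (nat_lit 21962825) (dlOf (nat_lit 1) (nat_lit 0xa0018a80f01))) 
(.lf (nat_lit 13574217) (dlOf (nat_lit 1) (nat_lit 0x20018730c81)))) 
(.lf (nat_lit 2752455241) (dlOf (nat_lit 2) (nat_lit 0x215c00034018018d00)))) (.nd (nat_lit 9) 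
(.lf (nat_lit 47128665) (dlOf (nat_lit 2) (nat_lit 0x4000000062040014002000200093a0702))) 
(.lf (nat_lit 2754555481) (dlOf (nat_lit 1) (nat_lit 0xc002000400080f7182))))) (.nd (nat_lit 4) 
(.nd (nat_lit 8) (.nd (nat_lit 21) 
(.lf (nat_lit 5773402185) (dlOf (nat_lit 1) (nat_lit 0x1c00180d1381))) 
(.lf (nat_lit 25108553) (dlOf (nat_lit 1) (nat_lit 0x80018be1481)))) 
(.lf (nat_lit 6234441) (dlOf (nat_lit 1) (nat_lit 0x20028420781)))) (.nd (nat_lit 9) 
(.lf (nat_lit 20914265) (dlOf (nat_lit 3) (nat_lit 0xa3060000260400558300000702000400089f0701))) 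
(.lf (nat_lit 1346316889) (dlOf (nat_lit 5) (nat_lit 0x401d000140100010a60000852800041ae00025060140169009d0b3005080740003e0c000c2d2000601d00009828f05300)))))))) 
(.nd (nat_lit 4) (.nd (nat_lit 8) (.nd (nat_lit 28) (.nd (nat_lit 19) (.nd (nat_lit 20) 
(.lf (nat_lit 5368915145) (dlOf (nat_lit 1) (nat_lit 0x8008000400200020008092d83))) 
(.lf (nat_lit 43197641) (dlOf (nat_lit 1) (nat_lit 0x200092a2d81)))) (.nd (nat_lit 18) 
(.lf (nat_lit 53159113) (dlOf (nat_lit 1) (nat_lit 0x20029572d81))) 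
(.lf (nat_lit 61809865) (dlOf (nat_lit 1) (nat_lit 0x20019922d81))))) (.nd (nat_lit 10) 
(.nd (nat_lit 18) (.lf (nat_lit 3494060233) (dlOf (nat_lit 1) (nat_lit 0x400181b0481))) 
(.lf (nat_lit 1344217289) (dlOf (nat_lit 1) (nat_lit 0xa0028520481)))) (.nd (nat_lit 12) 
(.lf (nat_lit 6711092425) (dlOf (nat_lit 1) (nat_lit 0x20028092d81))) 
(.lf (nat_lit 2617455817) (dlOf (nat_lit 2) (nat_lit 0x4800000cfc040080002000c00080a9502)))))) 
(.nd (nat_lit 18) (.nd (nat_lit 9) (.nd (nat_lit 20) (.nd (nat_lit 10) 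
(.lf (nat_lit 4563610057) (dlOf (nat_lit 1) (nat_lit 0x3e0028094e81))) 
(.lf (nat_lit 3624086985) (dlOf (nat_lit 1) (nat_lit 0x40008146d01)))) (.nd (nat_lit 19) 
(.lf (nat_lit 45296073) (dlOf (nat_lit 1) (nat_lit 0x18002000a0009324e82))) 
(.lf (nat_lit 20654537) (dlOf (nat_lit 1) (nat_lit 0x700080020002001000089d4e83))))) 
(.nd (nat_lit 10) 
(.lf (nat_lit 1141058505) (dlOf (nat_lit 3) (nat_lit 0x140520001d0200700240000e018095d80))) 
(.lf (nat_lit 2885887945) (dlOf (nat_lit 1) (nat_lit 0x420028144481))))) (.nd (nat_lit 11) 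
(.nd (nat_lit 9) 
(.lf (nat_lit 2753503689) (dlOf (nat_lit 2) (nat_lit 0xd08800000004001400400300018090982))) 
(.lf (nat_lit 43459529) (dlOf (nat_lit 1) (nat_lit 0x4004000200092a2882)))) (.nd (nat_lit 20) 
(.nd (nat_lit 21) (.lf (nat_lit 4027001289) (dlOf (nat_lit 1) (nat_lit 0xc00180f4e81))) 
(.lf (nat_lit 57092553) (dlOf (nat_lit 1) (nat_lit 0x120029794e81)))) 
(.lf (nat_lit 6376860105) (dlOf (nat_lit 1) (nat_lit 0x400200020008094e82))))))) (.nd (nat_lit 8) 
(.nd (nat_lit 11) (.nd (nat_lit 18) (.nd (nat_lit 12) (.nd (nat_lit 19) 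
(.lf (nat_lit 13836505) (dlOf (nat_lit 3) (nat_lit 0xa37c0004a0400091be000240200380028750581))) 
(.lf (nat_lit 12263641) (dlOf (nat_lit 1) (nat_lit 0x4004000200186c0482)))) 
(.lf (nat_lit 3556978905) (dlOf (nat_lit 1) (nat_lit 0x2c002000a0008128082)))) (.nd (nat_lit 12) 
(.nd (nat_lit 27) (.lf (nat_lit 2416386265) (dlOf (nat_lit 1) (nat_lit 0x200281b0481))) 
(.lf (nat_lit 2550603993) (dlOf (nat_lit 1) (nat_lit 0x200281b0481)))) 
(.lf (nat_lit 19869913) (dlOf (nat_lit 1) (nat_lit 0x200189d8081))))) (.nd (nat_lit 9) 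
(.nd (nat_lit 10) (.lf (nat_lit 3959630041) (dlOf (nat_lit 1) (nat_lit 0x40008114a81))) 
(.lf (nat_lit 1543711961) (dlOf (nat_lit 4) (nat_lit 0x40280001602000e01400060000000501000200500000a04001800200220008146482)))) 
(.nd (nat_lit 12) 
(.lf (nat_lit 57092825) (dlOf (nat_lit 3) (nat_lit 0x125098000d0080032bbc0006604000400200040009795902))) 
(.nd (nat_lit 20) (.lf (nat_lit 3154328281) (dlOf (nat_lit 1) (nat_lit 0x6000815b981))) 
(.lf (nat_lit 20134617) (dlOf (nat_lit 1) (nat_lit 0x80080004002000200089db983))))))) 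
(.nd (nat_lit 9) (.nd (nat_lit 10) (.nd (nat_lit 11) (.nd (nat_lit 26) 
(.lf (nat_lit 3221692889) (dlOf (nat_lit 1) (nat_lit 0x41000800c4002005c0008170b03))) 
(.lf (nat_lit 3959890393) (dlOf (nat_lit 1) (nat_lit 0x41000800c4002005c0008170b03)))) 
(.lf (nat_lit 62335449) (dlOf (nat_lit 1) (nat_lit 0x28008000c002000600099a4e83)))) 
(.nd (nat_lit 18) (.lf (nat_lit 8594905) (dlOf (nat_lit 1) (nat_lit 0x20028513601))) 
(.lf (nat_lit 43460057) (dlOf (nat_lit 1) (nat_lit 0x4004000200092a3602))))) (.nd (nat_lit 19) 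
(.nd (nat_lit 11) (.lf (nat_lit 3959628761) (dlOf (nat_lit 1) (nat_lit 0x2400400040018112882))) 
(.lf (nat_lit 1141058521) (dlOf (nat_lit 1) (nat_lit 0x20008001000200080008095e03)))) 
(.nd (nat_lit 18) (.lf (nat_lit 36381657) (dlOf (nat_lit 1) (nat_lit 0x1400200020009072882))) 
(.lf (nat_lit 3492750297) (dlOf (nat_lit 1) (nat_lit 0x40008000c002000600080f2883))))))))))) 
(.nd (nat_lit 8) (.nd (nat_lit 18) (.nd (nat_lit 13) (.nd (nat_lit 30) (.nd (nat_lit 4) 
(.nd (nat_lit 19) (.nd (nat_lit 9) (.nd (nat_lit 22) (.nd (nat_lit 6) 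
(.lf (nat_lit 4832034857) (dlOf (nat_lit 1) (nat_lit 0x400200020008090282))) 
(.lf (nat_lit 8587497) (dlOf (nat_lit 2) (nat_lit 0x4caf2000190200040018514b01)))) 
(.nd (nat_lit 20) (.lf (nat_lit 63111209) (dlOf (nat_lit 1) (nat_lit 0x4004000200099e0202))) 
(.lf (nat_lit 30605353) (dlOf (nat_lit 1) (nat_lit 0x400400120018e40d82))))) (.nd (nat_lit 6) 
(.nd (nat_lit 10) (.lf (nat_lit 268634665) (dlOf (nat_lit 1) (nat_lit 0x8004001600180e5182))) 
(.lf (nat_lit 4764927529) (dlOf (nat_lit 1) (nat_lit 0x400400020008093702)))) 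
(.lf (nat_lit 2818773737) (dlOf (nat_lit 2) (nat_lit 0x180420001d0200020018128d81))))) 
(.nd (nat_lit 20) (.nd (nat_lit 23) (.nd (nat_lit 11) (.nd (nat_lit 26) 
(.lf (nat_lit 537591849) (dlOf (nat_lit 4) (nat_lit 0x49005f0001201007902f80008c08124017c000440402bc00400a600080c0d02))) 
(.lf (nat_lit 4362797097) (dlOf (nat_lit 1) (nat_lit 0x20028100581)))) 
(.lf (nat_lit 722985) (dlOf (nat_lit 1) (nat_lit 0x400400020008004702)))) (.nd (nat_lit 21) 
(.lf (nat_lit 9109545) (dlOf (nat_lit 1) (nat_lit 0x8008001800200060008520a03))) 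
(.lf (nat_lit 11206697) (dlOf (nat_lit 3) (nat_lit 0x124a800091d5c000ac080064000000320200340008670601))))) 
(.nd (nat_lit 9) (.nd (nat_lit 23) 
(.lf (nat_lit 1769513) (dlOf (nat_lit 2) (nat_lit 0x60b5000380540005408005800200060008130802))) 
(.lf (nat_lit 10158121) (dlOf (nat_lit 1) (nat_lit 0x200085b0501)))) 
(.lf (nat_lit 2753233449) (dlOf (nat_lit 2) (nat_lit 0xc61fc00000018090e00)))))) (.nd (nat_lit 9) 
(.nd (nat_lit 19) (.nd (nat_lit 6) (.nd (nat_lit 7) 
(.lf (nat_lit 2818773049) (dlOf (nat_lit 1) (nat_lit 0x400400020008127c82))) 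
(.lf (nat_lit 61015225) (dlOf (nat_lit 1) (nat_lit 0x4002000200098c2c82)))) 
(.lf (nat_lit 4966252793) (dlOf (nat_lit 1) (nat_lit 0x780008090a81)))) (.nd (nat_lit 20) 
(.lf (nat_lit 1007353913) (dlOf (nat_lit 1) (nat_lit 0x318008028400200f600082f1103))) 
(.nd (nat_lit 22) 
(.lf (nat_lit 18546745) (dlOf (nat_lit 2) (nat_lit 0x11fbc0000e04000400400020008950902))) 
(.lf (nat_lit 5963833) (dlOf (nat_lit 1) (nat_lit 0x400400060008420002)))))) (.nd (nat_lit 26) 
(.nd (nat_lit 6) (.lf (nat_lit 36899385) (dlOf (nat_lit 1) (nat_lit 0x400200880009075202))) 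
(.nd (nat_lit 7) 
(.lf (nat_lit 54725241) (dlOf (nat_lit 3) (nat_lit 0x40e7200046020020739000437e8001141000080080008002000c0009655403))) 
(.lf (nat_lit 2684551929) (dlOf (nat_lit 1) (nat_lit 0x200180a2101))))) (.nd (nat_lit 7) 
(.nd (nat_lit 19) (.lf (nat_lit 4362273337) (dlOf (nat_lit 1) (nat_lit 0xa0018018b01))) 
(.lf (nat_lit 2753233465) (dlOf (nat_lit 2) (nat_lit 0x9187f40000004003000400580008091002)))) 
(.lf (nat_lit 3020101305) (dlOf (nat_lit 2) (nat_lit 0x700d8009640400780020002000812a002))))))) 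
(.nd (nat_lit 27) (.nd (nat_lit 4) (.nd (nat_lit 19) (.nd (nat_lit 31) (.nd (nat_lit 6) 
(.lf (nat_lit 5704450089) (dlOf (nat_lit 7) (nat_lit 0xfc0180000d81007d00c000064080408060000300401fc030000170200da0180000b01007100c000000080170008010400200180008080283))) 
(.lf (nat_lit 5704450153) (dlOf (nat_lit 1) (nat_lit 0x38002000e0008080782)))) (.nd (nat_lit 7) 
(.lf (nat_lit 3288530985) (dlOf (nat_lit 1) (nat_lit 0x7c800403b20008070882))) 
(.lf (nat_lit 3556973225) (dlOf (nat_lit 1) (nat_lit 0x800800440020018000812b783))))) 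
(.nd (nat_lit 9) (.nd (nat_lit 31) 
(.lf (nat_lit 1410007081) (dlOf (nat_lit 5) (nat_lit 0xb8c0be000240205d605f0001101002602f8000800800f017c0003e0400dc004004600080c0c02))) 
(.lf (nat_lit 3557490729) (dlOf (nat_lit 1) (nat_lit 0x3c000401d80008220802)))) 
(.lf (nat_lit 3491430953) (dlOf (nat_lit 2) (nat_lit 0xc61ea00000018090e00))))) (.nd (nat_lit 9) 
(.nd (nat_lit 6) (.nd (nat_lit 20) 
(.lf (nat_lit 1410007097) (dlOf (nat_lit 9) (nat_lit 0x45c07e0003b0201ce03f0001d0100f801f8000e40800a80fc000700400f407e000330200c403f000190100e601f8000c00801b00fc0005e040004004005800180c1302))) 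
(.lf (nat_lit 1343946809) (dlOf (nat_lit 11) (nat_lit 0x616b0002b0100020ad0003051c000900800142b4000a147000238200050ad0003051c000880800142b4000c147000218200060ad0003051c000840800182b4000c147000200200050ad0003051c0007c0800182b4000c1470001c02000605f0000d4080010008004400200020008381103)))) 
(.lf (nat_lit 3491954809) (dlOf (nat_lit 1) (nat_lit 0x20018090081)))) (.nd (nat_lit 6) 
(.nd (nat_lit 10) 
(.lf (nat_lit 3491430969) (dlOf (nat_lit 2) (nat_lit 0x9187ac0000004003000400580008091002))) 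
(.lf (nat_lit 1610810937) (dlOf (nat_lit 2) (nat_lit 0x602a0000a018093780)))) 
(.lf (nat_lit 5637342841) (dlOf (nat_lit 1) (nat_lit 0x400180d3981)))))) (.nd (nat_lit 9) 
(.nd (nat_lit 32) (.nd (nat_lit 6) (.nd (nat_lit 19) 
(.lf (nat_lit 1476591657) (dlOf (nat_lit 1) (nat_lit 0x100080024002000a0008090883))) 
(.lf (nat_lit 4228579369) (dlOf (nat_lit 1) (nat_lit 0x20028100581)))) 
(.lf (nat_lit 4160951529) (dlOf (nat_lit 1) (nat_lit 0x800280a9501)))) (.nd (nat_lit 6) 
(.nd (nat_lit 19) 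
(.lf (nat_lit 6308429865) (dlOf (nat_lit 7) (nat_lit 0xfc0180000d81007d00c000068080408060000300401fc030000170200da0180000b01007100c000000080170008010400200180008080283))) 
(.lf (nat_lit 5773131817) (dlOf (nat_lit 2) (nat_lit 0x404f000064040040002001400080a0a02)))) 
(.lf (nat_lit 6308429929) (dlOf (nat_lit 1) (nat_lit 0x38002000e0008080782))))) (.nd (nat_lit 4) 
(.nd (nat_lit 6) (.nd (nat_lit 26) 
(.lf (nat_lit 1745029673) (dlOf (nat_lit 2) (nat_lit 0xd0228007b4080028008000800200040008095183))) 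
(.lf (nat_lit 6107105833) (dlOf (nat_lit 1) (nat_lit 0x40018095181)))) 
(.lf (nat_lit 1208158825) (dlOf (nat_lit 1) (nat_lit 0x400400020008095382)))) (.nd (nat_lit 6) 
(.lf (nat_lit 4228055609) (dlOf (nat_lit 1) (nat_lit 0xa0028018201))) (.nd (nat_lit 20) 
(.lf (nat_lit 1745029753) (dlOf (nat_lit 2) (nat_lit 0x380b400000040010004000c0008095402))) 
(.lf (nat_lit 6376589945) (dlOf (nat_lit 1) (nat_lit 0x60028095401))))))))) (.nd (nat_lit 7) 
(.nd (nat_lit 27) (.nd (nat_lit 20) (.nd (nat_lit 26) (.nd (nat_lit 4) (.nd (nat_lit 9) 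
(.lf (nat_lit 52633641) (dlOf (nat_lit 3) (nat_lit 0x2ea4000058100297520000000800180080018002002a0009560883))) 
(.lf (nat_lit 8594985) (dlOf (nat_lit 1) (nat_lit 0x20028513701)))) 
(.lf (nat_lit 5637351033) (dlOf (nat_lit 1) (nat_lit 0x200180d3981)))) (.nd (nat_lit 12) 
(.nd (nat_lit 19) 
(.lf (nat_lit 604184617) (dlOf (nat_lit 2) (nat_lit 0x1701f800000080048008013800200360008080683))) 
(.lf (nat_lit 4362805289) (dlOf (nat_lit 1) (nat_lit 0xf60008100581)))) 
(.lf (nat_lit 3556978729) (dlOf (nat_lit 1) (nat_lit 0x60008003000200140008127b83))))) 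
(.nd (nat_lit 4) (.nd (nat_lit 9) 
(.lf (nat_lit 22749225) (dlOf (nat_lit 2) (nat_lit 0x4e9d200274e5001390ec0108000000560800040008b20681))) 
(.lf (nat_lit 11739689) (dlOf (nat_lit 1) (nat_lit 0x4002000200086c0e02)))) (.nd (nat_lit 6) 
(.nd (nat_lit 19) (.lf (nat_lit 30613561) (dlOf (nat_lit 1) (nat_lit 0x400200020008e41102))) 
(.lf (nat_lit 18554937) (dlOf (nat_lit 2) (nat_lit 0x406ac0003e04000800200040008950902)))) 
(.lf (nat_lit 1345530489) (dlOf (nat_lit 1) (nat_lit 0x20008c95401)))))) (.nd (nat_lit 19) 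
(.nd (nat_lit 6) (.nd (nat_lit 9) (.nd (nat_lit 26) 
(.lf (nat_lit 134422569) (dlOf (nat_lit 1) (nat_lit 0x20028020501))) (.nd (nat_lit 32) 
(.lf (nat_lit 201531433) (dlOf (nat_lit 1) (nat_lit 0x20028020501))) 
(.lf (nat_lit 4496498729) (dlOf (nat_lit 1) (nat_lit 0x70008007000200420008090283))))) 
(.lf (nat_lit 472066601) (dlOf (nat_lit 1) (nat_lit 0x400400020008805182)))) (.nd (nat_lit 9) 
(.lf (nat_lit 4496498793) (dlOf (nat_lit 1) (nat_lit 0x88008008c00200a40008090783))) 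
(.lf (nat_lit 1208167017) (dlOf (nat_lit 1) (nat_lit 0x400400020008095382))))) (.nd (nat_lit 4) 
(.nd (nat_lit 30) 
(.lf (nat_lit 1007362089) (dlOf (nat_lit 2) (nat_lit 0x9837c0007a04001000200020008300b02))) 
(.lf (nat_lit 4228587561) (dlOf (nat_lit 1) (nat_lit 0xf60008100581)))) (.nd (nat_lit 6) 
(.nd (nat_lit 26) 
(.lf (nat_lit 134946873) (dlOf (nat_lit 3) (nat_lit 0x290118016405400ced0400a6046005a0150033b01000180080048002004000080e0783))) 
(.lf (nat_lit 202055737) (dlOf (nat_lit 2) (nat_lit 0x3200f4030840401d0002007000080e0782)))) 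
(.lf (nat_lit 3893043321) (dlOf (nat_lit 1) (nat_lit 0x800400060008310482))))))) (.nd (nat_lit 10) 
(.nd (nat_lit 4) (.nd (nat_lit 6) (.nd (nat_lit 19) 
(.lf (nat_lit 8598185) (dlOf (nat_lit 1) (nat_lit 0x20018518c81))) 
(.lf (nat_lit 8073897) (dlOf (nat_lit 1) (nat_lit 0x400200020008518c82)))) 
(.lf (nat_lit 7545065) (dlOf (nat_lit 1) (nat_lit 0x7600284b0601)))) (.nd (nat_lit 6) 
(.nd (nat_lit 11) (.lf (nat_lit 8593593) (dlOf (nat_lit 1) (nat_lit 0x10008000400200020008510703))) 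
(.lf (nat_lit 3493013689) (dlOf (nat_lit 1) (nat_lit 0xc00280f4901)))) (.nd (nat_lit 9) 
(.lf (nat_lit 4966260985) (dlOf (nat_lit 1) (nat_lit 0x260008090a81))) 
(.lf (nat_lit 2214798073) (dlOf (nat_lit 1) (nat_lit 0x80080004002000200080a2103)))))) 
(.nd (nat_lit 12) (.nd (nat_lit 6) 
(.lf (nat_lit 3489868969) (dlOf (nat_lit 3) (nat_lit 0x83460002c0200041a300015818006280))) 
(.nd (nat_lit 26) (.lf (nat_lit 6711092457) (dlOf (nat_lit 1) (nat_lit 0x20028092e81))) 
(.lf (nat_lit 4764935401) (dlOf (nat_lit 1) (nat_lit 0x400400020008092e82))))) (.nd (nat_lit 9) 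
(.nd (nat_lit 26) 
(.lf (nat_lit 2684564649) (dlOf (nat_lit 1) (nat_lit 0x1400080070002003800080a9503))) 
(.lf (nat_lit 2214802601) (dlOf (nat_lit 1) (nat_lit 0xe00280a9501)))) 
(.lf (nat_lit 20133545) (dlOf (nat_lit 1) (nat_lit 0x4002000200089da002)))))))) (.nd (nat_lit 21) 
(.nd (nat_lit 29) (.nd (nat_lit 4) (.nd (nat_lit 20) (.nd (nat_lit 26) (.nd (nat_lit 19) 
(.nd (nat_lit 22) 
(.lf (nat_lit 134676521) (dlOf (nat_lit 3) (nat_lit 0xc041006f481004602080379c08005000800e4002004c0008090003))) 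
(.lf (nat_lit 13041705) (dlOf (nat_lit 8) (nat_lit 0x28c7e000a6280000d82001a31f800918a00008c200001906001263f0000c01000631f800298a00001608001cc7e0000a02001463f0000481000631f8000200800680080030002001a00086f0a83)))) 
(.nd (nat_lit 23) 
(.lf (nat_lit 17760297) (dlOf (nat_lit 1) (nat_lit 0x100080018002000c00088f0d83))) 
(.lf (nat_lit 9371689) (dlOf (nat_lit 1) (nat_lit 0xb80008540a01))))) (.nd (nat_lit 13) 
(.nd (nat_lit 27) (.lf (nat_lit 1409744937) (dlOf (nat_lit 1) (nat_lit 0xa0008090001))) 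
(.lf (nat_lit 470220841) (dlOf (nat_lit 3) (nat_lit 0x48249000811900018748000540c00b049200842310000c0280a0800)))) 
(.lf (nat_lit 1409753129) (dlOf (nat_lit 1) (nat_lit 0x8008000400200060008090003))))) 
(.nd (nat_lit 22) (.nd (nat_lit 6) (.nd (nat_lit 13) 
(.lf (nat_lit 9895977) (dlOf (nat_lit 1) (nat_lit 0x8008000800200020008590a03))) 
(.lf (nat_lit 9904169) (dlOf (nat_lit 1) (nat_lit 0x20028590a01)))) 
(.lf (nat_lit 5772870889) (dlOf (nat_lit 1) (nat_lit 0x400400020008092e82)))) (.nd (nat_lit 7) 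
(.nd (nat_lit 13) (.lf (nat_lit 23003177) (dlOf (nat_lit 1) (nat_lit 0x800400160008b40682))) 
(.lf (nat_lit 23011369) (dlOf (nat_lit 16) (nat_lit 0x402740070129000508600028000000ac10020427401121290002a82006909d00008430000a60802042980005102021014e010d0a6007e8520004428c004607d000603d80013830068053800782980004c04002a14c000258100230a70000e8080b7853804c02900003704009414e0001b0100350a70000d40808685380006804003c252000160201e013a010d094805a8430000260c01e4274010c12900180860000481800a00080110002003c0008b40683)))) 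
(.lf (nat_lit 47645865) (dlOf (nat_lit 1) (nat_lit 0x8008000400200020009402c03)))))) 
(.nd (nat_lit 19) (.nd (nat_lit 27) (.nd (nat_lit 22) 
(.lf (nat_lit 1409744953) (dlOf (nat_lit 1) (nat_lit 0xc00200020008090002))) 
(.lf (nat_lit 4653113) (dlOf (nat_lit 1) (nat_lit 0x3c00200080008290002)))) (.nd (nat_lit 28) 
(.lf (nat_lit 134676537) (dlOf (nat_lit 1) (nat_lit 0x8008000400200020008090003))) 
(.lf (nat_lit 3624337465) (dlOf (nat_lit 1) (nat_lit 0x20018160681))))) (.nd (nat_lit 7) 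
(.nd (nat_lit 13) (.nd (nat_lit 22) 
(.lf (nat_lit 17760313) (dlOf (nat_lit 1) (nat_lit 0x4002000400088f1102))) 
(.lf (nat_lit 13566009) (dlOf (nat_lit 2) (nat_lit 0x4026b000e6818730b80)))) 
(.lf (nat_lit 17768505) (dlOf (nat_lit 1) (nat_lit 0x4002000200088f1102)))) 
(.lf (nat_lit 51315897) (dlOf (nat_lit 1) (nat_lit 0x40019512c81)))))) (.nd (nat_lit 27) 
(.nd (nat_lit 26) (.nd (nat_lit 30) (.nd (nat_lit 4) (.nd (nat_lit 13) 
(.lf (nat_lit 805765161) (dlOf (nat_lit 3) (nat_lit 0x2300560018029804a004c01a900c04680ac000a05300940098035181800f0008007c002001400081a0003))) 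
(.lf (nat_lit 805773353) (dlOf (nat_lit 3) (nat_lit 0x83015800100a6000a013006a403010702b0002814c002002600d4606000400181a0001)))) 
(.lf (nat_lit 805765177) (dlOf (nat_lit 1) (nat_lit 0x38004000400081a0002)))) (.nd (nat_lit 6) 
(.lf (nat_lit 1611071529) (dlOf (nat_lit 1) (nat_lit 0xe00080d0281))) 
(.lf (nat_lit 4026993897) (dlOf (nat_lit 1) (nat_lit 0x80080004002000200080f6503))))) 
(.nd (nat_lit 7) (.nd (nat_lit 13) 
(.lf (nat_lit 2752970793) (dlOf (nat_lit 1) (nat_lit 0x400400020008070802))) 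
(.lf (nat_lit 2752978985) (dlOf (nat_lit 1) (nat_lit 0xe0028070801)))) (.nd (nat_lit 6) 
(.lf (nat_lit 4095148201) (dlOf (nat_lit 1) (nat_lit 0x160018062c81))) 
(.lf (nat_lit 2751924457) (dlOf (nat_lit 1) (nat_lit 0x1400400060008004b02)))))) (.nd (nat_lit 4) 
(.nd (nat_lit 13) (.nd (nat_lit 28) 
(.lf (nat_lit 738656297) (dlOf (nat_lit 1) (nat_lit 0xe00080d0281))) 
(.lf (nat_lit 4228317225) (dlOf (nat_lit 3) (nat_lit 0x28c06400d48020146032006a3018090000)))) 
(.nd (nat_lit 26) (.lf (nat_lit 3892781097) (dlOf (nat_lit 2) (nat_lit 0x1a00000044018260780))) 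
(.lf (nat_lit 4228325417) (dlOf (nat_lit 3) (nat_lit 0x41806400d4802020c032006a3018090000))))) 
(.nd (nat_lit 13) (.nd (nat_lit 19) 
(.lf (nat_lit 2886139961) (dlOf (nat_lit 1) (nat_lit 0x20018160681))) 
(.lf (nat_lit 6377373753) (dlOf (nat_lit 2) (nat_lit 0x900740006402000600080d0c81)))) 
(.nd (nat_lit 9) (.nd (nat_lit 26) 
(.lf (nat_lit 3892781113) (dlOf (nat_lit 3) (nat_lit 0xa40c8009602e004100100007c180298168003405e000130400180028260901))) 
(.lf (nat_lit 3154583609) (dlOf (nat_lit 1) (nat_lit 0x20008260901)))) 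
(.lf (nat_lit 6375810617) (dlOf (nat_lit 1) (nat_lit 0x8008000400200020008003783)))))))) 
(.nd (nat_lit 13) (.nd (nat_lit 19) (.nd (nat_lit 4) (.nd (nat_lit 20) (.nd (nat_lit 22) 
(.nd (nat_lit 26) (.lf (nat_lit 3492216873) (dlOf (nat_lit 1) (nat_lit 0xc004000400080b0d82))) 
(.lf (nat_lit 2754019369) (dlOf (nat_lit 1) (nat_lit 0xc004000200080b0d02)))) 
(.lf (nat_lit 15138857) (dlOf (nat_lit 5) (nat_lit 0x380000005f02000e0000002e810025d0c8005e84c005b2bc00257f9001d38400090000000a818006b432000da130011bfc8001081800080080094002000c00087c0683)))) 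
(.nd (nat_lit 6) (.lf (nat_lit 24576041) (dlOf (nat_lit 1) (nat_lit 0x380080018002000c0008ba0a03))) 
(.lf (nat_lit 49741929) (dlOf (nat_lit 2) (nat_lit 0x4289c00068040010002000400094a0a02))))) 
(.nd (nat_lit 20) (.nd (nat_lit 26) 
(.lf (nat_lit 3492216889) (dlOf (nat_lit 1) (nat_lit 0xc004000200080b1502))) 
(.lf (nat_lit 2754019385) (dlOf (nat_lit 1) (nat_lit 0xc004000200080b1502)))) (.nd (nat_lit 7) 
(.lf (nat_lit 24576057) (dlOf (nat_lit 1) (nat_lit 0x20028ba0b81))) 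
(.lf (nat_lit 11993273) (dlOf (nat_lit 1) (nat_lit 0x98008002c002000800086c0383)))))) 
(.nd (nat_lit 7) (.nd (nat_lit 22) (.nd (nat_lit 9) 
(.lf (nat_lit 473890857) (dlOf (nat_lit 3) (nat_lit 0x23102000a05a000a02cc00341450027067800202c800a002e000290e001c16800130b3000a033c005402e000270800440028fc0201))) 
(.lf (nat_lit 62851625) (dlOf (nat_lit 1) (nat_lit 0x200099a5181)))) (.nd (nat_lit 4) 
(.lf (nat_lit 25100329) (dlOf (nat_lit 2) (nat_lit 0x772f00028818be0c00))) 
(.lf (nat_lit 25100345) (dlOf (nat_lit 1) (nat_lit 0x10008001000200060008be1303))))) 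
(.nd (nat_lit 4) (.nd (nat_lit 6) 
(.lf (nat_lit 2754550953) (dlOf (nat_lit 1) (nat_lit 0x80080008002000200080fc203))) 
(.nd (nat_lit 9) (.lf (nat_lit 3492743401) (dlOf (nat_lit 1) (nat_lit 0x200180f4b01))) 
(.lf (nat_lit 19864297) (dlOf (nat_lit 1) (nat_lit 0x200189db981))))) (.nd (nat_lit 6) 
(.lf (nat_lit 3080377) (dlOf (nat_lit 1) (nat_lit 0x240028200381))) 
(.lf (nat_lit 3493789945) (dlOf (nat_lit 1) (nat_lit 0xe00081b0481))))))) (.nd (nat_lit 19) 
(.nd (nat_lit 4) (.nd (nat_lit 22) (.nd (nat_lit 7) 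
(.lf (nat_lit 2564137) (dlOf (nat_lit 4) (nat_lit 0x10afa0039981000a57d001cc808003abe800e6204004c00400060008170a02))) 
(.lf (nat_lit 1344742569) (dlOf (nat_lit 4) (nat_lit 0x281f4000ec0400200ea000407300033020002039800194080020008001000200080008982c03)))) 
(.nd (nat_lit 6) 
(.lf (nat_lit 15147049) (dlOf (nat_lit 7) (nat_lit 0x68000000be0400400000005d0200020000002c81000200000016008019e864007f426002f8500012c1f800a5fe4006efc600257cd001921f80110000000a82400bf4320035a130013c28000860fc0046ff2002d7e300060000001083800180080198002003000087c0683))) 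
(.lf (nat_lit 48701545) (dlOf (nat_lit 2) (nat_lit 0x186098000bc0800080080018002000a0009420a03))))) 
(.nd (nat_lit 20) (.nd (nat_lit 22) 
(.lf (nat_lit 2564153) (dlOf (nat_lit 8) (nat_lit 0x10afa0002b0100045808000e008000ac040006c04001d6020003402001cafa0000901001857d0000440800c2be800020040028004000c0018170b82))) 
(.lf (nat_lit 15147065) (dlOf (nat_lit 1) (nat_lit 0x1d000087c0881)))) 
(.lf (nat_lit 3612729) (dlOf (nat_lit 4) (nat_lit 0xc558000320100032ac0000900800115240002c04000400400040018210b82))))) 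
(.nd (nat_lit 9) (.nd (nat_lit 6) (.nd (nat_lit 4) (.nd (nat_lit 22) 
(.lf (nat_lit 473899049) (dlOf (nat_lit 4) (nat_lit 0x671020036068401802d000bc1450052067803902c801d00e600b201700014880028102000b81cc0005008013840800ba1a100390b400238514011c19e00ae0b2006c0398021005c0004e200038002000a0008fc0202))) 
(.lf (nat_lit 25108521) (dlOf (nat_lit 2) (nat_lit 0x8178a0045b9d00115cbc0072d4a00712c4000383a8000dc300028008003800200120008be0c03)))) 
(.lf (nat_lit 25108537) (dlOf (nat_lit 1) (nat_lit 0x8008003000200060008be1303)))) 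
(.nd (nat_lit 20) 
(.lf (nat_lit 19865705) (dlOf (nat_lit 1) (nat_lit 0x510008018c00201d600089d0103))) 
(.lf (nat_lit 12525673) (dlOf (nat_lit 2) (nat_lit 0x3c9e4c0244e2a010e6eb007934b003c8f6c00020140008004006200186d1402))))) 
(.nd (nat_lit 11) (.nd (nat_lit 6) 
(.lf (nat_lit 472850985) (dlOf (nat_lit 1) (nat_lit 0x1f8008009400201e40008b18903))) 
(.lf (nat_lit 61810281) (dlOf (nat_lit 2) (nat_lit 0x1548a000330200180029923901)))) 
(.nd (nat_lit 4) (.nd (nat_lit 7) 
(.lf (nat_lit 1346316841) (dlOf (nat_lit 6) (nat_lit 0x90b30002fc08005059c00202cc000615700030ab00010510001028600080ce0004062800103100028036001801a000300000022860001059c000819c0008904000616700030b300028510001419c000601b000a00d000220300040534000f604004c004000a0008f05182))) 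
(.lf (nat_lit 19872425) (dlOf (nat_lit 1) (nat_lit 0x2d000800bc002006a00089db783)))) 
(.lf (nat_lit 1346316857) (dlOf (nat_lit 2) (nat_lit 0xb0b40002059800082ac000414a00010a18001049000241880004096000800e00048068000be28004000400040018f05202)))))))))) 
(.nd (nat_lit 4) (.nd (nat_lit 6) (.nd (nat_lit 13) (.nd (nat_lit 11) (.nd (nat_lit 7) 
(.nd (nat_lit 26) (.nd (nat_lit 27) 
(.lf (nat_lit 6711084329) (dlOf (nat_lit 1) (nat_lit 0x400400020008093182))) 
(.lf (nat_lit 2013463849) (dlOf (nat_lit 1) (nat_lit 0x200080034002000c0008093183)))) 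
(.nd (nat_lit 27) (.lf (nat_lit 872613161) (dlOf (nat_lit 1) (nat_lit 0x400200020008093182))) 
(.lf (nat_lit 4764927273) (dlOf (nat_lit 1) (nat_lit 0x400400020008093182))))) (.nd (nat_lit 10) 
(.nd (nat_lit 18) (.lf (nat_lit 6378160553) (dlOf (nat_lit 1) (nat_lit 0x20018116e81))) 
(.lf (nat_lit 134676905) (dlOf (nat_lit 1) (nat_lit 0x3c00400960018090782)))) (.nd (nat_lit 9) 
(.nd (nat_lit 18) (.lf (nat_lit 4764927401) (dlOf (nat_lit 1) (nat_lit 0x660018093601))) 
(.lf (nat_lit 8324521) (dlOf (nat_lit 1) (nat_lit 0x20018513601)))) 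
(.lf (nat_lit 5905778601) (dlOf (nat_lit 1) (nat_lit 0xf4004008a0018144302)))))) (.nd (nat_lit 9) 
(.nd (nat_lit 7) (.nd (nat_lit 26) 
(.lf (nat_lit 3624078633) (dlOf (nat_lit 1) (nat_lit 0x400400020008146802))) 
(.lf (nat_lit 1543703849) (dlOf (nat_lit 1) (nat_lit 0x20018146801)))) (.nd (nat_lit 10) 
(.lf (nat_lit 3221424553) (dlOf (nat_lit 2) (nat_lit 0x2800002e6804001400200180008114e82))) 
(.lf (nat_lit 19865001) (dlOf (nat_lit 1) (nat_lit 0x4002000200089dcb82))))) (.nd (nat_lit 12) 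
(.nd (nat_lit 10) (.nd (nat_lit 18) 
(.lf (nat_lit 54725417) (dlOf (nat_lit 4) (nat_lit 0x7139d000898080491ce80041c0401b8e8800e0743000d1829655c00))) 
(.lf (nat_lit 46598953) (dlOf (nat_lit 1) (nat_lit 0x40029385c01)))) 
(.lf (nat_lit 19861289) (dlOf (nat_lit 3) (nat_lit 0x8d84002630100016c20013140808480080348002023c00089d7483)))) 
(.nd (nat_lit 7) 
(.lf (nat_lit 2754550569) (dlOf (nat_lit 1) (nat_lit 0x80080018002001600080fbc83))) 
(.lf (nat_lit 2754550697) (dlOf (nat_lit 3) (nat_lit 0x80790011501000a03c8008540800100080068002000200080fbd03))))))) 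
(.nd (nat_lit 7) (.nd (nat_lit 9) (.nd (nat_lit 24) (.nd (nat_lit 10) 
(.lf (nat_lit 6376333609) (dlOf (nat_lit 1) (nat_lit 0xbc004001c0008090b02))) 
(.lf (nat_lit 6509767977) (dlOf (nat_lit 1) (nat_lit 0x400018146801)))) (.nd (nat_lit 20) 
(.nd (nat_lit 21) (.lf (nat_lit 30351657) (dlOf (nat_lit 1) (nat_lit 0x800200040008e30702))) 
(.lf (nat_lit 19865897) (dlOf (nat_lit 1) (nat_lit 0x180080074002000600089d0b03)))) 
(.lf (nat_lit 18817321) (dlOf (nat_lit 1) (nat_lit 0x18008000400200020008970703))))) 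
(.nd (nat_lit 11) (.nd (nat_lit 12) 
(.lf (nat_lit 19866409) (dlOf (nat_lit 1) (nat_lit 0x200080054002000600089d2203))) 
(.lf (nat_lit 3422761769) (dlOf (nat_lit 1) (nat_lit 0xf0002000800080a8f82)))) (.nd (nat_lit 18) 
(.nd (nat_lit 20) 
(.lf (nat_lit 54733609) (dlOf (nat_lit 1) (nat_lit 0x28008004400200020009655c03))) 
(.lf (nat_lit 1345530665) (dlOf (nat_lit 1) (nat_lit 0xe0028c95c01)))) 
(.lf (nat_lit 60238633) (dlOf (nat_lit 1) (nat_lit 0x400400020009845c02)))))) (.nd (nat_lit 10) 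
(.nd (nat_lit 18) (.nd (nat_lit 11) 
(.lf (nat_lit 8069545) (dlOf (nat_lit 1) (nat_lit 0x20018511001))) 
(.lf (nat_lit 3221432745) (dlOf (nat_lit 2) (nat_lit 0x2000000b9a018114e80)))) (.nd (nat_lit 26) 
(.nd (nat_lit 27) (.lf (nat_lit 805773737) (dlOf (nat_lit 1) (nat_lit 0x200281a0781))) 
(.lf (nat_lit 134685097) (dlOf (nat_lit 1) (nat_lit 0x400400020008090782)))) 
(.lf (nat_lit 4228325801) (dlOf (nat_lit 1) (nat_lit 0x400400020008090782))))) (.nd (nat_lit 11) 
(.nd (nat_lit 9) (.lf (nat_lit 5637350825) (dlOf (nat_lit 1) (nat_lit 0x200280d3601))) 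
(.lf (nat_lit 5905786793) (dlOf (nat_lit 1) (nat_lit 0x2880028144301)))) (.nd (nat_lit 18) 
(.lf (nat_lit 3489873321) (dlOf (nat_lit 9) (nat_lit 0x321fd00040af0000c01000b87f40005e0400a83fa0002e0200661fd00040f4000604e00005a0c00cc3fa00141380000282001f0fe800107a0000080800983fa004a1e8000010200110fe80000008005000800f0002000a000800cb83))) 
(.lf (nat_lit 19873193) (dlOf (nat_lit 2) (nat_lit 0x40c85000048189dcb80)))))))) (.nd (nat_lit 30) 
(.nd (nat_lit 7) (.nd (nat_lit 13) (.nd (nat_lit 9) (.nd (nat_lit 10) 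
(.lf (nat_lit 474153321) (dlOf (nat_lit 1) (nat_lit 0xec004005800090e0f02))) 
(.lf (nat_lit 50267497) (dlOf (nat_lit 4) (nat_lit 0x99ce80007c040064e740003a02003474400113a18000d41001000080088002000200094c3483)))) 
(.nd (nat_lit 26) 
(.lf (nat_lit 268634985) (dlOf (nat_lit 1) (nat_lit 0x100080004002000200080e5c03))) 
(.lf (nat_lit 4630711145) (dlOf (nat_lit 1) (nat_lit 0x800400020008095c02))))) (.nd (nat_lit 18) 
(.nd (nat_lit 22) (.lf (nat_lit 3087212905) (dlOf (nat_lit 1) (nat_lit 0x160018155201))) 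
(.lf (nat_lit 474161513) (dlOf (nat_lit 2) (nat_lit 0x181f40003102001200090e0f01)))) 
(.nd (nat_lit 19) (.lf (nat_lit 4362543465) (dlOf (nat_lit 1) (nat_lit 0x400400020008090702))) 
(.lf (nat_lit 3088745) (dlOf (nat_lit 1) (nat_lit 0x400200020008200702)))))) (.nd (nat_lit 11) 
(.nd (nat_lit 13) (.nd (nat_lit 26) 
(.lf (nat_lit 2294249) (dlOf (nat_lit 1) (nat_lit 0x1b00028150d01))) 
(.lf (nat_lit 2753757673) (dlOf (nat_lit 2) (nat_lit 0x83ac000030200020028090d01)))) 
(.nd (nat_lit 18) (.lf (nat_lit 8593897) (dlOf (nat_lit 1) (nat_lit 0x1400200020008511302))) 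
(.lf (nat_lit 2753503721) (dlOf (nat_lit 1) (nat_lit 0x20018090d01))))) (.nd (nat_lit 18) 
(.nd (nat_lit 26) (.lf (nat_lit 268634601) (dlOf (nat_lit 1) (nat_lit 0x4004000200080e4e82))) 
(.lf (nat_lit 4630710761) (dlOf (nat_lit 1) (nat_lit 0x400400020008094e82)))) (.nd (nat_lit 13) 
(.lf (nat_lit 19859945) (dlOf (nat_lit 1) (nat_lit 0x4004000200089d4e82))) 
(.lf (nat_lit 2754554345) (dlOf (nat_lit 1) (nat_lit 0x200280f4e81))))))) (.nd (nat_lit 11) 
(.nd (nat_lit 27) (.nd (nat_lit 26) (.nd (nat_lit 18) 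
(.lf (nat_lit 1342374377) (dlOf (nat_lit 2) (nat_lit 0x3c0e88038873c013c39a00ae1cb003f0e2800114280198008006c00200160008017303))) 
(.lf (nat_lit 3490644457) (dlOf (nat_lit 2) (nat_lit 0x1d00c00000a818017300)))) (.nd (nat_lit 13) 
(.lf (nat_lit 3825402345) (dlOf (nat_lit 1) (nat_lit 0x28008000c00200040008157303))) 
(.lf (nat_lit 3825410537) (dlOf (nat_lit 5) (nat_lit 0x157005809500240124004025a0000001704015700580950024012400402580000001684003a00580009c08012802c0004c0401dc00400760018157302))))) 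
(.nd (nat_lit 7) (.nd (nat_lit 9) (.nd (nat_lit 13) 
(.lf (nat_lit 1812136297) (dlOf (nat_lit 1) (nat_lit 0x400400020018155202))) 
(.lf (nat_lit 4228325737) (dlOf (nat_lit 1) (nat_lit 0x400400020008090702)))) 
(.lf (nat_lit 3959629673) (dlOf (nat_lit 1) (nat_lit 0x20008114001)))) (.nd (nat_lit 28) 
(.lf (nat_lit 1812136425) (dlOf (nat_lit 8) (nat_lit 0x12002c000ba04000803000cc00b004200480008010010c004008e0000002e06002400580014408032802c010801200020040041001001f0000000a0140078016000450200080250000a81004500000001008007800800e400200dc0008157303))) 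
(.lf (nat_lit 4228055529) (dlOf (nat_lit 14) (nat_lit 0x6a04f0003601001e0210001a0080158174036c0b0005e057002f02b0254013c12a409a000e04200d101e00f300e80644072009c02e084c0150183808004880340188014000338f014402e807c016405280b00262057000402b0049814012a009e095404d00af024006780f003a407603f003a01ed01c806900d003d006601b002f0317017006480b420ec05407b002703d801000a20068030c028000662e003e0420003281000f0230001380800181180009a04000c0840004502003e0420002101003d02e8025815c11a009e0008042004c01c843c80a80234034000410e04a605d02b402c817e016009bc0ae0220056005d028806a0140129c09e07ea04e04a20268078012000ec082019003c017b01d811000e8090c07204660340232019812100bc03b805c058402d083e01501fc00a4031c05000f20270400011006d0084017804002e401a001400c808480500007e7c00240840003d02026804f02f002680002c101ba800812840021bf80008017303)))))) 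
(.nd (nat_lit 10) (.nd (nat_lit 18) (.nd (nat_lit 26) 
(.lf (nat_lit 3624077801) (dlOf (nat_lit 1) (nat_lit 0x8008000400200020008144e83))) 
(.lf (nat_lit 6107105769) (dlOf (nat_lit 1) (nat_lit 0x400400020008094e82)))) (.nd (nat_lit 13) 
(.lf (nat_lit 6376327657) (dlOf (nat_lit 1) (nat_lit 0x23c00200880008094e82))) 
(.lf (nat_lit 6376335849) (dlOf (nat_lit 1) (nat_lit 0x8008000400200020008094e83))))) 
(.nd (nat_lit 7) (.lf (nat_lit 3489869161) (dlOf (nat_lit 1) (nat_lit 0x20008006b01))) 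
(.nd (nat_lit 13) 
(.lf (nat_lit 3624078825) (dlOf (nat_lit 1) (nat_lit 0x18008000c00200040008146e83))) 
(.lf (nat_lit 3489869289) (dlOf (nat_lit 1) (nat_lit 0x28004000a0008006e82))))))))) 
(.nd (nat_lit 13) (.nd (nat_lit 30) (.nd (nat_lit 7) (.nd (nat_lit 10) (.nd (nat_lit 6) 
(.nd (nat_lit 9) (.nd (nat_lit 11) 
(.lf (nat_lit 3087204665) (dlOf (nat_lit 1) (nat_lit 0x400400020008154c02))) 
(.lf (nat_lit 2885880121) (dlOf (nat_lit 1) (nat_lit 0x1e0008144c01)))) 
(.lf (nat_lit 8061753) (dlOf (nat_lit 1) (nat_lit 0xe0028512281)))) (.nd (nat_lit 11) 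
(.lf (nat_lit 8061305) (dlOf (nat_lit 1) (nat_lit 0x20008511001))) 
(.lf (nat_lit 37423481) (dlOf (nat_lit 1) (nat_lit 0x200190d4e81))))) (.nd (nat_lit 11) 
(.nd (nat_lit 9) (.lf (nat_lit 8590649) (dlOf (nat_lit 1) (nat_lit 0x400200020008519902))) 
(.lf (nat_lit 2751924025) (dlOf (nat_lit 1) (nat_lit 0xc0028003e01)))) (.nd (nat_lit 6) 
(.lf (nat_lit 2818776377) (dlOf (nat_lit 2) (nat_lit 0x801b0003d408003000800040020002000812c803))) 
(.lf (nat_lit 19864953) (dlOf (nat_lit 1) (nat_lit 0x80080010002001000089dc903)))))) 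
(.nd (nat_lit 9) (.nd (nat_lit 18) (.nd (nat_lit 10) (.nd (nat_lit 20) 
(.lf (nat_lit 201523705) (dlOf (nat_lit 1) (nat_lit 0xc00400040018017e02))) 
(.lf (nat_lit 9634297) (dlOf (nat_lit 5) (nat_lit 0xf50e000101f000178100015438000807c0005c04001e03e00021810004000000088080068008000c002000c0008577e03)))) 
(.lf (nat_lit 1008403961) (dlOf (nat_lit 1) (nat_lit 0x20028bb3681)))) (.nd (nat_lit 6) 
(.lf (nat_lit 24052153) (dlOf (nat_lit 1) (nat_lit 0x58008001000200160008b80803))) 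
(.lf (nat_lit 2752446969) (dlOf (nat_lit 1) (nat_lit 0x60018017e01))))) (.nd (nat_lit 18) 
(.nd (nat_lit 6) (.lf (nat_lit 8067001) (dlOf (nat_lit 2) (nat_lit 0x14bea00020020008002851a501))) 
(.lf (nat_lit 54725625) (dlOf (nat_lit 2) (nat_lit 0x41d100038e86000320400080019655f01)))) 
(.nd (nat_lit 19) (.nd (nat_lit 24) 
(.lf (nat_lit 604439545) (dlOf (nat_lit 1) (nat_lit 0x800400020008282882))) 
(.lf (nat_lit 50791417) (dlOf (nat_lit 1) (nat_lit 0xa00194c2881)))) 
(.lf (nat_lit 70190073) (dlOf (nat_lit 1) (nat_lit 0x8008000400200020008fa2883))))))) 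
(.nd (nat_lit 29) (.nd (nat_lit 31) (.nd (nat_lit 7) (.nd (nat_lit 10) 
(.lf (nat_lit 1543702905) (dlOf (nat_lit 3) (nat_lit 0x2c0160056980800800b002af004001400200140008144e82))) 
(.lf (nat_lit 5637342585) (dlOf (nat_lit 1) (nat_lit 0x400280d3501)))) (.nd (nat_lit 9) 
(.lf (nat_lit 1342374393) (dlOf (nat_lit 1) (nat_lit 0x50002000a0008017802))) (.nd (nat_lit 18) 
(.lf (nat_lit 1346044921) (dlOf (nat_lit 1) (nat_lit 0x140018e22881))) 
(.lf (nat_lit 5773919225) (dlOf (nat_lit 1) (nat_lit 0x2800180e2881)))))) (.nd (nat_lit 9) 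
(.nd (nat_lit 10) (.nd (nat_lit 18) 
(.lf (nat_lit 3491430905) (dlOf (nat_lit 4) (nat_lit 0x240f68008600800287b40042e0403003d6000f70200020028090d81))) 
(.lf (nat_lit 3490644473) (dlOf (nat_lit 5) (nat_lit 0x70448029140800202240147804001411600a3402000208b00514818017800)))) 
(.lf (nat_lit 3624078841) (dlOf (nat_lit 1) (nat_lit 0x400400020008146f82)))) (.nd (nat_lit 6) 
(.lf (nat_lit 3492742969) (dlOf (nat_lit 2) (nat_lit 0x1000e0000300800700080038002000e00080f3e03))) 
(.lf (nat_lit 3288794105) (dlOf (nat_lit 1) (nat_lit 0x4004000400080f2882)))))) (.nd (nat_lit 7) 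
(.nd (nat_lit 19) (.nd (nat_lit 6) 
(.lf (nat_lit 3825402169) (dlOf (nat_lit 1) (nat_lit 0x400400020008154c02))) (.nd (nat_lit 9) 
(.lf (nat_lit 1745029497) (dlOf (nat_lit 1) (nat_lit 0x5b800401b80008094e82))) 
(.lf (nat_lit 4160947065) (dlOf (nat_lit 1) (nat_lit 0x4004000200080a2582))))) (.nd (nat_lit 10) 
(.lf (nat_lit 4096459129) (dlOf (nat_lit 1) (nat_lit 0x3800200100008115882))) 
(.lf (nat_lit 4095673721) (dlOf (nat_lit 2) (nat_lit 0x2302e00118160004c08e0048005000160480e3500))))) 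
(.nd (nat_lit 10) (.nd (nat_lit 28) 
(.lf (nat_lit 1812136441) (dlOf (nat_lit 1) (nat_lit 0x3c00200280008157802))) 
(.lf (nat_lit 4228055545) (dlOf (nat_lit 1) (nat_lit 0x118002000e0008017802)))) (.nd (nat_lit 19) 
(.lf (nat_lit 2013464057) (dlOf (nat_lit 3) (nat_lit 0x20a026000350100c00130001a408019000800d400200140008093683))) 
(.lf (nat_lit 1880819193) (dlOf (nat_lit 1) (nat_lit 0x1a0018bb3681)))))))) (.nd (nat_lit 7) 
(.nd (nat_lit 31) (.nd (nat_lit 9) (.nd (nat_lit 21) (.nd (nat_lit 26) (.nd (nat_lit 6) 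
(.lf (nat_lit 268640569) (dlOf (nat_lit 1) (nat_lit 0x24004000200180e0b82))) 
(.lf (nat_lit 207225) (dlOf (nat_lit 1) (nat_lit 0x140018004e81)))) (.nd (nat_lit 27) 
(.lf (nat_lit 1141057913) (dlOf (nat_lit 3) (nat_lit 0x13002600ed3010098013007690080148008001800200120008094e83))) 
(.lf (nat_lit 738404729) (dlOf (nat_lit 1) (nat_lit 0x400400020008094e82))))) (.nd (nat_lit 10) 
(.nd (nat_lit 19) (.lf (nat_lit 20130169) (dlOf (nat_lit 1) (nat_lit 0x4002000200089d4e82))) 
(.lf (nat_lit 37431673) (dlOf (nat_lit 1) (nat_lit 0x8008001c002000800090d4e83)))) 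
(.lf (nat_lit 19873145) (dlOf (nat_lit 1) (nat_lit 0x40002000600089dc902))))) (.nd (nat_lit 6) 
(.lf (nat_lit 4630719289) (dlOf (nat_lit 1) (nat_lit 0x1e00080140002001e0008095c03))) 
(.nd (nat_lit 11) (.lf (nat_lit 6040003449) (dlOf (nat_lit 1) (nat_lit 0x4004000200080b2582))) 
(.lf (nat_lit 268643193) (dlOf (nat_lit 1) (nat_lit 0x800080028002001c00080e5c03)))))) 
(.nd (nat_lit 10) (.nd (nat_lit 26) (.nd (nat_lit 11) 
(.lf (nat_lit 3221692793) (dlOf (nat_lit 1) (nat_lit 0x28008004400200040008170783))) 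
(.lf (nat_lit 3490130297) (dlOf (nat_lit 1) (nat_lit 0x20028004e81)))) (.nd (nat_lit 6) 
(.lf (nat_lit 2885888313) (dlOf (nat_lit 1) (nat_lit 0x400028144c01))) 
(.lf (nat_lit 4094634361) (dlOf (nat_lit 1) (nat_lit 0x260018054e81))))) (.nd (nat_lit 9) 
(.nd (nat_lit 12) (.lf (nat_lit 3489869177) (dlOf (nat_lit 1) (nat_lit 0x400400060008006b82))) 
(.lf (nat_lit 2754559353) (dlOf (nat_lit 1) (nat_lit 0x4004000200080fc902)))) (.nd (nat_lit 6) 
(.lf (nat_lit 2818780985) (dlOf (nat_lit 1) (nat_lit 0x20018127501))) 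
(.lf (nat_lit 3556978553) (dlOf (nat_lit 1) (nat_lit 0xc00400020008127782))))))) (.nd (nat_lit 19) 
(.nd (nat_lit 11) (.nd (nat_lit 10) (.nd (nat_lit 20) (.nd (nat_lit 26) 
(.lf (nat_lit 3087213049) (dlOf (nat_lit 8) (nat_lit 0x9d002c05c0012003000201950000000bc2009f002c05d8012033e0000001683004f0058000ac08028802c000540401280160002802007200b000130100280058000280800f800802ac00202d40008157e03))) 
(.lf (nat_lit 3825410553) (dlOf (nat_lit 8) (nat_lit 0x42005801e802400e800000a5106005c00b0029004801f0000014a00c014c016008a009004800000293c18027802c0148c0400dc01600a4502009600b0051e01004d0058028ec080260008008800200920008157803)))) 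
(.lf (nat_lit 9642489) (dlOf (nat_lit 3) (nat_lit 0x449b0000240200024d80000e818577e00)))) 
(.nd (nat_lit 26) (.lf (nat_lit 1610819065) (dlOf (nat_lit 1) (nat_lit 0x1000200020008093682))) 
(.lf (nat_lit 4764935673) (dlOf (nat_lit 1) (nat_lit 0x400400020008093682))))) (.nd (nat_lit 9) 
(.nd (nat_lit 6) (.lf (nat_lit 57878969) (dlOf (nat_lit 1) (nat_lit 0x800080004002000a0009794e83))) 
(.lf (nat_lit 39004665) (dlOf (nat_lit 2) (nat_lit 0xccfc0004e02001c0029194f81)))) 
(.nd (nat_lit 12) (.lf (nat_lit 4563610617) (dlOf (nat_lit 1) (nat_lit 0x68004015e0008095f02))) 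
(.lf (nat_lit 8600569) (dlOf (nat_lit 1) (nat_lit 0x800800040020002000851bf03)))))) 
(.nd (nat_lit 9) (.nd (nat_lit 10) (.nd (nat_lit 26) 
(.lf (nat_lit 3490652665) (dlOf (nat_lit 6) (nat_lit 0x42300052881000411800293c0800488d00145404004046800a2902002023400514018017800))) 
(.lf (nat_lit 2752455161) (dlOf (nat_lit 4) (nat_lit 0x381f80001201000b0fc0000880800187e00004004005800400020018017e02)))) 
(.nd (nat_lit 21) (.lf (nat_lit 43984377) (dlOf (nat_lit 1) (nat_lit 0x200292a3681))) 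
(.lf (nat_lit 8332793) (dlOf (nat_lit 1) (nat_lit 0x20018513681))))) (.nd (nat_lit 20) 
(.nd (nat_lit 21) (.lf (nat_lit 38478841) (dlOf (nat_lit 1) (nat_lit 0x20009132881))) 
(.lf (nat_lit 53158905) (dlOf (nat_lit 1) (nat_lit 0x800801a000200700009572883)))) 
(.nd (nat_lit 11) (.nd (nat_lit 18) 
(.lf (nat_lit 1008411641) (dlOf (nat_lit 1) (nat_lit 0x400400020008bb2882))) 
(.lf (nat_lit 35595257) (dlOf (nat_lit 1) (nat_lit 0xa0019012881)))) 
(.lf (nat_lit 8076281) (dlOf (nat_lit 1) (nat_lit 0x2002851bf01))))))))))))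

end

end Pool.Agent.Lib.MP_5854e1_co.Cz

namespace Pool.Agent.Lib.MP_5854e1_co.Cz

noncomputable section

noncomputable def tz54 : DT := (.nd (nat_lit 5) (.nd (nat_lit 17) (.nd (nat_lit 18) 
(.nd (nat_lit 6) (.nd (nat_lit 4) (.nd (nat_lit 27) (.nd (nat_lit 21) (.nd (nat_lit 19) 
(.nd (nat_lit 20) (.nd (nat_lit 7) 
(.lf (nat_lit 5435916297) (dlOf (nat_lit 1) (nat_lit 0x20028030001))) 
(.lf (nat_lit 1342279305) (dlOf (nat_lit 1) (nat_lit 0xc8008009c002000c0008007183)))) 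
(.nd (nat_lit 23) (.nd (nat_lit 24) 
(.lf (nat_lit 1146889) (dlOf (nat_lit 1) (nat_lit 0x1000400060008080482))) 
(.lf (nat_lit 17924105) (dlOf (nat_lit 1) (nat_lit 0x20008900581)))) 
(.lf (nat_lit 9535497) (dlOf (nat_lit 1) (nat_lit 0x4a0018560481))))) (.nd (nat_lit 7) 
(.nd (nat_lit 20) (.lf (nat_lit 4362698761) (dlOf (nat_lit 1) (nat_lit 0x2800180d0681))) 
(.lf (nat_lit 26837001) (dlOf (nat_lit 1) (nat_lit 0x20008c80481)))) (.nd (nat_lit 26) 
(.lf (nat_lit 3491332489) (dlOf (nat_lit 1) (nat_lit 0xa0008090781))) 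
(.lf (nat_lit 2753134985) (dlOf (nat_lit 2) (nat_lit 0x841f900752818090780)))))) (.nd (nat_lit 25) 
(.nd (nat_lit 7) (.nd (nat_lit 19) (.nd (nat_lit 20) 
(.lf (nat_lit 1344372745) (dlOf (nat_lit 1) (nat_lit 0x20028740001))) 
(.lf (nat_lit 28409865) (dlOf (nat_lit 3) (nat_lit 0x1b4fc017a8040089aa20044d3f0001664002f3c18000800800a800200080008d90283)))) 
(.lf (nat_lit 24739849) (dlOf (nat_lit 1) (nat_lit 0x20028bb0001)))) (.nd (nat_lit 11) 
(.nd (nat_lit 19) (.lf (nat_lit 3244169) (dlOf (nat_lit 1) (nat_lit 0x60008200101))) 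
(.lf (nat_lit 12157065) (dlOf (nat_lit 1) (nat_lit 0x80080004002000200086c0103)))) 
(.lf (nat_lit 3492907145) (dlOf (nat_lit 1) (nat_lit 0x2800280f4801))))) (.nd (nat_lit 10) 
(.nd (nat_lit 9) (.lf (nat_lit 36274185) (dlOf (nat_lit 1) (nat_lit 0x400400020019060082))) 
(.lf (nat_lit 40993289) (dlOf (nat_lit 1) (nat_lit 0x40019208001)))) (.nd (nat_lit 8) 
(.lf (nat_lit 36799497) (dlOf (nat_lit 1) (nat_lit 0x2c00400020019072882))) 
(.lf (nat_lit 36799753) (dlOf (nat_lit 1) (nat_lit 0x1400200020009072f82))))))) (.nd (nat_lit 7) 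
(.nd (nat_lit 10) (.nd (nat_lit 31) (.nd (nat_lit 19) 
(.lf (nat_lit 5301698569) (dlOf (nat_lit 1) (nat_lit 0x20028030001))) 
(.lf (nat_lit 471433225) (dlOf (nat_lit 1) (nat_lit 0x200282f0481)))) (.nd (nat_lit 30) 
(.lf (nat_lit 3154739209) (dlOf (nat_lit 2) (nat_lit 0x10090007d404000400400020018310002))) 
(.lf (nat_lit 4228481033) (dlOf (nat_lit 1) (nat_lit 0x2800180d0681))))) (.nd (nat_lit 8) 
(.lf (nat_lit 2818671625) (dlOf (nat_lit 1) (nat_lit 0x2400280d2881))) (.nd (nat_lit 9) 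
(.lf (nat_lit 6308332809) (dlOf (nat_lit 1) (nat_lit 0x60018052f81))) 
(.lf (nat_lit 469862153) (dlOf (nat_lit 1) (nat_lit 0x400400020008003b82)))))) (.nd (nat_lit 10) 
(.nd (nat_lit 8) (.nd (nat_lit 26) 
(.lf (nat_lit 3623977097) (dlOf (nat_lit 1) (nat_lit 0x1a0028063d01))) (.nd (nat_lit 28) 
(.lf (nat_lit 2885779593) (dlOf (nat_lit 1) (nat_lit 0x1a0028063d01))) 
(.lf (nat_lit 5301698697) (dlOf (nat_lit 1) (nat_lit 0x20028030f01))))) (.nd (nat_lit 19) 
(.lf (nat_lit 1812040073) (dlOf (nat_lit 1) (nat_lit 0x20018144e81))) 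
(.lf (nat_lit 738822537) (dlOf (nat_lit 1) (nat_lit 0x60008124e81))))) (.nd (nat_lit 9) 
(.nd (nat_lit 8) (.lf (nat_lit 2818671753) (dlOf (nat_lit 1) (nat_lit 0x200080d2b01))) 
(.lf (nat_lit 6308332937) (dlOf (nat_lit 1) (nat_lit 0x80028053601)))) (.nd (nat_lit 29) 
(.lf (nat_lit 5838573193) (dlOf (nat_lit 1) (nat_lit 0x4004000200080f7182))) 
(.lf (nat_lit 4227960457) (dlOf (nat_lit 1) (nat_lit 0x2000400020018007182)))))))) 
(.nd (nat_lit 30) (.nd (nat_lit 20) (.nd (nat_lit 19) (.nd (nat_lit 7) (.nd (nat_lit 27) 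
(.lf (nat_lit 4563501081) (dlOf (nat_lit 2) (nat_lit 0x1c01a0000000804c800800d000200840008090003))) 
(.lf (nat_lit 6576767001) (dlOf (nat_lit 1) (nat_lit 0x400180d0a01)))) (.nd (nat_lit 26) 
(.lf (nat_lit 805404825) (dlOf (nat_lit 1) (nat_lit 0x240028090181))) 
(.lf (nat_lit 6509658265) (dlOf (nat_lit 3) (nat_lit 0x280000001180800b80000008a0400b0002000200080b0182))))) 
(.nd (nat_lit 8) (.nd (nat_lit 21) 
(.lf (nat_lit 55148569) (dlOf (nat_lit 1) (nat_lit 0x4002001000096c0182))) 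
(.lf (nat_lit 44662809) (dlOf (nat_lit 1) (nat_lit 0x38008000400200020009320003)))) 
(.lf (nat_lit 9017625) (dlOf (nat_lit 1) (nat_lit 0x4e001851ab01))))) (.nd (nat_lit 21) 
(.nd (nat_lit 19) (.nd (nat_lit 22) 
(.lf (nat_lit 2752610329) (dlOf (nat_lit 2) (nat_lit 0xa15d0007c018020480))) 
(.lf (nat_lit 22118425) (dlOf (nat_lit 2) (nat_lit 0x328d4001f604005c004004c0018a90482)))) 
(.nd (nat_lit 22) 
(.lf (nat_lit 471433241) (dlOf (nat_lit 9) (nat_lit 0xc15a00060a3800138100038568001c28e0004d04000a15a00050a380010c100028568001828e0004204000c15a00060a38000f8100030568001828e0003c04000c15a00060a38000ec100030568001828e0003704000c00182f0901))) 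
(.lf (nat_lit 22642713) (dlOf (nat_lit 1) (nat_lit 0x20028b10501))))) (.nd (nat_lit 7) 
(.nd (nat_lit 8) (.lf (nat_lit 28409881) (dlOf (nat_lit 1) (nat_lit 0xf8008000800200240008d90483))) 
(.lf (nat_lit 3244313) (dlOf (nat_lit 2) (nat_lit 0x31f40001d40800d0008000400200020008200483)))) 
(.lf (nat_lit 3244185) (dlOf (nat_lit 2) (nat_lit 0x81f4000118080060008001c002000c0008200183)))))) 
(.nd (nat_lit 7) (.nd (nat_lit 26) (.nd (nat_lit 8) (.nd (nat_lit 19) 
(.lf (nat_lit 3491856409) (dlOf (nat_lit 1) (nat_lit 0x160008090001))) 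
(.lf (nat_lit 3892936729) (dlOf (nat_lit 2) (nat_lit 0x2202c003fd0182a0a00)))) 
(.lf (nat_lit 1342282009) (dlOf (nat_lit 4) (nat_lit 0x982c2004e09d000110200260b080110274005011c00020060060161002a04e800b0238000300c0004002000c000800ab02)))) 
(.nd (nat_lit 27) (.lf (nat_lit 5972787225) (dlOf (nat_lit 1) (nat_lit 0x400180d0a01))) 
(.lf (nat_lit 3959521305) (dlOf (nat_lit 1) (nat_lit 0x400200020008090002))))) (.nd (nat_lit 8) 
(.nd (nat_lit 26) 
(.lf (nat_lit 5905678489) (dlOf (nat_lit 3) (nat_lit 0x280000001180800b80000008a0400b0002000200080b0182))) 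
(.lf (nat_lit 1677820057) (dlOf (nat_lit 1) (nat_lit 0x240028090181)))) (.nd (nat_lit 9) 
(.lf (nat_lit 1881244057) (dlOf (nat_lit 1) (nat_lit 0x20028e81001))) 
(.lf (nat_lit 5838576537) (dlOf (nat_lit 2) (nat_lit 0x4004e0054602000c00280fbc81)))))))) 
(.nd (nat_lit 28) (.nd (nat_lit 8) (.nd (nat_lit 26) (.nd (nat_lit 7) (.nd (nat_lit 4) 
(.nd (nat_lit 20) 
(.lf (nat_lit 3221848137) (dlOf (nat_lit 3) (nat_lit 0x4808c00027020002046000120181a1480))) 
(.lf (nat_lit 10059849) (dlOf (nat_lit 8) (nat_lit 0xa0000000390200260000001b0100010000000d4080198000000680400580000003102000c000000130100040000000880800180080028002000a00085b0883)))) 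
(.lf (nat_lit 8492633) (dlOf (nat_lit 1) (nat_lit 0x20008519c01)))) (.nd (nat_lit 9) 
(.lf (nat_lit 134319321) (dlOf (nat_lit 1) (nat_lit 0x20018006481))) (.nd (nat_lit 19) 
(.lf (nat_lit 101081) (dlOf (nat_lit 2) (nat_lit 0x26a4c00015018005900))) 
(.lf (nat_lit 57248473) (dlOf (nat_lit 3) (nat_lit 0x1f8490000601001ac248000000800b8008005400200240009795903)))))) 
(.nd (nat_lit 4) (.nd (nat_lit 7) (.nd (nat_lit 20) 
(.lf (nat_lit 2348908617) (dlOf (nat_lit 4) (nat_lit 0x38a02a01c1014002980600010020000c00e00190000000983004a80a802480500002504009402a004501400008810065800800e400200bc0008020883))) 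
(.lf (nat_lit 2752610377) (dlOf (nat_lit 7) (nat_lit 0x12e0fe801a07f004843ce003e15b00220ab0078050003d0000000340e02241fd00160fe0081079c00082b6000415600ea0a000688000000621c04fc3fa00da1fc01330f380080798012c2b60098156000d0a38085050000ec27e00b213401140000000985809207f400583f8022c1e700f20a0000384d00318000000220c000215a0000901009e1238000000800c000801b800200060008020883)))) 
(.lf (nat_lit 604078281) (dlOf (nat_lit 1) (nat_lit 0x400200020008010482)))) (.nd (nat_lit 30) 
(.nd (nat_lit 19) 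
(.lf (nat_lit 2348908633) (dlOf (nat_lit 1) (nat_lit 0x8008000400200020008020a03))) 
(.lf (nat_lit 2754183257) (dlOf (nat_lit 2) (nat_lit 0x3887e40000e040010002000200080c1a82)))) 
(.nd (nat_lit 7) 
(.lf (nat_lit 1140949081) (dlOf (nat_lit 4) (nat_lit 0xa0250001f01000d0128000f40800480940007804001c004000e0008020702))) 
(.lf (nat_lit 5435916505) (dlOf (nat_lit 1) (nat_lit 0x20028031901))))))) (.nd (nat_lit 4) 
(.nd (nat_lit 11) (.nd (nat_lit 7) (.nd (nat_lit 9) 
(.lf (nat_lit 2755756361) (dlOf (nat_lit 1) (nat_lit 0x200181b0601))) 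
(.lf (nat_lit 1073841993) (dlOf (nat_lit 1) (nat_lit 0x1800200040008003e82)))) 
(.lf (nat_lit 99273) (dlOf (nat_lit 1) (nat_lit 0x8008000400200020008002883)))) (.nd (nat_lit 19) 
(.nd (nat_lit 26) (.lf (nat_lit 2818673097) (dlOf (nat_lit 1) (nat_lit 0x800180d4e81))) 
(.lf (nat_lit 738298313) (dlOf (nat_lit 1) (nat_lit 0x160028094e81)))) 
(.lf (nat_lit 57248201) (dlOf (nat_lit 1) (nat_lit 0x80019794e81))))) (.nd (nat_lit 11) 
(.nd (nat_lit 10) (.nd (nat_lit 26) 
(.lf (nat_lit 1744929113) (dlOf (nat_lit 1) (nat_lit 0x120018090e01))) 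
(.lf (nat_lit 3288432985) (dlOf (nat_lit 1) (nat_lit 0x800400040008014d82)))) 
(.lf (nat_lit 49907033) (dlOf (nat_lit 1) (nat_lit 0x28008001c002003800094c3383)))) 
(.nd (nat_lit 7) (.nd (nat_lit 26) 
(.lf (nat_lit 536975705) (dlOf (nat_lit 1) (nat_lit 0x14002800ab81))) 
(.lf (nat_lit 201431385) (dlOf (nat_lit 1) (nat_lit 0xa40020006000800ab82)))) 
(.lf (nat_lit 37325273) (dlOf (nat_lit 1) (nat_lit 0x4002000c00090d4e82))))))) (.nd (nat_lit 27) 
(.nd (nat_lit 11) (.nd (nat_lit 4) (.nd (nat_lit 19) (.nd (nat_lit 20) 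
(.lf (nat_lit 2483126345) (dlOf (nat_lit 4) (nat_lit 0x38a02a01c1014002980600010020000c00e00190000000983004a80a802480500002504009402a004501400008810065800800e400200bc0008020883))) 
(.lf (nat_lit 3490807881) (dlOf (nat_lit 7) (nat_lit 0x12e0f5801a07a804843a4003e15600220a88078050003d0000000340e02241eb00160f50081074800082ac000415100ea0a000688000000621c04fc3d600da1ea01330e900080744012c2ac0098151000d0a38085050000ec27e00b213401140000000985809207ac00583d4022c1d200f20a0000384d00318000000220c00021550000901009e1178000000800c000801b800200060008020883)))) 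
(.lf (nat_lit 3492380745) (dlOf (nat_lit 3) (nat_lit 0xd81e70001701003f0f38000b00801a800800b0002008e00080c1483)))) 
(.nd (nat_lit 8) (.lf (nat_lit 4096360537) (dlOf (nat_lit 1) (nat_lit 0xa0008100701))) 
(.lf (nat_lit 4026630489) (dlOf (nat_lit 1) (nat_lit 0x420028014e01))))) (.nd (nat_lit 7) 
(.nd (nat_lit 4) (.lf (nat_lit 5704354633) (dlOf (nat_lit 1) (nat_lit 0xc00200060008055c02))) 
(.lf (nat_lit 1409387865) (dlOf (nat_lit 1) (nat_lit 0x9000400020008006a82)))) (.nd (nat_lit 9) 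
(.nd (nat_lit 19) (.lf (nat_lit 1346472393) (dlOf (nat_lit 1) (nat_lit 0x200008f64e81))) 
(.lf (nat_lit 3490286025) (dlOf (nat_lit 1) (nat_lit 0x6a0028004e81)))) 
(.lf (nat_lit 5704354761) (dlOf (nat_lit 1) (nat_lit 0x400400020008055d82)))))) (.nd (nat_lit 7) 
(.nd (nat_lit 10) (.nd (nat_lit 4) (.nd (nat_lit 9) 
(.lf (nat_lit 3154739529) (dlOf (nat_lit 1) (nat_lit 0x4a0018310781))) 
(.lf (nat_lit 2617348937) (dlOf (nat_lit 1) (nat_lit 0x200180a8f81)))) 
(.lf (nat_lit 2013364313) (dlOf (nat_lit 4) (nat_lit 0xa0250001f01000d0128000f40800480940007804001c004000e0008020702)))) 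
(.nd (nat_lit 9) (.nd (nat_lit 11) 
(.lf (nat_lit 469865801) (dlOf (nat_lit 1) (nat_lit 0x60028009901))) 
(.lf (nat_lit 1543605577) (dlOf (nat_lit 4) (nat_lit 0x40580002020000d00e80078060003c020000200200040000000483800080600002004004c0300028010000b00000000c180068008002c00200160008146983)))) 
(.lf (nat_lit 3087107913) (dlOf (nat_lit 1) (nat_lit 0x20028143e81))))) (.nd (nat_lit 8) 
(.nd (nat_lit 10) (.nd (nat_lit 19) 
(.lf (nat_lit 5301698761) (dlOf (nat_lit 1) (nat_lit 0x8008000400200500008031b83))) 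
(.lf (nat_lit 6375964873) (dlOf (nat_lit 1) (nat_lit 0x5a0008031781)))) 
(.lf (nat_lit 6375441609) (dlOf (nat_lit 1) (nat_lit 0x620018002d81)))) (.nd (nat_lit 4) 
(.nd (nat_lit 10) (.lf (nat_lit 6377015753) (dlOf (nat_lit 1) (nat_lit 0x40028094e81))) 
(.lf (nat_lit 469865929) (dlOf (nat_lit 1) (nat_lit 0x40028009a81)))) 
(.lf (nat_lit 469865433) (dlOf (nat_lit 1) (nat_lit 0x4c00400060008009202))))))))) (.nd (nat_lit 4) 
(.nd (nat_lit 6) (.nd (nat_lit 26) (.nd (nat_lit 21) (.nd (nat_lit 19) (.nd (nat_lit 30) 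
(.nd (nat_lit 29) (.nd (nat_lit 7) 
(.lf (nat_lit 8751113) (dlOf (nat_lit 1) (nat_lit 0x4a0008514701))) 
(.lf (nat_lit 21332105) (dlOf (nat_lit 1) (nat_lit 0x400400020018a30f02)))) (.nd (nat_lit 27) 
(.lf (nat_lit 537231369) (dlOf (nat_lit 2) (nat_lit 0x700000053c080040008003c00200260008060483))) 
(.lf (nat_lit 5234851849) (dlOf (nat_lit 2) (nat_lit 0x1700a000000080078008006800200160008100003))))) 
(.nd (nat_lit 9) (.nd (nat_lit 28) 
(.lf (nat_lit 3221585929) (dlOf (nat_lit 2) (nat_lit 0x40230000000800d000801f000201ba0008150503))) 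
(.lf (nat_lit 1342537737) (dlOf (nat_lit 9) (nat_lit 0x891c000c478000c23700260e880028714002c014008c48e000623c00030e88005873c0018396000a1c500030e080057c38004091c001c3a2001580400021cf000ab010001121800108dc00903a2000a1c500040e080036428002073c001b00400a048e000e1d1000c0e7800287140008382001a1730006b86000512380033808003000800a8002000c0008050583)))) 
(.lf (nat_lit 5503289865) (dlOf (nat_lit 1) (nat_lit 0x400180e5001))))) (.nd (nat_lit 24) 
(.nd (nat_lit 8) (.nd (nat_lit 27) 
(.lf (nat_lit 537755657) (dlOf (nat_lit 1) (nat_lit 0x4002000c0008160002))) 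
(.lf (nat_lit 2819457033) (dlOf (nat_lit 2) (nat_lit 0x600d80183604003000400120018290282)))) 
(.lf (nat_lit 34440457) (dlOf (nat_lit 1) (nat_lit 0x800400060008fb2f82)))) (.nd (nat_lit 20) 
(.lf (nat_lit 21856265) (dlOf (nat_lit 1) (nat_lit 0x40008a70481))) 
(.lf (nat_lit 27099145) (dlOf (nat_lit 1) (nat_lit 0x580080050002000a0008ca0483)))))) 
(.nd (nat_lit 20) (.nd (nat_lit 22) (.nd (nat_lit 7) 
(.lf (nat_lit 19234825) (dlOf (nat_lit 1) (nat_lit 0xc00400020008970002))) 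
(.lf (nat_lit 52790921) (dlOf (nat_lit 1) (nat_lit 0x400400020009573a02)))) (.nd (nat_lit 19) 
(.lf (nat_lit 15040521) (dlOf (nat_lit 1) (nat_lit 0x1c004000a00187b0282))) 
(.lf (nat_lit 15564809) (dlOf (nat_lit 1) (nat_lit 0x1b60028800281))))) (.nd (nat_lit 11) 
(.nd (nat_lit 19) 
(.lf (nat_lit 16089097) (dlOf (nat_lit 4) (nat_lit 0x92780174a04000493c00b9502000249e005a2818860280))) 
(.lf (nat_lit 4030473) (dlOf (nat_lit 1) (nat_lit 0x5000400040008270482)))) (.nd (nat_lit 7) 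
(.lf (nat_lit 3493169161) (dlOf (nat_lit 6) (nat_lit 0x80180000f70201d80890002a0100f90448001440801603000009e0400cc180011608c004d045800138180098008000c002002400080f4703))) 
(.lf (nat_lit 3493169289) (dlOf (nat_lit 3) (nat_lit 0x41800003c0200680c00001d8180f4800))))))) 
(.nd (nat_lit 27) (.nd (nat_lit 31) (.nd (nat_lit 9) (.nd (nat_lit 20) 
(.lf (nat_lit 1409646601) (dlOf (nat_lit 2) (nat_lit 0x7000000780080040008003c00200260008060483))) 
(.lf (nat_lit 68517897) (dlOf (nat_lit 1) (nat_lit 0x9800285a0581)))) 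
(.lf (nat_lit 69569033) (dlOf (nat_lit 1) (nat_lit 0x20028b45001)))) (.nd (nat_lit 10) 
(.nd (nat_lit 19) (.lf (nat_lit 2752872457) (dlOf (nat_lit 1) (nat_lit 0x20008050001))) 
(.lf (nat_lit 3557654537) (dlOf (nat_lit 2) (nat_lit 0x600e000d0c04003000400120018290282)))) 
(.lf (nat_lit 2751824905) (dlOf (nat_lit 1) (nat_lit 0x20018002881))))) (.nd (nat_lit 28) 
(.nd (nat_lit 9) 
(.lf (nat_lit 3959783433) (dlOf (nat_lit 2) (nat_lit 0x40230000000800d000801f000201ba0008150503))) 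
(.lf (nat_lit 5033527817) (dlOf (nat_lit 1) (nat_lit 0xe00180e5001)))) (.nd (nat_lit 20) 
(.lf (nat_lit 470122505) (dlOf (nat_lit 9) (nat_lit 0x891c000c478000c23700260e880028714002c014008c48e000623c00030e88005873c0018396000a1c500030e080057c38004091c001c3a2001580400021cf000ab010001121800108dc00903a2000a1c500040e080036428002073c001b00400a048e000e1d1000c0e7800287140008382001a1710006b86000512380033808003000800a8002000c0008050583))) 
(.lf (nat_lit 471171081) (dlOf (nat_lit 1) (nat_lit 0x40008001c002001200082a0003))))))) 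
(.nd (nat_lit 27) (.nd (nat_lit 8) (.nd (nat_lit 10) (.nd (nat_lit 29) (.nd (nat_lit 31) 
(.lf (nat_lit 4563763273) (dlOf (nat_lit 2) (nat_lit 0x700a40007e040004002005600080d0502))) 
(.lf (nat_lit 2416279625) (dlOf (nat_lit 1) (nat_lit 0x32000803d8002003800080d0c83)))) 
(.lf (nat_lit 1879408713) (dlOf (nat_lit 1) (nat_lit 0x400400020008130c82)))) (.nd (nat_lit 7) 
(.lf (nat_lit 4095575625) (dlOf (nat_lit 1) (nat_lit 0xc004000200180e3802))) 
(.lf (nat_lit 8750281) (dlOf (nat_lit 1) (nat_lit 0x60028512d81))))) (.nd (nat_lit 9) 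
(.nd (nat_lit 7) 
(.lf (nat_lit 56984905) (dlOf (nat_lit 2) (nat_lit 0x2219800040080068008004000200100009793303))) 
(.lf (nat_lit 3490548169) (dlOf (nat_lit 1) (nat_lit 0x10008000400200020008004e83)))) 
(.nd (nat_lit 10) (.lf (nat_lit 20286281) (dlOf (nat_lit 1) (nat_lit 0x4002000200089d5c02))) 
(.lf (nat_lit 8750921) (dlOf (nat_lit 1) (nat_lit 0x20028513e81)))))) (.nd (nat_lit 7) 
(.nd (nat_lit 26) (.nd (nat_lit 31) 
(.lf (nat_lit 4697981001) (dlOf (nat_lit 2) (nat_lit 0x700a40007e040004002005600080d0502))) 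
(.lf (nat_lit 2550497353) (dlOf (nat_lit 1) (nat_lit 0x32000803d8002003800080d0c83)))) 
(.nd (nat_lit 31) (.lf (nat_lit 1006993481) (dlOf (nat_lit 1) (nat_lit 0x400400020008130c82))) 
(.lf (nat_lit 3154477129) (dlOf (nat_lit 2) (nat_lit 0x500000004a040014004004200081a0682))))) 
(.nd (nat_lit 11) (.nd (nat_lit 26) 
(.lf (nat_lit 2818932937) (dlOf (nat_lit 1) (nat_lit 0x20018130481))) 
(.lf (nat_lit 4496654537) (dlOf (nat_lit 1) (nat_lit 0xc00400020008111b82)))) (.nd (nat_lit 8) 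
(.lf (nat_lit 5503290057) (dlOf (nat_lit 1) (nat_lit 0x170002012200080e5802))) 
(.lf (nat_lit 6107269577) (dlOf (nat_lit 1) (nat_lit 0x4400180e4e81)))))))) (.nd (nat_lit 6) 
(.nd (nat_lit 19) (.nd (nat_lit 27) (.nd (nat_lit 22) (.nd (nat_lit 28) (.nd (nat_lit 31) 
(.lf (nat_lit 1074102297) (dlOf (nat_lit 1) (nat_lit 0x500080038002001a0008090003))) 
(.lf (nat_lit 3221585945) (dlOf (nat_lit 5) (nat_lit 0x1023005420080030118005808a0149104000204600a47810001023000000080070008026c00201700008150503)))) 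
(.lf (nat_lit 2953150489) (dlOf (nat_lit 1) (nat_lit 0x20028160001)))) (.nd (nat_lit 21) 
(.lf (nat_lit 12943385) (dlOf (nat_lit 3) (nat_lit 0x2791c540138dd600023040002686000100186f0400))) 
(.lf (nat_lit 15040537) (dlOf (nat_lit 5) (nat_lit 0x18d758000be0400051d4000590201b26750002901000a33a80012c0800a80080054002001000087b0483))))) 
(.nd (nat_lit 28) (.nd (nat_lit 26) 
(.lf (nat_lit 134578201) (dlOf (nat_lit 1) (nat_lit 0x700080018002004a0008080503))) 
(.nd (nat_lit 29) 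
(.lf (nat_lit 201687065) (dlOf (nat_lit 1) (nat_lit 0x700080018002004a0008080503))) 
(.lf (nat_lit 3959783449) (dlOf (nat_lit 5) (nat_lit 0x10230059dc080030118005808a0160304000204600b00810001023000000080070008026c00201700008150503))))) 
(.nd (nat_lit 29) (.lf (nat_lit 3691347993) (dlOf (nat_lit 1) (nat_lit 0x20028160001))) 
(.lf (nat_lit 3154477081) (dlOf (nat_lit 2) (nat_lit 0x22014000148181a0100)))))) (.nd (nat_lit 20) 
(.nd (nat_lit 10) (.nd (nat_lit 23) 
(.lf (nat_lit 1410170905) (dlOf (nat_lit 2) (nat_lit 0x34022005f4018160480))) 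
(.lf (nat_lit 42827801) (dlOf (nat_lit 1) (nat_lit 0x20029280101)))) (.nd (nat_lit 8) 
(.lf (nat_lit 1007524889) (dlOf (nat_lit 1) (nat_lit 0x8008000c002000200083dbf03))) 
(.lf (nat_lit 5772248345) (dlOf (nat_lit 1) (nat_lit 0x400400020008093082))))) (.nd (nat_lit 21) 
(.nd (nat_lit 9) (.nd (nat_lit 22) 
(.lf (nat_lit 18710553) (dlOf (nat_lit 1) (nat_lit 0x400200020008960482))) 
(.lf (nat_lit 22904857) (dlOf (nat_lit 2) (nat_lit 0x26f100049404000400400060008b40482)))) 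
(.lf (nat_lit 1880984089) (dlOf (nat_lit 1) (nat_lit 0x8008000400200020008dd5083)))) 
(.nd (nat_lit 7) 
(.lf (nat_lit 1346207769) (dlOf (nat_lit 4) (nat_lit 0x2015600140668000c41000e05580006004069027602f413900017828e60100))) 
(.lf (nat_lit 20807833) (dlOf (nat_lit 1) (nat_lit 0x80080004002000200089e2b83))))))) 
(.nd (nat_lit 19) (.nd (nat_lit 11) (.nd (nat_lit 27) (.nd (nat_lit 21) (.nd (nat_lit 28) 
(.lf (nat_lit 1610973273) (dlOf (nat_lit 1) (nat_lit 0x4004000200180b0702))) 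
(.lf (nat_lit 4563763289) (dlOf (nat_lit 2) (nat_lit 0xf0160000000801980080278002011400080d0683)))) 
(.lf (nat_lit 2457689) (dlOf (nat_lit 1) (nat_lit 0x17e0008161181)))) (.nd (nat_lit 26) 
(.lf (nat_lit 4697981017) (dlOf (nat_lit 2) (nat_lit 0xf0160000000801980080278002011400080d0683))) 
(.lf (nat_lit 738558041) (dlOf (nat_lit 1) (nat_lit 0x4004000200180b0702))))) (.nd (nat_lit 7) 
(.lf (nat_lit 45451865) (dlOf (nat_lit 2) (nat_lit 0x9167500007c0800f00080140002003c0009325303))) 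
(.nd (nat_lit 9) 
(.lf (nat_lit 3624242393) (dlOf (nat_lit 4) (nat_lit 0x807a0001602000e0000000a81000501e8000140800400080040002000a0008146483))) 
(.lf (nat_lit 20290265) (dlOf (nat_lit 1) (nat_lit 0x8008000c002000200089db983)))))) 
(.nd (nat_lit 21) (.nd (nat_lit 7) (.nd (nat_lit 22) (.nd (nat_lit 25) 
(.lf (nat_lit 9273433) (dlOf (nat_lit 1) (nat_lit 0x400400020008530702))) 
(.lf (nat_lit 42827865) (dlOf (nat_lit 1) (nat_lit 0x60019280801)))) 
(.lf (nat_lit 21856345) (dlOf (nat_lit 1) (nat_lit 0xa400200480008a70982)))) (.nd (nat_lit 8) 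
(.lf (nat_lit 470647001) (dlOf (nat_lit 1) (nat_lit 0x80018150581))) 
(.lf (nat_lit 60654553) (dlOf (nat_lit 1) (nat_lit 0x200298c2881))))) (.nd (nat_lit 7) 
(.nd (nat_lit 8) (.nd (nat_lit 9) 
(.lf (nat_lit 53313625) (dlOf (nat_lit 3) (nat_lit 0x102628000a40800613140004a04006400400680019590702))) 
(.lf (nat_lit 36538969) (dlOf (nat_lit 2) (nat_lit 0x54b3a002a3fc00017029075300)))) 
(.lf (nat_lit 54362457) (dlOf (nat_lit 1) (nat_lit 0x280080010002000a0009650e03)))) 
(.nd (nat_lit 20) (.lf (nat_lit 23953625) (dlOf (nat_lit 1) (nat_lit 0x400400020018b80482))) 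
(.lf (nat_lit 20807897) (dlOf (nat_lit 1) (nat_lit 0x400189e3f01)))))))))) (.nd (nat_lit 6) 
(.nd (nat_lit 4) (.nd (nat_lit 18) (.nd (nat_lit 28) (.nd (nat_lit 19) (.nd (nat_lit 26) 
(.nd (nat_lit 7) (.nd (nat_lit 8) (.nd (nat_lit 9) 
(.lf (nat_lit 134447113) (dlOf (nat_lit 4) (nat_lit 0xc80bc0031a04002805e0018c02000802f000c5018020480))) 
(.lf (nat_lit 4832069129) (dlOf (nat_lit 1) (nat_lit 0x4800180d3681)))) 
(.lf (nat_lit 4832068873) (dlOf (nat_lit 1) (nat_lit 0x4004000200080d2f82)))) (.nd (nat_lit 8) 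
(.lf (nat_lit 2326665) (dlOf (nat_lit 1) (nat_lit 0x128008000400200260008150103))) 
(.lf (nat_lit 8624009) (dlOf (nat_lit 1) (nat_lit 0x40020002000851a302))))) (.nd (nat_lit 20) 
(.nd (nat_lit 29) 
(.lf (nat_lit 201555977) (dlOf (nat_lit 4) (nat_lit 0x500bc001f804006405e000fa02000802f0007c818020480))) 
(.lf (nat_lit 1812168713) (dlOf (nat_lit 2) (nat_lit 0xb013000354080040008001c00200100008160483)))) 
(.nd (nat_lit 8) 
(.lf (nat_lit 2752741385) (dlOf (nat_lit 2) (nat_lit 0x1280000011a04006800200260008030482))) 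
(.lf (nat_lit 68387081) (dlOf (nat_lit 1) (nat_lit 0x580018570701)))))) (.nd (nat_lit 22) 
(.nd (nat_lit 21) 
(.lf (nat_lit 2819325961) (dlOf (nat_lit 5) (nat_lit 0x120108017a804008c08400bcf02000c042005e481001c021002f20080210008005c00200040008240283))) 
(.nd (nat_lit 26) (.lf (nat_lit 2850825) (dlOf (nat_lit 1) (nat_lit 0x380080038002000200081c0483))) 
(.lf (nat_lit 2754314249) (dlOf (nat_lit 5) (nat_lit 0x3e1ff00040f480060574001024e0007d0800ce20f0068100004a87fc01a03e6002c1e900680ef803406ac01a02bc00e415d00680ab0034053001c028400b81340068093802e8450000f83c003c3fe000415d0003a8200040ff8001cc0802f0008015c002001400080d0483))))) 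
(.nd (nat_lit 7) (.lf (nat_lit 16482313) (dlOf (nat_lit 1) (nat_lit 0x4002000c00088b0282))) 
(.nd (nat_lit 8) (.lf (nat_lit 23822473) (dlOf (nat_lit 1) (nat_lit 0x400200b00008b80102))) 
(.lf (nat_lit 8094089) (dlOf (nat_lit 1) (nat_lit 0x400200020008511002))))))) (.nd (nat_lit 27) 
(.nd (nat_lit 19) (.nd (nat_lit 7) (.nd (nat_lit 20) 
(.lf (nat_lit 1342406665) (dlOf (nat_lit 2) (nat_lit 0xf0e6800728080008008001c002008a0008020483))) 
(.lf (nat_lit 3490938889) (dlOf (nat_lit 2) (nat_lit 0x1280000011a04006800200260008030482)))) 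
(.nd (nat_lit 11) (.lf (nat_lit 5100503177) (dlOf (nat_lit 1) (nat_lit 0x400180d0381))) 
(.lf (nat_lit 3493038217) (dlOf (nat_lit 1) (nat_lit 0x14c00280f4801))))) (.nd (nat_lit 20) 
(.nd (nat_lit 21) (.lf (nat_lit 3557523465) (dlOf (nat_lit 2) (nat_lit 0x60460055f018240280))) 
(.lf (nat_lit 3492511753) (dlOf (nat_lit 5) (nat_lit 0x3e1ed00040ea0006056000102460007d0800d024600670fd003407b802543da00d01de00160ea0034072801a02b200e415800680a88034053001c028400b81340068091802e8450000f83c003c3da00041580003a8200040f68001cc0802f0008015c002001400080d0483)))) 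
(.lf (nat_lit 1343979529) (dlOf (nat_lit 2) (nat_lit 0x809d000503f000270100008008000800200020008390583))))) 
(.nd (nat_lit 29) (.nd (nat_lit 26) 
(.lf (nat_lit 1476624393) (dlOf (nat_lit 6) (nat_lit 0x2201e00128008003001c003c004004800e001d602000603c0006881001501e0000100800200080118002004400080a0483))) 
(.nd (nat_lit 30) 
(.lf (nat_lit 469991433) (dlOf (nat_lit 2) (nat_lit 0xf0e68004e4080008008001c002008a0008020483))) 
(.lf (nat_lit 3691216905) (dlOf (nat_lit 28) (nat_lit 0x6600e801484080250070009460401c8038004a002006c01d001ee01003600e80258070003b80800d003a012401c000ed02000b00e000760080100060012c028004800f00380000007582001b00740140038001c504006c01d004b00e0007081001b0074003760400d803a001b202001401d000d781003600e8006b40801b0074003380400d803a0018d02006c01d000bd01003600e80808070002f00800d803a0017502006c01d000b981003600e8005c40801b0074002de0400d803a009601c000b582003600e80110070002d00800d803a0000602006c01d0000101003600e801f000000000080160002017000080a0482)))))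 
(.nd (nat_lit 8) (.nd (nat_lit 9) 
(.lf (nat_lit 939753481) (dlOf (nat_lit 2) (nat_lit 0xb01300025c080040008001c00200100008160483))) 
(.lf (nat_lit 5234722313) (dlOf (nat_lit 1) (nat_lit 0xc004000800180d3682)))) 
(.lf (nat_lit 5234722057) (dlOf (nat_lit 1) (nat_lit 0x4004000200080d2f82))))))) (.nd (nat_lit 19) 
(.nd (nat_lit 27) (.nd (nat_lit 29) (.nd (nat_lit 22) (.nd (nat_lit 21) 
(.lf (nat_lit 6510051337) (dlOf (nat_lit 1) (nat_lit 0x80028190581))) 
(.lf (nat_lit 2588681) (dlOf (nat_lit 1) (nat_lit 0x400400020008170002)))) (.nd (nat_lit 20) 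
(.lf (nat_lit 21463049) (dlOf (nat_lit 1) (nat_lit 0x20018a40001))) 
(.lf (nat_lit 30900233) (dlOf (nat_lit 1) (nat_lit 0x20008e50581))))) (.nd (nat_lit 8) 
(.nd (nat_lit 32) 
(.lf (nat_lit 1611104265) (dlOf (nat_lit 8) (nat_lit 0xc0a60173e02002600500b5d81001e02900578008008814802bbe0400200a4015de02001e02000a37810005029004b100803a00080174002000800080e0003))) 
(.lf (nat_lit 5906071561) (dlOf (nat_lit 1) (nat_lit 0x80028190581)))) 
(.lf (nat_lit 2751956745) (dlOf (nat_lit 1) (nat_lit 0x400400020008003b82))))) (.nd (nat_lit 26) 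
(.nd (nat_lit 7) (.nd (nat_lit 29) 
(.lf (nat_lit 134709257) (dlOf (nat_lit 1) (nat_lit 0x1400400040008090002))) 
(.lf (nat_lit 2819063817) (dlOf (nat_lit 2) (nat_lit 0x601b0018fc08015000800b800200440008190283)))) 
(.nd (nat_lit 10) (.lf (nat_lit 3624370313) (dlOf (nat_lit 2) (nat_lit 0x403d0021c018183d00))) 
(.lf (nat_lit 5773952137) (dlOf (nat_lit 1) (nat_lit 0x18004000400080e2b02))))) (.nd (nat_lit 29) 
(.nd (nat_lit 21) (.lf (nat_lit 201818121) (dlOf (nat_lit 1) (nat_lit 0x1400400040008090002))) 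
(.lf (nat_lit 472350729) (dlOf (nat_lit 1) (nat_lit 0x1c0018980001)))) (.nd (nat_lit 7) 
(.lf (nat_lit 738689033) (dlOf (nat_lit 8) (nat_lit 0x780a40173e02002205200b9e810008029005cf008001814c02bc004004c00a0154902001e02000a29010005029004b600803a00080174002000800080e0003))) 
(.lf (nat_lit 2886172809) (dlOf (nat_lit 2) (nat_lit 0x403d004e7818183d00))))))) (.nd (nat_lit 28) 
(.nd (nat_lit 22) (.nd (nat_lit 8) 
(.lf (nat_lit 42958857) (dlOf (nat_lit 1) (nat_lit 0x80029290081))) 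
(.lf (nat_lit 19893001) (dlOf (nat_lit 1) (nat_lit 0x400089d5b01)))) (.nd (nat_lit 10) 
(.nd (nat_lit 23) (.lf (nat_lit 5210121) (dlOf (nat_lit 1) (nat_lit 0x20008007400200020008320483))) 
(.lf (nat_lit 13598729) (dlOf (nat_lit 3) (nat_lit 0x2653a0007d02001f29d0003e018730480)))) 
(.lf (nat_lit 56591369) (dlOf (nat_lit 1) (nat_lit 0x20019732881))))) (.nd (nat_lit 8) 
(.nd (nat_lit 7) (.nd (nat_lit 10) 
(.lf (nat_lit 1343193097) (dlOf (nat_lit 1) (nat_lit 0x60028190001))) 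
(.lf (nat_lit 3492774921) (dlOf (nat_lit 1) (nat_lit 0x4002000200080f2882)))) 
(.lf (nat_lit 3491725449) (dlOf (nat_lit 1) (nat_lit 0x400400020008090102)))) (.nd (nat_lit 9) 
(.lf (nat_lit 472876297) (dlOf (nat_lit 1) (nat_lit 0x20028b52f81))) 
(.lf (nat_lit 3492775689) (dlOf (nat_lit 2) (nat_lit 0xa817800032040094004000600080f3b82)))))))) 
(.nd (nat_lit 18) (.nd (nat_lit 28) (.nd (nat_lit 19) (.nd (nat_lit 29) (.nd (nat_lit 21) 
(.nd (nat_lit 30) (.lf (nat_lit 201555993) (dlOf (nat_lit 2) (nat_lit 0x202f0007d818020480))) 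
(.lf (nat_lit 5570265113) (dlOf (nat_lit 1) (nat_lit 0x4004000200080c0182)))) (.nd (nat_lit 7) 
(.lf (nat_lit 27492377) (dlOf (nat_lit 1) (nat_lit 0x20018cf0481))) 
(.lf (nat_lit 3375257) (dlOf (nat_lit 1) (nat_lit 0x240028200181))))) (.nd (nat_lit 30) 
(.nd (nat_lit 8) 
(.lf (nat_lit 2755887129) (dlOf (nat_lit 7) (nat_lit 0x1bf03c807698080e181e403b480400f40f201d4d0201b207900ea60101bf03c80750c080c181e403a7e040018002001200081b0002))) 
(.lf (nat_lit 4832068889) (dlOf (nat_lit 1) (nat_lit 0x4004000200080d3082)))) (.nd (nat_lit 7) 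
(.lf (nat_lit 3825434905) (dlOf (nat_lit 2) (nat_lit 0x201d00233818154000))) 
(.lf (nat_lit 6107138457) (dlOf (nat_lit 1) (nat_lit 0x400400020018094e82)))))) (.nd (nat_lit 7) 
(.nd (nat_lit 9) (.nd (nat_lit 20) 
(.lf (nat_lit 2819325977) (dlOf (nat_lit 1) (nat_lit 0x1a800801a000200c60008240503))) 
(.lf (nat_lit 31162393) (dlOf (nat_lit 1) (nat_lit 0x8008000400200020008e70583)))) 
(.lf (nat_lit 51085849) (dlOf (nat_lit 3) (nat_lit 0x34b7d000228100095be80010c0801a800800b8002004600094f7e83)))) 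
(.nd (nat_lit 9) (.lf (nat_lit 36406425) (dlOf (nat_lit 1) (nat_lit 0x4002005e0009072b82))) 
(.lf (nat_lit 8098457) (dlOf (nat_lit 2) (nat_lit 0xcfac009fe0200020018518c81)))))) 
(.nd (nat_lit 29) (.nd (nat_lit 7) (.nd (nat_lit 26) (.nd (nat_lit 27) 
(.lf (nat_lit 1342406681) (dlOf (nat_lit 3) (nat_lit 0x28039a001ab0200ee1cd000c5818020480))) 
(.lf (nat_lit 402882585) (dlOf (nat_lit 1) (nat_lit 0x4004000200080a0582)))) (.nd (nat_lit 27) 
(.lf (nat_lit 5704482841) (dlOf (nat_lit 2) (nat_lit 0x1100a8001180800800080034002002000080c0183))) 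
(.lf (nat_lit 469991449) (dlOf (nat_lit 5) (nat_lit 0x130e68004740804e07340022e0400c039a001160200141cd0007d818020480))))) 
(.nd (nat_lit 8) (.lf (nat_lit 4563632281) (dlOf (nat_lit 1) (nat_lit 0x400280a2b81))) 
(.nd (nat_lit 9) (.lf (nat_lit 2550366617) (dlOf (nat_lit 1) (nat_lit 0x100028090781))) 
(.lf (nat_lit 3489897369) (dlOf (nat_lit 1) (nat_lit 0x180080008002001c000800bc83)))))) 
(.nd (nat_lit 8) (.nd (nat_lit 32) (.nd (nat_lit 7) 
(.lf (nat_lit 939753497) (dlOf (nat_lit 2) (nat_lit 0x1f0060024c016014000400390000000002003d00080874002006a0008160483))) 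
(.lf (nat_lit 4160984729) (dlOf (nat_lit 1) (nat_lit 0x1600180a9f01)))) (.nd (nat_lit 27) 
(.lf (nat_lit 6174244889) (dlOf (nat_lit 1) (nat_lit 0x4004000200080c0182))) 
(.lf (nat_lit 6308462617) (dlOf (nat_lit 2) (nat_lit 0x1100a8001180800800080034002002000080c0183))))) 
(.nd (nat_lit 10) (.nd (nat_lit 27) 
(.lf (nat_lit 5100503321) (dlOf (nat_lit 1) (nat_lit 0x200180d0a81))) 
(.lf (nat_lit 3087237401) (dlOf (nat_lit 2) (nat_lit 0x201d004fe018154000)))) 
(.lf (nat_lit 5234722073) (dlOf (nat_lit 1) (nat_lit 0x4004000200080d3082))))))) (.nd (nat_lit 21) 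
(.nd (nat_lit 20) (.nd (nat_lit 29) (.nd (nat_lit 7) (.nd (nat_lit 9) 
(.lf (nat_lit 13074457) (dlOf (nat_lit 2) (nat_lit 0x201a1800040040024002001800086f0402))) 
(.lf (nat_lit 134709785) (dlOf (nat_lit 2) (nat_lit 0x403f000b4818090d80)))) 
(.lf (nat_lit 29851801) (dlOf (nat_lit 1) (nat_lit 0xc0028e30481)))) (.nd (nat_lit 9) 
(.nd (nat_lit 27) 
(.lf (nat_lit 1611104281) (dlOf (nat_lit 8) (nat_lit 0x21e029804d813c0868042014601f004000e80bb00000006418045c0a6007204f005601d808280d40454042016201d00b60000000c03800f019803540a601cc000000170300db029808680d4026c04201b6000000168400c0029806d80d40318042014e01d00e10000000ac28060014c018804201e40000001483001202a000000080018008001c002001400080e0403))) 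
(.lf (nat_lit 2819063833) (dlOf (nat_lit 4) (nat_lit 0x5d0108089006c0005404010c0420002901005a021016400d80009608011400400280018190482)))) 
(.lf (nat_lit 872907289) (dlOf (nat_lit 2) (nat_lit 0x4043000ea8180f8700))))) (.nd (nat_lit 23) 
(.nd (nat_lit 31) (.lf (nat_lit 1343717401) (dlOf (nat_lit 1) (nat_lit 0x400200020008340482))) 
(.lf (nat_lit 3491201049) (dlOf (nat_lit 1) (nat_lit 0x20018070501)))) 
(.lf (nat_lit 9928729) (dlOf (nat_lit 1) (nat_lit 0x20018590401))))) (.nd (nat_lit 19) 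
(.nd (nat_lit 22) (.nd (nat_lit 9) (.nd (nat_lit 24) 
(.lf (nat_lit 10977305) (dlOf (nat_lit 1) (nat_lit 0x64002001a0008650502))) 
(.lf (nat_lit 27754521) (dlOf (nat_lit 1) (nat_lit 0x540008d20501)))) 
(.lf (nat_lit 1345815065) (dlOf (nat_lit 1) (nat_lit 0x40008001c00200020008e07e83)))) 
(.nd (nat_lit 9) (.nd (nat_lit 20) 
(.lf (nat_lit 6783001) (dlOf (nat_lit 1) (nat_lit 0x8008007c00200020008460583))) 
(.lf (nat_lit 7831577) (dlOf (nat_lit 1) (nat_lit 0x8008007c002000200084f0583)))) 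
(.lf (nat_lit 57117209) (dlOf (nat_lit 1) (nat_lit 0xdc0029795081))))) (.nd (nat_lit 7) 
(.nd (nat_lit 8) (.nd (nat_lit 20) 
(.lf (nat_lit 28278809) (dlOf (nat_lit 1) (nat_lit 0x20018d80681))) 
(.lf (nat_lit 20938777) (dlOf (nat_lit 1) (nat_lit 0x200089f0101)))) 
(.lf (nat_lit 46107417) (dlOf (nat_lit 1) (nat_lit 0x7000400020009385b82)))) (.nd (nat_lit 8) 
(.nd (nat_lit 9) (.lf (nat_lit 3492776089) (dlOf (nat_lit 1) (nat_lit 0x34004000200180f4802))) 
(.lf (nat_lit 3492775577) (dlOf (nat_lit 1) (nat_lit 0x64004000c00180f3a82)))) 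
(.lf (nat_lit 46107033) (dlOf (nat_lit 1) (nat_lit 0xc0019384e81))))))))) (.nd (nat_lit 7) 
(.nd (nat_lit 28) (.nd (nat_lit 18) (.nd (nat_lit 20) (.nd (nat_lit 26) (.nd (nat_lit 4) 
(.nd (nat_lit 8) 
(.lf (nat_lit 134447177) (dlOf (nat_lit 6) (nat_lit 0x167018800400c0058c022000340602a203101480088000c41006101040005c0401380a8008804b000a020803180f4009807002f20310068018002480b0012802802ec0110029008001c002800200060044000000130e005602a000100f40590062003e030001900a00ad8044002c0200012003002100000008848228800800a000204340008020883))) 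
(.lf (nat_lit 2326857) (dlOf (nat_lit 2) (nat_lit 0x276770000cc08007000800b4002000e0008150603)))) 
(.lf (nat_lit 134447193) (dlOf (nat_lit 2) (nat_lit 0xf202f00085818020980)))) (.nd (nat_lit 27) 
(.nd (nat_lit 8) 
(.lf (nat_lit 2754314313) (dlOf (nat_lit 1) (nat_lit 0x580080010002001a00080d0c83))) 
(.lf (nat_lit 4899179337) (dlOf (nat_lit 2) (nat_lit 0xc0640008e02000200180d5c01)))) 
(.nd (nat_lit 29) 
(.lf (nat_lit 201556041) (dlOf (nat_lit 6) (nat_lit 0x167018800400c0058c022000340602a203101480088000c41006101040005c0401380aa008804b000a020803180f4009807002f20310068018002480b0012802802ec0110029008001c002800200080044000000130e005602a800100f40590062003e030001900a00ad8044002c0200012004002100000008848228800800a000204340008020883))) 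
(.lf (nat_lit 1812168777) (dlOf (nat_lit 9) (nat_lit 0x160130009008c0094044002c0210000d840012011801280880003408006404c00240230023011000b0084004802200340000000c86000b0130004008c006c0440010001000b00000005c2800800880002c04005404c0024023002501100005018028809401b004000012040070025003401000003c100178008000800200060008160883)))))) 
(.nd (nat_lit 8) (.nd (nat_lit 9) 
(.lf (nat_lit 26443865) (dlOf (nat_lit 1) (nat_lit 0x400400020008c50802))) (.nd (nat_lit 11) 
(.lf (nat_lit 8094297) (dlOf (nat_lit 1) (nat_lit 0xc002000a0008511682))) 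
(.lf (nat_lit 36932185) (dlOf (nat_lit 2) (nat_lit 0x20630000630a800a8ff00005c0c008400400020019075302))))) 
(.nd (nat_lit 4) (.nd (nat_lit 11) 
(.lf (nat_lit 8094537) (dlOf (nat_lit 1) (nat_lit 0x220018512401))) 
(.lf (nat_lit 20155209) (dlOf (nat_lit 1) (nat_lit 0x4002000200089d5c02)))) 
(.lf (nat_lit 20155737) (dlOf (nat_lit 1) (nat_lit 0x194004009600089d6a82)))))) (.nd (nat_lit 26) 
(.nd (nat_lit 4) (.nd (nat_lit 9) (.nd (nat_lit 10) 
(.lf (nat_lit 48726089) (dlOf (nat_lit 3) (nat_lit 0x42e5e0023b02012373c00117019420600))) 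
(.lf (nat_lit 496713) (dlOf (nat_lit 1) (nat_lit 0xc0028009301)))) 
(.lf (nat_lit 537363017) (dlOf (nat_lit 1) (nat_lit 0x20028091181)))) (.nd (nat_lit 9) 
(.nd (nat_lit 21) 
(.lf (nat_lit 14647385) (dlOf (nat_lit 2) (nat_lit 0x11f00000b008022800801c0002007c0008770803))) 
(.lf (nat_lit 20938841) (dlOf (nat_lit 3) (nat_lit 0x16c7c000188100034b780004c080058008002c002001a00089f0703)))) 
(.lf (nat_lit 38242905) (dlOf (nat_lit 1) (nat_lit 0x50008006000200080009135303))))) 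
(.nd (nat_lit 19) (.nd (nat_lit 4) (.nd (nat_lit 9) 
(.lf (nat_lit 2755100745) (dlOf (nat_lit 9) (nat_lit 0x401e0001d0101ec034002f818c07a008403d202301ed00f001a805c000721807000d0032804201c301180dc80780007010078c0d000cc06301df021000500a4078004603ca01e002200b8000d83802d008c016c03c000260400120200000c8100090100000600801601a400c4088004c0240025010000000200108008002000200180008110883))) 
(.lf (nat_lit 3288826441) (dlOf (nat_lit 1) (nat_lit 0x4004000200181b1182)))) 
(.lf (nat_lit 2755100761) (dlOf (nat_lit 2) (nat_lit 0x18074003a40400b800200440008110982)))) 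
(.nd (nat_lit 4) (.nd (nat_lit 8) 
(.lf (nat_lit 2752479817) (dlOf (nat_lit 12) (nat_lit 0x3d8574057c2b8000680400fe15d000338100680ae8001980803e0574057c2b8000420400d415d0002081004c0ae8000fc0804c056402302ae0002304010e1590001101009a0ac8044855c0003c0801882b2012c1570000e02006a0ac80006c0803180080178002001a0008018d03))) 
(.lf (nat_lit 2755625289) (dlOf (nat_lit 1) (nat_lit 0x4004001e00181b0602)))) 
(.lf (nat_lit 68124761) (dlOf (nat_lit 1) (nat_lit 0x20018400801))))))) (.nd (nat_lit 19) 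
(.nd (nat_lit 30) (.nd (nat_lit 29) (.nd (nat_lit 4) (.nd (nat_lit 9) 
(.lf (nat_lit 469991497) (dlOf (nat_lit 7) (nat_lit 0x4801c700d80de8000e410053871c000700408d838e01861bd0001b0201490e38000d40811d071c047437a0002604045a1c700d60de8000881000300080060002001c0008020883))) 
(.lf (nat_lit 2483257929) (dlOf (nat_lit 2) (nat_lit 0xf0078000000800200080014002001e0008091183)))) 
(.lf (nat_lit 4697849945) (dlOf (nat_lit 1) (nat_lit 0x1200080a1881)))) (.nd (nat_lit 4) 
(.nd (nat_lit 9) 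
(.lf (nat_lit 939753545) (dlOf (nat_lit 9) (nat_lit 0x160130009008c0094044002c0210000d840012011801280880003408006404c00240230023011000b0084004802200340000000c86000b0130004008c006c0440010001000b00000005c2800800880002c04005404c0024023002501100005018028809401b004000012040070025003401000003c100178008000800200060008160883))) 
(.lf (nat_lit 3087237705) (dlOf (nat_lit 2) (nat_lit 0x4a00b00005818158d00)))) 
(.lf (nat_lit 5100503385) (dlOf (nat_lit 1) (nat_lit 0x28002002600080d0e02))))) (.nd (nat_lit 9) 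
(.nd (nat_lit 18) (.nd (nat_lit 8) 
(.lf (nat_lit 1342406729) (dlOf (nat_lit 7) (nat_lit 0x4801c700d80de8000e410053871c000700408d838e01861bd0001b0201490e38000d40811d071c047437a0002604045a1c700d60de8000881000300080060002001c0008020883))) 
(.lf (nat_lit 3624111433) (dlOf (nat_lit 2) (nat_lit 0xc088000c03e0001000000044180060008001400200180008146983)))) 
(.nd (nat_lit 4) 
(.lf (nat_lit 3493298249) (dlOf (nat_lit 9) (nat_lit 0x401e0001d0101ec034002f818c07a008403d202301ed00f001a805c000721807000d0032804201c301180dc80780007010078c0d000cc06301df021000500a4078004603ca01e002200b8000d83802d008c016c03c000260400120200000c8100090100000600801601a400c4088004c0240025010000000200108008002000200180008110883))) 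
(.lf (nat_lit 4095180889) (dlOf (nat_lit 1) (nat_lit 0x60008070701))))) (.nd (nat_lit 26) 
(.lf (nat_lit 4027023945) (dlOf (nat_lit 1) (nat_lit 0x4004000200181b1182))) 
(.lf (nat_lit 1409778249) (dlOf (nat_lit 1) (nat_lit 0x20028091181)))))) (.nd (nat_lit 20) 
(.nd (nat_lit 21) (.nd (nat_lit 4) (.nd (nat_lit 10) 
(.lf (nat_lit 1343193161) (dlOf (nat_lit 1) (nat_lit 0x20018190681))) 
(.lf (nat_lit 3490417737) (dlOf (nat_lit 1) (nat_lit 0x40028006081)))) 
(.lf (nat_lit 1343193177) (dlOf (nat_lit 2) (nat_lit 0x82f80006204000400400020008190802)))) 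
(.nd (nat_lit 4) (.nd (nat_lit 26) 
(.lf (nat_lit 3492511817) (dlOf (nat_lit 1) (nat_lit 0x580080010002001a00080d0c83))) 
(.lf (nat_lit 472612937) (dlOf (nat_lit 2) (nat_lit 0x481d40037c040018002001200089c0602)))) 
(.lf (nat_lit 4096491609) (dlOf (nat_lit 1) (nat_lit 0x1000400040018120682))))) (.nd (nat_lit 4) 
(.nd (nat_lit 8) (.nd (nat_lit 9) 
(.lf (nat_lit 473923657) (dlOf (nat_lit 13) (nat_lit 0x4602c002360d9010804e008382340048c1002fc2c001680d9009404e004b0234004881000881380020d02016c160009d04e002b02340040e0c00241b2009a08d000fb02000406c8007d0080cc057c00b42bc034e0d7000806b0037026c01b0116001520c035815f01af06b8003dc100d4057c06ac1ae000f504000215f0007901003f06c8002d00805d058002d41b2013409c009b0468000002005e0008006800200e40008fc0603))) 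
(.lf (nat_lit 3491463753) (dlOf (nat_lit 2) (nat_lit 0x43d8000000200020008091181)))) 
(.lf (nat_lit 3493822793) (dlOf (nat_lit 1) (nat_lit 0x4004001e00181b0602)))) (.nd (nat_lit 9) 
(.nd (nat_lit 26) (.lf (nat_lit 5773164633) (dlOf (nat_lit 1) (nat_lit 0x600080b0701))) 
(.lf (nat_lit 6377144409) (dlOf (nat_lit 1) (nat_lit 0x600080b0701)))) 
(.lf (nat_lit 1346341465) (dlOf (nat_lit 2) (nat_lit 0x6c169001900e80007c10019800800f400200620008f05303)))))))) 
(.nd (nat_lit 8) (.nd (nat_lit 4) (.nd (nat_lit 10) (.nd (nat_lit 9) (.nd (nat_lit 18) 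
(.nd (nat_lit 21) (.lf (nat_lit 2617475273) (dlOf (nat_lit 1) (nat_lit 0x10c00180b3981))) 
(.lf (nat_lit 2326729) (dlOf (nat_lit 1) (nat_lit 0x120018150481)))) 
(.lf (nat_lit 2064585) (dlOf (nat_lit 1) (nat_lit 0xa0028150481)))) (.nd (nat_lit 12) 
(.lf (nat_lit 8094409) (dlOf (nat_lit 1) (nat_lit 0x280018511f81))) 
(.lf (nat_lit 19894985) (dlOf (nat_lit 1) (nat_lit 0x4002000200089d8c82))))) (.nd (nat_lit 12) 
(.nd (nat_lit 20) 
(.lf (nat_lit 474186953) (dlOf (nat_lit 3) (nat_lit 0x920b40002081001205a0000ec0800100080114002006400090e2d83))) 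
(.lf (nat_lit 43222217) (dlOf (nat_lit 1) (nat_lit 0x1200292a2d81)))) 
(.lf (nat_lit 2684589257) (dlOf (nat_lit 1) (nat_lit 0x124002000200080a9502))))) (.nd (nat_lit 18) 
(.nd (nat_lit 9) (.lf (nat_lit 9142489) (dlOf (nat_lit 1) (nat_lit 0xe0004002c0008523f02))) 
(.nd (nat_lit 11) (.lf (nat_lit 8094425) (dlOf (nat_lit 1) (nat_lit 0x400400020008512102))) 
(.lf (nat_lit 20159193) (dlOf (nat_lit 1) (nat_lit 0x580080004002000c00089db983))))) 
(.nd (nat_lit 26) (.nd (nat_lit 29) 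
(.lf (nat_lit 1342669017) (dlOf (nat_lit 1) (nat_lit 0x600180c0481))) 
(.lf (nat_lit 4027023577) (dlOf (nat_lit 2) (nat_lit 0x4000001c102000600081b0481)))) 
(.nd (nat_lit 27) 
(.lf (nat_lit 3288826073) (dlOf (nat_lit 2) (nat_lit 0x4000001c102000600081b0481))) 
(.lf (nat_lit 470253785) (dlOf (nat_lit 1) (nat_lit 0x600180c0481))))))) (.nd (nat_lit 9) 
(.nd (nat_lit 4) (.nd (nat_lit 18) (.nd (nat_lit 22) 
(.lf (nat_lit 5436049865) (dlOf (nat_lit 1) (nat_lit 0xe000800b400200860008094e83))) 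
(.lf (nat_lit 54757833) (dlOf (nat_lit 1) (nat_lit 0x800400020009654e82)))) (.nd (nat_lit 20) 
(.lf (nat_lit 1344768457) (dlOf (nat_lit 1) (nat_lit 0x20018984e81))) 
(.lf (nat_lit 60262857) (dlOf (nat_lit 1) (nat_lit 0x400080020002000a0009844e83))))) 
(.nd (nat_lit 10) (.nd (nat_lit 19) 
(.lf (nat_lit 3825435097) (dlOf (nat_lit 1) (nat_lit 0x20004002c0008157102))) 
(.lf (nat_lit 8094169) (dlOf (nat_lit 1) (nat_lit 0x400200020008511202)))) 
(.lf (nat_lit 4832069081) (dlOf (nat_lit 1) (nat_lit 0x80080004002000200080d3603))))) 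
(.nd (nat_lit 26) (.nd (nat_lit 29) (.nd (nat_lit 4) 
(.lf (nat_lit 8885193) (dlOf (nat_lit 1) (nat_lit 0x3c0028519201))) 
(.lf (nat_lit 36406233) (dlOf (nat_lit 1) (nat_lit 0x20019072881)))) (.nd (nat_lit 27) 
(.lf (nat_lit 4832068553) (dlOf (nat_lit 1) (nat_lit 0x80080008002000200080d2883))) 
(.lf (nat_lit 5234721737) (dlOf (nat_lit 1) (nat_lit 0x200080010002000400080d2883))))) 
(.nd (nat_lit 11) (.nd (nat_lit 10) 
(.lf (nat_lit 2751693769) (dlOf (nat_lit 2) (nat_lit 0x408800974818002880))) 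
(.lf (nat_lit 2751698889) (dlOf (nat_lit 1) (nat_lit 0x10001800a601)))) (.nd (nat_lit 4) 
(.nd (nat_lit 27) (.lf (nat_lit 4899179465) (dlOf (nat_lit 1) (nat_lit 0x4004000200080d5d82))) 
(.lf (nat_lit 738429897) (dlOf (nat_lit 1) (nat_lit 0x60028095d81)))) 
(.lf (nat_lit 4899179481) (dlOf (nat_lit 1) (nat_lit 0x4004000200080d5e02))))))))))) 
(.nd (nat_lit 17) (.nd (nat_lit 4) (.nd (nat_lit 6) (.nd (nat_lit 19) (.nd (nat_lit 30) 
(.nd (nat_lit 21) (.nd (nat_lit 18) (.nd (nat_lit 26) (.nd (nat_lit 27) (.nd (nat_lit 7) 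
(.lf (nat_lit 21069865) (dlOf (nat_lit 1) (nat_lit 0x8000400020008a00a02))) 
(.lf (nat_lit 536971177) (dlOf (nat_lit 1) (nat_lit 0x400200020008004302)))) (.nd (nat_lit 32) 
(.lf (nat_lit 2281799721) (dlOf (nat_lit 4) (nat_lit 0xa026000101200008c10001008c00044040008046000200200240028020a01))) 
(.lf (nat_lit 6576767017) (dlOf (nat_lit 2) (nat_lit 0x20068023a80800a0008000c002000800080d0a03))))) 
(.nd (nat_lit 8) (.nd (nat_lit 20) 
(.lf (nat_lit 6509658153) (dlOf (nat_lit 2) (nat_lit 0x1800000e2a0400b4002009000080b0002))) 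
(.lf (nat_lit 2752610345) (dlOf (nat_lit 2) (nat_lit 0xc615d00d80ae000000100108008005c002008c0008020503)))) 
(.lf (nat_lit 335642921) (dlOf (nat_lit 1) (nat_lit 0x8008000c002000a0008090b03))))) 
(.nd (nat_lit 20) (.nd (nat_lit 26) (.nd (nat_lit 27) 
(.lf (nat_lit 4563763241) (dlOf (nat_lit 2) (nat_lit 0x402d000068180d0280))) 
(.lf (nat_lit 4697980969) (dlOf (nat_lit 2) (nat_lit 0x402d000068180d0280)))) 
(.lf (nat_lit 2617606185) (dlOf (nat_lit 12) (nat_lit 0xd50000000ac0402dc05a0004a0202480290002281008e0168001080805080b404e003002b400300dc0000000c82003480b401a403000d20000001883000c0000000c0080a7006007240000002d0403540000001601009e00000005c08015806000026040078002000e0008100682)))) 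
(.nd (nat_lit 7) (.lf (nat_lit 55935017) (dlOf (nat_lit 1) (nat_lit 0x4004000200096f0202))) 
(.lf (nat_lit 47547561) (dlOf (nat_lit 1) (nat_lit 0x800400020009402c02)))))) (.nd (nat_lit 11) 
(.nd (nat_lit 20) (.nd (nat_lit 18) (.nd (nat_lit 22) 
(.lf (nat_lit 18972713) (dlOf (nat_lit 1) (nat_lit 0x800400020008970002))) 
(.lf (nat_lit 23167017) (dlOf (nat_lit 2) (nat_lit 0x97900004bad0000a028b60880)))) 
(.lf (nat_lit 48594985) (dlOf (nat_lit 1) (nat_lit 0x20029420201)))) (.nd (nat_lit 8) 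
(.lf (nat_lit 28409897) (dlOf (nat_lit 2) (nat_lit 0x46c2000170080180008007400200040008d90803))) 
(.lf (nat_lit 7438633) (dlOf (nat_lit 1) (nat_lit 0x1200084b0701))))) (.nd (nat_lit 7) 
(.nd (nat_lit 18) 
(.lf (nat_lit 69306921) (dlOf (nat_lit 2) (nat_lit 0x108c000228080050008002400200100008905183))) 
(.lf (nat_lit 45451817) (dlOf (nat_lit 7) (nat_lit 0x2cb3a80017e04006d96c0008c020076cea000b65b00022c10001ba90000dc6000c6cea003965b0002282003133a8004996c00089040088cea001665b0002201000f8008004800200260009325183)))) 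
(.nd (nat_lit 8) 
(.lf (nat_lit 20024489) (dlOf (nat_lit 1) (nat_lit 0x270008039c002011800089d6283))) 
(.lf (nat_lit 20023721) (dlOf (nat_lit 1) (nat_lit 0x18002007000089d4e82))))))) (.nd (nat_lit 29) 
(.nd (nat_lit 18) (.nd (nat_lit 28) (.nd (nat_lit 26) 
(.lf (nat_lit 3221323817) (dlOf (nat_lit 1) (nat_lit 0x400200020008090002))) 
(.lf (nat_lit 1140949033) (dlOf (nat_lit 2) (nat_lit 0x2803400042040010002000e0008020382)))) 
(.nd (nat_lit 7) 
(.lf (nat_lit 3490807849) (dlOf (nat_lit 2) (nat_lit 0xc615800d80ab800000100108008005c002008c0008020503))) 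
(.lf (nat_lit 5637245865) (dlOf (nat_lit 4) (nat_lit 0x180080001102000600400001010001002000000080098008000c00200160008055d03))))) 
(.nd (nat_lit 22) (.nd (nat_lit 27) 
(.lf (nat_lit 3221585961) (dlOf (nat_lit 8) (nat_lit 0x59e04501a7021001e00fc02300660003e0800480460001e8100090230000f0080118118000760404b808c0003a0200b40460001c81001902380150118000000818fc00401b80018150882))) 
(.lf (nat_lit 3355803689) (dlOf (nat_lit 8) (nat_lit 0x610000001580800400c00009404021c05800f602900022820011018001d0060007c00600640000001904006a0000000b40801f800000058040024000000170200020018120681)))) 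
(.lf (nat_lit 1346732073) (dlOf (nat_lit 1) (nat_lit 0xf60008000400202e20009000203))))) 
(.nd (nat_lit 26) (.nd (nat_lit 7) (.nd (nat_lit 8) 
(.lf (nat_lit 2013364265) (dlOf (nat_lit 2) (nat_lit 0x2803400042040010002000e0008020382))) 
(.lf (nat_lit 6308332841) (dlOf (nat_lit 1) (nat_lit 0x60018053181)))) 
(.lf (nat_lit 1610711465) (dlOf (nat_lit 1) (nat_lit 0x20018091001)))) (.nd (nat_lit 7) 
(.nd (nat_lit 18) 
(.lf (nat_lit 5972787241) (dlOf (nat_lit 2) (nat_lit 0x20068036380800a0008000c002000800080d0a03))) 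
(.lf (nat_lit 3959783465) (dlOf (nat_lit 6) (nat_lit 0x56808e0002e020270047002b02280348110053805e0002c08016e04f00a10238034811002380140000c080248032000018100dc02380d5011801a4088001804101c9017804f00b806a8028000000e001e0008150801)))) 
(.lf (nat_lit 3825306793) (dlOf (nat_lit 1) (nat_lit 0x20008146281))))))) (.nd (nat_lit 18) 
(.nd (nat_lit 31) (.nd (nat_lit 21) (.nd (nat_lit 23) (.nd (nat_lit 26) 
(.lf (nat_lit 1342799913) (dlOf (nat_lit 1) (nat_lit 0x4002000200080d0982))) 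
(.lf (nat_lit 470384681) (dlOf (nat_lit 1) (nat_lit 0x4002000200080d0982)))) 
(.lf (nat_lit 42565673) (dlOf (nat_lit 1) (nat_lit 0x13800400020009260202)))) (.nd (nat_lit 22) 
(.nd (nat_lit 9) (.lf (nat_lit 11108393) (dlOf (nat_lit 1) (nat_lit 0xc00200060008660682))) 
(.lf (nat_lit 5774082601) (dlOf (nat_lit 1) (nat_lit 0x8c0008081c002022a00080f8903)))) 
(.nd (nat_lit 20) 
(.lf (nat_lit 23691305) (dlOf (nat_lit 3) (nat_lit 0x41997e00d4802020ccbf006a3018b80000))) 
(.lf (nat_lit 24739881) (dlOf (nat_lit 7) (nat_lit 0x5ad2800056830000c820007b4a000060080015a5000016040016d280000a02000f69400004810007b4a000020080020008004800200020008bb0a83)))))) 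
(.nd (nat_lit 20) (.nd (nat_lit 21) (.nd (nat_lit 27) 
(.lf (nat_lit 3221848105) (dlOf (nat_lit 2) (nat_lit 0x800700008000000320800b4002000400081a0c02))) 
(.lf (nat_lit 3892936745) (dlOf (nat_lit 4) (nat_lit 0x2102b801080dc008406c0046020002200f8016006400a4030000310e000603600030100003006400140300002f080008057000a0100005007c0054032002401800030048000443000880080040002005600082a0b03)))) 
(.nd (nat_lit 26) 
(.lf (nat_lit 3492380713) (dlOf (nat_lit 11) (nat_lit 0x4c079810642a8015e1520000c83009c0f3020d8550000300802483cc081c1540000b8200860f301f8055002242a4000160601241e600ad0aa0000541004907980ff82a8000140400261e600ab0aa00004c100478798000160400083cc0000502016c1e604370aa0000001002b800802cc002008e00080c0c03))) 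
(.lf (nat_lit 2754183209) (dlOf (nat_lit 3) (nat_lit 0x4b02b20001602009a1f80000a0180c0d00))))) 
(.nd (nat_lit 7) (.nd (nat_lit 26) 
(.lf (nat_lit 3491332649) (dlOf (nat_lit 2) (nat_lit 0x1ba23400037818090e00))) 
(.lf (nat_lit 2753135145) (dlOf (nat_lit 2) (nat_lit 0x1ba24c00037818090e00)))) 
(.lf (nat_lit 2753135017) (dlOf (nat_lit 2) (nat_lit 0xc1f900751018090780)))))) (.nd (nat_lit 8) 
(.nd (nat_lit 20) (.nd (nat_lit 23) (.nd (nat_lit 7) 
(.lf (nat_lit 5079081) (dlOf (nat_lit 1) (nat_lit 0x20028300681))) 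
(.lf (nat_lit 1343062185) (dlOf (nat_lit 1) (nat_lit 0x800400020008150282)))) (.nd (nat_lit 21) 
(.lf (nat_lit 42827817) (dlOf (nat_lit 1) (nat_lit 0x20029280201))) 
(.lf (nat_lit 11370537) (dlOf (nat_lit 1) (nat_lit 0x8e000804c0002017e0008690603))))) 
(.nd (nat_lit 9) 
(.lf (nat_lit 22904873) (dlOf (nat_lit 3) (nat_lit 0xe77020069b6c004f00000015818001b3400008a04001800200020008b40682))) 
(.nd (nat_lit 21) (.lf (nat_lit 35490345) (dlOf (nat_lit 1) (nat_lit 0x400400020009015182))) 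
(.lf (nat_lit 33393193) (dlOf (nat_lit 1) (nat_lit 0x6c0008026c00201300008f55183)))))) 
(.nd (nat_lit 21) (.nd (nat_lit 7) (.nd (nat_lit 10) 
(.lf (nat_lit 6376227113) (dlOf (nat_lit 1) (nat_lit 0x480018090b01))) 
(.lf (nat_lit 5772248361) (dlOf (nat_lit 1) (nat_lit 0x400400020008093182)))) 
(.lf (nat_lit 3491594665) (dlOf (nat_lit 1) (nat_lit 0x400400020008090782)))) (.nd (nat_lit 7) 
(.nd (nat_lit 11) (.lf (nat_lit 45973801) (dlOf (nat_lit 1) (nat_lit 0x800400020019380b02))) 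
(.lf (nat_lit 8227113) (dlOf (nat_lit 1) (nat_lit 0x10008000400200020008514b83)))) 
(.lf (nat_lit 8225193) (dlOf (nat_lit 1) (nat_lit 0x1e8008000400200420008511003)))))))) 
(.nd (nat_lit 26) (.nd (nat_lit 8) (.nd (nat_lit 7) (.nd (nat_lit 9) (.nd (nat_lit 18) 
(.lf (nat_lit 12681321) (dlOf (nat_lit 2) (nat_lit 0x11cd0c00903db000080286d1400))) 
(.lf (nat_lit 6442811497) (dlOf (nat_lit 1) (nat_lit 0x400081c1401)))) (.nd (nat_lit 18) 
(.lf (nat_lit 61441641) (dlOf (nat_lit 1) (nat_lit 0x20029923901))) 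
(.lf (nat_lit 52790889) (dlOf (nat_lit 1) (nat_lit 0x20029573901))))) (.nd (nat_lit 10) 
(.nd (nat_lit 9) (.nd (nat_lit 19) 
(.lf (nat_lit 2953150697) (dlOf (nat_lit 1) (nat_lit 0x800200020008160602))) 
(.lf (nat_lit 17662185) (dlOf (nat_lit 1) (nat_lit 0xb8002003200088e0602)))) 
(.lf (nat_lit 57248489) (dlOf (nat_lit 1) (nat_lit 0x28008000400200080009795983)))) 
(.nd (nat_lit 12) (.lf (nat_lit 8750313) (dlOf (nat_lit 1) (nat_lit 0x60028512e81))) 
(.lf (nat_lit 3355546857) (dlOf (nat_lit 1) (nat_lit 0x60008006c002001a00080a9503)))))) 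
(.nd (nat_lit 7) (.nd (nat_lit 10) (.nd (nat_lit 20) (.nd (nat_lit 21) 
(.lf (nat_lit 4160848233) (dlOf (nat_lit 1) (nat_lit 0x2400400020008017402))) 
(.lf (nat_lit 1881244009) (dlOf (nat_lit 1) (nat_lit 0x20018e80f01)))) 
(.lf (nat_lit 43090281) (dlOf (nat_lit 2) (nat_lit 0x998800062040034004000400192a0f02)))) 
(.nd (nat_lit 12) (.nd (nat_lit 27) 
(.lf (nat_lit 99689) (dlOf (nat_lit 2) (nat_lit 0x554ae002aa4d00018028003480))) 
(.lf (nat_lit 2818671977) (dlOf (nat_lit 2) (nat_lit 0x1001000280000003e04002e00180d3481)))) 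
(.lf (nat_lit 8754537) (dlOf (nat_lit 1) (nat_lit 0x20028519901))))) (.nd (nat_lit 9) 
(.lf (nat_lit 100841) (dlOf (nat_lit 1) (nat_lit 0x20028004e81))) (.nd (nat_lit 12) 
(.lf (nat_lit 56198121) (dlOf (nat_lit 1) (nat_lit 0x880019732881))) 
(.lf (nat_lit 1342280681) (dlOf (nat_lit 1) (nat_lit 0x3400400020008009202))))))) (.nd (nat_lit 31) 
(.nd (nat_lit 11) (.nd (nat_lit 7) (.nd (nat_lit 18) (.nd (nat_lit 19) 
(.lf (nat_lit 335642729) (dlOf (nat_lit 1) (nat_lit 0x1c00200040008090102))) 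
(.lf (nat_lit 470384745) (dlOf (nat_lit 1) (nat_lit 0x200180d1401)))) 
(.lf (nat_lit 470646889) (dlOf (nat_lit 1) (nat_lit 0x400200020008150282)))) (.nd (nat_lit 8) 
(.nd (nat_lit 10) (.lf (nat_lit 5435916521) (dlOf (nat_lit 1) (nat_lit 0x20028031e01))) 
(.lf (nat_lit 6375441641) (dlOf (nat_lit 1) (nat_lit 0x5e0018002e81)))) 
(.lf (nat_lit 6375441385) (dlOf (nat_lit 1) (nat_lit 0x640018002881))))) (.nd (nat_lit 8) 
(.nd (nat_lit 7) 
(.lf (nat_lit 469867625) (dlOf (nat_lit 4) (nat_lit 0xd0b080068274003411c00022060020161001004e80070238000400c003c2c2001e09d000e0470000601800f8008008c0020008000800c083))) 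
(.lf (nat_lit 201427177) (dlOf (nat_lit 1) (nat_lit 0x1000800e800200040008004b03)))) 
(.nd (nat_lit 9) (.nd (nat_lit 18) 
(.lf (nat_lit 5838572009) (dlOf (nat_lit 1) (nat_lit 0x80080004002000200080f4e83))) 
(.lf (nat_lit 6376229353) (dlOf (nat_lit 1) (nat_lit 0x400400020008094e82)))) 
(.lf (nat_lit 469867497) (dlOf (nat_lit 1) (nat_lit 0x2002800bf01)))))) (.nd (nat_lit 10) 
(.nd (nat_lit 7) (.nd (nat_lit 8) 
(.lf (nat_lit 2753921129) (dlOf (nat_lit 2) (nat_lit 0x9807b000098180a1400))) (.nd (nat_lit 18) 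
(.lf (nat_lit 3691086185) (dlOf (nat_lit 1) (nat_lit 0x40028010981))) 
(.lf (nat_lit 3557130601) (dlOf (nat_lit 1) (nat_lit 0x40018130981))))) (.nd (nat_lit 11) 
(.nd (nat_lit 18) (.lf (nat_lit 6509658345) (dlOf (nat_lit 1) (nat_lit 0x200180b0481))) 
(.lf (nat_lit 3691348201) (dlOf (nat_lit 1) (nat_lit 0x800200020008160602)))) 
(.lf (nat_lit 2751826153) (dlOf (nat_lit 1) (nat_lit 0x400400060008004b02))))) (.nd (nat_lit 11) 
(.nd (nat_lit 19) (.lf (nat_lit 4096099561) (dlOf (nat_lit 1) (nat_lit 0x400280e2e81))) 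
(.lf (nat_lit 4095575273) (dlOf (nat_lit 1) (nat_lit 0x4004000200080e2e82)))) (.nd (nat_lit 18) 
(.lf (nat_lit 2754710761) (dlOf (nat_lit 2) (nat_lit 0xc401c000168180f6500))) (.nd (nat_lit 20) 
(.lf (nat_lit 2349173993) (dlOf (nat_lit 1) (nat_lit 0x600180f6501))) 
(.lf (nat_lit 2754972905) (dlOf (nat_lit 5) (nat_lit 0x54452001a2150001b02001f11480008874004c42a00034060128229005810e8006885c025042a0002e08013222900b310e8049885c025442a0002d08000c00180f6501)))))))))) 
(.nd (nat_lit 28) (.nd (nat_lit 21) (.nd (nat_lit 26) (.nd (nat_lit 6) (.nd (nat_lit 30) 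
(.nd (nat_lit 22) (.nd (nat_lit 8) 
(.lf (nat_lit 6442551353) (dlOf (nat_lit 1) (nat_lit 0x40004000c00080f4702))) 
(.lf (nat_lit 100153) (dlOf (nat_lit 1) (nat_lit 0x20018003e01)))) (.nd (nat_lit 18) 
(.lf (nat_lit 12681273) (dlOf (nat_lit 1) (nat_lit 0x200286d0b01))) 
(.lf (nat_lit 29720633) (dlOf (nat_lit 1) (nat_lit 0x8008000400200020008e30003))))) 
(.nd (nat_lit 19) (.nd (nat_lit 8) (.nd (nat_lit 10) 
(.lf (nat_lit 1745190969) (dlOf (nat_lit 2) (nat_lit 0x101c800080d0000c0360001406000200280d0c81))) 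
(.lf (nat_lit 1610712121) (dlOf (nat_lit 1) (nat_lit 0x100028092881)))) 
(.lf (nat_lit 1073846585) (dlOf (nat_lit 1) (nat_lit 0x1c0020006000800ab82)))) (.nd (nat_lit 27) 
(.lf (nat_lit 3221848121) (dlOf (nat_lit 1) (nat_lit 0x20002000600081a1302))) 
(.lf (nat_lit 3892936761) (dlOf (nat_lit 2) (nat_lit 0xc40580000002000a00082a0c81)))))) 
(.nd (nat_lit 11) (.nd (nat_lit 7) 
(.lf (nat_lit 3221323897) (dlOf (nat_lit 1) (nat_lit 0x400400040008090082))) (.nd (nat_lit 9) 
(.lf (nat_lit 8750585) (dlOf (nat_lit 1) (nat_lit 0x20028513681))) 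
(.lf (nat_lit 38110201) (dlOf (nat_lit 1) (nat_lit 0x400200020009132882))))) (.nd (nat_lit 8) 
(.lf (nat_lit 8494201) (dlOf (nat_lit 2) (nat_lit 0x89ac00024020002001851c101))) (.nd (nat_lit 23) 
(.lf (nat_lit 134318457) (dlOf (nat_lit 1) (nat_lit 0x20018004e81))) 
(.lf (nat_lit 58820985) (dlOf (nat_lit 1) (nat_lit 0x12e00197e4e81))))))) (.nd (nat_lit 6) 
(.nd (nat_lit 18) (.nd (nat_lit 20) (.nd (nat_lit 8) 
(.lf (nat_lit 2348908601) (dlOf (nat_lit 2) (nat_lit 0x401400012008008800800b4002007c0008020683))) 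
(.lf (nat_lit 3288432953) (dlOf (nat_lit 1) (nat_lit 0x400400020008014c02)))) (.nd (nat_lit 9) 
(.lf (nat_lit 2752610361) (dlOf (nat_lit 2) (nat_lit 0x1521238000000803c800801e400200780008020683))) 
(.lf (nat_lit 2753135161) (dlOf (nat_lit 1) (nat_lit 0x800400480008091002))))) (.nd (nat_lit 27) 
(.nd (nat_lit 29) 
(.lf (nat_lit 3288694841) (dlOf (nat_lit 2) (nat_lit 0x39803c000640400fc004005c00180c1302))) 
(.lf (nat_lit 604340281) (dlOf (nat_lit 1) (nat_lit 0x20008180901)))) 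
(.lf (nat_lit 5570396217) (dlOf (nat_lit 1) (nat_lit 0x80018130c81))))) (.nd (nat_lit 30) 
(.nd (nat_lit 7) (.nd (nat_lit 8) 
(.lf (nat_lit 2755756153) (dlOf (nat_lit 1) (nat_lit 0x20004000a00181b0082))) 
(.lf (nat_lit 2753134969) (dlOf (nat_lit 1) (nat_lit 0x20018090781)))) 
(.lf (nat_lit 738822905) (dlOf (nat_lit 1) (nat_lit 0x120008125a01)))) (.nd (nat_lit 8) 
(.nd (nat_lit 27) (.lf (nat_lit 5435916409) (dlOf (nat_lit 1) (nat_lit 0x1200008030b81))) 
(.lf (nat_lit 3959521401) (dlOf (nat_lit 1) (nat_lit 0x400400040008090082)))) 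
(.lf (nat_lit 5435916665) (dlOf (nat_lit 1) (nat_lit 0x1900008035881))))))) (.nd (nat_lit 7) 
(.nd (nat_lit 11) (.nd (nat_lit 22) (.nd (nat_lit 6) 
(.lf (nat_lit 62226489) (dlOf (nat_lit 1) (nat_lit 0x400400020009980b82))) 
(.lf (nat_lit 54362233) (dlOf (nat_lit 1) (nat_lit 0xe0019650201)))) (.nd (nat_lit 18) 
(.lf (nat_lit 24215609) (dlOf (nat_lit 1) (nat_lit 0x400200020008b90b82))) 
(.lf (nat_lit 6651961) (dlOf (nat_lit 1) (nat_lit 0x520018440c81))))) (.nd (nat_lit 8) 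
(.nd (nat_lit 18) (.lf (nat_lit 69306937) (dlOf (nat_lit 1) (nat_lit 0x8000400020018905202))) 
(.lf (nat_lit 45451833) (dlOf (nat_lit 2) (nat_lit 0x476e8006ba8c0035c6200a6cea002565b00017c2800c0008005000200120009325203)))) 
(.nd (nat_lit 6) (.lf (nat_lit 20024121) (dlOf (nat_lit 1) (nat_lit 0x4002000200089d5c02))) 
(.lf (nat_lit 69568889) (dlOf (nat_lit 1) (nat_lit 0x20018b44e81)))))) (.nd (nat_lit 22) 
(.nd (nat_lit 18) (.nd (nat_lit 6) (.nd (nat_lit 12) 
(.lf (nat_lit 18972857) (dlOf (nat_lit 1) (nat_lit 0x8008000400200020008970483))) 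
(.lf (nat_lit 20025529) (dlOf (nat_lit 1) (nat_lit 0x1e00089d7e81)))) 
(.lf (nat_lit 20021497) (dlOf (nat_lit 1) (nat_lit 0x80080008002000200089d0a83)))) (.nd (nat_lit 8) 
(.lf (nat_lit 45976249) (dlOf (nat_lit 1) (nat_lit 0x20019385701))) 
(.lf (nat_lit 12419513) (dlOf (nat_lit 1) (nat_lit 0x4004000200086c0802))))) (.nd (nat_lit 6) 
(.nd (nat_lit 8) (.nd (nat_lit 9) 
(.lf (nat_lit 7966905) (dlOf (nat_lit 1) (nat_lit 0xc0028517e81))) 
(.lf (nat_lit 7969465) (dlOf (nat_lit 1) (nat_lit 0x16c001851b881)))) 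
(.lf (nat_lit 49908153) (dlOf (nat_lit 1) (nat_lit 0x4004000200094c4e82)))) (.nd (nat_lit 8) 
(.lf (nat_lit 39947001) (dlOf (nat_lit 1) (nat_lit 0x200091f5a01))) 
(.lf (nat_lit 7968249) (dlOf (nat_lit 1) (nat_lit 0x880018519c01)))))))) (.nd (nat_lit 7) 
(.nd (nat_lit 30) (.nd (nat_lit 6) (.nd (nat_lit 18) (.nd (nat_lit 19) 
(.lf (nat_lit 2483126329) (dlOf (nat_lit 2) (nat_lit 0x401400012408008800800b4002007c0008020683))) 
(.lf (nat_lit 471433273) (dlOf (nat_lit 11) (nat_lit 0x82d60005602000c15a00060a3800120100028568001828e0004704000c15a00060a3800110100030568001428e0004304000c15a00060a3800108100030568001828e0004004000c15a00060a38000f8100030568001828e0003804000a15b00040698000b41000080080024002000200082f1103)))) 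
(.nd (nat_lit 26) (.nd (nat_lit 27) 
(.lf (nat_lit 4563763257) (dlOf (nat_lit 3) (nat_lit 0x4202900044810080014800208080080008000c002001000080d0483))) 
(.lf (nat_lit 4697980985) (dlOf (nat_lit 3) (nat_lit 0x4202900044810080014800208080080008000c002001000080d0483)))) 
(.lf (nat_lit 335904825) (dlOf (nat_lit 1) (nat_lit 0x8004000600080d0c82))))) (.nd (nat_lit 8) 
(.nd (nat_lit 18) 
(.lf (nat_lit 335642745) (dlOf (nat_lit 1) (nat_lit 0x8008002000200040008090203))) 
(.lf (nat_lit 2953150585) (dlOf (nat_lit 3) (nat_lit 0xc009c00480260006009000f00280051420002809c00480260010005000f000000508200018008009c002000e0008160483)))) 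
(.nd (nat_lit 10) 
(.lf (nat_lit 1009353081) (dlOf (nat_lit 2) (nat_lit 0x4000000000200040019115881))) 
(.lf (nat_lit 4697720185) (dlOf (nat_lit 1) (nat_lit 0x34002000e0008093502)))))) (.nd (nat_lit 18) 
(.nd (nat_lit 8) (.nd (nat_lit 9) (.nd (nat_lit 19) 
(.lf (nat_lit 3490807865) (dlOf (nat_lit 2) (nat_lit 0x1521178000000803c800801e400200780008020683))) 
(.lf (nat_lit 3492380729) (dlOf (nat_lit 1) (nat_lit 0x400080020002002400080c1303)))) 
(.lf (nat_lit 3491332665) (dlOf (nat_lit 1) (nat_lit 0x800400480008091002)))) (.nd (nat_lit 6) 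
(.lf (nat_lit 4026630457) (dlOf (nat_lit 1) (nat_lit 0x400400020008014c02))) 
(.lf (nat_lit 5838576505) (dlOf (nat_lit 1) (nat_lit 0x80080010002000200080fbc83))))) 
(.nd (nat_lit 27) (.nd (nat_lit 26) 
(.lf (nat_lit 5637505081) (dlOf (nat_lit 1) (nat_lit 0x400400020008100482))) 
(.lf (nat_lit 6241484857) (dlOf (nat_lit 1) (nat_lit 0x400400020008100482)))) (.nd (nat_lit 29) 
(.lf (nat_lit 1476755513) (dlOf (nat_lit 1) (nat_lit 0x20008180901))) 
(.lf (nat_lit 6308593721) (dlOf (nat_lit 1) (nat_lit 0xe0008130c81))))))) (.nd (nat_lit 6) 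
(.nd (nat_lit 11) (.nd (nat_lit 10) (.nd (nat_lit 26) 
(.lf (nat_lit 402751673) (dlOf (nat_lit 1) (nat_lit 0x400400020018090702))) 
(.lf (nat_lit 5301698745) (dlOf (nat_lit 1) (nat_lit 0x20028031981)))) (.nd (nat_lit 8) 
(.lf (nat_lit 1008567481) (dlOf (nat_lit 1) (nat_lit 0x1400200060008dd2c82))) 
(.lf (nat_lit 469862329) (dlOf (nat_lit 1) (nat_lit 0x20028004381))))) (.nd (nat_lit 8) 
(.nd (nat_lit 19) 
(.lf (nat_lit 3493169337) (dlOf (nat_lit 6) (nat_lit 0xe406000009c08064830000030040398180000070200300c00000101000506000000008005000800dc002007000080f4903))) 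
(.lf (nat_lit 1879935161) (dlOf (nat_lit 1) (nat_lit 0x400083d4901)))) (.nd (nat_lit 9) 
(.lf (nat_lit 1342282169) (dlOf (nat_lit 1) (nat_lit 0xe0008005c0020008000800af83))) 
(.lf (nat_lit 4563504057) (dlOf (nat_lit 2) (nat_lit 0x300a400072040040004001e0008095d02)))))) 
(.nd (nat_lit 9) (.nd (nat_lit 8) (.nd (nat_lit 10) 
(.lf (nat_lit 4563501305) (dlOf (nat_lit 1) (nat_lit 0xd0008001000200340008090a83))) 
(.lf (nat_lit 5838572793) (dlOf (nat_lit 1) (nat_lit 0xc00280f6601)))) (.nd (nat_lit 18) 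
(.lf (nat_lit 4697720313) (dlOf (nat_lit 1) (nat_lit 0x20028093681))) (.nd (nat_lit 19) 
(.lf (nat_lit 4096099833) (dlOf (nat_lit 1) (nat_lit 0x200280e3681))) 
(.lf (nat_lit 4095575545) (dlOf (nat_lit 1) (nat_lit 0x4004000200080e3682)))))) (.nd (nat_lit 18) 
(.nd (nat_lit 19) (.lf (nat_lit 473007097) (dlOf (nat_lit 1) (nat_lit 0x800400020008bb2882))) 
(.lf (nat_lit 1346995193) (dlOf (nat_lit 1) (nat_lit 0x74004004c0019162882)))) (.nd (nat_lit 8) 
(.lf (nat_lit 1345686265) (dlOf (nat_lit 2) (nat_lit 0x84540000004011800400380008dd5a02))) 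
(.lf (nat_lit 3493168121) (dlOf (nat_lit 1) (nat_lit 0xc880080004002016000080f2883)))))))))) 
(.nd (nat_lit 4) (.nd (nat_lit 28) (.nd (nat_lit 18) (.nd (nat_lit 8) (.nd (nat_lit 24) 
(.nd (nat_lit 6) (.nd (nat_lit 27) (.nd (nat_lit 20) 
(.lf (nat_lit 4362305577) (dlOf (nat_lit 1) (nat_lit 0x6c00200100008020602))) 
(.lf (nat_lit 2752741417) (dlOf (nat_lit 1) (nat_lit 0x68008007400200540008030b03)))) 
(.nd (nat_lit 9) 
(.lf (nat_lit 2819325993) (dlOf (nat_lit 2) (nat_lit 0x10086000bd0200040028240781))) 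
(.lf (nat_lit 738429481) (dlOf (nat_lit 1) (nat_lit 0x400400020018095182))))) (.nd (nat_lit 9) 
(.lf (nat_lit 4429414505) (dlOf (nat_lit 2) (nat_lit 0x7d0138040809401fc04800da018007e0050038800000020180040004006800180a1402))) 
(.nd (nat_lit 11) (.lf (nat_lit 8094313) (dlOf (nat_lit 1) (nat_lit 0x400400020008511802))) 
(.lf (nat_lit 5436050025) (dlOf (nat_lit 1) (nat_lit 0x2800400100008095382)))))) (.nd (nat_lit 20) 
(.nd (nat_lit 6) (.nd (nat_lit 21) 
(.lf (nat_lit 63143977) (dlOf (nat_lit 1) (nat_lit 0x4004000200099e0202))) 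
(.lf (nat_lit 52658217) (dlOf (nat_lit 1) (nat_lit 0x60004005e0009560882)))) 
(.lf (nat_lit 56852585) (dlOf (nat_lit 2) (nat_lit 0x219f00006404000800400040019770a02)))) 
(.nd (nat_lit 7) (.nd (nat_lit 22) 
(.lf (nat_lit 18579497) (dlOf (nat_lit 1) (nat_lit 0x10e0018950781))) 
(.lf (nat_lit 22773801) (dlOf (nat_lit 1) (nat_lit 0x20028b20681)))) 
(.lf (nat_lit 20158121) (dlOf (nat_lit 1) (nat_lit 0x100080004002000200089da003)))))) 
(.nd (nat_lit 6) (.nd (nat_lit 7) (.nd (nat_lit 9) 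
(.lf (nat_lit 671318313) (dlOf (nat_lit 1) (nat_lit 0x10008000c00200040008154603))) 
(.nd (nat_lit 11) (.lf (nat_lit 8094505) (dlOf (nat_lit 1) (nat_lit 0xe0018512201))) 
(.lf (nat_lit 54758185) (dlOf (nat_lit 1) (nat_lit 0x5400200080009655c02))))) (.nd (nat_lit 10) 
(.lf (nat_lit 48990633) (dlOf (nat_lit 1) (nat_lit 0x20019464e81))) 
(.lf (nat_lit 4832069033) (dlOf (nat_lit 1) (nat_lit 0x4a00180d3601))))) (.nd (nat_lit 9) 
(.nd (nat_lit 11) (.nd (nat_lit 31) 
(.lf (nat_lit 1677951465) (dlOf (nat_lit 1) (nat_lit 0xa4004000e0008127d02))) 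
(.lf (nat_lit 3825435113) (dlOf (nat_lit 4) (nat_lit 0x5b00160214009010b0000000b8180b7002c042801202140000001683007000580009c080298008000400201920008157303)))) 
(.lf (nat_lit 4899178985) (dlOf (nat_lit 1) (nat_lit 0x4004000200080d4e82)))) (.nd (nat_lit 7) 
(.lf (nat_lit 4899179369) (dlOf (nat_lit 1) (nat_lit 0x18008002c002000e00080d5c03))) 
(.lf (nat_lit 738429929) (dlOf (nat_lit 1) (nat_lit 0x400200020008095e82))))))) (.nd (nat_lit 21) 
(.nd (nat_lit 8) (.nd (nat_lit 19) (.nd (nat_lit 20) (.nd (nat_lit 25) 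
(.lf (nat_lit 3221717033) (dlOf (nat_lit 3) (nat_lit 0x10b0230030810c002008400d4806021804600130218000810801a8c0c006c00400200018170002))) 
(.lf (nat_lit 34045993) (dlOf (nat_lit 1) (nat_lit 0x400400020008fa0882)))) (.nd (nat_lit 23) 
(.lf (nat_lit 2753003561) (dlOf (nat_lit 2) (nat_lit 0x101ce000280200020018070801))) 
(.lf (nat_lit 9928745) (dlOf (nat_lit 1) (nat_lit 0x400200020008590a02))))) (.nd (nat_lit 7) 
(.nd (nat_lit 20) 
(.lf (nat_lit 5210153) (dlOf (nat_lit 1) (nat_lit 0x1a00080004002003a0008320683))) 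
(.lf (nat_lit 23035945) (dlOf (nat_lit 3) (nat_lit 0x31300000496600023d200010000001582000b13000002604000400200060008b40682)))) 
(.lf (nat_lit 47153321) (dlOf (nat_lit 1) (nat_lit 0x8004000200093b1482))))) (.nd (nat_lit 6) 
(.nd (nat_lit 7) (.nd (nat_lit 9) 
(.lf (nat_lit 18841897) (dlOf (nat_lit 1) (nat_lit 0x400200020008970702))) 
(.lf (nat_lit 46631721) (dlOf (nat_lit 1) (nat_lit 0x400200020009385c02)))) 
(.lf (nat_lit 3221717417) (dlOf (nat_lit 1) (nat_lit 0x400400020008170782)))) (.nd (nat_lit 7) 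
(.lf (nat_lit 604472681) (dlOf (nat_lit 4) (nat_lit 0x28074001c02a000d0100003003000140000003f0a00080000001d81000b01b800380a8001c040000a00c00020000000002800800080028002000a00082d3483))) 
(.nd (nat_lit 26) (.lf (nat_lit 134709737) (dlOf (nat_lit 1) (nat_lit 0x1e0028090d01))) 
(.lf (nat_lit 201818601) (dlOf (nat_lit 1) (nat_lit 0x1e0028090d01))))))) (.nd (nat_lit 19) 
(.nd (nat_lit 23) (.nd (nat_lit 20) (.nd (nat_lit 26) 
(.lf (nat_lit 2588713) (dlOf (nat_lit 3) (nat_lit 0xc000004ac010001ba1801ccc0800080080028002000a0008170a03))) 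
(.lf (nat_lit 2754052137) (dlOf (nat_lit 1) (nat_lit 0x200080b0d01)))) 
(.lf (nat_lit 2755100713) (dlOf (nat_lit 1) (nat_lit 0x78008007800200260008110503)))) 
(.nd (nat_lit 6) (.lf (nat_lit 27754537) (dlOf (nat_lit 1) (nat_lit 0x8008002400200060008d20783))) 
(.lf (nat_lit 48726121) (dlOf (nat_lit 1) (nat_lit 0x3000400060019420a02))))) (.nd (nat_lit 22) 
(.nd (nat_lit 6) (.lf (nat_lit 20938793) (dlOf (nat_lit 1) (nat_lit 0x800089f0381))) 
(.lf (nat_lit 12550249) (dlOf (nat_lit 2) (nat_lit 0x2fc4000080186d1400)))) (.nd (nat_lit 7) 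
(.lf (nat_lit 7307305) (dlOf (nat_lit 1) (nat_lit 0xa00284b0001))) 
(.lf (nat_lit 8357801) (dlOf (nat_lit 1) (nat_lit 0x20008002400200080008514303)))))))) 
(.nd (nat_lit 26) (.nd (nat_lit 11) (.nd (nat_lit 20) (.nd (nat_lit 18) (.nd (nat_lit 27) 
(.nd (nat_lit 7) (.lf (nat_lit 1342406697) (dlOf (nat_lit 2) (nat_lit 0x1261cd000a6818020500))) 
(.lf (nat_lit 4563632297) (dlOf (nat_lit 1) (nat_lit 0x10002001800080a2c82)))) (.nd (nat_lit 8) 
(.lf (nat_lit 1476624425) (dlOf (nat_lit 8) (nat_lit 0xf01e000400ec005805e0006606005c03c0001201001f01e00008c0803600f0000440400a80780002102004203c0000701003101e000a80ec00000080080002000600080a0682))) 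
(.lf (nat_lit 5234722089) (dlOf (nat_lit 1) (nat_lit 0x4004000200080d3182))))) (.nd (nat_lit 6) 
(.nd (nat_lit 9) (.lf (nat_lit 1342668841) (dlOf (nat_lit 1) (nat_lit 0x200080c0001))) 
(.lf (nat_lit 1342669353) (dlOf (nat_lit 1) (nat_lit 0x2000180c0e01)))) 
(.lf (nat_lit 3490677225) (dlOf (nat_lit 9) (nat_lit 0x9c846000ca22e003011600498870035c0000002e0a05062300064117007e00000005a0c08f43cc007c154002f0a90000881800e8548000420400e83cc0001e0204701e600350aa00130548000380c085c3cc0001b02015c1e600060aa00002c102a70008016800203bc0008017303))))) 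
(.nd (nat_lit 19) (.nd (nat_lit 18) 
(.lf (nat_lit 3490938921) (dlOf (nat_lit 1) (nat_lit 0x68008007400200540008030b03))) 
(.lf (nat_lit 3493298217) (dlOf (nat_lit 1) (nat_lit 0x78008007800200260008110503)))) 
(.nd (nat_lit 27) (.nd (nat_lit 31) 
(.lf (nat_lit 1343979561) (dlOf (nat_lit 2) (nat_lit 0x82a4000811c0003d0400020018390b01))) 
(.lf (nat_lit 3491463209) (dlOf (nat_lit 3) (nat_lit 0x424800d480200041a0006a3018090000)))) 
(.lf (nat_lit 5773164585) (dlOf (nat_lit 2) (nat_lit 0x2005e001302e802800fc000640c0088002000200080b0382)))))) 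
(.nd (nat_lit 7) (.nd (nat_lit 8) (.nd (nat_lit 6) (.nd (nat_lit 18) 
(.lf (nat_lit 5100505641) (dlOf (nat_lit 1) (nat_lit 0x400180d5181))) 
(.lf (nat_lit 1346341417) (dlOf (nat_lit 5) (nat_lit 0x240b380023008001881400a02ce007201b005700d00028000001141400882ce005801b002200d00022418013059c000419c005801b005500d00022020005000800ec002001a0008f05183)))) 
(.lf (nat_lit 5100505705) (dlOf (nat_lit 2) (nat_lit 0x40000003b02000200180d5381)))) 
(.nd (nat_lit 9) (.nd (nat_lit 10) 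
(.lf (nat_lit 3489892713) (dlOf (nat_lit 1) (nat_lit 0x400200020008004e82))) 
(.lf (nat_lit 3489893737) (dlOf (nat_lit 1) (nat_lit 0xa80080004002001a0008006b03)))) 
(.lf (nat_lit 5100505961) (dlOf (nat_lit 1) (nat_lit 0x480080054002002400080d5c03))))) 
(.nd (nat_lit 10) (.nd (nat_lit 18) 
(.lf (nat_lit 5100505577) (dlOf (nat_lit 1) (nat_lit 0x80080004002000200080d4e83))) 
(.lf (nat_lit 1345292777) (dlOf (nat_lit 1) (nat_lit 0x400400020008b54e82)))) (.nd (nat_lit 6) 
(.lf (nat_lit 3489897897) (dlOf (nat_lit 10) (nat_lit 0x4307f4001c2ca003e15e001d0ae00030548000601401b03fa004815e000178200a00fe804d857c00982700002e0601161fd00650af802284e00005a0c02883fa00e215f005409c0000141804687f401442be00761380000203002e0fe80000c0804307f401842be0064138000010300690fe801f8578000000800e400203c4000800cb82))) 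
(.lf (nat_lit 3489893865) (dlOf (nat_lit 2) (nat_lit 0x1c22f00000018006e80))))))) (.nd (nat_lit 29) 
(.nd (nat_lit 7) (.nd (nat_lit 19) (.nd (nat_lit 9) (.nd (nat_lit 27) 
(.lf (nat_lit 2483257385) (dlOf (nat_lit 2) (nat_lit 0x1008003518080028008000c002004a0008090003))) 
(.lf (nat_lit 469991465) (dlOf (nat_lit 2) (nat_lit 0x1261cd000bc018020500)))) 
(.lf (nat_lit 470254121) (dlOf (nat_lit 1) (nat_lit 0x2000180c0e01)))) (.nd (nat_lit 21) 
(.lf (nat_lit 3557523497) (dlOf (nat_lit 3) (nat_lit 0x8810c00d0074000a029000448300050248000000801b00080180002003a0008240783))) 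
(.lf (nat_lit 472612905) (dlOf (nat_lit 1) (nat_lit 0x4004000400089c0202))))) (.nd (nat_lit 6) 
(.lf (nat_lit 335773865) (dlOf (nat_lit 1) (nat_lit 0x4004000200080a2c82))) (.nd (nat_lit 9) 
(.lf (nat_lit 472877545) (dlOf (nat_lit 1) (nat_lit 0x400400020008b54e82))) 
(.lf (nat_lit 474186729) (dlOf (nat_lit 2) (nat_lit 0x4417200c258190e2880)))))) (.nd (nat_lit 6) 
(.nd (nat_lit 19) (.nd (nat_lit 18) 
(.lf (nat_lit 4228087849) (dlOf (nat_lit 1) (nat_lit 0x6c00200100008020602))) 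
(.lf (nat_lit 4095180841) (dlOf (nat_lit 1) (nat_lit 0x3f400200940008070382)))) (.nd (nat_lit 20) 
(.lf (nat_lit 1009483817) (dlOf (nat_lit 1) (nat_lit 0x4004000200091a0202))) 
(.lf (nat_lit 6377144361) (dlOf (nat_lit 2) (nat_lit 0x200650013032002801000005e0c0088002000200080b0382))))) 
(.nd (nat_lit 9) (.lf (nat_lit 1009483881) (dlOf (nat_lit 1) (nat_lit 0x200191a0a01))) 
(.nd (nat_lit 20) (.lf (nat_lit 6241356393) (dlOf (nat_lit 1) (nat_lit 0x4004000200080d5382))) 
(.lf (nat_lit 6376622697) (dlOf (nat_lit 1) (nat_lit 0x340028095381))))))))) (.nd (nat_lit 7) 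
(.nd (nat_lit 18) (.nd (nat_lit 26) (.nd (nat_lit 20) (.nd (nat_lit 8) (.nd (nat_lit 27) 
(.nd (nat_lit 19) 
(.lf (nat_lit 1342406713) (dlOf (nat_lit 3) (nat_lit 0x47071c000b604023838e0005a0200020018020681))) 
(.lf (nat_lit 2850873) (dlOf (nat_lit 1) (nat_lit 0x1c002001400081c0b82)))) (.nd (nat_lit 28) 
(.lf (nat_lit 134447161) (dlOf (nat_lit 3) (nat_lit 0x7660410002901039402080014008016000800d4002008e0008020683))) 
(.lf (nat_lit 939753529) (dlOf (nat_lit 2) (nat_lit 0x14026000e012800198100038008000800200200008160683))))) 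
(.nd (nat_lit 6) (.lf (nat_lit 805536057) (dlOf (nat_lit 1) (nat_lit 0x14c00400b60008124c02))) 
(.lf (nat_lit 3489897849) (dlOf (nat_lit 1) (nat_lit 0x100040006000800c902))))) (.nd (nat_lit 6) 
(.nd (nat_lit 19) (.nd (nat_lit 23) 
(.lf (nat_lit 22249529) (dlOf (nat_lit 2) (nat_lit 0x95f2800090080080008004000200120008ab0c83))) 
(.lf (nat_lit 30638137) (dlOf (nat_lit 1) (nat_lit 0x400200020008e41102)))) 
(.lf (nat_lit 45842489) (dlOf (nat_lit 1) (nat_lit 0x8008000400200020009360583)))) (.nd (nat_lit 8) 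
(.lf (nat_lit 3375225) (dlOf (nat_lit 1) (nat_lit 0x400400040018200082))) 
(.lf (nat_lit 8094073) (dlOf (nat_lit 1) (nat_lit 0x400200020008511002)))))) (.nd (nat_lit 6) 
(.nd (nat_lit 8) (.nd (nat_lit 28) (.nd (nat_lit 29) 
(.lf (nat_lit 201556025) (dlOf (nat_lit 3) (nat_lit 0x7660410002901039402080014008016000800d4002008e0008020683))) 
(.lf (nat_lit 1812168761) (dlOf (nat_lit 2) (nat_lit 0x14026000e012800198100038008000800200200008160683)))) 
(.lf (nat_lit 469991481) (dlOf (nat_lit 3) (nat_lit 0x47071c000b604023838e0005a0200020018020681)))) 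
(.nd (nat_lit 11) (.lf (nat_lit 1677951289) (dlOf (nat_lit 1) (nat_lit 0x14c00400b60008124c02))) 
(.lf (nat_lit 2752223545) (dlOf (nat_lit 1) (nat_lit 0x1c0020004000800ab82))))) (.nd (nat_lit 9) 
(.nd (nat_lit 8) (.lf (nat_lit 2753790073) (dlOf (nat_lit 1) (nat_lit 0x20018090081))) 
(.lf (nat_lit 4899178873) (dlOf (nat_lit 1) (nat_lit 0xa0002005e00080d4e82)))) (.nd (nat_lit 20) 
(.lf (nat_lit 5436050041) (dlOf (nat_lit 2) (nat_lit 0x1580000000004001800200100008095402))) 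
(.lf (nat_lit 6376622713) (dlOf (nat_lit 1) (nat_lit 0x20028095401))))))) (.nd (nat_lit 28) 
(.nd (nat_lit 21) (.nd (nat_lit 8) (.nd (nat_lit 26) 
(.lf (nat_lit 1611104313) (dlOf (nat_lit 1) (nat_lit 0x50008004c002001800080e1403))) 
(.lf (nat_lit 738689081) (dlOf (nat_lit 1) (nat_lit 0x50008004c002001800080e1403)))) 
(.lf (nat_lit 493369) (dlOf (nat_lit 4) (nat_lit 0xf4880017a420005d20001268f800174740017a380004ced8005e0ec0006a200017488000da40000ad1d0004e76c0006810002b4880011a400009d1d0005e76c0005410005400400180008003e02)))) 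
(.nd (nat_lit 19) (.nd (nat_lit 20) (.nd (nat_lit 22) 
(.lf (nat_lit 2588729) (dlOf (nat_lit 4) (nat_lit 0x1ee860001102000d74300008010008be40003500c003268800a400000000048170b80))) 
(.lf (nat_lit 15171641) (dlOf (nat_lit 1) (nat_lit 0x8002000200087c0882)))) 
(.lf (nat_lit 2755100729) (dlOf (nat_lit 4) (nat_lit 0xd01a400580880026024001e0100001982000c81a40050088002202400100100001942001101a400c40880056024002a0100008807c0000014009400400480018110682)))) 
(.nd (nat_lit 8) 
(.lf (nat_lit 28278841) (dlOf (nat_lit 2) (nat_lit 0x138540000e04000400400020008d80902))) 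
(.lf (nat_lit 19893049) (dlOf (nat_lit 1) (nat_lit 0x4002000200089d5c02)))))) (.nd (nat_lit 19) 
(.nd (nat_lit 9) (.nd (nat_lit 6) 
(.lf (nat_lit 3493298233) (dlOf (nat_lit 4) (nat_lit 0xd01a400580880026024001e0100001982000c81a40050088002202400100100001942001101a400c40880056024002a0100008807c0000014009400400480018110682))) 
(.lf (nat_lit 1476888953) (dlOf (nat_lit 1) (nat_lit 0x8004000600182d4e82)))) (.nd (nat_lit 26) 
(.lf (nat_lit 1342669369) (dlOf (nat_lit 1) (nat_lit 0x2c00080c1001))) 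
(.lf (nat_lit 470254137) (dlOf (nat_lit 1) (nat_lit 0x2c00080c1001))))) (.nd (nat_lit 26) 
(.nd (nat_lit 6) 
(.lf (nat_lit 1346341433) (dlOf (nat_lit 2) (nat_lit 0xf102800486a400602d0001a145000f067800502c8007003800ca01a001f00000017c480058008009c002003e0008f05203))) 
(.lf (nat_lit 1344242041) (dlOf (nat_lit 1) (nat_lit 0x28008001400200060008520b03)))) 
(.nd (nat_lit 10) (.lf (nat_lit 6377406521) (dlOf (nat_lit 1) (nat_lit 0x200080d0c81))) 
(.lf (nat_lit 4095706169) (dlOf (nat_lit 1) (nat_lit 0x600180e2881)))))))) (.nd (nat_lit 6) 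
(.nd (nat_lit 10) (.nd (nat_lit 26) (.nd (nat_lit 8) (.nd (nat_lit 9) 
(.lf (nat_lit 1342668985) (dlOf (nat_lit 1) (nat_lit 0x200180c0381))) 
(.lf (nat_lit 8094393) (dlOf (nat_lit 1) (nat_lit 0x4c0018511e01)))) 
(.lf (nat_lit 24084921) (dlOf (nat_lit 1) (nat_lit 0x400400020008b80802)))) (.nd (nat_lit 27) 
(.lf (nat_lit 3020390585) (dlOf (nat_lit 1) (nat_lit 0x200282c0481))) (.nd (nat_lit 29) 
(.lf (nat_lit 470253753) (dlOf (nat_lit 1) (nat_lit 0x200180c0381))) 
(.lf (nat_lit 3154608313) (dlOf (nat_lit 1) (nat_lit 0x400400060018280482)))))) (.nd (nat_lit 8) 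
(.nd (nat_lit 20) (.lf (nat_lit 42173625) (dlOf (nat_lit 1) (nat_lit 0xe400200640009242c82))) 
(.lf (nat_lit 51610809) (dlOf (nat_lit 1) (nat_lit 0x400400020009512c82)))) (.nd (nat_lit 9) 
(.lf (nat_lit 8095161) (dlOf (nat_lit 1) (nat_lit 0x400200020008513602))) (.nd (nat_lit 12) 
(.lf (nat_lit 2751956921) (dlOf (nat_lit 1) (nat_lit 0x20018004381))) 
(.lf (nat_lit 8099769) (dlOf (nat_lit 2) (nat_lit 0x121f800074080018008005c0020006000851a503))))))) 
(.nd (nat_lit 26) (.nd (nat_lit 18) (.nd (nat_lit 29) (.nd (nat_lit 9) (.nd (nat_lit 19) 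
(.lf (nat_lit 9667065) (dlOf (nat_lit 3) (nat_lit 0xe1d140004804006ce9800067450000e828577e00))) 
(.lf (nat_lit 754169) (dlOf (nat_lit 1) (nat_lit 0x40018017e01)))) 
(.lf (nat_lit 54758393) (dlOf (nat_lit 1) (nat_lit 0xc00200080009655f02)))) (.nd (nat_lit 27) 
(.lf (nat_lit 537100793) (dlOf (nat_lit 2) (nat_lit 0x7800000011018017e00))) 
(.lf (nat_lit 671318521) (dlOf (nat_lit 1) (nat_lit 0xa80080068002005e0008157e03))))) 
(.nd (nat_lit 9) (.nd (nat_lit 8) 
(.lf (nat_lit 19890425) (dlOf (nat_lit 1) (nat_lit 0x4002000200089d0a82))) 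
(.lf (nat_lit 3490677241) (dlOf (nat_lit 14) (nat_lit 0x28e2300052881014d1180029400809c08c00149e0404e046000a46020262230005228101331180028f0080a088c00147604038c46000a3a020042234001d1168028d01000388d00146604021046800a2a0201082340051481008311a0028a0080518008027000200d60008017803)))) 
(.nd (nat_lit 10) (.lf (nat_lit 61834233) (dlOf (nat_lit 1) (nat_lit 0x800400020009922882))) 
(.lf (nat_lit 3492775929) (dlOf (nat_lit 1) (nat_lit 0x18004000200180f4682)))))) (.nd (nat_lit 27) 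
(.nd (nat_lit 28) (.nd (nat_lit 31) 
(.lf (nat_lit 1677951481) (dlOf (nat_lit 7) (nat_lit 0x50070001a40805d0000000800400240a200024020180051000201d000088100020144000400400fc0a20001d0200080008127e01))) 
(.lf (nat_lit 3825435129) (dlOf (nat_lit 12) (nat_lit 0x5d8088029003e027e01b001f00380296c20038806c007000e00a5a0400e201b001d00380296410030802c001400000a510400cc00b000400000294010033802c0020012000c0000052783005c0058029180801a002c0148a04015001600a3c0200a600b0051d81002c0058028e80803c8008001000200080008157803)))) 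
(.lf (nat_lit 1409516025) (dlOf (nat_lit 6) (nat_lit 0x900be00a3402002c05f0051981000c02f8028a808004017c014520400900be00a280200040018017801)))) 
(.nd (nat_lit 8) (.nd (nat_lit 9) 
(.lf (nat_lit 2617475321) (dlOf (nat_lit 1) (nat_lit 0x200280b4581))) 
(.lf (nat_lit 1008700153) (dlOf (nat_lit 2) (nat_lit 0x1080000001e04001000200160008f55a02)))) 
(.nd (nat_lit 9) 
(.lf (nat_lit 1543733753) (dlOf (nat_lit 8) (nat_lit 0x2a01300100074002803000a5b06006a02600070118013807400540300014010000900280020008014b41c00cc04c000c023002500e800b806000300200022005000a00100080000014b2200008046003e01d001e00c000400140148c10005803a001e018000b00280291418003008c00a403a004201800070028028f020001808c009403a002801800010028028ec200140008002c00200020008157803))) 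
(.lf (nat_lit 474186745) (dlOf (nat_lit 2) (nat_lit 0x361720037e8190e2880))))))))))))

end

end Pool.Agent.Lib.MP_5854e1_co.Cz

namespace Pool.Agent.Lib.MP_5854e1_co.Cz

noncomputable section

noncomputable def tz55 : DT := (.nd (nat_lit 5) (.nd (nat_lit 4) (.nd (nat_lit 17) (.nd (nat_lit 6) 
(.nd (nat_lit 18) (.nd (nat_lit 26) (.nd (nat_lit 7) (.nd (nat_lit 20) (.nd (nat_lit 28) 
(.nd (nat_lit 8) (.nd (nat_lit 22) 
(.lf (nat_lit 25272329) (dlOf (nat_lit 10) (nat_lit 0x195ff000a6810004b418004ec08002da0c00272040012d06001300200116830005110000364100010880001b0040006d06000ca0200020000003e81005a0000001f008006000800d800200360008bf0483))) 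
(.lf (nat_lit 21078025) (dlOf (nat_lit 1) (nat_lit 0x20018a00281)))) 
(.lf (nat_lit 35759369) (dlOf (nat_lit 1) (nat_lit 0xc00200020009012f82)))) (.nd (nat_lit 27) 
(.nd (nat_lit 19) (.lf (nat_lit 1879154697) (dlOf (nat_lit 1) (nat_lit 0x20028030481))) 
(.lf (nat_lit 3492388873) (dlOf (nat_lit 1) (nat_lit 0x100080008002000400080c0803)))) 
(.nd (nat_lit 9) 
(.lf (nat_lit 3623985161) (dlOf (nat_lit 1) (nat_lit 0x280080008002000c0008070003))) 
(.lf (nat_lit 4697728521) (dlOf (nat_lit 1) (nat_lit 0x114004007a0018093682)))))) (.nd (nat_lit 8) 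
(.nd (nat_lit 21) (.nd (nat_lit 24) 
(.lf (nat_lit 1155081) (dlOf (nat_lit 1) (nat_lit 0x400400020008080482))) 
(.lf (nat_lit 17932297) (dlOf (nat_lit 2) (nat_lit 0x692a0009c0200020018900581)))) 
(.nd (nat_lit 19) 
(.lf (nat_lit 28418057) (dlOf (nat_lit 8) (nat_lit 0x21bf80014dfb000a6c7001ab54800f1aa2000cd40001669f8004b36800859920036cc8005ea8a00156fe000b37ec005db1c000ed8d00446a9000c35440031a80001cd3f001766d0001b36400f1992004ccc8005ea0c005b6fe002fb7ec0175b1c0066d8d008a6a9001835440109a80009ed3f005d66d002cb36401e199200dacc8005e78c00296a9002f3808004b7f00031bf60014d8e00366a9001db544002da800030d3f000b66d00153324007599000bc9140074dfc001f6fd801fb6380195aa4000ed5100356a0001cb3680145992005ecc8005e40900066a6002d14080048008004400200120008d90283))) 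
(.lf (nat_lit 3776521) (dlOf (nat_lit 1) (nat_lit 0x400400020008220002))))) (.nd (nat_lit 10) 
(.lf (nat_lit 41001225) (dlOf (nat_lit 1) (nat_lit 0x20029203681))) 
(.lf (nat_lit 36807945) (dlOf (nat_lit 1) (nat_lit 0x800200020009072f82)))))) (.nd (nat_lit 32) 
(.nd (nat_lit 20) (.nd (nat_lit 8) 
(.lf (nat_lit 805413001) (dlOf (nat_lit 1) (nat_lit 0x20018090101))) 
(.lf (nat_lit 113545) (dlOf (nat_lit 1) (nat_lit 0x2001800bc81)))) (.nd (nat_lit 19) 
(.lf (nat_lit 3252361) (dlOf (nat_lit 1) (nat_lit 0x400200020008200102))) 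
(.lf (nat_lit 12165257) (dlOf (nat_lit 1) (nat_lit 0xd80080014002001400086c0103))))) 
(.nd (nat_lit 10) (.nd (nat_lit 19) 
(.lf (nat_lit 5905686665) (dlOf (nat_lit 2) (nat_lit 0x538000000760400a8002002000080b0102))) 
(.lf (nat_lit 5771993225) (dlOf (nat_lit 2) (nat_lit 0x1f0140000b40800b0008003000200380008030f03)))) 
(.nd (nat_lit 9) (.lf (nat_lit 6576778377) (dlOf (nat_lit 1) (nat_lit 0x20028146181))) 
(.lf (nat_lit 6576778889) (dlOf (nat_lit 1) (nat_lit 0x400400020008147182))))))) (.nd (nat_lit 27) 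
(.nd (nat_lit 7) (.nd (nat_lit 21) (.nd (nat_lit 9) 
(.lf (nat_lit 2483134473) (dlOf (nat_lit 2) (nat_lit 0x802a0019014001648100068008004800200220008020483))) 
(.lf (nat_lit 3556878857) (dlOf (nat_lit 2) (nat_lit 0x7000a000a00300060000000a01800a80080014002000c00080d5003)))) 
(.nd (nat_lit 8) 
(.lf (nat_lit 2754191369) (dlOf (nat_lit 1) (nat_lit 0x100080008002000400080c0803))) 
(.lf (nat_lit 4095845641) (dlOf (nat_lit 1) (nat_lit 0x10004000400080e2f82))))) (.nd (nat_lit 10) 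
(.nd (nat_lit 29) 
(.lf (nat_lit 6509666441) (dlOf (nat_lit 2) (nat_lit 0x538000000760400a8002002000080b0102))) 
(.lf (nat_lit 1677828233) (dlOf (nat_lit 1) (nat_lit 0x20018090101)))) 
(.lf (nat_lit 4093748361) (dlOf (nat_lit 1) (nat_lit 0x400400020008002b02))))) (.nd (nat_lit 29) 
(.nd (nat_lit 8) (.nd (nat_lit 10) 
(.lf (nat_lit 2348916745) (dlOf (nat_lit 2) (nat_lit 0x802a0019014002c9c100068008004800200220008020483))) 
(.lf (nat_lit 201434121) (dlOf (nat_lit 1) (nat_lit 0x20018002881)))) 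
(.lf (nat_lit 201434889) (dlOf (nat_lit 2) (nat_lit 0x1004100023818003b80)))) (.nd (nat_lit 7) 
(.nd (nat_lit 28) 
(.lf (nat_lit 2885787657) (dlOf (nat_lit 1) (nat_lit 0x8008000c002000e0008070003))) 
(.lf (nat_lit 1006739465) (dlOf (nat_lit 1) (nat_lit 0x20028030481)))) 
(.lf (nat_lit 5301706889) (dlOf (nat_lit 6) (nat_lit 0x80fc009807c001803a000f01b800180000006c1400a407c002003a001301b80038000000681000d407c000403a000501b8000b81800900f8004c07400360370001683002501f000080e8000806e0002b06039c0018030f01))))))) 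
(.nd (nat_lit 20) (.nd (nat_lit 28) (.nd (nat_lit 26) (.nd (nat_lit 27) (.nd (nat_lit 7) 
(.nd (nat_lit 11) 
(.lf (nat_lit 537763849) (dlOf (nat_lit 2) (nat_lit 0x20090009bc04001800400060018170482))) 
(.lf (nat_lit 8759305) (dlOf (nat_lit 1) (nat_lit 0x940008514701)))) 
(.lf (nat_lit 21340297) (dlOf (nat_lit 2) (nat_lit 0xc2480001b018a30f00)))) (.nd (nat_lit 29) 
(.lf (nat_lit 134586377) (dlOf (nat_lit 1) (nat_lit 0x7a0008080001))) 
(.lf (nat_lit 671457289) (dlOf (nat_lit 3) (nat_lit 0x14c023008e01000a2801803800060166000000a7850001012000524080098008024c002001e00081a0483))))) 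
(.nd (nat_lit 27) (.nd (nat_lit 29) 
(.lf (nat_lit 3288702985) (dlOf (nat_lit 2) (nat_lit 0x130120000000801d00080070002008a00080c0803))) 
(.lf (nat_lit 604348425) (dlOf (nat_lit 7) (nat_lit 0x20000031481002500c00010058005402a00480110015008001a803c009401c005e0070022003000d000c0074004006281600340110031101002e00c00320044012001e008800e003900000186c280100060007402c000c01500090088020003c011801c009e007003a000001860400278058015800e005b90400160028190281)))) 
(.lf (nat_lit 201695241) (dlOf (nat_lit 1) (nat_lit 0x7a0008080001))))) (.nd (nat_lit 26) 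
(.nd (nat_lit 31) (.nd (nat_lit 27) 
(.lf (nat_lit 1342545929) (dlOf (nat_lit 16) (nat_lit 0x2e247000f11e000308dc002c00c001c48e000e23c000111b80057c18001891c002bc04001448e000223c001011b80057418003891c002c46e00158040006247000711b80055c10002091c000846e0015604003a2470002121800488f0003846e00141730006c85000a123800408dc001b008002c48e0010243000311e000188dc00042e6000d70a00082470006b01000a123800388dc00082e6000d5060012247000311b80033c1000588dc00142e6000ce040014247000411b800334100110008003400200100008050583))) 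
(.lf (nat_lit 1476763657) (dlOf (nat_lit 7) (nat_lit 0x2000005df01002500c0001005c005402c00480110015008001a803c009401c005e0070022003000d0010007400400bbd160034011005db81002e00c00320044012001e008800e0039000002eb8280100060007402e000c01600090088020003c011801c009e007003a000002eb440027805c015800e00b450400160028190281)))) 
(.nd (nat_lit 7) 
(.lf (nat_lit 4026900489) (dlOf (nat_lit 2) (nat_lit 0x130120000000801d00080070002008a00080c0803))) 
(.lf (nat_lit 3492653193) (dlOf (nat_lit 1) (nat_lit 0x5200280f4801))))) (.nd (nat_lit 30) 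
(.nd (nat_lit 31) 
(.lf (nat_lit 470130697) (dlOf (nat_lit 16) (nat_lit 0x2e247000f11e000308dc002c00c001c48e000e23c000111b80057c18001891c002bc04001448e000223c001011b80057418003891c002c46e00158040006247000711b80055c10002091c000846e0015604003a2470002121800488f0003846e00141710006c85000a123800408dc001b008002c48e0010243000311e000188dc00042e2000d70a00082470006b01000a123800388dc00082e2000d5060012247000311b80033c1000588dc00142e2000ce040014247000411b800334100110008003400200100008050583))) 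
(.lf (nat_lit 2617614345) (dlOf (nat_lit 3) (nat_lit 0x9c05e0070902004e02f0037c818100000)))) 
(.nd (nat_lit 19) 
(.lf (nat_lit 1543872521) (dlOf (nat_lit 3) (nat_lit 0x14c023008e01000a2801803800060166000000f0050001012000768080098008024c002001e00081a0483))) 
(.lf (nat_lit 1410179081) (dlOf (nat_lit 2) (nat_lit 0x20090014e604001800400060018170482))))))) 
(.nd (nat_lit 19) (.nd (nat_lit 22) (.nd (nat_lit 21) (.nd (nat_lit 26) 
(.lf (nat_lit 3491078153) (dlOf (nat_lit 1) (nat_lit 0x10008000400200020008060483))) 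
(.lf (nat_lit 2752880649) (dlOf (nat_lit 1) (nat_lit 0x10008000400200020008060483)))) 
(.lf (nat_lit 37068809) (dlOf (nat_lit 1) (nat_lit 0x10002000e0009090002)))) (.nd (nat_lit 21) 
(.nd (nat_lit 23) 
(.lf (nat_lit 22388745) (dlOf (nat_lit 1) (nat_lit 0x38008001400200020008ad0003))) 
(.lf (nat_lit 30777353) (dlOf (nat_lit 3) (nat_lit 0x2b8d4001380400154fa0008c0200040018e50581)))) 
(.lf (nat_lit 16097289) (dlOf (nat_lit 3) (nat_lit 0x493c00ba502000249e005a2818860280))))) 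
(.nd (nat_lit 21) (.nd (nat_lit 23) 
(.lf (nat_lit 22913033) (dlOf (nat_lit 2) (nat_lit 0x7bc400000018b40000))) 
(.lf (nat_lit 31301641) (dlOf (nat_lit 1) (nat_lit 0x80028e80001)))) (.nd (nat_lit 8) 
(.lf (nat_lit 4038665) (dlOf (nat_lit 1) (nat_lit 0x38008003800200020008270483))) 
(.lf (nat_lit 8237833) (dlOf (nat_lit 1) (nat_lit 0x80008518f81)))))))) (.nd (nat_lit 7) 
(.nd (nat_lit 28) (.nd (nat_lit 31) (.nd (nat_lit 18) (.nd (nat_lit 12) (.nd (nat_lit 19) 
(.lf (nat_lit 25272393) (dlOf (nat_lit 4) (nat_lit 0x60d44000320401446a200160000000b820001b448000d9fc0000008001c002001c0008bf0c82))) 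
(.lf (nat_lit 10068041) (dlOf (nat_lit 1) (nat_lit 0xc004000200085b0882)))) (.nd (nat_lit 10) 
(.lf (nat_lit 637001) (dlOf (nat_lit 1) (nat_lit 0x40040002001800a682))) 
(.lf (nat_lit 8500297) (dlOf (nat_lit 2) (nat_lit 0x16924000440200020028519301))))) 
(.nd (nat_lit 19) 
(.lf (nat_lit 5905948745) (dlOf (nat_lit 2) (nat_lit 0x10000000170200400008160881))) 
(.nd (nat_lit 20) (.lf (nat_lit 893001) (dlOf (nat_lit 1) (nat_lit 0x400400020008030f02))) 
(.lf (nat_lit 18718793) (dlOf (nat_lit 1) (nat_lit 0x20018970101)))))) (.nd (nat_lit 30) 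
(.nd (nat_lit 18) (.nd (nat_lit 20) 
(.lf (nat_lit 2348916809) (dlOf (nat_lit 5) (nat_lit 0x24802c011601500b30040054801c003200c00110040000983005580a801280500102010005b0070000942005f80a80134050008201000630070000882000380380004204002c00200100008020882))) 
(.lf (nat_lit 2752618569) (dlOf (nat_lit 6) (nat_lit 0x5f80000004c040224000000220200e40e500420500000481002683940002204007c1ca00b80a000007828020880)))) 
(.lf (nat_lit 6509928521) (dlOf (nat_lit 2) (nat_lit 0x10000000170200400008160881)))) 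
(.nd (nat_lit 8) (.nd (nat_lit 18) 
(.lf (nat_lit 3221856329) (dlOf (nat_lit 6) (nat_lit 0xe0170000b80802a00bc0004604012005e0002202004a02f0000801003d017800034080010008001c002002000081a1483))) 
(.lf (nat_lit 3288703049) (dlOf (nat_lit 2) (nat_lit 0x5800a0002e02000200280c1481)))) 
(.nd (nat_lit 26) 
(.lf (nat_lit 3221332297) (dlOf (nat_lit 5) (nat_lit 0x180a6004403700a1012001880800005a1007180480030020000160200180100000ac08003008000052040004004004a0018090602))) 
(.lf (nat_lit 3959529801) (dlOf (nat_lit 5) (nat_lit 0x180a6004403700a101200188080000581007180480030020000158200180100000a808003008000050040004004004a0018090602))))))) 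
(.nd (nat_lit 26) (.nd (nat_lit 18) (.nd (nat_lit 9) 
(.lf (nat_lit 3490816073) (dlOf (nat_lit 6) (nat_lit 0x5f80000004c040224000000220200e40b500420500000481002682d40002204007c16a00b80a000007828020880))) 
(.lf (nat_lit 3493962313) (dlOf (nat_lit 2) (nat_lit 0xa02e80006c080068008002c002000200081b1183)))) 
(.nd (nat_lit 27) (.nd (nat_lit 31) 
(.lf (nat_lit 4563771465) (dlOf (nat_lit 2) (nat_lit 0x80290001f8180d0500))) 
(.lf (nat_lit 2416287817) (dlOf (nat_lit 1) (nat_lit 0x4004000200080d0c82)))) (.nd (nat_lit 31) 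
(.lf (nat_lit 4697989193) (dlOf (nat_lit 2) (nat_lit 0x80290001f8180d0500))) 
(.lf (nat_lit 2550505545) (dlOf (nat_lit 1) (nat_lit 0x4004000200080d0c82)))))) (.nd (nat_lit 8) 
(.nd (nat_lit 10) (.nd (nat_lit 11) 
(.lf (nat_lit 2483134537) (dlOf (nat_lit 5) (nat_lit 0x24802e011601500b30040054801c003200c00110048000983005580a801280500102010005b0070000942005f80a80134050008201000630070000882000380380004204002c00200100008020882))) 
(.lf (nat_lit 2483402825) (dlOf (nat_lit 2) (nat_lit 0xc01500088c0800a00080074002001200080fa683)))) 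
(.lf (nat_lit 469873737) (dlOf (nat_lit 1) (nat_lit 0x800200280008009302)))) (.nd (nat_lit 12) 
(.nd (nat_lit 27) 
(.lf (nat_lit 3020006729) (dlOf (nat_lit 1) (nat_lit 0x80080004002000400080d3303))) 
(.lf (nat_lit 3154224457) (dlOf (nat_lit 1) (nat_lit 0x10008001000200060008103303)))) 
(.lf (nat_lit 469873993) (dlOf (nat_lit 1) (nat_lit 0x60028009901))))))) (.nd (nat_lit 30) 
(.nd (nat_lit 20) (.nd (nat_lit 26) (.nd (nat_lit 8) (.nd (nat_lit 10) 
(.lf (nat_lit 805413065) (dlOf (nat_lit 3) (nat_lit 0x40260012381000901d000238080020008000400200220008090483))) 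
(.lf (nat_lit 8758473) (dlOf (nat_lit 1) (nat_lit 0x20018512d81)))) 
(.lf (nat_lit 46508489) (dlOf (nat_lit 1) (nat_lit 0x20029384e81)))) (.nd (nat_lit 8) 
(.nd (nat_lit 27) (.lf (nat_lit 604086473) (dlOf (nat_lit 1) (nat_lit 0x400200020008010482))) 
(.lf (nat_lit 5033271497) (dlOf (nat_lit 1) (nat_lit 0x18008000400200020008031b83)))) 
(.lf (nat_lit 738306505) (dlOf (nat_lit 1) (nat_lit 0x100018094e81))))) (.nd (nat_lit 8) 
(.nd (nat_lit 9) (.nd (nat_lit 10) 
(.lf (nat_lit 20558025) (dlOf (nat_lit 1) (nat_lit 0xf000089d8001))) 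
(.lf (nat_lit 43361481) (dlOf (nat_lit 2) (nat_lit 0x21a460001040800380080134002005600092a2d83)))) 
(.lf (nat_lit 7975625) (dlOf (nat_lit 1) (nat_lit 0x20028518c81)))) (.nd (nat_lit 12) 
(.lf (nat_lit 41001417) (dlOf (nat_lit 1) (nat_lit 0x100009207a81))) 
(.lf (nat_lit 8237513) (dlOf (nat_lit 1) (nat_lit 0x20018518681)))))) (.nd (nat_lit 26) 
(.nd (nat_lit 8) (.nd (nat_lit 18) (.nd (nat_lit 31) 
(.lf (nat_lit 5368815817) (dlOf (nat_lit 1) (nat_lit 0x8008000400200020008031b83))) 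
(.lf (nat_lit 3221332169) (dlOf (nat_lit 3) (nat_lit 0x230100007140800200800011c04001800200280008090482)))) 
(.lf (nat_lit 1208328393) (dlOf (nat_lit 1) (nat_lit 0x4002000200080c1b82)))) (.nd (nat_lit 11) 
(.lf (nat_lit 5774090697) (dlOf (nat_lit 1) (nat_lit 0x16c00200b800080f7a82))) 
(.lf (nat_lit 1346480585) (dlOf (nat_lit 2) (nat_lit 0x107c8032c8080048008000800200060008f64e83))))) 
(.nd (nat_lit 27) (.nd (nat_lit 8) 
(.lf (nat_lit 1677828297) (dlOf (nat_lit 3) (nat_lit 0x40260012381000901d000238080020008000400200220008090483))) 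
(.lf (nat_lit 5972796361) (dlOf (nat_lit 1) (nat_lit 0x400400020008142882)))) (.nd (nat_lit 10) 
(.lf (nat_lit 3959529673) (dlOf (nat_lit 3) (nat_lit 0x230100007140800200800011c04001800200280008090482))) 
(.lf (nat_lit 2080482505) (dlOf (nat_lit 1) (nat_lit 0x20028092d81))))))))) (.nd (nat_lit 6) 
(.nd (nat_lit 19) (.nd (nat_lit 30) (.nd (nat_lit 18) (.nd (nat_lit 20) (.nd (nat_lit 7) 
(.nd (nat_lit 31) 
(.lf (nat_lit 469999625) (dlOf (nat_lit 2) (nat_lit 0x8848e0013902000a0018020481))) 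
(.lf (nat_lit 2617483273) (dlOf (nat_lit 1) (nat_lit 0x200080c0281)))) (.nd (nat_lit 8) 
(.lf (nat_lit 2334857) (dlOf (nat_lit 1) (nat_lit 0x400200020008150102))) 
(.lf (nat_lit 8632201) (dlOf (nat_lit 1) (nat_lit 0x40020002000851a302))))) (.nd (nat_lit 21) 
(.nd (nat_lit 24) 
(.lf (nat_lit 471048201) (dlOf (nat_lit 2) (nat_lit 0x382740181004000400200020008250282))) 
(.lf (nat_lit 18063369) (dlOf (nat_lit 1) (nat_lit 0x400400020018900582)))) (.nd (nat_lit 7) 
(.lf (nat_lit 62103561) (dlOf (nat_lit 1) (nat_lit 0x28008000800200020009950003))) 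
(.lf (nat_lit 20161417) (dlOf (nat_lit 1) (nat_lit 0x200289d2581)))))) (.nd (nat_lit 10) 
(.nd (nat_lit 22) (.nd (nat_lit 7) 
(.lf (nat_lit 2819072009) (dlOf (nat_lit 2) (nat_lit 0x2810800c7e04002000200140008190282))) 
(.lf (nat_lit 2886181001) (dlOf (nat_lit 1) (nat_lit 0x3a0028183d01)))) (.nd (nat_lit 20) 
(.nd (nat_lit 21) (.lf (nat_lit 55025673) (dlOf (nat_lit 1) (nat_lit 0x20019690001))) 
(.lf (nat_lit 15179785) (dlOf (nat_lit 1) (nat_lit 0x278002001e00087c0482)))) 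
(.lf (nat_lit 30908425) (dlOf (nat_lit 2) (nat_lit 0x55180009c0200020008e50581))))) 
(.nd (nat_lit 7) (.nd (nat_lit 20) 
(.lf (nat_lit 40346633) (dlOf (nat_lit 1) (nat_lit 0x200291f2881))) 
(.lf (nat_lit 39298057) (dlOf (nat_lit 1) (nat_lit 0x4004000a0019192882)))) (.nd (nat_lit 21) 
(.lf (nat_lit 604480649) (dlOf (nat_lit 1) (nat_lit 0x600082d2b01))) 
(.lf (nat_lit 40346761) (dlOf (nat_lit 1) (nat_lit 0x14002000200091f2b02))))))) (.nd (nat_lit 10) 
(.nd (nat_lit 9) (.nd (nat_lit 7) (.nd (nat_lit 20) 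
(.lf (nat_lit 1342414857) (dlOf (nat_lit 2) (nat_lit 0x8848e001ca02000a0018020481))) 
(.lf (nat_lit 1343463433) (dlOf (nat_lit 1) (nat_lit 0x40018250281)))) (.nd (nat_lit 8) 
(.lf (nat_lit 3624378505) (dlOf (nat_lit 1) (nat_lit 0x3a0028183d01))) 
(.lf (nat_lit 1677959561) (dlOf (nat_lit 2) (nat_lit 0x1200000004004007000200b40008125d02))))) 
(.nd (nat_lit 11) (.nd (nat_lit 26) 
(.lf (nat_lit 4026769929) (dlOf (nat_lit 2) (nat_lit 0x240400014a0200020018090d81))) 
(.lf (nat_lit 3288572425) (dlOf (nat_lit 2) (nat_lit 0x240400014a0200020018090d81)))) 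
(.lf (nat_lit 1476897289) (dlOf (nat_lit 4) (nat_lit 0x30118000a80800100fc0005204000807c000a03600020118000a01801d80080024002001800082d5003))))) 
(.nd (nat_lit 8) (.nd (nat_lit 9) (.nd (nat_lit 11) 
(.lf (nat_lit 1610851337) (dlOf (nat_lit 1) (nat_lit 0x400200020008092882))) 
(.lf (nat_lit 5570276361) (dlOf (nat_lit 1) (nat_lit 0x200280d5f81)))) (.nd (nat_lit 7) 
(.lf (nat_lit 6174254601) (dlOf (nat_lit 1) (nat_lit 0x7400180d3681))) 
(.lf (nat_lit 1610851977) (dlOf (nat_lit 1) (nat_lit 0x20018093a01))))) (.nd (nat_lit 26) 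
(.nd (nat_lit 28) (.lf (nat_lit 1610851593) (dlOf (nat_lit 1) (nat_lit 0x400400020008092f82))) 
(.lf (nat_lit 6174254345) (dlOf (nat_lit 1) (nat_lit 0x80080004002000200080d2f83)))) 
(.lf (nat_lit 5704492297) (dlOf (nat_lit 1) (nat_lit 0x4004000200080d2f82))))))) (.nd (nat_lit 21) 
(.nd (nat_lit 18) (.nd (nat_lit 23) (.nd (nat_lit 22) (.nd (nat_lit 9) 
(.lf (nat_lit 2819334153) (dlOf (nat_lit 12) (nat_lit 0x100f000060720002035000181780008096000803f005ea86000b03c000181c800100d40002069000303080038178000809600bd40e000c0780006039000381a8000c0bc000c04b000401f802f3c3000281e000140d4000805e005e703000503c000281c800240d4000605e0005025800280fc017921800080f000060720008035000101780014096000803f005e4060005039000381a8001c07e00bbd0600060720005035000200fc0176e0c000c0d40006069000402e800100fc0175c10000c0d4000403f005d682000101a002c34080110008002c00200060008240283))) 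
(.lf (nat_lit 67871241) (dlOf (nat_lit 1) (nat_lit 0x10008000400200020008331483)))) 
(.nd (nat_lit 10) (.lf (nat_lit 21733385) (dlOf (nat_lit 1) (nat_lit 0x1000200060008a60a02))) 
(.lf (nat_lit 38511625) (dlOf (nat_lit 1) (nat_lit 0x580009132881))))) (.nd (nat_lit 20) 
(.nd (nat_lit 24) (.lf (nat_lit 42704905) (dlOf (nat_lit 1) (nat_lit 0x80029270081))) 
(.lf (nat_lit 59482121) (dlOf (nat_lit 1) (nat_lit 0x6400200d00009800002)))) 
(.lf (nat_lit 10199049) (dlOf (nat_lit 2) (nat_lit 0x192550005340800300080008002000400085c0483))))) 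
(.nd (nat_lit 7) (.nd (nat_lit 23) 
(.lf (nat_lit 21995529) (dlOf (nat_lit 1) (nat_lit 0x68008002c002000a0008a80483))) 
(.lf (nat_lit 13606921) (dlOf (nat_lit 4) (nat_lit 0x12bb80017545000a6820007b7880036008004ec4c014759000a32f0006994e8028ca68000f8140170002005c0008730482)))) 
(.nd (nat_lit 26) (.lf (nat_lit 2072713) (dlOf (nat_lit 1) (nat_lit 0x400200020008150102))) 
(.lf (nat_lit 2753536137) (dlOf (nat_lit 1) (nat_lit 0x400400020008090102)))))) (.nd (nat_lit 25) 
(.nd (nat_lit 7) (.nd (nat_lit 20) (.nd (nat_lit 26) 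
(.lf (nat_lit 3492519945) (dlOf (nat_lit 5) (nat_lit 0x1c3da0007d0200061ed0003e0100060f68001d40800307b4000e6040004002000200080d0482))) 
(.lf (nat_lit 2754322441) (dlOf (nat_lit 5) (nat_lit 0x1c3fe0007d0200061ff0003e0100060ff8001d40800307fc000e6040004002000200080d0482)))) 
(.nd (nat_lit 26) (.lf (nat_lit 3493568521) (dlOf (nat_lit 1) (nat_lit 0x400400020008170482))) 
(.lf (nat_lit 2755371017) (dlOf (nat_lit 1) (nat_lit 0x400400020008170482))))) (.nd (nat_lit 8) 
(.lf (nat_lit 23830665) (dlOf (nat_lit 1) (nat_lit 0x400200020008b80102))) (.nd (nat_lit 9) 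
(.lf (nat_lit 3121545) (dlOf (nat_lit 1) (nat_lit 0x8008040000200c60008200783))) 
(.lf (nat_lit 19639177) (dlOf (nat_lit 1) (nat_lit 0x80080004002000200089d5c03)))))) 
(.nd (nat_lit 9) (.nd (nat_lit 8) 
(.lf (nat_lit 36414473) (dlOf (nat_lit 1) (nat_lit 0x20019072881))) 
(.lf (nat_lit 36414729) (dlOf (nat_lit 1) (nat_lit 0x80019072f81)))) (.nd (nat_lit 11) 
(.lf (nat_lit 40870409) (dlOf (nat_lit 1) (nat_lit 0x400200080009208002))) 
(.lf (nat_lit 57387529) (dlOf (nat_lit 1) (nat_lit 0x400400020009795002)))))))) (.nd (nat_lit 7) 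
(.nd (nat_lit 18) (.nd (nat_lit 26) (.nd (nat_lit 8) (.nd (nat_lit 19) (.nd (nat_lit 27) 
(.lf (nat_lit 1342414921) (dlOf (nat_lit 14) (nat_lit 0x257124800e08fc07503e003ac1c701e20de8000e42805e8924013038e0003804011624900300e38000dc101268924003847e03921f001cf0e380ee06f40006c14078049202901c700360de8000d41812c8924009449000b823f003111880e807c0000c3d203801c701cc0de800098400828924004838e0002504021c2490001201025312480008920002447e002823101cb0f800e0071c073437a000220e01ee249000108100731248004000000036080048492002622000130ce000a000000032100008440000419c000200000005c180630008015400204140008020883))) 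
(.lf (nat_lit 134455369) (dlOf (nat_lit 10) (nat_lit 0x1c001880e48044000680800a806200580110001982001d01880038044000640806d0062036e0110001882002201880120044000600806c8062037601100013020084018804280440004a08024c0620194011000120201a501880d4804400044080004004006e0018020882)))) 
(.nd (nat_lit 10) 
(.lf (nat_lit 59482185) (dlOf (nat_lit 2) (nat_lit 0x8ccca001520200020029800601))) 
(.lf (nat_lit 50046025) (dlOf (nat_lit 1) (nat_lit 0x800294c2881))))) (.nd (nat_lit 9) 
(.lf (nat_lit 3758334281) (dlOf (nat_lit 1) (nat_lit 0x8008000400200020008130783))) 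
(.lf (nat_lit 20163401) (dlOf (nat_lit 1) (nat_lit 0x4002000200089d5c02))))) (.nd (nat_lit 9) 
(.nd (nat_lit 8) (.nd (nat_lit 28) 
(.lf (nat_lit 201564233) (dlOf (nat_lit 10) (nat_lit 0x1c001880e48044000680800a806200580110001982001d01880038044000640806d0062036e0110001882002201880120044000600806c8062037601100013020084018804280440004a08024c0620194011000120201a501880d4804400044080004004006e0018020882))) 
(.lf (nat_lit 469999689) (dlOf (nat_lit 14) (nat_lit 0x257124800e08fc07503e003ac1c701e20de8000e42805e8924013038e0003804011624900300e38000dc101268924003847e03921f001cf0e380ee06f40006c14078049202901c700360de8000d41812c8924009449000b823f003111880e807c0000c3d203801c701cc0de800098400828924004838e0002504021c2490001201025312480008920002447e002823101cb0f800e0071c073437a000220e01ee249000108100731248004000000036080048492002621c00130cd000a000000032100008438000419a000200000005c180630008015400204140008020883)))) 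
(.lf (nat_lit 1275307337) (dlOf (nat_lit 1) (nat_lit 0x4004000200080e3302)))) (.nd (nat_lit 10) 
(.lf (nat_lit 2349048393) (dlOf (nat_lit 2) (nat_lit 0xf0078000000800200080014002001e0008091183))) 
(.lf (nat_lit 67876425) (dlOf (nat_lit 1) (nat_lit 0x20018339c01)))))) (.nd (nat_lit 26) 
(.nd (nat_lit 20) (.nd (nat_lit 9) (.nd (nat_lit 10) 
(.lf (nat_lit 48734281) (dlOf (nat_lit 2) (nat_lit 0x1f5e00014aa480053c100108008012c00200040009420603))) 
(.lf (nat_lit 1344775241) (dlOf (nat_lit 1) (nat_lit 0x800400020008982882)))) 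
(.lf (nat_lit 537371209) (dlOf (nat_lit 1) (nat_lit 0x260028091181)))) (.nd (nat_lit 19) 
(.lf (nat_lit 3493306441) (dlOf (nat_lit 2) (nat_lit 0x31028000e4080008008000c00200040008110883))) 
(.lf (nat_lit 25141321) (dlOf (nat_lit 2) (nat_lit 0x6cbf00008018be1480))))) (.nd (nat_lit 9) 
(.nd (nat_lit 20) 
(.lf (nat_lit 1009229897) (dlOf (nat_lit 4) (nat_lit 0x381c6000e0e2001003b00053c18007038c004c0ec000f70400220e3001503b0003d41002a8008007c002004400090a0603))) 
(.lf (nat_lit 2755108937) (dlOf (nat_lit 2) (nat_lit 0x310d0000e4080008008000c00200040008110883)))) 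
(.nd (nat_lit 19) (.lf (nat_lit 1409786441) (dlOf (nat_lit 1) (nat_lit 0x260028091181))) 
(.lf (nat_lit 2752488009) (dlOf (nat_lit 2) (nat_lit 0x240a50001c818018d00))))))) (.nd (nat_lit 28) 
(.nd (nat_lit 18) (.nd (nat_lit 10) (.nd (nat_lit 8) 
(.lf (nat_lit 67877577) (dlOf (nat_lit 1) (nat_lit 0x4001833b981))) 
(.lf (nat_lit 45328841) (dlOf (nat_lit 1) (nat_lit 0x8008000400200020009324e83)))) 
(.nd (nat_lit 19) (.lf (nat_lit 4832077001) (dlOf (nat_lit 1) (nat_lit 0x200280d2d81))) 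
(.lf (nat_lit 61580489) (dlOf (nat_lit 1) (nat_lit 0x80080024002000c0009922d83))))) 
(.nd (nat_lit 21) (.nd (nat_lit 8) 
(.lf (nat_lit 1678221513) (dlOf (nat_lit 1) (nat_lit 0x200281a0481))) 
(.lf (nat_lit 39299529) (dlOf (nat_lit 1) (nat_lit 0xe8008000c00200080009194e83)))) 
(.nd (nat_lit 9) (.lf (nat_lit 52929737) (dlOf (nat_lit 1) (nat_lit 0x400400020019572d82))) 
(.lf (nat_lit 19903177) (dlOf (nat_lit 1) (nat_lit 0x4002000200089d8c82)))))) (.nd (nat_lit 8) 
(.nd (nat_lit 18) (.nd (nat_lit 22) 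
(.lf (nat_lit 3020136649) (dlOf (nat_lit 1) (nat_lit 0x400400020008130482))) 
(.lf (nat_lit 3494093001) (dlOf (nat_lit 2) (nat_lit 0x240000008e02000200081b0481)))) 
(.nd (nat_lit 9) (.lf (nat_lit 805806281) (dlOf (nat_lit 1) (nat_lit 0x200281a0481))) 
(.lf (nat_lit 1476897481) (dlOf (nat_lit 1) (nat_lit 0x1c200082d5801))))) (.nd (nat_lit 26) 
(.nd (nat_lit 11) 
(.lf (nat_lit 3490685385) (dlOf (nat_lit 1) (nat_lit 0x8008002800200040008017103))) 
(.lf (nat_lit 1880336841) (dlOf (nat_lit 1) (nat_lit 0x20028864e81)))) (.nd (nat_lit 9) 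
(.lf (nat_lit 3557011913) (dlOf (nat_lit 1) (nat_lit 0x800200040008128682))) 
(.lf (nat_lit 5704491977) (dlOf (nat_lit 1) (nat_lit 0x4004000200080d2882)))))))))) 
(.nd (nat_lit 17) (.nd (nat_lit 18) (.nd (nat_lit 6) (.nd (nat_lit 30) (.nd (nat_lit 20) 
(.nd (nat_lit 7) (.nd (nat_lit 25) (.nd (nat_lit 19) 
(.lf (nat_lit 2348916761) (dlOf (nat_lit 3) (nat_lit 0x1e015001480a0017a0080088054001002800593828020480))) 
(.nd (nat_lit 21) (.lf (nat_lit 470392857) (dlOf (nat_lit 1) (nat_lit 0x8c004000800080d0902))) 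
(.lf (nat_lit 2727961) (dlOf (nat_lit 2) (nat_lit 0x2257d0000000800380080024002000800081a0a83))))) 
(.nd (nat_lit 9) (.nd (nat_lit 21) 
(.lf (nat_lit 55156761) (dlOf (nat_lit 1) (nat_lit 0xa00096c0181))) 
(.lf (nat_lit 44671001) (dlOf (nat_lit 1) (nat_lit 0x400400020009320002)))) 
(.lf (nat_lit 50962969) (dlOf (nat_lit 1) (nat_lit 0x18008002c002001c00094d8703))))) 
(.nd (nat_lit 9) (.nd (nat_lit 21) (.nd (nat_lit 26) 
(.lf (nat_lit 805413017) (dlOf (nat_lit 3) (nat_lit 0x200900001c0400280980002048000c01a8016809400a80480000a0a001c0008090181))) 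
(.lf (nat_lit 6509666457) (dlOf (nat_lit 3) (nat_lit 0x152000000118080a680000008a040140002001200080b0182)))) 
(.lf (nat_lit 2203801) (dlOf (nat_lit 1) (nat_lit 0x240028150181)))) (.nd (nat_lit 11) 
(.lf (nat_lit 111257) (dlOf (nat_lit 1) (nat_lit 0x400200020008008c82))) 
(.lf (nat_lit 4563511961) (dlOf (nat_lit 1) (nat_lit 0x20028095501)))))) (.nd (nat_lit 21) 
(.nd (nat_lit 22) (.nd (nat_lit 23) 
(.lf (nat_lit 68263961) (dlOf (nat_lit 1) (nat_lit 0x600084d0501))) 
(.lf (nat_lit 9543705) (dlOf (nat_lit 1) (nat_lit 0x60018560481)))) 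
(.lf (nat_lit 30515225) (dlOf (nat_lit 1) (nat_lit 0x400200020008e30002)))) (.nd (nat_lit 22) 
(.nd (nat_lit 7) 
(.lf (nat_lit 28418073) (dlOf (nat_lit 2) (nat_lit 0x3663800074080010008000400200020008d90483))) 
(.lf (nat_lit 20031897) (dlOf (nat_lit 1) (nat_lit 0x200189d4e81)))) (.nd (nat_lit 9) 
(.lf (nat_lit 41525273) (dlOf (nat_lit 1) (nat_lit 0x180019240001))) 
(.lf (nat_lit 41001497) (dlOf (nat_lit 1) (nat_lit 0x400400020009208702))))))) (.nd (nat_lit 29) 
(.nd (nat_lit 31) (.nd (nat_lit 7) (.nd (nat_lit 8) 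
(.lf (nat_lit 1342808089) (dlOf (nat_lit 1) (nat_lit 0x8c004000800080d0902))) 
(.lf (nat_lit 1342290201) (dlOf (nat_lit 4) (nat_lit 0xa14e0001101001405f00006c08000853800030040014004000c001800ab02)))) 
(.lf (nat_lit 1208068505) (dlOf (nat_lit 1) (nat_lit 0x400400020008094e82)))) (.nd (nat_lit 21) 
(.nd (nat_lit 27) (.lf (nat_lit 3221331993) (dlOf (nat_lit 2) (nat_lit 0xda026001f6818090000))) 
(.lf (nat_lit 3623985177) (dlOf (nat_lit 2) (nat_lit 0x200100152c04000c00400020008070482)))) 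
(.lf (nat_lit 3491864601) (dlOf (nat_lit 1) (nat_lit 0x4000400d20008090002))))) (.nd (nat_lit 7) 
(.nd (nat_lit 26) 
(.lf (nat_lit 5905686553) (dlOf (nat_lit 2) (nat_lit 0x60000032fc0800500080024002000c00080b0003))) 
(.nd (nat_lit 27) (.lf (nat_lit 1677828121) (dlOf (nat_lit 1) (nat_lit 0x1800200020008090002))) 
(.lf (nat_lit 3959529497) (dlOf (nat_lit 1) (nat_lit 0x90008004800200060008090003))))) 
(.nd (nat_lit 8) (.nd (nat_lit 26) 
(.lf (nat_lit 5905686681) (dlOf (nat_lit 3) (nat_lit 0x152000000118080a680000008a040140002001200080b0182))) 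
(.lf (nat_lit 1677828249) (dlOf (nat_lit 3) (nat_lit 0x200900001c0400280980002048000c01a8016809400a80480000a0a001c0008090181)))) 
(.lf (nat_lit 1881252249) (dlOf (nat_lit 1) (nat_lit 0x20028e81001))))))) (.nd (nat_lit 7) 
(.nd (nat_lit 26) (.nd (nat_lit 10) (.nd (nat_lit 8) 
(.lf (nat_lit 3490816089) (dlOf (nat_lit 2) (nat_lit 0xc8280001e2040024004004a0008020982))) 
(.nd (nat_lit 11) 
(.lf (nat_lit 4026638681) (dlOf (nat_lit 1) (nat_lit 0x10008001000200080008014e03))) 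
(.lf (nat_lit 8501593) (dlOf (nat_lit 1) (nat_lit 0x2002851ab81))))) (.nd (nat_lit 8) 
(.lf (nat_lit 107609) (dlOf (nat_lit 1) (nat_lit 0x200018002901))) (.nd (nat_lit 27) 
(.lf (nat_lit 108377) (dlOf (nat_lit 1) (nat_lit 0x1c0018003f81))) 
(.lf (nat_lit 939632473) (dlOf (nat_lit 1) (nat_lit 0x20018143f81)))))) (.nd (nat_lit 19) 
(.nd (nat_lit 20) (.nd (nat_lit 27) 
(.lf (nat_lit 4630618201) (dlOf (nat_lit 1) (nat_lit 0x2000400040008020702))) 
(.lf (nat_lit 4764835929) (dlOf (nat_lit 1) (nat_lit 0x2000400040008020702)))) 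
(.lf (nat_lit 2752618585) (dlOf (nat_lit 2) (nat_lit 0x1e0a000084818020a00)))) (.nd (nat_lit 21) 
(.nd (nat_lit 29) (.lf (nat_lit 201957465) (dlOf (nat_lit 1) (nat_lit 0xe8004004000180c1a82))) 
(.lf (nat_lit 3960053849) (dlOf (nat_lit 9) (nat_lit 0x60178000480800480bc0002204001805e0000b02000e02f00040170000281000680bc0000e04001805e0000202000c02f00000810006017800000080068008001c002003c00081a1a83)))) 
(.lf (nat_lit 4096368729) (dlOf (nat_lit 2) (nat_lit 0x100000000004007c00200100008100702)))))) 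
(.nd (nat_lit 27) (.nd (nat_lit 8) (.nd (nat_lit 9) (.nd (nat_lit 22) 
(.lf (nat_lit 1140957401) (dlOf (nat_lit 1) (nat_lit 0x40004001c0008031902))) 
(.lf (nat_lit 3493961945) (dlOf (nat_lit 2) (nat_lit 0x1004c000e28181b0480)))) 
(.lf (nat_lit 57256665) (dlOf (nat_lit 17) (nat_lit 0x68aee018a5768157ab900cd55a40064ad100f8510010ea84c104141400809f100204bc0000d0500082c0850215de0650aee06f9576808da5f0000661406615de0003202221caef001c576808b25f0000620c26855de000300200a4af9005b57c02e62bbc0005c0c0a1d5de0002c0205d2aef000098103bc57c81f6abe0000200800795f00000f02003caf9027157c0000381000e2be00001a0403f15de034caed000060200a65778002ab28000060800d55de000020218f4aef010f576800000100780008011800200020009795903)))) 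
(.nd (nat_lit 10) (.lf (nat_lit 37333465) (dlOf (nat_lit 1) (nat_lit 0x4002000200090d4e82))) 
(.lf (nat_lit 61449689) (dlOf (nat_lit 1) (nat_lit 0x8008000400200020009923603))))) 
(.nd (nat_lit 32) (.nd (nat_lit 8) 
(.lf (nat_lit 134327513) (dlOf (nat_lit 2) (nat_lit 0x30248000540800580080074002000e0008006483))) 
(.lf (nat_lit 469873625) (dlOf (nat_lit 1) (nat_lit 0x320028009201)))) (.nd (nat_lit 29) 
(.lf (nat_lit 5503033561) (dlOf (nat_lit 1) (nat_lit 0x20028031901))) 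
(.lf (nat_lit 4966162649) (dlOf (nat_lit 1) (nat_lit 0x800400020008031902)))))))) (.nd (nat_lit 28) 
(.nd (nat_lit 6) (.nd (nat_lit 22) (.nd (nat_lit 26) (.nd (nat_lit 24) (.nd (nat_lit 10) 
(.nd (nat_lit 27) 
(.lf (nat_lit 6442819609) (dlOf (nat_lit 4) (nat_lit 0x200200114c020006010008a581000800800451c0800d80080028002001600081c0903))) 
(.lf (nat_lit 134586393) (dlOf (nat_lit 1) (nat_lit 0x3c00400060008080502)))) 
(.lf (nat_lit 8764441) (dlOf (nat_lit 1) (nat_lit 0x40040002000851bf02)))) (.nd (nat_lit 8) 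
(.nd (nat_lit 20) (.lf (nat_lit 17670169) (dlOf (nat_lit 1) (nat_lit 0x1800088f0901))) 
(.lf (nat_lit 27107353) (dlOf (nat_lit 1) (nat_lit 0x400200020008ca0482)))) 
(.lf (nat_lit 20298009) (dlOf (nat_lit 1) (nat_lit 0x5a00289dab01))))) (.nd (nat_lit 27) 
(.nd (nat_lit 29) 
(.lf (nat_lit 4362444825) (dlOf (nat_lit 3) (nat_lit 0x603300a870100140238051f80800e0008006400200340008080503))) 
(.nd (nat_lit 30) 
(.lf (nat_lit 604348441) (dlOf (nat_lit 2) (nat_lit 0x1800000038040064002002c0008190482))) 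
(.lf (nat_lit 1678090265) (dlOf (nat_lit 1) (nat_lit 0x20018180501))))) (.nd (nat_lit 30) 
(.lf (nat_lit 201695257) (dlOf (nat_lit 1) (nat_lit 0x3c00400060008080502))) 
(.lf (nat_lit 5570404377) (dlOf (nat_lit 1) (nat_lit 0x20028140181)))))) (.nd (nat_lit 19) 
(.nd (nat_lit 8) (.nd (nat_lit 20) 
(.lf (nat_lit 2756026393) (dlOf (nat_lit 1) (nat_lit 0x4004000200181d0a02))) 
(.lf (nat_lit 16097305) (dlOf (nat_lit 1) (nat_lit 0x8008001c00200100008860503)))) 
(.lf (nat_lit 29729049) (dlOf (nat_lit 1) (nat_lit 0x40018e30701)))) (.nd (nat_lit 20) 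
(.lf (nat_lit 15573017) (dlOf (nat_lit 1) (nat_lit 0x8008000400200020008800503))) (.nd (nat_lit 21) 
(.lf (nat_lit 22913049) (dlOf (nat_lit 2) (nat_lit 0x546f1000494040014004001c0008b40482))) 
(.lf (nat_lit 25010201) (dlOf (nat_lit 1) (nat_lit 0x40028bd0a81))))))) (.nd (nat_lit 21) 
(.nd (nat_lit 8) (.nd (nat_lit 9) (.nd (nat_lit 26) 
(.lf (nat_lit 1610981465) (dlOf (nat_lit 3) (nat_lit 0xbc0aa005a0370001d02006702a801480dc0000e080020004000e00080b0702))) 
(.lf (nat_lit 738566233) (dlOf (nat_lit 3) (nat_lit 0xbc0aa005a0370001c02006702a801480dc0000e080020004000e00080b0702)))) 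
(.lf (nat_lit 34974297) (dlOf (nat_lit 1) (nat_lit 0x388008004400200260008fb5303)))) 
(.nd (nat_lit 26) (.lf (nat_lit 4295342425) (dlOf (nat_lit 1) (nat_lit 0x72001811ab81))) 
(.lf (nat_lit 2751838553) (dlOf (nat_lit 1) (nat_lit 0x19000800080020082000800ab83))))) 
(.nd (nat_lit 7) (.nd (nat_lit 19) 
(.lf (nat_lit 2753929305) (dlOf (nat_lit 2) (nat_lit 0xe821c0002404002c002000c00080a1182))) 
(.lf (nat_lit 53321817) (dlOf (nat_lit 3) (nat_lit 0x247c20002902000449400012819590700)))) 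
(.nd (nat_lit 8) (.nd (nat_lit 9) 
(.lf (nat_lit 45981913) (dlOf (nat_lit 1) (nat_lit 0xc00400020009380982))) 
(.lf (nat_lit 20298457) (dlOf (nat_lit 1) (nat_lit 0xc80080004002002800089db983)))) 
(.lf (nat_lit 52798937) (dlOf (nat_lit 1) (nat_lit 0x2b000400f00009573602))))))) (.nd (nat_lit 27) 
(.nd (nat_lit 31) (.nd (nat_lit 29) (.nd (nat_lit 6) (.nd (nat_lit 20) 
(.lf (nat_lit 1342545945) (dlOf (nat_lit 1) (nat_lit 0x16400200660008050b02))) 
(.lf (nat_lit 1343594521) (dlOf (nat_lit 2) (nat_lit 0x2011c0006b02000600182b0481)))) 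
(.lf (nat_lit 4563771481) (dlOf (nat_lit 1) (nat_lit 0x1200080d0681)))) (.nd (nat_lit 30) 
(.lf (nat_lit 805675033) (dlOf (nat_lit 1) (nat_lit 0x20018180501))) 
(.lf (nat_lit 6174384153) (dlOf (nat_lit 1) (nat_lit 0x20028140181))))) (.nd (nat_lit 6) 
(.nd (nat_lit 22) (.lf (nat_lit 3020267545) (dlOf (nat_lit 1) (nat_lit 0x200281e0501))) 
(.lf (nat_lit 3494223897) (dlOf (nat_lit 1) (nat_lit 0x4004000200181d0a02)))) (.nd (nat_lit 8) 
(.lf (nat_lit 3492126809) (dlOf (nat_lit 2) (nat_lit 0xe82280004a04002c002000c00080a1182))) 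
(.lf (nat_lit 3490557273) (dlOf (nat_lit 1) (nat_lit 0x60018006a81)))))) (.nd (nat_lit 30) 
(.nd (nat_lit 6) (.nd (nat_lit 31) 
(.lf (nat_lit 470130713) (dlOf (nat_lit 1) (nat_lit 0x16400200660008050b02))) 
(.lf (nat_lit 2617614361) (dlOf (nat_lit 2) (nat_lit 0xda02d000b0158000001000780080098002009a0008100483)))) 
(.lf (nat_lit 4697989209) (dlOf (nat_lit 1) (nat_lit 0x1200080d0681)))) (.nd (nat_lit 26) 
(.lf (nat_lit 1476763673) (dlOf (nat_lit 2) (nat_lit 0x180000003a040064002002c0008190482))) 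
(.nd (nat_lit 29) 
(.lf (nat_lit 5838839833) (dlOf (nat_lit 4) (nat_lit 0x20020011400200060100089f8100080080044ec0800d80080028002001600081c0903))) 
(.lf (nat_lit 4228227097) (dlOf (nat_lit 3) (nat_lit 0x603200b3e8100140200057b40800e0008006400200340008080503))))))))) 
(.nd (nat_lit 19) (.nd (nat_lit 28) (.nd (nat_lit 21) (.nd (nat_lit 23) (.nd (nat_lit 32) 
(.nd (nat_lit 7) (.nd (nat_lit 26) 
(.lf (nat_lit 2819072025) (dlOf (nat_lit 5) (nat_lit 0x1d01c8001c0d401b403f0002c830069021003d00d8000a8080228084000520200ca042004a01b00012c100060008002c00200080008190483))) 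
(.lf (nat_lit 1678221337) (dlOf (nat_lit 2) (nat_lit 0xd02b001f64080140008001c002009e00081a0003)))) 
(.lf (nat_lit 2684597401) (dlOf (nat_lit 1) (nat_lit 0x880080010002000600080a9503)))) 
(.nd (nat_lit 7) (.nd (nat_lit 27) 
(.lf (nat_lit 4295204889) (dlOf (nat_lit 1) (nat_lit 0x4004000200080b0a02))) 
(.lf (nat_lit 4429422617) (dlOf (nat_lit 1) (nat_lit 0x4004000200080b0a02)))) 
(.lf (nat_lit 4899187609) (dlOf (nat_lit 1) (nat_lit 0x200280d5c81))))) (.nd (nat_lit 8) 
(.nd (nat_lit 18) (.lf (nat_lit 29597721) (dlOf (nat_lit 1) (nat_lit 0x8008000400200080008e20483))) 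
(.lf (nat_lit 13082649) (dlOf (nat_lit 2) (nat_lit 0x69140002402000200186f0401)))) (.nd (nat_lit 6) 
(.lf (nat_lit 8632601) (dlOf (nat_lit 1) (nat_lit 0x2c002851ab01))) 
(.lf (nat_lit 9675097) (dlOf (nat_lit 1) (nat_lit 0x40018574e01)))))) (.nd (nat_lit 18) 
(.nd (nat_lit 6) (.nd (nat_lit 9) 
(.lf (nat_lit 15966233) (dlOf (nat_lit 2) (nat_lit 0x50c58014a4080010008000400200060008850683))) 
(.lf (nat_lit 41132569) (dlOf (nat_lit 2) (nat_lit 0x2758800114080008008000c00200020009227e83)))) 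
(.nd (nat_lit 7) (.lf (nat_lit 24354905) (dlOf (nat_lit 2) (nat_lit 0x204f2000250200340028b91181))) 
(.lf (nat_lit 20167385) (dlOf (nat_lit 1) (nat_lit 0xb00080004002002a00089db983))))) 
(.nd (nat_lit 7) (.nd (nat_lit 9) 
(.lf (nat_lit 48734233) (dlOf (nat_lit 1) (nat_lit 0x400400020019420102))) 
(.lf (nat_lit 58171929) (dlOf (nat_lit 1) (nat_lit 0x880080080002004600097c7e83)))) 
(.nd (nat_lit 6) (.lf (nat_lit 61318553) (dlOf (nat_lit 1) (nat_lit 0x9800800f000200240009923603))) 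
(.lf (nat_lit 61318617) (dlOf (nat_lit 1) (nat_lit 0x400400020009923602))))))) (.nd (nat_lit 6) 
(.nd (nat_lit 18) (.nd (nat_lit 10) (.nd (nat_lit 7) 
(.lf (nat_lit 469999641) (dlOf (nat_lit 2) (nat_lit 0x27448e0011d0200020018020481))) 
(.lf (nat_lit 5100514201) (dlOf (nat_lit 1) (nat_lit 0x200280d5c81)))) (.nd (nat_lit 26) 
(.lf (nat_lit 6174254361) (dlOf (nat_lit 1) (nat_lit 0x4004000200080d3082))) 
(.lf (nat_lit 5704492313) (dlOf (nat_lit 1) (nat_lit 0x4004000200080d3082))))) (.nd (nat_lit 21) 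
(.nd (nat_lit 20) (.nd (nat_lit 26) 
(.lf (nat_lit 805806105) (dlOf (nat_lit 3) (nat_lit 0x2102b00354c0800300dc012da04011c004004600081a0002))) 
(.lf (nat_lit 4228358169) (dlOf (nat_lit 1) (nat_lit 0x60018090001)))) 
(.lf (nat_lit 1343725593) (dlOf (nat_lit 1) (nat_lit 0x400200020008340482)))) (.nd (nat_lit 7) 
(.lf (nat_lit 1009229849) (dlOf (nat_lit 1) (nat_lit 0x400090a0101))) 
(.lf (nat_lit 1344775321) (dlOf (nat_lit 1) (nat_lit 0x8008000800200020008982b83)))))) 
(.nd (nat_lit 26) (.nd (nat_lit 8) (.nd (nat_lit 27) (.nd (nat_lit 30) 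
(.lf (nat_lit 4563640409) (dlOf (nat_lit 12) (nat_lit 0x1a0068013402f003800f8000501809880d003ac06402bc02f016e016809f007c025c02a000130c00b402d000088100b301680040048000200800b006800ae02f0000582000b0178000280806280d0009806401ec02f00cd0168063007c027802a000070c003602f00020168000181000580bc000040400a405e002802d00000820045017800000080260008015c002000c00080b0703))) 
(.lf (nat_lit 1342414937) (dlOf (nat_lit 3) (nat_lit 0xca1238008bc08064091c0045c04000800200060008020982)))) 
(.lf (nat_lit 4697858137) (dlOf (nat_lit 12) (nat_lit 0x1a0068013402f003800f8000501809880d003ac06402bc02f016e016809f007c025c02a000130c00b402d000088100b301680040048000200800b006800ae02f0000582000b0178000280806280d0009806401ec02f00cd0168063007c027802a000070c003602f00020168000181000580bc000040400a405e002802d00000820045017800000080260008015c002000c00080b0703)))) 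
(.nd (nat_lit 7) 
(.lf (nat_lit 805544281) (dlOf (nat_lit 1) (nat_lit 0x100008006800200580008124d83))) 
(.lf (nat_lit 6174254553) (dlOf (nat_lit 1) (nat_lit 0x80080004002000200080d3603))))) 
(.nd (nat_lit 7) (.nd (nat_lit 20) 
(.lf (nat_lit 1009229913) (dlOf (nat_lit 1) (nat_lit 0x18004001c00090a0802))) 
(.lf (nat_lit 4095189081) (dlOf (nat_lit 2) (nat_lit 0x10b0000800000000008006c00200040008070702)))) 
(.nd (nat_lit 8) (.lf (nat_lit 471310553) (dlOf (nat_lit 1) (nat_lit 0x2400282e0501))) 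
(.lf (nat_lit 5704492505) (dlOf (nat_lit 1) (nat_lit 0x4004000200080d3602)))))))) (.nd (nat_lit 24) 
(.nd (nat_lit 20) (.nd (nat_lit 6) (.nd (nat_lit 9) (.nd (nat_lit 7) (.nd (nat_lit 21) 
(.lf (nat_lit 2819334169) (dlOf (nat_lit 9) (nat_lit 0x10350000a00800101e000100e4000606a0005025800280fc0003414002c0f000020720007035000301780014096000a03f0000c86000503c000501c8000c0d4000605e000b01f8000602800381e000180e4000a05e0007025800480fc0002e14001c0f00010072000703500010178000c096000e03f0000a06000703c000281c8001c0d4000c05e0006025800200fc000261800140e4001406a000501f800000180080008007000200160008240503))) 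
(.lf (nat_lit 1345036313) (dlOf (nat_lit 1) (nat_lit 0x200189d0601)))) 
(.lf (nat_lit 67877017) (dlOf (nat_lit 1) (nat_lit 0xe002833a881)))) (.nd (nat_lit 18) 
(.lf (nat_lit 69968409) (dlOf (nat_lit 3) (nat_lit 0xb82f4003e204006817a001740200180028e28701))) 
(.lf (nat_lit 40870425) (dlOf (nat_lit 1) (nat_lit 0x20029208701))))) (.nd (nat_lit 18) 
(.nd (nat_lit 9) (.lf (nat_lit 9150553) (dlOf (nat_lit 1) (nat_lit 0x400400020008521882))) 
(.lf (nat_lit 1881909849) (dlOf (nat_lit 1) (nat_lit 0x400200020009165302)))) (.nd (nat_lit 7) 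
(.lf (nat_lit 2752487769) (dlOf (nat_lit 1) (nat_lit 0x20028014e01))) 
(.lf (nat_lit 42968281) (dlOf (nat_lit 1) (nat_lit 0x200192a2d81)))))) (.nd (nat_lit 8) 
(.nd (nat_lit 18) (.nd (nat_lit 6) 
(.lf (nat_lit 471572505) (dlOf (nat_lit 2) (nat_lit 0x2011c0006b0200060018340481))) 
(.lf (nat_lit 8102489) (dlOf (nat_lit 1) (nat_lit 0x8008000400200140008511683)))) (.nd (nat_lit 21) 
(.lf (nat_lit 6377414745) (dlOf (nat_lit 1) (nat_lit 0x200180d1b81))) 
(.lf (nat_lit 12558425) (dlOf (nat_lit 1) (nat_lit 0x80080004002000200086d1183))))) 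
(.nd (nat_lit 7) (.lf (nat_lit 50046297) (dlOf (nat_lit 1) (nat_lit 0x4002000200094c3382))) 
(.nd (nat_lit 10) (.lf (nat_lit 8102361) (dlOf (nat_lit 1) (nat_lit 0x400400120008511202))) 
(.lf (nat_lit 8103385) (dlOf (nat_lit 1) (nat_lit 0x18008000400200020008513603))))))) 
(.nd (nat_lit 18) (.nd (nat_lit 21) (.nd (nat_lit 20) (.nd (nat_lit 9) (.nd (nat_lit 22) 
(.lf (nat_lit 59482137) (dlOf (nat_lit 1) (nat_lit 0x280080028002000e0009800103))) 
(.lf (nat_lit 21733401) (dlOf (nat_lit 6) (nat_lit 0x3613b006c701001e09d8036100800e05140034284001213900060748035482001f8514002028400060e9006a883000107480266c080340008021c002000a0008a60a03)))) 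
(.lf (nat_lit 51094041) (dlOf (nat_lit 4) (nat_lit 0x616fa0004502000eb7d000218100045be80000008024000800dc002002200094f7e83)))) 
(.nd (nat_lit 23) (.lf (nat_lit 18587673) (dlOf (nat_lit 1) (nat_lit 0xb000400240008950682))) 
(.lf (nat_lit 60530713) (dlOf (nat_lit 1) (nat_lit 0xe0029890501))))) (.nd (nat_lit 6) 
(.nd (nat_lit 7) (.nd (nat_lit 8) 
(.lf (nat_lit 23830553) (dlOf (nat_lit 1) (nat_lit 0x2800400020008b80002))) 
(.lf (nat_lit 23830809) (dlOf (nat_lit 1) (nat_lit 0xc00400040008b80482)))) 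
(.lf (nat_lit 19640985) (dlOf (nat_lit 1) (nat_lit 0x80080004002000200089d8c83)))) (.nd (nat_lit 7) 
(.lf (nat_lit 19636825) (dlOf (nat_lit 1) (nat_lit 0x80080004002000200089d1683))) 
(.lf (nat_lit 19640537) (dlOf (nat_lit 1) (nat_lit 0x2c00289d8081)))))) (.nd (nat_lit 7) 
(.nd (nat_lit 6) (.nd (nat_lit 20) 
(.lf (nat_lit 53452825) (dlOf (nat_lit 1) (nat_lit 0x400095e0181))) 
(.lf (nat_lit 20946969) (dlOf (nat_lit 1) (nat_lit 0xa00089f0101)))) 
(.lf (nat_lit 24092761) (dlOf (nat_lit 1) (nat_lit 0x15c0008b80001)))) (.nd (nat_lit 8) 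
(.lf (nat_lit 19901081) (dlOf (nat_lit 1) (nat_lit 0x44004002000089d5502))) 
(.lf (nat_lit 58698137) (dlOf (nat_lit 1) (nat_lit 0x200197e4e81)))))))))) (.nd (nat_lit 17) 
(.nd (nat_lit 4) (.nd (nat_lit 18) (.nd (nat_lit 28) (.nd (nat_lit 6) (.nd (nat_lit 19) 
(.nd (nat_lit 8) (.nd (nat_lit 21) (.nd (nat_lit 29) (.nd (nat_lit 7) 
(.lf (nat_lit 6509666345) (dlOf (nat_lit 2) (nat_lit 0x21000000e2a0400ac002002000080b0002))) 
(.lf (nat_lit 6509666473) (dlOf (nat_lit 1) (nat_lit 0x200280b0281)))) (.nd (nat_lit 26) 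
(.lf (nat_lit 5905686697) (dlOf (nat_lit 1) (nat_lit 0x200280b0281))) 
(.lf (nat_lit 1677828265) (dlOf (nat_lit 1) (nat_lit 0x240018090281))))) (.nd (nat_lit 20) 
(.nd (nat_lit 23) (.lf (nat_lit 18980905) (dlOf (nat_lit 1) (nat_lit 0x20008970001))) 
(.lf (nat_lit 27369513) (dlOf (nat_lit 1) (nat_lit 0x40018cd0781)))) (.nd (nat_lit 9) 
(.lf (nat_lit 20032553) (dlOf (nat_lit 1) (nat_lit 0x1400089d6081))) 
(.lf (nat_lit 41001513) (dlOf (nat_lit 1) (nat_lit 0x28008000400200020009208903)))))) 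
(.nd (nat_lit 7) (.nd (nat_lit 27) (.nd (nat_lit 9) 
(.lf (nat_lit 59875625) (dlOf (nat_lit 1) (nat_lit 0x20029840b01))) 
(.lf (nat_lit 113449) (dlOf (nat_lit 4) (nat_lit 0x1c9d20055802001468200192748015441000213a400a9204005c0020002000800bc82)))) 
(.nd (nat_lit 10) (.lf (nat_lit 671197481) (dlOf (nat_lit 1) (nat_lit 0x40018144b81))) 
(.lf (nat_lit 6576778537) (dlOf (nat_lit 1) (nat_lit 0x400400020008146802))))) (.nd (nat_lit 9) 
(.lf (nat_lit 20031913) (dlOf (nat_lit 1) (nat_lit 0x200189d4e81))) (.nd (nat_lit 10) 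
(.lf (nat_lit 113577) (dlOf (nat_lit 4) (nat_lit 0x9341000413a4001c9b0002290600026820007274800593600043a0c0028d0400144e9000926c00085418001000800200020008000800bd03))) 
(.lf (nat_lit 536979369) (dlOf (nat_lit 1) (nat_lit 0x220018004301))))))) (.nd (nat_lit 20) 
(.nd (nat_lit 26) (.nd (nat_lit 22) (.nd (nat_lit 27) (.nd (nat_lit 29) 
(.lf (nat_lit 3221856297) (dlOf (nat_lit 8) (nat_lit 0xa03e000600e000c80380024018000c004003d00000006430011803800030040014038003e00e000100200005c180060070007c01c001000c0005002001c00000002c14007801c0001502005800e000400200005010010003800026040270002006600081a0c02))) 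
(.lf (nat_lit 537501737) (dlOf (nat_lit 1) (nat_lit 0x4004000400180a0982)))) 
(.lf (nat_lit 134848553) (dlOf (nat_lit 2) (nat_lit 0x900000001702001400280c0c01)))) 
(.lf (nat_lit 21602345) (dlOf (nat_lit 1) (nat_lit 0x1680080008002005c0008a50a83)))) 
(.nd (nat_lit 8) (.nd (nat_lit 29) 
(.lf (nat_lit 201957417) (dlOf (nat_lit 1) (nat_lit 0x200280c0d01))) 
(.lf (nat_lit 3960053801) (dlOf (nat_lit 3) (nat_lit 0x2801c0001602000400e0000a0181a0d00)))) 
(.lf (nat_lit 69839657) (dlOf (nat_lit 2) (nat_lit 0x64162000d1818cd5c00))))) (.nd (nat_lit 7) 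
(.nd (nat_lit 21) (.lf (nat_lit 18456617) (dlOf (nat_lit 1) (nat_lit 0x624004001e0008940882))) 
(.nd (nat_lit 22) 
(.lf (nat_lit 3776553) (dlOf (nat_lit 3) (nat_lit 0xc000006fe010001af28033240800080080028002000a0008220a03))) 
(.lf (nat_lit 24748073) (dlOf (nat_lit 8) (nat_lit 0x297a8000abbd0000d82001a5ea00092ef4000974a00019060012bd40000c0100065ea0002aef40001608001d7a80000a020014bd4000048100065ea0000200800680080030002001a0008bb0a83))))) 
(.lf (nat_lit 20556713) (dlOf (nat_lit 1) (nat_lit 0x80080004002000200089d5d03)))))) 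
(.nd (nat_lit 10) (.nd (nat_lit 7) (.nd (nat_lit 8) (.nd (nat_lit 9) 
(.lf (nat_lit 12689513) (dlOf (nat_lit 2) (nat_lit 0x36cd0c00483db000080286d1400))) 
(.lf (nat_lit 2147592809) (dlOf (nat_lit 1) (nat_lit 0x400400020008095382)))) (.nd (nat_lit 9) 
(.lf (nat_lit 43098473) (dlOf (nat_lit 1) (nat_lit 0x580080020002000e00092a0f03))) 
(.lf (nat_lit 134331241) (dlOf (nat_lit 1) (nat_lit 0xb80080014002000c000800bc83))))) 
(.nd (nat_lit 8) (.nd (nat_lit 11) 
(.lf (nat_lit 3221332201) (dlOf (nat_lit 2) (nat_lit 0x160200004c018090480))) 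
(.lf (nat_lit 201435369) (dlOf (nat_lit 1) (nat_lit 0x300018004b01)))) 
(.lf (nat_lit 6576777705) (dlOf (nat_lit 1) (nat_lit 0x400400020008144e82))))) (.nd (nat_lit 7) 
(.nd (nat_lit 26) (.nd (nat_lit 8) 
(.lf (nat_lit 8496745) (dlOf (nat_lit 1) (nat_lit 0x44002003c0008513902))) 
(.lf (nat_lit 2818680169) (dlOf (nat_lit 3) (nat_lit 0x38058001c02a001400e0009006000a00180028008000c0000001f0700190030000e80800e00080054002000400080d3483)))) 
(.nd (nat_lit 27) (.lf (nat_lit 4899055209) (dlOf (nat_lit 1) (nat_lit 0x40018053901))) 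
(.lf (nat_lit 5570143849) (dlOf (nat_lit 1) (nat_lit 0xc00200060008053902))))) (.nd (nat_lit 8) 
(.nd (nat_lit 11) 
(.lf (nat_lit 7976169) (dlOf (nat_lit 2) (nat_lit 0x162b08010d8080068008002000200180008519503))) 
(.lf (nat_lit 2754718953) (dlOf (nat_lit 2) (nat_lit 0xc201c000168180f6500)))) 
(.lf (nat_lit 8499177) (dlOf (nat_lit 1) (nat_lit 0x28008000400200020008517a83))))))) 
(.nd (nat_lit 6) (.nd (nat_lit 19) (.nd (nat_lit 8) (.nd (nat_lit 27) (.nd (nat_lit 21) 
(.lf (nat_lit 805413033) (dlOf (nat_lit 1) (nat_lit 0x240018090281))) 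
(.lf (nat_lit 3491864745) (dlOf (nat_lit 1) (nat_lit 0x18008000400200020008090283)))) 
(.nd (nat_lit 9) (.lf (nat_lit 2013372585) (dlOf (nat_lit 1) (nat_lit 0x400400020008031482))) 
(.lf (nat_lit 5838581417) (dlOf (nat_lit 1) (nat_lit 0x1200180f7201))))) (.nd (nat_lit 7) 
(.nd (nat_lit 9) (.lf (nat_lit 4095845673) (dlOf (nat_lit 1) (nat_lit 0x200280e3181))) 
(.lf (nat_lit 1346480937) (dlOf (nat_lit 2) (nat_lit 0x38152000b0490007cc100068008007400200100008f65c03)))) 
(.nd (nat_lit 9) (.lf (nat_lit 4697728425) (dlOf (nat_lit 1) (nat_lit 0x140028093601))) 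
(.lf (nat_lit 5637254057) (dlOf (nat_lit 10) (nat_lit 0xf80540008a04007c02a0001702000601500080020000581000f80540002a04007c02a0001302003c0150000901002500a800580100002208005802a000020200340150008002000000100040008002c00200020008055d03)))))) 
(.nd (nat_lit 26) (.nd (nat_lit 9) (.nd (nat_lit 21) 
(.lf (nat_lit 1342808105) (dlOf (nat_lit 1) (nat_lit 0x4002000200080d0982))) 
(.lf (nat_lit 3492388905) (dlOf (nat_lit 2) (nat_lit 0x3200a000110180c0c00)))) (.nd (nat_lit 11) 
(.lf (nat_lit 5774090793) (dlOf (nat_lit 2) (nat_lit 0x80000006602002200080f8901))) 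
(.lf (nat_lit 1880730153) (dlOf (nat_lit 1) (nat_lit 0x400400020008b55182))))) (.nd (nat_lit 20) 
(.nd (nat_lit 27) (.lf (nat_lit 1409916969) (dlOf (nat_lit 1) (nat_lit 0x4004000400180a0982))) 
(.lf (nat_lit 470392873) (dlOf (nat_lit 1) (nat_lit 0x4002000200080d0982)))) 
(.lf (nat_lit 471441449) (dlOf (nat_lit 2) (nat_lit 0x130b28000f4080010008001000200040008300b03)))))) 
(.nd (nat_lit 7) (.nd (nat_lit 27) (.nd (nat_lit 8) 
(.lf (nat_lit 2952896617) (dlOf (nat_lit 1) (nat_lit 0x400200040008010282))) (.nd (nat_lit 10) 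
(.lf (nat_lit 1881252201) (dlOf (nat_lit 1) (nat_lit 0x20028e80f01))) 
(.lf (nat_lit 4093748585) (dlOf (nat_lit 3) (nat_lit 0x5c0540003002000402a0000e818003480))))) 
(.nd (nat_lit 10) (.nd (nat_lit 21) 
(.lf (nat_lit 470392937) (dlOf (nat_lit 2) (nat_lit 0xa08ac00043e600b41ee00450c10009800000020140004004000200180d1402))) 
(.lf (nat_lit 1009361001) (dlOf (nat_lit 1) (nat_lit 0x40009120781)))) 
(.lf (nat_lit 469875817) (dlOf (nat_lit 4) (nat_lit 0x80a70000880800505380004004001c29c00018020004000800c081))))) 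
(.nd (nat_lit 8) (.nd (nat_lit 10) 
(.lf (nat_lit 805413097) (dlOf (nat_lit 1) (nat_lit 0x4400200040008090482))) 
(.lf (nat_lit 6241232105) (dlOf (nat_lit 1) (nat_lit 0x20018052e81)))) (.nd (nat_lit 9) 
(.nd (nat_lit 26) (.lf (nat_lit 2550243817) (dlOf (nat_lit 1) (nat_lit 0x20018017301))) 
(.lf (nat_lit 1946264041) (dlOf (nat_lit 1) (nat_lit 0xc00400060008017302)))) 
(.lf (nat_lit 1342288873) (dlOf (nat_lit 1) (nat_lit 0x4a0028009201)))))))) (.nd (nat_lit 28) 
(.nd (nat_lit 7) (.nd (nat_lit 19) (.nd (nat_lit 29) (.nd (nat_lit 23) (.nd (nat_lit 6) 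
(.lf (nat_lit 3355811881) (dlOf (nat_lit 24) (nat_lit 0x2e021021900f00878064008402a02240100150000000158300cc8078043c0000005504004e01e000288100e1010819a807800c80120004e0600d401e000260101340180062008406d803c025201b000700a8094004001000120004a0e0004030000248101c0016002e80a4013004203f801e024f00d811880240008a18024005801fc01b00f50048001101804800b0000c03c028001b012900480010c200cd8040000840406100200003c02019401e002900d802500400006e0c0480060002001b00a000c80d80060043002000a800702c00018130800000064200364060040a01e00fc00c0057804000b400603be0000001886007500c00538000000600803000000002f0204ec018039a0000000b410180800000058040a64000000170200b003000c000f005580680308030006e01000830028055800c0228000000131000a8000000090100ef00d0073005800000080c7000202f20008120682))) 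
(.nd (nat_lit 30) 
(.lf (nat_lit 6442819689) (dlOf (nat_lit 1) (nat_lit 0x380080098002003e00081c1403))) 
(.lf (nat_lit 1074110569) (dlOf (nat_lit 1) (nat_lit 0x4002000200080a1402))))) (.nd (nat_lit 11) 
(.nd (nat_lit 20) 
(.lf (nat_lit 48603177) (dlOf (nat_lit 1) (nat_lit 0x2c00080030002008a0009420203))) 
(.lf (nat_lit 9805865) (dlOf (nat_lit 1) (nat_lit 0x58008002000200120008580283)))) (.nd (nat_lit 8) 
(.lf (nat_lit 8759337) (dlOf (nat_lit 1) (nat_lit 0xf00008514701))) 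
(.lf (nat_lit 60140329) (dlOf (nat_lit 1) (nat_lit 0x20029845c01)))))) (.nd (nat_lit 31) 
(.nd (nat_lit 26) (.lf (nat_lit 671457321) (dlOf (nat_lit 1) (nat_lit 0x20004000600081a0602))) 
(.nd (nat_lit 30) (.lf (nat_lit 4899315753) (dlOf (nat_lit 1) (nat_lit 0x40028100281))) 
(.lf (nat_lit 1678090281) (dlOf (nat_lit 7) (nat_lit 0x518154000c0a801340530092027000a0130012408a00ba037006a018800b0058015802400c8000000080b000e02980003c080168158008c0a6000404e0014025000880dc0064064012c013000f009000900280001c24011c0260000d0200340530000401001a00980000c080110008002c00200120008180803))))) 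
(.nd (nat_lit 6) (.nd (nat_lit 21) 
(.lf (nat_lit 2756026409) (dlOf (nat_lit 5) (nat_lit 0x822b0005115000308a4001443a000a215006a9050005115800288a8001c452000821d000410a8035442800508ac00244540004229000710a8035402000388ac0024454001c229000810a80353c2000080080004002000200081d0a03))) 
(.lf (nat_lit 2753929257) (dlOf (nat_lit 1) (nat_lit 0xc002000400080a0982)))) 
(.lf (nat_lit 2753929321) (dlOf (nat_lit 3) (nat_lit 0xb04380005408001004800026040068002001200080a1402)))))) 
(.nd (nat_lit 20) (.nd (nat_lit 9) (.nd (nat_lit 24) 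
(.lf (nat_lit 5087273) (dlOf (nat_lit 1) (nat_lit 0x40028300681))) 
(.lf (nat_lit 21864489) (dlOf (nat_lit 1) (nat_lit 0x20008a70501)))) 
(.lf (nat_lit 36547113) (dlOf (nat_lit 1) (nat_lit 0x10008002800200160009075183)))) 
(.nd (nat_lit 22) (.lf (nat_lit 27107369) (dlOf (nat_lit 1) (nat_lit 0x2400200300008ca0682))) 
(.nd (nat_lit 23) 
(.lf (nat_lit 22913065) (dlOf (nat_lit 27) (nat_lit 0x2cbb060177d7e0161eb900bdf5c005f395e011bbc90150ddc00c06db0005f6ca0301b370020667000427480700000000561a0273caf018c000000154100be8000000a804001f95e0104000000298201640000001480801376c401efb2c00bbd930022ea70001442000a76c4025fb2c018dd930018eb90032f540023ba9c0042ddf0034668001d322000e18f00166000000270b000eea70001300801333400008a04032c00000032020148000000188100156b38000b4080216f100004804006c0000001f0200200000000e81002cde20000580804bf2bc000b7880117b6c0029d9b803980000002614019000000012020025bcb00007010094de5800028080176f2c0001204024f78800008020241bc400003010123de200001008091ef100000604025b7960181bc40011000000000180008008004000202600008b40683)))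 
(.lf (nat_lit 14524457) (dlOf (nat_lit 1) (nat_lit 0x800400020018760902))))))) (.nd (nat_lit 6) 
(.nd (nat_lit 10) (.nd (nat_lit 9) (.nd (nat_lit 11) 
(.lf (nat_lit 8233385) (dlOf (nat_lit 1) (nat_lit 0x58008001400200140008511003))) 
(.lf (nat_lit 8239529) (dlOf (nat_lit 1) (nat_lit 0x2001851af81)))) 
(.lf (nat_lit 2754460585) (dlOf (nat_lit 1) (nat_lit 0x8008000c002000200080fbd03)))) 
(.nd (nat_lit 8) (.lf (nat_lit 47555753) (dlOf (nat_lit 1) (nat_lit 0x30008000800200040009402c03))) 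
(.lf (nat_lit 2754461097) (dlOf (nat_lit 1) (nat_lit 0x18008006c002002a00080fcb83))))) 
(.nd (nat_lit 10) (.nd (nat_lit 8) (.nd (nat_lit 11) 
(.lf (nat_lit 19243241) (dlOf (nat_lit 1) (nat_lit 0x2800200020008970602))) 
(.lf (nat_lit 2751834345) (dlOf (nat_lit 1) (nat_lit 0x20018004b01)))) 
(.lf (nat_lit 43361257) (dlOf (nat_lit 3) (nat_lit 0x22bfc009210200075fe0047a8192a2880)))) 
(.nd (nat_lit 11) (.lf (nat_lit 8758505) (dlOf (nat_lit 1) (nat_lit 0x20018512e81))) 
(.lf (nat_lit 2754981097) (dlOf (nat_lit 2) (nat_lit 0x17201c000168180f6500))))))) 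
(.nd (nat_lit 30) (.nd (nat_lit 6) (.nd (nat_lit 27) (.nd (nat_lit 29) 
(.lf (nat_lit 4563771433) (dlOf (nat_lit 3) (nat_lit 0x30168000340800280b40000404000c004000a00080d0282))) 
(.lf (nat_lit 805675049) (dlOf (nat_lit 3) (nat_lit 0x6c0a600260430000a020002016800044080018008010400200320008180883)))) 
(.nd (nat_lit 26) 
(.lf (nat_lit 4697989161) (dlOf (nat_lit 3) (nat_lit 0x30168000340800280b40000404000c004000a00080d0282))) 
(.lf (nat_lit 2617614377) (dlOf (nat_lit 17) (nat_lit 0xa40000005602030a02d000250100070168001240806e80c8026c060008e02d00fb0148001142001100b400280520004404000202d0002181011f0168001080801500b40007804027005a00037020018030012c01680f10060039800600680000001905005a016801880600006208000803000030020372018011a0000000b41007a0000000580401cc0300001702020a01800009818100680))))) 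
(.nd (nat_lit 7) (.nd (nat_lit 27) 
(.lf (nat_lit 4563771497) (dlOf (nat_lit 1) (nat_lit 0x200280d0781))) 
(.lf (nat_lit 4697989225) (dlOf (nat_lit 1) (nat_lit 0x200280d0781)))) 
(.lf (nat_lit 2483402729) (dlOf (nat_lit 1) (nat_lit 0x400180fa601))))) (.nd (nat_lit 31) 
(.nd (nat_lit 26) (.nd (nat_lit 10) 
(.lf (nat_lit 1346740265) (dlOf (nat_lit 1) (nat_lit 0x20029000201))) 
(.lf (nat_lit 1345692713) (dlOf (nat_lit 1) (nat_lit 0xa0028dd2881)))) (.nd (nat_lit 27) 
(.lf (nat_lit 1409654825) (dlOf (nat_lit 1) (nat_lit 0x40008070881))) 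
(.lf (nat_lit 1543872553) (dlOf (nat_lit 1) (nat_lit 0x20004000600081a0602))))) (.nd (nat_lit 8) 
(.nd (nat_lit 21) 
(.lf (nat_lit 3494223913) (dlOf (nat_lit 5) (nat_lit 0x8216000510a800308500014410000a200003eb85000510b00028854001c42800082080004100001f58280050858002442a00042140007100001f54200038858002442a001c2140008100001f502000080080004002000200081d0a03))) 
(.lf (nat_lit 3492126761) (dlOf (nat_lit 1) (nat_lit 0xc002000400080a0982)))) (.nd (nat_lit 7) 
(.lf (nat_lit 3490557225) (dlOf (nat_lit 1) (nat_lit 0x80018006801))) 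
(.lf (nat_lit 3491602857) (dlOf (nat_lit 1) (nat_lit 0x400400020008090782))))))))) (.nd (nat_lit 6) 
(.nd (nat_lit 31) (.nd (nat_lit 19) (.nd (nat_lit 8) (.nd (nat_lit 18) (.nd (nat_lit 10) 
(.nd (nat_lit 20) (.nd (nat_lit 22) 
(.lf (nat_lit 25272377) (dlOf (nat_lit 2) (nat_lit 0x40279000e6818bf0b80))) 
(.lf (nat_lit 29466681) (dlOf (nat_lit 1) (nat_lit 0x400400060018e10902)))) 
(.lf (nat_lit 24223801) (dlOf (nat_lit 1) (nat_lit 0x400200020008b90b82)))) (.nd (nat_lit 7) 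
(.lf (nat_lit 1610720313) (dlOf (nat_lit 1) (nat_lit 0x60028092881))) 
(.lf (nat_lit 36807865) (dlOf (nat_lit 1) (nat_lit 0x20019072c81))))) (.nd (nat_lit 21) 
(.nd (nat_lit 7) (.lf (nat_lit 29728825) (dlOf (nat_lit 1) (nat_lit 0x1000400060018e30002))) 
(.lf (nat_lit 4295338169) (dlOf (nat_lit 1) (nat_lit 0x20008114901)))) (.nd (nat_lit 20) 
(.lf (nat_lit 6660153) (dlOf (nat_lit 1) (nat_lit 0xa0018440c81))) 
(.lf (nat_lit 7708729) (dlOf (nat_lit 1) (nat_lit 0x5200184d0c81)))))) (.nd (nat_lit 9) 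
(.nd (nat_lit 11) (.nd (nat_lit 26) 
(.lf (nat_lit 805413177) (dlOf (nat_lit 2) (nat_lit 0x3e014401e8074005a02700012838090580))) 
(.lf (nat_lit 1677828409) (dlOf (nat_lit 2) (nat_lit 0x3e014401e8074005a02700013038090580)))) 
(.lf (nat_lit 8501561) (dlOf (nat_lit 1) (nat_lit 0x2002851ab81)))) (.nd (nat_lit 7) 
(.nd (nat_lit 10) (.lf (nat_lit 20032313) (dlOf (nat_lit 1) (nat_lit 0x200189d5c01))) 
(.lf (nat_lit 201434937) (dlOf (nat_lit 1) (nat_lit 0x10800400260008003e02)))) 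
(.lf (nat_lit 4563512249) (dlOf (nat_lit 1) (nat_lit 0x20018095d01)))))) (.nd (nat_lit 18) 
(.nd (nat_lit 21) (.nd (nat_lit 26) (.nd (nat_lit 27) 
(.lf (nat_lit 1879679033) (dlOf (nat_lit 1) (nat_lit 0x9c002001e00082c0902))) 
(.lf (nat_lit 134848569) (dlOf (nat_lit 4) (nat_lit 0x2c02a000330200320150001901000a00a8000c00800680080008002000c00080c1303)))) 
(.lf (nat_lit 1409916985) (dlOf (nat_lit 3) (nat_lit 0x201080015c08000817c00058040020004000400080a0b82)))) 
(.nd (nat_lit 7) 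
(.lf (nat_lit 3776569) (dlOf (nat_lit 4) (nat_lit 0x1ebca0001102000d5e500008010008d9680034fe4003267400a400000000048220b80))) 
(.lf (nat_lit 61448377) (dlOf (nat_lit 1) (nat_lit 0x1b000200e60009920702))))) (.nd (nat_lit 7) 
(.nd (nat_lit 20) (.lf (nat_lit 17670201) (dlOf (nat_lit 1) (nat_lit 0x4002000200088f1102))) 
(.lf (nat_lit 4038713) (dlOf (nat_lit 1) (nat_lit 0x1c00200140008270b82)))) 
(.lf (nat_lit 60662969) (dlOf (nat_lit 1) (nat_lit 0x4002000200098c2c82)))))) (.nd (nat_lit 28) 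
(.nd (nat_lit 8) (.nd (nat_lit 18) (.nd (nat_lit 19) 
(.lf (nat_lit 2348916793) (dlOf (nat_lit 20) (nat_lit 0x3c00f000300480008000000ba0c015001c0005402001a010007000700014c100148034000a40400bc01c0005102006e02a001700800100038000a00c0010054004c01000027020098015003180a0009802000a400e000268400420070001300801c00380009404004005801ec02a0047014001b8040010401c000480a004c0100045007000114100280038000840400cc02000a400e00020820093015000c8040013401c0003f06000602a0026008002600380007c0c0098020001000e0001d82002f008002b00380006c0802fc054023002800090080000001803a000800a4002005e0008020683))) 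
(.lf (nat_lit 3221856313) (dlOf (nat_lit 3) (nat_lit 0x80110001601001401900009c0800900080018002003200081a1303)))) 
(.nd (nat_lit 22) (.lf (nat_lit 3288703033) (dlOf (nat_lit 2) (nat_lit 0xc400f000190180c1300))) 
(.lf (nat_lit 2756026425) (dlOf (nat_lit 2) (nat_lit 0x40e980007c080008008000c002000600081d0b83))))) 
(.nd (nat_lit 26) (.lf (nat_lit 3221332281) (dlOf (nat_lit 2) (nat_lit 0xc402000012818090580))) 
(.lf (nat_lit 3959529785) (dlOf (nat_lit 2) (nat_lit 0xc402000013018090580))))) (.nd (nat_lit 30) 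
(.nd (nat_lit 8) 
(.lf (nat_lit 2483134521) (dlOf (nat_lit 20) (nat_lit 0x3c00f000300400008000000ba0c015001c0005402001a010007000700014c100148034000a40400bc01c0005102006e02a001700800100038000a00c0010054004c01000027020098015003180a0009802000a400e000268400420070001300801c00380009404004005c01ec02a0047014001b8040010401c000490a00a000e000228100330080029003800088080098020008a00e00021020093015000c8040013401c0003f06000602a0026008002600380007c0c0098020001000e0001d82002f008002b00380006c0802fc054023002800090080000001803a000800a4002005e0008020683))) 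
(.nd (nat_lit 27) (.lf (nat_lit 2416025913) (dlOf (nat_lit 1) (nat_lit 0x800400220008014c02))) 
(.lf (nat_lit 2550243641) (dlOf (nat_lit 1) (nat_lit 0x800400220008014c02))))) (.nd (nat_lit 18) 
(.nd (nat_lit 19) (.lf (nat_lit 3493961785) (dlOf (nat_lit 1) (nat_lit 0x800181b0001))) 
(.lf (nat_lit 3492388921) (dlOf (nat_lit 1) (nat_lit 0x4004000200180c1302)))) (.nd (nat_lit 21) 
(.lf (nat_lit 3494223929) (dlOf (nat_lit 2) (nat_lit 0x40e080007c080008008000c002000600081d0b83))) 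
(.lf (nat_lit 3492126777) (dlOf (nat_lit 2) (nat_lit 0x2008c00080458000b01000080080094002000200080a0b83)))))))) 
(.nd (nat_lit 8) (.nd (nat_lit 21) (.nd (nat_lit 11) (.nd (nat_lit 27) (.nd (nat_lit 26) 
(.lf (nat_lit 3221332089) (dlOf (nat_lit 4) (nat_lit 0x300d40d5804e003a01f000ff830013028800200d400f004c000601f000fd0404a301383da0098003f208000c00400060018090082))) 
(.lf (nat_lit 5435924601) (dlOf (nat_lit 3) (nat_lit 0xe0390002881000201c80013c0800c800800cc002003a0008030b83)))) 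
(.nd (nat_lit 7) 
(.lf (nat_lit 3959529593) (dlOf (nat_lit 4) (nat_lit 0x300d40d5804e003a01f000f6830013028800200d400f004c000601f000f40404a301383da0098003ce08000c00400060018090082))) 
(.lf (nat_lit 3691094265) (dlOf (nat_lit 1) (nat_lit 0x18008000400200040008010703))))) 
(.nd (nat_lit 7) (.nd (nat_lit 18) (.nd (nat_lit 19) 
(.lf (nat_lit 1346480761) (dlOf (nat_lit 1) (nat_lit 0xc0028f65401))) 
(.lf (nat_lit 6377024121) (dlOf (nat_lit 1) (nat_lit 0x20018095401)))) 
(.lf (nat_lit 60140153) (dlOf (nat_lit 1) (nat_lit 0x180080008002003e0009845403)))) 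
(.nd (nat_lit 12) (.lf (nat_lit 5972797689) (dlOf (nat_lit 1) (nat_lit 0xa0018144b81))) 
(.lf (nat_lit 1342290169) (dlOf (nat_lit 2) (nat_lit 0x41650002001800a980)))))) (.nd (nat_lit 18) 
(.nd (nat_lit 20) (.nd (nat_lit 23) 
(.lf (nat_lit 2203769) (dlOf (nat_lit 1) (nat_lit 0x400400040018150082))) 
(.lf (nat_lit 44146809) (dlOf (nat_lit 1) (nat_lit 0x80080004002000200092d0b83)))) (.nd (nat_lit 7) 
(.lf (nat_lit 7976569) (dlOf (nat_lit 1) (nat_lit 0x60008003000200240008519d03))) 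
(.lf (nat_lit 20029689) (dlOf (nat_lit 1) (nat_lit 0x400189d0a81))))) (.nd (nat_lit 9) 
(.nd (nat_lit 19) (.nd (nat_lit 20) 
(.lf (nat_lit 19243129) (dlOf (nat_lit 1) (nat_lit 0x400400020018970482))) 
(.lf (nat_lit 28680313) (dlOf (nat_lit 1) (nat_lit 0x400200020008da0482)))) 
(.lf (nat_lit 23961721) (dlOf (nat_lit 1) (nat_lit 0x20008b80081)))) (.nd (nat_lit 7) 
(.lf (nat_lit 20294265) (dlOf (nat_lit 1) (nat_lit 0xa80080008002000a00089d5403))) 
(.lf (nat_lit 1345694457) (dlOf (nat_lit 2) (nat_lit 0x10219000108b8000a8100068008000800200160008dd5a03))))))) 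
(.nd (nat_lit 26) (.nd (nat_lit 18) (.nd (nat_lit 7) (.nd (nat_lit 11) (.nd (nat_lit 19) 
(.lf (nat_lit 5368815993) (dlOf (nat_lit 1) (nat_lit 0x680008035901))) 
(.lf (nat_lit 3491340665) (dlOf (nat_lit 1) (nat_lit 0x20028090781)))) 
(.lf (nat_lit 134326649) (dlOf (nat_lit 1) (nat_lit 0x2800200120008004e82)))) (.nd (nat_lit 9) 
(.lf (nat_lit 4026638841) (dlOf (nat_lit 1) (nat_lit 0x9000400300008017e02))) 
(.lf (nat_lit 47817721) (dlOf (nat_lit 1) (nat_lit 0x20029402881))))) (.nd (nat_lit 10) 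
(.nd (nat_lit 7) (.lf (nat_lit 36546937) (dlOf (nat_lit 1) (nat_lit 0x1000400020009074e82))) 
(.nd (nat_lit 9) (.lf (nat_lit 21340665) (dlOf (nat_lit 1) (nat_lit 0x20018a37801))) 
(.lf (nat_lit 38118393) (dlOf (nat_lit 1) (nat_lit 0x400200020009132882))))) (.nd (nat_lit 19) 
(.lf (nat_lit 43361785) (dlOf (nat_lit 2) (nat_lit 0x2f497000378192a3680))) 
(.lf (nat_lit 61711865) (dlOf (nat_lit 1) (nat_lit 0xc00400100009923682)))))) (.nd (nat_lit 9) 
(.nd (nat_lit 10) (.nd (nat_lit 7) 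
(.lf (nat_lit 3556878713) (dlOf (nat_lit 1) (nat_lit 0x80080008002000200080d4e83))) 
(.lf (nat_lit 69052921) (dlOf (nat_lit 1) (nat_lit 0x4002000200088a4f82)))) (.nd (nat_lit 18) 
(.lf (nat_lit 6241232377) (dlOf (nat_lit 2) (nat_lit 0x8004000360200020028053681))) 
(.lf (nat_lit 4096108025) (dlOf (nat_lit 1) (nat_lit 0x800180e3681))))) (.nd (nat_lit 28) 
(.nd (nat_lit 7) (.lf (nat_lit 738306937) (dlOf (nat_lit 1) (nat_lit 0xc00200080008095c02))) 
(.lf (nat_lit 2751570937) (dlOf (nat_lit 1) (nat_lit 0x400200020008002882)))) (.nd (nat_lit 30) 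
(.lf (nat_lit 3154224121) (dlOf (nat_lit 1) (nat_lit 0x20028102881))) 
(.lf (nat_lit 6375449593) (dlOf (nat_lit 2) (nat_lit 0x3014001fbc0800b000800cc00200180008002883)))))))))) 
(.nd (nat_lit 4) (.nd (nat_lit 18) (.nd (nat_lit 28) (.nd (nat_lit 26) (.nd (nat_lit 6) 
(.nd (nat_lit 9) (.nd (nat_lit 19) (.nd (nat_lit 20) 
(.lf (nat_lit 3355680809) (dlOf (nat_lit 1) (nat_lit 0x480080004002000200080c0a03))) 
(.lf (nat_lit 30646313) (dlOf (nat_lit 1) (nat_lit 0x100080018002000c0008e40d83)))) 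
(.nd (nat_lit 20) (.lf (nat_lit 9150505) (dlOf (nat_lit 1) (nat_lit 0x6c0008520a01))) 
(.lf (nat_lit 22781993) (dlOf (nat_lit 2) (nat_lit 0xa748000c876000560400060018b20681))))) 
(.nd (nat_lit 7) (.lf (nat_lit 8102697) (dlOf (nat_lit 1) (nat_lit 0xfa800803b800202a40008512203))) 
(.nd (nat_lit 8) (.lf (nat_lit 20166313) (dlOf (nat_lit 1) (nat_lit 0x100080004002000200089da003))) 
(.lf (nat_lit 19643305) (dlOf (nat_lit 1) (nat_lit 0xf800089dbd01)))))) (.nd (nat_lit 20) 
(.nd (nat_lit 7) 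
(.lf (nat_lit 1610851945) (dlOf (nat_lit 4) (nat_lit 0x100b40004702000e05a0002301000102d000114080018008001800200080008093903))) 
(.nd (nat_lit 10) (.lf (nat_lit 19112169) (dlOf (nat_lit 1) (nat_lit 0x400200020008970602))) 
(.lf (nat_lit 240873) (dlOf (nat_lit 1) (nat_lit 0x3e0018006501))))) (.nd (nat_lit 7) 
(.lf (nat_lit 45850729) (dlOf (nat_lit 2) (nat_lit 0x1daf00000bc080020008002800200140009360a03))) 
(.nd (nat_lit 8) (.lf (nat_lit 8106729) (dlOf (nat_lit 1) (nat_lit 0x80028518d81))) 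
(.lf (nat_lit 9675241) (dlOf (nat_lit 1) (nat_lit 0x60028577d01))))))) (.nd (nat_lit 6) 
(.nd (nat_lit 9) (.nd (nat_lit 7) (.nd (nat_lit 27) 
(.lf (nat_lit 604217385) (dlOf (nat_lit 1) (nat_lit 0x100080024002000a00080b0883))) 
(.lf (nat_lit 4496531497) (dlOf (nat_lit 1) (nat_lit 0x1000280d0481)))) 
(.lf (nat_lit 2753798313) (dlOf (nat_lit 1) (nat_lit 0x80018090281)))) (.nd (nat_lit 19) 
(.nd (nat_lit 11) 
(.lf (nat_lit 3288572457) (dlOf (nat_lit 2) (nat_lit 0x4c4064000000200800008090e01))) 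
(.lf (nat_lit 738437673) (dlOf (nat_lit 1) (nat_lit 0x2400400740018095182)))) (.nd (nat_lit 7) 
(.lf (nat_lit 69968425) (dlOf (nat_lit 1) (nat_lit 0x2000400040018e28902))) 
(.lf (nat_lit 67871657) (dlOf (nat_lit 1) (nat_lit 0x8008000400200020008332683)))))) 
(.nd (nat_lit 7) (.nd (nat_lit 9) 
(.lf (nat_lit 67875177) (dlOf (nat_lit 1) (nat_lit 0x48008002000200120008338383))) 
(.lf (nat_lit 5570276201) (dlOf (nat_lit 1) (nat_lit 0x8004000200080d5c02)))) (.nd (nat_lit 8) 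
(.nd (nat_lit 19) (.lf (nat_lit 2754850025) (dlOf (nat_lit 2) (nat_lit 0x19601c000168180f6500))) 
(.lf (nat_lit 202091753) (dlOf (nat_lit 1) (nat_lit 0x8e00080f6501)))) 
(.lf (nat_lit 5570275817) (dlOf (nat_lit 1) (nat_lit 0x80080004002000200080d4e83))))))) 
(.nd (nat_lit 30) (.nd (nat_lit 27) (.nd (nat_lit 7) (.nd (nat_lit 8) (.nd (nat_lit 26) 
(.lf (nat_lit 4563640361) (dlOf (nat_lit 2) (nat_lit 0x14005e000110201ee00180b0381))) 
(.lf (nat_lit 2483265577) (dlOf (nat_lit 3) (nat_lit 0x18804001a900400f0020001c00e006a3028090000)))) 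
(.lf (nat_lit 872654121) (dlOf (nat_lit 1) (nat_lit 0x400200020008093182)))) (.nd (nat_lit 6) 
(.lf (nat_lit 335782057) (dlOf (nat_lit 1) (nat_lit 0x80080004002000200080a2c83))) 
(.lf (nat_lit 805544425) (dlOf (nat_lit 3) (nat_lit 0x33801c000660202ca00e0001f818127300))))) 
(.nd (nat_lit 6) (.nd (nat_lit 20) (.nd (nat_lit 26) 
(.lf (nat_lit 4697858089) (dlOf (nat_lit 2) (nat_lit 0x14005e000110201ee00180b0381))) 
(.lf (nat_lit 469999657) (dlOf (nat_lit 1) (nat_lit 0x24002002a0008020502)))) 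
(.lf (nat_lit 471048233) (dlOf (nat_lit 1) (nat_lit 0x40018250a01)))) (.nd (nat_lit 7) 
(.lf (nat_lit 3154358377) (dlOf (nat_lit 1) (nat_lit 0x20028157d81))) 
(.lf (nat_lit 4764968169) (dlOf (nat_lit 1) (nat_lit 0xc00400020008092e82)))))) (.nd (nat_lit 8) 
(.nd (nat_lit 9) (.nd (nat_lit 19) (.nd (nat_lit 7) 
(.lf (nat_lit 1342414889) (dlOf (nat_lit 1) (nat_lit 0x24002002a0008020502))) 
(.lf (nat_lit 3557011625) (dlOf (nat_lit 1) (nat_lit 0xe60018127d81)))) (.nd (nat_lit 21) 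
(.lf (nat_lit 3557531689) (dlOf (nat_lit 2) (nat_lit 0x281c00011204002c00400160018240782))) 
(.lf (nat_lit 1345036329) (dlOf (nat_lit 1) (nat_lit 0x80008002c002001a00089d0883))))) 
(.nd (nat_lit 7) (.nd (nat_lit 10) 
(.lf (nat_lit 4026769961) (dlOf (nat_lit 2) (nat_lit 0x4c4064000000200800008090e01))) 
(.lf (nat_lit 5704492585) (dlOf (nat_lit 1) (nat_lit 0x4004000200080d3702)))) 
(.lf (nat_lit 3557012137) (dlOf (nat_lit 1) (nat_lit 0x40000401120008128c82))))) (.nd (nat_lit 7) 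
(.nd (nat_lit 6) (.nd (nat_lit 9) 
(.lf (nat_lit 5704492329) (dlOf (nat_lit 1) (nat_lit 0x4004000200080d3182))) 
(.lf (nat_lit 4094929705) (dlOf (nat_lit 1) (nat_lit 0x400400020008055c02)))) 
(.lf (nat_lit 6308473705) (dlOf (nat_lit 1) (nat_lit 0x8004000200080d5c02)))) (.nd (nat_lit 6) 
(.nd (nat_lit 12) (.lf (nat_lit 6174254505) (dlOf (nat_lit 1) (nat_lit 0x7a00180d3601))) 
(.lf (nat_lit 3557012905) (dlOf (nat_lit 1) (nat_lit 0x400400040018129902)))) 
(.lf (nat_lit 6308473321) (dlOf (nat_lit 1) (nat_lit 0x4004000200080d4e82)))))))) (.nd (nat_lit 19) 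
(.nd (nat_lit 22) (.nd (nat_lit 29) (.nd (nat_lit 30) (.nd (nat_lit 21) 
(.lf (nat_lit 4362575913) (dlOf (nat_lit 1) (nat_lit 0x40028090001))) 
(.lf (nat_lit 2596905) (dlOf (nat_lit 5) (nat_lit 0x5a400003d1d0001676c00fae0c00134880003a420003d200000e8f800174740003a380005ced801f58380046910001b480000da3e0008d1d0003e76c00faa140023488000fa3a0007ced801f50180008008000400200040008170a03)))) 
(.nd (nat_lit 6) (.nd (nat_lit 20) 
(.lf (nat_lit 3221725225) (dlOf (nat_lit 3) (nat_lit 0x8401180400086015a042008b02000352020081811804140860156042008c020003518200030008003c002000c0008170003))) 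
(.lf (nat_lit 3491209257) (dlOf (nat_lit 2) (nat_lit 0x941700003e0200100028070881)))) 
(.lf (nat_lit 1074244841) (dlOf (nat_lit 5) (nat_lit 0xbc0000001b01005e0000000d00806900000005c04040c0000002d02008600180f6501))))) 
(.nd (nat_lit 6) (.nd (nat_lit 7) 
(.lf (nat_lit 738697257) (dlOf (nat_lit 1) (nat_lit 0x10008000c002000200080e0a83))) 
(.lf (nat_lit 1745330601) (dlOf (nat_lit 1) (nat_lit 0x20028116e81)))) (.nd (nat_lit 7) 
(.lf (nat_lit 604480873) (dlOf (nat_lit 4) (nat_lit 0x880f40018068002c02a001301000078030002801200240000001f8700070060000e80800600f40050068001e02a000d010000300640030018000c009000d000000000400060008000c002000200082d3483))) 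
(.nd (nat_lit 26) (.lf (nat_lit 3758596329) (dlOf (nat_lit 1) (nat_lit 0x800282c0601))) 
(.lf (nat_lit 3020398825) (dlOf (nat_lit 1) (nat_lit 0x800282c0601))))))) (.nd (nat_lit 21) 
(.nd (nat_lit 9) (.nd (nat_lit 7) 
(.lf (nat_lit 13082665) (dlOf (nat_lit 7) (nat_lit 0x5aa4a002b51e0018a8a0006d2600003210003ea4a000d51e0009a8a0003526000030100016a4a000951e00005820002a8f0004d4500001408000ea4a000351e0009a8a0003526000012100016a3c00135140006a4c0000201800280080028002000200086f0a83))) 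
(.lf (nat_lit 47686825) (dlOf (nat_lit 1) (nat_lit 0x1440009402c01)))) (.nd (nat_lit 8) 
(.lf (nat_lit 38251049) (dlOf (nat_lit 1) (nat_lit 0x400400020009135182))) 
(.lf (nat_lit 46639913) (dlOf (nat_lit 1) (nat_lit 0x10008000c00200040009385c03))))) 
(.nd (nat_lit 6) (.nd (nat_lit 23) 
(.lf (nat_lit 23568425) (dlOf (nat_lit 1) (nat_lit 0xba0018b80001))) 
(.lf (nat_lit 15179817) (dlOf (nat_lit 4) (nat_lit 0x140000005f0200020000002e81002ab2e0001596c000a808002800400c800187c0682)))) 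
(.nd (nat_lit 7) (.lf (nat_lit 48734313) (dlOf (nat_lit 2) (nat_lit 0x1aa900000002000c0009420a01))) 
(.lf (nat_lit 57125353) (dlOf (nat_lit 1) (nat_lit 0x20029794e81))))))) (.nd (nat_lit 21) 
(.nd (nat_lit 6) (.nd (nat_lit 23) (.nd (nat_lit 8) 
(.lf (nat_lit 17801257) (dlOf (nat_lit 1) (nat_lit 0x80080004002000200088f0d83))) 
(.lf (nat_lit 3490685225) (dlOf (nat_lit 1) (nat_lit 0x8c00201380008014602)))) (.nd (nat_lit 7) 
(.lf (nat_lit 44015657) (dlOf (nat_lit 1) (nat_lit 0x1200092b0a01))) 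
(.lf (nat_lit 47161513) (dlOf (nat_lit 1) (nat_lit 0x8004000200093b1482))))) (.nd (nat_lit 7) 
(.nd (nat_lit 8) (.lf (nat_lit 69181545) (dlOf (nat_lit 1) (nat_lit 0x2c004000400188c0a02))) 
(.lf (nat_lit 42967401) (dlOf (nat_lit 10) (nat_lit 0x4a570000c808003d2b80006204001e95c000300200054ae00017810007a570000b80800352b80005a04001e95c0002c02000b4ae0000c010006a570000000802f800800f8002006a00092a0f03)))) 
(.lf (nat_lit 3490685417) (dlOf (nat_lit 2) (nat_lit 0x2240c00000a818017300))))) (.nd (nat_lit 20) 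
(.nd (nat_lit 8) (.nd (nat_lit 10) 
(.lf (nat_lit 7315497) (dlOf (nat_lit 1) (nat_lit 0x4004000200184b0002))) 
(.lf (nat_lit 19901481) (dlOf (nat_lit 1) (nat_lit 0x3600189d6081)))) 
(.lf (nat_lit 3492788521) (dlOf (nat_lit 1) (nat_lit 0x100080018002000600080fab83)))) 
(.nd (nat_lit 6) (.nd (nat_lit 7) 
(.lf (nat_lit 20946985) (dlOf (nat_lit 3) (nat_lit 0xb377800152de000e000000090300064b78000440800080080188002007800089f0383))) 
(.lf (nat_lit 58698153) (dlOf (nat_lit 1) (nat_lit 0x200197e4e81)))) 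
(.lf (nat_lit 8371305) (dlOf (nat_lit 1) (nat_lit 0x1e800801380020078000851c083)))))))) 
(.nd (nat_lit 8) (.nd (nat_lit 6) (.nd (nat_lit 19) (.nd (nat_lit 22) (.nd (nat_lit 27) 
(.nd (nat_lit 9) (.nd (nat_lit 18) (.nd (nat_lit 23) (.nd (nat_lit 28) 
(.lf (nat_lit 4295204921) (dlOf (nat_lit 1) (nat_lit 0xc4002002200080b0b82))) 
(.lf (nat_lit 1342414905) (dlOf (nat_lit 1) (nat_lit 0x1b000800a8002021a0008020683)))) 
(.lf (nat_lit 25403449) (dlOf (nat_lit 1) (nat_lit 0x80018c00781)))) 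
(.lf (nat_lit 2596921) (dlOf (nat_lit 2) (nat_lit 0xbbe40000000800400080010002004e0008170b83)))) 
(.nd (nat_lit 10) (.nd (nat_lit 26) 
(.lf (nat_lit 4026769977) (dlOf (nat_lit 3) (nat_lit 0x1f0040000270200f800b00006018091000))) 
(.lf (nat_lit 3288572473) (dlOf (nat_lit 3) (nat_lit 0x1f0040000270200f800b00006018091000)))) 
(.lf (nat_lit 1610851897) (dlOf (nat_lit 2) (nat_lit 0x4012000140200040018093781))))) 
(.nd (nat_lit 26) (.nd (nat_lit 32) 
(.lf (nat_lit 134455353) (dlOf (nat_lit 2) (nat_lit 0x34062000580200040018020681))) 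
(.lf (nat_lit 4429422649) (dlOf (nat_lit 1) (nat_lit 0xc4002002200080b0b82)))) (.nd (nat_lit 28) 
(.lf (nat_lit 201564217) (dlOf (nat_lit 2) (nat_lit 0x34062000580200040018020681))) 
(.lf (nat_lit 469999673) (dlOf (nat_lit 1) (nat_lit 0x1b000800a8002021a0008020683)))))) 
(.nd (nat_lit 18) (.nd (nat_lit 20) 
(.lf (nat_lit 12820537) (dlOf (nat_lit 1) (nat_lit 0xbc00086e0b81))) 
(.lf (nat_lit 30646329) (dlOf (nat_lit 1) (nat_lit 0x400200040008e41102)))) (.nd (nat_lit 7) 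
(.nd (nat_lit 21) (.lf (nat_lit 3494355001) (dlOf (nat_lit 1) (nat_lit 0x1420008211301))) 
(.lf (nat_lit 15179833) (dlOf (nat_lit 1) (nat_lit 0x4c002000c00087c0882)))) 
(.lf (nat_lit 23568569) (dlOf (nat_lit 1) (nat_lit 0xdd8008002800204f00008b80383)))))) 
(.nd (nat_lit 21) (.nd (nat_lit 18) (.nd (nat_lit 10) 
(.lf (nat_lit 10199097) (dlOf (nat_lit 1) (nat_lit 0x4004000200085c0d02))) 
(.lf (nat_lit 67877945) (dlOf (nat_lit 1) (nat_lit 0x2002833bf01)))) (.nd (nat_lit 20) 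
(.lf (nat_lit 17801273) (dlOf (nat_lit 1) (nat_lit 0x478008041c00200c400088f1103))) 
(.lf (nat_lit 6377414713) (dlOf (nat_lit 1) (nat_lit 0x20008001c002000200080d0c83))))) 
(.nd (nat_lit 24) (.nd (nat_lit 26) 
(.lf (nat_lit 3492519993) (dlOf (nat_lit 1) (nat_lit 0x4002000200080d0b82))) 
(.lf (nat_lit 2754322489) (dlOf (nat_lit 1) (nat_lit 0x4002000200080d0b82)))) (.nd (nat_lit 7) 
(.lf (nat_lit 28287033) (dlOf (nat_lit 2) (nat_lit 0x404740003e04000800200040008d80902))) 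
(.lf (nat_lit 58434745) (dlOf (nat_lit 1) (nat_lit 0x4004000200097e2c82))))))) (.nd (nat_lit 9) 
(.nd (nat_lit 18) (.nd (nat_lit 7) (.nd (nat_lit 11) (.nd (nat_lit 19) 
(.lf (nat_lit 3383417) (dlOf (nat_lit 1) (nat_lit 0x24004001c0008200082))) 
(.lf (nat_lit 473669753) (dlOf (nat_lit 2) (nat_lit 0x60018000e00800400080004002000c0008f92a03)))) 
(.lf (nat_lit 67876985) (dlOf (nat_lit 1) (nat_lit 0x6002833a881)))) (.nd (nat_lit 20) 
(.lf (nat_lit 23306489) (dlOf (nat_lit 1) (nat_lit 0x380028b80481))) 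
(.lf (nat_lit 2752749817) (dlOf (nat_lit 1) (nat_lit 0x4f8008000400200900008047783))))) 
(.nd (nat_lit 26) (.nd (nat_lit 7) 
(.lf (nat_lit 805806201) (dlOf (nat_lit 2) (nat_lit 0x15c056000fd0181a0080))) 
(.lf (nat_lit 19898617) (dlOf (nat_lit 1) (nat_lit 0x200189d0a81)))) (.nd (nat_lit 28) 
(.lf (nat_lit 1678221433) (dlOf (nat_lit 2) (nat_lit 0x15c056001078181a0080))) 
(.lf (nat_lit 3020398713) (dlOf (nat_lit 2) (nat_lit 0x18023000a10182c0480)))))) (.nd (nat_lit 11) 
(.nd (nat_lit 7) (.nd (nat_lit 20) 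
(.lf (nat_lit 19636857) (dlOf (nat_lit 1) (nat_lit 0x200289d1901))) 
(.lf (nat_lit 8102521) (dlOf (nat_lit 1) (nat_lit 0x20018511901)))) 
(.lf (nat_lit 20165369) (dlOf (nat_lit 1) (nat_lit 0x28004002600089d8f82)))) (.nd (nat_lit 18) 
(.nd (nat_lit 20) (.lf (nat_lit 1208199801) (dlOf (nat_lit 1) (nat_lit 0x140028095401))) 
(.lf (nat_lit 6376630905) (dlOf (nat_lit 1) (nat_lit 0x20008095401)))) (.nd (nat_lit 20) 
(.lf (nat_lit 46639737) (dlOf (nat_lit 1) (nat_lit 0x400400020019385402))) 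
(.lf (nat_lit 6376893049) (dlOf (nat_lit 1) (nat_lit 0x2400200040008095402)))))))) (.nd (nat_lit 6) 
(.nd (nat_lit 18) (.nd (nat_lit 29) (.nd (nat_lit 9) (.nd (nat_lit 7) 
(.lf (nat_lit 19640633) (dlOf (nat_lit 1) (nat_lit 0x800289d8181))) (.nd (nat_lit 12) 
(.lf (nat_lit 51093945) (dlOf (nat_lit 3) (nat_lit 0x2ab7d001050100025bf0007500800880080054002001000094f6f03))) 
(.lf (nat_lit 67875257) (dlOf (nat_lit 1) (nat_lit 0x400400180008338582))))) (.nd (nat_lit 10) 
(.lf (nat_lit 8631225) (dlOf (nat_lit 1) (nat_lit 0x400200020008519202))) 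
(.lf (nat_lit 8107961) (dlOf (nat_lit 1) (nat_lit 0x4004000e000851a502))))) (.nd (nat_lit 7) 
(.nd (nat_lit 11) (.nd (nat_lit 26) 
(.lf (nat_lit 805544249) (dlOf (nat_lit 2) (nat_lit 0x160050012a80800f8008002400200180008124c03))) 
(.lf (nat_lit 1677959481) (dlOf (nat_lit 2) (nat_lit 0x160050028fc0800f8008002400200180008124c03)))) 
(.lf (nat_lit 2751703353) (dlOf (nat_lit 1) (nat_lit 0x400400020008004c02)))) (.nd (nat_lit 26) 
(.lf (nat_lit 1879286201) (dlOf (nat_lit 1) (nat_lit 0x800180c0801))) 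
(.lf (nat_lit 1006870969) (dlOf (nat_lit 1) (nat_lit 0x800180c0801)))))) (.nd (nat_lit 7) 
(.nd (nat_lit 9) (.nd (nat_lit 26) 
(.lf (nat_lit 805806393) (dlOf (nat_lit 2) (nat_lit 0x320168000980802c00080098002007800081a0583))) 
(.lf (nat_lit 1678221625) (dlOf (nat_lit 2) (nat_lit 0x320168000940802c00080098002007800081a0583)))) 
(.nd (nat_lit 10) (.lf (nat_lit 19901241) (dlOf (nat_lit 1) (nat_lit 0x4002000200089d5c02))) 
(.lf (nat_lit 501561) (dlOf (nat_lit 4) (nat_lit 0xe1d500030e48002071000102ee000350800101d5000b0e2000585dc000680c00243aa00121c9000a0e2000405dc0005410002800400080008003e02))))) 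
(.nd (nat_lit 9) (.nd (nat_lit 11) 
(.lf (nat_lit 58171833) (dlOf (nat_lit 1) (nat_lit 0x10008001c002000400097c6f03))) 
(.nd (nat_lit 19) (.lf (nat_lit 604481977) (dlOf (nat_lit 1) (nat_lit 0x400182d4e81))) 
(.lf (nat_lit 37726649) (dlOf (nat_lit 1) (nat_lit 0x4002000200090d4e82))))) (.nd (nat_lit 12) 
(.lf (nat_lit 19901369) (dlOf (nat_lit 1) (nat_lit 0x200089d5d01))) 
(.lf (nat_lit 2754591673) (dlOf (nat_lit 1) (nat_lit 0xd200080fbe01))))))) (.nd (nat_lit 7) 
(.nd (nat_lit 25) (.nd (nat_lit 26) (.nd (nat_lit 10) 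
(.lf (nat_lit 1476897145) (dlOf (nat_lit 2) (nat_lit 0x50060054180800600080008002001200082d4e83))) 
(.lf (nat_lit 19643769) (dlOf (nat_lit 1) (nat_lit 0x200089dc901)))) (.nd (nat_lit 11) 
(.lf (nat_lit 3288572281) (dlOf (nat_lit 2) (nat_lit 0x6003200000018090780))) 
(.lf (nat_lit 5570275705) (dlOf (nat_lit 1) (nat_lit 0x600180d4e81))))) (.nd (nat_lit 11) 
(.nd (nat_lit 10) (.lf (nat_lit 42967417) (dlOf (nat_lit 1) (nat_lit 0x200192a1001))) 
(.lf (nat_lit 61318521) (dlOf (nat_lit 1) (nat_lit 0x20029923501)))) (.nd (nat_lit 19) 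
(.lf (nat_lit 38250873) (dlOf (nat_lit 1) (nat_lit 0x30008002c00200100009134e83))) 
(.lf (nat_lit 41920889) (dlOf (nat_lit 1) (nat_lit 0x60019244e81)))))) (.nd (nat_lit 26) 
(.nd (nat_lit 23) (.nd (nat_lit 10) (.nd (nat_lit 18) 
(.lf (nat_lit 537108985) (dlOf (nat_lit 4) (nat_lit 0x1014c0005e0400300be0002002001a05f0002026000074100038008000800200120008017e03))) 
(.lf (nat_lit 3490685433) (dlOf (nat_lit 18) (nat_lit 0x416a011c0a0000200100296c1800402d4001c14200a5a04000a0b5000e0508003000c014b20c013c150007c0050052882001706b802b82a0010c00a00a500600c80a8003e00280293c1000482d4010c15000280a1004500280291820016038800441ae000a0b500530540018828400f800a00a450c00080d7000a05a801502a0000c142009a0050051e05001f06b800202d4011015000460a1003b0028028ec2802302a0010000a00a3a0400160050051c81004206d801a0328010c18801120c0004305500048294001413c009400a0055004801f00040146828011019400a000a005b0048028cc18004837c010c1b6003c0d400430650044830000a415600880aa00440528023802801400120086001005150b004606d8009832c011819400640c4008a060002182ac0118154009400a0053004802300040145228007019400340c4008a060000082c80014154009000a00510048028a03801d0008040000200900008017803))))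 
(.lf (nat_lit 5234730489) (dlOf (nat_lit 1) (nat_lit 0x200180d3681)))) (.nd (nat_lit 9) 
(.nd (nat_lit 10) 
(.lf (nat_lit 9675257) (dlOf (nat_lit 5) (nat_lit 0x328f9801947ca0005e0400087ae00641f3002f0f94000b80c00887ca0004402000a77e0000e818577e00))) 
(.lf (nat_lit 43230713) (dlOf (nat_lit 1) (nat_lit 0xe00292a3681)))) 
(.lf (nat_lit 46640121) (dlOf (nat_lit 1) (nat_lit 0x20019385f01))))) (.nd (nat_lit 28) 
(.nd (nat_lit 18) (.nd (nat_lit 29) 
(.lf (nat_lit 3288572409) (dlOf (nat_lit 3) (nat_lit 0xa040000a78100a40100065002c001ee08001800200200008090d82))) 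
(.lf (nat_lit 1677959673) (dlOf (nat_lit 9) (nat_lit 0x870210025808803a801c011000c00370020001a42801b010800e004401be00e0089006002480100068000000660c00ea04200550110061803800d4008000440800320420025011006f003800dc008000400200010000001003000301080004804005c0a2001203a000110200160288000800801101440028096002803a000800d0000742001d8008001400200300008127e03)))) 
(.lf (nat_lit 2752487929) (dlOf (nat_lit 5) (nat_lit 0x2f83a0000480401001d00002202000a198002107400008010000866000201d00001d0400020008017e01)))) 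
(.nd (nat_lit 27) 
(.lf (nat_lit 1409524217) (dlOf (nat_lit 6) (nat_lit 0x2602f8028d008019017c014660400b00be00a2a02005c05f0051481002e02f8028a00800e8008013400200a00008017803))) 
(.lf (nat_lit 1543741945) (dlOf (nat_lit 2) (nat_lit 0x4380b0014b604000400200020008157802))))))))))))

end

end Pool.Agent.Lib.MP_5854e1_co.Cz

namespace Pool.Agent.Lib.MP_5854e1_co.Cz

noncomputable section

noncomputable def tz56 : DT := (.nd (nat_lit 4) (.nd (nat_lit 16) (.nd (nat_lit 15) 
(.nd (nat_lit 6) (.nd (nat_lit 7) (.nd (nat_lit 18) (.nd (nat_lit 9) (.nd (nat_lit 20) 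
(.nd (nat_lit 26) (.nd (nat_lit 21) (.nd (nat_lit 28) 
(.lf (nat_lit 1611137037) (dlOf (nat_lit 1) (nat_lit 0x3c00080f0a01))) 
(.lf (nat_lit 4027056141) (dlOf (nat_lit 2) (nat_lit 0x100000097c02002000081c0681)))) 
(.lf (nat_lit 44564493) (dlOf (nat_lit 1) (nat_lit 0x8008000400200020009320003)))) 
(.nd (nat_lit 10) (.nd (nat_lit 30) 
(.lf (nat_lit 67633165) (dlOf (nat_lit 1) (nat_lit 0x80080004002000200082b0283))) 
(.lf (nat_lit 3288858637) (dlOf (nat_lit 2) (nat_lit 0x10000003e202002000081c0681)))) 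
(.nd (nat_lit 8) (.lf (nat_lit 6241125389) (dlOf (nat_lit 1) (nat_lit 0xc0018002881))) 
(.lf (nat_lit 3422557453) (dlOf (nat_lit 1) (nat_lit 0x400400020008009682)))))) (.nd (nat_lit 19) 
(.nd (nat_lit 22) (.nd (nat_lit 23) 
(.lf (nat_lit 1880096781) (dlOf (nat_lit 1) (nat_lit 0x4002000200086d0582))) 
(.lf (nat_lit 59768845) (dlOf (nat_lit 1) (nat_lit 0x400200020009830182)))) (.nd (nat_lit 23) 
(.lf (nat_lit 38797325) (dlOf (nat_lit 1) (nat_lit 0x8008000400200020009160183))) 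
(.lf (nat_lit 13631501) (dlOf (nat_lit 2) (nat_lit 0x8ee4001390200020028730481))))) 
(.nd (nat_lit 8) (.lf (nat_lit 56099853) (dlOf (nat_lit 1) (nat_lit 0x20019732881))) 
(.nd (nat_lit 10) (.lf (nat_lit 58196237) (dlOf (nat_lit 1) (nat_lit 0x6400297c3a01))) 
(.lf (nat_lit 56100109) (dlOf (nat_lit 1) (nat_lit 0x140019733001))))))) (.nd (nat_lit 10) 
(.nd (nat_lit 26) (.nd (nat_lit 27) 
(.lf (nat_lit 2684355085) (dlOf (nat_lit 1) (nat_lit 0x1400400060008001482))) 
(.lf (nat_lit 2281701901) (dlOf (nat_lit 1) (nat_lit 0x400400020008001482)))) (.nd (nat_lit 27) 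
(.nd (nat_lit 31) (.lf (nat_lit 67109389) (dlOf (nat_lit 1) (nat_lit 0x20008001481))) 
(.lf (nat_lit 2214593037) (dlOf (nat_lit 1) (nat_lit 0x400400020008001482)))) 
(.lf (nat_lit 6643778061) (dlOf (nat_lit 1) (nat_lit 0x400400020008001482))))) (.nd (nat_lit 27) 
(.nd (nat_lit 19) (.nd (nat_lit 26) 
(.lf (nat_lit 5905583629) (dlOf (nat_lit 2) (nat_lit 0x200940000004000400200020008007082))) 
(.lf (nat_lit 5972692493) (dlOf (nat_lit 1) (nat_lit 0x1000028007081)))) 
(.lf (nat_lit 527885) (dlOf (nat_lit 1) (nat_lit 0xc0028007081)))) (.nd (nat_lit 8) 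
(.lf (nat_lit 3087011341) (dlOf (nat_lit 1) (nat_lit 0x1c000200700008007082))) (.nd (nat_lit 11) 
(.lf (nat_lit 1476400909) (dlOf (nat_lit 1) (nat_lit 0x2002800a001))) 
(.lf (nat_lit 469765901) (dlOf (nat_lit 1) (nat_lit 0x400400020008007482)))))))) (.nd (nat_lit 28) 
(.nd (nat_lit 22) (.nd (nat_lit 19) (.nd (nat_lit 26) 
(.lf (nat_lit 134479885) (dlOf (nat_lit 12) (nat_lit 0x64094008002f0004e020036025002e80bc0013608008005e0009a0201c404a011f017800780b80012c0c006c094008602f00046820037017800230080160128014805e0008b04001402f00045010057025004b80bc0010a08000c05e0008402015404a00e501780020c1001b8008003c00200160008030483))) 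
(.nd (nat_lit 27) (.lf (nat_lit 5436080141) (dlOf (nat_lit 2) (nat_lit 0x401100c8d0180c0000))) 
(.lf (nat_lit 201588749) (dlOf (nat_lit 12) (nat_lit 0x64094008002f0004e020036025002e80bc0013608008005e0009a0201c404a011f017800780b80012c0c006c094008602f00046820037017800230080160128014805e0008b04001402f00045010057025004b80bc0010a08000c05e0008402015404a00e501780020c1001b8008003c00200160008030483))))) 
(.nd (nat_lit 26) (.nd (nat_lit 20) 
(.lf (nat_lit 2819358733) (dlOf (nat_lit 3) (nat_lit 0x14086000a01c000b882000b010000000080038008005800200020008250183))) 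
(.lf (nat_lit 10223629) (dlOf (nat_lit 1) (nat_lit 0x180080008002000400085c0483)))) 
(.nd (nat_lit 9) 
(.lf (nat_lit 2754347021) (dlOf (nat_lit 4) (nat_lit 0x44150002800a0003e0200190050001d40801202a000840140007304000200080d0481))) 
(.lf (nat_lit 4362866189) (dlOf (nat_lit 1) (nat_lit 0x4002003c0008117082)))))) (.nd (nat_lit 20) 
(.nd (nat_lit 10) (.nd (nat_lit 24) 
(.lf (nat_lit 12845069) (dlOf (nat_lit 3) (nat_lit 0x4a9100004808007d48800022040048004004400186e0382))) 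
(.lf (nat_lit 63176717) (dlOf (nat_lit 1) (nat_lit 0x800800e4002003400099f0183)))) 
(.lf (nat_lit 46402573) (dlOf (nat_lit 32) (nat_lit 0x1a6d180093687017fb410012d9f40172cee065b5fb000ca84002cd26800204a80005612029d68c026bb41019bd7ec004e934000550801ed5fb0002a010001b43800159f401aebf600095ed000298400d6b4100c457ec0009c08003ad0400895fb00026020018aff011757ec0009408006abfc04355fb00022820096afd80010c0801d57f805eebf6000420402c55fb0002081017cafd8001000811ed7ec0007e0406aebf60003e0200375fb0001e81034bafd8000f0081a457ec00076040806bf6000370200d95fb0001b01010aafd8000d00808cd7ec0006604053ed18050b682001caff01add7ec000641004a2bf60003102014b5fe010dafd8000b41003257f80005804023ebfc00c15fb0000b8200bbb4100b3d7ec0002c08000ad26022568c0394b410009d8740eeabf6003400000009860011b4601435a080c92bf6000120600dd5fb00008010057afd8000000862e800801cc002009a0009385f83)))) 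
(.nd (nat_lit 9) (.nd (nat_lit 19) 
(.lf (nat_lit 15990797) (dlOf (nat_lit 1) (nat_lit 0x180018850281))) 
(.lf (nat_lit 22806541) (dlOf (nat_lit 1) (nat_lit 0xc0008b30081)))) 
(.lf (nat_lit 41157133) (dlOf (nat_lit 1) (nat_lit 0x1bc00400160019227b02)))))) (.nd (nat_lit 26) 
(.nd (nat_lit 27) (.nd (nat_lit 19) (.nd (nat_lit 29) 
(.lf (nat_lit 1342439437) (dlOf (nat_lit 1) (nat_lit 0xc004000a0008030482))) 
(.lf (nat_lit 2953052173) (dlOf (nat_lit 1) (nat_lit 0x18008000c002000800080e0283)))) 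
(.lf (nat_lit 3492544525) (dlOf (nat_lit 4) (nat_lit 0x44156002800a0003e0200190050001d40801202ac00840140007304000200080d0481)))) 
(.nd (nat_lit 8) (.lf (nat_lit 3087269901) (dlOf (nat_lit 1) (nat_lit 0x260008160481))) 
(.lf (nat_lit 6308498189) (dlOf (nat_lit 1) (nat_lit 0x80080008002000200080d5b03))))) 
(.nd (nat_lit 19) (.nd (nat_lit 29) 
(.lf (nat_lit 470024205) (dlOf (nat_lit 1) (nat_lit 0xc004000a0008030482))) 
(.lf (nat_lit 5301862413) (dlOf (nat_lit 2) (nat_lit 0x401100e338180c0000)))) (.nd (nat_lit 20) 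
(.lf (nat_lit 3557556237) (dlOf (nat_lit 8) (nat_lit 0x2280de002805b002401a000700ac001801000600de000bf0201bc04900c2024000200ec02f00420160020000460500e20248064812003040420154020000458400e0024805f812002f80420162020000448400e502480648120030c0420162020000440400b8024805700840010c08008400401340018260182))) 
(.lf (nat_lit 471597069) (dlOf (nat_lit 9) (nat_lit 0x442c2002209d001104700183c180038584002013a000a08e0030483000f0b080078274002811c005fc06000e161000804e8002823800bf40c00342c2001a09d000e0470016e0180058584004813a000408e002d48300010b08000827400b3e0800302c2001209d00050470016701800c8008001400200080008350283)))))))) 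
(.nd (nat_lit 26) (.nd (nat_lit 10) (.nd (nat_lit 31) (.nd (nat_lit 18) (.nd (nat_lit 19) 
(.lf (nat_lit 2097293) (dlOf (nat_lit 2) (nat_lit 0x574d0002b5780015a94000a16e00050490001d858150100))) 
(.lf (nat_lit 23593101) (dlOf (nat_lit 1) (nat_lit 0x8008000800200060008b80103)))) (.nd (nat_lit 8) 
(.nd (nat_lit 19) 
(.lf (nat_lit 1074004109) (dlOf (nat_lit 2) (nat_lit 0x90148000d8080008008000c002000a0008090103))) 
(.lf (nat_lit 1835149) (dlOf (nat_lit 2) (nat_lit 0x387440007604000400400020018150102)))) 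
(.lf (nat_lit 53741965) (dlOf (nat_lit 1) (nat_lit 0x8002000200095f4e82))))) (.nd (nat_lit 30) 
(.nd (nat_lit 27) (.lf (nat_lit 2416181389) (dlOf (nat_lit 1) (nat_lit 0x800400020008090102))) 
(.lf (nat_lit 2550399117) (dlOf (nat_lit 1) (nat_lit 0x800400020008090102)))) (.nd (nat_lit 11) 
(.lf (nat_lit 3491496077) (dlOf (nat_lit 2) (nat_lit 0x630460000d8080040008000800200100008090103))) 
(.lf (nat_lit 3221227661) (dlOf (nat_lit 1) (nat_lit 0x360018004801)))))) (.nd (nat_lit 27) 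
(.nd (nat_lit 28) (.nd (nat_lit 8) 
(.lf (nat_lit 4294974605) (dlOf (nat_lit 1) (nat_lit 0x40040002000800c202))) 
(.lf (nat_lit 8127885) (dlOf (nat_lit 1) (nat_lit 0x400200020008513602)))) (.nd (nat_lit 31) 
(.lf (nat_lit 1342184589) (dlOf (nat_lit 1) (nat_lit 0x2002800c201))) 
(.lf (nat_lit 3489668237) (dlOf (nat_lit 1) (nat_lit 0x40040002000800c202))))) (.nd (nat_lit 29) 
(.nd (nat_lit 28) 
(.lf (nat_lit 134225037) (dlOf (nat_lit 1) (nat_lit 0x800800040020002000800c203))) 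
(.lf (nat_lit 2550144141) (dlOf (nat_lit 1) (nat_lit 0x40040002000800c202)))) (.nd (nat_lit 8) 
(.lf (nat_lit 6039803021) (dlOf (nat_lit 1) (nat_lit 0xa8008009400200ec0008009503))) 
(.lf (nat_lit 2818838413) (dlOf (nat_lit 1) (nat_lit 0x800400020018127782))))))) (.nd (nat_lit 12) 
(.nd (nat_lit 28) (.nd (nat_lit 8) (.nd (nat_lit 10) 
(.lf (nat_lit 2753298573) (dlOf (nat_lit 2) (nat_lit 0xc02240006c04000800200060008090102))) 
(.lf (nat_lit 2885684365) (dlOf (nat_lit 1) (nat_lit 0x20028006181)))) (.nd (nat_lit 9) 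
(.lf (nat_lit 3288337805) (dlOf (nat_lit 1) (nat_lit 0x14002000a0008006c82))) 
(.lf (nat_lit 2214593421) (dlOf (nat_lit 1) (nat_lit 0x180028002581))))) (.nd (nat_lit 18) 
(.nd (nat_lit 8) 
(.lf (nat_lit 1409810573) (dlOf (nat_lit 2) (nat_lit 0x5803c000000200080028090101))) 
(.lf (nat_lit 4227861901) (dlOf (nat_lit 2) (nat_lit 0x2700000002c04013c00200080008006c82)))) 
(.nd (nat_lit 27) 
(.lf (nat_lit 1946419341) (dlOf (nat_lit 2) (nat_lit 0x90148000d8080008008000c002000a0008090103))) 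
(.lf (nat_lit 5301862541) (dlOf (nat_lit 1) (nat_lit 0x200280c0f81)))))) (.nd (nat_lit 31) 
(.nd (nat_lit 8) (.nd (nat_lit 29) 
(.lf (nat_lit 1409293453) (dlOf (nat_lit 1) (nat_lit 0x5000800300020018000800c203))) 
(.lf (nat_lit 1946164365) (dlOf (nat_lit 1) (nat_lit 0x40040002000800c202)))) (.nd (nat_lit 10) 
(.lf (nat_lit 67113357) (dlOf (nat_lit 1) (nat_lit 0x40018008381))) 
(.lf (nat_lit 1409293709) (dlOf (nat_lit 1) (nat_lit 0x40040028001800c902))))) (.nd (nat_lit 27) 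
(.nd (nat_lit 28) 
(.lf (nat_lit 3288341645) (dlOf (nat_lit 1) (nat_lit 0x800800040020002000800c203))) 
(.lf (nat_lit 2483035277) (dlOf (nat_lit 1) (nat_lit 0x80080014002000c000800c203)))) 
(.nd (nat_lit 28) 
(.lf (nat_lit 2885688461) (dlOf (nat_lit 1) (nat_lit 0x800800040020002000800c203))) 
(.lf (nat_lit 4227865741) (dlOf (nat_lit 1) (nat_lit 0x40040002000800c202))))))))) (.nd (nat_lit 8) 
(.nd (nat_lit 12) (.nd (nat_lit 20) (.nd (nat_lit 29) (.nd (nat_lit 18) (.nd (nat_lit 21) 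
(.lf (nat_lit 25165901) (dlOf (nat_lit 1) (nat_lit 0x300028be1501))) 
(.lf (nat_lit 31457357) (dlOf (nat_lit 1) (nat_lit 0x8008004000200020008e90003)))) 
(.nd (nat_lit 19) (.nd (nat_lit 26) 
(.lf (nat_lit 134479949) (dlOf (nat_lit 5) (nat_lit 0x8010c0338082003c03f004d0180000602001600c400e402200004040002031000b00880000810002015001e4062000603000680088000002014b8008005400200420008030f83))) 
(.lf (nat_lit 201588813) (dlOf (nat_lit 5) (nat_lit 0x8010c0338082003c03f004d0180000602001600c400e402200004040002031000b00880000810002015401e4062000603000680088000002014b8008005400200420008030f83)))) 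
(.lf (nat_lit 3492544589) (dlOf (nat_lit 3) (nat_lit 0x2008000100000015810005802000240000005404001200180d0d01))))) 
(.nd (nat_lit 18) (.nd (nat_lit 7) 
(.lf (nat_lit 1881669709) (dlOf (nat_lit 1) (nat_lit 0x100028fc1601))) 
(.lf (nat_lit 4026534093) (dlOf (nat_lit 1) (nat_lit 0xb000400080008004a02)))) (.nd (nat_lit 19) 
(.nd (nat_lit 26) 
(.lf (nat_lit 537133133) (dlOf (nat_lit 1) (nat_lit 0x78008002c00200200008020903))) 
(.lf (nat_lit 4899209293) (dlOf (nat_lit 1) (nat_lit 0x1a00180d0001)))) 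
(.lf (nat_lit 2754347085) (dlOf (nat_lit 3) (nat_lit 0x2008000100000013c10005802000240000004d04001200180d0d01)))))) 
(.nd (nat_lit 21) (.nd (nat_lit 18) (.nd (nat_lit 9) 
(.lf (nat_lit 13631565) (dlOf (nat_lit 2) (nat_lit 0x5800000096040008002000c0008730d02))) 
(.lf (nat_lit 34605645) (dlOf (nat_lit 1) (nat_lit 0x3d0008001c00200140008fb5283)))) 
(.nd (nat_lit 7) (.lf (nat_lit 39059533) (dlOf (nat_lit 1) (nat_lit 0x8008000400200020009190003))) 
(.lf (nat_lit 14418125) (dlOf (nat_lit 1) (nat_lit 0xc0028750481))))) (.nd (nat_lit 19) 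
(.nd (nat_lit 9) 
(.lf (nat_lit 1345323085) (dlOf (nat_lit 1) (nat_lit 0x8008000400200020008b50003))) 
(.lf (nat_lit 53742157) (dlOf (nat_lit 1) (nat_lit 0x80080004002000200095f5283)))) (.nd (nat_lit 7) 
(.lf (nat_lit 45875277) (dlOf (nat_lit 1) (nat_lit 0x780019360681))) 
(.lf (nat_lit 12320973) (dlOf (nat_lit 1) (nat_lit 0x20004000200086c0482))))))) (.nd (nat_lit 11) 
(.nd (nat_lit 7) (.nd (nat_lit 26) 
(.lf (nat_lit 2952795213) (dlOf (nat_lit 1) (nat_lit 0xf0008036800202380008009303))) 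
(.lf (nat_lit 3690992717) (dlOf (nat_lit 1) (nat_lit 0x20018009301)))) (.nd (nat_lit 18) 
(.nd (nat_lit 20) (.lf (nat_lit 1476399821) (dlOf (nat_lit 1) (nat_lit 0x20028008c81))) 
(.lf (nat_lit 19927757) (dlOf (nat_lit 1) (nat_lit 0x4002000200089d8c82)))) 
(.lf (nat_lit 3557036749) (dlOf (nat_lit 1) (nat_lit 0x400200020008128c82))))) (.nd (nat_lit 27) 
(.nd (nat_lit 30) (.nd (nat_lit 26) 
(.lf (nat_lit 2415925325) (dlOf (nat_lit 1) (nat_lit 0x40040002000800a682))) 
(.lf (nat_lit 4362082381) (dlOf (nat_lit 1) (nat_lit 0x1a800800c4002006a000800a683)))) 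
(.nd (nat_lit 7) (.lf (nat_lit 4026538061) (dlOf (nat_lit 1) (nat_lit 0x40040002000800a682))) 
(.lf (nat_lit 1342183629) (dlOf (nat_lit 1) (nat_lit 0x2002800a881))))) (.nd (nat_lit 9) 
(.nd (nat_lit 26) (.lf (nat_lit 4429191245) (dlOf (nat_lit 1) (nat_lit 0x40040002000800a682))) 
(.lf (nat_lit 469768269) (dlOf (nat_lit 1) (nat_lit 0x2001800a681)))) 
(.lf (nat_lit 4429191757) (dlOf (nat_lit 1) (nat_lit 0x2002800b601))))))) (.nd (nat_lit 9) 
(.nd (nat_lit 19) (.nd (nat_lit 20) (.nd (nat_lit 7) 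
(.lf (nat_lit 2097485) (dlOf (nat_lit 1) (nat_lit 0xa0018150601))) (.nd (nat_lit 11) 
(.lf (nat_lit 3690993101) (dlOf (nat_lit 1) (nat_lit 0x90002002e0008009b02))) 
(.lf (nat_lit 1409289677) (dlOf (nat_lit 1) (nat_lit 0x400200020008006d02))))) (.nd (nat_lit 26) 
(.nd (nat_lit 28) (.lf (nat_lit 1048909) (dlOf (nat_lit 1) (nat_lit 0x400200020008068902))) 
(.lf (nat_lit 3490709837) (dlOf (nat_lit 1) (nat_lit 0xe0018014c81)))) 
(.lf (nat_lit 2752512333) (dlOf (nat_lit 1) (nat_lit 0xe0018014c81))))) (.nd (nat_lit 7) 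
(.nd (nat_lit 10) (.nd (nat_lit 18) 
(.lf (nat_lit 25690445) (dlOf (nat_lit 1) (nat_lit 0x400200020008c10802))) 
(.lf (nat_lit 1835341) (dlOf (nat_lit 1) (nat_lit 0x20018150601)))) 
(.lf (nat_lit 19666253) (dlOf (nat_lit 1) (nat_lit 0x200080010002000a00089d9903)))) 
(.nd (nat_lit 10) 
(.lf (nat_lit 12059085) (dlOf (nat_lit 1) (nat_lit 0x30008000c002000400086c0a03))) 
(.lf (nat_lit 8127949) (dlOf (nat_lit 1) (nat_lit 0x400200020008513602)))))) (.nd (nat_lit 26) 
(.nd (nat_lit 27) (.nd (nat_lit 12) (.nd (nat_lit 7) 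
(.lf (nat_lit 20187981) (dlOf (nat_lit 1) (nat_lit 0x80080004002000200089d5c03))) 
(.lf (nat_lit 62391245) (dlOf (nat_lit 1) (nat_lit 0x4004000200099a2882)))) (.nd (nat_lit 29) 
(.lf (nat_lit 1342184269) (dlOf (nat_lit 1) (nat_lit 0x80040104001800bc82))) 
(.lf (nat_lit 1879055181) (dlOf (nat_lit 1) (nat_lit 0x40040002000800bc82))))) (.nd (nat_lit 7) 
(.nd (nat_lit 28) (.lf (nat_lit 134224717) (dlOf (nat_lit 1) (nat_lit 0x100040002001800bc82))) 
(.lf (nat_lit 2550143821) (dlOf (nat_lit 1) (nat_lit 0x40040002000800bc82)))) 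
(.lf (nat_lit 3623884749) (dlOf (nat_lit 1) (nat_lit 0x6000800100020014000800a603))))) 
(.nd (nat_lit 7) (.nd (nat_lit 27) (.nd (nat_lit 29) 
(.lf (nat_lit 1409293133) (dlOf (nat_lit 2) (nat_lit 0x2e0330056d01800bc80))) 
(.lf (nat_lit 1946164045) (dlOf (nat_lit 1) (nat_lit 0x40040002000800bc82)))) 
(.lf (nat_lit 4227865421) (dlOf (nat_lit 2) (nat_lit 0x21020002bec08008800800540020004000800bc83)))) 
(.nd (nat_lit 10) (.nd (nat_lit 11) (.nd (nat_lit 30) 
(.lf (nat_lit 4362077133) (dlOf (nat_lit 1) (nat_lit 0x340028002881))) 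
(.lf (nat_lit 5435818957) (dlOf (nat_lit 1) (nat_lit 0x180028002881)))) 
(.lf (nat_lit 4496559053) (dlOf (nat_lit 3) (nat_lit 0x101900006c0800100d000030040094002000e00080e5d82)))) 
(.lf (nat_lit 4362082253) (dlOf (nat_lit 1) (nat_lit 0x40040002000800a602))))))))) 
(.nd (nat_lit 18) (.nd (nat_lit 26) (.nd (nat_lit 19) (.nd (nat_lit 27) (.nd (nat_lit 6) 
(.nd (nat_lit 9) (.nd (nat_lit 10) 
(.lf (nat_lit 19955981) (dlOf (nat_lit 1) (nat_lit 0x200189d0a81))) 
(.lf (nat_lit 1342213389) (dlOf (nat_lit 1) (nat_lit 0xc00400240008006682)))) (.nd (nat_lit 7) 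
(.lf (nat_lit 2952826637) (dlOf (nat_lit 1) (nat_lit 0xf00080078002003a0008007483))) 
(.lf (nat_lit 2684393101) (dlOf (nat_lit 4) (nat_lit 0x10034000ec04001001a0007102001000d00050000000001000b0008005c00200160008009e03))))) 
(.nd (nat_lit 8) (.lf (nat_lit 3493888205) (dlOf (nat_lit 2) (nat_lit 0x301fc000e28181b0480))) 
(.nd (nat_lit 28) 
(.lf (nat_lit 5368744909) (dlOf (nat_lit 3) (nat_lit 0xb00a800c805000380260006011000b00280008828000805400000040070002001e0008005d82))) 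
(.lf (nat_lit 6710922189) (dlOf (nat_lit 4) (nat_lit 0x380500003604001802c000e015001000a000880140003210001c02c000c0150001002800000180020008008400200320008005d83)))))) 
(.nd (nat_lit 7) (.nd (nat_lit 8) (.nd (nat_lit 9) 
(.lf (nat_lit 402689037) (dlOf (nat_lit 2) (nat_lit 0x800c0004a0200020008005f81))) 
(.lf (nat_lit 671125005) (dlOf (nat_lit 4) (nat_lit 0xf803c0006604000401e0003202002600f00018018007080)))) 
(.lf (nat_lit 4160787725) (dlOf (nat_lit 1) (nat_lit 0x400400080008009682)))) (.nd (nat_lit 8) 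
(.nd (nat_lit 12) 
(.lf (nat_lit 134253709) (dlOf (nat_lit 3) (nat_lit 0x200000000900800a00000004404005000200e40008006182))) 
(.lf (nat_lit 134257805) (dlOf (nat_lit 4) (nat_lit 0x9c0940016002004e04a0027023000570100138128002b4040010004000a000800c202)))) 
(.nd (nat_lit 6) 
(.lf (nat_lit 2818607501) (dlOf (nat_lit 2) (nat_lit 0x880000197e0402d800201140008004e82))) 
(.lf (nat_lit 1476432845) (dlOf (nat_lit 1) (nat_lit 0x20028009201))))))) (.nd (nat_lit 21) 
(.nd (nat_lit 28) (.nd (nat_lit 6) (.nd (nat_lit 7) 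
(.lf (nat_lit 9994253) (dlOf (nat_lit 1) (nat_lit 0x300080038002001c00085a0a03))) 
(.lf (nat_lit 537428109) (dlOf (nat_lit 21) (nat_lit 0x68e05c0002d01025402e000164081a38170000ae040ff40b80005602041a05c000290104e602e000144082480170000a004004c0b80004f020a0605c0002701050302e000134082810170000980401b80b800a40240052010800128180048170004c04800220210001e83001002e0018809000e40420003b06000205c008701200430084000740c00540b80003702005c05f00d602e0085812c0040072009e03000f2012007f00840044016000361000b005c008f012004b00840002e0c00240b800160210000882071d02e000000080060008056800207cc0008090103)))) 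
(.lf (nat_lit 43548749) (dlOf (nat_lit 1) (nat_lit 0x80080004002000600092a0003)))) (.nd (nat_lit 6) 
(.nd (nat_lit 8) (.lf (nat_lit 3624435725) (dlOf (nat_lit 2) (nat_lit 0xb4040000000181a0480))) 
(.lf (nat_lit 1476952333) (dlOf (nat_lit 2) (nat_lit 0x12043000701e800400d000280540010020000500a0002003000140120014000000e8898317400)))) 
(.lf (nat_lit 3494412365) (dlOf (nat_lit 3) (nat_lit 0xc03c0002c02000c04200015018220d00))))) 
(.nd (nat_lit 22) (.nd (nat_lit 28) (.nd (nat_lit 23) 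
(.lf (nat_lit 19431437) (dlOf (nat_lit 1) (nat_lit 0x200189a0a01))) 
(.lf (nat_lit 11042829) (dlOf (nat_lit 11) (nat_lit 0x1c67f00214f9a00487cb00183aa801f8f2c00ec792004c0000002187010ccfe001e9f3400d0f96011c753001b1e5802a0f240338000000420e011e7cd00023aa80038000000820c00ac0000003f0200540000001e8102480000000ec0800800000007404001c00000039020011a090001c01001c3e68000440800600080018002002a0008660103)))) 
(.nd (nat_lit 6) 
(.lf (nat_lit 3492315149) (dlOf (nat_lit 1) (nat_lit 0x1880080024002001200080c0803))) 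
(.lf (nat_lit 3493363789) (dlOf (nat_lit 2) (nat_lit 0x2781a001600840018029003d011802500780001614007400400120008120f82))))) 
(.nd (nat_lit 7) (.nd (nat_lit 6) (.nd (nat_lit 9) 
(.lf (nat_lit 15237133) (dlOf (nat_lit 1) (nat_lit 0x200287c0481))) 
(.lf (nat_lit 57182733) (dlOf (nat_lit 1) (nat_lit 0x70008000400200020009795003)))) 
(.lf (nat_lit 23626061) (dlOf (nat_lit 2) (nat_lit 0x40bc800165d68004ae54000640c008c00400480018b80602)))) 
(.nd (nat_lit 10) 
(.lf (nat_lit 23625869) (dlOf (nat_lit 2) (nat_lit 0x317a80026bbd00035d380062e94002d68a0002b3a000158d8000ec380128008000400200040008b80103))) 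
(.lf (nat_lit 49841293) (dlOf (nat_lit 1) (nat_lit 0x80080004002000200094c2b03)))))))) 
(.nd (nat_lit 31) (.nd (nat_lit 6) (.nd (nat_lit 7) (.nd (nat_lit 8) (.nd (nat_lit 11) 
(.lf (nat_lit 470843405) (dlOf (nat_lit 1) (nat_lit 0x200181c0481))) 
(.lf (nat_lit 4362115085) (dlOf (nat_lit 1) (nat_lit 0x8000800600020002000800a603)))) 
(.lf (nat_lit 5301635853) (dlOf (nat_lit 1) (nat_lit 0x18008001000200040008005b03)))) 
(.nd (nat_lit 9) (.nd (nat_lit 10) 
(.lf (nat_lit 1409843341) (dlOf (nat_lit 2) (nat_lit 0x22017000000040068004000e0008090102))) 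
(.lf (nat_lit 473465997) (dlOf (nat_lit 2) (nat_lit 0x207d000088080008008000c00200140008f52b03)))) 
(.nd (nat_lit 10) (.lf (nat_lit 6376426125) (dlOf (nat_lit 1) (nat_lit 0x400200020008095482))) 
(.lf (nat_lit 67147405) (dlOf (nat_lit 1) (nat_lit 0x160018009e01)))))) (.nd (nat_lit 7) 
(.nd (nat_lit 8) (.nd (nat_lit 9) 
(.lf (nat_lit 201365581) (dlOf (nat_lit 2) (nat_lit 0x1004c0000004002c004000e000800a682))) 
(.lf (nat_lit 472943181) (dlOf (nat_lit 1) (nat_lit 0x400200020008b55282)))) 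
(.lf (nat_lit 469796685) (dlOf (nat_lit 1) (nat_lit 0x14004001c0008003e82)))) (.nd (nat_lit 9) 
(.nd (nat_lit 10) (.lf (nat_lit 68717005) (dlOf (nat_lit 1) (nat_lit 0x60008724e81))) 
(.lf (nat_lit 1409322445) (dlOf (nat_lit 1) (nat_lit 0x400200020008006d02)))) (.nd (nat_lit 8) 
(.lf (nat_lit 67146445) (dlOf (nat_lit 1) (nat_lit 0x480080030002000c0008008c83))) 
(.lf (nat_lit 4764765133) (dlOf (nat_lit 2) (nat_lit 0x100b0000b8080018008001c00200140008005d83))))))) 
(.nd (nat_lit 28) (.nd (nat_lit 10) (.nd (nat_lit 6) (.nd (nat_lit 21) 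
(.lf (nat_lit 2886238221) (dlOf (nat_lit 2) (nat_lit 0xb4040000000181a0480))) 
(.lf (nat_lit 2754117645) (dlOf (nat_lit 1) (nat_lit 0x1880080024002001200080c0803)))) 
(.nd (nat_lit 20) 
(.lf (nat_lit 2756214861) (dlOf (nat_lit 3) (nat_lit 0xc03c0002d02000c04200015818220d00))) 
(.lf (nat_lit 2755166285) (dlOf (nat_lit 2) (nat_lit 0x2781a001600840018029003d011802500780001614007400400120008120f82))))) 
(.nd (nat_lit 7) (.nd (nat_lit 8) 
(.lf (nat_lit 2885717517) (dlOf (nat_lit 1) (nat_lit 0x400200020008007082))) 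
(.lf (nat_lit 3422590221) (dlOf (nat_lit 2) (nat_lit 0x200b0003c818009680)))) 
(.lf (nat_lit 6643816077) (dlOf (nat_lit 1) (nat_lit 0x30004001a0008009e02))))) (.nd (nat_lit 6) 
(.nd (nat_lit 7) (.nd (nat_lit 8) 
(.lf (nat_lit 3557326861) (dlOf (nat_lit 4) (nat_lit 0x3e01f8014840801680fc00a3e04003c0e40018c0200f600081c0481))) 
(.lf (nat_lit 4227894541) (dlOf (nat_lit 2) (nat_lit 0x101000003c04008800200140008006682)))) 
(.nd (nat_lit 10) (.lf (nat_lit 3019934093) (dlOf (nat_lit 1) (nat_lit 0x20028004e81))) 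
(.lf (nat_lit 2483064205) (dlOf (nat_lit 5) (nat_lit 0x440500002c020002028000120100160140000140801080a000000040004004000e0018006c82))))) 
(.nd (nat_lit 7) (.nd (nat_lit 9) 
(.lf (nat_lit 3154673741) (dlOf (nat_lit 6) (nat_lit 0xf00b0001640402200b0002c057007a029804401380218092000e046008901b803a00c002200420100020007700f801d806802200320024018003a00980440028017401200089220088057001d01b802a00d8015803e00c4018005400500320024001101c021c0b0001a0570030029804400dc020404000ca01f008800c80028060021c01400b8009000430a000500c800214080030008007800200100008310183))) 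
(.lf (nat_lit 4227894861) (dlOf (nat_lit 1) (nat_lit 0x400080020002000e0008007183)))) 
(.nd (nat_lit 9) (.lf (nat_lit 3154149837) (dlOf (nat_lit 1) (nat_lit 0x4004000a0008001102))) 
(.lf (nat_lit 3691025357) (dlOf (nat_lit 2) (nat_lit 0x6100a80000004001400400120008009202))))))))) 
(.nd (nat_lit 19) (.nd (nat_lit 26) (.nd (nat_lit 8) (.nd (nat_lit 22) (.nd (nat_lit 27) 
(.nd (nat_lit 7) (.nd (nat_lit 28) 
(.lf (nat_lit 2684649485) (dlOf (nat_lit 3) (nat_lit 0x6e033000210101190190000ec0802000080010002007a0008100103))) 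
(.lf (nat_lit 1879343117) (dlOf (nat_lit 2) (nat_lit 0x2612b000088180e0380)))) 
(.lf (nat_lit 11829389) (dlOf (nat_lit 2) (nat_lit 0x22dc8000ec0800500080024002002600086c0103)))) 
(.nd (nat_lit 6) (.nd (nat_lit 28) 
(.lf (nat_lit 134512653) (dlOf (nat_lit 1) (nat_lit 0xe0018050181))) 
(.lf (nat_lit 3087302669) (dlOf (nat_lit 1) (nat_lit 0x8008001400200040008170483)))) 
(.lf (nat_lit 1208254541) (dlOf (nat_lit 2) (nat_lit 0x20148000580800080080004002000200080b0603))))) 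
(.nd (nat_lit 6) (.nd (nat_lit 20) 
(.lf (nat_lit 3494150157) (dlOf (nat_lit 5) (nat_lit 0x110a8002080000ad608000442c0006215000510a0002880000ad410001842c0008215000810a0004080000ad210001842c000c215000810a0004080000ad0100004004000a00081c0682))) 
(.lf (nat_lit 30703629) (dlOf (nat_lit 1) (nat_lit 0x198008002c00200b60008e40783)))) 
(.lf (nat_lit 29655117) (dlOf (nat_lit 2) (nat_lit 0x10e9d400043018e30180))))) (.nd (nat_lit 6) 
(.nd (nat_lit 10) (.nd (nat_lit 11) 
(.lf (nat_lit 4697915789) (dlOf (nat_lit 1) (nat_lit 0x10004000200080c5d82))) 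
(.lf (nat_lit 39094669) (dlOf (nat_lit 1) (nat_lit 0x10008000400200020009194e83)))) 
(.lf (nat_lit 20221325) (dlOf (nat_lit 1) (nat_lit 0xc00189d6c81)))) (.nd (nat_lit 7) 
(.nd (nat_lit 9) (.lf (nat_lit 11829581) (dlOf (nat_lit 1) (nat_lit 0x4002000200086c0602))) 
(.lf (nat_lit 20220749) (dlOf (nat_lit 1) (nat_lit 0x4002000200089d5c02)))) (.nd (nat_lit 20) 
(.lf (nat_lit 8683981) (dlOf (nat_lit 1) (nat_lit 0x400200020008511102))) 
(.lf (nat_lit 3441101) (dlOf (nat_lit 1) (nat_lit 0x1c0028200a01))))))) (.nd (nat_lit 28) 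
(.nd (nat_lit 29) (.nd (nat_lit 27) (.nd (nat_lit 7) 
(.lf (nat_lit 2214887437) (dlOf (nat_lit 1) (nat_lit 0x20018100101))) 
(.lf (nat_lit 1141148045) (dlOf (nat_lit 1) (nat_lit 0x400400020008124e82)))) (.nd (nat_lit 30) 
(.lf (nat_lit 201621517) (dlOf (nat_lit 1) (nat_lit 0xe0018050181))) 
(.lf (nat_lit 3422846989) (dlOf (nat_lit 5) (nat_lit 0x9080cc041c058000430403d403301250160001081008d80cc0510058000410407c60320001d818120100))))) 
(.nd (nat_lit 6) (.nd (nat_lit 22) (.nd (nat_lit 30) 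
(.lf (nat_lit 604274701) (dlOf (nat_lit 1) (nat_lit 0x700080018002000a0008120283))) 
(.lf (nat_lit 3825500173) (dlOf (nat_lit 1) (nat_lit 0x8008001400200040008170483)))) 
(.lf (nat_lit 2755952653) (dlOf (nat_lit 5) (nat_lit 0x111500020854015cc080004456000622a000511480028854015ca100018456000822a000811480040854015c8100018456000c22a000811480040854015c6100004004000a00081c0682)))) 
(.lf (nat_lit 2751759309) (dlOf (nat_lit 1) (nat_lit 0x400400080008002882))))) (.nd (nat_lit 7) 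
(.nd (nat_lit 29) (.nd (nat_lit 20) 
(.lf (nat_lit 2617540621) (dlOf (nat_lit 1) (nat_lit 0xc002000600080e0202))) 
(.lf (nat_lit 471105549) (dlOf (nat_lit 2) (nat_lit 0x150508001f4080048008001800200160008270183)))) 
(.nd (nat_lit 6) (.lf (nat_lit 1006927885) (dlOf (nat_lit 2) (nat_lit 0x2612f000088180e0380))) 
(.lf (nat_lit 2080669773) (dlOf (nat_lit 2) (nat_lit 0x20148000580800080080004002000200080b0603))))) 
(.nd (nat_lit 6) (.nd (nat_lit 20) 
(.lf (nat_lit 5301897613) (dlOf (nat_lit 1) (nat_lit 0x9000080e4e81))) 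
(.lf (nat_lit 473205133) (dlOf (nat_lit 1) (nat_lit 0x800400060018d74e82)))) 
(.lf (nat_lit 3154411725) (dlOf (nat_lit 1) (nat_lit 0x20008001000200040008160483))))))) 
(.nd (nat_lit 6) (.nd (nat_lit 28) (.nd (nat_lit 20) (.nd (nat_lit 8) (.nd (nat_lit 10) 
(.lf (nat_lit 819213) (dlOf (nat_lit 1) (nat_lit 0x20018020481))) 
(.lf (nat_lit 19696653) (dlOf (nat_lit 3) (nat_lit 0xeabf4000140400995fa0000002000800089d5f81)))) 
(.lf (nat_lit 36472077) (dlOf (nat_lit 1) (nat_lit 0x10008000800200020009073003)))) 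
(.nd (nat_lit 7) (.nd (nat_lit 21) 
(.lf (nat_lit 10256397) (dlOf (nat_lit 1) (nat_lit 0x8002001600085c0482))) 
(.lf (nat_lit 24936461) (dlOf (nat_lit 1) (nat_lit 0x20018bd0a01)))) 
(.lf (nat_lit 2753331341) (dlOf (nat_lit 2) (nat_lit 0x85640000004000800400060008090102))))) 
(.nd (nat_lit 27) (.nd (nat_lit 7) (.nd (nat_lit 26) 
(.lf (nat_lit 1342996493) (dlOf (nat_lit 2) (nat_lit 0x208dc001ae04000400400020018130482))) 
(.lf (nat_lit 3557589005) (dlOf (nat_lit 2) (nat_lit 0x20230005c4080390008018400200300008270183)))) 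
(.lf (nat_lit 3491528845) (dlOf (nat_lit 2) (nat_lit 0x3c08c00fe0458000d8100020008000800200300008090103)))) 
(.nd (nat_lit 20) (.nd (nat_lit 29) 
(.lf (nat_lit 470581261) (dlOf (nat_lit 2) (nat_lit 0x208dc001ae04000400400020018130482))) 
(.lf (nat_lit 6376161293) (dlOf (nat_lit 1) (nat_lit 0xc0008090001)))) 
(.lf (nat_lit 471629837) (dlOf (nat_lit 2) (nat_lit 0x404e8016480801c000800a800200620008360283)))))) 
(.nd (nat_lit 21) (.nd (nat_lit 7) (.nd (nat_lit 23) (.nd (nat_lit 9) 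
(.lf (nat_lit 819277) (dlOf (nat_lit 1) (nat_lit 0xe0008020901))) 
(.lf (nat_lit 38570573) (dlOf (nat_lit 1) (nat_lit 0x400200020009135282)))) (.nd (nat_lit 20) 
(.lf (nat_lit 9207885) (dlOf (nat_lit 2) (nat_lit 0x391400009004002c004001a0018530602))) 
(.lf (nat_lit 10256461) (dlOf (nat_lit 3) (nat_lit 0x138c60009bd600002020017e31800cef5800000080008004003600185c0f82))))) 
(.nd (nat_lit 8) 
(.lf (nat_lit 5772182733) (dlOf (nat_lit 1) (nat_lit 0x680080088002001c0008092d83))) 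
(.lf (nat_lit 3490482637) (dlOf (nat_lit 1) (nat_lit 0x400200020008004e82))))) (.nd (nat_lit 7) 
(.nd (nat_lit 8) (.nd (nat_lit 9) 
(.lf (nat_lit 45908045) (dlOf (nat_lit 1) (nat_lit 0x20019360681))) 
(.lf (nat_lit 44862029) (dlOf (nat_lit 1) (nat_lit 0xc0009325281)))) 
(.lf (nat_lit 8164685) (dlOf (nat_lit 1) (nat_lit 0x20018519901)))) (.nd (nat_lit 9) 
(.lf (nat_lit 8160717) (dlOf (nat_lit 1) (nat_lit 0x400200020008513602))) 
(.lf (nat_lit 36471757) (dlOf (nat_lit 1) (nat_lit 0x400400020019072882)))))))))) (.nd (nat_lit 18) 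
(.nd (nat_lit 15) (.nd (nat_lit 6) (.nd (nat_lit 19) (.nd (nat_lit 26) (.nd (nat_lit 20) 
(.nd (nat_lit 10) (.nd (nat_lit 27) (.nd (nat_lit 11) 
(.lf (nat_lit 5100339213) (dlOf (nat_lit 1) (nat_lit 0x20018050001))) 
(.lf (nat_lit 8456205) (dlOf (nat_lit 1) (nat_lit 0x800200460008514702)))) (.nd (nat_lit 9) 
(.lf (nat_lit 3087073293) (dlOf (nat_lit 1) (nat_lit 0xc002000200080b0002))) 
(.lf (nat_lit 3355509261) (dlOf (nat_lit 1) (nat_lit 0x4004000200080a1482))))) (.nd (nat_lit 9) 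
(.nd (nat_lit 23) 
(.lf (nat_lit 54594573) (dlOf (nat_lit 7) (nat_lit 0x542a30001580802d9518000aa040138a8c000540200d2546000298100112a300014808005151800026040144004002c0009655f82))) 
(.lf (nat_lit 46205965) (dlOf (nat_lit 1) (nat_lit 0x2800200080009385f82)))) 
(.lf (nat_lit 6308300301) (dlOf (nat_lit 1) (nat_lit 0x40028053681))))) (.nd (nat_lit 21) 
(.nd (nat_lit 22) (.nd (nat_lit 24) 
(.lf (nat_lit 1114125) (dlOf (nat_lit 1) (nat_lit 0x28008001000200040008070183))) 
(.lf (nat_lit 17891341) (dlOf (nat_lit 2) (nat_lit 0xe5920008269800364100078008002c00200060008900583)))) 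
(.lf (nat_lit 5308429) (dlOf (nat_lit 1) (nat_lit 0x220018340281)))) (.nd (nat_lit 7) 
(.lf (nat_lit 15794189) (dlOf (nat_lit 1) (nat_lit 0x400400080008830182))) 
(.lf (nat_lit 19992973) (dlOf (nat_lit 1) (nat_lit 0x400289d8381)))))) (.nd (nat_lit 7) 
(.nd (nat_lit 8) (.nd (nat_lit 9) (.nd (nat_lit 10) 
(.lf (nat_lit 4362147853) (dlOf (nat_lit 1) (nat_lit 0x80040004001800a602))) 
(.lf (nat_lit 6375408653) (dlOf (nat_lit 1) (nat_lit 0x30008001c00200020008002883)))) 
(.lf (nat_lit 2214658573) (dlOf (nat_lit 1) (nat_lit 0x40028001481)))) (.nd (nat_lit 12) 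
(.lf (nat_lit 2617312013) (dlOf (nat_lit 1) (nat_lit 0x600180a2101))) 
(.lf (nat_lit 2214662925) (dlOf (nat_lit 1) (nat_lit 0x20028008f81))))) (.nd (nat_lit 8) 
(.nd (nat_lit 10) (.lf (nat_lit 2753626253) (dlOf (nat_lit 2) (nat_lit 0x5e0240001b018090100))) 
(.lf (nat_lit 3422622861) (dlOf (nat_lit 1) (nat_lit 0x400400040018009502)))) 
(.lf (nat_lit 872481165) (dlOf (nat_lit 1) (nat_lit 0x400400020008091002)))))) (.nd (nat_lit 20) 
(.nd (nat_lit 7) (.nd (nat_lit 10) (.nd (nat_lit 23) 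
(.lf (nat_lit 19464205) (dlOf (nat_lit 1) (nat_lit 0x10002000200089a0a02))) 
(.lf (nat_lit 11075597) (dlOf (nat_lit 2) (nat_lit 0x480000007604003000200040008660102)))) 
(.lf (nat_lit 1344865293) (dlOf (nat_lit 1) (nat_lit 0x8008000400200020008982883)))) 
(.nd (nat_lit 30) (.nd (nat_lit 21) 
(.lf (nat_lit 470352013) (dlOf (nat_lit 2) (nat_lit 0x3c2a20003b02000800180c0101))) 
(.lf (nat_lit 23658637) (dlOf (nat_lit 2) (nat_lit 0xa6780007604000c00200060008b80102)))) 
(.nd (nat_lit 8) 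
(.lf (nat_lit 1342767245) (dlOf (nat_lit 2) (nat_lit 0x3c2a20003b02000800180c0101))) 
(.lf (nat_lit 3490253197) (dlOf (nat_lit 1) (nat_lit 0x20018004e81)))))) (.nd (nat_lit 21) 
(.nd (nat_lit 10) 
(.lf (nat_lit 10027021) (dlOf (nat_lit 1) (nat_lit 0x2d80080088002005800085a0a03))) 
(.lf (nat_lit 56165389) (dlOf (nat_lit 1) (nat_lit 0x8008000400200020009732883)))) (.nd (nat_lit 8) 
(.nd (nat_lit 28) 
(.lf (nat_lit 3735565) (dlOf (nat_lit 2) (nat_lit 0x700000004c080098008002800200240008220383))) 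
(.lf (nat_lit 3493396493) (dlOf (nat_lit 2) (nat_lit 0x1010001370080010008000800200040008130483)))) 
(.lf (nat_lit 58261773) (dlOf (nat_lit 4) (nat_lit 0xe67180070008007b38c0032a0400119da0006cec000278297d7400))))))) 
(.nd (nat_lit 8) (.nd (nat_lit 22) (.nd (nat_lit 7) (.nd (nat_lit 27) (.nd (nat_lit 9) 
(.lf (nat_lit 16842829) (dlOf (nat_lit 6) (nat_lit 0x1fe3380030008029745c024f8d00125c67000cdf50014686400aeb6800110050010787004121b000ecd9e00e443f000460b0078e8b805371a002978ce000fbea000fada00243c380011618001fbfe00b5d170096e34004bf19c00237d4006da910031cde001456d0002e00a0038f0e002b4958041a1b0011cd9e00ea43f000448e0011e34000d719c0011008003c004004600188e0182))) 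
(.lf (nat_lit 11600461) (dlOf (nat_lit 1) (nat_lit 0xa4002000e00086c1182)))) (.nd (nat_lit 28) 
(.lf (nat_lit 3355508813) (dlOf (nat_lit 1) (nat_lit 0x700080004002001e00080a0003))) 
(.lf (nat_lit 2013331533) (dlOf (nat_lit 1) (nat_lit 0x400400020008000002))))) (.nd (nat_lit 10) 
(.nd (nat_lit 26) (.lf (nat_lit 805372109) (dlOf (nat_lit 2) (nat_lit 0x7c04f00123818090480))) 
(.lf (nat_lit 1677787341) (dlOf (nat_lit 2) (nat_lit 0x7c04f00123818090480)))) 
(.lf (nat_lit 134286541) (dlOf (nat_lit 3) (nat_lit 0x6000000190100020000000c4080008008002400200540008006403))))) 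
(.nd (nat_lit 20) (.nd (nat_lit 19) 
(.lf (nat_lit 12648525) (dlOf (nat_lit 1) (nat_lit 0x2400086d0f01))) (.nd (nat_lit 26) 
(.lf (nat_lit 3494445133) (dlOf (nat_lit 5) (nat_lit 0x1808c0005804030403c0002b0200ee01e0001501008b00f0000a0080128008005800200800008220d03))) 
(.lf (nat_lit 2756247629) (dlOf (nat_lit 5) (nat_lit 0x1808c0005a04030403c0002c0200ee01e0001581008b00f0000a4080128008005800200800008220d03))))) 
(.nd (nat_lit 7) (.lf (nat_lit 7936077) (dlOf (nat_lit 1) (nat_lit 0x10800800900020016000851a683))) 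
(.nd (nat_lit 11) (.lf (nat_lit 14221517) (dlOf (nat_lit 1) (nat_lit 0x40028750481))) 
(.lf (nat_lit 7936205) (dlOf (nat_lit 1) (nat_lit 0x2002851a881))))))) (.nd (nat_lit 11) 
(.nd (nat_lit 9) (.nd (nat_lit 10) (.nd (nat_lit 7) 
(.lf (nat_lit 23658829) (dlOf (nat_lit 1) (nat_lit 0x800200060008b80602))) 
(.lf (nat_lit 2818638285) (dlOf (nat_lit 1) (nat_lit 0x20008081101)))) (.nd (nat_lit 26) 
(.lf (nat_lit 6308300237) (dlOf (nat_lit 1) (nat_lit 0x40028053601))) 
(.lf (nat_lit 4899014093) (dlOf (nat_lit 1) (nat_lit 0x400200020008053602))))) (.nd (nat_lit 19) 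
(.nd (nat_lit 26) (.lf (nat_lit 3892380621) (dlOf (nat_lit 1) (nat_lit 0x9c0028102881))) 
(.lf (nat_lit 201393101) (dlOf (nat_lit 1) (nat_lit 0x7a0018002881)))) 
(.lf (nat_lit 61408205) (dlOf (nat_lit 1) (nat_lit 0x400400020009922882))))) (.nd (nat_lit 7) 
(.nd (nat_lit 9) (.nd (nat_lit 12) 
(.lf (nat_lit 201394509) (dlOf (nat_lit 1) (nat_lit 0x60018004d81))) 
(.lf (nat_lit 201398605) (dlOf (nat_lit 1) (nat_lit 0x14000800ab81)))) 
(.lf (nat_lit 134290253) (dlOf (nat_lit 5) (nat_lit 0x1d021000280f8001407a000a031000301600140044015f618000408000ada0200d6043004af0100010208012400801200080040002008e000800bc83)))) 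
(.nd (nat_lit 26) (.nd (nat_lit 19) 
(.lf (nat_lit 48302541) (dlOf (nat_lit 1) (nat_lit 0x15000800d800200280009404e83))) 
(.lf (nat_lit 1346963917) (dlOf (nat_lit 1) (nat_lit 0x140009104e81)))) (.nd (nat_lit 9) 
(.lf (nat_lit 474024397) (dlOf (nat_lit 1) (nat_lit 0x20019004e81))) 
(.lf (nat_lit 5704321997) (dlOf (nat_lit 2) (nat_lit 0x500c8001002c0005408005c00200100008055d82))))))))) 
(.nd (nat_lit 6) (.nd (nat_lit 10) (.nd (nat_lit 19) (.nd (nat_lit 22) (.nd (nat_lit 27) 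
(.nd (nat_lit 7) (.lf (nat_lit 25264141) (dlOf (nat_lit 2) (nat_lit 0x9568000cf0200020018bf0481))) 
(.lf (nat_lit 2195597) (dlOf (nat_lit 2) (nat_lit 0x1052e0000ec0800d8008004c002005e0008150103)))) 
(.nd (nat_lit 26) 
(.lf (nat_lit 4697718797) (dlOf (nat_lit 10) (nat_lit 0x500d0001c064001001f00dd583000701a000280c8001803e01baa060012034000c019006ea01000580d00028064000a01f00dd303000b01a006e640800d80d00365404008406801b2902003e03400d9381000101a00000008006800800f0002001e0008090003))) 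
(.lf (nat_lit 2348908557) (dlOf (nat_lit 1) (nat_lit 0xc0008020481))))) (.nd (nat_lit 9) 
(.nd (nat_lit 20) (.lf (nat_lit 12681229) (dlOf (nat_lit 1) (nat_lit 0x6000086d0681))) 
(.lf (nat_lit 47284237) (dlOf (nat_lit 1) (nat_lit 0x1c400093c0001)))) 
(.lf (nat_lit 39946765) (dlOf (nat_lit 1) (nat_lit 0x1500080004002001000091f5003))))) 
(.nd (nat_lit 21) (.nd (nat_lit 26) (.nd (nat_lit 22) (.nd (nat_lit 27) 
(.lf (nat_lit 1342799885) (dlOf (nat_lit 1) (nat_lit 0x4004000200080d0682))) 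
(.lf (nat_lit 2819194893) (dlOf (nat_lit 1) (nat_lit 0x18600281e0281)))) 
(.lf (nat_lit 55148557) (dlOf (nat_lit 1) (nat_lit 0x200296c0081)))) (.nd (nat_lit 20) 
(.lf (nat_lit 470384653) (dlOf (nat_lit 1) (nat_lit 0x4004000200080d0682))) (.nd (nat_lit 29) 
(.lf (nat_lit 471433229) (dlOf (nat_lit 1) (nat_lit 0x200282f0781))) 
(.lf (nat_lit 1008304141) (dlOf (nat_lit 1) (nat_lit 0xc00400020008b50002)))))) (.nd (nat_lit 7) 
(.nd (nat_lit 20) (.lf (nat_lit 27885581) (dlOf (nat_lit 1) (nat_lit 0x40008d40181))) 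
(.lf (nat_lit 16351245) (dlOf (nat_lit 5) (nat_lit 0x34ab2000b1020034569001f2b4000915640014a7a00043dd000438500052a30001f8080039514000000400e0004000e0018890182)))) 
(.nd (nat_lit 8) 
(.lf (nat_lit 23691405) (dlOf (nat_lit 2) (nat_lit 0x1b2a80007604001000200040008b80102))) 
(.lf (nat_lit 69831053) (dlOf (nat_lit 1) (nat_lit 0x920018cd4e81))))))) (.nd (nat_lit 8) 
(.nd (nat_lit 24) (.nd (nat_lit 7) 
(.lf (nat_lit 5637245965) (dlOf (nat_lit 1) (nat_lit 0x400400280008055f82))) (.nd (nat_lit 26) 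
(.lf (nat_lit 105613) (dlOf (nat_lit 1) (nat_lit 0x2001800c201))) 
(.lf (nat_lit 5838576781) (dlOf (nat_lit 1) (nat_lit 0x100080004002000200080fc203))))) 
(.nd (nat_lit 11) (.nd (nat_lit 19) 
(.lf (nat_lit 60916749) (dlOf (nat_lit 1) (nat_lit 0xc002000200098c2882))) 
(.lf (nat_lit 56198157) (dlOf (nat_lit 1) (nat_lit 0x20009732881)))) (.nd (nat_lit 9) 
(.lf (nat_lit 54627341) (dlOf (nat_lit 1) (nat_lit 0x1000200040009655f82))) 
(.lf (nat_lit 20549133) (dlOf (nat_lit 2) (nat_lit 0x1681800064040004002000200089d7082)))))) 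
(.nd (nat_lit 7) (.nd (nat_lit 9) 
(.lf (nat_lit 2617349389) (dlOf (nat_lit 2) (nat_lit 0x70048000f2040008004000200080a9682))) 
(.nd (nat_lit 23) 
(.lf (nat_lit 469864205) (dlOf (nat_lit 1) (nat_lit 0x28008000800200060008007483))) 
(.lf (nat_lit 8490765) (dlOf (nat_lit 1) (nat_lit 0x20008517481))))) (.nd (nat_lit 9) 
(.lf (nat_lit 134319501) (dlOf (nat_lit 1) (nat_lit 0x1000800e800200040008006c83))) 
(.lf (nat_lit 102285) (dlOf (nat_lit 1) (nat_lit 0x80018007781))))))) (.nd (nat_lit 9) 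
(.nd (nat_lit 29) (.nd (nat_lit 30) (.nd (nat_lit 22) (.nd (nat_lit 8) 
(.lf (nat_lit 6442555469) (dlOf (nat_lit 1) (nat_lit 0x4004000200080fa682))) 
(.lf (nat_lit 2195789) (dlOf (nat_lit 1) (nat_lit 0x4002007e0008150602)))) (.nd (nat_lit 23) 
(.lf (nat_lit 37847117) (dlOf (nat_lit 1) (nat_lit 0x3200190d0001))) 
(.lf (nat_lit 12681293) (dlOf (nat_lit 1) (nat_lit 0x4002000200086d0f02))))) (.nd (nat_lit 8) 
(.nd (nat_lit 19) 
(.lf (nat_lit 1140949069) (dlOf (nat_lit 3) (nat_lit 0x300980002804002804a0000002000c0008020601))) 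
(.lf (nat_lit 3492380749) (dlOf (nat_lit 2) (nat_lit 0xfc3d00002202000200280c1501)))) 
(.lf (nat_lit 3691086157) (dlOf (nat_lit 1) (nat_lit 0x40008010801))))) (.nd (nat_lit 7) 
(.nd (nat_lit 19) (.nd (nat_lit 8) 
(.lf (nat_lit 2013364301) (dlOf (nat_lit 3) (nat_lit 0x300980002804002804a0000002000c0008020601))) 
(.lf (nat_lit 738296141) (dlOf (nat_lit 5) (nat_lit 0x100aa00040370001302000502a800300dc0004808000c0aa00040370001102000202a800180dc0003e08000400400160018090d02)))) 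
(.nd (nat_lit 21) 
(.lf (nat_lit 3960045645) (dlOf (nat_lit 2) (nat_lit 0x130230000000800880080004002001400081a1883))) 
(.lf (nat_lit 2754183245) (dlOf (nat_lit 2) (nat_lit 0x4a1fa0003f8180c1880))))) (.nd (nat_lit 26) 
(.nd (nat_lit 28) (.lf (nat_lit 2684453069) (dlOf (nat_lit 1) (nat_lit 0x100018013c01))) 
(.lf (nat_lit 805404877) (dlOf (nat_lit 2) (nat_lit 0x1a80e00048e04000800400520008090482)))) 
(.lf (nat_lit 1677820109) (dlOf (nat_lit 2) (nat_lit 0x1a80e00048e04000800400520008090482)))))) 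
(.nd (nat_lit 7) (.nd (nat_lit 12) (.nd (nat_lit 10) 
(.lf (nat_lit 53578317) (dlOf (nat_lit 1) (nat_lit 0x580080004002001000095f5283))) 
(.lf (nat_lit 1610712653) (dlOf (nat_lit 1) (nat_lit 0x400200020008093882)))) (.nd (nat_lit 8) 
(.lf (nat_lit 6442555981) (dlOf (nat_lit 1) (nat_lit 0x800180fb601))) 
(.lf (nat_lit 5838576461) (dlOf (nat_lit 2) (nat_lit 0x180138005004000aa4080008004000400080fbc82))))) 
(.nd (nat_lit 11) (.nd (nat_lit 8) 
(.lf (nat_lit 20026061) (dlOf (nat_lit 1) (nat_lit 0x80080004002000200089d8c83))) (.nd (nat_lit 12) 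
(.lf (nat_lit 49906637) (dlOf (nat_lit 1) (nat_lit 0x8004000e00094c2882))) 
(.lf (nat_lit 1342280653) (dlOf (nat_lit 1) (nat_lit 0x90008001000200060008009203))))) 
(.nd (nat_lit 20) (.lf (nat_lit 4563504077) (dlOf (nat_lit 1) (nat_lit 0x20018095d81))) 
(.lf (nat_lit 20024269) (dlOf (nat_lit 1) (nat_lit 0x200089d5d81))))))))) (.nd (nat_lit 15) 
(.nd (nat_lit 6) (.nd (nat_lit 28) (.nd (nat_lit 21) (.nd (nat_lit 19) (.nd (nat_lit 27) 
(.nd (nat_lit 7) (.nd (nat_lit 8) 
(.lf (nat_lit 5369037837) (dlOf (nat_lit 1) (nat_lit 0x20004000800080e2882))) 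
(.lf (nat_lit 1678049549) (dlOf (nat_lit 1) (nat_lit 0x17a0028157d01)))) 
(.lf (nat_lit 46467981) (dlOf (nat_lit 1) (nat_lit 0x8008000400200020009385c83)))) 
(.nd (nat_lit 26) (.nd (nat_lit 29) 
(.lf (nat_lit 3355770893) (dlOf (nat_lit 1) (nat_lit 0xc004000c0008110082))) 
(.lf (nat_lit 671416333) (dlOf (nat_lit 3) (nat_lit 0xa0140002940800580a00014804004400400560018190182)))) 
(.lf (nat_lit 2349137933) (dlOf (nat_lit 1) (nat_lit 0x4004000400080d0482))))) (.nd (nat_lit 7) 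
(.nd (nat_lit 23) 
(.lf (nat_lit 2819424269) (dlOf (nat_lit 6) (nat_lit 0x10023000801140058042003002000044840016023000b01140068042003a02000044040025023000b01140060042003c0200004304001a023000c0114004c042001c0200004284000202300020c0802580080144002000e0008280183))) 
(.lf (nat_lit 9240589) (dlOf (nat_lit 1) (nat_lit 0x8008000400200020008530003)))) (.nd (nat_lit 26) 
(.lf (nat_lit 1900685) (dlOf (nat_lit 2) (nat_lit 0x6d4bc00c6a5c00505290011a8fc00b547a006aa2b00120000000ec380008008038c00200180008150103))) 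
(.lf (nat_lit 2753364109) (dlOf (nat_lit 2) (nat_lit 0x40448000d8080010008000400200020008090103)))))) 
(.nd (nat_lit 22) (.nd (nat_lit 7) (.nd (nat_lit 19) 
(.lf (nat_lit 2424845) (dlOf (nat_lit 4) (nat_lit 0x115f400476020006afa0023a81000257d0011d00800680080094002000e0008160683))) 
(.nd (nat_lit 20) 
(.lf (nat_lit 28114957) (dlOf (nat_lit 3) (nat_lit 0x1a96c00194a20007b040008a5b00065288001e8100028008001800200140008d50183))) 
(.lf (nat_lit 29163533) (dlOf (nat_lit 1) (nat_lit 0x20018dd0a01))))) (.nd (nat_lit 8) 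
(.lf (nat_lit 11862157) (dlOf (nat_lit 2) (nat_lit 0x47a928001547800cea2800114a40025a4c000400000007618003c004000600186c0102))) 
(.lf (nat_lit 20254093) (dlOf (nat_lit 2) (nat_lit 0x3161e0001902000400189d6c81))))) 
(.nd (nat_lit 8) (.nd (nat_lit 9) (.nd (nat_lit 23) 
(.lf (nat_lit 24444941) (dlOf (nat_lit 3) (nat_lit 0x65a440046d120001204003b6910003b44800044100010008005c00200120008ba0383))) 
(.lf (nat_lit 16056333) (dlOf (nat_lit 1) (nat_lit 0x400400060008860282)))) 
(.lf (nat_lit 23396877) (dlOf (nat_lit 5) (nat_lit 0x5bd9150258c88804f63ac089f0de035786b002a7ff00440000002ca1c001322c000d870000a702012cc8b000508080786458001c804041c004012e0018b80d82)))) 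
(.nd (nat_lit 7) (.lf (nat_lit 8197389) (dlOf (nat_lit 1) (nat_lit 0x40018519681))) 
(.lf (nat_lit 40700301) (dlOf (nat_lit 1) (nat_lit 0x600091f4e81))))))) (.nd (nat_lit 30) 
(.nd (nat_lit 31) (.nd (nat_lit 19) (.nd (nat_lit 21) 
(.lf (nat_lit 470089741) (dlOf (nat_lit 2) (nat_lit 0x10aa0007a4080010008000c00200080008040483))) 
(.lf (nat_lit 1009057805) (dlOf (nat_lit 1) (nat_lit 0x360009030001)))) 
(.lf (nat_lit 470614029) (dlOf (nat_lit 21) (nat_lit 0x27a1d101290e28005341000d8744003038a000e171000a603000d0e880080714002960801b438a0014a0201c21d100e10e28005141012a8744096838a0014304008a1c5000a101024a0aa011f8544076c26e02dc0f4024e04a01060204091000e0013b0e049c15402420a880ec04dc01581e804ac09402070408123001c002721c04543a202001c501030aa0086054402d026e00c80f400f104a0073820403f000e000d91201ea15400ff0a8802904dc00341e801d00940083040806a801c001b01c008c3a200261c50006b8200080e88004871400242e2000d60600ac1d10006a8100d90e8806c87140019e0803883a2000ce0204801d102440e2800334100260744012c38a000cc04008c1d10006581003b0e88003280800c800800e000200120008130483))))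 
(.nd (nat_lit 26) 
(.lf (nat_lit 2953117709) (dlOf (nat_lit 5) (nat_lit 0x6017000100b00024056000602a00080148002009c000403c0012017000900980018024001400a001000200060000018f86800200b8000c05400100270031c030014017000080b00004056001802a00180148009009c003c03c002c01700070088006000800500000063216001202e000e016000300a8004c03c002401700060010018bc300020008002c002001a0008140283))) 
(.nd (nat_lit 27) (.lf (nat_lit 2483355661) (dlOf (nat_lit 1) (nat_lit 0x4004000400080d0482))) 
(.lf (nat_lit 2617573389) (dlOf (nat_lit 12) (nat_lit 0x2405e0004a0203da02f010801700010c100ba00bc04c00520004204027802f00970090001041001700bc0007e0400f005e0003d02020202f02f7017002580480b040220003b08007e02f0001d01002f017800058080bc80bc000220400e005e000000200440028100101)))))) 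
(.nd (nat_lit 7) (.nd (nat_lit 26) (.nd (nat_lit 19) 
(.lf (nat_lit 1342504973) (dlOf (nat_lit 1) (nat_lit 0xc00200020008040482))) 
(.lf (nat_lit 1343029261) (dlOf (nat_lit 21) (nat_lit 0x27a1d101290e28005341000d8744003038a000e173000a603000d0e880080714002960801b438a0014a0201c21d100e10e28005141012a8744096838a0014304008a1c5000a101024a0aa011f8544076c26e02dc0f4024e04a0106020409100060013b0e049c15402420a880ec04dc01581e804ac09402070408123000c002721c04543a202001c501030aa0086054402d026e00c80f400f104a0073820403f0006000d91201ea15400ff0a8802904dc00341e801d00940083040806a800c001b01c008c3a200261c50006b8200080e88004871400242e6000d60600ac1d10006a8100d90e8806c87140019e0803883a2000ce0204801d102440e2800334100260744012c38a000cc04008c1d10006581003b0e88003280800c800800e000200120008130483)))) 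
(.nd (nat_lit 31) 
(.lf (nat_lit 1543831565) (dlOf (nat_lit 3) (nat_lit 0xa0140002a00800580a00014e04004400400560018190182))) 
(.lf (nat_lit 3691315213) (dlOf (nat_lit 5) (nat_lit 0x6017000100b00024056000602a00080148002008800040320012014000900900018024001400a00100020006000002f4c6800200b8000c0540010022005e6830014017000080b00004056001802a001801480090088003c032002c012000700880060008005000000bc516001202e000e016000300a8004c03200240120006001002f10300020008002c002001a0008140283))))) 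
(.nd (nat_lit 8) (.lf (nat_lit 3491561613) (dlOf (nat_lit 2) (nat_lit 0x1808b0001b018090100))) 
(.nd (nat_lit 10) (.lf (nat_lit 6376720781) (dlOf (nat_lit 1) (nat_lit 0x400400060008094e82))) 
(.lf (nat_lit 3624209805) (dlOf (nat_lit 4) (nat_lit 0x1a0100000360400bc080006e00000005820036020000a80000001408008400200060008146c82)))))))) 
(.nd (nat_lit 20) (.nd (nat_lit 9) (.nd (nat_lit 26) (.nd (nat_lit 7) (.nd (nat_lit 27) 
(.lf (nat_lit 5100601421) (dlOf (nat_lit 2) (nat_lit 0x280160004f02005000280f0601))) 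
(.lf (nat_lit 1745158221) (dlOf (nat_lit 2) (nat_lit 0x3480e000140000005604000c00080b0601)))) 
(.lf (nat_lit 6711214285) (dlOf (nat_lit 1) (nat_lit 0x200280c1801)))) (.nd (nat_lit 29) 
(.nd (nat_lit 27) (.lf (nat_lit 2483355725) (dlOf (nat_lit 1) (nat_lit 0xb4004001600080d0d02))) 
(.lf (nat_lit 2349137997) (dlOf (nat_lit 1) (nat_lit 0xb4004001600080d0d02)))) (.nd (nat_lit 7) 
(.lf (nat_lit 872742989) (dlOf (nat_lit 2) (nat_lit 0x3480e000140000004f04000c00080b0601))) 
(.lf (nat_lit 4096065997) (dlOf (nat_lit 1) (nat_lit 0x400080004002003800080e1103)))))) 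
(.nd (nat_lit 8) (.nd (nat_lit 19) (.nd (nat_lit 21) 
(.lf (nat_lit 42273357) (dlOf (nat_lit 1) (nat_lit 0x120019245281))) 
(.lf (nat_lit 35981901) (dlOf (nat_lit 1) (nat_lit 0x20019015281)))) (.nd (nat_lit 25) 
(.lf (nat_lit 1345129037) (dlOf (nat_lit 1) (nat_lit 0x1a0018a45281))) 
(.lf (nat_lit 36506189) (dlOf (nat_lit 1) (nat_lit 0x20019075281))))) (.nd (nat_lit 7) 
(.lf (nat_lit 3489995597) (dlOf (nat_lit 4) (nat_lit 0x150f40002057000542a00032140001b09c002bec2800387f0015b8040544492030e1fd00800fe000e879c05f42be012015000260a7801285380020288004013c01ae09c00d884dc046426c00ada1a003c001800bc81))) 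
(.lf (nat_lit 52757453) (dlOf (nat_lit 1) (nat_lit 0x400400020009572882)))))) (.nd (nat_lit 8) 
(.nd (nat_lit 7) (.nd (nat_lit 21) (.nd (nat_lit 23) 
(.lf (nat_lit 69009485) (dlOf (nat_lit 1) (nat_lit 0xc00200020008860682))) 
(.lf (nat_lit 10289229) (dlOf (nat_lit 2) (nat_lit 0x18c5a0002202000600085c0f81)))) 
(.lf (nat_lit 3997773) (dlOf (nat_lit 1) (nat_lit 0x100028261501)))) (.nd (nat_lit 19) 
(.lf (nat_lit 3473613) (dlOf (nat_lit 1) (nat_lit 0x14004001c0018200482))) 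
(.lf (nat_lit 5773263053) (dlOf (nat_lit 1) (nat_lit 0x80080004002000200080c1803))))) 
(.nd (nat_lit 9) (.nd (nat_lit 19) 
(.lf (nat_lit 11862349) (dlOf (nat_lit 2) (nat_lit 0x1b523000238186c0600))) 
(.lf (nat_lit 1900877) (dlOf (nat_lit 2) (nat_lit 0x31aa4700e051a8000cc1000e000804b400200280008150603)))) 
(.nd (nat_lit 7) (.lf (nat_lit 20253517) (dlOf (nat_lit 1) (nat_lit 0x4002000200089d5c02))) 
(.lf (nat_lit 1880425421) (dlOf (nat_lit 1) (nat_lit 0x400400020008982882)))))))) (.nd (nat_lit 21) 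
(.nd (nat_lit 28) (.nd (nat_lit 29) (.nd (nat_lit 19) (.nd (nat_lit 9) (.nd (nat_lit 20) 
(.nd (nat_lit 26) 
(.lf (nat_lit 3355803661) (dlOf (nat_lit 11) (nat_lit 0x300240004a0201e8032000218100c1019003b00b003080240004206026003201dc0090001041000400c80007e0400200640003d020420031000a00900a80044000760c00440240001502018403200a60090000441000400c800100240000004006a0028120101))) 
(.lf (nat_lit 3288694797) (dlOf (nat_lit 1) (nat_lit 0x600080004002001200080c0803)))) 
(.lf (nat_lit 1409037) (dlOf (nat_lit 2) (nat_lit 0x14040c002ac040004004000200180c0482)))) 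
(.nd (nat_lit 27) (.lf (nat_lit 364045) (dlOf (nat_lit 1) (nat_lit 0x180028007081))) 
(.lf (nat_lit 4429549069) (dlOf (nat_lit 1) (nat_lit 0x400400020018117082))))) (.nd (nat_lit 6) 
(.nd (nat_lit 23) (.nd (nat_lit 24) 
(.lf (nat_lit 39682061) (dlOf (nat_lit 1) (nat_lit 0x318008025c002008c00091c0183))) 
(.lf (nat_lit 22904845) (dlOf (nat_lit 1) (nat_lit 0x400400020008b40102)))) 
(.lf (nat_lit 14516237) (dlOf (nat_lit 1) (nat_lit 0xe0008760101)))) 
(.lf (nat_lit 884813) (dlOf (nat_lit 1) (nat_lit 0x10008000400200020008030f83))))) 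
(.nd (nat_lit 26) (.nd (nat_lit 30) 
(.lf (nat_lit 537231373) (dlOf (nat_lit 4) (nat_lit 0x1000000444080010198001f80400080cc000f80200080018060481))) 
(.lf (nat_lit 1610973197) (dlOf (nat_lit 1) (nat_lit 0x4002000200080b0002)))) (.nd (nat_lit 22) 
(.nd (nat_lit 27) 
(.lf (nat_lit 604340237) (dlOf (nat_lit 8) (nat_lit 0x28030000e016001000a800480440028020001800f00070070005001c002000c0012003000a0010006000000c4e30001c0300010011000d0078003003800c42100040030000a015000d0088009003c003001c001600700010030006000800400000061712002a018000e00b00090044003801e003400e000f003801850300038058000400e005b8040004007002d481000100b0016700800a8008000800200060008180283))) 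
(.lf (nat_lit 738557965) (dlOf (nat_lit 1) (nat_lit 0x4002000200080b0002)))) 
(.lf (nat_lit 2756018189) (dlOf (nat_lit 2) (nat_lit 0x40000000480800b80080068002002e00081d0383)))))) 
(.nd (nat_lit 27) (.nd (nat_lit 29) (.nd (nat_lit 22) 
(.lf (nat_lit 1409646605) (dlOf (nat_lit 4) (nat_lit 0x10000006d8080010198003180400080cc001890200080018060481))) 
(.lf (nat_lit 3494215693) (dlOf (nat_lit 2) (nat_lit 0x40000000480800b80080068002002e00081d0383)))) 
(.nd (nat_lit 7) (.nd (nat_lit 31) 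
(.lf (nat_lit 1879408653) (dlOf (nat_lit 3) (nat_lit 0x20610009d8100020308004e4080010008000c00200040008130483))) 
(.lf (nat_lit 4026892301) (dlOf (nat_lit 1) (nat_lit 0x600080004002001200080c0803)))) 
(.lf (nat_lit 2953150605) (dlOf (nat_lit 1) (nat_lit 0x400200040008160482))))) (.nd (nat_lit 26) 
(.nd (nat_lit 7) 
(.lf (nat_lit 1476755469) (dlOf (nat_lit 8) (nat_lit 0x28030000e017001000b000480440028020001800f00070070005001c002000c0012004000a001000600000177830001c0300010011000d007800300380176c100040030000a016000d0088009003c003001c0016007000100300060008004000000baa12002a018000e00b80090044003801e003400e000f003802ea430003805c000400e00b440400040070059f01000100b802cc40800a8008000800200060008180283))) 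
(.lf (nat_lit 3624242573) (dlOf (nat_lit 4) (nat_lit 0x300800001b02002a040000100d8000805000600000000b08004204000230000000281000b8008003400200080008146c83)))) 
(.nd (nat_lit 20) (.nd (nat_lit 29) 
(.lf (nat_lit 2617606157) (dlOf (nat_lit 11) (nat_lit 0x30005e005002900021820054017804d00a4000840805f005e000e012000208200460178001000802700bc0007e04010c05e0003d02001c02f019f01700aa8044000760c003805e0003a02018202f0000881004601780000008074000800a4002000e0008100103))) 
(.lf (nat_lit 1006993421) (dlOf (nat_lit 3) (nat_lit 0x20650009d8100020328004e4080010008000c00200040008130483)))) 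
(.lf (nat_lit 471171085) (dlOf (nat_lit 3) (nat_lit 0x208e0003f0100050470000000801400080218002002a00082a0183))))))) 
(.nd (nat_lit 19) (.nd (nat_lit 22) (.nd (nat_lit 6) (.nd (nat_lit 7) (.nd (nat_lit 28) 
(.lf (nat_lit 2457613) (dlOf (nat_lit 5) (nat_lit 0x74880007a400008d1d0002e76c00ad610000f4880009a400009d1d0003676c00ad410001b4880007a400005d1d0005676c00ad210001f4880011a400005d1d0005676c00ad010000800200020008160682))) 
(.lf (nat_lit 1881505805) (dlOf (nat_lit 1) (nat_lit 0x400200020008f30182)))) 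
(.lf (nat_lit 11894925) (dlOf (nat_lit 2) (nat_lit 0x12020000ec080008008000c002000400086c0103)))) 
(.nd (nat_lit 8) (.lf (nat_lit 36014669) (dlOf (nat_lit 1) (nat_lit 0x20019015281))) 
(.lf (nat_lit 20286285) (dlOf (nat_lit 1) (nat_lit 0x4002000200089d5c02))))) (.nd (nat_lit 9) 
(.nd (nat_lit 20) 
(.lf (nat_lit 6651917) (dlOf (nat_lit 2) (nat_lit 0x9c94002be04000800200020008440582))) 
(.nd (nat_lit 24) (.lf (nat_lit 7700493) (dlOf (nat_lit 1) (nat_lit 0x4004000200084d0582))) 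
(.lf (nat_lit 24477709) (dlOf (nat_lit 3) (nat_lit 0x10bc900045d700004c10008af240002204003800200060008ba0382))))) 
(.nd (nat_lit 6) (.lf (nat_lit 23429645) (dlOf (nat_lit 1) (nat_lit 0xc0018b80d81))) 
(.lf (nat_lit 23429709) (dlOf (nat_lit 1) (nat_lit 0x20018b81181)))))) (.nd (nat_lit 7) 
(.nd (nat_lit 6) (.nd (nat_lit 10) (.nd (nat_lit 20) 
(.lf (nat_lit 4096622605) (dlOf (nat_lit 1) (nat_lit 0x680008140a01))) 
(.lf (nat_lit 29196301) (dlOf (nat_lit 1) (nat_lit 0x1000200020008dd0a02)))) 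
(.lf (nat_lit 45976589) (dlOf (nat_lit 1) (nat_lit 0x60029385f81)))) (.nd (nat_lit 9) 
(.lf (nat_lit 4030541) (dlOf (nat_lit 2) (nat_lit 0x1c00000000018270d00))) (.nd (nat_lit 22) 
(.lf (nat_lit 36538957) (dlOf (nat_lit 1) (nat_lit 0x20019075281))) 
(.lf (nat_lit 32344653) (dlOf (nat_lit 1) (nat_lit 0x2c00400020008ef5282)))))) (.nd (nat_lit 20) 
(.nd (nat_lit 6) (.nd (nat_lit 8) 
(.lf (nat_lit 23953549) (dlOf (nat_lit 1) (nat_lit 0x8008001000200020008b80103))) 
(.lf (nat_lit 19763085) (dlOf (nat_lit 1) (nat_lit 0x200289d7781)))) 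
(.lf (nat_lit 61702605) (dlOf (nat_lit 1) (nat_lit 0x800200040009921102)))) (.nd (nat_lit 6) 
(.nd (nat_lit 11) (.lf (nat_lit 8225165) (dlOf (nat_lit 1) (nat_lit 0x400200020008511002))) 
(.lf (nat_lit 37587341) (dlOf (nat_lit 1) (nat_lit 0x4002000200090d4e82)))) 
(.lf (nat_lit 8230349) (dlOf (nat_lit 1) (nat_lit 0x400200020008519b02))))))))))) (.nd (nat_lit 16) 
(.nd (nat_lit 15) (.nd (nat_lit 26) (.nd (nat_lit 18) (.nd (nat_lit 12) (.nd (nat_lit 30) 
(.nd (nat_lit 19) (.nd (nat_lit 24) (.nd (nat_lit 20) (.nd (nat_lit 7) 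
(.lf (nat_lit 536871965) (dlOf (nat_lit 1) (nat_lit 0x100018002881))) 
(.lf (nat_lit 6576670877) (dlOf (nat_lit 1) (nat_lit 0x20028004801)))) (.nd (nat_lit 8) 
(.lf (nat_lit 13631517) (dlOf (nat_lit 1) (nat_lit 0x400200020008730882))) 
(.lf (nat_lit 1048861) (dlOf (nat_lit 1) (nat_lit 0x20018068001))))) (.nd (nat_lit 22) 
(.nd (nat_lit 23) (.lf (nat_lit 52428829) (dlOf (nat_lit 1) (nat_lit 0x40029530101))) 
(.lf (nat_lit 27263005) (dlOf (nat_lit 1) (nat_lit 0x1760028cc0681)))) (.nd (nat_lit 21) 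
(.lf (nat_lit 20971549) (dlOf (nat_lit 1) (nat_lit 0x200189f0101))) 
(.lf (nat_lit 23068701) (dlOf (nat_lit 2) (nat_lit 0x204e80044c04002800200060008b50482)))))) 
(.nd (nat_lit 21) (.nd (nat_lit 27) (.nd (nat_lit 28) 
(.lf (nat_lit 537395229) (dlOf (nat_lit 1) (nat_lit 0x800200020008090002))) 
(.lf (nat_lit 805830685) (dlOf (nat_lit 2) (nat_lit 0xf02b0055f00800480080004002001400081b0903)))) 
(.lf (nat_lit 134742045) (dlOf (nat_lit 3) (nat_lit 0x1702180625c0800c80ec00000040044004001e00080a0902)))) 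
(.nd (nat_lit 7) (.lf (nat_lit 48758813) (dlOf (nat_lit 2) (nat_lit 0x4298b0001f819420100))) 
(.lf (nat_lit 40372637) (dlOf (nat_lit 1) (nat_lit 0x600291f4e81)))))) (.nd (nat_lit 7) 
(.nd (nat_lit 6) (.nd (nat_lit 9) 
(.lf (nat_lit 3490709789) (dlOf (nat_lit 1) (nat_lit 0x40028014001))) 
(.lf (nat_lit 3623880477) (dlOf (nat_lit 1) (nat_lit 0x400400020008003c82)))) (.nd (nat_lit 8) 
(.lf (nat_lit 5368709213) (dlOf (nat_lit 1) (nat_lit 0x20028000081))) 
(.lf (nat_lit 3490709853) (dlOf (nat_lit 3) (nat_lit 0x52066002a030801100fc000500c00c80cc006a061002401f8000981800d000800b800200080008014e83))))) 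
(.nd (nat_lit 8) (.nd (nat_lit 10) 
(.lf (nat_lit 3221227677) (dlOf (nat_lit 1) (nat_lit 0xf00028004801))) 
(.lf (nat_lit 1881146525) (dlOf (nat_lit 1) (nat_lit 0x800200020008e22b82)))) (.nd (nat_lit 6) 
(.lf (nat_lit 3489664413) (dlOf (nat_lit 1) (nat_lit 0x580008006d01))) 
(.lf (nat_lit 2013268445) (dlOf (nat_lit 1) (nat_lit 0x440018004e81))))))) (.nd (nat_lit 7) 
(.nd (nat_lit 8) (.nd (nat_lit 6) (.nd (nat_lit 9) 
(.lf (nat_lit 2952794141) (dlOf (nat_lit 1) (nat_lit 0x860008007a81))) (.nd (nat_lit 29) 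
(.lf (nat_lit 1342184989) (dlOf (nat_lit 1) (nat_lit 0x2002800cf01))) 
(.lf (nat_lit 2952797725) (dlOf (nat_lit 1) (nat_lit 0x180020008000800cf02))))) (.nd (nat_lit 9) 
(.lf (nat_lit 1476400221) (dlOf (nat_lit 1) (nat_lit 0x24002001e0008009382))) 
(.lf (nat_lit 1476401757) (dlOf (nat_lit 1) (nat_lit 0x40020002000800b682))))) (.nd (nat_lit 28) 
(.nd (nat_lit 29) (.lf (nat_lit 1073748317) (dlOf (nat_lit 1) (nat_lit 0x40040002000800ab82))) 
(.lf (nat_lit 536877405) (dlOf (nat_lit 1) (nat_lit 0x40040002000800ab82)))) (.nd (nat_lit 29) 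
(.lf (nat_lit 2415925597) (dlOf (nat_lit 1) (nat_lit 0x40040002000800ab82))) 
(.lf (nat_lit 4026538333) (dlOf (nat_lit 1) (nat_lit 0x40040002000800ab82)))))) (.nd (nat_lit 30) 
(.nd (nat_lit 6) (.nd (nat_lit 8) 
(.lf (nat_lit 8918173) (dlOf (nat_lit 1) (nat_lit 0x400200020008519502))) 
(.lf (nat_lit 134225309) (dlOf (nat_lit 2) (nat_lit 0x2900ec000f20400080040002001800ca82)))) 
(.nd (nat_lit 27) (.lf (nat_lit 2684359901) (dlOf (nat_lit 1) (nat_lit 0x400400020008009502))) 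
(.lf (nat_lit 2281706717) (dlOf (nat_lit 1) (nat_lit 0x400400020008009502))))) (.nd (nat_lit 8) 
(.nd (nat_lit 28) 
(.lf (nat_lit 6039803101) (dlOf (nat_lit 1) (nat_lit 0x8008000400200020008009503))) 
(.lf (nat_lit 4160754909) (dlOf (nat_lit 1) (nat_lit 0x400400020008009502)))) (.nd (nat_lit 6) 
(.lf (nat_lit 1476400541) (dlOf (nat_lit 1) (nat_lit 0x60018009901))) 
(.lf (nat_lit 1342182365) (dlOf (nat_lit 1) (nat_lit 0x220028009201)))))))) (.nd (nat_lit 6) 
(.nd (nat_lit 28) (.nd (nat_lit 19) (.nd (nat_lit 7) (.nd (nat_lit 27) 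
(.lf (nat_lit 537133085) (dlOf (nat_lit 1) (nat_lit 0x800018020481))) 
(.lf (nat_lit 134479901) (dlOf (nat_lit 4) (nat_lit 0x9e0208006200802c80bc002ba0400ac05e000000200160008030901)))) 
(.nd (nat_lit 8) (.lf (nat_lit 9699485) (dlOf (nat_lit 1) (nat_lit 0x480018571281))) 
(.lf (nat_lit 46402461) (dlOf (nat_lit 2) (nat_lit 0x12afd8001c8080100008008800200300009385c83))))) 
(.nd (nat_lit 22) (.nd (nat_lit 7) 
(.lf (nat_lit 45875229) (dlOf (nat_lit 2) (nat_lit 0x663f10001f819360100))) 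
(.lf (nat_lit 36439197) (dlOf (nat_lit 1) (nat_lit 0x40019072b81)))) (.nd (nat_lit 8) 
(.lf (nat_lit 58459293) (dlOf (nat_lit 1) (nat_lit 0x1e00197e2b81))) 
(.lf (nat_lit 8132509) (dlOf (nat_lit 1) (nat_lit 0x28004001c000851a302)))))) (.nd (nat_lit 27) 
(.nd (nat_lit 29) (.nd (nat_lit 20) 
(.lf (nat_lit 1344536605) (dlOf (nat_lit 1) (nat_lit 0x240018830601))) 
(.lf (nat_lit 1343488029) (dlOf (nat_lit 1) (nat_lit 0x17800800e0002009a0008260683)))) 
(.nd (nat_lit 30) (.lf (nat_lit 2953052189) (dlOf (nat_lit 1) (nat_lit 0x7600080e0681))) 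
(.lf (nat_lit 4026794013) (dlOf (nat_lit 4) (nat_lit 0x3006c00942020018036004a001000c01b0024fc080030008003400200300008090003))))) 
(.nd (nat_lit 7) (.nd (nat_lit 19) 
(.lf (nat_lit 2013528093) (dlOf (nat_lit 1) (nat_lit 0x1200180f0a81))) 
(.lf (nat_lit 5773197341) (dlOf (nat_lit 2) (nat_lit 0x4425e0003b02003600180b0101)))) 
(.lf (nat_lit 4161016989) (dlOf (nat_lit 1) (nat_lit 0xc000180a9501)))))) (.nd (nat_lit 7) 
(.nd (nat_lit 8) (.nd (nat_lit 9) (.nd (nat_lit 10) 
(.lf (nat_lit 1208221789) (dlOf (nat_lit 1) (nat_lit 0x80080004002000200080a1983))) 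
(.lf (nat_lit 2818841693) (dlOf (nat_lit 11) (nat_lit 0x60220002f0100050110001700800981a800280d2000206100050210001502000a01a800280d2000c0420002983000702100078088000a20800280440005002003606a0012034800500880008a0c0004044000440200040220002101000b0110000f408007800800980020008000812c003)))) 
(.lf (nat_lit 1881410141) (dlOf (nat_lit 1) (nat_lit 0x1c00400060008f05302)))) (.nd (nat_lit 9) 
(.nd (nat_lit 11) (.lf (nat_lit 3408221) (dlOf (nat_lit 2) (nat_lit 0x897e000560200040018200681))) 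
(.lf (nat_lit 50071901) (dlOf (nat_lit 1) (nat_lit 0x20004000600094c4e82)))) 
(.lf (nat_lit 8130397) (dlOf (nat_lit 1) (nat_lit 0x800200040008517782))))) (.nd (nat_lit 20) 
(.nd (nat_lit 9) (.lf (nat_lit 8656349) (dlOf (nat_lit 1) (nat_lit 0x8008000400200020008519b03))) 
(.nd (nat_lit 11) (.lf (nat_lit 38536157) (dlOf (nat_lit 1) (nat_lit 0x44002007a0009132882))) 
(.lf (nat_lit 6308498397) (dlOf (nat_lit 1) (nat_lit 0x4004000200080d5e02))))) (.nd (nat_lit 8) 
(.nd (nat_lit 12) (.lf (nat_lit 8127197) (dlOf (nat_lit 1) (nat_lit 0x18008002400200040008512103))) 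
(.lf (nat_lit 8131293) (dlOf (nat_lit 1) (nat_lit 0x400200020008518c82)))) 
(.lf (nat_lit 8130525) (dlOf (nat_lit 1) (nat_lit 0xc00200060008517a82)))))))) (.nd (nat_lit 27) 
(.nd (nat_lit 7) (.nd (nat_lit 11) (.nd (nat_lit 18) (.nd (nat_lit 29) (.nd (nat_lit 6) 
(.lf (nat_lit 4362600477) (dlOf (nat_lit 1) (nat_lit 0x8002000a00080a0902))) 
(.lf (nat_lit 4362600541) (dlOf (nat_lit 2) (nat_lit 0x500cc00016040088004001600080a1202)))) 
(.nd (nat_lit 8) 
(.lf (nat_lit 1678245917) (dlOf (nat_lit 2) (nat_lit 0xf02b005b980800480080004002001400081b0903))) 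
(.lf (nat_lit 2752512285) (dlOf (nat_lit 1) (nat_lit 0x40028014001))))) (.nd (nat_lit 28) 
(.nd (nat_lit 30) 
(.lf (nat_lit 4362338333) (dlOf (nat_lit 1) (nat_lit 0x18008000400200020008030b83))) 
(.lf (nat_lit 1141112861) (dlOf (nat_lit 1) (nat_lit 0x1200180f0a81)))) (.nd (nat_lit 19) 
(.lf (nat_lit 1409548317) (dlOf (nat_lit 1) (nat_lit 0x800018020481))) 
(.lf (nat_lit 3557556253) (dlOf (nat_lit 1) (nat_lit 0x80028260481)))))) (.nd (nat_lit 6) 
(.nd (nat_lit 9) (.nd (nat_lit 18) 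
(.lf (nat_lit 4094692381) (dlOf (nat_lit 1) (nat_lit 0x400200020008056002))) 
(.lf (nat_lit 4899212317) (dlOf (nat_lit 1) (nat_lit 0x800080d6001)))) 
(.lf (nat_lit 603987485) (dlOf (nat_lit 1) (nat_lit 0x6001800cf01)))) (.nd (nat_lit 8) 
(.nd (nat_lit 18) (.lf (nat_lit 2751469661) (dlOf (nat_lit 1) (nat_lit 0xfc00201fe000800a782))) 
(.lf (nat_lit 1410078813) (dlOf (nat_lit 4) (nat_lit 0xf03b800581d800300000021a06000e077000803b000381c400140e0000e0630007030800400000042a1c002c0ee0020002001000280fa781)))) 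
(.nd (nat_lit 28) (.lf (nat_lit 3288336733) (dlOf (nat_lit 1) (nat_lit 0xa0028004e81))) 
(.lf (nat_lit 2483030365) (dlOf (nat_lit 1) (nat_lit 0x60028004e81))))))) (.nd (nat_lit 10) 
(.nd (nat_lit 28) (.nd (nat_lit 8) (.nd (nat_lit 6) 
(.lf (nat_lit 5436080285) (dlOf (nat_lit 2) (nat_lit 0x600a0012004400050080004004001000080c1282))) 
(.lf (nat_lit 603984605) (dlOf (nat_lit 1) (nat_lit 0x400200020008008c82)))) (.nd (nat_lit 19) 
(.lf (nat_lit 5435818973) (dlOf (nat_lit 1) (nat_lit 0x20018002881))) 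
(.lf (nat_lit 2751988701) (dlOf (nat_lit 1) (nat_lit 0x400200020008002882))))) (.nd (nat_lit 6) 
(.lf (nat_lit 1409293213) (dlOf (nat_lit 1) (nat_lit 0x4a001800bc81))) (.nd (nat_lit 9) 
(.lf (nat_lit 2483030493) (dlOf (nat_lit 1) (nat_lit 0xc0018004e81))) 
(.lf (nat_lit 5704516573) (dlOf (nat_lit 1) (nat_lit 0x600280d2881)))))) (.nd (nat_lit 6) 
(.nd (nat_lit 29) (.nd (nat_lit 9) 
(.lf (nat_lit 67114397) (dlOf (nat_lit 1) (nat_lit 0x240018009901))) 
(.lf (nat_lit 4362078109) (dlOf (nat_lit 1) (nat_lit 0x4c002001e0008004282)))) (.nd (nat_lit 8) 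
(.lf (nat_lit 2751465117) (dlOf (nat_lit 1) (nat_lit 0x220028003a81))) 
(.lf (nat_lit 2751465373) (dlOf (nat_lit 1) (nat_lit 0x160008004281))))) (.nd (nat_lit 8) 
(.nd (nat_lit 31) (.lf (nat_lit 67114205) (dlOf (nat_lit 1) (nat_lit 0x400400020008009502))) 
(.lf (nat_lit 2214597853) (dlOf (nat_lit 1) (nat_lit 0x400400020008009502)))) (.nd (nat_lit 9) 
(.lf (nat_lit 1946160605) (dlOf (nat_lit 1) (nat_lit 0x40008000c002000a0008006d83))) 
(.lf (nat_lit 4362082269) (dlOf (nat_lit 1) (nat_lit 0x980080034002000e000800a603)))))))) 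
(.nd (nat_lit 7) (.nd (nat_lit 6) (.nd (nat_lit 18) (.nd (nat_lit 19) (.nd (nat_lit 8) 
(.lf (nat_lit 3690991645) (dlOf (nat_lit 1) (nat_lit 0x20028007a81))) 
(.lf (nat_lit 4764732189) (dlOf (nat_lit 1) (nat_lit 0x38008001c002000e0008005c03)))) 
(.nd (nat_lit 28) 
(.lf (nat_lit 201850909) (dlOf (nat_lit 3) (nat_lit 0x170218070040800c80ec00000040044004001e00080a0902))) 
(.lf (nat_lit 4228382749) (dlOf (nat_lit 1) (nat_lit 0x8002000a00080a0902))))) (.nd (nat_lit 19) 
(.nd (nat_lit 28) 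
(.lf (nat_lit 201588765) (dlOf (nat_lit 4) (nat_lit 0x9e0208006240802c80bc002b00400ac05e000000200160008030901))) 
(.lf (nat_lit 4228120605) (dlOf (nat_lit 1) (nat_lit 0x18008000400200020008030b83)))) 
(.nd (nat_lit 29) (.lf (nat_lit 471597085) (dlOf (nat_lit 1) (nat_lit 0x200008350681))) 
(.lf (nat_lit 6377177117) (dlOf (nat_lit 2) (nat_lit 0x442400003b02003600180b0101)))))) 
(.nd (nat_lit 8) (.nd (nat_lit 19) (.nd (nat_lit 28) 
(.lf (nat_lit 5033164893) (dlOf (nat_lit 1) (nat_lit 0x8008000400200020008000083))) 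
(.lf (nat_lit 4764729437) (dlOf (nat_lit 1) (nat_lit 0x20028000081)))) 
(.lf (nat_lit 4228382813) (dlOf (nat_lit 2) (nat_lit 0x500c800042040088004001600080a1202)))) 
(.nd (nat_lit 9) (.nd (nat_lit 12) 
(.lf (nat_lit 5301602653) (dlOf (nat_lit 1) (nat_lit 0x18008000400200020008004e83))) 
(.lf (nat_lit 201333085) (dlOf (nat_lit 1) (nat_lit 0x40040002000800ab82)))) 
(.lf (nat_lit 3422557021) (dlOf (nat_lit 1) (nat_lit 0x20028008f81)))))) (.nd (nat_lit 11) 
(.nd (nat_lit 31) (.nd (nat_lit 8) (.nd (nat_lit 10) 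
(.lf (nat_lit 5301862557) (dlOf (nat_lit 2) (nat_lit 0x600a001200440002a080004004001000080c1282))) 
(.lf (nat_lit 472908957) (dlOf (nat_lit 1) (nat_lit 0x8000200020008b52b82)))) (.nd (nat_lit 6) 
(.lf (nat_lit 469763997) (dlOf (nat_lit 1) (nat_lit 0x240028004281))) 
(.lf (nat_lit 469767133) (dlOf (nat_lit 1) (nat_lit 0x280028009201))))) (.nd (nat_lit 6) 
(.nd (nat_lit 8) (.lf (nat_lit 3690991773) (dlOf (nat_lit 1) (nat_lit 0x100018007d81))) 
(.lf (nat_lit 3690993053) (dlOf (nat_lit 1) (nat_lit 0x440018009901)))) (.nd (nat_lit 30) 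
(.lf (nat_lit 6643782877) (dlOf (nat_lit 1) (nat_lit 0x8008000400200020008009503))) 
(.lf (nat_lit 3422557405) (dlOf (nat_lit 1) (nat_lit 0x400400020008009502)))))) (.nd (nat_lit 6) 
(.nd (nat_lit 8) (.nd (nat_lit 10) 
(.lf (nat_lit 1811941533) (dlOf (nat_lit 2) (nat_lit 0x803e0003c02000c0018004801))) 
(.lf (nat_lit 2885684381) (dlOf (nat_lit 1) (nat_lit 0x400400020008006282)))) (.nd (nat_lit 9) 
(.nd (nat_lit 18) (.lf (nat_lit 472385949) (dlOf (nat_lit 1) (nat_lit 0x20028984e81))) 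
(.lf (nat_lit 4496558493) (dlOf (nat_lit 1) (nat_lit 0x600080054002000c00080e4e83)))) 
(.lf (nat_lit 4227865501) (dlOf (nat_lit 1) (nat_lit 0x80040002001800bc82))))) (.nd (nat_lit 9) 
(.lf (nat_lit 1006639581) (dlOf (nat_lit 1) (nat_lit 0x2001800b281))) (.nd (nat_lit 29) 
(.lf (nat_lit 5570300893) (dlOf (nat_lit 1) (nat_lit 0x4004000200080d5e02))) 
(.lf (nat_lit 738462685) (dlOf (nat_lit 1) (nat_lit 0x140028095e01)))))))))) (.nd (nat_lit 18) 
(.nd (nat_lit 6) (.nd (nat_lit 19) (.nd (nat_lit 8) (.nd (nat_lit 10) (.nd (nat_lit 21) 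
(.nd (nat_lit 9) (.lf (nat_lit 29392925) (dlOf (nat_lit 1) (nat_lit 0x28008001400200120008e00683))) 
(.lf (nat_lit 2214625821) (dlOf (nat_lit 1) (nat_lit 0x500080040002001c0008001483)))) 
(.nd (nat_lit 22) (.lf (nat_lit 27295773) (dlOf (nat_lit 1) (nat_lit 0x400200020008cd0682))) 
(.lf (nat_lit 23101469) (dlOf (nat_lit 2) (nat_lit 0xa3d200107018b50480))))) (.nd (nat_lit 7) 
(.lf (nat_lit 4094725149) (dlOf (nat_lit 1) (nat_lit 0x400200020008056002))) (.nd (nat_lit 11) 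
(.lf (nat_lit 3355481245) (dlOf (nat_lit 1) (nat_lit 0x1c00400020008009502))) 
(.lf (nat_lit 134253725) (dlOf (nat_lit 2) (nat_lit 0x2680f40008e04014800400360008006282)))))) 
(.nd (nat_lit 9) (.nd (nat_lit 29) (.nd (nat_lit 7) 
(.lf (nat_lit 3422590237) (dlOf (nat_lit 8) (nat_lit 0x8803400580180007604001400d0003a81000b0068001c4080048034000e004002001a0006202001200d00030810007006800000080110008012000200080008009703))) 
(.lf (nat_lit 134258077) (dlOf (nat_lit 2) (nat_lit 0x2ac076015e03600aa00b8001e41803b0008000c00200b6000800ca83)))) 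
(.nd (nat_lit 28) 
(.lf (nat_lit 6039835933) (dlOf (nat_lit 3) (nat_lit 0x800d400440680006d04002c035001801a000000100058008003400200160008009703))) 
(.lf (nat_lit 4160787741) (dlOf (nat_lit 2) (nat_lit 0xd00a0001980800900080004002001c0008009703))))) 
(.nd (nat_lit 7) (.nd (nat_lit 10) 
(.lf (nat_lit 4094724893) (dlOf (nat_lit 1) (nat_lit 0x20028055c01))) 
(.lf (nat_lit 201361181) (dlOf (nat_lit 3) (nat_lit 0x407e0002002000803f0000c018003c80)))) 
(.nd (nat_lit 10) (.lf (nat_lit 872450973) (dlOf (nat_lit 1) (nat_lit 0x80028005c81))) 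
(.lf (nat_lit 1073776541) (dlOf (nat_lit 1) (nat_lit 0x20018004281))))))) (.nd (nat_lit 21) 
(.nd (nat_lit 26) (.nd (nat_lit 27) (.nd (nat_lit 22) 
(.lf (nat_lit 3221782557) (dlOf (nat_lit 2) (nat_lit 0x30230055f0080118008004000200380008180903))) 
(.lf (nat_lit 13139997) (dlOf (nat_lit 1) (nat_lit 0x800200020008700982)))) (.nd (nat_lit 29) 
(.lf (nat_lit 134774813) (dlOf (nat_lit 1) (nat_lit 0x40008000c002000a00080b0983))) 
(.lf (nat_lit 2819129373) (dlOf (nat_lit 15) (nat_lit 0xe81a800680d20005a0401d206a0002c81012c0350001380811901a80009a0409cc0d40004c02033406a000258102380350001240804201a8000900400140d40003702001806a0001a8100d60350000d00806701a8000640400b00d4004c0690000282000e035000010080250008009c002006600081a0583))))) 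
(.nd (nat_lit 27) (.nd (nat_lit 28) 
(.lf (nat_lit 1678278685) (dlOf (nat_lit 2) (nat_lit 0x15809800280350000e0281d0580))) 
(.lf (nat_lit 3557326877) (dlOf (nat_lit 12) (nat_lit 0x700fc000b404017407e00057020a94072010a01f800138100c181c8031c07e0004d0408980720002601043703900012c0828681c8035407e000370400280720001a8104d5039000a80fc0006808002c07e0000502004203f000020181c0580)))) 
(.nd (nat_lit 22) (.nd (nat_lit 29) 
(.lf (nat_lit 201883677) (dlOf (nat_lit 1) (nat_lit 0x40008000c002000a00080b0983))) 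
(.lf (nat_lit 3959980061) (dlOf (nat_lit 2) (nat_lit 0x3023005b98080118008004000200380008180903)))) 
(.lf (nat_lit 474513437) (dlOf (nat_lit 2) (nat_lit 0x5509d800104080018008001c002000e00091a0103)))))) 
(.nd (nat_lit 20) (.nd (nat_lit 7) (.nd (nat_lit 22) 
(.lf (nat_lit 11042845) (dlOf (nat_lit 2) (nat_lit 0x4b84b0004e818660480))) 
(.lf (nat_lit 15237149) (dlOf (nat_lit 1) (nat_lit 0x400187c0581)))) 
(.lf (nat_lit 1344832669) (dlOf (nat_lit 2) (nat_lit 0xc29a000c09c0001046000220180010008000c00200040008982b83)))) 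
(.nd (nat_lit 22) (.nd (nat_lit 26) 
(.lf (nat_lit 3493363741) (dlOf (nat_lit 8) (nat_lit 0x14b03301c201780e100b800160590168020000480bc001805a0004022000b00e8007b44809d81980300080001ec04008805c000f58100fd033009d0100003d40805100cc06fc05e038302e0004015c0584080003002f001301680080088006803a001e812029a066038202f01c3817000140b200080570169020000580bc001805a0006022000c00e800798500120170003ca0400a000402660018120902))) 
(.lf (nat_lit 2755166237) (dlOf (nat_lit 8) (nat_lit 0x14b03301c201780e100b800160590168020000480bc001805a0004022000b00e8007fc4809d81980300080001fe04008805c000fe8100fd033009d0100003f80805100cc06fc05e038302e0004015c0584080003002f001301680080088006803a001fa12029a066038202f01c3817000140b200080570169020000580bc001805a0006022000c00e8007e0500120170003ee0400a000402660018120902)))) 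
(.lf (nat_lit 24674333) (dlOf (nat_lit 1) (nat_lit 0x600008bb0581))))))) (.nd (nat_lit 8) 
(.nd (nat_lit 26) (.nd (nat_lit 19) (.nd (nat_lit 7) (.nd (nat_lit 20) 
(.lf (nat_lit 14712925) (dlOf (nat_lit 1) (nat_lit 0x80018770881))) 
(.lf (nat_lit 38830173) (dlOf (nat_lit 1) (nat_lit 0x20029170881)))) 
(.lf (nat_lit 671125213) (dlOf (nat_lit 2) (nat_lit 0x7002800000080028008006800200260008007383)))) 
(.nd (nat_lit 9) (.nd (nat_lit 20) 
(.lf (nat_lit 21528669) (dlOf (nat_lit 1) (nat_lit 0x8008004000200200008a40703))) 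
(.lf (nat_lit 3702877) (dlOf (nat_lit 1) (nat_lit 0xf0008007800200720008211203)))) 
(.lf (nat_lit 44599901) (dlOf (nat_lit 1) (nat_lit 0x400200020009325302))))) (.nd (nat_lit 10) 
(.nd (nat_lit 11) (.nd (nat_lit 19) 
(.lf (nat_lit 2755690589) (dlOf (nat_lit 1) (nat_lit 0x200281b0001))) 
(.lf (nat_lit 474513501) (dlOf (nat_lit 2) (nat_lit 0x17a15f00be0a6006d835c000440c0028004001400091a0882)))) 
(.lf (nat_lit 2751502429) (dlOf (nat_lit 1) (nat_lit 0x4000800a781)))) (.nd (nat_lit 7) 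
(.nd (nat_lit 9) 
(.lf (nat_lit 469802077) (dlOf (nat_lit 8) (nat_lit 0x203f0001600800081f80009e0400340fc0004e02001c07e0002681000403f00011808000827400440fc000a0240002283000d03f0000f40800a000800b0002000e000800c003))) 
(.lf (nat_lit 4095772253) (dlOf (nat_lit 1) (nat_lit 0x4004000200080e3902)))) 
(.lf (nat_lit 3691026141) (dlOf (nat_lit 1) (nat_lit 0x2000800a001)))))) (.nd (nat_lit 7) 
(.nd (nat_lit 20) (.nd (nat_lit 10) (.nd (nat_lit 23) 
(.lf (nat_lit 1346404701) (dlOf (nat_lit 1) (nat_lit 0xc00200240008f60e02))) 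
(.lf (nat_lit 46170461) (dlOf (nat_lit 1) (nat_lit 0x200029380e01)))) 
(.lf (nat_lit 2550177117) (dlOf (nat_lit 1) (nat_lit 0x1000800040020002000800c903)))) 
(.nd (nat_lit 22) (.lf (nat_lit 3178845) (dlOf (nat_lit 2) (nat_lit 0xc992000560200020008200681))) 
(.lf (nat_lit 24150365) (dlOf (nat_lit 1) (nat_lit 0x20028b80681))))) (.nd (nat_lit 9) 
(.nd (nat_lit 10) 
(.lf (nat_lit 4094198237) (dlOf (nat_lit 2) (nat_lit 0x280000027c04002000200140008017c82))) 
(.lf (nat_lit 134254045) (dlOf (nat_lit 2) (nat_lit 0x900150001a018006d80)))) (.nd (nat_lit 21) 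
(.nd (nat_lit 26) (.lf (nat_lit 4966089693) (dlOf (nat_lit 1) (nat_lit 0xa0018002881))) 
(.lf (nat_lit 2348843997) (dlOf (nat_lit 3) (nat_lit 0x40280079b810009014003cd00800c00080064002002a0008002883)))) 
(.lf (nat_lit 4095771613) (dlOf (nat_lit 1) (nat_lit 0x200180e2881)))))))) (.nd (nat_lit 19) 
(.nd (nat_lit 26) (.nd (nat_lit 29) (.nd (nat_lit 7) (.nd (nat_lit 6) (.nd (nat_lit 20) 
(.nd (nat_lit 21) (.lf (nat_lit 38043677) (dlOf (nat_lit 1) (nat_lit 0x400200020009110102))) 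
(.lf (nat_lit 44335133) (dlOf (nat_lit 3) (nat_lit 0x118c80008c2e00016040004632000230b8000141000780080054002001200092f0583)))) 
(.lf (nat_lit 24412189) (dlOf (nat_lit 1) (nat_lit 0x400200020008b90902)))) (.nd (nat_lit 10) 
(.lf (nat_lit 24412253) (dlOf (nat_lit 3) (nat_lit 0x70000000ac0800b00000005404002c00200060008b91202))) 
(.lf (nat_lit 51676253) (dlOf (nat_lit 1) (nat_lit 0x580019512901))))) (.nd (nat_lit 10) 
(.nd (nat_lit 27) (.lf (nat_lit 5369004189) (dlOf (nat_lit 1) (nat_lit 0x600180c1281))) 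
(.lf (nat_lit 5503221917) (dlOf (nat_lit 1) (nat_lit 0x600180c1281)))) (.nd (nat_lit 6) 
(.lf (nat_lit 51676317) (dlOf (nat_lit 2) (nat_lit 0x469300044019512b80))) 
(.lf (nat_lit 298717) (dlOf (nat_lit 1) (nat_lit 0x20028007381)))))) (.nd (nat_lit 27) 
(.nd (nat_lit 6) (.nd (nat_lit 28) 
(.lf (nat_lit 2684649501) (dlOf (nat_lit 1) (nat_lit 0x100018100481))) 
(.lf (nat_lit 805601309) (dlOf (nat_lit 1) (nat_lit 0xc0028140b81)))) 
(.lf (nat_lit 537166173) (dlOf (nat_lit 1) (nat_lit 0x50008007c00200020008048d03)))) 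
(.nd (nat_lit 28) 
(.lf (nat_lit 671383581) (dlOf (nat_lit 5) (nat_lit 0x1d01180150080006c02c00158060004023000601000055c1001980800090004004c000000aa0300060100004f0080698008023800202940008170903))) 
(.lf (nat_lit 3087302685) (dlOf (nat_lit 3) (nat_lit 0x8e000000ac010063000000550080008008001c002000a0008170903)))))) 
(.nd (nat_lit 27) (.nd (nat_lit 29) (.nd (nat_lit 6) 
(.lf (nat_lit 69502109) (dlOf (nat_lit 2) (nat_lit 0x216000044818a82b80))) 
(.lf (nat_lit 2483322973) (dlOf (nat_lit 10) (nat_lit 0x500a80060048000601c00080080000bc2000480a80094048000a01c001200a80050040001000e000c0020001707000d015000200400005a0800400540002802001602a000120100040080000880800900a8002c0200002004002002a00009010002015000000080168008006c002003a00080a1203)))) 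
(.nd (nat_lit 31) (.lf (nat_lit 1678016541) (dlOf (nat_lit 1) (nat_lit 0xc0028140b81))) 
(.lf (nat_lit 3825500189) (dlOf (nat_lit 3) (nat_lit 0x8e000000ae810063000000564080008008001c002000a0008170903))))) 
(.nd (nat_lit 6) (.nd (nat_lit 29) 
(.lf (nat_lit 1543798813) (dlOf (nat_lit 5) (nat_lit 0x1d01180150080006c02c0015d06000402300060100005701001980800090004004c000000ac8300060100004f0080698008023800202940008170903))) 
(.lf (nat_lit 1006927901) (dlOf (nat_lit 2) (nat_lit 0xc055000902a00030138012900c0080004004800080e0a02)))) 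
(.nd (nat_lit 7) 
(.lf (nat_lit 2349105245) (dlOf (nat_lit 10) (nat_lit 0x800a8000500400280540030024000300e0004004000032100024054004a024000500e000900540028020000800700060010000603800680a800100200001704002002a0000901000b01500003808002004000018040048054001601000005020002015000000080168008006c002003a00080a1203))) 
(.lf (nat_lit 4496591837) (dlOf (nat_lit 1) (nat_lit 0x4004000200080e5e02))))))) (.nd (nat_lit 21) 
(.nd (nat_lit 20) (.nd (nat_lit 6) (.nd (nat_lit 8) (.nd (nat_lit 9) 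
(.lf (nat_lit 9207837) (dlOf (nat_lit 2) (nat_lit 0x70000000760400b000200b40008530102))) 
(.lf (nat_lit 202146333) (dlOf (nat_lit 1) (nat_lit 0x600281b0d81)))) 
(.lf (nat_lit 4228677917) (dlOf (nat_lit 1) (nat_lit 0x4004000200081a0482)))) (.nd (nat_lit 7) 
(.lf (nat_lit 6376161629) (dlOf (nat_lit 1) (nat_lit 0xc0008090e01))) 
(.lf (nat_lit 4094460125) (dlOf (nat_lit 1) (nat_lit 0x20028050a01))))) (.nd (nat_lit 24) 
(.nd (nat_lit 7) (.nd (nat_lit 23) 
(.lf (nat_lit 471629853) (dlOf (nat_lit 1) (nat_lit 0xc00200020008360682))) 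
(.lf (nat_lit 10256413) (dlOf (nat_lit 2) (nat_lit 0x50a3b000460040008004000400085c0902)))) 
(.lf (nat_lit 35424669) (dlOf (nat_lit 1) (nat_lit 0x8008000400200020009014e83)))) 
(.nd (nat_lit 22) (.lf (nat_lit 18645021) (dlOf (nat_lit 1) (nat_lit 0x400200020008960682))) 
(.lf (nat_lit 22839325) (dlOf (nat_lit 1) (nat_lit 0x8008001400200020008b30483)))))) 
(.nd (nat_lit 6) (.nd (nat_lit 7) (.nd (nat_lit 26) 
(.lf (nat_lit 3492577309) (dlOf (nat_lit 4) (nat_lit 0x1619000cb0c7006a85f003682f601ac17300e30b8805c05c0037c00000226100034190001060100100b88007c80801500080030002000e00080e0483))) 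
(.lf (nat_lit 2754379805) (dlOf (nat_lit 4) (nat_lit 0x1619800cb0cb006a85ec03682f401ac17300e30b8805c05c0037c00000226100034198001070100100b88007cc0801500080030002000e00080e0483)))) 
(.nd (nat_lit 8) (.nd (nat_lit 9) 
(.lf (nat_lit 1345094813) (dlOf (nat_lit 2) (nat_lit 0x2029800080d7000440289e2b80))) 
(.lf (nat_lit 36473501) (dlOf (nat_lit 1) (nat_lit 0x40019075581)))) (.nd (nat_lit 9) 
(.lf (nat_lit 36473245) (dlOf (nat_lit 1) (nat_lit 0x40019074e81))) 
(.lf (nat_lit 8165277) (dlOf (nat_lit 1) (nat_lit 0x40020002000851a302)))))) (.nd (nat_lit 7) 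
(.nd (nat_lit 8) (.nd (nat_lit 9) 
(.lf (nat_lit 1346142301) (dlOf (nat_lit 4) (nat_lit 0x89053001cc29602060d7006c06b00002c20015053002081ae0000904009814c007d06b800000100aa000801dc00200700008e60883))) 
(.lf (nat_lit 36473437) (dlOf (nat_lit 1) (nat_lit 0xc0019075301)))) 
(.lf (nat_lit 8165213) (dlOf (nat_lit 1) (nat_lit 0x40020002000851a302)))) (.nd (nat_lit 8) 
(.lf (nat_lit 8164061) (dlOf (nat_lit 1) (nat_lit 0x8008000400200020008518c83))) 
(.lf (nat_lit 40666077) (dlOf (nat_lit 1) (nat_lit 0x1a00291f2881)))))))))) (.nd (nat_lit 15) 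
(.nd (nat_lit 28) (.nd (nat_lit 18) (.nd (nat_lit 6) (.nd (nat_lit 23) (.nd (nat_lit 7) 
(.nd (nat_lit 8) (.nd (nat_lit 9) (.nd (nat_lit 19) 
(.lf (nat_lit 3959488541) (dlOf (nat_lit 1) (nat_lit 0x8008000400200020008090003))) 
(.lf (nat_lit 2756247581) (dlOf (nat_lit 2) (nat_lit 0x606600208818220880)))) 
(.lf (nat_lit 3355509277) (dlOf (nat_lit 1) (nat_lit 0x4004000800180a1482)))) (.nd (nat_lit 27) 
(.lf (nat_lit 3825271069) (dlOf (nat_lit 2) (nat_lit 0x40000000fa040058002000800080b0482))) 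
(.lf (nat_lit 1812005149) (dlOf (nat_lit 1) (nat_lit 0x20002000a00080b0482))))) (.nd (nat_lit 8) 
(.nd (nat_lit 9) (.nd (nat_lit 19) 
(.lf (nat_lit 36766877) (dlOf (nat_lit 1) (nat_lit 0x20019072b81))) 
(.lf (nat_lit 39388317) (dlOf (nat_lit 1) (nat_lit 0x20019192b81)))) 
(.lf (nat_lit 1744898717) (dlOf (nat_lit 1) (nat_lit 0x400200020008095582)))) (.nd (nat_lit 10) 
(.lf (nat_lit 6643848093) (dlOf (nat_lit 1) (nat_lit 0x8008000400200020008009103))) 
(.lf (nat_lit 671156125) (dlOf (nat_lit 1) (nat_lit 0x8008000400200020008144283)))))) 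
(.nd (nat_lit 19) (.nd (nat_lit 20) (.nd (nat_lit 7) (.nd (nat_lit 21) 
(.lf (nat_lit 29425693) (dlOf (nat_lit 1) (nat_lit 0x400200020008e00682))) 
(.lf (nat_lit 27328541) (dlOf (nat_lit 1) (nat_lit 0x400400020018cd0682)))) 
(.lf (nat_lit 48301213) (dlOf (nat_lit 1) (nat_lit 0x400400020019402b82)))) (.nd (nat_lit 21) 
(.lf (nat_lit 47251485) (dlOf (nat_lit 3) (nat_lit 0x4bd3000e5de00057c10008af4c00517780013804000400093c0081))) 
(.lf (nat_lit 28377117) (dlOf (nat_lit 1) (nat_lit 0x400200020008d90682))))) (.nd (nat_lit 7) 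
(.nd (nat_lit 20) (.nd (nat_lit 21) 
(.lf (nat_lit 42532893) (dlOf (nat_lit 1) (nat_lit 0x20029260101))) 
(.lf (nat_lit 11075613) (dlOf (nat_lit 1) (nat_lit 0x1980018660481)))) 
(.lf (nat_lit 10027037) (dlOf (nat_lit 4) (nat_lit 0x382f0002120200441780010881001a0bc00083c0805c80080410002001800085a0a83)))) 
(.nd (nat_lit 8) (.lf (nat_lit 44632733) (dlOf (nat_lit 1) (nat_lit 0x100080084002003e0009325583))) 
(.lf (nat_lit 62458269) (dlOf (nat_lit 1) (nat_lit 0x4004000200099a4e82))))))) (.nd (nat_lit 7) 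
(.nd (nat_lit 8) (.nd (nat_lit 9) (.nd (nat_lit 10) 
(.lf (nat_lit 12648541) (dlOf (nat_lit 2) (nat_lit 0x789ac000300400e0004001000186d1202))) 
(.lf (nat_lit 3892380765) (dlOf (nat_lit 1) (nat_lit 0x360018102901)))) (.nd (nat_lit 10) 
(.lf (nat_lit 44632669) (dlOf (nat_lit 7) (nat_lit 0x33b9f00225aec000500800aee7c006d6bb00013020043b9f0023daec000340800cee7c00736bb0000c820039b9f001c5aec00006080062e7c00596bb0017000000000180040008000400200020009325303))) 
(.lf (nat_lit 3355514461) (dlOf (nat_lit 1) (nat_lit 0x4002000200080a9c02))))) (.nd (nat_lit 9) 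
(.nd (nat_lit 12) 
(.lf (nat_lit 134285661) (dlOf (nat_lit 4) (nat_lit 0x404a00b9b010002025003e9008001012801f4604001000200020008004e82))) 
(.lf (nat_lit 1073813853) (dlOf (nat_lit 1) (nat_lit 0x40040002000800ab82)))) (.nd (nat_lit 12) 
(.lf (nat_lit 2348877661) (dlOf (nat_lit 1) (nat_lit 0x20008006c00200480008003f83))) 
(.lf (nat_lit 7935837) (dlOf (nat_lit 1) (nat_lit 0x40020002000851a302)))))) (.nd (nat_lit 19) 
(.nd (nat_lit 9) 
(.lf (nat_lit 604050909) (dlOf (nat_lit 2) (nat_lit 0x140000003f0200020018009b01))) 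
(.nd (nat_lit 10) (.lf (nat_lit 2348876765) (dlOf (nat_lit 1) (nat_lit 0x400200120008002882))) 
(.lf (nat_lit 201398237) (dlOf (nat_lit 1) (nat_lit 0x2800800140020060000800a603))))) 
(.nd (nat_lit 8) (.lf (nat_lit 61408477) (dlOf (nat_lit 1) (nat_lit 0x20019922e01))) 
(.nd (nat_lit 10) (.lf (nat_lit 50921949) (dlOf (nat_lit 1) (nat_lit 0xe00194d7c81))) 
(.lf (nat_lit 7931357) (dlOf (nat_lit 1) (nat_lit 0x400200020008513602)))))))) (.nd (nat_lit 19) 
(.nd (nat_lit 6) (.nd (nat_lit 11) (.nd (nat_lit 20) (.nd (nat_lit 26) (.nd (nat_lit 30) 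
(.lf (nat_lit 671416349) (dlOf (nat_lit 1) (nat_lit 0xc0008190601))) 
(.lf (nat_lit 1745158173) (dlOf (nat_lit 8) (nat_lit 0x6001c804000d0021404c0004a060026039004601a00220098000860c0014072006e03400340130001041802980e401d00680003b040032039004501a0000e81001380d0000720400100680003802006600280b0101)))) 
(.lf (nat_lit 3288662045) (dlOf (nat_lit 1) (nat_lit 0x228008015000200ec00080a0903)))) 
(.nd (nat_lit 21) (.lf (nat_lit 5570589) (dlOf (nat_lit 1) (nat_lit 0xe00183a0681))) 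
(.lf (nat_lit 32833565) (dlOf (nat_lit 1) (nat_lit 0x1f400200d40008f20602))))) (.nd (nat_lit 7) 
(.nd (nat_lit 8) (.lf (nat_lit 20254237) (dlOf (nat_lit 1) (nat_lit 0x80080004002000200089d7103))) 
(.lf (nat_lit 54856477) (dlOf (nat_lit 1) (nat_lit 0xa8004002c0009655c02)))) 
(.lf (nat_lit 329885) (dlOf (nat_lit 1) (nat_lit 0x1400400040018004802))))) (.nd (nat_lit 8) 
(.nd (nat_lit 20) 
(.lf (nat_lit 3288662109) (dlOf (nat_lit 2) (nat_lit 0x650078000b8080118008012800200f400080a1203))) 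
(.lf (nat_lit 37027933) (dlOf (nat_lit 1) (nat_lit 0x20019081981)))) (.nd (nat_lit 7) 
(.lf (nat_lit 3959751005) (dlOf (nat_lit 1) (nat_lit 0xc00400020008138d02))) 
(.lf (nat_lit 2818905565) (dlOf (nat_lit 2) (nat_lit 0x100000003804000c004000e0008129b02)))))) 
(.nd (nat_lit 7) (.nd (nat_lit 20) (.nd (nat_lit 6) 
(.lf (nat_lit 11337757) (dlOf (nat_lit 1) (nat_lit 0x400400020008690482))) 
(.lf (nat_lit 42795101) (dlOf (nat_lit 1) (nat_lit 0x160008008400200300009280883)))) 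
(.nd (nat_lit 22) (.lf (nat_lit 2753363997) (dlOf (nat_lit 1) (nat_lit 0x20028090001))) 
(.nd (nat_lit 24) 
(.lf (nat_lit 39649309) (dlOf (nat_lit 2) (nat_lit 0x12b5b000a4dc0017841400800800003b08000200191b0101))) 
(.lf (nat_lit 22872093) (dlOf (nat_lit 1) (nat_lit 0xc00400060008b30482)))))) (.nd (nat_lit 8) 
(.nd (nat_lit 6) (.lf (nat_lit 36506269) (dlOf (nat_lit 1) (nat_lit 0x20019075581))) 
(.lf (nat_lit 8196829) (dlOf (nat_lit 1) (nat_lit 0x400200020008518c82)))) (.nd (nat_lit 11) 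
(.lf (nat_lit 8196509) (dlOf (nat_lit 1) (nat_lit 0x20018518381))) (.nd (nat_lit 20) 
(.lf (nat_lit 36506013) (dlOf (nat_lit 1) (nat_lit 0x20019074e81))) 
(.lf (nat_lit 35457437) (dlOf (nat_lit 1) (nat_lit 0xc00400080019014e82))))))))) (.nd (nat_lit 26) 
(.nd (nat_lit 18) (.nd (nat_lit 6) (.nd (nat_lit 29) (.nd (nat_lit 19) (.nd (nat_lit 21) 
(.lf (nat_lit 1343291421) (dlOf (nat_lit 3) (nat_lit 0xc802a000290100570150001400800480080074002001e00081e0583))) 
(.lf (nat_lit 1345388573) (dlOf (nat_lit 1) (nat_lit 0x20018b90101)))) 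
(.lf (nat_lit 3494445085) (dlOf (nat_lit 2) (nat_lit 0x6066004d7818220880)))) (.nd (nat_lit 7) 
(.nd (nat_lit 31) (.lf (nat_lit 939590173) (dlOf (nat_lit 1) (nat_lit 0x28002000c00080b0d82))) 
(.lf (nat_lit 3087073821) (dlOf (nat_lit 1) (nat_lit 0x180080050002000400080b0d83)))) 
(.lf (nat_lit 6174083485) (dlOf (nat_lit 1) (nat_lit 0x3000400160018054e82))))) (.nd (nat_lit 7) 
(.nd (nat_lit 8) 
(.lf (nat_lit 1345388637) (dlOf (nat_lit 1) (nat_lit 0xe0008001800200020008b90883))) 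
(.nd (nat_lit 12) (.lf (nat_lit 4563470685) (dlOf (nat_lit 1) (nat_lit 0x2c004001c0008094e82))) 
(.lf (nat_lit 4026603869) (dlOf (nat_lit 1) (nat_lit 0x18001800ab81))))) (.nd (nat_lit 27) 
(.lf (nat_lit 268501981) (dlOf (nat_lit 1) (nat_lit 0x20028052881))) 
(.lf (nat_lit 4697687005) (dlOf (nat_lit 1) (nat_lit 0x20018092881)))))) (.nd (nat_lit 6) 
(.nd (nat_lit 27) (.nd (nat_lit 19) (.nd (nat_lit 29) 
(.lf (nat_lit 4563730461) (dlOf (nat_lit 1) (nat_lit 0x200280d0081))) 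
(.lf (nat_lit 4026859549) (dlOf (nat_lit 1) (nat_lit 0x228008015000200ec00080a0903)))) 
(.lf (nat_lit 1346175005) (dlOf (nat_lit 2) (nat_lit 0x16828600d413900120668000bc180008008000400200020008e60103)))) 
(.nd (nat_lit 29) (.nd (nat_lit 30) 
(.lf (nat_lit 4697948189) (dlOf (nat_lit 1) (nat_lit 0x200280d0081))) 
(.lf (nat_lit 1476722717) (dlOf (nat_lit 1) (nat_lit 0x7a0008150481)))) 
(.lf (nat_lit 6308560925) (dlOf (nat_lit 1) (nat_lit 0xe0018100081))))) (.nd (nat_lit 7) 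
(.nd (nat_lit 27) (.nd (nat_lit 29) 
(.lf (nat_lit 4563730525) (dlOf (nat_lit 1) (nat_lit 0x4004000200080d0702))) 
(.lf (nat_lit 4026859613) (dlOf (nat_lit 2) (nat_lit 0x65007800060080118008012800200f400080a1203)))) 
(.lf (nat_lit 4697948253) (dlOf (nat_lit 1) (nat_lit 0x4004000200080d0702)))) (.nd (nat_lit 8) 
(.lf (nat_lit 402981085) (dlOf (nat_lit 1) (nat_lit 0x1600180c1a01))) 
(.lf (nat_lit 1880949725) (dlOf (nat_lit 1) (nat_lit 0x8008000400200020008d72883))))))) 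
(.nd (nat_lit 30) (.nd (nat_lit 6) (.nd (nat_lit 7) (.nd (nat_lit 18) (.nd (nat_lit 21) 
(.lf (nat_lit 470876189) (dlOf (nat_lit 3) (nat_lit 0x760090000a40400100480005002000200081c0581))) 
(.lf (nat_lit 472973341) (dlOf (nat_lit 1) (nat_lit 0xc00200060008b80602)))) 
(.lf (nat_lit 872742941) (dlOf (nat_lit 8) (nat_lit 0x6001c804000d0021404c0004a060026039004601a00220098000860c0014072006e03400340130001041802980e401d00680003b040032039004501a0000e81001380d0000720400100680003802006600280b0101)))) 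
(.nd (nat_lit 10) (.lf (nat_lit 3154706589) (dlOf (nat_lit 1) (nat_lit 0x40004001e0008310482))) 
(.lf (nat_lit 872481949) (dlOf (nat_lit 3) (nat_lit 0x4045000fd0100080228007e00800080080014002000a0008092b83))))) 
(.nd (nat_lit 7) (.nd (nat_lit 9) 
(.lf (nat_lit 469834845) (dlOf (nat_lit 11) (nat_lit 0x1e07e0002c81000f0a7000160080080538000ae0400080fc0004f02001014e000b03f000138100040538002c0fc0004d04000207e000230100090a7000581f800200480004506000607e000220100040a7000681f80007a08009c004008e001800c002))) 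
(.lf (nat_lit 2617316957) (dlOf (nat_lit 1) (nat_lit 0x18004000400080a9c02)))) (.nd (nat_lit 9) 
(.nd (nat_lit 12) (.lf (nat_lit 872482013) (dlOf (nat_lit 1) (nat_lit 0x60008092e01))) 
(.lf (nat_lit 2617316573) (dlOf (nat_lit 1) (nat_lit 0x4004000200080a9502)))) 
(.lf (nat_lit 3154184925) (dlOf (nat_lit 1) (nat_lit 0x540008105901)))))) (.nd (nat_lit 31) 
(.nd (nat_lit 7) (.nd (nat_lit 8) (.nd (nat_lit 27) 
(.lf (nat_lit 5704581149) (dlOf (nat_lit 1) (nat_lit 0xe0018100081))) 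
(.lf (nat_lit 1543831581) (dlOf (nat_lit 1) (nat_lit 0xc0008190601)))) 
(.lf (nat_lit 1409355037) (dlOf (nat_lit 1) (nat_lit 0x1c0018006781)))) (.nd (nat_lit 6) 
(.lf (nat_lit 1543572637) (dlOf (nat_lit 1) (nat_lit 0x400400020008146282))) 
(.lf (nat_lit 2080441565) (dlOf (nat_lit 1) (nat_lit 0x5800400300018092e02))))) (.nd (nat_lit 6) 
(.nd (nat_lit 8) (.nd (nat_lit 10) 
(.lf (nat_lit 3557359645) (dlOf (nat_lit 6) (nat_lit 0x660308001380802801840009a0402a00c20004c020090061000248100070308000d00802300080028002006600081c0583))) 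
(.lf (nat_lit 4094757917) (dlOf (nat_lit 1) (nat_lit 0x400200020008056002)))) 
(.lf (nat_lit 4094230813) (dlOf (nat_lit 1) (nat_lit 0x400400020008028002)))) (.nd (nat_lit 18) 
(.lf (nat_lit 3691058653) (dlOf (nat_lit 1) (nat_lit 0x20008001800200080008009b03))) 
(.lf (nat_lit 3557103069) (dlOf (nat_lit 1) (nat_lit 0x800200060008129b02))))))))) (.nd (nat_lit 6) 
(.nd (nat_lit 19) (.nd (nat_lit 18) (.nd (nat_lit 26) (.nd (nat_lit 21) (.nd (nat_lit 7) 
(.nd (nat_lit 20) 
(.lf (nat_lit 6576767005) (dlOf (nat_lit 4) (nat_lit 0x1c01a0004000004a402000400000250c0800c003401276040018004000a00180d0a02))) 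
(.lf (nat_lit 13729821) (dlOf (nat_lit 2) (nat_lit 0x60558000d1818740480)))) (.nd (nat_lit 11) 
(.lf (nat_lit 268534941) (dlOf (nat_lit 1) (nat_lit 0x20008052b81))) 
(.lf (nat_lit 101533) (dlOf (nat_lit 1) (nat_lit 0x400400020008006282))))) (.nd (nat_lit 22) 
(.nd (nat_lit 23) 
(.lf (nat_lit 52527133) (dlOf (nat_lit 1) (nat_lit 0x20008000800200080009540603))) 
(.lf (nat_lit 27361309) (dlOf (nat_lit 3) (nat_lit 0x18ced005ca810001676002d14080008008000800200020008cd0683)))) 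
(.lf (nat_lit 23167005) (dlOf (nat_lit 1) (nat_lit 0x1000400080008b60602))))) (.nd (nat_lit 27) 
(.nd (nat_lit 9) (.nd (nat_lit 28) 
(.lf (nat_lit 5972787229) (dlOf (nat_lit 1) (nat_lit 0xa600080d0a01))) 
(.lf (nat_lit 2483126301) (dlOf (nat_lit 3) (nat_lit 0x10140018e80800080a800b2404000400400020008020482)))) 
(.nd (nat_lit 7) 
(.lf (nat_lit 3288433181) (dlOf (nat_lit 1) (nat_lit 0x380080010002000a0008017f03))) 
(.lf (nat_lit 2751563421) (dlOf (nat_lit 1) (nat_lit 0x320028003a81))))) (.nd (nat_lit 7) 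
(.nd (nat_lit 29) 
(.lf (nat_lit 2348908573) (dlOf (nat_lit 3) (nat_lit 0x1014002f400800080a80164e04000400400020008020482))) 
(.lf (nat_lit 3959521309) (dlOf (nat_lit 1) (nat_lit 0x400200020008090002)))) 
(.lf (nat_lit 3691085981) (dlOf (nat_lit 1) (nat_lit 0x20008010281)))))) (.nd (nat_lit 29) 
(.nd (nat_lit 7) (.nd (nat_lit 30) (.nd (nat_lit 20) 
(.lf (nat_lit 6509920285) (dlOf (nat_lit 1) (nat_lit 0x20028160481))) 
(.lf (nat_lit 9797661) (dlOf (nat_lit 1) (nat_lit 0x1c00200020008580082)))) (.nd (nat_lit 22) 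
(.lf (nat_lit 3355803677) (dlOf (nat_lit 2) (nat_lit 0x2c02e000d6818120480))) 
(.lf (nat_lit 1346732061) (dlOf (nat_lit 2) (nat_lit 0x5509d800104080018008001c002000e0009000103))))) 
(.nd (nat_lit 10) (.lf (nat_lit 21332125) (dlOf (nat_lit 1) (nat_lit 0x20018a31281))) 
(.lf (nat_lit 52790429) (dlOf (nat_lit 2) (nat_lit 0x5129c0042204000400400020009572b82))))) 
(.nd (nat_lit 26) (.nd (nat_lit 27) (.nd (nat_lit 32) 
(.lf (nat_lit 1610973213) (dlOf (nat_lit 1) (nat_lit 0x2a00280b0101))) 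
(.lf (nat_lit 5905940509) (dlOf (nat_lit 1) (nat_lit 0x20028160481)))) 
(.lf (nat_lit 5234851869) (dlOf (nat_lit 1) (nat_lit 0x4000801ac002008c0008100083)))) 
(.nd (nat_lit 27) (.lf (nat_lit 1946517533) (dlOf (nat_lit 1) (nat_lit 0x40028090001))) 
(.lf (nat_lit 738557981) (dlOf (nat_lit 1) (nat_lit 0x2a00280b0101))))))) (.nd (nat_lit 21) 
(.nd (nat_lit 28) (.nd (nat_lit 9) (.nd (nat_lit 18) 
(.lf (nat_lit 1678344221) (dlOf (nat_lit 1) (nat_lit 0x200281f0b01))) (.nd (nat_lit 23) 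
(.lf (nat_lit 884765) (dlOf (nat_lit 2) (nat_lit 0x242a000f3018030900))) 
(.lf (nat_lit 42827805) (dlOf (nat_lit 2) (nat_lit 0x14e00000000019280100))))) (.nd (nat_lit 20) 
(.lf (nat_lit 50954781) (dlOf (nat_lit 1) (nat_lit 0x380080014002001200094d8703))) 
(.lf (nat_lit 2753135133) (dlOf (nat_lit 2) (nat_lit 0x121fd000a1818090d80))))) (.nd (nat_lit 7) 
(.nd (nat_lit 20) (.nd (nat_lit 26) 
(.lf (nat_lit 805928989) (dlOf (nat_lit 1) (nat_lit 0x200281f0b01))) 
(.lf (nat_lit 1007255581) (dlOf (nat_lit 1) (nat_lit 0x2c00080014002000c00082b0683)))) 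
(.lf (nat_lit 471433245) (dlOf (nat_lit 1) (nat_lit 0x200282f0a81)))) (.nd (nat_lit 8) 
(.lf (nat_lit 5772248221) (dlOf (nat_lit 3) (nat_lit 0x301c8007e80800300e4003f004001000200020008092b82))) 
(.lf (nat_lit 3491332509) (dlOf (nat_lit 2) (nat_lit 0x981e700406018090780)))))) (.nd (nat_lit 18) 
(.nd (nat_lit 7) (.nd (nat_lit 23) (.nd (nat_lit 26) 
(.lf (nat_lit 1881767965) (dlOf (nat_lit 2) (nat_lit 0x800eb00021819000100))) 
(.lf (nat_lit 4096360477) (dlOf (nat_lit 1) (nat_lit 0x80080004002000c0008100103)))) 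
(.lf (nat_lit 11108381) (dlOf (nat_lit 1) (nat_lit 0x40008660481)))) (.nd (nat_lit 10) 
(.lf (nat_lit 1009352861) (dlOf (nat_lit 1) (nat_lit 0x800200800009111282))) 
(.lf (nat_lit 61441181) (dlOf (nat_lit 1) (nat_lit 0x20019922b81))))) (.nd (nat_lit 20) 
(.nd (nat_lit 22) (.nd (nat_lit 26) 
(.lf (nat_lit 3492642845) (dlOf (nat_lit 1) (nat_lit 0x80080004002000200080e0483))) 
(.lf (nat_lit 2754445341) (dlOf (nat_lit 1) (nat_lit 0x80080004002000200080e0483)))) 
(.lf (nat_lit 15564829) (dlOf (nat_lit 1) (nat_lit 0x1e0018800681)))) (.nd (nat_lit 7) 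
(.lf (nat_lit 1346207773) (dlOf (nat_lit 38) (nat_lit 0x17855c00c019c0005c040060157002f0670001681001c855c00c819c02d20960002a03033c09d80e103640006c0807541b2000350203040d90001a01012906c8000cc08222055803cc2862db013b161609c82478334137c19802800cb03cd04b022d82340f3010a03a208400c7041830c01d401980e80c26073000188f100f0ab0210850c02ec276209e0cd03ba06587e602583f3410a0fb60830d6303a86ab81cc000602818042ac067414318f309d8c1904e4192819a03120cc02d906582ce025808b411a0b3a085025604183f301d41f880e60002f1a0cdc1560c3b09d86dd84e41adc19a0c1c096060f042827101d4136c0e60002e10096413b053a09c8000b4100100558002427200c00960001503024609d807784e40004808090027604421390001182023e09d802f84e40004408068c272000210201be13b0000f81024109d80f984e40003c08076827600e01390000e0202ac09d808204e40003608092827600ae1390000c82026909d807f04e400030080c602ac100413b04f909c822d03340adc12c0640085023803a806d01cc0002e200a002ac1b6c13b035d09c81200334049412c0590085010803a803e01cc0002a2001382ac078413b00d30668000501811d055819342760472139027406680ee825802b810a012e07500bd03980004c400470558064427600ec139006106680110258000241407842ac2a2a13b040d09c81660334064012c026208d01b204281f881d4000222000602ac11e013b003909c80418334000201043402760104139011f04280f981d40001e1008e42760000e0217ec13b00006810df309d800384e400018082ec42760000b0206e013b009509c8000281000185740000004026800400ae0008e60102)))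 
(.lf (nat_lit 62751901) (dlOf (nat_lit 1) (nat_lit 0x180080014002000600099a2b83)))))))) 
(.nd (nat_lit 8) (.nd (nat_lit 7) (.nd (nat_lit 25) (.nd (nat_lit 18) (.nd (nat_lit 9) 
(.nd (nat_lit 26) (.lf (nat_lit 2013364317) (dlOf (nat_lit 1) (nat_lit 0x1800400040018020782))) 
(.lf (nat_lit 1140949085) (dlOf (nat_lit 1) (nat_lit 0x1800400040018020782)))) 
(.lf (nat_lit 4496393821) (dlOf (nat_lit 1) (nat_lit 0x400400020008053902)))) (.nd (nat_lit 20) 
(.nd (nat_lit 22) (.lf (nat_lit 3154477149) (dlOf (nat_lit 1) (nat_lit 0x8002000200081a0882))) 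
(.lf (nat_lit 1346732125) (dlOf (nat_lit 2) (nat_lit 0x17a15f00be0a6006d835c000440c002800400140009000882)))) 
(.lf (nat_lit 9797725) (dlOf (nat_lit 1) (nat_lit 0x240028580701))))) (.nd (nat_lit 24) 
(.nd (nat_lit 10) (.lf (nat_lit 42827869) (dlOf (nat_lit 1) (nat_lit 0x200029280881))) 
(.lf (nat_lit 34440285) (dlOf (nat_lit 1) (nat_lit 0x1e60018fb2901)))) (.nd (nat_lit 9) 
(.lf (nat_lit 55935069) (dlOf (nat_lit 2) (nat_lit 0x45fd80042ca400044080020004001600096f0882))) 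
(.lf (nat_lit 51219037) (dlOf (nat_lit 2) (nat_lit 0x295948000000800580080044002002c0009515303)))))) 
(.nd (nat_lit 9) (.nd (nat_lit 18) 
(.lf (nat_lit 604078301) (dlOf (nat_lit 1) (nat_lit 0x8008000400200020008010583))) 
(.nd (nat_lit 22) 
(.lf (nat_lit 1208320221) (dlOf (nat_lit 1) (nat_lit 0x100080004002000200080c1c83))) 
(.lf (nat_lit 4554973) (dlOf (nat_lit 1) (nat_lit 0x20028290581))))) (.nd (nat_lit 10) 
(.nd (nat_lit 19) (.lf (nat_lit 101085) (dlOf (nat_lit 2) (nat_lit 0xd4980002a0200020018005901))) 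
(.lf (nat_lit 57248477) (dlOf (nat_lit 1) (nat_lit 0x80080004002001a0009795903)))) 
(.lf (nat_lit 364253) (dlOf (nat_lit 1) (nat_lit 0x8a0018007381)))))) (.nd (nat_lit 26) 
(.nd (nat_lit 21) (.nd (nat_lit 23) (.nd (nat_lit 27) (.nd (nat_lit 28) 
(.lf (nat_lit 5905678685) (dlOf (nat_lit 3) (nat_lit 0x100000001580800300000002604012c002002000080b0682))) 
(.lf (nat_lit 4026630493) (dlOf (nat_lit 1) (nat_lit 0x800400040008014e82)))) (.nd (nat_lit 11) 
(.lf (nat_lit 1476493661) (dlOf (nat_lit 1) (nat_lit 0x400200020008010902))) 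
(.lf (nat_lit 1744931165) (dlOf (nat_lit 1) (nat_lit 0x160028094e81))))) (.nd (nat_lit 7) 
(.nd (nat_lit 11) 
(.lf (nat_lit 47022429) (dlOf (nat_lit 2) (nat_lit 0x3b108008800800d8008001800200080009397103))) 
(.lf (nat_lit 8493405) (dlOf (nat_lit 1) (nat_lit 0x2000851ab81)))) 
(.lf (nat_lit 8754653) (dlOf (nat_lit 1) (nat_lit 0x20028519b01))))) (.nd (nat_lit 7) 
(.nd (nat_lit 11) (.lf (nat_lit 3244381) (dlOf (nat_lit 1) (nat_lit 0x500080014002000a0008200683))) 
(.lf (nat_lit 57248093) (dlOf (nat_lit 1) (nat_lit 0x100080008002000a0009794e83)))) 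
(.nd (nat_lit 9) (.lf (nat_lit 7964125) (dlOf (nat_lit 1) (nat_lit 0x8008000400200020008513603))) 
(.nd (nat_lit 18) (.lf (nat_lit 36799453) (dlOf (nat_lit 1) (nat_lit 0x40019072881))) 
(.lf (nat_lit 62751709) (dlOf (nat_lit 2) (nat_lit 0x3a65c002f0040020004001c00099a2882))))))) 
(.nd (nat_lit 18) (.nd (nat_lit 27) (.nd (nat_lit 30) 
(.lf (nat_lit 6509658461) (dlOf (nat_lit 3) (nat_lit 0x100000001580800300000002604012c002002000080b0682))) 
(.lf (nat_lit 3288432989) (dlOf (nat_lit 1) (nat_lit 0x1c00400020008014e82)))) (.nd (nat_lit 7) 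
(.lf (nat_lit 2885779805) (dlOf (nat_lit 1) (nat_lit 0x800200060008068b02))) 
(.lf (nat_lit 201425885) (dlOf (nat_lit 1) (nat_lit 0x120018002881))))) (.nd (nat_lit 7) 
(.nd (nat_lit 11) (.lf (nat_lit 3557130589) (dlOf (nat_lit 1) (nat_lit 0x20018130901))) 
(.lf (nat_lit 6376229213) (dlOf (nat_lit 2) (nat_lit 0x405000e650200020018094e81)))) 
(.lf (nat_lit 2751824861) (dlOf (nat_lit 1) (nat_lit 0x20018002881)))))))))))

end

end Pool.Agent.Lib.MP_5854e1_co.Cz
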